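import Pool.Agent.Lib.MP_6947cd_al.ZB.Pre

/-!
Problem MP_6947cd_al (Chollet).  Case B, second entry in [2/5, 17/20]: certificates of the tree, part P005 (generated).
-/

set_option autoImplicit false
set_option linter.all false

namespace Pool.Agent.Lib.MP_6947cd_al
namespace B2

open Ent Fr B1 PkA

noncomputable def p005_k0 : C1.Kn := ⟨[nat_lit 100, nat_lit 120], [nat_lit 0, nat_lit 254], [(nat_lit 0, nat_lit 0, nat_lit 0), (nat_lit 1000, nat_lit 1000, nat_lit 198)], (nat_lit 100, nat_lit 99, nat_lit 28)⟩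
noncomputable def p005_k1 : C1.Kn := ⟨[nat_lit 60, nat_lit 100, nat_lit 120], [nat_lit 0, nat_lit 0, nat_lit 254], [(nat_lit 0, nat_lit 0, nat_lit 0), (nat_lit 0, nat_lit 0, nat_lit 0), (nat_lit 1000, nat_lit 1000, nat_lit 198)], (nat_lit 100, nat_lit 99, nat_lit 28)⟩
noncomputable def p005_k2 : C1.Kn := ⟨[nat_lit 70, nat_lit 90, nat_lit 110, nat_lit 120], [nat_lit 0, nat_lit 0, nat_lit 0, nat_lit 288], [(nat_lit 0, nat_lit 0, nat_lit 0), (nat_lit 0, nat_lit 0, nat_lit 0), (nat_lit 0, nat_lit 0, nat_lit 0), (nat_lit 987, nat_lit 1000, nat_lit 285)], (nat_lit 100, nat_lit 99, nat_lit 28)⟩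
noncomputable def p005_k3 : C1.Kn := ⟨[nat_lit 40, nat_lit 90, nat_lit 110, nat_lit 120], [nat_lit 0, nat_lit 0, nat_lit 0, nat_lit 288], [(nat_lit 0, nat_lit 0, nat_lit 0), (nat_lit 0, nat_lit 0, nat_lit 0), (nat_lit 0, nat_lit 0, nat_lit 0), (nat_lit 987, nat_lit 1000, nat_lit 285)], (nat_lit 100, nat_lit 99, nat_lit 28)⟩
noncomputable def p005_k4 : C1.Kn := ⟨[nat_lit 100, nat_lit 120], [nat_lit 0, nat_lit 268], [(nat_lit 0, nat_lit 0, nat_lit 0), (nat_lit 1000, nat_lit 1000, nat_lit 210)], (nat_lit 100, nat_lit 99, nat_lit 28)⟩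
noncomputable def p005_k5 : C1.Kn := ⟨[nat_lit 60, nat_lit 100, nat_lit 120], [nat_lit 0, nat_lit 0, nat_lit 268], [(nat_lit 0, nat_lit 0, nat_lit 0), (nat_lit 0, nat_lit 0, nat_lit 0), (nat_lit 1000, nat_lit 1000, nat_lit 210)], (nat_lit 100, nat_lit 99, nat_lit 28)⟩
noncomputable def p005_k6 : C1.Kn := ⟨[nat_lit 40, nat_lit 80, nat_lit 100, nat_lit 120], [nat_lit 0, nat_lit 0, nat_lit 0, nat_lit 268], [(nat_lit 0, nat_lit 0, nat_lit 0), (nat_lit 0, nat_lit 0, nat_lit 0), (nat_lit 0, nat_lit 0, nat_lit 0), (nat_lit 1000, nat_lit 1000, nat_lit 210)], (nat_lit 100, nat_lit 99, nat_lit 28)⟩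
noncomputable def p005_k7 : C1.Kn := ⟨[nat_lit 100, nat_lit 120], [nat_lit 0, nat_lit 281], [(nat_lit 0, nat_lit 0, nat_lit 0), (nat_lit 1000, nat_lit 1000, nat_lit 219)], (nat_lit 100, nat_lit 99, nat_lit 28)⟩
noncomputable def p005_k8 : C1.Kn := ⟨[nat_lit 100, nat_lit 120], [nat_lit 0, nat_lit 281], [(nat_lit 0, nat_lit 0, nat_lit 0), (nat_lit 1000, nat_lit 1000, nat_lit 219)], (nat_lit 100, nat_lit 100, nat_lit 20)⟩
noncomputable def p005_k9 : C1.Kn := ⟨[nat_lit 40, nat_lit 90, nat_lit 100, nat_lit 110], [nat_lit 0, nat_lit 0, nat_lit 0, nat_lit 127], [(nat_lit 0, nat_lit 0, nat_lit 0), (nat_lit 0, nat_lit 0, nat_lit 0), (nat_lit 0, nat_lit 0, nat_lit 0), (nat_lit 1000, nat_lit 999, nat_lit 184)], (nat_lit 100, nat_lit 100, nat_lit 20)⟩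
noncomputable def p005_k10 : C1.Kn := ⟨[nat_lit 50, nat_lit 90, nat_lit 110], [nat_lit 0, nat_lit 0, nat_lit 25], [(nat_lit 0, nat_lit 0, nat_lit 0), (nat_lit 0, nat_lit 0, nat_lit 0), (nat_lit 1000, nat_lit 998, nat_lit 20)], (nat_lit 100, nat_lit 100, nat_lit 20)⟩
noncomputable def p005_k11 : C1.Kn := ⟨[nat_lit 40, nat_lit 80, nat_lit 100, nat_lit 110], [nat_lit 0, nat_lit 0, nat_lit 0, nat_lit 134], [(nat_lit 0, nat_lit 0, nat_lit 0), (nat_lit 0, nat_lit 0, nat_lit 0), (nat_lit 0, nat_lit 0, nat_lit 0), (nat_lit 1000, nat_lit 998, nat_lit 193)], (nat_lit 100, nat_lit 100, nat_lit 20)⟩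
noncomputable def p005_k12 : C1.Kn := ⟨[nat_lit 40, nat_lit 80, nat_lit 100, nat_lit 110], [nat_lit 0, nat_lit 0, nat_lit 0, nat_lit 141], [(nat_lit 0, nat_lit 0, nat_lit 0), (nat_lit 0, nat_lit 0, nat_lit 0), (nat_lit 0, nat_lit 0, nat_lit 0), (nat_lit 1000, nat_lit 998, nat_lit 205)], (nat_lit 100, nat_lit 100, nat_lit 20)⟩
noncomputable def p005_k13 : C1.Kn := ⟨[nat_lit 60, nat_lit 100, nat_lit 120], [nat_lit 0, nat_lit 0, nat_lit 281], [(nat_lit 0, nat_lit 0, nat_lit 0), (nat_lit 0, nat_lit 0, nat_lit 0), (nat_lit 1000, nat_lit 1000, nat_lit 219)], (nat_lit 100, nat_lit 99, nat_lit 28)⟩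
noncomputable def p005_k14 : C1.Kn := ⟨[nat_lit 60, nat_lit 100, nat_lit 120], [nat_lit 0, nat_lit 0, nat_lit 254], [(nat_lit 0, nat_lit 0, nat_lit 0), (nat_lit 0, nat_lit 0, nat_lit 0), (nat_lit 1000, nat_lit 1000, nat_lit 198)], (nat_lit 100, nat_lit 100, nat_lit 20)⟩
noncomputable def p005_k15 : C1.Kn := ⟨[nat_lit 40, nat_lit 80, nat_lit 100, nat_lit 120], [nat_lit 0, nat_lit 0, nat_lit 0, nat_lit 281], [(nat_lit 0, nat_lit 0, nat_lit 0), (nat_lit 0, nat_lit 0, nat_lit 0), (nat_lit 0, nat_lit 0, nat_lit 0), (nat_lit 1000, nat_lit 1000, nat_lit 219)], (nat_lit 100, nat_lit 99, nat_lit 28)⟩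
noncomputable def p005_k16 : C1.Kn := ⟨[nat_lit 100, nat_lit 120], [nat_lit 0, nat_lit 293], [(nat_lit 0, nat_lit 0, nat_lit 0), (nat_lit 1000, nat_lit 1000, nat_lit 229)], (nat_lit 100, nat_lit 99, nat_lit 28)⟩
noncomputable def p005_k17 : C1.Kn := ⟨[nat_lit 100, nat_lit 120], [nat_lit 0, nat_lit 293], [(nat_lit 0, nat_lit 0, nat_lit 0), (nat_lit 1000, nat_lit 1000, nat_lit 229)], (nat_lit 100, nat_lit 100, nat_lit 20)⟩
noncomputable def p005_k18 : C1.Kn := ⟨[nat_lit 40, nat_lit 90, nat_lit 100, nat_lit 120], [nat_lit 0, nat_lit 0, nat_lit 0, nat_lit 254], [(nat_lit 0, nat_lit 0, nat_lit 0), (nat_lit 0, nat_lit 0, nat_lit 0), (nat_lit 0, nat_lit 0, nat_lit 0), (nat_lit 1000, nat_lit 1000, nat_lit 198)], (nat_lit 100, nat_lit 99, nat_lit 28)⟩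
noncomputable def p005_k19 : C1.Kn := ⟨[nat_lit 40, nat_lit 80, nat_lit 100, nat_lit 120], [nat_lit 0, nat_lit 0, nat_lit 0, nat_lit 293], [(nat_lit 0, nat_lit 0, nat_lit 0), (nat_lit 0, nat_lit 0, nat_lit 0), (nat_lit 0, nat_lit 0, nat_lit 0), (nat_lit 1000, nat_lit 1000, nat_lit 229)], (nat_lit 100, nat_lit 99, nat_lit 28)⟩
noncomputable def p005_k20 : C1.Kn := ⟨[nat_lit 100, nat_lit 120], [nat_lit 0, nat_lit 306], [(nat_lit 0, nat_lit 0, nat_lit 0), (nat_lit 1000, nat_lit 1000, nat_lit 238)], (nat_lit 100, nat_lit 99, nat_lit 28)⟩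
noncomputable def p005_k21 : C1.Kn := ⟨[nat_lit 100, nat_lit 120], [nat_lit 0, nat_lit 320], [(nat_lit 0, nat_lit 0, nat_lit 0), (nat_lit 1000, nat_lit 1000, nat_lit 250)], (nat_lit 99, nat_lit 100, nat_lit 20)⟩
noncomputable def p005_k22 : C1.Kn := ⟨[nat_lit 60, nat_lit 100, nat_lit 120], [nat_lit 0, nat_lit 0, nat_lit 320], [(nat_lit 0, nat_lit 0, nat_lit 0), (nat_lit 0, nat_lit 0, nat_lit 0), (nat_lit 1000, nat_lit 1000, nat_lit 250)], (nat_lit 100, nat_lit 100, nat_lit 28)⟩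
noncomputable def p005_k23 : C1.Kn := ⟨[nat_lit 100, nat_lit 120], [nat_lit 0, nat_lit 320], [(nat_lit 0, nat_lit 0, nat_lit 0), (nat_lit 1000, nat_lit 1000, nat_lit 250)], (nat_lit 100, nat_lit 100, nat_lit 28)⟩
noncomputable def p005_k24 : C1.Kn := ⟨[nat_lit 100, nat_lit 120], [nat_lit 0, nat_lit 345], [(nat_lit 0, nat_lit 0, nat_lit 0), (nat_lit 1000, nat_lit 1000, nat_lit 270)], (nat_lit 100, nat_lit 100, nat_lit 28)⟩
noncomputable def p005_k25 : C1.Kn := ⟨[nat_lit 100, nat_lit 120], [nat_lit 0, nat_lit 332], [(nat_lit 0, nat_lit 0, nat_lit 0), (nat_lit 1000, nat_lit 1000, nat_lit 260)], (nat_lit 100, nat_lit 100, nat_lit 28)⟩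
noncomputable def p005_k26 : C1.Kn := ⟨[nat_lit 60, nat_lit 100, nat_lit 120], [nat_lit 0, nat_lit 0, nat_lit 345], [(nat_lit 0, nat_lit 0, nat_lit 0), (nat_lit 0, nat_lit 0, nat_lit 0), (nat_lit 1000, nat_lit 1000, nat_lit 270)], (nat_lit 100, nat_lit 100, nat_lit 28)⟩
noncomputable def p005_k27 : C1.Kn := ⟨[nat_lit 60, nat_lit 100, nat_lit 120], [nat_lit 0, nat_lit 0, nat_lit 293], [(nat_lit 0, nat_lit 0, nat_lit 0), (nat_lit 0, nat_lit 0, nat_lit 0), (nat_lit 1000, nat_lit 1000, nat_lit 229)], (nat_lit 100, nat_lit 100, nat_lit 20)⟩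
noncomputable def p005_k28 : C1.Kn := ⟨[nat_lit 60, nat_lit 100, nat_lit 120], [nat_lit 0, nat_lit 0, nat_lit 293], [(nat_lit 0, nat_lit 0, nat_lit 0), (nat_lit 0, nat_lit 0, nat_lit 0), (nat_lit 1000, nat_lit 1000, nat_lit 229)], (nat_lit 100, nat_lit 99, nat_lit 28)⟩
noncomputable def p005_k29 : C1.Kn := ⟨[nat_lit 60, nat_lit 100, nat_lit 120], [nat_lit 0, nat_lit 0, nat_lit 306], [(nat_lit 0, nat_lit 0, nat_lit 0), (nat_lit 0, nat_lit 0, nat_lit 0), (nat_lit 1000, nat_lit 1000, nat_lit 238)], (nat_lit 100, nat_lit 99, nat_lit 28)⟩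
noncomputable def p005_k30 : C1.Kn := ⟨[nat_lit 100, nat_lit 120], [nat_lit 0, nat_lit 358], [(nat_lit 0, nat_lit 0, nat_lit 0), (nat_lit 1000, nat_lit 1000, nat_lit 279)], (nat_lit 100, nat_lit 100, nat_lit 28)⟩
noncomputable def p005_k31 : C1.Kn := ⟨[nat_lit 60, nat_lit 100, nat_lit 120], [nat_lit 0, nat_lit 0, nat_lit 320], [(nat_lit 0, nat_lit 0, nat_lit 0), (nat_lit 0, nat_lit 0, nat_lit 0), (nat_lit 1000, nat_lit 1000, nat_lit 250)], (nat_lit 99, nat_lit 100, nat_lit 20)⟩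
noncomputable def p005_k32 : C1.Kn := ⟨[nat_lit 100, nat_lit 120], [nat_lit 0, nat_lit 383], [(nat_lit 0, nat_lit 0, nat_lit 0), (nat_lit 1000, nat_lit 1000, nat_lit 299)], (nat_lit 100, nat_lit 100, nat_lit 28)⟩
noncomputable def p005_k33 : C1.Kn := ⟨[nat_lit 100, nat_lit 120], [nat_lit 0, nat_lit 383], [(nat_lit 0, nat_lit 0, nat_lit 0), (nat_lit 1000, nat_lit 1000, nat_lit 299)], (nat_lit 99, nat_lit 100, nat_lit 20)⟩
noncomputable def p005_k34 : C1.Kn := ⟨[nat_lit 90, nat_lit 110], [nat_lit 0, nat_lit 129], [(nat_lit 0, nat_lit 0, nat_lit 0), (nat_lit 1000, nat_lit 990, nat_lit 101)], (nat_lit 99, nat_lit 100, nat_lit 20)⟩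
noncomputable def p005_k35 : C1.Kn := ⟨[nat_lit 100, nat_lit 120], [nat_lit 0, nat_lit 396], [(nat_lit 0, nat_lit 0, nat_lit 0), (nat_lit 1000, nat_lit 1000, nat_lit 309)], (nat_lit 99, nat_lit 100, nat_lit 20)⟩
noncomputable def p005_k36 : C1.Kn := ⟨[nat_lit 90, nat_lit 110], [nat_lit 0, nat_lit 141], [(nat_lit 0, nat_lit 0, nat_lit 0), (nat_lit 1000, nat_lit 989, nat_lit 110)], (nat_lit 99, nat_lit 100, nat_lit 20)⟩
noncomputable def p005_k37 : C1.Kn := ⟨[nat_lit 60, nat_lit 100, nat_lit 120], [nat_lit 0, nat_lit 0, nat_lit 383], [(nat_lit 0, nat_lit 0, nat_lit 0), (nat_lit 0, nat_lit 0, nat_lit 0), (nat_lit 1000, nat_lit 1000, nat_lit 299)], (nat_lit 100, nat_lit 100, nat_lit 28)⟩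
noncomputable def p005_k38 : C1.Kn := ⟨[nat_lit 100, nat_lit 120], [nat_lit 0, nat_lit 409], [(nat_lit 0, nat_lit 0, nat_lit 0), (nat_lit 1000, nat_lit 1000, nat_lit 319)], (nat_lit 99, nat_lit 100, nat_lit 20)⟩
noncomputable def p005_k39 : C1.Kn := ⟨[nat_lit 100, nat_lit 120], [nat_lit 0, nat_lit 409], [(nat_lit 0, nat_lit 0, nat_lit 0), (nat_lit 1000, nat_lit 1000, nat_lit 319)], (nat_lit 99, nat_lit 100, nat_lit 28)⟩
noncomputable def p005_k40 : C1.Kn := ⟨[nat_lit 60, nat_lit 100, nat_lit 120], [nat_lit 0, nat_lit 0, nat_lit 396], [(nat_lit 0, nat_lit 0, nat_lit 0), (nat_lit 0, nat_lit 0, nat_lit 0), (nat_lit 1000, nat_lit 1000, nat_lit 309)], (nat_lit 100, nat_lit 100, nat_lit 28)⟩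
noncomputable def p005_k41 : C1.Kn := ⟨[nat_lit 100, nat_lit 120], [nat_lit 0, nat_lit 396], [(nat_lit 0, nat_lit 0, nat_lit 0), (nat_lit 1000, nat_lit 1000, nat_lit 309)], (nat_lit 100, nat_lit 100, nat_lit 28)⟩
noncomputable def p005_k42 : C1.Kn := ⟨[nat_lit 60, nat_lit 100, nat_lit 120], [nat_lit 0, nat_lit 0, nat_lit 409], [(nat_lit 0, nat_lit 0, nat_lit 0), (nat_lit 0, nat_lit 0, nat_lit 0), (nat_lit 1000, nat_lit 1000, nat_lit 319)], (nat_lit 99, nat_lit 100, nat_lit 28)⟩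
noncomputable def p005_k43 : C1.Kn := ⟨[nat_lit 100, nat_lit 120], [nat_lit 0, nat_lit 422], [(nat_lit 0, nat_lit 0, nat_lit 0), (nat_lit 1000, nat_lit 1000, nat_lit 329)], (nat_lit 99, nat_lit 100, nat_lit 20)⟩
noncomputable def p005_k44 : C1.Kn := ⟨[nat_lit 100, nat_lit 120], [nat_lit 0, nat_lit 422], [(nat_lit 0, nat_lit 0, nat_lit 0), (nat_lit 1000, nat_lit 1000, nat_lit 329)], (nat_lit 99, nat_lit 100, nat_lit 28)⟩
noncomputable def p005_k45 : C1.Kn := ⟨[nat_lit 100, nat_lit 120], [nat_lit 0, nat_lit 435], [(nat_lit 0, nat_lit 0, nat_lit 0), (nat_lit 1000, nat_lit 1000, nat_lit 339)], (nat_lit 99, nat_lit 100, nat_lit 28)⟩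
noncomputable def p005_k46 : C1.Kn := ⟨[nat_lit 100, nat_lit 120], [nat_lit 0, nat_lit 448], [(nat_lit 0, nat_lit 0, nat_lit 0), (nat_lit 1000, nat_lit 1000, nat_lit 350)], (nat_lit 99, nat_lit 100, nat_lit 28)⟩
noncomputable def p005_k47 : C1.Kn := ⟨[nat_lit 100, nat_lit 120], [nat_lit 0, nat_lit 486], [(nat_lit 0, nat_lit 0, nat_lit 0), (nat_lit 1000, nat_lit 999, nat_lit 375)], (nat_lit 99, nat_lit 100, nat_lit 28)⟩
noncomputable def p005_k48 : C1.Kn := ⟨[nat_lit 70, nat_lit 90, nat_lit 110, nat_lit 130, nat_lit 140], [nat_lit 0, nat_lit 0, nat_lit 0, nat_lit 517, nat_lit 788], [(nat_lit 0, nat_lit 0, nat_lit 0), (nat_lit 0, nat_lit 0, nat_lit 0), (nat_lit 0, nat_lit 0, nat_lit 0), (nat_lit 962, nat_lit 1000, nat_lit 387), (nat_lit 956, nat_lit 1000, nat_lit 405)], (nat_lit 100, nat_lit 94, nat_lit 44)⟩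
noncomputable def p005_k49 : C1.Kn := ⟨[nat_lit 50, nat_lit 90, nat_lit 110, nat_lit 140], [nat_lit 0, nat_lit 0, nat_lit 61, nat_lit 839], [(nat_lit 0, nat_lit 0, nat_lit 0), (nat_lit 0, nat_lit 0, nat_lit 0), (nat_lit 1000, nat_lit 995, nat_lit 48), (nat_lit 970, nat_lit 1000, nat_lit 393)], (nat_lit 100, nat_lit 95, nat_lit 44)⟩
noncomputable def p005_k50 : C1.Kn := ⟨[nat_lit 50, nat_lit 90, nat_lit 110, nat_lit 140], [nat_lit 0, nat_lit 0, nat_lit 88, nat_lit 860], [(nat_lit 0, nat_lit 0, nat_lit 0), (nat_lit 0, nat_lit 0, nat_lit 0), (nat_lit 1000, nat_lit 993, nat_lit 69), (nat_lit 975, nat_lit 1000, nat_lit 391)], (nat_lit 100, nat_lit 96, nat_lit 44)⟩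
noncomputable def p005_k51 : C1.Kn := ⟨[nat_lit 50, nat_lit 90, nat_lit 110, nat_lit 140], [nat_lit 0, nat_lit 0, nat_lit 102, nat_lit 871], [(nat_lit 0, nat_lit 0, nat_lit 0), (nat_lit 0, nat_lit 0, nat_lit 0), (nat_lit 1000, nat_lit 992, nat_lit 80), (nat_lit 977, nat_lit 1000, nat_lit 390)], (nat_lit 100, nat_lit 96, nat_lit 44)⟩
noncomputable def p005_k52 : C1.Kn := ⟨[nat_lit 50, nat_lit 90, nat_lit 110, nat_lit 140], [nat_lit 0, nat_lit 0, nat_lit 114, nat_lit 885], [(nat_lit 0, nat_lit 0, nat_lit 0), (nat_lit 0, nat_lit 0, nat_lit 0), (nat_lit 1000, nat_lit 991, nat_lit 89), (nat_lit 979, nat_lit 1000, nat_lit 392)], (nat_lit 100, nat_lit 96, nat_lit 44)⟩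
noncomputable def p005_k53 : C1.Kn := ⟨[nat_lit 100, nat_lit 140], [nat_lit 0, nat_lit 508], [(nat_lit 0, nat_lit 0, nat_lit 0), (nat_lit 1000, nat_lit 1000, nat_lit 198)], (nat_lit 100, nat_lit 94, nat_lit 44)⟩
noncomputable def p005_k54 : C1.Kn := ⟨[nat_lit 50, nat_lit 90, nat_lit 110, nat_lit 130], [nat_lit 0, nat_lit 0, nat_lit 129, nat_lit 640], [(nat_lit 0, nat_lit 0, nat_lit 0), (nat_lit 0, nat_lit 0, nat_lit 0), (nat_lit 1000, nat_lit 990, nat_lit 101), (nat_lit 981, nat_lit 1000, nat_lit 391)], (nat_lit 100, nat_lit 97, nat_lit 44)⟩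
noncomputable def p005_k55 : C1.Kn := ⟨[nat_lit 50, nat_lit 90, nat_lit 110, nat_lit 130], [nat_lit 0, nat_lit 0, nat_lit 166, nat_lit 678], [(nat_lit 0, nat_lit 0, nat_lit 0), (nat_lit 0, nat_lit 0, nat_lit 0), (nat_lit 1000, nat_lit 987, nat_lit 129), (nat_lit 986, nat_lit 1000, nat_lit 394)], (nat_lit 100, nat_lit 97, nat_lit 44)⟩
noncomputable def p005_k56 : C1.Kn := ⟨[nat_lit 50, nat_lit 90, nat_lit 110, nat_lit 130], [nat_lit 0, nat_lit 0, nat_lit 192, nat_lit 703], [(nat_lit 0, nat_lit 0, nat_lit 0), (nat_lit 0, nat_lit 0, nat_lit 0), (nat_lit 1000, nat_lit 985, nat_lit 150), (nat_lit 990, nat_lit 1000, nat_lit 395)], (nat_lit 100, nat_lit 98, nat_lit 44)⟩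
noncomputable def p005_k57 : C1.Kn := ⟨[nat_lit 100, nat_lit 140], [nat_lit 0, nat_lit 766], [(nat_lit 0, nat_lit 0, nat_lit 0), (nat_lit 1000, nat_lit 1000, nat_lit 299)], (nat_lit 100, nat_lit 97, nat_lit 44)⟩
noncomputable def p005_k58 : C1.Kn := ⟨[nat_lit 100, nat_lit 120, nat_lit 140], [nat_lit 0, nat_lit 254, nat_lit 778], [(nat_lit 0, nat_lit 0, nat_lit 0), (nat_lit 1000, nat_lit 1000, nat_lit 198), (nat_lit 960, nat_lit 1000, nat_lit 392)], (nat_lit 100, nat_lit 94, nat_lit 44)⟩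
noncomputable def p005_k59 : C1.Kn := ⟨[nat_lit 100, nat_lit 120, nat_lit 140], [nat_lit 0, nat_lit 293, nat_lit 817], [(nat_lit 0, nat_lit 0, nat_lit 0), (nat_lit 1000, nat_lit 1000, nat_lit 229), (nat_lit 965, nat_lit 1000, nat_lit 395)], (nat_lit 100, nat_lit 95, nat_lit 44)⟩
noncomputable def p005_k60 : C1.Kn := ⟨[nat_lit 100, nat_lit 120, nat_lit 140], [nat_lit 0, nat_lit 306, nat_lit 828], [(nat_lit 0, nat_lit 0, nat_lit 0), (nat_lit 1000, nat_lit 1000, nat_lit 238), (nat_lit 968, nat_lit 1000, nat_lit 394)], (nat_lit 100, nat_lit 95, nat_lit 44)⟩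
noncomputable def p005_k61 : C1.Kn := ⟨[nat_lit 90, nat_lit 110, nat_lit 140], [nat_lit 0, nat_lit 51, nat_lit 822], [(nat_lit 0, nat_lit 0, nat_lit 0), (nat_lit 1000, nat_lit 996, nat_lit 40), (nat_lit 969, nat_lit 1000, nat_lit 388)], (nat_lit 100, nat_lit 95, nat_lit 44)⟩
noncomputable def p005_k62 : C1.Kn := ⟨[nat_lit 100, nat_lit 140], [nat_lit 0, nat_lit 586], [(nat_lit 0, nat_lit 0, nat_lit 0), (nat_lit 1000, nat_lit 1000, nat_lit 229)], (nat_lit 100, nat_lit 95, nat_lit 44)⟩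
noncomputable def p005_k63 : C1.Kn := ⟨[nat_lit 90, nat_lit 110, nat_lit 140], [nat_lit 0, nat_lit 61, nat_lit 839], [(nat_lit 0, nat_lit 0, nat_lit 0), (nat_lit 1000, nat_lit 995, nat_lit 48), (nat_lit 970, nat_lit 1000, nat_lit 393)], (nat_lit 100, nat_lit 95, nat_lit 44)⟩
noncomputable def p005_k64 : C1.Kn := ⟨[nat_lit 90, nat_lit 110, nat_lit 140], [nat_lit 0, nat_lit 76, nat_lit 847], [(nat_lit 0, nat_lit 0, nat_lit 0), (nat_lit 1000, nat_lit 994, nat_lit 60), (nat_lit 973, nat_lit 1000, nat_lit 389)], (nat_lit 100, nat_lit 96, nat_lit 44)⟩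
noncomputable def p005_k65 : C1.Kn := ⟨[nat_lit 50, nat_lit 90, nat_lit 110, nat_lit 140], [nat_lit 0, nat_lit 0, nat_lit 76, nat_lit 847], [(nat_lit 0, nat_lit 0, nat_lit 0), (nat_lit 0, nat_lit 0, nat_lit 0), (nat_lit 1000, nat_lit 994, nat_lit 60), (nat_lit 973, nat_lit 1000, nat_lit 389)], (nat_lit 100, nat_lit 96, nat_lit 44)⟩
noncomputable def p005_k66 : C1.Kn := ⟨[nat_lit 90, nat_lit 110, nat_lit 140], [nat_lit 0, nat_lit 88, nat_lit 860], [(nat_lit 0, nat_lit 0, nat_lit 0), (nat_lit 1000, nat_lit 993, nat_lit 69), (nat_lit 975, nat_lit 1000, nat_lit 391)], (nat_lit 100, nat_lit 96, nat_lit 44)⟩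
noncomputable def p005_k67 : C1.Kn := ⟨[nat_lit 90, nat_lit 110, nat_lit 140], [nat_lit 0, nat_lit 102, nat_lit 871], [(nat_lit 0, nat_lit 0, nat_lit 0), (nat_lit 1000, nat_lit 992, nat_lit 80), (nat_lit 977, nat_lit 1000, nat_lit 390)], (nat_lit 100, nat_lit 96, nat_lit 44)⟩
noncomputable def p005_k68 : C1.Kn := ⟨[nat_lit 90, nat_lit 110, nat_lit 140], [nat_lit 0, nat_lit 114, nat_lit 885], [(nat_lit 0, nat_lit 0, nat_lit 0), (nat_lit 1000, nat_lit 991, nat_lit 89), (nat_lit 979, nat_lit 1000, nat_lit 392)], (nat_lit 100, nat_lit 96, nat_lit 44)⟩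
noncomputable def p005_k69 : C1.Kn := ⟨[nat_lit 100, nat_lit 120, nat_lit 140], [nat_lit 0, nat_lit 358, nat_lit 874], [(nat_lit 0, nat_lit 0, nat_lit 0), (nat_lit 1000, nat_lit 1000, nat_lit 279), (nat_lit 976, nat_lit 1000, nat_lit 393)], (nat_lit 100, nat_lit 96, nat_lit 44)⟩
noncomputable def p005_l0 : Lf2 := ⟨nat_lit 0, nat_lit 2, [nat_lit 10, nat_lit 5, nat_lit 5, nat_lit 20], false, nat_lit 0, nat_lit 0, nat_lit 0, nat_lit 0, ⟨nat_lit 1000, nat_lit 0, nat_lit 0, nat_lit 0, nat_lit 0, nat_lit 0, nat_lit 0, nat_lit 0, nat_lit 0, nat_lit 0, nat_lit 0, nat_lit 0, nat_lit 0, nat_lit 0, nat_lit 0, nat_lit 0, false, false⟩,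
 nat_lit 0, nat_lit 27970, nat_lit 0, nat_lit 0, nat_lit 13376, nat_lit 0, nat_lit 1792, nat_lit 0, nat_lit 0, nat_lit 521, nat_lit 0, nat_lit 697, nat_lit 0, nat_lit 14862756379114, nat_lit 0, nat_lit 0, nat_lit 0, nat_lit 0, [],
 ⟨p005_k0, nat_lit 0, nat_lit 0, nat_lit 290, nat_lit 0, nat_lit 158371, [nat_lit 6250000000, nat_lit 7968000000], [], [nat_lit 25724460128, nat_lit 25613096921, nat_lit 25619351456, nat_lit 25277227887], nat_lit 1271250, nat_lit 1271250, nat_lit 21650, nat_lit 43600, nat_lit 0, nat_lit 0, [nat_lit 1412500, nat_lit 1271250], [nat_lit 26, nat_lit 40, nat_lit 20, nat_lit 80, nat_lit 2, nat_lit 272, nat_lit 60, nat_lit 10]⟩, ⟨p005_k1, nat_lit 0, nat_lit 0, nat_lit 0, nat_lit 0, nat_lit 0, [nat_lit 3282000000, nat_lit 6250000000, nat_lit 7968000000], [], [nat_lit 2591042400, nat_lit 2631081841, nat_lit 2635436400, nat_lit 2676008180], nat_lit 0, nat_lit 0, nat_lit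 0, nat_lit 0, nat_lit 0, nat_lit 0, [], [nat_lit 18, nat_lit 40, nat_lit 20, nat_lit 80]⟩,
 zbF0, [⟨nat_lit 0, nat_lit 100, nat_lit 100, nat_lit 20, nat_lit 970901319⟩]⟩
noncomputable def p005_l1 : Lf2 := ⟨nat_lit 0, nat_lit 2, [nat_lit 10, nat_lit 5, nat_lit 5, nat_lit 20], true, nat_lit 0, nat_lit 0, nat_lit 0, nat_lit 0, ⟨nat_lit 0, nat_lit 0, nat_lit 1000, nat_lit 5, nat_lit 42, nat_lit 0, nat_lit 0, nat_lit 0, nat_lit 0, nat_lit 215, nat_lit 16017, nat_lit 246, nat_lit 66274898, nat_lit 0, nat_lit 0, nat_lit 298556, false, false⟩,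
 nat_lit 0, nat_lit 8079, nat_lit 0, nat_lit 0, nat_lit 3863, nat_lit 0, nat_lit 271, nat_lit 0, nat_lit 0, nat_lit 0, nat_lit 0, nat_lit 0, nat_lit 0, nat_lit 21421555605550, nat_lit 53, nat_lit 1000000, nat_lit 0, nat_lit 0, [(nat_lit 3, [(nat_lit 6, nat_lit 1000)])],
 ⟨p005_k2, nat_lit 0, nat_lit 0, nat_lit 0, nat_lit 0, nat_lit 158371, [nat_lit 1529200000, nat_lit 1695200000, nat_lit 716000001, nat_lit 11600000], [], [nat_lit 13189003813, nat_lit 13237118818, nat_lit 13007777072, nat_lit 13052616705], nat_lit 1271250, nat_lit 1271250, nat_lit 21650, nat_lit 43600, nat_lit 0, nat_lit 0, [nat_lit 936250, nat_lit 1271250, nat_lit 1271250, nat_lit 1271250], [nat_lit 197, nat_lit 40, nat_lit 20, nat_lit 40]⟩, C1.Rw.none,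
 ⟨nat_lit 6689, nat_lit 6709, ⟨.ofNat (nat_lit 99275), .ofNat (nat_lit 107890), .ofNat (nat_lit 100347), .ofNat (nat_lit 108962), .ofNat (nat_lit 100245), .ofNat (nat_lit 108840), .ofNat (nat_lit 101316), .ofNat (nat_lit 109912)⟩, ⟨.ofNat (nat_lit 0), .ofNat (nat_lit 0), .ofNat (nat_lit 0), .ofNat (nat_lit 0), .ofNat (nat_lit 0), .ofNat (nat_lit 0), .ofNat (nat_lit 0), .ofNat (nat_lit 0)⟩⟩, [⟨nat_lit 0, nat_lit 100, nat_lit 100, nat_lit 21, nat_lit 337157115⟩]⟩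
noncomputable def p005_l2 : Lf2 := ⟨nat_lit 0, nat_lit 2, [nat_lit 10, nat_lit 5, nat_lit 5, nat_lit 20], true, nat_lit 0, nat_lit 0, nat_lit 0, nat_lit 0, ⟨nat_lit 0, nat_lit 0, nat_lit 1000, nat_lit 5, nat_lit 42, nat_lit 0, nat_lit 0, nat_lit 0, nat_lit 0, nat_lit 215, nat_lit 16017, nat_lit 246, nat_lit 66274898, nat_lit 0, nat_lit 0, nat_lit 298556, false, false⟩,
 nat_lit 0, nat_lit 100000, nat_lit 0, nat_lit 0, nat_lit 47826, nat_lit 0, nat_lit 0, nat_lit 2407, nat_lit 0, nat_lit 0, nat_lit 0, nat_lit 0, nat_lit 0, nat_lit 400000000000000, nat_lit 0, nat_lit 1000000, nat_lit 0, nat_lit 0, [(nat_lit 3, [(nat_lit 6, nat_lit 1000)])],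
 ⟨p005_k0, nat_lit 0, nat_lit 0, nat_lit 290, nat_lit 0, nat_lit 158371, [nat_lit 49181142858, nat_lit 56507600000], [], [nat_lit 120451248302, nat_lit 119433511480, nat_lit 119849301730, nat_lit 118626036042], nat_lit 1271250, nat_lit 1271250, nat_lit 21650, nat_lit 43600, nat_lit 0, nat_lit 0, [nat_lit 1412500, nat_lit 1271250], [nat_lit 26, nat_lit 40, nat_lit 20, nat_lit 80, nat_lit 2, nat_lit 272, nat_lit 60, nat_lit 10]⟩, C1.Rw.none,
 ⟨nat_lit 6689, nat_lit 6709, ⟨.ofNat (nat_lit 99275), .ofNat (nat_lit 107890), .ofNat (nat_lit 100347), .ofNat (nat_lit 108962), .ofNat (nat_lit 100245), .ofNat (nat_lit 108840), .ofNat (nat_lit 101316), .ofNat (nat_lit 109912)⟩, ⟨.ofNat (nat_lit 0), .ofNat (nat_lit 0), .ofNat (nat_lit 0), .ofNat (nat_lit 0), .ofNat (nat_lit 0), .ofNat (nat_lit 0), .ofNat (nat_lit 0), .ofNat (nat_lit 0)⟩⟩, []⟩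
noncomputable def p005_l3 : Lf2 := ⟨nat_lit 0, nat_lit 2, [nat_lit 10, nat_lit 5, nat_lit 5, nat_lit 20], true, nat_lit 0, nat_lit 0, nat_lit 0, nat_lit 0, ⟨nat_lit 0, nat_lit 0, nat_lit 1000, nat_lit 5, nat_lit 42, nat_lit 0, nat_lit 0, nat_lit 0, nat_lit 0, nat_lit 215, nat_lit 16017, nat_lit 246, nat_lit 66274898, nat_lit 0, nat_lit 0, nat_lit 298556, false, false⟩,
 nat_lit 0, nat_lit 8079, nat_lit 0, nat_lit 0, nat_lit 3863, nat_lit 0, nat_lit 271, nat_lit 0, nat_lit 0, nat_lit 0, nat_lit 0, nat_lit 0, nat_lit 0, nat_lit 21421555605550, nat_lit 53, nat_lit 1000000, nat_lit 0, nat_lit 0, [(nat_lit 3, [(nat_lit 6, nat_lit 1000)])],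
 ⟨p005_k2, nat_lit 0, nat_lit 0, nat_lit 0, nat_lit 0, nat_lit 158371, [nat_lit 1529200000, nat_lit 1695200000, nat_lit 716000001, nat_lit 11600000], [], [nat_lit 13189003813, nat_lit 13237118818, nat_lit 13007777072, nat_lit 13052616705], nat_lit 1271250, nat_lit 1271250, nat_lit 21650, nat_lit 43600, nat_lit 0, nat_lit 0, [nat_lit 936250, nat_lit 1271250, nat_lit 1271250, nat_lit 1271250], [nat_lit 197, nat_lit 40, nat_lit 20, nat_lit 40]⟩, C1.Rw.none,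
 ⟨nat_lit 6689, nat_lit 6709, ⟨.ofNat (nat_lit 99275), .ofNat (nat_lit 107890), .ofNat (nat_lit 100347), .ofNat (nat_lit 108962), .ofNat (nat_lit 100245), .ofNat (nat_lit 108840), .ofNat (nat_lit 101316), .ofNat (nat_lit 109912)⟩, ⟨.ofNat (nat_lit 0), .ofNat (nat_lit 0), .ofNat (nat_lit 0), .ofNat (nat_lit 0), .ofNat (nat_lit 0), .ofNat (nat_lit 0), .ofNat (nat_lit 0), .ofNat (nat_lit 0)⟩⟩, [⟨nat_lit 0, nat_lit 100, nat_lit 100, nat_lit 21, nat_lit 337157115⟩]⟩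
noncomputable def p005_l4 : Lf2 := ⟨nat_lit 0, nat_lit 2, [nat_lit 10, nat_lit 5, nat_lit 5, nat_lit 20], true, nat_lit 0, nat_lit 0, nat_lit 0, nat_lit 0, ⟨nat_lit 0, nat_lit 0, nat_lit 1000, nat_lit 5, nat_lit 42, nat_lit 0, nat_lit 0, nat_lit 0, nat_lit 0, nat_lit 215, nat_lit 16017, nat_lit 246, nat_lit 66274898, nat_lit 0, nat_lit 0, nat_lit 298556, false, false⟩,
 nat_lit 0, nat_lit 100000, nat_lit 0, nat_lit 0, nat_lit 47826, nat_lit 0, nat_lit 0, nat_lit 2407, nat_lit 0, nat_lit 0, nat_lit 0, nat_lit 0, nat_lit 0, nat_lit 400000000000000, nat_lit 0, nat_lit 1000000, nat_lit 0, nat_lit 0, [(nat_lit 3, [(nat_lit 6, nat_lit 1000)])],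
 ⟨p005_k0, nat_lit 0, nat_lit 0, nat_lit 290, nat_lit 0, nat_lit 158371, [nat_lit 49181142858, nat_lit 56507600000], [], [nat_lit 120451248302, nat_lit 119433511480, nat_lit 119849301730, nat_lit 118626036042], nat_lit 1271250, nat_lit 1271250, nat_lit 21650, nat_lit 43600, nat_lit 0, nat_lit 0, [nat_lit 1412500, nat_lit 1271250], [nat_lit 26, nat_lit 40, nat_lit 20, nat_lit 80, nat_lit 2, nat_lit 272, nat_lit 60, nat_lit 10]⟩, C1.Rw.none,
 ⟨nat_lit 6689, nat_lit 6709, ⟨.ofNat (nat_lit 99275), .ofNat (nat_lit 107890), .ofNat (nat_lit 100347), .ofNat (nat_lit 108962), .ofNat (nat_lit 100245), .ofNat (nat_lit 108840), .ofNat (nat_lit 101316), .ofNat (nat_lit 109912)⟩, ⟨.ofNat (nat_lit 0), .ofNat (nat_lit 0), .ofNat (nat_lit 0), .ofNat (nat_lit 0), .ofNat (nat_lit 0), .ofNat (nat_lit 0), .ofNat (nat_lit 0), .ofNat (nat_lit 0)⟩⟩, []⟩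
noncomputable def p005_l5 : Lf2 := ⟨nat_lit 0, nat_lit 2, [nat_lit 10, nat_lit 5, nat_lit 5, nat_lit 20], true, nat_lit 0, nat_lit 0, nat_lit 0, nat_lit 0, ⟨nat_lit 0, nat_lit 0, nat_lit 1000, nat_lit 5, nat_lit 42, nat_lit 0, nat_lit 0, nat_lit 0, nat_lit 0, nat_lit 215, nat_lit 16017, nat_lit 246, nat_lit 66274898, nat_lit 0, nat_lit 0, nat_lit 298556, false, false⟩,
 nat_lit 0, nat_lit 8079, nat_lit 0, nat_lit 0, nat_lit 3863, nat_lit 0, nat_lit 271, nat_lit 0, nat_lit 0, nat_lit 0, nat_lit 0, nat_lit 0, nat_lit 0, nat_lit 21421555605550, nat_lit 53, nat_lit 1000000, nat_lit 0, nat_lit 0, [(nat_lit 3, [(nat_lit 6, nat_lit 1000)])],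
 ⟨p005_k2, nat_lit 0, nat_lit 0, nat_lit 0, nat_lit 0, nat_lit 158371, [nat_lit 1529200000, nat_lit 1695200000, nat_lit 716000001, nat_lit 11600000], [], [nat_lit 13189003813, nat_lit 13237118818, nat_lit 13007777072, nat_lit 13052616705], nat_lit 1271250, nat_lit 1271250, nat_lit 21650, nat_lit 43600, nat_lit 0, nat_lit 0, [nat_lit 936250, nat_lit 1271250, nat_lit 1271250, nat_lit 1271250], [nat_lit 197, nat_lit 40, nat_lit 20, nat_lit 40]⟩, C1.Rw.none,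
 ⟨nat_lit 6689, nat_lit 6709, ⟨.ofNat (nat_lit 99275), .ofNat (nat_lit 107890), .ofNat (nat_lit 100347), .ofNat (nat_lit 108962), .ofNat (nat_lit 100245), .ofNat (nat_lit 108840), .ofNat (nat_lit 101316), .ofNat (nat_lit 109912)⟩, ⟨.ofNat (nat_lit 0), .ofNat (nat_lit 0), .ofNat (nat_lit 0), .ofNat (nat_lit 0), .ofNat (nat_lit 0), .ofNat (nat_lit 0), .ofNat (nat_lit 0), .ofNat (nat_lit 0)⟩⟩, [⟨nat_lit 0, nat_lit 100, nat_lit 100, nat_lit 21, nat_lit 337157115⟩]⟩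
noncomputable def p005_l6 : Lf2 := ⟨nat_lit 0, nat_lit 2, [nat_lit 10, nat_lit 5, nat_lit 5, nat_lit 20], true, nat_lit 0, nat_lit 0, nat_lit 0, nat_lit 0, ⟨nat_lit 0, nat_lit 0, nat_lit 1000, nat_lit 5, nat_lit 42, nat_lit 0, nat_lit 0, nat_lit 0, nat_lit 0, nat_lit 215, nat_lit 16017, nat_lit 246, nat_lit 66274898, nat_lit 0, nat_lit 0, nat_lit 298556, false, false⟩,
 nat_lit 0, nat_lit 100000, nat_lit 0, nat_lit 0, nat_lit 47826, nat_lit 0, nat_lit 0, nat_lit 2407, nat_lit 0, nat_lit 0, nat_lit 0, nat_lit 0, nat_lit 0, nat_lit 400000000000000, nat_lit 0, nat_lit 1000000, nat_lit 0, nat_lit 0, [(nat_lit 3, [(nat_lit 6, nat_lit 1000)])],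
 ⟨p005_k0, nat_lit 0, nat_lit 0, nat_lit 290, nat_lit 0, nat_lit 158371, [nat_lit 49181142858, nat_lit 56507600000], [], [nat_lit 120451248302, nat_lit 119433511480, nat_lit 119849301730, nat_lit 118626036042], nat_lit 1271250, nat_lit 1271250, nat_lit 21650, nat_lit 43600, nat_lit 0, nat_lit 0, [nat_lit 1412500, nat_lit 1271250], [nat_lit 26, nat_lit 40, nat_lit 20, nat_lit 80, nat_lit 2, nat_lit 272, nat_lit 60, nat_lit 10]⟩, C1.Rw.none,
 ⟨nat_lit 6689, nat_lit 6709, ⟨.ofNat (nat_lit 99275), .ofNat (nat_lit 107890), .ofNat (nat_lit 100347), .ofNat (nat_lit 108962), .ofNat (nat_lit 100245), .ofNat (nat_lit 108840), .ofNat (nat_lit 101316), .ofNat (nat_lit 109912)⟩, ⟨.ofNat (nat_lit 0), .ofNat (nat_lit 0), .ofNat (nat_lit 0), .ofNat (nat_lit 0), .ofNat (nat_lit 0), .ofNat (nat_lit 0), .ofNat (nat_lit 0), .ofNat (nat_lit 0)⟩⟩, []⟩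
noncomputable def p005_l7 : Lf2 := ⟨nat_lit 0, nat_lit 2, [nat_lit 10, nat_lit 5, nat_lit 5, nat_lit 20], false, nat_lit 0, nat_lit 0, nat_lit 0, nat_lit 0, ⟨nat_lit 568, nat_lit 0, nat_lit 432, nat_lit 5, nat_lit 42, nat_lit 0, nat_lit 0, nat_lit 0, nat_lit 0, nat_lit 215, nat_lit 16017, nat_lit 246, nat_lit 66274898, nat_lit 0, nat_lit 0, nat_lit 298556, false, false⟩,
 nat_lit 0, nat_lit 22329, nat_lit 0, nat_lit 0, nat_lit 10679, nat_lit 100000, nat_lit 0, nat_lit 0, nat_lit 0, nat_lit 43915, nat_lit 11614, nat_lit 0, nat_lit 0, nat_lit 86074008635273, nat_lit 0, nat_lit 432000, nat_lit 0, nat_lit 0, [(nat_lit 3, [(nat_lit 6, nat_lit 432)])],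
 ⟨p005_k0, nat_lit 0, nat_lit 0, nat_lit 290, nat_lit 0, nat_lit 158371, [nat_lit 3999773715, nat_lit 3981331200], [], [nat_lit 21640769057, nat_lit 21532588291, nat_lit 21574556519, nat_lit 21301415251], nat_lit 1271250, nat_lit 1271250, nat_lit 21650, nat_lit 43600, nat_lit 0, nat_lit 0, [nat_lit 1412500, nat_lit 1271250], [nat_lit 26, nat_lit 40, nat_lit 20, nat_lit 80, nat_lit 2, nat_lit 272, nat_lit 60, nat_lit 10]⟩, ⟨p005_k3, nat_lit 0, nat_lit 0, nat_lit 0, nat_lit 0, nat_lit 0, [nat_lit 94066176000, nat_lit 212147316000, nat_lit 259534836000, nat_lit 283261824000], [], [nat_lit 297226586429, nat_lit 297902869430, nat_lit 290837961690, nat_lit 291509842137], nat_lit 0, nat_lit 0, nat_lit 0, nat_lit 0, nat_lit 0, nat_lit 0, [], [nat_lit 225, nat_lit 40, nat_lit 20, nat_lit 40]⟩,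
 ⟨nat_lit 6689, nat_lit 6709, ⟨.ofNat (nat_lit 99275), .ofNat (nat_lit 107890), .ofNat (nat_lit 100347), .ofNat (nat_lit 108962), .ofNat (nat_lit 100245), .ofNat (nat_lit 108840), .ofNat (nat_lit 101316), .ofNat (nat_lit 109912)⟩, ⟨.ofNat (nat_lit 0), .ofNat (nat_lit 0), .ofNat (nat_lit 0), .ofNat (nat_lit 0), .ofNat (nat_lit 0), .ofNat (nat_lit 0), .ofNat (nat_lit 0), .ofNat (nat_lit 0)⟩⟩, [⟨nat_lit 0, nat_lit 100, nat_lit 100, nat_lit 21, nat_lit 8625258574⟩]⟩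
noncomputable def p005_l8 : Lf2 := ⟨nat_lit 0, nat_lit 2, [nat_lit 10, nat_lit 5, nat_lit 5, nat_lit 20], false, nat_lit 0, nat_lit 0, nat_lit 0, nat_lit 0, ⟨nat_lit 1000, nat_lit 0, nat_lit 0, nat_lit 0, nat_lit 0, nat_lit 0, nat_lit 0, nat_lit 0, nat_lit 0, nat_lit 0, nat_lit 0, nat_lit 0, nat_lit 0, nat_lit 0, nat_lit 0, nat_lit 0, false, false⟩,
 nat_lit 0, nat_lit 28911, nat_lit 0, nat_lit 0, nat_lit 13827, nat_lit 0, nat_lit 1597, nat_lit 0, nat_lit 0, nat_lit 1622, nat_lit 0, nat_lit 477, nat_lit 0, nat_lit 24067840969241, nat_lit 0, nat_lit 0, nat_lit 0, nat_lit 0, [],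
 ⟨p005_k0, nat_lit 0, nat_lit 0, nat_lit 288, nat_lit 0, nat_lit 158371, [nat_lit 6250000000, nat_lit 7968000000], [], [nat_lit 25166865862, nat_lit 24962938338, nat_lit 25073045268, nat_lit 24719908113], nat_lit 1271250, nat_lit 1271250, nat_lit 43600, nat_lit 65850, nat_lit 0, nat_lit 0, [nat_lit 1412500, nat_lit 1271250], [nat_lit 26, nat_lit 40, nat_lit 20, nat_lit 80, nat_lit 2, nat_lit 272, nat_lit 60, nat_lit 10]⟩, ⟨p005_k1, nat_lit 0, nat_lit 0, nat_lit 0, nat_lit 0, nat_lit 0, [nat_lit 3282000000, nat_lit 6250000000, nat_lit 7968000000], [], [nat_lit 7041125200, nat_lit 7076865980, nat_lit 7092658800, nat_lit 7128357220], nat_lit 0, nat_lit 0, nat_lit 0, nat_lit 0, nat_lit 0, nat_lit 0, [], [nat_lit 18, nat_lit 40, nat_lit 20, nat_lit 80]⟩,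
 zbF0, []⟩
noncomputable def p005_l9 : Lf2 := ⟨nat_lit 0, nat_lit 2, [nat_lit 10, nat_lit 5, nat_lit 5, nat_lit 20], true, nat_lit 0, nat_lit 0, nat_lit 0, nat_lit 0, ⟨nat_lit 0, nat_lit 0, nat_lit 1000, nat_lit 5, nat_lit 45, nat_lit 0, nat_lit 0, nat_lit 0, nat_lit 0, nat_lit 215, nat_lit 19267, nat_lit 249, nat_lit 66152249, nat_lit 0, nat_lit 0, nat_lit 339190, false, false⟩,
 nat_lit 0, nat_lit 8079, nat_lit 0, nat_lit 0, nat_lit 3863, nat_lit 0, nat_lit 271, nat_lit 0, nat_lit 0, nat_lit 0, nat_lit 0, nat_lit 0, nat_lit 0, nat_lit 24202862568509, nat_lit 53, nat_lit 1000000, nat_lit 0, nat_lit 0, [(nat_lit 3, [(nat_lit 6, nat_lit 1000)])],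
 ⟨p005_k2, nat_lit 0, nat_lit 0, nat_lit 0, nat_lit 0, nat_lit 158371, [nat_lit 1529200000, nat_lit 1695200000, nat_lit 716000001, nat_lit 11600000], [], [nat_lit 13007777072, nat_lit 13052616705, nat_lit 12859731089, nat_lit 12904530437], nat_lit 1271250, nat_lit 1271250, nat_lit 43600, nat_lit 65850, nat_lit 0, nat_lit 0, [nat_lit 936250, nat_lit 1271250, nat_lit 1271250, nat_lit 1271250], [nat_lit 197, nat_lit 40, nat_lit 20, nat_lit 40]⟩, C1.Rw.none,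
 ⟨nat_lit 6689, nat_lit 6709, ⟨.ofNat (nat_lit 107890), .ofNat (nat_lit 116506), .ofNat (nat_lit 108962), .ofNat (nat_lit 117578), .ofNat (nat_lit 108840), .ofNat (nat_lit 117436), .ofNat (nat_lit 109912), .ofNat (nat_lit 118508)⟩, ⟨.ofNat (nat_lit 0), .ofNat (nat_lit 0), .ofNat (nat_lit 0), .ofNat (nat_lit 0), .ofNat (nat_lit 0), .ofNat (nat_lit 0), .ofNat (nat_lit 0), .ofNat (nat_lit 0)⟩⟩, []⟩
noncomputable def p005_l10 : Lf2 := ⟨nat_lit 0, nat_lit 2, [nat_lit 10, nat_lit 5, nat_lit 5, nat_lit 20], true, nat_lit 0, nat_lit 0, nat_lit 0, nat_lit 0, ⟨nat_lit 0, nat_lit 0, nat_lit 1000, nat_lit 5, nat_lit 45, nat_lit 0, nat_lit 0, nat_lit 0, nat_lit 0, nat_lit 215, nat_lit 19267, nat_lit 249, nat_lit 66152249, nat_lit 0, nat_lit 0, nat_lit 339190, false, false⟩,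
 nat_lit 0, nat_lit 100000, nat_lit 0, nat_lit 0, nat_lit 47826, nat_lit 0, nat_lit 0, nat_lit 2717, nat_lit 0, nat_lit 0, nat_lit 0, nat_lit 0, nat_lit 0, nat_lit 400000000000000, nat_lit 0, nat_lit 1000000, nat_lit 0, nat_lit 0, [(nat_lit 3, [(nat_lit 6, nat_lit 1000)])],
 ⟨p005_k0, nat_lit 0, nat_lit 0, nat_lit 288, nat_lit 0, nat_lit 158371, [nat_lit 55381142858, nat_lit 63947600000], [], [nat_lit 138449301730, nat_lit 138122985588, nat_lit 137905946358, nat_lit 136684485623], nat_lit 1271250, nat_lit 1271250, nat_lit 43600, nat_lit 65850, nat_lit 0, nat_lit 0, [nat_lit 1412500, nat_lit 1271250], [nat_lit 26, nat_lit 40, nat_lit 20, nat_lit 80, nat_lit 2, nat_lit 272, nat_lit 60, nat_lit 10]⟩, C1.Rw.none,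
 ⟨nat_lit 6689, nat_lit 6709, ⟨.ofNat (nat_lit 107890), .ofNat (nat_lit 116506), .ofNat (nat_lit 108962), .ofNat (nat_lit 117578), .ofNat (nat_lit 108840), .ofNat (nat_lit 117436), .ofNat (nat_lit 109912), .ofNat (nat_lit 118508)⟩, ⟨.ofNat (nat_lit 0), .ofNat (nat_lit 0), .ofNat (nat_lit 0), .ofNat (nat_lit 0), .ofNat (nat_lit 0), .ofNat (nat_lit 0), .ofNat (nat_lit 0), .ofNat (nat_lit 0)⟩⟩, []⟩
noncomputable def p005_l11 : Lf2 := ⟨nat_lit 0, nat_lit 2, [nat_lit 10, nat_lit 5, nat_lit 5, nat_lit 20], true, nat_lit 0, nat_lit 0, nat_lit 0, nat_lit 0, ⟨nat_lit 0, nat_lit 0, nat_lit 1000, nat_lit 5, nat_lit 45, nat_lit 0, nat_lit 0, nat_lit 0, nat_lit 0, nat_lit 215, nat_lit 19267, nat_lit 249, nat_lit 66152249, nat_lit 0, nat_lit 0, nat_lit 339190, false, false⟩,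
 nat_lit 0, nat_lit 8079, nat_lit 0, nat_lit 0, nat_lit 3863, nat_lit 0, nat_lit 271, nat_lit 0, nat_lit 0, nat_lit 0, nat_lit 0, nat_lit 0, nat_lit 0, nat_lit 24202862568509, nat_lit 53, nat_lit 1000000, nat_lit 0, nat_lit 0, [(nat_lit 3, [(nat_lit 6, nat_lit 1000)])],
 ⟨p005_k2, nat_lit 0, nat_lit 0, nat_lit 0, nat_lit 0, nat_lit 158371, [nat_lit 1529200000, nat_lit 1695200000, nat_lit 716000001, nat_lit 11600000], [], [nat_lit 13007777072, nat_lit 13052616705, nat_lit 12859731089, nat_lit 12904530437], nat_lit 1271250, nat_lit 1271250, nat_lit 43600, nat_lit 65850, nat_lit 0, nat_lit 0, [nat_lit 936250, nat_lit 1271250, nat_lit 1271250, nat_lit 1271250], [nat_lit 197, nat_lit 40, nat_lit 20, nat_lit 40]⟩, C1.Rw.none,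
 ⟨nat_lit 6689, nat_lit 6709, ⟨.ofNat (nat_lit 107890), .ofNat (nat_lit 116506), .ofNat (nat_lit 108962), .ofNat (nat_lit 117578), .ofNat (nat_lit 108840), .ofNat (nat_lit 117436), .ofNat (nat_lit 109912), .ofNat (nat_lit 118508)⟩, ⟨.ofNat (nat_lit 0), .ofNat (nat_lit 0), .ofNat (nat_lit 0), .ofNat (nat_lit 0), .ofNat (nat_lit 0), .ofNat (nat_lit 0), .ofNat (nat_lit 0), .ofNat (nat_lit 0)⟩⟩, []⟩
noncomputable def p005_l12 : Lf2 := ⟨nat_lit 0, nat_lit 2, [nat_lit 10, nat_lit 5, nat_lit 5, nat_lit 20], true, nat_lit 0, nat_lit 0, nat_lit 0, nat_lit 0, ⟨nat_lit 0, nat_lit 0, nat_lit 1000, nat_lit 5, nat_lit 45, nat_lit 0, nat_lit 0, nat_lit 0, nat_lit 0, nat_lit 215, nat_lit 19267, nat_lit 249, nat_lit 66152249, nat_lit 0, nat_lit 0, nat_lit 339190, false, false⟩,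
 nat_lit 0, nat_lit 100000, nat_lit 0, nat_lit 0, nat_lit 47826, nat_lit 0, nat_lit 0, nat_lit 2717, nat_lit 0, nat_lit 0, nat_lit 0, nat_lit 0, nat_lit 0, nat_lit 400000000000000, nat_lit 0, nat_lit 1000000, nat_lit 0, nat_lit 0, [(nat_lit 3, [(nat_lit 6, nat_lit 1000)])],
 ⟨p005_k0, nat_lit 0, nat_lit 0, nat_lit 288, nat_lit 0, nat_lit 158371, [nat_lit 55381142858, nat_lit 63947600000], [], [nat_lit 138449301730, nat_lit 138122985588, nat_lit 137905946358, nat_lit 136684485623], nat_lit 1271250, nat_lit 1271250, nat_lit 43600, nat_lit 65850, nat_lit 0, nat_lit 0, [nat_lit 1412500, nat_lit 1271250], [nat_lit 26, nat_lit 40, nat_lit 20, nat_lit 80, nat_lit 2, nat_lit 272, nat_lit 60, nat_lit 10]⟩, C1.Rw.none,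
 ⟨nat_lit 6689, nat_lit 6709, ⟨.ofNat (nat_lit 107890), .ofNat (nat_lit 116506), .ofNat (nat_lit 108962), .ofNat (nat_lit 117578), .ofNat (nat_lit 108840), .ofNat (nat_lit 117436), .ofNat (nat_lit 109912), .ofNat (nat_lit 118508)⟩, ⟨.ofNat (nat_lit 0), .ofNat (nat_lit 0), .ofNat (nat_lit 0), .ofNat (nat_lit 0), .ofNat (nat_lit 0), .ofNat (nat_lit 0), .ofNat (nat_lit 0), .ofNat (nat_lit 0)⟩⟩, []⟩
noncomputable def p005_l13 : Lf2 := ⟨nat_lit 0, nat_lit 2, [nat_lit 10, nat_lit 5, nat_lit 5, nat_lit 20], true, nat_lit 0, nat_lit 0, nat_lit 0, nat_lit 0, ⟨nat_lit 0, nat_lit 0, nat_lit 1000, nat_lit 5, nat_lit 49, nat_lit 0, nat_lit 0, nat_lit 0, nat_lit 0, nat_lit 215, nat_lit 22817, nat_lit 252, nat_lit 66020413, nat_lit 0, nat_lit 0, nat_lit 381352, false, false⟩,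
 nat_lit 0, nat_lit 11262, nat_lit 0, nat_lit 0, nat_lit 5386, nat_lit 0, nat_lit 943, nat_lit 0, nat_lit 0, nat_lit 0, nat_lit 0, nat_lit 0, nat_lit 0, nat_lit 0, nat_lit 53, nat_lit 1000000, nat_lit 0, nat_lit 0, [(nat_lit 3, [(nat_lit 6, nat_lit 1000)])],
 ⟨p005_k0, nat_lit 0, nat_lit 0, nat_lit 286, nat_lit 0, nat_lit 158371, [nat_lit 2101142858, nat_lit 11600000], [], [nat_lit 12483896249, nat_lit 12528597770, nat_lit 12258566598, nat_lit 12303237354], nat_lit 1271250, nat_lit 1271250, nat_lit 65850, nat_lit 88400, nat_lit 0, nat_lit 0, [nat_lit 1412500, nat_lit 1271250], [nat_lit 26, nat_lit 40, nat_lit 20, nat_lit 80, nat_lit 2, nat_lit 272, nat_lit 60, nat_lit 10]⟩, C1.Rw.none,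
 ⟨nat_lit 6689, nat_lit 6709, ⟨.ofNat (nat_lit 116506), .ofNat (nat_lit 125122), .ofNat (nat_lit 117578), .ofNat (nat_lit 126194), .ofNat (nat_lit 117436), .ofNat (nat_lit 126032), .ofNat (nat_lit 118508), .ofNat (nat_lit 127103)⟩, ⟨.ofNat (nat_lit 0), .ofNat (nat_lit 0), .ofNat (nat_lit 0), .ofNat (nat_lit 0), .ofNat (nat_lit 0), .ofNat (nat_lit 0), .ofNat (nat_lit 0), .ofNat (nat_lit 0)⟩⟩, []⟩
noncomputable def b_NL_550_550_0_10 : St := ⟨false, nat_lit 1, nat_lit 0, nat_lit 1, nat_lit 20, nat_lit 220, nat_lit 221, nat_lit 220, nat_lit 222, nat_lit 4, nat_lit 16, nat_lit 0, nat_lit 0, nat_lit 0, nat_lit 0, nat_lit 0, nat_lit 0, nat_lit 4, nat_lit 8, nat_lit 0, nat_lit 0, nat_lit 200, nat_lit 300⟩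
theorem d_NL_550_550_0_10 (h : EB TB.env) : Dead b_NL_550_550_0_10 := chkB_sound0 h (T :=
(.ord (.spl (nat_lit 2) (nat_lit 8)
(.spl (nat_lit 8) (nat_lit 260)
(.spl (nat_lit 8) (nat_lit 240)
(.spl (nat_lit 8) (nat_lit 220)
(.leaf p005_l0)
(.spl (nat_lit 7) (nat_lit 600)
(.leaf p005_l1)
(.leaf p005_l2)))
(.spl (nat_lit 7) (nat_lit 600)
(.leaf p005_l3)
(.leaf p005_l4)))
(.spl (nat_lit 8) (nat_lit 280)
(.spl (nat_lit 7) (nat_lit 600)
(.leaf p005_l5)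
(.leaf p005_l6))
(.leaf p005_l7)))
(.spl (nat_lit 2) (nat_lit 12)
(.spl (nat_lit 8) (nat_lit 260)
(.spl (nat_lit 8) (nat_lit 240)
(.leaf p005_l8)
(.spl (nat_lit 7) (nat_lit 600)
(.leaf p005_l9)
(.leaf p005_l10)))
(.spl (nat_lit 7) (nat_lit 600)
(.leaf p005_l11)
(.leaf p005_l12)))
(.leaf p005_l13))))) (by decide +kernel)
noncomputable def p005_l14 : Lf2 := ⟨nat_lit 0, nat_lit 2, [nat_lit 10, nat_lit 5, nat_lit 5, nat_lit 20], false, nat_lit 0, nat_lit 0, nat_lit 0, nat_lit 0, ⟨nat_lit 1000, nat_lit 0, nat_lit 0, nat_lit 0, nat_lit 0, nat_lit 0, nat_lit 0, nat_lit 0, nat_lit 0, nat_lit 0, nat_lit 0, nat_lit 0, nat_lit 0, nat_lit 0, nat_lit 0, nat_lit 0, false, false⟩,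
 nat_lit 0, nat_lit 26594, nat_lit 0, nat_lit 0, nat_lit 12785, nat_lit 0, nat_lit 0, nat_lit 0, nat_lit 0, nat_lit 519, nat_lit 0, nat_lit 697, nat_lit 0, nat_lit 0, nat_lit 0, nat_lit 0, nat_lit 0, nat_lit 0, [],
 ⟨p005_k4, nat_lit 0, nat_lit 0, nat_lit 289, nat_lit 0, nat_lit 161543, [nat_lit 6250000000, nat_lit 7968000000], [], [nat_lit 25981393660, nat_lit 25956486018, nat_lit 25885290896, nat_lit 25558283581], nat_lit 1271250, nat_lit 1271250, nat_lit 21650, nat_lit 43600, nat_lit 0, nat_lit 0, [nat_lit 1412500, nat_lit 1271250], [nat_lit 26, nat_lit 40, nat_lit 20, nat_lit 80, nat_lit 2, nat_lit 272, nat_lit 60, nat_lit 10]⟩, ⟨p005_k1, nat_lit 0, nat_lit 0, nat_lit 0, nat_lit 0, nat_lit 0, [nat_lit 3282000000, nat_lit 6250000000, nat_lit 7968000000], [], [nat_lit 2591042400, nat_lit 2631081841, nat_lit 2635436400, nat_lit 2676008180], nat_lit 0, nat_lit 0, nat_lit 0, nat_lit 0,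 nat_lit 0, nat_lit 0, [], [nat_lit 18, nat_lit 40, nat_lit 20, nat_lit 80]⟩,
 zbF0, [⟨nat_lit 0, nat_lit 100, nat_lit 100, nat_lit 21, nat_lit 957646279⟩]⟩
noncomputable def p005_l15 : Lf2 := ⟨nat_lit 0, nat_lit 2, [nat_lit 10, nat_lit 5, nat_lit 5, nat_lit 20], true, nat_lit 0, nat_lit 0, nat_lit 0, nat_lit 0, ⟨nat_lit 0, nat_lit 0, nat_lit 1000, nat_lit 5, nat_lit 42, nat_lit 0, nat_lit 0, nat_lit 0, nat_lit 0, nat_lit 215, nat_lit 17067, nat_lit 247, nat_lit 66261692, nat_lit 0, nat_lit 0, nat_lit 303004, false, false⟩,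
 nat_lit 0, nat_lit 2495, nat_lit 0, nat_lit 0, nat_lit 1199, nat_lit 0, nat_lit 0, nat_lit 0, nat_lit 178, nat_lit 0, nat_lit 0, nat_lit 0, nat_lit 0, nat_lit 0, nat_lit 31, nat_lit 400000, nat_lit 0, nat_lit 0, [(nat_lit 3, [(nat_lit 5, nat_lit 1000)])],
 ⟨p005_k5, nat_lit 0, nat_lit 0, nat_lit 0, nat_lit 0, nat_lit 161543, [nat_lit 1356666667, nat_lit 998533334, nat_lit 6400000], [], [nat_lit 7359608621, nat_lit 7406961449, nat_lit 7334091740, nat_lit 7378486303], nat_lit 1271250, nat_lit 1271250, nat_lit 21650, nat_lit 43600, nat_lit 0, nat_lit 0, [nat_lit 780000, nat_lit 1435000, nat_lit 1271250], [nat_lit 18, nat_lit 40, nat_lit 20, nat_lit 80]⟩, C1.Rw.none,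
 ⟨nat_lit 6670, nat_lit 6690, ⟨.ofNat (nat_lit 100245), .ofNat (nat_lit 108840), .ofNat (nat_lit 101316), .ofNat (nat_lit 109912), .ofNat (nat_lit 101212), .ofNat (nat_lit 109788), .ofNat (nat_lit 102284), .ofNat (nat_lit 110860)⟩, ⟨.ofNat (nat_lit 0), .ofNat (nat_lit 0), .ofNat (nat_lit 0), .ofNat (nat_lit 0), .ofNat (nat_lit 0), .ofNat (nat_lit 0), .ofNat (nat_lit 0), .ofNat (nat_lit 0)⟩⟩, [⟨nat_lit 0, nat_lit 100, nat_lit 100, nat_lit 21, nat_lit 135680513⟩]⟩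
noncomputable def p005_l16 : Lf2 := ⟨nat_lit 0, nat_lit 2, [nat_lit 10, nat_lit 5, nat_lit 5, nat_lit 20], true, nat_lit 0, nat_lit 0, nat_lit 0, nat_lit 0, ⟨nat_lit 0, nat_lit 0, nat_lit 1000, nat_lit 5, nat_lit 42, nat_lit 0, nat_lit 0, nat_lit 0, nat_lit 0, nat_lit 215, nat_lit 17067, nat_lit 247, nat_lit 66261692, nat_lit 0, nat_lit 0, nat_lit 303004, false, false⟩,
 nat_lit 0, nat_lit 10538, nat_lit 0, nat_lit 0, nat_lit 5066, nat_lit 0, nat_lit 0, nat_lit 0, nat_lit 0, nat_lit 0, nat_lit 0, nat_lit 0, nat_lit 0, nat_lit 0, nat_lit 53, nat_lit 1000000, nat_lit 0, nat_lit 0, [(nat_lit 3, [(nat_lit 6, nat_lit 1000)])],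
 ⟨p005_k5, nat_lit 0, nat_lit 0, nat_lit 0, nat_lit 0, nat_lit 161543, [nat_lit 1559200001, nat_lit 1418400001, nat_lit 13599999], [], [nat_lit 12981660155, nat_lit 13015086314, nat_lit 12980840111, nat_lit 12847317069], nat_lit 1271250, nat_lit 1271250, nat_lit 21650, nat_lit 43600, nat_lit 0, nat_lit 0, [nat_lit 780000, nat_lit 1435000, nat_lit 1271250], [nat_lit 18, nat_lit 40, nat_lit 20, nat_lit 80]⟩, C1.Rw.none,
 ⟨nat_lit 6670, nat_lit 6690, ⟨.ofNat (nat_lit 100245), .ofNat (nat_lit 108840), .ofNat (nat_lit 101316), .ofNat (nat_lit 109912), .ofNat (nat_lit 101212), .ofNat (nat_lit 109788), .ofNat (nat_lit 102284), .ofNat (nat_lit 110860)⟩, ⟨.ofNat (nat_lit 0), .ofNat (nat_lit 0), .ofNat (nat_lit 0), .ofNat (nat_lit 0), .ofNat (nat_lit 0), .ofNat (nat_lit 0), .ofNat (nat_lit 0), .ofNat (nat_lit 0)⟩⟩, [⟨nat_lit 0, nat_lit 100, nat_lit 100, nat_lit 21, nat_lit 107448505⟩]⟩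
noncomputable def p005_l17 : Lf2 := ⟨nat_lit 0, nat_lit 2, [nat_lit 10, nat_lit 5, nat_lit 5, nat_lit 20], true, nat_lit 0, nat_lit 0, nat_lit 0, nat_lit 0, ⟨nat_lit 0, nat_lit 0, nat_lit 1000, nat_lit 5, nat_lit 42, nat_lit 0, nat_lit 0, nat_lit 0, nat_lit 0, nat_lit 215, nat_lit 17067, nat_lit 247, nat_lit 66261692, nat_lit 0, nat_lit 0, nat_lit 303004, false, false⟩,
 nat_lit 0, nat_lit 100000, nat_lit 0, nat_lit 0, nat_lit 48078, nat_lit 0, nat_lit 12318, nat_lit 337, nat_lit 0, nat_lit 0, nat_lit 0, nat_lit 0, nat_lit 0, nat_lit 0, nat_lit 0, nat_lit 1000000, nat_lit 7062950755, nat_lit 0, [(nat_lit 3, [(nat_lit 6, nat_lit 1000)])],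
 ⟨p005_k4, nat_lit 0, nat_lit 0, nat_lit 0, nat_lit 0, nat_lit 161543, [nat_lit 7781142858, nat_lit 6827600000], [], [nat_lit 1833477651, nat_lit 1204639355, nat_lit 1229711199, nat_lit 0], nat_lit 1271250, nat_lit 1271250, nat_lit 21650, nat_lit 43600, nat_lit 0, nat_lit 0, [nat_lit 1412500, nat_lit 1271250], [nat_lit 26, nat_lit 40, nat_lit 20, nat_lit 80]⟩, C1.Rw.none,
 ⟨nat_lit 6670, nat_lit 6690, ⟨.ofNat (nat_lit 100245), .ofNat (nat_lit 108840), .ofNat (nat_lit 101316), .ofNat (nat_lit 109912), .ofNat (nat_lit 101212), .ofNat (nat_lit 109788), .ofNat (nat_lit 102284), .ofNat (nat_lit 110860)⟩, ⟨.ofNat (nat_lit 0), .ofNat (nat_lit 0), .ofNat (nat_lit 0), .ofNat (nat_lit 0), .ofNat (nat_lit 0), .ofNat (nat_lit 0), .ofNat (nat_lit 0), .ofNat (nat_lit 0)⟩⟩, [⟨nat_lit 0, nat_lit 100, nat_lit 100, nat_lit 21, nat_lit 861131687⟩]⟩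
noncomputable def p005_l18 : Lf2 := ⟨nat_lit 0, nat_lit 2, [nat_lit 10, nat_lit 5, nat_lit 5, nat_lit 20], true, nat_lit 0, nat_lit 0, nat_lit 0, nat_lit 0, ⟨nat_lit 0, nat_lit 0, nat_lit 1000, nat_lit 5, nat_lit 42, nat_lit 0, nat_lit 0, nat_lit 0, nat_lit 0, nat_lit 215, nat_lit 17067, nat_lit 247, nat_lit 66261692, nat_lit 0, nat_lit 0, nat_lit 303004, false, false⟩,
 nat_lit 0, nat_lit 100000, nat_lit 0, nat_lit 0, nat_lit 48078, nat_lit 0, nat_lit 0, nat_lit 1019, nat_lit 0, nat_lit 0, nat_lit 0, nat_lit 0, nat_lit 0, nat_lit 0, nat_lit 0, nat_lit 1000000, nat_lit 0, nat_lit 0, [(nat_lit 3, [(nat_lit 6, nat_lit 1000)])],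
 ⟨p005_k4, nat_lit 0, nat_lit 0, nat_lit 289, nat_lit 0, nat_lit 161543, [nat_lit 21421142858, nat_lit 23195600000], [], [nat_lit 35690526896, nat_lit 34466013600, nat_lit 35086760444, nat_lit 33857049245], nat_lit 1271250, nat_lit 1271250, nat_lit 21650, nat_lit 43600, nat_lit 0, nat_lit 0, [nat_lit 1412500, nat_lit 1271250], [nat_lit 26, nat_lit 40, nat_lit 20, nat_lit 80, nat_lit 2, nat_lit 272, nat_lit 60, nat_lit 10]⟩, C1.Rw.none,
 ⟨nat_lit 6670, nat_lit 6690, ⟨.ofNat (nat_lit 100245), .ofNat (nat_lit 108840), .ofNat (nat_lit 101316), .ofNat (nat_lit 109912), .ofNat (nat_lit 101212), .ofNat (nat_lit 109788), .ofNat (nat_lit 102284), .ofNat (nat_lit 110860)⟩, ⟨.ofNat (nat_lit 0), .ofNat (nat_lit 0), .ofNat (nat_lit 0), .ofNat (nat_lit 0), .ofNat (nat_lit 0), .ofNat (nat_lit 0), .ofNat (nat_lit 0), .ofNat (nat_lit 0)⟩⟩, [⟨nat_lit 13, nat_lit 100, nat_lit 1, nat_lit 100, nat_lit 20681397⟩]⟩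
noncomputable def p005_l19 : Lf2 := ⟨nat_lit 0, nat_lit 2, [nat_lit 10, nat_lit 5, nat_lit 5, nat_lit 20], true, nat_lit 0, nat_lit 0, nat_lit 0, nat_lit 0, ⟨nat_lit 0, nat_lit 0, nat_lit 1000, nat_lit 5, nat_lit 42, nat_lit 0, nat_lit 0, nat_lit 0, nat_lit 0, nat_lit 215, nat_lit 17067, nat_lit 247, nat_lit 66261692, nat_lit 0, nat_lit 0, nat_lit 303004, false, false⟩,
 nat_lit 0, nat_lit 2495, nat_lit 0, nat_lit 0, nat_lit 1199, nat_lit 0, nat_lit 0, nat_lit 0, nat_lit 178, nat_lit 0, nat_lit 0, nat_lit 0, nat_lit 0, nat_lit 0, nat_lit 31, nat_lit 400000, nat_lit 0, nat_lit 0, [(nat_lit 3, [(nat_lit 5, nat_lit 1000)])],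
 ⟨p005_k5, nat_lit 0, nat_lit 0, nat_lit 0, nat_lit 0, nat_lit 161543, [nat_lit 1356666667, nat_lit 998533334, nat_lit 6400000], [], [nat_lit 7359608621, nat_lit 7406961449, nat_lit 7334091740, nat_lit 7378486303], nat_lit 1271250, nat_lit 1271250, nat_lit 21650, nat_lit 43600, nat_lit 0, nat_lit 0, [nat_lit 780000, nat_lit 1435000, nat_lit 1271250], [nat_lit 18, nat_lit 40, nat_lit 20, nat_lit 80]⟩, C1.Rw.none,
 ⟨nat_lit 6670, nat_lit 6690, ⟨.ofNat (nat_lit 100245), .ofNat (nat_lit 108840), .ofNat (nat_lit 101316), .ofNat (nat_lit 109912), .ofNat (nat_lit 101212), .ofNat (nat_lit 109788), .ofNat (nat_lit 102284), .ofNat (nat_lit 110860)⟩, ⟨.ofNat (nat_lit 0), .ofNat (nat_lit 0), .ofNat (nat_lit 0), .ofNat (nat_lit 0), .ofNat (nat_lit 0), .ofNat (nat_lit 0), .ofNat (nat_lit 0), .ofNat (nat_lit 0)⟩⟩, [⟨nat_lit 0, nat_lit 100, nat_lit 100, nat_lit 21, nat_lit 135680513⟩]⟩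
noncomputable def p005_l20 : Lf2 := ⟨nat_lit 0, nat_lit 2, [nat_lit 10, nat_lit 5, nat_lit 5, nat_lit 20], true, nat_lit 0, nat_lit 0, nat_lit 0, nat_lit 0, ⟨nat_lit 0, nat_lit 0, nat_lit 1000, nat_lit 5, nat_lit 42, nat_lit 0, nat_lit 0, nat_lit 0, nat_lit 0, nat_lit 215, nat_lit 17067, nat_lit 247, nat_lit 66261692, nat_lit 0, nat_lit 0, nat_lit 303004, false, false⟩,
 nat_lit 0, nat_lit 10538, nat_lit 0, nat_lit 0, nat_lit 5066, nat_lit 0, nat_lit 0, nat_lit 0, nat_lit 0, nat_lit 0, nat_lit 0, nat_lit 0, nat_lit 0, nat_lit 0, nat_lit 53, nat_lit 1000000, nat_lit 0, nat_lit 0, [(nat_lit 3, [(nat_lit 6, nat_lit 1000)])],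
 ⟨p005_k5, nat_lit 0, nat_lit 0, nat_lit 0, nat_lit 0, nat_lit 161543, [nat_lit 1559200001, nat_lit 1418400001, nat_lit 13599999], [], [nat_lit 12981660155, nat_lit 13015086314, nat_lit 12980840111, nat_lit 12847317069], nat_lit 1271250, nat_lit 1271250, nat_lit 21650, nat_lit 43600, nat_lit 0, nat_lit 0, [nat_lit 780000, nat_lit 1435000, nat_lit 1271250], [nat_lit 18, nat_lit 40, nat_lit 20, nat_lit 80]⟩, C1.Rw.none,
 ⟨nat_lit 6670, nat_lit 6690, ⟨.ofNat (nat_lit 100245), .ofNat (nat_lit 108840), .ofNat (nat_lit 101316), .ofNat (nat_lit 109912), .ofNat (nat_lit 101212), .ofNat (nat_lit 109788), .ofNat (nat_lit 102284), .ofNat (nat_lit 110860)⟩, ⟨.ofNat (nat_lit 0), .ofNat (nat_lit 0), .ofNat (nat_lit 0), .ofNat (nat_lit 0), .ofNat (nat_lit 0), .ofNat (nat_lit 0), .ofNat (nat_lit 0), .ofNat (nat_lit 0)⟩⟩, [⟨nat_lit 0, nat_lit 100, nat_lit 100, nat_lit 21, nat_lit 107448505⟩]⟩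
noncomputable def p005_l21 : Lf2 := ⟨nat_lit 0, nat_lit 2, [nat_lit 10, nat_lit 5, nat_lit 5, nat_lit 20], true, nat_lit 0, nat_lit 0, nat_lit 0, nat_lit 0, ⟨nat_lit 0, nat_lit 0, nat_lit 1000, nat_lit 5, nat_lit 42, nat_lit 0, nat_lit 0, nat_lit 0, nat_lit 0, nat_lit 215, nat_lit 17067, nat_lit 247, nat_lit 66261692, nat_lit 0, nat_lit 0, nat_lit 303004, false, false⟩,
 nat_lit 0, nat_lit 100000, nat_lit 0, nat_lit 0, nat_lit 48078, nat_lit 0, nat_lit 12318, nat_lit 337, nat_lit 0, nat_lit 0, nat_lit 0, nat_lit 0, nat_lit 0, nat_lit 0, nat_lit 0, nat_lit 1000000, nat_lit 7062950755, nat_lit 0, [(nat_lit 3, [(nat_lit 6, nat_lit 1000)])],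
 ⟨p005_k4, nat_lit 0, nat_lit 0, nat_lit 0, nat_lit 0, nat_lit 161543, [nat_lit 7781142858, nat_lit 6827600000], [], [nat_lit 1833477651, nat_lit 1204639355, nat_lit 1229711199, nat_lit 0], nat_lit 1271250, nat_lit 1271250, nat_lit 21650, nat_lit 43600, nat_lit 0, nat_lit 0, [nat_lit 1412500, nat_lit 1271250], [nat_lit 26, nat_lit 40, nat_lit 20, nat_lit 80]⟩, C1.Rw.none,
 ⟨nat_lit 6670, nat_lit 6690, ⟨.ofNat (nat_lit 100245), .ofNat (nat_lit 108840), .ofNat (nat_lit 101316), .ofNat (nat_lit 109912), .ofNat (nat_lit 101212), .ofNat (nat_lit 109788), .ofNat (nat_lit 102284), .ofNat (nat_lit 110860)⟩, ⟨.ofNat (nat_lit 0), .ofNat (nat_lit 0), .ofNat (nat_lit 0), .ofNat (nat_lit 0), .ofNat (nat_lit 0), .ofNat (nat_lit 0), .ofNat (nat_lit 0), .ofNat (nat_lit 0)⟩⟩, [⟨nat_lit 0, nat_lit 100, nat_lit 100, nat_lit 21, nat_lit 861131687⟩]⟩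
noncomputable def p005_l22 : Lf2 := ⟨nat_lit 0, nat_lit 2, [nat_lit 10, nat_lit 5, nat_lit 5, nat_lit 20], true, nat_lit 0, nat_lit 0, nat_lit 0, nat_lit 0, ⟨nat_lit 0, nat_lit 0, nat_lit 1000, nat_lit 5, nat_lit 42, nat_lit 0, nat_lit 0, nat_lit 0, nat_lit 0, nat_lit 215, nat_lit 17067, nat_lit 247, nat_lit 66261692, nat_lit 0, nat_lit 0, nat_lit 303004, false, false⟩,
 nat_lit 0, nat_lit 100000, nat_lit 0, nat_lit 0, nat_lit 48078, nat_lit 0, nat_lit 0, nat_lit 1019, nat_lit 0, nat_lit 0, nat_lit 0, nat_lit 0, nat_lit 0, nat_lit 0, nat_lit 0, nat_lit 1000000, nat_lit 0, nat_lit 0, [(nat_lit 3, [(nat_lit 6, nat_lit 1000)])],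
 ⟨p005_k4, nat_lit 0, nat_lit 0, nat_lit 289, nat_lit 0, nat_lit 161543, [nat_lit 21421142858, nat_lit 23195600000], [], [nat_lit 35690526896, nat_lit 34466013600, nat_lit 35086760444, nat_lit 33857049245], nat_lit 1271250, nat_lit 1271250, nat_lit 21650, nat_lit 43600, nat_lit 0, nat_lit 0, [nat_lit 1412500, nat_lit 1271250], [nat_lit 26, nat_lit 40, nat_lit 20, nat_lit 80, nat_lit 2, nat_lit 272, nat_lit 60, nat_lit 10]⟩, C1.Rw.none,
 ⟨nat_lit 6670, nat_lit 6690, ⟨.ofNat (nat_lit 100245), .ofNat (nat_lit 108840), .ofNat (nat_lit 101316), .ofNat (nat_lit 109912), .ofNat (nat_lit 101212), .ofNat (nat_lit 109788), .ofNat (nat_lit 102284), .ofNat (nat_lit 110860)⟩, ⟨.ofNat (nat_lit 0), .ofNat (nat_lit 0), .ofNat (nat_lit 0), .ofNat (nat_lit 0), .ofNat (nat_lit 0), .ofNat (nat_lit 0), .ofNat (nat_lit 0), .ofNat (nat_lit 0)⟩⟩, [⟨nat_lit 13, nat_lit 100, nat_lit 1, nat_lit 100, nat_lit 20681397⟩]⟩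
noncomputable def p005_l23 : Lf2 := ⟨nat_lit 0, nat_lit 2, [nat_lit 10, nat_lit 5, nat_lit 5, nat_lit 20], true, nat_lit 0, nat_lit 0, nat_lit 0, nat_lit 0, ⟨nat_lit 0, nat_lit 0, nat_lit 1000, nat_lit 5, nat_lit 42, nat_lit 0, nat_lit 0, nat_lit 0, nat_lit 0, nat_lit 215, nat_lit 17067, nat_lit 247, nat_lit 66261692, nat_lit 0, nat_lit 0, nat_lit 303004, false, false⟩,
 nat_lit 0, nat_lit 2495, nat_lit 0, nat_lit 0, nat_lit 1199, nat_lit 0, nat_lit 0, nat_lit 0, nat_lit 178, nat_lit 0, nat_lit 0, nat_lit 0, nat_lit 0, nat_lit 0, nat_lit 31, nat_lit 400000, nat_lit 0, nat_lit 0, [(nat_lit 3, [(nat_lit 5, nat_lit 1000)])],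
 ⟨p005_k5, nat_lit 0, nat_lit 0, nat_lit 0, nat_lit 0, nat_lit 161543, [nat_lit 1356666667, nat_lit 998533334, nat_lit 6400000], [], [nat_lit 7359608621, nat_lit 7406961449, nat_lit 7334091740, nat_lit 7378486303], nat_lit 1271250, nat_lit 1271250, nat_lit 21650, nat_lit 43600, nat_lit 0, nat_lit 0, [nat_lit 780000, nat_lit 1435000, nat_lit 1271250], [nat_lit 18, nat_lit 40, nat_lit 20, nat_lit 80]⟩, C1.Rw.none,
 ⟨nat_lit 6670, nat_lit 6690, ⟨.ofNat (nat_lit 100245), .ofNat (nat_lit 108840), .ofNat (nat_lit 101316), .ofNat (nat_lit 109912), .ofNat (nat_lit 101212), .ofNat (nat_lit 109788), .ofNat (nat_lit 102284), .ofNat (nat_lit 110860)⟩, ⟨.ofNat (nat_lit 0), .ofNat (nat_lit 0), .ofNat (nat_lit 0), .ofNat (nat_lit 0), .ofNat (nat_lit 0), .ofNat (nat_lit 0), .ofNat (nat_lit 0), .ofNat (nat_lit 0)⟩⟩, [⟨nat_lit 0, nat_lit 100, nat_lit 100, nat_lit 21, nat_lit 135680513⟩]⟩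
noncomputable def p005_l24 : Lf2 := ⟨nat_lit 0, nat_lit 2, [nat_lit 10, nat_lit 5, nat_lit 5, nat_lit 20], true, nat_lit 0, nat_lit 0, nat_lit 0, nat_lit 0, ⟨nat_lit 0, nat_lit 0, nat_lit 1000, nat_lit 5, nat_lit 42, nat_lit 0, nat_lit 0, nat_lit 0, nat_lit 0, nat_lit 215, nat_lit 17067, nat_lit 247, nat_lit 66261692, nat_lit 0, nat_lit 0, nat_lit 303004, false, false⟩,
 nat_lit 0, nat_lit 10538, nat_lit 0, nat_lit 0, nat_lit 5066, nat_lit 0, nat_lit 0, nat_lit 0, nat_lit 0, nat_lit 0, nat_lit 0, nat_lit 0, nat_lit 0, nat_lit 0, nat_lit 53, nat_lit 1000000, nat_lit 0, nat_lit 0, [(nat_lit 3, [(nat_lit 6, nat_lit 1000)])],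
 ⟨p005_k5, nat_lit 0, nat_lit 0, nat_lit 0, nat_lit 0, nat_lit 161543, [nat_lit 1559200001, nat_lit 1418400001, nat_lit 13599999], [], [nat_lit 12981660155, nat_lit 13015086314, nat_lit 12980840111, nat_lit 12847317069], nat_lit 1271250, nat_lit 1271250, nat_lit 21650, nat_lit 43600, nat_lit 0, nat_lit 0, [nat_lit 780000, nat_lit 1435000, nat_lit 1271250], [nat_lit 18, nat_lit 40, nat_lit 20, nat_lit 80]⟩, C1.Rw.none,
 ⟨nat_lit 6670, nat_lit 6690, ⟨.ofNat (nat_lit 100245), .ofNat (nat_lit 108840), .ofNat (nat_lit 101316), .ofNat (nat_lit 109912), .ofNat (nat_lit 101212), .ofNat (nat_lit 109788), .ofNat (nat_lit 102284), .ofNat (nat_lit 110860)⟩, ⟨.ofNat (nat_lit 0), .ofNat (nat_lit 0), .ofNat (nat_lit 0), .ofNat (nat_lit 0), .ofNat (nat_lit 0), .ofNat (nat_lit 0), .ofNat (nat_lit 0), .ofNat (nat_lit 0)⟩⟩, [⟨nat_lit 0, nat_lit 100, nat_lit 100, nat_lit 21, nat_lit 107448505⟩]⟩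
noncomputable def p005_l25 : Lf2 := ⟨nat_lit 0, nat_lit 2, [nat_lit 10, nat_lit 5, nat_lit 5, nat_lit 20], true, nat_lit 0, nat_lit 0, nat_lit 0, nat_lit 0, ⟨nat_lit 0, nat_lit 0, nat_lit 1000, nat_lit 5, nat_lit 42, nat_lit 0, nat_lit 0, nat_lit 0, nat_lit 0, nat_lit 215, nat_lit 17067, nat_lit 247, nat_lit 66261692, nat_lit 0, nat_lit 0, nat_lit 303004, false, false⟩,
 nat_lit 0, nat_lit 100000, nat_lit 0, nat_lit 0, nat_lit 48078, nat_lit 0, nat_lit 12318, nat_lit 337, nat_lit 0, nat_lit 0, nat_lit 0, nat_lit 0, nat_lit 0, nat_lit 0, nat_lit 0, nat_lit 1000000, nat_lit 7062950755, nat_lit 0, [(nat_lit 3, [(nat_lit 6, nat_lit 1000)])],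
 ⟨p005_k4, nat_lit 0, nat_lit 0, nat_lit 0, nat_lit 0, nat_lit 161543, [nat_lit 7781142858, nat_lit 6827600000], [], [nat_lit 1833477651, nat_lit 1204639355, nat_lit 1229711199, nat_lit 0], nat_lit 1271250, nat_lit 1271250, nat_lit 21650, nat_lit 43600, nat_lit 0, nat_lit 0, [nat_lit 1412500, nat_lit 1271250], [nat_lit 26, nat_lit 40, nat_lit 20, nat_lit 80]⟩, C1.Rw.none,
 ⟨nat_lit 6670, nat_lit 6690, ⟨.ofNat (nat_lit 100245), .ofNat (nat_lit 108840), .ofNat (nat_lit 101316), .ofNat (nat_lit 109912), .ofNat (nat_lit 101212), .ofNat (nat_lit 109788), .ofNat (nat_lit 102284), .ofNat (nat_lit 110860)⟩, ⟨.ofNat (nat_lit 0), .ofNat (nat_lit 0), .ofNat (nat_lit 0), .ofNat (nat_lit 0), .ofNat (nat_lit 0), .ofNat (nat_lit 0), .ofNat (nat_lit 0), .ofNat (nat_lit 0)⟩⟩, [⟨nat_lit 0, nat_lit 100, nat_lit 100, nat_lit 21, nat_lit 861131687⟩]⟩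
noncomputable def p005_l26 : Lf2 := ⟨nat_lit 0, nat_lit 2, [nat_lit 10, nat_lit 5, nat_lit 5, nat_lit 20], true, nat_lit 0, nat_lit 0, nat_lit 0, nat_lit 0, ⟨nat_lit 0, nat_lit 0, nat_lit 1000, nat_lit 5, nat_lit 42, nat_lit 0, nat_lit 0, nat_lit 0, nat_lit 0, nat_lit 215, nat_lit 17067, nat_lit 247, nat_lit 66261692, nat_lit 0, nat_lit 0, nat_lit 303004, false, false⟩,
 nat_lit 0, nat_lit 100000, nat_lit 0, nat_lit 0, nat_lit 48078, nat_lit 0, nat_lit 0, nat_lit 882, nat_lit 0, nat_lit 0, nat_lit 0, nat_lit 0, nat_lit 0, nat_lit 0, nat_lit 0, nat_lit 1000000, nat_lit 0, nat_lit 0, [(nat_lit 3, [(nat_lit 6, nat_lit 1000)])],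
 ⟨p005_k4, nat_lit 0, nat_lit 0, nat_lit 289, nat_lit 0, nat_lit 161543, [nat_lit 18681142858, nat_lit 19907600000], [], [nat_lit 28177541421, nat_lit 28438013600, nat_lit 26866760444, nat_lit 25637049245], nat_lit 1271250, nat_lit 1271250, nat_lit 21650, nat_lit 43600, nat_lit 0, nat_lit 0, [nat_lit 1412500, nat_lit 1271250], [nat_lit 26, nat_lit 40, nat_lit 20, nat_lit 80, nat_lit 2, nat_lit 272, nat_lit 60, nat_lit 10]⟩, C1.Rw.none,
 ⟨nat_lit 6670, nat_lit 6690, ⟨.ofNat (nat_lit 100245), .ofNat (nat_lit 108840), .ofNat (nat_lit 101316), .ofNat (nat_lit 109912), .ofNat (nat_lit 101212), .ofNat (nat_lit 109788), .ofNat (nat_lit 102284), .ofNat (nat_lit 110860)⟩, ⟨.ofNat (nat_lit 0), .ofNat (nat_lit 0), .ofNat (nat_lit 0), .ofNat (nat_lit 0), .ofNat (nat_lit 0), .ofNat (nat_lit 0), .ofNat (nat_lit 0), .ofNat (nat_lit 0)⟩⟩, []⟩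
noncomputable def p005_l27 : Lf2 := ⟨nat_lit 0, nat_lit 2, [nat_lit 10, nat_lit 5, nat_lit 5, nat_lit 20], false, nat_lit 0, nat_lit 0, nat_lit 0, nat_lit 0, ⟨nat_lit 1000, nat_lit 0, nat_lit 0, nat_lit 0, nat_lit 0, nat_lit 0, nat_lit 0, nat_lit 0, nat_lit 0, nat_lit 0, nat_lit 0, nat_lit 0, nat_lit 0, nat_lit 0, nat_lit 0, nat_lit 0, false, false⟩,
 nat_lit 0, nat_lit 26796, nat_lit 0, nat_lit 0, nat_lit 12883, nat_lit 100000, nat_lit 0, nat_lit 0, nat_lit 0, nat_lit 44275, nat_lit 11431, nat_lit 0, nat_lit 0, nat_lit 0, nat_lit 0, nat_lit 0, nat_lit 0, nat_lit 0, [],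
 ⟨p005_k4, nat_lit 0, nat_lit 0, nat_lit 289, nat_lit 0, nat_lit 161543, [nat_lit 6250000000, nat_lit 7968000000], [], [nat_lit 25881973918, nat_lit 26003651450, nat_lit 25784461497, nat_lit 25454947595], nat_lit 1271250, nat_lit 1271250, nat_lit 21650, nat_lit 43600, nat_lit 0, nat_lit 0, [nat_lit 1412500, nat_lit 1271250], [nat_lit 26, nat_lit 40, nat_lit 20, nat_lit 80, nat_lit 2, nat_lit 272, nat_lit 60, nat_lit 10]⟩, ⟨p005_k3, nat_lit 0, nat_lit 0, nat_lit 0, nat_lit 0, nat_lit 0, [nat_lit 93480000000, nat_lit 211207500000, nat_lit 258571500000, nat_lit 282312000000], [], [nat_lit 301042371601, nat_lit 301728671621, nat_lit 294675267200, nat_lit 295362286240], nat_lit 0, nat_lit 0, nat_lit 0, nat_lit 0, nat_lit 0, nat_lit 0, [], [nat_lit 225, nat_lit 40, nat_lit 20, nat_lit 40]⟩,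
 zbF0, [⟨nat_lit 0, nat_lit 100, nat_lit 100, nat_lit 21, nat_lit 8972738057⟩]⟩
noncomputable def p005_l28 : Lf2 := ⟨nat_lit 0, nat_lit 2, [nat_lit 10, nat_lit 5, nat_lit 5, nat_lit 20], false, nat_lit 0, nat_lit 0, nat_lit 0, nat_lit 0, ⟨nat_lit 1000, nat_lit 0, nat_lit 0, nat_lit 0, nat_lit 0, nat_lit 0, nat_lit 0, nat_lit 0, nat_lit 0, nat_lit 0, nat_lit 0, nat_lit 0, nat_lit 0, nat_lit 0, nat_lit 0, nat_lit 0, false, false⟩,
 nat_lit 0, nat_lit 26509, nat_lit 0, nat_lit 0, nat_lit 12745, nat_lit 0, nat_lit 0, nat_lit 0, nat_lit 0, nat_lit 1540, nat_lit 0, nat_lit 477, nat_lit 0, nat_lit 12235239260797, nat_lit 0, nat_lit 0, nat_lit 0, nat_lit 0, [],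
 ⟨p005_k4, nat_lit 0, nat_lit 0, nat_lit 290, nat_lit 0, nat_lit 165547, [nat_lit 6250000000, nat_lit 7968000000], [], [nat_lit 26021973146, nat_lit 25937234821, nat_lit 25926445753, nat_lit 25600461535], nat_lit 1271250, nat_lit 1271250, nat_lit 21650, nat_lit 43600, nat_lit 0, nat_lit 0, [nat_lit 1412500, nat_lit 1271250], [nat_lit 26, nat_lit 40, nat_lit 20, nat_lit 80, nat_lit 2, nat_lit 272, nat_lit 60, nat_lit 10]⟩, ⟨p005_k5, nat_lit 0, nat_lit 0, nat_lit 0, nat_lit 0, nat_lit 0, [nat_lit 3282000000, nat_lit 6250000000, nat_lit 7968000000], [], [nat_lit 7029386320, nat_lit 7066861361, nat_lit 7076865980, nat_lit 7112606761], nat_lit 0, nat_lit 0, nat_lit 0, nat_lit 0, nat_lit 0, nat_lit 0, [], [nat_lit 18, nat_lit 40, nat_lit 20, nat_lit 80]⟩,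
 zbF0, [⟨nat_lit 0, nat_lit 100, nat_lit 100, nat_lit 21, nat_lit 954970832⟩]⟩
noncomputable def p005_l29 : Lf2 := ⟨nat_lit 0, nat_lit 2, [nat_lit 10, nat_lit 5, nat_lit 5, nat_lit 20], true, nat_lit 0, nat_lit 0, nat_lit 0, nat_lit 0, ⟨nat_lit 0, nat_lit 0, nat_lit 1000, nat_lit 5, nat_lit 43, nat_lit 0, nat_lit 0, nat_lit 0, nat_lit 0, nat_lit 215, nat_lit 17067, nat_lit 247, nat_lit 66246794, nat_lit 0, nat_lit 0, nat_lit 307996, false, false⟩,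
 nat_lit 0, nat_lit 2502, nat_lit 0, nat_lit 0, nat_lit 1202, nat_lit 0, nat_lit 0, nat_lit 0, nat_lit 177, nat_lit 0, nat_lit 0, nat_lit 0, nat_lit 0, nat_lit 14392449903682, nat_lit 31, nat_lit 400000, nat_lit 0, nat_lit 0, [(nat_lit 3, [(nat_lit 5, nat_lit 1000)])],
 ⟨p005_k5, nat_lit 0, nat_lit 0, nat_lit 0, nat_lit 0, nat_lit 165547, [nat_lit 1356666667, nat_lit 998533334, nat_lit 6400000], [], [nat_lit 7386804478, nat_lit 7431258004, nat_lit 7363234424, nat_lit 7407650639], nat_lit 1271250, nat_lit 1271250, nat_lit 21650, nat_lit 43600, nat_lit 0, nat_lit 0, [nat_lit 780000, nat_lit 1435000, nat_lit 1271250], [nat_lit 18, nat_lit 40, nat_lit 20, nat_lit 80]⟩, C1.Rw.none,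
 ⟨nat_lit 6670, nat_lit 6690, ⟨.ofNat (nat_lit 101316), .ofNat (nat_lit 109912), .ofNat (nat_lit 102388), .ofNat (nat_lit 110984), .ofNat (nat_lit 102284), .ofNat (nat_lit 110860), .ofNat (nat_lit 103355), .ofNat (nat_lit 111931)⟩, ⟨.ofNat (nat_lit 0), .ofNat (nat_lit 0), .ofNat (nat_lit 0), .ofNat (nat_lit 0), .ofNat (nat_lit 0), .ofNat (nat_lit 0), .ofNat (nat_lit 0), .ofNat (nat_lit 0)⟩⟩, [⟨nat_lit 0, nat_lit 100, nat_lit 100, nat_lit 22, nat_lit 135909731⟩]⟩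
noncomputable def p005_l30 : Lf2 := ⟨nat_lit 0, nat_lit 2, [nat_lit 10, nat_lit 5, nat_lit 5, nat_lit 20], true, nat_lit 0, nat_lit 0, nat_lit 0, nat_lit 0, ⟨nat_lit 0, nat_lit 0, nat_lit 1000, nat_lit 5, nat_lit 43, nat_lit 0, nat_lit 0, nat_lit 0, nat_lit 0, nat_lit 215, nat_lit 17067, nat_lit 247, nat_lit 66246794, nat_lit 0, nat_lit 0, nat_lit 307996, false, false⟩,
 nat_lit 0, nat_lit 10380, nat_lit 0, nat_lit 0, nat_lit 4990, nat_lit 0, nat_lit 0, nat_lit 0, nat_lit 0, nat_lit 0, nat_lit 0, nat_lit 0, nat_lit 0, nat_lit 26928838703003, nat_lit 53, nat_lit 1000000, nat_lit 0, nat_lit 0, [(nat_lit 3, [(nat_lit 6, nat_lit 1000)])],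
 ⟨p005_k5, nat_lit 0, nat_lit 0, nat_lit 0, nat_lit 0, nat_lit 165547, [nat_lit 1559200001, nat_lit 1418400001, nat_lit 13599999], [], [nat_lit 13079322283, nat_lit 12978509040, nat_lit 13079831714, nat_lit 12948311781], nat_lit 1271250, nat_lit 1271250, nat_lit 21650, nat_lit 43600, nat_lit 0, nat_lit 0, [nat_lit 780000, nat_lit 1435000, nat_lit 1271250], [nat_lit 18, nat_lit 40, nat_lit 20, nat_lit 80]⟩, C1.Rw.none,
 ⟨nat_lit 6670, nat_lit 6690, ⟨.ofNat (nat_lit 101316), .ofNat (nat_lit 109912), .ofNat (nat_lit 102388), .ofNat (nat_lit 110984), .ofNat (nat_lit 102284), .ofNat (nat_lit 110860), .ofNat (nat_lit 103355), .ofNat (nat_lit 111931)⟩, ⟨.ofNat (nat_lit 0), .ofNat (nat_lit 0), .ofNat (nat_lit 0), .ofNat (nat_lit 0), .ofNat (nat_lit 0), .ofNat (nat_lit 0), .ofNat (nat_lit 0), .ofNat (nat_lit 0)⟩⟩, [⟨nat_lit 0, nat_lit 100, nat_lit 100, nat_lit 21, nat_lit 106215598⟩]⟩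
noncomputable def p005_l31 : Lf2 := ⟨nat_lit 0, nat_lit 2, [nat_lit 10, nat_lit 5, nat_lit 5, nat_lit 20], true, nat_lit 0, nat_lit 0, nat_lit 0, nat_lit 0, ⟨nat_lit 0, nat_lit 0, nat_lit 1000, nat_lit 5, nat_lit 43, nat_lit 0, nat_lit 0, nat_lit 0, nat_lit 0, nat_lit 215, nat_lit 17067, nat_lit 247, nat_lit 66246794, nat_lit 0, nat_lit 0, nat_lit 307996, false, false⟩,
 nat_lit 0, nat_lit 100000, nat_lit 0, nat_lit 0, nat_lit 48078, nat_lit 0, nat_lit 12066, nat_lit 284, nat_lit 0, nat_lit 0, nat_lit 0, nat_lit 0, nat_lit 0, nat_lit 139903696899495, nat_lit 0, nat_lit 1000000, nat_lit 10242950755, nat_lit 0, [(nat_lit 3, [(nat_lit 6, nat_lit 1000)])],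
 ⟨p005_k4, nat_lit 0, nat_lit 0, nat_lit 0, nat_lit 0, nat_lit 165547, [nat_lit 6721142858, nat_lit 5555600000], [], [nat_lit 2003217176, nat_lit 2264010523, nat_lit 1229711199, nat_lit 0], nat_lit 1271250, nat_lit 1271250, nat_lit 21650, nat_lit 43600, nat_lit 0, nat_lit 0, [nat_lit 1412500, nat_lit 1271250], [nat_lit 26, nat_lit 40, nat_lit 20, nat_lit 80]⟩, C1.Rw.none,
 ⟨nat_lit 6670, nat_lit 6690, ⟨.ofNat (nat_lit 101316), .ofNat (nat_lit 109912), .ofNat (nat_lit 102388), .ofNat (nat_lit 110984), .ofNat (nat_lit 102284), .ofNat (nat_lit 110860), .ofNat (nat_lit 103355), .ofNat (nat_lit 111931)⟩, ⟨.ofNat (nat_lit 0), .ofNat (nat_lit 0), .ofNat (nat_lit 0), .ofNat (nat_lit 0), .ofNat (nat_lit 0), .ofNat (nat_lit 0), .ofNat (nat_lit 0), .ofNat (nat_lit 0)⟩⟩, [⟨nat_lit 0, nat_lit 100, nat_lit 100, nat_lit 22, nat_lit 2935132139⟩]⟩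
noncomputable def p005_l32 : Lf2 := ⟨nat_lit 0, nat_lit 2, [nat_lit 10, nat_lit 5, nat_lit 5, nat_lit 20], true, nat_lit 0, nat_lit 0, nat_lit 0, nat_lit 0, ⟨nat_lit 0, nat_lit 0, nat_lit 1000, nat_lit 5, nat_lit 43, nat_lit 0, nat_lit 0, nat_lit 0, nat_lit 0, nat_lit 215, nat_lit 17067, nat_lit 247, nat_lit 66246794, nat_lit 0, nat_lit 0, nat_lit 307996, false, false⟩,
 nat_lit 0, nat_lit 100000, nat_lit 0, nat_lit 0, nat_lit 48078, nat_lit 0, nat_lit 0, nat_lit 996, nat_lit 0, nat_lit 0, nat_lit 0, nat_lit 0, nat_lit 0, nat_lit 400000000000000, nat_lit 0, nat_lit 1000000, nat_lit 0, nat_lit 0, [(nat_lit 3, [(nat_lit 6, nat_lit 1000)])],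
 ⟨p005_k4, nat_lit 0, nat_lit 0, nat_lit 290, nat_lit 0, nat_lit 165547, [nat_lit 20961142858, nat_lit 22643600000], [], [nat_lit 34310526896, nat_lit 33454013600, nat_lit 33706760444, nat_lit 32477049245], nat_lit 1271250, nat_lit 1271250, nat_lit 21650, nat_lit 43600, nat_lit 0, nat_lit 0, [nat_lit 1412500, nat_lit 1271250], [nat_lit 26, nat_lit 40, nat_lit 20, nat_lit 80, nat_lit 2, nat_lit 272, nat_lit 60, nat_lit 10]⟩, C1.Rw.none,
 ⟨nat_lit 6670, nat_lit 6690, ⟨.ofNat (nat_lit 101316), .ofNat (nat_lit 109912), .ofNat (nat_lit 102388), .ofNat (nat_lit 110984), .ofNat (nat_lit 102284), .ofNat (nat_lit 110860), .ofNat (nat_lit 103355), .ofNat (nat_lit 111931)⟩, ⟨.ofNat (nat_lit 0), .ofNat (nat_lit 0), .ofNat (nat_lit 0), .ofNat (nat_lit 0), .ofNat (nat_lit 0), .ofNat (nat_lit 0), .ofNat (nat_lit 0), .ofNat (nat_lit 0)⟩⟩, [⟨nat_lit 0, nat_lit 100, nat_lit 100, nat_lit 21, nat_lit 1320739929⟩]⟩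
noncomputable def p005_l33 : Lf2 := ⟨nat_lit 0, nat_lit 2, [nat_lit 10, nat_lit 5, nat_lit 5, nat_lit 20], true, nat_lit 0, nat_lit 0, nat_lit 0, nat_lit 0, ⟨nat_lit 0, nat_lit 0, nat_lit 1000, nat_lit 5, nat_lit 43, nat_lit 0, nat_lit 0, nat_lit 0, nat_lit 0, nat_lit 215, nat_lit 17067, nat_lit 247, nat_lit 66246794, nat_lit 0, nat_lit 0, nat_lit 307996, false, false⟩,
 nat_lit 0, nat_lit 2502, nat_lit 0, nat_lit 0, nat_lit 1202, nat_lit 0, nat_lit 0, nat_lit 0, nat_lit 177, nat_lit 0, nat_lit 0, nat_lit 0, nat_lit 0, nat_lit 14392449903682, nat_lit 31, nat_lit 400000, nat_lit 0, nat_lit 0, [(nat_lit 3, [(nat_lit 5, nat_lit 1000)])],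
 ⟨p005_k5, nat_lit 0, nat_lit 0, nat_lit 0, nat_lit 0, nat_lit 165547, [nat_lit 1356666667, nat_lit 998533334, nat_lit 6400000], [], [nat_lit 7386804478, nat_lit 7431258004, nat_lit 7363234424, nat_lit 7407650639], nat_lit 1271250, nat_lit 1271250, nat_lit 21650, nat_lit 43600, nat_lit 0, nat_lit 0, [nat_lit 780000, nat_lit 1435000, nat_lit 1271250], [nat_lit 18, nat_lit 40, nat_lit 20, nat_lit 80]⟩, C1.Rw.none,
 ⟨nat_lit 6670, nat_lit 6690, ⟨.ofNat (nat_lit 101316), .ofNat (nat_lit 109912), .ofNat (nat_lit 102388), .ofNat (nat_lit 110984), .ofNat (nat_lit 102284), .ofNat (nat_lit 110860), .ofNat (nat_lit 103355), .ofNat (nat_lit 111931)⟩, ⟨.ofNat (nat_lit 0), .ofNat (nat_lit 0), .ofNat (nat_lit 0), .ofNat (nat_lit 0), .ofNat (nat_lit 0), .ofNat (nat_lit 0), .ofNat (nat_lit 0), .ofNat (nat_lit 0)⟩⟩, [⟨nat_lit 0, nat_lit 100, nat_lit 100, nat_lit 22, nat_lit 135909731⟩]⟩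
noncomputable def p005_l34 : Lf2 := ⟨nat_lit 0, nat_lit 2, [nat_lit 10, nat_lit 5, nat_lit 5, nat_lit 20], true, nat_lit 0, nat_lit 0, nat_lit 0, nat_lit 0, ⟨nat_lit 0, nat_lit 0, nat_lit 1000, nat_lit 5, nat_lit 43, nat_lit 0, nat_lit 0, nat_lit 0, nat_lit 0, nat_lit 215, nat_lit 17067, nat_lit 247, nat_lit 66246794, nat_lit 0, nat_lit 0, nat_lit 307996, false, false⟩,
 nat_lit 0, nat_lit 10380, nat_lit 0, nat_lit 0, nat_lit 4990, nat_lit 0, nat_lit 0, nat_lit 0, nat_lit 0, nat_lit 0, nat_lit 0, nat_lit 0, nat_lit 0, nat_lit 26928838703003, nat_lit 53, nat_lit 1000000, nat_lit 0, nat_lit 0, [(nat_lit 3, [(nat_lit 6, nat_lit 1000)])],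
 ⟨p005_k5, nat_lit 0, nat_lit 0, nat_lit 0, nat_lit 0, nat_lit 165547, [nat_lit 1559200001, nat_lit 1418400001, nat_lit 13599999], [], [nat_lit 13079322283, nat_lit 12978509040, nat_lit 13079831714, nat_lit 12948311781], nat_lit 1271250, nat_lit 1271250, nat_lit 21650, nat_lit 43600, nat_lit 0, nat_lit 0, [nat_lit 780000, nat_lit 1435000, nat_lit 1271250], [nat_lit 18, nat_lit 40, nat_lit 20, nat_lit 80]⟩, C1.Rw.none,
 ⟨nat_lit 6670, nat_lit 6690, ⟨.ofNat (nat_lit 101316), .ofNat (nat_lit 109912), .ofNat (nat_lit 102388), .ofNat (nat_lit 110984), .ofNat (nat_lit 102284), .ofNat (nat_lit 110860), .ofNat (nat_lit 103355), .ofNat (nat_lit 111931)⟩, ⟨.ofNat (nat_lit 0), .ofNat (nat_lit 0), .ofNat (nat_lit 0), .ofNat (nat_lit 0), .ofNat (nat_lit 0), .ofNat (nat_lit 0), .ofNat (nat_lit 0), .ofNat (nat_lit 0)⟩⟩, [⟨nat_lit 0, nat_lit 100, nat_lit 100, nat_lit 21, nat_lit 106215598⟩]⟩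
noncomputable def p005_l35 : Lf2 := ⟨nat_lit 0, nat_lit 2, [nat_lit 10, nat_lit 5, nat_lit 5, nat_lit 20], true, nat_lit 0, nat_lit 0, nat_lit 0, nat_lit 0, ⟨nat_lit 0, nat_lit 0, nat_lit 1000, nat_lit 5, nat_lit 43, nat_lit 0, nat_lit 0, nat_lit 0, nat_lit 0, nat_lit 215, nat_lit 17067, nat_lit 247, nat_lit 66246794, nat_lit 0, nat_lit 0, nat_lit 307996, false, false⟩,
 nat_lit 0, nat_lit 100000, nat_lit 0, nat_lit 0, nat_lit 48078, nat_lit 0, nat_lit 12066, nat_lit 284, nat_lit 0, nat_lit 0, nat_lit 0, nat_lit 0, nat_lit 0, nat_lit 139903696899495, nat_lit 0, nat_lit 1000000, nat_lit 10242950755, nat_lit 0, [(nat_lit 3, [(nat_lit 6, nat_lit 1000)])],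
 ⟨p005_k4, nat_lit 0, nat_lit 0, nat_lit 0, nat_lit 0, nat_lit 165547, [nat_lit 6721142858, nat_lit 5555600000], [], [nat_lit 2003217176, nat_lit 2264010523, nat_lit 1229711199, nat_lit 0], nat_lit 1271250, nat_lit 1271250, nat_lit 21650, nat_lit 43600, nat_lit 0, nat_lit 0, [nat_lit 1412500, nat_lit 1271250], [nat_lit 26, nat_lit 40, nat_lit 20, nat_lit 80]⟩, C1.Rw.none,
 ⟨nat_lit 6670, nat_lit 6690, ⟨.ofNat (nat_lit 101316), .ofNat (nat_lit 109912), .ofNat (nat_lit 102388), .ofNat (nat_lit 110984), .ofNat (nat_lit 102284), .ofNat (nat_lit 110860), .ofNat (nat_lit 103355), .ofNat (nat_lit 111931)⟩, ⟨.ofNat (nat_lit 0), .ofNat (nat_lit 0), .ofNat (nat_lit 0), .ofNat (nat_lit 0), .ofNat (nat_lit 0), .ofNat (nat_lit 0), .ofNat (nat_lit 0), .ofNat (nat_lit 0)⟩⟩, [⟨nat_lit 0, nat_lit 100, nat_lit 100, nat_lit 22, nat_lit 2935132139⟩]⟩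
noncomputable def p005_l36 : Lf2 := ⟨nat_lit 0, nat_lit 2, [nat_lit 10, nat_lit 5, nat_lit 5, nat_lit 20], true, nat_lit 0, nat_lit 0, nat_lit 0, nat_lit 0, ⟨nat_lit 0, nat_lit 0, nat_lit 1000, nat_lit 5, nat_lit 43, nat_lit 0, nat_lit 0, nat_lit 0, nat_lit 0, nat_lit 215, nat_lit 17067, nat_lit 247, nat_lit 66246794, nat_lit 0, nat_lit 0, nat_lit 307996, false, false⟩,
 nat_lit 0, nat_lit 100000, nat_lit 0, nat_lit 0, nat_lit 48078, nat_lit 0, nat_lit 0, nat_lit 996, nat_lit 0, nat_lit 0, nat_lit 0, nat_lit 0, nat_lit 0, nat_lit 400000000000000, nat_lit 0, nat_lit 1000000, nat_lit 0, nat_lit 0, [(nat_lit 3, [(nat_lit 6, nat_lit 1000)])],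
 ⟨p005_k4, nat_lit 0, nat_lit 0, nat_lit 290, nat_lit 0, nat_lit 165547, [nat_lit 20961142858, nat_lit 22643600000], [], [nat_lit 34310526896, nat_lit 33454013600, nat_lit 33706760444, nat_lit 32477049245], nat_lit 1271250, nat_lit 1271250, nat_lit 21650, nat_lit 43600, nat_lit 0, nat_lit 0, [nat_lit 1412500, nat_lit 1271250], [nat_lit 26, nat_lit 40, nat_lit 20, nat_lit 80, nat_lit 2, nat_lit 272, nat_lit 60, nat_lit 10]⟩, C1.Rw.none,
 ⟨nat_lit 6670, nat_lit 6690, ⟨.ofNat (nat_lit 101316), .ofNat (nat_lit 109912), .ofNat (nat_lit 102388), .ofNat (nat_lit 110984), .ofNat (nat_lit 102284), .ofNat (nat_lit 110860), .ofNat (nat_lit 103355), .ofNat (nat_lit 111931)⟩, ⟨.ofNat (nat_lit 0), .ofNat (nat_lit 0), .ofNat (nat_lit 0), .ofNat (nat_lit 0), .ofNat (nat_lit 0), .ofNat (nat_lit 0), .ofNat (nat_lit 0), .ofNat (nat_lit 0)⟩⟩, [⟨nat_lit 0, nat_lit 100, nat_lit 100, nat_lit 21, nat_lit 1320739932⟩]⟩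
noncomputable def p005_l37 : Lf2 := ⟨nat_lit 0, nat_lit 2, [nat_lit 10, nat_lit 5, nat_lit 5, nat_lit 20], true, nat_lit 0, nat_lit 0, nat_lit 0, nat_lit 0, ⟨nat_lit 0, nat_lit 0, nat_lit 1000, nat_lit 5, nat_lit 43, nat_lit 0, nat_lit 0, nat_lit 0, nat_lit 0, nat_lit 215, nat_lit 17067, nat_lit 247, nat_lit 66246794, nat_lit 0, nat_lit 0, nat_lit 307996, false, false⟩,
 nat_lit 0, nat_lit 0, nat_lit 0, nat_lit 0, nat_lit 0, nat_lit 0, nat_lit 0, nat_lit 0, nat_lit 293, nat_lit 0, nat_lit 0, nat_lit 0, nat_lit 0, nat_lit 11358418007583, nat_lit 53, nat_lit 1000000, nat_lit 0, nat_lit 0, [(nat_lit 3, [(nat_lit 6, nat_lit 1000)])],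
 ⟨p005_k4, nat_lit 0, nat_lit 0, nat_lit 0, nat_lit 0, nat_lit 165547, [nat_lit 2101142858, nat_lit 11600000], [], [nat_lit 5500094738, nat_lit 5538004219, nat_lit 5544381518, nat_lit 5582257378], nat_lit 1271250, nat_lit 1271250, nat_lit 21650, nat_lit 43600, nat_lit 0, nat_lit 0, [nat_lit 1412500, nat_lit 1271250], [nat_lit 26, nat_lit 40, nat_lit 20, nat_lit 80]⟩, C1.Rw.none,
 ⟨nat_lit 6670, nat_lit 6690, ⟨.ofNat (nat_lit 101316), .ofNat (nat_lit 109912), .ofNat (nat_lit 102388), .ofNat (nat_lit 110984), .ofNat (nat_lit 102284), .ofNat (nat_lit 110860), .ofNat (nat_lit 103355), .ofNat (nat_lit 111931)⟩, ⟨.ofNat (nat_lit 0), .ofNat (nat_lit 0), .ofNat (nat_lit 0), .ofNat (nat_lit 0), .ofNat (nat_lit 0), .ofNat (nat_lit 0), .ofNat (nat_lit 0), .ofNat (nat_lit 0)⟩⟩, [⟨nat_lit 0, nat_lit 100, nat_lit 100, nat_lit 21, nat_lit 44746566⟩]⟩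
noncomputable def p005_l38 : Lf2 := ⟨nat_lit 0, nat_lit 2, [nat_lit 10, nat_lit 5, nat_lit 5, nat_lit 20], true, nat_lit 0, nat_lit 0, nat_lit 0, nat_lit 0, ⟨nat_lit 0, nat_lit 0, nat_lit 1000, nat_lit 5, nat_lit 43, nat_lit 0, nat_lit 0, nat_lit 0, nat_lit 0, nat_lit 215, nat_lit 17067, nat_lit 247, nat_lit 66246794, nat_lit 0, nat_lit 0, nat_lit 307996, false, false⟩,
 nat_lit 0, nat_lit 10380, nat_lit 0, nat_lit 0, nat_lit 4990, nat_lit 0, nat_lit 0, nat_lit 0, nat_lit 0, nat_lit 0, nat_lit 0, nat_lit 0, nat_lit 0, nat_lit 26928838703003, nat_lit 53, nat_lit 1000000, nat_lit 0, nat_lit 0, [(nat_lit 3, [(nat_lit 6, nat_lit 1000)])],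
 ⟨p005_k5, nat_lit 0, nat_lit 0, nat_lit 0, nat_lit 0, nat_lit 165547, [nat_lit 1559200001, nat_lit 1418400001, nat_lit 13599999], [], [nat_lit 13079322283, nat_lit 12978509040, nat_lit 13079831714, nat_lit 12948311781], nat_lit 1271250, nat_lit 1271250, nat_lit 21650, nat_lit 43600, nat_lit 0, nat_lit 0, [nat_lit 780000, nat_lit 1435000, nat_lit 1271250], [nat_lit 18, nat_lit 40, nat_lit 20, nat_lit 80]⟩, C1.Rw.none,
 ⟨nat_lit 6670, nat_lit 6690, ⟨.ofNat (nat_lit 101316), .ofNat (nat_lit 109912), .ofNat (nat_lit 102388), .ofNat (nat_lit 110984), .ofNat (nat_lit 102284), .ofNat (nat_lit 110860), .ofNat (nat_lit 103355), .ofNat (nat_lit 111931)⟩, ⟨.ofNat (nat_lit 0), .ofNat (nat_lit 0), .ofNat (nat_lit 0), .ofNat (nat_lit 0), .ofNat (nat_lit 0), .ofNat (nat_lit 0), .ofNat (nat_lit 0), .ofNat (nat_lit 0)⟩⟩, [⟨nat_lit 0, nat_lit 100, nat_lit 100, nat_lit 21, nat_lit 106215598⟩]⟩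
noncomputable def p005_l39 : Lf2 := ⟨nat_lit 0, nat_lit 2, [nat_lit 10, nat_lit 5, nat_lit 5, nat_lit 20], true, nat_lit 0, nat_lit 0, nat_lit 0, nat_lit 0, ⟨nat_lit 0, nat_lit 0, nat_lit 1000, nat_lit 5, nat_lit 43, nat_lit 0, nat_lit 0, nat_lit 0, nat_lit 0, nat_lit 215, nat_lit 17067, nat_lit 247, nat_lit 66246794, nat_lit 0, nat_lit 0, nat_lit 307996, false, false⟩,
 nat_lit 0, nat_lit 100000, nat_lit 0, nat_lit 0, nat_lit 48078, nat_lit 0, nat_lit 12066, nat_lit 284, nat_lit 0, nat_lit 0, nat_lit 0, nat_lit 0, nat_lit 0, nat_lit 139903696899495, nat_lit 0, nat_lit 1000000, nat_lit 10242950755, nat_lit 0, [(nat_lit 3, [(nat_lit 6, nat_lit 1000)])],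
 ⟨p005_k4, nat_lit 0, nat_lit 0, nat_lit 0, nat_lit 0, nat_lit 165547, [nat_lit 6721142858, nat_lit 5555600000], [], [nat_lit 2003217176, nat_lit 2264010523, nat_lit 1229711199, nat_lit 0], nat_lit 1271250, nat_lit 1271250, nat_lit 21650, nat_lit 43600, nat_lit 0, nat_lit 0, [nat_lit 1412500, nat_lit 1271250], [nat_lit 26, nat_lit 40, nat_lit 20, nat_lit 80]⟩, C1.Rw.none,
 ⟨nat_lit 6670, nat_lit 6690, ⟨.ofNat (nat_lit 101316), .ofNat (nat_lit 109912), .ofNat (nat_lit 102388), .ofNat (nat_lit 110984), .ofNat (nat_lit 102284), .ofNat (nat_lit 110860), .ofNat (nat_lit 103355), .ofNat (nat_lit 111931)⟩, ⟨.ofNat (nat_lit 0), .ofNat (nat_lit 0), .ofNat (nat_lit 0), .ofNat (nat_lit 0), .ofNat (nat_lit 0), .ofNat (nat_lit 0), .ofNat (nat_lit 0), .ofNat (nat_lit 0)⟩⟩, [⟨nat_lit 0, nat_lit 100, nat_lit 100, nat_lit 22, nat_lit 2935132139⟩]⟩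
noncomputable def p005_l40 : Lf2 := ⟨nat_lit 0, nat_lit 2, [nat_lit 10, nat_lit 5, nat_lit 5, nat_lit 20], true, nat_lit 0, nat_lit 0, nat_lit 0, nat_lit 0, ⟨nat_lit 0, nat_lit 0, nat_lit 1000, nat_lit 5, nat_lit 43, nat_lit 0, nat_lit 0, nat_lit 0, nat_lit 0, nat_lit 215, nat_lit 17067, nat_lit 247, nat_lit 66246794, nat_lit 0, nat_lit 0, nat_lit 307996, false, false⟩,
 nat_lit 0, nat_lit 100000, nat_lit 0, nat_lit 0, nat_lit 48078, nat_lit 0, nat_lit 0, nat_lit 996, nat_lit 0, nat_lit 0, nat_lit 0, nat_lit 0, nat_lit 0, nat_lit 400000000000000, nat_lit 0, nat_lit 1000000, nat_lit 0, nat_lit 0, [(nat_lit 3, [(nat_lit 6, nat_lit 1000)])],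
 ⟨p005_k4, nat_lit 0, nat_lit 0, nat_lit 290, nat_lit 0, nat_lit 165547, [nat_lit 20961142858, nat_lit 22643600000], [], [nat_lit 34310526896, nat_lit 33454013600, nat_lit 33706760444, nat_lit 32477049245], nat_lit 1271250, nat_lit 1271250, nat_lit 21650, nat_lit 43600, nat_lit 0, nat_lit 0, [nat_lit 1412500, nat_lit 1271250], [nat_lit 26, nat_lit 40, nat_lit 20, nat_lit 80, nat_lit 2, nat_lit 272, nat_lit 60, nat_lit 10]⟩, C1.Rw.none,
 ⟨nat_lit 6670, nat_lit 6690, ⟨.ofNat (nat_lit 101316), .ofNat (nat_lit 109912), .ofNat (nat_lit 102388), .ofNat (nat_lit 110984), .ofNat (nat_lit 102284), .ofNat (nat_lit 110860), .ofNat (nat_lit 103355), .ofNat (nat_lit 111931)⟩, ⟨.ofNat (nat_lit 0), .ofNat (nat_lit 0), .ofNat (nat_lit 0), .ofNat (nat_lit 0), .ofNat (nat_lit 0), .ofNat (nat_lit 0), .ofNat (nat_lit 0), .ofNat (nat_lit 0)⟩⟩, [⟨nat_lit 0, nat_lit 100, nat_lit 100, nat_lit 21, nat_lit 1320739935⟩]⟩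
noncomputable def p005_l41 : Lf2 := ⟨nat_lit 0, nat_lit 2, [nat_lit 10, nat_lit 5, nat_lit 5, nat_lit 20], false, nat_lit 0, nat_lit 0, nat_lit 0, nat_lit 0, ⟨nat_lit 1000, nat_lit 0, nat_lit 0, nat_lit 0, nat_lit 0, nat_lit 0, nat_lit 0, nat_lit 0, nat_lit 0, nat_lit 0, nat_lit 0, nat_lit 0, nat_lit 0, nat_lit 0, nat_lit 0, nat_lit 0, false, false⟩,
 nat_lit 0, nat_lit 26517, nat_lit 0, nat_lit 0, nat_lit 12748, nat_lit 100000, nat_lit 0, nat_lit 0, nat_lit 0, nat_lit 60000, nat_lit 11431, nat_lit 0, nat_lit 0, nat_lit 78023102690731, nat_lit 0, nat_lit 0, nat_lit 0, nat_lit 0, [],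
 ⟨p005_k4, nat_lit 0, nat_lit 0, nat_lit 290, nat_lit 0, nat_lit 165547, [nat_lit 6250000000, nat_lit 7968000000], [], [nat_lit 26018929685, nat_lit 25938678661, nat_lit 25923359138, nat_lit 25597298188], nat_lit 1271250, nat_lit 1271250, nat_lit 21650, nat_lit 43600, nat_lit 0, nat_lit 0, [nat_lit 1412500, nat_lit 1271250], [nat_lit 26, nat_lit 40, nat_lit 20, nat_lit 80, nat_lit 2, nat_lit 272, nat_lit 60, nat_lit 10]⟩, ⟨p005_k6, nat_lit 0, nat_lit 0, nat_lit 0, nat_lit 0, nat_lit 0, [nat_lit 93480000000, nat_lit 187584000000, nat_lit 234870000000, nat_lit 282312000000], [], [nat_lit 291326171621, nat_lit 292025314241, nat_lit 284959786240, nat_lit 285646805281], nat_lit 0, nat_lit 0, nat_lit 0, nat_lit 0, nat_lit 0, nat_lit 0, [], [nat_lit 98, nat_lit 40, nat_lit 20, nat_lit 40]⟩,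
 zbF0, [⟨nat_lit 0, nat_lit 100, nat_lit 100, nat_lit 21, nat_lit 8970326758⟩]⟩
noncomputable def p005_l42 : Lf2 := ⟨nat_lit 0, nat_lit 2, [nat_lit 10, nat_lit 5, nat_lit 5, nat_lit 20], false, nat_lit 0, nat_lit 0, nat_lit 0, nat_lit 0, ⟨nat_lit 1000, nat_lit 0, nat_lit 0, nat_lit 0, nat_lit 0, nat_lit 0, nat_lit 0, nat_lit 0, nat_lit 0, nat_lit 0, nat_lit 0, nat_lit 0, nat_lit 0, nat_lit 0, nat_lit 0, nat_lit 0, false, false⟩,
 nat_lit 0, nat_lit 27503, nat_lit 0, nat_lit 0, nat_lit 13222, nat_lit 5188, nat_lit 0, nat_lit 0, nat_lit 0, nat_lit 5420, nat_lit 0, nat_lit 0, nat_lit 0, nat_lit 27864114492379, nat_lit 0, nat_lit 0, nat_lit 0, nat_lit 0, [],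
 ⟨p005_k4, nat_lit 0, nat_lit 0, nat_lit 288, nat_lit 0, nat_lit 165547, [nat_lit 6250000000, nat_lit 7968000000], [], [nat_lit 25435674085, nat_lit 25221110252, nat_lit 25282095914, nat_lit 24944909263], nat_lit 1271250, nat_lit 1271250, nat_lit 43600, nat_lit 88400, nat_lit 0, nat_lit 0, [nat_lit 1412500, nat_lit 1271250], [nat_lit 26, nat_lit 40, nat_lit 20, nat_lit 80, nat_lit 2, nat_lit 272, nat_lit 60, nat_lit 10]⟩, ⟨p005_k1, nat_lit 0, nat_lit 0, nat_lit 0, nat_lit 0, nat_lit 0, [nat_lit 3282000000, nat_lit 6250000000, nat_lit 7968000000], [], [nat_lit 17521740159, nat_lit 17653313555, nat_lit 16975612757, nat_lit 17107148340], nat_lit 0, nat_lit 0, nat_lit 0, nat_lit 0, nat_lit 0, nat_lit 0, [], [nat_lit 18, nat_lit 40, nat_lit 20, nat_lit 80]⟩,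
 zbF0, []⟩
noncomputable def b_NL_550_550_0_11 : St := ⟨false, nat_lit 1, nat_lit 0, nat_lit 1, nat_lit 20, nat_lit 221, nat_lit 222, nat_lit 220, nat_lit 222, nat_lit 4, nat_lit 16, nat_lit 0, nat_lit 0, nat_lit 0, nat_lit 0, nat_lit 0, nat_lit 0, nat_lit 4, nat_lit 8, nat_lit 0, nat_lit 0, nat_lit 200, nat_lit 300⟩
theorem d_NL_550_550_0_11 (h : EB TB.env) : Dead b_NL_550_550_0_11 := chkB_sound0 h (T :=
(.spl (nat_lit 2) (nat_lit 8)
(.spl (nat_lit 1) (nat_lit 221)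
(.spl (nat_lit 8) (nat_lit 260)
(.spl (nat_lit 8) (nat_lit 240)
(.spl (nat_lit 8) (nat_lit 220)
(.leaf p005_l14)
(.spl (nat_lit 7) (nat_lit 600)
(.spl (nat_lit 7) (nat_lit 300)
(.leaf p005_l15)
(.spl (nat_lit 7) (nat_lit 460)
(.leaf p005_l16)
(.leaf p005_l17)))
(.leaf p005_l18)))
(.spl (nat_lit 7) (nat_lit 600)
(.spl (nat_lit 7) (nat_lit 300)
(.leaf p005_l19)
(.spl (nat_lit 7) (nat_lit 460)
(.leaf p005_l20)
(.leaf p005_l21)))
(.leaf p005_l22)))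
(.spl (nat_lit 8) (nat_lit 280)
(.spl (nat_lit 7) (nat_lit 600)
(.spl (nat_lit 7) (nat_lit 300)
(.leaf p005_l23)
(.spl (nat_lit 7) (nat_lit 460)
(.leaf p005_l24)
(.leaf p005_l25)))
(.leaf p005_l26))
(.leaf p005_l27)))
(.spl (nat_lit 8) (nat_lit 260)
(.spl (nat_lit 8) (nat_lit 240)
(.spl (nat_lit 8) (nat_lit 220)
(.leaf p005_l28)
(.spl (nat_lit 7) (nat_lit 600)
(.spl (nat_lit 7) (nat_lit 300)
(.leaf p005_l29)
(.spl (nat_lit 7) (nat_lit 460)
(.leaf p005_l30)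
(.leaf p005_l31)))
(.leaf p005_l32)))
(.spl (nat_lit 7) (nat_lit 600)
(.spl (nat_lit 7) (nat_lit 300)
(.leaf p005_l33)
(.spl (nat_lit 7) (nat_lit 460)
(.leaf p005_l34)
(.leaf p005_l35)))
(.leaf p005_l36)))
(.spl (nat_lit 8) (nat_lit 280)
(.spl (nat_lit 7) (nat_lit 600)
(.spl (nat_lit 7) (nat_lit 300)
(.leaf p005_l37)
(.spl (nat_lit 7) (nat_lit 460)
(.leaf p005_l38)
(.leaf p005_l39)))
(.leaf p005_l40))
(.leaf p005_l41))))
(.leaf p005_l42))) (by decide +kernel)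
noncomputable def p005_l43 : Lf2 := ⟨nat_lit 0, nat_lit 2, [nat_lit 10, nat_lit 5, nat_lit 5, nat_lit 20], false, nat_lit 0, nat_lit 0, nat_lit 0, nat_lit 0, ⟨nat_lit 1000, nat_lit 0, nat_lit 0, nat_lit 0, nat_lit 0, nat_lit 0, nat_lit 0, nat_lit 0, nat_lit 0, nat_lit 0, nat_lit 0, nat_lit 0, nat_lit 0, nat_lit 0, nat_lit 0, nat_lit 0, false, false⟩,
 nat_lit 0, nat_lit 26873, nat_lit 0, nat_lit 0, nat_lit 12987, nat_lit 0, nat_lit 935, nat_lit 0, nat_lit 0, nat_lit 4837, nat_lit 0, nat_lit 559, nat_lit 0, nat_lit 12349000590632, nat_lit 0, nat_lit 0, nat_lit 0, nat_lit 0, [],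
 ⟨p005_k7, nat_lit 0, nat_lit 0, nat_lit 294, nat_lit 0, nat_lit 223068, [nat_lit 6250000000, nat_lit 7968000000], [], [nat_lit 25443803171, nat_lit 25355253390, nat_lit 25345284915, nat_lit 25013110962], nat_lit 1271250, nat_lit 1271250, nat_lit 21650, nat_lit 43600, nat_lit 0, nat_lit 0, [nat_lit 1412500, nat_lit 1271250], [nat_lit 26, nat_lit 40, nat_lit 20, nat_lit 80, nat_lit 2, nat_lit 272, nat_lit 60, nat_lit 10]⟩, ⟨p005_k1, nat_lit 0, nat_lit 0, nat_lit 0, nat_lit 0, nat_lit 0, [nat_lit 3282000000, nat_lit 6250000000, nat_lit 7968000000], [], [nat_lit 5351042400, nat_lit 5464770840, nat_lit 5395362800, nat_lit 5508990380], nat_lit 0, nat_lit 0, nat_lit 0, nat_lit 0, nat_lit 0, nat_lit 0, [], [nat_lit 18, nat_lit 40, nat_lit 20, nat_lit 80]⟩,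
 zbF0, [⟨nat_lit 0, nat_lit 100, nat_lit 100, nat_lit 22, nat_lit 954810586⟩]⟩
noncomputable def p005_l44 : Lf2 := ⟨nat_lit 0, nat_lit 1, [nat_lit 19, nat_lit 5, nat_lit 5, nat_lit 20], false, nat_lit 0, nat_lit 0, nat_lit 0, nat_lit 0, ⟨nat_lit 1000, nat_lit 0, nat_lit 0, nat_lit 0, nat_lit 0, nat_lit 0, nat_lit 0, nat_lit 0, nat_lit 0, nat_lit 0, nat_lit 0, nat_lit 0, nat_lit 0, nat_lit 0, nat_lit 0, nat_lit 0, false, false⟩,
 nat_lit 0, nat_lit 26940, nat_lit 0, nat_lit 0, nat_lit 13020, nat_lit 3734, nat_lit 897, nat_lit 0, nat_lit 0, nat_lit 5258, nat_lit 0, nat_lit 0, nat_lit 0, nat_lit 0, nat_lit 0, nat_lit 0, nat_lit 0, nat_lit 0, [],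
 ⟨p005_k8, nat_lit 0, nat_lit 0, nat_lit 293, nat_lit 0, nat_lit 210810, [nat_lit 6250000000, nat_lit 7968000000], [], [nat_lit 25409479794, nat_lit 25404723945, nat_lit 25310488104, nat_lit 24977470095], nat_lit 1271250, nat_lit 1271250, nat_lit 21650, nat_lit 43600, nat_lit 0, nat_lit 0, [nat_lit 1412500, nat_lit 1271250], [nat_lit 26, nat_lit 40, nat_lit 20, nat_lit 80, nat_lit 2, nat_lit 272, nat_lit 60, nat_lit 10]⟩, ⟨p005_k9, nat_lit 0, nat_lit 0, nat_lit 0, nat_lit 0, nat_lit 0, [nat_lit 2032000000, nat_lit 5449500000, nat_lit 6250000000, nat_lit 7089500000], [], [nat_lit 17037430008, nat_lit 17106630788, nat_lit 16779097344, nat_lit 16846147832], nat_lit 0, nat_lit 0, nat_lit 0, nat_lit 0, nat_lit 0, nat_lit 0, [], [nat_lit 243, nat_lit 10, nat_lit 4, nat_lit 20]⟩,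
 zbF0, [⟨nat_lit 0, nat_lit 100, nat_lit 100, nat_lit 22, nat_lit 1341160182⟩]⟩
noncomputable def p005_l45 : Lf2 := ⟨nat_lit 0, nat_lit 1, [nat_lit 19, nat_lit 5, nat_lit 5, nat_lit 20], true, nat_lit 0, nat_lit 0, nat_lit 0, nat_lit 0, ⟨nat_lit 0, nat_lit 0, nat_lit 1000, nat_lit 5, nat_lit 43, nat_lit 0, nat_lit 0, nat_lit 0, nat_lit 0, nat_lit 215, nat_lit 17067, nat_lit 247, nat_lit 66233380, nat_lit 0, nat_lit 0, nat_lit 312477, false, false⟩,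
 nat_lit 0, nat_lit 5935, nat_lit 0, nat_lit 0, nat_lit 2868, nat_lit 0, nat_lit 354, nat_lit 0, nat_lit 0, nat_lit 0, nat_lit 0, nat_lit 0, nat_lit 0, nat_lit 0, nat_lit 21, nat_lit 1000000, nat_lit 0, nat_lit 0, [(nat_lit 3, [(nat_lit 6, nat_lit 1000)])],
 ⟨p005_k10, nat_lit 0, nat_lit 0, nat_lit 0, nat_lit 0, nat_lit 214699, [nat_lit 802533334, nat_lit 1243066667, nat_lit 12000000], [], [nat_lit 13811718204, nat_lit 13857524388, nat_lit 13687298821, nat_lit 13732636820], nat_lit 1271250, nat_lit 1271250, nat_lit 21650, nat_lit 43600, nat_lit 0, nat_lit 0, [nat_lit 631250, nat_lit 1271250, nat_lit 1271250], [nat_lit 90, nat_lit 40, nat_lit 20, nat_lit 40]⟩, C1.Rw.none,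
 ⟨nat_lit 6652, nat_lit 6671, ⟨.ofNat (nat_lit 102284), .ofNat (nat_lit 110860), .ofNat (nat_lit 103355), .ofNat (nat_lit 111931), .ofNat (nat_lit 103249), .ofNat (nat_lit 111805), .ofNat (nat_lit 104320), .ofNat (nat_lit 112876)⟩, ⟨.ofNat (nat_lit 0), .ofNat (nat_lit 0), .ofNat (nat_lit 0), .ofNat (nat_lit 0), .ofNat (nat_lit 0), .ofNat (nat_lit 0), .ofNat (nat_lit 0), .ofNat (nat_lit 0)⟩⟩, [⟨nat_lit 0, nat_lit 100, nat_lit 100, nat_lit 22, nat_lit 262455906⟩]⟩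
noncomputable def p005_l46 : Lf2 := ⟨nat_lit 0, nat_lit 1, [nat_lit 19, nat_lit 5, nat_lit 5, nat_lit 20], true, nat_lit 0, nat_lit 0, nat_lit 0, nat_lit 0, ⟨nat_lit 0, nat_lit 0, nat_lit 1000, nat_lit 5, nat_lit 43, nat_lit 0, nat_lit 0, nat_lit 0, nat_lit 0, nat_lit 215, nat_lit 17067, nat_lit 247, nat_lit 66233380, nat_lit 0, nat_lit 0, nat_lit 312477, false, false⟩,
 nat_lit 0, nat_lit 100000, nat_lit 0, nat_lit 0, nat_lit 48330, nat_lit 0, nat_lit 0, nat_lit 5273, nat_lit 0, nat_lit 0, nat_lit 0, nat_lit 0, nat_lit 0, nat_lit 0, nat_lit 0, nat_lit 1000000, nat_lit 0, nat_lit 0, [(nat_lit 3, [(nat_lit 6, nat_lit 1000)])],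
 ⟨p005_k8, nat_lit 0, nat_lit 0, nat_lit 293, nat_lit 0, nat_lit 214699, [nat_lit 106501142858, nat_lit 125291600000], [], [nat_lit 289436895449, nat_lit 288831063131, nat_lit 288831328137, nat_lit 287595171429], nat_lit 1271250, nat_lit 1271250, nat_lit 21650, nat_lit 43600, nat_lit 0, nat_lit 0, [nat_lit 1412500, nat_lit 1271250], [nat_lit 26, nat_lit 40, nat_lit 20, nat_lit 80, nat_lit 2, nat_lit 272, nat_lit 60, nat_lit 10]⟩, C1.Rw.none,
 ⟨nat_lit 6652, nat_lit 6671, ⟨.ofNat (nat_lit 102284), .ofNat (nat_lit 110860), .ofNat (nat_lit 103355), .ofNat (nat_lit 111931), .ofNat (nat_lit 103249), .ofNat (nat_lit 111805), .ofNat (nat_lit 104320), .ofNat (nat_lit 112876)⟩, ⟨.ofNat (nat_lit 0), .ofNat (nat_lit 0), .ofNat (nat_lit 0), .ofNat (nat_lit 0), .ofNat (nat_lit 0), .ofNat (nat_lit 0), .ofNat (nat_lit 0), .ofNat (nat_lit 0)⟩⟩, [⟨nat_lit 0, nat_lit 100, nat_lit 100, nat_lit 22, nat_lit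 863308578⟩]⟩
noncomputable def p005_l47 : Lf2 := ⟨nat_lit 0, nat_lit 1, [nat_lit 19, nat_lit 5, nat_lit 5, nat_lit 20], true, nat_lit 0, nat_lit 0, nat_lit 0, nat_lit 0, ⟨nat_lit 0, nat_lit 0, nat_lit 1000, nat_lit 5, nat_lit 43, nat_lit 0, nat_lit 0, nat_lit 0, nat_lit 0, nat_lit 215, nat_lit 17067, nat_lit 247, nat_lit 66233380, nat_lit 0, nat_lit 0, nat_lit 312477, false, false⟩,
 nat_lit 0, nat_lit 5935, nat_lit 0, nat_lit 0, nat_lit 2868, nat_lit 0, nat_lit 354, nat_lit 0, nat_lit 0, nat_lit 0, nat_lit 0, nat_lit 0, nat_lit 0, nat_lit 0, nat_lit 21, nat_lit 1000000, nat_lit 0, nat_lit 0, [(nat_lit 3, [(nat_lit 6, nat_lit 1000)])],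
 ⟨p005_k10, nat_lit 0, nat_lit 0, nat_lit 0, nat_lit 0, nat_lit 214699, [nat_lit 802533334, nat_lit 1243066667, nat_lit 12000000], [], [nat_lit 13811718204, nat_lit 13857524388, nat_lit 13687298821, nat_lit 13732636820], nat_lit 1271250, nat_lit 1271250, nat_lit 21650, nat_lit 43600, nat_lit 0, nat_lit 0, [nat_lit 631250, nat_lit 1271250, nat_lit 1271250], [nat_lit 90, nat_lit 40, nat_lit 20, nat_lit 40]⟩, C1.Rw.none,
 ⟨nat_lit 6652, nat_lit 6671, ⟨.ofNat (nat_lit 102284), .ofNat (nat_lit 110860), .ofNat (nat_lit 103355), .ofNat (nat_lit 111931), .ofNat (nat_lit 103249), .ofNat (nat_lit 111805), .ofNat (nat_lit 104320), .ofNat (nat_lit 112876)⟩, ⟨.ofNat (nat_lit 0), .ofNat (nat_lit 0), .ofNat (nat_lit 0), .ofNat (nat_lit 0), .ofNat (nat_lit 0), .ofNat (nat_lit 0), .ofNat (nat_lit 0), .ofNat (nat_lit 0)⟩⟩, [⟨nat_lit 0, nat_lit 100, nat_lit 100, nat_lit 22, nat_lit 262455906⟩]⟩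
noncomputable def p005_l48 : Lf2 := ⟨nat_lit 0, nat_lit 1, [nat_lit 19, nat_lit 5, nat_lit 5, nat_lit 20], true, nat_lit 0, nat_lit 0, nat_lit 0, nat_lit 0, ⟨nat_lit 0, nat_lit 0, nat_lit 1000, nat_lit 5, nat_lit 43, nat_lit 0, nat_lit 0, nat_lit 0, nat_lit 0, nat_lit 215, nat_lit 17067, nat_lit 247, nat_lit 66233380, nat_lit 0, nat_lit 0, nat_lit 312477, false, false⟩,
 nat_lit 0, nat_lit 100000, nat_lit 0, nat_lit 0, nat_lit 48330, nat_lit 0, nat_lit 0, nat_lit 5273, nat_lit 0, nat_lit 0, nat_lit 0, nat_lit 0, nat_lit 0, nat_lit 0, nat_lit 0, nat_lit 1000000, nat_lit 0, nat_lit 0, [(nat_lit 3, [(nat_lit 6, nat_lit 1000)])],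
 ⟨p005_k8, nat_lit 0, nat_lit 0, nat_lit 293, nat_lit 0, nat_lit 214699, [nat_lit 106501142858, nat_lit 125291600000], [], [nat_lit 289436895449, nat_lit 288831063131, nat_lit 288831328137, nat_lit 287595171429], nat_lit 1271250, nat_lit 1271250, nat_lit 21650, nat_lit 43600, nat_lit 0, nat_lit 0, [nat_lit 1412500, nat_lit 1271250], [nat_lit 26, nat_lit 40, nat_lit 20, nat_lit 80, nat_lit 2, nat_lit 272, nat_lit 60, nat_lit 10]⟩, C1.Rw.none,
 ⟨nat_lit 6652, nat_lit 6671, ⟨.ofNat (nat_lit 102284), .ofNat (nat_lit 110860), .ofNat (nat_lit 103355), .ofNat (nat_lit 111931), .ofNat (nat_lit 103249), .ofNat (nat_lit 111805), .ofNat (nat_lit 104320), .ofNat (nat_lit 112876)⟩, ⟨.ofNat (nat_lit 0), .ofNat (nat_lit 0), .ofNat (nat_lit 0), .ofNat (nat_lit 0), .ofNat (nat_lit 0), .ofNat (nat_lit 0), .ofNat (nat_lit 0), .ofNat (nat_lit 0)⟩⟩, [⟨nat_lit 0, nat_lit 100, nat_lit 100, nat_lit 22, nat_lit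 863308578⟩]⟩
noncomputable def p005_l49 : Lf2 := ⟨nat_lit 0, nat_lit 1, [nat_lit 19, nat_lit 5, nat_lit 5, nat_lit 20], false, nat_lit 0, nat_lit 0, nat_lit 0, nat_lit 0, ⟨nat_lit 1000, nat_lit 0, nat_lit 0, nat_lit 0, nat_lit 0, nat_lit 0, nat_lit 0, nat_lit 0, nat_lit 0, nat_lit 0, nat_lit 0, nat_lit 0, nat_lit 0, nat_lit 0, nat_lit 0, nat_lit 0, false, false⟩,
 nat_lit 0, nat_lit 25882, nat_lit 0, nat_lit 0, nat_lit 12508, nat_lit 4893, nat_lit 0, nat_lit 0, nat_lit 0, nat_lit 5903, nat_lit 149, nat_lit 0, nat_lit 0, nat_lit 0, nat_lit 0, nat_lit 0, nat_lit 0, nat_lit 0, [],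
 ⟨p005_k8, nat_lit 0, nat_lit 0, nat_lit 293, nat_lit 0, nat_lit 214699, [nat_lit 6250000000, nat_lit 7968000000], [], [nat_lit 25942012182, nat_lit 25942580128, nat_lit 25850365910, nat_lit 25530443540], nat_lit 1271250, nat_lit 1271250, nat_lit 21650, nat_lit 43600, nat_lit 0, nat_lit 0, [nat_lit 1412500, nat_lit 1271250], [nat_lit 26, nat_lit 40, nat_lit 20, nat_lit 80, nat_lit 2, nat_lit 272, nat_lit 60, nat_lit 10]⟩, ⟨p005_k11, nat_lit 0, nat_lit 0, nat_lit 0, nat_lit 0, nat_lit 0, [nat_lit 3224000000, nat_lit 7072000000, nat_lit 9230000000, nat_lit 10367500000], [], [nat_lit 20494401156, nat_lit 20565169706, nat_lit 20230530760, nat_lit 20301291769], nat_lit 0, nat_lit 0, nat_lit 0, nat_lit 0, nat_lit 0, nat_lit 0, [], [nat_lit 101, nat_lit 40, nat_lit 20, nat_lit 40]⟩,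
 zbF0, [⟨nat_lit 0, nat_lit 100, nat_lit 100, nat_lit 22, nat_lit 1333424594⟩]⟩
noncomputable def p005_l50 : Lf2 := ⟨nat_lit 0, nat_lit 1, [nat_lit 19, nat_lit 5, nat_lit 5, nat_lit 20], true, nat_lit 0, nat_lit 0, nat_lit 0, nat_lit 0, ⟨nat_lit 0, nat_lit 0, nat_lit 1000, nat_lit 5, nat_lit 43, nat_lit 0, nat_lit 0, nat_lit 0, nat_lit 0, nat_lit 215, nat_lit 18150, nat_lit 248, nat_lit 66218212, nat_lit 0, nat_lit 0, nat_lit 317519, false, false⟩,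
 nat_lit 0, nat_lit 5928, nat_lit 0, nat_lit 0, nat_lit 2865, nat_lit 0, nat_lit 350, nat_lit 0, nat_lit 0, nat_lit 0, nat_lit 0, nat_lit 0, nat_lit 0, nat_lit 18241661807429, nat_lit 21, nat_lit 1000000, nat_lit 0, nat_lit 0, [(nat_lit 3, [(nat_lit 6, nat_lit 1000)])],
 ⟨p005_k10, nat_lit 0, nat_lit 0, nat_lit 0, nat_lit 0, nat_lit 218589, [nat_lit 802533334, nat_lit 1243066667, nat_lit 12000000], [], [nat_lit 13814090591, nat_lit 13859882366, nat_lit 13692378024, nat_lit 13735379790], nat_lit 1271250, nat_lit 1271250, nat_lit 21650, nat_lit 43600, nat_lit 0, nat_lit 0, [nat_lit 631250, nat_lit 1271250, nat_lit 1271250], [nat_lit 90, nat_lit 40, nat_lit 20, nat_lit 40]⟩, C1.Rw.none,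
 ⟨nat_lit 6652, nat_lit 6671, ⟨.ofNat (nat_lit 103355), .ofNat (nat_lit 111931), .ofNat (nat_lit 104427), .ofNat (nat_lit 113003), .ofNat (nat_lit 104320), .ofNat (nat_lit 112876), .ofNat (nat_lit 105392), .ofNat (nat_lit 113948)⟩, ⟨.ofNat (nat_lit 0), .ofNat (nat_lit 0), .ofNat (nat_lit 0), .ofNat (nat_lit 0), .ofNat (nat_lit 0), .ofNat (nat_lit 0), .ofNat (nat_lit 0), .ofNat (nat_lit 0)⟩⟩, [⟨nat_lit 0, nat_lit 100, nat_lit 100, nat_lit 23, nat_lit 262158361⟩]⟩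
noncomputable def p005_l51 : Lf2 := ⟨nat_lit 0, nat_lit 1, [nat_lit 19, nat_lit 5, nat_lit 5, nat_lit 20], true, nat_lit 0, nat_lit 0, nat_lit 0, nat_lit 0, ⟨nat_lit 0, nat_lit 0, nat_lit 1000, nat_lit 5, nat_lit 43, nat_lit 0, nat_lit 0, nat_lit 0, nat_lit 0, nat_lit 215, nat_lit 18150, nat_lit 248, nat_lit 66218212, nat_lit 0, nat_lit 0, nat_lit 317519, false, false⟩,
 nat_lit 0, nat_lit 100000, nat_lit 0, nat_lit 0, nat_lit 48330, nat_lit 0, nat_lit 0, nat_lit 5115, nat_lit 0, nat_lit 0, nat_lit 0, nat_lit 0, nat_lit 0, nat_lit 154208790155235, nat_lit 0, nat_lit 1000000, nat_lit 0, nat_lit 0, [(nat_lit 3, [(nat_lit 6, nat_lit 1000)])],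
 ⟨p005_k8, nat_lit 0, nat_lit 0, nat_lit 293, nat_lit 0, nat_lit 218589, [nat_lit 103341142858, nat_lit 121499600000], [], [nat_lit 279956895449, nat_lit 278719063131, nat_lit 279351328137, nat_lit 278115171429], nat_lit 1271250, nat_lit 1271250, nat_lit 21650, nat_lit 43600, nat_lit 0, nat_lit 0, [nat_lit 1412500, nat_lit 1271250], [nat_lit 26, nat_lit 40, nat_lit 20, nat_lit 80, nat_lit 2, nat_lit 272, nat_lit 60, nat_lit 10]⟩, C1.Rw.none,
 ⟨nat_lit 6652, nat_lit 6671, ⟨.ofNat (nat_lit 103355), .ofNat (nat_lit 111931), .ofNat (nat_lit 104427), .ofNat (nat_lit 113003), .ofNat (nat_lit 104320), .ofNat (nat_lit 112876), .ofNat (nat_lit 105392), .ofNat (nat_lit 113948)⟩, ⟨.ofNat (nat_lit 0), .ofNat (nat_lit 0), .ofNat (nat_lit 0), .ofNat (nat_lit 0), .ofNat (nat_lit 0), .ofNat (nat_lit 0), .ofNat (nat_lit 0), .ofNat (nat_lit 0)⟩⟩, [⟨nat_lit 0, nat_lit 100, nat_lit 100, nat_lit 23, nat_lit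 860952442⟩]⟩
noncomputable def p005_l52 : Lf2 := ⟨nat_lit 0, nat_lit 1, [nat_lit 19, nat_lit 5, nat_lit 5, nat_lit 20], true, nat_lit 0, nat_lit 0, nat_lit 0, nat_lit 0, ⟨nat_lit 0, nat_lit 0, nat_lit 1000, nat_lit 5, nat_lit 43, nat_lit 0, nat_lit 0, nat_lit 0, nat_lit 0, nat_lit 215, nat_lit 18150, nat_lit 248, nat_lit 66218212, nat_lit 0, nat_lit 0, nat_lit 317519, false, false⟩,
 nat_lit 0, nat_lit 5928, nat_lit 0, nat_lit 0, nat_lit 2865, nat_lit 0, nat_lit 350, nat_lit 0, nat_lit 0, nat_lit 0, nat_lit 0, nat_lit 0, nat_lit 0, nat_lit 18241661807429, nat_lit 21, nat_lit 1000000, nat_lit 0, nat_lit 0, [(nat_lit 3, [(nat_lit 6, nat_lit 1000)])],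
 ⟨p005_k10, nat_lit 0, nat_lit 0, nat_lit 0, nat_lit 0, nat_lit 218589, [nat_lit 802533334, nat_lit 1243066667, nat_lit 12000000], [], [nat_lit 13814090591, nat_lit 13859882366, nat_lit 13692378024, nat_lit 13735379790], nat_lit 1271250, nat_lit 1271250, nat_lit 21650, nat_lit 43600, nat_lit 0, nat_lit 0, [nat_lit 631250, nat_lit 1271250, nat_lit 1271250], [nat_lit 90, nat_lit 40, nat_lit 20, nat_lit 40]⟩, C1.Rw.none,
 ⟨nat_lit 6652, nat_lit 6671, ⟨.ofNat (nat_lit 103355), .ofNat (nat_lit 111931), .ofNat (nat_lit 104427), .ofNat (nat_lit 113003), .ofNat (nat_lit 104320), .ofNat (nat_lit 112876), .ofNat (nat_lit 105392), .ofNat (nat_lit 113948)⟩, ⟨.ofNat (nat_lit 0), .ofNat (nat_lit 0), .ofNat (nat_lit 0), .ofNat (nat_lit 0), .ofNat (nat_lit 0), .ofNat (nat_lit 0), .ofNat (nat_lit 0), .ofNat (nat_lit 0)⟩⟩, [⟨nat_lit 0, nat_lit 100, nat_lit 100, nat_lit 23, nat_lit 262158361⟩]⟩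
noncomputable def p005_l53 : Lf2 := ⟨nat_lit 0, nat_lit 1, [nat_lit 19, nat_lit 5, nat_lit 5, nat_lit 20], true, nat_lit 0, nat_lit 0, nat_lit 0, nat_lit 0, ⟨nat_lit 0, nat_lit 0, nat_lit 1000, nat_lit 5, nat_lit 43, nat_lit 0, nat_lit 0, nat_lit 0, nat_lit 0, nat_lit 215, nat_lit 18150, nat_lit 248, nat_lit 66218212, nat_lit 0, nat_lit 0, nat_lit 317519, false, false⟩,
 nat_lit 0, nat_lit 100000, nat_lit 0, nat_lit 0, nat_lit 48330, nat_lit 0, nat_lit 0, nat_lit 5115, nat_lit 0, nat_lit 0, nat_lit 0, nat_lit 0, nat_lit 0, nat_lit 154208790155235, nat_lit 0, nat_lit 1000000, nat_lit 0, nat_lit 0, [(nat_lit 3, [(nat_lit 6, nat_lit 1000)])],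
 ⟨p005_k8, nat_lit 0, nat_lit 0, nat_lit 293, nat_lit 0, nat_lit 218589, [nat_lit 103341142858, nat_lit 121499600000], [], [nat_lit 279956895449, nat_lit 278719063131, nat_lit 279351328137, nat_lit 278115171429], nat_lit 1271250, nat_lit 1271250, nat_lit 21650, nat_lit 43600, nat_lit 0, nat_lit 0, [nat_lit 1412500, nat_lit 1271250], [nat_lit 26, nat_lit 40, nat_lit 20, nat_lit 80, nat_lit 2, nat_lit 272, nat_lit 60, nat_lit 10]⟩, C1.Rw.none,
 ⟨nat_lit 6652, nat_lit 6671, ⟨.ofNat (nat_lit 103355), .ofNat (nat_lit 111931), .ofNat (nat_lit 104427), .ofNat (nat_lit 113003), .ofNat (nat_lit 104320), .ofNat (nat_lit 112876), .ofNat (nat_lit 105392), .ofNat (nat_lit 113948)⟩, ⟨.ofNat (nat_lit 0), .ofNat (nat_lit 0), .ofNat (nat_lit 0), .ofNat (nat_lit 0), .ofNat (nat_lit 0), .ofNat (nat_lit 0), .ofNat (nat_lit 0), .ofNat (nat_lit 0)⟩⟩, [⟨nat_lit 0, nat_lit 100, nat_lit 100, nat_lit 23, nat_lit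 860952442⟩]⟩
noncomputable def p005_l54 : Lf2 := ⟨nat_lit 0, nat_lit 1, [nat_lit 19, nat_lit 5, nat_lit 5, nat_lit 20], false, nat_lit 0, nat_lit 0, nat_lit 0, nat_lit 0, ⟨nat_lit 1000, nat_lit 0, nat_lit 0, nat_lit 0, nat_lit 0, nat_lit 0, nat_lit 0, nat_lit 0, nat_lit 0, nat_lit 0, nat_lit 0, nat_lit 0, nat_lit 0, nat_lit 0, nat_lit 0, nat_lit 0, false, false⟩,
 nat_lit 0, nat_lit 25788, nat_lit 0, nat_lit 0, nat_lit 12463, nat_lit 5229, nat_lit 0, nat_lit 0, nat_lit 0, nat_lit 5881, nat_lit 188, nat_lit 0, nat_lit 0, nat_lit 14267632394146, nat_lit 0, nat_lit 0, nat_lit 0, nat_lit 0, [],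
 ⟨p005_k8, nat_lit 0, nat_lit 0, nat_lit 293, nat_lit 0, nat_lit 218589, [nat_lit 6250000000, nat_lit 7968000000], [], [nat_lit 25988816786, nat_lit 25920623122, nat_lit 25897816108, nat_lit 25579044722], nat_lit 1271250, nat_lit 1271250, nat_lit 21650, nat_lit 43600, nat_lit 0, nat_lit 0, [nat_lit 1412500, nat_lit 1271250], [nat_lit 26, nat_lit 40, nat_lit 20, nat_lit 80, nat_lit 2, nat_lit 272, nat_lit 60, nat_lit 10]⟩, ⟨p005_k12, nat_lit 0, nat_lit 0, nat_lit 0, nat_lit 0, nat_lit 0, [nat_lit 3536000000, nat_lit 7696000000, nat_lit 10010000000, nat_lit 11225500000], [], [nat_lit 21408315470, nat_lit 21483506738, nat_lit 21121750468, nat_lit 21196018953], nat_lit 0, nat_lit 0, nat_lit 0, nat_lit 0, nat_lit 0, nat_lit 0, [], [nat_lit 101, nat_lit 40, nat_lit 20, nat_lit 40]⟩,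
 zbF0, [⟨nat_lit 0, nat_lit 100, nat_lit 100, nat_lit 22, nat_lit 1359551199⟩]⟩
noncomputable def p005_l55 : Lf2 := ⟨nat_lit 0, nat_lit 2, [nat_lit 10, nat_lit 5, nat_lit 5, nat_lit 20], false, nat_lit 0, nat_lit 0, nat_lit 0, nat_lit 0, ⟨nat_lit 1000, nat_lit 0, nat_lit 0, nat_lit 0, nat_lit 0, nat_lit 0, nat_lit 0, nat_lit 0, nat_lit 0, nat_lit 0, nat_lit 0, nat_lit 0, nat_lit 0, nat_lit 0, nat_lit 0, nat_lit 0, false, false⟩,
 nat_lit 0, nat_lit 25784, nat_lit 0, nat_lit 0, nat_lit 12461, nat_lit 0, nat_lit 0, nat_lit 0, nat_lit 0, nat_lit 1621, nat_lit 0, nat_lit 477, nat_lit 0, nat_lit 10476910798820, nat_lit 0, nat_lit 0, nat_lit 0, nat_lit 0, [],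
 ⟨p005_k7, nat_lit 0, nat_lit 0, nat_lit 290, nat_lit 0, nat_lit 172705, [nat_lit 6250000000, nat_lit 7968000000], [], [nat_lit 25990896991, nat_lit 25919647255, nat_lit 25899925005, nat_lit 25581204775], nat_lit 1271250, nat_lit 1271250, nat_lit 21650, nat_lit 43600, nat_lit 0, nat_lit 0, [nat_lit 1412500, nat_lit 1271250], [nat_lit 26, nat_lit 40, nat_lit 20, nat_lit 80, nat_lit 2, nat_lit 272, nat_lit 60, nat_lit 10]⟩, ⟨p005_k1, nat_lit 0, nat_lit 0, nat_lit 0, nat_lit 0, nat_lit 0, [nat_lit 3282000000, nat_lit 6250000000, nat_lit 7968000000], [], [nat_lit 6996281650, nat_lit 7104839410, nat_lit 7041125200, nat_lit 7148990380], nat_lit 0, nat_lit 0, nat_lit 0, nat_lit 0, nat_lit 0, nat_lit 0, [], [nat_lit 18, nat_lit 40, nat_lit 20, nat_lit 80]⟩,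
 zbF0, [⟨nat_lit 0, nat_lit 100, nat_lit 100, nat_lit 22, nat_lit 945379436⟩]⟩
noncomputable def p005_l56 : Lf2 := ⟨nat_lit 0, nat_lit 2, [nat_lit 10, nat_lit 5, nat_lit 5, nat_lit 20], true, nat_lit 0, nat_lit 0, nat_lit 0, nat_lit 0, ⟨nat_lit 0, nat_lit 0, nat_lit 1000, nat_lit 5, nat_lit 43, nat_lit 0, nat_lit 0, nat_lit 0, nat_lit 0, nat_lit 215, nat_lit 17067, nat_lit 247, nat_lit 66248400, nat_lit 0, nat_lit 0, nat_lit 307460, false, false⟩,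
 nat_lit 0, nat_lit 2489, nat_lit 0, nat_lit 0, nat_lit 1202, nat_lit 0, nat_lit 0, nat_lit 0, nat_lit 177, nat_lit 0, nat_lit 0, nat_lit 0, nat_lit 0, nat_lit 0, nat_lit 31, nat_lit 400000, nat_lit 0, nat_lit 0, [(nat_lit 3, [(nat_lit 5, nat_lit 1000)])],
 ⟨p005_k13, nat_lit 0, nat_lit 0, nat_lit 0, nat_lit 0, nat_lit 164680, [nat_lit 1356666667, nat_lit 998533334, nat_lit 6400000], [], [nat_lit 7431258004, nat_lit 7475711531, nat_lit 7407650639, nat_lit 7452066854], nat_lit 1271250, nat_lit 1271250, nat_lit 21650, nat_lit 43600, nat_lit 0, nat_lit 0, [nat_lit 780000, nat_lit 1435000, nat_lit 1271250], [nat_lit 18, nat_lit 40, nat_lit 20, nat_lit 80]⟩, C1.Rw.none,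
 ⟨nat_lit 6652, nat_lit 6671, ⟨.ofNat (nat_lit 101212), .ofNat (nat_lit 109788), .ofNat (nat_lit 102284), .ofNat (nat_lit 110860), .ofNat (nat_lit 102178), .ofNat (nat_lit 110734), .ofNat (nat_lit 103249), .ofNat (nat_lit 111805)⟩, ⟨.ofNat (nat_lit 0), .ofNat (nat_lit 0), .ofNat (nat_lit 0), .ofNat (nat_lit 0), .ofNat (nat_lit 0), .ofNat (nat_lit 0), .ofNat (nat_lit 0), .ofNat (nat_lit 0)⟩⟩, [⟨nat_lit 0, nat_lit 100, nat_lit 100, nat_lit 21, nat_lit 135909731⟩]⟩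
noncomputable def p005_l57 : Lf2 := ⟨nat_lit 0, nat_lit 2, [nat_lit 10, nat_lit 5, nat_lit 5, nat_lit 20], true, nat_lit 0, nat_lit 0, nat_lit 0, nat_lit 0, ⟨nat_lit 0, nat_lit 0, nat_lit 1000, nat_lit 5, nat_lit 43, nat_lit 0, nat_lit 0, nat_lit 0, nat_lit 0, nat_lit 215, nat_lit 17067, nat_lit 247, nat_lit 66248400, nat_lit 0, nat_lit 0, nat_lit 307460, false, false⟩,
 nat_lit 0, nat_lit 10251, nat_lit 0, nat_lit 0, nat_lit 4954, nat_lit 0, nat_lit 0, nat_lit 0, nat_lit 0, nat_lit 0, nat_lit 0, nat_lit 0, nat_lit 0, nat_lit 0, nat_lit 53, nat_lit 1000000, nat_lit 0, nat_lit 0, [(nat_lit 3, [(nat_lit 6, nat_lit 1000)])],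
 ⟨p005_k13, nat_lit 0, nat_lit 0, nat_lit 0, nat_lit 0, nat_lit 164680, [nat_lit 1559200001, nat_lit 1418400001, nat_lit 13599999], [], [nat_lit 12994813544, nat_lit 13030330619, nat_lit 12996151382, nat_lit 12865580290], nat_lit 1271250, nat_lit 1271250, nat_lit 21650, nat_lit 43600, nat_lit 0, nat_lit 0, [nat_lit 780000, nat_lit 1435000, nat_lit 1271250], [nat_lit 18, nat_lit 40, nat_lit 20, nat_lit 80]⟩, C1.Rw.none,
 ⟨nat_lit 6652, nat_lit 6671, ⟨.ofNat (nat_lit 101212), .ofNat (nat_lit 109788), .ofNat (nat_lit 102284), .ofNat (nat_lit 110860), .ofNat (nat_lit 102178), .ofNat (nat_lit 110734), .ofNat (nat_lit 103249), .ofNat (nat_lit 111805)⟩, ⟨.ofNat (nat_lit 0), .ofNat (nat_lit 0), .ofNat (nat_lit 0), .ofNat (nat_lit 0), .ofNat (nat_lit 0), .ofNat (nat_lit 0), .ofNat (nat_lit 0), .ofNat (nat_lit 0)⟩⟩, [⟨nat_lit 0, nat_lit 100, nat_lit 100, nat_lit 22, nat_lit 104666307⟩]⟩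
noncomputable def p005_l58 : Lf2 := ⟨nat_lit 0, nat_lit 2, [nat_lit 10, nat_lit 5, nat_lit 5, nat_lit 20], true, nat_lit 0, nat_lit 0, nat_lit 0, nat_lit 0, ⟨nat_lit 0, nat_lit 0, nat_lit 1000, nat_lit 5, nat_lit 43, nat_lit 0, nat_lit 0, nat_lit 0, nat_lit 0, nat_lit 215, nat_lit 17067, nat_lit 247, nat_lit 66248400, nat_lit 0, nat_lit 0, nat_lit 307460, false, false⟩,
 nat_lit 0, nat_lit 100000, nat_lit 0, nat_lit 0, nat_lit 48330, nat_lit 0, nat_lit 12121, nat_lit 417, nat_lit 0, nat_lit 0, nat_lit 0, nat_lit 0, nat_lit 0, nat_lit 0, nat_lit 0, nat_lit 1000000, nat_lit 3764828571, nat_lit 0, [(nat_lit 3, [(nat_lit 6, nat_lit 1000)])],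
 ⟨p005_k7, nat_lit 0, nat_lit 0, nat_lit 0, nat_lit 0, nat_lit 164680, [nat_lit 9381142858, nat_lit 8747600000], [], [nat_lit 1841724020, nat_lit 1223359215, nat_lit 1236156708, nat_lit 0], nat_lit 1271250, nat_lit 1271250, nat_lit 21650, nat_lit 43600, nat_lit 0, nat_lit 0, [nat_lit 1412500, nat_lit 1271250], [nat_lit 26, nat_lit 40, nat_lit 20, nat_lit 80]⟩, C1.Rw.none,
 ⟨nat_lit 6652, nat_lit 6671, ⟨.ofNat (nat_lit 101212), .ofNat (nat_lit 109788), .ofNat (nat_lit 102284), .ofNat (nat_lit 110860), .ofNat (nat_lit 102178), .ofNat (nat_lit 110734), .ofNat (nat_lit 103249), .ofNat (nat_lit 111805)⟩, ⟨.ofNat (nat_lit 0), .ofNat (nat_lit 0), .ofNat (nat_lit 0), .ofNat (nat_lit 0), .ofNat (nat_lit 0), .ofNat (nat_lit 0), .ofNat (nat_lit 0), .ofNat (nat_lit 0)⟩⟩, [⟨nat_lit 0, nat_lit 100, nat_lit 100, nat_lit 22, nat_lit 863308578⟩]⟩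
noncomputable def p005_l59 : Lf2 := ⟨nat_lit 0, nat_lit 2, [nat_lit 10, nat_lit 5, nat_lit 5, nat_lit 20], true, nat_lit 0, nat_lit 0, nat_lit 0, nat_lit 0, ⟨nat_lit 0, nat_lit 0, nat_lit 1000, nat_lit 5, nat_lit 43, nat_lit 0, nat_lit 0, nat_lit 0, nat_lit 0, nat_lit 215, nat_lit 17067, nat_lit 247, nat_lit 66248400, nat_lit 0, nat_lit 0, nat_lit 307460, false, false⟩,
 nat_lit 0, nat_lit 100000, nat_lit 0, nat_lit 0, nat_lit 48330, nat_lit 0, nat_lit 0, nat_lit 979, nat_lit 0, nat_lit 0, nat_lit 0, nat_lit 0, nat_lit 0, nat_lit 0, nat_lit 0, nat_lit 1000000, nat_lit 0, nat_lit 0, [(nat_lit 3, [(nat_lit 6, nat_lit 1000)])],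
 ⟨p005_k7, nat_lit 0, nat_lit 0, nat_lit 289, nat_lit 0, nat_lit 164680, [nat_lit 20621142858, nat_lit 22235600000], [], [nat_lit 32566500523, nat_lit 32828170341, nat_lit 31191328137, nat_lit 29955215852], nat_lit 1271250, nat_lit 1271250, nat_lit 21650, nat_lit 43600, nat_lit 0, nat_lit 0, [nat_lit 1412500, nat_lit 1271250], [nat_lit 26, nat_lit 40, nat_lit 20, nat_lit 80, nat_lit 2, nat_lit 272, nat_lit 60, nat_lit 10]⟩, C1.Rw.none,
 ⟨nat_lit 6652, nat_lit 6671, ⟨.ofNat (nat_lit 101212), .ofNat (nat_lit 109788), .ofNat (nat_lit 102284), .ofNat (nat_lit 110860), .ofNat (nat_lit 102178), .ofNat (nat_lit 110734), .ofNat (nat_lit 103249), .ofNat (nat_lit 111805)⟩, ⟨.ofNat (nat_lit 0), .ofNat (nat_lit 0), .ofNat (nat_lit 0), .ofNat (nat_lit 0), .ofNat (nat_lit 0), .ofNat (nat_lit 0), .ofNat (nat_lit 0), .ofNat (nat_lit 0)⟩⟩, []⟩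
noncomputable def p005_l60 : Lf2 := ⟨nat_lit 0, nat_lit 2, [nat_lit 10, nat_lit 5, nat_lit 5, nat_lit 20], true, nat_lit 0, nat_lit 0, nat_lit 0, nat_lit 0, ⟨nat_lit 0, nat_lit 0, nat_lit 1000, nat_lit 5, nat_lit 43, nat_lit 0, nat_lit 0, nat_lit 0, nat_lit 0, nat_lit 215, nat_lit 17067, nat_lit 247, nat_lit 66233380, nat_lit 0, nat_lit 0, nat_lit 312477, false, false⟩,
 nat_lit 0, nat_lit 2489, nat_lit 0, nat_lit 0, nat_lit 1202, nat_lit 0, nat_lit 0, nat_lit 0, nat_lit 177, nat_lit 0, nat_lit 0, nat_lit 0, nat_lit 0, nat_lit 0, nat_lit 31, nat_lit 400000, nat_lit 0, nat_lit 0, [(nat_lit 3, [(nat_lit 5, nat_lit 1000)])],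
 ⟨p005_k13, nat_lit 0, nat_lit 0, nat_lit 0, nat_lit 0, nat_lit 168693, [nat_lit 1356666667, nat_lit 998533334, nat_lit 6400000], [], [nat_lit 7431258004, nat_lit 7475711531, nat_lit 7407650639, nat_lit 7452066854], nat_lit 1271250, nat_lit 1271250, nat_lit 21650, nat_lit 43600, nat_lit 0, nat_lit 0, [nat_lit 780000, nat_lit 1435000, nat_lit 1271250], [nat_lit 18, nat_lit 40, nat_lit 20, nat_lit 80]⟩, C1.Rw.none,
 ⟨nat_lit 6652, nat_lit 6671, ⟨.ofNat (nat_lit 102284), .ofNat (nat_lit 110860), .ofNat (nat_lit 103355), .ofNat (nat_lit 111931), .ofNat (nat_lit 103249), .ofNat (nat_lit 111805), .ofNat (nat_lit 104320), .ofNat (nat_lit 112876)⟩, ⟨.ofNat (nat_lit 0), .ofNat (nat_lit 0), .ofNat (nat_lit 0), .ofNat (nat_lit 0), .ofNat (nat_lit 0), .ofNat (nat_lit 0), .ofNat (nat_lit 0), .ofNat (nat_lit 0)⟩⟩, [⟨nat_lit 0, nat_lit 100, nat_lit 100, nat_lit 22, nat_lit 135909731⟩]⟩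
noncomputable def p005_l61 : Lf2 := ⟨nat_lit 0, nat_lit 2, [nat_lit 10, nat_lit 5, nat_lit 5, nat_lit 20], true, nat_lit 0, nat_lit 0, nat_lit 0, nat_lit 0, ⟨nat_lit 0, nat_lit 0, nat_lit 1000, nat_lit 5, nat_lit 43, nat_lit 0, nat_lit 0, nat_lit 0, nat_lit 0, nat_lit 215, nat_lit 17067, nat_lit 247, nat_lit 66233380, nat_lit 0, nat_lit 0, nat_lit 312477, false, false⟩,
 nat_lit 0, nat_lit 10250, nat_lit 0, nat_lit 0, nat_lit 4953, nat_lit 0, nat_lit 0, nat_lit 0, nat_lit 0, nat_lit 0, nat_lit 0, nat_lit 0, nat_lit 0, nat_lit 0, nat_lit 53, nat_lit 1000000, nat_lit 0, nat_lit 0, [(nat_lit 3, [(nat_lit 6, nat_lit 1000)])],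
 ⟨p005_k13, nat_lit 0, nat_lit 0, nat_lit 0, nat_lit 0, nat_lit 168693, [nat_lit 1559200001, nat_lit 1418400001, nat_lit 13599999], [], [nat_lit 12996124969, nat_lit 13029842686, nat_lit 12997480260, nat_lit 12866935525], nat_lit 1271250, nat_lit 1271250, nat_lit 21650, nat_lit 43600, nat_lit 0, nat_lit 0, [nat_lit 780000, nat_lit 1435000, nat_lit 1271250], [nat_lit 18, nat_lit 40, nat_lit 20, nat_lit 80]⟩, C1.Rw.none,
 ⟨nat_lit 6652, nat_lit 6671, ⟨.ofNat (nat_lit 102284), .ofNat (nat_lit 110860), .ofNat (nat_lit 103355), .ofNat (nat_lit 111931), .ofNat (nat_lit 103249), .ofNat (nat_lit 111805), .ofNat (nat_lit 104320), .ofNat (nat_lit 112876)⟩, ⟨.ofNat (nat_lit 0), .ofNat (nat_lit 0), .ofNat (nat_lit 0), .ofNat (nat_lit 0), .ofNat (nat_lit 0), .ofNat (nat_lit 0), .ofNat (nat_lit 0), .ofNat (nat_lit 0)⟩⟩, [⟨nat_lit 0, nat_lit 100, nat_lit 100, nat_lit 22, nat_lit 104659645⟩]⟩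
noncomputable def p005_l62 : Lf2 := ⟨nat_lit 0, nat_lit 2, [nat_lit 10, nat_lit 5, nat_lit 5, nat_lit 20], true, nat_lit 0, nat_lit 0, nat_lit 0, nat_lit 0, ⟨nat_lit 0, nat_lit 0, nat_lit 1000, nat_lit 5, nat_lit 43, nat_lit 0, nat_lit 0, nat_lit 0, nat_lit 0, nat_lit 215, nat_lit 17067, nat_lit 247, nat_lit 66233380, nat_lit 0, nat_lit 0, nat_lit 312477, false, false⟩,
 nat_lit 0, nat_lit 100000, nat_lit 0, nat_lit 0, nat_lit 48330, nat_lit 0, nat_lit 11577, nat_lit 298, nat_lit 0, nat_lit 0, nat_lit 0, nat_lit 0, nat_lit 0, nat_lit 0, nat_lit 0, nat_lit 1000000, nat_lit 10174837273, nat_lit 0, [(nat_lit 3, [(nat_lit 6, nat_lit 1000)])],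
 ⟨p005_k7, nat_lit 0, nat_lit 0, nat_lit 0, nat_lit 0, nat_lit 168693, [nat_lit 7001142858, nat_lit 5891600000], [], [nat_lit 2611284671, nat_lit 2873367917, nat_lit 506165410, nat_lit 0], nat_lit 1271250, nat_lit 1271250, nat_lit 21650, nat_lit 43600, nat_lit 0, nat_lit 0, [nat_lit 1412500, nat_lit 1271250], [nat_lit 26, nat_lit 40, nat_lit 20, nat_lit 80]⟩, C1.Rw.none,
 ⟨nat_lit 6652, nat_lit 6671, ⟨.ofNat (nat_lit 102284), .ofNat (nat_lit 110860), .ofNat (nat_lit 103355), .ofNat (nat_lit 111931), .ofNat (nat_lit 103249), .ofNat (nat_lit 111805), .ofNat (nat_lit 104320), .ofNat (nat_lit 112876)⟩, ⟨.ofNat (nat_lit 0), .ofNat (nat_lit 0), .ofNat (nat_lit 0), .ofNat (nat_lit 0), .ofNat (nat_lit 0), .ofNat (nat_lit 0), .ofNat (nat_lit 0), .ofNat (nat_lit 0)⟩⟩, [⟨nat_lit 0, nat_lit 100, nat_lit 100, nat_lit 22, nat_lit 3697091307⟩]⟩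
noncomputable def p005_l63 : Lf2 := ⟨nat_lit 0, nat_lit 2, [nat_lit 10, nat_lit 5, nat_lit 5, nat_lit 20], true, nat_lit 0, nat_lit 0, nat_lit 0, nat_lit 0, ⟨nat_lit 0, nat_lit 0, nat_lit 1000, nat_lit 5, nat_lit 43, nat_lit 0, nat_lit 0, nat_lit 0, nat_lit 0, nat_lit 215, nat_lit 17067, nat_lit 247, nat_lit 66233380, nat_lit 0, nat_lit 0, nat_lit 312477, false, false⟩,
 nat_lit 0, nat_lit 100000, nat_lit 0, nat_lit 0, nat_lit 48330, nat_lit 0, nat_lit 0, nat_lit 1085, nat_lit 0, nat_lit 0, nat_lit 0, nat_lit 0, nat_lit 0, nat_lit 0, nat_lit 0, nat_lit 1000000, nat_lit 0, nat_lit 0, [(nat_lit 3, [(nat_lit 6, nat_lit 1000)])],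
 ⟨p005_k7, nat_lit 0, nat_lit 0, nat_lit 289, nat_lit 0, nat_lit 168693, [nat_lit 22741142858, nat_lit 24779600000], [], [nat_lit 38156895449, nat_lit 37492170341, nat_lit 37551328137, nat_lit 36315171429], nat_lit 1271250, nat_lit 1271250, nat_lit 21650, nat_lit 43600, nat_lit 0, nat_lit 0, [nat_lit 1412500, nat_lit 1271250], [nat_lit 26, nat_lit 40, nat_lit 20, nat_lit 80, nat_lit 2, nat_lit 272, nat_lit 60, nat_lit 10]⟩, C1.Rw.none,
 ⟨nat_lit 6652, nat_lit 6671, ⟨.ofNat (nat_lit 102284), .ofNat (nat_lit 110860), .ofNat (nat_lit 103355), .ofNat (nat_lit 111931), .ofNat (nat_lit 103249), .ofNat (nat_lit 111805), .ofNat (nat_lit 104320), .ofNat (nat_lit 112876)⟩, ⟨.ofNat (nat_lit 0), .ofNat (nat_lit 0), .ofNat (nat_lit 0), .ofNat (nat_lit 0), .ofNat (nat_lit 0), .ofNat (nat_lit 0), .ofNat (nat_lit 0), .ofNat (nat_lit 0)⟩⟩, [⟨nat_lit 13, nat_lit 100, nat_lit 1, nat_lit 100, nat_lit 20766128⟩]⟩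
noncomputable def p005_l64 : Lf2 := ⟨nat_lit 0, nat_lit 2, [nat_lit 10, nat_lit 5, nat_lit 5, nat_lit 20], true, nat_lit 0, nat_lit 0, nat_lit 0, nat_lit 0, ⟨nat_lit 0, nat_lit 0, nat_lit 1000, nat_lit 5, nat_lit 43, nat_lit 0, nat_lit 0, nat_lit 0, nat_lit 0, nat_lit 215, nat_lit 18150, nat_lit 248, nat_lit 66218212, nat_lit 0, nat_lit 0, nat_lit 317519, false, false⟩,
 nat_lit 0, nat_lit 2496, nat_lit 0, nat_lit 0, nat_lit 1206, nat_lit 0, nat_lit 0, nat_lit 0, nat_lit 177, nat_lit 0, nat_lit 0, nat_lit 0, nat_lit 0, nat_lit 10713232257193, nat_lit 31, nat_lit 400000, nat_lit 0, nat_lit 0, [(nat_lit 3, [(nat_lit 5, nat_lit 1000)])],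
 ⟨p005_k13, nat_lit 0, nat_lit 0, nat_lit 0, nat_lit 0, nat_lit 172705, [nat_lit 1356666667, nat_lit 998533334, nat_lit 6400000], [], [nat_lit 7430145824, nat_lit 7475721342, nat_lit 7403869753, nat_lit 7448314838], nat_lit 1271250, nat_lit 1271250, nat_lit 21650, nat_lit 43600, nat_lit 0, nat_lit 0, [nat_lit 780000, nat_lit 1435000, nat_lit 1271250], [nat_lit 18, nat_lit 40, nat_lit 20, nat_lit 80]⟩, C1.Rw.none,
 ⟨nat_lit 6652, nat_lit 6671, ⟨.ofNat (nat_lit 103355), .ofNat (nat_lit 111931), .ofNat (nat_lit 104427), .ofNat (nat_lit 113003), .ofNat (nat_lit 104320), .ofNat (nat_lit 112876), .ofNat (nat_lit 105392), .ofNat (nat_lit 113948)⟩, ⟨.ofNat (nat_lit 0), .ofNat (nat_lit 0), .ofNat (nat_lit 0), .ofNat (nat_lit 0), .ofNat (nat_lit 0), .ofNat (nat_lit 0), .ofNat (nat_lit 0), .ofNat (nat_lit 0)⟩⟩, [⟨nat_lit 0, nat_lit 100, nat_lit 100, nat_lit 23, nat_lit 136148488⟩]⟩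
noncomputable def p005_l65 : Lf2 := ⟨nat_lit 0, nat_lit 2, [nat_lit 10, nat_lit 5, nat_lit 5, nat_lit 20], true, nat_lit 0, nat_lit 0, nat_lit 0, nat_lit 0, ⟨nat_lit 0, nat_lit 0, nat_lit 1000, nat_lit 5, nat_lit 43, nat_lit 0, nat_lit 0, nat_lit 0, nat_lit 0, nat_lit 215, nat_lit 18150, nat_lit 248, nat_lit 66218212, nat_lit 0, nat_lit 0, nat_lit 317519, false, false⟩,
 nat_lit 0, nat_lit 10099, nat_lit 0, nat_lit 0, nat_lit 4880, nat_lit 0, nat_lit 0, nat_lit 0, nat_lit 0, nat_lit 0, nat_lit 0, nat_lit 0, nat_lit 0, nat_lit 26590150741283, nat_lit 53, nat_lit 1000000, nat_lit 0, nat_lit 0, [(nat_lit 3, [(nat_lit 6, nat_lit 1000)])],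
 ⟨p005_k13, nat_lit 0, nat_lit 0, nat_lit 0, nat_lit 0, nat_lit 172705, [nat_lit 1559200001, nat_lit 1418400001, nat_lit 13599999], [], [nat_lit 13091858979, nat_lit 12994223542, nat_lit 13094488339, nat_lit 12965867643], nat_lit 1271250, nat_lit 1271250, nat_lit 21650, nat_lit 43600, nat_lit 0, nat_lit 0, [nat_lit 780000, nat_lit 1435000, nat_lit 1271250], [nat_lit 18, nat_lit 40, nat_lit 20, nat_lit 80]⟩, C1.Rw.none,
 ⟨nat_lit 6652, nat_lit 6671, ⟨.ofNat (nat_lit 103355), .ofNat (nat_lit 111931), .ofNat (nat_lit 104427), .ofNat (nat_lit 113003), .ofNat (nat_lit 104320), .ofNat (nat_lit 112876), .ofNat (nat_lit 105392), .ofNat (nat_lit 113948)⟩, ⟨.ofNat (nat_lit 0), .ofNat (nat_lit 0), .ofNat (nat_lit 0), .ofNat (nat_lit 0), .ofNat (nat_lit 0), .ofNat (nat_lit 0), .ofNat (nat_lit 0), .ofNat (nat_lit 0)⟩⟩, [⟨nat_lit 0, nat_lit 100, nat_lit 100, nat_lit 22, nat_lit 103490669⟩]⟩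
noncomputable def p005_l66 : Lf2 := ⟨nat_lit 0, nat_lit 2, [nat_lit 10, nat_lit 5, nat_lit 5, nat_lit 20], true, nat_lit 0, nat_lit 0, nat_lit 0, nat_lit 0, ⟨nat_lit 0, nat_lit 0, nat_lit 1000, nat_lit 5, nat_lit 43, nat_lit 0, nat_lit 0, nat_lit 0, nat_lit 0, nat_lit 215, nat_lit 18150, nat_lit 248, nat_lit 66218212, nat_lit 0, nat_lit 0, nat_lit 317519, false, false⟩,
 nat_lit 0, nat_lit 100000, nat_lit 0, nat_lit 0, nat_lit 48330, nat_lit 0, nat_lit 11726, nat_lit 331, nat_lit 0, nat_lit 0, nat_lit 0, nat_lit 0, nat_lit 0, nat_lit 132867681191542, nat_lit 0, nat_lit 1000000, nat_lit 8853677898, nat_lit 0, [(nat_lit 3, [(nat_lit 6, nat_lit 1000)])],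
 ⟨p005_k7, nat_lit 0, nat_lit 0, nat_lit 0, nat_lit 0, nat_lit 172705, [nat_lit 7661142858, nat_lit 6683600000], [], [nat_lit 2611284671, nat_lit 2872954489, nat_lit 1165006035, nat_lit 0], nat_lit 1271250, nat_lit 1271250, nat_lit 21650, nat_lit 43600, nat_lit 0, nat_lit 0, [nat_lit 1412500, nat_lit 1271250], [nat_lit 26, nat_lit 40, nat_lit 20, nat_lit 80]⟩, C1.Rw.none,
 ⟨nat_lit 6652, nat_lit 6671, ⟨.ofNat (nat_lit 103355), .ofNat (nat_lit 111931), .ofNat (nat_lit 104427), .ofNat (nat_lit 113003), .ofNat (nat_lit 104320), .ofNat (nat_lit 112876), .ofNat (nat_lit 105392), .ofNat (nat_lit 113948)⟩, ⟨.ofNat (nat_lit 0), .ofNat (nat_lit 0), .ofNat (nat_lit 0), .ofNat (nat_lit 0), .ofNat (nat_lit 0), .ofNat (nat_lit 0), .ofNat (nat_lit 0), .ofNat (nat_lit 0)⟩⟩, [⟨nat_lit 0, nat_lit 100, nat_lit 100, nat_lit 23, nat_lit 3697519107⟩]⟩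
noncomputable def p005_l67 : Lf2 := ⟨nat_lit 0, nat_lit 2, [nat_lit 10, nat_lit 5, nat_lit 5, nat_lit 20], true, nat_lit 0, nat_lit 0, nat_lit 0, nat_lit 0, ⟨nat_lit 0, nat_lit 0, nat_lit 1000, nat_lit 5, nat_lit 43, nat_lit 0, nat_lit 0, nat_lit 0, nat_lit 0, nat_lit 215, nat_lit 18150, nat_lit 248, nat_lit 66218212, nat_lit 0, nat_lit 0, nat_lit 317519, false, false⟩,
 nat_lit 0, nat_lit 100000, nat_lit 0, nat_lit 0, nat_lit 48330, nat_lit 0, nat_lit 0, nat_lit 1108, nat_lit 0, nat_lit 0, nat_lit 0, nat_lit 0, nat_lit 0, nat_lit 400000000000000, nat_lit 0, nat_lit 1000000, nat_lit 0, nat_lit 0, [(nat_lit 3, [(nat_lit 6, nat_lit 1000)])],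
 ⟨p005_k7, nat_lit 0, nat_lit 0, nat_lit 290, nat_lit 0, nat_lit 172705, [nat_lit 23201142858, nat_lit 25331600000], [], [nat_lit 39536895449, nat_lit 38504170341, nat_lit 38931328137, nat_lit 37695171429], nat_lit 1271250, nat_lit 1271250, nat_lit 21650, nat_lit 43600, nat_lit 0, nat_lit 0, [nat_lit 1412500, nat_lit 1271250], [nat_lit 26, nat_lit 40, nat_lit 20, nat_lit 80, nat_lit 2, nat_lit 272, nat_lit 60, nat_lit 10]⟩, C1.Rw.none,
 ⟨nat_lit 6652, nat_lit 6671, ⟨.ofNat (nat_lit 103355), .ofNat (nat_lit 111931), .ofNat (nat_lit 104427), .ofNat (nat_lit 113003), .ofNat (nat_lit 104320), .ofNat (nat_lit 112876), .ofNat (nat_lit 105392), .ofNat (nat_lit 113948)⟩, ⟨.ofNat (nat_lit 0), .ofNat (nat_lit 0), .ofNat (nat_lit 0), .ofNat (nat_lit 0), .ofNat (nat_lit 0), .ofNat (nat_lit 0), .ofNat (nat_lit 0), .ofNat (nat_lit 0)⟩⟩, []⟩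
noncomputable def p005_l68 : Lf2 := ⟨nat_lit 0, nat_lit 1, [nat_lit 19, nat_lit 5, nat_lit 5, nat_lit 20], false, nat_lit 0, nat_lit 0, nat_lit 0, nat_lit 0, ⟨nat_lit 1000, nat_lit 0, nat_lit 0, nat_lit 0, nat_lit 0, nat_lit 0, nat_lit 0, nat_lit 0, nat_lit 0, nat_lit 0, nat_lit 0, nat_lit 0, nat_lit 0, nat_lit 0, nat_lit 0, nat_lit 0, false, false⟩,
 nat_lit 0, nat_lit 25814, nat_lit 0, nat_lit 0, nat_lit 12476, nat_lit 71751, nat_lit 0, nat_lit 0, nat_lit 0, nat_lit 60000, nat_lit 5961, nat_lit 0, nat_lit 0, nat_lit 55998117347117, nat_lit 0, nat_lit 0, nat_lit 0, nat_lit 0, [],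
 ⟨p005_k8, nat_lit 0, nat_lit 0, nat_lit 293, nat_lit 0, nat_lit 218589, [nat_lit 6250000000, nat_lit 7968000000], [], [nat_lit 25975295456, nat_lit 25926966257, nat_lit 25884108273, nat_lit 25565004381], nat_lit 1271250, nat_lit 1271250, nat_lit 21650, nat_lit 43600, nat_lit 0, nat_lit 0, [nat_lit 1412500, nat_lit 1271250], [nat_lit 26, nat_lit 40, nat_lit 20, nat_lit 80, nat_lit 2, nat_lit 272, nat_lit 60, nat_lit 10]⟩, ⟨p005_k14, nat_lit 0, nat_lit 0, nat_lit 0, nat_lit 0, nat_lit 0, [nat_lit 74814000000, nat_lit 125470000000, nat_lit 151032000000], [], [nat_lit 148747466773, nat_lit 150290255180, nat_lit 144200818844, nat_lit 145861629712], nat_lit 0, nat_lit 0, nat_lit 0, nat_lit 0, nat_lit 0, nat_lit 0, [], [nat_lit 18, nat_lit 40, nat_lit 20, nat_lit 80]⟩,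
 zbF0, [⟨nat_lit 0, nat_lit 100, nat_lit 100, nat_lit 22, nat_lit 6536710661⟩]⟩
noncomputable def p005_l69 : Lf2 := ⟨nat_lit 0, nat_lit 2, [nat_lit 10, nat_lit 5, nat_lit 5, nat_lit 20], true, nat_lit 0, nat_lit 0, nat_lit 0, nat_lit 0, ⟨nat_lit 0, nat_lit 0, nat_lit 1000, nat_lit 5, nat_lit 43, nat_lit 0, nat_lit 0, nat_lit 0, nat_lit 0, nat_lit 215, nat_lit 17067, nat_lit 247, nat_lit 66248400, nat_lit 0, nat_lit 0, nat_lit 307460, false, false⟩,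
 nat_lit 0, nat_lit 2489, nat_lit 0, nat_lit 0, nat_lit 1202, nat_lit 0, nat_lit 0, nat_lit 0, nat_lit 177, nat_lit 0, nat_lit 0, nat_lit 0, nat_lit 0, nat_lit 0, nat_lit 31, nat_lit 400000, nat_lit 0, nat_lit 0, [(nat_lit 3, [(nat_lit 5, nat_lit 1000)])],
 ⟨p005_k13, nat_lit 0, nat_lit 0, nat_lit 0, nat_lit 0, nat_lit 164680, [nat_lit 1356666667, nat_lit 998533334, nat_lit 6400000], [], [nat_lit 7431258004, nat_lit 7475711531, nat_lit 7407650639, nat_lit 7452066854], nat_lit 1271250, nat_lit 1271250, nat_lit 21650, nat_lit 43600, nat_lit 0, nat_lit 0, [nat_lit 780000, nat_lit 1435000, nat_lit 1271250], [nat_lit 18, nat_lit 40, nat_lit 20, nat_lit 80]⟩, C1.Rw.none,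
 ⟨nat_lit 6652, nat_lit 6671, ⟨.ofNat (nat_lit 101212), .ofNat (nat_lit 109788), .ofNat (nat_lit 102284), .ofNat (nat_lit 110860), .ofNat (nat_lit 102178), .ofNat (nat_lit 110734), .ofNat (nat_lit 103249), .ofNat (nat_lit 111805)⟩, ⟨.ofNat (nat_lit 0), .ofNat (nat_lit 0), .ofNat (nat_lit 0), .ofNat (nat_lit 0), .ofNat (nat_lit 0), .ofNat (nat_lit 0), .ofNat (nat_lit 0), .ofNat (nat_lit 0)⟩⟩, [⟨nat_lit 0, nat_lit 100, nat_lit 100, nat_lit 21, nat_lit 135909731⟩]⟩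
noncomputable def p005_l70 : Lf2 := ⟨nat_lit 0, nat_lit 2, [nat_lit 10, nat_lit 5, nat_lit 5, nat_lit 20], true, nat_lit 0, nat_lit 0, nat_lit 0, nat_lit 0, ⟨nat_lit 0, nat_lit 0, nat_lit 1000, nat_lit 5, nat_lit 43, nat_lit 0, nat_lit 0, nat_lit 0, nat_lit 0, nat_lit 215, nat_lit 17067, nat_lit 247, nat_lit 66248400, nat_lit 0, nat_lit 0, nat_lit 307460, false, false⟩,
 nat_lit 0, nat_lit 10251, nat_lit 0, nat_lit 0, nat_lit 4954, nat_lit 0, nat_lit 0, nat_lit 0, nat_lit 0, nat_lit 0, nat_lit 0, nat_lit 0, nat_lit 0, nat_lit 0, nat_lit 53, nat_lit 1000000, nat_lit 0, nat_lit 0, [(nat_lit 3, [(nat_lit 6, nat_lit 1000)])],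
 ⟨p005_k13, nat_lit 0, nat_lit 0, nat_lit 0, nat_lit 0, nat_lit 164680, [nat_lit 1559200001, nat_lit 1418400001, nat_lit 13599999], [], [nat_lit 12994813544, nat_lit 13030330619, nat_lit 12996151382, nat_lit 12865580290], nat_lit 1271250, nat_lit 1271250, nat_lit 21650, nat_lit 43600, nat_lit 0, nat_lit 0, [nat_lit 780000, nat_lit 1435000, nat_lit 1271250], [nat_lit 18, nat_lit 40, nat_lit 20, nat_lit 80]⟩, C1.Rw.none,
 ⟨nat_lit 6652, nat_lit 6671, ⟨.ofNat (nat_lit 101212), .ofNat (nat_lit 109788), .ofNat (nat_lit 102284), .ofNat (nat_lit 110860), .ofNat (nat_lit 102178), .ofNat (nat_lit 110734), .ofNat (nat_lit 103249), .ofNat (nat_lit 111805)⟩, ⟨.ofNat (nat_lit 0), .ofNat (nat_lit 0), .ofNat (nat_lit 0), .ofNat (nat_lit 0), .ofNat (nat_lit 0), .ofNat (nat_lit 0), .ofNat (nat_lit 0), .ofNat (nat_lit 0)⟩⟩, [⟨nat_lit 0, nat_lit 100, nat_lit 100, nat_lit 22, nat_lit 104666307⟩]⟩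
noncomputable def p005_l71 : Lf2 := ⟨nat_lit 0, nat_lit 2, [nat_lit 10, nat_lit 5, nat_lit 5, nat_lit 20], true, nat_lit 0, nat_lit 0, nat_lit 0, nat_lit 0, ⟨nat_lit 0, nat_lit 0, nat_lit 1000, nat_lit 5, nat_lit 43, nat_lit 0, nat_lit 0, nat_lit 0, nat_lit 0, nat_lit 215, nat_lit 17067, nat_lit 247, nat_lit 66248400, nat_lit 0, nat_lit 0, nat_lit 307460, false, false⟩,
 nat_lit 0, nat_lit 100000, nat_lit 0, nat_lit 0, nat_lit 48330, nat_lit 0, nat_lit 12121, nat_lit 417, nat_lit 0, nat_lit 0, nat_lit 0, nat_lit 0, nat_lit 0, nat_lit 0, nat_lit 0, nat_lit 1000000, nat_lit 3764828571, nat_lit 0, [(nat_lit 3, [(nat_lit 6, nat_lit 1000)])],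
 ⟨p005_k7, nat_lit 0, nat_lit 0, nat_lit 0, nat_lit 0, nat_lit 164680, [nat_lit 9381142858, nat_lit 8747600000], [], [nat_lit 1841724020, nat_lit 1223359215, nat_lit 1236156708, nat_lit 0], nat_lit 1271250, nat_lit 1271250, nat_lit 21650, nat_lit 43600, nat_lit 0, nat_lit 0, [nat_lit 1412500, nat_lit 1271250], [nat_lit 26, nat_lit 40, nat_lit 20, nat_lit 80]⟩, C1.Rw.none,
 ⟨nat_lit 6652, nat_lit 6671, ⟨.ofNat (nat_lit 101212), .ofNat (nat_lit 109788), .ofNat (nat_lit 102284), .ofNat (nat_lit 110860), .ofNat (nat_lit 102178), .ofNat (nat_lit 110734), .ofNat (nat_lit 103249), .ofNat (nat_lit 111805)⟩, ⟨.ofNat (nat_lit 0), .ofNat (nat_lit 0), .ofNat (nat_lit 0), .ofNat (nat_lit 0), .ofNat (nat_lit 0), .ofNat (nat_lit 0), .ofNat (nat_lit 0), .ofNat (nat_lit 0)⟩⟩, [⟨nat_lit 0, nat_lit 100, nat_lit 100, nat_lit 22, nat_lit 863308578⟩]⟩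
noncomputable def p005_l72 : Lf2 := ⟨nat_lit 0, nat_lit 2, [nat_lit 10, nat_lit 5, nat_lit 5, nat_lit 20], true, nat_lit 0, nat_lit 0, nat_lit 0, nat_lit 0, ⟨nat_lit 0, nat_lit 0, nat_lit 1000, nat_lit 5, nat_lit 43, nat_lit 0, nat_lit 0, nat_lit 0, nat_lit 0, nat_lit 215, nat_lit 17067, nat_lit 247, nat_lit 66248400, nat_lit 0, nat_lit 0, nat_lit 307460, false, false⟩,
 nat_lit 0, nat_lit 100000, nat_lit 0, nat_lit 0, nat_lit 48330, nat_lit 0, nat_lit 0, nat_lit 979, nat_lit 0, nat_lit 0, nat_lit 0, nat_lit 0, nat_lit 0, nat_lit 0, nat_lit 0, nat_lit 1000000, nat_lit 0, nat_lit 0, [(nat_lit 3, [(nat_lit 6, nat_lit 1000)])],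
 ⟨p005_k7, nat_lit 0, nat_lit 0, nat_lit 289, nat_lit 0, nat_lit 164680, [nat_lit 20621142858, nat_lit 22235600000], [], [nat_lit 32566500523, nat_lit 32828170341, nat_lit 31191328137, nat_lit 29955215852], nat_lit 1271250, nat_lit 1271250, nat_lit 21650, nat_lit 43600, nat_lit 0, nat_lit 0, [nat_lit 1412500, nat_lit 1271250], [nat_lit 26, nat_lit 40, nat_lit 20, nat_lit 80, nat_lit 2, nat_lit 272, nat_lit 60, nat_lit 10]⟩, C1.Rw.none,
 ⟨nat_lit 6652, nat_lit 6671, ⟨.ofNat (nat_lit 101212), .ofNat (nat_lit 109788), .ofNat (nat_lit 102284), .ofNat (nat_lit 110860), .ofNat (nat_lit 102178), .ofNat (nat_lit 110734), .ofNat (nat_lit 103249), .ofNat (nat_lit 111805)⟩, ⟨.ofNat (nat_lit 0), .ofNat (nat_lit 0), .ofNat (nat_lit 0), .ofNat (nat_lit 0), .ofNat (nat_lit 0), .ofNat (nat_lit 0), .ofNat (nat_lit 0), .ofNat (nat_lit 0)⟩⟩, []⟩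
noncomputable def p005_l73 : Lf2 := ⟨nat_lit 0, nat_lit 2, [nat_lit 10, nat_lit 5, nat_lit 5, nat_lit 20], false, nat_lit 0, nat_lit 0, nat_lit 0, nat_lit 0, ⟨nat_lit 1000, nat_lit 0, nat_lit 0, nat_lit 0, nat_lit 0, nat_lit 0, nat_lit 0, nat_lit 0, nat_lit 0, nat_lit 0, nat_lit 0, nat_lit 0, nat_lit 0, nat_lit 0, nat_lit 0, nat_lit 0, false, false⟩,
 nat_lit 0, nat_lit 26042, nat_lit 0, nat_lit 0, nat_lit 12586, nat_lit 100000, nat_lit 0, nat_lit 0, nat_lit 0, nat_lit 44275, nat_lit 11431, nat_lit 0, nat_lit 0, nat_lit 0, nat_lit 0, nat_lit 0, nat_lit 0, nat_lit 0, [],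
 ⟨p005_k7, nat_lit 0, nat_lit 0, nat_lit 289, nat_lit 0, nat_lit 164680, [nat_lit 6250000000, nat_lit 7968000000], [], [nat_lit 25860884201, nat_lit 25980638940, nat_lit 25768118900, nat_lit 25446201492], nat_lit 1271250, nat_lit 1271250, nat_lit 21650, nat_lit 43600, nat_lit 0, nat_lit 0, [nat_lit 1412500, nat_lit 1271250], [nat_lit 26, nat_lit 40, nat_lit 20, nat_lit 80, nat_lit 2, nat_lit 272, nat_lit 60, nat_lit 10]⟩, ⟨p005_k3, nat_lit 0, nat_lit 0, nat_lit 0, nat_lit 0, nat_lit 0, [nat_lit 93480000000, nat_lit 211207500000, nat_lit 258571500000, nat_lit 282312000000], [], [nat_lit 301042371601, nat_lit 301728671621, nat_lit 294675267200, nat_lit 295362286240], nat_lit 0, nat_lit 0, nat_lit 0, nat_lit 0, nat_lit 0, nat_lit 0, [], [nat_lit 225, nat_lit 40, nat_lit 20, nat_lit 40]⟩,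
 zbF0, [⟨nat_lit 0, nat_lit 100, nat_lit 100, nat_lit 22, nat_lit 8964814877⟩]⟩
noncomputable def p005_l74 : Lf2 := ⟨nat_lit 0, nat_lit 2, [nat_lit 10, nat_lit 5, nat_lit 5, nat_lit 20], true, nat_lit 0, nat_lit 0, nat_lit 0, nat_lit 0, ⟨nat_lit 0, nat_lit 0, nat_lit 1000, nat_lit 5, nat_lit 43, nat_lit 0, nat_lit 0, nat_lit 0, nat_lit 0, nat_lit 215, nat_lit 17067, nat_lit 247, nat_lit 66233380, nat_lit 0, nat_lit 0, nat_lit 312477, false, false⟩,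
 nat_lit 0, nat_lit 2489, nat_lit 0, nat_lit 0, nat_lit 1202, nat_lit 0, nat_lit 0, nat_lit 0, nat_lit 177, nat_lit 0, nat_lit 0, nat_lit 0, nat_lit 0, nat_lit 0, nat_lit 31, nat_lit 400000, nat_lit 0, nat_lit 0, [(nat_lit 3, [(nat_lit 5, nat_lit 1000)])],
 ⟨p005_k13, nat_lit 0, nat_lit 0, nat_lit 0, nat_lit 0, nat_lit 168693, [nat_lit 1356666667, nat_lit 998533334, nat_lit 6400000], [], [nat_lit 7431258004, nat_lit 7475711531, nat_lit 7407650639, nat_lit 7452066854], nat_lit 1271250, nat_lit 1271250, nat_lit 21650, nat_lit 43600, nat_lit 0, nat_lit 0, [nat_lit 780000, nat_lit 1435000, nat_lit 1271250], [nat_lit 18, nat_lit 40, nat_lit 20, nat_lit 80]⟩, C1.Rw.none,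
 ⟨nat_lit 6652, nat_lit 6671, ⟨.ofNat (nat_lit 102284), .ofNat (nat_lit 110860), .ofNat (nat_lit 103355), .ofNat (nat_lit 111931), .ofNat (nat_lit 103249), .ofNat (nat_lit 111805), .ofNat (nat_lit 104320), .ofNat (nat_lit 112876)⟩, ⟨.ofNat (nat_lit 0), .ofNat (nat_lit 0), .ofNat (nat_lit 0), .ofNat (nat_lit 0), .ofNat (nat_lit 0), .ofNat (nat_lit 0), .ofNat (nat_lit 0), .ofNat (nat_lit 0)⟩⟩, [⟨nat_lit 0, nat_lit 100, nat_lit 100, nat_lit 22, nat_lit 135909731⟩]⟩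
noncomputable def p005_l75 : Lf2 := ⟨nat_lit 0, nat_lit 2, [nat_lit 10, nat_lit 5, nat_lit 5, nat_lit 20], true, nat_lit 0, nat_lit 0, nat_lit 0, nat_lit 0, ⟨nat_lit 0, nat_lit 0, nat_lit 1000, nat_lit 5, nat_lit 43, nat_lit 0, nat_lit 0, nat_lit 0, nat_lit 0, nat_lit 215, nat_lit 17067, nat_lit 247, nat_lit 66233380, nat_lit 0, nat_lit 0, nat_lit 312477, false, false⟩,
 nat_lit 0, nat_lit 10250, nat_lit 0, nat_lit 0, nat_lit 4953, nat_lit 0, nat_lit 0, nat_lit 0, nat_lit 0, nat_lit 0, nat_lit 0, nat_lit 0, nat_lit 0, nat_lit 0, nat_lit 53, nat_lit 1000000, nat_lit 0, nat_lit 0, [(nat_lit 3, [(nat_lit 6, nat_lit 1000)])],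
 ⟨p005_k13, nat_lit 0, nat_lit 0, nat_lit 0, nat_lit 0, nat_lit 168693, [nat_lit 1559200001, nat_lit 1418400001, nat_lit 13599999], [], [nat_lit 12996124969, nat_lit 13029842686, nat_lit 12997480260, nat_lit 12866935525], nat_lit 1271250, nat_lit 1271250, nat_lit 21650, nat_lit 43600, nat_lit 0, nat_lit 0, [nat_lit 780000, nat_lit 1435000, nat_lit 1271250], [nat_lit 18, nat_lit 40, nat_lit 20, nat_lit 80]⟩, C1.Rw.none,
 ⟨nat_lit 6652, nat_lit 6671, ⟨.ofNat (nat_lit 102284), .ofNat (nat_lit 110860), .ofNat (nat_lit 103355), .ofNat (nat_lit 111931), .ofNat (nat_lit 103249), .ofNat (nat_lit 111805), .ofNat (nat_lit 104320), .ofNat (nat_lit 112876)⟩, ⟨.ofNat (nat_lit 0), .ofNat (nat_lit 0), .ofNat (nat_lit 0), .ofNat (nat_lit 0), .ofNat (nat_lit 0), .ofNat (nat_lit 0), .ofNat (nat_lit 0), .ofNat (nat_lit 0)⟩⟩, [⟨nat_lit 0, nat_lit 100, nat_lit 100, nat_lit 22, nat_lit 104659645⟩]⟩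
noncomputable def p005_l76 : Lf2 := ⟨nat_lit 0, nat_lit 2, [nat_lit 10, nat_lit 5, nat_lit 5, nat_lit 20], true, nat_lit 0, nat_lit 0, nat_lit 0, nat_lit 0, ⟨nat_lit 0, nat_lit 0, nat_lit 1000, nat_lit 5, nat_lit 43, nat_lit 0, nat_lit 0, nat_lit 0, nat_lit 0, nat_lit 215, nat_lit 17067, nat_lit 247, nat_lit 66233380, nat_lit 0, nat_lit 0, nat_lit 312477, false, false⟩,
 nat_lit 0, nat_lit 100000, nat_lit 0, nat_lit 0, nat_lit 48330, nat_lit 0, nat_lit 11577, nat_lit 298, nat_lit 0, nat_lit 0, nat_lit 0, nat_lit 0, nat_lit 0, nat_lit 0, nat_lit 0, nat_lit 1000000, nat_lit 10174837273, nat_lit 0, [(nat_lit 3, [(nat_lit 6, nat_lit 1000)])],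
 ⟨p005_k7, nat_lit 0, nat_lit 0, nat_lit 0, nat_lit 0, nat_lit 168693, [nat_lit 7001142858, nat_lit 5891600000], [], [nat_lit 2611284671, nat_lit 2873367917, nat_lit 506165410, nat_lit 0], nat_lit 1271250, nat_lit 1271250, nat_lit 21650, nat_lit 43600, nat_lit 0, nat_lit 0, [nat_lit 1412500, nat_lit 1271250], [nat_lit 26, nat_lit 40, nat_lit 20, nat_lit 80]⟩, C1.Rw.none,
 ⟨nat_lit 6652, nat_lit 6671, ⟨.ofNat (nat_lit 102284), .ofNat (nat_lit 110860), .ofNat (nat_lit 103355), .ofNat (nat_lit 111931), .ofNat (nat_lit 103249), .ofNat (nat_lit 111805), .ofNat (nat_lit 104320), .ofNat (nat_lit 112876)⟩, ⟨.ofNat (nat_lit 0), .ofNat (nat_lit 0), .ofNat (nat_lit 0), .ofNat (nat_lit 0), .ofNat (nat_lit 0), .ofNat (nat_lit 0), .ofNat (nat_lit 0), .ofNat (nat_lit 0)⟩⟩, [⟨nat_lit 0, nat_lit 100, nat_lit 100, nat_lit 22, nat_lit 3697091307⟩]⟩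
noncomputable def p005_l77 : Lf2 := ⟨nat_lit 0, nat_lit 2, [nat_lit 10, nat_lit 5, nat_lit 5, nat_lit 20], true, nat_lit 0, nat_lit 0, nat_lit 0, nat_lit 0, ⟨nat_lit 0, nat_lit 0, nat_lit 1000, nat_lit 5, nat_lit 43, nat_lit 0, nat_lit 0, nat_lit 0, nat_lit 0, nat_lit 215, nat_lit 17067, nat_lit 247, nat_lit 66233380, nat_lit 0, nat_lit 0, nat_lit 312477, false, false⟩,
 nat_lit 0, nat_lit 100000, nat_lit 0, nat_lit 0, nat_lit 48330, nat_lit 0, nat_lit 0, nat_lit 1085, nat_lit 0, nat_lit 0, nat_lit 0, nat_lit 0, nat_lit 0, nat_lit 0, nat_lit 0, nat_lit 1000000, nat_lit 0, nat_lit 0, [(nat_lit 3, [(nat_lit 6, nat_lit 1000)])],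
 ⟨p005_k7, nat_lit 0, nat_lit 0, nat_lit 289, nat_lit 0, nat_lit 168693, [nat_lit 22741142858, nat_lit 24779600000], [], [nat_lit 38156895449, nat_lit 37492170341, nat_lit 37551328137, nat_lit 36315171429], nat_lit 1271250, nat_lit 1271250, nat_lit 21650, nat_lit 43600, nat_lit 0, nat_lit 0, [nat_lit 1412500, nat_lit 1271250], [nat_lit 26, nat_lit 40, nat_lit 20, nat_lit 80, nat_lit 2, nat_lit 272, nat_lit 60, nat_lit 10]⟩, C1.Rw.none,
 ⟨nat_lit 6652, nat_lit 6671, ⟨.ofNat (nat_lit 102284), .ofNat (nat_lit 110860), .ofNat (nat_lit 103355), .ofNat (nat_lit 111931), .ofNat (nat_lit 103249), .ofNat (nat_lit 111805), .ofNat (nat_lit 104320), .ofNat (nat_lit 112876)⟩, ⟨.ofNat (nat_lit 0), .ofNat (nat_lit 0), .ofNat (nat_lit 0), .ofNat (nat_lit 0), .ofNat (nat_lit 0), .ofNat (nat_lit 0), .ofNat (nat_lit 0), .ofNat (nat_lit 0)⟩⟩, [⟨nat_lit 13, nat_lit 100, nat_lit 1, nat_lit 100, nat_lit 20766128⟩]⟩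
noncomputable def p005_l78 : Lf2 := ⟨nat_lit 0, nat_lit 2, [nat_lit 10, nat_lit 5, nat_lit 5, nat_lit 20], false, nat_lit 0, nat_lit 0, nat_lit 0, nat_lit 0, ⟨nat_lit 1000, nat_lit 0, nat_lit 0, nat_lit 0, nat_lit 0, nat_lit 0, nat_lit 0, nat_lit 0, nat_lit 0, nat_lit 0, nat_lit 0, nat_lit 0, nat_lit 0, nat_lit 0, nat_lit 0, nat_lit 0, false, false⟩,
 nat_lit 0, nat_lit 26042, nat_lit 0, nat_lit 0, nat_lit 12586, nat_lit 100000, nat_lit 0, nat_lit 0, nat_lit 0, nat_lit 60000, nat_lit 11433, nat_lit 0, nat_lit 0, nat_lit 0, nat_lit 0, nat_lit 0, nat_lit 0, nat_lit 0, [],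
 ⟨p005_k7, nat_lit 0, nat_lit 0, nat_lit 289, nat_lit 0, nat_lit 168693, [nat_lit 6250000000, nat_lit 7968000000], [], [nat_lit 25860884201, nat_lit 25980638940, nat_lit 25768118900, nat_lit 25446201492], nat_lit 1271250, nat_lit 1271250, nat_lit 21650, nat_lit 43600, nat_lit 0, nat_lit 0, [nat_lit 1412500, nat_lit 1271250], [nat_lit 26, nat_lit 40, nat_lit 20, nat_lit 80, nat_lit 2, nat_lit 272, nat_lit 60, nat_lit 10]⟩, ⟨p005_k6, nat_lit 0, nat_lit 0, nat_lit 0, nat_lit 0, nat_lit 0, [nat_lit 93496000000, nat_lit 187616000000, nat_lit 234910000000, nat_lit 282360000000], [], [nat_lit 291390171621, nat_lit 292076471641, nat_lit 285023786240, nat_lit 285710805281], nat_lit 0, nat_lit 0, nat_lit 0, nat_lit 0, nat_lit 0, nat_lit 0, [], [nat_lit 98, nat_lit 40, nat_lit 20, nat_lit 40]⟩,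
 zbF0, [⟨nat_lit 0, nat_lit 100, nat_lit 100, nat_lit 22, nat_lit 8961936355⟩]⟩
noncomputable def p005_l79 : Lf2 := ⟨nat_lit 0, nat_lit 2, [nat_lit 10, nat_lit 5, nat_lit 5, nat_lit 20], false, nat_lit 0, nat_lit 0, nat_lit 0, nat_lit 0, ⟨nat_lit 1000, nat_lit 0, nat_lit 0, nat_lit 0, nat_lit 0, nat_lit 0, nat_lit 0, nat_lit 0, nat_lit 0, nat_lit 0, nat_lit 0, nat_lit 0, nat_lit 0, nat_lit 0, nat_lit 0, nat_lit 0, false, false⟩,
 nat_lit 0, nat_lit 25778, nat_lit 0, nat_lit 0, nat_lit 12458, nat_lit 3951, nat_lit 0, nat_lit 0, nat_lit 0, nat_lit 5052, nat_lit 43, nat_lit 0, nat_lit 0, nat_lit 14207348095989, nat_lit 0, nat_lit 0, nat_lit 0, nat_lit 0, [],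
 ⟨p005_k7, nat_lit 0, nat_lit 0, nat_lit 290, nat_lit 0, nat_lit 172705, [nat_lit 6250000000, nat_lit 7968000000], [], [nat_lit 25994017298, nat_lit 25918183454, nat_lit 25903088352, nat_lit 25584444853], nat_lit 1271250, nat_lit 1271250, nat_lit 21650, nat_lit 43600, nat_lit 0, nat_lit 0, [nat_lit 1412500, nat_lit 1271250], [nat_lit 26, nat_lit 40, nat_lit 20, nat_lit 80, nat_lit 2, nat_lit 272, nat_lit 60, nat_lit 10]⟩, ⟨p005_k15, nat_lit 0, nat_lit 0, nat_lit 0, nat_lit 0, nat_lit 0, [nat_lit 2376000000, nat_lit 5376000000, nat_lit 7110000000, nat_lit 9000000000], [], [nat_lit 18301966879, nat_lit 18369084152, nat_lit 18098737062, nat_lit 18165837309], nat_lit 0, nat_lit 0, nat_lit 0, nat_lit 0, nat_lit 0, nat_lit 0, [], [nat_lit 98, nat_lit 40, nat_lit 20, nat_lit 40]⟩,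
 zbF0, [⟨nat_lit 0, nat_lit 100, nat_lit 100, nat_lit 22, nat_lit 1254763009⟩]⟩
noncomputable def p005_l80 : Lf2 := ⟨nat_lit 0, nat_lit 2, [nat_lit 10, nat_lit 5, nat_lit 5, nat_lit 20], false, nat_lit 0, nat_lit 0, nat_lit 0, nat_lit 0, ⟨nat_lit 1000, nat_lit 0, nat_lit 0, nat_lit 0, nat_lit 0, nat_lit 0, nat_lit 0, nat_lit 0, nat_lit 0, nat_lit 0, nat_lit 0, nat_lit 0, nat_lit 0, nat_lit 0, nat_lit 0, nat_lit 0, false, false⟩,
 nat_lit 0, nat_lit 25887, nat_lit 0, nat_lit 0, nat_lit 12511, nat_lit 100000, nat_lit 0, nat_lit 0, nat_lit 0, nat_lit 5554, nat_lit 8704, nat_lit 0, nat_lit 0, nat_lit 63669391373509, nat_lit 0, nat_lit 0, nat_lit 0, nat_lit 0, [],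
 ⟨p005_k7, nat_lit 0, nat_lit 0, nat_lit 294, nat_lit 0, nat_lit 223068, [nat_lit 6250000000, nat_lit 7968000000], [], [nat_lit 25938891875, nat_lit 25944043929, nat_lit 25847202563, nat_lit 25527203462], nat_lit 1271250, nat_lit 1271250, nat_lit 21650, nat_lit 43600, nat_lit 0, nat_lit 0, [nat_lit 1412500, nat_lit 1271250], [nat_lit 26, nat_lit 40, nat_lit 20, nat_lit 80, nat_lit 2, nat_lit 272, nat_lit 60, nat_lit 10]⟩, ⟨p005_k1, nat_lit 0, nat_lit 0, nat_lit 0, nat_lit 0, nat_lit 0, [nat_lit 107730000000, nat_lit 180330000000, nat_lit 216864000000], [], [nat_lit 271193592100, nat_lit 273123303880, nat_lit 265018329700, nat_lit 266949657160], nat_lit 0, nat_lit 0, nat_lit 0, nat_lit 0, nat_lit 0, nat_lit 0, [], [nat_lit 18, nat_lit 40, nat_lit 20, nat_lit 80]⟩,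
 zbF0, [⟨nat_lit 0, nat_lit 100, nat_lit 100, nat_lit 22, nat_lit 8718605368⟩]⟩
noncomputable def p005_l81 : Lf2 := ⟨nat_lit 3, nat_lit 2, [nat_lit 10, nat_lit 5, nat_lit 5, nat_lit 20], false, nat_lit 0, nat_lit 0, nat_lit 0, nat_lit 0, zbN0,
 nat_lit 0, nat_lit 0, nat_lit 0, nat_lit 0, nat_lit 0, nat_lit 0, nat_lit 0, nat_lit 0, nat_lit 0, nat_lit 0, nat_lit 0, nat_lit 0, nat_lit 0, nat_lit 0, nat_lit 0, nat_lit 0, nat_lit 0, nat_lit 0, [],
 C1.Rw.none, ⟨p005_k1, nat_lit 0, nat_lit 0, nat_lit 0, nat_lit 0, nat_lit 0, [], [], [], nat_lit 0, nat_lit 0, nat_lit 0, nat_lit 0, nat_lit 0, nat_lit 0, [], [nat_lit 18, nat_lit 40, nat_lit 20, nat_lit 80]⟩,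
 zbF0, []⟩
noncomputable def p005_l82 : Lf2 := ⟨nat_lit 0, nat_lit 2, [nat_lit 10, nat_lit 5, nat_lit 5, nat_lit 20], false, nat_lit 0, nat_lit 0, nat_lit 0, nat_lit 0, ⟨nat_lit 1000, nat_lit 0, nat_lit 0, nat_lit 0, nat_lit 0, nat_lit 0, nat_lit 0, nat_lit 0, nat_lit 0, nat_lit 0, nat_lit 0, nat_lit 0, nat_lit 0, nat_lit 0, nat_lit 0, nat_lit 0, false, false⟩,
 nat_lit 0, nat_lit 26720, nat_lit 0, nat_lit 0, nat_lit 12913, nat_lit 5243, nat_lit 0, nat_lit 0, nat_lit 0, nat_lit 5738, nat_lit 0, nat_lit 0, nat_lit 0, nat_lit 27392871025802, nat_lit 0, nat_lit 0, nat_lit 0, nat_lit 0, [],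
 ⟨p005_k7, nat_lit 0, nat_lit 0, nat_lit 292, nat_lit 0, nat_lit 223068, [nat_lit 6250000000, nat_lit 7968000000], [], [nat_lit 25423314130, nat_lit 25217795083, nat_lit 25278487704, nat_lit 24949181153], nat_lit 1271250, nat_lit 1271250, nat_lit 43600, nat_lit 88400, nat_lit 0, nat_lit 0, [nat_lit 1412500, nat_lit 1271250], [nat_lit 26, nat_lit 40, nat_lit 20, nat_lit 80, nat_lit 2, nat_lit 272, nat_lit 60, nat_lit 10]⟩, ⟨p005_k1, nat_lit 0, nat_lit 0, nat_lit 0, nat_lit 0, nat_lit 0, [nat_lit 3282000000, nat_lit 6250000000, nat_lit 7968000000], [], [nat_lit 17280790541, nat_lit 17494393093, nat_lit 16721850612, nat_lit 16942474973], nat_lit 0, nat_lit 0, nat_lit 0, nat_lit 0, nat_lit 0, nat_lit 0, [], [nat_lit 18, nat_lit 40, nat_lit 20, nat_lit 80]⟩,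
 zbF0, []⟩
noncomputable def b_NL_550_550_0_12 : St := ⟨false, nat_lit 1, nat_lit 0, nat_lit 1, nat_lit 20, nat_lit 222, nat_lit 223, nat_lit 220, nat_lit 223, nat_lit 4, nat_lit 16, nat_lit 0, nat_lit 0, nat_lit 0, nat_lit 0, nat_lit 0, nat_lit 0, nat_lit 0, nat_lit 8, nat_lit 0, nat_lit 0, nat_lit 0, nat_lit 800⟩
theorem d_NL_550_550_0_12 (h : EB TB.env) : Dead b_NL_550_550_0_12 := chkB_sound0 h (T :=
(.spl (nat_lit 2) (nat_lit 8)
(.spl (nat_lit 8) (nat_lit 400)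
(.spl (nat_lit 8) (nat_lit 200)
(.leaf p005_l43)
(.spl (nat_lit 8) (nat_lit 300)
(.spl (nat_lit 8) (nat_lit 260)
(.spl (nat_lit 6) (nat_lit 4)
(.spl (nat_lit 1) (nat_lit 222)
(.spl (nat_lit 1) (nat_lit 221)
(.leaf p005_l44)
(.spl (nat_lit 8) (nat_lit 240)
(.spl (nat_lit 8) (nat_lit 220)
(.spl (nat_lit 7) (nat_lit 600)
(.leaf p005_l45)
(.leaf p005_l46))
(.spl (nat_lit 7) (nat_lit 600)
(.leaf p005_l47)
(.leaf p005_l48)))
(.leaf p005_l49)))
(.spl (nat_lit 8) (nat_lit 240)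
(.spl (nat_lit 8) (nat_lit 220)
(.spl (nat_lit 7) (nat_lit 600)
(.leaf p005_l50)
(.leaf p005_l51))
(.spl (nat_lit 7) (nat_lit 600)
(.leaf p005_l52)
(.leaf p005_l53)))
(.leaf p005_l54)))
(.spl (nat_lit 8) (nat_lit 240)
(.leaf p005_l55)
(.spl (nat_lit 1) (nat_lit 222)
(.spl (nat_lit 1) (nat_lit 221)
(.spl (nat_lit 7) (nat_lit 600)
(.spl (nat_lit 7) (nat_lit 300)
(.leaf p005_l56)
(.spl (nat_lit 7) (nat_lit 460)
(.leaf p005_l57)
(.leaf p005_l58)))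
(.leaf p005_l59))
(.spl (nat_lit 7) (nat_lit 600)
(.spl (nat_lit 7) (nat_lit 300)
(.leaf p005_l60)
(.spl (nat_lit 7) (nat_lit 460)
(.leaf p005_l61)
(.leaf p005_l62)))
(.leaf p005_l63)))
(.spl (nat_lit 7) (nat_lit 600)
(.spl (nat_lit 7) (nat_lit 300)
(.leaf p005_l64)
(.spl (nat_lit 7) (nat_lit 460)
(.leaf p005_l65)
(.leaf p005_l66)))
(.leaf p005_l67)))))
(.spl (nat_lit 6) (nat_lit 4)
(.leaf p005_l68)
(.spl (nat_lit 1) (nat_lit 222)
(.spl (nat_lit 1) (nat_lit 221)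
(.spl (nat_lit 8) (nat_lit 280)
(.spl (nat_lit 7) (nat_lit 600)
(.spl (nat_lit 7) (nat_lit 300)
(.leaf p005_l69)
(.spl (nat_lit 7) (nat_lit 460)
(.leaf p005_l70)
(.leaf p005_l71)))
(.leaf p005_l72))
(.leaf p005_l73))
(.spl (nat_lit 8) (nat_lit 280)
(.spl (nat_lit 7) (nat_lit 600)
(.spl (nat_lit 7) (nat_lit 300)
(.leaf p005_l74)
(.spl (nat_lit 7) (nat_lit 460)
(.leaf p005_l75)
(.leaf p005_l76)))
(.leaf p005_l77))
(.leaf p005_l78)))
(.leaf p005_l79))))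
(.leaf p005_l80)))
(.leaf p005_l81))
(.leaf p005_l82))) (by decide +kernel)
noncomputable def p005_l83 : Lf2 := ⟨nat_lit 0, nat_lit 2, [nat_lit 10, nat_lit 5, nat_lit 5, nat_lit 20], false, nat_lit 0, nat_lit 0, nat_lit 0, nat_lit 0, ⟨nat_lit 1000, nat_lit 0, nat_lit 0, nat_lit 0, nat_lit 0, nat_lit 0, nat_lit 0, nat_lit 0, nat_lit 0, nat_lit 0, nat_lit 0, nat_lit 0, nat_lit 0, nat_lit 0, nat_lit 0, nat_lit 0, false, false⟩,
 nat_lit 0, nat_lit 26163, nat_lit 0, nat_lit 0, nat_lit 12711, nat_lit 0, nat_lit 1121, nat_lit 0, nat_lit 0, nat_lit 4486, nat_lit 0, nat_lit 559, nat_lit 0, nat_lit 10881085409160, nat_lit 0, nat_lit 0, nat_lit 0, nat_lit 0, [],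
 ⟨p005_k16, nat_lit 0, nat_lit 0, nat_lit 300, nat_lit 0, nat_lit 237677, [nat_lit 6250000000, nat_lit 7968000000], [], [nat_lit 25405277112, nat_lit 25256856105, nat_lit 25311198210, nat_lit 24660969038], nat_lit 1271250, nat_lit 1271250, nat_lit 21650, nat_lit 43600, nat_lit 0, nat_lit 0, [nat_lit 1412500, nat_lit 1271250], [nat_lit 26, nat_lit 40, nat_lit 20, nat_lit 80, nat_lit 2, nat_lit 272, nat_lit 60, nat_lit 10]⟩, ⟨p005_k1, nat_lit 0, nat_lit 0, nat_lit 0, nat_lit 0, nat_lit 0, [nat_lit 3282000000, nat_lit 6250000000, nat_lit 7968000000], [], [nat_lit 5351042400, nat_lit 5548908201, nat_lit 5395362800, nat_lit 5584742100], nat_lit 0, nat_lit 0, nat_lit 0, nat_lit 0, nat_lit 0, nat_lit 0, [], [nat_lit 18, nat_lit 40, nat_lit 20, nat_lit 80]⟩,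
 zbF0, [⟨nat_lit 0, nat_lit 100, nat_lit 100, nat_lit 23, nat_lit 943473639⟩]⟩
noncomputable def p005_l84 : Lf2 := ⟨nat_lit 0, nat_lit 1, [nat_lit 19, nat_lit 5, nat_lit 5, nat_lit 20], false, nat_lit 0, nat_lit 0, nat_lit 0, nat_lit 0, ⟨nat_lit 1000, nat_lit 0, nat_lit 0, nat_lit 0, nat_lit 0, nat_lit 0, nat_lit 0, nat_lit 0, nat_lit 0, nat_lit 0, nat_lit 0, nat_lit 0, nat_lit 0, nat_lit 0, nat_lit 0, nat_lit 0, false, false⟩,
 nat_lit 0, nat_lit 25689, nat_lit 0, nat_lit 0, nat_lit 12480, nat_lit 3725, nat_lit 679, nat_lit 0, nat_lit 0, nat_lit 5157, nat_lit 0, nat_lit 0, nat_lit 0, nat_lit 11553520854452, nat_lit 0, nat_lit 0, nat_lit 0, nat_lit 0, [],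
 ⟨p005_k17, nat_lit 0, nat_lit 0, nat_lit 298, nat_lit 0, nat_lit 232922, [nat_lit 6250000000, nat_lit 7968000000], [], [nat_lit 25651457850, nat_lit 25545653313, nat_lit 25560684276, nat_lit 24922271872], nat_lit 1271250, nat_lit 1271250, nat_lit 21650, nat_lit 43600, nat_lit 0, nat_lit 0, [nat_lit 1412500, nat_lit 1271250], [nat_lit 26, nat_lit 40, nat_lit 20, nat_lit 80, nat_lit 2, nat_lit 272, nat_lit 60, nat_lit 10]⟩, ⟨p005_k9, nat_lit 0, nat_lit 0, nat_lit 0, nat_lit 0, nat_lit 0, [nat_lit 2032000000, nat_lit 5449500000, nat_lit 6250000000, nat_lit 7089500000], [], [nat_lit 17050750925, nat_lit 17381766600, nat_lit 16790816525, nat_lit 17121759750], nat_lit 0, nat_lit 0, nat_lit 0, nat_lit 0, nat_lit 0, nat_lit 0, [], [nat_lit 243, nat_lit 10, nat_lit 4, nat_lit 20]⟩,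
 zbF0, [⟨nat_lit 0, nat_lit 100, nat_lit 100, nat_lit 23, nat_lit 1320135741⟩]⟩
noncomputable def p005_l85 : Lf2 := ⟨nat_lit 0, nat_lit 2, [nat_lit 10, nat_lit 5, nat_lit 5, nat_lit 20], false, nat_lit 0, nat_lit 0, nat_lit 0, nat_lit 0, ⟨nat_lit 1000, nat_lit 0, nat_lit 0, nat_lit 0, nat_lit 0, nat_lit 0, nat_lit 0, nat_lit 0, nat_lit 0, nat_lit 0, nat_lit 0, nat_lit 0, nat_lit 0, nat_lit 0, nat_lit 0, nat_lit 0, false, false⟩,
 nat_lit 0, nat_lit 25019, nat_lit 0, nat_lit 0, nat_lit 12155, nat_lit 3602, nat_lit 0, nat_lit 0, nat_lit 0, nat_lit 4897, nat_lit 0, nat_lit 0, nat_lit 0, nat_lit 0, nat_lit 0, nat_lit 0, nat_lit 0, nat_lit 0, [],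
 ⟨p005_k16, nat_lit 0, nat_lit 0, nat_lit 289, nat_lit 0, nat_lit 175818, [nat_lit 6250000000, nat_lit 7968000000], [], [nat_lit 25997816031, nat_lit 26004459493, nat_lit 25911692810, nat_lit 25289905730], nat_lit 1271250, nat_lit 1271250, nat_lit 21650, nat_lit 43600, nat_lit 0, nat_lit 0, [nat_lit 1412500, nat_lit 1271250], [nat_lit 26, nat_lit 40, nat_lit 20, nat_lit 80, nat_lit 2, nat_lit 272, nat_lit 60, nat_lit 10]⟩, ⟨p005_k18, nat_lit 0, nat_lit 0, nat_lit 0, nat_lit 0, nat_lit 0, [nat_lit 2032000000, nat_lit 5449500000, nat_lit 6250000000, nat_lit 7968000000], [], [nat_lit 17389723210, nat_lit 17509792537, nat_lit 17189715506, nat_lit 17309714114], nat_lit 0, nat_lit 0, nat_lit 0, nat_lit 0, nat_lit 0, nat_lit 0, [], [nat_lit 267, nat_lit 10, nat_lit 4, nat_lit 20]⟩,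
 zbF0, [⟨nat_lit 0, nat_lit 100, nat_lit 100, nat_lit 23, nat_lit 1244752374⟩]⟩
noncomputable def p005_l86 : Lf2 := ⟨nat_lit 0, nat_lit 2, [nat_lit 10, nat_lit 5, nat_lit 5, nat_lit 20], false, nat_lit 0, nat_lit 0, nat_lit 0, nat_lit 0, ⟨nat_lit 1000, nat_lit 0, nat_lit 0, nat_lit 0, nat_lit 0, nat_lit 0, nat_lit 0, nat_lit 0, nat_lit 0, nat_lit 0, nat_lit 0, nat_lit 0, nat_lit 0, nat_lit 0, nat_lit 0, nat_lit 0, false, false⟩,
 nat_lit 0, nat_lit 25024, nat_lit 0, nat_lit 0, nat_lit 12157, nat_lit 3709, nat_lit 0, nat_lit 0, nat_lit 0, nat_lit 4850, nat_lit 0, nat_lit 0, nat_lit 0, nat_lit 0, nat_lit 0, nat_lit 0, nat_lit 0, nat_lit 0, [],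
 ⟨p005_k16, nat_lit 0, nat_lit 0, nat_lit 290, nat_lit 0, nat_lit 179762, [nat_lit 6250000000, nat_lit 7968000000], [], [nat_lit 25995684596, nat_lit 26005461975, nat_lit 25909532758, nat_lit 25287643368], nat_lit 1271250, nat_lit 1271250, nat_lit 21650, nat_lit 43600, nat_lit 0, nat_lit 0, [nat_lit 1412500, nat_lit 1271250], [nat_lit 26, nat_lit 40, nat_lit 20, nat_lit 80, nat_lit 2, nat_lit 272, nat_lit 60, nat_lit 10]⟩, ⟨p005_k15, nat_lit 0, nat_lit 0, nat_lit 0, nat_lit 0, nat_lit 0, [nat_lit 2032000000, nat_lit 4688000000, nat_lit 6250000000, nat_lit 7968000000], [], [nat_lit 17329483214, nat_lit 17390347188, nat_lit 17095098725, nat_lit 17156842037], nat_lit 0, nat_lit 0, nat_lit 0, nat_lit 0, nat_lit 0, nat_lit 0, [], [nat_lit 98, nat_lit 40, nat_lit 20, nat_lit 40]⟩,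
 zbF0, [⟨nat_lit 0, nat_lit 100, nat_lit 100, nat_lit 23, nat_lit 1285689315⟩]⟩
noncomputable def p005_l87 : Lf2 := ⟨nat_lit 0, nat_lit 2, [nat_lit 10, nat_lit 5, nat_lit 5, nat_lit 20], false, nat_lit 0, nat_lit 0, nat_lit 0, nat_lit 0, ⟨nat_lit 1000, nat_lit 0, nat_lit 0, nat_lit 0, nat_lit 0, nat_lit 0, nat_lit 0, nat_lit 0, nat_lit 0, nat_lit 0, nat_lit 0, nat_lit 0, nat_lit 0, nat_lit 0, nat_lit 0, nat_lit 0, false, false⟩,
 nat_lit 0, nat_lit 24867, nat_lit 0, nat_lit 0, nat_lit 12081, nat_lit 3707, nat_lit 0, nat_lit 0, nat_lit 0, nat_lit 4651, nat_lit 0, nat_lit 0, nat_lit 0, nat_lit 12152079733168, nat_lit 0, nat_lit 0, nat_lit 0, nat_lit 0, [],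
 ⟨p005_k16, nat_lit 0, nat_lit 0, nat_lit 290, nat_lit 0, nat_lit 187650, [nat_lit 6250000000, nat_lit 7968000000], [], [nat_lit 26076679125, nat_lit 25967367689, nat_lit 25991614753, nat_lit 25373613131], nat_lit 1271250, nat_lit 1271250, nat_lit 21650, nat_lit 43600, nat_lit 0, nat_lit 0, [nat_lit 1412500, nat_lit 1271250], [nat_lit 26, nat_lit 40, nat_lit 20, nat_lit 80, nat_lit 2, nat_lit 272, nat_lit 60, nat_lit 10]⟩, ⟨p005_k19, nat_lit 0, nat_lit 0, nat_lit 0, nat_lit 0, nat_lit 0, [nat_lit 2032000000, nat_lit 4688000000, nat_lit 6250000000, nat_lit 7968000000], [], [nat_lit 17389912167, nat_lit 17524123940, nat_lit 17158453646, nat_lit 17288898404], nat_lit 0, nat_lit 0, nat_lit 0, nat_lit 0, nat_lit 0, nat_lit 0, [], [nat_lit 98, nat_lit 40, nat_lit 20, nat_lit 40]⟩,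
 zbF0, [⟨nat_lit 0, nat_lit 100, nat_lit 100, nat_lit 23, nat_lit 1281713282⟩]⟩
noncomputable def p005_l88 : Lf2 := ⟨nat_lit 0, nat_lit 2, [nat_lit 10, nat_lit 5, nat_lit 5, nat_lit 20], false, nat_lit 0, nat_lit 0, nat_lit 0, nat_lit 0, ⟨nat_lit 1000, nat_lit 0, nat_lit 0, nat_lit 0, nat_lit 0, nat_lit 0, nat_lit 0, nat_lit 0, nat_lit 0, nat_lit 0, nat_lit 0, nat_lit 0, nat_lit 0, nat_lit 0, nat_lit 0, nat_lit 0, false, false⟩,
 nat_lit 0, nat_lit 25138, nat_lit 0, nat_lit 0, nat_lit 12213, nat_lit 100000, nat_lit 0, nat_lit 0, nat_lit 0, nat_lit 5383, nat_lit 8712, nat_lit 0, nat_lit 0, nat_lit 59487260588394, nat_lit 0, nat_lit 0, nat_lit 0, nat_lit 0, [],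
 ⟨p005_k16, nat_lit 0, nat_lit 0, nat_lit 300, nat_lit 0, nat_lit 237677, [nat_lit 6250000000, nat_lit 7968000000], [], [nat_lit 25936004417, nat_lit 26033531448, nat_lit 25849051287, nat_lit 25224297226], nat_lit 1271250, nat_lit 1271250, nat_lit 21650, nat_lit 43600, nat_lit 0, nat_lit 0, [nat_lit 1412500, nat_lit 1271250], [nat_lit 26, nat_lit 40, nat_lit 20, nat_lit 80, nat_lit 2, nat_lit 272, nat_lit 60, nat_lit 10]⟩, ⟨p005_k1, nat_lit 0, nat_lit 0, nat_lit 0, nat_lit 0, nat_lit 0, [nat_lit 107826000000, nat_lit 180490000000, nat_lit 217056000000], [], [nat_lit 271617323350, nat_lit 274851183750, nat_lit 265442060950, nat_lit 268660940051], nat_lit 0, nat_lit 0, nat_lit 0, nat_lit 0, nat_lit 0, nat_lit 0, [], [nat_lit 18, nat_lit 40, nat_lit 20, nat_lit 80]⟩,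
 zbF0, [⟨nat_lit 0, nat_lit 100, nat_lit 100, nat_lit 23, nat_lit 8722038364⟩]⟩
noncomputable def p005_l89 : Lf2 := ⟨nat_lit 3, nat_lit 2, [nat_lit 10, nat_lit 5, nat_lit 5, nat_lit 20], false, nat_lit 0, nat_lit 0, nat_lit 0, nat_lit 0, zbN0,
 nat_lit 0, nat_lit 0, nat_lit 0, nat_lit 0, nat_lit 0, nat_lit 0, nat_lit 0, nat_lit 0, nat_lit 0, nat_lit 0, nat_lit 0, nat_lit 0, nat_lit 0, nat_lit 0, nat_lit 0, nat_lit 0, nat_lit 0, nat_lit 0, [],
 C1.Rw.none, ⟨p005_k1, nat_lit 0, nat_lit 0, nat_lit 0, nat_lit 0, nat_lit 0, [], [], [], nat_lit 0, nat_lit 0, nat_lit 0, nat_lit 0, nat_lit 0, nat_lit 0, [], [nat_lit 18, nat_lit 40, nat_lit 20, nat_lit 80]⟩,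
 zbF0, []⟩
noncomputable def p005_l90 : Lf2 := ⟨nat_lit 0, nat_lit 2, [nat_lit 10, nat_lit 5, nat_lit 5, nat_lit 20], false, nat_lit 0, nat_lit 0, nat_lit 0, nat_lit 0, ⟨nat_lit 1000, nat_lit 0, nat_lit 0, nat_lit 0, nat_lit 0, nat_lit 0, nat_lit 0, nat_lit 0, nat_lit 0, nat_lit 0, nat_lit 0, nat_lit 0, nat_lit 0, nat_lit 0, nat_lit 0, nat_lit 0, false, false⟩,
 nat_lit 0, nat_lit 25983, nat_lit 0, nat_lit 0, nat_lit 12623, nat_lit 5179, nat_lit 0, nat_lit 0, nat_lit 0, nat_lit 5573, nat_lit 0, nat_lit 0, nat_lit 0, nat_lit 25220694952370, nat_lit 0, nat_lit 0, nat_lit 0, nat_lit 0, [],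
 ⟨p005_k16, nat_lit 0, nat_lit 0, nat_lit 292, nat_lit 0, nat_lit 229745, [nat_lit 6250000000, nat_lit 7968000000], [], [nat_lit 25406240521, nat_lit 25218334422, nat_lit 25269643861, nat_lit 24947732872], nat_lit 1271250, nat_lit 1271250, nat_lit 43600, nat_lit 88400, nat_lit 0, nat_lit 0, [nat_lit 1412500, nat_lit 1271250], [nat_lit 26, nat_lit 40, nat_lit 20, nat_lit 80, nat_lit 2, nat_lit 272, nat_lit 60, nat_lit 10]⟩, ⟨p005_k1, nat_lit 0, nat_lit 0, nat_lit 0, nat_lit 0, nat_lit 0, [nat_lit 3282000000, nat_lit 6250000000, nat_lit 7968000000], [], [nat_lit 17406536858, nat_lit 17669464188, nat_lit 16861529985, nat_lit 17124381272], nat_lit 0, nat_lit 0, nat_lit 0, nat_lit 0, nat_lit 0, nat_lit 0, [], [nat_lit 18, nat_lit 40, nat_lit 20, nat_lit 80]⟩,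
 zbF0, []⟩
noncomputable def p005_l91 : Lf2 := ⟨nat_lit 0, nat_lit 2, [nat_lit 10, nat_lit 5, nat_lit 5, nat_lit 20], false, nat_lit 0, nat_lit 0, nat_lit 0, nat_lit 0, ⟨nat_lit 1000, nat_lit 0, nat_lit 0, nat_lit 0, nat_lit 0, nat_lit 0, nat_lit 0, nat_lit 0, nat_lit 0, nat_lit 0, nat_lit 0, nat_lit 0, nat_lit 0, nat_lit 0, nat_lit 0, nat_lit 0, false, false⟩,
 nat_lit 0, nat_lit 25267, nat_lit 0, nat_lit 0, nat_lit 12339, nat_lit 5174, nat_lit 0, nat_lit 0, nat_lit 0, nat_lit 5408, nat_lit 0, nat_lit 0, nat_lit 0, nat_lit 24196547390501, nat_lit 0, nat_lit 0, nat_lit 0, nat_lit 0, [],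
 ⟨p005_k20, nat_lit 0, nat_lit 0, nat_lit 294, nat_lit 0, nat_lit 236409, [nat_lit 6250000000, nat_lit 7968000000], [], [nat_lit 25397368193, nat_lit 25217563748, nat_lit 25268807868, nat_lit 24954139430], nat_lit 1271250, nat_lit 1271250, nat_lit 43600, nat_lit 88400, nat_lit 0, nat_lit 0, [nat_lit 1412500, nat_lit 1271250], [nat_lit 26, nat_lit 40, nat_lit 20, nat_lit 80, nat_lit 2, nat_lit 289, nat_lit 75, nat_lit 10]⟩, ⟨p005_k1, nat_lit 0, nat_lit 0, nat_lit 0, nat_lit 0, nat_lit 0, [nat_lit 3282000000, nat_lit 6250000000, nat_lit 7968000000], [], [nat_lit 17540972524, nat_lit 17869479283, nat_lit 16996588167, nat_lit 17324999583], nat_lit 0, nat_lit 0, nat_lit 0, nat_lit 0, nat_lit 0, nat_lit 0, [], [nat_lit 18, nat_lit 40, nat_lit 20, nat_lit 80]⟩,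
 zbF0, []⟩
noncomputable def b_NL_550_550_0_13 : St := ⟨false, nat_lit 1, nat_lit 0, nat_lit 1, nat_lit 20, nat_lit 223, nat_lit 225, nat_lit 220, nat_lit 225, nat_lit 4, nat_lit 16, nat_lit 0, nat_lit 0, nat_lit 0, nat_lit 0, nat_lit 0, nat_lit 0, nat_lit 0, nat_lit 8, nat_lit 0, nat_lit 0, nat_lit 0, nat_lit 800⟩
theorem d_NL_550_550_0_13 (h : EB TB.env) : Dead b_NL_550_550_0_13 := chkB_sound0 h (T :=
(.spl (nat_lit 2) (nat_lit 8)
(.spl (nat_lit 8) (nat_lit 400)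
(.spl (nat_lit 8) (nat_lit 200)
(.leaf p005_l83)
(.spl (nat_lit 8) (nat_lit 300)
(.spl (nat_lit 6) (nat_lit 4)
(.leaf p005_l84)
(.spl (nat_lit 1) (nat_lit 223)
(.spl (nat_lit 1) (nat_lit 222)
(.leaf p005_l85)
(.leaf p005_l86))
(.leaf p005_l87)))
(.leaf p005_l88)))
(.leaf p005_l89))
(.spl (nat_lit 0) (nat_lit 224)
(.ord (.leaf p005_l90))
(.leaf p005_l91)))) (by decide +kernel)
noncomputable def p005_l92 : Lf2 := ⟨nat_lit 0, nat_lit 1, [nat_lit 19, nat_lit 5, nat_lit 5, nat_lit 20], false, nat_lit 0, nat_lit 0, nat_lit 0, nat_lit 0, ⟨nat_lit 1000, nat_lit 0, nat_lit 0, nat_lit 0, nat_lit 0, nat_lit 0, nat_lit 0, nat_lit 0, nat_lit 0, nat_lit 0, nat_lit 0, nat_lit 0, nat_lit 0, nat_lit 0, nat_lit 0, nat_lit 0, false, false⟩,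
 nat_lit 0, nat_lit 23598, nat_lit 0, nat_lit 0, nat_lit 11584, nat_lit 5309, nat_lit 0, nat_lit 0, nat_lit 0, nat_lit 5944, nat_lit 0, nat_lit 0, nat_lit 0, nat_lit 0, nat_lit 0, nat_lit 0, nat_lit 0, nat_lit 0, [],
 ⟨p005_k21, nat_lit 0, nat_lit 0, nat_lit 300, nat_lit 0, nat_lit 234889, [nat_lit 6250000000, nat_lit 7968000000], [], [nat_lit 26012888685, nat_lit 26058033388, nat_lit 25826955444, nat_lit 24940712025], nat_lit 1271250, nat_lit 1271250, nat_lit 21650, nat_lit 88400, nat_lit 0, nat_lit 0, [nat_lit 1412500, nat_lit 1271250], [nat_lit 26, nat_lit 40, nat_lit 20, nat_lit 80, nat_lit 2, nat_lit 289, nat_lit 75, nat_lit 10]⟩, ⟨p005_k14, nat_lit 0, nat_lit 0, nat_lit 0, nat_lit 0, nat_lit 0, [nat_lit 3282000000, nat_lit 6250000000, nat_lit 7968000000], [], [nat_lit 17497367996, nat_lit 17712564843, nat_lit 16650269731, nat_lit 16872324821], nat_lit 0, nat_lit 0, nat_lit 0, nat_lit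 0, nat_lit 0, nat_lit 0, [], [nat_lit 18, nat_lit 40, nat_lit 20, nat_lit 80]⟩,
 zbF0, [⟨nat_lit 0, nat_lit 100, nat_lit 100, nat_lit 24, nat_lit 1301040688⟩]⟩
noncomputable def p005_l93 : Lf2 := ⟨nat_lit 0, nat_lit 2, [nat_lit 10, nat_lit 5, nat_lit 5, nat_lit 20], true, nat_lit 0, nat_lit 0, nat_lit 0, nat_lit 0, ⟨nat_lit 0, nat_lit 0, nat_lit 1000, nat_lit 5, nat_lit 47, nat_lit 0, nat_lit 0, nat_lit 0, nat_lit 0, nat_lit 215, nat_lit 21600, nat_lit 251, nat_lit 66074655, nat_lit 0, nat_lit 0, nat_lit 364179, false, false⟩,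
 nat_lit 0, nat_lit 9587, nat_lit 0, nat_lit 0, nat_lit 4706, nat_lit 0, nat_lit 213, nat_lit 0, nat_lit 0, nat_lit 0, nat_lit 0, nat_lit 0, nat_lit 0, nat_lit 0, nat_lit 53, nat_lit 1000000, nat_lit 0, nat_lit 0, [(nat_lit 3, [(nat_lit 6, nat_lit 1000)])],
 ⟨p005_k22, nat_lit 0, nat_lit 0, nat_lit 0, nat_lit 0, nat_lit 178336, [nat_lit 1559200001, nat_lit 1418400001, nat_lit 13599999], [], [nat_lit 12947376872, nat_lit 13019746443, nat_lit 12986615414, nat_lit 12739300996], nat_lit 1271250, nat_lit 1271250, nat_lit 21650, nat_lit 88400, nat_lit 0, nat_lit 0, [nat_lit 780000, nat_lit 1435000, nat_lit 1271250], [nat_lit 18, nat_lit 40, nat_lit 20, nat_lit 80]⟩, C1.Rw.none,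
 ⟨nat_lit 6576, nat_lit 6615, ⟨.ofNat (nat_lit 104102), .ofNat (nat_lit 129652), .ofNat (nat_lit 105173), .ofNat (nat_lit 130723), .ofNat (nat_lit 106018), .ofNat (nat_lit 131450), .ofNat (nat_lit 107088), .ofNat (nat_lit 132520)⟩, ⟨.ofNat (nat_lit 0), .ofNat (nat_lit 0), .ofNat (nat_lit 0), .ofNat (nat_lit 0), .ofNat (nat_lit 0), .ofNat (nat_lit 0), .ofNat (nat_lit 0), .ofNat (nat_lit 0)⟩⟩, [⟨nat_lit 0, nat_lit 100, nat_lit 100, nat_lit 24, nat_lit 90358722⟩]⟩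
noncomputable def p005_l94 : Lf2 := ⟨nat_lit 0, nat_lit 2, [nat_lit 10, nat_lit 5, nat_lit 5, nat_lit 20], true, nat_lit 0, nat_lit 0, nat_lit 0, nat_lit 0, ⟨nat_lit 0, nat_lit 0, nat_lit 1000, nat_lit 5, nat_lit 47, nat_lit 0, nat_lit 0, nat_lit 0, nat_lit 0, nat_lit 215, nat_lit 21600, nat_lit 251, nat_lit 66074655, nat_lit 0, nat_lit 0, nat_lit 364179, false, false⟩,
 nat_lit 0, nat_lit 100000, nat_lit 0, nat_lit 0, nat_lit 49090, nat_lit 0, nat_lit 0, nat_lit 5289, nat_lit 0, nat_lit 0, nat_lit 0, nat_lit 0, nat_lit 0, nat_lit 0, nat_lit 0, nat_lit 1000000, nat_lit 0, nat_lit 0, [(nat_lit 3, [(nat_lit 6, nat_lit 1000)])],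
 ⟨p005_k23, nat_lit 0, nat_lit 0, nat_lit 289, nat_lit 0, nat_lit 178336, [nat_lit 106821142858, nat_lit 125675600000], [], [nat_lit 289106435042, nat_lit 289463160408, nat_lit 284181658981, nat_lit 282092895923], nat_lit 1271250, nat_lit 1271250, nat_lit 21650, nat_lit 88400, nat_lit 0, nat_lit 0, [nat_lit 1412500, nat_lit 1271250], [nat_lit 26, nat_lit 40, nat_lit 20, nat_lit 80, nat_lit 2, nat_lit 289, nat_lit 75, nat_lit 10]⟩, C1.Rw.none,
 ⟨nat_lit 6576, nat_lit 6615, ⟨.ofNat (nat_lit 104102), .ofNat (nat_lit 129652), .ofNat (nat_lit 105173), .ofNat (nat_lit 130723), .ofNat (nat_lit 106018), .ofNat (nat_lit 131450), .ofNat (nat_lit 107088), .ofNat (nat_lit 132520)⟩, ⟨.ofNat (nat_lit 0), .ofNat (nat_lit 0), .ofNat (nat_lit 0), .ofNat (nat_lit 0), .ofNat (nat_lit 0), .ofNat (nat_lit 0), .ofNat (nat_lit 0), .ofNat (nat_lit 0)⟩⟩, []⟩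
noncomputable def p005_l95 : Lf2 := ⟨nat_lit 0, nat_lit 2, [nat_lit 10, nat_lit 5, nat_lit 5, nat_lit 20], false, nat_lit 0, nat_lit 0, nat_lit 0, nat_lit 0, ⟨nat_lit 1000, nat_lit 0, nat_lit 0, nat_lit 0, nat_lit 0, nat_lit 0, nat_lit 0, nat_lit 0, nat_lit 0, nat_lit 0, nat_lit 0, nat_lit 0, nat_lit 0, nat_lit 0, nat_lit 0, nat_lit 0, false, false⟩,
 nat_lit 0, nat_lit 22618, nat_lit 0, nat_lit 0, nat_lit 11218, nat_lit 5192, nat_lit 0, nat_lit 0, nat_lit 0, nat_lit 4396, nat_lit 0, nat_lit 0, nat_lit 0, nat_lit 0, nat_lit 0, nat_lit 0, nat_lit 0, nat_lit 0, [],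
 ⟨p005_k24, nat_lit 0, nat_lit 0, nat_lit 288, nat_lit 0, nat_lit 180556, [nat_lit 6250000000, nat_lit 7968000000], [], [nat_lit 25846989850, nat_lit 25867273720, nat_lit 25775967426, nat_lit 25489039928], nat_lit 1271250, nat_lit 1271250, nat_lit 21650, nat_lit 43600, nat_lit 0, nat_lit 0, [nat_lit 1412500, nat_lit 1271250], [nat_lit 26, nat_lit 40, nat_lit 20, nat_lit 80, nat_lit 2, nat_lit 272, nat_lit 60, nat_lit 10]⟩, ⟨p005_k1, nat_lit 0, nat_lit 0, nat_lit 0, nat_lit 0, nat_lit 0, [nat_lit 3282000000, nat_lit 6250000000, nat_lit 7968000000], [], [nat_lit 18671340178, nat_lit 18742071382, nat_lit 18331766626, nat_lit 18397577709], nat_lit 0, nat_lit 0, nat_lit 0, nat_lit 0, nat_lit 0, nat_lit 0, [], [nat_lit 18, nat_lit 40, nat_lit 20, nat_lit 80]⟩,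
 zbF0, [⟨nat_lit 0, nat_lit 100, nat_lit 100, nat_lit 24, nat_lit 1401583353⟩]⟩
noncomputable def p005_l96 : Lf2 := ⟨nat_lit 0, nat_lit 2, [nat_lit 10, nat_lit 5, nat_lit 5, nat_lit 20], false, nat_lit 0, nat_lit 0, nat_lit 0, nat_lit 0, ⟨nat_lit 1000, nat_lit 0, nat_lit 0, nat_lit 0, nat_lit 0, nat_lit 0, nat_lit 0, nat_lit 0, nat_lit 0, nat_lit 0, nat_lit 0, nat_lit 0, nat_lit 0, nat_lit 0, nat_lit 0, nat_lit 0, false, false⟩,
 nat_lit 0, nat_lit 23421, nat_lit 0, nat_lit 0, nat_lit 11616, nat_lit 5192, nat_lit 0, nat_lit 0, nat_lit 0, nat_lit 4563, nat_lit 0, nat_lit 0, nat_lit 0, nat_lit 0, nat_lit 0, nat_lit 0, nat_lit 0, nat_lit 0, [],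
 ⟨p005_k24, nat_lit 0, nat_lit 0, nat_lit 286, nat_lit 0, nat_lit 180556, [nat_lit 6250000000, nat_lit 7968000000], [], [nat_lit 25305397721, nat_lit 25250119984, nat_lit 25243879684, nat_lit 24947210761], nat_lit 1271250, nat_lit 1271250, nat_lit 43600, nat_lit 65850, nat_lit 0, nat_lit 0, [nat_lit 1412500, nat_lit 1271250], [nat_lit 26, nat_lit 40, nat_lit 20, nat_lit 80, nat_lit 2, nat_lit 272, nat_lit 60, nat_lit 10]⟩, ⟨p005_k1, nat_lit 0, nat_lit 0, nat_lit 0, nat_lit 0, nat_lit 0, [nat_lit 3282000000, nat_lit 6250000000, nat_lit 7968000000], [], [nat_lit 18199210376, nat_lit 18265021459, nat_lit 17925897669, nat_lit 17991699321], nat_lit 0, nat_lit 0, nat_lit 0, nat_lit 0, nat_lit 0, nat_lit 0, [], [nat_lit 18, nat_lit 40, nat_lit 20, nat_lit 80]⟩,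
 zbF0, []⟩
noncomputable def p005_l97 : Lf2 := ⟨nat_lit 0, nat_lit 2, [nat_lit 10, nat_lit 5, nat_lit 5, nat_lit 20], false, nat_lit 0, nat_lit 0, nat_lit 0, nat_lit 0, ⟨nat_lit 0, nat_lit 0, nat_lit 1000, nat_lit 5, nat_lit 48, nat_lit 0, nat_lit 0, nat_lit 0, nat_lit 0, nat_lit 215, nat_lit 21600, nat_lit 251, nat_lit 66053085, nat_lit 0, nat_lit 0, nat_lit 371037, false, false⟩,
 nat_lit 0, nat_lit 4748, nat_lit 0, nat_lit 100000, nat_lit 2354, nat_lit 100000, nat_lit 0, nat_lit 0, nat_lit 0, nat_lit 19891, nat_lit 5093, nat_lit 0, nat_lit 0, nat_lit 0, nat_lit 53, nat_lit 1000000, nat_lit 0, nat_lit 0, [(nat_lit 3, [(nat_lit 6, nat_lit 1000)])],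
 ⟨p005_k24, nat_lit 0, nat_lit 0, nat_lit 286, nat_lit 0, nat_lit 180556, [nat_lit 2101142858, nat_lit 11600000], [], [nat_lit 20629621772, nat_lit 20569412525, nat_lit 20688119063, nat_lit 20627998657], nat_lit 1271250, nat_lit 1271250, nat_lit 43600, nat_lit 65850, nat_lit 0, nat_lit 0, [nat_lit 1412500, nat_lit 1271250], [nat_lit 26, nat_lit 40, nat_lit 20, nat_lit 80, nat_lit 2, nat_lit 272, nat_lit 60, nat_lit 10]⟩, ⟨p005_k0, nat_lit 0, nat_lit 0, nat_lit 0, nat_lit 0, nat_lit 0, [nat_lit 101860000000, nat_lit 122232000000], [], [nat_lit 145945038750, nat_lit 146427170750, nat_lit 139899398750, nat_lit 140375800750], nat_lit 0, nat_lit 0, nat_lit 0, nat_lit 0, nat_lit 0, nat_lit 0, [], [nat_lit 26, nat_lit 40, nat_lit 20, nat_lit 80]⟩,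
 ⟨nat_lit 6557, nat_lit 6577, ⟨.ofNat (nat_lit 114495), .ofNat (nat_lit 122972), .ofNat (nat_lit 115566), .ofNat (nat_lit 124043), .ofNat (nat_lit 115430), .ofNat (nat_lit 123888), .ofNat (nat_lit 116501), .ofNat (nat_lit 124958)⟩, ⟨.ofNat (nat_lit 0), .ofNat (nat_lit 0), .ofNat (nat_lit 0), .ofNat (nat_lit 0), .ofNat (nat_lit 0), .ofNat (nat_lit 0), .ofNat (nat_lit 0), .ofNat (nat_lit 0)⟩⟩, []⟩
noncomputable def p005_l98 : Lf2 := ⟨nat_lit 0, nat_lit 2, [nat_lit 10, nat_lit 5, nat_lit 5, nat_lit 20], false, nat_lit 0, nat_lit 0, nat_lit 0, nat_lit 0, ⟨nat_lit 1000, nat_lit 0, nat_lit 0, nat_lit 0, nat_lit 0, nat_lit 0, nat_lit 0, nat_lit 0, nat_lit 0, nat_lit 0, nat_lit 0, nat_lit 0, nat_lit 0, nat_lit 0, nat_lit 0, nat_lit 0, false, false⟩,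
 nat_lit 0, nat_lit 24392, nat_lit 0, nat_lit 0, nat_lit 12098, nat_lit 10792, nat_lit 0, nat_lit 0, nat_lit 0, nat_lit 4761, nat_lit 0, nat_lit 0, nat_lit 0, nat_lit 0, nat_lit 0, nat_lit 0, nat_lit 0, nat_lit 0, [],
 ⟨p005_k24, nat_lit 0, nat_lit 0, nat_lit 284, nat_lit 0, nat_lit 180556, [nat_lit 6250000000, nat_lit 7968000000], [], [nat_lit 24667748092, nat_lit 24604766895, nat_lit 24615701986, nat_lit 24307179516], nat_lit 1271250, nat_lit 1271250, nat_lit 65850, nat_lit 88400, nat_lit 0, nat_lit 0, [nat_lit 1412500, nat_lit 1271250], [nat_lit 26, nat_lit 40, nat_lit 20, nat_lit 80, nat_lit 2, nat_lit 289, nat_lit 75, nat_lit 10]⟩, ⟨p005_k0, nat_lit 0, nat_lit 0, nat_lit 0, nat_lit 0, nat_lit 0, [nat_lit 6250000000, nat_lit 7968000000], [], [nat_lit 19555560420, nat_lit 19638879604, nat_lit 18951296551, nat_lit 19034640841], nat_lit 0, nat_lit 0, nat_lit 0, nat_lit 0, nat_lit 0,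 nat_lit 0, [], [nat_lit 26, nat_lit 40, nat_lit 20, nat_lit 80]⟩,
 zbF0, []⟩
noncomputable def p005_l99 : Lf2 := ⟨nat_lit 0, nat_lit 2, [nat_lit 10, nat_lit 5, nat_lit 5, nat_lit 20], true, nat_lit 0, nat_lit 0, nat_lit 0, nat_lit 0, ⟨nat_lit 0, nat_lit 0, nat_lit 1000, nat_lit 5, nat_lit 44, nat_lit 0, nat_lit 0, nat_lit 0, nat_lit 0, nat_lit 215, nat_lit 18150, nat_lit 248, nat_lit 66192634, nat_lit 0, nat_lit 0, nat_lit 325971, false, false⟩,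
 nat_lit 0, nat_lit 9622, nat_lit 0, nat_lit 0, nat_lit 4723, nat_lit 0, nat_lit 209, nat_lit 0, nat_lit 0, nat_lit 0, nat_lit 0, nat_lit 0, nat_lit 0, nat_lit 0, nat_lit 53, nat_lit 1000000, nat_lit 0, nat_lit 0, [(nat_lit 3, [(nat_lit 6, nat_lit 1000)])],
 ⟨p005_k22, nat_lit 0, nat_lit 0, nat_lit 0, nat_lit 0, nat_lit 178071, [nat_lit 1559200001, nat_lit 1418400001, nat_lit 13599999], [], [nat_lit 12923736414, nat_lit 12960313006, nat_lit 12929674072, nat_lit 12805191378], nat_lit 1271250, nat_lit 1271250, nat_lit 21650, nat_lit 43600, nat_lit 0, nat_lit 0, [nat_lit 780000, nat_lit 1435000, nat_lit 1271250], [nat_lit 18, nat_lit 40, nat_lit 20, nat_lit 80]⟩, C1.Rw.none,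
 ⟨nat_lit 6595, nat_lit 6615, ⟨.ofNat (nat_lit 105173), .ofNat (nat_lit 113689), .ofNat (nat_lit 106244), .ofNat (nat_lit 114760), .ofNat (nat_lit 106132), .ofNat (nat_lit 114629), .ofNat (nat_lit 107202), .ofNat (nat_lit 115699)⟩, ⟨.ofNat (nat_lit 0), .ofNat (nat_lit 0), .ofNat (nat_lit 0), .ofNat (nat_lit 0), .ofNat (nat_lit 0), .ofNat (nat_lit 0), .ofNat (nat_lit 0), .ofNat (nat_lit 0)⟩⟩, [⟨nat_lit 0, nat_lit 100, nat_lit 100, nat_lit 24, nat_lit 98252897⟩]⟩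
noncomputable def p005_l100 : Lf2 := ⟨nat_lit 0, nat_lit 2, [nat_lit 10, nat_lit 5, nat_lit 5, nat_lit 20], true, nat_lit 0, nat_lit 0, nat_lit 0, nat_lit 0, ⟨nat_lit 0, nat_lit 0, nat_lit 1000, nat_lit 5, nat_lit 44, nat_lit 0, nat_lit 0, nat_lit 0, nat_lit 0, nat_lit 215, nat_lit 18150, nat_lit 248, nat_lit 66192634, nat_lit 0, nat_lit 0, nat_lit 325971, false, false⟩,
 nat_lit 0, nat_lit 100000, nat_lit 0, nat_lit 0, nat_lit 49090, nat_lit 0, nat_lit 0, nat_lit 4112, nat_lit 0, nat_lit 0, nat_lit 0, nat_lit 0, nat_lit 0, nat_lit 0, nat_lit 0, nat_lit 1000000, nat_lit 0, nat_lit 0, [(nat_lit 3, [(nat_lit 6, nat_lit 1000)])],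
 ⟨p005_k23, nat_lit 0, nat_lit 0, nat_lit 289, nat_lit 0, nat_lit 178071, [nat_lit 83281142858, nat_lit 97427600000], [], [nat_lit 215214073072, nat_lit 213956797725, nat_lit 214603160375, nat_lit 213347564828], nat_lit 1271250, nat_lit 1271250, nat_lit 21650, nat_lit 43600, nat_lit 0, nat_lit 0, [nat_lit 1412500, nat_lit 1271250], [nat_lit 26, nat_lit 40, nat_lit 20, nat_lit 80, nat_lit 2, nat_lit 272, nat_lit 60, nat_lit 10]⟩, C1.Rw.none,
 ⟨nat_lit 6595, nat_lit 6615, ⟨.ofNat (nat_lit 105173), .ofNat (nat_lit 113689), .ofNat (nat_lit 106244), .ofNat (nat_lit 114760), .ofNat (nat_lit 106132), .ofNat (nat_lit 114629), .ofNat (nat_lit 107202), .ofNat (nat_lit 115699)⟩, ⟨.ofNat (nat_lit 0), .ofNat (nat_lit 0), .ofNat (nat_lit 0), .ofNat (nat_lit 0), .ofNat (nat_lit 0), .ofNat (nat_lit 0), .ofNat (nat_lit 0), .ofNat (nat_lit 0)⟩⟩, [⟨nat_lit 13, nat_lit 100, nat_lit 2, nat_lit 100, nat_lit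 53205052⟩]⟩
noncomputable def p005_l101 : Lf2 := ⟨nat_lit 0, nat_lit 2, [nat_lit 10, nat_lit 5, nat_lit 5, nat_lit 20], false, nat_lit 0, nat_lit 0, nat_lit 0, nat_lit 0, ⟨nat_lit 1000, nat_lit 0, nat_lit 0, nat_lit 0, nat_lit 0, nat_lit 0, nat_lit 0, nat_lit 0, nat_lit 0, nat_lit 0, nat_lit 0, nat_lit 0, nat_lit 0, nat_lit 0, nat_lit 0, nat_lit 0, false, false⟩,
 nat_lit 0, nat_lit 24724, nat_lit 0, nat_lit 0, nat_lit 12137, nat_lit 5188, nat_lit 0, nat_lit 0, nat_lit 0, nat_lit 5352, nat_lit 0, nat_lit 0, nat_lit 0, nat_lit 0, nat_lit 0, nat_lit 0, nat_lit 0, nat_lit 0, [],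
 ⟨p005_k23, nat_lit 0, nat_lit 0, nat_lit 287, nat_lit 0, nat_lit 178071, [nat_lit 6250000000, nat_lit 7968000000], [], [nat_lit 25310266990, nat_lit 25248525664, nat_lit 25241081828, nat_lit 24931106732], nat_lit 1271250, nat_lit 1271250, nat_lit 43600, nat_lit 65850, nat_lit 0, nat_lit 0, [nat_lit 1412500, nat_lit 1271250], [nat_lit 26, nat_lit 40, nat_lit 20, nat_lit 80, nat_lit 2, nat_lit 272, nat_lit 60, nat_lit 10]⟩, ⟨p005_k5, nat_lit 0, nat_lit 0, nat_lit 0, nat_lit 0, nat_lit 0, [nat_lit 3282000000, nat_lit 6250000000, nat_lit 7968000000], [], [nat_lit 17407351857, nat_lit 17473138555, nat_lit 17134278703, nat_lit 17200293771], nat_lit 0, nat_lit 0, nat_lit 0, nat_lit 0, nat_lit 0, nat_lit 0, [], [nat_lit 18, nat_lit 40, nat_lit 20, nat_lit 80]⟩,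
 zbF0, []⟩
noncomputable def p005_l102 : Lf2 := ⟨nat_lit 0, nat_lit 2, [nat_lit 10, nat_lit 5, nat_lit 5, nat_lit 20], false, nat_lit 0, nat_lit 0, nat_lit 0, nat_lit 0, ⟨nat_lit 0, nat_lit 0, nat_lit 1000, nat_lit 5, nat_lit 48, nat_lit 0, nat_lit 0, nat_lit 0, nat_lit 0, nat_lit 215, nat_lit 21600, nat_lit 251, nat_lit 66065271, nat_lit 0, nat_lit 0, nat_lit 367169, false, false⟩,
 nat_lit 0, nat_lit 0, nat_lit 0, nat_lit 100000, nat_lit 0, nat_lit 100000, nat_lit 0, nat_lit 0, nat_lit 0, nat_lit 49167, nat_lit 5102, nat_lit 0, nat_lit 0, nat_lit 0, nat_lit 53, nat_lit 1000000, nat_lit 0, nat_lit 0, [(nat_lit 3, [(nat_lit 6, nat_lit 1000)])],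
 ⟨p005_k23, nat_lit 0, nat_lit 0, nat_lit 287, nat_lit 0, nat_lit 178071, [nat_lit 2101142858, nat_lit 11600000], [], [nat_lit 23412840574, nat_lit 23412840574, nat_lit 23501840574, nat_lit 23501840574], nat_lit 1271250, nat_lit 1271250, nat_lit 43600, nat_lit 65850, nat_lit 0, nat_lit 0, [nat_lit 1412500, nat_lit 1271250], [nat_lit 26, nat_lit 40, nat_lit 20, nat_lit 80, nat_lit 2, nat_lit 272, nat_lit 60, nat_lit 10]⟩, ⟨p005_k4, nat_lit 0, nat_lit 0, nat_lit 0, nat_lit 0, nat_lit 0, [nat_lit 102040000000, nat_lit 122448000000], [], [nat_lit 121427985501, nat_lit 121923540000, nat_lit 115382919500, nat_lit 115859321500], nat_lit 0, nat_lit 0, nat_lit 0, nat_lit 0, nat_lit 0, nat_lit 0, [], [nat_lit 26, nat_lit 40, nat_lit 20, nat_lit 80]⟩,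
 ⟨nat_lit 6595, nat_lit 6615, ⟨.ofNat (nat_lit 113689), .ofNat (nat_lit 122206), .ofNat (nat_lit 114760), .ofNat (nat_lit 123277), .ofNat (nat_lit 114629), .ofNat (nat_lit 123126), .ofNat (nat_lit 115699), .ofNat (nat_lit 124196)⟩, ⟨.ofNat (nat_lit 0), .ofNat (nat_lit 0), .ofNat (nat_lit 0), .ofNat (nat_lit 0), .ofNat (nat_lit 0), .ofNat (nat_lit 0), .ofNat (nat_lit 0), .ofNat (nat_lit 0)⟩⟩, [⟨nat_lit 13, nat_lit 100, nat_lit 2, nat_lit 100, nat_lit 5868239⟩]⟩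
noncomputable def p005_l103 : Lf2 := ⟨nat_lit 0, nat_lit 2, [nat_lit 10, nat_lit 5, nat_lit 5, nat_lit 20], false, nat_lit 0, nat_lit 0, nat_lit 0, nat_lit 0, ⟨nat_lit 1000, nat_lit 0, nat_lit 0, nat_lit 0, nat_lit 0, nat_lit 0, nat_lit 0, nat_lit 0, nat_lit 0, nat_lit 0, nat_lit 0, nat_lit 0, nat_lit 0, nat_lit 0, nat_lit 0, nat_lit 0, false, false⟩,
 nat_lit 0, nat_lit 25787, nat_lit 0, nat_lit 0, nat_lit 12659, nat_lit 10533, nat_lit 0, nat_lit 0, nat_lit 0, nat_lit 5055, nat_lit 0, nat_lit 0, nat_lit 0, nat_lit 0, nat_lit 0, nat_lit 0, nat_lit 0, nat_lit 0, [],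
 ⟨p005_k23, nat_lit 0, nat_lit 0, nat_lit 285, nat_lit 0, nat_lit 178071, [nat_lit 6250000000, nat_lit 7968000000], [], [nat_lit 24643801911, nat_lit 24571804765, nat_lit 24584204166, nat_lit 24261375108], nat_lit 1271250, nat_lit 1271250, nat_lit 65850, nat_lit 88400, nat_lit 0, nat_lit 0, [nat_lit 1412500, nat_lit 1271250], [nat_lit 26, nat_lit 40, nat_lit 20, nat_lit 80, nat_lit 2, nat_lit 289, nat_lit 75, nat_lit 10]⟩, ⟨p005_k4, nat_lit 0, nat_lit 0, nat_lit 0, nat_lit 0, nat_lit 0, [nat_lit 6250000000, nat_lit 7968000000], [], [nat_lit 19360293644, nat_lit 19442378946, nat_lit 18771711602, nat_lit 18853820524], nat_lit 0, nat_lit 0, nat_lit 0, nat_lit 0, nat_lit 0, nat_lit 0, [], [nat_lit 26, nat_lit 40, nat_lit 20, nat_lit 80]⟩,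
 zbF0, []⟩
noncomputable def p005_l104 : Lf2 := ⟨nat_lit 0, nat_lit 2, [nat_lit 10, nat_lit 5, nat_lit 5, nat_lit 20], false, nat_lit 0, nat_lit 0, nat_lit 0, nat_lit 0, ⟨nat_lit 1000, nat_lit 0, nat_lit 0, nat_lit 0, nat_lit 0, nat_lit 0, nat_lit 0, nat_lit 0, nat_lit 0, nat_lit 0, nat_lit 0, nat_lit 0, nat_lit 0, nat_lit 0, nat_lit 0, nat_lit 0, false, false⟩,
 nat_lit 0, nat_lit 23217, nat_lit 0, nat_lit 0, nat_lit 11456, nat_lit 5188, nat_lit 0, nat_lit 0, nat_lit 0, nat_lit 5352, nat_lit 0, nat_lit 0, nat_lit 0, nat_lit 0, nat_lit 0, nat_lit 0, nat_lit 0, nat_lit 0, [],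
 ⟨p005_k25, nat_lit 0, nat_lit 0, nat_lit 288, nat_lit 0, nat_lit 181226, [nat_lit 6250000000, nat_lit 7968000000], [], [nat_lit 25862410731, nat_lit 25878910521, nat_lit 25787586395, nat_lit 25494571472], nat_lit 1271250, nat_lit 1271250, nat_lit 21650, nat_lit 43600, nat_lit 0, nat_lit 0, [nat_lit 1412500, nat_lit 1271250], [nat_lit 26, nat_lit 40, nat_lit 20, nat_lit 80, nat_lit 2, nat_lit 272, nat_lit 60, nat_lit 10]⟩, ⟨p005_k5, nat_lit 0, nat_lit 0, nat_lit 0, nat_lit 0, nat_lit 0, [nat_lit 3282000000, nat_lit 6250000000, nat_lit 7968000000], [], [nat_lit 17747197876, nat_lit 17817902465, nat_lit 17407351857, nat_lit 17473138555], nat_lit 0, nat_lit 0, nat_lit 0, nat_lit 0, nat_lit 0, nat_lit 0, [], [nat_lit 18, nat_lit 40, nat_lit 20, nat_lit 80]⟩,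
 zbF0, [⟨nat_lit 0, nat_lit 100, nat_lit 100, nat_lit 24, nat_lit 1405837001⟩]⟩
noncomputable def p005_l105 : Lf2 := ⟨nat_lit 0, nat_lit 2, [nat_lit 10, nat_lit 5, nat_lit 5, nat_lit 20], false, nat_lit 0, nat_lit 0, nat_lit 0, nat_lit 0, ⟨nat_lit 1000, nat_lit 0, nat_lit 0, nat_lit 0, nat_lit 0, nat_lit 0, nat_lit 0, nat_lit 0, nat_lit 0, nat_lit 0, nat_lit 0, nat_lit 0, nat_lit 0, nat_lit 0, nat_lit 0, nat_lit 0, false, false⟩,
 nat_lit 0, nat_lit 24058, nat_lit 0, nat_lit 0, nat_lit 11871, nat_lit 5188, nat_lit 0, nat_lit 0, nat_lit 0, nat_lit 5352, nat_lit 0, nat_lit 0, nat_lit 0, nat_lit 0, nat_lit 0, nat_lit 0, nat_lit 0, nat_lit 0, [],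
 ⟨p005_k25, nat_lit 0, nat_lit 0, nat_lit 286, nat_lit 0, nat_lit 181226, [nat_lit 6250000000, nat_lit 7968000000], [], [nat_lit 25307531610, nat_lit 25248641357, nat_lit 25192436224, nat_lit 24889702694], nat_lit 1271250, nat_lit 1271250, nat_lit 43600, nat_lit 88400, nat_lit 0, nat_lit 0, [nat_lit 1412500, nat_lit 1271250], [nat_lit 26, nat_lit 40, nat_lit 20, nat_lit 80, nat_lit 2, nat_lit 289, nat_lit 75, nat_lit 10]⟩, ⟨p005_k5, nat_lit 0, nat_lit 0, nat_lit 0, nat_lit 0, nat_lit 0, [nat_lit 3282000000, nat_lit 6250000000, nat_lit 7968000000], [], [nat_lit 17407351857, nat_lit 17473138555, nat_lit 16861205549, nat_lit 16927789405], nat_lit 0, nat_lit 0, nat_lit 0, nat_lit 0, nat_lit 0, nat_lit 0, [], [nat_lit 18, nat_lit 40, nat_lit 20, nat_lit 80]⟩,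
 zbF0, []⟩
noncomputable def p005_l106 : Lf2 := ⟨nat_lit 0, nat_lit 2, [nat_lit 10, nat_lit 5, nat_lit 5, nat_lit 20], false, nat_lit 0, nat_lit 0, nat_lit 0, nat_lit 0, ⟨nat_lit 1000, nat_lit 0, nat_lit 0, nat_lit 0, nat_lit 0, nat_lit 0, nat_lit 0, nat_lit 0, nat_lit 0, nat_lit 0, nat_lit 0, nat_lit 0, nat_lit 0, nat_lit 0, nat_lit 0, nat_lit 0, false, false⟩,
 nat_lit 0, nat_lit 22622, nat_lit 0, nat_lit 0, nat_lit 11220, nat_lit 5188, nat_lit 0, nat_lit 0, nat_lit 0, nat_lit 5352, nat_lit 0, nat_lit 0, nat_lit 0, nat_lit 0, nat_lit 0, nat_lit 0, nat_lit 0, nat_lit 0, [],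
 ⟨p005_k24, nat_lit 0, nat_lit 0, nat_lit 288, nat_lit 0, nat_lit 184347, [nat_lit 6250000000, nat_lit 7968000000], [], [nat_lit 25844653494, nat_lit 25868316122, nat_lit 25773602754, nat_lit 25486624101], nat_lit 1271250, nat_lit 1271250, nat_lit 21650, nat_lit 43600, nat_lit 0, nat_lit 0, [nat_lit 1412500, nat_lit 1271250], [nat_lit 26, nat_lit 40, nat_lit 20, nat_lit 80, nat_lit 2, nat_lit 272, nat_lit 60, nat_lit 10]⟩, ⟨p005_k5, nat_lit 0, nat_lit 0, nat_lit 0, nat_lit 0, nat_lit 0, [nat_lit 3282000000, nat_lit 6250000000, nat_lit 7968000000], [], [nat_lit 17747197876, nat_lit 17817902465, nat_lit 17407351857, nat_lit 17473138555], nat_lit 0, nat_lit 0, nat_lit 0, nat_lit 0, nat_lit 0, nat_lit 0, [], [nat_lit 18, nat_lit 40, nat_lit 20, nat_lit 80]⟩,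
 zbF0, [⟨nat_lit 0, nat_lit 100, nat_lit 100, nat_lit 25, nat_lit 1399181388⟩]⟩
noncomputable def p005_l107 : Lf2 := ⟨nat_lit 0, nat_lit 2, [nat_lit 10, nat_lit 5, nat_lit 5, nat_lit 20], false, nat_lit 0, nat_lit 0, nat_lit 0, nat_lit 0, ⟨nat_lit 1000, nat_lit 0, nat_lit 0, nat_lit 0, nat_lit 0, nat_lit 0, nat_lit 0, nat_lit 0, nat_lit 0, nat_lit 0, nat_lit 0, nat_lit 0, nat_lit 0, nat_lit 0, nat_lit 0, nat_lit 0, false, false⟩,
 nat_lit 0, nat_lit 23422, nat_lit 0, nat_lit 0, nat_lit 11616, nat_lit 5188, nat_lit 0, nat_lit 0, nat_lit 0, nat_lit 5352, nat_lit 0, nat_lit 0, nat_lit 0, nat_lit 0, nat_lit 0, nat_lit 0, nat_lit 0, nat_lit 0, [],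
 ⟨p005_k24, nat_lit 0, nat_lit 0, nat_lit 286, nat_lit 0, nat_lit 184347, [nat_lit 6250000000, nat_lit 7968000000], [], [nat_lit 25305397721, nat_lit 25250119984, nat_lit 25243879684, nat_lit 24947210761], nat_lit 1271250, nat_lit 1271250, nat_lit 43600, nat_lit 65850, nat_lit 0, nat_lit 0, [nat_lit 1412500, nat_lit 1271250], [nat_lit 26, nat_lit 40, nat_lit 20, nat_lit 80, nat_lit 2, nat_lit 272, nat_lit 60, nat_lit 10]⟩, ⟨p005_k5, nat_lit 0, nat_lit 0, nat_lit 0, nat_lit 0, nat_lit 0, [nat_lit 3282000000, nat_lit 6250000000, nat_lit 7968000000], [], [nat_lit 17407351857, nat_lit 17473138555, nat_lit 17134278703, nat_lit 17200293771], nat_lit 0, nat_lit 0, nat_lit 0, nat_lit 0, nat_lit 0, nat_lit 0, [], [nat_lit 18, nat_lit 40, nat_lit 20, nat_lit 80]⟩,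
 zbF0, []⟩
noncomputable def p005_l108 : Lf2 := ⟨nat_lit 0, nat_lit 2, [nat_lit 10, nat_lit 5, nat_lit 5, nat_lit 20], false, nat_lit 0, nat_lit 0, nat_lit 0, nat_lit 0, ⟨nat_lit 1000, nat_lit 0, nat_lit 0, nat_lit 0, nat_lit 0, nat_lit 0, nat_lit 0, nat_lit 0, nat_lit 0, nat_lit 0, nat_lit 0, nat_lit 0, nat_lit 0, nat_lit 0, nat_lit 0, nat_lit 0, false, false⟩,
 nat_lit 0, nat_lit 100000, nat_lit 0, nat_lit 0, nat_lit 11469, nat_lit 100000, nat_lit 0, nat_lit 0, nat_lit 0, nat_lit 57158, nat_lit 4192, nat_lit 0, nat_lit 0, nat_lit 0, nat_lit 0, nat_lit 0, nat_lit 0, nat_lit 0, [],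
 ⟨p005_k24, nat_lit 0, nat_lit 0, nat_lit 286, nat_lit 0, nat_lit 184347, [nat_lit 6250000000, nat_lit 7968000000], [], [nat_lit 25479201105, nat_lit 25185853675, nat_lit 25419587867, nat_lit 25126673277], nat_lit 1271250, nat_lit 1271250, nat_lit 43600, nat_lit 65850, nat_lit 0, nat_lit 0, [nat_lit 1412500, nat_lit 1271250], [nat_lit 26, nat_lit 40, nat_lit 20, nat_lit 80, nat_lit 2, nat_lit 272, nat_lit 60, nat_lit 10]⟩, ⟨p005_k4, nat_lit 0, nat_lit 0, nat_lit 0, nat_lit 0, nat_lit 0, [nat_lit 90090000000, nat_lit 108576000000], [], [nat_lit 112630833340, nat_lit 113235352680, nat_lit 106615405661, nat_lit 107220305321], nat_lit 0, nat_lit 0, nat_lit 0, nat_lit 0, nat_lit 0, nat_lit 0, [], [nat_lit 26, nat_lit 40, nat_lit 20, nat_lit 80]⟩,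
 zbF0, []⟩
noncomputable def p005_l109 : Lf2 := ⟨nat_lit 0, nat_lit 2, [nat_lit 10, nat_lit 5, nat_lit 5, nat_lit 20], false, nat_lit 0, nat_lit 0, nat_lit 0, nat_lit 0, ⟨nat_lit 1000, nat_lit 0, nat_lit 0, nat_lit 0, nat_lit 0, nat_lit 0, nat_lit 0, nat_lit 0, nat_lit 0, nat_lit 0, nat_lit 0, nat_lit 0, nat_lit 0, nat_lit 0, nat_lit 0, nat_lit 0, false, false⟩,
 nat_lit 0, nat_lit 24391, nat_lit 0, nat_lit 0, nat_lit 12097, nat_lit 10657, nat_lit 0, nat_lit 0, nat_lit 0, nat_lit 4761, nat_lit 0, nat_lit 0, nat_lit 0, nat_lit 0, nat_lit 0, nat_lit 0, nat_lit 0, nat_lit 0, [],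
 ⟨p005_k24, nat_lit 0, nat_lit 0, nat_lit 284, nat_lit 0, nat_lit 184347, [nat_lit 6250000000, nat_lit 7968000000], [], [nat_lit 24668943386, nat_lit 24604395031, nat_lit 24616909037, nat_lit 24308412069], nat_lit 1271250, nat_lit 1271250, nat_lit 65850, nat_lit 88400, nat_lit 0, nat_lit 0, [nat_lit 1412500, nat_lit 1271250], [nat_lit 26, nat_lit 40, nat_lit 20, nat_lit 80, nat_lit 2, nat_lit 289, nat_lit 75, nat_lit 10]⟩, ⟨p005_k4, nat_lit 0, nat_lit 0, nat_lit 0, nat_lit 0, nat_lit 0, [nat_lit 6250000000, nat_lit 7968000000], [], [nat_lit 19522288273, nat_lit 19604964314, nat_lit 18926210350, nat_lit 19008910722], nat_lit 0, nat_lit 0, nat_lit 0, nat_lit 0, nat_lit 0, nat_lit 0, [], [nat_lit 26, nat_lit 40, nat_lit 20, nat_lit 80]⟩,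
 zbF0, []⟩
noncomputable def p005_l110 : Lf2 := ⟨nat_lit 0, nat_lit 2, [nat_lit 10, nat_lit 5, nat_lit 5, nat_lit 20], true, nat_lit 0, nat_lit 0, nat_lit 0, nat_lit 0, ⟨nat_lit 0, nat_lit 0, nat_lit 1000, nat_lit 5, nat_lit 48, nat_lit 0, nat_lit 0, nat_lit 0, nat_lit 0, nat_lit 215, nat_lit 21600, nat_lit 251, nat_lit 66041348, nat_lit 0, nat_lit 0, nat_lit 374753, false, false⟩,
 nat_lit 0, nat_lit 0, nat_lit 0, nat_lit 0, nat_lit 0, nat_lit 0, nat_lit 0, nat_lit 0, nat_lit 292, nat_lit 0, nat_lit 0, nat_lit 0, nat_lit 0, nat_lit 0, nat_lit 53, nat_lit 1000000, nat_lit 0, nat_lit 0, [(nat_lit 3, [(nat_lit 6, nat_lit 1000)])],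
 ⟨p005_k23, nat_lit 0, nat_lit 0, nat_lit 0, nat_lit 0, nat_lit 186046, [nat_lit 2101142858, nat_lit 11600000], [], [nat_lit 5671732658, nat_lit 5747551619, nat_lit 5813113616, nat_lit 5879806798], nat_lit 1271250, nat_lit 1271250, nat_lit 21650, nat_lit 88400, nat_lit 0, nat_lit 0, [nat_lit 1412500, nat_lit 1271250], [nat_lit 26, nat_lit 40, nat_lit 20, nat_lit 80]⟩, C1.Rw.none,
 ⟨nat_lit 6576, nat_lit 6615, ⟨.ofNat (nat_lit 106244), .ofNat (nat_lit 131794), .ofNat (nat_lit 107315), .ofNat (nat_lit 132864), .ofNat (nat_lit 108159), .ofNat (nat_lit 133591), .ofNat (nat_lit 109229), .ofNat (nat_lit 134661)⟩, ⟨.ofNat (nat_lit 0), .ofNat (nat_lit 0), .ofNat (nat_lit 0), .ofNat (nat_lit 0), .ofNat (nat_lit 0), .ofNat (nat_lit 0), .ofNat (nat_lit 0), .ofNat (nat_lit 0)⟩⟩, [⟨nat_lit 0, nat_lit 100, nat_lit 100, nat_lit 24, nat_lit 45216787⟩]⟩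
noncomputable def p005_l111 : Lf2 := ⟨nat_lit 0, nat_lit 2, [nat_lit 10, nat_lit 5, nat_lit 5, nat_lit 20], true, nat_lit 0, nat_lit 0, nat_lit 0, nat_lit 0, ⟨nat_lit 0, nat_lit 0, nat_lit 1000, nat_lit 5, nat_lit 48, nat_lit 0, nat_lit 0, nat_lit 0, nat_lit 0, nat_lit 215, nat_lit 21600, nat_lit 251, nat_lit 66041348, nat_lit 0, nat_lit 0, nat_lit 374753, false, false⟩,
 nat_lit 0, nat_lit 9691, nat_lit 0, nat_lit 0, nat_lit 4757, nat_lit 0, nat_lit 256, nat_lit 0, nat_lit 0, nat_lit 0, nat_lit 0, nat_lit 0, nat_lit 0, nat_lit 0, nat_lit 53, nat_lit 1000000, nat_lit 0, nat_lit 0, [(nat_lit 3, [(nat_lit 6, nat_lit 1000)])],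
 ⟨p005_k22, nat_lit 0, nat_lit 0, nat_lit 0, nat_lit 0, nat_lit 186046, [nat_lit 1559200001, nat_lit 1418400001, nat_lit 13599999], [], [nat_lit 12876455497, nat_lit 12949723551, nat_lit 12913225735, nat_lit 12663231114], nat_lit 1271250, nat_lit 1271250, nat_lit 21650, nat_lit 88400, nat_lit 0, nat_lit 0, [nat_lit 780000, nat_lit 1435000, nat_lit 1271250], [nat_lit 18, nat_lit 40, nat_lit 20, nat_lit 80]⟩, C1.Rw.none,
 ⟨nat_lit 6576, nat_lit 6615, ⟨.ofNat (nat_lit 106244), .ofNat (nat_lit 131794), .ofNat (nat_lit 107315), .ofNat (nat_lit 132864), .ofNat (nat_lit 108159), .ofNat (nat_lit 133591), .ofNat (nat_lit 109229), .ofNat (nat_lit 134661)⟩, ⟨.ofNat (nat_lit 0), .ofNat (nat_lit 0), .ofNat (nat_lit 0), .ofNat (nat_lit 0), .ofNat (nat_lit 0), .ofNat (nat_lit 0), .ofNat (nat_lit 0), .ofNat (nat_lit 0)⟩⟩, [⟨nat_lit 0, nat_lit 100, nat_lit 100, nat_lit 24, nat_lit 91791103⟩]⟩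
noncomputable def p005_l112 : Lf2 := ⟨nat_lit 0, nat_lit 2, [nat_lit 10, nat_lit 5, nat_lit 5, nat_lit 20], false, nat_lit 0, nat_lit 0, nat_lit 0, nat_lit 0, ⟨nat_lit 1000, nat_lit 0, nat_lit 0, nat_lit 0, nat_lit 0, nat_lit 0, nat_lit 0, nat_lit 0, nat_lit 0, nat_lit 0, nat_lit 0, nat_lit 0, nat_lit 0, nat_lit 0, nat_lit 0, nat_lit 0, false, false⟩,
 nat_lit 0, nat_lit 100000, nat_lit 0, nat_lit 0, nat_lit 49090, nat_lit 9721, nat_lit 14730, nat_lit 443, nat_lit 0, nat_lit 5724, nat_lit 0, nat_lit 0, nat_lit 0, nat_lit 0, nat_lit 0, nat_lit 0, nat_lit 0, nat_lit 0, [],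
 ⟨p005_k23, nat_lit 0, nat_lit 0, nat_lit 0, nat_lit 0, nat_lit 186046, [nat_lit 15110000001, nat_lit 18600000000], [], [nat_lit 10700644501, nat_lit 9596525305, nat_lit 9048230410, nat_lit 6544449941], nat_lit 1271250, nat_lit 1271250, nat_lit 21650, nat_lit 88400, nat_lit 0, nat_lit 0, [nat_lit 1412500, nat_lit 1271250], [nat_lit 26, nat_lit 40, nat_lit 20, nat_lit 80]⟩, ⟨p005_k7, nat_lit 0, nat_lit 0, nat_lit 0, nat_lit 0, nat_lit 0, [nat_lit 6250000000, nat_lit 7968000000], [], [nat_lit 20276212927, nat_lit 20354391928, nat_lit 18657781485, nat_lit 18736017362], nat_lit 0, nat_lit 0, nat_lit 0, nat_lit 0, nat_lit 0, nat_lit 0, [], [nat_lit 26, nat_lit 40, nat_lit 20, nat_lit 80]⟩,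
 zbF0, [⟨nat_lit 0, nat_lit 100, nat_lit 100, nat_lit 25, nat_lit 2236317788⟩]⟩
noncomputable def p005_l113 : Lf2 := ⟨nat_lit 0, nat_lit 2, [nat_lit 10, nat_lit 5, nat_lit 5, nat_lit 20], true, nat_lit 0, nat_lit 0, nat_lit 0, nat_lit 0, ⟨nat_lit 0, nat_lit 0, nat_lit 1000, nat_lit 5, nat_lit 49, nat_lit 0, nat_lit 0, nat_lit 0, nat_lit 0, nat_lit 215, nat_lit 22817, nat_lit 252, nat_lit 66019422, nat_lit 0, nat_lit 0, nat_lit 381664, false, false⟩,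
 nat_lit 0, nat_lit 9243, nat_lit 0, nat_lit 0, nat_lit 4584, nat_lit 0, nat_lit 405, nat_lit 0, nat_lit 0, nat_lit 0, nat_lit 0, nat_lit 0, nat_lit 0, nat_lit 0, nat_lit 53, nat_lit 1000000, nat_lit 0, nat_lit 0, [(nat_lit 3, [(nat_lit 6, nat_lit 1000)])],
 ⟨p005_k26, nat_lit 0, nat_lit 0, nat_lit 0, nat_lit 0, nat_lit 188138, [nat_lit 1559200001, nat_lit 1418400001, nat_lit 13599999], [], [nat_lit 12875026064, nat_lit 12914514017, nat_lit 12921272084, nat_lit 12800820608], nat_lit 1271250, nat_lit 1271250, nat_lit 21650, nat_lit 88400, nat_lit 0, nat_lit 0, [nat_lit 780000, nat_lit 1435000, nat_lit 1271250], [nat_lit 18, nat_lit 40, nat_lit 20, nat_lit 80]⟩, C1.Rw.none,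
 ⟨nat_lit 6557, nat_lit 6577, ⟨.ofNat (nat_lit 108159), .ofNat (nat_lit 133591), .ofNat (nat_lit 109229), .ofNat (nat_lit 134661), .ofNat (nat_lit 109113), .ofNat (nat_lit 134486), .ofNat (nat_lit 110183), .ofNat (nat_lit 135557)⟩, ⟨.ofNat (nat_lit 0), .ofNat (nat_lit 0), .ofNat (nat_lit 0), .ofNat (nat_lit 0), .ofNat (nat_lit 0), .ofNat (nat_lit 0), .ofNat (nat_lit 0), .ofNat (nat_lit 0)⟩⟩, [⟨nat_lit 0, nat_lit 100, nat_lit 100, nat_lit 25, nat_lit 87687925⟩]⟩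
noncomputable def p005_l114 : Lf2 := ⟨nat_lit 0, nat_lit 2, [nat_lit 10, nat_lit 5, nat_lit 5, nat_lit 20], true, nat_lit 0, nat_lit 0, nat_lit 0, nat_lit 0, ⟨nat_lit 0, nat_lit 0, nat_lit 1000, nat_lit 5, nat_lit 48, nat_lit 0, nat_lit 0, nat_lit 0, nat_lit 0, nat_lit 215, nat_lit 21600, nat_lit 251, nat_lit 66034082, nat_lit 0, nat_lit 0, nat_lit 377046, false, false⟩,
 nat_lit 0, nat_lit 100000, nat_lit 0, nat_lit 0, nat_lit 49090, nat_lit 0, nat_lit 0, nat_lit 4663, nat_lit 0, nat_lit 0, nat_lit 0, nat_lit 0, nat_lit 0, nat_lit 0, nat_lit 0, nat_lit 1000000, nat_lit 0, nat_lit 0, [(nat_lit 3, [(nat_lit 6, nat_lit 1000)])],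
 ⟨p005_k23, nat_lit 0, nat_lit 0, nat_lit 290, nat_lit 0, nat_lit 190143, [nat_lit 94301142858, nat_lit 110651600000], [], [nat_lit 249042435042, nat_lit 249577523091, nat_lit 246621658981, nat_lit 242865988278], nat_lit 1271250, nat_lit 1271250, nat_lit 21650, nat_lit 88400, nat_lit 0, nat_lit 0, [nat_lit 1412500, nat_lit 1271250], [nat_lit 26, nat_lit 40, nat_lit 20, nat_lit 80, nat_lit 2, nat_lit 289, nat_lit 75, nat_lit 10]⟩, C1.Rw.none,
 ⟨nat_lit 6557, nat_lit 6615, ⟨.ofNat (nat_lit 106244), .ofNat (nat_lit 131794), .ofNat (nat_lit 107315), .ofNat (nat_lit 132864), .ofNat (nat_lit 109113), .ofNat (nat_lit 134486), .ofNat (nat_lit 110183), .ofNat (nat_lit 135557)⟩, ⟨.ofNat (nat_lit 0), .ofNat (nat_lit 0), .ofNat (nat_lit 0), .ofNat (nat_lit 0), .ofNat (nat_lit 0), .ofNat (nat_lit 0), .ofNat (nat_lit 0), .ofNat (nat_lit 0)⟩⟩, []⟩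
noncomputable def p005_l115 : Lf2 := ⟨nat_lit 0, nat_lit 1, [nat_lit 19, nat_lit 5, nat_lit 5, nat_lit 20], false, nat_lit 0, nat_lit 0, nat_lit 0, nat_lit 0, ⟨nat_lit 1000, nat_lit 0, nat_lit 0, nat_lit 0, nat_lit 0, nat_lit 0, nat_lit 0, nat_lit 0, nat_lit 0, nat_lit 0, nat_lit 0, nat_lit 0, nat_lit 0, nat_lit 0, nat_lit 0, nat_lit 0, false, false⟩,
 nat_lit 0, nat_lit 23945, nat_lit 0, nat_lit 0, nat_lit 11754, nat_lit 5304, nat_lit 279, nat_lit 0, nat_lit 0, nat_lit 5142, nat_lit 0, nat_lit 0, nat_lit 0, nat_lit 0, nat_lit 0, nat_lit 0, nat_lit 0, nat_lit 0, [],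
 ⟨p005_k21, nat_lit 0, nat_lit 0, nat_lit 302, nat_lit 0, nat_lit 238655, [nat_lit 6250000000, nat_lit 7968000000], [], [nat_lit 25823007559, nat_lit 25867637606, nat_lit 25630427335, nat_lit 24731177926], nat_lit 1271250, nat_lit 1271250, nat_lit 21650, nat_lit 88400, nat_lit 0, nat_lit 0, [nat_lit 1412500, nat_lit 1271250], [nat_lit 26, nat_lit 40, nat_lit 20, nat_lit 80, nat_lit 2, nat_lit 289, nat_lit 75, nat_lit 10]⟩, ⟨p005_k27, nat_lit 0, nat_lit 0, nat_lit 0, nat_lit 0, nat_lit 0, [nat_lit 3282000000, nat_lit 6250000000, nat_lit 7968000000], [], [nat_lit 17719363588, nat_lit 17790985152, nat_lit 16877639226, nat_lit 16951621460], nat_lit 0, nat_lit 0, nat_lit 0, nat_lit 0, nat_lit 0, nat_lit 0, [], [nat_lit 18, nat_lit 40, nat_lit 20, nat_lit 80]⟩,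
 zbF0, [⟨nat_lit 0, nat_lit 100, nat_lit 100, nat_lit 25, nat_lit 1301527447⟩]⟩
noncomputable def p005_l116 : Lf2 := ⟨nat_lit 0, nat_lit 2, [nat_lit 10, nat_lit 5, nat_lit 5, nat_lit 20], false, nat_lit 0, nat_lit 0, nat_lit 0, nat_lit 0, ⟨nat_lit 1000, nat_lit 0, nat_lit 0, nat_lit 0, nat_lit 0, nat_lit 0, nat_lit 0, nat_lit 0, nat_lit 0, nat_lit 0, nat_lit 0, nat_lit 0, nat_lit 0, nat_lit 0, nat_lit 0, nat_lit 0, false, false⟩,
 nat_lit 0, nat_lit 23712, nat_lit 0, nat_lit 0, nat_lit 11640, nat_lit 5114, nat_lit 0, nat_lit 0, nat_lit 0, nat_lit 4857, nat_lit 0, nat_lit 0, nat_lit 0, nat_lit 0, nat_lit 0, nat_lit 0, nat_lit 0, nat_lit 0, [],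
 ⟨p005_k23, nat_lit 0, nat_lit 0, nat_lit 290, nat_lit 0, nat_lit 189901, [nat_lit 6250000000, nat_lit 7968000000], [], [nat_lit 25950339608, nat_lit 25973587301, nat_lit 25762216772, nat_lit 25168531609], nat_lit 1271250, nat_lit 1271250, nat_lit 21650, nat_lit 88400, nat_lit 0, nat_lit 0, [nat_lit 1412500, nat_lit 1271250], [nat_lit 26, nat_lit 40, nat_lit 20, nat_lit 80, nat_lit 2, nat_lit 289, nat_lit 75, nat_lit 10]⟩, ⟨p005_k28, nat_lit 0, nat_lit 0, nat_lit 0, nat_lit 0, nat_lit 0, [nat_lit 3282000000, nat_lit 6250000000, nat_lit 7968000000], [], [nat_lit 17892478363, nat_lit 17957823826, nat_lit 17087018186, nat_lit 17152334006], nat_lit 0, nat_lit 0, nat_lit 0, nat_lit 0, nat_lit 0, nat_lit 0, [], [nat_lit 18, nat_lit 40, nat_lit 20, nat_lit 80]⟩,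
 zbF0, [⟨nat_lit 0, nat_lit 100, nat_lit 100, nat_lit 25, nat_lit 1285518577⟩]⟩
noncomputable def p005_l117 : Lf2 := ⟨nat_lit 0, nat_lit 2, [nat_lit 10, nat_lit 5, nat_lit 5, nat_lit 20], false, nat_lit 0, nat_lit 0, nat_lit 0, nat_lit 0, ⟨nat_lit 1000, nat_lit 0, nat_lit 0, nat_lit 0, nat_lit 0, nat_lit 0, nat_lit 0, nat_lit 0, nat_lit 0, nat_lit 0, nat_lit 0, nat_lit 0, nat_lit 0, nat_lit 0, nat_lit 0, nat_lit 0, false, false⟩,
 nat_lit 0, nat_lit 22627, nat_lit 0, nat_lit 0, nat_lit 11222, nat_lit 5179, nat_lit 0, nat_lit 0, nat_lit 0, nat_lit 4877, nat_lit 0, nat_lit 0, nat_lit 0, nat_lit 0, nat_lit 0, nat_lit 0, nat_lit 0, nat_lit 0, [],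
 ⟨p005_k24, nat_lit 0, nat_lit 0, nat_lit 289, nat_lit 0, nat_lit 191929, [nat_lit 6250000000, nat_lit 7968000000], [], [nat_lit 25842317138, nat_lit 25869358525, nat_lit 25771238082, nat_lit 25484208275], nat_lit 1271250, nat_lit 1271250, nat_lit 21650, nat_lit 43600, nat_lit 0, nat_lit 0, [nat_lit 1412500, nat_lit 1271250], [nat_lit 26, nat_lit 40, nat_lit 20, nat_lit 80, nat_lit 2, nat_lit 272, nat_lit 60, nat_lit 10]⟩, ⟨p005_k28, nat_lit 0, nat_lit 0, nat_lit 0, nat_lit 0, nat_lit 0, [nat_lit 3282000000, nat_lit 6250000000, nat_lit 7968000000], [], [nat_lit 17901012528, nat_lit 17971657236, nat_lit 17561797981, nat_lit 17627545555], nat_lit 0, nat_lit 0, nat_lit 0, nat_lit 0, nat_lit 0, nat_lit 0, [], [nat_lit 18, nat_lit 40, nat_lit 20, nat_lit 80]⟩,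
 zbF0, [⟨nat_lit 0, nat_lit 100, nat_lit 100, nat_lit 26, nat_lit 1394375663⟩]⟩
noncomputable def p005_l118 : Lf2 := ⟨nat_lit 0, nat_lit 2, [nat_lit 10, nat_lit 5, nat_lit 5, nat_lit 20], false, nat_lit 0, nat_lit 0, nat_lit 0, nat_lit 0, ⟨nat_lit 1000, nat_lit 0, nat_lit 0, nat_lit 0, nat_lit 0, nat_lit 0, nat_lit 0, nat_lit 0, nat_lit 0, nat_lit 0, nat_lit 0, nat_lit 0, nat_lit 0, nat_lit 0, nat_lit 0, nat_lit 0, false, false⟩,
 nat_lit 0, nat_lit 23423, nat_lit 0, nat_lit 0, nat_lit 11617, nat_lit 5179, nat_lit 0, nat_lit 0, nat_lit 0, nat_lit 4877, nat_lit 0, nat_lit 0, nat_lit 0, nat_lit 0, nat_lit 0, nat_lit 0, nat_lit 0, nat_lit 0, [],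
 ⟨p005_k24, nat_lit 0, nat_lit 0, nat_lit 287, nat_lit 0, nat_lit 191929, [nat_lit 6250000000, nat_lit 7968000000], [], [nat_lit 25304215386, nat_lit 25250566517, nat_lit 25242684391, nat_lit 24945989928], nat_lit 1271250, nat_lit 1271250, nat_lit 43600, nat_lit 65850, nat_lit 0, nat_lit 0, [nat_lit 1412500, nat_lit 1271250], [nat_lit 26, nat_lit 40, nat_lit 20, nat_lit 80, nat_lit 2, nat_lit 272, nat_lit 60, nat_lit 10]⟩, ⟨p005_k28, nat_lit 0, nat_lit 0, nat_lit 0, nat_lit 0, nat_lit 0, [nat_lit 3282000000, nat_lit 6250000000, nat_lit 7968000000], [], [nat_lit 17561797981, nat_lit 17627545555, nat_lit 17289266028, nat_lit 17355561957], nat_lit 0, nat_lit 0, nat_lit 0, nat_lit 0, nat_lit 0, nat_lit 0, [], [nat_lit 18, nat_lit 40, nat_lit 20, nat_lit 80]⟩,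
 zbF0, []⟩
noncomputable def p005_l119 : Lf2 := ⟨nat_lit 0, nat_lit 2, [nat_lit 10, nat_lit 5, nat_lit 5, nat_lit 20], false, nat_lit 0, nat_lit 0, nat_lit 0, nat_lit 0, ⟨nat_lit 0, nat_lit 0, nat_lit 1000, nat_lit 5, nat_lit 49, nat_lit 0, nat_lit 0, nat_lit 0, nat_lit 0, nat_lit 215, nat_lit 22817, nat_lit 252, nat_lit 66002381, nat_lit 0, nat_lit 0, nat_lit 387009, false, false⟩,
 nat_lit 0, nat_lit 13278, nat_lit 0, nat_lit 100000, nat_lit 6585, nat_lit 100000, nat_lit 0, nat_lit 0, nat_lit 0, nat_lit 44847, nat_lit 5121, nat_lit 0, nat_lit 0, nat_lit 0, nat_lit 53, nat_lit 1000000, nat_lit 0, nat_lit 0, [(nat_lit 3, [(nat_lit 6, nat_lit 1000)])],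
 ⟨p005_k24, nat_lit 0, nat_lit 0, nat_lit 287, nat_lit 0, nat_lit 191929, [nat_lit 2101142858, nat_lit 11600000], [], [nat_lit 15627158410, nat_lit 15458731099, nat_lit 15630831165, nat_lit 15462652372], nat_lit 1271250, nat_lit 1271250, nat_lit 43600, nat_lit 65850, nat_lit 0, nat_lit 0, [nat_lit 1412500, nat_lit 1271250], [nat_lit 26, nat_lit 40, nat_lit 20, nat_lit 80, nat_lit 2, nat_lit 272, nat_lit 60, nat_lit 10]⟩, ⟨p005_k16, nat_lit 0, nat_lit 0, nat_lit 0, nat_lit 0, nat_lit 0, [nat_lit 102420000000, nat_lit 122904000000], [], [nat_lit 123329969625, nat_lit 123825920000, nat_lit 117286051625, nat_lit 117762453625], nat_lit 0, nat_lit 0, nat_lit 0, nat_lit 0, nat_lit 0, nat_lit 0, [], [nat_lit 26, nat_lit 40, nat_lit 20, nat_lit 80]⟩,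
 ⟨nat_lit 6557, nat_lit 6577, ⟨.ofNat (nat_lit 117706), .ofNat (nat_lit 126184), .ofNat (nat_lit 118777), .ofNat (nat_lit 127254), .ofNat (nat_lit 118641), .ofNat (nat_lit 127099), .ofNat (nat_lit 119711), .ofNat (nat_lit 128169)⟩, ⟨.ofNat (nat_lit 0), .ofNat (nat_lit 0), .ofNat (nat_lit 0), .ofNat (nat_lit 0), .ofNat (nat_lit 0), .ofNat (nat_lit 0), .ofNat (nat_lit 0), .ofNat (nat_lit 0)⟩⟩, [⟨nat_lit 13, nat_lit 100, nat_lit 2, nat_lit 100, nat_lit 49063809⟩]⟩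
noncomputable def p005_l120 : Lf2 := ⟨nat_lit 0, nat_lit 2, [nat_lit 10, nat_lit 5, nat_lit 5, nat_lit 20], false, nat_lit 0, nat_lit 0, nat_lit 0, nat_lit 0, ⟨nat_lit 1000, nat_lit 0, nat_lit 0, nat_lit 0, nat_lit 0, nat_lit 0, nat_lit 0, nat_lit 0, nat_lit 0, nat_lit 0, nat_lit 0, nat_lit 0, nat_lit 0, nat_lit 0, nat_lit 0, nat_lit 0, false, false⟩,
 nat_lit 0, nat_lit 24393, nat_lit 0, nat_lit 0, nat_lit 12098, nat_lit 10414, nat_lit 0, nat_lit 0, nat_lit 0, nat_lit 4753, nat_lit 0, nat_lit 0, nat_lit 0, nat_lit 0, nat_lit 0, nat_lit 0, nat_lit 0, nat_lit 0, [],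
 ⟨p005_k24, nat_lit 0, nat_lit 0, nat_lit 285, nat_lit 0, nat_lit 191929, [nat_lit 6250000000, nat_lit 7968000000], [], [nat_lit 24667748092, nat_lit 24604766895, nat_lit 24615701986, nat_lit 24307179516], nat_lit 1271250, nat_lit 1271250, nat_lit 65850, nat_lit 88400, nat_lit 0, nat_lit 0, [nat_lit 1412500, nat_lit 1271250], [nat_lit 26, nat_lit 40, nat_lit 20, nat_lit 80, nat_lit 2, nat_lit 289, nat_lit 75, nat_lit 10]⟩, ⟨p005_k16, nat_lit 0, nat_lit 0, nat_lit 0, nat_lit 0, nat_lit 0, [nat_lit 6250000000, nat_lit 7968000000], [], [nat_lit 19485761272, nat_lit 19567279656, nat_lit 18904418731, nat_lit 18985960052], nat_lit 0, nat_lit 0, nat_lit 0, nat_lit 0, nat_lit 0, nat_lit 0, [], [nat_lit 26, nat_lit 40, nat_lit 20, nat_lit 80]⟩,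
 zbF0, []⟩
noncomputable def p005_l121 : Lf2 := ⟨nat_lit 0, nat_lit 2, [nat_lit 10, nat_lit 5, nat_lit 5, nat_lit 20], false, nat_lit 0, nat_lit 0, nat_lit 0, nat_lit 0, ⟨nat_lit 1000, nat_lit 0, nat_lit 0, nat_lit 0, nat_lit 0, nat_lit 0, nat_lit 0, nat_lit 0, nat_lit 0, nat_lit 0, nat_lit 0, nat_lit 0, nat_lit 0, nat_lit 0, nat_lit 0, nat_lit 0, false, false⟩,
 nat_lit 0, nat_lit 23945, nat_lit 0, nat_lit 0, nat_lit 11754, nat_lit 5299, nat_lit 187, nat_lit 0, nat_lit 0, nat_lit 4914, nat_lit 0, nat_lit 0, nat_lit 0, nat_lit 0, nat_lit 0, nat_lit 0, nat_lit 0, nat_lit 0, [],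
 ⟨p005_k23, nat_lit 0, nat_lit 0, nat_lit 303, nat_lit 0, nat_lit 243273, [nat_lit 6250000000, nat_lit 7968000000], [], [nat_lit 25823007559, nat_lit 25845245741, nat_lit 25630427335, nat_lit 25030927729], nat_lit 1271250, nat_lit 1271250, nat_lit 21650, nat_lit 88400, nat_lit 0, nat_lit 0, [nat_lit 1412500, nat_lit 1271250], [nat_lit 26, nat_lit 40, nat_lit 20, nat_lit 80, nat_lit 2, nat_lit 289, nat_lit 75, nat_lit 10]⟩, ⟨p005_k29, nat_lit 0, nat_lit 0, nat_lit 0, nat_lit 0, nat_lit 0, [nat_lit 3282000000, nat_lit 6250000000, nat_lit 7968000000], [], [nat_lit 17797498305, nat_lit 17869333329, nat_lit 16956899736, nat_lit 17030845840], nat_lit 0, nat_lit 0, nat_lit 0, nat_lit 0, nat_lit 0, nat_lit 0, [], [nat_lit 18, nat_lit 40, nat_lit 20, nat_lit 80]⟩,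
 zbF0, [⟨nat_lit 0, nat_lit 100, nat_lit 100, nat_lit 25, nat_lit 1299245329⟩]⟩
noncomputable def p005_l122 : Lf2 := ⟨nat_lit 0, nat_lit 2, [nat_lit 10, nat_lit 5, nat_lit 5, nat_lit 20], false, nat_lit 0, nat_lit 0, nat_lit 0, nat_lit 0, ⟨nat_lit 1000, nat_lit 0, nat_lit 0, nat_lit 0, nat_lit 0, nat_lit 0, nat_lit 0, nat_lit 0, nat_lit 0, nat_lit 0, nat_lit 0, nat_lit 0, nat_lit 0, nat_lit 0, nat_lit 0, nat_lit 0, false, false⟩,
 nat_lit 0, nat_lit 22621, nat_lit 0, nat_lit 0, nat_lit 11219, nat_lit 5218, nat_lit 0, nat_lit 0, nat_lit 0, nat_lit 4798, nat_lit 0, nat_lit 0, nat_lit 0, nat_lit 0, nat_lit 0, nat_lit 0, nat_lit 0, nat_lit 0, [],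
 ⟨p005_k24, nat_lit 0, nat_lit 0, nat_lit 304, nat_lit 0, nat_lit 244726, [nat_lit 6250000000, nat_lit 7968000000], [], [nat_lit 25845821672, nat_lit 25867794921, nat_lit 25676700324, nat_lit 25390594060], nat_lit 1271250, nat_lit 1271250, nat_lit 21650, nat_lit 88400, nat_lit 0, nat_lit 0, [nat_lit 1412500, nat_lit 1271250], [nat_lit 26, nat_lit 40, nat_lit 20, nat_lit 80, nat_lit 2, nat_lit 289, nat_lit 75, nat_lit 10]⟩, ⟨p005_k29, nat_lit 0, nat_lit 0, nat_lit 0, nat_lit 0, nat_lit 0, [nat_lit 3282000000, nat_lit 6250000000, nat_lit 7968000000], [], [nat_lit 17868361755, nat_lit 17939265951, nat_lit 17042407807, nat_lit 17115768613], nat_lit 0, nat_lit 0, nat_lit 0, nat_lit 0, nat_lit 0, nat_lit 0, [], [nat_lit 18, nat_lit 40, nat_lit 20, nat_lit 80]⟩,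
 zbF0, [⟨nat_lit 0, nat_lit 100, nat_lit 100, nat_lit 26, nat_lit 1279388820⟩]⟩
noncomputable def p005_l123 : Lf2 := ⟨nat_lit 0, nat_lit 2, [nat_lit 10, nat_lit 5, nat_lit 5, nat_lit 20], false, nat_lit 0, nat_lit 0, nat_lit 0, nat_lit 0, ⟨nat_lit 1000, nat_lit 0, nat_lit 0, nat_lit 0, nat_lit 0, nat_lit 0, nat_lit 0, nat_lit 0, nat_lit 0, nat_lit 0, nat_lit 0, nat_lit 0, nat_lit 0, nat_lit 0, nat_lit 0, nat_lit 0, false, false⟩,
 nat_lit 0, nat_lit 21956, nat_lit 0, nat_lit 0, nat_lit 10945, nat_lit 5109, nat_lit 0, nat_lit 0, nat_lit 0, nat_lit 4647, nat_lit 0, nat_lit 0, nat_lit 0, nat_lit 0, nat_lit 0, nat_lit 0, nat_lit 0, nat_lit 0, [],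
 ⟨p005_k30, nat_lit 0, nat_lit 0, nat_lit 307, nat_lit 0, nat_lit 251433, [nat_lit 6250000000, nat_lit 7968000000], [], [nat_lit 25885544551, nat_lit 25943004038, nat_lit 25728313724, nat_lit 25170076257], nat_lit 1271250, nat_lit 1271250, nat_lit 21650, nat_lit 88400, nat_lit 0, nat_lit 0, [nat_lit 1412500, nat_lit 1271250], [nat_lit 26, nat_lit 40, nat_lit 20, nat_lit 80, nat_lit 2, nat_lit 289, nat_lit 75, nat_lit 10]⟩, ⟨p005_k1, nat_lit 0, nat_lit 0, nat_lit 0, nat_lit 0, nat_lit 0, [nat_lit 3282000000, nat_lit 6250000000, nat_lit 7968000000], [], [nat_lit 18458232006, nat_lit 18784807063, nat_lit 17653794533, nat_lit 17980220940], nat_lit 0, nat_lit 0, nat_lit 0, nat_lit 0, nat_lit 0, nat_lit 0, [], [nat_lit 18, nat_lit 40, nat_lit 20, nat_lit 80]⟩,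
 zbF0, [⟨nat_lit 0, nat_lit 100, nat_lit 100, nat_lit 27, nat_lit 1264798191⟩]⟩
noncomputable def p005_l124 : Lf2 := ⟨nat_lit 0, nat_lit 1, [nat_lit 19, nat_lit 5, nat_lit 5, nat_lit 20], false, nat_lit 0, nat_lit 0, nat_lit 0, nat_lit 0, ⟨nat_lit 1000, nat_lit 0, nat_lit 0, nat_lit 0, nat_lit 0, nat_lit 0, nat_lit 0, nat_lit 0, nat_lit 0, nat_lit 0, nat_lit 0, nat_lit 0, nat_lit 0, nat_lit 0, nat_lit 0, nat_lit 0, false, false⟩,
 nat_lit 0, nat_lit 23802, nat_lit 0, nat_lit 0, nat_lit 11684, nat_lit 5495, nat_lit 633, nat_lit 0, nat_lit 0, nat_lit 4755, nat_lit 0, nat_lit 0, nat_lit 0, nat_lit 12028209622321, nat_lit 0, nat_lit 0, nat_lit 0, nat_lit 0, [],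
 ⟨p005_k21, nat_lit 0, nat_lit 0, nat_lit 315, nat_lit 0, nat_lit 269901, [nat_lit 6250000000, nat_lit 7968000000], [], [nat_lit 25901193905, nat_lit 25705005746, nat_lit 25711350674, nat_lit 24221527339], nat_lit 1271250, nat_lit 1271250, nat_lit 21650, nat_lit 88400, nat_lit 0, nat_lit 0, [nat_lit 1412500, nat_lit 1271250], [nat_lit 26, nat_lit 40, nat_lit 20, nat_lit 80, nat_lit 2, nat_lit 289, nat_lit 75, nat_lit 10]⟩, ⟨p005_k31, nat_lit 0, nat_lit 0, nat_lit 0, nat_lit 0, nat_lit 0, [nat_lit 3282000000, nat_lit 6250000000, nat_lit 7968000000], [], [nat_lit 17911693144, nat_lit 18317634193, nat_lit 16825353697, nat_lit 17207877247], nat_lit 0, nat_lit 0, nat_lit 0, nat_lit 0, nat_lit 0, nat_lit 0, [], [nat_lit 18, nat_lit 40, nat_lit 20, nat_lit 80]⟩,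
 zbF0, [⟨nat_lit 0, nat_lit 100, nat_lit 100, nat_lit 25, nat_lit 1401861443⟩]⟩
noncomputable def p005_l125 : Lf2 := ⟨nat_lit 0, nat_lit 2, [nat_lit 10, nat_lit 5, nat_lit 5, nat_lit 20], false, nat_lit 0, nat_lit 0, nat_lit 0, nat_lit 0, ⟨nat_lit 1000, nat_lit 0, nat_lit 0, nat_lit 0, nat_lit 0, nat_lit 0, nat_lit 0, nat_lit 0, nat_lit 0, nat_lit 0, nat_lit 0, nat_lit 0, nat_lit 0, nat_lit 0, nat_lit 0, nat_lit 0, false, false⟩,
 nat_lit 0, nat_lit 23020, nat_lit 0, nat_lit 0, nat_lit 11300, nat_lit 5132, nat_lit 0, nat_lit 0, nat_lit 0, nat_lit 4472, nat_lit 0, nat_lit 0, nat_lit 0, nat_lit 11211472013705, nat_lit 0, nat_lit 0, nat_lit 0, nat_lit 0, [],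
 ⟨p005_k23, nat_lit 0, nat_lit 0, nat_lit 297, nat_lit 0, nat_lit 225978, [nat_lit 6250000000, nat_lit 7968000000], [], [nat_lit 26330101860, nat_lit 26132754520, nat_lit 26155272990, nat_lit 24714413380], nat_lit 1271250, nat_lit 1271250, nat_lit 21650, nat_lit 88400, nat_lit 0, nat_lit 0, [nat_lit 1412500, nat_lit 1271250], [nat_lit 26, nat_lit 40, nat_lit 20, nat_lit 80, nat_lit 2, nat_lit 289, nat_lit 75, nat_lit 10]⟩, ⟨p005_k22, nat_lit 0, nat_lit 0, nat_lit 0, nat_lit 0, nat_lit 0, [nat_lit 3282000000, nat_lit 6250000000, nat_lit 7968000000], [], [nat_lit 18013143492, nat_lit 18377152470, nat_lit 17205933533, nat_lit 17569630427], nat_lit 0, nat_lit 0, nat_lit 0, nat_lit 0, nat_lit 0, nat_lit 0, [], [nat_lit 18, nat_lit 40, nat_lit 20, nat_lit 80]⟩,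
 zbF0, [⟨nat_lit 0, nat_lit 100, nat_lit 100, nat_lit 25, nat_lit 1269659232⟩]⟩
noncomputable def b_NL_550_550_0_14 : St := ⟨false, nat_lit 1, nat_lit 0, nat_lit 1, nat_lit 20, nat_lit 225, nat_lit 230, nat_lit 220, nat_lit 230, nat_lit 4, nat_lit 16, nat_lit 0, nat_lit 0, nat_lit 0, nat_lit 0, nat_lit 0, nat_lit 0, nat_lit 0, nat_lit 8, nat_lit 0, nat_lit 0, nat_lit 0, nat_lit 800⟩
theorem d_NL_550_550_0_14 (h : EB TB.env) : Dead b_NL_550_550_0_14 := chkB_sound0 h (T :=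
(.spl (nat_lit 1) (nat_lit 225)
(.spl (nat_lit 0) (nat_lit 228)
(.spl (nat_lit 1) (nat_lit 223)
(.spl (nat_lit 6) (nat_lit 4)
(.leaf p005_l92)
(.spl (nat_lit 1) (nat_lit 222)
(.spl (nat_lit 1) (nat_lit 221)
(.spl (nat_lit 0) (nat_lit 227)
(.spl (nat_lit 7) (nat_lit 600)
(.leaf p005_l93)
(.leaf p005_l94))
(.spl (nat_lit 2) (nat_lit 8)
(.leaf p005_l95)
(.spl (nat_lit 2) (nat_lit 12)
(.spl (nat_lit 8) (nat_lit 400)
(.leaf p005_l96)
(.leaf p005_l97))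
(.leaf p005_l98))))
(.spl (nat_lit 0) (nat_lit 227)
(.spl (nat_lit 0) (nat_lit 226)
(.spl (nat_lit 2) (nat_lit 8)
(.spl (nat_lit 7) (nat_lit 600)
(.leaf p005_l99)
(.leaf p005_l100))
(.spl (nat_lit 2) (nat_lit 12)
(.spl (nat_lit 8) (nat_lit 400)
(.leaf p005_l101)
(.leaf p005_l102))
(.leaf p005_l103)))
(.spl (nat_lit 2) (nat_lit 8)
(.leaf p005_l104)
(.leaf p005_l105)))
(.spl (nat_lit 2) (nat_lit 8)
(.leaf p005_l106)
(.spl (nat_lit 2) (nat_lit 12)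
(.spl (nat_lit 8) (nat_lit 400)
(.leaf p005_l107)
(.leaf p005_l108))
(.leaf p005_l109)))))
(.spl (nat_lit 7) (nat_lit 600)
(.spl (nat_lit 0) (nat_lit 227)
(.spl (nat_lit 7) (nat_lit 300)
(.leaf p005_l110)
(.spl (nat_lit 7) (nat_lit 460)
(.leaf p005_l111)
(.leaf p005_l112)))
(.leaf p005_l113))
(.leaf p005_l114))))
(.spl (nat_lit 1) (nat_lit 224)
(.spl (nat_lit 6) (nat_lit 4)
(.leaf p005_l115)
(.spl (nat_lit 0) (nat_lit 227)
(.leaf p005_l116)
(.spl (nat_lit 2) (nat_lit 8)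
(.leaf p005_l117)
(.spl (nat_lit 2) (nat_lit 12)
(.spl (nat_lit 8) (nat_lit 400)
(.leaf p005_l118)
(.leaf p005_l119))
(.leaf p005_l120)))))
(.spl (nat_lit 0) (nat_lit 227)
(.leaf p005_l121)
(.leaf p005_l122))))
(.leaf p005_l123))
(.spl (nat_lit 6) (nat_lit 4)
(.leaf p005_l124)
(.leaf p005_l125)))) (by decide +kernel)
noncomputable def p005_l126 : Lf2 := ⟨nat_lit 0, nat_lit 2, [nat_lit 10, nat_lit 5, nat_lit 5, nat_lit 20], false, nat_lit 0, nat_lit 0, nat_lit 0, nat_lit 0, ⟨nat_lit 1000, nat_lit 0, nat_lit 0, nat_lit 0, nat_lit 0, nat_lit 0, nat_lit 0, nat_lit 0, nat_lit 0, nat_lit 0, nat_lit 0, nat_lit 0, nat_lit 0, nat_lit 0, nat_lit 0, nat_lit 0, false, false⟩,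
 nat_lit 0, nat_lit 21132, nat_lit 0, nat_lit 0, nat_lit 10643, nat_lit 5219, nat_lit 0, nat_lit 0, nat_lit 0, nat_lit 4464, nat_lit 0, nat_lit 0, nat_lit 0, nat_lit 0, nat_lit 0, nat_lit 0, nat_lit 0, nat_lit 0, [],
 ⟨p005_k32, nat_lit 0, nat_lit 0, nat_lit 361, nat_lit 0, nat_lit 309454, [nat_lit 6250000000, nat_lit 7968000000], [], [nat_lit 26243451998, nat_lit 26851784794, nat_lit 25557710592, nat_lit 25368985491], nat_lit 1271250, nat_lit 1271250, nat_lit 21650, nat_lit 88400, nat_lit 0, nat_lit 0, [nat_lit 1412500, nat_lit 1271250], [nat_lit 26, nat_lit 40, nat_lit 20, nat_lit 80, nat_lit 2, nat_lit 289, nat_lit 75, nat_lit 10]⟩, ⟨p005_k1, nat_lit 0, nat_lit 0, nat_lit 0, nat_lit 0, nat_lit 0, [nat_lit 3282000000, nat_lit 6250000000, nat_lit 7968000000], [], [nat_lit 18630000444, nat_lit 19339108940, nat_lit 17709083279, nat_lit 18368654586], nat_lit 0, nat_lit 0, nat_lit 0, nat_lit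 0, nat_lit 0, nat_lit 0, [], [nat_lit 18, nat_lit 40, nat_lit 20, nat_lit 80]⟩,
 zbF0, [⟨nat_lit 0, nat_lit 100, nat_lit 99, nat_lit 30, nat_lit 1605506278⟩]⟩
noncomputable def p005_l127 : Lf2 := ⟨nat_lit 3, nat_lit 2, [nat_lit 10, nat_lit 5, nat_lit 5, nat_lit 20], false, nat_lit 0, nat_lit 0, nat_lit 0, nat_lit 0, zbN0,
 nat_lit 0, nat_lit 0, nat_lit 0, nat_lit 0, nat_lit 0, nat_lit 0, nat_lit 0, nat_lit 0, nat_lit 0, nat_lit 0, nat_lit 0, nat_lit 0, nat_lit 0, nat_lit 0, nat_lit 0, nat_lit 0, nat_lit 0, nat_lit 0, [],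
 C1.Rw.none, ⟨p005_k0, nat_lit 0, nat_lit 0, nat_lit 171, nat_lit 0, nat_lit 0, [], [], [], nat_lit 0, nat_lit 0, nat_lit 0, nat_lit 0, nat_lit 0, nat_lit 0, [], [nat_lit 26, nat_lit 40, nat_lit 20, nat_lit 80, nat_lit 2, nat_lit 289, nat_lit 75, nat_lit 10]⟩,
 zbF0, []⟩
noncomputable def p005_l128 : Lf2 := ⟨nat_lit 0, nat_lit 2, [nat_lit 10, nat_lit 5, nat_lit 5, nat_lit 20], false, nat_lit 0, nat_lit 0, nat_lit 0, nat_lit 0, ⟨nat_lit 1000, nat_lit 0, nat_lit 0, nat_lit 0, nat_lit 0, nat_lit 0, nat_lit 0, nat_lit 0, nat_lit 0, nat_lit 0, nat_lit 0, nat_lit 0, nat_lit 0, nat_lit 0, nat_lit 0, nat_lit 0, false, false⟩,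
 nat_lit 0, nat_lit 21920, nat_lit 0, nat_lit 0, nat_lit 11040, nat_lit 10782, nat_lit 206, nat_lit 0, nat_lit 0, nat_lit 4422, nat_lit 0, nat_lit 0, nat_lit 0, nat_lit 0, nat_lit 0, nat_lit 0, nat_lit 0, nat_lit 0, [],
 ⟨p005_k32, nat_lit 0, nat_lit 0, nat_lit 318, nat_lit 0, nat_lit 309454, [nat_lit 6250000000, nat_lit 7968000000], [], [nat_lit 25048138304, nat_lit 24504869063, nat_lit 25024278080, nat_lit 23990339430], nat_lit 1271250, nat_lit 1271250, nat_lit 88400, nat_lit 111251, nat_lit 0, nat_lit 0, [nat_lit 1412500, nat_lit 1271250], [nat_lit 26, nat_lit 40, nat_lit 20, nat_lit 80, nat_lit 2, nat_lit 289, nat_lit 75, nat_lit 10]⟩, ⟨p005_k0, nat_lit 0, nat_lit 0, nat_lit 151, nat_lit 0, nat_lit 0, [nat_lit 6250000000, nat_lit 7968000000], [], [nat_lit 19227822777, nat_lit 20060788700, nat_lit 18624163472, nat_lit 19457379882], nat_lit 0, nat_lit 0, nat_lit 0, nat_lit 0, nat_lit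 0, nat_lit 0, [], [nat_lit 26, nat_lit 40, nat_lit 20, nat_lit 80, nat_lit 2, nat_lit 289, nat_lit 75, nat_lit 10]⟩,
 zbF0, []⟩
noncomputable def p005_l129 : Lf2 := ⟨nat_lit 0, nat_lit 1, [nat_lit 19, nat_lit 5, nat_lit 5, nat_lit 20], false, nat_lit 0, nat_lit 0, nat_lit 0, nat_lit 0, ⟨nat_lit 1000, nat_lit 0, nat_lit 0, nat_lit 0, nat_lit 0, nat_lit 0, nat_lit 0, nat_lit 0, nat_lit 0, nat_lit 0, nat_lit 0, nat_lit 0, nat_lit 0, nat_lit 0, nat_lit 0, nat_lit 0, false, false⟩,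
 nat_lit 0, nat_lit 21818, nat_lit 0, nat_lit 0, nat_lit 10988, nat_lit 9049, nat_lit 102, nat_lit 0, nat_lit 0, nat_lit 4802, nat_lit 0, nat_lit 0, nat_lit 0, nat_lit 15551822383215, nat_lit 0, nat_lit 0, nat_lit 0, nat_lit 0, [],
 ⟨p005_k33, nat_lit 0, nat_lit 0, nat_lit 310, nat_lit 0, nat_lit 270850, [nat_lit 6250000000, nat_lit 7968000000], [], [nat_lit 25204770619, nat_lit 25177223824, nat_lit 25152634154, nat_lit 24872004150], nat_lit 1271250, nat_lit 1271250, nat_lit 43600, nat_lit 65850, nat_lit 0, nat_lit 0, [nat_lit 1412500, nat_lit 1271250], [nat_lit 26, nat_lit 40, nat_lit 20, nat_lit 80, nat_lit 2, nat_lit 289, nat_lit 75, nat_lit 10]⟩, ⟨p005_k34, nat_lit 0, nat_lit 0, nat_lit 0, nat_lit 0, nat_lit 0, [nat_lit 5449500000, nat_lit 7089500000], [], [nat_lit 19361543412, nat_lit 19489614026, nat_lit 18861298542, nat_lit 18945777378], nat_lit 0, nat_lit 0, nat_lit 0, nat_lit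 0, nat_lit 0, nat_lit 0, [], [nat_lit 155, nat_lit 40, nat_lit 20, nat_lit 40]⟩,
 zbF0, [⟨nat_lit 0, nat_lit 100, nat_lit 100, nat_lit 30, nat_lit 1541567612⟩]⟩
noncomputable def p005_l130 : Lf2 := ⟨nat_lit 3, nat_lit 1, [nat_lit 19, nat_lit 5, nat_lit 5, nat_lit 20], false, nat_lit 0, nat_lit 0, nat_lit 0, nat_lit 0, zbN0,
 nat_lit 0, nat_lit 0, nat_lit 0, nat_lit 0, nat_lit 0, nat_lit 0, nat_lit 0, nat_lit 0, nat_lit 0, nat_lit 0, nat_lit 0, nat_lit 0, nat_lit 0, nat_lit 0, nat_lit 0, nat_lit 0, nat_lit 0, nat_lit 0, [],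
 C1.Rw.none, ⟨p005_k33, nat_lit 0, nat_lit 0, nat_lit 165, nat_lit 0, nat_lit 0, [], [], [], nat_lit 0, nat_lit 0, nat_lit 0, nat_lit 0, nat_lit 0, nat_lit 0, [], [nat_lit 26, nat_lit 40, nat_lit 20, nat_lit 80, nat_lit 2, nat_lit 289, nat_lit 75, nat_lit 10]⟩,
 zbF0, []⟩
noncomputable def p005_l131 : Lf2 := ⟨nat_lit 0, nat_lit 1, [nat_lit 19, nat_lit 5, nat_lit 5, nat_lit 20], false, nat_lit 0, nat_lit 0, nat_lit 0, nat_lit 0, ⟨nat_lit 1000, nat_lit 0, nat_lit 0, nat_lit 0, nat_lit 0, nat_lit 0, nat_lit 0, nat_lit 0, nat_lit 0, nat_lit 0, nat_lit 0, nat_lit 0, nat_lit 0, nat_lit 0, nat_lit 0, nat_lit 0, false, false⟩,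
 nat_lit 0, nat_lit 21660, nat_lit 0, nat_lit 0, nat_lit 10964, nat_lit 9105, nat_lit 308, nat_lit 0, nat_lit 0, nat_lit 4549, nat_lit 0, nat_lit 0, nat_lit 0, nat_lit 0, nat_lit 0, nat_lit 0, nat_lit 0, nat_lit 0, [],
 ⟨p005_k35, nat_lit 0, nat_lit 0, nat_lit 311, nat_lit 0, nat_lit 273367, [nat_lit 6250000000, nat_lit 7968000000], [], [nat_lit 24954557423, nat_lit 25015488140, nat_lit 24903143010, nat_lit 24623125958], nat_lit 1271250, nat_lit 1271250, nat_lit 43600, nat_lit 65850, nat_lit 0, nat_lit 0, [nat_lit 1412500, nat_lit 1271250], [nat_lit 26, nat_lit 40, nat_lit 20, nat_lit 80, nat_lit 2, nat_lit 289, nat_lit 75, nat_lit 10]⟩, ⟨p005_k34, nat_lit 0, nat_lit 0, nat_lit 0, nat_lit 0, nat_lit 0, [nat_lit 5449500000, nat_lit 7089500000], [], [nat_lit 19470807622, nat_lit 19574376884, nat_lit 18918116128, nat_lit 19002912080], nat_lit 0, nat_lit 0, nat_lit 0, nat_lit 0, nat_lit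 0, nat_lit 0, [], [nat_lit 155, nat_lit 40, nat_lit 20, nat_lit 40]⟩,
 zbF0, [⟨nat_lit 0, nat_lit 100, nat_lit 100, nat_lit 31, nat_lit 1626584967⟩]⟩
noncomputable def p005_l132 : Lf2 := ⟨nat_lit 3, nat_lit 1, [nat_lit 19, nat_lit 5, nat_lit 5, nat_lit 20], false, nat_lit 0, nat_lit 0, nat_lit 0, nat_lit 0, zbN0,
 nat_lit 0, nat_lit 0, nat_lit 0, nat_lit 0, nat_lit 0, nat_lit 0, nat_lit 0, nat_lit 0, nat_lit 0, nat_lit 0, nat_lit 0, nat_lit 0, nat_lit 0, nat_lit 0, nat_lit 0, nat_lit 0, nat_lit 0, nat_lit 0, [],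
 C1.Rw.none, ⟨p005_k33, nat_lit 0, nat_lit 0, nat_lit 165, nat_lit 0, nat_lit 0, [], [], [], nat_lit 0, nat_lit 0, nat_lit 0, nat_lit 0, nat_lit 0, nat_lit 0, [], [nat_lit 26, nat_lit 40, nat_lit 20, nat_lit 80, nat_lit 2, nat_lit 289, nat_lit 75, nat_lit 10]⟩,
 zbF0, []⟩
noncomputable def p005_l133 : Lf2 := ⟨nat_lit 0, nat_lit 1, [nat_lit 19, nat_lit 5, nat_lit 5, nat_lit 20], false, nat_lit 0, nat_lit 0, nat_lit 0, nat_lit 0, ⟨nat_lit 1000, nat_lit 0, nat_lit 0, nat_lit 0, nat_lit 0, nat_lit 0, nat_lit 0, nat_lit 0, nat_lit 0, nat_lit 0, nat_lit 0, nat_lit 0, nat_lit 0, nat_lit 0, nat_lit 0, nat_lit 0, false, false⟩,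
 nat_lit 0, nat_lit 21660, nat_lit 0, nat_lit 0, nat_lit 10964, nat_lit 9011, nat_lit 372, nat_lit 0, nat_lit 0, nat_lit 4485, nat_lit 0, nat_lit 0, nat_lit 0, nat_lit 14628253584801, nat_lit 0, nat_lit 0, nat_lit 0, nat_lit 0, [],
 ⟨p005_k35, nat_lit 0, nat_lit 0, nat_lit 313, nat_lit 0, nat_lit 277249, [nat_lit 6250000000, nat_lit 7968000000], [], [nat_lit 24954557423, nat_lit 24936288140, nat_lit 24903143010, nat_lit 24623125958], nat_lit 1271250, nat_lit 1271250, nat_lit 43600, nat_lit 65850, nat_lit 0, nat_lit 0, [nat_lit 1412500, nat_lit 1271250], [nat_lit 26, nat_lit 40, nat_lit 20, nat_lit 80, nat_lit 2, nat_lit 289, nat_lit 75, nat_lit 10]⟩, ⟨p005_k36, nat_lit 0, nat_lit 0, nat_lit 0, nat_lit 0, nat_lit 0, [nat_lit 5449500000, nat_lit 7089500000], [], [nat_lit 19433755199, nat_lit 19560238432, nat_lit 18935818451, nat_lit 19020082101], nat_lit 0, nat_lit 0, nat_lit 0, nat_lit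 0, nat_lit 0, nat_lit 0, [], [nat_lit 155, nat_lit 40, nat_lit 20, nat_lit 40]⟩,
 zbF0, [⟨nat_lit 0, nat_lit 100, nat_lit 100, nat_lit 31, nat_lit 1534209012⟩]⟩
noncomputable def p005_l134 : Lf2 := ⟨nat_lit 3, nat_lit 1, [nat_lit 19, nat_lit 5, nat_lit 5, nat_lit 20], false, nat_lit 0, nat_lit 0, nat_lit 0, nat_lit 0, zbN0,
 nat_lit 0, nat_lit 0, nat_lit 0, nat_lit 0, nat_lit 0, nat_lit 0, nat_lit 0, nat_lit 0, nat_lit 0, nat_lit 0, nat_lit 0, nat_lit 0, nat_lit 0, nat_lit 0, nat_lit 0, nat_lit 0, nat_lit 0, nat_lit 0, [],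
 C1.Rw.none, ⟨p005_k35, nat_lit 0, nat_lit 0, nat_lit 166, nat_lit 0, nat_lit 0, [], [], [], nat_lit 0, nat_lit 0, nat_lit 0, nat_lit 0, nat_lit 0, nat_lit 0, [], [nat_lit 26, nat_lit 40, nat_lit 20, nat_lit 80, nat_lit 2, nat_lit 289, nat_lit 75, nat_lit 10]⟩,
 zbF0, []⟩
noncomputable def p005_l135 : Lf2 := ⟨nat_lit 0, nat_lit 2, [nat_lit 10, nat_lit 5, nat_lit 5, nat_lit 20], false, nat_lit 0, nat_lit 0, nat_lit 0, nat_lit 0, ⟨nat_lit 1000, nat_lit 0, nat_lit 0, nat_lit 0, nat_lit 0, nat_lit 0, nat_lit 0, nat_lit 0, nat_lit 0, nat_lit 0, nat_lit 0, nat_lit 0, nat_lit 0, nat_lit 0, nat_lit 0, nat_lit 0, false, false⟩,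
 nat_lit 0, nat_lit 21770, nat_lit 0, nat_lit 0, nat_lit 10964, nat_lit 5412, nat_lit 138, nat_lit 0, nat_lit 0, nat_lit 3920, nat_lit 0, nat_lit 0, nat_lit 0, nat_lit 8209243051161, nat_lit 0, nat_lit 0, nat_lit 0, nat_lit 0, [],
 ⟨p005_k32, nat_lit 0, nat_lit 0, nat_lit 296, nat_lit 0, nat_lit 236279, [nat_lit 6250000000, nat_lit 7968000000], [], [nat_lit 25234988256, nat_lit 25231469390, nat_lit 25183160061, nat_lit 24721023924], nat_lit 1271250, nat_lit 1271250, nat_lit 43600, nat_lit 65850, nat_lit 0, nat_lit 0, [nat_lit 1412500, nat_lit 1271250], [nat_lit 26, nat_lit 40, nat_lit 20, nat_lit 80, nat_lit 2, nat_lit 289, nat_lit 75, nat_lit 10]⟩, ⟨p005_k37, nat_lit 0, nat_lit 0, nat_lit 0, nat_lit 0, nat_lit 0, [nat_lit 3282000000, nat_lit 6250000000, nat_lit 7968000000], [], [nat_lit 17932707334, nat_lit 18093892237, nat_lit 17572835073, nat_lit 17730341016], nat_lit 0, nat_lit 0,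 nat_lit 0, nat_lit 0, nat_lit 0, nat_lit 0, [], [nat_lit 18, nat_lit 40, nat_lit 20, nat_lit 80]⟩,
 zbF0, [⟨nat_lit 0, nat_lit 100, nat_lit 100, nat_lit 31, nat_lit 1366761728⟩]⟩
noncomputable def p005_l136 : Lf2 := ⟨nat_lit 3, nat_lit 2, [nat_lit 10, nat_lit 5, nat_lit 5, nat_lit 20], false, nat_lit 0, nat_lit 0, nat_lit 0, nat_lit 0, zbN0,
 nat_lit 0, nat_lit 0, nat_lit 0, nat_lit 0, nat_lit 0, nat_lit 0, nat_lit 0, nat_lit 0, nat_lit 0, nat_lit 0, nat_lit 0, nat_lit 0, nat_lit 0, nat_lit 0, nat_lit 0, nat_lit 0, nat_lit 0, nat_lit 0, [],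
 C1.Rw.none, ⟨p005_k32, nat_lit 0, nat_lit 0, nat_lit 166, nat_lit 0, nat_lit 0, [], [], [], nat_lit 0, nat_lit 0, nat_lit 0, nat_lit 0, nat_lit 0, nat_lit 0, [], [nat_lit 26, nat_lit 40, nat_lit 20, nat_lit 80, nat_lit 2, nat_lit 289, nat_lit 75, nat_lit 10]⟩,
 zbF0, []⟩
noncomputable def p005_l137 : Lf2 := ⟨nat_lit 0, nat_lit 1, [nat_lit 19, nat_lit 5, nat_lit 5, nat_lit 20], false, nat_lit 0, nat_lit 0, nat_lit 0, nat_lit 0, ⟨nat_lit 1000, nat_lit 0, nat_lit 0, nat_lit 0, nat_lit 0, nat_lit 0, nat_lit 0, nat_lit 0, nat_lit 0, nat_lit 0, nat_lit 0, nat_lit 0, nat_lit 0, nat_lit 0, nat_lit 0, nat_lit 0, false, false⟩,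
 nat_lit 0, nat_lit 21760, nat_lit 0, nat_lit 0, nat_lit 11070, nat_lit 9710, nat_lit 753, nat_lit 0, nat_lit 0, nat_lit 4119, nat_lit 0, nat_lit 0, nat_lit 0, nat_lit 0, nat_lit 0, nat_lit 0, nat_lit 0, nat_lit 0, [],
 ⟨p005_k38, nat_lit 0, nat_lit 0, nat_lit 314, nat_lit 0, nat_lit 279745, [nat_lit 6250000000, nat_lit 7968000000], [], [nat_lit 24535242948, nat_lit 24593890485, nat_lit 24482888789, nat_lit 24200164532], nat_lit 1271250, nat_lit 1271250, nat_lit 43600, nat_lit 65850, nat_lit 0, nat_lit 0, [nat_lit 1412500, nat_lit 1271250], [nat_lit 26, nat_lit 40, nat_lit 20, nat_lit 80, nat_lit 2, nat_lit 289, nat_lit 75, nat_lit 10]⟩, ⟨p005_k33, nat_lit 0, nat_lit 0, nat_lit 166, nat_lit 0, nat_lit 0, [nat_lit 6250000000, nat_lit 7968000000], [], [nat_lit 20465114856, nat_lit 20622339305, nat_lit 19926453766, nat_lit 20083102536], nat_lit 0, nat_lit 0, nat_lit 0, nat_lit 0, nat_lit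 0, nat_lit 0, [], [nat_lit 26, nat_lit 40, nat_lit 20, nat_lit 80, nat_lit 2, nat_lit 289, nat_lit 75, nat_lit 10]⟩,
 zbF0, [⟨nat_lit 0, nat_lit 100, nat_lit 100, nat_lit 32, nat_lit 1583404779⟩]⟩
noncomputable def p005_l138 : Lf2 := ⟨nat_lit 0, nat_lit 2, [nat_lit 10, nat_lit 5, nat_lit 5, nat_lit 20], false, nat_lit 0, nat_lit 0, nat_lit 0, nat_lit 0, ⟨nat_lit 1000, nat_lit 0, nat_lit 0, nat_lit 0, nat_lit 0, nat_lit 0, nat_lit 0, nat_lit 0, nat_lit 0, nat_lit 0, nat_lit 0, nat_lit 0, nat_lit 0, nat_lit 0, nat_lit 0, nat_lit 0, false, false⟩,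
 nat_lit 0, nat_lit 21516, nat_lit 0, nat_lit 0, nat_lit 10946, nat_lit 5410, nat_lit 229, nat_lit 0, nat_lit 0, nat_lit 3917, nat_lit 0, nat_lit 0, nat_lit 0, nat_lit 0, nat_lit 0, nat_lit 0, nat_lit 0, nat_lit 0, [],
 ⟨p005_k39, nat_lit 0, nat_lit 0, nat_lit 296, nat_lit 0, nat_lit 233858, [nat_lit 6250000000, nat_lit 7968000000], [], [nat_lit 25130550585, nat_lit 25204121927, nat_lit 24646939817, nat_lit 24682732212], nat_lit 1271250, nat_lit 1271250, nat_lit 43600, nat_lit 65850, nat_lit 0, nat_lit 0, [nat_lit 1412500, nat_lit 1271250], [nat_lit 26, nat_lit 40, nat_lit 20, nat_lit 80, nat_lit 2, nat_lit 289, nat_lit 75, nat_lit 10]⟩, ⟨p005_k37, nat_lit 0, nat_lit 0, nat_lit 0, nat_lit 0, nat_lit 0, [nat_lit 3282000000, nat_lit 6250000000, nat_lit 7968000000], [], [nat_lit 17935264493, nat_lit 18012922364, nat_lit 17574734855, nat_lit 17649502672], nat_lit 0, nat_lit 0, nat_lit 0,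 nat_lit 0, nat_lit 0, nat_lit 0, [], [nat_lit 18, nat_lit 40, nat_lit 20, nat_lit 80]⟩,
 zbF0, [⟨nat_lit 0, nat_lit 100, nat_lit 100, nat_lit 31, nat_lit 1903825599⟩]⟩
noncomputable def p005_l139 : Lf2 := ⟨nat_lit 3, nat_lit 2, [nat_lit 10, nat_lit 5, nat_lit 5, nat_lit 20], false, nat_lit 0, nat_lit 0, nat_lit 0, nat_lit 0, zbN0,
 nat_lit 0, nat_lit 0, nat_lit 0, nat_lit 0, nat_lit 0, nat_lit 0, nat_lit 0, nat_lit 0, nat_lit 0, nat_lit 0, nat_lit 0, nat_lit 0, nat_lit 0, nat_lit 0, nat_lit 0, nat_lit 0, nat_lit 0, nat_lit 0, [],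
 C1.Rw.none, ⟨p005_k32, nat_lit 0, nat_lit 0, nat_lit 165, nat_lit 0, nat_lit 0, [], [], [], nat_lit 0, nat_lit 0, nat_lit 0, nat_lit 0, nat_lit 0, nat_lit 0, [], [nat_lit 26, nat_lit 40, nat_lit 20, nat_lit 80, nat_lit 2, nat_lit 289, nat_lit 75, nat_lit 10]⟩,
 zbF0, []⟩
noncomputable def p005_l140 : Lf2 := ⟨nat_lit 0, nat_lit 2, [nat_lit 10, nat_lit 5, nat_lit 5, nat_lit 20], false, nat_lit 0, nat_lit 0, nat_lit 0, nat_lit 0, ⟨nat_lit 1000, nat_lit 0, nat_lit 0, nat_lit 0, nat_lit 0, nat_lit 0, nat_lit 0, nat_lit 0, nat_lit 0, nat_lit 0, nat_lit 0, nat_lit 0, nat_lit 0, nat_lit 0, nat_lit 0, nat_lit 0, false, false⟩,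
 nat_lit 0, nat_lit 21505, nat_lit 0, nat_lit 0, nat_lit 10940, nat_lit 5402, nat_lit 369, nat_lit 0, nat_lit 0, nat_lit 3776, nat_lit 0, nat_lit 0, nat_lit 0, nat_lit 0, nat_lit 0, nat_lit 0, nat_lit 0, nat_lit 0, [],
 ⟨p005_k39, nat_lit 0, nat_lit 0, nat_lit 297, nat_lit 0, nat_lit 237813, [nat_lit 6250000000, nat_lit 7968000000], [], [nat_lit 24960480775, nat_lit 25022305102, nat_lit 24654877770, nat_lit 24512950339], nat_lit 1271250, nat_lit 1271250, nat_lit 43600, nat_lit 65850, nat_lit 0, nat_lit 0, [nat_lit 1412500, nat_lit 1271250], [nat_lit 26, nat_lit 40, nat_lit 20, nat_lit 80, nat_lit 2, nat_lit 289, nat_lit 75, nat_lit 10]⟩, ⟨p005_k40, nat_lit 0, nat_lit 0, nat_lit 0, nat_lit 0, nat_lit 0, [nat_lit 3282000000, nat_lit 6250000000, nat_lit 7968000000], [], [nat_lit 18019135220, nat_lit 18091926200, nat_lit 17658718011, nat_lit 17731754066], nat_lit 0, nat_lit 0, nat_lit 0,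 nat_lit 0, nat_lit 0, nat_lit 0, [], [nat_lit 18, nat_lit 40, nat_lit 20, nat_lit 80]⟩,
 zbF0, [⟨nat_lit 0, nat_lit 100, nat_lit 100, nat_lit 32, nat_lit 1675757673⟩]⟩
noncomputable def p005_l141 : Lf2 := ⟨nat_lit 3, nat_lit 2, [nat_lit 10, nat_lit 5, nat_lit 5, nat_lit 20], false, nat_lit 0, nat_lit 0, nat_lit 0, nat_lit 0, zbN0,
 nat_lit 0, nat_lit 0, nat_lit 0, nat_lit 0, nat_lit 0, nat_lit 0, nat_lit 0, nat_lit 0, nat_lit 0, nat_lit 0, nat_lit 0, nat_lit 0, nat_lit 0, nat_lit 0, nat_lit 0, nat_lit 0, nat_lit 0, nat_lit 0, [],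
 C1.Rw.none, ⟨p005_k41, nat_lit 0, nat_lit 0, nat_lit 166, nat_lit 0, nat_lit 0, [], [], [], nat_lit 0, nat_lit 0, nat_lit 0, nat_lit 0, nat_lit 0, nat_lit 0, [], [nat_lit 26, nat_lit 40, nat_lit 20, nat_lit 80, nat_lit 2, nat_lit 289, nat_lit 75, nat_lit 10]⟩,
 zbF0, []⟩
noncomputable def p005_l142 : Lf2 := ⟨nat_lit 0, nat_lit 1, [nat_lit 19, nat_lit 5, nat_lit 5, nat_lit 20], false, nat_lit 0, nat_lit 0, nat_lit 0, nat_lit 0, ⟨nat_lit 1000, nat_lit 0, nat_lit 0, nat_lit 0, nat_lit 0, nat_lit 0, nat_lit 0, nat_lit 0, nat_lit 0, nat_lit 0, nat_lit 0, nat_lit 0, nat_lit 0, nat_lit 0, nat_lit 0, nat_lit 0, false, false⟩,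
 nat_lit 0, nat_lit 22177, nat_lit 0, nat_lit 0, nat_lit 11283, nat_lit 9710, nat_lit 1113, nat_lit 0, nat_lit 0, nat_lit 3857, nat_lit 0, nat_lit 0, nat_lit 0, nat_lit 15519962068409, nat_lit 0, nat_lit 0, nat_lit 0, nat_lit 0, [],
 ⟨p005_k38, nat_lit 0, nat_lit 0, nat_lit 316, nat_lit 0, nat_lit 283634, [nat_lit 6250000000, nat_lit 7968000000], [], [nat_lit 24256165440, nat_lit 24235981535, nat_lit 24201091459, nat_lit 23912927250], nat_lit 1271250, nat_lit 1271250, nat_lit 43600, nat_lit 65850, nat_lit 0, nat_lit 0, [nat_lit 1412500, nat_lit 1271250], [nat_lit 26, nat_lit 40, nat_lit 20, nat_lit 80, nat_lit 2, nat_lit 289, nat_lit 75, nat_lit 10]⟩, ⟨p005_k38, nat_lit 0, nat_lit 0, nat_lit 167, nat_lit 0, nat_lit 0, [nat_lit 6250000000, nat_lit 7968000000], [], [nat_lit 20622339305, nat_lit 20756414384, nat_lit 20083102536, nat_lit 20171895527], nat_lit 0, nat_lit 0, nat_lit 0, nat_lit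 0, nat_lit 0, nat_lit 0, [], [nat_lit 26, nat_lit 40, nat_lit 20, nat_lit 80, nat_lit 2, nat_lit 289, nat_lit 75, nat_lit 10]⟩,
 zbF0, [⟨nat_lit 0, nat_lit 100, nat_lit 100, nat_lit 32, nat_lit 1586795554⟩]⟩
noncomputable def p005_l143 : Lf2 := ⟨nat_lit 0, nat_lit 2, [nat_lit 10, nat_lit 5, nat_lit 5, nat_lit 20], false, nat_lit 0, nat_lit 0, nat_lit 0, nat_lit 0, ⟨nat_lit 1000, nat_lit 0, nat_lit 0, nat_lit 0, nat_lit 0, nat_lit 0, nat_lit 0, nat_lit 0, nat_lit 0, nat_lit 0, nat_lit 0, nat_lit 0, nat_lit 0, nat_lit 0, nat_lit 0, nat_lit 0, false, false⟩,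
 nat_lit 0, nat_lit 21503, nat_lit 0, nat_lit 0, nat_lit 10939, nat_lit 5398, nat_lit 485, nat_lit 0, nat_lit 0, nat_lit 3652, nat_lit 0, nat_lit 0, nat_lit 0, nat_lit 4125086902079, nat_lit 0, nat_lit 0, nat_lit 0, nat_lit 0, [],
 ⟨p005_k39, nat_lit 0, nat_lit 0, nat_lit 299, nat_lit 0, nat_lit 241769, [nat_lit 6250000000, nat_lit 7968000000], [], [nat_lit 24813696223, nat_lit 24875408695, nat_lit 24656200762, nat_lit 24376822203], nat_lit 1271250, nat_lit 1271250, nat_lit 43600, nat_lit 65850, nat_lit 0, nat_lit 0, [nat_lit 1412500, nat_lit 1271250], [nat_lit 26, nat_lit 40, nat_lit 20, nat_lit 80, nat_lit 2, nat_lit 289, nat_lit 75, nat_lit 10]⟩, ⟨p005_k42, nat_lit 0, nat_lit 0, nat_lit 0, nat_lit 0, nat_lit 0, [nat_lit 3282000000, nat_lit 6250000000, nat_lit 7968000000], [], [nat_lit 18094520203, nat_lit 18171621735, nat_lit 17735495855, nat_lit 17810177012], nat_lit 0, nat_lit 0,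 nat_lit 0, nat_lit 0, nat_lit 0, nat_lit 0, [], [nat_lit 18, nat_lit 40, nat_lit 20, nat_lit 80]⟩,
 zbF0, [⟨nat_lit 0, nat_lit 100, nat_lit 100, nat_lit 32, nat_lit 1524062571⟩]⟩
noncomputable def p005_l144 : Lf2 := ⟨nat_lit 3, nat_lit 2, [nat_lit 10, nat_lit 5, nat_lit 5, nat_lit 20], false, nat_lit 0, nat_lit 0, nat_lit 0, nat_lit 0, zbN0,
 nat_lit 0, nat_lit 0, nat_lit 0, nat_lit 0, nat_lit 0, nat_lit 0, nat_lit 0, nat_lit 0, nat_lit 0, nat_lit 0, nat_lit 0, nat_lit 0, nat_lit 0, nat_lit 0, nat_lit 0, nat_lit 0, nat_lit 0, nat_lit 0, [],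
 C1.Rw.none, ⟨p005_k39, nat_lit 0, nat_lit 0, nat_lit 167, nat_lit 0, nat_lit 0, [], [], [], nat_lit 0, nat_lit 0, nat_lit 0, nat_lit 0, nat_lit 0, nat_lit 0, [], [nat_lit 26, nat_lit 40, nat_lit 20, nat_lit 80, nat_lit 2, nat_lit 289, nat_lit 75, nat_lit 10]⟩,
 zbF0, []⟩
noncomputable def p005_l145 : Lf2 := ⟨nat_lit 0, nat_lit 1, [nat_lit 19, nat_lit 5, nat_lit 5, nat_lit 20], false, nat_lit 0, nat_lit 0, nat_lit 0, nat_lit 0, ⟨nat_lit 1000, nat_lit 0, nat_lit 0, nat_lit 0, nat_lit 0, nat_lit 0, nat_lit 0, nat_lit 0, nat_lit 0, nat_lit 0, nat_lit 0, nat_lit 0, nat_lit 0, nat_lit 0, nat_lit 0, nat_lit 0, false, false⟩,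
 nat_lit 0, nat_lit 21348, nat_lit 0, nat_lit 0, nat_lit 10916, nat_lit 9730, nat_lit 812, nat_lit 0, nat_lit 0, nat_lit 4131, nat_lit 0, nat_lit 0, nat_lit 0, nat_lit 0, nat_lit 0, nat_lit 0, nat_lit 0, nat_lit 0, [],
 ⟨p005_k43, nat_lit 0, nat_lit 0, nat_lit 0, nat_lit 0, nat_lit 278367, [nat_lit 6250000000, nat_lit 7968000000], [], [nat_lit 24458396801, nat_lit 24520564728, nat_lit 24407838435, nat_lit 24129047288], nat_lit 1271250, nat_lit 1271250, nat_lit 43600, nat_lit 65850, nat_lit 0, nat_lit 0, [nat_lit 1412500, nat_lit 1271250], [nat_lit 26, nat_lit 40, nat_lit 20, nat_lit 80]⟩, ⟨p005_k33, nat_lit 0, nat_lit 0, nat_lit 165, nat_lit 0, nat_lit 0, [nat_lit 6250000000, nat_lit 7968000000], [], [nat_lit 20439232316, nat_lit 20518144265, nat_lit 19899363246, nat_lit 19977694216], nat_lit 0, nat_lit 0, nat_lit 0, nat_lit 0, nat_lit 0, nat_lit 0, [], [nat_lit 26, nat_lit 40, nat_lit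 20, nat_lit 80, nat_lit 2, nat_lit 289, nat_lit 75, nat_lit 10]⟩,
 zbF0, [⟨nat_lit 0, nat_lit 100, nat_lit 100, nat_lit 32, nat_lit 1581950613⟩]⟩
noncomputable def p005_l146 : Lf2 := ⟨nat_lit 0, nat_lit 1, [nat_lit 19, nat_lit 5, nat_lit 5, nat_lit 20], true, nat_lit 0, nat_lit 0, nat_lit 0, nat_lit 0, ⟨nat_lit 0, nat_lit 0, nat_lit 1000, nat_lit 5, nat_lit 54, nat_lit 0, nat_lit 0, nat_lit 0, nat_lit 0, nat_lit 215, nat_lit 28017, nat_lit 256, nat_lit 65784313, nat_lit 0, nat_lit 0, nat_lit 453573, false, false⟩,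
 nat_lit 0, nat_lit 100000, nat_lit 0, nat_lit 0, nat_lit 51133, nat_lit 0, nat_lit 434, nat_lit 2072, nat_lit 0, nat_lit 0, nat_lit 0, nat_lit 0, nat_lit 0, nat_lit 0, nat_lit 0, nat_lit 1000000, nat_lit 0, nat_lit 0, [(nat_lit 3, [(nat_lit 6, nat_lit 1000)])],
 ⟨p005_k43, nat_lit 0, nat_lit 0, nat_lit 314, nat_lit 0, nat_lit 278367, [nat_lit 42481142858, nat_lit 48467600000], [], [nat_lit 79429355653, nat_lit 78794708897, nat_lit 78867362000, nat_lit 77561441542], nat_lit 1271250, nat_lit 1271250, nat_lit 43600, nat_lit 65850, nat_lit 0, nat_lit 0, [nat_lit 1412500, nat_lit 1271250], [nat_lit 26, nat_lit 40, nat_lit 20, nat_lit 80, nat_lit 2, nat_lit 289, nat_lit 75, nat_lit 10]⟩, C1.Rw.none,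
 ⟨nat_lit 6442, nat_lit 6462, ⟨.ofNat (nat_lit 130770), .ofNat (nat_lit 139130), .ofNat (nat_lit 131839), .ofNat (nat_lit 140200), .ofNat (nat_lit 131691), .ofNat (nat_lit 140033), .ofNat (nat_lit 132761), .ofNat (nat_lit 141102)⟩, ⟨.ofNat (nat_lit 0), .ofNat (nat_lit 0), .ofNat (nat_lit 0), .ofNat (nat_lit 0), .ofNat (nat_lit 0), .ofNat (nat_lit 0), .ofNat (nat_lit 0), .ofNat (nat_lit 0)⟩⟩, [⟨nat_lit 0, nat_lit 100, nat_lit 100, nat_lit 32, nat_lit 810167792⟩]⟩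
noncomputable def p005_l147 : Lf2 := ⟨nat_lit 0, nat_lit 2, [nat_lit 10, nat_lit 5, nat_lit 5, nat_lit 20], false, nat_lit 0, nat_lit 0, nat_lit 0, nat_lit 0, ⟨nat_lit 1000, nat_lit 0, nat_lit 0, nat_lit 0, nat_lit 0, nat_lit 0, nat_lit 0, nat_lit 0, nat_lit 0, nat_lit 0, nat_lit 0, nat_lit 0, nat_lit 0, nat_lit 0, nat_lit 0, nat_lit 0, false, false⟩,
 nat_lit 0, nat_lit 21367, nat_lit 0, nat_lit 0, nat_lit 10925, nat_lit 5413, nat_lit 464, nat_lit 0, nat_lit 0, nat_lit 3920, nat_lit 0, nat_lit 0, nat_lit 0, nat_lit 0, nat_lit 0, nat_lit 0, nat_lit 0, nat_lit 0, [],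
 ⟨p005_k44, nat_lit 0, nat_lit 0, nat_lit 297, nat_lit 0, nat_lit 236634, [nat_lit 6250000000, nat_lit 7968000000], [], [nat_lit 24904047786, nat_lit 24983868754, nat_lit 24395701648, nat_lit 24457211522], nat_lit 1271250, nat_lit 1271250, nat_lit 43600, nat_lit 65850, nat_lit 0, nat_lit 0, [nat_lit 1412500, nat_lit 1271250], [nat_lit 26, nat_lit 40, nat_lit 20, nat_lit 80, nat_lit 2, nat_lit 289, nat_lit 75, nat_lit 10]⟩, ⟨p005_k37, nat_lit 0, nat_lit 0, nat_lit 0, nat_lit 0, nat_lit 0, [nat_lit 3282000000, nat_lit 6250000000, nat_lit 7968000000], [], [nat_lit 17933053493, nat_lit 18013488496, nat_lit 17571885183, nat_lit 17649804017], nat_lit 0, nat_lit 0, nat_lit 0, nat_lit 0, nat_lit 0, nat_lit 0, [], [nat_lit 18, nat_lit 40, nat_lit 20, nat_lit 80]⟩,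
 zbF0, [⟨nat_lit 0, nat_lit 100, nat_lit 100, nat_lit 32, nat_lit 1932985017⟩]⟩
noncomputable def p005_l148 : Lf2 := ⟨nat_lit 3, nat_lit 2, [nat_lit 10, nat_lit 5, nat_lit 5, nat_lit 20], false, nat_lit 0, nat_lit 0, nat_lit 0, nat_lit 0, zbN0,
 nat_lit 0, nat_lit 0, nat_lit 0, nat_lit 0, nat_lit 0, nat_lit 0, nat_lit 0, nat_lit 0, nat_lit 0, nat_lit 0, nat_lit 0, nat_lit 0, nat_lit 0, nat_lit 0, nat_lit 0, nat_lit 0, nat_lit 0, nat_lit 0, [],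
 C1.Rw.none, ⟨p005_k32, nat_lit 0, nat_lit 0, nat_lit 165, nat_lit 0, nat_lit 0, [], [], [], nat_lit 0, nat_lit 0, nat_lit 0, nat_lit 0, nat_lit 0, nat_lit 0, [], [nat_lit 26, nat_lit 40, nat_lit 20, nat_lit 80, nat_lit 2, nat_lit 289, nat_lit 75, nat_lit 10]⟩,
 zbF0, []⟩
noncomputable def p005_l149 : Lf2 := ⟨nat_lit 0, nat_lit 2, [nat_lit 10, nat_lit 5, nat_lit 5, nat_lit 20], false, nat_lit 0, nat_lit 0, nat_lit 0, nat_lit 0, ⟨nat_lit 1000, nat_lit 0, nat_lit 0, nat_lit 0, nat_lit 0, nat_lit 0, nat_lit 0, nat_lit 0, nat_lit 0, nat_lit 0, nat_lit 0, nat_lit 0, nat_lit 0, nat_lit 0, nat_lit 0, nat_lit 0, false, false⟩,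
 nat_lit 0, nat_lit 21227, nat_lit 0, nat_lit 0, nat_lit 10908, nat_lit 9734, nat_lit 702, nat_lit 0, nat_lit 0, nat_lit 4140, nat_lit 0, nat_lit 0, nat_lit 0, nat_lit 0, nat_lit 0, nat_lit 0, nat_lit 0, nat_lit 0, [],
 ⟨p005_k45, nat_lit 0, nat_lit 0, nat_lit 318, nat_lit 0, nat_lit 286363, [nat_lit 6250000000, nat_lit 7968000000], [], [nat_lit 24648357353, nat_lit 24742136446, nat_lit 24140719215, nat_lit 24202311209], nat_lit 1271250, nat_lit 1271250, nat_lit 43600, nat_lit 65850, nat_lit 0, nat_lit 0, [nat_lit 1412500, nat_lit 1271250], [nat_lit 26, nat_lit 40, nat_lit 20, nat_lit 80, nat_lit 2, nat_lit 289, nat_lit 75, nat_lit 10]⟩, ⟨p005_k32, nat_lit 0, nat_lit 0, nat_lit 165, nat_lit 0, nat_lit 0, [nat_lit 6250000000, nat_lit 7968000000], [], [nat_lit 20426156433, nat_lit 20523375009, nat_lit 19886045766, nat_lit 19974371149], nat_lit 0, nat_lit 0, nat_lit 0, nat_lit 0, nat_lit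 0, nat_lit 0, [], [nat_lit 26, nat_lit 40, nat_lit 20, nat_lit 80, nat_lit 2, nat_lit 289, nat_lit 75, nat_lit 10]⟩,
 zbF0, [⟨nat_lit 0, nat_lit 100, nat_lit 100, nat_lit 32, nat_lit 2154574597⟩]⟩
noncomputable def p005_l150 : Lf2 := ⟨nat_lit 0, nat_lit 2, [nat_lit 10, nat_lit 5, nat_lit 5, nat_lit 20], false, nat_lit 0, nat_lit 0, nat_lit 0, nat_lit 0, ⟨nat_lit 1000, nat_lit 0, nat_lit 0, nat_lit 0, nat_lit 0, nat_lit 0, nat_lit 0, nat_lit 0, nat_lit 0, nat_lit 0, nat_lit 0, nat_lit 0, nat_lit 0, nat_lit 0, nat_lit 0, nat_lit 0, false, false⟩,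
 nat_lit 0, nat_lit 21359, nat_lit 0, nat_lit 0, nat_lit 10921, nat_lit 9712, nat_lit 502, nat_lit 0, nat_lit 0, nat_lit 3993, nat_lit 0, nat_lit 0, nat_lit 0, nat_lit 0, nat_lit 0, nat_lit 0, nat_lit 0, nat_lit 0, [],
 ⟨p005_k44, nat_lit 0, nat_lit 0, nat_lit 320, nat_lit 0, nat_lit 291741, [nat_lit 6250000000, nat_lit 7968000000], [], [nat_lit 24859834848, nat_lit 25040817178, nat_lit 24401095776, nat_lit 24474822296], nat_lit 1271250, nat_lit 1271250, nat_lit 43600, nat_lit 65850, nat_lit 0, nat_lit 0, [nat_lit 1412500, nat_lit 1271250], [nat_lit 26, nat_lit 40, nat_lit 20, nat_lit 80, nat_lit 2, nat_lit 289, nat_lit 75, nat_lit 10]⟩, ⟨p005_k41, nat_lit 0, nat_lit 0, nat_lit 166, nat_lit 0, nat_lit 0, [nat_lit 6250000000, nat_lit 7968000000], [], [nat_lit 20532007101, nat_lit 20624822344, nat_lit 19992648013, nat_lit 20081452436], nat_lit 0, nat_lit 0, nat_lit 0, nat_lit 0, nat_lit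 0, nat_lit 0, [], [nat_lit 26, nat_lit 40, nat_lit 20, nat_lit 80, nat_lit 2, nat_lit 289, nat_lit 75, nat_lit 10]⟩,
 zbF0, [⟨nat_lit 0, nat_lit 100, nat_lit 100, nat_lit 32, nat_lit 2092563545⟩]⟩
noncomputable def p005_l151 : Lf2 := ⟨nat_lit 0, nat_lit 2, [nat_lit 10, nat_lit 5, nat_lit 5, nat_lit 20], false, nat_lit 0, nat_lit 0, nat_lit 0, nat_lit 0, ⟨nat_lit 1000, nat_lit 0, nat_lit 0, nat_lit 0, nat_lit 0, nat_lit 0, nat_lit 0, nat_lit 0, nat_lit 0, nat_lit 0, nat_lit 0, nat_lit 0, nat_lit 0, nat_lit 0, nat_lit 0, nat_lit 0, false, false⟩,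
 nat_lit 0, nat_lit 21395, nat_lit 0, nat_lit 0, nat_lit 10939, nat_lit 9839, nat_lit 625, nat_lit 0, nat_lit 0, nat_lit 3877, nat_lit 0, nat_lit 0, nat_lit 0, nat_lit 0, nat_lit 0, nat_lit 0, nat_lit 0, nat_lit 0, [],
 ⟨p005_k44, nat_lit 0, nat_lit 0, nat_lit 321, nat_lit 0, nat_lit 295639, [nat_lit 6250000000, nat_lit 7968000000], [], [nat_lit 24671080570, nat_lit 24887489057, nat_lit 24376822203, nat_lit 24285259283], nat_lit 1271250, nat_lit 1271250, nat_lit 43600, nat_lit 65850, nat_lit 0, nat_lit 0, [nat_lit 1412500, nat_lit 1271250], [nat_lit 26, nat_lit 40, nat_lit 20, nat_lit 80, nat_lit 2, nat_lit 289, nat_lit 75, nat_lit 10]⟩, ⟨p005_k39, nat_lit 0, nat_lit 0, nat_lit 167, nat_lit 0, nat_lit 0, [nat_lit 6250000000, nat_lit 7968000000], [], [nat_lit 20817692753, nat_lit 20953550786, nat_lit 19976671035, nat_lit 20066201403], nat_lit 0, nat_lit 0, nat_lit 0, nat_lit 0, nat_lit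 0, nat_lit 0, [], [nat_lit 26, nat_lit 40, nat_lit 20, nat_lit 80, nat_lit 2, nat_lit 289, nat_lit 75, nat_lit 10]⟩,
 zbF0, [⟨nat_lit 0, nat_lit 100, nat_lit 100, nat_lit 33, nat_lit 2296661745⟩]⟩
noncomputable def p005_l152 : Lf2 := ⟨nat_lit 0, nat_lit 2, [nat_lit 10, nat_lit 5, nat_lit 5, nat_lit 20], false, nat_lit 0, nat_lit 0, nat_lit 0, nat_lit 0, ⟨nat_lit 1000, nat_lit 0, nat_lit 0, nat_lit 0, nat_lit 0, nat_lit 0, nat_lit 0, nat_lit 0, nat_lit 0, nat_lit 0, nat_lit 0, nat_lit 0, nat_lit 0, nat_lit 0, nat_lit 0, nat_lit 0, false, false⟩,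
 nat_lit 0, nat_lit 21324, nat_lit 0, nat_lit 0, nat_lit 10903, nat_lit 9856, nat_lit 733, nat_lit 0, nat_lit 0, nat_lit 3752, nat_lit 0, nat_lit 0, nat_lit 0, nat_lit 6236966520200, nat_lit 0, nat_lit 0, nat_lit 0, nat_lit 0, [],
 ⟨p005_k44, nat_lit 0, nat_lit 0, nat_lit 325, nat_lit 0, nat_lit 303437, [nat_lit 6250000000, nat_lit 7968000000], [], [nat_lit 24581751627, nat_lit 24727307799, nat_lit 24425369349, nat_lit 24197547810], nat_lit 1271250, nat_lit 1271250, nat_lit 43600, nat_lit 65850, nat_lit 0, nat_lit 0, [nat_lit 1412500, nat_lit 1271250], [nat_lit 26, nat_lit 40, nat_lit 20, nat_lit 80, nat_lit 2, nat_lit 289, nat_lit 75, nat_lit 10]⟩, ⟨p005_k44, nat_lit 0, nat_lit 0, nat_lit 168, nat_lit 0, nat_lit 0, [nat_lit 6250000000, nat_lit 7968000000], [], [nat_lit 20979530001, nat_lit 21251569900, nat_lit 20052272720, nat_lit 20316594053], nat_lit 0, nat_lit 0, nat_lit 0, nat_lit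 0, nat_lit 0, nat_lit 0, [], [nat_lit 26, nat_lit 40, nat_lit 20, nat_lit 80, nat_lit 2, nat_lit 289, nat_lit 75, nat_lit 10]⟩,
 zbF0, [⟨nat_lit 0, nat_lit 100, nat_lit 100, nat_lit 33, nat_lit 2201469556⟩]⟩
noncomputable def p005_l153 : Lf2 := ⟨nat_lit 0, nat_lit 2, [nat_lit 10, nat_lit 5, nat_lit 5, nat_lit 20], false, nat_lit 0, nat_lit 0, nat_lit 0, nat_lit 0, ⟨nat_lit 1000, nat_lit 0, nat_lit 0, nat_lit 0, nat_lit 0, nat_lit 0, nat_lit 0, nat_lit 0, nat_lit 0, nat_lit 0, nat_lit 0, nat_lit 0, nat_lit 0, nat_lit 0, nat_lit 0, nat_lit 0, false, false⟩,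
 nat_lit 0, nat_lit 21894, nat_lit 0, nat_lit 0, nat_lit 11026, nat_lit 9818, nat_lit 606, nat_lit 0, nat_lit 0, nat_lit 4110, nat_lit 0, nat_lit 0, nat_lit 0, nat_lit 24930764813758, nat_lit 0, nat_lit 0, nat_lit 0, nat_lit 0, [],
 ⟨p005_k32, nat_lit 0, nat_lit 0, nat_lit 321, nat_lit 0, nat_lit 308198, [nat_lit 6250000000, nat_lit 7968000000], [], [nat_lit 25104301468, nat_lit 24251947425, nat_lit 25066108108, nat_lit 23738260245], nat_lit 1271250, nat_lit 1271250, nat_lit 65850, nat_lit 88400, nat_lit 0, nat_lit 0, [nat_lit 1412500, nat_lit 1271250], [nat_lit 26, nat_lit 40, nat_lit 20, nat_lit 80, nat_lit 2, nat_lit 289, nat_lit 75, nat_lit 10]⟩, ⟨p005_k32, nat_lit 0, nat_lit 0, nat_lit 161, nat_lit 0, nat_lit 0, [nat_lit 6250000000, nat_lit 7968000000], [], [nat_lit 19868494332, nat_lit 20262228083, nat_lit 19323310151, nat_lit 19716802869], nat_lit 0, nat_lit 0, nat_lit 0, nat_lit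 0, nat_lit 0, nat_lit 0, [], [nat_lit 26, nat_lit 40, nat_lit 20, nat_lit 80, nat_lit 2, nat_lit 289, nat_lit 75, nat_lit 10]⟩,
 zbF0, []⟩
noncomputable def p005_l154 : Lf2 := ⟨nat_lit 0, nat_lit 2, [nat_lit 10, nat_lit 5, nat_lit 5, nat_lit 20], false, nat_lit 0, nat_lit 0, nat_lit 0, nat_lit 0, ⟨nat_lit 1000, nat_lit 0, nat_lit 0, nat_lit 0, nat_lit 0, nat_lit 0, nat_lit 0, nat_lit 0, nat_lit 0, nat_lit 0, nat_lit 0, nat_lit 0, nat_lit 0, nat_lit 0, nat_lit 0, nat_lit 0, false, false⟩,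
 nat_lit 0, nat_lit 22187, nat_lit 0, nat_lit 0, nat_lit 11174, nat_lit 10100, nat_lit 479, nat_lit 0, nat_lit 0, nat_lit 4202, nat_lit 0, nat_lit 0, nat_lit 0, nat_lit 37961236935320, nat_lit 0, nat_lit 0, nat_lit 0, nat_lit 0, [],
 ⟨p005_k32, nat_lit 0, nat_lit 0, nat_lit 316, nat_lit 0, nat_lit 308198, [nat_lit 6250000000, nat_lit 7968000000], [], [nat_lit 24876141613, nat_lit 23673406105, nat_lit 24850882348, nat_lit 23428197494], nat_lit 1271250, nat_lit 1271250, nat_lit 88400, nat_lit 111251, nat_lit 0, nat_lit 0, [nat_lit 1412500, nat_lit 1271250], [nat_lit 26, nat_lit 40, nat_lit 20, nat_lit 80, nat_lit 2, nat_lit 289, nat_lit 75, nat_lit 10]⟩, ⟨p005_k32, nat_lit 0, nat_lit 0, nat_lit 154, nat_lit 0, nat_lit 0, [nat_lit 6250000000, nat_lit 7968000000], [], [nat_lit 19016700051, nat_lit 19711291340, nat_lit 18454483350, nat_lit 18908670850], nat_lit 0, nat_lit 0, nat_lit 0, nat_lit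 0, nat_lit 0, nat_lit 0, [], [nat_lit 26, nat_lit 40, nat_lit 20, nat_lit 80, nat_lit 2, nat_lit 289, nat_lit 75, nat_lit 10]⟩,
 zbF0, []⟩
noncomputable def p005_l155 : Lf2 := ⟨nat_lit 0, nat_lit 2, [nat_lit 10, nat_lit 5, nat_lit 5, nat_lit 20], false, nat_lit 0, nat_lit 0, nat_lit 0, nat_lit 0, ⟨nat_lit 1000, nat_lit 0, nat_lit 0, nat_lit 0, nat_lit 0, nat_lit 0, nat_lit 0, nat_lit 0, nat_lit 0, nat_lit 0, nat_lit 0, nat_lit 0, nat_lit 0, nat_lit 0, nat_lit 0, nat_lit 0, false, false⟩,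
 nat_lit 0, nat_lit 20949, nat_lit 0, nat_lit 0, nat_lit 10819, nat_lit 9590, nat_lit 1166, nat_lit 0, nat_lit 0, nat_lit 4046, nat_lit 0, nat_lit 0, nat_lit 0, nat_lit 1072289989477, nat_lit 0, nat_lit 0, nat_lit 0, nat_lit 0, [],
 ⟨p005_k46, nat_lit 0, nat_lit 0, nat_lit 362, nat_lit 0, nat_lit 324239, [nat_lit 6250000000, nat_lit 7968000000], [], [nat_lit 24162577239, nat_lit 24346613832, nat_lit 23932765739, nat_lit 23106274200], nat_lit 1271250, nat_lit 1271250, nat_lit 43600, nat_lit 111251, nat_lit 0, nat_lit 0, [nat_lit 1412500, nat_lit 1271250], [nat_lit 26, nat_lit 40, nat_lit 20, nat_lit 80, nat_lit 2, nat_lit 289, nat_lit 75, nat_lit 10]⟩, ⟨p005_k32, nat_lit 0, nat_lit 0, nat_lit 169, nat_lit 0, nat_lit 0, [nat_lit 6250000000, nat_lit 7968000000], [], [nat_lit 20621606971, nat_lit 21242711543, nat_lit 19027367340, nat_lit 19648401301], nat_lit 0, nat_lit 0, nat_lit 0, nat_lit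 0, nat_lit 0, nat_lit 0, [], [nat_lit 26, nat_lit 40, nat_lit 20, nat_lit 80, nat_lit 2, nat_lit 289, nat_lit 75, nat_lit 10]⟩,
 zbF0, [⟨nat_lit 0, nat_lit 100, nat_lit 100, nat_lit 35, nat_lit 1581548528⟩]⟩
noncomputable def p005_l156 : Lf2 := ⟨nat_lit 0, nat_lit 2, [nat_lit 10, nat_lit 5, nat_lit 5, nat_lit 20], false, nat_lit 0, nat_lit 0, nat_lit 0, nat_lit 0, ⟨nat_lit 1000, nat_lit 0, nat_lit 0, nat_lit 0, nat_lit 0, nat_lit 0, nat_lit 0, nat_lit 0, nat_lit 0, nat_lit 0, nat_lit 0, nat_lit 0, nat_lit 0, nat_lit 0, nat_lit 0, nat_lit 0, false, false⟩,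
 nat_lit 0, nat_lit 20581, nat_lit 0, nat_lit 0, nat_lit 10789, nat_lit 9572, nat_lit 1730, nat_lit 0, nat_lit 0, nat_lit 4027, nat_lit 0, nat_lit 0, nat_lit 0, nat_lit 0, nat_lit 0, nat_lit 0, nat_lit 0, nat_lit 0, [],
 ⟨p005_k47, nat_lit 0, nat_lit 0, nat_lit 366, nat_lit 0, nat_lit 334851, [nat_lit 6250000000, nat_lit 7968000000], [], [nat_lit 23395364371, nat_lit 23550918876, nat_lit 23151205548, nat_lit 22601739040], nat_lit 1271250, nat_lit 1271250, nat_lit 43600, nat_lit 111251, nat_lit 0, nat_lit 0, [nat_lit 1412500, nat_lit 1271250], [nat_lit 26, nat_lit 40, nat_lit 20, nat_lit 80, nat_lit 2, nat_lit 289, nat_lit 75, nat_lit 10]⟩, ⟨p005_k32, nat_lit 0, nat_lit 0, nat_lit 170, nat_lit 0, nat_lit 0, [nat_lit 6250000000, nat_lit 7968000000], [], [nat_lit 20654715632, nat_lit 21478729178, nat_lit 19063737547, nat_lit 19839254592], nat_lit 0, nat_lit 0, nat_lit 0, nat_lit 0, nat_lit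 0, nat_lit 0, [], [nat_lit 26, nat_lit 40, nat_lit 20, nat_lit 80, nat_lit 2, nat_lit 289, nat_lit 75, nat_lit 10]⟩,
 zbF0, [⟨nat_lit 0, nat_lit 100, nat_lit 100, nat_lit 37, nat_lit 1598994706⟩]⟩
noncomputable def p005_l157 : Lf2 := ⟨nat_lit 0, nat_lit 2, [nat_lit 10, nat_lit 5, nat_lit 5, nat_lit 20], false, nat_lit 0, nat_lit 0, nat_lit 0, nat_lit 0, ⟨nat_lit 1000, nat_lit 0, nat_lit 0, nat_lit 0, nat_lit 0, nat_lit 0, nat_lit 0, nat_lit 0, nat_lit 0, nat_lit 0, nat_lit 0, nat_lit 0, nat_lit 0, nat_lit 0, nat_lit 0, nat_lit 0, false, false⟩,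
 nat_lit 0, nat_lit 22196, nat_lit 0, nat_lit 0, nat_lit 11178, nat_lit 10690, nat_lit 804, nat_lit 0, nat_lit 0, nat_lit 3887, nat_lit 0, nat_lit 0, nat_lit 0, nat_lit 25292105153427, nat_lit 0, nat_lit 0, nat_lit 0, nat_lit 0, [],
 ⟨p005_k32, nat_lit 0, nat_lit 0, nat_lit 329, nat_lit 0, nat_lit 348913, [nat_lit 6250000000, nat_lit 7968000000], [], [nat_lit 24845706356, nat_lit 23052896276, nat_lit 24978078300, nat_lit 22152481104], nat_lit 1271250, nat_lit 1271250, nat_lit 111251, nat_lit 230001, nat_lit 0, nat_lit 0, [nat_lit 1412500, nat_lit 1271250], [nat_lit 26, nat_lit 40, nat_lit 20, nat_lit 80, nat_lit 2, nat_lit 289, nat_lit 75, nat_lit 10]⟩, ⟨p005_k0, nat_lit 0, nat_lit 0, nat_lit 150, nat_lit 0, nat_lit 0, [nat_lit 6250000000, nat_lit 7968000000], [], [nat_lit 19122875490, nat_lit 20780521390, nat_lit 17254085910, nat_lit 18895682150], nat_lit 0, nat_lit 0, nat_lit 0, nat_lit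 0, nat_lit 0, nat_lit 0, [], [nat_lit 26, nat_lit 40, nat_lit 20, nat_lit 80, nat_lit 2, nat_lit 289, nat_lit 75, nat_lit 10]⟩,
 zbF0, []⟩
noncomputable def b_NL_550_550_0_15 : St := ⟨false, nat_lit 1, nat_lit 0, nat_lit 1, nat_lit 20, nat_lit 230, nat_lit 240, nat_lit 220, nat_lit 240, nat_lit 4, nat_lit 40, nat_lit 0, nat_lit 0, nat_lit 0, nat_lit 0, nat_lit 0, nat_lit 0, nat_lit 0, nat_lit 8, nat_lit 0, nat_lit 0, nat_lit 0, nat_lit 0⟩
theorem d_NL_550_550_0_15 (h : EB TB.env) : Dead b_NL_550_550_0_15 := chkB_sound0 h (T :=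
(.spl (nat_lit 2) (nat_lit 20)
(.spl (nat_lit 1) (nat_lit 230)
(.spl (nat_lit 2) (nat_lit 16)
(.spl (nat_lit 8) (nat_lit 800)
(.leaf p005_l126)
(.leaf p005_l127))
(.leaf p005_l128))
(.trZ (nat_lit 0) (nat_lit 100) (nat_lit 100) (nat_lit 30) (nat_lit 8) (.spl (nat_lit 0) (nat_lit 235)
(.ord (.spl (nat_lit 2) (nat_lit 16)
(.spl (nat_lit 2) (nat_lit 12)
(.spl (nat_lit 0) (nat_lit 233)
(.ord (.spl (nat_lit 1) (nat_lit 232)
(.spl (nat_lit 0) (nat_lit 232)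
(.spl (nat_lit 6) (nat_lit 4)
(.spl (nat_lit 1) (nat_lit 231)
(.spl (nat_lit 0) (nat_lit 231)
(.spl (nat_lit 8) (nat_lit 800)
(.leaf p005_l129)
(.leaf p005_l130))
(.spl (nat_lit 8) (nat_lit 800)
(.leaf p005_l131)
(.leaf p005_l132)))
(.ord (.spl (nat_lit 8) (nat_lit 800)
(.leaf p005_l133)
(.leaf p005_l134))))
(.spl (nat_lit 8) (nat_lit 800)
(.leaf p005_l135)
(.leaf p005_l136)))
(.spl (nat_lit 6) (nat_lit 4)
(.leaf p005_l137)
(.spl (nat_lit 1) (nat_lit 231)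
(.spl (nat_lit 8) (nat_lit 800)
(.leaf p005_l138)
(.leaf p005_l139))
(.spl (nat_lit 8) (nat_lit 800)
(.leaf p005_l140)
(.leaf p005_l141)))))
(.ord (.spl (nat_lit 6) (nat_lit 4)
(.leaf p005_l142)
(.spl (nat_lit 8) (nat_lit 800)
(.leaf p005_l143)
(.leaf p005_l144))))))
(.spl (nat_lit 1) (nat_lit 233)
(.spl (nat_lit 1) (nat_lit 232)
(.spl (nat_lit 1) (nat_lit 231)
(.spl (nat_lit 0) (nat_lit 234)
(.spl (nat_lit 6) (nat_lit 4)
(.spl (nat_lit 7) (nat_lit 600)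
(.leaf p005_l145)
(.leaf p005_l146))
(.spl (nat_lit 8) (nat_lit 800)
(.leaf p005_l147)
(.leaf p005_l148)))
(.leaf p005_l149))
(.leaf p005_l150))
(.leaf p005_l151))
(.leaf p005_l152)))
(.leaf p005_l153))
(.leaf p005_l154)))
(.spl (nat_lit 0) (nat_lit 238)
(.ord (.leaf p005_l155))
(.leaf p005_l156)))))
(.leaf p005_l157))) (by decide +kernel)
noncomputable def p005_l158 : Lf2 := ⟨nat_lit 0, nat_lit 5, [nat_lit 4, nat_lit 5, nat_lit 5, nat_lit 20], true, nat_lit 0, nat_lit 0, nat_lit 0, nat_lit 0, ⟨nat_lit 0, nat_lit 0, nat_lit 1000, nat_lit 5, nat_lit 57, nat_lit 0, nat_lit 0, nat_lit 0, nat_lit 0, nat_lit 215, nat_lit 30817, nat_lit 258, nat_lit 65658950, nat_lit 0, nat_lit 0, nat_lit 490447, false, false⟩,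
 nat_lit 0, nat_lit 7980, nat_lit 0, nat_lit 0, nat_lit 3816, nat_lit 0, nat_lit 337, nat_lit 0, nat_lit 0, nat_lit 0, nat_lit 0, nat_lit 0, nat_lit 0, nat_lit 22227830434950, nat_lit 115, nat_lit 1000000, nat_lit 0, nat_lit 0, [(nat_lit 3, [(nat_lit 6, nat_lit 1000)])],
 ⟨p005_k48, nat_lit 0, nat_lit 0, nat_lit 0, nat_lit 0, nat_lit 158962, [nat_lit 2397200001, nat_lit 2811200000, nat_lit 2080000001, nat_lit 919200001, nat_lit 23600000], [], [nat_lit 13119895363, nat_lit 13348567571, nat_lit 12272545347, nat_lit 12497493363], nat_lit 1271250, nat_lit 1271250, nat_lit 21650, nat_lit 230001, nat_lit 0, nat_lit 0, [nat_lit 936250, nat_lit 1271250, nat_lit 1271250, nat_lit 1271250, nat_lit 1271250], [nat_lit 232, nat_lit 10, nat_lit 4, nat_lit 20]⟩, C1.Rw.none,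
 ⟨nat_lit 6614, nat_lit 6709, ⟨.ofNat (nat_lit 99275), .ofNat (nat_lit 176815), .ofNat (nat_lit 104635), .ofNat (nat_lit 182174), .ofNat (nat_lit 104102), .ofNat (nat_lit 180751), .ofNat (nat_lit 109456), .ofNat (nat_lit 186106)⟩, ⟨.ofNat (nat_lit 0), .ofNat (nat_lit 0), .ofNat (nat_lit 0), .ofNat (nat_lit 0), .ofNat (nat_lit 0), .ofNat (nat_lit 0), .ofNat (nat_lit 0), .ofNat (nat_lit 0)⟩⟩, [⟨nat_lit 0, nat_lit 100, nat_lit 100, nat_lit 25, nat_lit 227568429⟩]⟩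
noncomputable def p005_l159 : Lf2 := ⟨nat_lit 0, nat_lit 5, [nat_lit 4, nat_lit 5, nat_lit 5, nat_lit 20], true, nat_lit 0, nat_lit 0, nat_lit 0, nat_lit 0, ⟨nat_lit 0, nat_lit 0, nat_lit 1000, nat_lit 5, nat_lit 59, nat_lit 0, nat_lit 0, nat_lit 0, nat_lit 0, nat_lit 215, nat_lit 32267, nat_lit 259, nat_lit 65582000, nat_lit 0, nat_lit 0, nat_lit 512632, false, false⟩,
 nat_lit 0, nat_lit 6559, nat_lit 0, nat_lit 0, nat_lit 3219, nat_lit 0, nat_lit 687, nat_lit 0, nat_lit 0, nat_lit 0, nat_lit 0, nat_lit 0, nat_lit 0, nat_lit 19970772807835, nat_lit 60, nat_lit 400000, nat_lit 0, nat_lit 0, [(nat_lit 3, [(nat_lit 5, nat_lit 1000)])],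
 ⟨p005_k49, nat_lit 0, nat_lit 0, nat_lit 0, nat_lit 0, nat_lit 171798, [nat_lit 1531600001, nat_lit 1719600000, nat_lit 1097600000, nat_lit 2000000], [], [nat_lit 14011503050, nat_lit 14093916898, nat_lit 13298285063, nat_lit 13386142907], nat_lit 1271250, nat_lit 1271250, nat_lit 21650, nat_lit 230001, nat_lit 0, nat_lit 0, [nat_lit 631250, nat_lit 1271250, nat_lit 1271250, nat_lit 1271250], [nat_lit 91, nat_lit 40, nat_lit 20, nat_lit 40]⟩, C1.Rw.none,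
 ⟨nat_lit 6576, nat_lit 6615, ⟨.ofNat (nat_lit 104102), .ofNat (nat_lit 180751), .ofNat (nat_lit 111598), .ofNat (nat_lit 188247), .ofNat (nat_lit 106018), .ofNat (nat_lit 182314), .ofNat (nat_lit 113511), .ofNat (nat_lit 189807)⟩, ⟨.ofNat (nat_lit 0), .ofNat (nat_lit 0), .ofNat (nat_lit 0), .ofNat (nat_lit 0), .ofNat (nat_lit 0), .ofNat (nat_lit 0), .ofNat (nat_lit 0), .ofNat (nat_lit 0)⟩⟩, [⟨nat_lit 0, nat_lit 100, nat_lit 100, nat_lit 27, nat_lit 207885027⟩]⟩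
noncomputable def p005_l160 : Lf2 := ⟨nat_lit 0, nat_lit 5, [nat_lit 4, nat_lit 5, nat_lit 5, nat_lit 20], true, nat_lit 0, nat_lit 0, nat_lit 0, nat_lit 0, ⟨nat_lit 0, nat_lit 0, nat_lit 1000, nat_lit 5, nat_lit 60, nat_lit 0, nat_lit 0, nat_lit 0, nat_lit 0, nat_lit 215, nat_lit 33750, nat_lit 260, nat_lit 65547117, nat_lit 0, nat_lit 0, nat_lit 522582, false, false⟩,
 nat_lit 0, nat_lit 6485, nat_lit 0, nat_lit 0, nat_lit 3216, nat_lit 0, nat_lit 689, nat_lit 0, nat_lit 0, nat_lit 0, nat_lit 0, nat_lit 0, nat_lit 0, nat_lit 19737691276509, nat_lit 60, nat_lit 400000, nat_lit 0, nat_lit 0, [(nat_lit 3, [(nat_lit 5, nat_lit 1000)])],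
 ⟨p005_k50, nat_lit 0, nat_lit 0, nat_lit 0, nat_lit 0, nat_lit 178354, [nat_lit 1531600001, nat_lit 1719600000, nat_lit 1097600000, nat_lit 2000000], [], [nat_lit 13984620472, nat_lit 14025689360, nat_lit 13274510694, nat_lit 13318426757], nat_lit 1271250, nat_lit 1271250, nat_lit 21650, nat_lit 230001, nat_lit 0, nat_lit 0, [nat_lit 631250, nat_lit 1271250, nat_lit 1271250, nat_lit 1271250], [nat_lit 91, nat_lit 40, nat_lit 20, nat_lit 40]⟩, C1.Rw.none,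
 ⟨nat_lit 6557, nat_lit 6577, ⟨.ofNat (nat_lit 106018), .ofNat (nat_lit 182314), .ofNat (nat_lit 114581), .ofNat (nat_lit 190878), .ofNat (nat_lit 106972), .ofNat (nat_lit 183093), .ofNat (nat_lit 115535), .ofNat (nat_lit 191655)⟩, ⟨.ofNat (nat_lit 0), .ofNat (nat_lit 0), .ofNat (nat_lit 0), .ofNat (nat_lit 0), .ofNat (nat_lit 0), .ofNat (nat_lit 0), .ofNat (nat_lit 0), .ofNat (nat_lit 0)⟩⟩, [⟨nat_lit 0, nat_lit 100, nat_lit 100, nat_lit 28, nat_lit 208107318⟩]⟩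
noncomputable def p005_l161 : Lf2 := ⟨nat_lit 0, nat_lit 5, [nat_lit 4, nat_lit 5, nat_lit 5, nat_lit 20], true, nat_lit 0, nat_lit 0, nat_lit 0, nat_lit 0, ⟨nat_lit 0, nat_lit 0, nat_lit 1000, nat_lit 5, nat_lit 60, nat_lit 0, nat_lit 0, nat_lit 0, nat_lit 0, nat_lit 215, nat_lit 33750, nat_lit 260, nat_lit 65520270, nat_lit 0, nat_lit 0, nat_lit 530197, false, false⟩,
 nat_lit 0, nat_lit 6445, nat_lit 0, nat_lit 0, nat_lit 3212, nat_lit 0, nat_lit 688, nat_lit 0, nat_lit 0, nat_lit 0, nat_lit 0, nat_lit 0, nat_lit 0, nat_lit 19593456797820, nat_lit 60, nat_lit 400000, nat_lit 0, nat_lit 0, [(nat_lit 3, [(nat_lit 5, nat_lit 1000)])],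
 ⟨p005_k51, nat_lit 0, nat_lit 0, nat_lit 0, nat_lit 0, nat_lit 185830, [nat_lit 1531600001, nat_lit 1719600000, nat_lit 1097600000, nat_lit 2000000], [], [nat_lit 13975353947, nat_lit 14016218607, nat_lit 13265958328, nat_lit 13309857245], nat_lit 1271250, nat_lit 1271250, nat_lit 21650, nat_lit 230001, nat_lit 0, nat_lit 0, [nat_lit 631250, nat_lit 1271250, nat_lit 1271250, nat_lit 1271250], [nat_lit 91, nat_lit 40, nat_lit 20, nat_lit 40]⟩, C1.Rw.none,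
 ⟨nat_lit 6538, nat_lit 6558, ⟨.ofNat (nat_lit 106972), .ofNat (nat_lit 183093), .ofNat (nat_lit 116605), .ofNat (nat_lit 192725), .ofNat (nat_lit 107925), .ofNat (nat_lit 183870), .ofNat (nat_lit 117556), .ofNat (nat_lit 193500)⟩, ⟨.ofNat (nat_lit 0), .ofNat (nat_lit 0), .ofNat (nat_lit 0), .ofNat (nat_lit 0), .ofNat (nat_lit 0), .ofNat (nat_lit 0), .ofNat (nat_lit 0), .ofNat (nat_lit 0)⟩⟩, [⟨nat_lit 0, nat_lit 100, nat_lit 100, nat_lit 29, nat_lit 207492596⟩]⟩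
noncomputable def p005_l162 : Lf2 := ⟨nat_lit 0, nat_lit 5, [nat_lit 4, nat_lit 5, nat_lit 5, nat_lit 20], true, nat_lit 0, nat_lit 0, nat_lit 0, nat_lit 0, ⟨nat_lit 0, nat_lit 0, nat_lit 1000, nat_lit 5, nat_lit 61, nat_lit 0, nat_lit 0, nat_lit 0, nat_lit 0, nat_lit 215, nat_lit 33750, nat_lit 260, nat_lit 65493231, nat_lit 0, nat_lit 0, nat_lit 537828, false, false⟩,
 nat_lit 0, nat_lit 6405, nat_lit 0, nat_lit 0, nat_lit 3209, nat_lit 0, nat_lit 683, nat_lit 0, nat_lit 0, nat_lit 0, nat_lit 0, nat_lit 0, nat_lit 0, nat_lit 19424698527467, nat_lit 60, nat_lit 400000, nat_lit 0, nat_lit 0, [(nat_lit 3, [(nat_lit 5, nat_lit 1000)])],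
 ⟨p005_k52, nat_lit 0, nat_lit 0, nat_lit 0, nat_lit 0, nat_lit 193175, [nat_lit 1531600001, nat_lit 1719600000, nat_lit 1097600000, nat_lit 2000000], [], [nat_lit 13976364883, nat_lit 14017078619, nat_lit 13267193064, nat_lit 13311079121], nat_lit 1271250, nat_lit 1271250, nat_lit 21650, nat_lit 230001, nat_lit 0, nat_lit 0, [nat_lit 631250, nat_lit 1271250, nat_lit 1271250, nat_lit 1271250], [nat_lit 91, nat_lit 40, nat_lit 20, nat_lit 40]⟩, C1.Rw.none,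
 ⟨nat_lit 6519, nat_lit 6539, ⟨.ofNat (nat_lit 107925), .ofNat (nat_lit 183870), .ofNat (nat_lit 118626), .ofNat (nat_lit 194570), .ofNat (nat_lit 108876), .ofNat (nat_lit 184645), .ofNat (nat_lit 119575), .ofNat (nat_lit 195344)⟩, ⟨.ofNat (nat_lit 0), .ofNat (nat_lit 0), .ofNat (nat_lit 0), .ofNat (nat_lit 0), .ofNat (nat_lit 0), .ofNat (nat_lit 0), .ofNat (nat_lit 0), .ofNat (nat_lit 0)⟩⟩, [⟨nat_lit 0, nat_lit 100, nat_lit 100, nat_lit 30, nat_lit 207291376⟩]⟩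
noncomputable def p005_l163 : Lf2 := ⟨nat_lit 0, nat_lit 5, [nat_lit 4, nat_lit 5, nat_lit 5, nat_lit 20], true, nat_lit 0, nat_lit 0, nat_lit 0, nat_lit 0, ⟨nat_lit 0, nat_lit 0, nat_lit 1000, nat_lit 5, nat_lit 59, nat_lit 0, nat_lit 0, nat_lit 0, nat_lit 0, nat_lit 215, nat_lit 32267, nat_lit 259, nat_lit 65568495, nat_lit 0, nat_lit 0, nat_lit 516492, false, false⟩,
 nat_lit 0, nat_lit 100000, nat_lit 0, nat_lit 0, nat_lit 47826, nat_lit 0, nat_lit 13934, nat_lit 2433, nat_lit 0, nat_lit 0, nat_lit 0, nat_lit 0, nat_lit 0, nat_lit 110431536231308, nat_lit 0, nat_lit 1000000, nat_lit 0, nat_lit 0, [(nat_lit 3, [(nat_lit 6, nat_lit 1000)])],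
 ⟨p005_k53, nat_lit 0, nat_lit 0, nat_lit 360, nat_lit 0, nat_lit 203036, [nat_lit 49701142858, nat_lit 64927600000], [], [nat_lit 122011248302, nat_lit 109761607344, nat_lit 118875285606, nat_lit 106785733674], nat_lit 1271250, nat_lit 1271250, nat_lit 21650, nat_lit 230001, nat_lit 0, nat_lit 0, [nat_lit 1412500, nat_lit 1271250], [nat_lit 51, nat_lit 40, nat_lit 20, nat_lit 80, nat_lit 1, nat_lit 289, nat_lit 75, nat_lit 9]⟩, C1.Rw.none,
 ⟨nat_lit 6519, nat_lit 6709, ⟨.ofNat (nat_lit 99275), .ofNat (nat_lit 176815), .ofNat (nat_lit 109994), .ofNat (nat_lit 187534), .ofNat (nat_lit 108876), .ofNat (nat_lit 184645), .ofNat (nat_lit 119575), .ofNat (nat_lit 195344)⟩, ⟨.ofNat (nat_lit 0), .ofNat (nat_lit 0), .ofNat (nat_lit 0), .ofNat (nat_lit 0), .ofNat (nat_lit 0), .ofNat (nat_lit 0), .ofNat (nat_lit 0), .ofNat (nat_lit 0)⟩⟩, [⟨nat_lit 0, nat_lit 100, nat_lit 100, nat_lit 30, nat_lit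 521158312⟩]⟩
noncomputable def p005_l164 : Lf2 := ⟨nat_lit 0, nat_lit 5, [nat_lit 4, nat_lit 5, nat_lit 5, nat_lit 20], true, nat_lit 0, nat_lit 0, nat_lit 0, nat_lit 0, ⟨nat_lit 0, nat_lit 0, nat_lit 1000, nat_lit 5, nat_lit 63, nat_lit 0, nat_lit 0, nat_lit 0, nat_lit 0, nat_lit 215, nat_lit 36817, nat_lit 262, nat_lit 65400821, nat_lit 0, nat_lit 0, nat_lit 563633, false, false⟩,
 nat_lit 0, nat_lit 6195, nat_lit 0, nat_lit 0, nat_lit 3119, nat_lit 0, nat_lit 513, nat_lit 0, nat_lit 0, nat_lit 0, nat_lit 0, nat_lit 0, nat_lit 0, nat_lit 0, nat_lit 62, nat_lit 535000, nat_lit 0, nat_lit 0, [(nat_lit 3, [(nat_lit 5, nat_lit 775), (nat_lit 6, nat_lit 225)])],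
 ⟨p005_k54, nat_lit 0, nat_lit 0, nat_lit 0, nat_lit 0, nat_lit 236014, [nat_lit 1475310001, nat_lit 1806330000, nat_lit 1090390000, nat_lit 175150000], [], [nat_lit 14037008839, nat_lit 14506218970, nat_lit 13366214171, nat_lit 13801216987], nat_lit 1271250, nat_lit 1271250, nat_lit 21650, nat_lit 230001, nat_lit 0, nat_lit 0, [nat_lit 631250, nat_lit 1271250, nat_lit 1271250, nat_lit 1271250], [nat_lit 117, nat_lit 40, nat_lit 20, nat_lit 40]⟩, C1.Rw.none,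
 ⟨nat_lit 6324, nat_lit 6520, ⟨.ofNat (nat_lit 108876), .ofNat (nat_lit 184645), .ofNat (nat_lit 119575), .ofNat (nat_lit 195344), .ofNat (nat_lit 118272), .ofNat (nat_lit 192309), .ofNat (nat_lit 128956), .ofNat (nat_lit 202993)⟩, ⟨.ofNat (nat_lit 0), .ofNat (nat_lit 0), .ofNat (nat_lit 0), .ofNat (nat_lit 0), .ofNat (nat_lit 0), .ofNat (nat_lit 0), .ofNat (nat_lit 0), .ofNat (nat_lit 0)⟩⟩, [⟨nat_lit 0, nat_lit 100, nat_lit 99, nat_lit 30, nat_lit 206172593⟩]⟩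
noncomputable def p005_l165 : Lf2 := ⟨nat_lit 0, nat_lit 5, [nat_lit 4, nat_lit 5, nat_lit 5, nat_lit 20], false, nat_lit 0, nat_lit 0, nat_lit 0, nat_lit 0, ⟨nat_lit 103, nat_lit 0, nat_lit 897, nat_lit 5, nat_lit 66, nat_lit 0, nat_lit 0, nat_lit 0, nat_lit 0, nat_lit 215, nat_lit 40017, nat_lit 264, nat_lit 65233789, nat_lit 0, nat_lit 0, nat_lit 609253, false, false⟩,
 nat_lit 0, nat_lit 9052, nat_lit 0, nat_lit 0, nat_lit 4559, nat_lit 435, nat_lit 1048, nat_lit 0, nat_lit 0, nat_lit 291, nat_lit 0, nat_lit 0, nat_lit 0, nat_lit 2588959696464, nat_lit 5, nat_lit 224250, nat_lit 0, nat_lit 0, [(nat_lit 3, [(nat_lit 4, nat_lit 897)])],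
 ⟨p005_k54, nat_lit 0, nat_lit 0, nat_lit 0, nat_lit 0, nat_lit 217731, [nat_lit 1860914501, nat_lit 1157206500, nat_lit 691675301, nat_lit 101133499], [], [nat_lit 14318901380, nat_lit 14466657514, nat_lit 13028024723, nat_lit 13177042816], nat_lit 1271250, nat_lit 1271250, nat_lit 43600, nat_lit 230001, nat_lit 0, nat_lit 0, [nat_lit 631250, nat_lit 1271250, nat_lit 1271250, nat_lit 1271250], [nat_lit 117, nat_lit 40, nat_lit 20, nat_lit 40]⟩, ⟨p005_k54, nat_lit 0, nat_lit 0, nat_lit 0, nat_lit 0, nat_lit 0, [nat_lit 271662500, nat_lit 561298500, nat_lit 730218500, nat_lit 915206500], [], [nat_lit 1944793235, nat_lit 1962678135, nat_lit 1818901566, nat_lit 1838703567], nat_lit 0, nat_lit 0, nat_lit 0, nat_lit 0, nat_lit 0, nat_lit 0, [], [nat_lit 117, nat_lit 40, nat_lit 20, nat_lit 40]⟩,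
 ⟨nat_lit 6461, nat_lit 6520, ⟨.ofNat (nat_lit 127994), .ofNat (nat_lit 195344), .ofNat (nat_lit 131203), .ofNat (nat_lit 198554), .ofNat (nat_lit 130770), .ofNat (nat_lit 197655), .ofNat (nat_lit 133978), .ofNat (nat_lit 200863)⟩, ⟨.ofNat (nat_lit 0), .ofNat (nat_lit 0), .ofNat (nat_lit 0), .ofNat (nat_lit 0), .ofNat (nat_lit 0), .ofNat (nat_lit 0), .ofNat (nat_lit 0), .ofNat (nat_lit 0)⟩⟩, [⟨nat_lit 0, nat_lit 100, nat_lit 100, nat_lit 33, nat_lit 404032416⟩]⟩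
noncomputable def p005_l166 : Lf2 := ⟨nat_lit 0, nat_lit 5, [nat_lit 4, nat_lit 5, nat_lit 5, nat_lit 20], false, nat_lit 0, nat_lit 0, nat_lit 0, nat_lit 0, ⟨nat_lit 126, nat_lit 0, nat_lit 874, nat_lit 5, nat_lit 67, nat_lit 0, nat_lit 0, nat_lit 0, nat_lit 0, nat_lit 215, nat_lit 41667, nat_lit 265, nat_lit 65166665, nat_lit 0, nat_lit 0, nat_lit 627238, false, false⟩,
 nat_lit 0, nat_lit 9921, nat_lit 0, nat_lit 0, nat_lit 5072, nat_lit 534, nat_lit 1149, nat_lit 0, nat_lit 0, nat_lit 354, nat_lit 0, nat_lit 0, nat_lit 0, nat_lit 18722412452270, nat_lit 0, nat_lit 217070, nat_lit 0, nat_lit 0, [(nat_lit 3, [(nat_lit 3, nat_lit 26), (nat_lit 4, nat_lit 848)])],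
 ⟨p005_k55, nat_lit 0, nat_lit 0, nat_lit 0, nat_lit 0, nat_lit 230934, [nat_lit 2235473001, nat_lit 1179240200, nat_lit 749083401, nat_lit 200662199], [], [nat_lit 14157324586, nat_lit 14264478306, nat_lit 12679238126, nat_lit 12782981367], nat_lit 1271250, nat_lit 1271250, nat_lit 43600, nat_lit 230001, nat_lit 0, nat_lit 0, [nat_lit 631250, nat_lit 1271250, nat_lit 1271250, nat_lit 1271250], [nat_lit 117, nat_lit 40, nat_lit 20, nat_lit 40]⟩, ⟨p005_k54, nat_lit 0, nat_lit 0, nat_lit 0, nat_lit 0, nat_lit 0, [nat_lit 332325000, nat_lit 686637000, nat_lit 893277000, nat_lit 1119573000], [], [nat_lit 2382266262, nat_lit 2419570209, nat_lit 2226738600, nat_lit 2264211651], nat_lit 0, nat_lit 0, nat_lit 0, nat_lit 0, nat_lit 0, nat_lit 0, [], [nat_lit 117, nat_lit 40, nat_lit 20, nat_lit 40]⟩,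
 ⟨nat_lit 6422, nat_lit 6462, ⟨.ofNat (nat_lit 130770), .ofNat (nat_lit 197655), .ofNat (nat_lit 136117), .ofNat (nat_lit 203002), .ofNat (nat_lit 132611), .ofNat (nat_lit 199188), .ofNat (nat_lit 137956), .ofNat (nat_lit 204533)⟩, ⟨.ofNat (nat_lit 0), .ofNat (nat_lit 0), .ofNat (nat_lit 0), .ofNat (nat_lit 0), .ofNat (nat_lit 0), .ofNat (nat_lit 0), .ofNat (nat_lit 0), .ofNat (nat_lit 0)⟩⟩, [⟨nat_lit 0, nat_lit 100, nat_lit 100, nat_lit 35, nat_lit 456008119⟩]⟩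
noncomputable def p005_l167 : Lf2 := ⟨nat_lit 0, nat_lit 5, [nat_lit 4, nat_lit 5, nat_lit 5, nat_lit 20], false, nat_lit 0, nat_lit 0, nat_lit 0, nat_lit 0, ⟨nat_lit 883, nat_lit 0, nat_lit 117, nat_lit 5, nat_lit 69, nat_lit 0, nat_lit 0, nat_lit 0, nat_lit 0, nat_lit 215, nat_lit 45067, nat_lit 267, nat_lit 65045651, nat_lit 0, nat_lit 0, nat_lit 659189, false, false⟩,
 nat_lit 0, nat_lit 17705, nat_lit 0, nat_lit 0, nat_lit 9144, nat_lit 3747, nat_lit 2944, nat_lit 0, nat_lit 0, nat_lit 46, nat_lit 0, nat_lit 0, nat_lit 0, nat_lit 0, nat_lit 0, nat_lit 22815, nat_lit 0, nat_lit 0, [(nat_lit 3, [(nat_lit 3, nat_lit 117)])],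
 ⟨p005_k56, nat_lit 0, nat_lit 0, nat_lit 0, nat_lit 0, nat_lit 270658, [nat_lit 4344822500, nat_lit 4876398901, nat_lit 6243086901, nat_lit 7721595700], [], [nat_lit 20582993858, nat_lit 20928638545, nat_lit 17483664246, nat_lit 17859980234], nat_lit 1271250, nat_lit 1271250, nat_lit 43600, nat_lit 230001, nat_lit 0, nat_lit 0, [nat_lit 631250, nat_lit 1271250, nat_lit 1271250, nat_lit 1271250], [nat_lit 117, nat_lit 40, nat_lit 20, nat_lit 40]⟩, ⟨p005_k54, nat_lit 0, nat_lit 0, nat_lit 0, nat_lit 0, nat_lit 0, [nat_lit 2328912500, nat_lit 4811908500, nat_lit 6260028500, nat_lit 7845896500], [], [nat_lit 21562442271, nat_lit 22096841402, nat_lit 20470583700, nat_lit 20978463896], nat_lit 0, nat_lit 0, nat_lit 0, nat_lit 0, nat_lit 0, nat_lit 0, [], [nat_lit 117, nat_lit 40, nat_lit 20, nat_lit 40]⟩,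
 ⟨nat_lit 6324, nat_lit 6423, ⟨.ofNat (nat_lit 132611), .ofNat (nat_lit 199188), .ofNat (nat_lit 143302), .ofNat (nat_lit 209879), .ofNat (nat_lit 137182), .ofNat (nat_lit 202993), .ofNat (nat_lit 147866), .ofNat (nat_lit 213677)⟩, ⟨.ofNat (nat_lit 0), .ofNat (nat_lit 0), .ofNat (nat_lit 0), .ofNat (nat_lit 0), .ofNat (nat_lit 0), .ofNat (nat_lit 0), .ofNat (nat_lit 0), .ofNat (nat_lit 0)⟩⟩, [⟨nat_lit 0, nat_lit 100, nat_lit 100, nat_lit 36, nat_lit 1371116043⟩]⟩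
noncomputable def p005_l168 : Lf2 := ⟨nat_lit 0, nat_lit 5, [nat_lit 4, nat_lit 5, nat_lit 5, nat_lit 20], true, nat_lit 0, nat_lit 0, nat_lit 0, nat_lit 0, ⟨nat_lit 0, nat_lit 0, nat_lit 1000, nat_lit 5, nat_lit 65, nat_lit 0, nat_lit 0, nat_lit 0, nat_lit 0, nat_lit 215, nat_lit 40017, nat_lit 264, nat_lit 65292447, nat_lit 0, nat_lit 0, nat_lit 593377, false, false⟩,
 nat_lit 0, nat_lit 100000, nat_lit 0, nat_lit 0, nat_lit 50364, nat_lit 0, nat_lit 12726, nat_lit 2305, nat_lit 0, nat_lit 0, nat_lit 0, nat_lit 0, nat_lit 0, nat_lit 165285550859006, nat_lit 0, nat_lit 1000000, nat_lit 0, nat_lit 0, [(nat_lit 3, [(nat_lit 6, nat_lit 1000)])],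
 ⟨p005_k57, nat_lit 0, nat_lit 0, nat_lit 437, nat_lit 0, nat_lit 278009, [nat_lit 47141142858, nat_lit 61343600000], [], [nat_lit 98920671984, nat_lit 86019852802, nat_lit 95743771974, nat_lit 83012659326], nat_lit 1271250, nat_lit 1271250, nat_lit 21650, nat_lit 230001, nat_lit 0, nat_lit 0, [nat_lit 1412500, nat_lit 1271250], [nat_lit 51, nat_lit 40, nat_lit 20, nat_lit 80, nat_lit 1, nat_lit 289, nat_lit 75, nat_lit 9]⟩, C1.Rw.none,
 ⟨nat_lit 6324, nat_lit 6520, ⟨.ofNat (nat_lit 108876), .ofNat (nat_lit 184645), .ofNat (nat_lit 130274), .ofNat (nat_lit 206043), .ofNat (nat_lit 118272), .ofNat (nat_lit 192309), .ofNat (nat_lit 139640), .ofNat (nat_lit 213677)⟩, ⟨.ofNat (nat_lit 0), .ofNat (nat_lit 0), .ofNat (nat_lit 0), .ofNat (nat_lit 0), .ofNat (nat_lit 0), .ofNat (nat_lit 0), .ofNat (nat_lit 0), .ofNat (nat_lit 0)⟩⟩, [⟨nat_lit 0, nat_lit 100, nat_lit 100, nat_lit 40, nat_lit 525013843⟩]⟩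
noncomputable def p005_l169 : Lf2 := ⟨nat_lit 3, nat_lit 5, [nat_lit 4, nat_lit 5, nat_lit 5, nat_lit 20], false, nat_lit 0, nat_lit 0, nat_lit 0, nat_lit 0, zbN0,
 nat_lit 0, nat_lit 0, nat_lit 0, nat_lit 0, nat_lit 0, nat_lit 0, nat_lit 0, nat_lit 0, nat_lit 0, nat_lit 0, nat_lit 0, nat_lit 0, nat_lit 0, nat_lit 0, nat_lit 0, nat_lit 0, nat_lit 0, nat_lit 0, [],
 C1.Rw.none, ⟨p005_k53, nat_lit 0, nat_lit 0, nat_lit 289, nat_lit 0, nat_lit 0, [], [], [], nat_lit 0, nat_lit 0, nat_lit 0, nat_lit 0, nat_lit 0, nat_lit 0, [], [nat_lit 51, nat_lit 40, nat_lit 20, nat_lit 80, nat_lit 1, nat_lit 289, nat_lit 75, nat_lit 9]⟩,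
 zbF0, []⟩
noncomputable def b_NL_550_550_0_16 : St := ⟨false, nat_lit 1, nat_lit 0, nat_lit 1, nat_lit 20, nat_lit 220, nat_lit 240, nat_lit 220, nat_lit 240, nat_lit 4, nat_lit 40, nat_lit 0, nat_lit 0, nat_lit 0, nat_lit 0, nat_lit 0, nat_lit 0, nat_lit 8, nat_lit 20, nat_lit 0, nat_lit 0, nat_lit 0, nat_lit 0⟩
theorem d_NL_550_550_0_16 (h : EB TB.env) : Dead b_NL_550_550_0_16 := chkB_sound0 h (T :=
(.spl (nat_lit 8) (nat_lit 800)
(.spl (nat_lit 0) (nat_lit 230)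
(.ord (.spl (nat_lit 7) (nat_lit 600)
(.spl (nat_lit 0) (nat_lit 225)
(.ord (.leaf p005_l158))
(.spl (nat_lit 0) (nat_lit 228)
(.ord (.spl (nat_lit 0) (nat_lit 227)
(.ord (.leaf p005_l159))
(.leaf p005_l160)))
(.spl (nat_lit 0) (nat_lit 229)
(.ord (.leaf p005_l161))
(.leaf p005_l162))))
(.leaf p005_l163)))
(.spl (nat_lit 7) (nat_lit 600)
(.spl (nat_lit 1) (nat_lit 230)
(.leaf p005_l164)
(.trZ (nat_lit 0) (nat_lit 100) (nat_lit 100) (nat_lit 30) (nat_lit 8) (.spl (nat_lit 0) (nat_lit 235)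
(.ord (.spl (nat_lit 0) (nat_lit 233)
(.ord (.leaf p005_l165))
(.leaf p005_l166)))
(.leaf p005_l167))))
(.leaf p005_l168)))
(.leaf p005_l169))) (by decide +kernel)
noncomputable def p005_l170 : Lf2 := ⟨nat_lit 0, nat_lit 5, [nat_lit 4, nat_lit 5, nat_lit 5, nat_lit 20], true, nat_lit 0, nat_lit 0, nat_lit 0, nat_lit 0, ⟨nat_lit 0, nat_lit 0, nat_lit 1000, nat_lit 5, nat_lit 48, nat_lit 0, nat_lit 0, nat_lit 0, nat_lit 0, nat_lit 215, nat_lit 21600, nat_lit 251, nat_lit 66056608, nat_lit 0, nat_lit 0, nat_lit 369921, false, false⟩,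
 nat_lit 0, nat_lit 9998, nat_lit 0, nat_lit 0, nat_lit 4781, nat_lit 0, nat_lit 308, nat_lit 0, nat_lit 0, nat_lit 0, nat_lit 0, nat_lit 0, nat_lit 0, nat_lit 22786940559967, nat_lit 115, nat_lit 1000000, nat_lit 0, nat_lit 0, [(nat_lit 3, [(nat_lit 6, nat_lit 1000)])],
 ⟨p005_k58, nat_lit 0, nat_lit 0, nat_lit 298, nat_lit 0, nat_lit 23585, [nat_lit 3341142858, nat_lit 1499600000, nat_lit 23600000], [], [nat_lit 13521395434, nat_lit 13667175288, nat_lit 12548793696, nat_lit 12705818046], nat_lit 1271250, nat_lit 1271250, nat_lit 21650, nat_lit 111251, nat_lit 0, nat_lit 0, [nat_lit 1412500, nat_lit 1271250, nat_lit 1271250], [nat_lit 25, nat_lit 40, nat_lit 20, nat_lit 80, nat_lit 17, nat_lit 289, nat_lit 75, nat_lit 9]⟩, C1.Rw.none,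
 ⟨nat_lit 6652, nat_lit 6709, ⟨.ofNat (nat_lit 99275), .ofNat (nat_lit 133737), .ofNat (nat_lit 102491), .ofNat (nat_lit 136953), .ofNat (nat_lit 102178), .ofNat (nat_lit 136402), .ofNat (nat_lit 105392), .ofNat (nat_lit 139616)⟩, ⟨.ofNat (nat_lit 0), .ofNat (nat_lit 0), .ofNat (nat_lit 0), .ofNat (nat_lit 0), .ofNat (nat_lit 0), .ofNat (nat_lit 0), .ofNat (nat_lit 0), .ofNat (nat_lit 0)⟩⟩, [⟨nat_lit 0, nat_lit 100, nat_lit 100, nat_lit 23, nat_lit 407847152⟩]⟩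
noncomputable def p005_l171 : Lf2 := ⟨nat_lit 0, nat_lit 5, [nat_lit 4, nat_lit 5, nat_lit 5, nat_lit 20], true, nat_lit 0, nat_lit 0, nat_lit 0, nat_lit 0, ⟨nat_lit 0, nat_lit 0, nat_lit 1000, nat_lit 5, nat_lit 44, nat_lit 0, nat_lit 0, nat_lit 0, nat_lit 0, nat_lit 215, nat_lit 18150, nat_lit 248, nat_lit 66212253, nat_lit 0, nat_lit 0, nat_lit 319495, false, false⟩,
 nat_lit 0, nat_lit 9822, nat_lit 0, nat_lit 0, nat_lit 4771, nat_lit 0, nat_lit 285, nat_lit 0, nat_lit 0, nat_lit 0, nat_lit 0, nat_lit 0, nat_lit 0, nat_lit 0, nat_lit 115, nat_lit 1000000, nat_lit 0, nat_lit 0, [(nat_lit 3, [(nat_lit 6, nat_lit 1000)])],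
 ⟨p005_k59, nat_lit 0, nat_lit 0, nat_lit 301, nat_lit 0, nat_lit 31355, [nat_lit 3341142858, nat_lit 1499600000, nat_lit 23600000], [], [nat_lit 13690066395, nat_lit 13738294083, nat_lit 13447534864, nat_lit 13495766978], nat_lit 1271250, nat_lit 1271250, nat_lit 21650, nat_lit 43600, nat_lit 0, nat_lit 0, [nat_lit 1412500, nat_lit 1271250, nat_lit 1271250], [nat_lit 25, nat_lit 40, nat_lit 20, nat_lit 80, nat_lit 17, nat_lit 272, nat_lit 60, nat_lit 8]⟩, C1.Rw.none,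
 ⟨nat_lit 6633, nat_lit 6653, ⟨.ofNat (nat_lit 102178), .ofNat (nat_lit 110734), .ofNat (nat_lit 106463), .ofNat (nat_lit 115019), .ofNat (nat_lit 103141), .ofNat (nat_lit 111677), .ofNat (nat_lit 107425), .ofNat (nat_lit 115961)⟩, ⟨.ofNat (nat_lit 0), .ofNat (nat_lit 0), .ofNat (nat_lit 0), .ofNat (nat_lit 0), .ofNat (nat_lit 0), .ofNat (nat_lit 0), .ofNat (nat_lit 0), .ofNat (nat_lit 0)⟩⟩, [⟨nat_lit 0, nat_lit 100, nat_lit 100, nat_lit 24, nat_lit 409389359⟩]⟩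
noncomputable def p005_l172 : Lf2 := ⟨nat_lit 0, nat_lit 5, [nat_lit 4, nat_lit 5, nat_lit 5, nat_lit 20], true, nat_lit 0, nat_lit 0, nat_lit 0, nat_lit 0, ⟨nat_lit 0, nat_lit 0, nat_lit 1000, nat_lit 5, nat_lit 49, nat_lit 0, nat_lit 0, nat_lit 0, nat_lit 0, nat_lit 215, nat_lit 22817, nat_lit 252, nat_lit 66019079, nat_lit 0, nat_lit 0, nat_lit 381771, false, false⟩,
 nat_lit 0, nat_lit 9952, nat_lit 0, nat_lit 0, nat_lit 4835, nat_lit 0, nat_lit 297, nat_lit 0, nat_lit 0, nat_lit 0, nat_lit 0, nat_lit 0, nat_lit 0, nat_lit 0, nat_lit 115, nat_lit 1000000, nat_lit 0, nat_lit 0, [(nat_lit 3, [(nat_lit 6, nat_lit 1000)])],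
 ⟨p005_k59, nat_lit 0, nat_lit 0, nat_lit 295, nat_lit 0, nat_lit 31355, [nat_lit 3341142858, nat_lit 1499600000, nat_lit 23600000], [], [nat_lit 13395793045, nat_lit 13444263235, nat_lit 12902981036, nat_lit 12956459540], nat_lit 1271250, nat_lit 1271250, nat_lit 43600, nat_lit 88400, nat_lit 0, nat_lit 0, [nat_lit 1412500, nat_lit 1271250, nat_lit 1271250], [nat_lit 25, nat_lit 40, nat_lit 20, nat_lit 80, nat_lit 17, nat_lit 272, nat_lit 60, nat_lit 8]⟩, C1.Rw.none,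
 ⟨nat_lit 6633, nat_lit 6653, ⟨.ofNat (nat_lit 110734), .ofNat (nat_lit 127846), .ofNat (nat_lit 115019), .ofNat (nat_lit 132131), .ofNat (nat_lit 111677), .ofNat (nat_lit 128750), .ofNat (nat_lit 115961), .ofNat (nat_lit 133034)⟩, ⟨.ofNat (nat_lit 0), .ofNat (nat_lit 0), .ofNat (nat_lit 0), .ofNat (nat_lit 0), .ofNat (nat_lit 0), .ofNat (nat_lit 0), .ofNat (nat_lit 0), .ofNat (nat_lit 0)⟩⟩, []⟩
noncomputable def p005_l173 : Lf2 := ⟨nat_lit 0, nat_lit 5, [nat_lit 4, nat_lit 5, nat_lit 5, nat_lit 20], true, nat_lit 0, nat_lit 0, nat_lit 0, nat_lit 0, ⟨nat_lit 0, nat_lit 0, nat_lit 1000, nat_lit 5, nat_lit 54, nat_lit 0, nat_lit 0, nat_lit 0, nat_lit 0, nat_lit 215, nat_lit 26667, nat_lit 255, nat_lit 65805779, nat_lit 0, nat_lit 0, nat_lit 447162, false, false⟩,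
 nat_lit 0, nat_lit 10223, nat_lit 0, nat_lit 0, nat_lit 4966, nat_lit 0, nat_lit 320, nat_lit 0, nat_lit 0, nat_lit 0, nat_lit 0, nat_lit 0, nat_lit 0, nat_lit 0, nat_lit 115, nat_lit 1000000, nat_lit 0, nat_lit 0, [(nat_lit 3, [(nat_lit 6, nat_lit 1000)])],
 ⟨p005_k59, nat_lit 0, nat_lit 0, nat_lit 281, nat_lit 0, nat_lit 31355, [nat_lit 3341142858, nat_lit 1499600000, nat_lit 23600000], [], [nat_lit 12785200135, nat_lit 12834443835, nat_lit 12530863569, nat_lit 12582866821], nat_lit 1271250, nat_lit 1271250, nat_lit 88400, nat_lit 111251, nat_lit 0, nat_lit 0, [nat_lit 1412500, nat_lit 1271250, nat_lit 1271250], [nat_lit 25, nat_lit 40, nat_lit 20, nat_lit 80, nat_lit 17, nat_lit 289, nat_lit 75, nat_lit 9]⟩, C1.Rw.none,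
 ⟨nat_lit 6633, nat_lit 6653, ⟨.ofNat (nat_lit 127846), .ofNat (nat_lit 136402), .ofNat (nat_lit 132131), .ofNat (nat_lit 140687), .ofNat (nat_lit 128750), .ofNat (nat_lit 137286), .ofNat (nat_lit 133034), .ofNat (nat_lit 141570)⟩, ⟨.ofNat (nat_lit 0), .ofNat (nat_lit 0), .ofNat (nat_lit 0), .ofNat (nat_lit 0), .ofNat (nat_lit 0), .ofNat (nat_lit 0), .ofNat (nat_lit 0), .ofNat (nat_lit 0)⟩⟩, []⟩
noncomputable def p005_l174 : Lf2 := ⟨nat_lit 0, nat_lit 5, [nat_lit 4, nat_lit 5, nat_lit 5, nat_lit 20], true, nat_lit 0, nat_lit 0, nat_lit 0, nat_lit 0, ⟨nat_lit 0, nat_lit 0, nat_lit 1000, nat_lit 5, nat_lit 44, nat_lit 0, nat_lit 0, nat_lit 0, nat_lit 0, nat_lit 215, nat_lit 18150, nat_lit 248, nat_lit 66206299, nat_lit 0, nat_lit 0, nat_lit 321462, false, false⟩,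
 nat_lit 0, nat_lit 9751, nat_lit 0, nat_lit 0, nat_lit 4762, nat_lit 0, nat_lit 275, nat_lit 0, nat_lit 0, nat_lit 0, nat_lit 0, nat_lit 0, nat_lit 0, nat_lit 0, nat_lit 115, nat_lit 1000000, nat_lit 0, nat_lit 0, [(nat_lit 3, [(nat_lit 6, nat_lit 1000)])],
 ⟨p005_k60, nat_lit 0, nat_lit 0, nat_lit 302, nat_lit 0, nat_lit 31204, [nat_lit 3341142858, nat_lit 1499600000, nat_lit 23600000], [], [nat_lit 13756761747, nat_lit 13804956026, nat_lit 13514779418, nat_lit 13563395995], nat_lit 1271250, nat_lit 1271250, nat_lit 21650, nat_lit 43600, nat_lit 0, nat_lit 0, [nat_lit 1412500, nat_lit 1271250, nat_lit 1271250], [nat_lit 25, nat_lit 40, nat_lit 20, nat_lit 80, nat_lit 17, nat_lit 272, nat_lit 60, nat_lit 8]⟩, C1.Rw.none,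
 ⟨nat_lit 6614, nat_lit 6634, ⟨.ofNat (nat_lit 103141), .ofNat (nat_lit 111677), .ofNat (nat_lit 106354), .ofNat (nat_lit 114890), .ofNat (nat_lit 104102), .ofNat (nat_lit 112619), .ofNat (nat_lit 107315), .ofNat (nat_lit 115831)⟩, ⟨.ofNat (nat_lit 0), .ofNat (nat_lit 0), .ofNat (nat_lit 0), .ofNat (nat_lit 0), .ofNat (nat_lit 0), .ofNat (nat_lit 0), .ofNat (nat_lit 0), .ofNat (nat_lit 0)⟩⟩, [⟨nat_lit 0, nat_lit 100, nat_lit 100, nat_lit 24, nat_lit 408138662⟩]⟩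
noncomputable def p005_l175 : Lf2 := ⟨nat_lit 0, nat_lit 5, [nat_lit 4, nat_lit 5, nat_lit 5, nat_lit 20], true, nat_lit 0, nat_lit 0, nat_lit 0, nat_lit 0, ⟨nat_lit 0, nat_lit 0, nat_lit 1000, nat_lit 5, nat_lit 45, nat_lit 0, nat_lit 0, nat_lit 0, nat_lit 0, nat_lit 215, nat_lit 19267, nat_lit 249, nat_lit 66167496, nat_lit 0, nat_lit 0, nat_lit 334217, false, false⟩,
 nat_lit 0, nat_lit 8288, nat_lit 0, nat_lit 0, nat_lit 4047, nat_lit 0, nat_lit 345, nat_lit 0, nat_lit 0, nat_lit 0, nat_lit 0, nat_lit 0, nat_lit 0, nat_lit 2407955899588, nat_lit 115, nat_lit 1000000, nat_lit 0, nat_lit 0, [(nat_lit 3, [(nat_lit 6, nat_lit 1000)])],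
 ⟨p005_k61, nat_lit 0, nat_lit 0, nat_lit 0, nat_lit 0, nat_lit 39732, [nat_lit 3007028572, nat_lit 2237600001, nat_lit 23600000], [], [nat_lit 12950719702, nat_lit 12998150768, nat_lit 12751220250, nat_lit 12798648420], nat_lit 1271250, nat_lit 1271250, nat_lit 21650, nat_lit 43600, nat_lit 0, nat_lit 0, [nat_lit 1271250, nat_lit 1271250, nat_lit 1271250], [nat_lit 103, nat_lit 40, nat_lit 20, nat_lit 40]⟩, C1.Rw.none,
 ⟨nat_lit 6614, nat_lit 6634, ⟨.ofNat (nat_lit 106354), .ofNat (nat_lit 114890), .ofNat (nat_lit 108496), .ofNat (nat_lit 117033), .ofNat (nat_lit 107315), .ofNat (nat_lit 115831), .ofNat (nat_lit 109456), .ofNat (nat_lit 117973)⟩, ⟨.ofNat (nat_lit 0), .ofNat (nat_lit 0), .ofNat (nat_lit 0), .ofNat (nat_lit 0), .ofNat (nat_lit 0), .ofNat (nat_lit 0), .ofNat (nat_lit 0), .ofNat (nat_lit 0)⟩⟩, [⟨nat_lit 0, nat_lit 100, nat_lit 100, nat_lit 25, nat_lit 355964657⟩]⟩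
noncomputable def p005_l176 : Lf2 := ⟨nat_lit 0, nat_lit 5, [nat_lit 4, nat_lit 5, nat_lit 5, nat_lit 20], true, nat_lit 0, nat_lit 0, nat_lit 0, nat_lit 0, ⟨nat_lit 0, nat_lit 0, nat_lit 1000, nat_lit 5, nat_lit 45, nat_lit 0, nat_lit 0, nat_lit 0, nat_lit 0, nat_lit 215, nat_lit 19267, nat_lit 249, nat_lit 66167496, nat_lit 0, nat_lit 0, nat_lit 334217, false, false⟩,
 nat_lit 0, nat_lit 100000, nat_lit 0, nat_lit 100000, nat_lit 48837, nat_lit 0, nat_lit 12917, nat_lit 2089, nat_lit 0, nat_lit 0, nat_lit 0, nat_lit 0, nat_lit 0, nat_lit 400000000000000, nat_lit 0, nat_lit 1000000, nat_lit 0, nat_lit 0, [(nat_lit 3, [(nat_lit 6, nat_lit 1000)])],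
 ⟨p005_k60, nat_lit 0, nat_lit 0, nat_lit 305, nat_lit 0, nat_lit 39732, [nat_lit 42821142858, nat_lit 48875600001, nat_lit 55295600000], [], [nat_lit 72540335042, nat_lit 72761601646, nat_lit 69733313711, nat_lit 69878715544], nat_lit 1271250, nat_lit 1271250, nat_lit 21650, nat_lit 43600, nat_lit 0, nat_lit 0, [nat_lit 1412500, nat_lit 1271250, nat_lit 1271250], [nat_lit 25, nat_lit 40, nat_lit 20, nat_lit 80, nat_lit 17, nat_lit 272, nat_lit 60, nat_lit 8]⟩, C1.Rw.none,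
 ⟨nat_lit 6614, nat_lit 6634, ⟨.ofNat (nat_lit 106354), .ofNat (nat_lit 114890), .ofNat (nat_lit 108496), .ofNat (nat_lit 117033), .ofNat (nat_lit 107315), .ofNat (nat_lit 115831), .ofNat (nat_lit 109456), .ofNat (nat_lit 117973)⟩, ⟨.ofNat (nat_lit 0), .ofNat (nat_lit 0), .ofNat (nat_lit 0), .ofNat (nat_lit 0), .ofNat (nat_lit 0), .ofNat (nat_lit 0), .ofNat (nat_lit 0), .ofNat (nat_lit 0)⟩⟩, [⟨nat_lit 0, nat_lit 100, nat_lit 100, nat_lit 24, nat_lit 10000000000⟩, ⟨nat_lit 0, nat_lit 100, nat_lit 100, nat_lit 25, nat_lit 10000000000⟩, ⟨nat_lit 0, nat_lit 100, nat_lit 100, nat_lit 23, nat_lit 10000000000⟩, ⟨nat_lit 13, nat_lit 100, nat_lit 1, nat_lit 100, nat_lit 73132301⟩]⟩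
noncomputable def p005_l177 : Lf2 := ⟨nat_lit 3, nat_lit 5, [nat_lit 4, nat_lit 5, nat_lit 5, nat_lit 20], false, nat_lit 0, nat_lit 0, nat_lit 0, nat_lit 0, zbN0,
 nat_lit 0, nat_lit 0, nat_lit 0, nat_lit 0, nat_lit 0, nat_lit 0, nat_lit 0, nat_lit 0, nat_lit 0, nat_lit 0, nat_lit 0, nat_lit 0, nat_lit 0, nat_lit 0, nat_lit 0, nat_lit 0, nat_lit 0, nat_lit 0, [],
 C1.Rw.none, ⟨p005_k62, nat_lit 0, nat_lit 0, nat_lit 286, nat_lit 0, nat_lit 0, [], [], [], nat_lit 0, nat_lit 0, nat_lit 0, nat_lit 0, nat_lit 0, nat_lit 0, [], [nat_lit 51, nat_lit 40, nat_lit 20, nat_lit 80, nat_lit 1, nat_lit 272, nat_lit 60, nat_lit 8]⟩,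
 zbF0, []⟩
noncomputable def p005_l178 : Lf2 := ⟨nat_lit 0, nat_lit 5, [nat_lit 4, nat_lit 5, nat_lit 5, nat_lit 20], true, nat_lit 0, nat_lit 0, nat_lit 0, nat_lit 0, ⟨nat_lit 0, nat_lit 0, nat_lit 1000, nat_lit 5, nat_lit 49, nat_lit 0, nat_lit 0, nat_lit 0, nat_lit 0, nat_lit 215, nat_lit 22817, nat_lit 252, nat_lit 65995828, nat_lit 0, nat_lit 0, nat_lit 389059, false, false⟩,
 nat_lit 0, nat_lit 9880, nat_lit 0, nat_lit 0, nat_lit 4825, nat_lit 0, nat_lit 287, nat_lit 0, nat_lit 0, nat_lit 0, nat_lit 0, nat_lit 0, nat_lit 0, nat_lit 27672156156936, nat_lit 115, nat_lit 1000000, nat_lit 0, nat_lit 0, [(nat_lit 3, [(nat_lit 6, nat_lit 1000)])],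
 ⟨p005_k60, nat_lit 0, nat_lit 0, nat_lit 299, nat_lit 0, nat_lit 39732, [nat_lit 3341142858, nat_lit 1499600000, nat_lit 23600000], [], [nat_lit 13463189211, nat_lit 13512716974, nat_lit 12971597682, nat_lit 13026624144], nat_lit 1271250, nat_lit 1271250, nat_lit 43600, nat_lit 88400, nat_lit 0, nat_lit 0, [nat_lit 1412500, nat_lit 1271250, nat_lit 1271250], [nat_lit 25, nat_lit 40, nat_lit 20, nat_lit 80, nat_lit 17, nat_lit 289, nat_lit 75, nat_lit 9]⟩, C1.Rw.none,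
 ⟨nat_lit 6614, nat_lit 6634, ⟨.ofNat (nat_lit 111677), .ofNat (nat_lit 128750), .ofNat (nat_lit 117033), .ofNat (nat_lit 134105), .ofNat (nat_lit 112619), .ofNat (nat_lit 129652), .ofNat (nat_lit 117973), .ofNat (nat_lit 135006)⟩, ⟨.ofNat (nat_lit 0), .ofNat (nat_lit 0), .ofNat (nat_lit 0), .ofNat (nat_lit 0), .ofNat (nat_lit 0), .ofNat (nat_lit 0), .ofNat (nat_lit 0), .ofNat (nat_lit 0)⟩⟩, []⟩
noncomputable def p005_l179 : Lf2 := ⟨nat_lit 0, nat_lit 5, [nat_lit 4, nat_lit 5, nat_lit 5, nat_lit 20], true, nat_lit 0, nat_lit 0, nat_lit 0, nat_lit 0, ⟨nat_lit 0, nat_lit 0, nat_lit 1000, nat_lit 5, nat_lit 54, nat_lit 0, nat_lit 0, nat_lit 0, nat_lit 0, nat_lit 215, nat_lit 28017, nat_lit 256, nat_lit 65780788, nat_lit 0, nat_lit 0, nat_lit 454622, false, false⟩,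
 nat_lit 0, nat_lit 10148, nat_lit 0, nat_lit 0, nat_lit 4956, nat_lit 0, nat_lit 309, nat_lit 0, nat_lit 0, nat_lit 0, nat_lit 0, nat_lit 0, nat_lit 0, nat_lit 0, nat_lit 115, nat_lit 1000000, nat_lit 0, nat_lit 0, [(nat_lit 3, [(nat_lit 6, nat_lit 1000)])],
 ⟨p005_k60, nat_lit 0, nat_lit 0, nat_lit 286, nat_lit 0, nat_lit 39732, [nat_lit 3341142858, nat_lit 1499600000, nat_lit 23600000], [], [nat_lit 12856103044, nat_lit 12905357798, nat_lit 12602377755, nat_lit 12654368302], nat_lit 1271250, nat_lit 1271250, nat_lit 88400, nat_lit 111251, nat_lit 0, nat_lit 0, [nat_lit 1412500, nat_lit 1271250, nat_lit 1271250], [nat_lit 25, nat_lit 40, nat_lit 20, nat_lit 80, nat_lit 17, nat_lit 289, nat_lit 75, nat_lit 9]⟩, C1.Rw.none,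
 ⟨nat_lit 6614, nat_lit 6634, ⟨.ofNat (nat_lit 128750), .ofNat (nat_lit 137286), .ofNat (nat_lit 134105), .ofNat (nat_lit 142641), .ofNat (nat_lit 129652), .ofNat (nat_lit 138168), .ofNat (nat_lit 135006), .ofNat (nat_lit 143523)⟩, ⟨.ofNat (nat_lit 0), .ofNat (nat_lit 0), .ofNat (nat_lit 0), .ofNat (nat_lit 0), .ofNat (nat_lit 0), .ofNat (nat_lit 0), .ofNat (nat_lit 0), .ofNat (nat_lit 0)⟩⟩, []⟩
noncomputable def p005_l180 : Lf2 := ⟨nat_lit 1, nat_lit 5, [nat_lit 4, nat_lit 5, nat_lit 5, nat_lit 20], false, nat_lit 0, nat_lit 0, nat_lit 0, nat_lit 0, zbN0,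
 nat_lit 0, nat_lit 0, nat_lit 0, nat_lit 0, nat_lit 0, nat_lit 0, nat_lit 0, nat_lit 0, nat_lit 0, nat_lit 0, nat_lit 0, nat_lit 0, nat_lit 0, nat_lit 0, nat_lit 0, nat_lit 0, nat_lit 0, nat_lit 0, [],
 C1.Rw.none, C1.Rw.none,
 zbF0, []⟩
noncomputable def b_NL_550_550_0_17 : St := ⟨false, nat_lit 1, nat_lit 0, nat_lit 1, nat_lit 20, nat_lit 220, nat_lit 225, nat_lit 220, nat_lit 230, nat_lit 4, nat_lit 20, nat_lit 0, nat_lit 0, nat_lit 0, nat_lit 0, nat_lit 0, nat_lit 0, nat_lit 20, nat_lit 28, nat_lit 0, nat_lit 0, nat_lit 0, nat_lit 0⟩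
theorem d_NL_550_550_0_17 (h : EB TB.env) : Dead b_NL_550_550_0_17 := chkB_sound0 h (T :=
(.ord (.spl (nat_lit 0) (nat_lit 223)
(.ord (.leaf p005_l170))
(.spl (nat_lit 6) (nat_lit 24)
(.spl (nat_lit 0) (nat_lit 224)
(.ord (.spl (nat_lit 2) (nat_lit 16)
(.spl (nat_lit 2) (nat_lit 8)
(.leaf p005_l171)
(.leaf p005_l172))
(.leaf p005_l173)))
(.spl (nat_lit 2) (nat_lit 16)
(.spl (nat_lit 2) (nat_lit 8)
(.spl (nat_lit 1) (nat_lit 223)
(.leaf p005_l174)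
(.spl (nat_lit 8) (nat_lit 800)
(.spl (nat_lit 7) (nat_lit 600)
(.leaf p005_l175)
(.leaf p005_l176))
(.leaf p005_l177)))
(.leaf p005_l178))
(.leaf p005_l179)))
(.leaf p005_l180))))) (by decide +kernel)
noncomputable def p005_l181 : Lf2 := ⟨nat_lit 0, nat_lit 5, [nat_lit 4, nat_lit 5, nat_lit 5, nat_lit 20], true, nat_lit 0, nat_lit 0, nat_lit 0, nat_lit 0, ⟨nat_lit 0, nat_lit 0, nat_lit 1000, nat_lit 5, nat_lit 47, nat_lit 0, nat_lit 0, nat_lit 0, nat_lit 0, nat_lit 215, nat_lit 20417, nat_lit 250, nat_lit 66099193, nat_lit 0, nat_lit 0, nat_lit 356332, false, false⟩,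
 nat_lit 0, nat_lit 5361, nat_lit 0, nat_lit 0, nat_lit 2631, nat_lit 0, nat_lit 0, nat_lit 0, nat_lit 101, nat_lit 0, nat_lit 0, nat_lit 0, nat_lit 0, nat_lit 7762138619347, nat_lit 100, nat_lit 840400, nat_lit 0, nat_lit 0, [(nat_lit 3, [(nat_lit 5, nat_lit 266), (nat_lit 6, nat_lit 734)])],
 ⟨p005_k63, nat_lit 0, nat_lit 0, nat_lit 0, nat_lit 0, nat_lit 65884, [nat_lit 2863732732, nat_lit 1926220001, nat_lit 7494400], [], [nat_lit 10205768977, nat_lit 10350266398, nat_lit 10076267281, nat_lit 10201334732], nat_lit 1271250, nat_lit 1271250, nat_lit 21650, nat_lit 43600, nat_lit 0, nat_lit 0, [nat_lit 1271250, nat_lit 1271250, nat_lit 1271250], [nat_lit 103, nat_lit 40, nat_lit 20, nat_lit 40]⟩, C1.Rw.none,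
 ⟨nat_lit 6557, nat_lit 6615, ⟨.ofNat (nat_lit 109456), .ofNat (nat_lit 117973), .ofNat (nat_lit 112669), .ofNat (nat_lit 121185), .ofNat (nat_lit 112324), .ofNat (nat_lit 120782), .ofNat (nat_lit 115535), .ofNat (nat_lit 123992)⟩, ⟨.ofNat (nat_lit 0), .ofNat (nat_lit 0), .ofNat (nat_lit 0), .ofNat (nat_lit 0), .ofNat (nat_lit 0), .ofNat (nat_lit 0), .ofNat (nat_lit 0), .ofNat (nat_lit 0)⟩⟩, [⟨nat_lit 0, nat_lit 100, nat_lit 100, nat_lit 28, nat_lit 299715032⟩]⟩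
noncomputable def p005_l182 : Lf2 := ⟨nat_lit 0, nat_lit 5, [nat_lit 4, nat_lit 5, nat_lit 5, nat_lit 20], true, nat_lit 0, nat_lit 0, nat_lit 0, nat_lit 0, ⟨nat_lit 0, nat_lit 0, nat_lit 1000, nat_lit 5, nat_lit 46, nat_lit 0, nat_lit 0, nat_lit 0, nat_lit 0, nat_lit 215, nat_lit 19267, nat_lit 249, nat_lit 66129629, nat_lit 0, nat_lit 0, nat_lit 346530, false, false⟩,
 nat_lit 0, nat_lit 8231, nat_lit 0, nat_lit 0, nat_lit 4040, nat_lit 0, nat_lit 337, nat_lit 0, nat_lit 0, nat_lit 0, nat_lit 0, nat_lit 0, nat_lit 0, nat_lit 2141904805803, nat_lit 115, nat_lit 1000000, nat_lit 0, nat_lit 0, [(nat_lit 3, [(nat_lit 6, nat_lit 1000)])],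
 ⟨p005_k63, nat_lit 0, nat_lit 0, nat_lit 0, nat_lit 0, nat_lit 48277, [nat_lit 3007028572, nat_lit 2237600001, nat_lit 23600000], [], [nat_lit 13002877053, nat_lit 13050279803, nat_lit 12803800670, nat_lit 12851200469], nat_lit 1271250, nat_lit 1271250, nat_lit 21650, nat_lit 43600, nat_lit 0, nat_lit 0, [nat_lit 1271250, nat_lit 1271250, nat_lit 1271250], [nat_lit 103, nat_lit 40, nat_lit 20, nat_lit 40]⟩, C1.Rw.none,
 ⟨nat_lit 6595, nat_lit 6615, ⟨.ofNat (nat_lit 109456), .ofNat (nat_lit 117973), .ofNat (nat_lit 110527), .ofNat (nat_lit 119044), .ofNat (nat_lit 110414), .ofNat (nat_lit 118911), .ofNat (nat_lit 111485), .ofNat (nat_lit 119982)⟩, ⟨.ofNat (nat_lit 0), .ofNat (nat_lit 0), .ofNat (nat_lit 0), .ofNat (nat_lit 0), .ofNat (nat_lit 0), .ofNat (nat_lit 0), .ofNat (nat_lit 0), .ofNat (nat_lit 0)⟩⟩, [⟨nat_lit 0, nat_lit 100, nat_lit 100, nat_lit 26, nat_lit 355348182⟩]⟩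
noncomputable def p005_l183 : Lf2 := ⟨nat_lit 0, nat_lit 5, [nat_lit 4, nat_lit 5, nat_lit 5, nat_lit 20], true, nat_lit 0, nat_lit 0, nat_lit 0, nat_lit 0, ⟨nat_lit 0, nat_lit 0, nat_lit 1000, nat_lit 5, nat_lit 46, nat_lit 0, nat_lit 0, nat_lit 0, nat_lit 0, nat_lit 215, nat_lit 20417, nat_lit 250, nat_lit 66115391, nat_lit 0, nat_lit 0, nat_lit 351124, false, false⟩,
 nat_lit 0, nat_lit 8908, nat_lit 0, nat_lit 0, nat_lit 4395, nat_lit 0, nat_lit 4, nat_lit 0, nat_lit 0, nat_lit 0, nat_lit 0, nat_lit 0, nat_lit 0, nat_lit 0, nat_lit 115, nat_lit 1000000, nat_lit 0, nat_lit 0, [(nat_lit 3, [(nat_lit 6, nat_lit 1000)])],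
 ⟨p005_k64, nat_lit 0, nat_lit 0, nat_lit 0, nat_lit 0, nat_lit 52412, [nat_lit 3007028572, nat_lit 2237600001, nat_lit 23600000], [], [nat_lit 14238419352, nat_lit 14295874665, nat_lit 13954611998, nat_lit 14009829894], nat_lit 1271250, nat_lit 1271250, nat_lit 21650, nat_lit 43600, nat_lit 0, nat_lit 0, [nat_lit 1271250, nat_lit 1271250, nat_lit 1271250], [nat_lit 103, nat_lit 40, nat_lit 20, nat_lit 40]⟩, C1.Rw.none,
 ⟨nat_lit 6576, nat_lit 6596, ⟨.ofNat (nat_lit 110414), .ofNat (nat_lit 118911), .ofNat (nat_lit 111485), .ofNat (nat_lit 119982), .ofNat (nat_lit 111370), .ofNat (nat_lit 119847), .ofNat (nat_lit 112441), .ofNat (nat_lit 120918)⟩, ⟨.ofNat (nat_lit 0), .ofNat (nat_lit 0), .ofNat (nat_lit 0), .ofNat (nat_lit 0), .ofNat (nat_lit 0), .ofNat (nat_lit 0), .ofNat (nat_lit 0), .ofNat (nat_lit 0)⟩⟩, [⟨nat_lit 0, nat_lit 100, nat_lit 100, nat_lit 26, nat_lit 463956648⟩]⟩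
noncomputable def p005_l184 : Lf2 := ⟨nat_lit 0, nat_lit 5, [nat_lit 4, nat_lit 5, nat_lit 5, nat_lit 20], true, nat_lit 0, nat_lit 0, nat_lit 0, nat_lit 0, ⟨nat_lit 0, nat_lit 0, nat_lit 1000, nat_lit 5, nat_lit 47, nat_lit 0, nat_lit 0, nat_lit 0, nat_lit 0, nat_lit 215, nat_lit 20417, nat_lit 250, nat_lit 66099161, nat_lit 0, nat_lit 0, nat_lit 356342, false, false⟩,
 nat_lit 0, nat_lit 7183, nat_lit 0, nat_lit 0, nat_lit 3544, nat_lit 0, nat_lit 0, nat_lit 0, nat_lit 59, nat_lit 0, nat_lit 0, nat_lit 0, nat_lit 0, nat_lit 5540862858735, nat_lit 115, nat_lit 1000000, nat_lit 0, nat_lit 0, [(nat_lit 3, [(nat_lit 6, nat_lit 1000)])],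
 ⟨p005_k64, nat_lit 0, nat_lit 0, nat_lit 0, nat_lit 0, nat_lit 56789, [nat_lit 3007028572, nat_lit 2237600001, nat_lit 23600000], [], [nat_lit 11839131305, nat_lit 11892105116, nat_lit 11616392666, nat_lit 11669405620], nat_lit 1271250, nat_lit 1271250, nat_lit 21650, nat_lit 43600, nat_lit 0, nat_lit 0, [nat_lit 1271250, nat_lit 1271250, nat_lit 1271250], [nat_lit 103, nat_lit 40, nat_lit 20, nat_lit 40]⟩, C1.Rw.none,
 ⟨nat_lit 6576, nat_lit 6596, ⟨.ofNat (nat_lit 111485), .ofNat (nat_lit 119982), .ofNat (nat_lit 112556), .ofNat (nat_lit 121052), .ofNat (nat_lit 112441), .ofNat (nat_lit 120918), .ofNat (nat_lit 113511), .ofNat (nat_lit 121988)⟩, ⟨.ofNat (nat_lit 0), .ofNat (nat_lit 0), .ofNat (nat_lit 0), .ofNat (nat_lit 0), .ofNat (nat_lit 0), .ofNat (nat_lit 0), .ofNat (nat_lit 0), .ofNat (nat_lit 0)⟩⟩, [⟨nat_lit 0, nat_lit 100, nat_lit 100, nat_lit 27, nat_lit 385175181⟩]⟩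
noncomputable def p005_l185 : Lf2 := ⟨nat_lit 0, nat_lit 5, [nat_lit 4, nat_lit 5, nat_lit 5, nat_lit 20], true, nat_lit 0, nat_lit 0, nat_lit 0, nat_lit 0, ⟨nat_lit 0, nat_lit 0, nat_lit 1000, nat_lit 5, nat_lit 47, nat_lit 0, nat_lit 0, nat_lit 0, nat_lit 0, nat_lit 215, nat_lit 20417, nat_lit 250, nat_lit 66099161, nat_lit 0, nat_lit 0, nat_lit 356342, false, false⟩,
 nat_lit 0, nat_lit 100000, nat_lit 0, nat_lit 0, nat_lit 49344, nat_lit 0, nat_lit 7021, nat_lit 22, nat_lit 0, nat_lit 0, nat_lit 0, nat_lit 0, nat_lit 0, nat_lit 0, nat_lit 93, nat_lit 1000000, nat_lit 17034125599, nat_lit 0, [(nat_lit 3, [(nat_lit 6, nat_lit 1000)])],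
 ⟨p005_k65, nat_lit 0, nat_lit 0, nat_lit 0, nat_lit 0, nat_lit 56789, [nat_lit 1742533334, nat_lit 2935066667, nat_lit 2237600001, nat_lit 23600000], [], [nat_lit 2986592011, nat_lit 3268860662, nat_lit 0, nat_lit 196448686], nat_lit 1271250, nat_lit 1271250, nat_lit 21650, nat_lit 43600, nat_lit 0, nat_lit 0, [nat_lit 631250, nat_lit 1271250, nat_lit 1271250, nat_lit 1271250], [nat_lit 91, nat_lit 40, nat_lit 20, nat_lit 40]⟩, C1.Rw.none,
 ⟨nat_lit 6576, nat_lit 6596, ⟨.ofNat (nat_lit 111485), .ofNat (nat_lit 119982), .ofNat (nat_lit 112556), .ofNat (nat_lit 121052), .ofNat (nat_lit 112441), .ofNat (nat_lit 120918), .ofNat (nat_lit 113511), .ofNat (nat_lit 121988)⟩, ⟨.ofNat (nat_lit 0), .ofNat (nat_lit 0), .ofNat (nat_lit 0), .ofNat (nat_lit 0), .ofNat (nat_lit 0), .ofNat (nat_lit 0), .ofNat (nat_lit 0), .ofNat (nat_lit 0)⟩⟩, [⟨nat_lit 0, nat_lit 100, nat_lit 100, nat_lit 27, nat_lit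 3947355462⟩]⟩
noncomputable def p005_l186 : Lf2 := ⟨nat_lit 0, nat_lit 5, [nat_lit 4, nat_lit 5, nat_lit 5, nat_lit 20], true, nat_lit 0, nat_lit 0, nat_lit 0, nat_lit 0, ⟨nat_lit 0, nat_lit 0, nat_lit 1000, nat_lit 5, nat_lit 47, nat_lit 0, nat_lit 0, nat_lit 0, nat_lit 0, nat_lit 215, nat_lit 20417, nat_lit 250, nat_lit 66099161, nat_lit 0, nat_lit 0, nat_lit 356342, false, false⟩,
 nat_lit 0, nat_lit 100000, nat_lit 0, nat_lit 0, nat_lit 49344, nat_lit 0, nat_lit 7021, nat_lit 22, nat_lit 0, nat_lit 0, nat_lit 0, nat_lit 0, nat_lit 0, nat_lit 0, nat_lit 93, nat_lit 1000000, nat_lit 17034125599, nat_lit 0, [(nat_lit 3, [(nat_lit 6, nat_lit 1000)])],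
 ⟨p005_k65, nat_lit 0, nat_lit 0, nat_lit 0, nat_lit 0, nat_lit 56789, [nat_lit 1742533334, nat_lit 2935066667, nat_lit 2237600001, nat_lit 23600000], [], [nat_lit 2986592011, nat_lit 3268860662, nat_lit 0, nat_lit 196448686], nat_lit 1271250, nat_lit 1271250, nat_lit 21650, nat_lit 43600, nat_lit 0, nat_lit 0, [nat_lit 631250, nat_lit 1271250, nat_lit 1271250, nat_lit 1271250], [nat_lit 91, nat_lit 40, nat_lit 20, nat_lit 40]⟩, C1.Rw.none,
 ⟨nat_lit 6576, nat_lit 6596, ⟨.ofNat (nat_lit 111485), .ofNat (nat_lit 119982), .ofNat (nat_lit 112556), .ofNat (nat_lit 121052), .ofNat (nat_lit 112441), .ofNat (nat_lit 120918), .ofNat (nat_lit 113511), .ofNat (nat_lit 121988)⟩, ⟨.ofNat (nat_lit 0), .ofNat (nat_lit 0), .ofNat (nat_lit 0), .ofNat (nat_lit 0), .ofNat (nat_lit 0), .ofNat (nat_lit 0), .ofNat (nat_lit 0), .ofNat (nat_lit 0)⟩⟩, [⟨nat_lit 0, nat_lit 100, nat_lit 100, nat_lit 27, nat_lit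 3947355462⟩]⟩
noncomputable def p005_l187 : Lf2 := ⟨nat_lit 0, nat_lit 5, [nat_lit 4, nat_lit 5, nat_lit 5, nat_lit 20], true, nat_lit 0, nat_lit 0, nat_lit 0, nat_lit 0, ⟨nat_lit 0, nat_lit 0, nat_lit 1000, nat_lit 5, nat_lit 47, nat_lit 0, nat_lit 0, nat_lit 0, nat_lit 0, nat_lit 215, nat_lit 20417, nat_lit 250, nat_lit 66101072, nat_lit 0, nat_lit 0, nat_lit 355730, false, false⟩,
 nat_lit 0, nat_lit 8844, nat_lit 0, nat_lit 0, nat_lit 4386, nat_lit 0, nat_lit 0, nat_lit 0, nat_lit 0, nat_lit 0, nat_lit 0, nat_lit 0, nat_lit 0, nat_lit 0, nat_lit 115, nat_lit 1000000, nat_lit 0, nat_lit 0, [(nat_lit 3, [(nat_lit 6, nat_lit 1000)])],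
 ⟨p005_k66, nat_lit 0, nat_lit 0, nat_lit 0, nat_lit 0, nat_lit 56500, [nat_lit 3007028572, nat_lit 2237600001, nat_lit 23600000], [], [nat_lit 14298399634, nat_lit 14355807552, nat_lit 14014767160, nat_lit 14070487984], nat_lit 1271250, nat_lit 1271250, nat_lit 21650, nat_lit 43600, nat_lit 0, nat_lit 0, [nat_lit 1271250, nat_lit 1271250, nat_lit 1271250], [nat_lit 103, nat_lit 40, nat_lit 20, nat_lit 40]⟩, C1.Rw.none,
 ⟨nat_lit 6557, nat_lit 6577, ⟨.ofNat (nat_lit 111370), .ofNat (nat_lit 119847), .ofNat (nat_lit 112441), .ofNat (nat_lit 120918), .ofNat (nat_lit 112324), .ofNat (nat_lit 120782), .ofNat (nat_lit 113394), .ofNat (nat_lit 121852)⟩, ⟨.ofNat (nat_lit 0), .ofNat (nat_lit 0), .ofNat (nat_lit 0), .ofNat (nat_lit 0), .ofNat (nat_lit 0), .ofNat (nat_lit 0), .ofNat (nat_lit 0), .ofNat (nat_lit 0)⟩⟩, [⟨nat_lit 0, nat_lit 100, nat_lit 100, nat_lit 27, nat_lit 463554149⟩]⟩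
noncomputable def p005_l188 : Lf2 := ⟨nat_lit 0, nat_lit 5, [nat_lit 4, nat_lit 5, nat_lit 5, nat_lit 20], true, nat_lit 0, nat_lit 0, nat_lit 0, nat_lit 0, ⟨nat_lit 0, nat_lit 0, nat_lit 1000, nat_lit 5, nat_lit 47, nat_lit 0, nat_lit 0, nat_lit 0, nat_lit 0, nat_lit 215, nat_lit 20417, nat_lit 250, nat_lit 66084723, nat_lit 0, nat_lit 0, nat_lit 360966, false, false⟩,
 nat_lit 0, nat_lit 5304, nat_lit 0, nat_lit 0, nat_lit 2630, nat_lit 0, nat_lit 0, nat_lit 0, nat_lit 134, nat_lit 0, nat_lit 0, nat_lit 0, nat_lit 0, nat_lit 0, nat_lit 115, nat_lit 1000000, nat_lit 0, nat_lit 0, [(nat_lit 3, [(nat_lit 6, nat_lit 1000)])],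
 ⟨p005_k66, nat_lit 0, nat_lit 0, nat_lit 0, nat_lit 0, nat_lit 60828, [nat_lit 3007028572, nat_lit 2237600001, nat_lit 23600000], [], [nat_lit 8975126126, nat_lit 9031370477, nat_lit 8821358540, nat_lit 8877614588], nat_lit 1271250, nat_lit 1271250, nat_lit 21650, nat_lit 43600, nat_lit 0, nat_lit 0, [nat_lit 1271250, nat_lit 1271250, nat_lit 1271250], [nat_lit 103, nat_lit 40, nat_lit 20, nat_lit 40]⟩, C1.Rw.none,
 ⟨nat_lit 6557, nat_lit 6577, ⟨.ofNat (nat_lit 112441), .ofNat (nat_lit 120918), .ofNat (nat_lit 113511), .ofNat (nat_lit 121988), .ofNat (nat_lit 113394), .ofNat (nat_lit 121852), .ofNat (nat_lit 114464), .ofNat (nat_lit 122922)⟩, ⟨.ofNat (nat_lit 0), .ofNat (nat_lit 0), .ofNat (nat_lit 0), .ofNat (nat_lit 0), .ofNat (nat_lit 0), .ofNat (nat_lit 0), .ofNat (nat_lit 0), .ofNat (nat_lit 0)⟩⟩, [⟨nat_lit 0, nat_lit 100, nat_lit 100, nat_lit 27, nat_lit 300163165⟩]⟩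
noncomputable def p005_l189 : Lf2 := ⟨nat_lit 0, nat_lit 5, [nat_lit 4, nat_lit 5, nat_lit 5, nat_lit 20], true, nat_lit 0, nat_lit 0, nat_lit 0, nat_lit 0, ⟨nat_lit 0, nat_lit 0, nat_lit 1000, nat_lit 5, nat_lit 47, nat_lit 0, nat_lit 0, nat_lit 0, nat_lit 0, nat_lit 215, nat_lit 20417, nat_lit 250, nat_lit 66084723, nat_lit 0, nat_lit 0, nat_lit 360966, false, false⟩,
 nat_lit 0, nat_lit 7146, nat_lit 0, nat_lit 0, nat_lit 3544, nat_lit 0, nat_lit 0, nat_lit 0, nat_lit 59, nat_lit 0, nat_lit 0, nat_lit 0, nat_lit 0, nat_lit 0, nat_lit 115, nat_lit 1000000, nat_lit 0, nat_lit 0, [(nat_lit 3, [(nat_lit 6, nat_lit 1000)])],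
 ⟨p005_k66, nat_lit 0, nat_lit 0, nat_lit 0, nat_lit 0, nat_lit 60828, [nat_lit 3007028572, nat_lit 2237600001, nat_lit 23600000], [], [nat_lit 11892105116, nat_lit 11945078927, nat_lit 11669405620, nat_lit 11722418574], nat_lit 1271250, nat_lit 1271250, nat_lit 21650, nat_lit 43600, nat_lit 0, nat_lit 0, [nat_lit 1271250, nat_lit 1271250, nat_lit 1271250], [nat_lit 103, nat_lit 40, nat_lit 20, nat_lit 40]⟩, C1.Rw.none,
 ⟨nat_lit 6557, nat_lit 6577, ⟨.ofNat (nat_lit 112441), .ofNat (nat_lit 120918), .ofNat (nat_lit 113511), .ofNat (nat_lit 121988), .ofNat (nat_lit 113394), .ofNat (nat_lit 121852), .ofNat (nat_lit 114464), .ofNat (nat_lit 122922)⟩, ⟨.ofNat (nat_lit 0), .ofNat (nat_lit 0), .ofNat (nat_lit 0), .ofNat (nat_lit 0), .ofNat (nat_lit 0), .ofNat (nat_lit 0), .ofNat (nat_lit 0), .ofNat (nat_lit 0)⟩⟩, [⟨nat_lit 0, nat_lit 100, nat_lit 100, nat_lit 27, nat_lit 385175181⟩]⟩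
noncomputable def p005_l190 : Lf2 := ⟨nat_lit 0, nat_lit 5, [nat_lit 4, nat_lit 5, nat_lit 5, nat_lit 20], true, nat_lit 0, nat_lit 0, nat_lit 0, nat_lit 0, ⟨nat_lit 0, nat_lit 0, nat_lit 1000, nat_lit 5, nat_lit 47, nat_lit 0, nat_lit 0, nat_lit 0, nat_lit 0, nat_lit 215, nat_lit 20417, nat_lit 250, nat_lit 66084723, nat_lit 0, nat_lit 0, nat_lit 360966, false, false⟩,
 nat_lit 0, nat_lit 100000, nat_lit 0, nat_lit 0, nat_lit 49599, nat_lit 0, nat_lit 7098, nat_lit 53, nat_lit 0, nat_lit 0, nat_lit 0, nat_lit 0, nat_lit 0, nat_lit 0, nat_lit 62, nat_lit 1000000, nat_lit 16131159980, nat_lit 0, [(nat_lit 3, [(nat_lit 6, nat_lit 1000)])],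
 ⟨p005_k50, nat_lit 0, nat_lit 0, nat_lit 0, nat_lit 0, nat_lit 60828, [nat_lit 1742533334, nat_lit 2935066667, nat_lit 2237600001, nat_lit 23600000], [], [nat_lit 3006542546, nat_lit 3290099697, nat_lit 0, nat_lit 201976233], nat_lit 1271250, nat_lit 1271250, nat_lit 21650, nat_lit 43600, nat_lit 0, nat_lit 0, [nat_lit 631250, nat_lit 1271250, nat_lit 1271250, nat_lit 1271250], [nat_lit 91, nat_lit 40, nat_lit 20, nat_lit 40]⟩, C1.Rw.none,
 ⟨nat_lit 6557, nat_lit 6577, ⟨.ofNat (nat_lit 112441), .ofNat (nat_lit 120918), .ofNat (nat_lit 113511), .ofNat (nat_lit 121988), .ofNat (nat_lit 113394), .ofNat (nat_lit 121852), .ofNat (nat_lit 114464), .ofNat (nat_lit 122922)⟩, ⟨.ofNat (nat_lit 0), .ofNat (nat_lit 0), .ofNat (nat_lit 0), .ofNat (nat_lit 0), .ofNat (nat_lit 0), .ofNat (nat_lit 0), .ofNat (nat_lit 0), .ofNat (nat_lit 0)⟩⟩, [⟨nat_lit 0, nat_lit 100, nat_lit 100, nat_lit 27, nat_lit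 3966465205⟩]⟩
noncomputable def p005_l191 : Lf2 := ⟨nat_lit 0, nat_lit 5, [nat_lit 4, nat_lit 5, nat_lit 5, nat_lit 20], true, nat_lit 0, nat_lit 0, nat_lit 0, nat_lit 0, ⟨nat_lit 0, nat_lit 0, nat_lit 1000, nat_lit 5, nat_lit 47, nat_lit 0, nat_lit 0, nat_lit 0, nat_lit 0, nat_lit 215, nat_lit 20417, nat_lit 250, nat_lit 66084723, nat_lit 0, nat_lit 0, nat_lit 360966, false, false⟩,
 nat_lit 0, nat_lit 100000, nat_lit 0, nat_lit 0, nat_lit 49599, nat_lit 0, nat_lit 7098, nat_lit 53, nat_lit 0, nat_lit 0, nat_lit 0, nat_lit 0, nat_lit 0, nat_lit 0, nat_lit 62, nat_lit 1000000, nat_lit 16131159980, nat_lit 0, [(nat_lit 3, [(nat_lit 6, nat_lit 1000)])],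
 ⟨p005_k50, nat_lit 0, nat_lit 0, nat_lit 0, nat_lit 0, nat_lit 60828, [nat_lit 1742533334, nat_lit 2935066667, nat_lit 2237600001, nat_lit 23600000], [], [nat_lit 3006542546, nat_lit 3290099697, nat_lit 0, nat_lit 201976233], nat_lit 1271250, nat_lit 1271250, nat_lit 21650, nat_lit 43600, nat_lit 0, nat_lit 0, [nat_lit 631250, nat_lit 1271250, nat_lit 1271250, nat_lit 1271250], [nat_lit 91, nat_lit 40, nat_lit 20, nat_lit 40]⟩, C1.Rw.none,
 ⟨nat_lit 6557, nat_lit 6577, ⟨.ofNat (nat_lit 112441), .ofNat (nat_lit 120918), .ofNat (nat_lit 113511), .ofNat (nat_lit 121988), .ofNat (nat_lit 113394), .ofNat (nat_lit 121852), .ofNat (nat_lit 114464), .ofNat (nat_lit 122922)⟩, ⟨.ofNat (nat_lit 0), .ofNat (nat_lit 0), .ofNat (nat_lit 0), .ofNat (nat_lit 0), .ofNat (nat_lit 0), .ofNat (nat_lit 0), .ofNat (nat_lit 0), .ofNat (nat_lit 0)⟩⟩, [⟨nat_lit 0, nat_lit 100, nat_lit 100, nat_lit 27, nat_lit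 3966465205⟩]⟩
noncomputable def p005_l192 : Lf2 := ⟨nat_lit 0, nat_lit 5, [nat_lit 4, nat_lit 5, nat_lit 5, nat_lit 20], true, nat_lit 0, nat_lit 0, nat_lit 0, nat_lit 0, ⟨nat_lit 0, nat_lit 0, nat_lit 1000, nat_lit 5, nat_lit 48, nat_lit 0, nat_lit 0, nat_lit 0, nat_lit 0, nat_lit 215, nat_lit 21600, nat_lit 251, nat_lit 66068233, nat_lit 0, nat_lit 0, nat_lit 366226, false, false⟩,
 nat_lit 0, nat_lit 3375, nat_lit 0, nat_lit 0, nat_lit 1673, nat_lit 0, nat_lit 179, nat_lit 0, nat_lit 140, nat_lit 0, nat_lit 0, nat_lit 0, nat_lit 0, nat_lit 15175475589036, nat_lit 60, nat_lit 400000, nat_lit 0, nat_lit 0, [(nat_lit 3, [(nat_lit 5, nat_lit 1000)])],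
 ⟨p005_k50, nat_lit 0, nat_lit 0, nat_lit 0, nat_lit 0, nat_lit 65155, [nat_lit 1531600001, nat_lit 1719600000, nat_lit 1097600000, nat_lit 2000000], [], [nat_lit 8985332113, nat_lit 9028452939, nat_lit 8910068890, nat_lit 8948817836], nat_lit 1271250, nat_lit 1271250, nat_lit 21650, nat_lit 43600, nat_lit 0, nat_lit 0, [nat_lit 631250, nat_lit 1271250, nat_lit 1271250, nat_lit 1271250], [nat_lit 91, nat_lit 40, nat_lit 20, nat_lit 40]⟩, C1.Rw.none,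
 ⟨nat_lit 6557, nat_lit 6577, ⟨.ofNat (nat_lit 113511), .ofNat (nat_lit 121988), .ofNat (nat_lit 114581), .ofNat (nat_lit 123059), .ofNat (nat_lit 114464), .ofNat (nat_lit 122922), .ofNat (nat_lit 115535), .ofNat (nat_lit 123992)⟩, ⟨.ofNat (nat_lit 0), .ofNat (nat_lit 0), .ofNat (nat_lit 0), .ofNat (nat_lit 0), .ofNat (nat_lit 0), .ofNat (nat_lit 0), .ofNat (nat_lit 0), .ofNat (nat_lit 0)⟩⟩, [⟨nat_lit 0, nat_lit 100, nat_lit 100, nat_lit 28, nat_lit 211474516⟩]⟩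
noncomputable def p005_l193 : Lf2 := ⟨nat_lit 0, nat_lit 5, [nat_lit 4, nat_lit 5, nat_lit 5, nat_lit 20], true, nat_lit 0, nat_lit 0, nat_lit 0, nat_lit 0, ⟨nat_lit 0, nat_lit 0, nat_lit 1000, nat_lit 5, nat_lit 48, nat_lit 0, nat_lit 0, nat_lit 0, nat_lit 0, nat_lit 215, nat_lit 21600, nat_lit 251, nat_lit 66068233, nat_lit 0, nat_lit 0, nat_lit 366226, false, false⟩,
 nat_lit 0, nat_lit 3375, nat_lit 0, nat_lit 0, nat_lit 1673, nat_lit 0, nat_lit 179, nat_lit 0, nat_lit 140, nat_lit 0, nat_lit 0, nat_lit 0, nat_lit 0, nat_lit 10930465677890, nat_lit 60, nat_lit 400000, nat_lit 0, nat_lit 0, [(nat_lit 3, [(nat_lit 5, nat_lit 1000)])],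
 ⟨p005_k50, nat_lit 0, nat_lit 0, nat_lit 0, nat_lit 0, nat_lit 65155, [nat_lit 1531600001, nat_lit 1719600000, nat_lit 1097600000, nat_lit 2000000], [], [nat_lit 8985332113, nat_lit 9028452939, nat_lit 8910068890, nat_lit 8948817836], nat_lit 1271250, nat_lit 1271250, nat_lit 21650, nat_lit 43600, nat_lit 0, nat_lit 0, [nat_lit 631250, nat_lit 1271250, nat_lit 1271250, nat_lit 1271250], [nat_lit 91, nat_lit 40, nat_lit 20, nat_lit 40]⟩, C1.Rw.none,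
 ⟨nat_lit 6557, nat_lit 6577, ⟨.ofNat (nat_lit 113511), .ofNat (nat_lit 121988), .ofNat (nat_lit 114581), .ofNat (nat_lit 123059), .ofNat (nat_lit 114464), .ofNat (nat_lit 122922), .ofNat (nat_lit 115535), .ofNat (nat_lit 123992)⟩, ⟨.ofNat (nat_lit 0), .ofNat (nat_lit 0), .ofNat (nat_lit 0), .ofNat (nat_lit 0), .ofNat (nat_lit 0), .ofNat (nat_lit 0), .ofNat (nat_lit 0), .ofNat (nat_lit 0)⟩⟩, [⟨nat_lit 0, nat_lit 100, nat_lit 100, nat_lit 28, nat_lit 211474516⟩]⟩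
noncomputable def p005_l194 : Lf2 := ⟨nat_lit 0, nat_lit 5, [nat_lit 4, nat_lit 5, nat_lit 5, nat_lit 20], true, nat_lit 0, nat_lit 0, nat_lit 0, nat_lit 0, ⟨nat_lit 0, nat_lit 0, nat_lit 1000, nat_lit 5, nat_lit 48, nat_lit 0, nat_lit 0, nat_lit 0, nat_lit 0, nat_lit 215, nat_lit 21600, nat_lit 251, nat_lit 66068233, nat_lit 0, nat_lit 0, nat_lit 366226, false, false⟩,
 nat_lit 0, nat_lit 100000, nat_lit 0, nat_lit 0, nat_lit 49599, nat_lit 0, nat_lit 7098, nat_lit 53, nat_lit 0, nat_lit 0, nat_lit 0, nat_lit 0, nat_lit 0, nat_lit 0, nat_lit 62, nat_lit 1000000, nat_lit 16131159980, nat_lit 0, [(nat_lit 3, [(nat_lit 6, nat_lit 1000)])],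
 ⟨p005_k50, nat_lit 0, nat_lit 0, nat_lit 0, nat_lit 0, nat_lit 65155, [nat_lit 1742533334, nat_lit 2935066667, nat_lit 2237600001, nat_lit 23600000], [], [nat_lit 3006542546, nat_lit 3290099697, nat_lit 0, nat_lit 201976233], nat_lit 1271250, nat_lit 1271250, nat_lit 21650, nat_lit 43600, nat_lit 0, nat_lit 0, [nat_lit 631250, nat_lit 1271250, nat_lit 1271250, nat_lit 1271250], [nat_lit 91, nat_lit 40, nat_lit 20, nat_lit 40]⟩, C1.Rw.none,
 ⟨nat_lit 6557, nat_lit 6577, ⟨.ofNat (nat_lit 113511), .ofNat (nat_lit 121988), .ofNat (nat_lit 114581), .ofNat (nat_lit 123059), .ofNat (nat_lit 114464), .ofNat (nat_lit 122922), .ofNat (nat_lit 115535), .ofNat (nat_lit 123992)⟩, ⟨.ofNat (nat_lit 0), .ofNat (nat_lit 0), .ofNat (nat_lit 0), .ofNat (nat_lit 0), .ofNat (nat_lit 0), .ofNat (nat_lit 0), .ofNat (nat_lit 0), .ofNat (nat_lit 0)⟩⟩, [⟨nat_lit 0, nat_lit 100, nat_lit 100, nat_lit 28, nat_lit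 3967274793⟩]⟩
noncomputable def p005_l195 : Lf2 := ⟨nat_lit 0, nat_lit 5, [nat_lit 4, nat_lit 5, nat_lit 5, nat_lit 20], true, nat_lit 0, nat_lit 0, nat_lit 0, nat_lit 0, ⟨nat_lit 0, nat_lit 0, nat_lit 1000, nat_lit 5, nat_lit 48, nat_lit 0, nat_lit 0, nat_lit 0, nat_lit 0, nat_lit 215, nat_lit 21600, nat_lit 251, nat_lit 66068233, nat_lit 0, nat_lit 0, nat_lit 366226, false, false⟩,
 nat_lit 0, nat_lit 100000, nat_lit 0, nat_lit 0, nat_lit 49599, nat_lit 0, nat_lit 7098, nat_lit 53, nat_lit 0, nat_lit 0, nat_lit 0, nat_lit 0, nat_lit 0, nat_lit 0, nat_lit 62, nat_lit 1000000, nat_lit 16131159980, nat_lit 0, [(nat_lit 3, [(nat_lit 6, nat_lit 1000)])],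
 ⟨p005_k50, nat_lit 0, nat_lit 0, nat_lit 0, nat_lit 0, nat_lit 65155, [nat_lit 1742533334, nat_lit 2935066667, nat_lit 2237600001, nat_lit 23600000], [], [nat_lit 3006542546, nat_lit 3290099697, nat_lit 0, nat_lit 201976233], nat_lit 1271250, nat_lit 1271250, nat_lit 21650, nat_lit 43600, nat_lit 0, nat_lit 0, [nat_lit 631250, nat_lit 1271250, nat_lit 1271250, nat_lit 1271250], [nat_lit 91, nat_lit 40, nat_lit 20, nat_lit 40]⟩, C1.Rw.none,
 ⟨nat_lit 6557, nat_lit 6577, ⟨.ofNat (nat_lit 113511), .ofNat (nat_lit 121988), .ofNat (nat_lit 114581), .ofNat (nat_lit 123059), .ofNat (nat_lit 114464), .ofNat (nat_lit 122922), .ofNat (nat_lit 115535), .ofNat (nat_lit 123992)⟩, ⟨.ofNat (nat_lit 0), .ofNat (nat_lit 0), .ofNat (nat_lit 0), .ofNat (nat_lit 0), .ofNat (nat_lit 0), .ofNat (nat_lit 0), .ofNat (nat_lit 0), .ofNat (nat_lit 0)⟩⟩, [⟨nat_lit 0, nat_lit 100, nat_lit 100, nat_lit 28, nat_lit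 3967274793⟩]⟩
noncomputable def p005_l196 : Lf2 := ⟨nat_lit 0, nat_lit 5, [nat_lit 4, nat_lit 5, nat_lit 5, nat_lit 20], true, nat_lit 0, nat_lit 0, nat_lit 0, nat_lit 0, ⟨nat_lit 0, nat_lit 0, nat_lit 1000, nat_lit 5, nat_lit 47, nat_lit 0, nat_lit 0, nat_lit 0, nat_lit 0, nat_lit 215, nat_lit 20417, nat_lit 250, nat_lit 66099193, nat_lit 0, nat_lit 0, nat_lit 356332, false, false⟩,
 nat_lit 0, nat_lit 100000, nat_lit 0, nat_lit 0, nat_lit 49090, nat_lit 0, nat_lit 12219, nat_lit 2308, nat_lit 0, nat_lit 0, nat_lit 0, nat_lit 0, nat_lit 0, nat_lit 0, nat_lit 0, nat_lit 1000000, nat_lit 0, nat_lit 0, [(nat_lit 3, [(nat_lit 6, nat_lit 1000)])],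
 ⟨p005_k63, nat_lit 0, nat_lit 0, nat_lit 0, nat_lit 0, nat_lit 65884, [nat_lit 42481028572, nat_lit 50483600001, nat_lit 61427600000], [], [nat_lit 86347541072, nat_lit 87226020075, nat_lit 83022988128, nat_lit 83613957574], nat_lit 1271250, nat_lit 1271250, nat_lit 21650, nat_lit 43600, nat_lit 0, nat_lit 0, [nat_lit 1271250, nat_lit 1271250, nat_lit 1271250], [nat_lit 103, nat_lit 40, nat_lit 20, nat_lit 40]⟩, C1.Rw.none,
 ⟨nat_lit 6557, nat_lit 6615, ⟨.ofNat (nat_lit 109456), .ofNat (nat_lit 117973), .ofNat (nat_lit 112669), .ofNat (nat_lit 121185), .ofNat (nat_lit 112324), .ofNat (nat_lit 120782), .ofNat (nat_lit 115535), .ofNat (nat_lit 123992)⟩, ⟨.ofNat (nat_lit 0), .ofNat (nat_lit 0), .ofNat (nat_lit 0), .ofNat (nat_lit 0), .ofNat (nat_lit 0), .ofNat (nat_lit 0), .ofNat (nat_lit 0), .ofNat (nat_lit 0)⟩⟩, [⟨nat_lit 0, nat_lit 100, nat_lit 100, nat_lit 28, nat_lit 4621415043⟩]⟩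
noncomputable def p005_l197 : Lf2 := ⟨nat_lit 0, nat_lit 5, [nat_lit 4, nat_lit 5, nat_lit 5, nat_lit 20], true, nat_lit 0, nat_lit 0, nat_lit 0, nat_lit 0, ⟨nat_lit 0, nat_lit 0, nat_lit 1000, nat_lit 5, nat_lit 48, nat_lit 0, nat_lit 0, nat_lit 0, nat_lit 0, nat_lit 215, nat_lit 21600, nat_lit 251, nat_lit 66046253, nat_lit 0, nat_lit 0, nat_lit 373202, false, false⟩,
 nat_lit 0, nat_lit 5299, nat_lit 0, nat_lit 0, nat_lit 2641, nat_lit 0, nat_lit 0, nat_lit 0, nat_lit 100, nat_lit 0, nat_lit 0, nat_lit 0, nat_lit 0, nat_lit 11883689716682, nat_lit 101, nat_lit 844600, nat_lit 0, nat_lit 0, [(nat_lit 3, [(nat_lit 5, nat_lit 259), (nat_lit 6, nat_lit 741)])],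
 ⟨p005_k67, nat_lit 0, nat_lit 0, nat_lit 0, nat_lit 0, nat_lit 81911, [nat_lit 2878398412, nat_lit 1947730001, nat_lit 24865600], [], [nat_lit 10376648627, nat_lit 10473085564, nat_lit 10229914094, nat_lit 10324471848], nat_lit 1271250, nat_lit 1271250, nat_lit 21650, nat_lit 43600, nat_lit 0, nat_lit 0, [nat_lit 1271250, nat_lit 1271250, nat_lit 1271250], [nat_lit 103, nat_lit 40, nat_lit 20, nat_lit 40]⟩, C1.Rw.none,
 ⟨nat_lit 6519, nat_lit 6558, ⟨.ofNat (nat_lit 112324), .ofNat (nat_lit 120782), .ofNat (nat_lit 117675), .ofNat (nat_lit 126133), .ofNat (nat_lit 114225), .ofNat (nat_lit 122644), .ofNat (nat_lit 119575), .ofNat (nat_lit 127994)⟩, ⟨.ofNat (nat_lit 0), .ofNat (nat_lit 0), .ofNat (nat_lit 0), .ofNat (nat_lit 0), .ofNat (nat_lit 0), .ofNat (nat_lit 0), .ofNat (nat_lit 0), .ofNat (nat_lit 0)⟩⟩, [⟨nat_lit 0, nat_lit 100, nat_lit 100, nat_lit 28, nat_lit 800366505⟩]⟩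
noncomputable def p005_l198 : Lf2 := ⟨nat_lit 0, nat_lit 5, [nat_lit 4, nat_lit 5, nat_lit 5, nat_lit 20], true, nat_lit 0, nat_lit 0, nat_lit 0, nat_lit 0, ⟨nat_lit 0, nat_lit 0, nat_lit 1000, nat_lit 5, nat_lit 47, nat_lit 0, nat_lit 0, nat_lit 0, nat_lit 0, nat_lit 215, nat_lit 20417, nat_lit 250, nat_lit 66078457, nat_lit 0, nat_lit 0, nat_lit 362968, false, false⟩,
 nat_lit 0, nat_lit 7120, nat_lit 0, nat_lit 0, nat_lit 3549, nat_lit 0, nat_lit 0, nat_lit 0, nat_lit 58, nat_lit 0, nat_lit 0, nat_lit 0, nat_lit 0, nat_lit 0, nat_lit 115, nat_lit 1000000, nat_lit 0, nat_lit 0, [(nat_lit 3, [(nat_lit 6, nat_lit 1000)])],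
 ⟨p005_k67, nat_lit 0, nat_lit 0, nat_lit 0, nat_lit 0, nat_lit 64821, [nat_lit 3007028572, nat_lit 2237600001, nat_lit 23600000], [], [nat_lit 11977584442, nat_lit 12030584583, nat_lit 11754552003, nat_lit 11807591383], nat_lit 1271250, nat_lit 1271250, nat_lit 21650, nat_lit 43600, nat_lit 0, nat_lit 0, [nat_lit 1271250, nat_lit 1271250, nat_lit 1271250], [nat_lit 103, nat_lit 40, nat_lit 20, nat_lit 40]⟩, C1.Rw.none,
 ⟨nat_lit 6538, nat_lit 6558, ⟨.ofNat (nat_lit 112324), .ofNat (nat_lit 120782), .ofNat (nat_lit 114464), .ofNat (nat_lit 122922), .ofNat (nat_lit 113276), .ofNat (nat_lit 121714), .ofNat (nat_lit 115416), .ofNat (nat_lit 123854)⟩, ⟨.ofNat (nat_lit 0), .ofNat (nat_lit 0), .ofNat (nat_lit 0), .ofNat (nat_lit 0), .ofNat (nat_lit 0), .ofNat (nat_lit 0), .ofNat (nat_lit 0), .ofNat (nat_lit 0)⟩⟩, [⟨nat_lit 0, nat_lit 100, nat_lit 100, nat_lit 28, nat_lit 385137901⟩]⟩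
noncomputable def p005_l199 : Lf2 := ⟨nat_lit 0, nat_lit 5, [nat_lit 4, nat_lit 5, nat_lit 5, nat_lit 20], true, nat_lit 0, nat_lit 0, nat_lit 0, nat_lit 0, ⟨nat_lit 0, nat_lit 0, nat_lit 1000, nat_lit 5, nat_lit 48, nat_lit 0, nat_lit 0, nat_lit 0, nat_lit 0, nat_lit 215, nat_lit 21600, nat_lit 251, nat_lit 66053592, nat_lit 0, nat_lit 0, nat_lit 370877, false, false⟩,
 nat_lit 0, nat_lit 3394, nat_lit 0, nat_lit 0, nat_lit 1691, nat_lit 0, nat_lit 187, nat_lit 0, nat_lit 139, nat_lit 0, nat_lit 0, nat_lit 0, nat_lit 0, nat_lit 0, nat_lit 60, nat_lit 400000, nat_lit 0, nat_lit 0, [(nat_lit 3, [(nat_lit 5, nat_lit 1000)])],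
 ⟨p005_k51, nat_lit 0, nat_lit 0, nat_lit 0, nat_lit 0, nat_lit 69100, [nat_lit 1531600001, nat_lit 1719600000, nat_lit 1097600000, nat_lit 2000000], [], [nat_lit 9044744666, nat_lit 9087960282, nat_lit 8959979236, nat_lit 9003198492], nat_lit 1271250, nat_lit 1271250, nat_lit 21650, nat_lit 43600, nat_lit 0, nat_lit 0, [nat_lit 631250, nat_lit 1271250, nat_lit 1271250, nat_lit 1271250], [nat_lit 91, nat_lit 40, nat_lit 20, nat_lit 40]⟩, C1.Rw.none,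
 ⟨nat_lit 6538, nat_lit 6558, ⟨.ofNat (nat_lit 114464), .ofNat (nat_lit 122922), .ofNat (nat_lit 115535), .ofNat (nat_lit 123992), .ofNat (nat_lit 115416), .ofNat (nat_lit 123854), .ofNat (nat_lit 116486), .ofNat (nat_lit 124924)⟩, ⟨.ofNat (nat_lit 0), .ofNat (nat_lit 0), .ofNat (nat_lit 0), .ofNat (nat_lit 0), .ofNat (nat_lit 0), .ofNat (nat_lit 0), .ofNat (nat_lit 0), .ofNat (nat_lit 0)⟩⟩, [⟨nat_lit 0, nat_lit 100, nat_lit 100, nat_lit 28, nat_lit 213125532⟩]⟩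
noncomputable def p005_l200 : Lf2 := ⟨nat_lit 0, nat_lit 5, [nat_lit 4, nat_lit 5, nat_lit 5, nat_lit 20], true, nat_lit 0, nat_lit 0, nat_lit 0, nat_lit 0, ⟨nat_lit 0, nat_lit 0, nat_lit 1000, nat_lit 5, nat_lit 48, nat_lit 0, nat_lit 0, nat_lit 0, nat_lit 0, nat_lit 215, nat_lit 21600, nat_lit 251, nat_lit 66053592, nat_lit 0, nat_lit 0, nat_lit 370877, false, false⟩,
 nat_lit 0, nat_lit 3394, nat_lit 0, nat_lit 0, nat_lit 1691, nat_lit 0, nat_lit 187, nat_lit 0, nat_lit 139, nat_lit 0, nat_lit 0, nat_lit 0, nat_lit 0, nat_lit 0, nat_lit 60, nat_lit 400000, nat_lit 0, nat_lit 0, [(nat_lit 3, [(nat_lit 5, nat_lit 1000)])],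
 ⟨p005_k51, nat_lit 0, nat_lit 0, nat_lit 0, nat_lit 0, nat_lit 69100, [nat_lit 1531600001, nat_lit 1719600000, nat_lit 1097600000, nat_lit 2000000], [], [nat_lit 9044744666, nat_lit 9087960282, nat_lit 8959979236, nat_lit 9003198492], nat_lit 1271250, nat_lit 1271250, nat_lit 21650, nat_lit 43600, nat_lit 0, nat_lit 0, [nat_lit 631250, nat_lit 1271250, nat_lit 1271250, nat_lit 1271250], [nat_lit 91, nat_lit 40, nat_lit 20, nat_lit 40]⟩, C1.Rw.none,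
 ⟨nat_lit 6538, nat_lit 6558, ⟨.ofNat (nat_lit 114464), .ofNat (nat_lit 122922), .ofNat (nat_lit 115535), .ofNat (nat_lit 123992), .ofNat (nat_lit 115416), .ofNat (nat_lit 123854), .ofNat (nat_lit 116486), .ofNat (nat_lit 124924)⟩, ⟨.ofNat (nat_lit 0), .ofNat (nat_lit 0), .ofNat (nat_lit 0), .ofNat (nat_lit 0), .ofNat (nat_lit 0), .ofNat (nat_lit 0), .ofNat (nat_lit 0), .ofNat (nat_lit 0)⟩⟩, [⟨nat_lit 0, nat_lit 100, nat_lit 100, nat_lit 28, nat_lit 213125532⟩]⟩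
noncomputable def p005_l201 : Lf2 := ⟨nat_lit 0, nat_lit 5, [nat_lit 4, nat_lit 5, nat_lit 5, nat_lit 20], true, nat_lit 0, nat_lit 0, nat_lit 0, nat_lit 0, ⟨nat_lit 0, nat_lit 0, nat_lit 1000, nat_lit 5, nat_lit 48, nat_lit 0, nat_lit 0, nat_lit 0, nat_lit 0, nat_lit 215, nat_lit 21600, nat_lit 251, nat_lit 66036837, nat_lit 0, nat_lit 0, nat_lit 376178, false, false⟩,
 nat_lit 0, nat_lit 3399, nat_lit 0, nat_lit 0, nat_lit 1694, nat_lit 0, nat_lit 188, nat_lit 0, nat_lit 139, nat_lit 0, nat_lit 0, nat_lit 0, nat_lit 0, nat_lit 12780905661323, nat_lit 60, nat_lit 400000, nat_lit 0, nat_lit 0, [(nat_lit 3, [(nat_lit 5, nat_lit 1000)])],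
 ⟨p005_k51, nat_lit 0, nat_lit 0, nat_lit 0, nat_lit 0, nat_lit 73379, [nat_lit 1531600001, nat_lit 1719600000, nat_lit 1097600000, nat_lit 2000000], [], [nat_lit 9044726099, nat_lit 9087957514, nat_lit 8959737418, nat_lit 9002972530], nat_lit 1271250, nat_lit 1271250, nat_lit 21650, nat_lit 43600, nat_lit 0, nat_lit 0, [nat_lit 631250, nat_lit 1271250, nat_lit 1271250, nat_lit 1271250], [nat_lit 91, nat_lit 40, nat_lit 20, nat_lit 40]⟩, C1.Rw.none,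
 ⟨nat_lit 6538, nat_lit 6558, ⟨.ofNat (nat_lit 115535), .ofNat (nat_lit 123992), .ofNat (nat_lit 116605), .ofNat (nat_lit 125063), .ofNat (nat_lit 116486), .ofNat (nat_lit 124924), .ofNat (nat_lit 117556), .ofNat (nat_lit 125994)⟩, ⟨.ofNat (nat_lit 0), .ofNat (nat_lit 0), .ofNat (nat_lit 0), .ofNat (nat_lit 0), .ofNat (nat_lit 0), .ofNat (nat_lit 0), .ofNat (nat_lit 0), .ofNat (nat_lit 0)⟩⟩, [⟨nat_lit 0, nat_lit 100, nat_lit 100, nat_lit 28, nat_lit 430472844⟩]⟩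
noncomputable def p005_l202 : Lf2 := ⟨nat_lit 0, nat_lit 5, [nat_lit 4, nat_lit 5, nat_lit 5, nat_lit 20], true, nat_lit 0, nat_lit 0, nat_lit 0, nat_lit 0, ⟨nat_lit 0, nat_lit 0, nat_lit 1000, nat_lit 5, nat_lit 48, nat_lit 0, nat_lit 0, nat_lit 0, nat_lit 0, nat_lit 215, nat_lit 21600, nat_lit 251, nat_lit 66036837, nat_lit 0, nat_lit 0, nat_lit 376178, false, false⟩,
 nat_lit 0, nat_lit 3399, nat_lit 0, nat_lit 0, nat_lit 1694, nat_lit 0, nat_lit 188, nat_lit 0, nat_lit 139, nat_lit 0, nat_lit 0, nat_lit 0, nat_lit 0, nat_lit 12780905661323, nat_lit 60, nat_lit 400000, nat_lit 0, nat_lit 0, [(nat_lit 3, [(nat_lit 5, nat_lit 1000)])],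
 ⟨p005_k51, nat_lit 0, nat_lit 0, nat_lit 0, nat_lit 0, nat_lit 73379, [nat_lit 1531600001, nat_lit 1719600000, nat_lit 1097600000, nat_lit 2000000], [], [nat_lit 9044726099, nat_lit 9087957514, nat_lit 8959737418, nat_lit 9002972530], nat_lit 1271250, nat_lit 1271250, nat_lit 21650, nat_lit 43600, nat_lit 0, nat_lit 0, [nat_lit 631250, nat_lit 1271250, nat_lit 1271250, nat_lit 1271250], [nat_lit 91, nat_lit 40, nat_lit 20, nat_lit 40]⟩, C1.Rw.none,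
 ⟨nat_lit 6538, nat_lit 6558, ⟨.ofNat (nat_lit 115535), .ofNat (nat_lit 123992), .ofNat (nat_lit 116605), .ofNat (nat_lit 125063), .ofNat (nat_lit 116486), .ofNat (nat_lit 124924), .ofNat (nat_lit 117556), .ofNat (nat_lit 125994)⟩, ⟨.ofNat (nat_lit 0), .ofNat (nat_lit 0), .ofNat (nat_lit 0), .ofNat (nat_lit 0), .ofNat (nat_lit 0), .ofNat (nat_lit 0), .ofNat (nat_lit 0), .ofNat (nat_lit 0)⟩⟩, [⟨nat_lit 0, nat_lit 100, nat_lit 100, nat_lit 28, nat_lit 430472844⟩]⟩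
noncomputable def p005_l203 : Lf2 := ⟨nat_lit 0, nat_lit 5, [nat_lit 4, nat_lit 5, nat_lit 5, nat_lit 20], true, nat_lit 0, nat_lit 0, nat_lit 0, nat_lit 0, ⟨nat_lit 0, nat_lit 0, nat_lit 1000, nat_lit 5, nat_lit 48, nat_lit 0, nat_lit 0, nat_lit 0, nat_lit 0, nat_lit 215, nat_lit 21600, nat_lit 251, nat_lit 66038874, nat_lit 0, nat_lit 0, nat_lit 375535, false, false⟩,
 nat_lit 0, nat_lit 7095, nat_lit 0, nat_lit 0, nat_lit 3555, nat_lit 0, nat_lit 0, nat_lit 0, nat_lit 57, nat_lit 0, nat_lit 0, nat_lit 0, nat_lit 0, nat_lit 0, nat_lit 115, nat_lit 1000000, nat_lit 0, nat_lit 0, [(nat_lit 3, [(nat_lit 6, nat_lit 1000)])],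
 ⟨p005_k68, nat_lit 0, nat_lit 0, nat_lit 0, nat_lit 0, nat_lit 81461, [nat_lit 3007028572, nat_lit 2237600001, nat_lit 23600000], [], [nat_lit 12064022798, nat_lit 12117054537, nat_lit 11845123564, nat_lit 11893654303], nat_lit 1271250, nat_lit 1271250, nat_lit 21650, nat_lit 43600, nat_lit 0, nat_lit 0, [nat_lit 1271250, nat_lit 1271250, nat_lit 1271250], [nat_lit 103, nat_lit 40, nat_lit 20, nat_lit 40]⟩, C1.Rw.none,
 ⟨nat_lit 6519, nat_lit 6539, ⟨.ofNat (nat_lit 113276), .ofNat (nat_lit 121714), .ofNat (nat_lit 118626), .ofNat (nat_lit 127064), .ofNat (nat_lit 114225), .ofNat (nat_lit 122644), .ofNat (nat_lit 119575), .ofNat (nat_lit 127994)⟩, ⟨.ofNat (nat_lit 0), .ofNat (nat_lit 0), .ofNat (nat_lit 0), .ofNat (nat_lit 0), .ofNat (nat_lit 0), .ofNat (nat_lit 0), .ofNat (nat_lit 0), .ofNat (nat_lit 0)⟩⟩, [⟨nat_lit 0, nat_lit 100, nat_lit 100, nat_lit 28, nat_lit 2129066643⟩]⟩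
noncomputable def p005_l204 : Lf2 := ⟨nat_lit 0, nat_lit 5, [nat_lit 4, nat_lit 5, nat_lit 5, nat_lit 20], true, nat_lit 0, nat_lit 0, nat_lit 0, nat_lit 0, ⟨nat_lit 0, nat_lit 0, nat_lit 1000, nat_lit 5, nat_lit 47, nat_lit 0, nat_lit 0, nat_lit 0, nat_lit 0, nat_lit 215, nat_lit 20417, nat_lit 250, nat_lit 66086674, nat_lit 0, nat_lit 0, nat_lit 360343, false, false⟩,
 nat_lit 0, nat_lit 8783, nat_lit 0, nat_lit 0, nat_lit 4378, nat_lit 0, nat_lit 0, nat_lit 0, nat_lit 0, nat_lit 0, nat_lit 0, nat_lit 0, nat_lit 0, nat_lit 0, nat_lit 114, nat_lit 997000, nat_lit 0, nat_lit 0, [(nat_lit 3, [(nat_lit 5, nat_lit 5), (nat_lit 6, nat_lit 995)])],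
 ⟨p005_k67, nat_lit 0, nat_lit 0, nat_lit 0, nat_lit 0, nat_lit 60543, [nat_lit 2991410229, nat_lit 2215950001, nat_lit 3192000], [], [nat_lit 14356190729, nat_lit 14413556518, nat_lit 14073109091, nat_lit 14128887409], nat_lit 1271250, nat_lit 1271250, nat_lit 21650, nat_lit 43600, nat_lit 0, nat_lit 0, [nat_lit 1271250, nat_lit 1271250, nat_lit 1271250], [nat_lit 103, nat_lit 40, nat_lit 20, nat_lit 40]⟩, C1.Rw.none,
 ⟨nat_lit 6538, nat_lit 6558, ⟨.ofNat (nat_lit 112324), .ofNat (nat_lit 120782), .ofNat (nat_lit 113394), .ofNat (nat_lit 121852), .ofNat (nat_lit 113276), .ofNat (nat_lit 121714), .ofNat (nat_lit 114346), .ofNat (nat_lit 122784)⟩, ⟨.ofNat (nat_lit 0), .ofNat (nat_lit 0), .ofNat (nat_lit 0), .ofNat (nat_lit 0), .ofNat (nat_lit 0), .ofNat (nat_lit 0), .ofNat (nat_lit 0), .ofNat (nat_lit 0)⟩⟩, [⟨nat_lit 0, nat_lit 100, nat_lit 100, nat_lit 27, nat_lit 462233443⟩]⟩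
noncomputable def p005_l205 : Lf2 := ⟨nat_lit 0, nat_lit 5, [nat_lit 4, nat_lit 5, nat_lit 5, nat_lit 20], true, nat_lit 0, nat_lit 0, nat_lit 0, nat_lit 0, ⟨nat_lit 0, nat_lit 0, nat_lit 1000, nat_lit 5, nat_lit 47, nat_lit 0, nat_lit 0, nat_lit 0, nat_lit 0, nat_lit 215, nat_lit 21600, nat_lit 251, nat_lit 66070205, nat_lit 0, nat_lit 0, nat_lit 365598, false, false⟩,
 nat_lit 0, nat_lit 100000, nat_lit 0, nat_lit 0, nat_lit 49854, nat_lit 0, nat_lit 7930, nat_lit 132, nat_lit 0, nat_lit 0, nat_lit 0, nat_lit 0, nat_lit 0, nat_lit 0, nat_lit 0, nat_lit 400000, nat_lit 13545783039, nat_lit 0, [(nat_lit 3, [(nat_lit 5, nat_lit 1000)])],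
 ⟨p005_k51, nat_lit 0, nat_lit 0, nat_lit 0, nat_lit 0, nat_lit 64821, [nat_lit 2251600001, nat_lit 3015600001, nat_lit 2681600001, nat_lit 2018000000], [], [nat_lit 3011697301, nat_lit 3296542951, nat_lit 0, nat_lit 197512917], nat_lit 1271250, nat_lit 1271250, nat_lit 21650, nat_lit 43600, nat_lit 0, nat_lit 0, [nat_lit 631250, nat_lit 1271250, nat_lit 1271250, nat_lit 1271250], [nat_lit 91, nat_lit 40, nat_lit 20, nat_lit 40]⟩, C1.Rw.none,
 ⟨nat_lit 6538, nat_lit 6558, ⟨.ofNat (nat_lit 113394), .ofNat (nat_lit 121852), .ofNat (nat_lit 114464), .ofNat (nat_lit 122922), .ofNat (nat_lit 114346), .ofNat (nat_lit 122784), .ofNat (nat_lit 115416), .ofNat (nat_lit 123854)⟩, ⟨.ofNat (nat_lit 0), .ofNat (nat_lit 0), .ofNat (nat_lit 0), .ofNat (nat_lit 0), .ofNat (nat_lit 0), .ofNat (nat_lit 0), .ofNat (nat_lit 0), .ofNat (nat_lit 0)⟩⟩, [⟨nat_lit 0, nat_lit 100, nat_lit 100, nat_lit 28, nat_lit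 3985994866⟩]⟩
noncomputable def p005_l206 : Lf2 := ⟨nat_lit 0, nat_lit 5, [nat_lit 4, nat_lit 5, nat_lit 5, nat_lit 20], true, nat_lit 0, nat_lit 0, nat_lit 0, nat_lit 0, ⟨nat_lit 0, nat_lit 0, nat_lit 1000, nat_lit 5, nat_lit 47, nat_lit 0, nat_lit 0, nat_lit 0, nat_lit 0, nat_lit 215, nat_lit 21600, nat_lit 251, nat_lit 66070205, nat_lit 0, nat_lit 0, nat_lit 365598, false, false⟩,
 nat_lit 0, nat_lit 100000, nat_lit 0, nat_lit 0, nat_lit 49854, nat_lit 0, nat_lit 7930, nat_lit 132, nat_lit 0, nat_lit 0, nat_lit 0, nat_lit 0, nat_lit 0, nat_lit 0, nat_lit 0, nat_lit 400000, nat_lit 13545783039, nat_lit 0, [(nat_lit 3, [(nat_lit 5, nat_lit 1000)])],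
 ⟨p005_k51, nat_lit 0, nat_lit 0, nat_lit 0, nat_lit 0, nat_lit 64821, [nat_lit 2251600001, nat_lit 3015600001, nat_lit 2681600001, nat_lit 2018000000], [], [nat_lit 3011697301, nat_lit 3296542951, nat_lit 0, nat_lit 197512917], nat_lit 1271250, nat_lit 1271250, nat_lit 21650, nat_lit 43600, nat_lit 0, nat_lit 0, [nat_lit 631250, nat_lit 1271250, nat_lit 1271250, nat_lit 1271250], [nat_lit 91, nat_lit 40, nat_lit 20, nat_lit 40]⟩, C1.Rw.none,
 ⟨nat_lit 6538, nat_lit 6558, ⟨.ofNat (nat_lit 113394), .ofNat (nat_lit 121852), .ofNat (nat_lit 114464), .ofNat (nat_lit 122922), .ofNat (nat_lit 114346), .ofNat (nat_lit 122784), .ofNat (nat_lit 115416), .ofNat (nat_lit 123854)⟩, ⟨.ofNat (nat_lit 0), .ofNat (nat_lit 0), .ofNat (nat_lit 0), .ofNat (nat_lit 0), .ofNat (nat_lit 0), .ofNat (nat_lit 0), .ofNat (nat_lit 0), .ofNat (nat_lit 0)⟩⟩, [⟨nat_lit 0, nat_lit 100, nat_lit 100, nat_lit 28, nat_lit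 3985994866⟩]⟩
noncomputable def p005_l207 : Lf2 := ⟨nat_lit 0, nat_lit 5, [nat_lit 4, nat_lit 5, nat_lit 5, nat_lit 20], true, nat_lit 0, nat_lit 0, nat_lit 0, nat_lit 0, ⟨nat_lit 0, nat_lit 0, nat_lit 1000, nat_lit 5, nat_lit 48, nat_lit 0, nat_lit 0, nat_lit 0, nat_lit 0, nat_lit 215, nat_lit 21600, nat_lit 251, nat_lit 66053592, nat_lit 0, nat_lit 0, nat_lit 370877, false, false⟩,
 nat_lit 0, nat_lit 100000, nat_lit 0, nat_lit 0, nat_lit 49854, nat_lit 0, nat_lit 7930, nat_lit 132, nat_lit 0, nat_lit 0, nat_lit 0, nat_lit 0, nat_lit 0, nat_lit 0, nat_lit 0, nat_lit 400000, nat_lit 13545783039, nat_lit 0, [(nat_lit 3, [(nat_lit 5, nat_lit 1000)])],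
 ⟨p005_k51, nat_lit 0, nat_lit 0, nat_lit 0, nat_lit 0, nat_lit 69100, [nat_lit 2251600001, nat_lit 3015600001, nat_lit 2681600001, nat_lit 2018000000], [], [nat_lit 3011697301, nat_lit 3296542951, nat_lit 0, nat_lit 197512917], nat_lit 1271250, nat_lit 1271250, nat_lit 21650, nat_lit 43600, nat_lit 0, nat_lit 0, [nat_lit 631250, nat_lit 1271250, nat_lit 1271250, nat_lit 1271250], [nat_lit 91, nat_lit 40, nat_lit 20, nat_lit 40]⟩, C1.Rw.none,
 ⟨nat_lit 6538, nat_lit 6558, ⟨.ofNat (nat_lit 114464), .ofNat (nat_lit 122922), .ofNat (nat_lit 115535), .ofNat (nat_lit 123992), .ofNat (nat_lit 115416), .ofNat (nat_lit 123854), .ofNat (nat_lit 116486), .ofNat (nat_lit 124924)⟩, ⟨.ofNat (nat_lit 0), .ofNat (nat_lit 0), .ofNat (nat_lit 0), .ofNat (nat_lit 0), .ofNat (nat_lit 0), .ofNat (nat_lit 0), .ofNat (nat_lit 0), .ofNat (nat_lit 0)⟩⟩, [⟨nat_lit 0, nat_lit 100, nat_lit 100, nat_lit 28, nat_lit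 10000000000⟩, ⟨nat_lit 0, nat_lit 100, nat_lit 100, nat_lit 28, nat_lit 6285917330⟩]⟩
noncomputable def p005_l208 : Lf2 := ⟨nat_lit 0, nat_lit 5, [nat_lit 4, nat_lit 5, nat_lit 5, nat_lit 20], true, nat_lit 0, nat_lit 0, nat_lit 0, nat_lit 0, ⟨nat_lit 0, nat_lit 0, nat_lit 1000, nat_lit 5, nat_lit 48, nat_lit 0, nat_lit 0, nat_lit 0, nat_lit 0, nat_lit 215, nat_lit 21600, nat_lit 251, nat_lit 66053592, nat_lit 0, nat_lit 0, nat_lit 370877, false, false⟩,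
 nat_lit 0, nat_lit 100000, nat_lit 0, nat_lit 0, nat_lit 49854, nat_lit 0, nat_lit 7930, nat_lit 132, nat_lit 0, nat_lit 0, nat_lit 0, nat_lit 0, nat_lit 0, nat_lit 0, nat_lit 0, nat_lit 400000, nat_lit 13545783039, nat_lit 0, [(nat_lit 3, [(nat_lit 5, nat_lit 1000)])],
 ⟨p005_k51, nat_lit 0, nat_lit 0, nat_lit 0, nat_lit 0, nat_lit 69100, [nat_lit 2251600001, nat_lit 3015600001, nat_lit 2681600001, nat_lit 2018000000], [], [nat_lit 3011697301, nat_lit 3296542951, nat_lit 0, nat_lit 197512917], nat_lit 1271250, nat_lit 1271250, nat_lit 21650, nat_lit 43600, nat_lit 0, nat_lit 0, [nat_lit 631250, nat_lit 1271250, nat_lit 1271250, nat_lit 1271250], [nat_lit 91, nat_lit 40, nat_lit 20, nat_lit 40]⟩, C1.Rw.none,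
 ⟨nat_lit 6538, nat_lit 6558, ⟨.ofNat (nat_lit 114464), .ofNat (nat_lit 122922), .ofNat (nat_lit 115535), .ofNat (nat_lit 123992), .ofNat (nat_lit 115416), .ofNat (nat_lit 123854), .ofNat (nat_lit 116486), .ofNat (nat_lit 124924)⟩, ⟨.ofNat (nat_lit 0), .ofNat (nat_lit 0), .ofNat (nat_lit 0), .ofNat (nat_lit 0), .ofNat (nat_lit 0), .ofNat (nat_lit 0), .ofNat (nat_lit 0), .ofNat (nat_lit 0)⟩⟩, [⟨nat_lit 0, nat_lit 100, nat_lit 100, nat_lit 28, nat_lit 10000000000⟩, ⟨nat_lit 0, nat_lit 100, nat_lit 100, nat_lit 28, nat_lit 6285917330⟩]⟩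
noncomputable def p005_l209 : Lf2 := ⟨nat_lit 0, nat_lit 5, [nat_lit 4, nat_lit 5, nat_lit 5, nat_lit 20], true, nat_lit 0, nat_lit 0, nat_lit 0, nat_lit 0, ⟨nat_lit 0, nat_lit 0, nat_lit 1000, nat_lit 5, nat_lit 48, nat_lit 0, nat_lit 0, nat_lit 0, nat_lit 0, nat_lit 215, nat_lit 21600, nat_lit 251, nat_lit 66036837, nat_lit 0, nat_lit 0, nat_lit 376178, false, false⟩,
 nat_lit 0, nat_lit 100000, nat_lit 0, nat_lit 0, nat_lit 49854, nat_lit 0, nat_lit 7947, nat_lit 126, nat_lit 0, nat_lit 0, nat_lit 0, nat_lit 0, nat_lit 0, nat_lit 0, nat_lit 0, nat_lit 400000, nat_lit 13897473665, nat_lit 0, [(nat_lit 3, [(nat_lit 5, nat_lit 1000)])],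
 ⟨p005_k51, nat_lit 0, nat_lit 0, nat_lit 0, nat_lit 0, nat_lit 73379, [nat_lit 2191600000, nat_lit 2907600000, nat_lit 2549600000, nat_lit 1850000000], [], [nat_lit 3089116051, nat_lit 3373961701, nat_lit 0, nat_lit 271729417], nat_lit 1271250, nat_lit 1271250, nat_lit 21650, nat_lit 43600, nat_lit 0, nat_lit 0, [nat_lit 631250, nat_lit 1271250, nat_lit 1271250, nat_lit 1271250], [nat_lit 91, nat_lit 40, nat_lit 20, nat_lit 40]⟩, C1.Rw.none,
 ⟨nat_lit 6538, nat_lit 6558, ⟨.ofNat (nat_lit 115535), .ofNat (nat_lit 123992), .ofNat (nat_lit 116605), .ofNat (nat_lit 125063), .ofNat (nat_lit 116486), .ofNat (nat_lit 124924), .ofNat (nat_lit 117556), .ofNat (nat_lit 125994)⟩, ⟨.ofNat (nat_lit 0), .ofNat (nat_lit 0), .ofNat (nat_lit 0), .ofNat (nat_lit 0), .ofNat (nat_lit 0), .ofNat (nat_lit 0), .ofNat (nat_lit 0), .ofNat (nat_lit 0)⟩⟩, [⟨nat_lit 0, nat_lit 100, nat_lit 100, nat_lit 29, nat_lit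 7942182248⟩, ⟨nat_lit 0, nat_lit 100, nat_lit 100, nat_lit 28, nat_lit 10000000000⟩]⟩
noncomputable def p005_l210 : Lf2 := ⟨nat_lit 0, nat_lit 5, [nat_lit 4, nat_lit 5, nat_lit 5, nat_lit 20], true, nat_lit 0, nat_lit 0, nat_lit 0, nat_lit 0, ⟨nat_lit 0, nat_lit 0, nat_lit 1000, nat_lit 5, nat_lit 48, nat_lit 0, nat_lit 0, nat_lit 0, nat_lit 0, nat_lit 215, nat_lit 21600, nat_lit 251, nat_lit 66036837, nat_lit 0, nat_lit 0, nat_lit 376178, false, false⟩,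
 nat_lit 0, nat_lit 100000, nat_lit 0, nat_lit 0, nat_lit 49854, nat_lit 0, nat_lit 7947, nat_lit 126, nat_lit 0, nat_lit 0, nat_lit 0, nat_lit 0, nat_lit 0, nat_lit 0, nat_lit 0, nat_lit 400000, nat_lit 13897473665, nat_lit 0, [(nat_lit 3, [(nat_lit 5, nat_lit 1000)])],
 ⟨p005_k51, nat_lit 0, nat_lit 0, nat_lit 0, nat_lit 0, nat_lit 73379, [nat_lit 2191600000, nat_lit 2907600000, nat_lit 2549600000, nat_lit 1850000000], [], [nat_lit 3089116051, nat_lit 3373961701, nat_lit 0, nat_lit 271729417], nat_lit 1271250, nat_lit 1271250, nat_lit 21650, nat_lit 43600, nat_lit 0, nat_lit 0, [nat_lit 631250, nat_lit 1271250, nat_lit 1271250, nat_lit 1271250], [nat_lit 91, nat_lit 40, nat_lit 20, nat_lit 40]⟩, C1.Rw.none,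
 ⟨nat_lit 6538, nat_lit 6558, ⟨.ofNat (nat_lit 115535), .ofNat (nat_lit 123992), .ofNat (nat_lit 116605), .ofNat (nat_lit 125063), .ofNat (nat_lit 116486), .ofNat (nat_lit 124924), .ofNat (nat_lit 117556), .ofNat (nat_lit 125994)⟩, ⟨.ofNat (nat_lit 0), .ofNat (nat_lit 0), .ofNat (nat_lit 0), .ofNat (nat_lit 0), .ofNat (nat_lit 0), .ofNat (nat_lit 0), .ofNat (nat_lit 0), .ofNat (nat_lit 0)⟩⟩, [⟨nat_lit 0, nat_lit 100, nat_lit 100, nat_lit 29, nat_lit 7942182248⟩, ⟨nat_lit 0, nat_lit 100, nat_lit 100, nat_lit 28, nat_lit 10000000000⟩]⟩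
noncomputable def p005_l211 : Lf2 := ⟨nat_lit 0, nat_lit 5, [nat_lit 4, nat_lit 5, nat_lit 5, nat_lit 20], true, nat_lit 0, nat_lit 0, nat_lit 0, nat_lit 0, ⟨nat_lit 0, nat_lit 0, nat_lit 1000, nat_lit 5, nat_lit 47, nat_lit 0, nat_lit 0, nat_lit 0, nat_lit 0, nat_lit 215, nat_lit 21600, nat_lit 251, nat_lit 66072202, nat_lit 0, nat_lit 0, nat_lit 364963, false, false⟩,
 nat_lit 0, nat_lit 8722, nat_lit 0, nat_lit 0, nat_lit 4370, nat_lit 0, nat_lit 0, nat_lit 0, nat_lit 0, nat_lit 0, nat_lit 0, nat_lit 0, nat_lit 0, nat_lit 0, nat_lit 114, nat_lit 993400, nat_lit 0, nat_lit 0, [(nat_lit 3, [(nat_lit 5, nat_lit 11), (nat_lit 6, nat_lit 989)])],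
 ⟨p005_k68, nat_lit 0, nat_lit 0, nat_lit 0, nat_lit 0, nat_lit 64540, [nat_lit 2994268218, nat_lit 2216370001, nat_lit 12302400], [], [nat_lit 14415415965, nat_lit 14472739624, nat_lit 14132719487, nat_lit 14188720669], nat_lit 1271250, nat_lit 1271250, nat_lit 21650, nat_lit 43600, nat_lit 0, nat_lit 0, [nat_lit 1271250, nat_lit 1271250, nat_lit 1271250], [nat_lit 103, nat_lit 40, nat_lit 20, nat_lit 40]⟩, C1.Rw.none,
 ⟨nat_lit 6519, nat_lit 6539, ⟨.ofNat (nat_lit 113276), .ofNat (nat_lit 121714), .ofNat (nat_lit 114346), .ofNat (nat_lit 122784), .ofNat (nat_lit 114225), .ofNat (nat_lit 122644), .ofNat (nat_lit 115295), .ofNat (nat_lit 123714)⟩, ⟨.ofNat (nat_lit 0), .ofNat (nat_lit 0), .ofNat (nat_lit 0), .ofNat (nat_lit 0), .ofNat (nat_lit 0), .ofNat (nat_lit 0), .ofNat (nat_lit 0), .ofNat (nat_lit 0)⟩⟩, [⟨nat_lit 0, nat_lit 100, nat_lit 100, nat_lit 27, nat_lit 461321364⟩]⟩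
noncomputable def p005_l212 : Lf2 := ⟨nat_lit 0, nat_lit 5, [nat_lit 4, nat_lit 5, nat_lit 5, nat_lit 20], true, nat_lit 0, nat_lit 0, nat_lit 0, nat_lit 0, ⟨nat_lit 0, nat_lit 0, nat_lit 1000, nat_lit 5, nat_lit 48, nat_lit 0, nat_lit 0, nat_lit 0, nat_lit 0, nat_lit 215, nat_lit 21600, nat_lit 251, nat_lit 66055608, nat_lit 0, nat_lit 0, nat_lit 370238, false, false⟩,
 nat_lit 0, nat_lit 100000, nat_lit 0, nat_lit 0, nat_lit 50109, nat_lit 0, nat_lit 8003, nat_lit 166, nat_lit 0, nat_lit 0, nat_lit 0, nat_lit 0, nat_lit 0, nat_lit 0, nat_lit 0, nat_lit 400000, nat_lit 12584969777, nat_lit 0, [(nat_lit 3, [(nat_lit 5, nat_lit 1000)])],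
 ⟨p005_k52, nat_lit 0, nat_lit 0, nat_lit 0, nat_lit 0, nat_lit 68771, [nat_lit 2591600001, nat_lit 3627600001, nat_lit 3429600001, nat_lit 2970000000], [], [nat_lit 3036291692, nat_lit 3322425842, nat_lit 0, nat_lit 202893232], nat_lit 1271250, nat_lit 1271250, nat_lit 21650, nat_lit 43600, nat_lit 0, nat_lit 0, [nat_lit 631250, nat_lit 1271250, nat_lit 1271250, nat_lit 1271250], [nat_lit 91, nat_lit 40, nat_lit 20, nat_lit 40]⟩, C1.Rw.none,
 ⟨nat_lit 6519, nat_lit 6539, ⟨.ofNat (nat_lit 114346), .ofNat (nat_lit 122784), .ofNat (nat_lit 115416), .ofNat (nat_lit 123854), .ofNat (nat_lit 115295), .ofNat (nat_lit 123714), .ofNat (nat_lit 116365), .ofNat (nat_lit 124784)⟩, ⟨.ofNat (nat_lit 0), .ofNat (nat_lit 0), .ofNat (nat_lit 0), .ofNat (nat_lit 0), .ofNat (nat_lit 0), .ofNat (nat_lit 0), .ofNat (nat_lit 0), .ofNat (nat_lit 0)⟩⟩, [⟨nat_lit 0, nat_lit 100, nat_lit 100, nat_lit 28, nat_lit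 6187122001⟩, ⟨nat_lit 0, nat_lit 100, nat_lit 100, nat_lit 28, nat_lit 10000000000⟩]⟩
noncomputable def p005_l213 : Lf2 := ⟨nat_lit 0, nat_lit 5, [nat_lit 4, nat_lit 5, nat_lit 5, nat_lit 20], true, nat_lit 0, nat_lit 0, nat_lit 0, nat_lit 0, ⟨nat_lit 0, nat_lit 0, nat_lit 1000, nat_lit 5, nat_lit 48, nat_lit 0, nat_lit 0, nat_lit 0, nat_lit 0, nat_lit 215, nat_lit 21600, nat_lit 251, nat_lit 66055608, nat_lit 0, nat_lit 0, nat_lit 370238, false, false⟩,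
 nat_lit 0, nat_lit 100000, nat_lit 0, nat_lit 0, nat_lit 50109, nat_lit 0, nat_lit 8003, nat_lit 166, nat_lit 0, nat_lit 0, nat_lit 0, nat_lit 0, nat_lit 0, nat_lit 0, nat_lit 0, nat_lit 400000, nat_lit 12584969777, nat_lit 0, [(nat_lit 3, [(nat_lit 5, nat_lit 1000)])],
 ⟨p005_k52, nat_lit 0, nat_lit 0, nat_lit 0, nat_lit 0, nat_lit 68771, [nat_lit 2591600001, nat_lit 3627600001, nat_lit 3429600001, nat_lit 2970000000], [], [nat_lit 3036291692, nat_lit 3322425842, nat_lit 0, nat_lit 202893232], nat_lit 1271250, nat_lit 1271250, nat_lit 21650, nat_lit 43600, nat_lit 0, nat_lit 0, [nat_lit 631250, nat_lit 1271250, nat_lit 1271250, nat_lit 1271250], [nat_lit 91, nat_lit 40, nat_lit 20, nat_lit 40]⟩, C1.Rw.none,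
 ⟨nat_lit 6519, nat_lit 6539, ⟨.ofNat (nat_lit 114346), .ofNat (nat_lit 122784), .ofNat (nat_lit 115416), .ofNat (nat_lit 123854), .ofNat (nat_lit 115295), .ofNat (nat_lit 123714), .ofNat (nat_lit 116365), .ofNat (nat_lit 124784)⟩, ⟨.ofNat (nat_lit 0), .ofNat (nat_lit 0), .ofNat (nat_lit 0), .ofNat (nat_lit 0), .ofNat (nat_lit 0), .ofNat (nat_lit 0), .ofNat (nat_lit 0), .ofNat (nat_lit 0)⟩⟩, [⟨nat_lit 0, nat_lit 100, nat_lit 100, nat_lit 28, nat_lit 6187122001⟩, ⟨nat_lit 0, nat_lit 100, nat_lit 100, nat_lit 28, nat_lit 10000000000⟩]⟩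
noncomputable def p005_l214 : Lf2 := ⟨nat_lit 0, nat_lit 5, [nat_lit 4, nat_lit 5, nat_lit 5, nat_lit 20], true, nat_lit 0, nat_lit 0, nat_lit 0, nat_lit 0, ⟨nat_lit 0, nat_lit 0, nat_lit 1000, nat_lit 5, nat_lit 48, nat_lit 0, nat_lit 0, nat_lit 0, nat_lit 0, nat_lit 215, nat_lit 21600, nat_lit 251, nat_lit 66038874, nat_lit 0, nat_lit 0, nat_lit 375535, false, false⟩,
 nat_lit 0, nat_lit 100000, nat_lit 0, nat_lit 0, nat_lit 50109, nat_lit 0, nat_lit 8020, nat_lit 161, nat_lit 0, nat_lit 0, nat_lit 0, nat_lit 0, nat_lit 0, nat_lit 0, nat_lit 0, nat_lit 400000, nat_lit 12888041652, nat_lit 0, [(nat_lit 3, [(nat_lit 5, nat_lit 1000)])],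
 ⟨p005_k52, nat_lit 0, nat_lit 0, nat_lit 0, nat_lit 0, nat_lit 73001, [nat_lit 2541600001, nat_lit 3537600000, nat_lit 3319600001, nat_lit 2830000000], [], [nat_lit 3102347942, nat_lit 3388482092, nat_lit 0, nat_lit 271884769], nat_lit 1271250, nat_lit 1271250, nat_lit 21650, nat_lit 43600, nat_lit 0, nat_lit 0, [nat_lit 631250, nat_lit 1271250, nat_lit 1271250, nat_lit 1271250], [nat_lit 91, nat_lit 40, nat_lit 20, nat_lit 40]⟩, C1.Rw.none,
 ⟨nat_lit 6519, nat_lit 6539, ⟨.ofNat (nat_lit 115416), .ofNat (nat_lit 123854), .ofNat (nat_lit 116486), .ofNat (nat_lit 124924), .ofNat (nat_lit 116365), .ofNat (nat_lit 124784), .ofNat (nat_lit 117435), .ofNat (nat_lit 125854)⟩, ⟨.ofNat (nat_lit 0), .ofNat (nat_lit 0), .ofNat (nat_lit 0), .ofNat (nat_lit 0), .ofNat (nat_lit 0), .ofNat (nat_lit 0), .ofNat (nat_lit 0), .ofNat (nat_lit 0)⟩⟩, [⟨nat_lit 0, nat_lit 100, nat_lit 100, nat_lit 28, nat_lit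 8335965258⟩, ⟨nat_lit 0, nat_lit 100, nat_lit 100, nat_lit 28, nat_lit 10000000000⟩]⟩
noncomputable def p005_l215 : Lf2 := ⟨nat_lit 0, nat_lit 5, [nat_lit 4, nat_lit 5, nat_lit 5, nat_lit 20], true, nat_lit 0, nat_lit 0, nat_lit 0, nat_lit 0, ⟨nat_lit 0, nat_lit 0, nat_lit 1000, nat_lit 5, nat_lit 48, nat_lit 0, nat_lit 0, nat_lit 0, nat_lit 0, nat_lit 215, nat_lit 21600, nat_lit 251, nat_lit 66038874, nat_lit 0, nat_lit 0, nat_lit 375535, false, false⟩,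
 nat_lit 0, nat_lit 100000, nat_lit 0, nat_lit 0, nat_lit 50109, nat_lit 0, nat_lit 8020, nat_lit 161, nat_lit 0, nat_lit 0, nat_lit 0, nat_lit 0, nat_lit 0, nat_lit 0, nat_lit 0, nat_lit 400000, nat_lit 12888041652, nat_lit 0, [(nat_lit 3, [(nat_lit 5, nat_lit 1000)])],
 ⟨p005_k52, nat_lit 0, nat_lit 0, nat_lit 0, nat_lit 0, nat_lit 73001, [nat_lit 2541600001, nat_lit 3537600000, nat_lit 3319600001, nat_lit 2830000000], [], [nat_lit 3102347942, nat_lit 3388482092, nat_lit 0, nat_lit 271884769], nat_lit 1271250, nat_lit 1271250, nat_lit 21650, nat_lit 43600, nat_lit 0, nat_lit 0, [nat_lit 631250, nat_lit 1271250, nat_lit 1271250, nat_lit 1271250], [nat_lit 91, nat_lit 40, nat_lit 20, nat_lit 40]⟩, C1.Rw.none,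
 ⟨nat_lit 6519, nat_lit 6539, ⟨.ofNat (nat_lit 115416), .ofNat (nat_lit 123854), .ofNat (nat_lit 116486), .ofNat (nat_lit 124924), .ofNat (nat_lit 116365), .ofNat (nat_lit 124784), .ofNat (nat_lit 117435), .ofNat (nat_lit 125854)⟩, ⟨.ofNat (nat_lit 0), .ofNat (nat_lit 0), .ofNat (nat_lit 0), .ofNat (nat_lit 0), .ofNat (nat_lit 0), .ofNat (nat_lit 0), .ofNat (nat_lit 0), .ofNat (nat_lit 0)⟩⟩, [⟨nat_lit 0, nat_lit 100, nat_lit 100, nat_lit 28, nat_lit 8335965258⟩, ⟨nat_lit 0, nat_lit 100, nat_lit 100, nat_lit 28, nat_lit 10000000000⟩]⟩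
noncomputable def p005_l216 : Lf2 := ⟨nat_lit 0, nat_lit 5, [nat_lit 4, nat_lit 5, nat_lit 5, nat_lit 20], true, nat_lit 0, nat_lit 0, nat_lit 0, nat_lit 0, ⟨nat_lit 0, nat_lit 0, nat_lit 1000, nat_lit 5, nat_lit 48, nat_lit 0, nat_lit 0, nat_lit 0, nat_lit 0, nat_lit 215, nat_lit 21600, nat_lit 251, nat_lit 66046253, nat_lit 0, nat_lit 0, nat_lit 373202, false, false⟩,
 nat_lit 0, nat_lit 100000, nat_lit 0, nat_lit 0, nat_lit 49854, nat_lit 0, nat_lit 12000, nat_lit 2361, nat_lit 0, nat_lit 0, nat_lit 0, nat_lit 0, nat_lit 0, nat_lit 0, nat_lit 0, nat_lit 1000000, nat_lit 0, nat_lit 0, [(nat_lit 3, [(nat_lit 6, nat_lit 1000)])],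
 ⟨p005_k69, nat_lit 0, nat_lit 0, nat_lit 0, nat_lit 0, nat_lit 81911, [nat_lit 48261142858, nat_lit 55403600001, nat_lit 62911600000], [], [nat_lit 88660153300, nat_lit 89253852661, nat_lit 85255373841, nat_lit 85590697061], nat_lit 1271250, nat_lit 1271250, nat_lit 21650, nat_lit 43600, nat_lit 0, nat_lit 0, [nat_lit 1412500, nat_lit 1271250, nat_lit 1271250], [nat_lit 25, nat_lit 40, nat_lit 20, nat_lit 80]⟩, C1.Rw.none,
 ⟨nat_lit 6519, nat_lit 6558, ⟨.ofNat (nat_lit 112324), .ofNat (nat_lit 120782), .ofNat (nat_lit 117675), .ofNat (nat_lit 126133), .ofNat (nat_lit 114225), .ofNat (nat_lit 122644), .ofNat (nat_lit 119575), .ofNat (nat_lit 127994)⟩, ⟨.ofNat (nat_lit 0), .ofNat (nat_lit 0), .ofNat (nat_lit 0), .ofNat (nat_lit 0), .ofNat (nat_lit 0), .ofNat (nat_lit 0), .ofNat (nat_lit 0), .ofNat (nat_lit 0)⟩⟩, [⟨nat_lit 0, nat_lit 100, nat_lit 100, nat_lit 28, nat_lit 10000000000⟩,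 ⟨nat_lit 0, nat_lit 100, nat_lit 100, nat_lit 30, nat_lit 5781710691⟩]⟩
noncomputable def b_NL_550_550_0_18 : St := ⟨false, nat_lit 1, nat_lit 0, nat_lit 1, nat_lit 20, nat_lit 225, nat_lit 230, nat_lit 225, nat_lit 230, nat_lit 4, nat_lit 8, nat_lit 0, nat_lit 0, nat_lit 0, nat_lit 0, nat_lit 0, nat_lit 0, nat_lit 20, nat_lit 24, nat_lit 300, nat_lit 600, nat_lit 0, nat_lit 800⟩
theorem d_NL_550_550_0_18 (h : EB TB.env) : Dead b_NL_550_550_0_18 := chkB_sound0 h (T :=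
(.spl (nat_lit 0) (nat_lit 228)
(.ord (.spl (nat_lit 7) (nat_lit 460)
(.spl (nat_lit 7) (nat_lit 380)
(.leaf p005_l181)
(.spl (nat_lit 0) (nat_lit 227)
(.ord (.spl (nat_lit 0) (nat_lit 226)
(.ord (.leaf p005_l182))
(.spl (nat_lit 1) (nat_lit 226)
(.leaf p005_l183)
(.spl (nat_lit 7) (nat_lit 420)
(.leaf p005_l184)
(.spl (nat_lit 8) (nat_lit 400)
(.leaf p005_l185)
(.leaf p005_l186))))))
(.spl (nat_lit 1) (nat_lit 227)
(.spl (nat_lit 1) (nat_lit 226)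
(.leaf p005_l187)
(.spl (nat_lit 7) (nat_lit 420)
(.spl (nat_lit 7) (nat_lit 400)
(.leaf p005_l188)
(.leaf p005_l189))
(.spl (nat_lit 8) (nat_lit 400)
(.leaf p005_l190)
(.leaf p005_l191))))
(.spl (nat_lit 7) (nat_lit 420)
(.spl (nat_lit 8) (nat_lit 400)
(.leaf p005_l192)
(.leaf p005_l193))
(.spl (nat_lit 8) (nat_lit 400)
(.leaf p005_l194)
(.leaf p005_l195))))))
(.leaf p005_l196)))
(.spl (nat_lit 7) (nat_lit 460)
(.spl (nat_lit 7) (nat_lit 380)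
(.leaf p005_l197)
(.spl (nat_lit 7) (nat_lit 420)
(.spl (nat_lit 0) (nat_lit 229)
(.ord (.spl (nat_lit 1) (nat_lit 227)
(.leaf p005_l198)
(.spl (nat_lit 1) (nat_lit 228)
(.spl (nat_lit 8) (nat_lit 400)
(.leaf p005_l199)
(.leaf p005_l200))
(.spl (nat_lit 8) (nat_lit 400)
(.leaf p005_l201)
(.leaf p005_l202)))))
(.leaf p005_l203))
(.spl (nat_lit 0) (nat_lit 229)
(.ord (.spl (nat_lit 1) (nat_lit 227)
(.spl (nat_lit 1) (nat_lit 226)
(.leaf p005_l204)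
(.spl (nat_lit 8) (nat_lit 400)
(.leaf p005_l205)
(.leaf p005_l206)))
(.spl (nat_lit 1) (nat_lit 228)
(.spl (nat_lit 8) (nat_lit 400)
(.leaf p005_l207)
(.leaf p005_l208))
(.spl (nat_lit 8) (nat_lit 400)
(.leaf p005_l209)
(.leaf p005_l210)))))
(.spl (nat_lit 1) (nat_lit 228)
(.spl (nat_lit 1) (nat_lit 227)
(.spl (nat_lit 1) (nat_lit 226)
(.leaf p005_l211)
(.spl (nat_lit 8) (nat_lit 400)
(.leaf p005_l212)
(.leaf p005_l213)))
(.spl (nat_lit 8) (nat_lit 400)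
(.leaf p005_l214)
(.leaf p005_l215)))
(.emL (nat_lit 0) (nat_lit 100) (nat_lit 100) (nat_lit 28))))))
(.leaf p005_l216)))) (by decide +kernel)

end B2
end Pool.Agent.Lib.MP_6947cd_al
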