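import Pool.Agent.Lib.MP_6947cd_al.ZB.Pre

/-!
Problem MP_6947cd_al (Chollet).  Case B, second entry in [2/5, 17/20]: certificates of the tree, part P006 (generated).
-/

set_option autoImplicit false
set_option linter.all false

namespace Pool.Agent.Lib.MP_6947cd_al
namespace B2

open Ent Fr B1 PkA

noncomputable def p006_k0 : C1.Kn := ⟨[nat_lit 90, nat_lit 110, nat_lit 140], [nat_lit 0, nat_lit 61, nat_lit 839], [(nat_lit 0, nat_lit 0, nat_lit 0), (nat_lit 1000, nat_lit 995, nat_lit 48), (nat_lit 970, nat_lit 1000, nat_lit 393)], (nat_lit 100, nat_lit 95, nat_lit 44)⟩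
noncomputable def p006_k1 : C1.Kn := ⟨[nat_lit 90, nat_lit 110, nat_lit 140], [nat_lit 0, nat_lit 88, nat_lit 860], [(nat_lit 0, nat_lit 0, nat_lit 0), (nat_lit 1000, nat_lit 993, nat_lit 69), (nat_lit 975, nat_lit 1000, nat_lit 391)], (nat_lit 100, nat_lit 96, nat_lit 44)⟩
noncomputable def p006_k2 : C1.Kn := ⟨[nat_lit 50, nat_lit 90, nat_lit 110, nat_lit 140], [nat_lit 0, nat_lit 0, nat_lit 88, nat_lit 860], [(nat_lit 0, nat_lit 0, nat_lit 0), (nat_lit 0, nat_lit 0, nat_lit 0), (nat_lit 1000, nat_lit 993, nat_lit 69), (nat_lit 975, nat_lit 1000, nat_lit 391)], (nat_lit 100, nat_lit 96, nat_lit 44)⟩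
noncomputable def p006_k3 : C1.Kn := ⟨[nat_lit 100, nat_lit 120, nat_lit 140], [nat_lit 0, nat_lit 345, nat_lit 863], [(nat_lit 0, nat_lit 0, nat_lit 0), (nat_lit 1000, nat_lit 1000, nat_lit 270), (nat_lit 974, nat_lit 1000, nat_lit 394)], (nat_lit 100, nat_lit 96, nat_lit 44)⟩
noncomputable def p006_k4 : C1.Kn := ⟨[nat_lit 90, nat_lit 110, nat_lit 140], [nat_lit 0, nat_lit 102, nat_lit 871], [(nat_lit 0, nat_lit 0, nat_lit 0), (nat_lit 1000, nat_lit 992, nat_lit 80), (nat_lit 977, nat_lit 1000, nat_lit 390)], (nat_lit 100, nat_lit 96, nat_lit 44)⟩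
noncomputable def p006_k5 : C1.Kn := ⟨[nat_lit 50, nat_lit 90, nat_lit 110, nat_lit 140], [nat_lit 0, nat_lit 0, nat_lit 102, nat_lit 871], [(nat_lit 0, nat_lit 0, nat_lit 0), (nat_lit 0, nat_lit 0, nat_lit 0), (nat_lit 1000, nat_lit 992, nat_lit 80), (nat_lit 977, nat_lit 1000, nat_lit 390)], (nat_lit 100, nat_lit 96, nat_lit 44)⟩
noncomputable def p006_k6 : C1.Kn := ⟨[nat_lit 50, nat_lit 90, nat_lit 110, nat_lit 140], [nat_lit 0, nat_lit 0, nat_lit 114, nat_lit 885], [(nat_lit 0, nat_lit 0, nat_lit 0), (nat_lit 0, nat_lit 0, nat_lit 0), (nat_lit 1000, nat_lit 991, nat_lit 89), (nat_lit 979, nat_lit 1000, nat_lit 392)], (nat_lit 100, nat_lit 96, nat_lit 44)⟩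
noncomputable def p006_k7 : C1.Kn := ⟨[nat_lit 90, nat_lit 110, nat_lit 140], [nat_lit 0, nat_lit 114, nat_lit 885], [(nat_lit 0, nat_lit 0, nat_lit 0), (nat_lit 1000, nat_lit 991, nat_lit 89), (nat_lit 979, nat_lit 1000, nat_lit 392)], (nat_lit 100, nat_lit 96, nat_lit 44)⟩
noncomputable def p006_k8 : C1.Kn := ⟨[nat_lit 100, nat_lit 120, nat_lit 140], [nat_lit 0, nat_lit 358, nat_lit 874], [(nat_lit 0, nat_lit 0, nat_lit 0), (nat_lit 1000, nat_lit 1000, nat_lit 279), (nat_lit 976, nat_lit 1000, nat_lit 393)], (nat_lit 100, nat_lit 96, nat_lit 44)⟩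
noncomputable def p006_k9 : C1.Kn := ⟨[nat_lit 50, nat_lit 90, nat_lit 110, nat_lit 130], [nat_lit 0, nat_lit 0, nat_lit 129, nat_lit 640], [(nat_lit 0, nat_lit 0, nat_lit 0), (nat_lit 0, nat_lit 0, nat_lit 0), (nat_lit 1000, nat_lit 990, nat_lit 101), (nat_lit 981, nat_lit 1000, nat_lit 391)], (nat_lit 100, nat_lit 97, nat_lit 44)⟩
noncomputable def p006_k10 : C1.Kn := ⟨[nat_lit 50, nat_lit 90, nat_lit 110, nat_lit 130], [nat_lit 0, nat_lit 0, nat_lit 166, nat_lit 678], [(nat_lit 0, nat_lit 0, nat_lit 0), (nat_lit 0, nat_lit 0, nat_lit 0), (nat_lit 1000, nat_lit 987, nat_lit 129), (nat_lit 986, nat_lit 1000, nat_lit 394)], (nat_lit 100, nat_lit 97, nat_lit 44)⟩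
noncomputable def p006_k11 : C1.Kn := ⟨[nat_lit 50, nat_lit 90, nat_lit 110, nat_lit 130], [nat_lit 0, nat_lit 0, nat_lit 192, nat_lit 703], [(nat_lit 0, nat_lit 0, nat_lit 0), (nat_lit 0, nat_lit 0, nat_lit 0), (nat_lit 1000, nat_lit 985, nat_lit 150), (nat_lit 990, nat_lit 1000, nat_lit 395)], (nat_lit 100, nat_lit 98, nat_lit 44)⟩
noncomputable def p006_k12 : C1.Kn := ⟨[nat_lit 100, nat_lit 140], [nat_lit 0, nat_lit 766], [(nat_lit 0, nat_lit 0, nat_lit 0), (nat_lit 1000, nat_lit 1000, nat_lit 299)], (nat_lit 100, nat_lit 97, nat_lit 44)⟩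
noncomputable def p006_k13 : C1.Kn := ⟨[nat_lit 100, nat_lit 140], [nat_lit 0, nat_lit 508], [(nat_lit 0, nat_lit 0, nat_lit 0), (nat_lit 1000, nat_lit 1000, nat_lit 198)], (nat_lit 100, nat_lit 94, nat_lit 44)⟩
noncomputable def p006_k14 : C1.Kn := ⟨[nat_lit 100, nat_lit 120, nat_lit 140], [nat_lit 0, nat_lit 448, nat_lit 962], [(nat_lit 0, nat_lit 0, nat_lit 0), (nat_lit 1000, nat_lit 1000, nat_lit 350), (nat_lit 990, nat_lit 1000, nat_lit 398)], (nat_lit 100, nat_lit 98, nat_lit 44)⟩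
noncomputable def p006_k15 : C1.Kn := ⟨[nat_lit 100, nat_lit 120, nat_lit 140], [nat_lit 0, nat_lit 486, nat_lit 1002], [(nat_lit 0, nat_lit 0, nat_lit 0), (nat_lit 1000, nat_lit 999, nat_lit 375), (nat_lit 995, nat_lit 1000, nat_lit 401)], (nat_lit 100, nat_lit 98, nat_lit 44)⟩
noncomputable def p006_k16 : C1.Kn := ⟨[nat_lit 50, nat_lit 90, nat_lit 110, nat_lit 130], [nat_lit 0, nat_lit 0, nat_lit 141, nat_lit 653], [(nat_lit 0, nat_lit 0, nat_lit 0), (nat_lit 0, nat_lit 0, nat_lit 0), (nat_lit 1000, nat_lit 989, nat_lit 110), (nat_lit 983, nat_lit 1000, nat_lit 393)], (nat_lit 100, nat_lit 97, nat_lit 44)⟩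
noncomputable def p006_k17 : C1.Kn := ⟨[nat_lit 100, nat_lit 140], [nat_lit 0, nat_lit 792], [(nat_lit 0, nat_lit 0, nat_lit 0), (nat_lit 1000, nat_lit 1000, nat_lit 309)], (nat_lit 100, nat_lit 97, nat_lit 44)⟩
noncomputable def p006_k18 : C1.Kn := ⟨[nat_lit 100, nat_lit 120, nat_lit 140], [nat_lit 0, nat_lit 499, nat_lit 1016], [(nat_lit 0, nat_lit 0, nat_lit 0), (nat_lit 1000, nat_lit 1000, nat_lit 388), (nat_lit 997, nat_lit 1000, nat_lit 403)], (nat_lit 100, nat_lit 99, nat_lit 44)⟩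
noncomputable def p006_k19 : C1.Kn := ⟨[nat_lit 50, nat_lit 90, nat_lit 110, nat_lit 130], [nat_lit 0, nat_lit 0, nat_lit 245, nat_lit 751], [(nat_lit 0, nat_lit 0, nat_lit 0), (nat_lit 0, nat_lit 0, nat_lit 0), (nat_lit 1000, nat_lit 981, nat_lit 191), (nat_lit 999, nat_lit 1000, nat_lit 394)], (nat_lit 100, nat_lit 99, nat_lit 44)⟩
noncomputable def p006_k20 : C1.Kn := ⟨[nat_lit 100, nat_lit 120, nat_lit 140], [nat_lit 0, nat_lit 473, nat_lit 991], [(nat_lit 0, nat_lit 0, nat_lit 0), (nat_lit 1000, nat_lit 999, nat_lit 367), (nat_lit 993, nat_lit 1000, nat_lit 402)], (nat_lit 100, nat_lit 98, nat_lit 44)⟩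
noncomputable def p006_k21 : C1.Kn := ⟨[nat_lit 50, nat_lit 90, nat_lit 110, nat_lit 130], [nat_lit 0, nat_lit 0, nat_lit 153, nat_lit 666], [(nat_lit 0, nat_lit 0, nat_lit 0), (nat_lit 0, nat_lit 0, nat_lit 0), (nat_lit 1000, nat_lit 988, nat_lit 119), (nat_lit 984, nat_lit 1000, nat_lit 395)], (nat_lit 100, nat_lit 97, nat_lit 44)⟩
noncomputable def p006_k22 : C1.Kn := ⟨[nat_lit 100, nat_lit 140], [nat_lit 0, nat_lit 817], [(nat_lit 0, nat_lit 0, nat_lit 0), (nat_lit 1000, nat_lit 1000, nat_lit 319)], (nat_lit 100, nat_lit 97, nat_lit 44)⟩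
noncomputable def p006_k23 : C1.Kn := ⟨[nat_lit 50, nat_lit 90, nat_lit 110, nat_lit 130], [nat_lit 0, nat_lit 0, nat_lit 230, nat_lit 742], [(nat_lit 0, nat_lit 0, nat_lit 0), (nat_lit 0, nat_lit 0, nat_lit 0), (nat_lit 1000, nat_lit 982, nat_lit 179), (nat_lit 996, nat_lit 1000, nat_lit 398)], (nat_lit 100, nat_lit 98, nat_lit 44)⟩
noncomputable def p006_k24 : C1.Kn := ⟨[nat_lit 100, nat_lit 120, nat_lit 140], [nat_lit 0, nat_lit 460, nat_lit 979], [(nat_lit 0, nat_lit 0, nat_lit 0), (nat_lit 1000, nat_lit 999, nat_lit 357), (nat_lit 991, nat_lit 1000, nat_lit 402)], (nat_lit 100, nat_lit 98, nat_lit 44)⟩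
noncomputable def p006_k25 : C1.Kn := ⟨[nat_lit 100, nat_lit 140], [nat_lit 0, nat_lit 843], [(nat_lit 0, nat_lit 0, nat_lit 0), (nat_lit 1000, nat_lit 1000, nat_lit 329)], (nat_lit 100, nat_lit 97, nat_lit 44)⟩
noncomputable def p006_k26 : C1.Kn := ⟨[nat_lit 50, nat_lit 90, nat_lit 110, nat_lit 130], [nat_lit 0, nat_lit 0, nat_lit 217, nat_lit 728], [(nat_lit 0, nat_lit 0, nat_lit 0), (nat_lit 0, nat_lit 0, nat_lit 0), (nat_lit 1000, nat_lit 983, nat_lit 169), (nat_lit 994, nat_lit 1000, nat_lit 396)], (nat_lit 100, nat_lit 98, nat_lit 44)⟩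
noncomputable def p006_k27 : C1.Kn := ⟨[nat_lit 90, nat_lit 110, nat_lit 130], [nat_lit 0, nat_lit 192, nat_lit 703], [(nat_lit 0, nat_lit 0, nat_lit 0), (nat_lit 1000, nat_lit 985, nat_lit 150), (nat_lit 990, nat_lit 1000, nat_lit 395)], (nat_lit 100, nat_lit 98, nat_lit 44)⟩
noncomputable def p006_k28 : C1.Kn := ⟨[nat_lit 100, nat_lit 140], [nat_lit 0, nat_lit 868], [(nat_lit 0, nat_lit 0, nat_lit 0), (nat_lit 1000, nat_lit 1000, nat_lit 339)], (nat_lit 100, nat_lit 98, nat_lit 44)⟩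
noncomputable def p006_k29 : C1.Kn := ⟨[nat_lit 90, nat_lit 110, nat_lit 130], [nat_lit 0, nat_lit 180, nat_lit 690], [(nat_lit 0, nat_lit 0, nat_lit 0), (nat_lit 1000, nat_lit 986, nat_lit 141), (nat_lit 989, nat_lit 1000, nat_lit 393)], (nat_lit 100, nat_lit 98, nat_lit 44)⟩
noncomputable def p006_k30 : C1.Kn := ⟨[nat_lit 90, nat_lit 110, nat_lit 130], [nat_lit 0, nat_lit 230, nat_lit 742], [(nat_lit 0, nat_lit 0, nat_lit 0), (nat_lit 1000, nat_lit 982, nat_lit 179), (nat_lit 996, nat_lit 1000, nat_lit 398)], (nat_lit 100, nat_lit 98, nat_lit 44)⟩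
noncomputable def p006_k31 : C1.Kn := ⟨[nat_lit 100, nat_lit 140], [nat_lit 0, nat_lit 970], [(nat_lit 0, nat_lit 0, nat_lit 0), (nat_lit 1000, nat_lit 1000, nat_lit 378)], (nat_lit 100, nat_lit 98, nat_lit 44)⟩
noncomputable def p006_k32 : C1.Kn := ⟨[nat_lit 90, nat_lit 110, nat_lit 130], [nat_lit 0, nat_lit 245, nat_lit 751], [(nat_lit 0, nat_lit 0, nat_lit 0), (nat_lit 1000, nat_lit 981, nat_lit 191), (nat_lit 999, nat_lit 1000, nat_lit 394)], (nat_lit 100, nat_lit 99, nat_lit 44)⟩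
noncomputable def p006_k33 : C1.Kn := ⟨[nat_lit 100, nat_lit 120, nat_lit 140], [nat_lit 0, nat_lit 383, nat_lit 902], [(nat_lit 0, nat_lit 0, nat_lit 0), (nat_lit 1000, nat_lit 1000, nat_lit 299), (nat_lit 979, nat_lit 1000, nat_lit 397)], (nat_lit 100, nat_lit 97, nat_lit 44)⟩
noncomputable def p006_k34 : C1.Kn := ⟨[nat_lit 100, nat_lit 140], [nat_lit 0, nat_lit 896], [(nat_lit 0, nat_lit 0, nat_lit 0), (nat_lit 1000, nat_lit 1000, nat_lit 350)], (nat_lit 100, nat_lit 98, nat_lit 44)⟩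
noncomputable def p006_k35 : C1.Kn := ⟨[nat_lit 60, nat_lit 100, nat_lit 120], [nat_lit 0, nat_lit 0, nat_lit 254], [(nat_lit 0, nat_lit 0, nat_lit 0), (nat_lit 0, nat_lit 0, nat_lit 0), (nat_lit 1000, nat_lit 1000, nat_lit 198)], (nat_lit 100, nat_lit 99, nat_lit 28)⟩
noncomputable def p006_k36 : C1.Kn := ⟨[nat_lit 60, nat_lit 100, nat_lit 120], [nat_lit 0, nat_lit 0, nat_lit 293], [(nat_lit 0, nat_lit 0, nat_lit 0), (nat_lit 0, nat_lit 0, nat_lit 0), (nat_lit 1000, nat_lit 1000, nat_lit 229)], (nat_lit 100, nat_lit 100, nat_lit 20)⟩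
noncomputable def p006_k37 : C1.Kn := ⟨[nat_lit 60, nat_lit 100, nat_lit 120], [nat_lit 0, nat_lit 0, nat_lit 293], [(nat_lit 0, nat_lit 0, nat_lit 0), (nat_lit 0, nat_lit 0, nat_lit 0), (nat_lit 1000, nat_lit 1000, nat_lit 229)], (nat_lit 100, nat_lit 99, nat_lit 28)⟩
noncomputable def p006_k38 : C1.Kn := ⟨[nat_lit 60, nat_lit 100, nat_lit 120], [nat_lit 0, nat_lit 0, nat_lit 320], [(nat_lit 0, nat_lit 0, nat_lit 0), (nat_lit 0, nat_lit 0, nat_lit 0), (nat_lit 1000, nat_lit 1000, nat_lit 250)], (nat_lit 100, nat_lit 100, nat_lit 28)⟩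
noncomputable def p006_k39 : C1.Kn := ⟨[nat_lit 50, nat_lit 90, nat_lit 110], [nat_lit 0, nat_lit 0, nat_lit 61], [(nat_lit 0, nat_lit 0, nat_lit 0), (nat_lit 0, nat_lit 0, nat_lit 0), (nat_lit 1000, nat_lit 995, nat_lit 48)], (nat_lit 99, nat_lit 100, nat_lit 20)⟩
noncomputable def p006_k40 : C1.Kn := ⟨[nat_lit 60, nat_lit 100, nat_lit 120], [nat_lit 0, nat_lit 0, nat_lit 358], [(nat_lit 0, nat_lit 0, nat_lit 0), (nat_lit 0, nat_lit 0, nat_lit 0), (nat_lit 1000, nat_lit 1000, nat_lit 279)], (nat_lit 100, nat_lit 100, nat_lit 28)⟩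
noncomputable def p006_k41 : C1.Kn := ⟨[nat_lit 60, nat_lit 100, nat_lit 120], [nat_lit 0, nat_lit 0, nat_lit 370], [(nat_lit 0, nat_lit 0, nat_lit 0), (nat_lit 0, nat_lit 0, nat_lit 0), (nat_lit 1000, nat_lit 1000, nat_lit 289)], (nat_lit 100, nat_lit 100, nat_lit 28)⟩
noncomputable def p006_k42 : C1.Kn := ⟨[nat_lit 50, nat_lit 90, nat_lit 110], [nat_lit 0, nat_lit 0, nat_lit 129], [(nat_lit 0, nat_lit 0, nat_lit 0), (nat_lit 0, nat_lit 0, nat_lit 0), (nat_lit 1000, nat_lit 990, nat_lit 101)], (nat_lit 99, nat_lit 100, nat_lit 20)⟩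
noncomputable def p006_k43 : C1.Kn := ⟨[nat_lit 60, nat_lit 100, nat_lit 120], [nat_lit 0, nat_lit 0, nat_lit 383], [(nat_lit 0, nat_lit 0, nat_lit 0), (nat_lit 0, nat_lit 0, nat_lit 0), (nat_lit 1000, nat_lit 1000, nat_lit 299)], (nat_lit 100, nat_lit 100, nat_lit 28)⟩
noncomputable def p006_k44 : C1.Kn := ⟨[nat_lit 60, nat_lit 100, nat_lit 120], [nat_lit 0, nat_lit 0, nat_lit 448], [(nat_lit 0, nat_lit 0, nat_lit 0), (nat_lit 0, nat_lit 0, nat_lit 0), (nat_lit 1000, nat_lit 1000, nat_lit 350)], (nat_lit 99, nat_lit 100, nat_lit 28)⟩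
noncomputable def p006_k45 : C1.Kn := ⟨[nat_lit 50, nat_lit 90, nat_lit 110, nat_lit 120], [nat_lit 0, nat_lit 0, nat_lit 129, nat_lit 392], [(nat_lit 0, nat_lit 0, nat_lit 0), (nat_lit 0, nat_lit 0, nat_lit 0), (nat_lit 1000, nat_lit 990, nat_lit 101), (nat_lit 993, nat_lit 1000, nat_lit 341)], (nat_lit 100, nat_lit 100, nat_lit 28)⟩
noncomputable def p006_k46 : C1.Kn := ⟨[nat_lit 50, nat_lit 90, nat_lit 110, nat_lit 120], [nat_lit 0, nat_lit 0, nat_lit 192, nat_lit 450], [(nat_lit 0, nat_lit 0, nat_lit 0), (nat_lit 0, nat_lit 0, nat_lit 0), (nat_lit 1000, nat_lit 985, nat_lit 150), (nat_lit 996, nat_lit 1000, nat_lit 372)], (nat_lit 99, nat_lit 100, nat_lit 28)⟩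
noncomputable def p006_k47 : C1.Kn := ⟨[nat_lit 50, nat_lit 90, nat_lit 110], [nat_lit 0, nat_lit 0, nat_lit 0], [(nat_lit 0, nat_lit 0, nat_lit 0), (nat_lit 0, nat_lit 0, nat_lit 0), (nat_lit 0, nat_lit 0, nat_lit 0)], (nat_lit 100, nat_lit 100, nat_lit 20)⟩
noncomputable def p006_k48 : C1.Kn := ⟨[nat_lit 100, nat_lit 120], [nat_lit 0, nat_lit 254], [(nat_lit 0, nat_lit 0, nat_lit 0), (nat_lit 1000, nat_lit 1000, nat_lit 198)], (nat_lit 100, nat_lit 99, nat_lit 28)⟩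
noncomputable def p006_k49 : C1.Kn := ⟨[nat_lit 100, nat_lit 120], [nat_lit 0, nat_lit 293], [(nat_lit 0, nat_lit 0, nat_lit 0), (nat_lit 1000, nat_lit 1000, nat_lit 229)], (nat_lit 100, nat_lit 99, nat_lit 28)⟩
noncomputable def p006_k50 : C1.Kn := ⟨[nat_lit 100, nat_lit 120], [nat_lit 0, nat_lit 306], [(nat_lit 0, nat_lit 0, nat_lit 0), (nat_lit 1000, nat_lit 1000, nat_lit 238)], (nat_lit 100, nat_lit 99, nat_lit 28)⟩
noncomputable def p006_k51 : C1.Kn := ⟨[nat_lit 60, nat_lit 100, nat_lit 120], [nat_lit 0, nat_lit 0, nat_lit 306], [(nat_lit 0, nat_lit 0, nat_lit 0), (nat_lit 0, nat_lit 0, nat_lit 0), (nat_lit 1000, nat_lit 1000, nat_lit 238)], (nat_lit 100, nat_lit 99, nat_lit 28)⟩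
noncomputable def p006_k52 : C1.Kn := ⟨[nat_lit 50, nat_lit 90, nat_lit 110, nat_lit 120], [nat_lit 0, nat_lit 0, nat_lit 61, nat_lit 338], [(nat_lit 0, nat_lit 0, nat_lit 0), (nat_lit 0, nat_lit 0, nat_lit 0), (nat_lit 1000, nat_lit 995, nat_lit 48), (nat_lit 990, nat_lit 1000, nat_lit 314)], (nat_lit 100, nat_lit 100, nat_lit 28)⟩
noncomputable def p006_k53 : C1.Kn := ⟨[nat_lit 100, nat_lit 120], [nat_lit 0, nat_lit 320], [(nat_lit 0, nat_lit 0, nat_lit 0), (nat_lit 1000, nat_lit 1000, nat_lit 250)], (nat_lit 100, nat_lit 100, nat_lit 28)⟩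
noncomputable def p006_k54 : C1.Kn := ⟨[nat_lit 100, nat_lit 120], [nat_lit 0, nat_lit 358], [(nat_lit 0, nat_lit 0, nat_lit 0), (nat_lit 1000, nat_lit 1000, nat_lit 279)], (nat_lit 100, nat_lit 100, nat_lit 28)⟩
noncomputable def p006_k55 : C1.Kn := ⟨[nat_lit 100, nat_lit 120], [nat_lit 0, nat_lit 383], [(nat_lit 0, nat_lit 0, nat_lit 0), (nat_lit 1000, nat_lit 1000, nat_lit 299)], (nat_lit 100, nat_lit 100, nat_lit 28)⟩
noncomputable def p006_k56 : C1.Kn := ⟨[nat_lit 100, nat_lit 120], [nat_lit 0, nat_lit 448], [(nat_lit 0, nat_lit 0, nat_lit 0), (nat_lit 1000, nat_lit 1000, nat_lit 350)], (nat_lit 99, nat_lit 100, nat_lit 28)⟩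
noncomputable def p006_k57 : C1.Kn := ⟨[nat_lit 100, nat_lit 120], [nat_lit 0, nat_lit 422], [(nat_lit 0, nat_lit 0, nat_lit 0), (nat_lit 1000, nat_lit 1000, nat_lit 329)], (nat_lit 99, nat_lit 100, nat_lit 28)⟩
noncomputable def p006_k58 : C1.Kn := ⟨[nat_lit 50, nat_lit 90, nat_lit 110], [nat_lit 0, nat_lit 0, nat_lit 192], [(nat_lit 0, nat_lit 0, nat_lit 0), (nat_lit 0, nat_lit 0, nat_lit 0), (nat_lit 1000, nat_lit 985, nat_lit 150)], (nat_lit 98, nat_lit 100, nat_lit 20)⟩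
noncomputable def p006_k59 : C1.Kn := ⟨[nat_lit 100, nat_lit 120], [nat_lit 0, nat_lit 396], [(nat_lit 0, nat_lit 0, nat_lit 0), (nat_lit 1000, nat_lit 1000, nat_lit 309)], (nat_lit 100, nat_lit 100, nat_lit 28)⟩
noncomputable def p006_k60 : C1.Kn := ⟨[nat_lit 100, nat_lit 120], [nat_lit 0, nat_lit 409], [(nat_lit 0, nat_lit 0, nat_lit 0), (nat_lit 1000, nat_lit 1000, nat_lit 319)], (nat_lit 99, nat_lit 100, nat_lit 28)⟩
noncomputable def p006_k61 : C1.Kn := ⟨[nat_lit 100, nat_lit 120], [nat_lit 0, nat_lit 435], [(nat_lit 0, nat_lit 0, nat_lit 0), (nat_lit 1000, nat_lit 1000, nat_lit 339)], (nat_lit 99, nat_lit 100, nat_lit 28)⟩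
noncomputable def p006_k62 : C1.Kn := ⟨[nat_lit 100, nat_lit 120], [nat_lit 0, nat_lit 460], [(nat_lit 0, nat_lit 0, nat_lit 0), (nat_lit 1000, nat_lit 999, nat_lit 357)], (nat_lit 99, nat_lit 100, nat_lit 28)⟩
noncomputable def p006_k63 : C1.Kn := ⟨[nat_lit 100, nat_lit 120], [nat_lit 0, nat_lit 473], [(nat_lit 0, nat_lit 0, nat_lit 0), (nat_lit 1000, nat_lit 999, nat_lit 367)], (nat_lit 99, nat_lit 100, nat_lit 28)⟩
noncomputable def p006_k64 : C1.Kn := ⟨[nat_lit 100, nat_lit 120], [nat_lit 0, nat_lit 486], [(nat_lit 0, nat_lit 0, nat_lit 0), (nat_lit 1000, nat_lit 999, nat_lit 375)], (nat_lit 99, nat_lit 100, nat_lit 28)⟩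
noncomputable def p006_k65 : C1.Kn := ⟨[nat_lit 100, nat_lit 120], [nat_lit 0, nat_lit 499], [(nat_lit 0, nat_lit 0, nat_lit 0), (nat_lit 1000, nat_lit 1000, nat_lit 388)], (nat_lit 98, nat_lit 100, nat_lit 28)⟩
noncomputable def p006_k66 : C1.Kn := ⟨[nat_lit 100, nat_lit 120], [nat_lit 0, nat_lit 448], [(nat_lit 0, nat_lit 0, nat_lit 0), (nat_lit 1000, nat_lit 1000, nat_lit 350)], (nat_lit 98, nat_lit 100, nat_lit 20)⟩
noncomputable def p006_k67 : C1.Kn := ⟨[nat_lit 100, nat_lit 120], [nat_lit 0, nat_lit 473], [(nat_lit 0, nat_lit 0, nat_lit 0), (nat_lit 1000, nat_lit 999, nat_lit 367)], (nat_lit 98, nat_lit 100, nat_lit 20)⟩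
noncomputable def p006_k68 : C1.Kn := ⟨[nat_lit 70, nat_lit 90, nat_lit 110, nat_lit 130, nat_lit 140], [nat_lit 0, nat_lit 0, nat_lit 0, nat_lit 517, nat_lit 788], [(nat_lit 0, nat_lit 0, nat_lit 0), (nat_lit 0, nat_lit 0, nat_lit 0), (nat_lit 0, nat_lit 0, nat_lit 0), (nat_lit 962, nat_lit 1000, nat_lit 387), (nat_lit 956, nat_lit 1000, nat_lit 405)], (nat_lit 100, nat_lit 94, nat_lit 44)⟩
noncomputable def p006_k69 : C1.Kn := ⟨[nat_lit 50, nat_lit 90, nat_lit 110, nat_lit 140], [nat_lit 0, nat_lit 0, nat_lit 61, nat_lit 839], [(nat_lit 0, nat_lit 0, nat_lit 0), (nat_lit 0, nat_lit 0, nat_lit 0), (nat_lit 1000, nat_lit 995, nat_lit 48), (nat_lit 970, nat_lit 1000, nat_lit 393)], (nat_lit 100, nat_lit 95, nat_lit 44)⟩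
noncomputable def p006_k70 : C1.Kn := ⟨[nat_lit 100, nat_lit 120, nat_lit 140], [nat_lit 0, nat_lit 254, nat_lit 778], [(nat_lit 0, nat_lit 0, nat_lit 0), (nat_lit 1000, nat_lit 1000, nat_lit 198), (nat_lit 960, nat_lit 1000, nat_lit 392)], (nat_lit 100, nat_lit 94, nat_lit 44)⟩
noncomputable def p006_k71 : C1.Kn := ⟨[nat_lit 100, nat_lit 120, nat_lit 140], [nat_lit 0, nat_lit 320, nat_lit 839], [(nat_lit 0, nat_lit 0, nat_lit 0), (nat_lit 1000, nat_lit 1000, nat_lit 250), (nat_lit 970, nat_lit 1000, nat_lit 393)], (nat_lit 100, nat_lit 95, nat_lit 44)⟩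
noncomputable def p006_k72 : C1.Kn := ⟨[nat_lit 100, nat_lit 120, nat_lit 140], [nat_lit 0, nat_lit 293, nat_lit 817], [(nat_lit 0, nat_lit 0, nat_lit 0), (nat_lit 1000, nat_lit 1000, nat_lit 229), (nat_lit 965, nat_lit 1000, nat_lit 395)], (nat_lit 100, nat_lit 95, nat_lit 44)⟩
noncomputable def p006_k73 : C1.Kn := ⟨[nat_lit 100, nat_lit 140], [nat_lit 0, nat_lit 586], [(nat_lit 0, nat_lit 0, nat_lit 0), (nat_lit 1000, nat_lit 1000, nat_lit 229)], (nat_lit 100, nat_lit 95, nat_lit 44)⟩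
noncomputable def p006_k74 : C1.Kn := ⟨[nat_lit 100, nat_lit 120, nat_lit 140], [nat_lit 0, nat_lit 306, nat_lit 828], [(nat_lit 0, nat_lit 0, nat_lit 0), (nat_lit 1000, nat_lit 1000, nat_lit 238), (nat_lit 968, nat_lit 1000, nat_lit 394)], (nat_lit 100, nat_lit 95, nat_lit 44)⟩
noncomputable def p006_k75 : C1.Kn := ⟨[nat_lit 90, nat_lit 110, nat_lit 140], [nat_lit 0, nat_lit 51, nat_lit 822], [(nat_lit 0, nat_lit 0, nat_lit 0), (nat_lit 1000, nat_lit 996, nat_lit 40), (nat_lit 969, nat_lit 1000, nat_lit 388)], (nat_lit 100, nat_lit 95, nat_lit 44)⟩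
noncomputable def p006_k76 : C1.Kn := ⟨[nat_lit 90, nat_lit 110, nat_lit 140], [nat_lit 0, nat_lit 76, nat_lit 847], [(nat_lit 0, nat_lit 0, nat_lit 0), (nat_lit 1000, nat_lit 994, nat_lit 60), (nat_lit 973, nat_lit 1000, nat_lit 389)], (nat_lit 100, nat_lit 96, nat_lit 44)⟩
noncomputable def p006_k77 : C1.Kn := ⟨[nat_lit 60, nat_lit 80, nat_lit 100, nat_lit 130, nat_lit 140], [nat_lit 0, nat_lit 0, nat_lit 0, nat_lit 499, nat_lit 916], [(nat_lit 0, nat_lit 0, nat_lit 0), (nat_lit 0, nat_lit 0, nat_lit 0), (nat_lit 0, nat_lit 0, nat_lit 0), (nat_lit 1000, nat_lit 1000, nat_lit 260), (nat_lit 930, nat_lit 1000, nat_lit 508)], (nat_lit 100, nat_lit 96, nat_lit 44)⟩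
noncomputable def p006_k78 : C1.Kn := ⟨[nat_lit 50, nat_lit 90, nat_lit 110, nat_lit 140], [nat_lit 0, nat_lit 0, nat_lit 76, nat_lit 847], [(nat_lit 0, nat_lit 0, nat_lit 0), (nat_lit 0, nat_lit 0, nat_lit 0), (nat_lit 1000, nat_lit 994, nat_lit 60), (nat_lit 973, nat_lit 1000, nat_lit 389)], (nat_lit 100, nat_lit 96, nat_lit 44)⟩
noncomputable def p006_k79 : C1.Kn := ⟨[nat_lit 100, nat_lit 120, nat_lit 140], [nat_lit 0, nat_lit 332, nat_lit 852], [(nat_lit 0, nat_lit 0, nat_lit 0), (nat_lit 1000, nat_lit 1000, nat_lit 260), (nat_lit 972, nat_lit 1000, nat_lit 395)], (nat_lit 100, nat_lit 96, nat_lit 44)⟩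
noncomputable def p006_k80 : C1.Kn := ⟨[nat_lit 60, nat_lit 80, nat_lit 100, nat_lit 130, nat_lit 140], [nat_lit 0, nat_lit 0, nat_lit 0, nat_lit 518, nat_lit 933], [(nat_lit 0, nat_lit 0, nat_lit 0), (nat_lit 0, nat_lit 0, nat_lit 0), (nat_lit 0, nat_lit 0, nat_lit 0), (nat_lit 1000, nat_lit 1000, nat_lit 270), (nat_lit 929, nat_lit 1000, nat_lit 515)], (nat_lit 100, nat_lit 96, nat_lit 44)⟩
noncomputable def p006_l0 : Lf2 := ⟨nat_lit 0, nat_lit 5, [nat_lit 4, nat_lit 5, nat_lit 5, nat_lit 20], true, nat_lit 0, nat_lit 0, nat_lit 0, nat_lit 0, ⟨nat_lit 0, nat_lit 0, nat_lit 1000, nat_lit 5, nat_lit 50, nat_lit 0, nat_lit 0, nat_lit 0, nat_lit 0, nat_lit 215, nat_lit 22817, nat_lit 252, nat_lit 65974237, nat_lit 0, nat_lit 0, nat_lit 395790, false, false⟩,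
 nat_lit 0, nat_lit 8308, nat_lit 0, nat_lit 0, nat_lit 4078, nat_lit 0, nat_lit 337, nat_lit 0, nat_lit 0, nat_lit 0, nat_lit 0, nat_lit 0, nat_lit 0, nat_lit 0, nat_lit 115, nat_lit 1000000, nat_lit 0, nat_lit 0, [(nat_lit 3, [(nat_lit 6, nat_lit 1000)])],
 ⟨p006_k0, nat_lit 0, nat_lit 0, nat_lit 0, nat_lit 0, nat_lit 61508, [nat_lit 3007028572, nat_lit 2237600001, nat_lit 23600000], [], [nat_lit 12790200063, nat_lit 12934112526, nat_lit 12588811299, nat_lit 12735748246], nat_lit 1271250, nat_lit 1271250, nat_lit 43600, nat_lit 65850, nat_lit 0, nat_lit 0, [nat_lit 1271250, nat_lit 1271250, nat_lit 1271250], [nat_lit 103, nat_lit 40, nat_lit 20, nat_lit 40]⟩, C1.Rw.none,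
 ⟨nat_lit 6557, nat_lit 6615, ⟨.ofNat (nat_lit 117973), .ofNat (nat_lit 126489), .ofNat (nat_lit 120115), .ofNat (nat_lit 128631), .ofNat (nat_lit 120782), .ofNat (nat_lit 129239), .ofNat (nat_lit 122922), .ofNat (nat_lit 131380)⟩, ⟨.ofNat (nat_lit 0), .ofNat (nat_lit 0), .ofNat (nat_lit 0), .ofNat (nat_lit 0), .ofNat (nat_lit 0), .ofNat (nat_lit 0), .ofNat (nat_lit 0), .ofNat (nat_lit 0)⟩⟩, []⟩
noncomputable def p006_l1 : Lf2 := ⟨nat_lit 0, nat_lit 5, [nat_lit 4, nat_lit 5, nat_lit 5, nat_lit 20], true, nat_lit 0, nat_lit 0, nat_lit 0, nat_lit 0, ⟨nat_lit 0, nat_lit 0, nat_lit 1000, nat_lit 5, nat_lit 51, nat_lit 0, nat_lit 0, nat_lit 0, nat_lit 0, nat_lit 215, nat_lit 24067, nat_lit 253, nat_lit 65932813, nat_lit 0, nat_lit 0, nat_lit 408606, false, false⟩,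
 nat_lit 0, nat_lit 5306, nat_lit 0, nat_lit 0, nat_lit 2631, nat_lit 0, nat_lit 0, nat_lit 0, nat_lit 101, nat_lit 0, nat_lit 0, nat_lit 0, nat_lit 0, nat_lit 4507297313181, nat_lit 100, nat_lit 840400, nat_lit 0, nat_lit 0, [(nat_lit 3, [(nat_lit 5, nat_lit 266), (nat_lit 6, nat_lit 734)])],
 ⟨p006_k1, nat_lit 0, nat_lit 0, nat_lit 0, nat_lit 0, nat_lit 65155, [nat_lit 2863732732, nat_lit 1926220001, nat_lit 7494400], [], [nat_lit 10159645582, nat_lit 10201334732, nat_lit 10046282094, nat_lit 10088940162], nat_lit 1271250, nat_lit 1271250, nat_lit 43600, nat_lit 65850, nat_lit 0, nat_lit 0, [nat_lit 1271250, nat_lit 1271250, nat_lit 1271250], [nat_lit 103, nat_lit 40, nat_lit 20, nat_lit 40]⟩, C1.Rw.none,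
 ⟨nat_lit 6557, nat_lit 6577, ⟨.ofNat (nat_lit 121988), .ofNat (nat_lit 130466), .ofNat (nat_lit 123059), .ofNat (nat_lit 131536), .ofNat (nat_lit 122922), .ofNat (nat_lit 131380), .ofNat (nat_lit 123992), .ofNat (nat_lit 132450)⟩, ⟨.ofNat (nat_lit 0), .ofNat (nat_lit 0), .ofNat (nat_lit 0), .ofNat (nat_lit 0), .ofNat (nat_lit 0), .ofNat (nat_lit 0), .ofNat (nat_lit 0), .ofNat (nat_lit 0)⟩⟩, []⟩
noncomputable def p006_l2 : Lf2 := ⟨nat_lit 0, nat_lit 5, [nat_lit 4, nat_lit 5, nat_lit 5, nat_lit 20], true, nat_lit 0, nat_lit 0, nat_lit 0, nat_lit 0, ⟨nat_lit 0, nat_lit 0, nat_lit 1000, nat_lit 5, nat_lit 51, nat_lit 0, nat_lit 0, nat_lit 0, nat_lit 0, nat_lit 215, nat_lit 24067, nat_lit 253, nat_lit 65932813, nat_lit 0, nat_lit 0, nat_lit 408606, false, false⟩,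
 nat_lit 0, nat_lit 3375, nat_lit 0, nat_lit 0, nat_lit 1673, nat_lit 0, nat_lit 179, nat_lit 0, nat_lit 140, nat_lit 0, nat_lit 0, nat_lit 0, nat_lit 0, nat_lit 8598711295193, nat_lit 60, nat_lit 400000, nat_lit 0, nat_lit 0, [(nat_lit 3, [(nat_lit 5, nat_lit 1000)])],
 ⟨p006_k2, nat_lit 0, nat_lit 0, nat_lit 0, nat_lit 0, nat_lit 65155, [nat_lit 1531600001, nat_lit 1719600000, nat_lit 1097600000, nat_lit 2000000], [], [nat_lit 8910068890, nat_lit 8948817836, nat_lit 8873554647, nat_lit 8913804294], nat_lit 1271250, nat_lit 1271250, nat_lit 43600, nat_lit 65850, nat_lit 0, nat_lit 0, [nat_lit 631250, nat_lit 1271250, nat_lit 1271250, nat_lit 1271250], [nat_lit 91, nat_lit 40, nat_lit 20, nat_lit 40]⟩, C1.Rw.none,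
 ⟨nat_lit 6557, nat_lit 6577, ⟨.ofNat (nat_lit 121988), .ofNat (nat_lit 130466), .ofNat (nat_lit 123059), .ofNat (nat_lit 131536), .ofNat (nat_lit 122922), .ofNat (nat_lit 131380), .ofNat (nat_lit 123992), .ofNat (nat_lit 132450)⟩, ⟨.ofNat (nat_lit 0), .ofNat (nat_lit 0), .ofNat (nat_lit 0), .ofNat (nat_lit 0), .ofNat (nat_lit 0), .ofNat (nat_lit 0), .ofNat (nat_lit 0), .ofNat (nat_lit 0)⟩⟩, []⟩
noncomputable def p006_l3 : Lf2 := ⟨nat_lit 0, nat_lit 5, [nat_lit 4, nat_lit 5, nat_lit 5, nat_lit 20], true, nat_lit 0, nat_lit 0, nat_lit 0, nat_lit 0, ⟨nat_lit 0, nat_lit 0, nat_lit 1000, nat_lit 5, nat_lit 51, nat_lit 0, nat_lit 0, nat_lit 0, nat_lit 0, nat_lit 215, nat_lit 24067, nat_lit 253, nat_lit 65932813, nat_lit 0, nat_lit 0, nat_lit 408606, false, false⟩,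
 nat_lit 0, nat_lit 3375, nat_lit 0, nat_lit 0, nat_lit 1673, nat_lit 0, nat_lit 179, nat_lit 0, nat_lit 140, nat_lit 0, nat_lit 0, nat_lit 0, nat_lit 0, nat_lit 17505934572033, nat_lit 60, nat_lit 400000, nat_lit 0, nat_lit 0, [(nat_lit 3, [(nat_lit 5, nat_lit 1000)])],
 ⟨p006_k2, nat_lit 0, nat_lit 0, nat_lit 0, nat_lit 0, nat_lit 65155, [nat_lit 1531600001, nat_lit 1719600000, nat_lit 1097600000, nat_lit 2000000], [], [nat_lit 8910068890, nat_lit 8948817836, nat_lit 8873554647, nat_lit 8913804294], nat_lit 1271250, nat_lit 1271250, nat_lit 43600, nat_lit 65850, nat_lit 0, nat_lit 0, [nat_lit 631250, nat_lit 1271250, nat_lit 1271250, nat_lit 1271250], [nat_lit 91, nat_lit 40, nat_lit 20, nat_lit 40]⟩, C1.Rw.none,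
 ⟨nat_lit 6557, nat_lit 6577, ⟨.ofNat (nat_lit 121988), .ofNat (nat_lit 130466), .ofNat (nat_lit 123059), .ofNat (nat_lit 131536), .ofNat (nat_lit 122922), .ofNat (nat_lit 131380), .ofNat (nat_lit 123992), .ofNat (nat_lit 132450)⟩, ⟨.ofNat (nat_lit 0), .ofNat (nat_lit 0), .ofNat (nat_lit 0), .ofNat (nat_lit 0), .ofNat (nat_lit 0), .ofNat (nat_lit 0), .ofNat (nat_lit 0), .ofNat (nat_lit 0)⟩⟩, []⟩
noncomputable def p006_l4 : Lf2 := ⟨nat_lit 0, nat_lit 5, [nat_lit 4, nat_lit 5, nat_lit 5, nat_lit 20], true, nat_lit 0, nat_lit 0, nat_lit 0, nat_lit 0, ⟨nat_lit 0, nat_lit 0, nat_lit 1000, nat_lit 5, nat_lit 51, nat_lit 0, nat_lit 0, nat_lit 0, nat_lit 0, nat_lit 215, nat_lit 24067, nat_lit 253, nat_lit 65932813, nat_lit 0, nat_lit 0, nat_lit 408606, false, false⟩,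
 nat_lit 0, nat_lit 100000, nat_lit 0, nat_lit 0, nat_lit 49599, nat_lit 0, nat_lit 7098, nat_lit 53, nat_lit 0, nat_lit 0, nat_lit 0, nat_lit 0, nat_lit 0, nat_lit 0, nat_lit 62, nat_lit 1000000, nat_lit 19077976093, nat_lit 0, [(nat_lit 3, [(nat_lit 6, nat_lit 1000)])],
 ⟨p006_k2, nat_lit 0, nat_lit 0, nat_lit 0, nat_lit 0, nat_lit 65155, [nat_lit 1742533334, nat_lit 2935066667, nat_lit 2237600001, nat_lit 23600000], [], [nat_lit 2946816113, nat_lit 3148792346, nat_lit 0, nat_lit 203881725], nat_lit 1271250, nat_lit 1271250, nat_lit 43600, nat_lit 65850, nat_lit 0, nat_lit 0, [nat_lit 631250, nat_lit 1271250, nat_lit 1271250, nat_lit 1271250], [nat_lit 91, nat_lit 40, nat_lit 20, nat_lit 40]⟩, C1.Rw.none,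
 ⟨nat_lit 6557, nat_lit 6577, ⟨.ofNat (nat_lit 121988), .ofNat (nat_lit 130466), .ofNat (nat_lit 123059), .ofNat (nat_lit 131536), .ofNat (nat_lit 122922), .ofNat (nat_lit 131380), .ofNat (nat_lit 123992), .ofNat (nat_lit 132450)⟩, ⟨.ofNat (nat_lit 0), .ofNat (nat_lit 0), .ofNat (nat_lit 0), .ofNat (nat_lit 0), .ofNat (nat_lit 0), .ofNat (nat_lit 0), .ofNat (nat_lit 0), .ofNat (nat_lit 0)⟩⟩, []⟩
noncomputable def p006_l5 : Lf2 := ⟨nat_lit 0, nat_lit 5, [nat_lit 4, nat_lit 5, nat_lit 5, nat_lit 20], true, nat_lit 0, nat_lit 0, nat_lit 0, nat_lit 0, ⟨nat_lit 0, nat_lit 0, nat_lit 1000, nat_lit 5, nat_lit 51, nat_lit 0, nat_lit 0, nat_lit 0, nat_lit 0, nat_lit 215, nat_lit 24067, nat_lit 253, nat_lit 65932813, nat_lit 0, nat_lit 0, nat_lit 408606, false, false⟩,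
 nat_lit 0, nat_lit 100000, nat_lit 0, nat_lit 0, nat_lit 49599, nat_lit 0, nat_lit 7098, nat_lit 53, nat_lit 0, nat_lit 0, nat_lit 0, nat_lit 0, nat_lit 0, nat_lit 0, nat_lit 62, nat_lit 1000000, nat_lit 19077976093, nat_lit 0, [(nat_lit 3, [(nat_lit 6, nat_lit 1000)])],
 ⟨p006_k2, nat_lit 0, nat_lit 0, nat_lit 0, nat_lit 0, nat_lit 65155, [nat_lit 1742533334, nat_lit 2935066667, nat_lit 2237600001, nat_lit 23600000], [], [nat_lit 2946816113, nat_lit 3148792346, nat_lit 0, nat_lit 203881725], nat_lit 1271250, nat_lit 1271250, nat_lit 43600, nat_lit 65850, nat_lit 0, nat_lit 0, [nat_lit 631250, nat_lit 1271250, nat_lit 1271250, nat_lit 1271250], [nat_lit 91, nat_lit 40, nat_lit 20, nat_lit 40]⟩, C1.Rw.none,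
 ⟨nat_lit 6557, nat_lit 6577, ⟨.ofNat (nat_lit 121988), .ofNat (nat_lit 130466), .ofNat (nat_lit 123059), .ofNat (nat_lit 131536), .ofNat (nat_lit 122922), .ofNat (nat_lit 131380), .ofNat (nat_lit 123992), .ofNat (nat_lit 132450)⟩, ⟨.ofNat (nat_lit 0), .ofNat (nat_lit 0), .ofNat (nat_lit 0), .ofNat (nat_lit 0), .ofNat (nat_lit 0), .ofNat (nat_lit 0), .ofNat (nat_lit 0), .ofNat (nat_lit 0)⟩⟩, []⟩
noncomputable def p006_l6 : Lf2 := ⟨nat_lit 0, nat_lit 5, [nat_lit 4, nat_lit 5, nat_lit 5, nat_lit 20], true, nat_lit 0, nat_lit 0, nat_lit 0, nat_lit 0, ⟨nat_lit 0, nat_lit 0, nat_lit 1000, nat_lit 5, nat_lit 51, nat_lit 0, nat_lit 0, nat_lit 0, nat_lit 0, nat_lit 215, nat_lit 24067, nat_lit 253, nat_lit 65932813, nat_lit 0, nat_lit 0, nat_lit 408606, false, false⟩,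
 nat_lit 0, nat_lit 100000, nat_lit 0, nat_lit 0, nat_lit 49599, nat_lit 0, nat_lit 12307, nat_lit 2322, nat_lit 0, nat_lit 0, nat_lit 0, nat_lit 0, nat_lit 0, nat_lit 0, nat_lit 0, nat_lit 1000000, nat_lit 0, nat_lit 0, [(nat_lit 3, [(nat_lit 6, nat_lit 1000)])],
 ⟨p006_k3, nat_lit 0, nat_lit 0, nat_lit 0, nat_lit 0, nat_lit 65155, [nat_lit 47481142858, nat_lit 54467600000, nat_lit 61819600000], [], [nat_lit 83122526671, nat_lit 83272990626, nat_lit 80642069047, nat_lit 80789393989], nat_lit 1271250, nat_lit 1271250, nat_lit 43600, nat_lit 65850, nat_lit 0, nat_lit 0, [nat_lit 1412500, nat_lit 1271250, nat_lit 1271250], [nat_lit 25, nat_lit 40, nat_lit 20, nat_lit 80]⟩, C1.Rw.none,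
 ⟨nat_lit 6557, nat_lit 6577, ⟨.ofNat (nat_lit 121988), .ofNat (nat_lit 130466), .ofNat (nat_lit 123059), .ofNat (nat_lit 131536), .ofNat (nat_lit 122922), .ofNat (nat_lit 131380), .ofNat (nat_lit 123992), .ofNat (nat_lit 132450)⟩, ⟨.ofNat (nat_lit 0), .ofNat (nat_lit 0), .ofNat (nat_lit 0), .ofNat (nat_lit 0), .ofNat (nat_lit 0), .ofNat (nat_lit 0), .ofNat (nat_lit 0), .ofNat (nat_lit 0)⟩⟩, []⟩
noncomputable def p006_l7 : Lf2 := ⟨nat_lit 0, nat_lit 5, [nat_lit 4, nat_lit 5, nat_lit 5, nat_lit 20], true, nat_lit 0, nat_lit 0, nat_lit 0, nat_lit 0, ⟨nat_lit 0, nat_lit 0, nat_lit 1000, nat_lit 5, nat_lit 51, nat_lit 0, nat_lit 0, nat_lit 0, nat_lit 0, nat_lit 215, nat_lit 24067, nat_lit 253, nat_lit 65927642, nat_lit 0, nat_lit 0, nat_lit 410196, false, false⟩,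
 nat_lit 0, nat_lit 5279, nat_lit 0, nat_lit 0, nat_lit 2631, nat_lit 0, nat_lit 0, nat_lit 0, nat_lit 101, nat_lit 0, nat_lit 0, nat_lit 0, nat_lit 0, nat_lit 0, nat_lit 100, nat_lit 840400, nat_lit 0, nat_lit 0, [(nat_lit 3, [(nat_lit 5, nat_lit 266), (nat_lit 6, nat_lit 734)])],
 ⟨p006_k4, nat_lit 0, nat_lit 0, nat_lit 0, nat_lit 0, nat_lit 73404, [nat_lit 2863732732, nat_lit 1926220001, nat_lit 7494400], [], [nat_lit 10201334732, nat_lit 10302726135, nat_lit 10088940162, nat_lit 10192513117], nat_lit 1271250, nat_lit 1271250, nat_lit 43600, nat_lit 65850, nat_lit 0, nat_lit 0, [nat_lit 1271250, nat_lit 1271250, nat_lit 1271250], [nat_lit 103, nat_lit 40, nat_lit 20, nat_lit 40]⟩, C1.Rw.none,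
 ⟨nat_lit 6519, nat_lit 6558, ⟨.ofNat (nat_lit 120782), .ofNat (nat_lit 129239), .ofNat (nat_lit 123992), .ofNat (nat_lit 132450), .ofNat (nat_lit 122644), .ofNat (nat_lit 131063), .ofNat (nat_lit 125854), .ofNat (nat_lit 134272)⟩, ⟨.ofNat (nat_lit 0), .ofNat (nat_lit 0), .ofNat (nat_lit 0), .ofNat (nat_lit 0), .ofNat (nat_lit 0), .ofNat (nat_lit 0), .ofNat (nat_lit 0), .ofNat (nat_lit 0)⟩⟩, []⟩
noncomputable def p006_l8 : Lf2 := ⟨nat_lit 0, nat_lit 5, [nat_lit 4, nat_lit 5, nat_lit 5, nat_lit 20], true, nat_lit 0, nat_lit 0, nat_lit 0, nat_lit 0, ⟨nat_lit 0, nat_lit 0, nat_lit 1000, nat_lit 5, nat_lit 51, nat_lit 0, nat_lit 0, nat_lit 0, nat_lit 0, nat_lit 215, nat_lit 24067, nat_lit 253, nat_lit 65945276, nat_lit 0, nat_lit 0, nat_lit 404762, false, false⟩,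
 nat_lit 0, nat_lit 8750, nat_lit 0, nat_lit 0, nat_lit 4362, nat_lit 0, nat_lit 0, nat_lit 0, nat_lit 0, nat_lit 0, nat_lit 0, nat_lit 0, nat_lit 0, nat_lit 0, nat_lit 114, nat_lit 989800, nat_lit 0, nat_lit 0, [(nat_lit 3, [(nat_lit 5, nat_lit 17), (nat_lit 6, nat_lit 983)])],
 ⟨p006_k4, nat_lit 0, nat_lit 0, nat_lit 0, nat_lit 0, nat_lit 64897, [nat_lit 2997126206, nat_lit 2216790001, nat_lit 21412800], [], [nat_lit 14117673462, nat_lit 14192275671, nat_lit 13941540875, nat_lit 14019215912], nat_lit 1271250, nat_lit 1271250, nat_lit 43600, nat_lit 65850, nat_lit 0, nat_lit 0, [nat_lit 1271250, nat_lit 1271250, nat_lit 1271250], [nat_lit 103, nat_lit 40, nat_lit 20, nat_lit 40]⟩, C1.Rw.none,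
 ⟨nat_lit 6519, nat_lit 6558, ⟨.ofNat (nat_lit 120782), .ofNat (nat_lit 129239), .ofNat (nat_lit 121852), .ofNat (nat_lit 130310), .ofNat (nat_lit 122644), .ofNat (nat_lit 131063), .ofNat (nat_lit 123714), .ofNat (nat_lit 132133)⟩, ⟨.ofNat (nat_lit 0), .ofNat (nat_lit 0), .ofNat (nat_lit 0), .ofNat (nat_lit 0), .ofNat (nat_lit 0), .ofNat (nat_lit 0), .ofNat (nat_lit 0), .ofNat (nat_lit 0)⟩⟩, []⟩
noncomputable def p006_l9 : Lf2 := ⟨nat_lit 0, nat_lit 5, [nat_lit 4, nat_lit 5, nat_lit 5, nat_lit 20], true, nat_lit 0, nat_lit 0, nat_lit 0, nat_lit 0, ⟨nat_lit 0, nat_lit 0, nat_lit 1000, nat_lit 5, nat_lit 51, nat_lit 0, nat_lit 0, nat_lit 0, nat_lit 0, nat_lit 215, nat_lit 24067, nat_lit 253, nat_lit 65927638, nat_lit 0, nat_lit 0, nat_lit 410197, false, false⟩,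
 nat_lit 0, nat_lit 7114, nat_lit 0, nat_lit 0, nat_lit 3546, nat_lit 0, nat_lit 0, nat_lit 0, nat_lit 58, nat_lit 0, nat_lit 0, nat_lit 0, nat_lit 0, nat_lit 0, nat_lit 115, nat_lit 1000000, nat_lit 0, nat_lit 0, [(nat_lit 3, [(nat_lit 6, nat_lit 1000)])],
 ⟨p006_k4, nat_lit 0, nat_lit 0, nat_lit 0, nat_lit 0, nat_lit 69150, [nat_lit 3007028572, nat_lit 2237600001, nat_lit 23600000], [], [nat_lit 11757094592, nat_lit 11858118995, nat_lit 11626628368, nat_lit 11715017049], nat_lit 1271250, nat_lit 1271250, nat_lit 43600, nat_lit 65850, nat_lit 0, nat_lit 0, [nat_lit 1271250, nat_lit 1271250, nat_lit 1271250], [nat_lit 103, nat_lit 40, nat_lit 20, nat_lit 40]⟩, C1.Rw.none,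
 ⟨nat_lit 6519, nat_lit 6558, ⟨.ofNat (nat_lit 121852), .ofNat (nat_lit 130310), .ofNat (nat_lit 122922), .ofNat (nat_lit 131380), .ofNat (nat_lit 123714), .ofNat (nat_lit 132133), .ofNat (nat_lit 124784), .ofNat (nat_lit 133203)⟩, ⟨.ofNat (nat_lit 0), .ofNat (nat_lit 0), .ofNat (nat_lit 0), .ofNat (nat_lit 0), .ofNat (nat_lit 0), .ofNat (nat_lit 0), .ofNat (nat_lit 0), .ofNat (nat_lit 0)⟩⟩, []⟩
noncomputable def p006_l10 : Lf2 := ⟨nat_lit 0, nat_lit 5, [nat_lit 4, nat_lit 5, nat_lit 5, nat_lit 20], true, nat_lit 0, nat_lit 0, nat_lit 0, nat_lit 0, ⟨nat_lit 0, nat_lit 0, nat_lit 1000, nat_lit 5, nat_lit 51, nat_lit 0, nat_lit 0, nat_lit 0, nat_lit 0, nat_lit 215, nat_lit 24067, nat_lit 253, nat_lit 65935241, nat_lit 0, nat_lit 0, nat_lit 407857, false, false⟩,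
 nat_lit 0, nat_lit 100000, nat_lit 0, nat_lit 0, nat_lit 49854, nat_lit 0, nat_lit 7930, nat_lit 132, nat_lit 0, nat_lit 0, nat_lit 0, nat_lit 0, nat_lit 0, nat_lit 0, nat_lit 0, nat_lit 400000, nat_lit 16507598207, nat_lit 0, [(nat_lit 3, [(nat_lit 5, nat_lit 1000)])],
 ⟨p006_k5, nat_lit 0, nat_lit 0, nat_lit 0, nat_lit 0, nat_lit 64821, [nat_lit 2251600001, nat_lit 3015600001, nat_lit 2681600001, nat_lit 2018000000], [], [nat_lit 2961815168, nat_lit 3159328085, nat_lit 0, nat_lit 198058465], nat_lit 1271250, nat_lit 1271250, nat_lit 43600, nat_lit 65850, nat_lit 0, nat_lit 0, [nat_lit 631250, nat_lit 1271250, nat_lit 1271250, nat_lit 1271250], [nat_lit 91, nat_lit 40, nat_lit 20, nat_lit 40]⟩, C1.Rw.none,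
 ⟨nat_lit 6538, nat_lit 6558, ⟨.ofNat (nat_lit 121852), .ofNat (nat_lit 130310), .ofNat (nat_lit 122922), .ofNat (nat_lit 131380), .ofNat (nat_lit 122784), .ofNat (nat_lit 131222), .ofNat (nat_lit 123854), .ofNat (nat_lit 132292)⟩, ⟨.ofNat (nat_lit 0), .ofNat (nat_lit 0), .ofNat (nat_lit 0), .ofNat (nat_lit 0), .ofNat (nat_lit 0), .ofNat (nat_lit 0), .ofNat (nat_lit 0), .ofNat (nat_lit 0)⟩⟩, []⟩
noncomputable def p006_l11 : Lf2 := ⟨nat_lit 0, nat_lit 5, [nat_lit 4, nat_lit 5, nat_lit 5, nat_lit 20], true, nat_lit 0, nat_lit 0, nat_lit 0, nat_lit 0, ⟨nat_lit 0, nat_lit 0, nat_lit 1000, nat_lit 5, nat_lit 51, nat_lit 0, nat_lit 0, nat_lit 0, nat_lit 0, nat_lit 215, nat_lit 24067, nat_lit 253, nat_lit 65935241, nat_lit 0, nat_lit 0, nat_lit 407857, false, false⟩,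
 nat_lit 0, nat_lit 100000, nat_lit 0, nat_lit 0, nat_lit 49854, nat_lit 0, nat_lit 7930, nat_lit 132, nat_lit 0, nat_lit 0, nat_lit 0, nat_lit 0, nat_lit 0, nat_lit 0, nat_lit 0, nat_lit 400000, nat_lit 16507598207, nat_lit 0, [(nat_lit 3, [(nat_lit 5, nat_lit 1000)])],
 ⟨p006_k5, nat_lit 0, nat_lit 0, nat_lit 0, nat_lit 0, nat_lit 64821, [nat_lit 2251600001, nat_lit 3015600001, nat_lit 2681600001, nat_lit 2018000000], [], [nat_lit 2961815168, nat_lit 3159328085, nat_lit 0, nat_lit 198058465], nat_lit 1271250, nat_lit 1271250, nat_lit 43600, nat_lit 65850, nat_lit 0, nat_lit 0, [nat_lit 631250, nat_lit 1271250, nat_lit 1271250, nat_lit 1271250], [nat_lit 91, nat_lit 40, nat_lit 20, nat_lit 40]⟩, C1.Rw.none,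
 ⟨nat_lit 6538, nat_lit 6558, ⟨.ofNat (nat_lit 121852), .ofNat (nat_lit 130310), .ofNat (nat_lit 122922), .ofNat (nat_lit 131380), .ofNat (nat_lit 122784), .ofNat (nat_lit 131222), .ofNat (nat_lit 123854), .ofNat (nat_lit 132292)⟩, ⟨.ofNat (nat_lit 0), .ofNat (nat_lit 0), .ofNat (nat_lit 0), .ofNat (nat_lit 0), .ofNat (nat_lit 0), .ofNat (nat_lit 0), .ofNat (nat_lit 0), .ofNat (nat_lit 0)⟩⟩, []⟩
noncomputable def p006_l12 : Lf2 := ⟨nat_lit 0, nat_lit 5, [nat_lit 4, nat_lit 5, nat_lit 5, nat_lit 20], true, nat_lit 0, nat_lit 0, nat_lit 0, nat_lit 0, ⟨nat_lit 0, nat_lit 0, nat_lit 1000, nat_lit 5, nat_lit 51, nat_lit 0, nat_lit 0, nat_lit 0, nat_lit 0, nat_lit 215, nat_lit 24067, nat_lit 253, nat_lit 65919996, nat_lit 0, nat_lit 0, nat_lit 412545, false, false⟩,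
 nat_lit 0, nat_lit 100000, nat_lit 0, nat_lit 0, nat_lit 50109, nat_lit 0, nat_lit 8003, nat_lit 166, nat_lit 0, nat_lit 0, nat_lit 0, nat_lit 0, nat_lit 0, nat_lit 0, nat_lit 0, nat_lit 400000, nat_lit 15561779726, nat_lit 0, [(nat_lit 3, [(nat_lit 5, nat_lit 1000)])],
 ⟨p006_k6, nat_lit 0, nat_lit 0, nat_lit 0, nat_lit 0, nat_lit 68771, [nat_lit 2591600001, nat_lit 3627600001, nat_lit 3429600001, nat_lit 2970000000], [], [nat_lit 2976809949, nat_lit 3179703181, nat_lit 0, nat_lit 203962403], nat_lit 1271250, nat_lit 1271250, nat_lit 43600, nat_lit 65850, nat_lit 0, nat_lit 0, [nat_lit 631250, nat_lit 1271250, nat_lit 1271250, nat_lit 1271250], [nat_lit 91, nat_lit 40, nat_lit 20, nat_lit 40]⟩, C1.Rw.none,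
 ⟨nat_lit 6519, nat_lit 6539, ⟨.ofNat (nat_lit 122784), .ofNat (nat_lit 131222), .ofNat (nat_lit 123854), .ofNat (nat_lit 132292), .ofNat (nat_lit 123714), .ofNat (nat_lit 132133), .ofNat (nat_lit 124784), .ofNat (nat_lit 133203)⟩, ⟨.ofNat (nat_lit 0), .ofNat (nat_lit 0), .ofNat (nat_lit 0), .ofNat (nat_lit 0), .ofNat (nat_lit 0), .ofNat (nat_lit 0), .ofNat (nat_lit 0), .ofNat (nat_lit 0)⟩⟩, [⟨nat_lit 0, nat_lit 100, nat_lit 100, nat_lit 28, nat_lit 3823933358⟩]⟩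
noncomputable def p006_l13 : Lf2 := ⟨nat_lit 0, nat_lit 5, [nat_lit 4, nat_lit 5, nat_lit 5, nat_lit 20], true, nat_lit 0, nat_lit 0, nat_lit 0, nat_lit 0, ⟨nat_lit 0, nat_lit 0, nat_lit 1000, nat_lit 5, nat_lit 51, nat_lit 0, nat_lit 0, nat_lit 0, nat_lit 0, nat_lit 215, nat_lit 24067, nat_lit 253, nat_lit 65919996, nat_lit 0, nat_lit 0, nat_lit 412545, false, false⟩,
 nat_lit 0, nat_lit 100000, nat_lit 0, nat_lit 0, nat_lit 50109, nat_lit 0, nat_lit 8003, nat_lit 166, nat_lit 0, nat_lit 0, nat_lit 0, nat_lit 0, nat_lit 0, nat_lit 0, nat_lit 0, nat_lit 400000, nat_lit 15561779726, nat_lit 0, [(nat_lit 3, [(nat_lit 5, nat_lit 1000)])],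
 ⟨p006_k6, nat_lit 0, nat_lit 0, nat_lit 0, nat_lit 0, nat_lit 68771, [nat_lit 2591600001, nat_lit 3627600001, nat_lit 3429600001, nat_lit 2970000000], [], [nat_lit 2976809949, nat_lit 3179703181, nat_lit 0, nat_lit 203962403], nat_lit 1271250, nat_lit 1271250, nat_lit 43600, nat_lit 65850, nat_lit 0, nat_lit 0, [nat_lit 631250, nat_lit 1271250, nat_lit 1271250, nat_lit 1271250], [nat_lit 91, nat_lit 40, nat_lit 20, nat_lit 40]⟩, C1.Rw.none,
 ⟨nat_lit 6519, nat_lit 6539, ⟨.ofNat (nat_lit 122784), .ofNat (nat_lit 131222), .ofNat (nat_lit 123854), .ofNat (nat_lit 132292), .ofNat (nat_lit 123714), .ofNat (nat_lit 132133), .ofNat (nat_lit 124784), .ofNat (nat_lit 133203)⟩, ⟨.ofNat (nat_lit 0), .ofNat (nat_lit 0), .ofNat (nat_lit 0), .ofNat (nat_lit 0), .ofNat (nat_lit 0), .ofNat (nat_lit 0), .ofNat (nat_lit 0), .ofNat (nat_lit 0)⟩⟩, [⟨nat_lit 0, nat_lit 100, nat_lit 100, nat_lit 28, nat_lit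 3823933358⟩]⟩
noncomputable def p006_l14 : Lf2 := ⟨nat_lit 0, nat_lit 5, [nat_lit 4, nat_lit 5, nat_lit 5, nat_lit 20], true, nat_lit 0, nat_lit 0, nat_lit 0, nat_lit 0, ⟨nat_lit 0, nat_lit 0, nat_lit 1000, nat_lit 5, nat_lit 51, nat_lit 0, nat_lit 0, nat_lit 0, nat_lit 0, nat_lit 215, nat_lit 24067, nat_lit 253, nat_lit 65917525, nat_lit 0, nat_lit 0, nat_lit 413304, false, false⟩,
 nat_lit 0, nat_lit 3394, nat_lit 0, nat_lit 0, nat_lit 1691, nat_lit 0, nat_lit 187, nat_lit 0, nat_lit 139, nat_lit 0, nat_lit 0, nat_lit 0, nat_lit 0, nat_lit 0, nat_lit 60, nat_lit 400000, nat_lit 0, nat_lit 0, [(nat_lit 3, [(nat_lit 5, nat_lit 1000)])],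
 ⟨p006_k5, nat_lit 0, nat_lit 0, nat_lit 0, nat_lit 0, nat_lit 69100, [nat_lit 1531600001, nat_lit 1719600000, nat_lit 1097600000, nat_lit 2000000], [], [nat_lit 8959979236, nat_lit 9003198492, nat_lit 8923857532, nat_lit 8964199646], nat_lit 1271250, nat_lit 1271250, nat_lit 43600, nat_lit 65850, nat_lit 0, nat_lit 0, [nat_lit 631250, nat_lit 1271250, nat_lit 1271250, nat_lit 1271250], [nat_lit 91, nat_lit 40, nat_lit 20, nat_lit 40]⟩, C1.Rw.none,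
 ⟨nat_lit 6538, nat_lit 6558, ⟨.ofNat (nat_lit 122922), .ofNat (nat_lit 131380), .ofNat (nat_lit 123992), .ofNat (nat_lit 132450), .ofNat (nat_lit 123854), .ofNat (nat_lit 132292), .ofNat (nat_lit 124924), .ofNat (nat_lit 133362)⟩, ⟨.ofNat (nat_lit 0), .ofNat (nat_lit 0), .ofNat (nat_lit 0), .ofNat (nat_lit 0), .ofNat (nat_lit 0), .ofNat (nat_lit 0), .ofNat (nat_lit 0), .ofNat (nat_lit 0)⟩⟩, []⟩
noncomputable def p006_l15 : Lf2 := ⟨nat_lit 0, nat_lit 5, [nat_lit 4, nat_lit 5, nat_lit 5, nat_lit 20], true, nat_lit 0, nat_lit 0, nat_lit 0, nat_lit 0, ⟨nat_lit 0, nat_lit 0, nat_lit 1000, nat_lit 5, nat_lit 51, nat_lit 0, nat_lit 0, nat_lit 0, nat_lit 0, nat_lit 215, nat_lit 24067, nat_lit 253, nat_lit 65917525, nat_lit 0, nat_lit 0, nat_lit 413304, false, false⟩,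
 nat_lit 0, nat_lit 3394, nat_lit 0, nat_lit 0, nat_lit 1691, nat_lit 0, nat_lit 187, nat_lit 0, nat_lit 139, nat_lit 0, nat_lit 0, nat_lit 0, nat_lit 0, nat_lit 0, nat_lit 60, nat_lit 400000, nat_lit 0, nat_lit 0, [(nat_lit 3, [(nat_lit 5, nat_lit 1000)])],
 ⟨p006_k5, nat_lit 0, nat_lit 0, nat_lit 0, nat_lit 0, nat_lit 69100, [nat_lit 1531600001, nat_lit 1719600000, nat_lit 1097600000, nat_lit 2000000], [], [nat_lit 8959979236, nat_lit 9003198492, nat_lit 8923857532, nat_lit 8964199646], nat_lit 1271250, nat_lit 1271250, nat_lit 43600, nat_lit 65850, nat_lit 0, nat_lit 0, [nat_lit 631250, nat_lit 1271250, nat_lit 1271250, nat_lit 1271250], [nat_lit 91, nat_lit 40, nat_lit 20, nat_lit 40]⟩, C1.Rw.none,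
 ⟨nat_lit 6538, nat_lit 6558, ⟨.ofNat (nat_lit 122922), .ofNat (nat_lit 131380), .ofNat (nat_lit 123992), .ofNat (nat_lit 132450), .ofNat (nat_lit 123854), .ofNat (nat_lit 132292), .ofNat (nat_lit 124924), .ofNat (nat_lit 133362)⟩, ⟨.ofNat (nat_lit 0), .ofNat (nat_lit 0), .ofNat (nat_lit 0), .ofNat (nat_lit 0), .ofNat (nat_lit 0), .ofNat (nat_lit 0), .ofNat (nat_lit 0), .ofNat (nat_lit 0)⟩⟩, []⟩
noncomputable def p006_l16 : Lf2 := ⟨nat_lit 0, nat_lit 5, [nat_lit 4, nat_lit 5, nat_lit 5, nat_lit 20], true, nat_lit 0, nat_lit 0, nat_lit 0, nat_lit 0, ⟨nat_lit 0, nat_lit 0, nat_lit 1000, nat_lit 5, nat_lit 52, nat_lit 0, nat_lit 0, nat_lit 0, nat_lit 0, nat_lit 215, nat_lit 25350, nat_lit 254, nat_lit 65902163, nat_lit 0, nat_lit 0, nat_lit 418009, false, false⟩,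
 nat_lit 0, nat_lit 3424, nat_lit 0, nat_lit 0, nat_lit 1715, nat_lit 0, nat_lit 194, nat_lit 0, nat_lit 137, nat_lit 0, nat_lit 0, nat_lit 0, nat_lit 0, nat_lit 0, nat_lit 60, nat_lit 399400, nat_lit 0, nat_lit 0, [(nat_lit 3, [(nat_lit 4, nat_lit 4), (nat_lit 5, nat_lit 996)])],
 ⟨p006_k6, nat_lit 0, nat_lit 0, nat_lit 0, nat_lit 0, nat_lit 73001, [nat_lit 1534737601, nat_lit 1719297601, nat_lit 1097827200, nat_lit 3520000], [], [nat_lit 9055730929, nat_lit 9097097658, nat_lit 9018458403, nat_lit 9058923806], nat_lit 1271250, nat_lit 1271250, nat_lit 43600, nat_lit 65850, nat_lit 0, nat_lit 0, [nat_lit 631250, nat_lit 1271250, nat_lit 1271250, nat_lit 1271250], [nat_lit 91, nat_lit 40, nat_lit 20, nat_lit 40]⟩, C1.Rw.none,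
 ⟨nat_lit 6519, nat_lit 6539, ⟨.ofNat (nat_lit 123854), .ofNat (nat_lit 132292), .ofNat (nat_lit 124924), .ofNat (nat_lit 133362), .ofNat (nat_lit 124784), .ofNat (nat_lit 133203), .ofNat (nat_lit 125854), .ofNat (nat_lit 134272)⟩, ⟨.ofNat (nat_lit 0), .ofNat (nat_lit 0), .ofNat (nat_lit 0), .ofNat (nat_lit 0), .ofNat (nat_lit 0), .ofNat (nat_lit 0), .ofNat (nat_lit 0), .ofNat (nat_lit 0)⟩⟩, [⟨nat_lit 0, nat_lit 100, nat_lit 100, nat_lit 29, nat_lit 154650153⟩]⟩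
noncomputable def p006_l17 : Lf2 := ⟨nat_lit 0, nat_lit 5, [nat_lit 4, nat_lit 5, nat_lit 5, nat_lit 20], true, nat_lit 0, nat_lit 0, nat_lit 0, nat_lit 0, ⟨nat_lit 0, nat_lit 0, nat_lit 1000, nat_lit 5, nat_lit 52, nat_lit 0, nat_lit 0, nat_lit 0, nat_lit 0, nat_lit 215, nat_lit 25350, nat_lit 254, nat_lit 65902163, nat_lit 0, nat_lit 0, nat_lit 418009, false, false⟩,
 nat_lit 0, nat_lit 3424, nat_lit 0, nat_lit 0, nat_lit 1715, nat_lit 0, nat_lit 194, nat_lit 0, nat_lit 137, nat_lit 0, nat_lit 0, nat_lit 0, nat_lit 0, nat_lit 0, nat_lit 60, nat_lit 399400, nat_lit 0, nat_lit 0, [(nat_lit 3, [(nat_lit 4, nat_lit 4), (nat_lit 5, nat_lit 996)])],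
 ⟨p006_k6, nat_lit 0, nat_lit 0, nat_lit 0, nat_lit 0, nat_lit 73001, [nat_lit 1534737601, nat_lit 1719297601, nat_lit 1097827200, nat_lit 3520000], [], [nat_lit 9055730929, nat_lit 9097097658, nat_lit 9018458403, nat_lit 9058923806], nat_lit 1271250, nat_lit 1271250, nat_lit 43600, nat_lit 65850, nat_lit 0, nat_lit 0, [nat_lit 631250, nat_lit 1271250, nat_lit 1271250, nat_lit 1271250], [nat_lit 91, nat_lit 40, nat_lit 20, nat_lit 40]⟩, C1.Rw.none,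
 ⟨nat_lit 6519, nat_lit 6539, ⟨.ofNat (nat_lit 123854), .ofNat (nat_lit 132292), .ofNat (nat_lit 124924), .ofNat (nat_lit 133362), .ofNat (nat_lit 124784), .ofNat (nat_lit 133203), .ofNat (nat_lit 125854), .ofNat (nat_lit 134272)⟩, ⟨.ofNat (nat_lit 0), .ofNat (nat_lit 0), .ofNat (nat_lit 0), .ofNat (nat_lit 0), .ofNat (nat_lit 0), .ofNat (nat_lit 0), .ofNat (nat_lit 0), .ofNat (nat_lit 0)⟩⟩, [⟨nat_lit 0, nat_lit 100, nat_lit 100, nat_lit 29, nat_lit 154650153⟩]⟩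
noncomputable def p006_l18 : Lf2 := ⟨nat_lit 0, nat_lit 5, [nat_lit 4, nat_lit 5, nat_lit 5, nat_lit 20], true, nat_lit 0, nat_lit 0, nat_lit 0, nat_lit 0, ⟨nat_lit 0, nat_lit 0, nat_lit 1000, nat_lit 5, nat_lit 51, nat_lit 0, nat_lit 0, nat_lit 0, nat_lit 0, nat_lit 215, nat_lit 24067, nat_lit 253, nat_lit 65917525, nat_lit 0, nat_lit 0, nat_lit 413304, false, false⟩,
 nat_lit 0, nat_lit 100000, nat_lit 0, nat_lit 0, nat_lit 49854, nat_lit 0, nat_lit 7930, nat_lit 132, nat_lit 0, nat_lit 0, nat_lit 0, nat_lit 0, nat_lit 0, nat_lit 0, nat_lit 0, nat_lit 400000, nat_lit 16507598207, nat_lit 0, [(nat_lit 3, [(nat_lit 5, nat_lit 1000)])],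
 ⟨p006_k5, nat_lit 0, nat_lit 0, nat_lit 0, nat_lit 0, nat_lit 69100, [nat_lit 2251600001, nat_lit 3015600001, nat_lit 2681600001, nat_lit 2018000000], [], [nat_lit 2961815168, nat_lit 3159328085, nat_lit 0, nat_lit 198058465], nat_lit 1271250, nat_lit 1271250, nat_lit 43600, nat_lit 65850, nat_lit 0, nat_lit 0, [nat_lit 631250, nat_lit 1271250, nat_lit 1271250, nat_lit 1271250], [nat_lit 91, nat_lit 40, nat_lit 20, nat_lit 40]⟩, C1.Rw.none,
 ⟨nat_lit 6538, nat_lit 6558, ⟨.ofNat (nat_lit 122922), .ofNat (nat_lit 131380), .ofNat (nat_lit 123992), .ofNat (nat_lit 132450), .ofNat (nat_lit 123854), .ofNat (nat_lit 132292), .ofNat (nat_lit 124924), .ofNat (nat_lit 133362)⟩, ⟨.ofNat (nat_lit 0), .ofNat (nat_lit 0), .ofNat (nat_lit 0), .ofNat (nat_lit 0), .ofNat (nat_lit 0), .ofNat (nat_lit 0), .ofNat (nat_lit 0), .ofNat (nat_lit 0)⟩⟩, [⟨nat_lit 0, nat_lit 100, nat_lit 100, nat_lit 28, nat_lit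 3805486566⟩]⟩
noncomputable def p006_l19 : Lf2 := ⟨nat_lit 0, nat_lit 5, [nat_lit 4, nat_lit 5, nat_lit 5, nat_lit 20], true, nat_lit 0, nat_lit 0, nat_lit 0, nat_lit 0, ⟨nat_lit 0, nat_lit 0, nat_lit 1000, nat_lit 5, nat_lit 51, nat_lit 0, nat_lit 0, nat_lit 0, nat_lit 0, nat_lit 215, nat_lit 24067, nat_lit 253, nat_lit 65917525, nat_lit 0, nat_lit 0, nat_lit 413304, false, false⟩,
 nat_lit 0, nat_lit 100000, nat_lit 0, nat_lit 0, nat_lit 49854, nat_lit 0, nat_lit 7930, nat_lit 132, nat_lit 0, nat_lit 0, nat_lit 0, nat_lit 0, nat_lit 0, nat_lit 0, nat_lit 0, nat_lit 400000, nat_lit 16507598207, nat_lit 0, [(nat_lit 3, [(nat_lit 5, nat_lit 1000)])],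
 ⟨p006_k5, nat_lit 0, nat_lit 0, nat_lit 0, nat_lit 0, nat_lit 69100, [nat_lit 2251600001, nat_lit 3015600001, nat_lit 2681600001, nat_lit 2018000000], [], [nat_lit 2961815168, nat_lit 3159328085, nat_lit 0, nat_lit 198058465], nat_lit 1271250, nat_lit 1271250, nat_lit 43600, nat_lit 65850, nat_lit 0, nat_lit 0, [nat_lit 631250, nat_lit 1271250, nat_lit 1271250, nat_lit 1271250], [nat_lit 91, nat_lit 40, nat_lit 20, nat_lit 40]⟩, C1.Rw.none,
 ⟨nat_lit 6538, nat_lit 6558, ⟨.ofNat (nat_lit 122922), .ofNat (nat_lit 131380), .ofNat (nat_lit 123992), .ofNat (nat_lit 132450), .ofNat (nat_lit 123854), .ofNat (nat_lit 132292), .ofNat (nat_lit 124924), .ofNat (nat_lit 133362)⟩, ⟨.ofNat (nat_lit 0), .ofNat (nat_lit 0), .ofNat (nat_lit 0), .ofNat (nat_lit 0), .ofNat (nat_lit 0), .ofNat (nat_lit 0), .ofNat (nat_lit 0), .ofNat (nat_lit 0)⟩⟩, [⟨nat_lit 0, nat_lit 100, nat_lit 100, nat_lit 28, nat_lit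 3805486566⟩]⟩
noncomputable def p006_l20 : Lf2 := ⟨nat_lit 0, nat_lit 5, [nat_lit 4, nat_lit 5, nat_lit 5, nat_lit 20], true, nat_lit 0, nat_lit 0, nat_lit 0, nat_lit 0, ⟨nat_lit 0, nat_lit 0, nat_lit 1000, nat_lit 5, nat_lit 52, nat_lit 0, nat_lit 0, nat_lit 0, nat_lit 0, nat_lit 215, nat_lit 25350, nat_lit 254, nat_lit 65902163, nat_lit 0, nat_lit 0, nat_lit 418009, false, false⟩,
 nat_lit 0, nat_lit 100000, nat_lit 0, nat_lit 0, nat_lit 50109, nat_lit 0, nat_lit 8003, nat_lit 166, nat_lit 0, nat_lit 0, nat_lit 0, nat_lit 0, nat_lit 0, nat_lit 0, nat_lit 0, nat_lit 400000, nat_lit 15561779726, nat_lit 0, [(nat_lit 3, [(nat_lit 5, nat_lit 1000)])],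
 ⟨p006_k6, nat_lit 0, nat_lit 0, nat_lit 0, nat_lit 0, nat_lit 73001, [nat_lit 2591600001, nat_lit 3627600001, nat_lit 3429600001, nat_lit 2970000000], [], [nat_lit 2976809949, nat_lit 3179703181, nat_lit 0, nat_lit 203962403], nat_lit 1271250, nat_lit 1271250, nat_lit 43600, nat_lit 65850, nat_lit 0, nat_lit 0, [nat_lit 631250, nat_lit 1271250, nat_lit 1271250, nat_lit 1271250], [nat_lit 91, nat_lit 40, nat_lit 20, nat_lit 40]⟩, C1.Rw.none,
 ⟨nat_lit 6519, nat_lit 6539, ⟨.ofNat (nat_lit 123854), .ofNat (nat_lit 132292), .ofNat (nat_lit 124924), .ofNat (nat_lit 133362), .ofNat (nat_lit 124784), .ofNat (nat_lit 133203), .ofNat (nat_lit 125854), .ofNat (nat_lit 134272)⟩, ⟨.ofNat (nat_lit 0), .ofNat (nat_lit 0), .ofNat (nat_lit 0), .ofNat (nat_lit 0), .ofNat (nat_lit 0), .ofNat (nat_lit 0), .ofNat (nat_lit 0), .ofNat (nat_lit 0)⟩⟩, [⟨nat_lit 0, nat_lit 100, nat_lit 100, nat_lit 29, nat_lit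 3824738749⟩]⟩
noncomputable def p006_l21 : Lf2 := ⟨nat_lit 0, nat_lit 5, [nat_lit 4, nat_lit 5, nat_lit 5, nat_lit 20], true, nat_lit 0, nat_lit 0, nat_lit 0, nat_lit 0, ⟨nat_lit 0, nat_lit 0, nat_lit 1000, nat_lit 5, nat_lit 52, nat_lit 0, nat_lit 0, nat_lit 0, nat_lit 0, nat_lit 215, nat_lit 25350, nat_lit 254, nat_lit 65902163, nat_lit 0, nat_lit 0, nat_lit 418009, false, false⟩,
 nat_lit 0, nat_lit 100000, nat_lit 0, nat_lit 0, nat_lit 50109, nat_lit 0, nat_lit 8003, nat_lit 166, nat_lit 0, nat_lit 0, nat_lit 0, nat_lit 0, nat_lit 0, nat_lit 0, nat_lit 0, nat_lit 400000, nat_lit 15561779726, nat_lit 0, [(nat_lit 3, [(nat_lit 5, nat_lit 1000)])],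
 ⟨p006_k6, nat_lit 0, nat_lit 0, nat_lit 0, nat_lit 0, nat_lit 73001, [nat_lit 2591600001, nat_lit 3627600001, nat_lit 3429600001, nat_lit 2970000000], [], [nat_lit 2976809949, nat_lit 3179703181, nat_lit 0, nat_lit 203962403], nat_lit 1271250, nat_lit 1271250, nat_lit 43600, nat_lit 65850, nat_lit 0, nat_lit 0, [nat_lit 631250, nat_lit 1271250, nat_lit 1271250, nat_lit 1271250], [nat_lit 91, nat_lit 40, nat_lit 20, nat_lit 40]⟩, C1.Rw.none,
 ⟨nat_lit 6519, nat_lit 6539, ⟨.ofNat (nat_lit 123854), .ofNat (nat_lit 132292), .ofNat (nat_lit 124924), .ofNat (nat_lit 133362), .ofNat (nat_lit 124784), .ofNat (nat_lit 133203), .ofNat (nat_lit 125854), .ofNat (nat_lit 134272)⟩, ⟨.ofNat (nat_lit 0), .ofNat (nat_lit 0), .ofNat (nat_lit 0), .ofNat (nat_lit 0), .ofNat (nat_lit 0), .ofNat (nat_lit 0), .ofNat (nat_lit 0), .ofNat (nat_lit 0)⟩⟩, [⟨nat_lit 0, nat_lit 100, nat_lit 100, nat_lit 29, nat_lit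 3824738749⟩]⟩
noncomputable def p006_l22 : Lf2 := ⟨nat_lit 0, nat_lit 5, [nat_lit 4, nat_lit 5, nat_lit 5, nat_lit 20], true, nat_lit 0, nat_lit 0, nat_lit 0, nat_lit 0, ⟨nat_lit 0, nat_lit 0, nat_lit 1000, nat_lit 5, nat_lit 51, nat_lit 0, nat_lit 0, nat_lit 0, nat_lit 0, nat_lit 215, nat_lit 24067, nat_lit 253, nat_lit 65927642, nat_lit 0, nat_lit 0, nat_lit 410196, false, false⟩,
 nat_lit 0, nat_lit 100000, nat_lit 0, nat_lit 0, nat_lit 49854, nat_lit 0, nat_lit 12576, nat_lit 2428, nat_lit 0, nat_lit 0, nat_lit 0, nat_lit 0, nat_lit 0, nat_lit 0, nat_lit 0, nat_lit 400000, nat_lit 0, nat_lit 0, [(nat_lit 3, [(nat_lit 5, nat_lit 1000)])],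
 ⟨p006_k4, nat_lit 0, nat_lit 0, nat_lit 0, nat_lit 0, nat_lit 73404, [nat_lit 45117360001, nat_lit 53193600001, nat_lit 66306000000], [], [nat_lit 87127473211, nat_lit 87525888366, nat_lit 84625688159, nat_lit 85021016678], nat_lit 1271250, nat_lit 1271250, nat_lit 43600, nat_lit 65850, nat_lit 0, nat_lit 0, [nat_lit 1271250, nat_lit 1271250, nat_lit 1271250], [nat_lit 103, nat_lit 40, nat_lit 20, nat_lit 40]⟩, C1.Rw.none,
 ⟨nat_lit 6519, nat_lit 6558, ⟨.ofNat (nat_lit 120782), .ofNat (nat_lit 129239), .ofNat (nat_lit 123992), .ofNat (nat_lit 132450), .ofNat (nat_lit 122644), .ofNat (nat_lit 131063), .ofNat (nat_lit 125854), .ofNat (nat_lit 134272)⟩, ⟨.ofNat (nat_lit 0), .ofNat (nat_lit 0), .ofNat (nat_lit 0), .ofNat (nat_lit 0), .ofNat (nat_lit 0), .ofNat (nat_lit 0), .ofNat (nat_lit 0), .ofNat (nat_lit 0)⟩⟩, [⟨nat_lit 0, nat_lit 100, nat_lit 100, nat_lit 29, nat_lit 3230836955⟩]⟩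
noncomputable def p006_l23 : Lf2 := ⟨nat_lit 0, nat_lit 5, [nat_lit 4, nat_lit 5, nat_lit 5, nat_lit 20], true, nat_lit 0, nat_lit 0, nat_lit 0, nat_lit 0, ⟨nat_lit 0, nat_lit 0, nat_lit 1000, nat_lit 5, nat_lit 52, nat_lit 0, nat_lit 0, nat_lit 0, nat_lit 0, nat_lit 215, nat_lit 25350, nat_lit 254, nat_lit 65899669, nat_lit 0, nat_lit 0, nat_lit 418772, false, false⟩,
 nat_lit 0, nat_lit 5290, nat_lit 0, nat_lit 0, nat_lit 2637, nat_lit 0, nat_lit 0, nat_lit 0, nat_lit 101, nat_lit 0, nat_lit 0, nat_lit 0, nat_lit 0, nat_lit 7417778266624, nat_lit 100, nat_lit 840400, nat_lit 0, nat_lit 0, [(nat_lit 3, [(nat_lit 5, nat_lit 266), (nat_lit 6, nat_lit 734)])],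
 ⟨p006_k4, nat_lit 0, nat_lit 0, nat_lit 0, nat_lit 0, nat_lit 73379, [nat_lit 2863732732, nat_lit 1926220001, nat_lit 7494400], [], [nat_lit 10200508990, nat_lit 10248728158, nat_lit 10085517905, nat_lit 10134601637], nat_lit 1271250, nat_lit 1271250, nat_lit 43600, nat_lit 65850, nat_lit 0, nat_lit 0, [nat_lit 1271250, nat_lit 1271250, nat_lit 1271250], [nat_lit 103, nat_lit 40, nat_lit 20, nat_lit 40]⟩, C1.Rw.none,
 ⟨nat_lit 6538, nat_lit 6558, ⟨.ofNat (nat_lit 123992), .ofNat (nat_lit 132450), .ofNat (nat_lit 125063), .ofNat (nat_lit 133520), .ofNat (nat_lit 124924), .ofNat (nat_lit 133362), .ofNat (nat_lit 125994), .ofNat (nat_lit 134432)⟩, ⟨.ofNat (nat_lit 0), .ofNat (nat_lit 0), .ofNat (nat_lit 0), .ofNat (nat_lit 0), .ofNat (nat_lit 0), .ofNat (nat_lit 0), .ofNat (nat_lit 0), .ofNat (nat_lit 0)⟩⟩, [⟨nat_lit 0, nat_lit 100, nat_lit 100, nat_lit 29, nat_lit 246210081⟩]⟩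
noncomputable def p006_l24 : Lf2 := ⟨nat_lit 0, nat_lit 5, [nat_lit 4, nat_lit 5, nat_lit 5, nat_lit 20], true, nat_lit 0, nat_lit 0, nat_lit 0, nat_lit 0, ⟨nat_lit 0, nat_lit 0, nat_lit 1000, nat_lit 5, nat_lit 52, nat_lit 0, nat_lit 0, nat_lit 0, nat_lit 0, nat_lit 215, nat_lit 25350, nat_lit 254, nat_lit 65899669, nat_lit 0, nat_lit 0, nat_lit 418772, false, false⟩,
 nat_lit 0, nat_lit 3401, nat_lit 0, nat_lit 0, nat_lit 1695, nat_lit 0, nat_lit 187, nat_lit 0, nat_lit 138, nat_lit 0, nat_lit 0, nat_lit 0, nat_lit 0, nat_lit 10327666298667, nat_lit 60, nat_lit 400000, nat_lit 0, nat_lit 0, [(nat_lit 3, [(nat_lit 5, nat_lit 1000)])],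
 ⟨p006_k5, nat_lit 0, nat_lit 0, nat_lit 0, nat_lit 0, nat_lit 73379, [nat_lit 1531600001, nat_lit 1719600000, nat_lit 1097600000, nat_lit 2000000], [], [nat_lit 9004340622, nat_lit 9043868607, nat_lit 8967287418, nat_lit 9007650081], nat_lit 1271250, nat_lit 1271250, nat_lit 43600, nat_lit 65850, nat_lit 0, nat_lit 0, [nat_lit 631250, nat_lit 1271250, nat_lit 1271250, nat_lit 1271250], [nat_lit 91, nat_lit 40, nat_lit 20, nat_lit 40]⟩, C1.Rw.none,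
 ⟨nat_lit 6538, nat_lit 6558, ⟨.ofNat (nat_lit 123992), .ofNat (nat_lit 132450), .ofNat (nat_lit 125063), .ofNat (nat_lit 133520), .ofNat (nat_lit 124924), .ofNat (nat_lit 133362), .ofNat (nat_lit 125994), .ofNat (nat_lit 134432)⟩, ⟨.ofNat (nat_lit 0), .ofNat (nat_lit 0), .ofNat (nat_lit 0), .ofNat (nat_lit 0), .ofNat (nat_lit 0), .ofNat (nat_lit 0), .ofNat (nat_lit 0), .ofNat (nat_lit 0)⟩⟩, [⟨nat_lit 0, nat_lit 100, nat_lit 100, nat_lit 29, nat_lit 153303977⟩]⟩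
noncomputable def p006_l25 : Lf2 := ⟨nat_lit 0, nat_lit 5, [nat_lit 4, nat_lit 5, nat_lit 5, nat_lit 20], true, nat_lit 0, nat_lit 0, nat_lit 0, nat_lit 0, ⟨nat_lit 0, nat_lit 0, nat_lit 1000, nat_lit 5, nat_lit 52, nat_lit 0, nat_lit 0, nat_lit 0, nat_lit 0, nat_lit 215, nat_lit 25350, nat_lit 254, nat_lit 65899669, nat_lit 0, nat_lit 0, nat_lit 418772, false, false⟩,
 nat_lit 0, nat_lit 3401, nat_lit 0, nat_lit 0, nat_lit 1695, nat_lit 0, nat_lit 187, nat_lit 0, nat_lit 138, nat_lit 0, nat_lit 0, nat_lit 0, nat_lit 0, nat_lit 15728270209016, nat_lit 60, nat_lit 400000, nat_lit 0, nat_lit 0, [(nat_lit 3, [(nat_lit 5, nat_lit 1000)])],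
 ⟨p006_k5, nat_lit 0, nat_lit 0, nat_lit 0, nat_lit 0, nat_lit 73379, [nat_lit 1531600001, nat_lit 1719600000, nat_lit 1097600000, nat_lit 2000000], [], [nat_lit 9004340622, nat_lit 9043868607, nat_lit 8967287418, nat_lit 9007650081], nat_lit 1271250, nat_lit 1271250, nat_lit 43600, nat_lit 65850, nat_lit 0, nat_lit 0, [nat_lit 631250, nat_lit 1271250, nat_lit 1271250, nat_lit 1271250], [nat_lit 91, nat_lit 40, nat_lit 20, nat_lit 40]⟩, C1.Rw.none,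
 ⟨nat_lit 6538, nat_lit 6558, ⟨.ofNat (nat_lit 123992), .ofNat (nat_lit 132450), .ofNat (nat_lit 125063), .ofNat (nat_lit 133520), .ofNat (nat_lit 124924), .ofNat (nat_lit 133362), .ofNat (nat_lit 125994), .ofNat (nat_lit 134432)⟩, ⟨.ofNat (nat_lit 0), .ofNat (nat_lit 0), .ofNat (nat_lit 0), .ofNat (nat_lit 0), .ofNat (nat_lit 0), .ofNat (nat_lit 0), .ofNat (nat_lit 0), .ofNat (nat_lit 0)⟩⟩, [⟨nat_lit 0, nat_lit 100, nat_lit 100, nat_lit 29, nat_lit 153303977⟩]⟩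
noncomputable def p006_l26 : Lf2 := ⟨nat_lit 0, nat_lit 5, [nat_lit 4, nat_lit 5, nat_lit 5, nat_lit 20], true, nat_lit 0, nat_lit 0, nat_lit 0, nat_lit 0, ⟨nat_lit 0, nat_lit 0, nat_lit 1000, nat_lit 5, nat_lit 52, nat_lit 0, nat_lit 0, nat_lit 0, nat_lit 0, nat_lit 215, nat_lit 25350, nat_lit 254, nat_lit 65899669, nat_lit 0, nat_lit 0, nat_lit 418772, false, false⟩,
 nat_lit 0, nat_lit 100000, nat_lit 0, nat_lit 0, nat_lit 49854, nat_lit 0, nat_lit 7930, nat_lit 132, nat_lit 0, nat_lit 0, nat_lit 0, nat_lit 0, nat_lit 0, nat_lit 0, nat_lit 0, nat_lit 400000, nat_lit 16507598207, nat_lit 0, [(nat_lit 3, [(nat_lit 5, nat_lit 1000)])],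
 ⟨p006_k5, nat_lit 0, nat_lit 0, nat_lit 0, nat_lit 0, nat_lit 73379, [nat_lit 2251600001, nat_lit 3015600001, nat_lit 2681600001, nat_lit 2018000000], [], [nat_lit 2961815168, nat_lit 3159328085, nat_lit 0, nat_lit 198058465], nat_lit 1271250, nat_lit 1271250, nat_lit 43600, nat_lit 65850, nat_lit 0, nat_lit 0, [nat_lit 631250, nat_lit 1271250, nat_lit 1271250, nat_lit 1271250], [nat_lit 91, nat_lit 40, nat_lit 20, nat_lit 40]⟩, C1.Rw.none,
 ⟨nat_lit 6538, nat_lit 6558, ⟨.ofNat (nat_lit 123992), .ofNat (nat_lit 132450), .ofNat (nat_lit 125063), .ofNat (nat_lit 133520), .ofNat (nat_lit 124924), .ofNat (nat_lit 133362), .ofNat (nat_lit 125994), .ofNat (nat_lit 134432)⟩, ⟨.ofNat (nat_lit 0), .ofNat (nat_lit 0), .ofNat (nat_lit 0), .ofNat (nat_lit 0), .ofNat (nat_lit 0), .ofNat (nat_lit 0), .ofNat (nat_lit 0), .ofNat (nat_lit 0)⟩⟩, [⟨nat_lit 0, nat_lit 100, nat_lit 100, nat_lit 29, nat_lit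 3806319818⟩]⟩
noncomputable def p006_l27 : Lf2 := ⟨nat_lit 0, nat_lit 5, [nat_lit 4, nat_lit 5, nat_lit 5, nat_lit 20], true, nat_lit 0, nat_lit 0, nat_lit 0, nat_lit 0, ⟨nat_lit 0, nat_lit 0, nat_lit 1000, nat_lit 5, nat_lit 52, nat_lit 0, nat_lit 0, nat_lit 0, nat_lit 0, nat_lit 215, nat_lit 25350, nat_lit 254, nat_lit 65899669, nat_lit 0, nat_lit 0, nat_lit 418772, false, false⟩,
 nat_lit 0, nat_lit 100000, nat_lit 0, nat_lit 0, nat_lit 49854, nat_lit 0, nat_lit 7930, nat_lit 132, nat_lit 0, nat_lit 0, nat_lit 0, nat_lit 0, nat_lit 0, nat_lit 0, nat_lit 0, nat_lit 400000, nat_lit 16507598207, nat_lit 0, [(nat_lit 3, [(nat_lit 5, nat_lit 1000)])],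
 ⟨p006_k5, nat_lit 0, nat_lit 0, nat_lit 0, nat_lit 0, nat_lit 73379, [nat_lit 2251600001, nat_lit 3015600001, nat_lit 2681600001, nat_lit 2018000000], [], [nat_lit 2961815168, nat_lit 3159328085, nat_lit 0, nat_lit 198058465], nat_lit 1271250, nat_lit 1271250, nat_lit 43600, nat_lit 65850, nat_lit 0, nat_lit 0, [nat_lit 631250, nat_lit 1271250, nat_lit 1271250, nat_lit 1271250], [nat_lit 91, nat_lit 40, nat_lit 20, nat_lit 40]⟩, C1.Rw.none,
 ⟨nat_lit 6538, nat_lit 6558, ⟨.ofNat (nat_lit 123992), .ofNat (nat_lit 132450), .ofNat (nat_lit 125063), .ofNat (nat_lit 133520), .ofNat (nat_lit 124924), .ofNat (nat_lit 133362), .ofNat (nat_lit 125994), .ofNat (nat_lit 134432)⟩, ⟨.ofNat (nat_lit 0), .ofNat (nat_lit 0), .ofNat (nat_lit 0), .ofNat (nat_lit 0), .ofNat (nat_lit 0), .ofNat (nat_lit 0), .ofNat (nat_lit 0), .ofNat (nat_lit 0)⟩⟩, [⟨nat_lit 0, nat_lit 100, nat_lit 100, nat_lit 29, nat_lit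 3806319818⟩]⟩
noncomputable def p006_l28 : Lf2 := ⟨nat_lit 0, nat_lit 5, [nat_lit 4, nat_lit 5, nat_lit 5, nat_lit 20], true, nat_lit 0, nat_lit 0, nat_lit 0, nat_lit 0, ⟨nat_lit 0, nat_lit 0, nat_lit 1000, nat_lit 5, nat_lit 52, nat_lit 0, nat_lit 0, nat_lit 0, nat_lit 0, nat_lit 215, nat_lit 25350, nat_lit 254, nat_lit 65899669, nat_lit 0, nat_lit 0, nat_lit 418772, false, false⟩,
 nat_lit 0, nat_lit 100000, nat_lit 0, nat_lit 0, nat_lit 49854, nat_lit 0, nat_lit 12597, nat_lit 2424, nat_lit 0, nat_lit 0, nat_lit 0, nat_lit 0, nat_lit 0, nat_lit 0, nat_lit 0, nat_lit 400000, nat_lit 0, nat_lit 0, [(nat_lit 3, [(nat_lit 5, nat_lit 1000)])],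
 ⟨p006_k4, nat_lit 0, nat_lit 0, nat_lit 0, nat_lit 0, nat_lit 73379, [nat_lit 45045360000, nat_lit 53105600001, nat_lit 66194000000], [], [nat_lit 86863620086, nat_lit 87061268479, nat_lit 84364300658, nat_lit 84561964917], nat_lit 1271250, nat_lit 1271250, nat_lit 43600, nat_lit 65850, nat_lit 0, nat_lit 0, [nat_lit 1271250, nat_lit 1271250, nat_lit 1271250], [nat_lit 103, nat_lit 40, nat_lit 20, nat_lit 40]⟩, C1.Rw.none,
 ⟨nat_lit 6538, nat_lit 6558, ⟨.ofNat (nat_lit 123992), .ofNat (nat_lit 132450), .ofNat (nat_lit 125063), .ofNat (nat_lit 133520), .ofNat (nat_lit 124924), .ofNat (nat_lit 133362), .ofNat (nat_lit 125994), .ofNat (nat_lit 134432)⟩, ⟨.ofNat (nat_lit 0), .ofNat (nat_lit 0), .ofNat (nat_lit 0), .ofNat (nat_lit 0), .ofNat (nat_lit 0), .ofNat (nat_lit 0), .ofNat (nat_lit 0), .ofNat (nat_lit 0)⟩⟩, [⟨nat_lit 0, nat_lit 100, nat_lit 100, nat_lit 29, nat_lit 3232155418⟩]⟩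
noncomputable def p006_l29 : Lf2 := ⟨nat_lit 0, nat_lit 5, [nat_lit 4, nat_lit 5, nat_lit 5, nat_lit 20], true, nat_lit 0, nat_lit 0, nat_lit 0, nat_lit 0, ⟨nat_lit 0, nat_lit 0, nat_lit 1000, nat_lit 5, nat_lit 52, nat_lit 0, nat_lit 0, nat_lit 0, nat_lit 0, nat_lit 215, nat_lit 25350, nat_lit 254, nat_lit 65884192, nat_lit 0, nat_lit 0, nat_lit 423492, false, false⟩,
 nat_lit 0, nat_lit 5263, nat_lit 0, nat_lit 0, nat_lit 2637, nat_lit 0, nat_lit 0, nat_lit 0, nat_lit 101, nat_lit 0, nat_lit 0, nat_lit 0, nat_lit 0, nat_lit 0, nat_lit 100, nat_lit 840400, nat_lit 0, nat_lit 0, [(nat_lit 3, [(nat_lit 5, nat_lit 266), (nat_lit 6, nat_lit 734)])],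
 ⟨p006_k7, nat_lit 0, nat_lit 0, nat_lit 0, nat_lit 0, nat_lit 77231, [nat_lit 2863732732, nat_lit 1926220001, nat_lit 7494400], [], [nat_lit 10248728158, nat_lit 10297217080, nat_lit 10134601637, nat_lit 10186637370], nat_lit 1271250, nat_lit 1271250, nat_lit 43600, nat_lit 65850, nat_lit 0, nat_lit 0, [nat_lit 1271250, nat_lit 1271250, nat_lit 1271250], [nat_lit 103, nat_lit 40, nat_lit 20, nat_lit 40]⟩, C1.Rw.none,
 ⟨nat_lit 6519, nat_lit 6539, ⟨.ofNat (nat_lit 124924), .ofNat (nat_lit 133362), .ofNat (nat_lit 125994), .ofNat (nat_lit 134432), .ofNat (nat_lit 125854), .ofNat (nat_lit 134272), .ofNat (nat_lit 126924), .ofNat (nat_lit 135342)⟩, ⟨.ofNat (nat_lit 0), .ofNat (nat_lit 0), .ofNat (nat_lit 0), .ofNat (nat_lit 0), .ofNat (nat_lit 0), .ofNat (nat_lit 0), .ofNat (nat_lit 0), .ofNat (nat_lit 0)⟩⟩, [⟨nat_lit 0, nat_lit 100, nat_lit 100, nat_lit 29, nat_lit 246210081⟩]⟩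
noncomputable def p006_l30 : Lf2 := ⟨nat_lit 0, nat_lit 5, [nat_lit 4, nat_lit 5, nat_lit 5, nat_lit 20], true, nat_lit 0, nat_lit 0, nat_lit 0, nat_lit 0, ⟨nat_lit 0, nat_lit 0, nat_lit 1000, nat_lit 5, nat_lit 52, nat_lit 0, nat_lit 0, nat_lit 0, nat_lit 0, nat_lit 215, nat_lit 25350, nat_lit 254, nat_lit 65884192, nat_lit 0, nat_lit 0, nat_lit 423492, false, false⟩,
 nat_lit 0, nat_lit 3426, nat_lit 0, nat_lit 0, nat_lit 1716, nat_lit 0, nat_lit 194, nat_lit 0, nat_lit 137, nat_lit 0, nat_lit 0, nat_lit 0, nat_lit 0, nat_lit 0, nat_lit 60, nat_lit 400000, nat_lit 0, nat_lit 0, [(nat_lit 3, [(nat_lit 5, nat_lit 1000)])],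
 ⟨p006_k6, nat_lit 0, nat_lit 0, nat_lit 0, nat_lit 0, nat_lit 77231, [nat_lit 1531600001, nat_lit 1719600000, nat_lit 1097600000, nat_lit 2000000], [], [nat_lit 9053519884, nat_lit 9096426915, nat_lit 9013758610, nat_lit 9054229151], nat_lit 1271250, nat_lit 1271250, nat_lit 43600, nat_lit 65850, nat_lit 0, nat_lit 0, [nat_lit 631250, nat_lit 1271250, nat_lit 1271250, nat_lit 1271250], [nat_lit 91, nat_lit 40, nat_lit 20, nat_lit 40]⟩, C1.Rw.none,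
 ⟨nat_lit 6519, nat_lit 6539, ⟨.ofNat (nat_lit 124924), .ofNat (nat_lit 133362), .ofNat (nat_lit 125994), .ofNat (nat_lit 134432), .ofNat (nat_lit 125854), .ofNat (nat_lit 134272), .ofNat (nat_lit 126924), .ofNat (nat_lit 135342)⟩, ⟨.ofNat (nat_lit 0), .ofNat (nat_lit 0), .ofNat (nat_lit 0), .ofNat (nat_lit 0), .ofNat (nat_lit 0), .ofNat (nat_lit 0), .ofNat (nat_lit 0), .ofNat (nat_lit 0)⟩⟩, [⟨nat_lit 0, nat_lit 100, nat_lit 100, nat_lit 29, nat_lit 158625603⟩]⟩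
noncomputable def p006_l31 : Lf2 := ⟨nat_lit 0, nat_lit 5, [nat_lit 4, nat_lit 5, nat_lit 5, nat_lit 20], true, nat_lit 0, nat_lit 0, nat_lit 0, nat_lit 0, ⟨nat_lit 0, nat_lit 0, nat_lit 1000, nat_lit 5, nat_lit 52, nat_lit 0, nat_lit 0, nat_lit 0, nat_lit 0, nat_lit 215, nat_lit 25350, nat_lit 254, nat_lit 65884192, nat_lit 0, nat_lit 0, nat_lit 423492, false, false⟩,
 nat_lit 0, nat_lit 3426, nat_lit 0, nat_lit 0, nat_lit 1716, nat_lit 0, nat_lit 194, nat_lit 0, nat_lit 137, nat_lit 0, nat_lit 0, nat_lit 0, nat_lit 0, nat_lit 0, nat_lit 60, nat_lit 400000, nat_lit 0, nat_lit 0, [(nat_lit 3, [(nat_lit 5, nat_lit 1000)])],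
 ⟨p006_k6, nat_lit 0, nat_lit 0, nat_lit 0, nat_lit 0, nat_lit 77231, [nat_lit 1531600001, nat_lit 1719600000, nat_lit 1097600000, nat_lit 2000000], [], [nat_lit 9053519884, nat_lit 9096426915, nat_lit 9013758610, nat_lit 9054229151], nat_lit 1271250, nat_lit 1271250, nat_lit 43600, nat_lit 65850, nat_lit 0, nat_lit 0, [nat_lit 631250, nat_lit 1271250, nat_lit 1271250, nat_lit 1271250], [nat_lit 91, nat_lit 40, nat_lit 20, nat_lit 40]⟩, C1.Rw.none,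
 ⟨nat_lit 6519, nat_lit 6539, ⟨.ofNat (nat_lit 124924), .ofNat (nat_lit 133362), .ofNat (nat_lit 125994), .ofNat (nat_lit 134432), .ofNat (nat_lit 125854), .ofNat (nat_lit 134272), .ofNat (nat_lit 126924), .ofNat (nat_lit 135342)⟩, ⟨.ofNat (nat_lit 0), .ofNat (nat_lit 0), .ofNat (nat_lit 0), .ofNat (nat_lit 0), .ofNat (nat_lit 0), .ofNat (nat_lit 0), .ofNat (nat_lit 0), .ofNat (nat_lit 0)⟩⟩, [⟨nat_lit 0, nat_lit 100, nat_lit 100, nat_lit 29, nat_lit 158625603⟩]⟩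
noncomputable def p006_l32 : Lf2 := ⟨nat_lit 0, nat_lit 5, [nat_lit 4, nat_lit 5, nat_lit 5, nat_lit 20], true, nat_lit 0, nat_lit 0, nat_lit 0, nat_lit 0, ⟨nat_lit 0, nat_lit 0, nat_lit 1000, nat_lit 5, nat_lit 52, nat_lit 0, nat_lit 0, nat_lit 0, nat_lit 0, nat_lit 215, nat_lit 25350, nat_lit 254, nat_lit 65884192, nat_lit 0, nat_lit 0, nat_lit 423492, false, false⟩,
 nat_lit 0, nat_lit 100000, nat_lit 0, nat_lit 0, nat_lit 50109, nat_lit 0, nat_lit 8003, nat_lit 166, nat_lit 0, nat_lit 0, nat_lit 0, nat_lit 0, nat_lit 0, nat_lit 0, nat_lit 0, nat_lit 400000, nat_lit 15561779726, nat_lit 0, [(nat_lit 3, [(nat_lit 5, nat_lit 1000)])],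
 ⟨p006_k6, nat_lit 0, nat_lit 0, nat_lit 0, nat_lit 0, nat_lit 77231, [nat_lit 2591600001, nat_lit 3627600001, nat_lit 3429600001, nat_lit 2970000000], [], [nat_lit 2976809949, nat_lit 3179703181, nat_lit 0, nat_lit 203962403], nat_lit 1271250, nat_lit 1271250, nat_lit 43600, nat_lit 65850, nat_lit 0, nat_lit 0, [nat_lit 631250, nat_lit 1271250, nat_lit 1271250, nat_lit 1271250], [nat_lit 91, nat_lit 40, nat_lit 20, nat_lit 40]⟩, C1.Rw.none,
 ⟨nat_lit 6519, nat_lit 6539, ⟨.ofNat (nat_lit 124924), .ofNat (nat_lit 133362), .ofNat (nat_lit 125994), .ofNat (nat_lit 134432), .ofNat (nat_lit 125854), .ofNat (nat_lit 134272), .ofNat (nat_lit 126924), .ofNat (nat_lit 135342)⟩, ⟨.ofNat (nat_lit 0), .ofNat (nat_lit 0), .ofNat (nat_lit 0), .ofNat (nat_lit 0), .ofNat (nat_lit 0), .ofNat (nat_lit 0), .ofNat (nat_lit 0), .ofNat (nat_lit 0)⟩⟩, [⟨nat_lit 0, nat_lit 100, nat_lit 100, nat_lit 29, nat_lit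 3824738749⟩]⟩
noncomputable def p006_l33 : Lf2 := ⟨nat_lit 0, nat_lit 5, [nat_lit 4, nat_lit 5, nat_lit 5, nat_lit 20], true, nat_lit 0, nat_lit 0, nat_lit 0, nat_lit 0, ⟨nat_lit 0, nat_lit 0, nat_lit 1000, nat_lit 5, nat_lit 52, nat_lit 0, nat_lit 0, nat_lit 0, nat_lit 0, nat_lit 215, nat_lit 25350, nat_lit 254, nat_lit 65884192, nat_lit 0, nat_lit 0, nat_lit 423492, false, false⟩,
 nat_lit 0, nat_lit 100000, nat_lit 0, nat_lit 0, nat_lit 50109, nat_lit 0, nat_lit 8003, nat_lit 166, nat_lit 0, nat_lit 0, nat_lit 0, nat_lit 0, nat_lit 0, nat_lit 0, nat_lit 0, nat_lit 400000, nat_lit 15561779726, nat_lit 0, [(nat_lit 3, [(nat_lit 5, nat_lit 1000)])],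
 ⟨p006_k6, nat_lit 0, nat_lit 0, nat_lit 0, nat_lit 0, nat_lit 77231, [nat_lit 2591600001, nat_lit 3627600001, nat_lit 3429600001, nat_lit 2970000000], [], [nat_lit 2976809949, nat_lit 3179703181, nat_lit 0, nat_lit 203962403], nat_lit 1271250, nat_lit 1271250, nat_lit 43600, nat_lit 65850, nat_lit 0, nat_lit 0, [nat_lit 631250, nat_lit 1271250, nat_lit 1271250, nat_lit 1271250], [nat_lit 91, nat_lit 40, nat_lit 20, nat_lit 40]⟩, C1.Rw.none,
 ⟨nat_lit 6519, nat_lit 6539, ⟨.ofNat (nat_lit 124924), .ofNat (nat_lit 133362), .ofNat (nat_lit 125994), .ofNat (nat_lit 134432), .ofNat (nat_lit 125854), .ofNat (nat_lit 134272), .ofNat (nat_lit 126924), .ofNat (nat_lit 135342)⟩, ⟨.ofNat (nat_lit 0), .ofNat (nat_lit 0), .ofNat (nat_lit 0), .ofNat (nat_lit 0), .ofNat (nat_lit 0), .ofNat (nat_lit 0), .ofNat (nat_lit 0), .ofNat (nat_lit 0)⟩⟩, [⟨nat_lit 0, nat_lit 100, nat_lit 100, nat_lit 29, nat_lit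 3824738749⟩]⟩
noncomputable def p006_l34 : Lf2 := ⟨nat_lit 0, nat_lit 5, [nat_lit 4, nat_lit 5, nat_lit 5, nat_lit 20], true, nat_lit 0, nat_lit 0, nat_lit 0, nat_lit 0, ⟨nat_lit 0, nat_lit 0, nat_lit 1000, nat_lit 5, nat_lit 52, nat_lit 0, nat_lit 0, nat_lit 0, nat_lit 0, nat_lit 215, nat_lit 25350, nat_lit 254, nat_lit 65884192, nat_lit 0, nat_lit 0, nat_lit 423492, false, false⟩,
 nat_lit 0, nat_lit 100000, nat_lit 0, nat_lit 0, nat_lit 50109, nat_lit 0, nat_lit 12515, nat_lit 2461, nat_lit 0, nat_lit 0, nat_lit 0, nat_lit 0, nat_lit 0, nat_lit 0, nat_lit 0, nat_lit 400000, nat_lit 0, nat_lit 0, [(nat_lit 3, [(nat_lit 5, nat_lit 1000)])],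
 ⟨p006_k7, nat_lit 0, nat_lit 0, nat_lit 0, nat_lit 0, nat_lit 77231, [nat_lit 45711360000, nat_lit 53919600001, nat_lit 67230000000], [], [nat_lit 88079130223, nat_lit 88281891873, nat_lit 85564474804, nat_lit 85763003095], nat_lit 1271250, nat_lit 1271250, nat_lit 43600, nat_lit 65850, nat_lit 0, nat_lit 0, [nat_lit 1271250, nat_lit 1271250, nat_lit 1271250], [nat_lit 103, nat_lit 40, nat_lit 20, nat_lit 40]⟩, C1.Rw.none,
 ⟨nat_lit 6519, nat_lit 6539, ⟨.ofNat (nat_lit 124924), .ofNat (nat_lit 133362), .ofNat (nat_lit 125994), .ofNat (nat_lit 134432), .ofNat (nat_lit 125854), .ofNat (nat_lit 134272), .ofNat (nat_lit 126924), .ofNat (nat_lit 135342)⟩, ⟨.ofNat (nat_lit 0), .ofNat (nat_lit 0), .ofNat (nat_lit 0), .ofNat (nat_lit 0), .ofNat (nat_lit 0), .ofNat (nat_lit 0), .ofNat (nat_lit 0), .ofNat (nat_lit 0)⟩⟩, [⟨nat_lit 0, nat_lit 100, nat_lit 100, nat_lit 29, nat_lit 3247979389⟩]⟩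
noncomputable def p006_l35 : Lf2 := ⟨nat_lit 0, nat_lit 5, [nat_lit 4, nat_lit 5, nat_lit 5, nat_lit 20], true, nat_lit 0, nat_lit 0, nat_lit 0, nat_lit 0, ⟨nat_lit 0, nat_lit 0, nat_lit 1000, nat_lit 5, nat_lit 52, nat_lit 0, nat_lit 0, nat_lit 0, nat_lit 0, nat_lit 215, nat_lit 25350, nat_lit 254, nat_lit 65866080, nat_lit 0, nat_lit 0, nat_lit 428996, false, false⟩,
 nat_lit 0, nat_lit 8240, nat_lit 0, nat_lit 0, nat_lit 4128, nat_lit 0, nat_lit 940, nat_lit 0, nat_lit 0, nat_lit 0, nat_lit 0, nat_lit 0, nat_lit 0, nat_lit 3469535071500, nat_lit 48, nat_lit 263650, nat_lit 0, nat_lit 0, [(nat_lit 3, [(nat_lit 4, nat_lit 909), (nat_lit 5, nat_lit 91)])],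
 ⟨p006_k6, nat_lit 0, nat_lit 0, nat_lit 0, nat_lit 0, nat_lit 81461, [nat_lit 2124619601, nat_lit 1434879600, nat_lit 885231201, nat_lit 11420000], [], [nat_lit 13190620150, nat_lit 13235689487, nat_lit 12987134904, nat_lit 13035433395], nat_lit 1271250, nat_lit 1271250, nat_lit 43600, nat_lit 65850, nat_lit 0, nat_lit 0, [nat_lit 631250, nat_lit 1271250, nat_lit 1271250, nat_lit 1271250], [nat_lit 91, nat_lit 40, nat_lit 20, nat_lit 40]⟩, C1.Rw.none,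
 ⟨nat_lit 6519, nat_lit 6539, ⟨.ofNat (nat_lit 125994), .ofNat (nat_lit 134432), .ofNat (nat_lit 127064), .ofNat (nat_lit 135502), .ofNat (nat_lit 126924), .ofNat (nat_lit 135342), .ofNat (nat_lit 127994), .ofNat (nat_lit 136412)⟩, ⟨.ofNat (nat_lit 0), .ofNat (nat_lit 0), .ofNat (nat_lit 0), .ofNat (nat_lit 0), .ofNat (nat_lit 0), .ofNat (nat_lit 0), .ofNat (nat_lit 0), .ofNat (nat_lit 0)⟩⟩, [⟨nat_lit 0, nat_lit 100, nat_lit 100, nat_lit 30, nat_lit 358834473⟩]⟩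
noncomputable def p006_l36 : Lf2 := ⟨nat_lit 0, nat_lit 5, [nat_lit 4, nat_lit 5, nat_lit 5, nat_lit 20], true, nat_lit 0, nat_lit 0, nat_lit 0, nat_lit 0, ⟨nat_lit 0, nat_lit 0, nat_lit 1000, nat_lit 5, nat_lit 52, nat_lit 0, nat_lit 0, nat_lit 0, nat_lit 0, nat_lit 215, nat_lit 25350, nat_lit 254, nat_lit 65866080, nat_lit 0, nat_lit 0, nat_lit 428996, false, false⟩,
 nat_lit 0, nat_lit 8240, nat_lit 0, nat_lit 0, nat_lit 4128, nat_lit 0, nat_lit 940, nat_lit 0, nat_lit 0, nat_lit 0, nat_lit 0, nat_lit 0, nat_lit 0, nat_lit 21380491086265, nat_lit 48, nat_lit 263650, nat_lit 0, nat_lit 0, [(nat_lit 3, [(nat_lit 4, nat_lit 909), (nat_lit 5, nat_lit 91)])],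
 ⟨p006_k6, nat_lit 0, nat_lit 0, nat_lit 0, nat_lit 0, nat_lit 81461, [nat_lit 2124619601, nat_lit 1434879600, nat_lit 885231201, nat_lit 11420000], [], [nat_lit 13190620150, nat_lit 13235689487, nat_lit 12987134904, nat_lit 13035433395], nat_lit 1271250, nat_lit 1271250, nat_lit 43600, nat_lit 65850, nat_lit 0, nat_lit 0, [nat_lit 631250, nat_lit 1271250, nat_lit 1271250, nat_lit 1271250], [nat_lit 91, nat_lit 40, nat_lit 20, nat_lit 40]⟩, C1.Rw.none,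
 ⟨nat_lit 6519, nat_lit 6539, ⟨.ofNat (nat_lit 125994), .ofNat (nat_lit 134432), .ofNat (nat_lit 127064), .ofNat (nat_lit 135502), .ofNat (nat_lit 126924), .ofNat (nat_lit 135342), .ofNat (nat_lit 127994), .ofNat (nat_lit 136412)⟩, ⟨.ofNat (nat_lit 0), .ofNat (nat_lit 0), .ofNat (nat_lit 0), .ofNat (nat_lit 0), .ofNat (nat_lit 0), .ofNat (nat_lit 0), .ofNat (nat_lit 0), .ofNat (nat_lit 0)⟩⟩, [⟨nat_lit 0, nat_lit 100, nat_lit 100, nat_lit 30, nat_lit 358834473⟩]⟩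
noncomputable def b_NL_550_550_0_19 : St := ⟨false, nat_lit 1, nat_lit 0, nat_lit 1, nat_lit 20, nat_lit 225, nat_lit 230, nat_lit 225, nat_lit 230, nat_lit 8, nat_lit 12, nat_lit 0, nat_lit 0, nat_lit 0, nat_lit 0, nat_lit 0, nat_lit 0, nat_lit 20, nat_lit 24, nat_lit 300, nat_lit 600, nat_lit 0, nat_lit 800⟩
theorem d_NL_550_550_0_19 (h : EB TB.env) : Dead b_NL_550_550_0_19 := chkB_sound0 h (T :=
(.spl (nat_lit 0) (nat_lit 228)
(.ord (.spl (nat_lit 1) (nat_lit 227)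
(.leaf p006_l0)
(.ord (.spl (nat_lit 7) (nat_lit 460)
(.spl (nat_lit 7) (nat_lit 380)
(.leaf p006_l1)
(.spl (nat_lit 7) (nat_lit 420)
(.spl (nat_lit 8) (nat_lit 400)
(.leaf p006_l2)
(.leaf p006_l3))
(.spl (nat_lit 8) (nat_lit 400)
(.leaf p006_l4)
(.leaf p006_l5))))
(.leaf p006_l6)))))
(.spl (nat_lit 1) (nat_lit 228)
(.spl (nat_lit 7) (nat_lit 460)
(.spl (nat_lit 7) (nat_lit 380)
(.leaf p006_l7)
(.spl (nat_lit 1) (nat_lit 227)
(.spl (nat_lit 1) (nat_lit 226)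
(.leaf p006_l8)
(.spl (nat_lit 7) (nat_lit 420)
(.leaf p006_l9)
(.spl (nat_lit 0) (nat_lit 229)
(.spl (nat_lit 8) (nat_lit 400)
(.leaf p006_l10)
(.leaf p006_l11))
(.spl (nat_lit 8) (nat_lit 400)
(.leaf p006_l12)
(.leaf p006_l13)))))
(.spl (nat_lit 7) (nat_lit 420)
(.spl (nat_lit 0) (nat_lit 229)
(.spl (nat_lit 8) (nat_lit 400)
(.leaf p006_l14)
(.leaf p006_l15))
(.spl (nat_lit 8) (nat_lit 400)
(.leaf p006_l16)
(.leaf p006_l17)))
(.spl (nat_lit 0) (nat_lit 229)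
(.spl (nat_lit 8) (nat_lit 400)
(.leaf p006_l18)
(.leaf p006_l19))
(.spl (nat_lit 8) (nat_lit 400)
(.leaf p006_l20)
(.leaf p006_l21))))))
(.leaf p006_l22))
(.spl (nat_lit 0) (nat_lit 229)
(.ord (.spl (nat_lit 7) (nat_lit 460)
(.spl (nat_lit 7) (nat_lit 380)
(.leaf p006_l23)
(.spl (nat_lit 7) (nat_lit 420)
(.spl (nat_lit 8) (nat_lit 400)
(.leaf p006_l24)
(.leaf p006_l25))
(.spl (nat_lit 8) (nat_lit 400)
(.leaf p006_l26)
(.leaf p006_l27))))
(.leaf p006_l28)))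
(.spl (nat_lit 1) (nat_lit 229)
(.spl (nat_lit 7) (nat_lit 460)
(.spl (nat_lit 7) (nat_lit 380)
(.leaf p006_l29)
(.spl (nat_lit 7) (nat_lit 420)
(.spl (nat_lit 8) (nat_lit 400)
(.leaf p006_l30)
(.leaf p006_l31))
(.spl (nat_lit 8) (nat_lit 400)
(.leaf p006_l32)
(.leaf p006_l33))))
(.leaf p006_l34))
(.spl (nat_lit 8) (nat_lit 400)
(.leaf p006_l35)
(.leaf p006_l36))))))) (by decide +kernel)
noncomputable def p006_l37 : Lf2 := ⟨nat_lit 0, nat_lit 5, [nat_lit 4, nat_lit 5, nat_lit 5, nat_lit 20], true, nat_lit 0, nat_lit 0, nat_lit 0, nat_lit 0, ⟨nat_lit 0, nat_lit 0, nat_lit 1000, nat_lit 5, nat_lit 53, nat_lit 0, nat_lit 0, nat_lit 0, nat_lit 0, nat_lit 215, nat_lit 26667, nat_lit 255, nat_lit 65823124, nat_lit 0, nat_lit 0, nat_lit 441961, false, false⟩,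
 nat_lit 0, nat_lit 8415, nat_lit 0, nat_lit 0, nat_lit 4131, nat_lit 0, nat_lit 344, nat_lit 0, nat_lit 0, nat_lit 0, nat_lit 0, nat_lit 0, nat_lit 0, nat_lit 0, nat_lit 115, nat_lit 1000000, nat_lit 0, nat_lit 0, [(nat_lit 3, [(nat_lit 6, nat_lit 1000)])],
 ⟨p006_k0, nat_lit 0, nat_lit 0, nat_lit 0, nat_lit 0, nat_lit 65884, [nat_lit 3007028572, nat_lit 2237600001, nat_lit 23600000], [], [nat_lit 12548263746, nat_lit 12691562869, nat_lit 12343649821, nat_lit 12489477659], nat_lit 1271250, nat_lit 1271250, nat_lit 65850, nat_lit 88400, nat_lit 0, nat_lit 0, [nat_lit 1271250, nat_lit 1271250, nat_lit 1271250], [nat_lit 103, nat_lit 40, nat_lit 20, nat_lit 40]⟩, C1.Rw.none,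
 ⟨nat_lit 6557, nat_lit 6615, ⟨.ofNat (nat_lit 126489), .ofNat (nat_lit 135006), .ofNat (nat_lit 129702), .ofNat (nat_lit 138219), .ofNat (nat_lit 129239), .ofNat (nat_lit 137697), .ofNat (nat_lit 132450), .ofNat (nat_lit 140908)⟩, ⟨.ofNat (nat_lit 0), .ofNat (nat_lit 0), .ofNat (nat_lit 0), .ofNat (nat_lit 0), .ofNat (nat_lit 0), .ofNat (nat_lit 0), .ofNat (nat_lit 0), .ofNat (nat_lit 0)⟩⟩, []⟩
noncomputable def p006_l38 : Lf2 := ⟨nat_lit 0, nat_lit 5, [nat_lit 4, nat_lit 5, nat_lit 5, nat_lit 20], true, nat_lit 0, nat_lit 0, nat_lit 0, nat_lit 0, ⟨nat_lit 0, nat_lit 0, nat_lit 1000, nat_lit 5, nat_lit 54, nat_lit 0, nat_lit 0, nat_lit 0, nat_lit 0, nat_lit 215, nat_lit 28017, nat_lit 256, nat_lit 65783707, nat_lit 0, nat_lit 0, nat_lit 453753, false, false⟩,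
 nat_lit 0, nat_lit 8257, nat_lit 0, nat_lit 0, nat_lit 4116, nat_lit 0, nat_lit 338, nat_lit 0, nat_lit 0, nat_lit 0, nat_lit 0, nat_lit 0, nat_lit 0, nat_lit 0, nat_lit 115, nat_lit 1000000, nat_lit 0, nat_lit 0, [(nat_lit 3, [(nat_lit 6, nat_lit 1000)])],
 ⟨p006_k4, nat_lit 0, nat_lit 0, nat_lit 0, nat_lit 0, nat_lit 73404, [nat_lit 3007028572, nat_lit 2237600001, nat_lit 23600000], [], [nat_lit 12679592828, nat_lit 12775003755, nat_lit 12475884598, nat_lit 12573542454], nat_lit 1271250, nat_lit 1271250, nat_lit 65850, nat_lit 88400, nat_lit 0, nat_lit 0, [nat_lit 1271250, nat_lit 1271250, nat_lit 1271250], [nat_lit 103, nat_lit 40, nat_lit 20, nat_lit 40]⟩, C1.Rw.none,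
 ⟨nat_lit 6519, nat_lit 6558, ⟨.ofNat (nat_lit 129239), .ofNat (nat_lit 137697), .ofNat (nat_lit 132450), .ofNat (nat_lit 140908), .ofNat (nat_lit 131063), .ofNat (nat_lit 139482), .ofNat (nat_lit 134272), .ofNat (nat_lit 142691)⟩, ⟨.ofNat (nat_lit 0), .ofNat (nat_lit 0), .ofNat (nat_lit 0), .ofNat (nat_lit 0), .ofNat (nat_lit 0), .ofNat (nat_lit 0), .ofNat (nat_lit 0), .ofNat (nat_lit 0)⟩⟩, []⟩
noncomputable def p006_l39 : Lf2 := ⟨nat_lit 0, nat_lit 5, [nat_lit 4, nat_lit 5, nat_lit 5, nat_lit 20], true, nat_lit 0, nat_lit 0, nat_lit 0, nat_lit 0, ⟨nat_lit 0, nat_lit 0, nat_lit 1000, nat_lit 5, nat_lit 55, nat_lit 0, nat_lit 0, nat_lit 0, nat_lit 0, nat_lit 215, nat_lit 29400, nat_lit 257, nat_lit 65736288, nat_lit 0, nat_lit 0, nat_lit 467810, false, false⟩,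
 nat_lit 0, nat_lit 8459, nat_lit 0, nat_lit 0, nat_lit 4216, nat_lit 0, nat_lit 966, nat_lit 0, nat_lit 0, nat_lit 0, nat_lit 0, nat_lit 0, nat_lit 0, nat_lit 0, nat_lit 47, nat_lit 250000, nat_lit 0, nat_lit 0, [(nat_lit 3, [(nat_lit 4, nat_lit 1000)])],
 ⟨p006_k5, nat_lit 0, nat_lit 0, nat_lit 0, nat_lit 0, nat_lit 81911, [nat_lit 2186000001, nat_lit 1410000000, nat_lit 868400000, nat_lit 18000000], [], [nat_lit 12952542832, nat_lit 13040735769, nat_lit 12771366331, nat_lit 12868980153], nat_lit 1271250, nat_lit 1271250, nat_lit 65850, nat_lit 88400, nat_lit 0, nat_lit 0, [nat_lit 631250, nat_lit 1271250, nat_lit 1271250, nat_lit 1271250], [nat_lit 91, nat_lit 40, nat_lit 20, nat_lit 40]⟩, C1.Rw.none,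
 ⟨nat_lit 6519, nat_lit 6558, ⟨.ofNat (nat_lit 132450), .ofNat (nat_lit 140908), .ofNat (nat_lit 134591), .ofNat (nat_lit 143049), .ofNat (nat_lit 134272), .ofNat (nat_lit 142691), .ofNat (nat_lit 136412), .ofNat (nat_lit 144831)⟩, ⟨.ofNat (nat_lit 0), .ofNat (nat_lit 0), .ofNat (nat_lit 0), .ofNat (nat_lit 0), .ofNat (nat_lit 0), .ofNat (nat_lit 0), .ofNat (nat_lit 0), .ofNat (nat_lit 0)⟩⟩, []⟩
noncomputable def p006_l40 : Lf2 := ⟨nat_lit 0, nat_lit 5, [nat_lit 4, nat_lit 5, nat_lit 5, nat_lit 20], false, nat_lit 0, nat_lit 0, nat_lit 0, nat_lit 0, ⟨nat_lit 0, nat_lit 0, nat_lit 1000, nat_lit 5, nat_lit 55, nat_lit 0, nat_lit 0, nat_lit 0, nat_lit 0, nat_lit 215, nat_lit 29400, nat_lit 257, nat_lit 65736288, nat_lit 0, nat_lit 0, nat_lit 467810, false, false⟩,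
 nat_lit 0, nat_lit 10105, nat_lit 0, nat_lit 0, nat_lit 5037, nat_lit 100000, nat_lit 114, nat_lit 0, nat_lit 0, nat_lit 30860, nat_lit 5635, nat_lit 0, nat_lit 0, nat_lit 0, nat_lit 115, nat_lit 1000000, nat_lit 0, nat_lit 0, [(nat_lit 3, [(nat_lit 6, nat_lit 1000)])],
 ⟨p006_k8, nat_lit 0, nat_lit 0, nat_lit 0, nat_lit 0, nat_lit 81911, [nat_lit 3341142858, nat_lit 1499600000, nat_lit 23600000], [], [nat_lit 14009792933, nat_lit 14087634998, nat_lit 13799432469, nat_lit 13879814148], nat_lit 1271250, nat_lit 1271250, nat_lit 65850, nat_lit 88400, nat_lit 0, nat_lit 0, [nat_lit 1412500, nat_lit 1271250, nat_lit 1271250], [nat_lit 25, nat_lit 40, nat_lit 20, nat_lit 80]⟩, ⟨p006_k8, nat_lit 0, nat_lit 0, nat_lit 0, nat_lit 0, nat_lit 0, [nat_lit 112700000000, nat_lit 135240000000, nat_lit 157780000000], [], [nat_lit 149028193001, nat_lit 149781385000, nat_lit 142978289000, nat_lit 143735375001],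 nat_lit 0, nat_lit 0, nat_lit 0, nat_lit 0, nat_lit 0, nat_lit 0, [], [nat_lit 25, nat_lit 40, nat_lit 20, nat_lit 80]⟩,
 ⟨nat_lit 6519, nat_lit 6558, ⟨.ofNat (nat_lit 132450), .ofNat (nat_lit 140908), .ofNat (nat_lit 134591), .ofNat (nat_lit 143049), .ofNat (nat_lit 134272), .ofNat (nat_lit 142691), .ofNat (nat_lit 136412), .ofNat (nat_lit 144831)⟩, ⟨.ofNat (nat_lit 0), .ofNat (nat_lit 0), .ofNat (nat_lit 0), .ofNat (nat_lit 0), .ofNat (nat_lit 0), .ofNat (nat_lit 0), .ofNat (nat_lit 0), .ofNat (nat_lit 0)⟩⟩, []⟩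
noncomputable def p006_l41 : Lf2 := ⟨nat_lit 0, nat_lit 5, [nat_lit 4, nat_lit 5, nat_lit 5, nat_lit 20], true, nat_lit 0, nat_lit 0, nat_lit 0, nat_lit 0, ⟨nat_lit 0, nat_lit 0, nat_lit 1000, nat_lit 5, nat_lit 55, nat_lit 0, nat_lit 0, nat_lit 0, nat_lit 0, nat_lit 215, nat_lit 28017, nat_lit 256, nat_lit 65764840, nat_lit 0, nat_lit 0, nat_lit 459362, false, false⟩,
 nat_lit 0, nat_lit 100000, nat_lit 0, nat_lit 0, nat_lit 49854, nat_lit 0, nat_lit 11871, nat_lit 2334, nat_lit 0, nat_lit 0, nat_lit 0, nat_lit 0, nat_lit 0, nat_lit 0, nat_lit 0, nat_lit 1000000, nat_lit 0, nat_lit 0, [(nat_lit 3, [(nat_lit 6, nat_lit 1000)])],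
 ⟨p006_k8, nat_lit 0, nat_lit 0, nat_lit 0, nat_lit 0, nat_lit 81911, [nat_lit 47721142858, nat_lit 54755600001, nat_lit 62155600000], [], [nat_lit 81214634377, nat_lit 81516055321, nat_lit 78721257413, nat_lit 79017302916], nat_lit 1271250, nat_lit 1271250, nat_lit 65850, nat_lit 88400, nat_lit 0, nat_lit 0, [nat_lit 1412500, nat_lit 1271250, nat_lit 1271250], [nat_lit 25, nat_lit 40, nat_lit 20, nat_lit 80]⟩, C1.Rw.none,
 ⟨nat_lit 6519, nat_lit 6558, ⟨.ofNat (nat_lit 129239), .ofNat (nat_lit 137697), .ofNat (nat_lit 134591), .ofNat (nat_lit 143049), .ofNat (nat_lit 131063), .ofNat (nat_lit 139482), .ofNat (nat_lit 136412), .ofNat (nat_lit 144831)⟩, ⟨.ofNat (nat_lit 0), .ofNat (nat_lit 0), .ofNat (nat_lit 0), .ofNat (nat_lit 0), .ofNat (nat_lit 0), .ofNat (nat_lit 0), .ofNat (nat_lit 0), .ofNat (nat_lit 0)⟩⟩, []⟩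
noncomputable def b_NL_550_550_0_20 : St := ⟨false, nat_lit 1, nat_lit 0, nat_lit 1, nat_lit 20, nat_lit 225, nat_lit 230, nat_lit 225, nat_lit 230, nat_lit 12, nat_lit 16, nat_lit 0, nat_lit 0, nat_lit 0, nat_lit 0, nat_lit 0, nat_lit 0, nat_lit 20, nat_lit 24, nat_lit 300, nat_lit 600, nat_lit 0, nat_lit 800⟩
theorem d_NL_550_550_0_20 (h : EB TB.env) : Dead b_NL_550_550_0_20 := chkB_sound0 h (T :=
(.spl (nat_lit 0) (nat_lit 228)
(.ord (.leaf p006_l37))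
(.spl (nat_lit 7) (nat_lit 460)
(.spl (nat_lit 1) (nat_lit 228)
(.leaf p006_l38)
(.spl (nat_lit 8) (nat_lit 400)
(.leaf p006_l39)
(.leaf p006_l40)))
(.leaf p006_l41)))) (by decide +kernel)
noncomputable def p006_l42 : Lf2 := ⟨nat_lit 0, nat_lit 5, [nat_lit 4, nat_lit 5, nat_lit 5, nat_lit 20], true, nat_lit 0, nat_lit 0, nat_lit 0, nat_lit 0, ⟨nat_lit 0, nat_lit 0, nat_lit 1000, nat_lit 5, nat_lit 63, nat_lit 0, nat_lit 0, nat_lit 0, nat_lit 0, nat_lit 215, nat_lit 36817, nat_lit 262, nat_lit 65400821, nat_lit 0, nat_lit 0, nat_lit 563633, false, false⟩,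
 nat_lit 0, nat_lit 8558, nat_lit 0, nat_lit 0, nat_lit 4310, nat_lit 0, nat_lit 809, nat_lit 0, nat_lit 0, nat_lit 0, nat_lit 0, nat_lit 0, nat_lit 0, nat_lit 0, nat_lit 46, nat_lit 265000, nat_lit 0, nat_lit 0, [(nat_lit 3, [(nat_lit 4, nat_lit 900), (nat_lit 5, nat_lit 100)])],
 ⟨p006_k9, nat_lit 0, nat_lit 0, nat_lit 0, nat_lit 0, nat_lit 130439, [nat_lit 2097560000, nat_lit 1399560000, nat_lit 840720000, nat_lit 127520000], [], [nat_lit 13409576664, nat_lit 13882299379, nat_lit 11986371550, nat_lit 12472425390], nat_lit 1271250, nat_lit 1271250, nat_lit 21650, nat_lit 230001, nat_lit 0, nat_lit 0, [nat_lit 631250, nat_lit 1271250, nat_lit 1271250, nat_lit 1271250], [nat_lit 117, nat_lit 40, nat_lit 20, nat_lit 40]⟩, C1.Rw.none,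
 ⟨nat_lit 6324, nat_lit 6520, ⟨.ofNat (nat_lit 108876), .ofNat (nat_lit 184645), .ofNat (nat_lit 119575), .ofNat (nat_lit 195344), .ofNat (nat_lit 118272), .ofNat (nat_lit 192309), .ofNat (nat_lit 128956), .ofNat (nat_lit 202993)⟩, ⟨.ofNat (nat_lit 0), .ofNat (nat_lit 0), .ofNat (nat_lit 0), .ofNat (nat_lit 0), .ofNat (nat_lit 0), .ofNat (nat_lit 0), .ofNat (nat_lit 0), .ofNat (nat_lit 0)⟩⟩, [⟨nat_lit 0, nat_lit 100, nat_lit 99, nat_lit 30, nat_lit 276270890⟩, ⟨nat_lit 0, nat_lit 100, nat_lit 99, nat_lit 35, nat_lit 28243385⟩]⟩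
noncomputable def p006_l43 : Lf2 := ⟨nat_lit 0, nat_lit 5, [nat_lit 4, nat_lit 5, nat_lit 5, nat_lit 20], true, nat_lit 0, nat_lit 0, nat_lit 0, nat_lit 0, ⟨nat_lit 0, nat_lit 0, nat_lit 1000, nat_lit 5, nat_lit 66, nat_lit 0, nat_lit 0, nat_lit 0, nat_lit 0, nat_lit 215, nat_lit 40017, nat_lit 264, nat_lit 65233789, nat_lit 0, nat_lit 0, nat_lit 609253, false, false⟩,
 nat_lit 0, nat_lit 8841, nat_lit 0, nat_lit 0, nat_lit 4452, nat_lit 0, nat_lit 861, nat_lit 0, nat_lit 0, nat_lit 0, nat_lit 0, nat_lit 0, nat_lit 0, nat_lit 23524131546387, nat_lit 45, nat_lit 250000, nat_lit 0, nat_lit 0, [(nat_lit 3, [(nat_lit 4, nat_lit 1000)])],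
 ⟨p006_k9, nat_lit 0, nat_lit 0, nat_lit 0, nat_lit 0, nat_lit 111106, [nat_lit 2166000001, nat_lit 1374000000, nat_lit 824400000, nat_lit 122000000], [], [nat_lit 13042995279, nat_lit 13186448955, nat_lit 11780518111, nat_lit 11937445351], nat_lit 1271250, nat_lit 1271250, nat_lit 43600, nat_lit 230001, nat_lit 0, nat_lit 0, [nat_lit 631250, nat_lit 1271250, nat_lit 1271250, nat_lit 1271250], [nat_lit 117, nat_lit 40, nat_lit 20, nat_lit 40]⟩, C1.Rw.none,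
 ⟨nat_lit 6461, nat_lit 6520, ⟨.ofNat (nat_lit 127994), .ofNat (nat_lit 195344), .ofNat (nat_lit 131203), .ofNat (nat_lit 198554), .ofNat (nat_lit 130770), .ofNat (nat_lit 197655), .ofNat (nat_lit 133978), .ofNat (nat_lit 200863)⟩, ⟨.ofNat (nat_lit 0), .ofNat (nat_lit 0), .ofNat (nat_lit 0), .ofNat (nat_lit 0), .ofNat (nat_lit 0), .ofNat (nat_lit 0), .ofNat (nat_lit 0), .ofNat (nat_lit 0)⟩⟩, [⟨nat_lit 0, nat_lit 100, nat_lit 100, nat_lit 33, nat_lit 305770598⟩]⟩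
noncomputable def p006_l44 : Lf2 := ⟨nat_lit 0, nat_lit 5, [nat_lit 4, nat_lit 5, nat_lit 5, nat_lit 20], true, nat_lit 0, nat_lit 0, nat_lit 0, nat_lit 0, ⟨nat_lit 0, nat_lit 0, nat_lit 1000, nat_lit 5, nat_lit 67, nat_lit 0, nat_lit 0, nat_lit 0, nat_lit 0, nat_lit 215, nat_lit 41667, nat_lit 265, nat_lit 65166665, nat_lit 0, nat_lit 0, nat_lit 627238, false, false⟩,
 nat_lit 0, nat_lit 8488, nat_lit 0, nat_lit 0, nat_lit 4340, nat_lit 0, nat_lit 829, nat_lit 0, nat_lit 0, nat_lit 0, nat_lit 0, nat_lit 0, nat_lit 0, nat_lit 22596486175885, nat_lit 46, nat_lit 263950, nat_lit 0, nat_lit 0, [(nat_lit 3, [(nat_lit 4, nat_lit 907), (nat_lit 5, nat_lit 93)])],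
 ⟨p006_k10, nat_lit 0, nat_lit 0, nat_lit 0, nat_lit 0, nat_lit 126928, [nat_lit 2103050801, nat_lit 1399030800, nat_lit 841117600, nat_lit 128953600], [], [nat_lit 13086465517, nat_lit 13181322205, nat_lit 11877423629, nat_lit 11975042290], nat_lit 1271250, nat_lit 1271250, nat_lit 43600, nat_lit 230001, nat_lit 0, nat_lit 0, [nat_lit 631250, nat_lit 1271250, nat_lit 1271250, nat_lit 1271250], [nat_lit 117, nat_lit 40, nat_lit 20, nat_lit 40]⟩, C1.Rw.none,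
 ⟨nat_lit 6422, nat_lit 6462, ⟨.ofNat (nat_lit 130770), .ofNat (nat_lit 197655), .ofNat (nat_lit 136117), .ofNat (nat_lit 203002), .ofNat (nat_lit 132611), .ofNat (nat_lit 199188), .ofNat (nat_lit 137956), .ofNat (nat_lit 204533)⟩, ⟨.ofNat (nat_lit 0), .ofNat (nat_lit 0), .ofNat (nat_lit 0), .ofNat (nat_lit 0), .ofNat (nat_lit 0), .ofNat (nat_lit 0), .ofNat (nat_lit 0), .ofNat (nat_lit 0)⟩⟩, [⟨nat_lit 0, nat_lit 100, nat_lit 100, nat_lit 35, nat_lit 298906540⟩]⟩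
noncomputable def p006_l45 : Lf2 := ⟨nat_lit 0, nat_lit 5, [nat_lit 4, nat_lit 5, nat_lit 5, nat_lit 20], false, nat_lit 0, nat_lit 0, nat_lit 0, nat_lit 0, ⟨nat_lit 852, nat_lit 0, nat_lit 148, nat_lit 5, nat_lit 69, nat_lit 0, nat_lit 0, nat_lit 0, nat_lit 0, nat_lit 215, nat_lit 45067, nat_lit 267, nat_lit 65045651, nat_lit 0, nat_lit 0, nat_lit 659189, false, false⟩,
 nat_lit 0, nat_lit 15638, nat_lit 0, nat_lit 0, nat_lit 8076, nat_lit 3617, nat_lit 2777, nat_lit 0, nat_lit 0, nat_lit 0, nat_lit 0, nat_lit 0, nat_lit 0, nat_lit 0, nat_lit 0, nat_lit 29355, nat_lit 0, nat_lit 0, [(nat_lit 3, [(nat_lit 3, nat_lit 139), (nat_lit 4, nat_lit 9)])],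
 ⟨p006_k11, nat_lit 0, nat_lit 0, nat_lit 0, nat_lit 0, nat_lit 170176, [nat_lit 4657564000, nat_lit 4724666800, nat_lit 6018636400, nat_lit 7412422400], [], [nat_lit 20920067426, nat_lit 21274212970, nat_lit 18300640312, nat_lit 18624380144], nat_lit 1271250, nat_lit 1271250, nat_lit 43600, nat_lit 230001, nat_lit 0, nat_lit 0, [nat_lit 631250, nat_lit 1271250, nat_lit 1271250, nat_lit 1271250], [nat_lit 117, nat_lit 40, nat_lit 20, nat_lit 40]⟩, ⟨p006_k9, nat_lit 0, nat_lit 0, nat_lit 0, nat_lit 0, nat_lit 0, [nat_lit 2247150000, nat_lit 4642974000, nat_lit 6040254000, nat_lit 7570446000], [], [nat_lit 20893943041, nat_lit 21410924918, nat_lit 19839420196, nat_lit 20329557964], nat_lit 0, nat_lit 0, nat_lit 0, nat_lit 0, nat_lit 0, nat_lit 0, [], [nat_lit 117, nat_lit 40, nat_lit 20, nat_lit 40]⟩,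
 ⟨nat_lit 6324, nat_lit 6423, ⟨.ofNat (nat_lit 132611), .ofNat (nat_lit 199188), .ofNat (nat_lit 143302), .ofNat (nat_lit 209879), .ofNat (nat_lit 137182), .ofNat (nat_lit 202993), .ofNat (nat_lit 147866), .ofNat (nat_lit 213677)⟩, ⟨.ofNat (nat_lit 0), .ofNat (nat_lit 0), .ofNat (nat_lit 0), .ofNat (nat_lit 0), .ofNat (nat_lit 0), .ofNat (nat_lit 0), .ofNat (nat_lit 0), .ofNat (nat_lit 0)⟩⟩, [⟨nat_lit 0, nat_lit 100, nat_lit 100, nat_lit 36, nat_lit 1279163342⟩]⟩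
noncomputable def p006_l46 : Lf2 := ⟨nat_lit 0, nat_lit 5, [nat_lit 4, nat_lit 5, nat_lit 5, nat_lit 20], true, nat_lit 0, nat_lit 0, nat_lit 0, nat_lit 0, ⟨nat_lit 0, nat_lit 0, nat_lit 1000, nat_lit 5, nat_lit 65, nat_lit 0, nat_lit 0, nat_lit 0, nat_lit 0, nat_lit 215, nat_lit 40017, nat_lit 264, nat_lit 65292447, nat_lit 0, nat_lit 0, nat_lit 593377, false, false⟩,
 nat_lit 0, nat_lit 100000, nat_lit 0, nat_lit 0, nat_lit 50364, nat_lit 0, nat_lit 12968, nat_lit 2378, nat_lit 0, nat_lit 0, nat_lit 0, nat_lit 0, nat_lit 0, nat_lit 175100109722165, nat_lit 0, nat_lit 1000000, nat_lit 0, nat_lit 0, [(nat_lit 3, [(nat_lit 6, nat_lit 1000)])],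
 ⟨p006_k12, nat_lit 0, nat_lit 0, nat_lit 351, nat_lit 0, nat_lit 174945, [nat_lit 48601142858, nat_lit 63387600000], [], [nat_lit 103300671984, nat_lit 90403960427, nat_lit 100123771974, nat_lit 87392659326], nat_lit 1271250, nat_lit 1271250, nat_lit 21650, nat_lit 230001, nat_lit 0, nat_lit 0, [nat_lit 1412500, nat_lit 1271250], [nat_lit 51, nat_lit 40, nat_lit 20, nat_lit 80, nat_lit 1, nat_lit 289, nat_lit 75, nat_lit 9]⟩, C1.Rw.none,
 ⟨nat_lit 6324, nat_lit 6520, ⟨.ofNat (nat_lit 108876), .ofNat (nat_lit 184645), .ofNat (nat_lit 130274), .ofNat (nat_lit 206043), .ofNat (nat_lit 118272), .ofNat (nat_lit 192309), .ofNat (nat_lit 139640), .ofNat (nat_lit 213677)⟩, ⟨.ofNat (nat_lit 0), .ofNat (nat_lit 0), .ofNat (nat_lit 0), .ofNat (nat_lit 0), .ofNat (nat_lit 0), .ofNat (nat_lit 0), .ofNat (nat_lit 0), .ofNat (nat_lit 0)⟩⟩, [⟨nat_lit 0, nat_lit 100, nat_lit 100, nat_lit 40, nat_lit 525013843⟩]⟩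
noncomputable def p006_l47 : Lf2 := ⟨nat_lit 3, nat_lit 5, [nat_lit 4, nat_lit 5, nat_lit 5, nat_lit 20], false, nat_lit 0, nat_lit 0, nat_lit 0, nat_lit 0, zbN0,
 nat_lit 0, nat_lit 0, nat_lit 0, nat_lit 0, nat_lit 0, nat_lit 0, nat_lit 0, nat_lit 0, nat_lit 0, nat_lit 0, nat_lit 0, nat_lit 0, nat_lit 0, nat_lit 0, nat_lit 0, nat_lit 0, nat_lit 0, nat_lit 0, [],
 C1.Rw.none, ⟨p006_k13, nat_lit 0, nat_lit 0, nat_lit 289, nat_lit 0, nat_lit 0, [], [], [], nat_lit 0, nat_lit 0, nat_lit 0, nat_lit 0, nat_lit 0, nat_lit 0, [], [nat_lit 51, nat_lit 40, nat_lit 20, nat_lit 80, nat_lit 1, nat_lit 289, nat_lit 75, nat_lit 9]⟩,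
 zbF0, []⟩
noncomputable def p006_l48 : Lf2 := ⟨nat_lit 1, nat_lit 5, [nat_lit 4, nat_lit 5, nat_lit 5, nat_lit 20], false, nat_lit 0, nat_lit 0, nat_lit 0, nat_lit 0, zbN0,
 nat_lit 0, nat_lit 0, nat_lit 0, nat_lit 0, nat_lit 0, nat_lit 0, nat_lit 0, nat_lit 0, nat_lit 0, nat_lit 0, nat_lit 0, nat_lit 0, nat_lit 0, nat_lit 0, nat_lit 0, nat_lit 0, nat_lit 0, nat_lit 0, [],
 C1.Rw.none, C1.Rw.none,
 zbF0, []⟩
noncomputable def p006_l49 : Lf2 := ⟨nat_lit 1, nat_lit 5, [nat_lit 4, nat_lit 5, nat_lit 5, nat_lit 20], false, nat_lit 0, nat_lit 0, nat_lit 0, nat_lit 0, zbN0,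
 nat_lit 0, nat_lit 0, nat_lit 0, nat_lit 0, nat_lit 0, nat_lit 0, nat_lit 0, nat_lit 0, nat_lit 0, nat_lit 0, nat_lit 0, nat_lit 0, nat_lit 0, nat_lit 0, nat_lit 0, nat_lit 0, nat_lit 0, nat_lit 0, [],
 C1.Rw.none, C1.Rw.none,
 zbF0, []⟩
noncomputable def p006_l50 : Lf2 := ⟨nat_lit 0, nat_lit 5, [nat_lit 4, nat_lit 5, nat_lit 5, nat_lit 20], true, nat_lit 0, nat_lit 0, nat_lit 0, nat_lit 0, ⟨nat_lit 0, nat_lit 0, nat_lit 1000, nat_lit 5, nat_lit 57, nat_lit 0, nat_lit 0, nat_lit 0, nat_lit 0, nat_lit 215, nat_lit 30817, nat_lit 258, nat_lit 65681096, nat_lit 0, nat_lit 0, nat_lit 484000, false, false⟩,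
 nat_lit 0, nat_lit 10174, nat_lit 0, nat_lit 100000, nat_lit 5254, nat_lit 0, nat_lit 0, nat_lit 0, nat_lit 0, nat_lit 0, nat_lit 0, nat_lit 0, nat_lit 0, nat_lit 0, nat_lit 60, nat_lit 400000, nat_lit 0, nat_lit 0, [(nat_lit 3, [(nat_lit 5, nat_lit 1000)])],
 ⟨p006_k14, nat_lit 0, nat_lit 0, nat_lit 294, nat_lit 0, nat_lit 21870, [nat_lit 2770400000, nat_lit 702400001, nat_lit 2000000], [], [nat_lit 16740807183, nat_lit 17051061439, nat_lit 16392234438, nat_lit 16702010690], nat_lit 1271250, nat_lit 1271250, nat_lit 43600, nat_lit 65850, nat_lit 0, nat_lit 0, [nat_lit 1412500, nat_lit 1271250, nat_lit 1271250], [nat_lit 25, nat_lit 40, nat_lit 20, nat_lit 80, nat_lit 17, nat_lit 289, nat_lit 75, nat_lit 9]⟩, C1.Rw.none,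
 ⟨nat_lit 6324, nat_lit 6423, ⟨.ofNat (nat_lit 132611), .ofNat (nat_lit 140933), .ofNat (nat_lit 137956), .ofNat (nat_lit 146279), .ofNat (nat_lit 137182), .ofNat (nat_lit 145408), .ofNat (nat_lit 142524), .ofNat (nat_lit 150750)⟩, ⟨.ofNat (nat_lit 0), .ofNat (nat_lit 0), .ofNat (nat_lit 0), .ofNat (nat_lit 0), .ofNat (nat_lit 0), .ofNat (nat_lit 0), .ofNat (nat_lit 0), .ofNat (nat_lit 0)⟩⟩, [⟨nat_lit 0, nat_lit 100, nat_lit 100, nat_lit 35, nat_lit 10000000000⟩, ⟨nat_lit 0, nat_lit 100, nat_lit 100, nat_lit 37, nat_lit 2905100521⟩]⟩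
noncomputable def p006_l51 : Lf2 := ⟨nat_lit 1, nat_lit 5, [nat_lit 4, nat_lit 5, nat_lit 5, nat_lit 20], false, nat_lit 0, nat_lit 0, nat_lit 0, nat_lit 0, zbN0,
 nat_lit 0, nat_lit 0, nat_lit 0, nat_lit 0, nat_lit 0, nat_lit 0, nat_lit 0, nat_lit 0, nat_lit 0, nat_lit 0, nat_lit 0, nat_lit 0, nat_lit 0, nat_lit 0, nat_lit 0, nat_lit 0, nat_lit 0, nat_lit 0, [],
 C1.Rw.none, C1.Rw.none,
 zbF0, []⟩
noncomputable def p006_l52 : Lf2 := ⟨nat_lit 1, nat_lit 5, [nat_lit 4, nat_lit 5, nat_lit 5, nat_lit 20], false, nat_lit 0, nat_lit 0, nat_lit 0, nat_lit 0, zbN0,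
 nat_lit 0, nat_lit 0, nat_lit 0, nat_lit 0, nat_lit 0, nat_lit 0, nat_lit 0, nat_lit 0, nat_lit 0, nat_lit 0, nat_lit 0, nat_lit 0, nat_lit 0, nat_lit 0, nat_lit 0, nat_lit 0, nat_lit 0, nat_lit 0, [],
 C1.Rw.none, C1.Rw.none,
 zbF0, []⟩
noncomputable def p006_l53 : Lf2 := ⟨nat_lit 0, nat_lit 5, [nat_lit 4, nat_lit 5, nat_lit 5, nat_lit 20], false, nat_lit 0, nat_lit 0, nat_lit 0, nat_lit 0, ⟨nat_lit 1000, nat_lit 0, nat_lit 0, nat_lit 0, nat_lit 0, nat_lit 0, nat_lit 0, nat_lit 0, nat_lit 0, nat_lit 0, nat_lit 0, nat_lit 0, nat_lit 0, nat_lit 0, nat_lit 0, nat_lit 0, false, false⟩,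
 nat_lit 0, nat_lit 17765, nat_lit 0, nat_lit 7346, nat_lit 9312, nat_lit 4295, nat_lit 0, nat_lit 0, nat_lit 0, nat_lit 0, nat_lit 0, nat_lit 0, nat_lit 0, nat_lit 0, nat_lit 0, nat_lit 0, nat_lit 0, nat_lit 0, [],
 ⟨p006_k15, nat_lit 0, nat_lit 0, nat_lit 281, nat_lit 0, nat_lit 6688, [nat_lit 6250000000, nat_lit 7968000001, nat_lit 9842000000], [], [nat_lit 31385049056, nat_lit 31450213808, nat_lit 30868217426, nat_lit 30933422569], nat_lit 1271250, nat_lit 1271250, nat_lit 65850, nat_lit 88400, nat_lit 0, nat_lit 0, [nat_lit 1412500, nat_lit 1271250, nat_lit 1271250], [nat_lit 25, nat_lit 40, nat_lit 20, nat_lit 80, nat_lit 17, nat_lit 289, nat_lit 75, nat_lit 9]⟩, ⟨p006_k16, nat_lit 0, nat_lit 0, nat_lit 0, nat_lit 0, nat_lit 0, [nat_lit 2637500000, nat_lit 5449500000, nat_lit 7089500000, nat_lit 8885500000], [], [nat_lit 24338734410, nat_lit 24399069920, nat_lit 24116529344, nat_lit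 24174809238], nat_lit 0, nat_lit 0, nat_lit 0, nat_lit 0, nat_lit 0, nat_lit 0, [], [nat_lit 117, nat_lit 40, nat_lit 20, nat_lit 40]⟩,
 zbF0, [⟨nat_lit 0, nat_lit 100, nat_lit 99, nat_lit 35, nat_lit 1767984075⟩]⟩
noncomputable def p006_l54 : Lf2 := ⟨nat_lit 3, nat_lit 5, [nat_lit 4, nat_lit 5, nat_lit 5, nat_lit 20], false, nat_lit 0, nat_lit 0, nat_lit 0, nat_lit 0, zbN0,
 nat_lit 0, nat_lit 0, nat_lit 0, nat_lit 0, nat_lit 0, nat_lit 0, nat_lit 0, nat_lit 0, nat_lit 0, nat_lit 0, nat_lit 0, nat_lit 0, nat_lit 0, nat_lit 0, nat_lit 0, nat_lit 0, nat_lit 0, nat_lit 0, [],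
 C1.Rw.none, ⟨p006_k17, nat_lit 0, nat_lit 0, nat_lit 209, nat_lit 0, nat_lit 0, [], [], [], nat_lit 0, nat_lit 0, nat_lit 0, nat_lit 0, nat_lit 0, nat_lit 0, [], [nat_lit 51, nat_lit 40, nat_lit 20, nat_lit 80, nat_lit 1, nat_lit 289, nat_lit 75, nat_lit 9]⟩,
 zbF0, []⟩
noncomputable def p006_l55 : Lf2 := ⟨nat_lit 0, nat_lit 5, [nat_lit 4, nat_lit 5, nat_lit 5, nat_lit 20], true, nat_lit 0, nat_lit 0, nat_lit 0, nat_lit 0, ⟨nat_lit 0, nat_lit 0, nat_lit 1000, nat_lit 5, nat_lit 60, nat_lit 0, nat_lit 0, nat_lit 0, nat_lit 0, nat_lit 215, nat_lit 33750, nat_lit 260, nat_lit 65533070, nat_lit 0, nat_lit 0, nat_lit 526571, false, false⟩,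
 nat_lit 0, nat_lit 9886, nat_lit 0, nat_lit 0, nat_lit 5208, nat_lit 0, nat_lit 0, nat_lit 0, nat_lit 0, nat_lit 0, nat_lit 0, nat_lit 0, nat_lit 0, nat_lit 0, nat_lit 60, nat_lit 400000, nat_lit 0, nat_lit 0, [(nat_lit 3, [(nat_lit 5, nat_lit 1000)])],
 ⟨p006_k18, nat_lit 0, nat_lit 0, nat_lit 281, nat_lit 0, nat_lit 6934, [nat_lit 2770400000, nat_lit 702400001, nat_lit 2000000], [], [nat_lit 16607592626, nat_lit 16664478260, nat_lit 16338731906, nat_lit 16388605408], nat_lit 1271250, nat_lit 1271250, nat_lit 65850, nat_lit 88400, nat_lit 0, nat_lit 0, [nat_lit 1412500, nat_lit 1271250, nat_lit 1271250], [nat_lit 25, nat_lit 40, nat_lit 20, nat_lit 80, nat_lit 17, nat_lit 289, nat_lit 75, nat_lit 9]⟩, C1.Rw.none,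
 ⟨nat_lit 6324, nat_lit 6345, ⟨.ofNat (nat_lit 144517), .ofNat (nat_lit 152762), .ofNat (nat_lit 145585), .ofNat (nat_lit 153831), .ofNat (nat_lit 145408), .ofNat (nat_lit 153635), .ofNat (nat_lit 146477), .ofNat (nat_lit 154703)⟩, ⟨.ofNat (nat_lit 0), .ofNat (nat_lit 0), .ofNat (nat_lit 0), .ofNat (nat_lit 0), .ofNat (nat_lit 0), .ofNat (nat_lit 0), .ofNat (nat_lit 0), .ofNat (nat_lit 0)⟩⟩, [⟨nat_lit 0, nat_lit 100, nat_lit 99, nat_lit 35, nat_lit 447779717⟩]⟩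
noncomputable def p006_l56 : Lf2 := ⟨nat_lit 0, nat_lit 5, [nat_lit 4, nat_lit 5, nat_lit 5, nat_lit 20], true, nat_lit 0, nat_lit 0, nat_lit 0, nat_lit 0, ⟨nat_lit 0, nat_lit 0, nat_lit 1000, nat_lit 5, nat_lit 60, nat_lit 0, nat_lit 0, nat_lit 0, nat_lit 0, nat_lit 215, nat_lit 33750, nat_lit 260, nat_lit 65512510, nat_lit 0, nat_lit 0, nat_lit 532391, false, false⟩,
 nat_lit 0, nat_lit 4994, nat_lit 0, nat_lit 0, nat_lit 2630, nat_lit 0, nat_lit 0, nat_lit 0, nat_lit 0, nat_lit 0, nat_lit 0, nat_lit 0, nat_lit 0, nat_lit 0, nat_lit 54, nat_lit 400000, nat_lit 0, nat_lit 0, [(nat_lit 3, [(nat_lit 5, nat_lit 1000)])],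
 ⟨p006_k19, nat_lit 0, nat_lit 0, nat_lit 0, nat_lit 0, nat_lit 10514, [nat_lit 1471600001, nat_lit 1611600000, nat_lit 965600001, nat_lit 151199999], [], [nat_lit 13661088497, nat_lit 13710942575, nat_lit 13543724599, nat_lit 13592474632], nat_lit 1271250, nat_lit 1271250, nat_lit 65850, nat_lit 88400, nat_lit 0, nat_lit 0, [nat_lit 631250, nat_lit 1271250, nat_lit 1271250, nat_lit 1271250], [nat_lit 117, nat_lit 40, nat_lit 20, nat_lit 40]⟩, C1.Rw.none,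
 ⟨nat_lit 6324, nat_lit 6345, ⟨.ofNat (nat_lit 145585), .ofNat (nat_lit 153831), .ofNat (nat_lit 146654), .ofNat (nat_lit 154899), .ofNat (nat_lit 146477), .ofNat (nat_lit 154703), .ofNat (nat_lit 147545), .ofNat (nat_lit 155772)⟩, ⟨.ofNat (nat_lit 0), .ofNat (nat_lit 0), .ofNat (nat_lit 0), .ofNat (nat_lit 0), .ofNat (nat_lit 0), .ofNat (nat_lit 0), .ofNat (nat_lit 0), .ofNat (nat_lit 0)⟩⟩, [⟨nat_lit 0, nat_lit 100, nat_lit 99, nat_lit 35, nat_lit 256543651⟩]⟩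
noncomputable def p006_l57 : Lf2 := ⟨nat_lit 2, nat_lit 5, [nat_lit 4, nat_lit 5, nat_lit 5, nat_lit 20], true, nat_lit 0, nat_lit 0, nat_lit 0, nat_lit 0, zbN0,
 nat_lit 0, nat_lit 0, nat_lit 0, nat_lit 0, nat_lit 0, nat_lit 0, nat_lit 0, nat_lit 0, nat_lit 0, nat_lit 0, nat_lit 0, nat_lit 0, nat_lit 0, nat_lit 0, nat_lit 0, nat_lit 0, nat_lit 0, nat_lit 0, [],
 ⟨p006_k18, nat_lit 0, nat_lit 0, nat_lit 283, nat_lit 0, nat_lit 10514, [], [], [], nat_lit 1271250, nat_lit 1271250, nat_lit 65850, nat_lit 88400, nat_lit 0, nat_lit 0, [nat_lit 1412500, nat_lit 1271250, nat_lit 1271250], [nat_lit 25, nat_lit 40, nat_lit 20, nat_lit 80, nat_lit 17, nat_lit 289, nat_lit 75, nat_lit 9]⟩, C1.Rw.none,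
 zbF0, []⟩
noncomputable def p006_l58 : Lf2 := ⟨nat_lit 3, nat_lit 5, [nat_lit 4, nat_lit 5, nat_lit 5, nat_lit 20], false, nat_lit 0, nat_lit 0, nat_lit 0, nat_lit 0, zbN0,
 nat_lit 0, nat_lit 0, nat_lit 0, nat_lit 0, nat_lit 0, nat_lit 0, nat_lit 0, nat_lit 0, nat_lit 0, nat_lit 0, nat_lit 0, nat_lit 0, nat_lit 0, nat_lit 0, nat_lit 0, nat_lit 0, nat_lit 0, nat_lit 0, [],
 C1.Rw.none, ⟨p006_k17, nat_lit 0, nat_lit 0, nat_lit 209, nat_lit 0, nat_lit 0, [], [], [], nat_lit 0, nat_lit 0, nat_lit 0, nat_lit 0, nat_lit 0, nat_lit 0, [], [nat_lit 51, nat_lit 40, nat_lit 20, nat_lit 80, nat_lit 1, nat_lit 289, nat_lit 75, nat_lit 9]⟩,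
 zbF0, []⟩
noncomputable def p006_l59 : Lf2 := ⟨nat_lit 1, nat_lit 5, [nat_lit 4, nat_lit 5, nat_lit 5, nat_lit 20], false, nat_lit 0, nat_lit 0, nat_lit 0, nat_lit 0, zbN0,
 nat_lit 0, nat_lit 0, nat_lit 0, nat_lit 0, nat_lit 0, nat_lit 0, nat_lit 0, nat_lit 0, nat_lit 0, nat_lit 0, nat_lit 0, nat_lit 0, nat_lit 0, nat_lit 0, nat_lit 0, nat_lit 0, nat_lit 0, nat_lit 0, [],
 C1.Rw.none, C1.Rw.none,
 zbF0, []⟩
noncomputable def p006_l60 : Lf2 := ⟨nat_lit 0, nat_lit 5, [nat_lit 4, nat_lit 5, nat_lit 5, nat_lit 20], false, nat_lit 0, nat_lit 0, nat_lit 0, nat_lit 0, ⟨nat_lit 1000, nat_lit 0, nat_lit 0, nat_lit 0, nat_lit 0, nat_lit 0, nat_lit 0, nat_lit 0, nat_lit 0, nat_lit 0, nat_lit 0, nat_lit 0, nat_lit 0, nat_lit 0, nat_lit 0, nat_lit 0, false, false⟩,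
 nat_lit 0, nat_lit 17884, nat_lit 0, nat_lit 7081, nat_lit 9328, nat_lit 4293, nat_lit 0, nat_lit 0, nat_lit 0, nat_lit 0, nat_lit 0, nat_lit 0, nat_lit 0, nat_lit 0, nat_lit 0, nat_lit 0, nat_lit 0, nat_lit 0, [],
 ⟨p006_k20, nat_lit 0, nat_lit 0, nat_lit 265, nat_lit 0, nat_lit 6485, [nat_lit 6250000000, nat_lit 7968000001, nat_lit 9842000000], [], [nat_lit 31314474646, nat_lit 31379699044, nat_lit 30796635781, nat_lit 30861900697], nat_lit 1271250, nat_lit 1271250, nat_lit 65850, nat_lit 88400, nat_lit 0, nat_lit 0, [nat_lit 1412500, nat_lit 1271250, nat_lit 1271250], [nat_lit 25, nat_lit 40, nat_lit 20, nat_lit 80, nat_lit 17, nat_lit 289, nat_lit 75, nat_lit 9]⟩, ⟨p006_k21, nat_lit 0, nat_lit 0, nat_lit 0, nat_lit 0, nat_lit 0, [nat_lit 2637500000, nat_lit 5449500000, nat_lit 7089500000, nat_lit 8885500000], [], [nat_lit 24397940162, nat_lit 24458931253, nat_lit 24175856524, nat_lit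 24234124970], nat_lit 0, nat_lit 0, nat_lit 0, nat_lit 0, nat_lit 0, nat_lit 0, [], [nat_lit 117, nat_lit 40, nat_lit 20, nat_lit 40]⟩,
 zbF0, [⟨nat_lit 0, nat_lit 100, nat_lit 100, nat_lit 35, nat_lit 1751377085⟩]⟩
noncomputable def p006_l61 : Lf2 := ⟨nat_lit 3, nat_lit 5, [nat_lit 4, nat_lit 5, nat_lit 5, nat_lit 20], false, nat_lit 0, nat_lit 0, nat_lit 0, nat_lit 0, zbN0,
 nat_lit 0, nat_lit 0, nat_lit 0, nat_lit 0, nat_lit 0, nat_lit 0, nat_lit 0, nat_lit 0, nat_lit 0, nat_lit 0, nat_lit 0, nat_lit 0, nat_lit 0, nat_lit 0, nat_lit 0, nat_lit 0, nat_lit 0, nat_lit 0, [],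
 C1.Rw.none, ⟨p006_k22, nat_lit 0, nat_lit 0, nat_lit 209, nat_lit 0, nat_lit 0, [], [], [], nat_lit 0, nat_lit 0, nat_lit 0, nat_lit 0, nat_lit 0, nat_lit 0, [], [nat_lit 51, nat_lit 40, nat_lit 20, nat_lit 80, nat_lit 1, nat_lit 289, nat_lit 75, nat_lit 9]⟩,
 zbF0, []⟩
noncomputable def p006_l62 : Lf2 := ⟨nat_lit 0, nat_lit 5, [nat_lit 4, nat_lit 5, nat_lit 5, nat_lit 20], true, nat_lit 0, nat_lit 0, nat_lit 0, nat_lit 0, ⟨nat_lit 0, nat_lit 0, nat_lit 1000, nat_lit 5, nat_lit 60, nat_lit 0, nat_lit 0, nat_lit 0, nat_lit 0, nat_lit 215, nat_lit 33750, nat_lit 260, nat_lit 65508919, nat_lit 0, nat_lit 0, nat_lit 533405, false, false⟩,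
 nat_lit 0, nat_lit 5023, nat_lit 0, nat_lit 0, nat_lit 2633, nat_lit 0, nat_lit 0, nat_lit 0, nat_lit 0, nat_lit 0, nat_lit 0, nat_lit 0, nat_lit 0, nat_lit 0, nat_lit 54, nat_lit 400000, nat_lit 0, nat_lit 0, [(nat_lit 3, [(nat_lit 5, nat_lit 1000)])],
 ⟨p006_k23, nat_lit 0, nat_lit 0, nat_lit 0, nat_lit 0, nat_lit 10309, [nat_lit 1471600001, nat_lit 1611600000, nat_lit 965600001, nat_lit 151199999], [], [nat_lit 13611042140, nat_lit 13661781091, nat_lit 13493506663, nat_lit 13542273868], nat_lit 1271250, nat_lit 1271250, nat_lit 65850, nat_lit 88400, nat_lit 0, nat_lit 0, [nat_lit 631250, nat_lit 1271250, nat_lit 1271250, nat_lit 1271250], [nat_lit 117, nat_lit 40, nat_lit 20, nat_lit 40]⟩, C1.Rw.none,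
 ⟨nat_lit 6344, nat_lit 6364, ⟨.ofNat (nat_lit 145761), .ofNat (nat_lit 154025), .ofNat (nat_lit 146830), .ofNat (nat_lit 155094), .ofNat (nat_lit 146654), .ofNat (nat_lit 154899), .ofNat (nat_lit 147722), .ofNat (nat_lit 155968)⟩, ⟨.ofNat (nat_lit 0), .ofNat (nat_lit 0), .ofNat (nat_lit 0), .ofNat (nat_lit 0), .ofNat (nat_lit 0), .ofNat (nat_lit 0), .ofNat (nat_lit 0), .ofNat (nat_lit 0)⟩⟩, [⟨nat_lit 0, nat_lit 100, nat_lit 99, nat_lit 35, nat_lit 257205827⟩]⟩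
noncomputable def p006_l63 : Lf2 := ⟨nat_lit 2, nat_lit 5, [nat_lit 4, nat_lit 5, nat_lit 5, nat_lit 20], true, nat_lit 0, nat_lit 0, nat_lit 0, nat_lit 0, zbN0,
 nat_lit 0, nat_lit 0, nat_lit 0, nat_lit 0, nat_lit 0, nat_lit 0, nat_lit 0, nat_lit 0, nat_lit 0, nat_lit 0, nat_lit 0, nat_lit 0, nat_lit 0, nat_lit 0, nat_lit 0, nat_lit 0, nat_lit 0, nat_lit 0, [],
 ⟨p006_k15, nat_lit 0, nat_lit 0, nat_lit 282, nat_lit 0, nat_lit 10309, [], [], [], nat_lit 1271250, nat_lit 1271250, nat_lit 65850, nat_lit 88400, nat_lit 0, nat_lit 0, [nat_lit 1412500, nat_lit 1271250, nat_lit 1271250], [nat_lit 25, nat_lit 40, nat_lit 20, nat_lit 80, nat_lit 17, nat_lit 289, nat_lit 75, nat_lit 9]⟩, C1.Rw.none,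
 zbF0, []⟩
noncomputable def p006_l64 : Lf2 := ⟨nat_lit 3, nat_lit 5, [nat_lit 4, nat_lit 5, nat_lit 5, nat_lit 20], false, nat_lit 0, nat_lit 0, nat_lit 0, nat_lit 0, zbN0,
 nat_lit 0, nat_lit 0, nat_lit 0, nat_lit 0, nat_lit 0, nat_lit 0, nat_lit 0, nat_lit 0, nat_lit 0, nat_lit 0, nat_lit 0, nat_lit 0, nat_lit 0, nat_lit 0, nat_lit 0, nat_lit 0, nat_lit 0, nat_lit 0, [],
 C1.Rw.none, ⟨p006_k22, nat_lit 0, nat_lit 0, nat_lit 209, nat_lit 0, nat_lit 0, [], [], [], nat_lit 0, nat_lit 0, nat_lit 0, nat_lit 0, nat_lit 0, nat_lit 0, [], [nat_lit 51, nat_lit 40, nat_lit 20, nat_lit 80, nat_lit 1, nat_lit 289, nat_lit 75, nat_lit 9]⟩,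
 zbF0, []⟩
noncomputable def p006_l65 : Lf2 := ⟨nat_lit 0, nat_lit 5, [nat_lit 4, nat_lit 5, nat_lit 5, nat_lit 20], false, nat_lit 0, nat_lit 0, nat_lit 0, nat_lit 0, ⟨nat_lit 1000, nat_lit 0, nat_lit 0, nat_lit 0, nat_lit 0, nat_lit 0, nat_lit 0, nat_lit 0, nat_lit 0, nat_lit 0, nat_lit 0, nat_lit 0, nat_lit 0, nat_lit 0, nat_lit 0, nat_lit 0, false, false⟩,
 nat_lit 0, nat_lit 17677, nat_lit 0, nat_lit 0, nat_lit 9312, nat_lit 4293, nat_lit 0, nat_lit 0, nat_lit 0, nat_lit 0, nat_lit 0, nat_lit 0, nat_lit 0, nat_lit 0, nat_lit 0, nat_lit 0, nat_lit 0, nat_lit 0, [],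
 ⟨p006_k18, nat_lit 0, nat_lit 0, nat_lit 284, nat_lit 0, nat_lit 14141, [nat_lit 6250000000, nat_lit 7968000001, nat_lit 9842000000], [], [nat_lit 31450213808, nat_lit 31533023789, nat_lit 30933422569, nat_lit 30998627712], nat_lit 1271250, nat_lit 1271250, nat_lit 65850, nat_lit 88400, nat_lit 0, nat_lit 0, [nat_lit 1412500, nat_lit 1271250, nat_lit 1271250], [nat_lit 25, nat_lit 40, nat_lit 20, nat_lit 80, nat_lit 17, nat_lit 289, nat_lit 75, nat_lit 9]⟩, ⟨p006_k21, nat_lit 0, nat_lit 0, nat_lit 0, nat_lit 0, nat_lit 0, [nat_lit 2637500000, nat_lit 5449500000, nat_lit 7089500000, nat_lit 8885500000], [], [nat_lit 24397940162, nat_lit 24458931253, nat_lit 24175856524, nat_lit 24234124970], nat_lit 0, nat_lit 0, nat_lit 0, nat_lit 0, nat_lit 0, nat_lit 0, [], [nat_lit 117, nat_lit 40, nat_lit 20, nat_lit 40]⟩,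
 zbF0, [⟨nat_lit 0, nat_lit 100, nat_lit 99, nat_lit 35, nat_lit 1766058183⟩]⟩
noncomputable def p006_l66 : Lf2 := ⟨nat_lit 3, nat_lit 5, [nat_lit 4, nat_lit 5, nat_lit 5, nat_lit 20], false, nat_lit 0, nat_lit 0, nat_lit 0, nat_lit 0, zbN0,
 nat_lit 0, nat_lit 0, nat_lit 0, nat_lit 0, nat_lit 0, nat_lit 0, nat_lit 0, nat_lit 0, nat_lit 0, nat_lit 0, nat_lit 0, nat_lit 0, nat_lit 0, nat_lit 0, nat_lit 0, nat_lit 0, nat_lit 0, nat_lit 0, [],
 C1.Rw.none, ⟨p006_k22, nat_lit 0, nat_lit 0, nat_lit 209, nat_lit 0, nat_lit 0, [], [], [], nat_lit 0, nat_lit 0, nat_lit 0, nat_lit 0, nat_lit 0, nat_lit 0, [], [nat_lit 51, nat_lit 40, nat_lit 20, nat_lit 80, nat_lit 1, nat_lit 289, nat_lit 75, nat_lit 9]⟩,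
 zbF0, []⟩
noncomputable def p006_l67 : Lf2 := ⟨nat_lit 1, nat_lit 5, [nat_lit 4, nat_lit 5, nat_lit 5, nat_lit 20], false, nat_lit 0, nat_lit 0, nat_lit 0, nat_lit 0, zbN0,
 nat_lit 0, nat_lit 0, nat_lit 0, nat_lit 0, nat_lit 0, nat_lit 0, nat_lit 0, nat_lit 0, nat_lit 0, nat_lit 0, nat_lit 0, nat_lit 0, nat_lit 0, nat_lit 0, nat_lit 0, nat_lit 0, nat_lit 0, nat_lit 0, [],
 C1.Rw.none, C1.Rw.none,
 zbF0, []⟩
noncomputable def p006_l68 : Lf2 := ⟨nat_lit 0, nat_lit 5, [nat_lit 4, nat_lit 5, nat_lit 5, nat_lit 20], false, nat_lit 0, nat_lit 0, nat_lit 0, nat_lit 0, ⟨nat_lit 1000, nat_lit 0, nat_lit 0, nat_lit 0, nat_lit 0, nat_lit 0, nat_lit 0, nat_lit 0, nat_lit 0, nat_lit 0, nat_lit 0, nat_lit 0, nat_lit 0, nat_lit 0, nat_lit 0, nat_lit 0, false, false⟩,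
 nat_lit 0, nat_lit 18004, nat_lit 0, nat_lit 6819, nat_lit 9345, nat_lit 4290, nat_lit 0, nat_lit 0, nat_lit 0, nat_lit 0, nat_lit 0, nat_lit 0, nat_lit 0, nat_lit 0, nat_lit 0, nat_lit 0, nat_lit 0, nat_lit 0, [],
 ⟨p006_k24, nat_lit 0, nat_lit 0, nat_lit 266, nat_lit 0, nat_lit 6323, [nat_lit 6250000000, nat_lit 7968000001, nat_lit 9842000000], [], [nat_lit 31243439114, nat_lit 31308726885, nat_lit 30724532324, nat_lit 30789860748], nat_lit 1271250, nat_lit 1271250, nat_lit 65850, nat_lit 88400, nat_lit 0, nat_lit 0, [nat_lit 1412500, nat_lit 1271250, nat_lit 1271250], [nat_lit 25, nat_lit 40, nat_lit 20, nat_lit 80, nat_lit 17, nat_lit 289, nat_lit 75, nat_lit 9]⟩, ⟨p006_k10, nat_lit 0, nat_lit 0, nat_lit 0, nat_lit 0, nat_lit 0, [nat_lit 2637500000, nat_lit 5449500000, nat_lit 7089500000, nat_lit 8885500000], [], [nat_lit 24457577933, nat_lit 24518181175, nat_lit 24235678727, nat_lit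 24293930003], nat_lit 0, nat_lit 0, nat_lit 0, nat_lit 0, nat_lit 0, nat_lit 0, [], [nat_lit 117, nat_lit 40, nat_lit 20, nat_lit 40]⟩,
 zbF0, [⟨nat_lit 0, nat_lit 100, nat_lit 100, nat_lit 35, nat_lit 1752453820⟩]⟩
noncomputable def p006_l69 : Lf2 := ⟨nat_lit 3, nat_lit 5, [nat_lit 4, nat_lit 5, nat_lit 5, nat_lit 20], false, nat_lit 0, nat_lit 0, nat_lit 0, nat_lit 0, zbN0,
 nat_lit 0, nat_lit 0, nat_lit 0, nat_lit 0, nat_lit 0, nat_lit 0, nat_lit 0, nat_lit 0, nat_lit 0, nat_lit 0, nat_lit 0, nat_lit 0, nat_lit 0, nat_lit 0, nat_lit 0, nat_lit 0, nat_lit 0, nat_lit 0, [],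
 C1.Rw.none, ⟨p006_k25, nat_lit 0, nat_lit 0, nat_lit 210, nat_lit 0, nat_lit 0, [], [], [], nat_lit 0, nat_lit 0, nat_lit 0, nat_lit 0, nat_lit 0, nat_lit 0, [], [nat_lit 51, nat_lit 40, nat_lit 20, nat_lit 80, nat_lit 1, nat_lit 289, nat_lit 75, nat_lit 9]⟩,
 zbF0, []⟩
noncomputable def p006_l70 : Lf2 := ⟨nat_lit 0, nat_lit 5, [nat_lit 4, nat_lit 5, nat_lit 5, nat_lit 20], true, nat_lit 0, nat_lit 0, nat_lit 0, nat_lit 0, ⟨nat_lit 0, nat_lit 0, nat_lit 1000, nat_lit 5, nat_lit 60, nat_lit 0, nat_lit 0, nat_lit 0, nat_lit 0, nat_lit 215, nat_lit 33750, nat_lit 260, nat_lit 65505349, nat_lit 0, nat_lit 0, nat_lit 534413, false, false⟩,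
 nat_lit 0, nat_lit 5052, nat_lit 0, nat_lit 0, nat_lit 2635, nat_lit 0, nat_lit 0, nat_lit 0, nat_lit 0, nat_lit 0, nat_lit 0, nat_lit 0, nat_lit 0, nat_lit 0, nat_lit 54, nat_lit 400000, nat_lit 0, nat_lit 0, [(nat_lit 3, [(nat_lit 5, nat_lit 1000)])],
 ⟨p006_k26, nat_lit 0, nat_lit 0, nat_lit 0, nat_lit 0, nat_lit 10145, [nat_lit 1471600001, nat_lit 1611600000, nat_lit 965600001, nat_lit 151199999], [], [nat_lit 13561393507, nat_lit 13611972123, nat_lit 13443749410, nat_lit 13492528062], nat_lit 1271250, nat_lit 1271250, nat_lit 65850, nat_lit 88400, nat_lit 0, nat_lit 0, [nat_lit 631250, nat_lit 1271250, nat_lit 1271250, nat_lit 1271250], [nat_lit 117, nat_lit 40, nat_lit 20, nat_lit 40]⟩, C1.Rw.none,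
 ⟨nat_lit 6363, nat_lit 6384, ⟨.ofNat (nat_lit 145935), .ofNat (nat_lit 154219), .ofNat (nat_lit 147004), .ofNat (nat_lit 155287), .ofNat (nat_lit 146830), .ofNat (nat_lit 155094), .ofNat (nat_lit 147898), .ofNat (nat_lit 156163)⟩, ⟨.ofNat (nat_lit 0), .ofNat (nat_lit 0), .ofNat (nat_lit 0), .ofNat (nat_lit 0), .ofNat (nat_lit 0), .ofNat (nat_lit 0), .ofNat (nat_lit 0), .ofNat (nat_lit 0)⟩⟩, [⟨nat_lit 0, nat_lit 100, nat_lit 100, nat_lit 36, nat_lit 255289462⟩]⟩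
noncomputable def p006_l71 : Lf2 := ⟨nat_lit 2, nat_lit 5, [nat_lit 4, nat_lit 5, nat_lit 5, nat_lit 20], true, nat_lit 0, nat_lit 0, nat_lit 0, nat_lit 0, zbN0,
 nat_lit 0, nat_lit 0, nat_lit 0, nat_lit 0, nat_lit 0, nat_lit 0, nat_lit 0, nat_lit 0, nat_lit 0, nat_lit 0, nat_lit 0, nat_lit 0, nat_lit 0, nat_lit 0, nat_lit 0, nat_lit 0, nat_lit 0, nat_lit 0, [],
 ⟨p006_k20, nat_lit 0, nat_lit 0, nat_lit 282, nat_lit 0, nat_lit 10145, [], [], [], nat_lit 1271250, nat_lit 1271250, nat_lit 65850, nat_lit 88400, nat_lit 0, nat_lit 0, [nat_lit 1412500, nat_lit 1271250, nat_lit 1271250], [nat_lit 25, nat_lit 40, nat_lit 20, nat_lit 80, nat_lit 17, nat_lit 289, nat_lit 75, nat_lit 9]⟩, C1.Rw.none,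
 zbF0, []⟩
noncomputable def p006_l72 : Lf2 := ⟨nat_lit 3, nat_lit 5, [nat_lit 4, nat_lit 5, nat_lit 5, nat_lit 20], false, nat_lit 0, nat_lit 0, nat_lit 0, nat_lit 0, zbN0,
 nat_lit 0, nat_lit 0, nat_lit 0, nat_lit 0, nat_lit 0, nat_lit 0, nat_lit 0, nat_lit 0, nat_lit 0, nat_lit 0, nat_lit 0, nat_lit 0, nat_lit 0, nat_lit 0, nat_lit 0, nat_lit 0, nat_lit 0, nat_lit 0, [],
 C1.Rw.none, ⟨p006_k25, nat_lit 0, nat_lit 0, nat_lit 210, nat_lit 0, nat_lit 0, [], [], [], nat_lit 0, nat_lit 0, nat_lit 0, nat_lit 0, nat_lit 0, nat_lit 0, [], [nat_lit 51, nat_lit 40, nat_lit 20, nat_lit 80, nat_lit 1, nat_lit 289, nat_lit 75, nat_lit 9]⟩,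
 zbF0, []⟩
noncomputable def p006_l73 : Lf2 := ⟨nat_lit 0, nat_lit 5, [nat_lit 4, nat_lit 5, nat_lit 5, nat_lit 20], true, nat_lit 0, nat_lit 0, nat_lit 0, nat_lit 0, ⟨nat_lit 0, nat_lit 0, nat_lit 1000, nat_lit 5, nat_lit 61, nat_lit 0, nat_lit 0, nat_lit 0, nat_lit 0, nat_lit 215, nat_lit 35267, nat_lit 261, nat_lit 65488200, nat_lit 0, nat_lit 0, nat_lit 539244, false, false⟩,
 nat_lit 0, nat_lit 5023, nat_lit 0, nat_lit 0, nat_lit 2633, nat_lit 0, nat_lit 0, nat_lit 0, nat_lit 0, nat_lit 0, nat_lit 0, nat_lit 0, nat_lit 0, nat_lit 0, nat_lit 54, nat_lit 400000, nat_lit 0, nat_lit 0, [(nat_lit 3, [(nat_lit 5, nat_lit 1000)])],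
 ⟨p006_k23, nat_lit 0, nat_lit 0, nat_lit 0, nat_lit 0, nat_lit 13975, [nat_lit 1471600001, nat_lit 1611600000, nat_lit 965600001, nat_lit 151199999], [], [nat_lit 13611042140, nat_lit 13661781091, nat_lit 13493506663, nat_lit 13542273868], nat_lit 1271250, nat_lit 1271250, nat_lit 65850, nat_lit 88400, nat_lit 0, nat_lit 0, [nat_lit 631250, nat_lit 1271250, nat_lit 1271250, nat_lit 1271250], [nat_lit 117, nat_lit 40, nat_lit 20, nat_lit 40]⟩, C1.Rw.none,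
 ⟨nat_lit 6344, nat_lit 6364, ⟨.ofNat (nat_lit 146830), .ofNat (nat_lit 155094), .ofNat (nat_lit 147898), .ofNat (nat_lit 156163), .ofNat (nat_lit 147722), .ofNat (nat_lit 155968), .ofNat (nat_lit 148791), .ofNat (nat_lit 157036)⟩, ⟨.ofNat (nat_lit 0), .ofNat (nat_lit 0), .ofNat (nat_lit 0), .ofNat (nat_lit 0), .ofNat (nat_lit 0), .ofNat (nat_lit 0), .ofNat (nat_lit 0), .ofNat (nat_lit 0)⟩⟩, [⟨nat_lit 0, nat_lit 100, nat_lit 100, nat_lit 36, nat_lit 255476613⟩]⟩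
noncomputable def p006_l74 : Lf2 := ⟨nat_lit 2, nat_lit 5, [nat_lit 4, nat_lit 5, nat_lit 5, nat_lit 20], true, nat_lit 0, nat_lit 0, nat_lit 0, nat_lit 0, zbN0,
 nat_lit 0, nat_lit 0, nat_lit 0, nat_lit 0, nat_lit 0, nat_lit 0, nat_lit 0, nat_lit 0, nat_lit 0, nat_lit 0, nat_lit 0, nat_lit 0, nat_lit 0, nat_lit 0, nat_lit 0, nat_lit 0, nat_lit 0, nat_lit 0, [],
 ⟨p006_k15, nat_lit 0, nat_lit 0, nat_lit 284, nat_lit 0, nat_lit 13975, [], [], [], nat_lit 1271250, nat_lit 1271250, nat_lit 65850, nat_lit 88400, nat_lit 0, nat_lit 0, [nat_lit 1412500, nat_lit 1271250, nat_lit 1271250], [nat_lit 25, nat_lit 40, nat_lit 20, nat_lit 80, nat_lit 17, nat_lit 289, nat_lit 75, nat_lit 9]⟩, C1.Rw.none,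
 zbF0, []⟩
noncomputable def p006_l75 : Lf2 := ⟨nat_lit 3, nat_lit 5, [nat_lit 4, nat_lit 5, nat_lit 5, nat_lit 20], false, nat_lit 0, nat_lit 0, nat_lit 0, nat_lit 0, zbN0,
 nat_lit 0, nat_lit 0, nat_lit 0, nat_lit 0, nat_lit 0, nat_lit 0, nat_lit 0, nat_lit 0, nat_lit 0, nat_lit 0, nat_lit 0, nat_lit 0, nat_lit 0, nat_lit 0, nat_lit 0, nat_lit 0, nat_lit 0, nat_lit 0, [],
 C1.Rw.none, ⟨p006_k25, nat_lit 0, nat_lit 0, nat_lit 210, nat_lit 0, nat_lit 0, [], [], [], nat_lit 0, nat_lit 0, nat_lit 0, nat_lit 0, nat_lit 0, nat_lit 0, [], [nat_lit 51, nat_lit 40, nat_lit 20, nat_lit 80, nat_lit 1, nat_lit 289, nat_lit 75, nat_lit 9]⟩,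
 zbF0, []⟩
noncomputable def p006_l76 : Lf2 := ⟨nat_lit 0, nat_lit 5, [nat_lit 4, nat_lit 5, nat_lit 5, nat_lit 20], false, nat_lit 0, nat_lit 0, nat_lit 0, nat_lit 0, ⟨nat_lit 1000, nat_lit 0, nat_lit 0, nat_lit 0, nat_lit 0, nat_lit 0, nat_lit 0, nat_lit 0, nat_lit 0, nat_lit 0, nat_lit 0, nat_lit 0, nat_lit 0, nat_lit 0, nat_lit 0, nat_lit 0, false, false⟩,
 nat_lit 0, nat_lit 17677, nat_lit 0, nat_lit 0, nat_lit 9312, nat_lit 4290, nat_lit 0, nat_lit 0, nat_lit 0, nat_lit 0, nat_lit 0, nat_lit 0, nat_lit 0, nat_lit 0, nat_lit 0, nat_lit 0, nat_lit 0, nat_lit 0, [],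
 ⟨p006_k18, nat_lit 0, nat_lit 0, nat_lit 286, nat_lit 0, nat_lit 17767, [nat_lit 6250000000, nat_lit 7968000001, nat_lit 9842000000], [], [nat_lit 31450213808, nat_lit 31533023789, nat_lit 30933422569, nat_lit 30998627712], nat_lit 1271250, nat_lit 1271250, nat_lit 65850, nat_lit 88400, nat_lit 0, nat_lit 0, [nat_lit 1412500, nat_lit 1271250, nat_lit 1271250], [nat_lit 25, nat_lit 40, nat_lit 20, nat_lit 80, nat_lit 17, nat_lit 289, nat_lit 75, nat_lit 9]⟩, ⟨p006_k10, nat_lit 0, nat_lit 0, nat_lit 0, nat_lit 0, nat_lit 0, [nat_lit 2637500000, nat_lit 5449500000, nat_lit 7089500000, nat_lit 8885500000], [], [nat_lit 24457577933, nat_lit 24518181175, nat_lit 24235678727, nat_lit 24293930003], nat_lit 0, nat_lit 0, nat_lit 0, nat_lit 0, nat_lit 0, nat_lit 0, [], [nat_lit 117, nat_lit 40, nat_lit 20, nat_lit 40]⟩,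
 zbF0, [⟨nat_lit 0, nat_lit 100, nat_lit 99, nat_lit 36, nat_lit 1764139547⟩]⟩
noncomputable def p006_l77 : Lf2 := ⟨nat_lit 3, nat_lit 5, [nat_lit 4, nat_lit 5, nat_lit 5, nat_lit 20], false, nat_lit 0, nat_lit 0, nat_lit 0, nat_lit 0, zbN0,
 nat_lit 0, nat_lit 0, nat_lit 0, nat_lit 0, nat_lit 0, nat_lit 0, nat_lit 0, nat_lit 0, nat_lit 0, nat_lit 0, nat_lit 0, nat_lit 0, nat_lit 0, nat_lit 0, nat_lit 0, nat_lit 0, nat_lit 0, nat_lit 0, [],
 C1.Rw.none, ⟨p006_k25, nat_lit 0, nat_lit 0, nat_lit 210, nat_lit 0, nat_lit 0, [], [], [], nat_lit 0, nat_lit 0, nat_lit 0, nat_lit 0, nat_lit 0, nat_lit 0, [], [nat_lit 51, nat_lit 40, nat_lit 20, nat_lit 80, nat_lit 1, nat_lit 289, nat_lit 75, nat_lit 9]⟩,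
 zbF0, []⟩
noncomputable def p006_l78 : Lf2 := ⟨nat_lit 0, nat_lit 5, [nat_lit 4, nat_lit 5, nat_lit 5, nat_lit 20], true, nat_lit 0, nat_lit 0, nat_lit 0, nat_lit 0, ⟨nat_lit 0, nat_lit 0, nat_lit 1000, nat_lit 5, nat_lit 61, nat_lit 0, nat_lit 0, nat_lit 0, nat_lit 0, nat_lit 215, nat_lit 35267, nat_lit 261, nat_lit 65484706, nat_lit 0, nat_lit 0, nat_lit 540226, false, false⟩,
 nat_lit 0, nat_lit 9185, nat_lit 0, nat_lit 0, nat_lit 4743, nat_lit 0, nat_lit 0, nat_lit 0, nat_lit 0, nat_lit 0, nat_lit 0, nat_lit 0, nat_lit 0, nat_lit 0, nat_lit 54, nat_lit 400000, nat_lit 0, nat_lit 0, [(nat_lit 3, [(nat_lit 5, nat_lit 1000)])],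
 ⟨p006_k27, nat_lit 0, nat_lit 0, nat_lit 0, nat_lit 0, nat_lit 21870, [nat_lit 2385360001, nat_lit 965600001, nat_lit 151199999], [], [nat_lit 14714645261, nat_lit 15028261153, nat_lit 14474290835, nat_lit 14742457427], nat_lit 1271250, nat_lit 1271250, nat_lit 65850, nat_lit 88400, nat_lit 0, nat_lit 0, [nat_lit 1271250, nat_lit 1271250, nat_lit 1271250], [nat_lit 96, nat_lit 40, nat_lit 20, nat_lit 40]⟩, C1.Rw.none,
 ⟨nat_lit 6324, nat_lit 6423, ⟨.ofNat (nat_lit 145209), .ofNat (nat_lit 153532), .ofNat (nat_lit 146279), .ofNat (nat_lit 154601), .ofNat (nat_lit 149682), .ofNat (nat_lit 157908), .ofNat (nat_lit 150750), .ofNat (nat_lit 158977)⟩, ⟨.ofNat (nat_lit 0), .ofNat (nat_lit 0), .ofNat (nat_lit 0), .ofNat (nat_lit 0), .ofNat (nat_lit 0), .ofNat (nat_lit 0), .ofNat (nat_lit 0), .ofNat (nat_lit 0)⟩⟩, [⟨nat_lit 0, nat_lit 100, nat_lit 100, nat_lit 36, nat_lit 410566155⟩]⟩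
noncomputable def p006_l79 : Lf2 := ⟨nat_lit 2, nat_lit 5, [nat_lit 4, nat_lit 5, nat_lit 5, nat_lit 20], true, nat_lit 0, nat_lit 0, nat_lit 0, nat_lit 0, zbN0,
 nat_lit 0, nat_lit 0, nat_lit 0, nat_lit 0, nat_lit 0, nat_lit 0, nat_lit 0, nat_lit 0, nat_lit 0, nat_lit 0, nat_lit 0, nat_lit 0, nat_lit 0, nat_lit 0, nat_lit 0, nat_lit 0, nat_lit 0, nat_lit 0, [],
 ⟨p006_k14, nat_lit 0, nat_lit 0, nat_lit 288, nat_lit 0, nat_lit 21870, [], [], [], nat_lit 1271250, nat_lit 1271250, nat_lit 65850, nat_lit 88400, nat_lit 0, nat_lit 0, [nat_lit 1412500, nat_lit 1271250, nat_lit 1271250], [nat_lit 25, nat_lit 40, nat_lit 20, nat_lit 80, nat_lit 17, nat_lit 289, nat_lit 75, nat_lit 9]⟩, C1.Rw.none,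
 zbF0, []⟩
noncomputable def p006_l80 : Lf2 := ⟨nat_lit 3, nat_lit 5, [nat_lit 4, nat_lit 5, nat_lit 5, nat_lit 20], false, nat_lit 0, nat_lit 0, nat_lit 0, nat_lit 0, zbN0,
 nat_lit 0, nat_lit 0, nat_lit 0, nat_lit 0, nat_lit 0, nat_lit 0, nat_lit 0, nat_lit 0, nat_lit 0, nat_lit 0, nat_lit 0, nat_lit 0, nat_lit 0, nat_lit 0, nat_lit 0, nat_lit 0, nat_lit 0, nat_lit 0, [],
 C1.Rw.none, ⟨p006_k28, nat_lit 0, nat_lit 0, nat_lit 210, nat_lit 0, nat_lit 0, [], [], [], nat_lit 0, nat_lit 0, nat_lit 0, nat_lit 0, nat_lit 0, nat_lit 0, [], [nat_lit 51, nat_lit 40, nat_lit 20, nat_lit 80, nat_lit 1, nat_lit 289, nat_lit 75, nat_lit 9]⟩,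
 zbF0, []⟩
noncomputable def p006_l81 : Lf2 := ⟨nat_lit 0, nat_lit 5, [nat_lit 4, nat_lit 5, nat_lit 5, nat_lit 20], true, nat_lit 0, nat_lit 0, nat_lit 0, nat_lit 0, ⟨nat_lit 0, nat_lit 0, nat_lit 1000, nat_lit 5, nat_lit 63, nat_lit 0, nat_lit 0, nat_lit 0, nat_lit 0, nat_lit 215, nat_lit 36817, nat_lit 262, nat_lit 65384534, nat_lit 0, nat_lit 0, nat_lit 568138, false, false⟩,
 nat_lit 0, nat_lit 10203, nat_lit 0, nat_lit 0, nat_lit 5269, nat_lit 0, nat_lit 0, nat_lit 0, nat_lit 0, nat_lit 0, nat_lit 0, nat_lit 0, nat_lit 0, nat_lit 0, nat_lit 60, nat_lit 400000, nat_lit 0, nat_lit 0, [(nat_lit 3, [(nat_lit 5, nat_lit 1000)])],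
 ⟨p006_k14, nat_lit 0, nat_lit 0, nat_lit 265, nat_lit 0, nat_lit 14472, [nat_lit 2770400000, nat_lit 702400001, nat_lit 2000000], [], [nat_lit 16114471720, nat_lit 16364978645, nat_lit 15841892392, nat_lit 16092441168], nat_lit 1271250, nat_lit 1271250, nat_lit 88400, nat_lit 111251, nat_lit 0, nat_lit 0, [nat_lit 1412500, nat_lit 1271250, nat_lit 1271250], [nat_lit 25, nat_lit 40, nat_lit 20, nat_lit 80, nat_lit 17, nat_lit 289, nat_lit 75, nat_lit 9]⟩, C1.Rw.none,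
 ⟨nat_lit 6324, nat_lit 6423, ⟨.ofNat (nat_lit 149255), .ofNat (nat_lit 157577), .ofNat (nat_lit 152462), .ofNat (nat_lit 160785), .ofNat (nat_lit 153635), .ofNat (nat_lit 161861), .ofNat (nat_lit 156840), .ofNat (nat_lit 165066)⟩, ⟨.ofNat (nat_lit 0), .ofNat (nat_lit 0), .ofNat (nat_lit 0), .ofNat (nat_lit 0), .ofNat (nat_lit 0), .ofNat (nat_lit 0), .ofNat (nat_lit 0), .ofNat (nat_lit 0)⟩⟩, []⟩
noncomputable def p006_l82 : Lf2 := ⟨nat_lit 0, nat_lit 5, [nat_lit 4, nat_lit 5, nat_lit 5, nat_lit 20], true, nat_lit 0, nat_lit 0, nat_lit 0, nat_lit 0, ⟨nat_lit 0, nat_lit 0, nat_lit 1000, nat_lit 5, nat_lit 64, nat_lit 0, nat_lit 0, nat_lit 0, nat_lit 0, nat_lit 215, nat_lit 38400, nat_lit 263, nat_lit 65341391, nat_lit 0, nat_lit 0, nat_lit 580011, false, false⟩,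
 nat_lit 0, nat_lit 10203, nat_lit 0, nat_lit 0, nat_lit 5269, nat_lit 0, nat_lit 0, nat_lit 0, nat_lit 0, nat_lit 0, nat_lit 0, nat_lit 0, nat_lit 0, nat_lit 0, nat_lit 60, nat_lit 400000, nat_lit 0, nat_lit 0, [(nat_lit 3, [(nat_lit 5, nat_lit 1000)])],
 ⟨p006_k14, nat_lit 0, nat_lit 0, nat_lit 265, nat_lit 0, nat_lit 18171, [nat_lit 2770400000, nat_lit 702400001, nat_lit 2000000], [], [nat_lit 16114471720, nat_lit 16364978645, nat_lit 15841892392, nat_lit 16092441168], nat_lit 1271250, nat_lit 1271250, nat_lit 88400, nat_lit 111251, nat_lit 0, nat_lit 0, [nat_lit 1412500, nat_lit 1271250, nat_lit 1271250], [nat_lit 25, nat_lit 40, nat_lit 20, nat_lit 80, nat_lit 17, nat_lit 289, nat_lit 75, nat_lit 9]⟩, C1.Rw.none,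
 ⟨nat_lit 6324, nat_lit 6423, ⟨.ofNat (nat_lit 152462), .ofNat (nat_lit 160785), .ofNat (nat_lit 153532), .ofNat (nat_lit 161854), .ofNat (nat_lit 156840), .ofNat (nat_lit 165066), .ofNat (nat_lit 157908), .ofNat (nat_lit 166135)⟩, ⟨.ofNat (nat_lit 0), .ofNat (nat_lit 0), .ofNat (nat_lit 0), .ofNat (nat_lit 0), .ofNat (nat_lit 0), .ofNat (nat_lit 0), .ofNat (nat_lit 0), .ofNat (nat_lit 0)⟩⟩, []⟩
noncomputable def p006_l83 : Lf2 := ⟨nat_lit 0, nat_lit 5, [nat_lit 4, nat_lit 5, nat_lit 5, nat_lit 20], true, nat_lit 0, nat_lit 0, nat_lit 0, nat_lit 0, ⟨nat_lit 0, nat_lit 0, nat_lit 1000, nat_lit 5, nat_lit 63, nat_lit 0, nat_lit 0, nat_lit 0, nat_lit 0, nat_lit 215, nat_lit 38400, nat_lit 263, nat_lit 65354788, nat_lit 0, nat_lit 0, nat_lit 576334, false, false⟩,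
 nat_lit 0, nat_lit 10287, nat_lit 0, nat_lit 0, nat_lit 5313, nat_lit 0, nat_lit 0, nat_lit 0, nat_lit 0, nat_lit 0, nat_lit 0, nat_lit 0, nat_lit 0, nat_lit 0, nat_lit 60, nat_lit 400000, nat_lit 0, nat_lit 0, [(nat_lit 3, [(nat_lit 5, nat_lit 1000)])],
 ⟨p006_k14, nat_lit 0, nat_lit 0, nat_lit 264, nat_lit 0, nat_lit 6204, [nat_lit 2770400000, nat_lit 702400001, nat_lit 2000000], [], [nat_lit 16096607593, nat_lit 16146873352, nat_lit 15821368746, nat_lit 15871643224], nat_lit 1271250, nat_lit 1271250, nat_lit 88400, nat_lit 111251, nat_lit 0, nat_lit 0, [nat_lit 1412500, nat_lit 1271250, nat_lit 1271250], [nat_lit 25, nat_lit 40, nat_lit 20, nat_lit 80, nat_lit 17, nat_lit 289, nat_lit 75, nat_lit 9]⟩, C1.Rw.none,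
 ⟨nat_lit 6403, nat_lit 6423, ⟨.ofNat (nat_lit 153532), .ofNat (nat_lit 161854), .ofNat (nat_lit 154601), .ofNat (nat_lit 162923), .ofNat (nat_lit 154410), .ofNat (nat_lit 162713), .ofNat (nat_lit 155479), .ofNat (nat_lit 163782)⟩, ⟨.ofNat (nat_lit 0), .ofNat (nat_lit 0), .ofNat (nat_lit 0), .ofNat (nat_lit 0), .ofNat (nat_lit 0), .ofNat (nat_lit 0), .ofNat (nat_lit 0), .ofNat (nat_lit 0)⟩⟩, []⟩
noncomputable def p006_l84 : Lf2 := ⟨nat_lit 0, nat_lit 5, [nat_lit 4, nat_lit 5, nat_lit 5, nat_lit 20], false, nat_lit 0, nat_lit 0, nat_lit 0, nat_lit 0, ⟨nat_lit 1000, nat_lit 0, nat_lit 0, nat_lit 0, nat_lit 0, nat_lit 0, nat_lit 0, nat_lit 0, nat_lit 0, nat_lit 0, nat_lit 0, nat_lit 0, nat_lit 0, nat_lit 0, nat_lit 0, nat_lit 0, false, false⟩,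
 nat_lit 0, nat_lit 18234, nat_lit 0, nat_lit 0, nat_lit 9464, nat_lit 8453, nat_lit 0, nat_lit 0, nat_lit 0, nat_lit 0, nat_lit 0, nat_lit 0, nat_lit 0, nat_lit 0, nat_lit 0, nat_lit 0, nat_lit 0, nat_lit 0, [],
 ⟨p006_k24, nat_lit 0, nat_lit 0, nat_lit 264, nat_lit 0, nat_lit 10023, [nat_lit 6250000000, nat_lit 7968000001, nat_lit 9842000000], [], [nat_lit 30676662537, nat_lit 30742435519, nat_lit 30150563901, nat_lit 30216378478], nat_lit 1271250, nat_lit 1271250, nat_lit 88400, nat_lit 111251, nat_lit 0, nat_lit 0, [nat_lit 1412500, nat_lit 1271250, nat_lit 1271250], [nat_lit 25, nat_lit 40, nat_lit 20, nat_lit 80, nat_lit 17, nat_lit 289, nat_lit 75, nat_lit 9]⟩, ⟨p006_k29, nat_lit 0, nat_lit 0, nat_lit 0, nat_lit 0, nat_lit 0, [nat_lit 5449500000, nat_lit 7089500000, nat_lit 8885500000], [], [nat_lit 26391740983, nat_lit 26462515391, nat_lit 25926330230, nat_lit 25997123125], nat_lit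 0, nat_lit 0, nat_lit 0, nat_lit 0, nat_lit 0, nat_lit 0, [], [nat_lit 96, nat_lit 40, nat_lit 20, nat_lit 40]⟩,
 zbF0, []⟩
noncomputable def p006_l85 : Lf2 := ⟨nat_lit 3, nat_lit 5, [nat_lit 4, nat_lit 5, nat_lit 5, nat_lit 20], false, nat_lit 0, nat_lit 0, nat_lit 0, nat_lit 0, zbN0,
 nat_lit 0, nat_lit 0, nat_lit 0, nat_lit 0, nat_lit 0, nat_lit 0, nat_lit 0, nat_lit 0, nat_lit 0, nat_lit 0, nat_lit 0, nat_lit 0, nat_lit 0, nat_lit 0, nat_lit 0, nat_lit 0, nat_lit 0, nat_lit 0, [],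
 C1.Rw.none, ⟨p006_k28, nat_lit 0, nat_lit 0, nat_lit 204, nat_lit 0, nat_lit 0, [], [], [], nat_lit 0, nat_lit 0, nat_lit 0, nat_lit 0, nat_lit 0, nat_lit 0, [], [nat_lit 51, nat_lit 40, nat_lit 20, nat_lit 80, nat_lit 1, nat_lit 289, nat_lit 75, nat_lit 9]⟩,
 zbF0, []⟩
noncomputable def p006_l86 : Lf2 := ⟨nat_lit 0, nat_lit 5, [nat_lit 4, nat_lit 5, nat_lit 5, nat_lit 20], false, nat_lit 0, nat_lit 0, nat_lit 0, nat_lit 0, ⟨nat_lit 1000, nat_lit 0, nat_lit 0, nat_lit 0, nat_lit 0, nat_lit 0, nat_lit 0, nat_lit 0, nat_lit 0, nat_lit 0, nat_lit 0, nat_lit 0, nat_lit 0, nat_lit 0, nat_lit 0, nat_lit 0, false, false⟩,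
 nat_lit 0, nat_lit 18112, nat_lit 0, nat_lit 0, nat_lit 9447, nat_lit 8453, nat_lit 0, nat_lit 0, nat_lit 0, nat_lit 0, nat_lit 0, nat_lit 0, nat_lit 0, nat_lit 0, nat_lit 0, nat_lit 0, nat_lit 0, nat_lit 0, [],
 ⟨p006_k20, nat_lit 0, nat_lit 0, nat_lit 264, nat_lit 0, nat_lit 13851, [nat_lit 6250000000, nat_lit 7968000001, nat_lit 9842000000], [], [nat_lit 30749210552, nat_lit 30814920025, nat_lit 30224180783, nat_lit 30289931717], nat_lit 1271250, nat_lit 1271250, nat_lit 88400, nat_lit 111251, nat_lit 0, nat_lit 0, [nat_lit 1412500, nat_lit 1271250, nat_lit 1271250], [nat_lit 25, nat_lit 40, nat_lit 20, nat_lit 80, nat_lit 17, nat_lit 289, nat_lit 75, nat_lit 9]⟩, ⟨p006_k29, nat_lit 0, nat_lit 0, nat_lit 0, nat_lit 0, nat_lit 0, [nat_lit 5449500000, nat_lit 7089500000, nat_lit 8885500000], [], [nat_lit 26391740983, nat_lit 26462515391, nat_lit 25926330230, nat_lit 25997123125], nat_lit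 0, nat_lit 0, nat_lit 0, nat_lit 0, nat_lit 0, nat_lit 0, [], [nat_lit 96, nat_lit 40, nat_lit 20, nat_lit 40]⟩,
 zbF0, []⟩
noncomputable def p006_l87 : Lf2 := ⟨nat_lit 3, nat_lit 5, [nat_lit 4, nat_lit 5, nat_lit 5, nat_lit 20], false, nat_lit 0, nat_lit 0, nat_lit 0, nat_lit 0, zbN0,
 nat_lit 0, nat_lit 0, nat_lit 0, nat_lit 0, nat_lit 0, nat_lit 0, nat_lit 0, nat_lit 0, nat_lit 0, nat_lit 0, nat_lit 0, nat_lit 0, nat_lit 0, nat_lit 0, nat_lit 0, nat_lit 0, nat_lit 0, nat_lit 0, [],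
 C1.Rw.none, ⟨p006_k28, nat_lit 0, nat_lit 0, nat_lit 204, nat_lit 0, nat_lit 0, [], [], [], nat_lit 0, nat_lit 0, nat_lit 0, nat_lit 0, nat_lit 0, nat_lit 0, [], [nat_lit 51, nat_lit 40, nat_lit 20, nat_lit 80, nat_lit 1, nat_lit 289, nat_lit 75, nat_lit 9]⟩,
 zbF0, []⟩
noncomputable def p006_l88 : Lf2 := ⟨nat_lit 0, nat_lit 5, [nat_lit 4, nat_lit 5, nat_lit 5, nat_lit 20], true, nat_lit 0, nat_lit 0, nat_lit 0, nat_lit 0, ⟨nat_lit 0, nat_lit 0, nat_lit 1000, nat_lit 5, nat_lit 65, nat_lit 0, nat_lit 0, nat_lit 0, nat_lit 0, nat_lit 215, nat_lit 38400, nat_lit 263, nat_lit 65301814, nat_lit 0, nat_lit 0, nat_lit 590827, false, false⟩,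
 nat_lit 0, nat_lit 9108, nat_lit 0, nat_lit 0, nat_lit 4774, nat_lit 0, nat_lit 0, nat_lit 0, nat_lit 0, nat_lit 0, nat_lit 0, nat_lit 0, nat_lit 0, nat_lit 0, nat_lit 54, nat_lit 400000, nat_lit 0, nat_lit 0, [(nat_lit 3, [(nat_lit 5, nat_lit 1000)])],
 ⟨p006_k30, nat_lit 0, nat_lit 0, nat_lit 0, nat_lit 0, nat_lit 17641, [nat_lit 2385360001, nat_lit 965600001, nat_lit 151199999], [], [nat_lit 14617352904, nat_lit 14671129450, nat_lit 14375102269, nat_lit 14428873535], nat_lit 1271250, nat_lit 1271250, nat_lit 88400, nat_lit 111251, nat_lit 0, nat_lit 0, [nat_lit 1271250, nat_lit 1271250, nat_lit 1271250], [nat_lit 96, nat_lit 40, nat_lit 20, nat_lit 40]⟩, C1.Rw.none,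
 ⟨nat_lit 6344, nat_lit 6364, ⟨.ofNat (nat_lit 156163), .ofNat (nat_lit 164427), .ofNat (nat_lit 157231), .ofNat (nat_lit 165496), .ofNat (nat_lit 157036), .ofNat (nat_lit 165282), .ofNat (nat_lit 158105), .ofNat (nat_lit 166350)⟩, ⟨.ofNat (nat_lit 0), .ofNat (nat_lit 0), .ofNat (nat_lit 0), .ofNat (nat_lit 0), .ofNat (nat_lit 0), .ofNat (nat_lit 0), .ofNat (nat_lit 0), .ofNat (nat_lit 0)⟩⟩, []⟩
noncomputable def p006_l89 : Lf2 := ⟨nat_lit 2, nat_lit 5, [nat_lit 4, nat_lit 5, nat_lit 5, nat_lit 20], true, nat_lit 0, nat_lit 0, nat_lit 0, nat_lit 0, zbN0,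
 nat_lit 0, nat_lit 0, nat_lit 0, nat_lit 0, nat_lit 0, nat_lit 0, nat_lit 0, nat_lit 0, nat_lit 0, nat_lit 0, nat_lit 0, nat_lit 0, nat_lit 0, nat_lit 0, nat_lit 0, nat_lit 0, nat_lit 0, nat_lit 0, [],
 ⟨p006_k31, nat_lit 0, nat_lit 0, nat_lit 264, nat_lit 0, nat_lit 17641, [], [], [], nat_lit 1271250, nat_lit 1271250, nat_lit 88400, nat_lit 111251, nat_lit 0, nat_lit 0, [nat_lit 1412500, nat_lit 1271250], [nat_lit 51, nat_lit 40, nat_lit 20, nat_lit 80, nat_lit 1, nat_lit 289, nat_lit 75, nat_lit 9]⟩, C1.Rw.none,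
 zbF0, []⟩
noncomputable def p006_l90 : Lf2 := ⟨nat_lit 3, nat_lit 5, [nat_lit 4, nat_lit 5, nat_lit 5, nat_lit 20], false, nat_lit 0, nat_lit 0, nat_lit 0, nat_lit 0, zbN0,
 nat_lit 0, nat_lit 0, nat_lit 0, nat_lit 0, nat_lit 0, nat_lit 0, nat_lit 0, nat_lit 0, nat_lit 0, nat_lit 0, nat_lit 0, nat_lit 0, nat_lit 0, nat_lit 0, nat_lit 0, nat_lit 0, nat_lit 0, nat_lit 0, [],
 C1.Rw.none, ⟨p006_k28, nat_lit 0, nat_lit 0, nat_lit 204, nat_lit 0, nat_lit 0, [], [], [], nat_lit 0, nat_lit 0, nat_lit 0, nat_lit 0, nat_lit 0, nat_lit 0, [], [nat_lit 51, nat_lit 40, nat_lit 20, nat_lit 80, nat_lit 1, nat_lit 289, nat_lit 75, nat_lit 9]⟩,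
 zbF0, []⟩
noncomputable def p006_l91 : Lf2 := ⟨nat_lit 0, nat_lit 5, [nat_lit 4, nat_lit 5, nat_lit 5, nat_lit 20], true, nat_lit 0, nat_lit 0, nat_lit 0, nat_lit 0, ⟨nat_lit 0, nat_lit 0, nat_lit 1000, nat_lit 5, nat_lit 65, nat_lit 0, nat_lit 0, nat_lit 0, nat_lit 0, nat_lit 215, nat_lit 40017, nat_lit 264, nat_lit 65284051, nat_lit 0, nat_lit 0, nat_lit 595659, false, false⟩,
 nat_lit 0, nat_lit 9046, nat_lit 0, nat_lit 0, nat_lit 4765, nat_lit 0, nat_lit 0, nat_lit 0, nat_lit 0, nat_lit 0, nat_lit 0, nat_lit 0, nat_lit 0, nat_lit 0, nat_lit 54, nat_lit 400000, nat_lit 0, nat_lit 0, [(nat_lit 3, [(nat_lit 5, nat_lit 1000)])],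
 ⟨p006_k32, nat_lit 0, nat_lit 0, nat_lit 0, nat_lit 0, nat_lit 21393, [nat_lit 2385360001, nat_lit 965600001, nat_lit 151199999], [], [nat_lit 14676266609, nat_lit 14730001572, nat_lit 14434556375, nat_lit 14488286000], nat_lit 1271250, nat_lit 1271250, nat_lit 88400, nat_lit 111251, nat_lit 0, nat_lit 0, [nat_lit 1271250, nat_lit 1271250, nat_lit 1271250], [nat_lit 96, nat_lit 40, nat_lit 20, nat_lit 40]⟩, C1.Rw.none,
 ⟨nat_lit 6324, nat_lit 6345, ⟨.ofNat (nat_lit 157036), .ofNat (nat_lit 165282), .ofNat (nat_lit 158105), .ofNat (nat_lit 166350), .ofNat (nat_lit 157908), .ofNat (nat_lit 166135), .ofNat (nat_lit 158977), .ofNat (nat_lit 167203)⟩, ⟨.ofNat (nat_lit 0), .ofNat (nat_lit 0), .ofNat (nat_lit 0), .ofNat (nat_lit 0), .ofNat (nat_lit 0), .ofNat (nat_lit 0), .ofNat (nat_lit 0), .ofNat (nat_lit 0)⟩⟩, []⟩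
noncomputable def p006_l92 : Lf2 := ⟨nat_lit 2, nat_lit 5, [nat_lit 4, nat_lit 5, nat_lit 5, nat_lit 20], true, nat_lit 0, nat_lit 0, nat_lit 0, nat_lit 0, zbN0,
 nat_lit 0, nat_lit 0, nat_lit 0, nat_lit 0, nat_lit 0, nat_lit 0, nat_lit 0, nat_lit 0, nat_lit 0, nat_lit 0, nat_lit 0, nat_lit 0, nat_lit 0, nat_lit 0, nat_lit 0, nat_lit 0, nat_lit 0, nat_lit 0, [],
 ⟨p006_k18, nat_lit 0, nat_lit 0, nat_lit 281, nat_lit 0, nat_lit 21393, [], [], [], nat_lit 1271250, nat_lit 1271250, nat_lit 88400, nat_lit 111251, nat_lit 0, nat_lit 0, [nat_lit 1412500, nat_lit 1271250, nat_lit 1271250], [nat_lit 25, nat_lit 40, nat_lit 20, nat_lit 80, nat_lit 17, nat_lit 289, nat_lit 75, nat_lit 9]⟩, C1.Rw.none,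
 zbF0, []⟩
noncomputable def p006_l93 : Lf2 := ⟨nat_lit 3, nat_lit 5, [nat_lit 4, nat_lit 5, nat_lit 5, nat_lit 20], false, nat_lit 0, nat_lit 0, nat_lit 0, nat_lit 0, zbN0,
 nat_lit 0, nat_lit 0, nat_lit 0, nat_lit 0, nat_lit 0, nat_lit 0, nat_lit 0, nat_lit 0, nat_lit 0, nat_lit 0, nat_lit 0, nat_lit 0, nat_lit 0, nat_lit 0, nat_lit 0, nat_lit 0, nat_lit 0, nat_lit 0, [],
 C1.Rw.none, ⟨p006_k28, nat_lit 0, nat_lit 0, nat_lit 204, nat_lit 0, nat_lit 0, [], [], [], nat_lit 0, nat_lit 0, nat_lit 0, nat_lit 0, nat_lit 0, nat_lit 0, [], [nat_lit 51, nat_lit 40, nat_lit 20, nat_lit 80, nat_lit 1, nat_lit 289, nat_lit 75, nat_lit 9]⟩,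
 zbF0, []⟩
noncomputable def p006_l94 : Lf2 := ⟨nat_lit 1, nat_lit 5, [nat_lit 4, nat_lit 5, nat_lit 5, nat_lit 20], false, nat_lit 0, nat_lit 0, nat_lit 0, nat_lit 0, zbN0,
 nat_lit 0, nat_lit 0, nat_lit 0, nat_lit 0, nat_lit 0, nat_lit 0, nat_lit 0, nat_lit 0, nat_lit 0, nat_lit 0, nat_lit 0, nat_lit 0, nat_lit 0, nat_lit 0, nat_lit 0, nat_lit 0, nat_lit 0, nat_lit 0, [],
 C1.Rw.none, C1.Rw.none,
 zbF0, []⟩
noncomputable def p006_l95 : Lf2 := ⟨nat_lit 0, nat_lit 5, [nat_lit 4, nat_lit 5, nat_lit 5, nat_lit 20], true, nat_lit 0, nat_lit 0, nat_lit 0, nat_lit 0, ⟨nat_lit 0, nat_lit 0, nat_lit 1000, nat_lit 5, nat_lit 72, nat_lit 0, nat_lit 0, nat_lit 0, nat_lit 0, nat_lit 215, nat_lit 48600, nat_lit 269, nat_lit 64873852, nat_lit 0, nat_lit 0, nat_lit 703565, false, false⟩,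
 nat_lit 0, nat_lit 10601, nat_lit 0, nat_lit 0, nat_lit 5339, nat_lit 0, nat_lit 0, nat_lit 0, nat_lit 0, nat_lit 0, nat_lit 0, nat_lit 0, nat_lit 0, nat_lit 0, nat_lit 60, nat_lit 400000, nat_lit 0, nat_lit 0, [(nat_lit 3, [(nat_lit 5, nat_lit 1000)])],
 ⟨p006_k33, nat_lit 0, nat_lit 0, nat_lit 266, nat_lit 0, nat_lit 22894, [nat_lit 2770400000, nat_lit 702400001, nat_lit 2000000], [], [nat_lit 15557382065, nat_lit 16061100208, nat_lit 14752004362, nat_lit 15251613652], nat_lit 1271250, nat_lit 1271250, nat_lit 111251, nat_lit 230001, nat_lit 0, nat_lit 0, [nat_lit 1412500, nat_lit 1271250, nat_lit 1271250], [nat_lit 25, nat_lit 40, nat_lit 20, nat_lit 80, nat_lit 17, nat_lit 289, nat_lit 75, nat_lit 9]⟩, C1.Rw.none,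
 ⟨nat_lit 6324, nat_lit 6520, ⟨.ofNat (nat_lit 153250), .ofNat (nat_lit 195344), .ofNat (nat_lit 158599), .ofNat (nat_lit 200693), .ofNat (nat_lit 161861), .ofNat (nat_lit 202993), .ofNat (nat_lit 167203), .ofNat (nat_lit 208335)⟩, ⟨.ofNat (nat_lit 0), .ofNat (nat_lit 0), .ofNat (nat_lit 0), .ofNat (nat_lit 0), .ofNat (nat_lit 0), .ofNat (nat_lit 0), .ofNat (nat_lit 0), .ofNat (nat_lit 0)⟩⟩, []⟩
noncomputable def p006_l96 : Lf2 := ⟨nat_lit 0, nat_lit 5, [nat_lit 4, nat_lit 5, nat_lit 5, nat_lit 20], false, nat_lit 0, nat_lit 0, nat_lit 0, nat_lit 0, ⟨nat_lit 1000, nat_lit 0, nat_lit 0, nat_lit 0, nat_lit 0, nat_lit 0, nat_lit 0, nat_lit 0, nat_lit 0, nat_lit 0, nat_lit 0, nat_lit 0, nat_lit 0, nat_lit 0, nat_lit 0, nat_lit 0, false, false⟩,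
 nat_lit 0, nat_lit 18157, nat_lit 0, nat_lit 0, nat_lit 9377, nat_lit 4285, nat_lit 0, nat_lit 0, nat_lit 0, nat_lit 0, nat_lit 0, nat_lit 0, nat_lit 0, nat_lit 0, nat_lit 0, nat_lit 0, nat_lit 0, nat_lit 0, [],
 ⟨p006_k14, nat_lit 0, nat_lit 0, nat_lit 298, nat_lit 0, nat_lit 44951, [nat_lit 6250000000, nat_lit 7968000001, nat_lit 9842000000], [], [nat_lit 31167093444, nat_lit 31586058745, nat_lit 28467331701, nat_lit 28792061436], nat_lit 1271250, nat_lit 1271250, nat_lit 65850, nat_lit 230001, nat_lit 0, nat_lit 0, [nat_lit 1412500, nat_lit 1271250, nat_lit 1271250], [nat_lit 25, nat_lit 40, nat_lit 20, nat_lit 80, nat_lit 17, nat_lit 289, nat_lit 75, nat_lit 9]⟩, ⟨p006_k11, nat_lit 0, nat_lit 0, nat_lit 0, nat_lit 0, nat_lit 0, [nat_lit 2637500000, nat_lit 5449500000, nat_lit 7089500000, nat_lit 8885500000], [], [nat_lit 24576307137, nat_lit 24881027832, nat_lit 23542145120, nat_lit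 23830913100], nat_lit 0, nat_lit 0, nat_lit 0, nat_lit 0, nat_lit 0, nat_lit 0, [], [nat_lit 117, nat_lit 40, nat_lit 20, nat_lit 40]⟩,
 zbF0, [⟨nat_lit 0, nat_lit 100, nat_lit 100, nat_lit 37, nat_lit 127944137⟩, ⟨nat_lit 0, nat_lit 100, nat_lit 100, nat_lit 35, nat_lit 1345551854⟩]⟩
noncomputable def p006_l97 : Lf2 := ⟨nat_lit 3, nat_lit 5, [nat_lit 4, nat_lit 5, nat_lit 5, nat_lit 20], false, nat_lit 0, nat_lit 0, nat_lit 0, nat_lit 0, zbN0,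
 nat_lit 0, nat_lit 0, nat_lit 0, nat_lit 0, nat_lit 0, nat_lit 0, nat_lit 0, nat_lit 0, nat_lit 0, nat_lit 0, nat_lit 0, nat_lit 0, nat_lit 0, nat_lit 0, nat_lit 0, nat_lit 0, nat_lit 0, nat_lit 0, [],
 C1.Rw.none, ⟨p006_k34, nat_lit 0, nat_lit 0, nat_lit 212, nat_lit 0, nat_lit 0, [], [], [], nat_lit 0, nat_lit 0, nat_lit 0, nat_lit 0, nat_lit 0, nat_lit 0, [], [nat_lit 51, nat_lit 40, nat_lit 20, nat_lit 80, nat_lit 1, nat_lit 289, nat_lit 75, nat_lit 9]⟩,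
 zbF0, []⟩
noncomputable def b_NL_550_550_0_21 : St := ⟨false, nat_lit 1, nat_lit 0, nat_lit 1, nat_lit 20, nat_lit 230, nat_lit 240, nat_lit 220, nat_lit 240, nat_lit 4, nat_lit 40, nat_lit 0, nat_lit 0, nat_lit 0, nat_lit 0, nat_lit 0, nat_lit 0, nat_lit 20, nat_lit 40, nat_lit 0, nat_lit 0, nat_lit 0, nat_lit 0⟩
theorem d_NL_550_550_0_21 (h : EB TB.env) : Dead b_NL_550_550_0_21 := chkB_sound0 h (T :=
(.spl (nat_lit 6) (nat_lit 32)
(.spl (nat_lit 8) (nat_lit 800)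
(.spl (nat_lit 7) (nat_lit 600)
(.spl (nat_lit 1) (nat_lit 230)
(.leaf p006_l42)
(.trZ (nat_lit 0) (nat_lit 100) (nat_lit 100) (nat_lit 30) (nat_lit 8) (.spl (nat_lit 0) (nat_lit 235)
(.ord (.spl (nat_lit 0) (nat_lit 233)
(.ord (.leaf p006_l43))
(.leaf p006_l44)))
(.leaf p006_l45))))
(.leaf p006_l46))
(.leaf p006_l47))
(.spl (nat_lit 1) (nat_lit 230)
(.leaf p006_l48)
(.trZ (nat_lit 0) (nat_lit 100) (nat_lit 100) (nat_lit 30) (nat_lit 8) (.spl (nat_lit 1) (nat_lit 235)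
(.spl (nat_lit 2) (nat_lit 20)
(.spl (nat_lit 0) (nat_lit 235)
(.leaf p006_l49)
(.spl (nat_lit 6) (nat_lit 36)
(.spl (nat_lit 2) (nat_lit 16)
(.spl (nat_lit 2) (nat_lit 12)
(.leaf p006_l50)
(.spl (nat_lit 1) (nat_lit 233)
(.spl (nat_lit 1) (nat_lit 232)
(.spl (nat_lit 0) (nat_lit 238)
(.leaf p006_l51)
(.spl (nat_lit 0) (nat_lit 239)
(.spl (nat_lit 1) (nat_lit 231)
(.leaf p006_l52)
(.spl (nat_lit 8) (nat_lit 800)
(.leaf p006_l53)
(.leaf p006_l54)))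
(.spl (nat_lit 1) (nat_lit 231)
(.leaf p006_l55)
(.spl (nat_lit 8) (nat_lit 800)
(.spl (nat_lit 7) (nat_lit 600)
(.leaf p006_l56)
(.leaf p006_l57))
(.leaf p006_l58)))))
(.spl (nat_lit 0) (nat_lit 238)
(.spl (nat_lit 0) (nat_lit 237)
(.leaf p006_l59)
(.spl (nat_lit 8) (nat_lit 800)
(.leaf p006_l60)
(.leaf p006_l61)))
(.spl (nat_lit 0) (nat_lit 239)
(.spl (nat_lit 8) (nat_lit 800)
(.spl (nat_lit 7) (nat_lit 600)
(.leaf p006_l62)
(.leaf p006_l63))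
(.leaf p006_l64))
(.spl (nat_lit 8) (nat_lit 800)
(.leaf p006_l65)
(.leaf p006_l66)))))
(.spl (nat_lit 1) (nat_lit 234)
(.spl (nat_lit 0) (nat_lit 238)
(.spl (nat_lit 0) (nat_lit 237)
(.spl (nat_lit 0) (nat_lit 236)
(.leaf p006_l67)
(.spl (nat_lit 8) (nat_lit 800)
(.leaf p006_l68)
(.leaf p006_l69)))
(.spl (nat_lit 8) (nat_lit 800)
(.spl (nat_lit 7) (nat_lit 600)
(.leaf p006_l70)
(.leaf p006_l71))
(.leaf p006_l72)))
(.spl (nat_lit 0) (nat_lit 239)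
(.spl (nat_lit 8) (nat_lit 800)
(.spl (nat_lit 7) (nat_lit 600)
(.leaf p006_l73)
(.leaf p006_l74))
(.leaf p006_l75))
(.spl (nat_lit 8) (nat_lit 800)
(.leaf p006_l76)
(.leaf p006_l77))))
(.spl (nat_lit 8) (nat_lit 800)
(.spl (nat_lit 7) (nat_lit 600)
(.leaf p006_l78)
(.leaf p006_l79))
(.leaf p006_l80)))))
(.spl (nat_lit 1) (nat_lit 233)
(.leaf p006_l81)
(.spl (nat_lit 1) (nat_lit 234)
(.leaf p006_l82)
(.spl (nat_lit 0) (nat_lit 238)
(.spl (nat_lit 0) (nat_lit 237)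
(.spl (nat_lit 0) (nat_lit 236)
(.leaf p006_l83)
(.spl (nat_lit 8) (nat_lit 800)
(.leaf p006_l84)
(.leaf p006_l85)))
(.spl (nat_lit 8) (nat_lit 800)
(.leaf p006_l86)
(.leaf p006_l87)))
(.spl (nat_lit 0) (nat_lit 239)
(.spl (nat_lit 8) (nat_lit 800)
(.spl (nat_lit 7) (nat_lit 600)
(.leaf p006_l88)
(.leaf p006_l89))
(.leaf p006_l90))
(.spl (nat_lit 8) (nat_lit 800)
(.spl (nat_lit 7) (nat_lit 600)
(.leaf p006_l91)
(.leaf p006_l92))
(.leaf p006_l93)))))))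
(.leaf p006_l94)))
(.leaf p006_l95))
(.ord (.trZ (nat_lit 0) (nat_lit 100) (nat_lit 100) (nat_lit 35) (nat_lit 12) (.spl (nat_lit 8) (nat_lit 800)
(.leaf p006_l96)
(.leaf p006_l97))))))))) (by decide +kernel)
noncomputable def p006_l98 : Lf2 := ⟨nat_lit 0, nat_lit 2, [nat_lit 10, nat_lit 5, nat_lit 5, nat_lit 20], true, nat_lit 0, nat_lit 0, nat_lit 0, nat_lit 0, ⟨nat_lit 0, nat_lit 0, nat_lit 1000, nat_lit 5, nat_lit 63, nat_lit 0, nat_lit 0, nat_lit 0, nat_lit 0, nat_lit 215, nat_lit 36817, nat_lit 262, nat_lit 65380838, nat_lit 0, nat_lit 0, nat_lit 569159, false, false⟩,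
 nat_lit 0, nat_lit 1059, nat_lit 0, nat_lit 0, nat_lit 506, nat_lit 0, nat_lit 0, nat_lit 0, nat_lit 252, nat_lit 0, nat_lit 0, nat_lit 0, nat_lit 0, nat_lit 13369779337626, nat_lit 31, nat_lit 400000, nat_lit 0, nat_lit 0, [(nat_lit 3, [(nat_lit 5, nat_lit 1000)])],
 ⟨p006_k35, nat_lit 0, nat_lit 0, nat_lit 0, nat_lit 0, nat_lit 367979, [nat_lit 1356666667, nat_lit 998533334, nat_lit 6400000], [], [nat_lit 5852477948, nat_lit 6548122711, nat_lit 6629827875, nat_lit 6887709473], nat_lit 1271250, nat_lit 1271250, nat_lit 21650, nat_lit 230001, nat_lit 0, nat_lit 0, [nat_lit 780000, nat_lit 1435000, nat_lit 1271250], [nat_lit 18, nat_lit 40, nat_lit 20, nat_lit 80]⟩, C1.Rw.none,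
 ⟨nat_lit 6324, nat_lit 6709, ⟨.ofNat (nat_lit 99275), .ofNat (nat_lit 176815), .ofNat (nat_lit 120713), .ofNat (nat_lit 198253), .ofNat (nat_lit 118272), .ofNat (nat_lit 192309), .ofNat (nat_lit 139640), .ofNat (nat_lit 213677)⟩, ⟨.ofNat (nat_lit 0), .ofNat (nat_lit 0), .ofNat (nat_lit 0), .ofNat (nat_lit 0), .ofNat (nat_lit 0), .ofNat (nat_lit 0), .ofNat (nat_lit 0), .ofNat (nat_lit 0)⟩⟩, [⟨nat_lit 0, nat_lit 100, nat_lit 100, nat_lit 30, nat_lit 8231407⟩]⟩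
noncomputable def p006_l99 : Lf2 := ⟨nat_lit 0, nat_lit 2, [nat_lit 10, nat_lit 5, nat_lit 5, nat_lit 20], true, nat_lit 0, nat_lit 0, nat_lit 0, nat_lit 0, ⟨nat_lit 0, nat_lit 0, nat_lit 1000, nat_lit 5, nat_lit 56, nat_lit 0, nat_lit 0, nat_lit 0, nat_lit 0, nat_lit 215, nat_lit 29400, nat_lit 257, nat_lit 65694484, nat_lit 0, nat_lit 0, nat_lit 480090, false, false⟩,
 nat_lit 0, nat_lit 17124, nat_lit 0, nat_lit 0, nat_lit 8189, nat_lit 0, nat_lit 2851, nat_lit 0, nat_lit 0, nat_lit 0, nat_lit 0, nat_lit 0, nat_lit 0, nat_lit 36706541768605, nat_lit 26, nat_lit 250000, nat_lit 0, nat_lit 0, [(nat_lit 3, [(nat_lit 4, nat_lit 1000)])],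
 ⟨p006_k35, nat_lit 0, nat_lit 0, nat_lit 0, nat_lit 0, nat_lit 225492, [nat_lit 2371200000, nat_lit 719200001, nat_lit 93599999], [], [nat_lit 10002281106, nat_lit 9409533554, nat_lit 9928517512, nat_lit 9288819856], nat_lit 1271250, nat_lit 1271250, nat_lit 21650, nat_lit 230001, nat_lit 0, nat_lit 0, [nat_lit 780000, nat_lit 1435000, nat_lit 1271250], [nat_lit 18, nat_lit 40, nat_lit 20, nat_lit 80]⟩, C1.Rw.none,
 ⟨nat_lit 6652, nat_lit 6709, ⟨.ofNat (nat_lit 99275), .ofNat (nat_lit 176815), .ofNat (nat_lit 102491), .ofNat (nat_lit 180031), .ofNat (nat_lit 102178), .ofNat (nat_lit 179182), .ofNat (nat_lit 105392), .ofNat (nat_lit 182396)⟩, ⟨.ofNat (nat_lit 0), .ofNat (nat_lit 0), .ofNat (nat_lit 0), .ofNat (nat_lit 0), .ofNat (nat_lit 0), .ofNat (nat_lit 0), .ofNat (nat_lit 0), .ofNat (nat_lit 0)⟩⟩, [⟨nat_lit 0, nat_lit 100, nat_lit 100, nat_lit 23, nat_lit 121355061⟩]⟩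
noncomputable def p006_l100 : Lf2 := ⟨nat_lit 0, nat_lit 1, [nat_lit 19, nat_lit 5, nat_lit 5, nat_lit 20], true, nat_lit 0, nat_lit 0, nat_lit 0, nat_lit 0, ⟨nat_lit 0, nat_lit 0, nat_lit 1000, nat_lit 5, nat_lit 58, nat_lit 0, nat_lit 0, nat_lit 0, nat_lit 0, nat_lit 215, nat_lit 30817, nat_lit 258, nat_lit 65634633, nat_lit 0, nat_lit 0, nat_lit 497493, false, false⟩,
 nat_lit 0, nat_lit 14996, nat_lit 0, nat_lit 0, nat_lit 7285, nat_lit 0, nat_lit 2250, nat_lit 0, nat_lit 0, nat_lit 0, nat_lit 0, nat_lit 0, nat_lit 0, nat_lit 32855574979969, nat_lit 26, nat_lit 250000, nat_lit 0, nat_lit 0, [(nat_lit 3, [(nat_lit 4, nat_lit 1000)])],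
 ⟨p006_k36, nat_lit 0, nat_lit 0, nat_lit 0, nat_lit 0, nat_lit 232922, [nat_lit 2371200000, nat_lit 719200001, nat_lit 93599999], [], [nat_lit 10563181646, nat_lit 10242142713, nat_lit 10597383993, nat_lit 10217997220], nat_lit 1271250, nat_lit 1271250, nat_lit 21650, nat_lit 230001, nat_lit 0, nat_lit 0, [nat_lit 780000, nat_lit 1435000, nat_lit 1271250], [nat_lit 18, nat_lit 40, nat_lit 20, nat_lit 80]⟩, C1.Rw.none,
 ⟨nat_lit 6614, nat_lit 6653, ⟨.ofNat (nat_lit 102178), .ofNat (nat_lit 179182), .ofNat (nat_lit 107534), .ofNat (nat_lit 184538), .ofNat (nat_lit 104102), .ofNat (nat_lit 180751), .ofNat (nat_lit 109456), .ofNat (nat_lit 186106)⟩, ⟨.ofNat (nat_lit 0), .ofNat (nat_lit 0), .ofNat (nat_lit 0), .ofNat (nat_lit 0), .ofNat (nat_lit 0), .ofNat (nat_lit 0), .ofNat (nat_lit 0), .ofNat (nat_lit 0)⟩⟩, [⟨nat_lit 0, nat_lit 100, nat_lit 100, nat_lit 25, nat_lit 106047324⟩]⟩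
noncomputable def p006_l101 : Lf2 := ⟨nat_lit 0, nat_lit 2, [nat_lit 10, nat_lit 5, nat_lit 5, nat_lit 20], true, nat_lit 0, nat_lit 0, nat_lit 0, nat_lit 0, ⟨nat_lit 0, nat_lit 0, nat_lit 1000, nat_lit 5, nat_lit 58, nat_lit 0, nat_lit 0, nat_lit 0, nat_lit 0, nat_lit 215, nat_lit 30817, nat_lit 258, nat_lit 65634633, nat_lit 0, nat_lit 0, nat_lit 497493, false, false⟩,
 nat_lit 0, nat_lit 14965, nat_lit 0, nat_lit 0, nat_lit 7270, nat_lit 0, nat_lit 2246, nat_lit 0, nat_lit 0, nat_lit 0, nat_lit 0, nat_lit 0, nat_lit 0, nat_lit 33391668219215, nat_lit 26, nat_lit 250000, nat_lit 0, nat_lit 0, [(nat_lit 3, [(nat_lit 4, nat_lit 1000)])],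
 ⟨p006_k37, nat_lit 0, nat_lit 0, nat_lit 0, nat_lit 0, nat_lit 187650, [nat_lit 2371200000, nat_lit 719200001, nat_lit 93599999], [], [nat_lit 10583248970, nat_lit 10253429012, nat_lit 10619096893, nat_lit 10240491287], nat_lit 1271250, nat_lit 1271250, nat_lit 21650, nat_lit 230001, nat_lit 0, nat_lit 0, [nat_lit 780000, nat_lit 1435000, nat_lit 1271250], [nat_lit 18, nat_lit 40, nat_lit 20, nat_lit 80]⟩, C1.Rw.none,
 ⟨nat_lit 6614, nat_lit 6653, ⟨.ofNat (nat_lit 102178), .ofNat (nat_lit 179182), .ofNat (nat_lit 107534), .ofNat (nat_lit 184538), .ofNat (nat_lit 104102), .ofNat (nat_lit 180751), .ofNat (nat_lit 109456), .ofNat (nat_lit 186106)⟩, ⟨.ofNat (nat_lit 0), .ofNat (nat_lit 0), .ofNat (nat_lit 0), .ofNat (nat_lit 0), .ofNat (nat_lit 0), .ofNat (nat_lit 0), .ofNat (nat_lit 0), .ofNat (nat_lit 0)⟩⟩, [⟨nat_lit 0, nat_lit 100, nat_lit 100, nat_lit 25, nat_lit 105819470⟩]⟩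
noncomputable def p006_l102 : Lf2 := ⟨nat_lit 0, nat_lit 2, [nat_lit 10, nat_lit 5, nat_lit 5, nat_lit 20], true, nat_lit 0, nat_lit 0, nat_lit 0, nat_lit 0, ⟨nat_lit 0, nat_lit 0, nat_lit 1000, nat_lit 5, nat_lit 45, nat_lit 0, nat_lit 0, nat_lit 0, nat_lit 0, nat_lit 215, nat_lit 19267, nat_lit 249, nat_lit 66149369, nat_lit 0, nat_lit 0, nat_lit 340126, false, false⟩,
 nat_lit 0, nat_lit 11588, nat_lit 0, nat_lit 0, nat_lit 5688, nat_lit 0, nat_lit 812, nat_lit 0, nat_lit 0, nat_lit 0, nat_lit 0, nat_lit 0, nat_lit 0, nat_lit 0, nat_lit 53, nat_lit 1000000, nat_lit 0, nat_lit 0, [(nat_lit 3, [(nat_lit 6, nat_lit 1000)])],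
 ⟨p006_k38, nat_lit 0, nat_lit 0, nat_lit 0, nat_lit 0, nat_lit 255454, [nat_lit 1559200001, nat_lit 1418400001, nat_lit 13599999], [], [nat_lit 11782399299, nat_lit 12077554937, nat_lit 11571004348, nat_lit 11782102255], nat_lit 1271250, nat_lit 1271250, nat_lit 21650, nat_lit 43600, nat_lit 0, nat_lit 0, [nat_lit 780000, nat_lit 1435000, nat_lit 1271250], [nat_lit 18, nat_lit 40, nat_lit 20, nat_lit 80]⟩, C1.Rw.none,
 ⟨nat_lit 6519, nat_lit 6615, ⟨.ofNat (nat_lit 104102), .ofNat (nat_lit 112619), .ofNat (nat_lit 109456), .ofNat (nat_lit 117973), .ofNat (nat_lit 108876), .ofNat (nat_lit 117294), .ofNat (nat_lit 114225), .ofNat (nat_lit 122644)⟩, ⟨.ofNat (nat_lit 0), .ofNat (nat_lit 0), .ofNat (nat_lit 0), .ofNat (nat_lit 0), .ofNat (nat_lit 0), .ofNat (nat_lit 0), .ofNat (nat_lit 0), .ofNat (nat_lit 0)⟩⟩, [⟨nat_lit 0, nat_lit 100, nat_lit 100, nat_lit 27, nat_lit 473406424⟩]⟩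
noncomputable def p006_l103 : Lf2 := ⟨nat_lit 0, nat_lit 2, [nat_lit 10, nat_lit 5, nat_lit 5, nat_lit 20], true, nat_lit 0, nat_lit 0, nat_lit 0, nat_lit 0, ⟨nat_lit 0, nat_lit 0, nat_lit 1000, nat_lit 5, nat_lit 50, nat_lit 0, nat_lit 0, nat_lit 0, nat_lit 0, nat_lit 215, nat_lit 24067, nat_lit 253, nat_lit 65951291, nat_lit 0, nat_lit 0, nat_lit 402904, false, false⟩,
 nat_lit 0, nat_lit 11228, nat_lit 0, nat_lit 0, nat_lit 5511, nat_lit 0, nat_lit 776, nat_lit 0, nat_lit 0, nat_lit 0, nat_lit 0, nat_lit 0, nat_lit 0, nat_lit 0, nat_lit 53, nat_lit 1000000, nat_lit 0, nat_lit 0, [(nat_lit 3, [(nat_lit 6, nat_lit 1000)])],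
 ⟨p006_k38, nat_lit 0, nat_lit 0, nat_lit 0, nat_lit 0, nat_lit 255454, [nat_lit 1559200001, nat_lit 1418400001, nat_lit 13599999], [], [nat_lit 11820211127, nat_lit 11919675379, nat_lit 11828209707, nat_lit 11349982849], nat_lit 1271250, nat_lit 1271250, nat_lit 43600, nat_lit 88400, nat_lit 0, nat_lit 0, [nat_lit 780000, nat_lit 1435000, nat_lit 1271250], [nat_lit 18, nat_lit 40, nat_lit 20, nat_lit 80]⟩, C1.Rw.none,
 ⟨nat_lit 6519, nat_lit 6615, ⟨.ofNat (nat_lit 112619), .ofNat (nat_lit 129652), .ofNat (nat_lit 117973), .ofNat (nat_lit 135006), .ofNat (nat_lit 117294), .ofNat (nat_lit 134132), .ofNat (nat_lit 122644), .ofNat (nat_lit 139482)⟩, ⟨.ofNat (nat_lit 0), .ofNat (nat_lit 0), .ofNat (nat_lit 0), .ofNat (nat_lit 0), .ofNat (nat_lit 0), .ofNat (nat_lit 0), .ofNat (nat_lit 0), .ofNat (nat_lit 0)⟩⟩, []⟩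
noncomputable def p006_l104 : Lf2 := ⟨nat_lit 0, nat_lit 1, [nat_lit 19, nat_lit 5, nat_lit 5, nat_lit 20], true, nat_lit 0, nat_lit 0, nat_lit 0, nat_lit 0, ⟨nat_lit 0, nat_lit 0, nat_lit 1000, nat_lit 5, nat_lit 51, nat_lit 0, nat_lit 0, nat_lit 0, nat_lit 0, nat_lit 215, nat_lit 24067, nat_lit 253, nat_lit 65932910, nat_lit 0, nat_lit 0, nat_lit 408576, false, false⟩,
 nat_lit 0, nat_lit 5149, nat_lit 0, nat_lit 0, nat_lit 2527, nat_lit 0, nat_lit 161, nat_lit 0, nat_lit 31, nat_lit 0, nat_lit 0, nat_lit 0, nat_lit 0, nat_lit 16768993867516, nat_lit 21, nat_lit 1000000, nat_lit 0, nat_lit 0, [(nat_lit 3, [(nat_lit 6, nat_lit 1000)])],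
 ⟨p006_k39, nat_lit 0, nat_lit 0, nat_lit 0, nat_lit 0, nat_lit 269901, [nat_lit 802533334, nat_lit 1243066667, nat_lit 12000000], [], [nat_lit 12772773978, nat_lit 12993615273, nat_lit 12682372484, nat_lit 12683472853], nat_lit 1271250, nat_lit 1271250, nat_lit 21650, nat_lit 88400, nat_lit 0, nat_lit 0, [nat_lit 631250, nat_lit 1271250, nat_lit 1271250], [nat_lit 90, nat_lit 40, nat_lit 20, nat_lit 40]⟩, C1.Rw.none,
 ⟨nat_lit 6519, nat_lit 6615, ⟨.ofNat (nat_lit 109456), .ofNat (nat_lit 135006), .ofNat (nat_lit 114811), .ofNat (nat_lit 140360), .ofNat (nat_lit 114225), .ofNat (nat_lit 139482), .ofNat (nat_lit 119575), .ofNat (nat_lit 144831)⟩, ⟨.ofNat (nat_lit 0), .ofNat (nat_lit 0), .ofNat (nat_lit 0), .ofNat (nat_lit 0), .ofNat (nat_lit 0), .ofNat (nat_lit 0), .ofNat (nat_lit 0), .ofNat (nat_lit 0)⟩⟩, [⟨nat_lit 0, nat_lit 100, nat_lit 100, nat_lit 30, nat_lit 237325126⟩]⟩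
noncomputable def p006_l105 : Lf2 := ⟨nat_lit 0, nat_lit 2, [nat_lit 10, nat_lit 5, nat_lit 5, nat_lit 20], true, nat_lit 0, nat_lit 0, nat_lit 0, nat_lit 0, ⟨nat_lit 0, nat_lit 0, nat_lit 1000, nat_lit 5, nat_lit 50, nat_lit 0, nat_lit 0, nat_lit 0, nat_lit 0, nat_lit 215, nat_lit 24067, nat_lit 253, nat_lit 65965546, nat_lit 0, nat_lit 0, nat_lit 398489, false, false⟩,
 nat_lit 0, nat_lit 16334, nat_lit 0, nat_lit 0, nat_lit 8018, nat_lit 0, nat_lit 2183, nat_lit 0, nat_lit 0, nat_lit 0, nat_lit 0, nat_lit 0, nat_lit 0, nat_lit 30533709519285, nat_lit 26, nat_lit 250000, nat_lit 0, nat_lit 0, [(nat_lit 3, [(nat_lit 4, nat_lit 1000)])],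
 ⟨p006_k38, nat_lit 0, nat_lit 0, nat_lit 0, nat_lit 0, nat_lit 209951, [nat_lit 2371200000, nat_lit 719200001, nat_lit 93599999], [], [nat_lit 9723477218, nat_lit 9934341274, nat_lit 9038203363, nat_lit 8624332987], nat_lit 1271250, nat_lit 1271250, nat_lit 21650, nat_lit 88400, nat_lit 0, nat_lit 0, [nat_lit 780000, nat_lit 1435000, nat_lit 1271250], [nat_lit 18, nat_lit 40, nat_lit 20, nat_lit 80]⟩, C1.Rw.none,
 ⟨nat_lit 6557, nat_lit 6615, ⟨.ofNat (nat_lit 109456), .ofNat (nat_lit 135006), .ofNat (nat_lit 112669), .ofNat (nat_lit 138219), .ofNat (nat_lit 112324), .ofNat (nat_lit 137697), .ofNat (nat_lit 115535), .ofNat (nat_lit 140908)⟩, ⟨.ofNat (nat_lit 0), .ofNat (nat_lit 0), .ofNat (nat_lit 0), .ofNat (nat_lit 0), .ofNat (nat_lit 0), .ofNat (nat_lit 0), .ofNat (nat_lit 0), .ofNat (nat_lit 0)⟩⟩, [⟨nat_lit 0, nat_lit 100, nat_lit 100, nat_lit 27, nat_lit 652929693⟩]⟩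
noncomputable def p006_l106 : Lf2 := ⟨nat_lit 0, nat_lit 2, [nat_lit 10, nat_lit 5, nat_lit 5, nat_lit 20], true, nat_lit 0, nat_lit 0, nat_lit 0, nat_lit 0, ⟨nat_lit 0, nat_lit 0, nat_lit 1000, nat_lit 5, nat_lit 51, nat_lit 0, nat_lit 0, nat_lit 0, nat_lit 0, nat_lit 215, nat_lit 24067, nat_lit 253, nat_lit 65926398, nat_lit 0, nat_lit 0, nat_lit 410579, false, false⟩,
 nat_lit 0, nat_lit 14747, nat_lit 0, nat_lit 0, nat_lit 7352, nat_lit 0, nat_lit 1823, nat_lit 0, nat_lit 0, nat_lit 0, nat_lit 0, nat_lit 0, nat_lit 0, nat_lit 27927713359107, nat_lit 26, nat_lit 250000, nat_lit 0, nat_lit 0, [(nat_lit 3, [(nat_lit 4, nat_lit 1000)])],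
 ⟨p006_k40, nat_lit 0, nat_lit 0, nat_lit 0, nat_lit 0, nat_lit 214557, [nat_lit 2371200000, nat_lit 719200001, nat_lit 93599999], [], [nat_lit 10426974226, nat_lit 10493894460, nat_lit 9417031737, nat_lit 9305157635], nat_lit 1271250, nat_lit 1271250, nat_lit 21650, nat_lit 88400, nat_lit 0, nat_lit 0, [nat_lit 780000, nat_lit 1435000, nat_lit 1271250], [nat_lit 18, nat_lit 40, nat_lit 20, nat_lit 80]⟩, C1.Rw.none,
 ⟨nat_lit 6538, nat_lit 6558, ⟨.ofNat (nat_lit 112324), .ofNat (nat_lit 137697), .ofNat (nat_lit 116605), .ofNat (nat_lit 141978), .ofNat (nat_lit 113276), .ofNat (nat_lit 138590), .ofNat (nat_lit 117556), .ofNat (nat_lit 142871)⟩, ⟨.ofNat (nat_lit 0), .ofNat (nat_lit 0), .ofNat (nat_lit 0), .ofNat (nat_lit 0), .ofNat (nat_lit 0), .ofNat (nat_lit 0), .ofNat (nat_lit 0), .ofNat (nat_lit 0)⟩⟩, [⟨nat_lit 0, nat_lit 100, nat_lit 100, nat_lit 29, nat_lit 602507060⟩]⟩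
noncomputable def p006_l107 : Lf2 := ⟨nat_lit 0, nat_lit 2, [nat_lit 10, nat_lit 5, nat_lit 5, nat_lit 20], true, nat_lit 0, nat_lit 0, nat_lit 0, nat_lit 0, ⟨nat_lit 0, nat_lit 0, nat_lit 1000, nat_lit 5, nat_lit 52, nat_lit 0, nat_lit 0, nat_lit 0, nat_lit 0, nat_lit 215, nat_lit 25350, nat_lit 254, nat_lit 65902161, nat_lit 0, nat_lit 0, nat_lit 418010, false, false⟩,
 nat_lit 0, nat_lit 13887, nat_lit 0, nat_lit 0, nat_lit 6958, nat_lit 0, nat_lit 1689, nat_lit 0, nat_lit 0, nat_lit 0, nat_lit 0, nat_lit 0, nat_lit 0, nat_lit 26537700547601, nat_lit 26, nat_lit 250000, nat_lit 0, nat_lit 0, [(nat_lit 3, [(nat_lit 4, nat_lit 1000)])],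
 ⟨p006_k41, nat_lit 0, nat_lit 0, nat_lit 0, nat_lit 0, nat_lit 221256, [nat_lit 2371200000, nat_lit 719200001, nat_lit 93599999], [], [nat_lit 10785489543, nat_lit 10850779563, nat_lit 9832229913, nat_lit 9733485226], nat_lit 1271250, nat_lit 1271250, nat_lit 21650, nat_lit 88400, nat_lit 0, nat_lit 0, [nat_lit 780000, nat_lit 1435000, nat_lit 1271250], [nat_lit 18, nat_lit 40, nat_lit 20, nat_lit 80]⟩, C1.Rw.none,
 ⟨nat_lit 6519, nat_lit 6539, ⟨.ofNat (nat_lit 113276), .ofNat (nat_lit 138590), .ofNat (nat_lit 118626), .ofNat (nat_lit 143941), .ofNat (nat_lit 114225), .ofNat (nat_lit 139482), .ofNat (nat_lit 119575), .ofNat (nat_lit 144831)⟩, ⟨.ofNat (nat_lit 0), .ofNat (nat_lit 0), .ofNat (nat_lit 0), .ofNat (nat_lit 0), .ofNat (nat_lit 0), .ofNat (nat_lit 0), .ofNat (nat_lit 0), .ofNat (nat_lit 0)⟩⟩, [⟨nat_lit 0, nat_lit 100, nat_lit 100, nat_lit 30, nat_lit 573094639⟩]⟩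
noncomputable def p006_l108 : Lf2 := ⟨nat_lit 0, nat_lit 2, [nat_lit 10, nat_lit 5, nat_lit 5, nat_lit 20], true, nat_lit 0, nat_lit 0, nat_lit 0, nat_lit 0, ⟨nat_lit 0, nat_lit 0, nat_lit 1000, nat_lit 5, nat_lit 57, nat_lit 0, nat_lit 0, nat_lit 0, nat_lit 0, nat_lit 215, nat_lit 29400, nat_lit 257, nat_lit 65685249, nat_lit 0, nat_lit 0, nat_lit 482788, false, false⟩,
 nat_lit 0, nat_lit 10840, nat_lit 0, nat_lit 0, nat_lit 5321, nat_lit 0, nat_lit 738, nat_lit 0, nat_lit 0, nat_lit 0, nat_lit 0, nat_lit 0, nat_lit 0, nat_lit 28123808474999, nat_lit 53, nat_lit 1000000, nat_lit 0, nat_lit 0, [(nat_lit 3, [(nat_lit 6, nat_lit 1000)])],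
 ⟨p006_k38, nat_lit 0, nat_lit 0, nat_lit 0, nat_lit 0, nat_lit 275371, [nat_lit 1559200001, nat_lit 1418400001, nat_lit 13599999], [], [nat_lit 12101622234, nat_lit 11520431051, nat_lit 12119975821, nat_lit 11421956399], nat_lit 1271250, nat_lit 1271250, nat_lit 88400, nat_lit 111251, nat_lit 0, nat_lit 0, [nat_lit 780000, nat_lit 1435000, nat_lit 1271250], [nat_lit 18, nat_lit 40, nat_lit 20, nat_lit 80]⟩, C1.Rw.none,
 ⟨nat_lit 6519, nat_lit 6615, ⟨.ofNat (nat_lit 129652), .ofNat (nat_lit 138168), .ofNat (nat_lit 140360), .ofNat (nat_lit 148877), .ofNat (nat_lit 134132), .ofNat (nat_lit 142551), .ofNat (nat_lit 144831), .ofNat (nat_lit 153250)⟩, ⟨.ofNat (nat_lit 0), .ofNat (nat_lit 0), .ofNat (nat_lit 0), .ofNat (nat_lit 0), .ofNat (nat_lit 0), .ofNat (nat_lit 0), .ofNat (nat_lit 0), .ofNat (nat_lit 0)⟩⟩, []⟩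
noncomputable def p006_l109 : Lf2 := ⟨nat_lit 0, nat_lit 2, [nat_lit 10, nat_lit 5, nat_lit 5, nat_lit 20], true, nat_lit 0, nat_lit 0, nat_lit 0, nat_lit 0, ⟨nat_lit 0, nat_lit 0, nat_lit 1000, nat_lit 5, nat_lit 67, nat_lit 0, nat_lit 0, nat_lit 0, nat_lit 0, nat_lit 215, nat_lit 41667, nat_lit 265, nat_lit 65184660, nat_lit 0, nat_lit 0, nat_lit 622435, false, false⟩,
 nat_lit 0, nat_lit 15313, nat_lit 0, nat_lit 0, nat_lit 7517, nat_lit 0, nat_lit 3114, nat_lit 0, nat_lit 0, nat_lit 0, nat_lit 0, nat_lit 0, nat_lit 0, nat_lit 34802184401928, nat_lit 26, nat_lit 250000, nat_lit 0, nat_lit 0, [(nat_lit 3, [(nat_lit 4, nat_lit 1000)])],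
 ⟨p006_k38, nat_lit 0, nat_lit 0, nat_lit 0, nat_lit 0, nat_lit 275371, [nat_lit 2371200000, nat_lit 719200001, nat_lit 93599999], [], [nat_lit 9747354388, nat_lit 8825694449, nat_lit 9870088976, nat_lit 8891416919], nat_lit 1271250, nat_lit 1271250, nat_lit 111251, nat_lit 230001, nat_lit 0, nat_lit 0, [nat_lit 780000, nat_lit 1435000, nat_lit 1271250], [nat_lit 18, nat_lit 40, nat_lit 20, nat_lit 80]⟩, C1.Rw.none,
 ⟨nat_lit 6519, nat_lit 6615, ⟨.ofNat (nat_lit 138168), .ofNat (nat_lit 180751), .ofNat (nat_lit 148877), .ofNat (nat_lit 191460), .ofNat (nat_lit 142551), .ofNat (nat_lit 184645), .ofNat (nat_lit 153250), .ofNat (nat_lit 195344)⟩, ⟨.ofNat (nat_lit 0), .ofNat (nat_lit 0), .ofNat (nat_lit 0), .ofNat (nat_lit 0), .ofNat (nat_lit 0), .ofNat (nat_lit 0), .ofNat (nat_lit 0), .ofNat (nat_lit 0)⟩⟩, []⟩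
noncomputable def p006_l110 : Lf2 := ⟨nat_lit 0, nat_lit 1, [nat_lit 19, nat_lit 5, nat_lit 5, nat_lit 20], true, nat_lit 0, nat_lit 0, nat_lit 0, nat_lit 0, ⟨nat_lit 0, nat_lit 0, nat_lit 1000, nat_lit 5, nat_lit 53, nat_lit 0, nat_lit 0, nat_lit 0, nat_lit 0, nat_lit 215, nat_lit 26667, nat_lit 255, nat_lit 65829834, nat_lit 0, nat_lit 0, nat_lit 439944, false, false⟩,
 nat_lit 0, nat_lit 6885, nat_lit 0, nat_lit 0, nat_lit 3467, nat_lit 0, nat_lit 2252, nat_lit 0, nat_lit 0, nat_lit 0, nat_lit 0, nat_lit 0, nat_lit 0, nat_lit 0, nat_lit 11, nat_lit 400000, nat_lit 0, nat_lit 0, [(nat_lit 3, [(nat_lit 5, nat_lit 1000)])],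
 ⟨p006_k42, nat_lit 0, nat_lit 0, nat_lit 0, nat_lit 0, nat_lit 282769, [nat_lit 1041600001, nat_lit 837600000, nat_lit 19600000], [], [nat_lit 12592865120, nat_lit 12857450683, nat_lit 11948132931, nat_lit 12216256822], nat_lit 1271250, nat_lit 1271250, nat_lit 21650, nat_lit 111251, nat_lit 0, nat_lit 0, [nat_lit 631250, nat_lit 1271250, nat_lit 1271250], [nat_lit 90, nat_lit 40, nat_lit 20, nat_lit 40]⟩, C1.Rw.none,
 ⟨nat_lit 6422, nat_lit 6520, ⟨.ofNat (nat_lit 108876), .ofNat (nat_lit 142551), .ofNat (nat_lit 119575), .ofNat (nat_lit 153250), .ofNat (nat_lit 113598), .ofNat (nat_lit 146886), .ofNat (nat_lit 124289), .ofNat (nat_lit 157577)⟩, ⟨.ofNat (nat_lit 0), .ofNat (nat_lit 0), .ofNat (nat_lit 0), .ofNat (nat_lit 0), .ofNat (nat_lit 0), .ofNat (nat_lit 0), .ofNat (nat_lit 0), .ofNat (nat_lit 0)⟩⟩, [⟨nat_lit 0, nat_lit 100, nat_lit 99, nat_lit 29, nat_lit 312395766⟩]⟩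
noncomputable def p006_l111 : Lf2 := ⟨nat_lit 0, nat_lit 2, [nat_lit 10, nat_lit 5, nat_lit 5, nat_lit 20], true, nat_lit 0, nat_lit 0, nat_lit 0, nat_lit 0, ⟨nat_lit 0, nat_lit 0, nat_lit 1000, nat_lit 5, nat_lit 52, nat_lit 0, nat_lit 0, nat_lit 0, nat_lit 0, nat_lit 215, nat_lit 25350, nat_lit 254, nat_lit 65900960, nat_lit 0, nat_lit 0, nat_lit 418377, false, false⟩,
 nat_lit 0, nat_lit 10232, nat_lit 0, nat_lit 0, nat_lit 5153, nat_lit 0, nat_lit 981, nat_lit 0, nat_lit 0, nat_lit 0, nat_lit 0, nat_lit 0, nat_lit 0, nat_lit 0, nat_lit 31, nat_lit 400000, nat_lit 0, nat_lit 0, [(nat_lit 3, [(nat_lit 5, nat_lit 1000)])],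
 ⟨p006_k43, nat_lit 0, nat_lit 0, nat_lit 0, nat_lit 0, nat_lit 240442, [nat_lit 1356666667, nat_lit 998533334, nat_lit 6400000], [], [nat_lit 12532105900, nat_lit 12814452894, nat_lit 11768095778, nat_lit 12025043241], nat_lit 1271250, nat_lit 1271250, nat_lit 21650, nat_lit 88400, nat_lit 0, nat_lit 0, [nat_lit 780000, nat_lit 1435000, nat_lit 1271250], [nat_lit 18, nat_lit 40, nat_lit 20, nat_lit 80]⟩, C1.Rw.none,
 ⟨nat_lit 6422, nat_lit 6520, ⟨.ofNat (nat_lit 108876), .ofNat (nat_lit 134132), .ofNat (nat_lit 119575), .ofNat (nat_lit 144831), .ofNat (nat_lit 113598), .ofNat (nat_lit 138564), .ofNat (nat_lit 124289), .ofNat (nat_lit 149255)⟩, ⟨.ofNat (nat_lit 0), .ofNat (nat_lit 0), .ofNat (nat_lit 0), .ofNat (nat_lit 0), .ofNat (nat_lit 0), .ofNat (nat_lit 0), .ofNat (nat_lit 0), .ofNat (nat_lit 0)⟩⟩, [⟨nat_lit 0, nat_lit 100, nat_lit 100, nat_lit 32, nat_lit 433916784⟩]⟩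
noncomputable def p006_l112 : Lf2 := ⟨nat_lit 0, nat_lit 2, [nat_lit 10, nat_lit 5, nat_lit 5, nat_lit 20], true, nat_lit 0, nat_lit 0, nat_lit 0, nat_lit 0, ⟨nat_lit 0, nat_lit 0, nat_lit 1000, nat_lit 5, nat_lit 58, nat_lit 0, nat_lit 0, nat_lit 0, nat_lit 0, nat_lit 215, nat_lit 32267, nat_lit 259, nat_lit 65603871, nat_lit 0, nat_lit 0, nat_lit 506360, false, false⟩,
 nat_lit 0, nat_lit 12609, nat_lit 0, nat_lit 0, nat_lit 6350, nat_lit 0, nat_lit 1499, nat_lit 0, nat_lit 0, nat_lit 0, nat_lit 0, nat_lit 0, nat_lit 0, nat_lit 0, nat_lit 26, nat_lit 250000, nat_lit 0, nat_lit 0, [(nat_lit 3, [(nat_lit 4, nat_lit 1000)])],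
 ⟨p006_k43, nat_lit 0, nat_lit 0, nat_lit 0, nat_lit 0, nat_lit 240442, [nat_lit 2371200000, nat_lit 719200001, nat_lit 93599999], [], [nat_lit 10604198672, nat_lit 10626788897, nat_lit 10609698602, nat_lit 10291145227], nat_lit 1271250, nat_lit 1271250, nat_lit 88400, nat_lit 111251, nat_lit 0, nat_lit 0, [nat_lit 780000, nat_lit 1435000, nat_lit 1271250], [nat_lit 18, nat_lit 40, nat_lit 20, nat_lit 80]⟩, C1.Rw.none,
 ⟨nat_lit 6422, nat_lit 6520, ⟨.ofNat (nat_lit 134132), .ofNat (nat_lit 142551), .ofNat (nat_lit 144831), .ofNat (nat_lit 153250), .ofNat (nat_lit 138564), .ofNat (nat_lit 146886), .ofNat (nat_lit 149255), .ofNat (nat_lit 157577)⟩, ⟨.ofNat (nat_lit 0), .ofNat (nat_lit 0), .ofNat (nat_lit 0), .ofNat (nat_lit 0), .ofNat (nat_lit 0), .ofNat (nat_lit 0), .ofNat (nat_lit 0), .ofNat (nat_lit 0)⟩⟩, []⟩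
noncomputable def p006_l113 : Lf2 := ⟨nat_lit 0, nat_lit 2, [nat_lit 10, nat_lit 5, nat_lit 5, nat_lit 20], true, nat_lit 0, nat_lit 0, nat_lit 0, nat_lit 0, ⟨nat_lit 0, nat_lit 0, nat_lit 1000, nat_lit 5, nat_lit 55, nat_lit 0, nat_lit 0, nat_lit 0, nat_lit 0, nat_lit 215, nat_lit 28017, nat_lit 256, nat_lit 65750976, nat_lit 0, nat_lit 0, nat_lit 463471, false, false⟩,
 nat_lit 0, nat_lit 7087, nat_lit 0, nat_lit 0, nat_lit 3660, nat_lit 0, nat_lit 273, nat_lit 0, nat_lit 0, nat_lit 0, nat_lit 0, nat_lit 0, nat_lit 0, nat_lit 0, nat_lit 53, nat_lit 1000000, nat_lit 0, nat_lit 0, [(nat_lit 3, [(nat_lit 6, nat_lit 1000)])],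
 ⟨p006_k44, nat_lit 0, nat_lit 0, nat_lit 0, nat_lit 0, nat_lit 301556, [nat_lit 1559200001, nat_lit 1418400001, nat_lit 13599999], [], [nat_lit 13799771502, nat_lit 14070686531, nat_lit 13572728043, nat_lit 13494666723], nat_lit 1271250, nat_lit 1271250, nat_lit 21650, nat_lit 111251, nat_lit 0, nat_lit 0, [nat_lit 780000, nat_lit 1435000, nat_lit 1271250], [nat_lit 18, nat_lit 40, nat_lit 20, nat_lit 80]⟩, C1.Rw.none,
 ⟨nat_lit 6324, nat_lit 6423, ⟨.ofNat (nat_lit 113598), .ofNat (nat_lit 146886), .ofNat (nat_lit 124289), .ofNat (nat_lit 157577), .ofNat (nat_lit 118272), .ofNat (nat_lit 151177), .ofNat (nat_lit 128956), .ofNat (nat_lit 161861)⟩, ⟨.ofNat (nat_lit 0), .ofNat (nat_lit 0), .ofNat (nat_lit 0), .ofNat (nat_lit 0), .ofNat (nat_lit 0), .ofNat (nat_lit 0), .ofNat (nat_lit 0), .ofNat (nat_lit 0)⟩⟩, [⟨nat_lit 0, nat_lit 100, nat_lit 99, nat_lit 31, nat_lit 179009516⟩]⟩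
noncomputable def p006_l114 : Lf2 := ⟨nat_lit 0, nat_lit 2, [nat_lit 10, nat_lit 5, nat_lit 5, nat_lit 20], true, nat_lit 0, nat_lit 0, nat_lit 0, nat_lit 0, ⟨nat_lit 0, nat_lit 0, nat_lit 1000, nat_lit 5, nat_lit 69, nat_lit 0, nat_lit 0, nat_lit 0, nat_lit 0, nat_lit 215, nat_lit 45067, nat_lit 267, nat_lit 65052673, nat_lit 0, nat_lit 0, nat_lit 657351, false, false⟩,
 nat_lit 0, nat_lit 9943, nat_lit 0, nat_lit 0, nat_lit 5007, nat_lit 0, nat_lit 512, nat_lit 0, nat_lit 0, nat_lit 0, nat_lit 0, nat_lit 0, nat_lit 0, nat_lit 0, nat_lit 53, nat_lit 1000000, nat_lit 0, nat_lit 0, [(nat_lit 3, [(nat_lit 6, nat_lit 1000)])],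
 ⟨p006_k43, nat_lit 0, nat_lit 0, nat_lit 0, nat_lit 0, nat_lit 309454, [nat_lit 1559200001, nat_lit 1418400001, nat_lit 13599999], [], [nat_lit 11919308535, nat_lit 12166797892, nat_lit 12164612410, nat_lit 11478765978], nat_lit 1271250, nat_lit 1271250, nat_lit 111251, nat_lit 230001, nat_lit 0, nat_lit 0, [nat_lit 780000, nat_lit 1435000, nat_lit 1271250], [nat_lit 18, nat_lit 40, nat_lit 20, nat_lit 80]⟩, C1.Rw.none,
 ⟨nat_lit 6324, nat_lit 6520, ⟨.ofNat (nat_lit 142551), .ofNat (nat_lit 184645), .ofNat (nat_lit 153250), .ofNat (nat_lit 195344), .ofNat (nat_lit 151177), .ofNat (nat_lit 192309), .ofNat (nat_lit 161861), .ofNat (nat_lit 202993)⟩, ⟨.ofNat (nat_lit 0), .ofNat (nat_lit 0), .ofNat (nat_lit 0), .ofNat (nat_lit 0), .ofNat (nat_lit 0), .ofNat (nat_lit 0), .ofNat (nat_lit 0), .ofNat (nat_lit 0)⟩⟩, []⟩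
noncomputable def p006_l115 : Lf2 := ⟨nat_lit 0, nat_lit 2, [nat_lit 10, nat_lit 5, nat_lit 5, nat_lit 20], true, nat_lit 0, nat_lit 0, nat_lit 0, nat_lit 0, ⟨nat_lit 0, nat_lit 0, nat_lit 1000, nat_lit 5, nat_lit 67, nat_lit 0, nat_lit 0, nat_lit 0, nat_lit 0, nat_lit 215, nat_lit 41667, nat_lit 265, nat_lit 65193604, nat_lit 0, nat_lit 0, nat_lit 620043, false, false⟩,
 nat_lit 0, nat_lit 4751, nat_lit 0, nat_lit 0, nat_lit 2392, nat_lit 0, nat_lit 0, nat_lit 0, nat_lit 37, nat_lit 0, nat_lit 0, nat_lit 0, nat_lit 0, nat_lit 16976415035794, nat_lit 53, nat_lit 987400, nat_lit 0, nat_lit 0, [(nat_lit 3, [(nat_lit 5, nat_lit 21), (nat_lit 6, nat_lit 979)])],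
 ⟨p006_k45, nat_lit 0, nat_lit 0, nat_lit 0, nat_lit 0, nat_lit 308198, [nat_lit 1129653734, nat_lit 1814331867, nat_lit 720779601, nat_lit 22578800], [], [nat_lit 12795547288, nat_lit 13000249021, nat_lit 12708992084, nat_lit 12683881840], nat_lit 1271250, nat_lit 1271250, nat_lit 43600, nat_lit 230001, nat_lit 0, nat_lit 0, [nat_lit 631250, nat_lit 1271250, nat_lit 1271250, nat_lit 1271250], [nat_lit 139, nat_lit 40, nat_lit 20, nat_lit 40]⟩, C1.Rw.none,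
 ⟨nat_lit 6422, nat_lit 6520, ⟨.ofNat (nat_lit 127994), .ofNat (nat_lit 195344), .ofNat (nat_lit 133343), .ofNat (nat_lit 200693), .ofNat (nat_lit 132611), .ofNat (nat_lit 199188), .ofNat (nat_lit 137956), .ofNat (nat_lit 204533)⟩, ⟨.ofNat (nat_lit 0), .ofNat (nat_lit 0), .ofNat (nat_lit 0), .ofNat (nat_lit 0), .ofNat (nat_lit 0), .ofNat (nat_lit 0), .ofNat (nat_lit 0), .ofNat (nat_lit 0)⟩⟩, [⟨nat_lit 0, nat_lit 100, nat_lit 100, nat_lit 35, nat_lit 159877454⟩]⟩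
noncomputable def p006_l116 : Lf2 := ⟨nat_lit 0, nat_lit 2, [nat_lit 10, nat_lit 5, nat_lit 5, nat_lit 20], true, nat_lit 0, nat_lit 0, nat_lit 0, nat_lit 0, ⟨nat_lit 0, nat_lit 0, nat_lit 1000, nat_lit 5, nat_lit 69, nat_lit 0, nat_lit 0, nat_lit 0, nat_lit 0, nat_lit 215, nat_lit 45067, nat_lit 267, nat_lit 65045651, nat_lit 0, nat_lit 0, nat_lit 659189, false, false⟩,
 nat_lit 0, nat_lit 6417, nat_lit 0, nat_lit 0, nat_lit 3314, nat_lit 0, nat_lit 1333, nat_lit 0, nat_lit 0, nat_lit 0, nat_lit 0, nat_lit 0, nat_lit 0, nat_lit 18557364309843, nat_lit 31, nat_lit 400000, nat_lit 0, nat_lit 0, [(nat_lit 3, [(nat_lit 5, nat_lit 1000)])],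
 ⟨p006_k46, nat_lit 0, nat_lit 0, nat_lit 0, nat_lit 0, nat_lit 340008, [nat_lit 1241600001, nat_lit 1197600000, nat_lit 459600000, nat_lit 6400000], [], [nat_lit 12934156559, nat_lit 13174068505, nat_lit 12320862602, nat_lit 12560988201], nat_lit 1271250, nat_lit 1271250, nat_lit 43600, nat_lit 230001, nat_lit 0, nat_lit 0, [nat_lit 631250, nat_lit 1271250, nat_lit 1271250, nat_lit 1271250], [nat_lit 139, nat_lit 40, nat_lit 20, nat_lit 40]⟩, C1.Rw.none,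
 ⟨nat_lit 6324, nat_lit 6423, ⟨.ofNat (nat_lit 132611), .ofNat (nat_lit 199188), .ofNat (nat_lit 143302), .ofNat (nat_lit 209879), .ofNat (nat_lit 137182), .ofNat (nat_lit 202993), .ofNat (nat_lit 147866), .ofNat (nat_lit 213677)⟩, ⟨.ofNat (nat_lit 0), .ofNat (nat_lit 0), .ofNat (nat_lit 0), .ofNat (nat_lit 0), .ofNat (nat_lit 0), .ofNat (nat_lit 0), .ofNat (nat_lit 0), .ofNat (nat_lit 0)⟩⟩, [⟨nat_lit 0, nat_lit 100, nat_lit 100, nat_lit 40, nat_lit 205225258⟩]⟩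
noncomputable def b_NL_550_550_0_22 : St := ⟨false, nat_lit 1, nat_lit 1, nat_lit 1, nat_lit 20, nat_lit 220, nat_lit 240, nat_lit 220, nat_lit 240, nat_lit 4, nat_lit 40, nat_lit 0, nat_lit 0, nat_lit 0, nat_lit 0, nat_lit 0, nat_lit 0, nat_lit 0, nat_lit 8, nat_lit 300, nat_lit 460, nat_lit 0, nat_lit 800⟩
theorem d_NL_550_550_0_22 (h : EB TB.env) : Dead b_NL_550_550_0_22 := chkB_sound0 h (T :=
(.spl (nat_lit 7) (nat_lit 380)
(.leaf p006_l98)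
(.spl (nat_lit 0) (nat_lit 230)
(.ord (.spl (nat_lit 0) (nat_lit 225)
(.ord (.spl (nat_lit 0) (nat_lit 223)
(.ord (.leaf p006_l99))
(.spl (nat_lit 6) (nat_lit 4)
(.leaf p006_l100)
(.leaf p006_l101))))
(.spl (nat_lit 2) (nat_lit 20)
(.spl (nat_lit 2) (nat_lit 16)
(.spl (nat_lit 1) (nat_lit 225)
(.spl (nat_lit 2) (nat_lit 8)
(.leaf p006_l102)
(.leaf p006_l103))
(.spl (nat_lit 6) (nat_lit 4)
(.leaf p006_l104)
(.spl (nat_lit 0) (nat_lit 228)
(.ord (.leaf p006_l105))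
(.spl (nat_lit 0) (nat_lit 229)
(.ord (.leaf p006_l106))
(.leaf p006_l107)))))
(.leaf p006_l108))
(.leaf p006_l109))))
(.spl (nat_lit 1) (nat_lit 230)
(.spl (nat_lit 2) (nat_lit 20)
(.spl (nat_lit 0) (nat_lit 235)
(.spl (nat_lit 6) (nat_lit 4)
(.leaf p006_l110)
(.spl (nat_lit 2) (nat_lit 16)
(.leaf p006_l111)
(.leaf p006_l112)))
(.leaf p006_l113))
(.leaf p006_l114))
(.trZ (nat_lit 0) (nat_lit 100) (nat_lit 100) (nat_lit 30) (nat_lit 8) (.spl (nat_lit 0) (nat_lit 235)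
(.ord (.leaf p006_l115))
(.leaf p006_l116))))))) (by decide +kernel)
noncomputable def p006_l117 : Lf2 := ⟨nat_lit 0, nat_lit 1, [nat_lit 19, nat_lit 5, nat_lit 5, nat_lit 20], true, nat_lit 0, nat_lit 0, nat_lit 0, nat_lit 0, ⟨nat_lit 0, nat_lit 0, nat_lit 1000, nat_lit 5, nat_lit 49, nat_lit 0, nat_lit 0, nat_lit 0, nat_lit 0, nat_lit 215, nat_lit 22817, nat_lit 252, nat_lit 66014129, nat_lit 0, nat_lit 0, nat_lit 383327, false, false⟩,
 nat_lit 0, nat_lit 5880, nat_lit 0, nat_lit 0, nat_lit 2812, nat_lit 0, nat_lit 0, nat_lit 0, nat_lit 0, nat_lit 0, nat_lit 0, nat_lit 0, nat_lit 0, nat_lit 16036355735060, nat_lit 21, nat_lit 1000000, nat_lit 0, nat_lit 0, [(nat_lit 3, [(nat_lit 6, nat_lit 1000)])],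
 ⟨p006_k47, nat_lit 0, nat_lit 0, nat_lit 0, nat_lit 0, nat_lit 277145, [nat_lit 802533334, nat_lit 1243066667, nat_lit 12000000], [], [nat_lit 13878874948, nat_lit 14264037811, nat_lit 13987041940, nat_lit 13975692498], nat_lit 1271250, nat_lit 1271250, nat_lit 21650, nat_lit 88400, nat_lit 0, nat_lit 0, [nat_lit 631250, nat_lit 1271250, nat_lit 1271250], [nat_lit 90, nat_lit 40, nat_lit 20, nat_lit 40]⟩, C1.Rw.none,
 ⟨nat_lit 6519, nat_lit 6709, ⟨.ofNat (nat_lit 99275), .ofNat (nat_lit 125122), .ofNat (nat_lit 109994), .ofNat (nat_lit 135841), .ofNat (nat_lit 108876), .ofNat (nat_lit 134132), .ofNat (nat_lit 119575), .ofNat (nat_lit 144831)⟩, ⟨.ofNat (nat_lit 0), .ofNat (nat_lit 0), .ofNat (nat_lit 0), .ofNat (nat_lit 0), .ofNat (nat_lit 0), .ofNat (nat_lit 0), .ofNat (nat_lit 0), .ofNat (nat_lit 0)⟩⟩, [⟨nat_lit 0, nat_lit 100, nat_lit 100, nat_lit 30, nat_lit 225586888⟩]⟩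
noncomputable def p006_l118 : Lf2 := ⟨nat_lit 0, nat_lit 2, [nat_lit 10, nat_lit 5, nat_lit 5, nat_lit 20], false, nat_lit 0, nat_lit 0, nat_lit 0, nat_lit 0, ⟨nat_lit 0, nat_lit 0, nat_lit 1000, nat_lit 5, nat_lit 46, nat_lit 0, nat_lit 0, nat_lit 0, nat_lit 0, nat_lit 215, nat_lit 20417, nat_lit 250, nat_lit 66122296, nat_lit 0, nat_lit 0, nat_lit 348899, false, false⟩,
 nat_lit 100000, nat_lit 100000, nat_lit 0, nat_lit 0, nat_lit 95652, nat_lit 0, nat_lit 29567, nat_lit 1183, nat_lit 0, nat_lit 0, nat_lit 0, nat_lit 0, nat_lit 0, nat_lit 217677925629820, nat_lit 0, nat_lit 1000000, nat_lit 11127610896, nat_lit 0, [(nat_lit 3, [(nat_lit 6, nat_lit 1000)])],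
 ⟨p006_k48, nat_lit 0, nat_lit 0, nat_lit 0, nat_lit 0, nat_lit 174582, [nat_lit 24701142858, nat_lit 27131600000], [], [nat_lit 10845066926, nat_lit 3494643074, nat_lit 7317934694, nat_lit 0], nat_lit 1271250, nat_lit 1271250, nat_lit 21650, nat_lit 88400, nat_lit 0, nat_lit 0, [nat_lit 1412500, nat_lit 1271250], [nat_lit 26, nat_lit 40, nat_lit 20, nat_lit 80]⟩, ⟨p006_k48, nat_lit 0, nat_lit 0, nat_lit 0, nat_lit 0, nat_lit 174582, [nat_lit 0, nat_lit 0], [], [nat_lit 0, nat_lit 0, nat_lit 0, nat_lit 0], nat_lit 1271250, nat_lit 1271250, nat_lit 21650, nat_lit 88400, nat_lit 0, nat_lit 0, [nat_lit 1412500, nat_lit 1271250], [nat_lit 26, nat_lit 40, nat_lit 20, nat_lit 80]⟩,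
 ⟨nat_lit 6652, nat_lit 6709, ⟨.ofNat (nat_lit 99275), .ofNat (nat_lit 125122), .ofNat (nat_lit 102491), .ofNat (nat_lit 128337), .ofNat (nat_lit 102178), .ofNat (nat_lit 127846), .ofNat (nat_lit 105392), .ofNat (nat_lit 131060)⟩, ⟨.ofNat (nat_lit 0), .ofNat (nat_lit 0), .ofNat (nat_lit 0), .ofNat (nat_lit 0), .ofNat (nat_lit 0), .ofNat (nat_lit 0), .ofNat (nat_lit 0), .ofNat (nat_lit 0)⟩⟩, [⟨nat_lit 0, nat_lit 100, nat_lit 100, nat_lit 23, nat_lit 1562967960⟩]⟩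
noncomputable def p006_l119 : Lf2 := ⟨nat_lit 0, nat_lit 2, [nat_lit 10, nat_lit 5, nat_lit 5, nat_lit 20], false, nat_lit 0, nat_lit 0, nat_lit 0, nat_lit 0, ⟨nat_lit 0, nat_lit 0, nat_lit 1000, nat_lit 5, nat_lit 44, nat_lit 0, nat_lit 0, nat_lit 0, nat_lit 0, nat_lit 215, nat_lit 18150, nat_lit 248, nat_lit 66212253, nat_lit 0, nat_lit 0, nat_lit 319495, false, false⟩,
 nat_lit 100000, nat_lit 100000, nat_lit 0, nat_lit 0, nat_lit 97167, nat_lit 0, nat_lit 25621, nat_lit 1126, nat_lit 0, nat_lit 0, nat_lit 0, nat_lit 0, nat_lit 0, nat_lit 249283895749257, nat_lit 0, nat_lit 1000000, nat_lit 16298592277, nat_lit 0, [(nat_lit 3, [(nat_lit 6, nat_lit 1000)])],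
 ⟨p006_k49, nat_lit 0, nat_lit 0, nat_lit 0, nat_lit 0, nat_lit 179739, [nat_lit 23561142858, nat_lit 25763600000], [], [nat_lit 5330332210, nat_lit 5824101824, nat_lit 2328521246, nat_lit 0], nat_lit 1271250, nat_lit 1271250, nat_lit 21650, nat_lit 43600, nat_lit 0, nat_lit 0, [nat_lit 1412500, nat_lit 1271250], [nat_lit 26, nat_lit 40, nat_lit 20, nat_lit 80]⟩, ⟨p006_k48, nat_lit 0, nat_lit 0, nat_lit 0, nat_lit 0, nat_lit 182670, [nat_lit 0, nat_lit 0], [], [nat_lit 0, nat_lit 0, nat_lit 0, nat_lit 0], nat_lit 1271250, nat_lit 1271250, nat_lit 21650, nat_lit 43600, nat_lit 0, nat_lit 0, [nat_lit 1412500, nat_lit 1271250], [nat_lit 26, nat_lit 40, nat_lit 20, nat_lit 80]⟩,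
 ⟨nat_lit 6633, nat_lit 6653, ⟨.ofNat (nat_lit 102178), .ofNat (nat_lit 110734), .ofNat (nat_lit 106463), .ofNat (nat_lit 115019), .ofNat (nat_lit 103141), .ofNat (nat_lit 111677), .ofNat (nat_lit 107425), .ofNat (nat_lit 115961)⟩, ⟨.ofNat (nat_lit 0), .ofNat (nat_lit 0), .ofNat (nat_lit 0), .ofNat (nat_lit 0), .ofNat (nat_lit 0), .ofNat (nat_lit 0), .ofNat (nat_lit 0), .ofNat (nat_lit 0)⟩⟩, [⟨nat_lit 0, nat_lit 100, nat_lit 100, nat_lit 24, nat_lit 7386352510⟩]⟩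
noncomputable def p006_l120 : Lf2 := ⟨nat_lit 0, nat_lit 2, [nat_lit 10, nat_lit 5, nat_lit 5, nat_lit 20], true, nat_lit 0, nat_lit 0, nat_lit 0, nat_lit 0, ⟨nat_lit 0, nat_lit 0, nat_lit 1000, nat_lit 5, nat_lit 44, nat_lit 0, nat_lit 0, nat_lit 0, nat_lit 0, nat_lit 215, nat_lit 18150, nat_lit 248, nat_lit 66206299, nat_lit 0, nat_lit 0, nat_lit 321462, false, false⟩,
 nat_lit 0, nat_lit 100000, nat_lit 0, nat_lit 0, nat_lit 48837, nat_lit 0, nat_lit 11314, nat_lit 459, nat_lit 0, nat_lit 0, nat_lit 0, nat_lit 0, nat_lit 0, nat_lit 0, nat_lit 0, nat_lit 1000000, nat_lit 3524071117, nat_lit 0, [(nat_lit 3, [(nat_lit 6, nat_lit 1000)])],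
 ⟨p006_k50, nat_lit 0, nat_lit 0, nat_lit 0, nat_lit 0, nat_lit 178803, [nat_lit 10221142858, nat_lit 9755600000], [], [nat_lit 2639030829, nat_lit 2903942170, nat_lit 482544771, nat_lit 0], nat_lit 1271250, nat_lit 1271250, nat_lit 21650, nat_lit 43600, nat_lit 0, nat_lit 0, [nat_lit 1412500, nat_lit 1271250], [nat_lit 26, nat_lit 40, nat_lit 20, nat_lit 80]⟩, C1.Rw.none,
 ⟨nat_lit 6614, nat_lit 6634, ⟨.ofNat (nat_lit 103141), .ofNat (nat_lit 111677), .ofNat (nat_lit 106354), .ofNat (nat_lit 114890), .ofNat (nat_lit 104102), .ofNat (nat_lit 112619), .ofNat (nat_lit 107315), .ofNat (nat_lit 115831)⟩, ⟨.ofNat (nat_lit 0), .ofNat (nat_lit 0), .ofNat (nat_lit 0), .ofNat (nat_lit 0), .ofNat (nat_lit 0), .ofNat (nat_lit 0), .ofNat (nat_lit 0), .ofNat (nat_lit 0)⟩⟩, [⟨nat_lit 0, nat_lit 100, nat_lit 100, nat_lit 24, nat_lit 3734565762⟩]⟩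
noncomputable def p006_l121 : Lf2 := ⟨nat_lit 0, nat_lit 2, [nat_lit 10, nat_lit 5, nat_lit 5, nat_lit 20], false, nat_lit 0, nat_lit 0, nat_lit 0, nat_lit 0, ⟨nat_lit 0, nat_lit 0, nat_lit 1000, nat_lit 5, nat_lit 45, nat_lit 0, nat_lit 0, nat_lit 0, nat_lit 0, nat_lit 215, nat_lit 18150, nat_lit 248, nat_lit 66175330, nat_lit 0, nat_lit 0, nat_lit 331653, false, false⟩,
 nat_lit 100000, nat_lit 100000, nat_lit 0, nat_lit 0, nat_lit 97674, nat_lit 0, nat_lit 24956, nat_lit 1225, nat_lit 0, nat_lit 0, nat_lit 0, nat_lit 0, nat_lit 0, nat_lit 0, nat_lit 0, nat_lit 1000000, nat_lit 12157343893, nat_lit 0, [(nat_lit 3, [(nat_lit 6, nat_lit 1000)])],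
 ⟨p006_k50, nat_lit 0, nat_lit 0, nat_lit 0, nat_lit 0, nat_lit 182726, [nat_lit 25541142858, nat_lit 28139600000], [], [nat_lit 5358038618, nat_lit 5854217770, nat_lit 1081450627, nat_lit 0], nat_lit 1271250, nat_lit 1271250, nat_lit 21650, nat_lit 43600, nat_lit 0, nat_lit 0, [nat_lit 1412500, nat_lit 1271250], [nat_lit 26, nat_lit 40, nat_lit 20, nat_lit 80]⟩, ⟨p006_k49, nat_lit 0, nat_lit 0, nat_lit 0, nat_lit 0, nat_lit 183706, [nat_lit 0, nat_lit 0], [], [nat_lit 0, nat_lit 0, nat_lit 0, nat_lit 0], nat_lit 1271250, nat_lit 1271250, nat_lit 21650, nat_lit 43600, nat_lit 0, nat_lit 0, [nat_lit 1412500, nat_lit 1271250], [nat_lit 26, nat_lit 40, nat_lit 20, nat_lit 80]⟩,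
 ⟨nat_lit 6614, nat_lit 6634, ⟨.ofNat (nat_lit 106354), .ofNat (nat_lit 114890), .ofNat (nat_lit 107425), .ofNat (nat_lit 115961), .ofNat (nat_lit 107315), .ofNat (nat_lit 115831), .ofNat (nat_lit 108385), .ofNat (nat_lit 116902)⟩, ⟨.ofNat (nat_lit 0), .ofNat (nat_lit 0), .ofNat (nat_lit 0), .ofNat (nat_lit 0), .ofNat (nat_lit 0), .ofNat (nat_lit 0), .ofNat (nat_lit 0), .ofNat (nat_lit 0)⟩⟩, [⟨nat_lit 0, nat_lit 100, nat_lit 100, nat_lit 24, nat_lit 7423906550⟩]⟩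
noncomputable def p006_l122 : Lf2 := ⟨nat_lit 0, nat_lit 2, [nat_lit 10, nat_lit 5, nat_lit 5, nat_lit 20], true, nat_lit 0, nat_lit 0, nat_lit 0, nat_lit 0, ⟨nat_lit 0, nat_lit 0, nat_lit 1000, nat_lit 5, nat_lit 45, nat_lit 0, nat_lit 0, nat_lit 0, nat_lit 0, nat_lit 215, nat_lit 19267, nat_lit 249, nat_lit 66159630, nat_lit 0, nat_lit 0, nat_lit 336785, false, false⟩,
 nat_lit 0, nat_lit 100000, nat_lit 0, nat_lit 0, nat_lit 48837, nat_lit 0, nat_lit 19086, nat_lit 2146, nat_lit 0, nat_lit 0, nat_lit 0, nat_lit 0, nat_lit 0, nat_lit 127640436258048, nat_lit 0, nat_lit 1000000, nat_lit 0, nat_lit 0, [(nat_lit 3, [(nat_lit 6, nat_lit 1000)])],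
 ⟨p006_k51, nat_lit 0, nat_lit 0, nat_lit 0, nat_lit 0, nat_lit 186649, [nat_lit 26675200001, nat_lit 43278400001, nat_lit 50245599999], [], [nat_lit 65230241854, nat_lit 65494385339, nat_lit 63698642569, nat_lit 62591211025], nat_lit 1271250, nat_lit 1271250, nat_lit 21650, nat_lit 43600, nat_lit 0, nat_lit 0, [nat_lit 780000, nat_lit 1435000, nat_lit 1271250], [nat_lit 18, nat_lit 40, nat_lit 20, nat_lit 80]⟩, C1.Rw.none,
 ⟨nat_lit 6614, nat_lit 6634, ⟨.ofNat (nat_lit 107425), .ofNat (nat_lit 115961), .ofNat (nat_lit 108496), .ofNat (nat_lit 117033), .ofNat (nat_lit 108385), .ofNat (nat_lit 116902), .ofNat (nat_lit 109456), .ofNat (nat_lit 117973)⟩, ⟨.ofNat (nat_lit 0), .ofNat (nat_lit 0), .ofNat (nat_lit 0), .ofNat (nat_lit 0), .ofNat (nat_lit 0), .ofNat (nat_lit 0), .ofNat (nat_lit 0), .ofNat (nat_lit 0)⟩⟩, [⟨nat_lit 0, nat_lit 100, nat_lit 100, nat_lit 25, nat_lit 3735432110⟩]⟩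
noncomputable def p006_l123 : Lf2 := ⟨nat_lit 0, nat_lit 2, [nat_lit 10, nat_lit 5, nat_lit 5, nat_lit 20], true, nat_lit 0, nat_lit 0, nat_lit 0, nat_lit 0, ⟨nat_lit 0, nat_lit 0, nat_lit 1000, nat_lit 5, nat_lit 45, nat_lit 0, nat_lit 0, nat_lit 0, nat_lit 0, nat_lit 215, nat_lit 19267, nat_lit 249, nat_lit 66159630, nat_lit 0, nat_lit 0, nat_lit 336785, false, false⟩,
 nat_lit 0, nat_lit 100000, nat_lit 0, nat_lit 0, nat_lit 48837, nat_lit 0, nat_lit 11444, nat_lit 490, nat_lit 0, nat_lit 0, nat_lit 0, nat_lit 0, nat_lit 0, nat_lit 127640436258047, nat_lit 0, nat_lit 1000000, nat_lit 2284383617, nat_lit 0, [(nat_lit 3, [(nat_lit 6, nat_lit 1000)])],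
 ⟨p006_k50, nat_lit 0, nat_lit 0, nat_lit 0, nat_lit 0, nat_lit 186649, [nat_lit 10841142858, nat_lit 10499600000], [], [nat_lit 2639030829, nat_lit 2904254670, nat_lit 1102857271, nat_lit 0], nat_lit 1271250, nat_lit 1271250, nat_lit 21650, nat_lit 43600, nat_lit 0, nat_lit 0, [nat_lit 1412500, nat_lit 1271250], [nat_lit 26, nat_lit 40, nat_lit 20, nat_lit 80]⟩, C1.Rw.none,
 ⟨nat_lit 6614, nat_lit 6634, ⟨.ofNat (nat_lit 107425), .ofNat (nat_lit 115961), .ofNat (nat_lit 108496), .ofNat (nat_lit 117033), .ofNat (nat_lit 108385), .ofNat (nat_lit 116902), .ofNat (nat_lit 109456), .ofNat (nat_lit 117973)⟩, ⟨.ofNat (nat_lit 0), .ofNat (nat_lit 0), .ofNat (nat_lit 0), .ofNat (nat_lit 0), .ofNat (nat_lit 0), .ofNat (nat_lit 0), .ofNat (nat_lit 0), .ofNat (nat_lit 0)⟩⟩, [⟨nat_lit 0, nat_lit 100, nat_lit 100, nat_lit 25, nat_lit 3735432110⟩]⟩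
noncomputable def p006_l124 : Lf2 := ⟨nat_lit 0, nat_lit 2, [nat_lit 10, nat_lit 5, nat_lit 5, nat_lit 20], true, nat_lit 0, nat_lit 0, nat_lit 0, nat_lit 0, ⟨nat_lit 0, nat_lit 0, nat_lit 1000, nat_lit 5, nat_lit 45, nat_lit 0, nat_lit 0, nat_lit 0, nat_lit 0, nat_lit 215, nat_lit 19267, nat_lit 249, nat_lit 66159630, nat_lit 0, nat_lit 0, nat_lit 336785, false, false⟩,
 nat_lit 0, nat_lit 100000, nat_lit 0, nat_lit 0, nat_lit 48837, nat_lit 0, nat_lit 0, nat_lit 1327, nat_lit 0, nat_lit 0, nat_lit 0, nat_lit 0, nat_lit 0, nat_lit 127703806360973, nat_lit 0, nat_lit 1000000, nat_lit 0, nat_lit 0, [(nat_lit 3, [(nat_lit 6, nat_lit 1000)])],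
 ⟨p006_k50, nat_lit 0, nat_lit 0, nat_lit 0, nat_lit 0, nat_lit 186649, [nat_lit 27581142858, nat_lit 30587600000], [], [nat_lit 49647628435, nat_lit 48396660866, nat_lit 49038473654, nat_lit 47789349194], nat_lit 1271250, nat_lit 1271250, nat_lit 21650, nat_lit 43600, nat_lit 0, nat_lit 0, [nat_lit 1412500, nat_lit 1271250], [nat_lit 26, nat_lit 40, nat_lit 20, nat_lit 80]⟩, C1.Rw.none,
 ⟨nat_lit 6614, nat_lit 6634, ⟨.ofNat (nat_lit 107425), .ofNat (nat_lit 115961), .ofNat (nat_lit 108496), .ofNat (nat_lit 117033), .ofNat (nat_lit 108385), .ofNat (nat_lit 116902), .ofNat (nat_lit 109456), .ofNat (nat_lit 117973)⟩, ⟨.ofNat (nat_lit 0), .ofNat (nat_lit 0), .ofNat (nat_lit 0), .ofNat (nat_lit 0), .ofNat (nat_lit 0), .ofNat (nat_lit 0), .ofNat (nat_lit 0), .ofNat (nat_lit 0)⟩⟩, [⟨nat_lit 0, nat_lit 100, nat_lit 100, nat_lit 25, nat_lit 865671883⟩]⟩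
noncomputable def p006_l125 : Lf2 := ⟨nat_lit 0, nat_lit 2, [nat_lit 10, nat_lit 5, nat_lit 5, nat_lit 20], true, nat_lit 0, nat_lit 0, nat_lit 0, nat_lit 0, ⟨nat_lit 0, nat_lit 0, nat_lit 1000, nat_lit 5, nat_lit 49, nat_lit 0, nat_lit 0, nat_lit 0, nat_lit 0, nat_lit 215, nat_lit 22817, nat_lit 252, nat_lit 66003219, nat_lit 0, nat_lit 0, nat_lit 386747, false, false⟩,
 nat_lit 0, nat_lit 100000, nat_lit 0, nat_lit 0, nat_lit 48583, nat_lit 0, nat_lit 11916, nat_lit 493, nat_lit 0, nat_lit 0, nat_lit 0, nat_lit 0, nat_lit 0, nat_lit 164928820603147, nat_lit 0, nat_lit 1000000, nat_lit 2992224835, nat_lit 0, [(nat_lit 3, [(nat_lit 6, nat_lit 1000)])],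
 ⟨p006_k49, nat_lit 0, nat_lit 0, nat_lit 0, nat_lit 0, nat_lit 187650, [nat_lit 10901142858, nat_lit 10571600000], [], [nat_lit 3514149620, nat_lit 1028894028, nat_lit 2477921502, nat_lit 0], nat_lit 1271250, nat_lit 1271250, nat_lit 43600, nat_lit 88400, nat_lit 0, nat_lit 0, [nat_lit 1412500, nat_lit 1271250], [nat_lit 26, nat_lit 40, nat_lit 20, nat_lit 80]⟩, C1.Rw.none,
 ⟨nat_lit 6614, nat_lit 6653, ⟨.ofNat (nat_lit 110734), .ofNat (nat_lit 127846), .ofNat (nat_lit 116090), .ofNat (nat_lit 133202), .ofNat (nat_lit 112619), .ofNat (nat_lit 129652), .ofNat (nat_lit 117973), .ofNat (nat_lit 135006)⟩, ⟨.ofNat (nat_lit 0), .ofNat (nat_lit 0), .ofNat (nat_lit 0), .ofNat (nat_lit 0), .ofNat (nat_lit 0), .ofNat (nat_lit 0), .ofNat (nat_lit 0), .ofNat (nat_lit 0)⟩⟩, []⟩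
noncomputable def p006_l126 : Lf2 := ⟨nat_lit 0, nat_lit 2, [nat_lit 10, nat_lit 5, nat_lit 5, nat_lit 20], true, nat_lit 0, nat_lit 0, nat_lit 0, nat_lit 0, ⟨nat_lit 0, nat_lit 0, nat_lit 1000, nat_lit 5, nat_lit 50, nat_lit 0, nat_lit 0, nat_lit 0, nat_lit 0, nat_lit 215, nat_lit 22817, nat_lit 252, nat_lit 65976649, nat_lit 0, nat_lit 0, nat_lit 395038, false, false⟩,
 nat_lit 0, nat_lit 5916, nat_lit 0, nat_lit 0, nat_lit 2904, nat_lit 0, nat_lit 144, nat_lit 0, nat_lit 0, nat_lit 0, nat_lit 0, nat_lit 0, nat_lit 0, nat_lit 17576167067315, nat_lit 53, nat_lit 1000000, nat_lit 0, nat_lit 0, [(nat_lit 3, [(nat_lit 6, nat_lit 1000)])],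
 ⟨p006_k52, nat_lit 0, nat_lit 0, nat_lit 0, nat_lit 0, nat_lit 225978, [nat_lit 1122533334, nat_lit 1819066667, nat_lit 716000001, nat_lit 11600000], [], [nat_lit 13939434303, nat_lit 14159204112, nat_lit 13562287205, nat_lit 13777736824], nat_lit 1271250, nat_lit 1271250, nat_lit 21650, nat_lit 88400, nat_lit 0, nat_lit 0, [nat_lit 631250, nat_lit 1271250, nat_lit 1271250, nat_lit 1271250], [nat_lit 139, nat_lit 40, nat_lit 20, nat_lit 40]⟩, C1.Rw.none,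
 ⟨nat_lit 6519, nat_lit 6615, ⟨.ofNat (nat_lit 104102), .ofNat (nat_lit 129652), .ofNat (nat_lit 114811), .ofNat (nat_lit 140360), .ofNat (nat_lit 108876), .ofNat (nat_lit 134132), .ofNat (nat_lit 119575), .ofNat (nat_lit 144831)⟩, ⟨.ofNat (nat_lit 0), .ofNat (nat_lit 0), .ofNat (nat_lit 0), .ofNat (nat_lit 0), .ofNat (nat_lit 0), .ofNat (nat_lit 0), .ofNat (nat_lit 0), .ofNat (nat_lit 0)⟩⟩, [⟨nat_lit 0, nat_lit 100, nat_lit 100, nat_lit 30, nat_lit 264888975⟩]⟩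
noncomputable def p006_l127 : Lf2 := ⟨nat_lit 0, nat_lit 2, [nat_lit 10, nat_lit 5, nat_lit 5, nat_lit 20], false, nat_lit 0, nat_lit 0, nat_lit 0, nat_lit 0, ⟨nat_lit 0, nat_lit 0, nat_lit 1000, nat_lit 5, nat_lit 50, nat_lit 0, nat_lit 0, nat_lit 0, nat_lit 0, nat_lit 215, nat_lit 22817, nat_lit 252, nat_lit 65976649, nat_lit 0, nat_lit 0, nat_lit 395038, false, false⟩,
 nat_lit 100000, nat_lit 0, nat_lit 0, nat_lit 0, nat_lit 49090, nat_lit 47826, nat_lit 10628, nat_lit 459, nat_lit 0, nat_lit 9024, nat_lit 1988, nat_lit 0, nat_lit 0, nat_lit 0, nat_lit 0, nat_lit 1000000, nat_lit 7991520341, nat_lit 0, [(nat_lit 3, [(nat_lit 6, nat_lit 1000)])],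
 ⟨p006_k53, nat_lit 0, nat_lit 0, nat_lit 0, nat_lit 0, nat_lit 225978, [nat_lit 10221142858, nat_lit 9755600000], [], [nat_lit 7425112386, nat_lit 8751521129, nat_lit 2373179322, nat_lit 0], nat_lit 1271250, nat_lit 1271250, nat_lit 21650, nat_lit 88400, nat_lit 0, nat_lit 0, [nat_lit 1412500, nat_lit 1271250], [nat_lit 26, nat_lit 40, nat_lit 20, nat_lit 80]⟩, ⟨p006_k48, nat_lit 0, nat_lit 0, nat_lit 0, nat_lit 0, nat_lit 232130, [nat_lit 39760000000, nat_lit 47712000000], [], [nat_lit 71986207728, nat_lit 66112598739, nat_lit 70089141612, nat_lit 57892583788], nat_lit 1271250, nat_lit 1271250, nat_lit 21650, nat_lit 88400, nat_lit 0, nat_lit 0, [nat_lit 1412500, nat_lit 1271250], [nat_lit 26, nat_lit 40, nat_lit 20, nat_lit 80]⟩,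
 ⟨nat_lit 6519, nat_lit 6615, ⟨.ofNat (nat_lit 104102), .ofNat (nat_lit 129652), .ofNat (nat_lit 114811), .ofNat (nat_lit 140360), .ofNat (nat_lit 108876), .ofNat (nat_lit 134132), .ofNat (nat_lit 119575), .ofNat (nat_lit 144831)⟩, ⟨.ofNat (nat_lit 0), .ofNat (nat_lit 0), .ofNat (nat_lit 0), .ofNat (nat_lit 0), .ofNat (nat_lit 0), .ofNat (nat_lit 0), .ofNat (nat_lit 0), .ofNat (nat_lit 0)⟩⟩, [⟨nat_lit 0, nat_lit 100, nat_lit 100, nat_lit 26, nat_lit 4542827792⟩]⟩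
noncomputable def p006_l128 : Lf2 := ⟨nat_lit 0, nat_lit 2, [nat_lit 10, nat_lit 5, nat_lit 5, nat_lit 20], true, nat_lit 0, nat_lit 0, nat_lit 0, nat_lit 0, ⟨nat_lit 0, nat_lit 0, nat_lit 1000, nat_lit 5, nat_lit 50, nat_lit 0, nat_lit 0, nat_lit 0, nat_lit 0, nat_lit 215, nat_lit 22817, nat_lit 252, nat_lit 65976649, nat_lit 0, nat_lit 0, nat_lit 395038, false, false⟩,
 nat_lit 0, nat_lit 100000, nat_lit 0, nat_lit 0, nat_lit 49090, nat_lit 0, nat_lit 0, nat_lit 1812, nat_lit 0, nat_lit 0, nat_lit 0, nat_lit 0, nat_lit 0, nat_lit 155416944355381, nat_lit 0, nat_lit 1000000, nat_lit 0, nat_lit 0, [(nat_lit 3, [(nat_lit 6, nat_lit 1000)])],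
 ⟨p006_k53, nat_lit 0, nat_lit 0, nat_lit 0, nat_lit 0, nat_lit 225978, [nat_lit 37281142858, nat_lit 42227600000], [], [nat_lit 77214073072, nat_lit 70926832050, nat_lit 75561658981, nat_lit 69302207808], nat_lit 1271250, nat_lit 1271250, nat_lit 21650, nat_lit 88400, nat_lit 0, nat_lit 0, [nat_lit 1412500, nat_lit 1271250], [nat_lit 26, nat_lit 40, nat_lit 20, nat_lit 80]⟩, C1.Rw.none,
 ⟨nat_lit 6519, nat_lit 6615, ⟨.ofNat (nat_lit 104102), .ofNat (nat_lit 129652), .ofNat (nat_lit 114811), .ofNat (nat_lit 140360), .ofNat (nat_lit 108876), .ofNat (nat_lit 134132), .ofNat (nat_lit 119575), .ofNat (nat_lit 144831)⟩, ⟨.ofNat (nat_lit 0), .ofNat (nat_lit 0), .ofNat (nat_lit 0), .ofNat (nat_lit 0), .ofNat (nat_lit 0), .ofNat (nat_lit 0), .ofNat (nat_lit 0), .ofNat (nat_lit 0)⟩⟩, [⟨nat_lit 0, nat_lit 100, nat_lit 100, nat_lit 30, nat_lit 782787731⟩]⟩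
noncomputable def p006_l129 : Lf2 := ⟨nat_lit 0, nat_lit 2, [nat_lit 10, nat_lit 5, nat_lit 5, nat_lit 20], false, nat_lit 0, nat_lit 0, nat_lit 0, nat_lit 0, ⟨nat_lit 1000, nat_lit 0, nat_lit 0, nat_lit 0, nat_lit 0, nat_lit 0, nat_lit 0, nat_lit 0, nat_lit 0, nat_lit 0, nat_lit 0, nat_lit 0, nat_lit 0, nat_lit 0, nat_lit 0, nat_lit 0, false, false⟩,
 nat_lit 100000, nat_lit 100000, nat_lit 0, nat_lit 0, nat_lit 95652, nat_lit 13925, nat_lit 42893, nat_lit 532, nat_lit 0, nat_lit 1948, nat_lit 0, nat_lit 0, nat_lit 0, nat_lit 206891471023405, nat_lit 0, nat_lit 0, nat_lit 40364972404, nat_lit 0, [],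
 ⟨p006_k48, nat_lit 0, nat_lit 0, nat_lit 0, nat_lit 0, nat_lit 241553, [nat_lit 16890000000, nat_lit 20736000000], [], [nat_lit 13121867628, nat_lit 1011002165, nat_lit 12178508292, nat_lit 0], nat_lit 1271250, nat_lit 1271250, nat_lit 88400, nat_lit 111251, nat_lit 0, nat_lit 0, [nat_lit 1412500, nat_lit 1271250], [nat_lit 26, nat_lit 40, nat_lit 20, nat_lit 80]⟩, ⟨p006_k48, nat_lit 0, nat_lit 0, nat_lit 0, nat_lit 0, nat_lit 241553, [nat_lit 6250000000, nat_lit 7968000000], [], [nat_lit 24896220350, nat_lit 23120647778, nat_lit 24836983700, nat_lit 23064038775], nat_lit 1271250, nat_lit 1271250, nat_lit 88400, nat_lit 111251, nat_lit 0, nat_lit 0, [nat_lit 1412500, nat_lit 1271250], [nat_lit 26, nat_lit 40, nat_lit 20, nat_lit 80]⟩,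
 zbF0, []⟩
noncomputable def p006_l130 : Lf2 := ⟨nat_lit 0, nat_lit 2, [nat_lit 10, nat_lit 5, nat_lit 5, nat_lit 20], false, nat_lit 0, nat_lit 0, nat_lit 0, nat_lit 0, ⟨nat_lit 1000, nat_lit 0, nat_lit 0, nat_lit 0, nat_lit 0, nat_lit 0, nat_lit 0, nat_lit 0, nat_lit 0, nat_lit 0, nat_lit 0, nat_lit 0, nat_lit 0, nat_lit 0, nat_lit 0, nat_lit 0, false, false⟩,
 nat_lit 27792, nat_lit 49751, nat_lit 0, nat_lit 0, nat_lit 38066, nat_lit 13291, nat_lit 10706, nat_lit 0, nat_lit 0, nat_lit 2503, nat_lit 0, nat_lit 0, nat_lit 0, nat_lit 24129193691970, nat_lit 0, nat_lit 0, nat_lit 8008671393, nat_lit 0, [],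
 ⟨p006_k53, nat_lit 0, nat_lit 0, nat_lit 0, nat_lit 0, nat_lit 259300, [nat_lit 6250000000, nat_lit 7968000000], [], [nat_lit 3221171645, nat_lit 1435061945, nat_lit 2907960711, nat_lit 0], nat_lit 1271250, nat_lit 1271250, nat_lit 88400, nat_lit 111251, nat_lit 0, nat_lit 0, [nat_lit 1412500, nat_lit 1271250], [nat_lit 26, nat_lit 40, nat_lit 20, nat_lit 80]⟩, ⟨p006_k48, nat_lit 0, nat_lit 0, nat_lit 0, nat_lit 0, nat_lit 266359, [nat_lit 6250000000, nat_lit 7968000000], [], [nat_lit 25548313442, nat_lit 22836743166, nat_lit 25495935404, nat_lit 22788377947], nat_lit 1271250, nat_lit 1271250, nat_lit 88400, nat_lit 111251, nat_lit 0, nat_lit 0, [nat_lit 1412500, nat_lit 1271250], [nat_lit 26, nat_lit 40, nat_lit 20, nat_lit 80]⟩,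
 zbF0, []⟩
noncomputable def p006_l131 : Lf2 := ⟨nat_lit 0, nat_lit 2, [nat_lit 10, nat_lit 5, nat_lit 5, nat_lit 20], false, nat_lit 0, nat_lit 0, nat_lit 0, nat_lit 0, ⟨nat_lit 1000, nat_lit 0, nat_lit 0, nat_lit 0, nat_lit 0, nat_lit 0, nat_lit 0, nat_lit 0, nat_lit 0, nat_lit 0, nat_lit 0, nat_lit 0, nat_lit 0, nat_lit 0, nat_lit 0, nat_lit 0, false, false⟩,
 nat_lit 26970, nat_lit 35229, nat_lit 0, nat_lit 0, nat_lit 31008, nat_lit 12898, nat_lit 8239, nat_lit 0, nat_lit 0, nat_lit 2848, nat_lit 0, nat_lit 0, nat_lit 0, nat_lit 2641017355317, nat_lit 0, nat_lit 0, nat_lit 814273984, nat_lit 0, [],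
 ⟨p006_k54, nat_lit 0, nat_lit 0, nat_lit 0, nat_lit 0, nat_lit 271036, [nat_lit 6250000000, nat_lit 7968000000], [], [nat_lit 1813866436, nat_lit 1074205218, nat_lit 1579187828, nat_lit 0], nat_lit 1271250, nat_lit 1271250, nat_lit 88400, nat_lit 111251, nat_lit 0, nat_lit 0, [nat_lit 1412500, nat_lit 1271250], [nat_lit 26, nat_lit 40, nat_lit 20, nat_lit 80]⟩, ⟨p006_k48, nat_lit 0, nat_lit 0, nat_lit 0, nat_lit 0, nat_lit 282867, [nat_lit 6250000000, nat_lit 7968000000], [], [nat_lit 25952528876, nat_lit 22663288655, nat_lit 25904402312, nat_lit 22620029796], nat_lit 1271250, nat_lit 1271250, nat_lit 88400, nat_lit 111251, nat_lit 0, nat_lit 0, [nat_lit 1412500, nat_lit 1271250], [nat_lit 26, nat_lit 40, nat_lit 20, nat_lit 80]⟩,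
 zbF0, []⟩
noncomputable def p006_l132 : Lf2 := ⟨nat_lit 0, nat_lit 2, [nat_lit 10, nat_lit 5, nat_lit 5, nat_lit 20], false, nat_lit 0, nat_lit 0, nat_lit 0, nat_lit 0, ⟨nat_lit 1000, nat_lit 0, nat_lit 0, nat_lit 0, nat_lit 0, nat_lit 0, nat_lit 0, nat_lit 0, nat_lit 0, nat_lit 0, nat_lit 0, nat_lit 0, nat_lit 0, nat_lit 0, nat_lit 0, nat_lit 0, false, false⟩,
 nat_lit 89729, nat_lit 0, nat_lit 0, nat_lit 0, nat_lit 42913, nat_lit 13375, nat_lit 14626, nat_lit 0, nat_lit 0, nat_lit 2627, nat_lit 0, nat_lit 0, nat_lit 0, nat_lit 42737654170379, nat_lit 0, nat_lit 0, nat_lit 17059689450, nat_lit 0, [],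
 ⟨p006_k48, nat_lit 0, nat_lit 0, nat_lit 0, nat_lit 0, nat_lit 282867, [nat_lit 6250000000, nat_lit 7968000000], [], [nat_lit 11767821422, nat_lit 4088083263, nat_lit 10847633966, nat_lit 0], nat_lit 1271250, nat_lit 1271250, nat_lit 111251, nat_lit 230001, nat_lit 0, nat_lit 0, [nat_lit 1412500, nat_lit 1271250], [nat_lit 26, nat_lit 40, nat_lit 20, nat_lit 80]⟩, ⟨p006_k48, nat_lit 0, nat_lit 0, nat_lit 0, nat_lit 0, nat_lit 282867, [nat_lit 6250000000, nat_lit 7968000000], [], [nat_lit 25408629500, nat_lit 22002792750, nat_lit 25448781500, nat_lit 22067822250], nat_lit 1271250, nat_lit 1271250, nat_lit 111251, nat_lit 230001, nat_lit 0, nat_lit 0, [nat_lit 1412500, nat_lit 1271250], [nat_lit 26, nat_lit 40, nat_lit 20, nat_lit 80]⟩,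
 zbF0, []⟩
noncomputable def b_NL_550_550_0_23 : St := ⟨false, nat_lit 1, nat_lit 1, nat_lit 1, nat_lit 20, nat_lit 220, nat_lit 230, nat_lit 220, nat_lit 240, nat_lit 4, nat_lit 40, nat_lit 0, nat_lit 0, nat_lit 0, nat_lit 0, nat_lit 0, nat_lit 0, nat_lit 0, nat_lit 8, nat_lit 460, nat_lit 600, nat_lit 0, nat_lit 800⟩
theorem d_NL_550_550_0_23 (h : EB TB.env) : Dead b_NL_550_550_0_23 := chkB_sound0 h (T :=
(.ord (.spl (nat_lit 2) (nat_lit 20)
(.spl (nat_lit 2) (nat_lit 16)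
(.spl (nat_lit 6) (nat_lit 4)
(.leaf p006_l117)
(.spl (nat_lit 0) (nat_lit 225)
(.ord (.spl (nat_lit 0) (nat_lit 223)
(.ord (.leaf p006_l118))
(.spl (nat_lit 2) (nat_lit 8)
(.spl (nat_lit 0) (nat_lit 224)
(.ord (.leaf p006_l119))
(.spl (nat_lit 1) (nat_lit 223)
(.leaf p006_l120)
(.spl (nat_lit 1) (nat_lit 224)
(.leaf p006_l121)
(.spl (nat_lit 7) (nat_lit 540)
(.spl (nat_lit 7) (nat_lit 500)
(.leaf p006_l122)
(.leaf p006_l123))
(.leaf p006_l124)))))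
(.leaf p006_l125))))
(.spl (nat_lit 7) (nat_lit 540)
(.spl (nat_lit 8) (nat_lit 400)
(.leaf p006_l126)
(.leaf p006_l127))
(.leaf p006_l128))))
(.spl (nat_lit 0) (nat_lit 225)
(.ord (.leaf p006_l129))
(.spl (nat_lit 0) (nat_lit 228)
(.ord (.leaf p006_l130))
(.leaf p006_l131))))
(.leaf p006_l132)))) (by decide +kernel)
noncomputable def p006_l133 : Lf2 := ⟨nat_lit 0, nat_lit 1, [nat_lit 19, nat_lit 5, nat_lit 5, nat_lit 20], true, nat_lit 0, nat_lit 0, nat_lit 0, nat_lit 0, ⟨nat_lit 0, nat_lit 0, nat_lit 1000, nat_lit 5, nat_lit 49, nat_lit 0, nat_lit 0, nat_lit 0, nat_lit 0, nat_lit 215, nat_lit 22817, nat_lit 252, nat_lit 66000170, nat_lit 0, nat_lit 0, nat_lit 387702, false, false⟩,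
 nat_lit 0, nat_lit 100000, nat_lit 0, nat_lit 0, nat_lit 50364, nat_lit 0, nat_lit 60000, nat_lit 3515, nat_lit 0, nat_lit 0, nat_lit 0, nat_lit 0, nat_lit 0, nat_lit 0, nat_lit 0, nat_lit 1000000, nat_lit 0, nat_lit 0, [(nat_lit 3, [(nat_lit 6, nat_lit 1000)])],
 ⟨p006_k42, nat_lit 0, nat_lit 0, nat_lit 0, nat_lit 0, nat_lit 303414, [nat_lit 35742533334, nat_lit 64135066667, nat_lit 76880000000], [], [nat_lit 99281542949, nat_lit 102951114829, nat_lit 96254108543, nat_lit 99924923235], nat_lit 1271250, nat_lit 1271250, nat_lit 21650, nat_lit 43600, nat_lit 0, nat_lit 0, [nat_lit 631250, nat_lit 1271250, nat_lit 1271250], [nat_lit 90, nat_lit 40, nat_lit 20, nat_lit 40]⟩, C1.Rw.none,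
 ⟨nat_lit 6324, nat_lit 6520, ⟨.ofNat (nat_lit 108876), .ofNat (nat_lit 117294), .ofNat (nat_lit 119575), .ofNat (nat_lit 127994), .ofNat (nat_lit 118272), .ofNat (nat_lit 126498), .ofNat (nat_lit 128956), .ofNat (nat_lit 137182)⟩, ⟨.ofNat (nat_lit 0), .ofNat (nat_lit 0), .ofNat (nat_lit 0), .ofNat (nat_lit 0), .ofNat (nat_lit 0), .ofNat (nat_lit 0), .ofNat (nat_lit 0), .ofNat (nat_lit 0)⟩⟩, [⟨nat_lit 0, nat_lit 100, nat_lit 99, nat_lit 30, nat_lit 10101010101⟩, ⟨nat_lit 0, nat_lit 100, nat_lit 99, nat_lit 35, nat_lit 10101010101⟩, ⟨nat_lit 0, nat_lit 100, nat_lit 99, nat_lit 25, nat_lit 10101010101⟩]⟩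
noncomputable def p006_l134 : Lf2 := ⟨nat_lit 0, nat_lit 2, [nat_lit 10, nat_lit 5, nat_lit 5, nat_lit 20], true, nat_lit 0, nat_lit 0, nat_lit 0, nat_lit 0, ⟨nat_lit 0, nat_lit 0, nat_lit 1000, nat_lit 5, nat_lit 48, nat_lit 0, nat_lit 0, nat_lit 0, nat_lit 0, nat_lit 215, nat_lit 21600, nat_lit 251, nat_lit 66036833, nat_lit 0, nat_lit 0, nat_lit 376179, false, false⟩,
 nat_lit 0, nat_lit 100000, nat_lit 0, nat_lit 0, nat_lit 50364, nat_lit 0, nat_lit 18408, nat_lit 3009, nat_lit 0, nat_lit 0, nat_lit 0, nat_lit 0, nat_lit 0, nat_lit 0, nat_lit 0, nat_lit 400000, nat_lit 0, nat_lit 0, [(nat_lit 3, [(nat_lit 5, nat_lit 1000)])],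
 ⟨p006_k43, nat_lit 0, nat_lit 0, nat_lit 0, nat_lit 0, nat_lit 240442, [nat_lit 37092666667, nat_lit 60558533334, nat_lit 71478400000], [], [nat_lit 100759238042, nat_lit 102127193726, nat_lit 98602113106, nat_lit 99124644965], nat_lit 1271250, nat_lit 1271250, nat_lit 21650, nat_lit 43600, nat_lit 0, nat_lit 0, [nat_lit 780000, nat_lit 1435000, nat_lit 1271250], [nat_lit 18, nat_lit 40, nat_lit 20, nat_lit 80]⟩, C1.Rw.none,
 ⟨nat_lit 6422, nat_lit 6520, ⟨.ofNat (nat_lit 108876), .ofNat (nat_lit 117294), .ofNat (nat_lit 119575), .ofNat (nat_lit 127994), .ofNat (nat_lit 113598), .ofNat (nat_lit 121920), .ofNat (nat_lit 124289), .ofNat (nat_lit 132611)⟩, ⟨.ofNat (nat_lit 0), .ofNat (nat_lit 0), .ofNat (nat_lit 0), .ofNat (nat_lit 0), .ofNat (nat_lit 0), .ofNat (nat_lit 0), .ofNat (nat_lit 0), .ofNat (nat_lit 0)⟩⟩, [⟨nat_lit 0, nat_lit 100, nat_lit 99, nat_lit 29, nat_lit 10101010101⟩, ⟨nat_lit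 0, nat_lit 100, nat_lit 99, nat_lit 25, nat_lit 4587752428⟩]⟩
noncomputable def p006_l135 : Lf2 := ⟨nat_lit 0, nat_lit 2, [nat_lit 10, nat_lit 5, nat_lit 5, nat_lit 20], true, nat_lit 0, nat_lit 0, nat_lit 0, nat_lit 0, ⟨nat_lit 0, nat_lit 0, nat_lit 1000, nat_lit 5, nat_lit 48, nat_lit 0, nat_lit 0, nat_lit 0, nat_lit 0, nat_lit 215, nat_lit 21600, nat_lit 251, nat_lit 66036833, nat_lit 0, nat_lit 0, nat_lit 376179, false, false⟩,
 nat_lit 0, nat_lit 100000, nat_lit 0, nat_lit 0, nat_lit 50364, nat_lit 0, nat_lit 10644, nat_lit 983, nat_lit 0, nat_lit 0, nat_lit 0, nat_lit 0, nat_lit 0, nat_lit 0, nat_lit 0, nat_lit 1000000, nat_lit 0, nat_lit 0, [(nat_lit 3, [(nat_lit 6, nat_lit 1000)])],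
 ⟨p006_k55, nat_lit 0, nat_lit 0, nat_lit 0, nat_lit 0, nat_lit 240442, [nat_lit 20701142858, nat_lit 22331600000], [], [nat_lit 21047585066, nat_lit 22412412774, nat_lit 18981129750, nat_lit 19411406700], nat_lit 1271250, nat_lit 1271250, nat_lit 21650, nat_lit 43600, nat_lit 0, nat_lit 0, [nat_lit 1412500, nat_lit 1271250], [nat_lit 26, nat_lit 40, nat_lit 20, nat_lit 80]⟩, C1.Rw.none,
 ⟨nat_lit 6422, nat_lit 6520, ⟨.ofNat (nat_lit 108876), .ofNat (nat_lit 117294), .ofNat (nat_lit 119575), .ofNat (nat_lit 127994), .ofNat (nat_lit 113598), .ofNat (nat_lit 121920), .ofNat (nat_lit 124289), .ofNat (nat_lit 132611)⟩, ⟨.ofNat (nat_lit 0), .ofNat (nat_lit 0), .ofNat (nat_lit 0), .ofNat (nat_lit 0), .ofNat (nat_lit 0), .ofNat (nat_lit 0), .ofNat (nat_lit 0), .ofNat (nat_lit 0)⟩⟩, [⟨nat_lit 0, nat_lit 100, nat_lit 99, nat_lit 29, nat_lit 10101010101⟩, ⟨nat_lit 0, nat_lit 100, nat_lit 99, nat_lit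 25, nat_lit 4921685673⟩]⟩
noncomputable def p006_l136 : Lf2 := ⟨nat_lit 0, nat_lit 2, [nat_lit 10, nat_lit 5, nat_lit 5, nat_lit 20], true, nat_lit 0, nat_lit 0, nat_lit 0, nat_lit 0, ⟨nat_lit 0, nat_lit 0, nat_lit 1000, nat_lit 5, nat_lit 48, nat_lit 0, nat_lit 0, nat_lit 0, nat_lit 0, nat_lit 215, nat_lit 21600, nat_lit 251, nat_lit 66036833, nat_lit 0, nat_lit 0, nat_lit 376179, false, false⟩,
 nat_lit 0, nat_lit 100000, nat_lit 0, nat_lit 0, nat_lit 50364, nat_lit 0, nat_lit 10644, nat_lit 983, nat_lit 0, nat_lit 0, nat_lit 0, nat_lit 0, nat_lit 0, nat_lit 0, nat_lit 0, nat_lit 1000000, nat_lit 0, nat_lit 0, [(nat_lit 3, [(nat_lit 6, nat_lit 1000)])],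
 ⟨p006_k55, nat_lit 0, nat_lit 0, nat_lit 0, nat_lit 0, nat_lit 240442, [nat_lit 20701142858, nat_lit 22331600000], [], [nat_lit 21047585066, nat_lit 22412412774, nat_lit 18981129750, nat_lit 19411406700], nat_lit 1271250, nat_lit 1271250, nat_lit 21650, nat_lit 43600, nat_lit 0, nat_lit 0, [nat_lit 1412500, nat_lit 1271250], [nat_lit 26, nat_lit 40, nat_lit 20, nat_lit 80]⟩, C1.Rw.none,
 ⟨nat_lit 6422, nat_lit 6520, ⟨.ofNat (nat_lit 108876), .ofNat (nat_lit 117294), .ofNat (nat_lit 119575), .ofNat (nat_lit 127994), .ofNat (nat_lit 113598), .ofNat (nat_lit 121920), .ofNat (nat_lit 124289), .ofNat (nat_lit 132611)⟩, ⟨.ofNat (nat_lit 0), .ofNat (nat_lit 0), .ofNat (nat_lit 0), .ofNat (nat_lit 0), .ofNat (nat_lit 0), .ofNat (nat_lit 0), .ofNat (nat_lit 0), .ofNat (nat_lit 0)⟩⟩, [⟨nat_lit 0, nat_lit 100, nat_lit 99, nat_lit 29, nat_lit 10101010101⟩, ⟨nat_lit 0, nat_lit 100, nat_lit 99, nat_lit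 25, nat_lit 4921685673⟩]⟩
noncomputable def p006_l137 : Lf2 := ⟨nat_lit 0, nat_lit 2, [nat_lit 10, nat_lit 5, nat_lit 5, nat_lit 20], true, nat_lit 0, nat_lit 0, nat_lit 0, nat_lit 0, ⟨nat_lit 0, nat_lit 0, nat_lit 1000, nat_lit 5, nat_lit 50, nat_lit 0, nat_lit 0, nat_lit 0, nat_lit 0, nat_lit 215, nat_lit 24067, nat_lit 253, nat_lit 65962469, nat_lit 0, nat_lit 0, nat_lit 399443, false, false⟩,
 nat_lit 0, nat_lit 100000, nat_lit 0, nat_lit 0, nat_lit 51648, nat_lit 0, nat_lit 10378, nat_lit 1368, nat_lit 0, nat_lit 0, nat_lit 0, nat_lit 0, nat_lit 0, nat_lit 0, nat_lit 0, nat_lit 1000000, nat_lit 0, nat_lit 0, [(nat_lit 3, [(nat_lit 6, nat_lit 1000)])],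
 ⟨p006_k56, nat_lit 0, nat_lit 0, nat_lit 0, nat_lit 0, nat_lit 254869, [nat_lit 28401142858, nat_lit 31571600000], [], [nat_lit 36930667247, nat_lit 38571468795, nat_lit 33859373240, nat_lit 35492005857], nat_lit 1271250, nat_lit 1271250, nat_lit 21650, nat_lit 43600, nat_lit 0, nat_lit 0, [nat_lit 1412500, nat_lit 1271250], [nat_lit 26, nat_lit 40, nat_lit 20, nat_lit 80]⟩, C1.Rw.none,
 ⟨nat_lit 6324, nat_lit 6423, ⟨.ofNat (nat_lit 113598), .ofNat (nat_lit 121920), .ofNat (nat_lit 124289), .ofNat (nat_lit 132611), .ofNat (nat_lit 118272), .ofNat (nat_lit 126498), .ofNat (nat_lit 128956), .ofNat (nat_lit 137182)⟩, ⟨.ofNat (nat_lit 0), .ofNat (nat_lit 0), .ofNat (nat_lit 0), .ofNat (nat_lit 0), .ofNat (nat_lit 0), .ofNat (nat_lit 0), .ofNat (nat_lit 0), .ofNat (nat_lit 0)⟩⟩, [⟨nat_lit 0, nat_lit 100, nat_lit 99, nat_lit 31, nat_lit 9020494973⟩, ⟨nat_lit 0, nat_lit 100, nat_lit 99, nat_lit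 27, nat_lit 10101010101⟩]⟩
noncomputable def p006_l138 : Lf2 := ⟨nat_lit 0, nat_lit 2, [nat_lit 10, nat_lit 5, nat_lit 5, nat_lit 20], true, nat_lit 0, nat_lit 0, nat_lit 0, nat_lit 0, ⟨nat_lit 0, nat_lit 0, nat_lit 1000, nat_lit 5, nat_lit 53, nat_lit 0, nat_lit 0, nat_lit 0, nat_lit 0, nat_lit 215, nat_lit 26667, nat_lit 255, nat_lit 65829836, nat_lit 0, nat_lit 0, nat_lit 439943, false, false⟩,
 nat_lit 0, nat_lit 10076, nat_lit 0, nat_lit 0, nat_lit 5074, nat_lit 0, nat_lit 3038, nat_lit 182, nat_lit 0, nat_lit 0, nat_lit 0, nat_lit 0, nat_lit 0, nat_lit 0, nat_lit 0, nat_lit 1000000, nat_lit 0, nat_lit 0, [(nat_lit 3, [(nat_lit 6, nat_lit 1000)])],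
 ⟨p006_k45, nat_lit 0, nat_lit 0, nat_lit 0, nat_lit 0, nat_lit 288398, [nat_lit 2412533334, nat_lit 4141066667, nat_lit 3554000001, nat_lit 3107600000], [], [nat_lit 18333885461, nat_lit 18615850917, nat_lit 17837001314, nat_lit 18100338825], nat_lit 1271250, nat_lit 1271250, nat_lit 43600, nat_lit 88400, nat_lit 0, nat_lit 0, [nat_lit 631250, nat_lit 1271250, nat_lit 1271250, nat_lit 1271250], [nat_lit 139, nat_lit 40, nat_lit 20, nat_lit 40]⟩, C1.Rw.none,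
 ⟨nat_lit 6422, nat_lit 6520, ⟨.ofNat (nat_lit 117294), .ofNat (nat_lit 134132), .ofNat (nat_lit 127994), .ofNat (nat_lit 144831), .ofNat (nat_lit 121920), .ofNat (nat_lit 138564), .ofNat (nat_lit 132611), .ofNat (nat_lit 149255)⟩, ⟨.ofNat (nat_lit 0), .ofNat (nat_lit 0), .ofNat (nat_lit 0), .ofNat (nat_lit 0), .ofNat (nat_lit 0), .ofNat (nat_lit 0), .ofNat (nat_lit 0), .ofNat (nat_lit 0)⟩⟩, [⟨nat_lit 0, nat_lit 100, nat_lit 100, nat_lit 32, nat_lit 427779881⟩]⟩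
noncomputable def p006_l139 : Lf2 := ⟨nat_lit 0, nat_lit 2, [nat_lit 10, nat_lit 5, nat_lit 5, nat_lit 20], false, nat_lit 0, nat_lit 0, nat_lit 0, nat_lit 0, ⟨nat_lit 0, nat_lit 0, nat_lit 1000, nat_lit 5, nat_lit 53, nat_lit 0, nat_lit 0, nat_lit 0, nat_lit 0, nat_lit 215, nat_lit 26667, nat_lit 255, nat_lit 65829836, nat_lit 0, nat_lit 0, nat_lit 439943, false, false⟩,
 nat_lit 100000, nat_lit 0, nat_lit 0, nat_lit 0, nat_lit 50364, nat_lit 47826, nat_lit 11232, nat_lit 1159, nat_lit 0, nat_lit 10195, nat_lit 1917, nat_lit 0, nat_lit 0, nat_lit 0, nat_lit 0, nat_lit 1000000, nat_lit 0, nat_lit 0, [(nat_lit 3, [(nat_lit 6, nat_lit 1000)])],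
 ⟨p006_k55, nat_lit 0, nat_lit 0, nat_lit 0, nat_lit 0, nat_lit 288398, [nat_lit 24221142858, nat_lit 26555600000], [], [nat_lit 29541129750, nat_lit 26451644200, nat_lit 28486955681, nat_lit 22065057150], nat_lit 1271250, nat_lit 1271250, nat_lit 43600, nat_lit 88400, nat_lit 0, nat_lit 0, [nat_lit 1412500, nat_lit 1271250], [nat_lit 26, nat_lit 40, nat_lit 20, nat_lit 80]⟩, ⟨p006_k48, nat_lit 0, nat_lit 0, nat_lit 0, nat_lit 0, nat_lit 304157, [nat_lit 38340000000, nat_lit 46008000000], [], [nat_lit 67036461156, nat_lit 59909690935, nat_lit 65829141612, nat_lit 53632583788], nat_lit 1271250, nat_lit 1271250, nat_lit 43600, nat_lit 88400, nat_lit 0, nat_lit 0, [nat_lit 1412500, nat_lit 1271250], [nat_lit 26, nat_lit 40, nat_lit 20, nat_lit 80]⟩,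
 ⟨nat_lit 6422, nat_lit 6520, ⟨.ofNat (nat_lit 117294), .ofNat (nat_lit 134132), .ofNat (nat_lit 127994), .ofNat (nat_lit 144831), .ofNat (nat_lit 121920), .ofNat (nat_lit 138564), .ofNat (nat_lit 132611), .ofNat (nat_lit 149255)⟩, ⟨.ofNat (nat_lit 0), .ofNat (nat_lit 0), .ofNat (nat_lit 0), .ofNat (nat_lit 0), .ofNat (nat_lit 0), .ofNat (nat_lit 0), .ofNat (nat_lit 0), .ofNat (nat_lit 0)⟩⟩, [⟨nat_lit 0, nat_lit 100, nat_lit 99, nat_lit 29, nat_lit 1632300639⟩]⟩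
noncomputable def p006_l140 : Lf2 := ⟨nat_lit 0, nat_lit 2, [nat_lit 10, nat_lit 5, nat_lit 5, nat_lit 20], true, nat_lit 0, nat_lit 0, nat_lit 0, nat_lit 0, ⟨nat_lit 0, nat_lit 0, nat_lit 1000, nat_lit 5, nat_lit 55, nat_lit 0, nat_lit 0, nat_lit 0, nat_lit 0, nat_lit 215, nat_lit 28017, nat_lit 256, nat_lit 65750976, nat_lit 0, nat_lit 0, nat_lit 463471, false, false⟩,
 nat_lit 0, nat_lit 100000, nat_lit 0, nat_lit 0, nat_lit 51648, nat_lit 0, nat_lit 38555, nat_lit 4088, nat_lit 0, nat_lit 0, nat_lit 0, nat_lit 0, nat_lit 0, nat_lit 0, nat_lit 0, nat_lit 1000000, nat_lit 0, nat_lit 0, [(nat_lit 3, [(nat_lit 6, nat_lit 1000)])],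
 ⟨p006_k46, nat_lit 0, nat_lit 0, nat_lit 0, nat_lit 0, nat_lit 301556, [nat_lit 41472533334, nat_lit 74449066667, nat_lit 89486000001, nat_lit 96851600000], [], [nat_lit 119636607031, nat_lit 121039216825, nat_lit 114212721198, nat_lit 115696904610], nat_lit 1271250, nat_lit 1271250, nat_lit 43600, nat_lit 88400, nat_lit 0, nat_lit 0, [nat_lit 631250, nat_lit 1271250, nat_lit 1271250, nat_lit 1271250], [nat_lit 139, nat_lit 40, nat_lit 20, nat_lit 40]⟩, C1.Rw.none,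
 ⟨nat_lit 6324, nat_lit 6423, ⟨.ofNat (nat_lit 121920), .ofNat (nat_lit 138564), .ofNat (nat_lit 132611), .ofNat (nat_lit 149255), .ofNat (nat_lit 126498), .ofNat (nat_lit 142951), .ofNat (nat_lit 137182), .ofNat (nat_lit 153635)⟩, ⟨.ofNat (nat_lit 0), .ofNat (nat_lit 0), .ofNat (nat_lit 0), .ofNat (nat_lit 0), .ofNat (nat_lit 0), .ofNat (nat_lit 0), .ofNat (nat_lit 0), .ofNat (nat_lit 0)⟩⟩, [⟨nat_lit 0, nat_lit 100, nat_lit 99, nat_lit 35, nat_lit 650177806⟩]⟩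
noncomputable def p006_l141 : Lf2 := ⟨nat_lit 0, nat_lit 2, [nat_lit 10, nat_lit 5, nat_lit 5, nat_lit 20], false, nat_lit 0, nat_lit 0, nat_lit 0, nat_lit 0, ⟨nat_lit 0, nat_lit 0, nat_lit 1000, nat_lit 5, nat_lit 55, nat_lit 0, nat_lit 0, nat_lit 0, nat_lit 0, nat_lit 215, nat_lit 28017, nat_lit 256, nat_lit 65750976, nat_lit 0, nat_lit 0, nat_lit 463471, false, false⟩,
 nat_lit 100000, nat_lit 0, nat_lit 0, nat_lit 0, nat_lit 51648, nat_lit 47826, nat_lit 10054, nat_lit 1317, nat_lit 0, nat_lit 11315, nat_lit 1832, nat_lit 0, nat_lit 0, nat_lit 0, nat_lit 0, nat_lit 1000000, nat_lit 0, nat_lit 0, [(nat_lit 3, [(nat_lit 6, nat_lit 1000)])],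
 ⟨p006_k56, nat_lit 0, nat_lit 0, nat_lit 0, nat_lit 0, nat_lit 301556, [nat_lit 27381142858, nat_lit 30347600000], [], [nat_lit 32062305790, nat_lit 33452005857, nat_lit 29733246994, nat_lit 27312641303], nat_lit 1271250, nat_lit 1271250, nat_lit 43600, nat_lit 88400, nat_lit 0, nat_lit 0, [nat_lit 1412500, nat_lit 1271250], [nat_lit 26, nat_lit 40, nat_lit 20, nat_lit 80]⟩, ⟨p006_k48, nat_lit 0, nat_lit 0, nat_lit 0, nat_lit 0, nat_lit 326364, [nat_lit 36640000000, nat_lit 43968000000], [], [nat_lit 61936461156, nat_lit 56980690935, nat_lit 60729141612, nat_lit 49841837828], nat_lit 1271250, nat_lit 1271250, nat_lit 43600, nat_lit 88400, nat_lit 0, nat_lit 0, [nat_lit 1412500, nat_lit 1271250], [nat_lit 26, nat_lit 40, nat_lit 20, nat_lit 80]⟩,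
 ⟨nat_lit 6324, nat_lit 6423, ⟨.ofNat (nat_lit 121920), .ofNat (nat_lit 138564), .ofNat (nat_lit 132611), .ofNat (nat_lit 149255), .ofNat (nat_lit 126498), .ofNat (nat_lit 142951), .ofNat (nat_lit 137182), .ofNat (nat_lit 153635)⟩, ⟨.ofNat (nat_lit 0), .ofNat (nat_lit 0), .ofNat (nat_lit 0), .ofNat (nat_lit 0), .ofNat (nat_lit 0), .ofNat (nat_lit 0), .ofNat (nat_lit 0), .ofNat (nat_lit 0)⟩⟩, [⟨nat_lit 0, nat_lit 100, nat_lit 99, nat_lit 31, nat_lit 4742163318⟩]⟩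
noncomputable def p006_l142 : Lf2 := ⟨nat_lit 0, nat_lit 2, [nat_lit 10, nat_lit 5, nat_lit 5, nat_lit 20], false, nat_lit 0, nat_lit 0, nat_lit 0, nat_lit 0, ⟨nat_lit 1000, nat_lit 0, nat_lit 0, nat_lit 0, nat_lit 0, nat_lit 0, nat_lit 0, nat_lit 0, nat_lit 0, nat_lit 0, nat_lit 0, nat_lit 0, nat_lit 0, nat_lit 0, nat_lit 0, nat_lit 0, false, false⟩,
 nat_lit 93617, nat_lit 100000, nat_lit 0, nat_lit 0, nat_lit 99999, nat_lit 12052, nat_lit 24712, nat_lit 3142, nat_lit 0, nat_lit 3229, nat_lit 0, nat_lit 0, nat_lit 0, nat_lit 0, nat_lit 0, nat_lit 0, nat_lit 0, nat_lit 0, [],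
 ⟨p006_k56, nat_lit 0, nat_lit 0, nat_lit 0, nat_lit 0, nat_lit 301556, [nat_lit 69090000000, nat_lit 83376000000], [], [nat_lit 88865268956, nat_lit 82117419551, nat_lit 86633313068, nat_lit 73882470577], nat_lit 1271250, nat_lit 1271250, nat_lit 43600, nat_lit 88400, nat_lit 0, nat_lit 0, [nat_lit 1412500, nat_lit 1271250], [nat_lit 26, nat_lit 40, nat_lit 20, nat_lit 80]⟩, ⟨p006_k48, nat_lit 0, nat_lit 0, nat_lit 0, nat_lit 0, nat_lit 326364, [nat_lit 6250000000, nat_lit 7968000000], [], [nat_lit 26947712712, nat_lit 23865122054, nat_lit 26822672024, nat_lit 23749178216], nat_lit 1271250, nat_lit 1271250, nat_lit 43600, nat_lit 88400, nat_lit 0, nat_lit 0, [nat_lit 1412500, nat_lit 1271250], [nat_lit 26, nat_lit 40, nat_lit 20, nat_lit 80]⟩,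
 zbF0, [⟨nat_lit 0, nat_lit 100, nat_lit 99, nat_lit 35, nat_lit 2329342658⟩]⟩
noncomputable def p006_l143 : Lf2 := ⟨nat_lit 0, nat_lit 2, [nat_lit 10, nat_lit 5, nat_lit 5, nat_lit 20], false, nat_lit 0, nat_lit 0, nat_lit 0, nat_lit 0, ⟨nat_lit 1000, nat_lit 0, nat_lit 0, nat_lit 0, nat_lit 0, nat_lit 0, nat_lit 0, nat_lit 0, nat_lit 0, nat_lit 0, nat_lit 0, nat_lit 0, nat_lit 0, nat_lit 0, nat_lit 0, nat_lit 0, false, false⟩,
 nat_lit 27713, nat_lit 22507, nat_lit 0, nat_lit 0, nat_lit 25293, nat_lit 13254, nat_lit 6681, nat_lit 0, nat_lit 0, nat_lit 2573, nat_lit 0, nat_lit 0, nat_lit 0, nat_lit 0, nat_lit 0, nat_lit 0, nat_lit 0, nat_lit 0, [],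
 ⟨p006_k55, nat_lit 0, nat_lit 0, nat_lit 0, nat_lit 0, nat_lit 280293, [nat_lit 6250000000, nat_lit 7968000000], [], [nat_lit 6753594682, nat_lit 5920696265, nat_lit 6580924586, nat_lit 4648726555], nat_lit 1271250, nat_lit 1271250, nat_lit 88400, nat_lit 111251, nat_lit 0, nat_lit 0, [nat_lit 1412500, nat_lit 1271250], [nat_lit 26, nat_lit 40, nat_lit 20, nat_lit 80]⟩, ⟨p006_k48, nat_lit 0, nat_lit 0, nat_lit 0, nat_lit 0, nat_lit 295609, [nat_lit 6250000000, nat_lit 7968000000], [], [nat_lit 25586369348, nat_lit 23125466841, nat_lit 25534391576, nat_lit 22159980086], nat_lit 1271250, nat_lit 1271250, nat_lit 88400, nat_lit 111251, nat_lit 0, nat_lit 0, [nat_lit 1412500, nat_lit 1271250], [nat_lit 26, nat_lit 40, nat_lit 20, nat_lit 80]⟩,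
 zbF0, []⟩
noncomputable def p006_l144 : Lf2 := ⟨nat_lit 0, nat_lit 2, [nat_lit 10, nat_lit 5, nat_lit 5, nat_lit 20], false, nat_lit 0, nat_lit 0, nat_lit 0, nat_lit 0, ⟨nat_lit 1000, nat_lit 0, nat_lit 0, nat_lit 0, nat_lit 0, nat_lit 0, nat_lit 0, nat_lit 0, nat_lit 0, nat_lit 0, nat_lit 0, nat_lit 0, nat_lit 0, nat_lit 0, nat_lit 0, nat_lit 0, false, false⟩,
 nat_lit 28289, nat_lit 13676, nat_lit 0, nat_lit 0, nat_lit 21457, nat_lit 13529, nat_lit 5456, nat_lit 0, nat_lit 0, nat_lit 2119, nat_lit 0, nat_lit 0, nat_lit 0, nat_lit 0, nat_lit 0, nat_lit 0, nat_lit 0, nat_lit 0, [],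
 ⟨p006_k57, nat_lit 0, nat_lit 0, nat_lit 0, nat_lit 0, nat_lit 283943, [nat_lit 6250000000, nat_lit 7968000000], [], [nat_lit 10035735489, nat_lit 9608380102, nat_lit 9905544896, nat_lit 8812774217], nat_lit 1271250, nat_lit 1271250, nat_lit 88400, nat_lit 111251, nat_lit 0, nat_lit 0, [nat_lit 1412500, nat_lit 1271250], [nat_lit 26, nat_lit 40, nat_lit 20, nat_lit 80]⟩, ⟨p006_k48, nat_lit 0, nat_lit 0, nat_lit 0, nat_lit 0, nat_lit 304157, [nat_lit 6250000000, nat_lit 7968000000], [], [nat_lit 25303521398, nat_lit 23485117893, nat_lit 25248568676, nat_lit 22718031311], nat_lit 1271250, nat_lit 1271250, nat_lit 88400, nat_lit 111251, nat_lit 0, nat_lit 0, [nat_lit 1412500, nat_lit 1271250], [nat_lit 26, nat_lit 40, nat_lit 20, nat_lit 80]⟩,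
 zbF0, []⟩
noncomputable def p006_l145 : Lf2 := ⟨nat_lit 0, nat_lit 2, [nat_lit 10, nat_lit 5, nat_lit 5, nat_lit 20], false, nat_lit 0, nat_lit 0, nat_lit 0, nat_lit 0, ⟨nat_lit 1000, nat_lit 0, nat_lit 0, nat_lit 0, nat_lit 0, nat_lit 0, nat_lit 0, nat_lit 0, nat_lit 0, nat_lit 0, nat_lit 0, nat_lit 0, nat_lit 0, nat_lit 0, nat_lit 0, nat_lit 0, false, false⟩,
 nat_lit 28866, nat_lit 5057, nat_lit 0, nat_lit 0, nat_lit 17520, nat_lit 13805, nat_lit 4525, nat_lit 0, nat_lit 0, nat_lit 1800, nat_lit 0, nat_lit 0, nat_lit 0, nat_lit 0, nat_lit 0, nat_lit 0, nat_lit 0, nat_lit 0, [],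
 ⟨p006_k56, nat_lit 0, nat_lit 0, nat_lit 0, nat_lit 0, nat_lit 301556, [nat_lit 6250000000, nat_lit 7968000000], [], [nat_lit 14496716408, nat_lit 13695065152, nat_lit 14408507120, nat_lit 12685325120], nat_lit 1271250, nat_lit 1271250, nat_lit 88400, nat_lit 111251, nat_lit 0, nat_lit 0, [nat_lit 1412500, nat_lit 1271250], [nat_lit 26, nat_lit 40, nat_lit 20, nat_lit 80]⟩, ⟨p006_k48, nat_lit 0, nat_lit 0, nat_lit 0, nat_lit 0, nat_lit 326364, [nat_lit 6250000000, nat_lit 7968000000], [], [nat_lit 25019644910, nat_lit 23844861068, nat_lit 24961706420, nat_lit 23061178495], nat_lit 1271250, nat_lit 1271250, nat_lit 88400, nat_lit 111251, nat_lit 0, nat_lit 0, [nat_lit 1412500, nat_lit 1271250], [nat_lit 26, nat_lit 40, nat_lit 20, nat_lit 80]⟩,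
 zbF0, []⟩
noncomputable def p006_l146 : Lf2 := ⟨nat_lit 0, nat_lit 2, [nat_lit 10, nat_lit 5, nat_lit 5, nat_lit 20], false, nat_lit 0, nat_lit 0, nat_lit 0, nat_lit 0, ⟨nat_lit 1000, nat_lit 0, nat_lit 0, nat_lit 0, nat_lit 0, nat_lit 0, nat_lit 0, nat_lit 0, nat_lit 0, nat_lit 0, nat_lit 0, nat_lit 0, nat_lit 0, nat_lit 0, nat_lit 0, nat_lit 0, false, false⟩,
 nat_lit 29329, nat_lit 13343, nat_lit 0, nat_lit 0, nat_lit 21491, nat_lit 14026, nat_lit 5929, nat_lit 0, nat_lit 0, nat_lit 1891, nat_lit 0, nat_lit 0, nat_lit 0, nat_lit 0, nat_lit 0, nat_lit 0, nat_lit 0, nat_lit 0, [],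
 ⟨p006_k55, nat_lit 0, nat_lit 0, nat_lit 0, nat_lit 0, nat_lit 309454, [nat_lit 6250000000, nat_lit 7968000000], [], [nat_lit 11500704982, nat_lit 9106851121, nat_lit 11316962850, nat_lit 5884424888], nat_lit 1271250, nat_lit 1271250, nat_lit 111251, nat_lit 230001, nat_lit 0, nat_lit 0, [nat_lit 1412500, nat_lit 1271250], [nat_lit 26, nat_lit 40, nat_lit 20, nat_lit 80]⟩, ⟨p006_k48, nat_lit 0, nat_lit 0, nat_lit 0, nat_lit 0, nat_lit 326364, [nat_lit 6250000000, nat_lit 7968000000], [], [nat_lit 24732008744, nat_lit 22785985434, nat_lit 24750995432, nat_lit 21205475100], nat_lit 1271250, nat_lit 1271250, nat_lit 111251, nat_lit 230001, nat_lit 0, nat_lit 0, [nat_lit 1412500, nat_lit 1271250], [nat_lit 26, nat_lit 40, nat_lit 20, nat_lit 80]⟩,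
 zbF0, []⟩
noncomputable def b_NL_550_550_0_24 : St := ⟨false, nat_lit 1, nat_lit 1, nat_lit 1, nat_lit 20, nat_lit 230, nat_lit 240, nat_lit 220, nat_lit 230, nat_lit 4, nat_lit 40, nat_lit 0, nat_lit 0, nat_lit 0, nat_lit 0, nat_lit 0, nat_lit 0, nat_lit 0, nat_lit 8, nat_lit 460, nat_lit 600, nat_lit 0, nat_lit 800⟩
theorem d_NL_550_550_0_24 (h : EB TB.env) : Dead b_NL_550_550_0_24 := chkB_sound0 h (T :=
(.spl (nat_lit 2) (nat_lit 20)
(.spl (nat_lit 2) (nat_lit 16)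
(.spl (nat_lit 2) (nat_lit 8)
(.spl (nat_lit 6) (nat_lit 4)
(.leaf p006_l133)
(.spl (nat_lit 0) (nat_lit 235)
(.spl (nat_lit 7) (nat_lit 540)
(.spl (nat_lit 7) (nat_lit 500)
(.leaf p006_l134)
(.leaf p006_l135))
(.leaf p006_l136))
(.leaf p006_l137)))
(.spl (nat_lit 0) (nat_lit 235)
(.spl (nat_lit 8) (nat_lit 400)
(.leaf p006_l138)
(.leaf p006_l139))
(.spl (nat_lit 7) (nat_lit 540)
(.spl (nat_lit 8) (nat_lit 400)
(.leaf p006_l140)
(.leaf p006_l141))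
(.leaf p006_l142))))
(.spl (nat_lit 0) (nat_lit 235)
(.spl (nat_lit 0) (nat_lit 233)
(.leaf p006_l143)
(.leaf p006_l144))
(.leaf p006_l145)))
(.leaf p006_l146))) (by decide +kernel)
noncomputable def p006_l147 : Lf2 := ⟨nat_lit 0, nat_lit 2, [nat_lit 10, nat_lit 5, nat_lit 5, nat_lit 20], true, nat_lit 0, nat_lit 0, nat_lit 0, nat_lit 0, ⟨nat_lit 0, nat_lit 0, nat_lit 1000, nat_lit 5, nat_lit 57, nat_lit 0, nat_lit 0, nat_lit 0, nat_lit 0, nat_lit 215, nat_lit 29400, nat_lit 257, nat_lit 65687638, nat_lit 0, nat_lit 0, nat_lit 482091, false, false⟩,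
 nat_lit 0, nat_lit 5733, nat_lit 0, nat_lit 0, nat_lit 2887, nat_lit 0, nat_lit 547, nat_lit 0, nat_lit 0, nat_lit 0, nat_lit 0, nat_lit 0, nat_lit 0, nat_lit 7518364434703, nat_lit 53, nat_lit 1000000, nat_lit 0, nat_lit 0, [(nat_lit 3, [(nat_lit 6, nat_lit 1000)])],
 ⟨p006_k45, nat_lit 0, nat_lit 0, nat_lit 0, nat_lit 0, nat_lit 308198, [nat_lit 1122533334, nat_lit 1819066667, nat_lit 716000001, nat_lit 11600000], [], [nat_lit 13655942292, nat_lit 13885323520, nat_lit 13418052275, nat_lit 13633368779], nat_lit 1271250, nat_lit 1271250, nat_lit 43600, nat_lit 88400, nat_lit 0, nat_lit 0, [nat_lit 631250, nat_lit 1271250, nat_lit 1271250, nat_lit 1271250], [nat_lit 139, nat_lit 40, nat_lit 20, nat_lit 40]⟩, C1.Rw.none,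
 ⟨nat_lit 6422, nat_lit 6520, ⟨.ofNat (nat_lit 127994), .ofNat (nat_lit 144831), .ofNat (nat_lit 133343), .ofNat (nat_lit 150181), .ofNat (nat_lit 132611), .ofNat (nat_lit 149255), .ofNat (nat_lit 137956), .ofNat (nat_lit 154601)⟩, ⟨.ofNat (nat_lit 0), .ofNat (nat_lit 0), .ofNat (nat_lit 0), .ofNat (nat_lit 0), .ofNat (nat_lit 0), .ofNat (nat_lit 0), .ofNat (nat_lit 0), .ofNat (nat_lit 0)⟩⟩, [⟨nat_lit 0, nat_lit 100, nat_lit 100, nat_lit 35, nat_lit 265432564⟩]⟩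
noncomputable def p006_l148 : Lf2 := ⟨nat_lit 0, nat_lit 2, [nat_lit 10, nat_lit 5, nat_lit 5, nat_lit 20], false, nat_lit 0, nat_lit 0, nat_lit 0, nat_lit 0, ⟨nat_lit 0, nat_lit 0, nat_lit 1000, nat_lit 5, nat_lit 57, nat_lit 0, nat_lit 0, nat_lit 0, nat_lit 0, nat_lit 215, nat_lit 29400, nat_lit 257, nat_lit 65687638, nat_lit 0, nat_lit 0, nat_lit 482091, false, false⟩,
 nat_lit 100000, nat_lit 0, nat_lit 0, nat_lit 0, nat_lit 50364, nat_lit 50364, nat_lit 10232, nat_lit 859, nat_lit 0, nat_lit 11162, nat_lit 2158, nat_lit 0, nat_lit 0, nat_lit 0, nat_lit 0, nat_lit 1000000, nat_lit 0, nat_lit 0, [(nat_lit 3, [(nat_lit 6, nat_lit 1000)])],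
 ⟨p006_k55, nat_lit 0, nat_lit 0, nat_lit 0, nat_lit 0, nat_lit 308198, [nat_lit 18221142858, nat_lit 19355600000], [], [nat_lit 13090575531, nat_lit 14449864013, nat_lit 10486955681, nat_lit 8462797622], nat_lit 1271250, nat_lit 1271250, nat_lit 43600, nat_lit 88400, nat_lit 0, nat_lit 0, [nat_lit 1412500, nat_lit 1271250], [nat_lit 26, nat_lit 40, nat_lit 20, nat_lit 80]⟩, ⟨p006_k55, nat_lit 0, nat_lit 0, nat_lit 0, nat_lit 0, nat_lit 308198, [nat_lit 43160000000, nat_lit 51792000000], [], [nat_lit 66068289176, nat_lit 63273486752, nat_lit 64834915107, nat_lit 58413016576], nat_lit 1271250, nat_lit 1271250, nat_lit 43600, nat_lit 88400, nat_lit 0, nat_lit 0, [nat_lit 1412500, nat_lit 1271250], [nat_lit 26, nat_lit 40, nat_lit 20, nat_lit 80]⟩,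
 ⟨nat_lit 6422, nat_lit 6520, ⟨.ofNat (nat_lit 127994), .ofNat (nat_lit 144831), .ofNat (nat_lit 133343), .ofNat (nat_lit 150181), .ofNat (nat_lit 132611), .ofNat (nat_lit 149255), .ofNat (nat_lit 137956), .ofNat (nat_lit 154601)⟩, ⟨.ofNat (nat_lit 0), .ofNat (nat_lit 0), .ofNat (nat_lit 0), .ofNat (nat_lit 0), .ofNat (nat_lit 0), .ofNat (nat_lit 0), .ofNat (nat_lit 0), .ofNat (nat_lit 0)⟩⟩, [⟨nat_lit 0, nat_lit 100, nat_lit 100, nat_lit 33, nat_lit 4619546193⟩]⟩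
noncomputable def p006_l149 : Lf2 := ⟨nat_lit 0, nat_lit 2, [nat_lit 10, nat_lit 5, nat_lit 5, nat_lit 20], false, nat_lit 0, nat_lit 0, nat_lit 0, nat_lit 0, ⟨nat_lit 1000, nat_lit 0, nat_lit 0, nat_lit 0, nat_lit 0, nat_lit 0, nat_lit 0, nat_lit 0, nat_lit 0, nat_lit 0, nat_lit 0, nat_lit 0, nat_lit 0, nat_lit 0, nat_lit 0, nat_lit 0, false, false⟩,
 nat_lit 45662, nat_lit 0, nat_lit 0, nat_lit 0, nat_lit 22997, nat_lit 12829, nat_lit 6302, nat_lit 0, nat_lit 0, nat_lit 1518, nat_lit 0, nat_lit 0, nat_lit 0, nat_lit 69234556006834, nat_lit 0, nat_lit 0, nat_lit 0, nat_lit 0, [],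
 ⟨p006_k55, nat_lit 0, nat_lit 0, nat_lit 0, nat_lit 0, nat_lit 292264, [nat_lit 6250000000, nat_lit 7968000000], [], [nat_lit 9700642473, nat_lit 7941310583, nat_lit 9551943994, nat_lit 7795143372], nat_lit 1271250, nat_lit 1271250, nat_lit 88400, nat_lit 111251, nat_lit 0, nat_lit 0, [nat_lit 1412500, nat_lit 1271250], [nat_lit 26, nat_lit 40, nat_lit 20, nat_lit 80]⟩, ⟨p006_k55, nat_lit 0, nat_lit 0, nat_lit 0, nat_lit 0, nat_lit 292264, [nat_lit 6250000000, nat_lit 7968000000], [], [nat_lit 22751854116, nat_lit 23067759962, nat_lit 22709315658, nat_lit 21840953497], nat_lit 1271250, nat_lit 1271250, nat_lit 88400, nat_lit 111251, nat_lit 0, nat_lit 0, [nat_lit 1412500, nat_lit 1271250], [nat_lit 26, nat_lit 40, nat_lit 20, nat_lit 80]⟩,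
 zbF0, []⟩
noncomputable def p006_l150 : Lf2 := ⟨nat_lit 0, nat_lit 2, [nat_lit 10, nat_lit 5, nat_lit 5, nat_lit 20], false, nat_lit 0, nat_lit 0, nat_lit 0, nat_lit 0, ⟨nat_lit 1000, nat_lit 0, nat_lit 0, nat_lit 0, nat_lit 0, nat_lit 0, nat_lit 0, nat_lit 0, nat_lit 0, nat_lit 0, nat_lit 0, nat_lit 0, nat_lit 0, nat_lit 0, nat_lit 0, nat_lit 0, false, false⟩,
 nat_lit 24197, nat_lit 17769, nat_lit 0, nat_lit 0, nat_lit 21458, nat_lit 12186, nat_lit 5457, nat_lit 0, nat_lit 0, nat_lit 1725, nat_lit 0, nat_lit 0, nat_lit 0, nat_lit 0, nat_lit 0, nat_lit 0, nat_lit 0, nat_lit 0, [],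
 ⟨p006_k57, nat_lit 0, nat_lit 0, nat_lit 0, nat_lit 0, nat_lit 303437, [nat_lit 6250000000, nat_lit 7968000000], [], [nat_lit 10034375426, nat_lit 9607177011, nat_lit 9904174506, nat_lit 8811352898], nat_lit 1271250, nat_lit 1271250, nat_lit 88400, nat_lit 111251, nat_lit 0, nat_lit 0, [nat_lit 1412500, nat_lit 1271250], [nat_lit 26, nat_lit 40, nat_lit 20, nat_lit 80]⟩, ⟨p006_k55, nat_lit 0, nat_lit 0, nat_lit 0, nat_lit 0, nat_lit 308198, [nat_lit 6250000000, nat_lit 7968000000], [], [nat_lit 23577181524, nat_lit 22530365284, nat_lit 23541356372, nat_lit 21989822666], nat_lit 1271250, nat_lit 1271250, nat_lit 88400, nat_lit 111251, nat_lit 0, nat_lit 0, [nat_lit 1412500, nat_lit 1271250], [nat_lit 26, nat_lit 40, nat_lit 20, nat_lit 80]⟩,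
 zbF0, []⟩
noncomputable def p006_l151 : Lf2 := ⟨nat_lit 0, nat_lit 2, [nat_lit 10, nat_lit 5, nat_lit 5, nat_lit 20], false, nat_lit 0, nat_lit 0, nat_lit 0, nat_lit 0, ⟨nat_lit 1000, nat_lit 0, nat_lit 0, nat_lit 0, nat_lit 0, nat_lit 0, nat_lit 0, nat_lit 0, nat_lit 0, nat_lit 0, nat_lit 0, nat_lit 0, nat_lit 0, nat_lit 0, nat_lit 0, nat_lit 0, false, false⟩,
 nat_lit 44441, nat_lit 0, nat_lit 0, nat_lit 0, nat_lit 22382, nat_lit 13265, nat_lit 6166, nat_lit 0, nat_lit 0, nat_lit 1087, nat_lit 0, nat_lit 0, nat_lit 0, nat_lit 68475262510083, nat_lit 0, nat_lit 0, nat_lit 0, nat_lit 0, [],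
 ⟨p006_k55, nat_lit 0, nat_lit 0, nat_lit 0, nat_lit 0, nat_lit 308198, [nat_lit 6250000000, nat_lit 7968000000], [], [nat_lit 10347752764, nat_lit 7498054142, nat_lit 10136699700, nat_lit 7307816338], nat_lit 1271250, nat_lit 1271250, nat_lit 111251, nat_lit 230001, nat_lit 0, nat_lit 0, [nat_lit 1412500, nat_lit 1271250], [nat_lit 26, nat_lit 40, nat_lit 20, nat_lit 80]⟩, ⟨p006_k55, nat_lit 0, nat_lit 0, nat_lit 0, nat_lit 0, nat_lit 308198, [nat_lit 6250000000, nat_lit 7968000000], [], [nat_lit 22145132530, nat_lit 22718962960, nat_lit 22213533750, nat_lit 20536957135], nat_lit 1271250, nat_lit 1271250, nat_lit 111251, nat_lit 230001, nat_lit 0, nat_lit 0, [nat_lit 1412500, nat_lit 1271250], [nat_lit 26, nat_lit 40, nat_lit 20, nat_lit 80]⟩,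
 zbF0, []⟩
noncomputable def b_NL_550_550_0_25 : St := ⟨false, nat_lit 1, nat_lit 1, nat_lit 1, nat_lit 20, nat_lit 230, nat_lit 235, nat_lit 230, nat_lit 240, nat_lit 8, nat_lit 40, nat_lit 0, nat_lit 0, nat_lit 0, nat_lit 0, nat_lit 0, nat_lit 0, nat_lit 0, nat_lit 8, nat_lit 460, nat_lit 600, nat_lit 0, nat_lit 800⟩
theorem d_NL_550_550_0_25 (h : EB TB.env) : Dead b_NL_550_550_0_25 := chkB_sound0 h (T :=
(.ord (.spl (nat_lit 2) (nat_lit 20)
(.spl (nat_lit 2) (nat_lit 16)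
(.spl (nat_lit 8) (nat_lit 400)
(.leaf p006_l147)
(.leaf p006_l148))
(.spl (nat_lit 0) (nat_lit 233)
(.ord (.leaf p006_l149))
(.leaf p006_l150)))
(.leaf p006_l151)))) (by decide +kernel)
noncomputable def p006_l152 : Lf2 := ⟨nat_lit 0, nat_lit 1, [nat_lit 19, nat_lit 5, nat_lit 5, nat_lit 20], true, nat_lit 0, nat_lit 0, nat_lit 0, nat_lit 0, ⟨nat_lit 0, nat_lit 0, nat_lit 1000, nat_lit 5, nat_lit 57, nat_lit 0, nat_lit 0, nat_lit 0, nat_lit 0, nat_lit 215, nat_lit 30817, nat_lit 258, nat_lit 65681096, nat_lit 0, nat_lit 0, nat_lit 484000, false, false⟩,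
 nat_lit 0, nat_lit 100000, nat_lit 0, nat_lit 0, nat_lit 51648, nat_lit 0, nat_lit 58144, nat_lit 3955, nat_lit 0, nat_lit 0, nat_lit 0, nat_lit 0, nat_lit 0, nat_lit 0, nat_lit 0, nat_lit 1000000, nat_lit 0, nat_lit 0, [(nat_lit 3, [(nat_lit 6, nat_lit 1000)])],
 ⟨p006_k58, nat_lit 0, nat_lit 0, nat_lit 0, nat_lit 0, nat_lit 314267, [nat_lit 40142533334, nat_lit 72055066667, nat_lit 86560000000], [], [nat_lit 112792952088, nat_lit 114670733360, nat_lit 109690149322, nat_lit 111566111965], nat_lit 1271250, nat_lit 1271250, nat_lit 43600, nat_lit 65850, nat_lit 0, nat_lit 0, [nat_lit 631250, nat_lit 1271250, nat_lit 1271250], [nat_lit 90, nat_lit 40, nat_lit 20, nat_lit 40]⟩, C1.Rw.none,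
 ⟨nat_lit 6324, nat_lit 6423, ⟨.ofNat (nat_lit 132611), .ofNat (nat_lit 140933), .ofNat (nat_lit 137956), .ofNat (nat_lit 146279), .ofNat (nat_lit 137182), .ofNat (nat_lit 145408), .ofNat (nat_lit 142524), .ofNat (nat_lit 150750)⟩, ⟨.ofNat (nat_lit 0), .ofNat (nat_lit 0), .ofNat (nat_lit 0), .ofNat (nat_lit 0), .ofNat (nat_lit 0), .ofNat (nat_lit 0), .ofNat (nat_lit 0), .ofNat (nat_lit 0)⟩⟩, [⟨nat_lit 0, nat_lit 100, nat_lit 100, nat_lit 35, nat_lit 10000000000⟩, ⟨nat_lit 0, nat_lit 100, nat_lit 100, nat_lit 37, nat_lit 10000000000⟩, ⟨nat_lit 0, nat_lit 100, nat_lit 100, nat_lit 32, nat_lit 10000000000⟩]⟩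
noncomputable def p006_l153 : Lf2 := ⟨nat_lit 0, nat_lit 2, [nat_lit 10, nat_lit 5, nat_lit 5, nat_lit 20], false, nat_lit 0, nat_lit 0, nat_lit 0, nat_lit 0, ⟨nat_lit 1000, nat_lit 0, nat_lit 0, nat_lit 0, nat_lit 0, nat_lit 0, nat_lit 0, nat_lit 0, nat_lit 0, nat_lit 0, nat_lit 0, nat_lit 0, nat_lit 0, nat_lit 0, nat_lit 0, nat_lit 0, false, false⟩,
 nat_lit 24441, nat_lit 11032, nat_lit 0, nat_lit 0, nat_lit 18321, nat_lit 12309, nat_lit 4686, nat_lit 0, nat_lit 0, nat_lit 1257, nat_lit 0, nat_lit 0, nat_lit 0, nat_lit 0, nat_lit 0, nat_lit 0, nat_lit 0, nat_lit 0, [],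
 ⟨p006_k56, nat_lit 0, nat_lit 0, nat_lit 0, nat_lit 0, nat_lit 242223, [nat_lit 6250000000, nat_lit 7968000000], [], [nat_lit 14470285598, nat_lit 14591606482, nat_lit 13486135205, nat_lit 13531057822], nat_lit 1271250, nat_lit 1271250, nat_lit 43600, nat_lit 65850, nat_lit 0, nat_lit 0, [nat_lit 1412500, nat_lit 1271250], [nat_lit 26, nat_lit 40, nat_lit 20, nat_lit 80]⟩, ⟨p006_k55, nat_lit 0, nat_lit 0, nat_lit 0, nat_lit 0, nat_lit 248567, [nat_lit 6250000000, nat_lit 7968000000], [], [nat_lit 24291628239, nat_lit 24409894633, nat_lit 23472437345, nat_lit 23534103055], nat_lit 1271250, nat_lit 1271250, nat_lit 43600, nat_lit 65850, nat_lit 0, nat_lit 0, [nat_lit 1412500, nat_lit 1271250], [nat_lit 26, nat_lit 40, nat_lit 20, nat_lit 80]⟩,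
 zbF0, [⟨nat_lit 0, nat_lit 100, nat_lit 100, nat_lit 33, nat_lit 3257860073⟩]⟩
noncomputable def p006_l154 : Lf2 := ⟨nat_lit 0, nat_lit 2, [nat_lit 10, nat_lit 5, nat_lit 5, nat_lit 20], false, nat_lit 0, nat_lit 0, nat_lit 0, nat_lit 0, ⟨nat_lit 1000, nat_lit 0, nat_lit 0, nat_lit 0, nat_lit 0, nat_lit 0, nat_lit 0, nat_lit 0, nat_lit 0, nat_lit 0, nat_lit 0, nat_lit 0, nat_lit 0, nat_lit 0, nat_lit 0, nat_lit 0, false, false⟩,
 nat_lit 24216, nat_lit 11368, nat_lit 0, nat_lit 0, nat_lit 18378, nat_lit 12258, nat_lit 4694, nat_lit 0, nat_lit 0, nat_lit 1468, nat_lit 0, nat_lit 0, nat_lit 0, nat_lit 0, nat_lit 0, nat_lit 0, nat_lit 0, nat_lit 0, [],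
 ⟨p006_k56, nat_lit 0, nat_lit 0, nat_lit 0, nat_lit 0, nat_lit 246048, [nat_lit 6250000000, nat_lit 7968000000], [], [nat_lit 14427609594, nat_lit 14549335397, nat_lit 13406357367, nat_lit 13485212260], nat_lit 1271250, nat_lit 1271250, nat_lit 43600, nat_lit 65850, nat_lit 0, nat_lit 0, [nat_lit 1412500, nat_lit 1271250], [nat_lit 26, nat_lit 40, nat_lit 20, nat_lit 80]⟩, ⟨p006_k59, nat_lit 0, nat_lit 0, nat_lit 0, nat_lit 0, nat_lit 251180, [nat_lit 6250000000, nat_lit 7968000000], [], [nat_lit 24332444671, nat_lit 24491342518, nat_lit 23224239501, nat_lit 23320043623], nat_lit 1271250, nat_lit 1271250, nat_lit 43600, nat_lit 65850, nat_lit 0, nat_lit 0, [nat_lit 1412500, nat_lit 1271250], [nat_lit 26, nat_lit 40, nat_lit 20, nat_lit 80]⟩,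
 zbF0, [⟨nat_lit 0, nat_lit 100, nat_lit 100, nat_lit 34, nat_lit 3632365778⟩]⟩
noncomputable def p006_l155 : Lf2 := ⟨nat_lit 0, nat_lit 2, [nat_lit 10, nat_lit 5, nat_lit 5, nat_lit 20], false, nat_lit 0, nat_lit 0, nat_lit 0, nat_lit 0, ⟨nat_lit 1000, nat_lit 0, nat_lit 0, nat_lit 0, nat_lit 0, nat_lit 0, nat_lit 0, nat_lit 0, nat_lit 0, nat_lit 0, nat_lit 0, nat_lit 0, nat_lit 0, nat_lit 0, nat_lit 0, nat_lit 0, false, false⟩,
 nat_lit 23754, nat_lit 11817, nat_lit 0, nat_lit 0, nat_lit 18371, nat_lit 12085, nat_lit 4693, nat_lit 0, nat_lit 0, nat_lit 1528, nat_lit 0, nat_lit 0, nat_lit 0, nat_lit 0, nat_lit 0, nat_lit 0, nat_lit 0, nat_lit 0, [],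
 ⟨p006_k56, nat_lit 0, nat_lit 0, nat_lit 0, nat_lit 0, nat_lit 249923, [nat_lit 6250000000, nat_lit 7968000000], [], [nat_lit 14432875068, nat_lit 14554526582, nat_lit 13416154645, nat_lit 13490866978], nat_lit 1271250, nat_lit 1271250, nat_lit 43600, nat_lit 65850, nat_lit 0, nat_lit 0, [nat_lit 1412500, nat_lit 1271250], [nat_lit 26, nat_lit 40, nat_lit 20, nat_lit 80]⟩, ⟨p006_k60, nat_lit 0, nat_lit 0, nat_lit 0, nat_lit 0, nat_lit 253815, [nat_lit 6250000000, nat_lit 7968000000], [], [nat_lit 24228613535, nat_lit 24385863639, nat_lit 23140051747, nat_lit 23231707774], nat_lit 1271250, nat_lit 1271250, nat_lit 43600, nat_lit 65850, nat_lit 0, nat_lit 0, [nat_lit 1412500, nat_lit 1271250], [nat_lit 26, nat_lit 40, nat_lit 20, nat_lit 80]⟩,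
 zbF0, [⟨nat_lit 0, nat_lit 100, nat_lit 100, nat_lit 34, nat_lit 3608329155⟩]⟩
noncomputable def p006_l156 : Lf2 := ⟨nat_lit 0, nat_lit 2, [nat_lit 10, nat_lit 5, nat_lit 5, nat_lit 20], true, nat_lit 0, nat_lit 0, nat_lit 0, nat_lit 0, ⟨nat_lit 0, nat_lit 0, nat_lit 1000, nat_lit 5, nat_lit 56, nat_lit 0, nat_lit 0, nat_lit 0, nat_lit 0, nat_lit 215, nat_lit 29400, nat_lit 257, nat_lit 65713870, nat_lit 0, nat_lit 0, nat_lit 474407, false, false⟩,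
 nat_lit 0, nat_lit 100000, nat_lit 0, nat_lit 0, nat_lit 51648, nat_lit 0, nat_lit 10098, nat_lit 1282, nat_lit 0, nat_lit 0, nat_lit 0, nat_lit 0, nat_lit 0, nat_lit 0, nat_lit 0, nat_lit 1000000, nat_lit 0, nat_lit 0, [(nat_lit 3, [(nat_lit 6, nat_lit 1000)])],
 ⟨p006_k56, nat_lit 0, nat_lit 0, nat_lit 0, nat_lit 0, nat_lit 249923, [nat_lit 26681142858, nat_lit 29507600000], [], [nat_lit 30460705790, nat_lit 30738655652, nat_lit 28134721317, nat_lit 27668287520], nat_lit 1271250, nat_lit 1271250, nat_lit 43600, nat_lit 65850, nat_lit 0, nat_lit 0, [nat_lit 1412500, nat_lit 1271250], [nat_lit 26, nat_lit 40, nat_lit 20, nat_lit 80]⟩, C1.Rw.none,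
 ⟨nat_lit 6403, nat_lit 6423, ⟨.ofNat (nat_lit 134749), .ofNat (nat_lit 143071), .ofNat (nat_lit 135818), .ofNat (nat_lit 144140), .ofNat (nat_lit 135667), .ofNat (nat_lit 143970), .ofNat (nat_lit 136736), .ofNat (nat_lit 145039)⟩, ⟨.ofNat (nat_lit 0), .ofNat (nat_lit 0), .ofNat (nat_lit 0), .ofNat (nat_lit 0), .ofNat (nat_lit 0), .ofNat (nat_lit 0), .ofNat (nat_lit 0), .ofNat (nat_lit 0)⟩⟩, [⟨nat_lit 0, nat_lit 100, nat_lit 100, nat_lit 34, nat_lit 3945040318⟩]⟩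
noncomputable def p006_l157 : Lf2 := ⟨nat_lit 0, nat_lit 2, [nat_lit 10, nat_lit 5, nat_lit 5, nat_lit 20], false, nat_lit 0, nat_lit 0, nat_lit 0, nat_lit 0, ⟨nat_lit 1000, nat_lit 0, nat_lit 0, nat_lit 0, nat_lit 0, nat_lit 0, nat_lit 0, nat_lit 0, nat_lit 0, nat_lit 0, nat_lit 0, nat_lit 0, nat_lit 0, nat_lit 0, nat_lit 0, nat_lit 0, false, false⟩,
 nat_lit 23310, nat_lit 12284, nat_lit 0, nat_lit 0, nat_lit 18383, nat_lit 11919, nat_lit 4695, nat_lit 0, nat_lit 0, nat_lit 1580, nat_lit 0, nat_lit 0, nat_lit 0, nat_lit 0, nat_lit 0, nat_lit 0, nat_lit 0, nat_lit 0, [],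
 ⟨p006_k56, nat_lit 0, nat_lit 0, nat_lit 0, nat_lit 0, nat_lit 253798, [nat_lit 6250000000, nat_lit 7968000000], [], [nat_lit 14423448541, nat_lit 14545627407, nat_lit 13399359311, nat_lit 13480915323], nat_lit 1271250, nat_lit 1271250, nat_lit 43600, nat_lit 65850, nat_lit 0, nat_lit 0, [nat_lit 1412500, nat_lit 1271250], [nat_lit 26, nat_lit 40, nat_lit 20, nat_lit 80]⟩, ⟨p006_k57, nat_lit 0, nat_lit 0, nat_lit 0, nat_lit 0, nat_lit 256421, [nat_lit 6250000000, nat_lit 7968000000], [], [nat_lit 24132184239, nat_lit 24287853272, nat_lit 23055261000, nat_lit 23150102458], nat_lit 1271250, nat_lit 1271250, nat_lit 43600, nat_lit 65850, nat_lit 0, nat_lit 0, [nat_lit 1412500, nat_lit 1271250], [nat_lit 26, nat_lit 40, nat_lit 20, nat_lit 80]⟩,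
 zbF0, [⟨nat_lit 0, nat_lit 100, nat_lit 100, nat_lit 35, nat_lit 3586480685⟩]⟩
noncomputable def p006_l158 : Lf2 := ⟨nat_lit 0, nat_lit 2, [nat_lit 10, nat_lit 5, nat_lit 5, nat_lit 20], false, nat_lit 0, nat_lit 0, nat_lit 0, nat_lit 0, ⟨nat_lit 1000, nat_lit 0, nat_lit 0, nat_lit 0, nat_lit 0, nat_lit 0, nat_lit 0, nat_lit 0, nat_lit 0, nat_lit 0, nat_lit 0, nat_lit 0, nat_lit 0, nat_lit 0, nat_lit 0, nat_lit 0, false, false⟩,
 nat_lit 22917, nat_lit 12862, nat_lit 0, nat_lit 0, nat_lit 18479, nat_lit 11777, nat_lit 4722, nat_lit 0, nat_lit 0, nat_lit 1640, nat_lit 0, nat_lit 0, nat_lit 0, nat_lit 0, nat_lit 0, nat_lit 0, nat_lit 0, nat_lit 0, [],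
 ⟨p006_k56, nat_lit 0, nat_lit 0, nat_lit 0, nat_lit 0, nat_lit 257673, [nat_lit 6250000000, nat_lit 7968000000], [], [nat_lit 14335554458, nat_lit 14474433999, nat_lit 13264996636, nat_lit 13403905466], nat_lit 1271250, nat_lit 1271250, nat_lit 43600, nat_lit 65850, nat_lit 0, nat_lit 0, [nat_lit 1412500, nat_lit 1271250], [nat_lit 26, nat_lit 40, nat_lit 20, nat_lit 80]⟩, ⟨p006_k61, nat_lit 0, nat_lit 0, nat_lit 0, nat_lit 0, nat_lit 258999, [nat_lit 6250000000, nat_lit 7968000000], [], [nat_lit 24069497930, nat_lit 24223814482, nat_lit 22945971709, nat_lit 23100466528], nat_lit 1271250, nat_lit 1271250, nat_lit 43600, nat_lit 65850, nat_lit 0, nat_lit 0, [nat_lit 1412500, nat_lit 1271250], [nat_lit 26, nat_lit 40, nat_lit 20, nat_lit 80]⟩,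
 zbF0, [⟨nat_lit 0, nat_lit 100, nat_lit 100, nat_lit 35, nat_lit 4484844253⟩]⟩
noncomputable def p006_l159 : Lf2 := ⟨nat_lit 0, nat_lit 2, [nat_lit 10, nat_lit 5, nat_lit 5, nat_lit 20], false, nat_lit 0, nat_lit 0, nat_lit 0, nat_lit 0, ⟨nat_lit 1000, nat_lit 0, nat_lit 0, nat_lit 0, nat_lit 0, nat_lit 0, nat_lit 0, nat_lit 0, nat_lit 0, nat_lit 0, nat_lit 0, nat_lit 0, nat_lit 0, nat_lit 0, nat_lit 0, nat_lit 0, false, false⟩,
 nat_lit 24693, nat_lit 8873, nat_lit 0, nat_lit 0, nat_lit 17422, nat_lit 12436, nat_lit 4430, nat_lit 0, nat_lit 0, nat_lit 1401, nat_lit 0, nat_lit 0, nat_lit 0, nat_lit 0, nat_lit 0, nat_lit 0, nat_lit 0, nat_lit 0, [],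
 ⟨p006_k62, nat_lit 0, nat_lit 0, nat_lit 0, nat_lit 0, nat_lit 245036, [nat_lit 6250000000, nat_lit 7968000000], [], [nat_lit 15273839401, nat_lit 15391145146, nat_lit 14299433369, nat_lit 14384691623], nat_lit 1271250, nat_lit 1271250, nat_lit 43600, nat_lit 65850, nat_lit 0, nat_lit 0, [nat_lit 1412500, nat_lit 1271250], [nat_lit 26, nat_lit 40, nat_lit 20, nat_lit 80]⟩, ⟨p006_k55, nat_lit 0, nat_lit 0, nat_lit 0, nat_lit 0, nat_lit 252743, [nat_lit 6250000000, nat_lit 7968000000], [], [nat_lit 24440478402, nat_lit 24601071613, nat_lit 23310904420, nat_lit 23411528099], nat_lit 1271250, nat_lit 1271250, nat_lit 43600, nat_lit 65850, nat_lit 0, nat_lit 0, [nat_lit 1412500, nat_lit 1271250], [nat_lit 26, nat_lit 40, nat_lit 20, nat_lit 80]⟩,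
 zbF0, [⟨nat_lit 0, nat_lit 100, nat_lit 99, nat_lit 33, nat_lit 3618707403⟩]⟩
noncomputable def p006_l160 : Lf2 := ⟨nat_lit 0, nat_lit 2, [nat_lit 10, nat_lit 5, nat_lit 5, nat_lit 20], false, nat_lit 0, nat_lit 0, nat_lit 0, nat_lit 0, ⟨nat_lit 1000, nat_lit 0, nat_lit 0, nat_lit 0, nat_lit 0, nat_lit 0, nat_lit 0, nat_lit 0, nat_lit 0, nat_lit 0, nat_lit 0, nat_lit 0, nat_lit 0, nat_lit 0, nat_lit 0, nat_lit 0, false, false⟩,
 nat_lit 92655, nat_lit 100000, nat_lit 0, nat_lit 0, nat_lit 99999, nat_lit 12281, nat_lit 22889, nat_lit 2641, nat_lit 0, nat_lit 1533, nat_lit 0, nat_lit 0, nat_lit 0, nat_lit 0, nat_lit 0, nat_lit 0, nat_lit 0, nat_lit 0, [],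
 ⟨p006_k62, nat_lit 0, nat_lit 0, nat_lit 0, nat_lit 0, nat_lit 245036, [nat_lit 59070000001, nat_lit 71352000000], [], [nat_lit 59736056674, nat_lit 60263878669, nat_lit 55074749154, nat_lit 54255556314], nat_lit 1271250, nat_lit 1271250, nat_lit 43600, nat_lit 65850, nat_lit 0, nat_lit 0, [nat_lit 1412500, nat_lit 1271250], [nat_lit 26, nat_lit 40, nat_lit 20, nat_lit 80]⟩, ⟨p006_k55, nat_lit 0, nat_lit 0, nat_lit 0, nat_lit 0, nat_lit 252743, [nat_lit 6250000000, nat_lit 7968000000], [], [nat_lit 24208037984, nat_lit 24367154894, nat_lit 23508050904, nat_lit 23194398094], nat_lit 1271250, nat_lit 1271250, nat_lit 43600, nat_lit 65850, nat_lit 0, nat_lit 0, [nat_lit 1412500, nat_lit 1271250], [nat_lit 26, nat_lit 40, nat_lit 20, nat_lit 80]⟩,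
 zbF0, [⟨nat_lit 0, nat_lit 100, nat_lit 99, nat_lit 34, nat_lit 9916184052⟩]⟩
noncomputable def p006_l161 : Lf2 := ⟨nat_lit 0, nat_lit 2, [nat_lit 10, nat_lit 5, nat_lit 5, nat_lit 20], true, nat_lit 0, nat_lit 0, nat_lit 0, nat_lit 0, ⟨nat_lit 0, nat_lit 0, nat_lit 1000, nat_lit 5, nat_lit 55, nat_lit 0, nat_lit 0, nat_lit 0, nat_lit 0, nat_lit 215, nat_lit 29400, nat_lit 257, nat_lit 65735973, nat_lit 0, nat_lit 0, nat_lit 467903, false, false⟩,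
 nat_lit 0, nat_lit 100000, nat_lit 0, nat_lit 0, nat_lit 51906, nat_lit 0, nat_lit 10085, nat_lit 1372, nat_lit 0, nat_lit 0, nat_lit 0, nat_lit 0, nat_lit 0, nat_lit 0, nat_lit 0, nat_lit 1000000, nat_lit 0, nat_lit 0, [(nat_lit 3, [(nat_lit 6, nat_lit 1000)])],
 ⟨p006_k62, nat_lit 0, nat_lit 0, nat_lit 0, nat_lit 0, nat_lit 245036, [nat_lit 28481142858, nat_lit 31667600000], [], [nat_lit 34197173957, nat_lit 34477134590, nat_lit 31847958997, nat_lit 31390670367], nat_lit 1271250, nat_lit 1271250, nat_lit 43600, nat_lit 65850, nat_lit 0, nat_lit 0, [nat_lit 1412500, nat_lit 1271250], [nat_lit 26, nat_lit 40, nat_lit 20, nat_lit 80]⟩, C1.Rw.none,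
 ⟨nat_lit 6383, nat_lit 6404, ⟨.ofNat (nat_lit 133529), .ofNat (nat_lit 141832), .ofNat (nat_lit 134598), .ofNat (nat_lit 142901), .ofNat (nat_lit 134445), .ofNat (nat_lit 142729), .ofNat (nat_lit 135514), .ofNat (nat_lit 143797)⟩, ⟨.ofNat (nat_lit 0), .ofNat (nat_lit 0), .ofNat (nat_lit 0), .ofNat (nat_lit 0), .ofNat (nat_lit 0), .ofNat (nat_lit 0), .ofNat (nat_lit 0), .ofNat (nat_lit 0)⟩⟩, [⟨nat_lit 0, nat_lit 100, nat_lit 99, nat_lit 34, nat_lit 4003269223⟩]⟩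
noncomputable def p006_l162 : Lf2 := ⟨nat_lit 0, nat_lit 2, [nat_lit 10, nat_lit 5, nat_lit 5, nat_lit 20], false, nat_lit 0, nat_lit 0, nat_lit 0, nat_lit 0, ⟨nat_lit 1000, nat_lit 0, nat_lit 0, nat_lit 0, nat_lit 0, nat_lit 0, nat_lit 0, nat_lit 0, nat_lit 0, nat_lit 0, nat_lit 0, nat_lit 0, nat_lit 0, nat_lit 0, nat_lit 0, nat_lit 0, false, false⟩,
 nat_lit 24253, nat_lit 1536, nat_lit 0, nat_lit 0, nat_lit 13386, nat_lit 12277, nat_lit 3540, nat_lit 0, nat_lit 128, nat_lit 1476, nat_lit 0, nat_lit 0, nat_lit 0, nat_lit 0, nat_lit 0, nat_lit 0, nat_lit 0, nat_lit 0, [],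
 ⟨p006_k62, nat_lit 0, nat_lit 0, nat_lit 0, nat_lit 0, nat_lit 248868, [nat_lit 6250000000, nat_lit 7968000000], [], [nat_lit 13131392612, nat_lit 13241181446, nat_lit 12371342321, nat_lit 12479244139], nat_lit 1271250, nat_lit 1271250, nat_lit 43600, nat_lit 65850, nat_lit 0, nat_lit 0, [nat_lit 1412500, nat_lit 1271250], [nat_lit 26, nat_lit 40, nat_lit 20, nat_lit 80]⟩, ⟨p006_k59, nat_lit 0, nat_lit 0, nat_lit 0, nat_lit 0, nat_lit 255362, [nat_lit 6250000000, nat_lit 7968000000], [], [nat_lit 24361118334, nat_lit 24520197146, nat_lit 23199587904, nat_lit 23346340008], nat_lit 1271250, nat_lit 1271250, nat_lit 43600, nat_lit 65850, nat_lit 0, nat_lit 0, [nat_lit 1412500, nat_lit 1271250], [nat_lit 26, nat_lit 40, nat_lit 20, nat_lit 80]⟩,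
 zbF0, [⟨nat_lit 0, nat_lit 100, nat_lit 100, nat_lit 34, nat_lit 3256626141⟩]⟩
noncomputable def p006_l163 : Lf2 := ⟨nat_lit 0, nat_lit 2, [nat_lit 10, nat_lit 5, nat_lit 5, nat_lit 20], false, nat_lit 0, nat_lit 0, nat_lit 0, nat_lit 0, ⟨nat_lit 1000, nat_lit 0, nat_lit 0, nat_lit 0, nat_lit 0, nat_lit 0, nat_lit 0, nat_lit 0, nat_lit 0, nat_lit 0, nat_lit 0, nat_lit 0, nat_lit 0, nat_lit 0, nat_lit 0, nat_lit 0, false, false⟩,
 nat_lit 24222, nat_lit 9354, nat_lit 0, nat_lit 0, nat_lit 17427, nat_lit 12261, nat_lit 4431, nat_lit 0, nat_lit 0, nat_lit 1466, nat_lit 0, nat_lit 0, nat_lit 0, nat_lit 0, nat_lit 0, nat_lit 0, nat_lit 0, nat_lit 0, [],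
 ⟨p006_k62, nat_lit 0, nat_lit 0, nat_lit 0, nat_lit 0, nat_lit 248868, [nat_lit 6250000000, nat_lit 7968000000], [], [nat_lit 15269664640, nat_lit 15387465716, nat_lit 14292307615, nat_lit 14380709273], nat_lit 1271250, nat_lit 1271250, nat_lit 43600, nat_lit 65850, nat_lit 0, nat_lit 0, [nat_lit 1412500, nat_lit 1271250], [nat_lit 26, nat_lit 40, nat_lit 20, nat_lit 80]⟩, ⟨p006_k59, nat_lit 0, nat_lit 0, nat_lit 0, nat_lit 0, nat_lit 255362, [nat_lit 6250000000, nat_lit 7968000000], [], [nat_lit 24336972092, nat_lit 24495898512, nat_lit 23220347143, nat_lit 23323714476], nat_lit 1271250, nat_lit 1271250, nat_lit 43600, nat_lit 65850, nat_lit 0, nat_lit 0, [nat_lit 1412500, nat_lit 1271250], [nat_lit 26, nat_lit 40, nat_lit 20, nat_lit 80]⟩,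
 zbF0, [⟨nat_lit 0, nat_lit 100, nat_lit 100, nat_lit 34, nat_lit 3558984637⟩]⟩
noncomputable def p006_l164 : Lf2 := ⟨nat_lit 0, nat_lit 2, [nat_lit 10, nat_lit 5, nat_lit 5, nat_lit 20], false, nat_lit 0, nat_lit 0, nat_lit 0, nat_lit 0, ⟨nat_lit 1000, nat_lit 0, nat_lit 0, nat_lit 0, nat_lit 0, nat_lit 0, nat_lit 0, nat_lit 0, nat_lit 0, nat_lit 0, nat_lit 0, nat_lit 0, nat_lit 0, nat_lit 0, nat_lit 0, nat_lit 0, false, false⟩,
 nat_lit 92655, nat_lit 100000, nat_lit 0, nat_lit 0, nat_lit 99999, nat_lit 12109, nat_lit 22892, nat_lit 2642, nat_lit 0, nat_lit 1591, nat_lit 0, nat_lit 0, nat_lit 0, nat_lit 0, nat_lit 0, nat_lit 0, nat_lit 0, nat_lit 0, [],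
 ⟨p006_k62, nat_lit 0, nat_lit 0, nat_lit 0, nat_lit 0, nat_lit 248868, [nat_lit 59090000001, nat_lit 71376000000], [], [nat_lit 59775744174, nat_lit 60303878669, nat_lit 55134749154, nat_lit 54295243814], nat_lit 1271250, nat_lit 1271250, nat_lit 43600, nat_lit 65850, nat_lit 0, nat_lit 0, [nat_lit 1412500, nat_lit 1271250], [nat_lit 26, nat_lit 40, nat_lit 20, nat_lit 80]⟩, ⟨p006_k59, nat_lit 0, nat_lit 0, nat_lit 0, nat_lit 0, nat_lit 255362, [nat_lit 6250000000, nat_lit 7968000000], [], [nat_lit 24107582794, nat_lit 24265061486, nat_lit 23417559920, nat_lit 23108437076], nat_lit 1271250, nat_lit 1271250, nat_lit 43600, nat_lit 65850, nat_lit 0, nat_lit 0, [nat_lit 1412500, nat_lit 1271250], [nat_lit 26, nat_lit 40, nat_lit 20, nat_lit 80]⟩,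
 zbF0, [⟨nat_lit 0, nat_lit 100, nat_lit 100, nat_lit 34, nat_lit 9793486019⟩]⟩
noncomputable def p006_l165 : Lf2 := ⟨nat_lit 0, nat_lit 2, [nat_lit 10, nat_lit 5, nat_lit 5, nat_lit 20], true, nat_lit 0, nat_lit 0, nat_lit 0, nat_lit 0, ⟨nat_lit 0, nat_lit 0, nat_lit 1000, nat_lit 5, nat_lit 56, nat_lit 0, nat_lit 0, nat_lit 0, nat_lit 0, nat_lit 215, nat_lit 29400, nat_lit 257, nat_lit 65716788, nat_lit 0, nat_lit 0, nat_lit 473551, false, false⟩,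
 nat_lit 0, nat_lit 100000, nat_lit 0, nat_lit 0, nat_lit 51906, nat_lit 0, nat_lit 10092, nat_lit 1372, nat_lit 0, nat_lit 0, nat_lit 0, nat_lit 0, nat_lit 0, nat_lit 0, nat_lit 0, nat_lit 1000000, nat_lit 0, nat_lit 0, [(nat_lit 3, [(nat_lit 6, nat_lit 1000)])],
 ⟨p006_k62, nat_lit 0, nat_lit 0, nat_lit 0, nat_lit 0, nat_lit 248868, [nat_lit 28481142858, nat_lit 31667600000], [], [nat_lit 34187111457, nat_lit 34477134590, nat_lit 31847958997, nat_lit 31381509307], nat_lit 1271250, nat_lit 1271250, nat_lit 43600, nat_lit 65850, nat_lit 0, nat_lit 0, [nat_lit 1412500, nat_lit 1271250], [nat_lit 26, nat_lit 40, nat_lit 20, nat_lit 80]⟩, C1.Rw.none,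
 ⟨nat_lit 6383, nat_lit 6404, ⟨.ofNat (nat_lit 134598), .ofNat (nat_lit 142901), .ofNat (nat_lit 135667), .ofNat (nat_lit 143970), .ofNat (nat_lit 135514), .ofNat (nat_lit 143797), .ofNat (nat_lit 136582), .ofNat (nat_lit 144866)⟩, ⟨.ofNat (nat_lit 0), .ofNat (nat_lit 0), .ofNat (nat_lit 0), .ofNat (nat_lit 0), .ofNat (nat_lit 0), .ofNat (nat_lit 0), .ofNat (nat_lit 0), .ofNat (nat_lit 0)⟩⟩, [⟨nat_lit 0, nat_lit 100, nat_lit 100, nat_lit 34, nat_lit 3976411317⟩]⟩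
noncomputable def p006_l166 : Lf2 := ⟨nat_lit 0, nat_lit 2, [nat_lit 10, nat_lit 5, nat_lit 5, nat_lit 20], true, nat_lit 0, nat_lit 0, nat_lit 0, nat_lit 0, ⟨nat_lit 0, nat_lit 0, nat_lit 1000, nat_lit 5, nat_lit 56, nat_lit 0, nat_lit 0, nat_lit 0, nat_lit 0, nat_lit 215, nat_lit 29400, nat_lit 257, nat_lit 65716788, nat_lit 0, nat_lit 0, nat_lit 473551, false, false⟩,
 nat_lit 0, nat_lit 100000, nat_lit 0, nat_lit 0, nat_lit 51906, nat_lit 0, nat_lit 10086, nat_lit 1373, nat_lit 0, nat_lit 0, nat_lit 0, nat_lit 0, nat_lit 0, nat_lit 0, nat_lit 0, nat_lit 1000000, nat_lit 0, nat_lit 0, [(nat_lit 3, [(nat_lit 6, nat_lit 1000)])],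
 ⟨p006_k62, nat_lit 0, nat_lit 0, nat_lit 0, nat_lit 0, nat_lit 248868, [nat_lit 28501142858, nat_lit 31691600000], [], [nat_lit 34239736457, nat_lit 34518662458, nat_lit 31907958997, nat_lit 31433232867], nat_lit 1271250, nat_lit 1271250, nat_lit 43600, nat_lit 65850, nat_lit 0, nat_lit 0, [nat_lit 1412500, nat_lit 1271250], [nat_lit 26, nat_lit 40, nat_lit 20, nat_lit 80]⟩, C1.Rw.none,
 ⟨nat_lit 6383, nat_lit 6404, ⟨.ofNat (nat_lit 134598), .ofNat (nat_lit 142901), .ofNat (nat_lit 135667), .ofNat (nat_lit 143970), .ofNat (nat_lit 135514), .ofNat (nat_lit 143797), .ofNat (nat_lit 136582), .ofNat (nat_lit 144866)⟩, ⟨.ofNat (nat_lit 0), .ofNat (nat_lit 0), .ofNat (nat_lit 0), .ofNat (nat_lit 0), .ofNat (nat_lit 0), .ofNat (nat_lit 0), .ofNat (nat_lit 0), .ofNat (nat_lit 0)⟩⟩, [⟨nat_lit 0, nat_lit 100, nat_lit 100, nat_lit 34, nat_lit 3963666657⟩]⟩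
noncomputable def p006_l167 : Lf2 := ⟨nat_lit 0, nat_lit 2, [nat_lit 10, nat_lit 5, nat_lit 5, nat_lit 20], false, nat_lit 0, nat_lit 0, nat_lit 0, nat_lit 0, ⟨nat_lit 1000, nat_lit 0, nat_lit 0, nat_lit 0, nat_lit 0, nat_lit 0, nat_lit 0, nat_lit 0, nat_lit 0, nat_lit 0, nat_lit 0, nat_lit 0, nat_lit 0, nat_lit 0, nat_lit 0, nat_lit 0, false, false⟩,
 nat_lit 23766, nat_lit 9824, nat_lit 0, nat_lit 0, nat_lit 17435, nat_lit 12091, nat_lit 4432, nat_lit 0, nat_lit 0, nat_lit 1523, nat_lit 0, nat_lit 0, nat_lit 0, nat_lit 0, nat_lit 0, nat_lit 0, nat_lit 0, nat_lit 0, [],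
 ⟨p006_k62, nat_lit 0, nat_lit 0, nat_lit 0, nat_lit 0, nat_lit 252700, [nat_lit 6250000000, nat_lit 7968000000], [], [nat_lit 15263847521, nat_lit 15381578627, nat_lit 14280906408, nat_lit 14374337514], nat_lit 1271250, nat_lit 1271250, nat_lit 43600, nat_lit 65850, nat_lit 0, nat_lit 0, [nat_lit 1412500, nat_lit 1271250], [nat_lit 26, nat_lit 40, nat_lit 20, nat_lit 80]⟩, ⟨p006_k60, nat_lit 0, nat_lit 0, nat_lit 0, nat_lit 0, nat_lit 257952, [nat_lit 6250000000, nat_lit 7968000000], [], [nat_lit 24237725523, nat_lit 24395032774, nat_lit 23132113794, nat_lit 23240530235], nat_lit 1271250, nat_lit 1271250, nat_lit 43600, nat_lit 65850, nat_lit 0, nat_lit 0, [nat_lit 1412500, nat_lit 1271250], [nat_lit 26, nat_lit 40, nat_lit 20, nat_lit 80]⟩,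
 zbF0, [⟨nat_lit 0, nat_lit 100, nat_lit 100, nat_lit 35, nat_lit 3536355594⟩]⟩
noncomputable def p006_l168 : Lf2 := ⟨nat_lit 0, nat_lit 2, [nat_lit 10, nat_lit 5, nat_lit 5, nat_lit 20], false, nat_lit 0, nat_lit 0, nat_lit 0, nat_lit 0, ⟨nat_lit 1000, nat_lit 0, nat_lit 0, nat_lit 0, nat_lit 0, nat_lit 0, nat_lit 0, nat_lit 0, nat_lit 0, nat_lit 0, nat_lit 0, nat_lit 0, nat_lit 0, nat_lit 0, nat_lit 0, nat_lit 0, false, false⟩,
 nat_lit 23353, nat_lit 10359, nat_lit 0, nat_lit 0, nat_lit 17498, nat_lit 11941, nat_lit 4453, nat_lit 0, nat_lit 0, nat_lit 1593, nat_lit 0, nat_lit 0, nat_lit 0, nat_lit 0, nat_lit 0, nat_lit 0, nat_lit 0, nat_lit 0, [],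
 ⟨p006_k62, nat_lit 0, nat_lit 0, nat_lit 0, nat_lit 0, nat_lit 256532, [nat_lit 6250000000, nat_lit 7968000000], [], [nat_lit 15201941637, nat_lit 15335217803, nat_lit 14191121902, nat_lit 14324159910], nat_lit 1271250, nat_lit 1271250, nat_lit 43600, nat_lit 65850, nat_lit 0, nat_lit 0, [nat_lit 1412500, nat_lit 1271250], [nat_lit 26, nat_lit 40, nat_lit 20, nat_lit 80]⟩, ⟨p006_k57, nat_lit 0, nat_lit 0, nat_lit 0, nat_lit 0, nat_lit 260512, [nat_lit 6250000000, nat_lit 7968000000], [], [nat_lit 24165804400, nat_lit 24321682973, nat_lit 23025593299, nat_lit 23181773946], nat_lit 1271250, nat_lit 1271250, nat_lit 43600, nat_lit 65850, nat_lit 0, nat_lit 0, [nat_lit 1412500, nat_lit 1271250], [nat_lit 26, nat_lit 40, nat_lit 20, nat_lit 80]⟩,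
 zbF0, [⟨nat_lit 0, nat_lit 100, nat_lit 100, nat_lit 35, nat_lit 4245717705⟩]⟩
noncomputable def p006_l169 : Lf2 := ⟨nat_lit 0, nat_lit 2, [nat_lit 10, nat_lit 5, nat_lit 5, nat_lit 20], false, nat_lit 0, nat_lit 0, nat_lit 0, nat_lit 0, ⟨nat_lit 1000, nat_lit 0, nat_lit 0, nat_lit 0, nat_lit 0, nat_lit 0, nat_lit 0, nat_lit 0, nat_lit 0, nat_lit 0, nat_lit 0, nat_lit 0, nat_lit 0, nat_lit 0, nat_lit 0, nat_lit 0, false, false⟩,
 nat_lit 24644, nat_lit 7129, nat_lit 0, nat_lit 0, nat_lit 16574, nat_lit 12411, nat_lit 4186, nat_lit 0, nat_lit 0, nat_lit 1352, nat_lit 0, nat_lit 0, nat_lit 0, nat_lit 0, nat_lit 0, nat_lit 0, nat_lit 0, nat_lit 0, [],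
 ⟨p006_k63, nat_lit 0, nat_lit 0, nat_lit 0, nat_lit 0, nat_lit 255447, [nat_lit 6250000000, nat_lit 7968000000], [], [nat_lit 16029579172, nat_lit 16143174930, nat_lit 15084666659, nat_lit 15188126399], nat_lit 1271250, nat_lit 1271250, nat_lit 43600, nat_lit 65850, nat_lit 0, nat_lit 0, [nat_lit 1412500, nat_lit 1271250], [nat_lit 26, nat_lit 40, nat_lit 20, nat_lit 80]⟩, ⟨p006_k55, nat_lit 0, nat_lit 0, nat_lit 0, nat_lit 0, nat_lit 264827, [nat_lit 6250000000, nat_lit 7968000000], [], [nat_lit 24402988012, nat_lit 24884053305, nat_lit 23342702240, nat_lit 23698637543], nat_lit 1271250, nat_lit 1271250, nat_lit 43600, nat_lit 65850, nat_lit 0, nat_lit 0, [nat_lit 1412500, nat_lit 1271250], [nat_lit 26, nat_lit 40, nat_lit 20, nat_lit 80]⟩,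
 zbF0, [⟨nat_lit 0, nat_lit 100, nat_lit 99, nat_lit 34, nat_lit 2132611150⟩, ⟨nat_lit 0, nat_lit 100, nat_lit 100, nat_lit 35, nat_lit 1397419610⟩]⟩
noncomputable def p006_l170 : Lf2 := ⟨nat_lit 0, nat_lit 2, [nat_lit 10, nat_lit 5, nat_lit 5, nat_lit 20], false, nat_lit 0, nat_lit 0, nat_lit 0, nat_lit 0, ⟨nat_lit 1000, nat_lit 0, nat_lit 0, nat_lit 0, nat_lit 0, nat_lit 0, nat_lit 0, nat_lit 0, nat_lit 0, nat_lit 0, nat_lit 0, nat_lit 0, nat_lit 0, nat_lit 0, nat_lit 0, nat_lit 0, false, false⟩,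
 nat_lit 24711, nat_lit 5397, nat_lit 0, nat_lit 0, nat_lit 15783, nat_lit 12445, nat_lit 3964, nat_lit 0, nat_lit 0, nat_lit 1399, nat_lit 0, nat_lit 0, nat_lit 0, nat_lit 0, nat_lit 0, nat_lit 0, nat_lit 0, nat_lit 0, [],
 ⟨p006_k64, nat_lit 0, nat_lit 0, nat_lit 0, nat_lit 0, nat_lit 250670, [nat_lit 6250000000, nat_lit 7968000000], [], [nat_lit 16732999060, nat_lit 16844222980, nat_lit 15829070123, nat_lit 15937119521], nat_lit 1271250, nat_lit 1271250, nat_lit 43600, nat_lit 65850, nat_lit 0, nat_lit 0, [nat_lit 1412500, nat_lit 1271250], [nat_lit 26, nat_lit 40, nat_lit 20, nat_lit 80]⟩, ⟨p006_k55, nat_lit 0, nat_lit 0, nat_lit 0, nat_lit 0, nat_lit 261198, [nat_lit 6250000000, nat_lit 7968000000], [], [nat_lit 24453974942, nat_lit 24614653874, nat_lit 23299457204, nat_lit 23423801936], nat_lit 1271250, nat_lit 1271250, nat_lit 43600, nat_lit 65850, nat_lit 0, nat_lit 0, [nat_lit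 1412500, nat_lit 1271250], [nat_lit 26, nat_lit 40, nat_lit 20, nat_lit 80]⟩,
 zbF0, [⟨nat_lit 0, nat_lit 100, nat_lit 99, nat_lit 34, nat_lit 3489957819⟩]⟩
noncomputable def p006_l171 : Lf2 := ⟨nat_lit 0, nat_lit 2, [nat_lit 10, nat_lit 5, nat_lit 5, nat_lit 20], true, nat_lit 0, nat_lit 0, nat_lit 0, nat_lit 0, ⟨nat_lit 0, nat_lit 0, nat_lit 1000, nat_lit 5, nat_lit 56, nat_lit 0, nat_lit 0, nat_lit 0, nat_lit 0, nat_lit 215, nat_lit 29400, nat_lit 257, nat_lit 65703423, nat_lit 0, nat_lit 0, nat_lit 477473, false, false⟩,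
 nat_lit 0, nat_lit 100000, nat_lit 0, nat_lit 0, nat_lit 52422, nat_lit 0, nat_lit 9957, nat_lit 1527, nat_lit 0, nat_lit 0, nat_lit 0, nat_lit 0, nat_lit 0, nat_lit 0, nat_lit 0, nat_lit 1000000, nat_lit 0, nat_lit 0, [(nat_lit 3, [(nat_lit 6, nat_lit 1000)])],
 ⟨p006_k64, nat_lit 0, nat_lit 0, nat_lit 0, nat_lit 0, nat_lit 250670, [nat_lit 31581142858, nat_lit 35387600000], [], [nat_lit 40672444858, nat_lit 40962934486, nat_lit 37734898933, nat_lit 37837779514], nat_lit 1271250, nat_lit 1271250, nat_lit 43600, nat_lit 65850, nat_lit 0, nat_lit 0, [nat_lit 1412500, nat_lit 1271250], [nat_lit 26, nat_lit 40, nat_lit 20, nat_lit 80]⟩, C1.Rw.none,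
 ⟨nat_lit 6344, nat_lit 6364, ⟨.ofNat (nat_lit 135359), .ofNat (nat_lit 143624), .ofNat (nat_lit 136428), .ofNat (nat_lit 144692), .ofNat (nat_lit 136271), .ofNat (nat_lit 144517), .ofNat (nat_lit 137340), .ofNat (nat_lit 145585)⟩, ⟨.ofNat (nat_lit 0), .ofNat (nat_lit 0), .ofNat (nat_lit 0), .ofNat (nat_lit 0), .ofNat (nat_lit 0), .ofNat (nat_lit 0), .ofNat (nat_lit 0), .ofNat (nat_lit 0)⟩⟩, [⟨nat_lit 0, nat_lit 100, nat_lit 99, nat_lit 34, nat_lit 2438625111⟩, ⟨nat_lit 0, nat_lit 100, nat_lit 99, nat_lit 34, nat_lit 10101010101⟩]⟩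
noncomputable def p006_l172 : Lf2 := ⟨nat_lit 0, nat_lit 2, [nat_lit 10, nat_lit 5, nat_lit 5, nat_lit 20], false, nat_lit 0, nat_lit 0, nat_lit 0, nat_lit 0, ⟨nat_lit 1000, nat_lit 0, nat_lit 0, nat_lit 0, nat_lit 0, nat_lit 0, nat_lit 0, nat_lit 0, nat_lit 0, nat_lit 0, nat_lit 0, nat_lit 0, nat_lit 0, nat_lit 0, nat_lit 0, nat_lit 0, false, false⟩,
 nat_lit 24256, nat_lit 878, nat_lit 0, nat_lit 0, nat_lit 13175, nat_lit 12278, nat_lit 3406, nat_lit 0, nat_lit 90, nat_lit 1478, nat_lit 0, nat_lit 0, nat_lit 0, nat_lit 0, nat_lit 0, nat_lit 0, nat_lit 0, nat_lit 0, [],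
 ⟨p006_k64, nat_lit 0, nat_lit 0, nat_lit 0, nat_lit 0, nat_lit 254417, [nat_lit 6250000000, nat_lit 7968000000], [], [nat_lit 15025037036, nat_lit 15133620658, nat_lit 14279078588, nat_lit 14384497843], nat_lit 1271250, nat_lit 1271250, nat_lit 43600, nat_lit 65850, nat_lit 0, nat_lit 0, [nat_lit 1412500, nat_lit 1271250], [nat_lit 26, nat_lit 40, nat_lit 20, nat_lit 80]⟩, ⟨p006_k59, nat_lit 0, nat_lit 0, nat_lit 0, nat_lit 0, nat_lit 263725, [nat_lit 6250000000, nat_lit 7968000000], [], [nat_lit 24362627474, nat_lit 24521715810, nat_lit 23198290451, nat_lit 23347760490], nat_lit 1271250, nat_lit 1271250, nat_lit 43600, nat_lit 65850, nat_lit 0, nat_lit 0, [nat_lit 1412500, nat_lit 1271250], [nat_lit 26, nat_lit 40, nat_lit 20, nat_lit 80]⟩,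
 zbF0, [⟨nat_lit 0, nat_lit 100, nat_lit 99, nat_lit 34, nat_lit 3269991739⟩]⟩
noncomputable def p006_l173 : Lf2 := ⟨nat_lit 0, nat_lit 2, [nat_lit 10, nat_lit 5, nat_lit 5, nat_lit 20], false, nat_lit 0, nat_lit 0, nat_lit 0, nat_lit 0, ⟨nat_lit 0, nat_lit 0, nat_lit 1000, nat_lit 5, nat_lit 57, nat_lit 0, nat_lit 0, nat_lit 0, nat_lit 0, nat_lit 215, nat_lit 29400, nat_lit 257, nat_lit 65684012, nat_lit 0, nat_lit 0, nat_lit 483149, false, false⟩,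
 nat_lit 100000, nat_lit 90756, nat_lit 0, nat_lit 0, nat_lit 99999, nat_lit 50620, nat_lit 20234, nat_lit 3151, nat_lit 0, nat_lit 4464, nat_lit 2222, nat_lit 0, nat_lit 0, nat_lit 0, nat_lit 0, nat_lit 1000000, nat_lit 0, nat_lit 0, [(nat_lit 3, [(nat_lit 6, nat_lit 1000)])],
 ⟨p006_k64, nat_lit 0, nat_lit 0, nat_lit 0, nat_lit 0, nat_lit 254417, [nat_lit 64061142858, nat_lit 74363600000], [], [nat_lit 70926881454, nat_lit 71455191639, nat_lit 64940292805, nat_lit 65447455403], nat_lit 1271250, nat_lit 1271250, nat_lit 43600, nat_lit 65850, nat_lit 0, nat_lit 0, [nat_lit 1412500, nat_lit 1271250], [nat_lit 26, nat_lit 40, nat_lit 20, nat_lit 80]⟩, ⟨p006_k59, nat_lit 0, nat_lit 0, nat_lit 0, nat_lit 0, nat_lit 263725, [nat_lit 44440000000, nat_lit 53328000000], [], [nat_lit 71420344347, nat_lit 71758026317, nat_lit 67643270278, nat_lit 67981831012], nat_lit 1271250, nat_lit 1271250, nat_lit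 43600, nat_lit 65850, nat_lit 0, nat_lit 0, [nat_lit 1412500, nat_lit 1271250], [nat_lit 26, nat_lit 40, nat_lit 20, nat_lit 80]⟩,
 ⟨nat_lit 6344, nat_lit 6364, ⟨.ofNat (nat_lit 136428), .ofNat (nat_lit 144692), .ofNat (nat_lit 137496), .ofNat (nat_lit 145761), .ofNat (nat_lit 137340), .ofNat (nat_lit 145585), .ofNat (nat_lit 138408), .ofNat (nat_lit 146654)⟩, ⟨.ofNat (nat_lit 0), .ofNat (nat_lit 0), .ofNat (nat_lit 0), .ofNat (nat_lit 0), .ofNat (nat_lit 0), .ofNat (nat_lit 0), .ofNat (nat_lit 0), .ofNat (nat_lit 0)⟩⟩, [⟨nat_lit 0, nat_lit 100, nat_lit 99, nat_lit 35, nat_lit 10101010101⟩, ⟨nat_lit 0, nat_lit 100, nat_lit 99, nat_lit 35, nat_lit 10101010101⟩, ⟨nat_lit 0, nat_lit 100, nat_lit 99, nat_lit 34, nat_lit 10101010101⟩]⟩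
noncomputable def p006_l174 : Lf2 := ⟨nat_lit 0, nat_lit 2, [nat_lit 10, nat_lit 5, nat_lit 5, nat_lit 20], false, nat_lit 0, nat_lit 0, nat_lit 0, nat_lit 0, ⟨nat_lit 1000, nat_lit 0, nat_lit 0, nat_lit 0, nat_lit 0, nat_lit 0, nat_lit 0, nat_lit 0, nat_lit 0, nat_lit 0, nat_lit 0, nat_lit 0, nat_lit 0, nat_lit 0, nat_lit 0, nat_lit 0, false, false⟩,
 nat_lit 24248, nat_lit 5902, nat_lit 0, nat_lit 0, nat_lit 15805, nat_lit 12274, nat_lit 3976, nat_lit 0, nat_lit 0, nat_lit 1472, nat_lit 0, nat_lit 0, nat_lit 0, nat_lit 0, nat_lit 0, nat_lit 0, nat_lit 0, nat_lit 0, [],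
 ⟨p006_k64, nat_lit 0, nat_lit 0, nat_lit 0, nat_lit 0, nat_lit 254417, [nat_lit 6250000000, nat_lit 7968000000], [], [nat_lit 16704678890, nat_lit 16828284809, nat_lit 15796593057, nat_lit 15919848692], nat_lit 1271250, nat_lit 1271250, nat_lit 43600, nat_lit 65850, nat_lit 0, nat_lit 0, [nat_lit 1412500, nat_lit 1271250], [nat_lit 26, nat_lit 40, nat_lit 20, nat_lit 80]⟩, ⟨p006_k59, nat_lit 0, nat_lit 0, nat_lit 0, nat_lit 0, nat_lit 263725, [nat_lit 6250000000, nat_lit 7968000000], [], [nat_lit 24356590913, nat_lit 24515641152, nat_lit 23203480261, nat_lit 23342078563], nat_lit 1271250, nat_lit 1271250, nat_lit 43600, nat_lit 65850, nat_lit 0, nat_lit 0, [nat_lit 1412500, nat_lit 1271250], [nat_lit 26, nat_lit 40, nat_lit 20, nat_lit 80]⟩,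
 zbF0, [⟨nat_lit 0, nat_lit 100, nat_lit 99, nat_lit 34, nat_lit 3701873601⟩]⟩
noncomputable def p006_l175 : Lf2 := ⟨nat_lit 0, nat_lit 2, [nat_lit 10, nat_lit 5, nat_lit 5, nat_lit 20], false, nat_lit 0, nat_lit 0, nat_lit 0, nat_lit 0, ⟨nat_lit 1000, nat_lit 0, nat_lit 0, nat_lit 0, nat_lit 0, nat_lit 0, nat_lit 0, nat_lit 0, nat_lit 0, nat_lit 0, nat_lit 0, nat_lit 0, nat_lit 0, nat_lit 0, nat_lit 0, nat_lit 0, false, false⟩,
 nat_lit 100000, nat_lit 0, nat_lit 0, nat_lit 0, nat_lit 52422, nat_lit 50620, nat_lit 11922, nat_lit 1255, nat_lit 0, nat_lit 0, nat_lit 1850, nat_lit 0, nat_lit 0, nat_lit 0, nat_lit 0, nat_lit 0, nat_lit 0, nat_lit 0, [],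
 ⟨p006_k64, nat_lit 0, nat_lit 0, nat_lit 0, nat_lit 0, nat_lit 254417, [nat_lit 31350000001, nat_lit 38088000000], [], [nat_lit 40167890210, nat_lit 40500648772, nat_lit 37041470362, nat_lit 37374123233], nat_lit 1271250, nat_lit 1271250, nat_lit 43600, nat_lit 65850, nat_lit 0, nat_lit 0, [nat_lit 1412500, nat_lit 1271250], [nat_lit 26, nat_lit 40, nat_lit 20, nat_lit 80]⟩, ⟨p006_k59, nat_lit 0, nat_lit 0, nat_lit 0, nat_lit 0, nat_lit 263725, [nat_lit 43250000000, nat_lit 52368000000], [], [nat_lit 88188199587, nat_lit 88562035597, nat_lit 84453785238, nat_lit 84828468132], nat_lit 1271250, nat_lit 1271250, nat_lit 43600, nat_lit 65850, nat_lit 0, nat_lit 0, [nat_lit 1412500, nat_lit 1271250], [nat_lit 26, nat_lit 40, nat_lit 20, nat_lit 80]⟩,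
 zbF0, [⟨nat_lit 0, nat_lit 100, nat_lit 99, nat_lit 35, nat_lit 10101010101⟩, ⟨nat_lit 0, nat_lit 100, nat_lit 99, nat_lit 35, nat_lit 10101010101⟩, ⟨nat_lit 0, nat_lit 100, nat_lit 99, nat_lit 34, nat_lit 10101010101⟩, ⟨nat_lit 13, nat_lit 99, nat_lit 3, nat_lit 100, nat_lit 47981728⟩]⟩
noncomputable def p006_l176 : Lf2 := ⟨nat_lit 0, nat_lit 2, [nat_lit 10, nat_lit 5, nat_lit 5, nat_lit 20], true, nat_lit 0, nat_lit 0, nat_lit 0, nat_lit 0, ⟨nat_lit 0, nat_lit 0, nat_lit 1000, nat_lit 5, nat_lit 57, nat_lit 0, nat_lit 0, nat_lit 0, nat_lit 0, nat_lit 215, nat_lit 29400, nat_lit 257, nat_lit 65684012, nat_lit 0, nat_lit 0, nat_lit 483149, false, false⟩,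
 nat_lit 0, nat_lit 100000, nat_lit 0, nat_lit 0, nat_lit 52422, nat_lit 0, nat_lit 9961, nat_lit 1515, nat_lit 0, nat_lit 0, nat_lit 0, nat_lit 0, nat_lit 0, nat_lit 0, nat_lit 0, nat_lit 1000000, nat_lit 0, nat_lit 0, [(nat_lit 3, [(nat_lit 6, nat_lit 1000)])],
 ⟨p006_k64, nat_lit 0, nat_lit 0, nat_lit 0, nat_lit 0, nat_lit 254417, [nat_lit 31341142858, nat_lit 35099600000], [], [nat_lit 40150175924, nat_lit 40482934486, nat_lit 37023469893, nat_lit 37356408947], nat_lit 1271250, nat_lit 1271250, nat_lit 43600, nat_lit 65850, nat_lit 0, nat_lit 0, [nat_lit 1412500, nat_lit 1271250], [nat_lit 26, nat_lit 40, nat_lit 20, nat_lit 80]⟩, C1.Rw.none,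
 ⟨nat_lit 6344, nat_lit 6364, ⟨.ofNat (nat_lit 136428), .ofNat (nat_lit 144692), .ofNat (nat_lit 137496), .ofNat (nat_lit 145761), .ofNat (nat_lit 137340), .ofNat (nat_lit 145585), .ofNat (nat_lit 138408), .ofNat (nat_lit 146654)⟩, ⟨.ofNat (nat_lit 0), .ofNat (nat_lit 0), .ofNat (nat_lit 0), .ofNat (nat_lit 0), .ofNat (nat_lit 0), .ofNat (nat_lit 0), .ofNat (nat_lit 0), .ofNat (nat_lit 0)⟩⟩, [⟨nat_lit 0, nat_lit 100, nat_lit 99, nat_lit 35, nat_lit 5573831583⟩, ⟨nat_lit 0, nat_lit 100, nat_lit 99, nat_lit 34, nat_lit 10101010101⟩]⟩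
noncomputable def p006_l177 : Lf2 := ⟨nat_lit 0, nat_lit 2, [nat_lit 10, nat_lit 5, nat_lit 5, nat_lit 20], true, nat_lit 0, nat_lit 0, nat_lit 0, nat_lit 0, ⟨nat_lit 0, nat_lit 0, nat_lit 1000, nat_lit 5, nat_lit 57, nat_lit 0, nat_lit 0, nat_lit 0, nat_lit 0, nat_lit 215, nat_lit 29400, nat_lit 257, nat_lit 65684012, nat_lit 0, nat_lit 0, nat_lit 483149, false, false⟩,
 nat_lit 0, nat_lit 100000, nat_lit 0, nat_lit 0, nat_lit 52422, nat_lit 0, nat_lit 9934, nat_lit 1518, nat_lit 0, nat_lit 0, nat_lit 0, nat_lit 0, nat_lit 0, nat_lit 0, nat_lit 0, nat_lit 1000000, nat_lit 0, nat_lit 0, [(nat_lit 3, [(nat_lit 6, nat_lit 1000)])],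
 ⟨p006_k64, nat_lit 0, nat_lit 0, nat_lit 0, nat_lit 0, nat_lit 254417, [nat_lit 31401142858, nat_lit 35171600000], [], [nat_lit 40311376108, nat_lit 40602934486, nat_lit 37195065428, nat_lit 37476710764], nat_lit 1271250, nat_lit 1271250, nat_lit 43600, nat_lit 65850, nat_lit 0, nat_lit 0, [nat_lit 1412500, nat_lit 1271250], [nat_lit 26, nat_lit 40, nat_lit 20, nat_lit 80]⟩, C1.Rw.none,
 ⟨nat_lit 6344, nat_lit 6364, ⟨.ofNat (nat_lit 136428), .ofNat (nat_lit 144692), .ofNat (nat_lit 137496), .ofNat (nat_lit 145761), .ofNat (nat_lit 137340), .ofNat (nat_lit 145585), .ofNat (nat_lit 138408), .ofNat (nat_lit 146654)⟩, ⟨.ofNat (nat_lit 0), .ofNat (nat_lit 0), .ofNat (nat_lit 0), .ofNat (nat_lit 0), .ofNat (nat_lit 0), .ofNat (nat_lit 0), .ofNat (nat_lit 0), .ofNat (nat_lit 0)⟩⟩, [⟨nat_lit 0, nat_lit 100, nat_lit 99, nat_lit 35, nat_lit 4841051843⟩, ⟨nat_lit 0, nat_lit 100, nat_lit 99, nat_lit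 34, nat_lit 10101010101⟩]⟩
noncomputable def p006_l178 : Lf2 := ⟨nat_lit 0, nat_lit 2, [nat_lit 10, nat_lit 5, nat_lit 5, nat_lit 20], false, nat_lit 0, nat_lit 0, nat_lit 0, nat_lit 0, ⟨nat_lit 1000, nat_lit 0, nat_lit 0, nat_lit 0, nat_lit 0, nat_lit 0, nat_lit 0, nat_lit 0, nat_lit 0, nat_lit 0, nat_lit 0, nat_lit 0, nat_lit 0, nat_lit 0, nat_lit 0, nat_lit 0, false, false⟩,
 nat_lit 24733, nat_lit 0, nat_lit 0, nat_lit 0, nat_lit 13029, nat_lit 12456, nat_lit 3334, nat_lit 0, nat_lit 73, nat_lit 1414, nat_lit 0, nat_lit 0, nat_lit 0, nat_lit 0, nat_lit 0, nat_lit 0, nat_lit 0, nat_lit 0, [],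
 ⟨p006_k65, nat_lit 0, nat_lit 0, nat_lit 0, nat_lit 0, nat_lit 253442, [nat_lit 6250000000, nat_lit 7968000000], [], [nat_lit 15919392154, nat_lit 16027141839, nat_lit 15181851713, nat_lit 15286878074], nat_lit 1271250, nat_lit 1271250, nat_lit 43600, nat_lit 65850, nat_lit 0, nat_lit 0, [nat_lit 1412500, nat_lit 1271250], [nat_lit 26, nat_lit 40, nat_lit 20, nat_lit 80]⟩, ⟨p006_k55, nat_lit 0, nat_lit 0, nat_lit 0, nat_lit 0, nat_lit 265425, [nat_lit 6250000000, nat_lit 7968000000], [], [nat_lit 24470470714, nat_lit 24631254415, nat_lit 23285466164, nat_lit 23439322013], nat_lit 1271250, nat_lit 1271250, nat_lit 43600, nat_lit 65850, nat_lit 0, nat_lit 0, [nat_lit 1412500, nat_lit 1271250], [nat_lit 26, nat_lit 40, nat_lit 20, nat_lit 80]⟩,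
 zbF0, [⟨nat_lit 0, nat_lit 100, nat_lit 99, nat_lit 34, nat_lit 3281546695⟩]⟩
noncomputable def p006_l179 : Lf2 := ⟨nat_lit 0, nat_lit 2, [nat_lit 10, nat_lit 5, nat_lit 5, nat_lit 20], false, nat_lit 0, nat_lit 0, nat_lit 0, nat_lit 0, ⟨nat_lit 0, nat_lit 0, nat_lit 1000, nat_lit 5, nat_lit 57, nat_lit 0, nat_lit 0, nat_lit 0, nat_lit 0, nat_lit 215, nat_lit 29400, nat_lit 257, nat_lit 65687050, nat_lit 0, nat_lit 0, nat_lit 482263, false, false⟩,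
 nat_lit 100000, nat_lit 89819, nat_lit 0, nat_lit 0, nat_lit 100000, nat_lit 50364, nat_lit 20051, nat_lit 3309, nat_lit 0, nat_lit 3009, nat_lit 2218, nat_lit 0, nat_lit 0, nat_lit 0, nat_lit 0, nat_lit 1000000, nat_lit 0, nat_lit 0, [(nat_lit 3, [(nat_lit 6, nat_lit 1000)])],
 ⟨p006_k65, nat_lit 0, nat_lit 0, nat_lit 0, nat_lit 0, nat_lit 253442, [nat_lit 67221142858, nat_lit 78155600000], [], [nat_lit 77849473614, nat_lit 78378986516, nat_lit 71864848574, nat_lit 72370784917], nat_lit 1271250, nat_lit 1271250, nat_lit 43600, nat_lit 65850, nat_lit 0, nat_lit 0, [nat_lit 1412500, nat_lit 1271250], [nat_lit 26, nat_lit 40, nat_lit 20, nat_lit 80]⟩, ⟨p006_k55, nat_lit 0, nat_lit 0, nat_lit 0, nat_lit 0, nat_lit 265425, [nat_lit 44360000000, nat_lit 53232000000], [], [nat_lit 72791737553, nat_lit 73127711768, nat_lit 69032890922, nat_lit 69369739456], nat_lit 1271250, nat_lit 1271250,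 nat_lit 43600, nat_lit 65850, nat_lit 0, nat_lit 0, [nat_lit 1412500, nat_lit 1271250], [nat_lit 26, nat_lit 40, nat_lit 20, nat_lit 80]⟩,
 ⟨nat_lit 6324, nat_lit 6345, ⟨.ofNat (nat_lit 136271), .ofNat (nat_lit 144517), .ofNat (nat_lit 137340), .ofNat (nat_lit 145585), .ofNat (nat_lit 137182), .ofNat (nat_lit 145408), .ofNat (nat_lit 138250), .ofNat (nat_lit 146477)⟩, ⟨.ofNat (nat_lit 0), .ofNat (nat_lit 0), .ofNat (nat_lit 0), .ofNat (nat_lit 0), .ofNat (nat_lit 0), .ofNat (nat_lit 0), .ofNat (nat_lit 0), .ofNat (nat_lit 0)⟩⟩, [⟨nat_lit 0, nat_lit 100, nat_lit 99, nat_lit 35, nat_lit 10101010101⟩, ⟨nat_lit 0, nat_lit 100, nat_lit 99, nat_lit 35, nat_lit 10101010101⟩, ⟨nat_lit 0, nat_lit 100, nat_lit 99, nat_lit 34, nat_lit 10101010101⟩]⟩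
noncomputable def p006_l180 : Lf2 := ⟨nat_lit 0, nat_lit 2, [nat_lit 10, nat_lit 5, nat_lit 5, nat_lit 20], false, nat_lit 0, nat_lit 0, nat_lit 0, nat_lit 0, ⟨nat_lit 1000, nat_lit 0, nat_lit 0, nat_lit 0, nat_lit 0, nat_lit 0, nat_lit 0, nat_lit 0, nat_lit 0, nat_lit 0, nat_lit 0, nat_lit 0, nat_lit 0, nat_lit 0, nat_lit 0, nat_lit 0, false, false⟩,
 nat_lit 24720, nat_lit 3886, nat_lit 0, nat_lit 0, nat_lit 15069, nat_lit 12449, nat_lit 3772, nat_lit 0, nat_lit 0, nat_lit 1405, nat_lit 0, nat_lit 0, nat_lit 0, nat_lit 0, nat_lit 0, nat_lit 0, nat_lit 0, nat_lit 0, [],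
 ⟨p006_k65, nat_lit 0, nat_lit 0, nat_lit 0, nat_lit 0, nat_lit 253442, [nat_lit 6250000000, nat_lit 7968000000], [], [nat_lit 17361489062, nat_lit 17480891023, nat_lit 16498241076, nat_lit 16617062010], nat_lit 1271250, nat_lit 1271250, nat_lit 43600, nat_lit 65850, nat_lit 0, nat_lit 0, [nat_lit 1412500, nat_lit 1271250], [nat_lit 26, nat_lit 40, nat_lit 20, nat_lit 80]⟩, ⟨p006_k55, nat_lit 0, nat_lit 0, nat_lit 0, nat_lit 0, nat_lit 265425, [nat_lit 6250000000, nat_lit 7968000000], [], [nat_lit 24459973405, nat_lit 24620690434, nat_lit 23294369553, nat_lit 23429445600], nat_lit 1271250, nat_lit 1271250, nat_lit 43600, nat_lit 65850, nat_lit 0, nat_lit 0, [nat_lit 1412500, nat_lit 1271250], [nat_lit 26, nat_lit 40, nat_lit 20, nat_lit 80]⟩,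
 zbF0, [⟨nat_lit 0, nat_lit 100, nat_lit 99, nat_lit 34, nat_lit 3468254813⟩]⟩
noncomputable def p006_l181 : Lf2 := ⟨nat_lit 0, nat_lit 2, [nat_lit 10, nat_lit 5, nat_lit 5, nat_lit 20], false, nat_lit 0, nat_lit 0, nat_lit 0, nat_lit 0, ⟨nat_lit 0, nat_lit 0, nat_lit 1000, nat_lit 5, nat_lit 57, nat_lit 0, nat_lit 0, nat_lit 0, nat_lit 0, nat_lit 215, nat_lit 29400, nat_lit 257, nat_lit 65687050, nat_lit 0, nat_lit 0, nat_lit 482263, false, false⟩,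
 nat_lit 100000, nat_lit 89819, nat_lit 0, nat_lit 0, nat_lit 100000, nat_lit 50364, nat_lit 20051, nat_lit 3309, nat_lit 0, nat_lit 0, nat_lit 2318, nat_lit 0, nat_lit 0, nat_lit 0, nat_lit 0, nat_lit 1000000, nat_lit 0, nat_lit 0, [(nat_lit 3, [(nat_lit 6, nat_lit 1000)])],
 ⟨p006_k65, nat_lit 0, nat_lit 0, nat_lit 0, nat_lit 0, nat_lit 253442, [nat_lit 67221142858, nat_lit 78155600000], [], [nat_lit 77849473614, nat_lit 78378986516, nat_lit 71864848574, nat_lit 72370784917], nat_lit 1271250, nat_lit 1271250, nat_lit 43600, nat_lit 65850, nat_lit 0, nat_lit 0, [nat_lit 1412500, nat_lit 1271250], [nat_lit 26, nat_lit 40, nat_lit 20, nat_lit 80]⟩, ⟨p006_k55, nat_lit 0, nat_lit 0, nat_lit 0, nat_lit 0, nat_lit 265425, [nat_lit 46360000000, nat_lit 55632000000], [], [nat_lit 78793134428, nat_lit 79129108643, nat_lit 75034287797, nat_lit 75371136331], nat_lit 1271250, nat_lit 1271250, nat_lit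 43600, nat_lit 65850, nat_lit 0, nat_lit 0, [nat_lit 1412500, nat_lit 1271250], [nat_lit 26, nat_lit 40, nat_lit 20, nat_lit 80]⟩,
 ⟨nat_lit 6324, nat_lit 6345, ⟨.ofNat (nat_lit 136271), .ofNat (nat_lit 144517), .ofNat (nat_lit 137340), .ofNat (nat_lit 145585), .ofNat (nat_lit 137182), .ofNat (nat_lit 145408), .ofNat (nat_lit 138250), .ofNat (nat_lit 146477)⟩, ⟨.ofNat (nat_lit 0), .ofNat (nat_lit 0), .ofNat (nat_lit 0), .ofNat (nat_lit 0), .ofNat (nat_lit 0), .ofNat (nat_lit 0), .ofNat (nat_lit 0), .ofNat (nat_lit 0)⟩⟩, [⟨nat_lit 0, nat_lit 100, nat_lit 99, nat_lit 35, nat_lit 10101010101⟩, ⟨nat_lit 0, nat_lit 100, nat_lit 99, nat_lit 35, nat_lit 10101010101⟩, ⟨nat_lit 0, nat_lit 100, nat_lit 99, nat_lit 34, nat_lit 10101010101⟩, ⟨nat_lit 13, nat_lit 99, nat_lit 4, nat_lit 100, nat_lit 75804692⟩]⟩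
noncomputable def p006_l182 : Lf2 := ⟨nat_lit 0, nat_lit 2, [nat_lit 10, nat_lit 5, nat_lit 5, nat_lit 20], true, nat_lit 0, nat_lit 0, nat_lit 0, nat_lit 0, ⟨nat_lit 0, nat_lit 0, nat_lit 1000, nat_lit 5, nat_lit 57, nat_lit 0, nat_lit 0, nat_lit 0, nat_lit 0, nat_lit 215, nat_lit 29400, nat_lit 257, nat_lit 65687050, nat_lit 0, nat_lit 0, nat_lit 482263, false, false⟩,
 nat_lit 0, nat_lit 100000, nat_lit 0, nat_lit 0, nat_lit 52681, nat_lit 0, nat_lit 9939, nat_lit 1608, nat_lit 0, nat_lit 0, nat_lit 0, nat_lit 0, nat_lit 0, nat_lit 0, nat_lit 0, nat_lit 1000000, nat_lit 0, nat_lit 0, [(nat_lit 3, [(nat_lit 6, nat_lit 1000)])],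
 ⟨p006_k65, nat_lit 0, nat_lit 0, nat_lit 0, nat_lit 0, nat_lit 253442, [nat_lit 33201142858, nat_lit 37331600000], [], [nat_lit 44015298750, nat_lit 44349536694, nat_lit 40873084183, nat_lit 41207503707], nat_lit 1271250, nat_lit 1271250, nat_lit 43600, nat_lit 65850, nat_lit 0, nat_lit 0, [nat_lit 1412500, nat_lit 1271250], [nat_lit 26, nat_lit 40, nat_lit 20, nat_lit 80]⟩, C1.Rw.none,
 ⟨nat_lit 6324, nat_lit 6345, ⟨.ofNat (nat_lit 136271), .ofNat (nat_lit 144517), .ofNat (nat_lit 137340), .ofNat (nat_lit 145585), .ofNat (nat_lit 137182), .ofNat (nat_lit 145408), .ofNat (nat_lit 138250), .ofNat (nat_lit 146477)⟩, ⟨.ofNat (nat_lit 0), .ofNat (nat_lit 0), .ofNat (nat_lit 0), .ofNat (nat_lit 0), .ofNat (nat_lit 0), .ofNat (nat_lit 0), .ofNat (nat_lit 0), .ofNat (nat_lit 0)⟩⟩, [⟨nat_lit 0, nat_lit 100, nat_lit 99, nat_lit 35, nat_lit 5666491577⟩, ⟨nat_lit 0, nat_lit 100, nat_lit 99, nat_lit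 34, nat_lit 10101010101⟩]⟩
noncomputable def p006_l183 : Lf2 := ⟨nat_lit 0, nat_lit 2, [nat_lit 10, nat_lit 5, nat_lit 5, nat_lit 20], true, nat_lit 0, nat_lit 0, nat_lit 0, nat_lit 0, ⟨nat_lit 0, nat_lit 0, nat_lit 1000, nat_lit 5, nat_lit 57, nat_lit 0, nat_lit 0, nat_lit 0, nat_lit 0, nat_lit 215, nat_lit 29400, nat_lit 257, nat_lit 65687050, nat_lit 0, nat_lit 0, nat_lit 482263, false, false⟩,
 nat_lit 0, nat_lit 100000, nat_lit 0, nat_lit 0, nat_lit 52681, nat_lit 0, nat_lit 9913, nat_lit 1611, nat_lit 0, nat_lit 0, nat_lit 0, nat_lit 0, nat_lit 0, nat_lit 0, nat_lit 0, nat_lit 1000000, nat_lit 0, nat_lit 0, [(nat_lit 3, [(nat_lit 6, nat_lit 1000)])],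
 ⟨p006_k65, nat_lit 0, nat_lit 0, nat_lit 0, nat_lit 0, nat_lit 253442, [nat_lit 33261142858, nat_lit 37403600000], [], [nat_lit 44175842540, nat_lit 44469536694, nat_lit 41047099419, nat_lit 41327503707], nat_lit 1271250, nat_lit 1271250, nat_lit 43600, nat_lit 65850, nat_lit 0, nat_lit 0, [nat_lit 1412500, nat_lit 1271250], [nat_lit 26, nat_lit 40, nat_lit 20, nat_lit 80]⟩, C1.Rw.none,
 ⟨nat_lit 6324, nat_lit 6345, ⟨.ofNat (nat_lit 136271), .ofNat (nat_lit 144517), .ofNat (nat_lit 137340), .ofNat (nat_lit 145585), .ofNat (nat_lit 137182), .ofNat (nat_lit 145408), .ofNat (nat_lit 138250), .ofNat (nat_lit 146477)⟩, ⟨.ofNat (nat_lit 0), .ofNat (nat_lit 0), .ofNat (nat_lit 0), .ofNat (nat_lit 0), .ofNat (nat_lit 0), .ofNat (nat_lit 0), .ofNat (nat_lit 0), .ofNat (nat_lit 0)⟩⟩, [⟨nat_lit 0, nat_lit 100, nat_lit 99, nat_lit 35, nat_lit 4930189902⟩, ⟨nat_lit 0, nat_lit 100, nat_lit 99, nat_lit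 34, nat_lit 10101010101⟩]⟩
noncomputable def p006_l184 : Lf2 := ⟨nat_lit 0, nat_lit 1, [nat_lit 19, nat_lit 5, nat_lit 5, nat_lit 20], true, nat_lit 0, nat_lit 0, nat_lit 0, nat_lit 0, ⟨nat_lit 0, nat_lit 254, nat_lit 746, nat_lit 5, nat_lit 60, nat_lit 0, nat_lit 0, nat_lit 0, nat_lit 0, nat_lit 215, nat_lit 33750, nat_lit 260, nat_lit 65542980, nat_lit 1457020, nat_lit 0, nat_lit 523758, false, false⟩,
 nat_lit 0, nat_lit 100000, nat_lit 0, nat_lit 0, nat_lit 51648, nat_lit 0, nat_lit 60000, nat_lit 3936, nat_lit 0, nat_lit 0, nat_lit 0, nat_lit 0, nat_lit 0, nat_lit 0, nat_lit 0, nat_lit 847600, nat_lit 0, nat_lit 0, [(nat_lit 3, [(nat_lit 1, nat_lit 254), (nat_lit 6, nat_lit 746)])],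
 ⟨p006_k58, nat_lit 0, nat_lit 0, nat_lit 0, nat_lit 0, nat_lit 306349, [nat_lit 40234541067, nat_lit 72248837334, nat_lit 87095109600], [], [nat_lit 110169698389, nat_lit 111202283753, nat_lit 107495103024, nat_lit 108523136670], nat_lit 1271250, nat_lit 1271250, nat_lit 65850, nat_lit 88400, nat_lit 0, nat_lit 0, [nat_lit 631250, nat_lit 1271250, nat_lit 1271250], [nat_lit 90, nat_lit 40, nat_lit 20, nat_lit 40]⟩, C1.Rw.none,
 ⟨nat_lit 6363, nat_lit 6423, ⟨.ofNat (nat_lit 140933), .ofNat (nat_lit 149255), .ofNat (nat_lit 146279), .ofNat (nat_lit 154601), .ofNat (nat_lit 143624), .ofNat (nat_lit 151888), .ofNat (nat_lit 148967), .ofNat (nat_lit 157231)⟩, ⟨.ofNat (nat_lit 0), .ofNat (nat_lit 0), .ofNat (nat_lit 0), .ofNat (nat_lit 0), .ofNat (nat_lit 0), .ofNat (nat_lit 0), .ofNat (nat_lit 0), .ofNat (nat_lit 0)⟩⟩, []⟩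
noncomputable def p006_l185 : Lf2 := ⟨nat_lit 0, nat_lit 2, [nat_lit 10, nat_lit 5, nat_lit 5, nat_lit 20], false, nat_lit 0, nat_lit 0, nat_lit 0, nat_lit 0, ⟨nat_lit 1000, nat_lit 0, nat_lit 0, nat_lit 0, nat_lit 0, nat_lit 0, nat_lit 0, nat_lit 0, nat_lit 0, nat_lit 0, nat_lit 0, nat_lit 0, nat_lit 0, nat_lit 0, nat_lit 0, nat_lit 0, false, false⟩,
 nat_lit 24090, nat_lit 8938, nat_lit 0, nat_lit 0, nat_lit 17058, nat_lit 12132, nat_lit 4486, nat_lit 0, nat_lit 0, nat_lit 1591, nat_lit 0, nat_lit 0, nat_lit 0, nat_lit 0, nat_lit 0, nat_lit 0, nat_lit 0, nat_lit 0, [],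
 ⟨p006_k56, nat_lit 0, nat_lit 0, nat_lit 0, nat_lit 0, nat_lit 258068, [nat_lit 6250000000, nat_lit 7968000000], [], [nat_lit 15253844151, nat_lit 14805401560, nat_lit 15148629409, nat_lit 13843593131], nat_lit 1271250, nat_lit 1271250, nat_lit 65850, nat_lit 88400, nat_lit 0, nat_lit 0, [nat_lit 1412500, nat_lit 1271250], [nat_lit 26, nat_lit 40, nat_lit 20, nat_lit 80]⟩, ⟨p006_k55, nat_lit 0, nat_lit 0, nat_lit 0, nat_lit 0, nat_lit 264827, [nat_lit 6250000000, nat_lit 7968000000], [], [nat_lit 23697565911, nat_lit 23299504033, nat_lit 23646493624, nat_lit 22718325015], nat_lit 1271250, nat_lit 1271250, nat_lit 65850, nat_lit 88400, nat_lit 0, nat_lit 0, [nat_lit 1412500, nat_lit 1271250], [nat_lit 26, nat_lit 40, nat_lit 20, nat_lit 80]⟩,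
 zbF0, []⟩
noncomputable def p006_l186 : Lf2 := ⟨nat_lit 0, nat_lit 2, [nat_lit 10, nat_lit 5, nat_lit 5, nat_lit 20], false, nat_lit 0, nat_lit 0, nat_lit 0, nat_lit 0, ⟨nat_lit 1000, nat_lit 0, nat_lit 0, nat_lit 0, nat_lit 0, nat_lit 0, nat_lit 0, nat_lit 0, nat_lit 0, nat_lit 0, nat_lit 0, nat_lit 0, nat_lit 0, nat_lit 0, nat_lit 0, nat_lit 0, false, false⟩,
 nat_lit 23042, nat_lit 10650, nat_lit 0, nat_lit 0, nat_lit 17401, nat_lit 11782, nat_lit 4533, nat_lit 0, nat_lit 0, nat_lit 1656, nat_lit 0, nat_lit 0, nat_lit 0, nat_lit 0, nat_lit 0, nat_lit 0, nat_lit 0, nat_lit 0, [],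
 ⟨p006_k56, nat_lit 0, nat_lit 0, nat_lit 0, nat_lit 0, nat_lit 265725, [nat_lit 6250000000, nat_lit 7968000000], [], [nat_lit 14773777509, nat_lit 14534173007, nat_lit 14664633393, nat_lit 13531373071], nat_lit 1271250, nat_lit 1271250, nat_lit 65850, nat_lit 88400, nat_lit 0, nat_lit 0, [nat_lit 1412500, nat_lit 1271250], [nat_lit 26, nat_lit 40, nat_lit 20, nat_lit 80]⟩, ⟨p006_k57, nat_lit 0, nat_lit 0, nat_lit 0, nat_lit 0, nat_lit 268471, [nat_lit 6250000000, nat_lit 7968000000], [], [nat_lit 23240009862, nat_lit 23107871994, nat_lit 23194347142, nat_lit 22593419428], nat_lit 1271250, nat_lit 1271250, nat_lit 65850, nat_lit 88400, nat_lit 0, nat_lit 0, [nat_lit 1412500, nat_lit 1271250], [nat_lit 26, nat_lit 40, nat_lit 20, nat_lit 80]⟩,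
 zbF0, [⟨nat_lit 0, nat_lit 100, nat_lit 100, nat_lit 35, nat_lit 1033362234⟩]⟩
noncomputable def p006_l187 : Lf2 := ⟨nat_lit 0, nat_lit 2, [nat_lit 10, nat_lit 5, nat_lit 5, nat_lit 20], false, nat_lit 0, nat_lit 0, nat_lit 0, nat_lit 0, ⟨nat_lit 1000, nat_lit 0, nat_lit 0, nat_lit 0, nat_lit 0, nat_lit 0, nat_lit 0, nat_lit 0, nat_lit 0, nat_lit 0, nat_lit 0, nat_lit 0, nat_lit 0, nat_lit 0, nat_lit 0, nat_lit 0, false, false⟩,
 nat_lit 24316, nat_lit 4892, nat_lit 0, nat_lit 0, nat_lit 15311, nat_lit 12246, nat_lit 3893, nat_lit 0, nat_lit 0, nat_lit 1518, nat_lit 0, nat_lit 0, nat_lit 0, nat_lit 0, nat_lit 0, nat_lit 0, nat_lit 0, nat_lit 0, [],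
 ⟨p006_k64, nat_lit 0, nat_lit 0, nat_lit 0, nat_lit 0, nat_lit 308086, [nat_lit 6250000000, nat_lit 7968000000], [], [nat_lit 16525850796, nat_lit 16428466183, nat_lit 16442383022, nat_lit 15661462616], nat_lit 1271250, nat_lit 1271250, nat_lit 65850, nat_lit 88400, nat_lit 0, nat_lit 0, [nat_lit 1412500, nat_lit 1271250], [nat_lit 26, nat_lit 40, nat_lit 20, nat_lit 80]⟩, ⟨p006_k55, nat_lit 0, nat_lit 0, nat_lit 0, nat_lit 0, nat_lit 321025, [nat_lit 6250000000, nat_lit 7968000000], [], [nat_lit 23552567852, nat_lit 23461580511, nat_lit 23500168080, nat_lit 22563277808], nat_lit 1271250, nat_lit 1271250, nat_lit 65850, nat_lit 88400, nat_lit 0, nat_lit 0, [nat_lit 1412500, nat_lit 1271250], [nat_lit 26, nat_lit 40, nat_lit 20, nat_lit 80]⟩,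
 zbF0, [⟨nat_lit 0, nat_lit 100, nat_lit 99, nat_lit 35, nat_lit 1009837687⟩]⟩
noncomputable def p006_l188 : Lf2 := ⟨nat_lit 0, nat_lit 2, [nat_lit 10, nat_lit 5, nat_lit 5, nat_lit 20], false, nat_lit 0, nat_lit 0, nat_lit 0, nat_lit 0, ⟨nat_lit 1000, nat_lit 0, nat_lit 0, nat_lit 0, nat_lit 0, nat_lit 0, nat_lit 0, nat_lit 0, nat_lit 0, nat_lit 0, nat_lit 0, nat_lit 0, nat_lit 0, nat_lit 0, nat_lit 0, nat_lit 0, false, false⟩,
 nat_lit 23092, nat_lit 6133, nat_lit 0, nat_lit 0, nat_lit 15320, nat_lit 11807, nat_lit 3894, nat_lit 0, nat_lit 0, nat_lit 1636, nat_lit 0, nat_lit 0, nat_lit 0, nat_lit 0, nat_lit 0, nat_lit 0, nat_lit 0, nat_lit 0, [],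
 ⟨p006_k64, nat_lit 0, nat_lit 0, nat_lit 0, nat_lit 0, nat_lit 315554, [nat_lit 6250000000, nat_lit 7968000000], [], [nat_lit 16512564724, nat_lit 16421452289, nat_lit 16428994866, nat_lit 15647615424], nat_lit 1271250, nat_lit 1271250, nat_lit 65850, nat_lit 88400, nat_lit 0, nat_lit 0, [nat_lit 1412500, nat_lit 1271250], [nat_lit 26, nat_lit 40, nat_lit 20, nat_lit 80]⟩, ⟨p006_k57, nat_lit 0, nat_lit 0, nat_lit 0, nat_lit 0, nat_lit 323727, [nat_lit 6250000000, nat_lit 7968000000], [], [nat_lit 23206296566, nat_lit 23144714059, nat_lit 23160345562, nat_lit 22558142751], nat_lit 1271250, nat_lit 1271250, nat_lit 65850, nat_lit 88400, nat_lit 0, nat_lit 0, [nat_lit 1412500, nat_lit 1271250], [nat_lit 26, nat_lit 40, nat_lit 20, nat_lit 80]⟩,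
 zbF0, [⟨nat_lit 0, nat_lit 100, nat_lit 100, nat_lit 36, nat_lit 988524737⟩]⟩
noncomputable def p006_l189 : Lf2 := ⟨nat_lit 0, nat_lit 2, [nat_lit 10, nat_lit 5, nat_lit 5, nat_lit 20], false, nat_lit 0, nat_lit 0, nat_lit 0, nat_lit 0, ⟨nat_lit 1000, nat_lit 0, nat_lit 0, nat_lit 0, nat_lit 0, nat_lit 0, nat_lit 0, nat_lit 0, nat_lit 0, nat_lit 0, nat_lit 0, nat_lit 0, nat_lit 0, nat_lit 0, nat_lit 0, nat_lit 0, false, false⟩,
 nat_lit 24449, nat_lit 9481, nat_lit 0, nat_lit 0, nat_lit 17523, nat_lit 12313, nat_lit 4526, nat_lit 0, nat_lit 0, nat_lit 1633, nat_lit 0, nat_lit 0, nat_lit 0, nat_lit 0, nat_lit 0, nat_lit 0, nat_lit 0, nat_lit 0, [],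
 ⟨p006_k56, nat_lit 0, nat_lit 0, nat_lit 0, nat_lit 0, nat_lit 320414, [nat_lit 6250000000, nat_lit 7968000000], [], [nat_lit 14492483207, nat_lit 13692136066, nat_lit 14404243163, nat_lit 12681796788], nat_lit 1271250, nat_lit 1271250, nat_lit 88400, nat_lit 111251, nat_lit 0, nat_lit 0, [nat_lit 1412500, nat_lit 1271250], [nat_lit 26, nat_lit 40, nat_lit 20, nat_lit 80]⟩, ⟨p006_k55, nat_lit 0, nat_lit 0, nat_lit 0, nat_lit 0, nat_lit 328806, [nat_lit 6250000000, nat_lit 7968000000], [], [nat_lit 23414169734, nat_lit 22701318573, nat_lit 23377018626, nat_lit 21809315153], nat_lit 1271250, nat_lit 1271250, nat_lit 88400, nat_lit 111251, nat_lit 0, nat_lit 0, [nat_lit 1412500, nat_lit 1271250], [nat_lit 26, nat_lit 40, nat_lit 20, nat_lit 80]⟩,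
 zbF0, []⟩
noncomputable def p006_l190 : Lf2 := ⟨nat_lit 0, nat_lit 2, [nat_lit 10, nat_lit 5, nat_lit 5, nat_lit 20], false, nat_lit 0, nat_lit 0, nat_lit 0, nat_lit 0, ⟨nat_lit 1000, nat_lit 0, nat_lit 0, nat_lit 0, nat_lit 0, nat_lit 0, nat_lit 0, nat_lit 0, nat_lit 0, nat_lit 0, nat_lit 0, nat_lit 0, nat_lit 0, nat_lit 0, nat_lit 0, nat_lit 0, false, false⟩,
 nat_lit 25239, nat_lit 11636, nat_lit 0, nat_lit 0, nat_lit 19045, nat_lit 12711, nat_lit 4735, nat_lit 0, nat_lit 0, nat_lit 1542, nat_lit 0, nat_lit 0, nat_lit 0, nat_lit 0, nat_lit 0, nat_lit 0, nat_lit 0, nat_lit 0, [],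
 ⟨p006_k56, nat_lit 0, nat_lit 0, nat_lit 0, nat_lit 0, nat_lit 320414, [nat_lit 6250000000, nat_lit 7968000000], [], [nat_lit 12240995645, nat_lit 11309423020, nat_lit 12149940155, nat_lit 9742823560], nat_lit 1271250, nat_lit 1271250, nat_lit 111251, nat_lit 230001, nat_lit 0, nat_lit 0, [nat_lit 1412500, nat_lit 1271250], [nat_lit 26, nat_lit 40, nat_lit 20, nat_lit 80]⟩, ⟨p006_k55, nat_lit 0, nat_lit 0, nat_lit 0, nat_lit 0, nat_lit 328806, [nat_lit 6250000000, nat_lit 7968000000], [], [nat_lit 22862007422, nat_lit 22025032529, nat_lit 22947389850, nat_lit 21340833849], nat_lit 1271250, nat_lit 1271250, nat_lit 111251, nat_lit 230001, nat_lit 0, nat_lit 0, [nat_lit 1412500, nat_lit 1271250], [nat_lit 26, nat_lit 40, nat_lit 20, nat_lit 80]⟩,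
 zbF0, []⟩
noncomputable def b_NL_550_550_0_26 : St := ⟨false, nat_lit 1, nat_lit 1, nat_lit 1, nat_lit 20, nat_lit 235, nat_lit 240, nat_lit 230, nat_lit 235, nat_lit 8, nat_lit 40, nat_lit 0, nat_lit 0, nat_lit 0, nat_lit 0, nat_lit 0, nat_lit 0, nat_lit 0, nat_lit 8, nat_lit 460, nat_lit 600, nat_lit 0, nat_lit 800⟩
theorem d_NL_550_550_0_26 (h : EB TB.env) : Dead b_NL_550_550_0_26 := chkB_sound0 h (T :=
(.spl (nat_lit 2) (nat_lit 20)
(.spl (nat_lit 2) (nat_lit 16)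
(.spl (nat_lit 2) (nat_lit 12)
(.spl (nat_lit 6) (nat_lit 4)
(.leaf p006_l152)
(.spl (nat_lit 0) (nat_lit 238)
(.spl (nat_lit 0) (nat_lit 237)
(.spl (nat_lit 0) (nat_lit 236)
(.spl (nat_lit 1) (nat_lit 233)
(.spl (nat_lit 1) (nat_lit 232)
(.spl (nat_lit 1) (nat_lit 231)
(.leaf p006_l153)
(.leaf p006_l154))
(.spl (nat_lit 7) (nat_lit 540)
(.leaf p006_l155)
(.leaf p006_l156)))
(.spl (nat_lit 1) (nat_lit 234)
(.leaf p006_l157)
(.leaf p006_l158)))
(.spl (nat_lit 1) (nat_lit 233)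
(.spl (nat_lit 1) (nat_lit 232)
(.spl (nat_lit 1) (nat_lit 231)
(.spl (nat_lit 7) (nat_lit 540)
(.spl (nat_lit 7) (nat_lit 500)
(.leaf p006_l159)
(.leaf p006_l160))
(.leaf p006_l161))
(.spl (nat_lit 7) (nat_lit 540)
(.spl (nat_lit 7) (nat_lit 500)
(.spl (nat_lit 7) (nat_lit 480)
(.leaf p006_l162)
(.leaf p006_l163))
(.spl (nat_lit 7) (nat_lit 520)
(.leaf p006_l164)
(.leaf p006_l165)))
(.leaf p006_l166)))
(.leaf p006_l167))
(.spl (nat_lit 1) (nat_lit 234)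
(.leaf p006_l168)
(.emL (nat_lit 0) (nat_lit 100) (nat_lit 100) (nat_lit 35)))))
(.spl (nat_lit 1) (nat_lit 233)
(.leaf p006_l169)
(.emL (nat_lit 0) (nat_lit 100) (nat_lit 100) (nat_lit 35))))
(.spl (nat_lit 0) (nat_lit 239)
(.spl (nat_lit 1) (nat_lit 233)
(.spl (nat_lit 1) (nat_lit 232)
(.spl (nat_lit 1) (nat_lit 231)
(.spl (nat_lit 7) (nat_lit 540)
(.leaf p006_l170)
(.leaf p006_l171))
(.spl (nat_lit 7) (nat_lit 540)
(.spl (nat_lit 7) (nat_lit 500)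
(.spl (nat_lit 7) (nat_lit 480)
(.spl (nat_lit 8) (nat_lit 400)
(.leaf p006_l172)
(.leaf p006_l173))
(.spl (nat_lit 8) (nat_lit 400)
(.leaf p006_l174)
(.leaf p006_l175)))
(.leaf p006_l176))
(.leaf p006_l177)))
(.emL (nat_lit 0) (nat_lit 100) (nat_lit 99) (nat_lit 35)))
(.emL (nat_lit 0) (nat_lit 100) (nat_lit 100) (nat_lit 35)))
(.spl (nat_lit 1) (nat_lit 233)
(.spl (nat_lit 1) (nat_lit 232)
(.spl (nat_lit 1) (nat_lit 231)
(.spl (nat_lit 7) (nat_lit 540)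
(.spl (nat_lit 7) (nat_lit 500)
(.spl (nat_lit 7) (nat_lit 480)
(.spl (nat_lit 8) (nat_lit 400)
(.leaf p006_l178)
(.leaf p006_l179))
(.spl (nat_lit 8) (nat_lit 400)
(.leaf p006_l180)
(.leaf p006_l181)))
(.leaf p006_l182))
(.leaf p006_l183))
(.emL (nat_lit 0) (nat_lit 100) (nat_lit 99) (nat_lit 35)))
(.emL (nat_lit 0) (nat_lit 100) (nat_lit 99) (nat_lit 35)))
(.emL (nat_lit 0) (nat_lit 100) (nat_lit 99) (nat_lit 36))))))
(.spl (nat_lit 0) (nat_lit 238)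
(.spl (nat_lit 6) (nat_lit 4)
(.leaf p006_l184)
(.spl (nat_lit 1) (nat_lit 233)
(.leaf p006_l185)
(.leaf p006_l186)))
(.spl (nat_lit 1) (nat_lit 233)
(.leaf p006_l187)
(.leaf p006_l188))))
(.leaf p006_l189))
(.leaf p006_l190))) (by decide +kernel)
noncomputable def p006_l191 : Lf2 := ⟨nat_lit 0, nat_lit 1, [nat_lit 19, nat_lit 5, nat_lit 5, nat_lit 20], false, nat_lit 0, nat_lit 0, nat_lit 0, nat_lit 0, ⟨nat_lit 1000, nat_lit 0, nat_lit 0, nat_lit 0, nat_lit 0, nat_lit 0, nat_lit 0, nat_lit 0, nat_lit 0, nat_lit 0, nat_lit 0, nat_lit 0, nat_lit 0, nat_lit 0, nat_lit 0, nat_lit 0, false, false⟩,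
 nat_lit 32903, nat_lit 0, nat_lit 0, nat_lit 0, nat_lit 16993, nat_lit 11617, nat_lit 4490, nat_lit 0, nat_lit 0, nat_lit 1681, nat_lit 0, nat_lit 0, nat_lit 0, nat_lit 46296639676425, nat_lit 0, nat_lit 0, nat_lit 0, nat_lit 0, [],
 ⟨p006_k66, nat_lit 0, nat_lit 0, nat_lit 0, nat_lit 0, nat_lit 310216, [nat_lit 6250000000, nat_lit 7968000000], [], [nat_lit 15344818879, nat_lit 14726377210, nat_lit 15127476287, nat_lit 14268371382], nat_lit 1271250, nat_lit 1271250, nat_lit 65850, nat_lit 230001, nat_lit 0, nat_lit 0, [nat_lit 1412500, nat_lit 1271250], [nat_lit 26, nat_lit 40, nat_lit 20, nat_lit 80]⟩, ⟨p006_k66, nat_lit 0, nat_lit 0, nat_lit 0, nat_lit 0, nat_lit 310216, [nat_lit 6250000000, nat_lit 7968000000], [], [nat_lit 22869239365, nat_lit 23175115169, nat_lit 22928272703, nat_lit 22340959005], nat_lit 1271250, nat_lit 1271250, nat_lit 65850, nat_lit 230001, nat_lit 0, nat_lit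 0, [nat_lit 1412500, nat_lit 1271250], [nat_lit 26, nat_lit 40, nat_lit 20, nat_lit 80]⟩,
 zbF0, [⟨nat_lit 0, nat_lit 100, nat_lit 100, nat_lit 36, nat_lit 834926137⟩]⟩
noncomputable def p006_l192 : Lf2 := ⟨nat_lit 0, nat_lit 1, [nat_lit 19, nat_lit 5, nat_lit 5, nat_lit 20], false, nat_lit 0, nat_lit 0, nat_lit 0, nat_lit 0, ⟨nat_lit 1000, nat_lit 0, nat_lit 0, nat_lit 0, nat_lit 0, nat_lit 0, nat_lit 0, nat_lit 0, nat_lit 0, nat_lit 0, nat_lit 0, nat_lit 0, nat_lit 0, nat_lit 0, nat_lit 0, nat_lit 0, false, false⟩,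
 nat_lit 22053, nat_lit 9224, nat_lit 0, nat_lit 0, nat_lit 16315, nat_lit 11390, nat_lit 4152, nat_lit 0, nat_lit 0, nat_lit 1765, nat_lit 0, nat_lit 0, nat_lit 0, nat_lit 0, nat_lit 0, nat_lit 0, nat_lit 0, nat_lit 0, [],
 ⟨p006_k67, nat_lit 0, nat_lit 0, nat_lit 0, nat_lit 0, nat_lit 314830, [nat_lit 6250000000, nat_lit 7968000000], [], [nat_lit 15460395514, nat_lit 15392931633, nat_lit 15286454419, nat_lit 14874040586], nat_lit 1271250, nat_lit 1271250, nat_lit 65850, nat_lit 230001, nat_lit 0, nat_lit 0, [nat_lit 1412500, nat_lit 1271250], [nat_lit 26, nat_lit 40, nat_lit 20, nat_lit 80]⟩, ⟨p006_k66, nat_lit 0, nat_lit 0, nat_lit 0, nat_lit 0, nat_lit 318018, [nat_lit 6250000000, nat_lit 7968000000], [], [nat_lit 23186840432, nat_lit 22993503422, nat_lit 23257659010, nat_lit 22393902916], nat_lit 1271250, nat_lit 1271250, nat_lit 65850, nat_lit 230001, nat_lit 0, nat_lit 0, [nat_lit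 1412500, nat_lit 1271250], [nat_lit 26, nat_lit 40, nat_lit 20, nat_lit 80]⟩,
 zbF0, [⟨nat_lit 0, nat_lit 100, nat_lit 100, nat_lit 37, nat_lit 821843071⟩]⟩
noncomputable def p006_l193 : Lf2 := ⟨nat_lit 0, nat_lit 2, [nat_lit 10, nat_lit 5, nat_lit 5, nat_lit 20], false, nat_lit 0, nat_lit 0, nat_lit 0, nat_lit 0, ⟨nat_lit 1000, nat_lit 0, nat_lit 0, nat_lit 0, nat_lit 0, nat_lit 0, nat_lit 0, nat_lit 0, nat_lit 0, nat_lit 0, nat_lit 0, nat_lit 0, nat_lit 0, nat_lit 0, nat_lit 0, nat_lit 0, false, false⟩,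
 nat_lit 31920, nat_lit 0, nat_lit 0, nat_lit 0, nat_lit 16486, nat_lit 11575, nat_lit 4407, nat_lit 0, nat_lit 0, nat_lit 1628, nat_lit 0, nat_lit 0, nat_lit 0, nat_lit 37908511325611, nat_lit 0, nat_lit 0, nat_lit 0, nat_lit 0, [],
 ⟨p006_k56, nat_lit 0, nat_lit 0, nat_lit 0, nat_lit 0, nat_lit 277590, [nat_lit 6250000000, nat_lit 7968000000], [], [nat_lit 16054421757, nat_lit 15257892824, nat_lit 15863154074, nat_lit 14612944859], nat_lit 1271250, nat_lit 1271250, nat_lit 65850, nat_lit 230001, nat_lit 0, nat_lit 0, [nat_lit 1412500, nat_lit 1271250], [nat_lit 26, nat_lit 40, nat_lit 20, nat_lit 80]⟩, ⟨p006_k56, nat_lit 0, nat_lit 0, nat_lit 0, nat_lit 0, nat_lit 277590, [nat_lit 6250000000, nat_lit 7968000000], [], [nat_lit 22927912360, nat_lit 23266471698, nat_lit 22989216425, nat_lit 22111430930], nat_lit 1271250, nat_lit 1271250, nat_lit 65850, nat_lit 230001, nat_lit 0, nat_lit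 0, [nat_lit 1412500, nat_lit 1271250], [nat_lit 26, nat_lit 40, nat_lit 20, nat_lit 80]⟩,
 zbF0, [⟨nat_lit 0, nat_lit 100, nat_lit 100, nat_lit 37, nat_lit 829882128⟩]⟩
noncomputable def p006_l194 : Lf2 := ⟨nat_lit 0, nat_lit 2, [nat_lit 10, nat_lit 5, nat_lit 5, nat_lit 20], false, nat_lit 0, nat_lit 0, nat_lit 0, nat_lit 0, ⟨nat_lit 1000, nat_lit 0, nat_lit 0, nat_lit 0, nat_lit 0, nat_lit 0, nat_lit 0, nat_lit 0, nat_lit 0, nat_lit 0, nat_lit 0, nat_lit 0, nat_lit 0, nat_lit 0, nat_lit 0, nat_lit 0, false, false⟩,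
 nat_lit 21811, nat_lit 7363, nat_lit 0, nat_lit 0, nat_lit 15293, nat_lit 11265, nat_lit 3891, nat_lit 0, nat_lit 0, nat_lit 1803, nat_lit 0, nat_lit 0, nat_lit 0, nat_lit 0, nat_lit 0, nat_lit 0, nat_lit 0, nat_lit 0, [],
 ⟨p006_k64, nat_lit 0, nat_lit 0, nat_lit 0, nat_lit 0, nat_lit 334851, [nat_lit 6250000000, nat_lit 7968000000], [], [nat_lit 16552422940, nat_lit 16442493972, nat_lit 16434507450, nat_lit 15661348424], nat_lit 1271250, nat_lit 1271250, nat_lit 65850, nat_lit 230001, nat_lit 0, nat_lit 0, [nat_lit 1412500, nat_lit 1271250], [nat_lit 26, nat_lit 40, nat_lit 20, nat_lit 80]⟩, ⟨p006_k56, nat_lit 0, nat_lit 0, nat_lit 0, nat_lit 0, nat_lit 340008, [nat_lit 6250000000, nat_lit 7968000000], [], [nat_lit 23361791832, nat_lit 23108391261, nat_lit 23439039135, nat_lit 22015244520], nat_lit 1271250, nat_lit 1271250, nat_lit 65850, nat_lit 230001, nat_lit 0, nat_lit 0, [nat_lit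 1412500, nat_lit 1271250], [nat_lit 26, nat_lit 40, nat_lit 20, nat_lit 80]⟩,
 zbF0, [⟨nat_lit 0, nat_lit 100, nat_lit 100, nat_lit 38, nat_lit 809087918⟩]⟩
noncomputable def b_NL_550_550_0_27 : St := ⟨false, nat_lit 1, nat_lit 1, nat_lit 1, nat_lit 20, nat_lit 235, nat_lit 240, nat_lit 235, nat_lit 240, nat_lit 8, nat_lit 40, nat_lit 0, nat_lit 0, nat_lit 0, nat_lit 0, nat_lit 0, nat_lit 0, nat_lit 0, nat_lit 8, nat_lit 460, nat_lit 600, nat_lit 0, nat_lit 800⟩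
theorem d_NL_550_550_0_27 (h : EB TB.env) : Dead b_NL_550_550_0_27 := chkB_sound0 h (T :=
(.trZ (nat_lit 0) (nat_lit 100) (nat_lit 100) (nat_lit 35) (nat_lit 12) (.spl (nat_lit 0) (nat_lit 238)
(.ord (.spl (nat_lit 6) (nat_lit 4)
(.spl (nat_lit 0) (nat_lit 237)
(.ord (.leaf p006_l191))
(.leaf p006_l192))
(.leaf p006_l193)))
(.leaf p006_l194)))) (by decide +kernel)
noncomputable def p006_l195 : Lf2 := ⟨nat_lit 0, nat_lit 5, [nat_lit 4, nat_lit 5, nat_lit 5, nat_lit 20], true, nat_lit 0, nat_lit 0, nat_lit 0, nat_lit 0, ⟨nat_lit 0, nat_lit 0, nat_lit 1000, nat_lit 5, nat_lit 57, nat_lit 0, nat_lit 0, nat_lit 0, nat_lit 0, nat_lit 215, nat_lit 30817, nat_lit 258, nat_lit 65658950, nat_lit 0, nat_lit 0, nat_lit 490447, false, false⟩,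
 nat_lit 0, nat_lit 7980, nat_lit 0, nat_lit 0, nat_lit 3816, nat_lit 0, nat_lit 337, nat_lit 0, nat_lit 0, nat_lit 0, nat_lit 0, nat_lit 0, nat_lit 0, nat_lit 22227830434950, nat_lit 115, nat_lit 1000000, nat_lit 0, nat_lit 0, [(nat_lit 3, [(nat_lit 6, nat_lit 1000)])],
 ⟨p006_k68, nat_lit 0, nat_lit 0, nat_lit 0, nat_lit 0, nat_lit 158962, [nat_lit 2397200001, nat_lit 2811200000, nat_lit 2080000001, nat_lit 919200001, nat_lit 23600000], [], [nat_lit 13119895363, nat_lit 13348567571, nat_lit 12272545347, nat_lit 12497493363], nat_lit 1271250, nat_lit 1271250, nat_lit 21650, nat_lit 230001, nat_lit 0, nat_lit 0, [nat_lit 936250, nat_lit 1271250, nat_lit 1271250, nat_lit 1271250, nat_lit 1271250], [nat_lit 232, nat_lit 10, nat_lit 4, nat_lit 20]⟩, C1.Rw.none,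
 ⟨nat_lit 6614, nat_lit 6709, ⟨.ofNat (nat_lit 99275), .ofNat (nat_lit 176815), .ofNat (nat_lit 104635), .ofNat (nat_lit 182174), .ofNat (nat_lit 104102), .ofNat (nat_lit 180751), .ofNat (nat_lit 109456), .ofNat (nat_lit 186106)⟩, ⟨.ofNat (nat_lit 0), .ofNat (nat_lit 0), .ofNat (nat_lit 0), .ofNat (nat_lit 0), .ofNat (nat_lit 0), .ofNat (nat_lit 0), .ofNat (nat_lit 0), .ofNat (nat_lit 0)⟩⟩, [⟨nat_lit 0, nat_lit 100, nat_lit 100, nat_lit 25, nat_lit 227568429⟩]⟩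
noncomputable def p006_l196 : Lf2 := ⟨nat_lit 0, nat_lit 5, [nat_lit 4, nat_lit 5, nat_lit 5, nat_lit 20], true, nat_lit 0, nat_lit 0, nat_lit 0, nat_lit 0, ⟨nat_lit 0, nat_lit 0, nat_lit 1000, nat_lit 5, nat_lit 59, nat_lit 0, nat_lit 0, nat_lit 0, nat_lit 0, nat_lit 215, nat_lit 32267, nat_lit 259, nat_lit 65582000, nat_lit 0, nat_lit 0, nat_lit 512632, false, false⟩,
 nat_lit 0, nat_lit 6559, nat_lit 0, nat_lit 0, nat_lit 3219, nat_lit 0, nat_lit 687, nat_lit 0, nat_lit 0, nat_lit 0, nat_lit 0, nat_lit 0, nat_lit 0, nat_lit 19970772807835, nat_lit 60, nat_lit 400000, nat_lit 0, nat_lit 0, [(nat_lit 3, [(nat_lit 5, nat_lit 1000)])],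
 ⟨p006_k69, nat_lit 0, nat_lit 0, nat_lit 0, nat_lit 0, nat_lit 171798, [nat_lit 1531600001, nat_lit 1719600000, nat_lit 1097600000, nat_lit 2000000], [], [nat_lit 14011503050, nat_lit 14093916898, nat_lit 13298285063, nat_lit 13386142907], nat_lit 1271250, nat_lit 1271250, nat_lit 21650, nat_lit 230001, nat_lit 0, nat_lit 0, [nat_lit 631250, nat_lit 1271250, nat_lit 1271250, nat_lit 1271250], [nat_lit 91, nat_lit 40, nat_lit 20, nat_lit 40]⟩, C1.Rw.none,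
 ⟨nat_lit 6576, nat_lit 6615, ⟨.ofNat (nat_lit 104102), .ofNat (nat_lit 180751), .ofNat (nat_lit 111598), .ofNat (nat_lit 188247), .ofNat (nat_lit 106018), .ofNat (nat_lit 182314), .ofNat (nat_lit 113511), .ofNat (nat_lit 189807)⟩, ⟨.ofNat (nat_lit 0), .ofNat (nat_lit 0), .ofNat (nat_lit 0), .ofNat (nat_lit 0), .ofNat (nat_lit 0), .ofNat (nat_lit 0), .ofNat (nat_lit 0), .ofNat (nat_lit 0)⟩⟩, [⟨nat_lit 0, nat_lit 100, nat_lit 100, nat_lit 27, nat_lit 207885027⟩]⟩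
noncomputable def p006_l197 : Lf2 := ⟨nat_lit 0, nat_lit 5, [nat_lit 4, nat_lit 5, nat_lit 5, nat_lit 20], true, nat_lit 0, nat_lit 0, nat_lit 0, nat_lit 0, ⟨nat_lit 0, nat_lit 0, nat_lit 1000, nat_lit 5, nat_lit 60, nat_lit 0, nat_lit 0, nat_lit 0, nat_lit 0, nat_lit 215, nat_lit 33750, nat_lit 260, nat_lit 65547117, nat_lit 0, nat_lit 0, nat_lit 522582, false, false⟩,
 nat_lit 0, nat_lit 6485, nat_lit 0, nat_lit 0, nat_lit 3216, nat_lit 0, nat_lit 689, nat_lit 0, nat_lit 0, nat_lit 0, nat_lit 0, nat_lit 0, nat_lit 0, nat_lit 19737691276509, nat_lit 60, nat_lit 400000, nat_lit 0, nat_lit 0, [(nat_lit 3, [(nat_lit 5, nat_lit 1000)])],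
 ⟨p006_k2, nat_lit 0, nat_lit 0, nat_lit 0, nat_lit 0, nat_lit 178354, [nat_lit 1531600001, nat_lit 1719600000, nat_lit 1097600000, nat_lit 2000000], [], [nat_lit 13984620472, nat_lit 14025689360, nat_lit 13274510694, nat_lit 13318426757], nat_lit 1271250, nat_lit 1271250, nat_lit 21650, nat_lit 230001, nat_lit 0, nat_lit 0, [nat_lit 631250, nat_lit 1271250, nat_lit 1271250, nat_lit 1271250], [nat_lit 91, nat_lit 40, nat_lit 20, nat_lit 40]⟩, C1.Rw.none,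
 ⟨nat_lit 6557, nat_lit 6577, ⟨.ofNat (nat_lit 106018), .ofNat (nat_lit 182314), .ofNat (nat_lit 114581), .ofNat (nat_lit 190878), .ofNat (nat_lit 106972), .ofNat (nat_lit 183093), .ofNat (nat_lit 115535), .ofNat (nat_lit 191655)⟩, ⟨.ofNat (nat_lit 0), .ofNat (nat_lit 0), .ofNat (nat_lit 0), .ofNat (nat_lit 0), .ofNat (nat_lit 0), .ofNat (nat_lit 0), .ofNat (nat_lit 0), .ofNat (nat_lit 0)⟩⟩, [⟨nat_lit 0, nat_lit 100, nat_lit 100, nat_lit 28, nat_lit 208107318⟩]⟩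
noncomputable def p006_l198 : Lf2 := ⟨nat_lit 0, nat_lit 5, [nat_lit 4, nat_lit 5, nat_lit 5, nat_lit 20], true, nat_lit 0, nat_lit 0, nat_lit 0, nat_lit 0, ⟨nat_lit 0, nat_lit 0, nat_lit 1000, nat_lit 5, nat_lit 60, nat_lit 0, nat_lit 0, nat_lit 0, nat_lit 0, nat_lit 215, nat_lit 33750, nat_lit 260, nat_lit 65520270, nat_lit 0, nat_lit 0, nat_lit 530197, false, false⟩,
 nat_lit 0, nat_lit 6445, nat_lit 0, nat_lit 0, nat_lit 3212, nat_lit 0, nat_lit 688, nat_lit 0, nat_lit 0, nat_lit 0, nat_lit 0, nat_lit 0, nat_lit 0, nat_lit 19593456797820, nat_lit 60, nat_lit 400000, nat_lit 0, nat_lit 0, [(nat_lit 3, [(nat_lit 5, nat_lit 1000)])],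
 ⟨p006_k5, nat_lit 0, nat_lit 0, nat_lit 0, nat_lit 0, nat_lit 185830, [nat_lit 1531600001, nat_lit 1719600000, nat_lit 1097600000, nat_lit 2000000], [], [nat_lit 13975353947, nat_lit 14016218607, nat_lit 13265958328, nat_lit 13309857245], nat_lit 1271250, nat_lit 1271250, nat_lit 21650, nat_lit 230001, nat_lit 0, nat_lit 0, [nat_lit 631250, nat_lit 1271250, nat_lit 1271250, nat_lit 1271250], [nat_lit 91, nat_lit 40, nat_lit 20, nat_lit 40]⟩, C1.Rw.none,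
 ⟨nat_lit 6538, nat_lit 6558, ⟨.ofNat (nat_lit 106972), .ofNat (nat_lit 183093), .ofNat (nat_lit 116605), .ofNat (nat_lit 192725), .ofNat (nat_lit 107925), .ofNat (nat_lit 183870), .ofNat (nat_lit 117556), .ofNat (nat_lit 193500)⟩, ⟨.ofNat (nat_lit 0), .ofNat (nat_lit 0), .ofNat (nat_lit 0), .ofNat (nat_lit 0), .ofNat (nat_lit 0), .ofNat (nat_lit 0), .ofNat (nat_lit 0), .ofNat (nat_lit 0)⟩⟩, [⟨nat_lit 0, nat_lit 100, nat_lit 100, nat_lit 29, nat_lit 207492596⟩]⟩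
noncomputable def p006_l199 : Lf2 := ⟨nat_lit 0, nat_lit 5, [nat_lit 4, nat_lit 5, nat_lit 5, nat_lit 20], true, nat_lit 0, nat_lit 0, nat_lit 0, nat_lit 0, ⟨nat_lit 0, nat_lit 0, nat_lit 1000, nat_lit 5, nat_lit 61, nat_lit 0, nat_lit 0, nat_lit 0, nat_lit 0, nat_lit 215, nat_lit 33750, nat_lit 260, nat_lit 65493231, nat_lit 0, nat_lit 0, nat_lit 537828, false, false⟩,
 nat_lit 0, nat_lit 6405, nat_lit 0, nat_lit 0, nat_lit 3209, nat_lit 0, nat_lit 683, nat_lit 0, nat_lit 0, nat_lit 0, nat_lit 0, nat_lit 0, nat_lit 0, nat_lit 19424698527467, nat_lit 60, nat_lit 400000, nat_lit 0, nat_lit 0, [(nat_lit 3, [(nat_lit 5, nat_lit 1000)])],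
 ⟨p006_k6, nat_lit 0, nat_lit 0, nat_lit 0, nat_lit 0, nat_lit 193175, [nat_lit 1531600001, nat_lit 1719600000, nat_lit 1097600000, nat_lit 2000000], [], [nat_lit 13976364883, nat_lit 14017078619, nat_lit 13267193064, nat_lit 13311079121], nat_lit 1271250, nat_lit 1271250, nat_lit 21650, nat_lit 230001, nat_lit 0, nat_lit 0, [nat_lit 631250, nat_lit 1271250, nat_lit 1271250, nat_lit 1271250], [nat_lit 91, nat_lit 40, nat_lit 20, nat_lit 40]⟩, C1.Rw.none,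
 ⟨nat_lit 6519, nat_lit 6539, ⟨.ofNat (nat_lit 107925), .ofNat (nat_lit 183870), .ofNat (nat_lit 118626), .ofNat (nat_lit 194570), .ofNat (nat_lit 108876), .ofNat (nat_lit 184645), .ofNat (nat_lit 119575), .ofNat (nat_lit 195344)⟩, ⟨.ofNat (nat_lit 0), .ofNat (nat_lit 0), .ofNat (nat_lit 0), .ofNat (nat_lit 0), .ofNat (nat_lit 0), .ofNat (nat_lit 0), .ofNat (nat_lit 0), .ofNat (nat_lit 0)⟩⟩, [⟨nat_lit 0, nat_lit 100, nat_lit 100, nat_lit 30, nat_lit 207291376⟩]⟩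
noncomputable def p006_l200 : Lf2 := ⟨nat_lit 0, nat_lit 5, [nat_lit 4, nat_lit 5, nat_lit 5, nat_lit 20], true, nat_lit 0, nat_lit 0, nat_lit 0, nat_lit 0, ⟨nat_lit 0, nat_lit 0, nat_lit 1000, nat_lit 5, nat_lit 59, nat_lit 0, nat_lit 0, nat_lit 0, nat_lit 0, nat_lit 215, nat_lit 32267, nat_lit 259, nat_lit 65568495, nat_lit 0, nat_lit 0, nat_lit 516492, false, false⟩,
 nat_lit 0, nat_lit 100000, nat_lit 0, nat_lit 0, nat_lit 47826, nat_lit 0, nat_lit 13934, nat_lit 2433, nat_lit 0, nat_lit 0, nat_lit 0, nat_lit 0, nat_lit 0, nat_lit 110431536231308, nat_lit 0, nat_lit 1000000, nat_lit 0, nat_lit 0, [(nat_lit 3, [(nat_lit 6, nat_lit 1000)])],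
 ⟨p006_k13, nat_lit 0, nat_lit 0, nat_lit 360, nat_lit 0, nat_lit 203036, [nat_lit 49701142858, nat_lit 64927600000], [], [nat_lit 122011248302, nat_lit 109761607344, nat_lit 118875285606, nat_lit 106785733674], nat_lit 1271250, nat_lit 1271250, nat_lit 21650, nat_lit 230001, nat_lit 0, nat_lit 0, [nat_lit 1412500, nat_lit 1271250], [nat_lit 51, nat_lit 40, nat_lit 20, nat_lit 80, nat_lit 1, nat_lit 289, nat_lit 75, nat_lit 9]⟩, C1.Rw.none,
 ⟨nat_lit 6519, nat_lit 6709, ⟨.ofNat (nat_lit 99275), .ofNat (nat_lit 176815), .ofNat (nat_lit 109994), .ofNat (nat_lit 187534), .ofNat (nat_lit 108876), .ofNat (nat_lit 184645), .ofNat (nat_lit 119575), .ofNat (nat_lit 195344)⟩, ⟨.ofNat (nat_lit 0), .ofNat (nat_lit 0), .ofNat (nat_lit 0), .ofNat (nat_lit 0), .ofNat (nat_lit 0), .ofNat (nat_lit 0), .ofNat (nat_lit 0), .ofNat (nat_lit 0)⟩⟩, [⟨nat_lit 0, nat_lit 100, nat_lit 100, nat_lit 30, nat_lit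 521158312⟩]⟩
noncomputable def p006_l201 : Lf2 := ⟨nat_lit 0, nat_lit 5, [nat_lit 4, nat_lit 5, nat_lit 5, nat_lit 20], true, nat_lit 0, nat_lit 0, nat_lit 0, nat_lit 0, ⟨nat_lit 0, nat_lit 0, nat_lit 1000, nat_lit 5, nat_lit 53, nat_lit 0, nat_lit 0, nat_lit 0, nat_lit 0, nat_lit 215, nat_lit 26667, nat_lit 255, nat_lit 65834740, nat_lit 0, nat_lit 0, nat_lit 438467, false, false⟩,
 nat_lit 0, nat_lit 6363, nat_lit 0, nat_lit 0, nat_lit 3204, nat_lit 0, nat_lit 480, nat_lit 0, nat_lit 0, nat_lit 0, nat_lit 0, nat_lit 0, nat_lit 0, nat_lit 18280172708167, nat_lit 66, nat_lit 598600, nat_lit 0, nat_lit 0, [(nat_lit 3, [(nat_lit 5, nat_lit 669), (nat_lit 6, nat_lit 331)])],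
 ⟨p006_k9, nat_lit 0, nat_lit 0, nat_lit 0, nat_lit 0, nat_lit 209175, [nat_lit 1479368934, nat_lit 1902229467, nat_lit 1154264400, nat_lit 192442000], [], [nat_lit 13977087300, nat_lit 14063105999, nat_lit 13393803754, nat_lit 13482516051], nat_lit 1271250, nat_lit 1271250, nat_lit 21650, nat_lit 111251, nat_lit 0, nat_lit 0, [nat_lit 631250, nat_lit 1271250, nat_lit 1271250, nat_lit 1271250], [nat_lit 117, nat_lit 40, nat_lit 20, nat_lit 40]⟩, C1.Rw.none,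
 ⟨nat_lit 6480, nat_lit 6520, ⟨.ofNat (nat_lit 108876), .ofNat (nat_lit 142551), .ofNat (nat_lit 121715), .ofNat (nat_lit 155390), .ofNat (nat_lit 110771), .ofNat (nat_lit 144291), .ofNat (nat_lit 123605), .ofNat (nat_lit 157125)⟩, ⟨.ofNat (nat_lit 0), .ofNat (nat_lit 0), .ofNat (nat_lit 0), .ofNat (nat_lit 0), .ofNat (nat_lit 0), .ofNat (nat_lit 0), .ofNat (nat_lit 0), .ofNat (nat_lit 0)⟩⟩, [⟨nat_lit 0, nat_lit 100, nat_lit 100, nat_lit 32, nat_lit 288320701⟩]⟩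
noncomputable def p006_l202 : Lf2 := ⟨nat_lit 0, nat_lit 5, [nat_lit 4, nat_lit 5, nat_lit 5, nat_lit 20], true, nat_lit 0, nat_lit 0, nat_lit 0, nat_lit 0, ⟨nat_lit 0, nat_lit 0, nat_lit 1000, nat_lit 5, nat_lit 54, nat_lit 0, nat_lit 0, nat_lit 0, nat_lit 0, nat_lit 215, nat_lit 26667, nat_lit 255, nat_lit 65801910, nat_lit 0, nat_lit 0, nat_lit 448320, false, false⟩,
 nat_lit 0, nat_lit 6560, nat_lit 0, nat_lit 0, nat_lit 3337, nat_lit 0, nat_lit 716, nat_lit 0, nat_lit 0, nat_lit 0, nat_lit 0, nat_lit 0, nat_lit 0, nat_lit 18352956750004, nat_lit 54, nat_lit 400000, nat_lit 0, nat_lit 0, [(nat_lit 3, [(nat_lit 5, nat_lit 1000)])],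
 ⟨p006_k21, nat_lit 0, nat_lit 0, nat_lit 0, nat_lit 0, nat_lit 215396, [nat_lit 1471600001, nat_lit 1611600000, nat_lit 965600001, nat_lit 151199999], [], [nat_lit 13844970067, nat_lit 13893028999, nat_lit 13235105474, nat_lit 13280041117], nat_lit 1271250, nat_lit 1271250, nat_lit 21650, nat_lit 111251, nat_lit 0, nat_lit 0, [nat_lit 631250, nat_lit 1271250, nat_lit 1271250, nat_lit 1271250], [nat_lit 117, nat_lit 40, nat_lit 20, nat_lit 40]⟩, C1.Rw.none,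
 ⟨nat_lit 6461, nat_lit 6481, ⟨.ofNat (nat_lit 110771), .ofNat (nat_lit 144291), .ofNat (nat_lit 124675), .ofNat (nat_lit 158195), .ofNat (nat_lit 111715), .ofNat (nat_lit 145158), .ofNat (nat_lit 125617), .ofNat (nat_lit 159060)⟩, ⟨.ofNat (nat_lit 0), .ofNat (nat_lit 0), .ofNat (nat_lit 0), .ofNat (nat_lit 0), .ofNat (nat_lit 0), .ofNat (nat_lit 0), .ofNat (nat_lit 0), .ofNat (nat_lit 0)⟩⟩, [⟨nat_lit 0, nat_lit 100, nat_lit 100, nat_lit 33, nat_lit 298252292⟩]⟩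
noncomputable def p006_l203 : Lf2 := ⟨nat_lit 0, nat_lit 5, [nat_lit 4, nat_lit 5, nat_lit 5, nat_lit 20], true, nat_lit 0, nat_lit 0, nat_lit 0, nat_lit 0, ⟨nat_lit 0, nat_lit 0, nat_lit 1000, nat_lit 5, nat_lit 55, nat_lit 0, nat_lit 0, nat_lit 0, nat_lit 0, nat_lit 215, nat_lit 28017, nat_lit 256, nat_lit 65759294, nat_lit 0, nat_lit 0, nat_lit 461008, false, false⟩,
 nat_lit 0, nat_lit 6513, nat_lit 0, nat_lit 0, nat_lit 3330, nat_lit 0, nat_lit 706, nat_lit 0, nat_lit 0, nat_lit 0, nat_lit 0, nat_lit 0, nat_lit 0, nat_lit 18024034867071, nat_lit 54, nat_lit 400000, nat_lit 0, nat_lit 0, [(nat_lit 3, [(nat_lit 5, nat_lit 1000)])],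
 ⟨p006_k10, nat_lit 0, nat_lit 0, nat_lit 0, nat_lit 0, nat_lit 230934, [nat_lit 1471600001, nat_lit 1611600000, nat_lit 965600001, nat_lit 151199999], [], [nat_lit 13848936383, nat_lit 13944987002, nat_lit 13243402082, nat_lit 13333212368], nat_lit 1271250, nat_lit 1271250, nat_lit 21650, nat_lit 111251, nat_lit 0, nat_lit 0, [nat_lit 631250, nat_lit 1271250, nat_lit 1271250, nat_lit 1271250], [nat_lit 117, nat_lit 40, nat_lit 20, nat_lit 40]⟩, C1.Rw.none,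
 ⟨nat_lit 6422, nat_lit 6462, ⟨.ofNat (nat_lit 111715), .ofNat (nat_lit 145158), .ofNat (nat_lit 127756), .ofNat (nat_lit 161199), .ofNat (nat_lit 113598), .ofNat (nat_lit 146886), .ofNat (nat_lit 129634), .ofNat (nat_lit 162923)⟩, ⟨.ofNat (nat_lit 0), .ofNat (nat_lit 0), .ofNat (nat_lit 0), .ofNat (nat_lit 0), .ofNat (nat_lit 0), .ofNat (nat_lit 0), .ofNat (nat_lit 0), .ofNat (nat_lit 0)⟩⟩, [⟨nat_lit 0, nat_lit 100, nat_lit 100, nat_lit 35, nat_lit 297557702⟩]⟩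
noncomputable def p006_l204 : Lf2 := ⟨nat_lit 0, nat_lit 5, [nat_lit 4, nat_lit 5, nat_lit 5, nat_lit 20], true, nat_lit 0, nat_lit 0, nat_lit 0, nat_lit 0, ⟨nat_lit 0, nat_lit 0, nat_lit 1000, nat_lit 5, nat_lit 69, nat_lit 0, nat_lit 0, nat_lit 0, nat_lit 0, nat_lit 215, nat_lit 45067, nat_lit 267, nat_lit 65038451, nat_lit 0, nat_lit 0, nat_lit 661071, false, false⟩,
 nat_lit 0, nat_lit 6319, nat_lit 0, nat_lit 0, nat_lit 3182, nat_lit 0, nat_lit 455, nat_lit 0, nat_lit 0, nat_lit 0, nat_lit 0, nat_lit 0, nat_lit 0, nat_lit 21674290487247, nat_lit 67, nat_lit 615400, nat_lit 0, nat_lit 0, [(nat_lit 3, [(nat_lit 5, nat_lit 641), (nat_lit 6, nat_lit 359)])],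
 ⟨p006_k9, nat_lit 0, nat_lit 0, nat_lit 0, nat_lit 0, nat_lit 234691, [nat_lit 1479875067, nat_lit 1926542534, nat_lit 1169891600, nat_lit 195538000], [], [nat_lit 13433880009, nat_lit 13648386888, nat_lit 13193975277, nat_lit 13412826901], nat_lit 1271250, nat_lit 1271250, nat_lit 111251, nat_lit 230001, nat_lit 0, nat_lit 0, [nat_lit 631250, nat_lit 1271250, nat_lit 1271250, nat_lit 1271250], [nat_lit 117, nat_lit 40, nat_lit 20, nat_lit 40]⟩, C1.Rw.none,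
 ⟨nat_lit 6422, nat_lit 6520, ⟨.ofNat (nat_lit 142551), .ofNat (nat_lit 184645), .ofNat (nat_lit 158599), .ofNat (nat_lit 200693), .ofNat (nat_lit 146886), .ofNat (nat_lit 188497), .ofNat (nat_lit 162923), .ofNat (nat_lit 204533)⟩, ⟨.ofNat (nat_lit 0), .ofNat (nat_lit 0), .ofNat (nat_lit 0), .ofNat (nat_lit 0), .ofNat (nat_lit 0), .ofNat (nat_lit 0), .ofNat (nat_lit 0), .ofNat (nat_lit 0)⟩⟩, []⟩
noncomputable def p006_l205 : Lf2 := ⟨nat_lit 0, nat_lit 5, [nat_lit 4, nat_lit 5, nat_lit 5, nat_lit 20], true, nat_lit 0, nat_lit 0, nat_lit 0, nat_lit 0, ⟨nat_lit 0, nat_lit 0, nat_lit 1000, nat_lit 5, nat_lit 56, nat_lit 0, nat_lit 0, nat_lit 0, nat_lit 0, nat_lit 215, nat_lit 29400, nat_lit 257, nat_lit 65707935, nat_lit 0, nat_lit 0, nat_lit 476150, false, false⟩,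
 nat_lit 0, nat_lit 6434, nat_lit 0, nat_lit 0, nat_lit 3322, nat_lit 0, nat_lit 690, nat_lit 0, nat_lit 0, nat_lit 0, nat_lit 0, nat_lit 0, nat_lit 0, nat_lit 17666703403747, nat_lit 54, nat_lit 400000, nat_lit 0, nat_lit 0, [(nat_lit 3, [(nat_lit 5, nat_lit 1000)])],
 ⟨p006_k11, nat_lit 0, nat_lit 0, nat_lit 0, nat_lit 0, nat_lit 245442, [nat_lit 1471600001, nat_lit 1611600000, nat_lit 965600001, nat_lit 151199999], [], [nat_lit 13853622159, nat_lit 13949595924, nat_lit 13250373044, nat_lit 13340113617], nat_lit 1271250, nat_lit 1271250, nat_lit 21650, nat_lit 111251, nat_lit 0, nat_lit 0, [nat_lit 631250, nat_lit 1271250, nat_lit 1271250, nat_lit 1271250], [nat_lit 117, nat_lit 40, nat_lit 20, nat_lit 40]⟩, C1.Rw.none,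
 ⟨nat_lit 6383, nat_lit 6423, ⟨.ofNat (nat_lit 113598), .ofNat (nat_lit 146886), .ofNat (nat_lit 131773), .ofNat (nat_lit 165061), .ofNat (nat_lit 115473), .ofNat (nat_lit 148608), .ofNat (nat_lit 133643), .ofNat (nat_lit 166778)⟩, ⟨.ofNat (nat_lit 0), .ofNat (nat_lit 0), .ofNat (nat_lit 0), .ofNat (nat_lit 0), .ofNat (nat_lit 0), .ofNat (nat_lit 0), .ofNat (nat_lit 0), .ofNat (nat_lit 0)⟩⟩, [⟨nat_lit 0, nat_lit 100, nat_lit 100, nat_lit 37, nat_lit 296856976⟩]⟩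
noncomputable def p006_l206 : Lf2 := ⟨nat_lit 0, nat_lit 5, [nat_lit 4, nat_lit 5, nat_lit 5, nat_lit 20], true, nat_lit 0, nat_lit 0, nat_lit 0, nat_lit 0, ⟨nat_lit 0, nat_lit 0, nat_lit 1000, nat_lit 5, nat_lit 58, nat_lit 0, nat_lit 0, nat_lit 0, nat_lit 0, nat_lit 215, nat_lit 32267, nat_lit 259, nat_lit 65597049, nat_lit 0, nat_lit 0, nat_lit 508319, false, false⟩,
 nat_lit 0, nat_lit 6363, nat_lit 0, nat_lit 0, nat_lit 3319, nat_lit 0, nat_lit 677, nat_lit 0, nat_lit 0, nat_lit 0, nat_lit 0, nat_lit 0, nat_lit 0, nat_lit 17393359174566, nat_lit 54, nat_lit 400000, nat_lit 0, nat_lit 0, [(nat_lit 3, [(nat_lit 5, nat_lit 1000)])],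
 ⟨p006_k26, nat_lit 0, nat_lit 0, nat_lit 0, nat_lit 0, nat_lit 251226, [nat_lit 1471600001, nat_lit 1611600000, nat_lit 965600001, nat_lit 151199999], [], [nat_lit 13708581133, nat_lit 13756534781, nat_lit 13254663353, nat_lit 13299520568], nat_lit 1271250, nat_lit 1271250, nat_lit 43600, nat_lit 111251, nat_lit 0, nat_lit 0, [nat_lit 631250, nat_lit 1271250, nat_lit 1271250, nat_lit 1271250], [nat_lit 117, nat_lit 40, nat_lit 20, nat_lit 40]⟩, C1.Rw.none,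
 ⟨nat_lit 6363, nat_lit 6384, ⟨.ofNat (nat_lit 123757), .ofNat (nat_lit 148608), .ofNat (nat_lit 142995), .ofNat (nat_lit 167846), .ofNat (nat_lit 124673), .ofNat (nat_lit 149466), .ofNat (nat_lit 143908), .ofNat (nat_lit 168702)⟩, ⟨.ofNat (nat_lit 0), .ofNat (nat_lit 0), .ofNat (nat_lit 0), .ofNat (nat_lit 0), .ofNat (nat_lit 0), .ofNat (nat_lit 0), .ofNat (nat_lit 0), .ofNat (nat_lit 0)⟩⟩, [⟨nat_lit 0, nat_lit 100, nat_lit 100, nat_lit 38, nat_lit 296982910⟩]⟩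
noncomputable def p006_l207 : Lf2 := ⟨nat_lit 0, nat_lit 5, [nat_lit 4, nat_lit 5, nat_lit 5, nat_lit 20], true, nat_lit 0, nat_lit 0, nat_lit 0, nat_lit 0, ⟨nat_lit 0, nat_lit 0, nat_lit 1000, nat_lit 5, nat_lit 59, nat_lit 0, nat_lit 0, nat_lit 0, nat_lit 0, nat_lit 215, nat_lit 33750, nat_lit 260, nat_lit 65551734, nat_lit 0, nat_lit 0, nat_lit 521269, false, false⟩,
 nat_lit 0, nat_lit 6317, nat_lit 0, nat_lit 0, nat_lit 3311, nat_lit 0, nat_lit 667, nat_lit 0, nat_lit 0, nat_lit 0, nat_lit 0, nat_lit 0, nat_lit 0, nat_lit 17058331953607, nat_lit 54, nat_lit 400000, nat_lit 0, nat_lit 0, [(nat_lit 3, [(nat_lit 5, nat_lit 1000)])],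
 ⟨p006_k23, nat_lit 0, nat_lit 0, nat_lit 0, nat_lit 0, nat_lit 266407, [nat_lit 1471600001, nat_lit 1611600000, nat_lit 965600001, nat_lit 151199999], [], [nat_lit 13720430475, nat_lit 13816260828, nat_lit 13271470423, nat_lit 13361115139], nat_lit 1271250, nat_lit 1271250, nat_lit 43600, nat_lit 111251, nat_lit 0, nat_lit 0, [nat_lit 631250, nat_lit 1271250, nat_lit 1271250, nat_lit 1271250], [nat_lit 117, nat_lit 40, nat_lit 20, nat_lit 40]⟩, C1.Rw.none,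
 ⟨nat_lit 6324, nat_lit 6364, ⟨.ofNat (nat_lit 124673), .ofNat (nat_lit 149466), .ofNat (nat_lit 146046), .ofNat (nat_lit 170839), .ofNat (nat_lit 126498), .ofNat (nat_lit 151177), .ofNat (nat_lit 147866), .ofNat (nat_lit 172545)⟩, ⟨.ofNat (nat_lit 0), .ofNat (nat_lit 0), .ofNat (nat_lit 0), .ofNat (nat_lit 0), .ofNat (nat_lit 0), .ofNat (nat_lit 0), .ofNat (nat_lit 0), .ofNat (nat_lit 0)⟩⟩, [⟨nat_lit 0, nat_lit 100, nat_lit 100, nat_lit 40, nat_lit 296271721⟩]⟩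
noncomputable def p006_l208 : Lf2 := ⟨nat_lit 0, nat_lit 5, [nat_lit 4, nat_lit 5, nat_lit 5, nat_lit 20], true, nat_lit 0, nat_lit 0, nat_lit 0, nat_lit 0, ⟨nat_lit 0, nat_lit 0, nat_lit 1000, nat_lit 5, nat_lit 72, nat_lit 0, nat_lit 0, nat_lit 0, nat_lit 0, nat_lit 215, nat_lit 48600, nat_lit 269, nat_lit 64888158, nat_lit 0, nat_lit 0, nat_lit 699912, false, false⟩,
 nat_lit 0, nat_lit 6412, nat_lit 0, nat_lit 0, nat_lit 3311, nat_lit 0, nat_lit 686, nat_lit 0, nat_lit 0, nat_lit 0, nat_lit 0, nat_lit 0, nat_lit 0, nat_lit 21776509491901, nat_lit 54, nat_lit 400000, nat_lit 0, nat_lit 0, [(nat_lit 3, [(nat_lit 5, nat_lit 1000)])],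
 ⟨p006_k11, nat_lit 0, nat_lit 0, nat_lit 0, nat_lit 0, nat_lit 270658, [nat_lit 1471600001, nat_lit 1611600000, nat_lit 965600001, nat_lit 151199999], [], [nat_lit 13272615849, nat_lit 13496727639, nat_lit 13013877335, nat_lit 13235493687], nat_lit 1271250, nat_lit 1271250, nat_lit 111251, nat_lit 230001, nat_lit 0, nat_lit 0, [nat_lit 631250, nat_lit 1271250, nat_lit 1271250, nat_lit 1271250], [nat_lit 117, nat_lit 40, nat_lit 20, nat_lit 40]⟩, C1.Rw.none,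
 ⟨nat_lit 6324, nat_lit 6423, ⟨.ofNat (nat_lit 146886), .ofNat (nat_lit 188497), .ofNat (nat_lit 168268), .ofNat (nat_lit 209879), .ofNat (nat_lit 151177), .ofNat (nat_lit 192309), .ofNat (nat_lit 172545), .ofNat (nat_lit 213677)⟩, ⟨.ofNat (nat_lit 0), .ofNat (nat_lit 0), .ofNat (nat_lit 0), .ofNat (nat_lit 0), .ofNat (nat_lit 0), .ofNat (nat_lit 0), .ofNat (nat_lit 0), .ofNat (nat_lit 0)⟩⟩, []⟩
noncomputable def p006_l209 : Lf2 := ⟨nat_lit 0, nat_lit 5, [nat_lit 4, nat_lit 5, nat_lit 5, nat_lit 20], true, nat_lit 0, nat_lit 0, nat_lit 0, nat_lit 0, ⟨nat_lit 0, nat_lit 0, nat_lit 1000, nat_lit 5, nat_lit 65, nat_lit 0, nat_lit 0, nat_lit 0, nat_lit 0, nat_lit 215, nat_lit 40017, nat_lit 264, nat_lit 65292447, nat_lit 0, nat_lit 0, nat_lit 593377, false, false⟩,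
 nat_lit 0, nat_lit 100000, nat_lit 0, nat_lit 0, nat_lit 50364, nat_lit 0, nat_lit 12726, nat_lit 2305, nat_lit 0, nat_lit 0, nat_lit 0, nat_lit 0, nat_lit 0, nat_lit 165285550859006, nat_lit 0, nat_lit 1000000, nat_lit 0, nat_lit 0, [(nat_lit 3, [(nat_lit 6, nat_lit 1000)])],
 ⟨p006_k12, nat_lit 0, nat_lit 0, nat_lit 437, nat_lit 0, nat_lit 278009, [nat_lit 47141142858, nat_lit 61343600000], [], [nat_lit 98920671984, nat_lit 86019852802, nat_lit 95743771974, nat_lit 83012659326], nat_lit 1271250, nat_lit 1271250, nat_lit 21650, nat_lit 230001, nat_lit 0, nat_lit 0, [nat_lit 1412500, nat_lit 1271250], [nat_lit 51, nat_lit 40, nat_lit 20, nat_lit 80, nat_lit 1, nat_lit 289, nat_lit 75, nat_lit 9]⟩, C1.Rw.none,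
 ⟨nat_lit 6324, nat_lit 6520, ⟨.ofNat (nat_lit 108876), .ofNat (nat_lit 184645), .ofNat (nat_lit 130274), .ofNat (nat_lit 206043), .ofNat (nat_lit 118272), .ofNat (nat_lit 192309), .ofNat (nat_lit 139640), .ofNat (nat_lit 213677)⟩, ⟨.ofNat (nat_lit 0), .ofNat (nat_lit 0), .ofNat (nat_lit 0), .ofNat (nat_lit 0), .ofNat (nat_lit 0), .ofNat (nat_lit 0), .ofNat (nat_lit 0), .ofNat (nat_lit 0)⟩⟩, [⟨nat_lit 0, nat_lit 100, nat_lit 100, nat_lit 40, nat_lit 525013843⟩]⟩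
noncomputable def p006_l210 : Lf2 := ⟨nat_lit 0, nat_lit 5, [nat_lit 4, nat_lit 5, nat_lit 5, nat_lit 20], false, nat_lit 0, nat_lit 0, nat_lit 0, nat_lit 0, ⟨nat_lit 0, nat_lit 0, nat_lit 1000, nat_lit 5, nat_lit 63, nat_lit 0, nat_lit 0, nat_lit 0, nat_lit 0, nat_lit 215, nat_lit 36817, nat_lit 262, nat_lit 65380838, nat_lit 0, nat_lit 0, nat_lit 569159, false, false⟩,
 nat_lit 100000, nat_lit 100000, nat_lit 100000, nat_lit 100000, nat_lit 5073, nat_lit 95652, nat_lit 0, nat_lit 0, nat_lit 0, nat_lit 60000, nat_lit 4551, nat_lit 0, nat_lit 0, nat_lit 400000000000000, nat_lit 115, nat_lit 1000000, nat_lit 0, nat_lit 0, [(nat_lit 3, [(nat_lit 6, nat_lit 1000)])],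
 ⟨p006_k13, nat_lit 0, nat_lit 0, nat_lit 442, nat_lit 0, nat_lit 293789, [nat_lit 3341142858, nat_lit 23600000], [], [nat_lit 18308492918, nat_lit 15709578785, nat_lit 18720858210, nat_lit 16156132038], nat_lit 1271250, nat_lit 1271250, nat_lit 21650, nat_lit 230001, nat_lit 0, nat_lit 0, [nat_lit 1412500, nat_lit 1271250], [nat_lit 51, nat_lit 40, nat_lit 20, nat_lit 80, nat_lit 1, nat_lit 289, nat_lit 75, nat_lit 9]⟩, ⟨p006_k13, nat_lit 0, nat_lit 0, nat_lit 442, nat_lit 0, nat_lit 293789, [nat_lit 91020000000, nat_lit 127428000000], [], [nat_lit 95027961332, nat_lit 97173774548, nat_lit 62463276192, nat_lit 64535481120], nat_lit 1271250, nat_lit 1271250, nat_lit 21650, nat_lit 230001, nat_lit 0, nat_lit 0, [nat_lit 1412500, nat_lit 1271250], [nat_lit 51, nat_lit 40, nat_lit 20, nat_lit 80, nat_lit 1, nat_lit 289, nat_lit 75, nat_lit 9]⟩,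
 ⟨nat_lit 6324, nat_lit 6709, ⟨.ofNat (nat_lit 99275), .ofNat (nat_lit 176815), .ofNat (nat_lit 120713), .ofNat (nat_lit 198253), .ofNat (nat_lit 118272), .ofNat (nat_lit 192309), .ofNat (nat_lit 139640), .ofNat (nat_lit 213677)⟩, ⟨.ofNat (nat_lit 0), .ofNat (nat_lit 0), .ofNat (nat_lit 0), .ofNat (nat_lit 0), .ofNat (nat_lit 0), .ofNat (nat_lit 0), .ofNat (nat_lit 0), .ofNat (nat_lit 0)⟩⟩, [⟨nat_lit 0, nat_lit 100, nat_lit 100, nat_lit 40, nat_lit 3861489294⟩]⟩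
noncomputable def b_NL_550_550_0_28 : St := ⟨false, nat_lit 1, nat_lit 1, nat_lit 1, nat_lit 20, nat_lit 220, nat_lit 240, nat_lit 220, nat_lit 240, nat_lit 4, nat_lit 40, nat_lit 0, nat_lit 0, nat_lit 0, nat_lit 0, nat_lit 0, nat_lit 0, nat_lit 8, nat_lit 20, nat_lit 0, nat_lit 0, nat_lit 0, nat_lit 0⟩
theorem d_NL_550_550_0_28 (h : EB TB.env) : Dead b_NL_550_550_0_28 := chkB_sound0 h (T :=
(.spl (nat_lit 8) (nat_lit 800)
(.spl (nat_lit 0) (nat_lit 230)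
(.ord (.spl (nat_lit 7) (nat_lit 600)
(.spl (nat_lit 0) (nat_lit 225)
(.ord (.leaf p006_l195))
(.spl (nat_lit 0) (nat_lit 228)
(.ord (.spl (nat_lit 0) (nat_lit 227)
(.ord (.leaf p006_l196))
(.leaf p006_l197)))
(.spl (nat_lit 0) (nat_lit 229)
(.ord (.leaf p006_l198))
(.leaf p006_l199))))
(.leaf p006_l200)))
(.spl (nat_lit 7) (nat_lit 600)
(.spl (nat_lit 0) (nat_lit 235)
(.ord (.spl (nat_lit 2) (nat_lit 20)
(.spl (nat_lit 0) (nat_lit 233)
(.ord (.spl (nat_lit 0) (nat_lit 232)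
(.ord (.leaf p006_l201))
(.leaf p006_l202)))
(.leaf p006_l203))
(.leaf p006_l204)))
(.spl (nat_lit 2) (nat_lit 20)
(.spl (nat_lit 0) (nat_lit 238)
(.ord (.spl (nat_lit 0) (nat_lit 237)
(.ord (.leaf p006_l205))
(.trZ (nat_lit 0) (nat_lit 100) (nat_lit 99) (nat_lit 28) (nat_lit 8) (.leaf p006_l206))))
(.trZ (nat_lit 0) (nat_lit 100) (nat_lit 99) (nat_lit 29) (nat_lit 8) (.leaf p006_l207)))
(.leaf p006_l208)))
(.leaf p006_l209)))
(.leaf p006_l210))) (by decide +kernel)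
noncomputable def p006_l211 : Lf2 := ⟨nat_lit 0, nat_lit 5, [nat_lit 4, nat_lit 5, nat_lit 5, nat_lit 20], false, nat_lit 0, nat_lit 0, nat_lit 0, nat_lit 0, ⟨nat_lit 1000, nat_lit 0, nat_lit 0, nat_lit 0, nat_lit 0, nat_lit 0, nat_lit 0, nat_lit 0, nat_lit 0, nat_lit 0, nat_lit 0, nat_lit 0, nat_lit 0, nat_lit 0, nat_lit 0, nat_lit 0, false, false⟩,
 nat_lit 35511, nat_lit 0, nat_lit 0, nat_lit 0, nat_lit 16983, nat_lit 16983, nat_lit 3526, nat_lit 0, nat_lit 0, nat_lit 3489, nat_lit 0, nat_lit 0, nat_lit 0, nat_lit 0, nat_lit 0, nat_lit 0, nat_lit 0, nat_lit 0, [],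
 ⟨p006_k70, nat_lit 0, nat_lit 0, nat_lit 356, nat_lit 0, nat_lit 256212, [nat_lit 6250000000, nat_lit 7968000001, nat_lit 9842000000], [], [nat_lit 21581481756, nat_lit 20793368640, nat_lit 23235345274, nat_lit 21119747490], nat_lit 1271250, nat_lit 1271250, nat_lit 230001, nat_lit 490000, nat_lit 0, nat_lit 0, [nat_lit 1412500, nat_lit 1271250, nat_lit 1271250], [nat_lit 25, nat_lit 40, nat_lit 20, nat_lit 80, nat_lit 17, nat_lit 317, nat_lit 100, nat_lit 10]⟩, ⟨p006_k70, nat_lit 0, nat_lit 0, nat_lit 356, nat_lit 0, nat_lit 256212, [nat_lit 6250000000, nat_lit 7968000000, nat_lit 9842000000], [], [nat_lit 21581481756, nat_lit 20883324890, nat_lit 23235345274, nat_lit 21119747490], nat_lit 1271250, nat_lit 1271250, nat_lit 230001, nat_lit 490000, nat_lit 0, nat_lit 0, [nat_lit 1412500, nat_lit 1271250, nat_lit 1271250], [nat_lit 25, nat_lit 40, nat_lit 20, nat_lit 80, nat_lit 17, nat_lit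 317, nat_lit 100, nat_lit 10]⟩,
 zbF0, []⟩
noncomputable def p006_l212 : Lf2 := ⟨nat_lit 0, nat_lit 5, [nat_lit 4, nat_lit 5, nat_lit 5, nat_lit 20], false, nat_lit 0, nat_lit 0, nat_lit 0, nat_lit 0, ⟨nat_lit 1000, nat_lit 0, nat_lit 0, nat_lit 0, nat_lit 0, nat_lit 0, nat_lit 0, nat_lit 0, nat_lit 0, nat_lit 0, nat_lit 0, nat_lit 0, nat_lit 0, nat_lit 0, nat_lit 0, nat_lit 0, false, false⟩,
 nat_lit 31289, nat_lit 0, nat_lit 0, nat_lit 0, nat_lit 15360, nat_lit 14964, nat_lit 3327, nat_lit 0, nat_lit 0, nat_lit 2814, nat_lit 0, nat_lit 0, nat_lit 0, nat_lit 0, nat_lit 0, nat_lit 0, nat_lit 0, nat_lit 0, [],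
 ⟨p006_k71, nat_lit 0, nat_lit 0, nat_lit 373, nat_lit 0, nat_lit 291781, [nat_lit 6250000000, nat_lit 7968000001, nat_lit 9842000000], [], [nat_lit 21379757760, nat_lit 20693437835, nat_lit 23002903840, nat_lit 21089485600], nat_lit 1271250, nat_lit 1271250, nat_lit 230001, nat_lit 490000, nat_lit 0, nat_lit 0, [nat_lit 1412500, nat_lit 1271250, nat_lit 1271250], [nat_lit 25, nat_lit 40, nat_lit 20, nat_lit 80, nat_lit 17, nat_lit 317, nat_lit 100, nat_lit 10]⟩, ⟨p006_k70, nat_lit 0, nat_lit 0, nat_lit 377, nat_lit 0, nat_lit 300032, [nat_lit 6250000000, nat_lit 7968000000, nat_lit 9842000000], [], [nat_lit 23745583248, nat_lit 22434888104, nat_lit 25326467992, nat_lit 21598292140], nat_lit 1271250, nat_lit 1271250, nat_lit 230001, nat_lit 490000, nat_lit 0, nat_lit 0, [nat_lit 1412500, nat_lit 1271250, nat_lit 1271250], [nat_lit 25, nat_lit 40, nat_lit 20, nat_lit 80, nat_lit 17, nat_lit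 317, nat_lit 100, nat_lit 10]⟩,
 zbF0, []⟩
noncomputable def p006_l213 : Lf2 := ⟨nat_lit 0, nat_lit 5, [nat_lit 4, nat_lit 5, nat_lit 5, nat_lit 20], false, nat_lit 0, nat_lit 0, nat_lit 0, nat_lit 0, ⟨nat_lit 1000, nat_lit 0, nat_lit 0, nat_lit 0, nat_lit 0, nat_lit 0, nat_lit 0, nat_lit 0, nat_lit 0, nat_lit 0, nat_lit 0, nat_lit 0, nat_lit 0, nat_lit 0, nat_lit 0, nat_lit 0, false, false⟩,
 nat_lit 29137, nat_lit 0, nat_lit 0, nat_lit 0, nat_lit 14674, nat_lit 13935, nat_lit 3567, nat_lit 0, nat_lit 0, nat_lit 2124, nat_lit 0, nat_lit 0, nat_lit 0, nat_lit 0, nat_lit 0, nat_lit 0, nat_lit 0, nat_lit 0, [],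
 ⟨p006_k33, nat_lit 0, nat_lit 0, nat_lit 380, nat_lit 0, nat_lit 305285, [nat_lit 6250000000, nat_lit 7968000001, nat_lit 9842000000], [], [nat_lit 20347101900, nat_lit 19681858197, nat_lit 21970902990, nat_lit 20142940799], nat_lit 1271250, nat_lit 1271250, nat_lit 230001, nat_lit 490000, nat_lit 0, nat_lit 0, [nat_lit 1412500, nat_lit 1271250, nat_lit 1271250], [nat_lit 25, nat_lit 40, nat_lit 20, nat_lit 80, nat_lit 17, nat_lit 317, nat_lit 100, nat_lit 10]⟩, ⟨p006_k70, nat_lit 0, nat_lit 0, nat_lit 387, nat_lit 0, nat_lit 322614, [nat_lit 6250000000, nat_lit 7968000000, nat_lit 9842000000], [], [nat_lit 24848535420, nat_lit 23748687785, nat_lit 26392225930, nat_lit 22920418225], nat_lit 1271250, nat_lit 1271250, nat_lit 230001, nat_lit 490000, nat_lit 0, nat_lit 0, [nat_lit 1412500, nat_lit 1271250, nat_lit 1271250], [nat_lit 25, nat_lit 40, nat_lit 20, nat_lit 80, nat_lit 17, nat_lit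 317, nat_lit 100, nat_lit 10]⟩,
 zbF0, []⟩
noncomputable def p006_l214 : Lf2 := ⟨nat_lit 0, nat_lit 5, [nat_lit 4, nat_lit 5, nat_lit 5, nat_lit 20], false, nat_lit 0, nat_lit 0, nat_lit 0, nat_lit 0, ⟨nat_lit 879, nat_lit 0, nat_lit 121, nat_lit 5, nat_lit 95, nat_lit 0, nat_lit 0, nat_lit 0, nat_lit 0, nat_lit 215, nat_lit 84017, nat_lit 286, nat_lit 63433450, nat_lit 0, nat_lit 0, nat_lit 1039612, false, false⟩,
 nat_lit 24843, nat_lit 0, nat_lit 0, nat_lit 0, nat_lit 12830, nat_lit 11881, nat_lit 3070, nat_lit 0, nat_lit 0, nat_lit 1639, nat_lit 0, nat_lit 0, nat_lit 0, nat_lit 0, nat_lit 0, nat_lit 121000, nat_lit 0, nat_lit 0, [(nat_lit 3, [(nat_lit 6, nat_lit 121)])],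
 ⟨p006_k14, nat_lit 0, nat_lit 0, nat_lit 387, nat_lit 0, nat_lit 318913, [nat_lit 5619728286, nat_lit 6851363600, nat_lit 8264353600], [], [nat_lit 19277344828, nat_lit 18744812480, nat_lit 20851126563, nat_lit 19252874218], nat_lit 1271250, nat_lit 1271250, nat_lit 230001, nat_lit 490000, nat_lit 0, nat_lit 0, [nat_lit 1412500, nat_lit 1271250, nat_lit 1271250], [nat_lit 25, nat_lit 40, nat_lit 20, nat_lit 80, nat_lit 17, nat_lit 317, nat_lit 100, nat_lit 10]⟩, ⟨p006_k70, nat_lit 0, nat_lit 0, nat_lit 427, nat_lit 0, nat_lit 346168, [nat_lit 5493750000, nat_lit 7003872000, nat_lit 8651118000], [], [nat_lit 22236165356, nat_lit 21299367514, nat_lit 23579772466, nat_lit 20619704483], nat_lit 1271250, nat_lit 1271250, nat_lit 230001, nat_lit 490000, nat_lit 0, nat_lit 0, [nat_lit 1412500, nat_lit 1271250, nat_lit 1271250], [nat_lit 25, nat_lit 40, nat_lit 20, nat_lit 80, nat_lit 17, nat_lit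 317, nat_lit 100, nat_lit 10]⟩,
 ⟨nat_lit 6324, nat_lit 6423, ⟨.ofNat (nat_lit 188497), .ofNat (nat_lit 271718), .ofNat (nat_lit 199188), .ofNat (nat_lit 282409), .ofNat (nat_lit 192309), .ofNat (nat_lit 274574), .ofNat (nat_lit 202993), .ofNat (nat_lit 285258)⟩, ⟨.ofNat (nat_lit 0), .ofNat (nat_lit 0), .ofNat (nat_lit 0), .ofNat (nat_lit 0), .ofNat (nat_lit 0), .ofNat (nat_lit 0), .ofNat (nat_lit 0), .ofNat (nat_lit 0)⟩⟩, []⟩
noncomputable def p006_l215 : Lf2 := ⟨nat_lit 0, nat_lit 5, [nat_lit 4, nat_lit 5, nat_lit 5, nat_lit 20], false, nat_lit 0, nat_lit 0, nat_lit 0, nat_lit 0, ⟨nat_lit 1000, nat_lit 0, nat_lit 0, nat_lit 0, nat_lit 0, nat_lit 0, nat_lit 0, nat_lit 0, nat_lit 0, nat_lit 0, nat_lit 0, nat_lit 0, nat_lit 0, nat_lit 0, nat_lit 0, nat_lit 0, false, false⟩,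
 nat_lit 24233, nat_lit 0, nat_lit 0, nat_lit 0, nat_lit 12204, nat_lit 12204, nat_lit 2324, nat_lit 0, nat_lit 0, nat_lit 2324, nat_lit 0, nat_lit 0, nat_lit 0, nat_lit 0, nat_lit 0, nat_lit 0, nat_lit 0, nat_lit 0, [],
 ⟨p006_k33, nat_lit 0, nat_lit 0, nat_lit 438, nat_lit 0, nat_lit 369344, [nat_lit 6250000000, nat_lit 7968000001, nat_lit 9842000000], [], [nat_lit 23618987400, nat_lit 22742657080, nat_lit 25144519540, nat_lit 22103978368], nat_lit 1271250, nat_lit 1271250, nat_lit 230001, nat_lit 490000, nat_lit 0, nat_lit 0, [nat_lit 1412500, nat_lit 1271250, nat_lit 1271250], [nat_lit 25, nat_lit 40, nat_lit 20, nat_lit 80, nat_lit 17, nat_lit 317, nat_lit 100, nat_lit 10]⟩, ⟨p006_k33, nat_lit 0, nat_lit 0, nat_lit 438, nat_lit 0, nat_lit 369344, [nat_lit 6250000000, nat_lit 7968000000, nat_lit 9842000000], [], [nat_lit 23618987400, nat_lit 22742657080, nat_lit 25144519540, nat_lit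 22103978368], nat_lit 1271250, nat_lit 1271250, nat_lit 230001, nat_lit 490000, nat_lit 0, nat_lit 0, [nat_lit 1412500, nat_lit 1271250, nat_lit 1271250], [nat_lit 25, nat_lit 40, nat_lit 20, nat_lit 80, nat_lit 17, nat_lit 317, nat_lit 100, nat_lit 10]⟩,
 zbF0, []⟩
noncomputable def b_NL_550_550_0_29 : St := ⟨false, nat_lit 1, nat_lit 1, nat_lit 1, nat_lit 20, nat_lit 220, nat_lit 240, nat_lit 220, nat_lit 240, nat_lit 40, nat_lit 80, nat_lit 0, nat_lit 0, nat_lit 0, nat_lit 0, nat_lit 0, nat_lit 0, nat_lit 0, nat_lit 20, nat_lit 0, nat_lit 0, nat_lit 0, nat_lit 0⟩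
theorem d_NL_550_550_0_29 (h : EB TB.env) : Dead b_NL_550_550_0_29 := chkB_sound0 h (T :=
(.spl (nat_lit 0) (nat_lit 230)
(.ord (.spl (nat_lit 0) (nat_lit 225)
(.ord (.leaf p006_l211))
(.leaf p006_l212)))
(.spl (nat_lit 1) (nat_lit 230)
(.spl (nat_lit 0) (nat_lit 235)
(.leaf p006_l213)
(.leaf p006_l214))
(.leaf p006_l215)))) (by decide +kernel)
noncomputable def p006_l216 : Lf2 := ⟨nat_lit 0, nat_lit 5, [nat_lit 4, nat_lit 5, nat_lit 5, nat_lit 20], true, nat_lit 0, nat_lit 0, nat_lit 0, nat_lit 0, ⟨nat_lit 0, nat_lit 0, nat_lit 1000, nat_lit 5, nat_lit 48, nat_lit 0, nat_lit 0, nat_lit 0, nat_lit 0, nat_lit 215, nat_lit 21600, nat_lit 251, nat_lit 66056608, nat_lit 0, nat_lit 0, nat_lit 369921, false, false⟩,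
 nat_lit 0, nat_lit 9998, nat_lit 0, nat_lit 0, nat_lit 4781, nat_lit 0, nat_lit 308, nat_lit 0, nat_lit 0, nat_lit 0, nat_lit 0, nat_lit 0, nat_lit 0, nat_lit 1495086140256, nat_lit 115, nat_lit 1000000, nat_lit 0, nat_lit 0, [(nat_lit 3, [(nat_lit 6, nat_lit 1000)])],
 ⟨p006_k70, nat_lit 0, nat_lit 0, nat_lit 298, nat_lit 0, nat_lit 23144, [nat_lit 3341142858, nat_lit 1499600000, nat_lit 23600000], [], [nat_lit 13521395434, nat_lit 13667175288, nat_lit 12548793696, nat_lit 12705818046], nat_lit 1271250, nat_lit 1271250, nat_lit 21650, nat_lit 111251, nat_lit 0, nat_lit 0, [nat_lit 1412500, nat_lit 1271250, nat_lit 1271250], [nat_lit 25, nat_lit 40, nat_lit 20, nat_lit 80, nat_lit 17, nat_lit 289, nat_lit 75, nat_lit 9]⟩, C1.Rw.none,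
 ⟨nat_lit 6652, nat_lit 6709, ⟨.ofNat (nat_lit 99275), .ofNat (nat_lit 133737), .ofNat (nat_lit 102491), .ofNat (nat_lit 136953), .ofNat (nat_lit 102178), .ofNat (nat_lit 136402), .ofNat (nat_lit 105392), .ofNat (nat_lit 139616)⟩, ⟨.ofNat (nat_lit 0), .ofNat (nat_lit 0), .ofNat (nat_lit 0), .ofNat (nat_lit 0), .ofNat (nat_lit 0), .ofNat (nat_lit 0), .ofNat (nat_lit 0), .ofNat (nat_lit 0)⟩⟩, [⟨nat_lit 0, nat_lit 100, nat_lit 100, nat_lit 23, nat_lit 407847152⟩]⟩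
noncomputable def p006_l217 : Lf2 := ⟨nat_lit 0, nat_lit 5, [nat_lit 4, nat_lit 5, nat_lit 5, nat_lit 20], true, nat_lit 0, nat_lit 0, nat_lit 0, nat_lit 0, ⟨nat_lit 0, nat_lit 0, nat_lit 1000, nat_lit 5, nat_lit 47, nat_lit 0, nat_lit 0, nat_lit 0, nat_lit 0, nat_lit 215, nat_lit 20417, nat_lit 250, nat_lit 66102080, nat_lit 0, nat_lit 0, nat_lit 355407, false, false⟩,
 nat_lit 0, nat_lit 9835, nat_lit 0, nat_lit 0, nat_lit 4778, nat_lit 0, nat_lit 290, nat_lit 0, nat_lit 0, nat_lit 0, nat_lit 0, nat_lit 0, nat_lit 0, nat_lit 0, nat_lit 115, nat_lit 1000000, nat_lit 0, nat_lit 0, [(nat_lit 3, [(nat_lit 6, nat_lit 1000)])],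
 ⟨p006_k72, nat_lit 0, nat_lit 0, nat_lit 298, nat_lit 0, nat_lit 22776, [nat_lit 3341142858, nat_lit 1499600000, nat_lit 23600000], [], [nat_lit 13675416256, nat_lit 13730744621, nat_lit 12948968770, nat_lit 13009550344], nat_lit 1271250, nat_lit 1271250, nat_lit 21650, nat_lit 88400, nat_lit 0, nat_lit 0, [nat_lit 1412500, nat_lit 1271250, nat_lit 1271250], [nat_lit 25, nat_lit 40, nat_lit 20, nat_lit 80, nat_lit 17, nat_lit 272, nat_lit 60, nat_lit 8]⟩, C1.Rw.none,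
 ⟨nat_lit 6633, nat_lit 6653, ⟨.ofNat (nat_lit 102178), .ofNat (nat_lit 127846), .ofNat (nat_lit 104320), .ofNat (nat_lit 129988), .ofNat (nat_lit 103141), .ofNat (nat_lit 128750), .ofNat (nat_lit 105283), .ofNat (nat_lit 130892)⟩, ⟨.ofNat (nat_lit 0), .ofNat (nat_lit 0), .ofNat (nat_lit 0), .ofNat (nat_lit 0), .ofNat (nat_lit 0), .ofNat (nat_lit 0), .ofNat (nat_lit 0), .ofNat (nat_lit 0)⟩⟩, [⟨nat_lit 0, nat_lit 100, nat_lit 100, nat_lit 23, nat_lit 407014575⟩]⟩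
noncomputable def p006_l218 : Lf2 := ⟨nat_lit 0, nat_lit 5, [nat_lit 4, nat_lit 5, nat_lit 5, nat_lit 20], true, nat_lit 0, nat_lit 0, nat_lit 0, nat_lit 0, ⟨nat_lit 0, nat_lit 0, nat_lit 1000, nat_lit 5, nat_lit 44, nat_lit 0, nat_lit 0, nat_lit 0, nat_lit 0, nat_lit 215, nat_lit 18150, nat_lit 248, nat_lit 66196894, nat_lit 0, nat_lit 0, nat_lit 324568, false, false⟩,
 nat_lit 0, nat_lit 9822, nat_lit 0, nat_lit 0, nat_lit 4771, nat_lit 0, nat_lit 285, nat_lit 0, nat_lit 0, nat_lit 0, nat_lit 0, nat_lit 0, nat_lit 0, nat_lit 23322610730292, nat_lit 115, nat_lit 1000000, nat_lit 0, nat_lit 0, [(nat_lit 3, [(nat_lit 6, nat_lit 1000)])],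
 ⟨p006_k72, nat_lit 0, nat_lit 0, nat_lit 301, nat_lit 0, nat_lit 31355, [nat_lit 3341142858, nat_lit 1499600000, nat_lit 23600000], [], [nat_lit 13690066395, nat_lit 13738294083, nat_lit 13447534864, nat_lit 13495766978], nat_lit 1271250, nat_lit 1271250, nat_lit 21650, nat_lit 43600, nat_lit 0, nat_lit 0, [nat_lit 1412500, nat_lit 1271250, nat_lit 1271250], [nat_lit 25, nat_lit 40, nat_lit 20, nat_lit 80, nat_lit 17, nat_lit 272, nat_lit 60, nat_lit 8]⟩, C1.Rw.none,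
 ⟨nat_lit 6633, nat_lit 6653, ⟨.ofNat (nat_lit 104320), .ofNat (nat_lit 112876), .ofNat (nat_lit 106463), .ofNat (nat_lit 115019), .ofNat (nat_lit 105283), .ofNat (nat_lit 113819), .ofNat (nat_lit 107425), .ofNat (nat_lit 115961)⟩, ⟨.ofNat (nat_lit 0), .ofNat (nat_lit 0), .ofNat (nat_lit 0), .ofNat (nat_lit 0), .ofNat (nat_lit 0), .ofNat (nat_lit 0), .ofNat (nat_lit 0), .ofNat (nat_lit 0)⟩⟩, [⟨nat_lit 0, nat_lit 100, nat_lit 100, nat_lit 24, nat_lit 409389360⟩]⟩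
noncomputable def p006_l219 : Lf2 := ⟨nat_lit 0, nat_lit 5, [nat_lit 4, nat_lit 5, nat_lit 5, nat_lit 20], true, nat_lit 0, nat_lit 0, nat_lit 0, nat_lit 0, ⟨nat_lit 0, nat_lit 0, nat_lit 1000, nat_lit 5, nat_lit 49, nat_lit 0, nat_lit 0, nat_lit 0, nat_lit 0, nat_lit 215, nat_lit 22817, nat_lit 252, nat_lit 66002024, nat_lit 0, nat_lit 0, nat_lit 387121, false, false⟩,
 nat_lit 0, nat_lit 9952, nat_lit 0, nat_lit 0, nat_lit 4835, nat_lit 0, nat_lit 297, nat_lit 0, nat_lit 0, nat_lit 0, nat_lit 0, nat_lit 0, nat_lit 0, nat_lit 27383107813997, nat_lit 115, nat_lit 1000000, nat_lit 0, nat_lit 0, [(nat_lit 3, [(nat_lit 6, nat_lit 1000)])],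
 ⟨p006_k72, nat_lit 0, nat_lit 0, nat_lit 295, nat_lit 0, nat_lit 31355, [nat_lit 3341142858, nat_lit 1499600000, nat_lit 23600000], [], [nat_lit 13395793045, nat_lit 13444263235, nat_lit 12902981036, nat_lit 12956459540], nat_lit 1271250, nat_lit 1271250, nat_lit 43600, nat_lit 88400, nat_lit 0, nat_lit 0, [nat_lit 1412500, nat_lit 1271250, nat_lit 1271250], [nat_lit 25, nat_lit 40, nat_lit 20, nat_lit 80, nat_lit 17, nat_lit 272, nat_lit 60, nat_lit 8]⟩, C1.Rw.none,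
 ⟨nat_lit 6633, nat_lit 6653, ⟨.ofNat (nat_lit 112876), .ofNat (nat_lit 129988), .ofNat (nat_lit 115019), .ofNat (nat_lit 132131), .ofNat (nat_lit 113819), .ofNat (nat_lit 130892), .ofNat (nat_lit 115961), .ofNat (nat_lit 133034)⟩, ⟨.ofNat (nat_lit 0), .ofNat (nat_lit 0), .ofNat (nat_lit 0), .ofNat (nat_lit 0), .ofNat (nat_lit 0), .ofNat (nat_lit 0), .ofNat (nat_lit 0), .ofNat (nat_lit 0)⟩⟩, []⟩
noncomputable def p006_l220 : Lf2 := ⟨nat_lit 0, nat_lit 5, [nat_lit 4, nat_lit 5, nat_lit 5, nat_lit 20], true, nat_lit 0, nat_lit 0, nat_lit 0, nat_lit 0, ⟨nat_lit 0, nat_lit 0, nat_lit 1000, nat_lit 5, nat_lit 54, nat_lit 0, nat_lit 0, nat_lit 0, nat_lit 0, nat_lit 215, nat_lit 26667, nat_lit 255, nat_lit 65805779, nat_lit 0, nat_lit 0, nat_lit 447162, false, false⟩,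
 nat_lit 0, nat_lit 10625, nat_lit 0, nat_lit 0, nat_lit 5162, nat_lit 0, nat_lit 0, nat_lit 0, nat_lit 0, nat_lit 0, nat_lit 0, nat_lit 0, nat_lit 0, nat_lit 0, nat_lit 115, nat_lit 1000000, nat_lit 0, nat_lit 0, [(nat_lit 3, [(nat_lit 6, nat_lit 1000)])],
 ⟨p006_k73, nat_lit 0, nat_lit 0, nat_lit 281, nat_lit 0, nat_lit 31355, [nat_lit 3341142858, nat_lit 23600000], [], [nat_lit 13740500495, nat_lit 13779437804, nat_lit 13523823579, nat_lit 13562743054], nat_lit 1271250, nat_lit 1271250, nat_lit 88400, nat_lit 111251, nat_lit 0, nat_lit 0, [nat_lit 1412500, nat_lit 1271250], [nat_lit 51, nat_lit 40, nat_lit 20, nat_lit 80, nat_lit 1, nat_lit 289, nat_lit 75, nat_lit 9]⟩, C1.Rw.none,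
 ⟨nat_lit 6633, nat_lit 6653, ⟨.ofNat (nat_lit 127846), .ofNat (nat_lit 136402), .ofNat (nat_lit 132131), .ofNat (nat_lit 140687), .ofNat (nat_lit 128750), .ofNat (nat_lit 137286), .ofNat (nat_lit 133034), .ofNat (nat_lit 141570)⟩, ⟨.ofNat (nat_lit 0), .ofNat (nat_lit 0), .ofNat (nat_lit 0), .ofNat (nat_lit 0), .ofNat (nat_lit 0), .ofNat (nat_lit 0), .ofNat (nat_lit 0), .ofNat (nat_lit 0)⟩⟩, []⟩
noncomputable def p006_l221 : Lf2 := ⟨nat_lit 0, nat_lit 5, [nat_lit 4, nat_lit 5, nat_lit 5, nat_lit 20], true, nat_lit 0, nat_lit 0, nat_lit 0, nat_lit 0, ⟨nat_lit 0, nat_lit 0, nat_lit 1000, nat_lit 5, nat_lit 44, nat_lit 0, nat_lit 0, nat_lit 0, nat_lit 0, nat_lit 215, nat_lit 18150, nat_lit 248, nat_lit 66206299, nat_lit 0, nat_lit 0, nat_lit 321462, false, false⟩,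
 nat_lit 0, nat_lit 9751, nat_lit 0, nat_lit 0, nat_lit 4762, nat_lit 0, nat_lit 275, nat_lit 0, nat_lit 0, nat_lit 0, nat_lit 0, nat_lit 0, nat_lit 0, nat_lit 0, nat_lit 115, nat_lit 1000000, nat_lit 0, nat_lit 0, [(nat_lit 3, [(nat_lit 6, nat_lit 1000)])],
 ⟨p006_k74, nat_lit 0, nat_lit 0, nat_lit 302, nat_lit 0, nat_lit 31204, [nat_lit 3341142858, nat_lit 1499600000, nat_lit 23600000], [], [nat_lit 13756761747, nat_lit 13804956026, nat_lit 13514779418, nat_lit 13563395995], nat_lit 1271250, nat_lit 1271250, nat_lit 21650, nat_lit 43600, nat_lit 0, nat_lit 0, [nat_lit 1412500, nat_lit 1271250, nat_lit 1271250], [nat_lit 25, nat_lit 40, nat_lit 20, nat_lit 80, nat_lit 17, nat_lit 272, nat_lit 60, nat_lit 8]⟩, C1.Rw.none,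
 ⟨nat_lit 6614, nat_lit 6634, ⟨.ofNat (nat_lit 103141), .ofNat (nat_lit 111677), .ofNat (nat_lit 106354), .ofNat (nat_lit 114890), .ofNat (nat_lit 104102), .ofNat (nat_lit 112619), .ofNat (nat_lit 107315), .ofNat (nat_lit 115831)⟩, ⟨.ofNat (nat_lit 0), .ofNat (nat_lit 0), .ofNat (nat_lit 0), .ofNat (nat_lit 0), .ofNat (nat_lit 0), .ofNat (nat_lit 0), .ofNat (nat_lit 0), .ofNat (nat_lit 0)⟩⟩, [⟨nat_lit 0, nat_lit 100, nat_lit 100, nat_lit 24, nat_lit 408138662⟩]⟩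
noncomputable def p006_l222 : Lf2 := ⟨nat_lit 0, nat_lit 5, [nat_lit 4, nat_lit 5, nat_lit 5, nat_lit 20], true, nat_lit 0, nat_lit 0, nat_lit 0, nat_lit 0, ⟨nat_lit 0, nat_lit 0, nat_lit 1000, nat_lit 5, nat_lit 45, nat_lit 0, nat_lit 0, nat_lit 0, nat_lit 0, nat_lit 215, nat_lit 19267, nat_lit 249, nat_lit 66167496, nat_lit 0, nat_lit 0, nat_lit 334217, false, false⟩,
 nat_lit 0, nat_lit 8288, nat_lit 0, nat_lit 0, nat_lit 4047, nat_lit 0, nat_lit 345, nat_lit 0, nat_lit 0, nat_lit 0, nat_lit 0, nat_lit 0, nat_lit 0, nat_lit 2407955899588, nat_lit 115, nat_lit 1000000, nat_lit 0, nat_lit 0, [(nat_lit 3, [(nat_lit 6, nat_lit 1000)])],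
 ⟨p006_k75, nat_lit 0, nat_lit 0, nat_lit 0, nat_lit 0, nat_lit 39732, [nat_lit 3007028572, nat_lit 2237600001, nat_lit 23600000], [], [nat_lit 12950719702, nat_lit 12998150768, nat_lit 12751220250, nat_lit 12798648420], nat_lit 1271250, nat_lit 1271250, nat_lit 21650, nat_lit 43600, nat_lit 0, nat_lit 0, [nat_lit 1271250, nat_lit 1271250, nat_lit 1271250], [nat_lit 103, nat_lit 40, nat_lit 20, nat_lit 40]⟩, C1.Rw.none,
 ⟨nat_lit 6614, nat_lit 6634, ⟨.ofNat (nat_lit 106354), .ofNat (nat_lit 114890), .ofNat (nat_lit 108496), .ofNat (nat_lit 117033), .ofNat (nat_lit 107315), .ofNat (nat_lit 115831), .ofNat (nat_lit 109456), .ofNat (nat_lit 117973)⟩, ⟨.ofNat (nat_lit 0), .ofNat (nat_lit 0), .ofNat (nat_lit 0), .ofNat (nat_lit 0), .ofNat (nat_lit 0), .ofNat (nat_lit 0), .ofNat (nat_lit 0), .ofNat (nat_lit 0)⟩⟩, [⟨nat_lit 0, nat_lit 100, nat_lit 100, nat_lit 25, nat_lit 355964657⟩]⟩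
noncomputable def p006_l223 : Lf2 := ⟨nat_lit 0, nat_lit 5, [nat_lit 4, nat_lit 5, nat_lit 5, nat_lit 20], true, nat_lit 0, nat_lit 0, nat_lit 0, nat_lit 0, ⟨nat_lit 0, nat_lit 0, nat_lit 1000, nat_lit 5, nat_lit 45, nat_lit 0, nat_lit 0, nat_lit 0, nat_lit 0, nat_lit 215, nat_lit 19267, nat_lit 249, nat_lit 66167496, nat_lit 0, nat_lit 0, nat_lit 334217, false, false⟩,
 nat_lit 0, nat_lit 100000, nat_lit 0, nat_lit 100000, nat_lit 48837, nat_lit 0, nat_lit 12917, nat_lit 2089, nat_lit 0, nat_lit 0, nat_lit 0, nat_lit 0, nat_lit 0, nat_lit 400000000000000, nat_lit 0, nat_lit 1000000, nat_lit 0, nat_lit 0, [(nat_lit 3, [(nat_lit 6, nat_lit 1000)])],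
 ⟨p006_k74, nat_lit 0, nat_lit 0, nat_lit 305, nat_lit 0, nat_lit 39732, [nat_lit 42821142858, nat_lit 48875600001, nat_lit 55295600000], [], [nat_lit 72540335042, nat_lit 72761601646, nat_lit 69733313711, nat_lit 69878715544], nat_lit 1271250, nat_lit 1271250, nat_lit 21650, nat_lit 43600, nat_lit 0, nat_lit 0, [nat_lit 1412500, nat_lit 1271250, nat_lit 1271250], [nat_lit 25, nat_lit 40, nat_lit 20, nat_lit 80, nat_lit 17, nat_lit 272, nat_lit 60, nat_lit 8]⟩, C1.Rw.none,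
 ⟨nat_lit 6614, nat_lit 6634, ⟨.ofNat (nat_lit 106354), .ofNat (nat_lit 114890), .ofNat (nat_lit 108496), .ofNat (nat_lit 117033), .ofNat (nat_lit 107315), .ofNat (nat_lit 115831), .ofNat (nat_lit 109456), .ofNat (nat_lit 117973)⟩, ⟨.ofNat (nat_lit 0), .ofNat (nat_lit 0), .ofNat (nat_lit 0), .ofNat (nat_lit 0), .ofNat (nat_lit 0), .ofNat (nat_lit 0), .ofNat (nat_lit 0), .ofNat (nat_lit 0)⟩⟩, [⟨nat_lit 0, nat_lit 100, nat_lit 100, nat_lit 24, nat_lit 10000000000⟩, ⟨nat_lit 0, nat_lit 100, nat_lit 100, nat_lit 25, nat_lit 10000000000⟩, ⟨nat_lit 0, nat_lit 100, nat_lit 100, nat_lit 23, nat_lit 10000000000⟩, ⟨nat_lit 13, nat_lit 100, nat_lit 1, nat_lit 100, nat_lit 73132301⟩]⟩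
noncomputable def p006_l224 : Lf2 := ⟨nat_lit 0, nat_lit 5, [nat_lit 4, nat_lit 5, nat_lit 5, nat_lit 20], true, nat_lit 0, nat_lit 0, nat_lit 0, nat_lit 0, ⟨nat_lit 0, nat_lit 0, nat_lit 1000, nat_lit 5, nat_lit 49, nat_lit 0, nat_lit 0, nat_lit 0, nat_lit 0, nat_lit 215, nat_lit 22817, nat_lit 252, nat_lit 65995828, nat_lit 0, nat_lit 0, nat_lit 389059, false, false⟩,
 nat_lit 0, nat_lit 9880, nat_lit 0, nat_lit 0, nat_lit 4825, nat_lit 0, nat_lit 287, nat_lit 0, nat_lit 0, nat_lit 0, nat_lit 0, nat_lit 0, nat_lit 0, nat_lit 27672156156936, nat_lit 115, nat_lit 1000000, nat_lit 0, nat_lit 0, [(nat_lit 3, [(nat_lit 6, nat_lit 1000)])],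
 ⟨p006_k74, nat_lit 0, nat_lit 0, nat_lit 299, nat_lit 0, nat_lit 39732, [nat_lit 3341142858, nat_lit 1499600000, nat_lit 23600000], [], [nat_lit 13463189211, nat_lit 13512716974, nat_lit 12971597682, nat_lit 13026624144], nat_lit 1271250, nat_lit 1271250, nat_lit 43600, nat_lit 88400, nat_lit 0, nat_lit 0, [nat_lit 1412500, nat_lit 1271250, nat_lit 1271250], [nat_lit 25, nat_lit 40, nat_lit 20, nat_lit 80, nat_lit 17, nat_lit 289, nat_lit 75, nat_lit 9]⟩, C1.Rw.none,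
 ⟨nat_lit 6614, nat_lit 6634, ⟨.ofNat (nat_lit 111677), .ofNat (nat_lit 128750), .ofNat (nat_lit 117033), .ofNat (nat_lit 134105), .ofNat (nat_lit 112619), .ofNat (nat_lit 129652), .ofNat (nat_lit 117973), .ofNat (nat_lit 135006)⟩, ⟨.ofNat (nat_lit 0), .ofNat (nat_lit 0), .ofNat (nat_lit 0), .ofNat (nat_lit 0), .ofNat (nat_lit 0), .ofNat (nat_lit 0), .ofNat (nat_lit 0), .ofNat (nat_lit 0)⟩⟩, []⟩
noncomputable def p006_l225 : Lf2 := ⟨nat_lit 0, nat_lit 5, [nat_lit 4, nat_lit 5, nat_lit 5, nat_lit 20], true, nat_lit 0, nat_lit 0, nat_lit 0, nat_lit 0, ⟨nat_lit 0, nat_lit 0, nat_lit 1000, nat_lit 5, nat_lit 54, nat_lit 0, nat_lit 0, nat_lit 0, nat_lit 0, nat_lit 215, nat_lit 28017, nat_lit 256, nat_lit 65780788, nat_lit 0, nat_lit 0, nat_lit 454622, false, false⟩,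
 nat_lit 0, nat_lit 10148, nat_lit 0, nat_lit 0, nat_lit 4956, nat_lit 0, nat_lit 309, nat_lit 0, nat_lit 0, nat_lit 0, nat_lit 0, nat_lit 0, nat_lit 0, nat_lit 0, nat_lit 115, nat_lit 1000000, nat_lit 0, nat_lit 0, [(nat_lit 3, [(nat_lit 6, nat_lit 1000)])],
 ⟨p006_k74, nat_lit 0, nat_lit 0, nat_lit 286, nat_lit 0, nat_lit 39732, [nat_lit 3341142858, nat_lit 1499600000, nat_lit 23600000], [], [nat_lit 12856103044, nat_lit 12905357798, nat_lit 12602377755, nat_lit 12654368302], nat_lit 1271250, nat_lit 1271250, nat_lit 88400, nat_lit 111251, nat_lit 0, nat_lit 0, [nat_lit 1412500, nat_lit 1271250, nat_lit 1271250], [nat_lit 25, nat_lit 40, nat_lit 20, nat_lit 80, nat_lit 17, nat_lit 289, nat_lit 75, nat_lit 9]⟩, C1.Rw.none,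
 ⟨nat_lit 6614, nat_lit 6634, ⟨.ofNat (nat_lit 128750), .ofNat (nat_lit 137286), .ofNat (nat_lit 134105), .ofNat (nat_lit 142641), .ofNat (nat_lit 129652), .ofNat (nat_lit 138168), .ofNat (nat_lit 135006), .ofNat (nat_lit 143523)⟩, ⟨.ofNat (nat_lit 0), .ofNat (nat_lit 0), .ofNat (nat_lit 0), .ofNat (nat_lit 0), .ofNat (nat_lit 0), .ofNat (nat_lit 0), .ofNat (nat_lit 0), .ofNat (nat_lit 0)⟩⟩, []⟩
noncomputable def p006_l226 : Lf2 := ⟨nat_lit 1, nat_lit 5, [nat_lit 4, nat_lit 5, nat_lit 5, nat_lit 20], false, nat_lit 0, nat_lit 0, nat_lit 0, nat_lit 0, zbN0,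
 nat_lit 0, nat_lit 0, nat_lit 0, nat_lit 0, nat_lit 0, nat_lit 0, nat_lit 0, nat_lit 0, nat_lit 0, nat_lit 0, nat_lit 0, nat_lit 0, nat_lit 0, nat_lit 0, nat_lit 0, nat_lit 0, nat_lit 0, nat_lit 0, [],
 C1.Rw.none, C1.Rw.none,
 zbF0, []⟩
noncomputable def b_NL_550_550_0_30 : St := ⟨false, nat_lit 1, nat_lit 1, nat_lit 1, nat_lit 20, nat_lit 220, nat_lit 225, nat_lit 220, nat_lit 230, nat_lit 4, nat_lit 20, nat_lit 0, nat_lit 0, nat_lit 0, nat_lit 0, nat_lit 0, nat_lit 0, nat_lit 20, nat_lit 32, nat_lit 0, nat_lit 0, nat_lit 0, nat_lit 800⟩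
theorem d_NL_550_550_0_30 (h : EB TB.env) : Dead b_NL_550_550_0_30 := chkB_sound0 h (T :=
(.ord (.spl (nat_lit 6) (nat_lit 24)
(.spl (nat_lit 0) (nat_lit 223)
(.ord (.leaf p006_l216))
(.spl (nat_lit 0) (nat_lit 224)
(.ord (.spl (nat_lit 2) (nat_lit 16)
(.spl (nat_lit 1) (nat_lit 222)
(.leaf p006_l217)
(.spl (nat_lit 2) (nat_lit 8)
(.leaf p006_l218)
(.leaf p006_l219)))
(.leaf p006_l220)))
(.spl (nat_lit 2) (nat_lit 16)
(.spl (nat_lit 2) (nat_lit 8)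
(.spl (nat_lit 1) (nat_lit 223)
(.leaf p006_l221)
(.spl (nat_lit 7) (nat_lit 600)
(.leaf p006_l222)
(.leaf p006_l223)))
(.leaf p006_l224))
(.leaf p006_l225))))
(.leaf p006_l226)))) (by decide +kernel)
noncomputable def p006_l227 : Lf2 := ⟨nat_lit 0, nat_lit 5, [nat_lit 4, nat_lit 5, nat_lit 5, nat_lit 20], true, nat_lit 0, nat_lit 0, nat_lit 0, nat_lit 0, ⟨nat_lit 0, nat_lit 0, nat_lit 1000, nat_lit 5, nat_lit 47, nat_lit 0, nat_lit 0, nat_lit 0, nat_lit 0, nat_lit 215, nat_lit 20417, nat_lit 250, nat_lit 66099193, nat_lit 0, nat_lit 0, nat_lit 356332, false, false⟩,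
 nat_lit 0, nat_lit 5361, nat_lit 0, nat_lit 0, nat_lit 2631, nat_lit 0, nat_lit 0, nat_lit 0, nat_lit 101, nat_lit 0, nat_lit 0, nat_lit 0, nat_lit 0, nat_lit 7762138619347, nat_lit 100, nat_lit 840400, nat_lit 0, nat_lit 0, [(nat_lit 3, [(nat_lit 5, nat_lit 266), (nat_lit 6, nat_lit 734)])],
 ⟨p006_k0, nat_lit 0, nat_lit 0, nat_lit 0, nat_lit 0, nat_lit 65884, [nat_lit 2863732732, nat_lit 1926220001, nat_lit 7494400], [], [nat_lit 10205768977, nat_lit 10350266398, nat_lit 10076267281, nat_lit 10201334732], nat_lit 1271250, nat_lit 1271250, nat_lit 21650, nat_lit 43600, nat_lit 0, nat_lit 0, [nat_lit 1271250, nat_lit 1271250, nat_lit 1271250], [nat_lit 103, nat_lit 40, nat_lit 20, nat_lit 40]⟩, C1.Rw.none,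
 ⟨nat_lit 6557, nat_lit 6615, ⟨.ofNat (nat_lit 109456), .ofNat (nat_lit 117973), .ofNat (nat_lit 112669), .ofNat (nat_lit 121185), .ofNat (nat_lit 112324), .ofNat (nat_lit 120782), .ofNat (nat_lit 115535), .ofNat (nat_lit 123992)⟩, ⟨.ofNat (nat_lit 0), .ofNat (nat_lit 0), .ofNat (nat_lit 0), .ofNat (nat_lit 0), .ofNat (nat_lit 0), .ofNat (nat_lit 0), .ofNat (nat_lit 0), .ofNat (nat_lit 0)⟩⟩, [⟨nat_lit 0, nat_lit 100, nat_lit 100, nat_lit 28, nat_lit 299715032⟩]⟩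
noncomputable def p006_l228 : Lf2 := ⟨nat_lit 0, nat_lit 5, [nat_lit 4, nat_lit 5, nat_lit 5, nat_lit 20], true, nat_lit 0, nat_lit 0, nat_lit 0, nat_lit 0, ⟨nat_lit 0, nat_lit 0, nat_lit 1000, nat_lit 5, nat_lit 46, nat_lit 0, nat_lit 0, nat_lit 0, nat_lit 0, nat_lit 215, nat_lit 19267, nat_lit 249, nat_lit 66129629, nat_lit 0, nat_lit 0, nat_lit 346530, false, false⟩,
 nat_lit 0, nat_lit 8231, nat_lit 0, nat_lit 0, nat_lit 4040, nat_lit 0, nat_lit 337, nat_lit 0, nat_lit 0, nat_lit 0, nat_lit 0, nat_lit 0, nat_lit 0, nat_lit 2141904805803, nat_lit 115, nat_lit 1000000, nat_lit 0, nat_lit 0, [(nat_lit 3, [(nat_lit 6, nat_lit 1000)])],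
 ⟨p006_k0, nat_lit 0, nat_lit 0, nat_lit 0, nat_lit 0, nat_lit 48277, [nat_lit 3007028572, nat_lit 2237600001, nat_lit 23600000], [], [nat_lit 13002877053, nat_lit 13050279803, nat_lit 12803800670, nat_lit 12851200469], nat_lit 1271250, nat_lit 1271250, nat_lit 21650, nat_lit 43600, nat_lit 0, nat_lit 0, [nat_lit 1271250, nat_lit 1271250, nat_lit 1271250], [nat_lit 103, nat_lit 40, nat_lit 20, nat_lit 40]⟩, C1.Rw.none,
 ⟨nat_lit 6595, nat_lit 6615, ⟨.ofNat (nat_lit 109456), .ofNat (nat_lit 117973), .ofNat (nat_lit 110527), .ofNat (nat_lit 119044), .ofNat (nat_lit 110414), .ofNat (nat_lit 118911), .ofNat (nat_lit 111485), .ofNat (nat_lit 119982)⟩, ⟨.ofNat (nat_lit 0), .ofNat (nat_lit 0), .ofNat (nat_lit 0), .ofNat (nat_lit 0), .ofNat (nat_lit 0), .ofNat (nat_lit 0), .ofNat (nat_lit 0), .ofNat (nat_lit 0)⟩⟩, [⟨nat_lit 0, nat_lit 100, nat_lit 100, nat_lit 26, nat_lit 355348182⟩]⟩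
noncomputable def p006_l229 : Lf2 := ⟨nat_lit 0, nat_lit 5, [nat_lit 4, nat_lit 5, nat_lit 5, nat_lit 20], true, nat_lit 0, nat_lit 0, nat_lit 0, nat_lit 0, ⟨nat_lit 0, nat_lit 0, nat_lit 1000, nat_lit 5, nat_lit 46, nat_lit 0, nat_lit 0, nat_lit 0, nat_lit 0, nat_lit 215, nat_lit 20417, nat_lit 250, nat_lit 66115391, nat_lit 0, nat_lit 0, nat_lit 351124, false, false⟩,
 nat_lit 0, nat_lit 8908, nat_lit 0, nat_lit 0, nat_lit 4395, nat_lit 0, nat_lit 4, nat_lit 0, nat_lit 0, nat_lit 0, nat_lit 0, nat_lit 0, nat_lit 0, nat_lit 0, nat_lit 115, nat_lit 1000000, nat_lit 0, nat_lit 0, [(nat_lit 3, [(nat_lit 6, nat_lit 1000)])],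
 ⟨p006_k76, nat_lit 0, nat_lit 0, nat_lit 0, nat_lit 0, nat_lit 52412, [nat_lit 3007028572, nat_lit 2237600001, nat_lit 23600000], [], [nat_lit 14238419352, nat_lit 14295874665, nat_lit 13954611998, nat_lit 14009829894], nat_lit 1271250, nat_lit 1271250, nat_lit 21650, nat_lit 43600, nat_lit 0, nat_lit 0, [nat_lit 1271250, nat_lit 1271250, nat_lit 1271250], [nat_lit 103, nat_lit 40, nat_lit 20, nat_lit 40]⟩, C1.Rw.none,
 ⟨nat_lit 6576, nat_lit 6596, ⟨.ofNat (nat_lit 110414), .ofNat (nat_lit 118911), .ofNat (nat_lit 111485), .ofNat (nat_lit 119982), .ofNat (nat_lit 111370), .ofNat (nat_lit 119847), .ofNat (nat_lit 112441), .ofNat (nat_lit 120918)⟩, ⟨.ofNat (nat_lit 0), .ofNat (nat_lit 0), .ofNat (nat_lit 0), .ofNat (nat_lit 0), .ofNat (nat_lit 0), .ofNat (nat_lit 0), .ofNat (nat_lit 0), .ofNat (nat_lit 0)⟩⟩, [⟨nat_lit 0, nat_lit 100, nat_lit 100, nat_lit 26, nat_lit 463956648⟩]⟩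
noncomputable def p006_l230 : Lf2 := ⟨nat_lit 0, nat_lit 5, [nat_lit 4, nat_lit 5, nat_lit 5, nat_lit 20], true, nat_lit 0, nat_lit 0, nat_lit 0, nat_lit 0, ⟨nat_lit 0, nat_lit 0, nat_lit 1000, nat_lit 5, nat_lit 47, nat_lit 0, nat_lit 0, nat_lit 0, nat_lit 0, nat_lit 215, nat_lit 20417, nat_lit 250, nat_lit 66099161, nat_lit 0, nat_lit 0, nat_lit 356342, false, false⟩,
 nat_lit 0, nat_lit 7183, nat_lit 0, nat_lit 0, nat_lit 3544, nat_lit 0, nat_lit 0, nat_lit 0, nat_lit 59, nat_lit 0, nat_lit 0, nat_lit 0, nat_lit 0, nat_lit 5540862858735, nat_lit 115, nat_lit 1000000, nat_lit 0, nat_lit 0, [(nat_lit 3, [(nat_lit 6, nat_lit 1000)])],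
 ⟨p006_k76, nat_lit 0, nat_lit 0, nat_lit 0, nat_lit 0, nat_lit 56789, [nat_lit 3007028572, nat_lit 2237600001, nat_lit 23600000], [], [nat_lit 11839131305, nat_lit 11892105116, nat_lit 11616392666, nat_lit 11669405620], nat_lit 1271250, nat_lit 1271250, nat_lit 21650, nat_lit 43600, nat_lit 0, nat_lit 0, [nat_lit 1271250, nat_lit 1271250, nat_lit 1271250], [nat_lit 103, nat_lit 40, nat_lit 20, nat_lit 40]⟩, C1.Rw.none,
 ⟨nat_lit 6576, nat_lit 6596, ⟨.ofNat (nat_lit 111485), .ofNat (nat_lit 119982), .ofNat (nat_lit 112556), .ofNat (nat_lit 121052), .ofNat (nat_lit 112441), .ofNat (nat_lit 120918), .ofNat (nat_lit 113511), .ofNat (nat_lit 121988)⟩, ⟨.ofNat (nat_lit 0), .ofNat (nat_lit 0), .ofNat (nat_lit 0), .ofNat (nat_lit 0), .ofNat (nat_lit 0), .ofNat (nat_lit 0), .ofNat (nat_lit 0), .ofNat (nat_lit 0)⟩⟩, [⟨nat_lit 0, nat_lit 100, nat_lit 100, nat_lit 27, nat_lit 385175181⟩]⟩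
noncomputable def p006_l231 : Lf2 := ⟨nat_lit 2, nat_lit 5, [nat_lit 4, nat_lit 5, nat_lit 5, nat_lit 20], true, nat_lit 0, nat_lit 0, nat_lit 0, nat_lit 0, zbN0,
 nat_lit 0, nat_lit 0, nat_lit 0, nat_lit 0, nat_lit 0, nat_lit 0, nat_lit 0, nat_lit 0, nat_lit 0, nat_lit 0, nat_lit 0, nat_lit 0, nat_lit 0, nat_lit 0, nat_lit 0, nat_lit 0, nat_lit 0, nat_lit 0, [],
 ⟨p006_k77, nat_lit 0, nat_lit 0, nat_lit 0, nat_lit 0, nat_lit 56789, [], [], [], nat_lit 1271250, nat_lit 1271250, nat_lit 21650, nat_lit 43600, nat_lit 0, nat_lit 0, [nat_lit 780000, nat_lit 1100000, nat_lit 1442500, nat_lit 1271250, nat_lit 1271250], [nat_lit 167, nat_lit 40, nat_lit 20, nat_lit 40]⟩, C1.Rw.none,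
 zbF0, []⟩
noncomputable def p006_l232 : Lf2 := ⟨nat_lit 0, nat_lit 5, [nat_lit 4, nat_lit 5, nat_lit 5, nat_lit 20], true, nat_lit 0, nat_lit 0, nat_lit 0, nat_lit 0, ⟨nat_lit 0, nat_lit 0, nat_lit 1000, nat_lit 5, nat_lit 47, nat_lit 0, nat_lit 0, nat_lit 0, nat_lit 0, nat_lit 215, nat_lit 20417, nat_lit 250, nat_lit 66099161, nat_lit 0, nat_lit 0, nat_lit 356342, false, false⟩,
 nat_lit 0, nat_lit 100000, nat_lit 0, nat_lit 0, nat_lit 49344, nat_lit 0, nat_lit 7712, nat_lit 58, nat_lit 0, nat_lit 0, nat_lit 0, nat_lit 0, nat_lit 0, nat_lit 0, nat_lit 2, nat_lit 400000, nat_lit 15638828725, nat_lit 0, [(nat_lit 3, [(nat_lit 5, nat_lit 1000)])],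
 ⟨p006_k78, nat_lit 0, nat_lit 0, nat_lit 0, nat_lit 0, nat_lit 56789, [nat_lit 1531600001, nat_lit 1719600000, nat_lit 1097600000, nat_lit 2000000], [], [nat_lit 2987771179, nat_lit 3270039830, nat_lit 0, nat_lit 197627854], nat_lit 1271250, nat_lit 1271250, nat_lit 21650, nat_lit 43600, nat_lit 0, nat_lit 0, [nat_lit 631250, nat_lit 1271250, nat_lit 1271250, nat_lit 1271250], [nat_lit 91, nat_lit 40, nat_lit 20, nat_lit 40]⟩, C1.Rw.none,
 ⟨nat_lit 6576, nat_lit 6596, ⟨.ofNat (nat_lit 111485), .ofNat (nat_lit 119982), .ofNat (nat_lit 112556), .ofNat (nat_lit 121052), .ofNat (nat_lit 112441), .ofNat (nat_lit 120918), .ofNat (nat_lit 113511), .ofNat (nat_lit 121988)⟩, ⟨.ofNat (nat_lit 0), .ofNat (nat_lit 0), .ofNat (nat_lit 0), .ofNat (nat_lit 0), .ofNat (nat_lit 0), .ofNat (nat_lit 0), .ofNat (nat_lit 0), .ofNat (nat_lit 0)⟩⟩, [⟨nat_lit 0, nat_lit 100, nat_lit 100, nat_lit 27, nat_lit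 3947355462⟩]⟩
noncomputable def p006_l233 : Lf2 := ⟨nat_lit 0, nat_lit 5, [nat_lit 4, nat_lit 5, nat_lit 5, nat_lit 20], true, nat_lit 0, nat_lit 0, nat_lit 0, nat_lit 0, ⟨nat_lit 0, nat_lit 0, nat_lit 1000, nat_lit 5, nat_lit 47, nat_lit 0, nat_lit 0, nat_lit 0, nat_lit 0, nat_lit 215, nat_lit 20417, nat_lit 250, nat_lit 66099161, nat_lit 0, nat_lit 0, nat_lit 356342, false, false⟩,
 nat_lit 0, nat_lit 100000, nat_lit 0, nat_lit 0, nat_lit 49344, nat_lit 0, nat_lit 7712, nat_lit 58, nat_lit 0, nat_lit 0, nat_lit 0, nat_lit 0, nat_lit 0, nat_lit 0, nat_lit 2, nat_lit 400000, nat_lit 15638828725, nat_lit 0, [(nat_lit 3, [(nat_lit 5, nat_lit 1000)])],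
 ⟨p006_k78, nat_lit 0, nat_lit 0, nat_lit 0, nat_lit 0, nat_lit 56789, [nat_lit 1531600001, nat_lit 1719600000, nat_lit 1097600000, nat_lit 2000000], [], [nat_lit 2987771179, nat_lit 3270039830, nat_lit 0, nat_lit 197627854], nat_lit 1271250, nat_lit 1271250, nat_lit 21650, nat_lit 43600, nat_lit 0, nat_lit 0, [nat_lit 631250, nat_lit 1271250, nat_lit 1271250, nat_lit 1271250], [nat_lit 91, nat_lit 40, nat_lit 20, nat_lit 40]⟩, C1.Rw.none,
 ⟨nat_lit 6576, nat_lit 6596, ⟨.ofNat (nat_lit 111485), .ofNat (nat_lit 119982), .ofNat (nat_lit 112556), .ofNat (nat_lit 121052), .ofNat (nat_lit 112441), .ofNat (nat_lit 120918), .ofNat (nat_lit 113511), .ofNat (nat_lit 121988)⟩, ⟨.ofNat (nat_lit 0), .ofNat (nat_lit 0), .ofNat (nat_lit 0), .ofNat (nat_lit 0), .ofNat (nat_lit 0), .ofNat (nat_lit 0), .ofNat (nat_lit 0), .ofNat (nat_lit 0)⟩⟩, [⟨nat_lit 0, nat_lit 100, nat_lit 100, nat_lit 27, nat_lit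 3947355462⟩]⟩
noncomputable def p006_l234 : Lf2 := ⟨nat_lit 0, nat_lit 5, [nat_lit 4, nat_lit 5, nat_lit 5, nat_lit 20], false, nat_lit 0, nat_lit 0, nat_lit 0, nat_lit 0, ⟨nat_lit 0, nat_lit 0, nat_lit 1000, nat_lit 5, nat_lit 47, nat_lit 0, nat_lit 0, nat_lit 0, nat_lit 0, nat_lit 215, nat_lit 20417, nat_lit 250, nat_lit 66099161, nat_lit 0, nat_lit 0, nat_lit 356342, false, false⟩,
 nat_lit 100000, nat_lit 100000, nat_lit 100000, nat_lit 100000, nat_lit 98689, nat_lit 98689, nat_lit 49216, nat_lit 4826, nat_lit 0, nat_lit 60000, nat_lit 4447, nat_lit 0, nat_lit 0, nat_lit 400000000000000, nat_lit 0, nat_lit 1000000, nat_lit 0, nat_lit 0, [(nat_lit 3, [(nat_lit 6, nat_lit 1000)])],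
 ⟨p006_k79, nat_lit 0, nat_lit 0, nat_lit 0, nat_lit 0, nat_lit 56789, [nat_lit 97561142858, nat_lit 114563600001, nat_lit 131931600000], [], [nat_lit 137576873893, nat_lit 138173530119, nat_lit 131919679894, nat_lit 132249717826], nat_lit 1271250, nat_lit 1271250, nat_lit 21650, nat_lit 43600, nat_lit 0, nat_lit 0, [nat_lit 1412500, nat_lit 1271250, nat_lit 1271250], [nat_lit 25, nat_lit 40, nat_lit 20, nat_lit 80]⟩, ⟨p006_k79, nat_lit 0, nat_lit 0, nat_lit 0, nat_lit 0, nat_lit 56789, [nat_lit 88940000000, nat_lit 106728000000, nat_lit 124516000000], [], [nat_lit 80657561853, nat_lit 81126585273, nat_lit 74694579043, nat_lit 75164168938], nat_lit 1271250, nat_lit 1271250, nat_lit 21650, nat_lit 43600, nat_lit 0, nat_lit 0, [nat_lit 1412500, nat_lit 1271250, nat_lit 1271250], [nat_lit 25, nat_lit 40, nat_lit 20, nat_lit 80]⟩,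
 ⟨nat_lit 6576, nat_lit 6596, ⟨.ofNat (nat_lit 111485), .ofNat (nat_lit 119982), .ofNat (nat_lit 112556), .ofNat (nat_lit 121052), .ofNat (nat_lit 112441), .ofNat (nat_lit 120918), .ofNat (nat_lit 113511), .ofNat (nat_lit 121988)⟩, ⟨.ofNat (nat_lit 0), .ofNat (nat_lit 0), .ofNat (nat_lit 0), .ofNat (nat_lit 0), .ofNat (nat_lit 0), .ofNat (nat_lit 0), .ofNat (nat_lit 0), .ofNat (nat_lit 0)⟩⟩, [⟨nat_lit 0, nat_lit 100, nat_lit 100, nat_lit 27, nat_lit 10000000000⟩, ⟨nat_lit 0, nat_lit 100, nat_lit 100, nat_lit 27, nat_lit 10000000000⟩, ⟨nat_lit 0, nat_lit 100, nat_lit 100, nat_lit 26, nat_lit 10000000000⟩]⟩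
noncomputable def p006_l235 : Lf2 := ⟨nat_lit 0, nat_lit 5, [nat_lit 4, nat_lit 5, nat_lit 5, nat_lit 20], true, nat_lit 0, nat_lit 0, nat_lit 0, nat_lit 0, ⟨nat_lit 0, nat_lit 0, nat_lit 1000, nat_lit 5, nat_lit 47, nat_lit 0, nat_lit 0, nat_lit 0, nat_lit 0, nat_lit 215, nat_lit 20417, nat_lit 250, nat_lit 66101072, nat_lit 0, nat_lit 0, nat_lit 355730, false, false⟩,
 nat_lit 0, nat_lit 8844, nat_lit 0, nat_lit 0, nat_lit 4386, nat_lit 0, nat_lit 0, nat_lit 0, nat_lit 0, nat_lit 0, nat_lit 0, nat_lit 0, nat_lit 0, nat_lit 0, nat_lit 115, nat_lit 1000000, nat_lit 0, nat_lit 0, [(nat_lit 3, [(nat_lit 6, nat_lit 1000)])],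
 ⟨p006_k1, nat_lit 0, nat_lit 0, nat_lit 0, nat_lit 0, nat_lit 56500, [nat_lit 3007028572, nat_lit 2237600001, nat_lit 23600000], [], [nat_lit 14298399634, nat_lit 14355807552, nat_lit 14014767160, nat_lit 14070487984], nat_lit 1271250, nat_lit 1271250, nat_lit 21650, nat_lit 43600, nat_lit 0, nat_lit 0, [nat_lit 1271250, nat_lit 1271250, nat_lit 1271250], [nat_lit 103, nat_lit 40, nat_lit 20, nat_lit 40]⟩, C1.Rw.none,
 ⟨nat_lit 6557, nat_lit 6577, ⟨.ofNat (nat_lit 111370), .ofNat (nat_lit 119847), .ofNat (nat_lit 112441), .ofNat (nat_lit 120918), .ofNat (nat_lit 112324), .ofNat (nat_lit 120782), .ofNat (nat_lit 113394), .ofNat (nat_lit 121852)⟩, ⟨.ofNat (nat_lit 0), .ofNat (nat_lit 0), .ofNat (nat_lit 0), .ofNat (nat_lit 0), .ofNat (nat_lit 0), .ofNat (nat_lit 0), .ofNat (nat_lit 0), .ofNat (nat_lit 0)⟩⟩, [⟨nat_lit 0, nat_lit 100, nat_lit 100, nat_lit 27, nat_lit 463554149⟩]⟩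
noncomputable def p006_l236 : Lf2 := ⟨nat_lit 0, nat_lit 5, [nat_lit 4, nat_lit 5, nat_lit 5, nat_lit 20], true, nat_lit 0, nat_lit 0, nat_lit 0, nat_lit 0, ⟨nat_lit 0, nat_lit 0, nat_lit 1000, nat_lit 5, nat_lit 47, nat_lit 0, nat_lit 0, nat_lit 0, nat_lit 0, nat_lit 215, nat_lit 20417, nat_lit 250, nat_lit 66084723, nat_lit 0, nat_lit 0, nat_lit 360966, false, false⟩,
 nat_lit 0, nat_lit 7146, nat_lit 0, nat_lit 0, nat_lit 3544, nat_lit 0, nat_lit 0, nat_lit 0, nat_lit 59, nat_lit 0, nat_lit 0, nat_lit 0, nat_lit 0, nat_lit 0, nat_lit 115, nat_lit 1000000, nat_lit 0, nat_lit 0, [(nat_lit 3, [(nat_lit 6, nat_lit 1000)])],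
 ⟨p006_k1, nat_lit 0, nat_lit 0, nat_lit 0, nat_lit 0, nat_lit 60828, [nat_lit 3007028572, nat_lit 2237600001, nat_lit 23600000], [], [nat_lit 11892105116, nat_lit 11945078927, nat_lit 11669405620, nat_lit 11722418574], nat_lit 1271250, nat_lit 1271250, nat_lit 21650, nat_lit 43600, nat_lit 0, nat_lit 0, [nat_lit 1271250, nat_lit 1271250, nat_lit 1271250], [nat_lit 103, nat_lit 40, nat_lit 20, nat_lit 40]⟩, C1.Rw.none,
 ⟨nat_lit 6557, nat_lit 6577, ⟨.ofNat (nat_lit 112441), .ofNat (nat_lit 120918), .ofNat (nat_lit 113511), .ofNat (nat_lit 121988), .ofNat (nat_lit 113394), .ofNat (nat_lit 121852), .ofNat (nat_lit 114464), .ofNat (nat_lit 122922)⟩, ⟨.ofNat (nat_lit 0), .ofNat (nat_lit 0), .ofNat (nat_lit 0), .ofNat (nat_lit 0), .ofNat (nat_lit 0), .ofNat (nat_lit 0), .ofNat (nat_lit 0), .ofNat (nat_lit 0)⟩⟩, [⟨nat_lit 0, nat_lit 100, nat_lit 100, nat_lit 27, nat_lit 385175181⟩]⟩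
noncomputable def p006_l237 : Lf2 := ⟨nat_lit 2, nat_lit 5, [nat_lit 4, nat_lit 5, nat_lit 5, nat_lit 20], true, nat_lit 0, nat_lit 0, nat_lit 0, nat_lit 0, zbN0,
 nat_lit 0, nat_lit 0, nat_lit 0, nat_lit 0, nat_lit 0, nat_lit 0, nat_lit 0, nat_lit 0, nat_lit 0, nat_lit 0, nat_lit 0, nat_lit 0, nat_lit 0, nat_lit 0, nat_lit 0, nat_lit 0, nat_lit 0, nat_lit 0, [],
 ⟨p006_k80, nat_lit 0, nat_lit 0, nat_lit 0, nat_lit 0, nat_lit 60828, [], [], [], nat_lit 1271250, nat_lit 1271250, nat_lit 21650, nat_lit 43600, nat_lit 0, nat_lit 0, [nat_lit 780000, nat_lit 1100000, nat_lit 1442500, nat_lit 1271250, nat_lit 1271250], [nat_lit 167, nat_lit 10, nat_lit 4, nat_lit 20]⟩, C1.Rw.none,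
 zbF0, []⟩
noncomputable def p006_l238 : Lf2 := ⟨nat_lit 0, nat_lit 5, [nat_lit 4, nat_lit 5, nat_lit 5, nat_lit 20], true, nat_lit 0, nat_lit 0, nat_lit 0, nat_lit 0, ⟨nat_lit 0, nat_lit 0, nat_lit 1000, nat_lit 5, nat_lit 47, nat_lit 0, nat_lit 0, nat_lit 0, nat_lit 0, nat_lit 215, nat_lit 20417, nat_lit 250, nat_lit 66084723, nat_lit 0, nat_lit 0, nat_lit 360966, false, false⟩,
 nat_lit 0, nat_lit 100000, nat_lit 0, nat_lit 0, nat_lit 49599, nat_lit 0, nat_lit 7793, nat_lit 92, nat_lit 0, nat_lit 0, nat_lit 0, nat_lit 0, nat_lit 0, nat_lit 0, nat_lit 0, nat_lit 400000, nat_lit 14651697481, nat_lit 0, [(nat_lit 3, [(nat_lit 5, nat_lit 1000)])],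
 ⟨p006_k2, nat_lit 0, nat_lit 0, nat_lit 0, nat_lit 0, nat_lit 60828, [nat_lit 1851600001, nat_lit 2295600000, nat_lit 1801600000, nat_lit 898000000], [], [nat_lit 2998734214, nat_lit 3282291365, nat_lit 0, nat_lit 196655694], nat_lit 1271250, nat_lit 1271250, nat_lit 21650, nat_lit 43600, nat_lit 0, nat_lit 0, [nat_lit 631250, nat_lit 1271250, nat_lit 1271250, nat_lit 1271250], [nat_lit 91, nat_lit 40, nat_lit 20, nat_lit 40]⟩, C1.Rw.none,
 ⟨nat_lit 6557, nat_lit 6577, ⟨.ofNat (nat_lit 112441), .ofNat (nat_lit 120918), .ofNat (nat_lit 113511), .ofNat (nat_lit 121988), .ofNat (nat_lit 113394), .ofNat (nat_lit 121852), .ofNat (nat_lit 114464), .ofNat (nat_lit 122922)⟩, ⟨.ofNat (nat_lit 0), .ofNat (nat_lit 0), .ofNat (nat_lit 0), .ofNat (nat_lit 0), .ofNat (nat_lit 0), .ofNat (nat_lit 0), .ofNat (nat_lit 0), .ofNat (nat_lit 0)⟩⟩, [⟨nat_lit 0, nat_lit 100, nat_lit 100, nat_lit 27, nat_lit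 3966465205⟩]⟩
noncomputable def p006_l239 : Lf2 := ⟨nat_lit 0, nat_lit 5, [nat_lit 4, nat_lit 5, nat_lit 5, nat_lit 20], true, nat_lit 0, nat_lit 0, nat_lit 0, nat_lit 0, ⟨nat_lit 0, nat_lit 0, nat_lit 1000, nat_lit 5, nat_lit 47, nat_lit 0, nat_lit 0, nat_lit 0, nat_lit 0, nat_lit 215, nat_lit 20417, nat_lit 250, nat_lit 66084723, nat_lit 0, nat_lit 0, nat_lit 360966, false, false⟩,
 nat_lit 0, nat_lit 100000, nat_lit 0, nat_lit 0, nat_lit 49599, nat_lit 0, nat_lit 7793, nat_lit 92, nat_lit 0, nat_lit 0, nat_lit 0, nat_lit 0, nat_lit 0, nat_lit 0, nat_lit 0, nat_lit 400000, nat_lit 14651697481, nat_lit 0, [(nat_lit 3, [(nat_lit 5, nat_lit 1000)])],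
 ⟨p006_k2, nat_lit 0, nat_lit 0, nat_lit 0, nat_lit 0, nat_lit 60828, [nat_lit 1851600001, nat_lit 2295600000, nat_lit 1801600000, nat_lit 898000000], [], [nat_lit 2998734214, nat_lit 3282291365, nat_lit 0, nat_lit 196655694], nat_lit 1271250, nat_lit 1271250, nat_lit 21650, nat_lit 43600, nat_lit 0, nat_lit 0, [nat_lit 631250, nat_lit 1271250, nat_lit 1271250, nat_lit 1271250], [nat_lit 91, nat_lit 40, nat_lit 20, nat_lit 40]⟩, C1.Rw.none,
 ⟨nat_lit 6557, nat_lit 6577, ⟨.ofNat (nat_lit 112441), .ofNat (nat_lit 120918), .ofNat (nat_lit 113511), .ofNat (nat_lit 121988), .ofNat (nat_lit 113394), .ofNat (nat_lit 121852), .ofNat (nat_lit 114464), .ofNat (nat_lit 122922)⟩, ⟨.ofNat (nat_lit 0), .ofNat (nat_lit 0), .ofNat (nat_lit 0), .ofNat (nat_lit 0), .ofNat (nat_lit 0), .ofNat (nat_lit 0), .ofNat (nat_lit 0), .ofNat (nat_lit 0)⟩⟩, [⟨nat_lit 0, nat_lit 100, nat_lit 100, nat_lit 27, nat_lit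 3966465205⟩]⟩
noncomputable def p006_l240 : Lf2 := ⟨nat_lit 0, nat_lit 5, [nat_lit 4, nat_lit 5, nat_lit 5, nat_lit 20], false, nat_lit 0, nat_lit 0, nat_lit 0, nat_lit 0, ⟨nat_lit 0, nat_lit 0, nat_lit 1000, nat_lit 5, nat_lit 47, nat_lit 0, nat_lit 0, nat_lit 0, nat_lit 0, nat_lit 215, nat_lit 20417, nat_lit 250, nat_lit 66084723, nat_lit 0, nat_lit 0, nat_lit 360966, false, false⟩,
 nat_lit 100000, nat_lit 100000, nat_lit 100000, nat_lit 100000, nat_lit 99198, nat_lit 98689, nat_lit 40049, nat_lit 4501, nat_lit 0, nat_lit 60000, nat_lit 4456, nat_lit 0, nat_lit 0, nat_lit 0, nat_lit 0, nat_lit 400000, nat_lit 0, nat_lit 0, [(nat_lit 3, [(nat_lit 5, nat_lit 1000)])],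
 ⟨p006_k3, nat_lit 0, nat_lit 0, nat_lit 0, nat_lit 0, nat_lit 60828, [nat_lit 91590400001, nat_lit 107286400000, nat_lit 124350000000], [], [nat_lit 127166928444, nat_lit 127863134209, nat_lit 120154746089, nat_lit 120498941562], nat_lit 1271250, nat_lit 1271250, nat_lit 21650, nat_lit 43600, nat_lit 0, nat_lit 0, [nat_lit 1412500, nat_lit 1271250, nat_lit 1271250], [nat_lit 25, nat_lit 40, nat_lit 20, nat_lit 80]⟩, ⟨p006_k79, nat_lit 0, nat_lit 0, nat_lit 0, nat_lit 0, nat_lit 61166, [nat_lit 89120000000, nat_lit 106944000000, nat_lit 124768000000], [], [nat_lit 81053561853, nat_lit 81522585273, nat_lit 75266107217, nat_lit 75567882389], nat_lit 1271250, nat_lit 1271250, nat_lit 21650, nat_lit 43600, nat_lit 0, nat_lit 0, [nat_lit 1412500, nat_lit 1271250, nat_lit 1271250], [nat_lit 25, nat_lit 40, nat_lit 20, nat_lit 80]⟩,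
 ⟨nat_lit 6557, nat_lit 6577, ⟨.ofNat (nat_lit 112441), .ofNat (nat_lit 120918), .ofNat (nat_lit 113511), .ofNat (nat_lit 121988), .ofNat (nat_lit 113394), .ofNat (nat_lit 121852), .ofNat (nat_lit 114464), .ofNat (nat_lit 122922)⟩, ⟨.ofNat (nat_lit 0), .ofNat (nat_lit 0), .ofNat (nat_lit 0), .ofNat (nat_lit 0), .ofNat (nat_lit 0), .ofNat (nat_lit 0), .ofNat (nat_lit 0), .ofNat (nat_lit 0)⟩⟩, [⟨nat_lit 0, nat_lit 100, nat_lit 100, nat_lit 27, nat_lit 10000000000⟩, ⟨nat_lit 0, nat_lit 100, nat_lit 100, nat_lit 27, nat_lit 10000000000⟩, ⟨nat_lit 0, nat_lit 100, nat_lit 100, nat_lit 26, nat_lit 10000000000⟩, ⟨nat_lit 13, nat_lit 100, nat_lit 1, nat_lit 100, nat_lit 251031491⟩]⟩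
noncomputable def p006_l241 : Lf2 := ⟨nat_lit 0, nat_lit 5, [nat_lit 4, nat_lit 5, nat_lit 5, nat_lit 20], true, nat_lit 0, nat_lit 0, nat_lit 0, nat_lit 0, ⟨nat_lit 0, nat_lit 0, nat_lit 1000, nat_lit 5, nat_lit 48, nat_lit 0, nat_lit 0, nat_lit 0, nat_lit 0, nat_lit 215, nat_lit 21600, nat_lit 251, nat_lit 66068233, nat_lit 0, nat_lit 0, nat_lit 366226, false, false⟩,
 nat_lit 0, nat_lit 5039, nat_lit 0, nat_lit 0, nat_lit 2499, nat_lit 0, nat_lit 0, nat_lit 0, nat_lit 143, nat_lit 0, nat_lit 0, nat_lit 0, nat_lit 0, nat_lit 17173196323445, nat_lit 110, nat_lit 945400, nat_lit 0, nat_lit 0, [(nat_lit 3, [(nat_lit 5, nat_lit 91), (nat_lit 6, nat_lit 909)])],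
 ⟨p006_k1, nat_lit 0, nat_lit 0, nat_lit 0, nat_lit 0, nat_lit 65155, [nat_lit 2960374732, nat_lit 2133970001, nat_lit 21774400], [], [nat_lit 8742130144, nat_lit 8791679846, nat_lit 8597216560, nat_lit 8647747354], nat_lit 1271250, nat_lit 1271250, nat_lit 21650, nat_lit 43600, nat_lit 0, nat_lit 0, [nat_lit 1271250, nat_lit 1271250, nat_lit 1271250], [nat_lit 103, nat_lit 40, nat_lit 20, nat_lit 40]⟩, C1.Rw.none,
 ⟨nat_lit 6557, nat_lit 6577, ⟨.ofNat (nat_lit 113511), .ofNat (nat_lit 121988), .ofNat (nat_lit 114581), .ofNat (nat_lit 123059), .ofNat (nat_lit 114464), .ofNat (nat_lit 122922), .ofNat (nat_lit 115535), .ofNat (nat_lit 123992)⟩, ⟨.ofNat (nat_lit 0), .ofNat (nat_lit 0), .ofNat (nat_lit 0), .ofNat (nat_lit 0), .ofNat (nat_lit 0), .ofNat (nat_lit 0), .ofNat (nat_lit 0), .ofNat (nat_lit 0)⟩⟩, [⟨nat_lit 0, nat_lit 100, nat_lit 100, nat_lit 28, nat_lit 288257294⟩]⟩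
noncomputable def p006_l242 : Lf2 := ⟨nat_lit 0, nat_lit 5, [nat_lit 4, nat_lit 5, nat_lit 5, nat_lit 20], true, nat_lit 0, nat_lit 0, nat_lit 0, nat_lit 0, ⟨nat_lit 0, nat_lit 0, nat_lit 1000, nat_lit 5, nat_lit 48, nat_lit 0, nat_lit 0, nat_lit 0, nat_lit 0, nat_lit 215, nat_lit 21600, nat_lit 251, nat_lit 66068233, nat_lit 0, nat_lit 0, nat_lit 366226, false, false⟩,
 nat_lit 0, nat_lit 100000, nat_lit 0, nat_lit 0, nat_lit 49599, nat_lit 0, nat_lit 7098, nat_lit 53, nat_lit 0, nat_lit 0, nat_lit 0, nat_lit 0, nat_lit 0, nat_lit 0, nat_lit 62, nat_lit 1000000, nat_lit 16131159980, nat_lit 0, [(nat_lit 3, [(nat_lit 6, nat_lit 1000)])],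
 ⟨p006_k2, nat_lit 0, nat_lit 0, nat_lit 0, nat_lit 0, nat_lit 65155, [nat_lit 1742533334, nat_lit 2935066667, nat_lit 2237600001, nat_lit 23600000], [], [nat_lit 3006542546, nat_lit 3290099697, nat_lit 0, nat_lit 201976233], nat_lit 1271250, nat_lit 1271250, nat_lit 21650, nat_lit 43600, nat_lit 0, nat_lit 0, [nat_lit 631250, nat_lit 1271250, nat_lit 1271250, nat_lit 1271250], [nat_lit 91, nat_lit 40, nat_lit 20, nat_lit 40]⟩, C1.Rw.none,
 ⟨nat_lit 6557, nat_lit 6577, ⟨.ofNat (nat_lit 113511), .ofNat (nat_lit 121988), .ofNat (nat_lit 114581), .ofNat (nat_lit 123059), .ofNat (nat_lit 114464), .ofNat (nat_lit 122922), .ofNat (nat_lit 115535), .ofNat (nat_lit 123992)⟩, ⟨.ofNat (nat_lit 0), .ofNat (nat_lit 0), .ofNat (nat_lit 0), .ofNat (nat_lit 0), .ofNat (nat_lit 0), .ofNat (nat_lit 0), .ofNat (nat_lit 0), .ofNat (nat_lit 0)⟩⟩, [⟨nat_lit 0, nat_lit 100, nat_lit 100, nat_lit 28, nat_lit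 3967274793⟩]⟩
noncomputable def p006_l243 : Lf2 := ⟨nat_lit 0, nat_lit 5, [nat_lit 4, nat_lit 5, nat_lit 5, nat_lit 20], true, nat_lit 0, nat_lit 0, nat_lit 0, nat_lit 0, ⟨nat_lit 0, nat_lit 0, nat_lit 1000, nat_lit 5, nat_lit 48, nat_lit 0, nat_lit 0, nat_lit 0, nat_lit 0, nat_lit 215, nat_lit 21600, nat_lit 251, nat_lit 66068233, nat_lit 0, nat_lit 0, nat_lit 366226, false, false⟩,
 nat_lit 0, nat_lit 100000, nat_lit 0, nat_lit 0, nat_lit 49599, nat_lit 0, nat_lit 7098, nat_lit 53, nat_lit 0, nat_lit 0, nat_lit 0, nat_lit 0, nat_lit 0, nat_lit 0, nat_lit 62, nat_lit 1000000, nat_lit 16131159980, nat_lit 0, [(nat_lit 3, [(nat_lit 6, nat_lit 1000)])],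
 ⟨p006_k2, nat_lit 0, nat_lit 0, nat_lit 0, nat_lit 0, nat_lit 65155, [nat_lit 1742533334, nat_lit 2935066667, nat_lit 2237600001, nat_lit 23600000], [], [nat_lit 3006542546, nat_lit 3290099697, nat_lit 0, nat_lit 201976233], nat_lit 1271250, nat_lit 1271250, nat_lit 21650, nat_lit 43600, nat_lit 0, nat_lit 0, [nat_lit 631250, nat_lit 1271250, nat_lit 1271250, nat_lit 1271250], [nat_lit 91, nat_lit 40, nat_lit 20, nat_lit 40]⟩, C1.Rw.none,
 ⟨nat_lit 6557, nat_lit 6577, ⟨.ofNat (nat_lit 113511), .ofNat (nat_lit 121988), .ofNat (nat_lit 114581), .ofNat (nat_lit 123059), .ofNat (nat_lit 114464), .ofNat (nat_lit 122922), .ofNat (nat_lit 115535), .ofNat (nat_lit 123992)⟩, ⟨.ofNat (nat_lit 0), .ofNat (nat_lit 0), .ofNat (nat_lit 0), .ofNat (nat_lit 0), .ofNat (nat_lit 0), .ofNat (nat_lit 0), .ofNat (nat_lit 0), .ofNat (nat_lit 0)⟩⟩, [⟨nat_lit 0, nat_lit 100, nat_lit 100, nat_lit 28, nat_lit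 3967274793⟩]⟩
noncomputable def p006_l244 : Lf2 := ⟨nat_lit 0, nat_lit 5, [nat_lit 4, nat_lit 5, nat_lit 5, nat_lit 20], false, nat_lit 0, nat_lit 0, nat_lit 0, nat_lit 0, ⟨nat_lit 0, nat_lit 0, nat_lit 1000, nat_lit 5, nat_lit 48, nat_lit 0, nat_lit 0, nat_lit 0, nat_lit 0, nat_lit 215, nat_lit 21600, nat_lit 251, nat_lit 66068233, nat_lit 0, nat_lit 0, nat_lit 366226, false, false⟩,
 nat_lit 100000, nat_lit 100000, nat_lit 100000, nat_lit 100000, nat_lit 99198, nat_lit 99198, nat_lit 41067, nat_lit 4554, nat_lit 0, nat_lit 60000, nat_lit 4479, nat_lit 0, nat_lit 0, nat_lit 400000000000000, nat_lit 0, nat_lit 1000000, nat_lit 0, nat_lit 0, [(nat_lit 3, [(nat_lit 6, nat_lit 1000)])],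
 ⟨p006_k3, nat_lit 0, nat_lit 0, nat_lit 0, nat_lit 0, nat_lit 65155, [nat_lit 92121142858, nat_lit 108035600001, nat_lit 124315600000], [], [nat_lit 126920749055, nat_lit 127520310500, nat_lit 120956225187, nat_lit 121556163583], nat_lit 1271250, nat_lit 1271250, nat_lit 21650, nat_lit 43600, nat_lit 0, nat_lit 0, [nat_lit 1412500, nat_lit 1271250, nat_lit 1271250], [nat_lit 25, nat_lit 40, nat_lit 20, nat_lit 80]⟩, ⟨p006_k3, nat_lit 0, nat_lit 0, nat_lit 0, nat_lit 0, nat_lit 65155, [nat_lit 89580000000, nat_lit 107496000000, nat_lit 125412000000], [], [nat_lit 79827386218, nat_lit 80298828681, nat_lit 73842324492, nat_lit 74306229886], nat_lit 1271250, nat_lit 1271250, nat_lit 21650, nat_lit 43600, nat_lit 0, nat_lit 0, [nat_lit 1412500, nat_lit 1271250, nat_lit 1271250], [nat_lit 25, nat_lit 40, nat_lit 20, nat_lit 80]⟩,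
 ⟨nat_lit 6557, nat_lit 6577, ⟨.ofNat (nat_lit 113511), .ofNat (nat_lit 121988), .ofNat (nat_lit 114581), .ofNat (nat_lit 123059), .ofNat (nat_lit 114464), .ofNat (nat_lit 122922), .ofNat (nat_lit 115535), .ofNat (nat_lit 123992)⟩, ⟨.ofNat (nat_lit 0), .ofNat (nat_lit 0), .ofNat (nat_lit 0), .ofNat (nat_lit 0), .ofNat (nat_lit 0), .ofNat (nat_lit 0), .ofNat (nat_lit 0), .ofNat (nat_lit 0)⟩⟩, [⟨nat_lit 0, nat_lit 100, nat_lit 100, nat_lit 28, nat_lit 10000000000⟩, ⟨nat_lit 0, nat_lit 100, nat_lit 100, nat_lit 28, nat_lit 10000000000⟩, ⟨nat_lit 0, nat_lit 100, nat_lit 100, nat_lit 27, nat_lit 10000000000⟩]⟩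
noncomputable def p006_l245 : Lf2 := ⟨nat_lit 2, nat_lit 5, [nat_lit 4, nat_lit 5, nat_lit 5, nat_lit 20], true, nat_lit 0, nat_lit 0, nat_lit 0, nat_lit 0, zbN0,
 nat_lit 0, nat_lit 0, nat_lit 0, nat_lit 0, nat_lit 0, nat_lit 0, nat_lit 0, nat_lit 0, nat_lit 0, nat_lit 0, nat_lit 0, nat_lit 0, nat_lit 0, nat_lit 0, nat_lit 0, nat_lit 0, nat_lit 0, nat_lit 0, [],
 ⟨p006_k80, nat_lit 0, nat_lit 0, nat_lit 0, nat_lit 0, nat_lit 65155, [], [], [], nat_lit 1271250, nat_lit 1271250, nat_lit 21650, nat_lit 43600, nat_lit 0, nat_lit 0, [nat_lit 780000, nat_lit 1100000, nat_lit 1442500, nat_lit 1271250, nat_lit 1271250], [nat_lit 167, nat_lit 10, nat_lit 4, nat_lit 20]⟩, C1.Rw.none,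
 zbF0, []⟩
noncomputable def p006_l246 : Lf2 := ⟨nat_lit 0, nat_lit 5, [nat_lit 4, nat_lit 5, nat_lit 5, nat_lit 20], true, nat_lit 0, nat_lit 0, nat_lit 0, nat_lit 0, ⟨nat_lit 0, nat_lit 0, nat_lit 1000, nat_lit 5, nat_lit 48, nat_lit 0, nat_lit 0, nat_lit 0, nat_lit 0, nat_lit 215, nat_lit 21600, nat_lit 251, nat_lit 66068233, nat_lit 0, nat_lit 0, nat_lit 366226, false, false⟩,
 nat_lit 0, nat_lit 100000, nat_lit 0, nat_lit 0, nat_lit 49599, nat_lit 0, nat_lit 7793, nat_lit 92, nat_lit 0, nat_lit 0, nat_lit 0, nat_lit 0, nat_lit 0, nat_lit 0, nat_lit 0, nat_lit 400000, nat_lit 14651697481, nat_lit 0, [(nat_lit 3, [(nat_lit 5, nat_lit 1000)])],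
 ⟨p006_k2, nat_lit 0, nat_lit 0, nat_lit 0, nat_lit 0, nat_lit 65155, [nat_lit 1851600001, nat_lit 2295600000, nat_lit 1801600000, nat_lit 898000000], [], [nat_lit 2998734214, nat_lit 3282291365, nat_lit 0, nat_lit 196655694], nat_lit 1271250, nat_lit 1271250, nat_lit 21650, nat_lit 43600, nat_lit 0, nat_lit 0, [nat_lit 631250, nat_lit 1271250, nat_lit 1271250, nat_lit 1271250], [nat_lit 91, nat_lit 40, nat_lit 20, nat_lit 40]⟩, C1.Rw.none,
 ⟨nat_lit 6557, nat_lit 6577, ⟨.ofNat (nat_lit 113511), .ofNat (nat_lit 121988), .ofNat (nat_lit 114581), .ofNat (nat_lit 123059), .ofNat (nat_lit 114464), .ofNat (nat_lit 122922), .ofNat (nat_lit 115535), .ofNat (nat_lit 123992)⟩, ⟨.ofNat (nat_lit 0), .ofNat (nat_lit 0), .ofNat (nat_lit 0), .ofNat (nat_lit 0), .ofNat (nat_lit 0), .ofNat (nat_lit 0), .ofNat (nat_lit 0), .ofNat (nat_lit 0)⟩⟩, [⟨nat_lit 0, nat_lit 100, nat_lit 100, nat_lit 28, nat_lit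 3967274793⟩]⟩
noncomputable def p006_l247 : Lf2 := ⟨nat_lit 0, nat_lit 5, [nat_lit 4, nat_lit 5, nat_lit 5, nat_lit 20], true, nat_lit 0, nat_lit 0, nat_lit 0, nat_lit 0, ⟨nat_lit 0, nat_lit 0, nat_lit 1000, nat_lit 5, nat_lit 48, nat_lit 0, nat_lit 0, nat_lit 0, nat_lit 0, nat_lit 215, nat_lit 21600, nat_lit 251, nat_lit 66068233, nat_lit 0, nat_lit 0, nat_lit 366226, false, false⟩,
 nat_lit 0, nat_lit 100000, nat_lit 0, nat_lit 0, nat_lit 49599, nat_lit 0, nat_lit 7793, nat_lit 92, nat_lit 0, nat_lit 0, nat_lit 0, nat_lit 0, nat_lit 0, nat_lit 0, nat_lit 0, nat_lit 400000, nat_lit 14651697481, nat_lit 0, [(nat_lit 3, [(nat_lit 5, nat_lit 1000)])],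
 ⟨p006_k2, nat_lit 0, nat_lit 0, nat_lit 0, nat_lit 0, nat_lit 65155, [nat_lit 1851600001, nat_lit 2295600000, nat_lit 1801600000, nat_lit 898000000], [], [nat_lit 2998734214, nat_lit 3282291365, nat_lit 0, nat_lit 196655694], nat_lit 1271250, nat_lit 1271250, nat_lit 21650, nat_lit 43600, nat_lit 0, nat_lit 0, [nat_lit 631250, nat_lit 1271250, nat_lit 1271250, nat_lit 1271250], [nat_lit 91, nat_lit 40, nat_lit 20, nat_lit 40]⟩, C1.Rw.none,
 ⟨nat_lit 6557, nat_lit 6577, ⟨.ofNat (nat_lit 113511), .ofNat (nat_lit 121988), .ofNat (nat_lit 114581), .ofNat (nat_lit 123059), .ofNat (nat_lit 114464), .ofNat (nat_lit 122922), .ofNat (nat_lit 115535), .ofNat (nat_lit 123992)⟩, ⟨.ofNat (nat_lit 0), .ofNat (nat_lit 0), .ofNat (nat_lit 0), .ofNat (nat_lit 0), .ofNat (nat_lit 0), .ofNat (nat_lit 0), .ofNat (nat_lit 0), .ofNat (nat_lit 0)⟩⟩, [⟨nat_lit 0, nat_lit 100, nat_lit 100, nat_lit 28, nat_lit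 3967274793⟩]⟩
noncomputable def p006_l248 : Lf2 := ⟨nat_lit 0, nat_lit 5, [nat_lit 4, nat_lit 5, nat_lit 5, nat_lit 20], false, nat_lit 0, nat_lit 0, nat_lit 0, nat_lit 0, ⟨nat_lit 0, nat_lit 0, nat_lit 1000, nat_lit 5, nat_lit 48, nat_lit 0, nat_lit 0, nat_lit 0, nat_lit 0, nat_lit 215, nat_lit 21600, nat_lit 251, nat_lit 66068233, nat_lit 0, nat_lit 0, nat_lit 366226, false, false⟩,
 nat_lit 100000, nat_lit 100000, nat_lit 100000, nat_lit 100000, nat_lit 99198, nat_lit 99198, nat_lit 49298, nat_lit 4939, nat_lit 0, nat_lit 60000, nat_lit 4479, nat_lit 0, nat_lit 0, nat_lit 400000000000000, nat_lit 0, nat_lit 1000000, nat_lit 0, nat_lit 0, [(nat_lit 3, [(nat_lit 6, nat_lit 1000)])],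
 ⟨p006_k3, nat_lit 0, nat_lit 0, nat_lit 0, nat_lit 0, nat_lit 65155, [nat_lit 99821142858, nat_lit 117275600000, nat_lit 135095600000], [], [nat_lit 142320749055, nat_lit 142920310500, nat_lit 136633853678, nat_lit 136965448050], nat_lit 1271250, nat_lit 1271250, nat_lit 21650, nat_lit 43600, nat_lit 0, nat_lit 0, [nat_lit 1412500, nat_lit 1271250, nat_lit 1271250], [nat_lit 25, nat_lit 40, nat_lit 20, nat_lit 80]⟩, ⟨p006_k3, nat_lit 0, nat_lit 0, nat_lit 0, nat_lit 0, nat_lit 65155, [nat_lit 89580000000, nat_lit 107496000000, nat_lit 125412000000], [], [nat_lit 79827386218, nat_lit 80298828681, nat_lit 73842324492, nat_lit 74306229886], nat_lit 1271250, nat_lit 1271250, nat_lit 21650, nat_lit 43600, nat_lit 0, nat_lit 0, [nat_lit 1412500, nat_lit 1271250, nat_lit 1271250], [nat_lit 25, nat_lit 40, nat_lit 20, nat_lit 80]⟩,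
 ⟨nat_lit 6557, nat_lit 6577, ⟨.ofNat (nat_lit 113511), .ofNat (nat_lit 121988), .ofNat (nat_lit 114581), .ofNat (nat_lit 123059), .ofNat (nat_lit 114464), .ofNat (nat_lit 122922), .ofNat (nat_lit 115535), .ofNat (nat_lit 123992)⟩, ⟨.ofNat (nat_lit 0), .ofNat (nat_lit 0), .ofNat (nat_lit 0), .ofNat (nat_lit 0), .ofNat (nat_lit 0), .ofNat (nat_lit 0), .ofNat (nat_lit 0), .ofNat (nat_lit 0)⟩⟩, [⟨nat_lit 0, nat_lit 100, nat_lit 100, nat_lit 28, nat_lit 10000000000⟩, ⟨nat_lit 0, nat_lit 100, nat_lit 100, nat_lit 28, nat_lit 10000000000⟩, ⟨nat_lit 0, nat_lit 100, nat_lit 100, nat_lit 27, nat_lit 10000000000⟩]⟩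
noncomputable def p006_l249 : Lf2 := ⟨nat_lit 0, nat_lit 5, [nat_lit 4, nat_lit 5, nat_lit 5, nat_lit 20], false, nat_lit 0, nat_lit 0, nat_lit 0, nat_lit 0, ⟨nat_lit 0, nat_lit 0, nat_lit 1000, nat_lit 5, nat_lit 47, nat_lit 0, nat_lit 0, nat_lit 0, nat_lit 0, nat_lit 215, nat_lit 20417, nat_lit 250, nat_lit 66099193, nat_lit 0, nat_lit 0, nat_lit 356332, false, false⟩,
 nat_lit 100000, nat_lit 100000, nat_lit 0, nat_lit 0, nat_lit 98181, nat_lit 0, nat_lit 28014, nat_lit 4740, nat_lit 0, nat_lit 0, nat_lit 0, nat_lit 0, nat_lit 0, nat_lit 0, nat_lit 0, nat_lit 1000000, nat_lit 0, nat_lit 0, [(nat_lit 3, [(nat_lit 6, nat_lit 1000)])],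
 ⟨p006_k71, nat_lit 0, nat_lit 0, nat_lit 0, nat_lit 0, nat_lit 65884, [nat_lit 95841142858, nat_lit 112499600001, nat_lit 129523600000], [], [nat_lit 156491503747, nat_lit 158145545932, nat_lit 150085837013, nat_lit 150880367035], nat_lit 1271250, nat_lit 1271250, nat_lit 21650, nat_lit 43600, nat_lit 0, nat_lit 0, [nat_lit 1412500, nat_lit 1271250, nat_lit 1271250], [nat_lit 25, nat_lit 40, nat_lit 20, nat_lit 80]⟩, ⟨p006_k71, nat_lit 0, nat_lit 0, nat_lit 0, nat_lit 0, nat_lit 65884, [nat_lit 0, nat_lit 0, nat_lit 0], [], [nat_lit 0, nat_lit 0, nat_lit 0, nat_lit 0], nat_lit 1271250, nat_lit 1271250, nat_lit 21650, nat_lit 43600, nat_lit 0, nat_lit 0, [nat_lit 1412500, nat_lit 1271250, nat_lit 1271250], [nat_lit 25, nat_lit 40, nat_lit 20, nat_lit 80]⟩,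
 ⟨nat_lit 6557, nat_lit 6615, ⟨.ofNat (nat_lit 109456), .ofNat (nat_lit 117973), .ofNat (nat_lit 112669), .ofNat (nat_lit 121185), .ofNat (nat_lit 112324), .ofNat (nat_lit 120782), .ofNat (nat_lit 115535), .ofNat (nat_lit 123992)⟩, ⟨.ofNat (nat_lit 0), .ofNat (nat_lit 0), .ofNat (nat_lit 0), .ofNat (nat_lit 0), .ofNat (nat_lit 0), .ofNat (nat_lit 0), .ofNat (nat_lit 0), .ofNat (nat_lit 0)⟩⟩, [⟨nat_lit 0, nat_lit 100, nat_lit 100, nat_lit 28, nat_lit 9187920133⟩]⟩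
noncomputable def b_NL_550_550_0_31 : St := ⟨false, nat_lit 1, nat_lit 1, nat_lit 1, nat_lit 20, nat_lit 225, nat_lit 228, nat_lit 225, nat_lit 230, nat_lit 4, nat_lit 8, nat_lit 0, nat_lit 0, nat_lit 0, nat_lit 0, nat_lit 0, nat_lit 0, nat_lit 20, nat_lit 24, nat_lit 300, nat_lit 600, nat_lit 0, nat_lit 800⟩
theorem d_NL_550_550_0_31 (h : EB TB.env) : Dead b_NL_550_550_0_31 := chkB_sound0 h (T :=
(.ord (.spl (nat_lit 7) (nat_lit 460)
(.spl (nat_lit 7) (nat_lit 380)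
(.leaf p006_l227)
(.spl (nat_lit 0) (nat_lit 227)
(.ord (.spl (nat_lit 0) (nat_lit 226)
(.ord (.leaf p006_l228))
(.spl (nat_lit 1) (nat_lit 226)
(.leaf p006_l229)
(.spl (nat_lit 7) (nat_lit 420)
(.leaf p006_l230)
(.spl (nat_lit 7) (nat_lit 440)
(.leaf p006_l231)
(.spl (nat_lit 8) (nat_lit 400)
(.leaf p006_l232)
(.spl (nat_lit 8) (nat_lit 600)
(.leaf p006_l233)
(.leaf p006_l234))))))))
(.spl (nat_lit 1) (nat_lit 227)
(.spl (nat_lit 1) (nat_lit 226)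
(.leaf p006_l235)
(.spl (nat_lit 7) (nat_lit 420)
(.leaf p006_l236)
(.spl (nat_lit 7) (nat_lit 440)
(.leaf p006_l237)
(.spl (nat_lit 8) (nat_lit 400)
(.leaf p006_l238)
(.spl (nat_lit 8) (nat_lit 600)
(.leaf p006_l239)
(.leaf p006_l240))))))
(.spl (nat_lit 7) (nat_lit 420)
(.spl (nat_lit 7) (nat_lit 400)
(.leaf p006_l241)
(.spl (nat_lit 8) (nat_lit 400)
(.leaf p006_l242)
(.spl (nat_lit 8) (nat_lit 600)
(.leaf p006_l243)
(.leaf p006_l244))))
(.spl (nat_lit 7) (nat_lit 440)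
(.leaf p006_l245)
(.spl (nat_lit 8) (nat_lit 400)
(.leaf p006_l246)
(.spl (nat_lit 8) (nat_lit 600)
(.leaf p006_l247)
(.leaf p006_l248))))))))
(.leaf p006_l249)))) (by decide +kernel)

end B2
end Pool.Agent.Lib.MP_6947cd_al
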