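import Pool.Agent.Lib.MP_6947cd_al.ZB.Pre

/-!
Problem MP_6947cd_al (Chollet).  Case B, second entry in [2/5, 17/20]: certificates of the tree, part P007 (generated).
-/

set_option autoImplicit false
set_option linter.all false

namespace Pool.Agent.Lib.MP_6947cd_al
namespace B2

open Ent Fr B1 PkA

noncomputable def p007_k0 : C1.Kn := ⟨[nat_lit 90, nat_lit 110, nat_lit 140], [nat_lit 0, nat_lit 102, nat_lit 871], [(nat_lit 0, nat_lit 0, nat_lit 0), (nat_lit 1000, nat_lit 992, nat_lit 80), (nat_lit 977, nat_lit 1000, nat_lit 390)], (nat_lit 100, nat_lit 96, nat_lit 44)⟩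
noncomputable def p007_k1 : C1.Kn := ⟨[nat_lit 50, nat_lit 90, nat_lit 110, nat_lit 140], [nat_lit 0, nat_lit 0, nat_lit 102, nat_lit 871], [(nat_lit 0, nat_lit 0, nat_lit 0), (nat_lit 0, nat_lit 0, nat_lit 0), (nat_lit 1000, nat_lit 992, nat_lit 80), (nat_lit 977, nat_lit 1000, nat_lit 390)], (nat_lit 100, nat_lit 96, nat_lit 44)⟩
noncomputable def p007_k2 : C1.Kn := ⟨[nat_lit 100, nat_lit 120, nat_lit 140], [nat_lit 0, nat_lit 358, nat_lit 874], [(nat_lit 0, nat_lit 0, nat_lit 0), (nat_lit 1000, nat_lit 1000, nat_lit 279), (nat_lit 976, nat_lit 1000, nat_lit 393)], (nat_lit 100, nat_lit 96, nat_lit 44)⟩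
noncomputable def p007_k3 : C1.Kn := ⟨[nat_lit 100, nat_lit 120, nat_lit 140], [nat_lit 0, nat_lit 345, nat_lit 863], [(nat_lit 0, nat_lit 0, nat_lit 0), (nat_lit 1000, nat_lit 1000, nat_lit 270), (nat_lit 974, nat_lit 1000, nat_lit 394)], (nat_lit 100, nat_lit 96, nat_lit 44)⟩
noncomputable def p007_k4 : C1.Kn := ⟨[nat_lit 90, nat_lit 110, nat_lit 140], [nat_lit 0, nat_lit 114, nat_lit 885], [(nat_lit 0, nat_lit 0, nat_lit 0), (nat_lit 1000, nat_lit 991, nat_lit 89), (nat_lit 979, nat_lit 1000, nat_lit 392)], (nat_lit 100, nat_lit 96, nat_lit 44)⟩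
noncomputable def p007_k5 : C1.Kn := ⟨[nat_lit 60, nat_lit 80, nat_lit 100, nat_lit 130, nat_lit 140], [nat_lit 0, nat_lit 0, nat_lit 0, nat_lit 536, nat_lit 950], [(nat_lit 0, nat_lit 0, nat_lit 0), (nat_lit 0, nat_lit 0, nat_lit 0), (nat_lit 0, nat_lit 0, nat_lit 0), (nat_lit 1000, nat_lit 1000, nat_lit 279), (nat_lit 930, nat_lit 1000, nat_lit 520)], (nat_lit 100, nat_lit 96, nat_lit 44)⟩
noncomputable def p007_k6 : C1.Kn := ⟨[nat_lit 100, nat_lit 120, nat_lit 140], [nat_lit 0, nat_lit 332, nat_lit 852], [(nat_lit 0, nat_lit 0, nat_lit 0), (nat_lit 1000, nat_lit 1000, nat_lit 260), (nat_lit 972, nat_lit 1000, nat_lit 395)], (nat_lit 100, nat_lit 96, nat_lit 44)⟩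
noncomputable def p007_k7 : C1.Kn := ⟨[nat_lit 50, nat_lit 90, nat_lit 110, nat_lit 140], [nat_lit 0, nat_lit 0, nat_lit 114, nat_lit 885], [(nat_lit 0, nat_lit 0, nat_lit 0), (nat_lit 0, nat_lit 0, nat_lit 0), (nat_lit 1000, nat_lit 991, nat_lit 89), (nat_lit 979, nat_lit 1000, nat_lit 392)], (nat_lit 100, nat_lit 96, nat_lit 44)⟩
noncomputable def p007_k8 : C1.Kn := ⟨[nat_lit 100, nat_lit 120, nat_lit 140], [nat_lit 0, nat_lit 370, nat_lit 890], [(nat_lit 0, nat_lit 0, nat_lit 0), (nat_lit 1000, nat_lit 1000, nat_lit 289), (nat_lit 977, nat_lit 1000, nat_lit 397)], (nat_lit 100, nat_lit 96, nat_lit 44)⟩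
noncomputable def p007_k9 : C1.Kn := ⟨[nat_lit 90, nat_lit 110, nat_lit 140], [nat_lit 0, nat_lit 61, nat_lit 839], [(nat_lit 0, nat_lit 0, nat_lit 0), (nat_lit 1000, nat_lit 995, nat_lit 48), (nat_lit 970, nat_lit 1000, nat_lit 393)], (nat_lit 100, nat_lit 95, nat_lit 44)⟩
noncomputable def p007_k10 : C1.Kn := ⟨[nat_lit 90, nat_lit 110, nat_lit 140], [nat_lit 0, nat_lit 88, nat_lit 860], [(nat_lit 0, nat_lit 0, nat_lit 0), (nat_lit 1000, nat_lit 993, nat_lit 69), (nat_lit 975, nat_lit 1000, nat_lit 391)], (nat_lit 100, nat_lit 96, nat_lit 44)⟩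
noncomputable def p007_k11 : C1.Kn := ⟨[nat_lit 50, nat_lit 90, nat_lit 110, nat_lit 140], [nat_lit 0, nat_lit 0, nat_lit 88, nat_lit 860], [(nat_lit 0, nat_lit 0, nat_lit 0), (nat_lit 0, nat_lit 0, nat_lit 0), (nat_lit 1000, nat_lit 993, nat_lit 69), (nat_lit 975, nat_lit 1000, nat_lit 391)], (nat_lit 100, nat_lit 96, nat_lit 44)⟩
noncomputable def p007_k12 : C1.Kn := ⟨[nat_lit 60, nat_lit 80, nat_lit 100, nat_lit 130, nat_lit 140], [nat_lit 0, nat_lit 0, nat_lit 0, nat_lit 518, nat_lit 933], [(nat_lit 0, nat_lit 0, nat_lit 0), (nat_lit 0, nat_lit 0, nat_lit 0), (nat_lit 0, nat_lit 0, nat_lit 0), (nat_lit 1000, nat_lit 1000, nat_lit 270), (nat_lit 929, nat_lit 1000, nat_lit 515)], (nat_lit 100, nat_lit 96, nat_lit 44)⟩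
noncomputable def p007_k13 : C1.Kn := ⟨[nat_lit 100, nat_lit 120, nat_lit 140], [nat_lit 0, nat_lit 320, nat_lit 839], [(nat_lit 0, nat_lit 0, nat_lit 0), (nat_lit 1000, nat_lit 1000, nat_lit 250), (nat_lit 970, nat_lit 1000, nat_lit 393)], (nat_lit 100, nat_lit 95, nat_lit 44)⟩
noncomputable def p007_k14 : C1.Kn := ⟨[nat_lit 60, nat_lit 80, nat_lit 100, nat_lit 130, nat_lit 140], [nat_lit 0, nat_lit 0, nat_lit 0, nat_lit 555, nat_lit 967], [(nat_lit 0, nat_lit 0, nat_lit 0), (nat_lit 0, nat_lit 0, nat_lit 0), (nat_lit 0, nat_lit 0, nat_lit 0), (nat_lit 1000, nat_lit 1000, nat_lit 289), (nat_lit 931, nat_lit 1000, nat_lit 525)], (nat_lit 100, nat_lit 96, nat_lit 44)⟩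
noncomputable def p007_k15 : C1.Kn := ⟨[nat_lit 100, nat_lit 140], [nat_lit 0, nat_lit 740], [(nat_lit 0, nat_lit 0, nat_lit 0), (nat_lit 1000, nat_lit 1000, nat_lit 289)], (nat_lit 100, nat_lit 96, nat_lit 44)⟩
noncomputable def p007_k16 : C1.Kn := ⟨[nat_lit 100, nat_lit 140], [nat_lit 0, nat_lit 665], [(nat_lit 0, nat_lit 0, nat_lit 0), (nat_lit 1000, nat_lit 1000, nat_lit 260)], (nat_lit 100, nat_lit 96, nat_lit 44)⟩
noncomputable def p007_k17 : C1.Kn := ⟨[nat_lit 50, nat_lit 90, nat_lit 110, nat_lit 130], [nat_lit 0, nat_lit 0, nat_lit 129, nat_lit 640], [(nat_lit 0, nat_lit 0, nat_lit 0), (nat_lit 0, nat_lit 0, nat_lit 0), (nat_lit 1000, nat_lit 990, nat_lit 101), (nat_lit 981, nat_lit 1000, nat_lit 391)], (nat_lit 100, nat_lit 97, nat_lit 44)⟩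
noncomputable def p007_k18 : C1.Kn := ⟨[nat_lit 50, nat_lit 90, nat_lit 110, nat_lit 130], [nat_lit 0, nat_lit 0, nat_lit 166, nat_lit 678], [(nat_lit 0, nat_lit 0, nat_lit 0), (nat_lit 0, nat_lit 0, nat_lit 0), (nat_lit 1000, nat_lit 987, nat_lit 129), (nat_lit 986, nat_lit 1000, nat_lit 394)], (nat_lit 100, nat_lit 97, nat_lit 44)⟩
noncomputable def p007_k19 : C1.Kn := ⟨[nat_lit 50, nat_lit 90, nat_lit 110, nat_lit 130], [nat_lit 0, nat_lit 0, nat_lit 192, nat_lit 703], [(nat_lit 0, nat_lit 0, nat_lit 0), (nat_lit 0, nat_lit 0, nat_lit 0), (nat_lit 1000, nat_lit 985, nat_lit 150), (nat_lit 990, nat_lit 1000, nat_lit 395)], (nat_lit 100, nat_lit 98, nat_lit 44)⟩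
noncomputable def p007_k20 : C1.Kn := ⟨[nat_lit 50, nat_lit 90, nat_lit 110, nat_lit 130], [nat_lit 0, nat_lit 0, nat_lit 230, nat_lit 742], [(nat_lit 0, nat_lit 0, nat_lit 0), (nat_lit 0, nat_lit 0, nat_lit 0), (nat_lit 1000, nat_lit 982, nat_lit 179), (nat_lit 996, nat_lit 1000, nat_lit 398)], (nat_lit 100, nat_lit 98, nat_lit 44)⟩
noncomputable def p007_k21 : C1.Kn := ⟨[nat_lit 100, nat_lit 140], [nat_lit 0, nat_lit 766], [(nat_lit 0, nat_lit 0, nat_lit 0), (nat_lit 1000, nat_lit 1000, nat_lit 299)], (nat_lit 100, nat_lit 97, nat_lit 44)⟩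
noncomputable def p007_k22 : C1.Kn := ⟨[nat_lit 100, nat_lit 120, nat_lit 140], [nat_lit 0, nat_lit 448, nat_lit 962], [(nat_lit 0, nat_lit 0, nat_lit 0), (nat_lit 1000, nat_lit 1000, nat_lit 350), (nat_lit 990, nat_lit 1000, nat_lit 398)], (nat_lit 100, nat_lit 98, nat_lit 44)⟩
noncomputable def p007_k23 : C1.Kn := ⟨[nat_lit 100, nat_lit 120, nat_lit 140], [nat_lit 0, nat_lit 486, nat_lit 1002], [(nat_lit 0, nat_lit 0, nat_lit 0), (nat_lit 1000, nat_lit 999, nat_lit 375), (nat_lit 995, nat_lit 1000, nat_lit 401)], (nat_lit 100, nat_lit 98, nat_lit 44)⟩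
noncomputable def p007_k24 : C1.Kn := ⟨[nat_lit 50, nat_lit 90, nat_lit 110, nat_lit 130], [nat_lit 0, nat_lit 0, nat_lit 141, nat_lit 653], [(nat_lit 0, nat_lit 0, nat_lit 0), (nat_lit 0, nat_lit 0, nat_lit 0), (nat_lit 1000, nat_lit 989, nat_lit 110), (nat_lit 983, nat_lit 1000, nat_lit 393)], (nat_lit 100, nat_lit 97, nat_lit 44)⟩
noncomputable def p007_k25 : C1.Kn := ⟨[nat_lit 100, nat_lit 140], [nat_lit 0, nat_lit 792], [(nat_lit 0, nat_lit 0, nat_lit 0), (nat_lit 1000, nat_lit 1000, nat_lit 309)], (nat_lit 100, nat_lit 97, nat_lit 44)⟩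
noncomputable def p007_k26 : C1.Kn := ⟨[nat_lit 100, nat_lit 120, nat_lit 140], [nat_lit 0, nat_lit 499, nat_lit 1016], [(nat_lit 0, nat_lit 0, nat_lit 0), (nat_lit 1000, nat_lit 1000, nat_lit 388), (nat_lit 997, nat_lit 1000, nat_lit 403)], (nat_lit 100, nat_lit 99, nat_lit 44)⟩
noncomputable def p007_k27 : C1.Kn := ⟨[nat_lit 100, nat_lit 120, nat_lit 140], [nat_lit 0, nat_lit 473, nat_lit 991], [(nat_lit 0, nat_lit 0, nat_lit 0), (nat_lit 1000, nat_lit 999, nat_lit 367), (nat_lit 993, nat_lit 1000, nat_lit 402)], (nat_lit 100, nat_lit 98, nat_lit 44)⟩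
noncomputable def p007_k28 : C1.Kn := ⟨[nat_lit 50, nat_lit 90, nat_lit 110, nat_lit 130], [nat_lit 0, nat_lit 0, nat_lit 153, nat_lit 666], [(nat_lit 0, nat_lit 0, nat_lit 0), (nat_lit 0, nat_lit 0, nat_lit 0), (nat_lit 1000, nat_lit 988, nat_lit 119), (nat_lit 984, nat_lit 1000, nat_lit 395)], (nat_lit 100, nat_lit 97, nat_lit 44)⟩
noncomputable def p007_k29 : C1.Kn := ⟨[nat_lit 100, nat_lit 140], [nat_lit 0, nat_lit 817], [(nat_lit 0, nat_lit 0, nat_lit 0), (nat_lit 1000, nat_lit 1000, nat_lit 319)], (nat_lit 100, nat_lit 97, nat_lit 44)⟩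
noncomputable def p007_k30 : C1.Kn := ⟨[nat_lit 100, nat_lit 120, nat_lit 140], [nat_lit 0, nat_lit 460, nat_lit 979], [(nat_lit 0, nat_lit 0, nat_lit 0), (nat_lit 1000, nat_lit 999, nat_lit 357), (nat_lit 991, nat_lit 1000, nat_lit 402)], (nat_lit 100, nat_lit 98, nat_lit 44)⟩
noncomputable def p007_k31 : C1.Kn := ⟨[nat_lit 100, nat_lit 140], [nat_lit 0, nat_lit 843], [(nat_lit 0, nat_lit 0, nat_lit 0), (nat_lit 1000, nat_lit 1000, nat_lit 329)], (nat_lit 100, nat_lit 97, nat_lit 44)⟩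
noncomputable def p007_k32 : C1.Kn := ⟨[nat_lit 50, nat_lit 90, nat_lit 110, nat_lit 130], [nat_lit 0, nat_lit 0, nat_lit 180, nat_lit 690], [(nat_lit 0, nat_lit 0, nat_lit 0), (nat_lit 0, nat_lit 0, nat_lit 0), (nat_lit 1000, nat_lit 986, nat_lit 141), (nat_lit 989, nat_lit 1000, nat_lit 393)], (nat_lit 100, nat_lit 98, nat_lit 44)⟩
noncomputable def p007_k33 : C1.Kn := ⟨[nat_lit 100, nat_lit 140], [nat_lit 0, nat_lit 868], [(nat_lit 0, nat_lit 0, nat_lit 0), (nat_lit 1000, nat_lit 1000, nat_lit 339)], (nat_lit 100, nat_lit 98, nat_lit 44)⟩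
noncomputable def p007_k34 : C1.Kn := ⟨[nat_lit 90, nat_lit 110, nat_lit 130], [nat_lit 0, nat_lit 180, nat_lit 690], [(nat_lit 0, nat_lit 0, nat_lit 0), (nat_lit 1000, nat_lit 986, nat_lit 141), (nat_lit 989, nat_lit 1000, nat_lit 393)], (nat_lit 100, nat_lit 98, nat_lit 44)⟩
noncomputable def p007_k35 : C1.Kn := ⟨[nat_lit 100, nat_lit 120, nat_lit 140], [nat_lit 0, nat_lit 383, nat_lit 902], [(nat_lit 0, nat_lit 0, nat_lit 0), (nat_lit 1000, nat_lit 1000, nat_lit 299), (nat_lit 979, nat_lit 1000, nat_lit 397)], (nat_lit 100, nat_lit 97, nat_lit 44)⟩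
noncomputable def p007_k36 : C1.Kn := ⟨[nat_lit 100, nat_lit 140], [nat_lit 0, nat_lit 896], [(nat_lit 0, nat_lit 0, nat_lit 0), (nat_lit 1000, nat_lit 1000, nat_lit 350)], (nat_lit 100, nat_lit 98, nat_lit 44)⟩
noncomputable def p007_k37 : C1.Kn := ⟨[nat_lit 100, nat_lit 120, nat_lit 140], [nat_lit 0, nat_lit 254, nat_lit 778], [(nat_lit 0, nat_lit 0, nat_lit 0), (nat_lit 1000, nat_lit 1000, nat_lit 198), (nat_lit 960, nat_lit 1000, nat_lit 392)], (nat_lit 100, nat_lit 94, nat_lit 44)⟩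
noncomputable def p007_k38 : C1.Kn := ⟨[nat_lit 80, nat_lit 140], [nat_lit 0, nat_lit 0], [(nat_lit 0, nat_lit 0, nat_lit 0), (nat_lit 0, nat_lit 0, nat_lit 0)], (nat_lit 100, nat_lit 99, nat_lit 44)⟩
noncomputable def p007_k39 : C1.Kn := ⟨[nat_lit 120, nat_lit 180], [nat_lit 0, nat_lit 0], [(nat_lit 0, nat_lit 0, nat_lit 0), (nat_lit 0, nat_lit 0, nat_lit 0)], (nat_lit 100, nat_lit 81, nat_lit 44)⟩
noncomputable def p007_k40 : C1.Kn := ⟨[nat_lit 80, nat_lit 100, nat_lit 140], [nat_lit 0, nat_lit 0, nat_lit 1022], [(nat_lit 0, nat_lit 0, nat_lit 0), (nat_lit 0, nat_lit 0, nat_lit 0), (nat_lit 1000, nat_lit 1000, nat_lit 399)], (nat_lit 100, nat_lit 99, nat_lit 44)⟩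
noncomputable def p007_k41 : C1.Kn := ⟨[nat_lit 120, nat_lit 140, nat_lit 180], [nat_lit 0, nat_lit 0, nat_lit 1219], [(nat_lit 0, nat_lit 0, nat_lit 0), (nat_lit 0, nat_lit 0, nat_lit 0), (nat_lit 840, nat_lit 1000, nat_lit 400)], (nat_lit 100, nat_lit 81, nat_lit 44)⟩
noncomputable def p007_k42 : C1.Kn := ⟨[nat_lit 80, nat_lit 100, nat_lit 120], [nat_lit 0, nat_lit 132, nat_lit 640], [(nat_lit 0, nat_lit 0, nat_lit 0), (nat_lit 1000, nat_lit 979, nat_lit 103), (nat_lit 1000, nat_lit 979, nat_lit 397)], (nat_lit 99, nat_lit 100, nat_lit 44)⟩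
noncomputable def p007_k43 : C1.Kn := ⟨[nat_lit 80, nat_lit 100, nat_lit 120], [nat_lit 0, nat_lit 0, nat_lit 511], [(nat_lit 0, nat_lit 0, nat_lit 0), (nat_lit 0, nat_lit 0, nat_lit 0), (nat_lit 1000, nat_lit 997, nat_lit 383)], (nat_lit 100, nat_lit 100, nat_lit 40)⟩
noncomputable def p007_k44 : C1.Kn := ⟨[nat_lit 80, nat_lit 120], [nat_lit 0, nat_lit 264], [(nat_lit 0, nat_lit 0, nat_lit 0), (nat_lit 1000, nat_lit 979, nat_lit 103)], (nat_lit 99, nat_lit 100, nat_lit 44)⟩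
noncomputable def p007_k45 : C1.Kn := ⟨[nat_lit 80, nat_lit 100, nat_lit 120], [nat_lit 0, nat_lit 0, nat_lit 511], [(nat_lit 0, nat_lit 0, nat_lit 0), (nat_lit 0, nat_lit 0, nat_lit 0), (nat_lit 1000, nat_lit 997, nat_lit 383)], (nat_lit 98, nat_lit 100, nat_lit 28)⟩
noncomputable def p007_k46 : C1.Kn := ⟨[nat_lit 120, nat_lit 140, nat_lit 160], [nat_lit 0, nat_lit 0, nat_lit 609], [(nat_lit 0, nat_lit 0, nat_lit 0), (nat_lit 0, nat_lit 0, nat_lit 0), (nat_lit 840, nat_lit 1000, nat_lit 400)], (nat_lit 100, nat_lit 90, nat_lit 29)⟩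
noncomputable def p007_k47 : C1.Kn := ⟨[nat_lit 80, nat_lit 100, nat_lit 120], [nat_lit 0, nat_lit 132, nat_lit 640], [(nat_lit 0, nat_lit 0, nat_lit 0), (nat_lit 1000, nat_lit 979, nat_lit 103), (nat_lit 1000, nat_lit 979, nat_lit 397)], (nat_lit 97, nat_lit 100, nat_lit 28)⟩
noncomputable def p007_k48 : C1.Kn := ⟨[nat_lit 120, nat_lit 160], [nat_lit 0, nat_lit 533], [(nat_lit 0, nat_lit 0, nat_lit 0), (nat_lit 960, nat_lit 1000, nat_lit 200)], (nat_lit 100, nat_lit 86, nat_lit 44)⟩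
noncomputable def p007_k49 : C1.Kn := ⟨[nat_lit 80, nat_lit 120, nat_lit 140], [nat_lit 0, nat_lit 0, nat_lit 1164], [(nat_lit 0, nat_lit 0, nat_lit 0), (nat_lit 0, nat_lit 0, nat_lit 0), (nat_lit 941, nat_lit 1000, nat_lit 576)], (nat_lit 100, nat_lit 99, nat_lit 44)⟩
noncomputable def p007_k50 : C1.Kn := ⟨[nat_lit 120, nat_lit 140, nat_lit 160], [nat_lit 0, nat_lit 266, nat_lit 862], [(nat_lit 0, nat_lit 0, nat_lit 0), (nat_lit 960, nat_lit 1000, nat_lit 200), (nat_lit 874, nat_lit 1000, nat_lit 406)], (nat_lit 100, nat_lit 86, nat_lit 44)⟩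
noncomputable def p007_k51 : C1.Kn := ⟨[nat_lit 80, nat_lit 100], [nat_lit 0, nat_lit 0], [(nat_lit 0, nat_lit 0, nat_lit 0), (nat_lit 0, nat_lit 0, nat_lit 0)], (nat_lit 98, nat_lit 100, nat_lit 20)⟩
noncomputable def p007_k52 : C1.Kn := ⟨[nat_lit 80, nat_lit 90, nat_lit 100], [nat_lit 0, nat_lit 0, nat_lit 129], [(nat_lit 0, nat_lit 0, nat_lit 0), (nat_lit 0, nat_lit 0, nat_lit 0), (nat_lit 1000, nat_lit 980, nat_lit 192)], (nat_lit 98, nat_lit 100, nat_lit 20)⟩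
noncomputable def p007_k53 : C1.Kn := ⟨[nat_lit 120, nat_lit 140], [nat_lit 0, nat_lit 359], [(nat_lit 0, nat_lit 0, nat_lit 0), (nat_lit 947, nat_lit 1000, nat_lit 265)], (nat_lit 100, nat_lit 97, nat_lit 20)⟩
noncomputable def p007_k54 : C1.Kn := ⟨[nat_lit 120, nat_lit 140], [nat_lit 0, nat_lit 372], [(nat_lit 0, nat_lit 0, nat_lit 0), (nat_lit 946, nat_lit 1000, nat_lit 274)], (nat_lit 100, nat_lit 97, nat_lit 20)⟩
noncomputable def p007_k55 : C1.Kn := ⟨[nat_lit 120, nat_lit 140], [nat_lit 0, nat_lit 386], [(nat_lit 0, nat_lit 0, nat_lit 0), (nat_lit 943, nat_lit 1000, nat_lit 284)], (nat_lit 100, nat_lit 97, nat_lit 20)⟩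
noncomputable def p007_k56 : C1.Kn := ⟨[nat_lit 110, nat_lit 130], [nat_lit 0, nat_lit 116], [(nat_lit 0, nat_lit 0, nat_lit 0), (nat_lit 991, nat_lit 1000, nat_lit 90)], (nat_lit 100, nat_lit 97, nat_lit 20)⟩
noncomputable def p007_k57 : C1.Kn := ⟨[nat_lit 80, nat_lit 100], [nat_lit 0, nat_lit 11], [(nat_lit 0, nat_lit 0, nat_lit 0), (nat_lit 1000, nat_lit 998, nat_lit 9)], (nat_lit 98, nat_lit 100, nat_lit 20)⟩
noncomputable def p007_k58 : C1.Kn := ⟨[nat_lit 80, nat_lit 90, nat_lit 100], [nat_lit 0, nat_lit 5, nat_lit 135], [(nat_lit 0, nat_lit 0, nat_lit 0), (nat_lit 1000, nat_lit 998, nat_lit 9), (nat_lit 1000, nat_lit 979, nat_lit 190)], (nat_lit 98, nat_lit 100, nat_lit 20)⟩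
noncomputable def p007_k59 : C1.Kn := ⟨[nat_lit 80, nat_lit 100], [nat_lit 0, nat_lit 24], [(nat_lit 0, nat_lit 0, nat_lit 0), (nat_lit 1000, nat_lit 996, nat_lit 19)], (nat_lit 98, nat_lit 100, nat_lit 20)⟩
noncomputable def p007_k60 : C1.Kn := ⟨[nat_lit 80, nat_lit 100], [nat_lit 0, nat_lit 36], [(nat_lit 0, nat_lit 0, nat_lit 0), (nat_lit 1000, nat_lit 994, nat_lit 28)], (nat_lit 98, nat_lit 100, nat_lit 20)⟩
noncomputable def p007_k61 : C1.Kn := ⟨[nat_lit 80, nat_lit 90, nat_lit 100], [nat_lit 0, nat_lit 18, nat_lit 149], [(nat_lit 0, nat_lit 0, nat_lit 0), (nat_lit 1000, nat_lit 994, nat_lit 28), (nat_lit 1000, nat_lit 977, nat_lit 201)], (nat_lit 98, nat_lit 100, nat_lit 20)⟩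
noncomputable def p007_k62 : C1.Kn := ⟨[nat_lit 80, nat_lit 100, nat_lit 120], [nat_lit 0, nat_lit 36, nat_lit 550], [(nat_lit 0, nat_lit 0, nat_lit 0), (nat_lit 1000, nat_lit 994, nat_lit 28), (nat_lit 1000, nat_lit 993, nat_lit 397)], (nat_lit 98, nat_lit 100, nat_lit 28)⟩
noncomputable def p007_k63 : C1.Kn := ⟨[nat_lit 120, nat_lit 140], [nat_lit 0, nat_lit 399], [(nat_lit 0, nat_lit 0, nat_lit 0), (nat_lit 942, nat_lit 1000, nat_lit 293)], (nat_lit 100, nat_lit 95, nat_lit 28)⟩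
noncomputable def p007_k64 : C1.Kn := ⟨[nat_lit 80, nat_lit 100, nat_lit 120], [nat_lit 0, nat_lit 65, nat_lit 576], [(nat_lit 0, nat_lit 0, nat_lit 0), (nat_lit 1000, nat_lit 990, nat_lit 51), (nat_lit 1000, nat_lit 990, nat_lit 399)], (nat_lit 98, nat_lit 100, nat_lit 28)⟩
noncomputable def p007_k65 : C1.Kn := ⟨[nat_lit 80, nat_lit 100, nat_lit 140], [nat_lit 0, nat_lit 65, nat_lit 1086], [(nat_lit 0, nat_lit 0, nat_lit 0), (nat_lit 1000, nat_lit 990, nat_lit 51), (nat_lit 1000, nat_lit 990, nat_lit 399)], (nat_lit 100, nat_lit 100, nat_lit 45)⟩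
noncomputable def p007_k66 : C1.Kn := ⟨[nat_lit 80, nat_lit 100, nat_lit 120], [nat_lit 0, nat_lit 198, nat_lit 704], [(nat_lit 0, nat_lit 0, nat_lit 0), (nat_lit 1000, nat_lit 969, nat_lit 154), (nat_lit 1000, nat_lit 969, nat_lit 395)], (nat_lit 98, nat_lit 100, nat_lit 44)⟩
noncomputable def p007_l0 : Lf2 := ⟨nat_lit 0, nat_lit 5, [nat_lit 4, nat_lit 5, nat_lit 5, nat_lit 20], true, nat_lit 0, nat_lit 0, nat_lit 0, nat_lit 0, ⟨nat_lit 0, nat_lit 0, nat_lit 1000, nat_lit 5, nat_lit 47, nat_lit 0, nat_lit 0, nat_lit 0, nat_lit 0, nat_lit 215, nat_lit 20417, nat_lit 250, nat_lit 66078457, nat_lit 0, nat_lit 0, nat_lit 362968, false, false⟩,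
 nat_lit 0, nat_lit 7120, nat_lit 0, nat_lit 0, nat_lit 3549, nat_lit 0, nat_lit 0, nat_lit 0, nat_lit 58, nat_lit 0, nat_lit 0, nat_lit 0, nat_lit 0, nat_lit 0, nat_lit 115, nat_lit 1000000, nat_lit 0, nat_lit 0, [(nat_lit 3, [(nat_lit 6, nat_lit 1000)])],
 ⟨p007_k0, nat_lit 0, nat_lit 0, nat_lit 0, nat_lit 0, nat_lit 64821, [nat_lit 3007028572, nat_lit 2237600001, nat_lit 23600000], [], [nat_lit 11977584442, nat_lit 12030584583, nat_lit 11754552003, nat_lit 11807591383], nat_lit 1271250, nat_lit 1271250, nat_lit 21650, nat_lit 43600, nat_lit 0, nat_lit 0, [nat_lit 1271250, nat_lit 1271250, nat_lit 1271250], [nat_lit 103, nat_lit 40, nat_lit 20, nat_lit 40]⟩, C1.Rw.none,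
 ⟨nat_lit 6538, nat_lit 6558, ⟨.ofNat (nat_lit 112324), .ofNat (nat_lit 120782), .ofNat (nat_lit 114464), .ofNat (nat_lit 122922), .ofNat (nat_lit 113276), .ofNat (nat_lit 121714), .ofNat (nat_lit 115416), .ofNat (nat_lit 123854)⟩, ⟨.ofNat (nat_lit 0), .ofNat (nat_lit 0), .ofNat (nat_lit 0), .ofNat (nat_lit 0), .ofNat (nat_lit 0), .ofNat (nat_lit 0), .ofNat (nat_lit 0), .ofNat (nat_lit 0)⟩⟩, [⟨nat_lit 0, nat_lit 100, nat_lit 100, nat_lit 28, nat_lit 385137901⟩]⟩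
noncomputable def p007_l1 : Lf2 := ⟨nat_lit 0, nat_lit 5, [nat_lit 4, nat_lit 5, nat_lit 5, nat_lit 20], true, nat_lit 0, nat_lit 0, nat_lit 0, nat_lit 0, ⟨nat_lit 0, nat_lit 0, nat_lit 1000, nat_lit 5, nat_lit 48, nat_lit 0, nat_lit 0, nat_lit 0, nat_lit 0, nat_lit 215, nat_lit 21600, nat_lit 251, nat_lit 66053592, nat_lit 0, nat_lit 0, nat_lit 370877, false, false⟩,
 nat_lit 0, nat_lit 5014, nat_lit 0, nat_lit 0, nat_lit 2499, nat_lit 0, nat_lit 0, nat_lit 0, nat_lit 143, nat_lit 0, nat_lit 0, nat_lit 0, nat_lit 0, nat_lit 0, nat_lit 110, nat_lit 945400, nat_lit 0, nat_lit 0, [(nat_lit 3, [(nat_lit 5, nat_lit 91), (nat_lit 6, nat_lit 909)])],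
 ⟨p007_k0, nat_lit 0, nat_lit 0, nat_lit 0, nat_lit 0, nat_lit 69100, [nat_lit 2960374732, nat_lit 2133970001, nat_lit 21774400], [], [nat_lit 8791679846, nat_lit 8846969196, nat_lit 8647747354, nat_lit 8703046177], nat_lit 1271250, nat_lit 1271250, nat_lit 21650, nat_lit 43600, nat_lit 0, nat_lit 0, [nat_lit 1271250, nat_lit 1271250, nat_lit 1271250], [nat_lit 103, nat_lit 40, nat_lit 20, nat_lit 40]⟩, C1.Rw.none,
 ⟨nat_lit 6538, nat_lit 6558, ⟨.ofNat (nat_lit 114464), .ofNat (nat_lit 122922), .ofNat (nat_lit 115535), .ofNat (nat_lit 123992), .ofNat (nat_lit 115416), .ofNat (nat_lit 123854), .ofNat (nat_lit 116486), .ofNat (nat_lit 124924)⟩, ⟨.ofNat (nat_lit 0), .ofNat (nat_lit 0), .ofNat (nat_lit 0), .ofNat (nat_lit 0), .ofNat (nat_lit 0), .ofNat (nat_lit 0), .ofNat (nat_lit 0), .ofNat (nat_lit 0)⟩⟩, [⟨nat_lit 0, nat_lit 100, nat_lit 100, nat_lit 28, nat_lit 288257294⟩]⟩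
noncomputable def p007_l2 : Lf2 := ⟨nat_lit 0, nat_lit 5, [nat_lit 4, nat_lit 5, nat_lit 5, nat_lit 20], true, nat_lit 0, nat_lit 0, nat_lit 0, nat_lit 0, ⟨nat_lit 0, nat_lit 0, nat_lit 1000, nat_lit 5, nat_lit 48, nat_lit 0, nat_lit 0, nat_lit 0, nat_lit 0, nat_lit 215, nat_lit 21600, nat_lit 251, nat_lit 66053592, nat_lit 0, nat_lit 0, nat_lit 370877, false, false⟩,
 nat_lit 0, nat_lit 100000, nat_lit 0, nat_lit 0, nat_lit 49854, nat_lit 0, nat_lit 7485, nat_lit 0, nat_lit 0, nat_lit 0, nat_lit 0, nat_lit 0, nat_lit 0, nat_lit 0, nat_lit 115, nat_lit 1000000, nat_lit 19286950401, nat_lit 0, [(nat_lit 3, [(nat_lit 6, nat_lit 1000)])],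
 ⟨p007_k1, nat_lit 0, nat_lit 0, nat_lit 0, nat_lit 0, nat_lit 69100, [nat_lit 1742533334, nat_lit 2935066667, nat_lit 2237600001, nat_lit 23600000], [], [nat_lit 3090632371, nat_lit 3375478021, nat_lit 0, nat_lit 271731155], nat_lit 1271250, nat_lit 1271250, nat_lit 21650, nat_lit 43600, nat_lit 0, nat_lit 0, [nat_lit 631250, nat_lit 1271250, nat_lit 1271250, nat_lit 1271250], [nat_lit 91, nat_lit 40, nat_lit 20, nat_lit 40]⟩, C1.Rw.none,
 ⟨nat_lit 6538, nat_lit 6558, ⟨.ofNat (nat_lit 114464), .ofNat (nat_lit 122922), .ofNat (nat_lit 115535), .ofNat (nat_lit 123992), .ofNat (nat_lit 115416), .ofNat (nat_lit 123854), .ofNat (nat_lit 116486), .ofNat (nat_lit 124924)⟩, ⟨.ofNat (nat_lit 0), .ofNat (nat_lit 0), .ofNat (nat_lit 0), .ofNat (nat_lit 0), .ofNat (nat_lit 0), .ofNat (nat_lit 0), .ofNat (nat_lit 0), .ofNat (nat_lit 0)⟩⟩, [⟨nat_lit 0, nat_lit 100, nat_lit 100, nat_lit 28, nat_lit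 6285917331⟩, ⟨nat_lit 0, nat_lit 100, nat_lit 100, nat_lit 28, nat_lit 10000000000⟩]⟩
noncomputable def p007_l3 : Lf2 := ⟨nat_lit 0, nat_lit 5, [nat_lit 4, nat_lit 5, nat_lit 5, nat_lit 20], true, nat_lit 0, nat_lit 0, nat_lit 0, nat_lit 0, ⟨nat_lit 0, nat_lit 0, nat_lit 1000, nat_lit 5, nat_lit 48, nat_lit 0, nat_lit 0, nat_lit 0, nat_lit 0, nat_lit 215, nat_lit 21600, nat_lit 251, nat_lit 66053592, nat_lit 0, nat_lit 0, nat_lit 370877, false, false⟩,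
 nat_lit 0, nat_lit 100000, nat_lit 0, nat_lit 0, nat_lit 49854, nat_lit 0, nat_lit 7485, nat_lit 0, nat_lit 0, nat_lit 0, nat_lit 0, nat_lit 0, nat_lit 0, nat_lit 0, nat_lit 115, nat_lit 1000000, nat_lit 19286950401, nat_lit 0, [(nat_lit 3, [(nat_lit 6, nat_lit 1000)])],
 ⟨p007_k1, nat_lit 0, nat_lit 0, nat_lit 0, nat_lit 0, nat_lit 69100, [nat_lit 1742533334, nat_lit 2935066667, nat_lit 2237600001, nat_lit 23600000], [], [nat_lit 3090632371, nat_lit 3375478021, nat_lit 0, nat_lit 271731155], nat_lit 1271250, nat_lit 1271250, nat_lit 21650, nat_lit 43600, nat_lit 0, nat_lit 0, [nat_lit 631250, nat_lit 1271250, nat_lit 1271250, nat_lit 1271250], [nat_lit 91, nat_lit 40, nat_lit 20, nat_lit 40]⟩, C1.Rw.none,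
 ⟨nat_lit 6538, nat_lit 6558, ⟨.ofNat (nat_lit 114464), .ofNat (nat_lit 122922), .ofNat (nat_lit 115535), .ofNat (nat_lit 123992), .ofNat (nat_lit 115416), .ofNat (nat_lit 123854), .ofNat (nat_lit 116486), .ofNat (nat_lit 124924)⟩, ⟨.ofNat (nat_lit 0), .ofNat (nat_lit 0), .ofNat (nat_lit 0), .ofNat (nat_lit 0), .ofNat (nat_lit 0), .ofNat (nat_lit 0), .ofNat (nat_lit 0), .ofNat (nat_lit 0)⟩⟩, [⟨nat_lit 0, nat_lit 100, nat_lit 100, nat_lit 28, nat_lit 6285917331⟩, ⟨nat_lit 0, nat_lit 100, nat_lit 100, nat_lit 28, nat_lit 10000000000⟩]⟩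
noncomputable def p007_l4 : Lf2 := ⟨nat_lit 0, nat_lit 5, [nat_lit 4, nat_lit 5, nat_lit 5, nat_lit 20], false, nat_lit 0, nat_lit 0, nat_lit 0, nat_lit 0, ⟨nat_lit 0, nat_lit 0, nat_lit 1000, nat_lit 5, nat_lit 48, nat_lit 0, nat_lit 0, nat_lit 0, nat_lit 0, nat_lit 215, nat_lit 21600, nat_lit 251, nat_lit 66053592, nat_lit 0, nat_lit 0, nat_lit 370877, false, false⟩,
 nat_lit 100000, nat_lit 100000, nat_lit 100000, nat_lit 100000, nat_lit 99708, nat_lit 99198, nat_lit 29951, nat_lit 5408, nat_lit 0, nat_lit 60000, nat_lit 3357, nat_lit 0, nat_lit 0, nat_lit 0, nat_lit 0, nat_lit 1000000, nat_lit 0, nat_lit 0, [(nat_lit 3, [(nat_lit 6, nat_lit 1000)])],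
 ⟨p007_k2, nat_lit 0, nat_lit 0, nat_lit 0, nat_lit 0, nat_lit 69100, [nat_lit 109201142858, nat_lit 128531600001, nat_lit 148227600000], [], [nat_lit 169871067530, nat_lit 170430456351, nat_lit 162656518490, nat_lit 163057910548], nat_lit 1271250, nat_lit 1271250, nat_lit 21650, nat_lit 43600, nat_lit 0, nat_lit 0, [nat_lit 1412500, nat_lit 1271250, nat_lit 1271250], [nat_lit 25, nat_lit 40, nat_lit 20, nat_lit 80]⟩, ⟨p007_k3, nat_lit 0, nat_lit 0, nat_lit 0, nat_lit 0, nat_lit 69483, [nat_lit 67140000000, nat_lit 80568000000, nat_lit 93996000000], [], [nat_lit 30459386218, nat_lit 30930828681, nat_lit 24466218026, nat_lit 24938229886], nat_lit 1271250, nat_lit 1271250, nat_lit 21650, nat_lit 43600, nat_lit 0, nat_lit 0, [nat_lit 1412500, nat_lit 1271250, nat_lit 1271250], [nat_lit 25, nat_lit 40, nat_lit 20, nat_lit 80]⟩,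
 ⟨nat_lit 6538, nat_lit 6558, ⟨.ofNat (nat_lit 114464), .ofNat (nat_lit 122922), .ofNat (nat_lit 115535), .ofNat (nat_lit 123992), .ofNat (nat_lit 115416), .ofNat (nat_lit 123854), .ofNat (nat_lit 116486), .ofNat (nat_lit 124924)⟩, ⟨.ofNat (nat_lit 0), .ofNat (nat_lit 0), .ofNat (nat_lit 0), .ofNat (nat_lit 0), .ofNat (nat_lit 0), .ofNat (nat_lit 0), .ofNat (nat_lit 0), .ofNat (nat_lit 0)⟩⟩, [⟨nat_lit 0, nat_lit 100, nat_lit 100, nat_lit 28, nat_lit 10000000000⟩, ⟨nat_lit 0, nat_lit 100, nat_lit 100, nat_lit 28, nat_lit 10000000000⟩, ⟨nat_lit 0, nat_lit 100, nat_lit 100, nat_lit 27, nat_lit 10000000000⟩]⟩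
noncomputable def p007_l5 : Lf2 := ⟨nat_lit 0, nat_lit 5, [nat_lit 4, nat_lit 5, nat_lit 5, nat_lit 20], true, nat_lit 0, nat_lit 0, nat_lit 0, nat_lit 0, ⟨nat_lit 0, nat_lit 0, nat_lit 1000, nat_lit 5, nat_lit 48, nat_lit 0, nat_lit 0, nat_lit 0, nat_lit 0, nat_lit 215, nat_lit 21600, nat_lit 251, nat_lit 66036837, nat_lit 0, nat_lit 0, nat_lit 376178, false, false⟩,
 nat_lit 0, nat_lit 5017, nat_lit 0, nat_lit 0, nat_lit 2501, nat_lit 0, nat_lit 0, nat_lit 0, nat_lit 142, nat_lit 0, nat_lit 0, nat_lit 0, nat_lit 0, nat_lit 12071242827607, nat_lit 110, nat_lit 943000, nat_lit 0, nat_lit 0, [(nat_lit 3, [(nat_lit 5, nat_lit 95), (nat_lit 6, nat_lit 905)])],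
 ⟨p007_k0, nat_lit 0, nat_lit 0, nat_lit 0, nat_lit 0, nat_lit 73379, [nat_lit 2962280058, nat_lit 2134250001, nat_lit 27848000], [], [nat_lit 8825476623, nat_lit 8872957830, nat_lit 8693861090, nat_lit 8733853013], nat_lit 1271250, nat_lit 1271250, nat_lit 21650, nat_lit 43600, nat_lit 0, nat_lit 0, [nat_lit 1271250, nat_lit 1271250, nat_lit 1271250], [nat_lit 103, nat_lit 40, nat_lit 20, nat_lit 40]⟩, C1.Rw.none,
 ⟨nat_lit 6538, nat_lit 6558, ⟨.ofNat (nat_lit 115535), .ofNat (nat_lit 123992), .ofNat (nat_lit 116605), .ofNat (nat_lit 125063), .ofNat (nat_lit 116486), .ofNat (nat_lit 124924), .ofNat (nat_lit 117556), .ofNat (nat_lit 125994)⟩, ⟨.ofNat (nat_lit 0), .ofNat (nat_lit 0), .ofNat (nat_lit 0), .ofNat (nat_lit 0), .ofNat (nat_lit 0), .ofNat (nat_lit 0), .ofNat (nat_lit 0), .ofNat (nat_lit 0)⟩⟩, [⟨nat_lit 0, nat_lit 100, nat_lit 100, nat_lit 28, nat_lit 741892042⟩]⟩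
noncomputable def p007_l6 : Lf2 := ⟨nat_lit 0, nat_lit 5, [nat_lit 4, nat_lit 5, nat_lit 5, nat_lit 20], true, nat_lit 0, nat_lit 0, nat_lit 0, nat_lit 0, ⟨nat_lit 0, nat_lit 0, nat_lit 1000, nat_lit 5, nat_lit 48, nat_lit 0, nat_lit 0, nat_lit 0, nat_lit 0, nat_lit 215, nat_lit 21600, nat_lit 251, nat_lit 66036837, nat_lit 0, nat_lit 0, nat_lit 376178, false, false⟩,
 nat_lit 0, nat_lit 100000, nat_lit 0, nat_lit 0, nat_lit 49854, nat_lit 0, nat_lit 7479, nat_lit 0, nat_lit 0, nat_lit 0, nat_lit 0, nat_lit 0, nat_lit 0, nat_lit 0, nat_lit 115, nat_lit 1000000, nat_lit 19283125401, nat_lit 0, [(nat_lit 3, [(nat_lit 6, nat_lit 1000)])],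
 ⟨p007_k1, nat_lit 0, nat_lit 0, nat_lit 0, nat_lit 0, nat_lit 73379, [nat_lit 1742533334, nat_lit 2935066667, nat_lit 2237600001, nat_lit 23600000], [], [nat_lit 3103138621, nat_lit 3387984271, nat_lit 0, nat_lit 284153929], nat_lit 1271250, nat_lit 1271250, nat_lit 21650, nat_lit 43600, nat_lit 0, nat_lit 0, [nat_lit 631250, nat_lit 1271250, nat_lit 1271250, nat_lit 1271250], [nat_lit 91, nat_lit 40, nat_lit 20, nat_lit 40]⟩, C1.Rw.none,
 ⟨nat_lit 6538, nat_lit 6558, ⟨.ofNat (nat_lit 115535), .ofNat (nat_lit 123992), .ofNat (nat_lit 116605), .ofNat (nat_lit 125063), .ofNat (nat_lit 116486), .ofNat (nat_lit 124924), .ofNat (nat_lit 117556), .ofNat (nat_lit 125994)⟩, ⟨.ofNat (nat_lit 0), .ofNat (nat_lit 0), .ofNat (nat_lit 0), .ofNat (nat_lit 0), .ofNat (nat_lit 0), .ofNat (nat_lit 0), .ofNat (nat_lit 0), .ofNat (nat_lit 0)⟩⟩, [⟨nat_lit 0, nat_lit 100, nat_lit 100, nat_lit 29, nat_lit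 8175453166⟩, ⟨nat_lit 0, nat_lit 100, nat_lit 100, nat_lit 28, nat_lit 10000000000⟩]⟩
noncomputable def p007_l7 : Lf2 := ⟨nat_lit 0, nat_lit 5, [nat_lit 4, nat_lit 5, nat_lit 5, nat_lit 20], true, nat_lit 0, nat_lit 0, nat_lit 0, nat_lit 0, ⟨nat_lit 0, nat_lit 0, nat_lit 1000, nat_lit 5, nat_lit 48, nat_lit 0, nat_lit 0, nat_lit 0, nat_lit 0, nat_lit 215, nat_lit 21600, nat_lit 251, nat_lit 66036837, nat_lit 0, nat_lit 0, nat_lit 376178, false, false⟩,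
 nat_lit 0, nat_lit 100000, nat_lit 0, nat_lit 0, nat_lit 49854, nat_lit 0, nat_lit 7479, nat_lit 0, nat_lit 0, nat_lit 0, nat_lit 0, nat_lit 0, nat_lit 0, nat_lit 0, nat_lit 115, nat_lit 1000000, nat_lit 19283125401, nat_lit 0, [(nat_lit 3, [(nat_lit 6, nat_lit 1000)])],
 ⟨p007_k1, nat_lit 0, nat_lit 0, nat_lit 0, nat_lit 0, nat_lit 73379, [nat_lit 1742533334, nat_lit 2935066667, nat_lit 2237600001, nat_lit 23600000], [], [nat_lit 3103138621, nat_lit 3387984271, nat_lit 0, nat_lit 284153929], nat_lit 1271250, nat_lit 1271250, nat_lit 21650, nat_lit 43600, nat_lit 0, nat_lit 0, [nat_lit 631250, nat_lit 1271250, nat_lit 1271250, nat_lit 1271250], [nat_lit 91, nat_lit 40, nat_lit 20, nat_lit 40]⟩, C1.Rw.none,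
 ⟨nat_lit 6538, nat_lit 6558, ⟨.ofNat (nat_lit 115535), .ofNat (nat_lit 123992), .ofNat (nat_lit 116605), .ofNat (nat_lit 125063), .ofNat (nat_lit 116486), .ofNat (nat_lit 124924), .ofNat (nat_lit 117556), .ofNat (nat_lit 125994)⟩, ⟨.ofNat (nat_lit 0), .ofNat (nat_lit 0), .ofNat (nat_lit 0), .ofNat (nat_lit 0), .ofNat (nat_lit 0), .ofNat (nat_lit 0), .ofNat (nat_lit 0), .ofNat (nat_lit 0)⟩⟩, [⟨nat_lit 0, nat_lit 100, nat_lit 100, nat_lit 29, nat_lit 8175453166⟩, ⟨nat_lit 0, nat_lit 100, nat_lit 100, nat_lit 28, nat_lit 10000000000⟩]⟩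
noncomputable def p007_l8 : Lf2 := ⟨nat_lit 0, nat_lit 5, [nat_lit 4, nat_lit 5, nat_lit 5, nat_lit 20], false, nat_lit 0, nat_lit 0, nat_lit 0, nat_lit 0, ⟨nat_lit 0, nat_lit 0, nat_lit 1000, nat_lit 5, nat_lit 48, nat_lit 0, nat_lit 0, nat_lit 0, nat_lit 0, nat_lit 215, nat_lit 21600, nat_lit 251, nat_lit 66036837, nat_lit 0, nat_lit 0, nat_lit 376178, false, false⟩,
 nat_lit 100000, nat_lit 100000, nat_lit 100000, nat_lit 100000, nat_lit 99708, nat_lit 99708, nat_lit 40926, nat_lit 4541, nat_lit 0, nat_lit 60000, nat_lit 4518, nat_lit 0, nat_lit 0, nat_lit 400000000000000, nat_lit 0, nat_lit 1000000, nat_lit 0, nat_lit 0, [(nat_lit 3, [(nat_lit 6, nat_lit 1000)])],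
 ⟨p007_k2, nat_lit 0, nat_lit 0, nat_lit 0, nat_lit 0, nat_lit 73379, [nat_lit 91861142858, nat_lit 107723600001, nat_lit 123951600000], [], [nat_lit 126629707984, nat_lit 127237415088, nat_lit 120634644051, nat_lit 121237495516], nat_lit 1271250, nat_lit 1271250, nat_lit 21650, nat_lit 43600, nat_lit 0, nat_lit 0, [nat_lit 1412500, nat_lit 1271250, nat_lit 1271250], [nat_lit 25, nat_lit 40, nat_lit 20, nat_lit 80]⟩, ⟨p007_k2, nat_lit 0, nat_lit 0, nat_lit 0, nat_lit 0, nat_lit 73379, [nat_lit 90360000000, nat_lit 108432000000, nat_lit 126504000000], [], [nat_lit 79309523560, nat_lit 79783389818, nat_lit 73444164467, nat_lit 73760554002], nat_lit 1271250, nat_lit 1271250, nat_lit 21650, nat_lit 43600, nat_lit 0, nat_lit 0, [nat_lit 1412500, nat_lit 1271250, nat_lit 1271250], [nat_lit 25, nat_lit 40, nat_lit 20, nat_lit 80]⟩,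
 ⟨nat_lit 6538, nat_lit 6558, ⟨.ofNat (nat_lit 115535), .ofNat (nat_lit 123992), .ofNat (nat_lit 116605), .ofNat (nat_lit 125063), .ofNat (nat_lit 116486), .ofNat (nat_lit 124924), .ofNat (nat_lit 117556), .ofNat (nat_lit 125994)⟩, ⟨.ofNat (nat_lit 0), .ofNat (nat_lit 0), .ofNat (nat_lit 0), .ofNat (nat_lit 0), .ofNat (nat_lit 0), .ofNat (nat_lit 0), .ofNat (nat_lit 0), .ofNat (nat_lit 0)⟩⟩, [⟨nat_lit 0, nat_lit 100, nat_lit 100, nat_lit 29, nat_lit 10000000000⟩, ⟨nat_lit 0, nat_lit 100, nat_lit 100, nat_lit 29, nat_lit 10000000000⟩, ⟨nat_lit 0, nat_lit 100, nat_lit 100, nat_lit 28, nat_lit 10000000000⟩]⟩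
noncomputable def p007_l9 : Lf2 := ⟨nat_lit 0, nat_lit 5, [nat_lit 4, nat_lit 5, nat_lit 5, nat_lit 20], true, nat_lit 0, nat_lit 0, nat_lit 0, nat_lit 0, ⟨nat_lit 0, nat_lit 0, nat_lit 1000, nat_lit 5, nat_lit 48, nat_lit 0, nat_lit 0, nat_lit 0, nat_lit 0, nat_lit 215, nat_lit 21600, nat_lit 251, nat_lit 66038874, nat_lit 0, nat_lit 0, nat_lit 375535, false, false⟩,
 nat_lit 0, nat_lit 7095, nat_lit 0, nat_lit 0, nat_lit 3555, nat_lit 0, nat_lit 0, nat_lit 0, nat_lit 57, nat_lit 0, nat_lit 0, nat_lit 0, nat_lit 0, nat_lit 0, nat_lit 115, nat_lit 1000000, nat_lit 0, nat_lit 0, [(nat_lit 3, [(nat_lit 6, nat_lit 1000)])],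
 ⟨p007_k4, nat_lit 0, nat_lit 0, nat_lit 0, nat_lit 0, nat_lit 81461, [nat_lit 3007028572, nat_lit 2237600001, nat_lit 23600000], [], [nat_lit 12064022798, nat_lit 12117054537, nat_lit 11845123564, nat_lit 11893654303], nat_lit 1271250, nat_lit 1271250, nat_lit 21650, nat_lit 43600, nat_lit 0, nat_lit 0, [nat_lit 1271250, nat_lit 1271250, nat_lit 1271250], [nat_lit 103, nat_lit 40, nat_lit 20, nat_lit 40]⟩, C1.Rw.none,
 ⟨nat_lit 6519, nat_lit 6539, ⟨.ofNat (nat_lit 113276), .ofNat (nat_lit 121714), .ofNat (nat_lit 118626), .ofNat (nat_lit 127064), .ofNat (nat_lit 114225), .ofNat (nat_lit 122644), .ofNat (nat_lit 119575), .ofNat (nat_lit 127994)⟩, ⟨.ofNat (nat_lit 0), .ofNat (nat_lit 0), .ofNat (nat_lit 0), .ofNat (nat_lit 0), .ofNat (nat_lit 0), .ofNat (nat_lit 0), .ofNat (nat_lit 0), .ofNat (nat_lit 0)⟩⟩, [⟨nat_lit 0, nat_lit 100, nat_lit 100, nat_lit 28, nat_lit 2129066643⟩]⟩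
noncomputable def p007_l10 : Lf2 := ⟨nat_lit 0, nat_lit 5, [nat_lit 4, nat_lit 5, nat_lit 5, nat_lit 20], true, nat_lit 0, nat_lit 0, nat_lit 0, nat_lit 0, ⟨nat_lit 0, nat_lit 0, nat_lit 1000, nat_lit 5, nat_lit 47, nat_lit 0, nat_lit 0, nat_lit 0, nat_lit 0, nat_lit 215, nat_lit 20417, nat_lit 250, nat_lit 66086674, nat_lit 0, nat_lit 0, nat_lit 360343, false, false⟩,
 nat_lit 0, nat_lit 8783, nat_lit 0, nat_lit 0, nat_lit 4378, nat_lit 0, nat_lit 0, nat_lit 0, nat_lit 0, nat_lit 0, nat_lit 0, nat_lit 0, nat_lit 0, nat_lit 0, nat_lit 114, nat_lit 997000, nat_lit 0, nat_lit 0, [(nat_lit 3, [(nat_lit 5, nat_lit 5), (nat_lit 6, nat_lit 995)])],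
 ⟨p007_k0, nat_lit 0, nat_lit 0, nat_lit 0, nat_lit 0, nat_lit 60543, [nat_lit 2991410229, nat_lit 2215950001, nat_lit 3192000], [], [nat_lit 14356190729, nat_lit 14413556518, nat_lit 14073109091, nat_lit 14128887409], nat_lit 1271250, nat_lit 1271250, nat_lit 21650, nat_lit 43600, nat_lit 0, nat_lit 0, [nat_lit 1271250, nat_lit 1271250, nat_lit 1271250], [nat_lit 103, nat_lit 40, nat_lit 20, nat_lit 40]⟩, C1.Rw.none,
 ⟨nat_lit 6538, nat_lit 6558, ⟨.ofNat (nat_lit 112324), .ofNat (nat_lit 120782), .ofNat (nat_lit 113394), .ofNat (nat_lit 121852), .ofNat (nat_lit 113276), .ofNat (nat_lit 121714), .ofNat (nat_lit 114346), .ofNat (nat_lit 122784)⟩, ⟨.ofNat (nat_lit 0), .ofNat (nat_lit 0), .ofNat (nat_lit 0), .ofNat (nat_lit 0), .ofNat (nat_lit 0), .ofNat (nat_lit 0), .ofNat (nat_lit 0), .ofNat (nat_lit 0)⟩⟩, [⟨nat_lit 0, nat_lit 100, nat_lit 100, nat_lit 27, nat_lit 462233443⟩]⟩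
noncomputable def p007_l11 : Lf2 := ⟨nat_lit 2, nat_lit 5, [nat_lit 4, nat_lit 5, nat_lit 5, nat_lit 20], true, nat_lit 0, nat_lit 0, nat_lit 0, nat_lit 0, zbN0,
 nat_lit 0, nat_lit 0, nat_lit 0, nat_lit 0, nat_lit 0, nat_lit 0, nat_lit 0, nat_lit 0, nat_lit 0, nat_lit 0, nat_lit 0, nat_lit 0, nat_lit 0, nat_lit 0, nat_lit 0, nat_lit 0, nat_lit 0, nat_lit 0, [],
 ⟨p007_k5, nat_lit 0, nat_lit 0, nat_lit 0, nat_lit 0, nat_lit 64821, [], [], [], nat_lit 1271250, nat_lit 1271250, nat_lit 21650, nat_lit 43600, nat_lit 0, nat_lit 0, [nat_lit 780000, nat_lit 1100000, nat_lit 1442500, nat_lit 1271250, nat_lit 1271250], [nat_lit 167, nat_lit 10, nat_lit 4, nat_lit 20]⟩, C1.Rw.none,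
 zbF0, []⟩
noncomputable def p007_l12 : Lf2 := ⟨nat_lit 0, nat_lit 5, [nat_lit 4, nat_lit 5, nat_lit 5, nat_lit 20], true, nat_lit 0, nat_lit 0, nat_lit 0, nat_lit 0, ⟨nat_lit 0, nat_lit 0, nat_lit 1000, nat_lit 5, nat_lit 47, nat_lit 0, nat_lit 0, nat_lit 0, nat_lit 0, nat_lit 215, nat_lit 21600, nat_lit 251, nat_lit 66070205, nat_lit 0, nat_lit 0, nat_lit 365598, false, false⟩,
 nat_lit 0, nat_lit 100000, nat_lit 0, nat_lit 0, nat_lit 49854, nat_lit 0, nat_lit 7930, nat_lit 132, nat_lit 0, nat_lit 0, nat_lit 0, nat_lit 0, nat_lit 0, nat_lit 0, nat_lit 0, nat_lit 400000, nat_lit 13545783039, nat_lit 0, [(nat_lit 3, [(nat_lit 5, nat_lit 1000)])],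
 ⟨p007_k1, nat_lit 0, nat_lit 0, nat_lit 0, nat_lit 0, nat_lit 64821, [nat_lit 2251600001, nat_lit 3015600001, nat_lit 2681600001, nat_lit 2018000000], [], [nat_lit 3011697301, nat_lit 3296542951, nat_lit 0, nat_lit 197512917], nat_lit 1271250, nat_lit 1271250, nat_lit 21650, nat_lit 43600, nat_lit 0, nat_lit 0, [nat_lit 631250, nat_lit 1271250, nat_lit 1271250, nat_lit 1271250], [nat_lit 91, nat_lit 40, nat_lit 20, nat_lit 40]⟩, C1.Rw.none,
 ⟨nat_lit 6538, nat_lit 6558, ⟨.ofNat (nat_lit 113394), .ofNat (nat_lit 121852), .ofNat (nat_lit 114464), .ofNat (nat_lit 122922), .ofNat (nat_lit 114346), .ofNat (nat_lit 122784), .ofNat (nat_lit 115416), .ofNat (nat_lit 123854)⟩, ⟨.ofNat (nat_lit 0), .ofNat (nat_lit 0), .ofNat (nat_lit 0), .ofNat (nat_lit 0), .ofNat (nat_lit 0), .ofNat (nat_lit 0), .ofNat (nat_lit 0), .ofNat (nat_lit 0)⟩⟩, [⟨nat_lit 0, nat_lit 100, nat_lit 100, nat_lit 28, nat_lit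 3985994866⟩]⟩
noncomputable def p007_l13 : Lf2 := ⟨nat_lit 0, nat_lit 5, [nat_lit 4, nat_lit 5, nat_lit 5, nat_lit 20], true, nat_lit 0, nat_lit 0, nat_lit 0, nat_lit 0, ⟨nat_lit 0, nat_lit 0, nat_lit 1000, nat_lit 5, nat_lit 47, nat_lit 0, nat_lit 0, nat_lit 0, nat_lit 0, nat_lit 215, nat_lit 21600, nat_lit 251, nat_lit 66070205, nat_lit 0, nat_lit 0, nat_lit 365598, false, false⟩,
 nat_lit 0, nat_lit 100000, nat_lit 0, nat_lit 0, nat_lit 49854, nat_lit 0, nat_lit 7930, nat_lit 132, nat_lit 0, nat_lit 0, nat_lit 0, nat_lit 0, nat_lit 0, nat_lit 0, nat_lit 0, nat_lit 400000, nat_lit 13545783039, nat_lit 0, [(nat_lit 3, [(nat_lit 5, nat_lit 1000)])],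
 ⟨p007_k1, nat_lit 0, nat_lit 0, nat_lit 0, nat_lit 0, nat_lit 64821, [nat_lit 2251600001, nat_lit 3015600001, nat_lit 2681600001, nat_lit 2018000000], [], [nat_lit 3011697301, nat_lit 3296542951, nat_lit 0, nat_lit 197512917], nat_lit 1271250, nat_lit 1271250, nat_lit 21650, nat_lit 43600, nat_lit 0, nat_lit 0, [nat_lit 631250, nat_lit 1271250, nat_lit 1271250, nat_lit 1271250], [nat_lit 91, nat_lit 40, nat_lit 20, nat_lit 40]⟩, C1.Rw.none,
 ⟨nat_lit 6538, nat_lit 6558, ⟨.ofNat (nat_lit 113394), .ofNat (nat_lit 121852), .ofNat (nat_lit 114464), .ofNat (nat_lit 122922), .ofNat (nat_lit 114346), .ofNat (nat_lit 122784), .ofNat (nat_lit 115416), .ofNat (nat_lit 123854)⟩, ⟨.ofNat (nat_lit 0), .ofNat (nat_lit 0), .ofNat (nat_lit 0), .ofNat (nat_lit 0), .ofNat (nat_lit 0), .ofNat (nat_lit 0), .ofNat (nat_lit 0), .ofNat (nat_lit 0)⟩⟩, [⟨nat_lit 0, nat_lit 100, nat_lit 100, nat_lit 28, nat_lit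 3985994866⟩]⟩
noncomputable def p007_l14 : Lf2 := ⟨nat_lit 0, nat_lit 5, [nat_lit 4, nat_lit 5, nat_lit 5, nat_lit 20], false, nat_lit 0, nat_lit 0, nat_lit 0, nat_lit 0, ⟨nat_lit 0, nat_lit 0, nat_lit 1000, nat_lit 5, nat_lit 47, nat_lit 0, nat_lit 0, nat_lit 0, nat_lit 0, nat_lit 215, nat_lit 21600, nat_lit 251, nat_lit 66070205, nat_lit 0, nat_lit 0, nat_lit 365598, false, false⟩,
 nat_lit 100000, nat_lit 100000, nat_lit 100000, nat_lit 100000, nat_lit 99708, nat_lit 98689, nat_lit 2511, nat_lit 4126, nat_lit 0, nat_lit 60000, nat_lit 4456, nat_lit 0, nat_lit 0, nat_lit 0, nat_lit 0, nat_lit 600720, nat_lit 0, nat_lit 0, [(nat_lit 3, [(nat_lit 3, nat_lit 496), (nat_lit 6, nat_lit 504)])],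
 ⟨p007_k2, nat_lit 0, nat_lit 0, nat_lit 0, nat_lit 0, nat_lit 64821, [nat_lit 100136896001, nat_lit 98111593601, nat_lit 113342249600], [], [nat_lit 209931217130, nat_lit 210490605951, nat_lit 202905471141, nat_lit 203113579315], nat_lit 1271250, nat_lit 1271250, nat_lit 21650, nat_lit 43600, nat_lit 0, nat_lit 0, [nat_lit 1412500, nat_lit 1271250, nat_lit 1271250], [nat_lit 25, nat_lit 40, nat_lit 20, nat_lit 80]⟩, ⟨p007_k6, nat_lit 0, nat_lit 0, nat_lit 0, nat_lit 0, nat_lit 65543, [nat_lit 89120000000, nat_lit 106944000000, nat_lit 124768000000], [], [nat_lit 81053561853, nat_lit 81522585273, nat_lit 75266107217, nat_lit 75567882389], nat_lit 1271250, nat_lit 1271250, nat_lit 21650, nat_lit 43600, nat_lit 0, nat_lit 0, [nat_lit 1412500, nat_lit 1271250, nat_lit 1271250], [nat_lit 25, nat_lit 40, nat_lit 20, nat_lit 80]⟩,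
 ⟨nat_lit 6538, nat_lit 6558, ⟨.ofNat (nat_lit 113394), .ofNat (nat_lit 121852), .ofNat (nat_lit 114464), .ofNat (nat_lit 122922), .ofNat (nat_lit 114346), .ofNat (nat_lit 122784), .ofNat (nat_lit 115416), .ofNat (nat_lit 123854)⟩, ⟨.ofNat (nat_lit 0), .ofNat (nat_lit 0), .ofNat (nat_lit 0), .ofNat (nat_lit 0), .ofNat (nat_lit 0), .ofNat (nat_lit 0), .ofNat (nat_lit 0), .ofNat (nat_lit 0)⟩⟩, [⟨nat_lit 0, nat_lit 100, nat_lit 100, nat_lit 27, nat_lit 10000000000⟩, ⟨nat_lit 0, nat_lit 100, nat_lit 100, nat_lit 28, nat_lit 10000000000⟩, ⟨nat_lit 0, nat_lit 100, nat_lit 100, nat_lit 27, nat_lit 10000000000⟩]⟩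
noncomputable def p007_l15 : Lf2 := ⟨nat_lit 0, nat_lit 5, [nat_lit 4, nat_lit 5, nat_lit 5, nat_lit 20], true, nat_lit 0, nat_lit 0, nat_lit 0, nat_lit 0, ⟨nat_lit 0, nat_lit 0, nat_lit 1000, nat_lit 5, nat_lit 48, nat_lit 0, nat_lit 0, nat_lit 0, nat_lit 0, nat_lit 215, nat_lit 21600, nat_lit 251, nat_lit 66053592, nat_lit 0, nat_lit 0, nat_lit 370877, false, false⟩,
 nat_lit 0, nat_lit 100000, nat_lit 0, nat_lit 0, nat_lit 49854, nat_lit 0, nat_lit 7930, nat_lit 132, nat_lit 0, nat_lit 0, nat_lit 0, nat_lit 0, nat_lit 0, nat_lit 0, nat_lit 0, nat_lit 400000, nat_lit 13545783039, nat_lit 0, [(nat_lit 3, [(nat_lit 5, nat_lit 1000)])],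
 ⟨p007_k1, nat_lit 0, nat_lit 0, nat_lit 0, nat_lit 0, nat_lit 69100, [nat_lit 2251600001, nat_lit 3015600001, nat_lit 2681600001, nat_lit 2018000000], [], [nat_lit 3011697301, nat_lit 3296542951, nat_lit 0, nat_lit 197512917], nat_lit 1271250, nat_lit 1271250, nat_lit 21650, nat_lit 43600, nat_lit 0, nat_lit 0, [nat_lit 631250, nat_lit 1271250, nat_lit 1271250, nat_lit 1271250], [nat_lit 91, nat_lit 40, nat_lit 20, nat_lit 40]⟩, C1.Rw.none,
 ⟨nat_lit 6538, nat_lit 6558, ⟨.ofNat (nat_lit 114464), .ofNat (nat_lit 122922), .ofNat (nat_lit 115535), .ofNat (nat_lit 123992), .ofNat (nat_lit 115416), .ofNat (nat_lit 123854), .ofNat (nat_lit 116486), .ofNat (nat_lit 124924)⟩, ⟨.ofNat (nat_lit 0), .ofNat (nat_lit 0), .ofNat (nat_lit 0), .ofNat (nat_lit 0), .ofNat (nat_lit 0), .ofNat (nat_lit 0), .ofNat (nat_lit 0), .ofNat (nat_lit 0)⟩⟩, [⟨nat_lit 0, nat_lit 100, nat_lit 100, nat_lit 28, nat_lit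 6285917330⟩, ⟨nat_lit 0, nat_lit 100, nat_lit 100, nat_lit 28, nat_lit 10000000000⟩]⟩
noncomputable def p007_l16 : Lf2 := ⟨nat_lit 0, nat_lit 5, [nat_lit 4, nat_lit 5, nat_lit 5, nat_lit 20], true, nat_lit 0, nat_lit 0, nat_lit 0, nat_lit 0, ⟨nat_lit 0, nat_lit 0, nat_lit 1000, nat_lit 5, nat_lit 48, nat_lit 0, nat_lit 0, nat_lit 0, nat_lit 0, nat_lit 215, nat_lit 21600, nat_lit 251, nat_lit 66053592, nat_lit 0, nat_lit 0, nat_lit 370877, false, false⟩,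
 nat_lit 0, nat_lit 100000, nat_lit 0, nat_lit 0, nat_lit 49854, nat_lit 0, nat_lit 7930, nat_lit 132, nat_lit 0, nat_lit 0, nat_lit 0, nat_lit 0, nat_lit 0, nat_lit 0, nat_lit 0, nat_lit 400000, nat_lit 13545783039, nat_lit 0, [(nat_lit 3, [(nat_lit 5, nat_lit 1000)])],
 ⟨p007_k1, nat_lit 0, nat_lit 0, nat_lit 0, nat_lit 0, nat_lit 69100, [nat_lit 2251600001, nat_lit 3015600001, nat_lit 2681600001, nat_lit 2018000000], [], [nat_lit 3011697301, nat_lit 3296542951, nat_lit 0, nat_lit 197512917], nat_lit 1271250, nat_lit 1271250, nat_lit 21650, nat_lit 43600, nat_lit 0, nat_lit 0, [nat_lit 631250, nat_lit 1271250, nat_lit 1271250, nat_lit 1271250], [nat_lit 91, nat_lit 40, nat_lit 20, nat_lit 40]⟩, C1.Rw.none,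
 ⟨nat_lit 6538, nat_lit 6558, ⟨.ofNat (nat_lit 114464), .ofNat (nat_lit 122922), .ofNat (nat_lit 115535), .ofNat (nat_lit 123992), .ofNat (nat_lit 115416), .ofNat (nat_lit 123854), .ofNat (nat_lit 116486), .ofNat (nat_lit 124924)⟩, ⟨.ofNat (nat_lit 0), .ofNat (nat_lit 0), .ofNat (nat_lit 0), .ofNat (nat_lit 0), .ofNat (nat_lit 0), .ofNat (nat_lit 0), .ofNat (nat_lit 0), .ofNat (nat_lit 0)⟩⟩, [⟨nat_lit 0, nat_lit 100, nat_lit 100, nat_lit 28, nat_lit 6285917330⟩, ⟨nat_lit 0, nat_lit 100, nat_lit 100, nat_lit 28, nat_lit 10000000000⟩]⟩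
noncomputable def p007_l17 : Lf2 := ⟨nat_lit 0, nat_lit 5, [nat_lit 4, nat_lit 5, nat_lit 5, nat_lit 20], false, nat_lit 0, nat_lit 0, nat_lit 0, nat_lit 0, ⟨nat_lit 0, nat_lit 0, nat_lit 1000, nat_lit 5, nat_lit 48, nat_lit 0, nat_lit 0, nat_lit 0, nat_lit 0, nat_lit 215, nat_lit 21600, nat_lit 251, nat_lit 66053592, nat_lit 0, nat_lit 0, nat_lit 370877, false, false⟩,
 nat_lit 100000, nat_lit 100000, nat_lit 100000, nat_lit 100000, nat_lit 99708, nat_lit 99198, nat_lit 7607, nat_lit 4368, nat_lit 0, nat_lit 60000, nat_lit 4487, nat_lit 0, nat_lit 0, nat_lit 0, nat_lit 0, nat_lit 717445, nat_lit 0, nat_lit 0, [(nat_lit 3, [(nat_lit 3, nat_lit 351), (nat_lit 6, nat_lit 649)])],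
 ⟨p007_k2, nat_lit 0, nat_lit 0, nat_lit 0, nat_lit 0, nat_lit 69100, [nat_lit 100131161715, nat_lit 103817861600, nat_lit 119822797600], [], [nat_lit 202493315130, nat_lit 203052703951, nat_lit 195466952854, nat_lit 195675677315], nat_lit 1271250, nat_lit 1271250, nat_lit 21650, nat_lit 43600, nat_lit 0, nat_lit 0, [nat_lit 1412500, nat_lit 1271250, nat_lit 1271250], [nat_lit 25, nat_lit 40, nat_lit 20, nat_lit 80]⟩, ⟨p007_k3, nat_lit 0, nat_lit 0, nat_lit 0, nat_lit 0, nat_lit 69483, [nat_lit 89740000000, nat_lit 107688000000, nat_lit 125636000000], [], [nat_lit 80179386218, nat_lit 80650828681, nat_lit 74354324492, nat_lit 74658229886], nat_lit 1271250, nat_lit 1271250, nat_lit 21650, nat_lit 43600, nat_lit 0, nat_lit 0, [nat_lit 1412500, nat_lit 1271250, nat_lit 1271250], [nat_lit 25, nat_lit 40, nat_lit 20, nat_lit 80]⟩,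
 ⟨nat_lit 6538, nat_lit 6558, ⟨.ofNat (nat_lit 114464), .ofNat (nat_lit 122922), .ofNat (nat_lit 115535), .ofNat (nat_lit 123992), .ofNat (nat_lit 115416), .ofNat (nat_lit 123854), .ofNat (nat_lit 116486), .ofNat (nat_lit 124924)⟩, ⟨.ofNat (nat_lit 0), .ofNat (nat_lit 0), .ofNat (nat_lit 0), .ofNat (nat_lit 0), .ofNat (nat_lit 0), .ofNat (nat_lit 0), .ofNat (nat_lit 0), .ofNat (nat_lit 0)⟩⟩, [⟨nat_lit 0, nat_lit 100, nat_lit 100, nat_lit 28, nat_lit 10000000000⟩, ⟨nat_lit 0, nat_lit 100, nat_lit 100, nat_lit 28, nat_lit 10000000000⟩, ⟨nat_lit 0, nat_lit 100, nat_lit 100, nat_lit 27, nat_lit 10000000000⟩]⟩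
noncomputable def p007_l18 : Lf2 := ⟨nat_lit 0, nat_lit 5, [nat_lit 4, nat_lit 5, nat_lit 5, nat_lit 20], true, nat_lit 0, nat_lit 0, nat_lit 0, nat_lit 0, ⟨nat_lit 0, nat_lit 0, nat_lit 1000, nat_lit 5, nat_lit 48, nat_lit 0, nat_lit 0, nat_lit 0, nat_lit 0, nat_lit 215, nat_lit 21600, nat_lit 251, nat_lit 66053592, nat_lit 0, nat_lit 0, nat_lit 370877, false, false⟩,
 nat_lit 0, nat_lit 100000, nat_lit 0, nat_lit 0, nat_lit 49854, nat_lit 0, nat_lit 7930, nat_lit 132, nat_lit 0, nat_lit 0, nat_lit 0, nat_lit 0, nat_lit 0, nat_lit 0, nat_lit 0, nat_lit 400000, nat_lit 13545783039, nat_lit 0, [(nat_lit 3, [(nat_lit 5, nat_lit 1000)])],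
 ⟨p007_k1, nat_lit 0, nat_lit 0, nat_lit 0, nat_lit 0, nat_lit 69100, [nat_lit 2251600001, nat_lit 3015600001, nat_lit 2681600001, nat_lit 2018000000], [], [nat_lit 3011697301, nat_lit 3296542951, nat_lit 0, nat_lit 197512917], nat_lit 1271250, nat_lit 1271250, nat_lit 21650, nat_lit 43600, nat_lit 0, nat_lit 0, [nat_lit 631250, nat_lit 1271250, nat_lit 1271250, nat_lit 1271250], [nat_lit 91, nat_lit 40, nat_lit 20, nat_lit 40]⟩, C1.Rw.none,
 ⟨nat_lit 6538, nat_lit 6558, ⟨.ofNat (nat_lit 114464), .ofNat (nat_lit 122922), .ofNat (nat_lit 115535), .ofNat (nat_lit 123992), .ofNat (nat_lit 115416), .ofNat (nat_lit 123854), .ofNat (nat_lit 116486), .ofNat (nat_lit 124924)⟩, ⟨.ofNat (nat_lit 0), .ofNat (nat_lit 0), .ofNat (nat_lit 0), .ofNat (nat_lit 0), .ofNat (nat_lit 0), .ofNat (nat_lit 0), .ofNat (nat_lit 0), .ofNat (nat_lit 0)⟩⟩, [⟨nat_lit 0, nat_lit 100, nat_lit 100, nat_lit 28, nat_lit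 10000000000⟩, ⟨nat_lit 0, nat_lit 100, nat_lit 100, nat_lit 28, nat_lit 6285917330⟩]⟩
noncomputable def p007_l19 : Lf2 := ⟨nat_lit 0, nat_lit 5, [nat_lit 4, nat_lit 5, nat_lit 5, nat_lit 20], true, nat_lit 0, nat_lit 0, nat_lit 0, nat_lit 0, ⟨nat_lit 0, nat_lit 0, nat_lit 1000, nat_lit 5, nat_lit 48, nat_lit 0, nat_lit 0, nat_lit 0, nat_lit 0, nat_lit 215, nat_lit 21600, nat_lit 251, nat_lit 66053592, nat_lit 0, nat_lit 0, nat_lit 370877, false, false⟩,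
 nat_lit 0, nat_lit 100000, nat_lit 0, nat_lit 0, nat_lit 49854, nat_lit 0, nat_lit 7930, nat_lit 132, nat_lit 0, nat_lit 0, nat_lit 0, nat_lit 0, nat_lit 0, nat_lit 0, nat_lit 0, nat_lit 400000, nat_lit 13545783039, nat_lit 0, [(nat_lit 3, [(nat_lit 5, nat_lit 1000)])],
 ⟨p007_k1, nat_lit 0, nat_lit 0, nat_lit 0, nat_lit 0, nat_lit 69100, [nat_lit 2251600001, nat_lit 3015600001, nat_lit 2681600001, nat_lit 2018000000], [], [nat_lit 3011697301, nat_lit 3296542951, nat_lit 0, nat_lit 197512917], nat_lit 1271250, nat_lit 1271250, nat_lit 21650, nat_lit 43600, nat_lit 0, nat_lit 0, [nat_lit 631250, nat_lit 1271250, nat_lit 1271250, nat_lit 1271250], [nat_lit 91, nat_lit 40, nat_lit 20, nat_lit 40]⟩, C1.Rw.none,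
 ⟨nat_lit 6538, nat_lit 6558, ⟨.ofNat (nat_lit 114464), .ofNat (nat_lit 122922), .ofNat (nat_lit 115535), .ofNat (nat_lit 123992), .ofNat (nat_lit 115416), .ofNat (nat_lit 123854), .ofNat (nat_lit 116486), .ofNat (nat_lit 124924)⟩, ⟨.ofNat (nat_lit 0), .ofNat (nat_lit 0), .ofNat (nat_lit 0), .ofNat (nat_lit 0), .ofNat (nat_lit 0), .ofNat (nat_lit 0), .ofNat (nat_lit 0), .ofNat (nat_lit 0)⟩⟩, [⟨nat_lit 0, nat_lit 100, nat_lit 100, nat_lit 28, nat_lit 6285917330⟩, ⟨nat_lit 0, nat_lit 100, nat_lit 100, nat_lit 28, nat_lit 10000000000⟩]⟩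
noncomputable def p007_l20 : Lf2 := ⟨nat_lit 0, nat_lit 5, [nat_lit 4, nat_lit 5, nat_lit 5, nat_lit 20], false, nat_lit 0, nat_lit 0, nat_lit 0, nat_lit 0, ⟨nat_lit 0, nat_lit 0, nat_lit 1000, nat_lit 5, nat_lit 48, nat_lit 0, nat_lit 0, nat_lit 0, nat_lit 0, nat_lit 215, nat_lit 21600, nat_lit 251, nat_lit 66053592, nat_lit 0, nat_lit 0, nat_lit 370877, false, false⟩,
 nat_lit 100000, nat_lit 100000, nat_lit 100000, nat_lit 100000, nat_lit 99708, nat_lit 99198, nat_lit 34569, nat_lit 4339, nat_lit 0, nat_lit 60000, nat_lit 4487, nat_lit 0, nat_lit 0, nat_lit 0, nat_lit 0, nat_lit 375400, nat_lit 0, nat_lit 0, [(nat_lit 3, [(nat_lit 3, nat_lit 120), (nat_lit 5, nat_lit 880)])],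
 ⟨p007_k2, nat_lit 0, nat_lit 0, nat_lit 0, nat_lit 0, nat_lit 69100, [nat_lit 92297152001, nat_lit 103419856001, nat_lit 119876304000], [], [nat_lit 128906859030, nat_lit 129466247851, nat_lit 121777068200, nat_lit 122110222071], nat_lit 1271250, nat_lit 1271250, nat_lit 21650, nat_lit 43600, nat_lit 0, nat_lit 0, [nat_lit 1412500, nat_lit 1271250, nat_lit 1271250], [nat_lit 25, nat_lit 40, nat_lit 20, nat_lit 80]⟩, ⟨p007_k3, nat_lit 0, nat_lit 0, nat_lit 0, nat_lit 0, nat_lit 69483, [nat_lit 89740000000, nat_lit 107688000000, nat_lit 125636000000], [], [nat_lit 80179386218, nat_lit 80650828681, nat_lit 74354324492, nat_lit 74658229886], nat_lit 1271250, nat_lit 1271250, nat_lit 21650, nat_lit 43600, nat_lit 0, nat_lit 0, [nat_lit 1412500, nat_lit 1271250, nat_lit 1271250], [nat_lit 25, nat_lit 40, nat_lit 20, nat_lit 80]⟩,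
 ⟨nat_lit 6538, nat_lit 6558, ⟨.ofNat (nat_lit 114464), .ofNat (nat_lit 122922), .ofNat (nat_lit 115535), .ofNat (nat_lit 123992), .ofNat (nat_lit 115416), .ofNat (nat_lit 123854), .ofNat (nat_lit 116486), .ofNat (nat_lit 124924)⟩, ⟨.ofNat (nat_lit 0), .ofNat (nat_lit 0), .ofNat (nat_lit 0), .ofNat (nat_lit 0), .ofNat (nat_lit 0), .ofNat (nat_lit 0), .ofNat (nat_lit 0), .ofNat (nat_lit 0)⟩⟩, [⟨nat_lit 0, nat_lit 100, nat_lit 100, nat_lit 28, nat_lit 10000000000⟩, ⟨nat_lit 0, nat_lit 100, nat_lit 100, nat_lit 28, nat_lit 10000000000⟩, ⟨nat_lit 0, nat_lit 100, nat_lit 100, nat_lit 27, nat_lit 10000000000⟩, ⟨nat_lit 13, nat_lit 100, nat_lit 1, nat_lit 100, nat_lit 306935513⟩]⟩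
noncomputable def p007_l21 : Lf2 := ⟨nat_lit 0, nat_lit 5, [nat_lit 4, nat_lit 5, nat_lit 5, nat_lit 20], true, nat_lit 0, nat_lit 0, nat_lit 0, nat_lit 0, ⟨nat_lit 0, nat_lit 0, nat_lit 1000, nat_lit 5, nat_lit 48, nat_lit 0, nat_lit 0, nat_lit 0, nat_lit 0, nat_lit 215, nat_lit 21600, nat_lit 251, nat_lit 66036837, nat_lit 0, nat_lit 0, nat_lit 376178, false, false⟩,
 nat_lit 0, nat_lit 100000, nat_lit 0, nat_lit 0, nat_lit 49854, nat_lit 0, nat_lit 7947, nat_lit 126, nat_lit 0, nat_lit 0, nat_lit 0, nat_lit 0, nat_lit 0, nat_lit 0, nat_lit 0, nat_lit 400000, nat_lit 13897473665, nat_lit 0, [(nat_lit 3, [(nat_lit 5, nat_lit 1000)])],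
 ⟨p007_k1, nat_lit 0, nat_lit 0, nat_lit 0, nat_lit 0, nat_lit 73379, [nat_lit 2191600000, nat_lit 2907600000, nat_lit 2549600000, nat_lit 1850000000], [], [nat_lit 3089116051, nat_lit 3373961701, nat_lit 0, nat_lit 271729417], nat_lit 1271250, nat_lit 1271250, nat_lit 21650, nat_lit 43600, nat_lit 0, nat_lit 0, [nat_lit 631250, nat_lit 1271250, nat_lit 1271250, nat_lit 1271250], [nat_lit 91, nat_lit 40, nat_lit 20, nat_lit 40]⟩, C1.Rw.none,
 ⟨nat_lit 6538, nat_lit 6558, ⟨.ofNat (nat_lit 115535), .ofNat (nat_lit 123992), .ofNat (nat_lit 116605), .ofNat (nat_lit 125063), .ofNat (nat_lit 116486), .ofNat (nat_lit 124924), .ofNat (nat_lit 117556), .ofNat (nat_lit 125994)⟩, ⟨.ofNat (nat_lit 0), .ofNat (nat_lit 0), .ofNat (nat_lit 0), .ofNat (nat_lit 0), .ofNat (nat_lit 0), .ofNat (nat_lit 0), .ofNat (nat_lit 0), .ofNat (nat_lit 0)⟩⟩, [⟨nat_lit 0, nat_lit 100, nat_lit 100, nat_lit 29, nat_lit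 7942182248⟩, ⟨nat_lit 0, nat_lit 100, nat_lit 100, nat_lit 28, nat_lit 10000000000⟩]⟩
noncomputable def p007_l22 : Lf2 := ⟨nat_lit 0, nat_lit 5, [nat_lit 4, nat_lit 5, nat_lit 5, nat_lit 20], true, nat_lit 0, nat_lit 0, nat_lit 0, nat_lit 0, ⟨nat_lit 0, nat_lit 0, nat_lit 1000, nat_lit 5, nat_lit 48, nat_lit 0, nat_lit 0, nat_lit 0, nat_lit 0, nat_lit 215, nat_lit 21600, nat_lit 251, nat_lit 66036837, nat_lit 0, nat_lit 0, nat_lit 376178, false, false⟩,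
 nat_lit 0, nat_lit 100000, nat_lit 0, nat_lit 0, nat_lit 49854, nat_lit 0, nat_lit 7947, nat_lit 126, nat_lit 0, nat_lit 0, nat_lit 0, nat_lit 0, nat_lit 0, nat_lit 0, nat_lit 0, nat_lit 400000, nat_lit 13897473665, nat_lit 0, [(nat_lit 3, [(nat_lit 5, nat_lit 1000)])],
 ⟨p007_k1, nat_lit 0, nat_lit 0, nat_lit 0, nat_lit 0, nat_lit 73379, [nat_lit 2191600000, nat_lit 2907600000, nat_lit 2549600000, nat_lit 1850000000], [], [nat_lit 3089116051, nat_lit 3373961701, nat_lit 0, nat_lit 271729417], nat_lit 1271250, nat_lit 1271250, nat_lit 21650, nat_lit 43600, nat_lit 0, nat_lit 0, [nat_lit 631250, nat_lit 1271250, nat_lit 1271250, nat_lit 1271250], [nat_lit 91, nat_lit 40, nat_lit 20, nat_lit 40]⟩, C1.Rw.none,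
 ⟨nat_lit 6538, nat_lit 6558, ⟨.ofNat (nat_lit 115535), .ofNat (nat_lit 123992), .ofNat (nat_lit 116605), .ofNat (nat_lit 125063), .ofNat (nat_lit 116486), .ofNat (nat_lit 124924), .ofNat (nat_lit 117556), .ofNat (nat_lit 125994)⟩, ⟨.ofNat (nat_lit 0), .ofNat (nat_lit 0), .ofNat (nat_lit 0), .ofNat (nat_lit 0), .ofNat (nat_lit 0), .ofNat (nat_lit 0), .ofNat (nat_lit 0), .ofNat (nat_lit 0)⟩⟩, [⟨nat_lit 0, nat_lit 100, nat_lit 100, nat_lit 29, nat_lit 7942182248⟩, ⟨nat_lit 0, nat_lit 100, nat_lit 100, nat_lit 28, nat_lit 10000000000⟩]⟩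
noncomputable def p007_l23 : Lf2 := ⟨nat_lit 0, nat_lit 5, [nat_lit 4, nat_lit 5, nat_lit 5, nat_lit 20], false, nat_lit 0, nat_lit 0, nat_lit 0, nat_lit 0, ⟨nat_lit 0, nat_lit 0, nat_lit 1000, nat_lit 5, nat_lit 48, nat_lit 0, nat_lit 0, nat_lit 0, nat_lit 0, nat_lit 215, nat_lit 21600, nat_lit 251, nat_lit 66036837, nat_lit 0, nat_lit 0, nat_lit 376178, false, false⟩,
 nat_lit 100000, nat_lit 100000, nat_lit 100000, nat_lit 100000, nat_lit 99708, nat_lit 99708, nat_lit 38860, nat_lit 4562, nat_lit 0, nat_lit 60000, nat_lit 4513, nat_lit 0, nat_lit 0, nat_lit 400000000000000, nat_lit 0, nat_lit 1000000, nat_lit 0, nat_lit 0, [(nat_lit 3, [(nat_lit 6, nat_lit 1000)])],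
 ⟨p007_k2, nat_lit 0, nat_lit 0, nat_lit 0, nat_lit 0, nat_lit 73379, [nat_lit 92281142858, nat_lit 108227600000, nat_lit 124539600000], [], [nat_lit 128773349987, nat_lit 129472949067, nat_lit 121752237663, nat_lit 122085391534], nat_lit 1271250, nat_lit 1271250, nat_lit 21650, nat_lit 43600, nat_lit 0, nat_lit 0, [nat_lit 1412500, nat_lit 1271250, nat_lit 1271250], [nat_lit 25, nat_lit 40, nat_lit 20, nat_lit 80]⟩, ⟨p007_k2, nat_lit 0, nat_lit 0, nat_lit 0, nat_lit 0, nat_lit 73379, [nat_lit 90260000000, nat_lit 108312000000, nat_lit 126364000000], [], [nat_lit 79089523560, nat_lit 79563389818, nat_lit 73124164467, nat_lit 73540554002], nat_lit 1271250, nat_lit 1271250, nat_lit 21650, nat_lit 43600, nat_lit 0, nat_lit 0, [nat_lit 1412500, nat_lit 1271250, nat_lit 1271250], [nat_lit 25, nat_lit 40, nat_lit 20, nat_lit 80]⟩,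
 ⟨nat_lit 6538, nat_lit 6558, ⟨.ofNat (nat_lit 115535), .ofNat (nat_lit 123992), .ofNat (nat_lit 116605), .ofNat (nat_lit 125063), .ofNat (nat_lit 116486), .ofNat (nat_lit 124924), .ofNat (nat_lit 117556), .ofNat (nat_lit 125994)⟩, ⟨.ofNat (nat_lit 0), .ofNat (nat_lit 0), .ofNat (nat_lit 0), .ofNat (nat_lit 0), .ofNat (nat_lit 0), .ofNat (nat_lit 0), .ofNat (nat_lit 0), .ofNat (nat_lit 0)⟩⟩, [⟨nat_lit 0, nat_lit 100, nat_lit 100, nat_lit 29, nat_lit 10000000000⟩, ⟨nat_lit 0, nat_lit 100, nat_lit 100, nat_lit 29, nat_lit 10000000000⟩, ⟨nat_lit 0, nat_lit 100, nat_lit 100, nat_lit 28, nat_lit 10000000000⟩, ⟨nat_lit 13, nat_lit 100, nat_lit 1, nat_lit 100, nat_lit 178524339⟩]⟩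
noncomputable def p007_l24 : Lf2 := ⟨nat_lit 0, nat_lit 5, [nat_lit 4, nat_lit 5, nat_lit 5, nat_lit 20], true, nat_lit 0, nat_lit 0, nat_lit 0, nat_lit 0, ⟨nat_lit 0, nat_lit 0, nat_lit 1000, nat_lit 5, nat_lit 48, nat_lit 0, nat_lit 0, nat_lit 0, nat_lit 0, nat_lit 215, nat_lit 21600, nat_lit 251, nat_lit 66036837, nat_lit 0, nat_lit 0, nat_lit 376178, false, false⟩,
 nat_lit 0, nat_lit 100000, nat_lit 0, nat_lit 0, nat_lit 49854, nat_lit 0, nat_lit 7947, nat_lit 126, nat_lit 0, nat_lit 0, nat_lit 0, nat_lit 0, nat_lit 0, nat_lit 0, nat_lit 0, nat_lit 400000, nat_lit 13897473665, nat_lit 0, [(nat_lit 3, [(nat_lit 5, nat_lit 1000)])],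
 ⟨p007_k1, nat_lit 0, nat_lit 0, nat_lit 0, nat_lit 0, nat_lit 73379, [nat_lit 2191600000, nat_lit 2907600000, nat_lit 2549600000, nat_lit 1850000000], [], [nat_lit 3089116051, nat_lit 3373961701, nat_lit 0, nat_lit 271729417], nat_lit 1271250, nat_lit 1271250, nat_lit 21650, nat_lit 43600, nat_lit 0, nat_lit 0, [nat_lit 631250, nat_lit 1271250, nat_lit 1271250, nat_lit 1271250], [nat_lit 91, nat_lit 40, nat_lit 20, nat_lit 40]⟩, C1.Rw.none,
 ⟨nat_lit 6538, nat_lit 6558, ⟨.ofNat (nat_lit 115535), .ofNat (nat_lit 123992), .ofNat (nat_lit 116605), .ofNat (nat_lit 125063), .ofNat (nat_lit 116486), .ofNat (nat_lit 124924), .ofNat (nat_lit 117556), .ofNat (nat_lit 125994)⟩, ⟨.ofNat (nat_lit 0), .ofNat (nat_lit 0), .ofNat (nat_lit 0), .ofNat (nat_lit 0), .ofNat (nat_lit 0), .ofNat (nat_lit 0), .ofNat (nat_lit 0), .ofNat (nat_lit 0)⟩⟩, [⟨nat_lit 0, nat_lit 100, nat_lit 100, nat_lit 29, nat_lit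 7942182248⟩, ⟨nat_lit 0, nat_lit 100, nat_lit 100, nat_lit 28, nat_lit 10000000000⟩]⟩
noncomputable def p007_l25 : Lf2 := ⟨nat_lit 0, nat_lit 5, [nat_lit 4, nat_lit 5, nat_lit 5, nat_lit 20], true, nat_lit 0, nat_lit 0, nat_lit 0, nat_lit 0, ⟨nat_lit 0, nat_lit 0, nat_lit 1000, nat_lit 5, nat_lit 48, nat_lit 0, nat_lit 0, nat_lit 0, nat_lit 0, nat_lit 215, nat_lit 21600, nat_lit 251, nat_lit 66036837, nat_lit 0, nat_lit 0, nat_lit 376178, false, false⟩,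
 nat_lit 0, nat_lit 100000, nat_lit 0, nat_lit 0, nat_lit 49854, nat_lit 0, nat_lit 7947, nat_lit 126, nat_lit 0, nat_lit 0, nat_lit 0, nat_lit 0, nat_lit 0, nat_lit 0, nat_lit 0, nat_lit 400000, nat_lit 13897473665, nat_lit 0, [(nat_lit 3, [(nat_lit 5, nat_lit 1000)])],
 ⟨p007_k1, nat_lit 0, nat_lit 0, nat_lit 0, nat_lit 0, nat_lit 73379, [nat_lit 2191600000, nat_lit 2907600000, nat_lit 2549600000, nat_lit 1850000000], [], [nat_lit 3089116051, nat_lit 3373961701, nat_lit 0, nat_lit 271729417], nat_lit 1271250, nat_lit 1271250, nat_lit 21650, nat_lit 43600, nat_lit 0, nat_lit 0, [nat_lit 631250, nat_lit 1271250, nat_lit 1271250, nat_lit 1271250], [nat_lit 91, nat_lit 40, nat_lit 20, nat_lit 40]⟩, C1.Rw.none,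
 ⟨nat_lit 6538, nat_lit 6558, ⟨.ofNat (nat_lit 115535), .ofNat (nat_lit 123992), .ofNat (nat_lit 116605), .ofNat (nat_lit 125063), .ofNat (nat_lit 116486), .ofNat (nat_lit 124924), .ofNat (nat_lit 117556), .ofNat (nat_lit 125994)⟩, ⟨.ofNat (nat_lit 0), .ofNat (nat_lit 0), .ofNat (nat_lit 0), .ofNat (nat_lit 0), .ofNat (nat_lit 0), .ofNat (nat_lit 0), .ofNat (nat_lit 0), .ofNat (nat_lit 0)⟩⟩, [⟨nat_lit 0, nat_lit 100, nat_lit 100, nat_lit 29, nat_lit 7942182248⟩, ⟨nat_lit 0, nat_lit 100, nat_lit 100, nat_lit 28, nat_lit 10000000000⟩]⟩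
noncomputable def p007_l26 : Lf2 := ⟨nat_lit 0, nat_lit 5, [nat_lit 4, nat_lit 5, nat_lit 5, nat_lit 20], false, nat_lit 0, nat_lit 0, nat_lit 0, nat_lit 0, ⟨nat_lit 0, nat_lit 0, nat_lit 1000, nat_lit 5, nat_lit 48, nat_lit 0, nat_lit 0, nat_lit 0, nat_lit 0, nat_lit 215, nat_lit 21600, nat_lit 251, nat_lit 66036837, nat_lit 0, nat_lit 0, nat_lit 376178, false, false⟩,
 nat_lit 100000, nat_lit 100000, nat_lit 100000, nat_lit 100000, nat_lit 99708, nat_lit 99708, nat_lit 49059, nat_lit 5055, nat_lit 0, nat_lit 60000, nat_lit 4510, nat_lit 0, nat_lit 0, nat_lit 400000000000000, nat_lit 0, nat_lit 400000, nat_lit 0, nat_lit 0, [(nat_lit 3, [(nat_lit 5, nat_lit 1000)])],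
 ⟨p007_k2, nat_lit 0, nat_lit 0, nat_lit 0, nat_lit 0, nat_lit 73379, [nat_lit 102670400001, nat_lit 120582400001, nat_lit 139862000000], [], [nat_lit 148516308123, nat_lit 148850694641, nat_lit 143475420700, nat_lit 143808574571], nat_lit 1271250, nat_lit 1271250, nat_lit 21650, nat_lit 43600, nat_lit 0, nat_lit 0, [nat_lit 1412500, nat_lit 1271250, nat_lit 1271250], [nat_lit 25, nat_lit 40, nat_lit 20, nat_lit 80]⟩, ⟨p007_k2, nat_lit 0, nat_lit 0, nat_lit 0, nat_lit 0, nat_lit 73379, [nat_lit 90200000000, nat_lit 108240000000, nat_lit 126280000000], [], [nat_lit 78957523560, nat_lit 79431389818, nat_lit 72934115420, nat_lit 73408554002], nat_lit 1271250, nat_lit 1271250, nat_lit 21650, nat_lit 43600, nat_lit 0, nat_lit 0, [nat_lit 1412500, nat_lit 1271250, nat_lit 1271250], [nat_lit 25, nat_lit 40, nat_lit 20, nat_lit 80]⟩,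
 ⟨nat_lit 6538, nat_lit 6558, ⟨.ofNat (nat_lit 115535), .ofNat (nat_lit 123992), .ofNat (nat_lit 116605), .ofNat (nat_lit 125063), .ofNat (nat_lit 116486), .ofNat (nat_lit 124924), .ofNat (nat_lit 117556), .ofNat (nat_lit 125994)⟩, ⟨.ofNat (nat_lit 0), .ofNat (nat_lit 0), .ofNat (nat_lit 0), .ofNat (nat_lit 0), .ofNat (nat_lit 0), .ofNat (nat_lit 0), .ofNat (nat_lit 0), .ofNat (nat_lit 0)⟩⟩, [⟨nat_lit 0, nat_lit 100, nat_lit 100, nat_lit 29, nat_lit 10000000000⟩, ⟨nat_lit 0, nat_lit 100, nat_lit 100, nat_lit 29, nat_lit 10000000000⟩, ⟨nat_lit 0, nat_lit 100, nat_lit 100, nat_lit 28, nat_lit 10000000000⟩]⟩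
noncomputable def p007_l27 : Lf2 := ⟨nat_lit 0, nat_lit 5, [nat_lit 4, nat_lit 5, nat_lit 5, nat_lit 20], true, nat_lit 0, nat_lit 0, nat_lit 0, nat_lit 0, ⟨nat_lit 0, nat_lit 0, nat_lit 1000, nat_lit 5, nat_lit 47, nat_lit 0, nat_lit 0, nat_lit 0, nat_lit 0, nat_lit 215, nat_lit 21600, nat_lit 251, nat_lit 66072202, nat_lit 0, nat_lit 0, nat_lit 364963, false, false⟩,
 nat_lit 0, nat_lit 8722, nat_lit 0, nat_lit 0, nat_lit 4370, nat_lit 0, nat_lit 0, nat_lit 0, nat_lit 0, nat_lit 0, nat_lit 0, nat_lit 0, nat_lit 0, nat_lit 0, nat_lit 114, nat_lit 993400, nat_lit 0, nat_lit 0, [(nat_lit 3, [(nat_lit 5, nat_lit 11), (nat_lit 6, nat_lit 989)])],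
 ⟨p007_k4, nat_lit 0, nat_lit 0, nat_lit 0, nat_lit 0, nat_lit 64540, [nat_lit 2994268218, nat_lit 2216370001, nat_lit 12302400], [], [nat_lit 14415415965, nat_lit 14472739624, nat_lit 14132719487, nat_lit 14188720669], nat_lit 1271250, nat_lit 1271250, nat_lit 21650, nat_lit 43600, nat_lit 0, nat_lit 0, [nat_lit 1271250, nat_lit 1271250, nat_lit 1271250], [nat_lit 103, nat_lit 40, nat_lit 20, nat_lit 40]⟩, C1.Rw.none,
 ⟨nat_lit 6519, nat_lit 6539, ⟨.ofNat (nat_lit 113276), .ofNat (nat_lit 121714), .ofNat (nat_lit 114346), .ofNat (nat_lit 122784), .ofNat (nat_lit 114225), .ofNat (nat_lit 122644), .ofNat (nat_lit 115295), .ofNat (nat_lit 123714)⟩, ⟨.ofNat (nat_lit 0), .ofNat (nat_lit 0), .ofNat (nat_lit 0), .ofNat (nat_lit 0), .ofNat (nat_lit 0), .ofNat (nat_lit 0), .ofNat (nat_lit 0), .ofNat (nat_lit 0)⟩⟩, [⟨nat_lit 0, nat_lit 100, nat_lit 100, nat_lit 27, nat_lit 461321364⟩]⟩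
noncomputable def p007_l28 : Lf2 := ⟨nat_lit 0, nat_lit 5, [nat_lit 4, nat_lit 5, nat_lit 5, nat_lit 20], true, nat_lit 0, nat_lit 0, nat_lit 0, nat_lit 0, ⟨nat_lit 0, nat_lit 0, nat_lit 1000, nat_lit 5, nat_lit 48, nat_lit 0, nat_lit 0, nat_lit 0, nat_lit 0, nat_lit 215, nat_lit 21600, nat_lit 251, nat_lit 66055608, nat_lit 0, nat_lit 0, nat_lit 370238, false, false⟩,
 nat_lit 0, nat_lit 100000, nat_lit 0, nat_lit 0, nat_lit 50109, nat_lit 0, nat_lit 8003, nat_lit 166, nat_lit 0, nat_lit 0, nat_lit 0, nat_lit 0, nat_lit 0, nat_lit 0, nat_lit 0, nat_lit 400000, nat_lit 12584969777, nat_lit 0, [(nat_lit 3, [(nat_lit 5, nat_lit 1000)])],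
 ⟨p007_k7, nat_lit 0, nat_lit 0, nat_lit 0, nat_lit 0, nat_lit 68771, [nat_lit 2591600001, nat_lit 3627600001, nat_lit 3429600001, nat_lit 2970000000], [], [nat_lit 3036291692, nat_lit 3322425842, nat_lit 0, nat_lit 202893232], nat_lit 1271250, nat_lit 1271250, nat_lit 21650, nat_lit 43600, nat_lit 0, nat_lit 0, [nat_lit 631250, nat_lit 1271250, nat_lit 1271250, nat_lit 1271250], [nat_lit 91, nat_lit 40, nat_lit 20, nat_lit 40]⟩, C1.Rw.none,
 ⟨nat_lit 6519, nat_lit 6539, ⟨.ofNat (nat_lit 114346), .ofNat (nat_lit 122784), .ofNat (nat_lit 115416), .ofNat (nat_lit 123854), .ofNat (nat_lit 115295), .ofNat (nat_lit 123714), .ofNat (nat_lit 116365), .ofNat (nat_lit 124784)⟩, ⟨.ofNat (nat_lit 0), .ofNat (nat_lit 0), .ofNat (nat_lit 0), .ofNat (nat_lit 0), .ofNat (nat_lit 0), .ofNat (nat_lit 0), .ofNat (nat_lit 0), .ofNat (nat_lit 0)⟩⟩, [⟨nat_lit 0, nat_lit 100, nat_lit 100, nat_lit 28, nat_lit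 6187122001⟩, ⟨nat_lit 0, nat_lit 100, nat_lit 100, nat_lit 28, nat_lit 10000000000⟩]⟩
noncomputable def p007_l29 : Lf2 := ⟨nat_lit 0, nat_lit 5, [nat_lit 4, nat_lit 5, nat_lit 5, nat_lit 20], true, nat_lit 0, nat_lit 0, nat_lit 0, nat_lit 0, ⟨nat_lit 0, nat_lit 0, nat_lit 1000, nat_lit 5, nat_lit 48, nat_lit 0, nat_lit 0, nat_lit 0, nat_lit 0, nat_lit 215, nat_lit 21600, nat_lit 251, nat_lit 66055608, nat_lit 0, nat_lit 0, nat_lit 370238, false, false⟩,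
 nat_lit 0, nat_lit 100000, nat_lit 0, nat_lit 0, nat_lit 50109, nat_lit 0, nat_lit 8003, nat_lit 166, nat_lit 0, nat_lit 0, nat_lit 0, nat_lit 0, nat_lit 0, nat_lit 0, nat_lit 0, nat_lit 400000, nat_lit 12584969777, nat_lit 0, [(nat_lit 3, [(nat_lit 5, nat_lit 1000)])],
 ⟨p007_k7, nat_lit 0, nat_lit 0, nat_lit 0, nat_lit 0, nat_lit 68771, [nat_lit 2591600001, nat_lit 3627600001, nat_lit 3429600001, nat_lit 2970000000], [], [nat_lit 3036291692, nat_lit 3322425842, nat_lit 0, nat_lit 202893232], nat_lit 1271250, nat_lit 1271250, nat_lit 21650, nat_lit 43600, nat_lit 0, nat_lit 0, [nat_lit 631250, nat_lit 1271250, nat_lit 1271250, nat_lit 1271250], [nat_lit 91, nat_lit 40, nat_lit 20, nat_lit 40]⟩, C1.Rw.none,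
 ⟨nat_lit 6519, nat_lit 6539, ⟨.ofNat (nat_lit 114346), .ofNat (nat_lit 122784), .ofNat (nat_lit 115416), .ofNat (nat_lit 123854), .ofNat (nat_lit 115295), .ofNat (nat_lit 123714), .ofNat (nat_lit 116365), .ofNat (nat_lit 124784)⟩, ⟨.ofNat (nat_lit 0), .ofNat (nat_lit 0), .ofNat (nat_lit 0), .ofNat (nat_lit 0), .ofNat (nat_lit 0), .ofNat (nat_lit 0), .ofNat (nat_lit 0), .ofNat (nat_lit 0)⟩⟩, [⟨nat_lit 0, nat_lit 100, nat_lit 100, nat_lit 28, nat_lit 6187122001⟩, ⟨nat_lit 0, nat_lit 100, nat_lit 100, nat_lit 28, nat_lit 10000000000⟩]⟩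
noncomputable def p007_l30 : Lf2 := ⟨nat_lit 0, nat_lit 5, [nat_lit 4, nat_lit 5, nat_lit 5, nat_lit 20], false, nat_lit 0, nat_lit 0, nat_lit 0, nat_lit 0, ⟨nat_lit 0, nat_lit 0, nat_lit 1000, nat_lit 5, nat_lit 48, nat_lit 0, nat_lit 0, nat_lit 0, nat_lit 0, nat_lit 215, nat_lit 21600, nat_lit 251, nat_lit 66055608, nat_lit 0, nat_lit 0, nat_lit 370238, false, false⟩,
 nat_lit 100000, nat_lit 100000, nat_lit 100000, nat_lit 100000, nat_lit 100000, nat_lit 98689, nat_lit 60000, nat_lit 5633, nat_lit 0, nat_lit 28590, nat_lit 4748, nat_lit 0, nat_lit 0, nat_lit 0, nat_lit 0, nat_lit 250000, nat_lit 0, nat_lit 0, [(nat_lit 3, [(nat_lit 4, nat_lit 1000)])],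
 ⟨p007_k8, nat_lit 0, nat_lit 0, nat_lit 0, nat_lit 0, nat_lit 68771, [nat_lit 116092000001, nat_lit 134585200001, nat_lit 156426000000], [], [nat_lit 175483373182, nat_lit 176087512203, nat_lit 169730091244, nat_lit 170075507403], nat_lit 1271250, nat_lit 1271250, nat_lit 21650, nat_lit 43600, nat_lit 0, nat_lit 0, [nat_lit 1412500, nat_lit 1271250, nat_lit 1271250], [nat_lit 25, nat_lit 40, nat_lit 20, nat_lit 80]⟩, ⟨p007_k6, nat_lit 0, nat_lit 0, nat_lit 0, nat_lit 0, nat_lit 69920, [nat_lit 94960000000, nat_lit 113952000000, nat_lit 132944000000], [], [nat_lit 132397682207, nat_lit 132782760764, nat_lit 126541982217, nat_lit 126846467407], nat_lit 1271250, nat_lit 1271250, nat_lit 21650, nat_lit 43600, nat_lit 0, nat_lit 0, [nat_lit 1412500, nat_lit 1271250, nat_lit 1271250], [nat_lit 25, nat_lit 40, nat_lit 20, nat_lit 80]⟩,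
 ⟨nat_lit 6519, nat_lit 6539, ⟨.ofNat (nat_lit 114346), .ofNat (nat_lit 122784), .ofNat (nat_lit 115416), .ofNat (nat_lit 123854), .ofNat (nat_lit 115295), .ofNat (nat_lit 123714), .ofNat (nat_lit 116365), .ofNat (nat_lit 124784)⟩, ⟨.ofNat (nat_lit 0), .ofNat (nat_lit 0), .ofNat (nat_lit 0), .ofNat (nat_lit 0), .ofNat (nat_lit 0), .ofNat (nat_lit 0), .ofNat (nat_lit 0), .ofNat (nat_lit 0)⟩⟩, [⟨nat_lit 0, nat_lit 100, nat_lit 100, nat_lit 28, nat_lit 10000000000⟩, ⟨nat_lit 0, nat_lit 100, nat_lit 100, nat_lit 28, nat_lit 10000000000⟩, ⟨nat_lit 0, nat_lit 100, nat_lit 100, nat_lit 27, nat_lit 10000000000⟩]⟩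
noncomputable def p007_l31 : Lf2 := ⟨nat_lit 0, nat_lit 5, [nat_lit 4, nat_lit 5, nat_lit 5, nat_lit 20], true, nat_lit 0, nat_lit 0, nat_lit 0, nat_lit 0, ⟨nat_lit 0, nat_lit 0, nat_lit 1000, nat_lit 5, nat_lit 48, nat_lit 0, nat_lit 0, nat_lit 0, nat_lit 0, nat_lit 215, nat_lit 21600, nat_lit 251, nat_lit 66055608, nat_lit 0, nat_lit 0, nat_lit 370238, false, false⟩,
 nat_lit 0, nat_lit 100000, nat_lit 0, nat_lit 0, nat_lit 50109, nat_lit 0, nat_lit 8003, nat_lit 166, nat_lit 0, nat_lit 0, nat_lit 0, nat_lit 0, nat_lit 0, nat_lit 0, nat_lit 0, nat_lit 400000, nat_lit 12584969777, nat_lit 0, [(nat_lit 3, [(nat_lit 5, nat_lit 1000)])],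
 ⟨p007_k7, nat_lit 0, nat_lit 0, nat_lit 0, nat_lit 0, nat_lit 68771, [nat_lit 2591600001, nat_lit 3627600001, nat_lit 3429600001, nat_lit 2970000000], [], [nat_lit 3036291692, nat_lit 3322425842, nat_lit 0, nat_lit 202893232], nat_lit 1271250, nat_lit 1271250, nat_lit 21650, nat_lit 43600, nat_lit 0, nat_lit 0, [nat_lit 631250, nat_lit 1271250, nat_lit 1271250, nat_lit 1271250], [nat_lit 91, nat_lit 40, nat_lit 20, nat_lit 40]⟩, C1.Rw.none,
 ⟨nat_lit 6519, nat_lit 6539, ⟨.ofNat (nat_lit 114346), .ofNat (nat_lit 122784), .ofNat (nat_lit 115416), .ofNat (nat_lit 123854), .ofNat (nat_lit 115295), .ofNat (nat_lit 123714), .ofNat (nat_lit 116365), .ofNat (nat_lit 124784)⟩, ⟨.ofNat (nat_lit 0), .ofNat (nat_lit 0), .ofNat (nat_lit 0), .ofNat (nat_lit 0), .ofNat (nat_lit 0), .ofNat (nat_lit 0), .ofNat (nat_lit 0), .ofNat (nat_lit 0)⟩⟩, [⟨nat_lit 0, nat_lit 100, nat_lit 100, nat_lit 28, nat_lit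 6187122001⟩, ⟨nat_lit 0, nat_lit 100, nat_lit 100, nat_lit 28, nat_lit 10000000000⟩]⟩
noncomputable def p007_l32 : Lf2 := ⟨nat_lit 0, nat_lit 5, [nat_lit 4, nat_lit 5, nat_lit 5, nat_lit 20], true, nat_lit 0, nat_lit 0, nat_lit 0, nat_lit 0, ⟨nat_lit 0, nat_lit 0, nat_lit 1000, nat_lit 5, nat_lit 48, nat_lit 0, nat_lit 0, nat_lit 0, nat_lit 0, nat_lit 215, nat_lit 21600, nat_lit 251, nat_lit 66055608, nat_lit 0, nat_lit 0, nat_lit 370238, false, false⟩,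
 nat_lit 0, nat_lit 100000, nat_lit 0, nat_lit 0, nat_lit 50109, nat_lit 0, nat_lit 8003, nat_lit 166, nat_lit 0, nat_lit 0, nat_lit 0, nat_lit 0, nat_lit 0, nat_lit 0, nat_lit 0, nat_lit 400000, nat_lit 12584969777, nat_lit 0, [(nat_lit 3, [(nat_lit 5, nat_lit 1000)])],
 ⟨p007_k7, nat_lit 0, nat_lit 0, nat_lit 0, nat_lit 0, nat_lit 68771, [nat_lit 2591600001, nat_lit 3627600001, nat_lit 3429600001, nat_lit 2970000000], [], [nat_lit 3036291692, nat_lit 3322425842, nat_lit 0, nat_lit 202893232], nat_lit 1271250, nat_lit 1271250, nat_lit 21650, nat_lit 43600, nat_lit 0, nat_lit 0, [nat_lit 631250, nat_lit 1271250, nat_lit 1271250, nat_lit 1271250], [nat_lit 91, nat_lit 40, nat_lit 20, nat_lit 40]⟩, C1.Rw.none,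
 ⟨nat_lit 6519, nat_lit 6539, ⟨.ofNat (nat_lit 114346), .ofNat (nat_lit 122784), .ofNat (nat_lit 115416), .ofNat (nat_lit 123854), .ofNat (nat_lit 115295), .ofNat (nat_lit 123714), .ofNat (nat_lit 116365), .ofNat (nat_lit 124784)⟩, ⟨.ofNat (nat_lit 0), .ofNat (nat_lit 0), .ofNat (nat_lit 0), .ofNat (nat_lit 0), .ofNat (nat_lit 0), .ofNat (nat_lit 0), .ofNat (nat_lit 0), .ofNat (nat_lit 0)⟩⟩, [⟨nat_lit 0, nat_lit 100, nat_lit 100, nat_lit 28, nat_lit 10000000000⟩, ⟨nat_lit 0, nat_lit 100, nat_lit 100, nat_lit 28, nat_lit 6187122001⟩]⟩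
noncomputable def p007_l33 : Lf2 := ⟨nat_lit 0, nat_lit 5, [nat_lit 4, nat_lit 5, nat_lit 5, nat_lit 20], false, nat_lit 0, nat_lit 0, nat_lit 0, nat_lit 0, ⟨nat_lit 0, nat_lit 0, nat_lit 1000, nat_lit 5, nat_lit 48, nat_lit 0, nat_lit 0, nat_lit 0, nat_lit 0, nat_lit 215, nat_lit 21600, nat_lit 251, nat_lit 66055608, nat_lit 0, nat_lit 0, nat_lit 370238, false, false⟩,
 nat_lit 100000, nat_lit 100000, nat_lit 100000, nat_lit 100000, nat_lit 100000, nat_lit 98689, nat_lit 3669, nat_lit 4209, nat_lit 0, nat_lit 60000, nat_lit 4456, nat_lit 0, nat_lit 0, nat_lit 0, nat_lit 0, nat_lit 630505, nat_lit 0, nat_lit 0, [(nat_lit 3, [(nat_lit 3, nat_lit 459), (nat_lit 6, nat_lit 541)])],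
 ⟨p007_k8, nat_lit 0, nat_lit 0, nat_lit 0, nat_lit 0, nat_lit 68771, [nat_lit 100560398286, nat_lit 100077634401, nat_lit 115590858400], [], [nat_lit 209657637010, nat_lit 210218563550, nat_lit 202605398168, nat_lit 202821699951], nat_lit 1271250, nat_lit 1271250, nat_lit 21650, nat_lit 43600, nat_lit 0, nat_lit 0, [nat_lit 1412500, nat_lit 1271250, nat_lit 1271250], [nat_lit 25, nat_lit 40, nat_lit 20, nat_lit 80]⟩, ⟨p007_k6, nat_lit 0, nat_lit 0, nat_lit 0, nat_lit 0, nat_lit 69920, [nat_lit 89120000000, nat_lit 106944000000, nat_lit 124768000000], [], [nat_lit 81053561853, nat_lit 81522585273, nat_lit 75266107217, nat_lit 75567882389], nat_lit 1271250, nat_lit 1271250, nat_lit 21650, nat_lit 43600, nat_lit 0, nat_lit 0, [nat_lit 1412500, nat_lit 1271250, nat_lit 1271250], [nat_lit 25, nat_lit 40, nat_lit 20, nat_lit 80]⟩,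
 ⟨nat_lit 6519, nat_lit 6539, ⟨.ofNat (nat_lit 114346), .ofNat (nat_lit 122784), .ofNat (nat_lit 115416), .ofNat (nat_lit 123854), .ofNat (nat_lit 115295), .ofNat (nat_lit 123714), .ofNat (nat_lit 116365), .ofNat (nat_lit 124784)⟩, ⟨.ofNat (nat_lit 0), .ofNat (nat_lit 0), .ofNat (nat_lit 0), .ofNat (nat_lit 0), .ofNat (nat_lit 0), .ofNat (nat_lit 0), .ofNat (nat_lit 0), .ofNat (nat_lit 0)⟩⟩, [⟨nat_lit 0, nat_lit 100, nat_lit 100, nat_lit 28, nat_lit 10000000000⟩, ⟨nat_lit 0, nat_lit 100, nat_lit 100, nat_lit 28, nat_lit 10000000000⟩, ⟨nat_lit 0, nat_lit 100, nat_lit 100, nat_lit 27, nat_lit 10000000000⟩]⟩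
noncomputable def p007_l34 : Lf2 := ⟨nat_lit 0, nat_lit 5, [nat_lit 4, nat_lit 5, nat_lit 5, nat_lit 20], true, nat_lit 0, nat_lit 0, nat_lit 0, nat_lit 0, ⟨nat_lit 0, nat_lit 0, nat_lit 1000, nat_lit 5, nat_lit 48, nat_lit 0, nat_lit 0, nat_lit 0, nat_lit 0, nat_lit 215, nat_lit 21600, nat_lit 251, nat_lit 66038874, nat_lit 0, nat_lit 0, nat_lit 375535, false, false⟩,
 nat_lit 0, nat_lit 100000, nat_lit 0, nat_lit 0, nat_lit 50109, nat_lit 0, nat_lit 8020, nat_lit 161, nat_lit 0, nat_lit 0, nat_lit 0, nat_lit 0, nat_lit 0, nat_lit 0, nat_lit 0, nat_lit 400000, nat_lit 12888041652, nat_lit 0, [(nat_lit 3, [(nat_lit 5, nat_lit 1000)])],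
 ⟨p007_k7, nat_lit 0, nat_lit 0, nat_lit 0, nat_lit 0, nat_lit 73001, [nat_lit 2541600001, nat_lit 3537600000, nat_lit 3319600001, nat_lit 2830000000], [], [nat_lit 3102347942, nat_lit 3388482092, nat_lit 0, nat_lit 271884769], nat_lit 1271250, nat_lit 1271250, nat_lit 21650, nat_lit 43600, nat_lit 0, nat_lit 0, [nat_lit 631250, nat_lit 1271250, nat_lit 1271250, nat_lit 1271250], [nat_lit 91, nat_lit 40, nat_lit 20, nat_lit 40]⟩, C1.Rw.none,
 ⟨nat_lit 6519, nat_lit 6539, ⟨.ofNat (nat_lit 115416), .ofNat (nat_lit 123854), .ofNat (nat_lit 116486), .ofNat (nat_lit 124924), .ofNat (nat_lit 116365), .ofNat (nat_lit 124784), .ofNat (nat_lit 117435), .ofNat (nat_lit 125854)⟩, ⟨.ofNat (nat_lit 0), .ofNat (nat_lit 0), .ofNat (nat_lit 0), .ofNat (nat_lit 0), .ofNat (nat_lit 0), .ofNat (nat_lit 0), .ofNat (nat_lit 0), .ofNat (nat_lit 0)⟩⟩, [⟨nat_lit 0, nat_lit 100, nat_lit 100, nat_lit 28, nat_lit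 8335965258⟩, ⟨nat_lit 0, nat_lit 100, nat_lit 100, nat_lit 28, nat_lit 10000000000⟩]⟩
noncomputable def p007_l35 : Lf2 := ⟨nat_lit 0, nat_lit 5, [nat_lit 4, nat_lit 5, nat_lit 5, nat_lit 20], true, nat_lit 0, nat_lit 0, nat_lit 0, nat_lit 0, ⟨nat_lit 0, nat_lit 0, nat_lit 1000, nat_lit 5, nat_lit 48, nat_lit 0, nat_lit 0, nat_lit 0, nat_lit 0, nat_lit 215, nat_lit 21600, nat_lit 251, nat_lit 66038874, nat_lit 0, nat_lit 0, nat_lit 375535, false, false⟩,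
 nat_lit 0, nat_lit 100000, nat_lit 0, nat_lit 0, nat_lit 50109, nat_lit 0, nat_lit 8020, nat_lit 161, nat_lit 0, nat_lit 0, nat_lit 0, nat_lit 0, nat_lit 0, nat_lit 0, nat_lit 0, nat_lit 400000, nat_lit 12888041652, nat_lit 0, [(nat_lit 3, [(nat_lit 5, nat_lit 1000)])],
 ⟨p007_k7, nat_lit 0, nat_lit 0, nat_lit 0, nat_lit 0, nat_lit 73001, [nat_lit 2541600001, nat_lit 3537600000, nat_lit 3319600001, nat_lit 2830000000], [], [nat_lit 3102347942, nat_lit 3388482092, nat_lit 0, nat_lit 271884769], nat_lit 1271250, nat_lit 1271250, nat_lit 21650, nat_lit 43600, nat_lit 0, nat_lit 0, [nat_lit 631250, nat_lit 1271250, nat_lit 1271250, nat_lit 1271250], [nat_lit 91, nat_lit 40, nat_lit 20, nat_lit 40]⟩, C1.Rw.none,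
 ⟨nat_lit 6519, nat_lit 6539, ⟨.ofNat (nat_lit 115416), .ofNat (nat_lit 123854), .ofNat (nat_lit 116486), .ofNat (nat_lit 124924), .ofNat (nat_lit 116365), .ofNat (nat_lit 124784), .ofNat (nat_lit 117435), .ofNat (nat_lit 125854)⟩, ⟨.ofNat (nat_lit 0), .ofNat (nat_lit 0), .ofNat (nat_lit 0), .ofNat (nat_lit 0), .ofNat (nat_lit 0), .ofNat (nat_lit 0), .ofNat (nat_lit 0), .ofNat (nat_lit 0)⟩⟩, [⟨nat_lit 0, nat_lit 100, nat_lit 100, nat_lit 28, nat_lit 8335965258⟩, ⟨nat_lit 0, nat_lit 100, nat_lit 100, nat_lit 28, nat_lit 10000000000⟩]⟩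
noncomputable def p007_l36 : Lf2 := ⟨nat_lit 0, nat_lit 5, [nat_lit 4, nat_lit 5, nat_lit 5, nat_lit 20], false, nat_lit 0, nat_lit 0, nat_lit 0, nat_lit 0, ⟨nat_lit 0, nat_lit 0, nat_lit 1000, nat_lit 5, nat_lit 48, nat_lit 0, nat_lit 0, nat_lit 0, nat_lit 0, nat_lit 215, nat_lit 21600, nat_lit 251, nat_lit 66038874, nat_lit 0, nat_lit 0, nat_lit 375535, false, false⟩,
 nat_lit 100000, nat_lit 100000, nat_lit 100000, nat_lit 100000, nat_lit 100000, nat_lit 99198, nat_lit 34815, nat_lit 4559, nat_lit 0, nat_lit 60000, nat_lit 4487, nat_lit 0, nat_lit 0, nat_lit 0, nat_lit 0, nat_lit 400000, nat_lit 0, nat_lit 0, [(nat_lit 3, [(nat_lit 5, nat_lit 1000)])],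
 ⟨p007_k8, nat_lit 0, nat_lit 0, nat_lit 0, nat_lit 0, nat_lit 73001, [nat_lit 92750400000, nat_lit 108678400001, nat_lit 125974000000], [], [nat_lit 133415966110, nat_lit 133999205851, nat_lit 126260247492, nat_lit 126594294251], nat_lit 1271250, nat_lit 1271250, nat_lit 21650, nat_lit 43600, nat_lit 0, nat_lit 0, [nat_lit 1412500, nat_lit 1271250, nat_lit 1271250], [nat_lit 25, nat_lit 40, nat_lit 20, nat_lit 80]⟩, ⟨p007_k3, nat_lit 0, nat_lit 0, nat_lit 0, nat_lit 0, nat_lit 73811, [nat_lit 89740000000, nat_lit 107688000000, nat_lit 125636000000], [], [nat_lit 80179386218, nat_lit 80650828681, nat_lit 74354324492, nat_lit 74658229886], nat_lit 1271250, nat_lit 1271250, nat_lit 21650, nat_lit 43600, nat_lit 0, nat_lit 0, [nat_lit 1412500, nat_lit 1271250, nat_lit 1271250], [nat_lit 25, nat_lit 40, nat_lit 20, nat_lit 80]⟩,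
 ⟨nat_lit 6519, nat_lit 6539, ⟨.ofNat (nat_lit 115416), .ofNat (nat_lit 123854), .ofNat (nat_lit 116486), .ofNat (nat_lit 124924), .ofNat (nat_lit 116365), .ofNat (nat_lit 124784), .ofNat (nat_lit 117435), .ofNat (nat_lit 125854)⟩, ⟨.ofNat (nat_lit 0), .ofNat (nat_lit 0), .ofNat (nat_lit 0), .ofNat (nat_lit 0), .ofNat (nat_lit 0), .ofNat (nat_lit 0), .ofNat (nat_lit 0), .ofNat (nat_lit 0)⟩⟩, [⟨nat_lit 0, nat_lit 100, nat_lit 100, nat_lit 28, nat_lit 10000000000⟩, ⟨nat_lit 0, nat_lit 100, nat_lit 100, nat_lit 29, nat_lit 10000000000⟩, ⟨nat_lit 0, nat_lit 100, nat_lit 100, nat_lit 28, nat_lit 10000000000⟩, ⟨nat_lit 13, nat_lit 100, nat_lit 1, nat_lit 100, nat_lit 229126298⟩]⟩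
noncomputable def p007_l37 : Lf2 := ⟨nat_lit 0, nat_lit 5, [nat_lit 4, nat_lit 5, nat_lit 5, nat_lit 20], true, nat_lit 0, nat_lit 0, nat_lit 0, nat_lit 0, ⟨nat_lit 0, nat_lit 0, nat_lit 1000, nat_lit 5, nat_lit 48, nat_lit 0, nat_lit 0, nat_lit 0, nat_lit 0, nat_lit 215, nat_lit 21600, nat_lit 251, nat_lit 66038874, nat_lit 0, nat_lit 0, nat_lit 375535, false, false⟩,
 nat_lit 0, nat_lit 100000, nat_lit 0, nat_lit 0, nat_lit 50109, nat_lit 0, nat_lit 8020, nat_lit 161, nat_lit 0, nat_lit 0, nat_lit 0, nat_lit 0, nat_lit 0, nat_lit 0, nat_lit 0, nat_lit 400000, nat_lit 12888041652, nat_lit 0, [(nat_lit 3, [(nat_lit 5, nat_lit 1000)])],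
 ⟨p007_k7, nat_lit 0, nat_lit 0, nat_lit 0, nat_lit 0, nat_lit 73001, [nat_lit 2541600001, nat_lit 3537600000, nat_lit 3319600001, nat_lit 2830000000], [], [nat_lit 3102347942, nat_lit 3388482092, nat_lit 0, nat_lit 271884769], nat_lit 1271250, nat_lit 1271250, nat_lit 21650, nat_lit 43600, nat_lit 0, nat_lit 0, [nat_lit 631250, nat_lit 1271250, nat_lit 1271250, nat_lit 1271250], [nat_lit 91, nat_lit 40, nat_lit 20, nat_lit 40]⟩, C1.Rw.none,
 ⟨nat_lit 6519, nat_lit 6539, ⟨.ofNat (nat_lit 115416), .ofNat (nat_lit 123854), .ofNat (nat_lit 116486), .ofNat (nat_lit 124924), .ofNat (nat_lit 116365), .ofNat (nat_lit 124784), .ofNat (nat_lit 117435), .ofNat (nat_lit 125854)⟩, ⟨.ofNat (nat_lit 0), .ofNat (nat_lit 0), .ofNat (nat_lit 0), .ofNat (nat_lit 0), .ofNat (nat_lit 0), .ofNat (nat_lit 0), .ofNat (nat_lit 0), .ofNat (nat_lit 0)⟩⟩, [⟨nat_lit 0, nat_lit 100, nat_lit 100, nat_lit 28, nat_lit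 10000000000⟩, ⟨nat_lit 0, nat_lit 100, nat_lit 100, nat_lit 28, nat_lit 8335965258⟩]⟩
noncomputable def p007_l38 : Lf2 := ⟨nat_lit 0, nat_lit 5, [nat_lit 4, nat_lit 5, nat_lit 5, nat_lit 20], true, nat_lit 0, nat_lit 0, nat_lit 0, nat_lit 0, ⟨nat_lit 0, nat_lit 0, nat_lit 1000, nat_lit 5, nat_lit 48, nat_lit 0, nat_lit 0, nat_lit 0, nat_lit 0, nat_lit 215, nat_lit 21600, nat_lit 251, nat_lit 66038874, nat_lit 0, nat_lit 0, nat_lit 375535, false, false⟩,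
 nat_lit 0, nat_lit 100000, nat_lit 0, nat_lit 0, nat_lit 50109, nat_lit 0, nat_lit 8020, nat_lit 161, nat_lit 0, nat_lit 0, nat_lit 0, nat_lit 0, nat_lit 0, nat_lit 0, nat_lit 0, nat_lit 400000, nat_lit 12888041652, nat_lit 0, [(nat_lit 3, [(nat_lit 5, nat_lit 1000)])],
 ⟨p007_k7, nat_lit 0, nat_lit 0, nat_lit 0, nat_lit 0, nat_lit 73001, [nat_lit 2541600001, nat_lit 3537600000, nat_lit 3319600001, nat_lit 2830000000], [], [nat_lit 3102347942, nat_lit 3388482092, nat_lit 0, nat_lit 271884769], nat_lit 1271250, nat_lit 1271250, nat_lit 21650, nat_lit 43600, nat_lit 0, nat_lit 0, [nat_lit 631250, nat_lit 1271250, nat_lit 1271250, nat_lit 1271250], [nat_lit 91, nat_lit 40, nat_lit 20, nat_lit 40]⟩, C1.Rw.none,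
 ⟨nat_lit 6519, nat_lit 6539, ⟨.ofNat (nat_lit 115416), .ofNat (nat_lit 123854), .ofNat (nat_lit 116486), .ofNat (nat_lit 124924), .ofNat (nat_lit 116365), .ofNat (nat_lit 124784), .ofNat (nat_lit 117435), .ofNat (nat_lit 125854)⟩, ⟨.ofNat (nat_lit 0), .ofNat (nat_lit 0), .ofNat (nat_lit 0), .ofNat (nat_lit 0), .ofNat (nat_lit 0), .ofNat (nat_lit 0), .ofNat (nat_lit 0), .ofNat (nat_lit 0)⟩⟩, [⟨nat_lit 0, nat_lit 100, nat_lit 100, nat_lit 28, nat_lit 8335965258⟩, ⟨nat_lit 0, nat_lit 100, nat_lit 100, nat_lit 28, nat_lit 10000000000⟩]⟩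
noncomputable def p007_l39 : Lf2 := ⟨nat_lit 0, nat_lit 5, [nat_lit 4, nat_lit 5, nat_lit 5, nat_lit 20], false, nat_lit 0, nat_lit 0, nat_lit 0, nat_lit 0, ⟨nat_lit 0, nat_lit 0, nat_lit 1000, nat_lit 5, nat_lit 48, nat_lit 0, nat_lit 0, nat_lit 0, nat_lit 0, nat_lit 215, nat_lit 21600, nat_lit 251, nat_lit 66038874, nat_lit 0, nat_lit 0, nat_lit 375535, false, false⟩,
 nat_lit 100000, nat_lit 100000, nat_lit 100000, nat_lit 100000, nat_lit 100000, nat_lit 99198, nat_lit 48289, nat_lit 5075, nat_lit 0, nat_lit 60000, nat_lit 4487, nat_lit 0, nat_lit 0, nat_lit 0, nat_lit 0, nat_lit 400000, nat_lit 0, nat_lit 0, [(nat_lit 3, [(nat_lit 5, nat_lit 1000)])],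
 ⟨p007_k8, nat_lit 0, nat_lit 0, nat_lit 0, nat_lit 0, nat_lit 73001, [nat_lit 103070400000, nat_lit 121062400001, nat_lit 140422000000], [], [nat_lit 149440173180, nat_lit 150044312201, nat_lit 143704934992, nat_lit 144038981751], nat_lit 1271250, nat_lit 1271250, nat_lit 21650, nat_lit 43600, nat_lit 0, nat_lit 0, [nat_lit 1412500, nat_lit 1271250, nat_lit 1271250], [nat_lit 25, nat_lit 40, nat_lit 20, nat_lit 80]⟩, ⟨p007_k3, nat_lit 0, nat_lit 0, nat_lit 0, nat_lit 0, nat_lit 73811, [nat_lit 89740000000, nat_lit 107688000000, nat_lit 125636000000], [], [nat_lit 80179386218, nat_lit 80650828681, nat_lit 74354324492, nat_lit 74658229886], nat_lit 1271250, nat_lit 1271250, nat_lit 21650, nat_lit 43600, nat_lit 0, nat_lit 0, [nat_lit 1412500, nat_lit 1271250, nat_lit 1271250], [nat_lit 25, nat_lit 40, nat_lit 20, nat_lit 80]⟩,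
 ⟨nat_lit 6519, nat_lit 6539, ⟨.ofNat (nat_lit 115416), .ofNat (nat_lit 123854), .ofNat (nat_lit 116486), .ofNat (nat_lit 124924), .ofNat (nat_lit 116365), .ofNat (nat_lit 124784), .ofNat (nat_lit 117435), .ofNat (nat_lit 125854)⟩, ⟨.ofNat (nat_lit 0), .ofNat (nat_lit 0), .ofNat (nat_lit 0), .ofNat (nat_lit 0), .ofNat (nat_lit 0), .ofNat (nat_lit 0), .ofNat (nat_lit 0), .ofNat (nat_lit 0)⟩⟩, [⟨nat_lit 0, nat_lit 100, nat_lit 100, nat_lit 28, nat_lit 10000000000⟩, ⟨nat_lit 0, nat_lit 100, nat_lit 100, nat_lit 29, nat_lit 10000000000⟩, ⟨nat_lit 0, nat_lit 100, nat_lit 100, nat_lit 28, nat_lit 10000000000⟩]⟩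
noncomputable def b_NL_550_550_0_32 : St := ⟨false, nat_lit 1, nat_lit 1, nat_lit 1, nat_lit 20, nat_lit 228, nat_lit 230, nat_lit 225, nat_lit 230, nat_lit 4, nat_lit 8, nat_lit 0, nat_lit 0, nat_lit 0, nat_lit 0, nat_lit 0, nat_lit 0, nat_lit 20, nat_lit 24, nat_lit 380, nat_lit 460, nat_lit 0, nat_lit 800⟩
theorem d_NL_550_550_0_32 (h : EB TB.env) : Dead b_NL_550_550_0_32 := chkB_sound0 h (T :=
(.spl (nat_lit 7) (nat_lit 420)
(.spl (nat_lit 0) (nat_lit 229)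
(.ord (.spl (nat_lit 1) (nat_lit 227)
(.leaf p007_l0)
(.spl (nat_lit 1) (nat_lit 228)
(.spl (nat_lit 7) (nat_lit 400)
(.leaf p007_l1)
(.spl (nat_lit 8) (nat_lit 400)
(.leaf p007_l2)
(.spl (nat_lit 8) (nat_lit 600)
(.leaf p007_l3)
(.leaf p007_l4))))
(.spl (nat_lit 7) (nat_lit 400)
(.leaf p007_l5)
(.spl (nat_lit 8) (nat_lit 400)
(.leaf p007_l6)
(.spl (nat_lit 8) (nat_lit 600)
(.leaf p007_l7)
(.leaf p007_l8)))))))
(.leaf p007_l9))
(.spl (nat_lit 0) (nat_lit 229)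
(.ord (.spl (nat_lit 1) (nat_lit 227)
(.spl (nat_lit 1) (nat_lit 226)
(.leaf p007_l10)
(.spl (nat_lit 7) (nat_lit 440)
(.leaf p007_l11)
(.spl (nat_lit 8) (nat_lit 400)
(.leaf p007_l12)
(.spl (nat_lit 8) (nat_lit 600)
(.leaf p007_l13)
(.leaf p007_l14)))))
(.spl (nat_lit 1) (nat_lit 228)
(.spl (nat_lit 7) (nat_lit 440)
(.spl (nat_lit 8) (nat_lit 400)
(.leaf p007_l15)
(.spl (nat_lit 8) (nat_lit 600)
(.leaf p007_l16)
(.leaf p007_l17)))
(.spl (nat_lit 8) (nat_lit 400)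
(.leaf p007_l18)
(.spl (nat_lit 8) (nat_lit 600)
(.leaf p007_l19)
(.leaf p007_l20))))
(.spl (nat_lit 7) (nat_lit 440)
(.spl (nat_lit 8) (nat_lit 400)
(.leaf p007_l21)
(.spl (nat_lit 8) (nat_lit 600)
(.leaf p007_l22)
(.leaf p007_l23)))
(.spl (nat_lit 8) (nat_lit 400)
(.leaf p007_l24)
(.spl (nat_lit 8) (nat_lit 600)
(.leaf p007_l25)
(.leaf p007_l26)))))))
(.spl (nat_lit 1) (nat_lit 228)
(.spl (nat_lit 1) (nat_lit 227)
(.spl (nat_lit 1) (nat_lit 226)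
(.leaf p007_l27)
(.spl (nat_lit 7) (nat_lit 440)
(.spl (nat_lit 8) (nat_lit 400)
(.leaf p007_l28)
(.spl (nat_lit 8) (nat_lit 600)
(.leaf p007_l29)
(.leaf p007_l30)))
(.spl (nat_lit 8) (nat_lit 400)
(.leaf p007_l31)
(.spl (nat_lit 8) (nat_lit 600)
(.leaf p007_l32)
(.leaf p007_l33)))))
(.spl (nat_lit 7) (nat_lit 440)
(.spl (nat_lit 8) (nat_lit 400)
(.leaf p007_l34)
(.spl (nat_lit 8) (nat_lit 600)
(.leaf p007_l35)
(.leaf p007_l36)))
(.spl (nat_lit 8) (nat_lit 400)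
(.leaf p007_l37)
(.spl (nat_lit 8) (nat_lit 600)
(.leaf p007_l38)
(.leaf p007_l39)))))
(.emL (nat_lit 0) (nat_lit 100) (nat_lit 100) (nat_lit 28)))))) (by decide +kernel)
noncomputable def p007_l40 : Lf2 := ⟨nat_lit 0, nat_lit 5, [nat_lit 4, nat_lit 5, nat_lit 5, nat_lit 20], true, nat_lit 0, nat_lit 0, nat_lit 0, nat_lit 0, ⟨nat_lit 0, nat_lit 0, nat_lit 1000, nat_lit 5, nat_lit 50, nat_lit 0, nat_lit 0, nat_lit 0, nat_lit 0, nat_lit 215, nat_lit 24067, nat_lit 253, nat_lit 65965550, nat_lit 0, nat_lit 0, nat_lit 398488, false, false⟩,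
 nat_lit 0, nat_lit 5361, nat_lit 0, nat_lit 0, nat_lit 2631, nat_lit 0, nat_lit 0, nat_lit 0, nat_lit 101, nat_lit 0, nat_lit 0, nat_lit 0, nat_lit 0, nat_lit 4449680857466, nat_lit 100, nat_lit 840400, nat_lit 0, nat_lit 0, [(nat_lit 3, [(nat_lit 5, nat_lit 266), (nat_lit 6, nat_lit 734)])],
 ⟨p007_k9, nat_lit 0, nat_lit 0, nat_lit 0, nat_lit 0, nat_lit 65884, [nat_lit 2863732732, nat_lit 1926220001, nat_lit 7494400], [], [nat_lit 10076267281, nat_lit 10201334732, nat_lit 9962931506, nat_lit 10088940162], nat_lit 1271250, nat_lit 1271250, nat_lit 43600, nat_lit 65850, nat_lit 0, nat_lit 0, [nat_lit 1271250, nat_lit 1271250, nat_lit 1271250], [nat_lit 103, nat_lit 40, nat_lit 20, nat_lit 40]⟩, C1.Rw.none,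
 ⟨nat_lit 6557, nat_lit 6615, ⟨.ofNat (nat_lit 117973), .ofNat (nat_lit 126489), .ofNat (nat_lit 121185), .ofNat (nat_lit 129702), .ofNat (nat_lit 120782), .ofNat (nat_lit 129239), .ofNat (nat_lit 123992), .ofNat (nat_lit 132450)⟩, ⟨.ofNat (nat_lit 0), .ofNat (nat_lit 0), .ofNat (nat_lit 0), .ofNat (nat_lit 0), .ofNat (nat_lit 0), .ofNat (nat_lit 0), .ofNat (nat_lit 0), .ofNat (nat_lit 0)⟩⟩, []⟩
noncomputable def p007_l41 : Lf2 := ⟨nat_lit 0, nat_lit 5, [nat_lit 4, nat_lit 5, nat_lit 5, nat_lit 20], true, nat_lit 0, nat_lit 0, nat_lit 0, nat_lit 0, ⟨nat_lit 0, nat_lit 0, nat_lit 1000, nat_lit 5, nat_lit 50, nat_lit 0, nat_lit 0, nat_lit 0, nat_lit 0, nat_lit 215, nat_lit 22817, nat_lit 252, nat_lit 65981710, nat_lit 0, nat_lit 0, nat_lit 393464, false, false⟩,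
 nat_lit 0, nat_lit 8322, nat_lit 0, nat_lit 0, nat_lit 4085, nat_lit 0, nat_lit 341, nat_lit 0, nat_lit 0, nat_lit 0, nat_lit 0, nat_lit 0, nat_lit 0, nat_lit 0, nat_lit 115, nat_lit 1000000, nat_lit 0, nat_lit 0, [(nat_lit 3, [(nat_lit 6, nat_lit 1000)])],
 ⟨p007_k9, nat_lit 0, nat_lit 0, nat_lit 0, nat_lit 0, nat_lit 57106, [nat_lit 3007028572, nat_lit 2237600001, nat_lit 23600000], [], [nat_lit 12777207188, nat_lit 12872371555, nat_lit 12575392460, nat_lit 12672891041], nat_lit 1271250, nat_lit 1271250, nat_lit 43600, nat_lit 65850, nat_lit 0, nat_lit 0, [nat_lit 1271250, nat_lit 1271250, nat_lit 1271250], [nat_lit 103, nat_lit 40, nat_lit 20, nat_lit 40]⟩, C1.Rw.none,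
 ⟨nat_lit 6576, nat_lit 6615, ⟨.ofNat (nat_lit 117973), .ofNat (nat_lit 126489), .ofNat (nat_lit 120115), .ofNat (nat_lit 128631), .ofNat (nat_lit 119847), .ofNat (nat_lit 128325), .ofNat (nat_lit 121988), .ofNat (nat_lit 130466)⟩, ⟨.ofNat (nat_lit 0), .ofNat (nat_lit 0), .ofNat (nat_lit 0), .ofNat (nat_lit 0), .ofNat (nat_lit 0), .ofNat (nat_lit 0), .ofNat (nat_lit 0), .ofNat (nat_lit 0)⟩⟩, []⟩
noncomputable def p007_l42 : Lf2 := ⟨nat_lit 0, nat_lit 5, [nat_lit 4, nat_lit 5, nat_lit 5, nat_lit 20], true, nat_lit 0, nat_lit 0, nat_lit 0, nat_lit 0, ⟨nat_lit 0, nat_lit 0, nat_lit 1000, nat_lit 5, nat_lit 50, nat_lit 0, nat_lit 0, nat_lit 0, nat_lit 0, nat_lit 215, nat_lit 24067, nat_lit 253, nat_lit 65959162, nat_lit 0, nat_lit 0, nat_lit 400468, false, false⟩,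
 nat_lit 0, nat_lit 8223, nat_lit 0, nat_lit 0, nat_lit 4078, nat_lit 0, nat_lit 339, nat_lit 0, nat_lit 0, nat_lit 0, nat_lit 0, nat_lit 0, nat_lit 0, nat_lit 0, nat_lit 115, nat_lit 1000000, nat_lit 0, nat_lit 0, [(nat_lit 3, [(nat_lit 6, nat_lit 1000)])],
 ⟨p007_k10, nat_lit 0, nat_lit 0, nat_lit 0, nat_lit 0, nat_lit 60828, [nat_lit 3007028572, nat_lit 2237600001, nat_lit 23600000], [], [nat_lit 12857817063, nat_lit 12905370875, nat_lit 12656422986, nat_lit 12706763871], nat_lit 1271250, nat_lit 1271250, nat_lit 43600, nat_lit 65850, nat_lit 0, nat_lit 0, [nat_lit 1271250, nat_lit 1271250, nat_lit 1271250], [nat_lit 103, nat_lit 40, nat_lit 20, nat_lit 40]⟩, C1.Rw.none,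
 ⟨nat_lit 6557, nat_lit 6577, ⟨.ofNat (nat_lit 119847), .ofNat (nat_lit 128325), .ofNat (nat_lit 121988), .ofNat (nat_lit 130466), .ofNat (nat_lit 120782), .ofNat (nat_lit 129239), .ofNat (nat_lit 122922), .ofNat (nat_lit 131380)⟩, ⟨.ofNat (nat_lit 0), .ofNat (nat_lit 0), .ofNat (nat_lit 0), .ofNat (nat_lit 0), .ofNat (nat_lit 0), .ofNat (nat_lit 0), .ofNat (nat_lit 0), .ofNat (nat_lit 0)⟩⟩, []⟩
noncomputable def p007_l43 : Lf2 := ⟨nat_lit 0, nat_lit 5, [nat_lit 4, nat_lit 5, nat_lit 5, nat_lit 20], true, nat_lit 0, nat_lit 0, nat_lit 0, nat_lit 0, ⟨nat_lit 0, nat_lit 0, nat_lit 1000, nat_lit 5, nat_lit 51, nat_lit 0, nat_lit 0, nat_lit 0, nat_lit 0, nat_lit 215, nat_lit 24067, nat_lit 253, nat_lit 65932813, nat_lit 0, nat_lit 0, nat_lit 408606, false, false⟩,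
 nat_lit 0, nat_lit 5039, nat_lit 0, nat_lit 0, nat_lit 2499, nat_lit 0, nat_lit 0, nat_lit 0, nat_lit 143, nat_lit 0, nat_lit 0, nat_lit 0, nat_lit 0, nat_lit 5306002989402, nat_lit 110, nat_lit 945400, nat_lit 0, nat_lit 0, [(nat_lit 3, [(nat_lit 5, nat_lit 91), (nat_lit 6, nat_lit 909)])],
 ⟨p007_k10, nat_lit 0, nat_lit 0, nat_lit 0, nat_lit 0, nat_lit 65155, [nat_lit 2960374732, nat_lit 2133970001, nat_lit 21774400], [], [nat_lit 8597216560, nat_lit 8647747354, nat_lit 8518340907, nat_lit 8558282585], nat_lit 1271250, nat_lit 1271250, nat_lit 43600, nat_lit 65850, nat_lit 0, nat_lit 0, [nat_lit 1271250, nat_lit 1271250, nat_lit 1271250], [nat_lit 103, nat_lit 40, nat_lit 20, nat_lit 40]⟩, C1.Rw.none,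
 ⟨nat_lit 6557, nat_lit 6577, ⟨.ofNat (nat_lit 121988), .ofNat (nat_lit 130466), .ofNat (nat_lit 123059), .ofNat (nat_lit 131536), .ofNat (nat_lit 122922), .ofNat (nat_lit 131380), .ofNat (nat_lit 123992), .ofNat (nat_lit 132450)⟩, ⟨.ofNat (nat_lit 0), .ofNat (nat_lit 0), .ofNat (nat_lit 0), .ofNat (nat_lit 0), .ofNat (nat_lit 0), .ofNat (nat_lit 0), .ofNat (nat_lit 0), .ofNat (nat_lit 0)⟩⟩, []⟩
noncomputable def p007_l44 : Lf2 := ⟨nat_lit 0, nat_lit 5, [nat_lit 4, nat_lit 5, nat_lit 5, nat_lit 20], true, nat_lit 0, nat_lit 0, nat_lit 0, nat_lit 0, ⟨nat_lit 0, nat_lit 0, nat_lit 1000, nat_lit 5, nat_lit 51, nat_lit 0, nat_lit 0, nat_lit 0, nat_lit 0, nat_lit 215, nat_lit 24067, nat_lit 253, nat_lit 65932813, nat_lit 0, nat_lit 0, nat_lit 408606, false, false⟩,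
 nat_lit 0, nat_lit 100000, nat_lit 0, nat_lit 0, nat_lit 49599, nat_lit 0, nat_lit 7098, nat_lit 53, nat_lit 0, nat_lit 0, nat_lit 0, nat_lit 0, nat_lit 0, nat_lit 0, nat_lit 62, nat_lit 1000000, nat_lit 19077976093, nat_lit 0, [(nat_lit 3, [(nat_lit 6, nat_lit 1000)])],
 ⟨p007_k11, nat_lit 0, nat_lit 0, nat_lit 0, nat_lit 0, nat_lit 65155, [nat_lit 1742533334, nat_lit 2935066667, nat_lit 2237600001, nat_lit 23600000], [], [nat_lit 2946816113, nat_lit 3148792346, nat_lit 0, nat_lit 203881725], nat_lit 1271250, nat_lit 1271250, nat_lit 43600, nat_lit 65850, nat_lit 0, nat_lit 0, [nat_lit 631250, nat_lit 1271250, nat_lit 1271250, nat_lit 1271250], [nat_lit 91, nat_lit 40, nat_lit 20, nat_lit 40]⟩, C1.Rw.none,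
 ⟨nat_lit 6557, nat_lit 6577, ⟨.ofNat (nat_lit 121988), .ofNat (nat_lit 130466), .ofNat (nat_lit 123059), .ofNat (nat_lit 131536), .ofNat (nat_lit 122922), .ofNat (nat_lit 131380), .ofNat (nat_lit 123992), .ofNat (nat_lit 132450)⟩, ⟨.ofNat (nat_lit 0), .ofNat (nat_lit 0), .ofNat (nat_lit 0), .ofNat (nat_lit 0), .ofNat (nat_lit 0), .ofNat (nat_lit 0), .ofNat (nat_lit 0), .ofNat (nat_lit 0)⟩⟩, []⟩
noncomputable def p007_l45 : Lf2 := ⟨nat_lit 0, nat_lit 5, [nat_lit 4, nat_lit 5, nat_lit 5, nat_lit 20], true, nat_lit 0, nat_lit 0, nat_lit 0, nat_lit 0, ⟨nat_lit 0, nat_lit 0, nat_lit 1000, nat_lit 5, nat_lit 51, nat_lit 0, nat_lit 0, nat_lit 0, nat_lit 0, nat_lit 215, nat_lit 24067, nat_lit 253, nat_lit 65932813, nat_lit 0, nat_lit 0, nat_lit 408606, false, false⟩,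
 nat_lit 0, nat_lit 100000, nat_lit 0, nat_lit 0, nat_lit 49599, nat_lit 0, nat_lit 7098, nat_lit 53, nat_lit 0, nat_lit 0, nat_lit 0, nat_lit 0, nat_lit 0, nat_lit 0, nat_lit 62, nat_lit 1000000, nat_lit 19077976093, nat_lit 0, [(nat_lit 3, [(nat_lit 6, nat_lit 1000)])],
 ⟨p007_k11, nat_lit 0, nat_lit 0, nat_lit 0, nat_lit 0, nat_lit 65155, [nat_lit 1742533334, nat_lit 2935066667, nat_lit 2237600001, nat_lit 23600000], [], [nat_lit 2946816113, nat_lit 3148792346, nat_lit 0, nat_lit 203881725], nat_lit 1271250, nat_lit 1271250, nat_lit 43600, nat_lit 65850, nat_lit 0, nat_lit 0, [nat_lit 631250, nat_lit 1271250, nat_lit 1271250, nat_lit 1271250], [nat_lit 91, nat_lit 40, nat_lit 20, nat_lit 40]⟩, C1.Rw.none,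
 ⟨nat_lit 6557, nat_lit 6577, ⟨.ofNat (nat_lit 121988), .ofNat (nat_lit 130466), .ofNat (nat_lit 123059), .ofNat (nat_lit 131536), .ofNat (nat_lit 122922), .ofNat (nat_lit 131380), .ofNat (nat_lit 123992), .ofNat (nat_lit 132450)⟩, ⟨.ofNat (nat_lit 0), .ofNat (nat_lit 0), .ofNat (nat_lit 0), .ofNat (nat_lit 0), .ofNat (nat_lit 0), .ofNat (nat_lit 0), .ofNat (nat_lit 0), .ofNat (nat_lit 0)⟩⟩, []⟩
noncomputable def p007_l46 : Lf2 := ⟨nat_lit 0, nat_lit 5, [nat_lit 4, nat_lit 5, nat_lit 5, nat_lit 20], false, nat_lit 0, nat_lit 0, nat_lit 0, nat_lit 0, ⟨nat_lit 0, nat_lit 0, nat_lit 1000, nat_lit 5, nat_lit 51, nat_lit 0, nat_lit 0, nat_lit 0, nat_lit 0, nat_lit 215, nat_lit 24067, nat_lit 253, nat_lit 65932813, nat_lit 0, nat_lit 0, nat_lit 408606, false, false⟩,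
 nat_lit 100000, nat_lit 100000, nat_lit 100000, nat_lit 100000, nat_lit 99198, nat_lit 99198, nat_lit 0, nat_lit 5302, nat_lit 0, nat_lit 47285, nat_lit 4441, nat_lit 0, nat_lit 0, nat_lit 400000000000000, nat_lit 0, nat_lit 1000000, nat_lit 0, nat_lit 0, [(nat_lit 3, [(nat_lit 6, nat_lit 1000)])],
 ⟨p007_k3, nat_lit 0, nat_lit 0, nat_lit 0, nat_lit 0, nat_lit 65155, [nat_lit 107081142858, nat_lit 125987600001, nat_lit 145259600000], [], [nat_lit 240347643308, nat_lit 240906218261, nat_lit 233175377007, nat_lit 233575624183], nat_lit 1271250, nat_lit 1271250, nat_lit 43600, nat_lit 65850, nat_lit 0, nat_lit 0, [nat_lit 1412500, nat_lit 1271250, nat_lit 1271250], [nat_lit 25, nat_lit 40, nat_lit 20, nat_lit 80]⟩, ⟨p007_k3, nat_lit 0, nat_lit 0, nat_lit 0, nat_lit 0, nat_lit 65155, [nat_lit 88820000000, nat_lit 106584000000, nat_lit 124348000000], [], [nat_lit 85870577401, nat_lit 86342589261,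 nat_lit 80054352180, nat_lit 80357775055], nat_lit 1271250, nat_lit 1271250, nat_lit 43600, nat_lit 65850, nat_lit 0, nat_lit 0, [nat_lit 1412500, nat_lit 1271250, nat_lit 1271250], [nat_lit 25, nat_lit 40, nat_lit 20, nat_lit 80]⟩,
 ⟨nat_lit 6557, nat_lit 6577, ⟨.ofNat (nat_lit 121988), .ofNat (nat_lit 130466), .ofNat (nat_lit 123059), .ofNat (nat_lit 131536), .ofNat (nat_lit 122922), .ofNat (nat_lit 131380), .ofNat (nat_lit 123992), .ofNat (nat_lit 132450)⟩, ⟨.ofNat (nat_lit 0), .ofNat (nat_lit 0), .ofNat (nat_lit 0), .ofNat (nat_lit 0), .ofNat (nat_lit 0), .ofNat (nat_lit 0), .ofNat (nat_lit 0), .ofNat (nat_lit 0)⟩⟩, [⟨nat_lit 0, nat_lit 100, nat_lit 100, nat_lit 28, nat_lit 10000000000⟩, ⟨nat_lit 0, nat_lit 100, nat_lit 100, nat_lit 28, nat_lit 10000000000⟩, ⟨nat_lit 0, nat_lit 100, nat_lit 100, nat_lit 27, nat_lit 10000000000⟩]⟩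
noncomputable def p007_l47 : Lf2 := ⟨nat_lit 2, nat_lit 5, [nat_lit 4, nat_lit 5, nat_lit 5, nat_lit 20], true, nat_lit 0, nat_lit 0, nat_lit 0, nat_lit 0, zbN0,
 nat_lit 0, nat_lit 0, nat_lit 0, nat_lit 0, nat_lit 0, nat_lit 0, nat_lit 0, nat_lit 0, nat_lit 0, nat_lit 0, nat_lit 0, nat_lit 0, nat_lit 0, nat_lit 0, nat_lit 0, nat_lit 0, nat_lit 0, nat_lit 0, [],
 ⟨p007_k12, nat_lit 0, nat_lit 0, nat_lit 0, nat_lit 0, nat_lit 65155, [], [], [], nat_lit 1271250, nat_lit 1271250, nat_lit 43600, nat_lit 65850, nat_lit 0, nat_lit 0, [nat_lit 780000, nat_lit 1100000, nat_lit 1442500, nat_lit 1271250, nat_lit 1271250], [nat_lit 167, nat_lit 40, nat_lit 20, nat_lit 40]⟩, C1.Rw.none,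
 zbF0, []⟩
noncomputable def p007_l48 : Lf2 := ⟨nat_lit 0, nat_lit 5, [nat_lit 4, nat_lit 5, nat_lit 5, nat_lit 20], true, nat_lit 0, nat_lit 0, nat_lit 0, nat_lit 0, ⟨nat_lit 0, nat_lit 0, nat_lit 1000, nat_lit 5, nat_lit 51, nat_lit 0, nat_lit 0, nat_lit 0, nat_lit 0, nat_lit 215, nat_lit 24067, nat_lit 253, nat_lit 65932813, nat_lit 0, nat_lit 0, nat_lit 408606, false, false⟩,
 nat_lit 0, nat_lit 100000, nat_lit 0, nat_lit 0, nat_lit 49599, nat_lit 0, nat_lit 7793, nat_lit 92, nat_lit 0, nat_lit 0, nat_lit 0, nat_lit 0, nat_lit 0, nat_lit 0, nat_lit 0, nat_lit 400000, nat_lit 17598513594, nat_lit 0, [(nat_lit 3, [(nat_lit 5, nat_lit 1000)])],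
 ⟨p007_k11, nat_lit 0, nat_lit 0, nat_lit 0, nat_lit 0, nat_lit 65155, [nat_lit 1851600001, nat_lit 2295600000, nat_lit 1801600000, nat_lit 898000000], [], [nat_lit 2946816113, nat_lit 3143471807, nat_lit 0, nat_lit 198169224], nat_lit 1271250, nat_lit 1271250, nat_lit 43600, nat_lit 65850, nat_lit 0, nat_lit 0, [nat_lit 631250, nat_lit 1271250, nat_lit 1271250, nat_lit 1271250], [nat_lit 91, nat_lit 40, nat_lit 20, nat_lit 40]⟩, C1.Rw.none,
 ⟨nat_lit 6557, nat_lit 6577, ⟨.ofNat (nat_lit 121988), .ofNat (nat_lit 130466), .ofNat (nat_lit 123059), .ofNat (nat_lit 131536), .ofNat (nat_lit 122922), .ofNat (nat_lit 131380), .ofNat (nat_lit 123992), .ofNat (nat_lit 132450)⟩, ⟨.ofNat (nat_lit 0), .ofNat (nat_lit 0), .ofNat (nat_lit 0), .ofNat (nat_lit 0), .ofNat (nat_lit 0), .ofNat (nat_lit 0), .ofNat (nat_lit 0), .ofNat (nat_lit 0)⟩⟩, []⟩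
noncomputable def p007_l49 : Lf2 := ⟨nat_lit 0, nat_lit 5, [nat_lit 4, nat_lit 5, nat_lit 5, nat_lit 20], true, nat_lit 0, nat_lit 0, nat_lit 0, nat_lit 0, ⟨nat_lit 0, nat_lit 0, nat_lit 1000, nat_lit 5, nat_lit 51, nat_lit 0, nat_lit 0, nat_lit 0, nat_lit 0, nat_lit 215, nat_lit 24067, nat_lit 253, nat_lit 65932813, nat_lit 0, nat_lit 0, nat_lit 408606, false, false⟩,
 nat_lit 0, nat_lit 100000, nat_lit 0, nat_lit 0, nat_lit 49599, nat_lit 0, nat_lit 7793, nat_lit 92, nat_lit 0, nat_lit 0, nat_lit 0, nat_lit 0, nat_lit 0, nat_lit 0, nat_lit 0, nat_lit 400000, nat_lit 17598513594, nat_lit 0, [(nat_lit 3, [(nat_lit 5, nat_lit 1000)])],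
 ⟨p007_k11, nat_lit 0, nat_lit 0, nat_lit 0, nat_lit 0, nat_lit 65155, [nat_lit 1851600001, nat_lit 2295600000, nat_lit 1801600000, nat_lit 898000000], [], [nat_lit 2946816113, nat_lit 3143471807, nat_lit 0, nat_lit 198169224], nat_lit 1271250, nat_lit 1271250, nat_lit 43600, nat_lit 65850, nat_lit 0, nat_lit 0, [nat_lit 631250, nat_lit 1271250, nat_lit 1271250, nat_lit 1271250], [nat_lit 91, nat_lit 40, nat_lit 20, nat_lit 40]⟩, C1.Rw.none,
 ⟨nat_lit 6557, nat_lit 6577, ⟨.ofNat (nat_lit 121988), .ofNat (nat_lit 130466), .ofNat (nat_lit 123059), .ofNat (nat_lit 131536), .ofNat (nat_lit 122922), .ofNat (nat_lit 131380), .ofNat (nat_lit 123992), .ofNat (nat_lit 132450)⟩, ⟨.ofNat (nat_lit 0), .ofNat (nat_lit 0), .ofNat (nat_lit 0), .ofNat (nat_lit 0), .ofNat (nat_lit 0), .ofNat (nat_lit 0), .ofNat (nat_lit 0), .ofNat (nat_lit 0)⟩⟩, []⟩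
noncomputable def p007_l50 : Lf2 := ⟨nat_lit 0, nat_lit 5, [nat_lit 4, nat_lit 5, nat_lit 5, nat_lit 20], false, nat_lit 0, nat_lit 0, nat_lit 0, nat_lit 0, ⟨nat_lit 0, nat_lit 0, nat_lit 1000, nat_lit 5, nat_lit 51, nat_lit 0, nat_lit 0, nat_lit 0, nat_lit 0, nat_lit 215, nat_lit 24067, nat_lit 253, nat_lit 65932813, nat_lit 0, nat_lit 0, nat_lit 408606, false, false⟩,
 nat_lit 100000, nat_lit 100000, nat_lit 100000, nat_lit 100000, nat_lit 99198, nat_lit 99198, nat_lit 40401, nat_lit 4478, nat_lit 0, nat_lit 60000, nat_lit 4479, nat_lit 0, nat_lit 0, nat_lit 400000000000000, nat_lit 0, nat_lit 400000, nat_lit 0, nat_lit 0, [(nat_lit 3, [(nat_lit 5, nat_lit 1000)])],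
 ⟨p007_k3, nat_lit 0, nat_lit 0, nat_lit 0, nat_lit 0, nat_lit 65155, [nat_lit 91130400000, nat_lit 106734400000, nat_lit 123706000000], [], [nat_lit 118974739471, nat_lit 119574677867, nat_lit 113288339560, nat_lit 113619989475], nat_lit 1271250, nat_lit 1271250, nat_lit 43600, nat_lit 65850, nat_lit 0, nat_lit 0, [nat_lit 1412500, nat_lit 1271250, nat_lit 1271250], [nat_lit 25, nat_lit 40, nat_lit 20, nat_lit 80]⟩, ⟨p007_k3, nat_lit 0, nat_lit 0, nat_lit 0, nat_lit 0, nat_lit 65155, [nat_lit 89580000000, nat_lit 107496000000, nat_lit 125412000000], [], [nat_lit 73842324492, nat_lit 74306229886, nat_lit 68777992805, nat_lit 69081415680], nat_lit 1271250, nat_lit 1271250, nat_lit 43600, nat_lit 65850, nat_lit 0, nat_lit 0, [nat_lit 1412500, nat_lit 1271250, nat_lit 1271250], [nat_lit 25, nat_lit 40, nat_lit 20, nat_lit 80]⟩,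
 ⟨nat_lit 6557, nat_lit 6577, ⟨.ofNat (nat_lit 121988), .ofNat (nat_lit 130466), .ofNat (nat_lit 123059), .ofNat (nat_lit 131536), .ofNat (nat_lit 122922), .ofNat (nat_lit 131380), .ofNat (nat_lit 123992), .ofNat (nat_lit 132450)⟩, ⟨.ofNat (nat_lit 0), .ofNat (nat_lit 0), .ofNat (nat_lit 0), .ofNat (nat_lit 0), .ofNat (nat_lit 0), .ofNat (nat_lit 0), .ofNat (nat_lit 0), .ofNat (nat_lit 0)⟩⟩, [⟨nat_lit 0, nat_lit 100, nat_lit 100, nat_lit 28, nat_lit 10000000000⟩, ⟨nat_lit 0, nat_lit 100, nat_lit 100, nat_lit 28, nat_lit 10000000000⟩, ⟨nat_lit 0, nat_lit 100, nat_lit 100, nat_lit 27, nat_lit 10000000000⟩, ⟨nat_lit 13, nat_lit 100, nat_lit 1, nat_lit 100, nat_lit 90267011⟩]⟩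
noncomputable def p007_l51 : Lf2 := ⟨nat_lit 0, nat_lit 5, [nat_lit 4, nat_lit 5, nat_lit 5, nat_lit 20], true, nat_lit 0, nat_lit 0, nat_lit 0, nat_lit 0, ⟨nat_lit 0, nat_lit 0, nat_lit 1000, nat_lit 5, nat_lit 53, nat_lit 0, nat_lit 0, nat_lit 0, nat_lit 0, nat_lit 215, nat_lit 26667, nat_lit 255, nat_lit 65823124, nat_lit 0, nat_lit 0, nat_lit 441961, false, false⟩,
 nat_lit 0, nat_lit 8415, nat_lit 0, nat_lit 0, nat_lit 4131, nat_lit 0, nat_lit 344, nat_lit 0, nat_lit 0, nat_lit 0, nat_lit 0, nat_lit 0, nat_lit 0, nat_lit 0, nat_lit 115, nat_lit 1000000, nat_lit 0, nat_lit 0, [(nat_lit 3, [(nat_lit 6, nat_lit 1000)])],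
 ⟨p007_k9, nat_lit 0, nat_lit 0, nat_lit 0, nat_lit 0, nat_lit 65884, [nat_lit 3007028572, nat_lit 2237600001, nat_lit 23600000], [], [nat_lit 12548263746, nat_lit 12691562869, nat_lit 12343649821, nat_lit 12489477659], nat_lit 1271250, nat_lit 1271250, nat_lit 65850, nat_lit 88400, nat_lit 0, nat_lit 0, [nat_lit 1271250, nat_lit 1271250, nat_lit 1271250], [nat_lit 103, nat_lit 40, nat_lit 20, nat_lit 40]⟩, C1.Rw.none,
 ⟨nat_lit 6557, nat_lit 6615, ⟨.ofNat (nat_lit 126489), .ofNat (nat_lit 135006), .ofNat (nat_lit 129702), .ofNat (nat_lit 138219), .ofNat (nat_lit 129239), .ofNat (nat_lit 137697), .ofNat (nat_lit 132450), .ofNat (nat_lit 140908)⟩, ⟨.ofNat (nat_lit 0), .ofNat (nat_lit 0), .ofNat (nat_lit 0), .ofNat (nat_lit 0), .ofNat (nat_lit 0), .ofNat (nat_lit 0), .ofNat (nat_lit 0), .ofNat (nat_lit 0)⟩⟩, []⟩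
noncomputable def p007_l52 : Lf2 := ⟨nat_lit 0, nat_lit 5, [nat_lit 4, nat_lit 5, nat_lit 5, nat_lit 20], false, nat_lit 0, nat_lit 0, nat_lit 0, nat_lit 0, ⟨nat_lit 0, nat_lit 0, nat_lit 1000, nat_lit 5, nat_lit 52, nat_lit 0, nat_lit 0, nat_lit 0, nat_lit 0, nat_lit 215, nat_lit 25350, nat_lit 254, nat_lit 65895425, nat_lit 0, nat_lit 0, nat_lit 420067, false, false⟩,
 nat_lit 100000, nat_lit 100000, nat_lit 0, nat_lit 0, nat_lit 98181, nat_lit 0, nat_lit 28014, nat_lit 4740, nat_lit 0, nat_lit 0, nat_lit 0, nat_lit 0, nat_lit 0, nat_lit 0, nat_lit 0, nat_lit 1000000, nat_lit 0, nat_lit 0, [(nat_lit 3, [(nat_lit 6, nat_lit 1000)])],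
 ⟨p007_k13, nat_lit 0, nat_lit 0, nat_lit 0, nat_lit 0, nat_lit 65884, [nat_lit 95841142858, nat_lit 112499600001, nat_lit 129523600000], [], [nat_lit 150085837013, nat_lit 150880367035, nat_lit 140170812678, nat_lit 140966259783], nat_lit 1271250, nat_lit 1271250, nat_lit 43600, nat_lit 88400, nat_lit 0, nat_lit 0, [nat_lit 1412500, nat_lit 1271250, nat_lit 1271250], [nat_lit 25, nat_lit 40, nat_lit 20, nat_lit 80]⟩, ⟨p007_k13, nat_lit 0, nat_lit 0, nat_lit 0, nat_lit 0, nat_lit 65884, [nat_lit 0, nat_lit 0, nat_lit 0], [], [nat_lit 0, nat_lit 0, nat_lit 0, nat_lit 0], nat_lit 1271250, nat_lit 1271250, nat_lit 43600, nat_lit 88400, nat_lit 0, nat_lit 0, [nat_lit 1412500, nat_lit 1271250, nat_lit 1271250], [nat_lit 25, nat_lit 40, nat_lit 20, nat_lit 80]⟩,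
 ⟨nat_lit 6557, nat_lit 6615, ⟨.ofNat (nat_lit 117973), .ofNat (nat_lit 135006), .ofNat (nat_lit 121185), .ofNat (nat_lit 138219), .ofNat (nat_lit 120782), .ofNat (nat_lit 137697), .ofNat (nat_lit 123992), .ofNat (nat_lit 140908)⟩, ⟨.ofNat (nat_lit 0), .ofNat (nat_lit 0), .ofNat (nat_lit 0), .ofNat (nat_lit 0), .ofNat (nat_lit 0), .ofNat (nat_lit 0), .ofNat (nat_lit 0), .ofNat (nat_lit 0)⟩⟩, []⟩
noncomputable def b_NL_550_550_0_33 : St := ⟨false, nat_lit 1, nat_lit 1, nat_lit 1, nat_lit 20, nat_lit 225, nat_lit 228, nat_lit 225, nat_lit 230, nat_lit 8, nat_lit 16, nat_lit 0, nat_lit 0, nat_lit 0, nat_lit 0, nat_lit 0, nat_lit 0, nat_lit 20, nat_lit 24, nat_lit 300, nat_lit 600, nat_lit 0, nat_lit 800⟩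
theorem d_NL_550_550_0_33 (h : EB TB.env) : Dead b_NL_550_550_0_33 := chkB_sound0 h (T :=
(.ord (.spl (nat_lit 7) (nat_lit 460)
(.spl (nat_lit 2) (nat_lit 12)
(.spl (nat_lit 7) (nat_lit 380)
(.leaf p007_l40)
(.spl (nat_lit 0) (nat_lit 227)
(.ord (.leaf p007_l41))
(.spl (nat_lit 1) (nat_lit 227)
(.leaf p007_l42)
(.spl (nat_lit 7) (nat_lit 420)
(.spl (nat_lit 7) (nat_lit 400)
(.leaf p007_l43)
(.spl (nat_lit 8) (nat_lit 400)
(.leaf p007_l44)
(.spl (nat_lit 8) (nat_lit 600)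
(.leaf p007_l45)
(.leaf p007_l46))))
(.spl (nat_lit 7) (nat_lit 440)
(.leaf p007_l47)
(.spl (nat_lit 8) (nat_lit 400)
(.leaf p007_l48)
(.spl (nat_lit 8) (nat_lit 600)
(.leaf p007_l49)
(.leaf p007_l50))))))))
(.leaf p007_l51))
(.leaf p007_l52)))) (by decide +kernel)
noncomputable def p007_l53 : Lf2 := ⟨nat_lit 0, nat_lit 5, [nat_lit 4, nat_lit 5, nat_lit 5, nat_lit 20], true, nat_lit 0, nat_lit 0, nat_lit 0, nat_lit 0, ⟨nat_lit 0, nat_lit 0, nat_lit 1000, nat_lit 5, nat_lit 51, nat_lit 0, nat_lit 0, nat_lit 0, nat_lit 0, nat_lit 215, nat_lit 24067, nat_lit 253, nat_lit 65927642, nat_lit 0, nat_lit 0, nat_lit 410196, false, false⟩,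
 nat_lit 0, nat_lit 5279, nat_lit 0, nat_lit 0, nat_lit 2631, nat_lit 0, nat_lit 0, nat_lit 0, nat_lit 101, nat_lit 0, nat_lit 0, nat_lit 0, nat_lit 0, nat_lit 0, nat_lit 100, nat_lit 840400, nat_lit 0, nat_lit 0, [(nat_lit 3, [(nat_lit 5, nat_lit 266), (nat_lit 6, nat_lit 734)])],
 ⟨p007_k0, nat_lit 0, nat_lit 0, nat_lit 0, nat_lit 0, nat_lit 73404, [nat_lit 2863732732, nat_lit 1926220001, nat_lit 7494400], [], [nat_lit 10201334732, nat_lit 10302726135, nat_lit 10088940162, nat_lit 10192513117], nat_lit 1271250, nat_lit 1271250, nat_lit 43600, nat_lit 65850, nat_lit 0, nat_lit 0, [nat_lit 1271250, nat_lit 1271250, nat_lit 1271250], [nat_lit 103, nat_lit 40, nat_lit 20, nat_lit 40]⟩, C1.Rw.none,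
 ⟨nat_lit 6519, nat_lit 6558, ⟨.ofNat (nat_lit 120782), .ofNat (nat_lit 129239), .ofNat (nat_lit 123992), .ofNat (nat_lit 132450), .ofNat (nat_lit 122644), .ofNat (nat_lit 131063), .ofNat (nat_lit 125854), .ofNat (nat_lit 134272)⟩, ⟨.ofNat (nat_lit 0), .ofNat (nat_lit 0), .ofNat (nat_lit 0), .ofNat (nat_lit 0), .ofNat (nat_lit 0), .ofNat (nat_lit 0), .ofNat (nat_lit 0), .ofNat (nat_lit 0)⟩⟩, []⟩
noncomputable def p007_l54 : Lf2 := ⟨nat_lit 0, nat_lit 5, [nat_lit 4, nat_lit 5, nat_lit 5, nat_lit 20], true, nat_lit 0, nat_lit 0, nat_lit 0, nat_lit 0, ⟨nat_lit 0, nat_lit 0, nat_lit 1000, nat_lit 5, nat_lit 51, nat_lit 0, nat_lit 0, nat_lit 0, nat_lit 0, nat_lit 215, nat_lit 24067, nat_lit 253, nat_lit 65945276, nat_lit 0, nat_lit 0, nat_lit 404762, false, false⟩,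
 nat_lit 0, nat_lit 8750, nat_lit 0, nat_lit 0, nat_lit 4362, nat_lit 0, nat_lit 0, nat_lit 0, nat_lit 0, nat_lit 0, nat_lit 0, nat_lit 0, nat_lit 0, nat_lit 0, nat_lit 114, nat_lit 989800, nat_lit 0, nat_lit 0, [(nat_lit 3, [(nat_lit 5, nat_lit 17), (nat_lit 6, nat_lit 983)])],
 ⟨p007_k0, nat_lit 0, nat_lit 0, nat_lit 0, nat_lit 0, nat_lit 64897, [nat_lit 2997126206, nat_lit 2216790001, nat_lit 21412800], [], [nat_lit 14117673462, nat_lit 14192275671, nat_lit 13941540875, nat_lit 14019215912], nat_lit 1271250, nat_lit 1271250, nat_lit 43600, nat_lit 65850, nat_lit 0, nat_lit 0, [nat_lit 1271250, nat_lit 1271250, nat_lit 1271250], [nat_lit 103, nat_lit 40, nat_lit 20, nat_lit 40]⟩, C1.Rw.none,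
 ⟨nat_lit 6519, nat_lit 6558, ⟨.ofNat (nat_lit 120782), .ofNat (nat_lit 129239), .ofNat (nat_lit 121852), .ofNat (nat_lit 130310), .ofNat (nat_lit 122644), .ofNat (nat_lit 131063), .ofNat (nat_lit 123714), .ofNat (nat_lit 132133)⟩, ⟨.ofNat (nat_lit 0), .ofNat (nat_lit 0), .ofNat (nat_lit 0), .ofNat (nat_lit 0), .ofNat (nat_lit 0), .ofNat (nat_lit 0), .ofNat (nat_lit 0), .ofNat (nat_lit 0)⟩⟩, []⟩
noncomputable def p007_l55 : Lf2 := ⟨nat_lit 0, nat_lit 5, [nat_lit 4, nat_lit 5, nat_lit 5, nat_lit 20], true, nat_lit 0, nat_lit 0, nat_lit 0, nat_lit 0, ⟨nat_lit 0, nat_lit 0, nat_lit 1000, nat_lit 5, nat_lit 51, nat_lit 0, nat_lit 0, nat_lit 0, nat_lit 0, nat_lit 215, nat_lit 24067, nat_lit 253, nat_lit 65927638, nat_lit 0, nat_lit 0, nat_lit 410197, false, false⟩,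
 nat_lit 0, nat_lit 7114, nat_lit 0, nat_lit 0, nat_lit 3546, nat_lit 0, nat_lit 0, nat_lit 0, nat_lit 58, nat_lit 0, nat_lit 0, nat_lit 0, nat_lit 0, nat_lit 0, nat_lit 115, nat_lit 1000000, nat_lit 0, nat_lit 0, [(nat_lit 3, [(nat_lit 6, nat_lit 1000)])],
 ⟨p007_k0, nat_lit 0, nat_lit 0, nat_lit 0, nat_lit 0, nat_lit 69150, [nat_lit 3007028572, nat_lit 2237600001, nat_lit 23600000], [], [nat_lit 11757094592, nat_lit 11858118995, nat_lit 11626628368, nat_lit 11715017049], nat_lit 1271250, nat_lit 1271250, nat_lit 43600, nat_lit 65850, nat_lit 0, nat_lit 0, [nat_lit 1271250, nat_lit 1271250, nat_lit 1271250], [nat_lit 103, nat_lit 40, nat_lit 20, nat_lit 40]⟩, C1.Rw.none,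
 ⟨nat_lit 6519, nat_lit 6558, ⟨.ofNat (nat_lit 121852), .ofNat (nat_lit 130310), .ofNat (nat_lit 122922), .ofNat (nat_lit 131380), .ofNat (nat_lit 123714), .ofNat (nat_lit 132133), .ofNat (nat_lit 124784), .ofNat (nat_lit 133203)⟩, ⟨.ofNat (nat_lit 0), .ofNat (nat_lit 0), .ofNat (nat_lit 0), .ofNat (nat_lit 0), .ofNat (nat_lit 0), .ofNat (nat_lit 0), .ofNat (nat_lit 0), .ofNat (nat_lit 0)⟩⟩, []⟩
noncomputable def p007_l56 : Lf2 := ⟨nat_lit 2, nat_lit 5, [nat_lit 4, nat_lit 5, nat_lit 5, nat_lit 20], true, nat_lit 0, nat_lit 0, nat_lit 0, nat_lit 0, zbN0,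
 nat_lit 0, nat_lit 0, nat_lit 0, nat_lit 0, nat_lit 0, nat_lit 0, nat_lit 0, nat_lit 0, nat_lit 0, nat_lit 0, nat_lit 0, nat_lit 0, nat_lit 0, nat_lit 0, nat_lit 0, nat_lit 0, nat_lit 0, nat_lit 0, [],
 ⟨p007_k5, nat_lit 0, nat_lit 0, nat_lit 0, nat_lit 0, nat_lit 64821, [], [], [], nat_lit 1271250, nat_lit 1271250, nat_lit 43600, nat_lit 65850, nat_lit 0, nat_lit 0, [nat_lit 780000, nat_lit 1100000, nat_lit 1442500, nat_lit 1271250, nat_lit 1271250], [nat_lit 167, nat_lit 40, nat_lit 20, nat_lit 40]⟩, C1.Rw.none,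
 zbF0, []⟩
noncomputable def p007_l57 : Lf2 := ⟨nat_lit 0, nat_lit 5, [nat_lit 4, nat_lit 5, nat_lit 5, nat_lit 20], true, nat_lit 0, nat_lit 0, nat_lit 0, nat_lit 0, ⟨nat_lit 0, nat_lit 0, nat_lit 1000, nat_lit 5, nat_lit 51, nat_lit 0, nat_lit 0, nat_lit 0, nat_lit 0, nat_lit 215, nat_lit 24067, nat_lit 253, nat_lit 65935241, nat_lit 0, nat_lit 0, nat_lit 407857, false, false⟩,
 nat_lit 0, nat_lit 100000, nat_lit 0, nat_lit 0, nat_lit 49854, nat_lit 0, nat_lit 7930, nat_lit 132, nat_lit 0, nat_lit 0, nat_lit 0, nat_lit 0, nat_lit 0, nat_lit 0, nat_lit 0, nat_lit 400000, nat_lit 16507598207, nat_lit 0, [(nat_lit 3, [(nat_lit 5, nat_lit 1000)])],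
 ⟨p007_k1, nat_lit 0, nat_lit 0, nat_lit 0, nat_lit 0, nat_lit 64821, [nat_lit 2251600001, nat_lit 3015600001, nat_lit 2681600001, nat_lit 2018000000], [], [nat_lit 2961815168, nat_lit 3159328085, nat_lit 0, nat_lit 198058465], nat_lit 1271250, nat_lit 1271250, nat_lit 43600, nat_lit 65850, nat_lit 0, nat_lit 0, [nat_lit 631250, nat_lit 1271250, nat_lit 1271250, nat_lit 1271250], [nat_lit 91, nat_lit 40, nat_lit 20, nat_lit 40]⟩, C1.Rw.none,
 ⟨nat_lit 6538, nat_lit 6558, ⟨.ofNat (nat_lit 121852), .ofNat (nat_lit 130310), .ofNat (nat_lit 122922), .ofNat (nat_lit 131380), .ofNat (nat_lit 122784), .ofNat (nat_lit 131222), .ofNat (nat_lit 123854), .ofNat (nat_lit 132292)⟩, ⟨.ofNat (nat_lit 0), .ofNat (nat_lit 0), .ofNat (nat_lit 0), .ofNat (nat_lit 0), .ofNat (nat_lit 0), .ofNat (nat_lit 0), .ofNat (nat_lit 0), .ofNat (nat_lit 0)⟩⟩, []⟩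
noncomputable def p007_l58 : Lf2 := ⟨nat_lit 0, nat_lit 5, [nat_lit 4, nat_lit 5, nat_lit 5, nat_lit 20], true, nat_lit 0, nat_lit 0, nat_lit 0, nat_lit 0, ⟨nat_lit 0, nat_lit 0, nat_lit 1000, nat_lit 5, nat_lit 51, nat_lit 0, nat_lit 0, nat_lit 0, nat_lit 0, nat_lit 215, nat_lit 24067, nat_lit 253, nat_lit 65935241, nat_lit 0, nat_lit 0, nat_lit 407857, false, false⟩,
 nat_lit 0, nat_lit 100000, nat_lit 0, nat_lit 0, nat_lit 49854, nat_lit 0, nat_lit 7930, nat_lit 132, nat_lit 0, nat_lit 0, nat_lit 0, nat_lit 0, nat_lit 0, nat_lit 0, nat_lit 0, nat_lit 400000, nat_lit 16507598207, nat_lit 0, [(nat_lit 3, [(nat_lit 5, nat_lit 1000)])],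
 ⟨p007_k1, nat_lit 0, nat_lit 0, nat_lit 0, nat_lit 0, nat_lit 64821, [nat_lit 2251600001, nat_lit 3015600001, nat_lit 2681600001, nat_lit 2018000000], [], [nat_lit 2961815168, nat_lit 3159328085, nat_lit 0, nat_lit 198058465], nat_lit 1271250, nat_lit 1271250, nat_lit 43600, nat_lit 65850, nat_lit 0, nat_lit 0, [nat_lit 631250, nat_lit 1271250, nat_lit 1271250, nat_lit 1271250], [nat_lit 91, nat_lit 40, nat_lit 20, nat_lit 40]⟩, C1.Rw.none,
 ⟨nat_lit 6538, nat_lit 6558, ⟨.ofNat (nat_lit 121852), .ofNat (nat_lit 130310), .ofNat (nat_lit 122922), .ofNat (nat_lit 131380), .ofNat (nat_lit 122784), .ofNat (nat_lit 131222), .ofNat (nat_lit 123854), .ofNat (nat_lit 132292)⟩, ⟨.ofNat (nat_lit 0), .ofNat (nat_lit 0), .ofNat (nat_lit 0), .ofNat (nat_lit 0), .ofNat (nat_lit 0), .ofNat (nat_lit 0), .ofNat (nat_lit 0), .ofNat (nat_lit 0)⟩⟩, []⟩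
noncomputable def p007_l59 : Lf2 := ⟨nat_lit 0, nat_lit 5, [nat_lit 4, nat_lit 5, nat_lit 5, nat_lit 20], false, nat_lit 0, nat_lit 0, nat_lit 0, nat_lit 0, ⟨nat_lit 0, nat_lit 0, nat_lit 1000, nat_lit 5, nat_lit 51, nat_lit 0, nat_lit 0, nat_lit 0, nat_lit 0, nat_lit 215, nat_lit 24067, nat_lit 253, nat_lit 65935241, nat_lit 0, nat_lit 0, nat_lit 407857, false, false⟩,
 nat_lit 100000, nat_lit 100000, nat_lit 100000, nat_lit 100000, nat_lit 99708, nat_lit 98689, nat_lit 38347, nat_lit 4476, nat_lit 0, nat_lit 60000, nat_lit 4409, nat_lit 0, nat_lit 0, nat_lit 0, nat_lit 0, nat_lit 400000, nat_lit 0, nat_lit 0, [(nat_lit 3, [(nat_lit 5, nat_lit 1000)])],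
 ⟨p007_k2, nat_lit 0, nat_lit 0, nat_lit 0, nat_lit 0, nat_lit 64821, [nat_lit 91090400000, nat_lit 106686400000, nat_lit 123650000000], [], [nat_lit 120403795246, nat_lit 121105093378, nat_lit 113362583274, nat_lit 113704518938], nat_lit 1271250, nat_lit 1271250, nat_lit 43600, nat_lit 65850, nat_lit 0, nat_lit 0, [nat_lit 1412500, nat_lit 1271250, nat_lit 1271250], [nat_lit 25, nat_lit 40, nat_lit 20, nat_lit 80]⟩, ⟨p007_k6, nat_lit 0, nat_lit 0, nat_lit 0, nat_lit 0, nat_lit 65543, [nat_lit 88180000000, nat_lit 105816000000, nat_lit 123452000000], [], [nat_lit 73022579043, nat_lit 73492168938, nat_lit 67219670592, nat_lit 67529752602], nat_lit 1271250, nat_lit 1271250, nat_lit 43600, nat_lit 65850, nat_lit 0, nat_lit 0, [nat_lit 1412500, nat_lit 1271250, nat_lit 1271250], [nat_lit 25, nat_lit 40, nat_lit 20, nat_lit 80]⟩,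
 ⟨nat_lit 6538, nat_lit 6558, ⟨.ofNat (nat_lit 121852), .ofNat (nat_lit 130310), .ofNat (nat_lit 122922), .ofNat (nat_lit 131380), .ofNat (nat_lit 122784), .ofNat (nat_lit 131222), .ofNat (nat_lit 123854), .ofNat (nat_lit 132292)⟩, ⟨.ofNat (nat_lit 0), .ofNat (nat_lit 0), .ofNat (nat_lit 0), .ofNat (nat_lit 0), .ofNat (nat_lit 0), .ofNat (nat_lit 0), .ofNat (nat_lit 0), .ofNat (nat_lit 0)⟩⟩, [⟨nat_lit 0, nat_lit 100, nat_lit 100, nat_lit 27, nat_lit 10000000000⟩, ⟨nat_lit 0, nat_lit 100, nat_lit 100, nat_lit 28, nat_lit 10000000000⟩, ⟨nat_lit 0, nat_lit 100, nat_lit 100, nat_lit 27, nat_lit 10000000000⟩, ⟨nat_lit 13, nat_lit 100, nat_lit 1, nat_lit 100, nat_lit 122363142⟩]⟩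
noncomputable def p007_l60 : Lf2 := ⟨nat_lit 2, nat_lit 5, [nat_lit 4, nat_lit 5, nat_lit 5, nat_lit 20], true, nat_lit 0, nat_lit 0, nat_lit 0, nat_lit 0, zbN0,
 nat_lit 0, nat_lit 0, nat_lit 0, nat_lit 0, nat_lit 0, nat_lit 0, nat_lit 0, nat_lit 0, nat_lit 0, nat_lit 0, nat_lit 0, nat_lit 0, nat_lit 0, nat_lit 0, nat_lit 0, nat_lit 0, nat_lit 0, nat_lit 0, [],
 ⟨p007_k14, nat_lit 0, nat_lit 0, nat_lit 0, nat_lit 0, nat_lit 68771, [], [], [], nat_lit 1271250, nat_lit 1271250, nat_lit 43600, nat_lit 65850, nat_lit 0, nat_lit 0, [nat_lit 780000, nat_lit 1100000, nat_lit 1442500, nat_lit 1271250, nat_lit 1271250], [nat_lit 167, nat_lit 40, nat_lit 20, nat_lit 40]⟩, C1.Rw.none,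
 zbF0, []⟩
noncomputable def p007_l61 : Lf2 := ⟨nat_lit 0, nat_lit 5, [nat_lit 4, nat_lit 5, nat_lit 5, nat_lit 20], true, nat_lit 0, nat_lit 0, nat_lit 0, nat_lit 0, ⟨nat_lit 0, nat_lit 0, nat_lit 1000, nat_lit 5, nat_lit 51, nat_lit 0, nat_lit 0, nat_lit 0, nat_lit 0, nat_lit 215, nat_lit 24067, nat_lit 253, nat_lit 65919996, nat_lit 0, nat_lit 0, nat_lit 412545, false, false⟩,
 nat_lit 0, nat_lit 100000, nat_lit 0, nat_lit 0, nat_lit 50109, nat_lit 0, nat_lit 8003, nat_lit 166, nat_lit 0, nat_lit 0, nat_lit 0, nat_lit 0, nat_lit 0, nat_lit 0, nat_lit 0, nat_lit 400000, nat_lit 15561779726, nat_lit 0, [(nat_lit 3, [(nat_lit 5, nat_lit 1000)])],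
 ⟨p007_k7, nat_lit 0, nat_lit 0, nat_lit 0, nat_lit 0, nat_lit 68771, [nat_lit 2591600001, nat_lit 3627600001, nat_lit 3429600001, nat_lit 2970000000], [], [nat_lit 2976809949, nat_lit 3179703181, nat_lit 0, nat_lit 203962403], nat_lit 1271250, nat_lit 1271250, nat_lit 43600, nat_lit 65850, nat_lit 0, nat_lit 0, [nat_lit 631250, nat_lit 1271250, nat_lit 1271250, nat_lit 1271250], [nat_lit 91, nat_lit 40, nat_lit 20, nat_lit 40]⟩, C1.Rw.none,
 ⟨nat_lit 6519, nat_lit 6539, ⟨.ofNat (nat_lit 122784), .ofNat (nat_lit 131222), .ofNat (nat_lit 123854), .ofNat (nat_lit 132292), .ofNat (nat_lit 123714), .ofNat (nat_lit 132133), .ofNat (nat_lit 124784), .ofNat (nat_lit 133203)⟩, ⟨.ofNat (nat_lit 0), .ofNat (nat_lit 0), .ofNat (nat_lit 0), .ofNat (nat_lit 0), .ofNat (nat_lit 0), .ofNat (nat_lit 0), .ofNat (nat_lit 0), .ofNat (nat_lit 0)⟩⟩, [⟨nat_lit 0, nat_lit 100, nat_lit 100, nat_lit 28, nat_lit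 3823933358⟩]⟩
noncomputable def p007_l62 : Lf2 := ⟨nat_lit 0, nat_lit 5, [nat_lit 4, nat_lit 5, nat_lit 5, nat_lit 20], true, nat_lit 0, nat_lit 0, nat_lit 0, nat_lit 0, ⟨nat_lit 0, nat_lit 0, nat_lit 1000, nat_lit 5, nat_lit 51, nat_lit 0, nat_lit 0, nat_lit 0, nat_lit 0, nat_lit 215, nat_lit 24067, nat_lit 253, nat_lit 65919996, nat_lit 0, nat_lit 0, nat_lit 412545, false, false⟩,
 nat_lit 0, nat_lit 100000, nat_lit 0, nat_lit 0, nat_lit 50109, nat_lit 0, nat_lit 8003, nat_lit 166, nat_lit 0, nat_lit 0, nat_lit 0, nat_lit 0, nat_lit 0, nat_lit 0, nat_lit 0, nat_lit 400000, nat_lit 15561779726, nat_lit 0, [(nat_lit 3, [(nat_lit 5, nat_lit 1000)])],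
 ⟨p007_k7, nat_lit 0, nat_lit 0, nat_lit 0, nat_lit 0, nat_lit 68771, [nat_lit 2591600001, nat_lit 3627600001, nat_lit 3429600001, nat_lit 2970000000], [], [nat_lit 2976809949, nat_lit 3179703181, nat_lit 0, nat_lit 203962403], nat_lit 1271250, nat_lit 1271250, nat_lit 43600, nat_lit 65850, nat_lit 0, nat_lit 0, [nat_lit 631250, nat_lit 1271250, nat_lit 1271250, nat_lit 1271250], [nat_lit 91, nat_lit 40, nat_lit 20, nat_lit 40]⟩, C1.Rw.none,
 ⟨nat_lit 6519, nat_lit 6539, ⟨.ofNat (nat_lit 122784), .ofNat (nat_lit 131222), .ofNat (nat_lit 123854), .ofNat (nat_lit 132292), .ofNat (nat_lit 123714), .ofNat (nat_lit 132133), .ofNat (nat_lit 124784), .ofNat (nat_lit 133203)⟩, ⟨.ofNat (nat_lit 0), .ofNat (nat_lit 0), .ofNat (nat_lit 0), .ofNat (nat_lit 0), .ofNat (nat_lit 0), .ofNat (nat_lit 0), .ofNat (nat_lit 0), .ofNat (nat_lit 0)⟩⟩, [⟨nat_lit 0, nat_lit 100, nat_lit 100, nat_lit 28, nat_lit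 3823933358⟩]⟩
noncomputable def p007_l63 : Lf2 := ⟨nat_lit 0, nat_lit 5, [nat_lit 4, nat_lit 5, nat_lit 5, nat_lit 20], false, nat_lit 0, nat_lit 0, nat_lit 0, nat_lit 0, ⟨nat_lit 0, nat_lit 0, nat_lit 1000, nat_lit 5, nat_lit 51, nat_lit 0, nat_lit 0, nat_lit 0, nat_lit 0, nat_lit 215, nat_lit 24067, nat_lit 253, nat_lit 65919996, nat_lit 0, nat_lit 0, nat_lit 412545, false, false⟩,
 nat_lit 100000, nat_lit 100000, nat_lit 100000, nat_lit 100000, nat_lit 100000, nat_lit 98689, nat_lit 60000, nat_lit 9953, nat_lit 0, nat_lit 60000, nat_lit 4838, nat_lit 0, nat_lit 0, nat_lit 0, nat_lit 0, nat_lit 1000000, nat_lit 0, nat_lit 0, [(nat_lit 3, [(nat_lit 6, nat_lit 1000)])],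
 ⟨p007_k15, nat_lit 0, nat_lit 0, nat_lit 0, nat_lit 0, nat_lit 68771, [nat_lit 200101142858, nat_lit 275487600000], [], [nat_lit 337489273776, nat_lit 338093793117, nat_lit 331476888656, nat_lit 332081788317], nat_lit 1271250, nat_lit 1271250, nat_lit 43600, nat_lit 65850, nat_lit 0, nat_lit 0, [nat_lit 1412500, nat_lit 1271250], [nat_lit 51, nat_lit 40, nat_lit 20, nat_lit 80]⟩, ⟨p007_k16, nat_lit 0, nat_lit 0, nat_lit 0, nat_lit 0, nat_lit 69920, [nat_lit 96760000000, nat_lit 135464000000], [], [nat_lit 76094662255, nat_lit 76461779414, nat_lit 70256077782, nat_lit 70490408038], nat_lit 1271250, nat_lit 1271250, nat_lit 43600, nat_lit 65850, nat_lit 0, nat_lit 0, [nat_lit 1412500, nat_lit 1271250], [nat_lit 51, nat_lit 40, nat_lit 20, nat_lit 80]⟩,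
 ⟨nat_lit 6519, nat_lit 6539, ⟨.ofNat (nat_lit 122784), .ofNat (nat_lit 131222), .ofNat (nat_lit 123854), .ofNat (nat_lit 132292), .ofNat (nat_lit 123714), .ofNat (nat_lit 132133), .ofNat (nat_lit 124784), .ofNat (nat_lit 133203)⟩, ⟨.ofNat (nat_lit 0), .ofNat (nat_lit 0), .ofNat (nat_lit 0), .ofNat (nat_lit 0), .ofNat (nat_lit 0), .ofNat (nat_lit 0), .ofNat (nat_lit 0), .ofNat (nat_lit 0)⟩⟩, [⟨nat_lit 0, nat_lit 100, nat_lit 100, nat_lit 28, nat_lit 10000000000⟩, ⟨nat_lit 0, nat_lit 100, nat_lit 100, nat_lit 28, nat_lit 10000000000⟩, ⟨nat_lit 0, nat_lit 100, nat_lit 100, nat_lit 27, nat_lit 10000000000⟩]⟩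
noncomputable def p007_l64 : Lf2 := ⟨nat_lit 0, nat_lit 5, [nat_lit 4, nat_lit 5, nat_lit 5, nat_lit 20], true, nat_lit 0, nat_lit 0, nat_lit 0, nat_lit 0, ⟨nat_lit 0, nat_lit 0, nat_lit 1000, nat_lit 5, nat_lit 51, nat_lit 0, nat_lit 0, nat_lit 0, nat_lit 0, nat_lit 215, nat_lit 24067, nat_lit 253, nat_lit 65917525, nat_lit 0, nat_lit 0, nat_lit 413304, false, false⟩,
 nat_lit 0, nat_lit 5014, nat_lit 0, nat_lit 0, nat_lit 2499, nat_lit 0, nat_lit 0, nat_lit 0, nat_lit 143, nat_lit 0, nat_lit 0, nat_lit 0, nat_lit 0, nat_lit 0, nat_lit 110, nat_lit 945400, nat_lit 0, nat_lit 0, [(nat_lit 3, [(nat_lit 5, nat_lit 91), (nat_lit 6, nat_lit 909)])],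
 ⟨p007_k0, nat_lit 0, nat_lit 0, nat_lit 0, nat_lit 0, nat_lit 69100, [nat_lit 2960374732, nat_lit 2133970001, nat_lit 21774400], [], [nat_lit 8647747354, nat_lit 8703046177, nat_lit 8558282585, nat_lit 8598224263], nat_lit 1271250, nat_lit 1271250, nat_lit 43600, nat_lit 65850, nat_lit 0, nat_lit 0, [nat_lit 1271250, nat_lit 1271250, nat_lit 1271250], [nat_lit 103, nat_lit 40, nat_lit 20, nat_lit 40]⟩, C1.Rw.none,
 ⟨nat_lit 6538, nat_lit 6558, ⟨.ofNat (nat_lit 122922), .ofNat (nat_lit 131380), .ofNat (nat_lit 123992), .ofNat (nat_lit 132450), .ofNat (nat_lit 123854), .ofNat (nat_lit 132292), .ofNat (nat_lit 124924), .ofNat (nat_lit 133362)⟩, ⟨.ofNat (nat_lit 0), .ofNat (nat_lit 0), .ofNat (nat_lit 0), .ofNat (nat_lit 0), .ofNat (nat_lit 0), .ofNat (nat_lit 0), .ofNat (nat_lit 0), .ofNat (nat_lit 0)⟩⟩, []⟩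
noncomputable def p007_l65 : Lf2 := ⟨nat_lit 0, nat_lit 5, [nat_lit 4, nat_lit 5, nat_lit 5, nat_lit 20], true, nat_lit 0, nat_lit 0, nat_lit 0, nat_lit 0, ⟨nat_lit 0, nat_lit 0, nat_lit 1000, nat_lit 5, nat_lit 51, nat_lit 0, nat_lit 0, nat_lit 0, nat_lit 0, nat_lit 215, nat_lit 24067, nat_lit 253, nat_lit 65917525, nat_lit 0, nat_lit 0, nat_lit 413304, false, false⟩,
 nat_lit 0, nat_lit 100000, nat_lit 0, nat_lit 0, nat_lit 49854, nat_lit 0, nat_lit 7485, nat_lit 0, nat_lit 0, nat_lit 0, nat_lit 0, nat_lit 0, nat_lit 0, nat_lit 0, nat_lit 115, nat_lit 1000000, nat_lit 22245820514, nat_lit 0, [(nat_lit 3, [(nat_lit 6, nat_lit 1000)])],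
 ⟨p007_k1, nat_lit 0, nat_lit 0, nat_lit 0, nat_lit 0, nat_lit 69100, [nat_lit 1742533334, nat_lit 2935066667, nat_lit 2237600001, nat_lit 23600000], [], [nat_lit 2958870113, nat_lit 3230601268, nat_lit 0, nat_lit 271968272], nat_lit 1271250, nat_lit 1271250, nat_lit 43600, nat_lit 65850, nat_lit 0, nat_lit 0, [nat_lit 631250, nat_lit 1271250, nat_lit 1271250, nat_lit 1271250], [nat_lit 91, nat_lit 40, nat_lit 20, nat_lit 40]⟩, C1.Rw.none,
 ⟨nat_lit 6538, nat_lit 6558, ⟨.ofNat (nat_lit 122922), .ofNat (nat_lit 131380), .ofNat (nat_lit 123992), .ofNat (nat_lit 132450), .ofNat (nat_lit 123854), .ofNat (nat_lit 132292), .ofNat (nat_lit 124924), .ofNat (nat_lit 133362)⟩, ⟨.ofNat (nat_lit 0), .ofNat (nat_lit 0), .ofNat (nat_lit 0), .ofNat (nat_lit 0), .ofNat (nat_lit 0), .ofNat (nat_lit 0), .ofNat (nat_lit 0), .ofNat (nat_lit 0)⟩⟩, [⟨nat_lit 0, nat_lit 100, nat_lit 100, nat_lit 28, nat_lit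 3805486566⟩]⟩
noncomputable def p007_l66 : Lf2 := ⟨nat_lit 0, nat_lit 5, [nat_lit 4, nat_lit 5, nat_lit 5, nat_lit 20], true, nat_lit 0, nat_lit 0, nat_lit 0, nat_lit 0, ⟨nat_lit 0, nat_lit 0, nat_lit 1000, nat_lit 5, nat_lit 51, nat_lit 0, nat_lit 0, nat_lit 0, nat_lit 0, nat_lit 215, nat_lit 24067, nat_lit 253, nat_lit 65917525, nat_lit 0, nat_lit 0, nat_lit 413304, false, false⟩,
 nat_lit 0, nat_lit 100000, nat_lit 0, nat_lit 0, nat_lit 49854, nat_lit 0, nat_lit 7485, nat_lit 0, nat_lit 0, nat_lit 0, nat_lit 0, nat_lit 0, nat_lit 0, nat_lit 0, nat_lit 115, nat_lit 1000000, nat_lit 22245820514, nat_lit 0, [(nat_lit 3, [(nat_lit 6, nat_lit 1000)])],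
 ⟨p007_k1, nat_lit 0, nat_lit 0, nat_lit 0, nat_lit 0, nat_lit 69100, [nat_lit 1742533334, nat_lit 2935066667, nat_lit 2237600001, nat_lit 23600000], [], [nat_lit 2958870113, nat_lit 3230601268, nat_lit 0, nat_lit 271968272], nat_lit 1271250, nat_lit 1271250, nat_lit 43600, nat_lit 65850, nat_lit 0, nat_lit 0, [nat_lit 631250, nat_lit 1271250, nat_lit 1271250, nat_lit 1271250], [nat_lit 91, nat_lit 40, nat_lit 20, nat_lit 40]⟩, C1.Rw.none,
 ⟨nat_lit 6538, nat_lit 6558, ⟨.ofNat (nat_lit 122922), .ofNat (nat_lit 131380), .ofNat (nat_lit 123992), .ofNat (nat_lit 132450), .ofNat (nat_lit 123854), .ofNat (nat_lit 132292), .ofNat (nat_lit 124924), .ofNat (nat_lit 133362)⟩, ⟨.ofNat (nat_lit 0), .ofNat (nat_lit 0), .ofNat (nat_lit 0), .ofNat (nat_lit 0), .ofNat (nat_lit 0), .ofNat (nat_lit 0), .ofNat (nat_lit 0), .ofNat (nat_lit 0)⟩⟩, [⟨nat_lit 0, nat_lit 100, nat_lit 100, nat_lit 28, nat_lit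 3805486566⟩]⟩
noncomputable def p007_l67 : Lf2 := ⟨nat_lit 0, nat_lit 5, [nat_lit 4, nat_lit 5, nat_lit 5, nat_lit 20], false, nat_lit 0, nat_lit 0, nat_lit 0, nat_lit 0, ⟨nat_lit 0, nat_lit 0, nat_lit 1000, nat_lit 5, nat_lit 51, nat_lit 0, nat_lit 0, nat_lit 0, nat_lit 0, nat_lit 215, nat_lit 24067, nat_lit 253, nat_lit 65917525, nat_lit 0, nat_lit 0, nat_lit 413304, false, false⟩,
 nat_lit 100000, nat_lit 100000, nat_lit 100000, nat_lit 100000, nat_lit 99708, nat_lit 99198, nat_lit 0, nat_lit 5338, nat_lit 0, nat_lit 45037, nat_lit 4441, nat_lit 0, nat_lit 0, nat_lit 0, nat_lit 0, nat_lit 1000000, nat_lit 0, nat_lit 0, [(nat_lit 3, [(nat_lit 6, nat_lit 1000)])],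
 ⟨p007_k2, nat_lit 0, nat_lit 0, nat_lit 0, nat_lit 0, nat_lit 69100, [nat_lit 107801142858, nat_lit 126851600001, nat_lit 146267600000], [], [nat_lit 242335827999, nat_lit 242897098465, nat_lit 235114080480, nat_lit 235520071829], nat_lit 1271250, nat_lit 1271250, nat_lit 43600, nat_lit 65850, nat_lit 0, nat_lit 0, [nat_lit 1412500, nat_lit 1271250, nat_lit 1271250], [nat_lit 25, nat_lit 40, nat_lit 20, nat_lit 80]⟩, ⟨p007_k3, nat_lit 0, nat_lit 0, nat_lit 0, nat_lit 0, nat_lit 69483, [nat_lit 88820000000, nat_lit 106584000000, nat_lit 124348000000], [], [nat_lit 88294202401, nat_lit 88766214261, nat_lit 82477977180, nat_lit 82781400055], nat_lit 1271250, nat_lit 1271250, nat_lit 43600, nat_lit 65850, nat_lit 0, nat_lit 0, [nat_lit 1412500, nat_lit 1271250, nat_lit 1271250], [nat_lit 25, nat_lit 40, nat_lit 20, nat_lit 80]⟩,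
 ⟨nat_lit 6538, nat_lit 6558, ⟨.ofNat (nat_lit 122922), .ofNat (nat_lit 131380), .ofNat (nat_lit 123992), .ofNat (nat_lit 132450), .ofNat (nat_lit 123854), .ofNat (nat_lit 132292), .ofNat (nat_lit 124924), .ofNat (nat_lit 133362)⟩, ⟨.ofNat (nat_lit 0), .ofNat (nat_lit 0), .ofNat (nat_lit 0), .ofNat (nat_lit 0), .ofNat (nat_lit 0), .ofNat (nat_lit 0), .ofNat (nat_lit 0), .ofNat (nat_lit 0)⟩⟩, [⟨nat_lit 0, nat_lit 100, nat_lit 100, nat_lit 28, nat_lit 10000000000⟩, ⟨nat_lit 0, nat_lit 100, nat_lit 100, nat_lit 28, nat_lit 10000000000⟩, ⟨nat_lit 0, nat_lit 100, nat_lit 100, nat_lit 27, nat_lit 10000000000⟩]⟩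
noncomputable def p007_l68 : Lf2 := ⟨nat_lit 0, nat_lit 5, [nat_lit 4, nat_lit 5, nat_lit 5, nat_lit 20], true, nat_lit 0, nat_lit 0, nat_lit 0, nat_lit 0, ⟨nat_lit 0, nat_lit 0, nat_lit 1000, nat_lit 5, nat_lit 52, nat_lit 0, nat_lit 0, nat_lit 0, nat_lit 0, nat_lit 215, nat_lit 25350, nat_lit 254, nat_lit 65902163, nat_lit 0, nat_lit 0, nat_lit 418009, false, false⟩,
 nat_lit 0, nat_lit 4998, nat_lit 0, nat_lit 0, nat_lit 2504, nat_lit 0, nat_lit 0, nat_lit 0, nat_lit 142, nat_lit 0, nat_lit 0, nat_lit 0, nat_lit 0, nat_lit 0, nat_lit 110, nat_lit 944800, nat_lit 0, nat_lit 0, [(nat_lit 3, [(nat_lit 5, nat_lit 92), (nat_lit 6, nat_lit 908)])],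
 ⟨p007_k4, nat_lit 0, nat_lit 0, nat_lit 0, nat_lit 0, nat_lit 73001, [nat_lit 2960851063, nat_lit 2134040001, nat_lit 23292800], [], [nat_lit 8726612149, nat_lit 8781947507, nat_lit 8648821236, nat_lit 8688783223], nat_lit 1271250, nat_lit 1271250, nat_lit 43600, nat_lit 65850, nat_lit 0, nat_lit 0, [nat_lit 1271250, nat_lit 1271250, nat_lit 1271250], [nat_lit 103, nat_lit 40, nat_lit 20, nat_lit 40]⟩, C1.Rw.none,
 ⟨nat_lit 6519, nat_lit 6539, ⟨.ofNat (nat_lit 123854), .ofNat (nat_lit 132292), .ofNat (nat_lit 124924), .ofNat (nat_lit 133362), .ofNat (nat_lit 124784), .ofNat (nat_lit 133203), .ofNat (nat_lit 125854), .ofNat (nat_lit 134272)⟩, ⟨.ofNat (nat_lit 0), .ofNat (nat_lit 0), .ofNat (nat_lit 0), .ofNat (nat_lit 0), .ofNat (nat_lit 0), .ofNat (nat_lit 0), .ofNat (nat_lit 0), .ofNat (nat_lit 0)⟩⟩, [⟨nat_lit 0, nat_lit 100, nat_lit 100, nat_lit 29, nat_lit 204362624⟩]⟩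
noncomputable def p007_l69 : Lf2 := ⟨nat_lit 0, nat_lit 5, [nat_lit 4, nat_lit 5, nat_lit 5, nat_lit 20], true, nat_lit 0, nat_lit 0, nat_lit 0, nat_lit 0, ⟨nat_lit 0, nat_lit 0, nat_lit 1000, nat_lit 5, nat_lit 52, nat_lit 0, nat_lit 0, nat_lit 0, nat_lit 0, nat_lit 215, nat_lit 25350, nat_lit 254, nat_lit 65902163, nat_lit 0, nat_lit 0, nat_lit 418009, false, false⟩,
 nat_lit 0, nat_lit 100000, nat_lit 0, nat_lit 0, nat_lit 50109, nat_lit 0, nat_lit 7653, nat_lit 0, nat_lit 0, nat_lit 0, nat_lit 0, nat_lit 0, nat_lit 0, nat_lit 0, nat_lit 115, nat_lit 1000000, nat_lit 22825638242, nat_lit 0, [(nat_lit 3, [(nat_lit 6, nat_lit 1000)])],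
 ⟨p007_k7, nat_lit 0, nat_lit 0, nat_lit 0, nat_lit 0, nat_lit 73001, [nat_lit 1742533334, nat_lit 2935066667, nat_lit 2237600001, nat_lit 23600000], [], [nat_lit 2974011460, nat_lit 3246968859, nat_lit 0, nat_lit 273195919], nat_lit 1271250, nat_lit 1271250, nat_lit 43600, nat_lit 65850, nat_lit 0, nat_lit 0, [nat_lit 631250, nat_lit 1271250, nat_lit 1271250, nat_lit 1271250], [nat_lit 91, nat_lit 40, nat_lit 20, nat_lit 40]⟩, C1.Rw.none,
 ⟨nat_lit 6519, nat_lit 6539, ⟨.ofNat (nat_lit 123854), .ofNat (nat_lit 132292), .ofNat (nat_lit 124924), .ofNat (nat_lit 133362), .ofNat (nat_lit 124784), .ofNat (nat_lit 133203), .ofNat (nat_lit 125854), .ofNat (nat_lit 134272)⟩, ⟨.ofNat (nat_lit 0), .ofNat (nat_lit 0), .ofNat (nat_lit 0), .ofNat (nat_lit 0), .ofNat (nat_lit 0), .ofNat (nat_lit 0), .ofNat (nat_lit 0), .ofNat (nat_lit 0)⟩⟩, [⟨nat_lit 0, nat_lit 100, nat_lit 100, nat_lit 29, nat_lit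 3824738749⟩]⟩
noncomputable def p007_l70 : Lf2 := ⟨nat_lit 0, nat_lit 5, [nat_lit 4, nat_lit 5, nat_lit 5, nat_lit 20], false, nat_lit 0, nat_lit 0, nat_lit 0, nat_lit 0, ⟨nat_lit 0, nat_lit 0, nat_lit 1000, nat_lit 5, nat_lit 52, nat_lit 0, nat_lit 0, nat_lit 0, nat_lit 0, nat_lit 215, nat_lit 25350, nat_lit 254, nat_lit 65902163, nat_lit 0, nat_lit 0, nat_lit 418009, false, false⟩,
 nat_lit 100000, nat_lit 100000, nat_lit 100000, nat_lit 100000, nat_lit 100000, nat_lit 99198, nat_lit 17559, nat_lit 0, nat_lit 0, nat_lit 17434, nat_lit 0, nat_lit 0, nat_lit 0, nat_lit 0, nat_lit 60, nat_lit 400000, nat_lit 63143437660, nat_lit 76952425033, [(nat_lit 3, [(nat_lit 5, nat_lit 1000)])],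
 ⟨p007_k7, nat_lit 0, nat_lit 0, nat_lit 0, nat_lit 0, nat_lit 73001, [nat_lit 1531600001, nat_lit 1719600000, nat_lit 1097600000, nat_lit 2000000], [], [nat_lit 6247992026, nat_lit 6787090887, nat_lit 0, nat_lit 514167687], nat_lit 1271250, nat_lit 1271250, nat_lit 43600, nat_lit 65850, nat_lit 0, nat_lit 0, [nat_lit 631250, nat_lit 1271250, nat_lit 1271250, nat_lit 1271250], [nat_lit 91, nat_lit 40, nat_lit 20, nat_lit 40]⟩, ⟨p007_k11, nat_lit 0, nat_lit 0, nat_lit 0, nat_lit 0, nat_lit 73811, [nat_lit 0, nat_lit 0, nat_lit 0, nat_lit 0], [], [nat_lit 6247765818, nat_lit 6749904110, nat_lit 0, nat_lit 478241501], nat_lit 1271250, nat_lit 1271250, nat_lit 43600, nat_lit 65850, nat_lit 0, nat_lit 0, [nat_lit 631250, nat_lit 1271250, nat_lit 1271250, nat_lit 1271250], [nat_lit 91, nat_lit 40, nat_lit 20, nat_lit 40]⟩,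
 ⟨nat_lit 6519, nat_lit 6539, ⟨.ofNat (nat_lit 123854), .ofNat (nat_lit 132292), .ofNat (nat_lit 124924), .ofNat (nat_lit 133362), .ofNat (nat_lit 124784), .ofNat (nat_lit 133203), .ofNat (nat_lit 125854), .ofNat (nat_lit 134272)⟩, ⟨.ofNat (nat_lit 0), .ofNat (nat_lit 0), .ofNat (nat_lit 0), .ofNat (nat_lit 0), .ofNat (nat_lit 0), .ofNat (nat_lit 0), .ofNat (nat_lit 0), .ofNat (nat_lit 0)⟩⟩, [⟨nat_lit 0, nat_lit 100, nat_lit 100, nat_lit 28, nat_lit 6145163368⟩, ⟨nat_lit 0, nat_lit 100, nat_lit 100, nat_lit 29, nat_lit 10000000000⟩, ⟨nat_lit 0, nat_lit 100, nat_lit 100, nat_lit 28, nat_lit 10000000000⟩]⟩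
noncomputable def p007_l71 : Lf2 := ⟨nat_lit 0, nat_lit 5, [nat_lit 4, nat_lit 5, nat_lit 5, nat_lit 20], false, nat_lit 0, nat_lit 0, nat_lit 0, nat_lit 0, ⟨nat_lit 0, nat_lit 0, nat_lit 1000, nat_lit 5, nat_lit 52, nat_lit 0, nat_lit 0, nat_lit 0, nat_lit 0, nat_lit 215, nat_lit 25350, nat_lit 254, nat_lit 65902163, nat_lit 0, nat_lit 0, nat_lit 418009, false, false⟩,
 nat_lit 100000, nat_lit 100000, nat_lit 100000, nat_lit 100000, nat_lit 100000, nat_lit 99198, nat_lit 0, nat_lit 5363, nat_lit 0, nat_lit 42893, nat_lit 4441, nat_lit 0, nat_lit 0, nat_lit 0, nat_lit 0, nat_lit 1000000, nat_lit 0, nat_lit 0, [(nat_lit 3, [(nat_lit 6, nat_lit 1000)])],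
 ⟨p007_k8, nat_lit 0, nat_lit 0, nat_lit 0, nat_lit 0, nat_lit 73001, [nat_lit 108301142858, nat_lit 127451600001, nat_lit 146967600000], [], [nat_lit 243840034020, nat_lit 244402847801, nat_lit 236608794339, nat_lit 237012031258], nat_lit 1271250, nat_lit 1271250, nat_lit 43600, nat_lit 65850, nat_lit 0, nat_lit 0, [nat_lit 1412500, nat_lit 1271250, nat_lit 1271250], [nat_lit 25, nat_lit 40, nat_lit 20, nat_lit 80]⟩, ⟨p007_k3, nat_lit 0, nat_lit 0, nat_lit 0, nat_lit 0, nat_lit 73811, [nat_lit 88820000000, nat_lit 106584000000, nat_lit 124348000000], [], [nat_lit 90605702401, nat_lit 91077714261, nat_lit 84789477180, nat_lit 85092900055], nat_lit 1271250, nat_lit 1271250, nat_lit 43600, nat_lit 65850, nat_lit 0, nat_lit 0, [nat_lit 1412500, nat_lit 1271250, nat_lit 1271250], [nat_lit 25, nat_lit 40, nat_lit 20, nat_lit 80]⟩,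
 ⟨nat_lit 6519, nat_lit 6539, ⟨.ofNat (nat_lit 123854), .ofNat (nat_lit 132292), .ofNat (nat_lit 124924), .ofNat (nat_lit 133362), .ofNat (nat_lit 124784), .ofNat (nat_lit 133203), .ofNat (nat_lit 125854), .ofNat (nat_lit 134272)⟩, ⟨.ofNat (nat_lit 0), .ofNat (nat_lit 0), .ofNat (nat_lit 0), .ofNat (nat_lit 0), .ofNat (nat_lit 0), .ofNat (nat_lit 0), .ofNat (nat_lit 0), .ofNat (nat_lit 0)⟩⟩, [⟨nat_lit 0, nat_lit 100, nat_lit 100, nat_lit 28, nat_lit 10000000000⟩, ⟨nat_lit 0, nat_lit 100, nat_lit 100, nat_lit 29, nat_lit 10000000000⟩, ⟨nat_lit 0, nat_lit 100, nat_lit 100, nat_lit 28, nat_lit 10000000000⟩]⟩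
noncomputable def p007_l72 : Lf2 := ⟨nat_lit 2, nat_lit 5, [nat_lit 4, nat_lit 5, nat_lit 5, nat_lit 20], true, nat_lit 0, nat_lit 0, nat_lit 0, nat_lit 0, zbN0,
 nat_lit 0, nat_lit 0, nat_lit 0, nat_lit 0, nat_lit 0, nat_lit 0, nat_lit 0, nat_lit 0, nat_lit 0, nat_lit 0, nat_lit 0, nat_lit 0, nat_lit 0, nat_lit 0, nat_lit 0, nat_lit 0, nat_lit 0, nat_lit 0, [],
 ⟨p007_k5, nat_lit 0, nat_lit 0, nat_lit 0, nat_lit 0, nat_lit 69100, [], [], [], nat_lit 1271250, nat_lit 1271250, nat_lit 43600, nat_lit 65850, nat_lit 0, nat_lit 0, [nat_lit 780000, nat_lit 1100000, nat_lit 1442500, nat_lit 1271250, nat_lit 1271250], [nat_lit 167, nat_lit 40, nat_lit 20, nat_lit 40]⟩, C1.Rw.none,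
 zbF0, []⟩
noncomputable def p007_l73 : Lf2 := ⟨nat_lit 0, nat_lit 5, [nat_lit 4, nat_lit 5, nat_lit 5, nat_lit 20], true, nat_lit 0, nat_lit 0, nat_lit 0, nat_lit 0, ⟨nat_lit 0, nat_lit 0, nat_lit 1000, nat_lit 5, nat_lit 51, nat_lit 0, nat_lit 0, nat_lit 0, nat_lit 0, nat_lit 215, nat_lit 24067, nat_lit 253, nat_lit 65917525, nat_lit 0, nat_lit 0, nat_lit 413304, false, false⟩,
 nat_lit 0, nat_lit 100000, nat_lit 0, nat_lit 0, nat_lit 49854, nat_lit 0, nat_lit 7930, nat_lit 132, nat_lit 0, nat_lit 0, nat_lit 0, nat_lit 0, nat_lit 0, nat_lit 0, nat_lit 0, nat_lit 400000, nat_lit 16507598207, nat_lit 0, [(nat_lit 3, [(nat_lit 5, nat_lit 1000)])],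
 ⟨p007_k1, nat_lit 0, nat_lit 0, nat_lit 0, nat_lit 0, nat_lit 69100, [nat_lit 2251600001, nat_lit 3015600001, nat_lit 2681600001, nat_lit 2018000000], [], [nat_lit 2961815168, nat_lit 3159328085, nat_lit 0, nat_lit 198058465], nat_lit 1271250, nat_lit 1271250, nat_lit 43600, nat_lit 65850, nat_lit 0, nat_lit 0, [nat_lit 631250, nat_lit 1271250, nat_lit 1271250, nat_lit 1271250], [nat_lit 91, nat_lit 40, nat_lit 20, nat_lit 40]⟩, C1.Rw.none,
 ⟨nat_lit 6538, nat_lit 6558, ⟨.ofNat (nat_lit 122922), .ofNat (nat_lit 131380), .ofNat (nat_lit 123992), .ofNat (nat_lit 132450), .ofNat (nat_lit 123854), .ofNat (nat_lit 132292), .ofNat (nat_lit 124924), .ofNat (nat_lit 133362)⟩, ⟨.ofNat (nat_lit 0), .ofNat (nat_lit 0), .ofNat (nat_lit 0), .ofNat (nat_lit 0), .ofNat (nat_lit 0), .ofNat (nat_lit 0), .ofNat (nat_lit 0), .ofNat (nat_lit 0)⟩⟩, [⟨nat_lit 0, nat_lit 100, nat_lit 100, nat_lit 28, nat_lit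 3805486566⟩]⟩
noncomputable def p007_l74 : Lf2 := ⟨nat_lit 0, nat_lit 5, [nat_lit 4, nat_lit 5, nat_lit 5, nat_lit 20], true, nat_lit 0, nat_lit 0, nat_lit 0, nat_lit 0, ⟨nat_lit 0, nat_lit 0, nat_lit 1000, nat_lit 5, nat_lit 51, nat_lit 0, nat_lit 0, nat_lit 0, nat_lit 0, nat_lit 215, nat_lit 24067, nat_lit 253, nat_lit 65917525, nat_lit 0, nat_lit 0, nat_lit 413304, false, false⟩,
 nat_lit 0, nat_lit 100000, nat_lit 0, nat_lit 0, nat_lit 49854, nat_lit 0, nat_lit 7930, nat_lit 132, nat_lit 0, nat_lit 0, nat_lit 0, nat_lit 0, nat_lit 0, nat_lit 0, nat_lit 0, nat_lit 400000, nat_lit 16507598207, nat_lit 0, [(nat_lit 3, [(nat_lit 5, nat_lit 1000)])],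
 ⟨p007_k1, nat_lit 0, nat_lit 0, nat_lit 0, nat_lit 0, nat_lit 69100, [nat_lit 2251600001, nat_lit 3015600001, nat_lit 2681600001, nat_lit 2018000000], [], [nat_lit 2961815168, nat_lit 3159328085, nat_lit 0, nat_lit 198058465], nat_lit 1271250, nat_lit 1271250, nat_lit 43600, nat_lit 65850, nat_lit 0, nat_lit 0, [nat_lit 631250, nat_lit 1271250, nat_lit 1271250, nat_lit 1271250], [nat_lit 91, nat_lit 40, nat_lit 20, nat_lit 40]⟩, C1.Rw.none,
 ⟨nat_lit 6538, nat_lit 6558, ⟨.ofNat (nat_lit 122922), .ofNat (nat_lit 131380), .ofNat (nat_lit 123992), .ofNat (nat_lit 132450), .ofNat (nat_lit 123854), .ofNat (nat_lit 132292), .ofNat (nat_lit 124924), .ofNat (nat_lit 133362)⟩, ⟨.ofNat (nat_lit 0), .ofNat (nat_lit 0), .ofNat (nat_lit 0), .ofNat (nat_lit 0), .ofNat (nat_lit 0), .ofNat (nat_lit 0), .ofNat (nat_lit 0), .ofNat (nat_lit 0)⟩⟩, [⟨nat_lit 0, nat_lit 100, nat_lit 100, nat_lit 28, nat_lit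 3805486566⟩]⟩
noncomputable def p007_l75 : Lf2 := ⟨nat_lit 0, nat_lit 5, [nat_lit 4, nat_lit 5, nat_lit 5, nat_lit 20], false, nat_lit 0, nat_lit 0, nat_lit 0, nat_lit 0, ⟨nat_lit 0, nat_lit 0, nat_lit 1000, nat_lit 5, nat_lit 51, nat_lit 0, nat_lit 0, nat_lit 0, nat_lit 0, nat_lit 215, nat_lit 24067, nat_lit 253, nat_lit 65917525, nat_lit 0, nat_lit 0, nat_lit 413304, false, false⟩,
 nat_lit 100000, nat_lit 100000, nat_lit 100000, nat_lit 100000, nat_lit 99708, nat_lit 99198, nat_lit 34463, nat_lit 4285, nat_lit 0, nat_lit 60000, nat_lit 4441, nat_lit 0, nat_lit 0, nat_lit 0, nat_lit 0, nat_lit 376835, nat_lit 0, nat_lit 0, [(nat_lit 3, [(nat_lit 3, nat_lit 113), (nat_lit 5, nat_lit 887)])],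
 ⟨p007_k2, nat_lit 0, nat_lit 0, nat_lit 0, nat_lit 0, nat_lit 69100, [nat_lit 90986924801, nat_lit 102122604400, nat_lit 118360669600], [], [nat_lit 120301828849, nat_lit 120886522778, nat_lit 112937062276, nat_lit 113494374563], nat_lit 1271250, nat_lit 1271250, nat_lit 43600, nat_lit 65850, nat_lit 0, nat_lit 0, [nat_lit 1412500, nat_lit 1271250, nat_lit 1271250], [nat_lit 25, nat_lit 40, nat_lit 20, nat_lit 80]⟩, ⟨p007_k3, nat_lit 0, nat_lit 0, nat_lit 0, nat_lit 0, nat_lit 69483, [nat_lit 88820000000, nat_lit 106584000000, nat_lit 124348000000], [], [nat_lit 72162218026, nat_lit 72634229886, nat_lit 66345992805, nat_lit 66649415680], nat_lit 1271250, nat_lit 1271250, nat_lit 43600, nat_lit 65850, nat_lit 0, nat_lit 0, [nat_lit 1412500, nat_lit 1271250, nat_lit 1271250], [nat_lit 25, nat_lit 40, nat_lit 20, nat_lit 80]⟩,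
 ⟨nat_lit 6538, nat_lit 6558, ⟨.ofNat (nat_lit 122922), .ofNat (nat_lit 131380), .ofNat (nat_lit 123992), .ofNat (nat_lit 132450), .ofNat (nat_lit 123854), .ofNat (nat_lit 132292), .ofNat (nat_lit 124924), .ofNat (nat_lit 133362)⟩, ⟨.ofNat (nat_lit 0), .ofNat (nat_lit 0), .ofNat (nat_lit 0), .ofNat (nat_lit 0), .ofNat (nat_lit 0), .ofNat (nat_lit 0), .ofNat (nat_lit 0), .ofNat (nat_lit 0)⟩⟩, [⟨nat_lit 0, nat_lit 100, nat_lit 100, nat_lit 28, nat_lit 10000000000⟩, ⟨nat_lit 0, nat_lit 100, nat_lit 100, nat_lit 28, nat_lit 10000000000⟩, ⟨nat_lit 0, nat_lit 100, nat_lit 100, nat_lit 27, nat_lit 10000000000⟩, ⟨nat_lit 13, nat_lit 100, nat_lit 1, nat_lit 100, nat_lit 153009321⟩]⟩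
noncomputable def p007_l76 : Lf2 := ⟨nat_lit 2, nat_lit 5, [nat_lit 4, nat_lit 5, nat_lit 5, nat_lit 20], true, nat_lit 0, nat_lit 0, nat_lit 0, nat_lit 0, zbN0,
 nat_lit 0, nat_lit 0, nat_lit 0, nat_lit 0, nat_lit 0, nat_lit 0, nat_lit 0, nat_lit 0, nat_lit 0, nat_lit 0, nat_lit 0, nat_lit 0, nat_lit 0, nat_lit 0, nat_lit 0, nat_lit 0, nat_lit 0, nat_lit 0, [],
 ⟨p007_k14, nat_lit 0, nat_lit 0, nat_lit 0, nat_lit 0, nat_lit 73001, [], [], [], nat_lit 1271250, nat_lit 1271250, nat_lit 43600, nat_lit 65850, nat_lit 0, nat_lit 0, [nat_lit 780000, nat_lit 1100000, nat_lit 1442500, nat_lit 1271250, nat_lit 1271250], [nat_lit 167, nat_lit 40, nat_lit 20, nat_lit 40]⟩, C1.Rw.none,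
 zbF0, []⟩
noncomputable def p007_l77 : Lf2 := ⟨nat_lit 0, nat_lit 5, [nat_lit 4, nat_lit 5, nat_lit 5, nat_lit 20], true, nat_lit 0, nat_lit 0, nat_lit 0, nat_lit 0, ⟨nat_lit 0, nat_lit 0, nat_lit 1000, nat_lit 5, nat_lit 52, nat_lit 0, nat_lit 0, nat_lit 0, nat_lit 0, nat_lit 215, nat_lit 25350, nat_lit 254, nat_lit 65902163, nat_lit 0, nat_lit 0, nat_lit 418009, false, false⟩,
 nat_lit 0, nat_lit 100000, nat_lit 0, nat_lit 0, nat_lit 50109, nat_lit 0, nat_lit 8003, nat_lit 166, nat_lit 0, nat_lit 0, nat_lit 0, nat_lit 0, nat_lit 0, nat_lit 0, nat_lit 0, nat_lit 400000, nat_lit 15561779726, nat_lit 0, [(nat_lit 3, [(nat_lit 5, nat_lit 1000)])],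
 ⟨p007_k7, nat_lit 0, nat_lit 0, nat_lit 0, nat_lit 0, nat_lit 73001, [nat_lit 2591600001, nat_lit 3627600001, nat_lit 3429600001, nat_lit 2970000000], [], [nat_lit 2976809949, nat_lit 3179703181, nat_lit 0, nat_lit 203962403], nat_lit 1271250, nat_lit 1271250, nat_lit 43600, nat_lit 65850, nat_lit 0, nat_lit 0, [nat_lit 631250, nat_lit 1271250, nat_lit 1271250, nat_lit 1271250], [nat_lit 91, nat_lit 40, nat_lit 20, nat_lit 40]⟩, C1.Rw.none,
 ⟨nat_lit 6519, nat_lit 6539, ⟨.ofNat (nat_lit 123854), .ofNat (nat_lit 132292), .ofNat (nat_lit 124924), .ofNat (nat_lit 133362), .ofNat (nat_lit 124784), .ofNat (nat_lit 133203), .ofNat (nat_lit 125854), .ofNat (nat_lit 134272)⟩, ⟨.ofNat (nat_lit 0), .ofNat (nat_lit 0), .ofNat (nat_lit 0), .ofNat (nat_lit 0), .ofNat (nat_lit 0), .ofNat (nat_lit 0), .ofNat (nat_lit 0), .ofNat (nat_lit 0)⟩⟩, [⟨nat_lit 0, nat_lit 100, nat_lit 100, nat_lit 29, nat_lit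 3824738749⟩]⟩
noncomputable def p007_l78 : Lf2 := ⟨nat_lit 0, nat_lit 5, [nat_lit 4, nat_lit 5, nat_lit 5, nat_lit 20], true, nat_lit 0, nat_lit 0, nat_lit 0, nat_lit 0, ⟨nat_lit 0, nat_lit 0, nat_lit 1000, nat_lit 5, nat_lit 52, nat_lit 0, nat_lit 0, nat_lit 0, nat_lit 0, nat_lit 215, nat_lit 25350, nat_lit 254, nat_lit 65902163, nat_lit 0, nat_lit 0, nat_lit 418009, false, false⟩,
 nat_lit 0, nat_lit 100000, nat_lit 0, nat_lit 0, nat_lit 50109, nat_lit 0, nat_lit 8003, nat_lit 166, nat_lit 0, nat_lit 0, nat_lit 0, nat_lit 0, nat_lit 0, nat_lit 0, nat_lit 0, nat_lit 400000, nat_lit 15561779726, nat_lit 0, [(nat_lit 3, [(nat_lit 5, nat_lit 1000)])],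
 ⟨p007_k7, nat_lit 0, nat_lit 0, nat_lit 0, nat_lit 0, nat_lit 73001, [nat_lit 2591600001, nat_lit 3627600001, nat_lit 3429600001, nat_lit 2970000000], [], [nat_lit 2976809949, nat_lit 3179703181, nat_lit 0, nat_lit 203962403], nat_lit 1271250, nat_lit 1271250, nat_lit 43600, nat_lit 65850, nat_lit 0, nat_lit 0, [nat_lit 631250, nat_lit 1271250, nat_lit 1271250, nat_lit 1271250], [nat_lit 91, nat_lit 40, nat_lit 20, nat_lit 40]⟩, C1.Rw.none,
 ⟨nat_lit 6519, nat_lit 6539, ⟨.ofNat (nat_lit 123854), .ofNat (nat_lit 132292), .ofNat (nat_lit 124924), .ofNat (nat_lit 133362), .ofNat (nat_lit 124784), .ofNat (nat_lit 133203), .ofNat (nat_lit 125854), .ofNat (nat_lit 134272)⟩, ⟨.ofNat (nat_lit 0), .ofNat (nat_lit 0), .ofNat (nat_lit 0), .ofNat (nat_lit 0), .ofNat (nat_lit 0), .ofNat (nat_lit 0), .ofNat (nat_lit 0), .ofNat (nat_lit 0)⟩⟩, [⟨nat_lit 0, nat_lit 100, nat_lit 100, nat_lit 29, nat_lit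 3824738749⟩]⟩
noncomputable def p007_l79 : Lf2 := ⟨nat_lit 0, nat_lit 5, [nat_lit 4, nat_lit 5, nat_lit 5, nat_lit 20], false, nat_lit 0, nat_lit 0, nat_lit 0, nat_lit 0, ⟨nat_lit 0, nat_lit 0, nat_lit 1000, nat_lit 5, nat_lit 52, nat_lit 0, nat_lit 0, nat_lit 0, nat_lit 0, nat_lit 215, nat_lit 25350, nat_lit 254, nat_lit 65902163, nat_lit 0, nat_lit 0, nat_lit 418009, false, false⟩,
 nat_lit 100000, nat_lit 100000, nat_lit 100000, nat_lit 100000, nat_lit 100000, nat_lit 99198, nat_lit 34670, nat_lit 4494, nat_lit 0, nat_lit 60000, nat_lit 4441, nat_lit 0, nat_lit 0, nat_lit 0, nat_lit 0, nat_lit 400000, nat_lit 0, nat_lit 0, [(nat_lit 3, [(nat_lit 5, nat_lit 1000)])],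
 ⟨p007_k8, nat_lit 0, nat_lit 0, nat_lit 0, nat_lit 0, nat_lit 73001, [nat_lit 91450400000, nat_lit 107118400000, nat_lit 124154000000], [], [nat_lit 124600496520, nat_lit 125186193700, nat_lit 117212165461, nat_lit 117766446700], nat_lit 1271250, nat_lit 1271250, nat_lit 43600, nat_lit 65850, nat_lit 0, nat_lit 0, [nat_lit 1412500, nat_lit 1271250, nat_lit 1271250], [nat_lit 25, nat_lit 40, nat_lit 20, nat_lit 80]⟩, ⟨p007_k3, nat_lit 0, nat_lit 0, nat_lit 0, nat_lit 0, nat_lit 73811, [nat_lit 88820000000, nat_lit 106584000000, nat_lit 124348000000], [], [nat_lit 72162218026, nat_lit 72634229886, nat_lit 66345992805, nat_lit 66649415680], nat_lit 1271250, nat_lit 1271250, nat_lit 43600, nat_lit 65850, nat_lit 0, nat_lit 0, [nat_lit 1412500, nat_lit 1271250, nat_lit 1271250], [nat_lit 25, nat_lit 40, nat_lit 20, nat_lit 80]⟩,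
 ⟨nat_lit 6519, nat_lit 6539, ⟨.ofNat (nat_lit 123854), .ofNat (nat_lit 132292), .ofNat (nat_lit 124924), .ofNat (nat_lit 133362), .ofNat (nat_lit 124784), .ofNat (nat_lit 133203), .ofNat (nat_lit 125854), .ofNat (nat_lit 134272)⟩, ⟨.ofNat (nat_lit 0), .ofNat (nat_lit 0), .ofNat (nat_lit 0), .ofNat (nat_lit 0), .ofNat (nat_lit 0), .ofNat (nat_lit 0), .ofNat (nat_lit 0), .ofNat (nat_lit 0)⟩⟩, [⟨nat_lit 0, nat_lit 100, nat_lit 100, nat_lit 28, nat_lit 10000000000⟩, ⟨nat_lit 0, nat_lit 100, nat_lit 100, nat_lit 29, nat_lit 10000000000⟩, ⟨nat_lit 0, nat_lit 100, nat_lit 100, nat_lit 28, nat_lit 10000000000⟩, ⟨nat_lit 13, nat_lit 100, nat_lit 1, nat_lit 100, nat_lit 189692511⟩]⟩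
noncomputable def p007_l80 : Lf2 := ⟨nat_lit 0, nat_lit 5, [nat_lit 4, nat_lit 5, nat_lit 5, nat_lit 20], false, nat_lit 0, nat_lit 0, nat_lit 0, nat_lit 0, ⟨nat_lit 0, nat_lit 0, nat_lit 1000, nat_lit 5, nat_lit 51, nat_lit 0, nat_lit 0, nat_lit 0, nat_lit 0, nat_lit 215, nat_lit 24067, nat_lit 253, nat_lit 65927642, nat_lit 0, nat_lit 0, nat_lit 410196, false, false⟩,
 nat_lit 100000, nat_lit 100000, nat_lit 0, nat_lit 0, nat_lit 99708, nat_lit 0, nat_lit 25843, nat_lit 4955, nat_lit 0, nat_lit 0, nat_lit 0, nat_lit 0, nat_lit 0, nat_lit 0, nat_lit 0, nat_lit 1000000, nat_lit 0, nat_lit 0, [(nat_lit 3, [(nat_lit 6, nat_lit 1000)])],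
 ⟨p007_k2, nat_lit 0, nat_lit 0, nat_lit 0, nat_lit 0, nat_lit 73404, [nat_lit 100141142858, nat_lit 117659600001, nat_lit 135543600000], [], [nat_lit 161588385121, nat_lit 162150675182, nat_lit 156553602793, nat_lit 157092538755], nat_lit 1271250, nat_lit 1271250, nat_lit 43600, nat_lit 65850, nat_lit 0, nat_lit 0, [nat_lit 1412500, nat_lit 1271250, nat_lit 1271250], [nat_lit 25, nat_lit 40, nat_lit 20, nat_lit 80]⟩, ⟨p007_k13, nat_lit 0, nat_lit 0, nat_lit 0, nat_lit 0, nat_lit 74636, [nat_lit 0, nat_lit 0, nat_lit 0], [], [nat_lit 0, nat_lit 0, nat_lit 0, nat_lit 0], nat_lit 1271250, nat_lit 1271250, nat_lit 43600, nat_lit 65850, nat_lit 0, nat_lit 0, [nat_lit 1412500, nat_lit 1271250, nat_lit 1271250], [nat_lit 25, nat_lit 40, nat_lit 20, nat_lit 80]⟩,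
 ⟨nat_lit 6519, nat_lit 6558, ⟨.ofNat (nat_lit 120782), .ofNat (nat_lit 129239), .ofNat (nat_lit 123992), .ofNat (nat_lit 132450), .ofNat (nat_lit 122644), .ofNat (nat_lit 131063), .ofNat (nat_lit 125854), .ofNat (nat_lit 134272)⟩, ⟨.ofNat (nat_lit 0), .ofNat (nat_lit 0), .ofNat (nat_lit 0), .ofNat (nat_lit 0), .ofNat (nat_lit 0), .ofNat (nat_lit 0), .ofNat (nat_lit 0), .ofNat (nat_lit 0)⟩⟩, [⟨nat_lit 0, nat_lit 100, nat_lit 100, nat_lit 29, nat_lit 6407658725⟩]⟩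
noncomputable def b_NL_550_550_0_34 : St := ⟨false, nat_lit 1, nat_lit 1, nat_lit 1, nat_lit 20, nat_lit 228, nat_lit 230, nat_lit 225, nat_lit 228, nat_lit 8, nat_lit 12, nat_lit 0, nat_lit 0, nat_lit 0, nat_lit 0, nat_lit 0, nat_lit 0, nat_lit 20, nat_lit 24, nat_lit 300, nat_lit 600, nat_lit 0, nat_lit 800⟩
theorem d_NL_550_550_0_34 (h : EB TB.env) : Dead b_NL_550_550_0_34 := chkB_sound0 h (T :=
(.spl (nat_lit 7) (nat_lit 460)
(.spl (nat_lit 7) (nat_lit 380)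
(.leaf p007_l53)
(.spl (nat_lit 1) (nat_lit 227)
(.spl (nat_lit 1) (nat_lit 226)
(.leaf p007_l54)
(.spl (nat_lit 7) (nat_lit 420)
(.leaf p007_l55)
(.spl (nat_lit 0) (nat_lit 229)
(.spl (nat_lit 7) (nat_lit 440)
(.leaf p007_l56)
(.spl (nat_lit 8) (nat_lit 400)
(.leaf p007_l57)
(.spl (nat_lit 8) (nat_lit 600)
(.leaf p007_l58)
(.leaf p007_l59))))
(.spl (nat_lit 7) (nat_lit 440)
(.leaf p007_l60)
(.spl (nat_lit 8) (nat_lit 400)
(.leaf p007_l61)
(.spl (nat_lit 8) (nat_lit 600)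
(.leaf p007_l62)
(.leaf p007_l63)))))))
(.spl (nat_lit 7) (nat_lit 420)
(.spl (nat_lit 0) (nat_lit 229)
(.spl (nat_lit 7) (nat_lit 400)
(.leaf p007_l64)
(.spl (nat_lit 8) (nat_lit 400)
(.leaf p007_l65)
(.spl (nat_lit 8) (nat_lit 600)
(.leaf p007_l66)
(.leaf p007_l67))))
(.spl (nat_lit 7) (nat_lit 400)
(.leaf p007_l68)
(.spl (nat_lit 8) (nat_lit 400)
(.leaf p007_l69)
(.spl (nat_lit 8) (nat_lit 600)
(.leaf p007_l70)
(.leaf p007_l71)))))
(.spl (nat_lit 0) (nat_lit 229)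
(.spl (nat_lit 7) (nat_lit 440)
(.leaf p007_l72)
(.spl (nat_lit 8) (nat_lit 400)
(.leaf p007_l73)
(.spl (nat_lit 8) (nat_lit 600)
(.leaf p007_l74)
(.leaf p007_l75))))
(.spl (nat_lit 7) (nat_lit 440)
(.leaf p007_l76)
(.spl (nat_lit 8) (nat_lit 400)
(.leaf p007_l77)
(.spl (nat_lit 8) (nat_lit 600)
(.leaf p007_l78)
(.leaf p007_l79))))))))
(.leaf p007_l80))) (by decide +kernel)
noncomputable def p007_l81 : Lf2 := ⟨nat_lit 0, nat_lit 5, [nat_lit 4, nat_lit 5, nat_lit 5, nat_lit 20], true, nat_lit 0, nat_lit 0, nat_lit 0, nat_lit 0, ⟨nat_lit 0, nat_lit 0, nat_lit 1000, nat_lit 5, nat_lit 52, nat_lit 0, nat_lit 0, nat_lit 0, nat_lit 0, nat_lit 215, nat_lit 25350, nat_lit 254, nat_lit 65899669, nat_lit 0, nat_lit 0, nat_lit 418772, false, false⟩,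
 nat_lit 0, nat_lit 5290, nat_lit 0, nat_lit 0, nat_lit 2637, nat_lit 0, nat_lit 0, nat_lit 0, nat_lit 101, nat_lit 0, nat_lit 0, nat_lit 0, nat_lit 0, nat_lit 7417778266624, nat_lit 100, nat_lit 840400, nat_lit 0, nat_lit 0, [(nat_lit 3, [(nat_lit 5, nat_lit 266), (nat_lit 6, nat_lit 734)])],
 ⟨p007_k0, nat_lit 0, nat_lit 0, nat_lit 0, nat_lit 0, nat_lit 73379, [nat_lit 2863732732, nat_lit 1926220001, nat_lit 7494400], [], [nat_lit 10200508990, nat_lit 10248728158, nat_lit 10085517905, nat_lit 10134601637], nat_lit 1271250, nat_lit 1271250, nat_lit 43600, nat_lit 65850, nat_lit 0, nat_lit 0, [nat_lit 1271250, nat_lit 1271250, nat_lit 1271250], [nat_lit 103, nat_lit 40, nat_lit 20, nat_lit 40]⟩, C1.Rw.none,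
 ⟨nat_lit 6538, nat_lit 6558, ⟨.ofNat (nat_lit 123992), .ofNat (nat_lit 132450), .ofNat (nat_lit 125063), .ofNat (nat_lit 133520), .ofNat (nat_lit 124924), .ofNat (nat_lit 133362), .ofNat (nat_lit 125994), .ofNat (nat_lit 134432)⟩, ⟨.ofNat (nat_lit 0), .ofNat (nat_lit 0), .ofNat (nat_lit 0), .ofNat (nat_lit 0), .ofNat (nat_lit 0), .ofNat (nat_lit 0), .ofNat (nat_lit 0), .ofNat (nat_lit 0)⟩⟩, [⟨nat_lit 0, nat_lit 100, nat_lit 100, nat_lit 29, nat_lit 246210081⟩]⟩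
noncomputable def p007_l82 : Lf2 := ⟨nat_lit 0, nat_lit 5, [nat_lit 4, nat_lit 5, nat_lit 5, nat_lit 20], true, nat_lit 0, nat_lit 0, nat_lit 0, nat_lit 0, ⟨nat_lit 0, nat_lit 0, nat_lit 1000, nat_lit 5, nat_lit 52, nat_lit 0, nat_lit 0, nat_lit 0, nat_lit 0, nat_lit 215, nat_lit 25350, nat_lit 254, nat_lit 65899669, nat_lit 0, nat_lit 0, nat_lit 418772, false, false⟩,
 nat_lit 0, nat_lit 5023, nat_lit 0, nat_lit 0, nat_lit 2504, nat_lit 0, nat_lit 0, nat_lit 0, nat_lit 142, nat_lit 0, nat_lit 0, nat_lit 0, nat_lit 0, nat_lit 17905383062041, nat_lit 110, nat_lit 944800, nat_lit 0, nat_lit 0, [(nat_lit 3, [(nat_lit 5, nat_lit 92), (nat_lit 6, nat_lit 908)])],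
 ⟨p007_k0, nat_lit 0, nat_lit 0, nat_lit 0, nat_lit 0, nat_lit 73379, [nat_lit 2960851063, nat_lit 2134040001, nat_lit 23292800], [], [nat_lit 8685879377, nat_lit 8726612149, nat_lit 8608859249, nat_lit 8648821236], nat_lit 1271250, nat_lit 1271250, nat_lit 43600, nat_lit 65850, nat_lit 0, nat_lit 0, [nat_lit 1271250, nat_lit 1271250, nat_lit 1271250], [nat_lit 103, nat_lit 40, nat_lit 20, nat_lit 40]⟩, C1.Rw.none,
 ⟨nat_lit 6538, nat_lit 6558, ⟨.ofNat (nat_lit 123992), .ofNat (nat_lit 132450), .ofNat (nat_lit 125063), .ofNat (nat_lit 133520), .ofNat (nat_lit 124924), .ofNat (nat_lit 133362), .ofNat (nat_lit 125994), .ofNat (nat_lit 134432)⟩, ⟨.ofNat (nat_lit 0), .ofNat (nat_lit 0), .ofNat (nat_lit 0), .ofNat (nat_lit 0), .ofNat (nat_lit 0), .ofNat (nat_lit 0), .ofNat (nat_lit 0), .ofNat (nat_lit 0)⟩⟩, [⟨nat_lit 0, nat_lit 100, nat_lit 100, nat_lit 29, nat_lit 204362624⟩]⟩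
noncomputable def p007_l83 : Lf2 := ⟨nat_lit 0, nat_lit 5, [nat_lit 4, nat_lit 5, nat_lit 5, nat_lit 20], true, nat_lit 0, nat_lit 0, nat_lit 0, nat_lit 0, ⟨nat_lit 0, nat_lit 0, nat_lit 1000, nat_lit 5, nat_lit 52, nat_lit 0, nat_lit 0, nat_lit 0, nat_lit 0, nat_lit 215, nat_lit 25350, nat_lit 254, nat_lit 65899669, nat_lit 0, nat_lit 0, nat_lit 418772, false, false⟩,
 nat_lit 0, nat_lit 100000, nat_lit 0, nat_lit 0, nat_lit 49854, nat_lit 0, nat_lit 7485, nat_lit 0, nat_lit 0, nat_lit 0, nat_lit 0, nat_lit 0, nat_lit 0, nat_lit 0, nat_lit 115, nat_lit 1000000, nat_lit 22245820514, nat_lit 0, [(nat_lit 3, [(nat_lit 6, nat_lit 1000)])],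
 ⟨p007_k1, nat_lit 0, nat_lit 0, nat_lit 0, nat_lit 0, nat_lit 73379, [nat_lit 1742533334, nat_lit 2935066667, nat_lit 2237600001, nat_lit 23600000], [], [nat_lit 2958870113, nat_lit 3230601268, nat_lit 0, nat_lit 271968272], nat_lit 1271250, nat_lit 1271250, nat_lit 43600, nat_lit 65850, nat_lit 0, nat_lit 0, [nat_lit 631250, nat_lit 1271250, nat_lit 1271250, nat_lit 1271250], [nat_lit 91, nat_lit 40, nat_lit 20, nat_lit 40]⟩, C1.Rw.none,
 ⟨nat_lit 6538, nat_lit 6558, ⟨.ofNat (nat_lit 123992), .ofNat (nat_lit 132450), .ofNat (nat_lit 125063), .ofNat (nat_lit 133520), .ofNat (nat_lit 124924), .ofNat (nat_lit 133362), .ofNat (nat_lit 125994), .ofNat (nat_lit 134432)⟩, ⟨.ofNat (nat_lit 0), .ofNat (nat_lit 0), .ofNat (nat_lit 0), .ofNat (nat_lit 0), .ofNat (nat_lit 0), .ofNat (nat_lit 0), .ofNat (nat_lit 0), .ofNat (nat_lit 0)⟩⟩, [⟨nat_lit 0, nat_lit 100, nat_lit 100, nat_lit 29, nat_lit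 3806319818⟩]⟩
noncomputable def p007_l84 : Lf2 := ⟨nat_lit 0, nat_lit 5, [nat_lit 4, nat_lit 5, nat_lit 5, nat_lit 20], true, nat_lit 0, nat_lit 0, nat_lit 0, nat_lit 0, ⟨nat_lit 0, nat_lit 0, nat_lit 1000, nat_lit 5, nat_lit 52, nat_lit 0, nat_lit 0, nat_lit 0, nat_lit 0, nat_lit 215, nat_lit 25350, nat_lit 254, nat_lit 65899669, nat_lit 0, nat_lit 0, nat_lit 418772, false, false⟩,
 nat_lit 0, nat_lit 100000, nat_lit 0, nat_lit 0, nat_lit 49854, nat_lit 0, nat_lit 7485, nat_lit 0, nat_lit 0, nat_lit 0, nat_lit 0, nat_lit 0, nat_lit 0, nat_lit 0, nat_lit 115, nat_lit 1000000, nat_lit 22245820514, nat_lit 0, [(nat_lit 3, [(nat_lit 6, nat_lit 1000)])],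
 ⟨p007_k1, nat_lit 0, nat_lit 0, nat_lit 0, nat_lit 0, nat_lit 73379, [nat_lit 1742533334, nat_lit 2935066667, nat_lit 2237600001, nat_lit 23600000], [], [nat_lit 2958870113, nat_lit 3230601268, nat_lit 0, nat_lit 271968272], nat_lit 1271250, nat_lit 1271250, nat_lit 43600, nat_lit 65850, nat_lit 0, nat_lit 0, [nat_lit 631250, nat_lit 1271250, nat_lit 1271250, nat_lit 1271250], [nat_lit 91, nat_lit 40, nat_lit 20, nat_lit 40]⟩, C1.Rw.none,
 ⟨nat_lit 6538, nat_lit 6558, ⟨.ofNat (nat_lit 123992), .ofNat (nat_lit 132450), .ofNat (nat_lit 125063), .ofNat (nat_lit 133520), .ofNat (nat_lit 124924), .ofNat (nat_lit 133362), .ofNat (nat_lit 125994), .ofNat (nat_lit 134432)⟩, ⟨.ofNat (nat_lit 0), .ofNat (nat_lit 0), .ofNat (nat_lit 0), .ofNat (nat_lit 0), .ofNat (nat_lit 0), .ofNat (nat_lit 0), .ofNat (nat_lit 0), .ofNat (nat_lit 0)⟩⟩, [⟨nat_lit 0, nat_lit 100, nat_lit 100, nat_lit 29, nat_lit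 3806319818⟩]⟩
noncomputable def p007_l85 : Lf2 := ⟨nat_lit 0, nat_lit 5, [nat_lit 4, nat_lit 5, nat_lit 5, nat_lit 20], false, nat_lit 0, nat_lit 0, nat_lit 0, nat_lit 0, ⟨nat_lit 0, nat_lit 0, nat_lit 1000, nat_lit 5, nat_lit 52, nat_lit 0, nat_lit 0, nat_lit 0, nat_lit 0, nat_lit 215, nat_lit 25350, nat_lit 254, nat_lit 65899669, nat_lit 0, nat_lit 0, nat_lit 418772, false, false⟩,
 nat_lit 100000, nat_lit 100000, nat_lit 100000, nat_lit 100000, nat_lit 99708, nat_lit 99708, nat_lit 35659, nat_lit 4786, nat_lit 0, nat_lit 60000, nat_lit 4472, nat_lit 0, nat_lit 0, nat_lit 400000000000000, nat_lit 0, nat_lit 1000000, nat_lit 0, nat_lit 0, [(nat_lit 3, [(nat_lit 6, nat_lit 1000)])],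
 ⟨p007_k2, nat_lit 0, nat_lit 0, nat_lit 0, nat_lit 0, nat_lit 73379, [nat_lit 96761142858, nat_lit 113603600001, nat_lit 130811600000], [], [nat_lit 130434644051, nat_lit 131037495516, nat_lit 124439580118, nat_lit 125042810677], nat_lit 1271250, nat_lit 1271250, nat_lit 43600, nat_lit 65850, nat_lit 0, nat_lit 0, [nat_lit 1412500, nat_lit 1271250, nat_lit 1271250], [nat_lit 25, nat_lit 40, nat_lit 20, nat_lit 80]⟩, ⟨p007_k2, nat_lit 0, nat_lit 0, nat_lit 0, nat_lit 0, nat_lit 73379, [nat_lit 89440000000, nat_lit 107328000000, nat_lit 125216000000], [], [nat_lit 71262115420, nat_lit 71736554002, nat_lit 65409887604, nat_lit 65714870446], nat_lit 1271250, nat_lit 1271250, nat_lit 43600, nat_lit 65850, nat_lit 0, nat_lit 0, [nat_lit 1412500, nat_lit 1271250, nat_lit 1271250], [nat_lit 25, nat_lit 40, nat_lit 20, nat_lit 80]⟩,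
 ⟨nat_lit 6538, nat_lit 6558, ⟨.ofNat (nat_lit 123992), .ofNat (nat_lit 132450), .ofNat (nat_lit 125063), .ofNat (nat_lit 133520), .ofNat (nat_lit 124924), .ofNat (nat_lit 133362), .ofNat (nat_lit 125994), .ofNat (nat_lit 134432)⟩, ⟨.ofNat (nat_lit 0), .ofNat (nat_lit 0), .ofNat (nat_lit 0), .ofNat (nat_lit 0), .ofNat (nat_lit 0), .ofNat (nat_lit 0), .ofNat (nat_lit 0), .ofNat (nat_lit 0)⟩⟩, [⟨nat_lit 0, nat_lit 100, nat_lit 100, nat_lit 29, nat_lit 10000000000⟩, ⟨nat_lit 0, nat_lit 100, nat_lit 100, nat_lit 29, nat_lit 10000000000⟩, ⟨nat_lit 0, nat_lit 100, nat_lit 100, nat_lit 28, nat_lit 10000000000⟩]⟩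
noncomputable def p007_l86 : Lf2 := ⟨nat_lit 2, nat_lit 5, [nat_lit 4, nat_lit 5, nat_lit 5, nat_lit 20], true, nat_lit 0, nat_lit 0, nat_lit 0, nat_lit 0, zbN0,
 nat_lit 0, nat_lit 0, nat_lit 0, nat_lit 0, nat_lit 0, nat_lit 0, nat_lit 0, nat_lit 0, nat_lit 0, nat_lit 0, nat_lit 0, nat_lit 0, nat_lit 0, nat_lit 0, nat_lit 0, nat_lit 0, nat_lit 0, nat_lit 0, [],
 ⟨p007_k5, nat_lit 0, nat_lit 0, nat_lit 0, nat_lit 0, nat_lit 73379, [], [], [], nat_lit 1271250, nat_lit 1271250, nat_lit 43600, nat_lit 65850, nat_lit 0, nat_lit 0, [nat_lit 780000, nat_lit 1100000, nat_lit 1442500, nat_lit 1271250, nat_lit 1271250], [nat_lit 167, nat_lit 40, nat_lit 20, nat_lit 40]⟩, C1.Rw.none,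
 zbF0, []⟩
noncomputable def p007_l87 : Lf2 := ⟨nat_lit 0, nat_lit 5, [nat_lit 4, nat_lit 5, nat_lit 5, nat_lit 20], true, nat_lit 0, nat_lit 0, nat_lit 0, nat_lit 0, ⟨nat_lit 0, nat_lit 0, nat_lit 1000, nat_lit 5, nat_lit 52, nat_lit 0, nat_lit 0, nat_lit 0, nat_lit 0, nat_lit 215, nat_lit 25350, nat_lit 254, nat_lit 65899669, nat_lit 0, nat_lit 0, nat_lit 418772, false, false⟩,
 nat_lit 0, nat_lit 100000, nat_lit 0, nat_lit 0, nat_lit 49854, nat_lit 0, nat_lit 7930, nat_lit 132, nat_lit 0, nat_lit 0, nat_lit 0, nat_lit 0, nat_lit 0, nat_lit 0, nat_lit 0, nat_lit 400000, nat_lit 16507598207, nat_lit 0, [(nat_lit 3, [(nat_lit 5, nat_lit 1000)])],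
 ⟨p007_k1, nat_lit 0, nat_lit 0, nat_lit 0, nat_lit 0, nat_lit 73379, [nat_lit 2251600001, nat_lit 3015600001, nat_lit 2681600001, nat_lit 2018000000], [], [nat_lit 2961815168, nat_lit 3159328085, nat_lit 0, nat_lit 198058465], nat_lit 1271250, nat_lit 1271250, nat_lit 43600, nat_lit 65850, nat_lit 0, nat_lit 0, [nat_lit 631250, nat_lit 1271250, nat_lit 1271250, nat_lit 1271250], [nat_lit 91, nat_lit 40, nat_lit 20, nat_lit 40]⟩, C1.Rw.none,
 ⟨nat_lit 6538, nat_lit 6558, ⟨.ofNat (nat_lit 123992), .ofNat (nat_lit 132450), .ofNat (nat_lit 125063), .ofNat (nat_lit 133520), .ofNat (nat_lit 124924), .ofNat (nat_lit 133362), .ofNat (nat_lit 125994), .ofNat (nat_lit 134432)⟩, ⟨.ofNat (nat_lit 0), .ofNat (nat_lit 0), .ofNat (nat_lit 0), .ofNat (nat_lit 0), .ofNat (nat_lit 0), .ofNat (nat_lit 0), .ofNat (nat_lit 0), .ofNat (nat_lit 0)⟩⟩, [⟨nat_lit 0, nat_lit 100, nat_lit 100, nat_lit 29, nat_lit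 3806319818⟩]⟩
noncomputable def p007_l88 : Lf2 := ⟨nat_lit 0, nat_lit 5, [nat_lit 4, nat_lit 5, nat_lit 5, nat_lit 20], true, nat_lit 0, nat_lit 0, nat_lit 0, nat_lit 0, ⟨nat_lit 0, nat_lit 0, nat_lit 1000, nat_lit 5, nat_lit 52, nat_lit 0, nat_lit 0, nat_lit 0, nat_lit 0, nat_lit 215, nat_lit 25350, nat_lit 254, nat_lit 65899669, nat_lit 0, nat_lit 0, nat_lit 418772, false, false⟩,
 nat_lit 0, nat_lit 100000, nat_lit 0, nat_lit 0, nat_lit 49854, nat_lit 0, nat_lit 7930, nat_lit 132, nat_lit 0, nat_lit 0, nat_lit 0, nat_lit 0, nat_lit 0, nat_lit 0, nat_lit 0, nat_lit 400000, nat_lit 16507598207, nat_lit 0, [(nat_lit 3, [(nat_lit 5, nat_lit 1000)])],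
 ⟨p007_k1, nat_lit 0, nat_lit 0, nat_lit 0, nat_lit 0, nat_lit 73379, [nat_lit 2251600001, nat_lit 3015600001, nat_lit 2681600001, nat_lit 2018000000], [], [nat_lit 2961815168, nat_lit 3159328085, nat_lit 0, nat_lit 198058465], nat_lit 1271250, nat_lit 1271250, nat_lit 43600, nat_lit 65850, nat_lit 0, nat_lit 0, [nat_lit 631250, nat_lit 1271250, nat_lit 1271250, nat_lit 1271250], [nat_lit 91, nat_lit 40, nat_lit 20, nat_lit 40]⟩, C1.Rw.none,
 ⟨nat_lit 6538, nat_lit 6558, ⟨.ofNat (nat_lit 123992), .ofNat (nat_lit 132450), .ofNat (nat_lit 125063), .ofNat (nat_lit 133520), .ofNat (nat_lit 124924), .ofNat (nat_lit 133362), .ofNat (nat_lit 125994), .ofNat (nat_lit 134432)⟩, ⟨.ofNat (nat_lit 0), .ofNat (nat_lit 0), .ofNat (nat_lit 0), .ofNat (nat_lit 0), .ofNat (nat_lit 0), .ofNat (nat_lit 0), .ofNat (nat_lit 0), .ofNat (nat_lit 0)⟩⟩, [⟨nat_lit 0, nat_lit 100, nat_lit 100, nat_lit 29, nat_lit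 3806319818⟩]⟩
noncomputable def p007_l89 : Lf2 := ⟨nat_lit 0, nat_lit 5, [nat_lit 4, nat_lit 5, nat_lit 5, nat_lit 20], false, nat_lit 0, nat_lit 0, nat_lit 0, nat_lit 0, ⟨nat_lit 0, nat_lit 0, nat_lit 1000, nat_lit 5, nat_lit 52, nat_lit 0, nat_lit 0, nat_lit 0, nat_lit 0, nat_lit 215, nat_lit 25350, nat_lit 254, nat_lit 65899669, nat_lit 0, nat_lit 0, nat_lit 418772, false, false⟩,
 nat_lit 100000, nat_lit 100000, nat_lit 100000, nat_lit 100000, nat_lit 99708, nat_lit 99708, nat_lit 21570, nat_lit 4943, nat_lit 0, nat_lit 60000, nat_lit 4470, nat_lit 0, nat_lit 0, nat_lit 400000000000000, nat_lit 0, nat_lit 1000000, nat_lit 0, nat_lit 0, [(nat_lit 3, [(nat_lit 6, nat_lit 1000)])],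
 ⟨p007_k2, nat_lit 0, nat_lit 0, nat_lit 0, nat_lit 0, nat_lit 73379, [nat_lit 99901142858, nat_lit 117371600001, nat_lit 135207600000], [], [nat_lit 172362765499, nat_lit 172924035965, nat_lit 165369292265, nat_lit 165568373329], nat_lit 1271250, nat_lit 1271250, nat_lit 43600, nat_lit 65850, nat_lit 0, nat_lit 0, [nat_lit 1412500, nat_lit 1271250, nat_lit 1271250], [nat_lit 25, nat_lit 40, nat_lit 20, nat_lit 80]⟩, ⟨p007_k2, nat_lit 0, nat_lit 0, nat_lit 0, nat_lit 0, nat_lit 73379, [nat_lit 89400000000, nat_lit 107280000000, nat_lit 125160000000], [], [nat_lit 71174115420, nat_lit 71648554002, nat_lit 65281887604, nat_lit 65625718186], nat_lit 1271250, nat_lit 1271250, nat_lit 43600, nat_lit 65850, nat_lit 0, nat_lit 0, [nat_lit 1412500, nat_lit 1271250, nat_lit 1271250], [nat_lit 25, nat_lit 40, nat_lit 20, nat_lit 80]⟩,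
 ⟨nat_lit 6538, nat_lit 6558, ⟨.ofNat (nat_lit 123992), .ofNat (nat_lit 132450), .ofNat (nat_lit 125063), .ofNat (nat_lit 133520), .ofNat (nat_lit 124924), .ofNat (nat_lit 133362), .ofNat (nat_lit 125994), .ofNat (nat_lit 134432)⟩, ⟨.ofNat (nat_lit 0), .ofNat (nat_lit 0), .ofNat (nat_lit 0), .ofNat (nat_lit 0), .ofNat (nat_lit 0), .ofNat (nat_lit 0), .ofNat (nat_lit 0), .ofNat (nat_lit 0)⟩⟩, [⟨nat_lit 0, nat_lit 100, nat_lit 100, nat_lit 29, nat_lit 10000000000⟩, ⟨nat_lit 0, nat_lit 100, nat_lit 100, nat_lit 29, nat_lit 10000000000⟩, ⟨nat_lit 0, nat_lit 100, nat_lit 100, nat_lit 28, nat_lit 10000000000⟩, ⟨nat_lit 13, nat_lit 100, nat_lit 1, nat_lit 100, nat_lit 233986324⟩]⟩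
noncomputable def p007_l90 : Lf2 := ⟨nat_lit 0, nat_lit 5, [nat_lit 4, nat_lit 5, nat_lit 5, nat_lit 20], false, nat_lit 0, nat_lit 0, nat_lit 0, nat_lit 0, ⟨nat_lit 0, nat_lit 0, nat_lit 1000, nat_lit 5, nat_lit 52, nat_lit 0, nat_lit 0, nat_lit 0, nat_lit 0, nat_lit 215, nat_lit 25350, nat_lit 254, nat_lit 65899669, nat_lit 0, nat_lit 0, nat_lit 418772, false, false⟩,
 nat_lit 100000, nat_lit 100000, nat_lit 0, nat_lit 0, nat_lit 99708, nat_lit 0, nat_lit 25874, nat_lit 4948, nat_lit 0, nat_lit 0, nat_lit 0, nat_lit 0, nat_lit 0, nat_lit 0, nat_lit 0, nat_lit 1000000, nat_lit 0, nat_lit 0, [(nat_lit 3, [(nat_lit 6, nat_lit 1000)])],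
 ⟨p007_k2, nat_lit 0, nat_lit 0, nat_lit 0, nat_lit 0, nat_lit 73379, [nat_lit 100001142858, nat_lit 117491600001, nat_lit 135347600000], [], [nat_lit 161043022621, nat_lit 161317479035, nat_lit 156008240293, nat_lit 156276896162], nat_lit 1271250, nat_lit 1271250, nat_lit 43600, nat_lit 65850, nat_lit 0, nat_lit 0, [nat_lit 1412500, nat_lit 1271250, nat_lit 1271250], [nat_lit 25, nat_lit 40, nat_lit 20, nat_lit 80]⟩, ⟨p007_k2, nat_lit 0, nat_lit 0, nat_lit 0, nat_lit 0, nat_lit 73379, [nat_lit 0, nat_lit 0, nat_lit 0], [], [nat_lit 0, nat_lit 0, nat_lit 0, nat_lit 0], nat_lit 1271250, nat_lit 1271250, nat_lit 43600, nat_lit 65850, nat_lit 0, nat_lit 0, [nat_lit 1412500, nat_lit 1271250, nat_lit 1271250], [nat_lit 25, nat_lit 40, nat_lit 20, nat_lit 80]⟩,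
 ⟨nat_lit 6538, nat_lit 6558, ⟨.ofNat (nat_lit 123992), .ofNat (nat_lit 132450), .ofNat (nat_lit 125063), .ofNat (nat_lit 133520), .ofNat (nat_lit 124924), .ofNat (nat_lit 133362), .ofNat (nat_lit 125994), .ofNat (nat_lit 134432)⟩, ⟨.ofNat (nat_lit 0), .ofNat (nat_lit 0), .ofNat (nat_lit 0), .ofNat (nat_lit 0), .ofNat (nat_lit 0), .ofNat (nat_lit 0), .ofNat (nat_lit 0), .ofNat (nat_lit 0)⟩⟩, [⟨nat_lit 0, nat_lit 100, nat_lit 100, nat_lit 29, nat_lit 6409079717⟩]⟩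
noncomputable def p007_l91 : Lf2 := ⟨nat_lit 0, nat_lit 5, [nat_lit 4, nat_lit 5, nat_lit 5, nat_lit 20], true, nat_lit 0, nat_lit 0, nat_lit 0, nat_lit 0, ⟨nat_lit 0, nat_lit 0, nat_lit 1000, nat_lit 5, nat_lit 52, nat_lit 0, nat_lit 0, nat_lit 0, nat_lit 0, nat_lit 215, nat_lit 25350, nat_lit 254, nat_lit 65884192, nat_lit 0, nat_lit 0, nat_lit 423492, false, false⟩,
 nat_lit 0, nat_lit 5263, nat_lit 0, nat_lit 0, nat_lit 2637, nat_lit 0, nat_lit 0, nat_lit 0, nat_lit 101, nat_lit 0, nat_lit 0, nat_lit 0, nat_lit 0, nat_lit 0, nat_lit 100, nat_lit 840400, nat_lit 0, nat_lit 0, [(nat_lit 3, [(nat_lit 5, nat_lit 266), (nat_lit 6, nat_lit 734)])],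
 ⟨p007_k4, nat_lit 0, nat_lit 0, nat_lit 0, nat_lit 0, nat_lit 77231, [nat_lit 2863732732, nat_lit 1926220001, nat_lit 7494400], [], [nat_lit 10248728158, nat_lit 10297217080, nat_lit 10134601637, nat_lit 10186637370], nat_lit 1271250, nat_lit 1271250, nat_lit 43600, nat_lit 65850, nat_lit 0, nat_lit 0, [nat_lit 1271250, nat_lit 1271250, nat_lit 1271250], [nat_lit 103, nat_lit 40, nat_lit 20, nat_lit 40]⟩, C1.Rw.none,
 ⟨nat_lit 6519, nat_lit 6539, ⟨.ofNat (nat_lit 124924), .ofNat (nat_lit 133362), .ofNat (nat_lit 125994), .ofNat (nat_lit 134432), .ofNat (nat_lit 125854), .ofNat (nat_lit 134272), .ofNat (nat_lit 126924), .ofNat (nat_lit 135342)⟩, ⟨.ofNat (nat_lit 0), .ofNat (nat_lit 0), .ofNat (nat_lit 0), .ofNat (nat_lit 0), .ofNat (nat_lit 0), .ofNat (nat_lit 0), .ofNat (nat_lit 0), .ofNat (nat_lit 0)⟩⟩, [⟨nat_lit 0, nat_lit 100, nat_lit 100, nat_lit 29, nat_lit 246210081⟩]⟩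
noncomputable def p007_l92 : Lf2 := ⟨nat_lit 0, nat_lit 5, [nat_lit 4, nat_lit 5, nat_lit 5, nat_lit 20], true, nat_lit 0, nat_lit 0, nat_lit 0, nat_lit 0, ⟨nat_lit 0, nat_lit 0, nat_lit 1000, nat_lit 5, nat_lit 52, nat_lit 0, nat_lit 0, nat_lit 0, nat_lit 0, nat_lit 215, nat_lit 25350, nat_lit 254, nat_lit 65884192, nat_lit 0, nat_lit 0, nat_lit 423492, false, false⟩,
 nat_lit 0, nat_lit 4998, nat_lit 0, nat_lit 0, nat_lit 2504, nat_lit 0, nat_lit 0, nat_lit 0, nat_lit 142, nat_lit 0, nat_lit 0, nat_lit 0, nat_lit 0, nat_lit 0, nat_lit 110, nat_lit 944800, nat_lit 0, nat_lit 0, [(nat_lit 3, [(nat_lit 5, nat_lit 92), (nat_lit 6, nat_lit 908)])],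
 ⟨p007_k4, nat_lit 0, nat_lit 0, nat_lit 0, nat_lit 0, nat_lit 77231, [nat_lit 2960851063, nat_lit 2134040001, nat_lit 23292800], [], [nat_lit 8726612149, nat_lit 8781947507, nat_lit 8648821236, nat_lit 8688783223], nat_lit 1271250, nat_lit 1271250, nat_lit 43600, nat_lit 65850, nat_lit 0, nat_lit 0, [nat_lit 1271250, nat_lit 1271250, nat_lit 1271250], [nat_lit 103, nat_lit 40, nat_lit 20, nat_lit 40]⟩, C1.Rw.none,
 ⟨nat_lit 6519, nat_lit 6539, ⟨.ofNat (nat_lit 124924), .ofNat (nat_lit 133362), .ofNat (nat_lit 125994), .ofNat (nat_lit 134432), .ofNat (nat_lit 125854), .ofNat (nat_lit 134272), .ofNat (nat_lit 126924), .ofNat (nat_lit 135342)⟩, ⟨.ofNat (nat_lit 0), .ofNat (nat_lit 0), .ofNat (nat_lit 0), .ofNat (nat_lit 0), .ofNat (nat_lit 0), .ofNat (nat_lit 0), .ofNat (nat_lit 0), .ofNat (nat_lit 0)⟩⟩, [⟨nat_lit 0, nat_lit 100, nat_lit 100, nat_lit 29, nat_lit 204362624⟩]⟩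
noncomputable def p007_l93 : Lf2 := ⟨nat_lit 0, nat_lit 5, [nat_lit 4, nat_lit 5, nat_lit 5, nat_lit 20], true, nat_lit 0, nat_lit 0, nat_lit 0, nat_lit 0, ⟨nat_lit 0, nat_lit 0, nat_lit 1000, nat_lit 5, nat_lit 52, nat_lit 0, nat_lit 0, nat_lit 0, nat_lit 0, nat_lit 215, nat_lit 25350, nat_lit 254, nat_lit 65884192, nat_lit 0, nat_lit 0, nat_lit 423492, false, false⟩,
 nat_lit 0, nat_lit 100000, nat_lit 0, nat_lit 0, nat_lit 50109, nat_lit 0, nat_lit 7653, nat_lit 0, nat_lit 0, nat_lit 0, nat_lit 0, nat_lit 0, nat_lit 0, nat_lit 0, nat_lit 115, nat_lit 1000000, nat_lit 22825638242, nat_lit 0, [(nat_lit 3, [(nat_lit 6, nat_lit 1000)])],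
 ⟨p007_k7, nat_lit 0, nat_lit 0, nat_lit 0, nat_lit 0, nat_lit 77231, [nat_lit 1742533334, nat_lit 2935066667, nat_lit 2237600001, nat_lit 23600000], [], [nat_lit 2974011460, nat_lit 3246968859, nat_lit 0, nat_lit 273195919], nat_lit 1271250, nat_lit 1271250, nat_lit 43600, nat_lit 65850, nat_lit 0, nat_lit 0, [nat_lit 631250, nat_lit 1271250, nat_lit 1271250, nat_lit 1271250], [nat_lit 91, nat_lit 40, nat_lit 20, nat_lit 40]⟩, C1.Rw.none,
 ⟨nat_lit 6519, nat_lit 6539, ⟨.ofNat (nat_lit 124924), .ofNat (nat_lit 133362), .ofNat (nat_lit 125994), .ofNat (nat_lit 134432), .ofNat (nat_lit 125854), .ofNat (nat_lit 134272), .ofNat (nat_lit 126924), .ofNat (nat_lit 135342)⟩, ⟨.ofNat (nat_lit 0), .ofNat (nat_lit 0), .ofNat (nat_lit 0), .ofNat (nat_lit 0), .ofNat (nat_lit 0), .ofNat (nat_lit 0), .ofNat (nat_lit 0), .ofNat (nat_lit 0)⟩⟩, [⟨nat_lit 0, nat_lit 100, nat_lit 100, nat_lit 29, nat_lit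 3824738749⟩]⟩
noncomputable def p007_l94 : Lf2 := ⟨nat_lit 0, nat_lit 5, [nat_lit 4, nat_lit 5, nat_lit 5, nat_lit 20], true, nat_lit 0, nat_lit 0, nat_lit 0, nat_lit 0, ⟨nat_lit 0, nat_lit 0, nat_lit 1000, nat_lit 5, nat_lit 52, nat_lit 0, nat_lit 0, nat_lit 0, nat_lit 0, nat_lit 215, nat_lit 25350, nat_lit 254, nat_lit 65884192, nat_lit 0, nat_lit 0, nat_lit 423492, false, false⟩,
 nat_lit 0, nat_lit 100000, nat_lit 0, nat_lit 0, nat_lit 50109, nat_lit 0, nat_lit 7653, nat_lit 0, nat_lit 0, nat_lit 0, nat_lit 0, nat_lit 0, nat_lit 0, nat_lit 0, nat_lit 115, nat_lit 1000000, nat_lit 22825638242, nat_lit 0, [(nat_lit 3, [(nat_lit 6, nat_lit 1000)])],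
 ⟨p007_k7, nat_lit 0, nat_lit 0, nat_lit 0, nat_lit 0, nat_lit 77231, [nat_lit 1742533334, nat_lit 2935066667, nat_lit 2237600001, nat_lit 23600000], [], [nat_lit 2974011460, nat_lit 3246968859, nat_lit 0, nat_lit 273195919], nat_lit 1271250, nat_lit 1271250, nat_lit 43600, nat_lit 65850, nat_lit 0, nat_lit 0, [nat_lit 631250, nat_lit 1271250, nat_lit 1271250, nat_lit 1271250], [nat_lit 91, nat_lit 40, nat_lit 20, nat_lit 40]⟩, C1.Rw.none,
 ⟨nat_lit 6519, nat_lit 6539, ⟨.ofNat (nat_lit 124924), .ofNat (nat_lit 133362), .ofNat (nat_lit 125994), .ofNat (nat_lit 134432), .ofNat (nat_lit 125854), .ofNat (nat_lit 134272), .ofNat (nat_lit 126924), .ofNat (nat_lit 135342)⟩, ⟨.ofNat (nat_lit 0), .ofNat (nat_lit 0), .ofNat (nat_lit 0), .ofNat (nat_lit 0), .ofNat (nat_lit 0), .ofNat (nat_lit 0), .ofNat (nat_lit 0), .ofNat (nat_lit 0)⟩⟩, [⟨nat_lit 0, nat_lit 100, nat_lit 100, nat_lit 29, nat_lit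 3824738749⟩]⟩
noncomputable def p007_l95 : Lf2 := ⟨nat_lit 0, nat_lit 5, [nat_lit 4, nat_lit 5, nat_lit 5, nat_lit 20], false, nat_lit 0, nat_lit 0, nat_lit 0, nat_lit 0, ⟨nat_lit 0, nat_lit 0, nat_lit 1000, nat_lit 5, nat_lit 52, nat_lit 0, nat_lit 0, nat_lit 0, nat_lit 0, nat_lit 215, nat_lit 25350, nat_lit 254, nat_lit 65884192, nat_lit 0, nat_lit 0, nat_lit 423492, false, false⟩,
 nat_lit 100000, nat_lit 100000, nat_lit 100000, nat_lit 100000, nat_lit 100000, nat_lit 99708, nat_lit 34880, nat_lit 4787, nat_lit 0, nat_lit 60000, nat_lit 4472, nat_lit 0, nat_lit 0, nat_lit 0, nat_lit 0, nat_lit 1000000, nat_lit 0, nat_lit 0, [(nat_lit 3, [(nat_lit 6, nat_lit 1000)])],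
 ⟨p007_k8, nat_lit 0, nat_lit 0, nat_lit 0, nat_lit 0, nat_lit 77231, [nat_lit 96781142858, nat_lit 113627600001, nat_lit 130839600000], [], [nat_lit 130849273776, nat_lit 131453793117, nat_lit 124836888656, nat_lit 125441788317], nat_lit 1271250, nat_lit 1271250, nat_lit 43600, nat_lit 65850, nat_lit 0, nat_lit 0, [nat_lit 1412500, nat_lit 1271250, nat_lit 1271250], [nat_lit 25, nat_lit 40, nat_lit 20, nat_lit 80]⟩, ⟨p007_k2, nat_lit 0, nat_lit 0, nat_lit 0, nat_lit 0, nat_lit 77657, [nat_lit 89440000000, nat_lit 107328000000, nat_lit 125216000000], [], [nat_lit 71262115420, nat_lit 71736554002, nat_lit 65409887604, nat_lit 65714870446], nat_lit 1271250, nat_lit 1271250, nat_lit 43600, nat_lit 65850, nat_lit 0, nat_lit 0, [nat_lit 1412500, nat_lit 1271250, nat_lit 1271250], [nat_lit 25, nat_lit 40, nat_lit 20, nat_lit 80]⟩,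
 ⟨nat_lit 6519, nat_lit 6539, ⟨.ofNat (nat_lit 124924), .ofNat (nat_lit 133362), .ofNat (nat_lit 125994), .ofNat (nat_lit 134432), .ofNat (nat_lit 125854), .ofNat (nat_lit 134272), .ofNat (nat_lit 126924), .ofNat (nat_lit 135342)⟩, ⟨.ofNat (nat_lit 0), .ofNat (nat_lit 0), .ofNat (nat_lit 0), .ofNat (nat_lit 0), .ofNat (nat_lit 0), .ofNat (nat_lit 0), .ofNat (nat_lit 0), .ofNat (nat_lit 0)⟩⟩, [⟨nat_lit 0, nat_lit 100, nat_lit 100, nat_lit 29, nat_lit 10000000000⟩, ⟨nat_lit 0, nat_lit 100, nat_lit 100, nat_lit 29, nat_lit 10000000000⟩, ⟨nat_lit 0, nat_lit 100, nat_lit 100, nat_lit 28, nat_lit 10000000000⟩]⟩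
noncomputable def p007_l96 : Lf2 := ⟨nat_lit 2, nat_lit 5, [nat_lit 4, nat_lit 5, nat_lit 5, nat_lit 20], true, nat_lit 0, nat_lit 0, nat_lit 0, nat_lit 0, zbN0,
 nat_lit 0, nat_lit 0, nat_lit 0, nat_lit 0, nat_lit 0, nat_lit 0, nat_lit 0, nat_lit 0, nat_lit 0, nat_lit 0, nat_lit 0, nat_lit 0, nat_lit 0, nat_lit 0, nat_lit 0, nat_lit 0, nat_lit 0, nat_lit 0, [],
 ⟨p007_k14, nat_lit 0, nat_lit 0, nat_lit 0, nat_lit 0, nat_lit 77231, [], [], [], nat_lit 1271250, nat_lit 1271250, nat_lit 43600, nat_lit 65850, nat_lit 0, nat_lit 0, [nat_lit 780000, nat_lit 1100000, nat_lit 1442500, nat_lit 1271250, nat_lit 1271250], [nat_lit 167, nat_lit 10, nat_lit 4, nat_lit 20]⟩, C1.Rw.none,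
 zbF0, []⟩
noncomputable def p007_l97 : Lf2 := ⟨nat_lit 0, nat_lit 5, [nat_lit 4, nat_lit 5, nat_lit 5, nat_lit 20], true, nat_lit 0, nat_lit 0, nat_lit 0, nat_lit 0, ⟨nat_lit 0, nat_lit 0, nat_lit 1000, nat_lit 5, nat_lit 52, nat_lit 0, nat_lit 0, nat_lit 0, nat_lit 0, nat_lit 215, nat_lit 25350, nat_lit 254, nat_lit 65884192, nat_lit 0, nat_lit 0, nat_lit 423492, false, false⟩,
 nat_lit 0, nat_lit 100000, nat_lit 0, nat_lit 0, nat_lit 50109, nat_lit 0, nat_lit 8003, nat_lit 166, nat_lit 0, nat_lit 0, nat_lit 0, nat_lit 0, nat_lit 0, nat_lit 0, nat_lit 0, nat_lit 400000, nat_lit 15561779726, nat_lit 0, [(nat_lit 3, [(nat_lit 5, nat_lit 1000)])],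
 ⟨p007_k7, nat_lit 0, nat_lit 0, nat_lit 0, nat_lit 0, nat_lit 77231, [nat_lit 2591600001, nat_lit 3627600001, nat_lit 3429600001, nat_lit 2970000000], [], [nat_lit 2976809949, nat_lit 3179703181, nat_lit 0, nat_lit 203962403], nat_lit 1271250, nat_lit 1271250, nat_lit 43600, nat_lit 65850, nat_lit 0, nat_lit 0, [nat_lit 631250, nat_lit 1271250, nat_lit 1271250, nat_lit 1271250], [nat_lit 91, nat_lit 40, nat_lit 20, nat_lit 40]⟩, C1.Rw.none,
 ⟨nat_lit 6519, nat_lit 6539, ⟨.ofNat (nat_lit 124924), .ofNat (nat_lit 133362), .ofNat (nat_lit 125994), .ofNat (nat_lit 134432), .ofNat (nat_lit 125854), .ofNat (nat_lit 134272), .ofNat (nat_lit 126924), .ofNat (nat_lit 135342)⟩, ⟨.ofNat (nat_lit 0), .ofNat (nat_lit 0), .ofNat (nat_lit 0), .ofNat (nat_lit 0), .ofNat (nat_lit 0), .ofNat (nat_lit 0), .ofNat (nat_lit 0), .ofNat (nat_lit 0)⟩⟩, [⟨nat_lit 0, nat_lit 100, nat_lit 100, nat_lit 29, nat_lit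 3824738749⟩]⟩
noncomputable def p007_l98 : Lf2 := ⟨nat_lit 0, nat_lit 5, [nat_lit 4, nat_lit 5, nat_lit 5, nat_lit 20], true, nat_lit 0, nat_lit 0, nat_lit 0, nat_lit 0, ⟨nat_lit 0, nat_lit 0, nat_lit 1000, nat_lit 5, nat_lit 52, nat_lit 0, nat_lit 0, nat_lit 0, nat_lit 0, nat_lit 215, nat_lit 25350, nat_lit 254, nat_lit 65884192, nat_lit 0, nat_lit 0, nat_lit 423492, false, false⟩,
 nat_lit 0, nat_lit 100000, nat_lit 0, nat_lit 0, nat_lit 50109, nat_lit 0, nat_lit 8003, nat_lit 166, nat_lit 0, nat_lit 0, nat_lit 0, nat_lit 0, nat_lit 0, nat_lit 0, nat_lit 0, nat_lit 400000, nat_lit 15561779726, nat_lit 0, [(nat_lit 3, [(nat_lit 5, nat_lit 1000)])],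
 ⟨p007_k7, nat_lit 0, nat_lit 0, nat_lit 0, nat_lit 0, nat_lit 77231, [nat_lit 2591600001, nat_lit 3627600001, nat_lit 3429600001, nat_lit 2970000000], [], [nat_lit 2976809949, nat_lit 3179703181, nat_lit 0, nat_lit 203962403], nat_lit 1271250, nat_lit 1271250, nat_lit 43600, nat_lit 65850, nat_lit 0, nat_lit 0, [nat_lit 631250, nat_lit 1271250, nat_lit 1271250, nat_lit 1271250], [nat_lit 91, nat_lit 40, nat_lit 20, nat_lit 40]⟩, C1.Rw.none,
 ⟨nat_lit 6519, nat_lit 6539, ⟨.ofNat (nat_lit 124924), .ofNat (nat_lit 133362), .ofNat (nat_lit 125994), .ofNat (nat_lit 134432), .ofNat (nat_lit 125854), .ofNat (nat_lit 134272), .ofNat (nat_lit 126924), .ofNat (nat_lit 135342)⟩, ⟨.ofNat (nat_lit 0), .ofNat (nat_lit 0), .ofNat (nat_lit 0), .ofNat (nat_lit 0), .ofNat (nat_lit 0), .ofNat (nat_lit 0), .ofNat (nat_lit 0), .ofNat (nat_lit 0)⟩⟩, [⟨nat_lit 0, nat_lit 100, nat_lit 100, nat_lit 29, nat_lit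 3824738749⟩]⟩
noncomputable def p007_l99 : Lf2 := ⟨nat_lit 0, nat_lit 5, [nat_lit 4, nat_lit 5, nat_lit 5, nat_lit 20], false, nat_lit 0, nat_lit 0, nat_lit 0, nat_lit 0, ⟨nat_lit 0, nat_lit 0, nat_lit 1000, nat_lit 5, nat_lit 52, nat_lit 0, nat_lit 0, nat_lit 0, nat_lit 0, nat_lit 215, nat_lit 25350, nat_lit 254, nat_lit 65884192, nat_lit 0, nat_lit 0, nat_lit 423492, false, false⟩,
 nat_lit 100000, nat_lit 100000, nat_lit 100000, nat_lit 100000, nat_lit 100000, nat_lit 99708, nat_lit 34748, nat_lit 4490, nat_lit 0, nat_lit 60000, nat_lit 4463, nat_lit 0, nat_lit 0, nat_lit 0, nat_lit 0, nat_lit 400000, nat_lit 0, nat_lit 0, [(nat_lit 3, [(nat_lit 5, nat_lit 1000)])],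
 ⟨p007_k8, nat_lit 0, nat_lit 0, nat_lit 0, nat_lit 0, nat_lit 77231, [nat_lit 91370400000, nat_lit 107022400000, nat_lit 124042000000], [], [nat_lit 124296760161, nat_lit 125000006200, nat_lit 116874387641, nat_lit 117579337800], nat_lit 1271250, nat_lit 1271250, nat_lit 43600, nat_lit 65850, nat_lit 0, nat_lit 0, [nat_lit 1412500, nat_lit 1271250, nat_lit 1271250], [nat_lit 25, nat_lit 40, nat_lit 20, nat_lit 80]⟩, ⟨p007_k2, nat_lit 0, nat_lit 0, nat_lit 0, nat_lit 0, nat_lit 77657, [nat_lit 89260000000, nat_lit 107112000000, nat_lit 124964000000], [], [nat_lit 70866115420, nat_lit 71340554002, nat_lit 64842707280, nat_lit 65317718186], nat_lit 1271250, nat_lit 1271250, nat_lit 43600, nat_lit 65850, nat_lit 0, nat_lit 0, [nat_lit 1412500, nat_lit 1271250, nat_lit 1271250], [nat_lit 25, nat_lit 40, nat_lit 20, nat_lit 80]⟩,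
 ⟨nat_lit 6519, nat_lit 6539, ⟨.ofNat (nat_lit 124924), .ofNat (nat_lit 133362), .ofNat (nat_lit 125994), .ofNat (nat_lit 134432), .ofNat (nat_lit 125854), .ofNat (nat_lit 134272), .ofNat (nat_lit 126924), .ofNat (nat_lit 135342)⟩, ⟨.ofNat (nat_lit 0), .ofNat (nat_lit 0), .ofNat (nat_lit 0), .ofNat (nat_lit 0), .ofNat (nat_lit 0), .ofNat (nat_lit 0), .ofNat (nat_lit 0), .ofNat (nat_lit 0)⟩⟩, [⟨nat_lit 0, nat_lit 100, nat_lit 100, nat_lit 29, nat_lit 10000000000⟩, ⟨nat_lit 0, nat_lit 100, nat_lit 100, nat_lit 29, nat_lit 10000000000⟩, ⟨nat_lit 0, nat_lit 100, nat_lit 100, nat_lit 28, nat_lit 10000000000⟩, ⟨nat_lit 13, nat_lit 100, nat_lit 1, nat_lit 100, nat_lit 200608822⟩]⟩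
noncomputable def p007_l100 : Lf2 := ⟨nat_lit 0, nat_lit 5, [nat_lit 4, nat_lit 5, nat_lit 5, nat_lit 20], false, nat_lit 0, nat_lit 0, nat_lit 0, nat_lit 0, ⟨nat_lit 0, nat_lit 0, nat_lit 1000, nat_lit 5, nat_lit 52, nat_lit 0, nat_lit 0, nat_lit 0, nat_lit 0, nat_lit 215, nat_lit 25350, nat_lit 254, nat_lit 65884192, nat_lit 0, nat_lit 0, nat_lit 423492, false, false⟩,
 nat_lit 99563, nat_lit 100000, nat_lit 0, nat_lit 0, nat_lit 99999, nat_lit 0, nat_lit 25170, nat_lit 4996, nat_lit 0, nat_lit 0, nat_lit 0, nat_lit 0, nat_lit 0, nat_lit 0, nat_lit 0, nat_lit 1000000, nat_lit 0, nat_lit 0, [(nat_lit 3, [(nat_lit 6, nat_lit 1000)])],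
 ⟨p007_k8, nat_lit 0, nat_lit 0, nat_lit 0, nat_lit 0, nat_lit 77231, [nat_lit 100961142858, nat_lit 118643600001, nat_lit 136691600000], [], [nat_lit 163860384593, nat_lit 164134495281, nat_lit 158810962668, nat_lit 159080323147], nat_lit 1271250, nat_lit 1271250, nat_lit 43600, nat_lit 65850, nat_lit 0, nat_lit 0, [nat_lit 1412500, nat_lit 1271250, nat_lit 1271250], [nat_lit 25, nat_lit 40, nat_lit 20, nat_lit 80]⟩, ⟨p007_k2, nat_lit 0, nat_lit 0, nat_lit 0, nat_lit 0, nat_lit 77657, [nat_lit 0, nat_lit 0, nat_lit 0], [], [nat_lit 0, nat_lit 0, nat_lit 0, nat_lit 0], nat_lit 1271250, nat_lit 1271250, nat_lit 43600, nat_lit 65850, nat_lit 0, nat_lit 0, [nat_lit 1412500, nat_lit 1271250, nat_lit 1271250], [nat_lit 25, nat_lit 40, nat_lit 20, nat_lit 80]⟩,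
 ⟨nat_lit 6519, nat_lit 6539, ⟨.ofNat (nat_lit 124924), .ofNat (nat_lit 133362), .ofNat (nat_lit 125994), .ofNat (nat_lit 134432), .ofNat (nat_lit 125854), .ofNat (nat_lit 134272), .ofNat (nat_lit 126924), .ofNat (nat_lit 135342)⟩, ⟨.ofNat (nat_lit 0), .ofNat (nat_lit 0), .ofNat (nat_lit 0), .ofNat (nat_lit 0), .ofNat (nat_lit 0), .ofNat (nat_lit 0), .ofNat (nat_lit 0), .ofNat (nat_lit 0)⟩⟩, [⟨nat_lit 0, nat_lit 100, nat_lit 100, nat_lit 29, nat_lit 6427094230⟩]⟩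
noncomputable def p007_l101 : Lf2 := ⟨nat_lit 0, nat_lit 5, [nat_lit 4, nat_lit 5, nat_lit 5, nat_lit 20], true, nat_lit 0, nat_lit 0, nat_lit 0, nat_lit 0, ⟨nat_lit 0, nat_lit 0, nat_lit 1000, nat_lit 5, nat_lit 52, nat_lit 0, nat_lit 0, nat_lit 0, nat_lit 0, nat_lit 215, nat_lit 25350, nat_lit 254, nat_lit 65866080, nat_lit 0, nat_lit 0, nat_lit 428996, false, false⟩,
 nat_lit 0, nat_lit 5275, nat_lit 0, nat_lit 0, nat_lit 2643, nat_lit 0, nat_lit 0, nat_lit 0, nat_lit 100, nat_lit 0, nat_lit 0, nat_lit 0, nat_lit 0, nat_lit 17699467569328, nat_lit 100, nat_lit 841000, nat_lit 0, nat_lit 0, [(nat_lit 3, [(nat_lit 5, nat_lit 265), (nat_lit 6, nat_lit 735)])],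
 ⟨p007_k4, nat_lit 0, nat_lit 0, nat_lit 0, nat_lit 0, nat_lit 81461, [nat_lit 2863256400, nat_lit 1926150001, nat_lit 5976000], [], [nat_lit 10282928765, nat_lit 10328452466, nat_lit 10168807712, nat_lit 10215808959], nat_lit 1271250, nat_lit 1271250, nat_lit 43600, nat_lit 65850, nat_lit 0, nat_lit 0, [nat_lit 1271250, nat_lit 1271250, nat_lit 1271250], [nat_lit 103, nat_lit 40, nat_lit 20, nat_lit 40]⟩, C1.Rw.none,
 ⟨nat_lit 6519, nat_lit 6539, ⟨.ofNat (nat_lit 125994), .ofNat (nat_lit 134432), .ofNat (nat_lit 127064), .ofNat (nat_lit 135502), .ofNat (nat_lit 126924), .ofNat (nat_lit 135342), .ofNat (nat_lit 127994), .ofNat (nat_lit 136412)⟩, ⟨.ofNat (nat_lit 0), .ofNat (nat_lit 0), .ofNat (nat_lit 0), .ofNat (nat_lit 0), .ofNat (nat_lit 0), .ofNat (nat_lit 0), .ofNat (nat_lit 0), .ofNat (nat_lit 0)⟩⟩, [⟨nat_lit 0, nat_lit 100, nat_lit 100, nat_lit 30, nat_lit 246595571⟩]⟩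
noncomputable def p007_l102 : Lf2 := ⟨nat_lit 0, nat_lit 5, [nat_lit 4, nat_lit 5, nat_lit 5, nat_lit 20], true, nat_lit 0, nat_lit 0, nat_lit 0, nat_lit 0, ⟨nat_lit 0, nat_lit 0, nat_lit 1000, nat_lit 5, nat_lit 52, nat_lit 0, nat_lit 0, nat_lit 0, nat_lit 0, nat_lit 215, nat_lit 25350, nat_lit 254, nat_lit 65866080, nat_lit 0, nat_lit 0, nat_lit 428996, false, false⟩,
 nat_lit 0, nat_lit 5007, nat_lit 0, nat_lit 0, nat_lit 2508, nat_lit 0, nat_lit 0, nat_lit 0, nat_lit 141, nat_lit 0, nat_lit 0, nat_lit 0, nat_lit 0, nat_lit 7850332623224, nat_lit 110, nat_lit 944200, nat_lit 0, nat_lit 0, [(nat_lit 3, [(nat_lit 5, nat_lit 93), (nat_lit 6, nat_lit 907)])],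
 ⟨p007_k4, nat_lit 0, nat_lit 0, nat_lit 0, nat_lit 0, nat_lit 81461, [nat_lit 2961327395, nat_lit 2134110001, nat_lit 24811200], [], [nat_lit 8778370773, nat_lit 8818391135, nat_lit 8701103349, nat_lit 8741081583], nat_lit 1271250, nat_lit 1271250, nat_lit 43600, nat_lit 65850, nat_lit 0, nat_lit 0, [nat_lit 1271250, nat_lit 1271250, nat_lit 1271250], [nat_lit 103, nat_lit 40, nat_lit 20, nat_lit 40]⟩, C1.Rw.none,
 ⟨nat_lit 6519, nat_lit 6539, ⟨.ofNat (nat_lit 125994), .ofNat (nat_lit 134432), .ofNat (nat_lit 127064), .ofNat (nat_lit 135502), .ofNat (nat_lit 126924), .ofNat (nat_lit 135342), .ofNat (nat_lit 127994), .ofNat (nat_lit 136412)⟩, ⟨.ofNat (nat_lit 0), .ofNat (nat_lit 0), .ofNat (nat_lit 0), .ofNat (nat_lit 0), .ofNat (nat_lit 0), .ofNat (nat_lit 0), .ofNat (nat_lit 0), .ofNat (nat_lit 0)⟩⟩, [⟨nat_lit 0, nat_lit 100, nat_lit 100, nat_lit 30, nat_lit 204204756⟩]⟩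
noncomputable def p007_l103 : Lf2 := ⟨nat_lit 0, nat_lit 5, [nat_lit 4, nat_lit 5, nat_lit 5, nat_lit 20], false, nat_lit 0, nat_lit 0, nat_lit 0, nat_lit 0, ⟨nat_lit 0, nat_lit 0, nat_lit 1000, nat_lit 5, nat_lit 52, nat_lit 0, nat_lit 0, nat_lit 0, nat_lit 0, nat_lit 215, nat_lit 25350, nat_lit 254, nat_lit 65866080, nat_lit 0, nat_lit 0, nat_lit 428996, false, false⟩,
 nat_lit 99563, nat_lit 100000, nat_lit 0, nat_lit 0, nat_lit 99999, nat_lit 0, nat_lit 16864, nat_lit 0, nat_lit 0, nat_lit 0, nat_lit 0, nat_lit 0, nat_lit 0, nat_lit 0, nat_lit 115, nat_lit 1000000, nat_lit 62787580703, nat_lit 0, [(nat_lit 3, [(nat_lit 6, nat_lit 1000)])],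
 ⟨p007_k7, nat_lit 0, nat_lit 0, nat_lit 0, nat_lit 0, nat_lit 81461, [nat_lit 1742533334, nat_lit 2935066667, nat_lit 2237600001, nat_lit 23600000], [], [nat_lit 5982762613, nat_lit 6496101888, nat_lit 0, nat_lit 513381346], nat_lit 1271250, nat_lit 1271250, nat_lit 43600, nat_lit 65850, nat_lit 0, nat_lit 0, [nat_lit 631250, nat_lit 1271250, nat_lit 1271250, nat_lit 1271250], [nat_lit 91, nat_lit 40, nat_lit 20, nat_lit 40]⟩, ⟨p007_k7, nat_lit 0, nat_lit 0, nat_lit 0, nat_lit 0, nat_lit 81461, [nat_lit 0, nat_lit 0, nat_lit 0, nat_lit 0], [], [nat_lit 0, nat_lit 0, nat_lit 0, nat_lit 0], nat_lit 1271250, nat_lit 1271250, nat_lit 43600, nat_lit 65850, nat_lit 0, nat_lit 0, [nat_lit 631250, nat_lit 1271250, nat_lit 1271250, nat_lit 1271250], [nat_lit 91, nat_lit 40, nat_lit 20, nat_lit 40]⟩,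
 ⟨nat_lit 6519, nat_lit 6539, ⟨.ofNat (nat_lit 125994), .ofNat (nat_lit 134432), .ofNat (nat_lit 127064), .ofNat (nat_lit 135502), .ofNat (nat_lit 126924), .ofNat (nat_lit 135342), .ofNat (nat_lit 127994), .ofNat (nat_lit 136412)⟩, ⟨.ofNat (nat_lit 0), .ofNat (nat_lit 0), .ofNat (nat_lit 0), .ofNat (nat_lit 0), .ofNat (nat_lit 0), .ofNat (nat_lit 0), .ofNat (nat_lit 0), .ofNat (nat_lit 0)⟩⟩, [⟨nat_lit 0, nat_lit 100, nat_lit 100, nat_lit 30, nat_lit 7585379230⟩]⟩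
noncomputable def p007_l104 : Lf2 := ⟨nat_lit 0, nat_lit 5, [nat_lit 4, nat_lit 5, nat_lit 5, nat_lit 20], false, nat_lit 0, nat_lit 0, nat_lit 0, nat_lit 0, ⟨nat_lit 0, nat_lit 0, nat_lit 1000, nat_lit 5, nat_lit 52, nat_lit 0, nat_lit 0, nat_lit 0, nat_lit 0, nat_lit 215, nat_lit 25350, nat_lit 254, nat_lit 65866080, nat_lit 0, nat_lit 0, nat_lit 428996, false, false⟩,
 nat_lit 100000, nat_lit 100000, nat_lit 100000, nat_lit 100000, nat_lit 100000, nat_lit 100000, nat_lit 16710, nat_lit 0, nat_lit 0, nat_lit 18310, nat_lit 0, nat_lit 0, nat_lit 0, nat_lit 400000000000000, nat_lit 115, nat_lit 1000000, nat_lit 62678525158, nat_lit 79991275749, [(nat_lit 3, [(nat_lit 6, nat_lit 1000)])],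
 ⟨p007_k7, nat_lit 0, nat_lit 0, nat_lit 0, nat_lit 0, nat_lit 81461, [nat_lit 1742533334, nat_lit 2935066667, nat_lit 2237600001, nat_lit 23600000], [], [nat_lit 6273628482, nat_lit 6812727343, nat_lit 0, nat_lit 539804143], nat_lit 1271250, nat_lit 1271250, nat_lit 43600, nat_lit 65850, nat_lit 0, nat_lit 0, [nat_lit 631250, nat_lit 1271250, nat_lit 1271250, nat_lit 1271250], [nat_lit 91, nat_lit 40, nat_lit 20, nat_lit 40]⟩, ⟨p007_k7, nat_lit 0, nat_lit 0, nat_lit 0, nat_lit 0, nat_lit 81461, [nat_lit 0, nat_lit 0, nat_lit 0, nat_lit 0], [], [nat_lit 6321463999, nat_lit 6827662000, nat_lit 0, nat_lit 507102000], nat_lit 1271250, nat_lit 1271250, nat_lit 43600, nat_lit 65850, nat_lit 0, nat_lit 0, [nat_lit 631250, nat_lit 1271250, nat_lit 1271250, nat_lit 1271250], [nat_lit 91, nat_lit 40, nat_lit 20, nat_lit 40]⟩,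
 ⟨nat_lit 6519, nat_lit 6539, ⟨.ofNat (nat_lit 125994), .ofNat (nat_lit 134432), .ofNat (nat_lit 127064), .ofNat (nat_lit 135502), .ofNat (nat_lit 126924), .ofNat (nat_lit 135342), .ofNat (nat_lit 127994), .ofNat (nat_lit 136412)⟩, ⟨.ofNat (nat_lit 0), .ofNat (nat_lit 0), .ofNat (nat_lit 0), .ofNat (nat_lit 0), .ofNat (nat_lit 0), .ofNat (nat_lit 0), .ofNat (nat_lit 0), .ofNat (nat_lit 0)⟩⟩, [⟨nat_lit 0, nat_lit 100, nat_lit 100, nat_lit 30, nat_lit 10000000000⟩, ⟨nat_lit 0, nat_lit 100, nat_lit 100, nat_lit 29, nat_lit 10000000000⟩, ⟨nat_lit 13, nat_lit 100, nat_lit 1, nat_lit 100, nat_lit 17489903⟩]⟩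
noncomputable def p007_l105 : Lf2 := ⟨nat_lit 0, nat_lit 5, [nat_lit 4, nat_lit 5, nat_lit 5, nat_lit 20], false, nat_lit 0, nat_lit 0, nat_lit 0, nat_lit 0, ⟨nat_lit 0, nat_lit 0, nat_lit 1000, nat_lit 5, nat_lit 52, nat_lit 0, nat_lit 0, nat_lit 0, nat_lit 0, nat_lit 215, nat_lit 25350, nat_lit 254, nat_lit 65866080, nat_lit 0, nat_lit 0, nat_lit 428996, false, false⟩,
 nat_lit 100000, nat_lit 100000, nat_lit 100000, nat_lit 100000, nat_lit 100000, nat_lit 100000, nat_lit 0, nat_lit 5363, nat_lit 0, nat_lit 43526, nat_lit 4489, nat_lit 0, nat_lit 0, nat_lit 400000000000000, nat_lit 0, nat_lit 1000000, nat_lit 0, nat_lit 0, [(nat_lit 3, [(nat_lit 6, nat_lit 1000)])],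
 ⟨p007_k8, nat_lit 0, nat_lit 0, nat_lit 0, nat_lit 0, nat_lit 81461, [nat_lit 108301142858, nat_lit 127451600001, nat_lit 146967600000], [], [nat_lit 243840034020, nat_lit 244402847801, nat_lit 236608794339, nat_lit 237012031258], nat_lit 1271250, nat_lit 1271250, nat_lit 43600, nat_lit 65850, nat_lit 0, nat_lit 0, [nat_lit 1412500, nat_lit 1271250, nat_lit 1271250], [nat_lit 25, nat_lit 40, nat_lit 20, nat_lit 80]⟩, ⟨p007_k8, nat_lit 0, nat_lit 0, nat_lit 0, nat_lit 0, nat_lit 81461, [nat_lit 89780000000, nat_lit 107736000000, nat_lit 125692000000], [], [nat_lit 89113034500, nat_lit 89588862501, nat_lit 83151786501, nat_lit 83548962500], nat_lit 1271250, nat_lit 1271250, nat_lit 43600, nat_lit 65850, nat_lit 0, nat_lit 0, [nat_lit 1412500, nat_lit 1271250, nat_lit 1271250], [nat_lit 25, nat_lit 40, nat_lit 20, nat_lit 80]⟩,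
 ⟨nat_lit 6519, nat_lit 6539, ⟨.ofNat (nat_lit 125994), .ofNat (nat_lit 134432), .ofNat (nat_lit 127064), .ofNat (nat_lit 135502), .ofNat (nat_lit 126924), .ofNat (nat_lit 135342), .ofNat (nat_lit 127994), .ofNat (nat_lit 136412)⟩, ⟨.ofNat (nat_lit 0), .ofNat (nat_lit 0), .ofNat (nat_lit 0), .ofNat (nat_lit 0), .ofNat (nat_lit 0), .ofNat (nat_lit 0), .ofNat (nat_lit 0), .ofNat (nat_lit 0)⟩⟩, [⟨nat_lit 0, nat_lit 100, nat_lit 100, nat_lit 29, nat_lit 10000000000⟩, ⟨nat_lit 0, nat_lit 100, nat_lit 100, nat_lit 30, nat_lit 10000000000⟩, ⟨nat_lit 0, nat_lit 100, nat_lit 100, nat_lit 29, nat_lit 10000000000⟩]⟩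
noncomputable def p007_l106 : Lf2 := ⟨nat_lit 0, nat_lit 5, [nat_lit 4, nat_lit 5, nat_lit 5, nat_lit 20], true, nat_lit 0, nat_lit 0, nat_lit 0, nat_lit 0, ⟨nat_lit 0, nat_lit 0, nat_lit 1000, nat_lit 5, nat_lit 52, nat_lit 0, nat_lit 0, nat_lit 0, nat_lit 0, nat_lit 215, nat_lit 25350, nat_lit 254, nat_lit 65866080, nat_lit 0, nat_lit 0, nat_lit 428996, false, false⟩,
 nat_lit 0, nat_lit 100000, nat_lit 0, nat_lit 0, nat_lit 50109, nat_lit 0, nat_lit 8003, nat_lit 166, nat_lit 0, nat_lit 0, nat_lit 0, nat_lit 0, nat_lit 0, nat_lit 0, nat_lit 0, nat_lit 400000, nat_lit 15561779726, nat_lit 0, [(nat_lit 3, [(nat_lit 5, nat_lit 1000)])],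
 ⟨p007_k7, nat_lit 0, nat_lit 0, nat_lit 0, nat_lit 0, nat_lit 81461, [nat_lit 2591600001, nat_lit 3627600001, nat_lit 3429600001, nat_lit 2970000000], [], [nat_lit 2976809949, nat_lit 3179703181, nat_lit 0, nat_lit 203962403], nat_lit 1271250, nat_lit 1271250, nat_lit 43600, nat_lit 65850, nat_lit 0, nat_lit 0, [nat_lit 631250, nat_lit 1271250, nat_lit 1271250, nat_lit 1271250], [nat_lit 91, nat_lit 40, nat_lit 20, nat_lit 40]⟩, C1.Rw.none,
 ⟨nat_lit 6519, nat_lit 6539, ⟨.ofNat (nat_lit 125994), .ofNat (nat_lit 134432), .ofNat (nat_lit 127064), .ofNat (nat_lit 135502), .ofNat (nat_lit 126924), .ofNat (nat_lit 135342), .ofNat (nat_lit 127994), .ofNat (nat_lit 136412)⟩, ⟨.ofNat (nat_lit 0), .ofNat (nat_lit 0), .ofNat (nat_lit 0), .ofNat (nat_lit 0), .ofNat (nat_lit 0), .ofNat (nat_lit 0), .ofNat (nat_lit 0), .ofNat (nat_lit 0)⟩⟩, [⟨nat_lit 0, nat_lit 100, nat_lit 100, nat_lit 30, nat_lit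 3824738749⟩]⟩
noncomputable def p007_l107 : Lf2 := ⟨nat_lit 0, nat_lit 5, [nat_lit 4, nat_lit 5, nat_lit 5, nat_lit 20], true, nat_lit 0, nat_lit 0, nat_lit 0, nat_lit 0, ⟨nat_lit 0, nat_lit 0, nat_lit 1000, nat_lit 5, nat_lit 52, nat_lit 0, nat_lit 0, nat_lit 0, nat_lit 0, nat_lit 215, nat_lit 25350, nat_lit 254, nat_lit 65866080, nat_lit 0, nat_lit 0, nat_lit 428996, false, false⟩,
 nat_lit 0, nat_lit 100000, nat_lit 0, nat_lit 0, nat_lit 50109, nat_lit 0, nat_lit 8003, nat_lit 166, nat_lit 0, nat_lit 0, nat_lit 0, nat_lit 0, nat_lit 0, nat_lit 0, nat_lit 0, nat_lit 400000, nat_lit 15561779726, nat_lit 0, [(nat_lit 3, [(nat_lit 5, nat_lit 1000)])],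
 ⟨p007_k7, nat_lit 0, nat_lit 0, nat_lit 0, nat_lit 0, nat_lit 81461, [nat_lit 2591600001, nat_lit 3627600001, nat_lit 3429600001, nat_lit 2970000000], [], [nat_lit 2976809949, nat_lit 3179703181, nat_lit 0, nat_lit 203962403], nat_lit 1271250, nat_lit 1271250, nat_lit 43600, nat_lit 65850, nat_lit 0, nat_lit 0, [nat_lit 631250, nat_lit 1271250, nat_lit 1271250, nat_lit 1271250], [nat_lit 91, nat_lit 40, nat_lit 20, nat_lit 40]⟩, C1.Rw.none,
 ⟨nat_lit 6519, nat_lit 6539, ⟨.ofNat (nat_lit 125994), .ofNat (nat_lit 134432), .ofNat (nat_lit 127064), .ofNat (nat_lit 135502), .ofNat (nat_lit 126924), .ofNat (nat_lit 135342), .ofNat (nat_lit 127994), .ofNat (nat_lit 136412)⟩, ⟨.ofNat (nat_lit 0), .ofNat (nat_lit 0), .ofNat (nat_lit 0), .ofNat (nat_lit 0), .ofNat (nat_lit 0), .ofNat (nat_lit 0), .ofNat (nat_lit 0), .ofNat (nat_lit 0)⟩⟩, [⟨nat_lit 0, nat_lit 100, nat_lit 100, nat_lit 30, nat_lit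 3824738749⟩]⟩
noncomputable def p007_l108 : Lf2 := ⟨nat_lit 0, nat_lit 5, [nat_lit 4, nat_lit 5, nat_lit 5, nat_lit 20], false, nat_lit 0, nat_lit 0, nat_lit 0, nat_lit 0, ⟨nat_lit 0, nat_lit 0, nat_lit 1000, nat_lit 5, nat_lit 52, nat_lit 0, nat_lit 0, nat_lit 0, nat_lit 0, nat_lit 215, nat_lit 25350, nat_lit 254, nat_lit 65866080, nat_lit 0, nat_lit 0, nat_lit 428996, false, false⟩,
 nat_lit 100000, nat_lit 100000, nat_lit 100000, nat_lit 100000, nat_lit 100000, nat_lit 100000, nat_lit 19615, nat_lit 4931, nat_lit 0, nat_lit 60000, nat_lit 4489, nat_lit 0, nat_lit 0, nat_lit 400000000000000, nat_lit 0, nat_lit 1000000, nat_lit 0, nat_lit 0, [(nat_lit 3, [(nat_lit 6, nat_lit 1000)])],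
 ⟨p007_k8, nat_lit 0, nat_lit 0, nat_lit 0, nat_lit 0, nat_lit 81461, [nat_lit 99661142858, nat_lit 117083600001, nat_lit 134871600000], [], [nat_lit 177189815270, nat_lit 177752629051, nat_lit 170142282379, nat_lit 170355765450], nat_lit 1271250, nat_lit 1271250, nat_lit 43600, nat_lit 65850, nat_lit 0, nat_lit 0, [nat_lit 1412500, nat_lit 1271250, nat_lit 1271250], [nat_lit 25, nat_lit 40, nat_lit 20, nat_lit 80]⟩, ⟨p007_k8, nat_lit 0, nat_lit 0, nat_lit 0, nat_lit 0, nat_lit 81461, [nat_lit 89780000000, nat_lit 107736000000, nat_lit 125692000000], [], [nat_lit 70064972000, nat_lit 70540800001, nat_lit 64103724001, nat_lit 64500900000], nat_lit 1271250, nat_lit 1271250, nat_lit 43600, nat_lit 65850, nat_lit 0, nat_lit 0, [nat_lit 1412500, nat_lit 1271250, nat_lit 1271250], [nat_lit 25, nat_lit 40, nat_lit 20, nat_lit 80]⟩,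
 ⟨nat_lit 6519, nat_lit 6539, ⟨.ofNat (nat_lit 125994), .ofNat (nat_lit 134432), .ofNat (nat_lit 127064), .ofNat (nat_lit 135502), .ofNat (nat_lit 126924), .ofNat (nat_lit 135342), .ofNat (nat_lit 127994), .ofNat (nat_lit 136412)⟩, ⟨.ofNat (nat_lit 0), .ofNat (nat_lit 0), .ofNat (nat_lit 0), .ofNat (nat_lit 0), .ofNat (nat_lit 0), .ofNat (nat_lit 0), .ofNat (nat_lit 0), .ofNat (nat_lit 0)⟩⟩, [⟨nat_lit 0, nat_lit 100, nat_lit 100, nat_lit 29, nat_lit 10000000000⟩, ⟨nat_lit 0, nat_lit 100, nat_lit 100, nat_lit 30, nat_lit 10000000000⟩, ⟨nat_lit 0, nat_lit 100, nat_lit 100, nat_lit 29, nat_lit 10000000000⟩, ⟨nat_lit 13, nat_lit 100, nat_lit 1, nat_lit 100, nat_lit 78735536⟩]⟩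
noncomputable def p007_l109 : Lf2 := ⟨nat_lit 0, nat_lit 5, [nat_lit 4, nat_lit 5, nat_lit 5, nat_lit 20], true, nat_lit 0, nat_lit 0, nat_lit 0, nat_lit 0, ⟨nat_lit 0, nat_lit 0, nat_lit 1000, nat_lit 5, nat_lit 52, nat_lit 0, nat_lit 0, nat_lit 0, nat_lit 0, nat_lit 215, nat_lit 25350, nat_lit 254, nat_lit 65866080, nat_lit 0, nat_lit 0, nat_lit 428996, false, false⟩,
 nat_lit 0, nat_lit 100000, nat_lit 0, nat_lit 0, nat_lit 50109, nat_lit 0, nat_lit 8003, nat_lit 166, nat_lit 0, nat_lit 0, nat_lit 0, nat_lit 0, nat_lit 0, nat_lit 0, nat_lit 0, nat_lit 400000, nat_lit 15561779726, nat_lit 0, [(nat_lit 3, [(nat_lit 5, nat_lit 1000)])],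
 ⟨p007_k7, nat_lit 0, nat_lit 0, nat_lit 0, nat_lit 0, nat_lit 81461, [nat_lit 2591600001, nat_lit 3627600001, nat_lit 3429600001, nat_lit 2970000000], [], [nat_lit 2976809949, nat_lit 3179703181, nat_lit 0, nat_lit 203962403], nat_lit 1271250, nat_lit 1271250, nat_lit 43600, nat_lit 65850, nat_lit 0, nat_lit 0, [nat_lit 631250, nat_lit 1271250, nat_lit 1271250, nat_lit 1271250], [nat_lit 91, nat_lit 40, nat_lit 20, nat_lit 40]⟩, C1.Rw.none,
 ⟨nat_lit 6519, nat_lit 6539, ⟨.ofNat (nat_lit 125994), .ofNat (nat_lit 134432), .ofNat (nat_lit 127064), .ofNat (nat_lit 135502), .ofNat (nat_lit 126924), .ofNat (nat_lit 135342), .ofNat (nat_lit 127994), .ofNat (nat_lit 136412)⟩, ⟨.ofNat (nat_lit 0), .ofNat (nat_lit 0), .ofNat (nat_lit 0), .ofNat (nat_lit 0), .ofNat (nat_lit 0), .ofNat (nat_lit 0), .ofNat (nat_lit 0), .ofNat (nat_lit 0)⟩⟩, [⟨nat_lit 0, nat_lit 100, nat_lit 100, nat_lit 30, nat_lit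 3824738749⟩]⟩
noncomputable def p007_l110 : Lf2 := ⟨nat_lit 0, nat_lit 5, [nat_lit 4, nat_lit 5, nat_lit 5, nat_lit 20], true, nat_lit 0, nat_lit 0, nat_lit 0, nat_lit 0, ⟨nat_lit 0, nat_lit 0, nat_lit 1000, nat_lit 5, nat_lit 52, nat_lit 0, nat_lit 0, nat_lit 0, nat_lit 0, nat_lit 215, nat_lit 25350, nat_lit 254, nat_lit 65866080, nat_lit 0, nat_lit 0, nat_lit 428996, false, false⟩,
 nat_lit 0, nat_lit 100000, nat_lit 0, nat_lit 0, nat_lit 50109, nat_lit 0, nat_lit 8003, nat_lit 166, nat_lit 0, nat_lit 0, nat_lit 0, nat_lit 0, nat_lit 0, nat_lit 0, nat_lit 0, nat_lit 400000, nat_lit 15561779726, nat_lit 0, [(nat_lit 3, [(nat_lit 5, nat_lit 1000)])],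
 ⟨p007_k7, nat_lit 0, nat_lit 0, nat_lit 0, nat_lit 0, nat_lit 81461, [nat_lit 2591600001, nat_lit 3627600001, nat_lit 3429600001, nat_lit 2970000000], [], [nat_lit 2976809949, nat_lit 3179703181, nat_lit 0, nat_lit 203962403], nat_lit 1271250, nat_lit 1271250, nat_lit 43600, nat_lit 65850, nat_lit 0, nat_lit 0, [nat_lit 631250, nat_lit 1271250, nat_lit 1271250, nat_lit 1271250], [nat_lit 91, nat_lit 40, nat_lit 20, nat_lit 40]⟩, C1.Rw.none,
 ⟨nat_lit 6519, nat_lit 6539, ⟨.ofNat (nat_lit 125994), .ofNat (nat_lit 134432), .ofNat (nat_lit 127064), .ofNat (nat_lit 135502), .ofNat (nat_lit 126924), .ofNat (nat_lit 135342), .ofNat (nat_lit 127994), .ofNat (nat_lit 136412)⟩, ⟨.ofNat (nat_lit 0), .ofNat (nat_lit 0), .ofNat (nat_lit 0), .ofNat (nat_lit 0), .ofNat (nat_lit 0), .ofNat (nat_lit 0), .ofNat (nat_lit 0), .ofNat (nat_lit 0)⟩⟩, [⟨nat_lit 0, nat_lit 100, nat_lit 100, nat_lit 30, nat_lit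 3824738749⟩]⟩
noncomputable def p007_l111 : Lf2 := ⟨nat_lit 0, nat_lit 5, [nat_lit 4, nat_lit 5, nat_lit 5, nat_lit 20], false, nat_lit 0, nat_lit 0, nat_lit 0, nat_lit 0, ⟨nat_lit 0, nat_lit 0, nat_lit 1000, nat_lit 5, nat_lit 52, nat_lit 0, nat_lit 0, nat_lit 0, nat_lit 0, nat_lit 215, nat_lit 25350, nat_lit 254, nat_lit 65866080, nat_lit 0, nat_lit 0, nat_lit 428996, false, false⟩,
 nat_lit 100000, nat_lit 100000, nat_lit 100000, nat_lit 100000, nat_lit 100000, nat_lit 100000, nat_lit 19615, nat_lit 4931, nat_lit 0, nat_lit 60000, nat_lit 4489, nat_lit 0, nat_lit 0, nat_lit 400000000000000, nat_lit 0, nat_lit 1000000, nat_lit 0, nat_lit 0, [(nat_lit 3, [(nat_lit 6, nat_lit 1000)])],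
 ⟨p007_k8, nat_lit 0, nat_lit 0, nat_lit 0, nat_lit 0, nat_lit 81461, [nat_lit 99661142858, nat_lit 117083600001, nat_lit 134871600000], [], [nat_lit 177189815270, nat_lit 177752629051, nat_lit 170142282379, nat_lit 170355765450], nat_lit 1271250, nat_lit 1271250, nat_lit 43600, nat_lit 65850, nat_lit 0, nat_lit 0, [nat_lit 1412500, nat_lit 1271250, nat_lit 1271250], [nat_lit 25, nat_lit 40, nat_lit 20, nat_lit 80]⟩, ⟨p007_k8, nat_lit 0, nat_lit 0, nat_lit 0, nat_lit 0, nat_lit 81461, [nat_lit 89780000000, nat_lit 107736000000, nat_lit 125692000000], [], [nat_lit 70064972000, nat_lit 70540800001, nat_lit 64103724001, nat_lit 64500900000], nat_lit 1271250, nat_lit 1271250, nat_lit 43600, nat_lit 65850, nat_lit 0, nat_lit 0, [nat_lit 1412500, nat_lit 1271250, nat_lit 1271250], [nat_lit 25, nat_lit 40, nat_lit 20, nat_lit 80]⟩,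
 ⟨nat_lit 6519, nat_lit 6539, ⟨.ofNat (nat_lit 125994), .ofNat (nat_lit 134432), .ofNat (nat_lit 127064), .ofNat (nat_lit 135502), .ofNat (nat_lit 126924), .ofNat (nat_lit 135342), .ofNat (nat_lit 127994), .ofNat (nat_lit 136412)⟩, ⟨.ofNat (nat_lit 0), .ofNat (nat_lit 0), .ofNat (nat_lit 0), .ofNat (nat_lit 0), .ofNat (nat_lit 0), .ofNat (nat_lit 0), .ofNat (nat_lit 0), .ofNat (nat_lit 0)⟩⟩, [⟨nat_lit 0, nat_lit 100, nat_lit 100, nat_lit 29, nat_lit 10000000000⟩, ⟨nat_lit 0, nat_lit 100, nat_lit 100, nat_lit 30, nat_lit 10000000000⟩, ⟨nat_lit 0, nat_lit 100, nat_lit 100, nat_lit 29, nat_lit 10000000000⟩, ⟨nat_lit 13, nat_lit 100, nat_lit 1, nat_lit 100, nat_lit 205830635⟩]⟩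
noncomputable def p007_l112 : Lf2 := ⟨nat_lit 0, nat_lit 5, [nat_lit 4, nat_lit 5, nat_lit 5, nat_lit 20], true, nat_lit 0, nat_lit 0, nat_lit 0, nat_lit 0, ⟨nat_lit 0, nat_lit 0, nat_lit 1000, nat_lit 5, nat_lit 52, nat_lit 0, nat_lit 0, nat_lit 0, nat_lit 0, nat_lit 215, nat_lit 25350, nat_lit 254, nat_lit 65866080, nat_lit 0, nat_lit 0, nat_lit 428996, false, false⟩,
 nat_lit 0, nat_lit 100000, nat_lit 0, nat_lit 0, nat_lit 50109, nat_lit 0, nat_lit 12515, nat_lit 2461, nat_lit 0, nat_lit 0, nat_lit 0, nat_lit 0, nat_lit 0, nat_lit 142308126653729, nat_lit 0, nat_lit 400000, nat_lit 0, nat_lit 0, [(nat_lit 3, [(nat_lit 5, nat_lit 1000)])],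
 ⟨p007_k4, nat_lit 0, nat_lit 0, nat_lit 0, nat_lit 0, nat_lit 81461, [nat_lit 45711360000, nat_lit 53919600001, nat_lit 67230000000], [], [nat_lit 88079130223, nat_lit 88281891873, nat_lit 85564474804, nat_lit 85763003095], nat_lit 1271250, nat_lit 1271250, nat_lit 43600, nat_lit 65850, nat_lit 0, nat_lit 0, [nat_lit 1271250, nat_lit 1271250, nat_lit 1271250], [nat_lit 103, nat_lit 40, nat_lit 20, nat_lit 40]⟩, C1.Rw.none,
 ⟨nat_lit 6519, nat_lit 6539, ⟨.ofNat (nat_lit 125994), .ofNat (nat_lit 134432), .ofNat (nat_lit 127064), .ofNat (nat_lit 135502), .ofNat (nat_lit 126924), .ofNat (nat_lit 135342), .ofNat (nat_lit 127994), .ofNat (nat_lit 136412)⟩, ⟨.ofNat (nat_lit 0), .ofNat (nat_lit 0), .ofNat (nat_lit 0), .ofNat (nat_lit 0), .ofNat (nat_lit 0), .ofNat (nat_lit 0), .ofNat (nat_lit 0), .ofNat (nat_lit 0)⟩⟩, [⟨nat_lit 0, nat_lit 100, nat_lit 100, nat_lit 30, nat_lit 3247979389⟩]⟩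
noncomputable def b_NL_550_550_0_35 : St := ⟨false, nat_lit 1, nat_lit 1, nat_lit 1, nat_lit 20, nat_lit 228, nat_lit 230, nat_lit 228, nat_lit 230, nat_lit 8, nat_lit 12, nat_lit 0, nat_lit 0, nat_lit 0, nat_lit 0, nat_lit 0, nat_lit 0, nat_lit 20, nat_lit 24, nat_lit 300, nat_lit 600, nat_lit 0, nat_lit 800⟩
theorem d_NL_550_550_0_35 (h : EB TB.env) : Dead b_NL_550_550_0_35 := chkB_sound0 h (T :=
(.spl (nat_lit 0) (nat_lit 229)
(.ord (.spl (nat_lit 7) (nat_lit 460)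
(.spl (nat_lit 7) (nat_lit 380)
(.leaf p007_l81)
(.spl (nat_lit 7) (nat_lit 420)
(.spl (nat_lit 7) (nat_lit 400)
(.leaf p007_l82)
(.spl (nat_lit 8) (nat_lit 400)
(.leaf p007_l83)
(.spl (nat_lit 8) (nat_lit 600)
(.leaf p007_l84)
(.leaf p007_l85))))
(.spl (nat_lit 7) (nat_lit 440)
(.leaf p007_l86)
(.spl (nat_lit 8) (nat_lit 400)
(.leaf p007_l87)
(.spl (nat_lit 8) (nat_lit 600)
(.leaf p007_l88)
(.leaf p007_l89))))))
(.leaf p007_l90)))
(.spl (nat_lit 1) (nat_lit 229)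
(.spl (nat_lit 7) (nat_lit 460)
(.spl (nat_lit 7) (nat_lit 380)
(.leaf p007_l91)
(.spl (nat_lit 7) (nat_lit 420)
(.spl (nat_lit 7) (nat_lit 400)
(.leaf p007_l92)
(.spl (nat_lit 8) (nat_lit 400)
(.leaf p007_l93)
(.spl (nat_lit 8) (nat_lit 600)
(.leaf p007_l94)
(.leaf p007_l95))))
(.spl (nat_lit 7) (nat_lit 440)
(.leaf p007_l96)
(.spl (nat_lit 8) (nat_lit 400)
(.leaf p007_l97)
(.spl (nat_lit 8) (nat_lit 600)
(.leaf p007_l98)
(.leaf p007_l99))))))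
(.leaf p007_l100))
(.spl (nat_lit 7) (nat_lit 460)
(.spl (nat_lit 7) (nat_lit 380)
(.leaf p007_l101)
(.spl (nat_lit 7) (nat_lit 420)
(.spl (nat_lit 7) (nat_lit 400)
(.leaf p007_l102)
(.spl (nat_lit 8) (nat_lit 400)
(.leaf p007_l103)
(.spl (nat_lit 8) (nat_lit 600)
(.leaf p007_l104)
(.leaf p007_l105))))
(.spl (nat_lit 7) (nat_lit 440)
(.spl (nat_lit 8) (nat_lit 400)
(.leaf p007_l106)
(.spl (nat_lit 8) (nat_lit 600)
(.leaf p007_l107)
(.leaf p007_l108)))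
(.spl (nat_lit 8) (nat_lit 400)
(.leaf p007_l109)
(.spl (nat_lit 8) (nat_lit 600)
(.leaf p007_l110)
(.leaf p007_l111))))))
(.leaf p007_l112))))) (by decide +kernel)
noncomputable def p007_l113 : Lf2 := ⟨nat_lit 0, nat_lit 5, [nat_lit 4, nat_lit 5, nat_lit 5, nat_lit 20], true, nat_lit 0, nat_lit 0, nat_lit 0, nat_lit 0, ⟨nat_lit 0, nat_lit 0, nat_lit 1000, nat_lit 5, nat_lit 54, nat_lit 0, nat_lit 0, nat_lit 0, nat_lit 0, nat_lit 215, nat_lit 28017, nat_lit 256, nat_lit 65782220, nat_lit 0, nat_lit 0, nat_lit 454196, false, false⟩,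
 nat_lit 0, nat_lit 8272, nat_lit 0, nat_lit 0, nat_lit 4123, nat_lit 0, nat_lit 343, nat_lit 0, nat_lit 0, nat_lit 0, nat_lit 0, nat_lit 0, nat_lit 0, nat_lit 0, nat_lit 115, nat_lit 1000000, nat_lit 0, nat_lit 0, [(nat_lit 3, [(nat_lit 6, nat_lit 1000)])],
 ⟨p007_k0, nat_lit 0, nat_lit 0, nat_lit 0, nat_lit 0, nat_lit 73379, [nat_lit 3007028572, nat_lit 2237600001, nat_lit 23600000], [], [nat_lit 12663137389, nat_lit 12710871277, nat_lit 12459003357, nat_lit 12509314085], nat_lit 1271250, nat_lit 1271250, nat_lit 65850, nat_lit 88400, nat_lit 0, nat_lit 0, [nat_lit 1271250, nat_lit 1271250, nat_lit 1271250], [nat_lit 103, nat_lit 40, nat_lit 20, nat_lit 40]⟩, C1.Rw.none,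
 ⟨nat_lit 6538, nat_lit 6558, ⟨.ofNat (nat_lit 129239), .ofNat (nat_lit 137697), .ofNat (nat_lit 133520), .ofNat (nat_lit 141978), .ofNat (nat_lit 130152), .ofNat (nat_lit 138590), .ofNat (nat_lit 134432), .ofNat (nat_lit 142871)⟩, ⟨.ofNat (nat_lit 0), .ofNat (nat_lit 0), .ofNat (nat_lit 0), .ofNat (nat_lit 0), .ofNat (nat_lit 0), .ofNat (nat_lit 0), .ofNat (nat_lit 0), .ofNat (nat_lit 0)⟩⟩, []⟩
noncomputable def p007_l114 : Lf2 := ⟨nat_lit 0, nat_lit 5, [nat_lit 4, nat_lit 5, nat_lit 5, nat_lit 20], true, nat_lit 0, nat_lit 0, nat_lit 0, nat_lit 0, ⟨nat_lit 0, nat_lit 0, nat_lit 1000, nat_lit 5, nat_lit 55, nat_lit 0, nat_lit 0, nat_lit 0, nat_lit 0, nat_lit 215, nat_lit 28017, nat_lit 256, nat_lit 65756846, nat_lit 0, nat_lit 0, nat_lit 461733, false, false⟩,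
 nat_lit 0, nat_lit 5317, nat_lit 0, nat_lit 0, nat_lit 2664, nat_lit 0, nat_lit 0, nat_lit 0, nat_lit 101, nat_lit 0, nat_lit 0, nat_lit 0, nat_lit 0, nat_lit 20650602020915, nat_lit 100, nat_lit 841000, nat_lit 0, nat_lit 0, [(nat_lit 3, [(nat_lit 5, nat_lit 265), (nat_lit 6, nat_lit 735)])],
 ⟨p007_k4, nat_lit 0, nat_lit 0, nat_lit 0, nat_lit 0, nat_lit 81461, [nat_lit 2863256400, nat_lit 1926150001, nat_lit 5976000], [], [nat_lit 10114354794, nat_lit 10160906127, nat_lit 9998956497, nat_lit 10047014018], nat_lit 1271250, nat_lit 1271250, nat_lit 65850, nat_lit 88400, nat_lit 0, nat_lit 0, [nat_lit 1271250, nat_lit 1271250, nat_lit 1271250], [nat_lit 103, nat_lit 40, nat_lit 20, nat_lit 40]⟩, C1.Rw.none,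
 ⟨nat_lit 6519, nat_lit 6539, ⟨.ofNat (nat_lit 130152), .ofNat (nat_lit 138590), .ofNat (nat_lit 135502), .ofNat (nat_lit 143941), .ofNat (nat_lit 131063), .ofNat (nat_lit 139482), .ofNat (nat_lit 136412), .ofNat (nat_lit 144831)⟩, ⟨.ofNat (nat_lit 0), .ofNat (nat_lit 0), .ofNat (nat_lit 0), .ofNat (nat_lit 0), .ofNat (nat_lit 0), .ofNat (nat_lit 0), .ofNat (nat_lit 0), .ofNat (nat_lit 0)⟩⟩, []⟩
noncomputable def p007_l115 : Lf2 := ⟨nat_lit 0, nat_lit 5, [nat_lit 4, nat_lit 5, nat_lit 5, nat_lit 20], true, nat_lit 0, nat_lit 0, nat_lit 0, nat_lit 0, ⟨nat_lit 0, nat_lit 0, nat_lit 1000, nat_lit 5, nat_lit 55, nat_lit 0, nat_lit 0, nat_lit 0, nat_lit 0, nat_lit 215, nat_lit 28017, nat_lit 256, nat_lit 65775767, nat_lit 0, nat_lit 0, nat_lit 456117, false, false⟩,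
 nat_lit 0, nat_lit 8215, nat_lit 0, nat_lit 0, nat_lit 4116, nat_lit 0, nat_lit 338, nat_lit 0, nat_lit 0, nat_lit 0, nat_lit 0, nat_lit 0, nat_lit 0, nat_lit 0, nat_lit 115, nat_lit 1000000, nat_lit 0, nat_lit 0, [(nat_lit 3, [(nat_lit 6, nat_lit 1000)])],
 ⟨p007_k4, nat_lit 0, nat_lit 0, nat_lit 0, nat_lit 0, nat_lit 73001, [nat_lit 3007028572, nat_lit 2237600001, nat_lit 23600000], [], [nat_lit 12712510792, nat_lit 12761581551, nat_lit 12508800200, nat_lit 12560867454], nat_lit 1271250, nat_lit 1271250, nat_lit 65850, nat_lit 88400, nat_lit 0, nat_lit 0, [nat_lit 1271250, nat_lit 1271250, nat_lit 1271250], [nat_lit 103, nat_lit 40, nat_lit 20, nat_lit 40]⟩, C1.Rw.none,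
 ⟨nat_lit 6519, nat_lit 6539, ⟨.ofNat (nat_lit 130152), .ofNat (nat_lit 138590), .ofNat (nat_lit 133362), .ofNat (nat_lit 141801), .ofNat (nat_lit 131063), .ofNat (nat_lit 139482), .ofNat (nat_lit 134272), .ofNat (nat_lit 142691)⟩, ⟨.ofNat (nat_lit 0), .ofNat (nat_lit 0), .ofNat (nat_lit 0), .ofNat (nat_lit 0), .ofNat (nat_lit 0), .ofNat (nat_lit 0), .ofNat (nat_lit 0), .ofNat (nat_lit 0)⟩⟩, []⟩
noncomputable def p007_l116 : Lf2 := ⟨nat_lit 0, nat_lit 5, [nat_lit 4, nat_lit 5, nat_lit 5, nat_lit 20], true, nat_lit 0, nat_lit 0, nat_lit 0, nat_lit 0, ⟨nat_lit 0, nat_lit 0, nat_lit 1000, nat_lit 5, nat_lit 55, nat_lit 0, nat_lit 0, nat_lit 0, nat_lit 0, nat_lit 215, nat_lit 29400, nat_lit 257, nat_lit 65737790, nat_lit 0, nat_lit 0, nat_lit 467367, false, false⟩,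
 nat_lit 0, nat_lit 8215, nat_lit 0, nat_lit 0, nat_lit 4116, nat_lit 0, nat_lit 338, nat_lit 0, nat_lit 0, nat_lit 0, nat_lit 0, nat_lit 0, nat_lit 0, nat_lit 0, nat_lit 115, nat_lit 1000000, nat_lit 0, nat_lit 0, [(nat_lit 3, [(nat_lit 6, nat_lit 1000)])],
 ⟨p007_k4, nat_lit 0, nat_lit 0, nat_lit 0, nat_lit 0, nat_lit 77231, [nat_lit 3007028572, nat_lit 2237600001, nat_lit 23600000], [], [nat_lit 12712510792, nat_lit 12761581551, nat_lit 12508800200, nat_lit 12560867454], nat_lit 1271250, nat_lit 1271250, nat_lit 65850, nat_lit 88400, nat_lit 0, nat_lit 0, [nat_lit 1271250, nat_lit 1271250, nat_lit 1271250], [nat_lit 103, nat_lit 40, nat_lit 20, nat_lit 40]⟩, C1.Rw.none,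
 ⟨nat_lit 6519, nat_lit 6539, ⟨.ofNat (nat_lit 133362), .ofNat (nat_lit 141801), .ofNat (nat_lit 134432), .ofNat (nat_lit 142871), .ofNat (nat_lit 134272), .ofNat (nat_lit 142691), .ofNat (nat_lit 135342), .ofNat (nat_lit 143761)⟩, ⟨.ofNat (nat_lit 0), .ofNat (nat_lit 0), .ofNat (nat_lit 0), .ofNat (nat_lit 0), .ofNat (nat_lit 0), .ofNat (nat_lit 0), .ofNat (nat_lit 0), .ofNat (nat_lit 0)⟩⟩, []⟩
noncomputable def p007_l117 : Lf2 := ⟨nat_lit 0, nat_lit 5, [nat_lit 4, nat_lit 5, nat_lit 5, nat_lit 20], true, nat_lit 0, nat_lit 0, nat_lit 0, nat_lit 0, ⟨nat_lit 0, nat_lit 0, nat_lit 1000, nat_lit 5, nat_lit 55, nat_lit 0, nat_lit 0, nat_lit 0, nat_lit 0, nat_lit 215, nat_lit 29400, nat_lit 257, nat_lit 65737790, nat_lit 0, nat_lit 0, nat_lit 467367, false, false⟩,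
 nat_lit 0, nat_lit 100000, nat_lit 0, nat_lit 0, nat_lit 50109, nat_lit 0, nat_lit 15519, nat_lit 2967, nat_lit 0, nat_lit 0, nat_lit 0, nat_lit 0, nat_lit 0, nat_lit 0, nat_lit 0, nat_lit 1000000, nat_lit 0, nat_lit 0, [(nat_lit 3, [(nat_lit 6, nat_lit 1000)])],
 ⟨p007_k4, nat_lit 0, nat_lit 0, nat_lit 0, nat_lit 0, nat_lit 77231, [nat_lit 54343028572, nat_lit 64981600000, nat_lit 79879600000], [], [nat_lit 88696458986, nat_lit 88937523484, nat_lit 85695401702, nat_lit 85939172672], nat_lit 1271250, nat_lit 1271250, nat_lit 65850, nat_lit 88400, nat_lit 0, nat_lit 0, [nat_lit 1271250, nat_lit 1271250, nat_lit 1271250], [nat_lit 103, nat_lit 40, nat_lit 20, nat_lit 40]⟩, C1.Rw.none,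
 ⟨nat_lit 6519, nat_lit 6539, ⟨.ofNat (nat_lit 133362), .ofNat (nat_lit 141801), .ofNat (nat_lit 134432), .ofNat (nat_lit 142871), .ofNat (nat_lit 134272), .ofNat (nat_lit 142691), .ofNat (nat_lit 135342), .ofNat (nat_lit 143761)⟩, ⟨.ofNat (nat_lit 0), .ofNat (nat_lit 0), .ofNat (nat_lit 0), .ofNat (nat_lit 0), .ofNat (nat_lit 0), .ofNat (nat_lit 0), .ofNat (nat_lit 0), .ofNat (nat_lit 0)⟩⟩, []⟩
noncomputable def p007_l118 : Lf2 := ⟨nat_lit 0, nat_lit 5, [nat_lit 4, nat_lit 5, nat_lit 5, nat_lit 20], true, nat_lit 0, nat_lit 0, nat_lit 0, nat_lit 0, ⟨nat_lit 0, nat_lit 0, nat_lit 1000, nat_lit 5, nat_lit 56, nat_lit 0, nat_lit 0, nat_lit 0, nat_lit 0, nat_lit 215, nat_lit 29400, nat_lit 257, nat_lit 65718596, nat_lit 0, nat_lit 0, nat_lit 473020, false, false⟩,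
 nat_lit 0, nat_lit 5058, nat_lit 0, nat_lit 0, nat_lit 2534, nat_lit 0, nat_lit 0, nat_lit 0, nat_lit 142, nat_lit 0, nat_lit 0, nat_lit 0, nat_lit 0, nat_lit 20232682042317, nat_lit 110, nat_lit 948400, nat_lit 0, nat_lit 0, [(nat_lit 3, [(nat_lit 5, nat_lit 86), (nat_lit 6, nat_lit 914)])],
 ⟨p007_k4, nat_lit 0, nat_lit 0, nat_lit 0, nat_lit 0, nat_lit 81461, [nat_lit 2957993075, nat_lit 2133620001, nat_lit 14182400], [], [nat_lit 8594243867, nat_lit 8644185620, nat_lit 8513530088, nat_lit 8553571771], nat_lit 1271250, nat_lit 1271250, nat_lit 65850, nat_lit 88400, nat_lit 0, nat_lit 0, [nat_lit 1271250, nat_lit 1271250, nat_lit 1271250], [nat_lit 103, nat_lit 40, nat_lit 20, nat_lit 40]⟩, C1.Rw.none,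
 ⟨nat_lit 6519, nat_lit 6539, ⟨.ofNat (nat_lit 134432), .ofNat (nat_lit 142871), .ofNat (nat_lit 135502), .ofNat (nat_lit 143941), .ofNat (nat_lit 135342), .ofNat (nat_lit 143761), .ofNat (nat_lit 136412), .ofNat (nat_lit 144831)⟩, ⟨.ofNat (nat_lit 0), .ofNat (nat_lit 0), .ofNat (nat_lit 0), .ofNat (nat_lit 0), .ofNat (nat_lit 0), .ofNat (nat_lit 0), .ofNat (nat_lit 0), .ofNat (nat_lit 0)⟩⟩, []⟩
noncomputable def p007_l119 : Lf2 := ⟨nat_lit 0, nat_lit 5, [nat_lit 4, nat_lit 5, nat_lit 5, nat_lit 20], true, nat_lit 0, nat_lit 0, nat_lit 0, nat_lit 0, ⟨nat_lit 0, nat_lit 0, nat_lit 1000, nat_lit 5, nat_lit 56, nat_lit 0, nat_lit 0, nat_lit 0, nat_lit 0, nat_lit 215, nat_lit 29400, nat_lit 257, nat_lit 65718596, nat_lit 0, nat_lit 0, nat_lit 473020, false, false⟩,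
 nat_lit 0, nat_lit 100000, nat_lit 0, nat_lit 0, nat_lit 50109, nat_lit 0, nat_lit 7582, nat_lit 0, nat_lit 0, nat_lit 0, nat_lit 0, nat_lit 0, nat_lit 0, nat_lit 0, nat_lit 115, nat_lit 1000000, nat_lit 25749062201, nat_lit 0, [(nat_lit 3, [(nat_lit 6, nat_lit 1000)])],
 ⟨p007_k7, nat_lit 0, nat_lit 0, nat_lit 0, nat_lit 0, nat_lit 81461, [nat_lit 1742533334, nat_lit 2935066667, nat_lit 2237600001, nat_lit 23600000], [], [nat_lit 2974011459, nat_lit 3247207378, nat_lit 0, nat_lit 273434438], nat_lit 1271250, nat_lit 1271250, nat_lit 65850, nat_lit 88400, nat_lit 0, nat_lit 0, [nat_lit 631250, nat_lit 1271250, nat_lit 1271250, nat_lit 1271250], [nat_lit 91, nat_lit 40, nat_lit 20, nat_lit 40]⟩, C1.Rw.none,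
 ⟨nat_lit 6519, nat_lit 6539, ⟨.ofNat (nat_lit 134432), .ofNat (nat_lit 142871), .ofNat (nat_lit 135502), .ofNat (nat_lit 143941), .ofNat (nat_lit 135342), .ofNat (nat_lit 143761), .ofNat (nat_lit 136412), .ofNat (nat_lit 144831)⟩, ⟨.ofNat (nat_lit 0), .ofNat (nat_lit 0), .ofNat (nat_lit 0), .ofNat (nat_lit 0), .ofNat (nat_lit 0), .ofNat (nat_lit 0), .ofNat (nat_lit 0), .ofNat (nat_lit 0)⟩⟩, []⟩
noncomputable def p007_l120 : Lf2 := ⟨nat_lit 0, nat_lit 5, [nat_lit 4, nat_lit 5, nat_lit 5, nat_lit 20], false, nat_lit 0, nat_lit 0, nat_lit 0, nat_lit 0, ⟨nat_lit 0, nat_lit 0, nat_lit 1000, nat_lit 5, nat_lit 56, nat_lit 0, nat_lit 0, nat_lit 0, nat_lit 0, nat_lit 215, nat_lit 29400, nat_lit 257, nat_lit 65718596, nat_lit 0, nat_lit 0, nat_lit 473020, false, false⟩,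
 nat_lit 7428, nat_lit 0, nat_lit 0, nat_lit 0, nat_lit 3722, nat_lit 2378, nat_lit 0, nat_lit 0, nat_lit 44, nat_lit 631, nat_lit 126, nat_lit 0, nat_lit 0, nat_lit 1565807658221, nat_lit 106, nat_lit 902800, nat_lit 0, nat_lit 0, [(nat_lit 3, [(nat_lit 5, nat_lit 162), (nat_lit 6, nat_lit 838)])],
 ⟨p007_k4, nat_lit 0, nat_lit 0, nat_lit 0, nat_lit 0, nat_lit 81461, [nat_lit 2922194263, nat_lit 2050940001, nat_lit 17580800], [], [nat_lit 12355944663, nat_lit 12407635428, nat_lit 12213588542, nat_lit 12257238588], nat_lit 1271250, nat_lit 1271250, nat_lit 65850, nat_lit 88400, nat_lit 0, nat_lit 0, [nat_lit 1271250, nat_lit 1271250, nat_lit 1271250], [nat_lit 103, nat_lit 40, nat_lit 20, nat_lit 40]⟩, ⟨p007_k4, nat_lit 0, nat_lit 0, nat_lit 0, nat_lit 0, nat_lit 81461, [nat_lit 2268000000, nat_lit 2772000000, nat_lit 3528000000], [], [nat_lit 3585265328, nat_lit 3597013558, nat_lit 3462680886,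 nat_lit 3470738929], nat_lit 1271250, nat_lit 1271250, nat_lit 65850, nat_lit 88400, nat_lit 0, nat_lit 0, [nat_lit 1271250, nat_lit 1271250, nat_lit 1271250], [nat_lit 103, nat_lit 40, nat_lit 20, nat_lit 40]⟩,
 ⟨nat_lit 6519, nat_lit 6539, ⟨.ofNat (nat_lit 134432), .ofNat (nat_lit 142871), .ofNat (nat_lit 135502), .ofNat (nat_lit 143941), .ofNat (nat_lit 135342), .ofNat (nat_lit 143761), .ofNat (nat_lit 136412), .ofNat (nat_lit 144831)⟩, ⟨.ofNat (nat_lit 0), .ofNat (nat_lit 0), .ofNat (nat_lit 0), .ofNat (nat_lit 0), .ofNat (nat_lit 0), .ofNat (nat_lit 0), .ofNat (nat_lit 0), .ofNat (nat_lit 0)⟩⟩, []⟩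
noncomputable def p007_l121 : Lf2 := ⟨nat_lit 2, nat_lit 5, [nat_lit 4, nat_lit 5, nat_lit 5, nat_lit 20], true, nat_lit 0, nat_lit 0, nat_lit 0, nat_lit 0, zbN0,
 nat_lit 0, nat_lit 0, nat_lit 0, nat_lit 0, nat_lit 0, nat_lit 0, nat_lit 0, nat_lit 0, nat_lit 0, nat_lit 0, nat_lit 0, nat_lit 0, nat_lit 0, nat_lit 0, nat_lit 0, nat_lit 0, nat_lit 0, nat_lit 0, [],
 ⟨p007_k14, nat_lit 0, nat_lit 0, nat_lit 0, nat_lit 0, nat_lit 81461, [], [], [], nat_lit 1271250, nat_lit 1271250, nat_lit 65850, nat_lit 88400, nat_lit 0, nat_lit 0, [nat_lit 780000, nat_lit 1100000, nat_lit 1442500, nat_lit 1271250, nat_lit 1271250], [nat_lit 167, nat_lit 40, nat_lit 20, nat_lit 40]⟩, C1.Rw.none,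
 zbF0, []⟩
noncomputable def p007_l122 : Lf2 := ⟨nat_lit 0, nat_lit 5, [nat_lit 4, nat_lit 5, nat_lit 5, nat_lit 20], true, nat_lit 0, nat_lit 0, nat_lit 0, nat_lit 0, ⟨nat_lit 0, nat_lit 0, nat_lit 1000, nat_lit 5, nat_lit 56, nat_lit 0, nat_lit 0, nat_lit 0, nat_lit 0, nat_lit 215, nat_lit 29400, nat_lit 257, nat_lit 65718596, nat_lit 0, nat_lit 0, nat_lit 473020, false, false⟩,
 nat_lit 0, nat_lit 100000, nat_lit 0, nat_lit 0, nat_lit 50109, nat_lit 0, nat_lit 7970, nat_lit 153, nat_lit 0, nat_lit 0, nat_lit 0, nat_lit 0, nat_lit 0, nat_lit 0, nat_lit 0, nat_lit 400000, nat_lit 19085567800, nat_lit 0, [(nat_lit 3, [(nat_lit 5, nat_lit 1000)])],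
 ⟨p007_k7, nat_lit 0, nat_lit 0, nat_lit 0, nat_lit 0, nat_lit 81461, [nat_lit 2461600001, nat_lit 3393600001, nat_lit 3143600001, nat_lit 2606000000], [], [nat_lit 2976809949, nat_lit 3181224269, nat_lit 0, nat_lit 205490037], nat_lit 1271250, nat_lit 1271250, nat_lit 65850, nat_lit 88400, nat_lit 0, nat_lit 0, [nat_lit 631250, nat_lit 1271250, nat_lit 1271250, nat_lit 1271250], [nat_lit 91, nat_lit 40, nat_lit 20, nat_lit 40]⟩, C1.Rw.none,
 ⟨nat_lit 6519, nat_lit 6539, ⟨.ofNat (nat_lit 134432), .ofNat (nat_lit 142871), .ofNat (nat_lit 135502), .ofNat (nat_lit 143941), .ofNat (nat_lit 135342), .ofNat (nat_lit 143761), .ofNat (nat_lit 136412), .ofNat (nat_lit 144831)⟩, ⟨.ofNat (nat_lit 0), .ofNat (nat_lit 0), .ofNat (nat_lit 0), .ofNat (nat_lit 0), .ofNat (nat_lit 0), .ofNat (nat_lit 0), .ofNat (nat_lit 0), .ofNat (nat_lit 0)⟩⟩, []⟩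
noncomputable def p007_l123 : Lf2 := ⟨nat_lit 0, nat_lit 5, [nat_lit 4, nat_lit 5, nat_lit 5, nat_lit 20], false, nat_lit 0, nat_lit 0, nat_lit 0, nat_lit 0, ⟨nat_lit 0, nat_lit 0, nat_lit 1000, nat_lit 5, nat_lit 56, nat_lit 0, nat_lit 0, nat_lit 0, nat_lit 0, nat_lit 215, nat_lit 29400, nat_lit 257, nat_lit 65718596, nat_lit 0, nat_lit 0, nat_lit 473020, false, false⟩,
 nat_lit 100000, nat_lit 49794, nat_lit 0, nat_lit 0, nat_lit 75060, nat_lit 50109, nat_lit 19102, nat_lit 3752, nat_lit 0, nat_lit 13288, nat_lit 2659, nat_lit 0, nat_lit 0, nat_lit 0, nat_lit 0, nat_lit 400000, nat_lit 0, nat_lit 0, [(nat_lit 3, [(nat_lit 5, nat_lit 1000)])],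
 ⟨p007_k4, nat_lit 0, nat_lit 0, nat_lit 0, nat_lit 0, nat_lit 81461, [nat_lit 68949360000, nat_lit 82321600000, nat_lit 103378000000], [], [nat_lit 121273436312, nat_lit 121561248106, nat_lit 117483230674, nat_lit 117766281469], nat_lit 1271250, nat_lit 1271250, nat_lit 65850, nat_lit 88400, nat_lit 0, nat_lit 0, [nat_lit 1271250, nat_lit 1271250, nat_lit 1271250], [nat_lit 103, nat_lit 40, nat_lit 20, nat_lit 40]⟩, ⟨p007_k4, nat_lit 0, nat_lit 0, nat_lit 0, nat_lit 0, nat_lit 81461, [nat_lit 47862000000, nat_lit 58498000000, nat_lit 74452000000], [], [nat_lit 75777884462, nat_lit 75947671793, nat_lit 73215509635, nat_lit 73385307991], nat_lit 1271250, nat_lit 1271250, nat_lit 65850, nat_lit 88400, nat_lit 0, nat_lit 0, [nat_lit 1271250, nat_lit 1271250, nat_lit 1271250], [nat_lit 103, nat_lit 40, nat_lit 20, nat_lit 40]⟩,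
 ⟨nat_lit 6519, nat_lit 6539, ⟨.ofNat (nat_lit 134432), .ofNat (nat_lit 142871), .ofNat (nat_lit 135502), .ofNat (nat_lit 143941), .ofNat (nat_lit 135342), .ofNat (nat_lit 143761), .ofNat (nat_lit 136412), .ofNat (nat_lit 144831)⟩, ⟨.ofNat (nat_lit 0), .ofNat (nat_lit 0), .ofNat (nat_lit 0), .ofNat (nat_lit 0), .ofNat (nat_lit 0), .ofNat (nat_lit 0), .ofNat (nat_lit 0), .ofNat (nat_lit 0)⟩⟩, []⟩
noncomputable def p007_l124 : Lf2 := ⟨nat_lit 0, nat_lit 5, [nat_lit 4, nat_lit 5, nat_lit 5, nat_lit 20], true, nat_lit 0, nat_lit 0, nat_lit 0, nat_lit 0, ⟨nat_lit 0, nat_lit 0, nat_lit 1000, nat_lit 5, nat_lit 55, nat_lit 0, nat_lit 0, nat_lit 0, nat_lit 0, nat_lit 215, nat_lit 28017, nat_lit 256, nat_lit 65756846, nat_lit 0, nat_lit 0, nat_lit 461733, false, false⟩,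
 nat_lit 0, nat_lit 100000, nat_lit 0, nat_lit 0, nat_lit 50109, nat_lit 0, nat_lit 11594, nat_lit 2359, nat_lit 0, nat_lit 0, nat_lit 0, nat_lit 0, nat_lit 0, nat_lit 0, nat_lit 0, nat_lit 1000000, nat_lit 0, nat_lit 0, [(nat_lit 3, [(nat_lit 6, nat_lit 1000)])],
 ⟨p007_k8, nat_lit 0, nat_lit 0, nat_lit 0, nat_lit 0, nat_lit 81461, [nat_lit 48221142858, nat_lit 55355600001, nat_lit 62855600000], [], [nat_lit 82447065839, nat_lit 82595625665, nat_lit 79940770699, nat_lit 80089411473], nat_lit 1271250, nat_lit 1271250, nat_lit 65850, nat_lit 88400, nat_lit 0, nat_lit 0, [nat_lit 1412500, nat_lit 1271250, nat_lit 1271250], [nat_lit 25, nat_lit 40, nat_lit 20, nat_lit 80]⟩, C1.Rw.none,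
 ⟨nat_lit 6519, nat_lit 6539, ⟨.ofNat (nat_lit 130152), .ofNat (nat_lit 138590), .ofNat (nat_lit 135502), .ofNat (nat_lit 143941), .ofNat (nat_lit 131063), .ofNat (nat_lit 139482), .ofNat (nat_lit 136412), .ofNat (nat_lit 144831)⟩, ⟨.ofNat (nat_lit 0), .ofNat (nat_lit 0), .ofNat (nat_lit 0), .ofNat (nat_lit 0), .ofNat (nat_lit 0), .ofNat (nat_lit 0), .ofNat (nat_lit 0), .ofNat (nat_lit 0)⟩⟩, []⟩
noncomputable def b_NL_550_550_0_36 : St := ⟨false, nat_lit 1, nat_lit 1, nat_lit 1, nat_lit 20, nat_lit 228, nat_lit 230, nat_lit 225, nat_lit 230, nat_lit 12, nat_lit 16, nat_lit 0, nat_lit 0, nat_lit 0, nat_lit 0, nat_lit 0, nat_lit 0, nat_lit 20, nat_lit 24, nat_lit 300, nat_lit 600, nat_lit 0, nat_lit 800⟩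
theorem d_NL_550_550_0_36 (h : EB TB.env) : Dead b_NL_550_550_0_36 := chkB_sound0 h (T :=
(.spl (nat_lit 0) (nat_lit 229)
(.ord (.leaf p007_l113))
(.spl (nat_lit 7) (nat_lit 460)
(.spl (nat_lit 7) (nat_lit 380)
(.leaf p007_l114)
(.spl (nat_lit 1) (nat_lit 228)
(.leaf p007_l115)
(.spl (nat_lit 1) (nat_lit 229)
(.spl (nat_lit 7) (nat_lit 420)
(.leaf p007_l116)
(.leaf p007_l117))
(.spl (nat_lit 7) (nat_lit 420)
(.spl (nat_lit 7) (nat_lit 400)
(.leaf p007_l118)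
(.spl (nat_lit 8) (nat_lit 400)
(.leaf p007_l119)
(.leaf p007_l120)))
(.spl (nat_lit 7) (nat_lit 440)
(.leaf p007_l121)
(.spl (nat_lit 8) (nat_lit 400)
(.leaf p007_l122)
(.leaf p007_l123)))))))
(.leaf p007_l124)))) (by decide +kernel)
noncomputable def p007_l125 : Lf2 := ⟨nat_lit 0, nat_lit 5, [nat_lit 4, nat_lit 5, nat_lit 5, nat_lit 20], true, nat_lit 0, nat_lit 0, nat_lit 0, nat_lit 0, ⟨nat_lit 0, nat_lit 0, nat_lit 1000, nat_lit 5, nat_lit 62, nat_lit 0, nat_lit 0, nat_lit 0, nat_lit 0, nat_lit 215, nat_lit 36817, nat_lit 262, nat_lit 65428053, nat_lit 0, nat_lit 0, nat_lit 556072, false, false⟩,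
 nat_lit 0, nat_lit 8716, nat_lit 0, nat_lit 0, nat_lit 4389, nat_lit 0, nat_lit 849, nat_lit 0, nat_lit 0, nat_lit 0, nat_lit 0, nat_lit 0, nat_lit 0, nat_lit 22428563851229, nat_lit 45, nat_lit 257650, nat_lit 0, nat_lit 0, [(nat_lit 3, [(nat_lit 4, nat_lit 949), (nat_lit 5, nat_lit 51)])],
 ⟨p007_k17, nat_lit 0, nat_lit 0, nat_lit 0, nat_lit 0, nat_lit 111106, [nat_lit 2125995601, nat_lit 1377855600, nat_lit 821503201, nat_lit 111555199], [], [nat_lit 13300668913, nat_lit 13443837282, nat_lit 11856964773, nat_lit 12003796802], nat_lit 1271250, nat_lit 1271250, nat_lit 21650, nat_lit 230001, nat_lit 0, nat_lit 0, [nat_lit 631250, nat_lit 1271250, nat_lit 1271250, nat_lit 1271250], [nat_lit 117, nat_lit 40, nat_lit 20, nat_lit 40]⟩, C1.Rw.none,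
 ⟨nat_lit 6461, nat_lit 6520, ⟨.ofNat (nat_lit 108876), .ofNat (nat_lit 184645), .ofNat (nat_lit 122784), .ofNat (nat_lit 198554), .ofNat (nat_lit 111715), .ofNat (nat_lit 186961), .ofNat (nat_lit 125617), .ofNat (nat_lit 200863)⟩, ⟨.ofNat (nat_lit 0), .ofNat (nat_lit 0), .ofNat (nat_lit 0), .ofNat (nat_lit 0), .ofNat (nat_lit 0), .ofNat (nat_lit 0), .ofNat (nat_lit 0), .ofNat (nat_lit 0)⟩⟩, [⟨nat_lit 0, nat_lit 100, nat_lit 100, nat_lit 33, nat_lit 309104285⟩]⟩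
noncomputable def p007_l126 : Lf2 := ⟨nat_lit 0, nat_lit 5, [nat_lit 4, nat_lit 5, nat_lit 5, nat_lit 20], true, nat_lit 0, nat_lit 0, nat_lit 0, nat_lit 0, ⟨nat_lit 0, nat_lit 0, nat_lit 1000, nat_lit 5, nat_lit 63, nat_lit 0, nat_lit 0, nat_lit 0, nat_lit 0, nat_lit 215, nat_lit 36817, nat_lit 262, nat_lit 65363874, nat_lit 0, nat_lit 0, nat_lit 573835, false, false⟩,
 nat_lit 0, nat_lit 8370, nat_lit 0, nat_lit 0, nat_lit 4279, nat_lit 0, nat_lit 816, nat_lit 0, nat_lit 0, nat_lit 0, nat_lit 0, nat_lit 0, nat_lit 0, nat_lit 21634897150099, nat_lit 46, nat_lit 273100, nat_lit 0, nat_lit 0, [(nat_lit 3, [(nat_lit 4, nat_lit 846), (nat_lit 5, nat_lit 154)])],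
 ⟨p007_k18, nat_lit 0, nat_lit 0, nat_lit 0, nat_lit 0, nat_lit 126928, [nat_lit 2055202400, nat_lit 1403642400, nat_lit 837652800, nat_lit 116460800], [], [nat_lit 13338882769, nat_lit 13433468904, nat_lit 11944344737, nat_lit 12041289748], nat_lit 1271250, nat_lit 1271250, nat_lit 21650, nat_lit 230001, nat_lit 0, nat_lit 0, [nat_lit 631250, nat_lit 1271250, nat_lit 1271250, nat_lit 1271250], [nat_lit 117, nat_lit 40, nat_lit 20, nat_lit 40]⟩, C1.Rw.none,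
 ⟨nat_lit 6422, nat_lit 6462, ⟨.ofNat (nat_lit 111715), .ofNat (nat_lit 186961), .ofNat (nat_lit 127756), .ofNat (nat_lit 203002), .ofNat (nat_lit 113598), .ofNat (nat_lit 188497), .ofNat (nat_lit 129634), .ofNat (nat_lit 204533)⟩, ⟨.ofNat (nat_lit 0), .ofNat (nat_lit 0), .ofNat (nat_lit 0), .ofNat (nat_lit 0), .ofNat (nat_lit 0), .ofNat (nat_lit 0), .ofNat (nat_lit 0), .ofNat (nat_lit 0)⟩⟩, [⟨nat_lit 0, nat_lit 100, nat_lit 100, nat_lit 35, nat_lit 301815862⟩]⟩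
noncomputable def p007_l127 : Lf2 := ⟨nat_lit 0, nat_lit 5, [nat_lit 4, nat_lit 5, nat_lit 5, nat_lit 20], true, nat_lit 0, nat_lit 0, nat_lit 0, nat_lit 0, ⟨nat_lit 0, nat_lit 0, nat_lit 1000, nat_lit 5, nat_lit 56, nat_lit 0, nat_lit 0, nat_lit 0, nat_lit 0, nat_lit 215, nat_lit 29400, nat_lit 257, nat_lit 65690131, nat_lit 0, nat_lit 0, nat_lit 481362, false, false⟩,
 nat_lit 0, nat_lit 8116, nat_lit 0, nat_lit 0, nat_lit 4191, nat_lit 0, nat_lit 799, nat_lit 0, nat_lit 0, nat_lit 0, nat_lit 0, nat_lit 0, nat_lit 0, nat_lit 20008110646081, nat_lit 45, nat_lit 262150, nat_lit 0, nat_lit 0, [(nat_lit 3, [(nat_lit 4, nat_lit 919), (nat_lit 5, nat_lit 81)])],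
 ⟨p007_k19, nat_lit 0, nat_lit 0, nat_lit 0, nat_lit 0, nat_lit 152349, [nat_lit 2102463601, nat_lit 1380123600, nat_lit 819799200, nat_lit 105411200], [], [nat_lit 13396603836, nat_lit 13537044644, nat_lit 12572353264, nat_lit 12712823305], nat_lit 1271250, nat_lit 1271250, nat_lit 21650, nat_lit 111251, nat_lit 0, nat_lit 0, [nat_lit 631250, nat_lit 1271250, nat_lit 1271250, nat_lit 1271250], [nat_lit 117, nat_lit 40, nat_lit 20, nat_lit 40]⟩, C1.Rw.none,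
 ⟨nat_lit 6363, nat_lit 6423, ⟨.ofNat (nat_lit 113598), .ofNat (nat_lit 146886), .ofNat (nat_lit 132842), .ofNat (nat_lit 166130), .ofNat (nat_lit 116408), .ofNat (nat_lit 149466), .ofNat (nat_lit 135644), .ofNat (nat_lit 168702)⟩, ⟨.ofNat (nat_lit 0), .ofNat (nat_lit 0), .ofNat (nat_lit 0), .ofNat (nat_lit 0), .ofNat (nat_lit 0), .ofNat (nat_lit 0), .ofNat (nat_lit 0), .ofNat (nat_lit 0)⟩⟩, [⟨nat_lit 0, nat_lit 100, nat_lit 100, nat_lit 38, nat_lit 363237482⟩]⟩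
noncomputable def p007_l128 : Lf2 := ⟨nat_lit 0, nat_lit 5, [nat_lit 4, nat_lit 5, nat_lit 5, nat_lit 20], true, nat_lit 0, nat_lit 0, nat_lit 0, nat_lit 0, ⟨nat_lit 0, nat_lit 0, nat_lit 1000, nat_lit 5, nat_lit 59, nat_lit 0, nat_lit 0, nat_lit 0, nat_lit 0, nat_lit 215, nat_lit 33750, nat_lit 260, nat_lit 65551734, nat_lit 0, nat_lit 0, nat_lit 521269, false, false⟩,
 nat_lit 0, nat_lit 7909, nat_lit 0, nat_lit 0, nat_lit 4145, nat_lit 0, nat_lit 782, nat_lit 0, nat_lit 0, nat_lit 0, nat_lit 0, nat_lit 0, nat_lit 0, nat_lit 19339081183995, nat_lit 46, nat_lit 268150, nat_lit 0, nat_lit 0, [(nat_lit 3, [(nat_lit 4, nat_lit 879), (nat_lit 5, nat_lit 121)])],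
 ⟨p007_k20, nat_lit 0, nat_lit 0, nat_lit 0, nat_lit 0, nat_lit 167421, [nat_lit 2081087601, nat_lit 1401147600, nat_lit 839527200, nat_lit 123219200], [], [nat_lit 13196141307, nat_lit 13289406056, nat_lit 12586223134, nat_lit 12680832021], nat_lit 1271250, nat_lit 1271250, nat_lit 43600, nat_lit 111251, nat_lit 0, nat_lit 0, [nat_lit 631250, nat_lit 1271250, nat_lit 1271250, nat_lit 1271250], [nat_lit 117, nat_lit 40, nat_lit 20, nat_lit 40]⟩, C1.Rw.none,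
 ⟨nat_lit 6324, nat_lit 6364, ⟨.ofNat (nat_lit 124673), .ofNat (nat_lit 149466), .ofNat (nat_lit 146046), .ofNat (nat_lit 170839), .ofNat (nat_lit 126498), .ofNat (nat_lit 151177), .ofNat (nat_lit 147866), .ofNat (nat_lit 172545)⟩, ⟨.ofNat (nat_lit 0), .ofNat (nat_lit 0), .ofNat (nat_lit 0), .ofNat (nat_lit 0), .ofNat (nat_lit 0), .ofNat (nat_lit 0), .ofNat (nat_lit 0), .ofNat (nat_lit 0)⟩⟩, [⟨nat_lit 0, nat_lit 100, nat_lit 100, nat_lit 40, nat_lit 360503475⟩]⟩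
noncomputable def p007_l129 : Lf2 := ⟨nat_lit 0, nat_lit 5, [nat_lit 4, nat_lit 5, nat_lit 5, nat_lit 20], true, nat_lit 0, nat_lit 0, nat_lit 0, nat_lit 0, ⟨nat_lit 0, nat_lit 0, nat_lit 1000, nat_lit 5, nat_lit 72, nat_lit 0, nat_lit 0, nat_lit 0, nat_lit 0, nat_lit 215, nat_lit 48600, nat_lit 269, nat_lit 64888158, nat_lit 0, nat_lit 0, nat_lit 699912, false, false⟩,
 nat_lit 0, nat_lit 8249, nat_lit 0, nat_lit 0, nat_lit 4260, nat_lit 0, nat_lit 809, nat_lit 0, nat_lit 0, nat_lit 0, nat_lit 0, nat_lit 0, nat_lit 0, nat_lit 25524945397293, nat_lit 45, nat_lit 250000, nat_lit 0, nat_lit 0, [(nat_lit 3, [(nat_lit 4, nat_lit 1000)])],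
 ⟨p007_k19, nat_lit 0, nat_lit 0, nat_lit 0, nat_lit 0, nat_lit 170176, [nat_lit 2166000001, nat_lit 1374000000, nat_lit 824400000, nat_lit 122000000], [], [nat_lit 12527933165, nat_lit 12763269085, nat_lit 12088924121, nat_lit 12330879441], nat_lit 1271250, nat_lit 1271250, nat_lit 111251, nat_lit 230001, nat_lit 0, nat_lit 0, [nat_lit 631250, nat_lit 1271250, nat_lit 1271250, nat_lit 1271250], [nat_lit 117, nat_lit 40, nat_lit 20, nat_lit 40]⟩, C1.Rw.none,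
 ⟨nat_lit 6324, nat_lit 6423, ⟨.ofNat (nat_lit 146886), .ofNat (nat_lit 188497), .ofNat (nat_lit 168268), .ofNat (nat_lit 209879), .ofNat (nat_lit 151177), .ofNat (nat_lit 192309), .ofNat (nat_lit 172545), .ofNat (nat_lit 213677)⟩, ⟨.ofNat (nat_lit 0), .ofNat (nat_lit 0), .ofNat (nat_lit 0), .ofNat (nat_lit 0), .ofNat (nat_lit 0), .ofNat (nat_lit 0), .ofNat (nat_lit 0), .ofNat (nat_lit 0)⟩⟩, []⟩
noncomputable def p007_l130 : Lf2 := ⟨nat_lit 0, nat_lit 5, [nat_lit 4, nat_lit 5, nat_lit 5, nat_lit 20], true, nat_lit 0, nat_lit 0, nat_lit 0, nat_lit 0, ⟨nat_lit 0, nat_lit 0, nat_lit 1000, nat_lit 5, nat_lit 65, nat_lit 0, nat_lit 0, nat_lit 0, nat_lit 0, nat_lit 215, nat_lit 40017, nat_lit 264, nat_lit 65292447, nat_lit 0, nat_lit 0, nat_lit 593377, false, false⟩,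
 nat_lit 0, nat_lit 100000, nat_lit 0, nat_lit 0, nat_lit 50364, nat_lit 0, nat_lit 12968, nat_lit 2378, nat_lit 0, nat_lit 0, nat_lit 0, nat_lit 0, nat_lit 0, nat_lit 175100109722165, nat_lit 0, nat_lit 1000000, nat_lit 0, nat_lit 0, [(nat_lit 3, [(nat_lit 6, nat_lit 1000)])],
 ⟨p007_k21, nat_lit 0, nat_lit 0, nat_lit 351, nat_lit 0, nat_lit 174945, [nat_lit 48601142858, nat_lit 63387600000], [], [nat_lit 103300671984, nat_lit 90403960427, nat_lit 100123771974, nat_lit 87392659326], nat_lit 1271250, nat_lit 1271250, nat_lit 21650, nat_lit 230001, nat_lit 0, nat_lit 0, [nat_lit 1412500, nat_lit 1271250], [nat_lit 51, nat_lit 40, nat_lit 20, nat_lit 80, nat_lit 1, nat_lit 289, nat_lit 75, nat_lit 9]⟩, C1.Rw.none,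
 ⟨nat_lit 6324, nat_lit 6520, ⟨.ofNat (nat_lit 108876), .ofNat (nat_lit 184645), .ofNat (nat_lit 130274), .ofNat (nat_lit 206043), .ofNat (nat_lit 118272), .ofNat (nat_lit 192309), .ofNat (nat_lit 139640), .ofNat (nat_lit 213677)⟩, ⟨.ofNat (nat_lit 0), .ofNat (nat_lit 0), .ofNat (nat_lit 0), .ofNat (nat_lit 0), .ofNat (nat_lit 0), .ofNat (nat_lit 0), .ofNat (nat_lit 0), .ofNat (nat_lit 0)⟩⟩, [⟨nat_lit 0, nat_lit 100, nat_lit 100, nat_lit 40, nat_lit 525013843⟩]⟩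
noncomputable def b_NL_550_550_0_37 : St := ⟨false, nat_lit 1, nat_lit 1, nat_lit 1, nat_lit 20, nat_lit 230, nat_lit 240, nat_lit 220, nat_lit 240, nat_lit 4, nat_lit 40, nat_lit 0, nat_lit 0, nat_lit 0, nat_lit 0, nat_lit 0, nat_lit 0, nat_lit 20, nat_lit 32, nat_lit 0, nat_lit 0, nat_lit 0, nat_lit 800⟩
theorem d_NL_550_550_0_37 (h : EB TB.env) : Dead b_NL_550_550_0_37 := chkB_sound0 h (T :=
(.spl (nat_lit 7) (nat_lit 600)
(.spl (nat_lit 0) (nat_lit 235)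
(.ord (.spl (nat_lit 0) (nat_lit 233)
(.ord (.leaf p007_l125))
(.leaf p007_l126)))
(.spl (nat_lit 2) (nat_lit 20)
(.spl (nat_lit 0) (nat_lit 238)
(.ord (.leaf p007_l127))
(.trZ (nat_lit 0) (nat_lit 100) (nat_lit 99) (nat_lit 29) (nat_lit 8) (.leaf p007_l128)))
(.leaf p007_l129)))
(.leaf p007_l130))) (by decide +kernel)
noncomputable def p007_l131 : Lf2 := ⟨nat_lit 1, nat_lit 5, [nat_lit 4, nat_lit 5, nat_lit 5, nat_lit 20], false, nat_lit 0, nat_lit 0, nat_lit 0, nat_lit 0, zbN0,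
 nat_lit 0, nat_lit 0, nat_lit 0, nat_lit 0, nat_lit 0, nat_lit 0, nat_lit 0, nat_lit 0, nat_lit 0, nat_lit 0, nat_lit 0, nat_lit 0, nat_lit 0, nat_lit 0, nat_lit 0, nat_lit 0, nat_lit 0, nat_lit 0, [],
 C1.Rw.none, C1.Rw.none,
 zbF0, []⟩
noncomputable def p007_l132 : Lf2 := ⟨nat_lit 1, nat_lit 5, [nat_lit 4, nat_lit 5, nat_lit 5, nat_lit 20], false, nat_lit 0, nat_lit 0, nat_lit 0, nat_lit 0, zbN0,
 nat_lit 0, nat_lit 0, nat_lit 0, nat_lit 0, nat_lit 0, nat_lit 0, nat_lit 0, nat_lit 0, nat_lit 0, nat_lit 0, nat_lit 0, nat_lit 0, nat_lit 0, nat_lit 0, nat_lit 0, nat_lit 0, nat_lit 0, nat_lit 0, [],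
 C1.Rw.none, C1.Rw.none,
 zbF0, []⟩
noncomputable def p007_l133 : Lf2 := ⟨nat_lit 0, nat_lit 5, [nat_lit 4, nat_lit 5, nat_lit 5, nat_lit 20], true, nat_lit 0, nat_lit 0, nat_lit 0, nat_lit 0, ⟨nat_lit 0, nat_lit 0, nat_lit 1000, nat_lit 5, nat_lit 57, nat_lit 0, nat_lit 0, nat_lit 0, nat_lit 0, nat_lit 215, nat_lit 30817, nat_lit 258, nat_lit 65681096, nat_lit 0, nat_lit 0, nat_lit 484000, false, false⟩,
 nat_lit 0, nat_lit 10174, nat_lit 0, nat_lit 100000, nat_lit 5254, nat_lit 0, nat_lit 0, nat_lit 0, nat_lit 0, nat_lit 0, nat_lit 0, nat_lit 0, nat_lit 0, nat_lit 0, nat_lit 60, nat_lit 400000, nat_lit 0, nat_lit 0, [(nat_lit 3, [(nat_lit 5, nat_lit 1000)])],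
 ⟨p007_k22, nat_lit 0, nat_lit 0, nat_lit 294, nat_lit 0, nat_lit 21870, [nat_lit 2770400000, nat_lit 702400001, nat_lit 2000000], [], [nat_lit 16740807183, nat_lit 17051061439, nat_lit 16392234438, nat_lit 16702010690], nat_lit 1271250, nat_lit 1271250, nat_lit 43600, nat_lit 65850, nat_lit 0, nat_lit 0, [nat_lit 1412500, nat_lit 1271250, nat_lit 1271250], [nat_lit 25, nat_lit 40, nat_lit 20, nat_lit 80, nat_lit 17, nat_lit 289, nat_lit 75, nat_lit 9]⟩, C1.Rw.none,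
 ⟨nat_lit 6324, nat_lit 6423, ⟨.ofNat (nat_lit 132611), .ofNat (nat_lit 140933), .ofNat (nat_lit 137956), .ofNat (nat_lit 146279), .ofNat (nat_lit 137182), .ofNat (nat_lit 145408), .ofNat (nat_lit 142524), .ofNat (nat_lit 150750)⟩, ⟨.ofNat (nat_lit 0), .ofNat (nat_lit 0), .ofNat (nat_lit 0), .ofNat (nat_lit 0), .ofNat (nat_lit 0), .ofNat (nat_lit 0), .ofNat (nat_lit 0), .ofNat (nat_lit 0)⟩⟩, [⟨nat_lit 0, nat_lit 100, nat_lit 100, nat_lit 35, nat_lit 10000000000⟩, ⟨nat_lit 0, nat_lit 100, nat_lit 100, nat_lit 37, nat_lit 2905100521⟩]⟩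
noncomputable def p007_l134 : Lf2 := ⟨nat_lit 1, nat_lit 5, [nat_lit 4, nat_lit 5, nat_lit 5, nat_lit 20], false, nat_lit 0, nat_lit 0, nat_lit 0, nat_lit 0, zbN0,
 nat_lit 0, nat_lit 0, nat_lit 0, nat_lit 0, nat_lit 0, nat_lit 0, nat_lit 0, nat_lit 0, nat_lit 0, nat_lit 0, nat_lit 0, nat_lit 0, nat_lit 0, nat_lit 0, nat_lit 0, nat_lit 0, nat_lit 0, nat_lit 0, [],
 C1.Rw.none, C1.Rw.none,
 zbF0, []⟩
noncomputable def p007_l135 : Lf2 := ⟨nat_lit 1, nat_lit 5, [nat_lit 4, nat_lit 5, nat_lit 5, nat_lit 20], false, nat_lit 0, nat_lit 0, nat_lit 0, nat_lit 0, zbN0,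
 nat_lit 0, nat_lit 0, nat_lit 0, nat_lit 0, nat_lit 0, nat_lit 0, nat_lit 0, nat_lit 0, nat_lit 0, nat_lit 0, nat_lit 0, nat_lit 0, nat_lit 0, nat_lit 0, nat_lit 0, nat_lit 0, nat_lit 0, nat_lit 0, [],
 C1.Rw.none, C1.Rw.none,
 zbF0, []⟩
noncomputable def p007_l136 : Lf2 := ⟨nat_lit 0, nat_lit 5, [nat_lit 4, nat_lit 5, nat_lit 5, nat_lit 20], false, nat_lit 0, nat_lit 0, nat_lit 0, nat_lit 0, ⟨nat_lit 1000, nat_lit 0, nat_lit 0, nat_lit 0, nat_lit 0, nat_lit 0, nat_lit 0, nat_lit 0, nat_lit 0, nat_lit 0, nat_lit 0, nat_lit 0, nat_lit 0, nat_lit 0, nat_lit 0, nat_lit 0, false, false⟩,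
 nat_lit 8486, nat_lit 9279, nat_lit 0, nat_lit 7346, nat_lit 9312, nat_lit 4295, nat_lit 0, nat_lit 0, nat_lit 0, nat_lit 0, nat_lit 0, nat_lit 0, nat_lit 0, nat_lit 0, nat_lit 0, nat_lit 0, nat_lit 0, nat_lit 0, [],
 ⟨p007_k23, nat_lit 0, nat_lit 0, nat_lit 281, nat_lit 0, nat_lit 6688, [nat_lit 6250000000, nat_lit 7968000001, nat_lit 9842000000], [], [nat_lit 31385049056, nat_lit 31450213808, nat_lit 30868217426, nat_lit 30933422569], nat_lit 1271250, nat_lit 1271250, nat_lit 65850, nat_lit 88400, nat_lit 0, nat_lit 0, [nat_lit 1412500, nat_lit 1271250, nat_lit 1271250], [nat_lit 25, nat_lit 40, nat_lit 20, nat_lit 80, nat_lit 17, nat_lit 289, nat_lit 75, nat_lit 9]⟩, ⟨p007_k24, nat_lit 0, nat_lit 0, nat_lit 0, nat_lit 0, nat_lit 7014, [nat_lit 2637500000, nat_lit 5449500000, nat_lit 7089500000, nat_lit 8885500000], [], [nat_lit 24338734410, nat_lit 24399069920, nat_lit 24116529344,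 nat_lit 24174809238], nat_lit 1271250, nat_lit 1271250, nat_lit 65850, nat_lit 88400, nat_lit 0, nat_lit 0, [nat_lit 631250, nat_lit 1271250, nat_lit 1271250, nat_lit 1271250], [nat_lit 117, nat_lit 40, nat_lit 20, nat_lit 40]⟩,
 zbF0, [⟨nat_lit 0, nat_lit 100, nat_lit 99, nat_lit 35, nat_lit 1767984075⟩]⟩
noncomputable def p007_l137 : Lf2 := ⟨nat_lit 3, nat_lit 5, [nat_lit 4, nat_lit 5, nat_lit 5, nat_lit 20], false, nat_lit 0, nat_lit 0, nat_lit 0, nat_lit 0, zbN0,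
 nat_lit 0, nat_lit 0, nat_lit 0, nat_lit 0, nat_lit 0, nat_lit 0, nat_lit 0, nat_lit 0, nat_lit 0, nat_lit 0, nat_lit 0, nat_lit 0, nat_lit 0, nat_lit 0, nat_lit 0, nat_lit 0, nat_lit 0, nat_lit 0, [],
 C1.Rw.none, ⟨p007_k25, nat_lit 0, nat_lit 0, nat_lit 268, nat_lit 0, nat_lit 7014, [], [], [], nat_lit 1271250, nat_lit 1271250, nat_lit 65850, nat_lit 88400, nat_lit 0, nat_lit 0, [nat_lit 1412500, nat_lit 1271250], [nat_lit 51, nat_lit 40, nat_lit 20, nat_lit 80, nat_lit 1, nat_lit 289, nat_lit 75, nat_lit 9]⟩,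
 zbF0, []⟩
noncomputable def p007_l138 : Lf2 := ⟨nat_lit 0, nat_lit 5, [nat_lit 4, nat_lit 5, nat_lit 5, nat_lit 20], true, nat_lit 0, nat_lit 0, nat_lit 0, nat_lit 0, ⟨nat_lit 0, nat_lit 0, nat_lit 1000, nat_lit 5, nat_lit 60, nat_lit 0, nat_lit 0, nat_lit 0, nat_lit 0, nat_lit 215, nat_lit 33750, nat_lit 260, nat_lit 65533070, nat_lit 0, nat_lit 0, nat_lit 526571, false, false⟩,
 nat_lit 0, nat_lit 9886, nat_lit 0, nat_lit 0, nat_lit 5208, nat_lit 0, nat_lit 0, nat_lit 0, nat_lit 0, nat_lit 0, nat_lit 0, nat_lit 0, nat_lit 0, nat_lit 0, nat_lit 60, nat_lit 400000, nat_lit 0, nat_lit 0, [(nat_lit 3, [(nat_lit 5, nat_lit 1000)])],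
 ⟨p007_k26, nat_lit 0, nat_lit 0, nat_lit 281, nat_lit 0, nat_lit 6934, [nat_lit 2770400000, nat_lit 702400001, nat_lit 2000000], [], [nat_lit 16607592626, nat_lit 16664478260, nat_lit 16338731906, nat_lit 16388605408], nat_lit 1271250, nat_lit 1271250, nat_lit 65850, nat_lit 88400, nat_lit 0, nat_lit 0, [nat_lit 1412500, nat_lit 1271250, nat_lit 1271250], [nat_lit 25, nat_lit 40, nat_lit 20, nat_lit 80, nat_lit 17, nat_lit 289, nat_lit 75, nat_lit 9]⟩, C1.Rw.none,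
 ⟨nat_lit 6324, nat_lit 6345, ⟨.ofNat (nat_lit 144517), .ofNat (nat_lit 152762), .ofNat (nat_lit 145585), .ofNat (nat_lit 153831), .ofNat (nat_lit 145408), .ofNat (nat_lit 153635), .ofNat (nat_lit 146477), .ofNat (nat_lit 154703)⟩, ⟨.ofNat (nat_lit 0), .ofNat (nat_lit 0), .ofNat (nat_lit 0), .ofNat (nat_lit 0), .ofNat (nat_lit 0), .ofNat (nat_lit 0), .ofNat (nat_lit 0), .ofNat (nat_lit 0)⟩⟩, [⟨nat_lit 0, nat_lit 100, nat_lit 99, nat_lit 35, nat_lit 447779717⟩]⟩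
noncomputable def p007_l139 : Lf2 := ⟨nat_lit 0, nat_lit 5, [nat_lit 4, nat_lit 5, nat_lit 5, nat_lit 20], false, nat_lit 0, nat_lit 0, nat_lit 0, nat_lit 0, ⟨nat_lit 1000, nat_lit 0, nat_lit 0, nat_lit 0, nat_lit 0, nat_lit 0, nat_lit 0, nat_lit 0, nat_lit 0, nat_lit 0, nat_lit 0, nat_lit 0, nat_lit 0, nat_lit 0, nat_lit 0, nat_lit 0, false, false⟩,
 nat_lit 8486, nat_lit 9191, nat_lit 0, nat_lit 2881, nat_lit 9312, nat_lit 4295, nat_lit 0, nat_lit 0, nat_lit 0, nat_lit 0, nat_lit 0, nat_lit 0, nat_lit 0, nat_lit 0, nat_lit 0, nat_lit 0, nat_lit 0, nat_lit 0, [],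
 ⟨p007_k26, nat_lit 0, nat_lit 0, nat_lit 283, nat_lit 0, nat_lit 10514, [nat_lit 6250000000, nat_lit 7968000001, nat_lit 9842000000], [], [nat_lit 31450213808, nat_lit 31533023789, nat_lit 30933422569, nat_lit 30998627712], nat_lit 1271250, nat_lit 1271250, nat_lit 65850, nat_lit 88400, nat_lit 0, nat_lit 0, [nat_lit 1412500, nat_lit 1271250, nat_lit 1271250], [nat_lit 25, nat_lit 40, nat_lit 20, nat_lit 80, nat_lit 17, nat_lit 289, nat_lit 75, nat_lit 9]⟩, ⟨p007_k24, nat_lit 0, nat_lit 0, nat_lit 0, nat_lit 0, nat_lit 11042, [nat_lit 2637500000, nat_lit 5449500000, nat_lit 7089500000, nat_lit 8885500000], [], [nat_lit 24338734410, nat_lit 24399069920, nat_lit 24116529344, nat_lit 24174809238], nat_lit 1271250, nat_lit 1271250, nat_lit 65850, nat_lit 88400, nat_lit 0, nat_lit 0, [nat_lit 631250, nat_lit 1271250, nat_lit 1271250, nat_lit 1271250], [nat_lit 117, nat_lit 40, nat_lit 20,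 nat_lit 40]⟩,
 zbF0, [⟨nat_lit 0, nat_lit 100, nat_lit 99, nat_lit 35, nat_lit 1767984075⟩]⟩
noncomputable def p007_l140 : Lf2 := ⟨nat_lit 3, nat_lit 5, [nat_lit 4, nat_lit 5, nat_lit 5, nat_lit 20], false, nat_lit 0, nat_lit 0, nat_lit 0, nat_lit 0, zbN0,
 nat_lit 0, nat_lit 0, nat_lit 0, nat_lit 0, nat_lit 0, nat_lit 0, nat_lit 0, nat_lit 0, nat_lit 0, nat_lit 0, nat_lit 0, nat_lit 0, nat_lit 0, nat_lit 0, nat_lit 0, nat_lit 0, nat_lit 0, nat_lit 0, [],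
 C1.Rw.none, ⟨p007_k25, nat_lit 0, nat_lit 0, nat_lit 281, nat_lit 0, nat_lit 11042, [], [], [], nat_lit 1271250, nat_lit 1271250, nat_lit 65850, nat_lit 88400, nat_lit 0, nat_lit 0, [nat_lit 1412500, nat_lit 1271250], [nat_lit 51, nat_lit 40, nat_lit 20, nat_lit 80, nat_lit 1, nat_lit 289, nat_lit 75, nat_lit 9]⟩,
 zbF0, []⟩
noncomputable def p007_l141 : Lf2 := ⟨nat_lit 1, nat_lit 5, [nat_lit 4, nat_lit 5, nat_lit 5, nat_lit 20], false, nat_lit 0, nat_lit 0, nat_lit 0, nat_lit 0, zbN0,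
 nat_lit 0, nat_lit 0, nat_lit 0, nat_lit 0, nat_lit 0, nat_lit 0, nat_lit 0, nat_lit 0, nat_lit 0, nat_lit 0, nat_lit 0, nat_lit 0, nat_lit 0, nat_lit 0, nat_lit 0, nat_lit 0, nat_lit 0, nat_lit 0, [],
 C1.Rw.none, C1.Rw.none,
 zbF0, []⟩
noncomputable def p007_l142 : Lf2 := ⟨nat_lit 0, nat_lit 5, [nat_lit 4, nat_lit 5, nat_lit 5, nat_lit 20], false, nat_lit 0, nat_lit 0, nat_lit 0, nat_lit 0, ⟨nat_lit 1000, nat_lit 0, nat_lit 0, nat_lit 0, nat_lit 0, nat_lit 0, nat_lit 0, nat_lit 0, nat_lit 0, nat_lit 0, nat_lit 0, nat_lit 0, nat_lit 0, nat_lit 0, nat_lit 0, nat_lit 0, false, false⟩,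
 nat_lit 8438, nat_lit 9446, nat_lit 0, nat_lit 7081, nat_lit 9328, nat_lit 4293, nat_lit 0, nat_lit 0, nat_lit 0, nat_lit 0, nat_lit 0, nat_lit 0, nat_lit 0, nat_lit 0, nat_lit 0, nat_lit 0, nat_lit 0, nat_lit 0, [],
 ⟨p007_k27, nat_lit 0, nat_lit 0, nat_lit 265, nat_lit 0, nat_lit 6485, [nat_lit 6250000000, nat_lit 7968000001, nat_lit 9842000000], [], [nat_lit 31314474646, nat_lit 31379699044, nat_lit 30796635781, nat_lit 30861900697], nat_lit 1271250, nat_lit 1271250, nat_lit 65850, nat_lit 88400, nat_lit 0, nat_lit 0, [nat_lit 1412500, nat_lit 1271250, nat_lit 1271250], [nat_lit 25, nat_lit 40, nat_lit 20, nat_lit 80, nat_lit 17, nat_lit 289, nat_lit 75, nat_lit 9]⟩, ⟨p007_k28, nat_lit 0, nat_lit 0, nat_lit 0, nat_lit 0, nat_lit 6711, [nat_lit 2637500000, nat_lit 5449500000, nat_lit 7089500000, nat_lit 8885500000], [], [nat_lit 24397940162, nat_lit 24458931253, nat_lit 24175856524,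 nat_lit 24234124970], nat_lit 1271250, nat_lit 1271250, nat_lit 65850, nat_lit 88400, nat_lit 0, nat_lit 0, [nat_lit 631250, nat_lit 1271250, nat_lit 1271250, nat_lit 1271250], [nat_lit 117, nat_lit 40, nat_lit 20, nat_lit 40]⟩,
 zbF0, [⟨nat_lit 0, nat_lit 100, nat_lit 100, nat_lit 35, nat_lit 1751377085⟩]⟩
noncomputable def p007_l143 : Lf2 := ⟨nat_lit 3, nat_lit 5, [nat_lit 4, nat_lit 5, nat_lit 5, nat_lit 20], false, nat_lit 0, nat_lit 0, nat_lit 0, nat_lit 0, zbN0,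
 nat_lit 0, nat_lit 0, nat_lit 0, nat_lit 0, nat_lit 0, nat_lit 0, nat_lit 0, nat_lit 0, nat_lit 0, nat_lit 0, nat_lit 0, nat_lit 0, nat_lit 0, nat_lit 0, nat_lit 0, nat_lit 0, nat_lit 0, nat_lit 0, [],
 C1.Rw.none, ⟨p007_k29, nat_lit 0, nat_lit 0, nat_lit 268, nat_lit 0, nat_lit 6711, [], [], [], nat_lit 1271250, nat_lit 1271250, nat_lit 65850, nat_lit 88400, nat_lit 0, nat_lit 0, [nat_lit 1412500, nat_lit 1271250], [nat_lit 51, nat_lit 40, nat_lit 20, nat_lit 80, nat_lit 1, nat_lit 289, nat_lit 75, nat_lit 9]⟩,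
 zbF0, []⟩
noncomputable def p007_l144 : Lf2 := ⟨nat_lit 0, nat_lit 5, [nat_lit 4, nat_lit 5, nat_lit 5, nat_lit 20], false, nat_lit 0, nat_lit 0, nat_lit 0, nat_lit 0, ⟨nat_lit 1000, nat_lit 0, nat_lit 0, nat_lit 0, nat_lit 0, nat_lit 0, nat_lit 0, nat_lit 0, nat_lit 0, nat_lit 0, nat_lit 0, nat_lit 0, nat_lit 0, nat_lit 0, nat_lit 0, nat_lit 0, false, false⟩,
 nat_lit 8438, nat_lit 9358, nat_lit 0, nat_lit 2883, nat_lit 9328, nat_lit 4293, nat_lit 0, nat_lit 0, nat_lit 0, nat_lit 0, nat_lit 0, nat_lit 0, nat_lit 0, nat_lit 0, nat_lit 0, nat_lit 0, nat_lit 0, nat_lit 0, [],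
 ⟨p007_k23, nat_lit 0, nat_lit 0, nat_lit 282, nat_lit 0, nat_lit 10309, [nat_lit 6250000000, nat_lit 7968000001, nat_lit 9842000000], [], [nat_lit 31379699044, nat_lit 31462345338, nat_lit 30861900697, nat_lit 30927165613], nat_lit 1271250, nat_lit 1271250, nat_lit 65850, nat_lit 88400, nat_lit 0, nat_lit 0, [nat_lit 1412500, nat_lit 1271250, nat_lit 1271250], [nat_lit 25, nat_lit 40, nat_lit 20, nat_lit 80, nat_lit 17, nat_lit 289, nat_lit 75, nat_lit 9]⟩, ⟨p007_k28, nat_lit 0, nat_lit 0, nat_lit 0, nat_lit 0, nat_lit 10696, [nat_lit 2637500000, nat_lit 5449500000, nat_lit 7089500000, nat_lit 8885500000], [], [nat_lit 24397940162, nat_lit 24458931253, nat_lit 24175856524, nat_lit 24234124970], nat_lit 1271250, nat_lit 1271250, nat_lit 65850, nat_lit 88400, nat_lit 0, nat_lit 0, [nat_lit 631250, nat_lit 1271250, nat_lit 1271250, nat_lit 1271250], [nat_lit 117, nat_lit 40, nat_lit 20,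 nat_lit 40]⟩,
 zbF0, [⟨nat_lit 0, nat_lit 100, nat_lit 99, nat_lit 35, nat_lit 1769067762⟩]⟩
noncomputable def p007_l145 : Lf2 := ⟨nat_lit 3, nat_lit 5, [nat_lit 4, nat_lit 5, nat_lit 5, nat_lit 20], false, nat_lit 0, nat_lit 0, nat_lit 0, nat_lit 0, zbN0,
 nat_lit 0, nat_lit 0, nat_lit 0, nat_lit 0, nat_lit 0, nat_lit 0, nat_lit 0, nat_lit 0, nat_lit 0, nat_lit 0, nat_lit 0, nat_lit 0, nat_lit 0, nat_lit 0, nat_lit 0, nat_lit 0, nat_lit 0, nat_lit 0, [],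
 C1.Rw.none, ⟨p007_k29, nat_lit 0, nat_lit 0, nat_lit 281, nat_lit 0, nat_lit 10696, [], [], [], nat_lit 1271250, nat_lit 1271250, nat_lit 65850, nat_lit 88400, nat_lit 0, nat_lit 0, [nat_lit 1412500, nat_lit 1271250], [nat_lit 51, nat_lit 40, nat_lit 20, nat_lit 80, nat_lit 1, nat_lit 289, nat_lit 75, nat_lit 9]⟩,
 zbF0, []⟩
noncomputable def p007_l146 : Lf2 := ⟨nat_lit 0, nat_lit 5, [nat_lit 4, nat_lit 5, nat_lit 5, nat_lit 20], false, nat_lit 0, nat_lit 0, nat_lit 0, nat_lit 0, ⟨nat_lit 1000, nat_lit 0, nat_lit 0, nat_lit 0, nat_lit 0, nat_lit 0, nat_lit 0, nat_lit 0, nat_lit 0, nat_lit 0, nat_lit 0, nat_lit 0, nat_lit 0, nat_lit 0, nat_lit 0, nat_lit 0, false, false⟩,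
 nat_lit 8438, nat_lit 9239, nat_lit 0, nat_lit 0, nat_lit 9312, nat_lit 4293, nat_lit 0, nat_lit 0, nat_lit 0, nat_lit 0, nat_lit 0, nat_lit 0, nat_lit 0, nat_lit 0, nat_lit 0, nat_lit 0, nat_lit 0, nat_lit 0, [],
 ⟨p007_k26, nat_lit 0, nat_lit 0, nat_lit 284, nat_lit 0, nat_lit 14141, [nat_lit 6250000000, nat_lit 7968000001, nat_lit 9842000000], [], [nat_lit 31450213808, nat_lit 31533023789, nat_lit 30933422569, nat_lit 30998627712], nat_lit 1271250, nat_lit 1271250, nat_lit 65850, nat_lit 88400, nat_lit 0, nat_lit 0, [nat_lit 1412500, nat_lit 1271250, nat_lit 1271250], [nat_lit 25, nat_lit 40, nat_lit 20, nat_lit 80, nat_lit 17, nat_lit 289, nat_lit 75, nat_lit 9]⟩, ⟨p007_k28, nat_lit 0, nat_lit 0, nat_lit 0, nat_lit 0, nat_lit 14729, [nat_lit 2637500000, nat_lit 5449500000, nat_lit 7089500000, nat_lit 8885500000], [], [nat_lit 24397940162, nat_lit 24458931253, nat_lit 24175856524,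 nat_lit 24234124970], nat_lit 1271250, nat_lit 1271250, nat_lit 65850, nat_lit 88400, nat_lit 0, nat_lit 0, [nat_lit 631250, nat_lit 1271250, nat_lit 1271250, nat_lit 1271250], [nat_lit 117, nat_lit 40, nat_lit 20, nat_lit 40]⟩,
 zbF0, [⟨nat_lit 0, nat_lit 100, nat_lit 99, nat_lit 35, nat_lit 1766058183⟩]⟩
noncomputable def p007_l147 : Lf2 := ⟨nat_lit 3, nat_lit 5, [nat_lit 4, nat_lit 5, nat_lit 5, nat_lit 20], false, nat_lit 0, nat_lit 0, nat_lit 0, nat_lit 0, zbN0,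
 nat_lit 0, nat_lit 0, nat_lit 0, nat_lit 0, nat_lit 0, nat_lit 0, nat_lit 0, nat_lit 0, nat_lit 0, nat_lit 0, nat_lit 0, nat_lit 0, nat_lit 0, nat_lit 0, nat_lit 0, nat_lit 0, nat_lit 0, nat_lit 0, [],
 C1.Rw.none, ⟨p007_k29, nat_lit 0, nat_lit 0, nat_lit 282, nat_lit 0, nat_lit 14729, [], [], [], nat_lit 1271250, nat_lit 1271250, nat_lit 65850, nat_lit 88400, nat_lit 0, nat_lit 0, [nat_lit 1412500, nat_lit 1271250], [nat_lit 51, nat_lit 40, nat_lit 20, nat_lit 80, nat_lit 1, nat_lit 289, nat_lit 75, nat_lit 9]⟩,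
 zbF0, []⟩
noncomputable def p007_l148 : Lf2 := ⟨nat_lit 1, nat_lit 5, [nat_lit 4, nat_lit 5, nat_lit 5, nat_lit 20], false, nat_lit 0, nat_lit 0, nat_lit 0, nat_lit 0, zbN0,
 nat_lit 0, nat_lit 0, nat_lit 0, nat_lit 0, nat_lit 0, nat_lit 0, nat_lit 0, nat_lit 0, nat_lit 0, nat_lit 0, nat_lit 0, nat_lit 0, nat_lit 0, nat_lit 0, nat_lit 0, nat_lit 0, nat_lit 0, nat_lit 0, [],
 C1.Rw.none, C1.Rw.none,
 zbF0, []⟩
noncomputable def p007_l149 : Lf2 := ⟨nat_lit 0, nat_lit 5, [nat_lit 4, nat_lit 5, nat_lit 5, nat_lit 20], false, nat_lit 0, nat_lit 0, nat_lit 0, nat_lit 0, ⟨nat_lit 1000, nat_lit 0, nat_lit 0, nat_lit 0, nat_lit 0, nat_lit 0, nat_lit 0, nat_lit 0, nat_lit 0, nat_lit 0, nat_lit 0, nat_lit 0, nat_lit 0, nat_lit 0, nat_lit 0, nat_lit 0, false, false⟩,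
 nat_lit 8390, nat_lit 9614, nat_lit 0, nat_lit 6819, nat_lit 9345, nat_lit 4290, nat_lit 0, nat_lit 0, nat_lit 0, nat_lit 0, nat_lit 0, nat_lit 0, nat_lit 0, nat_lit 0, nat_lit 0, nat_lit 0, nat_lit 0, nat_lit 0, [],
 ⟨p007_k30, nat_lit 0, nat_lit 0, nat_lit 266, nat_lit 0, nat_lit 6323, [nat_lit 6250000000, nat_lit 7968000001, nat_lit 9842000000], [], [nat_lit 31243439114, nat_lit 31308726885, nat_lit 30724532324, nat_lit 30789860748], nat_lit 1271250, nat_lit 1271250, nat_lit 65850, nat_lit 88400, nat_lit 0, nat_lit 0, [nat_lit 1412500, nat_lit 1271250, nat_lit 1271250], [nat_lit 25, nat_lit 40, nat_lit 20, nat_lit 80, nat_lit 17, nat_lit 289, nat_lit 75, nat_lit 9]⟩, ⟨p007_k18, nat_lit 0, nat_lit 0, nat_lit 0, nat_lit 0, nat_lit 6455, [nat_lit 2637500000, nat_lit 5449500000, nat_lit 7089500000, nat_lit 8885500000], [], [nat_lit 24457577933, nat_lit 24518181175, nat_lit 24235678727,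 nat_lit 24293930003], nat_lit 1271250, nat_lit 1271250, nat_lit 65850, nat_lit 88400, nat_lit 0, nat_lit 0, [nat_lit 631250, nat_lit 1271250, nat_lit 1271250, nat_lit 1271250], [nat_lit 117, nat_lit 40, nat_lit 20, nat_lit 40]⟩,
 zbF0, [⟨nat_lit 0, nat_lit 100, nat_lit 100, nat_lit 35, nat_lit 1752453820⟩]⟩
noncomputable def p007_l150 : Lf2 := ⟨nat_lit 3, nat_lit 5, [nat_lit 4, nat_lit 5, nat_lit 5, nat_lit 20], false, nat_lit 0, nat_lit 0, nat_lit 0, nat_lit 0, zbN0,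
 nat_lit 0, nat_lit 0, nat_lit 0, nat_lit 0, nat_lit 0, nat_lit 0, nat_lit 0, nat_lit 0, nat_lit 0, nat_lit 0, nat_lit 0, nat_lit 0, nat_lit 0, nat_lit 0, nat_lit 0, nat_lit 0, nat_lit 0, nat_lit 0, [],
 C1.Rw.none, ⟨p007_k31, nat_lit 0, nat_lit 0, nat_lit 267, nat_lit 0, nat_lit 6455, [], [], [], nat_lit 1271250, nat_lit 1271250, nat_lit 65850, nat_lit 88400, nat_lit 0, nat_lit 0, [nat_lit 1412500, nat_lit 1271250], [nat_lit 51, nat_lit 40, nat_lit 20, nat_lit 80, nat_lit 1, nat_lit 289, nat_lit 75, nat_lit 9]⟩,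
 zbF0, []⟩
noncomputable def p007_l151 : Lf2 := ⟨nat_lit 0, nat_lit 5, [nat_lit 4, nat_lit 5, nat_lit 5, nat_lit 20], false, nat_lit 0, nat_lit 0, nat_lit 0, nat_lit 0, ⟨nat_lit 1000, nat_lit 0, nat_lit 0, nat_lit 0, nat_lit 0, nat_lit 0, nat_lit 0, nat_lit 0, nat_lit 0, nat_lit 0, nat_lit 0, nat_lit 0, nat_lit 0, nat_lit 0, nat_lit 0, nat_lit 0, false, false⟩,
 nat_lit 8390, nat_lit 9524, nat_lit 0, nat_lit 2731, nat_lit 9344, nat_lit 4290, nat_lit 0, nat_lit 0, nat_lit 0, nat_lit 0, nat_lit 0, nat_lit 0, nat_lit 0, nat_lit 0, nat_lit 0, nat_lit 0, nat_lit 0, nat_lit 0, [],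
 ⟨p007_k27, nat_lit 0, nat_lit 0, nat_lit 282, nat_lit 0, nat_lit 10145, [nat_lit 6250000000, nat_lit 7968000001, nat_lit 9842000000], [], [nat_lit 31309064989, nat_lit 31391497144, nat_lit 30790259280, nat_lit 30855583968], nat_lit 1271250, nat_lit 1271250, nat_lit 65850, nat_lit 88400, nat_lit 0, nat_lit 0, [nat_lit 1412500, nat_lit 1271250, nat_lit 1271250], [nat_lit 25, nat_lit 40, nat_lit 20, nat_lit 80, nat_lit 17, nat_lit 289, nat_lit 75, nat_lit 9]⟩, ⟨p007_k18, nat_lit 0, nat_lit 0, nat_lit 0, nat_lit 0, nat_lit 10399, [nat_lit 2637500000, nat_lit 5449500000, nat_lit 7089500000, nat_lit 8885500000], [], [nat_lit 24457577933, nat_lit 24518181175, nat_lit 24235678727, nat_lit 24293930003], nat_lit 1271250, nat_lit 1271250, nat_lit 65850, nat_lit 88400, nat_lit 0, nat_lit 0, [nat_lit 631250, nat_lit 1271250, nat_lit 1271250, nat_lit 1271250], [nat_lit 117, nat_lit 40, nat_lit 20,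 nat_lit 40]⟩,
 zbF0, [⟨nat_lit 0, nat_lit 100, nat_lit 100, nat_lit 35, nat_lit 1752453820⟩]⟩
noncomputable def p007_l152 : Lf2 := ⟨nat_lit 3, nat_lit 5, [nat_lit 4, nat_lit 5, nat_lit 5, nat_lit 20], false, nat_lit 0, nat_lit 0, nat_lit 0, nat_lit 0, zbN0,
 nat_lit 0, nat_lit 0, nat_lit 0, nat_lit 0, nat_lit 0, nat_lit 0, nat_lit 0, nat_lit 0, nat_lit 0, nat_lit 0, nat_lit 0, nat_lit 0, nat_lit 0, nat_lit 0, nat_lit 0, nat_lit 0, nat_lit 0, nat_lit 0, [],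
 C1.Rw.none, ⟨p007_k31, nat_lit 0, nat_lit 0, nat_lit 281, nat_lit 0, nat_lit 10399, [], [], [], nat_lit 1271250, nat_lit 1271250, nat_lit 65850, nat_lit 88400, nat_lit 0, nat_lit 0, [nat_lit 1412500, nat_lit 1271250], [nat_lit 51, nat_lit 40, nat_lit 20, nat_lit 80, nat_lit 1, nat_lit 289, nat_lit 75, nat_lit 9]⟩,
 zbF0, []⟩
noncomputable def p007_l153 : Lf2 := ⟨nat_lit 0, nat_lit 5, [nat_lit 4, nat_lit 5, nat_lit 5, nat_lit 20], false, nat_lit 0, nat_lit 0, nat_lit 0, nat_lit 0, ⟨nat_lit 1000, nat_lit 0, nat_lit 0, nat_lit 0, nat_lit 0, nat_lit 0, nat_lit 0, nat_lit 0, nat_lit 0, nat_lit 0, nat_lit 0, nat_lit 0, nat_lit 0, nat_lit 0, nat_lit 0, nat_lit 0, false, false⟩,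
 nat_lit 8390, nat_lit 9405, nat_lit 0, nat_lit 0, nat_lit 9328, nat_lit 4290, nat_lit 0, nat_lit 0, nat_lit 0, nat_lit 0, nat_lit 0, nat_lit 0, nat_lit 0, nat_lit 0, nat_lit 0, nat_lit 0, nat_lit 0, nat_lit 0, [],
 ⟨p007_k23, nat_lit 0, nat_lit 0, nat_lit 284, nat_lit 0, nat_lit 13975, [nat_lit 6250000000, nat_lit 7968000001, nat_lit 9842000000], [], [nat_lit 31379699044, nat_lit 31462345338, nat_lit 30861900697, nat_lit 30927165613], nat_lit 1271250, nat_lit 1271250, nat_lit 65850, nat_lit 88400, nat_lit 0, nat_lit 0, [nat_lit 1412500, nat_lit 1271250, nat_lit 1271250], [nat_lit 25, nat_lit 40, nat_lit 20, nat_lit 80, nat_lit 17, nat_lit 289, nat_lit 75, nat_lit 9]⟩, ⟨p007_k18, nat_lit 0, nat_lit 0, nat_lit 0, nat_lit 0, nat_lit 14389, [nat_lit 2637500000, nat_lit 5449500000, nat_lit 7089500000, nat_lit 8885500000], [], [nat_lit 24457577933, nat_lit 24518181175, nat_lit 24235678727,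 nat_lit 24293930003], nat_lit 1271250, nat_lit 1271250, nat_lit 65850, nat_lit 88400, nat_lit 0, nat_lit 0, [nat_lit 631250, nat_lit 1271250, nat_lit 1271250, nat_lit 1271250], [nat_lit 117, nat_lit 40, nat_lit 20, nat_lit 40]⟩,
 zbF0, [⟨nat_lit 0, nat_lit 100, nat_lit 100, nat_lit 36, nat_lit 1749470622⟩]⟩
noncomputable def p007_l154 : Lf2 := ⟨nat_lit 3, nat_lit 5, [nat_lit 4, nat_lit 5, nat_lit 5, nat_lit 20], false, nat_lit 0, nat_lit 0, nat_lit 0, nat_lit 0, zbN0,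
 nat_lit 0, nat_lit 0, nat_lit 0, nat_lit 0, nat_lit 0, nat_lit 0, nat_lit 0, nat_lit 0, nat_lit 0, nat_lit 0, nat_lit 0, nat_lit 0, nat_lit 0, nat_lit 0, nat_lit 0, nat_lit 0, nat_lit 0, nat_lit 0, [],
 C1.Rw.none, ⟨p007_k31, nat_lit 0, nat_lit 0, nat_lit 283, nat_lit 0, nat_lit 14389, [], [], [], nat_lit 1271250, nat_lit 1271250, nat_lit 65850, nat_lit 88400, nat_lit 0, nat_lit 0, [nat_lit 1412500, nat_lit 1271250], [nat_lit 51, nat_lit 40, nat_lit 20, nat_lit 80, nat_lit 1, nat_lit 289, nat_lit 75, nat_lit 9]⟩,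
 zbF0, []⟩
noncomputable def p007_l155 : Lf2 := ⟨nat_lit 0, nat_lit 5, [nat_lit 4, nat_lit 5, nat_lit 5, nat_lit 20], false, nat_lit 0, nat_lit 0, nat_lit 0, nat_lit 0, ⟨nat_lit 1000, nat_lit 0, nat_lit 0, nat_lit 0, nat_lit 0, nat_lit 0, nat_lit 0, nat_lit 0, nat_lit 0, nat_lit 0, nat_lit 0, nat_lit 0, nat_lit 0, nat_lit 0, nat_lit 0, nat_lit 0, false, false⟩,
 nat_lit 8390, nat_lit 9287, nat_lit 0, nat_lit 0, nat_lit 9312, nat_lit 4290, nat_lit 0, nat_lit 0, nat_lit 0, nat_lit 0, nat_lit 0, nat_lit 0, nat_lit 0, nat_lit 0, nat_lit 0, nat_lit 0, nat_lit 0, nat_lit 0, [],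
 ⟨p007_k26, nat_lit 0, nat_lit 0, nat_lit 286, nat_lit 0, nat_lit 17767, [nat_lit 6250000000, nat_lit 7968000001, nat_lit 9842000000], [], [nat_lit 31450213808, nat_lit 31533023789, nat_lit 30933422569, nat_lit 30998627712], nat_lit 1271250, nat_lit 1271250, nat_lit 65850, nat_lit 88400, nat_lit 0, nat_lit 0, [nat_lit 1412500, nat_lit 1271250, nat_lit 1271250], [nat_lit 25, nat_lit 40, nat_lit 20, nat_lit 80, nat_lit 17, nat_lit 289, nat_lit 75, nat_lit 9]⟩, ⟨p007_k18, nat_lit 0, nat_lit 0, nat_lit 0, nat_lit 0, nat_lit 18379, [nat_lit 2637500000, nat_lit 5449500000, nat_lit 7089500000, nat_lit 8885500000], [], [nat_lit 24457577933, nat_lit 24518181175, nat_lit 24235678727, nat_lit 24293930003], nat_lit 1271250, nat_lit 1271250, nat_lit 65850, nat_lit 88400, nat_lit 0, nat_lit 0, [nat_lit 631250, nat_lit 1271250, nat_lit 1271250, nat_lit 1271250], [nat_lit 117, nat_lit 40, nat_lit 20,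 nat_lit 40]⟩,
 zbF0, [⟨nat_lit 0, nat_lit 100, nat_lit 99, nat_lit 36, nat_lit 1764139547⟩]⟩
noncomputable def p007_l156 : Lf2 := ⟨nat_lit 3, nat_lit 5, [nat_lit 4, nat_lit 5, nat_lit 5, nat_lit 20], false, nat_lit 0, nat_lit 0, nat_lit 0, nat_lit 0, zbN0,
 nat_lit 0, nat_lit 0, nat_lit 0, nat_lit 0, nat_lit 0, nat_lit 0, nat_lit 0, nat_lit 0, nat_lit 0, nat_lit 0, nat_lit 0, nat_lit 0, nat_lit 0, nat_lit 0, nat_lit 0, nat_lit 0, nat_lit 0, nat_lit 0, [],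
 C1.Rw.none, ⟨p007_k31, nat_lit 0, nat_lit 0, nat_lit 284, nat_lit 0, nat_lit 18379, [], [], [], nat_lit 1271250, nat_lit 1271250, nat_lit 65850, nat_lit 88400, nat_lit 0, nat_lit 0, [nat_lit 1412500, nat_lit 1271250], [nat_lit 51, nat_lit 40, nat_lit 20, nat_lit 80, nat_lit 1, nat_lit 289, nat_lit 75, nat_lit 9]⟩,
 zbF0, []⟩
noncomputable def p007_l157 : Lf2 := ⟨nat_lit 0, nat_lit 5, [nat_lit 4, nat_lit 5, nat_lit 5, nat_lit 20], false, nat_lit 0, nat_lit 0, nat_lit 0, nat_lit 0, ⟨nat_lit 1000, nat_lit 0, nat_lit 0, nat_lit 0, nat_lit 0, nat_lit 0, nat_lit 0, nat_lit 0, nat_lit 0, nat_lit 0, nat_lit 0, nat_lit 0, nat_lit 0, nat_lit 0, nat_lit 0, nat_lit 0, false, false⟩,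
 nat_lit 8343, nat_lit 9814, nat_lit 0, nat_lit 2918, nat_lit 9377, nat_lit 4287, nat_lit 0, nat_lit 0, nat_lit 0, nat_lit 0, nat_lit 0, nat_lit 0, nat_lit 0, nat_lit 0, nat_lit 0, nat_lit 0, nat_lit 0, nat_lit 0, [],
 ⟨p007_k22, nat_lit 0, nat_lit 0, nat_lit 288, nat_lit 0, nat_lit 21870, [nat_lit 6250000000, nat_lit 7968000001, nat_lit 9842000000], [], [nat_lit 31167093444, nat_lit 31586058745, nat_lit 30646211807, nat_lit 30973451652], nat_lit 1271250, nat_lit 1271250, nat_lit 65850, nat_lit 88400, nat_lit 0, nat_lit 0, [nat_lit 1412500, nat_lit 1271250, nat_lit 1271250], [nat_lit 25, nat_lit 40, nat_lit 20, nat_lit 80, nat_lit 17, nat_lit 289, nat_lit 75, nat_lit 9]⟩, ⟨p007_k32, nat_lit 0, nat_lit 0, nat_lit 0, nat_lit 0, nat_lit 21992, [nat_lit 2637500000, nat_lit 5449500000, nat_lit 7089500000, nat_lit 8885500000], [], [nat_lit 24517181409, nat_lit 24577395025, nat_lit 24295466589,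 nat_lit 24353700694], nat_lit 1271250, nat_lit 1271250, nat_lit 65850, nat_lit 88400, nat_lit 0, nat_lit 0, [nat_lit 631250, nat_lit 1271250, nat_lit 1271250, nat_lit 1271250], [nat_lit 117, nat_lit 40, nat_lit 20, nat_lit 40]⟩,
 zbF0, [⟨nat_lit 0, nat_lit 100, nat_lit 100, nat_lit 36, nat_lit 1756532189⟩]⟩
noncomputable def p007_l158 : Lf2 := ⟨nat_lit 3, nat_lit 5, [nat_lit 4, nat_lit 5, nat_lit 5, nat_lit 20], false, nat_lit 0, nat_lit 0, nat_lit 0, nat_lit 0, zbN0,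
 nat_lit 0, nat_lit 0, nat_lit 0, nat_lit 0, nat_lit 0, nat_lit 0, nat_lit 0, nat_lit 0, nat_lit 0, nat_lit 0, nat_lit 0, nat_lit 0, nat_lit 0, nat_lit 0, nat_lit 0, nat_lit 0, nat_lit 0, nat_lit 0, [],
 C1.Rw.none, ⟨p007_k33, nat_lit 0, nat_lit 0, nat_lit 285, nat_lit 0, nat_lit 21992, [], [], [], nat_lit 1271250, nat_lit 1271250, nat_lit 65850, nat_lit 88400, nat_lit 0, nat_lit 0, [nat_lit 1412500, nat_lit 1271250], [nat_lit 51, nat_lit 40, nat_lit 20, nat_lit 80, nat_lit 1, nat_lit 289, nat_lit 75, nat_lit 9]⟩,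
 zbF0, []⟩
noncomputable def p007_l159 : Lf2 := ⟨nat_lit 0, nat_lit 5, [nat_lit 4, nat_lit 5, nat_lit 5, nat_lit 20], true, nat_lit 0, nat_lit 0, nat_lit 0, nat_lit 0, ⟨nat_lit 0, nat_lit 0, nat_lit 1000, nat_lit 5, nat_lit 63, nat_lit 0, nat_lit 0, nat_lit 0, nat_lit 0, nat_lit 215, nat_lit 36817, nat_lit 262, nat_lit 65384534, nat_lit 0, nat_lit 0, nat_lit 568138, false, false⟩,
 nat_lit 0, nat_lit 10203, nat_lit 0, nat_lit 0, nat_lit 5269, nat_lit 0, nat_lit 0, nat_lit 0, nat_lit 0, nat_lit 0, nat_lit 0, nat_lit 0, nat_lit 0, nat_lit 0, nat_lit 60, nat_lit 400000, nat_lit 0, nat_lit 0, [(nat_lit 3, [(nat_lit 5, nat_lit 1000)])],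
 ⟨p007_k22, nat_lit 0, nat_lit 0, nat_lit 265, nat_lit 0, nat_lit 14472, [nat_lit 2770400000, nat_lit 702400001, nat_lit 2000000], [], [nat_lit 16114471720, nat_lit 16364978645, nat_lit 15841892392, nat_lit 16092441168], nat_lit 1271250, nat_lit 1271250, nat_lit 88400, nat_lit 111251, nat_lit 0, nat_lit 0, [nat_lit 1412500, nat_lit 1271250, nat_lit 1271250], [nat_lit 25, nat_lit 40, nat_lit 20, nat_lit 80, nat_lit 17, nat_lit 289, nat_lit 75, nat_lit 9]⟩, C1.Rw.none,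
 ⟨nat_lit 6324, nat_lit 6423, ⟨.ofNat (nat_lit 149255), .ofNat (nat_lit 157577), .ofNat (nat_lit 152462), .ofNat (nat_lit 160785), .ofNat (nat_lit 153635), .ofNat (nat_lit 161861), .ofNat (nat_lit 156840), .ofNat (nat_lit 165066)⟩, ⟨.ofNat (nat_lit 0), .ofNat (nat_lit 0), .ofNat (nat_lit 0), .ofNat (nat_lit 0), .ofNat (nat_lit 0), .ofNat (nat_lit 0), .ofNat (nat_lit 0), .ofNat (nat_lit 0)⟩⟩, []⟩
noncomputable def p007_l160 : Lf2 := ⟨nat_lit 0, nat_lit 5, [nat_lit 4, nat_lit 5, nat_lit 5, nat_lit 20], true, nat_lit 0, nat_lit 0, nat_lit 0, nat_lit 0, ⟨nat_lit 0, nat_lit 0, nat_lit 1000, nat_lit 5, nat_lit 64, nat_lit 0, nat_lit 0, nat_lit 0, nat_lit 0, nat_lit 215, nat_lit 38400, nat_lit 263, nat_lit 65341391, nat_lit 0, nat_lit 0, nat_lit 580011, false, false⟩,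
 nat_lit 0, nat_lit 10203, nat_lit 0, nat_lit 0, nat_lit 5269, nat_lit 0, nat_lit 0, nat_lit 0, nat_lit 0, nat_lit 0, nat_lit 0, nat_lit 0, nat_lit 0, nat_lit 0, nat_lit 60, nat_lit 400000, nat_lit 0, nat_lit 0, [(nat_lit 3, [(nat_lit 5, nat_lit 1000)])],
 ⟨p007_k22, nat_lit 0, nat_lit 0, nat_lit 265, nat_lit 0, nat_lit 18171, [nat_lit 2770400000, nat_lit 702400001, nat_lit 2000000], [], [nat_lit 16114471720, nat_lit 16364978645, nat_lit 15841892392, nat_lit 16092441168], nat_lit 1271250, nat_lit 1271250, nat_lit 88400, nat_lit 111251, nat_lit 0, nat_lit 0, [nat_lit 1412500, nat_lit 1271250, nat_lit 1271250], [nat_lit 25, nat_lit 40, nat_lit 20, nat_lit 80, nat_lit 17, nat_lit 289, nat_lit 75, nat_lit 9]⟩, C1.Rw.none,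
 ⟨nat_lit 6324, nat_lit 6423, ⟨.ofNat (nat_lit 152462), .ofNat (nat_lit 160785), .ofNat (nat_lit 153532), .ofNat (nat_lit 161854), .ofNat (nat_lit 156840), .ofNat (nat_lit 165066), .ofNat (nat_lit 157908), .ofNat (nat_lit 166135)⟩, ⟨.ofNat (nat_lit 0), .ofNat (nat_lit 0), .ofNat (nat_lit 0), .ofNat (nat_lit 0), .ofNat (nat_lit 0), .ofNat (nat_lit 0), .ofNat (nat_lit 0), .ofNat (nat_lit 0)⟩⟩, []⟩
noncomputable def p007_l161 : Lf2 := ⟨nat_lit 0, nat_lit 5, [nat_lit 4, nat_lit 5, nat_lit 5, nat_lit 20], true, nat_lit 0, nat_lit 0, nat_lit 0, nat_lit 0, ⟨nat_lit 0, nat_lit 0, nat_lit 1000, nat_lit 5, nat_lit 63, nat_lit 0, nat_lit 0, nat_lit 0, nat_lit 0, nat_lit 215, nat_lit 38400, nat_lit 263, nat_lit 65354788, nat_lit 0, nat_lit 0, nat_lit 576334, false, false⟩,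
 nat_lit 0, nat_lit 10287, nat_lit 0, nat_lit 0, nat_lit 5313, nat_lit 0, nat_lit 0, nat_lit 0, nat_lit 0, nat_lit 0, nat_lit 0, nat_lit 0, nat_lit 0, nat_lit 0, nat_lit 60, nat_lit 400000, nat_lit 0, nat_lit 0, [(nat_lit 3, [(nat_lit 5, nat_lit 1000)])],
 ⟨p007_k22, nat_lit 0, nat_lit 0, nat_lit 264, nat_lit 0, nat_lit 6204, [nat_lit 2770400000, nat_lit 702400001, nat_lit 2000000], [], [nat_lit 16096607593, nat_lit 16146873352, nat_lit 15821368746, nat_lit 15871643224], nat_lit 1271250, nat_lit 1271250, nat_lit 88400, nat_lit 111251, nat_lit 0, nat_lit 0, [nat_lit 1412500, nat_lit 1271250, nat_lit 1271250], [nat_lit 25, nat_lit 40, nat_lit 20, nat_lit 80, nat_lit 17, nat_lit 289, nat_lit 75, nat_lit 9]⟩, C1.Rw.none,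
 ⟨nat_lit 6403, nat_lit 6423, ⟨.ofNat (nat_lit 153532), .ofNat (nat_lit 161854), .ofNat (nat_lit 154601), .ofNat (nat_lit 162923), .ofNat (nat_lit 154410), .ofNat (nat_lit 162713), .ofNat (nat_lit 155479), .ofNat (nat_lit 163782)⟩, ⟨.ofNat (nat_lit 0), .ofNat (nat_lit 0), .ofNat (nat_lit 0), .ofNat (nat_lit 0), .ofNat (nat_lit 0), .ofNat (nat_lit 0), .ofNat (nat_lit 0), .ofNat (nat_lit 0)⟩⟩, []⟩
noncomputable def p007_l162 : Lf2 := ⟨nat_lit 0, nat_lit 5, [nat_lit 4, nat_lit 5, nat_lit 5, nat_lit 20], false, nat_lit 0, nat_lit 0, nat_lit 0, nat_lit 0, ⟨nat_lit 1000, nat_lit 0, nat_lit 0, nat_lit 0, nat_lit 0, nat_lit 0, nat_lit 0, nat_lit 0, nat_lit 0, nat_lit 0, nat_lit 0, nat_lit 0, nat_lit 0, nat_lit 0, nat_lit 0, nat_lit 0, false, false⟩,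
 nat_lit 16449, nat_lit 1785, nat_lit 0, nat_lit 0, nat_lit 9464, nat_lit 8453, nat_lit 0, nat_lit 0, nat_lit 0, nat_lit 0, nat_lit 0, nat_lit 0, nat_lit 0, nat_lit 0, nat_lit 0, nat_lit 0, nat_lit 0, nat_lit 0, [],
 ⟨p007_k30, nat_lit 0, nat_lit 0, nat_lit 264, nat_lit 0, nat_lit 10023, [nat_lit 6250000000, nat_lit 7968000001, nat_lit 9842000000], [], [nat_lit 30676662537, nat_lit 30742435519, nat_lit 30150563901, nat_lit 30216378478], nat_lit 1271250, nat_lit 1271250, nat_lit 88400, nat_lit 111251, nat_lit 0, nat_lit 0, [nat_lit 1412500, nat_lit 1271250, nat_lit 1271250], [nat_lit 25, nat_lit 40, nat_lit 20, nat_lit 80, nat_lit 17, nat_lit 289, nat_lit 75, nat_lit 9]⟩, ⟨p007_k34, nat_lit 0, nat_lit 0, nat_lit 0, nat_lit 0, nat_lit 10148, [nat_lit 5449500000, nat_lit 7089500000, nat_lit 8885500000], [], [nat_lit 26391740983, nat_lit 26462515391, nat_lit 25926330230, nat_lit 25997123125],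 nat_lit 1271250, nat_lit 1271250, nat_lit 88400, nat_lit 111251, nat_lit 0, nat_lit 0, [nat_lit 1271250, nat_lit 1271250, nat_lit 1271250], [nat_lit 96, nat_lit 40, nat_lit 20, nat_lit 40]⟩,
 zbF0, []⟩
noncomputable def p007_l163 : Lf2 := ⟨nat_lit 3, nat_lit 5, [nat_lit 4, nat_lit 5, nat_lit 5, nat_lit 20], false, nat_lit 0, nat_lit 0, nat_lit 0, nat_lit 0, zbN0,
 nat_lit 0, nat_lit 0, nat_lit 0, nat_lit 0, nat_lit 0, nat_lit 0, nat_lit 0, nat_lit 0, nat_lit 0, nat_lit 0, nat_lit 0, nat_lit 0, nat_lit 0, nat_lit 0, nat_lit 0, nat_lit 0, nat_lit 0, nat_lit 0, [],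
 C1.Rw.none, ⟨p007_k33, nat_lit 0, nat_lit 0, nat_lit 265, nat_lit 0, nat_lit 10148, [], [], [], nat_lit 1271250, nat_lit 1271250, nat_lit 88400, nat_lit 111251, nat_lit 0, nat_lit 0, [nat_lit 1412500, nat_lit 1271250], [nat_lit 51, nat_lit 40, nat_lit 20, nat_lit 80, nat_lit 1, nat_lit 289, nat_lit 75, nat_lit 9]⟩,
 zbF0, []⟩
noncomputable def p007_l164 : Lf2 := ⟨nat_lit 0, nat_lit 5, [nat_lit 4, nat_lit 5, nat_lit 5, nat_lit 20], false, nat_lit 0, nat_lit 0, nat_lit 0, nat_lit 0, ⟨nat_lit 1000, nat_lit 0, nat_lit 0, nat_lit 0, nat_lit 0, nat_lit 0, nat_lit 0, nat_lit 0, nat_lit 0, nat_lit 0, nat_lit 0, nat_lit 0, nat_lit 0, nat_lit 0, nat_lit 0, nat_lit 0, false, false⟩,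
 nat_lit 16449, nat_lit 1663, nat_lit 0, nat_lit 0, nat_lit 9447, nat_lit 8453, nat_lit 0, nat_lit 0, nat_lit 0, nat_lit 0, nat_lit 0, nat_lit 0, nat_lit 0, nat_lit 0, nat_lit 0, nat_lit 0, nat_lit 0, nat_lit 0, [],
 ⟨p007_k27, nat_lit 0, nat_lit 0, nat_lit 264, nat_lit 0, nat_lit 13851, [nat_lit 6250000000, nat_lit 7968000001, nat_lit 9842000000], [], [nat_lit 30749210552, nat_lit 30814920025, nat_lit 30224180783, nat_lit 30289931717], nat_lit 1271250, nat_lit 1271250, nat_lit 88400, nat_lit 111251, nat_lit 0, nat_lit 0, [nat_lit 1412500, nat_lit 1271250, nat_lit 1271250], [nat_lit 25, nat_lit 40, nat_lit 20, nat_lit 80, nat_lit 17, nat_lit 289, nat_lit 75, nat_lit 9]⟩, ⟨p007_k34, nat_lit 0, nat_lit 0, nat_lit 0, nat_lit 0, nat_lit 14096, [nat_lit 5449500000, nat_lit 7089500000, nat_lit 8885500000], [], [nat_lit 26391740983, nat_lit 26462515391, nat_lit 25926330230, nat_lit 25997123125],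 nat_lit 1271250, nat_lit 1271250, nat_lit 88400, nat_lit 111251, nat_lit 0, nat_lit 0, [nat_lit 1271250, nat_lit 1271250, nat_lit 1271250], [nat_lit 96, nat_lit 40, nat_lit 20, nat_lit 40]⟩,
 zbF0, []⟩
noncomputable def p007_l165 : Lf2 := ⟨nat_lit 3, nat_lit 5, [nat_lit 4, nat_lit 5, nat_lit 5, nat_lit 20], false, nat_lit 0, nat_lit 0, nat_lit 0, nat_lit 0, zbN0,
 nat_lit 0, nat_lit 0, nat_lit 0, nat_lit 0, nat_lit 0, nat_lit 0, nat_lit 0, nat_lit 0, nat_lit 0, nat_lit 0, nat_lit 0, nat_lit 0, nat_lit 0, nat_lit 0, nat_lit 0, nat_lit 0, nat_lit 0, nat_lit 0, [],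
 C1.Rw.none, ⟨p007_k33, nat_lit 0, nat_lit 0, nat_lit 266, nat_lit 0, nat_lit 14096, [], [], [], nat_lit 1271250, nat_lit 1271250, nat_lit 88400, nat_lit 111251, nat_lit 0, nat_lit 0, [nat_lit 1412500, nat_lit 1271250], [nat_lit 51, nat_lit 40, nat_lit 20, nat_lit 80, nat_lit 1, nat_lit 289, nat_lit 75, nat_lit 9]⟩,
 zbF0, []⟩
noncomputable def p007_l166 : Lf2 := ⟨nat_lit 0, nat_lit 5, [nat_lit 4, nat_lit 5, nat_lit 5, nat_lit 20], false, nat_lit 0, nat_lit 0, nat_lit 0, nat_lit 0, ⟨nat_lit 1000, nat_lit 0, nat_lit 0, nat_lit 0, nat_lit 0, nat_lit 0, nat_lit 0, nat_lit 0, nat_lit 0, nat_lit 0, nat_lit 0, nat_lit 0, nat_lit 0, nat_lit 0, nat_lit 0, nat_lit 0, false, false⟩,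
 nat_lit 16449, nat_lit 1541, nat_lit 0, nat_lit 0, nat_lit 9430, nat_lit 8453, nat_lit 0, nat_lit 0, nat_lit 0, nat_lit 0, nat_lit 0, nat_lit 0, nat_lit 0, nat_lit 0, nat_lit 0, nat_lit 0, nat_lit 0, nat_lit 0, [],
 ⟨p007_k23, nat_lit 0, nat_lit 0, nat_lit 264, nat_lit 0, nat_lit 17641, [nat_lit 6250000000, nat_lit 7968000001, nat_lit 9842000000], [], [nat_lit 30821631550, nat_lit 30887277515, nat_lit 30297670379, nat_lit 30363357670], nat_lit 1271250, nat_lit 1271250, nat_lit 88400, nat_lit 111251, nat_lit 0, nat_lit 0, [nat_lit 1412500, nat_lit 1271250, nat_lit 1271250], [nat_lit 25, nat_lit 40, nat_lit 20, nat_lit 80, nat_lit 17, nat_lit 289, nat_lit 75, nat_lit 9]⟩, ⟨p007_k34, nat_lit 0, nat_lit 0, nat_lit 0, nat_lit 0, nat_lit 18044, [nat_lit 5449500000, nat_lit 7089500000, nat_lit 8885500000], [], [nat_lit 26391740983, nat_lit 26462515391, nat_lit 25926330230, nat_lit 25997123125],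 nat_lit 1271250, nat_lit 1271250, nat_lit 88400, nat_lit 111251, nat_lit 0, nat_lit 0, [nat_lit 1271250, nat_lit 1271250, nat_lit 1271250], [nat_lit 96, nat_lit 40, nat_lit 20, nat_lit 40]⟩,
 zbF0, []⟩
noncomputable def p007_l167 : Lf2 := ⟨nat_lit 3, nat_lit 5, [nat_lit 4, nat_lit 5, nat_lit 5, nat_lit 20], false, nat_lit 0, nat_lit 0, nat_lit 0, nat_lit 0, zbN0,
 nat_lit 0, nat_lit 0, nat_lit 0, nat_lit 0, nat_lit 0, nat_lit 0, nat_lit 0, nat_lit 0, nat_lit 0, nat_lit 0, nat_lit 0, nat_lit 0, nat_lit 0, nat_lit 0, nat_lit 0, nat_lit 0, nat_lit 0, nat_lit 0, [],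
 C1.Rw.none, ⟨p007_k33, nat_lit 0, nat_lit 0, nat_lit 266, nat_lit 0, nat_lit 18044, [], [], [], nat_lit 1271250, nat_lit 1271250, nat_lit 88400, nat_lit 111251, nat_lit 0, nat_lit 0, [nat_lit 1412500, nat_lit 1271250], [nat_lit 51, nat_lit 40, nat_lit 20, nat_lit 80, nat_lit 1, nat_lit 289, nat_lit 75, nat_lit 9]⟩,
 zbF0, []⟩
noncomputable def p007_l168 : Lf2 := ⟨nat_lit 0, nat_lit 5, [nat_lit 4, nat_lit 5, nat_lit 5, nat_lit 20], false, nat_lit 0, nat_lit 0, nat_lit 0, nat_lit 0, ⟨nat_lit 1000, nat_lit 0, nat_lit 0, nat_lit 0, nat_lit 0, nat_lit 0, nat_lit 0, nat_lit 0, nat_lit 0, nat_lit 0, nat_lit 0, nat_lit 0, nat_lit 0, nat_lit 0, nat_lit 0, nat_lit 0, false, false⟩,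
 nat_lit 16449, nat_lit 1421, nat_lit 0, nat_lit 0, nat_lit 9414, nat_lit 8453, nat_lit 0, nat_lit 0, nat_lit 0, nat_lit 0, nat_lit 0, nat_lit 0, nat_lit 0, nat_lit 0, nat_lit 0, nat_lit 0, nat_lit 0, nat_lit 0, [],
 ⟨p007_k26, nat_lit 0, nat_lit 0, nat_lit 281, nat_lit 0, nat_lit 21393, [nat_lit 6250000000, nat_lit 7968000001, nat_lit 9842000000], [], [nat_lit 30893534472, nat_lit 30959120664, nat_lit 30370581217, nat_lit 30436208608], nat_lit 1271250, nat_lit 1271250, nat_lit 88400, nat_lit 111251, nat_lit 0, nat_lit 0, [nat_lit 1412500, nat_lit 1271250, nat_lit 1271250], [nat_lit 25, nat_lit 40, nat_lit 20, nat_lit 80, nat_lit 17, nat_lit 289, nat_lit 75, nat_lit 9]⟩, ⟨p007_k34, nat_lit 0, nat_lit 0, nat_lit 0, nat_lit 0, nat_lit 21992, [nat_lit 5449500000, nat_lit 7089500000, nat_lit 8885500000], [], [nat_lit 26391740983, nat_lit 26462515391, nat_lit 25926330230, nat_lit 25997123125],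 nat_lit 1271250, nat_lit 1271250, nat_lit 88400, nat_lit 111251, nat_lit 0, nat_lit 0, [nat_lit 1271250, nat_lit 1271250, nat_lit 1271250], [nat_lit 96, nat_lit 40, nat_lit 20, nat_lit 40]⟩,
 zbF0, []⟩
noncomputable def p007_l169 : Lf2 := ⟨nat_lit 3, nat_lit 5, [nat_lit 4, nat_lit 5, nat_lit 5, nat_lit 20], false, nat_lit 0, nat_lit 0, nat_lit 0, nat_lit 0, zbN0,
 nat_lit 0, nat_lit 0, nat_lit 0, nat_lit 0, nat_lit 0, nat_lit 0, nat_lit 0, nat_lit 0, nat_lit 0, nat_lit 0, nat_lit 0, nat_lit 0, nat_lit 0, nat_lit 0, nat_lit 0, nat_lit 0, nat_lit 0, nat_lit 0, [],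
 C1.Rw.none, ⟨p007_k33, nat_lit 0, nat_lit 0, nat_lit 266, nat_lit 0, nat_lit 21992, [], [], [], nat_lit 1271250, nat_lit 1271250, nat_lit 88400, nat_lit 111251, nat_lit 0, nat_lit 0, [nat_lit 1412500, nat_lit 1271250], [nat_lit 51, nat_lit 40, nat_lit 20, nat_lit 80, nat_lit 1, nat_lit 289, nat_lit 75, nat_lit 9]⟩,
 zbF0, []⟩
noncomputable def p007_l170 : Lf2 := ⟨nat_lit 1, nat_lit 5, [nat_lit 4, nat_lit 5, nat_lit 5, nat_lit 20], false, nat_lit 0, nat_lit 0, nat_lit 0, nat_lit 0, zbN0,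
 nat_lit 0, nat_lit 0, nat_lit 0, nat_lit 0, nat_lit 0, nat_lit 0, nat_lit 0, nat_lit 0, nat_lit 0, nat_lit 0, nat_lit 0, nat_lit 0, nat_lit 0, nat_lit 0, nat_lit 0, nat_lit 0, nat_lit 0, nat_lit 0, [],
 C1.Rw.none, C1.Rw.none,
 zbF0, []⟩
noncomputable def p007_l171 : Lf2 := ⟨nat_lit 0, nat_lit 5, [nat_lit 4, nat_lit 5, nat_lit 5, nat_lit 20], true, nat_lit 0, nat_lit 0, nat_lit 0, nat_lit 0, ⟨nat_lit 0, nat_lit 0, nat_lit 1000, nat_lit 5, nat_lit 72, nat_lit 0, nat_lit 0, nat_lit 0, nat_lit 0, nat_lit 215, nat_lit 48600, nat_lit 269, nat_lit 64873852, nat_lit 0, nat_lit 0, nat_lit 703565, false, false⟩,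
 nat_lit 0, nat_lit 10601, nat_lit 0, nat_lit 0, nat_lit 5339, nat_lit 0, nat_lit 0, nat_lit 0, nat_lit 0, nat_lit 0, nat_lit 0, nat_lit 0, nat_lit 0, nat_lit 0, nat_lit 60, nat_lit 400000, nat_lit 0, nat_lit 0, [(nat_lit 3, [(nat_lit 5, nat_lit 1000)])],
 ⟨p007_k35, nat_lit 0, nat_lit 0, nat_lit 266, nat_lit 0, nat_lit 22894, [nat_lit 2770400000, nat_lit 702400001, nat_lit 2000000], [], [nat_lit 15557382065, nat_lit 16061100208, nat_lit 14752004362, nat_lit 15251613652], nat_lit 1271250, nat_lit 1271250, nat_lit 111251, nat_lit 230001, nat_lit 0, nat_lit 0, [nat_lit 1412500, nat_lit 1271250, nat_lit 1271250], [nat_lit 25, nat_lit 40, nat_lit 20, nat_lit 80, nat_lit 17, nat_lit 289, nat_lit 75, nat_lit 9]⟩, C1.Rw.none,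
 ⟨nat_lit 6324, nat_lit 6520, ⟨.ofNat (nat_lit 153250), .ofNat (nat_lit 195344), .ofNat (nat_lit 158599), .ofNat (nat_lit 200693), .ofNat (nat_lit 161861), .ofNat (nat_lit 202993), .ofNat (nat_lit 167203), .ofNat (nat_lit 208335)⟩, ⟨.ofNat (nat_lit 0), .ofNat (nat_lit 0), .ofNat (nat_lit 0), .ofNat (nat_lit 0), .ofNat (nat_lit 0), .ofNat (nat_lit 0), .ofNat (nat_lit 0), .ofNat (nat_lit 0)⟩⟩, []⟩
noncomputable def p007_l172 : Lf2 := ⟨nat_lit 0, nat_lit 5, [nat_lit 4, nat_lit 5, nat_lit 5, nat_lit 20], false, nat_lit 0, nat_lit 0, nat_lit 0, nat_lit 0, ⟨nat_lit 1000, nat_lit 0, nat_lit 0, nat_lit 0, nat_lit 0, nat_lit 0, nat_lit 0, nat_lit 0, nat_lit 0, nat_lit 0, nat_lit 0, nat_lit 0, nat_lit 0, nat_lit 0, nat_lit 0, nat_lit 0, false, false⟩,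
 nat_lit 18157, nat_lit 0, nat_lit 0, nat_lit 0, nat_lit 9377, nat_lit 4285, nat_lit 0, nat_lit 0, nat_lit 0, nat_lit 0, nat_lit 0, nat_lit 0, nat_lit 0, nat_lit 0, nat_lit 0, nat_lit 0, nat_lit 0, nat_lit 0, [],
 ⟨p007_k22, nat_lit 0, nat_lit 0, nat_lit 298, nat_lit 0, nat_lit 44951, [nat_lit 6250000000, nat_lit 7968000001, nat_lit 9842000000], [], [nat_lit 31167093444, nat_lit 31586058745, nat_lit 28467331701, nat_lit 28792061436], nat_lit 1271250, nat_lit 1271250, nat_lit 65850, nat_lit 230001, nat_lit 0, nat_lit 0, [nat_lit 1412500, nat_lit 1271250, nat_lit 1271250], [nat_lit 25, nat_lit 40, nat_lit 20, nat_lit 80, nat_lit 17, nat_lit 289, nat_lit 75, nat_lit 9]⟩, ⟨p007_k19, nat_lit 0, nat_lit 0, nat_lit 0, nat_lit 0, nat_lit 44951, [nat_lit 2637500000, nat_lit 5449500000, nat_lit 7089500000, nat_lit 8885500000], [], [nat_lit 24576307137, nat_lit 24881027832, nat_lit 23542145120,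 nat_lit 23830913100], nat_lit 1271250, nat_lit 1271250, nat_lit 65850, nat_lit 230001, nat_lit 0, nat_lit 0, [nat_lit 631250, nat_lit 1271250, nat_lit 1271250, nat_lit 1271250], [nat_lit 117, nat_lit 40, nat_lit 20, nat_lit 40]⟩,
 zbF0, [⟨nat_lit 0, nat_lit 100, nat_lit 100, nat_lit 37, nat_lit 127944137⟩, ⟨nat_lit 0, nat_lit 100, nat_lit 100, nat_lit 35, nat_lit 1345551854⟩]⟩
noncomputable def p007_l173 : Lf2 := ⟨nat_lit 3, nat_lit 5, [nat_lit 4, nat_lit 5, nat_lit 5, nat_lit 20], false, nat_lit 0, nat_lit 0, nat_lit 0, nat_lit 0, zbN0,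
 nat_lit 0, nat_lit 0, nat_lit 0, nat_lit 0, nat_lit 0, nat_lit 0, nat_lit 0, nat_lit 0, nat_lit 0, nat_lit 0, nat_lit 0, nat_lit 0, nat_lit 0, nat_lit 0, nat_lit 0, nat_lit 0, nat_lit 0, nat_lit 0, [],
 C1.Rw.none, ⟨p007_k36, nat_lit 0, nat_lit 0, nat_lit 295, nat_lit 0, nat_lit 44951, [], [], [], nat_lit 1271250, nat_lit 1271250, nat_lit 65850, nat_lit 230001, nat_lit 0, nat_lit 0, [nat_lit 1412500, nat_lit 1271250], [nat_lit 51, nat_lit 40, nat_lit 20, nat_lit 80, nat_lit 1, nat_lit 289, nat_lit 75, nat_lit 9]⟩,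
 zbF0, []⟩
noncomputable def b_NL_550_550_0_38 : St := ⟨false, nat_lit 1, nat_lit 1, nat_lit 1, nat_lit 20, nat_lit 220, nat_lit 240, nat_lit 220, nat_lit 240, nat_lit 4, nat_lit 40, nat_lit 0, nat_lit 0, nat_lit 0, nat_lit 0, nat_lit 0, nat_lit 0, nat_lit 32, nat_lit 40, nat_lit 0, nat_lit 0, nat_lit 0, nat_lit 0⟩
theorem d_NL_550_550_0_38 (h : EB TB.env) : Dead b_NL_550_550_0_38 := chkB_sound0 h (T :=
(.spl (nat_lit 1) (nat_lit 230)
(.leaf p007_l131)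
(.ord (.trZ (nat_lit 0) (nat_lit 100) (nat_lit 100) (nat_lit 30) (nat_lit 8) (.spl (nat_lit 1) (nat_lit 235)
(.spl (nat_lit 2) (nat_lit 20)
(.spl (nat_lit 0) (nat_lit 235)
(.leaf p007_l132)
(.spl (nat_lit 6) (nat_lit 36)
(.spl (nat_lit 2) (nat_lit 16)
(.spl (nat_lit 2) (nat_lit 12)
(.leaf p007_l133)
(.spl (nat_lit 1) (nat_lit 233)
(.spl (nat_lit 1) (nat_lit 232)
(.spl (nat_lit 0) (nat_lit 238)
(.leaf p007_l134)
(.spl (nat_lit 0) (nat_lit 239)
(.spl (nat_lit 1) (nat_lit 231)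
(.leaf p007_l135)
(.spl (nat_lit 8) (nat_lit 800)
(.leaf p007_l136)
(.leaf p007_l137)))
(.spl (nat_lit 1) (nat_lit 231)
(.leaf p007_l138)
(.spl (nat_lit 8) (nat_lit 800)
(.leaf p007_l139)
(.leaf p007_l140)))))
(.spl (nat_lit 0) (nat_lit 238)
(.spl (nat_lit 0) (nat_lit 237)
(.leaf p007_l141)
(.spl (nat_lit 8) (nat_lit 800)
(.leaf p007_l142)
(.leaf p007_l143)))
(.spl (nat_lit 0) (nat_lit 239)
(.spl (nat_lit 8) (nat_lit 800)
(.leaf p007_l144)
(.leaf p007_l145))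
(.spl (nat_lit 8) (nat_lit 800)
(.leaf p007_l146)
(.leaf p007_l147)))))
(.spl (nat_lit 1) (nat_lit 234)
(.spl (nat_lit 0) (nat_lit 238)
(.spl (nat_lit 0) (nat_lit 237)
(.spl (nat_lit 0) (nat_lit 236)
(.leaf p007_l148)
(.spl (nat_lit 8) (nat_lit 800)
(.leaf p007_l149)
(.leaf p007_l150)))
(.spl (nat_lit 8) (nat_lit 800)
(.leaf p007_l151)
(.leaf p007_l152)))
(.spl (nat_lit 0) (nat_lit 239)
(.spl (nat_lit 8) (nat_lit 800)
(.leaf p007_l153)
(.leaf p007_l154))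
(.spl (nat_lit 8) (nat_lit 800)
(.leaf p007_l155)
(.leaf p007_l156))))
(.spl (nat_lit 8) (nat_lit 800)
(.leaf p007_l157)
(.leaf p007_l158)))))
(.spl (nat_lit 1) (nat_lit 233)
(.leaf p007_l159)
(.spl (nat_lit 1) (nat_lit 234)
(.leaf p007_l160)
(.spl (nat_lit 0) (nat_lit 238)
(.spl (nat_lit 0) (nat_lit 237)
(.spl (nat_lit 0) (nat_lit 236)
(.leaf p007_l161)
(.spl (nat_lit 8) (nat_lit 800)
(.leaf p007_l162)
(.leaf p007_l163)))
(.spl (nat_lit 8) (nat_lit 800)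
(.leaf p007_l164)
(.leaf p007_l165)))
(.spl (nat_lit 0) (nat_lit 239)
(.spl (nat_lit 8) (nat_lit 800)
(.leaf p007_l166)
(.leaf p007_l167))
(.spl (nat_lit 8) (nat_lit 800)
(.leaf p007_l168)
(.leaf p007_l169)))))))
(.leaf p007_l170)))
(.leaf p007_l171))
(.ord (.trZ (nat_lit 0) (nat_lit 100) (nat_lit 100) (nat_lit 35) (nat_lit 12) (.spl (nat_lit 8) (nat_lit 800)
(.leaf p007_l172)
(.leaf p007_l173))))))))) (by decide +kernel)
noncomputable def p007_l174 : Lf2 := ⟨nat_lit 0, nat_lit 5, [nat_lit 4, nat_lit 5, nat_lit 5, nat_lit 20], true, nat_lit 0, nat_lit 0, nat_lit 0, nat_lit 0, ⟨nat_lit 0, nat_lit 1000, nat_lit 0, nat_lit 5, nat_lit 80, nat_lit 0, nat_lit 0, nat_lit 0, nat_lit 0, nat_lit 0, nat_lit 0, nat_lit 0, nat_lit 0, nat_lit 0, nat_lit 0, nat_lit 5000000, false, false⟩,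
 nat_lit 0, nat_lit 13805, nat_lit 0, nat_lit 0, nat_lit 6602, nat_lit 0, nat_lit 1560, nat_lit 0, nat_lit 0, nat_lit 0, nat_lit 0, nat_lit 0, nat_lit 0, nat_lit 38102036393917, nat_lit 0, nat_lit 1000000, nat_lit 0, nat_lit 0, [(nat_lit 3, [(nat_lit 2, nat_lit 1000)])],
 ⟨p007_k37, nat_lit 0, nat_lit 0, nat_lit 503, nat_lit 0, nat_lit 427525, [nat_lit 3292500000, nat_lit 3077200001, nat_lit 1896400000], [], [nat_lit 23550579056, nat_lit 21867198848, nat_lit 25114675356, nat_lit 21824991184], nat_lit 1271250, nat_lit 1271250, nat_lit 21650, nat_lit 490000, nat_lit 0, nat_lit 0, [nat_lit 1412500, nat_lit 1271250, nat_lit 1271250], [nat_lit 25, nat_lit 40, nat_lit 20, nat_lit 80, nat_lit 17, nat_lit 317, nat_lit 100, nat_lit 10]⟩, C1.Rw.none,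
 ⟨nat_lit 6324, nat_lit 6709, ⟨.ofNat (nat_lit 99275), .ofNat (nat_lit 262970), .ofNat (nat_lit 120713), .ofNat (nat_lit 284409), .ofNat (nat_lit 118272), .ofNat (nat_lit 274574), .ofNat (nat_lit 139640), .ofNat (nat_lit 295942)⟩, ⟨.ofNat (nat_lit 0), .ofNat (nat_lit 0), .ofNat (nat_lit 0), .ofNat (nat_lit 0), .ofNat (nat_lit 0), .ofNat (nat_lit 0), .ofNat (nat_lit 0), .ofNat (nat_lit 0)⟩⟩, []⟩
noncomputable def p007_l175 : Lf2 := ⟨nat_lit 0, nat_lit 5, [nat_lit 4, nat_lit 5, nat_lit 5, nat_lit 20], true, nat_lit 0, nat_lit 0, nat_lit 0, nat_lit 0, ⟨nat_lit 0, nat_lit 1000, nat_lit 0, nat_lit 5, nat_lit 120, nat_lit 0, nat_lit 0, nat_lit 0, nat_lit 0, nat_lit 0, nat_lit 0, nat_lit 0, nat_lit 0, nat_lit 0, nat_lit 0, nat_lit 5000000, false, false⟩,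
 nat_lit 0, nat_lit 8596, nat_lit 0, nat_lit 0, nat_lit 4110, nat_lit 0, nat_lit 716, nat_lit 0, nat_lit 0, nat_lit 0, nat_lit 0, nat_lit 0, nat_lit 0, nat_lit 26478746772584, nat_lit 0, nat_lit 1000000, nat_lit 0, nat_lit 0, [(nat_lit 3, [(nat_lit 2, nat_lit 1000)])],
 ⟨p007_k37, nat_lit 0, nat_lit 0, nat_lit 433, nat_lit 0, nat_lit 427525, [nat_lit 3292500000, nat_lit 3077200001, nat_lit 1896400000], [], [nat_lit 27695694580, nat_lit 26529341762, nat_lit 28542435080, nat_lit 26509103000], nat_lit 1271250, nat_lit 1271250, nat_lit 490000, nat_lit 631250, nat_lit 0, nat_lit 0, [nat_lit 1412500, nat_lit 1271250, nat_lit 1271250], [nat_lit 25, nat_lit 40, nat_lit 20, nat_lit 80, nat_lit 17, nat_lit 317, nat_lit 100, nat_lit 9]⟩, C1.Rw.none,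
 ⟨nat_lit 6324, nat_lit 6709, ⟨.ofNat (nat_lit 262970), .ofNat (nat_lit 306048), .ofNat (nat_lit 284409), .ofNat (nat_lit 327487), .ofNat (nat_lit 274574), .ofNat (nat_lit 315706), .ofNat (nat_lit 295942), .ofNat (nat_lit 337074)⟩, ⟨.ofNat (nat_lit 0), .ofNat (nat_lit 0), .ofNat (nat_lit 0), .ofNat (nat_lit 0), .ofNat (nat_lit 0), .ofNat (nat_lit 0), .ofNat (nat_lit 0), .ofNat (nat_lit 0)⟩⟩, []⟩
noncomputable def p007_l176 : Lf2 := ⟨nat_lit 0, nat_lit 5, [nat_lit 4, nat_lit 5, nat_lit 5, nat_lit 20], false, nat_lit 0, nat_lit 0, nat_lit 0, nat_lit 0, ⟨nat_lit 1000, nat_lit 0, nat_lit 0, nat_lit 0, nat_lit 0, nat_lit 0, nat_lit 0, nat_lit 0, nat_lit 0, nat_lit 0, nat_lit 0, nat_lit 0, nat_lit 0, nat_lit 0, nat_lit 0, nat_lit 0, false, false⟩,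
 nat_lit 0, nat_lit 17439, nat_lit 0, nat_lit 0, nat_lit 8340, nat_lit 11266, nat_lit 6764, nat_lit 0, nat_lit 0, nat_lit 0, nat_lit 0, nat_lit 0, nat_lit 0, nat_lit 34628060433633, nat_lit 0, nat_lit 0, nat_lit 0, nat_lit 0, [],
 ⟨p007_k37, nat_lit 0, nat_lit 0, nat_lit 640, nat_lit 0, nat_lit 874124, [nat_lit 6250000000, nat_lit 7968000001, nat_lit 9842000000], [], [nat_lit 33323797520, nat_lit 29198678800, nat_lit 34768993800, nat_lit 30672202320], nat_lit 1271250, nat_lit 1271250, nat_lit 631250, nat_lit 780000, nat_lit 0, nat_lit 0, [nat_lit 1412500, nat_lit 1271250, nat_lit 1271250], [nat_lit 25, nat_lit 40, nat_lit 20, nat_lit 80, nat_lit 17, nat_lit 317, nat_lit 100, nat_lit 9]⟩, ⟨p007_k37, nat_lit 0, nat_lit 0, nat_lit 58, nat_lit 0, nat_lit 0, [nat_lit 6250000000, nat_lit 7968000000, nat_lit 9842000000], [], [nat_lit 9527232236, nat_lit 11937636192, nat_lit 9515719436, nat_lit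 11856583848], nat_lit 0, nat_lit 0, nat_lit 0, nat_lit 0, nat_lit 0, nat_lit 0, [], [nat_lit 25, nat_lit 40, nat_lit 20, nat_lit 80, nat_lit 17, nat_lit 317, nat_lit 100, nat_lit 9]⟩,
 zbF0, []⟩
noncomputable def p007_l177 : Lf2 := ⟨nat_lit 0, nat_lit 5, [nat_lit 4, nat_lit 5, nat_lit 5, nat_lit 20], false, nat_lit 0, nat_lit 0, nat_lit 0, nat_lit 0, ⟨nat_lit 1000, nat_lit 0, nat_lit 0, nat_lit 0, nat_lit 0, nat_lit 0, nat_lit 0, nat_lit 0, nat_lit 0, nat_lit 0, nat_lit 0, nat_lit 0, nat_lit 0, nat_lit 0, nat_lit 0, nat_lit 0, false, false⟩,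
 nat_lit 0, nat_lit 13868, nat_lit 0, nat_lit 0, nat_lit 6632, nat_lit 11512, nat_lit 4675, nat_lit 0, nat_lit 0, nat_lit 0, nat_lit 0, nat_lit 0, nat_lit 0, nat_lit 25632220344353, nat_lit 0, nat_lit 0, nat_lit 0, nat_lit 0, [],
 ⟨p007_k37, nat_lit 0, nat_lit 0, nat_lit 631, nat_lit 0, nat_lit 874124, [nat_lit 6250000000, nat_lit 7968000001, nat_lit 9842000000], [], [nat_lit 39099528464, nat_lit 35596187872, nat_lit 36618526720, nat_lit 37001026496], nat_lit 1271250, nat_lit 1271250, nat_lit 780000, nat_lit 1762500, nat_lit 0, nat_lit 0, [nat_lit 1412500, nat_lit 1271250, nat_lit 1271250], [nat_lit 25, nat_lit 40, nat_lit 20, nat_lit 80, nat_lit 17, nat_lit 345, nat_lit 125, nat_lit 10]⟩, ⟨p007_k37, nat_lit 0, nat_lit 0, nat_lit 88, nat_lit 0, nat_lit 0, [nat_lit 6250000000, nat_lit 7968000000, nat_lit 9842000000], [], [nat_lit 9310369952, nat_lit 11686703136, nat_lit 17968423360, nat_lit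 20220698048], nat_lit 0, nat_lit 0, nat_lit 0, nat_lit 0, nat_lit 0, nat_lit 0, [], [nat_lit 25, nat_lit 40, nat_lit 20, nat_lit 80, nat_lit 17, nat_lit 345, nat_lit 125, nat_lit 10]⟩,
 zbF0, []⟩
noncomputable def p007_l178 : Lf2 := ⟨nat_lit 0, nat_lit 5, [nat_lit 4, nat_lit 5, nat_lit 5, nat_lit 20], false, nat_lit 0, nat_lit 0, nat_lit 0, nat_lit 0, ⟨nat_lit 1000, nat_lit 0, nat_lit 0, nat_lit 0, nat_lit 0, nat_lit 0, nat_lit 0, nat_lit 0, nat_lit 0, nat_lit 0, nat_lit 0, nat_lit 0, nat_lit 0, nat_lit 0, nat_lit 0, nat_lit 0, false, false⟩,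
 nat_lit 0, nat_lit 16144, nat_lit 0, nat_lit 0, nat_lit 7721, nat_lit 6858, nat_lit 2982, nat_lit 0, nat_lit 0, nat_lit 3193, nat_lit 0, nat_lit 0, nat_lit 0, nat_lit 0, nat_lit 0, nat_lit 0, nat_lit 0, nat_lit 0, [],
 ⟨p007_k37, nat_lit 0, nat_lit 0, nat_lit 596, nat_lit 0, nat_lit 874124, [nat_lit 6250000000, nat_lit 7968000001, nat_lit 9842000000], [], [nat_lit 32325978833, nat_lit 32650527077, nat_lit 38030260880, nat_lit 38148073488], nat_lit 1271250, nat_lit 1271250, nat_lit 1271250, nat_lit 1271250, nat_lit 0, nat_lit 0, [nat_lit 1412500, nat_lit 1271250, nat_lit 1271250], [nat_lit 25, nat_lit 40, nat_lit 20, nat_lit 80, nat_lit 17, nat_lit 401, nat_lit 175, nat_lit 11]⟩, ⟨p007_k37, nat_lit 0, nat_lit 0, nat_lit 226, nat_lit 0, nat_lit 0, [nat_lit 6250000000, nat_lit 7968000000, nat_lit 9842000000], [], [nat_lit 24554420438, nat_lit 25432169258, nat_lit 35563076458, nat_lit 35987491416],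 nat_lit 0, nat_lit 0, nat_lit 0, nat_lit 0, nat_lit 0, nat_lit 0, [], [nat_lit 25, nat_lit 40, nat_lit 20, nat_lit 80, nat_lit 17, nat_lit 401, nat_lit 175, nat_lit 11]⟩,
 zbF0, []⟩
noncomputable def p007_l179 : Lf2 := ⟨nat_lit 0, nat_lit 5, [nat_lit 4, nat_lit 5, nat_lit 5, nat_lit 20], false, nat_lit 0, nat_lit 0, nat_lit 0, nat_lit 0, ⟨nat_lit 32, nat_lit 968, nat_lit 0, nat_lit 5, nat_lit 97, nat_lit 0, nat_lit 0, nat_lit 0, nat_lit 0, nat_lit 0, nat_lit 0, nat_lit 0, nat_lit 0, nat_lit 0, nat_lit 0, nat_lit 5000000, false, false⟩,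
 nat_lit 12314, nat_lit 0, nat_lit 0, nat_lit 0, nat_lit 5889, nat_lit 660, nat_lit 1396, nat_lit 0, nat_lit 0, nat_lit 123, nat_lit 0, nat_lit 0, nat_lit 0, nat_lit 28559944751983, nat_lit 0, nat_lit 968000, nat_lit 0, nat_lit 0, [(nat_lit 3, [(nat_lit 2, nat_lit 968)])],
 ⟨p007_k37, nat_lit 0, nat_lit 0, nat_lit 503, nat_lit 0, nat_lit 427525, [nat_lit 3387140000, nat_lit 3233705601, nat_lit 2150659200], [], [nat_lit 24539564792, nat_lit 24069811386, nat_lit 28301092530, nat_lit 25408286172], nat_lit 1271250, nat_lit 1271250, nat_lit 21650, nat_lit 780000, nat_lit 0, nat_lit 0, [nat_lit 1412500, nat_lit 1271250, nat_lit 1271250], [nat_lit 25, nat_lit 40, nat_lit 20, nat_lit 80, nat_lit 17, nat_lit 317, nat_lit 100, nat_lit 10]⟩, ⟨p007_k37, nat_lit 0, nat_lit 0, nat_lit 503, nat_lit 0, nat_lit 427525, [nat_lit 200000000, nat_lit 254976000, nat_lit 314944000], [], [nat_lit 1162830864,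 nat_lit 1314992618, nat_lit 772468584, nat_lit 456179744], nat_lit 1271250, nat_lit 1271250, nat_lit 21650, nat_lit 780000, nat_lit 0, nat_lit 0, [nat_lit 1412500, nat_lit 1271250, nat_lit 1271250], [nat_lit 25, nat_lit 40, nat_lit 20, nat_lit 80, nat_lit 17, nat_lit 317, nat_lit 100, nat_lit 10]⟩,
 ⟨nat_lit 6324, nat_lit 6709, ⟨.ofNat (nat_lit 99275), .ofNat (nat_lit 349126), .ofNat (nat_lit 120713), .ofNat (nat_lit 370564), .ofNat (nat_lit 118272), .ofNat (nat_lit 356838), .ofNat (nat_lit 139640), .ofNat (nat_lit 378206)⟩, ⟨.ofNat (nat_lit 0), .ofNat (nat_lit 0), .ofNat (nat_lit 0), .ofNat (nat_lit 0), .ofNat (nat_lit 0), .ofNat (nat_lit 0), .ofNat (nat_lit 0), .ofNat (nat_lit 0)⟩⟩, []⟩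
noncomputable def p007_l180 : Lf2 := ⟨nat_lit 0, nat_lit 5, [nat_lit 4, nat_lit 5, nat_lit 5, nat_lit 20], false, nat_lit 0, nat_lit 0, nat_lit 0, nat_lit 0, ⟨nat_lit 92, nat_lit 908, nat_lit 0, nat_lit 5, nat_lit 196, nat_lit 0, nat_lit 0, nat_lit 0, nat_lit 0, nat_lit 0, nat_lit 0, nat_lit 0, nat_lit 0, nat_lit 0, nat_lit 0, nat_lit 5000000, false, false⟩,
 nat_lit 6462, nat_lit 0, nat_lit 0, nat_lit 0, nat_lit 3090, nat_lit 1512, nat_lit 126, nat_lit 0, nat_lit 0, nat_lit 116, nat_lit 0, nat_lit 0, nat_lit 0, nat_lit 19348056102130, nat_lit 0, nat_lit 908000, nat_lit 0, nat_lit 0, [(nat_lit 3, [(nat_lit 2, nat_lit 908)])],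
 ⟨p007_k37, nat_lit 0, nat_lit 0, nat_lit 383, nat_lit 0, nat_lit 427525, [nat_lit 3564590000, nat_lit 3527153601, nat_lit 2627395200], [], [nat_lit 30204057180, nat_lit 28948255120, nat_lit 33068701881, nat_lit 31632154701], nat_lit 1271250, nat_lit 1271250, nat_lit 780000, nat_lit 1762500, nat_lit 0, nat_lit 0, [nat_lit 1412500, nat_lit 1271250, nat_lit 1271250], [nat_lit 25, nat_lit 40, nat_lit 20, nat_lit 80, nat_lit 17, nat_lit 345, nat_lit 125, nat_lit 10]⟩, ⟨p007_k37, nat_lit 0, nat_lit 0, nat_lit 383, nat_lit 0, nat_lit 427525, [nat_lit 575000000, nat_lit 733056000, nat_lit 905464000], [], [nat_lit 4494595328, nat_lit 3695143472, nat_lit 2238020808, nat_lit 2376982808], nat_lit 1271250, nat_lit 1271250, nat_lit 780000, nat_lit 1762500, nat_lit 0, nat_lit 0, [nat_lit 1412500, nat_lit 1271250, nat_lit 1271250], [nat_lit 25, nat_lit 40, nat_lit 20, nat_lit 80, nat_lit 17, nat_lit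 345, nat_lit 125, nat_lit 10]⟩,
 ⟨nat_lit 6324, nat_lit 6709, ⟨.ofNat (nat_lit 349126), .ofNat (nat_lit 607557), .ofNat (nat_lit 370564), .ofNat (nat_lit 628989), .ofNat (nat_lit 356838), .ofNat (nat_lit 603596), .ofNat (nat_lit 378206), .ofNat (nat_lit 624956)⟩, ⟨.ofNat (nat_lit 0), .ofNat (nat_lit 0), .ofNat (nat_lit 0), .ofNat (nat_lit 0), .ofNat (nat_lit 0), .ofNat (nat_lit 0), .ofNat (nat_lit 0), .ofNat (nat_lit 0)⟩⟩, []⟩
noncomputable def p007_l181 : Lf2 := ⟨nat_lit 0, nat_lit 5, [nat_lit 4, nat_lit 5, nat_lit 5, nat_lit 20], false, nat_lit 0, nat_lit 0, nat_lit 0, nat_lit 0, ⟨nat_lit 1000, nat_lit 0, nat_lit 0, nat_lit 0, nat_lit 0, nat_lit 0, nat_lit 0, nat_lit 0, nat_lit 0, nat_lit 0, nat_lit 0, nat_lit 0, nat_lit 0, nat_lit 0, nat_lit 0, nat_lit 0, false, false⟩,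
 nat_lit 17693, nat_lit 0, nat_lit 0, nat_lit 0, nat_lit 8461, nat_lit 8461, nat_lit 2570, nat_lit 0, nat_lit 0, nat_lit 878, nat_lit 0, nat_lit 0, nat_lit 0, nat_lit 0, nat_lit 0, nat_lit 0, nat_lit 0, nat_lit 0, [],
 ⟨p007_k37, nat_lit 0, nat_lit 0, nat_lit 398, nat_lit 0, nat_lit 427525, [nat_lit 6250000000, nat_lit 7968000001, nat_lit 9842000000], [], [nat_lit 28640409927, nat_lit 28992883915, nat_lit 39306328972, nat_lit 39999888112], nat_lit 1271250, nat_lit 1271250, nat_lit 1271250, nat_lit 1271250, nat_lit 0, nat_lit 0, [nat_lit 1412500, nat_lit 1271250, nat_lit 1271250], [nat_lit 25, nat_lit 40, nat_lit 20, nat_lit 80, nat_lit 17, nat_lit 401, nat_lit 175, nat_lit 11]⟩, ⟨p007_k37, nat_lit 0, nat_lit 0, nat_lit 398, nat_lit 0, nat_lit 427525, [nat_lit 6250000000, nat_lit 7968000000, nat_lit 9842000000], [], [nat_lit 35594353160, nat_lit 35817853300, nat_lit 41442811906, nat_lit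 41614268688], nat_lit 1271250, nat_lit 1271250, nat_lit 1271250, nat_lit 1271250, nat_lit 0, nat_lit 0, [nat_lit 1412500, nat_lit 1271250, nat_lit 1271250], [nat_lit 25, nat_lit 40, nat_lit 20, nat_lit 80, nat_lit 17, nat_lit 401, nat_lit 175, nat_lit 11]⟩,
 zbF0, []⟩
noncomputable def b_NL_550_550_0_39 : St := ⟨false, nat_lit 1, nat_lit 2, nat_lit 2, nat_lit 20, nat_lit 220, nat_lit 240, nat_lit 220, nat_lit 240, nat_lit 4, nat_lit 400, nat_lit 0, nat_lit 0, nat_lit 0, nat_lit 0, nat_lit 0, nat_lit 0, nat_lit 0, nat_lit 40, nat_lit 0, nat_lit 0, nat_lit 0, nat_lit 0⟩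
theorem d_NL_550_550_0_39 (h : EB TB.env) : Dead b_NL_550_550_0_39 := chkB_sound0 h (T :=
(.st (nat_lit 1)
(.spl (nat_lit 2) (nat_lit 120)
(.spl (nat_lit 2) (nat_lit 80)
(.leaf p007_l174)
(.spl (nat_lit 2) (nat_lit 100)
(.leaf p007_l175)
(.leaf p007_l176)))
(.spl (nat_lit 2) (nat_lit 240)
(.leaf p007_l177)
(.leaf p007_l178)))
(.spl (nat_lit 2) (nat_lit 120)
(.leaf p007_l179)
(.spl (nat_lit 2) (nat_lit 240)
(.leaf p007_l180)
(.leaf p007_l181))))) (by decide +kernel)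
noncomputable def p007_l182 : Lf2 := ⟨nat_lit 0, nat_lit 5, [nat_lit 4, nat_lit 5, nat_lit 5, nat_lit 20], true, nat_lit 0, nat_lit 0, nat_lit 0, nat_lit 0, ⟨nat_lit 0, nat_lit 0, nat_lit 1000, nat_lit 4, nat_lit 91, nat_lit 0, nat_lit 0, nat_lit 0, nat_lit 0, nat_lit 215, nat_lit 77067, nat_lit 283, nat_lit 63723027, nat_lit 0, nat_lit 0, nat_lit 976457, false, false⟩,
 nat_lit 0, nat_lit 0, nat_lit 0, nat_lit 4019, nat_lit 4432, nat_lit 0, nat_lit 0, nat_lit 0, nat_lit 0, nat_lit 0, nat_lit 0, nat_lit 0, nat_lit 0, nat_lit 0, nat_lit 103, nat_lit 661600, nat_lit 0, nat_lit 0, [(nat_lit 6, [(nat_lit 5, nat_lit 564), (nat_lit 6, nat_lit 436)])],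
 ⟨p007_k38, nat_lit 0, nat_lit 0, nat_lit 297, nat_lit 0, nat_lit 0, [nat_lit 3410214400, nat_lit 6976000], [], [nat_lit 15733692640, nat_lit 17090357904, nat_lit 14817245728, nat_lit 15689220880], nat_lit 0, nat_lit 0, nat_lit 0, nat_lit 0, nat_lit 0, nat_lit 0, [], [nat_lit 70, nat_lit 40, nat_lit 20, nat_lit 80, nat_lit 13, nat_lit 345, nat_lit 125, nat_lit 10]⟩, C1.Rw.none,
 ⟨nat_lit 5916, nat_lit 6325, ⟨.ofNat (nat_lit 45942), .ofNat (nat_lit 374999), .ofNat (nat_lit 67309), .ofNat (nat_lit 396366), .ofNat (nat_lit 64652), .ofNat (nat_lit 378786), .ofNat (nat_lit 85991), .ofNat (nat_lit 400126)⟩, ⟨.ofNat (nat_lit 0), .ofNat (nat_lit 0), .ofNat (nat_lit 0), .ofNat (nat_lit 0), .ofNat (nat_lit 0), .ofNat (nat_lit 0), .ofNat (nat_lit 0), .ofNat (nat_lit 0)⟩⟩, [⟨nat_lit 0, nat_lit 100, nat_lit 96, nat_lit 20, nat_lit 136962359⟩]⟩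
noncomputable def p007_l183 : Lf2 := ⟨nat_lit 0, nat_lit 5, [nat_lit 4, nat_lit 5, nat_lit 5, nat_lit 20], false, nat_lit 0, nat_lit 0, nat_lit 0, nat_lit 0, ⟨nat_lit 1000, nat_lit 0, nat_lit 0, nat_lit 0, nat_lit 0, nat_lit 0, nat_lit 0, nat_lit 0, nat_lit 0, nat_lit 0, nat_lit 0, nat_lit 0, nat_lit 0, nat_lit 0, nat_lit 0, nat_lit 0, false, false⟩,
 nat_lit 0, nat_lit 0, nat_lit 0, nat_lit 1748, nat_lit 7733, nat_lit 9105, nat_lit 0, nat_lit 0, nat_lit 0, nat_lit 0, nat_lit 0, nat_lit 0, nat_lit 0, nat_lit 0, nat_lit 0, nat_lit 0, nat_lit 0, nat_lit 0, [],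
 ⟨p007_k38, nat_lit 0, nat_lit 0, nat_lit 201, nat_lit 0, nat_lit 0, [nat_lit 4688000000, nat_lit 9842000000], [], [nat_lit 25657134460, nat_lit 27255664594, nat_lit 41413089472, nat_lit 42106345814], nat_lit 0, nat_lit 0, nat_lit 0, nat_lit 0, nat_lit 0, nat_lit 0, [], [nat_lit 70, nat_lit 40, nat_lit 20, nat_lit 80, nat_lit 13, nat_lit 401, nat_lit 175, nat_lit 12]⟩, ⟨p007_k39, nat_lit 0, nat_lit 0, nat_lit 292, nat_lit 0, nat_lit 0, [nat_lit 7968000000, nat_lit 14058000000], [], [nat_lit 39637823760, nat_lit 39932382250, nat_lit 51610123632, nat_lit 51479172525], nat_lit 0, nat_lit 0, nat_lit 0, nat_lit 0, nat_lit 0, nat_lit 0, [], [nat_lit 121, nat_lit 40, nat_lit 20, nat_lit 80, nat_lit 28, nat_lit 373, nat_lit 150, nat_lit 9]⟩,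
 zbF0, []⟩
noncomputable def p007_l184 : Lf2 := ⟨nat_lit 0, nat_lit 5, [nat_lit 4, nat_lit 5, nat_lit 5, nat_lit 20], true, nat_lit 0, nat_lit 0, nat_lit 0, nat_lit 0, ⟨nat_lit 0, nat_lit 0, nat_lit 1000, nat_lit 4, nat_lit 91, nat_lit 0, nat_lit 0, nat_lit 0, nat_lit 0, nat_lit 215, nat_lit 77067, nat_lit 283, nat_lit 63723027, nat_lit 0, nat_lit 0, nat_lit 976457, false, false⟩,
 nat_lit 0, nat_lit 0, nat_lit 0, nat_lit 4019, nat_lit 4432, nat_lit 0, nat_lit 0, nat_lit 0, nat_lit 0, nat_lit 0, nat_lit 0, nat_lit 0, nat_lit 0, nat_lit 0, nat_lit 103, nat_lit 661600, nat_lit 0, nat_lit 0, [(nat_lit 6, [(nat_lit 5, nat_lit 564), (nat_lit 6, nat_lit 436)])],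
 ⟨p007_k38, nat_lit 0, nat_lit 0, nat_lit 297, nat_lit 0, nat_lit 0, [nat_lit 3410214400, nat_lit 6976000], [], [nat_lit 15733692640, nat_lit 17090357904, nat_lit 14817245728, nat_lit 15689220880], nat_lit 0, nat_lit 0, nat_lit 0, nat_lit 0, nat_lit 0, nat_lit 0, [], [nat_lit 70, nat_lit 40, nat_lit 20, nat_lit 80, nat_lit 13, nat_lit 345, nat_lit 125, nat_lit 10]⟩, C1.Rw.none,
 ⟨nat_lit 5916, nat_lit 6325, ⟨.ofNat (nat_lit 45942), .ofNat (nat_lit 374999), .ofNat (nat_lit 67309), .ofNat (nat_lit 396366), .ofNat (nat_lit 64652), .ofNat (nat_lit 378786), .ofNat (nat_lit 85991), .ofNat (nat_lit 400126)⟩, ⟨.ofNat (nat_lit 0), .ofNat (nat_lit 0), .ofNat (nat_lit 0), .ofNat (nat_lit 0), .ofNat (nat_lit 0), .ofNat (nat_lit 0), .ofNat (nat_lit 0), .ofNat (nat_lit 0)⟩⟩, [⟨nat_lit 0, nat_lit 100, nat_lit 96, nat_lit 20, nat_lit 136962359⟩]⟩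
noncomputable def p007_l185 : Lf2 := ⟨nat_lit 0, nat_lit 5, [nat_lit 4, nat_lit 5, nat_lit 5, nat_lit 20], true, nat_lit 0, nat_lit 0, nat_lit 0, nat_lit 0, ⟨nat_lit 0, nat_lit 0, nat_lit 1000, nat_lit 4, nat_lit 187, nat_lit 0, nat_lit 0, nat_lit 0, nat_lit 0, nat_lit 215, nat_lit 2400, nat_lit 227, nat_lit 54963601, nat_lit 0, nat_lit 0, nat_lit 2354293, false, true⟩,
 nat_lit 0, nat_lit 0, nat_lit 0, nat_lit 4506, nat_lit 4759, nat_lit 0, nat_lit 0, nat_lit 0, nat_lit 0, nat_lit 0, nat_lit 0, nat_lit 0, nat_lit 0, nat_lit 0, nat_lit 115, nat_lit 755800, nat_lit 0, nat_lit 0, [(nat_lit 6, [(nat_lit 5, nat_lit 407), (nat_lit 6, nat_lit 593)])],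
 ⟨p007_k38, nat_lit 0, nat_lit 0, nat_lit 145, nat_lit 0, nat_lit 0, [nat_lit 3726307201, nat_lit 88000], [], [nat_lit 13360485781, nat_lit 14422012123, nat_lit 16157367632, nat_lit 17286066446], nat_lit 0, nat_lit 0, nat_lit 0, nat_lit 0, nat_lit 0, nat_lit 0, [], [nat_lit 70, nat_lit 40, nat_lit 20, nat_lit 80, nat_lit 13, nat_lit 345, nat_lit 125, nat_lit 10]⟩, C1.Rw.none,
 ⟨nat_lit 5916, nat_lit 6325, ⟨.ofNat (nat_lit 374999), .ofNat (nat_lit 539519), .ofNat (nat_lit 396366), .ofNat (nat_lit 560879), .ofNat (nat_lit 378786), .ofNat (nat_lit 535845), .ofNat (nat_lit 400126), .ofNat (nat_lit 557177)⟩, ⟨.ofNat (nat_lit 0), .ofNat (nat_lit 0), .ofNat (nat_lit 0), .ofNat (nat_lit 0), .ofNat (nat_lit 0), .ofNat (nat_lit 0), .ofNat (nat_lit 0), .ofNat (nat_lit 0)⟩⟩, []⟩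
noncomputable def p007_l186 : Lf2 := ⟨nat_lit 0, nat_lit 5, [nat_lit 4, nat_lit 5, nat_lit 5, nat_lit 20], true, nat_lit 0, nat_lit 0, nat_lit 0, nat_lit 0, ⟨nat_lit 0, nat_lit 0, nat_lit 1000, nat_lit 6, nat_lit 251, nat_lit 0, nat_lit 0, nat_lit 0, nat_lit 0, nat_lit 215, nat_lit 179468, nat_lit 200, nat_lit 48018320, nat_lit 0, nat_lit 0, nat_lit 2980254, false, true⟩,
 nat_lit 0, nat_lit 0, nat_lit 0, nat_lit 2896, nat_lit 3680, nat_lit 0, nat_lit 0, nat_lit 0, nat_lit 0, nat_lit 0, nat_lit 0, nat_lit 0, nat_lit 0, nat_lit 0, nat_lit 76, nat_lit 448600, nat_lit 0, nat_lit 0, [(nat_lit 6, [(nat_lit 5, nat_lit 919), (nat_lit 6, nat_lit 81)])],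
 ⟨p007_k38, nat_lit 0, nat_lit 0, nat_lit 171, nat_lit 0, nat_lit 0, [nat_lit 2697622400, nat_lit 26296000], [], [nat_lit 17880961760, nat_lit 18704538640, nat_lit 21377663680, nat_lit 22141196960], nat_lit 0, nat_lit 0, nat_lit 0, nat_lit 0, nat_lit 0, nat_lit 0, [], [nat_lit 70, nat_lit 40, nat_lit 20, nat_lit 80, nat_lit 13, nat_lit 373, nat_lit 150, nat_lit 10]⟩, C1.Rw.none,
 ⟨nat_lit 5916, nat_lit 6325, ⟨.ofNat (nat_lit 539519), .ofNat (nat_lit 703998), .ofNat (nat_lit 560879), .ofNat (nat_lit 725359), .ofNat (nat_lit 535845), .ofNat (nat_lit 692863), .ofNat (nat_lit 557177), .ofNat (nat_lit 714196)⟩, ⟨.ofNat (nat_lit 0), .ofNat (nat_lit 0), .ofNat (nat_lit 0), .ofNat (nat_lit 0), .ofNat (nat_lit 0), .ofNat (nat_lit 0), .ofNat (nat_lit 0), .ofNat (nat_lit 0)⟩⟩, []⟩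
noncomputable def p007_l187 : Lf2 := ⟨nat_lit 0, nat_lit 5, [nat_lit 4, nat_lit 5, nat_lit 5, nat_lit 20], false, nat_lit 0, nat_lit 0, nat_lit 0, nat_lit 0, ⟨nat_lit 88, nat_lit 912, nat_lit 0, nat_lit 8, nat_lit 314, nat_lit 0, nat_lit 0, nat_lit 0, nat_lit 0, nat_lit 0, nat_lit 0, nat_lit 0, nat_lit 41450683, nat_lit 25549317, nat_lit 0, nat_lit 3323564, false, true⟩,
 nat_lit 0, nat_lit 0, nat_lit 2633, nat_lit 0, nat_lit 4316, nat_lit 877, nat_lit 802, nat_lit 0, nat_lit 0, nat_lit 136, nat_lit 0, nat_lit 0, nat_lit 0, nat_lit 0, nat_lit 0, nat_lit 364800, nat_lit 0, nat_lit 0, [(nat_lit 6, [(nat_lit 1, nat_lit 912)])],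
 ⟨p007_k40, nat_lit 0, nat_lit 0, nat_lit 210, nat_lit 0, nat_lit 0, [nat_lit 2867891200, nat_lit 3423772800, nat_lit 3856982400], [], [nat_lit 25677105636, nat_lit 26027399576, nat_lit 29682392833, nat_lit 29996470822], nat_lit 0, nat_lit 0, nat_lit 0, nat_lit 0, nat_lit 0, nat_lit 0, [], [nat_lit 11, nat_lit 40, nat_lit 20, nat_lit 80, nat_lit 1, nat_lit 289, nat_lit 75, nat_lit 8]⟩, ⟨p007_k41, nat_lit 0, nat_lit 0, nat_lit 760, nat_lit 0, nat_lit 914052, [nat_lit 701184000, nat_lit 866096000, nat_lit 1237104000], [], [nat_lit 3943745572, nat_lit 3913878576, nat_lit 4137508761, nat_lit 4113441547], nat_lit 1100001, nat_lit 1271250, nat_lit 1271250, nat_lit 1271250, nat_lit 0, nat_lit 0, [nat_lit 1695000, nat_lit 1271250, nat_lit 1271250], [nat_lit 92, nat_lit 40, nat_lit 20, nat_lit 80, nat_lit 32, nat_lit 373, nat_lit 150, nat_lit 8]⟩,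
 ⟨nat_lit 6123, nat_lit 6325, ⟨.ofNat (nat_lit 704041), .ofNat (nat_lit 852105), .ofNat (nat_lit 725407), .ofNat (nat_lit 873471), .ofNat (nat_lit 698430), .ofNat (nat_lit 843103), .ofNat (nat_lit 719776), .ofNat (nat_lit 864450)⟩, ⟨.ofNat (nat_lit 0), .ofNat (nat_lit 0), .ofNat (nat_lit 0), .ofNat (nat_lit 0), .ofNat (nat_lit 0), .ofNat (nat_lit 0), .ofNat (nat_lit 0), .ofNat (nat_lit 0)⟩⟩, [⟨nat_lit 13, nat_lit 99, nat_lit 37, nat_lit 100, nat_lit 128699848⟩]⟩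
noncomputable def p007_l188 : Lf2 := ⟨nat_lit 0, nat_lit 5, [nat_lit 4, nat_lit 5, nat_lit 5, nat_lit 20], false, nat_lit 0, nat_lit 0, nat_lit 0, nat_lit 0, ⟨nat_lit 85, nat_lit 915, nat_lit 0, nat_lit 8, nat_lit 310, nat_lit 0, nat_lit 0, nat_lit 0, nat_lit 0, nat_lit 0, nat_lit 0, nat_lit 0, nat_lit 41904292, nat_lit 25095708, nat_lit 0, nat_lit 3306696, false, true⟩,
 nat_lit 0, nat_lit 0, nat_lit 2639, nat_lit 0, nat_lit 4414, nat_lit 879, nat_lit 806, nat_lit 0, nat_lit 0, nat_lit 169, nat_lit 0, nat_lit 0, nat_lit 0, nat_lit 0, nat_lit 0, nat_lit 366000, nat_lit 0, nat_lit 0, [(nat_lit 6, [(nat_lit 1, nat_lit 915)])],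
 ⟨p007_k42, nat_lit 0, nat_lit 0, nat_lit 185, nat_lit 0, nat_lit 0, [nat_lit 2861904000, nat_lit 3304066000, nat_lit 3675897000], [], [nat_lit 25196340724, nat_lit 25585834664, nat_lit 29256591724, nat_lit 29565592457], nat_lit 0, nat_lit 0, nat_lit 0, nat_lit 0, nat_lit 0, nat_lit 0, [], [nat_lit 9, nat_lit 40, nat_lit 20, nat_lit 80, nat_lit 2, nat_lit 203, nat_lit 0, nat_lit 6]⟩, ⟨p007_k41, nat_lit 0, nat_lit 0, nat_lit 860, nat_lit 0, nat_lit 1174896, [nat_lit 677280000, nat_lit 836570000, nat_lit 1194930000], [], [nat_lit 3800783772, nat_lit 3767776108, nat_lit 3902886540, nat_lit 3864189688], nat_lit 1100001, nat_lit 1271250, nat_lit 1271250, nat_lit 1271250, nat_lit 0, nat_lit 0, [nat_lit 1695000, nat_lit 1271250, nat_lit 1271250], [nat_lit 92, nat_lit 40, nat_lit 20, nat_lit 80, nat_lit 32, nat_lit 373, nat_lit 150, nat_lit 8]⟩,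
 ⟨nat_lit 5916, nat_lit 6124, ⟨.ofNat (nat_lit 698431), .ofNat (nat_lit 835069), .ofNat (nat_lit 719778), .ofNat (nat_lit 856416), .ofNat (nat_lit 692908), .ofNat (nat_lit 826405), .ofNat (nat_lit 714245), .ofNat (nat_lit 847743)⟩, ⟨.ofNat (nat_lit 0), .ofNat (nat_lit 0), .ofNat (nat_lit 0), .ofNat (nat_lit 0), .ofNat (nat_lit 0), .ofNat (nat_lit 0), .ofNat (nat_lit 0), .ofNat (nat_lit 0)⟩⟩, [⟨nat_lit 13, nat_lit 97, nat_lit 42, nat_lit 100, nat_lit 159305233⟩]⟩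
noncomputable def p007_l189 : Lf2 := ⟨nat_lit 0, nat_lit 5, [nat_lit 4, nat_lit 5, nat_lit 5, nat_lit 20], false, nat_lit 0, nat_lit 0, nat_lit 0, nat_lit 0, ⟨nat_lit 1000, nat_lit 0, nat_lit 0, nat_lit 0, nat_lit 0, nat_lit 0, nat_lit 0, nat_lit 0, nat_lit 0, nat_lit 0, nat_lit 0, nat_lit 0, nat_lit 0, nat_lit 0, nat_lit 0, nat_lit 0, false, false⟩,
 nat_lit 0, nat_lit 0, nat_lit 25024, nat_lit 0, nat_lit 5697, nat_lit 8341, nat_lit 1772, nat_lit 0, nat_lit 0, nat_lit 1722, nat_lit 0, nat_lit 0, nat_lit 0, nat_lit 0, nat_lit 0, nat_lit 0, nat_lit 0, nat_lit 0, [],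
 ⟨p007_k40, nat_lit 0, nat_lit 0, nat_lit 210, nat_lit 0, nat_lit 0, [nat_lit 4688000000, nat_lit 6250000000, nat_lit 9842000000], [], [nat_lit 29333071812, nat_lit 30091565022, nat_lit 33934653818, nat_lit 34498176840], nat_lit 0, nat_lit 0, nat_lit 0, nat_lit 0, nat_lit 0, nat_lit 0, [], [nat_lit 11, nat_lit 40, nat_lit 20, nat_lit 80, nat_lit 1, nat_lit 289, nat_lit 75, nat_lit 8]⟩, ⟨p007_k41, nat_lit 0, nat_lit 0, nat_lit 484, nat_lit 0, nat_lit 350154, [nat_lit 7968000000, nat_lit 9842000000, nat_lit 14058000000], [], [nat_lit 43349460930, nat_lit 43233995804, nat_lit 46293738470, nat_lit 46071159254], nat_lit 1100001, nat_lit 1271250, nat_lit 1271250, nat_lit 1271250, nat_lit 0, nat_lit 0, [nat_lit 1695000, nat_lit 1271250, nat_lit 1271250], [nat_lit 92, nat_lit 40, nat_lit 20, nat_lit 80, nat_lit 32, nat_lit 373, nat_lit 150, nat_lit 8]⟩,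
 zbF0, []⟩
noncomputable def p007_l190 : Lf2 := ⟨nat_lit 0, nat_lit 5, [nat_lit 4, nat_lit 5, nat_lit 5, nat_lit 20], true, nat_lit 0, nat_lit 0, nat_lit 0, nat_lit 0, ⟨nat_lit 0, nat_lit 1000, nat_lit 0, nat_lit 4, nat_lit 184, nat_lit 0, nat_lit 0, nat_lit 0, nat_lit 0, nat_lit 0, nat_lit 0, nat_lit 0, nat_lit 0, nat_lit 0, nat_lit 0, nat_lit 5000000, false, true⟩,
 nat_lit 0, nat_lit 0, nat_lit 0, nat_lit 4431, nat_lit 5279, nat_lit 0, nat_lit 0, nat_lit 0, nat_lit 0, nat_lit 0, nat_lit 0, nat_lit 0, nat_lit 0, nat_lit 0, nat_lit 0, nat_lit 740800, nat_lit 0, nat_lit 0, [(nat_lit 6, [(nat_lit 1, nat_lit 432), (nat_lit 2, nat_lit 568)])],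
 ⟨p007_k38, nat_lit 0, nat_lit 0, nat_lit 297, nat_lit 0, nat_lit 0, [nat_lit 3784067201, nat_lit 2133788800], [], [nat_lit 26681725737, nat_lit 27522530009, nat_lit 31512324830, nat_lit 32072631664], nat_lit 0, nat_lit 0, nat_lit 0, nat_lit 0, nat_lit 0, nat_lit 0, [], [nat_lit 70, nat_lit 40, nat_lit 20, nat_lit 80, nat_lit 13, nat_lit 401, nat_lit 175, nat_lit 12]⟩, C1.Rw.none,
 ⟨nat_lit 5916, nat_lit 6325, ⟨.ofNat (nat_lit 45942), .ofNat (nat_lit 852030), .ofNat (nat_lit 67309), .ofNat (nat_lit 873391), .ofNat (nat_lit 64652), .ofNat (nat_lit 834180), .ofNat (nat_lit 85991), .ofNat (nat_lit 855512)⟩, ⟨.ofNat (nat_lit 0), .ofNat (nat_lit 0), .ofNat (nat_lit 0), .ofNat (nat_lit 0), .ofNat (nat_lit 0), .ofNat (nat_lit 0), .ofNat (nat_lit 0), .ofNat (nat_lit 0)⟩⟩, [⟨nat_lit 13, nat_lit 98, nat_lit 30, nat_lit 100, nat_lit 100525423⟩]⟩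
noncomputable def p007_l191 : Lf2 := ⟨nat_lit 0, nat_lit 4, [nat_lit 38, nat_lit 5, nat_lit 5, nat_lit 20], true, nat_lit 0, nat_lit 0, nat_lit 0, nat_lit 0, ⟨nat_lit 0, nat_lit 0, nat_lit 1000, nat_lit 4, nat_lit 57, nat_lit 0, nat_lit 0, nat_lit 0, nat_lit 0, nat_lit 215, nat_lit 30817, nat_lit 258, nat_lit 65663409, nat_lit 0, nat_lit 0, nat_lit 489151, false, false⟩,
 nat_lit 0, nat_lit 5216, nat_lit 0, nat_lit 0, nat_lit 2761, nat_lit 0, nat_lit 0, nat_lit 0, nat_lit 0, nat_lit 0, nat_lit 0, nat_lit 0, nat_lit 0, nat_lit 0, nat_lit 80, nat_lit 1000000, nat_lit 0, nat_lit 0, [(nat_lit 6, [(nat_lit 6, nat_lit 1000)])],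
 ⟨p007_k43, nat_lit 0, nat_lit 0, nat_lit 306, nat_lit 0, nat_lit 215880, [nat_lit 2257066667, nat_lit 1408000000, nat_lit 211200000], [], [nat_lit 19004973555, nat_lit 18296696986, nat_lit 17385607871, nat_lit 17398460738], nat_lit 1271250, nat_lit 1271250, nat_lit 0, nat_lit 490000, nat_lit 0, nat_lit 0, [nat_lit 1100000, nat_lit 1442500, nat_lit 1271250], [nat_lit 9, nat_lit 40, nat_lit 20, nat_lit 80, nat_lit 2, nat_lit 226, nat_lit 20, nat_lit 8]⟩, C1.Rw.none,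
 ⟨nat_lit 6123, nat_lit 6325, ⟨.ofNat (nat_lit 45942), .ofNat (nat_lit 210470), .ofNat (nat_lit 67309), .ofNat (nat_lit 231838), .ofNat (nat_lit 55399), .ofNat (nat_lit 216160), .ofNat (nat_lit 76747), .ofNat (nat_lit 237508)⟩, ⟨.ofNat (nat_lit 0), .ofNat (nat_lit 0), .ofNat (nat_lit 0), .ofNat (nat_lit 0), .ofNat (nat_lit 0), .ofNat (nat_lit 0), .ofNat (nat_lit 0), .ofNat (nat_lit 0)⟩⟩, [⟨nat_lit 0, nat_lit 100, nat_lit 99, nat_lit 8, nat_lit 198120786⟩]⟩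
noncomputable def p007_l192 : Lf2 := ⟨nat_lit 0, nat_lit 5, [nat_lit 4, nat_lit 5, nat_lit 5, nat_lit 20], true, nat_lit 0, nat_lit 0, nat_lit 0, nat_lit 0, ⟨nat_lit 0, nat_lit 0, nat_lit 1000, nat_lit 4, nat_lit 57, nat_lit 0, nat_lit 0, nat_lit 0, nat_lit 0, nat_lit 215, nat_lit 30817, nat_lit 258, nat_lit 65663409, nat_lit 0, nat_lit 0, nat_lit 489151, false, false⟩,
 nat_lit 0, nat_lit 7778, nat_lit 0, nat_lit 0, nat_lit 4117, nat_lit 0, nat_lit 140, nat_lit 0, nat_lit 0, nat_lit 0, nat_lit 0, nat_lit 0, nat_lit 0, nat_lit 0, nat_lit 147, nat_lit 1000000, nat_lit 0, nat_lit 0, [(nat_lit 6, [(nat_lit 6, nat_lit 1000)])],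
 ⟨p007_k40, nat_lit 0, nat_lit 0, nat_lit 318, nat_lit 0, nat_lit 59054, [nat_lit 3329066667, nat_lit 3042400001, nat_lit 177599999], [], [nat_lit 14234098205, nat_lit 14533988050, nat_lit 15876084657, nat_lit 14850362926], nat_lit 1271250, nat_lit 1271250, nat_lit 0, nat_lit 490000, nat_lit 0, nat_lit 0, [nat_lit 1100000, nat_lit 1442500, nat_lit 1271250], [nat_lit 11, nat_lit 40, nat_lit 20, nat_lit 80, nat_lit 1, nat_lit 317, nat_lit 100, nat_lit 10]⟩, C1.Rw.none,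
 ⟨nat_lit 6123, nat_lit 6325, ⟨.ofNat (nat_lit 45942), .ofNat (nat_lit 210470), .ofNat (nat_lit 67309), .ofNat (nat_lit 231838), .ofNat (nat_lit 55399), .ofNat (nat_lit 216160), .ofNat (nat_lit 76747), .ofNat (nat_lit 237508)⟩, ⟨.ofNat (nat_lit 0), .ofNat (nat_lit 0), .ofNat (nat_lit 0), .ofNat (nat_lit 0), .ofNat (nat_lit 0), .ofNat (nat_lit 0), .ofNat (nat_lit 0), .ofNat (nat_lit 0)⟩⟩, []⟩
noncomputable def p007_l193 : Lf2 := ⟨nat_lit 1, nat_lit 5, [nat_lit 4, nat_lit 5, nat_lit 5, nat_lit 20], false, nat_lit 0, nat_lit 0, nat_lit 0, nat_lit 0, zbN0,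
 nat_lit 0, nat_lit 0, nat_lit 0, nat_lit 0, nat_lit 0, nat_lit 0, nat_lit 0, nat_lit 0, nat_lit 0, nat_lit 0, nat_lit 0, nat_lit 0, nat_lit 0, nat_lit 0, nat_lit 0, nat_lit 0, nat_lit 0, nat_lit 0, [],
 C1.Rw.none, C1.Rw.none,
 zbF0, []⟩
noncomputable def p007_l194 : Lf2 := ⟨nat_lit 0, nat_lit 5, [nat_lit 4, nat_lit 5, nat_lit 5, nat_lit 20], true, nat_lit 0, nat_lit 0, nat_lit 0, nat_lit 0, ⟨nat_lit 0, nat_lit 0, nat_lit 1000, nat_lit 4, nat_lit 60, nat_lit 0, nat_lit 0, nat_lit 0, nat_lit 0, nat_lit 215, nat_lit 33750, nat_lit 260, nat_lit 65522703, nat_lit 0, nat_lit 0, nat_lit 529508, false, false⟩,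
 nat_lit 0, nat_lit 8512, nat_lit 0, nat_lit 0, nat_lit 4728, nat_lit 0, nat_lit 663, nat_lit 0, nat_lit 0, nat_lit 0, nat_lit 0, nat_lit 0, nat_lit 0, nat_lit 0, nat_lit 80, nat_lit 1000000, nat_lit 0, nat_lit 0, [(nat_lit 6, [(nat_lit 6, nat_lit 1000)])],
 ⟨p007_k44, nat_lit 0, nat_lit 0, nat_lit 315, nat_lit 0, nat_lit 275733, [nat_lit 2814000001, nat_lit 141466667], [], [nat_lit 16810126781, nat_lit 16800588624, nat_lit 15824627967, nat_lit 14679605655], nat_lit 1271250, nat_lit 1271250, nat_lit 0, nat_lit 490000, nat_lit 0, nat_lit 0, [nat_lit 1100000, nat_lit 1785000], [nat_lit 39, nat_lit 40, nat_lit 20, nat_lit 80, nat_lit 7, nat_lit 226, nat_lit 20, nat_lit 8]⟩, C1.Rw.none,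
 ⟨nat_lit 5916, nat_lit 6124, ⟨.ofNat (nat_lit 55399), .ofNat (nat_lit 216160), .ofNat (nat_lit 76747), .ofNat (nat_lit 237508), .ofNat (nat_lit 64652), .ofNat (nat_lit 221719), .ofNat (nat_lit 85991), .ofNat (nat_lit 243059)⟩, ⟨.ofNat (nat_lit 0), .ofNat (nat_lit 0), .ofNat (nat_lit 0), .ofNat (nat_lit 0), .ofNat (nat_lit 0), .ofNat (nat_lit 0), .ofNat (nat_lit 0), .ofNat (nat_lit 0)⟩⟩, [⟨nat_lit 0, nat_lit 100, nat_lit 97, nat_lit 13, nat_lit 158258054⟩]⟩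
noncomputable def p007_l195 : Lf2 := ⟨nat_lit 0, nat_lit 5, [nat_lit 4, nat_lit 5, nat_lit 5, nat_lit 20], false, nat_lit 0, nat_lit 0, nat_lit 0, nat_lit 0, ⟨nat_lit 573, nat_lit 0, nat_lit 427, nat_lit 4, nat_lit 123, nat_lit 0, nat_lit 0, nat_lit 0, nat_lit 0, nat_lit 215, nat_lit 141067, nat_lit 307, nat_lit 61223354, nat_lit 0, nat_lit 0, nat_lit 1468499, false, false⟩,
 nat_lit 0, nat_lit 14635, nat_lit 0, nat_lit 0, nat_lit 7747, nat_lit 10288, nat_lit 183, nat_lit 0, nat_lit 0, nat_lit 3946, nat_lit 0, nat_lit 0, nat_lit 0, nat_lit 0, nat_lit 0, nat_lit 427000, nat_lit 0, nat_lit 0, [(nat_lit 6, [(nat_lit 6, nat_lit 427)])],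
 ⟨p007_k40, nat_lit 0, nat_lit 0, nat_lit 459, nat_lit 0, nat_lit 497545, [nat_lit 3103431467, nat_lit 3624974801, nat_lit 3885008400], [], [nat_lit 24854293977, nat_lit 20879633651, nat_lit 25441684413, nat_lit 21689362987], nat_lit 1271250, nat_lit 1271250, nat_lit 490000, nat_lit 1100001, nat_lit 0, nat_lit 0, [nat_lit 1100000, nat_lit 1442500, nat_lit 1271250], [nat_lit 11, nat_lit 40, nat_lit 20, nat_lit 80, nat_lit 1, nat_lit 345, nat_lit 125, nat_lit 10]⟩, ⟨p007_k41, nat_lit 0, nat_lit 0, nat_lit 391, nat_lit 0, nat_lit 0, [nat_lit 4565664000, nat_lit 5639466000, nat_lit 8055234000], [], [nat_lit 10877288802, nat_lit 11209564436, nat_lit 9559085992, nat_lit 10332532364], nat_lit 0, nat_lit 0, nat_lit 0, nat_lit 0, nat_lit 0, nat_lit 0, [], [nat_lit 92, nat_lit 40, nat_lit 20, nat_lit 80, nat_lit 32, nat_lit 317, nat_lit 100, nat_lit 8]⟩,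
 ⟨nat_lit 5916, nat_lit 6325, ⟨.ofNat (nat_lit 210470), .ofNat (nat_lit 374999), .ofNat (nat_lit 231838), .ofNat (nat_lit 396366), .ofNat (nat_lit 221719), .ofNat (nat_lit 378786), .ofNat (nat_lit 243059), .ofNat (nat_lit 400126)⟩, ⟨.ofNat (nat_lit 0), .ofNat (nat_lit 0), .ofNat (nat_lit 0), .ofNat (nat_lit 0), .ofNat (nat_lit 0), .ofNat (nat_lit 0), .ofNat (nat_lit 0), .ofNat (nat_lit 0)⟩⟩, []⟩
noncomputable def p007_l196 : Lf2 := ⟨nat_lit 0, nat_lit 5, [nat_lit 4, nat_lit 5, nat_lit 5, nat_lit 20], true, nat_lit 0, nat_lit 0, nat_lit 0, nat_lit 0, ⟨nat_lit 0, nat_lit 0, nat_lit 1000, nat_lit 4, nat_lit 123, nat_lit 0, nat_lit 0, nat_lit 0, nat_lit 0, nat_lit 215, nat_lit 141067, nat_lit 307, nat_lit 61223354, nat_lit 0, nat_lit 0, nat_lit 1468499, false, false⟩,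
 nat_lit 0, nat_lit 7941, nat_lit 0, nat_lit 0, nat_lit 4204, nat_lit 0, nat_lit 216, nat_lit 0, nat_lit 0, nat_lit 0, nat_lit 0, nat_lit 0, nat_lit 0, nat_lit 0, nat_lit 147, nat_lit 1000000, nat_lit 0, nat_lit 0, [(nat_lit 6, [(nat_lit 6, nat_lit 1000)])],
 ⟨p007_k40, nat_lit 0, nat_lit 0, nat_lit 281, nat_lit 0, nat_lit 148486, [nat_lit 3329066667, nat_lit 3042400001, nat_lit 177599999], [], [nat_lit 11312116571, nat_lit 12199805387, nat_lit 12278346636, nat_lit 13498812844], nat_lit 1271250, nat_lit 1271250, nat_lit 490000, nat_lit 1100001, nat_lit 0, nat_lit 0, [nat_lit 1100000, nat_lit 1442500, nat_lit 1271250], [nat_lit 11, nat_lit 40, nat_lit 20, nat_lit 80, nat_lit 1, nat_lit 345, nat_lit 125, nat_lit 10]⟩, C1.Rw.none,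
 ⟨nat_lit 5916, nat_lit 6325, ⟨.ofNat (nat_lit 210470), .ofNat (nat_lit 374999), .ofNat (nat_lit 231838), .ofNat (nat_lit 396366), .ofNat (nat_lit 221719), .ofNat (nat_lit 378786), .ofNat (nat_lit 243059), .ofNat (nat_lit 400126)⟩, ⟨.ofNat (nat_lit 0), .ofNat (nat_lit 0), .ofNat (nat_lit 0), .ofNat (nat_lit 0), .ofNat (nat_lit 0), .ofNat (nat_lit 0), .ofNat (nat_lit 0), .ofNat (nat_lit 0)⟩⟩, []⟩
noncomputable def p007_l197 : Lf2 := ⟨nat_lit 0, nat_lit 5, [nat_lit 4, nat_lit 5, nat_lit 5, nat_lit 20], false, nat_lit 0, nat_lit 0, nat_lit 0, nat_lit 0, ⟨nat_lit 1000, nat_lit 0, nat_lit 0, nat_lit 0, nat_lit 0, nat_lit 0, nat_lit 0, nat_lit 0, nat_lit 0, nat_lit 0, nat_lit 0, nat_lit 0, nat_lit 0, nat_lit 0, nat_lit 0, nat_lit 0, false, false⟩,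
 nat_lit 0, nat_lit 9935, nat_lit 0, nat_lit 12268, nat_lit 5259, nat_lit 11220, nat_lit 1505, nat_lit 0, nat_lit 0, nat_lit 3578, nat_lit 0, nat_lit 0, nat_lit 0, nat_lit 0, nat_lit 0, nat_lit 0, nat_lit 0, nat_lit 0, [],
 ⟨p007_k40, nat_lit 0, nat_lit 0, nat_lit 373, nat_lit 0, nat_lit 408208, [nat_lit 4688000000, nat_lit 6250000000, nat_lit 9842000000], [], [nat_lit 37389886560, nat_lit 36003291891, nat_lit 45449764644, nat_lit 44240219887], nat_lit 1271250, nat_lit 1271250, nat_lit 1100001, nat_lit 3086500, nat_lit 0, nat_lit 0, [nat_lit 1100000, nat_lit 1442500, nat_lit 1271250], [nat_lit 11, nat_lit 40, nat_lit 20, nat_lit 80, nat_lit 1, nat_lit 401, nat_lit 175, nat_lit 12]⟩, ⟨p007_k41, nat_lit 0, nat_lit 0, nat_lit 309, nat_lit 0, nat_lit 0, [nat_lit 7968000000, nat_lit 9842000000, nat_lit 14058000000], [], [nat_lit 24754896400, nat_lit 25389137000, nat_lit 43831116833, nat_lit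 43831288121], nat_lit 0, nat_lit 0, nat_lit 0, nat_lit 0, nat_lit 0, nat_lit 0, [], [nat_lit 92, nat_lit 40, nat_lit 20, nat_lit 80, nat_lit 32, nat_lit 373, nat_lit 150, nat_lit 9]⟩,
 zbF0, []⟩
noncomputable def p007_l198 : Lf2 := ⟨nat_lit 0, nat_lit 5, [nat_lit 4, nat_lit 5, nat_lit 5, nat_lit 20], false, nat_lit 0, nat_lit 0, nat_lit 0, nat_lit 0, ⟨nat_lit 1000, nat_lit 0, nat_lit 0, nat_lit 0, nat_lit 0, nat_lit 0, nat_lit 0, nat_lit 0, nat_lit 0, nat_lit 0, nat_lit 0, nat_lit 0, nat_lit 0, nat_lit 0, nat_lit 0, nat_lit 0, false, false⟩,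
 nat_lit 0, nat_lit 11228, nat_lit 0, nat_lit 1416, nat_lit 6237, nat_lit 11838, nat_lit 0, nat_lit 0, nat_lit 0, nat_lit 3676, nat_lit 0, nat_lit 0, nat_lit 0, nat_lit 0, nat_lit 0, nat_lit 0, nat_lit 0, nat_lit 0, [],
 ⟨p007_k42, nat_lit 0, nat_lit 0, nat_lit 373, nat_lit 0, nat_lit 480032, [nat_lit 4688000000, nat_lit 6250000000, nat_lit 7968000000], [], [nat_lit 37231332627, nat_lit 36768100336, nat_lit 44097391414, nat_lit 43413443805], nat_lit 1271250, nat_lit 1271250, nat_lit 1100001, nat_lit 3052250, nat_lit 0, nat_lit 0, [nat_lit 1100000, nat_lit 1442500, nat_lit 1271250], [nat_lit 9, nat_lit 40, nat_lit 20, nat_lit 80, nat_lit 2, nat_lit 317, nat_lit 100, nat_lit 10]⟩, ⟨p007_k41, nat_lit 0, nat_lit 0, nat_lit 308, nat_lit 0, nat_lit 0, [nat_lit 7968000000, nat_lit 9842000000, nat_lit 14058000000], [], [nat_lit 24013679560, nat_lit 24654427700, nat_lit 43890354764, nat_lit 44103191981],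 nat_lit 0, nat_lit 0, nat_lit 0, nat_lit 0, nat_lit 0, nat_lit 0, [], [nat_lit 92, nat_lit 40, nat_lit 20, nat_lit 80, nat_lit 32, nat_lit 373, nat_lit 150, nat_lit 9]⟩,
 zbF0, []⟩
noncomputable def p007_l199 : Lf2 := ⟨nat_lit 0, nat_lit 2, [nat_lit 10, nat_lit 5, nat_lit 5, nat_lit 20], false, nat_lit 0, nat_lit 0, nat_lit 0, nat_lit 0, ⟨nat_lit 0, nat_lit 0, nat_lit 1000, nat_lit 4, nat_lit 73, nat_lit 0, nat_lit 0, nat_lit 0, nat_lit 0, nat_lit 215, nat_lit 50417, nat_lit 270, nat_lit 64821295, nat_lit 0, nat_lit 0, nat_lit 716923, false, false⟩,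
 nat_lit 0, nat_lit 4747, nat_lit 0, nat_lit 0, nat_lit 2512, nat_lit 0, nat_lit 0, nat_lit 0, nat_lit 0, nat_lit 0, nat_lit 0, nat_lit 0, nat_lit 0, nat_lit 0, nat_lit 80, nat_lit 1000000, nat_lit 0, nat_lit 0, [(nat_lit 6, [(nat_lit 6, nat_lit 1000)])],
 ⟨p007_k45, nat_lit 0, nat_lit 0, nat_lit 303, nat_lit 0, nat_lit 208029, [nat_lit 2257066667, nat_lit 1408000000, nat_lit 211200000], [], [nat_lit 19148196363, nat_lit 18503795515, nat_lit 19341450571, nat_lit 18724475739], nat_lit 1271250, nat_lit 1271250, nat_lit 0, nat_lit 780000, nat_lit 0, nat_lit 0, [nat_lit 1100000, nat_lit 1442500, nat_lit 1271250], [nat_lit 9, nat_lit 40, nat_lit 20, nat_lit 80, nat_lit 2, nat_lit 238, nat_lit 30, nat_lit 8]⟩, ⟨p007_k46, nat_lit 0, nat_lit 0, nat_lit 577, nat_lit 0, nat_lit 335594, [nat_lit 0, nat_lit 0, nat_lit 0], [], [nat_lit 0, nat_lit 0, nat_lit 0, nat_lit 0], nat_lit 1100001, nat_lit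 1271250, nat_lit 0, nat_lit 780000, nat_lit 0, nat_lit 0, [nat_lit 1695000, nat_lit 1271250, nat_lit 1271250], [nat_lit 106, nat_lit 40, nat_lit 20, nat_lit 80, nat_lit 41, nat_lit 289, nat_lit 75, nat_lit 8]⟩,
 ⟨nat_lit 6123, nat_lit 6325, ⟨.ofNat (nat_lit 45942), .ofNat (nat_lit 292734), .ofNat (nat_lit 67309), .ofNat (nat_lit 314102), .ofNat (nat_lit 55399), .ofNat (nat_lit 296541), .ofNat (nat_lit 76747), .ofNat (nat_lit 317889)⟩, ⟨.ofNat (nat_lit 0), .ofNat (nat_lit 0), .ofNat (nat_lit 0), .ofNat (nat_lit 0), .ofNat (nat_lit 0), .ofNat (nat_lit 0), .ofNat (nat_lit 0), .ofNat (nat_lit 0)⟩⟩, [⟨nat_lit 0, nat_lit 100, nat_lit 99, nat_lit 8, nat_lit 91662043⟩]⟩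
noncomputable def p007_l200 : Lf2 := ⟨nat_lit 0, nat_lit 2, [nat_lit 10, nat_lit 5, nat_lit 5, nat_lit 20], false, nat_lit 0, nat_lit 0, nat_lit 0, nat_lit 0, ⟨nat_lit 0, nat_lit 0, nat_lit 1000, nat_lit 4, nat_lit 76, nat_lit 0, nat_lit 0, nat_lit 0, nat_lit 0, nat_lit 215, nat_lit 54150, nat_lit 272, nat_lit 64668347, nat_lit 0, nat_lit 0, nat_lit 755247, false, false⟩,
 nat_lit 0, nat_lit 6690, nat_lit 0, nat_lit 0, nat_lit 3716, nat_lit 0, nat_lit 436, nat_lit 0, nat_lit 0, nat_lit 0, nat_lit 0, nat_lit 0, nat_lit 0, nat_lit 0, nat_lit 80, nat_lit 1000000, nat_lit 0, nat_lit 0, [(nat_lit 6, [(nat_lit 6, nat_lit 1000)])],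
 ⟨p007_k47, nat_lit 0, nat_lit 0, nat_lit 323, nat_lit 0, nat_lit 248493, [nat_lit 2257066667, nat_lit 1408000000, nat_lit 211200000], [], [nat_lit 14140639311, nat_lit 14717601638, nat_lit 16402714463, nat_lit 15490023987], nat_lit 1271250, nat_lit 1271250, nat_lit 0, nat_lit 780000, nat_lit 0, nat_lit 0, [nat_lit 1100000, nat_lit 1442500, nat_lit 1271250], [nat_lit 9, nat_lit 40, nat_lit 20, nat_lit 80, nat_lit 2, nat_lit 238, nat_lit 30, nat_lit 8]⟩, ⟨p007_k46, nat_lit 0, nat_lit 0, nat_lit 614, nat_lit 0, nat_lit 421189, [nat_lit 0, nat_lit 0, nat_lit 0], [], [nat_lit 0, nat_lit 0, nat_lit 0, nat_lit 0], nat_lit 1100001, nat_lit 1271250, nat_lit 0, nat_lit 780000, nat_lit 0, nat_lit 0, [nat_lit 1695000, nat_lit 1271250, nat_lit 1271250], [nat_lit 106, nat_lit 40, nat_lit 20, nat_lit 80, nat_lit 41, nat_lit 289, nat_lit 75, nat_lit 8]⟩,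
 ⟨nat_lit 5916, nat_lit 6124, ⟨.ofNat (nat_lit 55399), .ofNat (nat_lit 296541), .ofNat (nat_lit 76747), .ofNat (nat_lit 317889), .ofNat (nat_lit 64652), .ofNat (nat_lit 300253), .ofNat (nat_lit 85991), .ofNat (nat_lit 321592)⟩, ⟨.ofNat (nat_lit 0), .ofNat (nat_lit 0), .ofNat (nat_lit 0), .ofNat (nat_lit 0), .ofNat (nat_lit 0), .ofNat (nat_lit 0), .ofNat (nat_lit 0), .ofNat (nat_lit 0)⟩⟩, [⟨nat_lit 0, nat_lit 100, nat_lit 96, nat_lit 20, nat_lit 14332623⟩]⟩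
noncomputable def p007_l201 : Lf2 := ⟨nat_lit 0, nat_lit 5, [nat_lit 4, nat_lit 5, nat_lit 5, nat_lit 20], false, nat_lit 0, nat_lit 0, nat_lit 0, nat_lit 0, ⟨nat_lit 0, nat_lit 0, nat_lit 1000, nat_lit 4, nat_lit 75, nat_lit 0, nat_lit 0, nat_lit 0, nat_lit 0, nat_lit 215, nat_lit 52267, nat_lit 271, nat_lit 64746244, nat_lit 0, nat_lit 0, nat_lit 735829, false, false⟩,
 nat_lit 0, nat_lit 10120, nat_lit 0, nat_lit 0, nat_lit 5357, nat_lit 0, nat_lit 0, nat_lit 0, nat_lit 0, nat_lit 0, nat_lit 0, nat_lit 0, nat_lit 0, nat_lit 0, nat_lit 110, nat_lit 712000, nat_lit 0, nat_lit 0, [(nat_lit 6, [(nat_lit 5, nat_lit 480), (nat_lit 6, nat_lit 520)])],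
 ⟨p007_k40, nat_lit 0, nat_lit 0, nat_lit 365, nat_lit 0, nat_lit 187898, [nat_lit 2948522667, nat_lit 2291648001, nat_lit 56287999], [], [nat_lit 18290527125, nat_lit 18096082056, nat_lit 16182699813, nat_lit 13914472601], nat_lit 1271250, nat_lit 1271250, nat_lit 0, nat_lit 780000, nat_lit 0, nat_lit 0, [nat_lit 1100000, nat_lit 1442500, nat_lit 1271250], [nat_lit 11, nat_lit 40, nat_lit 20, nat_lit 80, nat_lit 1, nat_lit 317, nat_lit 100, nat_lit 10]⟩, ⟨p007_k41, nat_lit 0, nat_lit 0, nat_lit 645, nat_lit 0, nat_lit 309527, [nat_lit 0, nat_lit 0, nat_lit 0], [], [nat_lit 0, nat_lit 0, nat_lit 0, nat_lit 0], nat_lit 1100001, nat_lit 1271250, nat_lit 0, nat_lit 780000, nat_lit 0, nat_lit 0, [nat_lit 1695000, nat_lit 1271250, nat_lit 1271250], [nat_lit 92, nat_lit 40, nat_lit 20, nat_lit 80, nat_lit 32, nat_lit 289, nat_lit 75, nat_lit 7]⟩,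
 ⟨nat_lit 5916, nat_lit 6325, ⟨.ofNat (nat_lit 45942), .ofNat (nat_lit 292734), .ofNat (nat_lit 67309), .ofNat (nat_lit 314102), .ofNat (nat_lit 64652), .ofNat (nat_lit 300253), .ofNat (nat_lit 85991), .ofNat (nat_lit 321592)⟩, ⟨.ofNat (nat_lit 0), .ofNat (nat_lit 0), .ofNat (nat_lit 0), .ofNat (nat_lit 0), .ofNat (nat_lit 0), .ofNat (nat_lit 0), .ofNat (nat_lit 0), .ofNat (nat_lit 0)⟩⟩, [⟨nat_lit 0, nat_lit 100, nat_lit 98, nat_lit 10, nat_lit 191666578⟩]⟩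
noncomputable def p007_l202 : Lf2 := ⟨nat_lit 0, nat_lit 5, [nat_lit 4, nat_lit 5, nat_lit 5, nat_lit 20], true, nat_lit 0, nat_lit 0, nat_lit 0, nat_lit 0, ⟨nat_lit 0, nat_lit 0, nat_lit 1000, nat_lit 4, nat_lit 75, nat_lit 0, nat_lit 0, nat_lit 0, nat_lit 0, nat_lit 215, nat_lit 52267, nat_lit 271, nat_lit 64746244, nat_lit 0, nat_lit 0, nat_lit 735829, false, false⟩,
 nat_lit 0, nat_lit 8814, nat_lit 0, nat_lit 0, nat_lit 4666, nat_lit 0, nat_lit 0, nat_lit 0, nat_lit 0, nat_lit 0, nat_lit 0, nat_lit 0, nat_lit 0, nat_lit 0, nat_lit 78, nat_lit 470800, nat_lit 0, nat_lit 0, [(nat_lit 6, [(nat_lit 5, nat_lit 882), (nat_lit 6, nat_lit 118)])],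
 ⟨p007_k40, nat_lit 0, nat_lit 0, nat_lit 351, nat_lit 0, nat_lit 148486, [nat_lit 2613617067, nat_lit 1642643201, nat_lit 1488000], [], [nat_lit 18847069597, nat_lit 18063264852, nat_lit 17298134141, nat_lit 15299612564], nat_lit 1271250, nat_lit 1271250, nat_lit 0, nat_lit 780000, nat_lit 0, nat_lit 0, [nat_lit 1100000, nat_lit 1442500, nat_lit 1271250], [nat_lit 11, nat_lit 40, nat_lit 20, nat_lit 80, nat_lit 1, nat_lit 317, nat_lit 100, nat_lit 10]⟩, C1.Rw.none,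
 ⟨nat_lit 5916, nat_lit 6325, ⟨.ofNat (nat_lit 45942), .ofNat (nat_lit 292734), .ofNat (nat_lit 67309), .ofNat (nat_lit 314102), .ofNat (nat_lit 64652), .ofNat (nat_lit 300253), .ofNat (nat_lit 85991), .ofNat (nat_lit 321592)⟩, ⟨.ofNat (nat_lit 0), .ofNat (nat_lit 0), .ofNat (nat_lit 0), .ofNat (nat_lit 0), .ofNat (nat_lit 0), .ofNat (nat_lit 0), .ofNat (nat_lit 0), .ofNat (nat_lit 0)⟩⟩, [⟨nat_lit 0, nat_lit 100, nat_lit 98, nat_lit 10, nat_lit 167877855⟩]⟩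
noncomputable def p007_l203 : Lf2 := ⟨nat_lit 0, nat_lit 5, [nat_lit 4, nat_lit 5, nat_lit 5, nat_lit 20], false, nat_lit 0, nat_lit 0, nat_lit 0, nat_lit 0, ⟨nat_lit 0, nat_lit 0, nat_lit 1000, nat_lit 4, nat_lit 139, nat_lit 0, nat_lit 0, nat_lit 0, nat_lit 0, nat_lit 215, nat_lit 180267, nat_lit 319, nat_lit 59785891, nat_lit 0, nat_lit 0, nat_lit 1708112, false, false⟩,
 nat_lit 0, nat_lit 14721, nat_lit 0, nat_lit 0, nat_lit 7793, nat_lit 0, nat_lit 0, nat_lit 0, nat_lit 0, nat_lit 0, nat_lit 0, nat_lit 0, nat_lit 0, nat_lit 0, nat_lit 147, nat_lit 1000000, nat_lit 0, nat_lit 0, [(nat_lit 6, [(nat_lit 6, nat_lit 1000)])],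
 ⟨p007_k40, nat_lit 0, nat_lit 0, nat_lit 317, nat_lit 0, nat_lit 290645, [nat_lit 3329066667, nat_lit 3042400001, nat_lit 177599999], [], [nat_lit 12621304325, nat_lit 13468581276, nat_lit 16220193405, nat_lit 14396122642], nat_lit 1271250, nat_lit 1271250, nat_lit 780000, nat_lit 1100001, nat_lit 0, nat_lit 0, [nat_lit 1100000, nat_lit 1442500, nat_lit 1271250], [nat_lit 11, nat_lit 40, nat_lit 20, nat_lit 80, nat_lit 1, nat_lit 345, nat_lit 125, nat_lit 10]⟩, ⟨p007_k41, nat_lit 0, nat_lit 0, nat_lit 621, nat_lit 0, nat_lit 487693, [nat_lit 0, nat_lit 0, nat_lit 0], [], [nat_lit 0, nat_lit 0, nat_lit 0, nat_lit 0], nat_lit 1100001, nat_lit 1271250, nat_lit 780000, nat_lit 1100001, nat_lit 0, nat_lit 0, [nat_lit 1695000, nat_lit 1271250, nat_lit 1271250], [nat_lit 92, nat_lit 40, nat_lit 20, nat_lit 80, nat_lit 32, nat_lit 317, nat_lit 100, nat_lit 8]⟩,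
 ⟨nat_lit 5916, nat_lit 6325, ⟨.ofNat (nat_lit 292734), .ofNat (nat_lit 374999), .ofNat (nat_lit 314102), .ofNat (nat_lit 396366), .ofNat (nat_lit 300253), .ofNat (nat_lit 378786), .ofNat (nat_lit 321592), .ofNat (nat_lit 400126)⟩, ⟨.ofNat (nat_lit 0), .ofNat (nat_lit 0), .ofNat (nat_lit 0), .ofNat (nat_lit 0), .ofNat (nat_lit 0), .ofNat (nat_lit 0), .ofNat (nat_lit 0), .ofNat (nat_lit 0)⟩⟩, []⟩
noncomputable def p007_l204 : Lf2 := ⟨nat_lit 0, nat_lit 5, [nat_lit 4, nat_lit 5, nat_lit 5, nat_lit 20], false, nat_lit 0, nat_lit 0, nat_lit 0, nat_lit 0, ⟨nat_lit 0, nat_lit 0, nat_lit 1000, nat_lit 4, nat_lit 171, nat_lit 0, nat_lit 0, nat_lit 0, nat_lit 0, nat_lit 215, nat_lit 73782, nat_lit 281, nat_lit 56636337, nat_lit 0, nat_lit 0, nat_lit 2153720, false, true⟩,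
 nat_lit 0, nat_lit 4760, nat_lit 0, nat_lit 0, nat_lit 2519, nat_lit 0, nat_lit 0, nat_lit 0, nat_lit 0, nat_lit 0, nat_lit 0, nat_lit 0, nat_lit 0, nat_lit 0, nat_lit 129, nat_lit 861400, nat_lit 0, nat_lit 0, [(nat_lit 6, [(nat_lit 5, nat_lit 231), (nat_lit 6, nat_lit 769)])],
 ⟨p007_k40, nat_lit 0, nat_lit 0, nat_lit 306, nat_lit 0, nat_lit 290645, [nat_lit 3142829867, nat_lit 2677225601, nat_lit 113793599], [], [nat_lit 22350838384, nat_lit 21038998602, nat_lit 23023124747, nat_lit 21803026945], nat_lit 1271250, nat_lit 1271250, nat_lit 1100001, nat_lit 1442500, nat_lit 0, nat_lit 0, [nat_lit 1100000, nat_lit 1442500, nat_lit 1271250], [nat_lit 11, nat_lit 40, nat_lit 20, nat_lit 80, nat_lit 1, nat_lit 345, nat_lit 125, nat_lit 10]⟩, ⟨p007_k41, nat_lit 0, nat_lit 0, nat_lit 603, nat_lit 0, nat_lit 487693, [nat_lit 0, nat_lit 0, nat_lit 0], [], [nat_lit 0, nat_lit 0, nat_lit 0, nat_lit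 0], nat_lit 1100001, nat_lit 1271250, nat_lit 1100001, nat_lit 1442500, nat_lit 0, nat_lit 0, [nat_lit 1695000, nat_lit 1271250, nat_lit 1271250], [nat_lit 92, nat_lit 40, nat_lit 20, nat_lit 80, nat_lit 32, nat_lit 317, nat_lit 100, nat_lit 8]⟩,
 ⟨nat_lit 5916, nat_lit 6325, ⟨.ofNat (nat_lit 374999), .ofNat (nat_lit 457263), .ofNat (nat_lit 396366), .ofNat (nat_lit 478631), .ofNat (nat_lit 378786), .ofNat (nat_lit 457320), .ofNat (nat_lit 400126), .ofNat (nat_lit 478659)⟩, ⟨.ofNat (nat_lit 0), .ofNat (nat_lit 0), .ofNat (nat_lit 0), .ofNat (nat_lit 0), .ofNat (nat_lit 0), .ofNat (nat_lit 0), .ofNat (nat_lit 0), .ofNat (nat_lit 0)⟩⟩, []⟩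
noncomputable def p007_l205 : Lf2 := ⟨nat_lit 0, nat_lit 5, [nat_lit 4, nat_lit 5, nat_lit 5, nat_lit 20], true, nat_lit 0, nat_lit 0, nat_lit 0, nat_lit 0, ⟨nat_lit 0, nat_lit 0, nat_lit 1000, nat_lit 5, nat_lit 203, nat_lit 0, nat_lit 0, nat_lit 0, nat_lit 0, nat_lit 215, nat_lit 2400, nat_lit 227, nat_lit 53249481, nat_lit 0, nat_lit 0, nat_lit 2537849, false, true⟩,
 nat_lit 0, nat_lit 7925, nat_lit 0, nat_lit 0, nat_lit 4195, nat_lit 0, nat_lit 0, nat_lit 0, nat_lit 0, nat_lit 0, nat_lit 0, nat_lit 0, nat_lit 0, nat_lit 0, nat_lit 147, nat_lit 1000000, nat_lit 0, nat_lit 0, [(nat_lit 6, [(nat_lit 6, nat_lit 1000)])],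
 ⟨p007_k40, nat_lit 0, nat_lit 0, nat_lit 426, nat_lit 0, nat_lit 512324, [nat_lit 3329066667, nat_lit 3042400001, nat_lit 177599999], [], [nat_lit 18666548228, nat_lit 16514269918, nat_lit 16479640782, nat_lit 17219160832], nat_lit 1271250, nat_lit 1271250, nat_lit 1271250, nat_lit 1271250, nat_lit 0, nat_lit 0, [nat_lit 1100000, nat_lit 1442500, nat_lit 1271250], [nat_lit 11, nat_lit 40, nat_lit 20, nat_lit 80, nat_lit 1, nat_lit 345, nat_lit 125, nat_lit 10]⟩, C1.Rw.none,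
 ⟨nat_lit 5916, nat_lit 6325, ⟨.ofNat (nat_lit 457263), .ofNat (nat_lit 539519), .ofNat (nat_lit 478631), .ofNat (nat_lit 560879), .ofNat (nat_lit 457320), .ofNat (nat_lit 535845), .ofNat (nat_lit 478659), .ofNat (nat_lit 557177)⟩, ⟨.ofNat (nat_lit 0), .ofNat (nat_lit 0), .ofNat (nat_lit 0), .ofNat (nat_lit 0), .ofNat (nat_lit 0), .ofNat (nat_lit 0), .ofNat (nat_lit 0), .ofNat (nat_lit 0)⟩⟩, []⟩
noncomputable def p007_l206 : Lf2 := ⟨nat_lit 0, nat_lit 5, [nat_lit 4, nat_lit 5, nat_lit 5, nat_lit 20], false, nat_lit 0, nat_lit 0, nat_lit 0, nat_lit 0, ⟨nat_lit 525, nat_lit 475, nat_lit 0, nat_lit 6, nat_lit 280, nat_lit 0, nat_lit 0, nat_lit 0, nat_lit 0, nat_lit 0, nat_lit 0, nat_lit 0, nat_lit 44921389, nat_lit 22078611, nat_lit 0, nat_lit 3169231, false, true⟩,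
 nat_lit 14276, nat_lit 0, nat_lit 0, nat_lit 0, nat_lit 5848, nat_lit 4758, nat_lit 1518, nat_lit 0, nat_lit 0, nat_lit 935, nat_lit 0, nat_lit 0, nat_lit 0, nat_lit 0, nat_lit 0, nat_lit 190000, nat_lit 0, nat_lit 0, [(nat_lit 6, [(nat_lit 1, nat_lit 475)])],
 ⟨p007_k40, nat_lit 0, nat_lit 0, nat_lit 336, nat_lit 0, nat_lit 290645, [nat_lit 3740026667, nat_lit 4778006667, nat_lit 6672594445], [], [nat_lit 24585743279, nat_lit 25399495761, nat_lit 32827141149, nat_lit 33475094605], nat_lit 1271250, nat_lit 1271250, nat_lit 1271250, nat_lit 1271250, nat_lit 0, nat_lit 0, [nat_lit 1100000, nat_lit 1442500, nat_lit 1271250], [nat_lit 11, nat_lit 40, nat_lit 20, nat_lit 80, nat_lit 1, nat_lit 401, nat_lit 175, nat_lit 11]⟩, ⟨p007_k41, nat_lit 0, nat_lit 0, nat_lit 579, nat_lit 0, nat_lit 487693, [nat_lit 4183200000, nat_lit 5167050000, nat_lit 7380450000], [], [nat_lit 22795433627, nat_lit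 22753097136, nat_lit 24991373746, nat_lit 24849913791], nat_lit 1100001, nat_lit 1271250, nat_lit 1271250, nat_lit 1271250, nat_lit 0, nat_lit 0, [nat_lit 1695000, nat_lit 1271250, nat_lit 1271250], [nat_lit 92, nat_lit 40, nat_lit 20, nat_lit 80, nat_lit 32, nat_lit 373, nat_lit 150, nat_lit 9]⟩,
 ⟨nat_lit 5916, nat_lit 6325, ⟨.ofNat (nat_lit 539519), .ofNat (nat_lit 852030), .ofNat (nat_lit 560879), .ofNat (nat_lit 873391), .ofNat (nat_lit 535845), .ofNat (nat_lit 834180), .ofNat (nat_lit 557177), .ofNat (nat_lit 855512)⟩, ⟨.ofNat (nat_lit 0), .ofNat (nat_lit 0), .ofNat (nat_lit 0), .ofNat (nat_lit 0), .ofNat (nat_lit 0), .ofNat (nat_lit 0), .ofNat (nat_lit 0), .ofNat (nat_lit 0)⟩⟩, []⟩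
noncomputable def p007_l207 : Lf2 := ⟨nat_lit 0, nat_lit 5, [nat_lit 4, nat_lit 5, nat_lit 5, nat_lit 20], true, nat_lit 0, nat_lit 0, nat_lit 0, nat_lit 0, ⟨nat_lit 0, nat_lit 1000, nat_lit 0, nat_lit 4, nat_lit 91, nat_lit 0, nat_lit 0, nat_lit 0, nat_lit 0, nat_lit 0, nat_lit 0, nat_lit 0, nat_lit 0, nat_lit 0, nat_lit 0, nat_lit 5000000, false, false⟩,
 nat_lit 0, nat_lit 6290, nat_lit 0, nat_lit 0, nat_lit 3330, nat_lit 0, nat_lit 0, nat_lit 0, nat_lit 0, nat_lit 0, nat_lit 0, nat_lit 0, nat_lit 0, nat_lit 0, nat_lit 0, nat_lit 814600, nat_lit 0, nat_lit 0, [(nat_lit 6, [(nat_lit 1, nat_lit 309), (nat_lit 2, nat_lit 691)])],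
 ⟨p007_k38, nat_lit 0, nat_lit 0, nat_lit 562, nat_lit 0, nat_lit 512324, [nat_lit 3923106401, nat_lit 1889215600], [], [nat_lit 36843718403, nat_lit 36031897502, nat_lit 36360143404, nat_lit 35415702123], nat_lit 1271250, nat_lit 1271250, nat_lit 0, nat_lit 1100001, nat_lit 0, nat_lit 0, [nat_lit 1100000, nat_lit 2127500], [nat_lit 70, nat_lit 40, nat_lit 20, nat_lit 80, nat_lit 13, nat_lit 345, nat_lit 125, nat_lit 10]⟩, C1.Rw.none,
 ⟨nat_lit 5916, nat_lit 6325, ⟨.ofNat (nat_lit 45942), .ofNat (nat_lit 374999), .ofNat (nat_lit 67309), .ofNat (nat_lit 396366), .ofNat (nat_lit 64652), .ofNat (nat_lit 378786), .ofNat (nat_lit 85991), .ofNat (nat_lit 400126)⟩, ⟨.ofNat (nat_lit 0), .ofNat (nat_lit 0), .ofNat (nat_lit 0), .ofNat (nat_lit 0), .ofNat (nat_lit 0), .ofNat (nat_lit 0), .ofNat (nat_lit 0), .ofNat (nat_lit 0)⟩⟩, []⟩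
noncomputable def p007_l208 : Lf2 := ⟨nat_lit 0, nat_lit 5, [nat_lit 4, nat_lit 5, nat_lit 5, nat_lit 20], false, nat_lit 0, nat_lit 0, nat_lit 0, nat_lit 0, ⟨nat_lit 561, nat_lit 439, nat_lit 0, nat_lit 4, nat_lit 248, nat_lit 0, nat_lit 0, nat_lit 0, nat_lit 0, nat_lit 0, nat_lit 0, nat_lit 0, nat_lit 0, nat_lit 0, nat_lit 0, nat_lit 5000000, false, true⟩,
 nat_lit 0, nat_lit 9164, nat_lit 0, nat_lit 0, nat_lit 4851, nat_lit 5108, nat_lit 884, nat_lit 0, nat_lit 0, nat_lit 1435, nat_lit 0, nat_lit 0, nat_lit 0, nat_lit 0, nat_lit 0, nat_lit 175600, nat_lit 0, nat_lit 0, [(nat_lit 6, [(nat_lit 1, nat_lit 439)])],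
 ⟨p007_k40, nat_lit 0, nat_lit 0, nat_lit 438, nat_lit 0, nat_lit 512324, [nat_lit 3811873067, nat_lit 4889568267, nat_lit 6912640800], [], [nat_lit 35015905974, nat_lit 33324775808, nat_lit 42613873086, nat_lit 40382459656], nat_lit 1271250, nat_lit 1271250, nat_lit 1100001, nat_lit 3086500, nat_lit 0, nat_lit 0, [nat_lit 1100000, nat_lit 1442500, nat_lit 1271250], [nat_lit 11, nat_lit 40, nat_lit 20, nat_lit 80, nat_lit 1, nat_lit 401, nat_lit 175, nat_lit 12]⟩, ⟨p007_k41, nat_lit 0, nat_lit 0, nat_lit 309, nat_lit 0, nat_lit 0, [nat_lit 4470048000, nat_lit 5521362000, nat_lit 7886538000], [], [nat_lit 16770309623, nat_lit 16935555087, nat_lit 23486959183, nat_lit 23415999866], nat_lit 0, nat_lit 0, nat_lit 0, nat_lit 0, nat_lit 0, nat_lit 0, [], [nat_lit 92, nat_lit 40, nat_lit 20, nat_lit 80, nat_lit 32, nat_lit 373, nat_lit 150, nat_lit 9]⟩,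
 ⟨nat_lit 5916, nat_lit 6325, ⟨.ofNat (nat_lit 374999), .ofNat (nat_lit 852030), .ofNat (nat_lit 396366), .ofNat (nat_lit 873391), .ofNat (nat_lit 378786), .ofNat (nat_lit 834180), .ofNat (nat_lit 400126), .ofNat (nat_lit 855512)⟩, ⟨.ofNat (nat_lit 0), .ofNat (nat_lit 0), .ofNat (nat_lit 0), .ofNat (nat_lit 0), .ofNat (nat_lit 0), .ofNat (nat_lit 0), .ofNat (nat_lit 0), .ofNat (nat_lit 0)⟩⟩, []⟩
noncomputable def p007_l209 : Lf2 := ⟨nat_lit 0, nat_lit 5, [nat_lit 4, nat_lit 5, nat_lit 5, nat_lit 20], true, nat_lit 0, nat_lit 0, nat_lit 0, nat_lit 0, ⟨nat_lit 0, nat_lit 1000, nat_lit 0, nat_lit 4, nat_lit 91, nat_lit 0, nat_lit 0, nat_lit 0, nat_lit 0, nat_lit 0, nat_lit 0, nat_lit 0, nat_lit 0, nat_lit 0, nat_lit 0, nat_lit 5000000, false, false⟩,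
 nat_lit 0, nat_lit 6206, nat_lit 0, nat_lit 0, nat_lit 3285, nat_lit 0, nat_lit 1239, nat_lit 0, nat_lit 0, nat_lit 0, nat_lit 0, nat_lit 0, nat_lit 0, nat_lit 0, nat_lit 0, nat_lit 400000, nat_lit 0, nat_lit 0, [(nat_lit 6, [(nat_lit 1, nat_lit 1000)])],
 ⟨p007_k40, nat_lit 0, nat_lit 0, nat_lit 563, nat_lit 0, nat_lit 512324, [nat_lit 2692266667, nat_lit 3151066667, nat_lit 3294533333], [], [nat_lit 33082626401, nat_lit 31484331525, nat_lit 31497558768, nat_lit 31691688525], nat_lit 1271250, nat_lit 1271250, nat_lit 0, nat_lit 1100001, nat_lit 0, nat_lit 0, [nat_lit 1100000, nat_lit 1442500, nat_lit 1271250], [nat_lit 11, nat_lit 40, nat_lit 20, nat_lit 80, nat_lit 1, nat_lit 345, nat_lit 125, nat_lit 10]⟩, C1.Rw.none,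
 ⟨nat_lit 5916, nat_lit 6325, ⟨.ofNat (nat_lit 45942), .ofNat (nat_lit 374999), .ofNat (nat_lit 67309), .ofNat (nat_lit 396366), .ofNat (nat_lit 64652), .ofNat (nat_lit 378786), .ofNat (nat_lit 85991), .ofNat (nat_lit 400126)⟩, ⟨.ofNat (nat_lit 0), .ofNat (nat_lit 0), .ofNat (nat_lit 0), .ofNat (nat_lit 0), .ofNat (nat_lit 0), .ofNat (nat_lit 0), .ofNat (nat_lit 0), .ofNat (nat_lit 0)⟩⟩, []⟩
noncomputable def p007_l210 : Lf2 := ⟨nat_lit 0, nat_lit 5, [nat_lit 4, nat_lit 5, nat_lit 5, nat_lit 20], false, nat_lit 0, nat_lit 0, nat_lit 0, nat_lit 0, ⟨nat_lit 0, nat_lit 1000, nat_lit 0, nat_lit 4, nat_lit 248, nat_lit 0, nat_lit 0, nat_lit 0, nat_lit 0, nat_lit 0, nat_lit 0, nat_lit 0, nat_lit 0, nat_lit 0, nat_lit 0, nat_lit 5000000, false, true⟩,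
 nat_lit 0, nat_lit 3173, nat_lit 0, nat_lit 0, nat_lit 1679, nat_lit 0, nat_lit 138, nat_lit 0, nat_lit 0, nat_lit 0, nat_lit 0, nat_lit 0, nat_lit 0, nat_lit 0, nat_lit 0, nat_lit 400000, nat_lit 0, nat_lit 0, [(nat_lit 6, [(nat_lit 1, nat_lit 1000)])],
 ⟨p007_k40, nat_lit 0, nat_lit 0, nat_lit 336, nat_lit 0, nat_lit 290645, [nat_lit 2692266667, nat_lit 3151066667, nat_lit 3294533333], [], [nat_lit 31602468697, nat_lit 32168706103, nat_lit 37643867227, nat_lit 38040279019], nat_lit 1271250, nat_lit 1271250, nat_lit 1100001, nat_lit 3086500, nat_lit 0, nat_lit 0, [nat_lit 1100000, nat_lit 1442500, nat_lit 1271250], [nat_lit 11, nat_lit 40, nat_lit 20, nat_lit 80, nat_lit 1, nat_lit 401, nat_lit 175, nat_lit 12]⟩, ⟨p007_k41, nat_lit 0, nat_lit 0, nat_lit 603, nat_lit 0, nat_lit 487693, [nat_lit 0, nat_lit 0, nat_lit 0], [], [nat_lit 0, nat_lit 0, nat_lit 0, nat_lit 0], nat_lit 1100001,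 nat_lit 1271250, nat_lit 1100001, nat_lit 3086500, nat_lit 0, nat_lit 0, [nat_lit 1695000, nat_lit 1271250, nat_lit 1271250], [nat_lit 92, nat_lit 40, nat_lit 20, nat_lit 80, nat_lit 32, nat_lit 373, nat_lit 150, nat_lit 9]⟩,
 ⟨nat_lit 5916, nat_lit 6325, ⟨.ofNat (nat_lit 374999), .ofNat (nat_lit 852030), .ofNat (nat_lit 396366), .ofNat (nat_lit 873391), .ofNat (nat_lit 378786), .ofNat (nat_lit 834180), .ofNat (nat_lit 400126), .ofNat (nat_lit 855512)⟩, ⟨.ofNat (nat_lit 0), .ofNat (nat_lit 0), .ofNat (nat_lit 0), .ofNat (nat_lit 0), .ofNat (nat_lit 0), .ofNat (nat_lit 0), .ofNat (nat_lit 0), .ofNat (nat_lit 0)⟩⟩, [⟨nat_lit 13, nat_lit 98, nat_lit 30, nat_lit 100, nat_lit 187023358⟩]⟩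
noncomputable def b_NL_600_400_0_0 : St := ⟨false, nat_lit 2, nat_lit 2, nat_lit 0, nat_lit 20, nat_lit 240, nat_lit 260, nat_lit 160, nat_lit 180, nat_lit 0, nat_lit 400, nat_lit 0, nat_lit 0, nat_lit 0, nat_lit 0, nat_lit 0, nat_lit 0, nat_lit 0, nat_lit 32, nat_lit 0, nat_lit 0, nat_lit 0, nat_lit 0⟩
theorem d_NL_600_400_0_0 (h : EB TB.env) : Dead b_NL_600_400_0_0 := chkB_sound0 h (T :=
(.trX (nat_lit 13) (nat_lit 98) (nat_lit 30) (nat_lit 100) (nat_lit 392) (.st (nat_lit 0)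
(.gv
(.st (nat_lit 1)
(.spl (nat_lit 2) (nat_lit 160)
(.leaf p007_l182)
(.leaf p007_l183))
(.spl (nat_lit 2) (nat_lit 160)
(.leaf p007_l184)
(.spl (nat_lit 2) (nat_lit 240)
(.leaf p007_l185)
(.spl (nat_lit 2) (nat_lit 320)
(.leaf p007_l186)
(.spl (nat_lit 6) (nat_lit 20)
(.spl (nat_lit 0) (nat_lit 250)
(.leaf p007_l187)
(.trX (nat_lit 13) (nat_lit 97) (nat_lit 35) (nat_lit 100) (nat_lit 388) (.leaf p007_l188)))
(.leaf p007_l189))))))
(.leaf p007_l190))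
(.gv
(.st (nat_lit 1)
(.spl (nat_lit 2) (nat_lit 160)
(.spl (nat_lit 2) (nat_lit 80)
(.spl (nat_lit 0) (nat_lit 250)
(.spl (nat_lit 6) (nat_lit 24)
(.spl (nat_lit 6) (nat_lit 16)
(.leaf p007_l191)
(.leaf p007_l192))
(.leaf p007_l193))
(.leaf p007_l194))
(.spl (nat_lit 6) (nat_lit 20)
(.leaf p007_l195)
(.leaf p007_l196)))
(.spl (nat_lit 0) (nat_lit 250)
(.leaf p007_l197)
(.trX (nat_lit 13) (nat_lit 97) (nat_lit 35) (nat_lit 100) (nat_lit 388) (.leaf p007_l198))))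
(.spl (nat_lit 2) (nat_lit 160)
(.spl (nat_lit 2) (nat_lit 120)
(.spl (nat_lit 6) (nat_lit 20)
(.spl (nat_lit 6) (nat_lit 8)
(.spl (nat_lit 0) (nat_lit 250)
(.leaf p007_l199)
(.leaf p007_l200))
(.leaf p007_l201))
(.leaf p007_l202))
(.leaf p007_l203))
(.spl (nat_lit 2) (nat_lit 240)
(.spl (nat_lit 2) (nat_lit 200)
(.leaf p007_l204)
(.leaf p007_l205))
(.leaf p007_l206))))
(.st (nat_lit 1)
(.spl (nat_lit 2) (nat_lit 160)
(.leaf p007_l207)
(.leaf p007_l208))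
(.spl (nat_lit 2) (nat_lit 160)
(.leaf p007_l209)
(.leaf p007_l210))))))) (by decide +kernel)
noncomputable def p007_l211 : Lf2 := ⟨nat_lit 0, nat_lit 5, [nat_lit 4, nat_lit 5, nat_lit 5, nat_lit 20], true, nat_lit 0, nat_lit 0, nat_lit 0, nat_lit 0, ⟨nat_lit 0, nat_lit 0, nat_lit 1000, nat_lit 4, nat_lit 99, nat_lit 0, nat_lit 0, nat_lit 0, nat_lit 0, nat_lit 215, nat_lit 91267, nat_lit 289, nat_lit 63114307, nat_lit 0, nat_lit 0, nat_lit 1107072, false, false⟩,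
 nat_lit 0, nat_lit 0, nat_lit 0, nat_lit 4280, nat_lit 4449, nat_lit 0, nat_lit 0, nat_lit 0, nat_lit 0, nat_lit 0, nat_lit 0, nat_lit 0, nat_lit 0, nat_lit 0, nat_lit 104, nat_lit 665800, nat_lit 0, nat_lit 0, [(nat_lit 6, [(nat_lit 5, nat_lit 557), (nat_lit 6, nat_lit 443)])],
 ⟨p007_k38, nat_lit 0, nat_lit 0, nat_lit 297, nat_lit 0, nat_lit 0, [nat_lit 3431747201, nat_lit 19688000], [], [nat_lit 15709080782, nat_lit 17095295178, nat_lit 14777376098, nat_lit 15650585212], nat_lit 0, nat_lit 0, nat_lit 0, nat_lit 0, nat_lit 0, nat_lit 0, [], [nat_lit 70, nat_lit 40, nat_lit 20, nat_lit 80, nat_lit 13, nat_lit 345, nat_lit 125, nat_lit 10]⟩, C1.Rw.none,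
 ⟨nat_lit 5916, nat_lit 6325, ⟨.ofNat (nat_lit 67309), .ofNat (nat_lit 396366), .ofNat (nat_lit 88677), .ofNat (nat_lit 417734), .ofNat (nat_lit 85991), .ofNat (nat_lit 400126), .ofNat (nat_lit 107331), .ofNat (nat_lit 421465)⟩, ⟨.ofNat (nat_lit 0), .ofNat (nat_lit 0), .ofNat (nat_lit 0), .ofNat (nat_lit 0), .ofNat (nat_lit 0), .ofNat (nat_lit 0), .ofNat (nat_lit 0), .ofNat (nat_lit 0)⟩⟩, [⟨nat_lit 0, nat_lit 100, nat_lit 97, nat_lit 20, nat_lit 141898850⟩]⟩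
noncomputable def p007_l212 : Lf2 := ⟨nat_lit 0, nat_lit 5, [nat_lit 4, nat_lit 5, nat_lit 5, nat_lit 20], false, nat_lit 0, nat_lit 0, nat_lit 0, nat_lit 0, ⟨nat_lit 1000, nat_lit 0, nat_lit 0, nat_lit 0, nat_lit 0, nat_lit 0, nat_lit 0, nat_lit 0, nat_lit 0, nat_lit 0, nat_lit 0, nat_lit 0, nat_lit 0, nat_lit 0, nat_lit 0, nat_lit 0, false, false⟩,
 nat_lit 0, nat_lit 0, nat_lit 0, nat_lit 0, nat_lit 10568, nat_lit 7498, nat_lit 0, nat_lit 0, nat_lit 0, nat_lit 0, nat_lit 0, nat_lit 0, nat_lit 0, nat_lit 0, nat_lit 0, nat_lit 0, nat_lit 0, nat_lit 0, [],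
 ⟨p007_k38, nat_lit 0, nat_lit 0, nat_lit 202, nat_lit 0, nat_lit 0, [nat_lit 4688000000, nat_lit 9842000000], [], [nat_lit 25120827648, nat_lit 27085048624, nat_lit 44539249562, nat_lit 45773594004], nat_lit 0, nat_lit 0, nat_lit 0, nat_lit 0, nat_lit 0, nat_lit 0, [], [nat_lit 70, nat_lit 40, nat_lit 20, nat_lit 80, nat_lit 13, nat_lit 401, nat_lit 175, nat_lit 12]⟩, ⟨p007_k48, nat_lit 0, nat_lit 0, nat_lit 258, nat_lit 0, nat_lit 0, [nat_lit 7968000000, nat_lit 11872000000], [], [nat_lit 35123753076, nat_lit 35586296488, nat_lit 46297325432, nat_lit 46281546061], nat_lit 0, nat_lit 0, nat_lit 0, nat_lit 0, nat_lit 0, nat_lit 0, [], [nat_lit 143, nat_lit 40, nat_lit 20, nat_lit 80, nat_lit 14, nat_lit 373, nat_lit 150, nat_lit 10]⟩,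
 zbF0, [⟨nat_lit 13, nat_lit 98, nat_lit 20, nat_lit 100, nat_lit 71832009⟩]⟩
noncomputable def p007_l213 : Lf2 := ⟨nat_lit 0, nat_lit 5, [nat_lit 4, nat_lit 5, nat_lit 5, nat_lit 20], true, nat_lit 0, nat_lit 0, nat_lit 0, nat_lit 0, ⟨nat_lit 0, nat_lit 0, nat_lit 1000, nat_lit 4, nat_lit 99, nat_lit 0, nat_lit 0, nat_lit 0, nat_lit 0, nat_lit 215, nat_lit 91267, nat_lit 289, nat_lit 63114307, nat_lit 0, nat_lit 0, nat_lit 1107072, false, false⟩,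
 nat_lit 0, nat_lit 0, nat_lit 0, nat_lit 4280, nat_lit 4449, nat_lit 0, nat_lit 0, nat_lit 0, nat_lit 0, nat_lit 0, nat_lit 0, nat_lit 0, nat_lit 0, nat_lit 0, nat_lit 104, nat_lit 665800, nat_lit 0, nat_lit 0, [(nat_lit 6, [(nat_lit 5, nat_lit 557), (nat_lit 6, nat_lit 443)])],
 ⟨p007_k38, nat_lit 0, nat_lit 0, nat_lit 297, nat_lit 0, nat_lit 0, [nat_lit 3431747201, nat_lit 19688000], [], [nat_lit 15709080782, nat_lit 17095295178, nat_lit 14777376098, nat_lit 15650585212], nat_lit 0, nat_lit 0, nat_lit 0, nat_lit 0, nat_lit 0, nat_lit 0, [], [nat_lit 70, nat_lit 40, nat_lit 20, nat_lit 80, nat_lit 13, nat_lit 345, nat_lit 125, nat_lit 10]⟩, C1.Rw.none,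
 ⟨nat_lit 5916, nat_lit 6325, ⟨.ofNat (nat_lit 67309), .ofNat (nat_lit 396366), .ofNat (nat_lit 88677), .ofNat (nat_lit 417734), .ofNat (nat_lit 85991), .ofNat (nat_lit 400126), .ofNat (nat_lit 107331), .ofNat (nat_lit 421465)⟩, ⟨.ofNat (nat_lit 0), .ofNat (nat_lit 0), .ofNat (nat_lit 0), .ofNat (nat_lit 0), .ofNat (nat_lit 0), .ofNat (nat_lit 0), .ofNat (nat_lit 0), .ofNat (nat_lit 0)⟩⟩, [⟨nat_lit 0, nat_lit 100, nat_lit 97, nat_lit 20, nat_lit 141898850⟩]⟩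
noncomputable def p007_l214 : Lf2 := ⟨nat_lit 0, nat_lit 5, [nat_lit 4, nat_lit 5, nat_lit 5, nat_lit 20], true, nat_lit 0, nat_lit 0, nat_lit 0, nat_lit 0, ⟨nat_lit 0, nat_lit 0, nat_lit 1000, nat_lit 4, nat_lit 196, nat_lit 0, nat_lit 0, nat_lit 0, nat_lit 0, nat_lit 215, nat_lit 3856, nat_lit 219, nat_lit 54057271, nat_lit 0, nat_lit 0, nat_lit 2453969, false, true⟩,
 nat_lit 0, nat_lit 0, nat_lit 0, nat_lit 5269, nat_lit 4253, nat_lit 0, nat_lit 0, nat_lit 0, nat_lit 0, nat_lit 0, nat_lit 0, nat_lit 0, nat_lit 0, nat_lit 0, nat_lit 127, nat_lit 845200, nat_lit 0, nat_lit 0, [(nat_lit 6, [(nat_lit 5, nat_lit 258), (nat_lit 6, nat_lit 742)])],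
 ⟨p007_k49, nat_lit 0, nat_lit 0, nat_lit 148, nat_lit 0, nat_lit 0, [nat_lit 3535968801, nat_lit 1476417067, nat_lit 10672000], [], [nat_lit 13259617661, nat_lit 14272295775, nat_lit 15897057308, nat_lit 16852543416], nat_lit 0, nat_lit 0, nat_lit 0, nat_lit 0, nat_lit 0, nat_lit 0, [], [nat_lit 29, nat_lit 40, nat_lit 20, nat_lit 80, nat_lit 17, nat_lit 345, nat_lit 125, nat_lit 10]⟩, C1.Rw.none,
 ⟨nat_lit 5916, nat_lit 6325, ⟨.ofNat (nat_lit 396366), .ofNat (nat_lit 560879), .ofNat (nat_lit 417734), .ofNat (nat_lit 582240), .ofNat (nat_lit 400126), .ofNat (nat_lit 557177), .ofNat (nat_lit 421465), .ofNat (nat_lit 578509)⟩, ⟨.ofNat (nat_lit 0), .ofNat (nat_lit 0), .ofNat (nat_lit 0), .ofNat (nat_lit 0), .ofNat (nat_lit 0), .ofNat (nat_lit 0), .ofNat (nat_lit 0), .ofNat (nat_lit 0)⟩⟩, []⟩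
noncomputable def p007_l215 : Lf2 := ⟨nat_lit 0, nat_lit 5, [nat_lit 4, nat_lit 5, nat_lit 5, nat_lit 20], true, nat_lit 0, nat_lit 0, nat_lit 0, nat_lit 0, ⟨nat_lit 0, nat_lit 110, nat_lit 890, nat_lit 6, nat_lit 260, nat_lit 0, nat_lit 0, nat_lit 0, nat_lit 0, nat_lit 215, nat_lit 222188, nat_lit 200, nat_lit 47096915, nat_lit 19903085, nat_lit 0, nat_lit 3041766, true, true⟩,
 nat_lit 0, nat_lit 0, nat_lit 0, nat_lit 3660, nat_lit 3691, nat_lit 0, nat_lit 153, nat_lit 0, nat_lit 0, nat_lit 0, nat_lit 0, nat_lit 0, nat_lit 0, nat_lit 0, nat_lit 49, nat_lit 400000, nat_lit 0, nat_lit 0, [(nat_lit 6, [(nat_lit 1, nat_lit 110), (nat_lit 5, nat_lit 890)])],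
 ⟨p007_k49, nat_lit 0, nat_lit 0, nat_lit 184, nat_lit 0, nat_lit 0, [nat_lit 2357844000, nat_lit 668904001, nat_lit 7540000], [], [nat_lit 18141883932, nat_lit 18966241988, nat_lit 21642218536, nat_lit 22316600166], nat_lit 0, nat_lit 0, nat_lit 0, nat_lit 0, nat_lit 0, nat_lit 0, [], [nat_lit 29, nat_lit 40, nat_lit 20, nat_lit 80, nat_lit 17, nat_lit 373, nat_lit 150, nat_lit 10]⟩, C1.Rw.none,
 ⟨nat_lit 5916, nat_lit 6325, ⟨.ofNat (nat_lit 560879), .ofNat (nat_lit 725359), .ofNat (nat_lit 582240), .ofNat (nat_lit 746719), .ofNat (nat_lit 557177), .ofNat (nat_lit 714196), .ofNat (nat_lit 578509), .ofNat (nat_lit 735527)⟩, ⟨.ofNat (nat_lit 0), .ofNat (nat_lit 0), .ofNat (nat_lit 0), .ofNat (nat_lit 0), .ofNat (nat_lit 0), .ofNat (nat_lit 0), .ofNat (nat_lit 0), .ofNat (nat_lit 0)⟩⟩, []⟩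
noncomputable def p007_l216 : Lf2 := ⟨nat_lit 0, nat_lit 5, [nat_lit 4, nat_lit 5, nat_lit 5, nat_lit 20], false, nat_lit 0, nat_lit 0, nat_lit 0, nat_lit 0, ⟨nat_lit 196, nat_lit 804, nat_lit 0, nat_lit 8, nat_lit 324, nat_lit 0, nat_lit 0, nat_lit 0, nat_lit 0, nat_lit 0, nat_lit 0, nat_lit 0, nat_lit 40435934, nat_lit 26564066, nat_lit 0, nat_lit 3357789, true, true⟩,
 nat_lit 0, nat_lit 0, nat_lit 4751, nat_lit 0, nat_lit 4434, nat_lit 1806, nat_lit 899, nat_lit 0, nat_lit 0, nat_lit 491, nat_lit 0, nat_lit 0, nat_lit 0, nat_lit 0, nat_lit 0, nat_lit 321600, nat_lit 0, nat_lit 0, [(nat_lit 6, [(nat_lit 1, nat_lit 804)])],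
 ⟨p007_k40, nat_lit 0, nat_lit 0, nat_lit 212, nat_lit 0, nat_lit 0, [nat_lit 3083430400, nat_lit 3758457600, nat_lit 4547260800], [], [nat_lit 26183307414, nat_lit 26536075224, nat_lit 30477576256, nat_lit 30775862706], nat_lit 0, nat_lit 0, nat_lit 0, nat_lit 0, nat_lit 0, nat_lit 0, [], [nat_lit 11, nat_lit 40, nat_lit 20, nat_lit 80, nat_lit 1, nat_lit 289, nat_lit 75, nat_lit 8]⟩, ⟨p007_k50, nat_lit 0, nat_lit 0, nat_lit 697, nat_lit 0, nat_lit 936574, [nat_lit 1561728000, nat_lit 1929032000, nat_lit 2326912000], [], [nat_lit 7651276458, nat_lit 7604965900, nat_lit 8053356921, nat_lit 8004213840], nat_lit 1271250, nat_lit 1271250, nat_lit 1271250, nat_lit 1271250, nat_lit 0, nat_lit 0, [nat_lit 1695000, nat_lit 1271250, nat_lit 1271250], [nat_lit 106, nat_lit 40, nat_lit 20, nat_lit 80, nat_lit 41, nat_lit 260, nat_lit 50, nat_lit 6]⟩,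
 ⟨nat_lit 6123, nat_lit 6325, ⟨.ofNat (nat_lit 725407), .ofNat (nat_lit 881696), .ofNat (nat_lit 746773), .ofNat (nat_lit 903063), .ofNat (nat_lit 719776), .ofNat (nat_lit 872487), .ofNat (nat_lit 741122), .ofNat (nat_lit 893833)⟩, ⟨.ofNat (nat_lit 0), .ofNat (nat_lit 0), .ofNat (nat_lit 0), .ofNat (nat_lit 0), .ofNat (nat_lit 0), .ofNat (nat_lit 0), .ofNat (nat_lit 0), .ofNat (nat_lit 0)⟩⟩, [⟨nat_lit 13, nat_lit 98, nat_lit 27, nat_lit 100, nat_lit 106415607⟩]⟩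
noncomputable def p007_l217 : Lf2 := ⟨nat_lit 0, nat_lit 5, [nat_lit 4, nat_lit 5, nat_lit 5, nat_lit 20], false, nat_lit 0, nat_lit 0, nat_lit 0, nat_lit 0, ⟨nat_lit 114, nat_lit 886, nat_lit 0, nat_lit 8, nat_lit 321, nat_lit 0, nat_lit 0, nat_lit 0, nat_lit 0, nat_lit 0, nat_lit 0, nat_lit 0, nat_lit 40727790, nat_lit 26272210, nat_lit 0, nat_lit 3348439, true, true⟩,
 nat_lit 0, nat_lit 0, nat_lit 2785, nat_lit 0, nat_lit 4396, nat_lit 1059, nat_lit 486, nat_lit 0, nat_lit 0, nat_lit 270, nat_lit 0, nat_lit 0, nat_lit 0, nat_lit 0, nat_lit 0, nat_lit 354400, nat_lit 0, nat_lit 0, [(nat_lit 6, [(nat_lit 1, nat_lit 886)])],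
 ⟨p007_k42, nat_lit 0, nat_lit 0, nat_lit 190, nat_lit 0, nat_lit 0, [nat_lit 2919780267, nat_lit 3397434400, nat_lit 3810694800], [], [nat_lit 26044185803, nat_lit 26433189963, nat_lit 30599689781, nat_lit 30895810399], nat_lit 0, nat_lit 0, nat_lit 0, nat_lit 0, nat_lit 0, nat_lit 0, [], [nat_lit 9, nat_lit 40, nat_lit 20, nat_lit 80, nat_lit 2, nat_lit 203, nat_lit 0, nat_lit 6]⟩, ⟨p007_k50, nat_lit 0, nat_lit 0, nat_lit 791, nat_lit 0, nat_lit 1150427, [nat_lit 908352000, nat_lit 1121988000, nat_lit 1353408000], [], [nat_lit 4541012106, nat_lit 4510445760, nat_lit 4716779956, nat_lit 4680932938], nat_lit 1271250, nat_lit 1271250, nat_lit 1271250, nat_lit 1271250, nat_lit 0, nat_lit 0, [nat_lit 1695000, nat_lit 1271250, nat_lit 1271250], [nat_lit 106, nat_lit 40, nat_lit 20, nat_lit 80, nat_lit 41, nat_lit 273, nat_lit 50, nat_lit 7]⟩,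
 ⟨nat_lit 5916, nat_lit 6124, ⟨.ofNat (nat_lit 719778), .ofNat (nat_lit 872490), .ofNat (nat_lit 741125), .ofNat (nat_lit 893837), .ofNat (nat_lit 714245), .ofNat (nat_lit 863448), .ofNat (nat_lit 735583), .ofNat (nat_lit 884786)⟩, ⟨.ofNat (nat_lit 0), .ofNat (nat_lit 0), .ofNat (nat_lit 0), .ofNat (nat_lit 0), .ofNat (nat_lit 0), .ofNat (nat_lit 0), .ofNat (nat_lit 0), .ofNat (nat_lit 0)⟩⟩, [⟨nat_lit 13, nat_lit 96, nat_lit 32, nat_lit 100, nat_lit 151144965⟩]⟩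
noncomputable def p007_l218 : Lf2 := ⟨nat_lit 0, nat_lit 5, [nat_lit 4, nat_lit 5, nat_lit 5, nat_lit 20], true, nat_lit 0, nat_lit 0, nat_lit 0, nat_lit 0, ⟨nat_lit 0, nat_lit 1000, nat_lit 0, nat_lit 4, nat_lit 194, nat_lit 0, nat_lit 0, nat_lit 0, nat_lit 0, nat_lit 0, nat_lit 0, nat_lit 0, nat_lit 0, nat_lit 0, nat_lit 0, nat_lit 5000000, false, true⟩,
 nat_lit 0, nat_lit 0, nat_lit 0, nat_lit 4659, nat_lit 5219, nat_lit 0, nat_lit 0, nat_lit 0, nat_lit 0, nat_lit 0, nat_lit 0, nat_lit 0, nat_lit 0, nat_lit 0, nat_lit 0, nat_lit 734200, nat_lit 0, nat_lit 0, [(nat_lit 6, [(nat_lit 1, nat_lit 443), (nat_lit 2, nat_lit 557)])],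
 ⟨p007_k38, nat_lit 0, nat_lit 0, nat_lit 297, nat_lit 0, nat_lit 0, [nat_lit 3771632801, nat_lit 2155661200], [], [nat_lit 26770001097, nat_lit 27607399289, nat_lit 31818461946, nat_lit 32351977346], nat_lit 0, nat_lit 0, nat_lit 0, nat_lit 0, nat_lit 0, nat_lit 0, [], [nat_lit 70, nat_lit 40, nat_lit 20, nat_lit 80, nat_lit 13, nat_lit 401, nat_lit 175, nat_lit 12]⟩, C1.Rw.none,
 ⟨nat_lit 5916, nat_lit 6325, ⟨.ofNat (nat_lit 67309), .ofNat (nat_lit 881615), .ofNat (nat_lit 88677), .ofNat (nat_lit 902975), .ofNat (nat_lit 85991), .ofNat (nat_lit 863363), .ofNat (nat_lit 107331), .ofNat (nat_lit 884695)⟩, ⟨.ofNat (nat_lit 0), .ofNat (nat_lit 0), .ofNat (nat_lit 0), .ofNat (nat_lit 0), .ofNat (nat_lit 0), .ofNat (nat_lit 0), .ofNat (nat_lit 0), .ofNat (nat_lit 0)⟩⟩, [⟨nat_lit 13, nat_lit 98, nat_lit 20, nat_lit 100, nat_lit 98926130⟩]⟩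
noncomputable def b_NL_600_450_0_0 : St := ⟨false, nat_lit 0, nat_lit 2, nat_lit 0, nat_lit 20, nat_lit 240, nat_lit 260, nat_lit 180, nat_lit 200, nat_lit 0, nat_lit 396, nat_lit 0, nat_lit 0, nat_lit 0, nat_lit 0, nat_lit 0, nat_lit 0, nat_lit 0, nat_lit 40, nat_lit 0, nat_lit 0, nat_lit 0, nat_lit 0⟩
theorem d_NL_600_450_0_0 (h : EB TB.env) : Dead b_NL_600_450_0_0 := chkB_sound0 h (T :=
(.gv
(.st (nat_lit 1)
(.spl (nat_lit 2) (nat_lit 160)
(.leaf p007_l211)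
(.leaf p007_l212))
(.spl (nat_lit 2) (nat_lit 160)
(.leaf p007_l213)
(.spl (nat_lit 2) (nat_lit 240)
(.leaf p007_l214)
(.spl (nat_lit 2) (nat_lit 320)
(.leaf p007_l215)
(.spl (nat_lit 0) (nat_lit 250)
(.leaf p007_l216)
(.leaf p007_l217))))))
(.leaf p007_l218))) (by decide +kernel)
noncomputable def p007_l219 : Lf2 := ⟨nat_lit 0, nat_lit 1, [nat_lit 19, nat_lit 5, nat_lit 5, nat_lit 20], true, nat_lit 0, nat_lit 0, nat_lit 0, nat_lit 0, ⟨nat_lit 0, nat_lit 0, nat_lit 1000, nat_lit 4, nat_lit 32, nat_lit 0, nat_lit 0, nat_lit 0, nat_lit 0, nat_lit 215, nat_lit 9600, nat_lit 239, nat_lit 66568293, nat_lit 0, nat_lit 0, nat_lit 194126, false, false⟩,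
 nat_lit 0, nat_lit 4431, nat_lit 0, nat_lit 0, nat_lit 2345, nat_lit 0, nat_lit 0, nat_lit 0, nat_lit 0, nat_lit 0, nat_lit 0, nat_lit 0, nat_lit 0, nat_lit 0, nat_lit 10, nat_lit 1000000, nat_lit 0, nat_lit 0, [(nat_lit 6, [(nat_lit 6, nat_lit 1000)])],
 ⟨p007_k51, nat_lit 0, nat_lit 0, nat_lit 284, nat_lit 0, nat_lit 187954, [nat_lit 1137066667, nat_lit 8000000], [], [nat_lit 19244253427, nat_lit 18943473175, nat_lit 18761292235, nat_lit 18461396986], nat_lit 1271250, nat_lit 1271250, nat_lit 0, nat_lit 43600, nat_lit 0, nat_lit 0, [nat_lit 1100000, nat_lit 1442500], [nat_lit 31, nat_lit 40, nat_lit 20, nat_lit 80, nat_lit 3, nat_lit 215, nat_lit 10, nat_lit 9]⟩, C1.Rw.none,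
 ⟨nat_lit 6224, nat_lit 6325, ⟨.ofNat (nat_lit 67309), .ofNat (nat_lit 83762), .ofNat (nat_lit 72651), .ofNat (nat_lit 89104), .ofNat (nat_lit 72053), .ofNat (nat_lit 88317), .ofNat (nat_lit 77393), .ofNat (nat_lit 93656)⟩, ⟨.ofNat (nat_lit 0), .ofNat (nat_lit 0), .ofNat (nat_lit 0), .ofNat (nat_lit 0), .ofNat (nat_lit 0), .ofNat (nat_lit 0), .ofNat (nat_lit 0), .ofNat (nat_lit 0)⟩⟩, [⟨nat_lit 0, nat_lit 100, nat_lit 98, nat_lit 13, nat_lit 400550492⟩]⟩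
noncomputable def p007_l220 : Lf2 := ⟨nat_lit 0, nat_lit 1, [nat_lit 19, nat_lit 5, nat_lit 5, nat_lit 20], true, nat_lit 0, nat_lit 0, nat_lit 0, nat_lit 0, ⟨nat_lit 0, nat_lit 0, nat_lit 1000, nat_lit 4, nat_lit 31, nat_lit 0, nat_lit 0, nat_lit 0, nat_lit 0, nat_lit 215, nat_lit 9600, nat_lit 239, nat_lit 66591688, nat_lit 0, nat_lit 0, nat_lit 185217, false, false⟩,
 nat_lit 0, nat_lit 4430, nat_lit 0, nat_lit 0, nat_lit 2345, nat_lit 0, nat_lit 0, nat_lit 0, nat_lit 0, nat_lit 0, nat_lit 0, nat_lit 0, nat_lit 0, nat_lit 0, nat_lit 10, nat_lit 1000000, nat_lit 0, nat_lit 0, [(nat_lit 6, [(nat_lit 6, nat_lit 1000)])],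
 ⟨p007_k51, nat_lit 0, nat_lit 0, nat_lit 283, nat_lit 0, nat_lit 172922, [nat_lit 1137066667, nat_lit 8000000], [], [nat_lit 19244253427, nat_lit 19184097377, nat_lit 19002772831, nat_lit 18942705281], nat_lit 1271250, nat_lit 1271250, nat_lit 0, nat_lit 21650, nat_lit 0, nat_lit 0, [nat_lit 1100000, nat_lit 1442500], [nat_lit 31, nat_lit 40, nat_lit 20, nat_lit 80, nat_lit 3, nat_lit 215, nat_lit 10, nat_lit 9]⟩, C1.Rw.none,
 ⟨nat_lit 6304, nat_lit 6325, ⟨.ofNat (nat_lit 72651), .ofNat (nat_lit 80878), .ofNat (nat_lit 74788), .ofNat (nat_lit 83015), .ofNat (nat_lit 73604), .ofNat (nat_lit 81811), .ofNat (nat_lit 75740), .ofNat (nat_lit 83948)⟩, ⟨.ofNat (nat_lit 0), .ofNat (nat_lit 0), .ofNat (nat_lit 0), .ofNat (nat_lit 0), .ofNat (nat_lit 0), .ofNat (nat_lit 0), .ofNat (nat_lit 0), .ofNat (nat_lit 0)⟩⟩, [⟨nat_lit 0, nat_lit 100, nat_lit 98, nat_lit 14, nat_lit 400817106⟩]⟩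
noncomputable def p007_l221 : Lf2 := ⟨nat_lit 0, nat_lit 1, [nat_lit 19, nat_lit 5, nat_lit 5, nat_lit 20], true, nat_lit 0, nat_lit 0, nat_lit 0, nat_lit 0, ⟨nat_lit 0, nat_lit 0, nat_lit 1000, nat_lit 4, nat_lit 32, nat_lit 0, nat_lit 0, nat_lit 0, nat_lit 0, nat_lit 215, nat_lit 9600, nat_lit 239, nat_lit 66574911, nat_lit 0, nat_lit 0, nat_lit 191613, false, false⟩,
 nat_lit 0, nat_lit 7375, nat_lit 0, nat_lit 0, nat_lit 3904, nat_lit 0, nat_lit 650, nat_lit 0, nat_lit 0, nat_lit 0, nat_lit 0, nat_lit 0, nat_lit 0, nat_lit 0, nat_lit 10, nat_lit 1000000, nat_lit 0, nat_lit 0, [(nat_lit 6, [(nat_lit 6, nat_lit 1000)])],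
 ⟨p007_k52, nat_lit 0, nat_lit 0, nat_lit 0, nat_lit 0, nat_lit 174930, [nat_lit 1137066667, nat_lit 504400001, nat_lit 8000000], [], [nat_lit 13182960282, nat_lit 13239923215, nat_lit 13034054817, nat_lit 13091226423], nat_lit 1271250, nat_lit 1271250, nat_lit 0, nat_lit 21650, nat_lit 0, nat_lit 0, [nat_lit 1100000, nat_lit 1271250, nat_lit 1271250], [nat_lit 124, nat_lit 40, nat_lit 20, nat_lit 40]⟩, C1.Rw.none,
 ⟨nat_lit 6304, nat_lit 6325, ⟨.ofNat (nat_lit 74788), .ofNat (nat_lit 83015), .ofNat (nat_lit 75857), .ofNat (nat_lit 84083), .ofNat (nat_lit 75740), .ofNat (nat_lit 83948), .ofNat (nat_lit 76809), .ofNat (nat_lit 85016)⟩, ⟨.ofNat (nat_lit 0), .ofNat (nat_lit 0), .ofNat (nat_lit 0), .ofNat (nat_lit 0), .ofNat (nat_lit 0), .ofNat (nat_lit 0), .ofNat (nat_lit 0), .ofNat (nat_lit 0)⟩⟩, [⟨nat_lit 0, nat_lit 100, nat_lit 98, nat_lit 15, nat_lit 282225595⟩]⟩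
noncomputable def p007_l222 : Lf2 := ⟨nat_lit 0, nat_lit 1, [nat_lit 19, nat_lit 5, nat_lit 5, nat_lit 20], true, nat_lit 0, nat_lit 0, nat_lit 0, nat_lit 0, ⟨nat_lit 0, nat_lit 0, nat_lit 1000, nat_lit 4, nat_lit 32, nat_lit 0, nat_lit 0, nat_lit 0, nat_lit 0, nat_lit 215, nat_lit 9600, nat_lit 239, nat_lit 66574911, nat_lit 0, nat_lit 0, nat_lit 191613, false, false⟩,
 nat_lit 0, nat_lit 100000, nat_lit 0, nat_lit 0, nat_lit 52941, nat_lit 0, nat_lit 0, nat_lit 4291, nat_lit 0, nat_lit 0, nat_lit 0, nat_lit 0, nat_lit 0, nat_lit 0, nat_lit 0, nat_lit 1000000, nat_lit 0, nat_lit 0, [(nat_lit 6, [(nat_lit 6, nat_lit 1000)])],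
 ⟨p007_k51, nat_lit 0, nat_lit 0, nat_lit 283, nat_lit 0, nat_lit 174930, [nat_lit 69633066667, nat_lit 85628000000], [], [nat_lit 230437838995, nat_lit 229079748817, nat_lit 224986144227, nat_lit 224599653836], nat_lit 1271250, nat_lit 1271250, nat_lit 0, nat_lit 21650, nat_lit 0, nat_lit 0, [nat_lit 1100000, nat_lit 1442500], [nat_lit 31, nat_lit 40, nat_lit 20, nat_lit 80, nat_lit 3, nat_lit 215, nat_lit 10, nat_lit 9]⟩, C1.Rw.none,
 ⟨nat_lit 6304, nat_lit 6325, ⟨.ofNat (nat_lit 74788), .ofNat (nat_lit 83015), .ofNat (nat_lit 75857), .ofNat (nat_lit 84083), .ofNat (nat_lit 75740), .ofNat (nat_lit 83948), .ofNat (nat_lit 76809), .ofNat (nat_lit 85016)⟩, ⟨.ofNat (nat_lit 0), .ofNat (nat_lit 0), .ofNat (nat_lit 0), .ofNat (nat_lit 0), .ofNat (nat_lit 0), .ofNat (nat_lit 0), .ofNat (nat_lit 0), .ofNat (nat_lit 0)⟩⟩, [⟨nat_lit 0, nat_lit 100, nat_lit 98, nat_lit 14, nat_lit 8103327445⟩,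 ⟨nat_lit 0, nat_lit 100, nat_lit 98, nat_lit 14, nat_lit 10204081633⟩]⟩
noncomputable def p007_l223 : Lf2 := ⟨nat_lit 3, nat_lit 1, [nat_lit 19, nat_lit 5, nat_lit 5, nat_lit 20], false, nat_lit 0, nat_lit 0, nat_lit 0, nat_lit 0, zbN0,
 nat_lit 0, nat_lit 0, nat_lit 0, nat_lit 0, nat_lit 0, nat_lit 0, nat_lit 0, nat_lit 0, nat_lit 0, nat_lit 0, nat_lit 0, nat_lit 0, nat_lit 0, nat_lit 0, nat_lit 0, nat_lit 0, nat_lit 0, nat_lit 0, [],
 C1.Rw.none, ⟨p007_k53, nat_lit 0, nat_lit 0, nat_lit 288, nat_lit 0, nat_lit 0, [], [], [], nat_lit 0, nat_lit 0, nat_lit 0, nat_lit 0, nat_lit 0, nat_lit 0, [], [nat_lit 77, nat_lit 40, nat_lit 20, nat_lit 80, nat_lit 17, nat_lit 260, nat_lit 50, nat_lit 8]⟩,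
 zbF0, []⟩
noncomputable def p007_l224 : Lf2 := ⟨nat_lit 0, nat_lit 1, [nat_lit 19, nat_lit 5, nat_lit 5, nat_lit 20], true, nat_lit 0, nat_lit 0, nat_lit 0, nat_lit 0, ⟨nat_lit 0, nat_lit 0, nat_lit 1000, nat_lit 4, nat_lit 32, nat_lit 0, nat_lit 0, nat_lit 0, nat_lit 0, nat_lit 215, nat_lit 9600, nat_lit 239, nat_lit 66563543, nat_lit 0, nat_lit 0, nat_lit 195929, false, false⟩,
 nat_lit 0, nat_lit 7375, nat_lit 0, nat_lit 0, nat_lit 3904, nat_lit 0, nat_lit 650, nat_lit 0, nat_lit 0, nat_lit 0, nat_lit 0, nat_lit 0, nat_lit 0, nat_lit 0, nat_lit 10, nat_lit 1000000, nat_lit 0, nat_lit 0, [(nat_lit 6, [(nat_lit 6, nat_lit 1000)])],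
 ⟨p007_k52, nat_lit 0, nat_lit 0, nat_lit 0, nat_lit 0, nat_lit 176939, [nat_lit 1137066667, nat_lit 504400001, nat_lit 8000000], [], [nat_lit 13182960282, nat_lit 13239923215, nat_lit 13034054817, nat_lit 13091226423], nat_lit 1271250, nat_lit 1271250, nat_lit 0, nat_lit 21650, nat_lit 0, nat_lit 0, [nat_lit 1100000, nat_lit 1271250, nat_lit 1271250], [nat_lit 124, nat_lit 40, nat_lit 20, nat_lit 40]⟩, C1.Rw.none,
 ⟨nat_lit 6304, nat_lit 6325, ⟨.ofNat (nat_lit 75857), .ofNat (nat_lit 84083), .ofNat (nat_lit 76925), .ofNat (nat_lit 85151), .ofNat (nat_lit 76809), .ofNat (nat_lit 85016), .ofNat (nat_lit 77877), .ofNat (nat_lit 86084)⟩, ⟨.ofNat (nat_lit 0), .ofNat (nat_lit 0), .ofNat (nat_lit 0), .ofNat (nat_lit 0), .ofNat (nat_lit 0), .ofNat (nat_lit 0), .ofNat (nat_lit 0), .ofNat (nat_lit 0)⟩⟩, [⟨nat_lit 0, nat_lit 100, nat_lit 98, nat_lit 15, nat_lit 282225595⟩]⟩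
noncomputable def p007_l225 : Lf2 := ⟨nat_lit 0, nat_lit 1, [nat_lit 19, nat_lit 5, nat_lit 5, nat_lit 20], true, nat_lit 0, nat_lit 0, nat_lit 0, nat_lit 0, ⟨nat_lit 0, nat_lit 0, nat_lit 1000, nat_lit 4, nat_lit 32, nat_lit 0, nat_lit 0, nat_lit 0, nat_lit 0, nat_lit 215, nat_lit 9600, nat_lit 239, nat_lit 66563543, nat_lit 0, nat_lit 0, nat_lit 195929, false, false⟩,
 nat_lit 0, nat_lit 100000, nat_lit 0, nat_lit 0, nat_lit 52941, nat_lit 0, nat_lit 0, nat_lit 4292, nat_lit 0, nat_lit 0, nat_lit 0, nat_lit 0, nat_lit 0, nat_lit 0, nat_lit 0, nat_lit 1000000, nat_lit 0, nat_lit 0, [(nat_lit 6, [(nat_lit 6, nat_lit 1000)])],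
 ⟨p007_k51, nat_lit 0, nat_lit 0, nat_lit 283, nat_lit 0, nat_lit 176939, [nat_lit 69649066667, nat_lit 85648000000], [], [nat_lit 230493838995, nat_lit 229135748817, nat_lit 225042144227, nat_lit 224675653836], nat_lit 1271250, nat_lit 1271250, nat_lit 0, nat_lit 21650, nat_lit 0, nat_lit 0, [nat_lit 1100000, nat_lit 1442500], [nat_lit 31, nat_lit 40, nat_lit 20, nat_lit 80, nat_lit 3, nat_lit 215, nat_lit 10, nat_lit 9]⟩, C1.Rw.none,
 ⟨nat_lit 6304, nat_lit 6325, ⟨.ofNat (nat_lit 75857), .ofNat (nat_lit 84083), .ofNat (nat_lit 76925), .ofNat (nat_lit 85151), .ofNat (nat_lit 76809), .ofNat (nat_lit 85016), .ofNat (nat_lit 77877), .ofNat (nat_lit 86084)⟩, ⟨.ofNat (nat_lit 0), .ofNat (nat_lit 0), .ofNat (nat_lit 0), .ofNat (nat_lit 0), .ofNat (nat_lit 0), .ofNat (nat_lit 0), .ofNat (nat_lit 0), .ofNat (nat_lit 0)⟩⟩, [⟨nat_lit 0, nat_lit 100, nat_lit 98, nat_lit 15, nat_lit 8132614068⟩,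 ⟨nat_lit 0, nat_lit 100, nat_lit 98, nat_lit 14, nat_lit 10204081633⟩]⟩
noncomputable def p007_l226 : Lf2 := ⟨nat_lit 0, nat_lit 1, [nat_lit 19, nat_lit 5, nat_lit 5, nat_lit 20], false, nat_lit 0, nat_lit 0, nat_lit 0, nat_lit 0, ⟨nat_lit 0, nat_lit 0, nat_lit 1000, nat_lit 4, nat_lit 32, nat_lit 0, nat_lit 0, nat_lit 0, nat_lit 0, nat_lit 215, nat_lit 9600, nat_lit 239, nat_lit 66563543, nat_lit 0, nat_lit 0, nat_lit 195929, false, false⟩,
 nat_lit 0, nat_lit 11400, nat_lit 0, nat_lit 0, nat_lit 6035, nat_lit 3441, nat_lit 0, nat_lit 0, nat_lit 0, nat_lit 1672, nat_lit 115, nat_lit 0, nat_lit 0, nat_lit 0, nat_lit 10, nat_lit 1000000, nat_lit 0, nat_lit 0, [(nat_lit 6, [(nat_lit 6, nat_lit 1000)])],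
 ⟨p007_k51, nat_lit 0, nat_lit 0, nat_lit 283, nat_lit 0, nat_lit 176939, [nat_lit 1137066667, nat_lit 8000000], [], [nat_lit 17121794947, nat_lit 17082754400, nat_lit 16500329959, nat_lit 16523765171], nat_lit 1271250, nat_lit 1271250, nat_lit 0, nat_lit 21650, nat_lit 0, nat_lit 0, [nat_lit 1100000, nat_lit 1442500], [nat_lit 31, nat_lit 40, nat_lit 20, nat_lit 80, nat_lit 3, nat_lit 215, nat_lit 10, nat_lit 9]⟩, ⟨p007_k54, nat_lit 0, nat_lit 0, nat_lit 0, nat_lit 0, nat_lit 0, [nat_lit 2760000000, nat_lit 3220000000], [], [nat_lit 4043253558, nat_lit 4049397464, nat_lit 3834950834, nat_lit 3841150346], nat_lit 0, nat_lit 0, nat_lit 0, nat_lit 0, nat_lit 0, nat_lit 0, [], [nat_lit 77, nat_lit 40, nat_lit 20, nat_lit 80]⟩,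
 ⟨nat_lit 6304, nat_lit 6325, ⟨.ofNat (nat_lit 75857), .ofNat (nat_lit 84083), .ofNat (nat_lit 76925), .ofNat (nat_lit 85151), .ofNat (nat_lit 76809), .ofNat (nat_lit 85016), .ofNat (nat_lit 77877), .ofNat (nat_lit 86084)⟩, ⟨.ofNat (nat_lit 0), .ofNat (nat_lit 0), .ofNat (nat_lit 0), .ofNat (nat_lit 0), .ofNat (nat_lit 0), .ofNat (nat_lit 0), .ofNat (nat_lit 0), .ofNat (nat_lit 0)⟩⟩, [⟨nat_lit 0, nat_lit 100, nat_lit 98, nat_lit 15, nat_lit 1151585256⟩]⟩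
noncomputable def p007_l227 : Lf2 := ⟨nat_lit 3, nat_lit 1, [nat_lit 19, nat_lit 5, nat_lit 5, nat_lit 20], false, nat_lit 0, nat_lit 0, nat_lit 0, nat_lit 0, zbN0,
 nat_lit 0, nat_lit 0, nat_lit 0, nat_lit 0, nat_lit 0, nat_lit 0, nat_lit 0, nat_lit 0, nat_lit 0, nat_lit 0, nat_lit 0, nat_lit 0, nat_lit 0, nat_lit 0, nat_lit 0, nat_lit 0, nat_lit 0, nat_lit 0, [],
 C1.Rw.none, ⟨p007_k54, nat_lit 0, nat_lit 0, nat_lit 289, nat_lit 0, nat_lit 0, [], [], [], nat_lit 0, nat_lit 0, nat_lit 0, nat_lit 0, nat_lit 0, nat_lit 0, [], [nat_lit 77, nat_lit 40, nat_lit 20, nat_lit 80, nat_lit 17, nat_lit 260, nat_lit 50, nat_lit 8]⟩,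
 zbF0, []⟩
noncomputable def p007_l228 : Lf2 := ⟨nat_lit 0, nat_lit 1, [nat_lit 19, nat_lit 5, nat_lit 5, nat_lit 20], true, nat_lit 0, nat_lit 0, nat_lit 0, nat_lit 0, ⟨nat_lit 0, nat_lit 0, nat_lit 1000, nat_lit 4, nat_lit 33, nat_lit 0, nat_lit 0, nat_lit 0, nat_lit 0, nat_lit 215, nat_lit 10417, nat_lit 240, nat_lit 66552029, nat_lit 0, nat_lit 0, nat_lit 200255, false, false⟩,
 nat_lit 0, nat_lit 7375, nat_lit 0, nat_lit 0, nat_lit 3904, nat_lit 0, nat_lit 650, nat_lit 0, nat_lit 0, nat_lit 0, nat_lit 0, nat_lit 0, nat_lit 0, nat_lit 0, nat_lit 10, nat_lit 1000000, nat_lit 0, nat_lit 0, [(nat_lit 6, [(nat_lit 6, nat_lit 1000)])],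
 ⟨p007_k52, nat_lit 0, nat_lit 0, nat_lit 0, nat_lit 0, nat_lit 178947, [nat_lit 1137066667, nat_lit 504400001, nat_lit 8000000], [], [nat_lit 13182960282, nat_lit 13239923215, nat_lit 13034054817, nat_lit 13091226423], nat_lit 1271250, nat_lit 1271250, nat_lit 0, nat_lit 21650, nat_lit 0, nat_lit 0, [nat_lit 1100000, nat_lit 1271250, nat_lit 1271250], [nat_lit 124, nat_lit 40, nat_lit 20, nat_lit 40]⟩, C1.Rw.none,
 ⟨nat_lit 6304, nat_lit 6325, ⟨.ofNat (nat_lit 76925), .ofNat (nat_lit 85151), .ofNat (nat_lit 77993), .ofNat (nat_lit 86220), .ofNat (nat_lit 77877), .ofNat (nat_lit 86084), .ofNat (nat_lit 78945), .ofNat (nat_lit 87153)⟩, ⟨.ofNat (nat_lit 0), .ofNat (nat_lit 0), .ofNat (nat_lit 0), .ofNat (nat_lit 0), .ofNat (nat_lit 0), .ofNat (nat_lit 0), .ofNat (nat_lit 0), .ofNat (nat_lit 0)⟩⟩, [⟨nat_lit 0, nat_lit 100, nat_lit 98, nat_lit 16, nat_lit 283077432⟩]⟩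
noncomputable def p007_l229 : Lf2 := ⟨nat_lit 0, nat_lit 1, [nat_lit 19, nat_lit 5, nat_lit 5, nat_lit 20], true, nat_lit 0, nat_lit 0, nat_lit 0, nat_lit 0, ⟨nat_lit 0, nat_lit 0, nat_lit 1000, nat_lit 4, nat_lit 33, nat_lit 0, nat_lit 0, nat_lit 0, nat_lit 0, nat_lit 215, nat_lit 10417, nat_lit 240, nat_lit 66552029, nat_lit 0, nat_lit 0, nat_lit 200255, false, false⟩,
 nat_lit 0, nat_lit 100000, nat_lit 0, nat_lit 0, nat_lit 52941, nat_lit 0, nat_lit 0, nat_lit 4294, nat_lit 0, nat_lit 0, nat_lit 0, nat_lit 0, nat_lit 0, nat_lit 0, nat_lit 0, nat_lit 1000000, nat_lit 0, nat_lit 0, [(nat_lit 6, [(nat_lit 6, nat_lit 1000)])],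
 ⟨p007_k51, nat_lit 0, nat_lit 0, nat_lit 283, nat_lit 0, nat_lit 178947, [nat_lit 69681066667, nat_lit 85688000000], [], [nat_lit 230605838995, nat_lit 229247748817, nat_lit 225154144227, nat_lit 224827653836], nat_lit 1271250, nat_lit 1271250, nat_lit 0, nat_lit 21650, nat_lit 0, nat_lit 0, [nat_lit 1100000, nat_lit 1442500], [nat_lit 31, nat_lit 40, nat_lit 20, nat_lit 80, nat_lit 3, nat_lit 215, nat_lit 10, nat_lit 9]⟩, C1.Rw.none,
 ⟨nat_lit 6304, nat_lit 6325, ⟨.ofNat (nat_lit 76925), .ofNat (nat_lit 85151), .ofNat (nat_lit 77993), .ofNat (nat_lit 86220), .ofNat (nat_lit 77877), .ofNat (nat_lit 86084), .ofNat (nat_lit 78945), .ofNat (nat_lit 87153)⟩, ⟨.ofNat (nat_lit 0), .ofNat (nat_lit 0), .ofNat (nat_lit 0), .ofNat (nat_lit 0), .ofNat (nat_lit 0), .ofNat (nat_lit 0), .ofNat (nat_lit 0), .ofNat (nat_lit 0)⟩⟩, [⟨nat_lit 0, nat_lit 100, nat_lit 98, nat_lit 15, nat_lit 8260534122⟩,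 ⟨nat_lit 0, nat_lit 100, nat_lit 98, nat_lit 15, nat_lit 10204081633⟩]⟩
noncomputable def p007_l230 : Lf2 := ⟨nat_lit 3, nat_lit 1, [nat_lit 19, nat_lit 5, nat_lit 5, nat_lit 20], false, nat_lit 0, nat_lit 0, nat_lit 0, nat_lit 0, zbN0,
 nat_lit 0, nat_lit 0, nat_lit 0, nat_lit 0, nat_lit 0, nat_lit 0, nat_lit 0, nat_lit 0, nat_lit 0, nat_lit 0, nat_lit 0, nat_lit 0, nat_lit 0, nat_lit 0, nat_lit 0, nat_lit 0, nat_lit 0, nat_lit 0, [],
 C1.Rw.none, ⟨p007_k55, nat_lit 0, nat_lit 0, nat_lit 289, nat_lit 0, nat_lit 0, [], [], [], nat_lit 0, nat_lit 0, nat_lit 0, nat_lit 0, nat_lit 0, nat_lit 0, [], [nat_lit 77, nat_lit 40, nat_lit 20, nat_lit 80, nat_lit 17, nat_lit 260, nat_lit 50, nat_lit 8]⟩,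
 zbF0, []⟩
noncomputable def p007_l231 : Lf2 := ⟨nat_lit 0, nat_lit 1, [nat_lit 19, nat_lit 5, nat_lit 5, nat_lit 20], true, nat_lit 0, nat_lit 0, nat_lit 0, nat_lit 0, ⟨nat_lit 0, nat_lit 0, nat_lit 1000, nat_lit 4, nat_lit 35, nat_lit 0, nat_lit 0, nat_lit 0, nat_lit 0, nat_lit 215, nat_lit 11267, nat_lit 241, nat_lit 66496050, nat_lit 0, nat_lit 0, nat_lit 220997, false, false⟩,
 nat_lit 0, nat_lit 4429, nat_lit 0, nat_lit 0, nat_lit 2344, nat_lit 0, nat_lit 0, nat_lit 0, nat_lit 0, nat_lit 0, nat_lit 0, nat_lit 0, nat_lit 0, nat_lit 0, nat_lit 10, nat_lit 1000000, nat_lit 0, nat_lit 0, [(nat_lit 6, [(nat_lit 6, nat_lit 1000)])],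
 ⟨p007_k51, nat_lit 0, nat_lit 0, nat_lit 281, nat_lit 0, nat_lit 174930, [nat_lit 1137066667, nat_lit 8000000], [], [nat_lit 19003451000, nat_lit 18943409065, nat_lit 18762073381, nat_lit 18702119909], nat_lit 1271250, nat_lit 1271250, nat_lit 21650, nat_lit 43600, nat_lit 0, nat_lit 0, [nat_lit 1100000, nat_lit 1442500], [nat_lit 31, nat_lit 40, nat_lit 20, nat_lit 80, nat_lit 3, nat_lit 215, nat_lit 10, nat_lit 9]⟩, C1.Rw.none,
 ⟨nat_lit 6304, nat_lit 6325, ⟨.ofNat (nat_lit 80878), .ofNat (nat_lit 89104), .ofNat (nat_lit 84083), .ofNat (nat_lit 92309), .ofNat (nat_lit 81811), .ofNat (nat_lit 90019), .ofNat (nat_lit 85016), .ofNat (nat_lit 93223)⟩, ⟨.ofNat (nat_lit 0), .ofNat (nat_lit 0), .ofNat (nat_lit 0), .ofNat (nat_lit 0), .ofNat (nat_lit 0), .ofNat (nat_lit 0), .ofNat (nat_lit 0), .ofNat (nat_lit 0)⟩⟩, []⟩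
noncomputable def p007_l232 : Lf2 := ⟨nat_lit 0, nat_lit 1, [nat_lit 19, nat_lit 5, nat_lit 5, nat_lit 20], true, nat_lit 0, nat_lit 0, nat_lit 0, nat_lit 0, ⟨nat_lit 0, nat_lit 0, nat_lit 1000, nat_lit 4, nat_lit 36, nat_lit 0, nat_lit 0, nat_lit 0, nat_lit 0, nat_lit 215, nat_lit 12150, nat_lit 242, nat_lit 66471207, nat_lit 0, nat_lit 0, nat_lit 230037, false, false⟩,
 nat_lit 0, nat_lit 4433, nat_lit 0, nat_lit 0, nat_lit 2346, nat_lit 0, nat_lit 0, nat_lit 0, nat_lit 0, nat_lit 0, nat_lit 0, nat_lit 0, nat_lit 0, nat_lit 0, nat_lit 10, nat_lit 1000000, nat_lit 0, nat_lit 0, [(nat_lit 6, [(nat_lit 6, nat_lit 1000)])],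
 ⟨p007_k51, nat_lit 0, nat_lit 0, nat_lit 281, nat_lit 0, nat_lit 176939, [nat_lit 1137066667, nat_lit 8000000], [], [nat_lit 19002094663, nat_lit 18942001497, nat_lit 18760511090, nat_lit 18700506463], nat_lit 1271250, nat_lit 1271250, nat_lit 21650, nat_lit 43600, nat_lit 0, nat_lit 0, [nat_lit 1100000, nat_lit 1442500], [nat_lit 31, nat_lit 40, nat_lit 20, nat_lit 80, nat_lit 3, nat_lit 215, nat_lit 10, nat_lit 9]⟩, C1.Rw.none,
 ⟨nat_lit 6304, nat_lit 6325, ⟨.ofNat (nat_lit 84083), .ofNat (nat_lit 92309), .ofNat (nat_lit 85151), .ofNat (nat_lit 93378), .ofNat (nat_lit 85016), .ofNat (nat_lit 93223), .ofNat (nat_lit 86084), .ofNat (nat_lit 94292)⟩, ⟨.ofNat (nat_lit 0), .ofNat (nat_lit 0), .ofNat (nat_lit 0), .ofNat (nat_lit 0), .ofNat (nat_lit 0), .ofNat (nat_lit 0), .ofNat (nat_lit 0), .ofNat (nat_lit 0)⟩⟩, []⟩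
noncomputable def p007_l233 : Lf2 := ⟨nat_lit 0, nat_lit 1, [nat_lit 19, nat_lit 5, nat_lit 5, nat_lit 20], true, nat_lit 0, nat_lit 0, nat_lit 0, nat_lit 0, ⟨nat_lit 0, nat_lit 0, nat_lit 1000, nat_lit 4, nat_lit 36, nat_lit 0, nat_lit 0, nat_lit 0, nat_lit 0, nat_lit 215, nat_lit 12150, nat_lit 242, nat_lit 66458565, nat_lit 0, nat_lit 0, nat_lit 234605, false, false⟩,
 nat_lit 0, nat_lit 7488, nat_lit 0, nat_lit 0, nat_lit 3964, nat_lit 0, nat_lit 657, nat_lit 0, nat_lit 0, nat_lit 0, nat_lit 0, nat_lit 0, nat_lit 0, nat_lit 0, nat_lit 10, nat_lit 1000000, nat_lit 0, nat_lit 0, [(nat_lit 6, [(nat_lit 6, nat_lit 1000)])],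
 ⟨p007_k52, nat_lit 0, nat_lit 0, nat_lit 0, nat_lit 0, nat_lit 178947, [nat_lit 1137066667, nat_lit 504400001, nat_lit 8000000], [], [nat_lit 12933678318, nat_lit 12990940850, nat_lit 12781681268, nat_lit 12839256202], nat_lit 1271250, nat_lit 1271250, nat_lit 21650, nat_lit 43600, nat_lit 0, nat_lit 0, [nat_lit 1100000, nat_lit 1271250, nat_lit 1271250], [nat_lit 124, nat_lit 40, nat_lit 20, nat_lit 40]⟩, C1.Rw.none,
 ⟨nat_lit 6304, nat_lit 6325, ⟨.ofNat (nat_lit 85151), .ofNat (nat_lit 93378), .ofNat (nat_lit 86220), .ofNat (nat_lit 94446), .ofNat (nat_lit 86084), .ofNat (nat_lit 94292), .ofNat (nat_lit 87153), .ofNat (nat_lit 95360)⟩, ⟨.ofNat (nat_lit 0), .ofNat (nat_lit 0), .ofNat (nat_lit 0), .ofNat (nat_lit 0), .ofNat (nat_lit 0), .ofNat (nat_lit 0), .ofNat (nat_lit 0), .ofNat (nat_lit 0)⟩⟩, []⟩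
noncomputable def p007_l234 : Lf2 := ⟨nat_lit 0, nat_lit 1, [nat_lit 19, nat_lit 5, nat_lit 5, nat_lit 20], true, nat_lit 0, nat_lit 0, nat_lit 0, nat_lit 0, ⟨nat_lit 0, nat_lit 0, nat_lit 1000, nat_lit 4, nat_lit 36, nat_lit 0, nat_lit 0, nat_lit 0, nat_lit 0, nat_lit 215, nat_lit 12150, nat_lit 242, nat_lit 66458565, nat_lit 0, nat_lit 0, nat_lit 234605, false, false⟩,
 nat_lit 0, nat_lit 100000, nat_lit 0, nat_lit 0, nat_lit 52941, nat_lit 0, nat_lit 0, nat_lit 4166, nat_lit 0, nat_lit 0, nat_lit 0, nat_lit 0, nat_lit 0, nat_lit 0, nat_lit 0, nat_lit 1000000, nat_lit 0, nat_lit 0, [(nat_lit 6, [(nat_lit 6, nat_lit 1000)])],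
 ⟨p007_k51, nat_lit 0, nat_lit 0, nat_lit 281, nat_lit 0, nat_lit 178947, [nat_lit 67633066667, nat_lit 83128000000], [], [nat_lit 217986144227, nat_lit 216630052041, nat_lit 212544676373, nat_lit 212780285160], nat_lit 1271250, nat_lit 1271250, nat_lit 21650, nat_lit 43600, nat_lit 0, nat_lit 0, [nat_lit 1100000, nat_lit 1442500], [nat_lit 31, nat_lit 40, nat_lit 20, nat_lit 80, nat_lit 3, nat_lit 215, nat_lit 10, nat_lit 9]⟩, C1.Rw.none,
 ⟨nat_lit 6304, nat_lit 6325, ⟨.ofNat (nat_lit 85151), .ofNat (nat_lit 93378), .ofNat (nat_lit 86220), .ofNat (nat_lit 94446), .ofNat (nat_lit 86084), .ofNat (nat_lit 94292), .ofNat (nat_lit 87153), .ofNat (nat_lit 95360)⟩, ⟨.ofNat (nat_lit 0), .ofNat (nat_lit 0), .ofNat (nat_lit 0), .ofNat (nat_lit 0), .ofNat (nat_lit 0), .ofNat (nat_lit 0), .ofNat (nat_lit 0), .ofNat (nat_lit 0)⟩⟩, [⟨nat_lit 13, nat_lit 98, nat_lit 25, nat_lit 100, nat_lit 75298483⟩]⟩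
noncomputable def p007_l235 : Lf2 := ⟨nat_lit 0, nat_lit 1, [nat_lit 19, nat_lit 5, nat_lit 5, nat_lit 20], false, nat_lit 0, nat_lit 0, nat_lit 0, nat_lit 0, ⟨nat_lit 0, nat_lit 0, nat_lit 1000, nat_lit 4, nat_lit 36, nat_lit 0, nat_lit 0, nat_lit 0, nat_lit 0, nat_lit 215, nat_lit 12150, nat_lit 242, nat_lit 66458565, nat_lit 0, nat_lit 0, nat_lit 234605, false, false⟩,
 nat_lit 0, nat_lit 11373, nat_lit 0, nat_lit 0, nat_lit 6021, nat_lit 100000, nat_lit 0, nat_lit 0, nat_lit 0, nat_lit 38576, nat_lit 4365, nat_lit 0, nat_lit 0, nat_lit 0, nat_lit 10, nat_lit 1000000, nat_lit 0, nat_lit 0, [(nat_lit 6, [(nat_lit 6, nat_lit 1000)])],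
 ⟨p007_k51, nat_lit 0, nat_lit 0, nat_lit 281, nat_lit 0, nat_lit 178947, [nat_lit 1137066667, nat_lit 8000000], [], [nat_lit 16509824323, nat_lit 16499878495, nat_lit 15889801010, nat_lit 15942258869], nat_lit 1271250, nat_lit 1271250, nat_lit 21650, nat_lit 43600, nat_lit 0, nat_lit 0, [nat_lit 1100000, nat_lit 1442500], [nat_lit 31, nat_lit 40, nat_lit 20, nat_lit 80, nat_lit 3, nat_lit 215, nat_lit 10, nat_lit 9]⟩, ⟨p007_k56, nat_lit 0, nat_lit 0, nat_lit 0, nat_lit 0, nat_lit 0, [nat_lit 96030000000, nat_lit 113490000000], [], [nat_lit 149640038001, nat_lit 149817340001, nat_lit 143578376001, nat_lit 143755160001], nat_lit 0, nat_lit 0, nat_lit 0, nat_lit 0, nat_lit 0, nat_lit 0, [], [nat_lit 162, nat_lit 40, nat_lit 20, nat_lit 40]⟩,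
 ⟨nat_lit 6304, nat_lit 6325, ⟨.ofNat (nat_lit 85151), .ofNat (nat_lit 93378), .ofNat (nat_lit 86220), .ofNat (nat_lit 94446), .ofNat (nat_lit 86084), .ofNat (nat_lit 94292), .ofNat (nat_lit 87153), .ofNat (nat_lit 95360)⟩, ⟨.ofNat (nat_lit 0), .ofNat (nat_lit 0), .ofNat (nat_lit 0), .ofNat (nat_lit 0), .ofNat (nat_lit 0), .ofNat (nat_lit 0), .ofNat (nat_lit 0), .ofNat (nat_lit 0)⟩⟩, []⟩
noncomputable def p007_l236 : Lf2 := ⟨nat_lit 3, nat_lit 1, [nat_lit 19, nat_lit 5, nat_lit 5, nat_lit 20], false, nat_lit 0, nat_lit 0, nat_lit 0, nat_lit 0, zbN0,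
 nat_lit 0, nat_lit 0, nat_lit 0, nat_lit 0, nat_lit 0, nat_lit 0, nat_lit 0, nat_lit 0, nat_lit 0, nat_lit 0, nat_lit 0, nat_lit 0, nat_lit 0, nat_lit 0, nat_lit 0, nat_lit 0, nat_lit 0, nat_lit 0, [],
 C1.Rw.none, ⟨p007_k55, nat_lit 0, nat_lit 0, nat_lit 282, nat_lit 0, nat_lit 0, [], [], [], nat_lit 0, nat_lit 0, nat_lit 0, nat_lit 0, nat_lit 0, nat_lit 0, [], [nat_lit 77, nat_lit 40, nat_lit 20, nat_lit 80, nat_lit 17, nat_lit 260, nat_lit 50, nat_lit 8]⟩,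
 zbF0, []⟩
noncomputable def p007_l237 : Lf2 := ⟨nat_lit 0, nat_lit 1, [nat_lit 19, nat_lit 5, nat_lit 5, nat_lit 20], true, nat_lit 0, nat_lit 0, nat_lit 0, nat_lit 0, ⟨nat_lit 0, nat_lit 0, nat_lit 1000, nat_lit 4, nat_lit 32, nat_lit 0, nat_lit 0, nat_lit 0, nat_lit 0, nat_lit 215, nat_lit 9600, nat_lit 239, nat_lit 66576251, nat_lit 0, nat_lit 0, nat_lit 191108, false, false⟩,
 nat_lit 0, nat_lit 4433, nat_lit 0, nat_lit 0, nat_lit 2358, nat_lit 0, nat_lit 0, nat_lit 0, nat_lit 0, nat_lit 0, nat_lit 0, nat_lit 0, nat_lit 0, nat_lit 0, nat_lit 10, nat_lit 1000000, nat_lit 0, nat_lit 0, [(nat_lit 6, [(nat_lit 6, nat_lit 1000)])],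
 ⟨p007_k57, nat_lit 0, nat_lit 0, nat_lit 283, nat_lit 0, nat_lit 178743, [nat_lit 1137066667, nat_lit 8000000], [], [nat_lit 19176286393, nat_lit 19115796855, nat_lit 18933556090, nat_lit 18873155543], nat_lit 1271250, nat_lit 1271250, nat_lit 0, nat_lit 21650, nat_lit 0, nat_lit 0, [nat_lit 1100000, nat_lit 1442500], [nat_lit 31, nat_lit 40, nat_lit 20, nat_lit 80, nat_lit 3, nat_lit 215, nat_lit 10, nat_lit 9]⟩, C1.Rw.none,
 ⟨nat_lit 6284, nat_lit 6305, ⟨.ofNat (nat_lit 73604), .ofNat (nat_lit 81811), .ofNat (nat_lit 76809), .ofNat (nat_lit 85016), .ofNat (nat_lit 74554), .ofNat (nat_lit 82742), .ofNat (nat_lit 77758), .ofNat (nat_lit 85947)⟩, ⟨.ofNat (nat_lit 0), .ofNat (nat_lit 0), .ofNat (nat_lit 0), .ofNat (nat_lit 0), .ofNat (nat_lit 0), .ofNat (nat_lit 0), .ofNat (nat_lit 0), .ofNat (nat_lit 0)⟩⟩, [⟨nat_lit 0, nat_lit 100, nat_lit 98, nat_lit 15, nat_lit 402334546⟩]⟩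
noncomputable def p007_l238 : Lf2 := ⟨nat_lit 0, nat_lit 1, [nat_lit 19, nat_lit 5, nat_lit 5, nat_lit 20], true, nat_lit 0, nat_lit 0, nat_lit 0, nat_lit 0, ⟨nat_lit 0, nat_lit 0, nat_lit 1000, nat_lit 4, nat_lit 33, nat_lit 0, nat_lit 0, nat_lit 0, nat_lit 0, nat_lit 215, nat_lit 10417, nat_lit 240, nat_lit 66553404, nat_lit 0, nat_lit 0, nat_lit 199742, false, false⟩,
 nat_lit 0, nat_lit 4437, nat_lit 0, nat_lit 0, nat_lit 2360, nat_lit 0, nat_lit 0, nat_lit 0, nat_lit 0, nat_lit 0, nat_lit 0, nat_lit 0, nat_lit 0, nat_lit 0, nat_lit 10, nat_lit 1000000, nat_lit 0, nat_lit 0, [(nat_lit 6, [(nat_lit 6, nat_lit 1000)])],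
 ⟨p007_k57, nat_lit 0, nat_lit 0, nat_lit 283, nat_lit 0, nat_lit 180722, [nat_lit 1137066667, nat_lit 8000000], [], [nat_lit 19175084703, nat_lit 19114543859, nat_lit 18932148522, nat_lit 18871696744], nat_lit 1271250, nat_lit 1271250, nat_lit 0, nat_lit 21650, nat_lit 0, nat_lit 0, [nat_lit 1100000, nat_lit 1442500], [nat_lit 31, nat_lit 40, nat_lit 20, nat_lit 80, nat_lit 3, nat_lit 215, nat_lit 10, nat_lit 9]⟩, C1.Rw.none,
 ⟨nat_lit 6284, nat_lit 6305, ⟨.ofNat (nat_lit 76809), .ofNat (nat_lit 85016), .ofNat (nat_lit 77877), .ofNat (nat_lit 86084), .ofNat (nat_lit 77758), .ofNat (nat_lit 85947), .ofNat (nat_lit 78827), .ofNat (nat_lit 87015)⟩, ⟨.ofNat (nat_lit 0), .ofNat (nat_lit 0), .ofNat (nat_lit 0), .ofNat (nat_lit 0), .ofNat (nat_lit 0), .ofNat (nat_lit 0), .ofNat (nat_lit 0), .ofNat (nat_lit 0)⟩⟩, [⟨nat_lit 0, nat_lit 100, nat_lit 98, nat_lit 15, nat_lit 403441627⟩]⟩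
noncomputable def p007_l239 : Lf2 := ⟨nat_lit 0, nat_lit 1, [nat_lit 19, nat_lit 5, nat_lit 5, nat_lit 20], true, nat_lit 0, nat_lit 0, nat_lit 0, nat_lit 0, ⟨nat_lit 0, nat_lit 0, nat_lit 1000, nat_lit 4, nat_lit 33, nat_lit 0, nat_lit 0, nat_lit 0, nat_lit 0, nat_lit 215, nat_lit 10417, nat_lit 240, nat_lit 66541761, nat_lit 0, nat_lit 0, nat_lit 204095, false, false⟩,
 nat_lit 0, nat_lit 7306, nat_lit 0, nat_lit 0, nat_lit 3886, nat_lit 0, nat_lit 685, nat_lit 0, nat_lit 0, nat_lit 0, nat_lit 0, nat_lit 0, nat_lit 0, nat_lit 0, nat_lit 10, nat_lit 1000000, nat_lit 0, nat_lit 0, [(nat_lit 6, [(nat_lit 6, nat_lit 1000)])],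
 ⟨p007_k58, nat_lit 0, nat_lit 0, nat_lit 0, nat_lit 0, nat_lit 182700, [nat_lit 1137066667, nat_lit 504400001, nat_lit 8000000], [], [nat_lit 13247547187, nat_lit 13306625219, nat_lit 13099913719, nat_lit 13158905595], nat_lit 1271250, nat_lit 1271250, nat_lit 0, nat_lit 21650, nat_lit 0, nat_lit 0, [nat_lit 1100000, nat_lit 1271250, nat_lit 1271250], [nat_lit 124, nat_lit 40, nat_lit 20, nat_lit 40]⟩, C1.Rw.none,
 ⟨nat_lit 6284, nat_lit 6305, ⟨.ofNat (nat_lit 77877), .ofNat (nat_lit 86084), .ofNat (nat_lit 78945), .ofNat (nat_lit 87153), .ofNat (nat_lit 78827), .ofNat (nat_lit 87015), .ofNat (nat_lit 79895), .ofNat (nat_lit 88083)⟩, ⟨.ofNat (nat_lit 0), .ofNat (nat_lit 0), .ofNat (nat_lit 0), .ofNat (nat_lit 0), .ofNat (nat_lit 0), .ofNat (nat_lit 0), .ofNat (nat_lit 0), .ofNat (nat_lit 0)⟩⟩, [⟨nat_lit 0, nat_lit 100, nat_lit 98, nat_lit 16, nat_lit 281531976⟩]⟩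
noncomputable def p007_l240 : Lf2 := ⟨nat_lit 0, nat_lit 1, [nat_lit 19, nat_lit 5, nat_lit 5, nat_lit 20], true, nat_lit 0, nat_lit 0, nat_lit 0, nat_lit 0, ⟨nat_lit 0, nat_lit 0, nat_lit 1000, nat_lit 4, nat_lit 33, nat_lit 0, nat_lit 0, nat_lit 0, nat_lit 0, nat_lit 215, nat_lit 10417, nat_lit 240, nat_lit 66541761, nat_lit 0, nat_lit 0, nat_lit 204095, false, false⟩,
 nat_lit 0, nat_lit 100000, nat_lit 0, nat_lit 0, nat_lit 53200, nat_lit 0, nat_lit 0, nat_lit 4241, nat_lit 0, nat_lit 0, nat_lit 0, nat_lit 0, nat_lit 0, nat_lit 0, nat_lit 0, nat_lit 1000000, nat_lit 0, nat_lit 0, [(nat_lit 6, [(nat_lit 6, nat_lit 1000)])],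
 ⟨p007_k57, nat_lit 0, nat_lit 0, nat_lit 283, nat_lit 0, nat_lit 182700, [nat_lit 68833066667, nat_lit 84628000000], [], [nat_lit 226124129988, nat_lit 224759395707, nat_lit 220647771995, nat_lit 220424051571], nat_lit 1271250, nat_lit 1271250, nat_lit 0, nat_lit 21650, nat_lit 0, nat_lit 0, [nat_lit 1100000, nat_lit 1442500], [nat_lit 31, nat_lit 40, nat_lit 20, nat_lit 80, nat_lit 3, nat_lit 215, nat_lit 10, nat_lit 9]⟩, C1.Rw.none,
 ⟨nat_lit 6284, nat_lit 6305, ⟨.ofNat (nat_lit 77877), .ofNat (nat_lit 86084), .ofNat (nat_lit 78945), .ofNat (nat_lit 87153), .ofNat (nat_lit 78827), .ofNat (nat_lit 87015), .ofNat (nat_lit 79895), .ofNat (nat_lit 88083)⟩, ⟨.ofNat (nat_lit 0), .ofNat (nat_lit 0), .ofNat (nat_lit 0), .ofNat (nat_lit 0), .ofNat (nat_lit 0), .ofNat (nat_lit 0), .ofNat (nat_lit 0), .ofNat (nat_lit 0)⟩⟩, [⟨nat_lit 0, nat_lit 100, nat_lit 98, nat_lit 16, nat_lit 976823906⟩,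 ⟨nat_lit 0, nat_lit 100, nat_lit 98, nat_lit 16, nat_lit 10204081633⟩, ⟨nat_lit 0, nat_lit 100, nat_lit 98, nat_lit 15, nat_lit 10204081633⟩]⟩
noncomputable def p007_l241 : Lf2 := ⟨nat_lit 3, nat_lit 1, [nat_lit 19, nat_lit 5, nat_lit 5, nat_lit 20], false, nat_lit 0, nat_lit 0, nat_lit 0, nat_lit 0, zbN0,
 nat_lit 0, nat_lit 0, nat_lit 0, nat_lit 0, nat_lit 0, nat_lit 0, nat_lit 0, nat_lit 0, nat_lit 0, nat_lit 0, nat_lit 0, nat_lit 0, nat_lit 0, nat_lit 0, nat_lit 0, nat_lit 0, nat_lit 0, nat_lit 0, [],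
 C1.Rw.none, ⟨p007_k55, nat_lit 0, nat_lit 0, nat_lit 289, nat_lit 0, nat_lit 0, [], [], [], nat_lit 0, nat_lit 0, nat_lit 0, nat_lit 0, nat_lit 0, nat_lit 0, [], [nat_lit 77, nat_lit 40, nat_lit 20, nat_lit 80, nat_lit 17, nat_lit 260, nat_lit 50, nat_lit 8]⟩,
 zbF0, []⟩
noncomputable def p007_l242 : Lf2 := ⟨nat_lit 0, nat_lit 1, [nat_lit 19, nat_lit 5, nat_lit 5, nat_lit 20], true, nat_lit 0, nat_lit 0, nat_lit 0, nat_lit 0, ⟨nat_lit 0, nat_lit 0, nat_lit 1000, nat_lit 4, nat_lit 36, nat_lit 0, nat_lit 0, nat_lit 0, nat_lit 0, nat_lit 215, nat_lit 12150, nat_lit 242, nat_lit 66472919, nat_lit 0, nat_lit 0, nat_lit 229419, false, false⟩,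
 nat_lit 0, nat_lit 11018, nat_lit 0, nat_lit 0, nat_lit 5861, nat_lit 0, nat_lit 1576, nat_lit 0, nat_lit 0, nat_lit 0, nat_lit 0, nat_lit 0, nat_lit 0, nat_lit 0, nat_lit 10, nat_lit 1000000, nat_lit 0, nat_lit 0, [(nat_lit 6, [(nat_lit 6, nat_lit 1000)])],
 ⟨p007_k57, nat_lit 0, nat_lit 0, nat_lit 281, nat_lit 0, nat_lit 182700, [nat_lit 1137066667, nat_lit 8000000], [], [nat_lit 16359850878, nat_lit 16351491920, nat_lit 15756525047, nat_lit 15809641047], nat_lit 1271250, nat_lit 1271250, nat_lit 21650, nat_lit 43600, nat_lit 0, nat_lit 0, [nat_lit 1100000, nat_lit 1442500], [nat_lit 31, nat_lit 40, nat_lit 20, nat_lit 80, nat_lit 3, nat_lit 215, nat_lit 10, nat_lit 9]⟩, C1.Rw.none,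
 ⟨nat_lit 6284, nat_lit 6305, ⟨.ofNat (nat_lit 81811), .ofNat (nat_lit 90019), .ofNat (nat_lit 87153), .ofNat (nat_lit 95360), .ofNat (nat_lit 82742), .ofNat (nat_lit 90931), .ofNat (nat_lit 88083), .ofNat (nat_lit 96272)⟩, ⟨.ofNat (nat_lit 0), .ofNat (nat_lit 0), .ofNat (nat_lit 0), .ofNat (nat_lit 0), .ofNat (nat_lit 0), .ofNat (nat_lit 0), .ofNat (nat_lit 0), .ofNat (nat_lit 0)⟩⟩, []⟩
noncomputable def p007_l243 : Lf2 := ⟨nat_lit 0, nat_lit 1, [nat_lit 19, nat_lit 5, nat_lit 5, nat_lit 20], true, nat_lit 0, nat_lit 0, nat_lit 0, nat_lit 0, ⟨nat_lit 0, nat_lit 0, nat_lit 1000, nat_lit 4, nat_lit 34, nat_lit 0, nat_lit 0, nat_lit 0, nat_lit 0, nat_lit 215, nat_lit 11267, nat_lit 241, nat_lit 66509499, nat_lit 0, nat_lit 0, nat_lit 216057, false, false⟩,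
 nat_lit 0, nat_lit 10647, nat_lit 0, nat_lit 0, nat_lit 5691, nat_lit 0, nat_lit 1485, nat_lit 0, nat_lit 0, nat_lit 0, nat_lit 0, nat_lit 0, nat_lit 0, nat_lit 0, nat_lit 10, nat_lit 1000000, nat_lit 0, nat_lit 0, [(nat_lit 6, [(nat_lit 6, nat_lit 1000)])],
 ⟨p007_k59, nat_lit 0, nat_lit 0, nat_lit 283, nat_lit 0, nat_lit 186463, [nat_lit 1137066667, nat_lit 8000000], [], [nat_lit 16804929688, nat_lit 16706573584, nat_lit 15633706863, nat_lit 15656349084], nat_lit 1271250, nat_lit 1271250, nat_lit 0, nat_lit 43600, nat_lit 0, nat_lit 0, [nat_lit 1100000, nat_lit 1442500], [nat_lit 31, nat_lit 40, nat_lit 20, nat_lit 80, nat_lit 3, nat_lit 215, nat_lit 10, nat_lit 9]⟩, C1.Rw.none,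
 ⟨nat_lit 6264, nat_lit 6285, ⟨.ofNat (nat_lit 74554), .ofNat (nat_lit 90931), .ofNat (nat_lit 79895), .ofNat (nat_lit 96272), .ofNat (nat_lit 75502), .ofNat (nat_lit 91841), .ofNat (nat_lit 80842), .ofNat (nat_lit 97181)⟩, ⟨.ofNat (nat_lit 0), .ofNat (nat_lit 0), .ofNat (nat_lit 0), .ofNat (nat_lit 0), .ofNat (nat_lit 0), .ofNat (nat_lit 0), .ofNat (nat_lit 0), .ofNat (nat_lit 0)⟩⟩, [⟨nat_lit 0, nat_lit 100, nat_lit 98, nat_lit 17, nat_lit 840213590⟩]⟩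
noncomputable def p007_l244 : Lf2 := ⟨nat_lit 0, nat_lit 1, [nat_lit 19, nat_lit 5, nat_lit 5, nat_lit 20], true, nat_lit 0, nat_lit 0, nat_lit 0, nat_lit 0, ⟨nat_lit 0, nat_lit 0, nat_lit 1000, nat_lit 4, nat_lit 35, nat_lit 0, nat_lit 0, nat_lit 0, nat_lit 0, nat_lit 215, nat_lit 11267, nat_lit 241, nat_lit 66493607, nat_lit 0, nat_lit 0, nat_lit 221886, false, false⟩,
 nat_lit 0, nat_lit 10260, nat_lit 0, nat_lit 0, nat_lit 5511, nat_lit 0, nat_lit 1393, nat_lit 0, nat_lit 0, nat_lit 0, nat_lit 0, nat_lit 0, nat_lit 0, nat_lit 0, nat_lit 10, nat_lit 1000000, nat_lit 0, nat_lit 0, [(nat_lit 6, [(nat_lit 6, nat_lit 1000)])],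
 ⟨p007_k60, nat_lit 0, nat_lit 0, nat_lit 283, nat_lit 0, nat_lit 194828, [nat_lit 1137066667, nat_lit 8000000], [], [nat_lit 16685651160, nat_lit 16616566608, nat_lit 15551888781, nat_lit 15601972553], nat_lit 1271250, nat_lit 1271250, nat_lit 0, nat_lit 43600, nat_lit 0, nat_lit 0, [nat_lit 1100000, nat_lit 1442500], [nat_lit 31, nat_lit 40, nat_lit 20, nat_lit 80, nat_lit 3, nat_lit 215, nat_lit 10, nat_lit 9]⟩, C1.Rw.none,
 ⟨nat_lit 6224, nat_lit 6265, ⟨.ofNat (nat_lit 75502), .ofNat (nat_lit 91841), .ofNat (nat_lit 80842), .ofNat (nat_lit 97181), .ofNat (nat_lit 77393), .ofNat (nat_lit 93656), .ofNat (nat_lit 82732), .ofNat (nat_lit 98995)⟩, ⟨.ofNat (nat_lit 0), .ofNat (nat_lit 0), .ofNat (nat_lit 0), .ofNat (nat_lit 0), .ofNat (nat_lit 0), .ofNat (nat_lit 0), .ofNat (nat_lit 0), .ofNat (nat_lit 0)⟩⟩, [⟨nat_lit 0, nat_lit 100, nat_lit 98, nat_lit 16, nat_lit 816245506⟩]⟩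
noncomputable def p007_l245 : Lf2 := ⟨nat_lit 0, nat_lit 1, [nat_lit 19, nat_lit 5, nat_lit 5, nat_lit 20], true, nat_lit 0, nat_lit 0, nat_lit 0, nat_lit 0, ⟨nat_lit 0, nat_lit 0, nat_lit 1000, nat_lit 4, nat_lit 41, nat_lit 0, nat_lit 0, nat_lit 0, nat_lit 0, nat_lit 215, nat_lit 16017, nat_lit 246, nat_lit 66287865, nat_lit 0, nat_lit 0, nat_lit 294169, false, false⟩,
 nat_lit 0, nat_lit 10919, nat_lit 0, nat_lit 0, nat_lit 5780, nat_lit 0, nat_lit 0, nat_lit 0, nat_lit 0, nat_lit 0, nat_lit 0, nat_lit 0, nat_lit 0, nat_lit 0, nat_lit 10, nat_lit 1000000, nat_lit 0, nat_lit 0, [(nat_lit 6, [(nat_lit 6, nat_lit 1000)])],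
 ⟨p007_k51, nat_lit 0, nat_lit 0, nat_lit 281, nat_lit 0, nat_lit 197738, [nat_lit 1137066667, nat_lit 8000000], [], [nat_lit 16078057099, nat_lit 16049149653, nat_lit 14292439387, nat_lit 14448390620], nat_lit 1271250, nat_lit 1271250, nat_lit 43600, nat_lit 111251, nat_lit 0, nat_lit 0, [nat_lit 1100000, nat_lit 1442500], [nat_lit 31, nat_lit 40, nat_lit 20, nat_lit 80, nat_lit 3, nat_lit 215, nat_lit 10, nat_lit 9]⟩, C1.Rw.none,
 ⟨nat_lit 6224, nat_lit 6325, ⟨.ofNat (nat_lit 83762), .ofNat (nat_lit 108442), .ofNat (nat_lit 94446), .ofNat (nat_lit 119125), .ofNat (nat_lit 88317), .ofNat (nat_lit 112712), .ofNat (nat_lit 98995), .ofNat (nat_lit 123391)⟩, ⟨.ofNat (nat_lit 0), .ofNat (nat_lit 0), .ofNat (nat_lit 0), .ofNat (nat_lit 0), .ofNat (nat_lit 0), .ofNat (nat_lit 0), .ofNat (nat_lit 0), .ofNat (nat_lit 0)⟩⟩, []⟩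
noncomputable def p007_l246 : Lf2 := ⟨nat_lit 0, nat_lit 2, [nat_lit 10, nat_lit 5, nat_lit 5, nat_lit 20], true, nat_lit 0, nat_lit 0, nat_lit 0, nat_lit 0, ⟨nat_lit 0, nat_lit 0, nat_lit 1000, nat_lit 4, nat_lit 38, nat_lit 0, nat_lit 0, nat_lit 0, nat_lit 0, nat_lit 215, nat_lit 14017, nat_lit 244, nat_lit 66394848, nat_lit 0, nat_lit 0, nat_lit 257264, false, false⟩,
 nat_lit 0, nat_lit 7640, nat_lit 0, nat_lit 0, nat_lit 4044, nat_lit 0, nat_lit 41, nat_lit 0, nat_lit 0, nat_lit 0, nat_lit 0, nat_lit 0, nat_lit 0, nat_lit 0, nat_lit 80, nat_lit 1000000, nat_lit 0, nat_lit 0, [(nat_lit 6, [(nat_lit 6, nat_lit 1000)])],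
 ⟨p007_k45, nat_lit 0, nat_lit 0, nat_lit 281, nat_lit 0, nat_lit 155411, [nat_lit 2257066667, nat_lit 1408000000, nat_lit 211200000], [], [nat_lit 13752622219, nat_lit 13893381662, nat_lit 13915031499, nat_lit 13400145375], nat_lit 1271250, nat_lit 1271250, nat_lit 0, nat_lit 111251, nat_lit 0, nat_lit 0, [nat_lit 1100000, nat_lit 1442500, nat_lit 1271250], [nat_lit 9, nat_lit 40, nat_lit 20, nat_lit 80, nat_lit 2, nat_lit 215, nat_lit 10, nat_lit 8]⟩, C1.Rw.none,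
 ⟨nat_lit 6224, nat_lit 6325, ⟨.ofNat (nat_lit 67309), .ofNat (nat_lit 108442), .ofNat (nat_lit 77993), .ofNat (nat_lit 119125), .ofNat (nat_lit 72053), .ofNat (nat_lit 112712), .ofNat (nat_lit 82732), .ofNat (nat_lit 123391)⟩, ⟨.ofNat (nat_lit 0), .ofNat (nat_lit 0), .ofNat (nat_lit 0), .ofNat (nat_lit 0), .ofNat (nat_lit 0), .ofNat (nat_lit 0), .ofNat (nat_lit 0), .ofNat (nat_lit 0)⟩⟩, [⟨nat_lit 0, nat_lit 100, nat_lit 98, nat_lit 18, nat_lit 53259030⟩]⟩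
noncomputable def p007_l247 : Lf2 := ⟨nat_lit 0, nat_lit 2, [nat_lit 10, nat_lit 5, nat_lit 5, nat_lit 20], true, nat_lit 0, nat_lit 0, nat_lit 0, nat_lit 0, ⟨nat_lit 0, nat_lit 0, nat_lit 1000, nat_lit 4, nat_lit 42, nat_lit 0, nat_lit 0, nat_lit 0, nat_lit 0, nat_lit 215, nat_lit 17067, nat_lit 247, nat_lit 66253457, nat_lit 0, nat_lit 0, nat_lit 305768, false, false⟩,
 nat_lit 0, nat_lit 4367, nat_lit 0, nat_lit 0, nat_lit 2311, nat_lit 0, nat_lit 0, nat_lit 0, nat_lit 93, nat_lit 0, nat_lit 0, nat_lit 0, nat_lit 0, nat_lit 0, nat_lit 80, nat_lit 1000000, nat_lit 0, nat_lit 0, [(nat_lit 6, [(nat_lit 6, nat_lit 1000)])],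
 ⟨p007_k45, nat_lit 0, nat_lit 0, nat_lit 0, nat_lit 0, nat_lit 224417, [nat_lit 2257066667, nat_lit 1408000000, nat_lit 211200000], [], [nat_lit 10327155018, nat_lit 10671517008, nat_lit 9870178651, nat_lit 10166090834], nat_lit 1271250, nat_lit 1271250, nat_lit 0, nat_lit 111251, nat_lit 0, nat_lit 0, [nat_lit 1100000, nat_lit 1442500, nat_lit 1271250], [nat_lit 9, nat_lit 40, nat_lit 20, nat_lit 80]⟩, C1.Rw.none,
 ⟨nat_lit 6224, nat_lit 6325, ⟨.ofNat (nat_lit 77993), .ofNat (nat_lit 119125), .ofNat (nat_lit 88677), .ofNat (nat_lit 129809), .ofNat (nat_lit 82732), .ofNat (nat_lit 123391), .ofNat (nat_lit 93410), .ofNat (nat_lit 134069)⟩, ⟨.ofNat (nat_lit 0), .ofNat (nat_lit 0), .ofNat (nat_lit 0), .ofNat (nat_lit 0), .ofNat (nat_lit 0), .ofNat (nat_lit 0), .ofNat (nat_lit 0), .ofNat (nat_lit 0)⟩⟩, [⟨nat_lit 0, nat_lit 100, nat_lit 98, nat_lit 19, nat_lit 214203133⟩]⟩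
noncomputable def p007_l248 : Lf2 := ⟨nat_lit 0, nat_lit 1, [nat_lit 19, nat_lit 5, nat_lit 5, nat_lit 20], true, nat_lit 0, nat_lit 0, nat_lit 0, nat_lit 0, ⟨nat_lit 0, nat_lit 0, nat_lit 1000, nat_lit 4, nat_lit 42, nat_lit 0, nat_lit 0, nat_lit 0, nat_lit 0, nat_lit 215, nat_lit 17067, nat_lit 247, nat_lit 66265885, nat_lit 0, nat_lit 0, nat_lit 301593, false, false⟩,
 nat_lit 0, nat_lit 8378, nat_lit 0, nat_lit 0, nat_lit 4435, nat_lit 0, nat_lit 937, nat_lit 0, nat_lit 0, nat_lit 0, nat_lit 0, nat_lit 0, nat_lit 0, nat_lit 0, nat_lit 10, nat_lit 1000000, nat_lit 0, nat_lit 0, [(nat_lit 6, [(nat_lit 6, nat_lit 1000)])],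
 ⟨p007_k52, nat_lit 0, nat_lit 0, nat_lit 0, nat_lit 0, nat_lit 211079, [nat_lit 1137066667, nat_lit 504400001, nat_lit 8000000], [], [nat_lit 12316639229, nat_lit 12505010340, nat_lit 11484545389, nat_lit 11624281678], nat_lit 1271250, nat_lit 1271250, nat_lit 0, nat_lit 111251, nat_lit 0, nat_lit 0, [nat_lit 1100000, nat_lit 1271250, nat_lit 1271250], [nat_lit 124, nat_lit 40, nat_lit 20, nat_lit 40]⟩, C1.Rw.none,
 ⟨nat_lit 6264, nat_lit 6325, ⟨.ofNat (nat_lit 77993), .ofNat (nat_lit 119125), .ofNat (nat_lit 88677), .ofNat (nat_lit 129809), .ofNat (nat_lit 80842), .ofNat (nat_lit 121690), .ofNat (nat_lit 91523), .ofNat (nat_lit 132370)⟩, ⟨.ofNat (nat_lit 0), .ofNat (nat_lit 0), .ofNat (nat_lit 0), .ofNat (nat_lit 0), .ofNat (nat_lit 0), .ofNat (nat_lit 0), .ofNat (nat_lit 0), .ofNat (nat_lit 0)⟩⟩, [⟨nat_lit 0, nat_lit 100, nat_lit 98, nat_lit 21, nat_lit 320829433⟩]⟩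
noncomputable def p007_l249 : Lf2 := ⟨nat_lit 0, nat_lit 2, [nat_lit 10, nat_lit 5, nat_lit 5, nat_lit 20], true, nat_lit 0, nat_lit 0, nat_lit 0, nat_lit 0, ⟨nat_lit 0, nat_lit 0, nat_lit 1000, nat_lit 4, nat_lit 42, nat_lit 0, nat_lit 0, nat_lit 0, nat_lit 0, nat_lit 215, nat_lit 17067, nat_lit 247, nat_lit 66265885, nat_lit 0, nat_lit 0, nat_lit 301593, false, false⟩,
 nat_lit 0, nat_lit 8734, nat_lit 0, nat_lit 0, nat_lit 4623, nat_lit 0, nat_lit 710, nat_lit 0, nat_lit 0, nat_lit 0, nat_lit 0, nat_lit 0, nat_lit 0, nat_lit 0, nat_lit 80, nat_lit 1000000, nat_lit 0, nat_lit 0, [(nat_lit 6, [(nat_lit 6, nat_lit 1000)])],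
 ⟨p007_k45, nat_lit 0, nat_lit 0, nat_lit 0, nat_lit 0, nat_lit 169163, [nat_lit 2257066667, nat_lit 1408000000, nat_lit 211200000], [], [nat_lit 12901381051, nat_lit 12964924383, nat_lit 13023329811, nat_lit 12670166822], nat_lit 1271250, nat_lit 1271250, nat_lit 0, nat_lit 111251, nat_lit 0, nat_lit 0, [nat_lit 1100000, nat_lit 1442500, nat_lit 1271250], [nat_lit 9, nat_lit 40, nat_lit 20, nat_lit 80]⟩, C1.Rw.none,
 ⟨nat_lit 6264, nat_lit 6325, ⟨.ofNat (nat_lit 77993), .ofNat (nat_lit 119125), .ofNat (nat_lit 88677), .ofNat (nat_lit 129809), .ofNat (nat_lit 80842), .ofNat (nat_lit 121690), .ofNat (nat_lit 91523), .ofNat (nat_lit 132370)⟩, ⟨.ofNat (nat_lit 0), .ofNat (nat_lit 0), .ofNat (nat_lit 0), .ofNat (nat_lit 0), .ofNat (nat_lit 0), .ofNat (nat_lit 0), .ofNat (nat_lit 0), .ofNat (nat_lit 0)⟩⟩, [⟨nat_lit 0, nat_lit 100, nat_lit 98, nat_lit 21, nat_lit 66485504⟩]⟩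
noncomputable def p007_l250 : Lf2 := ⟨nat_lit 0, nat_lit 1, [nat_lit 19, nat_lit 5, nat_lit 5, nat_lit 20], true, nat_lit 0, nat_lit 0, nat_lit 0, nat_lit 0, ⟨nat_lit 0, nat_lit 0, nat_lit 1000, nat_lit 4, nat_lit 43, nat_lit 0, nat_lit 0, nat_lit 0, nat_lit 0, nat_lit 215, nat_lit 17067, nat_lit 247, nat_lit 66234529, nat_lit 0, nat_lit 0, nat_lit 312094, false, false⟩,
 nat_lit 0, nat_lit 8166, nat_lit 0, nat_lit 0, nat_lit 4386, nat_lit 0, nat_lit 885, nat_lit 0, nat_lit 0, nat_lit 0, nat_lit 0, nat_lit 0, nat_lit 0, nat_lit 0, nat_lit 10, nat_lit 1000000, nat_lit 0, nat_lit 0, [(nat_lit 6, [(nat_lit 6, nat_lit 1000)])],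
 ⟨p007_k61, nat_lit 0, nat_lit 0, nat_lit 0, nat_lit 0, nat_lit 216942, [nat_lit 1137066667, nat_lit 504400001, nat_lit 8000000], [], [nat_lit 12492045594, nat_lit 12621620061, nat_lit 11622089327, nat_lit 11750705418], nat_lit 1271250, nat_lit 1271250, nat_lit 0, nat_lit 111251, nat_lit 0, nat_lit 0, [nat_lit 1100000, nat_lit 1271250, nat_lit 1271250], [nat_lit 124, nat_lit 40, nat_lit 20, nat_lit 40]⟩, C1.Rw.none,
 ⟨nat_lit 6224, nat_lit 6265, ⟨.ofNat (nat_lit 80842), .ofNat (nat_lit 121690), .ofNat (nat_lit 91523), .ofNat (nat_lit 132370), .ofNat (nat_lit 82732), .ofNat (nat_lit 123391), .ofNat (nat_lit 93410), .ofNat (nat_lit 134069)⟩, ⟨.ofNat (nat_lit 0), .ofNat (nat_lit 0), .ofNat (nat_lit 0), .ofNat (nat_lit 0), .ofNat (nat_lit 0), .ofNat (nat_lit 0), .ofNat (nat_lit 0), .ofNat (nat_lit 0)⟩⟩, [⟨nat_lit 0, nat_lit 100, nat_lit 97, nat_lit 23, nat_lit 321062041⟩]⟩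
noncomputable def p007_l251 : Lf2 := ⟨nat_lit 0, nat_lit 2, [nat_lit 10, nat_lit 5, nat_lit 5, nat_lit 20], true, nat_lit 0, nat_lit 0, nat_lit 0, nat_lit 0, ⟨nat_lit 0, nat_lit 0, nat_lit 1000, nat_lit 4, nat_lit 43, nat_lit 0, nat_lit 0, nat_lit 0, nat_lit 0, nat_lit 215, nat_lit 17067, nat_lit 247, nat_lit 66234529, nat_lit 0, nat_lit 0, nat_lit 312094, false, false⟩,
 nat_lit 0, nat_lit 8279, nat_lit 0, nat_lit 0, nat_lit 4447, nat_lit 0, nat_lit 668, nat_lit 0, nat_lit 0, nat_lit 0, nat_lit 0, nat_lit 0, nat_lit 0, nat_lit 0, nat_lit 80, nat_lit 1000000, nat_lit 0, nat_lit 0, [(nat_lit 6, [(nat_lit 6, nat_lit 1000)])],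
 ⟨p007_k62, nat_lit 0, nat_lit 0, nat_lit 0, nat_lit 0, nat_lit 175809, [nat_lit 2257066667, nat_lit 1408000000, nat_lit 211200000], [], [nat_lit 12870322682, nat_lit 12986435799, nat_lit 12804364591, nat_lit 12577885996], nat_lit 1271250, nat_lit 1271250, nat_lit 0, nat_lit 111251, nat_lit 0, nat_lit 0, [nat_lit 1100000, nat_lit 1442500, nat_lit 1271250], [nat_lit 9, nat_lit 40, nat_lit 20, nat_lit 80]⟩, C1.Rw.none,
 ⟨nat_lit 6224, nat_lit 6265, ⟨.ofNat (nat_lit 80842), .ofNat (nat_lit 121690), .ofNat (nat_lit 91523), .ofNat (nat_lit 132370), .ofNat (nat_lit 82732), .ofNat (nat_lit 123391), .ofNat (nat_lit 93410), .ofNat (nat_lit 134069)⟩, ⟨.ofNat (nat_lit 0), .ofNat (nat_lit 0), .ofNat (nat_lit 0), .ofNat (nat_lit 0), .ofNat (nat_lit 0), .ofNat (nat_lit 0), .ofNat (nat_lit 0), .ofNat (nat_lit 0)⟩⟩, [⟨nat_lit 0, nat_lit 100, nat_lit 97, nat_lit 23, nat_lit 129841441⟩]⟩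
noncomputable def p007_l252 : Lf2 := ⟨nat_lit 0, nat_lit 2, [nat_lit 10, nat_lit 5, nat_lit 5, nat_lit 20], true, nat_lit 0, nat_lit 0, nat_lit 0, nat_lit 0, ⟨nat_lit 0, nat_lit 0, nat_lit 1000, nat_lit 4, nat_lit 42, nat_lit 0, nat_lit 0, nat_lit 0, nat_lit 0, nat_lit 215, nat_lit 17067, nat_lit 247, nat_lit 66253457, nat_lit 0, nat_lit 0, nat_lit 305768, false, false⟩,
 nat_lit 0, nat_lit 100000, nat_lit 0, nat_lit 0, nat_lit 52941, nat_lit 0, nat_lit 11122, nat_lit 3484, nat_lit 0, nat_lit 0, nat_lit 0, nat_lit 0, nat_lit 0, nat_lit 0, nat_lit 0, nat_lit 1000000, nat_lit 0, nat_lit 0, [(nat_lit 6, [(nat_lit 6, nat_lit 1000)])],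
 ⟨p007_k45, nat_lit 0, nat_lit 0, nat_lit 307, nat_lit 0, nat_lit 224417, [nat_lit 56721066667, nat_lit 69488000001, nat_lit 81907199999], [], [nat_lit 185245838997, nat_lit 178455388103, nat_lit 157987365153, nat_lit 154927828185], nat_lit 1271250, nat_lit 1271250, nat_lit 0, nat_lit 111251, nat_lit 0, nat_lit 0, [nat_lit 1100000, nat_lit 1442500, nat_lit 1271250], [nat_lit 9, nat_lit 40, nat_lit 20, nat_lit 80, nat_lit 2, nat_lit 215, nat_lit 10, nat_lit 8]⟩, C1.Rw.none,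
 ⟨nat_lit 6224, nat_lit 6325, ⟨.ofNat (nat_lit 77993), .ofNat (nat_lit 119125), .ofNat (nat_lit 88677), .ofNat (nat_lit 129809), .ofNat (nat_lit 82732), .ofNat (nat_lit 123391), .ofNat (nat_lit 93410), .ofNat (nat_lit 134069)⟩, ⟨.ofNat (nat_lit 0), .ofNat (nat_lit 0), .ofNat (nat_lit 0), .ofNat (nat_lit 0), .ofNat (nat_lit 0), .ofNat (nat_lit 0), .ofNat (nat_lit 0), .ofNat (nat_lit 0)⟩⟩, [⟨nat_lit 0, nat_lit 100, nat_lit 98, nat_lit 19, nat_lit 7051290379⟩]⟩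
noncomputable def p007_l253 : Lf2 := ⟨nat_lit 3, nat_lit 2, [nat_lit 10, nat_lit 5, nat_lit 5, nat_lit 20], false, nat_lit 0, nat_lit 0, nat_lit 0, nat_lit 0, zbN0,
 nat_lit 0, nat_lit 0, nat_lit 0, nat_lit 0, nat_lit 0, nat_lit 0, nat_lit 0, nat_lit 0, nat_lit 0, nat_lit 0, nat_lit 0, nat_lit 0, nat_lit 0, nat_lit 0, nat_lit 0, nat_lit 0, nat_lit 0, nat_lit 0, [],
 C1.Rw.none, ⟨p007_k63, nat_lit 0, nat_lit 0, nat_lit 289, nat_lit 0, nat_lit 0, [], [], [], nat_lit 0, nat_lit 0, nat_lit 0, nat_lit 0, nat_lit 0, nat_lit 0, [], [nat_lit 77, nat_lit 40, nat_lit 20, nat_lit 80, nat_lit 17, nat_lit 272, nat_lit 60, nat_lit 9]⟩,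
 zbF0, []⟩
noncomputable def p007_l254 : Lf2 := ⟨nat_lit 0, nat_lit 2, [nat_lit 10, nat_lit 5, nat_lit 5, nat_lit 20], true, nat_lit 0, nat_lit 0, nat_lit 0, nat_lit 0, ⟨nat_lit 0, nat_lit 0, nat_lit 1000, nat_lit 4, nat_lit 42, nat_lit 0, nat_lit 0, nat_lit 0, nat_lit 0, nat_lit 215, nat_lit 17067, nat_lit 247, nat_lit 66265404, nat_lit 0, nat_lit 0, nat_lit 301755, false, false⟩,
 nat_lit 0, nat_lit 9460, nat_lit 0, nat_lit 0, nat_lit 5131, nat_lit 0, nat_lit 1054, nat_lit 0, nat_lit 0, nat_lit 0, nat_lit 0, nat_lit 0, nat_lit 0, nat_lit 0, nat_lit 80, nat_lit 1000000, nat_lit 0, nat_lit 0, [(nat_lit 6, [(nat_lit 6, nat_lit 1000)])],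
 ⟨p007_k64, nat_lit 0, nat_lit 0, nat_lit 316, nat_lit 0, nat_lit 242215, [nat_lit 2257066667, nat_lit 1408000000, nat_lit 211200000], [], [nat_lit 16555455866, nat_lit 16483931528, nat_lit 13918427160, nat_lit 14135584598], nat_lit 1271250, nat_lit 1271250, nat_lit 0, nat_lit 111251, nat_lit 0, nat_lit 0, [nat_lit 1100000, nat_lit 1442500, nat_lit 1271250], [nat_lit 9, nat_lit 40, nat_lit 20, nat_lit 80, nat_lit 2, nat_lit 215, nat_lit 10, nat_lit 8]⟩, C1.Rw.none,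
 ⟨nat_lit 6123, nat_lit 6225, ⟨.ofNat (nat_lit 72053), .ofNat (nat_lit 112712), .ofNat (nat_lit 93410), .ofNat (nat_lit 134069), .ofNat (nat_lit 76747), .ofNat (nat_lit 116937), .ofNat (nat_lit 98095), .ofNat (nat_lit 138285)⟩, ⟨.ofNat (nat_lit 0), .ofNat (nat_lit 0), .ofNat (nat_lit 0), .ofNat (nat_lit 0), .ofNat (nat_lit 0), .ofNat (nat_lit 0), .ofNat (nat_lit 0), .ofNat (nat_lit 0)⟩⟩, [⟨nat_lit 0, nat_lit 100, nat_lit 97, nat_lit 25, nat_lit 775854032⟩]⟩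
noncomputable def p007_l255 : Lf2 := ⟨nat_lit 0, nat_lit 2, [nat_lit 10, nat_lit 5, nat_lit 5, nat_lit 20], true, nat_lit 0, nat_lit 0, nat_lit 0, nat_lit 0, ⟨nat_lit 0, nat_lit 0, nat_lit 1000, nat_lit 4, nat_lit 57, nat_lit 0, nat_lit 0, nat_lit 0, nat_lit 0, nat_lit 215, nat_lit 30817, nat_lit 258, nat_lit 65644478, nat_lit 0, nat_lit 0, nat_lit 494644, false, false⟩,
 nat_lit 0, nat_lit 8597, nat_lit 0, nat_lit 0, nat_lit 4551, nat_lit 0, nat_lit 0, nat_lit 0, nat_lit 0, nat_lit 0, nat_lit 0, nat_lit 0, nat_lit 0, nat_lit 0, nat_lit 80, nat_lit 1000000, nat_lit 0, nat_lit 0, [(nat_lit 6, [(nat_lit 6, nat_lit 1000)])],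
 ⟨p007_k45, nat_lit 0, nat_lit 0, nat_lit 291, nat_lit 0, nat_lit 248331, [nat_lit 2257066667, nat_lit 1408000000, nat_lit 211200000], [], [nat_lit 13134214995, nat_lit 13302090958, nat_lit 13444323163, nat_lit 12293912281], nat_lit 1271250, nat_lit 1271250, nat_lit 111251, nat_lit 230001, nat_lit 0, nat_lit 0, [nat_lit 1100000, nat_lit 1442500, nat_lit 1271250], [nat_lit 9, nat_lit 40, nat_lit 20, nat_lit 80, nat_lit 2, nat_lit 215, nat_lit 10, nat_lit 8]⟩, C1.Rw.none,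
 ⟨nat_lit 6123, nat_lit 6325, ⟨.ofNat (nat_lit 108442), .ofNat (nat_lit 149574), .ofNat (nat_lit 129809), .ofNat (nat_lit 170942), .ofNat (nat_lit 116937), .ofNat (nat_lit 157128), .ofNat (nat_lit 138285), .ofNat (nat_lit 178476)⟩, ⟨.ofNat (nat_lit 0), .ofNat (nat_lit 0), .ofNat (nat_lit 0), .ofNat (nat_lit 0), .ofNat (nat_lit 0), .ofNat (nat_lit 0), .ofNat (nat_lit 0), .ofNat (nat_lit 0)⟩⟩, []⟩
noncomputable def p007_l256 : Lf2 := ⟨nat_lit 0, nat_lit 5, [nat_lit 4, nat_lit 5, nat_lit 5, nat_lit 20], true, nat_lit 0, nat_lit 0, nat_lit 0, nat_lit 0, ⟨nat_lit 0, nat_lit 0, nat_lit 1000, nat_lit 4, nat_lit 49, nat_lit 0, nat_lit 0, nat_lit 0, nat_lit 0, nat_lit 215, nat_lit 21600, nat_lit 251, nat_lit 66029140, nat_lit 0, nat_lit 0, nat_lit 378606, false, false⟩,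
 nat_lit 0, nat_lit 7961, nat_lit 0, nat_lit 0, nat_lit 4214, nat_lit 0, nat_lit 170, nat_lit 0, nat_lit 0, nat_lit 0, nat_lit 0, nat_lit 0, nat_lit 0, nat_lit 0, nat_lit 147, nat_lit 1000000, nat_lit 0, nat_lit 0, [(nat_lit 6, [(nat_lit 6, nat_lit 1000)])],
 ⟨p007_k40, nat_lit 0, nat_lit 0, nat_lit 348, nat_lit 0, nat_lit 149589, [nat_lit 3329066667, nat_lit 3042400001, nat_lit 177599999], [], [nat_lit 14091489581, nat_lit 14206963692, nat_lit 14564337613, nat_lit 14031725939], nat_lit 1271250, nat_lit 1271250, nat_lit 0, nat_lit 230001, nat_lit 0, nat_lit 0, [nat_lit 1100000, nat_lit 1442500, nat_lit 1271250], [nat_lit 11, nat_lit 40, nat_lit 20, nat_lit 80, nat_lit 1, nat_lit 289, nat_lit 75, nat_lit 9]⟩, C1.Rw.none,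
 ⟨nat_lit 6224, nat_lit 6325, ⟨.ofNat (nat_lit 67309), .ofNat (nat_lit 149574), .ofNat (nat_lit 88677), .ofNat (nat_lit 170942), .ofNat (nat_lit 72053), .ofNat (nat_lit 153371), .ofNat (nat_lit 93410), .ofNat (nat_lit 174728)⟩, ⟨.ofNat (nat_lit 0), .ofNat (nat_lit 0), .ofNat (nat_lit 0), .ofNat (nat_lit 0), .ofNat (nat_lit 0), .ofNat (nat_lit 0), .ofNat (nat_lit 0), .ofNat (nat_lit 0)⟩⟩, [⟨nat_lit 0, nat_lit 100, nat_lit 97, nat_lit 23, nat_lit 38383936⟩]⟩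
noncomputable def p007_l257 : Lf2 := ⟨nat_lit 0, nat_lit 5, [nat_lit 4, nat_lit 5, nat_lit 5, nat_lit 20], true, nat_lit 0, nat_lit 0, nat_lit 0, nat_lit 0, ⟨nat_lit 0, nat_lit 0, nat_lit 1000, nat_lit 4, nat_lit 50, nat_lit 0, nat_lit 0, nat_lit 0, nat_lit 0, nat_lit 215, nat_lit 24067, nat_lit 253, nat_lit 65961080, nat_lit 0, nat_lit 0, nat_lit 399873, false, false⟩,
 nat_lit 0, nat_lit 7542, nat_lit 0, nat_lit 0, nat_lit 4091, nat_lit 0, nat_lit 139, nat_lit 0, nat_lit 0, nat_lit 0, nat_lit 0, nat_lit 0, nat_lit 0, nat_lit 0, nat_lit 147, nat_lit 1000000, nat_lit 0, nat_lit 0, [(nat_lit 6, [(nat_lit 6, nat_lit 1000)])],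
 ⟨p007_k65, nat_lit 0, nat_lit 0, nat_lit 357, nat_lit 0, nat_lit 170488, [nat_lit 3329066667, nat_lit 3042400001, nat_lit 177599999], [], [nat_lit 14202367689, nat_lit 14482061438, nat_lit 14184688674, nat_lit 13667623093], nat_lit 1271250, nat_lit 1271250, nat_lit 0, nat_lit 230001, nat_lit 0, nat_lit 0, [nat_lit 1100000, nat_lit 1442500, nat_lit 1271250], [nat_lit 11, nat_lit 40, nat_lit 20, nat_lit 80, nat_lit 1, nat_lit 289, nat_lit 75, nat_lit 9]⟩, C1.Rw.none,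
 ⟨nat_lit 6123, nat_lit 6225, ⟨.ofNat (nat_lit 72053), .ofNat (nat_lit 153371), .ofNat (nat_lit 93410), .ofNat (nat_lit 174728), .ofNat (nat_lit 76747), .ofNat (nat_lit 157128), .ofNat (nat_lit 98095), .ofNat (nat_lit 178476)⟩, ⟨.ofNat (nat_lit 0), .ofNat (nat_lit 0), .ofNat (nat_lit 0), .ofNat (nat_lit 0), .ofNat (nat_lit 0), .ofNat (nat_lit 0), .ofNat (nat_lit 0), .ofNat (nat_lit 0)⟩⟩, [⟨nat_lit 0, nat_lit 100, nat_lit 97, nat_lit 25, nat_lit 117989530⟩]⟩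
noncomputable def p007_l258 : Lf2 := ⟨nat_lit 0, nat_lit 5, [nat_lit 4, nat_lit 5, nat_lit 5, nat_lit 20], true, nat_lit 0, nat_lit 0, nat_lit 0, nat_lit 0, ⟨nat_lit 0, nat_lit 0, nat_lit 1000, nat_lit 4, nat_lit 82, nat_lit 0, nat_lit 0, nat_lit 0, nat_lit 0, nat_lit 215, nat_lit 62017, nat_lit 276, nat_lit 64305694, nat_lit 0, nat_lit 0, nat_lit 843096, false, false⟩,
 nat_lit 0, nat_lit 10268, nat_lit 0, nat_lit 0, nat_lit 5436, nat_lit 0, nat_lit 186, nat_lit 0, nat_lit 0, nat_lit 0, nat_lit 0, nat_lit 0, nat_lit 0, nat_lit 0, nat_lit 147, nat_lit 1000000, nat_lit 0, nat_lit 0, [(nat_lit 6, [(nat_lit 6, nat_lit 1000)])],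
 ⟨p007_k40, nat_lit 0, nat_lit 0, nat_lit 348, nat_lit 0, nat_lit 262387, [nat_lit 3329066667, nat_lit 3042400001, nat_lit 177599999], [], [nat_lit 12638094125, nat_lit 12932160128, nat_lit 13835016573, nat_lit 12480675225], nat_lit 1271250, nat_lit 1271250, nat_lit 230001, nat_lit 490000, nat_lit 0, nat_lit 0, [nat_lit 1100000, nat_lit 1442500, nat_lit 1271250], [nat_lit 11, nat_lit 40, nat_lit 20, nat_lit 80, nat_lit 1, nat_lit 317, nat_lit 100, nat_lit 10]⟩, C1.Rw.none,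
 ⟨nat_lit 6123, nat_lit 6325, ⟨.ofNat (nat_lit 149574), .ofNat (nat_lit 231838), .ofNat (nat_lit 170942), .ofNat (nat_lit 253206), .ofNat (nat_lit 157128), .ofNat (nat_lit 237508), .ofNat (nat_lit 178476), .ofNat (nat_lit 258856)⟩, ⟨.ofNat (nat_lit 0), .ofNat (nat_lit 0), .ofNat (nat_lit 0), .ofNat (nat_lit 0), .ofNat (nat_lit 0), .ofNat (nat_lit 0), .ofNat (nat_lit 0), .ofNat (nat_lit 0)⟩⟩, []⟩
noncomputable def p007_l259 : Lf2 := ⟨nat_lit 0, nat_lit 5, [nat_lit 4, nat_lit 5, nat_lit 5, nat_lit 20], true, nat_lit 0, nat_lit 0, nat_lit 0, nat_lit 0, ⟨nat_lit 0, nat_lit 0, nat_lit 1000, nat_lit 4, nat_lit 66, nat_lit 0, nat_lit 0, nat_lit 0, nat_lit 0, nat_lit 215, nat_lit 40017, nat_lit 264, nat_lit 65244551, nat_lit 0, nat_lit 0, nat_lit 606352, false, false⟩,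
 nat_lit 0, nat_lit 7438, nat_lit 0, nat_lit 0, nat_lit 3937, nat_lit 0, nat_lit 0, nat_lit 0, nat_lit 0, nat_lit 0, nat_lit 0, nat_lit 0, nat_lit 0, nat_lit 0, nat_lit 147, nat_lit 1000000, nat_lit 0, nat_lit 0, [(nat_lit 6, [(nat_lit 6, nat_lit 1000)])],
 ⟨p007_k40, nat_lit 0, nat_lit 0, nat_lit 322, nat_lit 0, nat_lit 70138, [nat_lit 3329066667, nat_lit 3042400001, nat_lit 177599999], [], [nat_lit 14498732765, nat_lit 14780574510, nat_lit 16154623137, nat_lit 15173747146], nat_lit 1271250, nat_lit 1271250, nat_lit 0, nat_lit 490000, nat_lit 0, nat_lit 0, [nat_lit 1100000, nat_lit 1442500, nat_lit 1271250], [nat_lit 11, nat_lit 40, nat_lit 20, nat_lit 80, nat_lit 1, nat_lit 317, nat_lit 100, nat_lit 10]⟩, C1.Rw.none,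
 ⟨nat_lit 6123, nat_lit 6325, ⟨.ofNat (nat_lit 67309), .ofNat (nat_lit 231838), .ofNat (nat_lit 88677), .ofNat (nat_lit 253206), .ofNat (nat_lit 76747), .ofNat (nat_lit 237508), .ofNat (nat_lit 98095), .ofNat (nat_lit 258856)⟩, ⟨.ofNat (nat_lit 0), .ofNat (nat_lit 0), .ofNat (nat_lit 0), .ofNat (nat_lit 0), .ofNat (nat_lit 0), .ofNat (nat_lit 0), .ofNat (nat_lit 0), .ofNat (nat_lit 0)⟩⟩, []⟩
noncomputable def p007_l260 : Lf2 := ⟨nat_lit 1, nat_lit 5, [nat_lit 4, nat_lit 5, nat_lit 5, nat_lit 20], false, nat_lit 0, nat_lit 0, nat_lit 0, nat_lit 0, zbN0,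
 nat_lit 0, nat_lit 0, nat_lit 0, nat_lit 0, nat_lit 0, nat_lit 0, nat_lit 0, nat_lit 0, nat_lit 0, nat_lit 0, nat_lit 0, nat_lit 0, nat_lit 0, nat_lit 0, nat_lit 0, nat_lit 0, nat_lit 0, nat_lit 0, [],
 C1.Rw.none, C1.Rw.none,
 zbF0, []⟩
noncomputable def p007_l261 : Lf2 := ⟨nat_lit 0, nat_lit 5, [nat_lit 4, nat_lit 5, nat_lit 5, nat_lit 20], true, nat_lit 0, nat_lit 0, nat_lit 0, nat_lit 0, ⟨nat_lit 0, nat_lit 0, nat_lit 1000, nat_lit 4, nat_lit 68, nat_lit 0, nat_lit 0, nat_lit 0, nat_lit 0, nat_lit 215, nat_lit 43350, nat_lit 266, nat_lit 65125424, nat_lit 0, nat_lit 0, nat_lit 638193, false, false⟩,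
 nat_lit 0, nat_lit 8506, nat_lit 0, nat_lit 0, nat_lit 4725, nat_lit 0, nat_lit 621, nat_lit 0, nat_lit 0, nat_lit 0, nat_lit 0, nat_lit 0, nat_lit 0, nat_lit 0, nat_lit 80, nat_lit 1000000, nat_lit 0, nat_lit 0, [(nat_lit 6, [(nat_lit 6, nat_lit 1000)])],
 ⟨p007_k42, nat_lit 0, nat_lit 0, nat_lit 366, nat_lit 0, nat_lit 297790, [nat_lit 2257066667, nat_lit 1408000000, nat_lit 211200000], [], [nat_lit 16150871942, nat_lit 16248377800, nat_lit 12656917892, nat_lit 12068317555], nat_lit 1271250, nat_lit 1271250, nat_lit 0, nat_lit 490000, nat_lit 0, nat_lit 0, [nat_lit 1100000, nat_lit 1442500, nat_lit 1271250], [nat_lit 9, nat_lit 40, nat_lit 20, nat_lit 80, nat_lit 2, nat_lit 226, nat_lit 20, nat_lit 8]⟩, C1.Rw.none,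
 ⟨nat_lit 6020, nat_lit 6124, ⟨.ofNat (nat_lit 76747), .ofNat (nat_lit 237508), .ofNat (nat_lit 98095), .ofNat (nat_lit 258856), .ofNat (nat_lit 81392), .ofNat (nat_lit 240298), .ofNat (nat_lit 102734), .ofNat (nat_lit 261640)⟩, ⟨.ofNat (nat_lit 0), .ofNat (nat_lit 0), .ofNat (nat_lit 0), .ofNat (nat_lit 0), .ofNat (nat_lit 0), .ofNat (nat_lit 0), .ofNat (nat_lit 0), .ofNat (nat_lit 0)⟩⟩, [⟨nat_lit 0, nat_lit 100, nat_lit 96, nat_lit 28, nat_lit 329043788⟩]⟩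
noncomputable def p007_l262 : Lf2 := ⟨nat_lit 0, nat_lit 5, [nat_lit 4, nat_lit 5, nat_lit 5, nat_lit 20], true, nat_lit 0, nat_lit 0, nat_lit 0, nat_lit 0, ⟨nat_lit 0, nat_lit 0, nat_lit 1000, nat_lit 4, nat_lit 69, nat_lit 0, nat_lit 0, nat_lit 0, nat_lit 0, nat_lit 215, nat_lit 45067, nat_lit 267, nat_lit 65045254, nat_lit 0, nat_lit 0, nat_lit 659293, false, false⟩,
 nat_lit 0, nat_lit 7626, nat_lit 0, nat_lit 0, nat_lit 4337, nat_lit 0, nat_lit 457, nat_lit 0, nat_lit 0, nat_lit 0, nat_lit 0, nat_lit 0, nat_lit 0, nat_lit 0, nat_lit 80, nat_lit 1000000, nat_lit 0, nat_lit 0, [(nat_lit 6, [(nat_lit 6, nat_lit 1000)])],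
 ⟨p007_k66, nat_lit 0, nat_lit 0, nat_lit 375, nat_lit 0, nat_lit 317140, [nat_lit 2257066667, nat_lit 1408000000, nat_lit 211200000], [], [nat_lit 15864084054, nat_lit 15995281896, nat_lit 12760511449, nat_lit 12709392034], nat_lit 1271250, nat_lit 1271250, nat_lit 0, nat_lit 490000, nat_lit 0, nat_lit 0, [nat_lit 1100000, nat_lit 1442500, nat_lit 1271250], [nat_lit 9, nat_lit 40, nat_lit 20, nat_lit 80, nat_lit 2, nat_lit 226, nat_lit 20, nat_lit 8]⟩, C1.Rw.none,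
 ⟨nat_lit 5916, nat_lit 6021, ⟨.ofNat (nat_lit 81392), .ofNat (nat_lit 240298), .ofNat (nat_lit 102734), .ofNat (nat_lit 261640), .ofNat (nat_lit 85991), .ofNat (nat_lit 243059), .ofNat (nat_lit 107331), .ofNat (nat_lit 264398)⟩, ⟨.ofNat (nat_lit 0), .ofNat (nat_lit 0), .ofNat (nat_lit 0), .ofNat (nat_lit 0), .ofNat (nat_lit 0), .ofNat (nat_lit 0), .ofNat (nat_lit 0), .ofNat (nat_lit 0)⟩⟩, [⟨nat_lit 0, nat_lit 100, nat_lit 95, nat_lit 30, nat_lit 304959138⟩]⟩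
noncomputable def b_NL_600_450_0_1 : St := ⟨false, nat_lit 1, nat_lit 0, nat_lit 1, nat_lit 20, nat_lit 240, nat_lit 260, nat_lit 180, nat_lit 200, nat_lit 0, nat_lit 80, nat_lit 0, nat_lit 0, nat_lit 0, nat_lit 0, nat_lit 0, nat_lit 0, nat_lit 0, nat_lit 40, nat_lit 0, nat_lit 0, nat_lit 0, nat_lit 0⟩
theorem d_NL_600_450_0_1 (h : EB TB.env) : Dead b_NL_600_450_0_1 := chkB_sound0 h (T :=
(.spl (nat_lit 0) (nat_lit 250)
(.spl (nat_lit 6) (nat_lit 28)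
(.spl (nat_lit 6) (nat_lit 20)
(.spl (nat_lit 2) (nat_lit 40)
(.spl (nat_lit 6) (nat_lit 8)
(.spl (nat_lit 2) (nat_lit 20)
(.spl (nat_lit 0) (nat_lit 245)
(.spl (nat_lit 1) (nat_lit 190)
(.spl (nat_lit 6) (nat_lit 4)
(.spl (nat_lit 2) (nat_lit 8)
(.spl (nat_lit 1) (nat_lit 185)
(.leaf p007_l219)
(.spl (nat_lit 0) (nat_lit 243)
(.spl (nat_lit 0) (nat_lit 242)
(.spl (nat_lit 0) (nat_lit 241)
(.spl (nat_lit 2) (nat_lit 4)
(.spl (nat_lit 1) (nat_lit 188)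
(.spl (nat_lit 1) (nat_lit 187)
(.leaf p007_l220)
(.spl (nat_lit 8) (nat_lit 800)
(.spl (nat_lit 7) (nat_lit 600)
(.leaf p007_l221)
(.leaf p007_l222))
(.leaf p007_l223)))
(.spl (nat_lit 1) (nat_lit 189)
(.spl (nat_lit 8) (nat_lit 800)
(.spl (nat_lit 8) (nat_lit 400)
(.spl (nat_lit 7) (nat_lit 600)
(.leaf p007_l224)
(.leaf p007_l225))
(.leaf p007_l226))
(.leaf p007_l227))
(.spl (nat_lit 8) (nat_lit 800)
(.spl (nat_lit 7) (nat_lit 600)
(.leaf p007_l228)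
(.leaf p007_l229))
(.leaf p007_l230))))
(.spl (nat_lit 1) (nat_lit 188)
(.leaf p007_l231)
(.spl (nat_lit 1) (nat_lit 189)
(.leaf p007_l232)
(.spl (nat_lit 8) (nat_lit 800)
(.spl (nat_lit 8) (nat_lit 400)
(.spl (nat_lit 7) (nat_lit 600)
(.leaf p007_l233)
(.leaf p007_l234))
(.leaf p007_l235))
(.leaf p007_l236)))))
(.spl (nat_lit 2) (nat_lit 4)
(.spl (nat_lit 1) (nat_lit 188)
(.leaf p007_l237)
(.spl (nat_lit 1) (nat_lit 189)
(.leaf p007_l238)
(.spl (nat_lit 8) (nat_lit 800)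
(.spl (nat_lit 7) (nat_lit 600)
(.leaf p007_l239)
(.leaf p007_l240))
(.leaf p007_l241))))
(.leaf p007_l242)))
(.leaf p007_l243))
(.leaf p007_l244)))
(.leaf p007_l245))
(.leaf p007_l246))
(.spl (nat_lit 8) (nat_lit 800)
(.spl (nat_lit 7) (nat_lit 600)
(.spl (nat_lit 7) (nat_lit 300)
(.leaf p007_l247)
(.spl (nat_lit 0) (nat_lit 243)
(.spl (nat_lit 6) (nat_lit 4)
(.leaf p007_l248)
(.leaf p007_l249))
(.spl (nat_lit 6) (nat_lit 4)
(.leaf p007_l250)
(.leaf p007_l251))))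
(.leaf p007_l252))
(.leaf p007_l253)))
(.leaf p007_l254))
(.leaf p007_l255))
(.spl (nat_lit 0) (nat_lit 245)
(.leaf p007_l256)
(.leaf p007_l257)))
(.leaf p007_l258))
(.leaf p007_l259))
(.leaf p007_l260))
(.spl (nat_lit 0) (nat_lit 255)
(.leaf p007_l261)
(.leaf p007_l262)))) (by decide +kernel)

end B2
end Pool.Agent.Lib.MP_6947cd_al
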