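import Pool.Agent.Lib.MP_6947cd_al.ZB.Pre

/-!
Problem MP_6947cd_al (Chollet).  Case B, second entry in [2/5, 17/20]: certificates of the tree, part P008 (generated).
-/

set_option autoImplicit false
set_option linter.all false

namespace Pool.Agent.Lib.MP_6947cd_al
namespace B2

open Ent Fr B1 PkA

noncomputable def p008_k0 : C1.Kn := ⟨[nat_lit 80, nat_lit 100], [nat_lit 0, nat_lit 0], [(nat_lit 0, nat_lit 0, nat_lit 0), (nat_lit 0, nat_lit 0, nat_lit 0)], (nat_lit 98, nat_lit 100, nat_lit 20)⟩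
noncomputable def p008_k1 : C1.Kn := ⟨[nat_lit 80, nat_lit 90, nat_lit 100], [nat_lit 0, nat_lit 0, nat_lit 129], [(nat_lit 0, nat_lit 0, nat_lit 0), (nat_lit 0, nat_lit 0, nat_lit 0), (nat_lit 1000, nat_lit 980, nat_lit 192)], (nat_lit 98, nat_lit 100, nat_lit 20)⟩
noncomputable def p008_k2 : C1.Kn := ⟨[nat_lit 120, nat_lit 140], [nat_lit 0, nat_lit 359], [(nat_lit 0, nat_lit 0, nat_lit 0), (nat_lit 947, nat_lit 1000, nat_lit 265)], (nat_lit 100, nat_lit 97, nat_lit 20)⟩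
noncomputable def p008_k3 : C1.Kn := ⟨[nat_lit 120, nat_lit 140], [nat_lit 0, nat_lit 372], [(nat_lit 0, nat_lit 0, nat_lit 0), (nat_lit 946, nat_lit 1000, nat_lit 274)], (nat_lit 100, nat_lit 97, nat_lit 20)⟩
noncomputable def p008_k4 : C1.Kn := ⟨[nat_lit 120, nat_lit 140], [nat_lit 0, nat_lit 386], [(nat_lit 0, nat_lit 0, nat_lit 0), (nat_lit 943, nat_lit 1000, nat_lit 284)], (nat_lit 100, nat_lit 97, nat_lit 20)⟩
noncomputable def p008_k5 : C1.Kn := ⟨[nat_lit 80, nat_lit 100], [nat_lit 0, nat_lit 11], [(nat_lit 0, nat_lit 0, nat_lit 0), (nat_lit 1000, nat_lit 998, nat_lit 9)], (nat_lit 98, nat_lit 100, nat_lit 20)⟩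
noncomputable def p008_k6 : C1.Kn := ⟨[nat_lit 80, nat_lit 90, nat_lit 100], [nat_lit 0, nat_lit 5, nat_lit 135], [(nat_lit 0, nat_lit 0, nat_lit 0), (nat_lit 1000, nat_lit 998, nat_lit 9), (nat_lit 1000, nat_lit 979, nat_lit 190)], (nat_lit 98, nat_lit 100, nat_lit 20)⟩
noncomputable def p008_k7 : C1.Kn := ⟨[nat_lit 80, nat_lit 100], [nat_lit 0, nat_lit 24], [(nat_lit 0, nat_lit 0, nat_lit 0), (nat_lit 1000, nat_lit 996, nat_lit 19)], (nat_lit 98, nat_lit 100, nat_lit 20)⟩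
noncomputable def p008_k8 : C1.Kn := ⟨[nat_lit 80, nat_lit 100], [nat_lit 0, nat_lit 36], [(nat_lit 0, nat_lit 0, nat_lit 0), (nat_lit 1000, nat_lit 994, nat_lit 28)], (nat_lit 98, nat_lit 100, nat_lit 20)⟩
noncomputable def p008_k9 : C1.Kn := ⟨[nat_lit 80, nat_lit 100, nat_lit 120], [nat_lit 0, nat_lit 0, nat_lit 511], [(nat_lit 0, nat_lit 0, nat_lit 0), (nat_lit 0, nat_lit 0, nat_lit 0), (nat_lit 1000, nat_lit 997, nat_lit 383)], (nat_lit 98, nat_lit 100, nat_lit 28)⟩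
noncomputable def p008_k10 : C1.Kn := ⟨[nat_lit 80, nat_lit 90, nat_lit 100], [nat_lit 0, nat_lit 18, nat_lit 149], [(nat_lit 0, nat_lit 0, nat_lit 0), (nat_lit 1000, nat_lit 994, nat_lit 28), (nat_lit 1000, nat_lit 977, nat_lit 201)], (nat_lit 98, nat_lit 100, nat_lit 20)⟩
noncomputable def p008_k11 : C1.Kn := ⟨[nat_lit 80, nat_lit 100, nat_lit 120], [nat_lit 0, nat_lit 36, nat_lit 550], [(nat_lit 0, nat_lit 0, nat_lit 0), (nat_lit 1000, nat_lit 994, nat_lit 28), (nat_lit 1000, nat_lit 993, nat_lit 397)], (nat_lit 98, nat_lit 100, nat_lit 28)⟩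
noncomputable def p008_k12 : C1.Kn := ⟨[nat_lit 120, nat_lit 140], [nat_lit 0, nat_lit 399], [(nat_lit 0, nat_lit 0, nat_lit 0), (nat_lit 942, nat_lit 1000, nat_lit 293)], (nat_lit 100, nat_lit 95, nat_lit 28)⟩
noncomputable def p008_k13 : C1.Kn := ⟨[nat_lit 80, nat_lit 100, nat_lit 120], [nat_lit 0, nat_lit 65, nat_lit 576], [(nat_lit 0, nat_lit 0, nat_lit 0), (nat_lit 1000, nat_lit 990, nat_lit 51), (nat_lit 1000, nat_lit 990, nat_lit 399)], (nat_lit 98, nat_lit 100, nat_lit 28)⟩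
noncomputable def p008_k14 : C1.Kn := ⟨[nat_lit 80, nat_lit 100, nat_lit 140], [nat_lit 0, nat_lit 0, nat_lit 1022], [(nat_lit 0, nat_lit 0, nat_lit 0), (nat_lit 0, nat_lit 0, nat_lit 0), (nat_lit 1000, nat_lit 1000, nat_lit 399)], (nat_lit 100, nat_lit 99, nat_lit 44)⟩
noncomputable def p008_k15 : C1.Kn := ⟨[nat_lit 80, nat_lit 100, nat_lit 140], [nat_lit 0, nat_lit 65, nat_lit 1086], [(nat_lit 0, nat_lit 0, nat_lit 0), (nat_lit 1000, nat_lit 990, nat_lit 51), (nat_lit 1000, nat_lit 990, nat_lit 399)], (nat_lit 100, nat_lit 100, nat_lit 45)⟩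
noncomputable def p008_k16 : C1.Kn := ⟨[nat_lit 120, nat_lit 140, nat_lit 160], [nat_lit 0, nat_lit 266, nat_lit 862], [(nat_lit 0, nat_lit 0, nat_lit 0), (nat_lit 960, nat_lit 1000, nat_lit 200), (nat_lit 874, nat_lit 1000, nat_lit 406)], (nat_lit 100, nat_lit 86, nat_lit 44)⟩
noncomputable def p008_k17 : C1.Kn := ⟨[nat_lit 80, nat_lit 100, nat_lit 120], [nat_lit 0, nat_lit 132, nat_lit 640], [(nat_lit 0, nat_lit 0, nat_lit 0), (nat_lit 1000, nat_lit 979, nat_lit 103), (nat_lit 1000, nat_lit 979, nat_lit 397)], (nat_lit 99, nat_lit 100, nat_lit 44)⟩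
noncomputable def p008_k18 : C1.Kn := ⟨[nat_lit 80, nat_lit 140], [nat_lit 0, nat_lit 0], [(nat_lit 0, nat_lit 0, nat_lit 0), (nat_lit 0, nat_lit 0, nat_lit 0)], (nat_lit 100, nat_lit 99, nat_lit 44)⟩
noncomputable def p008_k19 : C1.Kn := ⟨[nat_lit 120, nat_lit 160], [nat_lit 0, nat_lit 533], [(nat_lit 0, nat_lit 0, nat_lit 0), (nat_lit 960, nat_lit 1000, nat_lit 200)], (nat_lit 100, nat_lit 86, nat_lit 44)⟩
noncomputable def p008_k20 : C1.Kn := ⟨[nat_lit 100, nat_lit 120, nat_lit 160], [nat_lit 0, nat_lit 0, nat_lit 1063], [(nat_lit 0, nat_lit 0, nat_lit 0), (nat_lit 0, nat_lit 0, nat_lit 0), (nat_lit 924, nat_lit 1000, nat_lit 383)], (nat_lit 100, nat_lit 90, nat_lit 44)⟩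
noncomputable def p008_k21 : C1.Kn := ⟨[nat_lit 80, nat_lit 120, nat_lit 140], [nat_lit 0, nat_lit 0, nat_lit 1164], [(nat_lit 0, nat_lit 0, nat_lit 0), (nat_lit 0, nat_lit 0, nat_lit 0), (nat_lit 941, nat_lit 1000, nat_lit 576)], (nat_lit 100, nat_lit 99, nat_lit 44)⟩
noncomputable def p008_k22 : C1.Kn := ⟨[nat_lit 100, nat_lit 140, nat_lit 160], [nat_lit 0, nat_lit 0, nat_lit 1280], [(nat_lit 0, nat_lit 0, nat_lit 0), (nat_lit 0, nat_lit 0, nat_lit 0), (nat_lit 800, nat_lit 1000, nat_lit 600)], (nat_lit 100, nat_lit 90, nat_lit 44)⟩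
noncomputable def p008_k23 : C1.Kn := ⟨[nat_lit 100, nat_lit 120, nat_lit 140], [nat_lit 0, nat_lit 128, nat_lit 655], [(nat_lit 0, nat_lit 0, nat_lit 0), (nat_lit 1000, nat_lit 1000, nat_lit 100), (nat_lit 941, nat_lit 1000, nat_lit 388)], (nat_lit 100, nat_lit 92, nat_lit 44)⟩
noncomputable def p008_k24 : C1.Kn := ⟨[nat_lit 100, nat_lit 120], [nat_lit 0, nat_lit 0], [(nat_lit 0, nat_lit 0, nat_lit 0), (nat_lit 0, nat_lit 0, nat_lit 0)], (nat_lit 100, nat_lit 98, nat_lit 20)⟩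
noncomputable def p008_k25 : C1.Kn := ⟨[nat_lit 80, nat_lit 100], [nat_lit 0, nat_lit 65], [(nat_lit 0, nat_lit 0, nat_lit 0), (nat_lit 1000, nat_lit 990, nat_lit 51)], (nat_lit 97, nat_lit 100, nat_lit 20)⟩
noncomputable def p008_k26 : C1.Kn := ⟨[nat_lit 80, nat_lit 90, nat_lit 110], [nat_lit 0, nat_lit 0, nat_lit 257], [(nat_lit 0, nat_lit 0, nat_lit 0), (nat_lit 0, nat_lit 0, nat_lit 0), (nat_lit 1000, nat_lit 980, nat_lit 201)], (nat_lit 98, nat_lit 100, nat_lit 28)⟩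
noncomputable def p008_k27 : C1.Kn := ⟨[nat_lit 100, nat_lit 120, nat_lit 140], [nat_lit 0, nat_lit 0, nat_lit 533], [(nat_lit 0, nat_lit 0, nat_lit 0), (nat_lit 0, nat_lit 0, nat_lit 0), (nat_lit 924, nat_lit 1000, nat_lit 383)], (nat_lit 100, nat_lit 96, nat_lit 28)⟩
noncomputable def p008_k28 : C1.Kn := ⟨[nat_lit 100, nat_lit 140], [nat_lit 0, nat_lit 0], [(nat_lit 0, nat_lit 0, nat_lit 0), (nat_lit 0, nat_lit 0, nat_lit 0)], (nat_lit 100, nat_lit 96, nat_lit 28)⟩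
noncomputable def p008_k29 : C1.Kn := ⟨[nat_lit 80, nat_lit 100, nat_lit 120], [nat_lit 0, nat_lit 0, nat_lit 511], [(nat_lit 0, nat_lit 0, nat_lit 0), (nat_lit 0, nat_lit 0, nat_lit 0), (nat_lit 1000, nat_lit 997, nat_lit 383)], (nat_lit 100, nat_lit 100, nat_lit 40)⟩
noncomputable def p008_k30 : C1.Kn := ⟨[nat_lit 80, nat_lit 100, nat_lit 120], [nat_lit 0, nat_lit 0, nat_lit 511], [(nat_lit 0, nat_lit 0, nat_lit 0), (nat_lit 0, nat_lit 0, nat_lit 0), (nat_lit 1000, nat_lit 997, nat_lit 383)], (nat_lit 99, nat_lit 100, nat_lit 34)⟩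
noncomputable def p008_k31 : C1.Kn := ⟨[nat_lit 40, nat_lit 80, nat_lit 100, nat_lit 120], [nat_lit 0, nat_lit 0, nat_lit 0, nat_lit 511], [(nat_lit 0, nat_lit 0, nat_lit 0), (nat_lit 0, nat_lit 0, nat_lit 0), (nat_lit 0, nat_lit 0, nat_lit 0), (nat_lit 1000, nat_lit 997, nat_lit 383)], (nat_lit 99, nat_lit 100, nat_lit 34)⟩
noncomputable def p008_k32 : C1.Kn := ⟨[nat_lit 80, nat_lit 100, nat_lit 120], [nat_lit 0, nat_lit 65, nat_lit 576], [(nat_lit 0, nat_lit 0, nat_lit 0), (nat_lit 1000, nat_lit 990, nat_lit 51), (nat_lit 1000, nat_lit 990, nat_lit 399)], (nat_lit 99, nat_lit 100, nat_lit 40)⟩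
noncomputable def p008_k33 : C1.Kn := ⟨[nat_lit 80, nat_lit 100, nat_lit 120], [nat_lit 0, nat_lit 106, nat_lit 614], [(nat_lit 0, nat_lit 0, nat_lit 0), (nat_lit 1000, nat_lit 983, nat_lit 83), (nat_lit 1000, nat_lit 983, nat_lit 397)], (nat_lit 98, nat_lit 100, nat_lit 40)⟩
noncomputable def p008_k34 : C1.Kn := ⟨[nat_lit 100, nat_lit 140], [nat_lit 0, nat_lit 0], [(nat_lit 0, nat_lit 0, nat_lit 0), (nat_lit 0, nat_lit 0, nat_lit 0)], (nat_lit 100, nat_lit 92, nat_lit 39)⟩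
noncomputable def p008_k35 : C1.Kn := ⟨[nat_lit 80, nat_lit 100, nat_lit 120], [nat_lit 0, nat_lit 132, nat_lit 640], [(nat_lit 0, nat_lit 0, nat_lit 0), (nat_lit 1000, nat_lit 979, nat_lit 103), (nat_lit 1000, nat_lit 979, nat_lit 397)], (nat_lit 97, nat_lit 100, nat_lit 28)⟩
noncomputable def p008_k36 : C1.Kn := ⟨[nat_lit 80, nat_lit 100, nat_lit 120], [nat_lit 0, nat_lit 198, nat_lit 704], [(nat_lit 0, nat_lit 0, nat_lit 0), (nat_lit 1000, nat_lit 969, nat_lit 154), (nat_lit 1000, nat_lit 969, nat_lit 395)], (nat_lit 96, nat_lit 100, nat_lit 28)⟩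
noncomputable def p008_k37 : C1.Kn := ⟨[nat_lit 80, nat_lit 100, nat_lit 120], [nat_lit 0, nat_lit 132, nat_lit 640], [(nat_lit 0, nat_lit 0, nat_lit 0), (nat_lit 1000, nat_lit 979, nat_lit 103), (nat_lit 1000, nat_lit 979, nat_lit 397)], (nat_lit 98, nat_lit 100, nat_lit 40)⟩
noncomputable def p008_k38 : C1.Kn := ⟨[nat_lit 100, nat_lit 120], [nat_lit 0, nat_lit 128], [(nat_lit 0, nat_lit 0, nat_lit 0), (nat_lit 1000, nat_lit 1000, nat_lit 100)], (nat_lit 100, nat_lit 99, nat_lit 20)⟩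
noncomputable def p008_k39 : C1.Kn := ⟨[nat_lit 100, nat_lit 120, nat_lit 140], [nat_lit 0, nat_lit 0, nat_lit 533], [(nat_lit 0, nat_lit 0, nat_lit 0), (nat_lit 0, nat_lit 0, nat_lit 0), (nat_lit 924, nat_lit 1000, nat_lit 383)], (nat_lit 100, nat_lit 94, nat_lit 34)⟩
noncomputable def p008_k40 : C1.Kn := ⟨[nat_lit 100, nat_lit 120, nat_lit 140], [nat_lit 0, nat_lit 0, nat_lit 533], [(nat_lit 0, nat_lit 0, nat_lit 0), (nat_lit 0, nat_lit 0, nat_lit 0), (nat_lit 924, nat_lit 1000, nat_lit 383)], (nat_lit 100, nat_lit 92, nat_lit 39)⟩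
noncomputable def p008_k41 : C1.Kn := ⟨[nat_lit 80, nat_lit 120], [nat_lit 0, nat_lit 264], [(nat_lit 0, nat_lit 0, nat_lit 0), (nat_lit 1000, nat_lit 979, nat_lit 103)], (nat_lit 99, nat_lit 100, nat_lit 44)⟩
noncomputable def p008_k42 : C1.Kn := ⟨[nat_lit 80, nat_lit 100], [nat_lit 0, nat_lit 132], [(nat_lit 0, nat_lit 0, nat_lit 0), (nat_lit 1000, nat_lit 979, nat_lit 103)], (nat_lit 97, nat_lit 100, nat_lit 20)⟩
noncomputable def p008_k43 : C1.Kn := ⟨[nat_lit 100, nat_lit 120, nat_lit 140], [nat_lit 0, nat_lit 254, nat_lit 778], [(nat_lit 0, nat_lit 0, nat_lit 0), (nat_lit 1000, nat_lit 1000, nat_lit 198), (nat_lit 960, nat_lit 1000, nat_lit 392)], (nat_lit 100, nat_lit 94, nat_lit 44)⟩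
noncomputable def p008_k44 : C1.Kn := ⟨[nat_lit 100, nat_lit 140], [nat_lit 0, nat_lit 508], [(nat_lit 0, nat_lit 0, nat_lit 0), (nat_lit 1000, nat_lit 1000, nat_lit 198)], (nat_lit 100, nat_lit 94, nat_lit 44)⟩
noncomputable def p008_k45 : C1.Kn := ⟨[nat_lit 60, nat_lit 80, nat_lit 100, nat_lit 120, nat_lit 130], [nat_lit 0, nat_lit 0, nat_lit 0, nat_lit 511, nat_lit 778], [(nat_lit 0, nat_lit 0, nat_lit 0), (nat_lit 0, nat_lit 0, nat_lit 0), (nat_lit 0, nat_lit 0, nat_lit 0), (nat_lit 1000, nat_lit 997, nat_lit 383), (nat_lit 996, nat_lit 1000, nat_lit 416)], (nat_lit 100, nat_lit 99, nat_lit 44)⟩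
noncomputable def p008_k46 : C1.Kn := ⟨[nat_lit 70, nat_lit 90, nat_lit 110, nat_lit 130, nat_lit 140], [nat_lit 0, nat_lit 0, nat_lit 0, nat_lit 517, nat_lit 788], [(nat_lit 0, nat_lit 0, nat_lit 0), (nat_lit 0, nat_lit 0, nat_lit 0), (nat_lit 0, nat_lit 0, nat_lit 0), (nat_lit 962, nat_lit 1000, nat_lit 387), (nat_lit 956, nat_lit 1000, nat_lit 405)], (nat_lit 100, nat_lit 94, nat_lit 44)⟩
noncomputable def p008_k47 : C1.Kn := ⟨[nat_lit 80, nat_lit 120], [nat_lit 0, nat_lit 0], [(nat_lit 0, nat_lit 0, nat_lit 0), (nat_lit 0, nat_lit 0, nat_lit 0)], (nat_lit 98, nat_lit 100, nat_lit 28)⟩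
noncomputable def p008_k48 : C1.Kn := ⟨[nat_lit 100, nat_lit 120], [nat_lit 0, nat_lit 254], [(nat_lit 0, nat_lit 0, nat_lit 0), (nat_lit 1000, nat_lit 1000, nat_lit 198)], (nat_lit 100, nat_lit 99, nat_lit 28)⟩
noncomputable def p008_k49 : C1.Kn := ⟨[nat_lit 80, nat_lit 120], [nat_lit 0, nat_lit 130], [(nat_lit 0, nat_lit 0, nat_lit 0), (nat_lit 1000, nat_lit 990, nat_lit 51)], (nat_lit 98, nat_lit 100, nat_lit 28)⟩
noncomputable def p008_k50 : C1.Kn := ⟨[nat_lit 40, nat_lit 80, nat_lit 90, nat_lit 110], [nat_lit 0, nat_lit 0, nat_lit 0, nat_lit 257], [(nat_lit 0, nat_lit 0, nat_lit 0), (nat_lit 0, nat_lit 0, nat_lit 0), (nat_lit 0, nat_lit 0, nat_lit 0), (nat_lit 1000, nat_lit 980, nat_lit 201)], (nat_lit 98, nat_lit 100, nat_lit 28)⟩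
noncomputable def p008_k51 : C1.Kn := ⟨[nat_lit 40, nat_lit 80, nat_lit 100, nat_lit 130], [nat_lit 0, nat_lit 0, nat_lit 0, nat_lit 767], [(nat_lit 0, nat_lit 0, nat_lit 0), (nat_lit 0, nat_lit 0, nat_lit 0), (nat_lit 0, nat_lit 0, nat_lit 0), (nat_lit 1000, nat_lit 1000, nat_lit 399)], (nat_lit 100, nat_lit 99, nat_lit 44)⟩
noncomputable def p008_k52 : C1.Kn := ⟨[nat_lit 40, nat_lit 80, nat_lit 100, nat_lit 130], [nat_lit 0, nat_lit 0, nat_lit 65, nat_lit 831], [(nat_lit 0, nat_lit 0, nat_lit 0), (nat_lit 0, nat_lit 0, nat_lit 0), (nat_lit 1000, nat_lit 990, nat_lit 51), (nat_lit 1000, nat_lit 990, nat_lit 399)], (nat_lit 100, nat_lit 100, nat_lit 45)⟩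
noncomputable def p008_k53 : C1.Kn := ⟨[nat_lit 50, nat_lit 90, nat_lit 110, nat_lit 140], [nat_lit 0, nat_lit 0, nat_lit 0, nat_lit 774], [(nat_lit 0, nat_lit 0, nat_lit 0), (nat_lit 0, nat_lit 0, nat_lit 0), (nat_lit 0, nat_lit 0, nat_lit 0), (nat_lit 962, nat_lit 1000, nat_lit 387)], (nat_lit 100, nat_lit 94, nat_lit 44)⟩
noncomputable def p008_k54 : C1.Kn := ⟨[nat_lit 80, nat_lit 90, nat_lit 110], [nat_lit 0, nat_lit 32, nat_lit 292], [(nat_lit 0, nat_lit 0, nat_lit 0), (nat_lit 1000, nat_lit 990, nat_lit 51), (nat_lit 1000, nat_lit 975, nat_lit 203)], (nat_lit 98, nat_lit 100, nat_lit 28)⟩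
noncomputable def p008_k55 : C1.Kn := ⟨[nat_lit 40, nat_lit 80, nat_lit 90, nat_lit 100], [nat_lit 0, nat_lit 0, nat_lit 0, nat_lit 129], [(nat_lit 0, nat_lit 0, nat_lit 0), (nat_lit 0, nat_lit 0, nat_lit 0), (nat_lit 0, nat_lit 0, nat_lit 0), (nat_lit 1000, nat_lit 980, nat_lit 192)], (nat_lit 98, nat_lit 100, nat_lit 20)⟩
noncomputable def p008_k56 : C1.Kn := ⟨[nat_lit 60, nat_lit 100, nat_lit 120], [nat_lit 0, nat_lit 0, nat_lit 254], [(nat_lit 0, nat_lit 0, nat_lit 0), (nat_lit 0, nat_lit 0, nat_lit 0), (nat_lit 1000, nat_lit 1000, nat_lit 198)], (nat_lit 100, nat_lit 100, nat_lit 20)⟩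
noncomputable def p008_k57 : C1.Kn := ⟨[nat_lit 60, nat_lit 100, nat_lit 120], [nat_lit 0, nat_lit 0, nat_lit 254], [(nat_lit 0, nat_lit 0, nat_lit 0), (nat_lit 0, nat_lit 0, nat_lit 0), (nat_lit 1000, nat_lit 1000, nat_lit 198)], (nat_lit 100, nat_lit 99, nat_lit 28)⟩
noncomputable def p008_k58 : C1.Kn := ⟨[nat_lit 90, nat_lit 100, nat_lit 110], [nat_lit 0, nat_lit 64, nat_lit 191], [(nat_lit 0, nat_lit 0, nat_lit 0), (nat_lit 1000, nat_lit 990, nat_lit 101), (nat_lit 1000, nat_lit 990, nat_lit 198)], (nat_lit 99, nat_lit 100, nat_lit 20)⟩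
noncomputable def p008_k59 : C1.Kn := ⟨[nat_lit 60, nat_lit 100, nat_lit 120], [nat_lit 0, nat_lit 0, nat_lit 383], [(nat_lit 0, nat_lit 0, nat_lit 0), (nat_lit 0, nat_lit 0, nat_lit 0), (nat_lit 1000, nat_lit 1000, nat_lit 299)], (nat_lit 99, nat_lit 100, nat_lit 20)⟩
noncomputable def p008_k60 : C1.Kn := ⟨[nat_lit 80, nat_lit 100, nat_lit 120], [nat_lit 0, nat_lit 11, nat_lit 524], [(nat_lit 0, nat_lit 0, nat_lit 0), (nat_lit 1000, nat_lit 998, nat_lit 9), (nat_lit 1000, nat_lit 996, nat_lit 388)], (nat_lit 98, nat_lit 100, nat_lit 28)⟩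
noncomputable def p008_k61 : C1.Kn := ⟨[nat_lit 50, nat_lit 90, nat_lit 110], [nat_lit 0, nat_lit 0, nat_lit 217], [(nat_lit 0, nat_lit 0, nat_lit 0), (nat_lit 0, nat_lit 0, nat_lit 0), (nat_lit 1000, nat_lit 983, nat_lit 169)], (nat_lit 99, nat_lit 100, nat_lit 28)⟩
noncomputable def p008_k62 : C1.Kn := ⟨[nat_lit 80, nat_lit 90, nat_lit 110], [nat_lit 0, nat_lit 5, nat_lit 265], [(nat_lit 0, nat_lit 0, nat_lit 0), (nat_lit 1000, nat_lit 998, nat_lit 9), (nat_lit 1000, nat_lit 979, nat_lit 202)], (nat_lit 98, nat_lit 100, nat_lit 28)⟩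
noncomputable def p008_k63 : C1.Kn := ⟨[nat_lit 80, nat_lit 120], [nat_lit 0, nat_lit 23], [(nat_lit 0, nat_lit 0, nat_lit 0), (nat_lit 1000, nat_lit 998, nat_lit 9)], (nat_lit 98, nat_lit 100, nat_lit 28)⟩
noncomputable def p008_k64 : C1.Kn := ⟨[nat_lit 40, nat_lit 80, nat_lit 100, nat_lit 110], [nat_lit 0, nat_lit 0, nat_lit 0, nat_lit 260], [(nat_lit 0, nat_lit 0, nat_lit 0), (nat_lit 0, nat_lit 0, nat_lit 0), (nat_lit 0, nat_lit 0, nat_lit 0), (nat_lit 1000, nat_lit 987, nat_lit 274)], (nat_lit 99, nat_lit 100, nat_lit 28)⟩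
noncomputable def p008_k65 : C1.Kn := ⟨[nat_lit 80, nat_lit 100, nat_lit 120], [nat_lit 0, nat_lit 24, nat_lit 537], [(nat_lit 0, nat_lit 0, nat_lit 0), (nat_lit 1000, nat_lit 996, nat_lit 19), (nat_lit 1000, nat_lit 995, nat_lit 395)], (nat_lit 98, nat_lit 100, nat_lit 28)⟩
noncomputable def p008_k66 : C1.Kn := ⟨[nat_lit 80, nat_lit 100, nat_lit 110], [nat_lit 0, nat_lit 0, nat_lit 288], [(nat_lit 0, nat_lit 0, nat_lit 0), (nat_lit 0, nat_lit 0, nat_lit 0), (nat_lit 1000, nat_lit 983, nat_lit 284)], (nat_lit 98, nat_lit 100, nat_lit 28)⟩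
noncomputable def p008_k67 : C1.Kn := ⟨[nat_lit 50, nat_lit 90, nat_lit 110], [nat_lit 0, nat_lit 0, nat_lit 230], [(nat_lit 0, nat_lit 0, nat_lit 0), (nat_lit 0, nat_lit 0, nat_lit 0), (nat_lit 1000, nat_lit 982, nat_lit 179)], (nat_lit 99, nat_lit 100, nat_lit 28)⟩
noncomputable def p008_k68 : C1.Kn := ⟨[nat_lit 40, nat_lit 80, nat_lit 100, nat_lit 110], [nat_lit 0, nat_lit 0, nat_lit 0, nat_lit 269], [(nat_lit 0, nat_lit 0, nat_lit 0), (nat_lit 0, nat_lit 0, nat_lit 0), (nat_lit 0, nat_lit 0, nat_lit 0), (nat_lit 1000, nat_lit 985, nat_lit 275)], (nat_lit 99, nat_lit 100, nat_lit 28)⟩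
noncomputable def p008_k69 : C1.Kn := ⟨[nat_lit 40, nat_lit 80, nat_lit 100, nat_lit 110], [nat_lit 0, nat_lit 0, nat_lit 0, nat_lit 279], [(nat_lit 0, nat_lit 0, nat_lit 0), (nat_lit 0, nat_lit 0, nat_lit 0), (nat_lit 0, nat_lit 0, nat_lit 0), (nat_lit 1000, nat_lit 985, nat_lit 288)], (nat_lit 98, nat_lit 100, nat_lit 28)⟩
noncomputable def p008_k70 : C1.Kn := ⟨[nat_lit 50, nat_lit 90, nat_lit 110], [nat_lit 0, nat_lit 0, nat_lit 245], [(nat_lit 0, nat_lit 0, nat_lit 0), (nat_lit 0, nat_lit 0, nat_lit 0), (nat_lit 1000, nat_lit 981, nat_lit 191)], (nat_lit 98, nat_lit 100, nat_lit 28)⟩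
noncomputable def p008_k71 : C1.Kn := ⟨[nat_lit 80, nat_lit 90, nat_lit 110], [nat_lit 0, nat_lit 12, nat_lit 272], [(nat_lit 0, nat_lit 0, nat_lit 0), (nat_lit 1000, nat_lit 996, nat_lit 19), (nat_lit 1000, nat_lit 978, nat_lit 203)], (nat_lit 98, nat_lit 100, nat_lit 28)⟩
noncomputable def p008_k72 : C1.Kn := ⟨[nat_lit 80, nat_lit 120], [nat_lit 0, nat_lit 48], [(nat_lit 0, nat_lit 0, nat_lit 0), (nat_lit 1000, nat_lit 996, nat_lit 19)], (nat_lit 98, nat_lit 100, nat_lit 28)⟩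
noncomputable def p008_l0 : Lf2 := ⟨nat_lit 0, nat_lit 1, [nat_lit 19, nat_lit 5, nat_lit 5, nat_lit 20], true, nat_lit 0, nat_lit 0, nat_lit 0, nat_lit 0, ⟨nat_lit 0, nat_lit 0, nat_lit 1000, nat_lit 4, nat_lit 32, nat_lit 0, nat_lit 0, nat_lit 0, nat_lit 0, nat_lit 215, nat_lit 9600, nat_lit 239, nat_lit 66568293, nat_lit 0, nat_lit 0, nat_lit 194126, false, false⟩,
 nat_lit 0, nat_lit 4431, nat_lit 0, nat_lit 0, nat_lit 2345, nat_lit 0, nat_lit 0, nat_lit 0, nat_lit 0, nat_lit 0, nat_lit 0, nat_lit 0, nat_lit 0, nat_lit 0, nat_lit 10, nat_lit 1000000, nat_lit 0, nat_lit 0, [(nat_lit 6, [(nat_lit 6, nat_lit 1000)])],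
 ⟨p008_k0, nat_lit 0, nat_lit 0, nat_lit 284, nat_lit 0, nat_lit 187954, [nat_lit 1137066667, nat_lit 8000000], [], [nat_lit 19244253427, nat_lit 18943473175, nat_lit 18761292235, nat_lit 18461396986], nat_lit 1271250, nat_lit 1271250, nat_lit 0, nat_lit 43600, nat_lit 0, nat_lit 0, [nat_lit 1100000, nat_lit 1442500], [nat_lit 31, nat_lit 40, nat_lit 20, nat_lit 80, nat_lit 3, nat_lit 215, nat_lit 10, nat_lit 9]⟩, C1.Rw.none,
 ⟨nat_lit 6224, nat_lit 6325, ⟨.ofNat (nat_lit 67309), .ofNat (nat_lit 83762), .ofNat (nat_lit 72651), .ofNat (nat_lit 89104), .ofNat (nat_lit 72053), .ofNat (nat_lit 88317), .ofNat (nat_lit 77393), .ofNat (nat_lit 93656)⟩, ⟨.ofNat (nat_lit 0), .ofNat (nat_lit 0), .ofNat (nat_lit 0), .ofNat (nat_lit 0), .ofNat (nat_lit 0), .ofNat (nat_lit 0), .ofNat (nat_lit 0), .ofNat (nat_lit 0)⟩⟩, [⟨nat_lit 0, nat_lit 100, nat_lit 98, nat_lit 13, nat_lit 400550492⟩]⟩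
noncomputable def p008_l1 : Lf2 := ⟨nat_lit 0, nat_lit 1, [nat_lit 19, nat_lit 5, nat_lit 5, nat_lit 20], true, nat_lit 0, nat_lit 0, nat_lit 0, nat_lit 0, ⟨nat_lit 0, nat_lit 0, nat_lit 1000, nat_lit 4, nat_lit 31, nat_lit 0, nat_lit 0, nat_lit 0, nat_lit 0, nat_lit 215, nat_lit 9600, nat_lit 239, nat_lit 66591688, nat_lit 0, nat_lit 0, nat_lit 185217, false, false⟩,
 nat_lit 0, nat_lit 4430, nat_lit 0, nat_lit 0, nat_lit 2345, nat_lit 0, nat_lit 0, nat_lit 0, nat_lit 0, nat_lit 0, nat_lit 0, nat_lit 0, nat_lit 0, nat_lit 0, nat_lit 10, nat_lit 1000000, nat_lit 0, nat_lit 0, [(nat_lit 6, [(nat_lit 6, nat_lit 1000)])],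
 ⟨p008_k0, nat_lit 0, nat_lit 0, nat_lit 283, nat_lit 0, nat_lit 172922, [nat_lit 1137066667, nat_lit 8000000], [], [nat_lit 19244253427, nat_lit 19184097377, nat_lit 19002772831, nat_lit 18942705281], nat_lit 1271250, nat_lit 1271250, nat_lit 0, nat_lit 21650, nat_lit 0, nat_lit 0, [nat_lit 1100000, nat_lit 1442500], [nat_lit 31, nat_lit 40, nat_lit 20, nat_lit 80, nat_lit 3, nat_lit 215, nat_lit 10, nat_lit 9]⟩, C1.Rw.none,
 ⟨nat_lit 6304, nat_lit 6325, ⟨.ofNat (nat_lit 72651), .ofNat (nat_lit 80878), .ofNat (nat_lit 74788), .ofNat (nat_lit 83015), .ofNat (nat_lit 73604), .ofNat (nat_lit 81811), .ofNat (nat_lit 75740), .ofNat (nat_lit 83948)⟩, ⟨.ofNat (nat_lit 0), .ofNat (nat_lit 0), .ofNat (nat_lit 0), .ofNat (nat_lit 0), .ofNat (nat_lit 0), .ofNat (nat_lit 0), .ofNat (nat_lit 0), .ofNat (nat_lit 0)⟩⟩, [⟨nat_lit 0, nat_lit 100, nat_lit 98, nat_lit 14, nat_lit 400817106⟩]⟩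
noncomputable def p008_l2 : Lf2 := ⟨nat_lit 0, nat_lit 1, [nat_lit 19, nat_lit 5, nat_lit 5, nat_lit 20], true, nat_lit 0, nat_lit 0, nat_lit 0, nat_lit 0, ⟨nat_lit 0, nat_lit 0, nat_lit 1000, nat_lit 4, nat_lit 32, nat_lit 0, nat_lit 0, nat_lit 0, nat_lit 0, nat_lit 215, nat_lit 9600, nat_lit 239, nat_lit 66574911, nat_lit 0, nat_lit 0, nat_lit 191613, false, false⟩,
 nat_lit 0, nat_lit 7375, nat_lit 0, nat_lit 0, nat_lit 3904, nat_lit 0, nat_lit 650, nat_lit 0, nat_lit 0, nat_lit 0, nat_lit 0, nat_lit 0, nat_lit 0, nat_lit 0, nat_lit 10, nat_lit 1000000, nat_lit 0, nat_lit 0, [(nat_lit 6, [(nat_lit 6, nat_lit 1000)])],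
 ⟨p008_k1, nat_lit 0, nat_lit 0, nat_lit 0, nat_lit 0, nat_lit 174930, [nat_lit 1137066667, nat_lit 504400001, nat_lit 8000000], [], [nat_lit 13182960282, nat_lit 13239923215, nat_lit 13034054817, nat_lit 13091226423], nat_lit 1271250, nat_lit 1271250, nat_lit 0, nat_lit 21650, nat_lit 0, nat_lit 0, [nat_lit 1100000, nat_lit 1271250, nat_lit 1271250], [nat_lit 124, nat_lit 40, nat_lit 20, nat_lit 40]⟩, C1.Rw.none,
 ⟨nat_lit 6304, nat_lit 6325, ⟨.ofNat (nat_lit 74788), .ofNat (nat_lit 83015), .ofNat (nat_lit 75857), .ofNat (nat_lit 84083), .ofNat (nat_lit 75740), .ofNat (nat_lit 83948), .ofNat (nat_lit 76809), .ofNat (nat_lit 85016)⟩, ⟨.ofNat (nat_lit 0), .ofNat (nat_lit 0), .ofNat (nat_lit 0), .ofNat (nat_lit 0), .ofNat (nat_lit 0), .ofNat (nat_lit 0), .ofNat (nat_lit 0), .ofNat (nat_lit 0)⟩⟩, [⟨nat_lit 0, nat_lit 100, nat_lit 98, nat_lit 15, nat_lit 282225595⟩]⟩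
noncomputable def p008_l3 : Lf2 := ⟨nat_lit 0, nat_lit 1, [nat_lit 19, nat_lit 5, nat_lit 5, nat_lit 20], true, nat_lit 0, nat_lit 0, nat_lit 0, nat_lit 0, ⟨nat_lit 0, nat_lit 0, nat_lit 1000, nat_lit 4, nat_lit 32, nat_lit 0, nat_lit 0, nat_lit 0, nat_lit 0, nat_lit 215, nat_lit 9600, nat_lit 239, nat_lit 66574911, nat_lit 0, nat_lit 0, nat_lit 191613, false, false⟩,
 nat_lit 0, nat_lit 100000, nat_lit 0, nat_lit 0, nat_lit 52941, nat_lit 0, nat_lit 0, nat_lit 4291, nat_lit 0, nat_lit 0, nat_lit 0, nat_lit 0, nat_lit 0, nat_lit 0, nat_lit 0, nat_lit 1000000, nat_lit 0, nat_lit 0, [(nat_lit 6, [(nat_lit 6, nat_lit 1000)])],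
 ⟨p008_k0, nat_lit 0, nat_lit 0, nat_lit 283, nat_lit 0, nat_lit 174930, [nat_lit 69633066667, nat_lit 85628000000], [], [nat_lit 230437838995, nat_lit 229079748817, nat_lit 224986144227, nat_lit 224599653836], nat_lit 1271250, nat_lit 1271250, nat_lit 0, nat_lit 21650, nat_lit 0, nat_lit 0, [nat_lit 1100000, nat_lit 1442500], [nat_lit 31, nat_lit 40, nat_lit 20, nat_lit 80, nat_lit 3, nat_lit 215, nat_lit 10, nat_lit 9]⟩, C1.Rw.none,
 ⟨nat_lit 6304, nat_lit 6325, ⟨.ofNat (nat_lit 74788), .ofNat (nat_lit 83015), .ofNat (nat_lit 75857), .ofNat (nat_lit 84083), .ofNat (nat_lit 75740), .ofNat (nat_lit 83948), .ofNat (nat_lit 76809), .ofNat (nat_lit 85016)⟩, ⟨.ofNat (nat_lit 0), .ofNat (nat_lit 0), .ofNat (nat_lit 0), .ofNat (nat_lit 0), .ofNat (nat_lit 0), .ofNat (nat_lit 0), .ofNat (nat_lit 0), .ofNat (nat_lit 0)⟩⟩, [⟨nat_lit 0, nat_lit 100, nat_lit 98, nat_lit 14, nat_lit 8103327445⟩,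 ⟨nat_lit 0, nat_lit 100, nat_lit 98, nat_lit 14, nat_lit 10204081633⟩]⟩
noncomputable def p008_l4 : Lf2 := ⟨nat_lit 3, nat_lit 1, [nat_lit 19, nat_lit 5, nat_lit 5, nat_lit 20], false, nat_lit 0, nat_lit 0, nat_lit 0, nat_lit 0, zbN0,
 nat_lit 0, nat_lit 0, nat_lit 0, nat_lit 0, nat_lit 0, nat_lit 0, nat_lit 0, nat_lit 0, nat_lit 0, nat_lit 0, nat_lit 0, nat_lit 0, nat_lit 0, nat_lit 0, nat_lit 0, nat_lit 0, nat_lit 0, nat_lit 0, [],
 C1.Rw.none, ⟨p008_k2, nat_lit 0, nat_lit 0, nat_lit 428, nat_lit 0, nat_lit 234314, [], [], [], nat_lit 1271250, nat_lit 1271250, nat_lit 0, nat_lit 21650, nat_lit 0, nat_lit 0, [nat_lit 1695000, nat_lit 1271250], [nat_lit 77, nat_lit 40, nat_lit 20, nat_lit 80, nat_lit 17, nat_lit 260, nat_lit 50, nat_lit 8]⟩,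
 zbF0, []⟩
noncomputable def p008_l5 : Lf2 := ⟨nat_lit 0, nat_lit 1, [nat_lit 19, nat_lit 5, nat_lit 5, nat_lit 20], true, nat_lit 0, nat_lit 0, nat_lit 0, nat_lit 0, ⟨nat_lit 0, nat_lit 0, nat_lit 1000, nat_lit 4, nat_lit 32, nat_lit 0, nat_lit 0, nat_lit 0, nat_lit 0, nat_lit 215, nat_lit 9600, nat_lit 239, nat_lit 66563543, nat_lit 0, nat_lit 0, nat_lit 195929, false, false⟩,
 nat_lit 0, nat_lit 7375, nat_lit 0, nat_lit 0, nat_lit 3904, nat_lit 0, nat_lit 650, nat_lit 0, nat_lit 0, nat_lit 0, nat_lit 0, nat_lit 0, nat_lit 0, nat_lit 0, nat_lit 10, nat_lit 1000000, nat_lit 0, nat_lit 0, [(nat_lit 6, [(nat_lit 6, nat_lit 1000)])],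
 ⟨p008_k1, nat_lit 0, nat_lit 0, nat_lit 0, nat_lit 0, nat_lit 176939, [nat_lit 1137066667, nat_lit 504400001, nat_lit 8000000], [], [nat_lit 13182960282, nat_lit 13239923215, nat_lit 13034054817, nat_lit 13091226423], nat_lit 1271250, nat_lit 1271250, nat_lit 0, nat_lit 21650, nat_lit 0, nat_lit 0, [nat_lit 1100000, nat_lit 1271250, nat_lit 1271250], [nat_lit 124, nat_lit 40, nat_lit 20, nat_lit 40]⟩, C1.Rw.none,
 ⟨nat_lit 6304, nat_lit 6325, ⟨.ofNat (nat_lit 75857), .ofNat (nat_lit 84083), .ofNat (nat_lit 76925), .ofNat (nat_lit 85151), .ofNat (nat_lit 76809), .ofNat (nat_lit 85016), .ofNat (nat_lit 77877), .ofNat (nat_lit 86084)⟩, ⟨.ofNat (nat_lit 0), .ofNat (nat_lit 0), .ofNat (nat_lit 0), .ofNat (nat_lit 0), .ofNat (nat_lit 0), .ofNat (nat_lit 0), .ofNat (nat_lit 0), .ofNat (nat_lit 0)⟩⟩, [⟨nat_lit 0, nat_lit 100, nat_lit 98, nat_lit 15, nat_lit 282225595⟩]⟩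
noncomputable def p008_l6 : Lf2 := ⟨nat_lit 0, nat_lit 1, [nat_lit 19, nat_lit 5, nat_lit 5, nat_lit 20], true, nat_lit 0, nat_lit 0, nat_lit 0, nat_lit 0, ⟨nat_lit 0, nat_lit 0, nat_lit 1000, nat_lit 4, nat_lit 32, nat_lit 0, nat_lit 0, nat_lit 0, nat_lit 0, nat_lit 215, nat_lit 9600, nat_lit 239, nat_lit 66563543, nat_lit 0, nat_lit 0, nat_lit 195929, false, false⟩,
 nat_lit 0, nat_lit 100000, nat_lit 0, nat_lit 0, nat_lit 52941, nat_lit 0, nat_lit 0, nat_lit 4292, nat_lit 0, nat_lit 0, nat_lit 0, nat_lit 0, nat_lit 0, nat_lit 0, nat_lit 0, nat_lit 1000000, nat_lit 0, nat_lit 0, [(nat_lit 6, [(nat_lit 6, nat_lit 1000)])],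
 ⟨p008_k0, nat_lit 0, nat_lit 0, nat_lit 283, nat_lit 0, nat_lit 176939, [nat_lit 69649066667, nat_lit 85648000000], [], [nat_lit 230493838995, nat_lit 229135748817, nat_lit 225042144227, nat_lit 224675653836], nat_lit 1271250, nat_lit 1271250, nat_lit 0, nat_lit 21650, nat_lit 0, nat_lit 0, [nat_lit 1100000, nat_lit 1442500], [nat_lit 31, nat_lit 40, nat_lit 20, nat_lit 80, nat_lit 3, nat_lit 215, nat_lit 10, nat_lit 9]⟩, C1.Rw.none,
 ⟨nat_lit 6304, nat_lit 6325, ⟨.ofNat (nat_lit 75857), .ofNat (nat_lit 84083), .ofNat (nat_lit 76925), .ofNat (nat_lit 85151), .ofNat (nat_lit 76809), .ofNat (nat_lit 85016), .ofNat (nat_lit 77877), .ofNat (nat_lit 86084)⟩, ⟨.ofNat (nat_lit 0), .ofNat (nat_lit 0), .ofNat (nat_lit 0), .ofNat (nat_lit 0), .ofNat (nat_lit 0), .ofNat (nat_lit 0), .ofNat (nat_lit 0), .ofNat (nat_lit 0)⟩⟩, [⟨nat_lit 0, nat_lit 100, nat_lit 98, nat_lit 15, nat_lit 8132614068⟩,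 ⟨nat_lit 0, nat_lit 100, nat_lit 98, nat_lit 14, nat_lit 10204081633⟩]⟩
noncomputable def p008_l7 : Lf2 := ⟨nat_lit 3, nat_lit 1, [nat_lit 19, nat_lit 5, nat_lit 5, nat_lit 20], false, nat_lit 0, nat_lit 0, nat_lit 0, nat_lit 0, zbN0,
 nat_lit 0, nat_lit 0, nat_lit 0, nat_lit 0, nat_lit 0, nat_lit 0, nat_lit 0, nat_lit 0, nat_lit 0, nat_lit 0, nat_lit 0, nat_lit 0, nat_lit 0, nat_lit 0, nat_lit 0, nat_lit 0, nat_lit 0, nat_lit 0, [],
 C1.Rw.none, ⟨p008_k3, nat_lit 0, nat_lit 0, nat_lit 428, nat_lit 0, nat_lit 235551, [], [], [], nat_lit 1271250, nat_lit 1271250, nat_lit 0, nat_lit 21650, nat_lit 0, nat_lit 0, [nat_lit 1695000, nat_lit 1271250], [nat_lit 77, nat_lit 40, nat_lit 20, nat_lit 80, nat_lit 17, nat_lit 260, nat_lit 50, nat_lit 8]⟩,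
 zbF0, []⟩
noncomputable def p008_l8 : Lf2 := ⟨nat_lit 0, nat_lit 1, [nat_lit 19, nat_lit 5, nat_lit 5, nat_lit 20], true, nat_lit 0, nat_lit 0, nat_lit 0, nat_lit 0, ⟨nat_lit 0, nat_lit 0, nat_lit 1000, nat_lit 4, nat_lit 33, nat_lit 0, nat_lit 0, nat_lit 0, nat_lit 0, nat_lit 215, nat_lit 10417, nat_lit 240, nat_lit 66552029, nat_lit 0, nat_lit 0, nat_lit 200255, false, false⟩,
 nat_lit 0, nat_lit 7375, nat_lit 0, nat_lit 0, nat_lit 3904, nat_lit 0, nat_lit 650, nat_lit 0, nat_lit 0, nat_lit 0, nat_lit 0, nat_lit 0, nat_lit 0, nat_lit 0, nat_lit 10, nat_lit 1000000, nat_lit 0, nat_lit 0, [(nat_lit 6, [(nat_lit 6, nat_lit 1000)])],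
 ⟨p008_k1, nat_lit 0, nat_lit 0, nat_lit 0, nat_lit 0, nat_lit 178947, [nat_lit 1137066667, nat_lit 504400001, nat_lit 8000000], [], [nat_lit 13182960282, nat_lit 13239923215, nat_lit 13034054817, nat_lit 13091226423], nat_lit 1271250, nat_lit 1271250, nat_lit 0, nat_lit 21650, nat_lit 0, nat_lit 0, [nat_lit 1100000, nat_lit 1271250, nat_lit 1271250], [nat_lit 124, nat_lit 40, nat_lit 20, nat_lit 40]⟩, C1.Rw.none,
 ⟨nat_lit 6304, nat_lit 6325, ⟨.ofNat (nat_lit 76925), .ofNat (nat_lit 85151), .ofNat (nat_lit 77993), .ofNat (nat_lit 86220), .ofNat (nat_lit 77877), .ofNat (nat_lit 86084), .ofNat (nat_lit 78945), .ofNat (nat_lit 87153)⟩, ⟨.ofNat (nat_lit 0), .ofNat (nat_lit 0), .ofNat (nat_lit 0), .ofNat (nat_lit 0), .ofNat (nat_lit 0), .ofNat (nat_lit 0), .ofNat (nat_lit 0), .ofNat (nat_lit 0)⟩⟩, [⟨nat_lit 0, nat_lit 100, nat_lit 98, nat_lit 16, nat_lit 283077432⟩]⟩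
noncomputable def p008_l9 : Lf2 := ⟨nat_lit 0, nat_lit 1, [nat_lit 19, nat_lit 5, nat_lit 5, nat_lit 20], true, nat_lit 0, nat_lit 0, nat_lit 0, nat_lit 0, ⟨nat_lit 0, nat_lit 0, nat_lit 1000, nat_lit 4, nat_lit 33, nat_lit 0, nat_lit 0, nat_lit 0, nat_lit 0, nat_lit 215, nat_lit 10417, nat_lit 240, nat_lit 66552029, nat_lit 0, nat_lit 0, nat_lit 200255, false, false⟩,
 nat_lit 0, nat_lit 100000, nat_lit 0, nat_lit 0, nat_lit 52941, nat_lit 0, nat_lit 0, nat_lit 4294, nat_lit 0, nat_lit 0, nat_lit 0, nat_lit 0, nat_lit 0, nat_lit 0, nat_lit 0, nat_lit 1000000, nat_lit 0, nat_lit 0, [(nat_lit 6, [(nat_lit 6, nat_lit 1000)])],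
 ⟨p008_k0, nat_lit 0, nat_lit 0, nat_lit 283, nat_lit 0, nat_lit 178947, [nat_lit 69681066667, nat_lit 85688000000], [], [nat_lit 230605838995, nat_lit 229247748817, nat_lit 225154144227, nat_lit 224827653836], nat_lit 1271250, nat_lit 1271250, nat_lit 0, nat_lit 21650, nat_lit 0, nat_lit 0, [nat_lit 1100000, nat_lit 1442500], [nat_lit 31, nat_lit 40, nat_lit 20, nat_lit 80, nat_lit 3, nat_lit 215, nat_lit 10, nat_lit 9]⟩, C1.Rw.none,
 ⟨nat_lit 6304, nat_lit 6325, ⟨.ofNat (nat_lit 76925), .ofNat (nat_lit 85151), .ofNat (nat_lit 77993), .ofNat (nat_lit 86220), .ofNat (nat_lit 77877), .ofNat (nat_lit 86084), .ofNat (nat_lit 78945), .ofNat (nat_lit 87153)⟩, ⟨.ofNat (nat_lit 0), .ofNat (nat_lit 0), .ofNat (nat_lit 0), .ofNat (nat_lit 0), .ofNat (nat_lit 0), .ofNat (nat_lit 0), .ofNat (nat_lit 0), .ofNat (nat_lit 0)⟩⟩, [⟨nat_lit 0, nat_lit 100, nat_lit 98, nat_lit 15, nat_lit 8260534122⟩,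 ⟨nat_lit 0, nat_lit 100, nat_lit 98, nat_lit 15, nat_lit 10204081633⟩]⟩
noncomputable def p008_l10 : Lf2 := ⟨nat_lit 3, nat_lit 1, [nat_lit 19, nat_lit 5, nat_lit 5, nat_lit 20], false, nat_lit 0, nat_lit 0, nat_lit 0, nat_lit 0, zbN0,
 nat_lit 0, nat_lit 0, nat_lit 0, nat_lit 0, nat_lit 0, nat_lit 0, nat_lit 0, nat_lit 0, nat_lit 0, nat_lit 0, nat_lit 0, nat_lit 0, nat_lit 0, nat_lit 0, nat_lit 0, nat_lit 0, nat_lit 0, nat_lit 0, [],
 C1.Rw.none, ⟨p008_k4, nat_lit 0, nat_lit 0, nat_lit 429, nat_lit 0, nat_lit 236770, [], [], [], nat_lit 1271250, nat_lit 1271250, nat_lit 0, nat_lit 21650, nat_lit 0, nat_lit 0, [nat_lit 1695000, nat_lit 1271250], [nat_lit 77, nat_lit 40, nat_lit 20, nat_lit 80, nat_lit 17, nat_lit 260, nat_lit 50, nat_lit 8]⟩,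
 zbF0, []⟩
noncomputable def p008_l11 : Lf2 := ⟨nat_lit 0, nat_lit 1, [nat_lit 19, nat_lit 5, nat_lit 5, nat_lit 20], true, nat_lit 0, nat_lit 0, nat_lit 0, nat_lit 0, ⟨nat_lit 0, nat_lit 0, nat_lit 1000, nat_lit 4, nat_lit 35, nat_lit 0, nat_lit 0, nat_lit 0, nat_lit 0, nat_lit 215, nat_lit 11267, nat_lit 241, nat_lit 66496050, nat_lit 0, nat_lit 0, nat_lit 220997, false, false⟩,
 nat_lit 0, nat_lit 4429, nat_lit 0, nat_lit 0, nat_lit 2344, nat_lit 0, nat_lit 0, nat_lit 0, nat_lit 0, nat_lit 0, nat_lit 0, nat_lit 0, nat_lit 0, nat_lit 0, nat_lit 10, nat_lit 1000000, nat_lit 0, nat_lit 0, [(nat_lit 6, [(nat_lit 6, nat_lit 1000)])],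
 ⟨p008_k0, nat_lit 0, nat_lit 0, nat_lit 281, nat_lit 0, nat_lit 174930, [nat_lit 1137066667, nat_lit 8000000], [], [nat_lit 19003451000, nat_lit 18943409065, nat_lit 18762073381, nat_lit 18702119909], nat_lit 1271250, nat_lit 1271250, nat_lit 21650, nat_lit 43600, nat_lit 0, nat_lit 0, [nat_lit 1100000, nat_lit 1442500], [nat_lit 31, nat_lit 40, nat_lit 20, nat_lit 80, nat_lit 3, nat_lit 215, nat_lit 10, nat_lit 9]⟩, C1.Rw.none,
 ⟨nat_lit 6304, nat_lit 6325, ⟨.ofNat (nat_lit 80878), .ofNat (nat_lit 89104), .ofNat (nat_lit 84083), .ofNat (nat_lit 92309), .ofNat (nat_lit 81811), .ofNat (nat_lit 90019), .ofNat (nat_lit 85016), .ofNat (nat_lit 93223)⟩, ⟨.ofNat (nat_lit 0), .ofNat (nat_lit 0), .ofNat (nat_lit 0), .ofNat (nat_lit 0), .ofNat (nat_lit 0), .ofNat (nat_lit 0), .ofNat (nat_lit 0), .ofNat (nat_lit 0)⟩⟩, []⟩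
noncomputable def p008_l12 : Lf2 := ⟨nat_lit 0, nat_lit 1, [nat_lit 19, nat_lit 5, nat_lit 5, nat_lit 20], true, nat_lit 0, nat_lit 0, nat_lit 0, nat_lit 0, ⟨nat_lit 0, nat_lit 0, nat_lit 1000, nat_lit 4, nat_lit 36, nat_lit 0, nat_lit 0, nat_lit 0, nat_lit 0, nat_lit 215, nat_lit 12150, nat_lit 242, nat_lit 66471207, nat_lit 0, nat_lit 0, nat_lit 230037, false, false⟩,
 nat_lit 0, nat_lit 4433, nat_lit 0, nat_lit 0, nat_lit 2346, nat_lit 0, nat_lit 0, nat_lit 0, nat_lit 0, nat_lit 0, nat_lit 0, nat_lit 0, nat_lit 0, nat_lit 0, nat_lit 10, nat_lit 1000000, nat_lit 0, nat_lit 0, [(nat_lit 6, [(nat_lit 6, nat_lit 1000)])],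
 ⟨p008_k0, nat_lit 0, nat_lit 0, nat_lit 281, nat_lit 0, nat_lit 176939, [nat_lit 1137066667, nat_lit 8000000], [], [nat_lit 19002094663, nat_lit 18942001497, nat_lit 18760511090, nat_lit 18700506463], nat_lit 1271250, nat_lit 1271250, nat_lit 21650, nat_lit 43600, nat_lit 0, nat_lit 0, [nat_lit 1100000, nat_lit 1442500], [nat_lit 31, nat_lit 40, nat_lit 20, nat_lit 80, nat_lit 3, nat_lit 215, nat_lit 10, nat_lit 9]⟩, C1.Rw.none,
 ⟨nat_lit 6304, nat_lit 6325, ⟨.ofNat (nat_lit 84083), .ofNat (nat_lit 92309), .ofNat (nat_lit 85151), .ofNat (nat_lit 93378), .ofNat (nat_lit 85016), .ofNat (nat_lit 93223), .ofNat (nat_lit 86084), .ofNat (nat_lit 94292)⟩, ⟨.ofNat (nat_lit 0), .ofNat (nat_lit 0), .ofNat (nat_lit 0), .ofNat (nat_lit 0), .ofNat (nat_lit 0), .ofNat (nat_lit 0), .ofNat (nat_lit 0), .ofNat (nat_lit 0)⟩⟩, []⟩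
noncomputable def p008_l13 : Lf2 := ⟨nat_lit 0, nat_lit 1, [nat_lit 19, nat_lit 5, nat_lit 5, nat_lit 20], true, nat_lit 0, nat_lit 0, nat_lit 0, nat_lit 0, ⟨nat_lit 0, nat_lit 0, nat_lit 1000, nat_lit 4, nat_lit 36, nat_lit 0, nat_lit 0, nat_lit 0, nat_lit 0, nat_lit 215, nat_lit 12150, nat_lit 242, nat_lit 66458565, nat_lit 0, nat_lit 0, nat_lit 234605, false, false⟩,
 nat_lit 0, nat_lit 7488, nat_lit 0, nat_lit 0, nat_lit 3964, nat_lit 0, nat_lit 657, nat_lit 0, nat_lit 0, nat_lit 0, nat_lit 0, nat_lit 0, nat_lit 0, nat_lit 0, nat_lit 10, nat_lit 1000000, nat_lit 0, nat_lit 0, [(nat_lit 6, [(nat_lit 6, nat_lit 1000)])],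
 ⟨p008_k1, nat_lit 0, nat_lit 0, nat_lit 0, nat_lit 0, nat_lit 178947, [nat_lit 1137066667, nat_lit 504400001, nat_lit 8000000], [], [nat_lit 12933678318, nat_lit 12990940850, nat_lit 12781681268, nat_lit 12839256202], nat_lit 1271250, nat_lit 1271250, nat_lit 21650, nat_lit 43600, nat_lit 0, nat_lit 0, [nat_lit 1100000, nat_lit 1271250, nat_lit 1271250], [nat_lit 124, nat_lit 40, nat_lit 20, nat_lit 40]⟩, C1.Rw.none,
 ⟨nat_lit 6304, nat_lit 6325, ⟨.ofNat (nat_lit 85151), .ofNat (nat_lit 93378), .ofNat (nat_lit 86220), .ofNat (nat_lit 94446), .ofNat (nat_lit 86084), .ofNat (nat_lit 94292), .ofNat (nat_lit 87153), .ofNat (nat_lit 95360)⟩, ⟨.ofNat (nat_lit 0), .ofNat (nat_lit 0), .ofNat (nat_lit 0), .ofNat (nat_lit 0), .ofNat (nat_lit 0), .ofNat (nat_lit 0), .ofNat (nat_lit 0), .ofNat (nat_lit 0)⟩⟩, []⟩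
noncomputable def p008_l14 : Lf2 := ⟨nat_lit 0, nat_lit 1, [nat_lit 19, nat_lit 5, nat_lit 5, nat_lit 20], true, nat_lit 0, nat_lit 0, nat_lit 0, nat_lit 0, ⟨nat_lit 0, nat_lit 0, nat_lit 1000, nat_lit 4, nat_lit 36, nat_lit 0, nat_lit 0, nat_lit 0, nat_lit 0, nat_lit 215, nat_lit 12150, nat_lit 242, nat_lit 66458565, nat_lit 0, nat_lit 0, nat_lit 234605, false, false⟩,
 nat_lit 0, nat_lit 100000, nat_lit 0, nat_lit 0, nat_lit 52941, nat_lit 0, nat_lit 0, nat_lit 4166, nat_lit 0, nat_lit 0, nat_lit 0, nat_lit 0, nat_lit 0, nat_lit 0, nat_lit 0, nat_lit 1000000, nat_lit 0, nat_lit 0, [(nat_lit 6, [(nat_lit 6, nat_lit 1000)])],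
 ⟨p008_k0, nat_lit 0, nat_lit 0, nat_lit 281, nat_lit 0, nat_lit 178947, [nat_lit 67633066667, nat_lit 83128000000], [], [nat_lit 217986144227, nat_lit 216630052041, nat_lit 212544676373, nat_lit 212780285160], nat_lit 1271250, nat_lit 1271250, nat_lit 21650, nat_lit 43600, nat_lit 0, nat_lit 0, [nat_lit 1100000, nat_lit 1442500], [nat_lit 31, nat_lit 40, nat_lit 20, nat_lit 80, nat_lit 3, nat_lit 215, nat_lit 10, nat_lit 9]⟩, C1.Rw.none,
 ⟨nat_lit 6304, nat_lit 6325, ⟨.ofNat (nat_lit 85151), .ofNat (nat_lit 93378), .ofNat (nat_lit 86220), .ofNat (nat_lit 94446), .ofNat (nat_lit 86084), .ofNat (nat_lit 94292), .ofNat (nat_lit 87153), .ofNat (nat_lit 95360)⟩, ⟨.ofNat (nat_lit 0), .ofNat (nat_lit 0), .ofNat (nat_lit 0), .ofNat (nat_lit 0), .ofNat (nat_lit 0), .ofNat (nat_lit 0), .ofNat (nat_lit 0), .ofNat (nat_lit 0)⟩⟩, [⟨nat_lit 13, nat_lit 98, nat_lit 25, nat_lit 100, nat_lit 75298483⟩]⟩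
noncomputable def p008_l15 : Lf2 := ⟨nat_lit 3, nat_lit 1, [nat_lit 19, nat_lit 5, nat_lit 5, nat_lit 20], false, nat_lit 0, nat_lit 0, nat_lit 0, nat_lit 0, zbN0,
 nat_lit 0, nat_lit 0, nat_lit 0, nat_lit 0, nat_lit 0, nat_lit 0, nat_lit 0, nat_lit 0, nat_lit 0, nat_lit 0, nat_lit 0, nat_lit 0, nat_lit 0, nat_lit 0, nat_lit 0, nat_lit 0, nat_lit 0, nat_lit 0, [],
 C1.Rw.none, ⟨p008_k4, nat_lit 0, nat_lit 0, nat_lit 423, nat_lit 0, nat_lit 236770, [], [], [], nat_lit 1271250, nat_lit 1271250, nat_lit 21650, nat_lit 43600, nat_lit 0, nat_lit 0, [nat_lit 1695000, nat_lit 1271250], [nat_lit 77, nat_lit 40, nat_lit 20, nat_lit 80, nat_lit 17, nat_lit 260, nat_lit 50, nat_lit 8]⟩,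
 zbF0, []⟩
noncomputable def p008_l16 : Lf2 := ⟨nat_lit 0, nat_lit 1, [nat_lit 19, nat_lit 5, nat_lit 5, nat_lit 20], true, nat_lit 0, nat_lit 0, nat_lit 0, nat_lit 0, ⟨nat_lit 0, nat_lit 0, nat_lit 1000, nat_lit 4, nat_lit 32, nat_lit 0, nat_lit 0, nat_lit 0, nat_lit 0, nat_lit 215, nat_lit 9600, nat_lit 239, nat_lit 66576251, nat_lit 0, nat_lit 0, nat_lit 191108, false, false⟩,
 nat_lit 0, nat_lit 4433, nat_lit 0, nat_lit 0, nat_lit 2358, nat_lit 0, nat_lit 0, nat_lit 0, nat_lit 0, nat_lit 0, nat_lit 0, nat_lit 0, nat_lit 0, nat_lit 0, nat_lit 10, nat_lit 1000000, nat_lit 0, nat_lit 0, [(nat_lit 6, [(nat_lit 6, nat_lit 1000)])],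
 ⟨p008_k5, nat_lit 0, nat_lit 0, nat_lit 283, nat_lit 0, nat_lit 178743, [nat_lit 1137066667, nat_lit 8000000], [], [nat_lit 19176286393, nat_lit 19115796855, nat_lit 18933556090, nat_lit 18873155543], nat_lit 1271250, nat_lit 1271250, nat_lit 0, nat_lit 21650, nat_lit 0, nat_lit 0, [nat_lit 1100000, nat_lit 1442500], [nat_lit 31, nat_lit 40, nat_lit 20, nat_lit 80, nat_lit 3, nat_lit 215, nat_lit 10, nat_lit 9]⟩, C1.Rw.none,
 ⟨nat_lit 6284, nat_lit 6305, ⟨.ofNat (nat_lit 73604), .ofNat (nat_lit 81811), .ofNat (nat_lit 76809), .ofNat (nat_lit 85016), .ofNat (nat_lit 74554), .ofNat (nat_lit 82742), .ofNat (nat_lit 77758), .ofNat (nat_lit 85947)⟩, ⟨.ofNat (nat_lit 0), .ofNat (nat_lit 0), .ofNat (nat_lit 0), .ofNat (nat_lit 0), .ofNat (nat_lit 0), .ofNat (nat_lit 0), .ofNat (nat_lit 0), .ofNat (nat_lit 0)⟩⟩, [⟨nat_lit 0, nat_lit 100, nat_lit 98, nat_lit 15, nat_lit 402334546⟩]⟩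
noncomputable def p008_l17 : Lf2 := ⟨nat_lit 0, nat_lit 1, [nat_lit 19, nat_lit 5, nat_lit 5, nat_lit 20], true, nat_lit 0, nat_lit 0, nat_lit 0, nat_lit 0, ⟨nat_lit 0, nat_lit 0, nat_lit 1000, nat_lit 4, nat_lit 33, nat_lit 0, nat_lit 0, nat_lit 0, nat_lit 0, nat_lit 215, nat_lit 10417, nat_lit 240, nat_lit 66553404, nat_lit 0, nat_lit 0, nat_lit 199742, false, false⟩,
 nat_lit 0, nat_lit 4437, nat_lit 0, nat_lit 0, nat_lit 2360, nat_lit 0, nat_lit 0, nat_lit 0, nat_lit 0, nat_lit 0, nat_lit 0, nat_lit 0, nat_lit 0, nat_lit 0, nat_lit 10, nat_lit 1000000, nat_lit 0, nat_lit 0, [(nat_lit 6, [(nat_lit 6, nat_lit 1000)])],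
 ⟨p008_k5, nat_lit 0, nat_lit 0, nat_lit 283, nat_lit 0, nat_lit 180722, [nat_lit 1137066667, nat_lit 8000000], [], [nat_lit 19175084703, nat_lit 19114543859, nat_lit 18932148522, nat_lit 18871696744], nat_lit 1271250, nat_lit 1271250, nat_lit 0, nat_lit 21650, nat_lit 0, nat_lit 0, [nat_lit 1100000, nat_lit 1442500], [nat_lit 31, nat_lit 40, nat_lit 20, nat_lit 80, nat_lit 3, nat_lit 215, nat_lit 10, nat_lit 9]⟩, C1.Rw.none,
 ⟨nat_lit 6284, nat_lit 6305, ⟨.ofNat (nat_lit 76809), .ofNat (nat_lit 85016), .ofNat (nat_lit 77877), .ofNat (nat_lit 86084), .ofNat (nat_lit 77758), .ofNat (nat_lit 85947), .ofNat (nat_lit 78827), .ofNat (nat_lit 87015)⟩, ⟨.ofNat (nat_lit 0), .ofNat (nat_lit 0), .ofNat (nat_lit 0), .ofNat (nat_lit 0), .ofNat (nat_lit 0), .ofNat (nat_lit 0), .ofNat (nat_lit 0), .ofNat (nat_lit 0)⟩⟩, [⟨nat_lit 0, nat_lit 100, nat_lit 98, nat_lit 15, nat_lit 403441627⟩]⟩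
noncomputable def p008_l18 : Lf2 := ⟨nat_lit 0, nat_lit 1, [nat_lit 19, nat_lit 5, nat_lit 5, nat_lit 20], true, nat_lit 0, nat_lit 0, nat_lit 0, nat_lit 0, ⟨nat_lit 0, nat_lit 0, nat_lit 1000, nat_lit 4, nat_lit 33, nat_lit 0, nat_lit 0, nat_lit 0, nat_lit 0, nat_lit 215, nat_lit 10417, nat_lit 240, nat_lit 66541761, nat_lit 0, nat_lit 0, nat_lit 204095, false, false⟩,
 nat_lit 0, nat_lit 7306, nat_lit 0, nat_lit 0, nat_lit 3886, nat_lit 0, nat_lit 685, nat_lit 0, nat_lit 0, nat_lit 0, nat_lit 0, nat_lit 0, nat_lit 0, nat_lit 0, nat_lit 10, nat_lit 1000000, nat_lit 0, nat_lit 0, [(nat_lit 6, [(nat_lit 6, nat_lit 1000)])],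
 ⟨p008_k6, nat_lit 0, nat_lit 0, nat_lit 0, nat_lit 0, nat_lit 182700, [nat_lit 1137066667, nat_lit 504400001, nat_lit 8000000], [], [nat_lit 13247547187, nat_lit 13306625219, nat_lit 13099913719, nat_lit 13158905595], nat_lit 1271250, nat_lit 1271250, nat_lit 0, nat_lit 21650, nat_lit 0, nat_lit 0, [nat_lit 1100000, nat_lit 1271250, nat_lit 1271250], [nat_lit 124, nat_lit 40, nat_lit 20, nat_lit 40]⟩, C1.Rw.none,
 ⟨nat_lit 6284, nat_lit 6305, ⟨.ofNat (nat_lit 77877), .ofNat (nat_lit 86084), .ofNat (nat_lit 78945), .ofNat (nat_lit 87153), .ofNat (nat_lit 78827), .ofNat (nat_lit 87015), .ofNat (nat_lit 79895), .ofNat (nat_lit 88083)⟩, ⟨.ofNat (nat_lit 0), .ofNat (nat_lit 0), .ofNat (nat_lit 0), .ofNat (nat_lit 0), .ofNat (nat_lit 0), .ofNat (nat_lit 0), .ofNat (nat_lit 0), .ofNat (nat_lit 0)⟩⟩, [⟨nat_lit 0, nat_lit 100, nat_lit 98, nat_lit 16, nat_lit 281531976⟩]⟩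
noncomputable def p008_l19 : Lf2 := ⟨nat_lit 0, nat_lit 1, [nat_lit 19, nat_lit 5, nat_lit 5, nat_lit 20], true, nat_lit 0, nat_lit 0, nat_lit 0, nat_lit 0, ⟨nat_lit 0, nat_lit 0, nat_lit 1000, nat_lit 4, nat_lit 33, nat_lit 0, nat_lit 0, nat_lit 0, nat_lit 0, nat_lit 215, nat_lit 10417, nat_lit 240, nat_lit 66541761, nat_lit 0, nat_lit 0, nat_lit 204095, false, false⟩,
 nat_lit 0, nat_lit 100000, nat_lit 0, nat_lit 0, nat_lit 53200, nat_lit 0, nat_lit 0, nat_lit 4241, nat_lit 0, nat_lit 0, nat_lit 0, nat_lit 0, nat_lit 0, nat_lit 0, nat_lit 0, nat_lit 1000000, nat_lit 0, nat_lit 0, [(nat_lit 6, [(nat_lit 6, nat_lit 1000)])],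
 ⟨p008_k5, nat_lit 0, nat_lit 0, nat_lit 283, nat_lit 0, nat_lit 182700, [nat_lit 68833066667, nat_lit 84628000000], [], [nat_lit 226124129988, nat_lit 224759395707, nat_lit 220647771995, nat_lit 220424051571], nat_lit 1271250, nat_lit 1271250, nat_lit 0, nat_lit 21650, nat_lit 0, nat_lit 0, [nat_lit 1100000, nat_lit 1442500], [nat_lit 31, nat_lit 40, nat_lit 20, nat_lit 80, nat_lit 3, nat_lit 215, nat_lit 10, nat_lit 9]⟩, C1.Rw.none,
 ⟨nat_lit 6284, nat_lit 6305, ⟨.ofNat (nat_lit 77877), .ofNat (nat_lit 86084), .ofNat (nat_lit 78945), .ofNat (nat_lit 87153), .ofNat (nat_lit 78827), .ofNat (nat_lit 87015), .ofNat (nat_lit 79895), .ofNat (nat_lit 88083)⟩, ⟨.ofNat (nat_lit 0), .ofNat (nat_lit 0), .ofNat (nat_lit 0), .ofNat (nat_lit 0), .ofNat (nat_lit 0), .ofNat (nat_lit 0), .ofNat (nat_lit 0), .ofNat (nat_lit 0)⟩⟩, [⟨nat_lit 0, nat_lit 100, nat_lit 98, nat_lit 16, nat_lit 976823906⟩,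 ⟨nat_lit 0, nat_lit 100, nat_lit 98, nat_lit 16, nat_lit 10204081633⟩, ⟨nat_lit 0, nat_lit 100, nat_lit 98, nat_lit 15, nat_lit 10204081633⟩]⟩
noncomputable def p008_l20 : Lf2 := ⟨nat_lit 3, nat_lit 1, [nat_lit 19, nat_lit 5, nat_lit 5, nat_lit 20], false, nat_lit 0, nat_lit 0, nat_lit 0, nat_lit 0, zbN0,
 nat_lit 0, nat_lit 0, nat_lit 0, nat_lit 0, nat_lit 0, nat_lit 0, nat_lit 0, nat_lit 0, nat_lit 0, nat_lit 0, nat_lit 0, nat_lit 0, nat_lit 0, nat_lit 0, nat_lit 0, nat_lit 0, nat_lit 0, nat_lit 0, [],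
 C1.Rw.none, ⟨p008_k4, nat_lit 0, nat_lit 0, nat_lit 431, nat_lit 0, nat_lit 242938, [], [], [], nat_lit 1271250, nat_lit 1271250, nat_lit 0, nat_lit 21650, nat_lit 0, nat_lit 0, [nat_lit 1695000, nat_lit 1271250], [nat_lit 77, nat_lit 40, nat_lit 20, nat_lit 80, nat_lit 17, nat_lit 260, nat_lit 50, nat_lit 8]⟩,
 zbF0, []⟩
noncomputable def p008_l21 : Lf2 := ⟨nat_lit 0, nat_lit 1, [nat_lit 19, nat_lit 5, nat_lit 5, nat_lit 20], true, nat_lit 0, nat_lit 0, nat_lit 0, nat_lit 0, ⟨nat_lit 0, nat_lit 0, nat_lit 1000, nat_lit 4, nat_lit 36, nat_lit 0, nat_lit 0, nat_lit 0, nat_lit 0, nat_lit 215, nat_lit 12150, nat_lit 242, nat_lit 66472919, nat_lit 0, nat_lit 0, nat_lit 229419, false, false⟩,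
 nat_lit 0, nat_lit 11018, nat_lit 0, nat_lit 0, nat_lit 5861, nat_lit 0, nat_lit 1576, nat_lit 0, nat_lit 0, nat_lit 0, nat_lit 0, nat_lit 0, nat_lit 0, nat_lit 0, nat_lit 10, nat_lit 1000000, nat_lit 0, nat_lit 0, [(nat_lit 6, [(nat_lit 6, nat_lit 1000)])],
 ⟨p008_k5, nat_lit 0, nat_lit 0, nat_lit 281, nat_lit 0, nat_lit 182700, [nat_lit 1137066667, nat_lit 8000000], [], [nat_lit 16359850878, nat_lit 16351491920, nat_lit 15756525047, nat_lit 15809641047], nat_lit 1271250, nat_lit 1271250, nat_lit 21650, nat_lit 43600, nat_lit 0, nat_lit 0, [nat_lit 1100000, nat_lit 1442500], [nat_lit 31, nat_lit 40, nat_lit 20, nat_lit 80, nat_lit 3, nat_lit 215, nat_lit 10, nat_lit 9]⟩, C1.Rw.none,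
 ⟨nat_lit 6284, nat_lit 6305, ⟨.ofNat (nat_lit 81811), .ofNat (nat_lit 90019), .ofNat (nat_lit 87153), .ofNat (nat_lit 95360), .ofNat (nat_lit 82742), .ofNat (nat_lit 90931), .ofNat (nat_lit 88083), .ofNat (nat_lit 96272)⟩, ⟨.ofNat (nat_lit 0), .ofNat (nat_lit 0), .ofNat (nat_lit 0), .ofNat (nat_lit 0), .ofNat (nat_lit 0), .ofNat (nat_lit 0), .ofNat (nat_lit 0), .ofNat (nat_lit 0)⟩⟩, []⟩
noncomputable def p008_l22 : Lf2 := ⟨nat_lit 0, nat_lit 1, [nat_lit 19, nat_lit 5, nat_lit 5, nat_lit 20], true, nat_lit 0, nat_lit 0, nat_lit 0, nat_lit 0, ⟨nat_lit 0, nat_lit 0, nat_lit 1000, nat_lit 4, nat_lit 34, nat_lit 0, nat_lit 0, nat_lit 0, nat_lit 0, nat_lit 215, nat_lit 11267, nat_lit 241, nat_lit 66509499, nat_lit 0, nat_lit 0, nat_lit 216057, false, false⟩,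
 nat_lit 0, nat_lit 10647, nat_lit 0, nat_lit 0, nat_lit 5691, nat_lit 0, nat_lit 1485, nat_lit 0, nat_lit 0, nat_lit 0, nat_lit 0, nat_lit 0, nat_lit 0, nat_lit 0, nat_lit 10, nat_lit 1000000, nat_lit 0, nat_lit 0, [(nat_lit 6, [(nat_lit 6, nat_lit 1000)])],
 ⟨p008_k7, nat_lit 0, nat_lit 0, nat_lit 283, nat_lit 0, nat_lit 186463, [nat_lit 1137066667, nat_lit 8000000], [], [nat_lit 16804929688, nat_lit 16706573584, nat_lit 15633706863, nat_lit 15656349084], nat_lit 1271250, nat_lit 1271250, nat_lit 0, nat_lit 43600, nat_lit 0, nat_lit 0, [nat_lit 1100000, nat_lit 1442500], [nat_lit 31, nat_lit 40, nat_lit 20, nat_lit 80, nat_lit 3, nat_lit 215, nat_lit 10, nat_lit 9]⟩, C1.Rw.none,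
 ⟨nat_lit 6264, nat_lit 6285, ⟨.ofNat (nat_lit 74554), .ofNat (nat_lit 90931), .ofNat (nat_lit 79895), .ofNat (nat_lit 96272), .ofNat (nat_lit 75502), .ofNat (nat_lit 91841), .ofNat (nat_lit 80842), .ofNat (nat_lit 97181)⟩, ⟨.ofNat (nat_lit 0), .ofNat (nat_lit 0), .ofNat (nat_lit 0), .ofNat (nat_lit 0), .ofNat (nat_lit 0), .ofNat (nat_lit 0), .ofNat (nat_lit 0), .ofNat (nat_lit 0)⟩⟩, [⟨nat_lit 0, nat_lit 100, nat_lit 98, nat_lit 17, nat_lit 840213590⟩]⟩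
noncomputable def p008_l23 : Lf2 := ⟨nat_lit 0, nat_lit 1, [nat_lit 19, nat_lit 5, nat_lit 5, nat_lit 20], true, nat_lit 0, nat_lit 0, nat_lit 0, nat_lit 0, ⟨nat_lit 0, nat_lit 0, nat_lit 1000, nat_lit 4, nat_lit 35, nat_lit 0, nat_lit 0, nat_lit 0, nat_lit 0, nat_lit 215, nat_lit 11267, nat_lit 241, nat_lit 66493607, nat_lit 0, nat_lit 0, nat_lit 221886, false, false⟩,
 nat_lit 0, nat_lit 10260, nat_lit 0, nat_lit 0, nat_lit 5511, nat_lit 0, nat_lit 1393, nat_lit 0, nat_lit 0, nat_lit 0, nat_lit 0, nat_lit 0, nat_lit 0, nat_lit 0, nat_lit 10, nat_lit 1000000, nat_lit 0, nat_lit 0, [(nat_lit 6, [(nat_lit 6, nat_lit 1000)])],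
 ⟨p008_k8, nat_lit 0, nat_lit 0, nat_lit 283, nat_lit 0, nat_lit 194828, [nat_lit 1137066667, nat_lit 8000000], [], [nat_lit 16685651160, nat_lit 16616566608, nat_lit 15551888781, nat_lit 15601972553], nat_lit 1271250, nat_lit 1271250, nat_lit 0, nat_lit 43600, nat_lit 0, nat_lit 0, [nat_lit 1100000, nat_lit 1442500], [nat_lit 31, nat_lit 40, nat_lit 20, nat_lit 80, nat_lit 3, nat_lit 215, nat_lit 10, nat_lit 9]⟩, C1.Rw.none,
 ⟨nat_lit 6224, nat_lit 6265, ⟨.ofNat (nat_lit 75502), .ofNat (nat_lit 91841), .ofNat (nat_lit 80842), .ofNat (nat_lit 97181), .ofNat (nat_lit 77393), .ofNat (nat_lit 93656), .ofNat (nat_lit 82732), .ofNat (nat_lit 98995)⟩, ⟨.ofNat (nat_lit 0), .ofNat (nat_lit 0), .ofNat (nat_lit 0), .ofNat (nat_lit 0), .ofNat (nat_lit 0), .ofNat (nat_lit 0), .ofNat (nat_lit 0), .ofNat (nat_lit 0)⟩⟩, [⟨nat_lit 0, nat_lit 100, nat_lit 98, nat_lit 16, nat_lit 816245506⟩]⟩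
noncomputable def p008_l24 : Lf2 := ⟨nat_lit 0, nat_lit 1, [nat_lit 19, nat_lit 5, nat_lit 5, nat_lit 20], true, nat_lit 0, nat_lit 0, nat_lit 0, nat_lit 0, ⟨nat_lit 0, nat_lit 0, nat_lit 1000, nat_lit 4, nat_lit 41, nat_lit 0, nat_lit 0, nat_lit 0, nat_lit 0, nat_lit 215, nat_lit 16017, nat_lit 246, nat_lit 66287865, nat_lit 0, nat_lit 0, nat_lit 294169, false, false⟩,
 nat_lit 0, nat_lit 10919, nat_lit 0, nat_lit 0, nat_lit 5780, nat_lit 0, nat_lit 0, nat_lit 0, nat_lit 0, nat_lit 0, nat_lit 0, nat_lit 0, nat_lit 0, nat_lit 0, nat_lit 10, nat_lit 1000000, nat_lit 0, nat_lit 0, [(nat_lit 6, [(nat_lit 6, nat_lit 1000)])],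
 ⟨p008_k0, nat_lit 0, nat_lit 0, nat_lit 281, nat_lit 0, nat_lit 197738, [nat_lit 1137066667, nat_lit 8000000], [], [nat_lit 16078057099, nat_lit 16049149653, nat_lit 14292439387, nat_lit 14448390620], nat_lit 1271250, nat_lit 1271250, nat_lit 43600, nat_lit 111251, nat_lit 0, nat_lit 0, [nat_lit 1100000, nat_lit 1442500], [nat_lit 31, nat_lit 40, nat_lit 20, nat_lit 80, nat_lit 3, nat_lit 215, nat_lit 10, nat_lit 9]⟩, C1.Rw.none,
 ⟨nat_lit 6224, nat_lit 6325, ⟨.ofNat (nat_lit 83762), .ofNat (nat_lit 108442), .ofNat (nat_lit 94446), .ofNat (nat_lit 119125), .ofNat (nat_lit 88317), .ofNat (nat_lit 112712), .ofNat (nat_lit 98995), .ofNat (nat_lit 123391)⟩, ⟨.ofNat (nat_lit 0), .ofNat (nat_lit 0), .ofNat (nat_lit 0), .ofNat (nat_lit 0), .ofNat (nat_lit 0), .ofNat (nat_lit 0), .ofNat (nat_lit 0), .ofNat (nat_lit 0)⟩⟩, []⟩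
noncomputable def p008_l25 : Lf2 := ⟨nat_lit 0, nat_lit 2, [nat_lit 10, nat_lit 5, nat_lit 5, nat_lit 20], true, nat_lit 0, nat_lit 0, nat_lit 0, nat_lit 0, ⟨nat_lit 0, nat_lit 0, nat_lit 1000, nat_lit 4, nat_lit 38, nat_lit 0, nat_lit 0, nat_lit 0, nat_lit 0, nat_lit 215, nat_lit 14017, nat_lit 244, nat_lit 66394848, nat_lit 0, nat_lit 0, nat_lit 257264, false, false⟩,
 nat_lit 0, nat_lit 7640, nat_lit 0, nat_lit 0, nat_lit 4044, nat_lit 0, nat_lit 41, nat_lit 0, nat_lit 0, nat_lit 0, nat_lit 0, nat_lit 0, nat_lit 0, nat_lit 0, nat_lit 80, nat_lit 1000000, nat_lit 0, nat_lit 0, [(nat_lit 6, [(nat_lit 6, nat_lit 1000)])],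
 ⟨p008_k9, nat_lit 0, nat_lit 0, nat_lit 281, nat_lit 0, nat_lit 155411, [nat_lit 2257066667, nat_lit 1408000000, nat_lit 211200000], [], [nat_lit 13752622219, nat_lit 13893381662, nat_lit 13915031499, nat_lit 13400145375], nat_lit 1271250, nat_lit 1271250, nat_lit 0, nat_lit 111251, nat_lit 0, nat_lit 0, [nat_lit 1100000, nat_lit 1442500, nat_lit 1271250], [nat_lit 9, nat_lit 40, nat_lit 20, nat_lit 80, nat_lit 2, nat_lit 215, nat_lit 10, nat_lit 8]⟩, C1.Rw.none,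
 ⟨nat_lit 6224, nat_lit 6325, ⟨.ofNat (nat_lit 67309), .ofNat (nat_lit 108442), .ofNat (nat_lit 77993), .ofNat (nat_lit 119125), .ofNat (nat_lit 72053), .ofNat (nat_lit 112712), .ofNat (nat_lit 82732), .ofNat (nat_lit 123391)⟩, ⟨.ofNat (nat_lit 0), .ofNat (nat_lit 0), .ofNat (nat_lit 0), .ofNat (nat_lit 0), .ofNat (nat_lit 0), .ofNat (nat_lit 0), .ofNat (nat_lit 0), .ofNat (nat_lit 0)⟩⟩, [⟨nat_lit 0, nat_lit 100, nat_lit 98, nat_lit 18, nat_lit 53259030⟩]⟩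
noncomputable def p008_l26 : Lf2 := ⟨nat_lit 0, nat_lit 2, [nat_lit 10, nat_lit 5, nat_lit 5, nat_lit 20], true, nat_lit 0, nat_lit 0, nat_lit 0, nat_lit 0, ⟨nat_lit 0, nat_lit 0, nat_lit 1000, nat_lit 4, nat_lit 42, nat_lit 0, nat_lit 0, nat_lit 0, nat_lit 0, nat_lit 215, nat_lit 17067, nat_lit 247, nat_lit 66253457, nat_lit 0, nat_lit 0, nat_lit 305768, false, false⟩,
 nat_lit 0, nat_lit 4367, nat_lit 0, nat_lit 0, nat_lit 2311, nat_lit 0, nat_lit 0, nat_lit 0, nat_lit 93, nat_lit 0, nat_lit 0, nat_lit 0, nat_lit 0, nat_lit 0, nat_lit 80, nat_lit 1000000, nat_lit 0, nat_lit 0, [(nat_lit 6, [(nat_lit 6, nat_lit 1000)])],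
 ⟨p008_k9, nat_lit 0, nat_lit 0, nat_lit 0, nat_lit 0, nat_lit 224417, [nat_lit 2257066667, nat_lit 1408000000, nat_lit 211200000], [], [nat_lit 10327155018, nat_lit 10671517008, nat_lit 9870178651, nat_lit 10166090834], nat_lit 1271250, nat_lit 1271250, nat_lit 0, nat_lit 111251, nat_lit 0, nat_lit 0, [nat_lit 1100000, nat_lit 1442500, nat_lit 1271250], [nat_lit 9, nat_lit 40, nat_lit 20, nat_lit 80]⟩, C1.Rw.none,
 ⟨nat_lit 6224, nat_lit 6325, ⟨.ofNat (nat_lit 77993), .ofNat (nat_lit 119125), .ofNat (nat_lit 88677), .ofNat (nat_lit 129809), .ofNat (nat_lit 82732), .ofNat (nat_lit 123391), .ofNat (nat_lit 93410), .ofNat (nat_lit 134069)⟩, ⟨.ofNat (nat_lit 0), .ofNat (nat_lit 0), .ofNat (nat_lit 0), .ofNat (nat_lit 0), .ofNat (nat_lit 0), .ofNat (nat_lit 0), .ofNat (nat_lit 0), .ofNat (nat_lit 0)⟩⟩, [⟨nat_lit 0, nat_lit 100, nat_lit 98, nat_lit 19, nat_lit 214203133⟩]⟩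
noncomputable def p008_l27 : Lf2 := ⟨nat_lit 0, nat_lit 1, [nat_lit 19, nat_lit 5, nat_lit 5, nat_lit 20], true, nat_lit 0, nat_lit 0, nat_lit 0, nat_lit 0, ⟨nat_lit 0, nat_lit 0, nat_lit 1000, nat_lit 4, nat_lit 42, nat_lit 0, nat_lit 0, nat_lit 0, nat_lit 0, nat_lit 215, nat_lit 17067, nat_lit 247, nat_lit 66265885, nat_lit 0, nat_lit 0, nat_lit 301593, false, false⟩,
 nat_lit 0, nat_lit 8378, nat_lit 0, nat_lit 0, nat_lit 4435, nat_lit 0, nat_lit 937, nat_lit 0, nat_lit 0, nat_lit 0, nat_lit 0, nat_lit 0, nat_lit 0, nat_lit 0, nat_lit 10, nat_lit 1000000, nat_lit 0, nat_lit 0, [(nat_lit 6, [(nat_lit 6, nat_lit 1000)])],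
 ⟨p008_k1, nat_lit 0, nat_lit 0, nat_lit 0, nat_lit 0, nat_lit 211079, [nat_lit 1137066667, nat_lit 504400001, nat_lit 8000000], [], [nat_lit 12316639229, nat_lit 12505010340, nat_lit 11484545389, nat_lit 11624281678], nat_lit 1271250, nat_lit 1271250, nat_lit 0, nat_lit 111251, nat_lit 0, nat_lit 0, [nat_lit 1100000, nat_lit 1271250, nat_lit 1271250], [nat_lit 124, nat_lit 40, nat_lit 20, nat_lit 40]⟩, C1.Rw.none,
 ⟨nat_lit 6264, nat_lit 6325, ⟨.ofNat (nat_lit 77993), .ofNat (nat_lit 119125), .ofNat (nat_lit 88677), .ofNat (nat_lit 129809), .ofNat (nat_lit 80842), .ofNat (nat_lit 121690), .ofNat (nat_lit 91523), .ofNat (nat_lit 132370)⟩, ⟨.ofNat (nat_lit 0), .ofNat (nat_lit 0), .ofNat (nat_lit 0), .ofNat (nat_lit 0), .ofNat (nat_lit 0), .ofNat (nat_lit 0), .ofNat (nat_lit 0), .ofNat (nat_lit 0)⟩⟩, [⟨nat_lit 0, nat_lit 100, nat_lit 98, nat_lit 21, nat_lit 320829433⟩]⟩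
noncomputable def p008_l28 : Lf2 := ⟨nat_lit 0, nat_lit 2, [nat_lit 10, nat_lit 5, nat_lit 5, nat_lit 20], true, nat_lit 0, nat_lit 0, nat_lit 0, nat_lit 0, ⟨nat_lit 0, nat_lit 0, nat_lit 1000, nat_lit 4, nat_lit 42, nat_lit 0, nat_lit 0, nat_lit 0, nat_lit 0, nat_lit 215, nat_lit 17067, nat_lit 247, nat_lit 66265885, nat_lit 0, nat_lit 0, nat_lit 301593, false, false⟩,
 nat_lit 0, nat_lit 8734, nat_lit 0, nat_lit 0, nat_lit 4623, nat_lit 0, nat_lit 710, nat_lit 0, nat_lit 0, nat_lit 0, nat_lit 0, nat_lit 0, nat_lit 0, nat_lit 0, nat_lit 80, nat_lit 1000000, nat_lit 0, nat_lit 0, [(nat_lit 6, [(nat_lit 6, nat_lit 1000)])],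
 ⟨p008_k9, nat_lit 0, nat_lit 0, nat_lit 0, nat_lit 0, nat_lit 169163, [nat_lit 2257066667, nat_lit 1408000000, nat_lit 211200000], [], [nat_lit 12901381051, nat_lit 12964924383, nat_lit 13023329811, nat_lit 12670166822], nat_lit 1271250, nat_lit 1271250, nat_lit 0, nat_lit 111251, nat_lit 0, nat_lit 0, [nat_lit 1100000, nat_lit 1442500, nat_lit 1271250], [nat_lit 9, nat_lit 40, nat_lit 20, nat_lit 80]⟩, C1.Rw.none,
 ⟨nat_lit 6264, nat_lit 6325, ⟨.ofNat (nat_lit 77993), .ofNat (nat_lit 119125), .ofNat (nat_lit 88677), .ofNat (nat_lit 129809), .ofNat (nat_lit 80842), .ofNat (nat_lit 121690), .ofNat (nat_lit 91523), .ofNat (nat_lit 132370)⟩, ⟨.ofNat (nat_lit 0), .ofNat (nat_lit 0), .ofNat (nat_lit 0), .ofNat (nat_lit 0), .ofNat (nat_lit 0), .ofNat (nat_lit 0), .ofNat (nat_lit 0), .ofNat (nat_lit 0)⟩⟩, [⟨nat_lit 0, nat_lit 100, nat_lit 98, nat_lit 21, nat_lit 66485504⟩]⟩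
noncomputable def p008_l29 : Lf2 := ⟨nat_lit 0, nat_lit 1, [nat_lit 19, nat_lit 5, nat_lit 5, nat_lit 20], true, nat_lit 0, nat_lit 0, nat_lit 0, nat_lit 0, ⟨nat_lit 0, nat_lit 0, nat_lit 1000, nat_lit 4, nat_lit 43, nat_lit 0, nat_lit 0, nat_lit 0, nat_lit 0, nat_lit 215, nat_lit 17067, nat_lit 247, nat_lit 66234529, nat_lit 0, nat_lit 0, nat_lit 312094, false, false⟩,
 nat_lit 0, nat_lit 8166, nat_lit 0, nat_lit 0, nat_lit 4386, nat_lit 0, nat_lit 885, nat_lit 0, nat_lit 0, nat_lit 0, nat_lit 0, nat_lit 0, nat_lit 0, nat_lit 0, nat_lit 10, nat_lit 1000000, nat_lit 0, nat_lit 0, [(nat_lit 6, [(nat_lit 6, nat_lit 1000)])],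
 ⟨p008_k10, nat_lit 0, nat_lit 0, nat_lit 0, nat_lit 0, nat_lit 216942, [nat_lit 1137066667, nat_lit 504400001, nat_lit 8000000], [], [nat_lit 12492045594, nat_lit 12621620061, nat_lit 11622089327, nat_lit 11750705418], nat_lit 1271250, nat_lit 1271250, nat_lit 0, nat_lit 111251, nat_lit 0, nat_lit 0, [nat_lit 1100000, nat_lit 1271250, nat_lit 1271250], [nat_lit 124, nat_lit 40, nat_lit 20, nat_lit 40]⟩, C1.Rw.none,
 ⟨nat_lit 6224, nat_lit 6265, ⟨.ofNat (nat_lit 80842), .ofNat (nat_lit 121690), .ofNat (nat_lit 91523), .ofNat (nat_lit 132370), .ofNat (nat_lit 82732), .ofNat (nat_lit 123391), .ofNat (nat_lit 93410), .ofNat (nat_lit 134069)⟩, ⟨.ofNat (nat_lit 0), .ofNat (nat_lit 0), .ofNat (nat_lit 0), .ofNat (nat_lit 0), .ofNat (nat_lit 0), .ofNat (nat_lit 0), .ofNat (nat_lit 0), .ofNat (nat_lit 0)⟩⟩, [⟨nat_lit 0, nat_lit 100, nat_lit 97, nat_lit 23, nat_lit 321062041⟩]⟩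
noncomputable def p008_l30 : Lf2 := ⟨nat_lit 0, nat_lit 2, [nat_lit 10, nat_lit 5, nat_lit 5, nat_lit 20], true, nat_lit 0, nat_lit 0, nat_lit 0, nat_lit 0, ⟨nat_lit 0, nat_lit 0, nat_lit 1000, nat_lit 4, nat_lit 43, nat_lit 0, nat_lit 0, nat_lit 0, nat_lit 0, nat_lit 215, nat_lit 17067, nat_lit 247, nat_lit 66234529, nat_lit 0, nat_lit 0, nat_lit 312094, false, false⟩,
 nat_lit 0, nat_lit 8279, nat_lit 0, nat_lit 0, nat_lit 4447, nat_lit 0, nat_lit 668, nat_lit 0, nat_lit 0, nat_lit 0, nat_lit 0, nat_lit 0, nat_lit 0, nat_lit 0, nat_lit 80, nat_lit 1000000, nat_lit 0, nat_lit 0, [(nat_lit 6, [(nat_lit 6, nat_lit 1000)])],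
 ⟨p008_k11, nat_lit 0, nat_lit 0, nat_lit 0, nat_lit 0, nat_lit 175809, [nat_lit 2257066667, nat_lit 1408000000, nat_lit 211200000], [], [nat_lit 12870322682, nat_lit 12986435799, nat_lit 12804364591, nat_lit 12577885996], nat_lit 1271250, nat_lit 1271250, nat_lit 0, nat_lit 111251, nat_lit 0, nat_lit 0, [nat_lit 1100000, nat_lit 1442500, nat_lit 1271250], [nat_lit 9, nat_lit 40, nat_lit 20, nat_lit 80]⟩, C1.Rw.none,
 ⟨nat_lit 6224, nat_lit 6265, ⟨.ofNat (nat_lit 80842), .ofNat (nat_lit 121690), .ofNat (nat_lit 91523), .ofNat (nat_lit 132370), .ofNat (nat_lit 82732), .ofNat (nat_lit 123391), .ofNat (nat_lit 93410), .ofNat (nat_lit 134069)⟩, ⟨.ofNat (nat_lit 0), .ofNat (nat_lit 0), .ofNat (nat_lit 0), .ofNat (nat_lit 0), .ofNat (nat_lit 0), .ofNat (nat_lit 0), .ofNat (nat_lit 0), .ofNat (nat_lit 0)⟩⟩, [⟨nat_lit 0, nat_lit 100, nat_lit 97, nat_lit 23, nat_lit 129841441⟩]⟩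
noncomputable def p008_l31 : Lf2 := ⟨nat_lit 0, nat_lit 2, [nat_lit 10, nat_lit 5, nat_lit 5, nat_lit 20], true, nat_lit 0, nat_lit 0, nat_lit 0, nat_lit 0, ⟨nat_lit 0, nat_lit 0, nat_lit 1000, nat_lit 4, nat_lit 42, nat_lit 0, nat_lit 0, nat_lit 0, nat_lit 0, nat_lit 215, nat_lit 17067, nat_lit 247, nat_lit 66253457, nat_lit 0, nat_lit 0, nat_lit 305768, false, false⟩,
 nat_lit 0, nat_lit 100000, nat_lit 0, nat_lit 0, nat_lit 52941, nat_lit 0, nat_lit 11122, nat_lit 3484, nat_lit 0, nat_lit 0, nat_lit 0, nat_lit 0, nat_lit 0, nat_lit 0, nat_lit 0, nat_lit 1000000, nat_lit 0, nat_lit 0, [(nat_lit 6, [(nat_lit 6, nat_lit 1000)])],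
 ⟨p008_k9, nat_lit 0, nat_lit 0, nat_lit 307, nat_lit 0, nat_lit 224417, [nat_lit 56721066667, nat_lit 69488000001, nat_lit 81907199999], [], [nat_lit 185245838997, nat_lit 178455388103, nat_lit 157987365153, nat_lit 154927828185], nat_lit 1271250, nat_lit 1271250, nat_lit 0, nat_lit 111251, nat_lit 0, nat_lit 0, [nat_lit 1100000, nat_lit 1442500, nat_lit 1271250], [nat_lit 9, nat_lit 40, nat_lit 20, nat_lit 80, nat_lit 2, nat_lit 215, nat_lit 10, nat_lit 8]⟩, C1.Rw.none,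
 ⟨nat_lit 6224, nat_lit 6325, ⟨.ofNat (nat_lit 77993), .ofNat (nat_lit 119125), .ofNat (nat_lit 88677), .ofNat (nat_lit 129809), .ofNat (nat_lit 82732), .ofNat (nat_lit 123391), .ofNat (nat_lit 93410), .ofNat (nat_lit 134069)⟩, ⟨.ofNat (nat_lit 0), .ofNat (nat_lit 0), .ofNat (nat_lit 0), .ofNat (nat_lit 0), .ofNat (nat_lit 0), .ofNat (nat_lit 0), .ofNat (nat_lit 0), .ofNat (nat_lit 0)⟩⟩, [⟨nat_lit 0, nat_lit 100, nat_lit 98, nat_lit 19, nat_lit 7051290379⟩]⟩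
noncomputable def p008_l32 : Lf2 := ⟨nat_lit 0, nat_lit 2, [nat_lit 10, nat_lit 5, nat_lit 5, nat_lit 20], false, nat_lit 0, nat_lit 0, nat_lit 0, nat_lit 0, ⟨nat_lit 0, nat_lit 0, nat_lit 1000, nat_lit 4, nat_lit 42, nat_lit 0, nat_lit 0, nat_lit 0, nat_lit 0, nat_lit 215, nat_lit 17067, nat_lit 247, nat_lit 66253457, nat_lit 0, nat_lit 0, nat_lit 305768, false, false⟩,
 nat_lit 100000, nat_lit 0, nat_lit 100000, nat_lit 16496, nat_lit 5435, nat_lit 80851, nat_lit 0, nat_lit 0, nat_lit 0, nat_lit 60000, nat_lit 2960, nat_lit 0, nat_lit 0, nat_lit 0, nat_lit 80, nat_lit 1000000, nat_lit 0, nat_lit 0, [(nat_lit 6, [(nat_lit 6, nat_lit 1000)])],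
 ⟨p008_k9, nat_lit 0, nat_lit 0, nat_lit 307, nat_lit 0, nat_lit 224417, [nat_lit 2257066667, nat_lit 1408000000, nat_lit 211200000], [], [nat_lit 17466910147, nat_lit 16769792590, nat_lit 14668515607, nat_lit 13976525972], nat_lit 1271250, nat_lit 1271250, nat_lit 0, nat_lit 111251, nat_lit 0, nat_lit 0, [nat_lit 1100000, nat_lit 1442500, nat_lit 1271250], [nat_lit 9, nat_lit 40, nat_lit 20, nat_lit 80, nat_lit 2, nat_lit 215, nat_lit 10, nat_lit 8]⟩, ⟨p008_k12, nat_lit 0, nat_lit 0, nat_lit 454, nat_lit 0, nat_lit 296318, [nat_lit 71040000000, nat_lit 82880000000], [], [nat_lit 111450029202, nat_lit 111666224776, nat_lit 91746990203, nat_lit 91078433284], nat_lit 1271250, nat_lit 1271250, nat_lit 0, nat_lit 111251, nat_lit 0, nat_lit 0, [nat_lit 1695000, nat_lit 1271250], [nat_lit 77, nat_lit 40, nat_lit 20, nat_lit 80, nat_lit 17, nat_lit 272, nat_lit 60, nat_lit 9]⟩,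
 ⟨nat_lit 6224, nat_lit 6325, ⟨.ofNat (nat_lit 77993), .ofNat (nat_lit 119125), .ofNat (nat_lit 88677), .ofNat (nat_lit 129809), .ofNat (nat_lit 82732), .ofNat (nat_lit 123391), .ofNat (nat_lit 93410), .ofNat (nat_lit 134069)⟩, ⟨.ofNat (nat_lit 0), .ofNat (nat_lit 0), .ofNat (nat_lit 0), .ofNat (nat_lit 0), .ofNat (nat_lit 0), .ofNat (nat_lit 0), .ofNat (nat_lit 0), .ofNat (nat_lit 0)⟩⟩, [⟨nat_lit 0, nat_lit 100, nat_lit 97, nat_lit 23, nat_lit 10309278351⟩]⟩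
noncomputable def p008_l33 : Lf2 := ⟨nat_lit 0, nat_lit 2, [nat_lit 10, nat_lit 5, nat_lit 5, nat_lit 20], true, nat_lit 0, nat_lit 0, nat_lit 0, nat_lit 0, ⟨nat_lit 0, nat_lit 0, nat_lit 1000, nat_lit 4, nat_lit 42, nat_lit 0, nat_lit 0, nat_lit 0, nat_lit 0, nat_lit 215, nat_lit 17067, nat_lit 247, nat_lit 66265404, nat_lit 0, nat_lit 0, nat_lit 301755, false, false⟩,
 nat_lit 0, nat_lit 9460, nat_lit 0, nat_lit 0, nat_lit 5131, nat_lit 0, nat_lit 1054, nat_lit 0, nat_lit 0, nat_lit 0, nat_lit 0, nat_lit 0, nat_lit 0, nat_lit 0, nat_lit 80, nat_lit 1000000, nat_lit 0, nat_lit 0, [(nat_lit 6, [(nat_lit 6, nat_lit 1000)])],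
 ⟨p008_k13, nat_lit 0, nat_lit 0, nat_lit 316, nat_lit 0, nat_lit 242215, [nat_lit 2257066667, nat_lit 1408000000, nat_lit 211200000], [], [nat_lit 16555455866, nat_lit 16483931528, nat_lit 13918427160, nat_lit 14135584598], nat_lit 1271250, nat_lit 1271250, nat_lit 0, nat_lit 111251, nat_lit 0, nat_lit 0, [nat_lit 1100000, nat_lit 1442500, nat_lit 1271250], [nat_lit 9, nat_lit 40, nat_lit 20, nat_lit 80, nat_lit 2, nat_lit 215, nat_lit 10, nat_lit 8]⟩, C1.Rw.none,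
 ⟨nat_lit 6123, nat_lit 6225, ⟨.ofNat (nat_lit 72053), .ofNat (nat_lit 112712), .ofNat (nat_lit 93410), .ofNat (nat_lit 134069), .ofNat (nat_lit 76747), .ofNat (nat_lit 116937), .ofNat (nat_lit 98095), .ofNat (nat_lit 138285)⟩, ⟨.ofNat (nat_lit 0), .ofNat (nat_lit 0), .ofNat (nat_lit 0), .ofNat (nat_lit 0), .ofNat (nat_lit 0), .ofNat (nat_lit 0), .ofNat (nat_lit 0), .ofNat (nat_lit 0)⟩⟩, [⟨nat_lit 0, nat_lit 100, nat_lit 97, nat_lit 25, nat_lit 775854032⟩]⟩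
noncomputable def p008_l34 : Lf2 := ⟨nat_lit 0, nat_lit 2, [nat_lit 10, nat_lit 5, nat_lit 5, nat_lit 20], true, nat_lit 0, nat_lit 0, nat_lit 0, nat_lit 0, ⟨nat_lit 0, nat_lit 0, nat_lit 1000, nat_lit 4, nat_lit 57, nat_lit 0, nat_lit 0, nat_lit 0, nat_lit 0, nat_lit 215, nat_lit 30817, nat_lit 258, nat_lit 65644478, nat_lit 0, nat_lit 0, nat_lit 494644, false, false⟩,
 nat_lit 0, nat_lit 8597, nat_lit 0, nat_lit 0, nat_lit 4551, nat_lit 0, nat_lit 0, nat_lit 0, nat_lit 0, nat_lit 0, nat_lit 0, nat_lit 0, nat_lit 0, nat_lit 0, nat_lit 80, nat_lit 1000000, nat_lit 0, nat_lit 0, [(nat_lit 6, [(nat_lit 6, nat_lit 1000)])],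
 ⟨p008_k9, nat_lit 0, nat_lit 0, nat_lit 291, nat_lit 0, nat_lit 248331, [nat_lit 2257066667, nat_lit 1408000000, nat_lit 211200000], [], [nat_lit 13134214995, nat_lit 13302090958, nat_lit 13444323163, nat_lit 12293912281], nat_lit 1271250, nat_lit 1271250, nat_lit 111251, nat_lit 230001, nat_lit 0, nat_lit 0, [nat_lit 1100000, nat_lit 1442500, nat_lit 1271250], [nat_lit 9, nat_lit 40, nat_lit 20, nat_lit 80, nat_lit 2, nat_lit 215, nat_lit 10, nat_lit 8]⟩, C1.Rw.none,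
 ⟨nat_lit 6123, nat_lit 6325, ⟨.ofNat (nat_lit 108442), .ofNat (nat_lit 149574), .ofNat (nat_lit 129809), .ofNat (nat_lit 170942), .ofNat (nat_lit 116937), .ofNat (nat_lit 157128), .ofNat (nat_lit 138285), .ofNat (nat_lit 178476)⟩, ⟨.ofNat (nat_lit 0), .ofNat (nat_lit 0), .ofNat (nat_lit 0), .ofNat (nat_lit 0), .ofNat (nat_lit 0), .ofNat (nat_lit 0), .ofNat (nat_lit 0), .ofNat (nat_lit 0)⟩⟩, []⟩
noncomputable def p008_l35 : Lf2 := ⟨nat_lit 0, nat_lit 5, [nat_lit 4, nat_lit 5, nat_lit 5, nat_lit 20], true, nat_lit 0, nat_lit 0, nat_lit 0, nat_lit 0, ⟨nat_lit 0, nat_lit 0, nat_lit 1000, nat_lit 4, nat_lit 49, nat_lit 0, nat_lit 0, nat_lit 0, nat_lit 0, nat_lit 215, nat_lit 21600, nat_lit 251, nat_lit 66029140, nat_lit 0, nat_lit 0, nat_lit 378606, false, false⟩,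
 nat_lit 0, nat_lit 7961, nat_lit 0, nat_lit 0, nat_lit 4214, nat_lit 0, nat_lit 170, nat_lit 0, nat_lit 0, nat_lit 0, nat_lit 0, nat_lit 0, nat_lit 0, nat_lit 0, nat_lit 147, nat_lit 1000000, nat_lit 0, nat_lit 0, [(nat_lit 6, [(nat_lit 6, nat_lit 1000)])],
 ⟨p008_k14, nat_lit 0, nat_lit 0, nat_lit 348, nat_lit 0, nat_lit 149589, [nat_lit 3329066667, nat_lit 3042400001, nat_lit 177599999], [], [nat_lit 14091489581, nat_lit 14206963692, nat_lit 14564337613, nat_lit 14031725939], nat_lit 1271250, nat_lit 1271250, nat_lit 0, nat_lit 230001, nat_lit 0, nat_lit 0, [nat_lit 1100000, nat_lit 1442500, nat_lit 1271250], [nat_lit 11, nat_lit 40, nat_lit 20, nat_lit 80, nat_lit 1, nat_lit 289, nat_lit 75, nat_lit 9]⟩, C1.Rw.none,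
 ⟨nat_lit 6224, nat_lit 6325, ⟨.ofNat (nat_lit 67309), .ofNat (nat_lit 149574), .ofNat (nat_lit 88677), .ofNat (nat_lit 170942), .ofNat (nat_lit 72053), .ofNat (nat_lit 153371), .ofNat (nat_lit 93410), .ofNat (nat_lit 174728)⟩, ⟨.ofNat (nat_lit 0), .ofNat (nat_lit 0), .ofNat (nat_lit 0), .ofNat (nat_lit 0), .ofNat (nat_lit 0), .ofNat (nat_lit 0), .ofNat (nat_lit 0), .ofNat (nat_lit 0)⟩⟩, [⟨nat_lit 0, nat_lit 100, nat_lit 97, nat_lit 23, nat_lit 38383936⟩]⟩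
noncomputable def p008_l36 : Lf2 := ⟨nat_lit 0, nat_lit 5, [nat_lit 4, nat_lit 5, nat_lit 5, nat_lit 20], true, nat_lit 0, nat_lit 0, nat_lit 0, nat_lit 0, ⟨nat_lit 0, nat_lit 0, nat_lit 1000, nat_lit 4, nat_lit 50, nat_lit 0, nat_lit 0, nat_lit 0, nat_lit 0, nat_lit 215, nat_lit 24067, nat_lit 253, nat_lit 65961080, nat_lit 0, nat_lit 0, nat_lit 399873, false, false⟩,
 nat_lit 0, nat_lit 7542, nat_lit 0, nat_lit 0, nat_lit 4091, nat_lit 0, nat_lit 139, nat_lit 0, nat_lit 0, nat_lit 0, nat_lit 0, nat_lit 0, nat_lit 0, nat_lit 0, nat_lit 147, nat_lit 1000000, nat_lit 0, nat_lit 0, [(nat_lit 6, [(nat_lit 6, nat_lit 1000)])],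
 ⟨p008_k15, nat_lit 0, nat_lit 0, nat_lit 357, nat_lit 0, nat_lit 170488, [nat_lit 3329066667, nat_lit 3042400001, nat_lit 177599999], [], [nat_lit 14202367689, nat_lit 14482061438, nat_lit 14184688674, nat_lit 13667623093], nat_lit 1271250, nat_lit 1271250, nat_lit 0, nat_lit 230001, nat_lit 0, nat_lit 0, [nat_lit 1100000, nat_lit 1442500, nat_lit 1271250], [nat_lit 11, nat_lit 40, nat_lit 20, nat_lit 80, nat_lit 1, nat_lit 289, nat_lit 75, nat_lit 9]⟩, C1.Rw.none,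
 ⟨nat_lit 6123, nat_lit 6225, ⟨.ofNat (nat_lit 72053), .ofNat (nat_lit 153371), .ofNat (nat_lit 93410), .ofNat (nat_lit 174728), .ofNat (nat_lit 76747), .ofNat (nat_lit 157128), .ofNat (nat_lit 98095), .ofNat (nat_lit 178476)⟩, ⟨.ofNat (nat_lit 0), .ofNat (nat_lit 0), .ofNat (nat_lit 0), .ofNat (nat_lit 0), .ofNat (nat_lit 0), .ofNat (nat_lit 0), .ofNat (nat_lit 0), .ofNat (nat_lit 0)⟩⟩, [⟨nat_lit 0, nat_lit 100, nat_lit 97, nat_lit 25, nat_lit 117989530⟩]⟩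
noncomputable def p008_l37 : Lf2 := ⟨nat_lit 0, nat_lit 5, [nat_lit 4, nat_lit 5, nat_lit 5, nat_lit 20], true, nat_lit 0, nat_lit 0, nat_lit 0, nat_lit 0, ⟨nat_lit 0, nat_lit 0, nat_lit 1000, nat_lit 4, nat_lit 82, nat_lit 0, nat_lit 0, nat_lit 0, nat_lit 0, nat_lit 215, nat_lit 62017, nat_lit 276, nat_lit 64305694, nat_lit 0, nat_lit 0, nat_lit 843096, false, false⟩,
 nat_lit 0, nat_lit 10268, nat_lit 0, nat_lit 0, nat_lit 5436, nat_lit 0, nat_lit 186, nat_lit 0, nat_lit 0, nat_lit 0, nat_lit 0, nat_lit 0, nat_lit 0, nat_lit 0, nat_lit 147, nat_lit 1000000, nat_lit 0, nat_lit 0, [(nat_lit 6, [(nat_lit 6, nat_lit 1000)])],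
 ⟨p008_k14, nat_lit 0, nat_lit 0, nat_lit 348, nat_lit 0, nat_lit 262387, [nat_lit 3329066667, nat_lit 3042400001, nat_lit 177599999], [], [nat_lit 12638094125, nat_lit 12932160128, nat_lit 13835016573, nat_lit 12480675225], nat_lit 1271250, nat_lit 1271250, nat_lit 230001, nat_lit 490000, nat_lit 0, nat_lit 0, [nat_lit 1100000, nat_lit 1442500, nat_lit 1271250], [nat_lit 11, nat_lit 40, nat_lit 20, nat_lit 80, nat_lit 1, nat_lit 317, nat_lit 100, nat_lit 10]⟩, C1.Rw.none,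
 ⟨nat_lit 6123, nat_lit 6325, ⟨.ofNat (nat_lit 149574), .ofNat (nat_lit 231838), .ofNat (nat_lit 170942), .ofNat (nat_lit 253206), .ofNat (nat_lit 157128), .ofNat (nat_lit 237508), .ofNat (nat_lit 178476), .ofNat (nat_lit 258856)⟩, ⟨.ofNat (nat_lit 0), .ofNat (nat_lit 0), .ofNat (nat_lit 0), .ofNat (nat_lit 0), .ofNat (nat_lit 0), .ofNat (nat_lit 0), .ofNat (nat_lit 0), .ofNat (nat_lit 0)⟩⟩, []⟩
noncomputable def p008_l38 : Lf2 := ⟨nat_lit 0, nat_lit 5, [nat_lit 4, nat_lit 5, nat_lit 5, nat_lit 20], true, nat_lit 0, nat_lit 0, nat_lit 0, nat_lit 0, ⟨nat_lit 0, nat_lit 0, nat_lit 1000, nat_lit 4, nat_lit 66, nat_lit 0, nat_lit 0, nat_lit 0, nat_lit 0, nat_lit 215, nat_lit 40017, nat_lit 264, nat_lit 65244551, nat_lit 0, nat_lit 0, nat_lit 606352, false, false⟩,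
 nat_lit 0, nat_lit 7438, nat_lit 0, nat_lit 0, nat_lit 3937, nat_lit 0, nat_lit 0, nat_lit 0, nat_lit 0, nat_lit 0, nat_lit 0, nat_lit 0, nat_lit 0, nat_lit 0, nat_lit 147, nat_lit 1000000, nat_lit 0, nat_lit 0, [(nat_lit 6, [(nat_lit 6, nat_lit 1000)])],
 ⟨p008_k14, nat_lit 0, nat_lit 0, nat_lit 322, nat_lit 0, nat_lit 70138, [nat_lit 3329066667, nat_lit 3042400001, nat_lit 177599999], [], [nat_lit 14498732765, nat_lit 14780574510, nat_lit 16154623137, nat_lit 15173747146], nat_lit 1271250, nat_lit 1271250, nat_lit 0, nat_lit 490000, nat_lit 0, nat_lit 0, [nat_lit 1100000, nat_lit 1442500, nat_lit 1271250], [nat_lit 11, nat_lit 40, nat_lit 20, nat_lit 80, nat_lit 1, nat_lit 317, nat_lit 100, nat_lit 10]⟩, C1.Rw.none,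
 ⟨nat_lit 6123, nat_lit 6325, ⟨.ofNat (nat_lit 67309), .ofNat (nat_lit 231838), .ofNat (nat_lit 88677), .ofNat (nat_lit 253206), .ofNat (nat_lit 76747), .ofNat (nat_lit 237508), .ofNat (nat_lit 98095), .ofNat (nat_lit 258856)⟩, ⟨.ofNat (nat_lit 0), .ofNat (nat_lit 0), .ofNat (nat_lit 0), .ofNat (nat_lit 0), .ofNat (nat_lit 0), .ofNat (nat_lit 0), .ofNat (nat_lit 0), .ofNat (nat_lit 0)⟩⟩, []⟩
noncomputable def p008_l39 : Lf2 := ⟨nat_lit 0, nat_lit 5, [nat_lit 4, nat_lit 5, nat_lit 5, nat_lit 20], false, nat_lit 0, nat_lit 0, nat_lit 0, nat_lit 0, ⟨nat_lit 19, nat_lit 0, nat_lit 981, nat_lit 4, nat_lit 114, nat_lit 0, nat_lit 0, nat_lit 0, nat_lit 0, nat_lit 215, nat_lit 123267, nat_lit 301, nat_lit 61933609, nat_lit 0, nat_lit 0, nat_lit 1339664, false, false⟩,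
 nat_lit 3126, nat_lit 9350, nat_lit 0, nat_lit 0, nat_lit 6604, nat_lit 1188, nat_lit 271, nat_lit 0, nat_lit 0, nat_lit 1256, nat_lit 0, nat_lit 0, nat_lit 0, nat_lit 0, nat_lit 138, nat_lit 981000, nat_lit 0, nat_lit 0, [(nat_lit 6, [(nat_lit 6, nat_lit 981)])],
 ⟨p008_k14, nat_lit 0, nat_lit 0, nat_lit 325, nat_lit 0, nat_lit 271758, [nat_lit 3255574401, nat_lit 2979204401, nat_lit 184463599], [], [nat_lit 12331727859, nat_lit 11954952588, nat_lit 14571006371, nat_lit 12948991327], nat_lit 1271250, nat_lit 1271250, nat_lit 490000, nat_lit 780000, nat_lit 0, nat_lit 0, [nat_lit 1100000, nat_lit 1442500, nat_lit 1271250], [nat_lit 11, nat_lit 40, nat_lit 20, nat_lit 80, nat_lit 1, nat_lit 317, nat_lit 100, nat_lit 9]⟩, ⟨p008_k16, nat_lit 0, nat_lit 0, nat_lit 516, nat_lit 0, nat_lit 390977, [nat_lit 151392000, nat_lit 186998000, nat_lit 225568000], [], [nat_lit 1864965404, nat_lit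 1236824660, nat_lit 618140396, nat_lit 12535468], nat_lit 1271250, nat_lit 1271250, nat_lit 490000, nat_lit 780000, nat_lit 0, nat_lit 0, [nat_lit 1695000, nat_lit 1271250, nat_lit 1271250], [nat_lit 106, nat_lit 40, nat_lit 20, nat_lit 80, nat_lit 41, nat_lit 317, nat_lit 100, nat_lit 9]⟩,
 ⟨nat_lit 6123, nat_lit 6325, ⟨.ofNat (nat_lit 231838), .ofNat (nat_lit 314102), .ofNat (nat_lit 253206), .ofNat (nat_lit 335470), .ofNat (nat_lit 237508), .ofNat (nat_lit 317889), .ofNat (nat_lit 258856), .ofNat (nat_lit 339237)⟩, ⟨.ofNat (nat_lit 0), .ofNat (nat_lit 0), .ofNat (nat_lit 0), .ofNat (nat_lit 0), .ofNat (nat_lit 0), .ofNat (nat_lit 0), .ofNat (nat_lit 0), .ofNat (nat_lit 0)⟩⟩, []⟩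
noncomputable def p008_l40 : Lf2 := ⟨nat_lit 1, nat_lit 5, [nat_lit 4, nat_lit 5, nat_lit 5, nat_lit 20], false, nat_lit 0, nat_lit 0, nat_lit 0, nat_lit 0, zbN0,
 nat_lit 0, nat_lit 0, nat_lit 0, nat_lit 0, nat_lit 0, nat_lit 0, nat_lit 0, nat_lit 0, nat_lit 0, nat_lit 0, nat_lit 0, nat_lit 0, nat_lit 0, nat_lit 0, nat_lit 0, nat_lit 0, nat_lit 0, nat_lit 0, [],
 C1.Rw.none, C1.Rw.none,
 zbF0, []⟩
noncomputable def p008_l41 : Lf2 := ⟨nat_lit 0, nat_lit 5, [nat_lit 4, nat_lit 5, nat_lit 5, nat_lit 20], true, nat_lit 0, nat_lit 0, nat_lit 0, nat_lit 0, ⟨nat_lit 0, nat_lit 0, nat_lit 1000, nat_lit 4, nat_lit 69, nat_lit 0, nat_lit 0, nat_lit 0, nat_lit 0, nat_lit 215, nat_lit 43350, nat_lit 266, nat_lit 65085724, nat_lit 0, nat_lit 0, nat_lit 648674, false, false⟩,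
 nat_lit 0, nat_lit 8274, nat_lit 0, nat_lit 0, nat_lit 4596, nat_lit 0, nat_lit 592, nat_lit 0, nat_lit 0, nat_lit 0, nat_lit 0, nat_lit 0, nat_lit 0, nat_lit 0, nat_lit 80, nat_lit 1000000, nat_lit 0, nat_lit 0, [(nat_lit 6, [(nat_lit 6, nat_lit 1000)])],
 ⟨p008_k17, nat_lit 0, nat_lit 0, nat_lit 368, nat_lit 0, nat_lit 299569, [nat_lit 2257066667, nat_lit 1408000000, nat_lit 211200000], [], [nat_lit 16282088951, nat_lit 16528720368, nat_lit 12912601583, nat_lit 12044908934], nat_lit 1271250, nat_lit 1271250, nat_lit 0, nat_lit 490000, nat_lit 0, nat_lit 0, [nat_lit 1100000, nat_lit 1442500, nat_lit 1271250], [nat_lit 9, nat_lit 40, nat_lit 20, nat_lit 80, nat_lit 2, nat_lit 226, nat_lit 20, nat_lit 8]⟩, C1.Rw.none,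
 ⟨nat_lit 5916, nat_lit 6124, ⟨.ofNat (nat_lit 76747), .ofNat (nat_lit 237508), .ofNat (nat_lit 98095), .ofNat (nat_lit 258856), .ofNat (nat_lit 85991), .ofNat (nat_lit 243059), .ofNat (nat_lit 107331), .ofNat (nat_lit 264398)⟩, ⟨.ofNat (nat_lit 0), .ofNat (nat_lit 0), .ofNat (nat_lit 0), .ofNat (nat_lit 0), .ofNat (nat_lit 0), .ofNat (nat_lit 0), .ofNat (nat_lit 0), .ofNat (nat_lit 0)⟩⟩, [⟨nat_lit 0, nat_lit 100, nat_lit 96, nat_lit 23, nat_lit 321345861⟩]⟩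
noncomputable def p008_l42 : Lf2 := ⟨nat_lit 0, nat_lit 5, [nat_lit 4, nat_lit 5, nat_lit 5, nat_lit 20], false, nat_lit 0, nat_lit 0, nat_lit 0, nat_lit 0, ⟨nat_lit 49, nat_lit 0, nat_lit 951, nat_lit 4, nat_lit 116, nat_lit 0, nat_lit 0, nat_lit 0, nat_lit 0, nat_lit 215, nat_lit 126150, nat_lit 302, nat_lit 61779790, nat_lit 0, nat_lit 0, nat_lit 1368214, false, false⟩,
 nat_lit 2350, nat_lit 7122, nat_lit 0, nat_lit 0, nat_lit 5261, nat_lit 893, nat_lit 796, nat_lit 0, nat_lit 0, nat_lit 93, nat_lit 0, nat_lit 0, nat_lit 0, nat_lit 0, nat_lit 60, nat_lit 951000, nat_lit 0, nat_lit 0, [(nat_lit 6, [(nat_lit 6, nat_lit 951)])],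
 ⟨p008_k17, nat_lit 0, nat_lit 0, nat_lit 268, nat_lit 0, nat_lit 299569, [nat_lit 2118902400, nat_lit 1323658000, nat_lit 203452200], [], [nat_lit 12362728281, nat_lit 12261351926, nat_lit 14401104841, nat_lit 13108945370], nat_lit 1271250, nat_lit 1271250, nat_lit 490000, nat_lit 780000, nat_lit 0, nat_lit 0, [nat_lit 1100000, nat_lit 1442500, nat_lit 1271250], [nat_lit 9, nat_lit 40, nat_lit 20, nat_lit 80, nat_lit 2, nat_lit 238, nat_lit 30, nat_lit 8]⟩, ⟨p008_k16, nat_lit 0, nat_lit 0, nat_lit 543, nat_lit 0, nat_lit 449787, [nat_lit 390432000, nat_lit 482258000, nat_lit 581728000], [], [nat_lit 2649490674, nat_lit 2177327640, nat_lit 1712272886, nat_lit 1249971172], nat_lit 1271250, nat_lit 1271250, nat_lit 490000, nat_lit 780000, nat_lit 0, nat_lit 0, [nat_lit 1695000, nat_lit 1271250, nat_lit 1271250], [nat_lit 106, nat_lit 40, nat_lit 20, nat_lit 80, nat_lit 41, nat_lit 317,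 nat_lit 100, nat_lit 9]⟩,
 ⟨nat_lit 5916, nat_lit 6124, ⟨.ofNat (nat_lit 237508), .ofNat (nat_lit 317889), .ofNat (nat_lit 258856), .ofNat (nat_lit 339237), .ofNat (nat_lit 243059), .ofNat (nat_lit 321592), .ofNat (nat_lit 264398), .ofNat (nat_lit 342931)⟩, ⟨.ofNat (nat_lit 0), .ofNat (nat_lit 0), .ofNat (nat_lit 0), .ofNat (nat_lit 0), .ofNat (nat_lit 0), .ofNat (nat_lit 0), .ofNat (nat_lit 0), .ofNat (nat_lit 0)⟩⟩, []⟩
noncomputable def p008_l43 : Lf2 := ⟨nat_lit 0, nat_lit 5, [nat_lit 4, nat_lit 5, nat_lit 5, nat_lit 20], true, nat_lit 0, nat_lit 0, nat_lit 0, nat_lit 0, ⟨nat_lit 0, nat_lit 0, nat_lit 1000, nat_lit 4, nat_lit 84, nat_lit 0, nat_lit 0, nat_lit 0, nat_lit 0, nat_lit 215, nat_lit 66150, nat_lit 278, nat_lit 64138359, nat_lit 0, nat_lit 0, nat_lit 882319, false, false⟩,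
 nat_lit 0, nat_lit 8515, nat_lit 0, nat_lit 0, nat_lit 4730, nat_lit 0, nat_lit 0, nat_lit 0, nat_lit 0, nat_lit 0, nat_lit 0, nat_lit 0, nat_lit 0, nat_lit 0, nat_lit 41, nat_lit 400000, nat_lit 0, nat_lit 0, [(nat_lit 6, [(nat_lit 5, nat_lit 1000)])],
 ⟨p008_k17, nat_lit 0, nat_lit 0, nat_lit 313, nat_lit 0, nat_lit 223989, [nat_lit 2073600001, nat_lit 853200001, nat_lit 108399999], [], [nat_lit 17549971673, nat_lit 16804707840, nat_lit 16000914133, nat_lit 14839174103], nat_lit 1271250, nat_lit 1271250, nat_lit 0, nat_lit 780000, nat_lit 0, nat_lit 0, [nat_lit 1100000, nat_lit 1442500, nat_lit 1271250], [nat_lit 9, nat_lit 40, nat_lit 20, nat_lit 80, nat_lit 2, nat_lit 238, nat_lit 30, nat_lit 8]⟩, C1.Rw.none,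
 ⟨nat_lit 5916, nat_lit 6124, ⟨.ofNat (nat_lit 76747), .ofNat (nat_lit 317889), .ofNat (nat_lit 98095), .ofNat (nat_lit 339237), .ofNat (nat_lit 85991), .ofNat (nat_lit 321592), .ofNat (nat_lit 107331), .ofNat (nat_lit 342931)⟩, ⟨.ofNat (nat_lit 0), .ofNat (nat_lit 0), .ofNat (nat_lit 0), .ofNat (nat_lit 0), .ofNat (nat_lit 0), .ofNat (nat_lit 0), .ofNat (nat_lit 0), .ofNat (nat_lit 0)⟩⟩, [⟨nat_lit 0, nat_lit 100, nat_lit 96, nat_lit 23, nat_lit 172512527⟩]⟩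
noncomputable def b_NL_600_450_0_2 : St := ⟨false, nat_lit 1, nat_lit 1, nat_lit 1, nat_lit 20, nat_lit 240, nat_lit 260, nat_lit 180, nat_lit 200, nat_lit 0, nat_lit 120, nat_lit 0, nat_lit 0, nat_lit 0, nat_lit 0, nat_lit 0, nat_lit 0, nat_lit 0, nat_lit 40, nat_lit 0, nat_lit 0, nat_lit 0, nat_lit 0⟩
theorem d_NL_600_450_0_2 (h : EB TB.env) : Dead b_NL_600_450_0_2 := chkB_sound0 h (T :=
(.spl (nat_lit 0) (nat_lit 250)
(.spl (nat_lit 6) (nat_lit 28)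
(.spl (nat_lit 2) (nat_lit 80)
(.spl (nat_lit 6) (nat_lit 20)
(.spl (nat_lit 2) (nat_lit 40)
(.spl (nat_lit 6) (nat_lit 8)
(.spl (nat_lit 2) (nat_lit 20)
(.spl (nat_lit 0) (nat_lit 245)
(.spl (nat_lit 1) (nat_lit 190)
(.spl (nat_lit 6) (nat_lit 4)
(.spl (nat_lit 2) (nat_lit 8)
(.spl (nat_lit 1) (nat_lit 185)
(.leaf p008_l0)
(.spl (nat_lit 0) (nat_lit 243)
(.spl (nat_lit 0) (nat_lit 242)
(.spl (nat_lit 0) (nat_lit 241)
(.spl (nat_lit 2) (nat_lit 4)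
(.spl (nat_lit 1) (nat_lit 188)
(.spl (nat_lit 1) (nat_lit 187)
(.leaf p008_l1)
(.spl (nat_lit 8) (nat_lit 800)
(.spl (nat_lit 7) (nat_lit 600)
(.leaf p008_l2)
(.leaf p008_l3))
(.leaf p008_l4)))
(.spl (nat_lit 1) (nat_lit 189)
(.spl (nat_lit 8) (nat_lit 800)
(.spl (nat_lit 7) (nat_lit 600)
(.leaf p008_l5)
(.leaf p008_l6))
(.leaf p008_l7))
(.spl (nat_lit 8) (nat_lit 800)
(.spl (nat_lit 7) (nat_lit 600)
(.leaf p008_l8)
(.leaf p008_l9))
(.leaf p008_l10))))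
(.spl (nat_lit 1) (nat_lit 188)
(.leaf p008_l11)
(.spl (nat_lit 1) (nat_lit 189)
(.leaf p008_l12)
(.spl (nat_lit 8) (nat_lit 800)
(.spl (nat_lit 7) (nat_lit 600)
(.leaf p008_l13)
(.leaf p008_l14))
(.leaf p008_l15)))))
(.spl (nat_lit 2) (nat_lit 4)
(.spl (nat_lit 1) (nat_lit 188)
(.leaf p008_l16)
(.spl (nat_lit 1) (nat_lit 189)
(.leaf p008_l17)
(.spl (nat_lit 8) (nat_lit 800)
(.spl (nat_lit 7) (nat_lit 600)
(.leaf p008_l18)
(.leaf p008_l19))
(.leaf p008_l20))))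
(.leaf p008_l21)))
(.leaf p008_l22))
(.leaf p008_l23)))
(.leaf p008_l24))
(.leaf p008_l25))
(.spl (nat_lit 8) (nat_lit 800)
(.spl (nat_lit 7) (nat_lit 600)
(.spl (nat_lit 7) (nat_lit 300)
(.leaf p008_l26)
(.spl (nat_lit 0) (nat_lit 243)
(.spl (nat_lit 6) (nat_lit 4)
(.leaf p008_l27)
(.leaf p008_l28))
(.spl (nat_lit 6) (nat_lit 4)
(.leaf p008_l29)
(.leaf p008_l30))))
(.leaf p008_l31))
(.leaf p008_l32)))
(.leaf p008_l33))
(.leaf p008_l34))
(.spl (nat_lit 0) (nat_lit 245)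
(.leaf p008_l35)
(.leaf p008_l36)))
(.leaf p008_l37))
(.leaf p008_l38))
(.leaf p008_l39))
(.leaf p008_l40))
(.spl (nat_lit 6) (nat_lit 20)
(.spl (nat_lit 2) (nat_lit 80)
(.leaf p008_l41)
(.leaf p008_l42))
(.leaf p008_l43)))) (by decide +kernel)
noncomputable def p008_l44 : Lf2 := ⟨nat_lit 0, nat_lit 5, [nat_lit 4, nat_lit 5, nat_lit 5, nat_lit 20], false, nat_lit 0, nat_lit 0, nat_lit 0, nat_lit 0, ⟨nat_lit 132, nat_lit 0, nat_lit 868, nat_lit 4, nat_lit 147, nat_lit 0, nat_lit 0, nat_lit 0, nat_lit 0, nat_lit 215, nat_lit 205350, nat_lit 326, nat_lit 58981114, nat_lit 0, nat_lit 0, nat_lit 1831481, false, false⟩,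
 nat_lit 11805, nat_lit 4637, nat_lit 0, nat_lit 0, nat_lit 8704, nat_lit 4489, nat_lit 284, nat_lit 0, nat_lit 0, nat_lit 1988, nat_lit 0, nat_lit 0, nat_lit 0, nat_lit 0, nat_lit 81, nat_lit 868000, nat_lit 0, nat_lit 0, [(nat_lit 6, [(nat_lit 6, nat_lit 868)])],
 ⟨p008_k14, nat_lit 0, nat_lit 0, nat_lit 337, nat_lit 0, nat_lit 343440, [nat_lit 2762909867, nat_lit 2533883201, nat_lit 128020799], [], [nat_lit 13473282637, nat_lit 13955357728, nat_lit 17343248877, nat_lit 14853256976], nat_lit 1271250, nat_lit 1271250, nat_lit 780000, nat_lit 1100001, nat_lit 0, nat_lit 0, [nat_lit 1100000, nat_lit 1442500, nat_lit 1271250], [nat_lit 11, nat_lit 40, nat_lit 20, nat_lit 80, nat_lit 1, nat_lit 345, nat_lit 125, nat_lit 10]⟩, ⟨p008_k16, nat_lit 0, nat_lit 0, nat_lit 541, nat_lit 0, nat_lit 499833, [nat_lit 1051776000, nat_lit 1299144000, nat_lit 1567104000], [], [nat_lit 4499289138, nat_lit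 2161516696, nat_lit 5057042818, nat_lit 2753925456], nat_lit 1271250, nat_lit 1271250, nat_lit 780000, nat_lit 1100001, nat_lit 0, nat_lit 0, [nat_lit 1695000, nat_lit 1271250, nat_lit 1271250], [nat_lit 106, nat_lit 40, nat_lit 20, nat_lit 80, nat_lit 41, nat_lit 317, nat_lit 100, nat_lit 8]⟩,
 ⟨nat_lit 5916, nat_lit 6325, ⟨.ofNat (nat_lit 314102), .ofNat (nat_lit 396366), .ofNat (nat_lit 335470), .ofNat (nat_lit 417734), .ofNat (nat_lit 321592), .ofNat (nat_lit 400126), .ofNat (nat_lit 342931), .ofNat (nat_lit 421465)⟩, ⟨.ofNat (nat_lit 0), .ofNat (nat_lit 0), .ofNat (nat_lit 0), .ofNat (nat_lit 0), .ofNat (nat_lit 0), .ofNat (nat_lit 0), .ofNat (nat_lit 0), .ofNat (nat_lit 0)⟩⟩, []⟩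
noncomputable def p008_l45 : Lf2 := ⟨nat_lit 0, nat_lit 5, [nat_lit 4, nat_lit 5, nat_lit 5, nat_lit 20], false, nat_lit 0, nat_lit 0, nat_lit 0, nat_lit 0, ⟨nat_lit 150, nat_lit 0, nat_lit 850, nat_lit 4, nat_lit 179, nat_lit 0, nat_lit 0, nat_lit 0, nat_lit 0, nat_lit 215, nat_lit 38748, nat_lit 262, nat_lit 55773176, nat_lit 0, nat_lit 0, nat_lit 2260015, false, false⟩,
 nat_lit 4660, nat_lit 0, nat_lit 0, nat_lit 0, nat_lit 1555, nat_lit 1772, nat_lit 0, nat_lit 0, nat_lit 0, nat_lit 200, nat_lit 0, nat_lit 0, nat_lit 0, nat_lit 0, nat_lit 45, nat_lit 640600, nat_lit 0, nat_lit 0, [(nat_lit 6, [(nat_lit 5, nat_lit 349), (nat_lit 6, nat_lit 501)])],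
 ⟨p008_k14, nat_lit 0, nat_lit 0, nat_lit 293, nat_lit 0, nat_lit 262387, [nat_lit 2407452800, nat_lit 1916722401, nat_lit 30314399], [], [nat_lit 23429383221, nat_lit 23024478326, nat_lit 23549215680, nat_lit 23849851965], nat_lit 1271250, nat_lit 1271250, nat_lit 1100001, nat_lit 1442500, nat_lit 0, nat_lit 0, [nat_lit 1100000, nat_lit 1442500, nat_lit 1271250], [nat_lit 11, nat_lit 40, nat_lit 20, nat_lit 80, nat_lit 1, nat_lit 345, nat_lit 125, nat_lit 10]⟩, ⟨p008_k16, nat_lit 0, nat_lit 0, nat_lit 436, nat_lit 0, nat_lit 374318, [nat_lit 1195200000, nat_lit 1476300000, nat_lit 1780800000], [], [nat_lit 5624280488, nat_lit 4716466672, nat_lit 6452414616, nat_lit 5556555208], nat_lit 1271250, nat_lit 1271250, nat_lit 1100001, nat_lit 1442500, nat_lit 0, nat_lit 0, [nat_lit 1695000, nat_lit 1271250, nat_lit 1271250], [nat_lit 106, nat_lit 40, nat_lit 20, nat_lit 80, nat_lit 41, nat_lit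 317, nat_lit 100, nat_lit 8]⟩,
 ⟨nat_lit 6123, nat_lit 6325, ⟨.ofNat (nat_lit 396366), .ofNat (nat_lit 478631), .ofNat (nat_lit 417734), .ofNat (nat_lit 499999), .ofNat (nat_lit 398270), .ofNat (nat_lit 478650), .ofNat (nat_lit 419618), .ofNat (nat_lit 499999)⟩, ⟨.ofNat (nat_lit 0), .ofNat (nat_lit 0), .ofNat (nat_lit 0), .ofNat (nat_lit 0), .ofNat (nat_lit 0), .ofNat (nat_lit 0), .ofNat (nat_lit 0), .ofNat (nat_lit 0)⟩⟩, []⟩
noncomputable def p008_l46 : Lf2 := ⟨nat_lit 0, nat_lit 5, [nat_lit 4, nat_lit 5, nat_lit 5, nat_lit 20], false, nat_lit 0, nat_lit 0, nat_lit 0, nat_lit 0, ⟨nat_lit 132, nat_lit 0, nat_lit 868, nat_lit 4, nat_lit 180, nat_lit 0, nat_lit 0, nat_lit 0, nat_lit 0, nat_lit 215, nat_lit 38748, nat_lit 262, nat_lit 55734007, nat_lit 0, nat_lit 0, nat_lit 2264695, false, false⟩,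
 nat_lit 3874, nat_lit 0, nat_lit 0, nat_lit 0, nat_lit 1846, nat_lit 1473, nat_lit 0, nat_lit 0, nat_lit 0, nat_lit 271, nat_lit 0, nat_lit 0, nat_lit 0, nat_lit 0, nat_lit 0, nat_lit 409600, nat_lit 0, nat_lit 0, [(nat_lit 6, [(nat_lit 5, nat_lit 764), (nat_lit 6, nat_lit 104)])],
 ⟨p008_k17, nat_lit 0, nat_lit 0, nat_lit 243, nat_lit 0, nat_lit 299569, [nat_lit 1803477334, nat_lit 830396800, nat_lit 199954400], [], [nat_lit 23014115984, nat_lit 22689643794, nat_lit 23314608158, nat_lit 23662724328], nat_lit 1271250, nat_lit 1271250, nat_lit 1100001, nat_lit 1442500, nat_lit 0, nat_lit 0, [nat_lit 1100000, nat_lit 1442500, nat_lit 1271250], [nat_lit 9, nat_lit 40, nat_lit 20, nat_lit 80, nat_lit 2, nat_lit 260, nat_lit 50, nat_lit 8]⟩, ⟨p008_k16, nat_lit 0, nat_lit 0, nat_lit 501, nat_lit 0, nat_lit 449787, [nat_lit 1051776000, nat_lit 1299144000, nat_lit 1567104000], [], [nat_lit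 4946192754, nat_lit 4190458320, nat_lit 5644606128, nat_lit 4899910356], nat_lit 1271250, nat_lit 1271250, nat_lit 1100001, nat_lit 1442500, nat_lit 0, nat_lit 0, [nat_lit 1695000, nat_lit 1271250, nat_lit 1271250], [nat_lit 106, nat_lit 40, nat_lit 20, nat_lit 80, nat_lit 41, nat_lit 317, nat_lit 100, nat_lit 8]⟩,
 ⟨nat_lit 5916, nat_lit 6124, ⟨.ofNat (nat_lit 398270), .ofNat (nat_lit 478650), .ofNat (nat_lit 419618), .ofNat (nat_lit 499999), .ofNat (nat_lit 400126), .ofNat (nat_lit 478659), .ofNat (nat_lit 421465), .ofNat (nat_lit 499999)⟩, ⟨.ofNat (nat_lit 0), .ofNat (nat_lit 0), .ofNat (nat_lit 0), .ofNat (nat_lit 0), .ofNat (nat_lit 0), .ofNat (nat_lit 0), .ofNat (nat_lit 0), .ofNat (nat_lit 0)⟩⟩, []⟩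
noncomputable def p008_l47 : Lf2 := ⟨nat_lit 0, nat_lit 5, [nat_lit 4, nat_lit 5, nat_lit 5, nat_lit 20], false, nat_lit 0, nat_lit 0, nat_lit 0, nat_lit 0, ⟨nat_lit 513, nat_lit 0, nat_lit 487, nat_lit 4, nat_lit 180, nat_lit 0, nat_lit 0, nat_lit 0, nat_lit 0, nat_lit 215, nat_lit 38748, nat_lit 262, nat_lit 55753842, nat_lit 0, nat_lit 0, nat_lit 2262326, false, false⟩,
 nat_lit 14646, nat_lit 0, nat_lit 0, nat_lit 0, nat_lit 7388, nat_lit 5569, nat_lit 1707, nat_lit 0, nat_lit 0, nat_lit 375, nat_lit 0, nat_lit 0, nat_lit 0, nat_lit 0, nat_lit 0, nat_lit 487000, nat_lit 0, nat_lit 0, [(nat_lit 6, [(nat_lit 6, nat_lit 487)])],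
 ⟨p008_k14, nat_lit 0, nat_lit 0, nat_lit 200, nat_lit 0, nat_lit 131510, [nat_lit 2880775467, nat_lit 3256118800, nat_lit 3050917200], [], [nat_lit 13461747118, nat_lit 15033613334, nat_lit 14853159246, nat_lit 16374155680], nat_lit 1271250, nat_lit 1271250, nat_lit 1100001, nat_lit 1442500, nat_lit 0, nat_lit 0, [nat_lit 1100000, nat_lit 1442500, nat_lit 1271250], [nat_lit 11, nat_lit 40, nat_lit 20, nat_lit 80, nat_lit 1, nat_lit 345, nat_lit 125, nat_lit 10]⟩, ⟨p008_k16, nat_lit 0, nat_lit 0, nat_lit 343, nat_lit 0, nat_lit 191396, [nat_lit 4087584000, nat_lit 5048946000, nat_lit 6090336000], [], [nat_lit 19544589336, nat_lit 19539232448, nat_lit 21876593988, nat_lit 19653280984], nat_lit 1271250, nat_lit 1271250, nat_lit 1100001, nat_lit 1442500, nat_lit 0, nat_lit 0, [nat_lit 1695000, nat_lit 1271250, nat_lit 1271250], [nat_lit 106, nat_lit 40, nat_lit 20, nat_lit 80, nat_lit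 41, nat_lit 317, nat_lit 100, nat_lit 8]⟩,
 ⟨nat_lit 5916, nat_lit 6325, ⟨.ofNat (nat_lit 396366), .ofNat (nat_lit 478631), .ofNat (nat_lit 417734), .ofNat (nat_lit 499999), .ofNat (nat_lit 400126), .ofNat (nat_lit 478659), .ofNat (nat_lit 421465), .ofNat (nat_lit 499999)⟩, ⟨.ofNat (nat_lit 0), .ofNat (nat_lit 0), .ofNat (nat_lit 0), .ofNat (nat_lit 0), .ofNat (nat_lit 0), .ofNat (nat_lit 0), .ofNat (nat_lit 0), .ofNat (nat_lit 0)⟩⟩, []⟩
noncomputable def p008_l48 : Lf2 := ⟨nat_lit 0, nat_lit 5, [nat_lit 4, nat_lit 5, nat_lit 5, nat_lit 20], false, nat_lit 0, nat_lit 0, nat_lit 0, nat_lit 0, ⟨nat_lit 553, nat_lit 0, nat_lit 447, nat_lit 5, nat_lit 212, nat_lit 0, nat_lit 0, nat_lit 0, nat_lit 0, nat_lit 215, nat_lit 3856, nat_lit 219, nat_lit 52328110, nat_lit 0, nat_lit 0, nat_lit 2628090, true, true⟩,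
 nat_lit 20623, nat_lit 0, nat_lit 0, nat_lit 0, nat_lit 10918, nat_lit 7842, nat_lit 0, nat_lit 0, nat_lit 0, nat_lit 3455, nat_lit 0, nat_lit 0, nat_lit 0, nat_lit 0, nat_lit 0, nat_lit 447000, nat_lit 0, nat_lit 0, [(nat_lit 6, [(nat_lit 6, nat_lit 447)])],
 ⟨p008_k18, nat_lit 0, nat_lit 0, nat_lit 316, nat_lit 0, nat_lit 343440, [nat_lit 3579440001, nat_lit 3605992400], [], [nat_lit 25892255010, nat_lit 22171009020, nat_lit 22816042864, nat_lit 24439307372], nat_lit 1271250, nat_lit 1271250, nat_lit 1271250, nat_lit 1271250, nat_lit 0, nat_lit 0, [nat_lit 1100000, nat_lit 2127500], [nat_lit 70, nat_lit 40, nat_lit 20, nat_lit 80, nat_lit 13, nat_lit 345, nat_lit 125, nat_lit 10]⟩, ⟨p008_k19, nat_lit 0, nat_lit 0, nat_lit 508, nat_lit 0, nat_lit 499833, [nat_lit 4406304000, nat_lit 6565216000], [], [nat_lit 18545474412, nat_lit 14580841524, nat_lit 12776242445, nat_lit 13075871049],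 nat_lit 1271250, nat_lit 1271250, nat_lit 1271250, nat_lit 1271250, nat_lit 0, nat_lit 0, [nat_lit 1695000, nat_lit 1271250], [nat_lit 143, nat_lit 40, nat_lit 20, nat_lit 80, nat_lit 14, nat_lit 345, nat_lit 125, nat_lit 9]⟩,
 ⟨nat_lit 5916, nat_lit 6325, ⟨.ofNat (nat_lit 478631), .ofNat (nat_lit 560879), .ofNat (nat_lit 499999), .ofNat (nat_lit 582240), .ofNat (nat_lit 478659), .ofNat (nat_lit 557177), .ofNat (nat_lit 499999), .ofNat (nat_lit 578509)⟩, ⟨.ofNat (nat_lit 0), .ofNat (nat_lit 0), .ofNat (nat_lit 0), .ofNat (nat_lit 0), .ofNat (nat_lit 0), .ofNat (nat_lit 0), .ofNat (nat_lit 0), .ofNat (nat_lit 0)⟩⟩, []⟩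
noncomputable def p008_l49 : Lf2 := ⟨nat_lit 0, nat_lit 5, [nat_lit 4, nat_lit 5, nat_lit 5, nat_lit 20], false, nat_lit 0, nat_lit 0, nat_lit 0, nat_lit 0, ⟨nat_lit 587, nat_lit 0, nat_lit 413, nat_lit 6, nat_lit 291, nat_lit 0, nat_lit 0, nat_lit 0, nat_lit 0, nat_lit 215, nat_lit 534700, nat_lit 200, nat_lit 43856695, nat_lit 0, nat_lit 0, nat_lit 3222833, true, true⟩,
 nat_lit 14336, nat_lit 0, nat_lit 0, nat_lit 0, nat_lit 6437, nat_lit 5451, nat_lit 0, nat_lit 0, nat_lit 0, nat_lit 2457, nat_lit 0, nat_lit 0, nat_lit 0, nat_lit 0, nat_lit 0, nat_lit 413000, nat_lit 0, nat_lit 0, [(nat_lit 6, [(nat_lit 6, nat_lit 413)])],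
 ⟨p008_k18, nat_lit 0, nat_lit 0, nat_lit 345, nat_lit 0, nat_lit 343440, [nat_lit 3663760000, nat_lit 4080319600], [], [nat_lit 27570617668, nat_lit 28323656220, nat_lit 34986213133, nat_lit 35431276695], nat_lit 1271250, nat_lit 1271250, nat_lit 1271250, nat_lit 1271250, nat_lit 0, nat_lit 0, [nat_lit 1100000, nat_lit 2127500], [nat_lit 70, nat_lit 40, nat_lit 20, nat_lit 80, nat_lit 13, nat_lit 401, nat_lit 175, nat_lit 11]⟩, ⟨p008_k19, nat_lit 0, nat_lit 0, nat_lit 507, nat_lit 0, nat_lit 499833, [nat_lit 4677216000, nat_lit 6968864000], [], [nat_lit 20054740724, nat_lit 20103513268, nat_lit 23568711354, nat_lit 23463727499], nat_lit 1271250, nat_lit 1271250, nat_lit 1271250, nat_lit 1271250, nat_lit 0, nat_lit 0, [nat_lit 1695000, nat_lit 1271250], [nat_lit 143, nat_lit 40, nat_lit 20, nat_lit 80, nat_lit 14, nat_lit 373, nat_lit 150, nat_lit 10]⟩,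
 ⟨nat_lit 5916, nat_lit 6325, ⟨.ofNat (nat_lit 560879), .ofNat (nat_lit 881615), .ofNat (nat_lit 582240), .ofNat (nat_lit 902975), .ofNat (nat_lit 557177), .ofNat (nat_lit 863363), .ofNat (nat_lit 578509), .ofNat (nat_lit 884695)⟩, ⟨.ofNat (nat_lit 0), .ofNat (nat_lit 0), .ofNat (nat_lit 0), .ofNat (nat_lit 0), .ofNat (nat_lit 0), .ofNat (nat_lit 0), .ofNat (nat_lit 0), .ofNat (nat_lit 0)⟩⟩, [⟨nat_lit 13, nat_lit 97, nat_lit 30, nat_lit 100, nat_lit 27444107⟩]⟩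
noncomputable def b_NL_600_450_0_3 : St := ⟨false, nat_lit 1, nat_lit 1, nat_lit 1, nat_lit 20, nat_lit 240, nat_lit 260, nat_lit 180, nat_lit 200, nat_lit 120, nat_lit 396, nat_lit 0, nat_lit 0, nat_lit 0, nat_lit 0, nat_lit 0, nat_lit 0, nat_lit 0, nat_lit 40, nat_lit 0, nat_lit 0, nat_lit 0, nat_lit 0⟩
theorem d_NL_600_450_0_3 (h : EB TB.env) : Dead b_NL_600_450_0_3 := chkB_sound0 h (T :=
(.spl (nat_lit 2) (nat_lit 240)
(.spl (nat_lit 2) (nat_lit 160)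
(.leaf p008_l44)
(.spl (nat_lit 2) (nat_lit 200)
(.spl (nat_lit 6) (nat_lit 20)
(.spl (nat_lit 0) (nat_lit 250)
(.leaf p008_l45)
(.leaf p008_l46))
(.leaf p008_l47))
(.leaf p008_l48)))
(.leaf p008_l49))) (by decide +kernel)
noncomputable def p008_l50 : Lf2 := ⟨nat_lit 0, nat_lit 5, [nat_lit 4, nat_lit 5, nat_lit 5, nat_lit 20], true, nat_lit 0, nat_lit 0, nat_lit 0, nat_lit 0, ⟨nat_lit 0, nat_lit 1000, nat_lit 0, nat_lit 4, nat_lit 99, nat_lit 0, nat_lit 0, nat_lit 0, nat_lit 0, nat_lit 0, nat_lit 0, nat_lit 0, nat_lit 0, nat_lit 0, nat_lit 0, nat_lit 5000000, false, false⟩,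
 nat_lit 0, nat_lit 6643, nat_lit 0, nat_lit 0, nat_lit 3516, nat_lit 0, nat_lit 634, nat_lit 0, nat_lit 0, nat_lit 0, nat_lit 0, nat_lit 0, nat_lit 0, nat_lit 0, nat_lit 0, nat_lit 400000, nat_lit 0, nat_lit 0, [(nat_lit 6, [(nat_lit 1, nat_lit 1000)])],
 ⟨p008_k14, nat_lit 0, nat_lit 0, nat_lit 604, nat_lit 0, nat_lit 624947, [nat_lit 2692266667, nat_lit 3151066667, nat_lit 3294533333], [], [nat_lit 33434633441, nat_lit 32378383413, nat_lit 31475204581, nat_lit 31961899957], nat_lit 1271250, nat_lit 1271250, nat_lit 0, nat_lit 1100001, nat_lit 0, nat_lit 0, [nat_lit 1100000, nat_lit 1442500, nat_lit 1271250], [nat_lit 11, nat_lit 40, nat_lit 20, nat_lit 80, nat_lit 1, nat_lit 345, nat_lit 125, nat_lit 10]⟩, C1.Rw.none,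
 ⟨nat_lit 5916, nat_lit 6325, ⟨.ofNat (nat_lit 67309), .ofNat (nat_lit 396366), .ofNat (nat_lit 88677), .ofNat (nat_lit 417734), .ofNat (nat_lit 85991), .ofNat (nat_lit 400126), .ofNat (nat_lit 107331), .ofNat (nat_lit 421465)⟩, ⟨.ofNat (nat_lit 0), .ofNat (nat_lit 0), .ofNat (nat_lit 0), .ofNat (nat_lit 0), .ofNat (nat_lit 0), .ofNat (nat_lit 0), .ofNat (nat_lit 0), .ofNat (nat_lit 0)⟩⟩, []⟩
noncomputable def p008_l51 : Lf2 := ⟨nat_lit 0, nat_lit 5, [nat_lit 4, nat_lit 5, nat_lit 5, nat_lit 20], false, nat_lit 0, nat_lit 0, nat_lit 0, nat_lit 0, ⟨nat_lit 706, nat_lit 294, nat_lit 0, nat_lit 4, nat_lit 258, nat_lit 0, nat_lit 0, nat_lit 0, nat_lit 0, nat_lit 0, nat_lit 0, nat_lit 0, nat_lit 0, nat_lit 0, nat_lit 0, nat_lit 5000000, false, true⟩,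
 nat_lit 0, nat_lit 8963, nat_lit 0, nat_lit 0, nat_lit 4745, nat_lit 6824, nat_lit 1030, nat_lit 0, nat_lit 0, nat_lit 1702, nat_lit 0, nat_lit 0, nat_lit 0, nat_lit 0, nat_lit 0, nat_lit 117600, nat_lit 0, nat_lit 0, [(nat_lit 6, [(nat_lit 1, nat_lit 294)])],
 ⟨p008_k14, nat_lit 0, nat_lit 0, nat_lit 477, nat_lit 0, nat_lit 624947, [nat_lit 4101254400, nat_lit 5338913600, nat_lit 7880196800], [], [nat_lit 35433141600, nat_lit 35371216230, nat_lit 43775391988, nat_lit 41595628194], nat_lit 1271250, nat_lit 1271250, nat_lit 1100001, nat_lit 3120750, nat_lit 0, nat_lit 0, [nat_lit 1100000, nat_lit 1442500, nat_lit 1271250], [nat_lit 11, nat_lit 40, nat_lit 20, nat_lit 80, nat_lit 1, nat_lit 401, nat_lit 175, nat_lit 12]⟩, ⟨p008_k16, nat_lit 0, nat_lit 0, nat_lit 274, nat_lit 0, nat_lit 0, [nat_lit 5625408000, nat_lit 6948452000, nat_lit 8381632000], [], [nat_lit 18803039564, nat_lit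 19123158300, nat_lit 28879549247, nat_lit 28835527488], nat_lit 0, nat_lit 0, nat_lit 0, nat_lit 0, nat_lit 0, nat_lit 0, [], [nat_lit 106, nat_lit 40, nat_lit 20, nat_lit 80, nat_lit 41, nat_lit 373, nat_lit 150, nat_lit 10]⟩,
 ⟨nat_lit 5916, nat_lit 6325, ⟨.ofNat (nat_lit 396366), .ofNat (nat_lit 881615), .ofNat (nat_lit 417734), .ofNat (nat_lit 902975), .ofNat (nat_lit 400126), .ofNat (nat_lit 863363), .ofNat (nat_lit 421465), .ofNat (nat_lit 884695)⟩, ⟨.ofNat (nat_lit 0), .ofNat (nat_lit 0), .ofNat (nat_lit 0), .ofNat (nat_lit 0), .ofNat (nat_lit 0), .ofNat (nat_lit 0), .ofNat (nat_lit 0), .ofNat (nat_lit 0)⟩⟩, []⟩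
noncomputable def p008_l52 : Lf2 := ⟨nat_lit 0, nat_lit 5, [nat_lit 4, nat_lit 5, nat_lit 5, nat_lit 20], true, nat_lit 0, nat_lit 0, nat_lit 0, nat_lit 0, ⟨nat_lit 0, nat_lit 1000, nat_lit 0, nat_lit 4, nat_lit 99, nat_lit 0, nat_lit 0, nat_lit 0, nat_lit 0, nat_lit 0, nat_lit 0, nat_lit 0, nat_lit 0, nat_lit 0, nat_lit 0, nat_lit 5000000, false, false⟩,
 nat_lit 0, nat_lit 6643, nat_lit 0, nat_lit 0, nat_lit 3516, nat_lit 0, nat_lit 634, nat_lit 0, nat_lit 0, nat_lit 0, nat_lit 0, nat_lit 0, nat_lit 0, nat_lit 0, nat_lit 0, nat_lit 400000, nat_lit 0, nat_lit 0, [(nat_lit 6, [(nat_lit 1, nat_lit 1000)])],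
 ⟨p008_k14, nat_lit 0, nat_lit 0, nat_lit 604, nat_lit 0, nat_lit 624947, [nat_lit 2692266667, nat_lit 3151066667, nat_lit 3294533333], [], [nat_lit 33434633441, nat_lit 32378383413, nat_lit 31475204581, nat_lit 31961899957], nat_lit 1271250, nat_lit 1271250, nat_lit 0, nat_lit 1100001, nat_lit 0, nat_lit 0, [nat_lit 1100000, nat_lit 1442500, nat_lit 1271250], [nat_lit 11, nat_lit 40, nat_lit 20, nat_lit 80, nat_lit 1, nat_lit 345, nat_lit 125, nat_lit 10]⟩, C1.Rw.none,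
 ⟨nat_lit 5916, nat_lit 6325, ⟨.ofNat (nat_lit 67309), .ofNat (nat_lit 396366), .ofNat (nat_lit 88677), .ofNat (nat_lit 417734), .ofNat (nat_lit 85991), .ofNat (nat_lit 400126), .ofNat (nat_lit 107331), .ofNat (nat_lit 421465)⟩, ⟨.ofNat (nat_lit 0), .ofNat (nat_lit 0), .ofNat (nat_lit 0), .ofNat (nat_lit 0), .ofNat (nat_lit 0), .ofNat (nat_lit 0), .ofNat (nat_lit 0), .ofNat (nat_lit 0)⟩⟩, []⟩
noncomputable def p008_l53 : Lf2 := ⟨nat_lit 0, nat_lit 5, [nat_lit 4, nat_lit 5, nat_lit 5, nat_lit 20], true, nat_lit 0, nat_lit 0, nat_lit 0, nat_lit 0, ⟨nat_lit 0, nat_lit 1000, nat_lit 0, nat_lit 4, nat_lit 196, nat_lit 0, nat_lit 0, nat_lit 0, nat_lit 0, nat_lit 0, nat_lit 0, nat_lit 0, nat_lit 0, nat_lit 0, nat_lit 0, nat_lit 5000000, false, true⟩,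
 nat_lit 0, nat_lit 6855, nat_lit 0, nat_lit 0, nat_lit 3629, nat_lit 0, nat_lit 686, nat_lit 0, nat_lit 0, nat_lit 0, nat_lit 0, nat_lit 0, nat_lit 0, nat_lit 0, nat_lit 0, nat_lit 400000, nat_lit 0, nat_lit 0, [(nat_lit 6, [(nat_lit 1, nat_lit 1000)])],
 ⟨p008_k14, nat_lit 0, nat_lit 0, nat_lit 476, nat_lit 0, nat_lit 624947, [nat_lit 2692266667, nat_lit 3151066667, nat_lit 3294533333], [], [nat_lit 27535780290, nat_lit 28059026312, nat_lit 30924137329, nat_lit 29579414512], nat_lit 1271250, nat_lit 1271250, nat_lit 1100001, nat_lit 1785000, nat_lit 0, nat_lit 0, [nat_lit 1100000, nat_lit 1442500, nat_lit 1271250], [nat_lit 11, nat_lit 40, nat_lit 20, nat_lit 80, nat_lit 1, nat_lit 345, nat_lit 125, nat_lit 10]⟩, C1.Rw.none,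
 ⟨nat_lit 5916, nat_lit 6325, ⟨.ofNat (nat_lit 396366), .ofNat (nat_lit 560879), .ofNat (nat_lit 417734), .ofNat (nat_lit 582240), .ofNat (nat_lit 400126), .ofNat (nat_lit 557177), .ofNat (nat_lit 421465), .ofNat (nat_lit 578509)⟩, ⟨.ofNat (nat_lit 0), .ofNat (nat_lit 0), .ofNat (nat_lit 0), .ofNat (nat_lit 0), .ofNat (nat_lit 0), .ofNat (nat_lit 0), .ofNat (nat_lit 0), .ofNat (nat_lit 0)⟩⟩, []⟩
noncomputable def p008_l54 : Lf2 := ⟨nat_lit 0, nat_lit 5, [nat_lit 4, nat_lit 5, nat_lit 5, nat_lit 20], false, nat_lit 0, nat_lit 0, nat_lit 0, nat_lit 0, ⟨nat_lit 685, nat_lit 315, nat_lit 0, nat_lit 6, nat_lit 291, nat_lit 0, nat_lit 0, nat_lit 0, nat_lit 0, nat_lit 0, nat_lit 0, nat_lit 0, nat_lit 0, nat_lit 0, nat_lit 0, nat_lit 5000000, true, true⟩,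
 nat_lit 16901, nat_lit 0, nat_lit 0, nat_lit 0, nat_lit 6133, nat_lit 6427, nat_lit 1364, nat_lit 0, nat_lit 0, nat_lit 1915, nat_lit 0, nat_lit 0, nat_lit 0, nat_lit 0, nat_lit 0, nat_lit 126000, nat_lit 0, nat_lit 0, [(nat_lit 6, [(nat_lit 1, nat_lit 315)])],
 ⟨p008_k14, nat_lit 0, nat_lit 0, nat_lit 354, nat_lit 0, nat_lit 343440, [nat_lit 4059344001, nat_lit 5273836001, nat_lit 7740068000], [], [nat_lit 26967163541, nat_lit 27588194475, nat_lit 34094759464, nat_lit 34645548504], nat_lit 1271250, nat_lit 1271250, nat_lit 1271250, nat_lit 1271250, nat_lit 0, nat_lit 0, [nat_lit 1100000, nat_lit 1442500, nat_lit 1271250], [nat_lit 11, nat_lit 40, nat_lit 20, nat_lit 80, nat_lit 1, nat_lit 401, nat_lit 175, nat_lit 11]⟩, ⟨p008_k16, nat_lit 0, nat_lit 0, nat_lit 509, nat_lit 0, nat_lit 499833, [nat_lit 5458080000, nat_lit 6741770000, nat_lit 8132320000], [], [nat_lit 24241569694, nat_lit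 24179049430, nat_lit 27639978627, nat_lit 27567127559], nat_lit 1271250, nat_lit 1271250, nat_lit 1271250, nat_lit 1271250, nat_lit 0, nat_lit 0, [nat_lit 1695000, nat_lit 1271250, nat_lit 1271250], [nat_lit 106, nat_lit 40, nat_lit 20, nat_lit 80, nat_lit 41, nat_lit 373, nat_lit 150, nat_lit 10]⟩,
 ⟨nat_lit 5916, nat_lit 6325, ⟨.ofNat (nat_lit 560879), .ofNat (nat_lit 881615), .ofNat (nat_lit 582240), .ofNat (nat_lit 902975), .ofNat (nat_lit 557177), .ofNat (nat_lit 863363), .ofNat (nat_lit 578509), .ofNat (nat_lit 884695)⟩, ⟨.ofNat (nat_lit 0), .ofNat (nat_lit 0), .ofNat (nat_lit 0), .ofNat (nat_lit 0), .ofNat (nat_lit 0), .ofNat (nat_lit 0), .ofNat (nat_lit 0), .ofNat (nat_lit 0)⟩⟩, []⟩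
noncomputable def b_NL_600_450_0_4 : St := ⟨false, nat_lit 1, nat_lit 2, nat_lit 2, nat_lit 20, nat_lit 240, nat_lit 260, nat_lit 180, nat_lit 200, nat_lit 0, nat_lit 396, nat_lit 0, nat_lit 0, nat_lit 0, nat_lit 0, nat_lit 0, nat_lit 0, nat_lit 0, nat_lit 40, nat_lit 0, nat_lit 0, nat_lit 0, nat_lit 0⟩
theorem d_NL_600_450_0_4 (h : EB TB.env) : Dead b_NL_600_450_0_4 := chkB_sound0 h (T :=
(.st (nat_lit 1)
(.spl (nat_lit 2) (nat_lit 160)
(.leaf p008_l50)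
(.leaf p008_l51))
(.spl (nat_lit 2) (nat_lit 160)
(.leaf p008_l52)
(.spl (nat_lit 2) (nat_lit 240)
(.leaf p008_l53)
(.leaf p008_l54))))) (by decide +kernel)
noncomputable def p008_l55 : Lf2 := ⟨nat_lit 0, nat_lit 5, [nat_lit 4, nat_lit 5, nat_lit 5, nat_lit 20], true, nat_lit 0, nat_lit 0, nat_lit 0, nat_lit 0, ⟨nat_lit 0, nat_lit 0, nat_lit 1000, nat_lit 5, nat_lit 142, nat_lit 0, nat_lit 0, nat_lit 0, nat_lit 0, nat_lit 215, nat_lit 2346, nat_lit 211, nat_lit 59543172, nat_lit 0, nat_lit 0, nat_lit 1746079, false, false⟩,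
 nat_lit 0, nat_lit 0, nat_lit 0, nat_lit 4297, nat_lit 4482, nat_lit 0, nat_lit 0, nat_lit 0, nat_lit 0, nat_lit 0, nat_lit 0, nat_lit 0, nat_lit 0, nat_lit 0, nat_lit 104, nat_lit 666400, nat_lit 0, nat_lit 0, [(nat_lit 6, [(nat_lit 5, nat_lit 556), (nat_lit 6, nat_lit 444)])],
 ⟨p008_k18, nat_lit 0, nat_lit 0, nat_lit 293, nat_lit 0, nat_lit 0, [nat_lit 3432537600, nat_lit 17504000], [], [nat_lit 15485270541, nat_lit 16840704154, nat_lit 16923538608, nat_lit 17671783260], nat_lit 0, nat_lit 0, nat_lit 0, nat_lit 0, nat_lit 0, nat_lit 0, [], [nat_lit 70, nat_lit 40, nat_lit 20, nat_lit 80, nat_lit 13, nat_lit 345, nat_lit 125, nat_lit 10]⟩, C1.Rw.none,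
 ⟨nat_lit 5916, nat_lit 6325, ⟨.ofNat (nat_lit 96904), .ofNat (nat_lit 582240), .ofNat (nat_lit 118272), .ofNat (nat_lit 603600), .ofNat (nat_lit 115184), .ofNat (nat_lit 578509), .ofNat (nat_lit 136523), .ofNat (nat_lit 599841)⟩, ⟨.ofNat (nat_lit 0), .ofNat (nat_lit 0), .ofNat (nat_lit 0), .ofNat (nat_lit 0), .ofNat (nat_lit 0), .ofNat (nat_lit 0), .ofNat (nat_lit 0), .ofNat (nat_lit 0)⟩⟩, [⟨nat_lit 0, nat_lit 100, nat_lit 97, nat_lit 30, nat_lit 39868036⟩]⟩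
noncomputable def p008_l56 : Lf2 := ⟨nat_lit 0, nat_lit 5, [nat_lit 4, nat_lit 5, nat_lit 5, nat_lit 20], false, nat_lit 0, nat_lit 0, nat_lit 0, nat_lit 0, ⟨nat_lit 1000, nat_lit 0, nat_lit 0, nat_lit 0, nat_lit 0, nat_lit 0, nat_lit 0, nat_lit 0, nat_lit 0, nat_lit 0, nat_lit 0, nat_lit 0, nat_lit 0, nat_lit 0, nat_lit 0, nat_lit 0, false, false⟩,
 nat_lit 0, nat_lit 0, nat_lit 0, nat_lit 1863, nat_lit 2448, nat_lit 0, nat_lit 0, nat_lit 0, nat_lit 0, nat_lit 0, nat_lit 0, nat_lit 0, nat_lit 0, nat_lit 0, nat_lit 0, nat_lit 0, nat_lit 0, nat_lit 0, [],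
 ⟨p008_k14, nat_lit 0, nat_lit 0, nat_lit 214, nat_lit 0, nat_lit 0, [nat_lit 4688000000, nat_lit 6250000000, nat_lit 9842000000], [], [nat_lit 34375707296, nat_lit 35111792464, nat_lit 41034995968, nat_lit 41539494800], nat_lit 0, nat_lit 0, nat_lit 0, nat_lit 0, nat_lit 0, nat_lit 0, [], [nat_lit 11, nat_lit 40, nat_lit 20, nat_lit 80, nat_lit 1, nat_lit 401, nat_lit 175, nat_lit 11]⟩, ⟨p008_k20, nat_lit 0, nat_lit 0, nat_lit 255, nat_lit 0, nat_lit 0, [nat_lit 6250000000, nat_lit 7968000000, nat_lit 11872000000], [], [nat_lit 41767092000, nat_lit 42271362000, nat_lit 46256936000, nat_lit 46689502000], nat_lit 0, nat_lit 0, nat_lit 0, nat_lit 0, nat_lit 0, nat_lit 0, [], [nat_lit 53, nat_lit 40, nat_lit 20, nat_lit 80, nat_lit 14, nat_lit 401, nat_lit 175, nat_lit 10]⟩,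
 zbF0, []⟩
noncomputable def p008_l57 : Lf2 := ⟨nat_lit 0, nat_lit 5, [nat_lit 4, nat_lit 5, nat_lit 5, nat_lit 20], true, nat_lit 0, nat_lit 0, nat_lit 0, nat_lit 0, ⟨nat_lit 0, nat_lit 0, nat_lit 1000, nat_lit 5, nat_lit 142, nat_lit 0, nat_lit 0, nat_lit 0, nat_lit 0, nat_lit 215, nat_lit 2346, nat_lit 211, nat_lit 59543172, nat_lit 0, nat_lit 0, nat_lit 1746079, false, false⟩,
 nat_lit 0, nat_lit 0, nat_lit 0, nat_lit 4297, nat_lit 4482, nat_lit 0, nat_lit 0, nat_lit 0, nat_lit 0, nat_lit 0, nat_lit 0, nat_lit 0, nat_lit 0, nat_lit 0, nat_lit 104, nat_lit 666400, nat_lit 0, nat_lit 0, [(nat_lit 6, [(nat_lit 5, nat_lit 556), (nat_lit 6, nat_lit 444)])],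
 ⟨p008_k18, nat_lit 0, nat_lit 0, nat_lit 293, nat_lit 0, nat_lit 0, [nat_lit 3432537600, nat_lit 17504000], [], [nat_lit 15485270541, nat_lit 16840704154, nat_lit 16923538608, nat_lit 17671783260], nat_lit 0, nat_lit 0, nat_lit 0, nat_lit 0, nat_lit 0, nat_lit 0, [], [nat_lit 70, nat_lit 40, nat_lit 20, nat_lit 80, nat_lit 13, nat_lit 345, nat_lit 125, nat_lit 10]⟩, C1.Rw.none,
 ⟨nat_lit 5916, nat_lit 6325, ⟨.ofNat (nat_lit 96904), .ofNat (nat_lit 582240), .ofNat (nat_lit 118272), .ofNat (nat_lit 603600), .ofNat (nat_lit 115184), .ofNat (nat_lit 578509), .ofNat (nat_lit 136523), .ofNat (nat_lit 599841)⟩, ⟨.ofNat (nat_lit 0), .ofNat (nat_lit 0), .ofNat (nat_lit 0), .ofNat (nat_lit 0), .ofNat (nat_lit 0), .ofNat (nat_lit 0), .ofNat (nat_lit 0), .ofNat (nat_lit 0)⟩⟩, [⟨nat_lit 0, nat_lit 100, nat_lit 97, nat_lit 30, nat_lit 39868036⟩]⟩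
noncomputable def p008_l58 : Lf2 := ⟨nat_lit 0, nat_lit 5, [nat_lit 4, nat_lit 5, nat_lit 5, nat_lit 20], false, nat_lit 0, nat_lit 0, nat_lit 0, nat_lit 0, ⟨nat_lit 99, nat_lit 901, nat_lit 0, nat_lit 6, nat_lit 269, nat_lit 0, nat_lit 0, nat_lit 0, nat_lit 0, nat_lit 0, nat_lit 0, nat_lit 0, nat_lit 46181184, nat_lit 20818816, nat_lit 0, nat_lit 3098411, true, true⟩,
 nat_lit 0, nat_lit 0, nat_lit 2663, nat_lit 0, nat_lit 5349, nat_lit 1141, nat_lit 129, nat_lit 0, nat_lit 0, nat_lit 88, nat_lit 0, nat_lit 0, nat_lit 0, nat_lit 0, nat_lit 0, nat_lit 901000, nat_lit 0, nat_lit 0, [(nat_lit 6, [(nat_lit 2, nat_lit 901)])],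
 ⟨p008_k21, nat_lit 0, nat_lit 0, nat_lit 184, nat_lit 0, nat_lit 0, [nat_lit 3462279601, nat_lit 3036646800, nat_lit 1874997600], [], [nat_lit 21547456349, nat_lit 22489558933, nat_lit 25595335505, nat_lit 26396351625], nat_lit 0, nat_lit 0, nat_lit 0, nat_lit 0, nat_lit 0, nat_lit 0, [], [nat_lit 29, nat_lit 40, nat_lit 20, nat_lit 80, nat_lit 17, nat_lit 373, nat_lit 150, nat_lit 10]⟩, ⟨p008_k22, nat_lit 0, nat_lit 0, nat_lit 793, nat_lit 0, nat_lit 1130158, [nat_lit 618750000, nat_lit 974358000, nat_lit 1175328000], [], [nat_lit 3808316244, nat_lit 3787378204, nat_lit 3889448892, nat_lit 3878966276], nat_lit 1271250, nat_lit 1271250, nat_lit 1271250, nat_lit 1271250, nat_lit 0, nat_lit 0, [nat_lit 1412500, nat_lit 1271250, nat_lit 1271250], [nat_lit 46, nat_lit 40, nat_lit 20, nat_lit 80, nat_lit 41, nat_lit 373, nat_lit 150, nat_lit 9]⟩,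
 ⟨nat_lit 5916, nat_lit 6325, ⟨.ofNat (nat_lit 582240), .ofNat (nat_lit 746719), .ofNat (nat_lit 603600), .ofNat (nat_lit 768080), .ofNat (nat_lit 578509), .ofNat (nat_lit 735527), .ofNat (nat_lit 599841), .ofNat (nat_lit 756859)⟩, ⟨.ofNat (nat_lit 0), .ofNat (nat_lit 0), .ofNat (nat_lit 0), .ofNat (nat_lit 0), .ofNat (nat_lit 0), .ofNat (nat_lit 0), .ofNat (nat_lit 0), .ofNat (nat_lit 0)⟩⟩, []⟩
noncomputable def p008_l59 : Lf2 := ⟨nat_lit 0, nat_lit 5, [nat_lit 4, nat_lit 5, nat_lit 5, nat_lit 20], false, nat_lit 0, nat_lit 0, nat_lit 0, nat_lit 0, ⟨nat_lit 230, nat_lit 770, nat_lit 0, nat_lit 8, nat_lit 332, nat_lit 0, nat_lit 0, nat_lit 0, nat_lit 0, nat_lit 0, nat_lit 0, nat_lit 0, nat_lit 39647290, nat_lit 27352710, nat_lit 0, nat_lit 3381074, true, true⟩,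
 nat_lit 0, nat_lit 0, nat_lit 4602, nat_lit 0, nat_lit 4658, nat_lit 1972, nat_lit 1006, nat_lit 0, nat_lit 0, nat_lit 345, nat_lit 0, nat_lit 0, nat_lit 0, nat_lit 0, nat_lit 0, nat_lit 308000, nat_lit 0, nat_lit 0, [(nat_lit 6, [(nat_lit 1, nat_lit 770)])],
 ⟨p008_k14, nat_lit 0, nat_lit 0, nat_lit 213, nat_lit 0, nat_lit 0, [nat_lit 3151285334, nat_lit 3863821334, nat_lit 4764570666], [], [nat_lit 25956231268, nat_lit 26313695238, nat_lit 30834184276, nat_lit 31154769402], nat_lit 0, nat_lit 0, nat_lit 0, nat_lit 0, nat_lit 0, nat_lit 0, [], [nat_lit 11, nat_lit 40, nat_lit 20, nat_lit 80, nat_lit 1, nat_lit 289, nat_lit 75, nat_lit 8]⟩, ⟨p008_k20, nat_lit 0, nat_lit 0, nat_lit 659, nat_lit 0, nat_lit 866029, [nat_lit 1437500000, nat_lit 1832640000, nat_lit 2730560000], [], [nat_lit 9128076306, nat_lit 9124027548, nat_lit 9718209013, nat_lit 9714420804], nat_lit 1271250, nat_lit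 1271250, nat_lit 1271250, nat_lit 1271250, nat_lit 0, nat_lit 0, [nat_lit 1412500, nat_lit 1271250, nat_lit 1271250], [nat_lit 53, nat_lit 40, nat_lit 20, nat_lit 80, nat_lit 14, nat_lit 272, nat_lit 60, nat_lit 7]⟩,
 ⟨nat_lit 6123, nat_lit 6325, ⟨.ofNat (nat_lit 746773), .ofNat (nat_lit 911289), .ofNat (nat_lit 757456), .ofNat (nat_lit 921972), .ofNat (nat_lit 741122), .ofNat (nat_lit 901871), .ofNat (nat_lit 751796), .ofNat (nat_lit 912544)⟩, ⟨.ofNat (nat_lit 0), .ofNat (nat_lit 0), .ofNat (nat_lit 0), .ofNat (nat_lit 0), .ofNat (nat_lit 0), .ofNat (nat_lit 0), .ofNat (nat_lit 0), .ofNat (nat_lit 0)⟩⟩, [⟨nat_lit 13, nat_lit 97, nat_lit 20, nat_lit 100, nat_lit 127344313⟩]⟩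
noncomputable def p008_l60 : Lf2 := ⟨nat_lit 0, nat_lit 5, [nat_lit 4, nat_lit 5, nat_lit 5, nat_lit 20], false, nat_lit 0, nat_lit 0, nat_lit 0, nat_lit 0, ⟨nat_lit 172, nat_lit 828, nat_lit 0, nat_lit 8, nat_lit 328, nat_lit 0, nat_lit 0, nat_lit 0, nat_lit 0, nat_lit 0, nat_lit 0, nat_lit 0, nat_lit 40094872, nat_lit 26905128, nat_lit 0, nat_lit 3368213, true, true⟩,
 nat_lit 0, nat_lit 0, nat_lit 3605, nat_lit 0, nat_lit 4482, nat_lit 1544, nat_lit 863, nat_lit 0, nat_lit 0, nat_lit 263, nat_lit 0, nat_lit 0, nat_lit 0, nat_lit 0, nat_lit 0, nat_lit 331200, nat_lit 0, nat_lit 0, [(nat_lit 6, [(nat_lit 1, nat_lit 828)])],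
 ⟨p008_k17, nat_lit 0, nat_lit 0, nat_lit 190, nat_lit 0, nat_lit 0, [nat_lit 3035532801, nat_lit 3584171201, nat_lit 4080290399], [], [nat_lit 25603050212, nat_lit 25994394432, nat_lit 30202110232, nat_lit 30505514415], nat_lit 0, nat_lit 0, nat_lit 0, nat_lit 0, nat_lit 0, nat_lit 0, [], [nat_lit 9, nat_lit 40, nat_lit 20, nat_lit 80, nat_lit 2, nat_lit 203, nat_lit 0, nat_lit 6]⟩, ⟨p008_k20, nat_lit 0, nat_lit 0, nat_lit 725, nat_lit 0, nat_lit 1040911, [nat_lit 1075000000, nat_lit 1370496000, nat_lit 2041984000], [], [nat_lit 6812157008, nat_lit 6806802588, nat_lit 7190026880, nat_lit 7182442848], nat_lit 1271250, nat_lit 1271250, nat_lit 1271250, nat_lit 1271250, nat_lit 0, nat_lit 0, [nat_lit 1412500, nat_lit 1271250, nat_lit 1271250], [nat_lit 53, nat_lit 40, nat_lit 20, nat_lit 80, nat_lit 14, nat_lit 272, nat_lit 60, nat_lit 7]⟩,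
 ⟨nat_lit 5916, nat_lit 6124, ⟨.ofNat (nat_lit 741125), .ofNat (nat_lit 893837), .ofNat (nat_lit 751798), .ofNat (nat_lit 904510), .ofNat (nat_lit 735583), .ofNat (nat_lit 884786), .ofNat (nat_lit 746252), .ofNat (nat_lit 895455)⟩, ⟨.ofNat (nat_lit 0), .ofNat (nat_lit 0), .ofNat (nat_lit 0), .ofNat (nat_lit 0), .ofNat (nat_lit 0), .ofNat (nat_lit 0), .ofNat (nat_lit 0), .ofNat (nat_lit 0)⟩⟩, [⟨nat_lit 13, nat_lit 96, nat_lit 25, nat_lit 100, nat_lit 144135051⟩]⟩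
noncomputable def p008_l61 : Lf2 := ⟨nat_lit 0, nat_lit 5, [nat_lit 4, nat_lit 5, nat_lit 5, nat_lit 20], false, nat_lit 0, nat_lit 0, nat_lit 0, nat_lit 0, ⟨nat_lit 405, nat_lit 595, nat_lit 0, nat_lit 8, nat_lit 335, nat_lit 0, nat_lit 0, nat_lit 0, nat_lit 0, nat_lit 0, nat_lit 0, nat_lit 0, nat_lit 39378890, nat_lit 27621110, nat_lit 0, nat_lit 3388343, true, true⟩,
 nat_lit 0, nat_lit 0, nat_lit 7147, nat_lit 0, nat_lit 4900, nat_lit 3239, nat_lit 1177, nat_lit 0, nat_lit 0, nat_lit 1654, nat_lit 0, nat_lit 0, nat_lit 0, nat_lit 0, nat_lit 0, nat_lit 238000, nat_lit 0, nat_lit 0, [(nat_lit 6, [(nat_lit 1, nat_lit 595)])],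
 ⟨p008_k14, nat_lit 0, nat_lit 0, nat_lit 214, nat_lit 0, nat_lit 0, [nat_lit 3500538667, nat_lit 4406134667, nat_lit 5891607778], [], [nat_lit 26702179095, nat_lit 27427254095, nat_lit 31651281734, nat_lit 32299444334], nat_lit 0, nat_lit 0, nat_lit 0, nat_lit 0, nat_lit 0, nat_lit 0, [], [nat_lit 11, nat_lit 40, nat_lit 20, nat_lit 80, nat_lit 1, nat_lit 289, nat_lit 75, nat_lit 8]⟩, ⟨p008_k23, nat_lit 0, nat_lit 0, nat_lit 661, nat_lit 0, nat_lit 1041138, [nat_lit 2531250000, nat_lit 3227040000, nat_lit 3986010000], [], [nat_lit 14766016733, nat_lit 14761878334, nat_lit 15496091793, nat_lit 15485303094], nat_lit 1271250, nat_lit 1271250, nat_lit 1271250, nat_lit 1271250, nat_lit 0, nat_lit 0, [nat_lit 1412500, nat_lit 1271250, nat_lit 1271250], [nat_lit 25, nat_lit 40, nat_lit 20, nat_lit 80, nat_lit 17, nat_lit 272, nat_lit 60, nat_lit 7]⟩,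
 ⟨nat_lit 5916, nat_lit 6325, ⟨.ofNat (nat_lit 757400), .ofNat (nat_lit 921880), .ofNat (nat_lit 768080), .ofNat (nat_lit 932560), .ofNat (nat_lit 746193), .ofNat (nat_lit 903212), .ofNat (nat_lit 756859), .ofNat (nat_lit 913878)⟩, ⟨.ofNat (nat_lit 0), .ofNat (nat_lit 0), .ofNat (nat_lit 0), .ofNat (nat_lit 0), .ofNat (nat_lit 0), .ofNat (nat_lit 0), .ofNat (nat_lit 0), .ofNat (nat_lit 0)⟩⟩, [⟨nat_lit 13, nat_lit 97, nat_lit 18, nat_lit 100, nat_lit 82441983⟩]⟩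
noncomputable def p008_l62 : Lf2 := ⟨nat_lit 0, nat_lit 5, [nat_lit 4, nat_lit 5, nat_lit 5, nat_lit 20], true, nat_lit 0, nat_lit 0, nat_lit 0, nat_lit 0, ⟨nat_lit 0, nat_lit 1000, nat_lit 0, nat_lit 5, nat_lit 206, nat_lit 0, nat_lit 0, nat_lit 0, nat_lit 0, nat_lit 0, nat_lit 0, nat_lit 0, nat_lit 0, nat_lit 0, nat_lit 0, nat_lit 5000000, false, true⟩,
 nat_lit 0, nat_lit 0, nat_lit 0, nat_lit 4397, nat_lit 5234, nat_lit 0, nat_lit 0, nat_lit 0, nat_lit 0, nat_lit 0, nat_lit 0, nat_lit 0, nat_lit 0, nat_lit 0, nat_lit 0, nat_lit 683800, nat_lit 0, nat_lit 0, [(nat_lit 6, [(nat_lit 1, nat_lit 527), (nat_lit 2, nat_lit 473)])],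
 ⟨p008_k18, nat_lit 0, nat_lit 0, nat_lit 293, nat_lit 0, nat_lit 0, [nat_lit 3676679201, nat_lit 2322686800], [], [nat_lit 26770778033, nat_lit 27608386069, nat_lit 32213414361, nat_lit 32817215736], nat_lit 0, nat_lit 0, nat_lit 0, nat_lit 0, nat_lit 0, nat_lit 0, [], [nat_lit 70, nat_lit 40, nat_lit 20, nat_lit 80, nat_lit 13, nat_lit 401, nat_lit 175, nat_lit 12]⟩, C1.Rw.none,
 ⟨nat_lit 5916, nat_lit 6325, ⟨.ofNat (nat_lit 96904), .ofNat (nat_lit 911200), .ofNat (nat_lit 118272), .ofNat (nat_lit 932560), .ofNat (nat_lit 115184), .ofNat (nat_lit 892546), .ofNat (nat_lit 136523), .ofNat (nat_lit 913878)⟩, ⟨.ofNat (nat_lit 0), .ofNat (nat_lit 0), .ofNat (nat_lit 0), .ofNat (nat_lit 0), .ofNat (nat_lit 0), .ofNat (nat_lit 0), .ofNat (nat_lit 0), .ofNat (nat_lit 0)⟩⟩, [⟨nat_lit 13, nat_lit 98, nat_lit 10, nat_lit 100, nat_lit 98771849⟩]⟩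
noncomputable def b_NL_600_500_0_0 : St := ⟨false, nat_lit 0, nat_lit 2, nat_lit 0, nat_lit 20, nat_lit 240, nat_lit 260, nat_lit 200, nat_lit 220, nat_lit 4, nat_lit 400, nat_lit 0, nat_lit 0, nat_lit 0, nat_lit 0, nat_lit 0, nat_lit 0, nat_lit 0, nat_lit 40, nat_lit 0, nat_lit 0, nat_lit 0, nat_lit 0⟩
theorem d_NL_600_500_0_0 (h : EB TB.env) : Dead b_NL_600_500_0_0 := chkB_sound0 h (T :=
(.gv
(.st (nat_lit 1)
(.spl (nat_lit 2) (nat_lit 240)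
(.leaf p008_l55)
(.leaf p008_l56))
(.spl (nat_lit 2) (nat_lit 240)
(.leaf p008_l57)
(.spl (nat_lit 2) (nat_lit 320)
(.leaf p008_l58)
(.spl (nat_lit 1) (nat_lit 210)
(.spl (nat_lit 0) (nat_lit 250)
(.leaf p008_l59)
(.trX (nat_lit 13) (nat_lit 97) (nat_lit 20) (nat_lit 100) (nat_lit 396) (.leaf p008_l60)))
(.leaf p008_l61)))))
(.leaf p008_l62))) (by decide +kernel)
noncomputable def p008_l63 : Lf2 := ⟨nat_lit 0, nat_lit 1, [nat_lit 19, nat_lit 5, nat_lit 5, nat_lit 20], true, nat_lit 0, nat_lit 0, nat_lit 0, nat_lit 0, ⟨nat_lit 0, nat_lit 0, nat_lit 1000, nat_lit 5, nat_lit 50, nat_lit 0, nat_lit 0, nat_lit 0, nat_lit 0, nat_lit 215, nat_lit 24067, nat_lit 253, nat_lit 65963116, nat_lit 0, nat_lit 0, nat_lit 399242, false, false⟩,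
 nat_lit 0, nat_lit 7444, nat_lit 0, nat_lit 0, nat_lit 3940, nat_lit 0, nat_lit 660, nat_lit 0, nat_lit 0, nat_lit 0, nat_lit 0, nat_lit 0, nat_lit 0, nat_lit 0, nat_lit 10, nat_lit 1000000, nat_lit 0, nat_lit 0, [(nat_lit 6, [(nat_lit 6, nat_lit 1000)])],
 ⟨p008_k1, nat_lit 0, nat_lit 0, nat_lit 0, nat_lit 0, nat_lit 267417, [nat_lit 1137066667, nat_lit 504400001, nat_lit 8000000], [], [nat_lit 12971682830, nat_lit 13149752332, nat_lit 12413307949, nat_lit 12547379062], nat_lit 1271250, nat_lit 1271250, nat_lit 21650, nat_lit 111251, nat_lit 0, nat_lit 0, [nat_lit 1100000, nat_lit 1271250, nat_lit 1271250], [nat_lit 124, nat_lit 40, nat_lit 20, nat_lit 40]⟩, C1.Rw.none,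
 ⟨nat_lit 6264, nat_lit 6325, ⟨.ofNat (nat_lit 96904), .ofNat (nat_lit 129809), .ofNat (nat_lit 118272), .ofNat (nat_lit 151177), .ofNat (nat_lit 99692), .ofNat (nat_lit 132370), .ofNat (nat_lit 121053), .ofNat (nat_lit 153731)⟩, ⟨.ofNat (nat_lit 0), .ofNat (nat_lit 0), .ofNat (nat_lit 0), .ofNat (nat_lit 0), .ofNat (nat_lit 0), .ofNat (nat_lit 0), .ofNat (nat_lit 0), .ofNat (nat_lit 0)⟩⟩, [⟨nat_lit 0, nat_lit 100, nat_lit 98, nat_lit 31, nat_lit 283360326⟩]⟩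
noncomputable def p008_l64 : Lf2 := ⟨nat_lit 0, nat_lit 1, [nat_lit 19, nat_lit 5, nat_lit 5, nat_lit 20], true, nat_lit 0, nat_lit 0, nat_lit 0, nat_lit 0, ⟨nat_lit 0, nat_lit 0, nat_lit 1000, nat_lit 5, nat_lit 50, nat_lit 0, nat_lit 0, nat_lit 0, nat_lit 0, nat_lit 215, nat_lit 24067, nat_lit 253, nat_lit 65963116, nat_lit 0, nat_lit 0, nat_lit 399242, false, false⟩,
 nat_lit 0, nat_lit 100000, nat_lit 0, nat_lit 0, nat_lit 52941, nat_lit 0, nat_lit 0, nat_lit 3608, nat_lit 0, nat_lit 0, nat_lit 0, nat_lit 0, nat_lit 0, nat_lit 0, nat_lit 0, nat_lit 1000000, nat_lit 0, nat_lit 0, [(nat_lit 6, [(nat_lit 6, nat_lit 1000)])],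
 ⟨p008_k0, nat_lit 0, nat_lit 0, nat_lit 288, nat_lit 0, nat_lit 267417, [nat_lit 58705066667, nat_lit 71968000000], [], [nat_lit 186738144227, nat_lit 182669867670, nat_lit 164931365151, nat_lit 163882793059], nat_lit 1271250, nat_lit 1271250, nat_lit 21650, nat_lit 111251, nat_lit 0, nat_lit 0, [nat_lit 1100000, nat_lit 1442500], [nat_lit 31, nat_lit 40, nat_lit 20, nat_lit 80, nat_lit 3, nat_lit 215, nat_lit 10, nat_lit 9]⟩, C1.Rw.none,
 ⟨nat_lit 6264, nat_lit 6325, ⟨.ofNat (nat_lit 96904), .ofNat (nat_lit 129809), .ofNat (nat_lit 118272), .ofNat (nat_lit 151177), .ofNat (nat_lit 99692), .ofNat (nat_lit 132370), .ofNat (nat_lit 121053), .ofNat (nat_lit 153731)⟩, ⟨.ofNat (nat_lit 0), .ofNat (nat_lit 0), .ofNat (nat_lit 0), .ofNat (nat_lit 0), .ofNat (nat_lit 0), .ofNat (nat_lit 0), .ofNat (nat_lit 0), .ofNat (nat_lit 0)⟩⟩, [⟨nat_lit 0, nat_lit 100, nat_lit 98, nat_lit 31, nat_lit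 7056313175⟩]⟩
noncomputable def p008_l65 : Lf2 := ⟨nat_lit 3, nat_lit 1, [nat_lit 19, nat_lit 5, nat_lit 5, nat_lit 20], false, nat_lit 0, nat_lit 0, nat_lit 0, nat_lit 0, zbN0,
 nat_lit 0, nat_lit 0, nat_lit 0, nat_lit 0, nat_lit 0, nat_lit 0, nat_lit 0, nat_lit 0, nat_lit 0, nat_lit 0, nat_lit 0, nat_lit 0, nat_lit 0, nat_lit 0, nat_lit 0, nat_lit 0, nat_lit 0, nat_lit 0, [],
 C1.Rw.none, ⟨p008_k24, nat_lit 0, nat_lit 0, nat_lit 166, nat_lit 0, nat_lit 0, [], [], [], nat_lit 0, nat_lit 0, nat_lit 0, nat_lit 0, nat_lit 0, nat_lit 0, [], [nat_lit 26, nat_lit 40, nat_lit 20, nat_lit 80, nat_lit 2, nat_lit 272, nat_lit 60, nat_lit 10]⟩,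
 zbF0, []⟩
noncomputable def p008_l66 : Lf2 := ⟨nat_lit 0, nat_lit 1, [nat_lit 19, nat_lit 5, nat_lit 5, nat_lit 20], true, nat_lit 0, nat_lit 0, nat_lit 0, nat_lit 0, ⟨nat_lit 0, nat_lit 0, nat_lit 1000, nat_lit 5, nat_lit 65, nat_lit 0, nat_lit 0, nat_lit 0, nat_lit 0, nat_lit 215, nat_lit 40017, nat_lit 264, nat_lit 65281113, nat_lit 0, nat_lit 0, nat_lit 596456, false, false⟩,
 nat_lit 0, nat_lit 9026, nat_lit 0, nat_lit 0, nat_lit 4778, nat_lit 0, nat_lit 0, nat_lit 0, nat_lit 0, nat_lit 0, nat_lit 0, nat_lit 0, nat_lit 0, nat_lit 0, nat_lit 10, nat_lit 1000000, nat_lit 0, nat_lit 0, [(nat_lit 6, [(nat_lit 6, nat_lit 1000)])],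
 ⟨p008_k0, nat_lit 0, nat_lit 0, nat_lit 280, nat_lit 0, nat_lit 267417, [nat_lit 1137066667, nat_lit 8000000], [], [nat_lit 12784618651, nat_lit 12855741318, nat_lit 13086502155, nat_lit 12724164437], nat_lit 1271250, nat_lit 1271250, nat_lit 111251, nat_lit 230001, nat_lit 0, nat_lit 0, [nat_lit 1100000, nat_lit 1442500], [nat_lit 31, nat_lit 40, nat_lit 20, nat_lit 80, nat_lit 3, nat_lit 215, nat_lit 10, nat_lit 9]⟩, C1.Rw.none,
 ⟨nat_lit 6264, nat_lit 6325, ⟨.ofNat (nat_lit 129809), .ofNat (nat_lit 170942), .ofNat (nat_lit 151177), .ofNat (nat_lit 192309), .ofNat (nat_lit 132370), .ofNat (nat_lit 173218), .ofNat (nat_lit 153731), .ofNat (nat_lit 194579)⟩, ⟨.ofNat (nat_lit 0), .ofNat (nat_lit 0), .ofNat (nat_lit 0), .ofNat (nat_lit 0), .ofNat (nat_lit 0), .ofNat (nat_lit 0), .ofNat (nat_lit 0), .ofNat (nat_lit 0)⟩⟩, []⟩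
noncomputable def p008_l67 : Lf2 := ⟨nat_lit 0, nat_lit 1, [nat_lit 19, nat_lit 5, nat_lit 5, nat_lit 20], true, nat_lit 0, nat_lit 0, nat_lit 0, nat_lit 0, ⟨nat_lit 0, nat_lit 0, nat_lit 1000, nat_lit 5, nat_lit 51, nat_lit 0, nat_lit 0, nat_lit 0, nat_lit 0, nat_lit 215, nat_lit 24067, nat_lit 253, nat_lit 65926636, nat_lit 0, nat_lit 0, nat_lit 410506, false, false⟩,
 nat_lit 0, nat_lit 7267, nat_lit 0, nat_lit 0, nat_lit 3903, nat_lit 0, nat_lit 657, nat_lit 0, nat_lit 0, nat_lit 0, nat_lit 0, nat_lit 0, nat_lit 0, nat_lit 0, nat_lit 10, nat_lit 1000000, nat_lit 0, nat_lit 0, [(nat_lit 6, [(nat_lit 6, nat_lit 1000)])],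
 ⟨p008_k10, nat_lit 0, nat_lit 0, nat_lit 0, nat_lit 0, nat_lit 271841, [nat_lit 1137066667, nat_lit 504400001, nat_lit 8000000], [], [nat_lit 13165045713, nat_lit 13282874648, nat_lit 12568504130, nat_lit 12685650341], nat_lit 1271250, nat_lit 1271250, nat_lit 21650, nat_lit 111251, nat_lit 0, nat_lit 0, [nat_lit 1100000, nat_lit 1271250, nat_lit 1271250], [nat_lit 124, nat_lit 40, nat_lit 20, nat_lit 40]⟩, C1.Rw.none,
 ⟨nat_lit 6224, nat_lit 6265, ⟨.ofNat (nat_lit 99692), .ofNat (nat_lit 132370), .ofNat (nat_lit 121053), .ofNat (nat_lit 153731), .ofNat (nat_lit 101542), .ofNat (nat_lit 134069), .ofNat (nat_lit 122899), .ofNat (nat_lit 155426)⟩, ⟨.ofNat (nat_lit 0), .ofNat (nat_lit 0), .ofNat (nat_lit 0), .ofNat (nat_lit 0), .ofNat (nat_lit 0), .ofNat (nat_lit 0), .ofNat (nat_lit 0), .ofNat (nat_lit 0)⟩⟩, [⟨nat_lit 0, nat_lit 100, nat_lit 98, nat_lit 32, nat_lit 291023030⟩]⟩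
noncomputable def p008_l68 : Lf2 := ⟨nat_lit 0, nat_lit 1, [nat_lit 19, nat_lit 5, nat_lit 5, nat_lit 20], true, nat_lit 0, nat_lit 0, nat_lit 0, nat_lit 0, ⟨nat_lit 0, nat_lit 0, nat_lit 1000, nat_lit 5, nat_lit 51, nat_lit 0, nat_lit 0, nat_lit 0, nat_lit 0, nat_lit 215, nat_lit 24067, nat_lit 253, nat_lit 65926636, nat_lit 0, nat_lit 0, nat_lit 410506, false, false⟩,
 nat_lit 0, nat_lit 100000, nat_lit 0, nat_lit 0, nat_lit 53721, nat_lit 0, nat_lit 20826, nat_lit 3571, nat_lit 0, nat_lit 0, nat_lit 0, nat_lit 0, nat_lit 0, nat_lit 0, nat_lit 0, nat_lit 1000000, nat_lit 0, nat_lit 0, [(nat_lit 6, [(nat_lit 6, nat_lit 1000)])],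
 ⟨p008_k8, nat_lit 0, nat_lit 0, nat_lit 287, nat_lit 0, nat_lit 271841, [nat_lit 58113066667, nat_lit 71228000000], [], [nat_lit 175323106532, nat_lit 172570962511, nat_lit 153219369007, nat_lit 152538027587], nat_lit 1271250, nat_lit 1271250, nat_lit 21650, nat_lit 111251, nat_lit 0, nat_lit 0, [nat_lit 1100000, nat_lit 1442500], [nat_lit 31, nat_lit 40, nat_lit 20, nat_lit 80, nat_lit 3, nat_lit 215, nat_lit 10, nat_lit 9]⟩, C1.Rw.none,
 ⟨nat_lit 6224, nat_lit 6265, ⟨.ofNat (nat_lit 99692), .ofNat (nat_lit 132370), .ofNat (nat_lit 121053), .ofNat (nat_lit 153731), .ofNat (nat_lit 101542), .ofNat (nat_lit 134069), .ofNat (nat_lit 122899), .ofNat (nat_lit 155426)⟩, ⟨.ofNat (nat_lit 0), .ofNat (nat_lit 0), .ofNat (nat_lit 0), .ofNat (nat_lit 0), .ofNat (nat_lit 0), .ofNat (nat_lit 0), .ofNat (nat_lit 0), .ofNat (nat_lit 0)⟩⟩, [⟨nat_lit 0, nat_lit 100, nat_lit 98, nat_lit 32, nat_lit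 7149951870⟩]⟩
noncomputable def p008_l69 : Lf2 := ⟨nat_lit 0, nat_lit 1, [nat_lit 19, nat_lit 5, nat_lit 5, nat_lit 20], false, nat_lit 0, nat_lit 0, nat_lit 0, nat_lit 0, ⟨nat_lit 1000, nat_lit 0, nat_lit 0, nat_lit 0, nat_lit 0, nat_lit 0, nat_lit 0, nat_lit 0, nat_lit 0, nat_lit 0, nat_lit 0, nat_lit 0, nat_lit 0, nat_lit 0, nat_lit 0, nat_lit 0, false, false⟩,
 nat_lit 0, nat_lit 14074, nat_lit 0, nat_lit 0, nat_lit 7560, nat_lit 100000, nat_lit 60000, nat_lit 0, nat_lit 0, nat_lit 28425, nat_lit 4407, nat_lit 0, nat_lit 0, nat_lit 0, nat_lit 0, nat_lit 0, nat_lit 0, nat_lit 0, [],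
 ⟨p008_k8, nat_lit 0, nat_lit 0, nat_lit 287, nat_lit 0, nat_lit 271841, [nat_lit 4688000000, nat_lit 6250000000], [], [nat_lit 19420708741, nat_lit 19715710793, nat_lit 16592424280, nat_lit 16885529240], nat_lit 1271250, nat_lit 1271250, nat_lit 21650, nat_lit 111251, nat_lit 0, nat_lit 0, [nat_lit 1100000, nat_lit 1442500], [nat_lit 31, nat_lit 40, nat_lit 20, nat_lit 80, nat_lit 3, nat_lit 215, nat_lit 10, nat_lit 9]⟩, ⟨p008_k24, nat_lit 0, nat_lit 0, nat_lit 0, nat_lit 0, nat_lit 0, [nat_lit 94390000000, nat_lit 113736000000], [], [nat_lit 158265392000, nat_lit 172296230400, nat_lit 134038096000, nat_lit 144225740000], nat_lit 0, nat_lit 0, nat_lit 0, nat_lit 0, nat_lit 0, nat_lit 0, [], [nat_lit 26, nat_lit 40, nat_lit 20, nat_lit 80]⟩,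
 zbF0, [⟨nat_lit 0, nat_lit 100, nat_lit 98, nat_lit 27, nat_lit 10204081633⟩]⟩
noncomputable def p008_l70 : Lf2 := ⟨nat_lit 3, nat_lit 1, [nat_lit 19, nat_lit 5, nat_lit 5, nat_lit 20], false, nat_lit 0, nat_lit 0, nat_lit 0, nat_lit 0, zbN0,
 nat_lit 0, nat_lit 0, nat_lit 0, nat_lit 0, nat_lit 0, nat_lit 0, nat_lit 0, nat_lit 0, nat_lit 0, nat_lit 0, nat_lit 0, nat_lit 0, nat_lit 0, nat_lit 0, nat_lit 0, nat_lit 0, nat_lit 0, nat_lit 0, [],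
 C1.Rw.none, ⟨p008_k24, nat_lit 0, nat_lit 0, nat_lit 166, nat_lit 0, nat_lit 0, [], [], [], nat_lit 0, nat_lit 0, nat_lit 0, nat_lit 0, nat_lit 0, nat_lit 0, [], [nat_lit 26, nat_lit 40, nat_lit 20, nat_lit 80, nat_lit 2, nat_lit 272, nat_lit 60, nat_lit 10]⟩,
 zbF0, []⟩
noncomputable def p008_l71 : Lf2 := ⟨nat_lit 0, nat_lit 1, [nat_lit 19, nat_lit 5, nat_lit 5, nat_lit 20], true, nat_lit 0, nat_lit 0, nat_lit 0, nat_lit 0, ⟨nat_lit 0, nat_lit 0, nat_lit 1000, nat_lit 5, nat_lit 66, nat_lit 0, nat_lit 0, nat_lit 0, nat_lit 0, nat_lit 215, nat_lit 40017, nat_lit 264, nat_lit 65239418, nat_lit 0, nat_lit 0, nat_lit 607736, false, false⟩,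
 nat_lit 0, nat_lit 8391, nat_lit 0, nat_lit 0, nat_lit 4507, nat_lit 0, nat_lit 924, nat_lit 0, nat_lit 0, nat_lit 0, nat_lit 0, nat_lit 0, nat_lit 0, nat_lit 0, nat_lit 10, nat_lit 1000000, nat_lit 0, nat_lit 0, [(nat_lit 6, [(nat_lit 6, nat_lit 1000)])],
 ⟨p008_k8, nat_lit 0, nat_lit 0, nat_lit 279, nat_lit 0, nat_lit 271841, [nat_lit 1137066667, nat_lit 8000000], [], [nat_lit 12649776715, nat_lit 12705425753, nat_lit 12963993997, nat_lit 12736136302], nat_lit 1271250, nat_lit 1271250, nat_lit 111251, nat_lit 230001, nat_lit 0, nat_lit 0, [nat_lit 1100000, nat_lit 1442500], [nat_lit 31, nat_lit 40, nat_lit 20, nat_lit 80, nat_lit 3, nat_lit 215, nat_lit 10, nat_lit 9]⟩, C1.Rw.none,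
 ⟨nat_lit 6224, nat_lit 6265, ⟨.ofNat (nat_lit 132370), .ofNat (nat_lit 173218), .ofNat (nat_lit 153731), .ofNat (nat_lit 194579), .ofNat (nat_lit 134069), .ofNat (nat_lit 174728), .ofNat (nat_lit 155426), .ofNat (nat_lit 196084)⟩, ⟨.ofNat (nat_lit 0), .ofNat (nat_lit 0), .ofNat (nat_lit 0), .ofNat (nat_lit 0), .ofNat (nat_lit 0), .ofNat (nat_lit 0), .ofNat (nat_lit 0), .ofNat (nat_lit 0)⟩⟩, []⟩
noncomputable def p008_l72 : Lf2 := ⟨nat_lit 0, nat_lit 1, [nat_lit 19, nat_lit 5, nat_lit 5, nat_lit 20], true, nat_lit 0, nat_lit 0, nat_lit 0, nat_lit 0, ⟨nat_lit 0, nat_lit 0, nat_lit 1000, nat_lit 5, nat_lit 60, nat_lit 0, nat_lit 0, nat_lit 0, nat_lit 0, nat_lit 215, nat_lit 33750, nat_lit 260, nat_lit 65508402, nat_lit 0, nat_lit 0, nat_lit 533551, false, false⟩,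
 nat_lit 0, nat_lit 7219, nat_lit 0, nat_lit 0, nat_lit 3915, nat_lit 0, nat_lit 646, nat_lit 0, nat_lit 0, nat_lit 0, nat_lit 0, nat_lit 0, nat_lit 0, nat_lit 0, nat_lit 10, nat_lit 1000000, nat_lit 0, nat_lit 0, [(nat_lit 6, [(nat_lit 6, nat_lit 1000)])],
 ⟨p008_k25, nat_lit 0, nat_lit 0, nat_lit 287, nat_lit 0, nat_lit 290570, [nat_lit 1137066667, nat_lit 8000000], [], [nat_lit 13521275123, nat_lit 13795354929, nat_lit 13689594242, nat_lit 13194773477], nat_lit 1271250, nat_lit 1271250, nat_lit 21650, nat_lit 230001, nat_lit 0, nat_lit 0, [nat_lit 1100000, nat_lit 1442500], [nat_lit 31, nat_lit 40, nat_lit 20, nat_lit 80, nat_lit 3, nat_lit 215, nat_lit 10, nat_lit 9]⟩, C1.Rw.none,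
 ⟨nat_lit 6123, nat_lit 6225, ⟨.ofNat (nat_lit 101542), .ofNat (nat_lit 174728), .ofNat (nat_lit 122899), .ofNat (nat_lit 196084), .ofNat (nat_lit 106133), .ofNat (nat_lit 178476), .ofNat (nat_lit 127481), .ofNat (nat_lit 199824)⟩, ⟨.ofNat (nat_lit 0), .ofNat (nat_lit 0), .ofNat (nat_lit 0), .ofNat (nat_lit 0), .ofNat (nat_lit 0), .ofNat (nat_lit 0), .ofNat (nat_lit 0), .ofNat (nat_lit 0)⟩⟩, [⟨nat_lit 0, nat_lit 100, nat_lit 97, nat_lit 35, nat_lit 88229495⟩]⟩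
noncomputable def p008_l73 : Lf2 := ⟨nat_lit 0, nat_lit 1, [nat_lit 19, nat_lit 5, nat_lit 5, nat_lit 20], false, nat_lit 0, nat_lit 0, nat_lit 0, nat_lit 0, ⟨nat_lit 1000, nat_lit 0, nat_lit 0, nat_lit 0, nat_lit 0, nat_lit 0, nat_lit 0, nat_lit 0, nat_lit 0, nat_lit 0, nat_lit 0, nat_lit 0, nat_lit 0, nat_lit 0, nat_lit 0, nat_lit 0, false, false⟩,
 nat_lit 0, nat_lit 7948, nat_lit 0, nat_lit 0, nat_lit 4207, nat_lit 7726, nat_lit 0, nat_lit 0, nat_lit 0, nat_lit 0, nat_lit 0, nat_lit 0, nat_lit 0, nat_lit 0, nat_lit 0, nat_lit 0, nat_lit 0, nat_lit 0, [],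
 ⟨p008_k0, nat_lit 0, nat_lit 0, nat_lit 272, nat_lit 0, nat_lit 297815, [nat_lit 4688000000, nat_lit 6250000000], [], [nat_lit 33207865048, nat_lit 33674197671, nat_lit 33056566096, nat_lit 33504802148], nat_lit 1271250, nat_lit 1271250, nat_lit 230001, nat_lit 490000, nat_lit 0, nat_lit 0, [nat_lit 1100000, nat_lit 1442500], [nat_lit 31, nat_lit 40, nat_lit 20, nat_lit 80, nat_lit 3, nat_lit 226, nat_lit 20, nat_lit 9]⟩, ⟨p008_k24, nat_lit 0, nat_lit 0, nat_lit 67, nat_lit 0, nat_lit 0, [nat_lit 6250000000, nat_lit 7968000000], [], [nat_lit 12126699168, nat_lit 14101506880, nat_lit 10569615224, nat_lit 12492420548], nat_lit 0, nat_lit 0, nat_lit 0, nat_lit 0, nat_lit 0, nat_lit 0, [], [nat_lit 26, nat_lit 40, nat_lit 20, nat_lit 80, nat_lit 2, nat_lit 289, nat_lit 75, nat_lit 10]⟩,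
 zbF0, []⟩
noncomputable def p008_l74 : Lf2 := ⟨nat_lit 0, nat_lit 2, [nat_lit 10, nat_lit 5, nat_lit 5, nat_lit 20], true, nat_lit 0, nat_lit 0, nat_lit 0, nat_lit 0, ⟨nat_lit 0, nat_lit 0, nat_lit 1000, nat_lit 5, nat_lit 51, nat_lit 0, nat_lit 0, nat_lit 0, nat_lit 0, nat_lit 215, nat_lit 25350, nat_lit 254, nat_lit 65912286, nat_lit 0, nat_lit 0, nat_lit 414910, false, false⟩,
 nat_lit 0, nat_lit 7560, nat_lit 0, nat_lit 0, nat_lit 4002, nat_lit 0, nat_lit 113, nat_lit 0, nat_lit 0, nat_lit 0, nat_lit 0, nat_lit 0, nat_lit 0, nat_lit 0, nat_lit 44, nat_lit 1000000, nat_lit 0, nat_lit 0, [(nat_lit 6, [(nat_lit 6, nat_lit 1000)])],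
 ⟨p008_k26, nat_lit 0, nat_lit 0, nat_lit 0, nat_lit 0, nat_lit 258005, [nat_lit 1681066667, nat_lit 1358400000, nat_lit 17600000], [], [nat_lit 13401560013, nat_lit 13953032694, nat_lit 12783599430, nat_lit 13332053908], nat_lit 1271250, nat_lit 1271250, nat_lit 21650, nat_lit 111251, nat_lit 0, nat_lit 0, [nat_lit 1100000, nat_lit 1271250, nat_lit 1271250], [nat_lit 105, nat_lit 40, nat_lit 20, nat_lit 40]⟩, C1.Rw.none,
 ⟨nat_lit 6123, nat_lit 6325, ⟨.ofNat (nat_lit 96904), .ofNat (nat_lit 129809), .ofNat (nat_lit 118272), .ofNat (nat_lit 151177), .ofNat (nat_lit 106133), .ofNat (nat_lit 138285), .ofNat (nat_lit 127481), .ofNat (nat_lit 159634)⟩, ⟨.ofNat (nat_lit 0), .ofNat (nat_lit 0), .ofNat (nat_lit 0), .ofNat (nat_lit 0), .ofNat (nat_lit 0), .ofNat (nat_lit 0), .ofNat (nat_lit 0), .ofNat (nat_lit 0)⟩⟩, [⟨nat_lit 0, nat_lit 100, nat_lit 97, nat_lit 35, nat_lit 299556185⟩]⟩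
noncomputable def p008_l75 : Lf2 := ⟨nat_lit 0, nat_lit 2, [nat_lit 10, nat_lit 5, nat_lit 5, nat_lit 20], true, nat_lit 0, nat_lit 0, nat_lit 0, nat_lit 0, ⟨nat_lit 0, nat_lit 0, nat_lit 1000, nat_lit 5, nat_lit 51, nat_lit 0, nat_lit 0, nat_lit 0, nat_lit 0, nat_lit 215, nat_lit 25350, nat_lit 254, nat_lit 65912286, nat_lit 0, nat_lit 0, nat_lit 414910, false, false⟩,
 nat_lit 0, nat_lit 100000, nat_lit 0, nat_lit 0, nat_lit 52941, nat_lit 0, nat_lit 0, nat_lit 2643, nat_lit 0, nat_lit 0, nat_lit 0, nat_lit 0, nat_lit 0, nat_lit 0, nat_lit 0, nat_lit 1000000, nat_lit 0, nat_lit 0, [(nat_lit 6, [(nat_lit 6, nat_lit 1000)])],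
 ⟨p008_k9, nat_lit 0, nat_lit 0, nat_lit 317, nat_lit 0, nat_lit 258005, [nat_lit 43265066667, nat_lit 52668000001, nat_lit 61723199999], [], [nat_lit 132698144229, nat_lit 119137222373, nat_lit 110891365153, nat_lit 106413526382], nat_lit 1271250, nat_lit 1271250, nat_lit 21650, nat_lit 111251, nat_lit 0, nat_lit 0, [nat_lit 1100000, nat_lit 1442500, nat_lit 1271250], [nat_lit 9, nat_lit 40, nat_lit 20, nat_lit 80, nat_lit 2, nat_lit 215, nat_lit 10, nat_lit 8]⟩, C1.Rw.none,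
 ⟨nat_lit 6123, nat_lit 6325, ⟨.ofNat (nat_lit 96904), .ofNat (nat_lit 129809), .ofNat (nat_lit 118272), .ofNat (nat_lit 151177), .ofNat (nat_lit 106133), .ofNat (nat_lit 138285), .ofNat (nat_lit 127481), .ofNat (nat_lit 159634)⟩, ⟨.ofNat (nat_lit 0), .ofNat (nat_lit 0), .ofNat (nat_lit 0), .ofNat (nat_lit 0), .ofNat (nat_lit 0), .ofNat (nat_lit 0), .ofNat (nat_lit 0), .ofNat (nat_lit 0)⟩⟩, [⟨nat_lit 0, nat_lit 100, nat_lit 98, nat_lit 27, nat_lit 7057142096⟩]⟩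
noncomputable def p008_l76 : Lf2 := ⟨nat_lit 0, nat_lit 2, [nat_lit 10, nat_lit 5, nat_lit 5, nat_lit 20], false, nat_lit 0, nat_lit 0, nat_lit 0, nat_lit 0, ⟨nat_lit 0, nat_lit 0, nat_lit 1000, nat_lit 5, nat_lit 51, nat_lit 0, nat_lit 0, nat_lit 0, nat_lit 0, nat_lit 215, nat_lit 25350, nat_lit 254, nat_lit 65912286, nat_lit 0, nat_lit 0, nat_lit 414910, false, false⟩,
 nat_lit 0, nat_lit 11284, nat_lit 0, nat_lit 0, nat_lit 5973, nat_lit 100000, nat_lit 0, nat_lit 0, nat_lit 0, nat_lit 36234, nat_lit 4904, nat_lit 0, nat_lit 0, nat_lit 0, nat_lit 80, nat_lit 1000000, nat_lit 0, nat_lit 0, [(nat_lit 6, [(nat_lit 6, nat_lit 1000)])],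
 ⟨p008_k9, nat_lit 0, nat_lit 0, nat_lit 317, nat_lit 0, nat_lit 258005, [nat_lit 2257066667, nat_lit 1408000000, nat_lit 211200000], [], [nat_lit 16542376425, nat_lit 17553001986, nat_lit 14082054719, nat_lit 15345587434], nat_lit 1271250, nat_lit 1271250, nat_lit 21650, nat_lit 111251, nat_lit 0, nat_lit 0, [nat_lit 1100000, nat_lit 1442500, nat_lit 1271250], [nat_lit 9, nat_lit 40, nat_lit 20, nat_lit 80, nat_lit 2, nat_lit 215, nat_lit 10, nat_lit 8]⟩, ⟨p008_k27, nat_lit 0, nat_lit 0, nat_lit 0, nat_lit 0, nat_lit 0, [nat_lit 98080000000, nat_lit 117696000000, nat_lit 137312000000], [], [nat_lit 152324783751, nat_lit 164493280000, nat_lit 125729600000, nat_lit 135280600000], nat_lit 0, nat_lit 0, nat_lit 0, nat_lit 0, nat_lit 0, nat_lit 0, [], [nat_lit 25, nat_lit 40, nat_lit 20, nat_lit 80]⟩,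
 ⟨nat_lit 6123, nat_lit 6325, ⟨.ofNat (nat_lit 96904), .ofNat (nat_lit 129809), .ofNat (nat_lit 118272), .ofNat (nat_lit 151177), .ofNat (nat_lit 106133), .ofNat (nat_lit 138285), .ofNat (nat_lit 127481), .ofNat (nat_lit 159634)⟩, ⟨.ofNat (nat_lit 0), .ofNat (nat_lit 0), .ofNat (nat_lit 0), .ofNat (nat_lit 0), .ofNat (nat_lit 0), .ofNat (nat_lit 0), .ofNat (nat_lit 0), .ofNat (nat_lit 0)⟩⟩, [⟨nat_lit 0, nat_lit 100, nat_lit 98, nat_lit 27, nat_lit 10204081633⟩]⟩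
noncomputable def p008_l77 : Lf2 := ⟨nat_lit 3, nat_lit 2, [nat_lit 10, nat_lit 5, nat_lit 5, nat_lit 20], false, nat_lit 0, nat_lit 0, nat_lit 0, nat_lit 0, zbN0,
 nat_lit 0, nat_lit 0, nat_lit 0, nat_lit 0, nat_lit 0, nat_lit 0, nat_lit 0, nat_lit 0, nat_lit 0, nat_lit 0, nat_lit 0, nat_lit 0, nat_lit 0, nat_lit 0, nat_lit 0, nat_lit 0, nat_lit 0, nat_lit 0, [],
 C1.Rw.none, ⟨p008_k28, nat_lit 0, nat_lit 0, nat_lit 285, nat_lit 0, nat_lit 0, [], [], [], nat_lit 0, nat_lit 0, nat_lit 0, nat_lit 0, nat_lit 0, nat_lit 0, [], [nat_lit 51, nat_lit 40, nat_lit 20, nat_lit 80, nat_lit 1, nat_lit 272, nat_lit 60, nat_lit 9]⟩,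
 zbF0, []⟩
noncomputable def p008_l78 : Lf2 := ⟨nat_lit 0, nat_lit 2, [nat_lit 10, nat_lit 5, nat_lit 5, nat_lit 20], true, nat_lit 0, nat_lit 0, nat_lit 0, nat_lit 0, ⟨nat_lit 0, nat_lit 0, nat_lit 1000, nat_lit 5, nat_lit 66, nat_lit 0, nat_lit 0, nat_lit 0, nat_lit 0, nat_lit 215, nat_lit 41667, nat_lit 265, nat_lit 65223075, nat_lit 0, nat_lit 0, nat_lit 612136, false, false⟩,
 nat_lit 0, nat_lit 8638, nat_lit 0, nat_lit 0, nat_lit 4573, nat_lit 0, nat_lit 0, nat_lit 0, nat_lit 0, nat_lit 0, nat_lit 0, nat_lit 0, nat_lit 0, nat_lit 0, nat_lit 80, nat_lit 1000000, nat_lit 0, nat_lit 0, [(nat_lit 6, [(nat_lit 6, nat_lit 1000)])],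
 ⟨p008_k9, nat_lit 0, nat_lit 0, nat_lit 295, nat_lit 0, nat_lit 258005, [nat_lit 2257066667, nat_lit 1408000000, nat_lit 211200000], [], [nat_lit 13100333411, nat_lit 13333706234, nat_lit 13409644475, nat_lit 12268896173], nat_lit 1271250, nat_lit 1271250, nat_lit 111251, nat_lit 230001, nat_lit 0, nat_lit 0, [nat_lit 1100000, nat_lit 1442500, nat_lit 1271250], [nat_lit 9, nat_lit 40, nat_lit 20, nat_lit 80, nat_lit 2, nat_lit 215, nat_lit 10, nat_lit 8]⟩, C1.Rw.none,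
 ⟨nat_lit 6123, nat_lit 6325, ⟨.ofNat (nat_lit 129809), .ofNat (nat_lit 170942), .ofNat (nat_lit 151177), .ofNat (nat_lit 192309), .ofNat (nat_lit 138285), .ofNat (nat_lit 178476), .ofNat (nat_lit 159634), .ofNat (nat_lit 199824)⟩, ⟨.ofNat (nat_lit 0), .ofNat (nat_lit 0), .ofNat (nat_lit 0), .ofNat (nat_lit 0), .ofNat (nat_lit 0), .ofNat (nat_lit 0), .ofNat (nat_lit 0), .ofNat (nat_lit 0)⟩⟩, []⟩
noncomputable def p008_l79 : Lf2 := ⟨nat_lit 0, nat_lit 2, [nat_lit 10, nat_lit 5, nat_lit 5, nat_lit 20], true, nat_lit 0, nat_lit 0, nat_lit 0, nat_lit 0, ⟨nat_lit 0, nat_lit 0, nat_lit 1000, nat_lit 5, nat_lit 90, nat_lit 0, nat_lit 0, nat_lit 0, nat_lit 0, nat_lit 215, nat_lit 77067, nat_lit 283, nat_lit 63742858, nat_lit 0, nat_lit 0, nat_lit 972060, false, false⟩,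
 nat_lit 0, nat_lit 9932, nat_lit 0, nat_lit 0, nat_lit 5258, nat_lit 0, nat_lit 0, nat_lit 0, nat_lit 0, nat_lit 0, nat_lit 0, nat_lit 0, nat_lit 0, nat_lit 0, nat_lit 80, nat_lit 1000000, nat_lit 0, nat_lit 0, [(nat_lit 6, [(nat_lit 6, nat_lit 1000)])],
 ⟨p008_k9, nat_lit 0, nat_lit 0, nat_lit 275, nat_lit 0, nat_lit 258005, [nat_lit 2257066667, nat_lit 1408000000, nat_lit 211200000], [], [nat_lit 12329876235, nat_lit 12739430984, nat_lit 13521660179, nat_lit 12211666285], nat_lit 1271250, nat_lit 1271250, nat_lit 230001, nat_lit 490000, nat_lit 0, nat_lit 0, [nat_lit 1100000, nat_lit 1442500, nat_lit 1271250], [nat_lit 9, nat_lit 40, nat_lit 20, nat_lit 80, nat_lit 2, nat_lit 226, nat_lit 20, nat_lit 8]⟩, C1.Rw.none,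
 ⟨nat_lit 6123, nat_lit 6325, ⟨.ofNat (nat_lit 170942), .ofNat (nat_lit 253206), .ofNat (nat_lit 192309), .ofNat (nat_lit 274574), .ofNat (nat_lit 178476), .ofNat (nat_lit 258856), .ofNat (nat_lit 199824), .ofNat (nat_lit 280205)⟩, ⟨.ofNat (nat_lit 0), .ofNat (nat_lit 0), .ofNat (nat_lit 0), .ofNat (nat_lit 0), .ofNat (nat_lit 0), .ofNat (nat_lit 0), .ofNat (nat_lit 0), .ofNat (nat_lit 0)⟩⟩, []⟩
noncomputable def p008_l80 : Lf2 := ⟨nat_lit 0, nat_lit 4, [nat_lit 38, nat_lit 5, nat_lit 5, nat_lit 20], true, nat_lit 0, nat_lit 0, nat_lit 0, nat_lit 0, ⟨nat_lit 0, nat_lit 0, nat_lit 1000, nat_lit 5, nat_lit 50, nat_lit 0, nat_lit 0, nat_lit 0, nat_lit 0, nat_lit 215, nat_lit 22817, nat_lit 252, nat_lit 65979021, nat_lit 0, nat_lit 0, nat_lit 394301, false, false⟩,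
 nat_lit 0, nat_lit 4359, nat_lit 0, nat_lit 0, nat_lit 2307, nat_lit 0, nat_lit 0, nat_lit 0, nat_lit 111, nat_lit 0, nat_lit 0, nat_lit 0, nat_lit 0, nat_lit 0, nat_lit 61, nat_lit 696400, nat_lit 0, nat_lit 0, [(nat_lit 6, [(nat_lit 5, nat_lit 506), (nat_lit 6, nat_lit 494)])],
 ⟨p008_k29, nat_lit 0, nat_lit 0, nat_lit 0, nat_lit 0, nat_lit 227193, [nat_lit 2175976534, nat_lit 1141951200, nat_lit 176799200], [], [nat_lit 10108806068, nat_lit 10853452974, nat_lit 9834412545, nat_lit 10429696700], nat_lit 1271250, nat_lit 1271250, nat_lit 21650, nat_lit 88400, nat_lit 0, nat_lit 0, [nat_lit 1100000, nat_lit 1442500, nat_lit 1271250], [nat_lit 9, nat_lit 40, nat_lit 20, nat_lit 80]⟩, C1.Rw.none,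
 ⟨nat_lit 6123, nat_lit 6325, ⟨.ofNat (nat_lit 96904), .ofNat (nat_lit 121583), .ofNat (nat_lit 118272), .ofNat (nat_lit 142951), .ofNat (nat_lit 106133), .ofNat (nat_lit 130247), .ofNat (nat_lit 127481), .ofNat (nat_lit 151595)⟩, ⟨.ofNat (nat_lit 0), .ofNat (nat_lit 0), .ofNat (nat_lit 0), .ofNat (nat_lit 0), .ofNat (nat_lit 0), .ofNat (nat_lit 0), .ofNat (nat_lit 0), .ofNat (nat_lit 0)⟩⟩, [⟨nat_lit 0, nat_lit 100, nat_lit 98, nat_lit 27, nat_lit 219666277⟩]⟩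
noncomputable def p008_l81 : Lf2 := ⟨nat_lit 0, nat_lit 4, [nat_lit 38, nat_lit 5, nat_lit 5, nat_lit 20], true, nat_lit 0, nat_lit 0, nat_lit 0, nat_lit 0, ⟨nat_lit 0, nat_lit 0, nat_lit 1000, nat_lit 5, nat_lit 50, nat_lit 0, nat_lit 0, nat_lit 0, nat_lit 0, nat_lit 215, nat_lit 22817, nat_lit 252, nat_lit 65979021, nat_lit 0, nat_lit 0, nat_lit 394301, false, false⟩,
 nat_lit 0, nat_lit 7506, nat_lit 0, nat_lit 0, nat_lit 3973, nat_lit 0, nat_lit 0, nat_lit 0, nat_lit 10, nat_lit 0, nat_lit 0, nat_lit 0, nat_lit 0, nat_lit 0, nat_lit 80, nat_lit 1000000, nat_lit 0, nat_lit 0, [(nat_lit 6, [(nat_lit 6, nat_lit 1000)])],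
 ⟨p008_k29, nat_lit 0, nat_lit 0, nat_lit 0, nat_lit 0, nat_lit 227193, [nat_lit 2257066667, nat_lit 1408000000, nat_lit 211200000], [], [nat_lit 13318540825, nat_lit 13676583790, nat_lit 13418951346, nat_lit 13097801974], nat_lit 1271250, nat_lit 1271250, nat_lit 21650, nat_lit 88400, nat_lit 0, nat_lit 0, [nat_lit 1100000, nat_lit 1442500, nat_lit 1271250], [nat_lit 9, nat_lit 40, nat_lit 20, nat_lit 80]⟩, C1.Rw.none,
 ⟨nat_lit 6123, nat_lit 6325, ⟨.ofNat (nat_lit 96904), .ofNat (nat_lit 121583), .ofNat (nat_lit 118272), .ofNat (nat_lit 142951), .ofNat (nat_lit 106133), .ofNat (nat_lit 130247), .ofNat (nat_lit 127481), .ofNat (nat_lit 151595)⟩, ⟨.ofNat (nat_lit 0), .ofNat (nat_lit 0), .ofNat (nat_lit 0), .ofNat (nat_lit 0), .ofNat (nat_lit 0), .ofNat (nat_lit 0), .ofNat (nat_lit 0), .ofNat (nat_lit 0)⟩⟩, [⟨nat_lit 0, nat_lit 100, nat_lit 97, nat_lit 35, nat_lit 60891041⟩]⟩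
noncomputable def p008_l82 : Lf2 := ⟨nat_lit 0, nat_lit 3, [nat_lit 45, nat_lit 5, nat_lit 5, nat_lit 20], true, nat_lit 0, nat_lit 0, nat_lit 0, nat_lit 0, ⟨nat_lit 0, nat_lit 0, nat_lit 1000, nat_lit 5, nat_lit 49, nat_lit 0, nat_lit 0, nat_lit 0, nat_lit 0, nat_lit 215, nat_lit 22817, nat_lit 252, nat_lit 66014653, nat_lit 0, nat_lit 0, nat_lit 383163, false, false⟩,
 nat_lit 0, nat_lit 100000, nat_lit 0, nat_lit 0, nat_lit 52941, nat_lit 0, nat_lit 11765, nat_lit 2311, nat_lit 0, nat_lit 0, nat_lit 0, nat_lit 0, nat_lit 0, nat_lit 0, nat_lit 0, nat_lit 1000000, nat_lit 0, nat_lit 0, [(nat_lit 6, [(nat_lit 6, nat_lit 1000)])],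
 ⟨p008_k30, nat_lit 0, nat_lit 0, nat_lit 0, nat_lit 0, nat_lit 201049, [nat_lit 37953066667, nat_lit 46028000001, nat_lit 53755199999], [], [nat_lit 73257474204, nat_lit 75157838108, nat_lit 68547402522, nat_lit 65714657151], nat_lit 1271250, nat_lit 1271250, nat_lit 21650, nat_lit 88400, nat_lit 0, nat_lit 0, [nat_lit 1100000, nat_lit 1442500, nat_lit 1271250], [nat_lit 9, nat_lit 40, nat_lit 20, nat_lit 80]⟩, C1.Rw.none,
 ⟨nat_lit 6224, nat_lit 6325, ⟨.ofNat (nat_lit 96904), .ofNat (nat_lit 121583), .ofNat (nat_lit 118272), .ofNat (nat_lit 142951), .ofNat (nat_lit 101542), .ofNat (nat_lit 125937), .ofNat (nat_lit 122899), .ofNat (nat_lit 147294)⟩, ⟨.ofNat (nat_lit 0), .ofNat (nat_lit 0), .ofNat (nat_lit 0), .ofNat (nat_lit 0), .ofNat (nat_lit 0), .ofNat (nat_lit 0), .ofNat (nat_lit 0), .ofNat (nat_lit 0)⟩⟩, [⟨nat_lit 0, nat_lit 100, nat_lit 98, nat_lit 32, nat_lit 4115021408⟩]⟩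
noncomputable def p008_l83 : Lf2 := ⟨nat_lit 2, nat_lit 3, [nat_lit 45, nat_lit 5, nat_lit 5, nat_lit 20], true, nat_lit 0, nat_lit 0, nat_lit 0, nat_lit 0, zbN0,
 nat_lit 0, nat_lit 0, nat_lit 0, nat_lit 0, nat_lit 0, nat_lit 0, nat_lit 0, nat_lit 0, nat_lit 0, nat_lit 0, nat_lit 0, nat_lit 0, nat_lit 0, nat_lit 0, nat_lit 0, nat_lit 0, nat_lit 0, nat_lit 0, [],
 ⟨p008_k31, nat_lit 0, nat_lit 0, nat_lit 0, nat_lit 0, nat_lit 201049, [], [], [], nat_lit 1271250, nat_lit 1271250, nat_lit 21650, nat_lit 88400, nat_lit 0, nat_lit 0, [nat_lit 490000, nat_lit 1100000, nat_lit 1442500, nat_lit 1271250], [nat_lit 98, nat_lit 40, nat_lit 20, nat_lit 80]⟩, C1.Rw.none,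
 zbF0, []⟩
noncomputable def p008_l84 : Lf2 := ⟨nat_lit 0, nat_lit 4, [nat_lit 38, nat_lit 5, nat_lit 5, nat_lit 20], true, nat_lit 0, nat_lit 0, nat_lit 0, nat_lit 0, ⟨nat_lit 0, nat_lit 0, nat_lit 1000, nat_lit 5, nat_lit 49, nat_lit 0, nat_lit 0, nat_lit 0, nat_lit 0, nat_lit 215, nat_lit 22817, nat_lit 252, nat_lit 66014653, nat_lit 0, nat_lit 0, nat_lit 383163, false, false⟩,
 nat_lit 0, nat_lit 100000, nat_lit 0, nat_lit 0, nat_lit 52941, nat_lit 0, nat_lit 11782, nat_lit 2318, nat_lit 0, nat_lit 0, nat_lit 0, nat_lit 0, nat_lit 0, nat_lit 0, nat_lit 0, nat_lit 1000000, nat_lit 0, nat_lit 0, [(nat_lit 6, [(nat_lit 6, nat_lit 1000)])],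
 ⟨p008_k29, nat_lit 0, nat_lit 0, nat_lit 0, nat_lit 0, nat_lit 168509, [nat_lit 38065066667, nat_lit 46168000001, nat_lit 53923199999], [], [nat_lit 73538327329, nat_lit 75438691233, nat_lit 68939402522, nat_lit 65995510276], nat_lit 1271250, nat_lit 1271250, nat_lit 21650, nat_lit 88400, nat_lit 0, nat_lit 0, [nat_lit 1100000, nat_lit 1442500, nat_lit 1271250], [nat_lit 9, nat_lit 40, nat_lit 20, nat_lit 80]⟩, C1.Rw.none,
 ⟨nat_lit 6224, nat_lit 6325, ⟨.ofNat (nat_lit 96904), .ofNat (nat_lit 121583), .ofNat (nat_lit 118272), .ofNat (nat_lit 142951), .ofNat (nat_lit 101542), .ofNat (nat_lit 125937), .ofNat (nat_lit 122899), .ofNat (nat_lit 147294)⟩, ⟨.ofNat (nat_lit 0), .ofNat (nat_lit 0), .ofNat (nat_lit 0), .ofNat (nat_lit 0), .ofNat (nat_lit 0), .ofNat (nat_lit 0), .ofNat (nat_lit 0), .ofNat (nat_lit 0)⟩⟩, [⟨nat_lit 0, nat_lit 100, nat_lit 98, nat_lit 32, nat_lit 4115021408⟩]⟩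
noncomputable def p008_l85 : Lf2 := ⟨nat_lit 0, nat_lit 4, [nat_lit 38, nat_lit 5, nat_lit 5, nat_lit 20], true, nat_lit 0, nat_lit 0, nat_lit 0, nat_lit 0, ⟨nat_lit 0, nat_lit 0, nat_lit 1000, nat_lit 5, nat_lit 50, nat_lit 0, nat_lit 0, nat_lit 0, nat_lit 0, nat_lit 215, nat_lit 24067, nat_lit 253, nat_lit 65956946, nat_lit 0, nat_lit 0, nat_lit 401155, false, false⟩,
 nat_lit 0, nat_lit 25997, nat_lit 0, nat_lit 0, nat_lit 14101, nat_lit 0, nat_lit 1453, nat_lit 0, nat_lit 0, nat_lit 0, nat_lit 0, nat_lit 0, nat_lit 0, nat_lit 0, nat_lit 80, nat_lit 1000000, nat_lit 0, nat_lit 0, [(nat_lit 6, [(nat_lit 6, nat_lit 1000)])],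
 ⟨p008_k32, nat_lit 0, nat_lit 0, nat_lit 0, nat_lit 0, nat_lit 212391, [nat_lit 2257066667, nat_lit 1408000000, nat_lit 211200000], [], [nat_lit 8633942313, nat_lit 7550344199, nat_lit 4285697319, nat_lit 4224298397], nat_lit 1271250, nat_lit 1271250, nat_lit 21650, nat_lit 88400, nat_lit 0, nat_lit 0, [nat_lit 1100000, nat_lit 1442500, nat_lit 1271250], [nat_lit 9, nat_lit 40, nat_lit 20, nat_lit 80]⟩, C1.Rw.none,
 ⟨nat_lit 6164, nat_lit 6225, ⟨.ofNat (nat_lit 101542), .ofNat (nat_lit 125937), .ofNat (nat_lit 122899), .ofNat (nat_lit 147294), .ofNat (nat_lit 104302), .ofNat (nat_lit 128528), .ofNat (nat_lit 125653), .ofNat (nat_lit 149880)⟩, ⟨.ofNat (nat_lit 0), .ofNat (nat_lit 0), .ofNat (nat_lit 0), .ofNat (nat_lit 0), .ofNat (nat_lit 0), .ofNat (nat_lit 0), .ofNat (nat_lit 0), .ofNat (nat_lit 0)⟩⟩, [⟨nat_lit 0, nat_lit 100, nat_lit 98, nat_lit 34, nat_lit 1949711905⟩]⟩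
noncomputable def p008_l86 : Lf2 := ⟨nat_lit 0, nat_lit 4, [nat_lit 38, nat_lit 5, nat_lit 5, nat_lit 20], true, nat_lit 0, nat_lit 0, nat_lit 0, nat_lit 0, ⟨nat_lit 0, nat_lit 0, nat_lit 1000, nat_lit 5, nat_lit 51, nat_lit 0, nat_lit 0, nat_lit 0, nat_lit 0, nat_lit 215, nat_lit 24067, nat_lit 253, nat_lit 65920343, nat_lit 0, nat_lit 0, nat_lit 412439, false, false⟩,
 nat_lit 0, nat_lit 100000, nat_lit 0, nat_lit 0, nat_lit 55029, nat_lit 0, nat_lit 13305, nat_lit 2862, nat_lit 0, nat_lit 0, nat_lit 0, nat_lit 0, nat_lit 0, nat_lit 0, nat_lit 0, nat_lit 1000000, nat_lit 0, nat_lit 0, [(nat_lit 6, [(nat_lit 6, nat_lit 1000)])],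
 ⟨p008_k33, nat_lit 0, nat_lit 0, nat_lit 0, nat_lit 0, nat_lit 218149, [nat_lit 46769066667, nat_lit 57048000001, nat_lit 66979199999], [], [nat_lit 88525091631, nat_lit 89349997507, nat_lit 78777203051, nat_lit 79491359451], nat_lit 1271250, nat_lit 1271250, nat_lit 21650, nat_lit 88400, nat_lit 0, nat_lit 0, [nat_lit 1100000, nat_lit 1442500, nat_lit 1271250], [nat_lit 9, nat_lit 40, nat_lit 20, nat_lit 80]⟩, C1.Rw.none,
 ⟨nat_lit 6123, nat_lit 6165, ⟨.ofNat (nat_lit 104302), .ofNat (nat_lit 128528), .ofNat (nat_lit 125653), .ofNat (nat_lit 149880), .ofNat (nat_lit 106133), .ofNat (nat_lit 130247), .ofNat (nat_lit 127481), .ofNat (nat_lit 151595)⟩, ⟨.ofNat (nat_lit 0), .ofNat (nat_lit 0), .ofNat (nat_lit 0), .ofNat (nat_lit 0), .ofNat (nat_lit 0), .ofNat (nat_lit 0), .ofNat (nat_lit 0), .ofNat (nat_lit 0)⟩⟩, [⟨nat_lit 0, nat_lit 100, nat_lit 97, nat_lit 35, nat_lit 4335399351⟩]⟩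
noncomputable def p008_l87 : Lf2 := ⟨nat_lit 0, nat_lit 4, [nat_lit 38, nat_lit 5, nat_lit 5, nat_lit 20], true, nat_lit 0, nat_lit 0, nat_lit 0, nat_lit 0, ⟨nat_lit 0, nat_lit 0, nat_lit 1000, nat_lit 5, nat_lit 50, nat_lit 0, nat_lit 0, nat_lit 0, nat_lit 0, nat_lit 215, nat_lit 22817, nat_lit 252, nat_lit 65979021, nat_lit 0, nat_lit 0, nat_lit 394301, false, false⟩,
 nat_lit 0, nat_lit 100000, nat_lit 0, nat_lit 0, nat_lit 52941, nat_lit 0, nat_lit 0, nat_lit 3042, nat_lit 0, nat_lit 0, nat_lit 0, nat_lit 0, nat_lit 0, nat_lit 0, nat_lit 0, nat_lit 1000000, nat_lit 0, nat_lit 0, [(nat_lit 6, [(nat_lit 6, nat_lit 1000)])],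
 ⟨p008_k29, nat_lit 0, nat_lit 0, nat_lit 305, nat_lit 0, nat_lit 227193, [nat_lit 49649066667, nat_lit 60648000001, nat_lit 71299199999], [], [nat_lit 155042144229, nat_lit 147646588975, nat_lit 138687059922, nat_lit 140660685696], nat_lit 1271250, nat_lit 1271250, nat_lit 21650, nat_lit 88400, nat_lit 0, nat_lit 0, [nat_lit 1100000, nat_lit 1442500, nat_lit 1271250], [nat_lit 9, nat_lit 40, nat_lit 20, nat_lit 80, nat_lit 2, nat_lit 215, nat_lit 10, nat_lit 8]⟩, C1.Rw.none,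
 ⟨nat_lit 6123, nat_lit 6325, ⟨.ofNat (nat_lit 96904), .ofNat (nat_lit 121583), .ofNat (nat_lit 118272), .ofNat (nat_lit 142951), .ofNat (nat_lit 106133), .ofNat (nat_lit 130247), .ofNat (nat_lit 127481), .ofNat (nat_lit 151595)⟩, ⟨.ofNat (nat_lit 0), .ofNat (nat_lit 0), .ofNat (nat_lit 0), .ofNat (nat_lit 0), .ofNat (nat_lit 0), .ofNat (nat_lit 0), .ofNat (nat_lit 0), .ofNat (nat_lit 0)⟩⟩, [⟨nat_lit 0, nat_lit 100, nat_lit 97, nat_lit 35, nat_lit 3047641257⟩]⟩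
noncomputable def p008_l88 : Lf2 := ⟨nat_lit 3, nat_lit 4, [nat_lit 38, nat_lit 5, nat_lit 5, nat_lit 20], false, nat_lit 0, nat_lit 0, nat_lit 0, nat_lit 0, zbN0,
 nat_lit 0, nat_lit 0, nat_lit 0, nat_lit 0, nat_lit 0, nat_lit 0, nat_lit 0, nat_lit 0, nat_lit 0, nat_lit 0, nat_lit 0, nat_lit 0, nat_lit 0, nat_lit 0, nat_lit 0, nat_lit 0, nat_lit 0, nat_lit 0, [],
 C1.Rw.none, ⟨p008_k34, nat_lit 0, nat_lit 0, nat_lit 285, nat_lit 0, nat_lit 0, [], [], [], nat_lit 0, nat_lit 0, nat_lit 0, nat_lit 0, nat_lit 0, nat_lit 0, [], [nat_lit 51, nat_lit 40, nat_lit 20, nat_lit 80, nat_lit 1, nat_lit 272, nat_lit 60, nat_lit 9]⟩,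
 zbF0, []⟩
noncomputable def p008_l89 : Lf2 := ⟨nat_lit 0, nat_lit 4, [nat_lit 38, nat_lit 5, nat_lit 5, nat_lit 20], true, nat_lit 0, nat_lit 0, nat_lit 0, nat_lit 0, ⟨nat_lit 0, nat_lit 0, nat_lit 1000, nat_lit 5, nat_lit 56, nat_lit 0, nat_lit 0, nat_lit 0, nat_lit 0, nat_lit 215, nat_lit 29400, nat_lit 257, nat_lit 65700106, nat_lit 0, nat_lit 0, nat_lit 478444, false, false⟩,
 nat_lit 0, nat_lit 8355, nat_lit 0, nat_lit 0, nat_lit 4423, nat_lit 0, nat_lit 0, nat_lit 0, nat_lit 0, nat_lit 0, nat_lit 0, nat_lit 0, nat_lit 0, nat_lit 0, nat_lit 80, nat_lit 1000000, nat_lit 0, nat_lit 0, [(nat_lit 6, [(nat_lit 6, nat_lit 1000)])],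
 ⟨p008_k29, nat_lit 0, nat_lit 0, nat_lit 289, nat_lit 0, nat_lit 227193, [nat_lit 2257066667, nat_lit 1408000000, nat_lit 211200000], [], [nat_lit 13291126706, nat_lit 13518711872, nat_lit 13331344211, nat_lit 13161663002], nat_lit 1271250, nat_lit 1271250, nat_lit 88400, nat_lit 111251, nat_lit 0, nat_lit 0, [nat_lit 1100000, nat_lit 1442500, nat_lit 1271250], [nat_lit 9, nat_lit 40, nat_lit 20, nat_lit 80, nat_lit 2, nat_lit 215, nat_lit 10, nat_lit 8]⟩, C1.Rw.none,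
 ⟨nat_lit 6123, nat_lit 6325, ⟨.ofNat (nat_lit 121583), .ofNat (nat_lit 129809), .ofNat (nat_lit 142951), .ofNat (nat_lit 151177), .ofNat (nat_lit 130247), .ofNat (nat_lit 138285), .ofNat (nat_lit 151595), .ofNat (nat_lit 159634)⟩, ⟨.ofNat (nat_lit 0), .ofNat (nat_lit 0), .ofNat (nat_lit 0), .ofNat (nat_lit 0), .ofNat (nat_lit 0), .ofNat (nat_lit 0), .ofNat (nat_lit 0), .ofNat (nat_lit 0)⟩⟩, []⟩
noncomputable def p008_l90 : Lf2 := ⟨nat_lit 0, nat_lit 4, [nat_lit 38, nat_lit 5, nat_lit 5, nat_lit 20], true, nat_lit 0, nat_lit 0, nat_lit 0, nat_lit 0, ⟨nat_lit 0, nat_lit 0, nat_lit 1000, nat_lit 5, nat_lit 66, nat_lit 0, nat_lit 0, nat_lit 0, nat_lit 0, nat_lit 215, nat_lit 41667, nat_lit 265, nat_lit 65223075, nat_lit 0, nat_lit 0, nat_lit 612136, false, false⟩,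
 nat_lit 0, nat_lit 8620, nat_lit 0, nat_lit 0, nat_lit 4563, nat_lit 0, nat_lit 0, nat_lit 0, nat_lit 0, nat_lit 0, nat_lit 0, nat_lit 0, nat_lit 0, nat_lit 0, nat_lit 80, nat_lit 1000000, nat_lit 0, nat_lit 0, [(nat_lit 6, [(nat_lit 6, nat_lit 1000)])],
 ⟨p008_k29, nat_lit 0, nat_lit 0, nat_lit 283, nat_lit 0, nat_lit 227193, [nat_lit 2257066667, nat_lit 1408000000, nat_lit 211200000], [], [nat_lit 13115734131, nat_lit 13319335654, nat_lit 13425407515, nat_lit 12452485942], nat_lit 1271250, nat_lit 1271250, nat_lit 111251, nat_lit 230001, nat_lit 0, nat_lit 0, [nat_lit 1100000, nat_lit 1442500, nat_lit 1271250], [nat_lit 9, nat_lit 40, nat_lit 20, nat_lit 80, nat_lit 2, nat_lit 215, nat_lit 10, nat_lit 8]⟩, C1.Rw.none,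
 ⟨nat_lit 6123, nat_lit 6325, ⟨.ofNat (nat_lit 129809), .ofNat (nat_lit 170942), .ofNat (nat_lit 151177), .ofNat (nat_lit 192309), .ofNat (nat_lit 138285), .ofNat (nat_lit 178476), .ofNat (nat_lit 159634), .ofNat (nat_lit 199824)⟩, ⟨.ofNat (nat_lit 0), .ofNat (nat_lit 0), .ofNat (nat_lit 0), .ofNat (nat_lit 0), .ofNat (nat_lit 0), .ofNat (nat_lit 0), .ofNat (nat_lit 0), .ofNat (nat_lit 0)⟩⟩, []⟩
noncomputable def p008_l91 : Lf2 := ⟨nat_lit 0, nat_lit 4, [nat_lit 38, nat_lit 5, nat_lit 5, nat_lit 20], true, nat_lit 0, nat_lit 0, nat_lit 0, nat_lit 0, ⟨nat_lit 0, nat_lit 0, nat_lit 1000, nat_lit 5, nat_lit 90, nat_lit 0, nat_lit 0, nat_lit 0, nat_lit 0, nat_lit 215, nat_lit 77067, nat_lit 283, nat_lit 63742858, nat_lit 0, nat_lit 0, nat_lit 972060, false, false⟩,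
 nat_lit 0, nat_lit 9908, nat_lit 0, nat_lit 0, nat_lit 5245, nat_lit 0, nat_lit 0, nat_lit 0, nat_lit 0, nat_lit 0, nat_lit 0, nat_lit 0, nat_lit 0, nat_lit 0, nat_lit 80, nat_lit 1000000, nat_lit 0, nat_lit 0, [(nat_lit 6, [(nat_lit 6, nat_lit 1000)])],
 ⟨p008_k29, nat_lit 0, nat_lit 0, nat_lit 267, nat_lit 0, nat_lit 227193, [nat_lit 2257066667, nat_lit 1408000000, nat_lit 211200000], [], [nat_lit 12350368187, nat_lit 12725355260, nat_lit 13541776847, nat_lit 12235021812], nat_lit 1271250, nat_lit 1271250, nat_lit 230001, nat_lit 490000, nat_lit 0, nat_lit 0, [nat_lit 1100000, nat_lit 1442500, nat_lit 1271250], [nat_lit 9, nat_lit 40, nat_lit 20, nat_lit 80, nat_lit 2, nat_lit 226, nat_lit 20, nat_lit 8]⟩, C1.Rw.none,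
 ⟨nat_lit 6123, nat_lit 6325, ⟨.ofNat (nat_lit 170942), .ofNat (nat_lit 253206), .ofNat (nat_lit 192309), .ofNat (nat_lit 274574), .ofNat (nat_lit 178476), .ofNat (nat_lit 258856), .ofNat (nat_lit 199824), .ofNat (nat_lit 280205)⟩, ⟨.ofNat (nat_lit 0), .ofNat (nat_lit 0), .ofNat (nat_lit 0), .ofNat (nat_lit 0), .ofNat (nat_lit 0), .ofNat (nat_lit 0), .ofNat (nat_lit 0), .ofNat (nat_lit 0)⟩⟩, []⟩
noncomputable def p008_l92 : Lf2 := ⟨nat_lit 0, nat_lit 5, [nat_lit 4, nat_lit 5, nat_lit 5, nat_lit 20], true, nat_lit 0, nat_lit 0, nat_lit 0, nat_lit 0, ⟨nat_lit 0, nat_lit 0, nat_lit 1000, nat_lit 5, nat_lit 76, nat_lit 0, nat_lit 0, nat_lit 0, nat_lit 0, nat_lit 215, nat_lit 54150, nat_lit 272, nat_lit 64678509, nat_lit 0, nat_lit 0, nat_lit 752726, false, false⟩,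
 nat_lit 0, nat_lit 7661, nat_lit 0, nat_lit 0, nat_lit 4055, nat_lit 0, nat_lit 0, nat_lit 0, nat_lit 0, nat_lit 0, nat_lit 0, nat_lit 0, nat_lit 0, nat_lit 0, nat_lit 147, nat_lit 1000000, nat_lit 0, nat_lit 0, [(nat_lit 6, [(nat_lit 6, nat_lit 1000)])],
 ⟨p008_k14, nat_lit 0, nat_lit 0, nat_lit 349, nat_lit 0, nat_lit 161079, [nat_lit 3329066667, nat_lit 3042400001, nat_lit 177599999], [], [nat_lit 14345442185, nat_lit 14651952993, nat_lit 15972025689, nat_lit 14961750824], nat_lit 1271250, nat_lit 1271250, nat_lit 21650, nat_lit 490000, nat_lit 0, nat_lit 0, [nat_lit 1100000, nat_lit 1442500, nat_lit 1271250], [nat_lit 11, nat_lit 40, nat_lit 20, nat_lit 80, nat_lit 1, nat_lit 317, nat_lit 100, nat_lit 10]⟩, C1.Rw.none,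
 ⟨nat_lit 6123, nat_lit 6325, ⟨.ofNat (nat_lit 96904), .ofNat (nat_lit 253206), .ofNat (nat_lit 118272), .ofNat (nat_lit 274574), .ofNat (nat_lit 106133), .ofNat (nat_lit 258856), .ofNat (nat_lit 127481), .ofNat (nat_lit 280205)⟩, ⟨.ofNat (nat_lit 0), .ofNat (nat_lit 0), .ofNat (nat_lit 0), .ofNat (nat_lit 0), .ofNat (nat_lit 0), .ofNat (nat_lit 0), .ofNat (nat_lit 0), .ofNat (nat_lit 0)⟩⟩, [⟨nat_lit 0, nat_lit 100, nat_lit 97, nat_lit 35, nat_lit 549319⟩]⟩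
noncomputable def p008_l93 : Lf2 := ⟨nat_lit 0, nat_lit 2, [nat_lit 10, nat_lit 5, nat_lit 5, nat_lit 20], true, nat_lit 0, nat_lit 0, nat_lit 0, nat_lit 0, ⟨nat_lit 0, nat_lit 0, nat_lit 1000, nat_lit 5, nat_lit 78, nat_lit 0, nat_lit 0, nat_lit 0, nat_lit 0, nat_lit 215, nat_lit 56067, nat_lit 273, nat_lit 64545655, nat_lit 0, nat_lit 0, nat_lit 785427, false, false⟩,
 nat_lit 0, nat_lit 6883, nat_lit 0, nat_lit 0, nat_lit 3823, nat_lit 0, nat_lit 460, nat_lit 0, nat_lit 0, nat_lit 0, nat_lit 0, nat_lit 0, nat_lit 0, nat_lit 0, nat_lit 80, nat_lit 1000000, nat_lit 0, nat_lit 0, [(nat_lit 6, [(nat_lit 6, nat_lit 1000)])],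
 ⟨p008_k35, nat_lit 0, nat_lit 0, nat_lit 366, nat_lit 0, nat_lit 310836, [nat_lit 2257066667, nat_lit 1408000000, nat_lit 211200000], [], [nat_lit 13820505538, nat_lit 14112392627, nat_lit 14410257150, nat_lit 13934020306], nat_lit 1271250, nat_lit 1271250, nat_lit 21650, nat_lit 490000, nat_lit 0, nat_lit 0, [nat_lit 1100000, nat_lit 1442500, nat_lit 1271250], [nat_lit 9, nat_lit 40, nat_lit 20, nat_lit 80, nat_lit 2, nat_lit 226, nat_lit 20, nat_lit 8]⟩, C1.Rw.none,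
 ⟨nat_lit 6020, nat_lit 6124, ⟨.ofNat (nat_lit 106133), .ofNat (nat_lit 258856), .ofNat (nat_lit 127481), .ofNat (nat_lit 280205), .ofNat (nat_lit 110680), .ofNat (nat_lit 261640), .ofNat (nat_lit 132022), .ofNat (nat_lit 282982)⟩, ⟨.ofNat (nat_lit 0), .ofNat (nat_lit 0), .ofNat (nat_lit 0), .ofNat (nat_lit 0), .ofNat (nat_lit 0), .ofNat (nat_lit 0), .ofNat (nat_lit 0), .ofNat (nat_lit 0)⟩⟩, [⟨nat_lit 0, nat_lit 100, nat_lit 97, nat_lit 37, nat_lit 72035070⟩]⟩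
noncomputable def p008_l94 : Lf2 := ⟨nat_lit 0, nat_lit 2, [nat_lit 10, nat_lit 5, nat_lit 5, nat_lit 20], true, nat_lit 0, nat_lit 0, nat_lit 0, nat_lit 0, ⟨nat_lit 0, nat_lit 0, nat_lit 1000, nat_lit 5, nat_lit 79, nat_lit 0, nat_lit 0, nat_lit 0, nat_lit 0, nat_lit 215, nat_lit 60000, nat_lit 275, nat_lit 64456536, nat_lit 0, nat_lit 0, nat_lit 807048, false, false⟩,
 nat_lit 0, nat_lit 6598, nat_lit 0, nat_lit 0, nat_lit 3752, nat_lit 0, nat_lit 394, nat_lit 0, nat_lit 0, nat_lit 0, nat_lit 0, nat_lit 0, nat_lit 0, nat_lit 0, nat_lit 80, nat_lit 1000000, nat_lit 0, nat_lit 0, [(nat_lit 6, [(nat_lit 6, nat_lit 1000)])],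
 ⟨p008_k36, nat_lit 0, nat_lit 0, nat_lit 374, nat_lit 0, nat_lit 325448, [nat_lit 2257066667, nat_lit 1408000000, nat_lit 211200000], [], [nat_lit 14168589443, nat_lit 14458093374, nat_lit 13962346991, nat_lit 13520659313], nat_lit 1271250, nat_lit 1271250, nat_lit 21650, nat_lit 490000, nat_lit 0, nat_lit 0, [nat_lit 1100000, nat_lit 1442500, nat_lit 1271250], [nat_lit 9, nat_lit 40, nat_lit 20, nat_lit 80, nat_lit 2, nat_lit 226, nat_lit 20, nat_lit 8]⟩, C1.Rw.none,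
 ⟨nat_lit 5916, nat_lit 6021, ⟨.ofNat (nat_lit 110680), .ofNat (nat_lit 261640), .ofNat (nat_lit 132022), .ofNat (nat_lit 282982), .ofNat (nat_lit 115184), .ofNat (nat_lit 264398), .ofNat (nat_lit 136523), .ofNat (nat_lit 285737)⟩, ⟨.ofNat (nat_lit 0), .ofNat (nat_lit 0), .ofNat (nat_lit 0), .ofNat (nat_lit 0), .ofNat (nat_lit 0), .ofNat (nat_lit 0), .ofNat (nat_lit 0), .ofNat (nat_lit 0)⟩⟩, [⟨nat_lit 0, nat_lit 100, nat_lit 96, nat_lit 40, nat_lit 124179614⟩]⟩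
noncomputable def p008_l95 : Lf2 := ⟨nat_lit 0, nat_lit 4, [nat_lit 38, nat_lit 5, nat_lit 5, nat_lit 20], true, nat_lit 0, nat_lit 0, nat_lit 0, nat_lit 0, ⟨nat_lit 0, nat_lit 0, nat_lit 1000, nat_lit 5, nat_lit 55, nat_lit 0, nat_lit 0, nat_lit 0, nat_lit 0, nat_lit 215, nat_lit 28017, nat_lit 256, nat_lit 65761719, nat_lit 0, nat_lit 0, nat_lit 460289, false, false⟩,
 nat_lit 0, nat_lit 8620, nat_lit 0, nat_lit 0, nat_lit 4788, nat_lit 0, nat_lit 0, nat_lit 0, nat_lit 0, nat_lit 0, nat_lit 0, nat_lit 0, nat_lit 0, nat_lit 0, nat_lit 80, nat_lit 1000000, nat_lit 0, nat_lit 0, [(nat_lit 6, [(nat_lit 6, nat_lit 1000)])],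
 ⟨p008_k37, nat_lit 0, nat_lit 0, nat_lit 323, nat_lit 0, nat_lit 262273, [nat_lit 2257066667, nat_lit 1408000000, nat_lit 211200000], [], [nat_lit 16119552592, nat_lit 16488870285, nat_lit 14154568883, nat_lit 14747691008], nat_lit 1271250, nat_lit 1271250, nat_lit 21650, nat_lit 111251, nat_lit 0, nat_lit 0, [nat_lit 1100000, nat_lit 1442500, nat_lit 1271250], [nat_lit 9, nat_lit 40, nat_lit 20, nat_lit 80, nat_lit 2, nat_lit 215, nat_lit 10, nat_lit 8]⟩, C1.Rw.none,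
 ⟨nat_lit 5916, nat_lit 6124, ⟨.ofNat (nat_lit 106133), .ofNat (nat_lit 138285), .ofNat (nat_lit 127481), .ofNat (nat_lit 159634), .ofNat (nat_lit 115184), .ofNat (nat_lit 146597), .ofNat (nat_lit 136523), .ofNat (nat_lit 167937)⟩, ⟨.ofNat (nat_lit 0), .ofNat (nat_lit 0), .ofNat (nat_lit 0), .ofNat (nat_lit 0), .ofNat (nat_lit 0), .ofNat (nat_lit 0), .ofNat (nat_lit 0), .ofNat (nat_lit 0)⟩⟩, [⟨nat_lit 0, nat_lit 100, nat_lit 96, nat_lit 32, nat_lit 742729806⟩]⟩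
noncomputable def p008_l96 : Lf2 := ⟨nat_lit 0, nat_lit 5, [nat_lit 4, nat_lit 5, nat_lit 5, nat_lit 20], true, nat_lit 0, nat_lit 0, nat_lit 0, nat_lit 0, ⟨nat_lit 0, nat_lit 0, nat_lit 1000, nat_lit 5, nat_lit 55, nat_lit 0, nat_lit 0, nat_lit 0, nat_lit 0, nat_lit 215, nat_lit 28017, nat_lit 256, nat_lit 65761719, nat_lit 0, nat_lit 0, nat_lit 460289, false, false⟩,
 nat_lit 0, nat_lit 6929, nat_lit 0, nat_lit 0, nat_lit 3849, nat_lit 0, nat_lit 88, nat_lit 0, nat_lit 0, nat_lit 0, nat_lit 0, nat_lit 0, nat_lit 0, nat_lit 0, nat_lit 80, nat_lit 1000000, nat_lit 0, nat_lit 0, [(nat_lit 6, [(nat_lit 6, nat_lit 1000)])],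
 ⟨p008_k17, nat_lit 0, nat_lit 0, nat_lit 299, nat_lit 0, nat_lit 200152, [nat_lit 2257066667, nat_lit 1408000000, nat_lit 211200000], [], [nat_lit 14113054837, nat_lit 14646317911, nat_lit 13519646333, nat_lit 14038883187], nat_lit 1271250, nat_lit 1271250, nat_lit 21650, nat_lit 111251, nat_lit 0, nat_lit 0, [nat_lit 1100000, nat_lit 1442500, nat_lit 1271250], [nat_lit 9, nat_lit 40, nat_lit 20, nat_lit 80, nat_lit 2, nat_lit 215, nat_lit 10, nat_lit 8]⟩, C1.Rw.none,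
 ⟨nat_lit 5916, nat_lit 6124, ⟨.ofNat (nat_lit 106133), .ofNat (nat_lit 138285), .ofNat (nat_lit 127481), .ofNat (nat_lit 159634), .ofNat (nat_lit 115184), .ofNat (nat_lit 146597), .ofNat (nat_lit 136523), .ofNat (nat_lit 167937)⟩, ⟨.ofNat (nat_lit 0), .ofNat (nat_lit 0), .ofNat (nat_lit 0), .ofNat (nat_lit 0), .ofNat (nat_lit 0), .ofNat (nat_lit 0), .ofNat (nat_lit 0), .ofNat (nat_lit 0)⟩⟩, [⟨nat_lit 0, nat_lit 100, nat_lit 96, nat_lit 40, nat_lit 296164244⟩]⟩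
noncomputable def p008_l97 : Lf2 := ⟨nat_lit 0, nat_lit 5, [nat_lit 4, nat_lit 5, nat_lit 5, nat_lit 20], true, nat_lit 0, nat_lit 0, nat_lit 0, nat_lit 0, ⟨nat_lit 0, nat_lit 0, nat_lit 1000, nat_lit 5, nat_lit 69, nat_lit 0, nat_lit 0, nat_lit 0, nat_lit 0, nat_lit 215, nat_lit 45067, nat_lit 267, nat_lit 65053520, nat_lit 0, nat_lit 0, nat_lit 657129, false, false⟩,
 nat_lit 0, nat_lit 7349, nat_lit 0, nat_lit 0, nat_lit 4082, nat_lit 0, nat_lit 101, nat_lit 0, nat_lit 0, nat_lit 0, nat_lit 0, nat_lit 0, nat_lit 0, nat_lit 0, nat_lit 80, nat_lit 1000000, nat_lit 0, nat_lit 0, [(nat_lit 6, [(nat_lit 6, nat_lit 1000)])],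
 ⟨p008_k17, nat_lit 0, nat_lit 0, nat_lit 305, nat_lit 0, nat_lit 269265, [nat_lit 2257066667, nat_lit 1408000000, nat_lit 211200000], [], [nat_lit 13118101355, nat_lit 13640049442, nat_lit 13068428615, nat_lit 13247826535], nat_lit 1271250, nat_lit 1271250, nat_lit 111251, nat_lit 230001, nat_lit 0, nat_lit 0, [nat_lit 1100000, nat_lit 1442500, nat_lit 1271250], [nat_lit 9, nat_lit 40, nat_lit 20, nat_lit 80, nat_lit 2, nat_lit 215, nat_lit 10, nat_lit 8]⟩, C1.Rw.none,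
 ⟨nat_lit 5916, nat_lit 6124, ⟨.ofNat (nat_lit 138285), .ofNat (nat_lit 178476), .ofNat (nat_lit 159634), .ofNat (nat_lit 199824), .ofNat (nat_lit 146597), .ofNat (nat_lit 185864), .ofNat (nat_lit 167937), .ofNat (nat_lit 207203)⟩, ⟨.ofNat (nat_lit 0), .ofNat (nat_lit 0), .ofNat (nat_lit 0), .ofNat (nat_lit 0), .ofNat (nat_lit 0), .ofNat (nat_lit 0), .ofNat (nat_lit 0), .ofNat (nat_lit 0)⟩⟩, []⟩
noncomputable def p008_l98 : Lf2 := ⟨nat_lit 0, nat_lit 5, [nat_lit 4, nat_lit 5, nat_lit 5, nat_lit 20], true, nat_lit 0, nat_lit 0, nat_lit 0, nat_lit 0, ⟨nat_lit 0, nat_lit 0, nat_lit 1000, nat_lit 5, nat_lit 93, nat_lit 0, nat_lit 0, nat_lit 0, nat_lit 0, nat_lit 215, nat_lit 81667, nat_lit 285, nat_lit 63561996, nat_lit 0, nat_lit 0, nat_lit 1011815, false, false⟩,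
 nat_lit 0, nat_lit 8015, nat_lit 0, nat_lit 0, nat_lit 4452, nat_lit 0, nat_lit 54, nat_lit 0, nat_lit 0, nat_lit 0, nat_lit 0, nat_lit 0, nat_lit 0, nat_lit 0, nat_lit 80, nat_lit 1000000, nat_lit 0, nat_lit 0, [(nat_lit 6, [(nat_lit 6, nat_lit 1000)])],
 ⟨p008_k17, nat_lit 0, nat_lit 0, nat_lit 285, nat_lit 0, nat_lit 269265, [nat_lit 2257066667, nat_lit 1408000000, nat_lit 211200000], [], [nat_lit 12430441795, nat_lit 12923094880, nat_lit 13615158959, nat_lit 12505974323], nat_lit 1271250, nat_lit 1271250, nat_lit 230001, nat_lit 490000, nat_lit 0, nat_lit 0, [nat_lit 1100000, nat_lit 1442500, nat_lit 1271250], [nat_lit 9, nat_lit 40, nat_lit 20, nat_lit 80, nat_lit 2, nat_lit 226, nat_lit 20, nat_lit 8]⟩, C1.Rw.none,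
 ⟨nat_lit 5916, nat_lit 6124, ⟨.ofNat (nat_lit 178476), .ofNat (nat_lit 258856), .ofNat (nat_lit 199824), .ofNat (nat_lit 280205), .ofNat (nat_lit 185864), .ofNat (nat_lit 264398), .ofNat (nat_lit 207203), .ofNat (nat_lit 285737)⟩, ⟨.ofNat (nat_lit 0), .ofNat (nat_lit 0), .ofNat (nat_lit 0), .ofNat (nat_lit 0), .ofNat (nat_lit 0), .ofNat (nat_lit 0), .ofNat (nat_lit 0), .ofNat (nat_lit 0)⟩⟩, []⟩
noncomputable def p008_l99 : Lf2 := ⟨nat_lit 0, nat_lit 5, [nat_lit 4, nat_lit 5, nat_lit 5, nat_lit 20], true, nat_lit 0, nat_lit 0, nat_lit 0, nat_lit 0, ⟨nat_lit 0, nat_lit 0, nat_lit 1000, nat_lit 5, nat_lit 76, nat_lit 0, nat_lit 0, nat_lit 0, nat_lit 0, nat_lit 215, nat_lit 54150, nat_lit 272, nat_lit 64678509, nat_lit 0, nat_lit 0, nat_lit 752726, false, false⟩,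
 nat_lit 0, nat_lit 7292, nat_lit 0, nat_lit 0, nat_lit 3860, nat_lit 0, nat_lit 0, nat_lit 0, nat_lit 0, nat_lit 0, nat_lit 0, nat_lit 0, nat_lit 0, nat_lit 0, nat_lit 125, nat_lit 826600, nat_lit 0, nat_lit 0, [(nat_lit 6, [(nat_lit 5, nat_lit 289), (nat_lit 6, nat_lit 711)])],
 ⟨p008_k14, nat_lit 0, nat_lit 0, nat_lit 341, nat_lit 0, nat_lit 138483, [nat_lit 3104380800, nat_lit 2595926401, nat_lit 112318399], [], [nat_lit 14749690034, nat_lit 15001295341, nat_lit 16388142642, nat_lit 15426450662], nat_lit 1271250, nat_lit 1271250, nat_lit 21650, nat_lit 490000, nat_lit 0, nat_lit 0, [nat_lit 1100000, nat_lit 1442500, nat_lit 1271250], [nat_lit 11, nat_lit 40, nat_lit 20, nat_lit 80, nat_lit 1, nat_lit 317, nat_lit 100, nat_lit 10]⟩, C1.Rw.none,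
 ⟨nat_lit 6123, nat_lit 6325, ⟨.ofNat (nat_lit 96904), .ofNat (nat_lit 253206), .ofNat (nat_lit 118272), .ofNat (nat_lit 274574), .ofNat (nat_lit 106133), .ofNat (nat_lit 258856), .ofNat (nat_lit 127481), .ofNat (nat_lit 280205)⟩, ⟨.ofNat (nat_lit 0), .ofNat (nat_lit 0), .ofNat (nat_lit 0), .ofNat (nat_lit 0), .ofNat (nat_lit 0), .ofNat (nat_lit 0), .ofNat (nat_lit 0), .ofNat (nat_lit 0)⟩⟩, []⟩
noncomputable def p008_l100 : Lf2 := ⟨nat_lit 0, nat_lit 5, [nat_lit 4, nat_lit 5, nat_lit 5, nat_lit 20], true, nat_lit 0, nat_lit 0, nat_lit 0, nat_lit 0, ⟨nat_lit 0, nat_lit 0, nat_lit 1000, nat_lit 5, nat_lit 79, nat_lit 0, nat_lit 0, nat_lit 0, nat_lit 0, nat_lit 215, nat_lit 58017, nat_lit 274, nat_lit 64501471, nat_lit 0, nat_lit 0, nat_lit 796177, false, false⟩,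
 nat_lit 0, nat_lit 7043, nat_lit 0, nat_lit 0, nat_lit 3912, nat_lit 0, nat_lit 0, nat_lit 0, nat_lit 0, nat_lit 0, nat_lit 0, nat_lit 0, nat_lit 0, nat_lit 0, nat_lit 80, nat_lit 987400, nat_lit 0, nat_lit 0, [(nat_lit 6, [(nat_lit 5, nat_lit 21), (nat_lit 6, nat_lit 979)])],
 ⟨p008_k17, nat_lit 0, nat_lit 0, nat_lit 292, nat_lit 0, nat_lit 182479, [nat_lit 2266317867, nat_lit 1412729200, nat_lit 228697200], [], [nat_lit 14310175275, nat_lit 14772727992, nat_lit 14648571219, nat_lit 13673923803], nat_lit 1271250, nat_lit 1271250, nat_lit 21650, nat_lit 490000, nat_lit 0, nat_lit 0, [nat_lit 1100000, nat_lit 1442500, nat_lit 1271250], [nat_lit 9, nat_lit 40, nat_lit 20, nat_lit 80, nat_lit 2, nat_lit 226, nat_lit 20, nat_lit 8]⟩, C1.Rw.none,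
 ⟨nat_lit 5916, nat_lit 6124, ⟨.ofNat (nat_lit 106133), .ofNat (nat_lit 258856), .ofNat (nat_lit 127481), .ofNat (nat_lit 280205), .ofNat (nat_lit 115184), .ofNat (nat_lit 264398), .ofNat (nat_lit 136523), .ofNat (nat_lit 285737)⟩, ⟨.ofNat (nat_lit 0), .ofNat (nat_lit 0), .ofNat (nat_lit 0), .ofNat (nat_lit 0), .ofNat (nat_lit 0), .ofNat (nat_lit 0), .ofNat (nat_lit 0), .ofNat (nat_lit 0)⟩⟩, [⟨nat_lit 0, nat_lit 100, nat_lit 96, nat_lit 40, nat_lit 95627329⟩]⟩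
noncomputable def p008_l101 : Lf2 := ⟨nat_lit 0, nat_lit 5, [nat_lit 4, nat_lit 5, nat_lit 5, nat_lit 20], false, nat_lit 0, nat_lit 0, nat_lit 0, nat_lit 0, ⟨nat_lit 1000, nat_lit 0, nat_lit 0, nat_lit 0, nat_lit 0, nat_lit 0, nat_lit 0, nat_lit 0, nat_lit 0, nat_lit 0, nat_lit 0, nat_lit 0, nat_lit 0, nat_lit 0, nat_lit 0, nat_lit 0, false, false⟩,
 nat_lit 0, nat_lit 20589, nat_lit 0, nat_lit 0, nat_lit 10900, nat_lit 12953, nat_lit 1275, nat_lit 0, nat_lit 0, nat_lit 5391, nat_lit 0, nat_lit 0, nat_lit 0, nat_lit 0, nat_lit 0, nat_lit 0, nat_lit 0, nat_lit 0, [],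
 ⟨p008_k14, nat_lit 0, nat_lit 0, nat_lit 492, nat_lit 0, nat_lit 587182, [nat_lit 4688000000, nat_lit 6250000000, nat_lit 9842000000], [], [nat_lit 27794419200, nat_lit 26979046300, nat_lit 28850732800, nat_lit 26210981700], nat_lit 1271250, nat_lit 1271250, nat_lit 490000, nat_lit 1100001, nat_lit 0, nat_lit 0, [nat_lit 1100000, nat_lit 1442500, nat_lit 1271250], [nat_lit 11, nat_lit 40, nat_lit 20, nat_lit 80, nat_lit 1, nat_lit 345, nat_lit 125, nat_lit 10]⟩, ⟨p008_k20, nat_lit 0, nat_lit 0, nat_lit 204, nat_lit 0, nat_lit 0, [nat_lit 6250000000, nat_lit 7968000000, nat_lit 11872000000], [], [nat_lit 13663402219, nat_lit 14472328626, nat_lit 13476089660, nat_lit 14465554130], nat_lit 0, nat_lit 0, nat_lit 0, nat_lit 0, nat_lit 0, nat_lit 0, [], [nat_lit 53, nat_lit 40, nat_lit 20, nat_lit 80, nat_lit 14, nat_lit 317, nat_lit 100, nat_lit 9]⟩,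
 zbF0, []⟩
noncomputable def p008_l102 : Lf2 := ⟨nat_lit 0, nat_lit 5, [nat_lit 4, nat_lit 5, nat_lit 5, nat_lit 20], false, nat_lit 0, nat_lit 0, nat_lit 0, nat_lit 0, ⟨nat_lit 1000, nat_lit 0, nat_lit 0, nat_lit 0, nat_lit 0, nat_lit 0, nat_lit 0, nat_lit 0, nat_lit 0, nat_lit 0, nat_lit 0, nat_lit 0, nat_lit 0, nat_lit 0, nat_lit 0, nat_lit 0, false, false⟩,
 nat_lit 0, nat_lit 19120, nat_lit 0, nat_lit 0, nat_lit 10621, nat_lit 12953, nat_lit 831, nat_lit 0, nat_lit 0, nat_lit 5391, nat_lit 0, nat_lit 0, nat_lit 0, nat_lit 0, nat_lit 0, nat_lit 0, nat_lit 0, nat_lit 0, [],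
 ⟨p008_k17, nat_lit 0, nat_lit 0, nat_lit 442, nat_lit 0, nat_lit 646461, [nat_lit 4688000000, nat_lit 6250000000, nat_lit 7968000000], [], [nat_lit 25230303259, nat_lit 22805055394, nat_lit 25896093633, nat_lit 23323910474], nat_lit 1271250, nat_lit 1271250, nat_lit 490000, nat_lit 1100001, nat_lit 0, nat_lit 0, [nat_lit 1100000, nat_lit 1442500, nat_lit 1271250], [nat_lit 9, nat_lit 40, nat_lit 20, nat_lit 80, nat_lit 2, nat_lit 249, nat_lit 40, nat_lit 8]⟩, ⟨p008_k20, nat_lit 0, nat_lit 0, nat_lit 204, nat_lit 0, nat_lit 0, [nat_lit 6250000000, nat_lit 7968000000, nat_lit 11872000000], [], [nat_lit 13663402219, nat_lit 14472328626, nat_lit 13476089660, nat_lit 14465554130], nat_lit 0, nat_lit 0, nat_lit 0, nat_lit 0, nat_lit 0, nat_lit 0, [], [nat_lit 53, nat_lit 40, nat_lit 20, nat_lit 80, nat_lit 14, nat_lit 317, nat_lit 100, nat_lit 9]⟩,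
 zbF0, []⟩
noncomputable def p008_l103 : Lf2 := ⟨nat_lit 0, nat_lit 5, [nat_lit 4, nat_lit 5, nat_lit 5, nat_lit 20], false, nat_lit 0, nat_lit 0, nat_lit 0, nat_lit 0, ⟨nat_lit 1000, nat_lit 0, nat_lit 0, nat_lit 0, nat_lit 0, nat_lit 0, nat_lit 0, nat_lit 0, nat_lit 0, nat_lit 0, nat_lit 0, nat_lit 0, nat_lit 0, nat_lit 0, nat_lit 0, nat_lit 0, false, false⟩,
 nat_lit 0, nat_lit 17997, nat_lit 0, nat_lit 0, nat_lit 9527, nat_lit 11407, nat_lit 2149, nat_lit 0, nat_lit 0, nat_lit 0, nat_lit 0, nat_lit 0, nat_lit 0, nat_lit 0, nat_lit 0, nat_lit 0, nat_lit 0, nat_lit 0, [],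
 ⟨p008_k14, nat_lit 0, nat_lit 0, nat_lit 597, nat_lit 0, nat_lit 766657, [nat_lit 4688000000, nat_lit 6250000000, nat_lit 9842000000], [], [nat_lit 28584157816, nat_lit 23816916870, nat_lit 30342425904, nat_lit 25727947238], nat_lit 1271250, nat_lit 1271250, nat_lit 490000, nat_lit 1100001, nat_lit 0, nat_lit 0, [nat_lit 1100000, nat_lit 1442500, nat_lit 1271250], [nat_lit 11, nat_lit 40, nat_lit 20, nat_lit 80, nat_lit 1, nat_lit 345, nat_lit 125, nat_lit 10]⟩, ⟨p008_k23, nat_lit 0, nat_lit 0, nat_lit 50, nat_lit 0, nat_lit 0, [nat_lit 6250000000, nat_lit 7968000000, nat_lit 9842000000], [], [nat_lit 8671473527, nat_lit 9915713186, nat_lit 9507244796, nat_lit 10599806572], nat_lit 0, nat_lit 0, nat_lit 0, nat_lit 0, nat_lit 0, nat_lit 0, [], [nat_lit 25, nat_lit 40, nat_lit 20, nat_lit 80, nat_lit 17, nat_lit 317, nat_lit 100, nat_lit 10]⟩,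
 zbF0, []⟩
noncomputable def p008_l104 : Lf2 := ⟨nat_lit 0, nat_lit 5, [nat_lit 4, nat_lit 5, nat_lit 5, nat_lit 20], false, nat_lit 0, nat_lit 0, nat_lit 0, nat_lit 0, ⟨nat_lit 1000, nat_lit 0, nat_lit 0, nat_lit 0, nat_lit 0, nat_lit 0, nat_lit 0, nat_lit 0, nat_lit 0, nat_lit 0, nat_lit 0, nat_lit 0, nat_lit 0, nat_lit 0, nat_lit 0, nat_lit 0, false, false⟩,
 nat_lit 0, nat_lit 16862, nat_lit 0, nat_lit 0, nat_lit 8926, nat_lit 17916, nat_lit 520, nat_lit 0, nat_lit 0, nat_lit 5811, nat_lit 0, nat_lit 0, nat_lit 0, nat_lit 0, nat_lit 0, nat_lit 0, nat_lit 0, nat_lit 0, [],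
 ⟨p008_k14, nat_lit 0, nat_lit 0, nat_lit 565, nat_lit 0, nat_lit 766657, [nat_lit 4688000000, nat_lit 6250000000, nat_lit 9842000000], [], [nat_lit 35100777064, nat_lit 33746557040, nat_lit 34385202432, nat_lit 34310312260], nat_lit 1271250, nat_lit 1271250, nat_lit 1100001, nat_lit 1785000, nat_lit 0, nat_lit 0, [nat_lit 1100000, nat_lit 1442500, nat_lit 1271250], [nat_lit 11, nat_lit 40, nat_lit 20, nat_lit 80, nat_lit 1, nat_lit 345, nat_lit 125, nat_lit 10]⟩, ⟨p008_k20, nat_lit 0, nat_lit 0, nat_lit 184, nat_lit 0, nat_lit 0, [nat_lit 6250000000, nat_lit 7968000000, nat_lit 11872000000], [], [nat_lit 10859932375, nat_lit 12585548608, nat_lit 18342147296, nat_lit 21444386480], nat_lit 0, nat_lit 0, nat_lit 0, nat_lit 0, nat_lit 0, nat_lit 0, [], [nat_lit 53, nat_lit 40, nat_lit 20, nat_lit 80, nat_lit 14, nat_lit 345, nat_lit 125, nat_lit 9]⟩,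
 zbF0, []⟩
noncomputable def p008_l105 : Lf2 := ⟨nat_lit 0, nat_lit 5, [nat_lit 4, nat_lit 5, nat_lit 5, nat_lit 20], false, nat_lit 0, nat_lit 0, nat_lit 0, nat_lit 0, ⟨nat_lit 1000, nat_lit 0, nat_lit 0, nat_lit 0, nat_lit 0, nat_lit 0, nat_lit 0, nat_lit 0, nat_lit 0, nat_lit 0, nat_lit 0, nat_lit 0, nat_lit 0, nat_lit 0, nat_lit 0, nat_lit 0, false, false⟩,
 nat_lit 0, nat_lit 13812, nat_lit 0, nat_lit 0, nat_lit 7312, nat_lit 7331, nat_lit 1636, nat_lit 0, nat_lit 0, nat_lit 2711, nat_lit 0, nat_lit 0, nat_lit 0, nat_lit 0, nat_lit 0, nat_lit 0, nat_lit 0, nat_lit 0, [],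
 ⟨p008_k14, nat_lit 0, nat_lit 0, nat_lit 531, nat_lit 0, nat_lit 766657, [nat_lit 4688000000, nat_lit 6250000000, nat_lit 9842000000], [], [nat_lit 32484783464, nat_lit 32928714408, nat_lit 38190090784, nat_lit 38476638896], nat_lit 1271250, nat_lit 1271250, nat_lit 1271250, nat_lit 1271250, nat_lit 0, nat_lit 0, [nat_lit 1100000, nat_lit 1442500, nat_lit 1271250], [nat_lit 11, nat_lit 40, nat_lit 20, nat_lit 80, nat_lit 1, nat_lit 401, nat_lit 175, nat_lit 11]⟩, ⟨p008_k20, nat_lit 0, nat_lit 0, nat_lit 255, nat_lit 0, nat_lit 0, [nat_lit 6250000000, nat_lit 7968000000, nat_lit 11872000000], [], [nat_lit 25823635743, nat_lit 26473880615, nat_lit 37523221812, nat_lit 37910484656], nat_lit 0, nat_lit 0, nat_lit 0, nat_lit 0, nat_lit 0, nat_lit 0, [], [nat_lit 53, nat_lit 40, nat_lit 20, nat_lit 80, nat_lit 14, nat_lit 401, nat_lit 175, nat_lit 10]⟩,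
 zbF0, [⟨nat_lit 13, nat_lit 97, nat_lit 20, nat_lit 100, nat_lit 30094601⟩]⟩
noncomputable def b_NL_600_500_0_1 : St := ⟨false, nat_lit 1, nat_lit 0, nat_lit 1, nat_lit 20, nat_lit 240, nat_lit 260, nat_lit 200, nat_lit 220, nat_lit 4, nat_lit 400, nat_lit 0, nat_lit 0, nat_lit 0, nat_lit 0, nat_lit 0, nat_lit 0, nat_lit 0, nat_lit 40, nat_lit 0, nat_lit 0, nat_lit 0, nat_lit 0⟩
theorem d_NL_600_500_0_1 (h : EB TB.env) : Dead b_NL_600_500_0_1 := chkB_sound0 h (T :=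
(.spl (nat_lit 2) (nat_lit 240)
(.spl (nat_lit 2) (nat_lit 160)
(.spl (nat_lit 2) (nat_lit 80)
(.spl (nat_lit 6) (nat_lit 20)
(.spl (nat_lit 0) (nat_lit 250)
(.spl (nat_lit 6) (nat_lit 8)
(.spl (nat_lit 6) (nat_lit 4)
(.spl (nat_lit 2) (nat_lit 40)
(.spl (nat_lit 0) (nat_lit 245)
(.spl (nat_lit 0) (nat_lit 243)
(.spl (nat_lit 2) (nat_lit 20)
(.spl (nat_lit 8) (nat_lit 800)
(.spl (nat_lit 7) (nat_lit 600)
(.leaf p008_l63)
(.leaf p008_l64))
(.leaf p008_l65))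
(.leaf p008_l66))
(.spl (nat_lit 2) (nat_lit 20)
(.spl (nat_lit 8) (nat_lit 800)
(.spl (nat_lit 8) (nat_lit 400)
(.spl (nat_lit 7) (nat_lit 600)
(.leaf p008_l67)
(.leaf p008_l68))
(.leaf p008_l69))
(.leaf p008_l70))
(.leaf p008_l71)))
(.leaf p008_l72))
(.leaf p008_l73))
(.spl (nat_lit 2) (nat_lit 40)
(.spl (nat_lit 2) (nat_lit 20)
(.spl (nat_lit 8) (nat_lit 800)
(.spl (nat_lit 8) (nat_lit 400)
(.spl (nat_lit 7) (nat_lit 600)
(.leaf p008_l74)
(.leaf p008_l75))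
(.leaf p008_l76))
(.leaf p008_l77))
(.leaf p008_l78))
(.leaf p008_l79)))
(.spl (nat_lit 6) (nat_lit 16)
(.spl (nat_lit 2) (nat_lit 40)
(.spl (nat_lit 2) (nat_lit 20)
(.spl (nat_lit 2) (nat_lit 16)
(.spl (nat_lit 8) (nat_lit 800)
(.spl (nat_lit 7) (nat_lit 600)
(.spl (nat_lit 7) (nat_lit 300)
(.leaf p008_l80)
(.spl (nat_lit 7) (nat_lit 460)
(.leaf p008_l81)
(.spl (nat_lit 0) (nat_lit 245)
(.spl (nat_lit 6) (nat_lit 12)
(.spl (nat_lit 7) (nat_lit 540)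
(.leaf p008_l82)
(.leaf p008_l83))
(.leaf p008_l84))
(.spl (nat_lit 0) (nat_lit 248)
(.leaf p008_l85)
(.leaf p008_l86)))))
(.leaf p008_l87))
(.leaf p008_l88))
(.leaf p008_l89))
(.leaf p008_l90))
(.leaf p008_l91))
(.leaf p008_l92)))
(.spl (nat_lit 6) (nat_lit 8)
(.spl (nat_lit 0) (nat_lit 255)
(.leaf p008_l93)
(.leaf p008_l94))
(.spl (nat_lit 2) (nat_lit 40)
(.spl (nat_lit 2) (nat_lit 20)
(.spl (nat_lit 6) (nat_lit 16)
(.leaf p008_l95)
(.leaf p008_l96))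
(.leaf p008_l97))
(.leaf p008_l98))))
(.spl (nat_lit 0) (nat_lit 250)
(.leaf p008_l99)
(.leaf p008_l100)))
(.spl (nat_lit 1) (nat_lit 210)
(.spl (nat_lit 0) (nat_lit 250)
(.leaf p008_l101)
(.leaf p008_l102))
(.leaf p008_l103)))
(.leaf p008_l104))
(.leaf p008_l105))) (by decide +kernel)
noncomputable def p008_l106 : Lf2 := ⟨nat_lit 0, nat_lit 1, [nat_lit 19, nat_lit 5, nat_lit 5, nat_lit 20], true, nat_lit 0, nat_lit 0, nat_lit 0, nat_lit 0, ⟨nat_lit 0, nat_lit 0, nat_lit 1000, nat_lit 5, nat_lit 47, nat_lit 0, nat_lit 0, nat_lit 0, nat_lit 0, nat_lit 215, nat_lit 20417, nat_lit 250, nat_lit 66097782, nat_lit 0, nat_lit 0, nat_lit 356787, false, false⟩,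
 nat_lit 0, nat_lit 7400, nat_lit 0, nat_lit 0, nat_lit 3917, nat_lit 0, nat_lit 653, nat_lit 0, nat_lit 0, nat_lit 0, nat_lit 0, nat_lit 0, nat_lit 0, nat_lit 0, nat_lit 10, nat_lit 1000000, nat_lit 0, nat_lit 0, [(nat_lit 6, [(nat_lit 6, nat_lit 1000)])],
 ⟨p008_k1, nat_lit 0, nat_lit 0, nat_lit 0, nat_lit 0, nat_lit 246292, [nat_lit 1137066667, nat_lit 504400001, nat_lit 8000000], [], [nat_lit 13011708607, nat_lit 13306296985, nat_lit 12562982680, nat_lit 12857560144], nat_lit 1271250, nat_lit 1271250, nat_lit 21650, nat_lit 88400, nat_lit 0, nat_lit 0, [nat_lit 1100000, nat_lit 1271250, nat_lit 1271250], [nat_lit 124, nat_lit 40, nat_lit 20, nat_lit 40]⟩, C1.Rw.none,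
 ⟨nat_lit 6224, nat_lit 6325, ⟨.ofNat (nat_lit 96904), .ofNat (nat_lit 121583), .ofNat (nat_lit 107588), .ofNat (nat_lit 132267), .ofNat (nat_lit 101542), .ofNat (nat_lit 125937), .ofNat (nat_lit 112220), .ofNat (nat_lit 136616)⟩, ⟨.ofNat (nat_lit 0), .ofNat (nat_lit 0), .ofNat (nat_lit 0), .ofNat (nat_lit 0), .ofNat (nat_lit 0), .ofNat (nat_lit 0), .ofNat (nat_lit 0), .ofNat (nat_lit 0)⟩⟩, [⟨nat_lit 0, nat_lit 100, nat_lit 98, nat_lit 27, nat_lit 289260075⟩]⟩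
noncomputable def p008_l107 : Lf2 := ⟨nat_lit 0, nat_lit 1, [nat_lit 19, nat_lit 5, nat_lit 5, nat_lit 20], true, nat_lit 0, nat_lit 0, nat_lit 0, nat_lit 0, ⟨nat_lit 0, nat_lit 0, nat_lit 1000, nat_lit 5, nat_lit 47, nat_lit 0, nat_lit 0, nat_lit 0, nat_lit 0, nat_lit 215, nat_lit 20417, nat_lit 250, nat_lit 66097782, nat_lit 0, nat_lit 0, nat_lit 356787, false, false⟩,
 nat_lit 0, nat_lit 100000, nat_lit 0, nat_lit 0, nat_lit 52941, nat_lit 0, nat_lit 0, nat_lit 3672, nat_lit 0, nat_lit 0, nat_lit 0, nat_lit 0, nat_lit 0, nat_lit 0, nat_lit 0, nat_lit 1000000, nat_lit 0, nat_lit 0, [(nat_lit 6, [(nat_lit 6, nat_lit 1000)])],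
 ⟨p008_k0, nat_lit 0, nat_lit 0, nat_lit 286, nat_lit 0, nat_lit 246292, [nat_lit 59729066667, nat_lit 73248000000], [], [nat_lit 190322144227, nat_lit 183541683299, nat_lit 173967059920, nat_lit 171536511428], nat_lit 1271250, nat_lit 1271250, nat_lit 21650, nat_lit 88400, nat_lit 0, nat_lit 0, [nat_lit 1100000, nat_lit 1442500], [nat_lit 31, nat_lit 40, nat_lit 20, nat_lit 80, nat_lit 3, nat_lit 215, nat_lit 10, nat_lit 9]⟩, C1.Rw.none,
 ⟨nat_lit 6224, nat_lit 6325, ⟨.ofNat (nat_lit 96904), .ofNat (nat_lit 121583), .ofNat (nat_lit 107588), .ofNat (nat_lit 132267), .ofNat (nat_lit 101542), .ofNat (nat_lit 125937), .ofNat (nat_lit 112220), .ofNat (nat_lit 136616)⟩, ⟨.ofNat (nat_lit 0), .ofNat (nat_lit 0), .ofNat (nat_lit 0), .ofNat (nat_lit 0), .ofNat (nat_lit 0), .ofNat (nat_lit 0), .ofNat (nat_lit 0), .ofNat (nat_lit 0)⟩⟩, [⟨nat_lit 0, nat_lit 100, nat_lit 98, nat_lit 24, nat_lit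 7054593891⟩]⟩
noncomputable def p008_l108 : Lf2 := ⟨nat_lit 0, nat_lit 1, [nat_lit 19, nat_lit 5, nat_lit 5, nat_lit 20], false, nat_lit 0, nat_lit 0, nat_lit 0, nat_lit 0, ⟨nat_lit 0, nat_lit 0, nat_lit 1000, nat_lit 5, nat_lit 47, nat_lit 0, nat_lit 0, nat_lit 0, nat_lit 0, nat_lit 215, nat_lit 20417, nat_lit 250, nat_lit 66097782, nat_lit 0, nat_lit 0, nat_lit 356787, false, false⟩,
 nat_lit 100000, nat_lit 0, nat_lit 100000, nat_lit 94627, nat_lit 5526, nat_lit 85714, nat_lit 60000, nat_lit 0, nat_lit 0, nat_lit 60000, nat_lit 5229, nat_lit 0, nat_lit 0, nat_lit 0, nat_lit 10, nat_lit 1000000, nat_lit 0, nat_lit 0, [(nat_lit 6, [(nat_lit 6, nat_lit 1000)])],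
 ⟨p008_k0, nat_lit 0, nat_lit 0, nat_lit 286, nat_lit 0, nat_lit 246292, [nat_lit 1137066667, nat_lit 8000000], [], [nat_lit 16845517879, nat_lit 16137771008, nat_lit 15138368488, nat_lit 14609382129], nat_lit 1271250, nat_lit 1271250, nat_lit 21650, nat_lit 88400, nat_lit 0, nat_lit 0, [nat_lit 1100000, nat_lit 1442500], [nat_lit 31, nat_lit 40, nat_lit 20, nat_lit 80, nat_lit 3, nat_lit 215, nat_lit 10, nat_lit 9]⟩, ⟨p008_k24, nat_lit 0, nat_lit 0, nat_lit 324, nat_lit 0, nat_lit 305213, [nat_lit 104580000000, nat_lit 125496000000], [], [nat_lit 255611439477, nat_lit 238706502720, nat_lit 229131779172, nat_lit 227236272383], nat_lit 1271250, nat_lit 1271250, nat_lit 21650, nat_lit 88400, nat_lit 0, nat_lit 0, [nat_lit 1412500, nat_lit 1271250], [nat_lit 26, nat_lit 40, nat_lit 20, nat_lit 80, nat_lit 2, nat_lit 272, nat_lit 60, nat_lit 10]⟩,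
 ⟨nat_lit 6224, nat_lit 6325, ⟨.ofNat (nat_lit 96904), .ofNat (nat_lit 121583), .ofNat (nat_lit 107588), .ofNat (nat_lit 132267), .ofNat (nat_lit 101542), .ofNat (nat_lit 125937), .ofNat (nat_lit 112220), .ofNat (nat_lit 136616)⟩, ⟨.ofNat (nat_lit 0), .ofNat (nat_lit 0), .ofNat (nat_lit 0), .ofNat (nat_lit 0), .ofNat (nat_lit 0), .ofNat (nat_lit 0), .ofNat (nat_lit 0), .ofNat (nat_lit 0)⟩⟩, []⟩
noncomputable def p008_l109 : Lf2 := ⟨nat_lit 0, nat_lit 1, [nat_lit 19, nat_lit 5, nat_lit 5, nat_lit 20], true, nat_lit 0, nat_lit 0, nat_lit 0, nat_lit 0, ⟨nat_lit 0, nat_lit 0, nat_lit 1000, nat_lit 5, nat_lit 53, nat_lit 0, nat_lit 0, nat_lit 0, nat_lit 0, nat_lit 215, nat_lit 26667, nat_lit 255, nat_lit 65832163, nat_lit 0, nat_lit 0, nat_lit 439243, false, false⟩,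
 nat_lit 0, nat_lit 8619, nat_lit 0, nat_lit 0, nat_lit 4562, nat_lit 0, nat_lit 0, nat_lit 0, nat_lit 0, nat_lit 0, nat_lit 0, nat_lit 0, nat_lit 0, nat_lit 0, nat_lit 10, nat_lit 1000000, nat_lit 0, nat_lit 0, [(nat_lit 6, [(nat_lit 6, nat_lit 1000)])],
 ⟨p008_k0, nat_lit 0, nat_lit 0, nat_lit 280, nat_lit 0, nat_lit 246292, [nat_lit 1137066667, nat_lit 8000000], [], [nat_lit 13078665317, nat_lit 13195282046, nat_lit 13117274203, nat_lit 12780730598], nat_lit 1271250, nat_lit 1271250, nat_lit 88400, nat_lit 111251, nat_lit 0, nat_lit 0, [nat_lit 1100000, nat_lit 1442500], [nat_lit 31, nat_lit 40, nat_lit 20, nat_lit 80, nat_lit 3, nat_lit 215, nat_lit 10, nat_lit 9]⟩, C1.Rw.none,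
 ⟨nat_lit 6224, nat_lit 6325, ⟨.ofNat (nat_lit 121583), .ofNat (nat_lit 129809), .ofNat (nat_lit 132267), .ofNat (nat_lit 140493), .ofNat (nat_lit 125937), .ofNat (nat_lit 134069), .ofNat (nat_lit 136616), .ofNat (nat_lit 144747)⟩, ⟨.ofNat (nat_lit 0), .ofNat (nat_lit 0), .ofNat (nat_lit 0), .ofNat (nat_lit 0), .ofNat (nat_lit 0), .ofNat (nat_lit 0), .ofNat (nat_lit 0), .ofNat (nat_lit 0)⟩⟩, []⟩
noncomputable def p008_l110 : Lf2 := ⟨nat_lit 0, nat_lit 1, [nat_lit 19, nat_lit 5, nat_lit 5, nat_lit 20], true, nat_lit 0, nat_lit 0, nat_lit 0, nat_lit 0, ⟨nat_lit 0, nat_lit 0, nat_lit 1000, nat_lit 5, nat_lit 63, nat_lit 0, nat_lit 0, nat_lit 0, nat_lit 0, nat_lit 215, nat_lit 36817, nat_lit 262, nat_lit 65373640, nat_lit 0, nat_lit 0, nat_lit 571145, false, false⟩,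
 nat_lit 0, nat_lit 8905, nat_lit 0, nat_lit 0, nat_lit 4714, nat_lit 0, nat_lit 0, nat_lit 0, nat_lit 0, nat_lit 0, nat_lit 0, nat_lit 0, nat_lit 0, nat_lit 0, nat_lit 10, nat_lit 1000000, nat_lit 0, nat_lit 0, [(nat_lit 6, [(nat_lit 6, nat_lit 1000)])],
 ⟨p008_k0, nat_lit 0, nat_lit 0, nat_lit 278, nat_lit 0, nat_lit 246292, [nat_lit 1137066667, nat_lit 8000000], [], [nat_lit 12883183259, nat_lit 12988845806, nat_lit 13187385611, nat_lit 12591578437], nat_lit 1271250, nat_lit 1271250, nat_lit 111251, nat_lit 230001, nat_lit 0, nat_lit 0, [nat_lit 1100000, nat_lit 1442500], [nat_lit 31, nat_lit 40, nat_lit 20, nat_lit 80, nat_lit 3, nat_lit 215, nat_lit 10, nat_lit 9]⟩, C1.Rw.none,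
 ⟨nat_lit 6224, nat_lit 6325, ⟨.ofNat (nat_lit 129809), .ofNat (nat_lit 170942), .ofNat (nat_lit 140493), .ofNat (nat_lit 181625), .ofNat (nat_lit 134069), .ofNat (nat_lit 174728), .ofNat (nat_lit 144747), .ofNat (nat_lit 185406)⟩, ⟨.ofNat (nat_lit 0), .ofNat (nat_lit 0), .ofNat (nat_lit 0), .ofNat (nat_lit 0), .ofNat (nat_lit 0), .ofNat (nat_lit 0), .ofNat (nat_lit 0), .ofNat (nat_lit 0)⟩⟩, []⟩
noncomputable def p008_l111 : Lf2 := ⟨nat_lit 0, nat_lit 1, [nat_lit 19, nat_lit 5, nat_lit 5, nat_lit 20], true, nat_lit 0, nat_lit 0, nat_lit 0, nat_lit 0, ⟨nat_lit 0, nat_lit 0, nat_lit 1000, nat_lit 5, nat_lit 88, nat_lit 0, nat_lit 0, nat_lit 0, nat_lit 0, nat_lit 215, nat_lit 72600, nat_lit 281, nat_lit 63931786, nat_lit 0, nat_lit 0, nat_lit 929690, false, false⟩,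
 nat_lit 0, nat_lit 7999, nat_lit 0, nat_lit 0, nat_lit 4234, nat_lit 0, nat_lit 0, nat_lit 0, nat_lit 0, nat_lit 0, nat_lit 0, nat_lit 0, nat_lit 0, nat_lit 0, nat_lit 10, nat_lit 1000000, nat_lit 0, nat_lit 0, [(nat_lit 6, [(nat_lit 6, nat_lit 1000)])],
 ⟨p008_k0, nat_lit 0, nat_lit 0, nat_lit 268, nat_lit 0, nat_lit 246292, [nat_lit 1137066667, nat_lit 8000000], [], [nat_lit 10763354923, nat_lit 11119083416, nat_lit 10494303851, nat_lit 10837136804], nat_lit 1271250, nat_lit 1271250, nat_lit 230001, nat_lit 490000, nat_lit 0, nat_lit 0, [nat_lit 1100000, nat_lit 1442500], [nat_lit 31, nat_lit 40, nat_lit 20, nat_lit 80, nat_lit 3, nat_lit 226, nat_lit 20, nat_lit 9]⟩, C1.Rw.none,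
 ⟨nat_lit 6224, nat_lit 6325, ⟨.ofNat (nat_lit 170942), .ofNat (nat_lit 253206), .ofNat (nat_lit 181625), .ofNat (nat_lit 263890), .ofNat (nat_lit 174728), .ofNat (nat_lit 256045), .ofNat (nat_lit 185406), .ofNat (nat_lit 266724)⟩, ⟨.ofNat (nat_lit 0), .ofNat (nat_lit 0), .ofNat (nat_lit 0), .ofNat (nat_lit 0), .ofNat (nat_lit 0), .ofNat (nat_lit 0), .ofNat (nat_lit 0), .ofNat (nat_lit 0)⟩⟩, []⟩
noncomputable def p008_l112 : Lf2 := ⟨nat_lit 0, nat_lit 1, [nat_lit 19, nat_lit 5, nat_lit 5, nat_lit 20], true, nat_lit 0, nat_lit 0, nat_lit 0, nat_lit 0, ⟨nat_lit 0, nat_lit 0, nat_lit 1000, nat_lit 5, nat_lit 52, nat_lit 0, nat_lit 0, nat_lit 0, nat_lit 0, nat_lit 215, nat_lit 25350, nat_lit 254, nat_lit 65874404, nat_lit 0, nat_lit 0, nat_lit 426469, false, false⟩,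
 nat_lit 0, nat_lit 7444, nat_lit 0, nat_lit 0, nat_lit 3940, nat_lit 0, nat_lit 660, nat_lit 0, nat_lit 0, nat_lit 0, nat_lit 0, nat_lit 0, nat_lit 0, nat_lit 0, nat_lit 10, nat_lit 1000000, nat_lit 0, nat_lit 0, [(nat_lit 6, [(nat_lit 6, nat_lit 1000)])],
 ⟨p008_k1, nat_lit 0, nat_lit 0, nat_lit 0, nat_lit 0, nat_lit 267417, [nat_lit 1137066667, nat_lit 504400001, nat_lit 8000000], [], [nat_lit 12971682830, nat_lit 13149752332, nat_lit 12413307949, nat_lit 12547379062], nat_lit 1271250, nat_lit 1271250, nat_lit 21650, nat_lit 111251, nat_lit 0, nat_lit 0, [nat_lit 1100000, nat_lit 1271250, nat_lit 1271250], [nat_lit 124, nat_lit 40, nat_lit 20, nat_lit 40]⟩, C1.Rw.none,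
 ⟨nat_lit 6264, nat_lit 6325, ⟨.ofNat (nat_lit 107588), .ofNat (nat_lit 140493), .ofNat (nat_lit 118272), .ofNat (nat_lit 151177), .ofNat (nat_lit 110373), .ofNat (nat_lit 143051), .ofNat (nat_lit 121053), .ofNat (nat_lit 153731)⟩, ⟨.ofNat (nat_lit 0), .ofNat (nat_lit 0), .ofNat (nat_lit 0), .ofNat (nat_lit 0), .ofNat (nat_lit 0), .ofNat (nat_lit 0), .ofNat (nat_lit 0), .ofNat (nat_lit 0)⟩⟩, [⟨nat_lit 0, nat_lit 100, nat_lit 98, nat_lit 31, nat_lit 284430354⟩]⟩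
noncomputable def p008_l113 : Lf2 := ⟨nat_lit 0, nat_lit 1, [nat_lit 19, nat_lit 5, nat_lit 5, nat_lit 20], true, nat_lit 0, nat_lit 0, nat_lit 0, nat_lit 0, ⟨nat_lit 0, nat_lit 0, nat_lit 1000, nat_lit 5, nat_lit 52, nat_lit 0, nat_lit 0, nat_lit 0, nat_lit 0, nat_lit 215, nat_lit 25350, nat_lit 254, nat_lit 65874404, nat_lit 0, nat_lit 0, nat_lit 426469, false, false⟩,
 nat_lit 0, nat_lit 100000, nat_lit 0, nat_lit 0, nat_lit 52941, nat_lit 0, nat_lit 0, nat_lit 3608, nat_lit 0, nat_lit 0, nat_lit 0, nat_lit 0, nat_lit 0, nat_lit 0, nat_lit 0, nat_lit 1000000, nat_lit 0, nat_lit 0, [(nat_lit 6, [(nat_lit 6, nat_lit 1000)])],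
 ⟨p008_k0, nat_lit 0, nat_lit 0, nat_lit 288, nat_lit 0, nat_lit 267417, [nat_lit 58705066667, nat_lit 71968000000], [], [nat_lit 186738144227, nat_lit 182669867670, nat_lit 164931365151, nat_lit 163882793059], nat_lit 1271250, nat_lit 1271250, nat_lit 21650, nat_lit 111251, nat_lit 0, nat_lit 0, [nat_lit 1100000, nat_lit 1442500], [nat_lit 31, nat_lit 40, nat_lit 20, nat_lit 80, nat_lit 3, nat_lit 215, nat_lit 10, nat_lit 9]⟩, C1.Rw.none,
 ⟨nat_lit 6264, nat_lit 6325, ⟨.ofNat (nat_lit 107588), .ofNat (nat_lit 140493), .ofNat (nat_lit 118272), .ofNat (nat_lit 151177), .ofNat (nat_lit 110373), .ofNat (nat_lit 143051), .ofNat (nat_lit 121053), .ofNat (nat_lit 153731)⟩, ⟨.ofNat (nat_lit 0), .ofNat (nat_lit 0), .ofNat (nat_lit 0), .ofNat (nat_lit 0), .ofNat (nat_lit 0), .ofNat (nat_lit 0), .ofNat (nat_lit 0), .ofNat (nat_lit 0)⟩⟩, [⟨nat_lit 0, nat_lit 100, nat_lit 98, nat_lit 31, nat_lit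 7057551310⟩]⟩
noncomputable def p008_l114 : Lf2 := ⟨nat_lit 0, nat_lit 1, [nat_lit 19, nat_lit 5, nat_lit 5, nat_lit 20], false, nat_lit 0, nat_lit 0, nat_lit 0, nat_lit 0, ⟨nat_lit 0, nat_lit 946, nat_lit 54, nat_lit 5, nat_lit 52, nat_lit 0, nat_lit 0, nat_lit 0, nat_lit 0, nat_lit 215, nat_lit 25350, nat_lit 254, nat_lit 65874404, nat_lit 1125596, nat_lit 0, nat_lit 426469, false, false⟩,
 nat_lit 100000, nat_lit 0, nat_lit 100000, nat_lit 100000, nat_lit 0, nat_lit 90647, nat_lit 60000, nat_lit 0, nat_lit 0, nat_lit 60000, nat_lit 5426, nat_lit 0, nat_lit 0, nat_lit 0, nat_lit 0, nat_lit 1000000, nat_lit 0, nat_lit 0, [(nat_lit 6, [(nat_lit 2, nat_lit 946), (nat_lit 6, nat_lit 54)])],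
 ⟨p008_k0, nat_lit 0, nat_lit 0, nat_lit 288, nat_lit 0, nat_lit 267417, [nat_lit 2719724800, nat_lit 2639188800], [], [nat_lit 33923892800, nat_lit 34007249421, nat_lit 34128235200, nat_lit 34211111101], nat_lit 1271250, nat_lit 1271250, nat_lit 21650, nat_lit 111251, nat_lit 0, nat_lit 0, [nat_lit 1100000, nat_lit 1442500], [nat_lit 31, nat_lit 40, nat_lit 20, nat_lit 80, nat_lit 3, nat_lit 215, nat_lit 10, nat_lit 9]⟩, ⟨p008_k38, nat_lit 0, nat_lit 0, nat_lit 330, nat_lit 0, nat_lit 313071, [nat_lit 108520000000, nat_lit 130224000000], [], [nat_lit 240866658702, nat_lit 221242020275, nat_lit 203665347454, nat_lit 205065519242], nat_lit 1271250, nat_lit 1271250, nat_lit 21650, nat_lit 111251, nat_lit 0, nat_lit 0, [nat_lit 1412500, nat_lit 1271250], [nat_lit 26, nat_lit 40, nat_lit 20, nat_lit 80, nat_lit 2, nat_lit 272, nat_lit 60, nat_lit 10]⟩,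
 ⟨nat_lit 6264, nat_lit 6325, ⟨.ofNat (nat_lit 107588), .ofNat (nat_lit 140493), .ofNat (nat_lit 118272), .ofNat (nat_lit 151177), .ofNat (nat_lit 110373), .ofNat (nat_lit 143051), .ofNat (nat_lit 121053), .ofNat (nat_lit 153731)⟩, ⟨.ofNat (nat_lit 0), .ofNat (nat_lit 0), .ofNat (nat_lit 0), .ofNat (nat_lit 0), .ofNat (nat_lit 0), .ofNat (nat_lit 0), .ofNat (nat_lit 0), .ofNat (nat_lit 0)⟩⟩, []⟩
noncomputable def p008_l115 : Lf2 := ⟨nat_lit 0, nat_lit 1, [nat_lit 19, nat_lit 5, nat_lit 5, nat_lit 20], true, nat_lit 0, nat_lit 0, nat_lit 0, nat_lit 0, ⟨nat_lit 0, nat_lit 0, nat_lit 1000, nat_lit 5, nat_lit 67, nat_lit 0, nat_lit 0, nat_lit 0, nat_lit 0, nat_lit 215, nat_lit 41667, nat_lit 265, nat_lit 65169240, nat_lit 0, nat_lit 0, nat_lit 626551, false, false⟩,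
 nat_lit 0, nat_lit 9026, nat_lit 0, nat_lit 0, nat_lit 4778, nat_lit 0, nat_lit 0, nat_lit 0, nat_lit 0, nat_lit 0, nat_lit 0, nat_lit 0, nat_lit 0, nat_lit 0, nat_lit 10, nat_lit 1000000, nat_lit 0, nat_lit 0, [(nat_lit 6, [(nat_lit 6, nat_lit 1000)])],
 ⟨p008_k0, nat_lit 0, nat_lit 0, nat_lit 280, nat_lit 0, nat_lit 267417, [nat_lit 1137066667, nat_lit 8000000], [], [nat_lit 12784618651, nat_lit 12855741318, nat_lit 13086502155, nat_lit 12724164437], nat_lit 1271250, nat_lit 1271250, nat_lit 111251, nat_lit 230001, nat_lit 0, nat_lit 0, [nat_lit 1100000, nat_lit 1442500], [nat_lit 31, nat_lit 40, nat_lit 20, nat_lit 80, nat_lit 3, nat_lit 215, nat_lit 10, nat_lit 9]⟩, C1.Rw.none,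
 ⟨nat_lit 6264, nat_lit 6325, ⟨.ofNat (nat_lit 140493), .ofNat (nat_lit 181625), .ofNat (nat_lit 151177), .ofNat (nat_lit 192309), .ofNat (nat_lit 143051), .ofNat (nat_lit 183898), .ofNat (nat_lit 153731), .ofNat (nat_lit 194579)⟩, ⟨.ofNat (nat_lit 0), .ofNat (nat_lit 0), .ofNat (nat_lit 0), .ofNat (nat_lit 0), .ofNat (nat_lit 0), .ofNat (nat_lit 0), .ofNat (nat_lit 0), .ofNat (nat_lit 0)⟩⟩, []⟩
noncomputable def p008_l116 : Lf2 := ⟨nat_lit 0, nat_lit 1, [nat_lit 19, nat_lit 5, nat_lit 5, nat_lit 20], true, nat_lit 0, nat_lit 0, nat_lit 0, nat_lit 0, ⟨nat_lit 0, nat_lit 0, nat_lit 1000, nat_lit 5, nat_lit 53, nat_lit 0, nat_lit 0, nat_lit 0, nat_lit 0, nat_lit 215, nat_lit 26667, nat_lit 255, nat_lit 65836512, nat_lit 0, nat_lit 0, nat_lit 437934, false, false⟩,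
 nat_lit 0, nat_lit 7267, nat_lit 0, nat_lit 0, nat_lit 3903, nat_lit 0, nat_lit 657, nat_lit 0, nat_lit 0, nat_lit 0, nat_lit 0, nat_lit 0, nat_lit 0, nat_lit 0, nat_lit 10, nat_lit 1000000, nat_lit 0, nat_lit 0, [(nat_lit 6, [(nat_lit 6, nat_lit 1000)])],
 ⟨p008_k10, nat_lit 0, nat_lit 0, nat_lit 0, nat_lit 0, nat_lit 271841, [nat_lit 1137066667, nat_lit 504400001, nat_lit 8000000], [], [nat_lit 13165045713, nat_lit 13282874648, nat_lit 12568504130, nat_lit 12685650341], nat_lit 1271250, nat_lit 1271250, nat_lit 21650, nat_lit 111251, nat_lit 0, nat_lit 0, [nat_lit 1100000, nat_lit 1271250, nat_lit 1271250], [nat_lit 124, nat_lit 40, nat_lit 20, nat_lit 40]⟩, C1.Rw.none,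
 ⟨nat_lit 6224, nat_lit 6265, ⟨.ofNat (nat_lit 110373), .ofNat (nat_lit 143051), .ofNat (nat_lit 121053), .ofNat (nat_lit 153731), .ofNat (nat_lit 112220), .ofNat (nat_lit 144747), .ofNat (nat_lit 122899), .ofNat (nat_lit 155426)⟩, ⟨.ofNat (nat_lit 0), .ofNat (nat_lit 0), .ofNat (nat_lit 0), .ofNat (nat_lit 0), .ofNat (nat_lit 0), .ofNat (nat_lit 0), .ofNat (nat_lit 0), .ofNat (nat_lit 0)⟩⟩, [⟨nat_lit 0, nat_lit 100, nat_lit 98, nat_lit 32, nat_lit 292661827⟩]⟩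
noncomputable def p008_l117 : Lf2 := ⟨nat_lit 0, nat_lit 1, [nat_lit 19, nat_lit 5, nat_lit 5, nat_lit 20], true, nat_lit 0, nat_lit 0, nat_lit 0, nat_lit 0, ⟨nat_lit 0, nat_lit 0, nat_lit 1000, nat_lit 5, nat_lit 53, nat_lit 0, nat_lit 0, nat_lit 0, nat_lit 0, nat_lit 215, nat_lit 26667, nat_lit 255, nat_lit 65836512, nat_lit 0, nat_lit 0, nat_lit 437934, false, false⟩,
 nat_lit 0, nat_lit 100000, nat_lit 0, nat_lit 0, nat_lit 53721, nat_lit 0, nat_lit 22620, nat_lit 3583, nat_lit 0, nat_lit 0, nat_lit 0, nat_lit 0, nat_lit 0, nat_lit 0, nat_lit 0, nat_lit 1000000, nat_lit 0, nat_lit 0, [(nat_lit 6, [(nat_lit 6, nat_lit 1000)])],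
 ⟨p008_k8, nat_lit 0, nat_lit 0, nat_lit 287, nat_lit 0, nat_lit 271841, [nat_lit 58305066667, nat_lit 71468000000], [], [nat_lit 175591456532, nat_lit 172839312511, nat_lit 153487719007, nat_lit 152844552587], nat_lit 1271250, nat_lit 1271250, nat_lit 21650, nat_lit 111251, nat_lit 0, nat_lit 0, [nat_lit 1100000, nat_lit 1442500], [nat_lit 31, nat_lit 40, nat_lit 20, nat_lit 80, nat_lit 3, nat_lit 215, nat_lit 10, nat_lit 9]⟩, C1.Rw.none,
 ⟨nat_lit 6224, nat_lit 6265, ⟨.ofNat (nat_lit 110373), .ofNat (nat_lit 143051), .ofNat (nat_lit 121053), .ofNat (nat_lit 153731), .ofNat (nat_lit 112220), .ofNat (nat_lit 144747), .ofNat (nat_lit 122899), .ofNat (nat_lit 155426)⟩, ⟨.ofNat (nat_lit 0), .ofNat (nat_lit 0), .ofNat (nat_lit 0), .ofNat (nat_lit 0), .ofNat (nat_lit 0), .ofNat (nat_lit 0), .ofNat (nat_lit 0), .ofNat (nat_lit 0)⟩⟩, [⟨nat_lit 0, nat_lit 100, nat_lit 98, nat_lit 32, nat_lit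 7379694704⟩]⟩
noncomputable def p008_l118 : Lf2 := ⟨nat_lit 0, nat_lit 1, [nat_lit 19, nat_lit 5, nat_lit 5, nat_lit 20], false, nat_lit 0, nat_lit 0, nat_lit 0, nat_lit 0, ⟨nat_lit 0, nat_lit 1000, nat_lit 0, nat_lit 5, nat_lit 53, nat_lit 0, nat_lit 0, nat_lit 0, nat_lit 0, nat_lit 0, nat_lit 0, nat_lit 0, nat_lit 65836512, nat_lit 1163488, nat_lit 0, nat_lit 437934, false, false⟩,
 nat_lit 100000, nat_lit 0, nat_lit 100000, nat_lit 100000, nat_lit 0, nat_lit 90647, nat_lit 60000, nat_lit 0, nat_lit 0, nat_lit 60000, nat_lit 5265, nat_lit 0, nat_lit 0, nat_lit 0, nat_lit 0, nat_lit 1000000, nat_lit 0, nat_lit 0, [(nat_lit 6, [(nat_lit 2, nat_lit 1000)])],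
 ⟨p008_k8, nat_lit 0, nat_lit 0, nat_lit 287, nat_lit 0, nat_lit 271841, [nat_lit 2819200000, nat_lit 2800800000], [], [nat_lit 25392857981, nat_lit 25460771300, nat_lit 25608912700, nat_lit 25676414500], nat_lit 1271250, nat_lit 1271250, nat_lit 21650, nat_lit 111251, nat_lit 0, nat_lit 0, [nat_lit 1100000, nat_lit 1442500], [nat_lit 31, nat_lit 40, nat_lit 20, nat_lit 80, nat_lit 3, nat_lit 215, nat_lit 10, nat_lit 9]⟩, ⟨p008_k38, nat_lit 0, nat_lit 0, nat_lit 363, nat_lit 0, nat_lit 323004, [nat_lit 105300000000, nat_lit 126360000000], [], [nat_lit 231206658702, nat_lit 207987284616, nat_lit 194005347454, nat_lit 191541519242], nat_lit 1271250, nat_lit 1271250, nat_lit 21650, nat_lit 111251, nat_lit 0, nat_lit 0, [nat_lit 1412500, nat_lit 1271250], [nat_lit 26, nat_lit 40, nat_lit 20, nat_lit 80, nat_lit 2, nat_lit 272, nat_lit 60, nat_lit 10]⟩,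
 ⟨nat_lit 6224, nat_lit 6265, ⟨.ofNat (nat_lit 110373), .ofNat (nat_lit 143051), .ofNat (nat_lit 121053), .ofNat (nat_lit 153731), .ofNat (nat_lit 112220), .ofNat (nat_lit 144747), .ofNat (nat_lit 122899), .ofNat (nat_lit 155426)⟩, ⟨.ofNat (nat_lit 0), .ofNat (nat_lit 0), .ofNat (nat_lit 0), .ofNat (nat_lit 0), .ofNat (nat_lit 0), .ofNat (nat_lit 0), .ofNat (nat_lit 0), .ofNat (nat_lit 0)⟩⟩, []⟩
noncomputable def p008_l119 : Lf2 := ⟨nat_lit 0, nat_lit 1, [nat_lit 19, nat_lit 5, nat_lit 5, nat_lit 20], true, nat_lit 0, nat_lit 0, nat_lit 0, nat_lit 0, ⟨nat_lit 0, nat_lit 0, nat_lit 1000, nat_lit 5, nat_lit 68, nat_lit 0, nat_lit 0, nat_lit 0, nat_lit 0, nat_lit 215, nat_lit 43350, nat_lit 266, nat_lit 65126358, nat_lit 0, nat_lit 0, nat_lit 637946, false, false⟩,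
 nat_lit 0, nat_lit 8391, nat_lit 0, nat_lit 0, nat_lit 4507, nat_lit 0, nat_lit 924, nat_lit 0, nat_lit 0, nat_lit 0, nat_lit 0, nat_lit 0, nat_lit 0, nat_lit 0, nat_lit 10, nat_lit 1000000, nat_lit 0, nat_lit 0, [(nat_lit 6, [(nat_lit 6, nat_lit 1000)])],
 ⟨p008_k8, nat_lit 0, nat_lit 0, nat_lit 279, nat_lit 0, nat_lit 271841, [nat_lit 1137066667, nat_lit 8000000], [], [nat_lit 12649776715, nat_lit 12705425753, nat_lit 12963993997, nat_lit 12736136302], nat_lit 1271250, nat_lit 1271250, nat_lit 111251, nat_lit 230001, nat_lit 0, nat_lit 0, [nat_lit 1100000, nat_lit 1442500], [nat_lit 31, nat_lit 40, nat_lit 20, nat_lit 80, nat_lit 3, nat_lit 215, nat_lit 10, nat_lit 9]⟩, C1.Rw.none,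
 ⟨nat_lit 6224, nat_lit 6265, ⟨.ofNat (nat_lit 143051), .ofNat (nat_lit 183898), .ofNat (nat_lit 153731), .ofNat (nat_lit 194579), .ofNat (nat_lit 144747), .ofNat (nat_lit 185406), .ofNat (nat_lit 155426), .ofNat (nat_lit 196084)⟩, ⟨.ofNat (nat_lit 0), .ofNat (nat_lit 0), .ofNat (nat_lit 0), .ofNat (nat_lit 0), .ofNat (nat_lit 0), .ofNat (nat_lit 0), .ofNat (nat_lit 0), .ofNat (nat_lit 0)⟩⟩, []⟩
noncomputable def p008_l120 : Lf2 := ⟨nat_lit 0, nat_lit 1, [nat_lit 19, nat_lit 5, nat_lit 5, nat_lit 20], true, nat_lit 0, nat_lit 0, nat_lit 0, nat_lit 0, ⟨nat_lit 0, nat_lit 0, nat_lit 1000, nat_lit 5, nat_lit 84, nat_lit 0, nat_lit 0, nat_lit 0, nat_lit 0, nat_lit 215, nat_lit 66150, nat_lit 278, nat_lit 64188040, nat_lit 0, nat_lit 0, nat_lit 870756, false, false⟩,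
 nat_lit 0, nat_lit 10142, nat_lit 0, nat_lit 0, nat_lit 5369, nat_lit 0, nat_lit 0, nat_lit 0, nat_lit 0, nat_lit 0, nat_lit 0, nat_lit 0, nat_lit 0, nat_lit 0, nat_lit 10, nat_lit 1000000, nat_lit 0, nat_lit 0, [(nat_lit 6, [(nat_lit 6, nat_lit 1000)])],
 ⟨p008_k0, nat_lit 0, nat_lit 0, nat_lit 271, nat_lit 0, nat_lit 275902, [nat_lit 1137066667, nat_lit 8000000], [], [nat_lit 12154906491, nat_lit 12269221838, nat_lit 12647339031, nat_lit 11973663756], nat_lit 1271250, nat_lit 1271250, nat_lit 230001, nat_lit 356250, nat_lit 0, nat_lit 0, [nat_lit 1100000, nat_lit 1442500], [nat_lit 31, nat_lit 40, nat_lit 20, nat_lit 80, nat_lit 3, nat_lit 226, nat_lit 20, nat_lit 9]⟩, C1.Rw.none,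
 ⟨nat_lit 6224, nat_lit 6325, ⟨.ofNat (nat_lit 181625), .ofNat (nat_lit 222758), .ofNat (nat_lit 192309), .ofNat (nat_lit 233442), .ofNat (nat_lit 185406), .ofNat (nat_lit 226065), .ofNat (nat_lit 196084), .ofNat (nat_lit 236743)⟩, ⟨.ofNat (nat_lit 0), .ofNat (nat_lit 0), .ofNat (nat_lit 0), .ofNat (nat_lit 0), .ofNat (nat_lit 0), .ofNat (nat_lit 0), .ofNat (nat_lit 0), .ofNat (nat_lit 0)⟩⟩, []⟩
noncomputable def p008_l121 : Lf2 := ⟨nat_lit 0, nat_lit 1, [nat_lit 19, nat_lit 5, nat_lit 5, nat_lit 20], false, nat_lit 0, nat_lit 0, nat_lit 0, nat_lit 0, ⟨nat_lit 380, nat_lit 0, nat_lit 620, nat_lit 5, nat_lit 100, nat_lit 0, nat_lit 0, nat_lit 0, nat_lit 0, nat_lit 215, nat_lit 93750, nat_lit 290, nat_lit 63052894, nat_lit 0, nat_lit 0, nat_lit 1119810, false, false⟩,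
 nat_lit 19966, nat_lit 0, nat_lit 0, nat_lit 0, nat_lit 10570, nat_lit 9049, nat_lit 0, nat_lit 0, nat_lit 0, nat_lit 0, nat_lit 0, nat_lit 0, nat_lit 0, nat_lit 0, nat_lit 0, nat_lit 620000, nat_lit 0, nat_lit 0, [(nat_lit 6, [(nat_lit 6, nat_lit 620)])],
 ⟨p008_k0, nat_lit 0, nat_lit 0, nat_lit 261, nat_lit 0, nat_lit 275902, [nat_lit 2387221334, nat_lit 2255960000], [], [nat_lit 15508311348, nat_lit 15112110840, nat_lit 12575973960, nat_lit 13499081625], nat_lit 1271250, nat_lit 1271250, nat_lit 356250, nat_lit 490000, nat_lit 0, nat_lit 0, [nat_lit 1100000, nat_lit 1442500], [nat_lit 31, nat_lit 40, nat_lit 20, nat_lit 80, nat_lit 3, nat_lit 226, nat_lit 20, nat_lit 9]⟩, ⟨p008_k38, nat_lit 0, nat_lit 0, nat_lit 279, nat_lit 0, nat_lit 323004, [nat_lit 2375000000, nat_lit 3027840000], [], [nat_lit 7893698454, nat_lit 6720947014, nat_lit 8395751189, nat_lit 6141256182], nat_lit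 1271250, nat_lit 1271250, nat_lit 356250, nat_lit 490000, nat_lit 0, nat_lit 0, [nat_lit 1412500, nat_lit 1271250], [nat_lit 26, nat_lit 40, nat_lit 20, nat_lit 80, nat_lit 2, nat_lit 289, nat_lit 75, nat_lit 10]⟩,
 ⟨nat_lit 6224, nat_lit 6325, ⟨.ofNat (nat_lit 222758), .ofNat (nat_lit 263890), .ofNat (nat_lit 233442), .ofNat (nat_lit 274574), .ofNat (nat_lit 226065), .ofNat (nat_lit 266724), .ofNat (nat_lit 236743), .ofNat (nat_lit 277402)⟩, ⟨.ofNat (nat_lit 0), .ofNat (nat_lit 0), .ofNat (nat_lit 0), .ofNat (nat_lit 0), .ofNat (nat_lit 0), .ofNat (nat_lit 0), .ofNat (nat_lit 0), .ofNat (nat_lit 0)⟩⟩, []⟩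
noncomputable def p008_l122 : Lf2 := ⟨nat_lit 0, nat_lit 1, [nat_lit 19, nat_lit 5, nat_lit 5, nat_lit 20], true, nat_lit 0, nat_lit 0, nat_lit 0, nat_lit 0, ⟨nat_lit 0, nat_lit 0, nat_lit 1000, nat_lit 5, nat_lit 77, nat_lit 0, nat_lit 0, nat_lit 0, nat_lit 0, nat_lit 215, nat_lit 54150, nat_lit 272, nat_lit 64634164, nat_lit 0, nat_lit 0, nat_lit 763705, false, false⟩,
 nat_lit 0, nat_lit 7220, nat_lit 0, nat_lit 0, nat_lit 3916, nat_lit 0, nat_lit 645, nat_lit 0, nat_lit 0, nat_lit 0, nat_lit 0, nat_lit 0, nat_lit 0, nat_lit 0, nat_lit 10, nat_lit 1000000, nat_lit 0, nat_lit 0, [(nat_lit 6, [(nat_lit 6, nat_lit 1000)])],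
 ⟨p008_k25, nat_lit 0, nat_lit 0, nat_lit 287, nat_lit 0, nat_lit 290570, [nat_lit 1137066667, nat_lit 8000000], [], [nat_lit 13520131910, nat_lit 13794241422, nat_lit 14848466047, nat_lit 14360644053], nat_lit 1271250, nat_lit 1271250, nat_lit 21650, nat_lit 490000, nat_lit 0, nat_lit 0, [nat_lit 1100000, nat_lit 1442500], [nat_lit 31, nat_lit 40, nat_lit 20, nat_lit 80, nat_lit 3, nat_lit 226, nat_lit 20, nat_lit 9]⟩, C1.Rw.none,
 ⟨nat_lit 6123, nat_lit 6225, ⟨.ofNat (nat_lit 101542), .ofNat (nat_lit 256045), .ofNat (nat_lit 122899), .ofNat (nat_lit 277402), .ofNat (nat_lit 106133), .ofNat (nat_lit 258856), .ofNat (nat_lit 127481), .ofNat (nat_lit 280205)⟩, ⟨.ofNat (nat_lit 0), .ofNat (nat_lit 0), .ofNat (nat_lit 0), .ofNat (nat_lit 0), .ofNat (nat_lit 0), .ofNat (nat_lit 0), .ofNat (nat_lit 0), .ofNat (nat_lit 0)⟩⟩, [⟨nat_lit 0, nat_lit 100, nat_lit 97, nat_lit 35, nat_lit 23395959⟩]⟩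
noncomputable def p008_l123 : Lf2 := ⟨nat_lit 0, nat_lit 2, [nat_lit 10, nat_lit 5, nat_lit 5, nat_lit 20], true, nat_lit 0, nat_lit 0, nat_lit 0, nat_lit 0, ⟨nat_lit 0, nat_lit 0, nat_lit 1000, nat_lit 5, nat_lit 51, nat_lit 0, nat_lit 0, nat_lit 0, nat_lit 0, nat_lit 215, nat_lit 25350, nat_lit 254, nat_lit 65912286, nat_lit 0, nat_lit 0, nat_lit 414910, false, false⟩,
 nat_lit 0, nat_lit 7560, nat_lit 0, nat_lit 0, nat_lit 4002, nat_lit 0, nat_lit 113, nat_lit 0, nat_lit 0, nat_lit 0, nat_lit 0, nat_lit 0, nat_lit 0, nat_lit 0, nat_lit 44, nat_lit 1000000, nat_lit 0, nat_lit 0, [(nat_lit 6, [(nat_lit 6, nat_lit 1000)])],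
 ⟨p008_k26, nat_lit 0, nat_lit 0, nat_lit 0, nat_lit 0, nat_lit 258005, [nat_lit 1681066667, nat_lit 1358400000, nat_lit 17600000], [], [nat_lit 13401560013, nat_lit 13953032694, nat_lit 12783599430, nat_lit 13332053908], nat_lit 1271250, nat_lit 1271250, nat_lit 21650, nat_lit 111251, nat_lit 0, nat_lit 0, [nat_lit 1100000, nat_lit 1271250, nat_lit 1271250], [nat_lit 105, nat_lit 40, nat_lit 20, nat_lit 40]⟩, C1.Rw.none,
 ⟨nat_lit 6123, nat_lit 6325, ⟨.ofNat (nat_lit 96904), .ofNat (nat_lit 129809), .ofNat (nat_lit 118272), .ofNat (nat_lit 151177), .ofNat (nat_lit 106133), .ofNat (nat_lit 138285), .ofNat (nat_lit 127481), .ofNat (nat_lit 159634)⟩, ⟨.ofNat (nat_lit 0), .ofNat (nat_lit 0), .ofNat (nat_lit 0), .ofNat (nat_lit 0), .ofNat (nat_lit 0), .ofNat (nat_lit 0), .ofNat (nat_lit 0), .ofNat (nat_lit 0)⟩⟩, [⟨nat_lit 0, nat_lit 100, nat_lit 97, nat_lit 35, nat_lit 299556185⟩]⟩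
noncomputable def p008_l124 : Lf2 := ⟨nat_lit 0, nat_lit 2, [nat_lit 10, nat_lit 5, nat_lit 5, nat_lit 20], true, nat_lit 0, nat_lit 0, nat_lit 0, nat_lit 0, ⟨nat_lit 0, nat_lit 0, nat_lit 1000, nat_lit 5, nat_lit 51, nat_lit 0, nat_lit 0, nat_lit 0, nat_lit 0, nat_lit 215, nat_lit 25350, nat_lit 254, nat_lit 65912286, nat_lit 0, nat_lit 0, nat_lit 414910, false, false⟩,
 nat_lit 0, nat_lit 100000, nat_lit 0, nat_lit 0, nat_lit 52941, nat_lit 0, nat_lit 0, nat_lit 2643, nat_lit 0, nat_lit 0, nat_lit 0, nat_lit 0, nat_lit 0, nat_lit 0, nat_lit 0, nat_lit 1000000, nat_lit 0, nat_lit 0, [(nat_lit 6, [(nat_lit 6, nat_lit 1000)])],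
 ⟨p008_k9, nat_lit 0, nat_lit 0, nat_lit 317, nat_lit 0, nat_lit 258005, [nat_lit 43265066667, nat_lit 52668000001, nat_lit 61723199999], [], [nat_lit 132698144229, nat_lit 119137222373, nat_lit 110891365153, nat_lit 106413526382], nat_lit 1271250, nat_lit 1271250, nat_lit 21650, nat_lit 111251, nat_lit 0, nat_lit 0, [nat_lit 1100000, nat_lit 1442500, nat_lit 1271250], [nat_lit 9, nat_lit 40, nat_lit 20, nat_lit 80, nat_lit 2, nat_lit 215, nat_lit 10, nat_lit 8]⟩, C1.Rw.none,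
 ⟨nat_lit 6123, nat_lit 6325, ⟨.ofNat (nat_lit 96904), .ofNat (nat_lit 129809), .ofNat (nat_lit 118272), .ofNat (nat_lit 151177), .ofNat (nat_lit 106133), .ofNat (nat_lit 138285), .ofNat (nat_lit 127481), .ofNat (nat_lit 159634)⟩, ⟨.ofNat (nat_lit 0), .ofNat (nat_lit 0), .ofNat (nat_lit 0), .ofNat (nat_lit 0), .ofNat (nat_lit 0), .ofNat (nat_lit 0), .ofNat (nat_lit 0), .ofNat (nat_lit 0)⟩⟩, [⟨nat_lit 0, nat_lit 100, nat_lit 98, nat_lit 27, nat_lit 7057142096⟩]⟩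
noncomputable def p008_l125 : Lf2 := ⟨nat_lit 0, nat_lit 2, [nat_lit 10, nat_lit 5, nat_lit 5, nat_lit 20], false, nat_lit 0, nat_lit 0, nat_lit 0, nat_lit 0, ⟨nat_lit 0, nat_lit 0, nat_lit 1000, nat_lit 5, nat_lit 51, nat_lit 0, nat_lit 0, nat_lit 0, nat_lit 0, nat_lit 215, nat_lit 25350, nat_lit 254, nat_lit 65912286, nat_lit 0, nat_lit 0, nat_lit 414910, false, false⟩,
 nat_lit 100000, nat_lit 0, nat_lit 100000, nat_lit 0, nat_lit 4972, nat_lit 85714, nat_lit 0, nat_lit 0, nat_lit 0, nat_lit 60000, nat_lit 4099, nat_lit 0, nat_lit 0, nat_lit 0, nat_lit 80, nat_lit 1000000, nat_lit 0, nat_lit 0, [(nat_lit 6, [(nat_lit 6, nat_lit 1000)])],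
 ⟨p008_k9, nat_lit 0, nat_lit 0, nat_lit 317, nat_lit 0, nat_lit 258005, [nat_lit 2257066667, nat_lit 1408000000, nat_lit 211200000], [], [nat_lit 17221223394, nat_lit 15947637639, nat_lit 15173220795, nat_lit 13907140771], nat_lit 1271250, nat_lit 1271250, nat_lit 21650, nat_lit 111251, nat_lit 0, nat_lit 0, [nat_lit 1100000, nat_lit 1442500, nat_lit 1271250], [nat_lit 9, nat_lit 40, nat_lit 20, nat_lit 80, nat_lit 2, nat_lit 215, nat_lit 10, nat_lit 8]⟩, ⟨p008_k27, nat_lit 0, nat_lit 0, nat_lit 458, nat_lit 0, nat_lit 320705, [nat_lit 81980000000, nat_lit 98376000000, nat_lit 114772000000], [], [nat_lit 187811439477, nat_lit 186369492941, nat_lit 169752805472, nat_lit 171082915324], nat_lit 1271250, nat_lit 1271250, nat_lit 21650, nat_lit 111251, nat_lit 0, nat_lit 0, [nat_lit 1412500, nat_lit 1271250, nat_lit 1271250], [nat_lit 25, nat_lit 40, nat_lit 20, nat_lit 80, nat_lit 17,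 nat_lit 272, nat_lit 60, nat_lit 9]⟩,
 ⟨nat_lit 6123, nat_lit 6325, ⟨.ofNat (nat_lit 96904), .ofNat (nat_lit 129809), .ofNat (nat_lit 118272), .ofNat (nat_lit 151177), .ofNat (nat_lit 106133), .ofNat (nat_lit 138285), .ofNat (nat_lit 127481), .ofNat (nat_lit 159634)⟩, ⟨.ofNat (nat_lit 0), .ofNat (nat_lit 0), .ofNat (nat_lit 0), .ofNat (nat_lit 0), .ofNat (nat_lit 0), .ofNat (nat_lit 0), .ofNat (nat_lit 0), .ofNat (nat_lit 0)⟩⟩, [⟨nat_lit 0, nat_lit 100, nat_lit 97, nat_lit 35, nat_lit 4019309355⟩]⟩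
noncomputable def p008_l126 : Lf2 := ⟨nat_lit 0, nat_lit 2, [nat_lit 10, nat_lit 5, nat_lit 5, nat_lit 20], true, nat_lit 0, nat_lit 0, nat_lit 0, nat_lit 0, ⟨nat_lit 0, nat_lit 0, nat_lit 1000, nat_lit 5, nat_lit 66, nat_lit 0, nat_lit 0, nat_lit 0, nat_lit 0, nat_lit 215, nat_lit 41667, nat_lit 265, nat_lit 65223075, nat_lit 0, nat_lit 0, nat_lit 612136, false, false⟩,
 nat_lit 0, nat_lit 8638, nat_lit 0, nat_lit 0, nat_lit 4573, nat_lit 0, nat_lit 0, nat_lit 0, nat_lit 0, nat_lit 0, nat_lit 0, nat_lit 0, nat_lit 0, nat_lit 0, nat_lit 80, nat_lit 1000000, nat_lit 0, nat_lit 0, [(nat_lit 6, [(nat_lit 6, nat_lit 1000)])],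
 ⟨p008_k9, nat_lit 0, nat_lit 0, nat_lit 295, nat_lit 0, nat_lit 258005, [nat_lit 2257066667, nat_lit 1408000000, nat_lit 211200000], [], [nat_lit 13100333411, nat_lit 13333706234, nat_lit 13409644475, nat_lit 12268896173], nat_lit 1271250, nat_lit 1271250, nat_lit 111251, nat_lit 230001, nat_lit 0, nat_lit 0, [nat_lit 1100000, nat_lit 1442500, nat_lit 1271250], [nat_lit 9, nat_lit 40, nat_lit 20, nat_lit 80, nat_lit 2, nat_lit 215, nat_lit 10, nat_lit 8]⟩, C1.Rw.none,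
 ⟨nat_lit 6123, nat_lit 6325, ⟨.ofNat (nat_lit 129809), .ofNat (nat_lit 170942), .ofNat (nat_lit 151177), .ofNat (nat_lit 192309), .ofNat (nat_lit 138285), .ofNat (nat_lit 178476), .ofNat (nat_lit 159634), .ofNat (nat_lit 199824)⟩, ⟨.ofNat (nat_lit 0), .ofNat (nat_lit 0), .ofNat (nat_lit 0), .ofNat (nat_lit 0), .ofNat (nat_lit 0), .ofNat (nat_lit 0), .ofNat (nat_lit 0), .ofNat (nat_lit 0)⟩⟩, []⟩
noncomputable def p008_l127 : Lf2 := ⟨nat_lit 0, nat_lit 2, [nat_lit 10, nat_lit 5, nat_lit 5, nat_lit 20], true, nat_lit 0, nat_lit 0, nat_lit 0, nat_lit 0, ⟨nat_lit 0, nat_lit 0, nat_lit 1000, nat_lit 5, nat_lit 90, nat_lit 0, nat_lit 0, nat_lit 0, nat_lit 0, nat_lit 215, nat_lit 77067, nat_lit 283, nat_lit 63742858, nat_lit 0, nat_lit 0, nat_lit 972060, false, false⟩,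
 nat_lit 0, nat_lit 9932, nat_lit 0, nat_lit 0, nat_lit 5258, nat_lit 0, nat_lit 0, nat_lit 0, nat_lit 0, nat_lit 0, nat_lit 0, nat_lit 0, nat_lit 0, nat_lit 0, nat_lit 80, nat_lit 1000000, nat_lit 0, nat_lit 0, [(nat_lit 6, [(nat_lit 6, nat_lit 1000)])],
 ⟨p008_k9, nat_lit 0, nat_lit 0, nat_lit 275, nat_lit 0, nat_lit 258005, [nat_lit 2257066667, nat_lit 1408000000, nat_lit 211200000], [], [nat_lit 12329876235, nat_lit 12739430984, nat_lit 13521660179, nat_lit 12211666285], nat_lit 1271250, nat_lit 1271250, nat_lit 230001, nat_lit 490000, nat_lit 0, nat_lit 0, [nat_lit 1100000, nat_lit 1442500, nat_lit 1271250], [nat_lit 9, nat_lit 40, nat_lit 20, nat_lit 80, nat_lit 2, nat_lit 226, nat_lit 20, nat_lit 8]⟩, C1.Rw.none,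
 ⟨nat_lit 6123, nat_lit 6325, ⟨.ofNat (nat_lit 170942), .ofNat (nat_lit 253206), .ofNat (nat_lit 192309), .ofNat (nat_lit 274574), .ofNat (nat_lit 178476), .ofNat (nat_lit 258856), .ofNat (nat_lit 199824), .ofNat (nat_lit 280205)⟩, ⟨.ofNat (nat_lit 0), .ofNat (nat_lit 0), .ofNat (nat_lit 0), .ofNat (nat_lit 0), .ofNat (nat_lit 0), .ofNat (nat_lit 0), .ofNat (nat_lit 0), .ofNat (nat_lit 0)⟩⟩, []⟩
noncomputable def p008_l128 : Lf2 := ⟨nat_lit 0, nat_lit 4, [nat_lit 38, nat_lit 5, nat_lit 5, nat_lit 20], true, nat_lit 0, nat_lit 0, nat_lit 0, nat_lit 0, ⟨nat_lit 0, nat_lit 0, nat_lit 1000, nat_lit 5, nat_lit 50, nat_lit 0, nat_lit 0, nat_lit 0, nat_lit 0, nat_lit 215, nat_lit 22817, nat_lit 252, nat_lit 65979021, nat_lit 0, nat_lit 0, nat_lit 394301, false, false⟩,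
 nat_lit 0, nat_lit 4359, nat_lit 0, nat_lit 0, nat_lit 2307, nat_lit 0, nat_lit 0, nat_lit 0, nat_lit 111, nat_lit 0, nat_lit 0, nat_lit 0, nat_lit 0, nat_lit 0, nat_lit 61, nat_lit 696400, nat_lit 0, nat_lit 0, [(nat_lit 6, [(nat_lit 5, nat_lit 506), (nat_lit 6, nat_lit 494)])],
 ⟨p008_k29, nat_lit 0, nat_lit 0, nat_lit 0, nat_lit 0, nat_lit 227193, [nat_lit 2175976534, nat_lit 1141951200, nat_lit 176799200], [], [nat_lit 10108806068, nat_lit 10853452974, nat_lit 9834412545, nat_lit 10429696700], nat_lit 1271250, nat_lit 1271250, nat_lit 21650, nat_lit 88400, nat_lit 0, nat_lit 0, [nat_lit 1100000, nat_lit 1442500, nat_lit 1271250], [nat_lit 9, nat_lit 40, nat_lit 20, nat_lit 80]⟩, C1.Rw.none,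
 ⟨nat_lit 6123, nat_lit 6325, ⟨.ofNat (nat_lit 96904), .ofNat (nat_lit 121583), .ofNat (nat_lit 118272), .ofNat (nat_lit 142951), .ofNat (nat_lit 106133), .ofNat (nat_lit 130247), .ofNat (nat_lit 127481), .ofNat (nat_lit 151595)⟩, ⟨.ofNat (nat_lit 0), .ofNat (nat_lit 0), .ofNat (nat_lit 0), .ofNat (nat_lit 0), .ofNat (nat_lit 0), .ofNat (nat_lit 0), .ofNat (nat_lit 0), .ofNat (nat_lit 0)⟩⟩, [⟨nat_lit 0, nat_lit 100, nat_lit 98, nat_lit 27, nat_lit 219666277⟩]⟩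
noncomputable def p008_l129 : Lf2 := ⟨nat_lit 0, nat_lit 4, [nat_lit 38, nat_lit 5, nat_lit 5, nat_lit 20], true, nat_lit 0, nat_lit 0, nat_lit 0, nat_lit 0, ⟨nat_lit 0, nat_lit 0, nat_lit 1000, nat_lit 5, nat_lit 50, nat_lit 0, nat_lit 0, nat_lit 0, nat_lit 0, nat_lit 215, nat_lit 22817, nat_lit 252, nat_lit 65979021, nat_lit 0, nat_lit 0, nat_lit 394301, false, false⟩,
 nat_lit 0, nat_lit 7506, nat_lit 0, nat_lit 0, nat_lit 3973, nat_lit 0, nat_lit 0, nat_lit 0, nat_lit 10, nat_lit 0, nat_lit 0, nat_lit 0, nat_lit 0, nat_lit 0, nat_lit 80, nat_lit 1000000, nat_lit 0, nat_lit 0, [(nat_lit 6, [(nat_lit 6, nat_lit 1000)])],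
 ⟨p008_k29, nat_lit 0, nat_lit 0, nat_lit 0, nat_lit 0, nat_lit 227193, [nat_lit 2257066667, nat_lit 1408000000, nat_lit 211200000], [], [nat_lit 13318540825, nat_lit 13676583790, nat_lit 13418951346, nat_lit 13097801974], nat_lit 1271250, nat_lit 1271250, nat_lit 21650, nat_lit 88400, nat_lit 0, nat_lit 0, [nat_lit 1100000, nat_lit 1442500, nat_lit 1271250], [nat_lit 9, nat_lit 40, nat_lit 20, nat_lit 80]⟩, C1.Rw.none,
 ⟨nat_lit 6123, nat_lit 6325, ⟨.ofNat (nat_lit 96904), .ofNat (nat_lit 121583), .ofNat (nat_lit 118272), .ofNat (nat_lit 142951), .ofNat (nat_lit 106133), .ofNat (nat_lit 130247), .ofNat (nat_lit 127481), .ofNat (nat_lit 151595)⟩, ⟨.ofNat (nat_lit 0), .ofNat (nat_lit 0), .ofNat (nat_lit 0), .ofNat (nat_lit 0), .ofNat (nat_lit 0), .ofNat (nat_lit 0), .ofNat (nat_lit 0), .ofNat (nat_lit 0)⟩⟩, [⟨nat_lit 0, nat_lit 100, nat_lit 97, nat_lit 35, nat_lit 60891041⟩]⟩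
noncomputable def p008_l130 : Lf2 := ⟨nat_lit 0, nat_lit 3, [nat_lit 45, nat_lit 5, nat_lit 5, nat_lit 20], true, nat_lit 0, nat_lit 0, nat_lit 0, nat_lit 0, ⟨nat_lit 0, nat_lit 0, nat_lit 1000, nat_lit 5, nat_lit 49, nat_lit 0, nat_lit 0, nat_lit 0, nat_lit 0, nat_lit 215, nat_lit 22817, nat_lit 252, nat_lit 66014653, nat_lit 0, nat_lit 0, nat_lit 383163, false, false⟩,
 nat_lit 0, nat_lit 100000, nat_lit 0, nat_lit 0, nat_lit 52941, nat_lit 0, nat_lit 11765, nat_lit 2311, nat_lit 0, nat_lit 0, nat_lit 0, nat_lit 0, nat_lit 0, nat_lit 0, nat_lit 0, nat_lit 1000000, nat_lit 0, nat_lit 0, [(nat_lit 6, [(nat_lit 6, nat_lit 1000)])],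
 ⟨p008_k30, nat_lit 0, nat_lit 0, nat_lit 0, nat_lit 0, nat_lit 201049, [nat_lit 37953066667, nat_lit 46028000001, nat_lit 53755199999], [], [nat_lit 73257474204, nat_lit 75157838108, nat_lit 68547402522, nat_lit 65714657151], nat_lit 1271250, nat_lit 1271250, nat_lit 21650, nat_lit 88400, nat_lit 0, nat_lit 0, [nat_lit 1100000, nat_lit 1442500, nat_lit 1271250], [nat_lit 9, nat_lit 40, nat_lit 20, nat_lit 80]⟩, C1.Rw.none,
 ⟨nat_lit 6224, nat_lit 6325, ⟨.ofNat (nat_lit 96904), .ofNat (nat_lit 121583), .ofNat (nat_lit 118272), .ofNat (nat_lit 142951), .ofNat (nat_lit 101542), .ofNat (nat_lit 125937), .ofNat (nat_lit 122899), .ofNat (nat_lit 147294)⟩, ⟨.ofNat (nat_lit 0), .ofNat (nat_lit 0), .ofNat (nat_lit 0), .ofNat (nat_lit 0), .ofNat (nat_lit 0), .ofNat (nat_lit 0), .ofNat (nat_lit 0), .ofNat (nat_lit 0)⟩⟩, [⟨nat_lit 0, nat_lit 100, nat_lit 98, nat_lit 32, nat_lit 4115021408⟩]⟩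
noncomputable def p008_l131 : Lf2 := ⟨nat_lit 0, nat_lit 3, [nat_lit 45, nat_lit 5, nat_lit 5, nat_lit 20], false, nat_lit 0, nat_lit 0, nat_lit 0, nat_lit 0, ⟨nat_lit 0, nat_lit 0, nat_lit 1000, nat_lit 5, nat_lit 49, nat_lit 0, nat_lit 0, nat_lit 0, nat_lit 0, nat_lit 215, nat_lit 22817, nat_lit 252, nat_lit 66014653, nat_lit 0, nat_lit 0, nat_lit 383163, false, false⟩,
 nat_lit 88889, nat_lit 100000, nat_lit 0, nat_lit 0, nat_lit 100000, nat_lit 0, nat_lit 0, nat_lit 3018, nat_lit 0, nat_lit 0, nat_lit 0, nat_lit 0, nat_lit 0, nat_lit 0, nat_lit 0, nat_lit 1000000, nat_lit 0, nat_lit 0, [(nat_lit 6, [(nat_lit 6, nat_lit 1000)])],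
 ⟨p008_k30, nat_lit 0, nat_lit 0, nat_lit 0, nat_lit 0, nat_lit 201049, [nat_lit 49265066667, nat_lit 60168000001, nat_lit 70723199999], [], [nat_lit 121784198669, nat_lit 108976618669, nat_lit 90891158669, nat_lit 86603660400], nat_lit 1271250, nat_lit 1271250, nat_lit 21650, nat_lit 88400, nat_lit 0, nat_lit 0, [nat_lit 1100000, nat_lit 1442500, nat_lit 1271250], [nat_lit 9, nat_lit 40, nat_lit 20, nat_lit 80]⟩, ⟨p008_k39, nat_lit 0, nat_lit 0, nat_lit 0, nat_lit 0, nat_lit 250642, [nat_lit 0, nat_lit 0, nat_lit 0], [], [nat_lit 0, nat_lit 0, nat_lit 0, nat_lit 0], nat_lit 1271250, nat_lit 1271250, nat_lit 21650, nat_lit 88400, nat_lit 0, nat_lit 0, [nat_lit 1412500, nat_lit 1271250, nat_lit 1271250], [nat_lit 25, nat_lit 40, nat_lit 20, nat_lit 80]⟩,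
 ⟨nat_lit 6224, nat_lit 6325, ⟨.ofNat (nat_lit 96904), .ofNat (nat_lit 121583), .ofNat (nat_lit 118272), .ofNat (nat_lit 142951), .ofNat (nat_lit 101542), .ofNat (nat_lit 125937), .ofNat (nat_lit 122899), .ofNat (nat_lit 147294)⟩, ⟨.ofNat (nat_lit 0), .ofNat (nat_lit 0), .ofNat (nat_lit 0), .ofNat (nat_lit 0), .ofNat (nat_lit 0), .ofNat (nat_lit 0), .ofNat (nat_lit 0), .ofNat (nat_lit 0)⟩⟩, [⟨nat_lit 0, nat_lit 100, nat_lit 98, nat_lit 26, nat_lit 3033250548⟩, ⟨nat_lit 0, nat_lit 100, nat_lit 98, nat_lit 32, nat_lit 10204081633⟩]⟩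
noncomputable def p008_l132 : Lf2 := ⟨nat_lit 0, nat_lit 4, [nat_lit 38, nat_lit 5, nat_lit 5, nat_lit 20], true, nat_lit 0, nat_lit 0, nat_lit 0, nat_lit 0, ⟨nat_lit 0, nat_lit 0, nat_lit 1000, nat_lit 5, nat_lit 49, nat_lit 0, nat_lit 0, nat_lit 0, nat_lit 0, nat_lit 215, nat_lit 22817, nat_lit 252, nat_lit 66014653, nat_lit 0, nat_lit 0, nat_lit 383163, false, false⟩,
 nat_lit 0, nat_lit 100000, nat_lit 0, nat_lit 0, nat_lit 52941, nat_lit 0, nat_lit 11782, nat_lit 2318, nat_lit 0, nat_lit 0, nat_lit 0, nat_lit 0, nat_lit 0, nat_lit 0, nat_lit 0, nat_lit 1000000, nat_lit 0, nat_lit 0, [(nat_lit 6, [(nat_lit 6, nat_lit 1000)])],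
 ⟨p008_k29, nat_lit 0, nat_lit 0, nat_lit 0, nat_lit 0, nat_lit 168509, [nat_lit 38065066667, nat_lit 46168000001, nat_lit 53923199999], [], [nat_lit 73538327329, nat_lit 75438691233, nat_lit 68939402522, nat_lit 65995510276], nat_lit 1271250, nat_lit 1271250, nat_lit 21650, nat_lit 88400, nat_lit 0, nat_lit 0, [nat_lit 1100000, nat_lit 1442500, nat_lit 1271250], [nat_lit 9, nat_lit 40, nat_lit 20, nat_lit 80]⟩, C1.Rw.none,
 ⟨nat_lit 6224, nat_lit 6325, ⟨.ofNat (nat_lit 96904), .ofNat (nat_lit 121583), .ofNat (nat_lit 118272), .ofNat (nat_lit 142951), .ofNat (nat_lit 101542), .ofNat (nat_lit 125937), .ofNat (nat_lit 122899), .ofNat (nat_lit 147294)⟩, ⟨.ofNat (nat_lit 0), .ofNat (nat_lit 0), .ofNat (nat_lit 0), .ofNat (nat_lit 0), .ofNat (nat_lit 0), .ofNat (nat_lit 0), .ofNat (nat_lit 0), .ofNat (nat_lit 0)⟩⟩, [⟨nat_lit 0, nat_lit 100, nat_lit 98, nat_lit 32, nat_lit 4115021408⟩]⟩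
noncomputable def p008_l133 : Lf2 := ⟨nat_lit 0, nat_lit 4, [nat_lit 38, nat_lit 5, nat_lit 5, nat_lit 20], true, nat_lit 0, nat_lit 0, nat_lit 0, nat_lit 0, ⟨nat_lit 0, nat_lit 0, nat_lit 1000, nat_lit 5, nat_lit 50, nat_lit 0, nat_lit 0, nat_lit 0, nat_lit 0, nat_lit 215, nat_lit 24067, nat_lit 253, nat_lit 65956946, nat_lit 0, nat_lit 0, nat_lit 401155, false, false⟩,
 nat_lit 0, nat_lit 25997, nat_lit 0, nat_lit 0, nat_lit 14101, nat_lit 0, nat_lit 1453, nat_lit 0, nat_lit 0, nat_lit 0, nat_lit 0, nat_lit 0, nat_lit 0, nat_lit 0, nat_lit 80, nat_lit 1000000, nat_lit 0, nat_lit 0, [(nat_lit 6, [(nat_lit 6, nat_lit 1000)])],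
 ⟨p008_k32, nat_lit 0, nat_lit 0, nat_lit 0, nat_lit 0, nat_lit 212391, [nat_lit 2257066667, nat_lit 1408000000, nat_lit 211200000], [], [nat_lit 8633942313, nat_lit 7550344199, nat_lit 4285697319, nat_lit 4224298397], nat_lit 1271250, nat_lit 1271250, nat_lit 21650, nat_lit 88400, nat_lit 0, nat_lit 0, [nat_lit 1100000, nat_lit 1442500, nat_lit 1271250], [nat_lit 9, nat_lit 40, nat_lit 20, nat_lit 80]⟩, C1.Rw.none,
 ⟨nat_lit 6164, nat_lit 6225, ⟨.ofNat (nat_lit 101542), .ofNat (nat_lit 125937), .ofNat (nat_lit 122899), .ofNat (nat_lit 147294), .ofNat (nat_lit 104302), .ofNat (nat_lit 128528), .ofNat (nat_lit 125653), .ofNat (nat_lit 149880)⟩, ⟨.ofNat (nat_lit 0), .ofNat (nat_lit 0), .ofNat (nat_lit 0), .ofNat (nat_lit 0), .ofNat (nat_lit 0), .ofNat (nat_lit 0), .ofNat (nat_lit 0), .ofNat (nat_lit 0)⟩⟩, [⟨nat_lit 0, nat_lit 100, nat_lit 98, nat_lit 34, nat_lit 1949711905⟩]⟩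
noncomputable def p008_l134 : Lf2 := ⟨nat_lit 0, nat_lit 4, [nat_lit 38, nat_lit 5, nat_lit 5, nat_lit 20], true, nat_lit 0, nat_lit 0, nat_lit 0, nat_lit 0, ⟨nat_lit 0, nat_lit 0, nat_lit 1000, nat_lit 5, nat_lit 51, nat_lit 0, nat_lit 0, nat_lit 0, nat_lit 0, nat_lit 215, nat_lit 24067, nat_lit 253, nat_lit 65920343, nat_lit 0, nat_lit 0, nat_lit 412439, false, false⟩,
 nat_lit 0, nat_lit 100000, nat_lit 0, nat_lit 0, nat_lit 55029, nat_lit 0, nat_lit 13305, nat_lit 2862, nat_lit 0, nat_lit 0, nat_lit 0, nat_lit 0, nat_lit 0, nat_lit 0, nat_lit 0, nat_lit 1000000, nat_lit 0, nat_lit 0, [(nat_lit 6, [(nat_lit 6, nat_lit 1000)])],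
 ⟨p008_k33, nat_lit 0, nat_lit 0, nat_lit 0, nat_lit 0, nat_lit 218149, [nat_lit 46769066667, nat_lit 57048000001, nat_lit 66979199999], [], [nat_lit 88525091631, nat_lit 89349997507, nat_lit 78777203051, nat_lit 79491359451], nat_lit 1271250, nat_lit 1271250, nat_lit 21650, nat_lit 88400, nat_lit 0, nat_lit 0, [nat_lit 1100000, nat_lit 1442500, nat_lit 1271250], [nat_lit 9, nat_lit 40, nat_lit 20, nat_lit 80]⟩, C1.Rw.none,
 ⟨nat_lit 6123, nat_lit 6165, ⟨.ofNat (nat_lit 104302), .ofNat (nat_lit 128528), .ofNat (nat_lit 125653), .ofNat (nat_lit 149880), .ofNat (nat_lit 106133), .ofNat (nat_lit 130247), .ofNat (nat_lit 127481), .ofNat (nat_lit 151595)⟩, ⟨.ofNat (nat_lit 0), .ofNat (nat_lit 0), .ofNat (nat_lit 0), .ofNat (nat_lit 0), .ofNat (nat_lit 0), .ofNat (nat_lit 0), .ofNat (nat_lit 0), .ofNat (nat_lit 0)⟩⟩, [⟨nat_lit 0, nat_lit 100, nat_lit 97, nat_lit 35, nat_lit 4335399351⟩]⟩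
noncomputable def p008_l135 : Lf2 := ⟨nat_lit 0, nat_lit 4, [nat_lit 38, nat_lit 5, nat_lit 5, nat_lit 20], true, nat_lit 0, nat_lit 0, nat_lit 0, nat_lit 0, ⟨nat_lit 0, nat_lit 0, nat_lit 1000, nat_lit 5, nat_lit 50, nat_lit 0, nat_lit 0, nat_lit 0, nat_lit 0, nat_lit 215, nat_lit 22817, nat_lit 252, nat_lit 65979021, nat_lit 0, nat_lit 0, nat_lit 394301, false, false⟩,
 nat_lit 0, nat_lit 100000, nat_lit 0, nat_lit 0, nat_lit 52941, nat_lit 0, nat_lit 0, nat_lit 3042, nat_lit 0, nat_lit 0, nat_lit 0, nat_lit 0, nat_lit 0, nat_lit 0, nat_lit 0, nat_lit 1000000, nat_lit 0, nat_lit 0, [(nat_lit 6, [(nat_lit 6, nat_lit 1000)])],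
 ⟨p008_k29, nat_lit 0, nat_lit 0, nat_lit 305, nat_lit 0, nat_lit 227193, [nat_lit 49649066667, nat_lit 60648000001, nat_lit 71299199999], [], [nat_lit 155042144229, nat_lit 147646588975, nat_lit 138687059922, nat_lit 140660685696], nat_lit 1271250, nat_lit 1271250, nat_lit 21650, nat_lit 88400, nat_lit 0, nat_lit 0, [nat_lit 1100000, nat_lit 1442500, nat_lit 1271250], [nat_lit 9, nat_lit 40, nat_lit 20, nat_lit 80, nat_lit 2, nat_lit 215, nat_lit 10, nat_lit 8]⟩, C1.Rw.none,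
 ⟨nat_lit 6123, nat_lit 6325, ⟨.ofNat (nat_lit 96904), .ofNat (nat_lit 121583), .ofNat (nat_lit 118272), .ofNat (nat_lit 142951), .ofNat (nat_lit 106133), .ofNat (nat_lit 130247), .ofNat (nat_lit 127481), .ofNat (nat_lit 151595)⟩, ⟨.ofNat (nat_lit 0), .ofNat (nat_lit 0), .ofNat (nat_lit 0), .ofNat (nat_lit 0), .ofNat (nat_lit 0), .ofNat (nat_lit 0), .ofNat (nat_lit 0), .ofNat (nat_lit 0)⟩⟩, [⟨nat_lit 0, nat_lit 100, nat_lit 97, nat_lit 35, nat_lit 3047641257⟩]⟩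
noncomputable def p008_l136 : Lf2 := ⟨nat_lit 0, nat_lit 4, [nat_lit 38, nat_lit 5, nat_lit 5, nat_lit 20], false, nat_lit 0, nat_lit 0, nat_lit 0, nat_lit 0, ⟨nat_lit 0, nat_lit 1000, nat_lit 0, nat_lit 5, nat_lit 50, nat_lit 0, nat_lit 0, nat_lit 0, nat_lit 0, nat_lit 0, nat_lit 0, nat_lit 0, nat_lit 65979021, nat_lit 1020979, nat_lit 0, nat_lit 394301, false, false⟩,
 nat_lit 100000, nat_lit 0, nat_lit 100000, nat_lit 22153, nat_lit 0, nat_lit 85714, nat_lit 0, nat_lit 0, nat_lit 0, nat_lit 16774, nat_lit 4018, nat_lit 0, nat_lit 0, nat_lit 0, nat_lit 0, nat_lit 400000, nat_lit 0, nat_lit 0, [(nat_lit 6, [(nat_lit 1, nat_lit 1000)])],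
 ⟨p008_k29, nat_lit 0, nat_lit 0, nat_lit 305, nat_lit 0, nat_lit 227193, [nat_lit 2692266667, nat_lit 3030400001, nat_lit 3280799999], [], [nat_lit 36359321868, nat_lit 36627768668, nat_lit 36508467468, nat_lit 36775791668], nat_lit 1271250, nat_lit 1271250, nat_lit 21650, nat_lit 88400, nat_lit 0, nat_lit 0, [nat_lit 1100000, nat_lit 1442500, nat_lit 1271250], [nat_lit 9, nat_lit 40, nat_lit 20, nat_lit 80, nat_lit 2, nat_lit 215, nat_lit 10, nat_lit 8]⟩, ⟨p008_k40, nat_lit 0, nat_lit 0, nat_lit 442, nat_lit 0, nat_lit 284032, [nat_lit 80360000000, nat_lit 96432000000, nat_lit 112504000000], [], [nat_lit 182951439477, nat_lit 180549426326, nat_lit 166124815583, nat_lit 167452559728], nat_lit 1271250, nat_lit 1271250, nat_lit 21650, nat_lit 88400, nat_lit 0, nat_lit 0, [nat_lit 1412500, nat_lit 1271250, nat_lit 1271250], [nat_lit 25, nat_lit 40, nat_lit 20, nat_lit 80, nat_lit 17,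 nat_lit 272, nat_lit 60, nat_lit 9]⟩,
 ⟨nat_lit 6123, nat_lit 6325, ⟨.ofNat (nat_lit 96904), .ofNat (nat_lit 121583), .ofNat (nat_lit 118272), .ofNat (nat_lit 142951), .ofNat (nat_lit 106133), .ofNat (nat_lit 130247), .ofNat (nat_lit 127481), .ofNat (nat_lit 151595)⟩, ⟨.ofNat (nat_lit 0), .ofNat (nat_lit 0), .ofNat (nat_lit 0), .ofNat (nat_lit 0), .ofNat (nat_lit 0), .ofNat (nat_lit 0), .ofNat (nat_lit 0), .ofNat (nat_lit 0)⟩⟩, [⟨nat_lit 0, nat_lit 100, nat_lit 97, nat_lit 35, nat_lit 10309278351⟩]⟩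
noncomputable def p008_l137 : Lf2 := ⟨nat_lit 0, nat_lit 4, [nat_lit 38, nat_lit 5, nat_lit 5, nat_lit 20], true, nat_lit 0, nat_lit 0, nat_lit 0, nat_lit 0, ⟨nat_lit 0, nat_lit 0, nat_lit 1000, nat_lit 5, nat_lit 56, nat_lit 0, nat_lit 0, nat_lit 0, nat_lit 0, nat_lit 215, nat_lit 29400, nat_lit 257, nat_lit 65700106, nat_lit 0, nat_lit 0, nat_lit 478444, false, false⟩,
 nat_lit 0, nat_lit 8355, nat_lit 0, nat_lit 0, nat_lit 4423, nat_lit 0, nat_lit 0, nat_lit 0, nat_lit 0, nat_lit 0, nat_lit 0, nat_lit 0, nat_lit 0, nat_lit 0, nat_lit 80, nat_lit 1000000, nat_lit 0, nat_lit 0, [(nat_lit 6, [(nat_lit 6, nat_lit 1000)])],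
 ⟨p008_k29, nat_lit 0, nat_lit 0, nat_lit 289, nat_lit 0, nat_lit 227193, [nat_lit 2257066667, nat_lit 1408000000, nat_lit 211200000], [], [nat_lit 13291126706, nat_lit 13518711872, nat_lit 13331344211, nat_lit 13161663002], nat_lit 1271250, nat_lit 1271250, nat_lit 88400, nat_lit 111251, nat_lit 0, nat_lit 0, [nat_lit 1100000, nat_lit 1442500, nat_lit 1271250], [nat_lit 9, nat_lit 40, nat_lit 20, nat_lit 80, nat_lit 2, nat_lit 215, nat_lit 10, nat_lit 8]⟩, C1.Rw.none,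
 ⟨nat_lit 6123, nat_lit 6325, ⟨.ofNat (nat_lit 121583), .ofNat (nat_lit 129809), .ofNat (nat_lit 142951), .ofNat (nat_lit 151177), .ofNat (nat_lit 130247), .ofNat (nat_lit 138285), .ofNat (nat_lit 151595), .ofNat (nat_lit 159634)⟩, ⟨.ofNat (nat_lit 0), .ofNat (nat_lit 0), .ofNat (nat_lit 0), .ofNat (nat_lit 0), .ofNat (nat_lit 0), .ofNat (nat_lit 0), .ofNat (nat_lit 0), .ofNat (nat_lit 0)⟩⟩, []⟩
noncomputable def p008_l138 : Lf2 := ⟨nat_lit 0, nat_lit 4, [nat_lit 38, nat_lit 5, nat_lit 5, nat_lit 20], true, nat_lit 0, nat_lit 0, nat_lit 0, nat_lit 0, ⟨nat_lit 0, nat_lit 0, nat_lit 1000, nat_lit 5, nat_lit 66, nat_lit 0, nat_lit 0, nat_lit 0, nat_lit 0, nat_lit 215, nat_lit 41667, nat_lit 265, nat_lit 65223075, nat_lit 0, nat_lit 0, nat_lit 612136, false, false⟩,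
 nat_lit 0, nat_lit 8620, nat_lit 0, nat_lit 0, nat_lit 4563, nat_lit 0, nat_lit 0, nat_lit 0, nat_lit 0, nat_lit 0, nat_lit 0, nat_lit 0, nat_lit 0, nat_lit 0, nat_lit 80, nat_lit 1000000, nat_lit 0, nat_lit 0, [(nat_lit 6, [(nat_lit 6, nat_lit 1000)])],
 ⟨p008_k29, nat_lit 0, nat_lit 0, nat_lit 283, nat_lit 0, nat_lit 227193, [nat_lit 2257066667, nat_lit 1408000000, nat_lit 211200000], [], [nat_lit 13115734131, nat_lit 13319335654, nat_lit 13425407515, nat_lit 12452485942], nat_lit 1271250, nat_lit 1271250, nat_lit 111251, nat_lit 230001, nat_lit 0, nat_lit 0, [nat_lit 1100000, nat_lit 1442500, nat_lit 1271250], [nat_lit 9, nat_lit 40, nat_lit 20, nat_lit 80, nat_lit 2, nat_lit 215, nat_lit 10, nat_lit 8]⟩, C1.Rw.none,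
 ⟨nat_lit 6123, nat_lit 6325, ⟨.ofNat (nat_lit 129809), .ofNat (nat_lit 170942), .ofNat (nat_lit 151177), .ofNat (nat_lit 192309), .ofNat (nat_lit 138285), .ofNat (nat_lit 178476), .ofNat (nat_lit 159634), .ofNat (nat_lit 199824)⟩, ⟨.ofNat (nat_lit 0), .ofNat (nat_lit 0), .ofNat (nat_lit 0), .ofNat (nat_lit 0), .ofNat (nat_lit 0), .ofNat (nat_lit 0), .ofNat (nat_lit 0), .ofNat (nat_lit 0)⟩⟩, []⟩
noncomputable def p008_l139 : Lf2 := ⟨nat_lit 0, nat_lit 4, [nat_lit 38, nat_lit 5, nat_lit 5, nat_lit 20], true, nat_lit 0, nat_lit 0, nat_lit 0, nat_lit 0, ⟨nat_lit 0, nat_lit 0, nat_lit 1000, nat_lit 5, nat_lit 90, nat_lit 0, nat_lit 0, nat_lit 0, nat_lit 0, nat_lit 215, nat_lit 77067, nat_lit 283, nat_lit 63742858, nat_lit 0, nat_lit 0, nat_lit 972060, false, false⟩,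
 nat_lit 0, nat_lit 9908, nat_lit 0, nat_lit 0, nat_lit 5245, nat_lit 0, nat_lit 0, nat_lit 0, nat_lit 0, nat_lit 0, nat_lit 0, nat_lit 0, nat_lit 0, nat_lit 0, nat_lit 80, nat_lit 1000000, nat_lit 0, nat_lit 0, [(nat_lit 6, [(nat_lit 6, nat_lit 1000)])],
 ⟨p008_k29, nat_lit 0, nat_lit 0, nat_lit 267, nat_lit 0, nat_lit 227193, [nat_lit 2257066667, nat_lit 1408000000, nat_lit 211200000], [], [nat_lit 12350368187, nat_lit 12725355260, nat_lit 13541776847, nat_lit 12235021812], nat_lit 1271250, nat_lit 1271250, nat_lit 230001, nat_lit 490000, nat_lit 0, nat_lit 0, [nat_lit 1100000, nat_lit 1442500, nat_lit 1271250], [nat_lit 9, nat_lit 40, nat_lit 20, nat_lit 80, nat_lit 2, nat_lit 226, nat_lit 20, nat_lit 8]⟩, C1.Rw.none,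
 ⟨nat_lit 6123, nat_lit 6325, ⟨.ofNat (nat_lit 170942), .ofNat (nat_lit 253206), .ofNat (nat_lit 192309), .ofNat (nat_lit 274574), .ofNat (nat_lit 178476), .ofNat (nat_lit 258856), .ofNat (nat_lit 199824), .ofNat (nat_lit 280205)⟩, ⟨.ofNat (nat_lit 0), .ofNat (nat_lit 0), .ofNat (nat_lit 0), .ofNat (nat_lit 0), .ofNat (nat_lit 0), .ofNat (nat_lit 0), .ofNat (nat_lit 0), .ofNat (nat_lit 0)⟩⟩, []⟩
noncomputable def p008_l140 : Lf2 := ⟨nat_lit 0, nat_lit 5, [nat_lit 4, nat_lit 5, nat_lit 5, nat_lit 20], true, nat_lit 0, nat_lit 0, nat_lit 0, nat_lit 0, ⟨nat_lit 0, nat_lit 0, nat_lit 1000, nat_lit 5, nat_lit 76, nat_lit 0, nat_lit 0, nat_lit 0, nat_lit 0, nat_lit 215, nat_lit 54150, nat_lit 272, nat_lit 64678509, nat_lit 0, nat_lit 0, nat_lit 752726, false, false⟩,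
 nat_lit 0, nat_lit 7661, nat_lit 0, nat_lit 0, nat_lit 4055, nat_lit 0, nat_lit 0, nat_lit 0, nat_lit 0, nat_lit 0, nat_lit 0, nat_lit 0, nat_lit 0, nat_lit 0, nat_lit 147, nat_lit 1000000, nat_lit 0, nat_lit 0, [(nat_lit 6, [(nat_lit 6, nat_lit 1000)])],
 ⟨p008_k14, nat_lit 0, nat_lit 0, nat_lit 349, nat_lit 0, nat_lit 161079, [nat_lit 3329066667, nat_lit 3042400001, nat_lit 177599999], [], [nat_lit 14345442185, nat_lit 14651952993, nat_lit 15972025689, nat_lit 14961750824], nat_lit 1271250, nat_lit 1271250, nat_lit 21650, nat_lit 490000, nat_lit 0, nat_lit 0, [nat_lit 1100000, nat_lit 1442500, nat_lit 1271250], [nat_lit 11, nat_lit 40, nat_lit 20, nat_lit 80, nat_lit 1, nat_lit 317, nat_lit 100, nat_lit 10]⟩, C1.Rw.none,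
 ⟨nat_lit 6123, nat_lit 6325, ⟨.ofNat (nat_lit 96904), .ofNat (nat_lit 253206), .ofNat (nat_lit 118272), .ofNat (nat_lit 274574), .ofNat (nat_lit 106133), .ofNat (nat_lit 258856), .ofNat (nat_lit 127481), .ofNat (nat_lit 280205)⟩, ⟨.ofNat (nat_lit 0), .ofNat (nat_lit 0), .ofNat (nat_lit 0), .ofNat (nat_lit 0), .ofNat (nat_lit 0), .ofNat (nat_lit 0), .ofNat (nat_lit 0), .ofNat (nat_lit 0)⟩⟩, [⟨nat_lit 0, nat_lit 100, nat_lit 97, nat_lit 35, nat_lit 549319⟩]⟩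
noncomputable def b_NL_600_500_0_2 : St := ⟨false, nat_lit 1, nat_lit 1, nat_lit 1, nat_lit 20, nat_lit 240, nat_lit 250, nat_lit 200, nat_lit 220, nat_lit 4, nat_lit 80, nat_lit 0, nat_lit 0, nat_lit 0, nat_lit 0, nat_lit 0, nat_lit 0, nat_lit 0, nat_lit 20, nat_lit 0, nat_lit 0, nat_lit 0, nat_lit 0⟩
theorem d_NL_600_500_0_2 (h : EB TB.env) : Dead b_NL_600_500_0_2 := chkB_sound0 h (T :=
(.spl (nat_lit 6) (nat_lit 8)
(.spl (nat_lit 6) (nat_lit 4)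
(.spl (nat_lit 0) (nat_lit 245)
(.spl (nat_lit 1) (nat_lit 210)
(.spl (nat_lit 2) (nat_lit 40)
(.spl (nat_lit 2) (nat_lit 20)
(.spl (nat_lit 2) (nat_lit 16)
(.spl (nat_lit 8) (nat_lit 800)
(.spl (nat_lit 7) (nat_lit 600)
(.leaf p008_l106)
(.leaf p008_l107))
(.leaf p008_l108))
(.leaf p008_l109))
(.leaf p008_l110))
(.leaf p008_l111))
(.spl (nat_lit 2) (nat_lit 40)
(.spl (nat_lit 0) (nat_lit 243)
(.spl (nat_lit 2) (nat_lit 20)
(.spl (nat_lit 8) (nat_lit 800)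
(.spl (nat_lit 7) (nat_lit 600)
(.leaf p008_l112)
(.leaf p008_l113))
(.leaf p008_l114))
(.leaf p008_l115))
(.spl (nat_lit 2) (nat_lit 20)
(.spl (nat_lit 8) (nat_lit 800)
(.spl (nat_lit 7) (nat_lit 600)
(.leaf p008_l116)
(.leaf p008_l117))
(.leaf p008_l118))
(.leaf p008_l119)))
(.spl (nat_lit 2) (nat_lit 60)
(.leaf p008_l120)
(.leaf p008_l121))))
(.leaf p008_l122))
(.spl (nat_lit 2) (nat_lit 40)
(.spl (nat_lit 2) (nat_lit 20)
(.spl (nat_lit 8) (nat_lit 800)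
(.spl (nat_lit 7) (nat_lit 600)
(.leaf p008_l123)
(.leaf p008_l124))
(.leaf p008_l125))
(.leaf p008_l126))
(.leaf p008_l127)))
(.spl (nat_lit 6) (nat_lit 16)
(.spl (nat_lit 2) (nat_lit 40)
(.spl (nat_lit 2) (nat_lit 20)
(.spl (nat_lit 2) (nat_lit 16)
(.spl (nat_lit 8) (nat_lit 800)
(.spl (nat_lit 7) (nat_lit 600)
(.spl (nat_lit 7) (nat_lit 300)
(.leaf p008_l128)
(.spl (nat_lit 7) (nat_lit 460)
(.leaf p008_l129)
(.spl (nat_lit 0) (nat_lit 245)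
(.spl (nat_lit 6) (nat_lit 12)
(.spl (nat_lit 7) (nat_lit 540)
(.leaf p008_l130)
(.leaf p008_l131))
(.leaf p008_l132))
(.spl (nat_lit 0) (nat_lit 248)
(.leaf p008_l133)
(.leaf p008_l134)))))
(.leaf p008_l135))
(.leaf p008_l136))
(.leaf p008_l137))
(.leaf p008_l138))
(.leaf p008_l139))
(.leaf p008_l140)))) (by decide +kernel)
noncomputable def p008_l141 : Lf2 := ⟨nat_lit 0, nat_lit 2, [nat_lit 10, nat_lit 5, nat_lit 5, nat_lit 20], true, nat_lit 0, nat_lit 0, nat_lit 0, nat_lit 0, ⟨nat_lit 0, nat_lit 0, nat_lit 1000, nat_lit 5, nat_lit 78, nat_lit 0, nat_lit 0, nat_lit 0, nat_lit 0, nat_lit 215, nat_lit 56067, nat_lit 273, nat_lit 64545655, nat_lit 0, nat_lit 0, nat_lit 785427, false, false⟩,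
 nat_lit 0, nat_lit 6883, nat_lit 0, nat_lit 0, nat_lit 3823, nat_lit 0, nat_lit 460, nat_lit 0, nat_lit 0, nat_lit 0, nat_lit 0, nat_lit 0, nat_lit 0, nat_lit 0, nat_lit 80, nat_lit 1000000, nat_lit 0, nat_lit 0, [(nat_lit 6, [(nat_lit 6, nat_lit 1000)])],
 ⟨p008_k35, nat_lit 0, nat_lit 0, nat_lit 366, nat_lit 0, nat_lit 310836, [nat_lit 2257066667, nat_lit 1408000000, nat_lit 211200000], [], [nat_lit 13820505538, nat_lit 14112392627, nat_lit 14410257150, nat_lit 13934020306], nat_lit 1271250, nat_lit 1271250, nat_lit 21650, nat_lit 490000, nat_lit 0, nat_lit 0, [nat_lit 1100000, nat_lit 1442500, nat_lit 1271250], [nat_lit 9, nat_lit 40, nat_lit 20, nat_lit 80, nat_lit 2, nat_lit 226, nat_lit 20, nat_lit 8]⟩, C1.Rw.none,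
 ⟨nat_lit 6020, nat_lit 6124, ⟨.ofNat (nat_lit 106133), .ofNat (nat_lit 258856), .ofNat (nat_lit 127481), .ofNat (nat_lit 280205), .ofNat (nat_lit 110680), .ofNat (nat_lit 261640), .ofNat (nat_lit 132022), .ofNat (nat_lit 282982)⟩, ⟨.ofNat (nat_lit 0), .ofNat (nat_lit 0), .ofNat (nat_lit 0), .ofNat (nat_lit 0), .ofNat (nat_lit 0), .ofNat (nat_lit 0), .ofNat (nat_lit 0), .ofNat (nat_lit 0)⟩⟩, [⟨nat_lit 0, nat_lit 100, nat_lit 97, nat_lit 37, nat_lit 72035070⟩]⟩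
noncomputable def p008_l142 : Lf2 := ⟨nat_lit 0, nat_lit 2, [nat_lit 10, nat_lit 5, nat_lit 5, nat_lit 20], true, nat_lit 0, nat_lit 0, nat_lit 0, nat_lit 0, ⟨nat_lit 0, nat_lit 0, nat_lit 1000, nat_lit 5, nat_lit 79, nat_lit 0, nat_lit 0, nat_lit 0, nat_lit 0, nat_lit 215, nat_lit 60000, nat_lit 275, nat_lit 64456536, nat_lit 0, nat_lit 0, nat_lit 807048, false, false⟩,
 nat_lit 0, nat_lit 6598, nat_lit 0, nat_lit 0, nat_lit 3752, nat_lit 0, nat_lit 394, nat_lit 0, nat_lit 0, nat_lit 0, nat_lit 0, nat_lit 0, nat_lit 0, nat_lit 0, nat_lit 80, nat_lit 1000000, nat_lit 0, nat_lit 0, [(nat_lit 6, [(nat_lit 6, nat_lit 1000)])],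
 ⟨p008_k36, nat_lit 0, nat_lit 0, nat_lit 374, nat_lit 0, nat_lit 325448, [nat_lit 2257066667, nat_lit 1408000000, nat_lit 211200000], [], [nat_lit 14168589443, nat_lit 14458093374, nat_lit 13962346991, nat_lit 13520659313], nat_lit 1271250, nat_lit 1271250, nat_lit 21650, nat_lit 490000, nat_lit 0, nat_lit 0, [nat_lit 1100000, nat_lit 1442500, nat_lit 1271250], [nat_lit 9, nat_lit 40, nat_lit 20, nat_lit 80, nat_lit 2, nat_lit 226, nat_lit 20, nat_lit 8]⟩, C1.Rw.none,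
 ⟨nat_lit 5916, nat_lit 6021, ⟨.ofNat (nat_lit 110680), .ofNat (nat_lit 261640), .ofNat (nat_lit 132022), .ofNat (nat_lit 282982), .ofNat (nat_lit 115184), .ofNat (nat_lit 264398), .ofNat (nat_lit 136523), .ofNat (nat_lit 285737)⟩, ⟨.ofNat (nat_lit 0), .ofNat (nat_lit 0), .ofNat (nat_lit 0), .ofNat (nat_lit 0), .ofNat (nat_lit 0), .ofNat (nat_lit 0), .ofNat (nat_lit 0), .ofNat (nat_lit 0)⟩⟩, [⟨nat_lit 0, nat_lit 100, nat_lit 96, nat_lit 40, nat_lit 124179614⟩]⟩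
noncomputable def p008_l143 : Lf2 := ⟨nat_lit 0, nat_lit 4, [nat_lit 38, nat_lit 5, nat_lit 5, nat_lit 20], true, nat_lit 0, nat_lit 0, nat_lit 0, nat_lit 0, ⟨nat_lit 0, nat_lit 0, nat_lit 1000, nat_lit 5, nat_lit 55, nat_lit 0, nat_lit 0, nat_lit 0, nat_lit 0, nat_lit 215, nat_lit 28017, nat_lit 256, nat_lit 65761719, nat_lit 0, nat_lit 0, nat_lit 460289, false, false⟩,
 nat_lit 0, nat_lit 8620, nat_lit 0, nat_lit 0, nat_lit 4788, nat_lit 0, nat_lit 0, nat_lit 0, nat_lit 0, nat_lit 0, nat_lit 0, nat_lit 0, nat_lit 0, nat_lit 0, nat_lit 80, nat_lit 1000000, nat_lit 0, nat_lit 0, [(nat_lit 6, [(nat_lit 6, nat_lit 1000)])],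
 ⟨p008_k37, nat_lit 0, nat_lit 0, nat_lit 323, nat_lit 0, nat_lit 262273, [nat_lit 2257066667, nat_lit 1408000000, nat_lit 211200000], [], [nat_lit 16119552592, nat_lit 16488870285, nat_lit 14154568883, nat_lit 14747691008], nat_lit 1271250, nat_lit 1271250, nat_lit 21650, nat_lit 111251, nat_lit 0, nat_lit 0, [nat_lit 1100000, nat_lit 1442500, nat_lit 1271250], [nat_lit 9, nat_lit 40, nat_lit 20, nat_lit 80, nat_lit 2, nat_lit 215, nat_lit 10, nat_lit 8]⟩, C1.Rw.none,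
 ⟨nat_lit 5916, nat_lit 6124, ⟨.ofNat (nat_lit 106133), .ofNat (nat_lit 138285), .ofNat (nat_lit 127481), .ofNat (nat_lit 159634), .ofNat (nat_lit 115184), .ofNat (nat_lit 146597), .ofNat (nat_lit 136523), .ofNat (nat_lit 167937)⟩, ⟨.ofNat (nat_lit 0), .ofNat (nat_lit 0), .ofNat (nat_lit 0), .ofNat (nat_lit 0), .ofNat (nat_lit 0), .ofNat (nat_lit 0), .ofNat (nat_lit 0), .ofNat (nat_lit 0)⟩⟩, [⟨nat_lit 0, nat_lit 100, nat_lit 96, nat_lit 32, nat_lit 742729806⟩]⟩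
noncomputable def p008_l144 : Lf2 := ⟨nat_lit 0, nat_lit 5, [nat_lit 4, nat_lit 5, nat_lit 5, nat_lit 20], true, nat_lit 0, nat_lit 0, nat_lit 0, nat_lit 0, ⟨nat_lit 0, nat_lit 0, nat_lit 1000, nat_lit 5, nat_lit 55, nat_lit 0, nat_lit 0, nat_lit 0, nat_lit 0, nat_lit 215, nat_lit 28017, nat_lit 256, nat_lit 65761719, nat_lit 0, nat_lit 0, nat_lit 460289, false, false⟩,
 nat_lit 0, nat_lit 7848, nat_lit 0, nat_lit 0, nat_lit 4360, nat_lit 0, nat_lit 0, nat_lit 0, nat_lit 0, nat_lit 0, nat_lit 0, nat_lit 0, nat_lit 0, nat_lit 0, nat_lit 80, nat_lit 1000000, nat_lit 0, nat_lit 0, [(nat_lit 6, [(nat_lit 6, nat_lit 1000)])],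
 ⟨p008_k41, nat_lit 0, nat_lit 0, nat_lit 287, nat_lit 0, nat_lit 200152, [nat_lit 2814000001, nat_lit 141466667], [], [nat_lit 15419381207, nat_lit 15649027456, nat_lit 15602603895, nat_lit 14524096855], nat_lit 1271250, nat_lit 1271250, nat_lit 21650, nat_lit 111251, nat_lit 0, nat_lit 0, [nat_lit 1100000, nat_lit 1785000], [nat_lit 39, nat_lit 40, nat_lit 20, nat_lit 80, nat_lit 7, nat_lit 215, nat_lit 10, nat_lit 8]⟩, C1.Rw.none,
 ⟨nat_lit 5916, nat_lit 6124, ⟨.ofNat (nat_lit 106133), .ofNat (nat_lit 138285), .ofNat (nat_lit 127481), .ofNat (nat_lit 159634), .ofNat (nat_lit 115184), .ofNat (nat_lit 146597), .ofNat (nat_lit 136523), .ofNat (nat_lit 167937)⟩, ⟨.ofNat (nat_lit 0), .ofNat (nat_lit 0), .ofNat (nat_lit 0), .ofNat (nat_lit 0), .ofNat (nat_lit 0), .ofNat (nat_lit 0), .ofNat (nat_lit 0), .ofNat (nat_lit 0)⟩⟩, [⟨nat_lit 0, nat_lit 100, nat_lit 96, nat_lit 32, nat_lit 43329569⟩]⟩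
noncomputable def p008_l145 : Lf2 := ⟨nat_lit 0, nat_lit 5, [nat_lit 4, nat_lit 5, nat_lit 5, nat_lit 20], true, nat_lit 0, nat_lit 0, nat_lit 0, nat_lit 0, ⟨nat_lit 0, nat_lit 0, nat_lit 1000, nat_lit 5, nat_lit 69, nat_lit 0, nat_lit 0, nat_lit 0, nat_lit 0, nat_lit 215, nat_lit 45067, nat_lit 267, nat_lit 65053520, nat_lit 0, nat_lit 0, nat_lit 657129, false, false⟩,
 nat_lit 0, nat_lit 8454, nat_lit 0, nat_lit 0, nat_lit 4696, nat_lit 0, nat_lit 466, nat_lit 0, nat_lit 0, nat_lit 0, nat_lit 0, nat_lit 0, nat_lit 0, nat_lit 0, nat_lit 80, nat_lit 1000000, nat_lit 0, nat_lit 0, [(nat_lit 6, [(nat_lit 6, nat_lit 1000)])],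
 ⟨p008_k41, nat_lit 0, nat_lit 0, nat_lit 292, nat_lit 0, nat_lit 269265, [nat_lit 2814000001, nat_lit 141466667], [], [nat_lit 14474249751, nat_lit 14602991936, nat_lit 14856217295, nat_lit 13702828039], nat_lit 1271250, nat_lit 1271250, nat_lit 111251, nat_lit 230001, nat_lit 0, nat_lit 0, [nat_lit 1100000, nat_lit 1785000], [nat_lit 39, nat_lit 40, nat_lit 20, nat_lit 80, nat_lit 7, nat_lit 215, nat_lit 10, nat_lit 8]⟩, C1.Rw.none,
 ⟨nat_lit 5916, nat_lit 6124, ⟨.ofNat (nat_lit 138285), .ofNat (nat_lit 178476), .ofNat (nat_lit 159634), .ofNat (nat_lit 199824), .ofNat (nat_lit 146597), .ofNat (nat_lit 185864), .ofNat (nat_lit 167937), .ofNat (nat_lit 207203)⟩, ⟨.ofNat (nat_lit 0), .ofNat (nat_lit 0), .ofNat (nat_lit 0), .ofNat (nat_lit 0), .ofNat (nat_lit 0), .ofNat (nat_lit 0), .ofNat (nat_lit 0), .ofNat (nat_lit 0)⟩⟩, []⟩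
noncomputable def p008_l146 : Lf2 := ⟨nat_lit 0, nat_lit 5, [nat_lit 4, nat_lit 5, nat_lit 5, nat_lit 20], true, nat_lit 0, nat_lit 0, nat_lit 0, nat_lit 0, ⟨nat_lit 0, nat_lit 0, nat_lit 1000, nat_lit 5, nat_lit 93, nat_lit 0, nat_lit 0, nat_lit 0, nat_lit 0, nat_lit 215, nat_lit 81667, nat_lit 285, nat_lit 63561996, nat_lit 0, nat_lit 0, nat_lit 1011815, false, false⟩,
 nat_lit 0, nat_lit 8015, nat_lit 0, nat_lit 0, nat_lit 4452, nat_lit 0, nat_lit 54, nat_lit 0, nat_lit 0, nat_lit 0, nat_lit 0, nat_lit 0, nat_lit 0, nat_lit 0, nat_lit 80, nat_lit 1000000, nat_lit 0, nat_lit 0, [(nat_lit 6, [(nat_lit 6, nat_lit 1000)])],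
 ⟨p008_k17, nat_lit 0, nat_lit 0, nat_lit 285, nat_lit 0, nat_lit 269265, [nat_lit 2257066667, nat_lit 1408000000, nat_lit 211200000], [], [nat_lit 12430441795, nat_lit 12923094880, nat_lit 13615158959, nat_lit 12505974323], nat_lit 1271250, nat_lit 1271250, nat_lit 230001, nat_lit 490000, nat_lit 0, nat_lit 0, [nat_lit 1100000, nat_lit 1442500, nat_lit 1271250], [nat_lit 9, nat_lit 40, nat_lit 20, nat_lit 80, nat_lit 2, nat_lit 226, nat_lit 20, nat_lit 8]⟩, C1.Rw.none,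
 ⟨nat_lit 5916, nat_lit 6124, ⟨.ofNat (nat_lit 178476), .ofNat (nat_lit 258856), .ofNat (nat_lit 199824), .ofNat (nat_lit 280205), .ofNat (nat_lit 185864), .ofNat (nat_lit 264398), .ofNat (nat_lit 207203), .ofNat (nat_lit 285737)⟩, ⟨.ofNat (nat_lit 0), .ofNat (nat_lit 0), .ofNat (nat_lit 0), .ofNat (nat_lit 0), .ofNat (nat_lit 0), .ofNat (nat_lit 0), .ofNat (nat_lit 0), .ofNat (nat_lit 0)⟩⟩, []⟩
noncomputable def b_NL_600_500_0_3 : St := ⟨false, nat_lit 1, nat_lit 1, nat_lit 1, nat_lit 20, nat_lit 250, nat_lit 260, nat_lit 200, nat_lit 220, nat_lit 4, nat_lit 80, nat_lit 0, nat_lit 0, nat_lit 0, nat_lit 0, nat_lit 0, nat_lit 0, nat_lit 0, nat_lit 20, nat_lit 0, nat_lit 0, nat_lit 0, nat_lit 0⟩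
theorem d_NL_600_500_0_3 (h : EB TB.env) : Dead b_NL_600_500_0_3 := chkB_sound0 h (T :=
(.spl (nat_lit 6) (nat_lit 8)
(.spl (nat_lit 0) (nat_lit 255)
(.leaf p008_l141)
(.leaf p008_l142))
(.spl (nat_lit 2) (nat_lit 40)
(.spl (nat_lit 2) (nat_lit 20)
(.spl (nat_lit 6) (nat_lit 16)
(.leaf p008_l143)
(.leaf p008_l144))
(.leaf p008_l145))
(.leaf p008_l146)))) (by decide +kernel)
noncomputable def p008_l147 : Lf2 := ⟨nat_lit 0, nat_lit 2, [nat_lit 10, nat_lit 5, nat_lit 5, nat_lit 20], false, nat_lit 0, nat_lit 0, nat_lit 0, nat_lit 0, ⟨nat_lit 235, nat_lit 0, nat_lit 765, nat_lit 5, nat_lit 123, nat_lit 0, nat_lit 0, nat_lit 0, nat_lit 0, nat_lit 215, nat_lit 141067, nat_lit 307, nat_lit 61216444, nat_lit 0, nat_lit 0, nat_lit 1469716, false, false⟩,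
 nat_lit 16521, nat_lit 0, nat_lit 0, nat_lit 0, nat_lit 8746, nat_lit 7080, nat_lit 0, nat_lit 0, nat_lit 0, nat_lit 1092, nat_lit 0, nat_lit 0, nat_lit 0, nat_lit 0, nat_lit 0, nat_lit 765000, nat_lit 0, nat_lit 0, [(nat_lit 6, [(nat_lit 6, nat_lit 765)])],
 ⟨p008_k9, nat_lit 0, nat_lit 0, nat_lit 265, nat_lit 0, nat_lit 303542, [nat_lit 1849136000, nat_lit 1321870000, nat_lit 556083000], [], [nat_lit 12024012744, nat_lit 13287484362, nat_lit 14613354032, nat_lit 12468204242], nat_lit 1271250, nat_lit 1271250, nat_lit 490000, nat_lit 780000, nat_lit 0, nat_lit 0, [nat_lit 1100000, nat_lit 1442500, nat_lit 1271250], [nat_lit 9, nat_lit 40, nat_lit 20, nat_lit 80, nat_lit 2, nat_lit 238, nat_lit 30, nat_lit 8]⟩, ⟨p008_k27, nat_lit 0, nat_lit 0, nat_lit 380, nat_lit 0, nat_lit 377308, [nat_lit 1468750000, nat_lit 1872480000, nat_lit 2312870000], [], [nat_lit 5788830940, nat_lit 3618737590,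 nat_lit 7218501180, nat_lit 3740649420], nat_lit 1271250, nat_lit 1271250, nat_lit 490000, nat_lit 780000, nat_lit 0, nat_lit 0, [nat_lit 1412500, nat_lit 1271250, nat_lit 1271250], [nat_lit 25, nat_lit 40, nat_lit 20, nat_lit 80, nat_lit 17, nat_lit 317, nat_lit 100, nat_lit 10]⟩,
 ⟨nat_lit 6123, nat_lit 6325, ⟨.ofNat (nat_lit 253206), .ofNat (nat_lit 335470), .ofNat (nat_lit 274574), .ofNat (nat_lit 356838), .ofNat (nat_lit 258856), .ofNat (nat_lit 339237), .ofNat (nat_lit 280205), .ofNat (nat_lit 360585)⟩, ⟨.ofNat (nat_lit 0), .ofNat (nat_lit 0), .ofNat (nat_lit 0), .ofNat (nat_lit 0), .ofNat (nat_lit 0), .ofNat (nat_lit 0), .ofNat (nat_lit 0), .ofNat (nat_lit 0)⟩⟩, []⟩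
noncomputable def p008_l148 : Lf2 := ⟨nat_lit 0, nat_lit 2, [nat_lit 10, nat_lit 5, nat_lit 5, nat_lit 20], false, nat_lit 0, nat_lit 0, nat_lit 0, nat_lit 0, ⟨nat_lit 248, nat_lit 0, nat_lit 752, nat_lit 5, nat_lit 125, nat_lit 0, nat_lit 0, nat_lit 0, nat_lit 0, nat_lit 215, nat_lit 147267, nat_lit 309, nat_lit 61055560, nat_lit 0, nat_lit 0, nat_lit 1497863, false, false⟩,
 nat_lit 11960, nat_lit 0, nat_lit 0, nat_lit 0, nat_lit 6644, nat_lit 5125, nat_lit 1827, nat_lit 0, nat_lit 0, nat_lit 0, nat_lit 0, nat_lit 0, nat_lit 0, nat_lit 0, nat_lit 0, nat_lit 752000, nat_lit 0, nat_lit 0, [(nat_lit 6, [(nat_lit 6, nat_lit 752)])],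
 ⟨p008_k35, nat_lit 0, nat_lit 0, nat_lit 283, nat_lit 0, nat_lit 333385, [nat_lit 1897378134, nat_lit 1405616000, nat_lit 681374400], [], [nat_lit 12329876258, nat_lit 13305193304, nat_lit 14599158498, nat_lit 12967319014], nat_lit 1271250, nat_lit 1271250, nat_lit 490000, nat_lit 780000, nat_lit 0, nat_lit 0, [nat_lit 1100000, nat_lit 1442500, nat_lit 1271250], [nat_lit 9, nat_lit 40, nat_lit 20, nat_lit 80, nat_lit 2, nat_lit 238, nat_lit 30, nat_lit 8]⟩, ⟨p008_k27, nat_lit 0, nat_lit 0, nat_lit 436, nat_lit 0, nat_lit 435409, [nat_lit 1550000000, nat_lit 1976064000, nat_lit 2440816000], [], [nat_lit 7370243476, nat_lit 5838499570, nat_lit 8495491976, nat_lit 5977979226], nat_lit 1271250, nat_lit 1271250, nat_lit 490000, nat_lit 780000, nat_lit 0, nat_lit 0, [nat_lit 1412500, nat_lit 1271250, nat_lit 1271250], [nat_lit 25, nat_lit 40, nat_lit 20, nat_lit 80, nat_lit 17, nat_lit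 317, nat_lit 100, nat_lit 10]⟩,
 ⟨nat_lit 5916, nat_lit 6124, ⟨.ofNat (nat_lit 258856), .ofNat (nat_lit 339237), .ofNat (nat_lit 280205), .ofNat (nat_lit 360585), .ofNat (nat_lit 264398), .ofNat (nat_lit 342931), .ofNat (nat_lit 285737), .ofNat (nat_lit 364271)⟩, ⟨.ofNat (nat_lit 0), .ofNat (nat_lit 0), .ofNat (nat_lit 0), .ofNat (nat_lit 0), .ofNat (nat_lit 0), .ofNat (nat_lit 0), .ofNat (nat_lit 0), .ofNat (nat_lit 0)⟩⟩, []⟩
noncomputable def p008_l149 : Lf2 := ⟨nat_lit 0, nat_lit 5, [nat_lit 4, nat_lit 5, nat_lit 5, nat_lit 20], false, nat_lit 0, nat_lit 0, nat_lit 0, nat_lit 0, ⟨nat_lit 167, nat_lit 0, nat_lit 833, nat_lit 5, nat_lit 124, nat_lit 0, nat_lit 0, nat_lit 0, nat_lit 0, nat_lit 215, nat_lit 144150, nat_lit 308, nat_lit 61136935, nat_lit 0, nat_lit 0, nat_lit 1483671, false, false⟩,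
 nat_lit 10472, nat_lit 2397, nat_lit 0, nat_lit 0, nat_lit 6813, nat_lit 4488, nat_lit 243, nat_lit 0, nat_lit 0, nat_lit 1219, nat_lit 0, nat_lit 0, nat_lit 0, nat_lit 0, nat_lit 64, nat_lit 833000, nat_lit 0, nat_lit 0, [(nat_lit 6, [(nat_lit 6, nat_lit 833)])],
 ⟨p008_k14, nat_lit 0, nat_lit 0, nat_lit 332, nat_lit 0, nat_lit 283395, [nat_lit 2620792534, nat_lit 2409049201, nat_lit 128874799], [], [nat_lit 14377221468, nat_lit 14925507535, nat_lit 16650656432, nat_lit 14517594567], nat_lit 1271250, nat_lit 1271250, nat_lit 490000, nat_lit 780000, nat_lit 0, nat_lit 0, [nat_lit 1100000, nat_lit 1442500, nat_lit 1271250], [nat_lit 11, nat_lit 40, nat_lit 20, nat_lit 80, nat_lit 1, nat_lit 317, nat_lit 100, nat_lit 9]⟩, ⟨p008_k20, nat_lit 0, nat_lit 0, nat_lit 493, nat_lit 0, nat_lit 355255, [nat_lit 1043750000, nat_lit 1330656000, nat_lit 1982624000], [], [nat_lit 4405764236, nat_lit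 2419697841, nat_lit 5332949100, nat_lit 3128344764], nat_lit 1271250, nat_lit 1271250, nat_lit 490000, nat_lit 780000, nat_lit 0, nat_lit 0, [nat_lit 1412500, nat_lit 1271250, nat_lit 1271250], [nat_lit 53, nat_lit 40, nat_lit 20, nat_lit 80, nat_lit 14, nat_lit 317, nat_lit 100, nat_lit 9]⟩,
 ⟨nat_lit 5916, nat_lit 6325, ⟨.ofNat (nat_lit 253206), .ofNat (nat_lit 335470), .ofNat (nat_lit 274574), .ofNat (nat_lit 356838), .ofNat (nat_lit 264398), .ofNat (nat_lit 342931), .ofNat (nat_lit 285737), .ofNat (nat_lit 364271)⟩, ⟨.ofNat (nat_lit 0), .ofNat (nat_lit 0), .ofNat (nat_lit 0), .ofNat (nat_lit 0), .ofNat (nat_lit 0), .ofNat (nat_lit 0), .ofNat (nat_lit 0), .ofNat (nat_lit 0)⟩⟩, []⟩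
noncomputable def p008_l150 : Lf2 := ⟨nat_lit 0, nat_lit 5, [nat_lit 4, nat_lit 5, nat_lit 5, nat_lit 20], false, nat_lit 0, nat_lit 0, nat_lit 0, nat_lit 0, ⟨nat_lit 81, nat_lit 0, nat_lit 919, nat_lit 5, nat_lit 124, nat_lit 0, nat_lit 0, nat_lit 0, nat_lit 0, nat_lit 215, nat_lit 144150, nat_lit 308, nat_lit 61136935, nat_lit 0, nat_lit 0, nat_lit 1483671, false, false⟩,
 nat_lit 2934, nat_lit 5860, nat_lit 0, nat_lit 0, nat_lit 4655, nat_lit 1257, nat_lit 530, nat_lit 0, nat_lit 0, nat_lit 229, nat_lit 0, nat_lit 0, nat_lit 0, nat_lit 0, nat_lit 107, nat_lit 919000, nat_lit 0, nat_lit 0, [(nat_lit 6, [(nat_lit 6, nat_lit 919)])],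
 ⟨p008_k14, nat_lit 0, nat_lit 0, nat_lit 298, nat_lit 0, nat_lit 192528, [nat_lit 2989652267, nat_lit 2740355601, nat_lit 161176399], [], [nat_lit 11368106047, nat_lit 12406895938, nat_lit 11481921767, nat_lit 12734255138], nat_lit 1271250, nat_lit 1271250, nat_lit 490000, nat_lit 780000, nat_lit 0, nat_lit 0, [nat_lit 1100000, nat_lit 1442500, nat_lit 1271250], [nat_lit 11, nat_lit 40, nat_lit 20, nat_lit 80, nat_lit 1, nat_lit 317, nat_lit 100, nat_lit 9]⟩, ⟨p008_k20, nat_lit 0, nat_lit 0, nat_lit 395, nat_lit 0, nat_lit 244289, [nat_lit 506250000, nat_lit 645408000, nat_lit 961632000], [], [nat_lit 2631268920, nat_lit 2010446941, nat_lit 2930657916, nat_lit 2313191862], nat_lit 1271250, nat_lit 1271250, nat_lit 490000, nat_lit 780000, nat_lit 0, nat_lit 0, [nat_lit 1412500, nat_lit 1271250, nat_lit 1271250], [nat_lit 53, nat_lit 40, nat_lit 20, nat_lit 80, nat_lit 14, nat_lit 317,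 nat_lit 100, nat_lit 9]⟩,
 ⟨nat_lit 5916, nat_lit 6325, ⟨.ofNat (nat_lit 253206), .ofNat (nat_lit 335470), .ofNat (nat_lit 274574), .ofNat (nat_lit 356838), .ofNat (nat_lit 264398), .ofNat (nat_lit 342931), .ofNat (nat_lit 285737), .ofNat (nat_lit 364271)⟩, ⟨.ofNat (nat_lit 0), .ofNat (nat_lit 0), .ofNat (nat_lit 0), .ofNat (nat_lit 0), .ofNat (nat_lit 0), .ofNat (nat_lit 0), .ofNat (nat_lit 0), .ofNat (nat_lit 0)⟩⟩, []⟩
noncomputable def b_NL_600_500_0_4 : St := ⟨false, nat_lit 1, nat_lit 1, nat_lit 1, nat_lit 20, nat_lit 240, nat_lit 260, nat_lit 200, nat_lit 220, nat_lit 80, nat_lit 120, nat_lit 0, nat_lit 0, nat_lit 0, nat_lit 0, nat_lit 0, nat_lit 0, nat_lit 0, nat_lit 40, nat_lit 0, nat_lit 0, nat_lit 0, nat_lit 0⟩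
theorem d_NL_600_500_0_4 (h : EB TB.env) : Dead b_NL_600_500_0_4 := chkB_sound0 h (T :=
(.spl (nat_lit 6) (nat_lit 20)
(.spl (nat_lit 6) (nat_lit 8)
(.spl (nat_lit 0) (nat_lit 250)
(.leaf p008_l147)
(.leaf p008_l148))
(.leaf p008_l149))
(.leaf p008_l150))) (by decide +kernel)
noncomputable def p008_l151 : Lf2 := ⟨nat_lit 0, nat_lit 1, [nat_lit 19, nat_lit 5, nat_lit 5, nat_lit 20], false, nat_lit 0, nat_lit 0, nat_lit 0, nat_lit 0, ⟨nat_lit 451, nat_lit 0, nat_lit 549, nat_lit 5, nat_lit 155, nat_lit 0, nat_lit 0, nat_lit 0, nat_lit 0, nat_lit 215, nat_lit 224267, nat_lit 331, nat_lit 58233593, nat_lit 0, nat_lit 0, nat_lit 1939918, false, false⟩,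
 nat_lit 10200, nat_lit 12848, nat_lit 0, nat_lit 0, nat_lit 12201, nat_lit 4371, nat_lit 0, nat_lit 0, nat_lit 0, nat_lit 0, nat_lit 0, nat_lit 0, nat_lit 0, nat_lit 0, nat_lit 0, nat_lit 549000, nat_lit 0, nat_lit 0, [(nat_lit 6, [(nat_lit 6, nat_lit 549)])],
 ⟨p008_k0, nat_lit 0, nat_lit 0, nat_lit 231, nat_lit 0, nat_lit 275902, [nat_lit 2650697600, nat_lit 2713342000], [], [nat_lit 13416111992, nat_lit 12866268653, nat_lit 18326645552, nat_lit 16849232563], nat_lit 1271250, nat_lit 1271250, nat_lit 780000, nat_lit 1100001, nat_lit 0, nat_lit 0, [nat_lit 1100000, nat_lit 1442500], [nat_lit 31, nat_lit 40, nat_lit 20, nat_lit 80, nat_lit 3, nat_lit 249, nat_lit 40, nat_lit 10]⟩, ⟨p008_k24, nat_lit 0, nat_lit 0, nat_lit 256, nat_lit 0, nat_lit 341906, [nat_lit 2818750000, nat_lit 3593568000], [], [nat_lit 21318210052, nat_lit 19007096254, nat_lit 19178368008, nat_lit 17061239190],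 nat_lit 1271250, nat_lit 1271250, nat_lit 780000, nat_lit 1100001, nat_lit 0, nat_lit 0, [nat_lit 1412500, nat_lit 1271250], [nat_lit 26, nat_lit 40, nat_lit 20, nat_lit 80, nat_lit 2, nat_lit 317, nat_lit 100, nat_lit 11]⟩,
 ⟨nat_lit 6224, nat_lit 6325, ⟨.ofNat (nat_lit 335470), .ofNat (nat_lit 417734), .ofNat (nat_lit 356838), .ofNat (nat_lit 439102), .ofNat (nat_lit 337363), .ofNat (nat_lit 418681), .ofNat (nat_lit 358720), .ofNat (nat_lit 440037)⟩, ⟨.ofNat (nat_lit 0), .ofNat (nat_lit 0), .ofNat (nat_lit 0), .ofNat (nat_lit 0), .ofNat (nat_lit 0), .ofNat (nat_lit 0), .ofNat (nat_lit 0), .ofNat (nat_lit 0)⟩⟩, []⟩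
noncomputable def p008_l152 : Lf2 := ⟨nat_lit 0, nat_lit 1, [nat_lit 19, nat_lit 5, nat_lit 5, nat_lit 20], false, nat_lit 0, nat_lit 0, nat_lit 0, nat_lit 0, ⟨nat_lit 1000, nat_lit 0, nat_lit 0, nat_lit 0, nat_lit 0, nat_lit 0, nat_lit 0, nat_lit 0, nat_lit 0, nat_lit 0, nat_lit 0, nat_lit 0, nat_lit 0, nat_lit 0, nat_lit 0, nat_lit 0, false, false⟩,
 nat_lit 11661, nat_lit 4712, nat_lit 0, nat_lit 0, nat_lit 8881, nat_lit 4997, nat_lit 3629, nat_lit 0, nat_lit 0, nat_lit 0, nat_lit 0, nat_lit 0, nat_lit 0, nat_lit 0, nat_lit 0, nat_lit 0, nat_lit 0, nat_lit 0, [],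
 ⟨p008_k25, nat_lit 0, nat_lit 0, nat_lit 229, nat_lit 0, nat_lit 290570, [nat_lit 4688000000, nat_lit 6250000000], [], [nat_lit 13473454290, nat_lit 13971497636, nat_lit 14372857126, nat_lit 14933089384], nat_lit 1271250, nat_lit 1271250, nat_lit 780000, nat_lit 1100001, nat_lit 0, nat_lit 0, [nat_lit 1100000, nat_lit 1442500], [nat_lit 31, nat_lit 40, nat_lit 20, nat_lit 80, nat_lit 3, nat_lit 249, nat_lit 40, nat_lit 10]⟩, ⟨p008_k24, nat_lit 0, nat_lit 0, nat_lit 265, nat_lit 0, nat_lit 369061, [nat_lit 6250000000, nat_lit 7968000000], [], [nat_lit 40116094024, nat_lit 37661457690, nat_lit 42883005344, nat_lit 40462668418], nat_lit 1271250, nat_lit 1271250, nat_lit 780000, nat_lit 1100001, nat_lit 0, nat_lit 0, [nat_lit 1412500, nat_lit 1271250], [nat_lit 26, nat_lit 40, nat_lit 20, nat_lit 80, nat_lit 2, nat_lit 317, nat_lit 100, nat_lit 11]⟩,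
 zbF0, []⟩
noncomputable def p008_l153 : Lf2 := ⟨nat_lit 0, nat_lit 1, [nat_lit 19, nat_lit 5, nat_lit 5, nat_lit 20], false, nat_lit 0, nat_lit 0, nat_lit 0, nat_lit 0, ⟨nat_lit 1000, nat_lit 0, nat_lit 0, nat_lit 0, nat_lit 0, nat_lit 0, nat_lit 0, nat_lit 0, nat_lit 0, nat_lit 0, nat_lit 0, nat_lit 0, nat_lit 0, nat_lit 0, nat_lit 0, nat_lit 0, false, false⟩,
 nat_lit 11661, nat_lit 3924, nat_lit 0, nat_lit 0, nat_lit 8658, nat_lit 4997, nat_lit 5075, nat_lit 0, nat_lit 0, nat_lit 0, nat_lit 0, nat_lit 0, nat_lit 0, nat_lit 0, nat_lit 0, nat_lit 0, nat_lit 0, nat_lit 0, [],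
 ⟨p008_k42, nat_lit 0, nat_lit 0, nat_lit 230, nat_lit 0, nat_lit 327294, [nat_lit 4688000000, nat_lit 6250000000], [], [nat_lit 12953049998, nat_lit 13932622872, nat_lit 13819538144, nat_lit 14830174452], nat_lit 1271250, nat_lit 1271250, nat_lit 780000, nat_lit 1100001, nat_lit 0, nat_lit 0, [nat_lit 1100000, nat_lit 1442500], [nat_lit 31, nat_lit 40, nat_lit 20, nat_lit 80, nat_lit 3, nat_lit 249, nat_lit 40, nat_lit 10]⟩, ⟨p008_k24, nat_lit 0, nat_lit 0, nat_lit 291, nat_lit 0, nat_lit 425892, [nat_lit 6250000000, nat_lit 7968000000], [], [nat_lit 40116094024, nat_lit 37661457690, nat_lit 42883005344, nat_lit 40462668418], nat_lit 1271250, nat_lit 1271250, nat_lit 780000, nat_lit 1100001, nat_lit 0, nat_lit 0, [nat_lit 1412500, nat_lit 1271250], [nat_lit 26, nat_lit 40, nat_lit 20, nat_lit 80, nat_lit 2, nat_lit 317, nat_lit 100, nat_lit 11]⟩,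
 zbF0, []⟩
noncomputable def p008_l154 : Lf2 := ⟨nat_lit 0, nat_lit 2, [nat_lit 10, nat_lit 5, nat_lit 5, nat_lit 20], false, nat_lit 0, nat_lit 0, nat_lit 0, nat_lit 0, ⟨nat_lit 359, nat_lit 0, nat_lit 641, nat_lit 5, nat_lit 156, nat_lit 0, nat_lit 0, nat_lit 0, nat_lit 0, nat_lit 215, nat_lit 228150, nat_lit 332, nat_lit 58151647, nat_lit 0, nat_lit 0, nat_lit 1951464, false, false⟩,
 nat_lit 7963, nat_lit 9392, nat_lit 0, nat_lit 0, nat_lit 9187, nat_lit 3412, nat_lit 0, nat_lit 0, nat_lit 0, nat_lit 0, nat_lit 0, nat_lit 0, nat_lit 0, nat_lit 0, nat_lit 0, nat_lit 641000, nat_lit 0, nat_lit 0, [(nat_lit 6, [(nat_lit 6, nat_lit 641)])],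
 ⟨p008_k9, nat_lit 0, nat_lit 0, nat_lit 253, nat_lit 0, nat_lit 304917, [nat_lit 2309291734, nat_lit 2120678000, nat_lit 1751170200], [], [nat_lit 16060778238, nat_lit 14604692354, nat_lit 20074465958, nat_lit 15624669012], nat_lit 1271250, nat_lit 1271250, nat_lit 780000, nat_lit 1100001, nat_lit 0, nat_lit 0, [nat_lit 1100000, nat_lit 1442500, nat_lit 1271250], [nat_lit 9, nat_lit 40, nat_lit 20, nat_lit 80, nat_lit 2, nat_lit 249, nat_lit 40, nat_lit 8]⟩, ⟨p008_k27, nat_lit 0, nat_lit 0, nat_lit 358, nat_lit 0, nat_lit 379018, [nat_lit 2243750000, nat_lit 2860512000, nat_lit 3533278000], [], [nat_lit 16866846388, nat_lit 15062792332, nat_lit 15271300168, nat_lit 13618670672], nat_lit 1271250, nat_lit 1271250, nat_lit 780000, nat_lit 1100001, nat_lit 0, nat_lit 0, [nat_lit 1412500, nat_lit 1271250, nat_lit 1271250], [nat_lit 25, nat_lit 40, nat_lit 20, nat_lit 80, nat_lit 17, nat_lit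 317, nat_lit 100, nat_lit 9]⟩,
 ⟨nat_lit 5916, nat_lit 6325, ⟨.ofNat (nat_lit 335470), .ofNat (nat_lit 417734), .ofNat (nat_lit 356838), .ofNat (nat_lit 439102), .ofNat (nat_lit 342931), .ofNat (nat_lit 421465), .ofNat (nat_lit 364271), .ofNat (nat_lit 442804)⟩, ⟨.ofNat (nat_lit 0), .ofNat (nat_lit 0), .ofNat (nat_lit 0), .ofNat (nat_lit 0), .ofNat (nat_lit 0), .ofNat (nat_lit 0), .ofNat (nat_lit 0), .ofNat (nat_lit 0)⟩⟩, []⟩
noncomputable def p008_l155 : Lf2 := ⟨nat_lit 0, nat_lit 5, [nat_lit 4, nat_lit 5, nat_lit 5, nat_lit 20], false, nat_lit 0, nat_lit 0, nat_lit 0, nat_lit 0, ⟨nat_lit 394, nat_lit 0, nat_lit 606, nat_lit 5, nat_lit 156, nat_lit 0, nat_lit 0, nat_lit 0, nat_lit 0, nat_lit 215, nat_lit 228150, nat_lit 332, nat_lit 58151647, nat_lit 0, nat_lit 0, nat_lit 1951464, false, false⟩,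
 nat_lit 8527, nat_lit 9768, nat_lit 0, nat_lit 0, nat_lit 9685, nat_lit 3654, nat_lit 1256, nat_lit 0, nat_lit 0, nat_lit 0, nat_lit 0, nat_lit 0, nat_lit 0, nat_lit 0, nat_lit 0, nat_lit 606000, nat_lit 0, nat_lit 0, [(nat_lit 6, [(nat_lit 6, nat_lit 606)])],
 ⟨p008_k14, nat_lit 0, nat_lit 0, nat_lit 314, nat_lit 0, nat_lit 283395, [nat_lit 2439174400, nat_lit 2524554401, nat_lit 1429613599], [], [nat_lit 16309177722, nat_lit 14479537420, nat_lit 20471050322, nat_lit 15780043092], nat_lit 1271250, nat_lit 1271250, nat_lit 780000, nat_lit 1100001, nat_lit 0, nat_lit 0, [nat_lit 1100000, nat_lit 1442500, nat_lit 1271250], [nat_lit 11, nat_lit 40, nat_lit 20, nat_lit 80, nat_lit 1, nat_lit 345, nat_lit 125, nat_lit 10]⟩, ⟨p008_k20, nat_lit 0, nat_lit 0, nat_lit 420, nat_lit 0, nat_lit 355255, [nat_lit 2462500000, nat_lit 3139392000, nat_lit 4677568000], [], [nat_lit 18373116088, nat_lit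 16441107436, nat_lit 16767075312, nat_lit 14997231180], nat_lit 1271250, nat_lit 1271250, nat_lit 780000, nat_lit 1100001, nat_lit 0, nat_lit 0, [nat_lit 1412500, nat_lit 1271250, nat_lit 1271250], [nat_lit 53, nat_lit 40, nat_lit 20, nat_lit 80, nat_lit 14, nat_lit 317, nat_lit 100, nat_lit 8]⟩,
 ⟨nat_lit 5916, nat_lit 6325, ⟨.ofNat (nat_lit 335470), .ofNat (nat_lit 417734), .ofNat (nat_lit 356838), .ofNat (nat_lit 439102), .ofNat (nat_lit 342931), .ofNat (nat_lit 421465), .ofNat (nat_lit 364271), .ofNat (nat_lit 442804)⟩, ⟨.ofNat (nat_lit 0), .ofNat (nat_lit 0), .ofNat (nat_lit 0), .ofNat (nat_lit 0), .ofNat (nat_lit 0), .ofNat (nat_lit 0), .ofNat (nat_lit 0), .ofNat (nat_lit 0)⟩⟩, []⟩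
noncomputable def p008_l156 : Lf2 := ⟨nat_lit 0, nat_lit 5, [nat_lit 4, nat_lit 5, nat_lit 5, nat_lit 20], false, nat_lit 0, nat_lit 0, nat_lit 0, nat_lit 0, ⟨nat_lit 0, nat_lit 0, nat_lit 1000, nat_lit 5, nat_lit 156, nat_lit 0, nat_lit 0, nat_lit 0, nat_lit 0, nat_lit 215, nat_lit 228150, nat_lit 332, nat_lit 58151647, nat_lit 0, nat_lit 0, nat_lit 1951464, false, false⟩,
 nat_lit 11, nat_lit 7501, nat_lit 0, nat_lit 0, nat_lit 3976, nat_lit 4, nat_lit 23, nat_lit 0, nat_lit 0, nat_lit 1, nat_lit 0, nat_lit 0, nat_lit 0, nat_lit 0, nat_lit 147, nat_lit 1000000, nat_lit 0, nat_lit 0, [(nat_lit 6, [(nat_lit 6, nat_lit 1000)])],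
 ⟨p008_k14, nat_lit 0, nat_lit 0, nat_lit 224, nat_lit 0, nat_lit 192528, [nat_lit 3329066667, nat_lit 3042400001, nat_lit 177599999], [], [nat_lit 11861325520, nat_lit 12914129852, nat_lit 12643513260, nat_lit 13833324412], nat_lit 1271250, nat_lit 1271250, nat_lit 780000, nat_lit 1100001, nat_lit 0, nat_lit 0, [nat_lit 1100000, nat_lit 1442500, nat_lit 1271250], [nat_lit 11, nat_lit 40, nat_lit 20, nat_lit 80, nat_lit 1, nat_lit 345, nat_lit 125, nat_lit 10]⟩, ⟨p008_k20, nat_lit 0, nat_lit 0, nat_lit 373, nat_lit 0, nat_lit 244289, [nat_lit 0, nat_lit 0, nat_lit 0], [], [nat_lit 6095360, nat_lit 3980408, nat_lit 1865456, nat_lit 366696], nat_lit 1271250, nat_lit 1271250, nat_lit 780000, nat_lit 1100001, nat_lit 0, nat_lit 0, [nat_lit 1412500, nat_lit 1271250, nat_lit 1271250], [nat_lit 53, nat_lit 40, nat_lit 20, nat_lit 80, nat_lit 14, nat_lit 317, nat_lit 100, nat_lit 8]⟩,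
 ⟨nat_lit 5916, nat_lit 6325, ⟨.ofNat (nat_lit 335470), .ofNat (nat_lit 417734), .ofNat (nat_lit 356838), .ofNat (nat_lit 439102), .ofNat (nat_lit 342931), .ofNat (nat_lit 421465), .ofNat (nat_lit 364271), .ofNat (nat_lit 442804)⟩, ⟨.ofNat (nat_lit 0), .ofNat (nat_lit 0), .ofNat (nat_lit 0), .ofNat (nat_lit 0), .ofNat (nat_lit 0), .ofNat (nat_lit 0), .ofNat (nat_lit 0), .ofNat (nat_lit 0)⟩⟩, []⟩
noncomputable def p008_l157 : Lf2 := ⟨nat_lit 0, nat_lit 5, [nat_lit 4, nat_lit 5, nat_lit 5, nat_lit 20], false, nat_lit 0, nat_lit 0, nat_lit 0, nat_lit 0, ⟨nat_lit 1000, nat_lit 0, nat_lit 0, nat_lit 0, nat_lit 0, nat_lit 0, nat_lit 0, nat_lit 0, nat_lit 0, nat_lit 0, nat_lit 0, nat_lit 0, nat_lit 0, nat_lit 0, nat_lit 0, nat_lit 0, false, false⟩,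
 nat_lit 12435, nat_lit 0, nat_lit 0, nat_lit 0, nat_lit 6285, nat_lit 5329, nat_lit 0, nat_lit 0, nat_lit 0, nat_lit 2265, nat_lit 0, nat_lit 0, nat_lit 0, nat_lit 0, nat_lit 0, nat_lit 0, nat_lit 0, nat_lit 0, [],
 ⟨p008_k14, nat_lit 0, nat_lit 0, nat_lit 336, nat_lit 0, nat_lit 370111, [nat_lit 4688000000, nat_lit 6250000000, nat_lit 9842000000], [], [nat_lit 33869109740, nat_lit 32957682870, nat_lit 36194731120, nat_lit 34895006410], nat_lit 1271250, nat_lit 1271250, nat_lit 1100001, nat_lit 1785000, nat_lit 0, nat_lit 0, [nat_lit 1100000, nat_lit 1442500, nat_lit 1271250], [nat_lit 11, nat_lit 40, nat_lit 20, nat_lit 80, nat_lit 1, nat_lit 345, nat_lit 125, nat_lit 10]⟩, ⟨p008_k20, nat_lit 0, nat_lit 0, nat_lit 499, nat_lit 0, nat_lit 463960, [nat_lit 6250000000, nat_lit 7968000000, nat_lit 11872000000], [], [nat_lit 34985265756, nat_lit 35232539153, nat_lit 36674756364, nat_lit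 37230868384], nat_lit 1271250, nat_lit 1271250, nat_lit 1100001, nat_lit 1785000, nat_lit 0, nat_lit 0, [nat_lit 1412500, nat_lit 1271250, nat_lit 1271250], [nat_lit 53, nat_lit 40, nat_lit 20, nat_lit 80, nat_lit 14, nat_lit 345, nat_lit 125, nat_lit 9]⟩,
 zbF0, []⟩
noncomputable def p008_l158 : Lf2 := ⟨nat_lit 0, nat_lit 5, [nat_lit 4, nat_lit 5, nat_lit 5, nat_lit 20], false, nat_lit 0, nat_lit 0, nat_lit 0, nat_lit 0, ⟨nat_lit 1000, nat_lit 0, nat_lit 0, nat_lit 0, nat_lit 0, nat_lit 0, nat_lit 0, nat_lit 0, nat_lit 0, nat_lit 0, nat_lit 0, nat_lit 0, nat_lit 0, nat_lit 0, nat_lit 0, nat_lit 0, false, false⟩,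
 nat_lit 13601, nat_lit 0, nat_lit 0, nat_lit 0, nat_lit 6506, nat_lit 5828, nat_lit 0, nat_lit 0, nat_lit 0, nat_lit 2049, nat_lit 0, nat_lit 0, nat_lit 0, nat_lit 0, nat_lit 0, nat_lit 0, nat_lit 0, nat_lit 0, [],
 ⟨p008_k14, nat_lit 0, nat_lit 0, nat_lit 216, nat_lit 0, nat_lit 192528, [nat_lit 4688000000, nat_lit 6250000000, nat_lit 9842000000], [], [nat_lit 33972176184, nat_lit 32508430092, nat_lit 36043308992, nat_lit 34448105956], nat_lit 1271250, nat_lit 1271250, nat_lit 1100001, nat_lit 1785000, nat_lit 0, nat_lit 0, [nat_lit 1100000, nat_lit 1442500, nat_lit 1271250], [nat_lit 11, nat_lit 40, nat_lit 20, nat_lit 80, nat_lit 1, nat_lit 345, nat_lit 125, nat_lit 10]⟩, ⟨p008_k20, nat_lit 0, nat_lit 0, nat_lit 359, nat_lit 0, nat_lit 244289, [nat_lit 6250000000, nat_lit 7968000000, nat_lit 11872000000], [], [nat_lit 35217981392, nat_lit 35128780538, nat_lit 36033690925, nat_lit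 36453652045], nat_lit 1271250, nat_lit 1271250, nat_lit 1100001, nat_lit 1785000, nat_lit 0, nat_lit 0, [nat_lit 1412500, nat_lit 1271250, nat_lit 1271250], [nat_lit 53, nat_lit 40, nat_lit 20, nat_lit 80, nat_lit 14, nat_lit 345, nat_lit 125, nat_lit 9]⟩,
 zbF0, []⟩
noncomputable def b_NL_600_500_0_5 : St := ⟨false, nat_lit 1, nat_lit 1, nat_lit 1, nat_lit 20, nat_lit 240, nat_lit 260, nat_lit 200, nat_lit 220, nat_lit 120, nat_lit 240, nat_lit 0, nat_lit 0, nat_lit 0, nat_lit 0, nat_lit 0, nat_lit 0, nat_lit 0, nat_lit 40, nat_lit 0, nat_lit 0, nat_lit 0, nat_lit 0⟩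
theorem d_NL_600_500_0_5 (h : EB TB.env) : Dead b_NL_600_500_0_5 := chkB_sound0 h (T :=
(.spl (nat_lit 2) (nat_lit 160)
(.spl (nat_lit 6) (nat_lit 20)
(.spl (nat_lit 6) (nat_lit 8)
(.spl (nat_lit 6) (nat_lit 4)
(.spl (nat_lit 0) (nat_lit 250)
(.spl (nat_lit 0) (nat_lit 245)
(.leaf p008_l151)
(.leaf p008_l152))
(.leaf p008_l153))
(.leaf p008_l154))
(.leaf p008_l155))
(.leaf p008_l156))
(.spl (nat_lit 6) (nat_lit 20)
(.leaf p008_l157)
(.leaf p008_l158)))) (by decide +kernel)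
noncomputable def p008_l159 : Lf2 := ⟨nat_lit 0, nat_lit 5, [nat_lit 4, nat_lit 5, nat_lit 5, nat_lit 20], true, nat_lit 0, nat_lit 0, nat_lit 0, nat_lit 0, ⟨nat_lit 0, nat_lit 1000, nat_lit 0, nat_lit 5, nat_lit 76, nat_lit 0, nat_lit 0, nat_lit 0, nat_lit 0, nat_lit 0, nat_lit 0, nat_lit 0, nat_lit 0, nat_lit 0, nat_lit 0, nat_lit 5000000, false, false⟩,
 nat_lit 0, nat_lit 4292, nat_lit 0, nat_lit 0, nat_lit 2272, nat_lit 0, nat_lit 0, nat_lit 0, nat_lit 0, nat_lit 0, nat_lit 0, nat_lit 0, nat_lit 0, nat_lit 0, nat_lit 0, nat_lit 767200, nat_lit 0, nat_lit 0, [(nat_lit 6, [(nat_lit 1, nat_lit 388), (nat_lit 2, nat_lit 612)])],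
 ⟨p008_k18, nat_lit 0, nat_lit 0, nat_lit 457, nat_lit 0, nat_lit 349359, [nat_lit 3833804800, nat_lit 2046299200], [], [nat_lit 34724192160, nat_lit 34970075932, nat_lit 34538339232, nat_lit 34649450992], nat_lit 1271250, nat_lit 1271250, nat_lit 21650, nat_lit 490000, nat_lit 0, nat_lit 0, [nat_lit 1100000, nat_lit 2127500], [nat_lit 70, nat_lit 40, nat_lit 20, nat_lit 80, nat_lit 13, nat_lit 317, nat_lit 100, nat_lit 10]⟩, C1.Rw.none,
 ⟨nat_lit 6123, nat_lit 6325, ⟨.ofNat (nat_lit 96904), .ofNat (nat_lit 253206), .ofNat (nat_lit 118272), .ofNat (nat_lit 274574), .ofNat (nat_lit 106133), .ofNat (nat_lit 258856), .ofNat (nat_lit 127481), .ofNat (nat_lit 280205)⟩, ⟨.ofNat (nat_lit 0), .ofNat (nat_lit 0), .ofNat (nat_lit 0), .ofNat (nat_lit 0), .ofNat (nat_lit 0), .ofNat (nat_lit 0), .ofNat (nat_lit 0), .ofNat (nat_lit 0)⟩⟩, [⟨nat_lit 0, nat_lit 100, nat_lit 98, nat_lit 27, nat_lit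 7993373⟩]⟩
noncomputable def p008_l160 : Lf2 := ⟨nat_lit 0, nat_lit 5, [nat_lit 4, nat_lit 5, nat_lit 5, nat_lit 20], true, nat_lit 0, nat_lit 0, nat_lit 0, nat_lit 0, ⟨nat_lit 0, nat_lit 1000, nat_lit 0, nat_lit 5, nat_lit 123, nat_lit 0, nat_lit 0, nat_lit 0, nat_lit 0, nat_lit 0, nat_lit 0, nat_lit 0, nat_lit 0, nat_lit 0, nat_lit 0, nat_lit 5000000, false, false⟩,
 nat_lit 0, nat_lit 8080, nat_lit 0, nat_lit 0, nat_lit 4277, nat_lit 0, nat_lit 2209, nat_lit 0, nat_lit 0, nat_lit 0, nat_lit 0, nat_lit 0, nat_lit 0, nat_lit 0, nat_lit 0, nat_lit 400000, nat_lit 0, nat_lit 0, [(nat_lit 6, [(nat_lit 1, nat_lit 1000)])],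
 ⟨p008_k14, nat_lit 0, nat_lit 0, nat_lit 534, nat_lit 0, nat_lit 664355, [nat_lit 2692266667, nat_lit 3151066667, nat_lit 3294533333], [], [nat_lit 25616715817, nat_lit 24601804077, nat_lit 25300009785, nat_lit 24822902637], nat_lit 1271250, nat_lit 1271250, nat_lit 490000, nat_lit 780000, nat_lit 0, nat_lit 0, [nat_lit 1100000, nat_lit 1442500, nat_lit 1271250], [nat_lit 11, nat_lit 40, nat_lit 20, nat_lit 80, nat_lit 1, nat_lit 317, nat_lit 100, nat_lit 9]⟩, C1.Rw.none,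
 ⟨nat_lit 6123, nat_lit 6325, ⟨.ofNat (nat_lit 253206), .ofNat (nat_lit 335470), .ofNat (nat_lit 274574), .ofNat (nat_lit 356838), .ofNat (nat_lit 258856), .ofNat (nat_lit 339237), .ofNat (nat_lit 280205), .ofNat (nat_lit 360585)⟩, ⟨.ofNat (nat_lit 0), .ofNat (nat_lit 0), .ofNat (nat_lit 0), .ofNat (nat_lit 0), .ofNat (nat_lit 0), .ofNat (nat_lit 0), .ofNat (nat_lit 0), .ofNat (nat_lit 0)⟩⟩, []⟩
noncomputable def p008_l161 : Lf2 := ⟨nat_lit 0, nat_lit 5, [nat_lit 4, nat_lit 5, nat_lit 5, nat_lit 20], false, nat_lit 0, nat_lit 0, nat_lit 0, nat_lit 0, ⟨nat_lit 360, nat_lit 640, nat_lit 0, nat_lit 5, nat_lit 188, nat_lit 0, nat_lit 0, nat_lit 0, nat_lit 0, nat_lit 0, nat_lit 0, nat_lit 0, nat_lit 0, nat_lit 0, nat_lit 0, nat_lit 5000000, false, false⟩,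
 nat_lit 0, nat_lit 6942, nat_lit 0, nat_lit 0, nat_lit 3674, nat_lit 3867, nat_lit 731, nat_lit 0, nat_lit 0, nat_lit 1345, nat_lit 0, nat_lit 0, nat_lit 0, nat_lit 0, nat_lit 0, nat_lit 256000, nat_lit 0, nat_lit 0, [(nat_lit 6, [(nat_lit 1, nat_lit 640)])],
 ⟨p008_k14, nat_lit 0, nat_lit 0, nat_lit 504, nat_lit 0, nat_lit 664355, [nat_lit 3410730667, nat_lit 4266682667, nat_lit 5598737778], [], [nat_lit 33276013494, nat_lit 33442924690, nat_lit 36774469345, nat_lit 35908863923], nat_lit 1271250, nat_lit 1271250, nat_lit 780000, nat_lit 1762500, nat_lit 0, nat_lit 0, [nat_lit 1100000, nat_lit 1442500, nat_lit 1271250], [nat_lit 11, nat_lit 40, nat_lit 20, nat_lit 80, nat_lit 1, nat_lit 345, nat_lit 125, nat_lit 10]⟩, ⟨p008_k20, nat_lit 0, nat_lit 0, nat_lit 184, nat_lit 0, nat_lit 0, [nat_lit 2250000000, nat_lit 2868480000, nat_lit 4273920000], [], [nat_lit 6198604501, nat_lit 6694961173,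 nat_lit 7574894413, nat_lit 7932379014], nat_lit 0, nat_lit 0, nat_lit 0, nat_lit 0, nat_lit 0, nat_lit 0, [], [nat_lit 53, nat_lit 40, nat_lit 20, nat_lit 80, nat_lit 14, nat_lit 345, nat_lit 125, nat_lit 9]⟩,
 ⟨nat_lit 6123, nat_lit 6325, ⟨.ofNat (nat_lit 335470), .ofNat (nat_lit 582258), .ofNat (nat_lit 356838), .ofNat (nat_lit 603623), .ofNat (nat_lit 339237), .ofNat (nat_lit 580374), .ofNat (nat_lit 360585), .ofNat (nat_lit 601720)⟩, ⟨.ofNat (nat_lit 0), .ofNat (nat_lit 0), .ofNat (nat_lit 0), .ofNat (nat_lit 0), .ofNat (nat_lit 0), .ofNat (nat_lit 0), .ofNat (nat_lit 0), .ofNat (nat_lit 0)⟩⟩, []⟩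
noncomputable def p008_l162 : Lf2 := ⟨nat_lit 0, nat_lit 5, [nat_lit 4, nat_lit 5, nat_lit 5, nat_lit 20], true, nat_lit 0, nat_lit 0, nat_lit 0, nat_lit 0, ⟨nat_lit 0, nat_lit 1000, nat_lit 0, nat_lit 5, nat_lit 111, nat_lit 0, nat_lit 0, nat_lit 0, nat_lit 0, nat_lit 0, nat_lit 0, nat_lit 0, nat_lit 0, nat_lit 0, nat_lit 0, nat_lit 5000000, false, false⟩,
 nat_lit 0, nat_lit 5805, nat_lit 0, nat_lit 0, nat_lit 3224, nat_lit 0, nat_lit 1573, nat_lit 0, nat_lit 0, nat_lit 0, nat_lit 0, nat_lit 0, nat_lit 0, nat_lit 0, nat_lit 0, nat_lit 400000, nat_lit 0, nat_lit 0, [(nat_lit 6, [(nat_lit 1, nat_lit 1000)])],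
 ⟨p008_k41, nat_lit 0, nat_lit 0, nat_lit 541, nat_lit 0, nat_lit 717115, [nat_lit 2838000000, nat_lit 3261466667], [], [nat_lit 32233659444, nat_lit 31880267238, nat_lit 31403290968, nat_lit 31597823788], nat_lit 1271250, nat_lit 1271250, nat_lit 21650, nat_lit 1100001, nat_lit 0, nat_lit 0, [nat_lit 1100000, nat_lit 1785000], [nat_lit 39, nat_lit 40, nat_lit 20, nat_lit 80, nat_lit 7, nat_lit 249, nat_lit 40, nat_lit 9]⟩, C1.Rw.none,
 ⟨nat_lit 5916, nat_lit 6124, ⟨.ofNat (nat_lit 106133), .ofNat (nat_lit 419618), .ofNat (nat_lit 127481), .ofNat (nat_lit 440966), .ofNat (nat_lit 115184), .ofNat (nat_lit 421465), .ofNat (nat_lit 136523), .ofNat (nat_lit 442804)⟩, ⟨.ofNat (nat_lit 0), .ofNat (nat_lit 0), .ofNat (nat_lit 0), .ofNat (nat_lit 0), .ofNat (nat_lit 0), .ofNat (nat_lit 0), .ofNat (nat_lit 0), .ofNat (nat_lit 0)⟩⟩, []⟩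
noncomputable def p008_l163 : Lf2 := ⟨nat_lit 0, nat_lit 5, [nat_lit 4, nat_lit 5, nat_lit 5, nat_lit 20], true, nat_lit 0, nat_lit 0, nat_lit 0, nat_lit 0, ⟨nat_lit 0, nat_lit 1000, nat_lit 0, nat_lit 5, nat_lit 204, nat_lit 0, nat_lit 0, nat_lit 0, nat_lit 0, nat_lit 0, nat_lit 0, nat_lit 0, nat_lit 0, nat_lit 0, nat_lit 0, nat_lit 5000000, false, false⟩,
 nat_lit 0, nat_lit 5206, nat_lit 0, nat_lit 0, nat_lit 2892, nat_lit 0, nat_lit 1358, nat_lit 0, nat_lit 0, nat_lit 0, nat_lit 0, nat_lit 0, nat_lit 0, nat_lit 0, nat_lit 0, nat_lit 400000, nat_lit 0, nat_lit 0, [(nat_lit 6, [(nat_lit 1, nat_lit 1000)])],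
 ⟨p008_k17, nat_lit 0, nat_lit 0, nat_lit 443, nat_lit 0, nat_lit 717115, [nat_lit 2692266667, nat_lit 3030400001, nat_lit 3280799999], [], [nat_lit 27615227698, nat_lit 27952067198, nat_lit 30057527631, nat_lit 29783554726], nat_lit 1271250, nat_lit 1271250, nat_lit 1100001, nat_lit 1785000, nat_lit 0, nat_lit 0, [nat_lit 1100000, nat_lit 1442500, nat_lit 1271250], [nat_lit 9, nat_lit 40, nat_lit 20, nat_lit 80, nat_lit 2, nat_lit 272, nat_lit 60, nat_lit 9]⟩, C1.Rw.none,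
 ⟨nat_lit 5916, nat_lit 6124, ⟨.ofNat (nat_lit 419618), .ofNat (nat_lit 580374), .ofNat (nat_lit 440966), .ofNat (nat_lit 601721), .ofNat (nat_lit 421465), .ofNat (nat_lit 578527), .ofNat (nat_lit 442804), .ofNat (nat_lit 599865)⟩, ⟨.ofNat (nat_lit 0), .ofNat (nat_lit 0), .ofNat (nat_lit 0), .ofNat (nat_lit 0), .ofNat (nat_lit 0), .ofNat (nat_lit 0), .ofNat (nat_lit 0), .ofNat (nat_lit 0)⟩⟩, []⟩
noncomputable def p008_l164 : Lf2 := ⟨nat_lit 0, nat_lit 5, [nat_lit 4, nat_lit 5, nat_lit 5, nat_lit 20], false, nat_lit 0, nat_lit 0, nat_lit 0, nat_lit 0, ⟨nat_lit 1000, nat_lit 0, nat_lit 0, nat_lit 0, nat_lit 0, nat_lit 0, nat_lit 0, nat_lit 0, nat_lit 0, nat_lit 0, nat_lit 0, nat_lit 0, nat_lit 0, nat_lit 0, nat_lit 0, nat_lit 0, false, false⟩,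
 nat_lit 0, nat_lit 13812, nat_lit 0, nat_lit 0, nat_lit 7312, nat_lit 7331, nat_lit 1636, nat_lit 0, nat_lit 0, nat_lit 3036, nat_lit 0, nat_lit 0, nat_lit 0, nat_lit 0, nat_lit 0, nat_lit 0, nat_lit 0, nat_lit 0, [],
 ⟨p008_k14, nat_lit 0, nat_lit 0, nat_lit 531, nat_lit 0, nat_lit 766657, [nat_lit 4688000000, nat_lit 6250000000, nat_lit 9842000000], [], [nat_lit 32484783464, nat_lit 32928714408, nat_lit 38190090784, nat_lit 38476638896], nat_lit 1271250, nat_lit 1271250, nat_lit 1271250, nat_lit 1271250, nat_lit 0, nat_lit 0, [nat_lit 1100000, nat_lit 1442500, nat_lit 1271250], [nat_lit 11, nat_lit 40, nat_lit 20, nat_lit 80, nat_lit 1, nat_lit 401, nat_lit 175, nat_lit 11]⟩, ⟨p008_k20, nat_lit 0, nat_lit 0, nat_lit 255, nat_lit 0, nat_lit 0, [nat_lit 6250000000, nat_lit 7968000000, nat_lit 11872000000], [], [nat_lit 25571901276, nat_lit 26472491266, nat_lit 37523221812, nat_lit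 37910484656], nat_lit 0, nat_lit 0, nat_lit 0, nat_lit 0, nat_lit 0, nat_lit 0, [], [nat_lit 53, nat_lit 40, nat_lit 20, nat_lit 80, nat_lit 14, nat_lit 401, nat_lit 175, nat_lit 10]⟩,
 zbF0, [⟨nat_lit 13, nat_lit 97, nat_lit 20, nat_lit 100, nat_lit 30094601⟩]⟩
noncomputable def p008_l165 : Lf2 := ⟨nat_lit 0, nat_lit 5, [nat_lit 4, nat_lit 5, nat_lit 5, nat_lit 20], false, nat_lit 0, nat_lit 0, nat_lit 0, nat_lit 0, ⟨nat_lit 0, nat_lit 1000, nat_lit 0, nat_lit 5, nat_lit 142, nat_lit 0, nat_lit 0, nat_lit 0, nat_lit 0, nat_lit 0, nat_lit 0, nat_lit 0, nat_lit 0, nat_lit 0, nat_lit 0, nat_lit 5000000, false, false⟩,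
 nat_lit 0, nat_lit 4847, nat_lit 0, nat_lit 0, nat_lit 2565, nat_lit 0, nat_lit 481, nat_lit 0, nat_lit 0, nat_lit 0, nat_lit 0, nat_lit 0, nat_lit 0, nat_lit 0, nat_lit 0, nat_lit 400000, nat_lit 0, nat_lit 0, [(nat_lit 6, [(nat_lit 1, nat_lit 1000)])],
 ⟨p008_k14, nat_lit 0, nat_lit 0, nat_lit 483, nat_lit 0, nat_lit 403156, [nat_lit 2692266667, nat_lit 3151066667, nat_lit 3294533333], [], [nat_lit 31713224813, nat_lit 32109244358, nat_lit 33295717540, nat_lit 33741257470], nat_lit 1271250, nat_lit 1271250, nat_lit 21650, nat_lit 1697250, nat_lit 0, nat_lit 0, [nat_lit 1100000, nat_lit 1442500, nat_lit 1271250], [nat_lit 11, nat_lit 40, nat_lit 20, nat_lit 80, nat_lit 1, nat_lit 345, nat_lit 125, nat_lit 10]⟩, ⟨p008_k20, nat_lit 0, nat_lit 0, nat_lit 653, nat_lit 0, nat_lit 511546, [nat_lit 0, nat_lit 0, nat_lit 0], [], [nat_lit 0, nat_lit 0, nat_lit 0, nat_lit 0], nat_lit 1271250,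 nat_lit 1271250, nat_lit 21650, nat_lit 1697250, nat_lit 0, nat_lit 0, [nat_lit 1412500, nat_lit 1271250, nat_lit 1271250], [nat_lit 53, nat_lit 40, nat_lit 20, nat_lit 80, nat_lit 14, nat_lit 345, nat_lit 125, nat_lit 9]⟩,
 ⟨nat_lit 5916, nat_lit 6325, ⟨.ofNat (nat_lit 96904), .ofNat (nat_lit 582240), .ofNat (nat_lit 118272), .ofNat (nat_lit 603600), .ofNat (nat_lit 115184), .ofNat (nat_lit 578509), .ofNat (nat_lit 136523), .ofNat (nat_lit 599841)⟩, ⟨.ofNat (nat_lit 0), .ofNat (nat_lit 0), .ofNat (nat_lit 0), .ofNat (nat_lit 0), .ofNat (nat_lit 0), .ofNat (nat_lit 0), .ofNat (nat_lit 0), .ofNat (nat_lit 0)⟩⟩, []⟩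
noncomputable def p008_l166 : Lf2 := ⟨nat_lit 0, nat_lit 5, [nat_lit 4, nat_lit 5, nat_lit 5, nat_lit 20], false, nat_lit 0, nat_lit 0, nat_lit 0, nat_lit 0, ⟨nat_lit 824, nat_lit 176, nat_lit 0, nat_lit 6, nat_lit 301, nat_lit 0, nat_lit 0, nat_lit 0, nat_lit 0, nat_lit 0, nat_lit 0, nat_lit 0, nat_lit 0, nat_lit 0, nat_lit 0, nat_lit 5000000, true, true⟩,
 nat_lit 17117, nat_lit 0, nat_lit 0, nat_lit 0, nat_lit 6701, nat_lit 7335, nat_lit 1639, nat_lit 0, nat_lit 0, nat_lit 1679, nat_lit 0, nat_lit 0, nat_lit 0, nat_lit 0, nat_lit 0, nat_lit 70400, nat_lit 0, nat_lit 0, [(nat_lit 6, [(nat_lit 1, nat_lit 176)])],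
 ⟨p008_k14, nat_lit 0, nat_lit 0, nat_lit 374, nat_lit 0, nat_lit 403156, [nat_lit 4336750934, nat_lit 5704587734, nat_lit 8667587200], [], [nat_lit 28899809948, nat_lit 29518507004, nat_lit 36099799668, nat_lit 36577680468], nat_lit 1271250, nat_lit 1271250, nat_lit 1271250, nat_lit 1271250, nat_lit 0, nat_lit 0, [nat_lit 1100000, nat_lit 1442500, nat_lit 1271250], [nat_lit 11, nat_lit 40, nat_lit 20, nat_lit 80, nat_lit 1, nat_lit 401, nat_lit 175, nat_lit 11]⟩, ⟨p008_k20, nat_lit 0, nat_lit 0, nat_lit 505, nat_lit 0, nat_lit 511546, [nat_lit 5150000000, nat_lit 6565632000, nat_lit 9782528000], [], [nat_lit 27220988924, nat_lit 27508634248, nat_lit 33192179748, nat_lit 33307686410], nat_lit 1271250, nat_lit 1271250, nat_lit 1271250, nat_lit 1271250, nat_lit 0, nat_lit 0, [nat_lit 1412500, nat_lit 1271250, nat_lit 1271250], [nat_lit 53, nat_lit 40, nat_lit 20, nat_lit 80, nat_lit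 14, nat_lit 401, nat_lit 175, nat_lit 10]⟩,
 ⟨nat_lit 5916, nat_lit 6325, ⟨.ofNat (nat_lit 582240), .ofNat (nat_lit 911200), .ofNat (nat_lit 603600), .ofNat (nat_lit 932560), .ofNat (nat_lit 578509), .ofNat (nat_lit 892546), .ofNat (nat_lit 599841), .ofNat (nat_lit 913878)⟩, ⟨.ofNat (nat_lit 0), .ofNat (nat_lit 0), .ofNat (nat_lit 0), .ofNat (nat_lit 0), .ofNat (nat_lit 0), .ofNat (nat_lit 0), .ofNat (nat_lit 0), .ofNat (nat_lit 0)⟩⟩, []⟩
noncomputable def b_NL_600_500_0_6 : St := ⟨false, nat_lit 1, nat_lit 2, nat_lit 2, nat_lit 20, nat_lit 240, nat_lit 260, nat_lit 200, nat_lit 220, nat_lit 4, nat_lit 400, nat_lit 0, nat_lit 0, nat_lit 0, nat_lit 0, nat_lit 0, nat_lit 0, nat_lit 0, nat_lit 40, nat_lit 0, nat_lit 0, nat_lit 0, nat_lit 0⟩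
theorem d_NL_600_500_0_6 (h : EB TB.env) : Dead b_NL_600_500_0_6 := chkB_sound0 h (T :=
(.st (nat_lit 1)
(.spl (nat_lit 2) (nat_lit 240)
(.spl (nat_lit 0) (nat_lit 250)
(.spl (nat_lit 2) (nat_lit 120)
(.spl (nat_lit 2) (nat_lit 80)
(.leaf p008_l159)
(.leaf p008_l160))
(.leaf p008_l161))
(.spl (nat_lit 2) (nat_lit 160)
(.leaf p008_l162)
(.leaf p008_l163)))
(.leaf p008_l164))
(.spl (nat_lit 2) (nat_lit 240)
(.leaf p008_l165)
(.leaf p008_l166)))) (by decide +kernel)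
noncomputable def p008_l167 : Lf2 := ⟨nat_lit 0, nat_lit 5, [nat_lit 4, nat_lit 5, nat_lit 5, nat_lit 20], true, nat_lit 0, nat_lit 0, nat_lit 0, nat_lit 0, ⟨nat_lit 0, nat_lit 0, nat_lit 1000, nat_lit 5, nat_lit 103, nat_lit 0, nat_lit 0, nat_lit 0, nat_lit 0, nat_lit 215, nat_lit 101400, nat_lit 293, nat_lit 62798080, nat_lit 0, nat_lit 0, nat_lit 1171864, false, false⟩,
 nat_lit 0, nat_lit 0, nat_lit 0, nat_lit 6005, nat_lit 4004, nat_lit 0, nat_lit 0, nat_lit 0, nat_lit 0, nat_lit 0, nat_lit 0, nat_lit 0, nat_lit 0, nat_lit 0, nat_lit 144, nat_lit 972400, nat_lit 0, nat_lit 0, [(nat_lit 6, [(nat_lit 5, nat_lit 46), (nat_lit 6, nat_lit 954)])],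
 ⟨p008_k21, nat_lit 0, nat_lit 0, nat_lit 292, nat_lit 0, nat_lit 0, [nat_lit 3832645601, nat_lit 1714364801, nat_lit 23664000], [], [nat_lit 13608151358, nat_lit 14937250511, nat_lit 12528403986, nat_lit 13489028538], nat_lit 0, nat_lit 0, nat_lit 0, nat_lit 0, nat_lit 0, nat_lit 0, [], [nat_lit 29, nat_lit 40, nat_lit 20, nat_lit 80, nat_lit 17, nat_lit 317, nat_lit 100, nat_lit 10]⟩, C1.Rw.none,
 ⟨nat_lit 5916, nat_lit 6325, ⟨.ofNat (nat_lit 126498), .ofNat (nat_lit 356838), .ofNat (nat_lit 147866), .ofNat (nat_lit 378206), .ofNat (nat_lit 144377), .ofNat (nat_lit 364271), .ofNat (nat_lit 165716), .ofNat (nat_lit 385610)⟩, ⟨.ofNat (nat_lit 0), .ofNat (nat_lit 0), .ofNat (nat_lit 0), .ofNat (nat_lit 0), .ofNat (nat_lit 0), .ofNat (nat_lit 0), .ofNat (nat_lit 0), .ofNat (nat_lit 0)⟩⟩, [⟨nat_lit 0, nat_lit 100, nat_lit 98, nat_lit 40, nat_lit 170367213⟩]⟩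
noncomputable def p008_l168 : Lf2 := ⟨nat_lit 0, nat_lit 5, [nat_lit 4, nat_lit 5, nat_lit 5, nat_lit 20], false, nat_lit 0, nat_lit 0, nat_lit 0, nat_lit 0, ⟨nat_lit 1000, nat_lit 0, nat_lit 0, nat_lit 0, nat_lit 0, nat_lit 0, nat_lit 0, nat_lit 0, nat_lit 0, nat_lit 0, nat_lit 0, nat_lit 0, nat_lit 0, nat_lit 0, nat_lit 0, nat_lit 0, false, false⟩,
 nat_lit 0, nat_lit 0, nat_lit 0, nat_lit 12419, nat_lit 0, nat_lit 12368, nat_lit 1904, nat_lit 0, nat_lit 0, nat_lit 0, nat_lit 0, nat_lit 0, nat_lit 0, nat_lit 0, nat_lit 0, nat_lit 0, nat_lit 0, nat_lit 0, [],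
 ⟨p008_k14, nat_lit 0, nat_lit 0, nat_lit 214, nat_lit 0, nat_lit 0, [nat_lit 4688000000, nat_lit 6250000000, nat_lit 9842000000], [], [nat_lit 27883008000, nat_lit 28503196000, nat_lit 36190456000, nat_lit 36697038000], nat_lit 0, nat_lit 0, nat_lit 0, nat_lit 0, nat_lit 0, nat_lit 0, [], [nat_lit 11, nat_lit 40, nat_lit 20, nat_lit 80, nat_lit 1, nat_lit 401, nat_lit 175, nat_lit 12]⟩, ⟨p008_k43, nat_lit 0, nat_lit 0, nat_lit 226, nat_lit 0, nat_lit 0, [nat_lit 6250000000, nat_lit 7968000000, nat_lit 9842000000], [], [nat_lit 22659758064, nat_lit 24510210496, nat_lit 49031055136, nat_lit 49782203456], nat_lit 0, nat_lit 0, nat_lit 0, nat_lit 0, nat_lit 0, nat_lit 0, [], [nat_lit 25, nat_lit 40, nat_lit 20, nat_lit 80, nat_lit 17, nat_lit 401, nat_lit 175, nat_lit 12]⟩,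
 zbF0, [⟨nat_lit 13, nat_lit 98, nat_lit 10, nat_lit 100, nat_lit 69159968⟩]⟩
noncomputable def p008_l169 : Lf2 := ⟨nat_lit 0, nat_lit 5, [nat_lit 4, nat_lit 5, nat_lit 5, nat_lit 20], true, nat_lit 0, nat_lit 0, nat_lit 0, nat_lit 0, ⟨nat_lit 0, nat_lit 0, nat_lit 1000, nat_lit 5, nat_lit 120, nat_lit 0, nat_lit 0, nat_lit 0, nat_lit 0, nat_lit 215, nat_lit 117600, nat_lit 299, nat_lit 61506008, nat_lit 0, nat_lit 0, nat_lit 1418130, false, false⟩,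
 nat_lit 0, nat_lit 0, nat_lit 0, nat_lit 6005, nat_lit 4004, nat_lit 0, nat_lit 0, nat_lit 0, nat_lit 0, nat_lit 0, nat_lit 0, nat_lit 0, nat_lit 0, nat_lit 0, nat_lit 144, nat_lit 972400, nat_lit 0, nat_lit 0, [(nat_lit 6, [(nat_lit 5, nat_lit 46), (nat_lit 6, nat_lit 954)])],
 ⟨p008_k21, nat_lit 0, nat_lit 0, nat_lit 292, nat_lit 0, nat_lit 0, [nat_lit 3832645601, nat_lit 1714364801, nat_lit 23664000], [], [nat_lit 13608151358, nat_lit 14937250511, nat_lit 13199608898, nat_lit 14328379090], nat_lit 0, nat_lit 0, nat_lit 0, nat_lit 0, nat_lit 0, nat_lit 0, [], [nat_lit 29, nat_lit 40, nat_lit 20, nat_lit 80, nat_lit 17, nat_lit 345, nat_lit 125, nat_lit 10]⟩, C1.Rw.none,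
 ⟨nat_lit 5916, nat_lit 6325, ⟨.ofNat (nat_lit 126498), .ofNat (nat_lit 439102), .ofNat (nat_lit 147866), .ofNat (nat_lit 460470), .ofNat (nat_lit 144377), .ofNat (nat_lit 442804), .ofNat (nat_lit 165716), .ofNat (nat_lit 464143)⟩, ⟨.ofNat (nat_lit 0), .ofNat (nat_lit 0), .ofNat (nat_lit 0), .ofNat (nat_lit 0), .ofNat (nat_lit 0), .ofNat (nat_lit 0), .ofNat (nat_lit 0), .ofNat (nat_lit 0)⟩⟩, [⟨nat_lit 0, nat_lit 100, nat_lit 98, nat_lit 40, nat_lit 131876554⟩]⟩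
noncomputable def p008_l170 : Lf2 := ⟨nat_lit 0, nat_lit 5, [nat_lit 4, nat_lit 5, nat_lit 5, nat_lit 20], true, nat_lit 0, nat_lit 0, nat_lit 0, nat_lit 0, ⟨nat_lit 0, nat_lit 0, nat_lit 1000, nat_lit 5, nat_lit 213, nat_lit 0, nat_lit 0, nat_lit 0, nat_lit 0, nat_lit 215, nat_lit 3671, nat_lit 204, nat_lit 52219871, nat_lit 0, nat_lit 0, nat_lit 2638323, false, false⟩,
 nat_lit 0, nat_lit 0, nat_lit 0, nat_lit 1982, nat_lit 7089, nat_lit 0, nat_lit 0, nat_lit 0, nat_lit 0, nat_lit 0, nat_lit 0, nat_lit 0, nat_lit 0, nat_lit 0, nat_lit 50, nat_lit 246880, nat_lit 0, nat_lit 0, [(nat_lit 6, [(nat_lit 3, nat_lit 52), (nat_lit 4, nat_lit 948)])],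
 ⟨p008_k21, nat_lit 0, nat_lit 0, nat_lit 148, nat_lit 0, nat_lit 0, [nat_lit 5346854401, nat_lit 463729600, nat_lit 32556800], [], [nat_lit 15078946381, nat_lit 16365406263, nat_lit 17959708329, nat_lit 19282862466], nat_lit 0, nat_lit 0, nat_lit 0, nat_lit 0, nat_lit 0, nat_lit 0, [], [nat_lit 29, nat_lit 40, nat_lit 20, nat_lit 80, nat_lit 17, nat_lit 345, nat_lit 125, nat_lit 10]⟩, C1.Rw.none,
 ⟨nat_lit 5916, nat_lit 6325, ⟨.ofNat (nat_lit 439102), .ofNat (nat_lit 603600), .ofNat (nat_lit 460470), .ofNat (nat_lit 624961), .ofNat (nat_lit 442804), .ofNat (nat_lit 599841), .ofNat (nat_lit 464143), .ofNat (nat_lit 621173)⟩, ⟨.ofNat (nat_lit 0), .ofNat (nat_lit 0), .ofNat (nat_lit 0), .ofNat (nat_lit 0), .ofNat (nat_lit 0), .ofNat (nat_lit 0), .ofNat (nat_lit 0), .ofNat (nat_lit 0)⟩⟩, []⟩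
noncomputable def p008_l171 : Lf2 := ⟨nat_lit 0, nat_lit 5, [nat_lit 4, nat_lit 5, nat_lit 5, nat_lit 20], false, nat_lit 0, nat_lit 0, nat_lit 0, nat_lit 0, ⟨nat_lit 215, nat_lit 785, nat_lit 0, nat_lit 6, nat_lit 277, nat_lit 0, nat_lit 0, nat_lit 0, nat_lit 0, nat_lit 0, nat_lit 0, nat_lit 0, nat_lit 45272483, nat_lit 21727517, nat_lit 0, nat_lit 3150308, true, true⟩,
 nat_lit 0, nat_lit 0, nat_lit 3903, nat_lit 0, nat_lit 5667, nat_lit 1866, nat_lit 304, nat_lit 0, nat_lit 0, nat_lit 568, nat_lit 0, nat_lit 0, nat_lit 0, nat_lit 0, nat_lit 0, nat_lit 785000, nat_lit 0, nat_lit 0, [(nat_lit 6, [(nat_lit 2, nat_lit 785)])],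
 ⟨p008_k21, nat_lit 0, nat_lit 0, nat_lit 184, nat_lit 0, nat_lit 0, [nat_lit 3620086001, nat_lit 3671538001, nat_lit 2900716000], [], [nat_lit 21747338185, nat_lit 22712023857, nat_lit 26082504654, nat_lit 26929788495], nat_lit 0, nat_lit 0, nat_lit 0, nat_lit 0, nat_lit 0, nat_lit 0, [], [nat_lit 29, nat_lit 40, nat_lit 20, nat_lit 80, nat_lit 17, nat_lit 373, nat_lit 150, nat_lit 10]⟩, ⟨p008_k44, nat_lit 0, nat_lit 0, nat_lit 720, nat_lit 0, nat_lit 1141892, [nat_lit 1343750000, nat_lit 2116030000], [], [nat_lit 6661522184, nat_lit 6672322488, nat_lit 6933449064, nat_lit 6947871032], nat_lit 1271250, nat_lit 1271250, nat_lit 1271250, nat_lit 1271250, nat_lit 0, nat_lit 0, [nat_lit 1412500, nat_lit 1271250], [nat_lit 51, nat_lit 40, nat_lit 20, nat_lit 80, nat_lit 1, nat_lit 373, nat_lit 150, nat_lit 11]⟩,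
 ⟨nat_lit 5916, nat_lit 6325, ⟨.ofNat (nat_lit 603600), .ofNat (nat_lit 768080), .ofNat (nat_lit 624961), .ofNat (nat_lit 789440), .ofNat (nat_lit 599841), .ofNat (nat_lit 756859), .ofNat (nat_lit 621173), .ofNat (nat_lit 778191)⟩, ⟨.ofNat (nat_lit 0), .ofNat (nat_lit 0), .ofNat (nat_lit 0), .ofNat (nat_lit 0), .ofNat (nat_lit 0), .ofNat (nat_lit 0), .ofNat (nat_lit 0), .ofNat (nat_lit 0)⟩⟩, []⟩
noncomputable def p008_l172 : Lf2 := ⟨nat_lit 0, nat_lit 5, [nat_lit 4, nat_lit 5, nat_lit 5, nat_lit 20], false, nat_lit 0, nat_lit 0, nat_lit 0, nat_lit 0, ⟨nat_lit 1000, nat_lit 0, nat_lit 0, nat_lit 0, nat_lit 0, nat_lit 0, nat_lit 0, nat_lit 0, nat_lit 0, nat_lit 0, nat_lit 0, nat_lit 0, nat_lit 0, nat_lit 0, nat_lit 0, nat_lit 0, false, false⟩,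
 nat_lit 0, nat_lit 0, nat_lit 16507, nat_lit 0, nat_lit 5883, nat_lit 7894, nat_lit 2061, nat_lit 0, nat_lit 0, nat_lit 5107, nat_lit 0, nat_lit 0, nat_lit 0, nat_lit 0, nat_lit 0, nat_lit 0, nat_lit 0, nat_lit 0, [],
 ⟨p008_k14, nat_lit 0, nat_lit 0, nat_lit 213, nat_lit 0, nat_lit 0, [nat_lit 4688000000, nat_lit 6250000000, nat_lit 9842000000], [], [nat_lit 28268494118, nat_lit 28651640213, nat_lit 34380115708, nat_lit 34718398409], nat_lit 0, nat_lit 0, nat_lit 0, nat_lit 0, nat_lit 0, nat_lit 0, [], [nat_lit 11, nat_lit 40, nat_lit 20, nat_lit 80, nat_lit 1, nat_lit 289, nat_lit 75, nat_lit 8]⟩, ⟨p008_k43, nat_lit 0, nat_lit 0, nat_lit 643, nat_lit 0, nat_lit 1001913, [nat_lit 6250000000, nat_lit 7968000000, nat_lit 9842000000], [], [nat_lit 35986134648, nat_lit 36126162928, nat_lit 38551211360, nat_lit 38583670720], nat_lit 1271250, nat_lit 1271250, nat_lit 1271250, nat_lit 1271250,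 nat_lit 0, nat_lit 0, [nat_lit 1412500, nat_lit 1271250, nat_lit 1271250], [nat_lit 25, nat_lit 40, nat_lit 20, nat_lit 80, nat_lit 17, nat_lit 272, nat_lit 60, nat_lit 7]⟩,
 zbF0, [⟨nat_lit 13, nat_lit 99, nat_lit 8, nat_lit 100, nat_lit 62504843⟩]⟩
noncomputable def p008_l173 : Lf2 := ⟨nat_lit 0, nat_lit 5, [nat_lit 4, nat_lit 5, nat_lit 5, nat_lit 20], false, nat_lit 0, nat_lit 0, nat_lit 0, nat_lit 0, ⟨nat_lit 253, nat_lit 747, nat_lit 0, nat_lit 8, nat_lit 340, nat_lit 0, nat_lit 0, nat_lit 0, nat_lit 0, nat_lit 0, nat_lit 0, nat_lit 0, nat_lit 38903949, nat_lit 28096051, nat_lit 0, nat_lit 3400396, true, true⟩,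
 nat_lit 0, nat_lit 0, nat_lit 4174, nat_lit 0, nat_lit 4579, nat_lit 1996, nat_lit 925, nat_lit 0, nat_lit 0, nat_lit 550, nat_lit 0, nat_lit 0, nat_lit 0, nat_lit 0, nat_lit 0, nat_lit 298800, nat_lit 0, nat_lit 0, [(nat_lit 6, [(nat_lit 1, nat_lit 747)])],
 ⟨p008_k17, nat_lit 0, nat_lit 0, nat_lit 192, nat_lit 0, nat_lit 0, [nat_lit 3197187200, nat_lit 3844958800, nat_lit 4456794600], [], [nat_lit 25935453914, nat_lit 26329437504, nat_lit 30840619257, nat_lit 31142858930], nat_lit 0, nat_lit 0, nat_lit 0, nat_lit 0, nat_lit 0, nat_lit 0, [], [nat_lit 9, nat_lit 40, nat_lit 20, nat_lit 80, nat_lit 2, nat_lit 203, nat_lit 0, nat_lit 6]⟩, ⟨p008_k43, nat_lit 0, nat_lit 0, nat_lit 711, nat_lit 0, nat_lit 1141892, [nat_lit 1581250000, nat_lit 2015904000, nat_lit 2490026000], [], [nat_lit 9250183028, nat_lit 9253036012, nat_lit 9766346084, nat_lit 9767320880], nat_lit 1271250, nat_lit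 1271250, nat_lit 1271250, nat_lit 1271250, nat_lit 0, nat_lit 0, [nat_lit 1412500, nat_lit 1271250, nat_lit 1271250], [nat_lit 25, nat_lit 40, nat_lit 20, nat_lit 80, nat_lit 17, nat_lit 272, nat_lit 60, nat_lit 7]⟩,
 ⟨nat_lit 5916, nat_lit 6124, ⟨.ofNat (nat_lit 762470), .ofNat (nat_lit 923220), .ofNat (nat_lit 783817), .ofNat (nat_lit 944567), .ofNat (nat_lit 756920), .ofNat (nat_lit 913976), .ofNat (nat_lit 778258), .ofNat (nat_lit 935314)⟩, ⟨.ofNat (nat_lit 0), .ofNat (nat_lit 0), .ofNat (nat_lit 0), .ofNat (nat_lit 0), .ofNat (nat_lit 0), .ofNat (nat_lit 0), .ofNat (nat_lit 0), .ofNat (nat_lit 0)⟩⟩, [⟨nat_lit 13, nat_lit 97, nat_lit 13, nat_lit 100, nat_lit 125636388⟩]⟩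
noncomputable def p008_l174 : Lf2 := ⟨nat_lit 0, nat_lit 5, [nat_lit 4, nat_lit 5, nat_lit 5, nat_lit 20], true, nat_lit 0, nat_lit 0, nat_lit 0, nat_lit 0, ⟨nat_lit 0, nat_lit 1000, nat_lit 0, nat_lit 5, nat_lit 216, nat_lit 0, nat_lit 0, nat_lit 0, nat_lit 0, nat_lit 0, nat_lit 0, nat_lit 0, nat_lit 0, nat_lit 0, nat_lit 0, nat_lit 5000000, false, true⟩,
 nat_lit 0, nat_lit 0, nat_lit 0, nat_lit 4955, nat_lit 4884, nat_lit 0, nat_lit 0, nat_lit 0, nat_lit 0, nat_lit 0, nat_lit 0, nat_lit 0, nat_lit 0, nat_lit 0, nat_lit 0, nat_lit 783400, nat_lit 0, nat_lit 0, [(nat_lit 6, [(nat_lit 1, nat_lit 361), (nat_lit 2, nat_lit 639)])],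
 ⟨p008_k21, nat_lit 0, nat_lit 0, nat_lit 292, nat_lit 0, nat_lit 0, [nat_lit 3150854401, nat_lit 2781867200, nat_lit 1782825600], [], [nat_lit 25309522209, nat_lit 26126616408, nat_lit 31380634481, nat_lit 31921144336], nat_lit 0, nat_lit 0, nat_lit 0, nat_lit 0, nat_lit 0, nat_lit 0, [], [nat_lit 29, nat_lit 40, nat_lit 20, nat_lit 80, nat_lit 17, nat_lit 401, nat_lit 175, nat_lit 12]⟩, C1.Rw.none,
 ⟨nat_lit 5916, nat_lit 6325, ⟨.ofNat (nat_lit 126498), .ofNat (nat_lit 932560), .ofNat (nat_lit 147866), .ofNat (nat_lit 953920), .ofNat (nat_lit 144377), .ofNat (nat_lit 913878), .ofNat (nat_lit 165716), .ofNat (nat_lit 935210)⟩, ⟨.ofNat (nat_lit 0), .ofNat (nat_lit 0), .ofNat (nat_lit 0), .ofNat (nat_lit 0), .ofNat (nat_lit 0), .ofNat (nat_lit 0), .ofNat (nat_lit 0), .ofNat (nat_lit 0)⟩⟩, []⟩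
noncomputable def b_NL_600_550_0_0 : St := ⟨false, nat_lit 0, nat_lit 2, nat_lit 0, nat_lit 20, nat_lit 240, nat_lit 260, nat_lit 220, nat_lit 240, nat_lit 8, nat_lit 400, nat_lit 0, nat_lit 0, nat_lit 0, nat_lit 0, nat_lit 0, nat_lit 0, nat_lit 0, nat_lit 40, nat_lit 0, nat_lit 0, nat_lit 0, nat_lit 0⟩
theorem d_NL_600_550_0_0 (h : EB TB.env) : Dead b_NL_600_550_0_0 := chkB_sound0 h (T :=
(.gv
(.st (nat_lit 1)
(.spl (nat_lit 2) (nat_lit 120)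
(.leaf p008_l167)
(.leaf p008_l168))
(.spl (nat_lit 2) (nat_lit 240)
(.spl (nat_lit 2) (nat_lit 160)
(.leaf p008_l169)
(.leaf p008_l170))
(.spl (nat_lit 2) (nat_lit 320)
(.leaf p008_l171)
(.spl (nat_lit 0) (nat_lit 250)
(.leaf p008_l172)
(.leaf p008_l173)))))
(.leaf p008_l174))) (by decide +kernel)
noncomputable def p008_l175 : Lf2 := ⟨nat_lit 0, nat_lit 5, [nat_lit 4, nat_lit 5, nat_lit 5, nat_lit 20], false, nat_lit 0, nat_lit 0, nat_lit 0, nat_lit 0, ⟨nat_lit 1000, nat_lit 0, nat_lit 0, nat_lit 0, nat_lit 0, nat_lit 0, nat_lit 0, nat_lit 0, nat_lit 0, nat_lit 0, nat_lit 0, nat_lit 0, nat_lit 0, nat_lit 0, nat_lit 0, nat_lit 0, false, false⟩,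
 nat_lit 0, nat_lit 5051, nat_lit 0, nat_lit 0, nat_lit 2674, nat_lit 0, nat_lit 704, nat_lit 0, nat_lit 334, nat_lit 0, nat_lit 0, nat_lit 581, nat_lit 0, nat_lit 0, nat_lit 0, nat_lit 0, nat_lit 0, nat_lit 0, [],
 ⟨p008_k45, nat_lit 0, nat_lit 0, nat_lit 0, nat_lit 0, nat_lit 393085, [nat_lit 3282000000, nat_lit 4688000000, nat_lit 6250000000, nat_lit 7968000001, nat_lit 8885500000], [], [nat_lit 16396555257, nat_lit 16749820353, nat_lit 17035214048, nat_lit 16384373144], nat_lit 1271250, nat_lit 1271250, nat_lit 43600, nat_lit 230001, nat_lit 0, nat_lit 0, [nat_lit 780000, nat_lit 1100000, nat_lit 1442500, nat_lit 1271250, nat_lit 1271250], [nat_lit 251, nat_lit 10, nat_lit 4, nat_lit 20]⟩, ⟨p008_k46, nat_lit 0, nat_lit 0, nat_lit 0, nat_lit 0, nat_lit 0, [nat_lit 3965500000, nat_lit 5449500000, nat_lit 7089500000, nat_lit 8885500000, nat_lit 9842000000], [], [nat_lit 5326876000,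 nat_lit 6189624000, nat_lit 5814664000, nat_lit 6594084000], nat_lit 0, nat_lit 0, nat_lit 0, nat_lit 0, nat_lit 0, nat_lit 0, [], [nat_lit 232, nat_lit 10, nat_lit 4, nat_lit 20]⟩,
 zbF0, [⟨nat_lit 0, nat_lit 100, nat_lit 98, nat_lit 30, nat_lit 663695625⟩]⟩
noncomputable def p008_l176 : Lf2 := ⟨nat_lit 0, nat_lit 2, [nat_lit 10, nat_lit 5, nat_lit 5, nat_lit 20], false, nat_lit 0, nat_lit 0, nat_lit 0, nat_lit 0, ⟨nat_lit 1000, nat_lit 0, nat_lit 0, nat_lit 0, nat_lit 0, nat_lit 0, nat_lit 0, nat_lit 0, nat_lit 0, nat_lit 0, nat_lit 0, nat_lit 0, nat_lit 0, nat_lit 0, nat_lit 0, nat_lit 0, false, false⟩,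
 nat_lit 0, nat_lit 18354, nat_lit 0, nat_lit 0, nat_lit 9716, nat_lit 0, nat_lit 0, nat_lit 0, nat_lit 0, nat_lit 0, nat_lit 0, nat_lit 560, nat_lit 0, nat_lit 0, nat_lit 0, nat_lit 0, nat_lit 0, nat_lit 0, [],
 ⟨p008_k47, nat_lit 0, nat_lit 0, nat_lit 0, nat_lit 0, nat_lit 351423, [nat_lit 4688000000, nat_lit 7968000000], [], [nat_lit 34961202096, nat_lit 35231428450, nat_lit 35427762576, nat_lit 34267458424], nat_lit 1271250, nat_lit 1271250, nat_lit 43600, nat_lit 230001, nat_lit 0, nat_lit 0, [nat_lit 1100000, nat_lit 1785000], [nat_lit 39, nat_lit 40, nat_lit 20, nat_lit 80]⟩, ⟨p008_k48, nat_lit 0, nat_lit 0, nat_lit 0, nat_lit 0, nat_lit 0, [nat_lit 6250000000, nat_lit 7968000000], [], [nat_lit 5375362800, nat_lit 6212721601, nat_lit 5846040000, nat_lit 6596184000], nat_lit 0, nat_lit 0, nat_lit 0, nat_lit 0, nat_lit 0, nat_lit 0, [], [nat_lit 26, nat_lit 40, nat_lit 20, nat_lit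 80]⟩,
 zbF0, [⟨nat_lit 0, nat_lit 100, nat_lit 99, nat_lit 36, nat_lit 694399472⟩]⟩
noncomputable def p008_l177 : Lf2 := ⟨nat_lit 0, nat_lit 2, [nat_lit 10, nat_lit 5, nat_lit 5, nat_lit 20], false, nat_lit 0, nat_lit 0, nat_lit 0, nat_lit 0, ⟨nat_lit 1000, nat_lit 0, nat_lit 0, nat_lit 0, nat_lit 0, nat_lit 0, nat_lit 0, nat_lit 0, nat_lit 0, nat_lit 0, nat_lit 0, nat_lit 0, nat_lit 0, nat_lit 0, nat_lit 0, nat_lit 0, false, false⟩,
 nat_lit 0, nat_lit 26669, nat_lit 0, nat_lit 0, nat_lit 14465, nat_lit 0, nat_lit 5646, nat_lit 0, nat_lit 0, nat_lit 0, nat_lit 0, nat_lit 556, nat_lit 0, nat_lit 0, nat_lit 0, nat_lit 0, nat_lit 0, nat_lit 0, [],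
 ⟨p008_k49, nat_lit 0, nat_lit 0, nat_lit 0, nat_lit 0, nat_lit 362864, [nat_lit 4688000000, nat_lit 7968000000], [], [nat_lit 25666309770, nat_lit 25415918268, nat_lit 26015742010, nat_lit 24288302780], nat_lit 1271250, nat_lit 1271250, nat_lit 43600, nat_lit 230001, nat_lit 0, nat_lit 0, [nat_lit 1100000, nat_lit 1785000], [nat_lit 39, nat_lit 40, nat_lit 20, nat_lit 80]⟩, ⟨p008_k48, nat_lit 0, nat_lit 0, nat_lit 0, nat_lit 0, nat_lit 0, [nat_lit 6250000000, nat_lit 7968000000], [], [nat_lit 5455362800, nat_lit 6212880000, nat_lit 5926040000, nat_lit 6676184000], nat_lit 0, nat_lit 0, nat_lit 0, nat_lit 0, nat_lit 0, nat_lit 0, [], [nat_lit 26, nat_lit 40, nat_lit 20, nat_lit 80]⟩,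
 zbF0, [⟨nat_lit 0, nat_lit 100, nat_lit 99, nat_lit 45, nat_lit 665785482⟩]⟩
noncomputable def p008_l178 : Lf2 := ⟨nat_lit 0, nat_lit 5, [nat_lit 4, nat_lit 5, nat_lit 5, nat_lit 20], false, nat_lit 0, nat_lit 0, nat_lit 0, nat_lit 0, ⟨nat_lit 1000, nat_lit 0, nat_lit 0, nat_lit 0, nat_lit 0, nat_lit 0, nat_lit 0, nat_lit 0, nat_lit 0, nat_lit 0, nat_lit 0, nat_lit 0, nat_lit 0, nat_lit 0, nat_lit 0, nat_lit 0, false, false⟩,
 nat_lit 0, nat_lit 19904, nat_lit 0, nat_lit 0, nat_lit 10537, nat_lit 0, nat_lit 1159, nat_lit 0, nat_lit 0, nat_lit 0, nat_lit 0, nat_lit 556, nat_lit 0, nat_lit 0, nat_lit 0, nat_lit 0, nat_lit 0, nat_lit 0, [],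
 ⟨p008_k21, nat_lit 0, nat_lit 0, nat_lit 0, nat_lit 0, nat_lit 306664, [nat_lit 4688000000, nat_lit 7968000001, nat_lit 9842000000], [], [nat_lit 34287157952, nat_lit 34493846664, nat_lit 34495792933, nat_lit 31979093705], nat_lit 1271250, nat_lit 1271250, nat_lit 43600, nat_lit 230001, nat_lit 0, nat_lit 0, [nat_lit 1100000, nat_lit 1785000, nat_lit 1271250], [nat_lit 29, nat_lit 40, nat_lit 20, nat_lit 80]⟩, ⟨p008_k44, nat_lit 0, nat_lit 0, nat_lit 0, nat_lit 0, nat_lit 0, [nat_lit 6250000000, nat_lit 9842000000], [], [nat_lit 5455362800, nat_lit 6212880000, nat_lit 5926040000, nat_lit 6676184000], nat_lit 0, nat_lit 0, nat_lit 0, nat_lit 0, nat_lit 0, nat_lit 0, [], [nat_lit 51, nat_lit 40, nat_lit 20, nat_lit 80]⟩,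
 zbF0, [⟨nat_lit 0, nat_lit 100, nat_lit 99, nat_lit 45, nat_lit 716605495⟩]⟩
noncomputable def p008_l179 : Lf2 := ⟨nat_lit 2, nat_lit 2, [nat_lit 10, nat_lit 5, nat_lit 5, nat_lit 20], true, nat_lit 0, nat_lit 0, nat_lit 0, nat_lit 0, zbN0,
 nat_lit 0, nat_lit 0, nat_lit 0, nat_lit 0, nat_lit 0, nat_lit 0, nat_lit 0, nat_lit 0, nat_lit 0, nat_lit 0, nat_lit 0, nat_lit 0, nat_lit 0, nat_lit 0, nat_lit 0, nat_lit 0, nat_lit 0, nat_lit 0, [],
 ⟨p008_k50, nat_lit 0, nat_lit 0, nat_lit 0, nat_lit 0, nat_lit 351423, [], [], [], nat_lit 1271250, nat_lit 1271250, nat_lit 43600, nat_lit 230001, nat_lit 0, nat_lit 0, [nat_lit 490000, nat_lit 1100000, nat_lit 1271250, nat_lit 1271250], [nat_lit 213, nat_lit 40, nat_lit 20, nat_lit 40]⟩, C1.Rw.none,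
 zbF0, []⟩
noncomputable def p008_l180 : Lf2 := ⟨nat_lit 2, nat_lit 5, [nat_lit 4, nat_lit 5, nat_lit 5, nat_lit 20], true, nat_lit 0, nat_lit 0, nat_lit 0, nat_lit 0, zbN0,
 nat_lit 0, nat_lit 0, nat_lit 0, nat_lit 0, nat_lit 0, nat_lit 0, nat_lit 0, nat_lit 0, nat_lit 0, nat_lit 0, nat_lit 0, nat_lit 0, nat_lit 0, nat_lit 0, nat_lit 0, nat_lit 0, nat_lit 0, nat_lit 0, [],
 ⟨p008_k51, nat_lit 0, nat_lit 0, nat_lit 0, nat_lit 0, nat_lit 284800, [], [], [], nat_lit 1271250, nat_lit 1271250, nat_lit 43600, nat_lit 230001, nat_lit 0, nat_lit 0, [nat_lit 490000, nat_lit 1100000, nat_lit 1442500, nat_lit 1271250], [nat_lit 128, nat_lit 40, nat_lit 20, nat_lit 40]⟩, C1.Rw.none,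
 zbF0, []⟩
noncomputable def p008_l181 : Lf2 := ⟨nat_lit 0, nat_lit 5, [nat_lit 4, nat_lit 5, nat_lit 5, nat_lit 20], false, nat_lit 0, nat_lit 0, nat_lit 0, nat_lit 0, ⟨nat_lit 1000, nat_lit 0, nat_lit 0, nat_lit 0, nat_lit 0, nat_lit 0, nat_lit 0, nat_lit 0, nat_lit 0, nat_lit 0, nat_lit 0, nat_lit 0, nat_lit 0, nat_lit 0, nat_lit 0, nat_lit 0, false, false⟩,
 nat_lit 0, nat_lit 100000, nat_lit 0, nat_lit 0, nat_lit 54243, nat_lit 0, nat_lit 20072, nat_lit 4936, nat_lit 0, nat_lit 0, nat_lit 0, nat_lit 576, nat_lit 0, nat_lit 0, nat_lit 0, nat_lit 0, nat_lit 0, nat_lit 0, [],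
 ⟨p008_k52, nat_lit 0, nat_lit 0, nat_lit 0, nat_lit 0, nat_lit 383072, [nat_lit 41520000000, nat_lit 83664000000, nat_lit 104970000000, nat_lit 137221500000], [], [nat_lit 256144964460, nat_lit 249407132245, nat_lit 254202578292, nat_lit 247541239555], nat_lit 1271250, nat_lit 1271250, nat_lit 43600, nat_lit 230001, nat_lit 0, nat_lit 0, [nat_lit 490000, nat_lit 1100000, nat_lit 1442500, nat_lit 1271250], [nat_lit 128, nat_lit 40, nat_lit 20, nat_lit 40]⟩, ⟨p008_k53, nat_lit 0, nat_lit 0, nat_lit 0, nat_lit 0, nat_lit 0, [nat_lit 2637500000, nat_lit 5449500000, nat_lit 7089500000, nat_lit 9842000000], [], [nat_lit 5471543200, nat_lit 6212721601, nat_lit 5935650000, nat_lit 6669208000], nat_lit 0, nat_lit 0, nat_lit 0, nat_lit 0, nat_lit 0, nat_lit 0, [], [nat_lit 91, nat_lit 40, nat_lit 20, nat_lit 40]⟩,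
 zbF0, [⟨nat_lit 0, nat_lit 100, nat_lit 99, nat_lit 45, nat_lit 1028510879⟩]⟩
noncomputable def p008_l182 : Lf2 := ⟨nat_lit 0, nat_lit 5, [nat_lit 4, nat_lit 5, nat_lit 5, nat_lit 20], true, nat_lit 0, nat_lit 0, nat_lit 0, nat_lit 0, ⟨nat_lit 0, nat_lit 0, nat_lit 1000, nat_lit 5, nat_lit 70, nat_lit 0, nat_lit 0, nat_lit 0, nat_lit 0, nat_lit 215, nat_lit 45067, nat_lit 267, nat_lit 65026360, nat_lit 0, nat_lit 0, nat_lit 664228, false, false⟩,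
 nat_lit 0, nat_lit 100000, nat_lit 0, nat_lit 0, nat_lit 52941, nat_lit 0, nat_lit 4507, nat_lit 2738, nat_lit 0, nat_lit 0, nat_lit 0, nat_lit 0, nat_lit 0, nat_lit 0, nat_lit 0, nat_lit 1000000, nat_lit 0, nat_lit 0, [(nat_lit 6, [(nat_lit 6, nat_lit 1000)])],
 ⟨p008_k21, nat_lit 0, nat_lit 0, nat_lit 0, nat_lit 0, nat_lit 393085, [nat_lit 45342000001, nat_lit 63933466667, nat_lit 72555200000], [], [nat_lit 147382153794, nat_lit 149325143734, nat_lit 130681239698, nat_lit 132082225657], nat_lit 1271250, nat_lit 1271250, nat_lit 43600, nat_lit 230001, nat_lit 0, nat_lit 0, [nat_lit 1100000, nat_lit 1785000, nat_lit 1271250], [nat_lit 29, nat_lit 40, nat_lit 20, nat_lit 80]⟩, C1.Rw.none,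
 ⟨nat_lit 6123, nat_lit 6325, ⟨.ofNat (nat_lit 126498), .ofNat (nat_lit 192309), .ofNat (nat_lit 147866), .ofNat (nat_lit 213677), .ofNat (nat_lit 135519), .ofNat (nat_lit 199824), .ofNat (nat_lit 156867), .ofNat (nat_lit 221172)⟩, ⟨.ofNat (nat_lit 0), .ofNat (nat_lit 0), .ofNat (nat_lit 0), .ofNat (nat_lit 0), .ofNat (nat_lit 0), .ofNat (nat_lit 0), .ofNat (nat_lit 0), .ofNat (nat_lit 0)⟩⟩, [⟨nat_lit 0, nat_lit 100, nat_lit 99, nat_lit 45, nat_lit 2827135427⟩]⟩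
noncomputable def p008_l183 : Lf2 := ⟨nat_lit 2, nat_lit 5, [nat_lit 4, nat_lit 5, nat_lit 5, nat_lit 20], true, nat_lit 0, nat_lit 0, nat_lit 0, nat_lit 0, zbN0,
 nat_lit 0, nat_lit 0, nat_lit 0, nat_lit 0, nat_lit 0, nat_lit 0, nat_lit 0, nat_lit 0, nat_lit 0, nat_lit 0, nat_lit 0, nat_lit 0, nat_lit 0, nat_lit 0, nat_lit 0, nat_lit 0, nat_lit 0, nat_lit 0, [],
 ⟨p008_k14, nat_lit 0, nat_lit 0, nat_lit 475, nat_lit 0, nat_lit 393085, [], [], [], nat_lit 1271250, nat_lit 1271250, nat_lit 43600, nat_lit 230001, nat_lit 0, nat_lit 0, [nat_lit 1100000, nat_lit 1442500, nat_lit 1271250], [nat_lit 11, nat_lit 40, nat_lit 20, nat_lit 80, nat_lit 1, nat_lit 289, nat_lit 75, nat_lit 9]⟩, C1.Rw.none,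
 zbF0, []⟩
noncomputable def p008_l184 : Lf2 := ⟨nat_lit 0, nat_lit 5, [nat_lit 4, nat_lit 5, nat_lit 5, nat_lit 20], false, nat_lit 0, nat_lit 0, nat_lit 0, nat_lit 0, ⟨nat_lit 1000, nat_lit 0, nat_lit 0, nat_lit 0, nat_lit 0, nat_lit 0, nat_lit 0, nat_lit 0, nat_lit 0, nat_lit 0, nat_lit 0, nat_lit 0, nat_lit 0, nat_lit 0, nat_lit 0, nat_lit 0, false, false⟩,
 nat_lit 0, nat_lit 8660, nat_lit 0, nat_lit 0, nat_lit 4811, nat_lit 0, nat_lit 1439, nat_lit 0, nat_lit 0, nat_lit 0, nat_lit 0, nat_lit 581, nat_lit 0, nat_lit 0, nat_lit 0, nat_lit 0, nat_lit 0, nat_lit 0, [],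
 ⟨p008_k17, nat_lit 0, nat_lit 0, nat_lit 401, nat_lit 0, nat_lit 416976, [nat_lit 4688000000, nat_lit 6250000000, nat_lit 7968000000], [], [nat_lit 34520280080, nat_lit 34946264829, nat_lit 34218454003, nat_lit 34148064532], nat_lit 1271250, nat_lit 1271250, nat_lit 65850, nat_lit 230001, nat_lit 0, nat_lit 0, [nat_lit 1100000, nat_lit 1442500, nat_lit 1271250], [nat_lit 9, nat_lit 40, nat_lit 20, nat_lit 80, nat_lit 2, nat_lit 215, nat_lit 10, nat_lit 8]⟩, ⟨p008_k53, nat_lit 0, nat_lit 0, nat_lit 0, nat_lit 0, nat_lit 0, [nat_lit 2637500000, nat_lit 5449500000, nat_lit 7089500000, nat_lit 9842000000], [], [nat_lit 5405268800, nat_lit 6244158400, nat_lit 5825650000, nat_lit 6594084000], nat_lit 0, nat_lit 0, nat_lit 0, nat_lit 0, nat_lit 0, nat_lit 0, [], [nat_lit 91, nat_lit 40, nat_lit 20, nat_lit 40]⟩,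
 zbF0, [⟨nat_lit 0, nat_lit 100, nat_lit 97, nat_lit 35, nat_lit 809852682⟩]⟩
noncomputable def b_NL_600_550_0_1 : St := ⟨false, nat_lit 1, nat_lit 0, nat_lit 1, nat_lit 20, nat_lit 240, nat_lit 260, nat_lit 220, nat_lit 240, nat_lit 8, nat_lit 40, nat_lit 0, nat_lit 0, nat_lit 0, nat_lit 0, nat_lit 0, nat_lit 0, nat_lit 0, nat_lit 20, nat_lit 0, nat_lit 0, nat_lit 0, nat_lit 200⟩
theorem d_NL_600_550_0_1 (h : EB TB.env) : Dead b_NL_600_550_0_1 := chkB_sound0 h (T :=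
(.spl (nat_lit 0) (nat_lit 250)
(.spl (nat_lit 7) (nat_lit 600)
(.leaf p008_l175)
(.spl (nat_lit 7) (nat_lit 900)
(.spl (nat_lit 7) (nat_lit 760)
(.spl (nat_lit 8) (nat_lit 100)
(.spl (nat_lit 6) (nat_lit 8)
(.spl (nat_lit 0) (nat_lit 245)
(.leaf p008_l176)
(.leaf p008_l177))
(.leaf p008_l178))
(.spl (nat_lit 0) (nat_lit 245)
(.spl (nat_lit 6) (nat_lit 8)
(.leaf p008_l179)
(.leaf p008_l180))
(.leaf p008_l181)))
(.leaf p008_l182))
(.leaf p008_l183)))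
(.trZ (nat_lit 0) (nat_lit 100) (nat_lit 97) (nat_lit 35) (nat_lit 12) (.leaf p008_l184)))) (by decide +kernel)
noncomputable def p008_l185 : Lf2 := ⟨nat_lit 0, nat_lit 1, [nat_lit 19, nat_lit 5, nat_lit 5, nat_lit 20], true, nat_lit 0, nat_lit 0, nat_lit 0, nat_lit 0, ⟨nat_lit 0, nat_lit 0, nat_lit 1000, nat_lit 5, nat_lit 58, nat_lit 0, nat_lit 0, nat_lit 0, nat_lit 0, nat_lit 215, nat_lit 32267, nat_lit 259, nat_lit 65611029, nat_lit 0, nat_lit 0, nat_lit 504301, false, false⟩,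
 nat_lit 0, nat_lit 7562, nat_lit 0, nat_lit 0, nat_lit 4003, nat_lit 0, nat_lit 667, nat_lit 0, nat_lit 0, nat_lit 0, nat_lit 0, nat_lit 0, nat_lit 0, nat_lit 0, nat_lit 10, nat_lit 1000000, nat_lit 0, nat_lit 0, [(nat_lit 6, [(nat_lit 6, nat_lit 1000)])],
 ⟨p008_k1, nat_lit 0, nat_lit 0, nat_lit 0, nat_lit 0, nat_lit 300631, [nat_lit 1137066667, nat_lit 504400001, nat_lit 8000000], [], [nat_lit 12712346445, nat_lit 12895852357, nat_lit 12295101805, nat_lit 12429893940], nat_lit 1271250, nat_lit 1271250, nat_lit 43600, nat_lit 111251, nat_lit 0, nat_lit 0, [nat_lit 1100000, nat_lit 1271250, nat_lit 1271250], [nat_lit 124, nat_lit 40, nat_lit 20, nat_lit 40]⟩, C1.Rw.none,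
 ⟨nat_lit 6264, nat_lit 6325, ⟨.ofNat (nat_lit 126498), .ofNat (nat_lit 151177), .ofNat (nat_lit 137182), .ofNat (nat_lit 161861), .ofNat (nat_lit 129223), .ofNat (nat_lit 153731), .ofNat (nat_lit 139903), .ofNat (nat_lit 164412)⟩, ⟨.ofNat (nat_lit 0), .ofNat (nat_lit 0), .ofNat (nat_lit 0), .ofNat (nat_lit 0), .ofNat (nat_lit 0), .ofNat (nat_lit 0), .ofNat (nat_lit 0), .ofNat (nat_lit 0)⟩⟩, [⟨nat_lit 0, nat_lit 100, nat_lit 99, nat_lit 36, nat_lit 282159017⟩]⟩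
noncomputable def p008_l186 : Lf2 := ⟨nat_lit 0, nat_lit 1, [nat_lit 19, nat_lit 5, nat_lit 5, nat_lit 20], true, nat_lit 0, nat_lit 0, nat_lit 0, nat_lit 0, ⟨nat_lit 0, nat_lit 0, nat_lit 1000, nat_lit 5, nat_lit 71, nat_lit 0, nat_lit 0, nat_lit 0, nat_lit 0, nat_lit 215, nat_lit 46817, nat_lit 268, nat_lit 64935860, nat_lit 0, nat_lit 0, nat_lit 687676, false, false⟩,
 nat_lit 0, nat_lit 7923, nat_lit 0, nat_lit 0, nat_lit 4194, nat_lit 0, nat_lit 671, nat_lit 0, nat_lit 0, nat_lit 0, nat_lit 0, nat_lit 0, nat_lit 0, nat_lit 0, nat_lit 10, nat_lit 1000000, nat_lit 0, nat_lit 0, [(nat_lit 6, [(nat_lit 6, nat_lit 1000)])],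
 ⟨p008_k1, nat_lit 0, nat_lit 0, nat_lit 0, nat_lit 0, nat_lit 300631, [nat_lit 1137066667, nat_lit 504400001, nat_lit 8000000], [], [nat_lit 11936730797, nat_lit 12073845386, nat_lit 12227614197, nat_lit 11904849410], nat_lit 1271250, nat_lit 1271250, nat_lit 111251, nat_lit 230001, nat_lit 0, nat_lit 0, [nat_lit 1100000, nat_lit 1271250, nat_lit 1271250], [nat_lit 124, nat_lit 40, nat_lit 20, nat_lit 40]⟩, C1.Rw.none,
 ⟨nat_lit 6264, nat_lit 6325, ⟨.ofNat (nat_lit 151177), .ofNat (nat_lit 192309), .ofNat (nat_lit 161861), .ofNat (nat_lit 202993), .ofNat (nat_lit 153731), .ofNat (nat_lit 194579), .ofNat (nat_lit 164412), .ofNat (nat_lit 205259)⟩, ⟨.ofNat (nat_lit 0), .ofNat (nat_lit 0), .ofNat (nat_lit 0), .ofNat (nat_lit 0), .ofNat (nat_lit 0), .ofNat (nat_lit 0), .ofNat (nat_lit 0), .ofNat (nat_lit 0)⟩⟩, []⟩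
noncomputable def p008_l187 : Lf2 := ⟨nat_lit 0, nat_lit 1, [nat_lit 19, nat_lit 5, nat_lit 5, nat_lit 20], true, nat_lit 0, nat_lit 0, nat_lit 0, nat_lit 0, ⟨nat_lit 0, nat_lit 0, nat_lit 1000, nat_lit 5, nat_lit 67, nat_lit 0, nat_lit 0, nat_lit 0, nat_lit 0, nat_lit 215, nat_lit 41667, nat_lit 265, nat_lit 65159435, nat_lit 0, nat_lit 0, nat_lit 629164, false, false⟩,
 nat_lit 0, nat_lit 7374, nat_lit 0, nat_lit 0, nat_lit 3961, nat_lit 0, nat_lit 679, nat_lit 0, nat_lit 0, nat_lit 0, nat_lit 0, nat_lit 0, nat_lit 0, nat_lit 0, nat_lit 10, nat_lit 1000000, nat_lit 0, nat_lit 0, [(nat_lit 6, [(nat_lit 6, nat_lit 1000)])],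
 ⟨p008_k10, nat_lit 0, nat_lit 0, nat_lit 0, nat_lit 0, nat_lit 304269, [nat_lit 1137066667, nat_lit 504400001, nat_lit 8000000], [], [nat_lit 12907944300, nat_lit 13026380176, nat_lit 12293797091, nat_lit 12222845779], nat_lit 1271250, nat_lit 1271250, nat_lit 43600, nat_lit 230001, nat_lit 0, nat_lit 0, [nat_lit 1100000, nat_lit 1271250, nat_lit 1271250], [nat_lit 124, nat_lit 40, nat_lit 20, nat_lit 40]⟩, C1.Rw.none,
 ⟨nat_lit 6224, nat_lit 6265, ⟨.ofNat (nat_lit 129223), .ofNat (nat_lit 194579), .ofNat (nat_lit 139903), .ofNat (nat_lit 205259), .ofNat (nat_lit 131030), .ofNat (nat_lit 196084), .ofNat (nat_lit 141709), .ofNat (nat_lit 206763)⟩, ⟨.ofNat (nat_lit 0), .ofNat (nat_lit 0), .ofNat (nat_lit 0), .ofNat (nat_lit 0), .ofNat (nat_lit 0), .ofNat (nat_lit 0), .ofNat (nat_lit 0), .ofNat (nat_lit 0)⟩⟩, [⟨nat_lit 0, nat_lit 100, nat_lit 99, nat_lit 37, nat_lit 204796914⟩]⟩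
noncomputable def p008_l188 : Lf2 := ⟨nat_lit 0, nat_lit 2, [nat_lit 10, nat_lit 5, nat_lit 5, nat_lit 20], true, nat_lit 0, nat_lit 0, nat_lit 0, nat_lit 0, ⟨nat_lit 0, nat_lit 0, nat_lit 1000, nat_lit 5, nat_lit 67, nat_lit 0, nat_lit 0, nat_lit 0, nat_lit 0, nat_lit 215, nat_lit 41667, nat_lit 265, nat_lit 65185925, nat_lit 0, nat_lit 0, nat_lit 622097, false, false⟩,
 nat_lit 0, nat_lit 7786, nat_lit 0, nat_lit 0, nat_lit 4121, nat_lit 0, nat_lit 163, nat_lit 0, nat_lit 0, nat_lit 0, nat_lit 0, nat_lit 0, nat_lit 0, nat_lit 0, nat_lit 44, nat_lit 1000000, nat_lit 0, nat_lit 0, [(nat_lit 6, [(nat_lit 6, nat_lit 1000)])],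
 ⟨p008_k26, nat_lit 0, nat_lit 0, nat_lit 0, nat_lit 0, nat_lit 269278, [nat_lit 1681066667, nat_lit 1358400000, nat_lit 17600000], [], [nat_lit 13015723743, nat_lit 13294633097, nat_lit 12851787919, nat_lit 12441210557], nat_lit 1271250, nat_lit 1271250, nat_lit 43600, nat_lit 230001, nat_lit 0, nat_lit 0, [nat_lit 1100000, nat_lit 1271250, nat_lit 1271250], [nat_lit 105, nat_lit 40, nat_lit 20, nat_lit 40]⟩, C1.Rw.none,
 ⟨nat_lit 6224, nat_lit 6325, ⟨.ofNat (nat_lit 126498), .ofNat (nat_lit 192309), .ofNat (nat_lit 137182), .ofNat (nat_lit 202993), .ofNat (nat_lit 131030), .ofNat (nat_lit 196084), .ofNat (nat_lit 141709), .ofNat (nat_lit 206763)⟩, ⟨.ofNat (nat_lit 0), .ofNat (nat_lit 0), .ofNat (nat_lit 0), .ofNat (nat_lit 0), .ofNat (nat_lit 0), .ofNat (nat_lit 0), .ofNat (nat_lit 0), .ofNat (nat_lit 0)⟩⟩, [⟨nat_lit 0, nat_lit 100, nat_lit 99, nat_lit 37, nat_lit 140751496⟩]⟩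
noncomputable def p008_l189 : Lf2 := ⟨nat_lit 0, nat_lit 2, [nat_lit 10, nat_lit 5, nat_lit 5, nat_lit 20], true, nat_lit 0, nat_lit 0, nat_lit 0, nat_lit 0, ⟨nat_lit 0, nat_lit 0, nat_lit 1000, nat_lit 5, nat_lit 68, nat_lit 0, nat_lit 0, nat_lit 0, nat_lit 0, nat_lit 215, nat_lit 43350, nat_lit 266, nat_lit 65097540, nat_lit 0, nat_lit 0, nat_lit 645561, false, false⟩,
 nat_lit 0, nat_lit 7425, nat_lit 0, nat_lit 0, nat_lit 4027, nat_lit 0, nat_lit 579, nat_lit 0, nat_lit 0, nat_lit 0, nat_lit 0, nat_lit 0, nat_lit 0, nat_lit 0, nat_lit 44, nat_lit 1000000, nat_lit 0, nat_lit 0, [(nat_lit 6, [(nat_lit 6, nat_lit 1000)])],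
 ⟨p008_k54, nat_lit 0, nat_lit 0, nat_lit 0, nat_lit 0, nat_lit 327906, [nat_lit 1681066667, nat_lit 1358400000, nat_lit 17600000], [], [nat_lit 13338303608, nat_lit 13637585764, nat_lit 12515799097, nat_lit 12809622815], nat_lit 1271250, nat_lit 1271250, nat_lit 43600, nat_lit 230001, nat_lit 0, nat_lit 0, [nat_lit 1100000, nat_lit 1271250, nat_lit 1271250], [nat_lit 105, nat_lit 40, nat_lit 20, nat_lit 40]⟩, C1.Rw.none,
 ⟨nat_lit 6123, nat_lit 6225, ⟨.ofNat (nat_lit 131030), .ofNat (nat_lit 196084), .ofNat (nat_lit 141709), .ofNat (nat_lit 206763), .ofNat (nat_lit 135519), .ofNat (nat_lit 199824), .ofNat (nat_lit 146193), .ofNat (nat_lit 210498)⟩, ⟨.ofNat (nat_lit 0), .ofNat (nat_lit 0), .ofNat (nat_lit 0), .ofNat (nat_lit 0), .ofNat (nat_lit 0), .ofNat (nat_lit 0), .ofNat (nat_lit 0), .ofNat (nat_lit 0)⟩⟩, [⟨nat_lit 0, nat_lit 100, nat_lit 98, nat_lit 40, nat_lit 237626710⟩]⟩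
noncomputable def p008_l190 : Lf2 := ⟨nat_lit 2, nat_lit 1, [nat_lit 19, nat_lit 5, nat_lit 5, nat_lit 20], true, nat_lit 0, nat_lit 0, nat_lit 0, nat_lit 0, zbN0,
 nat_lit 0, nat_lit 0, nat_lit 0, nat_lit 0, nat_lit 0, nat_lit 0, nat_lit 0, nat_lit 0, nat_lit 0, nat_lit 0, nat_lit 0, nat_lit 0, nat_lit 0, nat_lit 0, nat_lit 0, nat_lit 0, nat_lit 0, nat_lit 0, [],
 ⟨p008_k55, nat_lit 0, nat_lit 0, nat_lit 0, nat_lit 0, nat_lit 329842, [], [], [], nat_lit 1271250, nat_lit 1271250, nat_lit 43600, nat_lit 230001, nat_lit 0, nat_lit 0, [nat_lit 490000, nat_lit 1100000, nat_lit 1271250, nat_lit 1271250], [nat_lit 242, nat_lit 40, nat_lit 20, nat_lit 40]⟩, C1.Rw.none,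
 zbF0, []⟩
noncomputable def p008_l191 : Lf2 := ⟨nat_lit 2, nat_lit 1, [nat_lit 19, nat_lit 5, nat_lit 5, nat_lit 20], true, nat_lit 0, nat_lit 0, nat_lit 0, nat_lit 0, zbN0,
 nat_lit 0, nat_lit 0, nat_lit 0, nat_lit 0, nat_lit 0, nat_lit 0, nat_lit 0, nat_lit 0, nat_lit 0, nat_lit 0, nat_lit 0, nat_lit 0, nat_lit 0, nat_lit 0, nat_lit 0, nat_lit 0, nat_lit 0, nat_lit 0, [],
 ⟨p008_k1, nat_lit 0, nat_lit 0, nat_lit 0, nat_lit 0, nat_lit 329842, [], [], [], nat_lit 1271250, nat_lit 1271250, nat_lit 43600, nat_lit 230001, nat_lit 0, nat_lit 0, [nat_lit 1100000, nat_lit 1271250, nat_lit 1271250], [nat_lit 124, nat_lit 40, nat_lit 20, nat_lit 40]⟩, C1.Rw.none,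
 zbF0, []⟩
noncomputable def p008_l192 : Lf2 := ⟨nat_lit 2, nat_lit 1, [nat_lit 19, nat_lit 5, nat_lit 5, nat_lit 20], true, nat_lit 0, nat_lit 0, nat_lit 0, nat_lit 0, zbN0,
 nat_lit 0, nat_lit 0, nat_lit 0, nat_lit 0, nat_lit 0, nat_lit 0, nat_lit 0, nat_lit 0, nat_lit 0, nat_lit 0, nat_lit 0, nat_lit 0, nat_lit 0, nat_lit 0, nat_lit 0, nat_lit 0, nat_lit 0, nat_lit 0, [],
 ⟨p008_k0, nat_lit 0, nat_lit 0, nat_lit 291, nat_lit 0, nat_lit 329842, [], [], [], nat_lit 1271250, nat_lit 1271250, nat_lit 43600, nat_lit 230001, nat_lit 0, nat_lit 0, [nat_lit 1100000, nat_lit 1442500], [nat_lit 31, nat_lit 40, nat_lit 20, nat_lit 80, nat_lit 3, nat_lit 215, nat_lit 10, nat_lit 9]⟩, C1.Rw.none,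
 zbF0, []⟩
noncomputable def p008_l193 : Lf2 := ⟨nat_lit 0, nat_lit 1, [nat_lit 19, nat_lit 5, nat_lit 5, nat_lit 20], false, nat_lit 0, nat_lit 0, nat_lit 0, nat_lit 0, ⟨nat_lit 1000, nat_lit 0, nat_lit 0, nat_lit 0, nat_lit 0, nat_lit 0, nat_lit 0, nat_lit 0, nat_lit 0, nat_lit 0, nat_lit 0, nat_lit 0, nat_lit 0, nat_lit 0, nat_lit 0, nat_lit 0, false, false⟩,
 nat_lit 0, nat_lit 7883, nat_lit 0, nat_lit 0, nat_lit 4173, nat_lit 72968, nat_lit 0, nat_lit 0, nat_lit 0, nat_lit 60000, nat_lit 6020, nat_lit 0, nat_lit 0, nat_lit 0, nat_lit 0, nat_lit 0, nat_lit 0, nat_lit 0, [],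
 ⟨p008_k0, nat_lit 0, nat_lit 0, nat_lit 291, nat_lit 0, nat_lit 329842, [nat_lit 4688000000, nat_lit 6250000000], [], [nat_lit 36701237277, nat_lit 37142537411, nat_lit 35961832520, nat_lit 36394692356], nat_lit 1271250, nat_lit 1271250, nat_lit 43600, nat_lit 230001, nat_lit 0, nat_lit 0, [nat_lit 1100000, nat_lit 1442500], [nat_lit 31, nat_lit 40, nat_lit 20, nat_lit 80, nat_lit 3, nat_lit 215, nat_lit 10, nat_lit 9]⟩, ⟨p008_k56, nat_lit 0, nat_lit 0, nat_lit 0, nat_lit 0, nat_lit 0, [nat_lit 75522000000, nat_lit 126650000000, nat_lit 152448000000], [], [nat_lit 145317468301, nat_lit 150548034631, nat_lit 116616648560, nat_lit 122192079320], nat_lit 0, nat_lit 0, nat_lit 0, nat_lit 0, nat_lit 0, nat_lit 0, [], [nat_lit 18, nat_lit 40, nat_lit 20, nat_lit 80]⟩,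
 zbF0, [⟨nat_lit 0, nat_lit 100, nat_lit 98, nat_lit 35, nat_lit 5464998466⟩]⟩
noncomputable def p008_l194 : Lf2 := ⟨nat_lit 0, nat_lit 2, [nat_lit 10, nat_lit 5, nat_lit 5, nat_lit 20], true, nat_lit 0, nat_lit 0, nat_lit 0, nat_lit 0, ⟨nat_lit 0, nat_lit 0, nat_lit 1000, nat_lit 5, nat_lit 67, nat_lit 0, nat_lit 0, nat_lit 0, nat_lit 0, nat_lit 215, nat_lit 41667, nat_lit 265, nat_lit 65185925, nat_lit 0, nat_lit 0, nat_lit 622097, false, false⟩,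
 nat_lit 0, nat_lit 100000, nat_lit 0, nat_lit 0, nat_lit 52941, nat_lit 0, nat_lit 0, nat_lit 3136, nat_lit 0, nat_lit 0, nat_lit 0, nat_lit 0, nat_lit 0, nat_lit 0, nat_lit 0, nat_lit 1000000, nat_lit 0, nat_lit 0, [(nat_lit 6, [(nat_lit 6, nat_lit 1000)])],
 ⟨p008_k9, nat_lit 0, nat_lit 0, nat_lit 314, nat_lit 0, nat_lit 269278, [nat_lit 51153066667, nat_lit 62528000001, nat_lit 73555199999], [], [nat_lit 154854449460, nat_lit 151824678003, nat_lit 135763040988, nat_lit 136746260181], nat_lit 1271250, nat_lit 1271250, nat_lit 43600, nat_lit 230001, nat_lit 0, nat_lit 0, [nat_lit 1100000, nat_lit 1442500, nat_lit 1271250], [nat_lit 9, nat_lit 40, nat_lit 20, nat_lit 80, nat_lit 2, nat_lit 215, nat_lit 10, nat_lit 8]⟩, C1.Rw.none,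
 ⟨nat_lit 6224, nat_lit 6325, ⟨.ofNat (nat_lit 126498), .ofNat (nat_lit 192309), .ofNat (nat_lit 137182), .ofNat (nat_lit 202993), .ofNat (nat_lit 131030), .ofNat (nat_lit 196084), .ofNat (nat_lit 141709), .ofNat (nat_lit 206763)⟩, ⟨.ofNat (nat_lit 0), .ofNat (nat_lit 0), .ofNat (nat_lit 0), .ofNat (nat_lit 0), .ofNat (nat_lit 0), .ofNat (nat_lit 0), .ofNat (nat_lit 0), .ofNat (nat_lit 0)⟩⟩, [⟨nat_lit 0, nat_lit 100, nat_lit 98, nat_lit 34, nat_lit 2511462455⟩]⟩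
noncomputable def p008_l195 : Lf2 := ⟨nat_lit 0, nat_lit 2, [nat_lit 10, nat_lit 5, nat_lit 5, nat_lit 20], true, nat_lit 0, nat_lit 0, nat_lit 0, nat_lit 0, ⟨nat_lit 0, nat_lit 0, nat_lit 1000, nat_lit 5, nat_lit 68, nat_lit 0, nat_lit 0, nat_lit 0, nat_lit 0, nat_lit 215, nat_lit 43350, nat_lit 266, nat_lit 65097540, nat_lit 0, nat_lit 0, nat_lit 645561, false, false⟩,
 nat_lit 0, nat_lit 100000, nat_lit 0, nat_lit 0, nat_lit 54243, nat_lit 0, nat_lit 19532, nat_lit 2542, nat_lit 0, nat_lit 0, nat_lit 0, nat_lit 0, nat_lit 0, nat_lit 0, nat_lit 0, nat_lit 1000000, nat_lit 0, nat_lit 0, [(nat_lit 6, [(nat_lit 6, nat_lit 1000)])],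
 ⟨p008_k13, nat_lit 0, nat_lit 0, nat_lit 322, nat_lit 0, nat_lit 283684, [nat_lit 41649066667, nat_lit 50648000001, nat_lit 59299199999], [], [nat_lit 105701542923, nat_lit 98764562958, nat_lit 62675922784, nat_lit 61129382566], nat_lit 1271250, nat_lit 1271250, nat_lit 43600, nat_lit 230001, nat_lit 0, nat_lit 0, [nat_lit 1100000, nat_lit 1442500, nat_lit 1271250], [nat_lit 9, nat_lit 40, nat_lit 20, nat_lit 80, nat_lit 2, nat_lit 215, nat_lit 10, nat_lit 8]⟩, C1.Rw.none,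
 ⟨nat_lit 6123, nat_lit 6225, ⟨.ofNat (nat_lit 131030), .ofNat (nat_lit 196084), .ofNat (nat_lit 141709), .ofNat (nat_lit 206763), .ofNat (nat_lit 135519), .ofNat (nat_lit 199824), .ofNat (nat_lit 146193), .ofNat (nat_lit 210498)⟩, ⟨.ofNat (nat_lit 0), .ofNat (nat_lit 0), .ofNat (nat_lit 0), .ofNat (nat_lit 0), .ofNat (nat_lit 0), .ofNat (nat_lit 0), .ofNat (nat_lit 0), .ofNat (nat_lit 0)⟩⟩, [⟨nat_lit 0, nat_lit 100, nat_lit 98, nat_lit 36, nat_lit 6968209953⟩]⟩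
noncomputable def p008_l196 : Lf2 := ⟨nat_lit 0, nat_lit 2, [nat_lit 10, nat_lit 5, nat_lit 5, nat_lit 20], false, nat_lit 0, nat_lit 0, nat_lit 0, nat_lit 0, ⟨nat_lit 0, nat_lit 0, nat_lit 1000, nat_lit 5, nat_lit 68, nat_lit 0, nat_lit 0, nat_lit 0, nat_lit 0, nat_lit 215, nat_lit 43350, nat_lit 266, nat_lit 65142181, nat_lit 0, nat_lit 0, nat_lit 633750, false, false⟩,
 nat_lit 0, nat_lit 14505, nat_lit 0, nat_lit 0, nat_lit 7678, nat_lit 100000, nat_lit 0, nat_lit 0, nat_lit 0, nat_lit 2768, nat_lit 9102, nat_lit 0, nat_lit 0, nat_lit 0, nat_lit 41, nat_lit 400000, nat_lit 0, nat_lit 0, [(nat_lit 6, [(nat_lit 5, nat_lit 1000)])],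
 ⟨p008_k47, nat_lit 0, nat_lit 0, nat_lit 368, nat_lit 0, nat_lit 336185, [nat_lit 2073600001, nat_lit 7600000], [], [nat_lit 18460534971, nat_lit 19950586928, nat_lit 18985626811, nat_lit 17151782579], nat_lit 1271250, nat_lit 1271250, nat_lit 43600, nat_lit 230001, nat_lit 0, nat_lit 0, [nat_lit 1100000, nat_lit 1785000], [nat_lit 39, nat_lit 40, nat_lit 20, nat_lit 80, nat_lit 7, nat_lit 215, nat_lit 10, nat_lit 8]⟩, ⟨p008_k57, nat_lit 0, nat_lit 0, nat_lit 0, nat_lit 0, nat_lit 0, [nat_lit 109224000000, nat_lit 182040000000, nat_lit 218448000000], [], [nat_lit 256136580000, nat_lit 262238380000, nat_lit 216441300000, nat_lit 222496500000], nat_lit 0, nat_lit 0, nat_lit 0, nat_lit 0, nat_lit 0, nat_lit 0, [], [nat_lit 18, nat_lit 40, nat_lit 20, nat_lit 80]⟩,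
 ⟨nat_lit 6123, nat_lit 6325, ⟨.ofNat (nat_lit 126498), .ofNat (nat_lit 192309), .ofNat (nat_lit 137182), .ofNat (nat_lit 202993), .ofNat (nat_lit 135519), .ofNat (nat_lit 199824), .ofNat (nat_lit 146193), .ofNat (nat_lit 210498)⟩, ⟨.ofNat (nat_lit 0), .ofNat (nat_lit 0), .ofNat (nat_lit 0), .ofNat (nat_lit 0), .ofNat (nat_lit 0), .ofNat (nat_lit 0), .ofNat (nat_lit 0), .ofNat (nat_lit 0)⟩⟩, [⟨nat_lit 0, nat_lit 100, nat_lit 98, nat_lit 35, nat_lit 6362613019⟩]⟩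
noncomputable def b_NL_600_550_0_2 : St := ⟨false, nat_lit 1, nat_lit 0, nat_lit 1, nat_lit 20, nat_lit 240, nat_lit 250, nat_lit 220, nat_lit 230, nat_lit 8, nat_lit 40, nat_lit 0, nat_lit 0, nat_lit 0, nat_lit 0, nat_lit 0, nat_lit 0, nat_lit 0, nat_lit 8, nat_lit 0, nat_lit 0, nat_lit 200, nat_lit 400⟩
theorem d_NL_600_550_0_2 (h : EB TB.env) : Dead b_NL_600_550_0_2 := chkB_sound0 h (T :=
(.spl (nat_lit 8) (nat_lit 300)
(.spl (nat_lit 7) (nat_lit 600)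
(.spl (nat_lit 0) (nat_lit 245)
(.spl (nat_lit 6) (nat_lit 4)
(.spl (nat_lit 0) (nat_lit 243)
(.spl (nat_lit 2) (nat_lit 20)
(.leaf p008_l185)
(.leaf p008_l186))
(.leaf p008_l187))
(.leaf p008_l188))
(.leaf p008_l189))
(.spl (nat_lit 6) (nat_lit 4)
(.spl (nat_lit 8) (nat_lit 260)
(.spl (nat_lit 7) (nat_lit 900)
(.spl (nat_lit 7) (nat_lit 760)
(.leaf p008_l190)
(.leaf p008_l191))
(.leaf p008_l192))
(.leaf p008_l193))
(.spl (nat_lit 0) (nat_lit 245)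
(.leaf p008_l194)
(.leaf p008_l195))))
(.leaf p008_l196))) (by decide +kernel)
noncomputable def p008_l197 : Lf2 := ⟨nat_lit 0, nat_lit 1, [nat_lit 19, nat_lit 5, nat_lit 5, nat_lit 20], false, nat_lit 0, nat_lit 0, nat_lit 0, nat_lit 0, ⟨nat_lit 1000, nat_lit 0, nat_lit 0, nat_lit 0, nat_lit 0, nat_lit 0, nat_lit 0, nat_lit 0, nat_lit 0, nat_lit 0, nat_lit 0, nat_lit 0, nat_lit 0, nat_lit 0, nat_lit 0, nat_lit 0, false, false⟩,
 nat_lit 0, nat_lit 100000, nat_lit 0, nat_lit 0, nat_lit 52941, nat_lit 21336, nat_lit 0, nat_lit 0, nat_lit 0, nat_lit 23267, nat_lit 626, nat_lit 0, nat_lit 0, nat_lit 0, nat_lit 0, nat_lit 0, nat_lit 32332566787, nat_lit 0, [],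
 ⟨p008_k1, nat_lit 0, nat_lit 0, nat_lit 0, nat_lit 0, nat_lit 344792, [nat_lit 4688000000, nat_lit 5449500000, nat_lit 6250000000], [], [nat_lit 6981646828, nat_lit 553005316, nat_lit 6410599219, nat_lit 0], nat_lit 1271250, nat_lit 1271250, nat_lit 65850, nat_lit 111251, nat_lit 0, nat_lit 0, [nat_lit 1100000, nat_lit 1271250, nat_lit 1271250], [nat_lit 124, nat_lit 40, nat_lit 20, nat_lit 40]⟩, ⟨p008_k58, nat_lit 0, nat_lit 0, nat_lit 0, nat_lit 0, nat_lit 0, [nat_lit 16717500000, nat_lit 18770000000, nat_lit 20861500000], [], [nat_lit 27115529852, nat_lit 29181599981, nat_lit 24311652608, nat_lit 26067386880], nat_lit 0, nat_lit 0, nat_lit 0, nat_lit 0, nat_lit 0, nat_lit 0, [], [nat_lit 188, nat_lit 40, nat_lit 20, nat_lit 40]⟩,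
 zbF0, [⟨nat_lit 0, nat_lit 100, nat_lit 99, nat_lit 39, nat_lit 3144658036⟩]⟩
noncomputable def p008_l198 : Lf2 := ⟨nat_lit 2, nat_lit 1, [nat_lit 19, nat_lit 5, nat_lit 5, nat_lit 20], true, nat_lit 0, nat_lit 0, nat_lit 0, nat_lit 0, zbN0,
 nat_lit 0, nat_lit 0, nat_lit 0, nat_lit 0, nat_lit 0, nat_lit 0, nat_lit 0, nat_lit 0, nat_lit 0, nat_lit 0, nat_lit 0, nat_lit 0, nat_lit 0, nat_lit 0, nat_lit 0, nat_lit 0, nat_lit 0, nat_lit 0, [],
 ⟨p008_k0, nat_lit 0, nat_lit 0, nat_lit 290, nat_lit 0, nat_lit 344792, [], [], [], nat_lit 1271250, nat_lit 1271250, nat_lit 65850, nat_lit 111251, nat_lit 0, nat_lit 0, [nat_lit 1100000, nat_lit 1442500], [nat_lit 31, nat_lit 40, nat_lit 20, nat_lit 80, nat_lit 3, nat_lit 215, nat_lit 10, nat_lit 9]⟩, C1.Rw.none,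
 zbF0, []⟩
noncomputable def p008_l199 : Lf2 := ⟨nat_lit 0, nat_lit 1, [nat_lit 19, nat_lit 5, nat_lit 5, nat_lit 20], false, nat_lit 0, nat_lit 0, nat_lit 0, nat_lit 0, ⟨nat_lit 1000, nat_lit 0, nat_lit 0, nat_lit 0, nat_lit 0, nat_lit 0, nat_lit 0, nat_lit 0, nat_lit 0, nat_lit 0, nat_lit 0, nat_lit 0, nat_lit 0, nat_lit 0, nat_lit 0, nat_lit 0, false, false⟩,
 nat_lit 0, nat_lit 8101, nat_lit 0, nat_lit 0, nat_lit 4288, nat_lit 100000, nat_lit 0, nat_lit 0, nat_lit 0, nat_lit 53146, nat_lit 8113, nat_lit 0, nat_lit 0, nat_lit 0, nat_lit 0, nat_lit 0, nat_lit 0, nat_lit 0, [],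
 ⟨p008_k0, nat_lit 0, nat_lit 0, nat_lit 290, nat_lit 0, nat_lit 344792, [nat_lit 4688000000, nat_lit 6250000000], [], [nat_lit 36282728308, nat_lit 36505276195, nat_lit 36000976000, nat_lit 36222804260], nat_lit 1271250, nat_lit 1271250, nat_lit 65850, nat_lit 111251, nat_lit 0, nat_lit 0, [nat_lit 1100000, nat_lit 1442500], [nat_lit 31, nat_lit 40, nat_lit 20, nat_lit 80, nat_lit 3, nat_lit 215, nat_lit 10, nat_lit 9]⟩, ⟨p008_k59, nat_lit 0, nat_lit 0, nat_lit 0, nat_lit 0, nat_lit 0, [nat_lit 100638000000, nat_lit 168510000000, nat_lit 202680000000], [], [nat_lit 189807525600, nat_lit 198095808001, nat_lit 174963857250, nat_lit 183152224000], nat_lit 0, nat_lit 0, nat_lit 0, nat_lit 0, nat_lit 0, nat_lit 0, [], [nat_lit 18, nat_lit 40, nat_lit 20, nat_lit 80]⟩,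
 zbF0, [⟨nat_lit 0, nat_lit 100, nat_lit 99, nat_lit 39, nat_lit 5774059201⟩, ⟨nat_lit 0, nat_lit 100, nat_lit 99, nat_lit 35, nat_lit 4604758592⟩]⟩
noncomputable def p008_l200 : Lf2 := ⟨nat_lit 0, nat_lit 1, [nat_lit 19, nat_lit 5, nat_lit 5, nat_lit 20], false, nat_lit 0, nat_lit 0, nat_lit 0, nat_lit 0, ⟨nat_lit 0, nat_lit 0, nat_lit 1000, nat_lit 5, nat_lit 64, nat_lit 0, nat_lit 0, nat_lit 0, nat_lit 0, nat_lit 215, nat_lit 38400, nat_lit 263, nat_lit 65304222, nat_lit 0, nat_lit 0, nat_lit 590171, false, false⟩,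
 nat_lit 0, nat_lit 1808, nat_lit 0, nat_lit 0, nat_lit 957, nat_lit 100000, nat_lit 0, nat_lit 0, nat_lit 0, nat_lit 60000, nat_lit 8639, nat_lit 0, nat_lit 0, nat_lit 0, nat_lit 10, nat_lit 1000000, nat_lit 0, nat_lit 0, [(nat_lit 6, [(nat_lit 6, nat_lit 1000)])],
 ⟨p008_k0, nat_lit 0, nat_lit 0, nat_lit 290, nat_lit 0, nat_lit 344792, [nat_lit 1137066667, nat_lit 8000000], [], [nat_lit 21908346607, nat_lit 21859908268, nat_lit 21708511585, nat_lit 21880243079], nat_lit 1271250, nat_lit 1271250, nat_lit 65850, nat_lit 111251, nat_lit 0, nat_lit 0, [nat_lit 1100000, nat_lit 1442500], [nat_lit 31, nat_lit 40, nat_lit 20, nat_lit 80, nat_lit 3, nat_lit 215, nat_lit 10, nat_lit 9]⟩, ⟨p008_k59, nat_lit 0, nat_lit 0, nat_lit 0, nat_lit 0, nat_lit 0, [nat_lit 103668000000, nat_lit 172780000000, nat_lit 207336000000], [], [nat_lit 183329420000, nat_lit 191239280001, nat_lit 168977100000,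 nat_lit 176208400000], nat_lit 0, nat_lit 0, nat_lit 0, nat_lit 0, nat_lit 0, nat_lit 0, [], [nat_lit 18, nat_lit 40, nat_lit 20, nat_lit 80]⟩,
 ⟨nat_lit 6224, nat_lit 6325, ⟨.ofNat (nat_lit 145408), .ofNat (nat_lit 161861), .ofNat (nat_lit 156092), .ofNat (nat_lit 172545), .ofNat (nat_lit 149840), .ofNat (nat_lit 166104), .ofNat (nat_lit 160519), .ofNat (nat_lit 176782)⟩, ⟨.ofNat (nat_lit 0), .ofNat (nat_lit 0), .ofNat (nat_lit 0), .ofNat (nat_lit 0), .ofNat (nat_lit 0), .ofNat (nat_lit 0), .ofNat (nat_lit 0), .ofNat (nat_lit 0)⟩⟩, [⟨nat_lit 0, nat_lit 100, nat_lit 99, nat_lit 35, nat_lit 10101010101⟩, ⟨nat_lit 13, nat_lit 99, nat_lit 4, nat_lit 100, nat_lit 12160711⟩]⟩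
noncomputable def p008_l201 : Lf2 := ⟨nat_lit 0, nat_lit 1, [nat_lit 19, nat_lit 5, nat_lit 5, nat_lit 20], false, nat_lit 0, nat_lit 0, nat_lit 0, nat_lit 0, ⟨nat_lit 1000, nat_lit 0, nat_lit 0, nat_lit 0, nat_lit 0, nat_lit 0, nat_lit 0, nat_lit 0, nat_lit 0, nat_lit 0, nat_lit 0, nat_lit 0, nat_lit 0, nat_lit 0, nat_lit 0, nat_lit 0, false, false⟩,
 nat_lit 0, nat_lit 100000, nat_lit 0, nat_lit 0, nat_lit 54243, nat_lit 5506, nat_lit 60000, nat_lit 0, nat_lit 0, nat_lit 3878, nat_lit 0, nat_lit 0, nat_lit 0, nat_lit 0, nat_lit 0, nat_lit 0, nat_lit 52749502504, nat_lit 0, [],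
 ⟨p008_k25, nat_lit 0, nat_lit 0, nat_lit 289, nat_lit 0, nat_lit 356129, [nat_lit 4688000000, nat_lit 6250000000], [], [nat_lit 7016561435, nat_lit 475625886, nat_lit 6522720750, nat_lit 0], nat_lit 1271250, nat_lit 1271250, nat_lit 65850, nat_lit 111251, nat_lit 0, nat_lit 0, [nat_lit 1100000, nat_lit 1442500], [nat_lit 31, nat_lit 40, nat_lit 20, nat_lit 80, nat_lit 3, nat_lit 215, nat_lit 10, nat_lit 9]⟩, ⟨p008_k59, nat_lit 0, nat_lit 0, nat_lit 0, nat_lit 0, nat_lit 0, [nat_lit 3282000000, nat_lit 6250000000, nat_lit 7968000000], [], [nat_lit 17657849598, nat_lit 18392895957, nat_lit 16921367594, nat_lit 17652741552], nat_lit 0, nat_lit 0, nat_lit 0, nat_lit 0, nat_lit 0, nat_lit 0, [], [nat_lit 18, nat_lit 40, nat_lit 20, nat_lit 80]⟩,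
 zbF0, [⟨nat_lit 0, nat_lit 100, nat_lit 99, nat_lit 41, nat_lit 1585634894⟩]⟩
noncomputable def p008_l202 : Lf2 := ⟨nat_lit 0, nat_lit 1, [nat_lit 19, nat_lit 5, nat_lit 5, nat_lit 20], false, nat_lit 0, nat_lit 0, nat_lit 0, nat_lit 0, ⟨nat_lit 1000, nat_lit 0, nat_lit 0, nat_lit 0, nat_lit 0, nat_lit 0, nat_lit 0, nat_lit 0, nat_lit 0, nat_lit 0, nat_lit 0, nat_lit 0, nat_lit 0, nat_lit 0, nat_lit 0, nat_lit 0, false, false⟩,
 nat_lit 0, nat_lit 8567, nat_lit 0, nat_lit 0, nat_lit 4535, nat_lit 5506, nat_lit 0, nat_lit 0, nat_lit 0, nat_lit 3878, nat_lit 0, nat_lit 0, nat_lit 0, nat_lit 0, nat_lit 0, nat_lit 0, nat_lit 0, nat_lit 0, [],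
 ⟨p008_k0, nat_lit 0, nat_lit 0, nat_lit 288, nat_lit 0, nat_lit 365007, [nat_lit 4688000000, nat_lit 6250000000], [], [nat_lit 35371496500, nat_lit 35824795900, nat_lit 34982709400, nat_lit 35429373020], nat_lit 1271250, nat_lit 1271250, nat_lit 111251, nat_lit 230001, nat_lit 0, nat_lit 0, [nat_lit 1100000, nat_lit 1442500], [nat_lit 31, nat_lit 40, nat_lit 20, nat_lit 80, nat_lit 3, nat_lit 215, nat_lit 10, nat_lit 9]⟩, ⟨p008_k59, nat_lit 0, nat_lit 0, nat_lit 0, nat_lit 0, nat_lit 0, [nat_lit 3282000000, nat_lit 6250000000, nat_lit 7968000000], [], [nat_lit 16921367594, nat_lit 17652741552, nat_lit 16106499940, nat_lit 16853675360], nat_lit 0, nat_lit 0, nat_lit 0, nat_lit 0, nat_lit 0, nat_lit 0, [], [nat_lit 18, nat_lit 40, nat_lit 20, nat_lit 80]⟩,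
 zbF0, []⟩
noncomputable def b_NL_600_550_0_3 : St := ⟨false, nat_lit 1, nat_lit 0, nat_lit 1, nat_lit 20, nat_lit 240, nat_lit 250, nat_lit 230, nat_lit 240, nat_lit 12, nat_lit 40, nat_lit 0, nat_lit 0, nat_lit 0, nat_lit 0, nat_lit 0, nat_lit 0, nat_lit 0, nat_lit 4, nat_lit 600, nat_lit 0, nat_lit 200, nat_lit 300⟩
theorem d_NL_600_550_0_3 (h : EB TB.env) : Dead b_NL_600_550_0_3 := chkB_sound0 h (T :=
(.spl (nat_lit 2) (nat_lit 20)
(.spl (nat_lit 0) (nat_lit 245)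
(.spl (nat_lit 8) (nat_lit 260)
(.spl (nat_lit 8) (nat_lit 240)
(.spl (nat_lit 7) (nat_lit 900)
(.leaf p008_l197)
(.leaf p008_l198))
(.leaf p008_l199))
(.leaf p008_l200))
(.leaf p008_l201))
(.leaf p008_l202))) (by decide +kernel)
noncomputable def p008_l203 : Lf2 := ⟨nat_lit 0, nat_lit 2, [nat_lit 10, nat_lit 5, nat_lit 5, nat_lit 20], true, nat_lit 0, nat_lit 0, nat_lit 0, nat_lit 0, ⟨nat_lit 0, nat_lit 0, nat_lit 1000, nat_lit 5, nat_lit 72, nat_lit 0, nat_lit 0, nat_lit 0, nat_lit 0, nat_lit 215, nat_lit 48600, nat_lit 269, nat_lit 64886262, nat_lit 0, nat_lit 0, nat_lit 700397, false, false⟩,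
 nat_lit 0, nat_lit 100000, nat_lit 0, nat_lit 0, nat_lit 52941, nat_lit 0, nat_lit 0, nat_lit 3142, nat_lit 0, nat_lit 0, nat_lit 0, nat_lit 0, nat_lit 0, nat_lit 0, nat_lit 0, nat_lit 1000000, nat_lit 0, nat_lit 0, [(nat_lit 6, [(nat_lit 6, nat_lit 1000)])],
 ⟨p008_k9, nat_lit 0, nat_lit 0, nat_lit 309, nat_lit 0, nat_lit 274793, [nat_lit 51249066667, nat_lit 62648000001, nat_lit 73699199999], [], [nat_lit 149738754691, nat_lit 149172300757, nat_lit 136243040988, nat_lit 136439684827], nat_lit 1271250, nat_lit 1271250, nat_lit 65850, nat_lit 230001, nat_lit 0, nat_lit 0, [nat_lit 1100000, nat_lit 1442500, nat_lit 1271250], [nat_lit 9, nat_lit 40, nat_lit 20, nat_lit 80, nat_lit 2, nat_lit 215, nat_lit 10, nat_lit 8]⟩, C1.Rw.none,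
 ⟨nat_lit 6304, nat_lit 6325, ⟨.ofNat (nat_lit 150750), .ofNat (nat_lit 208335), .ofNat (nat_lit 151819), .ofNat (nat_lit 209404), .ofNat (nat_lit 151640), .ofNat (nat_lit 209091), .ofNat (nat_lit 152708), .ofNat (nat_lit 210160)⟩, ⟨.ofNat (nat_lit 0), .ofNat (nat_lit 0), .ofNat (nat_lit 0), .ofNat (nat_lit 0), .ofNat (nat_lit 0), .ofNat (nat_lit 0), .ofNat (nat_lit 0), .ofNat (nat_lit 0)⟩⟩, [⟨nat_lit 0, nat_lit 100, nat_lit 100, nat_lit 38, nat_lit 2383867086⟩]⟩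
noncomputable def p008_l204 : Lf2 := ⟨nat_lit 2, nat_lit 2, [nat_lit 10, nat_lit 5, nat_lit 5, nat_lit 20], true, nat_lit 0, nat_lit 0, nat_lit 0, nat_lit 0, zbN0,
 nat_lit 0, nat_lit 0, nat_lit 0, nat_lit 0, nat_lit 0, nat_lit 0, nat_lit 0, nat_lit 0, nat_lit 0, nat_lit 0, nat_lit 0, nat_lit 0, nat_lit 0, nat_lit 0, nat_lit 0, nat_lit 0, nat_lit 0, nat_lit 0, [],
 ⟨p008_k26, nat_lit 0, nat_lit 0, nat_lit 0, nat_lit 0, nat_lit 278628, [], [], [], nat_lit 1271250, nat_lit 1271250, nat_lit 65850, nat_lit 230001, nat_lit 0, nat_lit 0, [nat_lit 1100000, nat_lit 1271250, nat_lit 1271250], [nat_lit 105, nat_lit 40, nat_lit 20, nat_lit 40]⟩, C1.Rw.none,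
 zbF0, []⟩
noncomputable def p008_l205 : Lf2 := ⟨nat_lit 2, nat_lit 2, [nat_lit 10, nat_lit 5, nat_lit 5, nat_lit 20], true, nat_lit 0, nat_lit 0, nat_lit 0, nat_lit 0, zbN0,
 nat_lit 0, nat_lit 0, nat_lit 0, nat_lit 0, nat_lit 0, nat_lit 0, nat_lit 0, nat_lit 0, nat_lit 0, nat_lit 0, nat_lit 0, nat_lit 0, nat_lit 0, nat_lit 0, nat_lit 0, nat_lit 0, nat_lit 0, nat_lit 0, [],
 ⟨p008_k47, nat_lit 0, nat_lit 0, nat_lit 296, nat_lit 0, nat_lit 278628, [], [], [], nat_lit 1271250, nat_lit 1271250, nat_lit 65850, nat_lit 230001, nat_lit 0, nat_lit 0, [nat_lit 1100000, nat_lit 1785000], [nat_lit 39, nat_lit 40, nat_lit 20, nat_lit 80, nat_lit 7, nat_lit 215, nat_lit 10, nat_lit 8]⟩, C1.Rw.none,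
 zbF0, []⟩
noncomputable def p008_l206 : Lf2 := ⟨nat_lit 2, nat_lit 2, [nat_lit 10, nat_lit 5, nat_lit 5, nat_lit 20], true, nat_lit 0, nat_lit 0, nat_lit 0, nat_lit 0, zbN0,
 nat_lit 0, nat_lit 0, nat_lit 0, nat_lit 0, nat_lit 0, nat_lit 0, nat_lit 0, nat_lit 0, nat_lit 0, nat_lit 0, nat_lit 0, nat_lit 0, nat_lit 0, nat_lit 0, nat_lit 0, nat_lit 0, nat_lit 0, nat_lit 0, [],
 ⟨p008_k26, nat_lit 0, nat_lit 0, nat_lit 0, nat_lit 0, nat_lit 278628, [], [], [], nat_lit 1271250, nat_lit 1271250, nat_lit 65850, nat_lit 88400, nat_lit 0, nat_lit 0, [nat_lit 1100000, nat_lit 1271250, nat_lit 1271250], [nat_lit 105, nat_lit 40, nat_lit 20, nat_lit 40]⟩, C1.Rw.none,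
 zbF0, []⟩
noncomputable def p008_l207 : Lf2 := ⟨nat_lit 2, nat_lit 2, [nat_lit 10, nat_lit 5, nat_lit 5, nat_lit 20], true, nat_lit 0, nat_lit 0, nat_lit 0, nat_lit 0, zbN0,
 nat_lit 0, nat_lit 0, nat_lit 0, nat_lit 0, nat_lit 0, nat_lit 0, nat_lit 0, nat_lit 0, nat_lit 0, nat_lit 0, nat_lit 0, nat_lit 0, nat_lit 0, nat_lit 0, nat_lit 0, nat_lit 0, nat_lit 0, nat_lit 0, [],
 ⟨p008_k47, nat_lit 0, nat_lit 0, nat_lit 296, nat_lit 0, nat_lit 278628, [], [], [], nat_lit 1271250, nat_lit 1271250, nat_lit 65850, nat_lit 88400, nat_lit 0, nat_lit 0, [nat_lit 1100000, nat_lit 1785000], [nat_lit 39, nat_lit 40, nat_lit 20, nat_lit 80, nat_lit 7, nat_lit 215, nat_lit 10, nat_lit 8]⟩, C1.Rw.none,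
 zbF0, []⟩
noncomputable def p008_l208 : Lf2 := ⟨nat_lit 0, nat_lit 2, [nat_lit 10, nat_lit 5, nat_lit 5, nat_lit 20], true, nat_lit 0, nat_lit 0, nat_lit 0, nat_lit 0, ⟨nat_lit 0, nat_lit 0, nat_lit 1000, nat_lit 5, nat_lit 66, nat_lit 0, nat_lit 0, nat_lit 0, nat_lit 0, nat_lit 215, nat_lit 41667, nat_lit 265, nat_lit 65221691, nat_lit 0, nat_lit 0, nat_lit 612509, false, false⟩,
 nat_lit 0, nat_lit 100000, nat_lit 0, nat_lit 0, nat_lit 52941, nat_lit 0, nat_lit 0, nat_lit 3004, nat_lit 0, nat_lit 0, nat_lit 0, nat_lit 0, nat_lit 0, nat_lit 0, nat_lit 0, nat_lit 1000000, nat_lit 0, nat_lit 0, [(nat_lit 6, [(nat_lit 6, nat_lit 1000)])],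
 ⟨p008_k9, nat_lit 0, nat_lit 0, nat_lit 305, nat_lit 0, nat_lit 278628, [nat_lit 49041066667, nat_lit 59888000000, nat_lit 70387200000], [], [nat_lit 136559059920, nat_lit 135808184567, nat_lit 133283017487, nat_lit 133484068377], nat_lit 1271250, nat_lit 1271250, nat_lit 88400, nat_lit 111251, nat_lit 0, nat_lit 0, [nat_lit 1100000, nat_lit 1442500, nat_lit 1271250], [nat_lit 9, nat_lit 40, nat_lit 20, nat_lit 80, nat_lit 2, nat_lit 215, nat_lit 10, nat_lit 8]⟩, C1.Rw.none,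
 ⟨nat_lit 6304, nat_lit 6325, ⟨.ofNat (nat_lit 160045), .ofNat (nat_lit 168272), .ofNat (nat_lit 161114), .ofNat (nat_lit 169340), .ofNat (nat_lit 160915), .ofNat (nat_lit 169123), .ofNat (nat_lit 161984), .ofNat (nat_lit 170191)⟩, ⟨.ofNat (nat_lit 0), .ofNat (nat_lit 0), .ofNat (nat_lit 0), .ofNat (nat_lit 0), .ofNat (nat_lit 0), .ofNat (nat_lit 0), .ofNat (nat_lit 0), .ofNat (nat_lit 0)⟩⟩, []⟩
noncomputable def p008_l209 : Lf2 := ⟨nat_lit 0, nat_lit 2, [nat_lit 10, nat_lit 5, nat_lit 5, nat_lit 20], true, nat_lit 0, nat_lit 0, nat_lit 0, nat_lit 0, ⟨nat_lit 0, nat_lit 0, nat_lit 1000, nat_lit 5, nat_lit 76, nat_lit 0, nat_lit 0, nat_lit 0, nat_lit 0, nat_lit 215, nat_lit 54150, nat_lit 272, nat_lit 64670936, nat_lit 0, nat_lit 0, nat_lit 754605, false, false⟩,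
 nat_lit 0, nat_lit 100000, nat_lit 0, nat_lit 0, nat_lit 52941, nat_lit 0, nat_lit 0, nat_lit 2874, nat_lit 0, nat_lit 0, nat_lit 0, nat_lit 0, nat_lit 0, nat_lit 0, nat_lit 0, nat_lit 1000000, nat_lit 0, nat_lit 0, [(nat_lit 6, [(nat_lit 6, nat_lit 1000)])],
 ⟨p008_k9, nat_lit 0, nat_lit 0, nat_lit 300, nat_lit 0, nat_lit 278628, [nat_lit 46961066667, nat_lit 57288000001, nat_lit 67267199999], [], [nat_lit 123827365153, nat_lit 123084068378, nat_lit 114803040988, nat_lit 114999684827], nat_lit 1271250, nat_lit 1271250, nat_lit 111251, nat_lit 230001, nat_lit 0, nat_lit 0, [nat_lit 1100000, nat_lit 1442500, nat_lit 1271250], [nat_lit 9, nat_lit 40, nat_lit 20, nat_lit 80, nat_lit 2, nat_lit 215, nat_lit 10, nat_lit 8]⟩, C1.Rw.none,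
 ⟨nat_lit 6304, nat_lit 6325, ⟨.ofNat (nat_lit 168272), .ofNat (nat_lit 209404), .ofNat (nat_lit 169340), .ofNat (nat_lit 210472), .ofNat (nat_lit 169123), .ofNat (nat_lit 210160), .ofNat (nat_lit 170191), .ofNat (nat_lit 211228)⟩, ⟨.ofNat (nat_lit 0), .ofNat (nat_lit 0), .ofNat (nat_lit 0), .ofNat (nat_lit 0), .ofNat (nat_lit 0), .ofNat (nat_lit 0), .ofNat (nat_lit 0), .ofNat (nat_lit 0)⟩⟩, []⟩
noncomputable def p008_l210 : Lf2 := ⟨nat_lit 2, nat_lit 2, [nat_lit 10, nat_lit 5, nat_lit 5, nat_lit 20], true, nat_lit 0, nat_lit 0, nat_lit 0, nat_lit 0, zbN0,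
 nat_lit 0, nat_lit 0, nat_lit 0, nat_lit 0, nat_lit 0, nat_lit 0, nat_lit 0, nat_lit 0, nat_lit 0, nat_lit 0, nat_lit 0, nat_lit 0, nat_lit 0, nat_lit 0, nat_lit 0, nat_lit 0, nat_lit 0, nat_lit 0, [],
 ⟨p008_k26, nat_lit 0, nat_lit 0, nat_lit 0, nat_lit 0, nat_lit 278628, [], [], [], nat_lit 1271250, nat_lit 1271250, nat_lit 65850, nat_lit 88400, nat_lit 0, nat_lit 0, [nat_lit 1100000, nat_lit 1271250, nat_lit 1271250], [nat_lit 105, nat_lit 40, nat_lit 20, nat_lit 40]⟩, C1.Rw.none,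
 zbF0, []⟩
noncomputable def p008_l211 : Lf2 := ⟨nat_lit 2, nat_lit 2, [nat_lit 10, nat_lit 5, nat_lit 5, nat_lit 20], true, nat_lit 0, nat_lit 0, nat_lit 0, nat_lit 0, zbN0,
 nat_lit 0, nat_lit 0, nat_lit 0, nat_lit 0, nat_lit 0, nat_lit 0, nat_lit 0, nat_lit 0, nat_lit 0, nat_lit 0, nat_lit 0, nat_lit 0, nat_lit 0, nat_lit 0, nat_lit 0, nat_lit 0, nat_lit 0, nat_lit 0, [],
 ⟨p008_k47, nat_lit 0, nat_lit 0, nat_lit 296, nat_lit 0, nat_lit 278628, [], [], [], nat_lit 1271250, nat_lit 1271250, nat_lit 65850, nat_lit 88400, nat_lit 0, nat_lit 0, [nat_lit 1100000, nat_lit 1785000], [nat_lit 39, nat_lit 40, nat_lit 20, nat_lit 80, nat_lit 7, nat_lit 215, nat_lit 10, nat_lit 8]⟩, C1.Rw.none,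
 zbF0, []⟩
noncomputable def p008_l212 : Lf2 := ⟨nat_lit 0, nat_lit 2, [nat_lit 10, nat_lit 5, nat_lit 5, nat_lit 20], true, nat_lit 0, nat_lit 0, nat_lit 0, nat_lit 0, ⟨nat_lit 0, nat_lit 0, nat_lit 1000, nat_lit 5, nat_lit 66, nat_lit 0, nat_lit 0, nat_lit 0, nat_lit 0, nat_lit 215, nat_lit 41667, nat_lit 265, nat_lit 65221691, nat_lit 0, nat_lit 0, nat_lit 612509, false, false⟩,
 nat_lit 0, nat_lit 100000, nat_lit 0, nat_lit 0, nat_lit 52941, nat_lit 0, nat_lit 0, nat_lit 3004, nat_lit 0, nat_lit 0, nat_lit 0, nat_lit 0, nat_lit 0, nat_lit 0, nat_lit 0, nat_lit 1000000, nat_lit 0, nat_lit 0, [(nat_lit 6, [(nat_lit 6, nat_lit 1000)])],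
 ⟨p008_k9, nat_lit 0, nat_lit 0, nat_lit 305, nat_lit 0, nat_lit 278628, [nat_lit 49041066667, nat_lit 59888000000, nat_lit 70387200000], [], [nat_lit 136559059920, nat_lit 135808184567, nat_lit 133283017487, nat_lit 133484068377], nat_lit 1271250, nat_lit 1271250, nat_lit 88400, nat_lit 111251, nat_lit 0, nat_lit 0, [nat_lit 1100000, nat_lit 1442500, nat_lit 1271250], [nat_lit 9, nat_lit 40, nat_lit 20, nat_lit 80, nat_lit 2, nat_lit 215, nat_lit 10, nat_lit 8]⟩, C1.Rw.none,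
 ⟨nat_lit 6304, nat_lit 6325, ⟨.ofNat (nat_lit 160045), .ofNat (nat_lit 168272), .ofNat (nat_lit 161114), .ofNat (nat_lit 169340), .ofNat (nat_lit 160915), .ofNat (nat_lit 169123), .ofNat (nat_lit 161984), .ofNat (nat_lit 170191)⟩, ⟨.ofNat (nat_lit 0), .ofNat (nat_lit 0), .ofNat (nat_lit 0), .ofNat (nat_lit 0), .ofNat (nat_lit 0), .ofNat (nat_lit 0), .ofNat (nat_lit 0), .ofNat (nat_lit 0)⟩⟩, []⟩
noncomputable def p008_l213 : Lf2 := ⟨nat_lit 0, nat_lit 2, [nat_lit 10, nat_lit 5, nat_lit 5, nat_lit 20], true, nat_lit 0, nat_lit 0, nat_lit 0, nat_lit 0, ⟨nat_lit 0, nat_lit 0, nat_lit 1000, nat_lit 5, nat_lit 76, nat_lit 0, nat_lit 0, nat_lit 0, nat_lit 0, nat_lit 215, nat_lit 54150, nat_lit 272, nat_lit 64670936, nat_lit 0, nat_lit 0, nat_lit 754605, false, false⟩,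
 nat_lit 0, nat_lit 100000, nat_lit 0, nat_lit 0, nat_lit 52941, nat_lit 0, nat_lit 0, nat_lit 2874, nat_lit 0, nat_lit 0, nat_lit 0, nat_lit 0, nat_lit 0, nat_lit 0, nat_lit 0, nat_lit 1000000, nat_lit 0, nat_lit 0, [(nat_lit 6, [(nat_lit 6, nat_lit 1000)])],
 ⟨p008_k9, nat_lit 0, nat_lit 0, nat_lit 300, nat_lit 0, nat_lit 278628, [nat_lit 46961066667, nat_lit 57288000001, nat_lit 67267199999], [], [nat_lit 123827365153, nat_lit 123084068378, nat_lit 114803040988, nat_lit 114999684827], nat_lit 1271250, nat_lit 1271250, nat_lit 111251, nat_lit 230001, nat_lit 0, nat_lit 0, [nat_lit 1100000, nat_lit 1442500, nat_lit 1271250], [nat_lit 9, nat_lit 40, nat_lit 20, nat_lit 80, nat_lit 2, nat_lit 215, nat_lit 10, nat_lit 8]⟩, C1.Rw.none,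
 ⟨nat_lit 6304, nat_lit 6325, ⟨.ofNat (nat_lit 168272), .ofNat (nat_lit 209404), .ofNat (nat_lit 169340), .ofNat (nat_lit 210472), .ofNat (nat_lit 169123), .ofNat (nat_lit 210160), .ofNat (nat_lit 170191), .ofNat (nat_lit 211228)⟩, ⟨.ofNat (nat_lit 0), .ofNat (nat_lit 0), .ofNat (nat_lit 0), .ofNat (nat_lit 0), .ofNat (nat_lit 0), .ofNat (nat_lit 0), .ofNat (nat_lit 0), .ofNat (nat_lit 0)⟩⟩, []⟩
noncomputable def p008_l214 : Lf2 := ⟨nat_lit 0, nat_lit 2, [nat_lit 10, nat_lit 5, nat_lit 5, nat_lit 20], true, nat_lit 0, nat_lit 0, nat_lit 0, nat_lit 0, ⟨nat_lit 0, nat_lit 0, nat_lit 1000, nat_lit 5, nat_lit 73, nat_lit 0, nat_lit 0, nat_lit 0, nat_lit 0, nat_lit 215, nat_lit 50417, nat_lit 270, nat_lit 64855408, nat_lit 0, nat_lit 0, nat_lit 708264, false, false⟩,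
 nat_lit 0, nat_lit 100000, nat_lit 0, nat_lit 0, nat_lit 53200, nat_lit 0, nat_lit 0, nat_lit 3093, nat_lit 0, nat_lit 0, nat_lit 0, nat_lit 0, nat_lit 0, nat_lit 0, nat_lit 0, nat_lit 1000000, nat_lit 0, nat_lit 0, [(nat_lit 6, [(nat_lit 6, nat_lit 1000)])],
 ⟨p008_k60, nat_lit 0, nat_lit 0, nat_lit 312, nat_lit 0, nat_lit 281258, [nat_lit 50465066667, nat_lit 61668000001, nat_lit 72523199999], [], [nat_lit 145407056013, nat_lit 144840792333, nat_lit 131841295088, nat_lit 132038771508], nat_lit 1271250, nat_lit 1271250, nat_lit 65850, nat_lit 230001, nat_lit 0, nat_lit 0, [nat_lit 1100000, nat_lit 1442500, nat_lit 1271250], [nat_lit 9, nat_lit 40, nat_lit 20, nat_lit 80, nat_lit 2, nat_lit 215, nat_lit 10, nat_lit 8]⟩, C1.Rw.none,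
 ⟨nat_lit 6284, nat_lit 6305, ⟨.ofNat (nat_lit 151640), .ofNat (nat_lit 209091), .ofNat (nat_lit 153776), .ofNat (nat_lit 211228), .ofNat (nat_lit 152527), .ofNat (nat_lit 209846), .ofNat (nat_lit 154663), .ofNat (nat_lit 211982)⟩, ⟨.ofNat (nat_lit 0), .ofNat (nat_lit 0), .ofNat (nat_lit 0), .ofNat (nat_lit 0), .ofNat (nat_lit 0), .ofNat (nat_lit 0), .ofNat (nat_lit 0), .ofNat (nat_lit 0)⟩⟩, [⟨nat_lit 0, nat_lit 100, nat_lit 99, nat_lit 39, nat_lit 2420782091⟩]⟩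
noncomputable def p008_l215 : Lf2 := ⟨nat_lit 2, nat_lit 2, [nat_lit 10, nat_lit 5, nat_lit 5, nat_lit 20], true, nat_lit 0, nat_lit 0, nat_lit 0, nat_lit 0, zbN0,
 nat_lit 0, nat_lit 0, nat_lit 0, nat_lit 0, nat_lit 0, nat_lit 0, nat_lit 0, nat_lit 0, nat_lit 0, nat_lit 0, nat_lit 0, nat_lit 0, nat_lit 0, nat_lit 0, nat_lit 0, nat_lit 0, nat_lit 0, nat_lit 0, [],
 ⟨p008_k26, nat_lit 0, nat_lit 0, nat_lit 0, nat_lit 0, nat_lit 282463, [], [], [], nat_lit 1271250, nat_lit 1271250, nat_lit 65850, nat_lit 230001, nat_lit 0, nat_lit 0, [nat_lit 1100000, nat_lit 1271250, nat_lit 1271250], [nat_lit 105, nat_lit 40, nat_lit 20, nat_lit 40]⟩, C1.Rw.none,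
 zbF0, []⟩
noncomputable def p008_l216 : Lf2 := ⟨nat_lit 2, nat_lit 2, [nat_lit 10, nat_lit 5, nat_lit 5, nat_lit 20], true, nat_lit 0, nat_lit 0, nat_lit 0, nat_lit 0, zbN0,
 nat_lit 0, nat_lit 0, nat_lit 0, nat_lit 0, nat_lit 0, nat_lit 0, nat_lit 0, nat_lit 0, nat_lit 0, nat_lit 0, nat_lit 0, nat_lit 0, nat_lit 0, nat_lit 0, nat_lit 0, nat_lit 0, nat_lit 0, nat_lit 0, [],
 ⟨p008_k47, nat_lit 0, nat_lit 0, nat_lit 297, nat_lit 0, nat_lit 282463, [], [], [], nat_lit 1271250, nat_lit 1271250, nat_lit 65850, nat_lit 230001, nat_lit 0, nat_lit 0, [nat_lit 1100000, nat_lit 1785000], [nat_lit 39, nat_lit 40, nat_lit 20, nat_lit 80, nat_lit 7, nat_lit 215, nat_lit 10, nat_lit 8]⟩, C1.Rw.none,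
 zbF0, []⟩
noncomputable def p008_l217 : Lf2 := ⟨nat_lit 2, nat_lit 2, [nat_lit 10, nat_lit 5, nat_lit 5, nat_lit 20], true, nat_lit 0, nat_lit 0, nat_lit 0, nat_lit 0, zbN0,
 nat_lit 0, nat_lit 0, nat_lit 0, nat_lit 0, nat_lit 0, nat_lit 0, nat_lit 0, nat_lit 0, nat_lit 0, nat_lit 0, nat_lit 0, nat_lit 0, nat_lit 0, nat_lit 0, nat_lit 0, nat_lit 0, nat_lit 0, nat_lit 0, [],
 ⟨p008_k26, nat_lit 0, nat_lit 0, nat_lit 0, nat_lit 0, nat_lit 282463, [], [], [], nat_lit 1271250, nat_lit 1271250, nat_lit 65850, nat_lit 111251, nat_lit 0, nat_lit 0, [nat_lit 1100000, nat_lit 1271250, nat_lit 1271250], [nat_lit 105, nat_lit 40, nat_lit 20, nat_lit 40]⟩, C1.Rw.none,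
 zbF0, []⟩
noncomputable def p008_l218 : Lf2 := ⟨nat_lit 2, nat_lit 2, [nat_lit 10, nat_lit 5, nat_lit 5, nat_lit 20], true, nat_lit 0, nat_lit 0, nat_lit 0, nat_lit 0, zbN0,
 nat_lit 0, nat_lit 0, nat_lit 0, nat_lit 0, nat_lit 0, nat_lit 0, nat_lit 0, nat_lit 0, nat_lit 0, nat_lit 0, nat_lit 0, nat_lit 0, nat_lit 0, nat_lit 0, nat_lit 0, nat_lit 0, nat_lit 0, nat_lit 0, [],
 ⟨p008_k47, nat_lit 0, nat_lit 0, nat_lit 297, nat_lit 0, nat_lit 282463, [], [], [], nat_lit 1271250, nat_lit 1271250, nat_lit 65850, nat_lit 111251, nat_lit 0, nat_lit 0, [nat_lit 1100000, nat_lit 1785000], [nat_lit 39, nat_lit 40, nat_lit 20, nat_lit 80, nat_lit 7, nat_lit 215, nat_lit 10, nat_lit 8]⟩, C1.Rw.none,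
 zbF0, []⟩
noncomputable def p008_l219 : Lf2 := ⟨nat_lit 2, nat_lit 2, [nat_lit 10, nat_lit 5, nat_lit 5, nat_lit 20], true, nat_lit 0, nat_lit 0, nat_lit 0, nat_lit 0, zbN0,
 nat_lit 0, nat_lit 0, nat_lit 0, nat_lit 0, nat_lit 0, nat_lit 0, nat_lit 0, nat_lit 0, nat_lit 0, nat_lit 0, nat_lit 0, nat_lit 0, nat_lit 0, nat_lit 0, nat_lit 0, nat_lit 0, nat_lit 0, nat_lit 0, [],
 ⟨p008_k26, nat_lit 0, nat_lit 0, nat_lit 0, nat_lit 0, nat_lit 282463, [], [], [], nat_lit 1271250, nat_lit 1271250, nat_lit 111251, nat_lit 230001, nat_lit 0, nat_lit 0, [nat_lit 1100000, nat_lit 1271250, nat_lit 1271250], [nat_lit 105, nat_lit 40, nat_lit 20, nat_lit 40]⟩, C1.Rw.none,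
 zbF0, []⟩
noncomputable def p008_l220 : Lf2 := ⟨nat_lit 2, nat_lit 2, [nat_lit 10, nat_lit 5, nat_lit 5, nat_lit 20], true, nat_lit 0, nat_lit 0, nat_lit 0, nat_lit 0, zbN0,
 nat_lit 0, nat_lit 0, nat_lit 0, nat_lit 0, nat_lit 0, nat_lit 0, nat_lit 0, nat_lit 0, nat_lit 0, nat_lit 0, nat_lit 0, nat_lit 0, nat_lit 0, nat_lit 0, nat_lit 0, nat_lit 0, nat_lit 0, nat_lit 0, [],
 ⟨p008_k47, nat_lit 0, nat_lit 0, nat_lit 289, nat_lit 0, nat_lit 282463, [], [], [], nat_lit 1271250, nat_lit 1271250, nat_lit 111251, nat_lit 230001, nat_lit 0, nat_lit 0, [nat_lit 1100000, nat_lit 1785000], [nat_lit 39, nat_lit 40, nat_lit 20, nat_lit 80, nat_lit 7, nat_lit 215, nat_lit 10, nat_lit 8]⟩, C1.Rw.none,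
 zbF0, []⟩
noncomputable def p008_l221 : Lf2 := ⟨nat_lit 2, nat_lit 2, [nat_lit 10, nat_lit 5, nat_lit 5, nat_lit 20], true, nat_lit 0, nat_lit 0, nat_lit 0, nat_lit 0, zbN0,
 nat_lit 0, nat_lit 0, nat_lit 0, nat_lit 0, nat_lit 0, nat_lit 0, nat_lit 0, nat_lit 0, nat_lit 0, nat_lit 0, nat_lit 0, nat_lit 0, nat_lit 0, nat_lit 0, nat_lit 0, nat_lit 0, nat_lit 0, nat_lit 0, [],
 ⟨p008_k26, nat_lit 0, nat_lit 0, nat_lit 0, nat_lit 0, nat_lit 282463, [], [], [], nat_lit 1271250, nat_lit 1271250, nat_lit 65850, nat_lit 88400, nat_lit 0, nat_lit 0, [nat_lit 1100000, nat_lit 1271250, nat_lit 1271250], [nat_lit 105, nat_lit 40, nat_lit 20, nat_lit 40]⟩, C1.Rw.none,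
 zbF0, []⟩
noncomputable def p008_l222 : Lf2 := ⟨nat_lit 2, nat_lit 2, [nat_lit 10, nat_lit 5, nat_lit 5, nat_lit 20], true, nat_lit 0, nat_lit 0, nat_lit 0, nat_lit 0, zbN0,
 nat_lit 0, nat_lit 0, nat_lit 0, nat_lit 0, nat_lit 0, nat_lit 0, nat_lit 0, nat_lit 0, nat_lit 0, nat_lit 0, nat_lit 0, nat_lit 0, nat_lit 0, nat_lit 0, nat_lit 0, nat_lit 0, nat_lit 0, nat_lit 0, [],
 ⟨p008_k47, nat_lit 0, nat_lit 0, nat_lit 297, nat_lit 0, nat_lit 282463, [], [], [], nat_lit 1271250, nat_lit 1271250, nat_lit 65850, nat_lit 88400, nat_lit 0, nat_lit 0, [nat_lit 1100000, nat_lit 1785000], [nat_lit 39, nat_lit 40, nat_lit 20, nat_lit 80, nat_lit 7, nat_lit 215, nat_lit 10, nat_lit 8]⟩, C1.Rw.none,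
 zbF0, []⟩
noncomputable def p008_l223 : Lf2 := ⟨nat_lit 2, nat_lit 2, [nat_lit 10, nat_lit 5, nat_lit 5, nat_lit 20], true, nat_lit 0, nat_lit 0, nat_lit 0, nat_lit 0, zbN0,
 nat_lit 0, nat_lit 0, nat_lit 0, nat_lit 0, nat_lit 0, nat_lit 0, nat_lit 0, nat_lit 0, nat_lit 0, nat_lit 0, nat_lit 0, nat_lit 0, nat_lit 0, nat_lit 0, nat_lit 0, nat_lit 0, nat_lit 0, nat_lit 0, [],
 ⟨p008_k26, nat_lit 0, nat_lit 0, nat_lit 0, nat_lit 0, nat_lit 282463, [], [], [], nat_lit 1271250, nat_lit 1271250, nat_lit 88400, nat_lit 111251, nat_lit 0, nat_lit 0, [nat_lit 1100000, nat_lit 1271250, nat_lit 1271250], [nat_lit 105, nat_lit 40, nat_lit 20, nat_lit 40]⟩, C1.Rw.none,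
 zbF0, []⟩
noncomputable def p008_l224 : Lf2 := ⟨nat_lit 2, nat_lit 2, [nat_lit 10, nat_lit 5, nat_lit 5, nat_lit 20], true, nat_lit 0, nat_lit 0, nat_lit 0, nat_lit 0, zbN0,
 nat_lit 0, nat_lit 0, nat_lit 0, nat_lit 0, nat_lit 0, nat_lit 0, nat_lit 0, nat_lit 0, nat_lit 0, nat_lit 0, nat_lit 0, nat_lit 0, nat_lit 0, nat_lit 0, nat_lit 0, nat_lit 0, nat_lit 0, nat_lit 0, [],
 ⟨p008_k47, nat_lit 0, nat_lit 0, nat_lit 293, nat_lit 0, nat_lit 282463, [], [], [], nat_lit 1271250, nat_lit 1271250, nat_lit 88400, nat_lit 111251, nat_lit 0, nat_lit 0, [nat_lit 1100000, nat_lit 1785000], [nat_lit 39, nat_lit 40, nat_lit 20, nat_lit 80, nat_lit 7, nat_lit 215, nat_lit 10, nat_lit 8]⟩, C1.Rw.none,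
 zbF0, []⟩
noncomputable def p008_l225 : Lf2 := ⟨nat_lit 0, nat_lit 2, [nat_lit 10, nat_lit 5, nat_lit 5, nat_lit 20], false, nat_lit 0, nat_lit 0, nat_lit 0, nat_lit 0, ⟨nat_lit 1000, nat_lit 0, nat_lit 0, nat_lit 0, nat_lit 0, nat_lit 0, nat_lit 0, nat_lit 0, nat_lit 0, nat_lit 0, nat_lit 0, nat_lit 0, nat_lit 0, nat_lit 0, nat_lit 0, nat_lit 0, false, false⟩,
 nat_lit 0, nat_lit 11039, nat_lit 0, nat_lit 0, nat_lit 5844, nat_lit 100000, nat_lit 0, nat_lit 0, nat_lit 0, nat_lit 1964, nat_lit 9473, nat_lit 0, nat_lit 0, nat_lit 0, nat_lit 0, nat_lit 0, nat_lit 0, nat_lit 0, [],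
 ⟨p008_k9, nat_lit 0, nat_lit 0, nat_lit 301, nat_lit 0, nat_lit 282463, [nat_lit 4688000000, nat_lit 6250000000, nat_lit 7968000000], [], [nat_lit 35297041552, nat_lit 35326758510, nat_lit 34665714880, nat_lit 34710960703], nat_lit 1271250, nat_lit 1271250, nat_lit 111251, nat_lit 230001, nat_lit 0, nat_lit 0, [nat_lit 1100000, nat_lit 1442500, nat_lit 1271250], [nat_lit 9, nat_lit 40, nat_lit 20, nat_lit 80, nat_lit 2, nat_lit 215, nat_lit 10, nat_lit 8]⟩, ⟨p008_k61, nat_lit 0, nat_lit 0, nat_lit 0, nat_lit 0, nat_lit 0, [nat_lit 97367500000, nat_lit 175963500000, nat_lit 215495500000], [], [nat_lit 239338358200, nat_lit 240067934301, nat_lit 218383619801, nat_lit 219106532700], nat_lit 0, nat_lit 0, nat_lit 0, nat_lit 0, nat_lit 0, nat_lit 0, [], [nat_lit 90, nat_lit 40, nat_lit 20, nat_lit 40]⟩,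
 zbF0, []⟩
noncomputable def p008_l226 : Lf2 := ⟨nat_lit 2, nat_lit 2, [nat_lit 10, nat_lit 5, nat_lit 5, nat_lit 20], true, nat_lit 0, nat_lit 0, nat_lit 0, nat_lit 0, zbN0,
 nat_lit 0, nat_lit 0, nat_lit 0, nat_lit 0, nat_lit 0, nat_lit 0, nat_lit 0, nat_lit 0, nat_lit 0, nat_lit 0, nat_lit 0, nat_lit 0, nat_lit 0, nat_lit 0, nat_lit 0, nat_lit 0, nat_lit 0, nat_lit 0, [],
 ⟨p008_k62, nat_lit 0, nat_lit 0, nat_lit 0, nat_lit 0, nat_lit 285050, [], [], [], nat_lit 1271250, nat_lit 1271250, nat_lit 65850, nat_lit 88400, nat_lit 0, nat_lit 0, [nat_lit 1100000, nat_lit 1271250, nat_lit 1271250], [nat_lit 105, nat_lit 40, nat_lit 20, nat_lit 40]⟩, C1.Rw.none,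
 zbF0, []⟩
noncomputable def p008_l227 : Lf2 := ⟨nat_lit 2, nat_lit 2, [nat_lit 10, nat_lit 5, nat_lit 5, nat_lit 20], true, nat_lit 0, nat_lit 0, nat_lit 0, nat_lit 0, zbN0,
 nat_lit 0, nat_lit 0, nat_lit 0, nat_lit 0, nat_lit 0, nat_lit 0, nat_lit 0, nat_lit 0, nat_lit 0, nat_lit 0, nat_lit 0, nat_lit 0, nat_lit 0, nat_lit 0, nat_lit 0, nat_lit 0, nat_lit 0, nat_lit 0, [],
 ⟨p008_k63, nat_lit 0, nat_lit 0, nat_lit 299, nat_lit 0, nat_lit 285050, [], [], [], nat_lit 1271250, nat_lit 1271250, nat_lit 65850, nat_lit 88400, nat_lit 0, nat_lit 0, [nat_lit 1100000, nat_lit 1785000], [nat_lit 39, nat_lit 40, nat_lit 20, nat_lit 80, nat_lit 7, nat_lit 215, nat_lit 10, nat_lit 8]⟩, C1.Rw.none,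
 zbF0, []⟩
noncomputable def p008_l228 : Lf2 := ⟨nat_lit 0, nat_lit 2, [nat_lit 10, nat_lit 5, nat_lit 5, nat_lit 20], true, nat_lit 0, nat_lit 0, nat_lit 0, nat_lit 0, ⟨nat_lit 0, nat_lit 0, nat_lit 1000, nat_lit 5, nat_lit 67, nat_lit 0, nat_lit 0, nat_lit 0, nat_lit 0, nat_lit 215, nat_lit 41667, nat_lit 265, nat_lit 65181060, nat_lit 0, nat_lit 0, nat_lit 623397, false, false⟩,
 nat_lit 0, nat_lit 100000, nat_lit 0, nat_lit 0, nat_lit 53200, nat_lit 0, nat_lit 0, nat_lit 2955, nat_lit 0, nat_lit 0, nat_lit 0, nat_lit 0, nat_lit 0, nat_lit 0, nat_lit 0, nat_lit 1000000, nat_lit 0, nat_lit 0, [(nat_lit 6, [(nat_lit 6, nat_lit 1000)])],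
 ⟨p008_k60, nat_lit 0, nat_lit 0, nat_lit 308, nat_lit 0, nat_lit 285050, [nat_lit 48257066667, nat_lit 58908000001, nat_lit 69211199999], [], [nat_lit 132202698022, nat_lit 131464723380, nat_lit 128926750548, nat_lit 129128654428], nat_lit 1271250, nat_lit 1271250, nat_lit 88400, nat_lit 111251, nat_lit 0, nat_lit 0, [nat_lit 1100000, nat_lit 1442500, nat_lit 1271250], [nat_lit 9, nat_lit 40, nat_lit 20, nat_lit 80, nat_lit 2, nat_lit 215, nat_lit 10, nat_lit 8]⟩, C1.Rw.none,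
 ⟨nat_lit 6284, nat_lit 6305, ⟨.ofNat (nat_lit 161984), .ofNat (nat_lit 170191), .ofNat (nat_lit 163052), .ofNat (nat_lit 171259), .ofNat (nat_lit 162852), .ofNat (nat_lit 171040), .ofNat (nat_lit 163920), .ofNat (nat_lit 172108)⟩, ⟨.ofNat (nat_lit 0), .ofNat (nat_lit 0), .ofNat (nat_lit 0), .ofNat (nat_lit 0), .ofNat (nat_lit 0), .ofNat (nat_lit 0), .ofNat (nat_lit 0), .ofNat (nat_lit 0)⟩⟩, []⟩
noncomputable def p008_l229 : Lf2 := ⟨nat_lit 0, nat_lit 2, [nat_lit 10, nat_lit 5, nat_lit 5, nat_lit 20], true, nat_lit 0, nat_lit 0, nat_lit 0, nat_lit 0, ⟨nat_lit 0, nat_lit 0, nat_lit 1000, nat_lit 5, nat_lit 77, nat_lit 0, nat_lit 0, nat_lit 0, nat_lit 0, nat_lit 215, nat_lit 54150, nat_lit 272, nat_lit 64626429, nat_lit 0, nat_lit 0, nat_lit 765613, false, false⟩,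
 nat_lit 0, nat_lit 100000, nat_lit 0, nat_lit 0, nat_lit 53200, nat_lit 0, nat_lit 0, nat_lit 2824, nat_lit 0, nat_lit 0, nat_lit 0, nat_lit 0, nat_lit 0, nat_lit 0, nat_lit 0, nat_lit 1000000, nat_lit 0, nat_lit 0, [(nat_lit 6, [(nat_lit 6, nat_lit 1000)])],
 ⟨p008_k60, nat_lit 0, nat_lit 0, nat_lit 303, nat_lit 0, nat_lit 285050, [nat_lit 46161066667, nat_lit 56288000001, nat_lit 66067199999], [], [nat_lit 119390340029, nat_lit 118648654428, nat_lit 110321295088, nat_lit 110518771508], nat_lit 1271250, nat_lit 1271250, nat_lit 111251, nat_lit 230001, nat_lit 0, nat_lit 0, [nat_lit 1100000, nat_lit 1442500, nat_lit 1271250], [nat_lit 9, nat_lit 40, nat_lit 20, nat_lit 80, nat_lit 2, nat_lit 215, nat_lit 10, nat_lit 8]⟩, C1.Rw.none,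
 ⟨nat_lit 6284, nat_lit 6305, ⟨.ofNat (nat_lit 170191), .ofNat (nat_lit 211228), .ofNat (nat_lit 171259), .ofNat (nat_lit 212296), .ofNat (nat_lit 171040), .ofNat (nat_lit 211982), .ofNat (nat_lit 172108), .ofNat (nat_lit 213051)⟩, ⟨.ofNat (nat_lit 0), .ofNat (nat_lit 0), .ofNat (nat_lit 0), .ofNat (nat_lit 0), .ofNat (nat_lit 0), .ofNat (nat_lit 0), .ofNat (nat_lit 0), .ofNat (nat_lit 0)⟩⟩, []⟩
noncomputable def p008_l230 : Lf2 := ⟨nat_lit 2, nat_lit 2, [nat_lit 10, nat_lit 5, nat_lit 5, nat_lit 20], true, nat_lit 0, nat_lit 0, nat_lit 0, nat_lit 0, zbN0,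
 nat_lit 0, nat_lit 0, nat_lit 0, nat_lit 0, nat_lit 0, nat_lit 0, nat_lit 0, nat_lit 0, nat_lit 0, nat_lit 0, nat_lit 0, nat_lit 0, nat_lit 0, nat_lit 0, nat_lit 0, nat_lit 0, nat_lit 0, nat_lit 0, [],
 ⟨p008_k62, nat_lit 0, nat_lit 0, nat_lit 0, nat_lit 0, nat_lit 285050, [], [], [], nat_lit 1271250, nat_lit 1271250, nat_lit 65850, nat_lit 88400, nat_lit 0, nat_lit 0, [nat_lit 1100000, nat_lit 1271250, nat_lit 1271250], [nat_lit 105, nat_lit 40, nat_lit 20, nat_lit 40]⟩, C1.Rw.none,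
 zbF0, []⟩
noncomputable def p008_l231 : Lf2 := ⟨nat_lit 2, nat_lit 2, [nat_lit 10, nat_lit 5, nat_lit 5, nat_lit 20], true, nat_lit 0, nat_lit 0, nat_lit 0, nat_lit 0, zbN0,
 nat_lit 0, nat_lit 0, nat_lit 0, nat_lit 0, nat_lit 0, nat_lit 0, nat_lit 0, nat_lit 0, nat_lit 0, nat_lit 0, nat_lit 0, nat_lit 0, nat_lit 0, nat_lit 0, nat_lit 0, nat_lit 0, nat_lit 0, nat_lit 0, [],
 ⟨p008_k63, nat_lit 0, nat_lit 0, nat_lit 299, nat_lit 0, nat_lit 285050, [], [], [], nat_lit 1271250, nat_lit 1271250, nat_lit 65850, nat_lit 88400, nat_lit 0, nat_lit 0, [nat_lit 1100000, nat_lit 1785000], [nat_lit 39, nat_lit 40, nat_lit 20, nat_lit 80, nat_lit 7, nat_lit 215, nat_lit 10, nat_lit 8]⟩, C1.Rw.none,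
 zbF0, []⟩
noncomputable def p008_l232 : Lf2 := ⟨nat_lit 0, nat_lit 2, [nat_lit 10, nat_lit 5, nat_lit 5, nat_lit 20], true, nat_lit 0, nat_lit 0, nat_lit 0, nat_lit 0, ⟨nat_lit 0, nat_lit 0, nat_lit 1000, nat_lit 5, nat_lit 67, nat_lit 0, nat_lit 0, nat_lit 0, nat_lit 0, nat_lit 215, nat_lit 41667, nat_lit 265, nat_lit 65181060, nat_lit 0, nat_lit 0, nat_lit 623397, false, false⟩,
 nat_lit 0, nat_lit 100000, nat_lit 0, nat_lit 0, nat_lit 53200, nat_lit 0, nat_lit 0, nat_lit 2955, nat_lit 0, nat_lit 0, nat_lit 0, nat_lit 0, nat_lit 0, nat_lit 0, nat_lit 0, nat_lit 1000000, nat_lit 0, nat_lit 0, [(nat_lit 6, [(nat_lit 6, nat_lit 1000)])],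
 ⟨p008_k60, nat_lit 0, nat_lit 0, nat_lit 308, nat_lit 0, nat_lit 285050, [nat_lit 48257066667, nat_lit 58908000001, nat_lit 69211199999], [], [nat_lit 132202698022, nat_lit 131464723380, nat_lit 128926750548, nat_lit 129128654428], nat_lit 1271250, nat_lit 1271250, nat_lit 88400, nat_lit 111251, nat_lit 0, nat_lit 0, [nat_lit 1100000, nat_lit 1442500, nat_lit 1271250], [nat_lit 9, nat_lit 40, nat_lit 20, nat_lit 80, nat_lit 2, nat_lit 215, nat_lit 10, nat_lit 8]⟩, C1.Rw.none,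
 ⟨nat_lit 6284, nat_lit 6305, ⟨.ofNat (nat_lit 161984), .ofNat (nat_lit 170191), .ofNat (nat_lit 163052), .ofNat (nat_lit 171259), .ofNat (nat_lit 162852), .ofNat (nat_lit 171040), .ofNat (nat_lit 163920), .ofNat (nat_lit 172108)⟩, ⟨.ofNat (nat_lit 0), .ofNat (nat_lit 0), .ofNat (nat_lit 0), .ofNat (nat_lit 0), .ofNat (nat_lit 0), .ofNat (nat_lit 0), .ofNat (nat_lit 0), .ofNat (nat_lit 0)⟩⟩, []⟩
noncomputable def p008_l233 : Lf2 := ⟨nat_lit 0, nat_lit 2, [nat_lit 10, nat_lit 5, nat_lit 5, nat_lit 20], true, nat_lit 0, nat_lit 0, nat_lit 0, nat_lit 0, ⟨nat_lit 0, nat_lit 0, nat_lit 1000, nat_lit 5, nat_lit 77, nat_lit 0, nat_lit 0, nat_lit 0, nat_lit 0, nat_lit 215, nat_lit 54150, nat_lit 272, nat_lit 64626429, nat_lit 0, nat_lit 0, nat_lit 765613, false, false⟩,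
 nat_lit 0, nat_lit 100000, nat_lit 0, nat_lit 0, nat_lit 53200, nat_lit 0, nat_lit 0, nat_lit 2824, nat_lit 0, nat_lit 0, nat_lit 0, nat_lit 0, nat_lit 0, nat_lit 0, nat_lit 0, nat_lit 1000000, nat_lit 0, nat_lit 0, [(nat_lit 6, [(nat_lit 6, nat_lit 1000)])],
 ⟨p008_k60, nat_lit 0, nat_lit 0, nat_lit 303, nat_lit 0, nat_lit 285050, [nat_lit 46161066667, nat_lit 56288000001, nat_lit 66067199999], [], [nat_lit 119390340029, nat_lit 118648654428, nat_lit 110321295088, nat_lit 110518771508], nat_lit 1271250, nat_lit 1271250, nat_lit 111251, nat_lit 230001, nat_lit 0, nat_lit 0, [nat_lit 1100000, nat_lit 1442500, nat_lit 1271250], [nat_lit 9, nat_lit 40, nat_lit 20, nat_lit 80, nat_lit 2, nat_lit 215, nat_lit 10, nat_lit 8]⟩, C1.Rw.none,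
 ⟨nat_lit 6284, nat_lit 6305, ⟨.ofNat (nat_lit 170191), .ofNat (nat_lit 211228), .ofNat (nat_lit 171259), .ofNat (nat_lit 212296), .ofNat (nat_lit 171040), .ofNat (nat_lit 211982), .ofNat (nat_lit 172108), .ofNat (nat_lit 213051)⟩, ⟨.ofNat (nat_lit 0), .ofNat (nat_lit 0), .ofNat (nat_lit 0), .ofNat (nat_lit 0), .ofNat (nat_lit 0), .ofNat (nat_lit 0), .ofNat (nat_lit 0), .ofNat (nat_lit 0)⟩⟩, []⟩
noncomputable def p008_l234 : Lf2 := ⟨nat_lit 0, nat_lit 2, [nat_lit 10, nat_lit 5, nat_lit 5, nat_lit 20], false, nat_lit 0, nat_lit 0, nat_lit 0, nat_lit 0, ⟨nat_lit 1000, nat_lit 0, nat_lit 0, nat_lit 0, nat_lit 0, nat_lit 0, nat_lit 0, nat_lit 0, nat_lit 0, nat_lit 0, nat_lit 0, nat_lit 0, nat_lit 0, nat_lit 0, nat_lit 0, nat_lit 0, false, false⟩,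
 nat_lit 0, nat_lit 53417, nat_lit 0, nat_lit 0, nat_lit 28418, nat_lit 100000, nat_lit 0, nat_lit 0, nat_lit 0, nat_lit 43722, nat_lit 11002, nat_lit 0, nat_lit 0, nat_lit 0, nat_lit 0, nat_lit 0, nat_lit 0, nat_lit 0, [],
 ⟨p008_k60, nat_lit 0, nat_lit 0, nat_lit 314, nat_lit 0, nat_lit 285050, [nat_lit 4688000000, nat_lit 6250000000, nat_lit 7968000000], [], [nat_lit 14842783862, nat_lit 15062077739, nat_lit 13175552976, nat_lit 13394560606], nat_lit 1271250, nat_lit 1271250, nat_lit 65850, nat_lit 88400, nat_lit 0, nat_lit 0, [nat_lit 1100000, nat_lit 1442500, nat_lit 1271250], [nat_lit 9, nat_lit 40, nat_lit 20, nat_lit 80, nat_lit 2, nat_lit 215, nat_lit 10, nat_lit 8]⟩, ⟨p008_k64, nat_lit 0, nat_lit 0, nat_lit 0, nat_lit 0, nat_lit 0, [nat_lit 90048000000, nat_lit 180720000000, nat_lit 226290000000, nat_lit 249133500000], [], [nat_lit 253617825640, nat_lit 254387235161, nat_lit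 246201604440, nat_lit 246951515161], nat_lit 0, nat_lit 0, nat_lit 0, nat_lit 0, nat_lit 0, nat_lit 0, [], [nat_lit 101, nat_lit 40, nat_lit 20, nat_lit 40]⟩,
 zbF0, [⟨nat_lit 0, nat_lit 100, nat_lit 100, nat_lit 39, nat_lit 2194010368⟩, ⟨nat_lit 0, nat_lit 100, nat_lit 100, nat_lit 39, nat_lit 10000000000⟩]⟩
noncomputable def p008_l235 : Lf2 := ⟨nat_lit 0, nat_lit 2, [nat_lit 10, nat_lit 5, nat_lit 5, nat_lit 20], true, nat_lit 0, nat_lit 0, nat_lit 0, nat_lit 0, ⟨nat_lit 0, nat_lit 0, nat_lit 1000, nat_lit 5, nat_lit 67, nat_lit 0, nat_lit 0, nat_lit 0, nat_lit 0, nat_lit 215, nat_lit 41667, nat_lit 265, nat_lit 65181060, nat_lit 0, nat_lit 0, nat_lit 623397, false, false⟩,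
 nat_lit 0, nat_lit 100000, nat_lit 0, nat_lit 0, nat_lit 53200, nat_lit 0, nat_lit 0, nat_lit 2955, nat_lit 0, nat_lit 0, nat_lit 0, nat_lit 0, nat_lit 0, nat_lit 0, nat_lit 0, nat_lit 1000000, nat_lit 0, nat_lit 0, [(nat_lit 6, [(nat_lit 6, nat_lit 1000)])],
 ⟨p008_k60, nat_lit 0, nat_lit 0, nat_lit 308, nat_lit 0, nat_lit 285050, [nat_lit 48257066667, nat_lit 58908000001, nat_lit 69211199999], [], [nat_lit 132202698022, nat_lit 131464723380, nat_lit 128926750548, nat_lit 129128654428], nat_lit 1271250, nat_lit 1271250, nat_lit 88400, nat_lit 111251, nat_lit 0, nat_lit 0, [nat_lit 1100000, nat_lit 1442500, nat_lit 1271250], [nat_lit 9, nat_lit 40, nat_lit 20, nat_lit 80, nat_lit 2, nat_lit 215, nat_lit 10, nat_lit 8]⟩, C1.Rw.none,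
 ⟨nat_lit 6284, nat_lit 6305, ⟨.ofNat (nat_lit 161984), .ofNat (nat_lit 170191), .ofNat (nat_lit 163052), .ofNat (nat_lit 171259), .ofNat (nat_lit 162852), .ofNat (nat_lit 171040), .ofNat (nat_lit 163920), .ofNat (nat_lit 172108)⟩, ⟨.ofNat (nat_lit 0), .ofNat (nat_lit 0), .ofNat (nat_lit 0), .ofNat (nat_lit 0), .ofNat (nat_lit 0), .ofNat (nat_lit 0), .ofNat (nat_lit 0), .ofNat (nat_lit 0)⟩⟩, []⟩
noncomputable def p008_l236 : Lf2 := ⟨nat_lit 0, nat_lit 2, [nat_lit 10, nat_lit 5, nat_lit 5, nat_lit 20], true, nat_lit 0, nat_lit 0, nat_lit 0, nat_lit 0, ⟨nat_lit 0, nat_lit 0, nat_lit 1000, nat_lit 5, nat_lit 77, nat_lit 0, nat_lit 0, nat_lit 0, nat_lit 0, nat_lit 215, nat_lit 54150, nat_lit 272, nat_lit 64626429, nat_lit 0, nat_lit 0, nat_lit 765613, false, false⟩,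
 nat_lit 0, nat_lit 100000, nat_lit 0, nat_lit 0, nat_lit 53200, nat_lit 0, nat_lit 0, nat_lit 2824, nat_lit 0, nat_lit 0, nat_lit 0, nat_lit 0, nat_lit 0, nat_lit 0, nat_lit 0, nat_lit 1000000, nat_lit 0, nat_lit 0, [(nat_lit 6, [(nat_lit 6, nat_lit 1000)])],
 ⟨p008_k60, nat_lit 0, nat_lit 0, nat_lit 303, nat_lit 0, nat_lit 285050, [nat_lit 46161066667, nat_lit 56288000001, nat_lit 66067199999], [], [nat_lit 119390340029, nat_lit 118648654428, nat_lit 110321295088, nat_lit 110518771508], nat_lit 1271250, nat_lit 1271250, nat_lit 111251, nat_lit 230001, nat_lit 0, nat_lit 0, [nat_lit 1100000, nat_lit 1442500, nat_lit 1271250], [nat_lit 9, nat_lit 40, nat_lit 20, nat_lit 80, nat_lit 2, nat_lit 215, nat_lit 10, nat_lit 8]⟩, C1.Rw.none,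
 ⟨nat_lit 6284, nat_lit 6305, ⟨.ofNat (nat_lit 170191), .ofNat (nat_lit 211228), .ofNat (nat_lit 171259), .ofNat (nat_lit 212296), .ofNat (nat_lit 171040), .ofNat (nat_lit 211982), .ofNat (nat_lit 172108), .ofNat (nat_lit 213051)⟩, ⟨.ofNat (nat_lit 0), .ofNat (nat_lit 0), .ofNat (nat_lit 0), .ofNat (nat_lit 0), .ofNat (nat_lit 0), .ofNat (nat_lit 0), .ofNat (nat_lit 0), .ofNat (nat_lit 0)⟩⟩, []⟩
noncomputable def p008_l237 : Lf2 := ⟨nat_lit 0, nat_lit 2, [nat_lit 10, nat_lit 5, nat_lit 5, nat_lit 20], true, nat_lit 0, nat_lit 0, nat_lit 0, nat_lit 0, ⟨nat_lit 0, nat_lit 0, nat_lit 1000, nat_lit 5, nat_lit 73, nat_lit 0, nat_lit 0, nat_lit 0, nat_lit 0, nat_lit 215, nat_lit 50417, nat_lit 270, nat_lit 64824381, nat_lit 0, nat_lit 0, nat_lit 716142, false, false⟩,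
 nat_lit 0, nat_lit 100000, nat_lit 0, nat_lit 0, nat_lit 53460, nat_lit 0, nat_lit 12078, nat_lit 3889, nat_lit 0, nat_lit 0, nat_lit 0, nat_lit 0, nat_lit 0, nat_lit 0, nat_lit 0, nat_lit 1000000, nat_lit 0, nat_lit 0, [(nat_lit 6, [(nat_lit 6, nat_lit 1000)])],
 ⟨p008_k65, nat_lit 0, nat_lit 0, nat_lit 315, nat_lit 0, nat_lit 287610, [nat_lit 63201066667, nat_lit 77588000001, nat_lit 91627199999], [], [nat_lit 186569492580, nat_lit 186028537623, nat_lit 172958504550, nat_lit 173156816767], nat_lit 1271250, nat_lit 1271250, nat_lit 65850, nat_lit 230001, nat_lit 0, nat_lit 0, [nat_lit 1100000, nat_lit 1442500, nat_lit 1271250], [nat_lit 9, nat_lit 40, nat_lit 20, nat_lit 80, nat_lit 2, nat_lit 215, nat_lit 10, nat_lit 8]⟩, C1.Rw.none,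
 ⟨nat_lit 6264, nat_lit 6285, ⟨.ofNat (nat_lit 152527), .ofNat (nat_lit 209846), .ofNat (nat_lit 155732), .ofNat (nat_lit 213051), .ofNat (nat_lit 153413), .ofNat (nat_lit 210599), .ofNat (nat_lit 156617), .ofNat (nat_lit 213804)⟩, ⟨.ofNat (nat_lit 0), .ofNat (nat_lit 0), .ofNat (nat_lit 0), .ofNat (nat_lit 0), .ofNat (nat_lit 0), .ofNat (nat_lit 0), .ofNat (nat_lit 0), .ofNat (nat_lit 0)⟩⟩, [⟨nat_lit 0, nat_lit 100, nat_lit 99, nat_lit 40, nat_lit 2432828560⟩]⟩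
noncomputable def b_NL_600_550_0_4 : St := ⟨false, nat_lit 1, nat_lit 0, nat_lit 1, nat_lit 20, nat_lit 240, nat_lit 243, nat_lit 235, nat_lit 238, nat_lit 12, nat_lit 40, nat_lit 0, nat_lit 0, nat_lit 0, nat_lit 0, nat_lit 0, nat_lit 0, nat_lit 4, nat_lit 8, nat_lit 600, nat_lit 0, nat_lit 200, nat_lit 260⟩
theorem d_NL_600_550_0_4 (h : EB TB.env) : Dead b_NL_600_550_0_4 := chkB_sound0 h (T :=
(.spl (nat_lit 0) (nat_lit 242)
(.spl (nat_lit 1) (nat_lit 237)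
(.spl (nat_lit 0) (nat_lit 241)
(.spl (nat_lit 1) (nat_lit 236)
(.leaf p008_l203)
(.spl (nat_lit 8) (nat_lit 240)
(.spl (nat_lit 8) (nat_lit 220)
(.spl (nat_lit 7) (nat_lit 900)
(.leaf p008_l204)
(.leaf p008_l205))
(.spl (nat_lit 2) (nat_lit 20)
(.spl (nat_lit 2) (nat_lit 16)
(.spl (nat_lit 7) (nat_lit 900)
(.leaf p008_l206)
(.leaf p008_l207))
(.leaf p008_l208))
(.leaf p008_l209)))
(.spl (nat_lit 2) (nat_lit 20)
(.spl (nat_lit 2) (nat_lit 16)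
(.spl (nat_lit 7) (nat_lit 900)
(.leaf p008_l210)
(.leaf p008_l211))
(.leaf p008_l212))
(.leaf p008_l213))))
(.leaf p008_l214))
(.spl (nat_lit 0) (nat_lit 241)
(.spl (nat_lit 8) (nat_lit 240)
(.spl (nat_lit 8) (nat_lit 220)
(.spl (nat_lit 7) (nat_lit 900)
(.leaf p008_l215)
(.leaf p008_l216))
(.spl (nat_lit 2) (nat_lit 20)
(.spl (nat_lit 7) (nat_lit 900)
(.leaf p008_l217)
(.leaf p008_l218))
(.spl (nat_lit 7) (nat_lit 900)
(.leaf p008_l219)
(.leaf p008_l220))))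
(.spl (nat_lit 2) (nat_lit 20)
(.spl (nat_lit 2) (nat_lit 16)
(.spl (nat_lit 7) (nat_lit 900)
(.leaf p008_l221)
(.leaf p008_l222))
(.spl (nat_lit 7) (nat_lit 900)
(.leaf p008_l223)
(.leaf p008_l224)))
(.leaf p008_l225)))
(.spl (nat_lit 8) (nat_lit 240)
(.spl (nat_lit 8) (nat_lit 220)
(.spl (nat_lit 2) (nat_lit 20)
(.spl (nat_lit 2) (nat_lit 16)
(.spl (nat_lit 7) (nat_lit 900)
(.leaf p008_l226)
(.leaf p008_l227))
(.leaf p008_l228))
(.leaf p008_l229))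
(.spl (nat_lit 2) (nat_lit 20)
(.spl (nat_lit 2) (nat_lit 16)
(.spl (nat_lit 7) (nat_lit 900)
(.leaf p008_l230)
(.leaf p008_l231))
(.leaf p008_l232))
(.leaf p008_l233)))
(.spl (nat_lit 2) (nat_lit 20)
(.spl (nat_lit 2) (nat_lit 16)
(.leaf p008_l234)
(.leaf p008_l235))
(.leaf p008_l236)))))
(.leaf p008_l237))) (by decide +kernel)
noncomputable def p008_l238 : Lf2 := ⟨nat_lit 2, nat_lit 2, [nat_lit 10, nat_lit 5, nat_lit 5, nat_lit 20], true, nat_lit 0, nat_lit 0, nat_lit 0, nat_lit 0, zbN0,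
 nat_lit 0, nat_lit 0, nat_lit 0, nat_lit 0, nat_lit 0, nat_lit 0, nat_lit 0, nat_lit 0, nat_lit 0, nat_lit 0, nat_lit 0, nat_lit 0, nat_lit 0, nat_lit 0, nat_lit 0, nat_lit 0, nat_lit 0, nat_lit 0, [],
 ⟨p008_k26, nat_lit 0, nat_lit 0, nat_lit 0, nat_lit 0, nat_lit 286297, [], [], [], nat_lit 1271250, nat_lit 1271250, nat_lit 65850, nat_lit 230001, nat_lit 0, nat_lit 0, [nat_lit 1100000, nat_lit 1271250, nat_lit 1271250], [nat_lit 105, nat_lit 40, nat_lit 20, nat_lit 40]⟩, C1.Rw.none,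
 zbF0, []⟩
noncomputable def p008_l239 : Lf2 := ⟨nat_lit 2, nat_lit 2, [nat_lit 10, nat_lit 5, nat_lit 5, nat_lit 20], true, nat_lit 0, nat_lit 0, nat_lit 0, nat_lit 0, zbN0,
 nat_lit 0, nat_lit 0, nat_lit 0, nat_lit 0, nat_lit 0, nat_lit 0, nat_lit 0, nat_lit 0, nat_lit 0, nat_lit 0, nat_lit 0, nat_lit 0, nat_lit 0, nat_lit 0, nat_lit 0, nat_lit 0, nat_lit 0, nat_lit 0, [],
 ⟨p008_k47, nat_lit 0, nat_lit 0, nat_lit 299, nat_lit 0, nat_lit 286297, [], [], [], nat_lit 1271250, nat_lit 1271250, nat_lit 65850, nat_lit 230001, nat_lit 0, nat_lit 0, [nat_lit 1100000, nat_lit 1785000], [nat_lit 39, nat_lit 40, nat_lit 20, nat_lit 80, nat_lit 7, nat_lit 215, nat_lit 10, nat_lit 8]⟩, C1.Rw.none,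
 zbF0, []⟩
noncomputable def p008_l240 : Lf2 := ⟨nat_lit 2, nat_lit 2, [nat_lit 10, nat_lit 5, nat_lit 5, nat_lit 20], true, nat_lit 0, nat_lit 0, nat_lit 0, nat_lit 0, zbN0,
 nat_lit 0, nat_lit 0, nat_lit 0, nat_lit 0, nat_lit 0, nat_lit 0, nat_lit 0, nat_lit 0, nat_lit 0, nat_lit 0, nat_lit 0, nat_lit 0, nat_lit 0, nat_lit 0, nat_lit 0, nat_lit 0, nat_lit 0, nat_lit 0, [],
 ⟨p008_k26, nat_lit 0, nat_lit 0, nat_lit 0, nat_lit 0, nat_lit 286297, [], [], [], nat_lit 1271250, nat_lit 1271250, nat_lit 65850, nat_lit 111251, nat_lit 0, nat_lit 0, [nat_lit 1100000, nat_lit 1271250, nat_lit 1271250], [nat_lit 105, nat_lit 40, nat_lit 20, nat_lit 40]⟩, C1.Rw.none,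
 zbF0, []⟩
noncomputable def p008_l241 : Lf2 := ⟨nat_lit 2, nat_lit 2, [nat_lit 10, nat_lit 5, nat_lit 5, nat_lit 20], true, nat_lit 0, nat_lit 0, nat_lit 0, nat_lit 0, zbN0,
 nat_lit 0, nat_lit 0, nat_lit 0, nat_lit 0, nat_lit 0, nat_lit 0, nat_lit 0, nat_lit 0, nat_lit 0, nat_lit 0, nat_lit 0, nat_lit 0, nat_lit 0, nat_lit 0, nat_lit 0, nat_lit 0, nat_lit 0, nat_lit 0, [],
 ⟨p008_k47, nat_lit 0, nat_lit 0, nat_lit 299, nat_lit 0, nat_lit 286297, [], [], [], nat_lit 1271250, nat_lit 1271250, nat_lit 65850, nat_lit 111251, nat_lit 0, nat_lit 0, [nat_lit 1100000, nat_lit 1785000], [nat_lit 39, nat_lit 40, nat_lit 20, nat_lit 80, nat_lit 7, nat_lit 215, nat_lit 10, nat_lit 8]⟩, C1.Rw.none,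
 zbF0, []⟩
noncomputable def p008_l242 : Lf2 := ⟨nat_lit 0, nat_lit 2, [nat_lit 10, nat_lit 5, nat_lit 5, nat_lit 20], false, nat_lit 0, nat_lit 0, nat_lit 0, nat_lit 0, ⟨nat_lit 1000, nat_lit 0, nat_lit 0, nat_lit 0, nat_lit 0, nat_lit 0, nat_lit 0, nat_lit 0, nat_lit 0, nat_lit 0, nat_lit 0, nat_lit 0, nat_lit 0, nat_lit 0, nat_lit 0, nat_lit 0, false, false⟩,
 nat_lit 0, nat_lit 9735, nat_lit 0, nat_lit 0, nat_lit 5153, nat_lit 4551, nat_lit 0, nat_lit 0, nat_lit 0, nat_lit 1695, nat_lit 0, nat_lit 0, nat_lit 0, nat_lit 0, nat_lit 0, nat_lit 0, nat_lit 0, nat_lit 0, [],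
 ⟨p008_k66, nat_lit 0, nat_lit 0, nat_lit 0, nat_lit 0, nat_lit 286297, [nat_lit 4688000000, nat_lit 6250000000, nat_lit 7089500000], [], [nat_lit 35335939324, nat_lit 35378145536, nat_lit 34838393540, nat_lit 34883444471], nat_lit 1271250, nat_lit 1271250, nat_lit 111251, nat_lit 230001, nat_lit 0, nat_lit 0, [nat_lit 1100000, nat_lit 1442500, nat_lit 1271250], [nat_lit 176, nat_lit 40, nat_lit 20, nat_lit 40]⟩, ⟨p008_k67, nat_lit 0, nat_lit 0, nat_lit 0, nat_lit 0, nat_lit 0, [nat_lit 2637500000, nat_lit 5449500000, nat_lit 7089500000], [], [nat_lit 18365079631, nat_lit 18432001049, nat_lit 17743535405, nat_lit 17809873724], nat_lit 0, nat_lit 0, nat_lit 0, nat_lit 0, nat_lit 0, nat_lit 0, [], [nat_lit 90, nat_lit 40, nat_lit 20, nat_lit 40]⟩,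
 zbF0, []⟩
noncomputable def p008_l243 : Lf2 := ⟨nat_lit 2, nat_lit 2, [nat_lit 10, nat_lit 5, nat_lit 5, nat_lit 20], true, nat_lit 0, nat_lit 0, nat_lit 0, nat_lit 0, zbN0,
 nat_lit 0, nat_lit 0, nat_lit 0, nat_lit 0, nat_lit 0, nat_lit 0, nat_lit 0, nat_lit 0, nat_lit 0, nat_lit 0, nat_lit 0, nat_lit 0, nat_lit 0, nat_lit 0, nat_lit 0, nat_lit 0, nat_lit 0, nat_lit 0, [],
 ⟨p008_k47, nat_lit 0, nat_lit 0, nat_lit 290, nat_lit 0, nat_lit 286297, [], [], [], nat_lit 1271250, nat_lit 1271250, nat_lit 111251, nat_lit 230001, nat_lit 0, nat_lit 0, [nat_lit 1100000, nat_lit 1785000], [nat_lit 39, nat_lit 40, nat_lit 20, nat_lit 80, nat_lit 7, nat_lit 215, nat_lit 10, nat_lit 8]⟩, C1.Rw.none,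
 zbF0, []⟩
noncomputable def p008_l244 : Lf2 := ⟨nat_lit 0, nat_lit 2, [nat_lit 10, nat_lit 5, nat_lit 5, nat_lit 20], false, nat_lit 0, nat_lit 0, nat_lit 0, nat_lit 0, ⟨nat_lit 1000, nat_lit 0, nat_lit 0, nat_lit 0, nat_lit 0, nat_lit 0, nat_lit 0, nat_lit 0, nat_lit 0, nat_lit 0, nat_lit 0, nat_lit 0, nat_lit 0, nat_lit 0, nat_lit 0, nat_lit 0, false, false⟩,
 nat_lit 0, nat_lit 57291, nat_lit 0, nat_lit 0, nat_lit 30330, nat_lit 100000, nat_lit 0, nat_lit 0, nat_lit 0, nat_lit 42197, nat_lit 11004, nat_lit 0, nat_lit 0, nat_lit 0, nat_lit 0, nat_lit 0, nat_lit 0, nat_lit 0, [],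
 ⟨p008_k9, nat_lit 0, nat_lit 0, nat_lit 314, nat_lit 0, nat_lit 286297, [nat_lit 4688000000, nat_lit 6250000000, nat_lit 7968000000], [], [nat_lit 13497779336, nat_lit 13729589203, nat_lit 11715392120, nat_lit 11946783120], nat_lit 1271250, nat_lit 1271250, nat_lit 65850, nat_lit 88400, nat_lit 0, nat_lit 0, [nat_lit 1100000, nat_lit 1442500, nat_lit 1271250], [nat_lit 9, nat_lit 40, nat_lit 20, nat_lit 80, nat_lit 2, nat_lit 215, nat_lit 10, nat_lit 8]⟩, ⟨p008_k68, nat_lit 0, nat_lit 0, nat_lit 0, nat_lit 0, nat_lit 0, [nat_lit 90064000000, nat_lit 180752000000, nat_lit 226330000000, nat_lit 249177500000], [], [nat_lit 254483507036, nat_lit 255252916555, nat_lit 247063787036, nat_lit 247815917915], nat_lit 0, nat_lit 0, nat_lit 0, nat_lit 0, nat_lit 0, nat_lit 0, [], [nat_lit 101, nat_lit 40, nat_lit 20, nat_lit 40]⟩,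
 zbF0, [⟨nat_lit 0, nat_lit 100, nat_lit 100, nat_lit 39, nat_lit 2336059153⟩, ⟨nat_lit 0, nat_lit 100, nat_lit 100, nat_lit 39, nat_lit 10000000000⟩]⟩
noncomputable def p008_l245 : Lf2 := ⟨nat_lit 2, nat_lit 2, [nat_lit 10, nat_lit 5, nat_lit 5, nat_lit 20], true, nat_lit 0, nat_lit 0, nat_lit 0, nat_lit 0, zbN0,
 nat_lit 0, nat_lit 0, nat_lit 0, nat_lit 0, nat_lit 0, nat_lit 0, nat_lit 0, nat_lit 0, nat_lit 0, nat_lit 0, nat_lit 0, nat_lit 0, nat_lit 0, nat_lit 0, nat_lit 0, nat_lit 0, nat_lit 0, nat_lit 0, [],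
 ⟨p008_k26, nat_lit 0, nat_lit 0, nat_lit 0, nat_lit 0, nat_lit 286297, [], [], [], nat_lit 1271250, nat_lit 1271250, nat_lit 88400, nat_lit 111251, nat_lit 0, nat_lit 0, [nat_lit 1100000, nat_lit 1271250, nat_lit 1271250], [nat_lit 105, nat_lit 40, nat_lit 20, nat_lit 40]⟩, C1.Rw.none,
 zbF0, []⟩
noncomputable def p008_l246 : Lf2 := ⟨nat_lit 2, nat_lit 2, [nat_lit 10, nat_lit 5, nat_lit 5, nat_lit 20], true, nat_lit 0, nat_lit 0, nat_lit 0, nat_lit 0, zbN0,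
 nat_lit 0, nat_lit 0, nat_lit 0, nat_lit 0, nat_lit 0, nat_lit 0, nat_lit 0, nat_lit 0, nat_lit 0, nat_lit 0, nat_lit 0, nat_lit 0, nat_lit 0, nat_lit 0, nat_lit 0, nat_lit 0, nat_lit 0, nat_lit 0, [],
 ⟨p008_k47, nat_lit 0, nat_lit 0, nat_lit 294, nat_lit 0, nat_lit 286297, [], [], [], nat_lit 1271250, nat_lit 1271250, nat_lit 88400, nat_lit 111251, nat_lit 0, nat_lit 0, [nat_lit 1100000, nat_lit 1785000], [nat_lit 39, nat_lit 40, nat_lit 20, nat_lit 80, nat_lit 7, nat_lit 215, nat_lit 10, nat_lit 8]⟩, C1.Rw.none,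
 zbF0, []⟩
noncomputable def p008_l247 : Lf2 := ⟨nat_lit 0, nat_lit 2, [nat_lit 10, nat_lit 5, nat_lit 5, nat_lit 20], false, nat_lit 0, nat_lit 0, nat_lit 0, nat_lit 0, ⟨nat_lit 1000, nat_lit 0, nat_lit 0, nat_lit 0, nat_lit 0, nat_lit 0, nat_lit 0, nat_lit 0, nat_lit 0, nat_lit 0, nat_lit 0, nat_lit 0, nat_lit 0, nat_lit 0, nat_lit 0, nat_lit 0, false, false⟩,
 nat_lit 0, nat_lit 11039, nat_lit 0, nat_lit 0, nat_lit 5844, nat_lit 100000, nat_lit 0, nat_lit 0, nat_lit 0, nat_lit 1965, nat_lit 9477, nat_lit 0, nat_lit 0, nat_lit 0, nat_lit 0, nat_lit 0, nat_lit 0, nat_lit 0, [],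
 ⟨p008_k9, nat_lit 0, nat_lit 0, nat_lit 303, nat_lit 0, nat_lit 286297, [nat_lit 4688000000, nat_lit 6250000000, nat_lit 7968000000], [], [nat_lit 35297041552, nat_lit 35326758510, nat_lit 34665714880, nat_lit 34710960703], nat_lit 1271250, nat_lit 1271250, nat_lit 111251, nat_lit 230001, nat_lit 0, nat_lit 0, [nat_lit 1100000, nat_lit 1442500, nat_lit 1271250], [nat_lit 9, nat_lit 40, nat_lit 20, nat_lit 80, nat_lit 2, nat_lit 215, nat_lit 10, nat_lit 8]⟩, ⟨p008_k67, nat_lit 0, nat_lit 0, nat_lit 0, nat_lit 0, nat_lit 0, [nat_lit 97407500000, nat_lit 176035500000, nat_lit 215583500000], [], [nat_lit 240115428051, nat_lit 240845004151, nat_lit 219154026450, nat_lit 219876939350], nat_lit 0, nat_lit 0, nat_lit 0, nat_lit 0, nat_lit 0, nat_lit 0, [], [nat_lit 90, nat_lit 40, nat_lit 20, nat_lit 40]⟩,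
 zbF0, []⟩
noncomputable def p008_l248 : Lf2 := ⟨nat_lit 2, nat_lit 2, [nat_lit 10, nat_lit 5, nat_lit 5, nat_lit 20], true, nat_lit 0, nat_lit 0, nat_lit 0, nat_lit 0, zbN0,
 nat_lit 0, nat_lit 0, nat_lit 0, nat_lit 0, nat_lit 0, nat_lit 0, nat_lit 0, nat_lit 0, nat_lit 0, nat_lit 0, nat_lit 0, nat_lit 0, nat_lit 0, nat_lit 0, nat_lit 0, nat_lit 0, nat_lit 0, nat_lit 0, [],
 ⟨p008_k26, nat_lit 0, nat_lit 0, nat_lit 0, nat_lit 0, nat_lit 290132, [], [], [], nat_lit 1271250, nat_lit 1271250, nat_lit 65850, nat_lit 230001, nat_lit 0, nat_lit 0, [nat_lit 1100000, nat_lit 1271250, nat_lit 1271250], [nat_lit 105, nat_lit 40, nat_lit 20, nat_lit 40]⟩, C1.Rw.none,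
 zbF0, []⟩
noncomputable def p008_l249 : Lf2 := ⟨nat_lit 2, nat_lit 2, [nat_lit 10, nat_lit 5, nat_lit 5, nat_lit 20], true, nat_lit 0, nat_lit 0, nat_lit 0, nat_lit 0, zbN0,
 nat_lit 0, nat_lit 0, nat_lit 0, nat_lit 0, nat_lit 0, nat_lit 0, nat_lit 0, nat_lit 0, nat_lit 0, nat_lit 0, nat_lit 0, nat_lit 0, nat_lit 0, nat_lit 0, nat_lit 0, nat_lit 0, nat_lit 0, nat_lit 0, [],
 ⟨p008_k47, nat_lit 0, nat_lit 0, nat_lit 300, nat_lit 0, nat_lit 290132, [], [], [], nat_lit 1271250, nat_lit 1271250, nat_lit 65850, nat_lit 230001, nat_lit 0, nat_lit 0, [nat_lit 1100000, nat_lit 1785000], [nat_lit 39, nat_lit 40, nat_lit 20, nat_lit 80, nat_lit 7, nat_lit 215, nat_lit 10, nat_lit 8]⟩, C1.Rw.none,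
 zbF0, []⟩
noncomputable def p008_l250 : Lf2 := ⟨nat_lit 2, nat_lit 2, [nat_lit 10, nat_lit 5, nat_lit 5, nat_lit 20], true, nat_lit 0, nat_lit 0, nat_lit 0, nat_lit 0, zbN0,
 nat_lit 0, nat_lit 0, nat_lit 0, nat_lit 0, nat_lit 0, nat_lit 0, nat_lit 0, nat_lit 0, nat_lit 0, nat_lit 0, nat_lit 0, nat_lit 0, nat_lit 0, nat_lit 0, nat_lit 0, nat_lit 0, nat_lit 0, nat_lit 0, [],
 ⟨p008_k26, nat_lit 0, nat_lit 0, nat_lit 0, nat_lit 0, nat_lit 290132, [], [], [], nat_lit 1271250, nat_lit 1271250, nat_lit 65850, nat_lit 111251, nat_lit 0, nat_lit 0, [nat_lit 1100000, nat_lit 1271250, nat_lit 1271250], [nat_lit 105, nat_lit 40, nat_lit 20, nat_lit 40]⟩, C1.Rw.none,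
 zbF0, []⟩
noncomputable def p008_l251 : Lf2 := ⟨nat_lit 2, nat_lit 2, [nat_lit 10, nat_lit 5, nat_lit 5, nat_lit 20], true, nat_lit 0, nat_lit 0, nat_lit 0, nat_lit 0, zbN0,
 nat_lit 0, nat_lit 0, nat_lit 0, nat_lit 0, nat_lit 0, nat_lit 0, nat_lit 0, nat_lit 0, nat_lit 0, nat_lit 0, nat_lit 0, nat_lit 0, nat_lit 0, nat_lit 0, nat_lit 0, nat_lit 0, nat_lit 0, nat_lit 0, [],
 ⟨p008_k47, nat_lit 0, nat_lit 0, nat_lit 300, nat_lit 0, nat_lit 290132, [], [], [], nat_lit 1271250, nat_lit 1271250, nat_lit 65850, nat_lit 111251, nat_lit 0, nat_lit 0, [nat_lit 1100000, nat_lit 1785000], [nat_lit 39, nat_lit 40, nat_lit 20, nat_lit 80, nat_lit 7, nat_lit 215, nat_lit 10, nat_lit 8]⟩, C1.Rw.none,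
 zbF0, []⟩
noncomputable def p008_l252 : Lf2 := ⟨nat_lit 0, nat_lit 2, [nat_lit 10, nat_lit 5, nat_lit 5, nat_lit 20], false, nat_lit 0, nat_lit 0, nat_lit 0, nat_lit 0, ⟨nat_lit 1000, nat_lit 0, nat_lit 0, nat_lit 0, nat_lit 0, nat_lit 0, nat_lit 0, nat_lit 0, nat_lit 0, nat_lit 0, nat_lit 0, nat_lit 0, nat_lit 0, nat_lit 0, nat_lit 0, nat_lit 0, false, false⟩,
 nat_lit 0, nat_lit 11039, nat_lit 0, nat_lit 0, nat_lit 5844, nat_lit 3800, nat_lit 0, nat_lit 0, nat_lit 0, nat_lit 2272, nat_lit 0, nat_lit 0, nat_lit 0, nat_lit 0, nat_lit 0, nat_lit 0, nat_lit 0, nat_lit 0, [],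
 ⟨p008_k9, nat_lit 0, nat_lit 0, nat_lit 305, nat_lit 0, nat_lit 290132, [nat_lit 4688000000, nat_lit 6250000000, nat_lit 7968000000], [], [nat_lit 35297041552, nat_lit 35326758510, nat_lit 34665714880, nat_lit 34710960703], nat_lit 1271250, nat_lit 1271250, nat_lit 111251, nat_lit 230001, nat_lit 0, nat_lit 0, [nat_lit 1100000, nat_lit 1442500, nat_lit 1271250], [nat_lit 9, nat_lit 40, nat_lit 20, nat_lit 80, nat_lit 2, nat_lit 215, nat_lit 10, nat_lit 8]⟩, ⟨p008_k69, nat_lit 0, nat_lit 0, nat_lit 0, nat_lit 0, nat_lit 0, [nat_lit 2032000000, nat_lit 4688000000, nat_lit 6250000000, nat_lit 7089500000], [], [nat_lit 17559652561, nat_lit 17622990400, nat_lit 17085088880, nat_lit 17150429600], nat_lit 0, nat_lit 0, nat_lit 0, nat_lit 0, nat_lit 0, nat_lit 0, [], [nat_lit 101, nat_lit 40, nat_lit 20, nat_lit 40]⟩,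
 zbF0, []⟩
noncomputable def p008_l253 : Lf2 := ⟨nat_lit 0, nat_lit 2, [nat_lit 10, nat_lit 5, nat_lit 5, nat_lit 20], false, nat_lit 0, nat_lit 0, nat_lit 0, nat_lit 0, ⟨nat_lit 1000, nat_lit 0, nat_lit 0, nat_lit 0, nat_lit 0, nat_lit 0, nat_lit 0, nat_lit 0, nat_lit 0, nat_lit 0, nat_lit 0, nat_lit 0, nat_lit 0, nat_lit 0, nat_lit 0, nat_lit 0, false, false⟩,
 nat_lit 0, nat_lit 57291, nat_lit 0, nat_lit 0, nat_lit 30330, nat_lit 100000, nat_lit 0, nat_lit 0, nat_lit 0, nat_lit 40625, nat_lit 11007, nat_lit 0, nat_lit 0, nat_lit 0, nat_lit 0, nat_lit 0, nat_lit 0, nat_lit 0, [],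
 ⟨p008_k9, nat_lit 0, nat_lit 0, nat_lit 316, nat_lit 0, nat_lit 290132, [nat_lit 4688000000, nat_lit 6250000000, nat_lit 7968000000], [], [nat_lit 13497779336, nat_lit 13729589203, nat_lit 11715392120, nat_lit 11946783120], nat_lit 1271250, nat_lit 1271250, nat_lit 65850, nat_lit 88400, nat_lit 0, nat_lit 0, [nat_lit 1100000, nat_lit 1442500, nat_lit 1271250], [nat_lit 9, nat_lit 40, nat_lit 20, nat_lit 80, nat_lit 2, nat_lit 215, nat_lit 10, nat_lit 8]⟩, ⟨p008_k69, nat_lit 0, nat_lit 0, nat_lit 0, nat_lit 0, nat_lit 0, [nat_lit 90088000000, nat_lit 180800000000, nat_lit 226390000000, nat_lit 249243500000], [], [nat_lit 255370847805, nat_lit 256140257325, nat_lit 247955629005, nat_lit 248705539725], nat_lit 0, nat_lit 0, nat_lit 0, nat_lit 0, nat_lit 0, nat_lit 0, [], [nat_lit 101, nat_lit 40, nat_lit 20, nat_lit 40]⟩,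
 zbF0, [⟨nat_lit 0, nat_lit 100, nat_lit 100, nat_lit 40, nat_lit 10000000000⟩, ⟨nat_lit 0, nat_lit 100, nat_lit 100, nat_lit 40, nat_lit 2332335399⟩]⟩
noncomputable def p008_l254 : Lf2 := ⟨nat_lit 2, nat_lit 2, [nat_lit 10, nat_lit 5, nat_lit 5, nat_lit 20], true, nat_lit 0, nat_lit 0, nat_lit 0, nat_lit 0, zbN0,
 nat_lit 0, nat_lit 0, nat_lit 0, nat_lit 0, nat_lit 0, nat_lit 0, nat_lit 0, nat_lit 0, nat_lit 0, nat_lit 0, nat_lit 0, nat_lit 0, nat_lit 0, nat_lit 0, nat_lit 0, nat_lit 0, nat_lit 0, nat_lit 0, [],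
 ⟨p008_k26, nat_lit 0, nat_lit 0, nat_lit 0, nat_lit 0, nat_lit 290132, [], [], [], nat_lit 1271250, nat_lit 1271250, nat_lit 88400, nat_lit 111251, nat_lit 0, nat_lit 0, [nat_lit 1100000, nat_lit 1271250, nat_lit 1271250], [nat_lit 105, nat_lit 40, nat_lit 20, nat_lit 40]⟩, C1.Rw.none,
 zbF0, []⟩
noncomputable def p008_l255 : Lf2 := ⟨nat_lit 2, nat_lit 2, [nat_lit 10, nat_lit 5, nat_lit 5, nat_lit 20], true, nat_lit 0, nat_lit 0, nat_lit 0, nat_lit 0, zbN0,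
 nat_lit 0, nat_lit 0, nat_lit 0, nat_lit 0, nat_lit 0, nat_lit 0, nat_lit 0, nat_lit 0, nat_lit 0, nat_lit 0, nat_lit 0, nat_lit 0, nat_lit 0, nat_lit 0, nat_lit 0, nat_lit 0, nat_lit 0, nat_lit 0, [],
 ⟨p008_k47, nat_lit 0, nat_lit 0, nat_lit 296, nat_lit 0, nat_lit 290132, [], [], [], nat_lit 1271250, nat_lit 1271250, nat_lit 88400, nat_lit 111251, nat_lit 0, nat_lit 0, [nat_lit 1100000, nat_lit 1785000], [nat_lit 39, nat_lit 40, nat_lit 20, nat_lit 80, nat_lit 7, nat_lit 215, nat_lit 10, nat_lit 8]⟩, C1.Rw.none,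
 zbF0, []⟩
noncomputable def p008_l256 : Lf2 := ⟨nat_lit 0, nat_lit 2, [nat_lit 10, nat_lit 5, nat_lit 5, nat_lit 20], false, nat_lit 0, nat_lit 0, nat_lit 0, nat_lit 0, ⟨nat_lit 1000, nat_lit 0, nat_lit 0, nat_lit 0, nat_lit 0, nat_lit 0, nat_lit 0, nat_lit 0, nat_lit 0, nat_lit 0, nat_lit 0, nat_lit 0, nat_lit 0, nat_lit 0, nat_lit 0, nat_lit 0, false, false⟩,
 nat_lit 0, nat_lit 11039, nat_lit 0, nat_lit 0, nat_lit 5844, nat_lit 100000, nat_lit 0, nat_lit 0, nat_lit 0, nat_lit 1965, nat_lit 9481, nat_lit 0, nat_lit 0, nat_lit 0, nat_lit 0, nat_lit 0, nat_lit 0, nat_lit 0, [],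
 ⟨p008_k9, nat_lit 0, nat_lit 0, nat_lit 305, nat_lit 0, nat_lit 290132, [nat_lit 4688000000, nat_lit 6250000000, nat_lit 7968000000], [], [nat_lit 35297041552, nat_lit 35326758510, nat_lit 34665714880, nat_lit 34710960703], nat_lit 1271250, nat_lit 1271250, nat_lit 111251, nat_lit 230001, nat_lit 0, nat_lit 0, [nat_lit 1100000, nat_lit 1442500, nat_lit 1271250], [nat_lit 9, nat_lit 40, nat_lit 20, nat_lit 80, nat_lit 2, nat_lit 215, nat_lit 10, nat_lit 8]⟩, ⟨p008_k70, nat_lit 0, nat_lit 0, nat_lit 0, nat_lit 0, nat_lit 0, [nat_lit 97447500000, nat_lit 176107500000, nat_lit 215671500000], [], [nat_lit 240880894776, nat_lit 241613058875, nat_lit 219912829975, nat_lit 220635742875], nat_lit 0, nat_lit 0, nat_lit 0, nat_lit 0, nat_lit 0, nat_lit 0, [], [nat_lit 90, nat_lit 40, nat_lit 20, nat_lit 40]⟩,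
 zbF0, []⟩
noncomputable def p008_l257 : Lf2 := ⟨nat_lit 2, nat_lit 2, [nat_lit 10, nat_lit 5, nat_lit 5, nat_lit 20], true, nat_lit 0, nat_lit 0, nat_lit 0, nat_lit 0, zbN0,
 nat_lit 0, nat_lit 0, nat_lit 0, nat_lit 0, nat_lit 0, nat_lit 0, nat_lit 0, nat_lit 0, nat_lit 0, nat_lit 0, nat_lit 0, nat_lit 0, nat_lit 0, nat_lit 0, nat_lit 0, nat_lit 0, nat_lit 0, nat_lit 0, [],
 ⟨p008_k62, nat_lit 0, nat_lit 0, nat_lit 0, nat_lit 0, nat_lit 288842, [], [], [], nat_lit 1271250, nat_lit 1271250, nat_lit 65850, nat_lit 230001, nat_lit 0, nat_lit 0, [nat_lit 1100000, nat_lit 1271250, nat_lit 1271250], [nat_lit 105, nat_lit 40, nat_lit 20, nat_lit 40]⟩, C1.Rw.none,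
 zbF0, []⟩
noncomputable def p008_l258 : Lf2 := ⟨nat_lit 2, nat_lit 2, [nat_lit 10, nat_lit 5, nat_lit 5, nat_lit 20], true, nat_lit 0, nat_lit 0, nat_lit 0, nat_lit 0, zbN0,
 nat_lit 0, nat_lit 0, nat_lit 0, nat_lit 0, nat_lit 0, nat_lit 0, nat_lit 0, nat_lit 0, nat_lit 0, nat_lit 0, nat_lit 0, nat_lit 0, nat_lit 0, nat_lit 0, nat_lit 0, nat_lit 0, nat_lit 0, nat_lit 0, [],
 ⟨p008_k63, nat_lit 0, nat_lit 0, nat_lit 300, nat_lit 0, nat_lit 288842, [], [], [], nat_lit 1271250, nat_lit 1271250, nat_lit 65850, nat_lit 230001, nat_lit 0, nat_lit 0, [nat_lit 1100000, nat_lit 1785000], [nat_lit 39, nat_lit 40, nat_lit 20, nat_lit 80, nat_lit 7, nat_lit 215, nat_lit 10, nat_lit 8]⟩, C1.Rw.none,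
 zbF0, []⟩
noncomputable def p008_l259 : Lf2 := ⟨nat_lit 2, nat_lit 2, [nat_lit 10, nat_lit 5, nat_lit 5, nat_lit 20], true, nat_lit 0, nat_lit 0, nat_lit 0, nat_lit 0, zbN0,
 nat_lit 0, nat_lit 0, nat_lit 0, nat_lit 0, nat_lit 0, nat_lit 0, nat_lit 0, nat_lit 0, nat_lit 0, nat_lit 0, nat_lit 0, nat_lit 0, nat_lit 0, nat_lit 0, nat_lit 0, nat_lit 0, nat_lit 0, nat_lit 0, [],
 ⟨p008_k62, nat_lit 0, nat_lit 0, nat_lit 0, nat_lit 0, nat_lit 288842, [], [], [], nat_lit 1271250, nat_lit 1271250, nat_lit 65850, nat_lit 111251, nat_lit 0, nat_lit 0, [nat_lit 1100000, nat_lit 1271250, nat_lit 1271250], [nat_lit 105, nat_lit 40, nat_lit 20, nat_lit 40]⟩, C1.Rw.none,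
 zbF0, []⟩
noncomputable def p008_l260 : Lf2 := ⟨nat_lit 2, nat_lit 2, [nat_lit 10, nat_lit 5, nat_lit 5, nat_lit 20], true, nat_lit 0, nat_lit 0, nat_lit 0, nat_lit 0, zbN0,
 nat_lit 0, nat_lit 0, nat_lit 0, nat_lit 0, nat_lit 0, nat_lit 0, nat_lit 0, nat_lit 0, nat_lit 0, nat_lit 0, nat_lit 0, nat_lit 0, nat_lit 0, nat_lit 0, nat_lit 0, nat_lit 0, nat_lit 0, nat_lit 0, [],
 ⟨p008_k63, nat_lit 0, nat_lit 0, nat_lit 300, nat_lit 0, nat_lit 288842, [], [], [], nat_lit 1271250, nat_lit 1271250, nat_lit 65850, nat_lit 111251, nat_lit 0, nat_lit 0, [nat_lit 1100000, nat_lit 1785000], [nat_lit 39, nat_lit 40, nat_lit 20, nat_lit 80, nat_lit 7, nat_lit 215, nat_lit 10, nat_lit 8]⟩, C1.Rw.none,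
 zbF0, []⟩
noncomputable def p008_l261 : Lf2 := ⟨nat_lit 0, nat_lit 2, [nat_lit 10, nat_lit 5, nat_lit 5, nat_lit 20], false, nat_lit 0, nat_lit 0, nat_lit 0, nat_lit 0, ⟨nat_lit 1000, nat_lit 0, nat_lit 0, nat_lit 0, nat_lit 0, nat_lit 0, nat_lit 0, nat_lit 0, nat_lit 0, nat_lit 0, nat_lit 0, nat_lit 0, nat_lit 0, nat_lit 0, nat_lit 0, nat_lit 0, false, false⟩,
 nat_lit 0, nat_lit 11143, nat_lit 0, nat_lit 0, nat_lit 5927, nat_lit 3802, nat_lit 0, nat_lit 0, nat_lit 0, nat_lit 2360, nat_lit 0, nat_lit 0, nat_lit 0, nat_lit 0, nat_lit 0, nat_lit 0, nat_lit 0, nat_lit 0, [],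
 ⟨p008_k60, nat_lit 0, nat_lit 0, nat_lit 304, nat_lit 0, nat_lit 288842, [nat_lit 4688000000, nat_lit 6250000000, nat_lit 7968000000], [], [nat_lit 35139188372, nat_lit 35168736504, nat_lit 34493561675, nat_lit 34539074309], nat_lit 1271250, nat_lit 1271250, nat_lit 111251, nat_lit 230001, nat_lit 0, nat_lit 0, [nat_lit 1100000, nat_lit 1442500, nat_lit 1271250], [nat_lit 9, nat_lit 40, nat_lit 20, nat_lit 80, nat_lit 2, nat_lit 215, nat_lit 10, nat_lit 8]⟩, ⟨p008_k68, nat_lit 0, nat_lit 0, nat_lit 0, nat_lit 0, nat_lit 0, [nat_lit 2032000000, nat_lit 4688000000, nat_lit 6250000000, nat_lit 7089500000], [], [nat_lit 17492225145, nat_lit 17555354887, nat_lit 17017547261, nat_lit 17082903283], nat_lit 0, nat_lit 0, nat_lit 0, nat_lit 0, nat_lit 0, nat_lit 0, [], [nat_lit 101, nat_lit 40, nat_lit 20, nat_lit 40]⟩,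
 zbF0, []⟩
noncomputable def p008_l262 : Lf2 := ⟨nat_lit 0, nat_lit 2, [nat_lit 10, nat_lit 5, nat_lit 5, nat_lit 20], false, nat_lit 0, nat_lit 0, nat_lit 0, nat_lit 0, ⟨nat_lit 1000, nat_lit 0, nat_lit 0, nat_lit 0, nat_lit 0, nat_lit 0, nat_lit 0, nat_lit 0, nat_lit 0, nat_lit 0, nat_lit 0, nat_lit 0, nat_lit 0, nat_lit 0, nat_lit 0, nat_lit 0, false, false⟩,
 nat_lit 0, nat_lit 53417, nat_lit 0, nat_lit 0, nat_lit 28418, nat_lit 100000, nat_lit 0, nat_lit 0, nat_lit 0, nat_lit 42197, nat_lit 11004, nat_lit 0, nat_lit 0, nat_lit 0, nat_lit 0, nat_lit 0, nat_lit 0, nat_lit 0, [],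
 ⟨p008_k60, nat_lit 0, nat_lit 0, nat_lit 316, nat_lit 0, nat_lit 288842, [nat_lit 4688000000, nat_lit 6250000000, nat_lit 7968000000], [], [nat_lit 14842783862, nat_lit 15062077739, nat_lit 13175552976, nat_lit 13394560606], nat_lit 1271250, nat_lit 1271250, nat_lit 65850, nat_lit 88400, nat_lit 0, nat_lit 0, [nat_lit 1100000, nat_lit 1442500, nat_lit 1271250], [nat_lit 9, nat_lit 40, nat_lit 20, nat_lit 80, nat_lit 2, nat_lit 215, nat_lit 10, nat_lit 8]⟩, ⟨p008_k68, nat_lit 0, nat_lit 0, nat_lit 0, nat_lit 0, nat_lit 0, [nat_lit 90064000000, nat_lit 180752000000, nat_lit 226330000000, nat_lit 249177500000], [], [nat_lit 254483507036, nat_lit 255252916555, nat_lit 247063787036, nat_lit 247815917915], nat_lit 0, nat_lit 0, nat_lit 0, nat_lit 0, nat_lit 0, nat_lit 0, [], [nat_lit 101, nat_lit 40, nat_lit 20, nat_lit 40]⟩,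
 zbF0, [⟨nat_lit 0, nat_lit 100, nat_lit 100, nat_lit 40, nat_lit 10000000000⟩, ⟨nat_lit 0, nat_lit 100, nat_lit 100, nat_lit 40, nat_lit 2190286613⟩]⟩
noncomputable def p008_l263 : Lf2 := ⟨nat_lit 2, nat_lit 2, [nat_lit 10, nat_lit 5, nat_lit 5, nat_lit 20], true, nat_lit 0, nat_lit 0, nat_lit 0, nat_lit 0, zbN0,
 nat_lit 0, nat_lit 0, nat_lit 0, nat_lit 0, nat_lit 0, nat_lit 0, nat_lit 0, nat_lit 0, nat_lit 0, nat_lit 0, nat_lit 0, nat_lit 0, nat_lit 0, nat_lit 0, nat_lit 0, nat_lit 0, nat_lit 0, nat_lit 0, [],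
 ⟨p008_k62, nat_lit 0, nat_lit 0, nat_lit 0, nat_lit 0, nat_lit 288842, [], [], [], nat_lit 1271250, nat_lit 1271250, nat_lit 88400, nat_lit 111251, nat_lit 0, nat_lit 0, [nat_lit 1100000, nat_lit 1271250, nat_lit 1271250], [nat_lit 105, nat_lit 40, nat_lit 20, nat_lit 40]⟩, C1.Rw.none,
 zbF0, []⟩
noncomputable def p008_l264 : Lf2 := ⟨nat_lit 2, nat_lit 2, [nat_lit 10, nat_lit 5, nat_lit 5, nat_lit 20], true, nat_lit 0, nat_lit 0, nat_lit 0, nat_lit 0, zbN0,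
 nat_lit 0, nat_lit 0, nat_lit 0, nat_lit 0, nat_lit 0, nat_lit 0, nat_lit 0, nat_lit 0, nat_lit 0, nat_lit 0, nat_lit 0, nat_lit 0, nat_lit 0, nat_lit 0, nat_lit 0, nat_lit 0, nat_lit 0, nat_lit 0, [],
 ⟨p008_k63, nat_lit 0, nat_lit 0, nat_lit 295, nat_lit 0, nat_lit 288842, [], [], [], nat_lit 1271250, nat_lit 1271250, nat_lit 88400, nat_lit 111251, nat_lit 0, nat_lit 0, [nat_lit 1100000, nat_lit 1785000], [nat_lit 39, nat_lit 40, nat_lit 20, nat_lit 80, nat_lit 7, nat_lit 215, nat_lit 10, nat_lit 8]⟩, C1.Rw.none,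
 zbF0, []⟩
noncomputable def p008_l265 : Lf2 := ⟨nat_lit 0, nat_lit 2, [nat_lit 10, nat_lit 5, nat_lit 5, nat_lit 20], false, nat_lit 0, nat_lit 0, nat_lit 0, nat_lit 0, ⟨nat_lit 1000, nat_lit 0, nat_lit 0, nat_lit 0, nat_lit 0, nat_lit 0, nat_lit 0, nat_lit 0, nat_lit 0, nat_lit 0, nat_lit 0, nat_lit 0, nat_lit 0, nat_lit 0, nat_lit 0, nat_lit 0, false, false⟩,
 nat_lit 0, nat_lit 11143, nat_lit 0, nat_lit 0, nat_lit 5927, nat_lit 100000, nat_lit 0, nat_lit 0, nat_lit 0, nat_lit 1986, nat_lit 9477, nat_lit 0, nat_lit 0, nat_lit 0, nat_lit 0, nat_lit 0, nat_lit 0, nat_lit 0, [],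
 ⟨p008_k60, nat_lit 0, nat_lit 0, nat_lit 304, nat_lit 0, nat_lit 288842, [nat_lit 4688000000, nat_lit 6250000000, nat_lit 7968000000], [], [nat_lit 35139188372, nat_lit 35168736504, nat_lit 34493561675, nat_lit 34539074309], nat_lit 1271250, nat_lit 1271250, nat_lit 111251, nat_lit 230001, nat_lit 0, nat_lit 0, [nat_lit 1100000, nat_lit 1442500, nat_lit 1271250], [nat_lit 9, nat_lit 40, nat_lit 20, nat_lit 80, nat_lit 2, nat_lit 215, nat_lit 10, nat_lit 8]⟩, ⟨p008_k67, nat_lit 0, nat_lit 0, nat_lit 0, nat_lit 0, nat_lit 0, [nat_lit 97407500000, nat_lit 176035500000, nat_lit 215583500000], [], [nat_lit 240100334301, nat_lit 240829910401, nat_lit 219138932700, nat_lit 219861845600], nat_lit 0, nat_lit 0, nat_lit 0, nat_lit 0, nat_lit 0, nat_lit 0, [], [nat_lit 90, nat_lit 40, nat_lit 20, nat_lit 40]⟩,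
 zbF0, []⟩
noncomputable def p008_l266 : Lf2 := ⟨nat_lit 2, nat_lit 2, [nat_lit 10, nat_lit 5, nat_lit 5, nat_lit 20], true, nat_lit 0, nat_lit 0, nat_lit 0, nat_lit 0, zbN0,
 nat_lit 0, nat_lit 0, nat_lit 0, nat_lit 0, nat_lit 0, nat_lit 0, nat_lit 0, nat_lit 0, nat_lit 0, nat_lit 0, nat_lit 0, nat_lit 0, nat_lit 0, nat_lit 0, nat_lit 0, nat_lit 0, nat_lit 0, nat_lit 0, [],
 ⟨p008_k62, nat_lit 0, nat_lit 0, nat_lit 0, nat_lit 0, nat_lit 292635, [], [], [], nat_lit 1271250, nat_lit 1271250, nat_lit 88400, nat_lit 181601, nat_lit 0, nat_lit 0, [nat_lit 1100000, nat_lit 1271250, nat_lit 1271250], [nat_lit 105, nat_lit 40, nat_lit 20, nat_lit 40]⟩, C1.Rw.none,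
 zbF0, []⟩
noncomputable def p008_l267 : Lf2 := ⟨nat_lit 2, nat_lit 2, [nat_lit 10, nat_lit 5, nat_lit 5, nat_lit 20], true, nat_lit 0, nat_lit 0, nat_lit 0, nat_lit 0, zbN0,
 nat_lit 0, nat_lit 0, nat_lit 0, nat_lit 0, nat_lit 0, nat_lit 0, nat_lit 0, nat_lit 0, nat_lit 0, nat_lit 0, nat_lit 0, nat_lit 0, nat_lit 0, nat_lit 0, nat_lit 0, nat_lit 0, nat_lit 0, nat_lit 0, [],
 ⟨p008_k63, nat_lit 0, nat_lit 0, nat_lit 297, nat_lit 0, nat_lit 292635, [], [], [], nat_lit 1271250, nat_lit 1271250, nat_lit 88400, nat_lit 181601, nat_lit 0, nat_lit 0, [nat_lit 1100000, nat_lit 1785000], [nat_lit 39, nat_lit 40, nat_lit 20, nat_lit 80, nat_lit 7, nat_lit 215, nat_lit 10, nat_lit 8]⟩, C1.Rw.none,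
 zbF0, []⟩
noncomputable def p008_l268 : Lf2 := ⟨nat_lit 2, nat_lit 2, [nat_lit 10, nat_lit 5, nat_lit 5, nat_lit 20], true, nat_lit 0, nat_lit 0, nat_lit 0, nat_lit 0, zbN0,
 nat_lit 0, nat_lit 0, nat_lit 0, nat_lit 0, nat_lit 0, nat_lit 0, nat_lit 0, nat_lit 0, nat_lit 0, nat_lit 0, nat_lit 0, nat_lit 0, nat_lit 0, nat_lit 0, nat_lit 0, nat_lit 0, nat_lit 0, nat_lit 0, [],
 ⟨p008_k62, nat_lit 0, nat_lit 0, nat_lit 0, nat_lit 0, nat_lit 292635, [], [], [], nat_lit 1271250, nat_lit 1271250, nat_lit 88400, nat_lit 111251, nat_lit 0, nat_lit 0, [nat_lit 1100000, nat_lit 1271250, nat_lit 1271250], [nat_lit 105, nat_lit 40, nat_lit 20, nat_lit 40]⟩, C1.Rw.none,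
 zbF0, []⟩
noncomputable def p008_l269 : Lf2 := ⟨nat_lit 2, nat_lit 2, [nat_lit 10, nat_lit 5, nat_lit 5, nat_lit 20], true, nat_lit 0, nat_lit 0, nat_lit 0, nat_lit 0, zbN0,
 nat_lit 0, nat_lit 0, nat_lit 0, nat_lit 0, nat_lit 0, nat_lit 0, nat_lit 0, nat_lit 0, nat_lit 0, nat_lit 0, nat_lit 0, nat_lit 0, nat_lit 0, nat_lit 0, nat_lit 0, nat_lit 0, nat_lit 0, nat_lit 0, [],
 ⟨p008_k63, nat_lit 0, nat_lit 0, nat_lit 297, nat_lit 0, nat_lit 292635, [], [], [], nat_lit 1271250, nat_lit 1271250, nat_lit 88400, nat_lit 111251, nat_lit 0, nat_lit 0, [nat_lit 1100000, nat_lit 1785000], [nat_lit 39, nat_lit 40, nat_lit 20, nat_lit 80, nat_lit 7, nat_lit 215, nat_lit 10, nat_lit 8]⟩, C1.Rw.none,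
 zbF0, []⟩
noncomputable def p008_l270 : Lf2 := ⟨nat_lit 0, nat_lit 2, [nat_lit 10, nat_lit 5, nat_lit 5, nat_lit 20], false, nat_lit 0, nat_lit 0, nat_lit 0, nat_lit 0, ⟨nat_lit 1000, nat_lit 0, nat_lit 0, nat_lit 0, nat_lit 0, nat_lit 0, nat_lit 0, nat_lit 0, nat_lit 0, nat_lit 0, nat_lit 0, nat_lit 0, nat_lit 0, nat_lit 0, nat_lit 0, nat_lit 0, false, false⟩,
 nat_lit 0, nat_lit 11142, nat_lit 0, nat_lit 0, nat_lit 5927, nat_lit 3800, nat_lit 0, nat_lit 0, nat_lit 0, nat_lit 2272, nat_lit 0, nat_lit 0, nat_lit 0, nat_lit 0, nat_lit 0, nat_lit 0, nat_lit 0, nat_lit 0, [],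
 ⟨p008_k60, nat_lit 0, nat_lit 0, nat_lit 306, nat_lit 0, nat_lit 292635, [nat_lit 4688000000, nat_lit 6250000000, nat_lit 7968000000], [], [nat_lit 35139188372, nat_lit 35168736504, nat_lit 34745145614, nat_lit 34790939187], nat_lit 1271250, nat_lit 1271250, nat_lit 111251, nat_lit 181601, nat_lit 0, nat_lit 0, [nat_lit 1100000, nat_lit 1442500, nat_lit 1271250], [nat_lit 9, nat_lit 40, nat_lit 20, nat_lit 80, nat_lit 2, nat_lit 215, nat_lit 10, nat_lit 8]⟩, ⟨p008_k69, nat_lit 0, nat_lit 0, nat_lit 0, nat_lit 0, nat_lit 0, [nat_lit 2032000000, nat_lit 4688000000, nat_lit 6250000000, nat_lit 7089500000], [], [nat_lit 17559652561, nat_lit 17622990400, nat_lit 17273895800, nat_lit 17339453920], nat_lit 0, nat_lit 0, nat_lit 0, nat_lit 0, nat_lit 0, nat_lit 0, [], [nat_lit 101, nat_lit 40, nat_lit 20, nat_lit 40]⟩,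
 zbF0, []⟩
noncomputable def p008_l271 : Lf2 := ⟨nat_lit 0, nat_lit 2, [nat_lit 10, nat_lit 5, nat_lit 5, nat_lit 20], false, nat_lit 0, nat_lit 0, nat_lit 0, nat_lit 0, ⟨nat_lit 1000, nat_lit 0, nat_lit 0, nat_lit 0, nat_lit 0, nat_lit 0, nat_lit 0, nat_lit 0, nat_lit 0, nat_lit 0, nat_lit 0, nat_lit 0, nat_lit 0, nat_lit 0, nat_lit 0, nat_lit 0, false, false⟩,
 nat_lit 0, nat_lit 10817, nat_lit 0, nat_lit 0, nat_lit 5754, nat_lit 100000, nat_lit 0, nat_lit 0, nat_lit 0, nat_lit 40625, nat_lit 11007, nat_lit 0, nat_lit 0, nat_lit 0, nat_lit 0, nat_lit 0, nat_lit 0, nat_lit 0, [],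
 ⟨p008_k60, nat_lit 0, nat_lit 0, nat_lit 312, nat_lit 0, nat_lit 292635, [nat_lit 4688000000, nat_lit 6250000000, nat_lit 7968000000], [], [nat_lit 35756543138, nat_lit 35802258464, nat_lit 35187304875, nat_lit 35232536869], nat_lit 1271250, nat_lit 1271250, nat_lit 88400, nat_lit 181601, nat_lit 0, nat_lit 0, [nat_lit 1100000, nat_lit 1442500, nat_lit 1271250], [nat_lit 9, nat_lit 40, nat_lit 20, nat_lit 80, nat_lit 2, nat_lit 215, nat_lit 10, nat_lit 8]⟩, ⟨p008_k69, nat_lit 0, nat_lit 0, nat_lit 0, nat_lit 0, nat_lit 0, [nat_lit 90088000000, nat_lit 180800000000, nat_lit 226390000000, nat_lit 249243500000], [], [nat_lit 247955629005, nat_lit 248705539725, nat_lit 228741183165, nat_lit 229502688000], nat_lit 0, nat_lit 0, nat_lit 0, nat_lit 0, nat_lit 0, nat_lit 0, [], [nat_lit 101, nat_lit 40, nat_lit 20, nat_lit 40]⟩,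
 zbF0, [⟨nat_lit 0, nat_lit 100, nat_lit 100, nat_lit 40, nat_lit 6970919205⟩]⟩
noncomputable def p008_l272 : Lf2 := ⟨nat_lit 0, nat_lit 2, [nat_lit 10, nat_lit 5, nat_lit 5, nat_lit 20], false, nat_lit 0, nat_lit 0, nat_lit 0, nat_lit 0, ⟨nat_lit 1000, nat_lit 0, nat_lit 0, nat_lit 0, nat_lit 0, nat_lit 0, nat_lit 0, nat_lit 0, nat_lit 0, nat_lit 0, nat_lit 0, nat_lit 0, nat_lit 0, nat_lit 0, nat_lit 0, nat_lit 0, false, false⟩,
 nat_lit 0, nat_lit 100000, nat_lit 0, nat_lit 0, nat_lit 53200, nat_lit 58865, nat_lit 0, nat_lit 4284, nat_lit 0, nat_lit 20318, nat_lit 0, nat_lit 0, nat_lit 0, nat_lit 0, nat_lit 0, nat_lit 0, nat_lit 0, nat_lit 2643618432, [],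
 ⟨p008_k60, nat_lit 0, nat_lit 0, nat_lit 294, nat_lit 0, nat_lit 292635, [nat_lit 73232000000, nat_lit 91930000001, nat_lit 110784000000], [], [nat_lit 237467175946, nat_lit 236732540121, nat_lit 233274139662, nat_lit 233499150521], nat_lit 1271250, nat_lit 1271250, nat_lit 181601, nat_lit 230001, nat_lit 0, nat_lit 0, [nat_lit 1100000, nat_lit 1442500, nat_lit 1271250], [nat_lit 9, nat_lit 40, nat_lit 20, nat_lit 80, nat_lit 2, nat_lit 215, nat_lit 10, nat_lit 8]⟩, ⟨p008_k70, nat_lit 0, nat_lit 0, nat_lit 0, nat_lit 0, nat_lit 0, [nat_lit 2637500000, nat_lit 5449500000, nat_lit 7089500000], [], [nat_lit 5907247485, nat_lit 6376719112, nat_lit 0, nat_lit 468894162], nat_lit 0, nat_lit 0, nat_lit 0, nat_lit 0, nat_lit 0, nat_lit 0, [], [nat_lit 90, nat_lit 40, nat_lit 20, nat_lit 40]⟩,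
 zbF0, []⟩
noncomputable def p008_l273 : Lf2 := ⟨nat_lit 0, nat_lit 2, [nat_lit 10, nat_lit 5, nat_lit 5, nat_lit 20], true, nat_lit 0, nat_lit 0, nat_lit 0, nat_lit 0, ⟨nat_lit 0, nat_lit 0, nat_lit 1000, nat_lit 5, nat_lit 76, nat_lit 0, nat_lit 0, nat_lit 0, nat_lit 0, nat_lit 215, nat_lit 54150, nat_lit 272, nat_lit 64679204, nat_lit 0, nat_lit 0, nat_lit 752553, false, false⟩,
 nat_lit 0, nat_lit 100000, nat_lit 0, nat_lit 0, nat_lit 53460, nat_lit 0, nat_lit 11780, nat_lit 3736, nat_lit 0, nat_lit 0, nat_lit 0, nat_lit 0, nat_lit 0, nat_lit 0, nat_lit 0, nat_lit 1000000, nat_lit 0, nat_lit 0, [(nat_lit 6, [(nat_lit 6, nat_lit 1000)])],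
 ⟨p008_k65, nat_lit 0, nat_lit 0, nat_lit 312, nat_lit 0, nat_lit 291360, [nat_lit 60753066667, nat_lit 74528000001, nat_lit 87955199999], [], [nat_lit 172545088013, nat_lit 171987182410, nat_lit 161363347414, nat_lit 161594574586], nat_lit 1271250, nat_lit 1271250, nat_lit 88400, nat_lit 230001, nat_lit 0, nat_lit 0, [nat_lit 1100000, nat_lit 1442500, nat_lit 1271250], [nat_lit 9, nat_lit 40, nat_lit 20, nat_lit 80, nat_lit 2, nat_lit 215, nat_lit 10, nat_lit 8]⟩, C1.Rw.none,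
 ⟨nat_lit 6264, nat_lit 6285, ⟨.ofNat (nat_lit 163920), .ofNat (nat_lit 213051), .ofNat (nat_lit 164988), .ofNat (nat_lit 214119), .ofNat (nat_lit 164787), .ofNat (nat_lit 213804), .ofNat (nat_lit 165855), .ofNat (nat_lit 214872)⟩, ⟨.ofNat (nat_lit 0), .ofNat (nat_lit 0), .ofNat (nat_lit 0), .ofNat (nat_lit 0), .ofNat (nat_lit 0), .ofNat (nat_lit 0), .ofNat (nat_lit 0), .ofNat (nat_lit 0)⟩⟩, [⟨nat_lit 0, nat_lit 100, nat_lit 100, nat_lit 41, nat_lit 2276362721⟩]⟩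
noncomputable def p008_l274 : Lf2 := ⟨nat_lit 2, nat_lit 2, [nat_lit 10, nat_lit 5, nat_lit 5, nat_lit 20], true, nat_lit 0, nat_lit 0, nat_lit 0, nat_lit 0, zbN0,
 nat_lit 0, nat_lit 0, nat_lit 0, nat_lit 0, nat_lit 0, nat_lit 0, nat_lit 0, nat_lit 0, nat_lit 0, nat_lit 0, nat_lit 0, nat_lit 0, nat_lit 0, nat_lit 0, nat_lit 0, nat_lit 0, nat_lit 0, nat_lit 0, [],
 ⟨p008_k71, nat_lit 0, nat_lit 0, nat_lit 0, nat_lit 0, nat_lit 295110, [], [], [], nat_lit 1271250, nat_lit 1271250, nat_lit 88400, nat_lit 181601, nat_lit 0, nat_lit 0, [nat_lit 1100000, nat_lit 1271250, nat_lit 1271250], [nat_lit 105, nat_lit 40, nat_lit 20, nat_lit 40]⟩, C1.Rw.none,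
 zbF0, []⟩
noncomputable def p008_l275 : Lf2 := ⟨nat_lit 2, nat_lit 2, [nat_lit 10, nat_lit 5, nat_lit 5, nat_lit 20], true, nat_lit 0, nat_lit 0, nat_lit 0, nat_lit 0, zbN0,
 nat_lit 0, nat_lit 0, nat_lit 0, nat_lit 0, nat_lit 0, nat_lit 0, nat_lit 0, nat_lit 0, nat_lit 0, nat_lit 0, nat_lit 0, nat_lit 0, nat_lit 0, nat_lit 0, nat_lit 0, nat_lit 0, nat_lit 0, nat_lit 0, [],
 ⟨p008_k72, nat_lit 0, nat_lit 0, nat_lit 298, nat_lit 0, nat_lit 295110, [], [], [], nat_lit 1271250, nat_lit 1271250, nat_lit 88400, nat_lit 181601, nat_lit 0, nat_lit 0, [nat_lit 1100000, nat_lit 1785000], [nat_lit 39, nat_lit 40, nat_lit 20, nat_lit 80, nat_lit 7, nat_lit 215, nat_lit 10, nat_lit 8]⟩, C1.Rw.none,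
 zbF0, []⟩
noncomputable def p008_l276 : Lf2 := ⟨nat_lit 2, nat_lit 2, [nat_lit 10, nat_lit 5, nat_lit 5, nat_lit 20], true, nat_lit 0, nat_lit 0, nat_lit 0, nat_lit 0, zbN0,
 nat_lit 0, nat_lit 0, nat_lit 0, nat_lit 0, nat_lit 0, nat_lit 0, nat_lit 0, nat_lit 0, nat_lit 0, nat_lit 0, nat_lit 0, nat_lit 0, nat_lit 0, nat_lit 0, nat_lit 0, nat_lit 0, nat_lit 0, nat_lit 0, [],
 ⟨p008_k71, nat_lit 0, nat_lit 0, nat_lit 0, nat_lit 0, nat_lit 295110, [], [], [], nat_lit 1271250, nat_lit 1271250, nat_lit 88400, nat_lit 111251, nat_lit 0, nat_lit 0, [nat_lit 1100000, nat_lit 1271250, nat_lit 1271250], [nat_lit 105, nat_lit 40, nat_lit 20, nat_lit 40]⟩, C1.Rw.none,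
 zbF0, []⟩
noncomputable def p008_l277 : Lf2 := ⟨nat_lit 2, nat_lit 2, [nat_lit 10, nat_lit 5, nat_lit 5, nat_lit 20], true, nat_lit 0, nat_lit 0, nat_lit 0, nat_lit 0, zbN0,
 nat_lit 0, nat_lit 0, nat_lit 0, nat_lit 0, nat_lit 0, nat_lit 0, nat_lit 0, nat_lit 0, nat_lit 0, nat_lit 0, nat_lit 0, nat_lit 0, nat_lit 0, nat_lit 0, nat_lit 0, nat_lit 0, nat_lit 0, nat_lit 0, [],
 ⟨p008_k72, nat_lit 0, nat_lit 0, nat_lit 298, nat_lit 0, nat_lit 295110, [], [], [], nat_lit 1271250, nat_lit 1271250, nat_lit 88400, nat_lit 111251, nat_lit 0, nat_lit 0, [nat_lit 1100000, nat_lit 1785000], [nat_lit 39, nat_lit 40, nat_lit 20, nat_lit 80, nat_lit 7, nat_lit 215, nat_lit 10, nat_lit 8]⟩, C1.Rw.none,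
 zbF0, []⟩
noncomputable def p008_l278 : Lf2 := ⟨nat_lit 0, nat_lit 2, [nat_lit 10, nat_lit 5, nat_lit 5, nat_lit 20], false, nat_lit 0, nat_lit 0, nat_lit 0, nat_lit 0, ⟨nat_lit 1000, nat_lit 0, nat_lit 0, nat_lit 0, nat_lit 0, nat_lit 0, nat_lit 0, nat_lit 0, nat_lit 0, nat_lit 0, nat_lit 0, nat_lit 0, nat_lit 0, nat_lit 0, nat_lit 0, nat_lit 0, false, false⟩,
 nat_lit 0, nat_lit 11248, nat_lit 0, nat_lit 0, nat_lit 6013, nat_lit 3800, nat_lit 0, nat_lit 0, nat_lit 0, nat_lit 2272, nat_lit 0, nat_lit 0, nat_lit 0, nat_lit 0, nat_lit 0, nat_lit 0, nat_lit 0, nat_lit 0, [],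
 ⟨p008_k65, nat_lit 0, nat_lit 0, nat_lit 307, nat_lit 0, nat_lit 295110, [nat_lit 4688000000, nat_lit 6250000000, nat_lit 7968000000], [], [nat_lit 34976721045, nat_lit 35003898903, nat_lit 34571416640, nat_lit 34617489379], nat_lit 1271250, nat_lit 1271250, nat_lit 111251, nat_lit 181601, nat_lit 0, nat_lit 0, [nat_lit 1100000, nat_lit 1442500, nat_lit 1271250], [nat_lit 9, nat_lit 40, nat_lit 20, nat_lit 80, nat_lit 2, nat_lit 215, nat_lit 10, nat_lit 8]⟩, ⟨p008_k69, nat_lit 0, nat_lit 0, nat_lit 0, nat_lit 0, nat_lit 0, [nat_lit 2032000000, nat_lit 4688000000, nat_lit 6250000000, nat_lit 7089500000], [], [nat_lit 17559652561, nat_lit 17622990400, nat_lit 17273895800, nat_lit 17339453920], nat_lit 0, nat_lit 0, nat_lit 0, nat_lit 0, nat_lit 0, nat_lit 0, [], [nat_lit 101, nat_lit 40, nat_lit 20, nat_lit 40]⟩,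
 zbF0, []⟩
noncomputable def p008_l279 : Lf2 := ⟨nat_lit 0, nat_lit 2, [nat_lit 10, nat_lit 5, nat_lit 5, nat_lit 20], false, nat_lit 0, nat_lit 0, nat_lit 0, nat_lit 0, ⟨nat_lit 1000, nat_lit 0, nat_lit 0, nat_lit 0, nat_lit 0, nat_lit 0, nat_lit 0, nat_lit 0, nat_lit 0, nat_lit 0, nat_lit 0, nat_lit 0, nat_lit 0, nat_lit 0, nat_lit 0, nat_lit 0, false, false⟩,
 nat_lit 0, nat_lit 8277, nat_lit 0, nat_lit 0, nat_lit 4424, nat_lit 100000, nat_lit 1938, nat_lit 0, nat_lit 0, nat_lit 40625, nat_lit 11007, nat_lit 0, nat_lit 0, nat_lit 0, nat_lit 0, nat_lit 0, nat_lit 0, nat_lit 0, [],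
 ⟨p008_k65, nat_lit 0, nat_lit 0, nat_lit 313, nat_lit 0, nat_lit 295110, [nat_lit 4688000000, nat_lit 6250000000, nat_lit 7968000000], [], [nat_lit 35468042438, nat_lit 35509369987, nat_lit 35084572340, nat_lit 35128978146], nat_lit 1271250, nat_lit 1271250, nat_lit 88400, nat_lit 181601, nat_lit 0, nat_lit 0, [nat_lit 1100000, nat_lit 1442500, nat_lit 1271250], [nat_lit 9, nat_lit 40, nat_lit 20, nat_lit 80, nat_lit 2, nat_lit 215, nat_lit 10, nat_lit 8]⟩, ⟨p008_k69, nat_lit 0, nat_lit 0, nat_lit 0, nat_lit 0, nat_lit 0, [nat_lit 90088000000, nat_lit 180800000000, nat_lit 226390000000, nat_lit 249243500000], [], [nat_lit 247955629005, nat_lit 248705539725, nat_lit 228741183165, nat_lit 229502688000], nat_lit 0, nat_lit 0, nat_lit 0, nat_lit 0, nat_lit 0, nat_lit 0, [], [nat_lit 101, nat_lit 40, nat_lit 20, nat_lit 40]⟩,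
 zbF0, [⟨nat_lit 0, nat_lit 100, nat_lit 100, nat_lit 41, nat_lit 6911317292⟩]⟩
noncomputable def p008_l280 : Lf2 := ⟨nat_lit 0, nat_lit 2, [nat_lit 10, nat_lit 5, nat_lit 5, nat_lit 20], true, nat_lit 0, nat_lit 0, nat_lit 0, nat_lit 0, ⟨nat_lit 0, nat_lit 0, nat_lit 1000, nat_lit 5, nat_lit 83, nat_lit 0, nat_lit 0, nat_lit 0, nat_lit 0, nat_lit 215, nat_lit 64067, nat_lit 277, nat_lit 64250889, nat_lit 0, nat_lit 0, nat_lit 856029, false, false⟩,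
 nat_lit 0, nat_lit 100000, nat_lit 0, nat_lit 100000, nat_lit 53460, nat_lit 0, nat_lit 60000, nat_lit 20000, nat_lit 0, nat_lit 0, nat_lit 0, nat_lit 0, nat_lit 0, nat_lit 0, nat_lit 0, nat_lit 1000000, nat_lit 0, nat_lit 0, [(nat_lit 6, [(nat_lit 6, nat_lit 1000)])],
 ⟨p008_k65, nat_lit 0, nat_lit 0, nat_lit 295, nat_lit 0, nat_lit 295110, [nat_lit 320977066667, nat_lit 399808000000, nat_lit 478291200000], [], [nat_lit 1045026899923, nat_lit 1043671549927, nat_lit 1044646125683, nat_lit 1043294753111], nat_lit 1271250, nat_lit 1271250, nat_lit 181601, nat_lit 230001, nat_lit 0, nat_lit 0, [nat_lit 1100000, nat_lit 1442500, nat_lit 1271250], [nat_lit 9, nat_lit 40, nat_lit 20, nat_lit 80, nat_lit 2, nat_lit 215, nat_lit 10, nat_lit 8]⟩, C1.Rw.none,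
 ⟨nat_lit 6264, nat_lit 6285, ⟨.ofNat (nat_lit 197742), .ofNat (nat_lit 214119), .ofNat (nat_lit 198810), .ofNat (nat_lit 215187), .ofNat (nat_lit 198533), .ofNat (nat_lit 214872), .ofNat (nat_lit 199601), .ofNat (nat_lit 215940)⟩, ⟨.ofNat (nat_lit 0), .ofNat (nat_lit 0), .ofNat (nat_lit 0), .ofNat (nat_lit 0), .ofNat (nat_lit 0), .ofNat (nat_lit 0), .ofNat (nat_lit 0), .ofNat (nat_lit 0)⟩⟩, [⟨nat_lit 0, nat_lit 100, nat_lit 100, nat_lit 40, nat_lit 2002568996⟩]⟩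
noncomputable def b_NL_600_550_0_5 : St := ⟨false, nat_lit 1, nat_lit 0, nat_lit 1, nat_lit 20, nat_lit 240, nat_lit 243, nat_lit 238, nat_lit 240, nat_lit 12, nat_lit 40, nat_lit 0, nat_lit 0, nat_lit 0, nat_lit 0, nat_lit 0, nat_lit 0, nat_lit 4, nat_lit 8, nat_lit 600, nat_lit 0, nat_lit 200, nat_lit 260⟩
theorem d_NL_600_550_0_5 (h : EB TB.env) : Dead b_NL_600_550_0_5 := chkB_sound0 h (T :=
(.spl (nat_lit 0) (nat_lit 242)
(.spl (nat_lit 0) (nat_lit 241)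
(.spl (nat_lit 1) (nat_lit 239)
(.spl (nat_lit 8) (nat_lit 240)
(.spl (nat_lit 8) (nat_lit 220)
(.spl (nat_lit 7) (nat_lit 900)
(.leaf p008_l238)
(.leaf p008_l239))
(.spl (nat_lit 2) (nat_lit 20)
(.spl (nat_lit 7) (nat_lit 900)
(.leaf p008_l240)
(.leaf p008_l241))
(.spl (nat_lit 7) (nat_lit 900)
(.leaf p008_l242)
(.leaf p008_l243))))
(.spl (nat_lit 2) (nat_lit 20)
(.spl (nat_lit 2) (nat_lit 16)
(.leaf p008_l244)
(.spl (nat_lit 7) (nat_lit 900)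
(.leaf p008_l245)
(.leaf p008_l246)))
(.leaf p008_l247)))
(.spl (nat_lit 8) (nat_lit 240)
(.spl (nat_lit 8) (nat_lit 220)
(.spl (nat_lit 7) (nat_lit 900)
(.leaf p008_l248)
(.leaf p008_l249))
(.spl (nat_lit 2) (nat_lit 20)
(.spl (nat_lit 7) (nat_lit 900)
(.leaf p008_l250)
(.leaf p008_l251))
(.leaf p008_l252)))
(.spl (nat_lit 2) (nat_lit 20)
(.spl (nat_lit 2) (nat_lit 16)
(.leaf p008_l253)
(.spl (nat_lit 7) (nat_lit 900)
(.leaf p008_l254)
(.leaf p008_l255)))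
(.leaf p008_l256))))
(.spl (nat_lit 1) (nat_lit 239)
(.spl (nat_lit 8) (nat_lit 240)
(.spl (nat_lit 8) (nat_lit 220)
(.spl (nat_lit 7) (nat_lit 900)
(.leaf p008_l257)
(.leaf p008_l258))
(.spl (nat_lit 2) (nat_lit 20)
(.spl (nat_lit 7) (nat_lit 900)
(.leaf p008_l259)
(.leaf p008_l260))
(.leaf p008_l261)))
(.spl (nat_lit 2) (nat_lit 20)
(.spl (nat_lit 2) (nat_lit 16)
(.leaf p008_l262)
(.spl (nat_lit 7) (nat_lit 900)
(.leaf p008_l263)
(.leaf p008_l264)))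
(.leaf p008_l265)))
(.trZ (nat_lit 0) (nat_lit 100) (nat_lit 100) (nat_lit 40) (nat_lit 16) (.spl (nat_lit 2) (nat_lit 32)
(.spl (nat_lit 8) (nat_lit 240)
(.spl (nat_lit 8) (nat_lit 220)
(.spl (nat_lit 7) (nat_lit 900)
(.leaf p008_l266)
(.leaf p008_l267))
(.spl (nat_lit 2) (nat_lit 20)
(.spl (nat_lit 7) (nat_lit 900)
(.leaf p008_l268)
(.leaf p008_l269))
(.leaf p008_l270)))
(.leaf p008_l271))
(.leaf p008_l272)))))
(.trZ (nat_lit 0) (nat_lit 100) (nat_lit 100) (nat_lit 40) (nat_lit 16) (.spl (nat_lit 1) (nat_lit 239)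
(.leaf p008_l273)
(.spl (nat_lit 2) (nat_lit 32)
(.spl (nat_lit 8) (nat_lit 240)
(.spl (nat_lit 8) (nat_lit 220)
(.spl (nat_lit 7) (nat_lit 900)
(.leaf p008_l274)
(.leaf p008_l275))
(.spl (nat_lit 2) (nat_lit 20)
(.spl (nat_lit 7) (nat_lit 900)
(.leaf p008_l276)
(.leaf p008_l277))
(.leaf p008_l278)))
(.leaf p008_l279))
(.leaf p008_l280)))))) (by decide +kernel)

end B2
end Pool.Agent.Lib.MP_6947cd_al
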