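import Pool.Agent.Lib.MP_6947cd_al.ZB.P004
import Pool.Agent.Lib.MP_6947cd_al.ZB.P005
import Pool.Agent.Lib.MP_6947cd_al.ZB.P006
import Pool.Agent.Lib.MP_6947cd_al.ZB.P007
import Pool.Agent.Lib.MP_6947cd_al.ZB.P008

/-!
Problem MP_6947cd_al (Chollet).  Case B, second entry in [2/5, 17/20]: certificates of the tree, part T01 (generated).
-/

set_option autoImplicit false
set_option linter.all false

namespace Pool.Agent.Lib.MP_6947cd_al
namespace B2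

open Ent Fr B1 PkA

noncomputable def t01_k0 : C1.Kn := ⟨[nat_lit 100, nat_lit 120, nat_lit 140], [nat_lit 0, nat_lit 254, nat_lit 778], [(nat_lit 0, nat_lit 0, nat_lit 0), (nat_lit 1000, nat_lit 1000, nat_lit 198), (nat_lit 960, nat_lit 1000, nat_lit 392)], (nat_lit 100, nat_lit 94, nat_lit 44)⟩
noncomputable def t01_k1 : C1.Kn := ⟨[nat_lit 100, nat_lit 140], [nat_lit 0, nat_lit 508], [(nat_lit 0, nat_lit 0, nat_lit 0), (nat_lit 1000, nat_lit 1000, nat_lit 198)], (nat_lit 100, nat_lit 94, nat_lit 44)⟩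
noncomputable def t01_k2 : C1.Kn := ⟨[nat_lit 100, nat_lit 140], [nat_lit 0, nat_lit 766], [(nat_lit 0, nat_lit 0, nat_lit 0), (nat_lit 1000, nat_lit 1000, nat_lit 299)], (nat_lit 100, nat_lit 97, nat_lit 44)⟩
noncomputable def t01_k3 : C1.Kn := ⟨[nat_lit 100, nat_lit 120], [nat_lit 0, nat_lit 254], [(nat_lit 0, nat_lit 0, nat_lit 0), (nat_lit 1000, nat_lit 1000, nat_lit 198)], (nat_lit 100, nat_lit 100, nat_lit 20)⟩
noncomputable def t01_k4 : C1.Kn := ⟨[nat_lit 60, nat_lit 100, nat_lit 120], [nat_lit 0, nat_lit 0, nat_lit 254], [(nat_lit 0, nat_lit 0, nat_lit 0), (nat_lit 0, nat_lit 0, nat_lit 0), (nat_lit 1000, nat_lit 1000, nat_lit 198)], (nat_lit 100, nat_lit 100, nat_lit 20)⟩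
noncomputable def t01_k5 : C1.Kn := ⟨[nat_lit 100, nat_lit 120], [nat_lit 0, nat_lit 254], [(nat_lit 0, nat_lit 0, nat_lit 0), (nat_lit 1000, nat_lit 1000, nat_lit 198)], (nat_lit 100, nat_lit 99, nat_lit 28)⟩
noncomputable def t01_k6 : C1.Kn := ⟨[nat_lit 60, nat_lit 100, nat_lit 120], [nat_lit 0, nat_lit 0, nat_lit 254], [(nat_lit 0, nat_lit 0, nat_lit 0), (nat_lit 0, nat_lit 0, nat_lit 0), (nat_lit 1000, nat_lit 1000, nat_lit 198)], (nat_lit 100, nat_lit 99, nat_lit 28)⟩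
noncomputable def t01_k7 : C1.Kn := ⟨[nat_lit 100, nat_lit 120], [nat_lit 0, nat_lit 293], [(nat_lit 0, nat_lit 0, nat_lit 0), (nat_lit 1000, nat_lit 1000, nat_lit 229)], (nat_lit 100, nat_lit 99, nat_lit 28)⟩
noncomputable def t01_k8 : C1.Kn := ⟨[nat_lit 100, nat_lit 120], [nat_lit 0, nat_lit 320], [(nat_lit 0, nat_lit 0, nat_lit 0), (nat_lit 1000, nat_lit 1000, nat_lit 250)], (nat_lit 100, nat_lit 100, nat_lit 28)⟩
noncomputable def t01_k9 : C1.Kn := ⟨[nat_lit 100, nat_lit 120, nat_lit 140], [nat_lit 0, nat_lit 320, nat_lit 839], [(nat_lit 0, nat_lit 0, nat_lit 0), (nat_lit 1000, nat_lit 1000, nat_lit 250), (nat_lit 970, nat_lit 1000, nat_lit 393)], (nat_lit 100, nat_lit 95, nat_lit 44)⟩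
noncomputable def t01_k10 : C1.Kn := ⟨[nat_lit 90, nat_lit 110, nat_lit 140], [nat_lit 0, nat_lit 61, nat_lit 839], [(nat_lit 0, nat_lit 0, nat_lit 0), (nat_lit 1000, nat_lit 995, nat_lit 48), (nat_lit 970, nat_lit 1000, nat_lit 393)], (nat_lit 100, nat_lit 95, nat_lit 44)⟩
noncomputable def t01_k11 : C1.Kn := ⟨[nat_lit 100, nat_lit 120, nat_lit 140], [nat_lit 0, nat_lit 383, nat_lit 902], [(nat_lit 0, nat_lit 0, nat_lit 0), (nat_lit 1000, nat_lit 1000, nat_lit 299), (nat_lit 979, nat_lit 1000, nat_lit 397)], (nat_lit 100, nat_lit 97, nat_lit 44)⟩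
noncomputable def t01_k12 : C1.Kn := ⟨[nat_lit 90, nat_lit 110, nat_lit 140], [nat_lit 0, nat_lit 102, nat_lit 871], [(nat_lit 0, nat_lit 0, nat_lit 0), (nat_lit 1000, nat_lit 992, nat_lit 80), (nat_lit 977, nat_lit 1000, nat_lit 390)], (nat_lit 100, nat_lit 96, nat_lit 44)⟩
noncomputable def t01_k13 : C1.Kn := ⟨[nat_lit 100, nat_lit 120, nat_lit 140], [nat_lit 0, nat_lit 358, nat_lit 874], [(nat_lit 0, nat_lit 0, nat_lit 0), (nat_lit 1000, nat_lit 1000, nat_lit 279), (nat_lit 976, nat_lit 1000, nat_lit 393)], (nat_lit 100, nat_lit 96, nat_lit 44)⟩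
noncomputable def t01_k14 : C1.Kn := ⟨[nat_lit 80, nat_lit 100, nat_lit 140], [nat_lit 0, nat_lit 0, nat_lit 1022], [(nat_lit 0, nat_lit 0, nat_lit 0), (nat_lit 0, nat_lit 0, nat_lit 0), (nat_lit 1000, nat_lit 1000, nat_lit 399)], (nat_lit 100, nat_lit 99, nat_lit 44)⟩
noncomputable def t01_k15 : C1.Kn := ⟨[nat_lit 120, nat_lit 140, nat_lit 160], [nat_lit 0, nat_lit 266, nat_lit 862], [(nat_lit 0, nat_lit 0, nat_lit 0), (nat_lit 960, nat_lit 1000, nat_lit 200), (nat_lit 874, nat_lit 1000, nat_lit 406)], (nat_lit 100, nat_lit 86, nat_lit 44)⟩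
noncomputable def t01_k16 : C1.Kn := ⟨[nat_lit 80, nat_lit 140], [nat_lit 0, nat_lit 0], [(nat_lit 0, nat_lit 0, nat_lit 0), (nat_lit 0, nat_lit 0, nat_lit 0)], (nat_lit 100, nat_lit 99, nat_lit 44)⟩
noncomputable def t01_k17 : C1.Kn := ⟨[nat_lit 120, nat_lit 160], [nat_lit 0, nat_lit 533], [(nat_lit 0, nat_lit 0, nat_lit 0), (nat_lit 960, nat_lit 1000, nat_lit 200)], (nat_lit 100, nat_lit 86, nat_lit 44)⟩
noncomputable def t01_k18 : C1.Kn := ⟨[nat_lit 80, nat_lit 100, nat_lit 120], [nat_lit 0, nat_lit 132, nat_lit 640], [(nat_lit 0, nat_lit 0, nat_lit 0), (nat_lit 1000, nat_lit 979, nat_lit 103), (nat_lit 1000, nat_lit 979, nat_lit 397)], (nat_lit 99, nat_lit 100, nat_lit 44)⟩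
noncomputable def t01_k19 : C1.Kn := ⟨[nat_lit 100, nat_lit 120, nat_lit 160], [nat_lit 0, nat_lit 0, nat_lit 1063], [(nat_lit 0, nat_lit 0, nat_lit 0), (nat_lit 0, nat_lit 0, nat_lit 0), (nat_lit 924, nat_lit 1000, nat_lit 383)], (nat_lit 100, nat_lit 90, nat_lit 44)⟩
theorem t_NL_550_550_0 (h : EB TB.env) : RC.Tail ⟨false, 20, 220, 240, 220, 240, 0, 0, [44]⟩ := RC.tail_chk h (b := ⟨nat_lit 20, nat_lit 22, nat_lit 5, nat_lit 5, nat_lit 20, nat_lit 203, nat_lit 0, nat_lit 31, nat_lit 0⟩) (by decide +kernel)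
noncomputable def t01_l0 : Lf2 := ⟨nat_lit 0, nat_lit 5, [nat_lit 4, nat_lit 5, nat_lit 5, nat_lit 20], true, nat_lit 0, nat_lit 0, nat_lit 0, nat_lit 0, ⟨nat_lit 0, nat_lit 0, nat_lit 1000, nat_lit 5, nat_lit 55, nat_lit 0, nat_lit 0, nat_lit 0, nat_lit 0, nat_lit 215, nat_lit 28017, nat_lit 256, nat_lit 65777700, nat_lit 0, nat_lit 0, nat_lit 455542, false, false⟩,
 nat_lit 0, nat_lit 0, nat_lit 0, nat_lit 1379, nat_lit 4811, nat_lit 0, nat_lit 329, nat_lit 0, nat_lit 0, nat_lit 0, nat_lit 0, nat_lit 0, nat_lit 0, nat_lit 10752879789691, nat_lit 115, nat_lit 1000000, nat_lit 0, nat_lit 0, [(nat_lit 3, [(nat_lit 6, nat_lit 1000)])],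
 ⟨t01_k0, nat_lit 0, nat_lit 0, nat_lit 291, nat_lit 0, nat_lit 0, [nat_lit 3341142858, nat_lit 1499600000, nat_lit 23600000], [], [nat_lit 13462032691, nat_lit 14678607985, nat_lit 12493632022, nat_lit 13708649412], nat_lit 0, nat_lit 0, nat_lit 0, nat_lit 0, nat_lit 0, nat_lit 0, [], [nat_lit 25, nat_lit 40, nat_lit 20, nat_lit 80, nat_lit 17, nat_lit 289, nat_lit 75, nat_lit 9]⟩, C1.Rw.none,
 ⟨nat_lit 6324, nat_lit 6709, ⟨.ofNat (nat_lit 99275), .ofNat (nat_lit 133737), .ofNat (nat_lit 120713), .ofNat (nat_lit 155176), .ofNat (nat_lit 118272), .ofNat (nat_lit 151177), .ofNat (nat_lit 139640), .ofNat (nat_lit 172545)⟩, ⟨.ofNat (nat_lit 0), .ofNat (nat_lit 0), .ofNat (nat_lit 0), .ofNat (nat_lit 0), .ofNat (nat_lit 0), .ofNat (nat_lit 0), .ofNat (nat_lit 0), .ofNat (nat_lit 0)⟩⟩, [⟨nat_lit 0, nat_lit 100, nat_lit 100, nat_lit 20, nat_lit 406910289⟩]⟩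
noncomputable def t01_l1 : Lf2 := ⟨nat_lit 0, nat_lit 5, [nat_lit 4, nat_lit 5, nat_lit 5, nat_lit 20], true, nat_lit 0, nat_lit 0, nat_lit 0, nat_lit 0, ⟨nat_lit 0, nat_lit 0, nat_lit 1000, nat_lit 5, nat_lit 70, nat_lit 0, nat_lit 0, nat_lit 0, nat_lit 0, nat_lit 215, nat_lit 45067, nat_lit 267, nat_lit 65026478, nat_lit 0, nat_lit 0, nat_lit 664197, false, false⟩,
 nat_lit 0, nat_lit 0, nat_lit 0, nat_lit 2831, nat_lit 5339, nat_lit 0, nat_lit 0, nat_lit 0, nat_lit 0, nat_lit 0, nat_lit 0, nat_lit 0, nat_lit 0, nat_lit 7650429355736, nat_lit 60, nat_lit 400000, nat_lit 0, nat_lit 0, [(nat_lit 3, [(nat_lit 5, nat_lit 1000)])],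
 ⟨t01_k0, nat_lit 0, nat_lit 0, nat_lit 221, nat_lit 0, nat_lit 0, [nat_lit 2770400000, nat_lit 702400001, nat_lit 2000000], [], [nat_lit 15053663922, nat_lit 16061100208, nat_lit 14252395072, nat_lit 15251613652], nat_lit 0, nat_lit 0, nat_lit 0, nat_lit 0, nat_lit 0, nat_lit 0, [], [nat_lit 25, nat_lit 40, nat_lit 20, nat_lit 80, nat_lit 17, nat_lit 289, nat_lit 75, nat_lit 9]⟩, C1.Rw.none,
 ⟨nat_lit 6324, nat_lit 6709, ⟨.ofNat (nat_lit 133737), .ofNat (nat_lit 176815), .ofNat (nat_lit 155176), .ofNat (nat_lit 198253), .ofNat (nat_lit 151177), .ofNat (nat_lit 192309), .ofNat (nat_lit 172545), .ofNat (nat_lit 213677)⟩, ⟨.ofNat (nat_lit 0), .ofNat (nat_lit 0), .ofNat (nat_lit 0), .ofNat (nat_lit 0), .ofNat (nat_lit 0), .ofNat (nat_lit 0), .ofNat (nat_lit 0), .ofNat (nat_lit 0)⟩⟩, []⟩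
noncomputable def t01_l2 : Lf2 := ⟨nat_lit 0, nat_lit 5, [nat_lit 4, nat_lit 5, nat_lit 5, nat_lit 20], true, nat_lit 0, nat_lit 0, nat_lit 0, nat_lit 0, ⟨nat_lit 0, nat_lit 0, nat_lit 1000, nat_lit 5, nat_lit 95, nat_lit 0, nat_lit 0, nat_lit 0, nat_lit 0, nat_lit 215, nat_lit 84017, nat_lit 286, nat_lit 63426316, nat_lit 0, nat_lit 0, nat_lit 1041144, false, false⟩,
 nat_lit 0, nat_lit 0, nat_lit 0, nat_lit 2831, nat_lit 5594, nat_lit 0, nat_lit 0, nat_lit 0, nat_lit 0, nat_lit 0, nat_lit 0, nat_lit 0, nat_lit 0, nat_lit 15207949985920, nat_lit 60, nat_lit 400000, nat_lit 0, nat_lit 0, [(nat_lit 3, [(nat_lit 5, nat_lit 1000)])],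
 ⟨t01_k0, nat_lit 0, nat_lit 0, nat_lit 192, nat_lit 0, nat_lit 0, [nat_lit 2770400000, nat_lit 702400001, nat_lit 2000000], [], [nat_lit 14065543312, nat_lit 15083687992, nat_lit 13247968212, nat_lit 14233214384], nat_lit 0, nat_lit 0, nat_lit 0, nat_lit 0, nat_lit 0, nat_lit 0, [], [nat_lit 25, nat_lit 40, nat_lit 20, nat_lit 80, nat_lit 17, nat_lit 317, nat_lit 100, nat_lit 10]⟩, C1.Rw.none,
 ⟨nat_lit 6324, nat_lit 6709, ⟨.ofNat (nat_lit 176815), .ofNat (nat_lit 262970), .ofNat (nat_lit 198253), .ofNat (nat_lit 284409), .ofNat (nat_lit 192309), .ofNat (nat_lit 274574), .ofNat (nat_lit 213677), .ofNat (nat_lit 295942)⟩, ⟨.ofNat (nat_lit 0), .ofNat (nat_lit 0), .ofNat (nat_lit 0), .ofNat (nat_lit 0), .ofNat (nat_lit 0), .ofNat (nat_lit 0), .ofNat (nat_lit 0), .ofNat (nat_lit 0)⟩⟩, []⟩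
noncomputable def t01_l3 : Lf2 := ⟨nat_lit 0, nat_lit 5, [nat_lit 4, nat_lit 5, nat_lit 5, nat_lit 20], true, nat_lit 0, nat_lit 0, nat_lit 0, nat_lit 0, ⟨nat_lit 0, nat_lit 0, nat_lit 1000, nat_lit 5, nat_lit 129, nat_lit 0, nat_lit 0, nat_lit 0, nat_lit 0, nat_lit 215, nat_lit 153600, nat_lit 311, nat_lit 60720702, nat_lit 0, nat_lit 0, nat_lit 1555312, false, false⟩,
 nat_lit 0, nat_lit 0, nat_lit 0, nat_lit 1999, nat_lit 7751, nat_lit 0, nat_lit 0, nat_lit 0, nat_lit 0, nat_lit 0, nat_lit 0, nat_lit 0, nat_lit 0, nat_lit 13473129218690, nat_lit 47, nat_lit 250000, nat_lit 0, nat_lit 0, [(nat_lit 3, [(nat_lit 4, nat_lit 1000)])],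
 ⟨t01_k0, nat_lit 0, nat_lit 0, nat_lit 149, nat_lit 0, nat_lit 0, [nat_lit 4372000000, nat_lit 521200001, nat_lit 18000000], [], [nat_lit 13298267598, nat_lit 14435448536, nat_lit 12960174324, nat_lit 14034276436], nat_lit 0, nat_lit 0, nat_lit 0, nat_lit 0, nat_lit 0, nat_lit 0, [], [nat_lit 25, nat_lit 40, nat_lit 20, nat_lit 80, nat_lit 17, nat_lit 317, nat_lit 100, nat_lit 9]⟩, C1.Rw.none,
 ⟨nat_lit 6324, nat_lit 6709, ⟨.ofNat (nat_lit 262970), .ofNat (nat_lit 349126), .ofNat (nat_lit 284409), .ofNat (nat_lit 370564), .ofNat (nat_lit 274574), .ofNat (nat_lit 356838), .ofNat (nat_lit 295942), .ofNat (nat_lit 378206)⟩, ⟨.ofNat (nat_lit 0), .ofNat (nat_lit 0), .ofNat (nat_lit 0), .ofNat (nat_lit 0), .ofNat (nat_lit 0), .ofNat (nat_lit 0), .ofNat (nat_lit 0), .ofNat (nat_lit 0)⟩⟩, []⟩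
noncomputable def t01_l4 : Lf2 := ⟨nat_lit 0, nat_lit 5, [nat_lit 4, nat_lit 5, nat_lit 5, nat_lit 20], false, nat_lit 0, nat_lit 0, nat_lit 0, nat_lit 0, ⟨nat_lit 1000, nat_lit 0, nat_lit 0, nat_lit 0, nat_lit 0, nat_lit 0, nat_lit 0, nat_lit 0, nat_lit 0, nat_lit 0, nat_lit 0, nat_lit 0, nat_lit 0, nat_lit 0, nat_lit 0, nat_lit 0, false, false⟩,
 nat_lit 0, nat_lit 0, nat_lit 0, nat_lit 9403, nat_lit 0, nat_lit 10707, nat_lit 0, nat_lit 0, nat_lit 0, nat_lit 1360, nat_lit 0, nat_lit 0, nat_lit 0, nat_lit 0, nat_lit 0, nat_lit 0, nat_lit 0, nat_lit 0, [],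
 ⟨t01_k0, nat_lit 0, nat_lit 0, nat_lit 226, nat_lit 0, nat_lit 0, [nat_lit 6250000000, nat_lit 7968000001, nat_lit 9842000000], [], [nat_lit 36007586000, nat_lit 36584756000, nat_lit 43656154000, nat_lit 44103276000], nat_lit 0, nat_lit 0, nat_lit 0, nat_lit 0, nat_lit 0, nat_lit 0, [], [nat_lit 25, nat_lit 40, nat_lit 20, nat_lit 80, nat_lit 17, nat_lit 401, nat_lit 175, nat_lit 12]⟩, ⟨t01_k0, nat_lit 0, nat_lit 0, nat_lit 226, nat_lit 0, nat_lit 0, [nat_lit 6250000000, nat_lit 7968000000, nat_lit 9842000000], [], [nat_lit 20145244068, nat_lit 21408861252, nat_lit 44896739764, nat_lit 45623404944], nat_lit 0, nat_lit 0, nat_lit 0, nat_lit 0, nat_lit 0, nat_lit 0, [], [nat_lit 25, nat_lit 40, nat_lit 20, nat_lit 80, nat_lit 17, nat_lit 401, nat_lit 175, nat_lit 12]⟩,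
 zbF0, [⟨nat_lit 13, nat_lit 98, nat_lit 10, nat_lit 100, nat_lit 19449908⟩]⟩
noncomputable def t01_l5 : Lf2 := ⟨nat_lit 0, nat_lit 5, [nat_lit 4, nat_lit 5, nat_lit 5, nat_lit 20], true, nat_lit 0, nat_lit 0, nat_lit 0, nat_lit 0, ⟨nat_lit 0, nat_lit 0, nat_lit 1000, nat_lit 5, nat_lit 55, nat_lit 0, nat_lit 0, nat_lit 0, nat_lit 0, nat_lit 215, nat_lit 28017, nat_lit 256, nat_lit 65777700, nat_lit 0, nat_lit 0, nat_lit 455542, false, false⟩,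
 nat_lit 0, nat_lit 0, nat_lit 0, nat_lit 1379, nat_lit 4811, nat_lit 0, nat_lit 329, nat_lit 0, nat_lit 0, nat_lit 0, nat_lit 0, nat_lit 0, nat_lit 0, nat_lit 10752879789691, nat_lit 115, nat_lit 1000000, nat_lit 0, nat_lit 0, [(nat_lit 3, [(nat_lit 6, nat_lit 1000)])],
 ⟨t01_k0, nat_lit 0, nat_lit 0, nat_lit 291, nat_lit 0, nat_lit 0, [nat_lit 3341142858, nat_lit 1499600000, nat_lit 23600000], [], [nat_lit 13462032691, nat_lit 14678607985, nat_lit 12493632022, nat_lit 13708649412], nat_lit 0, nat_lit 0, nat_lit 0, nat_lit 0, nat_lit 0, nat_lit 0, [], [nat_lit 25, nat_lit 40, nat_lit 20, nat_lit 80, nat_lit 17, nat_lit 289, nat_lit 75, nat_lit 9]⟩, C1.Rw.none,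
 ⟨nat_lit 6324, nat_lit 6709, ⟨.ofNat (nat_lit 99275), .ofNat (nat_lit 133737), .ofNat (nat_lit 120713), .ofNat (nat_lit 155176), .ofNat (nat_lit 118272), .ofNat (nat_lit 151177), .ofNat (nat_lit 139640), .ofNat (nat_lit 172545)⟩, ⟨.ofNat (nat_lit 0), .ofNat (nat_lit 0), .ofNat (nat_lit 0), .ofNat (nat_lit 0), .ofNat (nat_lit 0), .ofNat (nat_lit 0), .ofNat (nat_lit 0), .ofNat (nat_lit 0)⟩⟩, [⟨nat_lit 0, nat_lit 100, nat_lit 100, nat_lit 20, nat_lit 406910289⟩]⟩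
noncomputable def t01_l6 : Lf2 := ⟨nat_lit 0, nat_lit 5, [nat_lit 4, nat_lit 5, nat_lit 5, nat_lit 20], true, nat_lit 0, nat_lit 0, nat_lit 0, nat_lit 0, ⟨nat_lit 0, nat_lit 0, nat_lit 1000, nat_lit 5, nat_lit 70, nat_lit 0, nat_lit 0, nat_lit 0, nat_lit 0, nat_lit 215, nat_lit 45067, nat_lit 267, nat_lit 65026478, nat_lit 0, nat_lit 0, nat_lit 664197, false, false⟩,
 nat_lit 0, nat_lit 0, nat_lit 0, nat_lit 2831, nat_lit 5339, nat_lit 0, nat_lit 0, nat_lit 0, nat_lit 0, nat_lit 0, nat_lit 0, nat_lit 0, nat_lit 0, nat_lit 7650429355736, nat_lit 60, nat_lit 400000, nat_lit 0, nat_lit 0, [(nat_lit 3, [(nat_lit 5, nat_lit 1000)])],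
 ⟨t01_k0, nat_lit 0, nat_lit 0, nat_lit 221, nat_lit 0, nat_lit 0, [nat_lit 2770400000, nat_lit 702400001, nat_lit 2000000], [], [nat_lit 15053663922, nat_lit 16061100208, nat_lit 14252395072, nat_lit 15251613652], nat_lit 0, nat_lit 0, nat_lit 0, nat_lit 0, nat_lit 0, nat_lit 0, [], [nat_lit 25, nat_lit 40, nat_lit 20, nat_lit 80, nat_lit 17, nat_lit 289, nat_lit 75, nat_lit 9]⟩, C1.Rw.none,
 ⟨nat_lit 6324, nat_lit 6709, ⟨.ofNat (nat_lit 133737), .ofNat (nat_lit 176815), .ofNat (nat_lit 155176), .ofNat (nat_lit 198253), .ofNat (nat_lit 151177), .ofNat (nat_lit 192309), .ofNat (nat_lit 172545), .ofNat (nat_lit 213677)⟩, ⟨.ofNat (nat_lit 0), .ofNat (nat_lit 0), .ofNat (nat_lit 0), .ofNat (nat_lit 0), .ofNat (nat_lit 0), .ofNat (nat_lit 0), .ofNat (nat_lit 0), .ofNat (nat_lit 0)⟩⟩, []⟩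
noncomputable def t01_l7 : Lf2 := ⟨nat_lit 0, nat_lit 5, [nat_lit 4, nat_lit 5, nat_lit 5, nat_lit 20], true, nat_lit 0, nat_lit 0, nat_lit 0, nat_lit 0, ⟨nat_lit 0, nat_lit 0, nat_lit 1000, nat_lit 5, nat_lit 95, nat_lit 0, nat_lit 0, nat_lit 0, nat_lit 0, nat_lit 215, nat_lit 84017, nat_lit 286, nat_lit 63426316, nat_lit 0, nat_lit 0, nat_lit 1041144, false, false⟩,
 nat_lit 0, nat_lit 0, nat_lit 0, nat_lit 2831, nat_lit 5594, nat_lit 0, nat_lit 0, nat_lit 0, nat_lit 0, nat_lit 0, nat_lit 0, nat_lit 0, nat_lit 0, nat_lit 15207949985920, nat_lit 60, nat_lit 400000, nat_lit 0, nat_lit 0, [(nat_lit 3, [(nat_lit 5, nat_lit 1000)])],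
 ⟨t01_k0, nat_lit 0, nat_lit 0, nat_lit 192, nat_lit 0, nat_lit 0, [nat_lit 2770400000, nat_lit 702400001, nat_lit 2000000], [], [nat_lit 14065543312, nat_lit 15083687992, nat_lit 13247968212, nat_lit 14233214384], nat_lit 0, nat_lit 0, nat_lit 0, nat_lit 0, nat_lit 0, nat_lit 0, [], [nat_lit 25, nat_lit 40, nat_lit 20, nat_lit 80, nat_lit 17, nat_lit 317, nat_lit 100, nat_lit 10]⟩, C1.Rw.none,
 ⟨nat_lit 6324, nat_lit 6709, ⟨.ofNat (nat_lit 176815), .ofNat (nat_lit 262970), .ofNat (nat_lit 198253), .ofNat (nat_lit 284409), .ofNat (nat_lit 192309), .ofNat (nat_lit 274574), .ofNat (nat_lit 213677), .ofNat (nat_lit 295942)⟩, ⟨.ofNat (nat_lit 0), .ofNat (nat_lit 0), .ofNat (nat_lit 0), .ofNat (nat_lit 0), .ofNat (nat_lit 0), .ofNat (nat_lit 0), .ofNat (nat_lit 0), .ofNat (nat_lit 0)⟩⟩, []⟩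
noncomputable def t01_l8 : Lf2 := ⟨nat_lit 0, nat_lit 5, [nat_lit 4, nat_lit 5, nat_lit 5, nat_lit 20], true, nat_lit 0, nat_lit 0, nat_lit 0, nat_lit 0, ⟨nat_lit 0, nat_lit 0, nat_lit 1000, nat_lit 5, nat_lit 129, nat_lit 0, nat_lit 0, nat_lit 0, nat_lit 0, nat_lit 215, nat_lit 153600, nat_lit 311, nat_lit 60720702, nat_lit 0, nat_lit 0, nat_lit 1555312, false, false⟩,
 nat_lit 0, nat_lit 0, nat_lit 0, nat_lit 1999, nat_lit 7751, nat_lit 0, nat_lit 0, nat_lit 0, nat_lit 0, nat_lit 0, nat_lit 0, nat_lit 0, nat_lit 0, nat_lit 6774587781530, nat_lit 47, nat_lit 250000, nat_lit 0, nat_lit 0, [(nat_lit 3, [(nat_lit 4, nat_lit 1000)])],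
 ⟨t01_k1, nat_lit 0, nat_lit 0, nat_lit 147, nat_lit 0, nat_lit 0, [nat_lit 4372000000, nat_lit 18000000], [], [nat_lit 13298267598, nat_lit 14435448536, nat_lit 12960174324, nat_lit 14034276436], nat_lit 0, nat_lit 0, nat_lit 0, nat_lit 0, nat_lit 0, nat_lit 0, [], [nat_lit 51, nat_lit 40, nat_lit 20, nat_lit 80, nat_lit 1, nat_lit 317, nat_lit 100, nat_lit 9]⟩, C1.Rw.none,
 ⟨nat_lit 6324, nat_lit 6709, ⟨.ofNat (nat_lit 262970), .ofNat (nat_lit 349126), .ofNat (nat_lit 284409), .ofNat (nat_lit 370564), .ofNat (nat_lit 274574), .ofNat (nat_lit 356838), .ofNat (nat_lit 295942), .ofNat (nat_lit 378206)⟩, ⟨.ofNat (nat_lit 0), .ofNat (nat_lit 0), .ofNat (nat_lit 0), .ofNat (nat_lit 0), .ofNat (nat_lit 0), .ofNat (nat_lit 0), .ofNat (nat_lit 0), .ofNat (nat_lit 0)⟩⟩, []⟩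
noncomputable def t01_l9 : Lf2 := ⟨nat_lit 0, nat_lit 5, [nat_lit 4, nat_lit 5, nat_lit 5, nat_lit 20], true, nat_lit 0, nat_lit 0, nat_lit 0, nat_lit 0, ⟨nat_lit 0, nat_lit 1000, nat_lit 0, nat_lit 5, nat_lit 196, nat_lit 0, nat_lit 0, nat_lit 0, nat_lit 0, nat_lit 0, nat_lit 0, nat_lit 0, nat_lit 54028798, nat_lit 12971202, nat_lit 0, nat_lit 2457004, false, false⟩,
 nat_lit 0, nat_lit 0, nat_lit 0, nat_lit 1999, nat_lit 7723, nat_lit 0, nat_lit 0, nat_lit 0, nat_lit 0, nat_lit 0, nat_lit 0, nat_lit 0, nat_lit 0, nat_lit 906303444304, nat_lit 0, nat_lit 250000, nat_lit 0, nat_lit 0, [(nat_lit 3, [(nat_lit 0, nat_lit 1000)])],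
 ⟨t01_k1, nat_lit 0, nat_lit 0, nat_lit 63, nat_lit 0, nat_lit 0, [nat_lit 3816000000, nat_lit 3787200000], [], [nat_lit 10039252858, nat_lit 11869280444, nat_lit 16288096144, nat_lit 17661614872], nat_lit 0, nat_lit 0, nat_lit 0, nat_lit 0, nat_lit 0, nat_lit 0, [], [nat_lit 51, nat_lit 40, nat_lit 20, nat_lit 80, nat_lit 1, nat_lit 345, nat_lit 125, nat_lit 10]⟩, C1.Rw.none,
 ⟨nat_lit 6324, nat_lit 6709, ⟨.ofNat (nat_lit 349126), .ofNat (nat_lit 607557), .ofNat (nat_lit 370564), .ofNat (nat_lit 628989), .ofNat (nat_lit 356838), .ofNat (nat_lit 603596), .ofNat (nat_lit 378206), .ofNat (nat_lit 624956)⟩, ⟨.ofNat (nat_lit 0), .ofNat (nat_lit 0), .ofNat (nat_lit 0), .ofNat (nat_lit 0), .ofNat (nat_lit 0), .ofNat (nat_lit 0), .ofNat (nat_lit 0), .ofNat (nat_lit 0)⟩⟩, []⟩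
noncomputable def t01_l10 : Lf2 := ⟨nat_lit 0, nat_lit 5, [nat_lit 4, nat_lit 5, nat_lit 5, nat_lit 20], false, nat_lit 0, nat_lit 0, nat_lit 0, nat_lit 0, ⟨nat_lit 1000, nat_lit 0, nat_lit 0, nat_lit 0, nat_lit 0, nat_lit 0, nat_lit 0, nat_lit 0, nat_lit 0, nat_lit 0, nat_lit 0, nat_lit 0, nat_lit 0, nat_lit 0, nat_lit 0, nat_lit 0, false, false⟩,
 nat_lit 0, nat_lit 0, nat_lit 16144, nat_lit 0, nat_lit 7314, nat_lit 7721, nat_lit 3108, nat_lit 0, nat_lit 0, nat_lit 3253, nat_lit 0, nat_lit 0, nat_lit 0, nat_lit 0, nat_lit 0, nat_lit 0, nat_lit 0, nat_lit 0, [],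
 ⟨t01_k1, nat_lit 0, nat_lit 0, nat_lit 214, nat_lit 0, nat_lit 0, [nat_lit 6250000000, nat_lit 9842000000], [], [nat_lit 25797026512, nat_lit 26574615928, nat_lit 36451386328, nat_lit 37128038688], nat_lit 0, nat_lit 0, nat_lit 0, nat_lit 0, nat_lit 0, nat_lit 0, [], [nat_lit 51, nat_lit 40, nat_lit 20, nat_lit 80, nat_lit 1, nat_lit 401, nat_lit 175, nat_lit 11]⟩, ⟨t01_k1, nat_lit 0, nat_lit 0, nat_lit 592, nat_lit 0, nat_lit 874124, [nat_lit 6250000000, nat_lit 9842000000], [], [nat_lit 32381950068, nat_lit 32650393088, nat_lit 38030260880, nat_lit 38148073488], nat_lit 1271250, nat_lit 1271250, nat_lit 1271250, nat_lit 1271250, nat_lit 0, nat_lit 0, [nat_lit 1412500, nat_lit 1271250], [nat_lit 51, nat_lit 40, nat_lit 20, nat_lit 80, nat_lit 1, nat_lit 401, nat_lit 175, nat_lit 11]⟩,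
 zbF0, []⟩
noncomputable def t01_l11 : Lf2 := ⟨nat_lit 0, nat_lit 5, [nat_lit 4, nat_lit 5, nat_lit 5, nat_lit 20], false, nat_lit 0, nat_lit 0, nat_lit 0, nat_lit 0, ⟨nat_lit 159, nat_lit 841, nat_lit 0, nat_lit 5, nat_lit 214, nat_lit 0, nat_lit 0, nat_lit 0, nat_lit 0, nat_lit 0, nat_lit 0, nat_lit 0, nat_lit 0, nat_lit 0, nat_lit 0, nat_lit 5000000, false, true⟩,
 nat_lit 0, nat_lit 0, nat_lit 0, nat_lit 2677, nat_lit 6788, nat_lit 1664, nat_lit 0, nat_lit 0, nat_lit 0, nat_lit 0, nat_lit 0, nat_lit 0, nat_lit 0, nat_lit 11357807562829, nat_lit 0, nat_lit 336400, nat_lit 0, nat_lit 0, [(nat_lit 3, [(nat_lit 1, nat_lit 841)])],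
 ⟨t01_k1, nat_lit 0, nat_lit 0, nat_lit 289, nat_lit 0, nat_lit 0, [nat_lit 3806054000, nat_lit 4475567734], [], [nat_lit 29713080606, nat_lit 30391892307, nat_lit 35638809316, nat_lit 35870687462], nat_lit 0, nat_lit 0, nat_lit 0, nat_lit 0, nat_lit 0, nat_lit 0, [], [nat_lit 51, nat_lit 40, nat_lit 20, nat_lit 80, nat_lit 1, nat_lit 401, nat_lit 175, nat_lit 12]⟩, ⟨t01_k1, nat_lit 0, nat_lit 0, nat_lit 289, nat_lit 0, nat_lit 0, [nat_lit 993750000, nat_lit 1564878000], [], [nat_lit 6434668472, nat_lit 6596089074, nat_lit 7142572674, nat_lit 7160356772], nat_lit 0, nat_lit 0, nat_lit 0, nat_lit 0, nat_lit 0, nat_lit 0, [], [nat_lit 51, nat_lit 40, nat_lit 20, nat_lit 80, nat_lit 1, nat_lit 401, nat_lit 175, nat_lit 12]⟩,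
 ⟨nat_lit 6324, nat_lit 6709, ⟨.ofNat (nat_lit 99275), .ofNat (nat_lit 952062), .ofNat (nat_lit 120713), .ofNat (nat_lit 973494), .ofNat (nat_lit 118272), .ofNat (nat_lit 932535), .ofNat (nat_lit 139640), .ofNat (nat_lit 953897)⟩, ⟨.ofNat (nat_lit 0), .ofNat (nat_lit 0), .ofNat (nat_lit 0), .ofNat (nat_lit 0), .ofNat (nat_lit 0), .ofNat (nat_lit 0), .ofNat (nat_lit 0), .ofNat (nat_lit 0)⟩⟩, []⟩
noncomputable def t01_l12 : Lf2 := ⟨nat_lit 0, nat_lit 5, [nat_lit 4, nat_lit 5, nat_lit 5, nat_lit 20], false, nat_lit 0, nat_lit 0, nat_lit 0, nat_lit 0, ⟨nat_lit 133, nat_lit 867, nat_lit 0, nat_lit 5, nat_lit 212, nat_lit 0, nat_lit 0, nat_lit 0, nat_lit 0, nat_lit 0, nat_lit 0, nat_lit 0, nat_lit 0, nat_lit 0, nat_lit 0, nat_lit 5000000, false, true⟩,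
 nat_lit 0, nat_lit 0, nat_lit 1875, nat_lit 1936, nat_lit 6029, nat_lit 896, nat_lit 0, nat_lit 0, nat_lit 0, nat_lit 0, nat_lit 0, nat_lit 0, nat_lit 0, nat_lit 10032938547802, nat_lit 0, nat_lit 867000, nat_lit 0, nat_lit 0, [(nat_lit 3, [(nat_lit 2, nat_lit 867)])],
 ⟨t01_k1, nat_lit 0, nat_lit 0, nat_lit 287, nat_lit 0, nat_lit 0, [nat_lit 3837659201, nat_lit 3290314399], [], [nat_lit 28174935370, nat_lit 28495046485, nat_lit 33567541432, nat_lit 33713029005], nat_lit 0, nat_lit 0, nat_lit 0, nat_lit 0, nat_lit 0, nat_lit 0, [], [nat_lit 51, nat_lit 40, nat_lit 20, nat_lit 80, nat_lit 1, nat_lit 401, nat_lit 175, nat_lit 12]⟩, ⟨t01_k1, nat_lit 0, nat_lit 0, nat_lit 614, nat_lit 0, nat_lit 657638, [nat_lit 831250000, nat_lit 1308986000], [], [nat_lit 7198840138, nat_lit 7215544537, nat_lit 7384247276, nat_lit 7183991276], nat_lit 1271250, nat_lit 1271250, nat_lit 21650, nat_lit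 2833250, nat_lit 0, nat_lit 0, [nat_lit 1412500, nat_lit 1271250], [nat_lit 51, nat_lit 40, nat_lit 20, nat_lit 80, nat_lit 1, nat_lit 401, nat_lit 175, nat_lit 12]⟩,
 ⟨nat_lit 6519, nat_lit 6709, ⟨.ofNat (nat_lit 99275), .ofNat (nat_lit 952176), .ofNat (nat_lit 109994), .ofNat (nat_lit 962894), .ofNat (nat_lit 108876), .ofNat (nat_lit 942298), .ofNat (nat_lit 119575), .ofNat (nat_lit 952996)⟩, ⟨.ofNat (nat_lit 0), .ofNat (nat_lit 0), .ofNat (nat_lit 0), .ofNat (nat_lit 0), .ofNat (nat_lit 0), .ofNat (nat_lit 0), .ofNat (nat_lit 0), .ofNat (nat_lit 0)⟩⟩, []⟩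
noncomputable def t01_l13 : Lf2 := ⟨nat_lit 0, nat_lit 5, [nat_lit 4, nat_lit 5, nat_lit 5, nat_lit 20], false, nat_lit 0, nat_lit 0, nat_lit 0, nat_lit 0, ⟨nat_lit 128, nat_lit 872, nat_lit 0, nat_lit 5, nat_lit 214, nat_lit 0, nat_lit 0, nat_lit 0, nat_lit 0, nat_lit 0, nat_lit 0, nat_lit 0, nat_lit 0, nat_lit 0, nat_lit 0, nat_lit 5000000, false, true⟩,
 nat_lit 0, nat_lit 0, nat_lit 1938, nat_lit 2426, nat_lit 5382, nat_lit 926, nat_lit 753, nat_lit 0, nat_lit 0, nat_lit 0, nat_lit 0, nat_lit 0, nat_lit 0, nat_lit 10889595797719, nat_lit 0, nat_lit 348800, nat_lit 0, nat_lit 0, [(nat_lit 3, [(nat_lit 1, nat_lit 872)])],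
 ⟨t01_k2, nat_lit 0, nat_lit 0, nat_lit 289, nat_lit 0, nat_lit 0, [nat_lit 3715968000, nat_lit 4280631467], [], [nat_lit 27424392151, nat_lit 27737298921, nat_lit 32335116825, nat_lit 32470671733], nat_lit 0, nat_lit 0, nat_lit 0, nat_lit 0, nat_lit 0, nat_lit 0, [], [nat_lit 51, nat_lit 40, nat_lit 20, nat_lit 80, nat_lit 1, nat_lit 401, nat_lit 175, nat_lit 12]⟩, ⟨t01_k1, nat_lit 0, nat_lit 0, nat_lit 725, nat_lit 0, nat_lit 874124, [nat_lit 800000000, nat_lit 1259776000], [], [nat_lit 6990707476, nat_lit 7009138770, nat_lit 7156959616, nat_lit 6764379080], nat_lit 1271250, nat_lit 1271250, nat_lit 21650, nat_lit 2833250, nat_lit 0, nat_lit 0, [nat_lit 1412500, nat_lit 1271250], [nat_lit 51, nat_lit 40, nat_lit 20, nat_lit 80, nat_lit 1, nat_lit 401, nat_lit 175, nat_lit 12]⟩,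
 ⟨nat_lit 6324, nat_lit 6520, ⟨.ofNat (nat_lit 108876), .ofNat (nat_lit 942301), .ofNat (nat_lit 130274), .ofNat (nat_lit 963697), .ofNat (nat_lit 118272), .ofNat (nat_lit 932652), .ofNat (nat_lit 139640), .ofNat (nat_lit 954018)⟩, ⟨.ofNat (nat_lit 0), .ofNat (nat_lit 0), .ofNat (nat_lit 0), .ofNat (nat_lit 0), .ofNat (nat_lit 0), .ofNat (nat_lit 0), .ofNat (nat_lit 0), .ofNat (nat_lit 0)⟩⟩, []⟩
noncomputable def t01_l14 : Lf2 := ⟨nat_lit 0, nat_lit 1, [nat_lit 19, nat_lit 5, nat_lit 5, nat_lit 20], false, nat_lit 0, nat_lit 0, nat_lit 0, nat_lit 0, ⟨nat_lit 1000, nat_lit 0, nat_lit 0, nat_lit 0, nat_lit 0, nat_lit 0, nat_lit 0, nat_lit 0, nat_lit 0, nat_lit 0, nat_lit 0, nat_lit 0, nat_lit 0, nat_lit 0, nat_lit 0, nat_lit 0, false, false⟩,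
 nat_lit 0, nat_lit 28334, nat_lit 0, nat_lit 0, nat_lit 13550, nat_lit 5397, nat_lit 474, nat_lit 0, nat_lit 0, nat_lit 6010, nat_lit 0, nat_lit 0, nat_lit 0, nat_lit 31297302376987, nat_lit 0, nat_lit 0, nat_lit 0, nat_lit 0, [],
 ⟨t01_k3, nat_lit 0, nat_lit 0, nat_lit 292, nat_lit 0, nat_lit 213045, [nat_lit 6250000000, nat_lit 7968000000], [], [nat_lit 25444778300, nat_lit 24978207192, nat_lit 25281922100, nat_lit 24590819526], nat_lit 1271250, nat_lit 1271250, nat_lit 43600, nat_lit 88400, nat_lit 0, nat_lit 0, [nat_lit 1412500, nat_lit 1271250], [nat_lit 26, nat_lit 40, nat_lit 20, nat_lit 80, nat_lit 2, nat_lit 272, nat_lit 60, nat_lit 10]⟩, ⟨t01_k4, nat_lit 0, nat_lit 0, nat_lit 0, nat_lit 0, nat_lit 0, [nat_lit 3282000000, nat_lit 6250000000, nat_lit 7968000000], [], [nat_lit 17125859610, nat_lit 17286202610, nat_lit 16554828557, nat_lit 16704137041], nat_lit 0, nat_lit 0,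 nat_lit 0, nat_lit 0, nat_lit 0, nat_lit 0, [], [nat_lit 18, nat_lit 40, nat_lit 20, nat_lit 80]⟩,
 zbF0, []⟩
noncomputable def t01_l15 : Lf2 := ⟨nat_lit 0, nat_lit 2, [nat_lit 10, nat_lit 5, nat_lit 5, nat_lit 20], false, nat_lit 0, nat_lit 0, nat_lit 0, nat_lit 0, ⟨nat_lit 1000, nat_lit 0, nat_lit 0, nat_lit 0, nat_lit 0, nat_lit 0, nat_lit 0, nat_lit 0, nat_lit 0, nat_lit 0, nat_lit 0, nat_lit 0, nat_lit 0, nat_lit 0, nat_lit 0, nat_lit 0, false, false⟩,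
 nat_lit 0, nat_lit 27744, nat_lit 0, nat_lit 0, nat_lit 13268, nat_lit 0, nat_lit 1867, nat_lit 0, nat_lit 0, nat_lit 1213, nat_lit 0, nat_lit 559, nat_lit 0, nat_lit 14439779879864, nat_lit 0, nat_lit 0, nat_lit 0, nat_lit 0, [],
 ⟨t01_k5, nat_lit 0, nat_lit 0, nat_lit 290, nat_lit 0, nat_lit 166446, [nat_lit 6250000000, nat_lit 7968000000], [], [nat_lit 25831258304, nat_lit 25618215702, nat_lit 25571969816, nat_lit 24895250337], nat_lit 1271250, nat_lit 1271250, nat_lit 21650, nat_lit 88400, nat_lit 0, nat_lit 0, [nat_lit 1412500, nat_lit 1271250], [nat_lit 26, nat_lit 40, nat_lit 20, nat_lit 80, nat_lit 2, nat_lit 272, nat_lit 60, nat_lit 10]⟩, ⟨t01_k6, nat_lit 0, nat_lit 0, nat_lit 0, nat_lit 0, nat_lit 0, [nat_lit 3282000000, nat_lit 6250000000, nat_lit 7968000000], [], [nat_lit 5352131650, nat_lit 5426861361, nat_lit 5484003600, nat_lit 5559620840], nat_lit 0, nat_lit 0, nat_lit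 0, nat_lit 0, nat_lit 0, nat_lit 0, [], [nat_lit 18, nat_lit 40, nat_lit 20, nat_lit 80]⟩,
 zbF0, [⟨nat_lit 0, nat_lit 100, nat_lit 100, nat_lit 21, nat_lit 937739794⟩]⟩
noncomputable def t01_l16 : Lf2 := ⟨nat_lit 0, nat_lit 2, [nat_lit 10, nat_lit 5, nat_lit 5, nat_lit 20], false, nat_lit 0, nat_lit 0, nat_lit 0, nat_lit 0, ⟨nat_lit 542, nat_lit 0, nat_lit 458, nat_lit 5, nat_lit 46, nat_lit 0, nat_lit 0, nat_lit 0, nat_lit 0, nat_lit 215, nat_lit 19267, nat_lit 249, nat_lit 66137327, nat_lit 0, nat_lit 0, nat_lit 344037, false, false⟩,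
 nat_lit 0, nat_lit 21714, nat_lit 0, nat_lit 0, nat_lit 10384, nat_lit 100000, nat_lit 0, nat_lit 0, nat_lit 0, nat_lit 3863, nat_lit 8905, nat_lit 0, nat_lit 0, nat_lit 91006805605087, nat_lit 0, nat_lit 458000, nat_lit 0, nat_lit 0, [(nat_lit 3, [(nat_lit 6, nat_lit 458)])],
 ⟨t01_k5, nat_lit 0, nat_lit 0, nat_lit 290, nat_lit 0, nat_lit 166446, [nat_lit 3864343429, nat_lit 3741392800], [], [nat_lit 21526195439, nat_lit 21231229311, nat_lit 21381303695, nat_lit 20851679406], nat_lit 1271250, nat_lit 1271250, nat_lit 21650, nat_lit 88400, nat_lit 0, nat_lit 0, [nat_lit 1412500, nat_lit 1271250], [nat_lit 26, nat_lit 40, nat_lit 20, nat_lit 80, nat_lit 2, nat_lit 272, nat_lit 60, nat_lit 10]⟩, ⟨t01_k6, nat_lit 0, nat_lit 0, nat_lit 0, nat_lit 0, nat_lit 0, [nat_lit 108638844000, nat_lit 181487500000, nat_lit 218038656000], [], [nat_lit 268151795614, nat_lit 269515136405, nat_lit 249557449111,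 nat_lit 250815936850], nat_lit 0, nat_lit 0, nat_lit 0, nat_lit 0, nat_lit 0, nat_lit 0, [], [nat_lit 18, nat_lit 40, nat_lit 20, nat_lit 80]⟩,
 ⟨nat_lit 6670, nat_lit 6709, ⟨.ofNat (nat_lit 99275), .ofNat (nat_lit 125122), .ofNat (nat_lit 101419), .ofNat (nat_lit 127265), .ofNat (nat_lit 101212), .ofNat (nat_lit 126940), .ofNat (nat_lit 103355), .ofNat (nat_lit 129083)⟩, ⟨.ofNat (nat_lit 0), .ofNat (nat_lit 0), .ofNat (nat_lit 0), .ofNat (nat_lit 0), .ofNat (nat_lit 0), .ofNat (nat_lit 0), .ofNat (nat_lit 0), .ofNat (nat_lit 0)⟩⟩, [⟨nat_lit 0, nat_lit 100, nat_lit 100, nat_lit 21, nat_lit 8339197324⟩]⟩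
noncomputable def t01_l17 : Lf2 := ⟨nat_lit 3, nat_lit 2, [nat_lit 10, nat_lit 5, nat_lit 5, nat_lit 20], false, nat_lit 0, nat_lit 0, nat_lit 0, nat_lit 0, zbN0,
 nat_lit 0, nat_lit 0, nat_lit 0, nat_lit 0, nat_lit 0, nat_lit 0, nat_lit 0, nat_lit 0, nat_lit 0, nat_lit 0, nat_lit 0, nat_lit 0, nat_lit 0, nat_lit 0, nat_lit 0, nat_lit 0, nat_lit 0, nat_lit 0, [],
 C1.Rw.none, ⟨t01_k6, nat_lit 0, nat_lit 0, nat_lit 0, nat_lit 0, nat_lit 0, [], [], [], nat_lit 0, nat_lit 0, nat_lit 0, nat_lit 0, nat_lit 0, nat_lit 0, [], [nat_lit 18, nat_lit 40, nat_lit 20, nat_lit 80]⟩,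
 zbF0, []⟩
noncomputable def t01_l18 : Lf2 := ⟨nat_lit 3, nat_lit 2, [nat_lit 10, nat_lit 5, nat_lit 5, nat_lit 20], false, nat_lit 0, nat_lit 0, nat_lit 0, nat_lit 0, zbN0,
 nat_lit 0, nat_lit 0, nat_lit 0, nat_lit 0, nat_lit 0, nat_lit 0, nat_lit 0, nat_lit 0, nat_lit 0, nat_lit 0, nat_lit 0, nat_lit 0, nat_lit 0, nat_lit 0, nat_lit 0, nat_lit 0, nat_lit 0, nat_lit 0, [],
 C1.Rw.none, ⟨t01_k5, nat_lit 0, nat_lit 0, nat_lit 171, nat_lit 0, nat_lit 0, [], [], [], nat_lit 0, nat_lit 0, nat_lit 0, nat_lit 0, nat_lit 0, nat_lit 0, [], [nat_lit 26, nat_lit 40, nat_lit 20, nat_lit 80, nat_lit 2, nat_lit 289, nat_lit 75, nat_lit 10]⟩,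
 zbF0, []⟩
noncomputable def t01_l19 : Lf2 := ⟨nat_lit 0, nat_lit 2, [nat_lit 10, nat_lit 5, nat_lit 5, nat_lit 20], false, nat_lit 0, nat_lit 0, nat_lit 0, nat_lit 0, ⟨nat_lit 1000, nat_lit 0, nat_lit 0, nat_lit 0, nat_lit 0, nat_lit 0, nat_lit 0, nat_lit 0, nat_lit 0, nat_lit 0, nat_lit 0, nat_lit 0, nat_lit 0, nat_lit 0, nat_lit 0, nat_lit 0, false, false⟩,
 nat_lit 0, nat_lit 30300, nat_lit 0, nat_lit 0, nat_lit 14491, nat_lit 10797, nat_lit 1422, nat_lit 0, nat_lit 0, nat_lit 5132, nat_lit 0, nat_lit 0, nat_lit 0, nat_lit 36505360741886, nat_lit 0, nat_lit 0, nat_lit 0, nat_lit 0, [],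
 ⟨t01_k5, nat_lit 0, nat_lit 0, nat_lit 289, nat_lit 0, nat_lit 225492, [nat_lit 6250000000, nat_lit 7968000000], [], [nat_lit 24314067842, nat_lit 23468211079, nat_lit 24248708204, nat_lit 23141703038], nat_lit 1271250, nat_lit 1271250, nat_lit 88400, nat_lit 111251, nat_lit 0, nat_lit 0, [nat_lit 1412500, nat_lit 1271250], [nat_lit 26, nat_lit 40, nat_lit 20, nat_lit 80, nat_lit 2, nat_lit 289, nat_lit 75, nat_lit 10]⟩, ⟨t01_k5, nat_lit 0, nat_lit 0, nat_lit 147, nat_lit 0, nat_lit 0, [nat_lit 6250000000, nat_lit 7968000000], [], [nat_lit 18653092813, nat_lit 18903197229, nat_lit 18048526662, nat_lit 18298706483], nat_lit 0, nat_lit 0, nat_lit 0, nat_lit 0, nat_lit 0, nat_lit 0, [], [nat_lit 26, nat_lit 40, nat_lit 20, nat_lit 80, nat_lit 2, nat_lit 289, nat_lit 75, nat_lit 10]⟩,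
 zbF0, []⟩
noncomputable def t01_l20 : Lf2 := ⟨nat_lit 0, nat_lit 2, [nat_lit 10, nat_lit 5, nat_lit 5, nat_lit 20], false, nat_lit 0, nat_lit 0, nat_lit 0, nat_lit 0, ⟨nat_lit 1000, nat_lit 0, nat_lit 0, nat_lit 0, nat_lit 0, nat_lit 0, nat_lit 0, nat_lit 0, nat_lit 0, nat_lit 0, nat_lit 0, nat_lit 0, nat_lit 0, nat_lit 0, nat_lit 0, nat_lit 0, false, false⟩,
 nat_lit 0, nat_lit 27848, nat_lit 0, nat_lit 0, nat_lit 13529, nat_lit 10390, nat_lit 0, nat_lit 0, nat_lit 0, nat_lit 5987, nat_lit 0, nat_lit 0, nat_lit 0, nat_lit 31743480476347, nat_lit 0, nat_lit 0, nat_lit 0, nat_lit 0, [],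
 ⟨t01_k7, nat_lit 0, nat_lit 0, nat_lit 288, nat_lit 0, nat_lit 237677, [nat_lit 6250000000, nat_lit 7968000000], [], [nat_lit 24268474160, nat_lit 23789040203, nat_lit 24215053191, nat_lit 23526042867], nat_lit 1271250, nat_lit 1271250, nat_lit 88400, nat_lit 111251, nat_lit 0, nat_lit 0, [nat_lit 1412500, nat_lit 1271250], [nat_lit 26, nat_lit 40, nat_lit 20, nat_lit 80, nat_lit 2, nat_lit 289, nat_lit 75, nat_lit 10]⟩, ⟨t01_k5, nat_lit 0, nat_lit 0, nat_lit 148, nat_lit 0, nat_lit 0, [nat_lit 6250000000, nat_lit 7968000000], [], [nat_lit 18277447086, nat_lit 18684581318, nat_lit 17697486690, nat_lit 18104734915], nat_lit 0, nat_lit 0, nat_lit 0, nat_lit 0, nat_lit 0, nat_lit 0, [], [nat_lit 26, nat_lit 40, nat_lit 20, nat_lit 80, nat_lit 2, nat_lit 289, nat_lit 75, nat_lit 10]⟩,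
 zbF0, []⟩
noncomputable def t01_l21 : Lf2 := ⟨nat_lit 0, nat_lit 2, [nat_lit 10, nat_lit 5, nat_lit 5, nat_lit 20], false, nat_lit 0, nat_lit 0, nat_lit 0, nat_lit 0, ⟨nat_lit 1000, nat_lit 0, nat_lit 0, nat_lit 0, nat_lit 0, nat_lit 0, nat_lit 0, nat_lit 0, nat_lit 0, nat_lit 0, nat_lit 0, nat_lit 0, nat_lit 0, nat_lit 0, nat_lit 0, nat_lit 0, false, false⟩,
 nat_lit 0, nat_lit 24925, nat_lit 0, nat_lit 0, nat_lit 12235, nat_lit 10502, nat_lit 0, nat_lit 0, nat_lit 0, nat_lit 5323, nat_lit 0, nat_lit 0, nat_lit 0, nat_lit 28486807743769, nat_lit 0, nat_lit 0, nat_lit 0, nat_lit 0, [],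
 ⟨t01_k8, nat_lit 0, nat_lit 0, nat_lit 300, nat_lit 0, nat_lit 275371, [nat_lit 6250000000, nat_lit 7968000000], [], [nat_lit 25074368391, nat_lit 24021168387, nat_lit 25035722905, nat_lit 23477950470], nat_lit 1271250, nat_lit 1271250, nat_lit 88400, nat_lit 111251, nat_lit 0, nat_lit 0, [nat_lit 1412500, nat_lit 1271250], [nat_lit 26, nat_lit 40, nat_lit 20, nat_lit 80, nat_lit 2, nat_lit 289, nat_lit 75, nat_lit 10]⟩, ⟨t01_k5, nat_lit 0, nat_lit 0, nat_lit 151, nat_lit 0, nat_lit 0, [nat_lit 6250000000, nat_lit 7968000000], [], [nat_lit 18721113355, nat_lit 19540723950, nat_lit 18134381842, nat_lit 18954226852], nat_lit 0, nat_lit 0, nat_lit 0, nat_lit 0, nat_lit 0, nat_lit 0, [], [nat_lit 26, nat_lit 40, nat_lit 20, nat_lit 80, nat_lit 2, nat_lit 289, nat_lit 75, nat_lit 10]⟩,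
 zbF0, []⟩
noncomputable def t01_l22 : Lf2 := ⟨nat_lit 0, nat_lit 2, [nat_lit 10, nat_lit 5, nat_lit 5, nat_lit 20], false, nat_lit 0, nat_lit 0, nat_lit 0, nat_lit 0, ⟨nat_lit 1000, nat_lit 0, nat_lit 0, nat_lit 0, nat_lit 0, nat_lit 0, nat_lit 0, nat_lit 0, nat_lit 0, nat_lit 0, nat_lit 0, nat_lit 0, nat_lit 0, nat_lit 0, nat_lit 0, nat_lit 0, false, false⟩,
 nat_lit 0, nat_lit 28472, nat_lit 0, nat_lit 0, nat_lit 13617, nat_lit 11204, nat_lit 2354, nat_lit 0, nat_lit 0, nat_lit 3773, nat_lit 0, nat_lit 0, nat_lit 0, nat_lit 39787969118625, nat_lit 0, nat_lit 0, nat_lit 0, nat_lit 0, [],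
 ⟨t01_k5, nat_lit 0, nat_lit 0, nat_lit 298, nat_lit 0, nat_lit 282867, [nat_lit 6250000000, nat_lit 7968000000], [], [nat_lit 25157105348, nat_lit 22292913203, nat_lit 25189389444, nat_lit 21747256950], nat_lit 1271250, nat_lit 1271250, nat_lit 111251, nat_lit 230001, nat_lit 0, nat_lit 0, [nat_lit 1412500, nat_lit 1271250], [nat_lit 26, nat_lit 40, nat_lit 20, nat_lit 80, nat_lit 2, nat_lit 289, nat_lit 75, nat_lit 10]⟩, ⟨t01_k5, nat_lit 0, nat_lit 0, nat_lit 144, nat_lit 0, nat_lit 0, [nat_lit 6250000000, nat_lit 7968000000], [], [nat_lit 18799616634, nat_lit 19912609946, nat_lit 16824952306, nat_lit 17670035898], nat_lit 0, nat_lit 0, nat_lit 0, nat_lit 0, nat_lit 0, nat_lit 0, [], [nat_lit 26, nat_lit 40, nat_lit 20, nat_lit 80, nat_lit 2, nat_lit 289, nat_lit 75, nat_lit 10]⟩,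
 zbF0, []⟩
noncomputable def t01_l23 : Lf2 := ⟨nat_lit 0, nat_lit 5, [nat_lit 4, nat_lit 5, nat_lit 5, nat_lit 20], false, nat_lit 0, nat_lit 0, nat_lit 0, nat_lit 0, ⟨nat_lit 1000, nat_lit 0, nat_lit 0, nat_lit 0, nat_lit 0, nat_lit 0, nat_lit 0, nat_lit 0, nat_lit 0, nat_lit 0, nat_lit 0, nat_lit 0, nat_lit 0, nat_lit 0, nat_lit 0, nat_lit 0, false, false⟩,
 nat_lit 0, nat_lit 24744, nat_lit 0, nat_lit 0, nat_lit 11834, nat_lit 10377, nat_lit 2927, nat_lit 0, nat_lit 0, nat_lit 3728, nat_lit 0, nat_lit 0, nat_lit 0, nat_lit 34320541894845, nat_lit 0, nat_lit 0, nat_lit 0, nat_lit 0, [],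
 ⟨t01_k0, nat_lit 0, nat_lit 0, nat_lit 447, nat_lit 0, nat_lit 390309, [nat_lit 6250000000, nat_lit 7968000001, nat_lit 9842000000], [], [nat_lit 27100530088, nat_lit 22026665593, nat_lit 28568277852, nat_lit 22671561328], nat_lit 1271250, nat_lit 1271250, nat_lit 230001, nat_lit 490000, nat_lit 0, nat_lit 0, [nat_lit 1412500, nat_lit 1271250, nat_lit 1271250], [nat_lit 25, nat_lit 40, nat_lit 20, nat_lit 80, nat_lit 17, nat_lit 317, nat_lit 100, nat_lit 10]⟩, ⟨t01_k0, nat_lit 0, nat_lit 0, nat_lit 192, nat_lit 0, nat_lit 0, [nat_lit 6250000000, nat_lit 7968000000, nat_lit 9842000000], [], [nat_lit 17696715128, nat_lit 19486106540, nat_lit 15700476364, nat_lit 17250459392], nat_lit 0, nat_lit 0, nat_lit 0, nat_lit 0, nat_lit 0, nat_lit 0, [], [nat_lit 25, nat_lit 40, nat_lit 20, nat_lit 80, nat_lit 17, nat_lit 317, nat_lit 100, nat_lit 10]⟩,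
 zbF0, []⟩
noncomputable def t01_l24 : Lf2 := ⟨nat_lit 0, nat_lit 5, [nat_lit 4, nat_lit 5, nat_lit 5, nat_lit 20], true, nat_lit 0, nat_lit 0, nat_lit 0, nat_lit 0, ⟨nat_lit 0, nat_lit 0, nat_lit 1000, nat_lit 5, nat_lit 52, nat_lit 0, nat_lit 0, nat_lit 0, nat_lit 0, nat_lit 215, nat_lit 25350, nat_lit 254, nat_lit 65907042, nat_lit 0, nat_lit 0, nat_lit 416517, false, false⟩,
 nat_lit 0, nat_lit 2316, nat_lit 0, nat_lit 0, nat_lit 1136, nat_lit 0, nat_lit 0, nat_lit 0, nat_lit 255, nat_lit 0, nat_lit 0, nat_lit 0, nat_lit 0, nat_lit 13457076131416, nat_lit 60, nat_lit 400000, nat_lit 0, nat_lit 0, [(nat_lit 3, [(nat_lit 5, nat_lit 1000)])],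
 ⟨t01_k9, nat_lit 0, nat_lit 0, nat_lit 0, nat_lit 0, nat_lit 84818, [nat_lit 2770400000, nat_lit 702400001, nat_lit 2000000], [], [nat_lit 7358136321, nat_lit 7574892989, nat_lit 7280668916, nat_lit 7479235576], nat_lit 1271250, nat_lit 1271250, nat_lit 21650, nat_lit 111251, nat_lit 0, nat_lit 0, [nat_lit 1412500, nat_lit 1271250, nat_lit 1271250], [nat_lit 25, nat_lit 40, nat_lit 20, nat_lit 80]⟩, C1.Rw.none,
 ⟨nat_lit 6519, nat_lit 6615, ⟨.ofNat (nat_lit 104102), .ofNat (nat_lit 138168), .ofNat (nat_lit 114811), .ofNat (nat_lit 148877), .ofNat (nat_lit 108876), .ofNat (nat_lit 142551), .ofNat (nat_lit 119575), .ofNat (nat_lit 153250)⟩, ⟨.ofNat (nat_lit 0), .ofNat (nat_lit 0), .ofNat (nat_lit 0), .ofNat (nat_lit 0), .ofNat (nat_lit 0), .ofNat (nat_lit 0), .ofNat (nat_lit 0), .ofNat (nat_lit 0)⟩⟩, [⟨nat_lit 0, nat_lit 100, nat_lit 100, nat_lit 30, nat_lit 131253212⟩]⟩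
noncomputable def t01_l25 : Lf2 := ⟨nat_lit 0, nat_lit 5, [nat_lit 4, nat_lit 5, nat_lit 5, nat_lit 20], true, nat_lit 0, nat_lit 0, nat_lit 0, nat_lit 0, ⟨nat_lit 0, nat_lit 0, nat_lit 1000, nat_lit 5, nat_lit 49, nat_lit 0, nat_lit 0, nat_lit 0, nat_lit 0, nat_lit 215, nat_lit 22817, nat_lit 252, nat_lit 66019517, nat_lit 0, nat_lit 0, nat_lit 381634, false, false⟩,
 nat_lit 0, nat_lit 8833, nat_lit 0, nat_lit 0, nat_lit 4336, nat_lit 0, nat_lit 2, nat_lit 0, nat_lit 0, nat_lit 0, nat_lit 0, nat_lit 0, nat_lit 0, nat_lit 0, nat_lit 115, nat_lit 1000000, nat_lit 0, nat_lit 0, [(nat_lit 3, [(nat_lit 6, nat_lit 1000)])],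
 ⟨t01_k10, nat_lit 0, nat_lit 0, nat_lit 0, nat_lit 0, nat_lit 62796, [nat_lit 3007028572, nat_lit 2237600001, nat_lit 23600000], [], [nat_lit 14175131836, nat_lit 14419797878, nat_lit 13660481541, nat_lit 13877465855], nat_lit 1271250, nat_lit 1271250, nat_lit 21650, nat_lit 88400, nat_lit 0, nat_lit 0, [nat_lit 1271250, nat_lit 1271250, nat_lit 1271250], [nat_lit 103, nat_lit 40, nat_lit 20, nat_lit 40]⟩, C1.Rw.none,
 ⟨nat_lit 6519, nat_lit 6615, ⟨.ofNat (nat_lit 104102), .ofNat (nat_lit 129652), .ofNat (nat_lit 109456), .ofNat (nat_lit 135006), .ofNat (nat_lit 108876), .ofNat (nat_lit 134132), .ofNat (nat_lit 114225), .ofNat (nat_lit 139482)⟩, ⟨.ofNat (nat_lit 0), .ofNat (nat_lit 0), .ofNat (nat_lit 0), .ofNat (nat_lit 0), .ofNat (nat_lit 0), .ofNat (nat_lit 0), .ofNat (nat_lit 0), .ofNat (nat_lit 0)⟩⟩, [⟨nat_lit 0, nat_lit 100, nat_lit 100, nat_lit 27, nat_lit 322400478⟩]⟩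
noncomputable def t01_l26 : Lf2 := ⟨nat_lit 0, nat_lit 5, [nat_lit 4, nat_lit 5, nat_lit 5, nat_lit 20], true, nat_lit 0, nat_lit 0, nat_lit 0, nat_lit 0, ⟨nat_lit 0, nat_lit 0, nat_lit 1000, nat_lit 5, nat_lit 51, nat_lit 0, nat_lit 0, nat_lit 0, nat_lit 0, nat_lit 215, nat_lit 24067, nat_lit 253, nat_lit 65932910, nat_lit 0, nat_lit 0, nat_lit 408576, false, false⟩,
 nat_lit 0, nat_lit 8175, nat_lit 0, nat_lit 0, nat_lit 4013, nat_lit 0, nat_lit 316, nat_lit 0, nat_lit 0, nat_lit 0, nat_lit 0, nat_lit 0, nat_lit 0, nat_lit 3127711165083, nat_lit 115, nat_lit 1000000, nat_lit 0, nat_lit 0, [(nat_lit 3, [(nat_lit 6, nat_lit 1000)])],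
 ⟨t01_k10, nat_lit 0, nat_lit 0, nat_lit 0, nat_lit 0, nat_lit 39199, [nat_lit 3007028572, nat_lit 2237600001, nat_lit 23600000], [], [nat_lit 13065957011, nat_lit 13302424651, nat_lit 12473656879, nat_lit 12710382718], nat_lit 1271250, nat_lit 1271250, nat_lit 21650, nat_lit 88400, nat_lit 0, nat_lit 0, [nat_lit 1271250, nat_lit 1271250, nat_lit 1271250], [nat_lit 103, nat_lit 40, nat_lit 20, nat_lit 40]⟩, C1.Rw.none,
 ⟨nat_lit 6519, nat_lit 6615, ⟨.ofNat (nat_lit 109456), .ofNat (nat_lit 135006), .ofNat (nat_lit 114811), .ofNat (nat_lit 140360), .ofNat (nat_lit 114225), .ofNat (nat_lit 139482), .ofNat (nat_lit 119575), .ofNat (nat_lit 144831)⟩, ⟨.ofNat (nat_lit 0), .ofNat (nat_lit 0), .ofNat (nat_lit 0), .ofNat (nat_lit 0), .ofNat (nat_lit 0), .ofNat (nat_lit 0), .ofNat (nat_lit 0), .ofNat (nat_lit 0)⟩⟩, [⟨nat_lit 0, nat_lit 100, nat_lit 100, nat_lit 30, nat_lit 353511802⟩]⟩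
noncomputable def t01_l27 : Lf2 := ⟨nat_lit 0, nat_lit 5, [nat_lit 4, nat_lit 5, nat_lit 5, nat_lit 20], true, nat_lit 0, nat_lit 0, nat_lit 0, nat_lit 0, ⟨nat_lit 0, nat_lit 0, nat_lit 1000, nat_lit 5, nat_lit 57, nat_lit 0, nat_lit 0, nat_lit 0, nat_lit 0, nat_lit 215, nat_lit 29400, nat_lit 257, nat_lit 65685249, nat_lit 0, nat_lit 0, nat_lit 482788, false, false⟩,
 nat_lit 0, nat_lit 8495, nat_lit 0, nat_lit 0, nat_lit 4170, nat_lit 0, nat_lit 342, nat_lit 0, nat_lit 0, nat_lit 0, nat_lit 0, nat_lit 0, nat_lit 0, nat_lit 0, nat_lit 115, nat_lit 1000000, nat_lit 0, nat_lit 0, [(nat_lit 3, [(nat_lit 6, nat_lit 1000)])],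
 ⟨t01_k10, nat_lit 0, nat_lit 0, nat_lit 0, nat_lit 0, nat_lit 84818, [nat_lit 3007028572, nat_lit 2237600001, nat_lit 23600000], [], [nat_lit 12330188590, nat_lit 12569802580, nat_lit 12123201432, nat_lit 12365254653], nat_lit 1271250, nat_lit 1271250, nat_lit 88400, nat_lit 111251, nat_lit 0, nat_lit 0, [nat_lit 1271250, nat_lit 1271250, nat_lit 1271250], [nat_lit 103, nat_lit 40, nat_lit 20, nat_lit 40]⟩, C1.Rw.none,
 ⟨nat_lit 6519, nat_lit 6615, ⟨.ofNat (nat_lit 129652), .ofNat (nat_lit 138168), .ofNat (nat_lit 140360), .ofNat (nat_lit 148877), .ofNat (nat_lit 134132), .ofNat (nat_lit 142551), .ofNat (nat_lit 144831), .ofNat (nat_lit 153250)⟩, ⟨.ofNat (nat_lit 0), .ofNat (nat_lit 0), .ofNat (nat_lit 0), .ofNat (nat_lit 0), .ofNat (nat_lit 0), .ofNat (nat_lit 0), .ofNat (nat_lit 0), .ofNat (nat_lit 0)⟩⟩, []⟩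
noncomputable def t01_l28 : Lf2 := ⟨nat_lit 0, nat_lit 5, [nat_lit 4, nat_lit 5, nat_lit 5, nat_lit 20], true, nat_lit 0, nat_lit 0, nat_lit 0, nat_lit 0, ⟨nat_lit 0, nat_lit 0, nat_lit 1000, nat_lit 5, nat_lit 52, nat_lit 0, nat_lit 0, nat_lit 0, nat_lit 0, nat_lit 215, nat_lit 25350, nat_lit 254, nat_lit 65907042, nat_lit 0, nat_lit 0, nat_lit 416517, false, false⟩,
 nat_lit 0, nat_lit 100000, nat_lit 0, nat_lit 100000, nat_lit 49090, nat_lit 0, nat_lit 10942, nat_lit 2276, nat_lit 0, nat_lit 0, nat_lit 0, nat_lit 0, nat_lit 0, nat_lit 0, nat_lit 0, nat_lit 400000, nat_lit 0, nat_lit 0, [(nat_lit 3, [(nat_lit 5, nat_lit 1000)])],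
 ⟨t01_k9, nat_lit 0, nat_lit 0, nat_lit 326, nat_lit 0, nat_lit 84818, [nat_lit 47090400001, nat_lit 53886400001, nat_lit 62050000000], [], [nat_lit 89091570327, nat_lit 89823191539, nat_lit 79272904558, nat_lit 80004153213], nat_lit 1271250, nat_lit 1271250, nat_lit 21650, nat_lit 111251, nat_lit 0, nat_lit 0, [nat_lit 1412500, nat_lit 1271250, nat_lit 1271250], [nat_lit 25, nat_lit 40, nat_lit 20, nat_lit 80, nat_lit 17, nat_lit 289, nat_lit 75, nat_lit 9]⟩, C1.Rw.none,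
 ⟨nat_lit 6519, nat_lit 6615, ⟨.ofNat (nat_lit 104102), .ofNat (nat_lit 138168), .ofNat (nat_lit 114811), .ofNat (nat_lit 148877), .ofNat (nat_lit 108876), .ofNat (nat_lit 142551), .ofNat (nat_lit 119575), .ofNat (nat_lit 153250)⟩, ⟨.ofNat (nat_lit 0), .ofNat (nat_lit 0), .ofNat (nat_lit 0), .ofNat (nat_lit 0), .ofNat (nat_lit 0), .ofNat (nat_lit 0), .ofNat (nat_lit 0), .ofNat (nat_lit 0)⟩⟩, []⟩
noncomputable def t01_l29 : Lf2 := ⟨nat_lit 3, nat_lit 5, [nat_lit 4, nat_lit 5, nat_lit 5, nat_lit 20], false, nat_lit 0, nat_lit 0, nat_lit 0, nat_lit 0, zbN0,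
 nat_lit 0, nat_lit 0, nat_lit 0, nat_lit 0, nat_lit 0, nat_lit 0, nat_lit 0, nat_lit 0, nat_lit 0, nat_lit 0, nat_lit 0, nat_lit 0, nat_lit 0, nat_lit 0, nat_lit 0, nat_lit 0, nat_lit 0, nat_lit 0, [],
 C1.Rw.none, ⟨t01_k1, nat_lit 0, nat_lit 0, nat_lit 287, nat_lit 0, nat_lit 0, [], [], [], nat_lit 0, nat_lit 0, nat_lit 0, nat_lit 0, nat_lit 0, nat_lit 0, [], [nat_lit 51, nat_lit 40, nat_lit 20, nat_lit 80, nat_lit 1, nat_lit 289, nat_lit 75, nat_lit 9]⟩,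
 zbF0, []⟩
noncomputable def t01_l30 : Lf2 := ⟨nat_lit 0, nat_lit 5, [nat_lit 4, nat_lit 5, nat_lit 5, nat_lit 20], true, nat_lit 0, nat_lit 0, nat_lit 0, nat_lit 0, ⟨nat_lit 0, nat_lit 0, nat_lit 1000, nat_lit 5, nat_lit 66, nat_lit 0, nat_lit 0, nat_lit 0, nat_lit 0, nat_lit 215, nat_lit 40017, nat_lit 264, nat_lit 65228636, nat_lit 0, nat_lit 0, nat_lit 610641, false, false⟩,
 nat_lit 0, nat_lit 10392, nat_lit 0, nat_lit 0, nat_lit 4970, nat_lit 0, nat_lit 304, nat_lit 0, nat_lit 0, nat_lit 0, nat_lit 0, nat_lit 0, nat_lit 0, nat_lit 0, nat_lit 115, nat_lit 1000000, nat_lit 0, nat_lit 0, [(nat_lit 3, [(nat_lit 6, nat_lit 1000)])],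
 ⟨t01_k0, nat_lit 0, nat_lit 0, nat_lit 302, nat_lit 0, nat_lit 87271, [nat_lit 3341142858, nat_lit 1499600000, nat_lit 23600000], [], [nat_lit 12459746918, nat_lit 12949650808, nat_lit 11736023418, nat_lit 12274572586], nat_lit 1271250, nat_lit 1271250, nat_lit 111251, nat_lit 230001, nat_lit 0, nat_lit 0, [nat_lit 1412500, nat_lit 1271250, nat_lit 1271250], [nat_lit 25, nat_lit 40, nat_lit 20, nat_lit 80, nat_lit 17, nat_lit 289, nat_lit 75, nat_lit 9]⟩, C1.Rw.none,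
 ⟨nat_lit 6519, nat_lit 6709, ⟨.ofNat (nat_lit 133737), .ofNat (nat_lit 176815), .ofNat (nat_lit 144456), .ofNat (nat_lit 187534), .ofNat (nat_lit 142551), .ofNat (nat_lit 184645), .ofNat (nat_lit 153250), .ofNat (nat_lit 195344)⟩, ⟨.ofNat (nat_lit 0), .ofNat (nat_lit 0), .ofNat (nat_lit 0), .ofNat (nat_lit 0), .ofNat (nat_lit 0), .ofNat (nat_lit 0), .ofNat (nat_lit 0), .ofNat (nat_lit 0)⟩⟩, []⟩
noncomputable def t01_l31 : Lf2 := ⟨nat_lit 1, nat_lit 5, [nat_lit 4, nat_lit 5, nat_lit 5, nat_lit 20], false, nat_lit 0, nat_lit 0, nat_lit 0, nat_lit 0, zbN0,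
 nat_lit 0, nat_lit 0, nat_lit 0, nat_lit 0, nat_lit 0, nat_lit 0, nat_lit 0, nat_lit 0, nat_lit 0, nat_lit 0, nat_lit 0, nat_lit 0, nat_lit 0, nat_lit 0, nat_lit 0, nat_lit 0, nat_lit 0, nat_lit 0, [],
 C1.Rw.none, C1.Rw.none,
 zbF0, []⟩
noncomputable def t01_l32 : Lf2 := ⟨nat_lit 0, nat_lit 5, [nat_lit 4, nat_lit 5, nat_lit 5, nat_lit 20], true, nat_lit 0, nat_lit 0, nat_lit 0, nat_lit 0, ⟨nat_lit 0, nat_lit 0, nat_lit 1000, nat_lit 5, nat_lit 91, nat_lit 0, nat_lit 0, nat_lit 0, nat_lit 0, nat_lit 215, nat_lit 79350, nat_lit 284, nat_lit 63670653, nat_lit 0, nat_lit 0, nat_lit 988023, false, false⟩,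
 nat_lit 0, nat_lit 10902, nat_lit 0, nat_lit 0, nat_lit 5214, nat_lit 0, nat_lit 329, nat_lit 0, nat_lit 0, nat_lit 0, nat_lit 0, nat_lit 0, nat_lit 0, nat_lit 0, nat_lit 115, nat_lit 1000000, nat_lit 0, nat_lit 0, [(nat_lit 3, [(nat_lit 6, nat_lit 1000)])],
 ⟨t01_k0, nat_lit 0, nat_lit 0, nat_lit 267, nat_lit 0, nat_lit 92080, [nat_lit 3341142858, nat_lit 1499600000, nat_lit 23600000], [], [nat_lit 11496450680, nat_lit 11991421220, nat_lit 10840247720, nat_lit 11443284694], nat_lit 1271250, nat_lit 1271250, nat_lit 230001, nat_lit 490000, nat_lit 0, nat_lit 0, [nat_lit 1412500, nat_lit 1271250, nat_lit 1271250], [nat_lit 25, nat_lit 40, nat_lit 20, nat_lit 80, nat_lit 17, nat_lit 317, nat_lit 100, nat_lit 10]⟩, C1.Rw.none,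
 ⟨nat_lit 6519, nat_lit 6709, ⟨.ofNat (nat_lit 176815), .ofNat (nat_lit 262970), .ofNat (nat_lit 187534), .ofNat (nat_lit 273690), .ofNat (nat_lit 184645), .ofNat (nat_lit 268833), .ofNat (nat_lit 195344), .ofNat (nat_lit 279532)⟩, ⟨.ofNat (nat_lit 0), .ofNat (nat_lit 0), .ofNat (nat_lit 0), .ofNat (nat_lit 0), .ofNat (nat_lit 0), .ofNat (nat_lit 0), .ofNat (nat_lit 0), .ofNat (nat_lit 0)⟩⟩, []⟩
noncomputable def t01_l33 : Lf2 := ⟨nat_lit 0, nat_lit 5, [nat_lit 4, nat_lit 5, nat_lit 5, nat_lit 20], false, nat_lit 0, nat_lit 0, nat_lit 0, nat_lit 0, ⟨nat_lit 1000, nat_lit 0, nat_lit 0, nat_lit 0, nat_lit 0, nat_lit 0, nat_lit 0, nat_lit 0, nat_lit 0, nat_lit 0, nat_lit 0, nat_lit 0, nat_lit 0, nat_lit 0, nat_lit 0, nat_lit 0, false, false⟩,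
 nat_lit 0, nat_lit 20946, nat_lit 0, nat_lit 0, nat_lit 10549, nat_lit 9986, nat_lit 3175, nat_lit 0, nat_lit 0, nat_lit 700, nat_lit 0, nat_lit 0, nat_lit 0, nat_lit 0, nat_lit 0, nat_lit 0, nat_lit 0, nat_lit 0, [],
 ⟨t01_k11, nat_lit 0, nat_lit 0, nat_lit 323, nat_lit 0, nat_lit 181058, [nat_lit 6250000000, nat_lit 7968000001, nat_lit 9842000000], [], [nat_lit 19150338572, nat_lit 19670908164, nat_lit 17257100759, nat_lit 17825818132], nat_lit 1271250, nat_lit 1271250, nat_lit 230001, nat_lit 490000, nat_lit 0, nat_lit 0, [nat_lit 1412500, nat_lit 1271250, nat_lit 1271250], [nat_lit 25, nat_lit 40, nat_lit 20, nat_lit 80, nat_lit 17, nat_lit 317, nat_lit 100, nat_lit 10]⟩, ⟨t01_k0, nat_lit 0, nat_lit 0, nat_lit 192, nat_lit 0, nat_lit 0, [nat_lit 6250000000, nat_lit 7968000000, nat_lit 9842000000], [], [nat_lit 25345021528, nat_lit 26689140448, nat_lit 23283851628, nat_lit 24578461496],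 nat_lit 0, nat_lit 0, nat_lit 0, nat_lit 0, nat_lit 0, nat_lit 0, [], [nat_lit 25, nat_lit 40, nat_lit 20, nat_lit 80, nat_lit 17, nat_lit 317, nat_lit 100, nat_lit 10]⟩,
 zbF0, []⟩
noncomputable def t01_l34 : Lf2 := ⟨nat_lit 0, nat_lit 5, [nat_lit 4, nat_lit 5, nat_lit 5, nat_lit 20], false, nat_lit 0, nat_lit 0, nat_lit 0, nat_lit 0, ⟨nat_lit 1000, nat_lit 0, nat_lit 0, nat_lit 0, nat_lit 0, nat_lit 0, nat_lit 0, nat_lit 0, nat_lit 0, nat_lit 0, nat_lit 0, nat_lit 0, nat_lit 0, nat_lit 0, nat_lit 0, nat_lit 0, false, false⟩,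
 nat_lit 0, nat_lit 21271, nat_lit 0, nat_lit 0, nat_lit 10173, nat_lit 13950, nat_lit 2420, nat_lit 0, nat_lit 0, nat_lit 5120, nat_lit 0, nat_lit 0, nat_lit 0, nat_lit 0, nat_lit 0, nat_lit 0, nat_lit 0, nat_lit 0, [],
 ⟨t01_k0, nat_lit 0, nat_lit 0, nat_lit 596, nat_lit 0, nat_lit 745561, [nat_lit 6250000000, nat_lit 7968000001, nat_lit 9842000000], [], [nat_lit 30288612094, nat_lit 25219728600, nat_lit 37559936562, nat_lit 32632562628], nat_lit 1271250, nat_lit 1271250, nat_lit 490000, nat_lit 1100001, nat_lit 0, nat_lit 0, [nat_lit 1412500, nat_lit 1271250, nat_lit 1271250], [nat_lit 25, nat_lit 40, nat_lit 20, nat_lit 80, nat_lit 17, nat_lit 317, nat_lit 100, nat_lit 9]⟩, ⟨t01_k0, nat_lit 0, nat_lit 0, nat_lit 142, nat_lit 0, nat_lit 0, [nat_lit 6250000000, nat_lit 7968000000, nat_lit 9842000000], [], [nat_lit 11385661100, nat_lit 12444971650, nat_lit 10857173600, nat_lit 11954651700],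 nat_lit 0, nat_lit 0, nat_lit 0, nat_lit 0, nat_lit 0, nat_lit 0, [], [nat_lit 25, nat_lit 40, nat_lit 20, nat_lit 80, nat_lit 17, nat_lit 317, nat_lit 100, nat_lit 9]⟩,
 zbF0, []⟩
noncomputable def t01_l35 : Lf2 := ⟨nat_lit 1, nat_lit 5, [nat_lit 4, nat_lit 5, nat_lit 5, nat_lit 20], false, nat_lit 0, nat_lit 0, nat_lit 0, nat_lit 0, zbN0,
 nat_lit 0, nat_lit 0, nat_lit 0, nat_lit 0, nat_lit 0, nat_lit 0, nat_lit 0, nat_lit 0, nat_lit 0, nat_lit 0, nat_lit 0, nat_lit 0, nat_lit 0, nat_lit 0, nat_lit 0, nat_lit 0, nat_lit 0, nat_lit 0, [],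
 C1.Rw.none, C1.Rw.none,
 zbF0, []⟩
noncomputable def t01_l36 : Lf2 := ⟨nat_lit 0, nat_lit 5, [nat_lit 4, nat_lit 5, nat_lit 5, nat_lit 20], false, nat_lit 0, nat_lit 0, nat_lit 0, nat_lit 0, ⟨nat_lit 1000, nat_lit 0, nat_lit 0, nat_lit 0, nat_lit 0, nat_lit 0, nat_lit 0, nat_lit 0, nat_lit 0, nat_lit 0, nat_lit 0, nat_lit 0, nat_lit 0, nat_lit 0, nat_lit 0, nat_lit 0, false, false⟩,
 nat_lit 0, nat_lit 17938, nat_lit 0, nat_lit 0, nat_lit 9034, nat_lit 11779, nat_lit 2278, nat_lit 0, nat_lit 0, nat_lit 4488, nat_lit 0, nat_lit 0, nat_lit 0, nat_lit 23842873109925, nat_lit 0, nat_lit 0, nat_lit 0, nat_lit 0, [],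
 ⟨t01_k11, nat_lit 0, nat_lit 0, nat_lit 623, nat_lit 0, nat_lit 812002, [nat_lit 6250000000, nat_lit 7968000001, nat_lit 9842000000], [], [nat_lit 29217541590, nat_lit 26967464287, nat_lit 36010849510, nat_lit 33823004424], nat_lit 1271250, nat_lit 1271250, nat_lit 490000, nat_lit 1100001, nat_lit 0, nat_lit 0, [nat_lit 1412500, nat_lit 1271250, nat_lit 1271250], [nat_lit 25, nat_lit 40, nat_lit 20, nat_lit 80, nat_lit 17, nat_lit 317, nat_lit 100, nat_lit 9]⟩, ⟨t01_k11, nat_lit 0, nat_lit 0, nat_lit 149, nat_lit 0, nat_lit 0, [nat_lit 6250000000, nat_lit 7968000000, nat_lit 9842000000], [], [nat_lit 12331262106, nat_lit 13169178184, nat_lit 12058965110, nat_lit 12813022804], nat_lit 0, nat_lit 0, nat_lit 0, nat_lit 0, nat_lit 0, nat_lit 0, [], [nat_lit 25, nat_lit 40, nat_lit 20, nat_lit 80, nat_lit 17, nat_lit 317, nat_lit 100, nat_lit 9]⟩,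
 zbF0, []⟩
noncomputable def t01_l37 : Lf2 := ⟨nat_lit 0, nat_lit 5, [nat_lit 4, nat_lit 5, nat_lit 5, nat_lit 20], false, nat_lit 0, nat_lit 0, nat_lit 0, nat_lit 0, ⟨nat_lit 1000, nat_lit 0, nat_lit 0, nat_lit 0, nat_lit 0, nat_lit 0, nat_lit 0, nat_lit 0, nat_lit 0, nat_lit 0, nat_lit 0, nat_lit 0, nat_lit 0, nat_lit 0, nat_lit 0, nat_lit 0, false, false⟩,
 nat_lit 0, nat_lit 18258, nat_lit 0, nat_lit 0, nat_lit 8732, nat_lit 11481, nat_lit 3543, nat_lit 0, nat_lit 0, nat_lit 0, nat_lit 0, nat_lit 0, nat_lit 0, nat_lit 0, nat_lit 0, nat_lit 0, nat_lit 0, nat_lit 0, [],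
 ⟨t01_k1, nat_lit 0, nat_lit 0, nat_lit 609, nat_lit 0, nat_lit 874124, [nat_lit 6250000000, nat_lit 9842000000], [], [nat_lit 32024868952, nat_lit 27478566732, nat_lit 29722665696, nat_lit 28611375296], nat_lit 1271250, nat_lit 1271250, nat_lit 1100001, nat_lit 1785000, nat_lit 0, nat_lit 0, [nat_lit 1412500, nat_lit 1271250], [nat_lit 51, nat_lit 40, nat_lit 20, nat_lit 80, nat_lit 1, nat_lit 345, nat_lit 125, nat_lit 10]⟩, ⟨t01_k1, nat_lit 0, nat_lit 0, nat_lit 63, nat_lit 0, nat_lit 0, [nat_lit 6250000000, nat_lit 9842000000], [], [nat_lit 10538430676, nat_lit 12733228692, nat_lit 17951597180, nat_lit 20199757424], nat_lit 0, nat_lit 0, nat_lit 0, nat_lit 0, nat_lit 0, nat_lit 0, [], [nat_lit 51, nat_lit 40, nat_lit 20, nat_lit 80, nat_lit 1, nat_lit 345, nat_lit 125, nat_lit 10]⟩,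
 zbF0, []⟩
noncomputable def t01_l38 : Lf2 := ⟨nat_lit 0, nat_lit 5, [nat_lit 4, nat_lit 5, nat_lit 5, nat_lit 20], false, nat_lit 0, nat_lit 0, nat_lit 0, nat_lit 0, ⟨nat_lit 1000, nat_lit 0, nat_lit 0, nat_lit 0, nat_lit 0, nat_lit 0, nat_lit 0, nat_lit 0, nat_lit 0, nat_lit 0, nat_lit 0, nat_lit 0, nat_lit 0, nat_lit 0, nat_lit 0, nat_lit 0, false, false⟩,
 nat_lit 0, nat_lit 16144, nat_lit 0, nat_lit 0, nat_lit 7721, nat_lit 7314, nat_lit 2987, nat_lit 0, nat_lit 0, nat_lit 3374, nat_lit 0, nat_lit 0, nat_lit 0, nat_lit 16548709167971, nat_lit 0, nat_lit 0, nat_lit 0, nat_lit 0, [],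
 ⟨t01_k1, nat_lit 0, nat_lit 0, nat_lit 592, nat_lit 0, nat_lit 874124, [nat_lit 6250000000, nat_lit 9842000000], [], [nat_lit 32898216710, nat_lit 33072279768, nat_lit 38030260880, nat_lit 38148073488], nat_lit 1271250, nat_lit 1271250, nat_lit 1271250, nat_lit 1271250, nat_lit 0, nat_lit 0, [nat_lit 1412500, nat_lit 1271250], [nat_lit 51, nat_lit 40, nat_lit 20, nat_lit 80, nat_lit 1, nat_lit 401, nat_lit 175, nat_lit 11]⟩, ⟨t01_k1, nat_lit 0, nat_lit 0, nat_lit 214, nat_lit 0, nat_lit 0, [nat_lit 6250000000, nat_lit 9842000000], [], [nat_lit 25374751512, nat_lit 26152340928, nat_lit 36451386328, nat_lit 37128038688], nat_lit 0, nat_lit 0, nat_lit 0, nat_lit 0, nat_lit 0, nat_lit 0, [], [nat_lit 51, nat_lit 40, nat_lit 20, nat_lit 80, nat_lit 1, nat_lit 401, nat_lit 175, nat_lit 11]⟩,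
 zbF0, []⟩
noncomputable def t01_l39 : Lf2 := ⟨nat_lit 0, nat_lit 2, [nat_lit 10, nat_lit 5, nat_lit 5, nat_lit 20], true, nat_lit 0, nat_lit 0, nat_lit 0, nat_lit 0, ⟨nat_lit 0, nat_lit 0, nat_lit 1000, nat_lit 5, nat_lit 63, nat_lit 0, nat_lit 0, nat_lit 0, nat_lit 0, nat_lit 215, nat_lit 36817, nat_lit 262, nat_lit 65380838, nat_lit 0, nat_lit 0, nat_lit 569159, false, false⟩,
 nat_lit 0, nat_lit 0, nat_lit 0, nat_lit 0, nat_lit 0, nat_lit 0, nat_lit 0, nat_lit 0, nat_lit 293, nat_lit 0, nat_lit 0, nat_lit 0, nat_lit 0, nat_lit 11695297900584, nat_lit 53, nat_lit 1000000, nat_lit 0, nat_lit 0, [(nat_lit 3, [(nat_lit 6, nat_lit 1000)])],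
 ⟨t01_k5, nat_lit 0, nat_lit 0, nat_lit 0, nat_lit 0, nat_lit 367979, [nat_lit 2101142858, nat_lit 11600000], [], [nat_lit 5462185258, nat_lit 6220374858, nat_lit 6000563716, nat_lit 6727326858], nat_lit 1271250, nat_lit 1271250, nat_lit 21650, nat_lit 230001, nat_lit 0, nat_lit 0, [nat_lit 1412500, nat_lit 1271250], [nat_lit 26, nat_lit 40, nat_lit 20, nat_lit 80]⟩, C1.Rw.none,
 ⟨nat_lit 6324, nat_lit 6709, ⟨.ofNat (nat_lit 99275), .ofNat (nat_lit 176815), .ofNat (nat_lit 120713), .ofNat (nat_lit 198253), .ofNat (nat_lit 118272), .ofNat (nat_lit 192309), .ofNat (nat_lit 139640), .ofNat (nat_lit 213677)⟩, ⟨.ofNat (nat_lit 0), .ofNat (nat_lit 0), .ofNat (nat_lit 0), .ofNat (nat_lit 0), .ofNat (nat_lit 0), .ofNat (nat_lit 0), .ofNat (nat_lit 0), .ofNat (nat_lit 0)⟩⟩, []⟩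
noncomputable def t01_l40 : Lf2 := ⟨nat_lit 0, nat_lit 2, [nat_lit 10, nat_lit 5, nat_lit 5, nat_lit 20], false, nat_lit 0, nat_lit 0, nat_lit 0, nat_lit 0, ⟨nat_lit 640, nat_lit 0, nat_lit 360, nat_lit 5, nat_lit 63, nat_lit 0, nat_lit 0, nat_lit 0, nat_lit 0, nat_lit 215, nat_lit 36817, nat_lit 262, nat_lit 65380838, nat_lit 0, nat_lit 0, nat_lit 569159, false, false⟩,
 nat_lit 100000, nat_lit 100000, nat_lit 0, nat_lit 0, nat_lit 95652, nat_lit 6807, nat_lit 41423, nat_lit 3669, nat_lit 0, nat_lit 2777, nat_lit 0, nat_lit 0, nat_lit 0, nat_lit 234630268361413, nat_lit 0, nat_lit 360000, nat_lit 0, nat_lit 0, [(nat_lit 3, [(nat_lit 6, nat_lit 360)])],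
 ⟨t01_k5, nat_lit 0, nat_lit 0, nat_lit 385, nat_lit 0, nat_lit 367979, [nat_lit 77754811429, nat_lit 92701776000], [], [nat_lit 158878461743, nat_lit 109880587278, nat_lit 151773132351, nat_lit 103414924623], nat_lit 1271250, nat_lit 1271250, nat_lit 21650, nat_lit 230001, nat_lit 0, nat_lit 0, [nat_lit 1412500, nat_lit 1271250], [nat_lit 26, nat_lit 40, nat_lit 20, nat_lit 80, nat_lit 2, nat_lit 289, nat_lit 75, nat_lit 10]⟩, ⟨t01_k5, nat_lit 0, nat_lit 0, nat_lit 0, nat_lit 0, nat_lit 367979, [nat_lit 4000000000, nat_lit 5099520000], [], [nat_lit 18197779976, nat_lit 15482510658, nat_lit 18166204764, nat_lit 14724830616], nat_lit 1271250, nat_lit 1271250, nat_lit 21650, nat_lit 230001, nat_lit 0, nat_lit 0, [nat_lit 1412500, nat_lit 1271250], [nat_lit 26, nat_lit 40, nat_lit 20, nat_lit 80]⟩,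
 ⟨nat_lit 6324, nat_lit 6709, ⟨.ofNat (nat_lit 99275), .ofNat (nat_lit 176815), .ofNat (nat_lit 120713), .ofNat (nat_lit 198253), .ofNat (nat_lit 118272), .ofNat (nat_lit 192309), .ofNat (nat_lit 139640), .ofNat (nat_lit 213677)⟩, ⟨.ofNat (nat_lit 0), .ofNat (nat_lit 0), .ofNat (nat_lit 0), .ofNat (nat_lit 0), .ofNat (nat_lit 0), .ofNat (nat_lit 0), .ofNat (nat_lit 0), .ofNat (nat_lit 0)⟩⟩, [⟨nat_lit 0, nat_lit 100, nat_lit 100, nat_lit 40, nat_lit 1550601555⟩]⟩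
noncomputable def t01_l41 : Lf2 := ⟨nat_lit 0, nat_lit 2, [nat_lit 10, nat_lit 5, nat_lit 5, nat_lit 20], false, nat_lit 0, nat_lit 0, nat_lit 0, nat_lit 0, ⟨nat_lit 0, nat_lit 0, nat_lit 1000, nat_lit 5, nat_lit 63, nat_lit 0, nat_lit 0, nat_lit 0, nat_lit 0, nat_lit 215, nat_lit 36817, nat_lit 262, nat_lit 65380838, nat_lit 0, nat_lit 0, nat_lit 569159, false, false⟩,
 nat_lit 100000, nat_lit 0, nat_lit 100000, nat_lit 100000, nat_lit 1491, nat_lit 95652, nat_lit 0, nat_lit 0, nat_lit 0, nat_lit 60000, nat_lit 3977, nat_lit 0, nat_lit 0, nat_lit 0, nat_lit 53, nat_lit 1000000, nat_lit 0, nat_lit 0, [(nat_lit 3, [(nat_lit 6, nat_lit 1000)])],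
 ⟨t01_k5, nat_lit 0, nat_lit 0, nat_lit 385, nat_lit 0, nat_lit 367979, [nat_lit 2101142858, nat_lit 11600000], [], [nat_lit 24317458269, nat_lit 24904934845, nat_lit 24338732406, nat_lit 24917026496], nat_lit 1271250, nat_lit 1271250, nat_lit 21650, nat_lit 230001, nat_lit 0, nat_lit 0, [nat_lit 1412500, nat_lit 1271250], [nat_lit 26, nat_lit 40, nat_lit 20, nat_lit 80, nat_lit 2, nat_lit 289, nat_lit 75, nat_lit 10]⟩, ⟨t01_k5, nat_lit 0, nat_lit 0, nat_lit 385, nat_lit 0, nat_lit 367979, [nat_lit 79540000000, nat_lit 95448000000], [], [nat_lit 124748972256, nat_lit 92777329517, nat_lit 56562684328, nat_lit 60674763808], nat_lit 1271250, nat_lit 1271250, nat_lit 21650, nat_lit 230001, nat_lit 0, nat_lit 0, [nat_lit 1412500, nat_lit 1271250], [nat_lit 26, nat_lit 40, nat_lit 20, nat_lit 80, nat_lit 2, nat_lit 289, nat_lit 75, nat_lit 10]⟩,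
 ⟨nat_lit 6324, nat_lit 6709, ⟨.ofNat (nat_lit 99275), .ofNat (nat_lit 176815), .ofNat (nat_lit 120713), .ofNat (nat_lit 198253), .ofNat (nat_lit 118272), .ofNat (nat_lit 192309), .ofNat (nat_lit 139640), .ofNat (nat_lit 213677)⟩, ⟨.ofNat (nat_lit 0), .ofNat (nat_lit 0), .ofNat (nat_lit 0), .ofNat (nat_lit 0), .ofNat (nat_lit 0), .ofNat (nat_lit 0), .ofNat (nat_lit 0), .ofNat (nat_lit 0)⟩⟩, []⟩
noncomputable def t01_l42 : Lf2 := ⟨nat_lit 0, nat_lit 5, [nat_lit 4, nat_lit 5, nat_lit 5, nat_lit 20], false, nat_lit 0, nat_lit 0, nat_lit 0, nat_lit 0, ⟨nat_lit 1000, nat_lit 0, nat_lit 0, nat_lit 0, nat_lit 0, nat_lit 0, nat_lit 0, nat_lit 0, nat_lit 0, nat_lit 0, nat_lit 0, nat_lit 0, nat_lit 0, nat_lit 0, nat_lit 0, nat_lit 0, false, false⟩,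
 nat_lit 41413, nat_lit 0, nat_lit 0, nat_lit 0, nat_lit 19805, nat_lit 19805, nat_lit 3787, nat_lit 0, nat_lit 0, nat_lit 3787, nat_lit 0, nat_lit 0, nat_lit 0, nat_lit 0, nat_lit 0, nat_lit 0, nat_lit 0, nat_lit 0, [],
 ⟨t01_k0, nat_lit 0, nat_lit 0, nat_lit 388, nat_lit 0, nat_lit 390309, [nat_lit 6250000000, nat_lit 7968000001, nat_lit 9842000000], [], [nat_lit 20312537790, nat_lit 17097362070, nat_lit 24849131850, nat_lit 15120480140], nat_lit 1271250, nat_lit 1271250, nat_lit 490000, nat_lit 780000, nat_lit 0, nat_lit 0, [nat_lit 1412500, nat_lit 1271250, nat_lit 1271250], [nat_lit 25, nat_lit 40, nat_lit 20, nat_lit 80, nat_lit 17, nat_lit 317, nat_lit 100, nat_lit 9]⟩, ⟨t01_k0, nat_lit 0, nat_lit 0, nat_lit 388, nat_lit 0, nat_lit 390309, [nat_lit 6250000000, nat_lit 7968000000, nat_lit 9842000000], [], [nat_lit 20312537790, nat_lit 17097362070, nat_lit 24849131850, nat_lit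 15120480140], nat_lit 1271250, nat_lit 1271250, nat_lit 490000, nat_lit 780000, nat_lit 0, nat_lit 0, [nat_lit 1412500, nat_lit 1271250, nat_lit 1271250], [nat_lit 25, nat_lit 40, nat_lit 20, nat_lit 80, nat_lit 17, nat_lit 317, nat_lit 100, nat_lit 9]⟩,
 zbF0, []⟩
noncomputable def t01_l43 : Lf2 := ⟨nat_lit 0, nat_lit 5, [nat_lit 4, nat_lit 5, nat_lit 5, nat_lit 20], true, nat_lit 0, nat_lit 0, nat_lit 0, nat_lit 0, ⟨nat_lit 0, nat_lit 0, nat_lit 1000, nat_lit 5, nat_lit 52, nat_lit 0, nat_lit 0, nat_lit 0, nat_lit 0, nat_lit 215, nat_lit 25350, nat_lit 254, nat_lit 65907042, nat_lit 0, nat_lit 0, nat_lit 416517, false, false⟩,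
 nat_lit 0, nat_lit 2480, nat_lit 0, nat_lit 0, nat_lit 1217, nat_lit 0, nat_lit 0, nat_lit 0, nat_lit 250, nat_lit 0, nat_lit 0, nat_lit 0, nat_lit 0, nat_lit 13630971342716, nat_lit 60, nat_lit 400000, nat_lit 0, nat_lit 0, [(nat_lit 3, [(nat_lit 5, nat_lit 1000)])],
 ⟨t01_k9, nat_lit 0, nat_lit 0, nat_lit 0, nat_lit 0, nat_lit 86351, [nat_lit 2770400000, nat_lit 702400001, nat_lit 2000000], [], [nat_lit 7497888951, nat_lit 7704321334, nat_lit 7400776065, nat_lit 7601661147], nat_lit 1271250, nat_lit 1271250, nat_lit 21650, nat_lit 111251, nat_lit 0, nat_lit 0, [nat_lit 1412500, nat_lit 1271250, nat_lit 1271250], [nat_lit 25, nat_lit 40, nat_lit 20, nat_lit 80]⟩, C1.Rw.none,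
 ⟨nat_lit 6519, nat_lit 6615, ⟨.ofNat (nat_lit 104102), .ofNat (nat_lit 138168), .ofNat (nat_lit 114811), .ofNat (nat_lit 148877), .ofNat (nat_lit 108876), .ofNat (nat_lit 142551), .ofNat (nat_lit 119575), .ofNat (nat_lit 153250)⟩, ⟨.ofNat (nat_lit 0), .ofNat (nat_lit 0), .ofNat (nat_lit 0), .ofNat (nat_lit 0), .ofNat (nat_lit 0), .ofNat (nat_lit 0), .ofNat (nat_lit 0), .ofNat (nat_lit 0)⟩⟩, [⟨nat_lit 0, nat_lit 100, nat_lit 100, nat_lit 30, nat_lit 137359756⟩]⟩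
noncomputable def t01_l44 : Lf2 := ⟨nat_lit 0, nat_lit 5, [nat_lit 4, nat_lit 5, nat_lit 5, nat_lit 20], true, nat_lit 0, nat_lit 0, nat_lit 0, nat_lit 0, ⟨nat_lit 0, nat_lit 0, nat_lit 1000, nat_lit 5, nat_lit 49, nat_lit 0, nat_lit 0, nat_lit 0, nat_lit 0, nat_lit 215, nat_lit 22817, nat_lit 252, nat_lit 66019517, nat_lit 0, nat_lit 0, nat_lit 381634, false, false⟩,
 nat_lit 0, nat_lit 8839, nat_lit 0, nat_lit 0, nat_lit 4339, nat_lit 0, nat_lit 2, nat_lit 0, nat_lit 0, nat_lit 0, nat_lit 0, nat_lit 0, nat_lit 0, nat_lit 0, nat_lit 115, nat_lit 1000000, nat_lit 0, nat_lit 0, [(nat_lit 3, [(nat_lit 6, nat_lit 1000)])],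
 ⟨t01_k10, nat_lit 0, nat_lit 0, nat_lit 0, nat_lit 0, nat_lit 61661, [nat_lit 3007028572, nat_lit 2237600001, nat_lit 23600000], [], [nat_lit 14170631643, nat_lit 14422532783, nat_lit 13655521116, nat_lit 13872556259], nat_lit 1271250, nat_lit 1271250, nat_lit 21650, nat_lit 88400, nat_lit 0, nat_lit 0, [nat_lit 1271250, nat_lit 1271250, nat_lit 1271250], [nat_lit 103, nat_lit 40, nat_lit 20, nat_lit 40]⟩, C1.Rw.none,
 ⟨nat_lit 6519, nat_lit 6615, ⟨.ofNat (nat_lit 104102), .ofNat (nat_lit 129652), .ofNat (nat_lit 109456), .ofNat (nat_lit 135006), .ofNat (nat_lit 108876), .ofNat (nat_lit 134132), .ofNat (nat_lit 114225), .ofNat (nat_lit 139482)⟩, ⟨.ofNat (nat_lit 0), .ofNat (nat_lit 0), .ofNat (nat_lit 0), .ofNat (nat_lit 0), .ofNat (nat_lit 0), .ofNat (nat_lit 0), .ofNat (nat_lit 0), .ofNat (nat_lit 0)⟩⟩, [⟨nat_lit 0, nat_lit 100, nat_lit 100, nat_lit 27, nat_lit 322602141⟩]⟩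
noncomputable def t01_l45 : Lf2 := ⟨nat_lit 0, nat_lit 5, [nat_lit 4, nat_lit 5, nat_lit 5, nat_lit 20], true, nat_lit 0, nat_lit 0, nat_lit 0, nat_lit 0, ⟨nat_lit 0, nat_lit 0, nat_lit 1000, nat_lit 5, nat_lit 48, nat_lit 0, nat_lit 0, nat_lit 0, nat_lit 0, nat_lit 215, nat_lit 21600, nat_lit 251, nat_lit 66046253, nat_lit 0, nat_lit 0, nat_lit 373202, false, false⟩,
 nat_lit 0, nat_lit 5299, nat_lit 0, nat_lit 0, nat_lit 2641, nat_lit 0, nat_lit 0, nat_lit 0, nat_lit 100, nat_lit 0, nat_lit 0, nat_lit 0, nat_lit 0, nat_lit 11883689716682, nat_lit 101, nat_lit 844600, nat_lit 0, nat_lit 0, [(nat_lit 3, [(nat_lit 5, nat_lit 259), (nat_lit 6, nat_lit 741)])],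
 ⟨t01_k12, nat_lit 0, nat_lit 0, nat_lit 0, nat_lit 0, nat_lit 81911, [nat_lit 2878398412, nat_lit 1947730001, nat_lit 24865600], [], [nat_lit 10376648627, nat_lit 10473085564, nat_lit 10229914094, nat_lit 10324471848], nat_lit 1271250, nat_lit 1271250, nat_lit 21650, nat_lit 43600, nat_lit 0, nat_lit 0, [nat_lit 1271250, nat_lit 1271250, nat_lit 1271250], [nat_lit 103, nat_lit 40, nat_lit 20, nat_lit 40]⟩, C1.Rw.none,
 ⟨nat_lit 6519, nat_lit 6558, ⟨.ofNat (nat_lit 112324), .ofNat (nat_lit 120782), .ofNat (nat_lit 117675), .ofNat (nat_lit 126133), .ofNat (nat_lit 114225), .ofNat (nat_lit 122644), .ofNat (nat_lit 119575), .ofNat (nat_lit 127994)⟩, ⟨.ofNat (nat_lit 0), .ofNat (nat_lit 0), .ofNat (nat_lit 0), .ofNat (nat_lit 0), .ofNat (nat_lit 0), .ofNat (nat_lit 0), .ofNat (nat_lit 0), .ofNat (nat_lit 0)⟩⟩, [⟨nat_lit 0, nat_lit 100, nat_lit 100, nat_lit 28, nat_lit 800366505⟩]⟩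
noncomputable def t01_l46 : Lf2 := ⟨nat_lit 0, nat_lit 5, [nat_lit 4, nat_lit 5, nat_lit 5, nat_lit 20], true, nat_lit 0, nat_lit 0, nat_lit 0, nat_lit 0, ⟨nat_lit 0, nat_lit 0, nat_lit 1000, nat_lit 5, nat_lit 48, nat_lit 0, nat_lit 0, nat_lit 0, nat_lit 0, nat_lit 215, nat_lit 21600, nat_lit 251, nat_lit 66046253, nat_lit 0, nat_lit 0, nat_lit 373202, false, false⟩,
 nat_lit 0, nat_lit 100000, nat_lit 0, nat_lit 0, nat_lit 49854, nat_lit 0, nat_lit 12000, nat_lit 2361, nat_lit 0, nat_lit 0, nat_lit 0, nat_lit 0, nat_lit 0, nat_lit 0, nat_lit 0, nat_lit 1000000, nat_lit 0, nat_lit 0, [(nat_lit 3, [(nat_lit 6, nat_lit 1000)])],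
 ⟨t01_k13, nat_lit 0, nat_lit 0, nat_lit 0, nat_lit 0, nat_lit 81911, [nat_lit 48261142858, nat_lit 55403600001, nat_lit 62911600000], [], [nat_lit 88660153300, nat_lit 89253852661, nat_lit 85255373841, nat_lit 85590697061], nat_lit 1271250, nat_lit 1271250, nat_lit 21650, nat_lit 43600, nat_lit 0, nat_lit 0, [nat_lit 1412500, nat_lit 1271250, nat_lit 1271250], [nat_lit 25, nat_lit 40, nat_lit 20, nat_lit 80]⟩, C1.Rw.none,
 ⟨nat_lit 6519, nat_lit 6558, ⟨.ofNat (nat_lit 112324), .ofNat (nat_lit 120782), .ofNat (nat_lit 117675), .ofNat (nat_lit 126133), .ofNat (nat_lit 114225), .ofNat (nat_lit 122644), .ofNat (nat_lit 119575), .ofNat (nat_lit 127994)⟩, ⟨.ofNat (nat_lit 0), .ofNat (nat_lit 0), .ofNat (nat_lit 0), .ofNat (nat_lit 0), .ofNat (nat_lit 0), .ofNat (nat_lit 0), .ofNat (nat_lit 0), .ofNat (nat_lit 0)⟩⟩, [⟨nat_lit 0, nat_lit 100, nat_lit 100, nat_lit 28, nat_lit 10000000000⟩,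 ⟨nat_lit 0, nat_lit 100, nat_lit 100, nat_lit 30, nat_lit 5781710691⟩]⟩
noncomputable def t01_l47 : Lf2 := ⟨nat_lit 0, nat_lit 5, [nat_lit 4, nat_lit 5, nat_lit 5, nat_lit 20], true, nat_lit 0, nat_lit 0, nat_lit 0, nat_lit 0, ⟨nat_lit 0, nat_lit 0, nat_lit 1000, nat_lit 5, nat_lit 57, nat_lit 0, nat_lit 0, nat_lit 0, nat_lit 0, nat_lit 215, nat_lit 29400, nat_lit 257, nat_lit 65685249, nat_lit 0, nat_lit 0, nat_lit 482788, false, false⟩,
 nat_lit 0, nat_lit 8495, nat_lit 0, nat_lit 0, nat_lit 4170, nat_lit 0, nat_lit 342, nat_lit 0, nat_lit 0, nat_lit 0, nat_lit 0, nat_lit 0, nat_lit 0, nat_lit 0, nat_lit 115, nat_lit 1000000, nat_lit 0, nat_lit 0, [(nat_lit 3, [(nat_lit 6, nat_lit 1000)])],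
 ⟨t01_k10, nat_lit 0, nat_lit 0, nat_lit 0, nat_lit 0, nat_lit 83286, [nat_lit 3007028572, nat_lit 2237600001, nat_lit 23600000], [], [nat_lit 12330188590, nat_lit 12569802580, nat_lit 12123201432, nat_lit 12365254653], nat_lit 1271250, nat_lit 1271250, nat_lit 88400, nat_lit 111251, nat_lit 0, nat_lit 0, [nat_lit 1271250, nat_lit 1271250, nat_lit 1271250], [nat_lit 103, nat_lit 40, nat_lit 20, nat_lit 40]⟩, C1.Rw.none,
 ⟨nat_lit 6519, nat_lit 6615, ⟨.ofNat (nat_lit 129652), .ofNat (nat_lit 138168), .ofNat (nat_lit 140360), .ofNat (nat_lit 148877), .ofNat (nat_lit 134132), .ofNat (nat_lit 142551), .ofNat (nat_lit 144831), .ofNat (nat_lit 153250)⟩, ⟨.ofNat (nat_lit 0), .ofNat (nat_lit 0), .ofNat (nat_lit 0), .ofNat (nat_lit 0), .ofNat (nat_lit 0), .ofNat (nat_lit 0), .ofNat (nat_lit 0), .ofNat (nat_lit 0)⟩⟩, []⟩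
noncomputable def t01_l48 : Lf2 := ⟨nat_lit 0, nat_lit 5, [nat_lit 4, nat_lit 5, nat_lit 5, nat_lit 20], true, nat_lit 0, nat_lit 0, nat_lit 0, nat_lit 0, ⟨nat_lit 0, nat_lit 0, nat_lit 1000, nat_lit 5, nat_lit 52, nat_lit 0, nat_lit 0, nat_lit 0, nat_lit 0, nat_lit 215, nat_lit 25350, nat_lit 254, nat_lit 65907042, nat_lit 0, nat_lit 0, nat_lit 416517, false, false⟩,
 nat_lit 0, nat_lit 8175, nat_lit 0, nat_lit 0, nat_lit 4013, nat_lit 0, nat_lit 315, nat_lit 0, nat_lit 0, nat_lit 0, nat_lit 0, nat_lit 0, nat_lit 0, nat_lit 20141274111060, nat_lit 115, nat_lit 1000000, nat_lit 0, nat_lit 0, [(nat_lit 3, [(nat_lit 6, nat_lit 1000)])],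
 ⟨t01_k10, nat_lit 0, nat_lit 0, nat_lit 0, nat_lit 0, nat_lit 39199, [nat_lit 3007028572, nat_lit 2237600001, nat_lit 23600000], [], [nat_lit 13068578886, nat_lit 13305046526, nat_lit 12278845376, nat_lit 12516113385], nat_lit 1271250, nat_lit 1271250, nat_lit 21650, nat_lit 111251, nat_lit 0, nat_lit 0, [nat_lit 1271250, nat_lit 1271250, nat_lit 1271250], [nat_lit 103, nat_lit 40, nat_lit 20, nat_lit 40]⟩, C1.Rw.none,
 ⟨nat_lit 6519, nat_lit 6615, ⟨.ofNat (nat_lit 104102), .ofNat (nat_lit 138168), .ofNat (nat_lit 114811), .ofNat (nat_lit 148877), .ofNat (nat_lit 108876), .ofNat (nat_lit 142551), .ofNat (nat_lit 119575), .ofNat (nat_lit 153250)⟩, ⟨.ofNat (nat_lit 0), .ofNat (nat_lit 0), .ofNat (nat_lit 0), .ofNat (nat_lit 0), .ofNat (nat_lit 0), .ofNat (nat_lit 0), .ofNat (nat_lit 0), .ofNat (nat_lit 0)⟩⟩, [⟨nat_lit 0, nat_lit 100, nat_lit 100, nat_lit 30, nat_lit 353595310⟩]⟩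
noncomputable def t01_l49 : Lf2 := ⟨nat_lit 1, nat_lit 5, [nat_lit 4, nat_lit 5, nat_lit 5, nat_lit 20], false, nat_lit 0, nat_lit 0, nat_lit 0, nat_lit 0, zbN0,
 nat_lit 0, nat_lit 0, nat_lit 0, nat_lit 0, nat_lit 0, nat_lit 0, nat_lit 0, nat_lit 0, nat_lit 0, nat_lit 0, nat_lit 0, nat_lit 0, nat_lit 0, nat_lit 0, nat_lit 0, nat_lit 0, nat_lit 0, nat_lit 0, [],
 C1.Rw.none, C1.Rw.none,
 zbF0, []⟩
noncomputable def t01_l50 : Lf2 := ⟨nat_lit 0, nat_lit 5, [nat_lit 4, nat_lit 5, nat_lit 5, nat_lit 20], true, nat_lit 0, nat_lit 0, nat_lit 0, nat_lit 0, ⟨nat_lit 0, nat_lit 0, nat_lit 1000, nat_lit 5, nat_lit 52, nat_lit 0, nat_lit 0, nat_lit 0, nat_lit 0, nat_lit 215, nat_lit 25350, nat_lit 254, nat_lit 65907042, nat_lit 0, nat_lit 0, nat_lit 416517, false, false⟩,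
 nat_lit 0, nat_lit 100000, nat_lit 0, nat_lit 100000, nat_lit 49090, nat_lit 0, nat_lit 12495, nat_lit 2105, nat_lit 0, nat_lit 0, nat_lit 0, nat_lit 0, nat_lit 0, nat_lit 377537319684011, nat_lit 0, nat_lit 400000, nat_lit 0, nat_lit 0, [(nat_lit 3, [(nat_lit 5, nat_lit 1000)])],
 ⟨t01_k9, nat_lit 0, nat_lit 0, nat_lit 327, nat_lit 0, nat_lit 86351, [nat_lit 43670400001, nat_lit 49782400001, nat_lit 57262000000], [], [nat_lit 74429887887, nat_lit 75308562743, nat_lit 64589654473, nat_lit 65481656743], nat_lit 1271250, nat_lit 1271250, nat_lit 21650, nat_lit 111251, nat_lit 0, nat_lit 0, [nat_lit 1412500, nat_lit 1271250, nat_lit 1271250], [nat_lit 25, nat_lit 40, nat_lit 20, nat_lit 80, nat_lit 17, nat_lit 289, nat_lit 75, nat_lit 9]⟩, C1.Rw.none,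
 ⟨nat_lit 6519, nat_lit 6615, ⟨.ofNat (nat_lit 104102), .ofNat (nat_lit 138168), .ofNat (nat_lit 114811), .ofNat (nat_lit 148877), .ofNat (nat_lit 108876), .ofNat (nat_lit 142551), .ofNat (nat_lit 119575), .ofNat (nat_lit 153250)⟩, ⟨.ofNat (nat_lit 0), .ofNat (nat_lit 0), .ofNat (nat_lit 0), .ofNat (nat_lit 0), .ofNat (nat_lit 0), .ofNat (nat_lit 0), .ofNat (nat_lit 0), .ofNat (nat_lit 0)⟩⟩, [⟨nat_lit 0, nat_lit 100, nat_lit 100, nat_lit 26, nat_lit 3177727356⟩]⟩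
noncomputable def t01_l51 : Lf2 := ⟨nat_lit 0, nat_lit 5, [nat_lit 4, nat_lit 5, nat_lit 5, nat_lit 20], true, nat_lit 0, nat_lit 0, nat_lit 0, nat_lit 0, ⟨nat_lit 0, nat_lit 0, nat_lit 1000, nat_lit 5, nat_lit 66, nat_lit 0, nat_lit 0, nat_lit 0, nat_lit 0, nat_lit 215, nat_lit 40017, nat_lit 264, nat_lit 65228636, nat_lit 0, nat_lit 0, nat_lit 610641, false, false⟩,
 nat_lit 0, nat_lit 10392, nat_lit 0, nat_lit 0, nat_lit 4970, nat_lit 0, nat_lit 304, nat_lit 0, nat_lit 0, nat_lit 0, nat_lit 0, nat_lit 0, nat_lit 0, nat_lit 0, nat_lit 115, nat_lit 1000000, nat_lit 0, nat_lit 0, [(nat_lit 3, [(nat_lit 6, nat_lit 1000)])],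
 ⟨t01_k0, nat_lit 0, nat_lit 0, nat_lit 302, nat_lit 0, nat_lit 88874, [nat_lit 3341142858, nat_lit 1499600000, nat_lit 23600000], [], [nat_lit 12459746918, nat_lit 12949650808, nat_lit 11736023418, nat_lit 12274572586], nat_lit 1271250, nat_lit 1271250, nat_lit 111251, nat_lit 230001, nat_lit 0, nat_lit 0, [nat_lit 1412500, nat_lit 1271250, nat_lit 1271250], [nat_lit 25, nat_lit 40, nat_lit 20, nat_lit 80, nat_lit 17, nat_lit 289, nat_lit 75, nat_lit 9]⟩, C1.Rw.none,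
 ⟨nat_lit 6519, nat_lit 6709, ⟨.ofNat (nat_lit 133737), .ofNat (nat_lit 176815), .ofNat (nat_lit 144456), .ofNat (nat_lit 187534), .ofNat (nat_lit 142551), .ofNat (nat_lit 184645), .ofNat (nat_lit 153250), .ofNat (nat_lit 195344)⟩, ⟨.ofNat (nat_lit 0), .ofNat (nat_lit 0), .ofNat (nat_lit 0), .ofNat (nat_lit 0), .ofNat (nat_lit 0), .ofNat (nat_lit 0), .ofNat (nat_lit 0), .ofNat (nat_lit 0)⟩⟩, []⟩
noncomputable def t01_l52 : Lf2 := ⟨nat_lit 3, nat_lit 5, [nat_lit 4, nat_lit 5, nat_lit 5, nat_lit 20], false, nat_lit 0, nat_lit 0, nat_lit 0, nat_lit 0, zbN0,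
 nat_lit 0, nat_lit 0, nat_lit 0, nat_lit 0, nat_lit 0, nat_lit 0, nat_lit 0, nat_lit 0, nat_lit 0, nat_lit 0, nat_lit 0, nat_lit 0, nat_lit 0, nat_lit 0, nat_lit 0, nat_lit 0, nat_lit 0, nat_lit 0, [],
 C1.Rw.none, ⟨t01_k1, nat_lit 0, nat_lit 0, nat_lit 355, nat_lit 0, nat_lit 185208, [], [], [], nat_lit 1271250, nat_lit 1271250, nat_lit 21650, nat_lit 230001, nat_lit 0, nat_lit 0, [nat_lit 1412500, nat_lit 1271250], [nat_lit 51, nat_lit 40, nat_lit 20, nat_lit 80, nat_lit 1, nat_lit 289, nat_lit 75, nat_lit 9]⟩,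
 zbF0, []⟩
noncomputable def t01_l53 : Lf2 := ⟨nat_lit 0, nat_lit 5, [nat_lit 4, nat_lit 5, nat_lit 5, nat_lit 20], true, nat_lit 0, nat_lit 0, nat_lit 0, nat_lit 0, ⟨nat_lit 0, nat_lit 0, nat_lit 1000, nat_lit 5, nat_lit 93, nat_lit 0, nat_lit 0, nat_lit 0, nat_lit 0, nat_lit 215, nat_lit 81667, nat_lit 285, nat_lit 63577478, nat_lit 0, nat_lit 0, nat_lit 1008441, false, false⟩,
 nat_lit 0, nat_lit 10970, nat_lit 0, nat_lit 0, nat_lit 5246, nat_lit 0, nat_lit 84, nat_lit 0, nat_lit 0, nat_lit 0, nat_lit 0, nat_lit 0, nat_lit 0, nat_lit 0, nat_lit 115, nat_lit 1000000, nat_lit 0, nat_lit 0, [(nat_lit 3, [(nat_lit 6, nat_lit 1000)])],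
 ⟨t01_k0, nat_lit 0, nat_lit 0, nat_lit 305, nat_lit 0, nat_lit 143073, [nat_lit 3341142858, nat_lit 1499600000, nat_lit 23600000], [], [nat_lit 12446259264, nat_lit 13219842692, nat_lit 11847522472, nat_lit 12673190940], nat_lit 1271250, nat_lit 1271250, nat_lit 230001, nat_lit 490000, nat_lit 0, nat_lit 0, [nat_lit 1412500, nat_lit 1271250, nat_lit 1271250], [nat_lit 25, nat_lit 40, nat_lit 20, nat_lit 80, nat_lit 17, nat_lit 317, nat_lit 100, nat_lit 10]⟩, C1.Rw.none,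
 ⟨nat_lit 6324, nat_lit 6709, ⟨.ofNat (nat_lit 176815), .ofNat (nat_lit 262970), .ofNat (nat_lit 187534), .ofNat (nat_lit 273690), .ofNat (nat_lit 192309), .ofNat (nat_lit 274574), .ofNat (nat_lit 202993), .ofNat (nat_lit 285258)⟩, ⟨.ofNat (nat_lit 0), .ofNat (nat_lit 0), .ofNat (nat_lit 0), .ofNat (nat_lit 0), .ofNat (nat_lit 0), .ofNat (nat_lit 0), .ofNat (nat_lit 0), .ofNat (nat_lit 0)⟩⟩, []⟩
noncomputable def t01_l54 : Lf2 := ⟨nat_lit 0, nat_lit 5, [nat_lit 4, nat_lit 5, nat_lit 5, nat_lit 20], false, nat_lit 0, nat_lit 0, nat_lit 0, nat_lit 0, ⟨nat_lit 511, nat_lit 0, nat_lit 489, nat_lit 5, nat_lit 98, nat_lit 0, nat_lit 0, nat_lit 0, nat_lit 0, nat_lit 215, nat_lit 91267, nat_lit 289, nat_lit 63173056, nat_lit 0, nat_lit 0, nat_lit 1094815, false, false⟩,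
 nat_lit 16168, nat_lit 0, nat_lit 0, nat_lit 0, nat_lit 8143, nat_lit 5371, nat_lit 1302, nat_lit 0, nat_lit 0, nat_lit 1526, nat_lit 0, nat_lit 0, nat_lit 0, nat_lit 0, nat_lit 0, nat_lit 195600, nat_lit 0, nat_lit 0, [(nat_lit 3, [(nat_lit 5, nat_lit 489)])],
 ⟨t01_k11, nat_lit 0, nat_lit 0, nat_lit 323, nat_lit 0, nat_lit 181058, [nat_lit 3961675601, nat_lit 3710961600, nat_lit 4208720000], [], [nat_lit 17885081965, nat_lit 18337440834, nat_lit 16537065713, nat_lit 16970251126], nat_lit 1271250, nat_lit 1271250, nat_lit 230001, nat_lit 490000, nat_lit 0, nat_lit 0, [nat_lit 1412500, nat_lit 1271250, nat_lit 1271250], [nat_lit 25, nat_lit 40, nat_lit 20, nat_lit 80, nat_lit 17, nat_lit 317, nat_lit 100, nat_lit 10]⟩, ⟨t01_k11, nat_lit 0, nat_lit 0, nat_lit 323, nat_lit 0, nat_lit 181058, [nat_lit 3193750000, nat_lit 4071648000, nat_lit 5029262000], [], [nat_lit 10050107143, nat_lit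 10315938710, nat_lit 9075233663, nat_lit 9328473480], nat_lit 1271250, nat_lit 1271250, nat_lit 230001, nat_lit 490000, nat_lit 0, nat_lit 0, [nat_lit 1412500, nat_lit 1271250, nat_lit 1271250], [nat_lit 25, nat_lit 40, nat_lit 20, nat_lit 80, nat_lit 17, nat_lit 317, nat_lit 100, nat_lit 10]⟩,
 ⟨nat_lit 6324, nat_lit 6520, ⟨.ofNat (nat_lit 195344), .ofNat (nat_lit 279532), .ofNat (nat_lit 206043), .ofNat (nat_lit 290231), .ofNat (nat_lit 202993), .ofNat (nat_lit 285258), .ofNat (nat_lit 213677), .ofNat (nat_lit 295942)⟩, ⟨.ofNat (nat_lit 0), .ofNat (nat_lit 0), .ofNat (nat_lit 0), .ofNat (nat_lit 0), .ofNat (nat_lit 0), .ofNat (nat_lit 0), .ofNat (nat_lit 0), .ofNat (nat_lit 0)⟩⟩, []⟩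
noncomputable def t01_l55 : Lf2 := ⟨nat_lit 0, nat_lit 5, [nat_lit 4, nat_lit 5, nat_lit 5, nat_lit 20], false, nat_lit 0, nat_lit 0, nat_lit 0, nat_lit 0, ⟨nat_lit 1000, nat_lit 0, nat_lit 0, nat_lit 0, nat_lit 0, nat_lit 0, nat_lit 0, nat_lit 0, nat_lit 0, nat_lit 0, nat_lit 0, nat_lit 0, nat_lit 0, nat_lit 0, nat_lit 0, nat_lit 0, false, false⟩,
 nat_lit 28720, nat_lit 0, nat_lit 0, nat_lit 0, nat_lit 13735, nat_lit 13735, nat_lit 2735, nat_lit 0, nat_lit 0, nat_lit 2735, nat_lit 0, nat_lit 0, nat_lit 0, nat_lit 0, nat_lit 0, nat_lit 0, nat_lit 0, nat_lit 0, [],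
 ⟨t01_k0, nat_lit 0, nat_lit 0, nat_lit 293, nat_lit 0, nat_lit 191889, [nat_lit 6250000000, nat_lit 7968000001, nat_lit 9842000000], [], [nat_lit 18173526990, nat_lit 19287656390, nat_lit 16472531980, nat_lit 17692699170], nat_lit 1271250, nat_lit 1271250, nat_lit 490000, nat_lit 780000, nat_lit 0, nat_lit 0, [nat_lit 1412500, nat_lit 1271250, nat_lit 1271250], [nat_lit 25, nat_lit 40, nat_lit 20, nat_lit 80, nat_lit 17, nat_lit 317, nat_lit 100, nat_lit 9]⟩, ⟨t01_k0, nat_lit 0, nat_lit 0, nat_lit 293, nat_lit 0, nat_lit 191889, [nat_lit 6250000000, nat_lit 7968000000, nat_lit 9842000000], [], [nat_lit 18173526990, nat_lit 19287656390, nat_lit 16472531980, nat_lit 17692699170], nat_lit 1271250, nat_lit 1271250, nat_lit 490000, nat_lit 780000, nat_lit 0, nat_lit 0, [nat_lit 1412500, nat_lit 1271250, nat_lit 1271250], [nat_lit 25, nat_lit 40, nat_lit 20, nat_lit 80, nat_lit 17, nat_lit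 317, nat_lit 100, nat_lit 9]⟩,
 zbF0, []⟩
noncomputable def t01_l56 : Lf2 := ⟨nat_lit 0, nat_lit 5, [nat_lit 4, nat_lit 5, nat_lit 5, nat_lit 20], false, nat_lit 0, nat_lit 0, nat_lit 0, nat_lit 0, ⟨nat_lit 1000, nat_lit 0, nat_lit 0, nat_lit 0, nat_lit 0, nat_lit 0, nat_lit 0, nat_lit 0, nat_lit 0, nat_lit 0, nat_lit 0, nat_lit 0, nat_lit 0, nat_lit 0, nat_lit 0, nat_lit 0, false, false⟩,
 nat_lit 76069, nat_lit 0, nat_lit 0, nat_lit 0, nat_lit 36380, nat_lit 36380, nat_lit 1907, nat_lit 0, nat_lit 0, nat_lit 13345, nat_lit 0, nat_lit 0, nat_lit 0, nat_lit 31286454044599, nat_lit 0, nat_lit 0, nat_lit 0, nat_lit 0, [],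
 ⟨t01_k0, nat_lit 0, nat_lit 0, nat_lit 321, nat_lit 0, nat_lit 300032, [nat_lit 6250000000, nat_lit 7968000001, nat_lit 9842000000], [], [nat_lit 12743077490, nat_lit 14832573550, nat_lit 22862893720, nat_lit 15807387500], nat_lit 1271250, nat_lit 1271250, nat_lit 780000, nat_lit 1100001, nat_lit 0, nat_lit 0, [nat_lit 1412500, nat_lit 1271250, nat_lit 1271250], [nat_lit 25, nat_lit 40, nat_lit 20, nat_lit 80, nat_lit 17, nat_lit 317, nat_lit 100, nat_lit 9]⟩, ⟨t01_k0, nat_lit 0, nat_lit 0, nat_lit 321, nat_lit 0, nat_lit 300032, [nat_lit 6250000000, nat_lit 7968000000, nat_lit 9842000000], [], [nat_lit 10965750800, nat_lit 14831823800, nat_lit 22862893720, nat_lit 15807387500], nat_lit 1271250, nat_lit 1271250, nat_lit 780000, nat_lit 1100001, nat_lit 0, nat_lit 0, [nat_lit 1412500, nat_lit 1271250, nat_lit 1271250], [nat_lit 25, nat_lit 40, nat_lit 20, nat_lit 80, nat_lit 17, nat_lit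 317, nat_lit 100, nat_lit 9]⟩,
 zbF0, []⟩
noncomputable def t01_l57 : Lf2 := ⟨nat_lit 0, nat_lit 5, [nat_lit 4, nat_lit 5, nat_lit 5, nat_lit 20], false, nat_lit 0, nat_lit 0, nat_lit 0, nat_lit 0, ⟨nat_lit 1000, nat_lit 0, nat_lit 0, nat_lit 0, nat_lit 0, nat_lit 0, nat_lit 0, nat_lit 0, nat_lit 0, nat_lit 0, nat_lit 0, nat_lit 0, nat_lit 0, nat_lit 0, nat_lit 0, nat_lit 0, false, false⟩,
 nat_lit 54678, nat_lit 0, nat_lit 0, nat_lit 0, nat_lit 27538, nat_lit 26150, nat_lit 2285, nat_lit 0, nat_lit 0, nat_lit 2296, nat_lit 0, nat_lit 0, nat_lit 0, nat_lit 0, nat_lit 0, nat_lit 0, nat_lit 0, nat_lit 0, [],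
 ⟨t01_k11, nat_lit 0, nat_lit 0, nat_lit 356, nat_lit 0, nat_lit 369344, [nat_lit 6250000000, nat_lit 7968000001, nat_lit 9842000000], [], [nat_lit 14543774980, nat_lit 16204806480, nat_lit 21152415070, nat_lit 17043936088], nat_lit 1271250, nat_lit 1271250, nat_lit 780000, nat_lit 1100001, nat_lit 0, nat_lit 0, [nat_lit 1412500, nat_lit 1271250, nat_lit 1271250], [nat_lit 25, nat_lit 40, nat_lit 20, nat_lit 80, nat_lit 17, nat_lit 317, nat_lit 100, nat_lit 9]⟩, ⟨t01_k0, nat_lit 0, nat_lit 0, nat_lit 366, nat_lit 0, nat_lit 390309, [nat_lit 6250000000, nat_lit 7968000000, nat_lit 9842000000], [], [nat_lit 19359247500, nat_lit 17233866800, nat_lit 28599939100, nat_lit 16678383400], nat_lit 1271250, nat_lit 1271250, nat_lit 780000, nat_lit 1100001, nat_lit 0, nat_lit 0, [nat_lit 1412500, nat_lit 1271250, nat_lit 1271250], [nat_lit 25, nat_lit 40, nat_lit 20, nat_lit 80, nat_lit 17, nat_lit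 317, nat_lit 100, nat_lit 9]⟩,
 zbF0, []⟩
noncomputable def t01_l58 : Lf2 := ⟨nat_lit 0, nat_lit 5, [nat_lit 4, nat_lit 5, nat_lit 5, nat_lit 20], false, nat_lit 0, nat_lit 0, nat_lit 0, nat_lit 0, ⟨nat_lit 1000, nat_lit 0, nat_lit 0, nat_lit 0, nat_lit 0, nat_lit 0, nat_lit 0, nat_lit 0, nat_lit 0, nat_lit 0, nat_lit 0, nat_lit 0, nat_lit 0, nat_lit 0, nat_lit 0, nat_lit 0, false, false⟩,
 nat_lit 37965, nat_lit 0, nat_lit 0, nat_lit 0, nat_lit 18157, nat_lit 18157, nat_lit 0, nat_lit 0, nat_lit 0, nat_lit 0, nat_lit 0, nat_lit 0, nat_lit 0, nat_lit 0, nat_lit 0, nat_lit 0, nat_lit 0, nat_lit 0, [],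
 ⟨t01_k0, nat_lit 0, nat_lit 0, nat_lit 234, nat_lit 0, nat_lit 191889, [nat_lit 6250000000, nat_lit 7968000001, nat_lit 9842000000], [], [nat_lit 26275030890, nat_lit 23798580304, nat_lit 33082461458, nat_lit 24287973252], nat_lit 1271250, nat_lit 1271250, nat_lit 780000, nat_lit 1100001, nat_lit 0, nat_lit 0, [nat_lit 1412500, nat_lit 1271250, nat_lit 1271250], [nat_lit 25, nat_lit 40, nat_lit 20, nat_lit 80, nat_lit 17, nat_lit 317, nat_lit 100, nat_lit 9]⟩, ⟨t01_k0, nat_lit 0, nat_lit 0, nat_lit 234, nat_lit 0, nat_lit 191889, [nat_lit 6250000000, nat_lit 7968000000, nat_lit 9842000000], [], [nat_lit 26275030890, nat_lit 23798580304, nat_lit 33082461458, nat_lit 24287973252], nat_lit 1271250, nat_lit 1271250, nat_lit 780000, nat_lit 1100001, nat_lit 0, nat_lit 0, [nat_lit 1412500, nat_lit 1271250, nat_lit 1271250], [nat_lit 25, nat_lit 40, nat_lit 20, nat_lit 80, nat_lit 17, nat_lit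 317, nat_lit 100, nat_lit 9]⟩,
 zbF0, []⟩
noncomputable def t01_l59 : Lf2 := ⟨nat_lit 0, nat_lit 5, [nat_lit 4, nat_lit 5, nat_lit 5, nat_lit 20], false, nat_lit 0, nat_lit 0, nat_lit 0, nat_lit 0, ⟨nat_lit 1000, nat_lit 0, nat_lit 0, nat_lit 0, nat_lit 0, nat_lit 0, nat_lit 0, nat_lit 0, nat_lit 0, nat_lit 0, nat_lit 0, nat_lit 0, nat_lit 0, nat_lit 0, nat_lit 0, nat_lit 0, false, false⟩,
 nat_lit 18634, nat_lit 0, nat_lit 0, nat_lit 0, nat_lit 8911, nat_lit 8911, nat_lit 1684, nat_lit 0, nat_lit 0, nat_lit 1684, nat_lit 0, nat_lit 0, nat_lit 0, nat_lit 0, nat_lit 0, nat_lit 0, nat_lit 0, nat_lit 0, [],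
 ⟨t01_k1, nat_lit 0, nat_lit 0, nat_lit 354, nat_lit 0, nat_lit 427525, [nat_lit 6250000000, nat_lit 9842000000], [], [nat_lit 32015128846, nat_lit 30280253472, nat_lit 31083978470, nat_lit 31506141504], nat_lit 1271250, nat_lit 1271250, nat_lit 1100001, nat_lit 1785000, nat_lit 0, nat_lit 0, [nat_lit 1412500, nat_lit 1271250], [nat_lit 51, nat_lit 40, nat_lit 20, nat_lit 80, nat_lit 1, nat_lit 345, nat_lit 125, nat_lit 10]⟩, ⟨t01_k1, nat_lit 0, nat_lit 0, nat_lit 354, nat_lit 0, nat_lit 427525, [nat_lit 6250000000, nat_lit 9842000000], [], [nat_lit 32015128846, nat_lit 30280253472, nat_lit 31083978470, nat_lit 31506141504], nat_lit 1271250, nat_lit 1271250, nat_lit 1100001, nat_lit 1785000, nat_lit 0, nat_lit 0, [nat_lit 1412500, nat_lit 1271250], [nat_lit 51, nat_lit 40, nat_lit 20, nat_lit 80, nat_lit 1, nat_lit 345, nat_lit 125, nat_lit 10]⟩,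
 zbF0, []⟩
noncomputable def t01_l60 : Lf2 := ⟨nat_lit 0, nat_lit 5, [nat_lit 4, nat_lit 5, nat_lit 5, nat_lit 20], false, nat_lit 0, nat_lit 0, nat_lit 0, nat_lit 0, ⟨nat_lit 1000, nat_lit 0, nat_lit 0, nat_lit 0, nat_lit 0, nat_lit 0, nat_lit 0, nat_lit 0, nat_lit 0, nat_lit 0, nat_lit 0, nat_lit 0, nat_lit 0, nat_lit 0, nat_lit 0, nat_lit 0, false, false⟩,
 nat_lit 18802, nat_lit 0, nat_lit 0, nat_lit 0, nat_lit 8992, nat_lit 8992, nat_lit 2322, nat_lit 0, nat_lit 0, nat_lit 1363, nat_lit 0, nat_lit 0, nat_lit 0, nat_lit 0, nat_lit 0, nat_lit 0, nat_lit 0, nat_lit 0, [],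
 ⟨t01_k1, nat_lit 0, nat_lit 0, nat_lit 398, nat_lit 0, nat_lit 427525, [nat_lit 6250000000, nat_lit 9842000000], [], [nat_lit 30742372760, nat_lit 31019361944, nat_lit 40628015584, nat_lit 41329401664], nat_lit 1271250, nat_lit 1271250, nat_lit 1271250, nat_lit 1271250, nat_lit 0, nat_lit 0, [nat_lit 1412500, nat_lit 1271250], [nat_lit 51, nat_lit 40, nat_lit 20, nat_lit 80, nat_lit 1, nat_lit 401, nat_lit 175, nat_lit 11]⟩, ⟨t01_k1, nat_lit 0, nat_lit 0, nat_lit 398, nat_lit 0, nat_lit 427525, [nat_lit 6250000000, nat_lit 9842000000], [], [nat_lit 35309610260, nat_lit 35586599444, nat_lit 41175213032, nat_lit 41330878936], nat_lit 1271250, nat_lit 1271250, nat_lit 1271250, nat_lit 1271250, nat_lit 0, nat_lit 0, [nat_lit 1412500, nat_lit 1271250], [nat_lit 51, nat_lit 40, nat_lit 20, nat_lit 80, nat_lit 1, nat_lit 401, nat_lit 175, nat_lit 11]⟩,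
 zbF0, []⟩
noncomputable def t01_l61 : Lf2 := ⟨nat_lit 1, nat_lit 5, [nat_lit 4, nat_lit 5, nat_lit 5, nat_lit 20], false, nat_lit 0, nat_lit 0, nat_lit 0, nat_lit 0, zbN0,
 nat_lit 0, nat_lit 0, nat_lit 0, nat_lit 0, nat_lit 0, nat_lit 0, nat_lit 0, nat_lit 0, nat_lit 0, nat_lit 0, nat_lit 0, nat_lit 0, nat_lit 0, nat_lit 0, nat_lit 0, nat_lit 0, nat_lit 0, nat_lit 0, [],
 C1.Rw.none, C1.Rw.none,
 zbF0, []⟩
theorem r_NL_550_550_0 (h : EB TB.env) : Dead (RC.box ⟨false, 20, 220, 240, 220, 240, 0, 0, [44]⟩ 0 44) := chkB_sound h (refs := [b_NL_550_550_0_0, b_NL_550_550_0_1, b_NL_550_550_0_2, b_NL_550_550_0_3, b_NL_550_550_0_4, b_NL_550_550_0_5, b_NL_550_550_0_6, b_NL_550_550_0_7, b_NL_550_550_0_8, b_NL_550_550_0_9, b_NL_550_550_0_10, b_NL_550_550_0_11, b_NL_550_550_0_12, b_NL_550_550_0_13, b_NL_550_550_0_14, b_NL_550_550_0_15, b_NL_550_550_0_16, b_NL_550_550_0_17, b_NL_550_550_0_18, b_NL_550_550_0_19,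 b_NL_550_550_0_20, b_NL_550_550_0_21, b_NL_550_550_0_22, b_NL_550_550_0_23, b_NL_550_550_0_24, b_NL_550_550_0_25, b_NL_550_550_0_26, b_NL_550_550_0_27, b_NL_550_550_0_28, b_NL_550_550_0_29, b_NL_550_550_0_30, b_NL_550_550_0_31, b_NL_550_550_0_32, b_NL_550_550_0_33, b_NL_550_550_0_34, b_NL_550_550_0_35, b_NL_550_550_0_36, b_NL_550_550_0_37, b_NL_550_550_0_38, b_NL_550_550_0_39]) (refs_cons (d_NL_550_550_0_0 h) (refs_cons (d_NL_550_550_0_1 h) (refs_cons (d_NL_550_550_0_2 h) (refs_cons (d_NL_550_550_0_3 h) (refs_cons (d_NL_550_550_0_4 h) (refs_cons (d_NL_550_550_0_5 h) (refs_cons (d_NL_550_550_0_6 h) (refs_cons (d_NL_550_550_0_7 h) (refs_cons (d_NL_550_550_0_8 h) (refs_cons (d_NL_550_550_0_9 h) (refs_cons (d_NL_550_550_0_10 h) (refs_cons (d_NL_550_550_0_11 h) (refs_cons (d_NL_550_550_0_12 h) (refs_cons (d_NL_550_550_0_13 h) (refs_cons (d_NL_550_550_0_14 h) (refs_cons (d_NL_550_550_0_15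 h) (refs_cons (d_NL_550_550_0_16 h) (refs_cons (d_NL_550_550_0_17 h) (refs_cons (d_NL_550_550_0_18 h) (refs_cons (d_NL_550_550_0_19 h) (refs_cons (d_NL_550_550_0_20 h) (refs_cons (d_NL_550_550_0_21 h) (refs_cons (d_NL_550_550_0_22 h) (refs_cons (d_NL_550_550_0_23 h) (refs_cons (d_NL_550_550_0_24 h) (refs_cons (d_NL_550_550_0_25 h) (refs_cons (d_NL_550_550_0_26 h) (refs_cons (d_NL_550_550_0_27 h) (refs_cons (d_NL_550_550_0_28 h) (refs_cons (d_NL_550_550_0_29 h) (refs_cons (d_NL_550_550_0_30 h) (refs_cons (d_NL_550_550_0_31 h) (refs_cons (d_NL_550_550_0_32 h) (refs_cons (d_NL_550_550_0_33 h) (refs_cons (d_NL_550_550_0_34 h) (refs_cons (d_NL_550_550_0_35 h) (refs_cons (d_NL_550_550_0_36 h) (refs_cons (d_NL_550_550_0_37 h) (refs_cons (d_NL_550_550_0_38 h) (refs_cons (d_NL_550_550_0_39 h) (refs_nil))))))))))))))))))))))))))))))))))))))))) (T :=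
(.trZ (nat_lit 0) (nat_lit 100) (nat_lit 100) (nat_lit 20) (nat_lit 4) (.spl (nat_lit 6) (nat_lit 40)
(.st (nat_lit 0)
(.gv
(.st (nat_lit 1)
(.spl (nat_lit 2) (nat_lit 120)
(.spl (nat_lit 2) (nat_lit 80)
(.spl (nat_lit 2) (nat_lit 40)
(.spl (nat_lit 2) (nat_lit 20)
(.spl (nat_lit 6) (nat_lit 20)
(.leaf t01_l0)
(.spl (nat_lit 0) (nat_lit 230)
(.ref (nat_lit 0))
(.spl (nat_lit 1) (nat_lit 230)
(.ref (nat_lit 1))
(.trZ (nat_lit 0) (nat_lit 100) (nat_lit 100) (nat_lit 30) (nat_lit 8) (.spl (nat_lit 2) (nat_lit 16)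
(.ref (nat_lit 2))
(.ref (nat_lit 3)))))))
(.leaf t01_l1))
(.leaf t01_l2))
(.leaf t01_l3))
(.leaf t01_l4))
(.spl (nat_lit 2) (nat_lit 240)
(.spl (nat_lit 2) (nat_lit 120)
(.spl (nat_lit 2) (nat_lit 80)
(.spl (nat_lit 2) (nat_lit 40)
(.spl (nat_lit 2) (nat_lit 20)
(.spl (nat_lit 6) (nat_lit 20)
(.leaf t01_l5)
(.spl (nat_lit 0) (nat_lit 230)
(.ref (nat_lit 4))
(.spl (nat_lit 1) (nat_lit 230)
(.ref (nat_lit 5))
(.trZ (nat_lit 0) (nat_lit 100) (nat_lit 100) (nat_lit 30) (nat_lit 8) (.spl (nat_lit 2) (nat_lit 16)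
(.ref (nat_lit 6))
(.ref (nat_lit 7)))))))
(.leaf t01_l6))
(.leaf t01_l7))
(.leaf t01_l8))
(.leaf t01_l9))
(.leaf t01_l10)))
(.st (nat_lit 1)
(.leaf t01_l11)
(.spl (nat_lit 0) (nat_lit 230)
(.ord (.leaf t01_l12))
(.leaf t01_l13))))
(.gv
(.st (nat_lit 1)
(.spl (nat_lit 2) (nat_lit 240)
(.spl (nat_lit 2) (nat_lit 160)
(.spl (nat_lit 2) (nat_lit 80)
(.spl (nat_lit 6) (nat_lit 20)
(.spl (nat_lit 2) (nat_lit 40)
(.spl (nat_lit 6) (nat_lit 8)
(.spl (nat_lit 0) (nat_lit 230)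
(.ord (.spl (nat_lit 2) (nat_lit 20)
(.spl (nat_lit 2) (nat_lit 16)
(.spl (nat_lit 8) (nat_lit 800)
(.spl (nat_lit 0) (nat_lit 225)
(.ord (.spl (nat_lit 0) (nat_lit 223)
(.ord (.spl (nat_lit 0) (nat_lit 222)
(.ord (.spl (nat_lit 8) (nat_lit 400)
(.spl (nat_lit 6) (nat_lit 4)
(.spl (nat_lit 2) (nat_lit 8)
(.spl (nat_lit 8) (nat_lit 200)
(.ref (nat_lit 8))
(.ref (nat_lit 9)))
(.leaf t01_l14))
(.spl (nat_lit 8) (nat_lit 200)
(.leaf t01_l15)
(.spl (nat_lit 8) (nat_lit 300)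
(.spl (nat_lit 0) (nat_lit 221)
(.ref (nat_lit 10))
(.ref (nat_lit 11)))
(.leaf t01_l16))))
(.leaf t01_l17)))
(.ref (nat_lit 12))))
(.ref (nat_lit 13))))
(.ref (nat_lit 14)))
(.leaf t01_l18))
(.spl (nat_lit 0) (nat_lit 225)
(.ord (.spl (nat_lit 0) (nat_lit 223)
(.ord (.leaf t01_l19))
(.leaf t01_l20)))
(.leaf t01_l21)))
(.leaf t01_l22)))
(.ref (nat_lit 15)))
(.ref (nat_lit 16)))
(.leaf t01_l23))
(.spl (nat_lit 2) (nat_lit 40)
(.spl (nat_lit 0) (nat_lit 230)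
(.ord (.spl (nat_lit 6) (nat_lit 28)
(.spl (nat_lit 2) (nat_lit 20)
(.spl (nat_lit 0) (nat_lit 225)
(.ref (nat_lit 17))
(.spl (nat_lit 8) (nat_lit 800)
(.spl (nat_lit 7) (nat_lit 600)
(.spl (nat_lit 7) (nat_lit 300)
(.leaf t01_l24)
(.spl (nat_lit 2) (nat_lit 16)
(.spl (nat_lit 1) (nat_lit 225)
(.leaf t01_l25)
(.spl (nat_lit 6) (nat_lit 24)
(.spl (nat_lit 2) (nat_lit 8)
(.ref (nat_lit 18))
(.spl (nat_lit 2) (nat_lit 12)
(.ref (nat_lit 19))
(.ref (nat_lit 20))))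
(.leaf t01_l26)))
(.leaf t01_l27)))
(.leaf t01_l28))
(.leaf t01_l29)))
(.leaf t01_l30))
(.leaf t01_l31)))
(.ref (nat_lit 21)))
(.spl (nat_lit 0) (nat_lit 230)
(.ord (.leaf t01_l32))
(.leaf t01_l33))))
(.spl (nat_lit 1) (nat_lit 230)
(.spl (nat_lit 6) (nat_lit 32)
(.leaf t01_l34)
(.leaf t01_l35))
(.ord (.leaf t01_l36))))
(.leaf t01_l37))
(.leaf t01_l38))
(.spl (nat_lit 2) (nat_lit 240)
(.spl (nat_lit 2) (nat_lit 160)
(.spl (nat_lit 2) (nat_lit 120)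
(.spl (nat_lit 6) (nat_lit 20)
(.spl (nat_lit 2) (nat_lit 80)
(.spl (nat_lit 2) (nat_lit 40)
(.spl (nat_lit 6) (nat_lit 8)
(.spl (nat_lit 8) (nat_lit 800)
(.spl (nat_lit 7) (nat_lit 600)
(.spl (nat_lit 7) (nat_lit 300)
(.leaf t01_l39)
(.spl (nat_lit 7) (nat_lit 460)
(.ref (nat_lit 22))
(.spl (nat_lit 0) (nat_lit 230)
(.ref (nat_lit 23))
(.spl (nat_lit 1) (nat_lit 230)
(.ref (nat_lit 24))
(.trZ (nat_lit 0) (nat_lit 100) (nat_lit 100) (nat_lit 30) (nat_lit 8) (.spl (nat_lit 0) (nat_lit 235)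
(.ref (nat_lit 25))
(.spl (nat_lit 1) (nat_lit 235)
(.ref (nat_lit 26))
(.ref (nat_lit 27)))))))))
(.leaf t01_l40))
(.leaf t01_l41))
(.ref (nat_lit 28)))
(.ref (nat_lit 29)))
(.leaf t01_l42))
(.spl (nat_lit 2) (nat_lit 80)
(.spl (nat_lit 2) (nat_lit 40)
(.spl (nat_lit 6) (nat_lit 32)
(.spl (nat_lit 8) (nat_lit 800)
(.spl (nat_lit 0) (nat_lit 230)
(.ord (.spl (nat_lit 2) (nat_lit 20)
(.spl (nat_lit 0) (nat_lit 225)
(.ref (nat_lit 30))
(.spl (nat_lit 7) (nat_lit 600)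
(.spl (nat_lit 7) (nat_lit 300)
(.leaf t01_l43)
(.spl (nat_lit 6) (nat_lit 24)
(.spl (nat_lit 2) (nat_lit 16)
(.spl (nat_lit 1) (nat_lit 225)
(.leaf t01_l44)
(.spl (nat_lit 2) (nat_lit 8)
(.spl (nat_lit 0) (nat_lit 228)
(.ref (nat_lit 31))
(.spl (nat_lit 7) (nat_lit 460)
(.spl (nat_lit 7) (nat_lit 380)
(.leaf t01_l45)
(.ref (nat_lit 32)))
(.leaf t01_l46)))
(.spl (nat_lit 0) (nat_lit 228)
(.ref (nat_lit 33))
(.spl (nat_lit 2) (nat_lit 12)
(.spl (nat_lit 1) (nat_lit 228)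
(.ref (nat_lit 34))
(.ref (nat_lit 35)))
(.ref (nat_lit 36))))))
(.leaf t01_l47))
(.spl (nat_lit 6) (nat_lit 28)
(.leaf t01_l48)
(.leaf t01_l49))))
(.leaf t01_l50)))
(.leaf t01_l51)))
(.ref (nat_lit 37)))
(.leaf t01_l52))
(.ref (nat_lit 38)))
(.spl (nat_lit 1) (nat_lit 230)
(.leaf t01_l53)
(.ord (.leaf t01_l54))))
(.leaf t01_l55)))
(.spl (nat_lit 6) (nat_lit 20)
(.spl (nat_lit 0) (nat_lit 230)
(.ord (.leaf t01_l56))
(.leaf t01_l57))
(.leaf t01_l58)))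
(.leaf t01_l59))
(.leaf t01_l60)))
(.ref (nat_lit 39))))
(.leaf t01_l61)))) (by decide +kernel)
theorem done_NL_550_550_0 (h : EB TB.env) : RC.Done ⟨false, 20, 220, 240, 220, 240, 0, 0, [44]⟩ := RC.done1 (r_NL_550_550_0 h) (t_NL_550_550_0 h)
theorem t_NL_600_400_0 (h : EB TB.env) : RC.Tail ⟨false, 20, 240, 260, 160, 180, 0, 0, [32]⟩ := RC.tail_chk h (b := ⟨nat_lit 20, nat_lit 16, nat_lit 5, nat_lit 5, nat_lit 20, nat_lit 203, nat_lit 0, nat_lit 32, nat_lit 0⟩) (by decide +kernel)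
theorem r_NL_600_400_0 (h : EB TB.env) : Dead (RC.box ⟨false, 20, 240, 260, 160, 180, 0, 0, [32]⟩ 0 32) := chkB_sound h (refs := [b_NL_600_400_0_0]) (refs_cons (d_NL_600_400_0_0 h) (refs_nil)) (T :=
(.ref (nat_lit 0))) (by decide +kernel)
theorem done_NL_600_400_0 (h : EB TB.env) : RC.Done ⟨false, 20, 240, 260, 160, 180, 0, 0, [32]⟩ := RC.done1 (r_NL_600_400_0 h) (t_NL_600_400_0 h)
theorem t_NL_600_450_0 (h : EB TB.env) : RC.Tail ⟨false, 20, 240, 260, 180, 200, 0, 0, [40]⟩ := RC.tail_chk h (b := ⟨nat_lit 20, nat_lit 20, nat_lit 5, nat_lit 5, nat_lit 20, nat_lit 203, nat_lit 0, nat_lit 32, nat_lit 0⟩) (by decide +kernel)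
noncomputable def t01_l62 : Lf2 := ⟨nat_lit 0, nat_lit 5, [nat_lit 4, nat_lit 5, nat_lit 5, nat_lit 20], false, nat_lit 0, nat_lit 0, nat_lit 0, nat_lit 0, ⟨nat_lit 1000, nat_lit 0, nat_lit 0, nat_lit 0, nat_lit 0, nat_lit 0, nat_lit 0, nat_lit 0, nat_lit 0, nat_lit 0, nat_lit 0, nat_lit 0, nat_lit 0, nat_lit 0, nat_lit 0, nat_lit 0, false, false⟩,
 nat_lit 0, nat_lit 19586, nat_lit 0, nat_lit 0, nat_lit 10369, nat_lit 17123, nat_lit 1615, nat_lit 0, nat_lit 0, nat_lit 6264, nat_lit 0, nat_lit 0, nat_lit 0, nat_lit 0, nat_lit 0, nat_lit 0, nat_lit 0, nat_lit 0, [],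
 ⟨t01_k14, nat_lit 0, nat_lit 0, nat_lit 497, nat_lit 0, nat_lit 596796, [nat_lit 4688000000, nat_lit 6250000000, nat_lit 9842000000], [], [nat_lit 28099846152, nat_lit 22780977248, nat_lit 29427636688, nat_lit 24405328586], nat_lit 1271250, nat_lit 1271250, nat_lit 490000, nat_lit 1100001, nat_lit 0, nat_lit 0, [nat_lit 1100000, nat_lit 1442500, nat_lit 1271250], [nat_lit 11, nat_lit 40, nat_lit 20, nat_lit 80, nat_lit 1, nat_lit 345, nat_lit 125, nat_lit 10]⟩, ⟨t01_k15, nat_lit 0, nat_lit 0, nat_lit 216, nat_lit 0, nat_lit 0, [nat_lit 7968000000, nat_lit 9842000000, nat_lit 11872000000], [], [nat_lit 15158958334, nat_lit 16043609928, nat_lit 13164405450, nat_lit 14472301480], nat_lit 0, nat_lit 0, nat_lit 0, nat_lit 0, nat_lit 0, nat_lit 0, [], [nat_lit 106, nat_lit 40, nat_lit 20, nat_lit 80, nat_lit 41, nat_lit 317, nat_lit 100, nat_lit 9]⟩,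
 zbF0, []⟩
noncomputable def t01_l63 : Lf2 := ⟨nat_lit 0, nat_lit 5, [nat_lit 4, nat_lit 5, nat_lit 5, nat_lit 20], false, nat_lit 0, nat_lit 0, nat_lit 0, nat_lit 0, ⟨nat_lit 294, nat_lit 0, nat_lit 706, nat_lit 4, nat_lit 131, nat_lit 0, nat_lit 0, nat_lit 0, nat_lit 0, nat_lit 215, nat_lit 163350, nat_lit 314, nat_lit 60473243, nat_lit 0, nat_lit 0, nat_lit 1596817, false, false⟩,
 nat_lit 0, nat_lit 15194, nat_lit 0, nat_lit 0, nat_lit 8043, nat_lit 5029, nat_lit 88, nat_lit 0, nat_lit 0, nat_lit 1840, nat_lit 0, nat_lit 0, nat_lit 0, nat_lit 0, nat_lit 1, nat_lit 706000, nat_lit 0, nat_lit 0, [(nat_lit 6, [(nat_lit 6, nat_lit 706)])],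
 ⟨t01_k14, nat_lit 0, nat_lit 0, nat_lit 315, nat_lit 0, nat_lit 239304, [nat_lit 2084081067, nat_lit 1929794401, nat_lit 95173599], [], [nat_lit 21577985945, nat_lit 17451460451, nat_lit 20654384605, nat_lit 17181131773], nat_lit 1271250, nat_lit 1271250, nat_lit 490000, nat_lit 1100001, nat_lit 0, nat_lit 0, [nat_lit 1100000, nat_lit 1442500, nat_lit 1271250], [nat_lit 11, nat_lit 40, nat_lit 20, nat_lit 80, nat_lit 1, nat_lit 345, nat_lit 125, nat_lit 10]⟩, ⟨t01_k15, nat_lit 0, nat_lit 0, nat_lit 216, nat_lit 0, nat_lit 0, [nat_lit 2342592000, nat_lit 2893548000, nat_lit 3490368000], [], [nat_lit 4463061178, nat_lit 4723045104, nat_lit 3877815346, nat_lit 4258044008], nat_lit 0, nat_lit 0, nat_lit 0, nat_lit 0, nat_lit 0, nat_lit 0, [], [nat_lit 106, nat_lit 40, nat_lit 20, nat_lit 80, nat_lit 41, nat_lit 317, nat_lit 100, nat_lit 9]⟩,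
 ⟨nat_lit 5916, nat_lit 6325, ⟨.ofNat (nat_lit 231838), .ofNat (nat_lit 396366), .ofNat (nat_lit 253206), .ofNat (nat_lit 417734), .ofNat (nat_lit 243059), .ofNat (nat_lit 400126), .ofNat (nat_lit 264398), .ofNat (nat_lit 421465)⟩, ⟨.ofNat (nat_lit 0), .ofNat (nat_lit 0), .ofNat (nat_lit 0), .ofNat (nat_lit 0), .ofNat (nat_lit 0), .ofNat (nat_lit 0), .ofNat (nat_lit 0), .ofNat (nat_lit 0)⟩⟩, []⟩
noncomputable def t01_l64 : Lf2 := ⟨nat_lit 0, nat_lit 5, [nat_lit 4, nat_lit 5, nat_lit 5, nat_lit 20], false, nat_lit 0, nat_lit 0, nat_lit 0, nat_lit 0, ⟨nat_lit 1000, nat_lit 0, nat_lit 0, nat_lit 0, nat_lit 0, nat_lit 0, nat_lit 0, nat_lit 0, nat_lit 0, nat_lit 0, nat_lit 0, nat_lit 0, nat_lit 0, nat_lit 0, nat_lit 0, nat_lit 0, false, false⟩,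
 nat_lit 0, nat_lit 10964, nat_lit 0, nat_lit 0, nat_lit 5804, nat_lit 10471, nat_lit 760, nat_lit 0, nat_lit 0, nat_lit 3184, nat_lit 0, nat_lit 0, nat_lit 0, nat_lit 0, nat_lit 0, nat_lit 0, nat_lit 0, nat_lit 0, [],
 ⟨t01_k14, nat_lit 0, nat_lit 0, nat_lit 467, nat_lit 0, nat_lit 596796, [nat_lit 4688000000, nat_lit 6250000000, nat_lit 9842000000], [], [nat_lit 38220379360, nat_lit 36180526328, nat_lit 46121173610, nat_lit 43454925125], nat_lit 1271250, nat_lit 1271250, nat_lit 1100001, nat_lit 3120750, nat_lit 0, nat_lit 0, [nat_lit 1100000, nat_lit 1442500, nat_lit 1271250], [nat_lit 11, nat_lit 40, nat_lit 20, nat_lit 80, nat_lit 1, nat_lit 401, nat_lit 175, nat_lit 12]⟩, ⟨t01_k15, nat_lit 0, nat_lit 0, nat_lit 274, nat_lit 0, nat_lit 0, [nat_lit 7968000000, nat_lit 9842000000, nat_lit 11872000000], [], [nat_lit 23808607102, nat_lit 24259239280, nat_lit 42599483666, nat_lit 42784174404],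 nat_lit 0, nat_lit 0, nat_lit 0, nat_lit 0, nat_lit 0, nat_lit 0, [], [nat_lit 106, nat_lit 40, nat_lit 20, nat_lit 80, nat_lit 41, nat_lit 373, nat_lit 150, nat_lit 10]⟩,
 zbF0, []⟩
noncomputable def t01_l65 : Lf2 := ⟨nat_lit 0, nat_lit 5, [nat_lit 4, nat_lit 5, nat_lit 5, nat_lit 20], false, nat_lit 0, nat_lit 0, nat_lit 0, nat_lit 0, ⟨nat_lit 1000, nat_lit 0, nat_lit 0, nat_lit 0, nat_lit 0, nat_lit 0, nat_lit 0, nat_lit 0, nat_lit 0, nat_lit 0, nat_lit 0, nat_lit 0, nat_lit 0, nat_lit 0, nat_lit 0, nat_lit 0, false, false⟩,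
 nat_lit 0, nat_lit 11128, nat_lit 0, nat_lit 0, nat_lit 5891, nat_lit 12023, nat_lit 0, nat_lit 0, nat_lit 0, nat_lit 0, nat_lit 0, nat_lit 0, nat_lit 0, nat_lit 0, nat_lit 0, nat_lit 0, nat_lit 0, nat_lit 0, [],
 ⟨t01_k16, nat_lit 0, nat_lit 0, nat_lit 316, nat_lit 0, nat_lit 239304, [nat_lit 4688000000, nat_lit 9842000000], [], [nat_lit 39422351756, nat_lit 40157549330, nat_lit 50121738755, nat_lit 47380022974], nat_lit 1271250, nat_lit 1271250, nat_lit 1100001, nat_lit 3120750, nat_lit 0, nat_lit 0, [nat_lit 1100000, nat_lit 2127500], [nat_lit 70, nat_lit 40, nat_lit 20, nat_lit 80, nat_lit 13, nat_lit 401, nat_lit 175, nat_lit 12]⟩, ⟨t01_k17, nat_lit 0, nat_lit 0, nat_lit 258, nat_lit 0, nat_lit 0, [nat_lit 7968000000, nat_lit 11872000000], [], [nat_lit 30956056126, nat_lit 31399567388, nat_lit 50166350552, nat_lit 49979927607], nat_lit 0, nat_lit 0, nat_lit 0, nat_lit 0, nat_lit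 0, nat_lit 0, [], [nat_lit 143, nat_lit 40, nat_lit 20, nat_lit 80, nat_lit 14, nat_lit 373, nat_lit 150, nat_lit 10]⟩,
 zbF0, []⟩
theorem r_NL_600_450_0 (h : EB TB.env) : Dead (RC.box ⟨false, 20, 240, 260, 180, 200, 0, 0, [40]⟩ 0 40) := chkB_sound h (refs := [b_NL_600_450_0_0, b_NL_600_450_0_1, b_NL_600_450_0_2, b_NL_600_450_0_3, b_NL_600_450_0_4]) (refs_cons (d_NL_600_450_0_0 h) (refs_cons (d_NL_600_450_0_1 h) (refs_cons (d_NL_600_450_0_2 h) (refs_cons (d_NL_600_450_0_3 h) (refs_cons (d_NL_600_450_0_4 h) (refs_nil)))))) (T :=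
(.trX (nat_lit 13) (nat_lit 98) (nat_lit 20) (nat_lit 100) (nat_lit 396) (.st (nat_lit 0)
(.ref (nat_lit 0))
(.gv
(.st (nat_lit 1)
(.spl (nat_lit 2) (nat_lit 160)
(.spl (nat_lit 2) (nat_lit 80)
(.ref (nat_lit 1))
(.spl (nat_lit 6) (nat_lit 20)
(.leaf t01_l62)
(.leaf t01_l63)))
(.spl (nat_lit 6) (nat_lit 20)
(.leaf t01_l64)
(.leaf t01_l65)))
(.spl (nat_lit 2) (nat_lit 120)
(.ref (nat_lit 2))
(.ref (nat_lit 3))))
(.ref (nat_lit 4)))))) (by decide +kernel)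
theorem done_NL_600_450_0 (h : EB TB.env) : RC.Done ⟨false, 20, 240, 260, 180, 200, 0, 0, [40]⟩ := RC.done1 (r_NL_600_450_0 h) (t_NL_600_450_0 h)
theorem t_NL_600_500_0 (h : EB TB.env) : RC.Tail ⟨false, 20, 240, 260, 200, 220, 0, 0, [48]⟩ := RC.tail_chk h (b := ⟨nat_lit 20, nat_lit 24, nat_lit 5, nat_lit 5, nat_lit 20, nat_lit 203, nat_lit 0, nat_lit 31, nat_lit 0⟩) (by decide +kernel)
noncomputable def t01_l66 : Lf2 := ⟨nat_lit 0, nat_lit 5, [nat_lit 4, nat_lit 5, nat_lit 5, nat_lit 20], true, nat_lit 0, nat_lit 0, nat_lit 0, nat_lit 0, ⟨nat_lit 0, nat_lit 0, nat_lit 1000, nat_lit 5, nat_lit 76, nat_lit 0, nat_lit 0, nat_lit 0, nat_lit 0, nat_lit 215, nat_lit 54150, nat_lit 272, nat_lit 64678509, nat_lit 0, nat_lit 0, nat_lit 752726, false, false⟩,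
 nat_lit 0, nat_lit 7292, nat_lit 0, nat_lit 0, nat_lit 3860, nat_lit 0, nat_lit 0, nat_lit 0, nat_lit 0, nat_lit 0, nat_lit 0, nat_lit 0, nat_lit 0, nat_lit 0, nat_lit 125, nat_lit 826600, nat_lit 0, nat_lit 0, [(nat_lit 6, [(nat_lit 5, nat_lit 289), (nat_lit 6, nat_lit 711)])],
 ⟨t01_k14, nat_lit 0, nat_lit 0, nat_lit 341, nat_lit 0, nat_lit 138483, [nat_lit 3104380800, nat_lit 2595926401, nat_lit 112318399], [], [nat_lit 14749690034, nat_lit 15001295341, nat_lit 16388142642, nat_lit 15426450662], nat_lit 1271250, nat_lit 1271250, nat_lit 21650, nat_lit 490000, nat_lit 0, nat_lit 0, [nat_lit 1100000, nat_lit 1442500, nat_lit 1271250], [nat_lit 11, nat_lit 40, nat_lit 20, nat_lit 80, nat_lit 1, nat_lit 317, nat_lit 100, nat_lit 10]⟩, C1.Rw.none,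
 ⟨nat_lit 6123, nat_lit 6325, ⟨.ofNat (nat_lit 96904), .ofNat (nat_lit 253206), .ofNat (nat_lit 118272), .ofNat (nat_lit 274574), .ofNat (nat_lit 106133), .ofNat (nat_lit 258856), .ofNat (nat_lit 127481), .ofNat (nat_lit 280205)⟩, ⟨.ofNat (nat_lit 0), .ofNat (nat_lit 0), .ofNat (nat_lit 0), .ofNat (nat_lit 0), .ofNat (nat_lit 0), .ofNat (nat_lit 0), .ofNat (nat_lit 0), .ofNat (nat_lit 0)⟩⟩, []⟩
noncomputable def t01_l67 : Lf2 := ⟨nat_lit 0, nat_lit 5, [nat_lit 4, nat_lit 5, nat_lit 5, nat_lit 20], true, nat_lit 0, nat_lit 0, nat_lit 0, nat_lit 0, ⟨nat_lit 0, nat_lit 0, nat_lit 1000, nat_lit 5, nat_lit 79, nat_lit 0, nat_lit 0, nat_lit 0, nat_lit 0, nat_lit 215, nat_lit 58017, nat_lit 274, nat_lit 64501471, nat_lit 0, nat_lit 0, nat_lit 796177, false, false⟩,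
 nat_lit 0, nat_lit 7043, nat_lit 0, nat_lit 0, nat_lit 3912, nat_lit 0, nat_lit 0, nat_lit 0, nat_lit 0, nat_lit 0, nat_lit 0, nat_lit 0, nat_lit 0, nat_lit 0, nat_lit 80, nat_lit 987400, nat_lit 0, nat_lit 0, [(nat_lit 6, [(nat_lit 5, nat_lit 21), (nat_lit 6, nat_lit 979)])],
 ⟨t01_k18, nat_lit 0, nat_lit 0, nat_lit 292, nat_lit 0, nat_lit 182479, [nat_lit 2266317867, nat_lit 1412729200, nat_lit 228697200], [], [nat_lit 14310175275, nat_lit 14772727992, nat_lit 14648571219, nat_lit 13673923803], nat_lit 1271250, nat_lit 1271250, nat_lit 21650, nat_lit 490000, nat_lit 0, nat_lit 0, [nat_lit 1100000, nat_lit 1442500, nat_lit 1271250], [nat_lit 9, nat_lit 40, nat_lit 20, nat_lit 80, nat_lit 2, nat_lit 226, nat_lit 20, nat_lit 8]⟩, C1.Rw.none,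
 ⟨nat_lit 5916, nat_lit 6124, ⟨.ofNat (nat_lit 106133), .ofNat (nat_lit 258856), .ofNat (nat_lit 127481), .ofNat (nat_lit 280205), .ofNat (nat_lit 115184), .ofNat (nat_lit 264398), .ofNat (nat_lit 136523), .ofNat (nat_lit 285737)⟩, ⟨.ofNat (nat_lit 0), .ofNat (nat_lit 0), .ofNat (nat_lit 0), .ofNat (nat_lit 0), .ofNat (nat_lit 0), .ofNat (nat_lit 0), .ofNat (nat_lit 0), .ofNat (nat_lit 0)⟩⟩, [⟨nat_lit 0, nat_lit 100, nat_lit 96, nat_lit 40, nat_lit 95627329⟩]⟩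
noncomputable def t01_l68 : Lf2 := ⟨nat_lit 0, nat_lit 5, [nat_lit 4, nat_lit 5, nat_lit 5, nat_lit 20], false, nat_lit 0, nat_lit 0, nat_lit 0, nat_lit 0, ⟨nat_lit 1000, nat_lit 0, nat_lit 0, nat_lit 0, nat_lit 0, nat_lit 0, nat_lit 0, nat_lit 0, nat_lit 0, nat_lit 0, nat_lit 0, nat_lit 0, nat_lit 0, nat_lit 0, nat_lit 0, nat_lit 0, false, false⟩,
 nat_lit 20781, nat_lit 0, nat_lit 0, nat_lit 0, nat_lit 7403, nat_lit 8906, nat_lit 1844, nat_lit 0, nat_lit 0, nat_lit 2038, nat_lit 0, nat_lit 0, nat_lit 0, nat_lit 0, nat_lit 0, nat_lit 0, nat_lit 0, nat_lit 0, [],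
 ⟨t01_k14, nat_lit 0, nat_lit 0, nat_lit 374, nat_lit 0, nat_lit 403156, [nat_lit 4688000000, nat_lit 6250000000, nat_lit 9842000000], [], [nat_lit 28752345588, nat_lit 29365783004, nat_lit 37350876176, nat_lit 38370298212], nat_lit 1271250, nat_lit 1271250, nat_lit 1271250, nat_lit 1271250, nat_lit 0, nat_lit 0, [nat_lit 1100000, nat_lit 1442500, nat_lit 1271250], [nat_lit 11, nat_lit 40, nat_lit 20, nat_lit 80, nat_lit 1, nat_lit 401, nat_lit 175, nat_lit 11]⟩, ⟨t01_k19, nat_lit 0, nat_lit 0, nat_lit 505, nat_lit 0, nat_lit 511546, [nat_lit 6250000000, nat_lit 7968000000, nat_lit 11872000000], [], [nat_lit 33021785256, nat_lit 33370836304, nat_lit 40274612504, nat_lit 40414664396], nat_lit 1271250, nat_lit 1271250, nat_lit 1271250, nat_lit 1271250, nat_lit 0, nat_lit 0, [nat_lit 1412500, nat_lit 1271250, nat_lit 1271250], [nat_lit 53, nat_lit 40, nat_lit 20, nat_lit 80, nat_lit 14,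 nat_lit 401, nat_lit 175, nat_lit 10]⟩,
 zbF0, []⟩
noncomputable def t01_l69 : Lf2 := ⟨nat_lit 1, nat_lit 5, [nat_lit 4, nat_lit 5, nat_lit 5, nat_lit 20], false, nat_lit 0, nat_lit 0, nat_lit 0, nat_lit 0, zbN0,
 nat_lit 0, nat_lit 0, nat_lit 0, nat_lit 0, nat_lit 0, nat_lit 0, nat_lit 0, nat_lit 0, nat_lit 0, nat_lit 0, nat_lit 0, nat_lit 0, nat_lit 0, nat_lit 0, nat_lit 0, nat_lit 0, nat_lit 0, nat_lit 0, [],
 C1.Rw.none, C1.Rw.none,
 zbF0, []⟩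
theorem r_NL_600_500_0 (h : EB TB.env) : Dead (RC.box ⟨false, 20, 240, 260, 200, 220, 0, 0, [48]⟩ 0 48) := chkB_sound h (refs := [b_NL_600_500_0_0, b_NL_600_500_0_1, b_NL_600_500_0_2, b_NL_600_500_0_3, b_NL_600_500_0_4, b_NL_600_500_0_5, b_NL_600_500_0_6]) (refs_cons (d_NL_600_500_0_0 h) (refs_cons (d_NL_600_500_0_1 h) (refs_cons (d_NL_600_500_0_2 h) (refs_cons (d_NL_600_500_0_3 h) (refs_cons (d_NL_600_500_0_4 h) (refs_cons (d_NL_600_500_0_5 h) (refs_cons (d_NL_600_500_0_6 h) (refs_nil)))))))) (T :=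
(.trZ (nat_lit 0) (nat_lit 100) (nat_lit 98) (nat_lit 20) (nat_lit 4) (.spl (nat_lit 6) (nat_lit 40)
(.st (nat_lit 0)
(.ref (nat_lit 0))
(.gv
(.st (nat_lit 1)
(.ref (nat_lit 1))
(.spl (nat_lit 2) (nat_lit 240)
(.spl (nat_lit 2) (nat_lit 120)
(.spl (nat_lit 2) (nat_lit 80)
(.spl (nat_lit 6) (nat_lit 20)
(.spl (nat_lit 0) (nat_lit 250)
(.ref (nat_lit 2))
(.ref (nat_lit 3)))
(.spl (nat_lit 0) (nat_lit 250)
(.leaf t01_l66)
(.leaf t01_l67)))
(.ref (nat_lit 4)))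
(.ref (nat_lit 5)))
(.leaf t01_l68)))
(.ref (nat_lit 6))))
(.leaf t01_l69)))) (by decide +kernel)
theorem done_NL_600_500_0 (h : EB TB.env) : RC.Done ⟨false, 20, 240, 260, 200, 220, 0, 0, [48]⟩ := RC.done1 (r_NL_600_500_0 h) (t_NL_600_500_0 h)

end B2
end Pool.Agent.Lib.MP_6947cd_al
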