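import Pool.Agent.Lib.MP_6947cd_al.ZB.Pre

/-!
Problem MP_6947cd_al (Chollet).  Case B, second entry in [2/5, 17/20]: certificates of the tree, part P009 (generated).
-/

set_option autoImplicit false
set_option linter.all false

namespace Pool.Agent.Lib.MP_6947cd_al
namespace B2

open Ent Fr B1 PkA

noncomputable def p009_k0 : C1.Kn := ⟨[nat_lit 80, nat_lit 100, nat_lit 120], [nat_lit 0, nat_lit 65, nat_lit 576], [(nat_lit 0, nat_lit 0, nat_lit 0), (nat_lit 1000, nat_lit 990, nat_lit 51), (nat_lit 1000, nat_lit 990, nat_lit 399)], (nat_lit 98, nat_lit 100, nat_lit 28)⟩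
noncomputable def p009_k1 : C1.Kn := ⟨[nat_lit 80, nat_lit 100, nat_lit 120], [nat_lit 0, nat_lit 90, nat_lit 602], [(nat_lit 0, nat_lit 0, nat_lit 0), (nat_lit 1000, nat_lit 986, nat_lit 70), (nat_lit 1000, nat_lit 986, nat_lit 399)], (nat_lit 97, nat_lit 100, nat_lit 28)⟩
noncomputable def p009_k2 : C1.Kn := ⟨[nat_lit 80, nat_lit 100, nat_lit 120], [nat_lit 0, nat_lit 106, nat_lit 614], [(nat_lit 0, nat_lit 0, nat_lit 0), (nat_lit 1000, nat_lit 983, nat_lit 83), (nat_lit 1000, nat_lit 983, nat_lit 397)], (nat_lit 97, nat_lit 100, nat_lit 28)⟩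
noncomputable def p009_k3 : C1.Kn := ⟨[nat_lit 80, nat_lit 90, nat_lit 110, nat_lit 120], [nat_lit 0, nat_lit 0, nat_lit 257, nat_lit 511], [(nat_lit 0, nat_lit 0, nat_lit 0), (nat_lit 0, nat_lit 0, nat_lit 0), (nat_lit 1000, nat_lit 980, nat_lit 201), (nat_lit 1000, nat_lit 997, nat_lit 383)], (nat_lit 100, nat_lit 100, nat_lit 40)⟩
noncomputable def p009_k4 : C1.Kn := ⟨[nat_lit 80, nat_lit 100, nat_lit 120], [nat_lit 0, nat_lit 0, nat_lit 511], [(nat_lit 0, nat_lit 0, nat_lit 0), (nat_lit 0, nat_lit 0, nat_lit 0), (nat_lit 1000, nat_lit 997, nat_lit 383)], (nat_lit 100, nat_lit 100, nat_lit 40)⟩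
noncomputable def p009_k5 : C1.Kn := ⟨[nat_lit 80, nat_lit 100, nat_lit 120], [nat_lit 0, nat_lit 65, nat_lit 576], [(nat_lit 0, nat_lit 0, nat_lit 0), (nat_lit 1000, nat_lit 990, nat_lit 51), (nat_lit 1000, nat_lit 990, nat_lit 399)], (nat_lit 99, nat_lit 100, nat_lit 40)⟩
noncomputable def p009_k6 : C1.Kn := ⟨[nat_lit 90, nat_lit 110, nat_lit 130], [nat_lit 0, nat_lit 129, nat_lit 640], [(nat_lit 0, nat_lit 0, nat_lit 0), (nat_lit 1000, nat_lit 990, nat_lit 101), (nat_lit 981, nat_lit 1000, nat_lit 391)], (nat_lit 100, nat_lit 98, nat_lit 40)⟩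
noncomputable def p009_k7 : C1.Kn := ⟨[nat_lit 60, nat_lit 80, nat_lit 100, nat_lit 120, nat_lit 130], [nat_lit 0, nat_lit 0, nat_lit 0, nat_lit 511, nat_lit 778], [(nat_lit 0, nat_lit 0, nat_lit 0), (nat_lit 0, nat_lit 0, nat_lit 0), (nat_lit 0, nat_lit 0, nat_lit 0), (nat_lit 1000, nat_lit 997, nat_lit 383), (nat_lit 996, nat_lit 1000, nat_lit 416)], (nat_lit 100, nat_lit 99, nat_lit 44)⟩
noncomputable def p009_k8 : C1.Kn := ⟨[nat_lit 80, nat_lit 100, nat_lit 140], [nat_lit 0, nat_lit 0, nat_lit 1022], [(nat_lit 0, nat_lit 0, nat_lit 0), (nat_lit 0, nat_lit 0, nat_lit 0), (nat_lit 1000, nat_lit 1000, nat_lit 399)], (nat_lit 100, nat_lit 99, nat_lit 44)⟩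
noncomputable def p009_k9 : C1.Kn := ⟨[nat_lit 80, nat_lit 100], [nat_lit 0, nat_lit 132], [(nat_lit 0, nat_lit 0, nat_lit 0), (nat_lit 1000, nat_lit 979, nat_lit 103)], (nat_lit 97, nat_lit 100, nat_lit 20)⟩
noncomputable def p009_k10 : C1.Kn := ⟨[nat_lit 80, nat_lit 100, nat_lit 120], [nat_lit 0, nat_lit 132, nat_lit 640], [(nat_lit 0, nat_lit 0, nat_lit 0), (nat_lit 1000, nat_lit 979, nat_lit 103), (nat_lit 1000, nat_lit 979, nat_lit 397)], (nat_lit 97, nat_lit 100, nat_lit 28)⟩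
noncomputable def p009_k11 : C1.Kn := ⟨[nat_lit 50, nat_lit 90, nat_lit 110, nat_lit 120], [nat_lit 0, nat_lit 0, nat_lit 129, nat_lit 392], [(nat_lit 0, nat_lit 0, nat_lit 0), (nat_lit 0, nat_lit 0, nat_lit 0), (nat_lit 1000, nat_lit 990, nat_lit 101), (nat_lit 993, nat_lit 1000, nat_lit 341)], (nat_lit 100, nat_lit 100, nat_lit 28)⟩
noncomputable def p009_k12 : C1.Kn := ⟨[nat_lit 80, nat_lit 100, nat_lit 120], [nat_lit 0, nat_lit 132, nat_lit 640], [(nat_lit 0, nat_lit 0, nat_lit 0), (nat_lit 1000, nat_lit 979, nat_lit 103), (nat_lit 1000, nat_lit 979, nat_lit 397)], (nat_lit 99, nat_lit 100, nat_lit 44)⟩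
noncomputable def p009_k13 : C1.Kn := ⟨[nat_lit 50, nat_lit 90, nat_lit 110, nat_lit 140], [nat_lit 0, nat_lit 0, nat_lit 0, nat_lit 774], [(nat_lit 0, nat_lit 0, nat_lit 0), (nat_lit 0, nat_lit 0, nat_lit 0), (nat_lit 0, nat_lit 0, nat_lit 0), (nat_lit 962, nat_lit 1000, nat_lit 387)], (nat_lit 100, nat_lit 94, nat_lit 44)⟩
noncomputable def p009_k14 : C1.Kn := ⟨[nat_lit 50, nat_lit 90, nat_lit 110, nat_lit 130], [nat_lit 0, nat_lit 0, nat_lit 166, nat_lit 678], [(nat_lit 0, nat_lit 0, nat_lit 0), (nat_lit 0, nat_lit 0, nat_lit 0), (nat_lit 1000, nat_lit 987, nat_lit 129), (nat_lit 986, nat_lit 1000, nat_lit 394)], (nat_lit 100, nat_lit 97, nat_lit 44)⟩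
noncomputable def p009_k15 : C1.Kn := ⟨[nat_lit 100, nat_lit 120, nat_lit 140], [nat_lit 0, nat_lit 422, nat_lit 937], [(nat_lit 0, nat_lit 0, nat_lit 0), (nat_lit 1000, nat_lit 1000, nat_lit 329), (nat_lit 986, nat_lit 1000, nat_lit 397)], (nat_lit 100, nat_lit 97, nat_lit 44)⟩
noncomputable def p009_k16 : C1.Kn := ⟨[nat_lit 100, nat_lit 140], [nat_lit 0, nat_lit 843], [(nat_lit 0, nat_lit 0, nat_lit 0), (nat_lit 1000, nat_lit 1000, nat_lit 329)], (nat_lit 100, nat_lit 97, nat_lit 44)⟩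
noncomputable def p009_k17 : C1.Kn := ⟨[nat_lit 50, nat_lit 90, nat_lit 110, nat_lit 130], [nat_lit 0, nat_lit 0, nat_lit 180, nat_lit 690], [(nat_lit 0, nat_lit 0, nat_lit 0), (nat_lit 0, nat_lit 0, nat_lit 0), (nat_lit 1000, nat_lit 986, nat_lit 141), (nat_lit 989, nat_lit 1000, nat_lit 393)], (nat_lit 100, nat_lit 98, nat_lit 44)⟩
noncomputable def p009_k18 : C1.Kn := ⟨[nat_lit 100, nat_lit 120, nat_lit 140], [nat_lit 0, nat_lit 435, nat_lit 948], [(nat_lit 0, nat_lit 0, nat_lit 0), (nat_lit 1000, nat_lit 1000, nat_lit 339), (nat_lit 988, nat_lit 1000, nat_lit 396)], (nat_lit 100, nat_lit 98, nat_lit 44)⟩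
noncomputable def p009_k19 : C1.Kn := ⟨[nat_lit 100, nat_lit 140], [nat_lit 0, nat_lit 868], [(nat_lit 0, nat_lit 0, nat_lit 0), (nat_lit 1000, nat_lit 1000, nat_lit 339)], (nat_lit 100, nat_lit 98, nat_lit 44)⟩
noncomputable def p009_k20 : C1.Kn := ⟨[nat_lit 80, nat_lit 100, nat_lit 140], [nat_lit 0, nat_lit 11, nat_lit 1036], [(nat_lit 0, nat_lit 0, nat_lit 0), (nat_lit 1000, nat_lit 998, nat_lit 9), (nat_lit 1000, nat_lit 998, nat_lit 400)], (nat_lit 100, nat_lit 99, nat_lit 45)⟩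
noncomputable def p009_k21 : C1.Kn := ⟨[nat_lit 90, nat_lit 110, nat_lit 130], [nat_lit 0, nat_lit 180, nat_lit 690], [(nat_lit 0, nat_lit 0, nat_lit 0), (nat_lit 1000, nat_lit 986, nat_lit 141), (nat_lit 989, nat_lit 1000, nat_lit 393)], (nat_lit 100, nat_lit 98, nat_lit 44)⟩
noncomputable def p009_k22 : C1.Kn := ⟨[nat_lit 80, nat_lit 100, nat_lit 140], [nat_lit 0, nat_lit 24, nat_lit 1046], [(nat_lit 0, nat_lit 0, nat_lit 0), (nat_lit 1000, nat_lit 996, nat_lit 19), (nat_lit 1000, nat_lit 996, nat_lit 398)], (nat_lit 100, nat_lit 99, nat_lit 45)⟩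
noncomputable def p009_k23 : C1.Kn := ⟨[nat_lit 80, nat_lit 100, nat_lit 140], [nat_lit 0, nat_lit 36, nat_lit 1062], [(nat_lit 0, nat_lit 0, nat_lit 0), (nat_lit 1000, nat_lit 994, nat_lit 28), (nat_lit 1000, nat_lit 994, nat_lit 400)], (nat_lit 100, nat_lit 100, nat_lit 45)⟩
noncomputable def p009_k24 : C1.Kn := ⟨[nat_lit 50, nat_lit 90, nat_lit 110, nat_lit 130], [nat_lit 0, nat_lit 0, nat_lit 217, nat_lit 728], [(nat_lit 0, nat_lit 0, nat_lit 0), (nat_lit 0, nat_lit 0, nat_lit 0), (nat_lit 1000, nat_lit 983, nat_lit 169), (nat_lit 994, nat_lit 1000, nat_lit 396)], (nat_lit 100, nat_lit 98, nat_lit 44)⟩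
noncomputable def p009_k25 : C1.Kn := ⟨[nat_lit 100, nat_lit 120, nat_lit 140], [nat_lit 0, nat_lit 473, nat_lit 991], [(nat_lit 0, nat_lit 0, nat_lit 0), (nat_lit 1000, nat_lit 999, nat_lit 367), (nat_lit 993, nat_lit 1000, nat_lit 402)], (nat_lit 100, nat_lit 98, nat_lit 44)⟩
noncomputable def p009_k26 : C1.Kn := ⟨[nat_lit 100, nat_lit 140], [nat_lit 0, nat_lit 947], [(nat_lit 0, nat_lit 0, nat_lit 0), (nat_lit 1000, nat_lit 1000, nat_lit 370)], (nat_lit 100, nat_lit 98, nat_lit 44)⟩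
noncomputable def p009_k27 : C1.Kn := ⟨[nat_lit 40, nat_lit 80, nat_lit 100, nat_lit 130], [nat_lit 0, nat_lit 0, nat_lit 0, nat_lit 767], [(nat_lit 0, nat_lit 0, nat_lit 0), (nat_lit 0, nat_lit 0, nat_lit 0), (nat_lit 0, nat_lit 0, nat_lit 0), (nat_lit 1000, nat_lit 1000, nat_lit 399)], (nat_lit 100, nat_lit 99, nat_lit 44)⟩
noncomputable def p009_k28 : C1.Kn := ⟨[nat_lit 100, nat_lit 120, nat_lit 140], [nat_lit 0, nat_lit 486, nat_lit 1002], [(nat_lit 0, nat_lit 0, nat_lit 0), (nat_lit 1000, nat_lit 999, nat_lit 375), (nat_lit 995, nat_lit 1000, nat_lit 401)], (nat_lit 100, nat_lit 98, nat_lit 44)⟩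
noncomputable def p009_k29 : C1.Kn := ⟨[nat_lit 100, nat_lit 140], [nat_lit 0, nat_lit 970], [(nat_lit 0, nat_lit 0, nat_lit 0), (nat_lit 1000, nat_lit 1000, nat_lit 378)], (nat_lit 100, nat_lit 98, nat_lit 44)⟩
noncomputable def p009_k30 : C1.Kn := ⟨[nat_lit 100, nat_lit 120, nat_lit 140], [nat_lit 0, nat_lit 499, nat_lit 1016], [(nat_lit 0, nat_lit 0, nat_lit 0), (nat_lit 1000, nat_lit 1000, nat_lit 388), (nat_lit 997, nat_lit 1000, nat_lit 403)], (nat_lit 100, nat_lit 99, nat_lit 44)⟩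
noncomputable def p009_k31 : C1.Kn := ⟨[nat_lit 100, nat_lit 140], [nat_lit 0, nat_lit 995], [(nat_lit 0, nat_lit 0, nat_lit 0), (nat_lit 1000, nat_lit 1000, nat_lit 388)], (nat_lit 100, nat_lit 99, nat_lit 44)⟩
noncomputable def p009_k32 : C1.Kn := ⟨[nat_lit 90, nat_lit 110, nat_lit 130], [nat_lit 0, nat_lit 230, nat_lit 742], [(nat_lit 0, nat_lit 0, nat_lit 0), (nat_lit 1000, nat_lit 982, nat_lit 179), (nat_lit 996, nat_lit 1000, nat_lit 398)], (nat_lit 100, nat_lit 98, nat_lit 44)⟩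
noncomputable def p009_k33 : C1.Kn := ⟨[nat_lit 90, nat_lit 110, nat_lit 130], [nat_lit 0, nat_lit 217, nat_lit 728], [(nat_lit 0, nat_lit 0, nat_lit 0), (nat_lit 1000, nat_lit 983, nat_lit 169), (nat_lit 994, nat_lit 1000, nat_lit 396)], (nat_lit 100, nat_lit 98, nat_lit 44)⟩
noncomputable def p009_k34 : C1.Kn := ⟨[nat_lit 50, nat_lit 90, nat_lit 110, nat_lit 130], [nat_lit 0, nat_lit 0, nat_lit 230, nat_lit 742], [(nat_lit 0, nat_lit 0, nat_lit 0), (nat_lit 0, nat_lit 0, nat_lit 0), (nat_lit 1000, nat_lit 982, nat_lit 179), (nat_lit 996, nat_lit 1000, nat_lit 398)], (nat_lit 100, nat_lit 98, nat_lit 44)⟩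
noncomputable def p009_k35 : C1.Kn := ⟨[nat_lit 50, nat_lit 90, nat_lit 110, nat_lit 130], [nat_lit 0, nat_lit 0, nat_lit 245, nat_lit 751], [(nat_lit 0, nat_lit 0, nat_lit 0), (nat_lit 0, nat_lit 0, nat_lit 0), (nat_lit 1000, nat_lit 981, nat_lit 191), (nat_lit 999, nat_lit 1000, nat_lit 394)], (nat_lit 100, nat_lit 99, nat_lit 44)⟩
noncomputable def p009_k36 : C1.Kn := ⟨[nat_lit 80, nat_lit 100, nat_lit 140], [nat_lit 0, nat_lit 52, nat_lit 1072], [(nat_lit 0, nat_lit 0, nat_lit 0), (nat_lit 1000, nat_lit 992, nat_lit 41), (nat_lit 1000, nat_lit 992, nat_lit 398)], (nat_lit 100, nat_lit 100, nat_lit 45)⟩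
noncomputable def p009_k37 : C1.Kn := ⟨[nat_lit 90, nat_lit 110, nat_lit 130], [nat_lit 0, nat_lit 245, nat_lit 751], [(nat_lit 0, nat_lit 0, nat_lit 0), (nat_lit 1000, nat_lit 981, nat_lit 191), (nat_lit 999, nat_lit 1000, nat_lit 394)], (nat_lit 100, nat_lit 99, nat_lit 44)⟩
noncomputable def p009_k38 : C1.Kn := ⟨[nat_lit 80, nat_lit 100, nat_lit 140], [nat_lit 0, nat_lit 65, nat_lit 1086], [(nat_lit 0, nat_lit 0, nat_lit 0), (nat_lit 1000, nat_lit 990, nat_lit 51), (nat_lit 1000, nat_lit 990, nat_lit 399)], (nat_lit 100, nat_lit 100, nat_lit 45)⟩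
noncomputable def p009_k39 : C1.Kn := ⟨[nat_lit 100, nat_lit 120, nat_lit 140], [nat_lit 0, nat_lit 448, nat_lit 962], [(nat_lit 0, nat_lit 0, nat_lit 0), (nat_lit 1000, nat_lit 1000, nat_lit 350), (nat_lit 990, nat_lit 1000, nat_lit 398)], (nat_lit 100, nat_lit 98, nat_lit 44)⟩
noncomputable def p009_k40 : C1.Kn := ⟨[nat_lit 80, nat_lit 100, nat_lit 140], [nat_lit 0, nat_lit 78, nat_lit 1098], [(nat_lit 0, nat_lit 0, nat_lit 0), (nat_lit 1000, nat_lit 988, nat_lit 61), (nat_lit 1000, nat_lit 988, nat_lit 398)], (nat_lit 100, nat_lit 100, nat_lit 45)⟩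
noncomputable def p009_k41 : C1.Kn := ⟨[nat_lit 80, nat_lit 100, nat_lit 140], [nat_lit 0, nat_lit 90, nat_lit 1112], [(nat_lit 0, nat_lit 0, nat_lit 0), (nat_lit 1000, nat_lit 986, nat_lit 70), (nat_lit 1000, nat_lit 986, nat_lit 399)], (nat_lit 99, nat_lit 100, nat_lit 45)⟩
noncomputable def p009_k42 : C1.Kn := ⟨[nat_lit 80, nat_lit 100, nat_lit 140], [nat_lit 0, nat_lit 106, nat_lit 1122], [(nat_lit 0, nat_lit 0, nat_lit 0), (nat_lit 1000, nat_lit 983, nat_lit 83), (nat_lit 1000, nat_lit 983, nat_lit 397)], (nat_lit 99, nat_lit 100, nat_lit 45)⟩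
noncomputable def p009_k43 : C1.Kn := ⟨[nat_lit 100, nat_lit 120, nat_lit 140], [nat_lit 0, nat_lit 383, nat_lit 902], [(nat_lit 0, nat_lit 0, nat_lit 0), (nat_lit 1000, nat_lit 1000, nat_lit 299), (nat_lit 979, nat_lit 1000, nat_lit 397)], (nat_lit 100, nat_lit 97, nat_lit 44)⟩
noncomputable def p009_k44 : C1.Kn := ⟨[nat_lit 100, nat_lit 120, nat_lit 140], [nat_lit 0, nat_lit 254, nat_lit 778], [(nat_lit 0, nat_lit 0, nat_lit 0), (nat_lit 1000, nat_lit 1000, nat_lit 198), (nat_lit 960, nat_lit 1000, nat_lit 392)], (nat_lit 100, nat_lit 94, nat_lit 44)⟩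
noncomputable def p009_k45 : C1.Kn := ⟨[nat_lit 80, nat_lit 90, nat_lit 100], [nat_lit 0, nat_lit 0, nat_lit 129], [(nat_lit 0, nat_lit 0, nat_lit 0), (nat_lit 0, nat_lit 0, nat_lit 0), (nat_lit 1000, nat_lit 980, nat_lit 192)], (nat_lit 98, nat_lit 100, nat_lit 20)⟩
noncomputable def p009_k46 : C1.Kn := ⟨[nat_lit 80, nat_lit 100], [nat_lit 0, nat_lit 0], [(nat_lit 0, nat_lit 0, nat_lit 0), (nat_lit 0, nat_lit 0, nat_lit 0)], (nat_lit 98, nat_lit 100, nat_lit 20)⟩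
noncomputable def p009_k47 : C1.Kn := ⟨[nat_lit 80, nat_lit 100, nat_lit 120], [nat_lit 0, nat_lit 0, nat_lit 511], [(nat_lit 0, nat_lit 0, nat_lit 0), (nat_lit 0, nat_lit 0, nat_lit 0), (nat_lit 1000, nat_lit 997, nat_lit 383)], (nat_lit 98, nat_lit 100, nat_lit 28)⟩
noncomputable def p009_k48 : C1.Kn := ⟨[nat_lit 40, nat_lit 80, nat_lit 100, nat_lit 120], [nat_lit 0, nat_lit 0, nat_lit 0, nat_lit 511], [(nat_lit 0, nat_lit 0, nat_lit 0), (nat_lit 0, nat_lit 0, nat_lit 0), (nat_lit 0, nat_lit 0, nat_lit 0), (nat_lit 1000, nat_lit 997, nat_lit 383)], (nat_lit 98, nat_lit 100, nat_lit 28)⟩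
noncomputable def p009_k49 : C1.Kn := ⟨[nat_lit 80, nat_lit 100], [nat_lit 0, nat_lit 65], [(nat_lit 0, nat_lit 0, nat_lit 0), (nat_lit 1000, nat_lit 990, nat_lit 51)], (nat_lit 97, nat_lit 100, nat_lit 20)⟩
noncomputable def p009_k50 : C1.Kn := ⟨[nat_lit 80, nat_lit 100], [nat_lit 0, nat_lit 78], [(nat_lit 0, nat_lit 0, nat_lit 0), (nat_lit 1000, nat_lit 988, nat_lit 61)], (nat_lit 97, nat_lit 100, nat_lit 20)⟩
noncomputable def p009_k51 : C1.Kn := ⟨[nat_lit 80, nat_lit 100], [nat_lit 0, nat_lit 90], [(nat_lit 0, nat_lit 0, nat_lit 0), (nat_lit 1000, nat_lit 986, nat_lit 70)], (nat_lit 97, nat_lit 100, nat_lit 20)⟩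
noncomputable def p009_k52 : C1.Kn := ⟨[nat_lit 80, nat_lit 100], [nat_lit 0, nat_lit 106], [(nat_lit 0, nat_lit 0, nat_lit 0), (nat_lit 1000, nat_lit 983, nat_lit 83)], (nat_lit 97, nat_lit 100, nat_lit 20)⟩
noncomputable def p009_k53 : C1.Kn := ⟨[nat_lit 80, nat_lit 90, nat_lit 110], [nat_lit 0, nat_lit 32, nat_lit 292], [(nat_lit 0, nat_lit 0, nat_lit 0), (nat_lit 1000, nat_lit 990, nat_lit 51), (nat_lit 1000, nat_lit 975, nat_lit 203)], (nat_lit 98, nat_lit 100, nat_lit 28)⟩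
noncomputable def p009_k54 : C1.Kn := ⟨[nat_lit 50, nat_lit 90, nat_lit 110], [nat_lit 0, nat_lit 0, nat_lit 129], [(nat_lit 0, nat_lit 0, nat_lit 0), (nat_lit 0, nat_lit 0, nat_lit 0), (nat_lit 1000, nat_lit 990, nat_lit 101)], (nat_lit 99, nat_lit 100, nat_lit 20)⟩
noncomputable def p009_k55 : C1.Kn := ⟨[nat_lit 40, nat_lit 80, nat_lit 100], [nat_lit 0, nat_lit 0, nat_lit 0], [(nat_lit 0, nat_lit 0, nat_lit 0), (nat_lit 0, nat_lit 0, nat_lit 0), (nat_lit 0, nat_lit 0, nat_lit 0)], (nat_lit 98, nat_lit 100, nat_lit 20)⟩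
noncomputable def p009_k56 : C1.Kn := ⟨[nat_lit 50, nat_lit 90, nat_lit 110], [nat_lit 0, nat_lit 0, nat_lit 192], [(nat_lit 0, nat_lit 0, nat_lit 0), (nat_lit 0, nat_lit 0, nat_lit 0), (nat_lit 1000, nat_lit 985, nat_lit 150)], (nat_lit 98, nat_lit 100, nat_lit 20)⟩
noncomputable def p009_k57 : C1.Kn := ⟨[nat_lit 90, nat_lit 100, nat_lit 110], [nat_lit 0, nat_lit 96, nat_lit 225], [(nat_lit 0, nat_lit 0, nat_lit 0), (nat_lit 1000, nat_lit 985, nat_lit 147), (nat_lit 1000, nat_lit 985, nat_lit 202)], (nat_lit 98, nat_lit 100, nat_lit 20)⟩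
noncomputable def p009_k58 : C1.Kn := ⟨[nat_lit 90, nat_lit 100, nat_lit 110], [nat_lit 0, nat_lit 64, nat_lit 191], [(nat_lit 0, nat_lit 0, nat_lit 0), (nat_lit 1000, nat_lit 990, nat_lit 101), (nat_lit 1000, nat_lit 990, nat_lit 198)], (nat_lit 99, nat_lit 100, nat_lit 20)⟩
noncomputable def p009_k59 : C1.Kn := ⟨[nat_lit 80, nat_lit 100], [nat_lit 0, nat_lit 11], [(nat_lit 0, nat_lit 0, nat_lit 0), (nat_lit 1000, nat_lit 998, nat_lit 9)], (nat_lit 98, nat_lit 100, nat_lit 20)⟩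
noncomputable def p009_k60 : C1.Kn := ⟨[nat_lit 50, nat_lit 90, nat_lit 110], [nat_lit 0, nat_lit 0, nat_lit 141], [(nat_lit 0, nat_lit 0, nat_lit 0), (nat_lit 0, nat_lit 0, nat_lit 0), (nat_lit 1000, nat_lit 989, nat_lit 110)], (nat_lit 99, nat_lit 100, nat_lit 20)⟩
noncomputable def p009_k61 : C1.Kn := ⟨[nat_lit 90, nat_lit 100, nat_lit 110], [nat_lit 0, nat_lit 70, nat_lit 199], [(nat_lit 0, nat_lit 0, nat_lit 0), (nat_lit 1000, nat_lit 989, nat_lit 110), (nat_lit 1000, nat_lit 989, nat_lit 202)], (nat_lit 99, nat_lit 100, nat_lit 20)⟩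
noncomputable def p009_k62 : C1.Kn := ⟨[nat_lit 80, nat_lit 100], [nat_lit 0, nat_lit 24], [(nat_lit 0, nat_lit 0, nat_lit 0), (nat_lit 1000, nat_lit 996, nat_lit 19)], (nat_lit 98, nat_lit 100, nat_lit 20)⟩
noncomputable def p009_k63 : C1.Kn := ⟨[nat_lit 40, nat_lit 80, nat_lit 90, nat_lit 110], [nat_lit 0, nat_lit 0, nat_lit 0, nat_lit 141], [(nat_lit 0, nat_lit 0, nat_lit 0), (nat_lit 0, nat_lit 0, nat_lit 0), (nat_lit 0, nat_lit 0, nat_lit 0), (nat_lit 1000, nat_lit 989, nat_lit 110)], (nat_lit 99, nat_lit 100, nat_lit 20)⟩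
noncomputable def p009_k64 : C1.Kn := ⟨[nat_lit 50, nat_lit 90, nat_lit 110], [nat_lit 0, nat_lit 0, nat_lit 153], [(nat_lit 0, nat_lit 0, nat_lit 0), (nat_lit 0, nat_lit 0, nat_lit 0), (nat_lit 1000, nat_lit 988, nat_lit 119)], (nat_lit 99, nat_lit 100, nat_lit 20)⟩
noncomputable def p009_k65 : C1.Kn := ⟨[nat_lit 50, nat_lit 90, nat_lit 110], [nat_lit 0, nat_lit 0, nat_lit 166], [(nat_lit 0, nat_lit 0, nat_lit 0), (nat_lit 0, nat_lit 0, nat_lit 0), (nat_lit 1000, nat_lit 987, nat_lit 129)], (nat_lit 99, nat_lit 100, nat_lit 20)⟩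
noncomputable def p009_k66 : C1.Kn := ⟨[nat_lit 50, nat_lit 90, nat_lit 110], [nat_lit 0, nat_lit 0, nat_lit 180], [(nat_lit 0, nat_lit 0, nat_lit 0), (nat_lit 0, nat_lit 0, nat_lit 0), (nat_lit 1000, nat_lit 986, nat_lit 141)], (nat_lit 99, nat_lit 100, nat_lit 20)⟩
noncomputable def p009_k67 : C1.Kn := ⟨[nat_lit 50, nat_lit 90, nat_lit 110], [nat_lit 0, nat_lit 0, nat_lit 205], [(nat_lit 0, nat_lit 0, nat_lit 0), (nat_lit 0, nat_lit 0, nat_lit 0), (nat_lit 1000, nat_lit 984, nat_lit 160)], (nat_lit 98, nat_lit 100, nat_lit 20)⟩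
noncomputable def p009_k68 : C1.Kn := ⟨[nat_lit 40, nat_lit 80, nat_lit 90, nat_lit 110], [nat_lit 0, nat_lit 0, nat_lit 0, nat_lit 205], [(nat_lit 0, nat_lit 0, nat_lit 0), (nat_lit 0, nat_lit 0, nat_lit 0), (nat_lit 0, nat_lit 0, nat_lit 0), (nat_lit 1000, nat_lit 984, nat_lit 160)], (nat_lit 98, nat_lit 100, nat_lit 20)⟩
noncomputable def p009_k69 : C1.Kn := ⟨[nat_lit 50, nat_lit 90, nat_lit 110], [nat_lit 0, nat_lit 0, nat_lit 217], [(nat_lit 0, nat_lit 0, nat_lit 0), (nat_lit 0, nat_lit 0, nat_lit 0), (nat_lit 1000, nat_lit 983, nat_lit 169)], (nat_lit 98, nat_lit 100, nat_lit 20)⟩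
noncomputable def p009_k70 : C1.Kn := ⟨[nat_lit 50, nat_lit 90, nat_lit 110], [nat_lit 0, nat_lit 0, nat_lit 230], [(nat_lit 0, nat_lit 0, nat_lit 0), (nat_lit 0, nat_lit 0, nat_lit 0), (nat_lit 1000, nat_lit 982, nat_lit 179)], (nat_lit 98, nat_lit 100, nat_lit 20)⟩
noncomputable def p009_k71 : C1.Kn := ⟨[nat_lit 50, nat_lit 90, nat_lit 110], [nat_lit 0, nat_lit 0, nat_lit 245], [(nat_lit 0, nat_lit 0, nat_lit 0), (nat_lit 0, nat_lit 0, nat_lit 0), (nat_lit 1000, nat_lit 981, nat_lit 191)], (nat_lit 98, nat_lit 100, nat_lit 20)⟩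
noncomputable def p009_k72 : C1.Kn := ⟨[nat_lit 40, nat_lit 80, nat_lit 100], [nat_lit 0, nat_lit 0, nat_lit 36], [(nat_lit 0, nat_lit 0, nat_lit 0), (nat_lit 0, nat_lit 0, nat_lit 0), (nat_lit 1000, nat_lit 994, nat_lit 28)], (nat_lit 98, nat_lit 100, nat_lit 20)⟩
noncomputable def p009_k73 : C1.Kn := ⟨[nat_lit 80, nat_lit 100], [nat_lit 0, nat_lit 36], [(nat_lit 0, nat_lit 0, nat_lit 0), (nat_lit 1000, nat_lit 994, nat_lit 28)], (nat_lit 98, nat_lit 100, nat_lit 20)⟩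
noncomputable def p009_k74 : C1.Kn := ⟨[nat_lit 80, nat_lit 100], [nat_lit 0, nat_lit 52], [(nat_lit 0, nat_lit 0, nat_lit 0), (nat_lit 1000, nat_lit 992, nat_lit 41)], (nat_lit 98, nat_lit 100, nat_lit 20)⟩
noncomputable def p009_k75 : C1.Kn := ⟨[nat_lit 80, nat_lit 90, nat_lit 110], [nat_lit 0, nat_lit 0, nat_lit 257], [(nat_lit 0, nat_lit 0, nat_lit 0), (nat_lit 0, nat_lit 0, nat_lit 0), (nat_lit 1000, nat_lit 980, nat_lit 201)], (nat_lit 98, nat_lit 100, nat_lit 28)⟩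
noncomputable def p009_k76 : C1.Kn := ⟨[nat_lit 80, nat_lit 90, nat_lit 110], [nat_lit 0, nat_lit 18, nat_lit 279], [(nat_lit 0, nat_lit 0, nat_lit 0), (nat_lit 1000, nat_lit 994, nat_lit 28), (nat_lit 1000, nat_lit 977, nat_lit 204)], (nat_lit 98, nat_lit 100, nat_lit 28)⟩
noncomputable def p009_k77 : C1.Kn := ⟨[nat_lit 80, nat_lit 120], [nat_lit 0, nat_lit 0], [(nat_lit 0, nat_lit 0, nat_lit 0), (nat_lit 0, nat_lit 0, nat_lit 0)], (nat_lit 98, nat_lit 100, nat_lit 28)⟩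
noncomputable def p009_l0 : Lf2 := ⟨nat_lit 0, nat_lit 2, [nat_lit 10, nat_lit 5, nat_lit 5, nat_lit 20], true, nat_lit 0, nat_lit 0, nat_lit 0, nat_lit 0, ⟨nat_lit 0, nat_lit 0, nat_lit 1000, nat_lit 5, nat_lit 73, nat_lit 0, nat_lit 0, nat_lit 0, nat_lit 0, nat_lit 215, nat_lit 50417, nat_lit 270, nat_lit 64828895, nat_lit 0, nat_lit 0, nat_lit 714997, false, false⟩,
 nat_lit 0, nat_lit 100000, nat_lit 0, nat_lit 0, nat_lit 54243, nat_lit 0, nat_lit 19490, nat_lit 3696, nat_lit 0, nat_lit 0, nat_lit 0, nat_lit 0, nat_lit 0, nat_lit 0, nat_lit 0, nat_lit 1000000, nat_lit 0, nat_lit 0, [(nat_lit 6, [(nat_lit 6, nat_lit 1000)])],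
 ⟨p009_k0, nat_lit 0, nat_lit 0, nat_lit 324, nat_lit 0, nat_lit 300818, [nat_lit 60113066667, nat_lit 73728000000, nat_lit 86995200000], [], [nat_lit 164767070513, nat_lit 161830221955, nat_lit 147687911775, nat_lit 148858976313], nat_lit 1271250, nat_lit 1271250, nat_lit 65850, nat_lit 230001, nat_lit 0, nat_lit 0, [nat_lit 1100000, nat_lit 1442500, nat_lit 1271250], [nat_lit 9, nat_lit 40, nat_lit 20, nat_lit 80, nat_lit 2, nat_lit 215, nat_lit 10, nat_lit 8]⟩, C1.Rw.none,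
 ⟨nat_lit 6123, nat_lit 6225, ⟨.ofNat (nat_lit 149840), .ofNat (nat_lit 206763), .ofNat (nat_lit 155180), .ofNat (nat_lit 212102), .ofNat (nat_lit 154231), .ofNat (nat_lit 210498), .ofNat (nat_lit 159568), .ofNat (nat_lit 215835)⟩, ⟨.ofNat (nat_lit 0), .ofNat (nat_lit 0), .ofNat (nat_lit 0), .ofNat (nat_lit 0), .ofNat (nat_lit 0), .ofNat (nat_lit 0), .ofNat (nat_lit 0), .ofNat (nat_lit 0)⟩⟩, [⟨nat_lit 0, nat_lit 100, nat_lit 98, nat_lit 40, nat_lit 2472039267⟩]⟩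
noncomputable def p009_l1 : Lf2 := ⟨nat_lit 0, nat_lit 2, [nat_lit 10, nat_lit 5, nat_lit 5, nat_lit 20], true, nat_lit 0, nat_lit 0, nat_lit 0, nat_lit 0, ⟨nat_lit 0, nat_lit 0, nat_lit 1000, nat_lit 5, nat_lit 73, nat_lit 0, nat_lit 0, nat_lit 0, nat_lit 0, nat_lit 215, nat_lit 50417, nat_lit 270, nat_lit 64827382, nat_lit 0, nat_lit 0, nat_lit 715381, false, false⟩,
 nat_lit 0, nat_lit 100000, nat_lit 0, nat_lit 0, nat_lit 54243, nat_lit 0, nat_lit 19487, nat_lit 3662, nat_lit 0, nat_lit 0, nat_lit 0, nat_lit 0, nat_lit 0, nat_lit 0, nat_lit 0, nat_lit 1000000, nat_lit 0, nat_lit 0, [(nat_lit 6, [(nat_lit 6, nat_lit 1000)])],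
 ⟨p009_k0, nat_lit 0, nat_lit 0, nat_lit 319, nat_lit 0, nat_lit 306621, [nat_lit 59569066667, nat_lit 73048000000, nat_lit 86179200000], [], [nat_lit 157288754355, nat_lit 156146891372, nat_lit 148378557701, nat_lit 148851125168], nat_lit 1271250, nat_lit 1271250, nat_lit 88400, nat_lit 181601, nat_lit 0, nat_lit 0, [nat_lit 1100000, nat_lit 1442500, nat_lit 1271250], [nat_lit 9, nat_lit 40, nat_lit 20, nat_lit 80, nat_lit 2, nat_lit 215, nat_lit 10, nat_lit 8]⟩, C1.Rw.none,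
 ⟨nat_lit 6184, nat_lit 6225, ⟨.ofNat (nat_lit 163311), .ofNat (nat_lit 195838), .ofNat (nat_lit 168651), .ofNat (nat_lit 201178), .ofNat (nat_lit 165034), .ofNat (nat_lit 197411), .ofNat (nat_lit 170372), .ofNat (nat_lit 202749)⟩, ⟨.ofNat (nat_lit 0), .ofNat (nat_lit 0), .ofNat (nat_lit 0), .ofNat (nat_lit 0), .ofNat (nat_lit 0), .ofNat (nat_lit 0), .ofNat (nat_lit 0), .ofNat (nat_lit 0)⟩⟩, [⟨nat_lit 0, nat_lit 100, nat_lit 99, nat_lit 42, nat_lit 2412668150⟩]⟩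
noncomputable def p009_l2 : Lf2 := ⟨nat_lit 0, nat_lit 2, [nat_lit 10, nat_lit 5, nat_lit 5, nat_lit 20], true, nat_lit 0, nat_lit 0, nat_lit 0, nat_lit 0, ⟨nat_lit 0, nat_lit 0, nat_lit 1000, nat_lit 5, nat_lit 74, nat_lit 0, nat_lit 0, nat_lit 0, nat_lit 0, nat_lit 215, nat_lit 50417, nat_lit 270, nat_lit 64798953, nat_lit 0, nat_lit 0, nat_lit 722572, false, false⟩,
 nat_lit 0, nat_lit 100000, nat_lit 0, nat_lit 0, nat_lit 54767, nat_lit 0, nat_lit 39966, nat_lit 3979, nat_lit 0, nat_lit 0, nat_lit 0, nat_lit 0, nat_lit 0, nat_lit 0, nat_lit 0, nat_lit 1000000, nat_lit 0, nat_lit 0, [(nat_lit 6, [(nat_lit 6, nat_lit 1000)])],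
 ⟨p009_k1, nat_lit 0, nat_lit 0, nat_lit 320, nat_lit 0, nat_lit 307612, [nat_lit 64641066667, nat_lit 79388000001, nat_lit 93787199999], [], [nat_lit 157099088547, nat_lit 157336743869, nat_lit 149726281191, nat_lit 149964582073], nat_lit 1271250, nat_lit 1271250, nat_lit 88400, nat_lit 181601, nat_lit 0, nat_lit 0, [nat_lit 1100000, nat_lit 1442500, nat_lit 1271250], [nat_lit 9, nat_lit 40, nat_lit 20, nat_lit 80, nat_lit 2, nat_lit 215, nat_lit 10, nat_lit 8]⟩, C1.Rw.none,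
 ⟨nat_lit 6164, nat_lit 6185, ⟨.ofNat (nat_lit 165034), .ofNat (nat_lit 197411), .ofNat (nat_lit 170372), .ofNat (nat_lit 202749), .ofNat (nat_lit 165893), .ofNat (nat_lit 198195), .ofNat (nat_lit 171231), .ofNat (nat_lit 203533)⟩, ⟨.ofNat (nat_lit 0), .ofNat (nat_lit 0), .ofNat (nat_lit 0), .ofNat (nat_lit 0), .ofNat (nat_lit 0), .ofNat (nat_lit 0), .ofNat (nat_lit 0), .ofNat (nat_lit 0)⟩⟩, [⟨nat_lit 0, nat_lit 100, nat_lit 99, nat_lit 44, nat_lit 2436638180⟩]⟩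
noncomputable def p009_l3 : Lf2 := ⟨nat_lit 0, nat_lit 2, [nat_lit 10, nat_lit 5, nat_lit 5, nat_lit 20], true, nat_lit 0, nat_lit 0, nat_lit 0, nat_lit 0, ⟨nat_lit 0, nat_lit 0, nat_lit 1000, nat_lit 5, nat_lit 74, nat_lit 0, nat_lit 0, nat_lit 0, nat_lit 0, nat_lit 215, nat_lit 52267, nat_lit 271, nat_lit 64770457, nat_lit 0, nat_lit 0, nat_lit 729751, false, false⟩,
 nat_lit 0, nat_lit 100000, nat_lit 0, nat_lit 0, nat_lit 55029, nat_lit 0, nat_lit 60000, nat_lit 3585, nat_lit 0, nat_lit 0, nat_lit 0, nat_lit 0, nat_lit 0, nat_lit 0, nat_lit 0, nat_lit 1000000, nat_lit 0, nat_lit 0, [(nat_lit 6, [(nat_lit 6, nat_lit 1000)])],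
 ⟨p009_k2, nat_lit 0, nat_lit 0, nat_lit 324, nat_lit 0, nat_lit 314063, [nat_lit 58337066667, nat_lit 71508000000, nat_lit 84331200000], [], [nat_lit 116057226741, nat_lit 113250534228, nat_lit 97852216259, nat_lit 98394232807], nat_lit 1271250, nat_lit 1271250, nat_lit 88400, nat_lit 181601, nat_lit 0, nat_lit 0, [nat_lit 1100000, nat_lit 1442500, nat_lit 1271250], [nat_lit 9, nat_lit 40, nat_lit 20, nat_lit 80, nat_lit 2, nat_lit 215, nat_lit 10, nat_lit 8]⟩, C1.Rw.none,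
 ⟨nat_lit 6123, nat_lit 6165, ⟨.ofNat (nat_lit 165893), .ofNat (nat_lit 198195), .ofNat (nat_lit 171231), .ofNat (nat_lit 203533), .ofNat (nat_lit 167607), .ofNat (nat_lit 199759), .ofNat (nat_lit 172944), .ofNat (nat_lit 205096)⟩, ⟨.ofNat (nat_lit 0), .ofNat (nat_lit 0), .ofNat (nat_lit 0), .ofNat (nat_lit 0), .ofNat (nat_lit 0), .ofNat (nat_lit 0), .ofNat (nat_lit 0), .ofNat (nat_lit 0)⟩⟩, []⟩
noncomputable def p009_l4 : Lf2 := ⟨nat_lit 0, nat_lit 2, [nat_lit 10, nat_lit 5, nat_lit 5, nat_lit 20], true, nat_lit 0, nat_lit 0, nat_lit 0, nat_lit 0, ⟨nat_lit 0, nat_lit 0, nat_lit 1000, nat_lit 5, nat_lit 83, nat_lit 0, nat_lit 0, nat_lit 0, nat_lit 0, nat_lit 215, nat_lit 66150, nat_lit 278, nat_lit 64207353, nat_lit 0, nat_lit 0, nat_lit 866242, false, false⟩,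
 nat_lit 0, nat_lit 100000, nat_lit 0, nat_lit 0, nat_lit 54243, nat_lit 0, nat_lit 17012, nat_lit 5618, nat_lit 0, nat_lit 0, nat_lit 0, nat_lit 0, nat_lit 0, nat_lit 0, nat_lit 0, nat_lit 1000000, nat_lit 0, nat_lit 0, [(nat_lit 6, [(nat_lit 6, nat_lit 1000)])],
 ⟨p009_k0, nat_lit 0, nat_lit 0, nat_lit 309, nat_lit 0, nat_lit 318731, [nat_lit 90865066667, nat_lit 112168000001, nat_lit 133123199999], [], [nat_lit 283522872220, nat_lit 279674535823, nat_lit 275214752958, nat_lit 276414057515], nat_lit 1271250, nat_lit 1271250, nat_lit 181601, nat_lit 230001, nat_lit 0, nat_lit 0, [nat_lit 1100000, nat_lit 1442500, nat_lit 1271250], [nat_lit 9, nat_lit 40, nat_lit 20, nat_lit 80, nat_lit 2, nat_lit 215, nat_lit 10, nat_lit 8]⟩, C1.Rw.none,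
 ⟨nat_lit 6123, nat_lit 6225, ⟨.ofNat (nat_lit 195838), .ofNat (nat_lit 212102), .ofNat (nat_lit 201178), .ofNat (nat_lit 217441), .ofNat (nat_lit 199759), .ofNat (nat_lit 215835), .ofNat (nat_lit 205096), .ofNat (nat_lit 221172)⟩, ⟨.ofNat (nat_lit 0), .ofNat (nat_lit 0), .ofNat (nat_lit 0), .ofNat (nat_lit 0), .ofNat (nat_lit 0), .ofNat (nat_lit 0), .ofNat (nat_lit 0), .ofNat (nat_lit 0)⟩⟩, []⟩
noncomputable def b_NL_600_550_0_6 : St := ⟨false, nat_lit 1, nat_lit 0, nat_lit 1, nat_lit 20, nat_lit 245, nat_lit 250, nat_lit 230, nat_lit 240, nat_lit 12, nat_lit 40, nat_lit 0, nat_lit 0, nat_lit 0, nat_lit 0, nat_lit 0, nat_lit 0, nat_lit 4, nat_lit 8, nat_lit 600, nat_lit 0, nat_lit 200, nat_lit 300⟩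
theorem d_NL_600_550_0_6 (h : EB TB.env) : Dead b_NL_600_550_0_6 := chkB_sound0 h (T :=
(.spl (nat_lit 1) (nat_lit 235)
(.leaf p009_l0)
(.trZ (nat_lit 0) (nat_lit 100) (nat_lit 99) (nat_lit 40) (nat_lit 16) (.spl (nat_lit 2) (nat_lit 32)
(.spl (nat_lit 0) (nat_lit 248)
(.spl (nat_lit 0) (nat_lit 247)
(.leaf p009_l1)
(.leaf p009_l2))
(.leaf p009_l3))
(.leaf p009_l4))))) (by decide +kernel)
noncomputable def p009_l5 : Lf2 := ⟨nat_lit 0, nat_lit 4, [nat_lit 38, nat_lit 5, nat_lit 5, nat_lit 20], true, nat_lit 0, nat_lit 0, nat_lit 0, nat_lit 0, ⟨nat_lit 0, nat_lit 0, nat_lit 1000, nat_lit 5, nat_lit 68, nat_lit 0, nat_lit 0, nat_lit 0, nat_lit 0, nat_lit 215, nat_lit 43350, nat_lit 266, nat_lit 65142181, nat_lit 0, nat_lit 0, nat_lit 633750, false, false⟩,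
 nat_lit 0, nat_lit 7730, nat_lit 0, nat_lit 0, nat_lit 4092, nat_lit 0, nat_lit 0, nat_lit 0, nat_lit 0, nat_lit 0, nat_lit 0, nat_lit 0, nat_lit 0, nat_lit 0, nat_lit 80, nat_lit 1000000, nat_lit 0, nat_lit 0, [(nat_lit 6, [(nat_lit 6, nat_lit 1000)])],
 ⟨p009_k3, nat_lit 0, nat_lit 0, nat_lit 0, nat_lit 0, nat_lit 261326, [nat_lit 2257066667, nat_lit 2006400000, nat_lit 809600000, nat_lit 2000000], [], [nat_lit 13201080335, nat_lit 13749250607, nat_lit 12907473371, nat_lit 12880802807], nat_lit 1271250, nat_lit 1271250, nat_lit 43600, nat_lit 230001, nat_lit 0, nat_lit 0, [nat_lit 1100000, nat_lit 1271250, nat_lit 1271250, nat_lit 1271250], [nat_lit 129, nat_lit 40, nat_lit 20, nat_lit 40]⟩, C1.Rw.none,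
 ⟨nat_lit 6123, nat_lit 6325, ⟨.ofNat (nat_lit 126498), .ofNat (nat_lit 192309), .ofNat (nat_lit 137182), .ofNat (nat_lit 202993), .ofNat (nat_lit 135519), .ofNat (nat_lit 199824), .ofNat (nat_lit 146193), .ofNat (nat_lit 210498)⟩, ⟨.ofNat (nat_lit 0), .ofNat (nat_lit 0), .ofNat (nat_lit 0), .ofNat (nat_lit 0), .ofNat (nat_lit 0), .ofNat (nat_lit 0), .ofNat (nat_lit 0), .ofNat (nat_lit 0)⟩⟩, [⟨nat_lit 0, nat_lit 100, nat_lit 98, nat_lit 40, nat_lit 169552421⟩]⟩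
noncomputable def p009_l6 : Lf2 := ⟨nat_lit 0, nat_lit 4, [nat_lit 38, nat_lit 5, nat_lit 5, nat_lit 20], true, nat_lit 0, nat_lit 0, nat_lit 0, nat_lit 0, ⟨nat_lit 0, nat_lit 0, nat_lit 1000, nat_lit 5, nat_lit 68, nat_lit 0, nat_lit 0, nat_lit 0, nat_lit 0, nat_lit 215, nat_lit 43350, nat_lit 266, nat_lit 65142181, nat_lit 0, nat_lit 0, nat_lit 633750, false, false⟩,
 nat_lit 0, nat_lit 100000, nat_lit 0, nat_lit 0, nat_lit 52941, nat_lit 0, nat_lit 580, nat_lit 2988, nat_lit 0, nat_lit 0, nat_lit 0, nat_lit 0, nat_lit 0, nat_lit 0, nat_lit 0, nat_lit 1000000, nat_lit 0, nat_lit 0, [(nat_lit 6, [(nat_lit 6, nat_lit 1000)])],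
 ⟨p009_k4, nat_lit 0, nat_lit 0, nat_lit 313, nat_lit 0, nat_lit 261326, [nat_lit 48785066667, nat_lit 59568000001, nat_lit 70003199999], [], [nat_lit 146566449460, nat_lit 140068816823, nat_lit 122996853488, nat_lit 124963291874], nat_lit 1271250, nat_lit 1271250, nat_lit 43600, nat_lit 230001, nat_lit 0, nat_lit 0, [nat_lit 1100000, nat_lit 1442500, nat_lit 1271250], [nat_lit 9, nat_lit 40, nat_lit 20, nat_lit 80, nat_lit 2, nat_lit 215, nat_lit 10, nat_lit 8]⟩, C1.Rw.none,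
 ⟨nat_lit 6123, nat_lit 6325, ⟨.ofNat (nat_lit 126498), .ofNat (nat_lit 192309), .ofNat (nat_lit 137182), .ofNat (nat_lit 202993), .ofNat (nat_lit 135519), .ofNat (nat_lit 199824), .ofNat (nat_lit 146193), .ofNat (nat_lit 210498)⟩, ⟨.ofNat (nat_lit 0), .ofNat (nat_lit 0), .ofNat (nat_lit 0), .ofNat (nat_lit 0), .ofNat (nat_lit 0), .ofNat (nat_lit 0), .ofNat (nat_lit 0), .ofNat (nat_lit 0)⟩⟩, [⟨nat_lit 0, nat_lit 100, nat_lit 98, nat_lit 35, nat_lit 2513989459⟩]⟩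
noncomputable def p009_l7 : Lf2 := ⟨nat_lit 0, nat_lit 4, [nat_lit 38, nat_lit 5, nat_lit 5, nat_lit 20], true, nat_lit 0, nat_lit 0, nat_lit 0, nat_lit 0, ⟨nat_lit 0, nat_lit 0, nat_lit 1000, nat_lit 5, nat_lit 73, nat_lit 0, nat_lit 0, nat_lit 0, nat_lit 0, nat_lit 215, nat_lit 48600, nat_lit 269, nat_lit 64861169, nat_lit 0, nat_lit 0, nat_lit 706798, false, false⟩,
 nat_lit 0, nat_lit 7988, nat_lit 0, nat_lit 0, nat_lit 4228, nat_lit 0, nat_lit 0, nat_lit 0, nat_lit 0, nat_lit 0, nat_lit 0, nat_lit 0, nat_lit 0, nat_lit 0, nat_lit 80, nat_lit 1000000, nat_lit 0, nat_lit 0, [(nat_lit 6, [(nat_lit 6, nat_lit 1000)])],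
 ⟨p009_k3, nat_lit 0, nat_lit 0, nat_lit 0, nat_lit 0, nat_lit 277268, [nat_lit 2257066667, nat_lit 2006400000, nat_lit 809600000, nat_lit 2000000], [], [nat_lit 12829185759, nat_lit 13090236233, nat_lit 12646327803, nat_lit 12348270949], nat_lit 1271250, nat_lit 1271250, nat_lit 65850, nat_lit 230001, nat_lit 0, nat_lit 0, [nat_lit 1100000, nat_lit 1271250, nat_lit 1271250, nat_lit 1271250], [nat_lit 129, nat_lit 40, nat_lit 20, nat_lit 40]⟩, C1.Rw.none,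
 ⟨nat_lit 6224, nat_lit 6325, ⟨.ofNat (nat_lit 145408), .ofNat (nat_lit 202993), .ofNat (nat_lit 156092), .ofNat (nat_lit 213677), .ofNat (nat_lit 149840), .ofNat (nat_lit 206763), .ofNat (nat_lit 160519), .ofNat (nat_lit 217441)⟩, ⟨.ofNat (nat_lit 0), .ofNat (nat_lit 0), .ofNat (nat_lit 0), .ofNat (nat_lit 0), .ofNat (nat_lit 0), .ofNat (nat_lit 0), .ofNat (nat_lit 0), .ofNat (nat_lit 0)⟩⟩, [⟨nat_lit 0, nat_lit 100, nat_lit 99, nat_lit 42, nat_lit 148233526⟩]⟩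
noncomputable def p009_l8 : Lf2 := ⟨nat_lit 0, nat_lit 4, [nat_lit 38, nat_lit 5, nat_lit 5, nat_lit 20], true, nat_lit 0, nat_lit 0, nat_lit 0, nat_lit 0, ⟨nat_lit 0, nat_lit 0, nat_lit 1000, nat_lit 5, nat_lit 73, nat_lit 0, nat_lit 0, nat_lit 0, nat_lit 0, nat_lit 215, nat_lit 48600, nat_lit 269, nat_lit 64861169, nat_lit 0, nat_lit 0, nat_lit 706798, false, false⟩,
 nat_lit 0, nat_lit 100000, nat_lit 0, nat_lit 0, nat_lit 52941, nat_lit 0, nat_lit 0, nat_lit 3010, nat_lit 0, nat_lit 0, nat_lit 0, nat_lit 0, nat_lit 0, nat_lit 0, nat_lit 0, nat_lit 1000000, nat_lit 0, nat_lit 0, [(nat_lit 6, [(nat_lit 6, nat_lit 1000)])],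
 ⟨p009_k4, nat_lit 0, nat_lit 0, nat_lit 312, nat_lit 0, nat_lit 277268, [nat_lit 49137066667, nat_lit 60008000001, nat_lit 70531199999], [], [nat_lit 142346754691, nat_lit 139419209314, nat_lit 125683040988, nat_lit 126666260181], nat_lit 1271250, nat_lit 1271250, nat_lit 65850, nat_lit 230001, nat_lit 0, nat_lit 0, [nat_lit 1100000, nat_lit 1442500, nat_lit 1271250], [nat_lit 9, nat_lit 40, nat_lit 20, nat_lit 80, nat_lit 2, nat_lit 215, nat_lit 10, nat_lit 8]⟩, C1.Rw.none,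
 ⟨nat_lit 6224, nat_lit 6325, ⟨.ofNat (nat_lit 145408), .ofNat (nat_lit 202993), .ofNat (nat_lit 156092), .ofNat (nat_lit 213677), .ofNat (nat_lit 149840), .ofNat (nat_lit 206763), .ofNat (nat_lit 160519), .ofNat (nat_lit 217441)⟩, ⟨.ofNat (nat_lit 0), .ofNat (nat_lit 0), .ofNat (nat_lit 0), .ofNat (nat_lit 0), .ofNat (nat_lit 0), .ofNat (nat_lit 0), .ofNat (nat_lit 0), .ofNat (nat_lit 0)⟩⟩, [⟨nat_lit 0, nat_lit 100, nat_lit 99, nat_lit 39, nat_lit 2409895358⟩]⟩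
noncomputable def p009_l9 : Lf2 := ⟨nat_lit 0, nat_lit 4, [nat_lit 38, nat_lit 5, nat_lit 5, nat_lit 20], false, nat_lit 0, nat_lit 0, nat_lit 0, nat_lit 0, ⟨nat_lit 1000, nat_lit 0, nat_lit 0, nat_lit 0, nat_lit 0, nat_lit 0, nat_lit 0, nat_lit 0, nat_lit 0, nat_lit 0, nat_lit 0, nat_lit 0, nat_lit 0, nat_lit 0, nat_lit 0, nat_lit 0, false, false⟩,
 nat_lit 0, nat_lit 19676, nat_lit 0, nat_lit 0, nat_lit 10672, nat_lit 8434, nat_lit 0, nat_lit 0, nat_lit 0, nat_lit 3329, nat_lit 0, nat_lit 0, nat_lit 0, nat_lit 0, nat_lit 0, nat_lit 0, nat_lit 0, nat_lit 0, [],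
 ⟨p009_k5, nat_lit 0, nat_lit 0, nat_lit 320, nat_lit 0, nat_lit 291225, [nat_lit 4688000000, nat_lit 6250000000, nat_lit 7968000000], [], [nat_lit 26389860423, nat_lit 26715530860, nat_lit 23628999324, nat_lit 24006674616], nat_lit 1271250, nat_lit 1271250, nat_lit 65850, nat_lit 230001, nat_lit 0, nat_lit 0, [nat_lit 1100000, nat_lit 1442500, nat_lit 1271250], [nat_lit 9, nat_lit 40, nat_lit 20, nat_lit 80, nat_lit 2, nat_lit 215, nat_lit 10, nat_lit 8]⟩, ⟨p009_k6, nat_lit 0, nat_lit 0, nat_lit 0, nat_lit 0, nat_lit 0, [nat_lit 5449500000, nat_lit 7089500000, nat_lit 8885500000], [], [nat_lit 19951198428, nat_lit 20809660477, nat_lit 17636799399, nat_lit 18438610723], nat_lit 0, nat_lit 0, nat_lit 0, nat_lit 0, nat_lit 0, nat_lit 0, [], [nat_lit 96, nat_lit 40, nat_lit 20, nat_lit 40]⟩,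
 zbF0, [⟨nat_lit 0, nat_lit 100, nat_lit 99, nat_lit 37, nat_lit 1705268835⟩]⟩
noncomputable def p009_l10 : Lf2 := ⟨nat_lit 0, nat_lit 5, [nat_lit 4, nat_lit 5, nat_lit 5, nat_lit 20], true, nat_lit 0, nat_lit 0, nat_lit 0, nat_lit 0, ⟨nat_lit 0, nat_lit 0, nat_lit 1000, nat_lit 5, nat_lit 70, nat_lit 0, nat_lit 0, nat_lit 0, nat_lit 0, nat_lit 215, nat_lit 45067, nat_lit 267, nat_lit 65026360, nat_lit 0, nat_lit 0, nat_lit 664228, false, false⟩,
 nat_lit 0, nat_lit 7391, nat_lit 0, nat_lit 0, nat_lit 3912, nat_lit 0, nat_lit 203, nat_lit 0, nat_lit 0, nat_lit 0, nat_lit 0, nat_lit 0, nat_lit 0, nat_lit 0, nat_lit 122, nat_lit 1000000, nat_lit 0, nat_lit 0, [(nat_lit 6, [(nat_lit 6, nat_lit 1000)])],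
 ⟨p009_k7, nat_lit 0, nat_lit 0, nat_lit 0, nat_lit 0, nat_lit 234127, [nat_lit 2196800001, nat_lit 2792800001, nat_lit 2248000001, nat_lit 1219200001, nat_lit 20000000], [], [nat_lit 12700004400, nat_lit 13261270409, nat_lit 11934120547, nat_lit 12303457833], nat_lit 1271250, nat_lit 1271250, nat_lit 43600, nat_lit 230001, nat_lit 0, nat_lit 0, [nat_lit 780000, nat_lit 1100000, nat_lit 1442500, nat_lit 1271250, nat_lit 1271250], [nat_lit 251, nat_lit 10, nat_lit 4, nat_lit 20]⟩, C1.Rw.none,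
 ⟨nat_lit 6123, nat_lit 6325, ⟨.ofNat (nat_lit 126498), .ofNat (nat_lit 192309), .ofNat (nat_lit 147866), .ofNat (nat_lit 213677), .ofNat (nat_lit 135519), .ofNat (nat_lit 199824), .ofNat (nat_lit 156867), .ofNat (nat_lit 221172)⟩, ⟨.ofNat (nat_lit 0), .ofNat (nat_lit 0), .ofNat (nat_lit 0), .ofNat (nat_lit 0), .ofNat (nat_lit 0), .ofNat (nat_lit 0), .ofNat (nat_lit 0), .ofNat (nat_lit 0)⟩⟩, [⟨nat_lit 0, nat_lit 100, nat_lit 99, nat_lit 37, nat_lit 231829266⟩]⟩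
noncomputable def p009_l11 : Lf2 := ⟨nat_lit 0, nat_lit 5, [nat_lit 4, nat_lit 5, nat_lit 5, nat_lit 20], true, nat_lit 0, nat_lit 0, nat_lit 0, nat_lit 0, ⟨nat_lit 0, nat_lit 0, nat_lit 1000, nat_lit 5, nat_lit 70, nat_lit 0, nat_lit 0, nat_lit 0, nat_lit 0, nat_lit 215, nat_lit 45067, nat_lit 267, nat_lit 65026360, nat_lit 0, nat_lit 0, nat_lit 664228, false, false⟩,
 nat_lit 0, nat_lit 100000, nat_lit 0, nat_lit 0, nat_lit 52941, nat_lit 0, nat_lit 2910, nat_lit 2508, nat_lit 0, nat_lit 0, nat_lit 0, nat_lit 0, nat_lit 0, nat_lit 0, nat_lit 0, nat_lit 1000000, nat_lit 0, nat_lit 0, [(nat_lit 6, [(nat_lit 6, nat_lit 1000)])],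
 ⟨p009_k8, nat_lit 0, nat_lit 0, nat_lit 370, nat_lit 0, nat_lit 234127, [nat_lit 41105066667, nat_lit 50262400001, nat_lit 66285599999], [], [nat_lit 120275249460, nat_lit 114773245034, nat_lit 95286991305, nat_lit 97460905397], nat_lit 1271250, nat_lit 1271250, nat_lit 43600, nat_lit 230001, nat_lit 0, nat_lit 0, [nat_lit 1100000, nat_lit 1442500, nat_lit 1271250], [nat_lit 11, nat_lit 40, nat_lit 20, nat_lit 80, nat_lit 1, nat_lit 289, nat_lit 75, nat_lit 9]⟩, C1.Rw.none,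
 ⟨nat_lit 6123, nat_lit 6325, ⟨.ofNat (nat_lit 126498), .ofNat (nat_lit 192309), .ofNat (nat_lit 147866), .ofNat (nat_lit 213677), .ofNat (nat_lit 135519), .ofNat (nat_lit 199824), .ofNat (nat_lit 156867), .ofNat (nat_lit 221172)⟩, ⟨.ofNat (nat_lit 0), .ofNat (nat_lit 0), .ofNat (nat_lit 0), .ofNat (nat_lit 0), .ofNat (nat_lit 0), .ofNat (nat_lit 0), .ofNat (nat_lit 0), .ofNat (nat_lit 0)⟩⟩, [⟨nat_lit 0, nat_lit 100, nat_lit 99, nat_lit 45, nat_lit 2838092154⟩]⟩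
noncomputable def b_NL_600_550_0_7 : St := ⟨false, nat_lit 1, nat_lit 0, nat_lit 1, nat_lit 20, nat_lit 240, nat_lit 250, nat_lit 220, nat_lit 240, nat_lit 8, nat_lit 40, nat_lit 0, nat_lit 0, nat_lit 0, nat_lit 0, nat_lit 0, nat_lit 0, nat_lit 8, nat_lit 20, nat_lit 0, nat_lit 0, nat_lit 200, nat_lit 400⟩
theorem d_NL_600_550_0_7 (h : EB TB.env) : Dead b_NL_600_550_0_7 := chkB_sound0 h (T :=
(.spl (nat_lit 6) (nat_lit 16)
(.spl (nat_lit 1) (nat_lit 230)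
(.spl (nat_lit 7) (nat_lit 600)
(.leaf p009_l5)
(.leaf p009_l6))
(.trZ (nat_lit 0) (nat_lit 100) (nat_lit 99) (nat_lit 35) (nat_lit 12) (.spl (nat_lit 0) (nat_lit 245)
(.spl (nat_lit 7) (nat_lit 600)
(.leaf p009_l7)
(.leaf p009_l8))
(.leaf p009_l9))))
(.spl (nat_lit 7) (nat_lit 600)
(.leaf p009_l10)
(.leaf p009_l11)))) (by decide +kernel)
noncomputable def p009_l12 : Lf2 := ⟨nat_lit 0, nat_lit 1, [nat_lit 19, nat_lit 5, nat_lit 5, nat_lit 20], true, nat_lit 0, nat_lit 0, nat_lit 0, nat_lit 0, ⟨nat_lit 0, nat_lit 0, nat_lit 1000, nat_lit 5, nat_lit 72, nat_lit 0, nat_lit 0, nat_lit 0, nat_lit 0, nat_lit 215, nat_lit 48600, nat_lit 269, nat_lit 64873744, nat_lit 0, nat_lit 0, nat_lit 703593, false, false⟩,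
 nat_lit 0, nat_lit 6962, nat_lit 0, nat_lit 0, nat_lit 3867, nat_lit 0, nat_lit 575, nat_lit 0, nat_lit 0, nat_lit 0, nat_lit 0, nat_lit 0, nat_lit 0, nat_lit 0, nat_lit 10, nat_lit 1000000, nat_lit 0, nat_lit 0, [(nat_lit 6, [(nat_lit 6, nat_lit 1000)])],
 ⟨p009_k9, nat_lit 0, nat_lit 0, nat_lit 286, nat_lit 0, nat_lit 356262, [nat_lit 1137066667, nat_lit 8000000], [], [nat_lit 13407539501, nat_lit 13992567468, nat_lit 12776203482, nat_lit 13351501514], nat_lit 1271250, nat_lit 1271250, nat_lit 65850, nat_lit 230001, nat_lit 0, nat_lit 0, [nat_lit 1100000, nat_lit 1442500], [nat_lit 31, nat_lit 40, nat_lit 20, nat_lit 80, nat_lit 3, nat_lit 215, nat_lit 10, nat_lit 9]⟩, C1.Rw.none,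
 ⟨nat_lit 5916, nat_lit 6124, ⟨.ofNat (nat_lit 143557), .ofNat (nat_lit 199824), .ofNat (nat_lit 154231), .ofNat (nat_lit 210498), .ofNat (nat_lit 152230), .ofNat (nat_lit 207203), .ofNat (nat_lit 162900), .ofNat (nat_lit 217873)⟩, ⟨.ofNat (nat_lit 0), .ofNat (nat_lit 0), .ofNat (nat_lit 0), .ofNat (nat_lit 0), .ofNat (nat_lit 0), .ofNat (nat_lit 0), .ofNat (nat_lit 0), .ofNat (nat_lit 0)⟩⟩, [⟨nat_lit 0, nat_lit 100, nat_lit 96, nat_lit 44, nat_lit 223828904⟩]⟩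
noncomputable def p009_l13 : Lf2 := ⟨nat_lit 0, nat_lit 2, [nat_lit 10, nat_lit 5, nat_lit 5, nat_lit 20], true, nat_lit 0, nat_lit 0, nat_lit 0, nat_lit 0, ⟨nat_lit 0, nat_lit 0, nat_lit 1000, nat_lit 5, nat_lit 72, nat_lit 0, nat_lit 0, nat_lit 0, nat_lit 0, nat_lit 215, nat_lit 48600, nat_lit 269, nat_lit 64873744, nat_lit 0, nat_lit 0, nat_lit 703593, false, false⟩,
 nat_lit 0, nat_lit 7013, nat_lit 0, nat_lit 0, nat_lit 3896, nat_lit 0, nat_lit 353, nat_lit 0, nat_lit 0, nat_lit 0, nat_lit 0, nat_lit 0, nat_lit 0, nat_lit 0, nat_lit 80, nat_lit 1000000, nat_lit 0, nat_lit 0, [(nat_lit 6, [(nat_lit 6, nat_lit 1000)])],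
 ⟨p009_k10, nat_lit 0, nat_lit 0, nat_lit 361, nat_lit 0, nat_lit 319811, [nat_lit 2257066667, nat_lit 1408000000, nat_lit 211200000], [], [nat_lit 13496684586, nat_lit 14042202679, nat_lit 13200738611, nat_lit 13387890674], nat_lit 1271250, nat_lit 1271250, nat_lit 65850, nat_lit 230001, nat_lit 0, nat_lit 0, [nat_lit 1100000, nat_lit 1442500, nat_lit 1271250], [nat_lit 9, nat_lit 40, nat_lit 20, nat_lit 80, nat_lit 2, nat_lit 215, nat_lit 10, nat_lit 8]⟩, C1.Rw.none,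
 ⟨nat_lit 5916, nat_lit 6124, ⟨.ofNat (nat_lit 143557), .ofNat (nat_lit 199824), .ofNat (nat_lit 154231), .ofNat (nat_lit 210498), .ofNat (nat_lit 152230), .ofNat (nat_lit 207203), .ofNat (nat_lit 162900), .ofNat (nat_lit 217873)⟩, ⟨.ofNat (nat_lit 0), .ofNat (nat_lit 0), .ofNat (nat_lit 0), .ofNat (nat_lit 0), .ofNat (nat_lit 0), .ofNat (nat_lit 0), .ofNat (nat_lit 0), .ofNat (nat_lit 0)⟩⟩, [⟨nat_lit 0, nat_lit 100, nat_lit 96, nat_lit 44, nat_lit 171720081⟩]⟩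
noncomputable def p009_l14 : Lf2 := ⟨nat_lit 0, nat_lit 2, [nat_lit 10, nat_lit 5, nat_lit 5, nat_lit 20], false, nat_lit 0, nat_lit 0, nat_lit 0, nat_lit 0, ⟨nat_lit 1000, nat_lit 0, nat_lit 0, nat_lit 0, nat_lit 0, nat_lit 0, nat_lit 0, nat_lit 0, nat_lit 0, nat_lit 0, nat_lit 0, nat_lit 0, nat_lit 0, nat_lit 0, nat_lit 0, nat_lit 0, false, false⟩,
 nat_lit 0, nat_lit 8343, nat_lit 0, nat_lit 0, nat_lit 4634, nat_lit 4522, nat_lit 826, nat_lit 0, nat_lit 0, nat_lit 2819, nat_lit 0, nat_lit 0, nat_lit 0, nat_lit 0, nat_lit 0, nat_lit 0, nat_lit 0, nat_lit 0, [],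
 ⟨p009_k10, nat_lit 0, nat_lit 0, nat_lit 387, nat_lit 0, nat_lit 395309, [nat_lit 4688000000, nat_lit 6250000000, nat_lit 7968000000], [], [nat_lit 34311870850, nat_lit 34764163481, nat_lit 34786133482, nat_lit 34179194680], nat_lit 1271250, nat_lit 1271250, nat_lit 88400, nat_lit 230001, nat_lit 0, nat_lit 0, [nat_lit 1100000, nat_lit 1442500, nat_lit 1271250], [nat_lit 9, nat_lit 40, nat_lit 20, nat_lit 80, nat_lit 2, nat_lit 215, nat_lit 10, nat_lit 8]⟩, ⟨p009_k11, nat_lit 0, nat_lit 0, nat_lit 0, nat_lit 0, nat_lit 0, [nat_lit 2637500000, nat_lit 5449500000, nat_lit 7089500000, nat_lit 7968000000], [], [nat_lit 18172790422, nat_lit 18874114313, nat_lit 17327183513, nat_lit 17988571849], nat_lit 0, nat_lit 0, nat_lit 0, nat_lit 0, nat_lit 0, nat_lit 0, [], [nat_lit 139, nat_lit 40, nat_lit 20, nat_lit 40]⟩,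
 zbF0, [⟨nat_lit 0, nat_lit 100, nat_lit 98, nat_lit 40, nat_lit 882384189⟩]⟩
noncomputable def p009_l15 : Lf2 := ⟨nat_lit 0, nat_lit 5, [nat_lit 4, nat_lit 5, nat_lit 5, nat_lit 20], false, nat_lit 0, nat_lit 0, nat_lit 0, nat_lit 0, ⟨nat_lit 697, nat_lit 0, nat_lit 303, nat_lit 5, nat_lit 75, nat_lit 0, nat_lit 0, nat_lit 0, nat_lit 0, nat_lit 215, nat_lit 52267, nat_lit 271, nat_lit 64750829, nat_lit 0, nat_lit 0, nat_lit 734680, false, false⟩,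
 nat_lit 0, nat_lit 14997, nat_lit 0, nat_lit 0, nat_lit 8331, nat_lit 2939, nat_lit 383, nat_lit 0, nat_lit 0, nat_lit 2031, nat_lit 0, nat_lit 0, nat_lit 0, nat_lit 0, nat_lit 0, nat_lit 121200, nat_lit 0, nat_lit 0, [(nat_lit 6, [(nat_lit 5, nat_lit 303)])],
 ⟨p009_k12, nat_lit 0, nat_lit 0, nat_lit 368, nat_lit 0, nat_lit 335024, [nat_lit 3697068800, nat_lit 4366309600, nat_lit 5261206200], [], [nat_lit 22620390545, nat_lit 23114319960, nat_lit 20525204068, nat_lit 21178318500], nat_lit 1271250, nat_lit 1271250, nat_lit 65850, nat_lit 230001, nat_lit 0, nat_lit 0, [nat_lit 1100000, nat_lit 1442500, nat_lit 1271250], [nat_lit 9, nat_lit 40, nat_lit 20, nat_lit 80, nat_lit 2, nat_lit 215, nat_lit 10, nat_lit 8]⟩, ⟨p009_k13, nat_lit 0, nat_lit 0, nat_lit 0, nat_lit 0, nat_lit 0, [nat_lit 1838337500, nat_lit 3798301500, nat_lit 4941381500, nat_lit 6859874000], [], [nat_lit 13380300578, nat_lit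 14239028296, nat_lit 12665871174, nat_lit 13553866000], nat_lit 0, nat_lit 0, nat_lit 0, nat_lit 0, nat_lit 0, nat_lit 0, [], [nat_lit 91, nat_lit 40, nat_lit 20, nat_lit 40]⟩,
 ⟨nat_lit 5916, nat_lit 6124, ⟨.ofNat (nat_lit 143557), .ofNat (nat_lit 199824), .ofNat (nat_lit 164905), .ofNat (nat_lit 221172), .ofNat (nat_lit 152230), .ofNat (nat_lit 207203), .ofNat (nat_lit 173569), .ofNat (nat_lit 228543)⟩, ⟨.ofNat (nat_lit 0), .ofNat (nat_lit 0), .ofNat (nat_lit 0), .ofNat (nat_lit 0), .ofNat (nat_lit 0), .ofNat (nat_lit 0), .ofNat (nat_lit 0), .ofNat (nat_lit 0)⟩⟩, [⟨nat_lit 0, nat_lit 100, nat_lit 97, nat_lit 42, nat_lit 1075859405⟩]⟩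
noncomputable def b_NL_600_550_0_8 : St := ⟨false, nat_lit 1, nat_lit 0, nat_lit 1, nat_lit 20, nat_lit 250, nat_lit 260, nat_lit 220, nat_lit 240, nat_lit 8, nat_lit 40, nat_lit 0, nat_lit 0, nat_lit 0, nat_lit 0, nat_lit 0, nat_lit 0, nat_lit 0, nat_lit 20, nat_lit 0, nat_lit 0, nat_lit 200, nat_lit 400⟩
theorem d_NL_600_550_0_8 (h : EB TB.env) : Dead b_NL_600_550_0_8 := chkB_sound0 h (T :=
(.trZ (nat_lit 0) (nat_lit 100) (nat_lit 97) (nat_lit 35) (nat_lit 12) (.spl (nat_lit 6) (nat_lit 8)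
(.spl (nat_lit 1) (nat_lit 230)
(.spl (nat_lit 6) (nat_lit 4)
(.leaf p009_l12)
(.leaf p009_l13))
(.trZ (nat_lit 0) (nat_lit 100) (nat_lit 98) (nat_lit 40) (nat_lit 16) (.leaf p009_l14)))
(.leaf p009_l15)))) (by decide +kernel)
noncomputable def p009_l16 : Lf2 := ⟨nat_lit 0, nat_lit 5, [nat_lit 4, nat_lit 5, nat_lit 5, nat_lit 20], true, nat_lit 0, nat_lit 0, nat_lit 0, nat_lit 0, ⟨nat_lit 0, nat_lit 0, nat_lit 1000, nat_lit 5, nat_lit 62, nat_lit 0, nat_lit 0, nat_lit 0, nat_lit 0, nat_lit 215, nat_lit 36817, nat_lit 262, nat_lit 65406091, nat_lit 0, nat_lit 0, nat_lit 562173, false, false⟩,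
 nat_lit 0, nat_lit 7689, nat_lit 0, nat_lit 0, nat_lit 4070, nat_lit 0, nat_lit 0, nat_lit 0, nat_lit 0, nat_lit 0, nat_lit 0, nat_lit 0, nat_lit 0, nat_lit 0, nat_lit 106, nat_lit 685600, nat_lit 0, nat_lit 0, [(nat_lit 6, [(nat_lit 5, nat_lit 524), (nat_lit 6, nat_lit 476)])],
 ⟨p009_k8, nat_lit 0, nat_lit 0, nat_lit 329, nat_lit 0, nat_lit 140088, [nat_lit 2903906134, nat_lit 2210662401, nat_lit 28134399], [], [nat_lit 14588652768, nat_lit 14608960054, nat_lit 14671153896, nat_lit 14463875308], nat_lit 1271250, nat_lit 1271250, nat_lit 65850, nat_lit 111251, nat_lit 0, nat_lit 0, [nat_lit 1100000, nat_lit 1442500, nat_lit 1271250], [nat_lit 11, nat_lit 40, nat_lit 20, nat_lit 80, nat_lit 1, nat_lit 289, nat_lit 75, nat_lit 9]⟩, C1.Rw.none,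
 ⟨nat_lit 6284, nat_lit 6325, ⟨.ofNat (nat_lit 145408), .ofNat (nat_lit 161861), .ofNat (nat_lit 148614), .ofNat (nat_lit 165066), .ofNat (nat_lit 147186), .ofNat (nat_lit 163563), .ofNat (nat_lit 150391), .ofNat (nat_lit 166768)⟩, ⟨.ofNat (nat_lit 0), .ofNat (nat_lit 0), .ofNat (nat_lit 0), .ofNat (nat_lit 0), .ofNat (nat_lit 0), .ofNat (nat_lit 0), .ofNat (nat_lit 0), .ofNat (nat_lit 0)⟩⟩, [⟨nat_lit 0, nat_lit 100, nat_lit 99, nat_lit 37, nat_lit 56563204⟩]⟩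
noncomputable def p009_l17 : Lf2 := ⟨nat_lit 0, nat_lit 5, [nat_lit 4, nat_lit 5, nat_lit 5, nat_lit 20], false, nat_lit 0, nat_lit 0, nat_lit 0, nat_lit 0, ⟨nat_lit 1000, nat_lit 0, nat_lit 0, nat_lit 0, nat_lit 0, nat_lit 0, nat_lit 0, nat_lit 0, nat_lit 0, nat_lit 0, nat_lit 0, nat_lit 0, nat_lit 0, nat_lit 0, nat_lit 0, nat_lit 0, false, false⟩,
 nat_lit 0, nat_lit 17531, nat_lit 0, nat_lit 0, nat_lit 9281, nat_lit 4290, nat_lit 2677, nat_lit 0, nat_lit 0, nat_lit 840, nat_lit 0, nat_lit 0, nat_lit 0, nat_lit 0, nat_lit 0, nat_lit 0, nat_lit 0, nat_lit 0, [],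
 ⟨p009_k8, nat_lit 0, nat_lit 0, nat_lit 329, nat_lit 0, nat_lit 139636, [nat_lit 4688000000, nat_lit 6250000000, nat_lit 9842000000], [], [nat_lit 22975844331, nat_lit 23064575067, nat_lit 22460966006, nat_lit 22543218645], nat_lit 1271250, nat_lit 1271250, nat_lit 65850, nat_lit 88400, nat_lit 0, nat_lit 0, [nat_lit 1100000, nat_lit 1442500, nat_lit 1271250], [nat_lit 11, nat_lit 40, nat_lit 20, nat_lit 80, nat_lit 1, nat_lit 289, nat_lit 75, nat_lit 9]⟩, ⟨p009_k14, nat_lit 0, nat_lit 0, nat_lit 0, nat_lit 0, nat_lit 0, [nat_lit 2637500000, nat_lit 5449500000, nat_lit 7089500000, nat_lit 8885500000], [], [nat_lit 22677827933, nat_lit 22738431175, nat_lit 22455928727, nat_lit 22514180003], nat_lit 0, nat_lit 0, nat_lit 0, nat_lit 0, nat_lit 0, nat_lit 0, [], [nat_lit 117, nat_lit 40, nat_lit 20, nat_lit 40]⟩,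
 zbF0, [⟨nat_lit 0, nat_lit 100, nat_lit 99, nat_lit 36, nat_lit 1759974605⟩]⟩
noncomputable def p009_l18 : Lf2 := ⟨nat_lit 0, nat_lit 5, [nat_lit 4, nat_lit 5, nat_lit 5, nat_lit 20], false, nat_lit 0, nat_lit 0, nat_lit 0, nat_lit 0, ⟨nat_lit 0, nat_lit 0, nat_lit 1000, nat_lit 5, nat_lit 61, nat_lit 0, nat_lit 0, nat_lit 0, nat_lit 0, nat_lit 215, nat_lit 35267, nat_lit 261, nat_lit 65453724, nat_lit 0, nat_lit 0, nat_lit 548912, false, false⟩,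
 nat_lit 0, nat_lit 7725, nat_lit 0, nat_lit 0, nat_lit 4089, nat_lit 100000, nat_lit 0, nat_lit 0, nat_lit 0, nat_lit 30769, nat_lit 5664, nat_lit 0, nat_lit 0, nat_lit 0, nat_lit 106, nat_lit 680800, nat_lit 0, nat_lit 0, [(nat_lit 6, [(nat_lit 5, nat_lit 532), (nat_lit 6, nat_lit 468)])],
 ⟨p009_k8, nat_lit 0, nat_lit 0, nat_lit 329, nat_lit 0, nat_lit 139636, [nat_lit 2907430401, nat_lit 2210483201, nat_lit 43379199], [], [nat_lit 14563019910, nat_lit 14571944559, nat_lit 14600975575, nat_lit 14496698142], nat_lit 1271250, nat_lit 1271250, nat_lit 65850, nat_lit 88400, nat_lit 0, nat_lit 0, [nat_lit 1100000, nat_lit 1442500, nat_lit 1271250], [nat_lit 11, nat_lit 40, nat_lit 20, nat_lit 80, nat_lit 1, nat_lit 289, nat_lit 75, nat_lit 9]⟩, ⟨p009_k15, nat_lit 0, nat_lit 0, nat_lit 0, nat_lit 0, nat_lit 0, [nat_lit 113280000000, nat_lit 135936000000, nat_lit 158592000000], [], [nat_lit 146475019875,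 nat_lit 146906073875, nat_lit 140429075876, nat_lit 140867285250], nat_lit 0, nat_lit 0, nat_lit 0, nat_lit 0, nat_lit 0, nat_lit 0, [], [nat_lit 25, nat_lit 40, nat_lit 20, nat_lit 80]⟩,
 ⟨nat_lit 6304, nat_lit 6325, ⟨.ofNat (nat_lit 148614), .ofNat (nat_lit 156840), .ofNat (nat_lit 149682), .ofNat (nat_lit 157908), .ofNat (nat_lit 149503), .ofNat (nat_lit 157710), .ofNat (nat_lit 150571), .ofNat (nat_lit 158779)⟩, ⟨.ofNat (nat_lit 0), .ofNat (nat_lit 0), .ofNat (nat_lit 0), .ofNat (nat_lit 0), .ofNat (nat_lit 0), .ofNat (nat_lit 0), .ofNat (nat_lit 0), .ofNat (nat_lit 0)⟩⟩, [⟨nat_lit 0, nat_lit 100, nat_lit 99, nat_lit 37, nat_lit 7694429404⟩]⟩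
noncomputable def p009_l19 : Lf2 := ⟨nat_lit 3, nat_lit 5, [nat_lit 4, nat_lit 5, nat_lit 5, nat_lit 20], false, nat_lit 0, nat_lit 0, nat_lit 0, nat_lit 0, zbN0,
 nat_lit 0, nat_lit 0, nat_lit 0, nat_lit 0, nat_lit 0, nat_lit 0, nat_lit 0, nat_lit 0, nat_lit 0, nat_lit 0, nat_lit 0, nat_lit 0, nat_lit 0, nat_lit 0, nat_lit 0, nat_lit 0, nat_lit 0, nat_lit 0, [],
 C1.Rw.none, ⟨p009_k16, nat_lit 0, nat_lit 0, nat_lit 210, nat_lit 0, nat_lit 0, [], [], [], nat_lit 0, nat_lit 0, nat_lit 0, nat_lit 0, nat_lit 0, nat_lit 0, [], [nat_lit 51, nat_lit 40, nat_lit 20, nat_lit 80, nat_lit 1, nat_lit 289, nat_lit 75, nat_lit 9]⟩,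
 zbF0, []⟩
noncomputable def p009_l20 : Lf2 := ⟨nat_lit 0, nat_lit 5, [nat_lit 4, nat_lit 5, nat_lit 5, nat_lit 20], false, nat_lit 0, nat_lit 0, nat_lit 0, nat_lit 0, ⟨nat_lit 1000, nat_lit 0, nat_lit 0, nat_lit 0, nat_lit 0, nat_lit 0, nat_lit 0, nat_lit 0, nat_lit 0, nat_lit 0, nat_lit 0, nat_lit 0, nat_lit 0, nat_lit 0, nat_lit 0, nat_lit 0, false, false⟩,
 nat_lit 0, nat_lit 17538, nat_lit 0, nat_lit 0, nat_lit 9284, nat_lit 4287, nat_lit 2678, nat_lit 0, nat_lit 0, nat_lit 837, nat_lit 0, nat_lit 0, nat_lit 0, nat_lit 0, nat_lit 0, nat_lit 0, nat_lit 0, nat_lit 0, [],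
 ⟨p009_k8, nat_lit 0, nat_lit 0, nat_lit 330, nat_lit 0, nat_lit 143597, [nat_lit 4688000000, nat_lit 6250000000, nat_lit 9842000000], [], [nat_lit 22971669820, nat_lit 23063851856, nat_lit 22456610284, nat_lit 22538879257], nat_lit 1271250, nat_lit 1271250, nat_lit 65850, nat_lit 88400, nat_lit 0, nat_lit 0, [nat_lit 1100000, nat_lit 1442500, nat_lit 1271250], [nat_lit 11, nat_lit 40, nat_lit 20, nat_lit 80, nat_lit 1, nat_lit 289, nat_lit 75, nat_lit 9]⟩, ⟨p009_k17, nat_lit 0, nat_lit 0, nat_lit 0, nat_lit 0, nat_lit 0, [nat_lit 2637500000, nat_lit 5449500000, nat_lit 7089500000, nat_lit 8885500000], [], [nat_lit 22712400159, nat_lit 22772613775, nat_lit 22490685339, nat_lit 22548919444], nat_lit 0, nat_lit 0, nat_lit 0, nat_lit 0, nat_lit 0, nat_lit 0, [], [nat_lit 117, nat_lit 40, nat_lit 20, nat_lit 40]⟩,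
 zbF0, [⟨nat_lit 0, nat_lit 100, nat_lit 99, nat_lit 37, nat_lit 1758332472⟩]⟩
noncomputable def p009_l21 : Lf2 := ⟨nat_lit 0, nat_lit 5, [nat_lit 4, nat_lit 5, nat_lit 5, nat_lit 20], false, nat_lit 0, nat_lit 0, nat_lit 0, nat_lit 0, ⟨nat_lit 0, nat_lit 0, nat_lit 1000, nat_lit 5, nat_lit 62, nat_lit 0, nat_lit 0, nat_lit 0, nat_lit 0, nat_lit 215, nat_lit 35267, nat_lit 261, nat_lit 65432657, nat_lit 0, nat_lit 0, nat_lit 554791, false, false⟩,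
 nat_lit 0, nat_lit 7785, nat_lit 0, nat_lit 0, nat_lit 4121, nat_lit 100000, nat_lit 0, nat_lit 0, nat_lit 0, nat_lit 30853, nat_lit 5671, nat_lit 0, nat_lit 0, nat_lit 0, nat_lit 100, nat_lit 633400, nat_lit 0, nat_lit 0, [(nat_lit 6, [(nat_lit 5, nat_lit 611), (nat_lit 6, nat_lit 389)])],
 ⟨p009_k8, nat_lit 0, nat_lit 0, nat_lit 330, nat_lit 0, nat_lit 143597, [nat_lit 2846232534, nat_lit 2088713601, nat_lit 25921599], [], [nat_lit 14683121255, nat_lit 14748839368, nat_lit 14583326533, nat_lit 14568031939], nat_lit 1271250, nat_lit 1271250, nat_lit 65850, nat_lit 88400, nat_lit 0, nat_lit 0, [nat_lit 1100000, nat_lit 1442500, nat_lit 1271250], [nat_lit 11, nat_lit 40, nat_lit 20, nat_lit 80, nat_lit 1, nat_lit 289, nat_lit 75, nat_lit 9]⟩, ⟨p009_k18, nat_lit 0, nat_lit 0, nat_lit 0, nat_lit 0, nat_lit 0, [nat_lit 113420000000, nat_lit 136104000000, nat_lit 158788000000], [], [nat_lit 145877271500,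 nat_lit 146325987501, nat_lit 139832119501, nat_lit 140288083125], nat_lit 0, nat_lit 0, nat_lit 0, nat_lit 0, nat_lit 0, nat_lit 0, [], [nat_lit 25, nat_lit 40, nat_lit 20, nat_lit 80]⟩,
 ⟨nat_lit 6304, nat_lit 6325, ⟨.ofNat (nat_lit 149682), .ofNat (nat_lit 157908), .ofNat (nat_lit 150750), .ofNat (nat_lit 158977), .ofNat (nat_lit 150571), .ofNat (nat_lit 158779), .ofNat (nat_lit 151640), .ofNat (nat_lit 159847)⟩, ⟨.ofNat (nat_lit 0), .ofNat (nat_lit 0), .ofNat (nat_lit 0), .ofNat (nat_lit 0), .ofNat (nat_lit 0), .ofNat (nat_lit 0), .ofNat (nat_lit 0), .ofNat (nat_lit 0)⟩⟩, [⟨nat_lit 0, nat_lit 100, nat_lit 99, nat_lit 37, nat_lit 7949936306⟩]⟩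
noncomputable def p009_l22 : Lf2 := ⟨nat_lit 3, nat_lit 5, [nat_lit 4, nat_lit 5, nat_lit 5, nat_lit 20], false, nat_lit 0, nat_lit 0, nat_lit 0, nat_lit 0, zbN0,
 nat_lit 0, nat_lit 0, nat_lit 0, nat_lit 0, nat_lit 0, nat_lit 0, nat_lit 0, nat_lit 0, nat_lit 0, nat_lit 0, nat_lit 0, nat_lit 0, nat_lit 0, nat_lit 0, nat_lit 0, nat_lit 0, nat_lit 0, nat_lit 0, [],
 C1.Rw.none, ⟨p009_k19, nat_lit 0, nat_lit 0, nat_lit 210, nat_lit 0, nat_lit 0, [], [], [], nat_lit 0, nat_lit 0, nat_lit 0, nat_lit 0, nat_lit 0, nat_lit 0, [], [nat_lit 51, nat_lit 40, nat_lit 20, nat_lit 80, nat_lit 1, nat_lit 289, nat_lit 75, nat_lit 9]⟩,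
 zbF0, []⟩
noncomputable def p009_l23 : Lf2 := ⟨nat_lit 0, nat_lit 5, [nat_lit 4, nat_lit 5, nat_lit 5, nat_lit 20], true, nat_lit 0, nat_lit 0, nat_lit 0, nat_lit 0, ⟨nat_lit 0, nat_lit 0, nat_lit 1000, nat_lit 5, nat_lit 62, nat_lit 0, nat_lit 0, nat_lit 0, nat_lit 0, nat_lit 215, nat_lit 35267, nat_lit 261, nat_lit 65436401, nat_lit 0, nat_lit 0, nat_lit 553747, false, false⟩,
 nat_lit 0, nat_lit 7679, nat_lit 0, nat_lit 0, nat_lit 4085, nat_lit 0, nat_lit 0, nat_lit 0, nat_lit 0, nat_lit 0, nat_lit 0, nat_lit 0, nat_lit 0, nat_lit 0, nat_lit 104, nat_lit 669400, nat_lit 0, nat_lit 0, [(nat_lit 6, [(nat_lit 5, nat_lit 551), (nat_lit 6, nat_lit 449)])],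
 ⟨p009_k20, nat_lit 0, nat_lit 0, nat_lit 331, nat_lit 0, nat_lit 143270, [nat_lit 2883800534, nat_lit 2170057601, nat_lit 23585599], [], [nat_lit 14614364535, nat_lit 14671930811, nat_lit 14510433080, nat_lit 14500916260], nat_lit 1271250, nat_lit 1271250, nat_lit 65850, nat_lit 88400, nat_lit 0, nat_lit 0, [nat_lit 1100000, nat_lit 1442500, nat_lit 1271250], [nat_lit 11, nat_lit 40, nat_lit 20, nat_lit 80, nat_lit 1, nat_lit 289, nat_lit 75, nat_lit 9]⟩, C1.Rw.none,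
 ⟨nat_lit 6284, nat_lit 6305, ⟨.ofNat (nat_lit 149503), .ofNat (nat_lit 157710), .ofNat (nat_lit 150571), .ofNat (nat_lit 158779), .ofNat (nat_lit 150391), .ofNat (nat_lit 158579), .ofNat (nat_lit 151459), .ofNat (nat_lit 159647)⟩, ⟨.ofNat (nat_lit 0), .ofNat (nat_lit 0), .ofNat (nat_lit 0), .ofNat (nat_lit 0), .ofNat (nat_lit 0), .ofNat (nat_lit 0), .ofNat (nat_lit 0), .ofNat (nat_lit 0)⟩⟩, [⟨nat_lit 0, nat_lit 100, nat_lit 99, nat_lit 38, nat_lit 314384132⟩]⟩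
noncomputable def p009_l24 : Lf2 := ⟨nat_lit 0, nat_lit 5, [nat_lit 4, nat_lit 5, nat_lit 5, nat_lit 20], false, nat_lit 0, nat_lit 0, nat_lit 0, nat_lit 0, ⟨nat_lit 132, nat_lit 0, nat_lit 868, nat_lit 5, nat_lit 62, nat_lit 0, nat_lit 0, nat_lit 0, nat_lit 0, nat_lit 215, nat_lit 36817, nat_lit 262, nat_lit 65415226, nat_lit 0, nat_lit 0, nat_lit 559638, false, false⟩,
 nat_lit 0, nat_lit 8679, nat_lit 0, nat_lit 0, nat_lit 4617, nat_lit 1119, nat_lit 0, nat_lit 0, nat_lit 0, nat_lit 436, nat_lit 0, nat_lit 0, nat_lit 0, nat_lit 0, nat_lit 81, nat_lit 868000, nat_lit 0, nat_lit 0, [(nat_lit 6, [(nat_lit 6, nat_lit 868)])],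
 ⟨p009_k20, nat_lit 0, nat_lit 0, nat_lit 332, nat_lit 0, nat_lit 147236, [nat_lit 2762909867, nat_lit 2533883201, nat_lit 128020799], [], [nat_lit 15791400917, nat_lit 15862512914, nat_lit 15578465006, nat_lit 15612735754], nat_lit 1271250, nat_lit 1271250, nat_lit 65850, nat_lit 88400, nat_lit 0, nat_lit 0, [nat_lit 1100000, nat_lit 1442500, nat_lit 1271250], [nat_lit 11, nat_lit 40, nat_lit 20, nat_lit 80, nat_lit 1, nat_lit 289, nat_lit 75, nat_lit 9]⟩, ⟨p009_k21, nat_lit 0, nat_lit 0, nat_lit 0, nat_lit 0, nat_lit 0, [nat_lit 719334000, nat_lit 935814000, nat_lit 1172886000], [], [nat_lit 2620921707, nat_lit 2632295963, nat_lit 2543152126, nat_lit 2554542683], nat_lit 0, nat_lit 0, nat_lit 0, nat_lit 0, nat_lit 0, nat_lit 0, [], [nat_lit 96, nat_lit 40, nat_lit 20, nat_lit 40]⟩,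
 ⟨nat_lit 6284, nat_lit 6305, ⟨.ofNat (nat_lit 150571), .ofNat (nat_lit 158779), .ofNat (nat_lit 151640), .ofNat (nat_lit 159847), .ofNat (nat_lit 151459), .ofNat (nat_lit 159647), .ofNat (nat_lit 152527), .ofNat (nat_lit 160716)⟩, ⟨.ofNat (nat_lit 0), .ofNat (nat_lit 0), .ofNat (nat_lit 0), .ofNat (nat_lit 0), .ofNat (nat_lit 0), .ofNat (nat_lit 0), .ofNat (nat_lit 0), .ofNat (nat_lit 0)⟩⟩, [⟨nat_lit 0, nat_lit 100, nat_lit 99, nat_lit 38, nat_lit 596304467⟩]⟩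
noncomputable def p009_l25 : Lf2 := ⟨nat_lit 3, nat_lit 5, [nat_lit 4, nat_lit 5, nat_lit 5, nat_lit 20], false, nat_lit 0, nat_lit 0, nat_lit 0, nat_lit 0, zbN0,
 nat_lit 0, nat_lit 0, nat_lit 0, nat_lit 0, nat_lit 0, nat_lit 0, nat_lit 0, nat_lit 0, nat_lit 0, nat_lit 0, nat_lit 0, nat_lit 0, nat_lit 0, nat_lit 0, nat_lit 0, nat_lit 0, nat_lit 0, nat_lit 0, [],
 C1.Rw.none, ⟨p009_k19, nat_lit 0, nat_lit 0, nat_lit 210, nat_lit 0, nat_lit 0, [], [], [], nat_lit 0, nat_lit 0, nat_lit 0, nat_lit 0, nat_lit 0, nat_lit 0, [], [nat_lit 51, nat_lit 40, nat_lit 20, nat_lit 80, nat_lit 1, nat_lit 289, nat_lit 75, nat_lit 9]⟩,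
 zbF0, []⟩
noncomputable def p009_l26 : Lf2 := ⟨nat_lit 0, nat_lit 5, [nat_lit 4, nat_lit 5, nat_lit 5, nat_lit 20], true, nat_lit 0, nat_lit 0, nat_lit 0, nat_lit 0, ⟨nat_lit 0, nat_lit 0, nat_lit 1000, nat_lit 5, nat_lit 65, nat_lit 0, nat_lit 0, nat_lit 0, nat_lit 0, nat_lit 215, nat_lit 40017, nat_lit 264, nat_lit 65288313, nat_lit 0, nat_lit 0, nat_lit 594500, false, false⟩,
 nat_lit 0, nat_lit 7851, nat_lit 0, nat_lit 0, nat_lit 4156, nat_lit 0, nat_lit 0, nat_lit 0, nat_lit 0, nat_lit 0, nat_lit 0, nat_lit 0, nat_lit 0, nat_lit 0, nat_lit 100, nat_lit 638800, nat_lit 0, nat_lit 0, [(nat_lit 6, [(nat_lit 5, nat_lit 602), (nat_lit 6, nat_lit 398)])],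
 ⟨p009_k8, nat_lit 0, nat_lit 0, nat_lit 324, nat_lit 0, nat_lit 139636, [nat_lit 2842267734, nat_lit 2088915201, nat_lit 8771199], [], [nat_lit 14526267461, nat_lit 14493861209, nat_lit 14569574904, nat_lit 14463745689], nat_lit 1271250, nat_lit 1271250, nat_lit 88400, nat_lit 111251, nat_lit 0, nat_lit 0, [nat_lit 1100000, nat_lit 1442500, nat_lit 1271250], [nat_lit 11, nat_lit 40, nat_lit 20, nat_lit 80, nat_lit 1, nat_lit 289, nat_lit 75, nat_lit 9]⟩, C1.Rw.none,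
 ⟨nat_lit 6304, nat_lit 6325, ⟨.ofNat (nat_lit 156840), .ofNat (nat_lit 165066), .ofNat (nat_lit 157908), .ofNat (nat_lit 166135), .ofNat (nat_lit 157710), .ofNat (nat_lit 165918), .ofNat (nat_lit 158779), .ofNat (nat_lit 166986)⟩, ⟨.ofNat (nat_lit 0), .ofNat (nat_lit 0), .ofNat (nat_lit 0), .ofNat (nat_lit 0), .ofNat (nat_lit 0), .ofNat (nat_lit 0), .ofNat (nat_lit 0), .ofNat (nat_lit 0)⟩⟩, []⟩
noncomputable def p009_l27 : Lf2 := ⟨nat_lit 0, nat_lit 5, [nat_lit 4, nat_lit 5, nat_lit 5, nat_lit 20], false, nat_lit 0, nat_lit 0, nat_lit 0, nat_lit 0, ⟨nat_lit 118, nat_lit 0, nat_lit 882, nat_lit 5, nat_lit 65, nat_lit 0, nat_lit 0, nat_lit 0, nat_lit 0, nat_lit 215, nat_lit 40017, nat_lit 264, nat_lit 65266237, nat_lit 0, nat_lit 0, nat_lit 600489, false, false⟩,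
 nat_lit 0, nat_lit 8679, nat_lit 0, nat_lit 0, nat_lit 4594, nat_lit 1117, nat_lit 0, nat_lit 0, nat_lit 0, nat_lit 421, nat_lit 0, nat_lit 0, nat_lit 0, nat_lit 0, nat_lit 77, nat_lit 795600, nat_lit 0, nat_lit 0, [(nat_lit 6, [(nat_lit 5, nat_lit 144), (nat_lit 6, nat_lit 738)])],
 ⟨p009_k8, nat_lit 0, nat_lit 0, nat_lit 325, nat_lit 0, nat_lit 143597, [nat_lit 2710393600, nat_lit 2364591201, nat_lit 99685599], [], [nat_lit 15564262678, nat_lit 15561073006, nat_lit 15602501234, nat_lit 15485518700], nat_lit 1271250, nat_lit 1271250, nat_lit 88400, nat_lit 111251, nat_lit 0, nat_lit 0, [nat_lit 1100000, nat_lit 1442500, nat_lit 1271250], [nat_lit 11, nat_lit 40, nat_lit 20, nat_lit 80, nat_lit 1, nat_lit 289, nat_lit 75, nat_lit 9]⟩, ⟨p009_k18, nat_lit 0, nat_lit 0, nat_lit 227, nat_lit 0, nat_lit 0, [nat_lit 737500000, nat_lit 940224000, nat_lit 1161356000], [], [nat_lit 2357009641, nat_lit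 2364771779, nat_lit 2294905194, nat_lit 2302672242], nat_lit 0, nat_lit 0, nat_lit 0, nat_lit 0, nat_lit 0, nat_lit 0, [], [nat_lit 25, nat_lit 40, nat_lit 20, nat_lit 80, nat_lit 17, nat_lit 289, nat_lit 75, nat_lit 9]⟩,
 ⟨nat_lit 6304, nat_lit 6325, ⟨.ofNat (nat_lit 157908), .ofNat (nat_lit 166135), .ofNat (nat_lit 158977), .ofNat (nat_lit 167203), .ofNat (nat_lit 158779), .ofNat (nat_lit 166986), .ofNat (nat_lit 159847), .ofNat (nat_lit 168054)⟩, ⟨.ofNat (nat_lit 0), .ofNat (nat_lit 0), .ofNat (nat_lit 0), .ofNat (nat_lit 0), .ofNat (nat_lit 0), .ofNat (nat_lit 0), .ofNat (nat_lit 0), .ofNat (nat_lit 0)⟩⟩, []⟩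
noncomputable def p009_l28 : Lf2 := ⟨nat_lit 0, nat_lit 5, [nat_lit 4, nat_lit 5, nat_lit 5, nat_lit 20], true, nat_lit 0, nat_lit 0, nat_lit 0, nat_lit 0, ⟨nat_lit 0, nat_lit 0, nat_lit 1000, nat_lit 5, nat_lit 65, nat_lit 0, nat_lit 0, nat_lit 0, nat_lit 0, nat_lit 215, nat_lit 40017, nat_lit 264, nat_lit 65259477, nat_lit 0, nat_lit 0, nat_lit 602319, false, false⟩,
 nat_lit 0, nat_lit 7751, nat_lit 0, nat_lit 0, nat_lit 4123, nat_lit 0, nat_lit 0, nat_lit 0, nat_lit 0, nat_lit 0, nat_lit 0, nat_lit 0, nat_lit 0, nat_lit 0, nat_lit 105, nat_lit 674800, nat_lit 0, nat_lit 0, [(nat_lit 6, [(nat_lit 5, nat_lit 542), (nat_lit 6, nat_lit 458)])],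
 ⟨p009_k20, nat_lit 0, nat_lit 0, nat_lit 327, nat_lit 0, nat_lit 147236, [nat_lit 2895835734, nat_lit 2190259201, nat_lit 34435199], [], [nat_lit 14447819436, nat_lit 14422720537, nat_lit 14491664384, nat_lit 14386675487], nat_lit 1271250, nat_lit 1271250, nat_lit 88400, nat_lit 111251, nat_lit 0, nat_lit 0, [nat_lit 1100000, nat_lit 1442500, nat_lit 1271250], [nat_lit 11, nat_lit 40, nat_lit 20, nat_lit 80, nat_lit 1, nat_lit 289, nat_lit 75, nat_lit 9]⟩, C1.Rw.none,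
 ⟨nat_lit 6284, nat_lit 6305, ⟨.ofNat (nat_lit 157710), .ofNat (nat_lit 165918), .ofNat (nat_lit 159847), .ofNat (nat_lit 168054), .ofNat (nat_lit 158579), .ofNat (nat_lit 166768), .ofNat (nat_lit 160716), .ofNat (nat_lit 168904)⟩, ⟨.ofNat (nat_lit 0), .ofNat (nat_lit 0), .ofNat (nat_lit 0), .ofNat (nat_lit 0), .ofNat (nat_lit 0), .ofNat (nat_lit 0), .ofNat (nat_lit 0), .ofNat (nat_lit 0)⟩⟩, []⟩
noncomputable def p009_l29 : Lf2 := ⟨nat_lit 0, nat_lit 5, [nat_lit 4, nat_lit 5, nat_lit 5, nat_lit 20], true, nat_lit 0, nat_lit 0, nat_lit 0, nat_lit 0, ⟨nat_lit 0, nat_lit 0, nat_lit 1000, nat_lit 5, nat_lit 62, nat_lit 0, nat_lit 0, nat_lit 0, nat_lit 0, nat_lit 215, nat_lit 35267, nat_lit 261, nat_lit 65440166, nat_lit 0, nat_lit 0, nat_lit 552698, false, false⟩,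
 nat_lit 0, nat_lit 7681, nat_lit 0, nat_lit 0, nat_lit 4106, nat_lit 0, nat_lit 0, nat_lit 0, nat_lit 0, nat_lit 0, nat_lit 0, nat_lit 0, nat_lit 0, nat_lit 0, nat_lit 110, nat_lit 711400, nat_lit 0, nat_lit 0, [(nat_lit 6, [(nat_lit 5, nat_lit 481), (nat_lit 6, nat_lit 519)])],
 ⟨p009_k22, nat_lit 0, nat_lit 0, nat_lit 334, nat_lit 0, nat_lit 150836, [nat_lit 2948963201, nat_lit 2291625601, nat_lit 58193599], [], [nat_lit 14555991979, nat_lit 14623225281, nat_lit 14345386757, nat_lit 14359347279], nat_lit 1271250, nat_lit 1271250, nat_lit 65850, nat_lit 88400, nat_lit 0, nat_lit 0, [nat_lit 1100000, nat_lit 1442500, nat_lit 1271250], [nat_lit 11, nat_lit 40, nat_lit 20, nat_lit 80, nat_lit 1, nat_lit 289, nat_lit 75, nat_lit 9]⟩, C1.Rw.none,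
 ⟨nat_lit 6264, nat_lit 6285, ⟨.ofNat (nat_lit 147186), .ofNat (nat_lit 155375), .ofNat (nat_lit 152527), .ofNat (nat_lit 160716), .ofNat (nat_lit 148073), .ofNat (nat_lit 156242), .ofNat (nat_lit 153413), .ofNat (nat_lit 161582)⟩, ⟨.ofNat (nat_lit 0), .ofNat (nat_lit 0), .ofNat (nat_lit 0), .ofNat (nat_lit 0), .ofNat (nat_lit 0), .ofNat (nat_lit 0), .ofNat (nat_lit 0), .ofNat (nat_lit 0)⟩⟩, [⟨nat_lit 0, nat_lit 100, nat_lit 99, nat_lit 39, nat_lit 441208156⟩]⟩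
noncomputable def p009_l30 : Lf2 := ⟨nat_lit 0, nat_lit 5, [nat_lit 4, nat_lit 5, nat_lit 5, nat_lit 20], true, nat_lit 0, nat_lit 0, nat_lit 0, nat_lit 0, ⟨nat_lit 0, nat_lit 0, nat_lit 1000, nat_lit 5, nat_lit 65, nat_lit 0, nat_lit 0, nat_lit 0, nat_lit 0, nat_lit 215, nat_lit 40017, nat_lit 264, nat_lit 65274887, nat_lit 0, nat_lit 0, nat_lit 598145, false, false⟩,
 nat_lit 0, nat_lit 7661, nat_lit 0, nat_lit 0, nat_lit 4095, nat_lit 0, nat_lit 0, nat_lit 0, nat_lit 0, nat_lit 0, nat_lit 0, nat_lit 0, nat_lit 0, nat_lit 0, nat_lit 110, nat_lit 714400, nat_lit 0, nat_lit 0, [(nat_lit 6, [(nat_lit 5, nat_lit 476), (nat_lit 6, nat_lit 524)])],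
 ⟨p009_k22, nat_lit 0, nat_lit 0, nat_lit 329, nat_lit 0, nat_lit 150836, [nat_lit 2946760534, nat_lit 2291737601, nat_lit 48665599], [], [nat_lit 14360782624, nat_lit 14342874049, nat_lit 14405105098, nat_lit 14300829199], nat_lit 1271250, nat_lit 1271250, nat_lit 88400, nat_lit 111251, nat_lit 0, nat_lit 0, [nat_lit 1100000, nat_lit 1442500, nat_lit 1271250], [nat_lit 11, nat_lit 40, nat_lit 20, nat_lit 80, nat_lit 1, nat_lit 289, nat_lit 75, nat_lit 9]⟩, C1.Rw.none,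
 ⟨nat_lit 6264, nat_lit 6285, ⟨.ofNat (nat_lit 155375), .ofNat (nat_lit 163563), .ofNat (nat_lit 160716), .ofNat (nat_lit 168904), .ofNat (nat_lit 156242), .ofNat (nat_lit 164412), .ofNat (nat_lit 161582), .ofNat (nat_lit 169752)⟩, ⟨.ofNat (nat_lit 0), .ofNat (nat_lit 0), .ofNat (nat_lit 0), .ofNat (nat_lit 0), .ofNat (nat_lit 0), .ofNat (nat_lit 0), .ofNat (nat_lit 0), .ofNat (nat_lit 0)⟩⟩, []⟩
noncomputable def p009_l31 : Lf2 := ⟨nat_lit 0, nat_lit 5, [nat_lit 4, nat_lit 5, nat_lit 5, nat_lit 20], true, nat_lit 0, nat_lit 0, nat_lit 0, nat_lit 0, ⟨nat_lit 0, nat_lit 0, nat_lit 1000, nat_lit 5, nat_lit 64, nat_lit 0, nat_lit 0, nat_lit 0, nat_lit 0, nat_lit 215, nat_lit 38400, nat_lit 263, nat_lit 65332153, nat_lit 0, nat_lit 0, nat_lit 582542, false, false⟩,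
 nat_lit 0, nat_lit 7445, nat_lit 0, nat_lit 0, nat_lit 3999, nat_lit 0, nat_lit 0, nat_lit 0, nat_lit 0, nat_lit 0, nat_lit 0, nat_lit 0, nat_lit 0, nat_lit 0, nat_lit 123, nat_lit 809800, nat_lit 0, nat_lit 0, [(nat_lit 6, [(nat_lit 5, nat_lit 317), (nat_lit 6, nat_lit 683)])],
 ⟨p009_k23, nat_lit 0, nat_lit 0, nat_lit 337, nat_lit 0, nat_lit 158743, [nat_lit 3084715734, nat_lit 2555299201, nat_lit 109675199], [], [nat_lit 14307952718, nat_lit 14354982337, nat_lit 14393088201, nat_lit 14189425529], nat_lit 1271250, nat_lit 1271250, nat_lit 65850, nat_lit 111251, nat_lit 0, nat_lit 0, [nat_lit 1100000, nat_lit 1442500, nat_lit 1271250], [nat_lit 11, nat_lit 40, nat_lit 20, nat_lit 80, nat_lit 1, nat_lit 289, nat_lit 75, nat_lit 9]⟩, C1.Rw.none,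
 ⟨nat_lit 6224, nat_lit 6265, ⟨.ofNat (nat_lit 148073), .ofNat (nat_lit 164412), .ofNat (nat_lit 153413), .ofNat (nat_lit 169752), .ofNat (nat_lit 149840), .ofNat (nat_lit 166104), .ofNat (nat_lit 155180), .ofNat (nat_lit 171443)⟩, ⟨.ofNat (nat_lit 0), .ofNat (nat_lit 0), .ofNat (nat_lit 0), .ofNat (nat_lit 0), .ofNat (nat_lit 0), .ofNat (nat_lit 0), .ofNat (nat_lit 0), .ofNat (nat_lit 0)⟩⟩, [⟨nat_lit 0, nat_lit 100, nat_lit 99, nat_lit 40, nat_lit 54584211⟩]⟩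
noncomputable def p009_l32 : Lf2 := ⟨nat_lit 0, nat_lit 5, [nat_lit 4, nat_lit 5, nat_lit 5, nat_lit 20], true, nat_lit 0, nat_lit 0, nat_lit 0, nat_lit 0, ⟨nat_lit 0, nat_lit 0, nat_lit 1000, nat_lit 5, nat_lit 63, nat_lit 0, nat_lit 0, nat_lit 0, nat_lit 0, nat_lit 215, nat_lit 38400, nat_lit 263, nat_lit 65358592, nat_lit 0, nat_lit 0, nat_lit 575288, false, false⟩,
 nat_lit 0, nat_lit 7807, nat_lit 0, nat_lit 0, nat_lit 4133, nat_lit 0, nat_lit 0, nat_lit 0, nat_lit 0, nat_lit 0, nat_lit 0, nat_lit 0, nat_lit 0, nat_lit 0, nat_lit 118, nat_lit 778000, nat_lit 0, nat_lit 0, [(nat_lit 6, [(nat_lit 5, nat_lit 370), (nat_lit 6, nat_lit 630)])],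
 ⟨p009_k8, nat_lit 0, nat_lit 0, nat_lit 325, nat_lit 0, nat_lit 124229, [nat_lit 3028064001, nat_lit 2454112001, nat_lit 70671999], [], [nat_lit 14432219324, nat_lit 14569224895, nat_lit 14513186427, nat_lit 14119401698], nat_lit 1271250, nat_lit 1271250, nat_lit 65850, nat_lit 111251, nat_lit 0, nat_lit 0, [nat_lit 1100000, nat_lit 1442500, nat_lit 1271250], [nat_lit 11, nat_lit 40, nat_lit 20, nat_lit 80, nat_lit 1, nat_lit 289, nat_lit 75, nat_lit 9]⟩, C1.Rw.none,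
 ⟨nat_lit 6224, nat_lit 6325, ⟨.ofNat (nat_lit 145408), .ofNat (nat_lit 161861), .ofNat (nat_lit 150750), .ofNat (nat_lit 167203), .ofNat (nat_lit 149840), .ofNat (nat_lit 166104), .ofNat (nat_lit 155180), .ofNat (nat_lit 171443)⟩, ⟨.ofNat (nat_lit 0), .ofNat (nat_lit 0), .ofNat (nat_lit 0), .ofNat (nat_lit 0), .ofNat (nat_lit 0), .ofNat (nat_lit 0), .ofNat (nat_lit 0), .ofNat (nat_lit 0)⟩⟩, [⟨nat_lit 0, nat_lit 100, nat_lit 99, nat_lit 40, nat_lit 58363038⟩]⟩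
noncomputable def b_NL_600_550_0_9 : St := ⟨false, nat_lit 1, nat_lit 0, nat_lit 1, nat_lit 20, nat_lit 240, nat_lit 245, nat_lit 230, nat_lit 235, nat_lit 12, nat_lit 20, nat_lit 0, nat_lit 0, nat_lit 0, nat_lit 0, nat_lit 0, nat_lit 0, nat_lit 20, nat_lit 32, nat_lit 0, nat_lit 0, nat_lit 0, nat_lit 0⟩
theorem d_NL_600_550_0_9 (h : EB TB.env) : Dead b_NL_600_550_0_9 := chkB_sound0 h (T :=
(.spl (nat_lit 6) (nat_lit 24)
(.spl (nat_lit 0) (nat_lit 243)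
(.spl (nat_lit 0) (nat_lit 242)
(.spl (nat_lit 1) (nat_lit 233)
(.leaf p009_l16)
(.spl (nat_lit 2) (nat_lit 16)
(.spl (nat_lit 0) (nat_lit 241)
(.spl (nat_lit 1) (nat_lit 234)
(.spl (nat_lit 8) (nat_lit 800)
(.spl (nat_lit 8) (nat_lit 400)
(.leaf p009_l17)
(.leaf p009_l18))
(.leaf p009_l19))
(.spl (nat_lit 8) (nat_lit 800)
(.spl (nat_lit 8) (nat_lit 400)
(.leaf p009_l20)
(.leaf p009_l21))
(.leaf p009_l22)))
(.spl (nat_lit 1) (nat_lit 234)
(.leaf p009_l23)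
(.spl (nat_lit 8) (nat_lit 800)
(.leaf p009_l24)
(.leaf p009_l25))))
(.spl (nat_lit 0) (nat_lit 241)
(.spl (nat_lit 1) (nat_lit 234)
(.leaf p009_l26)
(.leaf p009_l27))
(.leaf p009_l28))))
(.spl (nat_lit 2) (nat_lit 16)
(.leaf p009_l29)
(.leaf p009_l30)))
(.leaf p009_l31))
(.leaf p009_l32))) (by decide +kernel)
noncomputable def p009_l33 : Lf2 := ⟨nat_lit 0, nat_lit 5, [nat_lit 4, nat_lit 5, nat_lit 5, nat_lit 20], true, nat_lit 0, nat_lit 0, nat_lit 0, nat_lit 0, ⟨nat_lit 0, nat_lit 0, nat_lit 1000, nat_lit 5, nat_lit 63, nat_lit 0, nat_lit 0, nat_lit 0, nat_lit 0, nat_lit 215, nat_lit 36817, nat_lit 262, nat_lit 65392035, nat_lit 0, nat_lit 0, nat_lit 566065, false, false⟩,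
 nat_lit 0, nat_lit 7871, nat_lit 0, nat_lit 0, nat_lit 4166, nat_lit 0, nat_lit 0, nat_lit 0, nat_lit 0, nat_lit 0, nat_lit 0, nat_lit 0, nat_lit 0, nat_lit 0, nat_lit 100, nat_lit 635200, nat_lit 0, nat_lit 0, [(nat_lit 6, [(nat_lit 5, nat_lit 608), (nat_lit 6, nat_lit 392)])],
 ⟨p009_k8, nat_lit 0, nat_lit 0, nat_lit 321, nat_lit 0, nat_lit 117045, [nat_lit 2844910934, nat_lit 2088780801, nat_lit 20204799], [], [nat_lit 14712491918, nat_lit 14847869371, nat_lit 14513356869, nat_lit 14579539329], nat_lit 1271250, nat_lit 1271250, nat_lit 65850, nat_lit 88400, nat_lit 0, nat_lit 0, [nat_lit 1100000, nat_lit 1442500, nat_lit 1271250], [nat_lit 11, nat_lit 40, nat_lit 20, nat_lit 80, nat_lit 1, nat_lit 289, nat_lit 75, nat_lit 9]⟩, C1.Rw.none,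
 ⟨nat_lit 6284, nat_lit 6325, ⟨.ofNat (nat_lit 150750), .ofNat (nat_lit 158977), .ofNat (nat_lit 152887), .ofNat (nat_lit 161114), .ofNat (nat_lit 152527), .ofNat (nat_lit 160716), .ofNat (nat_lit 154663), .ofNat (nat_lit 162852)⟩, ⟨.ofNat (nat_lit 0), .ofNat (nat_lit 0), .ofNat (nat_lit 0), .ofNat (nat_lit 0), .ofNat (nat_lit 0), .ofNat (nat_lit 0), .ofNat (nat_lit 0), .ofNat (nat_lit 0)⟩⟩, [⟨nat_lit 0, nat_lit 100, nat_lit 100, nat_lit 38, nat_lit 32828333⟩, ⟨nat_lit 0, nat_lit 100, nat_lit 99, nat_lit 39, nat_lit 414521666⟩]⟩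
noncomputable def p009_l34 : Lf2 := ⟨nat_lit 0, nat_lit 5, [nat_lit 4, nat_lit 5, nat_lit 5, nat_lit 20], false, nat_lit 0, nat_lit 0, nat_lit 0, nat_lit 0, ⟨nat_lit 1000, nat_lit 0, nat_lit 0, nat_lit 0, nat_lit 0, nat_lit 0, nat_lit 0, nat_lit 0, nat_lit 0, nat_lit 0, nat_lit 0, nat_lit 0, nat_lit 0, nat_lit 0, nat_lit 0, nat_lit 0, false, false⟩,
 nat_lit 0, nat_lit 17554, nat_lit 0, nat_lit 0, nat_lit 9293, nat_lit 4333, nat_lit 2681, nat_lit 0, nat_lit 0, nat_lit 0, nat_lit 0, nat_lit 0, nat_lit 0, nat_lit 0, nat_lit 0, nat_lit 0, nat_lit 0, nat_lit 0, [],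
 ⟨p009_k8, nat_lit 0, nat_lit 0, nat_lit 321, nat_lit 0, nat_lit 116818, [nat_lit 4688000000, nat_lit 6250000000, nat_lit 9842000000], [], [nat_lit 22959146290, nat_lit 23061682221, nat_lit 22443543119, nat_lit 22525861092], nat_lit 1271250, nat_lit 1271250, nat_lit 65850, nat_lit 88400, nat_lit 0, nat_lit 0, [nat_lit 1100000, nat_lit 1442500, nat_lit 1271250], [nat_lit 11, nat_lit 40, nat_lit 20, nat_lit 80, nat_lit 1, nat_lit 289, nat_lit 75, nat_lit 9]⟩, ⟨p009_k24, nat_lit 0, nat_lit 0, nat_lit 0, nat_lit 0, nat_lit 0, [nat_lit 2637500000, nat_lit 5449500000, nat_lit 7089500000, nat_lit 8885500000], [], [nat_lit 24727195234, nat_lit 24788447730, nat_lit 24447397775, nat_lit 24507921115], nat_lit 0, nat_lit 0, nat_lit 0, nat_lit 0, nat_lit 0, nat_lit 0, [], [nat_lit 117, nat_lit 40, nat_lit 20, nat_lit 40]⟩,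
 zbF0, [⟨nat_lit 0, nat_lit 100, nat_lit 100, nat_lit 39, nat_lit 1809981619⟩]⟩
noncomputable def p009_l35 : Lf2 := ⟨nat_lit 0, nat_lit 5, [nat_lit 4, nat_lit 5, nat_lit 5, nat_lit 20], false, nat_lit 0, nat_lit 0, nat_lit 0, nat_lit 0, ⟨nat_lit 0, nat_lit 0, nat_lit 1000, nat_lit 5, nat_lit 63, nat_lit 0, nat_lit 0, nat_lit 0, nat_lit 0, nat_lit 215, nat_lit 36817, nat_lit 262, nat_lit 65368666, nat_lit 0, nat_lit 0, nat_lit 572515, false, false⟩,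
 nat_lit 0, nat_lit 7872, nat_lit 0, nat_lit 0, nat_lit 4167, nat_lit 100000, nat_lit 0, nat_lit 0, nat_lit 0, nat_lit 29328, nat_lit 5621, nat_lit 0, nat_lit 0, nat_lit 0, nat_lit 100, nat_lit 635200, nat_lit 0, nat_lit 0, [(nat_lit 6, [(nat_lit 5, nat_lit 608), (nat_lit 6, nat_lit 392)])],
 ⟨p009_k8, nat_lit 0, nat_lit 0, nat_lit 321, nat_lit 0, nat_lit 116818, [nat_lit 2844910934, nat_lit 2088780801, nat_lit 20204799], [], [nat_lit 14713307840, nat_lit 14781004157, nat_lit 14511828370, nat_lit 14512597421], nat_lit 1271250, nat_lit 1271250, nat_lit 65850, nat_lit 88400, nat_lit 0, nat_lit 0, [nat_lit 1100000, nat_lit 1442500, nat_lit 1271250], [nat_lit 11, nat_lit 40, nat_lit 20, nat_lit 80, nat_lit 1, nat_lit 289, nat_lit 75, nat_lit 9]⟩, ⟨p009_k25, nat_lit 0, nat_lit 0, nat_lit 0, nat_lit 0, nat_lit 0, [nat_lit 112420000000, nat_lit 134904000000, nat_lit 157388000000], [], [nat_lit 146563746000,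 nat_lit 147094194000, nat_lit 139139278000, nat_lit 139706660001], nat_lit 0, nat_lit 0, nat_lit 0, nat_lit 0, nat_lit 0, nat_lit 0, [], [nat_lit 25, nat_lit 40, nat_lit 20, nat_lit 80]⟩,
 ⟨nat_lit 6304, nat_lit 6325, ⟨.ofNat (nat_lit 152887), .ofNat (nat_lit 161114), .ofNat (nat_lit 153956), .ofNat (nat_lit 162182), .ofNat (nat_lit 153776), .ofNat (nat_lit 161984), .ofNat (nat_lit 154844), .ofNat (nat_lit 163052)⟩, ⟨.ofNat (nat_lit 0), .ofNat (nat_lit 0), .ofNat (nat_lit 0), .ofNat (nat_lit 0), .ofNat (nat_lit 0), .ofNat (nat_lit 0), .ofNat (nat_lit 0), .ofNat (nat_lit 0)⟩⟩, [⟨nat_lit 0, nat_lit 100, nat_lit 100, nat_lit 39, nat_lit 9724853942⟩]⟩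
noncomputable def p009_l36 : Lf2 := ⟨nat_lit 3, nat_lit 5, [nat_lit 4, nat_lit 5, nat_lit 5, nat_lit 20], false, nat_lit 0, nat_lit 0, nat_lit 0, nat_lit 0, zbN0,
 nat_lit 0, nat_lit 0, nat_lit 0, nat_lit 0, nat_lit 0, nat_lit 0, nat_lit 0, nat_lit 0, nat_lit 0, nat_lit 0, nat_lit 0, nat_lit 0, nat_lit 0, nat_lit 0, nat_lit 0, nat_lit 0, nat_lit 0, nat_lit 0, [],
 C1.Rw.none, ⟨p009_k26, nat_lit 0, nat_lit 0, nat_lit 211, nat_lit 0, nat_lit 0, [], [], [], nat_lit 0, nat_lit 0, nat_lit 0, nat_lit 0, nat_lit 0, nat_lit 0, [], [nat_lit 51, nat_lit 40, nat_lit 20, nat_lit 80, nat_lit 1, nat_lit 289, nat_lit 75, nat_lit 9]⟩,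
 zbF0, []⟩
noncomputable def p009_l37 : Lf2 := ⟨nat_lit 0, nat_lit 5, [nat_lit 4, nat_lit 5, nat_lit 5, nat_lit 20], true, nat_lit 0, nat_lit 0, nat_lit 0, nat_lit 0, ⟨nat_lit 0, nat_lit 0, nat_lit 1000, nat_lit 5, nat_lit 64, nat_lit 0, nat_lit 0, nat_lit 0, nat_lit 0, nat_lit 215, nat_lit 38400, nat_lit 263, nat_lit 65350919, nat_lit 0, nat_lit 0, nat_lit 577397, false, false⟩,
 nat_lit 0, nat_lit 7771, nat_lit 0, nat_lit 0, nat_lit 4134, nat_lit 0, nat_lit 0, nat_lit 0, nat_lit 0, nat_lit 0, nat_lit 0, nat_lit 0, nat_lit 0, nat_lit 0, nat_lit 104, nat_lit 671200, nat_lit 0, nat_lit 0, [(nat_lit 6, [(nat_lit 5, nat_lit 548), (nat_lit 6, nat_lit 452)])],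
 ⟨p009_k20, nat_lit 0, nat_lit 0, nat_lit 322, nat_lit 0, nat_lit 120575, [nat_lit 2882478934, nat_lit 2170124801, nat_lit 17868799], [], [nat_lit 14639492235, nat_lit 14706938068, nat_lit 14433099824, nat_lit 14440981409], nat_lit 1271250, nat_lit 1271250, nat_lit 65850, nat_lit 88400, nat_lit 0, nat_lit 0, [nat_lit 1100000, nat_lit 1442500, nat_lit 1271250], [nat_lit 11, nat_lit 40, nat_lit 20, nat_lit 80, nat_lit 1, nat_lit 289, nat_lit 75, nat_lit 9]⟩, C1.Rw.none,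
 ⟨nat_lit 6284, nat_lit 6305, ⟨.ofNat (nat_lit 153776), .ofNat (nat_lit 161984), .ofNat (nat_lit 154844), .ofNat (nat_lit 163052), .ofNat (nat_lit 154663), .ofNat (nat_lit 162852), .ofNat (nat_lit 155732), .ofNat (nat_lit 163920)⟩, ⟨.ofNat (nat_lit 0), .ofNat (nat_lit 0), .ofNat (nat_lit 0), .ofNat (nat_lit 0), .ofNat (nat_lit 0), .ofNat (nat_lit 0), .ofNat (nat_lit 0), .ofNat (nat_lit 0)⟩⟩, [⟨nat_lit 0, nat_lit 100, nat_lit 100, nat_lit 39, nat_lit 441503606⟩]⟩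
noncomputable def p009_l38 : Lf2 := ⟨nat_lit 0, nat_lit 5, [nat_lit 4, nat_lit 5, nat_lit 5, nat_lit 20], true, nat_lit 0, nat_lit 0, nat_lit 0, nat_lit 0, ⟨nat_lit 0, nat_lit 0, nat_lit 1000, nat_lit 5, nat_lit 64, nat_lit 0, nat_lit 0, nat_lit 0, nat_lit 0, nat_lit 215, nat_lit 38400, nat_lit 263, nat_lit 65347075, nat_lit 0, nat_lit 0, nat_lit 578452, false, false⟩,
 nat_lit 0, nat_lit 8103, nat_lit 0, nat_lit 0, nat_lit 4289, nat_lit 0, nat_lit 581, nat_lit 0, nat_lit 0, nat_lit 0, nat_lit 0, nat_lit 0, nat_lit 0, nat_lit 0, nat_lit 50, nat_lit 250000, nat_lit 0, nat_lit 0, [(nat_lit 6, [(nat_lit 4, nat_lit 1000)])],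
 ⟨p009_k27, nat_lit 0, nat_lit 0, nat_lit 0, nat_lit 0, nat_lit 121014, [nat_lit 1827200001, nat_lit 1482000000, nat_lit 1211600001, nat_lit 82400000], [], [nat_lit 13399739955, nat_lit 13460732424, nat_lit 13187400090, nat_lit 13245616576], nat_lit 1271250, nat_lit 1271250, nat_lit 65850, nat_lit 88400, nat_lit 0, nat_lit 0, [nat_lit 490000, nat_lit 1100000, nat_lit 1442500, nat_lit 1271250], [nat_lit 128, nat_lit 40, nat_lit 20, nat_lit 40]⟩, C1.Rw.none,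
 ⟨nat_lit 6304, nat_lit 6325, ⟨.ofNat (nat_lit 153956), .ofNat (nat_lit 162182), .ofNat (nat_lit 155024), .ofNat (nat_lit 163250), .ofNat (nat_lit 154844), .ofNat (nat_lit 163052), .ofNat (nat_lit 155913), .ofNat (nat_lit 164120)⟩, ⟨.ofNat (nat_lit 0), .ofNat (nat_lit 0), .ofNat (nat_lit 0), .ofNat (nat_lit 0), .ofNat (nat_lit 0), .ofNat (nat_lit 0), .ofNat (nat_lit 0), .ofNat (nat_lit 0)⟩⟩, [⟨nat_lit 0, nat_lit 100, nat_lit 100, nat_lit 40, nat_lit 374999321⟩]⟩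
noncomputable def p009_l39 : Lf2 := ⟨nat_lit 0, nat_lit 5, [nat_lit 4, nat_lit 5, nat_lit 5, nat_lit 20], true, nat_lit 0, nat_lit 0, nat_lit 0, nat_lit 0, ⟨nat_lit 0, nat_lit 0, nat_lit 1000, nat_lit 5, nat_lit 64, nat_lit 0, nat_lit 0, nat_lit 0, nat_lit 0, nat_lit 215, nat_lit 38400, nat_lit 263, nat_lit 65347075, nat_lit 0, nat_lit 0, nat_lit 578452, false, false⟩,
 nat_lit 0, nat_lit 100000, nat_lit 0, nat_lit 100000, nat_lit 52941, nat_lit 0, nat_lit 16834, nat_lit 5749, nat_lit 0, nat_lit 0, nat_lit 0, nat_lit 0, nat_lit 0, nat_lit 0, nat_lit 0, nat_lit 400000, nat_lit 0, nat_lit 0, [(nat_lit 6, [(nat_lit 5, nat_lit 1000)])],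
 ⟨p009_k8, nat_lit 0, nat_lit 0, nat_lit 322, nat_lit 0, nat_lit 121014, [nat_lit 93401600001, nat_lit 115060000001, nat_lit 159047200000], [], [nat_lit 264746156423, nat_lit 264998045884, nat_lit 262062241437, nat_lit 262313930258], nat_lit 1271250, nat_lit 1271250, nat_lit 65850, nat_lit 88400, nat_lit 0, nat_lit 0, [nat_lit 1100000, nat_lit 1442500, nat_lit 1271250], [nat_lit 11, nat_lit 40, nat_lit 20, nat_lit 80, nat_lit 1, nat_lit 289, nat_lit 75, nat_lit 9]⟩, C1.Rw.none,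
 ⟨nat_lit 6304, nat_lit 6325, ⟨.ofNat (nat_lit 153956), .ofNat (nat_lit 162182), .ofNat (nat_lit 155024), .ofNat (nat_lit 163250), .ofNat (nat_lit 154844), .ofNat (nat_lit 163052), .ofNat (nat_lit 155913), .ofNat (nat_lit 164120)⟩, ⟨.ofNat (nat_lit 0), .ofNat (nat_lit 0), .ofNat (nat_lit 0), .ofNat (nat_lit 0), .ofNat (nat_lit 0), .ofNat (nat_lit 0), .ofNat (nat_lit 0), .ofNat (nat_lit 0)⟩⟩, [⟨nat_lit 0, nat_lit 100, nat_lit 100, nat_lit 39, nat_lit 10000000000⟩, ⟨nat_lit 0, nat_lit 100, nat_lit 100, nat_lit 40, nat_lit 10000000000⟩, ⟨nat_lit 0, nat_lit 100, nat_lit 100, nat_lit 39, nat_lit 10000000000⟩]⟩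
noncomputable def p009_l40 : Lf2 := ⟨nat_lit 0, nat_lit 5, [nat_lit 4, nat_lit 5, nat_lit 5, nat_lit 20], false, nat_lit 0, nat_lit 0, nat_lit 0, nat_lit 0, ⟨nat_lit 0, nat_lit 0, nat_lit 1000, nat_lit 5, nat_lit 64, nat_lit 0, nat_lit 0, nat_lit 0, nat_lit 0, nat_lit 215, nat_lit 38400, nat_lit 263, nat_lit 65347075, nat_lit 0, nat_lit 0, nat_lit 578452, false, false⟩,
 nat_lit 0, nat_lit 7872, nat_lit 0, nat_lit 0, nat_lit 4167, nat_lit 100000, nat_lit 0, nat_lit 0, nat_lit 0, nat_lit 28963, nat_lit 5629, nat_lit 0, nat_lit 0, nat_lit 0, nat_lit 100, nat_lit 635200, nat_lit 0, nat_lit 0, [(nat_lit 6, [(nat_lit 5, nat_lit 608), (nat_lit 6, nat_lit 392)])],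
 ⟨p009_k8, nat_lit 0, nat_lit 0, nat_lit 322, nat_lit 0, nat_lit 121014, [nat_lit 2844910934, nat_lit 2088780801, nat_lit 20204799], [], [nat_lit 14713307840, nat_lit 14781004157, nat_lit 14511828370, nat_lit 14512597421], nat_lit 1271250, nat_lit 1271250, nat_lit 65850, nat_lit 88400, nat_lit 0, nat_lit 0, [nat_lit 1100000, nat_lit 1442500, nat_lit 1271250], [nat_lit 11, nat_lit 40, nat_lit 20, nat_lit 80, nat_lit 1, nat_lit 289, nat_lit 75, nat_lit 9]⟩, ⟨p009_k28, nat_lit 0, nat_lit 0, nat_lit 0, nat_lit 0, nat_lit 0, [nat_lit 112580000000, nat_lit 135096000000, nat_lit 157612000000], [], [nat_lit 147452950250, nat_lit 147983398250, nat_lit 140030398250, nat_lit 140598690000], nat_lit 0, nat_lit 0, nat_lit 0, nat_lit 0, nat_lit 0, nat_lit 0, [], [nat_lit 25, nat_lit 40, nat_lit 20, nat_lit 80]⟩,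
 ⟨nat_lit 6304, nat_lit 6325, ⟨.ofNat (nat_lit 153956), .ofNat (nat_lit 162182), .ofNat (nat_lit 155024), .ofNat (nat_lit 163250), .ofNat (nat_lit 154844), .ofNat (nat_lit 163052), .ofNat (nat_lit 155913), .ofNat (nat_lit 164120)⟩, ⟨.ofNat (nat_lit 0), .ofNat (nat_lit 0), .ofNat (nat_lit 0), .ofNat (nat_lit 0), .ofNat (nat_lit 0), .ofNat (nat_lit 0), .ofNat (nat_lit 0), .ofNat (nat_lit 0)⟩⟩, [⟨nat_lit 0, nat_lit 100, nat_lit 100, nat_lit 39, nat_lit 9723244338⟩]⟩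
noncomputable def p009_l41 : Lf2 := ⟨nat_lit 3, nat_lit 5, [nat_lit 4, nat_lit 5, nat_lit 5, nat_lit 20], false, nat_lit 0, nat_lit 0, nat_lit 0, nat_lit 0, zbN0,
 nat_lit 0, nat_lit 0, nat_lit 0, nat_lit 0, nat_lit 0, nat_lit 0, nat_lit 0, nat_lit 0, nat_lit 0, nat_lit 0, nat_lit 0, nat_lit 0, nat_lit 0, nat_lit 0, nat_lit 0, nat_lit 0, nat_lit 0, nat_lit 0, [],
 C1.Rw.none, ⟨p009_k29, nat_lit 0, nat_lit 0, nat_lit 212, nat_lit 0, nat_lit 0, [], [], [], nat_lit 0, nat_lit 0, nat_lit 0, nat_lit 0, nat_lit 0, nat_lit 0, [], [nat_lit 51, nat_lit 40, nat_lit 20, nat_lit 80, nat_lit 1, nat_lit 289, nat_lit 75, nat_lit 9]⟩,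
 zbF0, []⟩
noncomputable def p009_l42 : Lf2 := ⟨nat_lit 0, nat_lit 5, [nat_lit 4, nat_lit 5, nat_lit 5, nat_lit 20], true, nat_lit 0, nat_lit 0, nat_lit 0, nat_lit 0, ⟨nat_lit 0, nat_lit 0, nat_lit 1000, nat_lit 5, nat_lit 64, nat_lit 0, nat_lit 0, nat_lit 0, nat_lit 0, nat_lit 215, nat_lit 38400, nat_lit 263, nat_lit 65325352, nat_lit 0, nat_lit 0, nat_lit 584403, false, false⟩,
 nat_lit 0, nat_lit 8236, nat_lit 0, nat_lit 0, nat_lit 4360, nat_lit 0, nat_lit 587, nat_lit 0, nat_lit 0, nat_lit 0, nat_lit 0, nat_lit 0, nat_lit 0, nat_lit 0, nat_lit 50, nat_lit 250000, nat_lit 0, nat_lit 0, [(nat_lit 6, [(nat_lit 4, nat_lit 1000)])],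
 ⟨p009_k27, nat_lit 0, nat_lit 0, nat_lit 0, nat_lit 0, nat_lit 125262, [nat_lit 1827200001, nat_lit 1482000000, nat_lit 1211600001, nat_lit 82400000], [], [nat_lit 13417719847, nat_lit 13491208207, nat_lit 13136239439, nat_lit 13208767628], nat_lit 1271250, nat_lit 1271250, nat_lit 65850, nat_lit 88400, nat_lit 0, nat_lit 0, [nat_lit 490000, nat_lit 1100000, nat_lit 1442500, nat_lit 1271250], [nat_lit 128, nat_lit 40, nat_lit 20, nat_lit 40]⟩, C1.Rw.none,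
 ⟨nat_lit 6304, nat_lit 6325, ⟨.ofNat (nat_lit 155024), .ofNat (nat_lit 163250), .ofNat (nat_lit 156092), .ofNat (nat_lit 164319), .ofNat (nat_lit 155913), .ofNat (nat_lit 164120), .ofNat (nat_lit 156981), .ofNat (nat_lit 165188)⟩, ⟨.ofNat (nat_lit 0), .ofNat (nat_lit 0), .ofNat (nat_lit 0), .ofNat (nat_lit 0), .ofNat (nat_lit 0), .ofNat (nat_lit 0), .ofNat (nat_lit 0), .ofNat (nat_lit 0)⟩⟩, [⟨nat_lit 0, nat_lit 100, nat_lit 100, nat_lit 40, nat_lit 546758622⟩]⟩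
noncomputable def p009_l43 : Lf2 := ⟨nat_lit 0, nat_lit 5, [nat_lit 4, nat_lit 5, nat_lit 5, nat_lit 20], true, nat_lit 0, nat_lit 0, nat_lit 0, nat_lit 0, ⟨nat_lit 0, nat_lit 0, nat_lit 1000, nat_lit 5, nat_lit 64, nat_lit 0, nat_lit 0, nat_lit 0, nat_lit 0, nat_lit 215, nat_lit 38400, nat_lit 263, nat_lit 65325352, nat_lit 0, nat_lit 0, nat_lit 584403, false, false⟩,
 nat_lit 0, nat_lit 100000, nat_lit 0, nat_lit 100000, nat_lit 52941, nat_lit 0, nat_lit 17575, nat_lit 6299, nat_lit 0, nat_lit 0, nat_lit 0, nat_lit 0, nat_lit 0, nat_lit 0, nat_lit 0, nat_lit 1000000, nat_lit 0, nat_lit 0, [(nat_lit 6, [(nat_lit 6, nat_lit 1000)])],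
 ⟨p009_k8, nat_lit 0, nat_lit 0, nat_lit 324, nat_lit 0, nat_lit 125262, [nat_lit 101761066667, nat_lit 126082400000, nat_lit 172433600000], [], [nat_lit 295147854338, nat_lit 295399743799, nat_lit 292464202520, nat_lit 292715628173], nat_lit 1271250, nat_lit 1271250, nat_lit 65850, nat_lit 88400, nat_lit 0, nat_lit 0, [nat_lit 1100000, nat_lit 1442500, nat_lit 1271250], [nat_lit 11, nat_lit 40, nat_lit 20, nat_lit 80, nat_lit 1, nat_lit 289, nat_lit 75, nat_lit 9]⟩, C1.Rw.none,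
 ⟨nat_lit 6304, nat_lit 6325, ⟨.ofNat (nat_lit 155024), .ofNat (nat_lit 163250), .ofNat (nat_lit 156092), .ofNat (nat_lit 164319), .ofNat (nat_lit 155913), .ofNat (nat_lit 164120), .ofNat (nat_lit 156981), .ofNat (nat_lit 165188)⟩, ⟨.ofNat (nat_lit 0), .ofNat (nat_lit 0), .ofNat (nat_lit 0), .ofNat (nat_lit 0), .ofNat (nat_lit 0), .ofNat (nat_lit 0), .ofNat (nat_lit 0), .ofNat (nat_lit 0)⟩⟩, [⟨nat_lit 0, nat_lit 100, nat_lit 100, nat_lit 40, nat_lit 10000000000⟩, ⟨nat_lit 0, nat_lit 100, nat_lit 100, nat_lit 40, nat_lit 10000000000⟩, ⟨nat_lit 0, nat_lit 100, nat_lit 100, nat_lit 39, nat_lit 10000000000⟩]⟩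
noncomputable def p009_l44 : Lf2 := ⟨nat_lit 0, nat_lit 5, [nat_lit 4, nat_lit 5, nat_lit 5, nat_lit 20], false, nat_lit 0, nat_lit 0, nat_lit 0, nat_lit 0, ⟨nat_lit 0, nat_lit 0, nat_lit 1000, nat_lit 5, nat_lit 64, nat_lit 0, nat_lit 0, nat_lit 0, nat_lit 0, nat_lit 215, nat_lit 38400, nat_lit 263, nat_lit 65325352, nat_lit 0, nat_lit 0, nat_lit 584403, false, false⟩,
 nat_lit 0, nat_lit 7872, nat_lit 0, nat_lit 0, nat_lit 4167, nat_lit 100000, nat_lit 0, nat_lit 0, nat_lit 0, nat_lit 28521, nat_lit 5637, nat_lit 0, nat_lit 0, nat_lit 0, nat_lit 100, nat_lit 635200, nat_lit 0, nat_lit 0, [(nat_lit 6, [(nat_lit 5, nat_lit 608), (nat_lit 6, nat_lit 392)])],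
 ⟨p009_k8, nat_lit 0, nat_lit 0, nat_lit 324, nat_lit 0, nat_lit 125262, [nat_lit 2844910934, nat_lit 2088780801, nat_lit 20204799], [], [nat_lit 14713307840, nat_lit 14781004157, nat_lit 14511828370, nat_lit 14512597421], nat_lit 1271250, nat_lit 1271250, nat_lit 65850, nat_lit 88400, nat_lit 0, nat_lit 0, [nat_lit 1100000, nat_lit 1442500, nat_lit 1271250], [nat_lit 11, nat_lit 40, nat_lit 20, nat_lit 80, nat_lit 1, nat_lit 289, nat_lit 75, nat_lit 9]⟩, ⟨p009_k30, nat_lit 0, nat_lit 0, nat_lit 0, nat_lit 0, nat_lit 0, [nat_lit 112740000000, nat_lit 135288000000, nat_lit 157836000000], [], [nat_lit 148343617000, nat_lit 148874065001, nat_lit 140922981000, nat_lit 141490720000], nat_lit 0, nat_lit 0, nat_lit 0, nat_lit 0, nat_lit 0, nat_lit 0, [], [nat_lit 25, nat_lit 40, nat_lit 20, nat_lit 80]⟩,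
 ⟨nat_lit 6304, nat_lit 6325, ⟨.ofNat (nat_lit 155024), .ofNat (nat_lit 163250), .ofNat (nat_lit 156092), .ofNat (nat_lit 164319), .ofNat (nat_lit 155913), .ofNat (nat_lit 164120), .ofNat (nat_lit 156981), .ofNat (nat_lit 165188)⟩, ⟨.ofNat (nat_lit 0), .ofNat (nat_lit 0), .ofNat (nat_lit 0), .ofNat (nat_lit 0), .ofNat (nat_lit 0), .ofNat (nat_lit 0), .ofNat (nat_lit 0), .ofNat (nat_lit 0)⟩⟩, [⟨nat_lit 0, nat_lit 100, nat_lit 100, nat_lit 40, nat_lit 9720849338⟩]⟩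
noncomputable def p009_l45 : Lf2 := ⟨nat_lit 3, nat_lit 5, [nat_lit 4, nat_lit 5, nat_lit 5, nat_lit 20], false, nat_lit 0, nat_lit 0, nat_lit 0, nat_lit 0, zbN0,
 nat_lit 0, nat_lit 0, nat_lit 0, nat_lit 0, nat_lit 0, nat_lit 0, nat_lit 0, nat_lit 0, nat_lit 0, nat_lit 0, nat_lit 0, nat_lit 0, nat_lit 0, nat_lit 0, nat_lit 0, nat_lit 0, nat_lit 0, nat_lit 0, [],
 C1.Rw.none, ⟨p009_k31, nat_lit 0, nat_lit 0, nat_lit 212, nat_lit 0, nat_lit 0, [], [], [], nat_lit 0, nat_lit 0, nat_lit 0, nat_lit 0, nat_lit 0, nat_lit 0, [], [nat_lit 51, nat_lit 40, nat_lit 20, nat_lit 80, nat_lit 1, nat_lit 289, nat_lit 75, nat_lit 9]⟩,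
 zbF0, []⟩
noncomputable def p009_l46 : Lf2 := ⟨nat_lit 0, nat_lit 5, [nat_lit 4, nat_lit 5, nat_lit 5, nat_lit 20], false, nat_lit 0, nat_lit 0, nat_lit 0, nat_lit 0, ⟨nat_lit 126, nat_lit 0, nat_lit 874, nat_lit 5, nat_lit 64, nat_lit 0, nat_lit 0, nat_lit 0, nat_lit 0, nat_lit 215, nat_lit 38400, nat_lit 263, nat_lit 65329220, nat_lit 0, nat_lit 0, nat_lit 583345, false, false⟩,
 nat_lit 0, nat_lit 8722, nat_lit 0, nat_lit 0, nat_lit 4640, nat_lit 1054, nat_lit 0, nat_lit 0, nat_lit 0, nat_lit 0, nat_lit 0, nat_lit 0, nat_lit 0, nat_lit 0, nat_lit 84, nat_lit 874000, nat_lit 0, nat_lit 0, [(nat_lit 6, [(nat_lit 6, nat_lit 874)])],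
 ⟨p009_k20, nat_lit 0, nat_lit 0, nat_lit 324, nat_lit 0, nat_lit 124776, [nat_lit 2788644267, nat_lit 2556997601, nat_lit 130274399], [], [nat_lit 15728595312, nat_lit 15799881888, nat_lit 15446686180, nat_lit 15496396119], nat_lit 1271250, nat_lit 1271250, nat_lit 65850, nat_lit 88400, nat_lit 0, nat_lit 0, [nat_lit 1100000, nat_lit 1442500, nat_lit 1271250], [nat_lit 11, nat_lit 40, nat_lit 20, nat_lit 80, nat_lit 1, nat_lit 289, nat_lit 75, nat_lit 9]⟩, ⟨p009_k32, nat_lit 0, nat_lit 0, nat_lit 0, nat_lit 0, nat_lit 0, [nat_lit 686637000, nat_lit 893277000, nat_lit 1119573000], [], [nat_lit 3433966800, nat_lit 3444739055, nat_lit 3367404121, nat_lit 3376270514], nat_lit 0, nat_lit 0, nat_lit 0, nat_lit 0, nat_lit 0, nat_lit 0, [], [nat_lit 96, nat_lit 40, nat_lit 20, nat_lit 40]⟩,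
 ⟨nat_lit 6284, nat_lit 6305, ⟨.ofNat (nat_lit 154844), .ofNat (nat_lit 163052), .ofNat (nat_lit 155913), .ofNat (nat_lit 164120), .ofNat (nat_lit 155732), .ofNat (nat_lit 163920), .ofNat (nat_lit 156800), .ofNat (nat_lit 164988)⟩, ⟨.ofNat (nat_lit 0), .ofNat (nat_lit 0), .ofNat (nat_lit 0), .ofNat (nat_lit 0), .ofNat (nat_lit 0), .ofNat (nat_lit 0), .ofNat (nat_lit 0), .ofNat (nat_lit 0)⟩⟩, [⟨nat_lit 0, nat_lit 100, nat_lit 100, nat_lit 40, nat_lit 667781682⟩]⟩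
noncomputable def p009_l47 : Lf2 := ⟨nat_lit 3, nat_lit 5, [nat_lit 4, nat_lit 5, nat_lit 5, nat_lit 20], false, nat_lit 0, nat_lit 0, nat_lit 0, nat_lit 0, zbN0,
 nat_lit 0, nat_lit 0, nat_lit 0, nat_lit 0, nat_lit 0, nat_lit 0, nat_lit 0, nat_lit 0, nat_lit 0, nat_lit 0, nat_lit 0, nat_lit 0, nat_lit 0, nat_lit 0, nat_lit 0, nat_lit 0, nat_lit 0, nat_lit 0, [],
 C1.Rw.none, ⟨p009_k29, nat_lit 0, nat_lit 0, nat_lit 212, nat_lit 0, nat_lit 0, [], [], [], nat_lit 0, nat_lit 0, nat_lit 0, nat_lit 0, nat_lit 0, nat_lit 0, [], [nat_lit 51, nat_lit 40, nat_lit 20, nat_lit 80, nat_lit 1, nat_lit 289, nat_lit 75, nat_lit 9]⟩,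
 zbF0, []⟩
noncomputable def p009_l48 : Lf2 := ⟨nat_lit 0, nat_lit 5, [nat_lit 4, nat_lit 5, nat_lit 5, nat_lit 20], true, nat_lit 0, nat_lit 0, nat_lit 0, nat_lit 0, ⟨nat_lit 0, nat_lit 0, nat_lit 1000, nat_lit 5, nat_lit 64, nat_lit 0, nat_lit 0, nat_lit 0, nat_lit 0, nat_lit 215, nat_lit 38400, nat_lit 263, nat_lit 65333117, nat_lit 0, nat_lit 0, nat_lit 582278, false, false⟩,
 nat_lit 0, nat_lit 7681, nat_lit 0, nat_lit 0, nat_lit 4106, nat_lit 0, nat_lit 0, nat_lit 0, nat_lit 0, nat_lit 0, nat_lit 0, nat_lit 0, nat_lit 0, nat_lit 0, nat_lit 110, nat_lit 711400, nat_lit 0, nat_lit 0, [(nat_lit 6, [(nat_lit 5, nat_lit 481), (nat_lit 6, nat_lit 519)])],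
 ⟨p009_k22, nat_lit 0, nat_lit 0, nat_lit 327, nat_lit 0, nat_lit 132650, [nat_lit 2948963201, nat_lit 2291625601, nat_lit 58193599], [], [nat_lit 14555991979, nat_lit 14623225281, nat_lit 14345386757, nat_lit 14359347279], nat_lit 1271250, nat_lit 1271250, nat_lit 65850, nat_lit 88400, nat_lit 0, nat_lit 0, [nat_lit 1100000, nat_lit 1442500, nat_lit 1271250], [nat_lit 11, nat_lit 40, nat_lit 20, nat_lit 80, nat_lit 1, nat_lit 289, nat_lit 75, nat_lit 9]⟩, C1.Rw.none,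
 ⟨nat_lit 6264, nat_lit 6285, ⟨.ofNat (nat_lit 152527), .ofNat (nat_lit 160716), .ofNat (nat_lit 157868), .ofNat (nat_lit 166056), .ofNat (nat_lit 153413), .ofNat (nat_lit 161582), .ofNat (nat_lit 158753), .ofNat (nat_lit 166923)⟩, ⟨.ofNat (nat_lit 0), .ofNat (nat_lit 0), .ofNat (nat_lit 0), .ofNat (nat_lit 0), .ofNat (nat_lit 0), .ofNat (nat_lit 0), .ofNat (nat_lit 0), .ofNat (nat_lit 0)⟩⟩, [⟨nat_lit 0, nat_lit 100, nat_lit 99, nat_lit 40, nat_lit 1598029394⟩]⟩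
noncomputable def p009_l49 : Lf2 := ⟨nat_lit 0, nat_lit 5, [nat_lit 4, nat_lit 5, nat_lit 5, nat_lit 20], true, nat_lit 0, nat_lit 0, nat_lit 0, nat_lit 0, ⟨nat_lit 0, nat_lit 0, nat_lit 1000, nat_lit 5, nat_lit 66, nat_lit 0, nat_lit 0, nat_lit 0, nat_lit 0, nat_lit 215, nat_lit 40017, nat_lit 264, nat_lit 65232877, nat_lit 0, nat_lit 0, nat_lit 609499, false, false⟩,
 nat_lit 0, nat_lit 7851, nat_lit 0, nat_lit 0, nat_lit 4156, nat_lit 0, nat_lit 0, nat_lit 0, nat_lit 0, nat_lit 0, nat_lit 0, nat_lit 0, nat_lit 0, nat_lit 0, nat_lit 100, nat_lit 638800, nat_lit 0, nat_lit 0, [(nat_lit 6, [(nat_lit 5, nat_lit 602), (nat_lit 6, nat_lit 398)])],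
 ⟨p009_k8, nat_lit 0, nat_lit 0, nat_lit 314, nat_lit 0, nat_lit 112621, [nat_lit 2842267734, nat_lit 2088915201, nat_lit 8771199], [], [nat_lit 14526267461, nat_lit 14493861209, nat_lit 14569574904, nat_lit 14463745689], nat_lit 1271250, nat_lit 1271250, nat_lit 88400, nat_lit 111251, nat_lit 0, nat_lit 0, [nat_lit 1100000, nat_lit 1442500, nat_lit 1271250], [nat_lit 11, nat_lit 40, nat_lit 20, nat_lit 80, nat_lit 1, nat_lit 289, nat_lit 75, nat_lit 9]⟩, C1.Rw.none,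
 ⟨nat_lit 6304, nat_lit 6325, ⟨.ofNat (nat_lit 158977), .ofNat (nat_lit 167203), .ofNat (nat_lit 161114), .ofNat (nat_lit 169340), .ofNat (nat_lit 159847), .ofNat (nat_lit 168054), .ofNat (nat_lit 161984), .ofNat (nat_lit 170191)⟩, ⟨.ofNat (nat_lit 0), .ofNat (nat_lit 0), .ofNat (nat_lit 0), .ofNat (nat_lit 0), .ofNat (nat_lit 0), .ofNat (nat_lit 0), .ofNat (nat_lit 0), .ofNat (nat_lit 0)⟩⟩, []⟩
noncomputable def p009_l50 : Lf2 := ⟨nat_lit 0, nat_lit 5, [nat_lit 4, nat_lit 5, nat_lit 5, nat_lit 20], false, nat_lit 0, nat_lit 0, nat_lit 0, nat_lit 0, ⟨nat_lit 140, nat_lit 0, nat_lit 860, nat_lit 5, nat_lit 66, nat_lit 0, nat_lit 0, nat_lit 0, nat_lit 0, nat_lit 215, nat_lit 41667, nat_lit 265, nat_lit 65199228, nat_lit 0, nat_lit 0, nat_lit 618537, false, false⟩,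
 nat_lit 0, nat_lit 8911, nat_lit 0, nat_lit 0, nat_lit 4717, nat_lit 1175, nat_lit 0, nat_lit 0, nat_lit 0, nat_lit 0, nat_lit 0, nat_lit 0, nat_lit 0, nat_lit 0, nat_lit 77, nat_lit 860000, nat_lit 0, nat_lit 0, [(nat_lit 6, [(nat_lit 6, nat_lit 860)])],
 ⟨p009_k8, nat_lit 0, nat_lit 0, nat_lit 316, nat_lit 0, nat_lit 116818, [nat_lit 2728597334, nat_lit 2503064001, nat_lit 125015999], [], [nat_lit 15671406610, nat_lit 15675864885, nat_lit 15708221712, nat_lit 15588107081], nat_lit 1271250, nat_lit 1271250, nat_lit 88400, nat_lit 111251, nat_lit 0, nat_lit 0, [nat_lit 1100000, nat_lit 1442500, nat_lit 1271250], [nat_lit 11, nat_lit 40, nat_lit 20, nat_lit 80, nat_lit 1, nat_lit 289, nat_lit 75, nat_lit 9]⟩, ⟨p009_k33, nat_lit 0, nat_lit 0, nat_lit 0, nat_lit 0, nat_lit 0, [nat_lit 762930000, nat_lit 992530000, nat_lit 1243970000], [], [nat_lit 3729452892, nat_lit 3739322407, nat_lit 3664813775,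 nat_lit 3674685823], nat_lit 0, nat_lit 0, nat_lit 0, nat_lit 0, nat_lit 0, nat_lit 0, [], [nat_lit 96, nat_lit 40, nat_lit 20, nat_lit 40]⟩,
 ⟨nat_lit 6304, nat_lit 6325, ⟨.ofNat (nat_lit 161114), .ofNat (nat_lit 169340), .ofNat (nat_lit 162182), .ofNat (nat_lit 170408), .ofNat (nat_lit 161984), .ofNat (nat_lit 170191), .ofNat (nat_lit 163052), .ofNat (nat_lit 171259)⟩, ⟨.ofNat (nat_lit 0), .ofNat (nat_lit 0), .ofNat (nat_lit 0), .ofNat (nat_lit 0), .ofNat (nat_lit 0), .ofNat (nat_lit 0), .ofNat (nat_lit 0), .ofNat (nat_lit 0)⟩⟩, []⟩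
noncomputable def p009_l51 : Lf2 := ⟨nat_lit 3, nat_lit 5, [nat_lit 4, nat_lit 5, nat_lit 5, nat_lit 20], false, nat_lit 0, nat_lit 0, nat_lit 0, nat_lit 0, zbN0,
 nat_lit 0, nat_lit 0, nat_lit 0, nat_lit 0, nat_lit 0, nat_lit 0, nat_lit 0, nat_lit 0, nat_lit 0, nat_lit 0, nat_lit 0, nat_lit 0, nat_lit 0, nat_lit 0, nat_lit 0, nat_lit 0, nat_lit 0, nat_lit 0, [],
 C1.Rw.none, ⟨p009_k26, nat_lit 0, nat_lit 0, nat_lit 205, nat_lit 0, nat_lit 0, [], [], [], nat_lit 0, nat_lit 0, nat_lit 0, nat_lit 0, nat_lit 0, nat_lit 0, [], [nat_lit 51, nat_lit 40, nat_lit 20, nat_lit 80, nat_lit 1, nat_lit 289, nat_lit 75, nat_lit 9]⟩,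
 zbF0, []⟩
noncomputable def p009_l52 : Lf2 := ⟨nat_lit 0, nat_lit 5, [nat_lit 4, nat_lit 5, nat_lit 5, nat_lit 20], true, nat_lit 0, nat_lit 0, nat_lit 0, nat_lit 0, ⟨nat_lit 0, nat_lit 0, nat_lit 1000, nat_lit 5, nat_lit 66, nat_lit 0, nat_lit 0, nat_lit 0, nat_lit 0, nat_lit 215, nat_lit 41667, nat_lit 265, nat_lit 65203628, nat_lit 0, nat_lit 0, nat_lit 617358, false, false⟩,
 nat_lit 0, nat_lit 7751, nat_lit 0, nat_lit 0, nat_lit 4123, nat_lit 0, nat_lit 0, nat_lit 0, nat_lit 0, nat_lit 0, nat_lit 0, nat_lit 0, nat_lit 0, nat_lit 0, nat_lit 105, nat_lit 674800, nat_lit 0, nat_lit 0, [(nat_lit 6, [(nat_lit 5, nat_lit 542), (nat_lit 6, nat_lit 458)])],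
 ⟨p009_k20, nat_lit 0, nat_lit 0, nat_lit 317, nat_lit 0, nat_lit 120575, [nat_lit 2895835734, nat_lit 2190259201, nat_lit 34435199], [], [nat_lit 14447819436, nat_lit 14422720537, nat_lit 14491664384, nat_lit 14386675487], nat_lit 1271250, nat_lit 1271250, nat_lit 88400, nat_lit 111251, nat_lit 0, nat_lit 0, [nat_lit 1100000, nat_lit 1442500, nat_lit 1271250], [nat_lit 11, nat_lit 40, nat_lit 20, nat_lit 80, nat_lit 1, nat_lit 289, nat_lit 75, nat_lit 9]⟩, C1.Rw.none,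
 ⟨nat_lit 6284, nat_lit 6305, ⟨.ofNat (nat_lit 159847), .ofNat (nat_lit 168054), .ofNat (nat_lit 163052), .ofNat (nat_lit 171259), .ofNat (nat_lit 160716), .ofNat (nat_lit 168904), .ofNat (nat_lit 163920), .ofNat (nat_lit 172108)⟩, ⟨.ofNat (nat_lit 0), .ofNat (nat_lit 0), .ofNat (nat_lit 0), .ofNat (nat_lit 0), .ofNat (nat_lit 0), .ofNat (nat_lit 0), .ofNat (nat_lit 0), .ofNat (nat_lit 0)⟩⟩, []⟩
noncomputable def p009_l53 : Lf2 := ⟨nat_lit 0, nat_lit 5, [nat_lit 4, nat_lit 5, nat_lit 5, nat_lit 20], true, nat_lit 0, nat_lit 0, nat_lit 0, nat_lit 0, ⟨nat_lit 0, nat_lit 0, nat_lit 1000, nat_lit 5, nat_lit 67, nat_lit 0, nat_lit 0, nat_lit 0, nat_lit 0, nat_lit 215, nat_lit 41667, nat_lit 265, nat_lit 65185510, nat_lit 0, nat_lit 0, nat_lit 622208, false, false⟩,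
 nat_lit 0, nat_lit 7662, nat_lit 0, nat_lit 0, nat_lit 4096, nat_lit 0, nat_lit 0, nat_lit 0, nat_lit 0, nat_lit 0, nat_lit 0, nat_lit 0, nat_lit 0, nat_lit 0, nat_lit 110, nat_lit 713200, nat_lit 0, nat_lit 0, [(nat_lit 6, [(nat_lit 5, nat_lit 478), (nat_lit 6, nat_lit 522)])],
 ⟨p009_k22, nat_lit 0, nat_lit 0, nat_lit 319, nat_lit 0, nat_lit 124343, [nat_lit 2947641601, nat_lit 2291692801, nat_lit 52476799], [], [nat_lit 14359994588, nat_lit 14346149375, nat_lit 14404305565, nat_lit 14300004202], nat_lit 1271250, nat_lit 1271250, nat_lit 88400, nat_lit 111251, nat_lit 0, nat_lit 0, [nat_lit 1100000, nat_lit 1442500, nat_lit 1271250], [nat_lit 11, nat_lit 40, nat_lit 20, nat_lit 80, nat_lit 1, nat_lit 289, nat_lit 75, nat_lit 9]⟩, C1.Rw.none,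
 ⟨nat_lit 6264, nat_lit 6285, ⟨.ofNat (nat_lit 160716), .ofNat (nat_lit 168904), .ofNat (nat_lit 163920), .ofNat (nat_lit 172108), .ofNat (nat_lit 161582), .ofNat (nat_lit 169752), .ofNat (nat_lit 164787), .ofNat (nat_lit 172956)⟩, ⟨.ofNat (nat_lit 0), .ofNat (nat_lit 0), .ofNat (nat_lit 0), .ofNat (nat_lit 0), .ofNat (nat_lit 0), .ofNat (nat_lit 0), .ofNat (nat_lit 0), .ofNat (nat_lit 0)⟩⟩, [⟨nat_lit 0, nat_lit 100, nat_lit 99, nat_lit 40, nat_lit 54160766⟩]⟩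
noncomputable def p009_l54 : Lf2 := ⟨nat_lit 0, nat_lit 5, [nat_lit 4, nat_lit 5, nat_lit 5, nat_lit 20], false, nat_lit 0, nat_lit 0, nat_lit 0, nat_lit 0, ⟨nat_lit 1000, nat_lit 0, nat_lit 0, nat_lit 0, nat_lit 0, nat_lit 0, nat_lit 0, nat_lit 0, nat_lit 0, nat_lit 0, nat_lit 0, nat_lit 0, nat_lit 0, nat_lit 0, nat_lit 0, nat_lit 0, false, false⟩,
 nat_lit 0, nat_lit 17742, nat_lit 0, nat_lit 0, nat_lit 9392, nat_lit 4328, nat_lit 2756, nat_lit 0, nat_lit 0, nat_lit 0, nat_lit 0, nat_lit 0, nat_lit 0, nat_lit 0, nat_lit 0, nat_lit 0, nat_lit 0, nat_lit 0, [],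
 ⟨p009_k8, nat_lit 0, nat_lit 0, nat_lit 317, nat_lit 0, nat_lit 121014, [nat_lit 4688000000, nat_lit 6250000000, nat_lit 9842000000], [], [nat_lit 22290947514, nat_lit 22248523784, nat_lit 22273659776, nat_lit 22034500010], nat_lit 1271250, nat_lit 1271250, nat_lit 88400, nat_lit 111251, nat_lit 0, nat_lit 0, [nat_lit 1100000, nat_lit 1442500, nat_lit 1271250], [nat_lit 11, nat_lit 40, nat_lit 20, nat_lit 80, nat_lit 1, nat_lit 289, nat_lit 75, nat_lit 9]⟩, ⟨p009_k34, nat_lit 0, nat_lit 0, nat_lit 0, nat_lit 0, nat_lit 0, [nat_lit 2637500000, nat_lit 5449500000, nat_lit 7089500000, nat_lit 8885500000], [], [nat_lit 24508341672, nat_lit 24566810446, nat_lit 24284025060, nat_lit 24342489426], nat_lit 0, nat_lit 0, nat_lit 0, nat_lit 0, nat_lit 0, nat_lit 0, [], [nat_lit 117, nat_lit 40, nat_lit 20, nat_lit 40]⟩,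
 zbF0, []⟩
noncomputable def p009_l55 : Lf2 := ⟨nat_lit 0, nat_lit 5, [nat_lit 4, nat_lit 5, nat_lit 5, nat_lit 20], false, nat_lit 0, nat_lit 0, nat_lit 0, nat_lit 0, ⟨nat_lit 0, nat_lit 0, nat_lit 1000, nat_lit 5, nat_lit 67, nat_lit 0, nat_lit 0, nat_lit 0, nat_lit 0, nat_lit 215, nat_lit 41667, nat_lit 265, nat_lit 65176638, nat_lit 0, nat_lit 0, nat_lit 624578, false, false⟩,
 nat_lit 0, nat_lit 7851, nat_lit 0, nat_lit 0, nat_lit 4156, nat_lit 100000, nat_lit 0, nat_lit 0, nat_lit 0, nat_lit 28920, nat_lit 5637, nat_lit 0, nat_lit 0, nat_lit 0, nat_lit 100, nat_lit 638800, nat_lit 0, nat_lit 0, [(nat_lit 6, [(nat_lit 5, nat_lit 602), (nat_lit 6, nat_lit 398)])],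
 ⟨p009_k8, nat_lit 0, nat_lit 0, nat_lit 317, nat_lit 0, nat_lit 121014, [nat_lit 2842267734, nat_lit 2088915201, nat_lit 8771199], [], [nat_lit 14526267461, nat_lit 14493861209, nat_lit 14569574904, nat_lit 14463745689], nat_lit 1271250, nat_lit 1271250, nat_lit 88400, nat_lit 111251, nat_lit 0, nat_lit 0, [nat_lit 1100000, nat_lit 1442500, nat_lit 1271250], [nat_lit 11, nat_lit 40, nat_lit 20, nat_lit 80, nat_lit 1, nat_lit 289, nat_lit 75, nat_lit 9]⟩, ⟨p009_k28, nat_lit 0, nat_lit 0, nat_lit 0, nat_lit 0, nat_lit 0, [nat_lit 112740000000, nat_lit 135288000000, nat_lit 157836000000], [], [nat_lit 140540694000, nat_lit 140921406000, nat_lit 134498710001, nat_lit 134873080001], nat_lit 0, nat_lit 0, nat_lit 0, nat_lit 0, nat_lit 0, nat_lit 0, [], [nat_lit 25, nat_lit 40, nat_lit 20, nat_lit 80]⟩,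
 ⟨nat_lit 6304, nat_lit 6325, ⟨.ofNat (nat_lit 162182), .ofNat (nat_lit 170408), .ofNat (nat_lit 163250), .ofNat (nat_lit 171477), .ofNat (nat_lit 163052), .ofNat (nat_lit 171259), .ofNat (nat_lit 164120), .ofNat (nat_lit 172327)⟩, ⟨.ofNat (nat_lit 0), .ofNat (nat_lit 0), .ofNat (nat_lit 0), .ofNat (nat_lit 0), .ofNat (nat_lit 0), .ofNat (nat_lit 0), .ofNat (nat_lit 0), .ofNat (nat_lit 0)⟩⟩, []⟩
noncomputable def p009_l56 : Lf2 := ⟨nat_lit 3, nat_lit 5, [nat_lit 4, nat_lit 5, nat_lit 5, nat_lit 20], false, nat_lit 0, nat_lit 0, nat_lit 0, nat_lit 0, zbN0,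
 nat_lit 0, nat_lit 0, nat_lit 0, nat_lit 0, nat_lit 0, nat_lit 0, nat_lit 0, nat_lit 0, nat_lit 0, nat_lit 0, nat_lit 0, nat_lit 0, nat_lit 0, nat_lit 0, nat_lit 0, nat_lit 0, nat_lit 0, nat_lit 0, [],
 C1.Rw.none, ⟨p009_k29, nat_lit 0, nat_lit 0, nat_lit 206, nat_lit 0, nat_lit 0, [], [], [], nat_lit 0, nat_lit 0, nat_lit 0, nat_lit 0, nat_lit 0, nat_lit 0, [], [nat_lit 51, nat_lit 40, nat_lit 20, nat_lit 80, nat_lit 1, nat_lit 289, nat_lit 75, nat_lit 9]⟩,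
 zbF0, []⟩
noncomputable def p009_l57 : Lf2 := ⟨nat_lit 0, nat_lit 5, [nat_lit 4, nat_lit 5, nat_lit 5, nat_lit 20], false, nat_lit 0, nat_lit 0, nat_lit 0, nat_lit 0, ⟨nat_lit 126, nat_lit 0, nat_lit 874, nat_lit 5, nat_lit 67, nat_lit 0, nat_lit 0, nat_lit 0, nat_lit 0, nat_lit 215, nat_lit 41667, nat_lit 265, nat_lit 65158367, nat_lit 0, nat_lit 0, nat_lit 629448, false, false⟩,
 nat_lit 0, nat_lit 8701, nat_lit 0, nat_lit 0, nat_lit 4629, nat_lit 1056, nat_lit 0, nat_lit 0, nat_lit 0, nat_lit 0, nat_lit 0, nat_lit 0, nat_lit 0, nat_lit 0, nat_lit 84, nat_lit 874000, nat_lit 0, nat_lit 0, [(nat_lit 6, [(nat_lit 6, nat_lit 874)])],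
 ⟨p009_k20, nat_lit 0, nat_lit 0, nat_lit 319, nat_lit 0, nat_lit 124776, [nat_lit 2788644267, nat_lit 2556997601, nat_lit 130274399], [], [nat_lit 15463780192, nat_lit 15489586536, nat_lit 15501788400, nat_lit 15383914618], nat_lit 1271250, nat_lit 1271250, nat_lit 88400, nat_lit 111251, nat_lit 0, nat_lit 0, [nat_lit 1100000, nat_lit 1442500, nat_lit 1271250], [nat_lit 11, nat_lit 40, nat_lit 20, nat_lit 80, nat_lit 1, nat_lit 289, nat_lit 75, nat_lit 9]⟩, ⟨p009_k32, nat_lit 0, nat_lit 0, nat_lit 0, nat_lit 0, nat_lit 0, [nat_lit 686637000, nat_lit 893277000, nat_lit 1119573000], [], [nat_lit 3366253290, nat_lit 3375128923, nat_lit 3308171321, nat_lit 3317049225], nat_lit 0, nat_lit 0, nat_lit 0, nat_lit 0, nat_lit 0, nat_lit 0, [], [nat_lit 96, nat_lit 40, nat_lit 20, nat_lit 40]⟩,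
 ⟨nat_lit 6284, nat_lit 6305, ⟨.ofNat (nat_lit 163052), .ofNat (nat_lit 171259), .ofNat (nat_lit 164120), .ofNat (nat_lit 172327), .ofNat (nat_lit 163920), .ofNat (nat_lit 172108), .ofNat (nat_lit 164988), .ofNat (nat_lit 173177)⟩, ⟨.ofNat (nat_lit 0), .ofNat (nat_lit 0), .ofNat (nat_lit 0), .ofNat (nat_lit 0), .ofNat (nat_lit 0), .ofNat (nat_lit 0), .ofNat (nat_lit 0), .ofNat (nat_lit 0)⟩⟩, [⟨nat_lit 0, nat_lit 100, nat_lit 100, nat_lit 40, nat_lit 221915230⟩]⟩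
noncomputable def p009_l58 : Lf2 := ⟨nat_lit 3, nat_lit 5, [nat_lit 4, nat_lit 5, nat_lit 5, nat_lit 20], false, nat_lit 0, nat_lit 0, nat_lit 0, nat_lit 0, zbN0,
 nat_lit 0, nat_lit 0, nat_lit 0, nat_lit 0, nat_lit 0, nat_lit 0, nat_lit 0, nat_lit 0, nat_lit 0, nat_lit 0, nat_lit 0, nat_lit 0, nat_lit 0, nat_lit 0, nat_lit 0, nat_lit 0, nat_lit 0, nat_lit 0, [],
 C1.Rw.none, ⟨p009_k29, nat_lit 0, nat_lit 0, nat_lit 206, nat_lit 0, nat_lit 0, [], [], [], nat_lit 0, nat_lit 0, nat_lit 0, nat_lit 0, nat_lit 0, nat_lit 0, [], [nat_lit 51, nat_lit 40, nat_lit 20, nat_lit 80, nat_lit 1, nat_lit 289, nat_lit 75, nat_lit 9]⟩,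
 zbF0, []⟩
noncomputable def p009_l59 : Lf2 := ⟨nat_lit 0, nat_lit 5, [nat_lit 4, nat_lit 5, nat_lit 5, nat_lit 20], false, nat_lit 0, nat_lit 0, nat_lit 0, nat_lit 0, ⟨nat_lit 1000, nat_lit 0, nat_lit 0, nat_lit 0, nat_lit 0, nat_lit 0, nat_lit 0, nat_lit 0, nat_lit 0, nat_lit 0, nat_lit 0, nat_lit 0, nat_lit 0, nat_lit 0, nat_lit 0, nat_lit 0, false, false⟩,
 nat_lit 0, nat_lit 17742, nat_lit 0, nat_lit 0, nat_lit 9392, nat_lit 4325, nat_lit 2728, nat_lit 0, nat_lit 0, nat_lit 0, nat_lit 0, nat_lit 0, nat_lit 0, nat_lit 0, nat_lit 0, nat_lit 0, nat_lit 0, nat_lit 0, [],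
 ⟨p009_k8, nat_lit 0, nat_lit 0, nat_lit 319, nat_lit 0, nat_lit 125262, [nat_lit 4688000000, nat_lit 6250000000, nat_lit 9842000000], [], [nat_lit 22290947514, nat_lit 22337948784, nat_lit 22273659776, nat_lit 22034500010], nat_lit 1271250, nat_lit 1271250, nat_lit 88400, nat_lit 111251, nat_lit 0, nat_lit 0, [nat_lit 1100000, nat_lit 1442500, nat_lit 1271250], [nat_lit 11, nat_lit 40, nat_lit 20, nat_lit 80, nat_lit 1, nat_lit 289, nat_lit 75, nat_lit 9]⟩, ⟨p009_k35, nat_lit 0, nat_lit 0, nat_lit 0, nat_lit 0, nat_lit 0, [nat_lit 2637500000, nat_lit 5449500000, nat_lit 7089500000, nat_lit 8885500000], [], [nat_lit 24568261177, nat_lit 24626712780, nat_lit 24344129128, nat_lit 24402576300], nat_lit 0, nat_lit 0, nat_lit 0, nat_lit 0, nat_lit 0, nat_lit 0, [], [nat_lit 117, nat_lit 40, nat_lit 20, nat_lit 40]⟩,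
 zbF0, [⟨nat_lit 0, nat_lit 100, nat_lit 100, nat_lit 40, nat_lit 1105052764⟩]⟩
noncomputable def p009_l60 : Lf2 := ⟨nat_lit 0, nat_lit 5, [nat_lit 4, nat_lit 5, nat_lit 5, nat_lit 20], false, nat_lit 0, nat_lit 0, nat_lit 0, nat_lit 0, ⟨nat_lit 0, nat_lit 0, nat_lit 1000, nat_lit 5, nat_lit 67, nat_lit 0, nat_lit 0, nat_lit 0, nat_lit 0, nat_lit 215, nat_lit 43350, nat_lit 266, nat_lit 65153914, nat_lit 0, nat_lit 0, nat_lit 630633, false, false⟩,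
 nat_lit 0, nat_lit 7872, nat_lit 0, nat_lit 0, nat_lit 4167, nat_lit 100000, nat_lit 0, nat_lit 0, nat_lit 0, nat_lit 28479, nat_lit 5645, nat_lit 0, nat_lit 0, nat_lit 0, nat_lit 100, nat_lit 635200, nat_lit 0, nat_lit 0, [(nat_lit 6, [(nat_lit 5, nat_lit 608), (nat_lit 6, nat_lit 392)])],
 ⟨p009_k8, nat_lit 0, nat_lit 0, nat_lit 319, nat_lit 0, nat_lit 125262, [nat_lit 2844910934, nat_lit 2088780801, nat_lit 20204799], [], [nat_lit 14511828370, nat_lit 14512597421, nat_lit 14555008512, nat_lit 14448899191], nat_lit 1271250, nat_lit 1271250, nat_lit 88400, nat_lit 111251, nat_lit 0, nat_lit 0, [nat_lit 1100000, nat_lit 1442500, nat_lit 1271250], [nat_lit 11, nat_lit 40, nat_lit 20, nat_lit 80, nat_lit 1, nat_lit 289, nat_lit 75, nat_lit 9]⟩, ⟨p009_k30, nat_lit 0, nat_lit 0, nat_lit 0, nat_lit 0, nat_lit 0, [nat_lit 112900000000, nat_lit 135480000000, nat_lit 158060000000], [], [nat_lit 141433197001,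 nat_lit 141812695000, nat_lit 135392005001, nat_lit 135766375000], nat_lit 0, nat_lit 0, nat_lit 0, nat_lit 0, nat_lit 0, nat_lit 0, [], [nat_lit 25, nat_lit 40, nat_lit 20, nat_lit 80]⟩,
 ⟨nat_lit 6304, nat_lit 6325, ⟨.ofNat (nat_lit 163250), .ofNat (nat_lit 171477), .ofNat (nat_lit 164319), .ofNat (nat_lit 172545), .ofNat (nat_lit 164120), .ofNat (nat_lit 172327), .ofNat (nat_lit 165188), .ofNat (nat_lit 173396)⟩, ⟨.ofNat (nat_lit 0), .ofNat (nat_lit 0), .ofNat (nat_lit 0), .ofNat (nat_lit 0), .ofNat (nat_lit 0), .ofNat (nat_lit 0), .ofNat (nat_lit 0), .ofNat (nat_lit 0)⟩⟩, [⟨nat_lit 0, nat_lit 100, nat_lit 100, nat_lit 40, nat_lit 6286538437⟩]⟩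
noncomputable def p009_l61 : Lf2 := ⟨nat_lit 3, nat_lit 5, [nat_lit 4, nat_lit 5, nat_lit 5, nat_lit 20], false, nat_lit 0, nat_lit 0, nat_lit 0, nat_lit 0, zbN0,
 nat_lit 0, nat_lit 0, nat_lit 0, nat_lit 0, nat_lit 0, nat_lit 0, nat_lit 0, nat_lit 0, nat_lit 0, nat_lit 0, nat_lit 0, nat_lit 0, nat_lit 0, nat_lit 0, nat_lit 0, nat_lit 0, nat_lit 0, nat_lit 0, [],
 C1.Rw.none, ⟨p009_k31, nat_lit 0, nat_lit 0, nat_lit 206, nat_lit 0, nat_lit 0, [], [], [], nat_lit 0, nat_lit 0, nat_lit 0, nat_lit 0, nat_lit 0, nat_lit 0, [], [nat_lit 51, nat_lit 40, nat_lit 20, nat_lit 80, nat_lit 1, nat_lit 289, nat_lit 75, nat_lit 9]⟩,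
 zbF0, []⟩
noncomputable def p009_l62 : Lf2 := ⟨nat_lit 0, nat_lit 5, [nat_lit 4, nat_lit 5, nat_lit 5, nat_lit 20], false, nat_lit 0, nat_lit 0, nat_lit 0, nat_lit 0, ⟨nat_lit 1000, nat_lit 0, nat_lit 0, nat_lit 0, nat_lit 0, nat_lit 0, nat_lit 0, nat_lit 0, nat_lit 0, nat_lit 0, nat_lit 0, nat_lit 0, nat_lit 0, nat_lit 0, nat_lit 0, nat_lit 0, false, false⟩,
 nat_lit 0, nat_lit 17456, nat_lit 0, nat_lit 0, nat_lit 9286, nat_lit 4325, nat_lit 2781, nat_lit 0, nat_lit 0, nat_lit 0, nat_lit 0, nat_lit 0, nat_lit 0, nat_lit 0, nat_lit 0, nat_lit 0, nat_lit 0, nat_lit 0, [],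
 ⟨p009_k20, nat_lit 0, nat_lit 0, nat_lit 320, nat_lit 0, nat_lit 128977, [nat_lit 4688000000, nat_lit 6250000000, nat_lit 9842000000], [], [nat_lit 22024963664, nat_lit 22074173484, nat_lit 22009253097, nat_lit 21772792536], nat_lit 1271250, nat_lit 1271250, nat_lit 88400, nat_lit 111251, nat_lit 0, nat_lit 0, [nat_lit 1100000, nat_lit 1442500, nat_lit 1271250], [nat_lit 11, nat_lit 40, nat_lit 20, nat_lit 80, nat_lit 1, nat_lit 289, nat_lit 75, nat_lit 9]⟩, ⟨p009_k35, nat_lit 0, nat_lit 0, nat_lit 0, nat_lit 0, nat_lit 0, [nat_lit 2637500000, nat_lit 5449500000, nat_lit 7089500000, nat_lit 8885500000], [], [nat_lit 24568261177, nat_lit 24626712780, nat_lit 24344129128, nat_lit 24402576300], nat_lit 0, nat_lit 0, nat_lit 0, nat_lit 0, nat_lit 0, nat_lit 0, [], [nat_lit 117, nat_lit 40, nat_lit 20, nat_lit 40]⟩,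
 zbF0, [⟨nat_lit 0, nat_lit 100, nat_lit 100, nat_lit 41, nat_lit 1101471608⟩]⟩
noncomputable def p009_l63 : Lf2 := ⟨nat_lit 0, nat_lit 5, [nat_lit 4, nat_lit 5, nat_lit 5, nat_lit 20], false, nat_lit 0, nat_lit 0, nat_lit 0, nat_lit 0, ⟨nat_lit 0, nat_lit 0, nat_lit 1000, nat_lit 5, nat_lit 68, nat_lit 0, nat_lit 0, nat_lit 0, nat_lit 0, nat_lit 215, nat_lit 43350, nat_lit 266, nat_lit 65135542, nat_lit 0, nat_lit 0, nat_lit 635512, false, false⟩,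
 nat_lit 0, nat_lit 7771, nat_lit 0, nat_lit 0, nat_lit 4134, nat_lit 100000, nat_lit 0, nat_lit 0, nat_lit 0, nat_lit 28499, nat_lit 5640, nat_lit 0, nat_lit 0, nat_lit 0, nat_lit 104, nat_lit 671200, nat_lit 0, nat_lit 0, [(nat_lit 6, [(nat_lit 5, nat_lit 548), (nat_lit 6, nat_lit 452)])],
 ⟨p009_k20, nat_lit 0, nat_lit 0, nat_lit 320, nat_lit 0, nat_lit 128977, [nat_lit 2882478934, nat_lit 2170124801, nat_lit 17868799], [], [nat_lit 14433099824, nat_lit 14440981409, nat_lit 14476817886, nat_lit 14371548883], nat_lit 1271250, nat_lit 1271250, nat_lit 88400, nat_lit 111251, nat_lit 0, nat_lit 0, [nat_lit 1100000, nat_lit 1442500, nat_lit 1271250], [nat_lit 11, nat_lit 40, nat_lit 20, nat_lit 80, nat_lit 1, nat_lit 289, nat_lit 75, nat_lit 9]⟩, ⟨p009_k30, nat_lit 0, nat_lit 0, nat_lit 0, nat_lit 0, nat_lit 0, [nat_lit 112800000000, nat_lit 135360000000, nat_lit 157920000000], [], [nat_lit 141129697001,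 nat_lit 141610720000, nat_lit 135088505001, nat_lit 135553600000], nat_lit 0, nat_lit 0, nat_lit 0, nat_lit 0, nat_lit 0, nat_lit 0, [], [nat_lit 25, nat_lit 40, nat_lit 20, nat_lit 80]⟩,
 ⟨nat_lit 6284, nat_lit 6305, ⟨.ofNat (nat_lit 164120), .ofNat (nat_lit 172327), .ofNat (nat_lit 165188), .ofNat (nat_lit 173396), .ofNat (nat_lit 164988), .ofNat (nat_lit 173177), .ofNat (nat_lit 166056), .ofNat (nat_lit 174245)⟩, ⟨.ofNat (nat_lit 0), .ofNat (nat_lit 0), .ofNat (nat_lit 0), .ofNat (nat_lit 0), .ofNat (nat_lit 0), .ofNat (nat_lit 0), .ofNat (nat_lit 0), .ofNat (nat_lit 0)⟩⟩, [⟨nat_lit 0, nat_lit 100, nat_lit 100, nat_lit 40, nat_lit 7607180843⟩]⟩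
noncomputable def p009_l64 : Lf2 := ⟨nat_lit 3, nat_lit 5, [nat_lit 4, nat_lit 5, nat_lit 5, nat_lit 20], false, nat_lit 0, nat_lit 0, nat_lit 0, nat_lit 0, zbN0,
 nat_lit 0, nat_lit 0, nat_lit 0, nat_lit 0, nat_lit 0, nat_lit 0, nat_lit 0, nat_lit 0, nat_lit 0, nat_lit 0, nat_lit 0, nat_lit 0, nat_lit 0, nat_lit 0, nat_lit 0, nat_lit 0, nat_lit 0, nat_lit 0, [],
 C1.Rw.none, ⟨p009_k31, nat_lit 0, nat_lit 0, nat_lit 206, nat_lit 0, nat_lit 0, [], [], [], nat_lit 0, nat_lit 0, nat_lit 0, nat_lit 0, nat_lit 0, nat_lit 0, [], [nat_lit 51, nat_lit 40, nat_lit 20, nat_lit 80, nat_lit 1, nat_lit 289, nat_lit 75, nat_lit 9]⟩,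
 zbF0, []⟩
noncomputable def p009_l65 : Lf2 := ⟨nat_lit 0, nat_lit 5, [nat_lit 4, nat_lit 5, nat_lit 5, nat_lit 20], false, nat_lit 0, nat_lit 0, nat_lit 0, nat_lit 0, ⟨nat_lit 111, nat_lit 0, nat_lit 889, nat_lit 5, nat_lit 68, nat_lit 0, nat_lit 0, nat_lit 0, nat_lit 0, nat_lit 215, nat_lit 43350, nat_lit 266, nat_lit 65140044, nat_lit 0, nat_lit 0, nat_lit 634318, false, false⟩,
 nat_lit 0, nat_lit 8481, nat_lit 0, nat_lit 0, nat_lit 4534, nat_lit 928, nat_lit 0, nat_lit 0, nat_lit 0, nat_lit 0, nat_lit 0, nat_lit 0, nat_lit 0, nat_lit 0, nat_lit 92, nat_lit 889000, nat_lit 0, nat_lit 0, [(nat_lit 6, [(nat_lit 6, nat_lit 889)])],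
 ⟨p009_k22, nat_lit 0, nat_lit 0, nat_lit 321, nat_lit 0, nat_lit 128497, [nat_lit 2860980267, nat_lit 2624783601, nat_lit 149908399], [], [nat_lit 15255692505, nat_lit 15285174866, nat_lit 15294967656, nat_lit 15179512973], nat_lit 1271250, nat_lit 1271250, nat_lit 88400, nat_lit 111251, nat_lit 0, nat_lit 0, [nat_lit 1100000, nat_lit 1442500, nat_lit 1271250], [nat_lit 11, nat_lit 40, nat_lit 20, nat_lit 80, nat_lit 1, nat_lit 289, nat_lit 75, nat_lit 9]⟩, ⟨p009_k32, nat_lit 0, nat_lit 0, nat_lit 0, nat_lit 0, nat_lit 0, [nat_lit 604894500, nat_lit 786934500, nat_lit 986290500], [], [nat_lit 2966824086, nat_lit 2974632536, nat_lit 2915795238, nat_lit 2923605673], nat_lit 0, nat_lit 0, nat_lit 0, nat_lit 0, nat_lit 0, nat_lit 0, [], [nat_lit 96, nat_lit 40, nat_lit 20, nat_lit 40]⟩,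
 ⟨nat_lit 6264, nat_lit 6285, ⟨.ofNat (nat_lit 163920), .ofNat (nat_lit 172108), .ofNat (nat_lit 164988), .ofNat (nat_lit 173177), .ofNat (nat_lit 164787), .ofNat (nat_lit 172956), .ofNat (nat_lit 165855), .ofNat (nat_lit 174024)⟩, ⟨.ofNat (nat_lit 0), .ofNat (nat_lit 0), .ofNat (nat_lit 0), .ofNat (nat_lit 0), .ofNat (nat_lit 0), .ofNat (nat_lit 0), .ofNat (nat_lit 0), .ofNat (nat_lit 0)⟩⟩, [⟨nat_lit 0, nat_lit 100, nat_lit 100, nat_lit 41, nat_lit 201075460⟩]⟩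
noncomputable def p009_l66 : Lf2 := ⟨nat_lit 3, nat_lit 5, [nat_lit 4, nat_lit 5, nat_lit 5, nat_lit 20], false, nat_lit 0, nat_lit 0, nat_lit 0, nat_lit 0, zbN0,
 nat_lit 0, nat_lit 0, nat_lit 0, nat_lit 0, nat_lit 0, nat_lit 0, nat_lit 0, nat_lit 0, nat_lit 0, nat_lit 0, nat_lit 0, nat_lit 0, nat_lit 0, nat_lit 0, nat_lit 0, nat_lit 0, nat_lit 0, nat_lit 0, [],
 C1.Rw.none, ⟨p009_k29, nat_lit 0, nat_lit 0, nat_lit 206, nat_lit 0, nat_lit 0, [], [], [], nat_lit 0, nat_lit 0, nat_lit 0, nat_lit 0, nat_lit 0, nat_lit 0, [], [nat_lit 51, nat_lit 40, nat_lit 20, nat_lit 80, nat_lit 1, nat_lit 289, nat_lit 75, nat_lit 9]⟩,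
 zbF0, []⟩
noncomputable def p009_l67 : Lf2 := ⟨nat_lit 0, nat_lit 5, [nat_lit 4, nat_lit 5, nat_lit 5, nat_lit 20], false, nat_lit 0, nat_lit 0, nat_lit 0, nat_lit 0, ⟨nat_lit 1000, nat_lit 0, nat_lit 0, nat_lit 0, nat_lit 0, nat_lit 0, nat_lit 0, nat_lit 0, nat_lit 0, nat_lit 0, nat_lit 0, nat_lit 0, nat_lit 0, nat_lit 0, nat_lit 0, nat_lit 0, false, false⟩,
 nat_lit 0, nat_lit 17137, nat_lit 0, nat_lit 0, nat_lit 9161, nat_lit 4328, nat_lit 2841, nat_lit 0, nat_lit 0, nat_lit 0, nat_lit 0, nat_lit 0, nat_lit 0, nat_lit 0, nat_lit 0, nat_lit 0, nat_lit 0, nat_lit 0, [],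
 ⟨p009_k22, nat_lit 0, nat_lit 0, nat_lit 322, nat_lit 0, nat_lit 132650, [nat_lit 4688000000, nat_lit 6250000000, nat_lit 9842000000], [], [nat_lit 21750634285, nat_lit 21802317738, nat_lit 21736711336, nat_lit 21503433800], nat_lit 1271250, nat_lit 1271250, nat_lit 88400, nat_lit 111251, nat_lit 0, nat_lit 0, [nat_lit 1100000, nat_lit 1442500, nat_lit 1271250], [nat_lit 11, nat_lit 40, nat_lit 20, nat_lit 80, nat_lit 1, nat_lit 289, nat_lit 75, nat_lit 9]⟩, ⟨p009_k35, nat_lit 0, nat_lit 0, nat_lit 0, nat_lit 0, nat_lit 0, [nat_lit 2637500000, nat_lit 5449500000, nat_lit 7089500000, nat_lit 8885500000], [], [nat_lit 24566810446, nat_lit 24627776973, nat_lit 24342489426, nat_lit 24400953792], nat_lit 0, nat_lit 0, nat_lit 0, nat_lit 0, nat_lit 0, nat_lit 0, [], [nat_lit 117, nat_lit 40, nat_lit 20, nat_lit 40]⟩,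
 zbF0, [⟨nat_lit 0, nat_lit 100, nat_lit 100, nat_lit 41, nat_lit 1099804193⟩]⟩
noncomputable def p009_l68 : Lf2 := ⟨nat_lit 0, nat_lit 5, [nat_lit 4, nat_lit 5, nat_lit 5, nat_lit 20], false, nat_lit 0, nat_lit 0, nat_lit 0, nat_lit 0, ⟨nat_lit 0, nat_lit 0, nat_lit 1000, nat_lit 5, nat_lit 68, nat_lit 0, nat_lit 0, nat_lit 0, nat_lit 0, nat_lit 215, nat_lit 43350, nat_lit 266, nat_lit 65117119, nat_lit 0, nat_lit 0, nat_lit 640391, false, false⟩,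
 nat_lit 0, nat_lit 7681, nat_lit 0, nat_lit 0, nat_lit 4106, nat_lit 100000, nat_lit 0, nat_lit 0, nat_lit 0, nat_lit 28502, nat_lit 5639, nat_lit 0, nat_lit 0, nat_lit 0, nat_lit 110, nat_lit 711400, nat_lit 0, nat_lit 0, [(nat_lit 6, [(nat_lit 5, nat_lit 481), (nat_lit 6, nat_lit 519)])],
 ⟨p009_k22, nat_lit 0, nat_lit 0, nat_lit 322, nat_lit 0, nat_lit 132650, [nat_lit 2948963201, nat_lit 2291625601, nat_lit 58193599], [], [nat_lit 14345386757, nat_lit 14359347279, nat_lit 14389582761, nat_lit 14285026756], nat_lit 1271250, nat_lit 1271250, nat_lit 88400, nat_lit 111251, nat_lit 0, nat_lit 0, [nat_lit 1100000, nat_lit 1442500, nat_lit 1271250], [nat_lit 11, nat_lit 40, nat_lit 20, nat_lit 80, nat_lit 1, nat_lit 289, nat_lit 75, nat_lit 9]⟩, ⟨p009_k30, nat_lit 0, nat_lit 0, nat_lit 0, nat_lit 0, nat_lit 0, [nat_lit 112780000000, nat_lit 135336000000, nat_lit 157892000000], [], [nat_lit 141072172001,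 nat_lit 141571670000, nat_lit 135030980001, nat_lit 135513600000], nat_lit 0, nat_lit 0, nat_lit 0, nat_lit 0, nat_lit 0, nat_lit 0, [], [nat_lit 25, nat_lit 40, nat_lit 20, nat_lit 80]⟩,
 ⟨nat_lit 6264, nat_lit 6285, ⟨.ofNat (nat_lit 164988), .ofNat (nat_lit 173177), .ofNat (nat_lit 166056), .ofNat (nat_lit 174245), .ofNat (nat_lit 165855), .ofNat (nat_lit 174024), .ofNat (nat_lit 166923), .ofNat (nat_lit 175092)⟩, ⟨.ofNat (nat_lit 0), .ofNat (nat_lit 0), .ofNat (nat_lit 0), .ofNat (nat_lit 0), .ofNat (nat_lit 0), .ofNat (nat_lit 0), .ofNat (nat_lit 0), .ofNat (nat_lit 0)⟩⟩, [⟨nat_lit 0, nat_lit 100, nat_lit 100, nat_lit 41, nat_lit 7606094217⟩]⟩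
noncomputable def p009_l69 : Lf2 := ⟨nat_lit 3, nat_lit 5, [nat_lit 4, nat_lit 5, nat_lit 5, nat_lit 20], false, nat_lit 0, nat_lit 0, nat_lit 0, nat_lit 0, zbN0,
 nat_lit 0, nat_lit 0, nat_lit 0, nat_lit 0, nat_lit 0, nat_lit 0, nat_lit 0, nat_lit 0, nat_lit 0, nat_lit 0, nat_lit 0, nat_lit 0, nat_lit 0, nat_lit 0, nat_lit 0, nat_lit 0, nat_lit 0, nat_lit 0, [],
 C1.Rw.none, ⟨p009_k31, nat_lit 0, nat_lit 0, nat_lit 206, nat_lit 0, nat_lit 0, [], [], [], nat_lit 0, nat_lit 0, nat_lit 0, nat_lit 0, nat_lit 0, nat_lit 0, [], [nat_lit 51, nat_lit 40, nat_lit 20, nat_lit 80, nat_lit 1, nat_lit 289, nat_lit 75, nat_lit 9]⟩,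
 zbF0, []⟩
noncomputable def p009_l70 : Lf2 := ⟨nat_lit 0, nat_lit 5, [nat_lit 4, nat_lit 5, nat_lit 5, nat_lit 20], true, nat_lit 0, nat_lit 0, nat_lit 0, nat_lit 0, ⟨nat_lit 0, nat_lit 0, nat_lit 1000, nat_lit 5, nat_lit 64, nat_lit 0, nat_lit 0, nat_lit 0, nat_lit 0, nat_lit 215, nat_lit 38400, nat_lit 263, nat_lit 65306322, nat_lit 0, nat_lit 0, nat_lit 589599, false, false⟩,
 nat_lit 0, nat_lit 7600, nat_lit 0, nat_lit 0, nat_lit 4082, nat_lit 0, nat_lit 0, nat_lit 0, nat_lit 0, nat_lit 0, nat_lit 0, nat_lit 0, nat_lit 0, nat_lit 0, nat_lit 115, nat_lit 754000, nat_lit 0, nat_lit 0, [(nat_lit 6, [(nat_lit 5, nat_lit 410), (nat_lit 6, nat_lit 590)])],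
 ⟨p009_k23, nat_lit 0, nat_lit 0, nat_lit 330, nat_lit 0, nat_lit 140616, [nat_lit 2997685334, nat_lit 2393216001, nat_lit 62895999], [], [nat_lit 14467799035, nat_lit 14601901300, nat_lit 14251098845, nat_lit 14339806545], nat_lit 1271250, nat_lit 1271250, nat_lit 65850, nat_lit 88400, nat_lit 0, nat_lit 0, [nat_lit 1100000, nat_lit 1442500, nat_lit 1271250], [nat_lit 11, nat_lit 40, nat_lit 20, nat_lit 80, nat_lit 1, nat_lit 289, nat_lit 75, nat_lit 9]⟩, C1.Rw.none,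
 ⟨nat_lit 6224, nat_lit 6265, ⟨.ofNat (nat_lit 153413), .ofNat (nat_lit 161582), .ofNat (nat_lit 158753), .ofNat (nat_lit 166923), .ofNat (nat_lit 155180), .ofNat (nat_lit 163311), .ofNat (nat_lit 160519), .ofNat (nat_lit 168651)⟩, ⟨.ofNat (nat_lit 0), .ofNat (nat_lit 0), .ofNat (nat_lit 0), .ofNat (nat_lit 0), .ofNat (nat_lit 0), .ofNat (nat_lit 0), .ofNat (nat_lit 0), .ofNat (nat_lit 0)⟩⟩, [⟨nat_lit 0, nat_lit 100, nat_lit 99, nat_lit 39, nat_lit 1625559558⟩]⟩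
noncomputable def p009_l71 : Lf2 := ⟨nat_lit 0, nat_lit 5, [nat_lit 4, nat_lit 5, nat_lit 5, nat_lit 20], true, nat_lit 0, nat_lit 0, nat_lit 0, nat_lit 0, ⟨nat_lit 0, nat_lit 0, nat_lit 1000, nat_lit 5, nat_lit 67, nat_lit 0, nat_lit 0, nat_lit 0, nat_lit 0, nat_lit 215, nat_lit 41667, nat_lit 265, nat_lit 65158255, nat_lit 0, nat_lit 0, nat_lit 629478, false, false⟩,
 nat_lit 0, nat_lit 7562, nat_lit 0, nat_lit 0, nat_lit 4062, nat_lit 0, nat_lit 0, nat_lit 0, nat_lit 0, nat_lit 0, nat_lit 0, nat_lit 0, nat_lit 0, nat_lit 0, nat_lit 116, nat_lit 757000, nat_lit 0, nat_lit 0, [(nat_lit 6, [(nat_lit 5, nat_lit 405), (nat_lit 6, nat_lit 595)])],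
 ⟨p009_k23, nat_lit 0, nat_lit 0, nat_lit 323, nat_lit 0, nat_lit 132451, [nat_lit 3011482667, nat_lit 2413328001, nat_lit 81367999], [], [nat_lit 14281220278, nat_lit 14315302844, nat_lit 14326075464, nat_lit 14153797250], nat_lit 1271250, nat_lit 1271250, nat_lit 88400, nat_lit 111251, nat_lit 0, nat_lit 0, [nat_lit 1100000, nat_lit 1442500, nat_lit 1271250], [nat_lit 11, nat_lit 40, nat_lit 20, nat_lit 80, nat_lit 1, nat_lit 289, nat_lit 75, nat_lit 9]⟩, C1.Rw.none,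
 ⟨nat_lit 6224, nat_lit 6265, ⟨.ofNat (nat_lit 161582), .ofNat (nat_lit 169752), .ofNat (nat_lit 164787), .ofNat (nat_lit 172956), .ofNat (nat_lit 163311), .ofNat (nat_lit 171443), .ofNat (nat_lit 166515), .ofNat (nat_lit 174647)⟩, ⟨.ofNat (nat_lit 0), .ofNat (nat_lit 0), .ofNat (nat_lit 0), .ofNat (nat_lit 0), .ofNat (nat_lit 0), .ofNat (nat_lit 0), .ofNat (nat_lit 0), .ofNat (nat_lit 0)⟩⟩, [⟨nat_lit 0, nat_lit 100, nat_lit 99, nat_lit 41, nat_lit 52952687⟩]⟩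
noncomputable def p009_l72 : Lf2 := ⟨nat_lit 0, nat_lit 5, [nat_lit 4, nat_lit 5, nat_lit 5, nat_lit 20], true, nat_lit 0, nat_lit 0, nat_lit 0, nat_lit 0, ⟨nat_lit 0, nat_lit 0, nat_lit 1000, nat_lit 5, nat_lit 68, nat_lit 0, nat_lit 0, nat_lit 0, nat_lit 0, nat_lit 215, nat_lit 43350, nat_lit 266, nat_lit 65121679, nat_lit 0, nat_lit 0, nat_lit 639185, false, false⟩,
 nat_lit 0, nat_lit 7581, nat_lit 0, nat_lit 0, nat_lit 4072, nat_lit 0, nat_lit 0, nat_lit 0, nat_lit 0, nat_lit 0, nat_lit 0, nat_lit 0, nat_lit 0, nat_lit 0, nat_lit 115, nat_lit 755200, nat_lit 0, nat_lit 0, [(nat_lit 6, [(nat_lit 5, nat_lit 408), (nat_lit 6, nat_lit 592)])],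
 ⟨p009_k23, nat_lit 0, nat_lit 0, nat_lit 322, nat_lit 0, nat_lit 132178, [nat_lit 2996804267, nat_lit 2393260801, nat_lit 59084799], [], [nat_lit 14266357428, nat_lit 14262528099, nat_lit 14311098018, nat_lit 14207407796], nat_lit 1271250, nat_lit 1271250, nat_lit 88400, nat_lit 111251, nat_lit 0, nat_lit 0, [nat_lit 1100000, nat_lit 1442500, nat_lit 1271250], [nat_lit 11, nat_lit 40, nat_lit 20, nat_lit 80, nat_lit 1, nat_lit 289, nat_lit 75, nat_lit 9]⟩, C1.Rw.none,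
 ⟨nat_lit 6244, nat_lit 6265, ⟨.ofNat (nat_lit 164787), .ofNat (nat_lit 172956), .ofNat (nat_lit 165855), .ofNat (nat_lit 174024), .ofNat (nat_lit 165651), .ofNat (nat_lit 173802), .ofNat (nat_lit 166719), .ofNat (nat_lit 174870)⟩, ⟨.ofNat (nat_lit 0), .ofNat (nat_lit 0), .ofNat (nat_lit 0), .ofNat (nat_lit 0), .ofNat (nat_lit 0), .ofNat (nat_lit 0), .ofNat (nat_lit 0), .ofNat (nat_lit 0)⟩⟩, [⟨nat_lit 0, nat_lit 100, nat_lit 99, nat_lit 41, nat_lit 53915620⟩]⟩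
noncomputable def p009_l73 : Lf2 := ⟨nat_lit 0, nat_lit 5, [nat_lit 4, nat_lit 5, nat_lit 5, nat_lit 20], true, nat_lit 0, nat_lit 0, nat_lit 0, nat_lit 0, ⟨nat_lit 0, nat_lit 0, nat_lit 1000, nat_lit 5, nat_lit 68, nat_lit 0, nat_lit 0, nat_lit 0, nat_lit 0, nat_lit 215, nat_lit 43350, nat_lit 266, nat_lit 65103264, nat_lit 0, nat_lit 0, nat_lit 644052, false, false⟩,
 nat_lit 0, nat_lit 7501, nat_lit 0, nat_lit 0, nat_lit 4049, nat_lit 0, nat_lit 0, nat_lit 0, nat_lit 0, nat_lit 0, nat_lit 0, nat_lit 0, nat_lit 0, nat_lit 0, nat_lit 121, nat_lit 797800, nat_lit 0, nat_lit 0, [(nat_lit 6, [(nat_lit 5, nat_lit 337), (nat_lit 6, nat_lit 663)])],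
 ⟨p009_k36, nat_lit 0, nat_lit 0, nat_lit 324, nat_lit 0, nat_lit 135819, [nat_lit 3061526401, nat_lit 2514851201, nat_lit 91787199], [], [nat_lit 14171918122, nat_lit 14175017439, nat_lit 14217075092, nat_lit 14113970546], nat_lit 1271250, nat_lit 1271250, nat_lit 88400, nat_lit 111251, nat_lit 0, nat_lit 0, [nat_lit 1100000, nat_lit 1442500, nat_lit 1271250], [nat_lit 11, nat_lit 40, nat_lit 20, nat_lit 80, nat_lit 1, nat_lit 289, nat_lit 75, nat_lit 9]⟩, C1.Rw.none,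
 ⟨nat_lit 6224, nat_lit 6245, ⟨.ofNat (nat_lit 165651), .ofNat (nat_lit 173802), .ofNat (nat_lit 166719), .ofNat (nat_lit 174870), .ofNat (nat_lit 166515), .ofNat (nat_lit 174647), .ofNat (nat_lit 167583), .ofNat (nat_lit 175714)⟩, ⟨.ofNat (nat_lit 0), .ofNat (nat_lit 0), .ofNat (nat_lit 0), .ofNat (nat_lit 0), .ofNat (nat_lit 0), .ofNat (nat_lit 0), .ofNat (nat_lit 0), .ofNat (nat_lit 0)⟩⟩, [⟨nat_lit 0, nat_lit 100, nat_lit 99, nat_lit 42, nat_lit 52885858⟩]⟩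
noncomputable def p009_l74 : Lf2 := ⟨nat_lit 0, nat_lit 5, [nat_lit 4, nat_lit 5, nat_lit 5, nat_lit 20], false, nat_lit 0, nat_lit 0, nat_lit 0, nat_lit 0, ⟨nat_lit 863, nat_lit 0, nat_lit 137, nat_lit 5, nat_lit 68, nat_lit 0, nat_lit 0, nat_lit 0, nat_lit 0, nat_lit 215, nat_lit 43350, nat_lit 266, nat_lit 65098654, nat_lit 0, nat_lit 0, nat_lit 645268, false, false⟩,
 nat_lit 0, nat_lit 15539, nat_lit 0, nat_lit 0, nat_lit 8347, nat_lit 7238, nat_lit 2438, nat_lit 0, nat_lit 0, nat_lit 0, nat_lit 0, nat_lit 0, nat_lit 0, nat_lit 0, nat_lit 0, nat_lit 137000, nat_lit 0, nat_lit 0, [(nat_lit 6, [(nat_lit 6, nat_lit 137)])],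
 ⟨p009_k23, nat_lit 0, nat_lit 0, nat_lit 324, nat_lit 0, nat_lit 136285, [nat_lit 4179602134, nat_lit 5407778800, nat_lit 7930740400], [], [nat_lit 20508244833, nat_lit 20562640516, nat_lit 20503995718, nat_lit 20291446041], nat_lit 1271250, nat_lit 1271250, nat_lit 88400, nat_lit 111251, nat_lit 0, nat_lit 0, [nat_lit 1100000, nat_lit 1442500, nat_lit 1271250], [nat_lit 11, nat_lit 40, nat_lit 20, nat_lit 80, nat_lit 1, nat_lit 289, nat_lit 75, nat_lit 9]⟩, ⟨p009_k37, nat_lit 0, nat_lit 0, nat_lit 0, nat_lit 0, nat_lit 0, [nat_lit 4702918500, nat_lit 6118238500, nat_lit 7668186500], [], [nat_lit 23113964563, nat_lit 23177295337, nat_lit 22715847136, nat_lit 22776677964], nat_lit 0, nat_lit 0, nat_lit 0, nat_lit 0, nat_lit 0, nat_lit 0, [], [nat_lit 96, nat_lit 40, nat_lit 20, nat_lit 40]⟩,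
 ⟨nat_lit 6244, nat_lit 6265, ⟨.ofNat (nat_lit 165855), .ofNat (nat_lit 174024), .ofNat (nat_lit 166923), .ofNat (nat_lit 175092), .ofNat (nat_lit 166719), .ofNat (nat_lit 174870), .ofNat (nat_lit 167787), .ofNat (nat_lit 175938)⟩, ⟨.ofNat (nat_lit 0), .ofNat (nat_lit 0), .ofNat (nat_lit 0), .ofNat (nat_lit 0), .ofNat (nat_lit 0), .ofNat (nat_lit 0), .ofNat (nat_lit 0), .ofNat (nat_lit 0)⟩⟩, [⟨nat_lit 0, nat_lit 100, nat_lit 100, nat_lit 42, nat_lit 988797675⟩, ⟨nat_lit 0, nat_lit 100, nat_lit 100, nat_lit 41, nat_lit 220448602⟩]⟩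
noncomputable def p009_l75 : Lf2 := ⟨nat_lit 3, nat_lit 5, [nat_lit 4, nat_lit 5, nat_lit 5, nat_lit 20], false, nat_lit 0, nat_lit 0, nat_lit 0, nat_lit 0, zbN0,
 nat_lit 0, nat_lit 0, nat_lit 0, nat_lit 0, nat_lit 0, nat_lit 0, nat_lit 0, nat_lit 0, nat_lit 0, nat_lit 0, nat_lit 0, nat_lit 0, nat_lit 0, nat_lit 0, nat_lit 0, nat_lit 0, nat_lit 0, nat_lit 0, [],
 C1.Rw.none, ⟨p009_k31, nat_lit 0, nat_lit 0, nat_lit 206, nat_lit 0, nat_lit 0, [], [], [], nat_lit 0, nat_lit 0, nat_lit 0, nat_lit 0, nat_lit 0, nat_lit 0, [], [nat_lit 51, nat_lit 40, nat_lit 20, nat_lit 80, nat_lit 1, nat_lit 289, nat_lit 75, nat_lit 9]⟩,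
 zbF0, []⟩
noncomputable def p009_l76 : Lf2 := ⟨nat_lit 0, nat_lit 5, [nat_lit 4, nat_lit 5, nat_lit 5, nat_lit 20], false, nat_lit 0, nat_lit 0, nat_lit 0, nat_lit 0, ⟨nat_lit 1000, nat_lit 0, nat_lit 0, nat_lit 0, nat_lit 0, nat_lit 0, nat_lit 0, nat_lit 0, nat_lit 0, nat_lit 0, nat_lit 0, nat_lit 0, nat_lit 0, nat_lit 0, nat_lit 0, nat_lit 0, false, false⟩,
 nat_lit 0, nat_lit 16473, nat_lit 0, nat_lit 0, nat_lit 8892, nat_lit 8398, nat_lit 2928, nat_lit 0, nat_lit 0, nat_lit 0, nat_lit 0, nat_lit 0, nat_lit 0, nat_lit 0, nat_lit 0, nat_lit 0, nat_lit 0, nat_lit 0, [],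
 ⟨p009_k36, nat_lit 0, nat_lit 0, nat_lit 325, nat_lit 0, nat_lit 139880, [nat_lit 4688000000, nat_lit 6250000000, nat_lit 9842000000], [], [nat_lit 21197242517, nat_lit 21280634453, nat_lit 21186385111, nat_lit 20959957444], nat_lit 1271250, nat_lit 1271250, nat_lit 88400, nat_lit 111251, nat_lit 0, nat_lit 0, [nat_lit 1100000, nat_lit 1442500, nat_lit 1271250], [nat_lit 11, nat_lit 40, nat_lit 20, nat_lit 80, nat_lit 1, nat_lit 289, nat_lit 75, nat_lit 9]⟩, ⟨p009_k37, nat_lit 0, nat_lit 0, nat_lit 0, nat_lit 0, nat_lit 0, [nat_lit 5449500000, nat_lit 7089500000, nat_lit 8885500000], [], [nat_lit 26777006775, nat_lit 26862685605, nat_lit 26315023174, nat_lit 26385561600], nat_lit 0, nat_lit 0, nat_lit 0, nat_lit 0, nat_lit 0, nat_lit 0, [], [nat_lit 96, nat_lit 40, nat_lit 20, nat_lit 40]⟩,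
 zbF0, [⟨nat_lit 0, nat_lit 100, nat_lit 99, nat_lit 41, nat_lit 1402625737⟩]⟩
noncomputable def p009_l77 : Lf2 := ⟨nat_lit 3, nat_lit 5, [nat_lit 4, nat_lit 5, nat_lit 5, nat_lit 20], false, nat_lit 0, nat_lit 0, nat_lit 0, nat_lit 0, zbN0,
 nat_lit 0, nat_lit 0, nat_lit 0, nat_lit 0, nat_lit 0, nat_lit 0, nat_lit 0, nat_lit 0, nat_lit 0, nat_lit 0, nat_lit 0, nat_lit 0, nat_lit 0, nat_lit 0, nat_lit 0, nat_lit 0, nat_lit 0, nat_lit 0, [],
 C1.Rw.none, ⟨p009_k31, nat_lit 0, nat_lit 0, nat_lit 206, nat_lit 0, nat_lit 0, [], [], [], nat_lit 0, nat_lit 0, nat_lit 0, nat_lit 0, nat_lit 0, nat_lit 0, [], [nat_lit 51, nat_lit 40, nat_lit 20, nat_lit 80, nat_lit 1, nat_lit 289, nat_lit 75, nat_lit 9]⟩,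
 zbF0, []⟩
noncomputable def p009_l78 : Lf2 := ⟨nat_lit 0, nat_lit 5, [nat_lit 4, nat_lit 5, nat_lit 5, nat_lit 20], true, nat_lit 0, nat_lit 0, nat_lit 0, nat_lit 0, ⟨nat_lit 0, nat_lit 0, nat_lit 1000, nat_lit 5, nat_lit 64, nat_lit 0, nat_lit 0, nat_lit 0, nat_lit 0, nat_lit 215, nat_lit 38400, nat_lit 263, nat_lit 65333217, nat_lit 0, nat_lit 0, nat_lit 582251, false, false⟩,
 nat_lit 0, nat_lit 8195, nat_lit 0, nat_lit 0, nat_lit 4338, nat_lit 0, nat_lit 0, nat_lit 0, nat_lit 0, nat_lit 0, nat_lit 0, nat_lit 0, nat_lit 0, nat_lit 0, nat_lit 119, nat_lit 779200, nat_lit 0, nat_lit 0, [(nat_lit 6, [(nat_lit 5, nat_lit 368), (nat_lit 6, nat_lit 632)])],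
 ⟨p009_k8, nat_lit 0, nat_lit 0, nat_lit 317, nat_lit 0, nat_lit 102816, [nat_lit 3043182934, nat_lit 2474156801, nat_lit 94860799], [], [nat_lit 14395486571, nat_lit 14740457947, nat_lit 14155479007, nat_lit 14459383428], nat_lit 1271250, nat_lit 1271250, nat_lit 65850, nat_lit 88400, nat_lit 0, nat_lit 0, [nat_lit 1100000, nat_lit 1442500, nat_lit 1271250], [nat_lit 11, nat_lit 40, nat_lit 20, nat_lit 80, nat_lit 1, nat_lit 289, nat_lit 75, nat_lit 9]⟩, C1.Rw.none,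
 ⟨nat_lit 6224, nat_lit 6325, ⟨.ofNat (nat_lit 150750), .ofNat (nat_lit 158977), .ofNat (nat_lit 156092), .ofNat (nat_lit 164319), .ofNat (nat_lit 155180), .ofNat (nat_lit 163311), .ofNat (nat_lit 160519), .ofNat (nat_lit 168651)⟩, ⟨.ofNat (nat_lit 0), .ofNat (nat_lit 0), .ofNat (nat_lit 0), .ofNat (nat_lit 0), .ofNat (nat_lit 0), .ofNat (nat_lit 0), .ofNat (nat_lit 0), .ofNat (nat_lit 0)⟩⟩, [⟨nat_lit 0, nat_lit 100, nat_lit 99, nat_lit 40, nat_lit 505776150⟩]⟩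
noncomputable def p009_l79 : Lf2 := ⟨nat_lit 0, nat_lit 5, [nat_lit 4, nat_lit 5, nat_lit 5, nat_lit 20], true, nat_lit 0, nat_lit 0, nat_lit 0, nat_lit 0, ⟨nat_lit 0, nat_lit 0, nat_lit 1000, nat_lit 5, nat_lit 67, nat_lit 0, nat_lit 0, nat_lit 0, nat_lit 0, nat_lit 215, nat_lit 41667, nat_lit 265, nat_lit 65190163, nat_lit 0, nat_lit 0, nat_lit 620963, false, false⟩,
 nat_lit 0, nat_lit 7604, nat_lit 0, nat_lit 0, nat_lit 4025, nat_lit 0, nat_lit 372, nat_lit 0, nat_lit 0, nat_lit 0, nat_lit 0, nat_lit 0, nat_lit 0, nat_lit 0, nat_lit 147, nat_lit 1000000, nat_lit 0, nat_lit 0, [(nat_lit 6, [(nat_lit 6, nat_lit 1000)])],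
 ⟨p009_k8, nat_lit 0, nat_lit 0, nat_lit 306, nat_lit 0, nat_lit 89391, [nat_lit 3329066667, nat_lit 3042400001, nat_lit 177599999], [], [nat_lit 12007019028, nat_lit 12127505514, nat_lit 11847678367, nat_lit 11939398353], nat_lit 1271250, nat_lit 1271250, nat_lit 88400, nat_lit 111251, nat_lit 0, nat_lit 0, [nat_lit 1100000, nat_lit 1442500, nat_lit 1271250], [nat_lit 11, nat_lit 40, nat_lit 20, nat_lit 80, nat_lit 1, nat_lit 289, nat_lit 75, nat_lit 9]⟩, C1.Rw.none,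
 ⟨nat_lit 6284, nat_lit 6325, ⟨.ofNat (nat_lit 158977), .ofNat (nat_lit 167203), .ofNat (nat_lit 164319), .ofNat (nat_lit 172545), .ofNat (nat_lit 160716), .ofNat (nat_lit 168904), .ofNat (nat_lit 166056), .ofNat (nat_lit 174245)⟩, ⟨.ofNat (nat_lit 0), .ofNat (nat_lit 0), .ofNat (nat_lit 0), .ofNat (nat_lit 0), .ofNat (nat_lit 0), .ofNat (nat_lit 0), .ofNat (nat_lit 0), .ofNat (nat_lit 0)⟩⟩, [⟨nat_lit 0, nat_lit 100, nat_lit 100, nat_lit 41, nat_lit 309255125⟩]⟩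
noncomputable def p009_l80 : Lf2 := ⟨nat_lit 0, nat_lit 5, [nat_lit 4, nat_lit 5, nat_lit 5, nat_lit 20], true, nat_lit 0, nat_lit 0, nat_lit 0, nat_lit 0, ⟨nat_lit 0, nat_lit 0, nat_lit 1000, nat_lit 5, nat_lit 67, nat_lit 0, nat_lit 0, nat_lit 0, nat_lit 0, nat_lit 215, nat_lit 41667, nat_lit 265, nat_lit 65162841, nat_lit 0, nat_lit 0, nat_lit 628257, false, false⟩,
 nat_lit 0, nat_lit 7673, nat_lit 0, nat_lit 0, nat_lit 4102, nat_lit 0, nat_lit 0, nat_lit 0, nat_lit 0, nat_lit 0, nat_lit 0, nat_lit 0, nat_lit 0, nat_lit 0, nat_lit 108, nat_lit 694600, nat_lit 0, nat_lit 0, [(nat_lit 6, [(nat_lit 5, nat_lit 509), (nat_lit 6, nat_lit 491)])],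
 ⟨p009_k22, nat_lit 0, nat_lit 0, nat_lit 308, nat_lit 0, nat_lit 92851, [nat_lit 2929298134, nat_lit 2250998401, nat_lit 55550399], [], [nat_lit 14363717390, nat_lit 14409952260, nat_lit 14407027296, nat_lit 14302573147], nat_lit 1271250, nat_lit 1271250, nat_lit 88400, nat_lit 111251, nat_lit 0, nat_lit 0, [nat_lit 1100000, nat_lit 1442500, nat_lit 1271250], [nat_lit 11, nat_lit 40, nat_lit 20, nat_lit 80, nat_lit 1, nat_lit 289, nat_lit 75, nat_lit 9]⟩, C1.Rw.none,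
 ⟨nat_lit 6264, nat_lit 6285, ⟨.ofNat (nat_lit 160716), .ofNat (nat_lit 168904), .ofNat (nat_lit 166056), .ofNat (nat_lit 174245), .ofNat (nat_lit 161582), .ofNat (nat_lit 169752), .ofNat (nat_lit 166923), .ofNat (nat_lit 175092)⟩, ⟨.ofNat (nat_lit 0), .ofNat (nat_lit 0), .ofNat (nat_lit 0), .ofNat (nat_lit 0), .ofNat (nat_lit 0), .ofNat (nat_lit 0), .ofNat (nat_lit 0), .ofNat (nat_lit 0)⟩⟩, [⟨nat_lit 0, nat_lit 100, nat_lit 100, nat_lit 41, nat_lit 127003900⟩]⟩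
noncomputable def p009_l81 : Lf2 := ⟨nat_lit 0, nat_lit 5, [nat_lit 4, nat_lit 5, nat_lit 5, nat_lit 20], true, nat_lit 0, nat_lit 0, nat_lit 0, nat_lit 0, ⟨nat_lit 0, nat_lit 0, nat_lit 1000, nat_lit 5, nat_lit 68, nat_lit 0, nat_lit 0, nat_lit 0, nat_lit 0, nat_lit 215, nat_lit 43350, nat_lit 266, nat_lit 65135437, nat_lit 0, nat_lit 0, nat_lit 635540, false, false⟩,
 nat_lit 0, nat_lit 7625, nat_lit 0, nat_lit 0, nat_lit 4096, nat_lit 0, nat_lit 0, nat_lit 0, nat_lit 0, nat_lit 0, nat_lit 0, nat_lit 0, nat_lit 0, nat_lit 0, nat_lit 107, nat_lit 694000, nat_lit 0, nat_lit 0, [(nat_lit 6, [(nat_lit 5, nat_lit 510), (nat_lit 6, nat_lit 490)])],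
 ⟨p009_k23, nat_lit 0, nat_lit 0, nat_lit 311, nat_lit 0, nat_lit 101184, [nat_lit 2913738667, nat_lit 2230976001, nat_lit 29455999], [], [nat_lit 14420931232, nat_lit 14541282831, nat_lit 14312667668, nat_lit 14356375497], nat_lit 1271250, nat_lit 1271250, nat_lit 88400, nat_lit 111251, nat_lit 0, nat_lit 0, [nat_lit 1100000, nat_lit 1442500, nat_lit 1271250], [nat_lit 11, nat_lit 40, nat_lit 20, nat_lit 80, nat_lit 1, nat_lit 289, nat_lit 75, nat_lit 9]⟩, C1.Rw.none,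
 ⟨nat_lit 6224, nat_lit 6265, ⟨.ofNat (nat_lit 161582), .ofNat (nat_lit 169752), .ofNat (nat_lit 166923), .ofNat (nat_lit 175092), .ofNat (nat_lit 163311), .ofNat (nat_lit 171443), .ofNat (nat_lit 168651), .ofNat (nat_lit 176782)⟩, ⟨.ofNat (nat_lit 0), .ofNat (nat_lit 0), .ofNat (nat_lit 0), .ofNat (nat_lit 0), .ofNat (nat_lit 0), .ofNat (nat_lit 0), .ofNat (nat_lit 0), .ofNat (nat_lit 0)⟩⟩, [⟨nat_lit 0, nat_lit 100, nat_lit 99, nat_lit 42, nat_lit 317005636⟩]⟩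
noncomputable def b_NL_600_550_0_10 : St := ⟨false, nat_lit 1, nat_lit 0, nat_lit 1, nat_lit 20, nat_lit 240, nat_lit 245, nat_lit 235, nat_lit 240, nat_lit 12, nat_lit 20, nat_lit 0, nat_lit 0, nat_lit 0, nat_lit 0, nat_lit 0, nat_lit 0, nat_lit 24, nat_lit 32, nat_lit 0, nat_lit 0, nat_lit 0, nat_lit 0⟩
theorem d_NL_600_550_0_10 (h : EB TB.env) : Dead b_NL_600_550_0_10 := chkB_sound0 h (T :=
(.spl (nat_lit 6) (nat_lit 28)
(.spl (nat_lit 0) (nat_lit 243)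
(.spl (nat_lit 2) (nat_lit 16)
(.spl (nat_lit 0) (nat_lit 242)
(.spl (nat_lit 1) (nat_lit 238)
(.spl (nat_lit 1) (nat_lit 237)
(.leaf p009_l33)
(.spl (nat_lit 0) (nat_lit 241)
(.spl (nat_lit 8) (nat_lit 800)
(.spl (nat_lit 8) (nat_lit 400)
(.leaf p009_l34)
(.leaf p009_l35))
(.leaf p009_l36))
(.leaf p009_l37)))
(.spl (nat_lit 0) (nat_lit 241)
(.spl (nat_lit 1) (nat_lit 239)
(.spl (nat_lit 8) (nat_lit 800)
(.spl (nat_lit 8) (nat_lit 400)
(.spl (nat_lit 7) (nat_lit 600)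
(.leaf p009_l38)
(.leaf p009_l39))
(.leaf p009_l40))
(.leaf p009_l41))
(.spl (nat_lit 8) (nat_lit 800)
(.spl (nat_lit 8) (nat_lit 400)
(.spl (nat_lit 7) (nat_lit 600)
(.leaf p009_l42)
(.leaf p009_l43))
(.leaf p009_l44))
(.leaf p009_l45)))
(.spl (nat_lit 1) (nat_lit 239)
(.spl (nat_lit 8) (nat_lit 800)
(.leaf p009_l46)
(.leaf p009_l47))
(.emL (nat_lit 0) (nat_lit 1000) (nat_lit 998) (nat_lit 400)))))
(.leaf p009_l48))
(.spl (nat_lit 1) (nat_lit 238)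
(.spl (nat_lit 0) (nat_lit 242)
(.spl (nat_lit 0) (nat_lit 241)
(.spl (nat_lit 1) (nat_lit 237)
(.leaf p009_l49)
(.spl (nat_lit 8) (nat_lit 800)
(.leaf p009_l50)
(.leaf p009_l51)))
(.leaf p009_l52))
(.leaf p009_l53))
(.spl (nat_lit 0) (nat_lit 242)
(.spl (nat_lit 1) (nat_lit 239)
(.spl (nat_lit 0) (nat_lit 241)
(.spl (nat_lit 8) (nat_lit 800)
(.spl (nat_lit 8) (nat_lit 400)
(.leaf p009_l54)
(.leaf p009_l55))
(.leaf p009_l56))
(.spl (nat_lit 8) (nat_lit 800)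
(.leaf p009_l57)
(.leaf p009_l58)))
(.spl (nat_lit 0) (nat_lit 241)
(.spl (nat_lit 8) (nat_lit 800)
(.spl (nat_lit 8) (nat_lit 400)
(.leaf p009_l59)
(.leaf p009_l60))
(.leaf p009_l61))
(.spl (nat_lit 8) (nat_lit 800)
(.spl (nat_lit 8) (nat_lit 400)
(.leaf p009_l62)
(.leaf p009_l63))
(.leaf p009_l64))))
(.spl (nat_lit 1) (nat_lit 239)
(.spl (nat_lit 8) (nat_lit 800)
(.leaf p009_l65)
(.leaf p009_l66))
(.spl (nat_lit 8) (nat_lit 800)
(.spl (nat_lit 8) (nat_lit 400)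
(.leaf p009_l67)
(.leaf p009_l68))
(.leaf p009_l69))))))
(.spl (nat_lit 2) (nat_lit 16)
(.leaf p009_l70)
(.spl (nat_lit 1) (nat_lit 238)
(.leaf p009_l71)
(.spl (nat_lit 1) (nat_lit 239)
(.spl (nat_lit 0) (nat_lit 244)
(.leaf p009_l72)
(.leaf p009_l73))
(.spl (nat_lit 0) (nat_lit 244)
(.spl (nat_lit 8) (nat_lit 800)
(.leaf p009_l74)
(.leaf p009_l75))
(.spl (nat_lit 8) (nat_lit 800)
(.leaf p009_l76)
(.leaf p009_l77)))))))
(.spl (nat_lit 2) (nat_lit 16)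
(.leaf p009_l78)
(.spl (nat_lit 0) (nat_lit 243)
(.spl (nat_lit 0) (nat_lit 242)
(.leaf p009_l79)
(.leaf p009_l80))
(.leaf p009_l81))))) (by decide +kernel)
noncomputable def p009_l82 : Lf2 := ⟨nat_lit 0, nat_lit 5, [nat_lit 4, nat_lit 5, nat_lit 5, nat_lit 20], true, nat_lit 0, nat_lit 0, nat_lit 0, nat_lit 0, ⟨nat_lit 0, nat_lit 0, nat_lit 1000, nat_lit 5, nat_lit 65, nat_lit 0, nat_lit 0, nat_lit 0, nat_lit 0, nat_lit 215, nat_lit 40017, nat_lit 264, nat_lit 65270302, nat_lit 0, nat_lit 0, nat_lit 599388, false, false⟩,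
 nat_lit 0, nat_lit 7353, nat_lit 0, nat_lit 0, nat_lit 3988, nat_lit 0, nat_lit 0, nat_lit 0, nat_lit 0, nat_lit 0, nat_lit 0, nat_lit 0, nat_lit 0, nat_lit 0, nat_lit 118, nat_lit 774400, nat_lit 0, nat_lit 0, [(nat_lit 6, [(nat_lit 5, nat_lit 376), (nat_lit 6, nat_lit 624)])],
 ⟨p009_k38, nat_lit 0, nat_lit 0, nat_lit 348, nat_lit 0, nat_lit 185448, [nat_lit 3030707200, nat_lit 2453977601, nat_lit 82105599], [], [nat_lit 14506515726, nat_lit 14788534883, nat_lit 14231115118, nat_lit 14419667420], nat_lit 1271250, nat_lit 1271250, nat_lit 65850, nat_lit 111251, nat_lit 0, nat_lit 0, [nat_lit 1100000, nat_lit 1442500, nat_lit 1271250], [nat_lit 11, nat_lit 40, nat_lit 20, nat_lit 80, nat_lit 1, nat_lit 289, nat_lit 75, nat_lit 9]⟩, C1.Rw.none,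
 ⟨nat_lit 6123, nat_lit 6225, ⟨.ofNat (nat_lit 149840), .ofNat (nat_lit 166104), .ofNat (nat_lit 155180), .ofNat (nat_lit 171443), .ofNat (nat_lit 154231), .ofNat (nat_lit 170308), .ofNat (nat_lit 159568), .ofNat (nat_lit 175645)⟩, ⟨.ofNat (nat_lit 0), .ofNat (nat_lit 0), .ofNat (nat_lit 0), .ofNat (nat_lit 0), .ofNat (nat_lit 0), .ofNat (nat_lit 0), .ofNat (nat_lit 0), .ofNat (nat_lit 0)⟩⟩, [⟨nat_lit 0, nat_lit 100, nat_lit 98, nat_lit 40, nat_lit 310357606⟩]⟩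
noncomputable def p009_l83 : Lf2 := ⟨nat_lit 0, nat_lit 5, [nat_lit 4, nat_lit 5, nat_lit 5, nat_lit 20], false, nat_lit 0, nat_lit 0, nat_lit 0, nat_lit 0, ⟨nat_lit 183, nat_lit 0, nat_lit 817, nat_lit 5, nat_lit 68, nat_lit 0, nat_lit 0, nat_lit 0, nat_lit 0, nat_lit 215, nat_lit 43350, nat_lit 266, nat_lit 65094284, nat_lit 0, nat_lit 0, nat_lit 646420, false, false⟩,
 nat_lit 0, nat_lit 8806, nat_lit 0, nat_lit 0, nat_lit 4776, nat_lit 1725, nat_lit 323, nat_lit 0, nat_lit 0, nat_lit 639, nat_lit 0, nat_lit 0, nat_lit 0, nat_lit 0, nat_lit 56, nat_lit 817000, nat_lit 0, nat_lit 0, [(nat_lit 6, [(nat_lit 6, nat_lit 817)])],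
 ⟨p009_k38, nat_lit 0, nat_lit 0, nat_lit 345, nat_lit 0, nat_lit 190853, [nat_lit 2552167467, nat_lit 2347410801, nat_lit 122865199], [], [nat_lit 15572637877, nat_lit 15861261003, nat_lit 15566317351, nat_lit 15618169855], nat_lit 1271250, nat_lit 1271250, nat_lit 88400, nat_lit 111251, nat_lit 0, nat_lit 0, [nat_lit 1100000, nat_lit 1442500, nat_lit 1271250], [nat_lit 11, nat_lit 40, nat_lit 20, nat_lit 80, nat_lit 1, nat_lit 289, nat_lit 75, nat_lit 9]⟩, ⟨p009_k39, nat_lit 0, nat_lit 0, nat_lit 228, nat_lit 0, nat_lit 0, [nat_lit 1143750000, nat_lit 1458144000, nat_lit 1801086000], [], [nat_lit 3683605331, nat_lit 3719637233, nat_lit 3587739455, nat_lit 3623794028], nat_lit 0, nat_lit 0, nat_lit 0, nat_lit 0, nat_lit 0, nat_lit 0, [], [nat_lit 25, nat_lit 40, nat_lit 20, nat_lit 80, nat_lit 17, nat_lit 289, nat_lit 75, nat_lit 9]⟩,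
 ⟨nat_lit 6123, nat_lit 6225, ⟨.ofNat (nat_lit 163311), .ofNat (nat_lit 171443), .ofNat (nat_lit 166515), .ofNat (nat_lit 174647), .ofNat (nat_lit 167607), .ofNat (nat_lit 175645), .ofNat (nat_lit 170809), .ofNat (nat_lit 178847)⟩, ⟨.ofNat (nat_lit 0), .ofNat (nat_lit 0), .ofNat (nat_lit 0), .ofNat (nat_lit 0), .ofNat (nat_lit 0), .ofNat (nat_lit 0), .ofNat (nat_lit 0), .ofNat (nat_lit 0)⟩⟩, [⟨nat_lit 0, nat_lit 100, nat_lit 99, nat_lit 42, nat_lit 399877185⟩]⟩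
noncomputable def p009_l84 : Lf2 := ⟨nat_lit 0, nat_lit 5, [nat_lit 4, nat_lit 5, nat_lit 5, nat_lit 20], false, nat_lit 0, nat_lit 0, nat_lit 0, nat_lit 0, ⟨nat_lit 202, nat_lit 0, nat_lit 798, nat_lit 5, nat_lit 69, nat_lit 0, nat_lit 0, nat_lit 0, nat_lit 0, nat_lit 215, nat_lit 45067, nat_lit 267, nat_lit 65047821, nat_lit 0, nat_lit 0, nat_lit 658621, false, false⟩,
 nat_lit 0, nat_lit 9106, nat_lit 0, nat_lit 0, nat_lit 4939, nat_lit 1907, nat_lit 364, nat_lit 0, nat_lit 0, nat_lit 677, nat_lit 0, nat_lit 0, nat_lit 0, nat_lit 0, nat_lit 47, nat_lit 798000, nat_lit 0, nat_lit 0, [(nat_lit 6, [(nat_lit 6, nat_lit 798)])],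
 ⟨p009_k38, nat_lit 0, nat_lit 0, nat_lit 346, nat_lit 0, nat_lit 194720, [nat_lit 2478675200, nat_lit 2284215201, nat_lit 129728799], [], [nat_lit 15743546983, nat_lit 16111376813, nat_lit 15581992575, nat_lit 15785793637], nat_lit 1271250, nat_lit 1271250, nat_lit 88400, nat_lit 111251, nat_lit 0, nat_lit 0, [nat_lit 1100000, nat_lit 1442500, nat_lit 1271250], [nat_lit 11, nat_lit 40, nat_lit 20, nat_lit 80, nat_lit 1, nat_lit 289, nat_lit 75, nat_lit 9]⟩, ⟨p009_k28, nat_lit 0, nat_lit 0, nat_lit 228, nat_lit 0, nat_lit 0, [nat_lit 1262500000, nat_lit 1609536000, nat_lit 1988084000], [], [nat_lit 4105268461, nat_lit 4120695701, nat_lit 3999299006, nat_lit 4013806242], nat_lit 0, nat_lit 0, nat_lit 0, nat_lit 0, nat_lit 0, nat_lit 0, [], [nat_lit 25, nat_lit 40, nat_lit 20, nat_lit 80, nat_lit 17, nat_lit 289, nat_lit 75, nat_lit 9]⟩,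
 ⟨nat_lit 6123, nat_lit 6225, ⟨.ofNat (nat_lit 166515), .ofNat (nat_lit 174647), .ofNat (nat_lit 167583), .ofNat (nat_lit 175714), .ofNat (nat_lit 170809), .ofNat (nat_lit 178847), .ofNat (nat_lit 171876), .ofNat (nat_lit 179914)⟩, ⟨.ofNat (nat_lit 0), .ofNat (nat_lit 0), .ofNat (nat_lit 0), .ofNat (nat_lit 0), .ofNat (nat_lit 0), .ofNat (nat_lit 0), .ofNat (nat_lit 0), .ofNat (nat_lit 0)⟩⟩, [⟨nat_lit 0, nat_lit 100, nat_lit 99, nat_lit 41, nat_lit 629659396⟩]⟩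
noncomputable def p009_l85 : Lf2 := ⟨nat_lit 0, nat_lit 5, [nat_lit 4, nat_lit 5, nat_lit 5, nat_lit 20], false, nat_lit 0, nat_lit 0, nat_lit 0, nat_lit 0, ⟨nat_lit 1000, nat_lit 0, nat_lit 0, nat_lit 0, nat_lit 0, nat_lit 0, nat_lit 0, nat_lit 0, nat_lit 0, nat_lit 0, nat_lit 0, nat_lit 0, nat_lit 0, nat_lit 0, nat_lit 0, nat_lit 0, false, false⟩,
 nat_lit 0, nat_lit 16226, nat_lit 0, nat_lit 0, nat_lit 8801, nat_lit 8398, nat_lit 2835, nat_lit 0, nat_lit 0, nat_lit 377, nat_lit 0, nat_lit 0, nat_lit 0, nat_lit 0, nat_lit 0, nat_lit 0, nat_lit 0, nat_lit 0, [],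
 ⟨p009_k38, nat_lit 0, nat_lit 0, nat_lit 340, nat_lit 0, nat_lit 181197, [nat_lit 4688000000, nat_lit 6250000000, nat_lit 9842000000], [], [nat_lit 21397605755, nat_lit 21500114125, nat_lit 20911578676, nat_lit 20991189362], nat_lit 1271250, nat_lit 1271250, nat_lit 88400, nat_lit 111251, nat_lit 0, nat_lit 0, [nat_lit 1100000, nat_lit 1442500, nat_lit 1271250], [nat_lit 11, nat_lit 40, nat_lit 20, nat_lit 80, nat_lit 1, nat_lit 289, nat_lit 75, nat_lit 9]⟩, ⟨p009_k37, nat_lit 0, nat_lit 0, nat_lit 0, nat_lit 0, nat_lit 0, [nat_lit 5449500000, nat_lit 7089500000, nat_lit 8885500000], [], [nat_lit 25892234900, nat_lit 25977913730, nat_lit 25430251299, nat_lit 25500789725], nat_lit 0, nat_lit 0, nat_lit 0, nat_lit 0, nat_lit 0, nat_lit 0, [], [nat_lit 96, nat_lit 40, nat_lit 20, nat_lit 40]⟩,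
 zbF0, [⟨nat_lit 0, nat_lit 100, nat_lit 99, nat_lit 42, nat_lit 2001883612⟩]⟩
noncomputable def p009_l86 : Lf2 := ⟨nat_lit 3, nat_lit 5, [nat_lit 4, nat_lit 5, nat_lit 5, nat_lit 20], false, nat_lit 0, nat_lit 0, nat_lit 0, nat_lit 0, zbN0,
 nat_lit 0, nat_lit 0, nat_lit 0, nat_lit 0, nat_lit 0, nat_lit 0, nat_lit 0, nat_lit 0, nat_lit 0, nat_lit 0, nat_lit 0, nat_lit 0, nat_lit 0, nat_lit 0, nat_lit 0, nat_lit 0, nat_lit 0, nat_lit 0, [],
 C1.Rw.none, ⟨p009_k31, nat_lit 0, nat_lit 0, nat_lit 206, nat_lit 0, nat_lit 0, [], [], [], nat_lit 0, nat_lit 0, nat_lit 0, nat_lit 0, nat_lit 0, nat_lit 0, [], [nat_lit 51, nat_lit 40, nat_lit 20, nat_lit 80, nat_lit 1, nat_lit 289, nat_lit 75, nat_lit 9]⟩,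
 zbF0, []⟩
noncomputable def p009_l87 : Lf2 := ⟨nat_lit 0, nat_lit 5, [nat_lit 4, nat_lit 5, nat_lit 5, nat_lit 20], false, nat_lit 0, nat_lit 0, nat_lit 0, nat_lit 0, ⟨nat_lit 194, nat_lit 0, nat_lit 806, nat_lit 5, nat_lit 69, nat_lit 0, nat_lit 0, nat_lit 0, nat_lit 0, nat_lit 215, nat_lit 45067, nat_lit 267, nat_lit 65042963, nat_lit 0, nat_lit 0, nat_lit 659892, false, false⟩,
 nat_lit 0, nat_lit 8913, nat_lit 0, nat_lit 0, nat_lit 4857, nat_lit 1850, nat_lit 408, nat_lit 0, nat_lit 0, nat_lit 642, nat_lit 0, nat_lit 0, nat_lit 0, nat_lit 0, nat_lit 43, nat_lit 749600, nat_lit 0, nat_lit 0, [(nat_lit 6, [(nat_lit 5, nat_lit 94), (nat_lit 6, nat_lit 712)])],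
 ⟨p009_k40, nat_lit 0, nat_lit 0, nat_lit 342, nat_lit 0, nat_lit 184590, [nat_lit 2426397867, nat_lit 2152928801, nat_lit 87859999], [], [nat_lit 15658538769, nat_lit 15731000486, nat_lit 15453164049, nat_lit 15468821059], nat_lit 1271250, nat_lit 1271250, nat_lit 88400, nat_lit 111251, nat_lit 0, nat_lit 0, [nat_lit 1100000, nat_lit 1442500, nat_lit 1271250], [nat_lit 11, nat_lit 40, nat_lit 20, nat_lit 80, nat_lit 1, nat_lit 289, nat_lit 75, nat_lit 9]⟩, ⟨p009_k30, nat_lit 0, nat_lit 0, nat_lit 229, nat_lit 0, nat_lit 0, [nat_lit 1212500000, nat_lit 1545792000, nat_lit 1909348000], [], [nat_lit 3968693221, nat_lit 3985181461, nat_lit 3842850101, nat_lit 3855836528], nat_lit 0, nat_lit 0, nat_lit 0, nat_lit 0, nat_lit 0, nat_lit 0, [], [nat_lit 25, nat_lit 40, nat_lit 20, nat_lit 80, nat_lit 17, nat_lit 289, nat_lit 75, nat_lit 9]⟩,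
 ⟨nat_lit 6184, nat_lit 6205, ⟨.ofNat (nat_lit 168444), .ofNat (nat_lit 176557), .ofNat (nat_lit 169512), .ofNat (nat_lit 177625), .ofNat (nat_lit 169305), .ofNat (nat_lit 177399), .ofNat (nat_lit 170372), .ofNat (nat_lit 178466)⟩, ⟨.ofNat (nat_lit 0), .ofNat (nat_lit 0), .ofNat (nat_lit 0), .ofNat (nat_lit 0), .ofNat (nat_lit 0), .ofNat (nat_lit 0), .ofNat (nat_lit 0), .ofNat (nat_lit 0)⟩⟩, [⟨nat_lit 0, nat_lit 100, nat_lit 99, nat_lit 43, nat_lit 720355970⟩]⟩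
noncomputable def p009_l88 : Lf2 := ⟨nat_lit 0, nat_lit 5, [nat_lit 4, nat_lit 5, nat_lit 5, nat_lit 20], false, nat_lit 0, nat_lit 0, nat_lit 0, nat_lit 0, ⟨nat_lit 433, nat_lit 0, nat_lit 567, nat_lit 5, nat_lit 70, nat_lit 0, nat_lit 0, nat_lit 0, nat_lit 0, nat_lit 215, nat_lit 45067, nat_lit 267, nat_lit 65024300, nat_lit 0, nat_lit 0, nat_lit 664765, false, false⟩,
 nat_lit 0, nat_lit 10834, nat_lit 0, nat_lit 0, nat_lit 5933, nat_lit 4135, nat_lit 1419, nat_lit 0, nat_lit 0, nat_lit 1437, nat_lit 0, nat_lit 0, nat_lit 0, nat_lit 0, nat_lit 0, nat_lit 245400, nat_lit 0, nat_lit 0, [(nat_lit 6, [(nat_lit 5, nat_lit 536), (nat_lit 6, nat_lit 31)])],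
 ⟨p009_k41, nat_lit 0, nat_lit 0, nat_lit 343, nat_lit 0, nat_lit 187947, [nat_lit 2820026667, nat_lit 2752304400, nat_lit 3102520400], [], [nat_lit 17273935409, nat_lit 17355055676, nat_lit 16881663101, nat_lit 16955786246], nat_lit 1271250, nat_lit 1271250, nat_lit 88400, nat_lit 111251, nat_lit 0, nat_lit 0, [nat_lit 1100000, nat_lit 1442500, nat_lit 1271250], [nat_lit 11, nat_lit 40, nat_lit 20, nat_lit 80, nat_lit 1, nat_lit 289, nat_lit 75, nat_lit 9]⟩, ⟨p009_k30, nat_lit 0, nat_lit 0, nat_lit 229, nat_lit 0, nat_lit 0, [nat_lit 2706250000, nat_lit 3450144000, nat_lit 4261586000], [], [nat_lit 8849325122, nat_lit 8886157478, nat_lit 8561468122, nat_lit 8599110128], nat_lit 0, nat_lit 0, nat_lit 0, nat_lit 0, nat_lit 0, nat_lit 0, [], [nat_lit 25, nat_lit 40, nat_lit 20, nat_lit 80, nat_lit 17, nat_lit 289, nat_lit 75, nat_lit 9]⟩,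
 ⟨nat_lit 6164, nat_lit 6185, ⟨.ofNat (nat_lit 169305), .ofNat (nat_lit 177399), .ofNat (nat_lit 170372), .ofNat (nat_lit 178466), .ofNat (nat_lit 170163), .ofNat (nat_lit 178239), .ofNat (nat_lit 171231), .ofNat (nat_lit 179306)⟩, ⟨.ofNat (nat_lit 0), .ofNat (nat_lit 0), .ofNat (nat_lit 0), .ofNat (nat_lit 0), .ofNat (nat_lit 0), .ofNat (nat_lit 0), .ofNat (nat_lit 0), .ofNat (nat_lit 0)⟩⟩, [⟨nat_lit 0, nat_lit 100, nat_lit 99, nat_lit 43, nat_lit 1277814984⟩]⟩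
noncomputable def p009_l89 : Lf2 := ⟨nat_lit 0, nat_lit 5, [nat_lit 4, nat_lit 5, nat_lit 5, nat_lit 20], true, nat_lit 0, nat_lit 0, nat_lit 0, nat_lit 0, ⟨nat_lit 0, nat_lit 0, nat_lit 1000, nat_lit 5, nat_lit 70, nat_lit 0, nat_lit 0, nat_lit 0, nat_lit 0, nat_lit 215, nat_lit 46817, nat_lit 268, nat_lit 64996232, nat_lit 0, nat_lit 0, nat_lit 672069, false, false⟩,
 nat_lit 0, nat_lit 7364, nat_lit 0, nat_lit 0, nat_lit 4052, nat_lit 0, nat_lit 135, nat_lit 0, nat_lit 0, nat_lit 0, nat_lit 0, nat_lit 0, nat_lit 0, nat_lit 0, nat_lit 118, nat_lit 775000, nat_lit 0, nat_lit 0, [(nat_lit 6, [(nat_lit 5, nat_lit 375), (nat_lit 6, nat_lit 625)])],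
 ⟨p009_k42, nat_lit 0, nat_lit 0, nat_lit 347, nat_lit 0, nat_lit 195549, [nat_lit 3030266667, nat_lit 2454000001, nat_lit 80199999], [], [nat_lit 13976849318, nat_lit 14110499028, nat_lit 13757071765, nat_lit 13867716825], nat_lit 1271250, nat_lit 1271250, nat_lit 88400, nat_lit 111251, nat_lit 0, nat_lit 0, [nat_lit 1100000, nat_lit 1442500, nat_lit 1271250], [nat_lit 11, nat_lit 40, nat_lit 20, nat_lit 80, nat_lit 1, nat_lit 289, nat_lit 75, nat_lit 9]⟩, C1.Rw.none,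
 ⟨nat_lit 6123, nat_lit 6165, ⟨.ofNat (nat_lit 170163), .ofNat (nat_lit 178239), .ofNat (nat_lit 171231), .ofNat (nat_lit 179306), .ofNat (nat_lit 171876), .ofNat (nat_lit 179914), .ofNat (nat_lit 172944), .ofNat (nat_lit 180982)⟩, ⟨.ofNat (nat_lit 0), .ofNat (nat_lit 0), .ofNat (nat_lit 0), .ofNat (nat_lit 0), .ofNat (nat_lit 0), .ofNat (nat_lit 0), .ofNat (nat_lit 0), .ofNat (nat_lit 0)⟩⟩, [⟨nat_lit 0, nat_lit 100, nat_lit 99, nat_lit 44, nat_lit 437564126⟩]⟩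
noncomputable def p009_l90 : Lf2 := ⟨nat_lit 0, nat_lit 5, [nat_lit 4, nat_lit 5, nat_lit 5, nat_lit 20], true, nat_lit 0, nat_lit 0, nat_lit 0, nat_lit 0, ⟨nat_lit 0, nat_lit 0, nat_lit 1000, nat_lit 5, nat_lit 69, nat_lit 0, nat_lit 0, nat_lit 0, nat_lit 0, nat_lit 215, nat_lit 45067, nat_lit 267, nat_lit 65071115, nat_lit 0, nat_lit 0, nat_lit 652515, false, false⟩,
 nat_lit 0, nat_lit 7538, nat_lit 0, nat_lit 0, nat_lit 4088, nat_lit 0, nat_lit 0, nat_lit 0, nat_lit 0, nat_lit 0, nat_lit 0, nat_lit 0, nat_lit 0, nat_lit 0, nat_lit 119, nat_lit 782200, nat_lit 0, nat_lit 0, [(nat_lit 6, [(nat_lit 5, nat_lit 363), (nat_lit 6, nat_lit 637)])],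
 ⟨p009_k38, nat_lit 0, nat_lit 0, nat_lit 334, nat_lit 0, nat_lit 161273, [nat_lit 3040980267, nat_lit 2474268801, nat_lit 85332799], [], [nat_lit 14254921753, nat_lit 14590414009, nat_lit 14059231285, nat_lit 14327883295], nat_lit 1271250, nat_lit 1271250, nat_lit 88400, nat_lit 111251, nat_lit 0, nat_lit 0, [nat_lit 1100000, nat_lit 1442500, nat_lit 1271250], [nat_lit 11, nat_lit 40, nat_lit 20, nat_lit 80, nat_lit 1, nat_lit 289, nat_lit 75, nat_lit 9]⟩, C1.Rw.none,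
 ⟨nat_lit 6123, nat_lit 6225, ⟨.ofNat (nat_lit 163311), .ofNat (nat_lit 171443), .ofNat (nat_lit 168651), .ofNat (nat_lit 176782), .ofNat (nat_lit 167607), .ofNat (nat_lit 175645), .ofNat (nat_lit 172944), .ofNat (nat_lit 180982)⟩, ⟨.ofNat (nat_lit 0), .ofNat (nat_lit 0), .ofNat (nat_lit 0), .ofNat (nat_lit 0), .ofNat (nat_lit 0), .ofNat (nat_lit 0), .ofNat (nat_lit 0), .ofNat (nat_lit 0)⟩⟩, [⟨nat_lit 0, nat_lit 100, nat_lit 99, nat_lit 42, nat_lit 410380354⟩]⟩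
noncomputable def p009_l91 : Lf2 := ⟨nat_lit 0, nat_lit 5, [nat_lit 4, nat_lit 5, nat_lit 5, nat_lit 20], true, nat_lit 0, nat_lit 0, nat_lit 0, nat_lit 0, ⟨nat_lit 0, nat_lit 0, nat_lit 1000, nat_lit 5, nat_lit 69, nat_lit 0, nat_lit 0, nat_lit 0, nat_lit 0, nat_lit 215, nat_lit 45067, nat_lit 267, nat_lit 65071115, nat_lit 0, nat_lit 0, nat_lit 652515, false, false⟩,
 nat_lit 0, nat_lit 7559, nat_lit 0, nat_lit 0, nat_lit 4100, nat_lit 0, nat_lit 0, nat_lit 0, nat_lit 0, nat_lit 0, nat_lit 0, nat_lit 0, nat_lit 0, nat_lit 0, nat_lit 119, nat_lit 782800, nat_lit 0, nat_lit 0, [(nat_lit 6, [(nat_lit 5, nat_lit 362), (nat_lit 6, nat_lit 638)])],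
 ⟨p009_k38, nat_lit 0, nat_lit 0, nat_lit 320, nat_lit 0, nat_lit 122678, [nat_lit 3040539734, nat_lit 2474291201, nat_lit 83427199], [], [nat_lit 14262372970, nat_lit 14598321219, nat_lit 14038826836, nat_lit 14334901399], nat_lit 1271250, nat_lit 1271250, nat_lit 88400, nat_lit 111251, nat_lit 0, nat_lit 0, [nat_lit 1100000, nat_lit 1442500, nat_lit 1271250], [nat_lit 11, nat_lit 40, nat_lit 20, nat_lit 80, nat_lit 1, nat_lit 289, nat_lit 75, nat_lit 9]⟩, C1.Rw.none,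
 ⟨nat_lit 6123, nat_lit 6225, ⟨.ofNat (nat_lit 163311), .ofNat (nat_lit 171443), .ofNat (nat_lit 168651), .ofNat (nat_lit 176782), .ofNat (nat_lit 167607), .ofNat (nat_lit 175645), .ofNat (nat_lit 172944), .ofNat (nat_lit 180982)⟩, ⟨.ofNat (nat_lit 0), .ofNat (nat_lit 0), .ofNat (nat_lit 0), .ofNat (nat_lit 0), .ofNat (nat_lit 0), .ofNat (nat_lit 0), .ofNat (nat_lit 0), .ofNat (nat_lit 0)⟩⟩, [⟨nat_lit 0, nat_lit 100, nat_lit 99, nat_lit 42, nat_lit 442818381⟩]⟩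
noncomputable def b_NL_600_550_0_11 : St := ⟨false, nat_lit 1, nat_lit 0, nat_lit 1, nat_lit 20, nat_lit 245, nat_lit 250, nat_lit 230, nat_lit 240, nat_lit 12, nat_lit 20, nat_lit 0, nat_lit 0, nat_lit 0, nat_lit 0, nat_lit 0, nat_lit 0, nat_lit 20, nat_lit 32, nat_lit 0, nat_lit 0, nat_lit 0, nat_lit 0⟩
theorem d_NL_600_550_0_11 (h : EB TB.env) : Dead b_NL_600_550_0_11 := chkB_sound0 h (T :=
(.spl (nat_lit 1) (nat_lit 235)
(.leaf p009_l82)
(.trZ (nat_lit 0) (nat_lit 100) (nat_lit 99) (nat_lit 40) (nat_lit 16) (.spl (nat_lit 6) (nat_lit 24)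
(.spl (nat_lit 1) (nat_lit 238)
(.leaf p009_l83)
(.spl (nat_lit 1) (nat_lit 239)
(.leaf p009_l84)
(.spl (nat_lit 0) (nat_lit 248)
(.spl (nat_lit 0) (nat_lit 247)
(.spl (nat_lit 0) (nat_lit 246)
(.spl (nat_lit 8) (nat_lit 800)
(.leaf p009_l85)
(.leaf p009_l86))
(.leaf p009_l87))
(.leaf p009_l88))
(.leaf p009_l89))))
(.spl (nat_lit 6) (nat_lit 28)
(.leaf p009_l90)
(.leaf p009_l91)))))) (by decide +kernel)
noncomputable def p009_l92 : Lf2 := ⟨nat_lit 0, nat_lit 5, [nat_lit 4, nat_lit 5, nat_lit 5, nat_lit 20], true, nat_lit 0, nat_lit 0, nat_lit 0, nat_lit 0, ⟨nat_lit 0, nat_lit 0, nat_lit 1000, nat_lit 5, nat_lit 72, nat_lit 0, nat_lit 0, nat_lit 0, nat_lit 0, nat_lit 215, nat_lit 48600, nat_lit 269, nat_lit 64872925, nat_lit 0, nat_lit 0, nat_lit 703802, false, false⟩,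
 nat_lit 0, nat_lit 8030, nat_lit 0, nat_lit 0, nat_lit 4251, nat_lit 0, nat_lit 0, nat_lit 0, nat_lit 0, nat_lit 0, nat_lit 0, nat_lit 0, nat_lit 0, nat_lit 0, nat_lit 115, nat_lit 751000, nat_lit 0, nat_lit 0, [(nat_lit 6, [(nat_lit 5, nat_lit 415), (nat_lit 6, nat_lit 585)])],
 ⟨p009_k8, nat_lit 0, nat_lit 0, nat_lit 333, nat_lit 0, nat_lit 170775, [nat_lit 2999888001, nat_lit 2393104001, nat_lit 72423999], [], [nat_lit 14349265931, nat_lit 14548188141, nat_lit 14670243699, nat_lit 13884994210], nat_lit 1271250, nat_lit 1271250, nat_lit 111251, nat_lit 230001, nat_lit 0, nat_lit 0, [nat_lit 1100000, nat_lit 1442500, nat_lit 1271250], [nat_lit 11, nat_lit 40, nat_lit 20, nat_lit 80, nat_lit 1, nat_lit 289, nat_lit 75, nat_lit 9]⟩, C1.Rw.none,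
 ⟨nat_lit 6123, nat_lit 6325, ⟨.ofNat (nat_lit 151177), .ofNat (nat_lit 192309), .ofNat (nat_lit 161861), .ofNat (nat_lit 202993), .ofNat (nat_lit 159634), .ofNat (nat_lit 199824), .ofNat (nat_lit 170308), .ofNat (nat_lit 210498)⟩, ⟨.ofNat (nat_lit 0), .ofNat (nat_lit 0), .ofNat (nat_lit 0), .ofNat (nat_lit 0), .ofNat (nat_lit 0), .ofNat (nat_lit 0), .ofNat (nat_lit 0), .ofNat (nat_lit 0)⟩⟩, []⟩
noncomputable def p009_l93 : Lf2 := ⟨nat_lit 0, nat_lit 5, [nat_lit 4, nat_lit 5, nat_lit 5, nat_lit 20], false, nat_lit 0, nat_lit 0, nat_lit 0, nat_lit 0, ⟨nat_lit 81, nat_lit 0, nat_lit 919, nat_lit 5, nat_lit 75, nat_lit 0, nat_lit 0, nat_lit 0, nat_lit 0, nat_lit 215, nat_lit 52267, nat_lit 271, nat_lit 64733887, nat_lit 0, nat_lit 0, nat_lit 738923, false, false⟩,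
 nat_lit 0, nat_lit 8917, nat_lit 0, nat_lit 0, nat_lit 4720, nat_lit 824, nat_lit 0, nat_lit 0, nat_lit 0, nat_lit 328, nat_lit 0, nat_lit 0, nat_lit 0, nat_lit 0, nat_lit 107, nat_lit 919000, nat_lit 0, nat_lit 0, [(nat_lit 6, [(nat_lit 6, nat_lit 919)])],
 ⟨p009_k8, nat_lit 0, nat_lit 0, nat_lit 330, nat_lit 0, nat_lit 166914, [nat_lit 2989652267, nat_lit 2740355601, nat_lit 161176399], [], [nat_lit 14759239629, nat_lit 14850161799, nat_lit 15063224589, nat_lit 14466659069], nat_lit 1271250, nat_lit 1271250, nat_lit 111251, nat_lit 230001, nat_lit 0, nat_lit 0, [nat_lit 1100000, nat_lit 1442500, nat_lit 1271250], [nat_lit 11, nat_lit 40, nat_lit 20, nat_lit 80, nat_lit 1, nat_lit 289, nat_lit 75, nat_lit 9]⟩, ⟨p009_k43, nat_lit 0, nat_lit 0, nat_lit 219, nat_lit 0, nat_lit 0, [nat_lit 506250000, nat_lit 645408000, nat_lit 797202000], [], [nat_lit 1505141446, nat_lit 1537708547, nat_lit 1361769303,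 nat_lit 1394022018], nat_lit 0, nat_lit 0, nat_lit 0, nat_lit 0, nat_lit 0, nat_lit 0, [], [nat_lit 25, nat_lit 40, nat_lit 20, nat_lit 80, nat_lit 17, nat_lit 289, nat_lit 75, nat_lit 9]⟩,
 ⟨nat_lit 6224, nat_lit 6325, ⟨.ofNat (nat_lit 161861), .ofNat (nat_lit 202993), .ofNat (nat_lit 167203), .ofNat (nat_lit 208335), .ofNat (nat_lit 166104), .ofNat (nat_lit 206763), .ofNat (nat_lit 171443), .ofNat (nat_lit 212102)⟩, ⟨.ofNat (nat_lit 0), .ofNat (nat_lit 0), .ofNat (nat_lit 0), .ofNat (nat_lit 0), .ofNat (nat_lit 0), .ofNat (nat_lit 0), .ofNat (nat_lit 0), .ofNat (nat_lit 0)⟩⟩, []⟩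
noncomputable def p009_l94 : Lf2 := ⟨nat_lit 0, nat_lit 5, [nat_lit 4, nat_lit 5, nat_lit 5, nat_lit 20], true, nat_lit 0, nat_lit 0, nat_lit 0, nat_lit 0, ⟨nat_lit 0, nat_lit 0, nat_lit 1000, nat_lit 5, nat_lit 76, nat_lit 0, nat_lit 0, nat_lit 0, nat_lit 0, nat_lit 215, nat_lit 54150, nat_lit 272, nat_lit 64639723, nat_lit 0, nat_lit 0, nat_lit 762332, false, false⟩,
 nat_lit 0, nat_lit 7458, nat_lit 0, nat_lit 0, nat_lit 4045, nat_lit 0, nat_lit 0, nat_lit 0, nat_lit 0, nat_lit 0, nat_lit 0, nat_lit 0, nat_lit 0, nat_lit 0, nat_lit 121, nat_lit 801400, nat_lit 0, nat_lit 0, [(nat_lit 6, [(nat_lit 5, nat_lit 331), (nat_lit 6, nat_lit 669)])],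
 ⟨p009_k38, nat_lit 0, nat_lit 0, nat_lit 338, nat_lit 0, nat_lit 185448, [nat_lit 3058883201, nat_lit 2514985601, nat_lit 80353599], [], [nat_lit 14118265718, nat_lit 14235622326, nat_lit 14450469128, nat_lit 13939217533], nat_lit 1271250, nat_lit 1271250, nat_lit 111251, nat_lit 230001, nat_lit 0, nat_lit 0, [nat_lit 1100000, nat_lit 1442500, nat_lit 1271250], [nat_lit 11, nat_lit 40, nat_lit 20, nat_lit 80, nat_lit 1, nat_lit 289, nat_lit 75, nat_lit 9]⟩, C1.Rw.none,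
 ⟨nat_lit 6123, nat_lit 6225, ⟨.ofNat (nat_lit 166104), .ofNat (nat_lit 206763), .ofNat (nat_lit 171443), .ofNat (nat_lit 212102), .ofNat (nat_lit 170308), .ofNat (nat_lit 210498), .ofNat (nat_lit 175645), .ofNat (nat_lit 215835)⟩, ⟨.ofNat (nat_lit 0), .ofNat (nat_lit 0), .ofNat (nat_lit 0), .ofNat (nat_lit 0), .ofNat (nat_lit 0), .ofNat (nat_lit 0), .ofNat (nat_lit 0), .ofNat (nat_lit 0)⟩⟩, []⟩
noncomputable def p009_l95 : Lf2 := ⟨nat_lit 0, nat_lit 5, [nat_lit 4, nat_lit 5, nat_lit 5, nat_lit 20], false, nat_lit 0, nat_lit 0, nat_lit 0, nat_lit 0, ⟨nat_lit 159, nat_lit 0, nat_lit 841, nat_lit 5, nat_lit 76, nat_lit 0, nat_lit 0, nat_lit 0, nat_lit 0, nat_lit 215, nat_lit 54150, nat_lit 272, nat_lit 64661433, nat_lit 0, nat_lit 0, nat_lit 756961, false, false⟩,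
 nat_lit 0, nat_lit 9199, nat_lit 0, nat_lit 0, nat_lit 4870, nat_lit 1516, nat_lit 0, nat_lit 0, nat_lit 0, nat_lit 557, nat_lit 0, nat_lit 0, nat_lit 0, nat_lit 0, nat_lit 68, nat_lit 841000, nat_lit 0, nat_lit 0, [(nat_lit 6, [(nat_lit 6, nat_lit 841)])],
 ⟨p009_k8, nat_lit 0, nat_lit 0, nat_lit 327, nat_lit 0, nat_lit 160362, [nat_lit 2655105067, nat_lit 2439868401, nat_lit 131879599], [], [nat_lit 15776707229, nat_lit 15802839132, nat_lit 16075257389, nat_lit 15829047721], nat_lit 1271250, nat_lit 1271250, nat_lit 111251, nat_lit 230001, nat_lit 0, nat_lit 0, [nat_lit 1100000, nat_lit 1442500, nat_lit 1271250], [nat_lit 11, nat_lit 40, nat_lit 20, nat_lit 80, nat_lit 1, nat_lit 289, nat_lit 75, nat_lit 9]⟩, ⟨p009_k39, nat_lit 0, nat_lit 0, nat_lit 220, nat_lit 0, nat_lit 0, [nat_lit 993750000, nat_lit 1266912000, nat_lit 1564878000], [], [nat_lit 3103758497, nat_lit 3135278109, nat_lit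 2834858722, nat_lit 2875234737], nat_lit 0, nat_lit 0, nat_lit 0, nat_lit 0, nat_lit 0, nat_lit 0, [], [nat_lit 25, nat_lit 40, nat_lit 20, nat_lit 80, nat_lit 17, nat_lit 289, nat_lit 75, nat_lit 9]⟩,
 ⟨nat_lit 6284, nat_lit 6325, ⟨.ofNat (nat_lit 167203), .ofNat (nat_lit 208335), .ofNat (nat_lit 170408), .ofNat (nat_lit 211541), .ofNat (nat_lit 168904), .ofNat (nat_lit 209846), .ofNat (nat_lit 172108), .ofNat (nat_lit 213051)⟩, ⟨.ofNat (nat_lit 0), .ofNat (nat_lit 0), .ofNat (nat_lit 0), .ofNat (nat_lit 0), .ofNat (nat_lit 0), .ofNat (nat_lit 0), .ofNat (nat_lit 0), .ofNat (nat_lit 0)⟩⟩, []⟩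
noncomputable def p009_l96 : Lf2 := ⟨nat_lit 0, nat_lit 5, [nat_lit 4, nat_lit 5, nat_lit 5, nat_lit 20], false, nat_lit 0, nat_lit 0, nat_lit 0, nat_lit 0, ⟨nat_lit 253, nat_lit 0, nat_lit 747, nat_lit 5, nat_lit 77, nat_lit 0, nat_lit 0, nat_lit 0, nat_lit 0, nat_lit 215, nat_lit 54150, nat_lit 272, nat_lit 64632801, nat_lit 0, nat_lit 0, nat_lit 764041, false, false⟩,
 nat_lit 0, nat_lit 10001, nat_lit 0, nat_lit 0, nat_lit 5346, nat_lit 2417, nat_lit 394, nat_lit 0, nat_lit 0, nat_lit 888, nat_lit 0, nat_lit 0, nat_lit 0, nat_lit 0, nat_lit 21, nat_lit 747000, nat_lit 0, nat_lit 0, [(nat_lit 6, [(nat_lit 6, nat_lit 747)])],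
 ⟨p009_k22, nat_lit 0, nat_lit 0, nat_lit 328, nat_lit 0, nat_lit 162984, [nat_lit 2251932800, nat_lit 2077742801, nat_lit 96573199], [], [nat_lit 16216846264, nat_lit 16196830953, nat_lit 16500138704, nat_lit 16365001447], nat_lit 1271250, nat_lit 1271250, nat_lit 111251, nat_lit 230001, nat_lit 0, nat_lit 0, [nat_lit 1100000, nat_lit 1442500, nat_lit 1271250], [nat_lit 11, nat_lit 40, nat_lit 20, nat_lit 80, nat_lit 1, nat_lit 289, nat_lit 75, nat_lit 9]⟩, ⟨p009_k39, nat_lit 0, nat_lit 0, nat_lit 220, nat_lit 0, nat_lit 0, [nat_lit 1581250000, nat_lit 2015904000, nat_lit 2490026000], [], [nat_lit 4931346157, nat_lit 4981553334, nat_lit 4503724409, nat_lit 4569756233], nat_lit 0, nat_lit 0, nat_lit 0, nat_lit 0, nat_lit 0, nat_lit 0, [], [nat_lit 25, nat_lit 40, nat_lit 20, nat_lit 80, nat_lit 17, nat_lit 289, nat_lit 75, nat_lit 9]⟩,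
 ⟨nat_lit 6264, nat_lit 6285, ⟨.ofNat (nat_lit 168904), .ofNat (nat_lit 209846), .ofNat (nat_lit 172108), .ofNat (nat_lit 213051), .ofNat (nat_lit 169752), .ofNat (nat_lit 210599), .ofNat (nat_lit 172956), .ofNat (nat_lit 213804)⟩, ⟨.ofNat (nat_lit 0), .ofNat (nat_lit 0), .ofNat (nat_lit 0), .ofNat (nat_lit 0), .ofNat (nat_lit 0), .ofNat (nat_lit 0), .ofNat (nat_lit 0), .ofNat (nat_lit 0)⟩⟩, []⟩
noncomputable def p009_l97 : Lf2 := ⟨nat_lit 0, nat_lit 5, [nat_lit 4, nat_lit 5, nat_lit 5, nat_lit 20], false, nat_lit 0, nat_lit 0, nat_lit 0, nat_lit 0, ⟨nat_lit 307, nat_lit 0, nat_lit 693, nat_lit 5, nat_lit 73, nat_lit 0, nat_lit 0, nat_lit 0, nat_lit 0, nat_lit 215, nat_lit 50417, nat_lit 270, nat_lit 64813001, nat_lit 0, nat_lit 0, nat_lit 719022, false, false⟩,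
 nat_lit 0, nat_lit 10768, nat_lit 0, nat_lit 0, nat_lit 5700, nat_lit 2933, nat_lit 461, nat_lit 0, nat_lit 0, nat_lit 1033, nat_lit 0, nat_lit 0, nat_lit 0, nat_lit 0, nat_lit 0, nat_lit 693000, nat_lit 0, nat_lit 0, [(nat_lit 6, [(nat_lit 6, nat_lit 693)])],
 ⟨p009_k8, nat_lit 0, nat_lit 0, nat_lit 326, nat_lit 0, nat_lit 160162, [nat_lit 2116323201, nat_lit 1989713201, nat_lit 244290799], [], [nat_lit 16867355203, nat_lit 16831478911, nat_lit 17004321763, nat_lit 16859811944], nat_lit 1271250, nat_lit 1271250, nat_lit 111251, nat_lit 181601, nat_lit 0, nat_lit 0, [nat_lit 1100000, nat_lit 1442500, nat_lit 1271250], [nat_lit 11, nat_lit 40, nat_lit 20, nat_lit 80, nat_lit 1, nat_lit 289, nat_lit 75, nat_lit 9]⟩, ⟨p009_k28, nat_lit 0, nat_lit 0, nat_lit 221, nat_lit 0, nat_lit 0, [nat_lit 1918750000, nat_lit 2446176000, nat_lit 3021494000], [], [nat_lit 6049509924, nat_lit 6070268468, nat_lit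 5743682609, nat_lit 5770502334], nat_lit 0, nat_lit 0, nat_lit 0, nat_lit 0, nat_lit 0, nat_lit 0, [], [nat_lit 25, nat_lit 40, nat_lit 20, nat_lit 80, nat_lit 17, nat_lit 289, nat_lit 75, nat_lit 9]⟩,
 ⟨nat_lit 6304, nat_lit 6325, ⟨.ofNat (nat_lit 170408), .ofNat (nat_lit 195088), .ofNat (nat_lit 171477), .ofNat (nat_lit 196156), .ofNat (nat_lit 171259), .ofNat (nat_lit 195881), .ofNat (nat_lit 172327), .ofNat (nat_lit 196950)⟩, ⟨.ofNat (nat_lit 0), .ofNat (nat_lit 0), .ofNat (nat_lit 0), .ofNat (nat_lit 0), .ofNat (nat_lit 0), .ofNat (nat_lit 0), .ofNat (nat_lit 0), .ofNat (nat_lit 0)⟩⟩, []⟩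
noncomputable def p009_l98 : Lf2 := ⟨nat_lit 0, nat_lit 5, [nat_lit 4, nat_lit 5, nat_lit 5, nat_lit 20], false, nat_lit 0, nat_lit 0, nat_lit 0, nat_lit 0, ⟨nat_lit 285, nat_lit 0, nat_lit 715, nat_lit 5, nat_lit 74, nat_lit 0, nat_lit 0, nat_lit 0, nat_lit 0, nat_lit 215, nat_lit 50417, nat_lit 270, nat_lit 64794042, nat_lit 0, nat_lit 0, nat_lit 723811, false, false⟩,
 nat_lit 0, nat_lit 10433, nat_lit 0, nat_lit 0, nat_lit 5550, nat_lit 2721, nat_lit 444, nat_lit 0, nat_lit 0, nat_lit 959, nat_lit 0, nat_lit 0, nat_lit 0, nat_lit 0, nat_lit 5, nat_lit 715000, nat_lit 0, nat_lit 0, [(nat_lit 6, [(nat_lit 6, nat_lit 715)])],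
 ⟨p009_k20, nat_lit 0, nat_lit 0, nat_lit 328, nat_lit 0, nat_lit 163617, [nat_lit 2114682667, nat_lit 1954466001, nat_lit 84553999], [], [nat_lit 16574379759, nat_lit 16544349880, nat_lit 16715766580, nat_lit 16575059650], nat_lit 1271250, nat_lit 1271250, nat_lit 111251, nat_lit 181601, nat_lit 0, nat_lit 0, [nat_lit 1100000, nat_lit 1442500, nat_lit 1271250], [nat_lit 11, nat_lit 40, nat_lit 20, nat_lit 80, nat_lit 1, nat_lit 289, nat_lit 75, nat_lit 9]⟩, ⟨p009_k28, nat_lit 0, nat_lit 0, nat_lit 221, nat_lit 0, nat_lit 0, [nat_lit 1781250000, nat_lit 2270880000, nat_lit 2804970000], [], [nat_lit 5616740353, nat_lit 5635586458, nat_lit 5333964075, nat_lit 5358851531], nat_lit 0, nat_lit 0, nat_lit 0, nat_lit 0, nat_lit 0, nat_lit 0, [], [nat_lit 25, nat_lit 40, nat_lit 20, nat_lit 80, nat_lit 17, nat_lit 289, nat_lit 75, nat_lit 9]⟩,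
 ⟨nat_lit 6284, nat_lit 6305, ⟨.ofNat (nat_lit 171259), .ofNat (nat_lit 195881), .ofNat (nat_lit 172327), .ofNat (nat_lit 196950), .ofNat (nat_lit 172108), .ofNat (nat_lit 196674), .ofNat (nat_lit 173177), .ofNat (nat_lit 197742)⟩, ⟨.ofNat (nat_lit 0), .ofNat (nat_lit 0), .ofNat (nat_lit 0), .ofNat (nat_lit 0), .ofNat (nat_lit 0), .ofNat (nat_lit 0), .ofNat (nat_lit 0), .ofNat (nat_lit 0)⟩⟩, []⟩
noncomputable def p009_l99 : Lf2 := ⟨nat_lit 0, nat_lit 5, [nat_lit 4, nat_lit 5, nat_lit 5, nat_lit 20], false, nat_lit 0, nat_lit 0, nat_lit 0, nat_lit 0, ⟨nat_lit 1000, nat_lit 0, nat_lit 0, nat_lit 0, nat_lit 0, nat_lit 0, nat_lit 0, nat_lit 0, nat_lit 0, nat_lit 0, nat_lit 0, nat_lit 0, nat_lit 0, nat_lit 0, nat_lit 0, nat_lit 0, false, false⟩,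
 nat_lit 0, nat_lit 17969, nat_lit 0, nat_lit 0, nat_lit 9512, nat_lit 8493, nat_lit 2640, nat_lit 0, nat_lit 0, nat_lit 971, nat_lit 0, nat_lit 0, nat_lit 0, nat_lit 0, nat_lit 0, nat_lit 0, nat_lit 0, nat_lit 0, [],
 ⟨p009_k8, nat_lit 0, nat_lit 0, nat_lit 328, nat_lit 0, nat_lit 164304, [nat_lit 4688000000, nat_lit 6250000000, nat_lit 9842000000], [], [nat_lit 22088851136, nat_lit 22044313914, nat_lit 22089652532, nat_lit 21847790908], nat_lit 1271250, nat_lit 1271250, nat_lit 111251, nat_lit 134400, nat_lit 0, nat_lit 0, [nat_lit 1100000, nat_lit 1442500, nat_lit 1271250], [nat_lit 11, nat_lit 40, nat_lit 20, nat_lit 80, nat_lit 1, nat_lit 289, nat_lit 75, nat_lit 9]⟩, ⟨p009_k37, nat_lit 0, nat_lit 0, nat_lit 0, nat_lit 0, nat_lit 0, [nat_lit 5449500000, nat_lit 7089500000, nat_lit 8885500000], [], [nat_lit 23976222012, nat_lit 24047199975, nat_lit 23686813511, nat_lit 23757662368], nat_lit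 0, nat_lit 0, nat_lit 0, nat_lit 0, nat_lit 0, nat_lit 0, [], [nat_lit 96, nat_lit 40, nat_lit 20, nat_lit 40]⟩,
 zbF0, []⟩
noncomputable def p009_l100 : Lf2 := ⟨nat_lit 3, nat_lit 5, [nat_lit 4, nat_lit 5, nat_lit 5, nat_lit 20], false, nat_lit 0, nat_lit 0, nat_lit 0, nat_lit 0, zbN0,
 nat_lit 0, nat_lit 0, nat_lit 0, nat_lit 0, nat_lit 0, nat_lit 0, nat_lit 0, nat_lit 0, nat_lit 0, nat_lit 0, nat_lit 0, nat_lit 0, nat_lit 0, nat_lit 0, nat_lit 0, nat_lit 0, nat_lit 0, nat_lit 0, [],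
 C1.Rw.none, ⟨p009_k31, nat_lit 0, nat_lit 0, nat_lit 200, nat_lit 0, nat_lit 0, [], [], [], nat_lit 0, nat_lit 0, nat_lit 0, nat_lit 0, nat_lit 0, nat_lit 0, [], [nat_lit 51, nat_lit 40, nat_lit 20, nat_lit 80, nat_lit 1, nat_lit 289, nat_lit 75, nat_lit 9]⟩,
 zbF0, []⟩
noncomputable def p009_l101 : Lf2 := ⟨nat_lit 0, nat_lit 5, [nat_lit 4, nat_lit 5, nat_lit 5, nat_lit 20], false, nat_lit 0, nat_lit 0, nat_lit 0, nat_lit 0, ⟨nat_lit 1000, nat_lit 0, nat_lit 0, nat_lit 0, nat_lit 0, nat_lit 0, nat_lit 0, nat_lit 0, nat_lit 0, nat_lit 0, nat_lit 0, nat_lit 0, nat_lit 0, nat_lit 0, nat_lit 0, nat_lit 0, false, false⟩,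
 nat_lit 0, nat_lit 18132, nat_lit 0, nat_lit 0, nat_lit 9599, nat_lit 9622, nat_lit 2563, nat_lit 0, nat_lit 0, nat_lit 3318, nat_lit 0, nat_lit 0, nat_lit 0, nat_lit 0, nat_lit 0, nat_lit 0, nat_lit 0, nat_lit 0, [],
 ⟨p009_k8, nat_lit 0, nat_lit 0, nat_lit 324, nat_lit 0, nat_lit 164304, [nat_lit 4688000000, nat_lit 6250000000, nat_lit 9842000000], [], [nat_lit 21954826683, nat_lit 21910055004, nat_lit 21993033892, nat_lit 21749674284], nat_lit 1271250, nat_lit 1271250, nat_lit 134400, nat_lit 181601, nat_lit 0, nat_lit 0, [nat_lit 1100000, nat_lit 1442500, nat_lit 1271250], [nat_lit 11, nat_lit 40, nat_lit 20, nat_lit 80, nat_lit 1, nat_lit 289, nat_lit 75, nat_lit 9]⟩, ⟨p009_k30, nat_lit 0, nat_lit 0, nat_lit 215, nat_lit 0, nat_lit 0, [nat_lit 6250000000, nat_lit 7968000000, nat_lit 9842000000], [], [nat_lit 19399663273, nat_lit 19467464573, nat_lit 18726182199, nat_lit 18813930935], nat_lit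 0, nat_lit 0, nat_lit 0, nat_lit 0, nat_lit 0, nat_lit 0, [], [nat_lit 25, nat_lit 40, nat_lit 20, nat_lit 80, nat_lit 17, nat_lit 289, nat_lit 75, nat_lit 9]⟩,
 zbF0, []⟩
noncomputable def p009_l102 : Lf2 := ⟨nat_lit 0, nat_lit 5, [nat_lit 4, nat_lit 5, nat_lit 5, nat_lit 20], false, nat_lit 0, nat_lit 0, nat_lit 0, nat_lit 0, ⟨nat_lit 1000, nat_lit 0, nat_lit 0, nat_lit 0, nat_lit 0, nat_lit 0, nat_lit 0, nat_lit 0, nat_lit 0, nat_lit 0, nat_lit 0, nat_lit 0, nat_lit 0, nat_lit 0, nat_lit 0, nat_lit 0, false, false⟩,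
 nat_lit 0, nat_lit 17684, nat_lit 0, nat_lit 0, nat_lit 9407, nat_lit 8493, nat_lit 2696, nat_lit 0, nat_lit 0, nat_lit 848, nat_lit 0, nat_lit 0, nat_lit 0, nat_lit 0, nat_lit 0, nat_lit 0, nat_lit 0, nat_lit 0, [],
 ⟨p009_k20, nat_lit 0, nat_lit 0, nat_lit 329, nat_lit 0, nat_lit 167712, [nat_lit 4688000000, nat_lit 6250000000, nat_lit 9842000000], [], [nat_lit 21825666967, nat_lit 21784189386, nat_lit 21827831595, nat_lit 21588639806], nat_lit 1271250, nat_lit 1271250, nat_lit 111251, nat_lit 134400, nat_lit 0, nat_lit 0, [nat_lit 1100000, nat_lit 1442500, nat_lit 1271250], [nat_lit 11, nat_lit 40, nat_lit 20, nat_lit 80, nat_lit 1, nat_lit 289, nat_lit 75, nat_lit 9]⟩, ⟨p009_k37, nat_lit 0, nat_lit 0, nat_lit 0, nat_lit 0, nat_lit 0, [nat_lit 5449500000, nat_lit 7089500000, nat_lit 8885500000], [], [nat_lit 24264887637, nat_lit 24335865600, nat_lit 23975479136, nat_lit 24046327993], nat_lit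 0, nat_lit 0, nat_lit 0, nat_lit 0, nat_lit 0, nat_lit 0, [], [nat_lit 96, nat_lit 40, nat_lit 20, nat_lit 40]⟩,
 zbF0, []⟩
noncomputable def p009_l103 : Lf2 := ⟨nat_lit 3, nat_lit 5, [nat_lit 4, nat_lit 5, nat_lit 5, nat_lit 20], false, nat_lit 0, nat_lit 0, nat_lit 0, nat_lit 0, zbN0,
 nat_lit 0, nat_lit 0, nat_lit 0, nat_lit 0, nat_lit 0, nat_lit 0, nat_lit 0, nat_lit 0, nat_lit 0, nat_lit 0, nat_lit 0, nat_lit 0, nat_lit 0, nat_lit 0, nat_lit 0, nat_lit 0, nat_lit 0, nat_lit 0, [],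
 C1.Rw.none, ⟨p009_k31, nat_lit 0, nat_lit 0, nat_lit 200, nat_lit 0, nat_lit 0, [], [], [], nat_lit 0, nat_lit 0, nat_lit 0, nat_lit 0, nat_lit 0, nat_lit 0, [], [nat_lit 51, nat_lit 40, nat_lit 20, nat_lit 80, nat_lit 1, nat_lit 289, nat_lit 75, nat_lit 9]⟩,
 zbF0, []⟩
noncomputable def p009_l104 : Lf2 := ⟨nat_lit 0, nat_lit 5, [nat_lit 4, nat_lit 5, nat_lit 5, nat_lit 20], false, nat_lit 0, nat_lit 0, nat_lit 0, nat_lit 0, ⟨nat_lit 1000, nat_lit 0, nat_lit 0, nat_lit 0, nat_lit 0, nat_lit 0, nat_lit 0, nat_lit 0, nat_lit 0, nat_lit 0, nat_lit 0, nat_lit 0, nat_lit 0, nat_lit 0, nat_lit 0, nat_lit 0, false, false⟩,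
 nat_lit 0, nat_lit 17849, nat_lit 0, nat_lit 0, nat_lit 9495, nat_lit 9622, nat_lit 2622, nat_lit 0, nat_lit 0, nat_lit 3318, nat_lit 0, nat_lit 0, nat_lit 0, nat_lit 0, nat_lit 0, nat_lit 0, nat_lit 0, nat_lit 0, [],
 ⟨p009_k20, nat_lit 0, nat_lit 0, nat_lit 326, nat_lit 0, nat_lit 167712, [nat_lit 4688000000, nat_lit 6250000000, nat_lit 9842000000], [], [nat_lit 21694305947, nat_lit 21650358445, nat_lit 21734851220, nat_lit 21494128282], nat_lit 1271250, nat_lit 1271250, nat_lit 134400, nat_lit 181601, nat_lit 0, nat_lit 0, [nat_lit 1100000, nat_lit 1442500, nat_lit 1271250], [nat_lit 11, nat_lit 40, nat_lit 20, nat_lit 80, nat_lit 1, nat_lit 289, nat_lit 75, nat_lit 9]⟩, ⟨p009_k30, nat_lit 0, nat_lit 0, nat_lit 215, nat_lit 0, nat_lit 0, [nat_lit 6250000000, nat_lit 7968000000, nat_lit 9842000000], [], [nat_lit 19399663273, nat_lit 19467464573, nat_lit 18726182199, nat_lit 18813930935],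 nat_lit 0, nat_lit 0, nat_lit 0, nat_lit 0, nat_lit 0, nat_lit 0, [], [nat_lit 25, nat_lit 40, nat_lit 20, nat_lit 80, nat_lit 17, nat_lit 289, nat_lit 75, nat_lit 9]⟩,
 zbF0, []⟩
noncomputable def p009_l105 : Lf2 := ⟨nat_lit 0, nat_lit 5, [nat_lit 4, nat_lit 5, nat_lit 5, nat_lit 20], false, nat_lit 0, nat_lit 0, nat_lit 0, nat_lit 0, ⟨nat_lit 1000, nat_lit 0, nat_lit 0, nat_lit 0, nat_lit 0, nat_lit 0, nat_lit 0, nat_lit 0, nat_lit 0, nat_lit 0, nat_lit 0, nat_lit 0, nat_lit 0, nat_lit 0, nat_lit 0, nat_lit 0, false, false⟩,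
 nat_lit 0, nat_lit 18424, nat_lit 0, nat_lit 0, nat_lit 9753, nat_lit 9800, nat_lit 2429, nat_lit 0, nat_lit 0, nat_lit 3380, nat_lit 0, nat_lit 0, nat_lit 0, nat_lit 0, nat_lit 0, nat_lit 0, nat_lit 0, nat_lit 0, [],
 ⟨p009_k8, nat_lit 0, nat_lit 0, nat_lit 319, nat_lit 0, nat_lit 168595, [nat_lit 4688000000, nat_lit 6250000000, nat_lit 9842000000], [], [nat_lit 21751960567, nat_lit 21651220547, nat_lit 21839323088, nat_lit 21346246519], nat_lit 1271250, nat_lit 1271250, nat_lit 181601, nat_lit 230001, nat_lit 0, nat_lit 0, [nat_lit 1100000, nat_lit 1442500, nat_lit 1271250], [nat_lit 11, nat_lit 40, nat_lit 20, nat_lit 80, nat_lit 1, nat_lit 289, nat_lit 75, nat_lit 9]⟩, ⟨p009_k28, nat_lit 0, nat_lit 0, nat_lit 204, nat_lit 0, nat_lit 0, [nat_lit 6250000000, nat_lit 7968000000, nat_lit 9842000000], [], [nat_lit 18496353873, nat_lit 18631757761, nat_lit 17796846000, nat_lit 17963630400], nat_lit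 0, nat_lit 0, nat_lit 0, nat_lit 0, nat_lit 0, nat_lit 0, [], [nat_lit 25, nat_lit 40, nat_lit 20, nat_lit 80, nat_lit 17, nat_lit 289, nat_lit 75, nat_lit 9]⟩,
 zbF0, []⟩
noncomputable def p009_l106 : Lf2 := ⟨nat_lit 0, nat_lit 5, [nat_lit 4, nat_lit 5, nat_lit 5, nat_lit 20], false, nat_lit 0, nat_lit 0, nat_lit 0, nat_lit 0, ⟨nat_lit 263, nat_lit 0, nat_lit 737, nat_lit 5, nat_lit 78, nat_lit 0, nat_lit 0, nat_lit 0, nat_lit 0, nat_lit 215, nat_lit 56067, nat_lit 273, nat_lit 64568693, nat_lit 0, nat_lit 0, nat_lit 779797, false, false⟩,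
 nat_lit 0, nat_lit 10103, nat_lit 0, nat_lit 0, nat_lit 5401, nat_lit 2507, nat_lit 426, nat_lit 0, nat_lit 0, nat_lit 883, nat_lit 0, nat_lit 0, nat_lit 0, nat_lit 0, nat_lit 16, nat_lit 737000, nat_lit 0, nat_lit 0, [(nat_lit 6, [(nat_lit 6, nat_lit 737)])],
 ⟨p009_k22, nat_lit 0, nat_lit 0, nat_lit 331, nat_lit 0, nat_lit 171083, [nat_lit 2209042134, nat_lit 2039218801, nat_lit 92817199], [], [nat_lit 16284602576, nat_lit 16263824470, nat_lit 16565922716, nat_lit 16429395158], nat_lit 1271250, nat_lit 1271250, nat_lit 111251, nat_lit 230001, nat_lit 0, nat_lit 0, [nat_lit 1100000, nat_lit 1442500, nat_lit 1271250], [nat_lit 11, nat_lit 40, nat_lit 20, nat_lit 80, nat_lit 1, nat_lit 289, nat_lit 75, nat_lit 9]⟩, ⟨p009_k28, nat_lit 0, nat_lit 0, nat_lit 221, nat_lit 0, nat_lit 0, [nat_lit 1643750000, nat_lit 2095584000, nat_lit 2588446000], [], [nat_lit 5191143714, nat_lit 5227121200, nat_lit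 4756558661, nat_lit 4802257208], nat_lit 0, nat_lit 0, nat_lit 0, nat_lit 0, nat_lit 0, nat_lit 0, [], [nat_lit 25, nat_lit 40, nat_lit 20, nat_lit 80, nat_lit 17, nat_lit 289, nat_lit 75, nat_lit 9]⟩,
 ⟨nat_lit 6264, nat_lit 6285, ⟨.ofNat (nat_lit 172108), .ofNat (nat_lit 213051), .ofNat (nat_lit 174245), .ofNat (nat_lit 215187), .ofNat (nat_lit 172956), .ofNat (nat_lit 213804), .ofNat (nat_lit 175092), .ofNat (nat_lit 215940)⟩, ⟨.ofNat (nat_lit 0), .ofNat (nat_lit 0), .ofNat (nat_lit 0), .ofNat (nat_lit 0), .ofNat (nat_lit 0), .ofNat (nat_lit 0), .ofNat (nat_lit 0), .ofNat (nat_lit 0)⟩⟩, []⟩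
noncomputable def p009_l107 : Lf2 := ⟨nat_lit 0, nat_lit 5, [nat_lit 4, nat_lit 5, nat_lit 5, nat_lit 20], false, nat_lit 0, nat_lit 0, nat_lit 0, nat_lit 0, ⟨nat_lit 234, nat_lit 0, nat_lit 766, nat_lit 5, nat_lit 77, nat_lit 0, nat_lit 0, nat_lit 0, nat_lit 0, nat_lit 215, nat_lit 56067, nat_lit 273, nat_lit 64588045, nat_lit 0, nat_lit 0, nat_lit 775055, false, false⟩,
 nat_lit 0, nat_lit 9711, nat_lit 0, nat_lit 0, nat_lit 5216, nat_lit 2228, nat_lit 382, nat_lit 0, nat_lit 0, nat_lit 817, nat_lit 0, nat_lit 0, nat_lit 0, nat_lit 0, nat_lit 31, nat_lit 766000, nat_lit 0, nat_lit 0, [(nat_lit 6, [(nat_lit 6, nat_lit 766)])],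
 ⟨p009_k23, nat_lit 0, nat_lit 0, nat_lit 332, nat_lit 0, nat_lit 174418, [nat_lit 2341425067, nat_lit 2160938401, nat_lit 117709599], [], [nat_lit 15959888516, nat_lit 15944031224, nat_lit 16248812932, nat_lit 16116961841], nat_lit 1271250, nat_lit 1271250, nat_lit 111251, nat_lit 230001, nat_lit 0, nat_lit 0, [nat_lit 1100000, nat_lit 1442500, nat_lit 1271250], [nat_lit 11, nat_lit 40, nat_lit 20, nat_lit 80, nat_lit 1, nat_lit 289, nat_lit 75, nat_lit 9]⟩, ⟨p009_k39, nat_lit 0, nat_lit 0, nat_lit 221, nat_lit 0, nat_lit 0, [nat_lit 1462500000, nat_lit 1864512000, nat_lit 2303028000], [], [nat_lit 4577463514, nat_lit 4654717846, nat_lit 4182376015, nat_lit 4275563680], nat_lit 0, nat_lit 0, nat_lit 0, nat_lit 0, nat_lit 0, nat_lit 0, [], [nat_lit 25, nat_lit 40, nat_lit 20, nat_lit 80, nat_lit 17, nat_lit 289, nat_lit 75, nat_lit 9]⟩,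
 ⟨nat_lit 6244, nat_lit 6265, ⟨.ofNat (nat_lit 169752), .ofNat (nat_lit 210599), .ofNat (nat_lit 175092), .ofNat (nat_lit 215940), .ofNat (nat_lit 170598), .ofNat (nat_lit 211351), .ofNat (nat_lit 175938), .ofNat (nat_lit 216691)⟩, ⟨.ofNat (nat_lit 0), .ofNat (nat_lit 0), .ofNat (nat_lit 0), .ofNat (nat_lit 0), .ofNat (nat_lit 0), .ofNat (nat_lit 0), .ofNat (nat_lit 0), .ofNat (nat_lit 0)⟩⟩, []⟩
noncomputable def p009_l108 : Lf2 := ⟨nat_lit 0, nat_lit 5, [nat_lit 4, nat_lit 5, nat_lit 5, nat_lit 20], false, nat_lit 0, nat_lit 0, nat_lit 0, nat_lit 0, ⟨nat_lit 215, nat_lit 0, nat_lit 785, nat_lit 5, nat_lit 78, nat_lit 0, nat_lit 0, nat_lit 0, nat_lit 0, nat_lit 215, nat_lit 56067, nat_lit 273, nat_lit 64568805, nat_lit 0, nat_lit 0, nat_lit 779769, false, false⟩,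
 nat_lit 0, nat_lit 9418, nat_lit 0, nat_lit 0, nat_lit 5084, nat_lit 2047, nat_lit 370, nat_lit 0, nat_lit 0, nat_lit 751, nat_lit 0, nat_lit 0, nat_lit 0, nat_lit 0, nat_lit 40, nat_lit 785000, nat_lit 0, nat_lit 0, [(nat_lit 6, [(nat_lit 6, nat_lit 785)])],
 ⟨p009_k36, nat_lit 0, nat_lit 0, nat_lit 334, nat_lit 0, nat_lit 177767, [nat_lit 2414917334, nat_lit 2224134001, nat_lit 110845999], [], [nat_lit 15705385317, nat_lit 15695069084, nat_lit 15999964325, nat_lit 15871449956], nat_lit 1271250, nat_lit 1271250, nat_lit 111251, nat_lit 230001, nat_lit 0, nat_lit 0, [nat_lit 1100000, nat_lit 1442500, nat_lit 1271250], [nat_lit 11, nat_lit 40, nat_lit 20, nat_lit 80, nat_lit 1, nat_lit 289, nat_lit 75, nat_lit 9]⟩, ⟨p009_k39, nat_lit 0, nat_lit 0, nat_lit 221, nat_lit 0, nat_lit 0, [nat_lit 1343750000, nat_lit 1713120000, nat_lit 2116030000], [], [nat_lit 4204818050, nat_lit 4275797834, nat_lit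 3841830109, nat_lit 3928506456], nat_lit 0, nat_lit 0, nat_lit 0, nat_lit 0, nat_lit 0, nat_lit 0, [], [nat_lit 25, nat_lit 40, nat_lit 20, nat_lit 80, nat_lit 17, nat_lit 289, nat_lit 75, nat_lit 9]⟩,
 ⟨nat_lit 6224, nat_lit 6245, ⟨.ofNat (nat_lit 170598), .ofNat (nat_lit 211351), .ofNat (nat_lit 175938), .ofNat (nat_lit 216691), .ofNat (nat_lit 171443), .ofNat (nat_lit 212102), .ofNat (nat_lit 176782), .ofNat (nat_lit 217441)⟩, ⟨.ofNat (nat_lit 0), .ofNat (nat_lit 0), .ofNat (nat_lit 0), .ofNat (nat_lit 0), .ofNat (nat_lit 0), .ofNat (nat_lit 0), .ofNat (nat_lit 0), .ofNat (nat_lit 0)⟩⟩, []⟩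
noncomputable def p009_l109 : Lf2 := ⟨nat_lit 0, nat_lit 5, [nat_lit 4, nat_lit 5, nat_lit 5, nat_lit 20], true, nat_lit 0, nat_lit 0, nat_lit 0, nat_lit 0, ⟨nat_lit 0, nat_lit 0, nat_lit 1000, nat_lit 5, nat_lit 76, nat_lit 0, nat_lit 0, nat_lit 0, nat_lit 0, nat_lit 215, nat_lit 54150, nat_lit 272, nat_lit 64651924, nat_lit 0, nat_lit 0, nat_lit 759315, false, false⟩,
 nat_lit 0, nat_lit 7961, nat_lit 0, nat_lit 0, nat_lit 4214, nat_lit 0, nat_lit 0, nat_lit 0, nat_lit 0, nat_lit 0, nat_lit 0, nat_lit 0, nat_lit 0, nat_lit 0, nat_lit 95, nat_lit 598600, nat_lit 0, nat_lit 0, [(nat_lit 6, [(nat_lit 5, nat_lit 669), (nat_lit 6, nat_lit 331)])],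
 ⟨p009_k8, nat_lit 0, nat_lit 0, nat_lit 314, nat_lit 0, nat_lit 125667, [nat_lit 2791783467, nat_lit 1987414401, nat_lit 12296000], [], [nat_lit 14506764861, nat_lit 14545624510, nat_lit 14829083213, nat_lit 14509516209], nat_lit 1271250, nat_lit 1271250, nat_lit 111251, nat_lit 230001, nat_lit 0, nat_lit 0, [nat_lit 1100000, nat_lit 1442500, nat_lit 1271250], [nat_lit 11, nat_lit 40, nat_lit 20, nat_lit 80, nat_lit 1, nat_lit 289, nat_lit 75, nat_lit 9]⟩, C1.Rw.none,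
 ⟨nat_lit 6264, nat_lit 6325, ⟨.ofNat (nat_lit 167203), .ofNat (nat_lit 208335), .ofNat (nat_lit 170408), .ofNat (nat_lit 211541), .ofNat (nat_lit 169752), .ofNat (nat_lit 210599), .ofNat (nat_lit 172956), .ofNat (nat_lit 213804)⟩, ⟨.ofNat (nat_lit 0), .ofNat (nat_lit 0), .ofNat (nat_lit 0), .ofNat (nat_lit 0), .ofNat (nat_lit 0), .ofNat (nat_lit 0), .ofNat (nat_lit 0), .ofNat (nat_lit 0)⟩⟩, []⟩
noncomputable def p009_l110 : Lf2 := ⟨nat_lit 0, nat_lit 5, [nat_lit 4, nat_lit 5, nat_lit 5, nat_lit 20], false, nat_lit 0, nat_lit 0, nat_lit 0, nat_lit 0, ⟨nat_lit 127, nat_lit 0, nat_lit 873, nat_lit 5, nat_lit 77, nat_lit 0, nat_lit 0, nat_lit 0, nat_lit 0, nat_lit 215, nat_lit 56067, nat_lit 273, nat_lit 64607280, nat_lit 0, nat_lit 0, nat_lit 770329, false, false⟩,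
 nat_lit 0, nat_lit 8884, nat_lit 0, nat_lit 0, nat_lit 4703, nat_lit 1206, nat_lit 0, nat_lit 0, nat_lit 0, nat_lit 425, nat_lit 0, nat_lit 0, nat_lit 0, nat_lit 0, nat_lit 67, nat_lit 744000, nat_lit 0, nat_lit 0, [(nat_lit 6, [(nat_lit 5, nat_lit 215), (nat_lit 6, nat_lit 658)])],
 ⟨p009_k8, nat_lit 0, nat_lit 0, nat_lit 314, nat_lit 0, nat_lit 125262, [nat_lit 2615069867, nat_lit 2218329201, nat_lit 77602799], [], [nat_lit 15606785653, nat_lit 15592538453, nat_lit 15911386557, nat_lit 15792503183], nat_lit 1271250, nat_lit 1271250, nat_lit 111251, nat_lit 230001, nat_lit 0, nat_lit 0, [nat_lit 1100000, nat_lit 1442500, nat_lit 1271250], [nat_lit 11, nat_lit 40, nat_lit 20, nat_lit 80, nat_lit 1, nat_lit 289, nat_lit 75, nat_lit 9]⟩, ⟨p009_k28, nat_lit 0, nat_lit 0, nat_lit 221, nat_lit 0, nat_lit 0, [nat_lit 793750000, nat_lit 1011936000, nat_lit 1249934000], [], [nat_lit 2513203631, nat_lit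 2529951022, nat_lit 2302035498, nat_lit 2324050736], nat_lit 0, nat_lit 0, nat_lit 0, nat_lit 0, nat_lit 0, nat_lit 0, [], [nat_lit 25, nat_lit 40, nat_lit 20, nat_lit 80, nat_lit 17, nat_lit 289, nat_lit 75, nat_lit 9]⟩,
 ⟨nat_lit 6304, nat_lit 6325, ⟨.ofNat (nat_lit 170408), .ofNat (nat_lit 211541), .ofNat (nat_lit 172545), .ofNat (nat_lit 213677), .ofNat (nat_lit 171259), .ofNat (nat_lit 212296), .ofNat (nat_lit 173396), .ofNat (nat_lit 214433)⟩, ⟨.ofNat (nat_lit 0), .ofNat (nat_lit 0), .ofNat (nat_lit 0), .ofNat (nat_lit 0), .ofNat (nat_lit 0), .ofNat (nat_lit 0), .ofNat (nat_lit 0), .ofNat (nat_lit 0)⟩⟩, []⟩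
noncomputable def p009_l111 : Lf2 := ⟨nat_lit 0, nat_lit 5, [nat_lit 4, nat_lit 5, nat_lit 5, nat_lit 20], false, nat_lit 0, nat_lit 0, nat_lit 0, nat_lit 0, ⟨nat_lit 117, nat_lit 0, nat_lit 883, nat_lit 5, nat_lit 77, nat_lit 0, nat_lit 0, nat_lit 0, nat_lit 0, nat_lit 215, nat_lit 56067, nat_lit 273, nat_lit 64588003, nat_lit 0, nat_lit 0, nat_lit 775065, false, false⟩,
 nat_lit 0, nat_lit 8723, nat_lit 0, nat_lit 0, nat_lit 4640, nat_lit 1119, nat_lit 0, nat_lit 0, nat_lit 0, nat_lit 394, nat_lit 0, nat_lit 0, nat_lit 0, nat_lit 0, nat_lit 76, nat_lit 779800, nat_lit 0, nat_lit 0, [(nat_lit 6, [(nat_lit 5, nat_lit 172), (nat_lit 6, nat_lit 711)])],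
 ⟨p009_k20, nat_lit 0, nat_lit 0, nat_lit 315, nat_lit 0, nat_lit 128977, [nat_lit 2703017600, nat_lit 2337816401, nat_lit 111417999], [], [nat_lit 15408578434, nat_lit 15398053951, nat_lit 15716324994, nat_lit 15599034146], nat_lit 1271250, nat_lit 1271250, nat_lit 111251, nat_lit 230001, nat_lit 0, nat_lit 0, [nat_lit 1100000, nat_lit 1442500, nat_lit 1271250], [nat_lit 11, nat_lit 40, nat_lit 20, nat_lit 80, nat_lit 1, nat_lit 289, nat_lit 75, nat_lit 9]⟩, ⟨p009_k28, nat_lit 0, nat_lit 0, nat_lit 221, nat_lit 0, nat_lit 0, [nat_lit 731250000, nat_lit 932256000, nat_lit 1151514000], [], [nat_lit 2303972605, nat_lit 2323217316, nat_lit 2111882816, nat_lit 2132254680], nat_lit 0, nat_lit 0, nat_lit 0, nat_lit 0, nat_lit 0, nat_lit 0, [], [nat_lit 25, nat_lit 40, nat_lit 20, nat_lit 80, nat_lit 17, nat_lit 289, nat_lit 75, nat_lit 9]⟩,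
 ⟨nat_lit 6284, nat_lit 6305, ⟨.ofNat (nat_lit 171259), .ofNat (nat_lit 212296), .ofNat (nat_lit 173396), .ofNat (nat_lit 214433), .ofNat (nat_lit 172108), .ofNat (nat_lit 213051), .ofNat (nat_lit 174245), .ofNat (nat_lit 215187)⟩, ⟨.ofNat (nat_lit 0), .ofNat (nat_lit 0), .ofNat (nat_lit 0), .ofNat (nat_lit 0), .ofNat (nat_lit 0), .ofNat (nat_lit 0), .ofNat (nat_lit 0), .ofNat (nat_lit 0)⟩⟩, []⟩
noncomputable def p009_l112 : Lf2 := ⟨nat_lit 0, nat_lit 5, [nat_lit 4, nat_lit 5, nat_lit 5, nat_lit 20], true, nat_lit 0, nat_lit 0, nat_lit 0, nat_lit 0, ⟨nat_lit 0, nat_lit 0, nat_lit 1000, nat_lit 5, nat_lit 78, nat_lit 0, nat_lit 0, nat_lit 0, nat_lit 0, nat_lit 215, nat_lit 56067, nat_lit 273, nat_lit 64568693, nat_lit 0, nat_lit 0, nat_lit 779797, false, false⟩,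
 nat_lit 0, nat_lit 7800, nat_lit 0, nat_lit 0, nat_lit 4169, nat_lit 0, nat_lit 0, nat_lit 0, nat_lit 0, nat_lit 0, nat_lit 0, nat_lit 0, nat_lit 0, nat_lit 0, nat_lit 103, nat_lit 663400, nat_lit 0, nat_lit 0, [(nat_lit 6, [(nat_lit 5, nat_lit 561), (nat_lit 6, nat_lit 439)])],
 ⟨p009_k22, nat_lit 0, nat_lit 0, nat_lit 317, nat_lit 0, nat_lit 132650, [nat_lit 2872205867, nat_lit 2149833601, nat_lit 14641599], [], [nat_lit 14321008402, nat_lit 14293839473, nat_lit 14646508062, nat_lit 14541123246], nat_lit 1271250, nat_lit 1271250, nat_lit 111251, nat_lit 230001, nat_lit 0, nat_lit 0, [nat_lit 1100000, nat_lit 1442500, nat_lit 1271250], [nat_lit 11, nat_lit 40, nat_lit 20, nat_lit 80, nat_lit 1, nat_lit 289, nat_lit 75, nat_lit 9]⟩, C1.Rw.none,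
 ⟨nat_lit 6264, nat_lit 6285, ⟨.ofNat (nat_lit 172108), .ofNat (nat_lit 213051), .ofNat (nat_lit 174245), .ofNat (nat_lit 215187), .ofNat (nat_lit 172956), .ofNat (nat_lit 213804), .ofNat (nat_lit 175092), .ofNat (nat_lit 215940)⟩, ⟨.ofNat (nat_lit 0), .ofNat (nat_lit 0), .ofNat (nat_lit 0), .ofNat (nat_lit 0), .ofNat (nat_lit 0), .ofNat (nat_lit 0), .ofNat (nat_lit 0), .ofNat (nat_lit 0)⟩⟩, []⟩
noncomputable def p009_l113 : Lf2 := ⟨nat_lit 0, nat_lit 5, [nat_lit 4, nat_lit 5, nat_lit 5, nat_lit 20], true, nat_lit 0, nat_lit 0, nat_lit 0, nat_lit 0, ⟨nat_lit 0, nat_lit 0, nat_lit 1000, nat_lit 5, nat_lit 77, nat_lit 0, nat_lit 0, nat_lit 0, nat_lit 0, nat_lit 215, nat_lit 56067, nat_lit 273, nat_lit 64578441, nat_lit 0, nat_lit 0, nat_lit 777409, false, false⟩,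
 nat_lit 0, nat_lit 7682, nat_lit 0, nat_lit 0, nat_lit 4126, nat_lit 0, nat_lit 0, nat_lit 0, nat_lit 0, nat_lit 0, nat_lit 0, nat_lit 0, nat_lit 0, nat_lit 0, nat_lit 109, nat_lit 702400, nat_lit 0, nat_lit 0, [(nat_lit 6, [(nat_lit 5, nat_lit 496), (nat_lit 6, nat_lit 504)])],
 ⟨p009_k23, nat_lit 0, nat_lit 0, nat_lit 320, nat_lit 0, nat_lit 140616, [nat_lit 2939571200, nat_lit 2271289601, nat_lit 58777599], [], [nat_lit 14258633463, nat_lit 14274674359, nat_lit 14586442539, nat_lit 14377846832], nat_lit 1271250, nat_lit 1271250, nat_lit 111251, nat_lit 230001, nat_lit 0, nat_lit 0, [nat_lit 1100000, nat_lit 1442500, nat_lit 1271250], [nat_lit 11, nat_lit 40, nat_lit 20, nat_lit 80, nat_lit 1, nat_lit 289, nat_lit 75, nat_lit 9]⟩, C1.Rw.none,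
 ⟨nat_lit 6224, nat_lit 6265, ⟨.ofNat (nat_lit 169752), .ofNat (nat_lit 210599), .ofNat (nat_lit 175092), .ofNat (nat_lit 215940), .ofNat (nat_lit 171443), .ofNat (nat_lit 212102), .ofNat (nat_lit 176782), .ofNat (nat_lit 217441)⟩, ⟨.ofNat (nat_lit 0), .ofNat (nat_lit 0), .ofNat (nat_lit 0), .ofNat (nat_lit 0), .ofNat (nat_lit 0), .ofNat (nat_lit 0), .ofNat (nat_lit 0), .ofNat (nat_lit 0)⟩⟩, []⟩
noncomputable def p009_l114 : Lf2 := ⟨nat_lit 0, nat_lit 5, [nat_lit 4, nat_lit 5, nat_lit 5, nat_lit 20], true, nat_lit 0, nat_lit 0, nat_lit 0, nat_lit 0, ⟨nat_lit 0, nat_lit 0, nat_lit 1000, nat_lit 5, nat_lit 77, nat_lit 0, nat_lit 0, nat_lit 0, nat_lit 0, nat_lit 215, nat_lit 56067, nat_lit 273, nat_lit 64607361, nat_lit 0, nat_lit 0, nat_lit 770309, false, false⟩,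
 nat_lit 0, nat_lit 7611, nat_lit 0, nat_lit 0, nat_lit 4029, nat_lit 0, nat_lit 351, nat_lit 0, nat_lit 0, nat_lit 0, nat_lit 0, nat_lit 0, nat_lit 0, nat_lit 0, nat_lit 147, nat_lit 1000000, nat_lit 0, nat_lit 0, [(nat_lit 6, [(nat_lit 6, nat_lit 1000)])],
 ⟨p009_k8, nat_lit 0, nat_lit 0, nat_lit 307, nat_lit 0, nat_lit 102816, [nat_lit 3329066667, nat_lit 3042400001, nat_lit 177599999], [], [nat_lit 11909001629, nat_lit 12138385666, nat_lit 11494511989, nat_lit 11721053187], nat_lit 1271250, nat_lit 1271250, nat_lit 111251, nat_lit 230001, nat_lit 0, nat_lit 0, [nat_lit 1100000, nat_lit 1442500, nat_lit 1271250], [nat_lit 11, nat_lit 40, nat_lit 20, nat_lit 80, nat_lit 1, nat_lit 289, nat_lit 75, nat_lit 9]⟩, C1.Rw.none,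
 ⟨nat_lit 6224, nat_lit 6325, ⟨.ofNat (nat_lit 167203), .ofNat (nat_lit 208335), .ofNat (nat_lit 172545), .ofNat (nat_lit 213677), .ofNat (nat_lit 171443), .ofNat (nat_lit 212102), .ofNat (nat_lit 176782), .ofNat (nat_lit 217441)⟩, ⟨.ofNat (nat_lit 0), .ofNat (nat_lit 0), .ofNat (nat_lit 0), .ofNat (nat_lit 0), .ofNat (nat_lit 0), .ofNat (nat_lit 0), .ofNat (nat_lit 0), .ofNat (nat_lit 0)⟩⟩, []⟩
noncomputable def p009_l115 : Lf2 := ⟨nat_lit 0, nat_lit 5, [nat_lit 4, nat_lit 5, nat_lit 5, nat_lit 20], true, nat_lit 0, nat_lit 0, nat_lit 0, nat_lit 0, ⟨nat_lit 0, nat_lit 0, nat_lit 1000, nat_lit 5, nat_lit 78, nat_lit 0, nat_lit 0, nat_lit 0, nat_lit 0, nat_lit 215, nat_lit 58017, nat_lit 274, nat_lit 64536972, nat_lit 0, nat_lit 0, nat_lit 787544, false, false⟩,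
 nat_lit 0, nat_lit 7458, nat_lit 0, nat_lit 0, nat_lit 4045, nat_lit 0, nat_lit 0, nat_lit 0, nat_lit 0, nat_lit 0, nat_lit 0, nat_lit 0, nat_lit 0, nat_lit 0, nat_lit 121, nat_lit 800200, nat_lit 0, nat_lit 0, [(nat_lit 6, [(nat_lit 5, nat_lit 333), (nat_lit 6, nat_lit 667)])],
 ⟨p009_k38, nat_lit 0, nat_lit 0, nat_lit 342, nat_lit 0, nat_lit 197449, [nat_lit 3059764267, nat_lit 2514940801, nat_lit 84164799], [], [nat_lit 14119057184, nat_lit 14240269792, nat_lit 14451260594, nat_lit 13940008999], nat_lit 1271250, nat_lit 1271250, nat_lit 111251, nat_lit 230001, nat_lit 0, nat_lit 0, [nat_lit 1100000, nat_lit 1442500, nat_lit 1271250], [nat_lit 11, nat_lit 40, nat_lit 20, nat_lit 80, nat_lit 1, nat_lit 289, nat_lit 75, nat_lit 9]⟩, C1.Rw.none,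
 ⟨nat_lit 6123, nat_lit 6225, ⟨.ofNat (nat_lit 171443), .ofNat (nat_lit 212102), .ofNat (nat_lit 174647), .ofNat (nat_lit 215305), .ofNat (nat_lit 175645), .ofNat (nat_lit 215835), .ofNat (nat_lit 178847), .ofNat (nat_lit 219037)⟩, ⟨.ofNat (nat_lit 0), .ofNat (nat_lit 0), .ofNat (nat_lit 0), .ofNat (nat_lit 0), .ofNat (nat_lit 0), .ofNat (nat_lit 0), .ofNat (nat_lit 0), .ofNat (nat_lit 0)⟩⟩, []⟩
noncomputable def p009_l116 : Lf2 := ⟨nat_lit 0, nat_lit 5, [nat_lit 4, nat_lit 5, nat_lit 5, nat_lit 20], false, nat_lit 0, nat_lit 0, nat_lit 0, nat_lit 0, ⟨nat_lit 193, nat_lit 0, nat_lit 807, nat_lit 5, nat_lit 79, nat_lit 0, nat_lit 0, nat_lit 0, nat_lit 0, nat_lit 215, nat_lit 58017, nat_lit 274, nat_lit 64471769, nat_lit 0, nat_lit 0, nat_lit 803370, false, false⟩,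
 nat_lit 0, nat_lit 8973, nat_lit 0, nat_lit 0, nat_lit 4867, nat_lit 1843, nat_lit 465, nat_lit 0, nat_lit 0, nat_lit 649, nat_lit 0, nat_lit 0, nat_lit 0, nat_lit 0, nat_lit 35, nat_lit 687000, nat_lit 0, nat_lit 0, [(nat_lit 6, [(nat_lit 5, nat_lit 200), (nat_lit 6, nat_lit 607)])],
 ⟨p009_k38, nat_lit 0, nat_lit 0, nat_lit 345, nat_lit 0, nat_lit 205449, [nat_lit 2341383467, nat_lit 1984406801, nat_lit 52229199], [], [nat_lit 15596105088, nat_lit 15647983063, nat_lit 15899290254, nat_lit 15284145257], nat_lit 1271250, nat_lit 1271250, nat_lit 111251, nat_lit 230001, nat_lit 0, nat_lit 0, [nat_lit 1100000, nat_lit 1442500, nat_lit 1271250], [nat_lit 11, nat_lit 40, nat_lit 20, nat_lit 80, nat_lit 1, nat_lit 289, nat_lit 75, nat_lit 9]⟩, ⟨p009_k28, nat_lit 0, nat_lit 0, nat_lit 221, nat_lit 0, nat_lit 0, [nat_lit 1206250000, nat_lit 1537824000, nat_lit 1899506000], [], [nat_lit 3804794627,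 nat_lit 3833315830, nat_lit 3486911212, nat_lit 3520483576], nat_lit 0, nat_lit 0, nat_lit 0, nat_lit 0, nat_lit 0, nat_lit 0, [], [nat_lit 25, nat_lit 40, nat_lit 20, nat_lit 80, nat_lit 17, nat_lit 289, nat_lit 75, nat_lit 9]⟩,
 ⟨nat_lit 6123, nat_lit 6225, ⟨.ofNat (nat_lit 174647), .ofNat (nat_lit 215305), .ofNat (nat_lit 176782), .ofNat (nat_lit 217441), .ofNat (nat_lit 178847), .ofNat (nat_lit 219037), .ofNat (nat_lit 180982), .ofNat (nat_lit 221172)⟩, ⟨.ofNat (nat_lit 0), .ofNat (nat_lit 0), .ofNat (nat_lit 0), .ofNat (nat_lit 0), .ofNat (nat_lit 0), .ofNat (nat_lit 0), .ofNat (nat_lit 0), .ofNat (nat_lit 0)⟩⟩, []⟩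
noncomputable def p009_l117 : Lf2 := ⟨nat_lit 0, nat_lit 5, [nat_lit 4, nat_lit 5, nat_lit 5, nat_lit 20], true, nat_lit 0, nat_lit 0, nat_lit 0, nat_lit 0, ⟨nat_lit 0, nat_lit 0, nat_lit 1000, nat_lit 5, nat_lit 75, nat_lit 0, nat_lit 0, nat_lit 0, nat_lit 0, nat_lit 215, nat_lit 52267, nat_lit 271, nat_lit 64749905, nat_lit 0, nat_lit 0, nat_lit 734911, false, false⟩,
 nat_lit 0, nat_lit 7519, nat_lit 0, nat_lit 0, nat_lit 3980, nat_lit 0, nat_lit 0, nat_lit 0, nat_lit 0, nat_lit 0, nat_lit 0, nat_lit 0, nat_lit 0, nat_lit 0, nat_lit 147, nat_lit 1000000, nat_lit 0, nat_lit 0, [(nat_lit 6, [(nat_lit 6, nat_lit 1000)])],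
 ⟨p009_k8, nat_lit 0, nat_lit 0, nat_lit 304, nat_lit 0, nat_lit 90866, [nat_lit 3329066667, nat_lit 3042400001, nat_lit 177599999], [], [nat_lit 13100390107, nat_lit 13557098367, nat_lit 12694777307, nat_lit 13145838207], nat_lit 1271250, nat_lit 1271250, nat_lit 111251, nat_lit 230001, nat_lit 0, nat_lit 0, [nat_lit 1100000, nat_lit 1442500, nat_lit 1271250], [nat_lit 11, nat_lit 40, nat_lit 20, nat_lit 80, nat_lit 1, nat_lit 289, nat_lit 75, nat_lit 9]⟩, C1.Rw.none,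
 ⟨nat_lit 6123, nat_lit 6325, ⟨.ofNat (nat_lit 151177), .ofNat (nat_lit 192309), .ofNat (nat_lit 172545), .ofNat (nat_lit 213677), .ofNat (nat_lit 159634), .ofNat (nat_lit 199824), .ofNat (nat_lit 180982), .ofNat (nat_lit 221172)⟩, ⟨.ofNat (nat_lit 0), .ofNat (nat_lit 0), .ofNat (nat_lit 0), .ofNat (nat_lit 0), .ofNat (nat_lit 0), .ofNat (nat_lit 0), .ofNat (nat_lit 0), .ofNat (nat_lit 0)⟩⟩, [⟨nat_lit 0, nat_lit 100, nat_lit 99, nat_lit 45, nat_lit 167239812⟩]⟩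
noncomputable def p009_l118 : Lf2 := ⟨nat_lit 0, nat_lit 5, [nat_lit 4, nat_lit 5, nat_lit 5, nat_lit 20], true, nat_lit 0, nat_lit 0, nat_lit 0, nat_lit 0, ⟨nat_lit 0, nat_lit 0, nat_lit 1000, nat_lit 5, nat_lit 78, nat_lit 0, nat_lit 0, nat_lit 0, nat_lit 0, nat_lit 215, nat_lit 56067, nat_lit 273, nat_lit 64562084, nat_lit 0, nat_lit 0, nat_lit 781413, false, false⟩,
 nat_lit 0, nat_lit 7453, nat_lit 0, nat_lit 0, nat_lit 4140, nat_lit 0, nat_lit 51, nat_lit 0, nat_lit 0, nat_lit 0, nat_lit 0, nat_lit 0, nat_lit 0, nat_lit 0, nat_lit 79, nat_lit 971800, nat_lit 0, nat_lit 0, [(nat_lit 6, [(nat_lit 5, nat_lit 47), (nat_lit 6, nat_lit 953)])],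
 ⟨p009_k12, nat_lit 0, nat_lit 0, nat_lit 299, nat_lit 0, nat_lit 254164, [nat_lit 2261771734, nat_lit 1398584400, nat_lit 226360400], [], [nat_lit 13217027794, nat_lit 13729287028, nat_lit 13045465494, nat_lit 13316821268], nat_lit 1271250, nat_lit 1271250, nat_lit 111251, nat_lit 230001, nat_lit 0, nat_lit 0, [nat_lit 1100000, nat_lit 1442500, nat_lit 1271250], [nat_lit 9, nat_lit 40, nat_lit 20, nat_lit 80, nat_lit 2, nat_lit 215, nat_lit 10, nat_lit 8]⟩, C1.Rw.none,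
 ⟨nat_lit 5916, nat_lit 6124, ⟨.ofNat (nat_lit 159634), .ofNat (nat_lit 199824), .ofNat (nat_lit 180982), .ofNat (nat_lit 221172), .ofNat (nat_lit 167937), .ofNat (nat_lit 207203), .ofNat (nat_lit 189276), .ofNat (nat_lit 228543)⟩, ⟨.ofNat (nat_lit 0), .ofNat (nat_lit 0), .ofNat (nat_lit 0), .ofNat (nat_lit 0), .ofNat (nat_lit 0), .ofNat (nat_lit 0), .ofNat (nat_lit 0), .ofNat (nat_lit 0)⟩⟩, [⟨nat_lit 0, nat_lit 100, nat_lit 97, nat_lit 49, nat_lit 179190357⟩]⟩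
noncomputable def b_NL_600_550_0_12 : St := ⟨false, nat_lit 1, nat_lit 0, nat_lit 1, nat_lit 20, nat_lit 240, nat_lit 260, nat_lit 220, nat_lit 240, nat_lit 20, nat_lit 40, nat_lit 0, nat_lit 0, nat_lit 0, nat_lit 0, nat_lit 0, nat_lit 0, nat_lit 20, nat_lit 40, nat_lit 0, nat_lit 0, nat_lit 0, nat_lit 0⟩
theorem d_NL_600_550_0_12 (h : EB TB.env) : Dead b_NL_600_550_0_12 := chkB_sound0 h (T :=
(.spl (nat_lit 0) (nat_lit 250)
(.spl (nat_lit 6) (nat_lit 32)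
(.spl (nat_lit 1) (nat_lit 230)
(.leaf p009_l92)
(.spl (nat_lit 1) (nat_lit 235)
(.spl (nat_lit 0) (nat_lit 245)
(.leaf p009_l93)
(.leaf p009_l94))
(.spl (nat_lit 0) (nat_lit 245)
(.spl (nat_lit 6) (nat_lit 24)
(.spl (nat_lit 0) (nat_lit 243)
(.spl (nat_lit 1) (nat_lit 238)
(.spl (nat_lit 0) (nat_lit 242)
(.leaf p009_l95)
(.leaf p009_l96))
(.spl (nat_lit 0) (nat_lit 242)
(.spl (nat_lit 2) (nat_lit 32)
(.spl (nat_lit 1) (nat_lit 239)
(.spl (nat_lit 0) (nat_lit 241)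
(.leaf p009_l97)
(.leaf p009_l98))
(.spl (nat_lit 0) (nat_lit 241)
(.spl (nat_lit 2) (nat_lit 24)
(.spl (nat_lit 8) (nat_lit 800)
(.leaf p009_l99)
(.leaf p009_l100))
(.leaf p009_l101))
(.spl (nat_lit 2) (nat_lit 24)
(.spl (nat_lit 8) (nat_lit 800)
(.leaf p009_l102)
(.leaf p009_l103))
(.leaf p009_l104))))
(.leaf p009_l105))
(.leaf p009_l106)))
(.spl (nat_lit 0) (nat_lit 244)
(.leaf p009_l107)
(.leaf p009_l108)))
(.spl (nat_lit 6) (nat_lit 28)
(.spl (nat_lit 0) (nat_lit 243)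
(.spl (nat_lit 1) (nat_lit 238)
(.leaf p009_l109)
(.spl (nat_lit 0) (nat_lit 242)
(.spl (nat_lit 0) (nat_lit 241)
(.leaf p009_l110)
(.leaf p009_l111))
(.leaf p009_l112)))
(.leaf p009_l113))
(.leaf p009_l114)))
(.spl (nat_lit 1) (nat_lit 238)
(.leaf p009_l115)
(.leaf p009_l116)))))
(.leaf p009_l117))
(.leaf p009_l118))) (by decide +kernel)
noncomputable def p009_l119 : Lf2 := ⟨nat_lit 0, nat_lit 5, [nat_lit 4, nat_lit 5, nat_lit 5, nat_lit 20], false, nat_lit 0, nat_lit 0, nat_lit 0, nat_lit 0, ⟨nat_lit 1000, nat_lit 0, nat_lit 0, nat_lit 0, nat_lit 0, nat_lit 0, nat_lit 0, nat_lit 0, nat_lit 0, nat_lit 0, nat_lit 0, nat_lit 0, nat_lit 0, nat_lit 0, nat_lit 0, nat_lit 0, false, false⟩,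
 nat_lit 0, nat_lit 15427, nat_lit 0, nat_lit 0, nat_lit 8167, nat_lit 9986, nat_lit 0, nat_lit 0, nat_lit 0, nat_lit 3521, nat_lit 0, nat_lit 0, nat_lit 0, nat_lit 0, nat_lit 0, nat_lit 0, nat_lit 0, nat_lit 0, [],
 ⟨p009_k8, nat_lit 0, nat_lit 0, nat_lit 445, nat_lit 0, nat_lit 393085, [nat_lit 4688000000, nat_lit 6250000000, nat_lit 9842000000], [], [nat_lit 30928418936, nat_lit 30673363058, nat_lit 32442984944, nat_lit 30492345996], nat_lit 1271250, nat_lit 1271250, nat_lit 230001, nat_lit 490000, nat_lit 0, nat_lit 0, [nat_lit 1100000, nat_lit 1442500, nat_lit 1271250], [nat_lit 11, nat_lit 40, nat_lit 20, nat_lit 80, nat_lit 1, nat_lit 317, nat_lit 100, nat_lit 10]⟩, ⟨p009_k44, nat_lit 0, nat_lit 0, nat_lit 192, nat_lit 0, nat_lit 0, [nat_lit 6250000000, nat_lit 7968000000, nat_lit 9842000000], [], [nat_lit 18486465278, nat_lit 19831368410, nat_lit 16425295378, nat_lit 17880174506], nat_lit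 0, nat_lit 0, nat_lit 0, nat_lit 0, nat_lit 0, nat_lit 0, [], [nat_lit 25, nat_lit 40, nat_lit 20, nat_lit 80, nat_lit 17, nat_lit 317, nat_lit 100, nat_lit 10]⟩,
 zbF0, []⟩
noncomputable def p009_l120 : Lf2 := ⟨nat_lit 0, nat_lit 5, [nat_lit 4, nat_lit 5, nat_lit 5, nat_lit 20], false, nat_lit 0, nat_lit 0, nat_lit 0, nat_lit 0, ⟨nat_lit 1000, nat_lit 0, nat_lit 0, nat_lit 0, nat_lit 0, nat_lit 0, nat_lit 0, nat_lit 0, nat_lit 0, nat_lit 0, nat_lit 0, nat_lit 0, nat_lit 0, nat_lit 0, nat_lit 0, nat_lit 0, false, false⟩,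
 nat_lit 0, nat_lit 21967, nat_lit 0, nat_lit 0, nat_lit 12203, nat_lit 10755, nat_lit 0, nat_lit 0, nat_lit 0, nat_lit 4142, nat_lit 0, nat_lit 0, nat_lit 0, nat_lit 0, nat_lit 0, nat_lit 0, nat_lit 0, nat_lit 0, [],
 ⟨p009_k12, nat_lit 0, nat_lit 0, nat_lit 372, nat_lit 0, nat_lit 416976, [nat_lit 4688000000, nat_lit 6250000000, nat_lit 7968000000], [], [nat_lit 25476520637, nat_lit 24462948222, nat_lit 19692986169, nat_lit 21118791570], nat_lit 1271250, nat_lit 1271250, nat_lit 230001, nat_lit 490000, nat_lit 0, nat_lit 0, [nat_lit 1100000, nat_lit 1442500, nat_lit 1271250], [nat_lit 9, nat_lit 40, nat_lit 20, nat_lit 80, nat_lit 2, nat_lit 226, nat_lit 20, nat_lit 8]⟩, ⟨p009_k44, nat_lit 0, nat_lit 0, nat_lit 192, nat_lit 0, nat_lit 0, [nat_lit 6250000000, nat_lit 7968000000, nat_lit 9842000000], [], [nat_lit 16985968820, nat_lit 18633707300, nat_lit 14887998160, nat_lit 16471911980], nat_lit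 0, nat_lit 0, nat_lit 0, nat_lit 0, nat_lit 0, nat_lit 0, [], [nat_lit 25, nat_lit 40, nat_lit 20, nat_lit 80, nat_lit 17, nat_lit 317, nat_lit 100, nat_lit 10]⟩,
 zbF0, []⟩
noncomputable def p009_l121 : Lf2 := ⟨nat_lit 0, nat_lit 5, [nat_lit 4, nat_lit 5, nat_lit 5, nat_lit 20], false, nat_lit 0, nat_lit 0, nat_lit 0, nat_lit 0, ⟨nat_lit 1000, nat_lit 0, nat_lit 0, nat_lit 0, nat_lit 0, nat_lit 0, nat_lit 0, nat_lit 0, nat_lit 0, nat_lit 0, nat_lit 0, nat_lit 0, nat_lit 0, nat_lit 0, nat_lit 0, nat_lit 0, false, false⟩,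
 nat_lit 0, nat_lit 18727, nat_lit 0, nat_lit 0, nat_lit 9914, nat_lit 9986, nat_lit 2690, nat_lit 0, nat_lit 0, nat_lit 722, nat_lit 0, nat_lit 0, nat_lit 0, nat_lit 0, nat_lit 0, nat_lit 0, nat_lit 0, nat_lit 0, [],
 ⟨p009_k8, nat_lit 0, nat_lit 0, nat_lit 332, nat_lit 0, nat_lit 218136, [nat_lit 4688000000, nat_lit 6250000000, nat_lit 9842000000], [], [nat_lit 21585538144, nat_lit 20876474768, nat_lit 22911731496, nat_lit 20441727794], nat_lit 1271250, nat_lit 1271250, nat_lit 230001, nat_lit 490000, nat_lit 0, nat_lit 0, [nat_lit 1100000, nat_lit 1442500, nat_lit 1271250], [nat_lit 11, nat_lit 40, nat_lit 20, nat_lit 80, nat_lit 1, nat_lit 317, nat_lit 100, nat_lit 10]⟩, ⟨p009_k44, nat_lit 0, nat_lit 0, nat_lit 192, nat_lit 0, nat_lit 0, [nat_lit 6250000000, nat_lit 7968000000, nat_lit 9842000000], [], [nat_lit 25291534028, nat_lit 26635652948, nat_lit 23230364128, nat_lit 24524973996],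 nat_lit 0, nat_lit 0, nat_lit 0, nat_lit 0, nat_lit 0, nat_lit 0, [], [nat_lit 25, nat_lit 40, nat_lit 20, nat_lit 80, nat_lit 17, nat_lit 317, nat_lit 100, nat_lit 10]⟩,
 zbF0, []⟩
noncomputable def p009_l122 : Lf2 := ⟨nat_lit 0, nat_lit 5, [nat_lit 4, nat_lit 5, nat_lit 5, nat_lit 20], true, nat_lit 0, nat_lit 0, nat_lit 0, nat_lit 0, ⟨nat_lit 0, nat_lit 0, nat_lit 1000, nat_lit 5, nat_lit 102, nat_lit 0, nat_lit 0, nat_lit 0, nat_lit 0, nat_lit 215, nat_lit 96267, nat_lit 291, nat_lit 62941981, nat_lit 0, nat_lit 0, nat_lit 1142623, false, false⟩,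
 nat_lit 0, nat_lit 8117, nat_lit 0, nat_lit 0, nat_lit 4509, nat_lit 0, nat_lit 173, nat_lit 0, nat_lit 0, nat_lit 0, nat_lit 0, nat_lit 0, nat_lit 0, nat_lit 0, nat_lit 65, nat_lit 759400, nat_lit 0, nat_lit 0, [(nat_lit 6, [(nat_lit 5, nat_lit 401), (nat_lit 6, nat_lit 599)])],
 ⟨p009_k12, nat_lit 0, nat_lit 0, nat_lit 278, nat_lit 0, nat_lit 254164, [nat_lit 2193720534, nat_lit 1198305200, nat_lit 185313200], [], [nat_lit 12585273160, nat_lit 13032560058, nat_lit 13771843223, nat_lit 12702152294], nat_lit 1271250, nat_lit 1271250, nat_lit 230001, nat_lit 490000, nat_lit 0, nat_lit 0, [nat_lit 1100000, nat_lit 1442500, nat_lit 1271250], [nat_lit 9, nat_lit 40, nat_lit 20, nat_lit 80, nat_lit 2, nat_lit 226, nat_lit 20, nat_lit 8]⟩, C1.Rw.none,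
 ⟨nat_lit 5916, nat_lit 6124, ⟨.ofNat (nat_lit 199824), .ofNat (nat_lit 280205), .ofNat (nat_lit 221172), .ofNat (nat_lit 301553), .ofNat (nat_lit 207203), .ofNat (nat_lit 285737), .ofNat (nat_lit 228543), .ofNat (nat_lit 307076)⟩, ⟨.ofNat (nat_lit 0), .ofNat (nat_lit 0), .ofNat (nat_lit 0), .ofNat (nat_lit 0), .ofNat (nat_lit 0), .ofNat (nat_lit 0), .ofNat (nat_lit 0), .ofNat (nat_lit 0)⟩⟩, []⟩
noncomputable def b_NL_600_550_0_13 : St := ⟨false, nat_lit 1, nat_lit 0, nat_lit 1, nat_lit 20, nat_lit 240, nat_lit 260, nat_lit 220, nat_lit 240, nat_lit 40, nat_lit 80, nat_lit 0, nat_lit 0, nat_lit 0, nat_lit 0, nat_lit 0, nat_lit 0, nat_lit 0, nat_lit 40, nat_lit 0, nat_lit 0, nat_lit 0, nat_lit 0⟩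
theorem d_NL_600_550_0_13 (h : EB TB.env) : Dead b_NL_600_550_0_13 := chkB_sound0 h (T :=
(.spl (nat_lit 6) (nat_lit 20)
(.spl (nat_lit 0) (nat_lit 250)
(.leaf p009_l119)
(.leaf p009_l120))
(.spl (nat_lit 0) (nat_lit 250)
(.leaf p009_l121)
(.leaf p009_l122)))) (by decide +kernel)
noncomputable def p009_l123 : Lf2 := ⟨nat_lit 0, nat_lit 1, [nat_lit 19, nat_lit 5, nat_lit 5, nat_lit 20], true, nat_lit 0, nat_lit 0, nat_lit 0, nat_lit 0, ⟨nat_lit 0, nat_lit 0, nat_lit 1000, nat_lit 5, nat_lit 67, nat_lit 0, nat_lit 0, nat_lit 0, nat_lit 0, nat_lit 215, nat_lit 41667, nat_lit 265, nat_lit 65185925, nat_lit 0, nat_lit 0, nat_lit 622097, false, false⟩,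
 nat_lit 0, nat_lit 7514, nat_lit 0, nat_lit 0, nat_lit 3977, nat_lit 0, nat_lit 647, nat_lit 0, nat_lit 0, nat_lit 0, nat_lit 0, nat_lit 0, nat_lit 0, nat_lit 0, nat_lit 10, nat_lit 1000000, nat_lit 0, nat_lit 0, [(nat_lit 6, [(nat_lit 6, nat_lit 1000)])],
 ⟨p009_k45, nat_lit 0, nat_lit 0, nat_lit 0, nat_lit 0, nat_lit 308814, [nat_lit 1137066667, nat_lit 504400001, nat_lit 8000000], [], [nat_lit 12763905840, nat_lit 13054974326, nat_lit 12644294993, nat_lit 12248869599], nat_lit 1271250, nat_lit 1271250, nat_lit 43600, nat_lit 230001, nat_lit 0, nat_lit 0, [nat_lit 1100000, nat_lit 1271250, nat_lit 1271250], [nat_lit 124, nat_lit 40, nat_lit 20, nat_lit 40]⟩, C1.Rw.none,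
 ⟨nat_lit 6224, nat_lit 6325, ⟨.ofNat (nat_lit 126498), .ofNat (nat_lit 192309), .ofNat (nat_lit 137182), .ofNat (nat_lit 202993), .ofNat (nat_lit 131030), .ofNat (nat_lit 196084), .ofNat (nat_lit 141709), .ofNat (nat_lit 206763)⟩, ⟨.ofNat (nat_lit 0), .ofNat (nat_lit 0), .ofNat (nat_lit 0), .ofNat (nat_lit 0), .ofNat (nat_lit 0), .ofNat (nat_lit 0), .ofNat (nat_lit 0), .ofNat (nat_lit 0)⟩⟩, [⟨nat_lit 0, nat_lit 100, nat_lit 99, nat_lit 37, nat_lit 133144748⟩]⟩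
noncomputable def p009_l124 : Lf2 := ⟨nat_lit 2, nat_lit 1, [nat_lit 19, nat_lit 5, nat_lit 5, nat_lit 20], true, nat_lit 0, nat_lit 0, nat_lit 0, nat_lit 0, zbN0,
 nat_lit 0, nat_lit 0, nat_lit 0, nat_lit 0, nat_lit 0, nat_lit 0, nat_lit 0, nat_lit 0, nat_lit 0, nat_lit 0, nat_lit 0, nat_lit 0, nat_lit 0, nat_lit 0, nat_lit 0, nat_lit 0, nat_lit 0, nat_lit 0, [],
 ⟨p009_k45, nat_lit 0, nat_lit 0, nat_lit 0, nat_lit 0, nat_lit 308814, [], [], [], nat_lit 1271250, nat_lit 1271250, nat_lit 43600, nat_lit 230001, nat_lit 0, nat_lit 0, [nat_lit 1100000, nat_lit 1271250, nat_lit 1271250], [nat_lit 124, nat_lit 40, nat_lit 20, nat_lit 40]⟩, C1.Rw.none,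
 zbF0, []⟩
noncomputable def p009_l125 : Lf2 := ⟨nat_lit 2, nat_lit 1, [nat_lit 19, nat_lit 5, nat_lit 5, nat_lit 20], true, nat_lit 0, nat_lit 0, nat_lit 0, nat_lit 0, zbN0,
 nat_lit 0, nat_lit 0, nat_lit 0, nat_lit 0, nat_lit 0, nat_lit 0, nat_lit 0, nat_lit 0, nat_lit 0, nat_lit 0, nat_lit 0, nat_lit 0, nat_lit 0, nat_lit 0, nat_lit 0, nat_lit 0, nat_lit 0, nat_lit 0, [],
 ⟨p009_k46, nat_lit 0, nat_lit 0, nat_lit 289, nat_lit 0, nat_lit 308814, [], [], [], nat_lit 1271250, nat_lit 1271250, nat_lit 43600, nat_lit 230001, nat_lit 0, nat_lit 0, [nat_lit 1100000, nat_lit 1442500], [nat_lit 31, nat_lit 40, nat_lit 20, nat_lit 80, nat_lit 3, nat_lit 215, nat_lit 10, nat_lit 9]⟩, C1.Rw.none,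
 zbF0, []⟩
noncomputable def p009_l126 : Lf2 := ⟨nat_lit 0, nat_lit 2, [nat_lit 10, nat_lit 5, nat_lit 5, nat_lit 20], true, nat_lit 0, nat_lit 0, nat_lit 0, nat_lit 0, ⟨nat_lit 0, nat_lit 0, nat_lit 1000, nat_lit 5, nat_lit 59, nat_lit 0, nat_lit 0, nat_lit 0, nat_lit 0, nat_lit 215, nat_lit 32267, nat_lit 259, nat_lit 65594624, nat_lit 0, nat_lit 0, nat_lit 509015, false, false⟩,
 nat_lit 0, nat_lit 4488, nat_lit 0, nat_lit 0, nat_lit 2376, nat_lit 0, nat_lit 0, nat_lit 0, nat_lit 95, nat_lit 0, nat_lit 0, nat_lit 0, nat_lit 0, nat_lit 0, nat_lit 80, nat_lit 1000000, nat_lit 0, nat_lit 0, [(nat_lit 6, [(nat_lit 6, nat_lit 1000)])],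
 ⟨p009_k47, nat_lit 0, nat_lit 0, nat_lit 0, nat_lit 0, nat_lit 269278, [nat_lit 2257066667, nat_lit 1408000000, nat_lit 211200000], [], [nat_lit 10018950904, nat_lit 10390447619, nat_lit 9732876011, nat_lit 10031533334], nat_lit 1271250, nat_lit 1271250, nat_lit 43600, nat_lit 111251, nat_lit 0, nat_lit 0, [nat_lit 1100000, nat_lit 1442500, nat_lit 1271250], [nat_lit 9, nat_lit 40, nat_lit 20, nat_lit 80]⟩, C1.Rw.none,
 ⟨nat_lit 6224, nat_lit 6325, ⟨.ofNat (nat_lit 126498), .ofNat (nat_lit 151177), .ofNat (nat_lit 137182), .ofNat (nat_lit 161861), .ofNat (nat_lit 131030), .ofNat (nat_lit 155426), .ofNat (nat_lit 141709), .ofNat (nat_lit 166104)⟩, ⟨.ofNat (nat_lit 0), .ofNat (nat_lit 0), .ofNat (nat_lit 0), .ofNat (nat_lit 0), .ofNat (nat_lit 0), .ofNat (nat_lit 0), .ofNat (nat_lit 0), .ofNat (nat_lit 0)⟩⟩, [⟨nat_lit 0, nat_lit 100, nat_lit 98, nat_lit 34, nat_lit 230154304⟩]⟩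
noncomputable def p009_l127 : Lf2 := ⟨nat_lit 0, nat_lit 2, [nat_lit 10, nat_lit 5, nat_lit 5, nat_lit 20], true, nat_lit 0, nat_lit 0, nat_lit 0, nat_lit 0, ⟨nat_lit 0, nat_lit 0, nat_lit 1000, nat_lit 5, nat_lit 59, nat_lit 0, nat_lit 0, nat_lit 0, nat_lit 0, nat_lit 215, nat_lit 32267, nat_lit 259, nat_lit 65594624, nat_lit 0, nat_lit 0, nat_lit 509015, false, false⟩,
 nat_lit 0, nat_lit 5297, nat_lit 0, nat_lit 0, nat_lit 2804, nat_lit 0, nat_lit 0, nat_lit 0, nat_lit 105, nat_lit 0, nat_lit 0, nat_lit 0, nat_lit 0, nat_lit 0, nat_lit 80, nat_lit 1000000, nat_lit 0, nat_lit 0, [(nat_lit 6, [(nat_lit 6, nat_lit 1000)])],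
 ⟨p009_k47, nat_lit 0, nat_lit 0, nat_lit 0, nat_lit 0, nat_lit 269278, [nat_lit 2257066667, nat_lit 1408000000, nat_lit 211200000], [], [nat_lit 9781584005, nat_lit 10094621859, nat_lit 9944720779, nat_lit 9728534239], nat_lit 1271250, nat_lit 1271250, nat_lit 43600, nat_lit 111251, nat_lit 0, nat_lit 0, [nat_lit 1100000, nat_lit 1442500, nat_lit 1271250], [nat_lit 9, nat_lit 40, nat_lit 20, nat_lit 80]⟩, C1.Rw.none,
 ⟨nat_lit 6224, nat_lit 6325, ⟨.ofNat (nat_lit 126498), .ofNat (nat_lit 151177), .ofNat (nat_lit 137182), .ofNat (nat_lit 161861), .ofNat (nat_lit 131030), .ofNat (nat_lit 155426), .ofNat (nat_lit 141709), .ofNat (nat_lit 166104)⟩, ⟨.ofNat (nat_lit 0), .ofNat (nat_lit 0), .ofNat (nat_lit 0), .ofNat (nat_lit 0), .ofNat (nat_lit 0), .ofNat (nat_lit 0), .ofNat (nat_lit 0), .ofNat (nat_lit 0)⟩⟩, [⟨nat_lit 0, nat_lit 100, nat_lit 99, nat_lit 37, nat_lit 38286855⟩]⟩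
noncomputable def p009_l128 : Lf2 := ⟨nat_lit 0, nat_lit 2, [nat_lit 10, nat_lit 5, nat_lit 5, nat_lit 20], true, nat_lit 0, nat_lit 0, nat_lit 0, nat_lit 0, ⟨nat_lit 0, nat_lit 0, nat_lit 1000, nat_lit 5, nat_lit 59, nat_lit 0, nat_lit 0, nat_lit 0, nat_lit 0, nat_lit 215, nat_lit 32267, nat_lit 259, nat_lit 65594624, nat_lit 0, nat_lit 0, nat_lit 509015, false, false⟩,
 nat_lit 0, nat_lit 10090, nat_lit 0, nat_lit 0, nat_lit 5341, nat_lit 0, nat_lit 465, nat_lit 0, nat_lit 0, nat_lit 0, nat_lit 0, nat_lit 0, nat_lit 0, nat_lit 0, nat_lit 80, nat_lit 1000000, nat_lit 0, nat_lit 0, [(nat_lit 6, [(nat_lit 6, nat_lit 1000)])],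
 ⟨p009_k47, nat_lit 0, nat_lit 0, nat_lit 0, nat_lit 0, nat_lit 269278, [nat_lit 2257066667, nat_lit 1408000000, nat_lit 211200000], [], [nat_lit 11851655418, nat_lit 11965328708, nat_lit 11917558115, nat_lit 11237536654], nat_lit 1271250, nat_lit 1271250, nat_lit 43600, nat_lit 111251, nat_lit 0, nat_lit 0, [nat_lit 1100000, nat_lit 1442500, nat_lit 1271250], [nat_lit 9, nat_lit 40, nat_lit 20, nat_lit 80]⟩, C1.Rw.none,
 ⟨nat_lit 6224, nat_lit 6325, ⟨.ofNat (nat_lit 126498), .ofNat (nat_lit 151177), .ofNat (nat_lit 137182), .ofNat (nat_lit 161861), .ofNat (nat_lit 131030), .ofNat (nat_lit 155426), .ofNat (nat_lit 141709), .ofNat (nat_lit 166104)⟩, ⟨.ofNat (nat_lit 0), .ofNat (nat_lit 0), .ofNat (nat_lit 0), .ofNat (nat_lit 0), .ofNat (nat_lit 0), .ofNat (nat_lit 0), .ofNat (nat_lit 0), .ofNat (nat_lit 0)⟩⟩, [⟨nat_lit 0, nat_lit 100, nat_lit 99, nat_lit 37, nat_lit 79223037⟩]⟩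
noncomputable def p009_l129 : Lf2 := ⟨nat_lit 2, nat_lit 2, [nat_lit 10, nat_lit 5, nat_lit 5, nat_lit 20], true, nat_lit 0, nat_lit 0, nat_lit 0, nat_lit 0, zbN0,
 nat_lit 0, nat_lit 0, nat_lit 0, nat_lit 0, nat_lit 0, nat_lit 0, nat_lit 0, nat_lit 0, nat_lit 0, nat_lit 0, nat_lit 0, nat_lit 0, nat_lit 0, nat_lit 0, nat_lit 0, nat_lit 0, nat_lit 0, nat_lit 0, [],
 ⟨p009_k48, nat_lit 0, nat_lit 0, nat_lit 0, nat_lit 0, nat_lit 269278, [], [], [], nat_lit 1271250, nat_lit 1271250, nat_lit 43600, nat_lit 111251, nat_lit 0, nat_lit 0, [nat_lit 490000, nat_lit 1100000, nat_lit 1442500, nat_lit 1271250], [nat_lit 98, nat_lit 40, nat_lit 20, nat_lit 80]⟩, C1.Rw.none,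
 zbF0, []⟩
noncomputable def p009_l130 : Lf2 := ⟨nat_lit 0, nat_lit 2, [nat_lit 10, nat_lit 5, nat_lit 5, nat_lit 20], true, nat_lit 0, nat_lit 0, nat_lit 0, nat_lit 0, ⟨nat_lit 0, nat_lit 0, nat_lit 1000, nat_lit 5, nat_lit 59, nat_lit 0, nat_lit 0, nat_lit 0, nat_lit 0, nat_lit 215, nat_lit 32267, nat_lit 259, nat_lit 65594624, nat_lit 0, nat_lit 0, nat_lit 509015, false, false⟩,
 nat_lit 0, nat_lit 100000, nat_lit 0, nat_lit 0, nat_lit 52941, nat_lit 0, nat_lit 0, nat_lit 2810, nat_lit 0, nat_lit 0, nat_lit 0, nat_lit 0, nat_lit 0, nat_lit 0, nat_lit 0, nat_lit 1000000, nat_lit 0, nat_lit 0, [(nat_lit 6, [(nat_lit 6, nat_lit 1000)])],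
 ⟨p009_k47, nat_lit 0, nat_lit 0, nat_lit 314, nat_lit 0, nat_lit 269278, [nat_lit 45937066667, nat_lit 56008000001, nat_lit 65731199999], [], [nat_lit 136598449460, nat_lit 129827978499, nat_lit 120243365153, nat_lit 118768271935], nat_lit 1271250, nat_lit 1271250, nat_lit 43600, nat_lit 111251, nat_lit 0, nat_lit 0, [nat_lit 1100000, nat_lit 1442500, nat_lit 1271250], [nat_lit 9, nat_lit 40, nat_lit 20, nat_lit 80, nat_lit 2, nat_lit 215, nat_lit 10, nat_lit 8]⟩, C1.Rw.none,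
 ⟨nat_lit 6224, nat_lit 6325, ⟨.ofNat (nat_lit 126498), .ofNat (nat_lit 151177), .ofNat (nat_lit 137182), .ofNat (nat_lit 161861), .ofNat (nat_lit 131030), .ofNat (nat_lit 155426), .ofNat (nat_lit 141709), .ofNat (nat_lit 166104)⟩, ⟨.ofNat (nat_lit 0), .ofNat (nat_lit 0), .ofNat (nat_lit 0), .ofNat (nat_lit 0), .ofNat (nat_lit 0), .ofNat (nat_lit 0), .ofNat (nat_lit 0), .ofNat (nat_lit 0)⟩⟩, [⟨nat_lit 0, nat_lit 100, nat_lit 98, nat_lit 34, nat_lit 7061751294⟩]⟩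
noncomputable def p009_l131 : Lf2 := ⟨nat_lit 0, nat_lit 2, [nat_lit 10, nat_lit 5, nat_lit 5, nat_lit 20], true, nat_lit 0, nat_lit 0, nat_lit 0, nat_lit 0, ⟨nat_lit 0, nat_lit 0, nat_lit 1000, nat_lit 5, nat_lit 72, nat_lit 0, nat_lit 0, nat_lit 0, nat_lit 0, nat_lit 215, nat_lit 48600, nat_lit 269, nat_lit 64917883, nat_lit 0, nat_lit 0, nat_lit 692297, false, false⟩,
 nat_lit 0, nat_lit 8923, nat_lit 0, nat_lit 0, nat_lit 4723, nat_lit 0, nat_lit 0, nat_lit 0, nat_lit 0, nat_lit 0, nat_lit 0, nat_lit 0, nat_lit 0, nat_lit 0, nat_lit 80, nat_lit 1000000, nat_lit 0, nat_lit 0, [(nat_lit 6, [(nat_lit 6, nat_lit 1000)])],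
 ⟨p009_k47, nat_lit 0, nat_lit 0, nat_lit 298, nat_lit 0, nat_lit 269278, [nat_lit 2257066667, nat_lit 1408000000, nat_lit 211200000], [], [nat_lit 12869322611, nat_lit 13001168417, nat_lit 13173198875, nat_lit 12576254182], nat_lit 1271250, nat_lit 1271250, nat_lit 111251, nat_lit 230001, nat_lit 0, nat_lit 0, [nat_lit 1100000, nat_lit 1442500, nat_lit 1271250], [nat_lit 9, nat_lit 40, nat_lit 20, nat_lit 80, nat_lit 2, nat_lit 215, nat_lit 10, nat_lit 8]⟩, C1.Rw.none,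
 ⟨nat_lit 6224, nat_lit 6325, ⟨.ofNat (nat_lit 151177), .ofNat (nat_lit 192309), .ofNat (nat_lit 161861), .ofNat (nat_lit 202993), .ofNat (nat_lit 155426), .ofNat (nat_lit 196084), .ofNat (nat_lit 166104), .ofNat (nat_lit 206763)⟩, ⟨.ofNat (nat_lit 0), .ofNat (nat_lit 0), .ofNat (nat_lit 0), .ofNat (nat_lit 0), .ofNat (nat_lit 0), .ofNat (nat_lit 0), .ofNat (nat_lit 0), .ofNat (nat_lit 0)⟩⟩, []⟩
noncomputable def p009_l132 : Lf2 := ⟨nat_lit 0, nat_lit 1, [nat_lit 19, nat_lit 5, nat_lit 5, nat_lit 20], true, nat_lit 0, nat_lit 0, nat_lit 0, nat_lit 0, ⟨nat_lit 0, nat_lit 0, nat_lit 1000, nat_lit 5, nat_lit 67, nat_lit 0, nat_lit 0, nat_lit 0, nat_lit 0, nat_lit 215, nat_lit 41667, nat_lit 265, nat_lit 65154860, nat_lit 0, nat_lit 0, nat_lit 630381, false, false⟩,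
 nat_lit 0, nat_lit 7326, nat_lit 0, nat_lit 0, nat_lit 3973, nat_lit 0, nat_lit 669, nat_lit 0, nat_lit 0, nat_lit 0, nat_lit 0, nat_lit 0, nat_lit 0, nat_lit 0, nat_lit 10, nat_lit 1000000, nat_lit 0, nat_lit 0, [(nat_lit 6, [(nat_lit 6, nat_lit 1000)])],
 ⟨p009_k49, nat_lit 0, nat_lit 0, nat_lit 287, nat_lit 0, nat_lit 305834, [nat_lit 1137066667, nat_lit 8000000], [], [nat_lit 13269101661, nat_lit 13544523249, nat_lit 13581494182, nat_lit 13079342739], nat_lit 1271250, nat_lit 1271250, nat_lit 43600, nat_lit 230001, nat_lit 0, nat_lit 0, [nat_lit 1100000, nat_lit 1442500], [nat_lit 31, nat_lit 40, nat_lit 20, nat_lit 80, nat_lit 3, nat_lit 215, nat_lit 10, nat_lit 9]⟩, C1.Rw.none,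
 ⟨nat_lit 6123, nat_lit 6225, ⟨.ofNat (nat_lit 131030), .ofNat (nat_lit 196084), .ofNat (nat_lit 136369), .ofNat (nat_lit 201424), .ofNat (nat_lit 135519), .ofNat (nat_lit 199824), .ofNat (nat_lit 140856), .ofNat (nat_lit 205161)⟩, ⟨.ofNat (nat_lit 0), .ofNat (nat_lit 0), .ofNat (nat_lit 0), .ofNat (nat_lit 0), .ofNat (nat_lit 0), .ofNat (nat_lit 0), .ofNat (nat_lit 0), .ofNat (nat_lit 0)⟩⟩, [⟨nat_lit 0, nat_lit 100, nat_lit 98, nat_lit 37, nat_lit 67246257⟩]⟩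
noncomputable def p009_l133 : Lf2 := ⟨nat_lit 0, nat_lit 1, [nat_lit 19, nat_lit 5, nat_lit 5, nat_lit 20], true, nat_lit 0, nat_lit 0, nat_lit 0, nat_lit 0, ⟨nat_lit 0, nat_lit 0, nat_lit 1000, nat_lit 5, nat_lit 70, nat_lit 0, nat_lit 0, nat_lit 0, nat_lit 0, nat_lit 215, nat_lit 46817, nat_lit 268, nat_lit 64991712, nat_lit 0, nat_lit 0, nat_lit 673242, false, false⟩,
 nat_lit 0, nat_lit 7484, nat_lit 0, nat_lit 0, nat_lit 4059, nat_lit 0, nat_lit 706, nat_lit 0, nat_lit 0, nat_lit 0, nat_lit 0, nat_lit 0, nat_lit 0, nat_lit 0, nat_lit 10, nat_lit 1000000, nat_lit 0, nat_lit 0, [(nat_lit 6, [(nat_lit 6, nat_lit 1000)])],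
 ⟨p009_k49, nat_lit 0, nat_lit 0, nat_lit 285, nat_lit 0, nat_lit 307130, [nat_lit 1137066667, nat_lit 8000000], [], [nat_lit 13004021140, nat_lit 13125563291, nat_lit 13420031162, nat_lit 13112218521], nat_lit 1271250, nat_lit 1271250, nat_lit 65850, nat_lit 230001, nat_lit 0, nat_lit 0, [nat_lit 1100000, nat_lit 1442500], [nat_lit 31, nat_lit 40, nat_lit 20, nat_lit 80, nat_lit 3, nat_lit 215, nat_lit 10, nat_lit 9]⟩, C1.Rw.none,
 ⟨nat_lit 6164, nat_lit 6225, ⟨.ofNat (nat_lit 144501), .ofNat (nat_lit 201424), .ofNat (nat_lit 147705), .ofNat (nat_lit 204627), .ofNat (nat_lit 147142), .ofNat (nat_lit 203670), .ofNat (nat_lit 150345), .ofNat (nat_lit 206873)⟩, ⟨.ofNat (nat_lit 0), .ofNat (nat_lit 0), .ofNat (nat_lit 0), .ofNat (nat_lit 0), .ofNat (nat_lit 0), .ofNat (nat_lit 0), .ofNat (nat_lit 0), .ofNat (nat_lit 0)⟩⟩, [⟨nat_lit 0, nat_lit 100, nat_lit 98, nat_lit 38, nat_lit 33370697⟩]⟩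
noncomputable def p009_l134 : Lf2 := ⟨nat_lit 0, nat_lit 1, [nat_lit 19, nat_lit 5, nat_lit 5, nat_lit 20], true, nat_lit 0, nat_lit 0, nat_lit 0, nat_lit 0, ⟨nat_lit 0, nat_lit 0, nat_lit 1000, nat_lit 5, nat_lit 71, nat_lit 0, nat_lit 0, nat_lit 0, nat_lit 0, nat_lit 215, nat_lit 46817, nat_lit 268, nat_lit 64950390, nat_lit 0, nat_lit 0, nat_lit 683933, false, false⟩,
 nat_lit 0, nat_lit 7549, nat_lit 0, nat_lit 0, nat_lit 4094, nat_lit 0, nat_lit 721, nat_lit 0, nat_lit 0, nat_lit 0, nat_lit 0, nat_lit 0, nat_lit 0, nat_lit 0, nat_lit 10, nat_lit 1000000, nat_lit 0, nat_lit 0, [(nat_lit 6, [(nat_lit 6, nat_lit 1000)])],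
 ⟨p009_k49, nat_lit 0, nat_lit 0, nat_lit 285, nat_lit 0, nat_lit 305405, [nat_lit 1137066667, nat_lit 8000000], [], [nat_lit 12940407662, nat_lit 12978517979, nat_lit 13354343087, nat_lit 13250854137], nat_lit 1271250, nat_lit 1271250, nat_lit 65850, nat_lit 230001, nat_lit 0, nat_lit 0, [nat_lit 1100000, nat_lit 1442500], [nat_lit 31, nat_lit 40, nat_lit 20, nat_lit 80, nat_lit 3, nat_lit 215, nat_lit 10, nat_lit 9]⟩, C1.Rw.none,
 ⟨nat_lit 6204, nat_lit 6225, ⟨.ofNat (nat_lit 147705), .ofNat (nat_lit 204627), .ofNat (nat_lit 149840), .ofNat (nat_lit 206763), .ofNat (nat_lit 148586), .ofNat (nat_lit 205377), .ofNat (nat_lit 150722), .ofNat (nat_lit 207513)⟩, ⟨.ofNat (nat_lit 0), .ofNat (nat_lit 0), .ofNat (nat_lit 0), .ofNat (nat_lit 0), .ofNat (nat_lit 0), .ofNat (nat_lit 0), .ofNat (nat_lit 0), .ofNat (nat_lit 0)⟩⟩, [⟨nat_lit 0, nat_lit 100, nat_lit 98, nat_lit 37, nat_lit 34053788⟩]⟩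
noncomputable def p009_l135 : Lf2 := ⟨nat_lit 0, nat_lit 1, [nat_lit 19, nat_lit 5, nat_lit 5, nat_lit 20], true, nat_lit 0, nat_lit 0, nat_lit 0, nat_lit 0, ⟨nat_lit 0, nat_lit 0, nat_lit 1000, nat_lit 5, nat_lit 71, nat_lit 0, nat_lit 0, nat_lit 0, nat_lit 0, nat_lit 215, nat_lit 48600, nat_lit 269, nat_lit 64932122, nat_lit 0, nat_lit 0, nat_lit 688638, false, false⟩,
 nat_lit 0, nat_lit 7444, nat_lit 0, nat_lit 0, nat_lit 4057, nat_lit 0, nat_lit 696, nat_lit 0, nat_lit 0, nat_lit 0, nat_lit 0, nat_lit 0, nat_lit 0, nat_lit 0, nat_lit 10, nat_lit 1000000, nat_lit 0, nat_lit 0, [(nat_lit 6, [(nat_lit 6, nat_lit 1000)])],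
 ⟨p009_k50, nat_lit 0, nat_lit 0, nat_lit 284, nat_lit 0, nat_lit 308004, [nat_lit 1137066667, nat_lit 8000000], [], [nat_lit 12965333185, nat_lit 13020839029, nat_lit 13268395395, nat_lit 13165841738], nat_lit 1271250, nat_lit 1271250, nat_lit 65850, nat_lit 230001, nat_lit 0, nat_lit 0, [nat_lit 1100000, nat_lit 1442500], [nat_lit 31, nat_lit 40, nat_lit 20, nat_lit 80, nat_lit 3, nat_lit 215, nat_lit 10, nat_lit 9]⟩, C1.Rw.none,
 ⟨nat_lit 6184, nat_lit 6205, ⟨.ofNat (nat_lit 148586), .ofNat (nat_lit 205377), .ofNat (nat_lit 150722), .ofNat (nat_lit 207513), .ofNat (nat_lit 149466), .ofNat (nat_lit 206126), .ofNat (nat_lit 151602), .ofNat (nat_lit 208261)⟩, ⟨.ofNat (nat_lit 0), .ofNat (nat_lit 0), .ofNat (nat_lit 0), .ofNat (nat_lit 0), .ofNat (nat_lit 0), .ofNat (nat_lit 0), .ofNat (nat_lit 0), .ofNat (nat_lit 0)⟩⟩, [⟨nat_lit 0, nat_lit 100, nat_lit 98, nat_lit 38, nat_lit 56487764⟩]⟩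
noncomputable def p009_l136 : Lf2 := ⟨nat_lit 0, nat_lit 1, [nat_lit 19, nat_lit 5, nat_lit 5, nat_lit 20], true, nat_lit 0, nat_lit 0, nat_lit 0, nat_lit 0, ⟨nat_lit 0, nat_lit 0, nat_lit 1000, nat_lit 5, nat_lit 72, nat_lit 0, nat_lit 0, nat_lit 0, nat_lit 0, nat_lit 215, nat_lit 48600, nat_lit 269, nat_lit 64913814, nat_lit 0, nat_lit 0, nat_lit 693342, false, false⟩,
 nat_lit 0, nat_lit 7338, nat_lit 0, nat_lit 0, nat_lit 4018, nat_lit 0, nat_lit 743, nat_lit 0, nat_lit 0, nat_lit 0, nat_lit 0, nat_lit 0, nat_lit 0, nat_lit 0, nat_lit 10, nat_lit 1000000, nat_lit 0, nat_lit 0, [(nat_lit 6, [(nat_lit 6, nat_lit 1000)])],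
 ⟨p009_k51, nat_lit 0, nat_lit 0, nat_lit 284, nat_lit 0, nat_lit 310575, [nat_lit 1137066667, nat_lit 8000000], [], [nat_lit 13006179728, nat_lit 13061583180, nat_lit 13155581042, nat_lit 13054013235], nat_lit 1271250, nat_lit 1271250, nat_lit 65850, nat_lit 230001, nat_lit 0, nat_lit 0, [nat_lit 1100000, nat_lit 1442500], [nat_lit 31, nat_lit 40, nat_lit 20, nat_lit 80, nat_lit 3, nat_lit 215, nat_lit 10, nat_lit 9]⟩, C1.Rw.none,
 ⟨nat_lit 6164, nat_lit 6185, ⟨.ofNat (nat_lit 149466), .ofNat (nat_lit 206126), .ofNat (nat_lit 151602), .ofNat (nat_lit 208261), .ofNat (nat_lit 150345), .ofNat (nat_lit 206873), .ofNat (nat_lit 152480), .ofNat (nat_lit 209008)⟩, ⟨.ofNat (nat_lit 0), .ofNat (nat_lit 0), .ofNat (nat_lit 0), .ofNat (nat_lit 0), .ofNat (nat_lit 0), .ofNat (nat_lit 0), .ofNat (nat_lit 0), .ofNat (nat_lit 0)⟩⟩, [⟨nat_lit 0, nat_lit 100, nat_lit 98, nat_lit 39, nat_lit 83790112⟩]⟩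
noncomputable def p009_l137 : Lf2 := ⟨nat_lit 0, nat_lit 1, [nat_lit 19, nat_lit 5, nat_lit 5, nat_lit 20], true, nat_lit 0, nat_lit 0, nat_lit 0, nat_lit 0, ⟨nat_lit 0, nat_lit 0, nat_lit 1000, nat_lit 5, nat_lit 72, nat_lit 0, nat_lit 0, nat_lit 0, nat_lit 0, nat_lit 215, nat_lit 48600, nat_lit 269, nat_lit 64922479, nat_lit 0, nat_lit 0, nat_lit 691117, false, false⟩,
 nat_lit 0, nat_lit 7256, nat_lit 0, nat_lit 0, nat_lit 3992, nat_lit 0, nat_lit 646, nat_lit 0, nat_lit 0, nat_lit 0, nat_lit 0, nat_lit 0, nat_lit 0, nat_lit 0, nat_lit 10, nat_lit 1000000, nat_lit 0, nat_lit 0, [(nat_lit 6, [(nat_lit 6, nat_lit 1000)])],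
 ⟨p009_k52, nat_lit 0, nat_lit 0, nat_lit 284, nat_lit 0, nat_lit 317163, [nat_lit 1137066667, nat_lit 8000000], [], [nat_lit 13100845267, nat_lit 13219524401, nat_lit 13090217504, nat_lit 12888396355], nat_lit 1271250, nat_lit 1271250, nat_lit 65850, nat_lit 230001, nat_lit 0, nat_lit 0, [nat_lit 1100000, nat_lit 1442500], [nat_lit 31, nat_lit 40, nat_lit 20, nat_lit 80, nat_lit 3, nat_lit 215, nat_lit 10, nat_lit 9]⟩, C1.Rw.none,
 ⟨nat_lit 6123, nat_lit 6165, ⟨.ofNat (nat_lit 147142), .ofNat (nat_lit 203670), .ofNat (nat_lit 152480), .ofNat (nat_lit 209008), .ofNat (nat_lit 148894), .ofNat (nat_lit 205161), .ofNat (nat_lit 154231), .ofNat (nat_lit 210498)⟩, ⟨.ofNat (nat_lit 0), .ofNat (nat_lit 0), .ofNat (nat_lit 0), .ofNat (nat_lit 0), .ofNat (nat_lit 0), .ofNat (nat_lit 0), .ofNat (nat_lit 0), .ofNat (nat_lit 0)⟩⟩, [⟨nat_lit 0, nat_lit 100, nat_lit 98, nat_lit 40, nat_lit 114380435⟩]⟩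
noncomputable def p009_l138 : Lf2 := ⟨nat_lit 0, nat_lit 2, [nat_lit 10, nat_lit 5, nat_lit 5, nat_lit 20], true, nat_lit 0, nat_lit 0, nat_lit 0, nat_lit 0, ⟨nat_lit 0, nat_lit 0, nat_lit 1000, nat_lit 5, nat_lit 68, nat_lit 0, nat_lit 0, nat_lit 0, nat_lit 0, nat_lit 215, nat_lit 43350, nat_lit 266, nat_lit 65097540, nat_lit 0, nat_lit 0, nat_lit 645561, false, false⟩,
 nat_lit 0, nat_lit 7475, nat_lit 0, nat_lit 0, nat_lit 4054, nat_lit 0, nat_lit 126, nat_lit 0, nat_lit 0, nat_lit 0, nat_lit 0, nat_lit 0, nat_lit 0, nat_lit 0, nat_lit 44, nat_lit 1000000, nat_lit 0, nat_lit 0, [(nat_lit 6, [(nat_lit 6, nat_lit 1000)])],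
 ⟨p009_k53, nat_lit 0, nat_lit 0, nat_lit 0, nat_lit 0, nat_lit 283684, [nat_lit 1681066667, nat_lit 1358400000, nat_lit 17600000], [], [nat_lit 13403594997, nat_lit 13683290661, nat_lit 12552604168, nat_lit 12846425963], nat_lit 1271250, nat_lit 1271250, nat_lit 43600, nat_lit 230001, nat_lit 0, nat_lit 0, [nat_lit 1100000, nat_lit 1271250, nat_lit 1271250], [nat_lit 105, nat_lit 40, nat_lit 20, nat_lit 40]⟩, C1.Rw.none,
 ⟨nat_lit 6123, nat_lit 6225, ⟨.ofNat (nat_lit 131030), .ofNat (nat_lit 196084), .ofNat (nat_lit 141709), .ofNat (nat_lit 206763), .ofNat (nat_lit 135519), .ofNat (nat_lit 199824), .ofNat (nat_lit 146193), .ofNat (nat_lit 210498)⟩, ⟨.ofNat (nat_lit 0), .ofNat (nat_lit 0), .ofNat (nat_lit 0), .ofNat (nat_lit 0), .ofNat (nat_lit 0), .ofNat (nat_lit 0), .ofNat (nat_lit 0), .ofNat (nat_lit 0)⟩⟩, [⟨nat_lit 0, nat_lit 100, nat_lit 98, nat_lit 40, nat_lit 239030156⟩]⟩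
noncomputable def p009_l139 : Lf2 := ⟨nat_lit 0, nat_lit 2, [nat_lit 10, nat_lit 5, nat_lit 5, nat_lit 20], true, nat_lit 0, nat_lit 0, nat_lit 0, nat_lit 0, ⟨nat_lit 0, nat_lit 0, nat_lit 1000, nat_lit 5, nat_lit 68, nat_lit 0, nat_lit 0, nat_lit 0, nat_lit 0, nat_lit 215, nat_lit 43350, nat_lit 266, nat_lit 65097540, nat_lit 0, nat_lit 0, nat_lit 645561, false, false⟩,
 nat_lit 0, nat_lit 100000, nat_lit 0, nat_lit 0, nat_lit 54243, nat_lit 0, nat_lit 19532, nat_lit 2542, nat_lit 0, nat_lit 0, nat_lit 0, nat_lit 0, nat_lit 0, nat_lit 0, nat_lit 0, nat_lit 1000000, nat_lit 0, nat_lit 0, [(nat_lit 6, [(nat_lit 6, nat_lit 1000)])],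
 ⟨p009_k0, nat_lit 0, nat_lit 0, nat_lit 322, nat_lit 0, nat_lit 283684, [nat_lit 41649066667, nat_lit 50648000001, nat_lit 59299199999], [], [nat_lit 105701542923, nat_lit 98764562958, nat_lit 62675922784, nat_lit 61129382566], nat_lit 1271250, nat_lit 1271250, nat_lit 43600, nat_lit 230001, nat_lit 0, nat_lit 0, [nat_lit 1100000, nat_lit 1442500, nat_lit 1271250], [nat_lit 9, nat_lit 40, nat_lit 20, nat_lit 80, nat_lit 2, nat_lit 215, nat_lit 10, nat_lit 8]⟩, C1.Rw.none,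
 ⟨nat_lit 6123, nat_lit 6225, ⟨.ofNat (nat_lit 131030), .ofNat (nat_lit 196084), .ofNat (nat_lit 141709), .ofNat (nat_lit 206763), .ofNat (nat_lit 135519), .ofNat (nat_lit 199824), .ofNat (nat_lit 146193), .ofNat (nat_lit 210498)⟩, ⟨.ofNat (nat_lit 0), .ofNat (nat_lit 0), .ofNat (nat_lit 0), .ofNat (nat_lit 0), .ofNat (nat_lit 0), .ofNat (nat_lit 0), .ofNat (nat_lit 0), .ofNat (nat_lit 0)⟩⟩, [⟨nat_lit 0, nat_lit 100, nat_lit 98, nat_lit 36, nat_lit 6968209953⟩]⟩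
noncomputable def b_NL_600_550_0_14 : St := ⟨false, nat_lit 1, nat_lit 1, nat_lit 1, nat_lit 20, nat_lit 240, nat_lit 250, nat_lit 220, nat_lit 230, nat_lit 8, nat_lit 40, nat_lit 0, nat_lit 0, nat_lit 0, nat_lit 0, nat_lit 0, nat_lit 0, nat_lit 0, nat_lit 8, nat_lit 0, nat_lit 0, nat_lit 0, nat_lit 800⟩
theorem d_NL_600_550_0_14 (h : EB TB.env) : Dead b_NL_600_550_0_14 := chkB_sound0 h (T :=
(.spl (nat_lit 0) (nat_lit 245)
(.spl (nat_lit 6) (nat_lit 4)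
(.spl (nat_lit 7) (nat_lit 600)
(.leaf p009_l123)
(.spl (nat_lit 7) (nat_lit 900)
(.leaf p009_l124)
(.leaf p009_l125)))
(.spl (nat_lit 2) (nat_lit 20)
(.spl (nat_lit 7) (nat_lit 600)
(.spl (nat_lit 7) (nat_lit 300)
(.leaf p009_l126)
(.spl (nat_lit 7) (nat_lit 460)
(.leaf p009_l127)
(.spl (nat_lit 7) (nat_lit 540)
(.leaf p009_l128)
(.leaf p009_l129))))
(.leaf p009_l130))
(.leaf p009_l131)))
(.spl (nat_lit 6) (nat_lit 4)
(.spl (nat_lit 1) (nat_lit 225)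
(.leaf p009_l132)
(.trZ (nat_lit 0) (nat_lit 100) (nat_lit 98) (nat_lit 35) (nat_lit 12) (.spl (nat_lit 0) (nat_lit 248)
(.spl (nat_lit 1) (nat_lit 228)
(.leaf p009_l133)
(.spl (nat_lit 0) (nat_lit 247)
(.spl (nat_lit 0) (nat_lit 246)
(.leaf p009_l134)
(.leaf p009_l135))
(.leaf p009_l136)))
(.leaf p009_l137))))
(.spl (nat_lit 7) (nat_lit 600)
(.leaf p009_l138)
(.leaf p009_l139))))) (by decide +kernel)
noncomputable def p009_l140 : Lf2 := ⟨nat_lit 0, nat_lit 1, [nat_lit 19, nat_lit 5, nat_lit 5, nat_lit 20], true, nat_lit 0, nat_lit 0, nat_lit 0, nat_lit 0, ⟨nat_lit 0, nat_lit 0, nat_lit 1000, nat_lit 5, nat_lit 63, nat_lit 0, nat_lit 0, nat_lit 0, nat_lit 0, nat_lit 215, nat_lit 38400, nat_lit 263, nat_lit 65358592, nat_lit 0, nat_lit 0, nat_lit 575288, false, false⟩,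
 nat_lit 0, nat_lit 7637, nat_lit 0, nat_lit 0, nat_lit 4043, nat_lit 0, nat_lit 671, nat_lit 0, nat_lit 0, nat_lit 0, nat_lit 0, nat_lit 0, nat_lit 0, nat_lit 0, nat_lit 10, nat_lit 1000000, nat_lit 0, nat_lit 0, [(nat_lit 6, [(nat_lit 6, nat_lit 1000)])],
 ⟨p009_k45, nat_lit 0, nat_lit 0, nat_lit 0, nat_lit 0, nat_lit 326385, [nat_lit 1137066667, nat_lit 504400001, nat_lit 8000000], [], [nat_lit 12487490870, nat_lit 12797786060, nat_lit 12220050285, nat_lit 12474702781], nat_lit 1271250, nat_lit 1271250, nat_lit 65850, nat_lit 111251, nat_lit 0, nat_lit 0, [nat_lit 1100000, nat_lit 1271250, nat_lit 1271250], [nat_lit 124, nat_lit 40, nat_lit 20, nat_lit 40]⟩, C1.Rw.none,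
 ⟨nat_lit 6224, nat_lit 6325, ⟨.ofNat (nat_lit 145408), .ofNat (nat_lit 161861), .ofNat (nat_lit 150750), .ofNat (nat_lit 167203), .ofNat (nat_lit 149840), .ofNat (nat_lit 166104), .ofNat (nat_lit 155180), .ofNat (nat_lit 171443)⟩, ⟨.ofNat (nat_lit 0), .ofNat (nat_lit 0), .ofNat (nat_lit 0), .ofNat (nat_lit 0), .ofNat (nat_lit 0), .ofNat (nat_lit 0), .ofNat (nat_lit 0), .ofNat (nat_lit 0)⟩⟩, [⟨nat_lit 0, nat_lit 100, nat_lit 99, nat_lit 37, nat_lit 278327188⟩]⟩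
noncomputable def p009_l141 : Lf2 := ⟨nat_lit 0, nat_lit 1, [nat_lit 19, nat_lit 5, nat_lit 5, nat_lit 20], false, nat_lit 0, nat_lit 0, nat_lit 0, nat_lit 0, ⟨nat_lit 1000, nat_lit 0, nat_lit 0, nat_lit 0, nat_lit 0, nat_lit 0, nat_lit 0, nat_lit 0, nat_lit 0, nat_lit 0, nat_lit 0, nat_lit 0, nat_lit 0, nat_lit 0, nat_lit 0, nat_lit 0, false, false⟩,
 nat_lit 0, nat_lit 8101, nat_lit 0, nat_lit 0, nat_lit 4288, nat_lit 0, nat_lit 0, nat_lit 0, nat_lit 0, nat_lit 1636, nat_lit 0, nat_lit 549, nat_lit 0, nat_lit 0, nat_lit 0, nat_lit 0, nat_lit 0, nat_lit 0, [],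
 ⟨p009_k46, nat_lit 0, nat_lit 0, nat_lit 289, nat_lit 0, nat_lit 326385, [nat_lit 4688000000, nat_lit 6250000000], [], [nat_lit 36282728308, nat_lit 36505276195, nat_lit 36000976000, nat_lit 36222804260], nat_lit 1271250, nat_lit 1271250, nat_lit 65850, nat_lit 111251, nat_lit 0, nat_lit 0, [nat_lit 1100000, nat_lit 1442500], [nat_lit 31, nat_lit 40, nat_lit 20, nat_lit 80, nat_lit 3, nat_lit 215, nat_lit 10, nat_lit 9]⟩, ⟨p009_k54, nat_lit 0, nat_lit 0, nat_lit 0, nat_lit 0, nat_lit 343317, [nat_lit 2637500000, nat_lit 5449500000, nat_lit 7089500000], [], [nat_lit 5822817200, nat_lit 6033487801, nat_lit 5906603500, nat_lit 6096483000], nat_lit 1271250, nat_lit 1271250, nat_lit 65850, nat_lit 111251, nat_lit 0, nat_lit 0, [nat_lit 631250, nat_lit 1271250, nat_lit 1271250], [nat_lit 90, nat_lit 40, nat_lit 20, nat_lit 40]⟩,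
 zbF0, [⟨nat_lit 0, nat_lit 100, nat_lit 99, nat_lit 35, nat_lit 954494055⟩]⟩
noncomputable def p009_l142 : Lf2 := ⟨nat_lit 2, nat_lit 1, [nat_lit 19, nat_lit 5, nat_lit 5, nat_lit 20], true, nat_lit 0, nat_lit 0, nat_lit 0, nat_lit 0, zbN0,
 nat_lit 0, nat_lit 0, nat_lit 0, nat_lit 0, nat_lit 0, nat_lit 0, nat_lit 0, nat_lit 0, nat_lit 0, nat_lit 0, nat_lit 0, nat_lit 0, nat_lit 0, nat_lit 0, nat_lit 0, nat_lit 0, nat_lit 0, nat_lit 0, [],
 ⟨p009_k45, nat_lit 0, nat_lit 0, nat_lit 0, nat_lit 0, nat_lit 326385, [], [], [], nat_lit 1271250, nat_lit 1271250, nat_lit 65850, nat_lit 111251, nat_lit 0, nat_lit 0, [nat_lit 1100000, nat_lit 1271250, nat_lit 1271250], [nat_lit 124, nat_lit 40, nat_lit 20, nat_lit 40]⟩, C1.Rw.none,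
 zbF0, []⟩
noncomputable def p009_l143 : Lf2 := ⟨nat_lit 2, nat_lit 1, [nat_lit 19, nat_lit 5, nat_lit 5, nat_lit 20], true, nat_lit 0, nat_lit 0, nat_lit 0, nat_lit 0, zbN0,
 nat_lit 0, nat_lit 0, nat_lit 0, nat_lit 0, nat_lit 0, nat_lit 0, nat_lit 0, nat_lit 0, nat_lit 0, nat_lit 0, nat_lit 0, nat_lit 0, nat_lit 0, nat_lit 0, nat_lit 0, nat_lit 0, nat_lit 0, nat_lit 0, [],
 ⟨p009_k46, nat_lit 0, nat_lit 0, nat_lit 289, nat_lit 0, nat_lit 326385, [], [], [], nat_lit 1271250, nat_lit 1271250, nat_lit 65850, nat_lit 111251, nat_lit 0, nat_lit 0, [nat_lit 1100000, nat_lit 1442500], [nat_lit 31, nat_lit 40, nat_lit 20, nat_lit 80, nat_lit 3, nat_lit 215, nat_lit 10, nat_lit 9]⟩, C1.Rw.none,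
 zbF0, []⟩
noncomputable def p009_l144 : Lf2 := ⟨nat_lit 0, nat_lit 1, [nat_lit 19, nat_lit 5, nat_lit 5, nat_lit 20], false, nat_lit 0, nat_lit 0, nat_lit 0, nat_lit 0, ⟨nat_lit 0, nat_lit 0, nat_lit 1000, nat_lit 5, nat_lit 63, nat_lit 0, nat_lit 0, nat_lit 0, nat_lit 0, nat_lit 215, nat_lit 38400, nat_lit 263, nat_lit 65358592, nat_lit 0, nat_lit 0, nat_lit 575288, false, false⟩,
 nat_lit 100000, nat_lit 0, nat_lit 32331, nat_lit 0, nat_lit 52941, nat_lit 66648, nat_lit 0, nat_lit 5416, nat_lit 0, nat_lit 60000, nat_lit 5414, nat_lit 0, nat_lit 0, nat_lit 0, nat_lit 0, nat_lit 1000000, nat_lit 0, nat_lit 0, [(nat_lit 6, [(nat_lit 6, nat_lit 1000)])],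
 ⟨p009_k46, nat_lit 0, nat_lit 0, nat_lit 289, nat_lit 0, nat_lit 326385, [nat_lit 87633066667, nat_lit 108128000000], [], [nat_lit 311481963081, nat_lit 306401615868, nat_lit 300587872167, nat_lit 301759406987], nat_lit 1271250, nat_lit 1271250, nat_lit 65850, nat_lit 111251, nat_lit 0, nat_lit 0, [nat_lit 1100000, nat_lit 1442500], [nat_lit 31, nat_lit 40, nat_lit 20, nat_lit 80, nat_lit 3, nat_lit 215, nat_lit 10, nat_lit 9]⟩, ⟨p009_k54, nat_lit 0, nat_lit 0, nat_lit 0, nat_lit 0, nat_lit 343317, [nat_lit 54140000000, nat_lit 97452000000, nat_lit 119108000000], [], [nat_lit 138610131013, nat_lit 140497195820, nat_lit 130701069616, nat_lit 132411723832], nat_lit 1271250, nat_lit 1271250, nat_lit 65850, nat_lit 111251, nat_lit 0, nat_lit 0, [nat_lit 631250, nat_lit 1271250, nat_lit 1271250], [nat_lit 90, nat_lit 40, nat_lit 20, nat_lit 40]⟩,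
 ⟨nat_lit 6224, nat_lit 6325, ⟨.ofNat (nat_lit 145408), .ofNat (nat_lit 161861), .ofNat (nat_lit 150750), .ofNat (nat_lit 167203), .ofNat (nat_lit 149840), .ofNat (nat_lit 166104), .ofNat (nat_lit 155180), .ofNat (nat_lit 171443)⟩, ⟨.ofNat (nat_lit 0), .ofNat (nat_lit 0), .ofNat (nat_lit 0), .ofNat (nat_lit 0), .ofNat (nat_lit 0), .ofNat (nat_lit 0), .ofNat (nat_lit 0), .ofNat (nat_lit 0)⟩⟩, []⟩
noncomputable def p009_l145 : Lf2 := ⟨nat_lit 0, nat_lit 1, [nat_lit 19, nat_lit 5, nat_lit 5, nat_lit 20], false, nat_lit 0, nat_lit 0, nat_lit 0, nat_lit 0, ⟨nat_lit 1000, nat_lit 0, nat_lit 0, nat_lit 0, nat_lit 0, nat_lit 0, nat_lit 0, nat_lit 0, nat_lit 0, nat_lit 0, nat_lit 0, nat_lit 0, nat_lit 0, nat_lit 0, nat_lit 0, nat_lit 0, false, false⟩,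
 nat_lit 15552, nat_lit 0, nat_lit 0, nat_lit 0, nat_lit 8233, nat_lit 8032, nat_lit 0, nat_lit 0, nat_lit 0, nat_lit 7103, nat_lit 0, nat_lit 0, nat_lit 0, nat_lit 0, nat_lit 0, nat_lit 0, nat_lit 0, nat_lit 0, [],
 ⟨p009_k55, nat_lit 0, nat_lit 0, nat_lit 0, nat_lit 0, nat_lit 344792, [nat_lit 2032000001, nat_lit 4688000000, nat_lit 6250000000], [], [nat_lit 29909032281, nat_lit 28857691354, nat_lit 29883942880, nat_lit 28850907205], nat_lit 1271250, nat_lit 1271250, nat_lit 65850, nat_lit 111251, nat_lit 0, nat_lit 0, [nat_lit 490000, nat_lit 1100000, nat_lit 1442500], [nat_lit 6, nat_lit 40, nat_lit 20, nat_lit 40]⟩, ⟨p009_k56, nat_lit 0, nat_lit 0, nat_lit 0, nat_lit 0, nat_lit 353542, [nat_lit 2637500000, nat_lit 5449500000, nat_lit 7089500000], [], [nat_lit 17749278380, nat_lit 18268120231, nat_lit 16872256740, nat_lit 17306614560], nat_lit 1271250, nat_lit 1271250, nat_lit 65850, nat_lit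 111251, nat_lit 0, nat_lit 0, [nat_lit 631250, nat_lit 1271250, nat_lit 1271250], [nat_lit 90, nat_lit 40, nat_lit 20, nat_lit 40]⟩,
 zbF0, [⟨nat_lit 0, nat_lit 100, nat_lit 100, nat_lit 37, nat_lit 1378584769⟩]⟩
noncomputable def p009_l146 : Lf2 := ⟨nat_lit 0, nat_lit 1, [nat_lit 19, nat_lit 5, nat_lit 5, nat_lit 20], false, nat_lit 0, nat_lit 0, nat_lit 0, nat_lit 0, ⟨nat_lit 1000, nat_lit 0, nat_lit 0, nat_lit 0, nat_lit 0, nat_lit 0, nat_lit 0, nat_lit 0, nat_lit 0, nat_lit 0, nat_lit 0, nat_lit 0, nat_lit 0, nat_lit 0, nat_lit 0, nat_lit 0, false, false⟩,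
 nat_lit 0, nat_lit 8101, nat_lit 0, nat_lit 0, nat_lit 4288, nat_lit 0, nat_lit 0, nat_lit 0, nat_lit 0, nat_lit 1634, nat_lit 0, nat_lit 516, nat_lit 0, nat_lit 0, nat_lit 0, nat_lit 0, nat_lit 0, nat_lit 0, [],
 ⟨p009_k46, nat_lit 0, nat_lit 0, nat_lit 290, nat_lit 0, nat_lit 344792, [nat_lit 4688000000, nat_lit 6250000000], [], [nat_lit 36282728308, nat_lit 36505276195, nat_lit 36000976000, nat_lit 36222804260], nat_lit 1271250, nat_lit 1271250, nat_lit 65850, nat_lit 111251, nat_lit 0, nat_lit 0, [nat_lit 1100000, nat_lit 1442500], [nat_lit 31, nat_lit 40, nat_lit 20, nat_lit 80, nat_lit 3, nat_lit 215, nat_lit 10, nat_lit 9]⟩, ⟨p009_k56, nat_lit 0, nat_lit 0, nat_lit 0, nat_lit 0, nat_lit 353542, [nat_lit 2637500000, nat_lit 5449500000, nat_lit 7089500000], [], [nat_lit 6409951601, nat_lit 6602141600, nat_lit 6497556000, nat_lit 6690332000], nat_lit 1271250, nat_lit 1271250, nat_lit 65850,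 nat_lit 111251, nat_lit 0, nat_lit 0, [nat_lit 631250, nat_lit 1271250, nat_lit 1271250], [nat_lit 90, nat_lit 40, nat_lit 20, nat_lit 40]⟩,
 zbF0, [⟨nat_lit 0, nat_lit 100, nat_lit 100, nat_lit 37, nat_lit 935481987⟩]⟩
noncomputable def p009_l147 : Lf2 := ⟨nat_lit 0, nat_lit 1, [nat_lit 19, nat_lit 5, nat_lit 5, nat_lit 20], false, nat_lit 0, nat_lit 0, nat_lit 0, nat_lit 0, ⟨nat_lit 1000, nat_lit 0, nat_lit 0, nat_lit 0, nat_lit 0, nat_lit 0, nat_lit 0, nat_lit 0, nat_lit 0, nat_lit 0, nat_lit 0, nat_lit 0, nat_lit 0, nat_lit 0, nat_lit 0, nat_lit 0, false, false⟩,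
 nat_lit 100000, nat_lit 88889, nat_lit 0, nat_lit 0, nat_lit 100000, nat_lit 51648, nat_lit 0, nat_lit 0, nat_lit 0, nat_lit 44204, nat_lit 1771, nat_lit 0, nat_lit 0, nat_lit 0, nat_lit 0, nat_lit 0, nat_lit 100452234000, nat_lit 0, [],
 ⟨p009_k45, nat_lit 0, nat_lit 0, nat_lit 0, nat_lit 0, nat_lit 344792, [nat_lit 4688000000, nat_lit 5449500000, nat_lit 6250000000], [], [nat_lit 13349026000, nat_lit 1205996000, nat_lit 12108950000, nat_lit 0], nat_lit 1271250, nat_lit 1271250, nat_lit 65850, nat_lit 111251, nat_lit 0, nat_lit 0, [nat_lit 1100000, nat_lit 1271250, nat_lit 1271250], [nat_lit 124, nat_lit 40, nat_lit 20, nat_lit 40]⟩, ⟨p009_k57, nat_lit 0, nat_lit 0, nat_lit 0, nat_lit 0, nat_lit 353542, [nat_lit 37327500000, nat_lit 41670000000, nat_lit 46051500000], [], [nat_lit 50423384160, nat_lit 52664867821, nat_lit 49244011712, nat_lit 44928096992], nat_lit 1271250, nat_lit 1271250,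 nat_lit 65850, nat_lit 111251, nat_lit 0, nat_lit 0, [nat_lit 1271250, nat_lit 1271250, nat_lit 1271250], [nat_lit 188, nat_lit 40, nat_lit 20, nat_lit 40]⟩,
 zbF0, [⟨nat_lit 0, nat_lit 100, nat_lit 99, nat_lit 40, nat_lit 6481850164⟩]⟩
noncomputable def p009_l148 : Lf2 := ⟨nat_lit 2, nat_lit 1, [nat_lit 19, nat_lit 5, nat_lit 5, nat_lit 20], true, nat_lit 0, nat_lit 0, nat_lit 0, nat_lit 0, zbN0,
 nat_lit 0, nat_lit 0, nat_lit 0, nat_lit 0, nat_lit 0, nat_lit 0, nat_lit 0, nat_lit 0, nat_lit 0, nat_lit 0, nat_lit 0, nat_lit 0, nat_lit 0, nat_lit 0, nat_lit 0, nat_lit 0, nat_lit 0, nat_lit 0, [],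
 ⟨p009_k46, nat_lit 0, nat_lit 0, nat_lit 290, nat_lit 0, nat_lit 344792, [], [], [], nat_lit 1271250, nat_lit 1271250, nat_lit 65850, nat_lit 111251, nat_lit 0, nat_lit 0, [nat_lit 1100000, nat_lit 1442500], [nat_lit 31, nat_lit 40, nat_lit 20, nat_lit 80, nat_lit 3, nat_lit 215, nat_lit 10, nat_lit 9]⟩, C1.Rw.none,
 zbF0, []⟩
noncomputable def p009_l149 : Lf2 := ⟨nat_lit 0, nat_lit 1, [nat_lit 19, nat_lit 5, nat_lit 5, nat_lit 20], false, nat_lit 0, nat_lit 0, nat_lit 0, nat_lit 0, ⟨nat_lit 0, nat_lit 0, nat_lit 1000, nat_lit 5, nat_lit 66, nat_lit 0, nat_lit 0, nat_lit 0, nat_lit 0, nat_lit 215, nat_lit 40017, nat_lit 264, nat_lit 65249035, nat_lit 0, nat_lit 0, nat_lit 605141, false, false⟩,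
 nat_lit 100000, nat_lit 0, nat_lit 93617, nat_lit 0, nat_lit 52941, nat_lit 99999, nat_lit 0, nat_lit 5393, nat_lit 0, nat_lit 60000, nat_lit 8149, nat_lit 0, nat_lit 0, nat_lit 0, nat_lit 0, nat_lit 1000000, nat_lit 0, nat_lit 0, [(nat_lit 6, [(nat_lit 6, nat_lit 1000)])],
 ⟨p009_k46, nat_lit 0, nat_lit 0, nat_lit 290, nat_lit 0, nat_lit 344792, [nat_lit 87265066667, nat_lit 107668000000], [], [nat_lit 310285963081, nat_lit 304653615868, nat_lit 299217990562, nat_lit 300011406987], nat_lit 1271250, nat_lit 1271250, nat_lit 65850, nat_lit 111251, nat_lit 0, nat_lit 0, [nat_lit 1100000, nat_lit 1442500], [nat_lit 31, nat_lit 40, nat_lit 20, nat_lit 80, nat_lit 3, nat_lit 215, nat_lit 10, nat_lit 9]⟩, ⟨p009_k56, nat_lit 0, nat_lit 0, nat_lit 0, nat_lit 0, nat_lit 353542, [nat_lit 81490000000, nat_lit 146682000000, nat_lit 179278000000], [], [nat_lit 212126028348, nat_lit 214957390034, nat_lit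 200252611991, nat_lit 202822471384], nat_lit 1271250, nat_lit 1271250, nat_lit 65850, nat_lit 111251, nat_lit 0, nat_lit 0, [nat_lit 631250, nat_lit 1271250, nat_lit 1271250], [nat_lit 90, nat_lit 40, nat_lit 20, nat_lit 40]⟩,
 ⟨nat_lit 6224, nat_lit 6325, ⟨.ofNat (nat_lit 150750), .ofNat (nat_lit 167203), .ofNat (nat_lit 156092), .ofNat (nat_lit 172545), .ofNat (nat_lit 155180), .ofNat (nat_lit 171443), .ofNat (nat_lit 160519), .ofNat (nat_lit 176782)⟩, ⟨.ofNat (nat_lit 0), .ofNat (nat_lit 0), .ofNat (nat_lit 0), .ofNat (nat_lit 0), .ofNat (nat_lit 0), .ofNat (nat_lit 0), .ofNat (nat_lit 0), .ofNat (nat_lit 0)⟩⟩, [⟨nat_lit 0, nat_lit 100, nat_lit 99, nat_lit 40, nat_lit 10101010101⟩, ⟨nat_lit 0, nat_lit 100, nat_lit 99, nat_lit 42, nat_lit 10085431953⟩]⟩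
noncomputable def b_NL_600_550_0_15 : St := ⟨false, nat_lit 1, nat_lit 1, nat_lit 1, nat_lit 20, nat_lit 240, nat_lit 245, nat_lit 230, nat_lit 240, nat_lit 12, nat_lit 20, nat_lit 0, nat_lit 0, nat_lit 0, nat_lit 0, nat_lit 0, nat_lit 0, nat_lit 0, nat_lit 4, nat_lit 0, nat_lit 0, nat_lit 0, nat_lit 800⟩
theorem d_NL_600_550_0_15 (h : EB TB.env) : Dead b_NL_600_550_0_15 := chkB_sound0 h (T :=
(.spl (nat_lit 1) (nat_lit 235)
(.spl (nat_lit 7) (nat_lit 600)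
(.leaf p009_l140)
(.spl (nat_lit 8) (nat_lit 400)
(.spl (nat_lit 8) (nat_lit 200)
(.leaf p009_l141)
(.spl (nat_lit 7) (nat_lit 900)
(.leaf p009_l142)
(.leaf p009_l143)))
(.leaf p009_l144)))
(.spl (nat_lit 7) (nat_lit 600)
(.leaf p009_l145)
(.spl (nat_lit 8) (nat_lit 400)
(.spl (nat_lit 8) (nat_lit 200)
(.leaf p009_l146)
(.spl (nat_lit 7) (nat_lit 900)
(.leaf p009_l147)
(.leaf p009_l148)))
(.leaf p009_l149))))) (by decide +kernel)
noncomputable def p009_l150 : Lf2 := ⟨nat_lit 0, nat_lit 1, [nat_lit 19, nat_lit 5, nat_lit 5, nat_lit 20], true, nat_lit 0, nat_lit 0, nat_lit 0, nat_lit 0, ⟨nat_lit 0, nat_lit 0, nat_lit 1000, nat_lit 5, nat_lit 71, nat_lit 0, nat_lit 0, nat_lit 0, nat_lit 0, nat_lit 215, nat_lit 46817, nat_lit 268, nat_lit 64940035, nat_lit 0, nat_lit 0, nat_lit 686602, false, false⟩,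
 nat_lit 0, nat_lit 7923, nat_lit 0, nat_lit 0, nat_lit 4194, nat_lit 0, nat_lit 671, nat_lit 0, nat_lit 0, nat_lit 0, nat_lit 0, nat_lit 0, nat_lit 0, nat_lit 0, nat_lit 10, nat_lit 1000000, nat_lit 0, nat_lit 0, [(nat_lit 6, [(nat_lit 6, nat_lit 1000)])],
 ⟨p009_k45, nat_lit 0, nat_lit 0, nat_lit 0, nat_lit 0, nat_lit 318427, [nat_lit 1137066667, nat_lit 504400001, nat_lit 8000000], [], [nat_lit 11936730797, nat_lit 12073845386, nat_lit 12092562437, nat_lit 11843259246], nat_lit 1271250, nat_lit 1271250, nat_lit 111251, nat_lit 181601, nat_lit 0, nat_lit 0, [nat_lit 1100000, nat_lit 1271250, nat_lit 1271250], [nat_lit 124, nat_lit 40, nat_lit 20, nat_lit 40]⟩, C1.Rw.none,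
 ⟨nat_lit 6264, nat_lit 6325, ⟨.ofNat (nat_lit 161861), .ofNat (nat_lit 186541), .ofNat (nat_lit 167203), .ofNat (nat_lit 191883), .ofNat (nat_lit 164412), .ofNat (nat_lit 188920), .ofNat (nat_lit 169752), .ofNat (nat_lit 194260)⟩, ⟨.ofNat (nat_lit 0), .ofNat (nat_lit 0), .ofNat (nat_lit 0), .ofNat (nat_lit 0), .ofNat (nat_lit 0), .ofNat (nat_lit 0), .ofNat (nat_lit 0), .ofNat (nat_lit 0)⟩⟩, []⟩
noncomputable def p009_l151 : Lf2 := ⟨nat_lit 0, nat_lit 1, [nat_lit 19, nat_lit 5, nat_lit 5, nat_lit 20], false, nat_lit 0, nat_lit 0, nat_lit 0, nat_lit 0, ⟨nat_lit 1000, nat_lit 0, nat_lit 0, nat_lit 0, nat_lit 0, nat_lit 0, nat_lit 0, nat_lit 0, nat_lit 0, nat_lit 0, nat_lit 0, nat_lit 0, nat_lit 0, nat_lit 0, nat_lit 0, nat_lit 0, false, false⟩,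
 nat_lit 0, nat_lit 8567, nat_lit 0, nat_lit 0, nat_lit 4535, nat_lit 0, nat_lit 0, nat_lit 0, nat_lit 0, nat_lit 1746, nat_lit 0, nat_lit 548, nat_lit 0, nat_lit 0, nat_lit 0, nat_lit 0, nat_lit 0, nat_lit 0, [],
 ⟨p009_k46, nat_lit 0, nat_lit 0, nat_lit 282, nat_lit 0, nat_lit 296051, [nat_lit 4688000000, nat_lit 6250000000], [], [nat_lit 35371496500, nat_lit 35416826441, nat_lit 35293739080, nat_lit 35338936305], nat_lit 1271250, nat_lit 1271250, nat_lit 111251, nat_lit 134400, nat_lit 0, nat_lit 0, [nat_lit 1100000, nat_lit 1442500], [nat_lit 31, nat_lit 40, nat_lit 20, nat_lit 80, nat_lit 3, nat_lit 215, nat_lit 10, nat_lit 9]⟩, ⟨p009_k54, nat_lit 0, nat_lit 0, nat_lit 0, nat_lit 0, nat_lit 311409, [nat_lit 2637500000, nat_lit 5449500000, nat_lit 7089500000], [], [nat_lit 5885934000, nat_lit 5928043800, nat_lit 5950322351, nat_lit 5987209611], nat_lit 1271250, nat_lit 1271250, nat_lit 111251,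 nat_lit 134400, nat_lit 0, nat_lit 0, [nat_lit 631250, nat_lit 1271250, nat_lit 1271250], [nat_lit 90, nat_lit 40, nat_lit 20, nat_lit 40]⟩,
 zbF0, []⟩
noncomputable def p009_l152 : Lf2 := ⟨nat_lit 0, nat_lit 1, [nat_lit 19, nat_lit 5, nat_lit 5, nat_lit 20], false, nat_lit 0, nat_lit 0, nat_lit 0, nat_lit 0, ⟨nat_lit 1000, nat_lit 0, nat_lit 0, nat_lit 0, nat_lit 0, nat_lit 0, nat_lit 0, nat_lit 0, nat_lit 0, nat_lit 0, nat_lit 0, nat_lit 0, nat_lit 0, nat_lit 0, nat_lit 0, nat_lit 0, false, false⟩,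
 nat_lit 27656, nat_lit 0, nat_lit 0, nat_lit 0, nat_lit 14641, nat_lit 13928, nat_lit 0, nat_lit 1041, nat_lit 0, nat_lit 8353, nat_lit 0, nat_lit 0, nat_lit 0, nat_lit 0, nat_lit 0, nat_lit 0, nat_lit 0, nat_lit 0, [],
 ⟨p009_k46, nat_lit 0, nat_lit 0, nat_lit 282, nat_lit 0, nat_lit 296051, [nat_lit 21344000001, nat_lit 27070000000], [], [nat_lit 88933840830, nat_lit 88817139266, nat_lit 88338765370, nat_lit 88423232893], nat_lit 1271250, nat_lit 1271250, nat_lit 111251, nat_lit 134400, nat_lit 0, nat_lit 0, [nat_lit 1100000, nat_lit 1442500], [nat_lit 31, nat_lit 40, nat_lit 20, nat_lit 80, nat_lit 3, nat_lit 215, nat_lit 10, nat_lit 9]⟩, ⟨p009_k58, nat_lit 0, nat_lit 0, nat_lit 0, nat_lit 0, nat_lit 311409, [nat_lit 5449500000, nat_lit 6250000000, nat_lit 7089500000], [], [nat_lit 15020715528, nat_lit 14934997870, nat_lit 14963315325, nat_lit 14601186768], nat_lit 1271250, nat_lit 1271250,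 nat_lit 111251, nat_lit 134400, nat_lit 0, nat_lit 0, [nat_lit 1271250, nat_lit 1271250, nat_lit 1271250], [nat_lit 188, nat_lit 40, nat_lit 20, nat_lit 40]⟩,
 zbF0, []⟩
noncomputable def p009_l153 : Lf2 := ⟨nat_lit 0, nat_lit 1, [nat_lit 19, nat_lit 5, nat_lit 5, nat_lit 20], false, nat_lit 0, nat_lit 0, nat_lit 0, nat_lit 0, ⟨nat_lit 0, nat_lit 0, nat_lit 1000, nat_lit 5, nat_lit 67, nat_lit 0, nat_lit 0, nat_lit 0, nat_lit 0, nat_lit 215, nat_lit 41667, nat_lit 265, nat_lit 65183623, nat_lit 0, nat_lit 0, nat_lit 622712, false, false⟩,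
 nat_lit 100000, nat_lit 88889, nat_lit 98551, nat_lit 0, nat_lit 100000, nat_lit 100000, nat_lit 38424, nat_lit 10179, nat_lit 0, nat_lit 60000, nat_lit 1735, nat_lit 0, nat_lit 0, nat_lit 0, nat_lit 0, nat_lit 1000000, nat_lit 0, nat_lit 51697859999, [(nat_lit 6, [(nat_lit 6, nat_lit 1000)])],
 ⟨p009_k46, nat_lit 0, nat_lit 0, nat_lit 282, nat_lit 0, nat_lit 296051, [nat_lit 163841066667, nat_lit 203388000000], [], [nat_lit 545440945334, nat_lit 543064035968, nat_lit 539584781068, nat_lit 540000940007], nat_lit 1271250, nat_lit 1271250, nat_lit 111251, nat_lit 134400, nat_lit 0, nat_lit 0, [nat_lit 1100000, nat_lit 1442500], [nat_lit 31, nat_lit 40, nat_lit 20, nat_lit 80, nat_lit 3, nat_lit 215, nat_lit 10, nat_lit 9]⟩, ⟨p009_k54, nat_lit 0, nat_lit 0, nat_lit 0, nat_lit 0, nat_lit 311409, [nat_lit 17350000000, nat_lit 31230000000, nat_lit 38170000000], [], [nat_lit 4100259999, nat_lit 4667429999,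 nat_lit 0, nat_lit 587769999], nat_lit 1271250, nat_lit 1271250, nat_lit 111251, nat_lit 134400, nat_lit 0, nat_lit 0, [nat_lit 631250, nat_lit 1271250, nat_lit 1271250], [nat_lit 90, nat_lit 40, nat_lit 20, nat_lit 40]⟩,
 ⟨nat_lit 6304, nat_lit 6325, ⟨.ofNat (nat_lit 161861), .ofNat (nat_lit 170088), .ofNat (nat_lit 162930), .ofNat (nat_lit 171156), .ofNat (nat_lit 162713), .ofNat (nat_lit 170920), .ofNat (nat_lit 163781), .ofNat (nat_lit 171989)⟩, ⟨.ofNat (nat_lit 0), .ofNat (nat_lit 0), .ofNat (nat_lit 0), .ofNat (nat_lit 0), .ofNat (nat_lit 0), .ofNat (nat_lit 0), .ofNat (nat_lit 0), .ofNat (nat_lit 0)⟩⟩, []⟩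
noncomputable def p009_l154 : Lf2 := ⟨nat_lit 0, nat_lit 1, [nat_lit 19, nat_lit 5, nat_lit 5, nat_lit 20], false, nat_lit 0, nat_lit 0, nat_lit 0, nat_lit 0, ⟨nat_lit 1000, nat_lit 0, nat_lit 0, nat_lit 0, nat_lit 0, nat_lit 0, nat_lit 0, nat_lit 0, nat_lit 0, nat_lit 0, nat_lit 0, nat_lit 0, nat_lit 0, nat_lit 0, nat_lit 0, nat_lit 0, false, false⟩,
 nat_lit 0, nat_lit 8649, nat_lit 0, nat_lit 0, nat_lit 4601, nat_lit 0, nat_lit 0, nat_lit 0, nat_lit 0, nat_lit 1764, nat_lit 0, nat_lit 548, nat_lit 0, nat_lit 0, nat_lit 0, nat_lit 0, nat_lit 0, nat_lit 0, [],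
 ⟨p009_k59, nat_lit 0, nat_lit 0, nat_lit 282, nat_lit 0, nat_lit 298636, [nat_lit 4688000000, nat_lit 6250000000], [], [nat_lit 35248883105, nat_lit 35294470708, nat_lit 35168929138, nat_lit 35214382828], nat_lit 1271250, nat_lit 1271250, nat_lit 111251, nat_lit 134400, nat_lit 0, nat_lit 0, [nat_lit 1100000, nat_lit 1442500], [nat_lit 31, nat_lit 40, nat_lit 20, nat_lit 80, nat_lit 3, nat_lit 215, nat_lit 10, nat_lit 9]⟩, ⟨p009_k54, nat_lit 0, nat_lit 0, nat_lit 0, nat_lit 0, nat_lit 315690, [nat_lit 2637500000, nat_lit 5449500000, nat_lit 7089500000], [], [nat_lit 5885934000, nat_lit 5928043800, nat_lit 5943608400, nat_lit 5985691801], nat_lit 1271250, nat_lit 1271250, nat_lit 111251, nat_lit 134400, nat_lit 0, nat_lit 0, [nat_lit 631250, nat_lit 1271250, nat_lit 1271250], [nat_lit 90, nat_lit 40, nat_lit 20, nat_lit 40]⟩,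
 zbF0, []⟩
noncomputable def p009_l155 : Lf2 := ⟨nat_lit 0, nat_lit 1, [nat_lit 19, nat_lit 5, nat_lit 5, nat_lit 20], false, nat_lit 0, nat_lit 0, nat_lit 0, nat_lit 0, ⟨nat_lit 1000, nat_lit 0, nat_lit 0, nat_lit 0, nat_lit 0, nat_lit 0, nat_lit 0, nat_lit 0, nat_lit 0, nat_lit 0, nat_lit 0, nat_lit 0, nat_lit 0, nat_lit 0, nat_lit 0, nat_lit 0, false, false⟩,
 nat_lit 27657, nat_lit 0, nat_lit 0, nat_lit 0, nat_lit 14713, nat_lit 13929, nat_lit 0, nat_lit 1029, nat_lit 0, nat_lit 8353, nat_lit 0, nat_lit 0, nat_lit 0, nat_lit 0, nat_lit 0, nat_lit 0, nat_lit 0, nat_lit 0, [],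
 ⟨p009_k59, nat_lit 0, nat_lit 0, nat_lit 282, nat_lit 0, nat_lit 298636, [nat_lit 21152000001, nat_lit 26830000000], [], [nat_lit 87925536207, nat_lit 87806993205, nat_lit 87325770529, nat_lit 87410517833], nat_lit 1271250, nat_lit 1271250, nat_lit 111251, nat_lit 134400, nat_lit 0, nat_lit 0, [nat_lit 1100000, nat_lit 1442500], [nat_lit 31, nat_lit 40, nat_lit 20, nat_lit 80, nat_lit 3, nat_lit 215, nat_lit 10, nat_lit 9]⟩, ⟨p009_k58, nat_lit 0, nat_lit 0, nat_lit 0, nat_lit 0, nat_lit 315690, [nat_lit 5449500000, nat_lit 6250000000, nat_lit 7089500000], [], [nat_lit 15019265729, nat_lit 14935011867, nat_lit 14961854757, nat_lit 14599700200], nat_lit 1271250, nat_lit 1271250, nat_lit 111251, nat_lit 134400, nat_lit 0, nat_lit 0, [nat_lit 1271250, nat_lit 1271250, nat_lit 1271250], [nat_lit 188, nat_lit 40, nat_lit 20, nat_lit 40]⟩,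
 zbF0, []⟩
noncomputable def p009_l156 : Lf2 := ⟨nat_lit 0, nat_lit 1, [nat_lit 19, nat_lit 5, nat_lit 5, nat_lit 20], false, nat_lit 0, nat_lit 0, nat_lit 0, nat_lit 0, ⟨nat_lit 0, nat_lit 0, nat_lit 1000, nat_lit 5, nat_lit 67, nat_lit 0, nat_lit 0, nat_lit 0, nat_lit 0, nat_lit 215, nat_lit 41667, nat_lit 265, nat_lit 65165769, nat_lit 0, nat_lit 0, nat_lit 627476, false, false⟩,
 nat_lit 100000, nat_lit 87967, nat_lit 98551, nat_lit 0, nat_lit 100000, nat_lit 100000, nat_lit 44014, nat_lit 10181, nat_lit 0, nat_lit 60000, nat_lit 1735, nat_lit 0, nat_lit 0, nat_lit 0, nat_lit 0, nat_lit 1000000, nat_lit 0, nat_lit 51697859999, [(nat_lit 6, [(nat_lit 6, nat_lit 1000)])],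
 ⟨p009_k59, nat_lit 0, nat_lit 0, nat_lit 282, nat_lit 0, nat_lit 298636, [nat_lit 163873066667, nat_lit 203428000000], [], [nat_lit 541447504085, nat_lit 539095117517, nat_lit 535613996257, nat_lit 536030155198], nat_lit 1271250, nat_lit 1271250, nat_lit 111251, nat_lit 134400, nat_lit 0, nat_lit 0, [nat_lit 1100000, nat_lit 1442500], [nat_lit 31, nat_lit 40, nat_lit 20, nat_lit 80, nat_lit 3, nat_lit 215, nat_lit 10, nat_lit 9]⟩, ⟨p009_k54, nat_lit 0, nat_lit 0, nat_lit 0, nat_lit 0, nat_lit 315690, [nat_lit 17350000000, nat_lit 31230000000, nat_lit 38170000000], [], [nat_lit 4100259999, nat_lit 4667429999, nat_lit 0, nat_lit 587769999], nat_lit 1271250, nat_lit 1271250, nat_lit 111251, nat_lit 134400, nat_lit 0, nat_lit 0, [nat_lit 631250, nat_lit 1271250, nat_lit 1271250], [nat_lit 90, nat_lit 40, nat_lit 20, nat_lit 40]⟩,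
 ⟨nat_lit 6284, nat_lit 6305, ⟨.ofNat (nat_lit 162713), .ofNat (nat_lit 170920), .ofNat (nat_lit 163781), .ofNat (nat_lit 171989), .ofNat (nat_lit 163563), .ofNat (nat_lit 171752), .ofNat (nat_lit 164631), .ofNat (nat_lit 172820)⟩, ⟨.ofNat (nat_lit 0), .ofNat (nat_lit 0), .ofNat (nat_lit 0), .ofNat (nat_lit 0), .ofNat (nat_lit 0), .ofNat (nat_lit 0), .ofNat (nat_lit 0), .ofNat (nat_lit 0)⟩⟩, []⟩
noncomputable def p009_l157 : Lf2 := ⟨nat_lit 0, nat_lit 1, [nat_lit 19, nat_lit 5, nat_lit 5, nat_lit 20], false, nat_lit 0, nat_lit 0, nat_lit 0, nat_lit 0, ⟨nat_lit 1000, nat_lit 0, nat_lit 0, nat_lit 0, nat_lit 0, nat_lit 0, nat_lit 0, nat_lit 0, nat_lit 0, nat_lit 0, nat_lit 0, nat_lit 0, nat_lit 0, nat_lit 0, nat_lit 0, nat_lit 0, false, false⟩,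
 nat_lit 0, nat_lit 8567, nat_lit 0, nat_lit 0, nat_lit 4535, nat_lit 0, nat_lit 0, nat_lit 0, nat_lit 0, nat_lit 2028, nat_lit 0, nat_lit 539, nat_lit 0, nat_lit 0, nat_lit 0, nat_lit 0, nat_lit 0, nat_lit 0, [],
 ⟨p009_k46, nat_lit 0, nat_lit 0, nat_lit 283, nat_lit 0, nat_lit 299656, [nat_lit 4688000000, nat_lit 6250000000], [], [nat_lit 35371496500, nat_lit 35416826441, nat_lit 35293739080, nat_lit 35338936305], nat_lit 1271250, nat_lit 1271250, nat_lit 111251, nat_lit 134400, nat_lit 0, nat_lit 0, [nat_lit 1100000, nat_lit 1442500], [nat_lit 31, nat_lit 40, nat_lit 20, nat_lit 80, nat_lit 3, nat_lit 215, nat_lit 10, nat_lit 9]⟩, ⟨p009_k60, nat_lit 0, nat_lit 0, nat_lit 0, nat_lit 0, nat_lit 313585, [nat_lit 2637500000, nat_lit 5449500000, nat_lit 7089500000], [], [nat_lit 5929468100, nat_lit 5970153600, nat_lit 5997040321, nat_lit 6035541441], nat_lit 1271250, nat_lit 1271250, nat_lit 111251,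 nat_lit 134400, nat_lit 0, nat_lit 0, [nat_lit 631250, nat_lit 1271250, nat_lit 1271250], [nat_lit 90, nat_lit 40, nat_lit 20, nat_lit 40]⟩,
 zbF0, []⟩
noncomputable def p009_l158 : Lf2 := ⟨nat_lit 0, nat_lit 1, [nat_lit 19, nat_lit 5, nat_lit 5, nat_lit 20], false, nat_lit 0, nat_lit 0, nat_lit 0, nat_lit 0, ⟨nat_lit 1000, nat_lit 0, nat_lit 0, nat_lit 0, nat_lit 0, nat_lit 0, nat_lit 0, nat_lit 0, nat_lit 0, nat_lit 0, nat_lit 0, nat_lit 0, nat_lit 0, nat_lit 0, nat_lit 0, nat_lit 0, false, false⟩,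
 nat_lit 26967, nat_lit 0, nat_lit 0, nat_lit 0, nat_lit 14276, nat_lit 13650, nat_lit 0, nat_lit 1004, nat_lit 0, nat_lit 8115, nat_lit 0, nat_lit 0, nat_lit 0, nat_lit 0, nat_lit 0, nat_lit 0, nat_lit 0, nat_lit 0, [],
 ⟨p009_k46, nat_lit 0, nat_lit 0, nat_lit 283, nat_lit 0, nat_lit 299656, [nat_lit 20752000000, nat_lit 26330000000], [], [nat_lit 87030387408, nat_lit 86933916805, nat_lit 86468374849, nat_lit 86551424040], nat_lit 1271250, nat_lit 1271250, nat_lit 111251, nat_lit 134400, nat_lit 0, nat_lit 0, [nat_lit 1100000, nat_lit 1442500], [nat_lit 31, nat_lit 40, nat_lit 20, nat_lit 80, nat_lit 3, nat_lit 215, nat_lit 10, nat_lit 9]⟩, ⟨p009_k61, nat_lit 0, nat_lit 0, nat_lit 0, nat_lit 0, nat_lit 313585, [nat_lit 5449500000, nat_lit 6250000000, nat_lit 7089500000], [], [nat_lit 15068328665, nat_lit 14986992310, nat_lit 15014452794, nat_lit 14659552248], nat_lit 1271250, nat_lit 1271250,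 nat_lit 111251, nat_lit 134400, nat_lit 0, nat_lit 0, [nat_lit 1271250, nat_lit 1271250, nat_lit 1271250], [nat_lit 188, nat_lit 40, nat_lit 20, nat_lit 40]⟩,
 zbF0, []⟩
noncomputable def p009_l159 : Lf2 := ⟨nat_lit 0, nat_lit 1, [nat_lit 19, nat_lit 5, nat_lit 5, nat_lit 20], false, nat_lit 0, nat_lit 0, nat_lit 0, nat_lit 0, ⟨nat_lit 0, nat_lit 0, nat_lit 1000, nat_lit 5, nat_lit 67, nat_lit 0, nat_lit 0, nat_lit 0, nat_lit 0, nat_lit 215, nat_lit 41667, nat_lit 265, nat_lit 65160939, nat_lit 0, nat_lit 0, nat_lit 628763, false, false⟩,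
 nat_lit 100000, nat_lit 88889, nat_lit 97547, nat_lit 0, nat_lit 100000, nat_lit 100000, nat_lit 38353, nat_lit 10180, nat_lit 0, nat_lit 60000, nat_lit 2321, nat_lit 0, nat_lit 0, nat_lit 0, nat_lit 0, nat_lit 1000000, nat_lit 0, nat_lit 29941952000, [(nat_lit 6, [(nat_lit 6, nat_lit 1000)])],
 ⟨p009_k46, nat_lit 0, nat_lit 0, nat_lit 283, nat_lit 0, nat_lit 299656, [nat_lit 163857066667, nat_lit 203408000000], [], [nat_lit 545492945334, nat_lit 543140035968, nat_lit 539660781068, nat_lit 540076940007], nat_lit 1271250, nat_lit 1271250, nat_lit 111251, nat_lit 134400, nat_lit 0, nat_lit 0, [nat_lit 1100000, nat_lit 1442500], [nat_lit 31, nat_lit 40, nat_lit 20, nat_lit 80, nat_lit 3, nat_lit 215, nat_lit 10, nat_lit 9]⟩, ⟨p009_k60, nat_lit 0, nat_lit 0, nat_lit 0, nat_lit 0, nat_lit 313585, [nat_lit 23210000000, nat_lit 41778000000, nat_lit 51062000000], [], [nat_lit 4101522000, nat_lit 4668692000,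 nat_lit 0, nat_lit 587392001], nat_lit 1271250, nat_lit 1271250, nat_lit 111251, nat_lit 134400, nat_lit 0, nat_lit 0, [nat_lit 631250, nat_lit 1271250, nat_lit 1271250], [nat_lit 90, nat_lit 40, nat_lit 20, nat_lit 40]⟩,
 ⟨nat_lit 6304, nat_lit 6325, ⟨.ofNat (nat_lit 162930), .ofNat (nat_lit 171156), .ofNat (nat_lit 163998), .ofNat (nat_lit 172224), .ofNat (nat_lit 163781), .ofNat (nat_lit 171989), .ofNat (nat_lit 164850), .ofNat (nat_lit 173057)⟩, ⟨.ofNat (nat_lit 0), .ofNat (nat_lit 0), .ofNat (nat_lit 0), .ofNat (nat_lit 0), .ofNat (nat_lit 0), .ofNat (nat_lit 0), .ofNat (nat_lit 0), .ofNat (nat_lit 0)⟩⟩, []⟩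
noncomputable def p009_l160 : Lf2 := ⟨nat_lit 0, nat_lit 1, [nat_lit 19, nat_lit 5, nat_lit 5, nat_lit 20], false, nat_lit 0, nat_lit 0, nat_lit 0, nat_lit 0, ⟨nat_lit 1000, nat_lit 0, nat_lit 0, nat_lit 0, nat_lit 0, nat_lit 0, nat_lit 0, nat_lit 0, nat_lit 0, nat_lit 0, nat_lit 0, nat_lit 0, nat_lit 0, nat_lit 0, nat_lit 0, nat_lit 0, false, false⟩,
 nat_lit 0, nat_lit 8649, nat_lit 0, nat_lit 0, nat_lit 4601, nat_lit 0, nat_lit 0, nat_lit 0, nat_lit 0, nat_lit 2028, nat_lit 0, nat_lit 539, nat_lit 0, nat_lit 0, nat_lit 0, nat_lit 0, nat_lit 0, nat_lit 0, [],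
 ⟨p009_k59, nat_lit 0, nat_lit 0, nat_lit 282, nat_lit 0, nat_lit 302200, [nat_lit 4688000000, nat_lit 6250000000], [], [nat_lit 35248883105, nat_lit 35294470708, nat_lit 35168929138, nat_lit 35214382828], nat_lit 1271250, nat_lit 1271250, nat_lit 111251, nat_lit 134400, nat_lit 0, nat_lit 0, [nat_lit 1100000, nat_lit 1442500], [nat_lit 31, nat_lit 40, nat_lit 20, nat_lit 80, nat_lit 3, nat_lit 215, nat_lit 10, nat_lit 9]⟩, ⟨p009_k60, nat_lit 0, nat_lit 0, nat_lit 0, nat_lit 0, nat_lit 317819, [nat_lit 2637500000, nat_lit 5449500000, nat_lit 7089500000], [], [nat_lit 5929468100, nat_lit 5970153600, nat_lit 5997040321, nat_lit 6035541441], nat_lit 1271250, nat_lit 1271250, nat_lit 111251, nat_lit 134400, nat_lit 0, nat_lit 0, [nat_lit 631250, nat_lit 1271250, nat_lit 1271250], [nat_lit 90, nat_lit 40, nat_lit 20, nat_lit 40]⟩,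
 zbF0, []⟩
noncomputable def p009_l161 : Lf2 := ⟨nat_lit 0, nat_lit 1, [nat_lit 19, nat_lit 5, nat_lit 5, nat_lit 20], false, nat_lit 0, nat_lit 0, nat_lit 0, nat_lit 0, ⟨nat_lit 1000, nat_lit 0, nat_lit 0, nat_lit 0, nat_lit 0, nat_lit 0, nat_lit 0, nat_lit 0, nat_lit 0, nat_lit 0, nat_lit 0, nat_lit 0, nat_lit 0, nat_lit 0, nat_lit 0, nat_lit 0, false, false⟩,
 nat_lit 18609, nat_lit 0, nat_lit 0, nat_lit 0, nat_lit 9899, nat_lit 9419, nat_lit 0, nat_lit 539, nat_lit 0, nat_lit 10282, nat_lit 0, nat_lit 0, nat_lit 0, nat_lit 0, nat_lit 0, nat_lit 0, nat_lit 0, nat_lit 0, [],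
 ⟨p009_k59, nat_lit 0, nat_lit 0, nat_lit 282, nat_lit 0, nat_lit 302200, [nat_lit 13312000001, nat_lit 17030000000], [], [nat_lit 62840941799, nat_lit 62797884494, nat_lit 62485990224, nat_lit 62552031094], nat_lit 1271250, nat_lit 1271250, nat_lit 111251, nat_lit 134400, nat_lit 0, nat_lit 0, [nat_lit 1100000, nat_lit 1442500], [nat_lit 31, nat_lit 40, nat_lit 20, nat_lit 80, nat_lit 3, nat_lit 215, nat_lit 10, nat_lit 9]⟩, ⟨p009_k60, nat_lit 0, nat_lit 0, nat_lit 0, nat_lit 0, nat_lit 317819, [nat_lit 2637500000, nat_lit 5449500000, nat_lit 7089500000], [], [nat_lit 15009290674, nat_lit 15096089630, nat_lit 14691009457, nat_lit 14781706034], nat_lit 1271250, nat_lit 1271250, nat_lit 111251, nat_lit 134400, nat_lit 0, nat_lit 0, [nat_lit 631250, nat_lit 1271250, nat_lit 1271250], [nat_lit 90, nat_lit 40, nat_lit 20, nat_lit 40]⟩,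
 zbF0, []⟩
noncomputable def p009_l162 : Lf2 := ⟨nat_lit 0, nat_lit 1, [nat_lit 19, nat_lit 5, nat_lit 5, nat_lit 20], false, nat_lit 0, nat_lit 0, nat_lit 0, nat_lit 0, ⟨nat_lit 0, nat_lit 0, nat_lit 1000, nat_lit 5, nat_lit 68, nat_lit 0, nat_lit 0, nat_lit 0, nat_lit 0, nat_lit 215, nat_lit 43350, nat_lit 266, nat_lit 65142986, nat_lit 0, nat_lit 0, nat_lit 633537, false, false⟩,
 nat_lit 100000, nat_lit 87967, nat_lit 97547, nat_lit 0, nat_lit 100000, nat_lit 100000, nat_lit 44017, nat_lit 10182, nat_lit 0, nat_lit 60000, nat_lit 2321, nat_lit 0, nat_lit 0, nat_lit 0, nat_lit 0, nat_lit 1000000, nat_lit 0, nat_lit 29941952000, [(nat_lit 6, [(nat_lit 6, nat_lit 1000)])],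
 ⟨p009_k59, nat_lit 0, nat_lit 0, nat_lit 282, nat_lit 0, nat_lit 302200, [nat_lit 163889066667, nat_lit 203448000000], [], [nat_lit 541499400960, nat_lit 539170808142, nat_lit 535689686882, nat_lit 536105845823], nat_lit 1271250, nat_lit 1271250, nat_lit 111251, nat_lit 134400, nat_lit 0, nat_lit 0, [nat_lit 1100000, nat_lit 1442500], [nat_lit 31, nat_lit 40, nat_lit 20, nat_lit 80, nat_lit 3, nat_lit 215, nat_lit 10, nat_lit 9]⟩, ⟨p009_k60, nat_lit 0, nat_lit 0, nat_lit 0, nat_lit 0, nat_lit 317819, [nat_lit 23210000000, nat_lit 41778000000, nat_lit 51062000000], [], [nat_lit 4101522000, nat_lit 4668692000, nat_lit 0, nat_lit 587392001], nat_lit 1271250, nat_lit 1271250, nat_lit 111251, nat_lit 134400, nat_lit 0, nat_lit 0, [nat_lit 631250, nat_lit 1271250, nat_lit 1271250], [nat_lit 90, nat_lit 40, nat_lit 20, nat_lit 40]⟩,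
 ⟨nat_lit 6284, nat_lit 6305, ⟨.ofNat (nat_lit 163781), .ofNat (nat_lit 171989), .ofNat (nat_lit 164850), .ofNat (nat_lit 173057), .ofNat (nat_lit 164631), .ofNat (nat_lit 172820), .ofNat (nat_lit 165699), .ofNat (nat_lit 173888)⟩, ⟨.ofNat (nat_lit 0), .ofNat (nat_lit 0), .ofNat (nat_lit 0), .ofNat (nat_lit 0), .ofNat (nat_lit 0), .ofNat (nat_lit 0), .ofNat (nat_lit 0), .ofNat (nat_lit 0)⟩⟩, []⟩
noncomputable def p009_l163 : Lf2 := ⟨nat_lit 0, nat_lit 1, [nat_lit 19, nat_lit 5, nat_lit 5, nat_lit 20], false, nat_lit 0, nat_lit 0, nat_lit 0, nat_lit 0, ⟨nat_lit 1000, nat_lit 0, nat_lit 0, nat_lit 0, nat_lit 0, nat_lit 0, nat_lit 0, nat_lit 0, nat_lit 0, nat_lit 0, nat_lit 0, nat_lit 0, nat_lit 0, nat_lit 0, nat_lit 0, nat_lit 0, false, false⟩,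
 nat_lit 0, nat_lit 8733, nat_lit 0, nat_lit 0, nat_lit 4668, nat_lit 0, nat_lit 0, nat_lit 0, nat_lit 0, nat_lit 1782, nat_lit 0, nat_lit 547, nat_lit 0, nat_lit 0, nat_lit 0, nat_lit 0, nat_lit 0, nat_lit 0, [],
 ⟨p009_k62, nat_lit 0, nat_lit 0, nat_lit 282, nat_lit 0, nat_lit 301193, [nat_lit 4688000000, nat_lit 6250000000], [], [nat_lit 35124244344, nat_lit 35170093516, nat_lit 35042060147, nat_lit 35087774188], nat_lit 1271250, nat_lit 1271250, nat_lit 111251, nat_lit 134400, nat_lit 0, nat_lit 0, [nat_lit 1100000, nat_lit 1442500], [nat_lit 31, nat_lit 40, nat_lit 20, nat_lit 80, nat_lit 3, nat_lit 215, nat_lit 10, nat_lit 9]⟩, ⟨p009_k54, nat_lit 0, nat_lit 0, nat_lit 0, nat_lit 0, nat_lit 319970, [nat_lit 2637500000, nat_lit 5449500000, nat_lit 7089500000], [], [nat_lit 5891747250, nat_lit 5928686850, nat_lit 5957809851, nat_lit 5994697111], nat_lit 1271250, nat_lit 1271250, nat_lit 111251,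 nat_lit 134400, nat_lit 0, nat_lit 0, [nat_lit 631250, nat_lit 1271250, nat_lit 1271250], [nat_lit 90, nat_lit 40, nat_lit 20, nat_lit 40]⟩,
 zbF0, []⟩
noncomputable def p009_l164 : Lf2 := ⟨nat_lit 0, nat_lit 1, [nat_lit 19, nat_lit 5, nat_lit 5, nat_lit 20], false, nat_lit 0, nat_lit 0, nat_lit 0, nat_lit 0, ⟨nat_lit 1000, nat_lit 0, nat_lit 0, nat_lit 0, nat_lit 0, nat_lit 0, nat_lit 0, nat_lit 0, nat_lit 0, nat_lit 0, nat_lit 0, nat_lit 0, nat_lit 0, nat_lit 0, nat_lit 0, nat_lit 0, false, false⟩,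
 nat_lit 27659, nat_lit 0, nat_lit 0, nat_lit 0, nat_lit 14786, nat_lit 13930, nat_lit 0, nat_lit 1017, nat_lit 0, nat_lit 8354, nat_lit 0, nat_lit 0, nat_lit 0, nat_lit 0, nat_lit 0, nat_lit 0, nat_lit 0, nat_lit 0, [],
 ⟨p009_k62, nat_lit 0, nat_lit 0, nat_lit 282, nat_lit 0, nat_lit 301193, [nat_lit 20960000000, nat_lit 26590000000], [], [nat_lit 86913401977, nat_lit 86794872533, nat_lit 86310763269, nat_lit 86395794239], nat_lit 1271250, nat_lit 1271250, nat_lit 111251, nat_lit 134400, nat_lit 0, nat_lit 0, [nat_lit 1100000, nat_lit 1442500], [nat_lit 31, nat_lit 40, nat_lit 20, nat_lit 80, nat_lit 3, nat_lit 215, nat_lit 10, nat_lit 9]⟩, ⟨p009_k58, nat_lit 0, nat_lit 0, nat_lit 0, nat_lit 0, nat_lit 319970, [nat_lit 5449500000, nat_lit 6250000000, nat_lit 7089500000], [], [nat_lit 15017815930, nat_lit 14934723451, nat_lit 14960394188, nat_lit 14598213631], nat_lit 1271250, nat_lit 1271250,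 nat_lit 111251, nat_lit 134400, nat_lit 0, nat_lit 0, [nat_lit 1271250, nat_lit 1271250, nat_lit 1271250], [nat_lit 188, nat_lit 40, nat_lit 20, nat_lit 40]⟩,
 zbF0, []⟩
noncomputable def p009_l165 : Lf2 := ⟨nat_lit 0, nat_lit 1, [nat_lit 19, nat_lit 5, nat_lit 5, nat_lit 20], false, nat_lit 0, nat_lit 0, nat_lit 0, nat_lit 0, ⟨nat_lit 0, nat_lit 0, nat_lit 1000, nat_lit 5, nat_lit 67, nat_lit 0, nat_lit 0, nat_lit 0, nat_lit 0, nat_lit 215, nat_lit 43350, nat_lit 266, nat_lit 65147868, nat_lit 0, nat_lit 0, nat_lit 632240, false, false⟩,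
 nat_lit 100000, nat_lit 87052, nat_lit 98551, nat_lit 0, nat_lit 99999, nat_lit 100000, nat_lit 53854, nat_lit 10266, nat_lit 0, nat_lit 60000, nat_lit 1735, nat_lit 0, nat_lit 0, nat_lit 0, nat_lit 0, nat_lit 1000000, nat_lit 0, nat_lit 51697859999, [(nat_lit 6, [(nat_lit 6, nat_lit 1000)])],
 ⟨p009_k62, nat_lit 0, nat_lit 0, nat_lit 282, nat_lit 0, nat_lit 301193, [nat_lit 165233066667, nat_lit 205128000000], [], [nat_lit 540757083316, nat_lit 538397473356, nat_lit 534914520928, nat_lit 535330675982], nat_lit 1271250, nat_lit 1271250, nat_lit 111251, nat_lit 134400, nat_lit 0, nat_lit 0, [nat_lit 1100000, nat_lit 1442500], [nat_lit 31, nat_lit 40, nat_lit 20, nat_lit 80, nat_lit 3, nat_lit 215, nat_lit 10, nat_lit 9]⟩, ⟨p009_k54, nat_lit 0, nat_lit 0, nat_lit 0, nat_lit 0, nat_lit 319970, [nat_lit 17350000000, nat_lit 31230000000, nat_lit 38170000000], [], [nat_lit 4100259999, nat_lit 4667429999,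 nat_lit 0, nat_lit 587769999], nat_lit 1271250, nat_lit 1271250, nat_lit 111251, nat_lit 134400, nat_lit 0, nat_lit 0, [nat_lit 631250, nat_lit 1271250, nat_lit 1271250], [nat_lit 90, nat_lit 40, nat_lit 20, nat_lit 40]⟩,
 ⟨nat_lit 6264, nat_lit 6285, ⟨.ofNat (nat_lit 163563), .ofNat (nat_lit 171752), .ofNat (nat_lit 164631), .ofNat (nat_lit 172820), .ofNat (nat_lit 164412), .ofNat (nat_lit 172581), .ofNat (nat_lit 165480), .ofNat (nat_lit 173649)⟩, ⟨.ofNat (nat_lit 0), .ofNat (nat_lit 0), .ofNat (nat_lit 0), .ofNat (nat_lit 0), .ofNat (nat_lit 0), .ofNat (nat_lit 0), .ofNat (nat_lit 0), .ofNat (nat_lit 0)⟩⟩, []⟩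
noncomputable def p009_l166 : Lf2 := ⟨nat_lit 0, nat_lit 1, [nat_lit 19, nat_lit 5, nat_lit 5, nat_lit 20], false, nat_lit 0, nat_lit 0, nat_lit 0, nat_lit 0, ⟨nat_lit 1000, nat_lit 0, nat_lit 0, nat_lit 0, nat_lit 0, nat_lit 0, nat_lit 0, nat_lit 0, nat_lit 0, nat_lit 0, nat_lit 0, nat_lit 0, nat_lit 0, nat_lit 0, nat_lit 0, nat_lit 0, false, false⟩,
 nat_lit 18649, nat_lit 0, nat_lit 0, nat_lit 0, nat_lit 9969, nat_lit 9440, nat_lit 0, nat_lit 533, nat_lit 0, nat_lit 4892, nat_lit 0, nat_lit 0, nat_lit 0, nat_lit 0, nat_lit 0, nat_lit 0, nat_lit 0, nat_lit 0, [],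
 ⟨p009_k62, nat_lit 0, nat_lit 0, nat_lit 282, nat_lit 0, nat_lit 304717, [nat_lit 13216000001, nat_lit 16910000000], [], [nat_lit 62265547420, nat_lit 62230580329, nat_lit 61915992471, nat_lit 61982305350], nat_lit 1271250, nat_lit 1271250, nat_lit 111251, nat_lit 134400, nat_lit 0, nat_lit 0, [nat_lit 1100000, nat_lit 1442500], [nat_lit 31, nat_lit 40, nat_lit 20, nat_lit 80, nat_lit 3, nat_lit 215, nat_lit 10, nat_lit 9]⟩, ⟨p009_k63, nat_lit 0, nat_lit 0, nat_lit 0, nat_lit 0, nat_lit 322054, [nat_lit 2032000000, nat_lit 4688000000, nat_lit 5449500000, nat_lit 7089500000], [], [nat_lit 17294898037, nat_lit 17389373093, nat_lit 16920987205, nat_lit 17015211109], nat_lit 1271250, nat_lit 1271250, nat_lit 111251, nat_lit 134400, nat_lit 0, nat_lit 0, [nat_lit 490000, nat_lit 1100000, nat_lit 1271250, nat_lit 1271250], [nat_lit 213, nat_lit 10, nat_lit 4, nat_lit 20]⟩,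
 zbF0, []⟩
noncomputable def p009_l167 : Lf2 := ⟨nat_lit 0, nat_lit 1, [nat_lit 19, nat_lit 5, nat_lit 5, nat_lit 20], false, nat_lit 0, nat_lit 0, nat_lit 0, nat_lit 0, ⟨nat_lit 0, nat_lit 0, nat_lit 1000, nat_lit 5, nat_lit 68, nat_lit 0, nat_lit 0, nat_lit 0, nat_lit 0, nat_lit 215, nat_lit 43350, nat_lit 266, nat_lit 65124989, nat_lit 0, nat_lit 0, nat_lit 638309, false, false⟩,
 nat_lit 100000, nat_lit 87052, nat_lit 97547, nat_lit 0, nat_lit 99999, nat_lit 100000, nat_lit 53965, nat_lit 10268, nat_lit 0, nat_lit 60000, nat_lit 2326, nat_lit 0, nat_lit 0, nat_lit 0, nat_lit 0, nat_lit 1000000, nat_lit 0, nat_lit 29741952000, [(nat_lit 6, [(nat_lit 6, nat_lit 1000)])],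
 ⟨p009_k62, nat_lit 0, nat_lit 0, nat_lit 282, nat_lit 0, nat_lit 304717, [nat_lit 165265066667, nat_lit 205168000000], [], [nat_lit 540852758316, nat_lit 538524498356, nat_lit 535041545928, nat_lit 535457700982], nat_lit 1271250, nat_lit 1271250, nat_lit 111251, nat_lit 134400, nat_lit 0, nat_lit 0, [nat_lit 1100000, nat_lit 1442500], [nat_lit 31, nat_lit 40, nat_lit 20, nat_lit 80, nat_lit 3, nat_lit 215, nat_lit 10, nat_lit 9]⟩, ⟨p009_k60, nat_lit 0, nat_lit 0, nat_lit 0, nat_lit 0, nat_lit 322054, [nat_lit 23260000000, nat_lit 41868000000, nat_lit 51172000000], [], [nat_lit 4101522000, nat_lit 4668692000, nat_lit 0, nat_lit 567392001], nat_lit 1271250, nat_lit 1271250, nat_lit 111251, nat_lit 134400, nat_lit 0, nat_lit 0, [nat_lit 631250, nat_lit 1271250, nat_lit 1271250], [nat_lit 90, nat_lit 40, nat_lit 20, nat_lit 40]⟩,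
 ⟨nat_lit 6264, nat_lit 6285, ⟨.ofNat (nat_lit 164631), .ofNat (nat_lit 172820), .ofNat (nat_lit 165699), .ofNat (nat_lit 173888), .ofNat (nat_lit 165480), .ofNat (nat_lit 173649), .ofNat (nat_lit 166548), .ofNat (nat_lit 174717)⟩, ⟨.ofNat (nat_lit 0), .ofNat (nat_lit 0), .ofNat (nat_lit 0), .ofNat (nat_lit 0), .ofNat (nat_lit 0), .ofNat (nat_lit 0), .ofNat (nat_lit 0), .ofNat (nat_lit 0)⟩⟩, []⟩
noncomputable def p009_l168 : Lf2 := ⟨nat_lit 0, nat_lit 1, [nat_lit 19, nat_lit 5, nat_lit 5, nat_lit 20], false, nat_lit 0, nat_lit 0, nat_lit 0, nat_lit 0, ⟨nat_lit 1000, nat_lit 0, nat_lit 0, nat_lit 0, nat_lit 0, nat_lit 0, nat_lit 0, nat_lit 0, nat_lit 0, nat_lit 0, nat_lit 0, nat_lit 0, nat_lit 0, nat_lit 0, nat_lit 0, nat_lit 0, false, false⟩,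
 nat_lit 0, nat_lit 8567, nat_lit 0, nat_lit 0, nat_lit 4535, nat_lit 0, nat_lit 0, nat_lit 0, nat_lit 0, nat_lit 1867, nat_lit 0, nat_lit 539, nat_lit 0, nat_lit 0, nat_lit 0, nat_lit 0, nat_lit 0, nat_lit 0, [],
 ⟨p009_k46, nat_lit 0, nat_lit 0, nat_lit 283, nat_lit 0, nat_lit 303260, [nat_lit 4688000000, nat_lit 6250000000], [], [nat_lit 35371496500, nat_lit 35416826441, nat_lit 35293739080, nat_lit 35338936305], nat_lit 1271250, nat_lit 1271250, nat_lit 111251, nat_lit 134400, nat_lit 0, nat_lit 0, [nat_lit 1100000, nat_lit 1442500], [nat_lit 31, nat_lit 40, nat_lit 20, nat_lit 80, nat_lit 3, nat_lit 215, nat_lit 10, nat_lit 9]⟩, ⟨p009_k64, nat_lit 0, nat_lit 0, nat_lit 0, nat_lit 0, nat_lit 315735, [nat_lit 2637500000, nat_lit 5449500000, nat_lit 7089500000], [], [nat_lit 5970153600, nat_lit 6012263400, nat_lit 6035541441, nat_lit 6074042560], nat_lit 1271250, nat_lit 1271250, nat_lit 111251,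 nat_lit 134400, nat_lit 0, nat_lit 0, [nat_lit 631250, nat_lit 1271250, nat_lit 1271250], [nat_lit 90, nat_lit 40, nat_lit 20, nat_lit 40]⟩,
 zbF0, []⟩
noncomputable def p009_l169 : Lf2 := ⟨nat_lit 0, nat_lit 1, [nat_lit 19, nat_lit 5, nat_lit 5, nat_lit 20], false, nat_lit 0, nat_lit 0, nat_lit 0, nat_lit 0, ⟨nat_lit 1000, nat_lit 0, nat_lit 0, nat_lit 0, nat_lit 0, nat_lit 0, nat_lit 0, nat_lit 0, nat_lit 0, nat_lit 0, nat_lit 0, nat_lit 0, nat_lit 0, nat_lit 0, nat_lit 0, nat_lit 0, false, false⟩,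
 nat_lit 18477, nat_lit 0, nat_lit 0, nat_lit 0, nat_lit 9781, nat_lit 9400, nat_lit 0, nat_lit 541, nat_lit 0, nat_lit 9447, nat_lit 0, nat_lit 0, nat_lit 0, nat_lit 0, nat_lit 0, nat_lit 0, nat_lit 0, nat_lit 0, [],
 ⟨p009_k46, nat_lit 0, nat_lit 0, nat_lit 283, nat_lit 0, nat_lit 303260, [nat_lit 13344000001, nat_lit 17070000000], [], [nat_lit 63207419950, nat_lit 63183875826, nat_lit 62876360089, nat_lit 62941942431], nat_lit 1271250, nat_lit 1271250, nat_lit 111251, nat_lit 134400, nat_lit 0, nat_lit 0, [nat_lit 1100000, nat_lit 1442500], [nat_lit 31, nat_lit 40, nat_lit 20, nat_lit 80, nat_lit 3, nat_lit 215, nat_lit 10, nat_lit 9]⟩, ⟨p009_k64, nat_lit 0, nat_lit 0, nat_lit 0, nat_lit 0, nat_lit 315735, [nat_lit 2637500000, nat_lit 5449500000, nat_lit 7089500000], [], [nat_lit 15126947685, nat_lit 15213441440, nat_lit 14809271269, nat_lit 14899633601], nat_lit 1271250, nat_lit 1271250,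 nat_lit 111251, nat_lit 134400, nat_lit 0, nat_lit 0, [nat_lit 631250, nat_lit 1271250, nat_lit 1271250], [nat_lit 90, nat_lit 40, nat_lit 20, nat_lit 40]⟩,
 zbF0, []⟩
noncomputable def p009_l170 : Lf2 := ⟨nat_lit 0, nat_lit 1, [nat_lit 19, nat_lit 5, nat_lit 5, nat_lit 20], false, nat_lit 0, nat_lit 0, nat_lit 0, nat_lit 0, ⟨nat_lit 0, nat_lit 0, nat_lit 1000, nat_lit 5, nat_lit 68, nat_lit 0, nat_lit 0, nat_lit 0, nat_lit 0, nat_lit 215, nat_lit 43350, nat_lit 266, nat_lit 65138128, nat_lit 0, nat_lit 0, nat_lit 634826, false, false⟩,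
 nat_lit 100000, nat_lit 88889, nat_lit 96552, nat_lit 0, nat_lit 100000, nat_lit 100000, nat_lit 38307, nat_lit 10181, nat_lit 0, nat_lit 60000, nat_lit 2907, nat_lit 0, nat_lit 0, nat_lit 0, nat_lit 0, nat_lit 1000000, nat_lit 0, nat_lit 8186043999, [(nat_lit 6, [(nat_lit 6, nat_lit 1000)])],
 ⟨p009_k46, nat_lit 0, nat_lit 0, nat_lit 283, nat_lit 0, nat_lit 303260, [nat_lit 163873066667, nat_lit 203428000000], [], [nat_lit 545544945334, nat_lit 543216035968, nat_lit 539736781068, nat_lit 540152940007], nat_lit 1271250, nat_lit 1271250, nat_lit 111251, nat_lit 134400, nat_lit 0, nat_lit 0, [nat_lit 1100000, nat_lit 1442500], [nat_lit 31, nat_lit 40, nat_lit 20, nat_lit 80, nat_lit 3, nat_lit 215, nat_lit 10, nat_lit 9]⟩, ⟨p009_k64, nat_lit 0, nat_lit 0, nat_lit 0, nat_lit 0, nat_lit 315735, [nat_lit 29070000000, nat_lit 52326000000, nat_lit 63954000000], [], [nat_lit 4102783999, nat_lit 4669953999,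 nat_lit 0, nat_lit 587014000], nat_lit 1271250, nat_lit 1271250, nat_lit 111251, nat_lit 134400, nat_lit 0, nat_lit 0, [nat_lit 631250, nat_lit 1271250, nat_lit 1271250], [nat_lit 90, nat_lit 40, nat_lit 20, nat_lit 40]⟩,
 ⟨nat_lit 6304, nat_lit 6325, ⟨.ofNat (nat_lit 163998), .ofNat (nat_lit 172224), .ofNat (nat_lit 165066), .ofNat (nat_lit 173293), .ofNat (nat_lit 164850), .ofNat (nat_lit 173057), .ofNat (nat_lit 165918), .ofNat (nat_lit 174125)⟩, ⟨.ofNat (nat_lit 0), .ofNat (nat_lit 0), .ofNat (nat_lit 0), .ofNat (nat_lit 0), .ofNat (nat_lit 0), .ofNat (nat_lit 0), .ofNat (nat_lit 0), .ofNat (nat_lit 0)⟩⟩, []⟩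
noncomputable def p009_l171 : Lf2 := ⟨nat_lit 0, nat_lit 1, [nat_lit 19, nat_lit 5, nat_lit 5, nat_lit 20], false, nat_lit 0, nat_lit 0, nat_lit 0, nat_lit 0, ⟨nat_lit 1000, nat_lit 0, nat_lit 0, nat_lit 0, nat_lit 0, nat_lit 0, nat_lit 0, nat_lit 0, nat_lit 0, nat_lit 0, nat_lit 0, nat_lit 0, nat_lit 0, nat_lit 0, nat_lit 0, nat_lit 0, false, false⟩,
 nat_lit 0, nat_lit 8649, nat_lit 0, nat_lit 0, nat_lit 4601, nat_lit 0, nat_lit 0, nat_lit 0, nat_lit 0, nat_lit 1867, nat_lit 0, nat_lit 539, nat_lit 0, nat_lit 0, nat_lit 0, nat_lit 0, nat_lit 0, nat_lit 0, [],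
 ⟨p009_k59, nat_lit 0, nat_lit 0, nat_lit 283, nat_lit 0, nat_lit 305764, [nat_lit 4688000000, nat_lit 6250000000], [], [nat_lit 35248883105, nat_lit 35294470708, nat_lit 35168929138, nat_lit 35214382828], nat_lit 1271250, nat_lit 1271250, nat_lit 111251, nat_lit 134400, nat_lit 0, nat_lit 0, [nat_lit 1100000, nat_lit 1442500], [nat_lit 31, nat_lit 40, nat_lit 20, nat_lit 80, nat_lit 3, nat_lit 215, nat_lit 10, nat_lit 9]⟩, ⟨p009_k64, nat_lit 0, nat_lit 0, nat_lit 0, nat_lit 0, nat_lit 319925, [nat_lit 2637500000, nat_lit 5449500000, nat_lit 7089500000], [], [nat_lit 5970153600, nat_lit 6012263400, nat_lit 6035541441, nat_lit 6074042560], nat_lit 1271250, nat_lit 1271250, nat_lit 111251, nat_lit 134400, nat_lit 0, nat_lit 0, [nat_lit 631250, nat_lit 1271250, nat_lit 1271250], [nat_lit 90, nat_lit 40, nat_lit 20, nat_lit 40]⟩,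
 zbF0, []⟩
noncomputable def p009_l172 : Lf2 := ⟨nat_lit 0, nat_lit 1, [nat_lit 19, nat_lit 5, nat_lit 5, nat_lit 20], false, nat_lit 0, nat_lit 0, nat_lit 0, nat_lit 0, ⟨nat_lit 1000, nat_lit 0, nat_lit 0, nat_lit 0, nat_lit 0, nat_lit 0, nat_lit 0, nat_lit 0, nat_lit 0, nat_lit 0, nat_lit 0, nat_lit 0, nat_lit 0, nat_lit 0, nat_lit 0, nat_lit 0, false, false⟩,
 nat_lit 18477, nat_lit 0, nat_lit 0, nat_lit 0, nat_lit 9829, nat_lit 9400, nat_lit 0, nat_lit 532, nat_lit 0, nat_lit 9447, nat_lit 0, nat_lit 0, nat_lit 0, nat_lit 0, nat_lit 0, nat_lit 0, nat_lit 0, nat_lit 0, [],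
 ⟨p009_k59, nat_lit 0, nat_lit 0, nat_lit 283, nat_lit 0, nat_lit 305764, [nat_lit 13200000000, nat_lit 16890000000], [], [nat_lit 62482691359, nat_lit 62443732933, nat_lit 62134300854, nat_lit 62200069715], nat_lit 1271250, nat_lit 1271250, nat_lit 111251, nat_lit 134400, nat_lit 0, nat_lit 0, [nat_lit 1100000, nat_lit 1442500], [nat_lit 31, nat_lit 40, nat_lit 20, nat_lit 80, nat_lit 3, nat_lit 215, nat_lit 10, nat_lit 9]⟩, ⟨p009_k64, nat_lit 0, nat_lit 0, nat_lit 0, nat_lit 0, nat_lit 319925, [nat_lit 2637500000, nat_lit 5449500000, nat_lit 7089500000], [], [nat_lit 15126947685, nat_lit 15213441440, nat_lit 14809271269, nat_lit 14899633601], nat_lit 1271250, nat_lit 1271250, nat_lit 111251, nat_lit 134400, nat_lit 0, nat_lit 0, [nat_lit 631250, nat_lit 1271250, nat_lit 1271250], [nat_lit 90, nat_lit 40, nat_lit 20, nat_lit 40]⟩,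
 zbF0, []⟩
noncomputable def p009_l173 : Lf2 := ⟨nat_lit 0, nat_lit 1, [nat_lit 19, nat_lit 5, nat_lit 5, nat_lit 20], false, nat_lit 0, nat_lit 0, nat_lit 0, nat_lit 0, ⟨nat_lit 0, nat_lit 0, nat_lit 1000, nat_lit 5, nat_lit 68, nat_lit 0, nat_lit 0, nat_lit 0, nat_lit 0, nat_lit 215, nat_lit 43350, nat_lit 266, nat_lit 65120075, nat_lit 0, nat_lit 0, nat_lit 639609, false, false⟩,
 nat_lit 100000, nat_lit 87967, nat_lit 96552, nat_lit 0, nat_lit 100000, nat_lit 100000, nat_lit 44050, nat_lit 10183, nat_lit 0, nat_lit 60000, nat_lit 2907, nat_lit 0, nat_lit 0, nat_lit 0, nat_lit 0, nat_lit 1000000, nat_lit 0, nat_lit 8186043999, [(nat_lit 6, [(nat_lit 6, nat_lit 1000)])],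
 ⟨p009_k59, nat_lit 0, nat_lit 0, nat_lit 283, nat_lit 0, nat_lit 305764, [nat_lit 163905066667, nat_lit 203468000000], [], [nat_lit 541550266585, nat_lit 539243405017, nat_lit 535762283757, nat_lit 536178442698], nat_lit 1271250, nat_lit 1271250, nat_lit 111251, nat_lit 134400, nat_lit 0, nat_lit 0, [nat_lit 1100000, nat_lit 1442500], [nat_lit 31, nat_lit 40, nat_lit 20, nat_lit 80, nat_lit 3, nat_lit 215, nat_lit 10, nat_lit 9]⟩, ⟨p009_k64, nat_lit 0, nat_lit 0, nat_lit 0, nat_lit 0, nat_lit 319925, [nat_lit 29070000000, nat_lit 52326000000, nat_lit 63954000000], [], [nat_lit 4102783999, nat_lit 4669953999, nat_lit 0, nat_lit 587014000], nat_lit 1271250, nat_lit 1271250, nat_lit 111251, nat_lit 134400, nat_lit 0, nat_lit 0, [nat_lit 631250, nat_lit 1271250, nat_lit 1271250], [nat_lit 90, nat_lit 40, nat_lit 20, nat_lit 40]⟩,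
 ⟨nat_lit 6284, nat_lit 6305, ⟨.ofNat (nat_lit 164850), .ofNat (nat_lit 173057), .ofNat (nat_lit 165918), .ofNat (nat_lit 174125), .ofNat (nat_lit 165699), .ofNat (nat_lit 173888), .ofNat (nat_lit 166768), .ofNat (nat_lit 174956)⟩, ⟨.ofNat (nat_lit 0), .ofNat (nat_lit 0), .ofNat (nat_lit 0), .ofNat (nat_lit 0), .ofNat (nat_lit 0), .ofNat (nat_lit 0), .ofNat (nat_lit 0), .ofNat (nat_lit 0)⟩⟩, []⟩
noncomputable def p009_l174 : Lf2 := ⟨nat_lit 0, nat_lit 1, [nat_lit 19, nat_lit 5, nat_lit 5, nat_lit 20], false, nat_lit 0, nat_lit 0, nat_lit 0, nat_lit 0, ⟨nat_lit 1000, nat_lit 0, nat_lit 0, nat_lit 0, nat_lit 0, nat_lit 0, nat_lit 0, nat_lit 0, nat_lit 0, nat_lit 0, nat_lit 0, nat_lit 0, nat_lit 0, nat_lit 0, nat_lit 0, nat_lit 0, false, false⟩,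
 nat_lit 18477, nat_lit 0, nat_lit 0, nat_lit 0, nat_lit 9877, nat_lit 9400, nat_lit 0, nat_lit 524, nat_lit 0, nat_lit 4433, nat_lit 0, nat_lit 0, nat_lit 0, nat_lit 0, nat_lit 0, nat_lit 0, nat_lit 0, nat_lit 0, [],
 ⟨p009_k62, nat_lit 0, nat_lit 0, nat_lit 282, nat_lit 0, nat_lit 308241, [nat_lit 13072000001, nat_lit 16730000000], [], [nat_lit 61807481690, nat_lit 61779964826, nat_lit 61468614661, nat_lit 61534570043], nat_lit 1271250, nat_lit 1271250, nat_lit 111251, nat_lit 134400, nat_lit 0, nat_lit 0, [nat_lit 1100000, nat_lit 1442500], [nat_lit 31, nat_lit 40, nat_lit 20, nat_lit 80, nat_lit 3, nat_lit 215, nat_lit 10, nat_lit 9]⟩, ⟨p009_k64, nat_lit 0, nat_lit 0, nat_lit 0, nat_lit 0, nat_lit 324115, [nat_lit 2637500000, nat_lit 5449500000, nat_lit 7089500000], [], [nat_lit 17524266435, nat_lit 17610737915, nat_lit 17206590019, nat_lit 17292887011], nat_lit 1271250, nat_lit 1271250,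 nat_lit 111251, nat_lit 134400, nat_lit 0, nat_lit 0, [nat_lit 631250, nat_lit 1271250, nat_lit 1271250], [nat_lit 90, nat_lit 40, nat_lit 20, nat_lit 40]⟩,
 zbF0, []⟩
noncomputable def p009_l175 : Lf2 := ⟨nat_lit 0, nat_lit 1, [nat_lit 19, nat_lit 5, nat_lit 5, nat_lit 20], false, nat_lit 0, nat_lit 0, nat_lit 0, nat_lit 0, ⟨nat_lit 1000, nat_lit 0, nat_lit 0, nat_lit 0, nat_lit 0, nat_lit 0, nat_lit 0, nat_lit 0, nat_lit 0, nat_lit 0, nat_lit 0, nat_lit 0, nat_lit 0, nat_lit 0, nat_lit 0, nat_lit 0, false, false⟩,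
 nat_lit 47, nat_lit 8520, nat_lit 0, nat_lit 0, nat_lit 4535, nat_lit 23, nat_lit 0, nat_lit 0, nat_lit 0, nat_lit 1743, nat_lit 0, nat_lit 537, nat_lit 0, nat_lit 0, nat_lit 0, nat_lit 0, nat_lit 0, nat_lit 0, [],
 ⟨p009_k46, nat_lit 0, nat_lit 0, nat_lit 283, nat_lit 0, nat_lit 306864, [nat_lit 4688000000, nat_lit 6250000000], [], [nat_lit 35371496500, nat_lit 35416826441, nat_lit 35293739080, nat_lit 35338936305], nat_lit 1271250, nat_lit 1271250, nat_lit 111251, nat_lit 134400, nat_lit 0, nat_lit 0, [nat_lit 1100000, nat_lit 1442500], [nat_lit 31, nat_lit 40, nat_lit 20, nat_lit 80, nat_lit 3, nat_lit 215, nat_lit 10, nat_lit 9]⟩, ⟨p009_k65, nat_lit 0, nat_lit 0, nat_lit 0, nat_lit 0, nat_lit 317862, [nat_lit 2637500000, nat_lit 5449500000, nat_lit 7089500000], [], [nat_lit 6040639972, nat_lit 6082971676, nat_lit 6106188827, nat_lit 6144884703], nat_lit 1271250, nat_lit 1271250, nat_lit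 111251, nat_lit 134400, nat_lit 0, nat_lit 0, [nat_lit 631250, nat_lit 1271250, nat_lit 1271250], [nat_lit 90, nat_lit 40, nat_lit 20, nat_lit 40]⟩,
 zbF0, []⟩
noncomputable def p009_l176 : Lf2 := ⟨nat_lit 0, nat_lit 1, [nat_lit 19, nat_lit 5, nat_lit 5, nat_lit 20], false, nat_lit 0, nat_lit 0, nat_lit 0, nat_lit 0, ⟨nat_lit 1000, nat_lit 0, nat_lit 0, nat_lit 0, nat_lit 0, nat_lit 0, nat_lit 0, nat_lit 0, nat_lit 0, nat_lit 0, nat_lit 0, nat_lit 0, nat_lit 0, nat_lit 0, nat_lit 0, nat_lit 0, false, false⟩,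
 nat_lit 19543, nat_lit 0, nat_lit 0, nat_lit 0, nat_lit 10346, nat_lit 9993, nat_lit 0, nat_lit 599, nat_lit 0, nat_lit 10081, nat_lit 0, nat_lit 0, nat_lit 0, nat_lit 0, nat_lit 0, nat_lit 0, nat_lit 0, nat_lit 0, [],
 ⟨p009_k46, nat_lit 0, nat_lit 0, nat_lit 283, nat_lit 0, nat_lit 306864, [nat_lit 14272000001, nat_lit 18230000000], [], [nat_lit 66191614970, nat_lit 66154179086, nat_lit 65826800209, nat_lit 65894578050], nat_lit 1271250, nat_lit 1271250, nat_lit 111251, nat_lit 134400, nat_lit 0, nat_lit 0, [nat_lit 1100000, nat_lit 1442500], [nat_lit 31, nat_lit 40, nat_lit 20, nat_lit 80, nat_lit 3, nat_lit 215, nat_lit 10, nat_lit 9]⟩, ⟨p009_k65, nat_lit 0, nat_lit 0, nat_lit 0, nat_lit 0, nat_lit 317862, [nat_lit 2637500000, nat_lit 5449500000, nat_lit 7089500000], [], [nat_lit 14571998440, nat_lit 14672592369, nat_lit 14233984993, nat_lit 14334370566], nat_lit 1271250, nat_lit 1271250,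 nat_lit 111251, nat_lit 134400, nat_lit 0, nat_lit 0, [nat_lit 631250, nat_lit 1271250, nat_lit 1271250], [nat_lit 90, nat_lit 40, nat_lit 20, nat_lit 40]⟩,
 zbF0, []⟩
noncomputable def p009_l177 : Lf2 := ⟨nat_lit 0, nat_lit 1, [nat_lit 19, nat_lit 5, nat_lit 5, nat_lit 20], false, nat_lit 0, nat_lit 0, nat_lit 0, nat_lit 0, ⟨nat_lit 0, nat_lit 0, nat_lit 1000, nat_lit 5, nat_lit 68, nat_lit 0, nat_lit 0, nat_lit 0, nat_lit 0, nat_lit 215, nat_lit 43350, nat_lit 266, nat_lit 65115187, nat_lit 0, nat_lit 0, nat_lit 640902, false, false⟩,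
 nat_lit 100000, nat_lit 88889, nat_lit 95565, nat_lit 0, nat_lit 100000, nat_lit 99999, nat_lit 38757, nat_lit 10182, nat_lit 0, nat_lit 60000, nat_lit 3545, nat_lit 0, nat_lit 0, nat_lit 0, nat_lit 0, nat_lit 1000000, nat_lit 0, nat_lit 0, [(nat_lit 6, [(nat_lit 6, nat_lit 1000)])],
 ⟨p009_k46, nat_lit 0, nat_lit 0, nat_lit 283, nat_lit 0, nat_lit 306864, [nat_lit 163889066667, nat_lit 203448000000], [], [nat_lit 545596945334, nat_lit 543292035968, nat_lit 539812781068, nat_lit 540228940007], nat_lit 1271250, nat_lit 1271250, nat_lit 111251, nat_lit 134400, nat_lit 0, nat_lit 0, [nat_lit 1100000, nat_lit 1442500], [nat_lit 31, nat_lit 40, nat_lit 20, nat_lit 80, nat_lit 3, nat_lit 215, nat_lit 10, nat_lit 9]⟩, ⟨p009_k65, nat_lit 0, nat_lit 0, nat_lit 0, nat_lit 0, nat_lit 317862, [nat_lit 35450000000, nat_lit 63810000000, nat_lit 77990000000], [], [nat_lit 19567321086, nat_lit 20134485415,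 nat_lit 15463316127, nat_lit 16029615916], nat_lit 1271250, nat_lit 1271250, nat_lit 111251, nat_lit 134400, nat_lit 0, nat_lit 0, [nat_lit 631250, nat_lit 1271250, nat_lit 1271250], [nat_lit 90, nat_lit 40, nat_lit 20, nat_lit 40]⟩,
 ⟨nat_lit 6304, nat_lit 6325, ⟨.ofNat (nat_lit 165066), .ofNat (nat_lit 173293), .ofNat (nat_lit 166135), .ofNat (nat_lit 174361), .ofNat (nat_lit 165918), .ofNat (nat_lit 174125), .ofNat (nat_lit 166986), .ofNat (nat_lit 175194)⟩, ⟨.ofNat (nat_lit 0), .ofNat (nat_lit 0), .ofNat (nat_lit 0), .ofNat (nat_lit 0), .ofNat (nat_lit 0), .ofNat (nat_lit 0), .ofNat (nat_lit 0), .ofNat (nat_lit 0)⟩⟩, []⟩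
noncomputable def p009_l178 : Lf2 := ⟨nat_lit 0, nat_lit 1, [nat_lit 19, nat_lit 5, nat_lit 5, nat_lit 20], false, nat_lit 0, nat_lit 0, nat_lit 0, nat_lit 0, ⟨nat_lit 1000, nat_lit 0, nat_lit 0, nat_lit 0, nat_lit 0, nat_lit 0, nat_lit 0, nat_lit 0, nat_lit 0, nat_lit 0, nat_lit 0, nat_lit 0, nat_lit 0, nat_lit 0, nat_lit 0, nat_lit 0, false, false⟩,
 nat_lit 86, nat_lit 8563, nat_lit 0, nat_lit 0, nat_lit 4601, nat_lit 43, nat_lit 0, nat_lit 0, nat_lit 0, nat_lit 1763, nat_lit 0, nat_lit 535, nat_lit 0, nat_lit 0, nat_lit 0, nat_lit 0, nat_lit 0, nat_lit 0, [],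
 ⟨p009_k59, nat_lit 0, nat_lit 0, nat_lit 283, nat_lit 0, nat_lit 309328, [nat_lit 4688000000, nat_lit 6250000000], [], [nat_lit 35248883105, nat_lit 35294470708, nat_lit 35168929138, nat_lit 35214382828], nat_lit 1271250, nat_lit 1271250, nat_lit 111251, nat_lit 134400, nat_lit 0, nat_lit 0, [nat_lit 1100000, nat_lit 1442500], [nat_lit 31, nat_lit 40, nat_lit 20, nat_lit 80, nat_lit 3, nat_lit 215, nat_lit 10, nat_lit 9]⟩, ⟨p009_k65, nat_lit 0, nat_lit 0, nat_lit 0, nat_lit 0, nat_lit 322007, [nat_lit 2637500000, nat_lit 5449500000, nat_lit 7089500000], [], [nat_lit 6074838252, nat_lit 6112377303, nat_lit 6138837755, nat_lit 6177702984], nat_lit 1271250, nat_lit 1271250, nat_lit 111251, nat_lit 134400, nat_lit 0, nat_lit 0, [nat_lit 631250, nat_lit 1271250, nat_lit 1271250], [nat_lit 90, nat_lit 40, nat_lit 20, nat_lit 40]⟩,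
 zbF0, []⟩
noncomputable def p009_l179 : Lf2 := ⟨nat_lit 0, nat_lit 1, [nat_lit 19, nat_lit 5, nat_lit 5, nat_lit 20], false, nat_lit 0, nat_lit 0, nat_lit 0, nat_lit 0, ⟨nat_lit 1000, nat_lit 0, nat_lit 0, nat_lit 0, nat_lit 0, nat_lit 0, nat_lit 0, nat_lit 0, nat_lit 0, nat_lit 0, nat_lit 0, nat_lit 0, nat_lit 0, nat_lit 0, nat_lit 0, nat_lit 0, false, false⟩,
 nat_lit 19543, nat_lit 0, nat_lit 0, nat_lit 0, nat_lit 10397, nat_lit 9993, nat_lit 0, nat_lit 590, nat_lit 0, nat_lit 10081, nat_lit 0, nat_lit 0, nat_lit 0, nat_lit 0, nat_lit 0, nat_lit 0, nat_lit 0, nat_lit 0, [],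
 ⟨p009_k59, nat_lit 0, nat_lit 0, nat_lit 283, nat_lit 0, nat_lit 309328, [nat_lit 14128000001, nat_lit 18050000000], [], [nat_lit 65452037772, nat_lit 65408619877, nat_lit 65079208876, nat_lit 65147184894], nat_lit 1271250, nat_lit 1271250, nat_lit 111251, nat_lit 134400, nat_lit 0, nat_lit 0, [nat_lit 1100000, nat_lit 1442500], [nat_lit 31, nat_lit 40, nat_lit 20, nat_lit 80, nat_lit 3, nat_lit 215, nat_lit 10, nat_lit 9]⟩, ⟨p009_k65, nat_lit 0, nat_lit 0, nat_lit 0, nat_lit 0, nat_lit 322007, [nat_lit 2637500000, nat_lit 5449500000, nat_lit 7089500000], [], [nat_lit 14571998440, nat_lit 14672592369, nat_lit 14233984993, nat_lit 14334370566], nat_lit 1271250, nat_lit 1271250, nat_lit 111251, nat_lit 134400, nat_lit 0, nat_lit 0, [nat_lit 631250, nat_lit 1271250, nat_lit 1271250], [nat_lit 90, nat_lit 40, nat_lit 20, nat_lit 40]⟩,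
 zbF0, []⟩
noncomputable def p009_l180 : Lf2 := ⟨nat_lit 0, nat_lit 1, [nat_lit 19, nat_lit 5, nat_lit 5, nat_lit 20], false, nat_lit 0, nat_lit 0, nat_lit 0, nat_lit 0, ⟨nat_lit 0, nat_lit 0, nat_lit 1000, nat_lit 5, nat_lit 68, nat_lit 0, nat_lit 0, nat_lit 0, nat_lit 0, nat_lit 215, nat_lit 43350, nat_lit 266, nat_lit 65097035, nat_lit 0, nat_lit 0, nat_lit 645695, false, false⟩,
 nat_lit 100000, nat_lit 87967, nat_lit 95565, nat_lit 0, nat_lit 100000, nat_lit 99999, nat_lit 44661, nat_lit 10185, nat_lit 0, nat_lit 60000, nat_lit 3540, nat_lit 0, nat_lit 0, nat_lit 0, nat_lit 0, nat_lit 1000000, nat_lit 0, nat_lit 0, [(nat_lit 6, [(nat_lit 6, nat_lit 1000)])],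
 ⟨p009_k59, nat_lit 0, nat_lit 0, nat_lit 283, nat_lit 0, nat_lit 309328, [nat_lit 163937066667, nat_lit 203508000000], [], [nat_lit 541633263460, nat_lit 539332395642, nat_lit 535851274382, nat_lit 536267433323], nat_lit 1271250, nat_lit 1271250, nat_lit 111251, nat_lit 134400, nat_lit 0, nat_lit 0, [nat_lit 1100000, nat_lit 1442500], [nat_lit 31, nat_lit 40, nat_lit 20, nat_lit 80, nat_lit 3, nat_lit 215, nat_lit 10, nat_lit 9]⟩, ⟨p009_k65, nat_lit 0, nat_lit 0, nat_lit 0, nat_lit 0, nat_lit 322007, [nat_lit 35400000000, nat_lit 63720000000, nat_lit 77880000000], [], [nat_lit 19367321086, nat_lit 19934485415, nat_lit 15263316127, nat_lit 15849615916], nat_lit 1271250, nat_lit 1271250, nat_lit 111251, nat_lit 134400, nat_lit 0, nat_lit 0, [nat_lit 631250, nat_lit 1271250, nat_lit 1271250], [nat_lit 90, nat_lit 40, nat_lit 20, nat_lit 40]⟩,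
 ⟨nat_lit 6284, nat_lit 6305, ⟨.ofNat (nat_lit 165918), .ofNat (nat_lit 174125), .ofNat (nat_lit 166986), .ofNat (nat_lit 175194), .ofNat (nat_lit 166768), .ofNat (nat_lit 174956), .ofNat (nat_lit 167836), .ofNat (nat_lit 176024)⟩, ⟨.ofNat (nat_lit 0), .ofNat (nat_lit 0), .ofNat (nat_lit 0), .ofNat (nat_lit 0), .ofNat (nat_lit 0), .ofNat (nat_lit 0), .ofNat (nat_lit 0), .ofNat (nat_lit 0)⟩⟩, []⟩
noncomputable def p009_l181 : Lf2 := ⟨nat_lit 0, nat_lit 1, [nat_lit 19, nat_lit 5, nat_lit 5, nat_lit 20], false, nat_lit 0, nat_lit 0, nat_lit 0, nat_lit 0, ⟨nat_lit 1000, nat_lit 0, nat_lit 0, nat_lit 0, nat_lit 0, nat_lit 0, nat_lit 0, nat_lit 0, nat_lit 0, nat_lit 0, nat_lit 0, nat_lit 0, nat_lit 0, nat_lit 0, nat_lit 0, nat_lit 0, false, false⟩,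
 nat_lit 0, nat_lit 8567, nat_lit 0, nat_lit 0, nat_lit 4535, nat_lit 0, nat_lit 0, nat_lit 0, nat_lit 0, nat_lit 1744, nat_lit 0, nat_lit 516, nat_lit 0, nat_lit 0, nat_lit 0, nat_lit 0, nat_lit 0, nat_lit 0, [],
 ⟨p009_k46, nat_lit 0, nat_lit 0, nat_lit 283, nat_lit 0, nat_lit 310468, [nat_lit 4688000000, nat_lit 6250000000], [], [nat_lit 35371496500, nat_lit 35416826441, nat_lit 35293739080, nat_lit 35338936305], nat_lit 1271250, nat_lit 1271250, nat_lit 111251, nat_lit 134400, nat_lit 0, nat_lit 0, [nat_lit 1100000, nat_lit 1442500], [nat_lit 31, nat_lit 40, nat_lit 20, nat_lit 80, nat_lit 3, nat_lit 215, nat_lit 10, nat_lit 9]⟩, ⟨p009_k66, nat_lit 0, nat_lit 0, nat_lit 0, nat_lit 0, nat_lit 319964, [nat_lit 2637500000, nat_lit 5449500000, nat_lit 7089500000], [], [nat_lit 6459000800, nat_lit 6497556000, nat_lit 6526543681, nat_lit 6565044800], nat_lit 1271250, nat_lit 1271250, nat_lit 111251,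 nat_lit 134400, nat_lit 0, nat_lit 0, [nat_lit 631250, nat_lit 1271250, nat_lit 1271250], [nat_lit 90, nat_lit 40, nat_lit 20, nat_lit 40]⟩,
 zbF0, []⟩
noncomputable def p009_l182 : Lf2 := ⟨nat_lit 0, nat_lit 1, [nat_lit 19, nat_lit 5, nat_lit 5, nat_lit 20], false, nat_lit 0, nat_lit 0, nat_lit 0, nat_lit 0, ⟨nat_lit 1000, nat_lit 0, nat_lit 0, nat_lit 0, nat_lit 0, nat_lit 0, nat_lit 0, nat_lit 0, nat_lit 0, nat_lit 0, nat_lit 0, nat_lit 0, nat_lit 0, nat_lit 0, nat_lit 0, nat_lit 0, false, false⟩,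
 nat_lit 19400, nat_lit 0, nat_lit 0, nat_lit 0, nat_lit 10270, nat_lit 9969, nat_lit 0, nat_lit 591, nat_lit 0, nat_lit 9265, nat_lit 0, nat_lit 0, nat_lit 0, nat_lit 0, nat_lit 0, nat_lit 0, nat_lit 0, nat_lit 0, [],
 ⟨p009_k46, nat_lit 0, nat_lit 0, nat_lit 283, nat_lit 0, nat_lit 310468, [nat_lit 14144000001, nat_lit 18070000000], [], [nat_lit 65779893162, nat_lit 65739568382, nat_lit 65414861361, nat_lit 65482343878], nat_lit 1271250, nat_lit 1271250, nat_lit 111251, nat_lit 134400, nat_lit 0, nat_lit 0, [nat_lit 1100000, nat_lit 1442500], [nat_lit 31, nat_lit 40, nat_lit 20, nat_lit 80, nat_lit 3, nat_lit 215, nat_lit 10, nat_lit 9]⟩, ⟨p009_k66, nat_lit 0, nat_lit 0, nat_lit 0, nat_lit 0, nat_lit 319964, [nat_lit 2637500000, nat_lit 5449500000, nat_lit 7089500000], [], [nat_lit 14698394318, nat_lit 14798829601, nat_lit 14361152526, nat_lit 14461379811], nat_lit 1271250, nat_lit 1271250,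 nat_lit 111251, nat_lit 134400, nat_lit 0, nat_lit 0, [nat_lit 631250, nat_lit 1271250, nat_lit 1271250], [nat_lit 90, nat_lit 40, nat_lit 20, nat_lit 40]⟩,
 zbF0, []⟩
noncomputable def p009_l183 : Lf2 := ⟨nat_lit 0, nat_lit 1, [nat_lit 19, nat_lit 5, nat_lit 5, nat_lit 20], false, nat_lit 0, nat_lit 0, nat_lit 0, nat_lit 0, ⟨nat_lit 0, nat_lit 0, nat_lit 1000, nat_lit 5, nat_lit 68, nat_lit 0, nat_lit 0, nat_lit 0, nat_lit 0, nat_lit 215, nat_lit 43350, nat_lit 266, nat_lit 65092117, nat_lit 0, nat_lit 0, nat_lit 646990, false, false⟩,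
 nat_lit 100000, nat_lit 88889, nat_lit 94587, nat_lit 0, nat_lit 100000, nat_lit 100000, nat_lit 39702, nat_lit 10183, nat_lit 0, nat_lit 60000, nat_lit 4225, nat_lit 0, nat_lit 0, nat_lit 0, nat_lit 0, nat_lit 1000000, nat_lit 0, nat_lit 0, [(nat_lit 6, [(nat_lit 6, nat_lit 1000)])],
 ⟨p009_k46, nat_lit 0, nat_lit 0, nat_lit 283, nat_lit 0, nat_lit 310468, [nat_lit 163905066667, nat_lit 203468000000], [], [nat_lit 545648945334, nat_lit 543368035968, nat_lit 539888781068, nat_lit 540304940007], nat_lit 1271250, nat_lit 1271250, nat_lit 111251, nat_lit 134400, nat_lit 0, nat_lit 0, [nat_lit 1100000, nat_lit 1442500], [nat_lit 31, nat_lit 40, nat_lit 20, nat_lit 80, nat_lit 3, nat_lit 215, nat_lit 10, nat_lit 9]⟩, ⟨p009_k66, nat_lit 0, nat_lit 0, nat_lit 0, nat_lit 0, nat_lit 319964, [nat_lit 42250000000, nat_lit 76050000000, nat_lit 92950000000], [], [nat_lit 44708580000, nat_lit 45275750000,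 nat_lit 40603272000, nat_lit 41169180000], nat_lit 1271250, nat_lit 1271250, nat_lit 111251, nat_lit 134400, nat_lit 0, nat_lit 0, [nat_lit 631250, nat_lit 1271250, nat_lit 1271250], [nat_lit 90, nat_lit 40, nat_lit 20, nat_lit 40]⟩,
 ⟨nat_lit 6304, nat_lit 6325, ⟨.ofNat (nat_lit 166135), .ofNat (nat_lit 174361), .ofNat (nat_lit 167203), .ofNat (nat_lit 175430), .ofNat (nat_lit 166986), .ofNat (nat_lit 175194), .ofNat (nat_lit 168054), .ofNat (nat_lit 176262)⟩, ⟨.ofNat (nat_lit 0), .ofNat (nat_lit 0), .ofNat (nat_lit 0), .ofNat (nat_lit 0), .ofNat (nat_lit 0), .ofNat (nat_lit 0), .ofNat (nat_lit 0), .ofNat (nat_lit 0)⟩⟩, []⟩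
noncomputable def p009_l184 : Lf2 := ⟨nat_lit 0, nat_lit 1, [nat_lit 19, nat_lit 5, nat_lit 5, nat_lit 20], false, nat_lit 0, nat_lit 0, nat_lit 0, nat_lit 0, ⟨nat_lit 1000, nat_lit 0, nat_lit 0, nat_lit 0, nat_lit 0, nat_lit 0, nat_lit 0, nat_lit 0, nat_lit 0, nat_lit 0, nat_lit 0, nat_lit 0, nat_lit 0, nat_lit 0, nat_lit 0, nat_lit 0, false, false⟩,
 nat_lit 0, nat_lit 8649, nat_lit 0, nat_lit 0, nat_lit 4601, nat_lit 0, nat_lit 0, nat_lit 0, nat_lit 0, nat_lit 1763, nat_lit 0, nat_lit 513, nat_lit 0, nat_lit 0, nat_lit 0, nat_lit 0, nat_lit 0, nat_lit 0, [],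
 ⟨p009_k59, nat_lit 0, nat_lit 0, nat_lit 283, nat_lit 0, nat_lit 312892, [nat_lit 4688000000, nat_lit 6250000000], [], [nat_lit 35248883105, nat_lit 35294470708, nat_lit 35168929138, nat_lit 35214382828], nat_lit 1271250, nat_lit 1271250, nat_lit 111251, nat_lit 134400, nat_lit 0, nat_lit 0, [nat_lit 1100000, nat_lit 1442500], [nat_lit 31, nat_lit 40, nat_lit 20, nat_lit 80, nat_lit 3, nat_lit 215, nat_lit 10, nat_lit 9]⟩, ⟨p009_k66, nat_lit 0, nat_lit 0, nat_lit 0, nat_lit 0, nat_lit 324065, [nat_lit 2637500000, nat_lit 5449500000, nat_lit 7089500000], [], [nat_lit 6514186900, nat_lit 6551556000, nat_lit 6580543681, nat_lit 6619044800], nat_lit 1271250, nat_lit 1271250, nat_lit 111251, nat_lit 134400, nat_lit 0, nat_lit 0, [nat_lit 631250, nat_lit 1271250, nat_lit 1271250], [nat_lit 90, nat_lit 40, nat_lit 20, nat_lit 40]⟩,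
 zbF0, []⟩
noncomputable def p009_l185 : Lf2 := ⟨nat_lit 0, nat_lit 1, [nat_lit 19, nat_lit 5, nat_lit 5, nat_lit 20], false, nat_lit 0, nat_lit 0, nat_lit 0, nat_lit 0, ⟨nat_lit 1000, nat_lit 0, nat_lit 0, nat_lit 0, nat_lit 0, nat_lit 0, nat_lit 0, nat_lit 0, nat_lit 0, nat_lit 0, nat_lit 0, nat_lit 0, nat_lit 0, nat_lit 0, nat_lit 0, nat_lit 0, false, false⟩,
 nat_lit 19400, nat_lit 0, nat_lit 0, nat_lit 0, nat_lit 10320, nat_lit 9969, nat_lit 0, nat_lit 582, nat_lit 0, nat_lit 9265, nat_lit 0, nat_lit 0, nat_lit 0, nat_lit 0, nat_lit 0, nat_lit 0, nat_lit 0, nat_lit 0, [],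
 ⟨p009_k59, nat_lit 0, nat_lit 0, nat_lit 283, nat_lit 0, nat_lit 312892, [nat_lit 14000000001, nat_lit 17890000000], [], [nat_lit 65042362291, nat_lit 64996253162, nat_lit 64669550570, nat_lit 64737227379], nat_lit 1271250, nat_lit 1271250, nat_lit 111251, nat_lit 134400, nat_lit 0, nat_lit 0, [nat_lit 1100000, nat_lit 1442500], [nat_lit 31, nat_lit 40, nat_lit 20, nat_lit 80, nat_lit 3, nat_lit 215, nat_lit 10, nat_lit 9]⟩, ⟨p009_k66, nat_lit 0, nat_lit 0, nat_lit 0, nat_lit 0, nat_lit 324065, [nat_lit 2637500000, nat_lit 5449500000, nat_lit 7089500000], [], [nat_lit 14698394318, nat_lit 14798829601, nat_lit 14361152526, nat_lit 14461379811], nat_lit 1271250, nat_lit 1271250, nat_lit 111251, nat_lit 134400, nat_lit 0, nat_lit 0, [nat_lit 631250, nat_lit 1271250, nat_lit 1271250], [nat_lit 90, nat_lit 40, nat_lit 20, nat_lit 40]⟩,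
 zbF0, []⟩
noncomputable def p009_l186 : Lf2 := ⟨nat_lit 0, nat_lit 1, [nat_lit 19, nat_lit 5, nat_lit 5, nat_lit 20], false, nat_lit 0, nat_lit 0, nat_lit 0, nat_lit 0, ⟨nat_lit 0, nat_lit 0, nat_lit 1000, nat_lit 5, nat_lit 69, nat_lit 0, nat_lit 0, nat_lit 0, nat_lit 0, nat_lit 215, nat_lit 45067, nat_lit 267, nat_lit 65073870, nat_lit 0, nat_lit 0, nat_lit 651791, false, false⟩,
 nat_lit 100000, nat_lit 87967, nat_lit 94587, nat_lit 0, nat_lit 100000, nat_lit 100000, nat_lit 45820, nat_lit 10188, nat_lit 0, nat_lit 60000, nat_lit 8068, nat_lit 0, nat_lit 0, nat_lit 0, nat_lit 0, nat_lit 1000000, nat_lit 0, nat_lit 0, [(nat_lit 6, [(nat_lit 6, nat_lit 1000)])],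
 ⟨p009_k59, nat_lit 0, nat_lit 0, nat_lit 283, nat_lit 0, nat_lit 312892, [nat_lit 163985066667, nat_lit 203568000000], [], [nat_lit 541749422835, nat_lit 539440873767, nat_lit 535959752507, nat_lit 536375911448], nat_lit 1271250, nat_lit 1271250, nat_lit 111251, nat_lit 134400, nat_lit 0, nat_lit 0, [nat_lit 1100000, nat_lit 1442500], [nat_lit 31, nat_lit 40, nat_lit 20, nat_lit 80, nat_lit 3, nat_lit 215, nat_lit 10, nat_lit 9]⟩, ⟨p009_k66, nat_lit 0, nat_lit 0, nat_lit 0, nat_lit 0, nat_lit 324065, [nat_lit 80680000000, nat_lit 145224000000, nat_lit 177496000000], [], [nat_lit 198428580000, nat_lit 198995750000, nat_lit 194379964000, nat_lit 194891650000], nat_lit 1271250, nat_lit 1271250, nat_lit 111251, nat_lit 134400, nat_lit 0, nat_lit 0, [nat_lit 631250, nat_lit 1271250, nat_lit 1271250], [nat_lit 90, nat_lit 40, nat_lit 20, nat_lit 40]⟩,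
 ⟨nat_lit 6284, nat_lit 6305, ⟨.ofNat (nat_lit 166986), .ofNat (nat_lit 175194), .ofNat (nat_lit 168054), .ofNat (nat_lit 176262), .ofNat (nat_lit 167836), .ofNat (nat_lit 176024), .ofNat (nat_lit 168904), .ofNat (nat_lit 177092)⟩, ⟨.ofNat (nat_lit 0), .ofNat (nat_lit 0), .ofNat (nat_lit 0), .ofNat (nat_lit 0), .ofNat (nat_lit 0), .ofNat (nat_lit 0), .ofNat (nat_lit 0), .ofNat (nat_lit 0)⟩⟩, []⟩
noncomputable def p009_l187 : Lf2 := ⟨nat_lit 0, nat_lit 1, [nat_lit 19, nat_lit 5, nat_lit 5, nat_lit 20], false, nat_lit 0, nat_lit 0, nat_lit 0, nat_lit 0, ⟨nat_lit 1000, nat_lit 0, nat_lit 0, nat_lit 0, nat_lit 0, nat_lit 0, nat_lit 0, nat_lit 0, nat_lit 0, nat_lit 0, nat_lit 0, nat_lit 0, nat_lit 0, nat_lit 0, nat_lit 0, nat_lit 0, false, false⟩,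
 nat_lit 18346, nat_lit 0, nat_lit 0, nat_lit 0, nat_lit 9807, nat_lit 9381, nat_lit 0, nat_lit 517, nat_lit 0, nat_lit 4077, nat_lit 0, nat_lit 0, nat_lit 0, nat_lit 0, nat_lit 0, nat_lit 0, nat_lit 0, nat_lit 0, [],
 ⟨p009_k62, nat_lit 0, nat_lit 0, nat_lit 283, nat_lit 0, nat_lit 311766, [nat_lit 12960000000, nat_lit 16590000000], [], [nat_lit 61451040372, nat_lit 61425539985, nat_lit 61116653282, nat_lit 61182336655], nat_lit 1271250, nat_lit 1271250, nat_lit 111251, nat_lit 134400, nat_lit 0, nat_lit 0, [nat_lit 1100000, nat_lit 1442500], [nat_lit 31, nat_lit 40, nat_lit 20, nat_lit 80, nat_lit 3, nat_lit 215, nat_lit 10, nat_lit 9]⟩, ⟨p009_k65, nat_lit 0, nat_lit 0, nat_lit 0, nat_lit 0, nat_lit 326152, [nat_lit 2637500000, nat_lit 5449500000, nat_lit 7089500000], [], [nat_lit 17632632923, nat_lit 17718996640, nat_lit 17315561787, nat_lit 17401751257], nat_lit 1271250, nat_lit 1271250,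 nat_lit 111251, nat_lit 134400, nat_lit 0, nat_lit 0, [nat_lit 631250, nat_lit 1271250, nat_lit 1271250], [nat_lit 90, nat_lit 40, nat_lit 20, nat_lit 40]⟩,
 zbF0, []⟩
noncomputable def p009_l188 : Lf2 := ⟨nat_lit 0, nat_lit 1, [nat_lit 19, nat_lit 5, nat_lit 5, nat_lit 20], false, nat_lit 0, nat_lit 0, nat_lit 0, nat_lit 0, ⟨nat_lit 1000, nat_lit 0, nat_lit 0, nat_lit 0, nat_lit 0, nat_lit 0, nat_lit 0, nat_lit 0, nat_lit 0, nat_lit 0, nat_lit 0, nat_lit 0, nat_lit 0, nat_lit 0, nat_lit 0, nat_lit 0, false, false⟩,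
 nat_lit 18094, nat_lit 0, nat_lit 0, nat_lit 0, nat_lit 9673, nat_lit 9298, nat_lit 0, nat_lit 503, nat_lit 0, nat_lit 3994, nat_lit 0, nat_lit 0, nat_lit 0, nat_lit 0, nat_lit 0, nat_lit 0, nat_lit 0, nat_lit 0, [],
 ⟨p009_k62, nat_lit 0, nat_lit 0, nat_lit 283, nat_lit 0, nat_lit 315290, [nat_lit 12736000000, nat_lit 16310000000], [], [nat_lit 60737509853, nat_lit 60701469577, nat_lit 60397298645, nat_lit 60462461315], nat_lit 1271250, nat_lit 1271250, nat_lit 111251, nat_lit 134400, nat_lit 0, nat_lit 0, [nat_lit 1100000, nat_lit 1442500], [nat_lit 31, nat_lit 40, nat_lit 20, nat_lit 80, nat_lit 3, nat_lit 215, nat_lit 10, nat_lit 9]⟩, ⟨p009_k66, nat_lit 0, nat_lit 0, nat_lit 0, nat_lit 0, nat_lit 328166, [nat_lit 2637500000, nat_lit 5449500000, nat_lit 7089500000], [], [nat_lit 17662464769, nat_lit 17748357735, nat_lit 17348626791, nat_lit 17434346557], nat_lit 1271250, nat_lit 1271250,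 nat_lit 111251, nat_lit 134400, nat_lit 0, nat_lit 0, [nat_lit 631250, nat_lit 1271250, nat_lit 1271250], [nat_lit 90, nat_lit 40, nat_lit 20, nat_lit 40]⟩,
 zbF0, []⟩
noncomputable def p009_l189 : Lf2 := ⟨nat_lit 0, nat_lit 1, [nat_lit 19, nat_lit 5, nat_lit 5, nat_lit 20], false, nat_lit 0, nat_lit 0, nat_lit 0, nat_lit 0, ⟨nat_lit 1000, nat_lit 0, nat_lit 0, nat_lit 0, nat_lit 0, nat_lit 0, nat_lit 0, nat_lit 0, nat_lit 0, nat_lit 0, nat_lit 0, nat_lit 0, nat_lit 0, nat_lit 0, nat_lit 0, nat_lit 0, false, false⟩,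
 nat_lit 18780, nat_lit 0, nat_lit 0, nat_lit 0, nat_lit 9942, nat_lit 9458, nat_lit 0, nat_lit 516, nat_lit 0, nat_lit 5445, nat_lit 0, nat_lit 0, nat_lit 0, nat_lit 0, nat_lit 0, nat_lit 0, nat_lit 0, nat_lit 0, [],
 ⟨p009_k46, nat_lit 0, nat_lit 0, nat_lit 282, nat_lit 0, nat_lit 318427, [nat_lit 12944000001, nat_lit 16570000000], [], [nat_lit 60866576178, nat_lit 60759643901, nat_lit 60067546049, nat_lit 60264784493], nat_lit 1271250, nat_lit 1271250, nat_lit 134400, nat_lit 181601, nat_lit 0, nat_lit 0, [nat_lit 1100000, nat_lit 1442500], [nat_lit 31, nat_lit 40, nat_lit 20, nat_lit 80, nat_lit 3, nat_lit 215, nat_lit 10, nat_lit 9]⟩, ⟨p009_k54, nat_lit 0, nat_lit 0, nat_lit 0, nat_lit 0, nat_lit 334945, [nat_lit 2637500000, nat_lit 5449500000, nat_lit 7089500000], [], [nat_lit 16902300527, nat_lit 17335426620, nat_lit 16262889345, nat_lit 16694263239], nat_lit 1271250, nat_lit 1271250,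 nat_lit 134400, nat_lit 181601, nat_lit 0, nat_lit 0, [nat_lit 631250, nat_lit 1271250, nat_lit 1271250], [nat_lit 90, nat_lit 40, nat_lit 20, nat_lit 40]⟩,
 zbF0, []⟩
noncomputable def b_NL_600_550_0_16 : St := ⟨false, nat_lit 1, nat_lit 1, nat_lit 1, nat_lit 20, nat_lit 240, nat_lit 243, nat_lit 230, nat_lit 235, nat_lit 20, nat_lit 32, nat_lit 0, nat_lit 0, nat_lit 0, nat_lit 0, nat_lit 0, nat_lit 0, nat_lit 0, nat_lit 4, nat_lit 0, nat_lit 0, nat_lit 0, nat_lit 800⟩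
theorem d_NL_600_550_0_16 (h : EB TB.env) : Dead b_NL_600_550_0_16 := chkB_sound0 h (T :=
(.spl (nat_lit 7) (nat_lit 600)
(.leaf p009_l150)
(.spl (nat_lit 2) (nat_lit 24)
(.spl (nat_lit 1) (nat_lit 233)
(.spl (nat_lit 1) (nat_lit 232)
(.spl (nat_lit 0) (nat_lit 242)
(.spl (nat_lit 1) (nat_lit 231)
(.spl (nat_lit 0) (nat_lit 241)
(.spl (nat_lit 8) (nat_lit 400)
(.spl (nat_lit 8) (nat_lit 200)
(.leaf p009_l151)
(.leaf p009_l152))
(.leaf p009_l153))
(.spl (nat_lit 8) (nat_lit 400)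
(.spl (nat_lit 8) (nat_lit 200)
(.leaf p009_l154)
(.leaf p009_l155))
(.leaf p009_l156)))
(.spl (nat_lit 0) (nat_lit 241)
(.spl (nat_lit 8) (nat_lit 400)
(.spl (nat_lit 8) (nat_lit 200)
(.leaf p009_l157)
(.leaf p009_l158))
(.leaf p009_l159))
(.spl (nat_lit 8) (nat_lit 400)
(.spl (nat_lit 8) (nat_lit 200)
(.leaf p009_l160)
(.leaf p009_l161))
(.leaf p009_l162))))
(.spl (nat_lit 1) (nat_lit 231)
(.spl (nat_lit 8) (nat_lit 400)
(.spl (nat_lit 8) (nat_lit 200)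
(.leaf p009_l163)
(.leaf p009_l164))
(.leaf p009_l165))
(.spl (nat_lit 8) (nat_lit 400)
(.leaf p009_l166)
(.leaf p009_l167))))
(.spl (nat_lit 0) (nat_lit 242)
(.spl (nat_lit 0) (nat_lit 241)
(.spl (nat_lit 8) (nat_lit 400)
(.spl (nat_lit 8) (nat_lit 200)
(.leaf p009_l168)
(.leaf p009_l169))
(.leaf p009_l170))
(.spl (nat_lit 8) (nat_lit 400)
(.spl (nat_lit 8) (nat_lit 200)
(.leaf p009_l171)
(.leaf p009_l172))
(.leaf p009_l173)))
(.leaf p009_l174)))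
(.spl (nat_lit 0) (nat_lit 242)
(.spl (nat_lit 1) (nat_lit 234)
(.spl (nat_lit 0) (nat_lit 241)
(.spl (nat_lit 8) (nat_lit 400)
(.spl (nat_lit 8) (nat_lit 200)
(.leaf p009_l175)
(.leaf p009_l176))
(.leaf p009_l177))
(.spl (nat_lit 8) (nat_lit 400)
(.spl (nat_lit 8) (nat_lit 200)
(.leaf p009_l178)
(.leaf p009_l179))
(.leaf p009_l180)))
(.spl (nat_lit 0) (nat_lit 241)
(.spl (nat_lit 8) (nat_lit 400)
(.spl (nat_lit 8) (nat_lit 200)
(.leaf p009_l181)
(.leaf p009_l182))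
(.leaf p009_l183))
(.spl (nat_lit 8) (nat_lit 400)
(.spl (nat_lit 8) (nat_lit 200)
(.leaf p009_l184)
(.leaf p009_l185))
(.leaf p009_l186))))
(.spl (nat_lit 1) (nat_lit 234)
(.leaf p009_l187)
(.leaf p009_l188))))
(.leaf p009_l189)))) (by decide +kernel)
noncomputable def p009_l190 : Lf2 := ⟨nat_lit 0, nat_lit 1, [nat_lit 19, nat_lit 5, nat_lit 5, nat_lit 20], false, nat_lit 0, nat_lit 0, nat_lit 0, nat_lit 0, ⟨nat_lit 1000, nat_lit 0, nat_lit 0, nat_lit 0, nat_lit 0, nat_lit 0, nat_lit 0, nat_lit 0, nat_lit 0, nat_lit 0, nat_lit 0, nat_lit 0, nat_lit 0, nat_lit 0, nat_lit 0, nat_lit 0, false, false⟩,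
 nat_lit 17718, nat_lit 0, nat_lit 0, nat_lit 0, nat_lit 9380, nat_lit 9151, nat_lit 0, nat_lit 0, nat_lit 0, nat_lit 3894, nat_lit 0, nat_lit 0, nat_lit 0, nat_lit 0, nat_lit 0, nat_lit 0, nat_lit 0, nat_lit 0, [],
 ⟨p009_k55, nat_lit 0, nat_lit 0, nat_lit 0, nat_lit 0, nat_lit 336968, [nat_lit 2032000001, nat_lit 4688000000, nat_lit 6250000000], [], [nat_lit 26963099120, nat_lit 26246536532, nat_lit 24085885424, nat_lit 23372463260], nat_lit 1271250, nat_lit 1271250, nat_lit 111251, nat_lit 181601, nat_lit 0, nat_lit 0, [nat_lit 490000, nat_lit 1100000, nat_lit 1442500], [nat_lit 6, nat_lit 40, nat_lit 20, nat_lit 40]⟩, ⟨p009_k56, nat_lit 0, nat_lit 0, nat_lit 0, nat_lit 0, nat_lit 345519, [nat_lit 2637500000, nat_lit 5449500000, nat_lit 7089500000], [], [nat_lit 17790844883, nat_lit 18216141016, nat_lit 16866921321, nat_lit 17289647270], nat_lit 1271250, nat_lit 1271250, nat_lit 111251, nat_lit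 181601, nat_lit 0, nat_lit 0, [nat_lit 631250, nat_lit 1271250, nat_lit 1271250], [nat_lit 90, nat_lit 40, nat_lit 20, nat_lit 40]⟩,
 zbF0, []⟩
noncomputable def p009_l191 : Lf2 := ⟨nat_lit 0, nat_lit 1, [nat_lit 19, nat_lit 5, nat_lit 5, nat_lit 20], false, nat_lit 0, nat_lit 0, nat_lit 0, nat_lit 0, ⟨nat_lit 1000, nat_lit 0, nat_lit 0, nat_lit 0, nat_lit 0, nat_lit 0, nat_lit 0, nat_lit 0, nat_lit 0, nat_lit 0, nat_lit 0, nat_lit 0, nat_lit 0, nat_lit 0, nat_lit 0, nat_lit 0, false, false⟩,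
 nat_lit 0, nat_lit 8567, nat_lit 0, nat_lit 0, nat_lit 4535, nat_lit 0, nat_lit 0, nat_lit 0, nat_lit 0, nat_lit 1744, nat_lit 0, nat_lit 499, nat_lit 0, nat_lit 0, nat_lit 0, nat_lit 0, nat_lit 0, nat_lit 0, [],
 ⟨p009_k46, nat_lit 0, nat_lit 0, nat_lit 284, nat_lit 0, nat_lit 314194, [nat_lit 4688000000, nat_lit 6250000000], [], [nat_lit 35371496500, nat_lit 35416826441, nat_lit 35293739080, nat_lit 35338936305], nat_lit 1271250, nat_lit 1271250, nat_lit 111251, nat_lit 134400, nat_lit 0, nat_lit 0, [nat_lit 1100000, nat_lit 1442500], [nat_lit 31, nat_lit 40, nat_lit 20, nat_lit 80, nat_lit 3, nat_lit 215, nat_lit 10, nat_lit 9]⟩, ⟨p009_k56, nat_lit 0, nat_lit 0, nat_lit 0, nat_lit 0, nat_lit 322167, [nat_lit 2637500000, nat_lit 5449500000, nat_lit 7089500000], [], [nat_lit 6804414000, nat_lit 6842111200, nat_lit 6871044800, nat_lit 6909545921], nat_lit 1271250, nat_lit 1271250, nat_lit 111251,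 nat_lit 134400, nat_lit 0, nat_lit 0, [nat_lit 631250, nat_lit 1271250, nat_lit 1271250], [nat_lit 90, nat_lit 40, nat_lit 20, nat_lit 40]⟩,
 zbF0, []⟩
noncomputable def p009_l192 : Lf2 := ⟨nat_lit 0, nat_lit 1, [nat_lit 19, nat_lit 5, nat_lit 5, nat_lit 20], false, nat_lit 0, nat_lit 0, nat_lit 0, nat_lit 0, ⟨nat_lit 1000, nat_lit 0, nat_lit 0, nat_lit 0, nat_lit 0, nat_lit 0, nat_lit 0, nat_lit 0, nat_lit 0, nat_lit 0, nat_lit 0, nat_lit 0, nat_lit 0, nat_lit 0, nat_lit 0, nat_lit 0, false, false⟩,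
 nat_lit 19258, nat_lit 0, nat_lit 0, nat_lit 0, nat_lit 10195, nat_lit 9946, nat_lit 0, nat_lit 583, nat_lit 0, nat_lit 8656, nat_lit 0, nat_lit 0, nat_lit 0, nat_lit 0, nat_lit 0, nat_lit 0, nat_lit 0, nat_lit 0, [],
 ⟨p009_k46, nat_lit 0, nat_lit 0, nat_lit 284, nat_lit 0, nat_lit 314194, [nat_lit 14016000001, nat_lit 17910000000], [], [nat_lit 65368115062, nat_lit 65322413082, nat_lit 65000342761, nat_lit 65067533840], nat_lit 1271250, nat_lit 1271250, nat_lit 111251, nat_lit 134400, nat_lit 0, nat_lit 0, [nat_lit 1100000, nat_lit 1442500], [nat_lit 31, nat_lit 40, nat_lit 20, nat_lit 80, nat_lit 3, nat_lit 215, nat_lit 10, nat_lit 9]⟩, ⟨p009_k56, nat_lit 0, nat_lit 0, nat_lit 0, nat_lit 0, nat_lit 322167, [nat_lit 2637500000, nat_lit 5449500000, nat_lit 7089500000], [], [nat_lit 14823404434, nat_lit 14923687684, nat_lit 14486894164, nat_lit 14586969758], nat_lit 1271250, nat_lit 1271250,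 nat_lit 111251, nat_lit 134400, nat_lit 0, nat_lit 0, [nat_lit 631250, nat_lit 1271250, nat_lit 1271250], [nat_lit 90, nat_lit 40, nat_lit 20, nat_lit 40]⟩,
 zbF0, []⟩
noncomputable def p009_l193 : Lf2 := ⟨nat_lit 0, nat_lit 1, [nat_lit 19, nat_lit 5, nat_lit 5, nat_lit 20], false, nat_lit 0, nat_lit 0, nat_lit 0, nat_lit 0, ⟨nat_lit 0, nat_lit 0, nat_lit 1000, nat_lit 5, nat_lit 69, nat_lit 0, nat_lit 0, nat_lit 0, nat_lit 0, nat_lit 215, nat_lit 45067, nat_lit 267, nat_lit 65068919, nat_lit 0, nat_lit 0, nat_lit 653091, false, false⟩,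
 nat_lit 100000, nat_lit 88889, nat_lit 93617, nat_lit 0, nat_lit 100000, nat_lit 99999, nat_lit 39530, nat_lit 10183, nat_lit 0, nat_lit 60000, nat_lit 8073, nat_lit 0, nat_lit 0, nat_lit 0, nat_lit 0, nat_lit 1000000, nat_lit 0, nat_lit 0, [(nat_lit 6, [(nat_lit 6, nat_lit 1000)])],
 ⟨p009_k46, nat_lit 0, nat_lit 0, nat_lit 284, nat_lit 0, nat_lit 314194, [nat_lit 163905066667, nat_lit 203468000000], [], [nat_lit 545648945334, nat_lit 543368035968, nat_lit 539888781068, nat_lit 540304940007], nat_lit 1271250, nat_lit 1271250, nat_lit 111251, nat_lit 134400, nat_lit 0, nat_lit 0, [nat_lit 1100000, nat_lit 1442500], [nat_lit 31, nat_lit 40, nat_lit 20, nat_lit 80, nat_lit 3, nat_lit 215, nat_lit 10, nat_lit 9]⟩, ⟨p009_k56, nat_lit 0, nat_lit 0, nat_lit 0, nat_lit 0, nat_lit 322167, [nat_lit 80730000000, nat_lit 145314000000, nat_lit 177606000000], [], [nat_lit 196946649743, nat_lit 197513814071,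 nat_lit 192893397584, nat_lit 193406023150], nat_lit 1271250, nat_lit 1271250, nat_lit 111251, nat_lit 134400, nat_lit 0, nat_lit 0, [nat_lit 631250, nat_lit 1271250, nat_lit 1271250], [nat_lit 90, nat_lit 40, nat_lit 20, nat_lit 40]⟩,
 ⟨nat_lit 6304, nat_lit 6325, ⟨.ofNat (nat_lit 167203), .ofNat (nat_lit 175430), .ofNat (nat_lit 168272), .ofNat (nat_lit 176498), .ofNat (nat_lit 168054), .ofNat (nat_lit 176262), .ofNat (nat_lit 169123), .ofNat (nat_lit 177330)⟩, ⟨.ofNat (nat_lit 0), .ofNat (nat_lit 0), .ofNat (nat_lit 0), .ofNat (nat_lit 0), .ofNat (nat_lit 0), .ofNat (nat_lit 0), .ofNat (nat_lit 0), .ofNat (nat_lit 0)⟩⟩, []⟩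
noncomputable def p009_l194 : Lf2 := ⟨nat_lit 0, nat_lit 1, [nat_lit 19, nat_lit 5, nat_lit 5, nat_lit 20], false, nat_lit 0, nat_lit 0, nat_lit 0, nat_lit 0, ⟨nat_lit 1000, nat_lit 0, nat_lit 0, nat_lit 0, nat_lit 0, nat_lit 0, nat_lit 0, nat_lit 0, nat_lit 0, nat_lit 0, nat_lit 0, nat_lit 0, nat_lit 0, nat_lit 0, nat_lit 0, nat_lit 0, false, false⟩,
 nat_lit 0, nat_lit 8649, nat_lit 0, nat_lit 0, nat_lit 4601, nat_lit 0, nat_lit 0, nat_lit 0, nat_lit 0, nat_lit 1764, nat_lit 0, nat_lit 496, nat_lit 0, nat_lit 0, nat_lit 0, nat_lit 0, nat_lit 0, nat_lit 0, [],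
 ⟨p009_k59, nat_lit 0, nat_lit 0, nat_lit 283, nat_lit 0, nat_lit 316577, [nat_lit 4688000000, nat_lit 6250000000], [], [nat_lit 35248883105, nat_lit 35294470708, nat_lit 35168929138, nat_lit 35214382828], nat_lit 1271250, nat_lit 1271250, nat_lit 111251, nat_lit 134400, nat_lit 0, nat_lit 0, [nat_lit 1100000, nat_lit 1442500], [nat_lit 31, nat_lit 40, nat_lit 20, nat_lit 80, nat_lit 3, nat_lit 215, nat_lit 10, nat_lit 9]⟩, ⟨p009_k56, nat_lit 0, nat_lit 0, nat_lit 0, nat_lit 0, nat_lit 326224, [nat_lit 2637500000, nat_lit 5449500000, nat_lit 7089500000], [], [nat_lit 6858414000, nat_lit 6896111200, nat_lit 6925044800, nat_lit 6963545921], nat_lit 1271250, nat_lit 1271250, nat_lit 111251, nat_lit 134400, nat_lit 0, nat_lit 0, [nat_lit 631250, nat_lit 1271250, nat_lit 1271250], [nat_lit 90, nat_lit 40, nat_lit 20, nat_lit 40]⟩,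
 zbF0, []⟩
noncomputable def p009_l195 : Lf2 := ⟨nat_lit 0, nat_lit 1, [nat_lit 19, nat_lit 5, nat_lit 5, nat_lit 20], false, nat_lit 0, nat_lit 0, nat_lit 0, nat_lit 0, ⟨nat_lit 1000, nat_lit 0, nat_lit 0, nat_lit 0, nat_lit 0, nat_lit 0, nat_lit 0, nat_lit 0, nat_lit 0, nat_lit 0, nat_lit 0, nat_lit 0, nat_lit 0, nat_lit 0, nat_lit 0, nat_lit 0, false, false⟩,
 nat_lit 19258, nat_lit 0, nat_lit 0, nat_lit 0, nat_lit 10245, nat_lit 9946, nat_lit 0, nat_lit 575, nat_lit 0, nat_lit 8656, nat_lit 0, nat_lit 0, nat_lit 0, nat_lit 0, nat_lit 0, nat_lit 0, nat_lit 0, nat_lit 0, [],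
 ⟨p009_k59, nat_lit 0, nat_lit 0, nat_lit 283, nat_lit 0, nat_lit 316577, [nat_lit 13888000001, nat_lit 17750000000], [], [nat_lit 64684522536, nat_lit 64654805062, nat_lit 64330740532, nat_lit 64398125903], nat_lit 1271250, nat_lit 1271250, nat_lit 111251, nat_lit 134400, nat_lit 0, nat_lit 0, [nat_lit 1100000, nat_lit 1442500], [nat_lit 31, nat_lit 40, nat_lit 20, nat_lit 80, nat_lit 3, nat_lit 215, nat_lit 10, nat_lit 9]⟩, ⟨p009_k56, nat_lit 0, nat_lit 0, nat_lit 0, nat_lit 0, nat_lit 326224, [nat_lit 2637500000, nat_lit 5449500000, nat_lit 7089500000], [], [nat_lit 14823404434, nat_lit 14923687684, nat_lit 14486894164, nat_lit 14586969758], nat_lit 1271250, nat_lit 1271250, nat_lit 111251, nat_lit 134400, nat_lit 0, nat_lit 0, [nat_lit 631250, nat_lit 1271250, nat_lit 1271250], [nat_lit 90, nat_lit 40, nat_lit 20, nat_lit 40]⟩,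
 zbF0, []⟩
noncomputable def p009_l196 : Lf2 := ⟨nat_lit 0, nat_lit 1, [nat_lit 19, nat_lit 5, nat_lit 5, nat_lit 20], false, nat_lit 0, nat_lit 0, nat_lit 0, nat_lit 0, ⟨nat_lit 0, nat_lit 0, nat_lit 1000, nat_lit 5, nat_lit 69, nat_lit 0, nat_lit 0, nat_lit 0, nat_lit 0, nat_lit 215, nat_lit 45067, nat_lit 267, nat_lit 65050574, nat_lit 0, nat_lit 0, nat_lit 657900, false, false⟩,
 nat_lit 100000, nat_lit 87967, nat_lit 93617, nat_lit 0, nat_lit 100000, nat_lit 99999, nat_lit 45651, nat_lit 10189, nat_lit 0, nat_lit 60000, nat_lit 4805, nat_lit 0, nat_lit 0, nat_lit 0, nat_lit 0, nat_lit 1000000, nat_lit 0, nat_lit 0, [(nat_lit 6, [(nat_lit 6, nat_lit 1000)])],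
 ⟨p009_k59, nat_lit 0, nat_lit 0, nat_lit 283, nat_lit 0, nat_lit 316577, [nat_lit 164001066667, nat_lit 203588000000], [], [nat_lit 541807232210, nat_lit 539534301892, nat_lit 536053180632, nat_lit 536469339573], nat_lit 1271250, nat_lit 1271250, nat_lit 111251, nat_lit 134400, nat_lit 0, nat_lit 0, [nat_lit 1100000, nat_lit 1442500], [nat_lit 31, nat_lit 40, nat_lit 20, nat_lit 80, nat_lit 3, nat_lit 215, nat_lit 10, nat_lit 9]⟩, ⟨p009_k56, nat_lit 0, nat_lit 0, nat_lit 0, nat_lit 0, nat_lit 326224, [nat_lit 48050000000, nat_lit 86490000000, nat_lit 105710000000], [], [nat_lit 66226649743, nat_lit 66794981861, nat_lit 62120120809, nat_lit 62708662725], nat_lit 1271250, nat_lit 1271250, nat_lit 111251, nat_lit 134400, nat_lit 0, nat_lit 0, [nat_lit 631250, nat_lit 1271250, nat_lit 1271250], [nat_lit 90, nat_lit 40, nat_lit 20, nat_lit 40]⟩,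
 ⟨nat_lit 6284, nat_lit 6305, ⟨.ofNat (nat_lit 168054), .ofNat (nat_lit 176262), .ofNat (nat_lit 169123), .ofNat (nat_lit 177330), .ofNat (nat_lit 168904), .ofNat (nat_lit 177092), .ofNat (nat_lit 169972), .ofNat (nat_lit 178161)⟩, ⟨.ofNat (nat_lit 0), .ofNat (nat_lit 0), .ofNat (nat_lit 0), .ofNat (nat_lit 0), .ofNat (nat_lit 0), .ofNat (nat_lit 0), .ofNat (nat_lit 0), .ofNat (nat_lit 0)⟩⟩, []⟩
noncomputable def p009_l197 : Lf2 := ⟨nat_lit 0, nat_lit 1, [nat_lit 19, nat_lit 5, nat_lit 5, nat_lit 20], false, nat_lit 0, nat_lit 0, nat_lit 0, nat_lit 0, ⟨nat_lit 1000, nat_lit 0, nat_lit 0, nat_lit 0, nat_lit 0, nat_lit 0, nat_lit 0, nat_lit 0, nat_lit 0, nat_lit 0, nat_lit 0, nat_lit 0, nat_lit 0, nat_lit 0, nat_lit 0, nat_lit 0, false, false⟩,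
 nat_lit 0, nat_lit 8567, nat_lit 0, nat_lit 0, nat_lit 4535, nat_lit 0, nat_lit 0, nat_lit 0, nat_lit 0, nat_lit 1745, nat_lit 0, nat_lit 481, nat_lit 0, nat_lit 0, nat_lit 0, nat_lit 0, nat_lit 0, nat_lit 0, [],
 ⟨p009_k46, nat_lit 0, nat_lit 0, nat_lit 284, nat_lit 0, nat_lit 317920, [nat_lit 4688000000, nat_lit 6250000000], [], [nat_lit 35371496500, nat_lit 35416826441, nat_lit 35293739080, nat_lit 35338936305], nat_lit 1271250, nat_lit 1271250, nat_lit 111251, nat_lit 134400, nat_lit 0, nat_lit 0, [nat_lit 1100000, nat_lit 1442500], [nat_lit 31, nat_lit 40, nat_lit 20, nat_lit 80, nat_lit 3, nat_lit 215, nat_lit 10, nat_lit 9]⟩, ⟨p009_k67, nat_lit 0, nat_lit 0, nat_lit 0, nat_lit 0, nat_lit 324346, [nat_lit 2637500000, nat_lit 5449500000, nat_lit 7089500000], [], [nat_lit 7166111200, nat_lit 7204666400, nat_lit 7233545921, nat_lit 7272047041], nat_lit 1271250, nat_lit 1271250, nat_lit 111251,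 nat_lit 134400, nat_lit 0, nat_lit 0, [nat_lit 631250, nat_lit 1271250, nat_lit 1271250], [nat_lit 90, nat_lit 40, nat_lit 20, nat_lit 40]⟩,
 zbF0, []⟩
noncomputable def p009_l198 : Lf2 := ⟨nat_lit 0, nat_lit 1, [nat_lit 19, nat_lit 5, nat_lit 5, nat_lit 20], false, nat_lit 0, nat_lit 0, nat_lit 0, nat_lit 0, ⟨nat_lit 1000, nat_lit 0, nat_lit 0, nat_lit 0, nat_lit 0, nat_lit 0, nat_lit 0, nat_lit 0, nat_lit 0, nat_lit 0, nat_lit 0, nat_lit 0, nat_lit 0, nat_lit 0, nat_lit 0, nat_lit 0, false, false⟩,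
 nat_lit 19118, nat_lit 0, nat_lit 0, nat_lit 0, nat_lit 10121, nat_lit 9923, nat_lit 0, nat_lit 576, nat_lit 0, nat_lit 8080, nat_lit 0, nat_lit 0, nat_lit 0, nat_lit 0, nat_lit 0, nat_lit 0, nat_lit 0, nat_lit 0, [],
 ⟨p009_k46, nat_lit 0, nat_lit 0, nat_lit 284, nat_lit 0, nat_lit 317920, [nat_lit 13904000000, nat_lit 17770000000], [], [nat_lit 65008280668, nat_lit 64978713185, nat_lit 64659244408, nat_lit 64726147935], nat_lit 1271250, nat_lit 1271250, nat_lit 111251, nat_lit 134400, nat_lit 0, nat_lit 0, [nat_lit 1100000, nat_lit 1442500], [nat_lit 31, nat_lit 40, nat_lit 20, nat_lit 80, nat_lit 3, nat_lit 215, nat_lit 10, nat_lit 9]⟩, ⟨p009_k67, nat_lit 0, nat_lit 0, nat_lit 0, nat_lit 0, nat_lit 324346, [nat_lit 2637500000, nat_lit 5449500000, nat_lit 7089500000], [], [nat_lit 14948110482, nat_lit 15048241697, nat_lit 14612332419, nat_lit 14712256321], nat_lit 1271250, nat_lit 1271250,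 nat_lit 111251, nat_lit 134400, nat_lit 0, nat_lit 0, [nat_lit 631250, nat_lit 1271250, nat_lit 1271250], [nat_lit 90, nat_lit 40, nat_lit 20, nat_lit 40]⟩,
 zbF0, []⟩
noncomputable def p009_l199 : Lf2 := ⟨nat_lit 0, nat_lit 1, [nat_lit 19, nat_lit 5, nat_lit 5, nat_lit 20], false, nat_lit 0, nat_lit 0, nat_lit 0, nat_lit 0, ⟨nat_lit 0, nat_lit 0, nat_lit 1000, nat_lit 5, nat_lit 69, nat_lit 0, nat_lit 0, nat_lit 0, nat_lit 0, nat_lit 215, nat_lit 45067, nat_lit 267, nat_lit 65045596, nat_lit 0, nat_lit 0, nat_lit 659203, false, false⟩,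
 nat_lit 100000, nat_lit 88889, nat_lit 92655, nat_lit 0, nat_lit 100000, nat_lit 99999, nat_lit 39807, nat_lit 10184, nat_lit 0, nat_lit 60000, nat_lit 8073, nat_lit 0, nat_lit 0, nat_lit 0, nat_lit 0, nat_lit 1000000, nat_lit 0, nat_lit 0, [(nat_lit 6, [(nat_lit 6, nat_lit 1000)])],
 ⟨p009_k46, nat_lit 0, nat_lit 0, nat_lit 284, nat_lit 0, nat_lit 317920, [nat_lit 163921066667, nat_lit 203488000000], [], [nat_lit 545700945334, nat_lit 543444035968, nat_lit 539964781068, nat_lit 540380940007], nat_lit 1271250, nat_lit 1271250, nat_lit 111251, nat_lit 134400, nat_lit 0, nat_lit 0, [nat_lit 1100000, nat_lit 1442500], [nat_lit 31, nat_lit 40, nat_lit 20, nat_lit 80, nat_lit 3, nat_lit 215, nat_lit 10, nat_lit 9]⟩, ⟨p009_k67, nat_lit 0, nat_lit 0, nat_lit 0, nat_lit 0, nat_lit 324346, [nat_lit 80730000000, nat_lit 145314000000, nat_lit 177606000000], [], [nat_lit 195076314071, nat_lit 195643478400,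 nat_lit 190968523150, nat_lit 191534425491], nat_lit 1271250, nat_lit 1271250, nat_lit 111251, nat_lit 134400, nat_lit 0, nat_lit 0, [nat_lit 631250, nat_lit 1271250, nat_lit 1271250], [nat_lit 90, nat_lit 40, nat_lit 20, nat_lit 40]⟩,
 ⟨nat_lit 6304, nat_lit 6325, ⟨.ofNat (nat_lit 168272), .ofNat (nat_lit 176498), .ofNat (nat_lit 169340), .ofNat (nat_lit 177566), .ofNat (nat_lit 169123), .ofNat (nat_lit 177330), .ofNat (nat_lit 170191), .ofNat (nat_lit 178398)⟩, ⟨.ofNat (nat_lit 0), .ofNat (nat_lit 0), .ofNat (nat_lit 0), .ofNat (nat_lit 0), .ofNat (nat_lit 0), .ofNat (nat_lit 0), .ofNat (nat_lit 0), .ofNat (nat_lit 0)⟩⟩, []⟩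
noncomputable def p009_l200 : Lf2 := ⟨nat_lit 0, nat_lit 1, [nat_lit 19, nat_lit 5, nat_lit 5, nat_lit 20], false, nat_lit 0, nat_lit 0, nat_lit 0, nat_lit 0, ⟨nat_lit 1000, nat_lit 0, nat_lit 0, nat_lit 0, nat_lit 0, nat_lit 0, nat_lit 0, nat_lit 0, nat_lit 0, nat_lit 0, nat_lit 0, nat_lit 0, nat_lit 0, nat_lit 0, nat_lit 0, nat_lit 0, false, false⟩,
 nat_lit 16027, nat_lit 0, nat_lit 0, nat_lit 0, nat_lit 8526, nat_lit 8318, nat_lit 0, nat_lit 400, nat_lit 0, nat_lit 6707, nat_lit 0, nat_lit 0, nat_lit 0, nat_lit 0, nat_lit 0, nat_lit 0, nat_lit 0, nat_lit 0, [],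
 ⟨p009_k59, nat_lit 0, nat_lit 0, nat_lit 284, nat_lit 0, nat_lit 320261, [nat_lit 11088000000, nat_lit 14250000000], [], [nat_lit 55725715349, nat_lit 55722254608, nat_lit 55458654460, nat_lit 55519360072], nat_lit 1271250, nat_lit 1271250, nat_lit 111251, nat_lit 134400, nat_lit 0, nat_lit 0, [nat_lit 1100000, nat_lit 1442500], [nat_lit 31, nat_lit 40, nat_lit 20, nat_lit 80, nat_lit 3, nat_lit 215, nat_lit 10, nat_lit 9]⟩, ⟨p009_k68, nat_lit 0, nat_lit 0, nat_lit 0, nat_lit 0, nat_lit 328360, [nat_lit 2032000000, nat_lit 4688000000, nat_lit 5449500000, nat_lit 7089500000], [], [nat_lit 16632700401, nat_lit 16719958304, nat_lit 16309591018, nat_lit 16398661536], nat_lit 1271250, nat_lit 1271250, nat_lit 111251, nat_lit 134400, nat_lit 0, nat_lit 0, [nat_lit 490000, nat_lit 1100000, nat_lit 1271250, nat_lit 1271250], [nat_lit 213, nat_lit 10, nat_lit 4, nat_lit 20]⟩,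
 zbF0, []⟩
noncomputable def p009_l201 : Lf2 := ⟨nat_lit 0, nat_lit 1, [nat_lit 19, nat_lit 5, nat_lit 5, nat_lit 20], false, nat_lit 0, nat_lit 0, nat_lit 0, nat_lit 0, ⟨nat_lit 0, nat_lit 0, nat_lit 1000, nat_lit 5, nat_lit 70, nat_lit 0, nat_lit 0, nat_lit 0, nat_lit 0, nat_lit 215, nat_lit 45067, nat_lit 267, nat_lit 65027151, nat_lit 0, nat_lit 0, nat_lit 664021, false, false⟩,
 nat_lit 100000, nat_lit 87967, nat_lit 92655, nat_lit 0, nat_lit 100000, nat_lit 99999, nat_lit 46059, nat_lit 10191, nat_lit 0, nat_lit 60000, nat_lit 8073, nat_lit 0, nat_lit 0, nat_lit 0, nat_lit 0, nat_lit 1000000, nat_lit 0, nat_lit 0, [(nat_lit 6, [(nat_lit 6, nat_lit 1000)])],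
 ⟨p009_k59, nat_lit 0, nat_lit 0, nat_lit 284, nat_lit 0, nat_lit 320261, [nat_lit 164033066667, nat_lit 203628000000], [], [nat_lit 541897207210, nat_lit 539644226892, nat_lit 536163105632, nat_lit 536579264573], nat_lit 1271250, nat_lit 1271250, nat_lit 111251, nat_lit 134400, nat_lit 0, nat_lit 0, [nat_lit 1100000, nat_lit 1442500], [nat_lit 31, nat_lit 40, nat_lit 20, nat_lit 80, nat_lit 3, nat_lit 215, nat_lit 10, nat_lit 9]⟩, ⟨p009_k67, nat_lit 0, nat_lit 0, nat_lit 0, nat_lit 0, nat_lit 328360, [nat_lit 80730000000, nat_lit 145314000000, nat_lit 177606000000], [], [nat_lit 195076314071, nat_lit 195643478400, nat_lit 190968523150, nat_lit 191534425491], nat_lit 1271250, nat_lit 1271250, nat_lit 111251, nat_lit 134400, nat_lit 0, nat_lit 0, [nat_lit 631250, nat_lit 1271250, nat_lit 1271250], [nat_lit 90, nat_lit 40, nat_lit 20, nat_lit 40]⟩,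
 ⟨nat_lit 6284, nat_lit 6305, ⟨.ofNat (nat_lit 169123), .ofNat (nat_lit 177330), .ofNat (nat_lit 170191), .ofNat (nat_lit 178398), .ofNat (nat_lit 169972), .ofNat (nat_lit 178161), .ofNat (nat_lit 171040), .ofNat (nat_lit 179229)⟩, ⟨.ofNat (nat_lit 0), .ofNat (nat_lit 0), .ofNat (nat_lit 0), .ofNat (nat_lit 0), .ofNat (nat_lit 0), .ofNat (nat_lit 0), .ofNat (nat_lit 0), .ofNat (nat_lit 0)⟩⟩, []⟩
noncomputable def p009_l202 : Lf2 := ⟨nat_lit 0, nat_lit 1, [nat_lit 19, nat_lit 5, nat_lit 5, nat_lit 20], false, nat_lit 0, nat_lit 0, nat_lit 0, nat_lit 0, ⟨nat_lit 1000, nat_lit 0, nat_lit 0, nat_lit 0, nat_lit 0, nat_lit 0, nat_lit 0, nat_lit 0, nat_lit 0, nat_lit 0, nat_lit 0, nat_lit 0, nat_lit 0, nat_lit 0, nat_lit 0, nat_lit 0, false, false⟩,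
 nat_lit 16114, nat_lit 0, nat_lit 0, nat_lit 0, nat_lit 8614, nat_lit 8322, nat_lit 0, nat_lit 397, nat_lit 0, nat_lit 7176, nat_lit 0, nat_lit 0, nat_lit 0, nat_lit 0, nat_lit 0, nat_lit 0, nat_lit 0, nat_lit 0, [],
 ⟨p009_k62, nat_lit 0, nat_lit 0, nat_lit 283, nat_lit 0, nat_lit 318933, [nat_lit 11040000000, nat_lit 14190000000], [], [nat_lit 55339861944, nat_lit 55331928069, nat_lit 55065025804, nat_lit 55126073370], nat_lit 1271250, nat_lit 1271250, nat_lit 111251, nat_lit 134400, nat_lit 0, nat_lit 0, [nat_lit 1100000, nat_lit 1442500], [nat_lit 31, nat_lit 40, nat_lit 20, nat_lit 80, nat_lit 3, nat_lit 215, nat_lit 10, nat_lit 9]⟩, ⟨p009_k56, nat_lit 0, nat_lit 0, nat_lit 0, nat_lit 0, nat_lit 330281, [nat_lit 2637500000, nat_lit 5449500000, nat_lit 7089500000], [], [nat_lit 16567531415, nat_lit 16648149623, nat_lit 16293600360, nat_lit 16377794184], nat_lit 1271250, nat_lit 1271250,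 nat_lit 111251, nat_lit 134400, nat_lit 0, nat_lit 0, [nat_lit 631250, nat_lit 1271250, nat_lit 1271250], [nat_lit 90, nat_lit 40, nat_lit 20, nat_lit 40]⟩,
 zbF0, []⟩
noncomputable def p009_l203 : Lf2 := ⟨nat_lit 0, nat_lit 1, [nat_lit 19, nat_lit 5, nat_lit 5, nat_lit 20], false, nat_lit 0, nat_lit 0, nat_lit 0, nat_lit 0, ⟨nat_lit 1000, nat_lit 0, nat_lit 0, nat_lit 0, nat_lit 0, nat_lit 0, nat_lit 0, nat_lit 0, nat_lit 0, nat_lit 0, nat_lit 0, nat_lit 0, nat_lit 0, nat_lit 0, nat_lit 0, nat_lit 0, false, false⟩,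
 nat_lit 16007, nat_lit 0, nat_lit 0, nat_lit 0, nat_lit 8557, nat_lit 8308, nat_lit 0, nat_lit 391, nat_lit 0, nat_lit 6703, nat_lit 0, nat_lit 0, nat_lit 0, nat_lit 0, nat_lit 0, nat_lit 0, nat_lit 0, nat_lit 0, [],
 ⟨p009_k62, nat_lit 0, nat_lit 0, nat_lit 283, nat_lit 0, nat_lit 322577, [nat_lit 10944000000, nat_lit 14070000000], [], [nat_lit 55034016872, nat_lit 55020524984, nat_lit 54755628682, nat_lit 54816454755], nat_lit 1271250, nat_lit 1271250, nat_lit 111251, nat_lit 134400, nat_lit 0, nat_lit 0, [nat_lit 1100000, nat_lit 1442500], [nat_lit 31, nat_lit 40, nat_lit 20, nat_lit 80, nat_lit 3, nat_lit 215, nat_lit 10, nat_lit 9]⟩, ⟨p009_k67, nat_lit 0, nat_lit 0, nat_lit 0, nat_lit 0, nat_lit 332372, [nat_lit 2637500000, nat_lit 5449500000, nat_lit 7089500000], [], [nat_lit 16671896419, nat_lit 16752471416, nat_lit 16398379577, nat_lit 16482504818], nat_lit 1271250, nat_lit 1271250,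 nat_lit 111251, nat_lit 134400, nat_lit 0, nat_lit 0, [nat_lit 631250, nat_lit 1271250, nat_lit 1271250], [nat_lit 90, nat_lit 40, nat_lit 20, nat_lit 40]⟩,
 zbF0, []⟩
noncomputable def p009_l204 : Lf2 := ⟨nat_lit 0, nat_lit 1, [nat_lit 19, nat_lit 5, nat_lit 5, nat_lit 20], false, nat_lit 0, nat_lit 0, nat_lit 0, nat_lit 0, ⟨nat_lit 1000, nat_lit 0, nat_lit 0, nat_lit 0, nat_lit 0, nat_lit 0, nat_lit 0, nat_lit 0, nat_lit 0, nat_lit 0, nat_lit 0, nat_lit 0, nat_lit 0, nat_lit 0, nat_lit 0, nat_lit 0, false, false⟩,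
 nat_lit 0, nat_lit 8567, nat_lit 0, nat_lit 0, nat_lit 4535, nat_lit 0, nat_lit 0, nat_lit 0, nat_lit 0, nat_lit 1743, nat_lit 0, nat_lit 465, nat_lit 0, nat_lit 0, nat_lit 0, nat_lit 0, nat_lit 0, nat_lit 0, [],
 ⟨p009_k46, nat_lit 0, nat_lit 0, nat_lit 284, nat_lit 0, nat_lit 321646, [nat_lit 4688000000, nat_lit 6250000000], [], [nat_lit 35371496500, nat_lit 35416826441, nat_lit 35293739080, nat_lit 35338936305], nat_lit 1271250, nat_lit 1271250, nat_lit 111251, nat_lit 134400, nat_lit 0, nat_lit 0, [nat_lit 1100000, nat_lit 1442500], [nat_lit 31, nat_lit 40, nat_lit 20, nat_lit 80, nat_lit 3, nat_lit 215, nat_lit 10, nat_lit 9]⟩, ⟨p009_k69, nat_lit 0, nat_lit 0, nat_lit 0, nat_lit 0, nat_lit 326501, [nat_lit 2637500000, nat_lit 5449500000, nat_lit 7089500000], [], [nat_lit 7492666400, nat_lit 7531221600, nat_lit 7560047041, nat_lit 7598548160], nat_lit 1271250, nat_lit 1271250, nat_lit 111251,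 nat_lit 134400, nat_lit 0, nat_lit 0, [nat_lit 631250, nat_lit 1271250, nat_lit 1271250], [nat_lit 90, nat_lit 40, nat_lit 20, nat_lit 40]⟩,
 zbF0, []⟩
noncomputable def p009_l205 : Lf2 := ⟨nat_lit 0, nat_lit 1, [nat_lit 19, nat_lit 5, nat_lit 5, nat_lit 20], false, nat_lit 0, nat_lit 0, nat_lit 0, nat_lit 0, ⟨nat_lit 1000, nat_lit 0, nat_lit 0, nat_lit 0, nat_lit 0, nat_lit 0, nat_lit 0, nat_lit 0, nat_lit 0, nat_lit 0, nat_lit 0, nat_lit 0, nat_lit 0, nat_lit 0, nat_lit 0, nat_lit 0, false, false⟩,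
 nat_lit 18979, nat_lit 0, nat_lit 0, nat_lit 0, nat_lit 10047, nat_lit 9900, nat_lit 0, nat_lit 568, nat_lit 0, nat_lit 7607, nat_lit 0, nat_lit 0, nat_lit 0, nat_lit 0, nat_lit 0, nat_lit 0, nat_lit 0, nat_lit 0, [],
 ⟨p009_k46, nat_lit 0, nat_lit 0, nat_lit 284, nat_lit 0, nat_lit 321646, [nat_lit 13776000001, nat_lit 17610000000], [], [nat_lit 64596446278, nat_lit 64559013290, nat_lit 64242146058, nat_lit 64308762032], nat_lit 1271250, nat_lit 1271250, nat_lit 111251, nat_lit 134400, nat_lit 0, nat_lit 0, [nat_lit 1100000, nat_lit 1442500], [nat_lit 31, nat_lit 40, nat_lit 20, nat_lit 80, nat_lit 3, nat_lit 215, nat_lit 10, nat_lit 9]⟩, ⟨p009_k69, nat_lit 0, nat_lit 0, nat_lit 0, nat_lit 0, nat_lit 326501, [nat_lit 2637500000, nat_lit 5449500000, nat_lit 7089500000], [], [nat_lit 15072512461, nat_lit 15172491640, nat_lit 14737467291, nat_lit 14837239500], nat_lit 1271250, nat_lit 1271250,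 nat_lit 111251, nat_lit 134400, nat_lit 0, nat_lit 0, [nat_lit 631250, nat_lit 1271250, nat_lit 1271250], [nat_lit 90, nat_lit 40, nat_lit 20, nat_lit 40]⟩,
 zbF0, []⟩
noncomputable def p009_l206 : Lf2 := ⟨nat_lit 0, nat_lit 1, [nat_lit 19, nat_lit 5, nat_lit 5, nat_lit 20], false, nat_lit 0, nat_lit 0, nat_lit 0, nat_lit 0, ⟨nat_lit 0, nat_lit 0, nat_lit 1000, nat_lit 5, nat_lit 70, nat_lit 0, nat_lit 0, nat_lit 0, nat_lit 0, nat_lit 215, nat_lit 45067, nat_lit 267, nat_lit 65022147, nat_lit 0, nat_lit 0, nat_lit 665326, false, false⟩,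
 nat_lit 100000, nat_lit 88889, nat_lit 91702, nat_lit 0, nat_lit 100000, nat_lit 100000, nat_lit 39641, nat_lit 10185, nat_lit 0, nat_lit 60000, nat_lit 8133, nat_lit 0, nat_lit 0, nat_lit 0, nat_lit 0, nat_lit 1000000, nat_lit 0, nat_lit 0, [(nat_lit 6, [(nat_lit 6, nat_lit 1000)])],
 ⟨p009_k46, nat_lit 0, nat_lit 0, nat_lit 284, nat_lit 0, nat_lit 321646, [nat_lit 163937066667, nat_lit 203508000000], [], [nat_lit 545752945334, nat_lit 543520035968, nat_lit 540040781068, nat_lit 540456940007], nat_lit 1271250, nat_lit 1271250, nat_lit 111251, nat_lit 134400, nat_lit 0, nat_lit 0, [nat_lit 1100000, nat_lit 1442500], [nat_lit 31, nat_lit 40, nat_lit 20, nat_lit 80, nat_lit 3, nat_lit 215, nat_lit 10, nat_lit 9]⟩, ⟨p009_k69, nat_lit 0, nat_lit 0, nat_lit 0, nat_lit 0, nat_lit 326501, [nat_lit 81330000000, nat_lit 146394000000, nat_lit 178926000000], [], [nat_lit 195792590000, nat_lit 196359760001,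 nat_lit 192227522001, nat_lit 192739208000], nat_lit 1271250, nat_lit 1271250, nat_lit 111251, nat_lit 134400, nat_lit 0, nat_lit 0, [nat_lit 631250, nat_lit 1271250, nat_lit 1271250], [nat_lit 90, nat_lit 40, nat_lit 20, nat_lit 40]⟩,
 ⟨nat_lit 6304, nat_lit 6325, ⟨.ofNat (nat_lit 169340), .ofNat (nat_lit 177566), .ofNat (nat_lit 170408), .ofNat (nat_lit 178635), .ofNat (nat_lit 170191), .ofNat (nat_lit 178398), .ofNat (nat_lit 171259), .ofNat (nat_lit 179467)⟩, ⟨.ofNat (nat_lit 0), .ofNat (nat_lit 0), .ofNat (nat_lit 0), .ofNat (nat_lit 0), .ofNat (nat_lit 0), .ofNat (nat_lit 0), .ofNat (nat_lit 0), .ofNat (nat_lit 0)⟩⟩, []⟩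
noncomputable def p009_l207 : Lf2 := ⟨nat_lit 0, nat_lit 1, [nat_lit 19, nat_lit 5, nat_lit 5, nat_lit 20], false, nat_lit 0, nat_lit 0, nat_lit 0, nat_lit 0, ⟨nat_lit 1000, nat_lit 0, nat_lit 0, nat_lit 0, nat_lit 0, nat_lit 0, nat_lit 0, nat_lit 0, nat_lit 0, nat_lit 0, nat_lit 0, nat_lit 0, nat_lit 0, nat_lit 0, nat_lit 0, nat_lit 0, false, false⟩,
 nat_lit 15900, nat_lit 0, nat_lit 0, nat_lit 0, nat_lit 8458, nat_lit 8294, nat_lit 0, nat_lit 393, nat_lit 0, nat_lit 6315, nat_lit 0, nat_lit 0, nat_lit 0, nat_lit 0, nat_lit 0, nat_lit 0, nat_lit 0, nat_lit 0, [],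
 ⟨p009_k59, nat_lit 0, nat_lit 0, nat_lit 284, nat_lit 0, nat_lit 323946, [nat_lit 10976000001, nat_lit 14110000000], [], [nat_lit 55367300640, nat_lit 55363021665, nat_lit 55101813360, nat_lit 55162254735], nat_lit 1271250, nat_lit 1271250, nat_lit 111251, nat_lit 134400, nat_lit 0, nat_lit 0, [nat_lit 1100000, nat_lit 1442500], [nat_lit 31, nat_lit 40, nat_lit 20, nat_lit 80, nat_lit 3, nat_lit 215, nat_lit 10, nat_lit 9]⟩, ⟨p009_k69, nat_lit 0, nat_lit 0, nat_lit 0, nat_lit 0, nat_lit 330471, [nat_lit 2637500000, nat_lit 5449500000, nat_lit 7089500000], [], [nat_lit 16776361990, nat_lit 16856608123, nat_lit 16503259714, nat_lit 16587030783], nat_lit 1271250, nat_lit 1271250, nat_lit 111251, nat_lit 134400, nat_lit 0, nat_lit 0, [nat_lit 631250, nat_lit 1271250, nat_lit 1271250], [nat_lit 90, nat_lit 40, nat_lit 20, nat_lit 40]⟩,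
 zbF0, []⟩
noncomputable def p009_l208 : Lf2 := ⟨nat_lit 0, nat_lit 1, [nat_lit 19, nat_lit 5, nat_lit 5, nat_lit 20], false, nat_lit 0, nat_lit 0, nat_lit 0, nat_lit 0, ⟨nat_lit 1000, nat_lit 0, nat_lit 0, nat_lit 0, nat_lit 0, nat_lit 0, nat_lit 0, nat_lit 0, nat_lit 0, nat_lit 0, nat_lit 0, nat_lit 0, nat_lit 0, nat_lit 0, nat_lit 0, nat_lit 0, false, false⟩,
 nat_lit 15900, nat_lit 0, nat_lit 0, nat_lit 0, nat_lit 8500, nat_lit 8294, nat_lit 0, nat_lit 385, nat_lit 0, nat_lit 6315, nat_lit 0, nat_lit 0, nat_lit 0, nat_lit 0, nat_lit 0, nat_lit 0, nat_lit 0, nat_lit 0, [],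
 ⟨p009_k62, nat_lit 0, nat_lit 0, nat_lit 284, nat_lit 0, nat_lit 326268, [nat_lit 10848000000, nat_lit 13950000000], [], [nat_lit 54728171800, nat_lit 54709121900, nat_lit 54446231561, nat_lit 54506836141], nat_lit 1271250, nat_lit 1271250, nat_lit 111251, nat_lit 134400, nat_lit 0, nat_lit 0, [nat_lit 1100000, nat_lit 1442500], [nat_lit 31, nat_lit 40, nat_lit 20, nat_lit 80, nat_lit 3, nat_lit 215, nat_lit 10, nat_lit 9]⟩, ⟨p009_k69, nat_lit 0, nat_lit 0, nat_lit 0, nat_lit 0, nat_lit 334488, [nat_lit 2637500000, nat_lit 5449500000, nat_lit 7089500000], [], [nat_lit 16776361990, nat_lit 16856608123, nat_lit 16503259714, nat_lit 16587030783], nat_lit 1271250, nat_lit 1271250, nat_lit 111251, nat_lit 134400, nat_lit 0, nat_lit 0, [nat_lit 631250, nat_lit 1271250, nat_lit 1271250], [nat_lit 90, nat_lit 40, nat_lit 20, nat_lit 40]⟩,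
 zbF0, []⟩
noncomputable def p009_l209 : Lf2 := ⟨nat_lit 0, nat_lit 1, [nat_lit 19, nat_lit 5, nat_lit 5, nat_lit 20], false, nat_lit 0, nat_lit 0, nat_lit 0, nat_lit 0, ⟨nat_lit 1000, nat_lit 0, nat_lit 0, nat_lit 0, nat_lit 0, nat_lit 0, nat_lit 0, nat_lit 0, nat_lit 0, nat_lit 0, nat_lit 0, nat_lit 0, nat_lit 0, nat_lit 0, nat_lit 0, nat_lit 0, false, false⟩,
 nat_lit 18015, nat_lit 0, nat_lit 0, nat_lit 0, nat_lit 9537, nat_lit 9304, nat_lit 0, nat_lit 476, nat_lit 0, nat_lit 3971, nat_lit 0, nat_lit 0, nat_lit 0, nat_lit 0, nat_lit 0, nat_lit 0, nat_lit 0, nat_lit 0, [],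
 ⟨p009_k46, nat_lit 0, nat_lit 0, nat_lit 283, nat_lit 0, nat_lit 329514, [nat_lit 12304000001, nat_lit 15770000000], [], [nat_lit 58851405338, nat_lit 58759722166, nat_lit 58097659729, nat_lit 58290221006], nat_lit 1271250, nat_lit 1271250, nat_lit 134400, nat_lit 181601, nat_lit 0, nat_lit 0, [nat_lit 1100000, nat_lit 1442500], [nat_lit 31, nat_lit 40, nat_lit 20, nat_lit 80, nat_lit 3, nat_lit 215, nat_lit 10, nat_lit 9]⟩, ⟨p009_k56, nat_lit 0, nat_lit 0, nat_lit 0, nat_lit 0, nat_lit 337876, [nat_lit 2637500000, nat_lit 5449500000, nat_lit 7089500000], [], [nat_lit 17292726708, nat_lit 17549987869, nat_lit 16664211562, nat_lit 16920433064], nat_lit 1271250, nat_lit 1271250, nat_lit 134400, nat_lit 181601, nat_lit 0, nat_lit 0, [nat_lit 631250, nat_lit 1271250, nat_lit 1271250], [nat_lit 90, nat_lit 40, nat_lit 20, nat_lit 40]⟩,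
 zbF0, []⟩
noncomputable def p009_l210 : Lf2 := ⟨nat_lit 0, nat_lit 1, [nat_lit 19, nat_lit 5, nat_lit 5, nat_lit 20], false, nat_lit 0, nat_lit 0, nat_lit 0, nat_lit 0, ⟨nat_lit 1000, nat_lit 0, nat_lit 0, nat_lit 0, nat_lit 0, nat_lit 0, nat_lit 0, nat_lit 0, nat_lit 0, nat_lit 0, nat_lit 0, nat_lit 0, nat_lit 0, nat_lit 0, nat_lit 0, nat_lit 0, false, false⟩,
 nat_lit 179, nat_lit 8388, nat_lit 0, nat_lit 0, nat_lit 4535, nat_lit 93, nat_lit 0, nat_lit 0, nat_lit 0, nat_lit 1741, nat_lit 0, nat_lit 452, nat_lit 0, nat_lit 0, nat_lit 0, nat_lit 0, nat_lit 0, nat_lit 0, [],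
 ⟨p009_k46, nat_lit 0, nat_lit 0, nat_lit 285, nat_lit 0, nat_lit 325371, [nat_lit 4688000000, nat_lit 6250000000], [], [nat_lit 35371496500, nat_lit 35416826441, nat_lit 35293739080, nat_lit 35338936305], nat_lit 1271250, nat_lit 1271250, nat_lit 111251, nat_lit 134400, nat_lit 0, nat_lit 0, [nat_lit 1100000, nat_lit 1442500], [nat_lit 31, nat_lit 40, nat_lit 20, nat_lit 80, nat_lit 3, nat_lit 215, nat_lit 10, nat_lit 9]⟩, ⟨p009_k70, nat_lit 0, nat_lit 0, nat_lit 0, nat_lit 0, nat_lit 328632, [nat_lit 2637500000, nat_lit 5449500000, nat_lit 7089500000], [], [nat_lit 7758373229, nat_lit 7797716251, nat_lit 7824128140, nat_lit 7860191748], nat_lit 1271250, nat_lit 1271250, nat_lit 111251, nat_lit 134400, nat_lit 0, nat_lit 0, [nat_lit 631250, nat_lit 1271250, nat_lit 1271250], [nat_lit 90, nat_lit 40, nat_lit 20, nat_lit 40]⟩,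
 zbF0, []⟩
noncomputable def p009_l211 : Lf2 := ⟨nat_lit 0, nat_lit 1, [nat_lit 19, nat_lit 5, nat_lit 5, nat_lit 20], false, nat_lit 0, nat_lit 0, nat_lit 0, nat_lit 0, ⟨nat_lit 1000, nat_lit 0, nat_lit 0, nat_lit 0, nat_lit 0, nat_lit 0, nat_lit 0, nat_lit 0, nat_lit 0, nat_lit 0, nat_lit 0, nat_lit 0, nat_lit 0, nat_lit 0, nat_lit 0, nat_lit 0, false, false⟩,
 nat_lit 18842, nat_lit 0, nat_lit 0, nat_lit 0, nat_lit 9974, nat_lit 9877, nat_lit 0, nat_lit 561, nat_lit 0, nat_lit 7153, nat_lit 0, nat_lit 0, nat_lit 0, nat_lit 0, nat_lit 0, nat_lit 0, nat_lit 0, nat_lit 0, [],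
 ⟨p009_k46, nat_lit 0, nat_lit 0, nat_lit 285, nat_lit 0, nat_lit 325371, [nat_lit 13664000000, nat_lit 17470000000], [], [nat_lit 64236555592, nat_lit 64212768797, nat_lit 63898467952, nat_lit 63964800261], nat_lit 1271250, nat_lit 1271250, nat_lit 111251, nat_lit 134400, nat_lit 0, nat_lit 0, [nat_lit 1100000, nat_lit 1442500], [nat_lit 31, nat_lit 40, nat_lit 20, nat_lit 80, nat_lit 3, nat_lit 215, nat_lit 10, nat_lit 9]⟩, ⟨p009_k70, nat_lit 0, nat_lit 0, nat_lit 0, nat_lit 0, nat_lit 328632, [nat_lit 2637500000, nat_lit 5449500000, nat_lit 7089500000], [], [nat_lit 15196610370, nat_lit 15296437515, nat_lit 14862298778, nat_lit 14961919296], nat_lit 1271250, nat_lit 1271250, nat_lit 111251, nat_lit 134400, nat_lit 0, nat_lit 0, [nat_lit 631250, nat_lit 1271250, nat_lit 1271250], [nat_lit 90, nat_lit 40, nat_lit 20, nat_lit 40]⟩,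
 zbF0, []⟩
noncomputable def p009_l212 : Lf2 := ⟨nat_lit 0, nat_lit 1, [nat_lit 19, nat_lit 5, nat_lit 5, nat_lit 20], false, nat_lit 0, nat_lit 0, nat_lit 0, nat_lit 0, ⟨nat_lit 0, nat_lit 0, nat_lit 1000, nat_lit 5, nat_lit 70, nat_lit 0, nat_lit 0, nat_lit 0, nat_lit 0, nat_lit 215, nat_lit 46817, nat_lit 268, nat_lit 64998567, nat_lit 0, nat_lit 0, nat_lit 671462, false, false⟩,
 nat_lit 100000, nat_lit 88889, nat_lit 90756, nat_lit 0, nat_lit 100000, nat_lit 99999, nat_lit 39971, nat_lit 10186, nat_lit 0, nat_lit 60000, nat_lit 8139, nat_lit 0, nat_lit 0, nat_lit 0, nat_lit 0, nat_lit 1000000, nat_lit 0, nat_lit 0, [(nat_lit 6, [(nat_lit 6, nat_lit 1000)])],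
 ⟨p009_k46, nat_lit 0, nat_lit 0, nat_lit 285, nat_lit 0, nat_lit 325371, [nat_lit 163953066667, nat_lit 203528000000], [], [nat_lit 545804945334, nat_lit 543596035968, nat_lit 540116781068, nat_lit 540532940007], nat_lit 1271250, nat_lit 1271250, nat_lit 111251, nat_lit 134400, nat_lit 0, nat_lit 0, [nat_lit 1100000, nat_lit 1442500], [nat_lit 31, nat_lit 40, nat_lit 20, nat_lit 80, nat_lit 3, nat_lit 215, nat_lit 10, nat_lit 9]⟩, ⟨p009_k70, nat_lit 0, nat_lit 0, nat_lit 0, nat_lit 0, nat_lit 328632, [nat_lit 81390000000, nat_lit 146502000000, nat_lit 179058000000], [], [nat_lit 194167616591, nat_lit 194730307056, nat_lit 190603440233, nat_lit 191115121117], nat_lit 1271250, nat_lit 1271250, nat_lit 111251, nat_lit 134400, nat_lit 0, nat_lit 0, [nat_lit 631250, nat_lit 1271250, nat_lit 1271250], [nat_lit 90, nat_lit 40, nat_lit 20, nat_lit 40]⟩,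
 ⟨nat_lit 6304, nat_lit 6325, ⟨.ofNat (nat_lit 170408), .ofNat (nat_lit 178635), .ofNat (nat_lit 171477), .ofNat (nat_lit 179703), .ofNat (nat_lit 171259), .ofNat (nat_lit 179467), .ofNat (nat_lit 172327), .ofNat (nat_lit 180535)⟩, ⟨.ofNat (nat_lit 0), .ofNat (nat_lit 0), .ofNat (nat_lit 0), .ofNat (nat_lit 0), .ofNat (nat_lit 0), .ofNat (nat_lit 0), .ofNat (nat_lit 0), .ofNat (nat_lit 0)⟩⟩, []⟩
noncomputable def p009_l213 : Lf2 := ⟨nat_lit 0, nat_lit 1, [nat_lit 19, nat_lit 5, nat_lit 5, nat_lit 20], false, nat_lit 0, nat_lit 0, nat_lit 0, nat_lit 0, ⟨nat_lit 1000, nat_lit 0, nat_lit 0, nat_lit 0, nat_lit 0, nat_lit 0, nat_lit 0, nat_lit 0, nat_lit 0, nat_lit 0, nat_lit 0, nat_lit 0, nat_lit 0, nat_lit 0, nat_lit 0, nat_lit 0, false, false⟩,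
 nat_lit 16011, nat_lit 0, nat_lit 0, nat_lit 0, nat_lit 8476, nat_lit 8393, nat_lit 0, nat_lit 378, nat_lit 0, nat_lit 5963, nat_lit 0, nat_lit 0, nat_lit 0, nat_lit 0, nat_lit 0, nat_lit 0, nat_lit 0, nat_lit 0, [],
 ⟨p009_k46, nat_lit 0, nat_lit 0, nat_lit 283, nat_lit 0, nat_lit 325371, [nat_lit 10736000001, nat_lit 13810000000], [], [nat_lit 53925241730, nat_lit 53915447769, nat_lit 53453093346, nat_lit 53513196097], nat_lit 1271250, nat_lit 1271250, nat_lit 134400, nat_lit 181601, nat_lit 0, nat_lit 0, [nat_lit 1100000, nat_lit 1442500], [nat_lit 31, nat_lit 40, nat_lit 20, nat_lit 80, nat_lit 3, nat_lit 215, nat_lit 10, nat_lit 9]⟩, ⟨p009_k70, nat_lit 0, nat_lit 0, nat_lit 0, nat_lit 0, nat_lit 328632, [nat_lit 2637500000, nat_lit 5449500000, nat_lit 7089500000], [], [nat_lit 16488291623, nat_lit 16569000030, nat_lit 15933627505, nat_lit 16021379426], nat_lit 1271250, nat_lit 1271250,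 nat_lit 134400, nat_lit 181601, nat_lit 0, nat_lit 0, [nat_lit 631250, nat_lit 1271250, nat_lit 1271250], [nat_lit 90, nat_lit 40, nat_lit 20, nat_lit 40]⟩,
 zbF0, []⟩
noncomputable def p009_l214 : Lf2 := ⟨nat_lit 0, nat_lit 1, [nat_lit 19, nat_lit 5, nat_lit 5, nat_lit 20], false, nat_lit 0, nat_lit 0, nat_lit 0, nat_lit 0, ⟨nat_lit 1000, nat_lit 0, nat_lit 0, nat_lit 0, nat_lit 0, nat_lit 0, nat_lit 0, nat_lit 0, nat_lit 0, nat_lit 0, nat_lit 0, nat_lit 0, nat_lit 0, nat_lit 0, nat_lit 0, nat_lit 0, false, false⟩,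
 nat_lit 15795, nat_lit 0, nat_lit 0, nat_lit 0, nat_lit 8403, nat_lit 8280, nat_lit 0, nat_lit 387, nat_lit 0, nat_lit 5942, nat_lit 0, nat_lit 0, nat_lit 0, nat_lit 0, nat_lit 0, nat_lit 0, nat_lit 0, nat_lit 0, [],
 ⟨p009_k59, nat_lit 0, nat_lit 0, nat_lit 284, nat_lit 0, nat_lit 327677, [nat_lit 10880000000, nat_lit 13990000000], [], [nat_lit 55059818151, nat_lit 55046759724, nat_lit 54389799769, nat_lit 54449621506], nat_lit 1271250, nat_lit 1271250, nat_lit 111251, nat_lit 181601, nat_lit 0, nat_lit 0, [nat_lit 1100000, nat_lit 1442500], [nat_lit 31, nat_lit 40, nat_lit 20, nat_lit 80, nat_lit 3, nat_lit 215, nat_lit 10, nat_lit 9]⟩, ⟨p009_k70, nat_lit 0, nat_lit 0, nat_lit 0, nat_lit 0, nat_lit 332606, [nat_lit 2637500000, nat_lit 5449500000, nat_lit 7089500000], [], [nat_lit 16880465628, nat_lit 16960584804, nat_lit 16064274592, nat_lit 16152996753], nat_lit 1271250, nat_lit 1271250,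 nat_lit 111251, nat_lit 181601, nat_lit 0, nat_lit 0, [nat_lit 631250, nat_lit 1271250, nat_lit 1271250], [nat_lit 90, nat_lit 40, nat_lit 20, nat_lit 40]⟩,
 zbF0, []⟩
noncomputable def p009_l215 : Lf2 := ⟨nat_lit 0, nat_lit 1, [nat_lit 19, nat_lit 5, nat_lit 5, nat_lit 20], false, nat_lit 0, nat_lit 0, nat_lit 0, nat_lit 0, ⟨nat_lit 1000, nat_lit 0, nat_lit 0, nat_lit 0, nat_lit 0, nat_lit 0, nat_lit 0, nat_lit 0, nat_lit 0, nat_lit 0, nat_lit 0, nat_lit 0, nat_lit 0, nat_lit 0, nat_lit 0, nat_lit 0, false, false⟩,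
 nat_lit 15795, nat_lit 0, nat_lit 0, nat_lit 0, nat_lit 8444, nat_lit 8280, nat_lit 0, nat_lit 380, nat_lit 0, nat_lit 5942, nat_lit 0, nat_lit 0, nat_lit 0, nat_lit 0, nat_lit 0, nat_lit 0, nat_lit 0, nat_lit 0, [],
 ⟨p009_k62, nat_lit 0, nat_lit 0, nat_lit 284, nat_lit 0, nat_lit 329958, [nat_lit 10768000001, nat_lit 13850000000], [], [nat_lit 54474218750, nat_lit 54471182030, nat_lit 53809604671, nat_lit 53869584238], nat_lit 1271250, nat_lit 1271250, nat_lit 111251, nat_lit 181601, nat_lit 0, nat_lit 0, [nat_lit 1100000, nat_lit 1442500], [nat_lit 31, nat_lit 40, nat_lit 20, nat_lit 80, nat_lit 3, nat_lit 215, nat_lit 10, nat_lit 9]⟩, ⟨p009_k70, nat_lit 0, nat_lit 0, nat_lit 0, nat_lit 0, nat_lit 336580, [nat_lit 2637500000, nat_lit 5449500000, nat_lit 7089500000], [], [nat_lit 16880465628, nat_lit 16960584804, nat_lit 16064274592, nat_lit 16152996753], nat_lit 1271250, nat_lit 1271250,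 nat_lit 111251, nat_lit 181601, nat_lit 0, nat_lit 0, [nat_lit 631250, nat_lit 1271250, nat_lit 1271250], [nat_lit 90, nat_lit 40, nat_lit 20, nat_lit 40]⟩,
 zbF0, []⟩
noncomputable def p009_l216 : Lf2 := ⟨nat_lit 0, nat_lit 1, [nat_lit 19, nat_lit 5, nat_lit 5, nat_lit 20], false, nat_lit 0, nat_lit 0, nat_lit 0, nat_lit 0, ⟨nat_lit 1000, nat_lit 0, nat_lit 0, nat_lit 0, nat_lit 0, nat_lit 0, nat_lit 0, nat_lit 0, nat_lit 0, nat_lit 0, nat_lit 0, nat_lit 0, nat_lit 0, nat_lit 0, nat_lit 0, nat_lit 0, false, false⟩,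
 nat_lit 15691, nat_lit 0, nat_lit 0, nat_lit 0, nat_lit 8307, nat_lit 8266, nat_lit 0, nat_lit 389, nat_lit 0, nat_lit 5563, nat_lit 0, nat_lit 0, nat_lit 0, nat_lit 0, nat_lit 0, nat_lit 0, nat_lit 0, nat_lit 0, [],
 ⟨p009_k46, nat_lit 0, nat_lit 0, nat_lit 285, nat_lit 0, nat_lit 329144, [nat_lit 10912000001, nat_lit 14030000000], [], [nat_lit 55386394358, nat_lit 55382610330, nat_lit 54735634609, nat_lit 54795086792], nat_lit 1271250, nat_lit 1271250, nat_lit 111251, nat_lit 181601, nat_lit 0, nat_lit 0, [nat_lit 1100000, nat_lit 1442500], [nat_lit 31, nat_lit 40, nat_lit 20, nat_lit 80, nat_lit 3, nat_lit 215, nat_lit 10, nat_lit 9]⟩, ⟨p009_k71, nat_lit 0, nat_lit 0, nat_lit 0, nat_lit 0, nat_lit 330786, [nat_lit 2637500000, nat_lit 5449500000, nat_lit 7089500000], [], [nat_lit 16984504209, nat_lit 17064543981, nat_lit 16169303324, nat_lit 16257933567], nat_lit 1271250, nat_lit 1271250,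 nat_lit 111251, nat_lit 181601, nat_lit 0, nat_lit 0, [nat_lit 631250, nat_lit 1271250, nat_lit 1271250], [nat_lit 90, nat_lit 40, nat_lit 20, nat_lit 40]⟩,
 zbF0, []⟩
noncomputable def p009_l217 : Lf2 := ⟨nat_lit 0, nat_lit 1, [nat_lit 19, nat_lit 5, nat_lit 5, nat_lit 20], false, nat_lit 0, nat_lit 0, nat_lit 0, nat_lit 0, ⟨nat_lit 1000, nat_lit 0, nat_lit 0, nat_lit 0, nat_lit 0, nat_lit 0, nat_lit 0, nat_lit 0, nat_lit 0, nat_lit 0, nat_lit 0, nat_lit 0, nat_lit 0, nat_lit 0, nat_lit 0, nat_lit 0, false, false⟩,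
 nat_lit 15691, nat_lit 0, nat_lit 0, nat_lit 0, nat_lit 8347, nat_lit 8266, nat_lit 0, nat_lit 382, nat_lit 0, nat_lit 5563, nat_lit 0, nat_lit 0, nat_lit 0, nat_lit 0, nat_lit 0, nat_lit 0, nat_lit 0, nat_lit 0, [],
 ⟨p009_k59, nat_lit 0, nat_lit 0, nat_lit 285, nat_lit 0, nat_lit 331408, [nat_lit 10800000000, nat_lit 13890000000], [], [nat_lit 54804417800, nat_lit 54809038476, nat_lit 54157550532, nat_lit 54217156695], nat_lit 1271250, nat_lit 1271250, nat_lit 111251, nat_lit 181601, nat_lit 0, nat_lit 0, [nat_lit 1100000, nat_lit 1442500], [nat_lit 31, nat_lit 40, nat_lit 20, nat_lit 80, nat_lit 3, nat_lit 215, nat_lit 10, nat_lit 9]⟩, ⟨p009_k71, nat_lit 0, nat_lit 0, nat_lit 0, nat_lit 0, nat_lit 334718, [nat_lit 2637500000, nat_lit 5449500000, nat_lit 7089500000], [], [nat_lit 16984504209, nat_lit 17064543981, nat_lit 16169303324, nat_lit 16257933567], nat_lit 1271250, nat_lit 1271250,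 nat_lit 111251, nat_lit 181601, nat_lit 0, nat_lit 0, [nat_lit 631250, nat_lit 1271250, nat_lit 1271250], [nat_lit 90, nat_lit 40, nat_lit 20, nat_lit 40]⟩,
 zbF0, []⟩
noncomputable def p009_l218 : Lf2 := ⟨nat_lit 0, nat_lit 1, [nat_lit 19, nat_lit 5, nat_lit 5, nat_lit 20], false, nat_lit 0, nat_lit 0, nat_lit 0, nat_lit 0, ⟨nat_lit 1000, nat_lit 0, nat_lit 0, nat_lit 0, nat_lit 0, nat_lit 0, nat_lit 0, nat_lit 0, nat_lit 0, nat_lit 0, nat_lit 0, nat_lit 0, nat_lit 0, nat_lit 0, nat_lit 0, nat_lit 0, false, false⟩,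
 nat_lit 15691, nat_lit 0, nat_lit 0, nat_lit 0, nat_lit 8388, nat_lit 8266, nat_lit 0, nat_lit 374, nat_lit 0, nat_lit 5563, nat_lit 0, nat_lit 0, nat_lit 0, nat_lit 0, nat_lit 0, nat_lit 0, nat_lit 0, nat_lit 0, [],
 ⟨p009_k62, nat_lit 0, nat_lit 0, nat_lit 284, nat_lit 0, nat_lit 333648, [nat_lit 10672000001, nat_lit 13730000000], [], [nat_lit 54168265697, nat_lit 54157242158, nat_lit 53501139861, nat_lit 53560903855], nat_lit 1271250, nat_lit 1271250, nat_lit 111251, nat_lit 181601, nat_lit 0, nat_lit 0, [nat_lit 1100000, nat_lit 1442500], [nat_lit 31, nat_lit 40, nat_lit 20, nat_lit 80, nat_lit 3, nat_lit 215, nat_lit 10, nat_lit 9]⟩, ⟨p009_k71, nat_lit 0, nat_lit 0, nat_lit 0, nat_lit 0, nat_lit 338649, [nat_lit 2637500000, nat_lit 5449500000, nat_lit 7089500000], [], [nat_lit 16984504209, nat_lit 17064543981, nat_lit 16169303324, nat_lit 16257933567], nat_lit 1271250, nat_lit 1271250,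 nat_lit 111251, nat_lit 181601, nat_lit 0, nat_lit 0, [nat_lit 631250, nat_lit 1271250, nat_lit 1271250], [nat_lit 90, nat_lit 40, nat_lit 20, nat_lit 40]⟩,
 zbF0, []⟩
noncomputable def b_NL_600_550_0_17 : St := ⟨false, nat_lit 1, nat_lit 1, nat_lit 1, nat_lit 20, nat_lit 240, nat_lit 243, nat_lit 235, nat_lit 240, nat_lit 20, nat_lit 32, nat_lit 0, nat_lit 0, nat_lit 0, nat_lit 0, nat_lit 0, nat_lit 0, nat_lit 0, nat_lit 4, nat_lit 0, nat_lit 0, nat_lit 0, nat_lit 800⟩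
theorem d_NL_600_550_0_17 (h : EB TB.env) : Dead b_NL_600_550_0_17 := chkB_sound0 h (T :=
(.spl (nat_lit 7) (nat_lit 600)
(.leaf p009_l190)
(.spl (nat_lit 1) (nat_lit 238)
(.spl (nat_lit 2) (nat_lit 24)
(.spl (nat_lit 1) (nat_lit 237)
(.spl (nat_lit 0) (nat_lit 242)
(.spl (nat_lit 1) (nat_lit 236)
(.spl (nat_lit 0) (nat_lit 241)
(.spl (nat_lit 8) (nat_lit 400)
(.spl (nat_lit 8) (nat_lit 200)
(.leaf p009_l191)
(.leaf p009_l192))
(.leaf p009_l193))
(.spl (nat_lit 8) (nat_lit 400)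
(.spl (nat_lit 8) (nat_lit 200)
(.leaf p009_l194)
(.leaf p009_l195))
(.leaf p009_l196)))
(.spl (nat_lit 0) (nat_lit 241)
(.spl (nat_lit 8) (nat_lit 400)
(.spl (nat_lit 8) (nat_lit 200)
(.leaf p009_l197)
(.leaf p009_l198))
(.leaf p009_l199))
(.spl (nat_lit 8) (nat_lit 400)
(.leaf p009_l200)
(.leaf p009_l201))))
(.spl (nat_lit 1) (nat_lit 236)
(.leaf p009_l202)
(.leaf p009_l203)))
(.spl (nat_lit 0) (nat_lit 242)
(.spl (nat_lit 0) (nat_lit 241)
(.spl (nat_lit 8) (nat_lit 400)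
(.spl (nat_lit 8) (nat_lit 200)
(.leaf p009_l204)
(.leaf p009_l205))
(.leaf p009_l206))
(.leaf p009_l207))
(.leaf p009_l208)))
(.leaf p009_l209))
(.spl (nat_lit 1) (nat_lit 239)
(.spl (nat_lit 0) (nat_lit 242)
(.spl (nat_lit 0) (nat_lit 241)
(.spl (nat_lit 2) (nat_lit 24)
(.spl (nat_lit 8) (nat_lit 400)
(.spl (nat_lit 8) (nat_lit 200)
(.leaf p009_l210)
(.leaf p009_l211))
(.leaf p009_l212))
(.leaf p009_l213))
(.leaf p009_l214))
(.leaf p009_l215))
(.spl (nat_lit 0) (nat_lit 242)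
(.spl (nat_lit 0) (nat_lit 241)
(.leaf p009_l216)
(.leaf p009_l217))
(.leaf p009_l218)))))) (by decide +kernel)
noncomputable def p009_l219 : Lf2 := ⟨nat_lit 0, nat_lit 1, [nat_lit 19, nat_lit 5, nat_lit 5, nat_lit 20], false, nat_lit 0, nat_lit 0, nat_lit 0, nat_lit 0, ⟨nat_lit 1000, nat_lit 0, nat_lit 0, nat_lit 0, nat_lit 0, nat_lit 0, nat_lit 0, nat_lit 0, nat_lit 0, nat_lit 0, nat_lit 0, nat_lit 0, nat_lit 0, nat_lit 0, nat_lit 0, nat_lit 0, false, false⟩,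
 nat_lit 18588, nat_lit 3815, nat_lit 0, nat_lit 0, nat_lit 12035, nat_lit 9361, nat_lit 0, nat_lit 0, nat_lit 0, nat_lit 5234, nat_lit 0, nat_lit 0, nat_lit 0, nat_lit 0, nat_lit 0, nat_lit 0, nat_lit 0, nat_lit 0, [],
 ⟨p009_k72, nat_lit 0, nat_lit 0, nat_lit 0, nat_lit 0, nat_lit 321582, [nat_lit 2032000001, nat_lit 4688000000, nat_lit 6250000000], [], [nat_lit 23149562399, nat_lit 23012605265, nat_lit 20208431460, nat_lit 20625777248], nat_lit 1271250, nat_lit 1271250, nat_lit 111251, nat_lit 181601, nat_lit 0, nat_lit 0, [nat_lit 490000, nat_lit 1100000, nat_lit 1442500], [nat_lit 6, nat_lit 40, nat_lit 20, nat_lit 40]⟩, ⟨p009_k54, nat_lit 0, nat_lit 0, nat_lit 0, nat_lit 0, nat_lit 343317, [nat_lit 2637500000, nat_lit 5449500000, nat_lit 7089500000], [], [nat_lit 17397091289, nat_lit 17828342708, nat_lit 16449906274, nat_lit 16878547755], nat_lit 1271250, nat_lit 1271250, nat_lit 111251,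 nat_lit 181601, nat_lit 0, nat_lit 0, [nat_lit 631250, nat_lit 1271250, nat_lit 1271250], [nat_lit 90, nat_lit 40, nat_lit 20, nat_lit 40]⟩,
 zbF0, []⟩
noncomputable def p009_l220 : Lf2 := ⟨nat_lit 0, nat_lit 1, [nat_lit 19, nat_lit 5, nat_lit 5, nat_lit 20], false, nat_lit 0, nat_lit 0, nat_lit 0, nat_lit 0, ⟨nat_lit 1000, nat_lit 0, nat_lit 0, nat_lit 0, nat_lit 0, nat_lit 0, nat_lit 0, nat_lit 0, nat_lit 0, nat_lit 0, nat_lit 0, nat_lit 0, nat_lit 0, nat_lit 0, nat_lit 0, nat_lit 0, false, false⟩,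
 nat_lit 18742, nat_lit 0, nat_lit 0, nat_lit 0, nat_lit 10068, nat_lit 9439, nat_lit 0, nat_lit 525, nat_lit 0, nat_lit 5282, nat_lit 0, nat_lit 0, nat_lit 0, nat_lit 0, nat_lit 0, nat_lit 0, nat_lit 0, nat_lit 0, [],
 ⟨p009_k73, nat_lit 0, nat_lit 0, nat_lit 282, nat_lit 0, nat_lit 307732, [nat_lit 13088000001, nat_lit 16750000000], [], [nat_lit 61578653848, nat_lit 61505299861, nat_lit 60617315356, nat_lit 60749777730], nat_lit 1271250, nat_lit 1271250, nat_lit 111251, nat_lit 181601, nat_lit 0, nat_lit 0, [nat_lit 1100000, nat_lit 1442500], [nat_lit 31, nat_lit 40, nat_lit 20, nat_lit 80, nat_lit 3, nat_lit 215, nat_lit 10, nat_lit 9]⟩, ⟨p009_k54, nat_lit 0, nat_lit 0, nat_lit 0, nat_lit 0, nat_lit 328530, [nat_lit 2637500000, nat_lit 5449500000, nat_lit 7089500000], [], [nat_lit 17305349411, nat_lit 17392042088, nat_lit 16348569787, nat_lit 16434737523], nat_lit 1271250, nat_lit 1271250,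 nat_lit 111251, nat_lit 181601, nat_lit 0, nat_lit 0, [nat_lit 631250, nat_lit 1271250, nat_lit 1271250], [nat_lit 90, nat_lit 40, nat_lit 20, nat_lit 40]⟩,
 zbF0, []⟩
noncomputable def p009_l221 : Lf2 := ⟨nat_lit 0, nat_lit 1, [nat_lit 19, nat_lit 5, nat_lit 5, nat_lit 20], false, nat_lit 0, nat_lit 0, nat_lit 0, nat_lit 0, ⟨nat_lit 1000, nat_lit 0, nat_lit 0, nat_lit 0, nat_lit 0, nat_lit 0, nat_lit 0, nat_lit 0, nat_lit 0, nat_lit 0, nat_lit 0, nat_lit 0, nat_lit 0, nat_lit 0, nat_lit 0, nat_lit 0, false, false⟩,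
 nat_lit 18609, nat_lit 0, nat_lit 0, nat_lit 0, nat_lit 9996, nat_lit 9419, nat_lit 0, nat_lit 518, nat_lit 0, nat_lit 4822, nat_lit 0, nat_lit 0, nat_lit 0, nat_lit 0, nat_lit 0, nat_lit 0, nat_lit 0, nat_lit 0, [],
 ⟨p009_k73, nat_lit 0, nat_lit 0, nat_lit 282, nat_lit 0, nat_lit 311194, [nat_lit 12976000000, nat_lit 16610000000], [], [nat_lit 61224289304, nat_lit 61155386420, nat_lit 60274726290, nat_lit 60406634334], nat_lit 1271250, nat_lit 1271250, nat_lit 111251, nat_lit 181601, nat_lit 0, nat_lit 0, [nat_lit 1100000, nat_lit 1442500], [nat_lit 31, nat_lit 40, nat_lit 20, nat_lit 80, nat_lit 3, nat_lit 215, nat_lit 10, nat_lit 9]⟩, ⟨p009_k60, nat_lit 0, nat_lit 0, nat_lit 0, nat_lit 0, nat_lit 330524, [nat_lit 2637500000, nat_lit 5449500000, nat_lit 7089500000], [], [nat_lit 17415103174, nat_lit 17501682416, nat_lit 16460259522, nat_lit 16546314581], nat_lit 1271250, nat_lit 1271250,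 nat_lit 111251, nat_lit 181601, nat_lit 0, nat_lit 0, [nat_lit 631250, nat_lit 1271250, nat_lit 1271250], [nat_lit 90, nat_lit 40, nat_lit 20, nat_lit 40]⟩,
 zbF0, []⟩
noncomputable def p009_l222 : Lf2 := ⟨nat_lit 0, nat_lit 1, [nat_lit 19, nat_lit 5, nat_lit 5, nat_lit 20], false, nat_lit 0, nat_lit 0, nat_lit 0, nat_lit 0, ⟨nat_lit 1000, nat_lit 0, nat_lit 0, nat_lit 0, nat_lit 0, nat_lit 0, nat_lit 0, nat_lit 0, nat_lit 0, nat_lit 0, nat_lit 0, nat_lit 0, nat_lit 0, nat_lit 0, nat_lit 0, nat_lit 0, false, false⟩,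
 nat_lit 18477, nat_lit 0, nat_lit 0, nat_lit 0, nat_lit 9925, nat_lit 9400, nat_lit 0, nat_lit 511, nat_lit 0, nat_lit 4433, nat_lit 0, nat_lit 0, nat_lit 0, nat_lit 0, nat_lit 0, nat_lit 0, nat_lit 0, nat_lit 0, [],
 ⟨p009_k73, nat_lit 0, nat_lit 0, nat_lit 282, nat_lit 0, nat_lit 314657, [nat_lit 12864000001, nat_lit 16470000000], [], [nat_lit 60869790937, nat_lit 60802944001, nat_lit 59929506519, nat_lit 60060867931], nat_lit 1271250, nat_lit 1271250, nat_lit 111251, nat_lit 181601, nat_lit 0, nat_lit 0, [nat_lit 1100000, nat_lit 1442500], [nat_lit 31, nat_lit 40, nat_lit 20, nat_lit 80, nat_lit 3, nat_lit 215, nat_lit 10, nat_lit 9]⟩, ⟨p009_k64, nat_lit 0, nat_lit 0, nat_lit 0, nat_lit 0, nat_lit 332494, [nat_lit 2637500000, nat_lit 5449500000, nat_lit 7089500000], [], [nat_lit 17524266435, nat_lit 17610737915, nat_lit 16571237188, nat_lit 16657185203], nat_lit 1271250, nat_lit 1271250,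 nat_lit 111251, nat_lit 181601, nat_lit 0, nat_lit 0, [nat_lit 631250, nat_lit 1271250, nat_lit 1271250], [nat_lit 90, nat_lit 40, nat_lit 20, nat_lit 40]⟩,
 zbF0, []⟩
noncomputable def p009_l223 : Lf2 := ⟨nat_lit 0, nat_lit 1, [nat_lit 19, nat_lit 5, nat_lit 5, nat_lit 20], false, nat_lit 0, nat_lit 0, nat_lit 0, nat_lit 0, ⟨nat_lit 1000, nat_lit 0, nat_lit 0, nat_lit 0, nat_lit 0, nat_lit 0, nat_lit 0, nat_lit 0, nat_lit 0, nat_lit 0, nat_lit 0, nat_lit 0, nat_lit 0, nat_lit 0, nat_lit 0, nat_lit 0, false, false⟩,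
 nat_lit 18309, nat_lit 0, nat_lit 0, nat_lit 0, nat_lit 9835, nat_lit 9361, nat_lit 0, nat_lit 502, nat_lit 0, nat_lit 4068, nat_lit 0, nat_lit 0, nat_lit 0, nat_lit 0, nat_lit 0, nat_lit 0, nat_lit 0, nat_lit 0, [],
 ⟨p009_k73, nat_lit 0, nat_lit 0, nat_lit 283, nat_lit 0, nat_lit 321582, [nat_lit 12720000000, nat_lit 16290000000], [], [nat_lit 60413835257, nat_lit 60346552200, nat_lit 59482270188, nat_lit 59612938686], nat_lit 1271250, nat_lit 1271250, nat_lit 111251, nat_lit 181601, nat_lit 0, nat_lit 0, [nat_lit 1100000, nat_lit 1442500], [nat_lit 31, nat_lit 40, nat_lit 20, nat_lit 80, nat_lit 3, nat_lit 215, nat_lit 10, nat_lit 9]⟩, ⟨p009_k65, nat_lit 0, nat_lit 0, nat_lit 0, nat_lit 0, nat_lit 338082, [nat_lit 2637500000, nat_lit 5449500000, nat_lit 7089500000], [], [nat_lit 17655523391, nat_lit 17828023958, nat_lit 16706772412, nat_lit 16878229005], nat_lit 1271250, nat_lit 1271250,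 nat_lit 111251, nat_lit 181601, nat_lit 0, nat_lit 0, [nat_lit 631250, nat_lit 1271250, nat_lit 1271250], [nat_lit 90, nat_lit 40, nat_lit 20, nat_lit 40]⟩,
 zbF0, []⟩
noncomputable def p009_l224 : Lf2 := ⟨nat_lit 0, nat_lit 1, [nat_lit 19, nat_lit 5, nat_lit 5, nat_lit 20], false, nat_lit 0, nat_lit 0, nat_lit 0, nat_lit 0, ⟨nat_lit 1000, nat_lit 0, nat_lit 0, nat_lit 0, nat_lit 0, nat_lit 0, nat_lit 0, nat_lit 0, nat_lit 0, nat_lit 0, nat_lit 0, nat_lit 0, nat_lit 0, nat_lit 0, nat_lit 0, nat_lit 0, false, false⟩,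
 nat_lit 17717, nat_lit 0, nat_lit 0, nat_lit 0, nat_lit 9517, nat_lit 9150, nat_lit 0, nat_lit 0, nat_lit 0, nat_lit 3897, nat_lit 0, nat_lit 0, nat_lit 0, nat_lit 0, nat_lit 0, nat_lit 0, nat_lit 0, nat_lit 0, [],
 ⟨p009_k72, nat_lit 0, nat_lit 0, nat_lit 0, nat_lit 0, nat_lit 339718, [nat_lit 2032000001, nat_lit 4688000000, nat_lit 6250000000], [], [nat_lit 26086730334, nat_lit 25602044751, nat_lit 23170679659, nat_lit 22688118271], nat_lit 1271250, nat_lit 1271250, nat_lit 111251, nat_lit 181601, nat_lit 0, nat_lit 0, [nat_lit 490000, nat_lit 1100000, nat_lit 1442500], [nat_lit 6, nat_lit 40, nat_lit 20, nat_lit 40]⟩, ⟨p009_k56, nat_lit 0, nat_lit 0, nat_lit 0, nat_lit 0, nat_lit 353542, [nat_lit 2637500000, nat_lit 5449500000, nat_lit 7089500000], [], [nat_lit 17789944625, nat_lit 18215212400, nat_lit 16866144260, nat_lit 17288842041], nat_lit 1271250, nat_lit 1271250, nat_lit 111251, nat_lit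 181601, nat_lit 0, nat_lit 0, [nat_lit 631250, nat_lit 1271250, nat_lit 1271250], [nat_lit 90, nat_lit 40, nat_lit 20, nat_lit 40]⟩,
 zbF0, []⟩
noncomputable def p009_l225 : Lf2 := ⟨nat_lit 0, nat_lit 1, [nat_lit 19, nat_lit 5, nat_lit 5, nat_lit 20], false, nat_lit 0, nat_lit 0, nat_lit 0, nat_lit 0, ⟨nat_lit 1000, nat_lit 0, nat_lit 0, nat_lit 0, nat_lit 0, nat_lit 0, nat_lit 0, nat_lit 0, nat_lit 0, nat_lit 0, nat_lit 0, nat_lit 0, nat_lit 0, nat_lit 0, nat_lit 0, nat_lit 0, false, false⟩,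
 nat_lit 16059, nat_lit 0, nat_lit 0, nat_lit 0, nat_lit 8627, nat_lit 8294, nat_lit 0, nat_lit 386, nat_lit 0, nat_lit 7137, nat_lit 0, nat_lit 0, nat_lit 0, nat_lit 0, nat_lit 0, nat_lit 0, nat_lit 0, nat_lit 0, [],
 ⟨p009_k73, nat_lit 0, nat_lit 0, nat_lit 283, nat_lit 0, nat_lit 328564, [nat_lit 10864000000, nat_lit 13970000000], [], [nat_lit 54543496824, nat_lit 54524254932, nat_lit 53844164776, nat_lit 53904848805], nat_lit 1271250, nat_lit 1271250, nat_lit 111251, nat_lit 181601, nat_lit 0, nat_lit 0, [nat_lit 1100000, nat_lit 1442500], [nat_lit 31, nat_lit 40, nat_lit 20, nat_lit 80, nat_lit 3, nat_lit 215, nat_lit 10, nat_lit 9]⟩, ⟨p009_k56, nat_lit 0, nat_lit 0, nat_lit 0, nat_lit 0, nat_lit 341934, [nat_lit 2637500000, nat_lit 5449500000, nat_lit 7089500000], [], [nat_lit 16616124205, nat_lit 16856719945, nat_lit 15797780558, nat_lit 16047876104], nat_lit 1271250, nat_lit 1271250,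 nat_lit 111251, nat_lit 181601, nat_lit 0, nat_lit 0, [nat_lit 631250, nat_lit 1271250, nat_lit 1271250], [nat_lit 90, nat_lit 40, nat_lit 20, nat_lit 40]⟩,
 zbF0, []⟩
noncomputable def p009_l226 : Lf2 := ⟨nat_lit 0, nat_lit 1, [nat_lit 19, nat_lit 5, nat_lit 5, nat_lit 20], false, nat_lit 0, nat_lit 0, nat_lit 0, nat_lit 0, ⟨nat_lit 1000, nat_lit 0, nat_lit 0, nat_lit 0, nat_lit 0, nat_lit 0, nat_lit 0, nat_lit 0, nat_lit 0, nat_lit 0, nat_lit 0, nat_lit 0, nat_lit 0, nat_lit 0, nat_lit 0, nat_lit 0, false, false⟩,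
 nat_lit 16059, nat_lit 0, nat_lit 0, nat_lit 0, nat_lit 8669, nat_lit 8294, nat_lit 0, nat_lit 379, nat_lit 0, nat_lit 7137, nat_lit 0, nat_lit 0, nat_lit 0, nat_lit 0, nat_lit 0, nat_lit 0, nat_lit 0, nat_lit 0, [],
 ⟨p009_k74, nat_lit 0, nat_lit 0, nat_lit 283, nat_lit 0, nat_lit 330836, [nat_lit 10752000001, nat_lit 13830000000], [], [nat_lit 53949829305, nat_lit 53947342881, nat_lit 53262520773, nat_lit 53323366482], nat_lit 1271250, nat_lit 1271250, nat_lit 111251, nat_lit 181601, nat_lit 0, nat_lit 0, [nat_lit 1100000, nat_lit 1442500], [nat_lit 31, nat_lit 40, nat_lit 20, nat_lit 80, nat_lit 3, nat_lit 215, nat_lit 10, nat_lit 9]⟩, ⟨p009_k56, nat_lit 0, nat_lit 0, nat_lit 0, nat_lit 0, nat_lit 345992, [nat_lit 2637500000, nat_lit 5449500000, nat_lit 7089500000], [], [nat_lit 16616124205, nat_lit 16856719945, nat_lit 15797780558, nat_lit 16047876104], nat_lit 1271250, nat_lit 1271250,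 nat_lit 111251, nat_lit 181601, nat_lit 0, nat_lit 0, [nat_lit 631250, nat_lit 1271250, nat_lit 1271250], [nat_lit 90, nat_lit 40, nat_lit 20, nat_lit 40]⟩,
 zbF0, []⟩
noncomputable def p009_l227 : Lf2 := ⟨nat_lit 0, nat_lit 1, [nat_lit 19, nat_lit 5, nat_lit 5, nat_lit 20], false, nat_lit 0, nat_lit 0, nat_lit 0, nat_lit 0, ⟨nat_lit 1000, nat_lit 0, nat_lit 0, nat_lit 0, nat_lit 0, nat_lit 0, nat_lit 0, nat_lit 0, nat_lit 0, nat_lit 0, nat_lit 0, nat_lit 0, nat_lit 0, nat_lit 0, nat_lit 0, nat_lit 0, false, false⟩,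
 nat_lit 15769, nat_lit 0, nat_lit 0, nat_lit 0, nat_lit 8471, nat_lit 8266, nat_lit 0, nat_lit 368, nat_lit 0, nat_lit 5926, nat_lit 0, nat_lit 0, nat_lit 0, nat_lit 0, nat_lit 0, nat_lit 0, nat_lit 0, nat_lit 0, [],
 ⟨p009_k73, nat_lit 0, nat_lit 0, nat_lit 284, nat_lit 0, nat_lit 339718, [nat_lit 10576000001, nat_lit 13610000000], [], [nat_lit 53628373651, nat_lit 53612080921, nat_lit 52886555137, nat_lit 53006722145], nat_lit 1271250, nat_lit 1271250, nat_lit 111251, nat_lit 181601, nat_lit 0, nat_lit 0, [nat_lit 1100000, nat_lit 1442500], [nat_lit 31, nat_lit 40, nat_lit 20, nat_lit 80, nat_lit 3, nat_lit 215, nat_lit 10, nat_lit 9]⟩, ⟨p009_k70, nat_lit 0, nat_lit 0, nat_lit 0, nat_lit 0, nat_lit 348247, [nat_lit 2637500000, nat_lit 5449500000, nat_lit 7089500000], [], [nat_lit 16904323812, nat_lit 17064403356, nat_lit 16087988091, nat_lit 16257933567], nat_lit 1271250, nat_lit 1271250,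 nat_lit 111251, nat_lit 181601, nat_lit 0, nat_lit 0, [nat_lit 631250, nat_lit 1271250, nat_lit 1271250], [nat_lit 90, nat_lit 40, nat_lit 20, nat_lit 40]⟩,
 zbF0, []⟩
noncomputable def b_NL_600_550_0_18 : St := ⟨false, nat_lit 1, nat_lit 1, nat_lit 1, nat_lit 20, nat_lit 243, nat_lit 245, nat_lit 230, nat_lit 240, nat_lit 20, nat_lit 32, nat_lit 0, nat_lit 0, nat_lit 0, nat_lit 0, nat_lit 0, nat_lit 0, nat_lit 0, nat_lit 4, nat_lit 0, nat_lit 0, nat_lit 0, nat_lit 800⟩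
theorem d_NL_600_550_0_18 (h : EB TB.env) : Dead b_NL_600_550_0_18 := chkB_sound0 h (T :=
(.spl (nat_lit 1) (nat_lit 235)
(.spl (nat_lit 7) (nat_lit 600)
(.leaf p009_l219)
(.spl (nat_lit 1) (nat_lit 233)
(.spl (nat_lit 1) (nat_lit 232)
(.spl (nat_lit 1) (nat_lit 231)
(.leaf p009_l220)
(.leaf p009_l221))
(.leaf p009_l222))
(.leaf p009_l223)))
(.spl (nat_lit 7) (nat_lit 600)
(.leaf p009_l224)
(.spl (nat_lit 1) (nat_lit 238)
(.spl (nat_lit 0) (nat_lit 244)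
(.leaf p009_l225)
(.leaf p009_l226))
(.leaf p009_l227))))) (by decide +kernel)
noncomputable def p009_l228 : Lf2 := ⟨nat_lit 0, nat_lit 2, [nat_lit 10, nat_lit 5, nat_lit 5, nat_lit 20], true, nat_lit 0, nat_lit 0, nat_lit 0, nat_lit 0, ⟨nat_lit 0, nat_lit 0, nat_lit 1000, nat_lit 5, nat_lit 72, nat_lit 0, nat_lit 0, nat_lit 0, nat_lit 0, nat_lit 215, nat_lit 48600, nat_lit 269, nat_lit 64921672, nat_lit 0, nat_lit 0, nat_lit 691324, false, false⟩,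
 nat_lit 0, nat_lit 7907, nat_lit 0, nat_lit 0, nat_lit 4185, nat_lit 0, nat_lit 171, nat_lit 0, nat_lit 0, nat_lit 0, nat_lit 0, nat_lit 0, nat_lit 0, nat_lit 0, nat_lit 44, nat_lit 1000000, nat_lit 0, nat_lit 0, [(nat_lit 6, [(nat_lit 6, nat_lit 1000)])],
 ⟨p009_k75, nat_lit 0, nat_lit 0, nat_lit 0, nat_lit 0, nat_lit 287327, [nat_lit 1681066667, nat_lit 1358400000, nat_lit 17600000], [], [nat_lit 12742564268, nat_lit 13022934475, nat_lit 12728895887, nat_lit 12311584317], nat_lit 1271250, nat_lit 1271250, nat_lit 65850, nat_lit 230001, nat_lit 0, nat_lit 0, [nat_lit 1100000, nat_lit 1271250, nat_lit 1271250], [nat_lit 105, nat_lit 40, nat_lit 20, nat_lit 40]⟩, C1.Rw.none,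
 ⟨nat_lit 6224, nat_lit 6325, ⟨.ofNat (nat_lit 145408), .ofNat (nat_lit 202993), .ofNat (nat_lit 150750), .ofNat (nat_lit 208335), .ofNat (nat_lit 149840), .ofNat (nat_lit 206763), .ofNat (nat_lit 155180), .ofNat (nat_lit 212102)⟩, ⟨.ofNat (nat_lit 0), .ofNat (nat_lit 0), .ofNat (nat_lit 0), .ofNat (nat_lit 0), .ofNat (nat_lit 0), .ofNat (nat_lit 0), .ofNat (nat_lit 0), .ofNat (nat_lit 0)⟩⟩, [⟨nat_lit 0, nat_lit 100, nat_lit 99, nat_lit 40, nat_lit 121627830⟩]⟩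
noncomputable def p009_l229 : Lf2 := ⟨nat_lit 0, nat_lit 2, [nat_lit 10, nat_lit 5, nat_lit 5, nat_lit 20], true, nat_lit 0, nat_lit 0, nat_lit 0, nat_lit 0, ⟨nat_lit 0, nat_lit 0, nat_lit 1000, nat_lit 5, nat_lit 73, nat_lit 0, nat_lit 0, nat_lit 0, nat_lit 0, nat_lit 215, nat_lit 50417, nat_lit 270, nat_lit 64843228, nat_lit 0, nat_lit 0, nat_lit 711361, false, false⟩,
 nat_lit 0, nat_lit 7954, nat_lit 0, nat_lit 0, nat_lit 4210, nat_lit 0, nat_lit 187, nat_lit 0, nat_lit 0, nat_lit 0, nat_lit 0, nat_lit 0, nat_lit 0, nat_lit 0, nat_lit 44, nat_lit 1000000, nat_lit 0, nat_lit 0, [(nat_lit 6, [(nat_lit 6, nat_lit 1000)])],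
 ⟨p009_k75, nat_lit 0, nat_lit 0, nat_lit 0, nat_lit 0, nat_lit 290508, [nat_lit 1681066667, nat_lit 1358400000, nat_lit 17600000], [], [nat_lit 12688261508, nat_lit 12856933392, nat_lit 12680891187, nat_lit 12356895060], nat_lit 1271250, nat_lit 1271250, nat_lit 65850, nat_lit 230001, nat_lit 0, nat_lit 0, [nat_lit 1100000, nat_lit 1271250, nat_lit 1271250], [nat_lit 105, nat_lit 40, nat_lit 20, nat_lit 40]⟩, C1.Rw.none,
 ⟨nat_lit 6264, nat_lit 6325, ⟨.ofNat (nat_lit 150750), .ofNat (nat_lit 208335), .ofNat (nat_lit 153956), .ofNat (nat_lit 211541), .ofNat (nat_lit 153413), .ofNat (nat_lit 210599), .ofNat (nat_lit 156617), .ofNat (nat_lit 213804)⟩, ⟨.ofNat (nat_lit 0), .ofNat (nat_lit 0), .ofNat (nat_lit 0), .ofNat (nat_lit 0), .ofNat (nat_lit 0), .ofNat (nat_lit 0), .ofNat (nat_lit 0), .ofNat (nat_lit 0)⟩⟩, [⟨nat_lit 0, nat_lit 100, nat_lit 99, nat_lit 40, nat_lit 118096041⟩]⟩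
noncomputable def p009_l230 : Lf2 := ⟨nat_lit 0, nat_lit 2, [nat_lit 10, nat_lit 5, nat_lit 5, nat_lit 20], true, nat_lit 0, nat_lit 0, nat_lit 0, nat_lit 0, ⟨nat_lit 0, nat_lit 0, nat_lit 1000, nat_lit 5, nat_lit 74, nat_lit 0, nat_lit 0, nat_lit 0, nat_lit 0, nat_lit 215, nat_lit 52267, nat_lit 271, nat_lit 64781707, nat_lit 0, nat_lit 0, nat_lit 726920, false, false⟩,
 nat_lit 0, nat_lit 7954, nat_lit 0, nat_lit 0, nat_lit 4210, nat_lit 0, nat_lit 187, nat_lit 0, nat_lit 0, nat_lit 0, nat_lit 0, nat_lit 0, nat_lit 0, nat_lit 0, nat_lit 44, nat_lit 1000000, nat_lit 0, nat_lit 0, [(nat_lit 6, [(nat_lit 6, nat_lit 1000)])],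
 ⟨p009_k75, nat_lit 0, nat_lit 0, nat_lit 0, nat_lit 0, nat_lit 298085, [nat_lit 1681066667, nat_lit 1358400000, nat_lit 17600000], [], [nat_lit 12688261508, nat_lit 12856933392, nat_lit 12680891187, nat_lit 12356895060], nat_lit 1271250, nat_lit 1271250, nat_lit 65850, nat_lit 230001, nat_lit 0, nat_lit 0, [nat_lit 1100000, nat_lit 1271250, nat_lit 1271250], [nat_lit 105, nat_lit 40, nat_lit 20, nat_lit 40]⟩, C1.Rw.none,
 ⟨nat_lit 6264, nat_lit 6325, ⟨.ofNat (nat_lit 153956), .ofNat (nat_lit 211541), .ofNat (nat_lit 156092), .ofNat (nat_lit 213677), .ofNat (nat_lit 156617), .ofNat (nat_lit 213804), .ofNat (nat_lit 158753), .ofNat (nat_lit 215940)⟩, ⟨.ofNat (nat_lit 0), .ofNat (nat_lit 0), .ofNat (nat_lit 0), .ofNat (nat_lit 0), .ofNat (nat_lit 0), .ofNat (nat_lit 0), .ofNat (nat_lit 0), .ofNat (nat_lit 0)⟩⟩, [⟨nat_lit 0, nat_lit 100, nat_lit 100, nat_lit 41, nat_lit 117137236⟩]⟩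
noncomputable def p009_l231 : Lf2 := ⟨nat_lit 0, nat_lit 2, [nat_lit 10, nat_lit 5, nat_lit 5, nat_lit 20], true, nat_lit 0, nat_lit 0, nat_lit 0, nat_lit 0, ⟨nat_lit 0, nat_lit 0, nat_lit 1000, nat_lit 5, nat_lit 74, nat_lit 0, nat_lit 0, nat_lit 0, nat_lit 0, nat_lit 215, nat_lit 52267, nat_lit 271, nat_lit 64771360, nat_lit 0, nat_lit 0, nat_lit 729524, false, false⟩,
 nat_lit 0, nat_lit 7781, nat_lit 0, nat_lit 0, nat_lit 4179, nat_lit 0, nat_lit 172, nat_lit 0, nat_lit 0, nat_lit 0, nat_lit 0, nat_lit 0, nat_lit 0, nat_lit 0, nat_lit 44, nat_lit 1000000, nat_lit 0, nat_lit 0, [(nat_lit 6, [(nat_lit 6, nat_lit 1000)])],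
 ⟨p009_k76, nat_lit 0, nat_lit 0, nat_lit 0, nat_lit 0, nat_lit 301524, [nat_lit 1681066667, nat_lit 1358400000, nat_lit 17600000], [], [nat_lit 12898325928, nat_lit 13013777667, nat_lit 12399456608, nat_lit 12304386777], nat_lit 1271250, nat_lit 1271250, nat_lit 65850, nat_lit 230001, nat_lit 0, nat_lit 0, [nat_lit 1100000, nat_lit 1271250, nat_lit 1271250], [nat_lit 105, nat_lit 40, nat_lit 20, nat_lit 40]⟩, C1.Rw.none,
 ⟨nat_lit 6224, nat_lit 6265, ⟨.ofNat (nat_lit 153413), .ofNat (nat_lit 210599), .ofNat (nat_lit 158753), .ofNat (nat_lit 215940), .ofNat (nat_lit 155180), .ofNat (nat_lit 212102), .ofNat (nat_lit 160519), .ofNat (nat_lit 217441)⟩, ⟨.ofNat (nat_lit 0), .ofNat (nat_lit 0), .ofNat (nat_lit 0), .ofNat (nat_lit 0), .ofNat (nat_lit 0), .ofNat (nat_lit 0), .ofNat (nat_lit 0), .ofNat (nat_lit 0)⟩⟩, [⟨nat_lit 0, nat_lit 100, nat_lit 99, nat_lit 42, nat_lit 201925207⟩]⟩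
noncomputable def p009_l232 : Lf2 := ⟨nat_lit 2, nat_lit 2, [nat_lit 10, nat_lit 5, nat_lit 5, nat_lit 20], true, nat_lit 0, nat_lit 0, nat_lit 0, nat_lit 0, zbN0,
 nat_lit 0, nat_lit 0, nat_lit 0, nat_lit 0, nat_lit 0, nat_lit 0, nat_lit 0, nat_lit 0, nat_lit 0, nat_lit 0, nat_lit 0, nat_lit 0, nat_lit 0, nat_lit 0, nat_lit 0, nat_lit 0, nat_lit 0, nat_lit 0, [],
 ⟨p009_k75, nat_lit 0, nat_lit 0, nat_lit 0, nat_lit 0, nat_lit 306085, [], [], [], nat_lit 1271250, nat_lit 1271250, nat_lit 65850, nat_lit 230001, nat_lit 0, nat_lit 0, [nat_lit 1100000, nat_lit 1271250, nat_lit 1271250], [nat_lit 105, nat_lit 40, nat_lit 20, nat_lit 40]⟩, C1.Rw.none,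
 zbF0, []⟩
noncomputable def p009_l233 : Lf2 := ⟨nat_lit 2, nat_lit 2, [nat_lit 10, nat_lit 5, nat_lit 5, nat_lit 20], true, nat_lit 0, nat_lit 0, nat_lit 0, nat_lit 0, zbN0,
 nat_lit 0, nat_lit 0, nat_lit 0, nat_lit 0, nat_lit 0, nat_lit 0, nat_lit 0, nat_lit 0, nat_lit 0, nat_lit 0, nat_lit 0, nat_lit 0, nat_lit 0, nat_lit 0, nat_lit 0, nat_lit 0, nat_lit 0, nat_lit 0, [],
 ⟨p009_k77, nat_lit 0, nat_lit 0, nat_lit 307, nat_lit 0, nat_lit 306085, [], [], [], nat_lit 1271250, nat_lit 1271250, nat_lit 65850, nat_lit 230001, nat_lit 0, nat_lit 0, [nat_lit 1100000, nat_lit 1785000], [nat_lit 39, nat_lit 40, nat_lit 20, nat_lit 80, nat_lit 7, nat_lit 215, nat_lit 10, nat_lit 8]⟩, C1.Rw.none,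
 zbF0, []⟩
noncomputable def p009_l234 : Lf2 := ⟨nat_lit 0, nat_lit 2, [nat_lit 10, nat_lit 5, nat_lit 5, nat_lit 20], false, nat_lit 0, nat_lit 0, nat_lit 0, nat_lit 0, ⟨nat_lit 0, nat_lit 0, nat_lit 1000, nat_lit 5, nat_lit 73, nat_lit 0, nat_lit 0, nat_lit 0, nat_lit 0, nat_lit 215, nat_lit 48600, nat_lit 269, nat_lit 64861169, nat_lit 0, nat_lit 0, nat_lit 706798, false, false⟩,
 nat_lit 100000, nat_lit 0, nat_lit 0, nat_lit 0, nat_lit 52941, nat_lit 50364, nat_lit 454, nat_lit 4662, nat_lit 0, nat_lit 19074, nat_lit 239, nat_lit 0, nat_lit 0, nat_lit 0, nat_lit 0, nat_lit 1000000, nat_lit 0, nat_lit 54778223264, [(nat_lit 6, [(nat_lit 6, nat_lit 1000)])],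
 ⟨p009_k47, nat_lit 0, nat_lit 0, nat_lit 324, nat_lit 0, nat_lit 306085, [nat_lit 75569066667, nat_lit 93048000000, nat_lit 110179200000], [], [nat_lit 272273963081, nat_lit 270854228063, nat_lit 257118059737, nat_lit 258101278930], nat_lit 1271250, nat_lit 1271250, nat_lit 65850, nat_lit 230001, nat_lit 0, nat_lit 0, [nat_lit 1100000, nat_lit 1442500, nat_lit 1271250], [nat_lit 9, nat_lit 40, nat_lit 20, nat_lit 80, nat_lit 2, nat_lit 215, nat_lit 10, nat_lit 8]⟩, ⟨p009_k11, nat_lit 0, nat_lit 0, nat_lit 0, nat_lit 0, nat_lit 322177, [nat_lit 2390000000, nat_lit 4302000000, nat_lit 5258000000, nat_lit 5736000000], [], [nat_lit 16441851586, nat_lit 18877566976, nat_lit 0, nat_lit 2405578822], nat_lit 1271250, nat_lit 1271250, nat_lit 65850, nat_lit 230001, nat_lit 0, nat_lit 0, [nat_lit 631250, nat_lit 1271250, nat_lit 1271250, nat_lit 1271250], [nat_lit 139, nat_lit 40, nat_lit 20, nat_lit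 40]⟩,
 ⟨nat_lit 6224, nat_lit 6325, ⟨.ofNat (nat_lit 145408), .ofNat (nat_lit 202993), .ofNat (nat_lit 156092), .ofNat (nat_lit 213677), .ofNat (nat_lit 149840), .ofNat (nat_lit 206763), .ofNat (nat_lit 160519), .ofNat (nat_lit 217441)⟩, ⟨.ofNat (nat_lit 0), .ofNat (nat_lit 0), .ofNat (nat_lit 0), .ofNat (nat_lit 0), .ofNat (nat_lit 0), .ofNat (nat_lit 0), .ofNat (nat_lit 0), .ofNat (nat_lit 0)⟩⟩, [⟨nat_lit 0, nat_lit 100, nat_lit 99, nat_lit 42, nat_lit 5380505210⟩]⟩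
noncomputable def b_NL_600_550_0_19 : St := ⟨false, nat_lit 1, nat_lit 1, nat_lit 1, nat_lit 20, nat_lit 240, nat_lit 245, nat_lit 230, nat_lit 240, nat_lit 12, nat_lit 40, nat_lit 0, nat_lit 0, nat_lit 0, nat_lit 0, nat_lit 0, nat_lit 0, nat_lit 4, nat_lit 8, nat_lit 0, nat_lit 0, nat_lit 0, nat_lit 800⟩
theorem d_NL_600_550_0_19 (h : EB TB.env) : Dead b_NL_600_550_0_19 := chkB_sound0 h (T :=
(.spl (nat_lit 7) (nat_lit 600)
(.spl (nat_lit 1) (nat_lit 235)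
(.leaf p009_l228)
(.spl (nat_lit 0) (nat_lit 243)
(.spl (nat_lit 1) (nat_lit 238)
(.leaf p009_l229)
(.leaf p009_l230))
(.leaf p009_l231)))
(.spl (nat_lit 8) (nat_lit 400)
(.spl (nat_lit 7) (nat_lit 900)
(.leaf p009_l232)
(.leaf p009_l233))
(.leaf p009_l234)))) (by decide +kernel)

end B2
end Pool.Agent.Lib.MP_6947cd_al
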