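import Pool.Agent.Lib.MP_6947cd_al.ZB.Pre

/-!
Problem MP_6947cd_al (Chollet).  Case B, second entry in [2/5, 17/20]: certificates of the tree, part P010 (generated).
-/

set_option autoImplicit false
set_option linter.all false

namespace Pool.Agent.Lib.MP_6947cd_al
namespace B2

open Ent Fr B1 PkA

noncomputable def p010_k0 : C1.Kn := ⟨[nat_lit 40, nat_lit 80, nat_lit 100], [nat_lit 0, nat_lit 0, nat_lit 65], [(nat_lit 0, nat_lit 0, nat_lit 0), (nat_lit 0, nat_lit 0, nat_lit 0), (nat_lit 1000, nat_lit 990, nat_lit 51)], (nat_lit 97, nat_lit 100, nat_lit 20)⟩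
noncomputable def p010_k1 : C1.Kn := ⟨[nat_lit 80, nat_lit 100], [nat_lit 0, nat_lit 65], [(nat_lit 0, nat_lit 0, nat_lit 0), (nat_lit 1000, nat_lit 990, nat_lit 51)], (nat_lit 97, nat_lit 100, nat_lit 20)⟩
noncomputable def p010_k2 : C1.Kn := ⟨[nat_lit 50, nat_lit 90, nat_lit 110], [nat_lit 0, nat_lit 0, nat_lit 129], [(nat_lit 0, nat_lit 0, nat_lit 0), (nat_lit 0, nat_lit 0, nat_lit 0), (nat_lit 1000, nat_lit 990, nat_lit 101)], (nat_lit 99, nat_lit 100, nat_lit 20)⟩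
noncomputable def p010_k3 : C1.Kn := ⟨[nat_lit 50, nat_lit 90, nat_lit 110], [nat_lit 0, nat_lit 0, nat_lit 166], [(nat_lit 0, nat_lit 0, nat_lit 0), (nat_lit 0, nat_lit 0, nat_lit 0), (nat_lit 1000, nat_lit 987, nat_lit 129)], (nat_lit 99, nat_lit 100, nat_lit 20)⟩
noncomputable def p010_k4 : C1.Kn := ⟨[nat_lit 40, nat_lit 80, nat_lit 100], [nat_lit 0, nat_lit 0, nat_lit 78], [(nat_lit 0, nat_lit 0, nat_lit 0), (nat_lit 0, nat_lit 0, nat_lit 0), (nat_lit 1000, nat_lit 988, nat_lit 61)], (nat_lit 97, nat_lit 100, nat_lit 20)⟩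
noncomputable def p010_k5 : C1.Kn := ⟨[nat_lit 80, nat_lit 100], [nat_lit 0, nat_lit 78], [(nat_lit 0, nat_lit 0, nat_lit 0), (nat_lit 1000, nat_lit 988, nat_lit 61)], (nat_lit 97, nat_lit 100, nat_lit 20)⟩
noncomputable def p010_k6 : C1.Kn := ⟨[nat_lit 80, nat_lit 100], [nat_lit 0, nat_lit 90], [(nat_lit 0, nat_lit 0, nat_lit 0), (nat_lit 1000, nat_lit 986, nat_lit 70)], (nat_lit 97, nat_lit 100, nat_lit 20)⟩
noncomputable def p010_k7 : C1.Kn := ⟨[nat_lit 40, nat_lit 80, nat_lit 100], [nat_lit 0, nat_lit 0, nat_lit 90], [(nat_lit 0, nat_lit 0, nat_lit 0), (nat_lit 0, nat_lit 0, nat_lit 0), (nat_lit 1000, nat_lit 986, nat_lit 70)], (nat_lit 97, nat_lit 100, nat_lit 20)⟩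
noncomputable def p010_k8 : C1.Kn := ⟨[nat_lit 40, nat_lit 80, nat_lit 100], [nat_lit 0, nat_lit 0, nat_lit 106], [(nat_lit 0, nat_lit 0, nat_lit 0), (nat_lit 0, nat_lit 0, nat_lit 0), (nat_lit 1000, nat_lit 983, nat_lit 83)], (nat_lit 97, nat_lit 100, nat_lit 20)⟩
noncomputable def p010_k9 : C1.Kn := ⟨[nat_lit 80, nat_lit 100], [nat_lit 0, nat_lit 106], [(nat_lit 0, nat_lit 0, nat_lit 0), (nat_lit 1000, nat_lit 983, nat_lit 83)], (nat_lit 97, nat_lit 100, nat_lit 20)⟩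
noncomputable def p010_k10 : C1.Kn := ⟨[nat_lit 80, nat_lit 100], [nat_lit 0, nat_lit 119], [(nat_lit 0, nat_lit 0, nat_lit 0), (nat_lit 1000, nat_lit 981, nat_lit 93)], (nat_lit 97, nat_lit 100, nat_lit 20)⟩
noncomputable def p010_k11 : C1.Kn := ⟨[nat_lit 80, nat_lit 90, nat_lit 110], [nat_lit 0, nat_lit 32, nat_lit 292], [(nat_lit 0, nat_lit 0, nat_lit 0), (nat_lit 1000, nat_lit 990, nat_lit 51), (nat_lit 1000, nat_lit 975, nat_lit 203)], (nat_lit 98, nat_lit 100, nat_lit 28)⟩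
noncomputable def p010_k12 : C1.Kn := ⟨[nat_lit 80, nat_lit 100, nat_lit 120], [nat_lit 0, nat_lit 65, nat_lit 576], [(nat_lit 0, nat_lit 0, nat_lit 0), (nat_lit 1000, nat_lit 990, nat_lit 51), (nat_lit 1000, nat_lit 990, nat_lit 399)], (nat_lit 98, nat_lit 100, nat_lit 28)⟩
noncomputable def p010_k13 : C1.Kn := ⟨[nat_lit 50, nat_lit 90, nat_lit 110, nat_lit 120], [nat_lit 0, nat_lit 0, nat_lit 141, nat_lit 403], [(nat_lit 0, nat_lit 0, nat_lit 0), (nat_lit 0, nat_lit 0, nat_lit 0), (nat_lit 1000, nat_lit 989, nat_lit 110), (nat_lit 994, nat_lit 1000, nat_lit 343)], (nat_lit 100, nat_lit 100, nat_lit 28)⟩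
noncomputable def p010_k14 : C1.Kn := ⟨[nat_lit 50, nat_lit 90, nat_lit 110, nat_lit 120], [nat_lit 0, nat_lit 0, nat_lit 153, nat_lit 414], [(nat_lit 0, nat_lit 0, nat_lit 0), (nat_lit 0, nat_lit 0, nat_lit 0), (nat_lit 1000, nat_lit 988, nat_lit 119), (nat_lit 996, nat_lit 1000, nat_lit 344)], (nat_lit 99, nat_lit 100, nat_lit 28)⟩
noncomputable def p010_k15 : C1.Kn := ⟨[nat_lit 50, nat_lit 90, nat_lit 110, nat_lit 120], [nat_lit 0, nat_lit 0, nat_lit 166, nat_lit 426], [(nat_lit 0, nat_lit 0, nat_lit 0), (nat_lit 0, nat_lit 0, nat_lit 0), (nat_lit 1000, nat_lit 987, nat_lit 129), (nat_lit 995, nat_lit 1000, nat_lit 355)], (nat_lit 99, nat_lit 100, nat_lit 28)⟩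
noncomputable def p010_k16 : C1.Kn := ⟨[nat_lit 80, nat_lit 100, nat_lit 120], [nat_lit 0, nat_lit 78, nat_lit 588], [(nat_lit 0, nat_lit 0, nat_lit 0), (nat_lit 1000, nat_lit 988, nat_lit 61), (nat_lit 1000, nat_lit 987, nat_lit 395)], (nat_lit 97, nat_lit 100, nat_lit 28)⟩
noncomputable def p010_k17 : C1.Kn := ⟨[nat_lit 50, nat_lit 90, nat_lit 110, nat_lit 120], [nat_lit 0, nat_lit 0, nat_lit 129, nat_lit 392], [(nat_lit 0, nat_lit 0, nat_lit 0), (nat_lit 0, nat_lit 0, nat_lit 0), (nat_lit 1000, nat_lit 990, nat_lit 101), (nat_lit 993, nat_lit 1000, nat_lit 341)], (nat_lit 100, nat_lit 100, nat_lit 28)⟩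
noncomputable def p010_k18 : C1.Kn := ⟨[nat_lit 80, nat_lit 100, nat_lit 120], [nat_lit 0, nat_lit 90, nat_lit 602], [(nat_lit 0, nat_lit 0, nat_lit 0), (nat_lit 1000, nat_lit 986, nat_lit 70), (nat_lit 1000, nat_lit 986, nat_lit 399)], (nat_lit 97, nat_lit 100, nat_lit 28)⟩
noncomputable def p010_k19 : C1.Kn := ⟨[nat_lit 80, nat_lit 100, nat_lit 120], [nat_lit 0, nat_lit 106, nat_lit 614], [(nat_lit 0, nat_lit 0, nat_lit 0), (nat_lit 1000, nat_lit 983, nat_lit 83), (nat_lit 1000, nat_lit 983, nat_lit 397)], (nat_lit 97, nat_lit 100, nat_lit 28)⟩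
noncomputable def p010_k20 : C1.Kn := ⟨[nat_lit 50, nat_lit 90, nat_lit 110], [nat_lit 0, nat_lit 0, nat_lit 192], [(nat_lit 0, nat_lit 0, nat_lit 0), (nat_lit 0, nat_lit 0, nat_lit 0), (nat_lit 1000, nat_lit 985, nat_lit 150)], (nat_lit 98, nat_lit 100, nat_lit 20)⟩
noncomputable def p010_k21 : C1.Kn := ⟨[nat_lit 50, nat_lit 90, nat_lit 110, nat_lit 120], [nat_lit 0, nat_lit 0, nat_lit 192, nat_lit 450], [(nat_lit 0, nat_lit 0, nat_lit 0), (nat_lit 0, nat_lit 0, nat_lit 0), (nat_lit 1000, nat_lit 985, nat_lit 150), (nat_lit 996, nat_lit 1000, nat_lit 372)], (nat_lit 99, nat_lit 100, nat_lit 28)⟩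
noncomputable def p010_k22 : C1.Kn := ⟨[nat_lit 80, nat_lit 100, nat_lit 120], [nat_lit 0, nat_lit 0, nat_lit 511], [(nat_lit 0, nat_lit 0, nat_lit 0), (nat_lit 0, nat_lit 0, nat_lit 0), (nat_lit 1000, nat_lit 997, nat_lit 383)], (nat_lit 99, nat_lit 100, nat_lit 34)⟩
noncomputable def p010_k23 : C1.Kn := ⟨[nat_lit 100, nat_lit 120], [nat_lit 0, nat_lit 383], [(nat_lit 0, nat_lit 0, nat_lit 0), (nat_lit 1000, nat_lit 1000, nat_lit 299)], (nat_lit 100, nat_lit 99, nat_lit 35)⟩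
noncomputable def p010_k24 : C1.Kn := ⟨[nat_lit 40, nat_lit 80, nat_lit 100, nat_lit 120], [nat_lit 0, nat_lit 0, nat_lit 0, nat_lit 511], [(nat_lit 0, nat_lit 0, nat_lit 0), (nat_lit 0, nat_lit 0, nat_lit 0), (nat_lit 0, nat_lit 0, nat_lit 0), (nat_lit 1000, nat_lit 997, nat_lit 383)], (nat_lit 99, nat_lit 100, nat_lit 34)⟩
noncomputable def p010_k25 : C1.Kn := ⟨[nat_lit 80, nat_lit 100, nat_lit 120], [nat_lit 0, nat_lit 36, nat_lit 550], [(nat_lit 0, nat_lit 0, nat_lit 0), (nat_lit 1000, nat_lit 994, nat_lit 28), (nat_lit 1000, nat_lit 993, nat_lit 397)], (nat_lit 99, nat_lit 100, nat_lit 34)⟩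
noncomputable def p010_k26 : C1.Kn := ⟨[nat_lit 80, nat_lit 100, nat_lit 120], [nat_lit 0, nat_lit 65, nat_lit 576], [(nat_lit 0, nat_lit 0, nat_lit 0), (nat_lit 1000, nat_lit 990, nat_lit 51), (nat_lit 1000, nat_lit 990, nat_lit 399)], (nat_lit 98, nat_lit 100, nat_lit 34)⟩
noncomputable def p010_k27 : C1.Kn := ⟨[nat_lit 80, nat_lit 100, nat_lit 120], [nat_lit 0, nat_lit 106, nat_lit 614], [(nat_lit 0, nat_lit 0, nat_lit 0), (nat_lit 1000, nat_lit 983, nat_lit 83), (nat_lit 1000, nat_lit 983, nat_lit 397)], (nat_lit 98, nat_lit 100, nat_lit 34)⟩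
noncomputable def p010_k28 : C1.Kn := ⟨[nat_lit 40, nat_lit 80, nat_lit 100, nat_lit 120], [nat_lit 0, nat_lit 0, nat_lit 65, nat_lit 576], [(nat_lit 0, nat_lit 0, nat_lit 0), (nat_lit 0, nat_lit 0, nat_lit 0), (nat_lit 1000, nat_lit 990, nat_lit 51), (nat_lit 1000, nat_lit 990, nat_lit 399)], (nat_lit 98, nat_lit 100, nat_lit 34)⟩
noncomputable def p010_k29 : C1.Kn := ⟨[nat_lit 80, nat_lit 100, nat_lit 120], [nat_lit 0, nat_lit 0, nat_lit 511], [(nat_lit 0, nat_lit 0, nat_lit 0), (nat_lit 0, nat_lit 0, nat_lit 0), (nat_lit 1000, nat_lit 997, nat_lit 383)], (nat_lit 100, nat_lit 100, nat_lit 40)⟩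
noncomputable def p010_k30 : C1.Kn := ⟨[nat_lit 100, nat_lit 120, nat_lit 140], [nat_lit 0, nat_lit 448, nat_lit 962], [(nat_lit 0, nat_lit 0, nat_lit 0), (nat_lit 1000, nat_lit 1000, nat_lit 350), (nat_lit 990, nat_lit 1000, nat_lit 398)], (nat_lit 100, nat_lit 99, nat_lit 40)⟩
noncomputable def p010_k31 : C1.Kn := ⟨[nat_lit 40, nat_lit 80, nat_lit 100, nat_lit 120], [nat_lit 0, nat_lit 0, nat_lit 0, nat_lit 511], [(nat_lit 0, nat_lit 0, nat_lit 0), (nat_lit 0, nat_lit 0, nat_lit 0), (nat_lit 0, nat_lit 0, nat_lit 0), (nat_lit 1000, nat_lit 997, nat_lit 383)], (nat_lit 100, nat_lit 100, nat_lit 40)⟩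
noncomputable def p010_k32 : C1.Kn := ⟨[nat_lit 90, nat_lit 110, nat_lit 130], [nat_lit 0, nat_lit 230, nat_lit 742], [(nat_lit 0, nat_lit 0, nat_lit 0), (nat_lit 1000, nat_lit 982, nat_lit 179), (nat_lit 996, nat_lit 1000, nat_lit 398)], (nat_lit 100, nat_lit 100, nat_lit 40)⟩
noncomputable def p010_k33 : C1.Kn := ⟨[nat_lit 80, nat_lit 100, nat_lit 120], [nat_lit 0, nat_lit 11, nat_lit 524], [(nat_lit 0, nat_lit 0, nat_lit 0), (nat_lit 1000, nat_lit 998, nat_lit 9), (nat_lit 1000, nat_lit 996, nat_lit 388)], (nat_lit 100, nat_lit 100, nat_lit 40)⟩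
noncomputable def p010_k34 : C1.Kn := ⟨[nat_lit 80, nat_lit 100, nat_lit 120], [nat_lit 0, nat_lit 24, nat_lit 537], [(nat_lit 0, nat_lit 0, nat_lit 0), (nat_lit 1000, nat_lit 996, nat_lit 19), (nat_lit 1000, nat_lit 995, nat_lit 395)], (nat_lit 100, nat_lit 100, nat_lit 40)⟩
noncomputable def p010_k35 : C1.Kn := ⟨[nat_lit 80, nat_lit 100, nat_lit 120], [nat_lit 0, nat_lit 36, nat_lit 550], [(nat_lit 0, nat_lit 0, nat_lit 0), (nat_lit 1000, nat_lit 994, nat_lit 28), (nat_lit 1000, nat_lit 993, nat_lit 397)], (nat_lit 99, nat_lit 100, nat_lit 40)⟩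
noncomputable def p010_k36 : C1.Kn := ⟨[nat_lit 80, nat_lit 100, nat_lit 120], [nat_lit 0, nat_lit 65, nat_lit 576], [(nat_lit 0, nat_lit 0, nat_lit 0), (nat_lit 1000, nat_lit 990, nat_lit 51), (nat_lit 1000, nat_lit 990, nat_lit 399)], (nat_lit 99, nat_lit 100, nat_lit 40)⟩
noncomputable def p010_k37 : C1.Kn := ⟨[nat_lit 100, nat_lit 120, nat_lit 140], [nat_lit 0, nat_lit 254, nat_lit 778], [(nat_lit 0, nat_lit 0, nat_lit 0), (nat_lit 1000, nat_lit 1000, nat_lit 198), (nat_lit 960, nat_lit 1000, nat_lit 392)], (nat_lit 100, nat_lit 96, nat_lit 39)⟩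
noncomputable def p010_k38 : C1.Kn := ⟨[nat_lit 40, nat_lit 80, nat_lit 100, nat_lit 130], [nat_lit 0, nat_lit 0, nat_lit 0, nat_lit 767], [(nat_lit 0, nat_lit 0, nat_lit 0), (nat_lit 0, nat_lit 0, nat_lit 0), (nat_lit 0, nat_lit 0, nat_lit 0), (nat_lit 1000, nat_lit 1000, nat_lit 399)], (nat_lit 100, nat_lit 99, nat_lit 44)⟩
noncomputable def p010_k39 : C1.Kn := ⟨[nat_lit 80, nat_lit 100, nat_lit 140], [nat_lit 0, nat_lit 0, nat_lit 1022], [(nat_lit 0, nat_lit 0, nat_lit 0), (nat_lit 0, nat_lit 0, nat_lit 0), (nat_lit 1000, nat_lit 1000, nat_lit 399)], (nat_lit 100, nat_lit 99, nat_lit 44)⟩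
noncomputable def p010_k40 : C1.Kn := ⟨[nat_lit 80, nat_lit 90, nat_lit 110, nat_lit 130], [nat_lit 0, nat_lit 0, nat_lit 257, nat_lit 765], [(nat_lit 0, nat_lit 0, nat_lit 0), (nat_lit 0, nat_lit 0, nat_lit 0), (nat_lit 1000, nat_lit 980, nat_lit 201), (nat_lit 1000, nat_lit 999, nat_lit 396)], (nat_lit 100, nat_lit 99, nat_lit 44)⟩
noncomputable def p010_k41 : C1.Kn := ⟨[nat_lit 80, nat_lit 100], [nat_lit 0, nat_lit 132], [(nat_lit 0, nat_lit 0, nat_lit 0), (nat_lit 1000, nat_lit 979, nat_lit 103)], (nat_lit 97, nat_lit 100, nat_lit 20)⟩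
noncomputable def p010_k42 : C1.Kn := ⟨[nat_lit 80, nat_lit 100, nat_lit 120], [nat_lit 0, nat_lit 132, nat_lit 640], [(nat_lit 0, nat_lit 0, nat_lit 0), (nat_lit 1000, nat_lit 979, nat_lit 103), (nat_lit 1000, nat_lit 979, nat_lit 397)], (nat_lit 97, nat_lit 100, nat_lit 28)⟩
noncomputable def p010_k43 : C1.Kn := ⟨[nat_lit 80, nat_lit 100, nat_lit 120], [nat_lit 0, nat_lit 198, nat_lit 704], [(nat_lit 0, nat_lit 0, nat_lit 0), (nat_lit 1000, nat_lit 969, nat_lit 154), (nat_lit 1000, nat_lit 969, nat_lit 395)], (nat_lit 96, nat_lit 100, nat_lit 28)⟩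
noncomputable def p010_k44 : C1.Kn := ⟨[nat_lit 80, nat_lit 100, nat_lit 120], [nat_lit 0, nat_lit 132, nat_lit 640], [(nat_lit 0, nat_lit 0, nat_lit 0), (nat_lit 1000, nat_lit 979, nat_lit 103), (nat_lit 1000, nat_lit 979, nat_lit 397)], (nat_lit 98, nat_lit 100, nat_lit 40)⟩
noncomputable def p010_k45 : C1.Kn := ⟨[nat_lit 80, nat_lit 100, nat_lit 120], [nat_lit 0, nat_lit 198, nat_lit 704], [(nat_lit 0, nat_lit 0, nat_lit 0), (nat_lit 1000, nat_lit 969, nat_lit 154), (nat_lit 1000, nat_lit 969, nat_lit 395)], (nat_lit 97, nat_lit 100, nat_lit 39)⟩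
noncomputable def p010_k46 : C1.Kn := ⟨[nat_lit 80, nat_lit 100, nat_lit 120], [nat_lit 0, nat_lit 132, nat_lit 640], [(nat_lit 0, nat_lit 0, nat_lit 0), (nat_lit 1000, nat_lit 979, nat_lit 103), (nat_lit 1000, nat_lit 979, nat_lit 397)], (nat_lit 99, nat_lit 100, nat_lit 44)⟩
noncomputable def p010_k47 : C1.Kn := ⟨[nat_lit 100, nat_lit 120, nat_lit 140], [nat_lit 0, nat_lit 422, nat_lit 937], [(nat_lit 0, nat_lit 0, nat_lit 0), (nat_lit 1000, nat_lit 1000, nat_lit 329), (nat_lit 986, nat_lit 1000, nat_lit 397)], (nat_lit 100, nat_lit 97, nat_lit 44)⟩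
noncomputable def p010_k48 : C1.Kn := ⟨[nat_lit 100, nat_lit 140], [nat_lit 0, nat_lit 843], [(nat_lit 0, nat_lit 0, nat_lit 0), (nat_lit 1000, nat_lit 1000, nat_lit 329)], (nat_lit 100, nat_lit 97, nat_lit 44)⟩
noncomputable def p010_k49 : C1.Kn := ⟨[nat_lit 100, nat_lit 120, nat_lit 140], [nat_lit 0, nat_lit 435, nat_lit 948], [(nat_lit 0, nat_lit 0, nat_lit 0), (nat_lit 1000, nat_lit 1000, nat_lit 339), (nat_lit 988, nat_lit 1000, nat_lit 396)], (nat_lit 100, nat_lit 98, nat_lit 44)⟩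
noncomputable def p010_k50 : C1.Kn := ⟨[nat_lit 100, nat_lit 140], [nat_lit 0, nat_lit 868], [(nat_lit 0, nat_lit 0, nat_lit 0), (nat_lit 1000, nat_lit 1000, nat_lit 339)], (nat_lit 100, nat_lit 98, nat_lit 44)⟩
noncomputable def p010_k51 : C1.Kn := ⟨[nat_lit 80, nat_lit 100, nat_lit 140], [nat_lit 0, nat_lit 11, nat_lit 1036], [(nat_lit 0, nat_lit 0, nat_lit 0), (nat_lit 1000, nat_lit 998, nat_lit 9), (nat_lit 1000, nat_lit 998, nat_lit 400)], (nat_lit 100, nat_lit 99, nat_lit 45)⟩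
noncomputable def p010_k52 : C1.Kn := ⟨[nat_lit 80, nat_lit 100, nat_lit 130], [nat_lit 0, nat_lit 11, nat_lit 780], [(nat_lit 0, nat_lit 0, nat_lit 0), (nat_lit 1000, nat_lit 998, nat_lit 9), (nat_lit 1000, nat_lit 998, nat_lit 400)], (nat_lit 100, nat_lit 99, nat_lit 45)⟩
noncomputable def p010_k53 : C1.Kn := ⟨[nat_lit 80, nat_lit 120, nat_lit 140], [nat_lit 0, nat_lit 23, nat_lit 1183], [(nat_lit 0, nat_lit 0, nat_lit 0), (nat_lit 1000, nat_lit 998, nat_lit 9), (nat_lit 941, nat_lit 1000, nat_lit 581)], (nat_lit 100, nat_lit 99, nat_lit 45)⟩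
noncomputable def p010_k54 : C1.Kn := ⟨[nat_lit 90, nat_lit 110, nat_lit 130], [nat_lit 0, nat_lit 180, nat_lit 690], [(nat_lit 0, nat_lit 0, nat_lit 0), (nat_lit 1000, nat_lit 986, nat_lit 141), (nat_lit 989, nat_lit 1000, nat_lit 393)], (nat_lit 100, nat_lit 98, nat_lit 44)⟩
noncomputable def p010_k55 : C1.Kn := ⟨[nat_lit 80, nat_lit 100, nat_lit 140], [nat_lit 0, nat_lit 24, nat_lit 1046], [(nat_lit 0, nat_lit 0, nat_lit 0), (nat_lit 1000, nat_lit 996, nat_lit 19), (nat_lit 1000, nat_lit 996, nat_lit 398)], (nat_lit 100, nat_lit 99, nat_lit 45)⟩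
noncomputable def p010_k56 : C1.Kn := ⟨[nat_lit 80, nat_lit 100, nat_lit 140], [nat_lit 0, nat_lit 36, nat_lit 1062], [(nat_lit 0, nat_lit 0, nat_lit 0), (nat_lit 1000, nat_lit 994, nat_lit 28), (nat_lit 1000, nat_lit 994, nat_lit 400)], (nat_lit 100, nat_lit 100, nat_lit 45)⟩
noncomputable def p010_k57 : C1.Kn := ⟨[nat_lit 80, nat_lit 100, nat_lit 130], [nat_lit 0, nat_lit 0, nat_lit 767], [(nat_lit 0, nat_lit 0, nat_lit 0), (nat_lit 0, nat_lit 0, nat_lit 0), (nat_lit 1000, nat_lit 1000, nat_lit 399)], (nat_lit 100, nat_lit 99, nat_lit 44)⟩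
noncomputable def p010_k58 : C1.Kn := ⟨[nat_lit 90, nat_lit 110, nat_lit 130], [nat_lit 0, nat_lit 205, nat_lit 715], [(nat_lit 0, nat_lit 0, nat_lit 0), (nat_lit 1000, nat_lit 984, nat_lit 160), (nat_lit 993, nat_lit 1000, nat_lit 394)], (nat_lit 100, nat_lit 98, nat_lit 44)⟩
noncomputable def p010_k59 : C1.Kn := ⟨[nat_lit 90, nat_lit 110, nat_lit 130], [nat_lit 0, nat_lit 217, nat_lit 728], [(nat_lit 0, nat_lit 0, nat_lit 0), (nat_lit 1000, nat_lit 983, nat_lit 169), (nat_lit 994, nat_lit 1000, nat_lit 396)], (nat_lit 100, nat_lit 98, nat_lit 44)⟩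
noncomputable def p010_k60 : C1.Kn := ⟨[nat_lit 90, nat_lit 110, nat_lit 130], [nat_lit 0, nat_lit 230, nat_lit 742], [(nat_lit 0, nat_lit 0, nat_lit 0), (nat_lit 1000, nat_lit 982, nat_lit 179), (nat_lit 996, nat_lit 1000, nat_lit 398)], (nat_lit 100, nat_lit 98, nat_lit 44)⟩
noncomputable def p010_k61 : C1.Kn := ⟨[nat_lit 90, nat_lit 110, nat_lit 130], [nat_lit 0, nat_lit 245, nat_lit 751], [(nat_lit 0, nat_lit 0, nat_lit 0), (nat_lit 1000, nat_lit 981, nat_lit 191), (nat_lit 999, nat_lit 1000, nat_lit 394)], (nat_lit 100, nat_lit 99, nat_lit 44)⟩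
noncomputable def p010_k62 : C1.Kn := ⟨[nat_lit 80, nat_lit 100, nat_lit 120, nat_lit 140], [nat_lit 0, nat_lit 0, nat_lit 511, nat_lit 1045], [(nat_lit 0, nat_lit 0, nat_lit 0), (nat_lit 0, nat_lit 0, nat_lit 0), (nat_lit 1000, nat_lit 997, nat_lit 383), (nat_lit 996, nat_lit 1000, nat_lit 416)], (nat_lit 100, nat_lit 99, nat_lit 44)⟩
noncomputable def p010_k63 : C1.Kn := ⟨[nat_lit 90, nat_lit 110, nat_lit 130], [nat_lit 0, nat_lit 192, nat_lit 703], [(nat_lit 0, nat_lit 0, nat_lit 0), (nat_lit 1000, nat_lit 985, nat_lit 150), (nat_lit 990, nat_lit 1000, nat_lit 395)], (nat_lit 100, nat_lit 98, nat_lit 44)⟩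
noncomputable def p010_k64 : C1.Kn := ⟨[nat_lit 80, nat_lit 100, nat_lit 140], [nat_lit 0, nat_lit 65, nat_lit 1086], [(nat_lit 0, nat_lit 0, nat_lit 0), (nat_lit 1000, nat_lit 990, nat_lit 51), (nat_lit 1000, nat_lit 990, nat_lit 399)], (nat_lit 100, nat_lit 100, nat_lit 45)⟩
noncomputable def p010_k65 : C1.Kn := ⟨[nat_lit 80, nat_lit 100, nat_lit 140], [nat_lit 0, nat_lit 78, nat_lit 1098], [(nat_lit 0, nat_lit 0, nat_lit 0), (nat_lit 1000, nat_lit 988, nat_lit 61), (nat_lit 1000, nat_lit 988, nat_lit 398)], (nat_lit 100, nat_lit 100, nat_lit 45)⟩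
noncomputable def p010_k66 : C1.Kn := ⟨[nat_lit 100, nat_lit 140], [nat_lit 0, nat_lit 970], [(nat_lit 0, nat_lit 0, nat_lit 0), (nat_lit 1000, nat_lit 1000, nat_lit 378)], (nat_lit 100, nat_lit 98, nat_lit 44)⟩
noncomputable def p010_k67 : C1.Kn := ⟨[nat_lit 100, nat_lit 140], [nat_lit 0, nat_lit 995], [(nat_lit 0, nat_lit 0, nat_lit 0), (nat_lit 1000, nat_lit 1000, nat_lit 388)], (nat_lit 100, nat_lit 99, nat_lit 44)⟩
noncomputable def p010_k68 : C1.Kn := ⟨[nat_lit 80, nat_lit 100, nat_lit 140], [nat_lit 0, nat_lit 90, nat_lit 1112], [(nat_lit 0, nat_lit 0, nat_lit 0), (nat_lit 1000, nat_lit 986, nat_lit 70), (nat_lit 1000, nat_lit 986, nat_lit 399)], (nat_lit 99, nat_lit 100, nat_lit 45)⟩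
noncomputable def p010_k69 : C1.Kn := ⟨[nat_lit 100, nat_lit 120, nat_lit 140], [nat_lit 0, nat_lit 499, nat_lit 1016], [(nat_lit 0, nat_lit 0, nat_lit 0), (nat_lit 1000, nat_lit 1000, nat_lit 388), (nat_lit 997, nat_lit 1000, nat_lit 403)], (nat_lit 100, nat_lit 99, nat_lit 44)⟩
noncomputable def p010_k70 : C1.Kn := ⟨[nat_lit 80, nat_lit 100, nat_lit 140], [nat_lit 0, nat_lit 106, nat_lit 1122], [(nat_lit 0, nat_lit 0, nat_lit 0), (nat_lit 1000, nat_lit 983, nat_lit 83), (nat_lit 1000, nat_lit 983, nat_lit 397)], (nat_lit 99, nat_lit 100, nat_lit 45)⟩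
noncomputable def p010_k71 : C1.Kn := ⟨[nat_lit 100, nat_lit 120, nat_lit 140], [nat_lit 0, nat_lit 448, nat_lit 962], [(nat_lit 0, nat_lit 0, nat_lit 0), (nat_lit 1000, nat_lit 1000, nat_lit 350), (nat_lit 990, nat_lit 1000, nat_lit 398)], (nat_lit 100, nat_lit 98, nat_lit 44)⟩
noncomputable def p010_k72 : C1.Kn := ⟨[nat_lit 100, nat_lit 120, nat_lit 140], [nat_lit 0, nat_lit 473, nat_lit 991], [(nat_lit 0, nat_lit 0, nat_lit 0), (nat_lit 1000, nat_lit 999, nat_lit 367), (nat_lit 993, nat_lit 1000, nat_lit 402)], (nat_lit 100, nat_lit 98, nat_lit 44)⟩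
noncomputable def p010_k73 : C1.Kn := ⟨[nat_lit 100, nat_lit 120, nat_lit 140], [nat_lit 0, nat_lit 486, nat_lit 1002], [(nat_lit 0, nat_lit 0, nat_lit 0), (nat_lit 1000, nat_lit 999, nat_lit 375), (nat_lit 995, nat_lit 1000, nat_lit 401)], (nat_lit 100, nat_lit 98, nat_lit 44)⟩
noncomputable def p010_k74 : C1.Kn := ⟨[nat_lit 80, nat_lit 100, nat_lit 140], [nat_lit 0, nat_lit 52, nat_lit 1072], [(nat_lit 0, nat_lit 0, nat_lit 0), (nat_lit 1000, nat_lit 992, nat_lit 41), (nat_lit 1000, nat_lit 992, nat_lit 398)], (nat_lit 100, nat_lit 100, nat_lit 45)⟩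
noncomputable def p010_k75 : C1.Kn := ⟨[nat_lit 100, nat_lit 120, nat_lit 140], [nat_lit 0, nat_lit 383, nat_lit 902], [(nat_lit 0, nat_lit 0, nat_lit 0), (nat_lit 1000, nat_lit 1000, nat_lit 299), (nat_lit 979, nat_lit 1000, nat_lit 397)], (nat_lit 100, nat_lit 97, nat_lit 44)⟩
noncomputable def p010_k76 : C1.Kn := ⟨[nat_lit 80, nat_lit 100, nat_lit 120], [nat_lit 0, nat_lit 0, nat_lit 511], [(nat_lit 0, nat_lit 0, nat_lit 0), (nat_lit 0, nat_lit 0, nat_lit 0), (nat_lit 1000, nat_lit 997, nat_lit 383)], (nat_lit 98, nat_lit 100, nat_lit 28)⟩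
noncomputable def p010_k77 : C1.Kn := ⟨[nat_lit 80, nat_lit 90, nat_lit 110], [nat_lit 0, nat_lit 0, nat_lit 257], [(nat_lit 0, nat_lit 0, nat_lit 0), (nat_lit 0, nat_lit 0, nat_lit 0), (nat_lit 1000, nat_lit 980, nat_lit 201)], (nat_lit 98, nat_lit 100, nat_lit 28)⟩
noncomputable def p010_k78 : C1.Kn := ⟨[nat_lit 90, nat_lit 100, nat_lit 120], [nat_lit 0, nat_lit 0, nat_lit 254], [(nat_lit 0, nat_lit 0, nat_lit 0), (nat_lit 0, nat_lit 0, nat_lit 0), (nat_lit 1000, nat_lit 1000, nat_lit 198)], (nat_lit 100, nat_lit 99, nat_lit 28)⟩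
noncomputable def p010_k79 : C1.Kn := ⟨[nat_lit 100, nat_lit 120], [nat_lit 0, nat_lit 254], [(nat_lit 0, nat_lit 0, nat_lit 0), (nat_lit 1000, nat_lit 1000, nat_lit 198)], (nat_lit 100, nat_lit 99, nat_lit 28)⟩
noncomputable def p010_k80 : C1.Kn := ⟨[nat_lit 100, nat_lit 120, nat_lit 140], [nat_lit 0, nat_lit 254, nat_lit 778], [(nat_lit 0, nat_lit 0, nat_lit 0), (nat_lit 1000, nat_lit 1000, nat_lit 198), (nat_lit 960, nat_lit 1000, nat_lit 392)], (nat_lit 100, nat_lit 94, nat_lit 44)⟩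
noncomputable def p010_l0 : Lf2 := ⟨nat_lit 0, nat_lit 1, [nat_lit 19, nat_lit 5, nat_lit 5, nat_lit 20], true, nat_lit 0, nat_lit 0, nat_lit 0, nat_lit 0, ⟨nat_lit 0, nat_lit 0, nat_lit 1000, nat_lit 5, nat_lit 72, nat_lit 0, nat_lit 0, nat_lit 0, nat_lit 0, nat_lit 215, nat_lit 48600, nat_lit 269, nat_lit 64890281, nat_lit 0, nat_lit 0, nat_lit 699369, false, false⟩,
 nat_lit 0, nat_lit 4686, nat_lit 0, nat_lit 0, nat_lit 2541, nat_lit 0, nat_lit 1266, nat_lit 0, nat_lit 0, nat_lit 0, nat_lit 0, nat_lit 0, nat_lit 0, nat_lit 0, nat_lit 10, nat_lit 1000000, nat_lit 0, nat_lit 0, [(nat_lit 6, [(nat_lit 6, nat_lit 1000)])],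
 ⟨p010_k0, nat_lit 0, nat_lit 0, nat_lit 0, nat_lit 0, nat_lit 315625, [nat_lit 596400000, nat_lit 1109200000, nat_lit 8000000], [], [nat_lit 13252689596, nat_lit 13306032671, nat_lit 12971227611, nat_lit 13025203930], nat_lit 1271250, nat_lit 1271250, nat_lit 65850, nat_lit 230001, nat_lit 0, nat_lit 0, [nat_lit 490000, nat_lit 1100000, nat_lit 1442500], [nat_lit 6, nat_lit 40, nat_lit 20, nat_lit 40]⟩, C1.Rw.none,
 ⟨nat_lit 6204, nat_lit 6225, ⟨.ofNat (nat_lit 149840), .ofNat (nat_lit 206763), .ofNat (nat_lit 153044), .ofNat (nat_lit 209966), .ofNat (nat_lit 150722), .ofNat (nat_lit 207513), .ofNat (nat_lit 153925), .ofNat (nat_lit 210716)⟩, ⟨.ofNat (nat_lit 0), .ofNat (nat_lit 0), .ofNat (nat_lit 0), .ofNat (nat_lit 0), .ofNat (nat_lit 0), .ofNat (nat_lit 0), .ofNat (nat_lit 0), .ofNat (nat_lit 0)⟩⟩, [⟨nat_lit 0, nat_lit 100, nat_lit 99, nat_lit 39, nat_lit 159994582⟩]⟩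
noncomputable def p010_l1 : Lf2 := ⟨nat_lit 0, nat_lit 1, [nat_lit 19, nat_lit 5, nat_lit 5, nat_lit 20], true, nat_lit 0, nat_lit 0, nat_lit 0, nat_lit 0, ⟨nat_lit 0, nat_lit 0, nat_lit 1000, nat_lit 5, nat_lit 64, nat_lit 0, nat_lit 0, nat_lit 0, nat_lit 0, nat_lit 215, nat_lit 38400, nat_lit 263, nat_lit 65327509, nat_lit 0, nat_lit 0, nat_lit 583813, false, false⟩,
 nat_lit 0, nat_lit 100000, nat_lit 0, nat_lit 0, nat_lit 54243, nat_lit 0, nat_lit 60000, nat_lit 0, nat_lit 0, nat_lit 0, nat_lit 0, nat_lit 0, nat_lit 0, nat_lit 0, nat_lit 10, nat_lit 1000000, nat_lit 67837192569, nat_lit 0, [(nat_lit 6, [(nat_lit 6, nat_lit 1000)])],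
 ⟨p010_k1, nat_lit 0, nat_lit 0, nat_lit 285, nat_lit 0, nat_lit 315625, [nat_lit 1137066667, nat_lit 8000000], [], [nat_lit 1798384834, nat_lit 490197724, nat_lit 1304544149, nat_lit 0], nat_lit 1271250, nat_lit 1271250, nat_lit 65850, nat_lit 111251, nat_lit 0, nat_lit 0, [nat_lit 1100000, nat_lit 1442500], [nat_lit 31, nat_lit 40, nat_lit 20, nat_lit 80, nat_lit 3, nat_lit 215, nat_lit 10, nat_lit 9]⟩, C1.Rw.none,
 ⟨nat_lit 6204, nat_lit 6225, ⟨.ofNat (nat_lit 149840), .ofNat (nat_lit 166104), .ofNat (nat_lit 153044), .ofNat (nat_lit 169307), .ofNat (nat_lit 150722), .ofNat (nat_lit 166948), .ofNat (nat_lit 153925), .ofNat (nat_lit 170151)⟩, ⟨.ofNat (nat_lit 0), .ofNat (nat_lit 0), .ofNat (nat_lit 0), .ofNat (nat_lit 0), .ofNat (nat_lit 0), .ofNat (nat_lit 0), .ofNat (nat_lit 0), .ofNat (nat_lit 0)⟩⟩, [⟨nat_lit 0, nat_lit 100, nat_lit 99, nat_lit 39, nat_lit 419058364⟩]⟩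
noncomputable def p010_l2 : Lf2 := ⟨nat_lit 0, nat_lit 1, [nat_lit 19, nat_lit 5, nat_lit 5, nat_lit 20], false, nat_lit 0, nat_lit 0, nat_lit 0, nat_lit 0, ⟨nat_lit 1000, nat_lit 0, nat_lit 0, nat_lit 0, nat_lit 0, nat_lit 0, nat_lit 0, nat_lit 0, nat_lit 0, nat_lit 0, nat_lit 0, nat_lit 0, nat_lit 0, nat_lit 0, nat_lit 0, nat_lit 0, false, false⟩,
 nat_lit 84354, nat_lit 100000, nat_lit 0, nat_lit 0, nat_lit 100000, nat_lit 9400, nat_lit 37952, nat_lit 11689, nat_lit 0, nat_lit 5258, nat_lit 0, nat_lit 0, nat_lit 0, nat_lit 0, nat_lit 0, nat_lit 0, nat_lit 0, nat_lit 0, [],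
 ⟨p010_k1, nat_lit 0, nat_lit 0, nat_lit 281, nat_lit 0, nat_lit 315625, [nat_lit 191712000001, nat_lit 240030000000], [], [nat_lit 617193512002, nat_lit 615685405803, nat_lit 599965760502, nat_lit 600430903802], nat_lit 1271250, nat_lit 1271250, nat_lit 111251, nat_lit 230001, nat_lit 0, nat_lit 0, [nat_lit 1100000, nat_lit 1442500], [nat_lit 31, nat_lit 40, nat_lit 20, nat_lit 80, nat_lit 3, nat_lit 215, nat_lit 10, nat_lit 9]⟩, ⟨p010_k2, nat_lit 0, nat_lit 0, nat_lit 0, nat_lit 0, nat_lit 340276, [nat_lit 2637500000, nat_lit 5449500000, nat_lit 7089500000], [], [nat_lit 17351220350, nat_lit 17610634790, nat_lit 15764583150, nat_lit 16021380270], nat_lit 1271250, nat_lit 1271250, nat_lit 111251, nat_lit 230001, nat_lit 0, nat_lit 0, [nat_lit 631250, nat_lit 1271250, nat_lit 1271250], [nat_lit 90, nat_lit 40, nat_lit 20, nat_lit 40]⟩,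
 zbF0, []⟩
noncomputable def p010_l3 : Lf2 := ⟨nat_lit 0, nat_lit 1, [nat_lit 19, nat_lit 5, nat_lit 5, nat_lit 20], true, nat_lit 0, nat_lit 0, nat_lit 0, nat_lit 0, ⟨nat_lit 0, nat_lit 0, nat_lit 1000, nat_lit 5, nat_lit 73, nat_lit 0, nat_lit 0, nat_lit 0, nat_lit 0, nat_lit 215, nat_lit 50417, nat_lit 270, nat_lit 64829388, nat_lit 0, nat_lit 0, nat_lit 714872, false, false⟩,
 nat_lit 0, nat_lit 4686, nat_lit 0, nat_lit 0, nat_lit 2541, nat_lit 0, nat_lit 1266, nat_lit 0, nat_lit 0, nat_lit 0, nat_lit 0, nat_lit 0, nat_lit 0, nat_lit 0, nat_lit 10, nat_lit 1000000, nat_lit 0, nat_lit 0, [(nat_lit 6, [(nat_lit 6, nat_lit 1000)])],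
 ⟨p010_k0, nat_lit 0, nat_lit 0, nat_lit 0, nat_lit 0, nat_lit 322484, [nat_lit 596400000, nat_lit 1109200000, nat_lit 8000000], [], [nat_lit 13252689596, nat_lit 13306032671, nat_lit 12971227611, nat_lit 13025203930], nat_lit 1271250, nat_lit 1271250, nat_lit 65850, nat_lit 230001, nat_lit 0, nat_lit 0, [nat_lit 490000, nat_lit 1100000, nat_lit 1442500], [nat_lit 6, nat_lit 40, nat_lit 20, nat_lit 40]⟩, C1.Rw.none,
 ⟨nat_lit 6204, nat_lit 6225, ⟨.ofNat (nat_lit 153044), .ofNat (nat_lit 209966), .ofNat (nat_lit 155180), .ofNat (nat_lit 212102), .ofNat (nat_lit 153925), .ofNat (nat_lit 210716), .ofNat (nat_lit 156061), .ofNat (nat_lit 212851)⟩, ⟨.ofNat (nat_lit 0), .ofNat (nat_lit 0), .ofNat (nat_lit 0), .ofNat (nat_lit 0), .ofNat (nat_lit 0), .ofNat (nat_lit 0), .ofNat (nat_lit 0), .ofNat (nat_lit 0)⟩⟩, [⟨nat_lit 0, nat_lit 100, nat_lit 99, nat_lit 40, nat_lit 160805700⟩]⟩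
noncomputable def p010_l4 : Lf2 := ⟨nat_lit 0, nat_lit 1, [nat_lit 19, nat_lit 5, nat_lit 5, nat_lit 20], true, nat_lit 0, nat_lit 0, nat_lit 0, nat_lit 0, ⟨nat_lit 0, nat_lit 0, nat_lit 1000, nat_lit 5, nat_lit 65, nat_lit 0, nat_lit 0, nat_lit 0, nat_lit 0, nat_lit 215, nat_lit 40017, nat_lit 264, nat_lit 65272687, nat_lit 0, nat_lit 0, nat_lit 598742, false, false⟩,
 nat_lit 0, nat_lit 100000, nat_lit 0, nat_lit 0, nat_lit 54243, nat_lit 0, nat_lit 60000, nat_lit 0, nat_lit 0, nat_lit 0, nat_lit 0, nat_lit 0, nat_lit 0, nat_lit 0, nat_lit 10, nat_lit 1000000, nat_lit 67837192569, nat_lit 0, [(nat_lit 6, [(nat_lit 6, nat_lit 1000)])],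
 ⟨p010_k1, nat_lit 0, nat_lit 0, nat_lit 286, nat_lit 0, nat_lit 322484, [nat_lit 1137066667, nat_lit 8000000], [], [nat_lit 1798384834, nat_lit 490197724, nat_lit 1304544149, nat_lit 0], nat_lit 1271250, nat_lit 1271250, nat_lit 65850, nat_lit 111251, nat_lit 0, nat_lit 0, [nat_lit 1100000, nat_lit 1442500], [nat_lit 31, nat_lit 40, nat_lit 20, nat_lit 80, nat_lit 3, nat_lit 215, nat_lit 10, nat_lit 9]⟩, C1.Rw.none,
 ⟨nat_lit 6204, nat_lit 6225, ⟨.ofNat (nat_lit 153044), .ofNat (nat_lit 169307), .ofNat (nat_lit 155180), .ofNat (nat_lit 171443), .ofNat (nat_lit 153925), .ofNat (nat_lit 170151), .ofNat (nat_lit 156061), .ofNat (nat_lit 172286)⟩, ⟨.ofNat (nat_lit 0), .ofNat (nat_lit 0), .ofNat (nat_lit 0), .ofNat (nat_lit 0), .ofNat (nat_lit 0), .ofNat (nat_lit 0), .ofNat (nat_lit 0), .ofNat (nat_lit 0)⟩⟩, [⟨nat_lit 0, nat_lit 100, nat_lit 99, nat_lit 40, nat_lit 419869460⟩]⟩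
noncomputable def p010_l5 : Lf2 := ⟨nat_lit 0, nat_lit 1, [nat_lit 19, nat_lit 5, nat_lit 5, nat_lit 20], false, nat_lit 0, nat_lit 0, nat_lit 0, nat_lit 0, ⟨nat_lit 1000, nat_lit 0, nat_lit 0, nat_lit 0, nat_lit 0, nat_lit 0, nat_lit 0, nat_lit 0, nat_lit 0, nat_lit 0, nat_lit 0, nat_lit 0, nat_lit 0, nat_lit 0, nat_lit 0, nat_lit 0, false, false⟩,
 nat_lit 18309, nat_lit 136, nat_lit 0, nat_lit 0, nat_lit 10005, nat_lit 9361, nat_lit 0, nat_lit 735, nat_lit 0, nat_lit 4068, nat_lit 0, nat_lit 0, nat_lit 0, nat_lit 0, nat_lit 0, nat_lit 0, nat_lit 0, nat_lit 0, [],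
 ⟨p010_k1, nat_lit 0, nat_lit 0, nat_lit 282, nat_lit 0, nat_lit 322484, [nat_lit 16448000001, nat_lit 20950000000], [], [nat_lit 71989934427, nat_lit 71949291212, nat_lit 70644442045, nat_lit 70716406189], nat_lit 1271250, nat_lit 1271250, nat_lit 111251, nat_lit 230001, nat_lit 0, nat_lit 0, [nat_lit 1100000, nat_lit 1442500], [nat_lit 31, nat_lit 40, nat_lit 20, nat_lit 80, nat_lit 3, nat_lit 215, nat_lit 10, nat_lit 9]⟩, ⟨p010_k3, nat_lit 0, nat_lit 0, nat_lit 0, nat_lit 0, nat_lit 342370, [nat_lit 2637500000, nat_lit 5449500000, nat_lit 7089500000], [], [nat_lit 17655523391, nat_lit 17828023958, nat_lit 16074271760, nat_lit 16245032369], nat_lit 1271250, nat_lit 1271250, nat_lit 111251, nat_lit 230001, nat_lit 0, nat_lit 0, [nat_lit 631250, nat_lit 1271250, nat_lit 1271250], [nat_lit 90, nat_lit 40, nat_lit 20, nat_lit 40]⟩,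
 zbF0, []⟩
noncomputable def p010_l6 : Lf2 := ⟨nat_lit 0, nat_lit 1, [nat_lit 19, nat_lit 5, nat_lit 5, nat_lit 20], true, nat_lit 0, nat_lit 0, nat_lit 0, nat_lit 0, ⟨nat_lit 0, nat_lit 0, nat_lit 1000, nat_lit 5, nat_lit 72, nat_lit 0, nat_lit 0, nat_lit 0, nat_lit 0, nat_lit 215, nat_lit 48600, nat_lit 269, nat_lit 64871776, nat_lit 0, nat_lit 0, nat_lit 704095, false, false⟩,
 nat_lit 0, nat_lit 4657, nat_lit 0, nat_lit 0, nat_lit 2538, nat_lit 0, nat_lit 1084, nat_lit 0, nat_lit 0, nat_lit 0, nat_lit 0, nat_lit 0, nat_lit 0, nat_lit 0, nat_lit 10, nat_lit 1000000, nat_lit 0, nat_lit 0, [(nat_lit 6, [(nat_lit 6, nat_lit 1000)])],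
 ⟨p010_k4, nat_lit 0, nat_lit 0, nat_lit 0, nat_lit 0, nat_lit 318108, [nat_lit 596400000, nat_lit 1109200000, nat_lit 8000000], [], [nat_lit 13294332629, nat_lit 13349135703, nat_lit 13023748877, nat_lit 13077701864], nat_lit 1271250, nat_lit 1271250, nat_lit 65850, nat_lit 230001, nat_lit 0, nat_lit 0, [nat_lit 490000, nat_lit 1100000, nat_lit 1442500], [nat_lit 6, nat_lit 40, nat_lit 20, nat_lit 40]⟩, C1.Rw.none,
 ⟨nat_lit 6184, nat_lit 6205, ⟨.ofNat (nat_lit 150722), .ofNat (nat_lit 207513), .ofNat (nat_lit 153925), .ofNat (nat_lit 210716), .ofNat (nat_lit 151602), .ofNat (nat_lit 208261), .ofNat (nat_lit 154805), .ofNat (nat_lit 211464)⟩, ⟨.ofNat (nat_lit 0), .ofNat (nat_lit 0), .ofNat (nat_lit 0), .ofNat (nat_lit 0), .ofNat (nat_lit 0), .ofNat (nat_lit 0), .ofNat (nat_lit 0), .ofNat (nat_lit 0)⟩⟩, [⟨nat_lit 0, nat_lit 100, nat_lit 98, nat_lit 39, nat_lit 159076176⟩]⟩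
noncomputable def p010_l7 : Lf2 := ⟨nat_lit 0, nat_lit 1, [nat_lit 19, nat_lit 5, nat_lit 5, nat_lit 20], true, nat_lit 0, nat_lit 0, nat_lit 0, nat_lit 0, ⟨nat_lit 0, nat_lit 0, nat_lit 1000, nat_lit 5, nat_lit 64, nat_lit 0, nat_lit 0, nat_lit 0, nat_lit 0, nat_lit 215, nat_lit 38400, nat_lit 263, nat_lit 65309898, nat_lit 0, nat_lit 0, nat_lit 588624, false, false⟩,
 nat_lit 0, nat_lit 100000, nat_lit 0, nat_lit 0, nat_lit 54505, nat_lit 0, nat_lit 60000, nat_lit 0, nat_lit 0, nat_lit 0, nat_lit 0, nat_lit 0, nat_lit 0, nat_lit 0, nat_lit 10, nat_lit 1000000, nat_lit 74356230556, nat_lit 0, [(nat_lit 6, [(nat_lit 6, nat_lit 1000)])],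
 ⟨p010_k5, nat_lit 0, nat_lit 0, nat_lit 285, nat_lit 0, nat_lit 318108, [nat_lit 1137066667, nat_lit 8000000], [], [nat_lit 1804287856, nat_lit 489782050, nat_lit 1310845251, nat_lit 0], nat_lit 1271250, nat_lit 1271250, nat_lit 65850, nat_lit 111251, nat_lit 0, nat_lit 0, [nat_lit 1100000, nat_lit 1442500], [nat_lit 31, nat_lit 40, nat_lit 20, nat_lit 80, nat_lit 3, nat_lit 215, nat_lit 10, nat_lit 9]⟩, C1.Rw.none,
 ⟨nat_lit 6184, nat_lit 6205, ⟨.ofNat (nat_lit 150722), .ofNat (nat_lit 166948), .ofNat (nat_lit 153925), .ofNat (nat_lit 170151), .ofNat (nat_lit 151602), .ofNat (nat_lit 167790), .ofNat (nat_lit 154805), .ofNat (nat_lit 170993)⟩, ⟨.ofNat (nat_lit 0), .ofNat (nat_lit 0), .ofNat (nat_lit 0), .ofNat (nat_lit 0), .ofNat (nat_lit 0), .ofNat (nat_lit 0), .ofNat (nat_lit 0), .ofNat (nat_lit 0)⟩⟩, [⟨nat_lit 0, nat_lit 100, nat_lit 98, nat_lit 39, nat_lit 422567555⟩]⟩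
noncomputable def p010_l8 : Lf2 := ⟨nat_lit 0, nat_lit 1, [nat_lit 19, nat_lit 5, nat_lit 5, nat_lit 20], false, nat_lit 0, nat_lit 0, nat_lit 0, nat_lit 0, ⟨nat_lit 1000, nat_lit 0, nat_lit 0, nat_lit 0, nat_lit 0, nat_lit 0, nat_lit 0, nat_lit 0, nat_lit 0, nat_lit 0, nat_lit 0, nat_lit 0, nat_lit 0, nat_lit 0, nat_lit 0, nat_lit 0, false, false⟩,
 nat_lit 83469, nat_lit 100000, nat_lit 0, nat_lit 0, nat_lit 100000, nat_lit 9400, nat_lit 37707, nat_lit 11611, nat_lit 0, nat_lit 5258, nat_lit 0, nat_lit 0, nat_lit 0, nat_lit 0, nat_lit 0, nat_lit 0, nat_lit 0, nat_lit 0, [],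
 ⟨p010_k5, nat_lit 0, nat_lit 0, nat_lit 281, nat_lit 0, nat_lit 318108, [nat_lit 190464000001, nat_lit 238470000000], [], [nat_lit 609070970753, nat_lit 607580793602, nat_lit 591850741302, nat_lit 592315884603], nat_lit 1271250, nat_lit 1271250, nat_lit 111251, nat_lit 230001, nat_lit 0, nat_lit 0, [nat_lit 1100000, nat_lit 1442500], [nat_lit 31, nat_lit 40, nat_lit 20, nat_lit 80, nat_lit 3, nat_lit 215, nat_lit 10, nat_lit 9]⟩, ⟨p010_k2, nat_lit 0, nat_lit 0, nat_lit 0, nat_lit 0, nat_lit 344628, [nat_lit 2637500000, nat_lit 5449500000, nat_lit 7089500000], [], [nat_lit 17351220350, nat_lit 17610634790, nat_lit 15764583150, nat_lit 16021380270], nat_lit 1271250, nat_lit 1271250, nat_lit 111251, nat_lit 230001, nat_lit 0, nat_lit 0, [nat_lit 631250, nat_lit 1271250, nat_lit 1271250], [nat_lit 90, nat_lit 40, nat_lit 20, nat_lit 40]⟩,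
 zbF0, []⟩
noncomputable def p010_l9 : Lf2 := ⟨nat_lit 0, nat_lit 1, [nat_lit 19, nat_lit 5, nat_lit 5, nat_lit 20], true, nat_lit 0, nat_lit 0, nat_lit 0, nat_lit 0, ⟨nat_lit 0, nat_lit 0, nat_lit 1000, nat_lit 5, nat_lit 74, nat_lit 0, nat_lit 0, nat_lit 0, nat_lit 0, nat_lit 215, nat_lit 50417, nat_lit 270, nat_lit 64810654, nat_lit 0, nat_lit 0, nat_lit 719616, false, false⟩,
 nat_lit 0, nat_lit 4657, nat_lit 0, nat_lit 0, nat_lit 2538, nat_lit 0, nat_lit 1084, nat_lit 0, nat_lit 0, nat_lit 0, nat_lit 0, nat_lit 0, nat_lit 0, nat_lit 0, nat_lit 10, nat_lit 1000000, nat_lit 0, nat_lit 0, [(nat_lit 6, [(nat_lit 6, nat_lit 1000)])],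
 ⟨p010_k4, nat_lit 0, nat_lit 0, nat_lit 0, nat_lit 0, nat_lit 324935, [nat_lit 596400000, nat_lit 1109200000, nat_lit 8000000], [], [nat_lit 13294332629, nat_lit 13349135703, nat_lit 13023748877, nat_lit 13077701864], nat_lit 1271250, nat_lit 1271250, nat_lit 65850, nat_lit 230001, nat_lit 0, nat_lit 0, [nat_lit 490000, nat_lit 1100000, nat_lit 1442500], [nat_lit 6, nat_lit 40, nat_lit 20, nat_lit 40]⟩, C1.Rw.none,
 ⟨nat_lit 6184, nat_lit 6205, ⟨.ofNat (nat_lit 153925), .ofNat (nat_lit 210716), .ofNat (nat_lit 156061), .ofNat (nat_lit 212851), .ofNat (nat_lit 154805), .ofNat (nat_lit 211464), .ofNat (nat_lit 156940), .ofNat (nat_lit 213599)⟩, ⟨.ofNat (nat_lit 0), .ofNat (nat_lit 0), .ofNat (nat_lit 0), .ofNat (nat_lit 0), .ofNat (nat_lit 0), .ofNat (nat_lit 0), .ofNat (nat_lit 0), .ofNat (nat_lit 0)⟩⟩, [⟨nat_lit 0, nat_lit 100, nat_lit 99, nat_lit 40, nat_lit 158674081⟩]⟩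
noncomputable def p010_l10 : Lf2 := ⟨nat_lit 0, nat_lit 1, [nat_lit 19, nat_lit 5, nat_lit 5, nat_lit 20], true, nat_lit 0, nat_lit 0, nat_lit 0, nat_lit 0, ⟨nat_lit 0, nat_lit 0, nat_lit 1000, nat_lit 5, nat_lit 65, nat_lit 0, nat_lit 0, nat_lit 0, nat_lit 0, nat_lit 215, nat_lit 40017, nat_lit 264, nat_lit 65254821, nat_lit 0, nat_lit 0, nat_lit 603578, false, false⟩,
 nat_lit 0, nat_lit 100000, nat_lit 0, nat_lit 0, nat_lit 54505, nat_lit 0, nat_lit 60000, nat_lit 0, nat_lit 0, nat_lit 0, nat_lit 0, nat_lit 0, nat_lit 0, nat_lit 0, nat_lit 10, nat_lit 1000000, nat_lit 74356230556, nat_lit 0, [(nat_lit 6, [(nat_lit 6, nat_lit 1000)])],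
 ⟨p010_k5, nat_lit 0, nat_lit 0, nat_lit 286, nat_lit 0, nat_lit 324935, [nat_lit 1137066667, nat_lit 8000000], [], [nat_lit 1804287856, nat_lit 489782050, nat_lit 1310845251, nat_lit 0], nat_lit 1271250, nat_lit 1271250, nat_lit 65850, nat_lit 111251, nat_lit 0, nat_lit 0, [nat_lit 1100000, nat_lit 1442500], [nat_lit 31, nat_lit 40, nat_lit 20, nat_lit 80, nat_lit 3, nat_lit 215, nat_lit 10, nat_lit 9]⟩, C1.Rw.none,
 ⟨nat_lit 6184, nat_lit 6205, ⟨.ofNat (nat_lit 153925), .ofNat (nat_lit 170151), .ofNat (nat_lit 156061), .ofNat (nat_lit 172286), .ofNat (nat_lit 154805), .ofNat (nat_lit 170993), .ofNat (nat_lit 156940), .ofNat (nat_lit 173128)⟩, ⟨.ofNat (nat_lit 0), .ofNat (nat_lit 0), .ofNat (nat_lit 0), .ofNat (nat_lit 0), .ofNat (nat_lit 0), .ofNat (nat_lit 0), .ofNat (nat_lit 0), .ofNat (nat_lit 0)⟩⟩, [⟨nat_lit 0, nat_lit 100, nat_lit 99, nat_lit 40, nat_lit 419094751⟩]⟩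
noncomputable def p010_l11 : Lf2 := ⟨nat_lit 0, nat_lit 1, [nat_lit 19, nat_lit 5, nat_lit 5, nat_lit 20], false, nat_lit 0, nat_lit 0, nat_lit 0, nat_lit 0, ⟨nat_lit 1000, nat_lit 0, nat_lit 0, nat_lit 0, nat_lit 0, nat_lit 0, nat_lit 0, nat_lit 0, nat_lit 0, nat_lit 0, nat_lit 0, nat_lit 0, nat_lit 0, nat_lit 0, nat_lit 0, nat_lit 0, false, false⟩,
 nat_lit 83469, nat_lit 100000, nat_lit 0, nat_lit 0, nat_lit 100000, nat_lit 9361, nat_lit 38878, nat_lit 11626, nat_lit 0, nat_lit 4068, nat_lit 0, nat_lit 0, nat_lit 0, nat_lit 0, nat_lit 0, nat_lit 0, nat_lit 0, nat_lit 0, [],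
 ⟨p010_k5, nat_lit 0, nat_lit 0, nat_lit 282, nat_lit 0, nat_lit 324935, [nat_lit 190704000001, nat_lit 238770000000], [], [nat_lit 609565539503, nat_lit 608089931102, nat_lit 592359878802, nat_lit 592825022103], nat_lit 1271250, nat_lit 1271250, nat_lit 111251, nat_lit 230001, nat_lit 0, nat_lit 0, [nat_lit 1100000, nat_lit 1442500], [nat_lit 31, nat_lit 40, nat_lit 20, nat_lit 80, nat_lit 3, nat_lit 215, nat_lit 10, nat_lit 9]⟩, ⟨p010_k3, nat_lit 0, nat_lit 0, nat_lit 0, nat_lit 0, nat_lit 346657, [nat_lit 2637500000, nat_lit 5449500000, nat_lit 7089500000], [], [nat_lit 17655523391, nat_lit 17828023958, nat_lit 16074271760, nat_lit 16245032369], nat_lit 1271250, nat_lit 1271250, nat_lit 111251, nat_lit 230001, nat_lit 0, nat_lit 0, [nat_lit 631250, nat_lit 1271250, nat_lit 1271250], [nat_lit 90, nat_lit 40, nat_lit 20, nat_lit 40]⟩,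
 zbF0, []⟩
noncomputable def p010_l12 : Lf2 := ⟨nat_lit 0, nat_lit 1, [nat_lit 19, nat_lit 5, nat_lit 5, nat_lit 20], true, nat_lit 0, nat_lit 0, nat_lit 0, nat_lit 0, ⟨nat_lit 0, nat_lit 0, nat_lit 1000, nat_lit 5, nat_lit 73, nat_lit 0, nat_lit 0, nat_lit 0, nat_lit 0, nat_lit 215, nat_lit 50417, nat_lit 270, nat_lit 64853238, nat_lit 0, nat_lit 0, nat_lit 708816, false, false⟩,
 nat_lit 0, nat_lit 7338, nat_lit 0, nat_lit 0, nat_lit 4018, nat_lit 0, nat_lit 743, nat_lit 0, nat_lit 0, nat_lit 0, nat_lit 0, nat_lit 0, nat_lit 0, nat_lit 0, nat_lit 10, nat_lit 1000000, nat_lit 0, nat_lit 0, [(nat_lit 6, [(nat_lit 6, nat_lit 1000)])],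
 ⟨p010_k6, nat_lit 0, nat_lit 0, nat_lit 285, nat_lit 0, nat_lit 320609, [nat_lit 1137066667, nat_lit 8000000], [], [nat_lit 13006179728, nat_lit 13061583180, nat_lit 13155581042, nat_lit 13054013235], nat_lit 1271250, nat_lit 1271250, nat_lit 65850, nat_lit 230001, nat_lit 0, nat_lit 0, [nat_lit 1100000, nat_lit 1442500], [nat_lit 31, nat_lit 40, nat_lit 20, nat_lit 80, nat_lit 3, nat_lit 215, nat_lit 10, nat_lit 9]⟩, C1.Rw.none,
 ⟨nat_lit 6164, nat_lit 6185, ⟨.ofNat (nat_lit 151602), .ofNat (nat_lit 208261), .ofNat (nat_lit 154805), .ofNat (nat_lit 211464), .ofNat (nat_lit 152480), .ofNat (nat_lit 209008), .ofNat (nat_lit 155682), .ofNat (nat_lit 212211)⟩, ⟨.ofNat (nat_lit 0), .ofNat (nat_lit 0), .ofNat (nat_lit 0), .ofNat (nat_lit 0), .ofNat (nat_lit 0), .ofNat (nat_lit 0), .ofNat (nat_lit 0), .ofNat (nat_lit 0)⟩⟩, [⟨nat_lit 0, nat_lit 100, nat_lit 98, nat_lit 40, nat_lit 84339209⟩]⟩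
noncomputable def p010_l13 : Lf2 := ⟨nat_lit 0, nat_lit 1, [nat_lit 19, nat_lit 5, nat_lit 5, nat_lit 20], true, nat_lit 0, nat_lit 0, nat_lit 0, nat_lit 0, ⟨nat_lit 0, nat_lit 0, nat_lit 1000, nat_lit 5, nat_lit 75, nat_lit 0, nat_lit 0, nat_lit 0, nat_lit 0, nat_lit 215, nat_lit 54150, nat_lit 272, nat_lit 64697481, nat_lit 0, nat_lit 0, nat_lit 748008, false, false⟩,
 nat_lit 0, nat_lit 4780, nat_lit 0, nat_lit 0, nat_lit 2617, nat_lit 0, nat_lit 1095, nat_lit 0, nat_lit 0, nat_lit 0, nat_lit 0, nat_lit 0, nat_lit 0, nat_lit 0, nat_lit 10, nat_lit 1000000, nat_lit 0, nat_lit 0, [(nat_lit 6, [(nat_lit 6, nat_lit 1000)])],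
 ⟨p010_k7, nat_lit 0, nat_lit 0, nat_lit 0, nat_lit 0, nat_lit 327359, [nat_lit 596400000, nat_lit 1109200000, nat_lit 8000000], [], [nat_lit 13094165444, nat_lit 13151650004, nat_lit 12886745177, nat_lit 12941312571], nat_lit 1271250, nat_lit 1271250, nat_lit 88400, nat_lit 230001, nat_lit 0, nat_lit 0, [nat_lit 490000, nat_lit 1100000, nat_lit 1442500], [nat_lit 6, nat_lit 40, nat_lit 20, nat_lit 40]⟩, C1.Rw.none,
 ⟨nat_lit 6164, nat_lit 6185, ⟨.ofNat (nat_lit 162899), .ofNat (nat_lit 211464), .ofNat (nat_lit 165034), .ofNat (nat_lit 213599), .ofNat (nat_lit 163758), .ofNat (nat_lit 212211), .ofNat (nat_lit 165893), .ofNat (nat_lit 214346)⟩, ⟨.ofNat (nat_lit 0), .ofNat (nat_lit 0), .ofNat (nat_lit 0), .ofNat (nat_lit 0), .ofNat (nat_lit 0), .ofNat (nat_lit 0), .ofNat (nat_lit 0), .ofNat (nat_lit 0)⟩⟩, [⟨nat_lit 0, nat_lit 100, nat_lit 99, nat_lit 41, nat_lit 153490040⟩]⟩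
noncomputable def p010_l14 : Lf2 := ⟨nat_lit 0, nat_lit 1, [nat_lit 19, nat_lit 5, nat_lit 5, nat_lit 20], false, nat_lit 0, nat_lit 0, nat_lit 0, nat_lit 0, ⟨nat_lit 1000, nat_lit 0, nat_lit 0, nat_lit 0, nat_lit 0, nat_lit 0, nat_lit 0, nat_lit 0, nat_lit 0, nat_lit 0, nat_lit 0, nat_lit 0, nat_lit 0, nat_lit 0, nat_lit 0, nat_lit 0, false, false⟩,
 nat_lit 18119, nat_lit 0, nat_lit 0, nat_lit 0, nat_lit 9923, nat_lit 9264, nat_lit 114, nat_lit 732, nat_lit 0, nat_lit 3879, nat_lit 0, nat_lit 0, nat_lit 0, nat_lit 0, nat_lit 0, nat_lit 0, nat_lit 0, nat_lit 0, [],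
 ⟨p010_k6, nat_lit 0, nat_lit 0, nat_lit 283, nat_lit 0, nat_lit 327359, [nat_lit 16400000001, nat_lit 20890000000], [], [nat_lit 72345497077, nat_lit 72418506740, nat_lit 70729805537, nat_lit 70801411432], nat_lit 1271250, nat_lit 1271250, nat_lit 88400, nat_lit 230001, nat_lit 0, nat_lit 0, [nat_lit 1100000, nat_lit 1442500], [nat_lit 31, nat_lit 40, nat_lit 20, nat_lit 80, nat_lit 3, nat_lit 215, nat_lit 10, nat_lit 9]⟩, ⟨p010_k3, nat_lit 0, nat_lit 0, nat_lit 0, nat_lit 0, nat_lit 350944, [nat_lit 2637500000, nat_lit 5449500000, nat_lit 7089500000], [], [nat_lit 18355236408, nat_lit 18581755522, nat_lit 16280595466, nat_lit 16450268006], nat_lit 1271250, nat_lit 1271250, nat_lit 88400, nat_lit 230001, nat_lit 0, nat_lit 0, [nat_lit 631250, nat_lit 1271250, nat_lit 1271250], [nat_lit 90, nat_lit 40, nat_lit 20, nat_lit 40]⟩,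
 zbF0, [⟨nat_lit 0, nat_lit 100, nat_lit 99, nat_lit 40, nat_lit 1572167172⟩]⟩
noncomputable def p010_l15 : Lf2 := ⟨nat_lit 0, nat_lit 1, [nat_lit 19, nat_lit 5, nat_lit 5, nat_lit 20], true, nat_lit 0, nat_lit 0, nat_lit 0, nat_lit 0, ⟨nat_lit 0, nat_lit 0, nat_lit 1000, nat_lit 5, nat_lit 65, nat_lit 0, nat_lit 0, nat_lit 0, nat_lit 0, nat_lit 215, nat_lit 40017, nat_lit 264, nat_lit 65252391, nat_lit 0, nat_lit 0, nat_lit 604235, false, false⟩,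
 nat_lit 0, nat_lit 4809, nat_lit 0, nat_lit 0, nat_lit 2646, nat_lit 0, nat_lit 928, nat_lit 0, nat_lit 0, nat_lit 0, nat_lit 0, nat_lit 0, nat_lit 0, nat_lit 0, nat_lit 10, nat_lit 1000000, nat_lit 0, nat_lit 0, [(nat_lit 6, [(nat_lit 6, nat_lit 1000)])],
 ⟨p010_k8, nat_lit 0, nat_lit 0, nat_lit 0, nat_lit 0, nat_lit 329758, [nat_lit 596400000, nat_lit 1109200000, nat_lit 8000000], [], [nat_lit 13239218281, nat_lit 13297856125, nat_lit 13014657053, nat_lit 13072961720], nat_lit 1271250, nat_lit 1271250, nat_lit 65850, nat_lit 111251, nat_lit 0, nat_lit 0, [nat_lit 490000, nat_lit 1100000, nat_lit 1442500], [nat_lit 6, nat_lit 40, nat_lit 20, nat_lit 40]⟩, C1.Rw.none,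
 ⟨nat_lit 6144, nat_lit 6165, ⟨.ofNat (nat_lit 152480), .ofNat (nat_lit 168631), .ofNat (nat_lit 157818), .ofNat (nat_lit 173968), .ofNat (nat_lit 153356), .ofNat (nat_lit 169470), .ofNat (nat_lit 158694), .ofNat (nat_lit 174807)⟩, ⟨.ofNat (nat_lit 0), .ofNat (nat_lit 0), .ofNat (nat_lit 0), .ofNat (nat_lit 0), .ofNat (nat_lit 0), .ofNat (nat_lit 0), .ofNat (nat_lit 0), .ofNat (nat_lit 0)⟩⟩, [⟨nat_lit 0, nat_lit 100, nat_lit 98, nat_lit 42, nat_lit 251006001⟩]⟩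
noncomputable def p010_l16 : Lf2 := ⟨nat_lit 0, nat_lit 1, [nat_lit 19, nat_lit 5, nat_lit 5, nat_lit 20], true, nat_lit 0, nat_lit 0, nat_lit 0, nat_lit 0, ⟨nat_lit 0, nat_lit 397, nat_lit 603, nat_lit 5, nat_lit 65, nat_lit 0, nat_lit 0, nat_lit 0, nat_lit 0, nat_lit 215, nat_lit 40017, nat_lit 264, nat_lit 65252391, nat_lit 1747609, nat_lit 0, nat_lit 604235, false, false⟩,
 nat_lit 0, nat_lit 100000, nat_lit 0, nat_lit 0, nat_lit 55029, nat_lit 0, nat_lit 60000, nat_lit 0, nat_lit 0, nat_lit 0, nat_lit 0, nat_lit 0, nat_lit 0, nat_lit 0, nat_lit 0, nat_lit 702250, nat_lit 83870269660, nat_lit 0, [(nat_lit 6, [(nat_lit 0, nat_lit 397), (nat_lit 6, nat_lit 603)])],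
 ⟨p010_k9, nat_lit 0, nat_lit 0, nat_lit 285, nat_lit 0, nat_lit 329758, [nat_lit 1830987201, nat_lit 1110001200], [], [nat_lit 1815988321, nat_lit 488845124, nat_lit 1323447450, nat_lit 0], nat_lit 1271250, nat_lit 1271250, nat_lit 65850, nat_lit 111251, nat_lit 0, nat_lit 0, [nat_lit 1100000, nat_lit 1442500], [nat_lit 31, nat_lit 40, nat_lit 20, nat_lit 80, nat_lit 3, nat_lit 215, nat_lit 10, nat_lit 9]⟩, C1.Rw.none,
 ⟨nat_lit 6144, nat_lit 6165, ⟨.ofNat (nat_lit 152480), .ofNat (nat_lit 168631), .ofNat (nat_lit 157818), .ofNat (nat_lit 173968), .ofNat (nat_lit 153356), .ofNat (nat_lit 169470), .ofNat (nat_lit 158694), .ofNat (nat_lit 174807)⟩, ⟨.ofNat (nat_lit 0), .ofNat (nat_lit 0), .ofNat (nat_lit 0), .ofNat (nat_lit 0), .ofNat (nat_lit 0), .ofNat (nat_lit 0), .ofNat (nat_lit 0), .ofNat (nat_lit 0)⟩⟩, [⟨nat_lit 0, nat_lit 100, nat_lit 98, nat_lit 39, nat_lit 10204081633⟩]⟩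
noncomputable def p010_l17 : Lf2 := ⟨nat_lit 0, nat_lit 1, [nat_lit 19, nat_lit 5, nat_lit 5, nat_lit 20], true, nat_lit 0, nat_lit 0, nat_lit 0, nat_lit 0, ⟨nat_lit 0, nat_lit 0, nat_lit 1000, nat_lit 5, nat_lit 77, nat_lit 0, nat_lit 0, nat_lit 0, nat_lit 0, nat_lit 215, nat_lit 56067, nat_lit 273, nat_lit 64620691, nat_lit 0, nat_lit 0, nat_lit 767028, false, false⟩,
 nat_lit 0, nat_lit 7498, nat_lit 0, nat_lit 0, nat_lit 4126, nat_lit 0, nat_lit 705, nat_lit 0, nat_lit 0, nat_lit 0, nat_lit 0, nat_lit 0, nat_lit 0, nat_lit 0, nat_lit 10, nat_lit 1000000, nat_lit 0, nat_lit 0, [(nat_lit 6, [(nat_lit 6, nat_lit 1000)])],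
 ⟨p010_k9, nat_lit 0, nat_lit 0, nat_lit 281, nat_lit 0, nat_lit 329758, [nat_lit 1137066667, nat_lit 8000000], [], [nat_lit 12530875454, nat_lit 12590937129, nat_lit 12812807038, nat_lit 12708509185], nat_lit 1271250, nat_lit 1271250, nat_lit 111251, nat_lit 230001, nat_lit 0, nat_lit 0, [nat_lit 1100000, nat_lit 1442500], [nat_lit 31, nat_lit 40, nat_lit 20, nat_lit 80, nat_lit 3, nat_lit 215, nat_lit 10, nat_lit 9]⟩, C1.Rw.none,
 ⟨nat_lit 6144, nat_lit 6165, ⟨.ofNat (nat_lit 168631), .ofNat (nat_lit 209008), .ofNat (nat_lit 173968), .ofNat (nat_lit 214346), .ofNat (nat_lit 169470), .ofNat (nat_lit 209754), .ofNat (nat_lit 174807), .ofNat (nat_lit 215091)⟩, ⟨.ofNat (nat_lit 0), .ofNat (nat_lit 0), .ofNat (nat_lit 0), .ofNat (nat_lit 0), .ofNat (nat_lit 0), .ofNat (nat_lit 0), .ofNat (nat_lit 0), .ofNat (nat_lit 0)⟩⟩, []⟩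
noncomputable def p010_l18 : Lf2 := ⟨nat_lit 0, nat_lit 1, [nat_lit 19, nat_lit 5, nat_lit 5, nat_lit 20], true, nat_lit 0, nat_lit 0, nat_lit 0, nat_lit 0, ⟨nat_lit 0, nat_lit 0, nat_lit 1000, nat_lit 5, nat_lit 74, nat_lit 0, nat_lit 0, nat_lit 0, nat_lit 0, nat_lit 215, nat_lit 50417, nat_lit 270, nat_lit 64791414, nat_lit 0, nat_lit 0, nat_lit 724474, false, false⟩,
 nat_lit 0, nat_lit 7209, nat_lit 0, nat_lit 0, nat_lit 3986, nat_lit 0, nat_lit 637, nat_lit 0, nat_lit 0, nat_lit 0, nat_lit 0, nat_lit 0, nat_lit 0, nat_lit 0, nat_lit 10, nat_lit 1000000, nat_lit 0, nat_lit 0, [(nat_lit 6, [(nat_lit 6, nat_lit 1000)])],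
 ⟨p010_k10, nat_lit 0, nat_lit 0, nat_lit 285, nat_lit 0, nat_lit 332131, [nat_lit 1137066667, nat_lit 8000000], [], [nat_lit 13147466449, nat_lit 13206765851, nat_lit 12954336027, nat_lit 12853577121], nat_lit 1271250, nat_lit 1271250, nat_lit 65850, nat_lit 230001, nat_lit 0, nat_lit 0, [nat_lit 1100000, nat_lit 1442500], [nat_lit 31, nat_lit 40, nat_lit 20, nat_lit 80, nat_lit 3, nat_lit 215, nat_lit 10, nat_lit 9]⟩, C1.Rw.none,
 ⟨nat_lit 6123, nat_lit 6145, ⟨.ofNat (nat_lit 153356), .ofNat (nat_lit 209754), .ofNat (nat_lit 158694), .ofNat (nat_lit 215091), .ofNat (nat_lit 154231), .ofNat (nat_lit 210498), .ofNat (nat_lit 159568), .ofNat (nat_lit 215835)⟩, ⟨.ofNat (nat_lit 0), .ofNat (nat_lit 0), .ofNat (nat_lit 0), .ofNat (nat_lit 0), .ofNat (nat_lit 0), .ofNat (nat_lit 0), .ofNat (nat_lit 0), .ofNat (nat_lit 0)⟩⟩, [⟨nat_lit 0, nat_lit 100, nat_lit 98, nat_lit 42, nat_lit 145642056⟩]⟩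
noncomputable def p010_l19 : Lf2 := ⟨nat_lit 0, nat_lit 2, [nat_lit 10, nat_lit 5, nat_lit 5, nat_lit 20], true, nat_lit 0, nat_lit 0, nat_lit 0, nat_lit 0, ⟨nat_lit 0, nat_lit 0, nat_lit 1000, nat_lit 5, nat_lit 62, nat_lit 0, nat_lit 0, nat_lit 0, nat_lit 0, nat_lit 215, nat_lit 35267, nat_lit 261, nat_lit 65430540, nat_lit 0, nat_lit 0, nat_lit 555380, false, false⟩,
 nat_lit 0, nat_lit 7676, nat_lit 0, nat_lit 0, nat_lit 4163, nat_lit 0, nat_lit 162, nat_lit 0, nat_lit 0, nat_lit 0, nat_lit 0, nat_lit 0, nat_lit 0, nat_lit 0, nat_lit 44, nat_lit 1000000, nat_lit 0, nat_lit 0, [(nat_lit 6, [(nat_lit 6, nat_lit 1000)])],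
 ⟨p010_k11, nat_lit 0, nat_lit 0, nat_lit 0, nat_lit 0, nat_lit 270324, [nat_lit 1681066667, nat_lit 1358400000, nat_lit 17600000], [], [nat_lit 13032074491, nat_lit 13089382422, nat_lit 12868913880, nat_lit 12927011099], nat_lit 1271250, nat_lit 1271250, nat_lit 65850, nat_lit 88400, nat_lit 0, nat_lit 0, [nat_lit 1100000, nat_lit 1271250, nat_lit 1271250], [nat_lit 105, nat_lit 40, nat_lit 20, nat_lit 40]⟩, C1.Rw.none,
 ⟨nat_lit 6204, nat_lit 6225, ⟨.ofNat (nat_lit 149840), .ofNat (nat_lit 157972), .ofNat (nat_lit 150908), .ofNat (nat_lit 159040), .ofNat (nat_lit 150722), .ofNat (nat_lit 158835), .ofNat (nat_lit 151790), .ofNat (nat_lit 159903)⟩, ⟨.ofNat (nat_lit 0), .ofNat (nat_lit 0), .ofNat (nat_lit 0), .ofNat (nat_lit 0), .ofNat (nat_lit 0), .ofNat (nat_lit 0), .ofNat (nat_lit 0), .ofNat (nat_lit 0)⟩⟩, [⟨nat_lit 0, nat_lit 100, nat_lit 99, nat_lit 38, nat_lit 312506387⟩]⟩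
noncomputable def p010_l20 : Lf2 := ⟨nat_lit 0, nat_lit 2, [nat_lit 10, nat_lit 5, nat_lit 5, nat_lit 20], true, nat_lit 0, nat_lit 0, nat_lit 0, nat_lit 0, ⟨nat_lit 0, nat_lit 0, nat_lit 1000, nat_lit 5, nat_lit 62, nat_lit 0, nat_lit 0, nat_lit 0, nat_lit 0, nat_lit 215, nat_lit 35267, nat_lit 261, nat_lit 65430540, nat_lit 0, nat_lit 0, nat_lit 555380, false, false⟩,
 nat_lit 0, nat_lit 100000, nat_lit 0, nat_lit 0, nat_lit 54243, nat_lit 0, nat_lit 19532, nat_lit 3744, nat_lit 0, nat_lit 0, nat_lit 0, nat_lit 0, nat_lit 0, nat_lit 0, nat_lit 0, nat_lit 1000000, nat_lit 0, nat_lit 0, [(nat_lit 6, [(nat_lit 6, nat_lit 1000)])],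
 ⟨p010_k12, nat_lit 0, nat_lit 0, nat_lit 310, nat_lit 0, nat_lit 270324, [nat_lit 60881066667, nat_lit 74688000001, nat_lit 88147199999], [], [nat_lit 167438008015, nat_lit 166052659153, nat_lit 161871802300, nat_lit 162111635900], nat_lit 1271250, nat_lit 1271250, nat_lit 65850, nat_lit 88400, nat_lit 0, nat_lit 0, [nat_lit 1100000, nat_lit 1442500, nat_lit 1271250], [nat_lit 9, nat_lit 40, nat_lit 20, nat_lit 80, nat_lit 2, nat_lit 215, nat_lit 10, nat_lit 8]⟩, C1.Rw.none,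
 ⟨nat_lit 6204, nat_lit 6225, ⟨.ofNat (nat_lit 149840), .ofNat (nat_lit 157972), .ofNat (nat_lit 150908), .ofNat (nat_lit 159040), .ofNat (nat_lit 150722), .ofNat (nat_lit 158835), .ofNat (nat_lit 151790), .ofNat (nat_lit 159903)⟩, ⟨.ofNat (nat_lit 0), .ofNat (nat_lit 0), .ofNat (nat_lit 0), .ofNat (nat_lit 0), .ofNat (nat_lit 0), .ofNat (nat_lit 0), .ofNat (nat_lit 0), .ofNat (nat_lit 0)⟩⟩, [⟨nat_lit 0, nat_lit 100, nat_lit 99, nat_lit 38, nat_lit 7709608101⟩, ⟨nat_lit 0, nat_lit 100, nat_lit 99, nat_lit 37, nat_lit 10101010101⟩]⟩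
noncomputable def p010_l21 : Lf2 := ⟨nat_lit 0, nat_lit 2, [nat_lit 10, nat_lit 5, nat_lit 5, nat_lit 20], false, nat_lit 0, nat_lit 0, nat_lit 0, nat_lit 0, ⟨nat_lit 988, nat_lit 0, nat_lit 12, nat_lit 5, nat_lit 62, nat_lit 0, nat_lit 0, nat_lit 0, nat_lit 0, nat_lit 215, nat_lit 36817, nat_lit 262, nat_lit 65409341, nat_lit 0, nat_lit 0, nat_lit 561272, false, false⟩,
 nat_lit 21046, nat_lit 0, nat_lit 0, nat_lit 0, nat_lit 11416, nat_lit 10653, nat_lit 878, nat_lit 0, nat_lit 0, nat_lit 3143, nat_lit 0, nat_lit 0, nat_lit 0, nat_lit 0, nat_lit 0, nat_lit 12000, nat_lit 0, nat_lit 0, [(nat_lit 6, [(nat_lit 6, nat_lit 12)])],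
 ⟨p010_k12, nat_lit 0, nat_lit 0, nat_lit 311, nat_lit 0, nat_lit 273832, [nat_lit 4643468800, nat_lit 6172696000, nat_lit 7849368000], [], [nat_lit 25081239048, nat_lit 24853059365, nat_lit 23907810098, nat_lit 24045617347], nat_lit 1271250, nat_lit 1271250, nat_lit 65850, nat_lit 88400, nat_lit 0, nat_lit 0, [nat_lit 1100000, nat_lit 1442500, nat_lit 1271250], [nat_lit 9, nat_lit 40, nat_lit 20, nat_lit 80, nat_lit 2, nat_lit 215, nat_lit 10, nat_lit 8]⟩, ⟨p010_k13, nat_lit 0, nat_lit 0, nat_lit 0, nat_lit 0, nat_lit 293970, [nat_lit 2605850000, nat_lit 5384106000, nat_lit 7004426000, nat_lit 7872384000], [], [nat_lit 20829684080, nat_lit 20968592605, nat_lit 20234604911, nat_lit 20317486291], nat_lit 1271250, nat_lit 1271250, nat_lit 65850, nat_lit 88400, nat_lit 0, nat_lit 0, [nat_lit 631250, nat_lit 1271250, nat_lit 1271250, nat_lit 1271250], [nat_lit 139, nat_lit 40, nat_lit 20, nat_lit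 40]⟩,
 ⟨nat_lit 6204, nat_lit 6225, ⟨.ofNat (nat_lit 150908), .ofNat (nat_lit 159040), .ofNat (nat_lit 151976), .ofNat (nat_lit 160108), .ofNat (nat_lit 151790), .ofNat (nat_lit 159903), .ofNat (nat_lit 152857), .ofNat (nat_lit 160970)⟩, ⟨.ofNat (nat_lit 0), .ofNat (nat_lit 0), .ofNat (nat_lit 0), .ofNat (nat_lit 0), .ofNat (nat_lit 0), .ofNat (nat_lit 0), .ofNat (nat_lit 0), .ofNat (nat_lit 0)⟩⟩, [⟨nat_lit 0, nat_lit 100, nat_lit 99, nat_lit 38, nat_lit 3048912204⟩]⟩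
noncomputable def p010_l22 : Lf2 := ⟨nat_lit 0, nat_lit 2, [nat_lit 10, nat_lit 5, nat_lit 5, nat_lit 20], false, nat_lit 0, nat_lit 0, nat_lit 0, nat_lit 0, ⟨nat_lit 1000, nat_lit 0, nat_lit 0, nat_lit 0, nat_lit 0, nat_lit 0, nat_lit 0, nat_lit 0, nat_lit 0, nat_lit 0, nat_lit 0, nat_lit 0, nat_lit 0, nat_lit 0, nat_lit 0, nat_lit 0, false, false⟩,
 nat_lit 20794, nat_lit 0, nat_lit 0, nat_lit 0, nat_lit 11279, nat_lit 10579, nat_lit 667, nat_lit 0, nat_lit 0, nat_lit 3312, nat_lit 0, nat_lit 0, nat_lit 0, nat_lit 0, nat_lit 0, nat_lit 0, nat_lit 0, nat_lit 0, [],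
 ⟨p010_k12, nat_lit 0, nat_lit 0, nat_lit 313, nat_lit 0, nat_lit 277340, [nat_lit 4688000000, nat_lit 6250000000, nat_lit 7968000000], [], [nat_lit 25504716447, nat_lit 25282074320, nat_lit 24345369467, nat_lit 24484827716], nat_lit 1271250, nat_lit 1271250, nat_lit 65850, nat_lit 88400, nat_lit 0, nat_lit 0, [nat_lit 1100000, nat_lit 1442500, nat_lit 1271250], [nat_lit 9, nat_lit 40, nat_lit 20, nat_lit 80, nat_lit 2, nat_lit 215, nat_lit 10, nat_lit 8]⟩, ⟨p010_k14, nat_lit 0, nat_lit 0, nat_lit 0, nat_lit 0, nat_lit 296195, [nat_lit 2637500000, nat_lit 5449500000, nat_lit 7089500000, nat_lit 7968000000], [], [nat_lit 20936036373, nat_lit 21077691428, nat_lit 20346051608, nat_lit 20428959352], nat_lit 1271250, nat_lit 1271250, nat_lit 65850, nat_lit 88400, nat_lit 0, nat_lit 0, [nat_lit 631250, nat_lit 1271250, nat_lit 1271250, nat_lit 1271250], [nat_lit 139, nat_lit 40, nat_lit 20, nat_lit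 40]⟩,
 zbF0, [⟨nat_lit 0, nat_lit 100, nat_lit 99, nat_lit 38, nat_lit 3031779197⟩]⟩
noncomputable def p010_l23 : Lf2 := ⟨nat_lit 0, nat_lit 2, [nat_lit 10, nat_lit 5, nat_lit 5, nat_lit 20], false, nat_lit 0, nat_lit 0, nat_lit 0, nat_lit 0, ⟨nat_lit 1000, nat_lit 0, nat_lit 0, nat_lit 0, nat_lit 0, nat_lit 0, nat_lit 0, nat_lit 0, nat_lit 0, nat_lit 0, nat_lit 0, nat_lit 0, nat_lit 0, nat_lit 0, nat_lit 0, nat_lit 0, false, false⟩,
 nat_lit 19997, nat_lit 0, nat_lit 0, nat_lit 0, nat_lit 10847, nat_lit 10225, nat_lit 190, nat_lit 0, nat_lit 0, nat_lit 4094, nat_lit 0, nat_lit 0, nat_lit 0, nat_lit 0, nat_lit 0, nat_lit 0, nat_lit 0, nat_lit 0, [],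
 ⟨p010_k12, nat_lit 0, nat_lit 0, nat_lit 315, nat_lit 0, nat_lit 284355, [nat_lit 4688000000, nat_lit 6250000000, nat_lit 7968000000], [], [nat_lit 26135604283, nat_lit 25921782615, nat_lit 25020661762, nat_lit 25156685054], nat_lit 1271250, nat_lit 1271250, nat_lit 65850, nat_lit 88400, nat_lit 0, nat_lit 0, [nat_lit 1100000, nat_lit 1442500, nat_lit 1271250], [nat_lit 9, nat_lit 40, nat_lit 20, nat_lit 80, nat_lit 2, nat_lit 215, nat_lit 10, nat_lit 8]⟩, ⟨p010_k15, nat_lit 0, nat_lit 0, nat_lit 0, nat_lit 0, nat_lit 302121, [nat_lit 2637500000, nat_lit 5449500000, nat_lit 7089500000, nat_lit 7968000000], [], [nat_lit 20571454634, nat_lit 20851341031, nat_lit 19600045475, nat_lit 19880181265], nat_lit 1271250, nat_lit 1271250, nat_lit 65850, nat_lit 88400, nat_lit 0, nat_lit 0, [nat_lit 631250, nat_lit 1271250, nat_lit 1271250, nat_lit 1271250], [nat_lit 139, nat_lit 40, nat_lit 20, nat_lit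 40]⟩,
 zbF0, [⟨nat_lit 0, nat_lit 100, nat_lit 99, nat_lit 39, nat_lit 3456305925⟩]⟩
noncomputable def p010_l24 : Lf2 := ⟨nat_lit 0, nat_lit 2, [nat_lit 10, nat_lit 5, nat_lit 5, nat_lit 20], false, nat_lit 0, nat_lit 0, nat_lit 0, nat_lit 0, ⟨nat_lit 937, nat_lit 0, nat_lit 63, nat_lit 5, nat_lit 63, nat_lit 0, nat_lit 0, nat_lit 0, nat_lit 0, nat_lit 215, nat_lit 36817, nat_lit 262, nat_lit 65370509, nat_lit 0, nat_lit 0, nat_lit 572007, false, false⟩,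
 nat_lit 20321, nat_lit 0, nat_lit 0, nat_lit 0, nat_lit 11075, nat_lit 10234, nat_lit 1092, nat_lit 0, nat_lit 0, nat_lit 2991, nat_lit 0, nat_lit 0, nat_lit 0, nat_lit 0, nat_lit 0, nat_lit 63000, nat_lit 0, nat_lit 0, [(nat_lit 6, [(nat_lit 6, nat_lit 63)])],
 ⟨p010_k16, nat_lit 0, nat_lit 0, nat_lit 317, nat_lit 0, nat_lit 287039, [nat_lit 4454211200, nat_lit 5844154000, nat_lit 7345182000], [], [nat_lit 24121413884, nat_lit 24191049317, nat_lit 22983453647, nat_lit 23140474156], nat_lit 1271250, nat_lit 1271250, nat_lit 65850, nat_lit 88400, nat_lit 0, nat_lit 0, [nat_lit 1100000, nat_lit 1442500, nat_lit 1271250], [nat_lit 9, nat_lit 40, nat_lit 20, nat_lit 80, nat_lit 2, nat_lit 215, nat_lit 10, nat_lit 8]⟩, ⟨p010_k17, nat_lit 0, nat_lit 0, nat_lit 0, nat_lit 0, nat_lit 311291, [nat_lit 2471337500, nat_lit 5106181500, nat_lit 6642861500, nat_lit 7466016000], [], [nat_lit 19805014465,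 nat_lit 20484273908, nat_lit 19232498378, nat_lit 19628077813], nat_lit 1271250, nat_lit 1271250, nat_lit 65850, nat_lit 88400, nat_lit 0, nat_lit 0, [nat_lit 631250, nat_lit 1271250, nat_lit 1271250, nat_lit 1271250], [nat_lit 139, nat_lit 40, nat_lit 20, nat_lit 40]⟩,
 ⟨nat_lit 6184, nat_lit 6205, ⟨.ofNat (nat_lit 150722), .ofNat (nat_lit 158835), .ofNat (nat_lit 156061), .ofNat (nat_lit 164173), .ofNat (nat_lit 151602), .ofNat (nat_lit 159696), .ofNat (nat_lit 156940), .ofNat (nat_lit 165034)⟩, ⟨.ofNat (nat_lit 0), .ofNat (nat_lit 0), .ofNat (nat_lit 0), .ofNat (nat_lit 0), .ofNat (nat_lit 0), .ofNat (nat_lit 0), .ofNat (nat_lit 0), .ofNat (nat_lit 0)⟩⟩, [⟨nat_lit 0, nat_lit 100, nat_lit 98, nat_lit 38, nat_lit 2969044579⟩]⟩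
noncomputable def p010_l25 : Lf2 := ⟨nat_lit 0, nat_lit 2, [nat_lit 10, nat_lit 5, nat_lit 5, nat_lit 20], false, nat_lit 0, nat_lit 0, nat_lit 0, nat_lit 0, ⟨nat_lit 891, nat_lit 0, nat_lit 109, nat_lit 5, nat_lit 64, nat_lit 0, nat_lit 0, nat_lit 0, nat_lit 0, nat_lit 215, nat_lit 38400, nat_lit 263, nat_lit 65352957, nat_lit 0, nat_lit 0, nat_lit 576837, false, false⟩,
 nat_lit 19324, nat_lit 0, nat_lit 0, nat_lit 0, nat_lit 10583, nat_lit 9732, nat_lit 1078, nat_lit 0, nat_lit 0, nat_lit 2845, nat_lit 0, nat_lit 0, nat_lit 0, nat_lit 0, nat_lit 0, nat_lit 109000, nat_lit 0, nat_lit 0, [(nat_lit 6, [(nat_lit 6, nat_lit 109)])],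
 ⟨p010_k18, nat_lit 0, nat_lit 0, nat_lit 318, nat_lit 0, nat_lit 289694, [nat_lit 4283508267, nat_lit 5547822000, nat_lit 6890426000], [], [nat_lit 23524116874, nat_lit 23596644648, nat_lit 22437109217, nat_lit 22594361240], nat_lit 1271250, nat_lit 1271250, nat_lit 65850, nat_lit 88400, nat_lit 0, nat_lit 0, [nat_lit 1100000, nat_lit 1442500, nat_lit 1271250], [nat_lit 9, nat_lit 40, nat_lit 20, nat_lit 80, nat_lit 2, nat_lit 215, nat_lit 10, nat_lit 8]⟩, ⟨p010_k17, nat_lit 0, nat_lit 0, nat_lit 0, nat_lit 0, nat_lit 315719, [nat_lit 2350012500, nat_lit 4855504500, nat_lit 6316744500, nat_lit 7099488000], [], [nat_lit 18831133107, nat_lit 19479245712, nat_lit 18286782267, nat_lit 18663513236], nat_lit 1271250, nat_lit 1271250, nat_lit 65850, nat_lit 88400, nat_lit 0, nat_lit 0, [nat_lit 631250, nat_lit 1271250, nat_lit 1271250, nat_lit 1271250], [nat_lit 139, nat_lit 40, nat_lit 20, nat_lit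 40]⟩,
 ⟨nat_lit 6164, nat_lit 6185, ⟨.ofNat (nat_lit 151602), .ofNat (nat_lit 159696), .ofNat (nat_lit 156940), .ofNat (nat_lit 165034), .ofNat (nat_lit 152480), .ofNat (nat_lit 160555), .ofNat (nat_lit 157818), .ofNat (nat_lit 165893)⟩, ⟨.ofNat (nat_lit 0), .ofNat (nat_lit 0), .ofNat (nat_lit 0), .ofNat (nat_lit 0), .ofNat (nat_lit 0), .ofNat (nat_lit 0), .ofNat (nat_lit 0), .ofNat (nat_lit 0)⟩⟩, [⟨nat_lit 0, nat_lit 100, nat_lit 98, nat_lit 38, nat_lit 2833316874⟩]⟩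
noncomputable def p010_l26 : Lf2 := ⟨nat_lit 0, nat_lit 2, [nat_lit 10, nat_lit 5, nat_lit 5, nat_lit 20], false, nat_lit 0, nat_lit 0, nat_lit 0, nat_lit 0, ⟨nat_lit 846, nat_lit 0, nat_lit 154, nat_lit 5, nat_lit 64, nat_lit 0, nat_lit 0, nat_lit 0, nat_lit 0, nat_lit 215, nat_lit 38400, nat_lit 263, nat_lit 65326540, nat_lit 0, nat_lit 0, nat_lit 584078, false, false⟩,
 nat_lit 18346, nat_lit 0, nat_lit 0, nat_lit 0, nat_lit 10095, nat_lit 9239, nat_lit 1065, nat_lit 0, nat_lit 0, nat_lit 2701, nat_lit 0, nat_lit 0, nat_lit 0, nat_lit 0, nat_lit 0, nat_lit 154000, nat_lit 0, nat_lit 0, [(nat_lit 6, [(nat_lit 6, nat_lit 154)])],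
 ⟨p010_k19, nat_lit 0, nat_lit 0, nat_lit 322, nat_lit 0, nat_lit 296412, [nat_lit 4116516267, nat_lit 5257932000, nat_lit 6445556000], [], [nat_lit 22939029583, nat_lit 23177511650, nat_lit 21902526669, nat_lit 22223326080], nat_lit 1271250, nat_lit 1271250, nat_lit 65850, nat_lit 88400, nat_lit 0, nat_lit 0, [nat_lit 1100000, nat_lit 1442500, nat_lit 1271250], [nat_lit 9, nat_lit 40, nat_lit 20, nat_lit 80, nat_lit 2, nat_lit 215, nat_lit 10, nat_lit 8]⟩, ⟨p010_k17, nat_lit 0, nat_lit 0, nat_lit 0, nat_lit 0, nat_lit 324627, [nat_lit 2231325000, nat_lit 4610277000, nat_lit 5997717000, nat_lit 6740928000], [], [nat_lit 17881412124, nat_lit 18493293613, nat_lit 17364563581, nat_lit 17722204667], nat_lit 1271250, nat_lit 1271250, nat_lit 65850, nat_lit 88400, nat_lit 0, nat_lit 0, [nat_lit 631250, nat_lit 1271250, nat_lit 1271250, nat_lit 1271250], [nat_lit 139, nat_lit 40, nat_lit 20, nat_lit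 40]⟩,
 ⟨nat_lit 6123, nat_lit 6165, ⟨.ofNat (nat_lit 152480), .ofNat (nat_lit 160555), .ofNat (nat_lit 157818), .ofNat (nat_lit 165893), .ofNat (nat_lit 154231), .ofNat (nat_lit 162269), .ofNat (nat_lit 159568), .ofNat (nat_lit 167607)⟩, ⟨.ofNat (nat_lit 0), .ofNat (nat_lit 0), .ofNat (nat_lit 0), .ofNat (nat_lit 0), .ofNat (nat_lit 0), .ofNat (nat_lit 0), .ofNat (nat_lit 0), .ofNat (nat_lit 0)⟩⟩, [⟨nat_lit 0, nat_lit 100, nat_lit 98, nat_lit 39, nat_lit 2699723346⟩]⟩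
noncomputable def p010_l27 : Lf2 := ⟨nat_lit 0, nat_lit 2, [nat_lit 10, nat_lit 5, nat_lit 5, nat_lit 20], false, nat_lit 0, nat_lit 0, nat_lit 0, nat_lit 0, ⟨nat_lit 934, nat_lit 0, nat_lit 66, nat_lit 5, nat_lit 67, nat_lit 0, nat_lit 0, nat_lit 0, nat_lit 0, nat_lit 215, nat_lit 41667, nat_lit 265, nat_lit 65185684, nat_lit 0, nat_lit 0, nat_lit 622162, false, false⟩,
 nat_lit 20352, nat_lit 0, nat_lit 0, nat_lit 0, nat_lit 11039, nat_lit 10250, nat_lit 1011, nat_lit 0, nat_lit 0, nat_lit 2987, nat_lit 0, nat_lit 0, nat_lit 0, nat_lit 0, nat_lit 0, nat_lit 66000, nat_lit 0, nat_lit 0, [(nat_lit 6, [(nat_lit 6, nat_lit 66)])],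
 ⟨p010_k12, nat_lit 0, nat_lit 0, nat_lit 318, nat_lit 0, nat_lit 300818, [nat_lit 4443078400, nat_lit 5824828000, nat_lit 7315524000], [], [nat_lit 23377860003, nat_lit 23672048896, nat_lit 22243182167, nat_lit 22884064310], nat_lit 1271250, nat_lit 1271250, nat_lit 88400, nat_lit 111251, nat_lit 0, nat_lit 0, [nat_lit 1100000, nat_lit 1442500, nat_lit 1271250], [nat_lit 9, nat_lit 40, nat_lit 20, nat_lit 80, nat_lit 2, nat_lit 215, nat_lit 10, nat_lit 8]⟩, ⟨p010_k17, nat_lit 0, nat_lit 0, nat_lit 0, nat_lit 0, nat_lit 324627, [nat_lit 2463425000, nat_lit 5089833000, nat_lit 6621593000, nat_lit 7442112000], [], [nat_lit 19131430231, nat_lit 19526561008, nat_lit 18557808547, nat_lit 18953320109], nat_lit 1271250, nat_lit 1271250, nat_lit 88400, nat_lit 111251, nat_lit 0, nat_lit 0, [nat_lit 631250, nat_lit 1271250, nat_lit 1271250, nat_lit 1271250], [nat_lit 139, nat_lit 40, nat_lit 20,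 nat_lit 40]⟩,
 ⟨nat_lit 6123, nat_lit 6225, ⟨.ofNat (nat_lit 157972), .ofNat (nat_lit 166104), .ofNat (nat_lit 163311), .ofNat (nat_lit 171443), .ofNat (nat_lit 162269), .ofNat (nat_lit 170308), .ofNat (nat_lit 167607), .ofNat (nat_lit 175645)⟩, ⟨.ofNat (nat_lit 0), .ofNat (nat_lit 0), .ofNat (nat_lit 0), .ofNat (nat_lit 0), .ofNat (nat_lit 0), .ofNat (nat_lit 0), .ofNat (nat_lit 0), .ofNat (nat_lit 0)⟩⟩, [⟨nat_lit 0, nat_lit 100, nat_lit 98, nat_lit 40, nat_lit 1549136062⟩]⟩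
noncomputable def p010_l28 : Lf2 := ⟨nat_lit 0, nat_lit 2, [nat_lit 10, nat_lit 5, nat_lit 5, nat_lit 20], true, nat_lit 0, nat_lit 0, nat_lit 0, nat_lit 0, ⟨nat_lit 0, nat_lit 0, nat_lit 1000, nat_lit 5, nat_lit 76, nat_lit 0, nat_lit 0, nat_lit 0, nat_lit 0, nat_lit 215, nat_lit 54150, nat_lit 272, nat_lit 64639723, nat_lit 0, nat_lit 0, nat_lit 762332, false, false⟩,
 nat_lit 0, nat_lit 8041, nat_lit 0, nat_lit 0, nat_lit 4361, nat_lit 0, nat_lit 9, nat_lit 0, nat_lit 0, nat_lit 0, nat_lit 0, nat_lit 0, nat_lit 0, nat_lit 0, nat_lit 80, nat_lit 1000000, nat_lit 0, nat_lit 0, [(nat_lit 6, [(nat_lit 6, nat_lit 1000)])],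
 ⟨p010_k12, nat_lit 0, nat_lit 0, nat_lit 313, nat_lit 0, nat_lit 300818, [nat_lit 2257066667, nat_lit 1408000000, nat_lit 211200000], [], [nat_lit 12867925544, nat_lit 13030271690, nat_lit 13188973522, nat_lit 12637782371], nat_lit 1271250, nat_lit 1271250, nat_lit 111251, nat_lit 230001, nat_lit 0, nat_lit 0, [nat_lit 1100000, nat_lit 1442500, nat_lit 1271250], [nat_lit 9, nat_lit 40, nat_lit 20, nat_lit 80, nat_lit 2, nat_lit 215, nat_lit 10, nat_lit 8]⟩, C1.Rw.none,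
 ⟨nat_lit 6123, nat_lit 6225, ⟨.ofNat (nat_lit 166104), .ofNat (nat_lit 206763), .ofNat (nat_lit 171443), .ofNat (nat_lit 212102), .ofNat (nat_lit 170308), .ofNat (nat_lit 210498), .ofNat (nat_lit 175645), .ofNat (nat_lit 215835)⟩, ⟨.ofNat (nat_lit 0), .ofNat (nat_lit 0), .ofNat (nat_lit 0), .ofNat (nat_lit 0), .ofNat (nat_lit 0), .ofNat (nat_lit 0), .ofNat (nat_lit 0), .ofNat (nat_lit 0)⟩⟩, []⟩
noncomputable def p010_l29 : Lf2 := ⟨nat_lit 0, nat_lit 1, [nat_lit 19, nat_lit 5, nat_lit 5, nat_lit 20], true, nat_lit 0, nat_lit 0, nat_lit 0, nat_lit 0, ⟨nat_lit 0, nat_lit 0, nat_lit 1000, nat_lit 5, nat_lit 74, nat_lit 0, nat_lit 0, nat_lit 0, nat_lit 0, nat_lit 215, nat_lit 50417, nat_lit 270, nat_lit 64799051, nat_lit 0, nat_lit 0, nat_lit 722547, false, false⟩,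
 nat_lit 0, nat_lit 4741, nat_lit 0, nat_lit 0, nat_lit 2571, nat_lit 0, nat_lit 1301, nat_lit 0, nat_lit 0, nat_lit 0, nat_lit 0, nat_lit 0, nat_lit 0, nat_lit 0, nat_lit 10, nat_lit 1000000, nat_lit 0, nat_lit 0, [(nat_lit 6, [(nat_lit 6, nat_lit 1000)])],
 ⟨p010_k0, nat_lit 0, nat_lit 0, nat_lit 0, nat_lit 0, nat_lit 356129, [nat_lit 596400000, nat_lit 1109200000, nat_lit 8000000], [], [nat_lit 13109153419, nat_lit 13379300854, nat_lit 12952110881, nat_lit 13224564724], nat_lit 1271250, nat_lit 1271250, nat_lit 88400, nat_lit 181601, nat_lit 0, nat_lit 0, [nat_lit 490000, nat_lit 1100000, nat_lit 1442500], [nat_lit 6, nat_lit 40, nat_lit 20, nat_lit 40]⟩, C1.Rw.none,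
 ⟨nat_lit 6123, nat_lit 6225, ⟨.ofNat (nat_lit 163311), .ofNat (nat_lit 195838), .ofNat (nat_lit 168651), .ofNat (nat_lit 201178), .ofNat (nat_lit 167607), .ofNat (nat_lit 199759), .ofNat (nat_lit 172944), .ofNat (nat_lit 205096)⟩, ⟨.ofNat (nat_lit 0), .ofNat (nat_lit 0), .ofNat (nat_lit 0), .ofNat (nat_lit 0), .ofNat (nat_lit 0), .ofNat (nat_lit 0), .ofNat (nat_lit 0), .ofNat (nat_lit 0)⟩⟩, [⟨nat_lit 0, nat_lit 100, nat_lit 99, nat_lit 42, nat_lit 160806052⟩]⟩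
noncomputable def p010_l30 : Lf2 := ⟨nat_lit 0, nat_lit 1, [nat_lit 19, nat_lit 5, nat_lit 5, nat_lit 20], false, nat_lit 0, nat_lit 0, nat_lit 0, nat_lit 0, ⟨nat_lit 1000, nat_lit 0, nat_lit 0, nat_lit 0, nat_lit 0, nat_lit 0, nat_lit 0, nat_lit 0, nat_lit 0, nat_lit 0, nat_lit 0, nat_lit 0, nat_lit 0, nat_lit 0, nat_lit 0, nat_lit 0, false, false⟩,
 nat_lit 17547, nat_lit 0, nat_lit 0, nat_lit 0, nat_lit 9518, nat_lit 9062, nat_lit 0, nat_lit 714, nat_lit 0, nat_lit 3855, nat_lit 0, nat_lit 0, nat_lit 0, nat_lit 0, nat_lit 0, nat_lit 0, nat_lit 0, nat_lit 0, [],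
 ⟨p010_k1, nat_lit 0, nat_lit 0, nat_lit 287, nat_lit 0, nat_lit 356129, [nat_lit 16112000001, nat_lit 20530000000], [], [nat_lit 71984165103, nat_lit 72340143080, nat_lit 70914859267, nat_lit 71266505968], nat_lit 1271250, nat_lit 1271250, nat_lit 88400, nat_lit 181601, nat_lit 0, nat_lit 0, [nat_lit 1100000, nat_lit 1442500], [nat_lit 31, nat_lit 40, nat_lit 20, nat_lit 80, nat_lit 3, nat_lit 215, nat_lit 10, nat_lit 9]⟩, ⟨p010_k20, nat_lit 0, nat_lit 0, nat_lit 0, nat_lit 0, nat_lit 374270, [nat_lit 2637500000, nat_lit 5449500000, nat_lit 7089500000], [], [nat_lit 18395351210, nat_lit 18954725124, nat_lit 16981362945, nat_lit 17401581836], nat_lit 1271250, nat_lit 1271250, nat_lit 88400, nat_lit 181601, nat_lit 0, nat_lit 0, [nat_lit 631250, nat_lit 1271250, nat_lit 1271250], [nat_lit 90, nat_lit 40, nat_lit 20, nat_lit 40]⟩,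
 zbF0, [⟨nat_lit 0, nat_lit 100, nat_lit 99, nat_lit 40, nat_lit 1585677147⟩]⟩
noncomputable def p010_l31 : Lf2 := ⟨nat_lit 0, nat_lit 2, [nat_lit 10, nat_lit 5, nat_lit 5, nat_lit 20], false, nat_lit 0, nat_lit 0, nat_lit 0, nat_lit 0, ⟨nat_lit 1000, nat_lit 0, nat_lit 0, nat_lit 0, nat_lit 0, nat_lit 0, nat_lit 0, nat_lit 0, nat_lit 0, nat_lit 0, nat_lit 0, nat_lit 0, nat_lit 0, nat_lit 0, nat_lit 0, nat_lit 0, false, false⟩,
 nat_lit 19463, nat_lit 435, nat_lit 0, nat_lit 0, nat_lit 10793, nat_lit 10052, nat_lit 202, nat_lit 0, nat_lit 0, nat_lit 3595, nat_lit 0, nat_lit 0, nat_lit 0, nat_lit 0, nat_lit 0, nat_lit 0, nat_lit 0, nat_lit 0, [],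
 ⟨p010_k12, nat_lit 0, nat_lit 0, nat_lit 319, nat_lit 0, nat_lit 306621, [nat_lit 4688000000, nat_lit 6250000000, nat_lit 7968000000], [], [nat_lit 25076668968, nat_lit 25247980133, nat_lit 23611778674, nat_lit 23764855365], nat_lit 1271250, nat_lit 1271250, nat_lit 88400, nat_lit 181601, nat_lit 0, nat_lit 0, [nat_lit 1100000, nat_lit 1442500, nat_lit 1271250], [nat_lit 9, nat_lit 40, nat_lit 20, nat_lit 80, nat_lit 2, nat_lit 215, nat_lit 10, nat_lit 8]⟩, ⟨p010_k21, nat_lit 0, nat_lit 0, nat_lit 0, nat_lit 0, nat_lit 322445, [nat_lit 2637500000, nat_lit 5449500000, nat_lit 7089500000, nat_lit 7968000000], [], [nat_lit 19817219523, nat_lit 20339887188, nat_lit 18213848957, nat_lit 18613411760], nat_lit 1271250, nat_lit 1271250, nat_lit 88400, nat_lit 181601, nat_lit 0, nat_lit 0, [nat_lit 631250, nat_lit 1271250, nat_lit 1271250, nat_lit 1271250], [nat_lit 139, nat_lit 40, nat_lit 20,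 nat_lit 40]⟩,
 zbF0, [⟨nat_lit 0, nat_lit 100, nat_lit 99, nat_lit 40, nat_lit 1770291143⟩]⟩
noncomputable def p010_l32 : Lf2 := ⟨nat_lit 0, nat_lit 2, [nat_lit 10, nat_lit 5, nat_lit 5, nat_lit 20], false, nat_lit 0, nat_lit 0, nat_lit 0, nat_lit 0, ⟨nat_lit 1000, nat_lit 0, nat_lit 0, nat_lit 0, nat_lit 0, nat_lit 0, nat_lit 0, nat_lit 0, nat_lit 0, nat_lit 0, nat_lit 0, nat_lit 0, nat_lit 0, nat_lit 0, nat_lit 0, nat_lit 0, false, false⟩,
 nat_lit 19970, nat_lit 0, nat_lit 0, nat_lit 0, nat_lit 10937, nat_lit 10314, nat_lit 955, nat_lit 0, nat_lit 0, nat_lit 3261, nat_lit 0, nat_lit 0, nat_lit 0, nat_lit 0, nat_lit 0, nat_lit 0, nat_lit 0, nat_lit 0, [],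
 ⟨p010_k18, nat_lit 0, nat_lit 0, nat_lit 320, nat_lit 0, nat_lit 307612, [nat_lit 4688000000, nat_lit 6250000000, nat_lit 7968000000], [], [nat_lit 23902517526, nat_lit 24016093161, nat_lit 21634474045, nat_lit 21743626962], nat_lit 1271250, nat_lit 1271250, nat_lit 88400, nat_lit 181601, nat_lit 0, nat_lit 0, [nat_lit 1100000, nat_lit 1442500, nat_lit 1271250], [nat_lit 9, nat_lit 40, nat_lit 20, nat_lit 80, nat_lit 2, nat_lit 215, nat_lit 10, nat_lit 8]⟩, ⟨p010_k21, nat_lit 0, nat_lit 0, nat_lit 0, nat_lit 0, nat_lit 326690, [nat_lit 2637500000, nat_lit 5449500000, nat_lit 7089500000, nat_lit 7968000000], [], [nat_lit 20034398447, nat_lit 20706465431, nat_lit 18382834160, nat_lit 18788676921], nat_lit 1271250, nat_lit 1271250, nat_lit 88400, nat_lit 181601, nat_lit 0, nat_lit 0, [nat_lit 631250, nat_lit 1271250, nat_lit 1271250, nat_lit 1271250], [nat_lit 139, nat_lit 40, nat_lit 20,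 nat_lit 40]⟩,
 zbF0, [⟨nat_lit 0, nat_lit 100, nat_lit 99, nat_lit 42, nat_lit 2035667677⟩]⟩
noncomputable def p010_l33 : Lf2 := ⟨nat_lit 0, nat_lit 2, [nat_lit 10, nat_lit 5, nat_lit 5, nat_lit 20], false, nat_lit 0, nat_lit 0, nat_lit 0, nat_lit 0, ⟨nat_lit 1000, nat_lit 0, nat_lit 0, nat_lit 0, nat_lit 0, nat_lit 0, nat_lit 0, nat_lit 0, nat_lit 0, nat_lit 0, nat_lit 0, nat_lit 0, nat_lit 0, nat_lit 0, nat_lit 0, nat_lit 0, false, false⟩,
 nat_lit 19861, nat_lit 0, nat_lit 0, nat_lit 0, nat_lit 10929, nat_lit 10257, nat_lit 1364, nat_lit 0, nat_lit 0, nat_lit 3385, nat_lit 0, nat_lit 0, nat_lit 0, nat_lit 0, nat_lit 0, nat_lit 0, nat_lit 0, nat_lit 0, [],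
 ⟨p010_k19, nat_lit 0, nat_lit 0, nat_lit 324, nat_lit 0, nat_lit 314063, [nat_lit 4688000000, nat_lit 6250000000, nat_lit 7968000000], [], [nat_lit 23266669226, nat_lit 23503235856, nat_lit 20921275176, nat_lit 21194846202], nat_lit 1271250, nat_lit 1271250, nat_lit 88400, nat_lit 181601, nat_lit 0, nat_lit 0, [nat_lit 1100000, nat_lit 1442500, nat_lit 1271250], [nat_lit 9, nat_lit 40, nat_lit 20, nat_lit 80, nat_lit 2, nat_lit 215, nat_lit 10, nat_lit 8]⟩, ⟨p010_k21, nat_lit 0, nat_lit 0, nat_lit 0, nat_lit 0, nat_lit 335181, [nat_lit 2637500000, nat_lit 5449500000, nat_lit 7089500000, nat_lit 7968000000], [], [nat_lit 19925546544, nat_lit 20626713676, nat_lit 18284467150, nat_lit 18688943660], nat_lit 1271250, nat_lit 1271250, nat_lit 88400, nat_lit 181601, nat_lit 0, nat_lit 0, [nat_lit 631250, nat_lit 1271250, nat_lit 1271250, nat_lit 1271250], [nat_lit 139, nat_lit 40, nat_lit 20,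 nat_lit 40]⟩,
 zbF0, [⟨nat_lit 0, nat_lit 100, nat_lit 99, nat_lit 43, nat_lit 2041130261⟩]⟩
noncomputable def p010_l34 : Lf2 := ⟨nat_lit 0, nat_lit 2, [nat_lit 10, nat_lit 5, nat_lit 5, nat_lit 20], false, nat_lit 0, nat_lit 0, nat_lit 0, nat_lit 0, ⟨nat_lit 1000, nat_lit 0, nat_lit 0, nat_lit 0, nat_lit 0, nat_lit 0, nat_lit 0, nat_lit 0, nat_lit 0, nat_lit 0, nat_lit 0, nat_lit 0, nat_lit 0, nat_lit 0, nat_lit 0, nat_lit 0, false, false⟩,
 nat_lit 16938, nat_lit 0, nat_lit 0, nat_lit 0, nat_lit 9187, nat_lit 8748, nat_lit 0, nat_lit 0, nat_lit 0, nat_lit 6705, nat_lit 0, nat_lit 0, nat_lit 0, nat_lit 0, nat_lit 0, nat_lit 0, nat_lit 0, nat_lit 0, [],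
 ⟨p010_k12, nat_lit 0, nat_lit 0, nat_lit 327, nat_lit 0, nat_lit 362864, [nat_lit 4688000000, nat_lit 6250000000, nat_lit 7968000000], [], [nat_lit 31066688559, nat_lit 29884800302, nat_lit 29163357135, nat_lit 27984991173], nat_lit 1271250, nat_lit 1271250, nat_lit 181601, nat_lit 230001, nat_lit 0, nat_lit 0, [nat_lit 1100000, nat_lit 1442500, nat_lit 1271250], [nat_lit 9, nat_lit 40, nat_lit 20, nat_lit 80, nat_lit 2, nat_lit 215, nat_lit 10, nat_lit 8]⟩, ⟨p010_k21, nat_lit 0, nat_lit 0, nat_lit 0, nat_lit 0, nat_lit 381591, [nat_lit 2637500000, nat_lit 5449500000, nat_lit 7089500000, nat_lit 7968000000], [], [nat_lit 15635614204, nat_lit 16003939741, nat_lit 15046316098, nat_lit 15419427056], nat_lit 1271250, nat_lit 1271250, nat_lit 181601, nat_lit 230001, nat_lit 0, nat_lit 0, [nat_lit 631250, nat_lit 1271250, nat_lit 1271250, nat_lit 1271250], [nat_lit 139, nat_lit 40, nat_lit 20,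 nat_lit 40]⟩,
 zbF0, []⟩
noncomputable def b_NL_600_550_0_20 : St := ⟨false, nat_lit 1, nat_lit 1, nat_lit 1, nat_lit 20, nat_lit 245, nat_lit 250, nat_lit 230, nat_lit 240, nat_lit 12, nat_lit 40, nat_lit 0, nat_lit 0, nat_lit 0, nat_lit 0, nat_lit 0, nat_lit 0, nat_lit 0, nat_lit 8, nat_lit 0, nat_lit 0, nat_lit 0, nat_lit 800⟩
theorem d_NL_600_550_0_20 (h : EB TB.env) : Dead b_NL_600_550_0_20 := chkB_sound0 h (T :=
(.spl (nat_lit 1) (nat_lit 235)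
(.spl (nat_lit 6) (nat_lit 4)
(.spl (nat_lit 0) (nat_lit 248)
(.spl (nat_lit 0) (nat_lit 247)
(.spl (nat_lit 0) (nat_lit 246)
(.spl (nat_lit 1) (nat_lit 233)
(.spl (nat_lit 7) (nat_lit 600)
(.leaf p010_l0)
(.spl (nat_lit 2) (nat_lit 20)
(.leaf p010_l1)
(.leaf p010_l2)))
(.spl (nat_lit 7) (nat_lit 600)
(.leaf p010_l3)
(.spl (nat_lit 2) (nat_lit 20)
(.leaf p010_l4)
(.leaf p010_l5))))
(.spl (nat_lit 1) (nat_lit 233)
(.spl (nat_lit 7) (nat_lit 600)
(.leaf p010_l6)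
(.spl (nat_lit 2) (nat_lit 20)
(.leaf p010_l7)
(.leaf p010_l8)))
(.spl (nat_lit 7) (nat_lit 600)
(.leaf p010_l9)
(.spl (nat_lit 2) (nat_lit 20)
(.leaf p010_l10)
(.leaf p010_l11)))))
(.spl (nat_lit 1) (nat_lit 233)
(.leaf p010_l12)
(.trZ (nat_lit 0) (nat_lit 100) (nat_lit 99) (nat_lit 40) (nat_lit 16) (.spl (nat_lit 7) (nat_lit 600)
(.leaf p010_l13)
(.leaf p010_l14)))))
(.spl (nat_lit 0) (nat_lit 249)
(.spl (nat_lit 2) (nat_lit 20)
(.spl (nat_lit 7) (nat_lit 600)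
(.leaf p010_l15)
(.leaf p010_l16))
(.leaf p010_l17))
(.leaf p010_l18)))
(.spl (nat_lit 2) (nat_lit 20)
(.spl (nat_lit 2) (nat_lit 16)
(.spl (nat_lit 0) (nat_lit 248)
(.spl (nat_lit 0) (nat_lit 247)
(.spl (nat_lit 0) (nat_lit 246)
(.spl (nat_lit 1) (nat_lit 233)
(.spl (nat_lit 1) (nat_lit 232)
(.spl (nat_lit 1) (nat_lit 231)
(.spl (nat_lit 7) (nat_lit 600)
(.leaf p010_l19)
(.leaf p010_l20))
(.leaf p010_l21))
(.leaf p010_l22))
(.leaf p010_l23))
(.leaf p010_l24))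
(.leaf p010_l25))
(.leaf p010_l26))
(.leaf p010_l27))
(.leaf p010_l28)))
(.trZ (nat_lit 0) (nat_lit 100) (nat_lit 99) (nat_lit 40) (nat_lit 16) (.spl (nat_lit 2) (nat_lit 32)
(.spl (nat_lit 6) (nat_lit 4)
(.spl (nat_lit 7) (nat_lit 600)
(.leaf p010_l29)
(.leaf p010_l30))
(.spl (nat_lit 0) (nat_lit 248)
(.spl (nat_lit 0) (nat_lit 247)
(.leaf p010_l31)
(.leaf p010_l32))
(.leaf p010_l33)))
(.leaf p010_l34))))) (by decide +kernel)
noncomputable def p010_l35 : Lf2 := ⟨nat_lit 0, nat_lit 3, [nat_lit 45, nat_lit 5, nat_lit 5, nat_lit 20], true, nat_lit 0, nat_lit 0, nat_lit 0, nat_lit 0, ⟨nat_lit 0, nat_lit 0, nat_lit 1000, nat_lit 5, nat_lit 69, nat_lit 0, nat_lit 0, nat_lit 0, nat_lit 0, nat_lit 215, nat_lit 45067, nat_lit 267, nat_lit 65071313, nat_lit 0, nat_lit 0, nat_lit 652463, false, false⟩,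
 nat_lit 0, nat_lit 4493, nat_lit 0, nat_lit 0, nat_lit 2378, nat_lit 0, nat_lit 0, nat_lit 0, nat_lit 95, nat_lit 0, nat_lit 0, nat_lit 0, nat_lit 0, nat_lit 0, nat_lit 80, nat_lit 1000000, nat_lit 0, nat_lit 0, [(nat_lit 6, [(nat_lit 6, nat_lit 1000)])],
 ⟨p010_k22, nat_lit 0, nat_lit 0, nat_lit 0, nat_lit 0, nat_lit 273057, [nat_lit 2257066667, nat_lit 1408000000, nat_lit 211200000], [], [nat_lit 10017308778, nat_lit 10393772356, nat_lit 9594606110, nat_lit 9891798459], nat_lit 1271250, nat_lit 1271250, nat_lit 43600, nat_lit 230001, nat_lit 0, nat_lit 0, [nat_lit 1100000, nat_lit 1442500, nat_lit 1271250], [nat_lit 9, nat_lit 40, nat_lit 20, nat_lit 80]⟩, C1.Rw.none,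
 ⟨nat_lit 6224, nat_lit 6325, ⟨.ofNat (nat_lit 126498), .ofNat (nat_lit 192309), .ofNat (nat_lit 147866), .ofNat (nat_lit 213677), .ofNat (nat_lit 131030), .ofNat (nat_lit 196084), .ofNat (nat_lit 152387), .ofNat (nat_lit 217441)⟩, ⟨.ofNat (nat_lit 0), .ofNat (nat_lit 0), .ofNat (nat_lit 0), .ofNat (nat_lit 0), .ofNat (nat_lit 0), .ofNat (nat_lit 0), .ofNat (nat_lit 0), .ofNat (nat_lit 0)⟩⟩, [⟨nat_lit 0, nat_lit 100, nat_lit 99, nat_lit 42, nat_lit 177119402⟩]⟩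
noncomputable def p010_l36 : Lf2 := ⟨nat_lit 0, nat_lit 3, [nat_lit 45, nat_lit 5, nat_lit 5, nat_lit 20], true, nat_lit 0, nat_lit 0, nat_lit 0, nat_lit 0, ⟨nat_lit 0, nat_lit 0, nat_lit 1000, nat_lit 5, nat_lit 67, nat_lit 0, nat_lit 0, nat_lit 0, nat_lit 0, nat_lit 215, nat_lit 41667, nat_lit 265, nat_lit 65185925, nat_lit 0, nat_lit 0, nat_lit 622097, false, false⟩,
 nat_lit 0, nat_lit 5670, nat_lit 0, nat_lit 0, nat_lit 3001, nat_lit 0, nat_lit 0, nat_lit 0, nat_lit 91, nat_lit 0, nat_lit 0, nat_lit 0, nat_lit 0, nat_lit 0, nat_lit 80, nat_lit 1000000, nat_lit 0, nat_lit 0, [(nat_lit 6, [(nat_lit 6, nat_lit 1000)])],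
 ⟨p010_k22, nat_lit 0, nat_lit 0, nat_lit 0, nat_lit 0, nat_lit 235473, [nat_lit 2257066667, nat_lit 1408000000, nat_lit 211200000], [], [nat_lit 10269740122, nat_lit 10543310725, nat_lit 10791594363, nat_lit 10412294972], nat_lit 1271250, nat_lit 1271250, nat_lit 43600, nat_lit 230001, nat_lit 0, nat_lit 0, [nat_lit 1100000, nat_lit 1442500, nat_lit 1271250], [nat_lit 9, nat_lit 40, nat_lit 20, nat_lit 80]⟩, C1.Rw.none,
 ⟨nat_lit 6224, nat_lit 6325, ⟨.ofNat (nat_lit 126498), .ofNat (nat_lit 192309), .ofNat (nat_lit 137182), .ofNat (nat_lit 202993), .ofNat (nat_lit 131030), .ofNat (nat_lit 196084), .ofNat (nat_lit 141709), .ofNat (nat_lit 206763)⟩, ⟨.ofNat (nat_lit 0), .ofNat (nat_lit 0), .ofNat (nat_lit 0), .ofNat (nat_lit 0), .ofNat (nat_lit 0), .ofNat (nat_lit 0), .ofNat (nat_lit 0), .ofNat (nat_lit 0)⟩⟩, [⟨nat_lit 0, nat_lit 100, nat_lit 99, nat_lit 37, nat_lit 26537691⟩]⟩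
noncomputable def p010_l37 : Lf2 := ⟨nat_lit 0, nat_lit 3, [nat_lit 45, nat_lit 5, nat_lit 5, nat_lit 20], false, nat_lit 0, nat_lit 0, nat_lit 0, nat_lit 0, ⟨nat_lit 300, nat_lit 0, nat_lit 700, nat_lit 5, nat_lit 73, nat_lit 0, nat_lit 0, nat_lit 0, nat_lit 0, nat_lit 215, nat_lit 48600, nat_lit 269, nat_lit 64861169, nat_lit 0, nat_lit 0, nat_lit 706798, false, false⟩,
 nat_lit 6784, nat_lit 0, nat_lit 0, nat_lit 0, nat_lit 3591, nat_lit 3416, nat_lit 0, nat_lit 0, nat_lit 128, nat_lit 757, nat_lit 0, nat_lit 0, nat_lit 0, nat_lit 0, nat_lit 0, nat_lit 700000, nat_lit 0, nat_lit 0, [(nat_lit 6, [(nat_lit 6, nat_lit 700)])],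
 ⟨p010_k22, nat_lit 0, nat_lit 0, nat_lit 0, nat_lit 0, nat_lit 273057, [nat_lit 2090346667, nat_lit 1740600000, nat_lit 1182540000], [], [nat_lit 12328999529, nat_lit 12659049191, nat_lit 12768055003, nat_lit 12314184922], nat_lit 1271250, nat_lit 1271250, nat_lit 65850, nat_lit 230001, nat_lit 0, nat_lit 0, [nat_lit 1100000, nat_lit 1442500, nat_lit 1271250], [nat_lit 9, nat_lit 40, nat_lit 20, nat_lit 80]⟩, ⟨p010_k23, nat_lit 0, nat_lit 0, nat_lit 0, nat_lit 0, nat_lit 287596, [nat_lit 1875000000, nat_lit 2390400000], [], [nat_lit 7393669476, nat_lit 7001346610, nat_lit 7410500400, nat_lit 6546997088], nat_lit 1271250, nat_lit 1271250, nat_lit 65850, nat_lit 230001, nat_lit 0, nat_lit 0, [nat_lit 1412500, nat_lit 1271250], [nat_lit 26, nat_lit 40, nat_lit 20, nat_lit 80]⟩,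
 ⟨nat_lit 6224, nat_lit 6325, ⟨.ofNat (nat_lit 145408), .ofNat (nat_lit 202993), .ofNat (nat_lit 156092), .ofNat (nat_lit 213677), .ofNat (nat_lit 149840), .ofNat (nat_lit 206763), .ofNat (nat_lit 160519), .ofNat (nat_lit 217441)⟩, ⟨.ofNat (nat_lit 0), .ofNat (nat_lit 0), .ofNat (nat_lit 0), .ofNat (nat_lit 0), .ofNat (nat_lit 0), .ofNat (nat_lit 0), .ofNat (nat_lit 0), .ofNat (nat_lit 0)⟩⟩, [⟨nat_lit 0, nat_lit 100, nat_lit 99, nat_lit 39, nat_lit 240876600⟩]⟩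
noncomputable def p010_l38 : Lf2 := ⟨nat_lit 0, nat_lit 3, [nat_lit 45, nat_lit 5, nat_lit 5, nat_lit 20], true, nat_lit 0, nat_lit 0, nat_lit 0, nat_lit 0, ⟨nat_lit 0, nat_lit 0, nat_lit 1000, nat_lit 5, nat_lit 59, nat_lit 0, nat_lit 0, nat_lit 0, nat_lit 0, nat_lit 215, nat_lit 32267, nat_lit 259, nat_lit 65594624, nat_lit 0, nat_lit 0, nat_lit 509015, false, false⟩,
 nat_lit 0, nat_lit 12695, nat_lit 0, nat_lit 0, nat_lit 6720, nat_lit 0, nat_lit 625, nat_lit 0, nat_lit 0, nat_lit 0, nat_lit 0, nat_lit 0, nat_lit 0, nat_lit 0, nat_lit 80, nat_lit 1000000, nat_lit 0, nat_lit 0, [(nat_lit 6, [(nat_lit 6, nat_lit 1000)])],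
 ⟨p010_k22, nat_lit 0, nat_lit 0, nat_lit 0, nat_lit 0, nat_lit 235473, [nat_lit 2257066667, nat_lit 1408000000, nat_lit 211200000], [], [nat_lit 10639625701, nat_lit 11026476824, nat_lit 9793798827, nat_lit 9951231885], nat_lit 1271250, nat_lit 1271250, nat_lit 43600, nat_lit 111251, nat_lit 0, nat_lit 0, [nat_lit 1100000, nat_lit 1442500, nat_lit 1271250], [nat_lit 9, nat_lit 40, nat_lit 20, nat_lit 80]⟩, C1.Rw.none,
 ⟨nat_lit 6224, nat_lit 6325, ⟨.ofNat (nat_lit 126498), .ofNat (nat_lit 151177), .ofNat (nat_lit 137182), .ofNat (nat_lit 161861), .ofNat (nat_lit 131030), .ofNat (nat_lit 155426), .ofNat (nat_lit 141709), .ofNat (nat_lit 166104)⟩, ⟨.ofNat (nat_lit 0), .ofNat (nat_lit 0), .ofNat (nat_lit 0), .ofNat (nat_lit 0), .ofNat (nat_lit 0), .ofNat (nat_lit 0), .ofNat (nat_lit 0), .ofNat (nat_lit 0)⟩⟩, [⟨nat_lit 0, nat_lit 100, nat_lit 99, nat_lit 37, nat_lit 556911486⟩]⟩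
noncomputable def p010_l39 : Lf2 := ⟨nat_lit 0, nat_lit 3, [nat_lit 45, nat_lit 5, nat_lit 5, nat_lit 20], false, nat_lit 0, nat_lit 0, nat_lit 0, nat_lit 0, ⟨nat_lit 677, nat_lit 0, nat_lit 323, nat_lit 5, nat_lit 64, nat_lit 0, nat_lit 0, nat_lit 0, nat_lit 0, nat_lit 215, nat_lit 38400, nat_lit 263, nat_lit 65304222, nat_lit 0, nat_lit 0, nat_lit 590171, false, false⟩,
 nat_lit 17026, nat_lit 2633, nat_lit 0, nat_lit 0, nat_lit 10407, nat_lit 8575, nat_lit 2227, nat_lit 0, nat_lit 0, nat_lit 1039, nat_lit 0, nat_lit 0, nat_lit 0, nat_lit 0, nat_lit 0, nat_lit 323000, nat_lit 0, nat_lit 0, [(nat_lit 6, [(nat_lit 6, nat_lit 323)])],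
 ⟨p010_k22, nat_lit 0, nat_lit 0, nat_lit 0, nat_lit 0, nat_lit 273057, [nat_lit 3489368534, nat_lit 4169234001, nat_lit 4815990599], [], [nat_lit 16438644730, nat_lit 16945612281, nat_lit 15350323232, nat_lit 15783961069], nat_lit 1271250, nat_lit 1271250, nat_lit 65850, nat_lit 111251, nat_lit 0, nat_lit 0, [nat_lit 1100000, nat_lit 1442500, nat_lit 1271250], [nat_lit 9, nat_lit 40, nat_lit 20, nat_lit 80]⟩, ⟨p010_k23, nat_lit 0, nat_lit 0, nat_lit 0, nat_lit 0, nat_lit 287596, [nat_lit 4231250000, nat_lit 5394336000], [], [nat_lit 16484295259, nat_lit 17064131977, nat_lit 15516847982, nat_lit 16059877366], nat_lit 1271250, nat_lit 1271250, nat_lit 65850, nat_lit 111251, nat_lit 0, nat_lit 0, [nat_lit 1412500, nat_lit 1271250], [nat_lit 26, nat_lit 40, nat_lit 20, nat_lit 80]⟩,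
 ⟨nat_lit 6224, nat_lit 6325, ⟨.ofNat (nat_lit 145408), .ofNat (nat_lit 161861), .ofNat (nat_lit 156092), .ofNat (nat_lit 172545), .ofNat (nat_lit 149840), .ofNat (nat_lit 166104), .ofNat (nat_lit 160519), .ofNat (nat_lit 176782)⟩, ⟨.ofNat (nat_lit 0), .ofNat (nat_lit 0), .ofNat (nat_lit 0), .ofNat (nat_lit 0), .ofNat (nat_lit 0), .ofNat (nat_lit 0), .ofNat (nat_lit 0), .ofNat (nat_lit 0)⟩⟩, [⟨nat_lit 0, nat_lit 100, nat_lit 99, nat_lit 39, nat_lit 1936334273⟩]⟩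
noncomputable def p010_l40 : Lf2 := ⟨nat_lit 2, nat_lit 3, [nat_lit 45, nat_lit 5, nat_lit 5, nat_lit 20], true, nat_lit 0, nat_lit 0, nat_lit 0, nat_lit 0, zbN0,
 nat_lit 0, nat_lit 0, nat_lit 0, nat_lit 0, nat_lit 0, nat_lit 0, nat_lit 0, nat_lit 0, nat_lit 0, nat_lit 0, nat_lit 0, nat_lit 0, nat_lit 0, nat_lit 0, nat_lit 0, nat_lit 0, nat_lit 0, nat_lit 0, [],
 ⟨p010_k24, nat_lit 0, nat_lit 0, nat_lit 0, nat_lit 0, nat_lit 273057, [], [], [], nat_lit 1271250, nat_lit 1271250, nat_lit 43600, nat_lit 111251, nat_lit 0, nat_lit 0, [nat_lit 490000, nat_lit 1100000, nat_lit 1442500, nat_lit 1271250], [nat_lit 98, nat_lit 40, nat_lit 20, nat_lit 80]⟩, C1.Rw.none,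
 zbF0, []⟩
noncomputable def p010_l41 : Lf2 := ⟨nat_lit 0, nat_lit 3, [nat_lit 45, nat_lit 5, nat_lit 5, nat_lit 20], true, nat_lit 0, nat_lit 0, nat_lit 0, nat_lit 0, ⟨nat_lit 0, nat_lit 0, nat_lit 1000, nat_lit 5, nat_lit 73, nat_lit 0, nat_lit 0, nat_lit 0, nat_lit 0, nat_lit 215, nat_lit 50417, nat_lit 270, nat_lit 64814429, nat_lit 0, nat_lit 0, nat_lit 718661, false, false⟩,
 nat_lit 0, nat_lit 12702, nat_lit 0, nat_lit 0, nat_lit 6724, nat_lit 0, nat_lit 636, nat_lit 0, nat_lit 0, nat_lit 0, nat_lit 0, nat_lit 0, nat_lit 0, nat_lit 0, nat_lit 80, nat_lit 1000000, nat_lit 0, nat_lit 0, [(nat_lit 6, [(nat_lit 6, nat_lit 1000)])],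
 ⟨p010_k22, nat_lit 0, nat_lit 0, nat_lit 0, nat_lit 0, nat_lit 264890, [nat_lit 2257066667, nat_lit 1408000000, nat_lit 211200000], [], [nat_lit 9787638539, nat_lit 9776603623, nat_lit 10019014571, nat_lit 9509102721], nat_lit 1271250, nat_lit 1271250, nat_lit 111251, nat_lit 230001, nat_lit 0, nat_lit 0, [nat_lit 1100000, nat_lit 1442500, nat_lit 1271250], [nat_lit 9, nat_lit 40, nat_lit 20, nat_lit 80]⟩, C1.Rw.none,
 ⟨nat_lit 6264, nat_lit 6325, ⟨.ofNat (nat_lit 151177), .ofNat (nat_lit 192309), .ofNat (nat_lit 172545), .ofNat (nat_lit 213677), .ofNat (nat_lit 153731), .ofNat (nat_lit 194579), .ofNat (nat_lit 175092), .ofNat (nat_lit 215940)⟩, ⟨.ofNat (nat_lit 0), .ofNat (nat_lit 0), .ofNat (nat_lit 0), .ofNat (nat_lit 0), .ofNat (nat_lit 0), .ofNat (nat_lit 0), .ofNat (nat_lit 0), .ofNat (nat_lit 0)⟩⟩, []⟩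
noncomputable def p010_l42 : Lf2 := ⟨nat_lit 0, nat_lit 3, [nat_lit 45, nat_lit 5, nat_lit 5, nat_lit 20], true, nat_lit 0, nat_lit 0, nat_lit 0, nat_lit 0, ⟨nat_lit 0, nat_lit 0, nat_lit 1000, nat_lit 5, nat_lit 74, nat_lit 0, nat_lit 0, nat_lit 0, nat_lit 0, nat_lit 215, nat_lit 52267, nat_lit 271, nat_lit 64768084, nat_lit 0, nat_lit 0, nat_lit 730347, false, false⟩,
 nat_lit 0, nat_lit 10910, nat_lit 0, nat_lit 0, nat_lit 5860, nat_lit 0, nat_lit 522, nat_lit 0, nat_lit 0, nat_lit 0, nat_lit 0, nat_lit 0, nat_lit 0, nat_lit 0, nat_lit 80, nat_lit 1000000, nat_lit 0, nat_lit 0, [(nat_lit 6, [(nat_lit 6, nat_lit 1000)])],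
 ⟨p010_k25, nat_lit 0, nat_lit 0, nat_lit 0, nat_lit 0, nat_lit 268939, [nat_lit 2257066667, nat_lit 1408000000, nat_lit 211200000], [], [nat_lit 10553150111, nat_lit 10575422670, nat_lit 10819100471, nat_lit 10522839967], nat_lit 1271250, nat_lit 1271250, nat_lit 111251, nat_lit 230001, nat_lit 0, nat_lit 0, [nat_lit 1100000, nat_lit 1442500, nat_lit 1271250], [nat_lit 9, nat_lit 40, nat_lit 20, nat_lit 80]⟩, C1.Rw.none,
 ⟨nat_lit 6224, nat_lit 6265, ⟨.ofNat (nat_lit 153731), .ofNat (nat_lit 194579), .ofNat (nat_lit 175092), .ofNat (nat_lit 215940), .ofNat (nat_lit 155426), .ofNat (nat_lit 196084), .ofNat (nat_lit 176782), .ofNat (nat_lit 217441)⟩, ⟨.ofNat (nat_lit 0), .ofNat (nat_lit 0), .ofNat (nat_lit 0), .ofNat (nat_lit 0), .ofNat (nat_lit 0), .ofNat (nat_lit 0), .ofNat (nat_lit 0), .ofNat (nat_lit 0)⟩⟩, []⟩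
noncomputable def p010_l43 : Lf2 := ⟨nat_lit 0, nat_lit 3, [nat_lit 45, nat_lit 5, nat_lit 5, nat_lit 20], true, nat_lit 0, nat_lit 0, nat_lit 0, nat_lit 0, ⟨nat_lit 0, nat_lit 0, nat_lit 1000, nat_lit 5, nat_lit 69, nat_lit 0, nat_lit 0, nat_lit 0, nat_lit 0, nat_lit 215, nat_lit 45067, nat_lit 267, nat_lit 65071313, nat_lit 0, nat_lit 0, nat_lit 652463, false, false⟩,
 nat_lit 0, nat_lit 100000, nat_lit 0, nat_lit 0, nat_lit 52941, nat_lit 0, nat_lit 0, nat_lit 2544, nat_lit 0, nat_lit 0, nat_lit 0, nat_lit 0, nat_lit 0, nat_lit 0, nat_lit 0, nat_lit 1000000, nat_lit 0, nat_lit 0, [(nat_lit 6, [(nat_lit 6, nat_lit 1000)])],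
 ⟨p010_k22, nat_lit 0, nat_lit 0, nat_lit 316, nat_lit 0, nat_lit 273057, [nat_lit 41681066667, nat_lit 50688000001, nat_lit 59347199999], [], [nat_lit 121702449460, nat_lit 114931978499, nat_lit 88403040988, nat_lit 89388975573], nat_lit 1271250, nat_lit 1271250, nat_lit 43600, nat_lit 230001, nat_lit 0, nat_lit 0, [nat_lit 1100000, nat_lit 1442500, nat_lit 1271250], [nat_lit 9, nat_lit 40, nat_lit 20, nat_lit 80, nat_lit 2, nat_lit 215, nat_lit 10, nat_lit 8]⟩, C1.Rw.none,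
 ⟨nat_lit 6224, nat_lit 6325, ⟨.ofNat (nat_lit 126498), .ofNat (nat_lit 192309), .ofNat (nat_lit 147866), .ofNat (nat_lit 213677), .ofNat (nat_lit 131030), .ofNat (nat_lit 196084), .ofNat (nat_lit 152387), .ofNat (nat_lit 217441)⟩, ⟨.ofNat (nat_lit 0), .ofNat (nat_lit 0), .ofNat (nat_lit 0), .ofNat (nat_lit 0), .ofNat (nat_lit 0), .ofNat (nat_lit 0), .ofNat (nat_lit 0), .ofNat (nat_lit 0)⟩⟩, [⟨nat_lit 0, nat_lit 100, nat_lit 99, nat_lit 42, nat_lit 4937079545⟩]⟩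
noncomputable def p010_l44 : Lf2 := ⟨nat_lit 0, nat_lit 3, [nat_lit 45, nat_lit 5, nat_lit 5, nat_lit 20], true, nat_lit 0, nat_lit 0, nat_lit 0, nat_lit 0, ⟨nat_lit 0, nat_lit 0, nat_lit 1000, nat_lit 5, nat_lit 59, nat_lit 0, nat_lit 0, nat_lit 0, nat_lit 0, nat_lit 215, nat_lit 32267, nat_lit 259, nat_lit 65578963, nat_lit 0, nat_lit 0, nat_lit 513501, false, false⟩,
 nat_lit 0, nat_lit 7499, nat_lit 0, nat_lit 0, nat_lit 4067, nat_lit 0, nat_lit 128, nat_lit 0, nat_lit 0, nat_lit 0, nat_lit 0, nat_lit 0, nat_lit 0, nat_lit 0, nat_lit 80, nat_lit 1000000, nat_lit 0, nat_lit 0, [(nat_lit 6, [(nat_lit 6, nat_lit 1000)])],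
 ⟨p010_k26, nat_lit 0, nat_lit 0, nat_lit 298, nat_lit 0, nat_lit 225504, [nat_lit 2257066667, nat_lit 1408000000, nat_lit 211200000], [], [nat_lit 13352753829, nat_lit 13505839269, nat_lit 13309795336, nat_lit 13031247627], nat_lit 1271250, nat_lit 1271250, nat_lit 43600, nat_lit 111251, nat_lit 0, nat_lit 0, [nat_lit 1100000, nat_lit 1442500, nat_lit 1271250], [nat_lit 9, nat_lit 40, nat_lit 20, nat_lit 80, nat_lit 2, nat_lit 215, nat_lit 10, nat_lit 8]⟩, C1.Rw.none,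
 ⟨nat_lit 6164, nat_lit 6225, ⟨.ofNat (nat_lit 131030), .ofNat (nat_lit 155426), .ofNat (nat_lit 136369), .ofNat (nat_lit 160765), .ofNat (nat_lit 133729), .ofNat (nat_lit 157955), .ofNat (nat_lit 139067), .ofNat (nat_lit 163293)⟩, ⟨.ofNat (nat_lit 0), .ofNat (nat_lit 0), .ofNat (nat_lit 0), .ofNat (nat_lit 0), .ofNat (nat_lit 0), .ofNat (nat_lit 0), .ofNat (nat_lit 0), .ofNat (nat_lit 0)⟩⟩, [⟨nat_lit 0, nat_lit 100, nat_lit 98, nat_lit 36, nat_lit 133474993⟩]⟩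
noncomputable def p010_l45 : Lf2 := ⟨nat_lit 0, nat_lit 3, [nat_lit 45, nat_lit 5, nat_lit 5, nat_lit 20], true, nat_lit 0, nat_lit 0, nat_lit 0, nat_lit 0, ⟨nat_lit 0, nat_lit 0, nat_lit 1000, nat_lit 5, nat_lit 60, nat_lit 0, nat_lit 0, nat_lit 0, nat_lit 0, nat_lit 215, nat_lit 33750, nat_lit 260, nat_lit 65537608, nat_lit 0, nat_lit 0, nat_lit 525284, false, false⟩,
 nat_lit 0, nat_lit 7327, nat_lit 0, nat_lit 0, nat_lit 4031, nat_lit 0, nat_lit 126, nat_lit 0, nat_lit 0, nat_lit 0, nat_lit 0, nat_lit 0, nat_lit 0, nat_lit 0, nat_lit 80, nat_lit 1000000, nat_lit 0, nat_lit 0, [(nat_lit 6, [(nat_lit 6, nat_lit 1000)])],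
 ⟨p010_k27, nat_lit 0, nat_lit 0, nat_lit 301, nat_lit 0, nat_lit 230816, [nat_lit 2257066667, nat_lit 1408000000, nat_lit 211200000], [], [nat_lit 13530841630, nat_lit 13641729156, nat_lit 13062320553, nat_lit 13172717385], nat_lit 1271250, nat_lit 1271250, nat_lit 43600, nat_lit 111251, nat_lit 0, nat_lit 0, [nat_lit 1100000, nat_lit 1442500, nat_lit 1271250], [nat_lit 9, nat_lit 40, nat_lit 20, nat_lit 80, nat_lit 2, nat_lit 215, nat_lit 10, nat_lit 8]⟩, C1.Rw.none,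
 ⟨nat_lit 6123, nat_lit 6165, ⟨.ofNat (nat_lit 133729), .ofNat (nat_lit 157955), .ofNat (nat_lit 139067), .ofNat (nat_lit 163293), .ofNat (nat_lit 135519), .ofNat (nat_lit 159634), .ofNat (nat_lit 140856), .ofNat (nat_lit 164971)⟩, ⟨.ofNat (nat_lit 0), .ofNat (nat_lit 0), .ofNat (nat_lit 0), .ofNat (nat_lit 0), .ofNat (nat_lit 0), .ofNat (nat_lit 0), .ofNat (nat_lit 0), .ofNat (nat_lit 0)⟩⟩, [⟨nat_lit 0, nat_lit 100, nat_lit 98, nat_lit 37, nat_lit 304008747⟩]⟩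
noncomputable def p010_l46 : Lf2 := ⟨nat_lit 0, nat_lit 3, [nat_lit 45, nat_lit 5, nat_lit 5, nat_lit 20], true, nat_lit 0, nat_lit 0, nat_lit 0, nat_lit 0, ⟨nat_lit 0, nat_lit 0, nat_lit 1000, nat_lit 5, nat_lit 63, nat_lit 0, nat_lit 0, nat_lit 0, nat_lit 0, nat_lit 215, nat_lit 36817, nat_lit 262, nat_lit 65379181, nat_lit 0, nat_lit 0, nat_lit 569616, false, false⟩,
 nat_lit 0, nat_lit 7566, nat_lit 0, nat_lit 0, nat_lit 4104, nat_lit 0, nat_lit 125, nat_lit 0, nat_lit 0, nat_lit 0, nat_lit 0, nat_lit 0, nat_lit 0, nat_lit 0, nat_lit 80, nat_lit 1000000, nat_lit 0, nat_lit 0, [(nat_lit 6, [(nat_lit 6, nat_lit 1000)])],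
 ⟨p010_k26, nat_lit 0, nat_lit 0, nat_lit 304, nat_lit 0, nat_lit 250993, [nat_lit 2257066667, nat_lit 1408000000, nat_lit 211200000], [], [nat_lit 13166098454, nat_lit 13399608899, nat_lit 13249320545, nat_lit 13079440729], nat_lit 1271250, nat_lit 1271250, nat_lit 65850, nat_lit 111251, nat_lit 0, nat_lit 0, [nat_lit 1100000, nat_lit 1442500, nat_lit 1271250], [nat_lit 9, nat_lit 40, nat_lit 20, nat_lit 80, nat_lit 2, nat_lit 215, nat_lit 10, nat_lit 8]⟩, C1.Rw.none,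
 ⟨nat_lit 6123, nat_lit 6225, ⟨.ofNat (nat_lit 144501), .ofNat (nat_lit 160765), .ofNat (nat_lit 149840), .ofNat (nat_lit 166104), .ofNat (nat_lit 148894), .ofNat (nat_lit 164971), .ofNat (nat_lit 154231), .ofNat (nat_lit 170308)⟩, ⟨.ofNat (nat_lit 0), .ofNat (nat_lit 0), .ofNat (nat_lit 0), .ofNat (nat_lit 0), .ofNat (nat_lit 0), .ofNat (nat_lit 0), .ofNat (nat_lit 0), .ofNat (nat_lit 0)⟩⟩, [⟨nat_lit 0, nat_lit 100, nat_lit 98, nat_lit 40, nat_lit 75241206⟩]⟩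
noncomputable def p010_l47 : Lf2 := ⟨nat_lit 0, nat_lit 3, [nat_lit 45, nat_lit 5, nat_lit 5, nat_lit 20], true, nat_lit 0, nat_lit 0, nat_lit 0, nat_lit 0, ⟨nat_lit 0, nat_lit 0, nat_lit 1000, nat_lit 5, nat_lit 66, nat_lit 0, nat_lit 0, nat_lit 0, nat_lit 0, nat_lit 215, nat_lit 41667, nat_lit 265, nat_lit 65214642, nat_lit 0, nat_lit 0, nat_lit 614403, false, false⟩,
 nat_lit 0, nat_lit 4798, nat_lit 0, nat_lit 0, nat_lit 2602, nat_lit 0, nat_lit 146, nat_lit 0, nat_lit 0, nat_lit 0, nat_lit 0, nat_lit 0, nat_lit 0, nat_lit 0, nat_lit 80, nat_lit 1000000, nat_lit 0, nat_lit 0, [(nat_lit 6, [(nat_lit 6, nat_lit 1000)])],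
 ⟨p010_k28, nat_lit 0, nat_lit 0, nat_lit 0, nat_lit 0, nat_lit 286816, [nat_lit 1156400000, nat_lit 2229200000, nat_lit 1408000000, nat_lit 211200000], [], [nat_lit 13663191669, nat_lit 13934080621, nat_lit 13444254266, nat_lit 13715583866], nat_lit 1271250, nat_lit 1271250, nat_lit 65850, nat_lit 111251, nat_lit 0, nat_lit 0, [nat_lit 490000, nat_lit 1100000, nat_lit 1442500, nat_lit 1271250], [nat_lit 98, nat_lit 40, nat_lit 20, nat_lit 40]⟩, C1.Rw.none,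
 ⟨nat_lit 6123, nat_lit 6225, ⟨.ofNat (nat_lit 149840), .ofNat (nat_lit 166104), .ofNat (nat_lit 160519), .ofNat (nat_lit 176782), .ofNat (nat_lit 154231), .ofNat (nat_lit 170308), .ofNat (nat_lit 164905), .ofNat (nat_lit 180982)⟩, ⟨.ofNat (nat_lit 0), .ofNat (nat_lit 0), .ofNat (nat_lit 0), .ofNat (nat_lit 0), .ofNat (nat_lit 0), .ofNat (nat_lit 0), .ofNat (nat_lit 0), .ofNat (nat_lit 0)⟩⟩, [⟨nat_lit 0, nat_lit 100, nat_lit 99, nat_lit 41, nat_lit 247581321⟩]⟩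
noncomputable def p010_l48 : Lf2 := ⟨nat_lit 0, nat_lit 3, [nat_lit 45, nat_lit 5, nat_lit 5, nat_lit 20], true, nat_lit 0, nat_lit 0, nat_lit 0, nat_lit 0, ⟨nat_lit 0, nat_lit 0, nat_lit 1000, nat_lit 5, nat_lit 66, nat_lit 0, nat_lit 0, nat_lit 0, nat_lit 0, nat_lit 215, nat_lit 41667, nat_lit 265, nat_lit 65214642, nat_lit 0, nat_lit 0, nat_lit 614403, false, false⟩,
 nat_lit 0, nat_lit 100000, nat_lit 0, nat_lit 0, nat_lit 54243, nat_lit 0, nat_lit 0, nat_lit 2604, nat_lit 0, nat_lit 0, nat_lit 0, nat_lit 0, nat_lit 0, nat_lit 0, nat_lit 0, nat_lit 964360, nat_lit 0, nat_lit 0, [(nat_lit 6, [(nat_lit 3, nat_lit 44), (nat_lit 6, nat_lit 956)])],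
 ⟨p010_k26, nat_lit 0, nat_lit 0, nat_lit 318, nat_lit 0, nat_lit 286816, [nat_lit 44155746134, nat_lit 51901376000, nat_lit 60836691200], [], [nat_lit 113074314480, nat_lit 107150075082, nat_lit 101923244663, nat_lit 101719227156], nat_lit 1271250, nat_lit 1271250, nat_lit 65850, nat_lit 111251, nat_lit 0, nat_lit 0, [nat_lit 1100000, nat_lit 1442500, nat_lit 1271250], [nat_lit 9, nat_lit 40, nat_lit 20, nat_lit 80, nat_lit 2, nat_lit 215, nat_lit 10, nat_lit 8]⟩, C1.Rw.none,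
 ⟨nat_lit 6123, nat_lit 6225, ⟨.ofNat (nat_lit 149840), .ofNat (nat_lit 166104), .ofNat (nat_lit 160519), .ofNat (nat_lit 176782), .ofNat (nat_lit 154231), .ofNat (nat_lit 170308), .ofNat (nat_lit 164905), .ofNat (nat_lit 180982)⟩, ⟨.ofNat (nat_lit 0), .ofNat (nat_lit 0), .ofNat (nat_lit 0), .ofNat (nat_lit 0), .ofNat (nat_lit 0), .ofNat (nat_lit 0), .ofNat (nat_lit 0), .ofNat (nat_lit 0)⟩⟩, [⟨nat_lit 0, nat_lit 100, nat_lit 99, nat_lit 37, nat_lit 10101010101⟩]⟩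
noncomputable def p010_l49 : Lf2 := ⟨nat_lit 0, nat_lit 3, [nat_lit 45, nat_lit 5, nat_lit 5, nat_lit 20], true, nat_lit 0, nat_lit 0, nat_lit 0, nat_lit 0, ⟨nat_lit 0, nat_lit 0, nat_lit 1000, nat_lit 5, nat_lit 75, nat_lit 0, nat_lit 0, nat_lit 0, nat_lit 0, nat_lit 215, nat_lit 54150, nat_lit 272, nat_lit 64702955, nat_lit 0, nat_lit 0, nat_lit 746645, false, false⟩,
 nat_lit 0, nat_lit 8031, nat_lit 0, nat_lit 0, nat_lit 4356, nat_lit 0, nat_lit 0, nat_lit 0, nat_lit 0, nat_lit 0, nat_lit 0, nat_lit 0, nat_lit 0, nat_lit 0, nat_lit 80, nat_lit 1000000, nat_lit 0, nat_lit 0, [(nat_lit 6, [(nat_lit 6, nat_lit 1000)])],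
 ⟨p010_k26, nat_lit 0, nat_lit 0, nat_lit 307, nat_lit 0, nat_lit 286816, [nat_lit 2257066667, nat_lit 1408000000, nat_lit 211200000], [], [nat_lit 12879918759, nat_lit 13044500240, nat_lit 13201143247, nat_lit 12650584051], nat_lit 1271250, nat_lit 1271250, nat_lit 111251, nat_lit 230001, nat_lit 0, nat_lit 0, [nat_lit 1100000, nat_lit 1442500, nat_lit 1271250], [nat_lit 9, nat_lit 40, nat_lit 20, nat_lit 80, nat_lit 2, nat_lit 215, nat_lit 10, nat_lit 8]⟩, C1.Rw.none,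
 ⟨nat_lit 6123, nat_lit 6225, ⟨.ofNat (nat_lit 155426), .ofNat (nat_lit 196084), .ofNat (nat_lit 176782), .ofNat (nat_lit 217441), .ofNat (nat_lit 159634), .ofNat (nat_lit 199824), .ofNat (nat_lit 180982), .ofNat (nat_lit 221172)⟩, ⟨.ofNat (nat_lit 0), .ofNat (nat_lit 0), .ofNat (nat_lit 0), .ofNat (nat_lit 0), .ofNat (nat_lit 0), .ofNat (nat_lit 0), .ofNat (nat_lit 0), .ofNat (nat_lit 0)⟩⟩, []⟩
noncomputable def p010_l50 : Lf2 := ⟨nat_lit 0, nat_lit 4, [nat_lit 38, nat_lit 5, nat_lit 5, nat_lit 20], true, nat_lit 0, nat_lit 0, nat_lit 0, nat_lit 0, ⟨nat_lit 0, nat_lit 0, nat_lit 1000, nat_lit 5, nat_lit 62, nat_lit 0, nat_lit 0, nat_lit 0, nat_lit 0, nat_lit 215, nat_lit 35267, nat_lit 261, nat_lit 65450083, nat_lit 0, nat_lit 0, nat_lit 549930, false, false⟩,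
 nat_lit 0, nat_lit 4429, nat_lit 0, nat_lit 0, nat_lit 2344, nat_lit 0, nat_lit 0, nat_lit 0, nat_lit 111, nat_lit 0, nat_lit 0, nat_lit 0, nat_lit 0, nat_lit 0, nat_lit 61, nat_lit 709000, nat_lit 0, nat_lit 0, [(nat_lit 6, [(nat_lit 5, nat_lit 485), (nat_lit 6, nat_lit 515)])],
 ⟨p010_k29, nat_lit 0, nat_lit 0, nat_lit 0, nat_lit 0, nat_lit 263440, [nat_lit 2166725334, nat_lit 1137222001, nat_lit 159301999], [], [nat_lit 9966333125, nat_lit 10723428344, nat_lit 9682970309, nat_lit 10280655212], nat_lit 1271250, nat_lit 1271250, nat_lit 43600, nat_lit 111251, nat_lit 0, nat_lit 0, [nat_lit 1100000, nat_lit 1442500, nat_lit 1271250], [nat_lit 9, nat_lit 40, nat_lit 20, nat_lit 80]⟩, C1.Rw.none,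
 ⟨nat_lit 6123, nat_lit 6325, ⟨.ofNat (nat_lit 126498), .ofNat (nat_lit 151177), .ofNat (nat_lit 147866), .ofNat (nat_lit 172545), .ofNat (nat_lit 135519), .ofNat (nat_lit 159634), .ofNat (nat_lit 156867), .ofNat (nat_lit 180982)⟩, ⟨.ofNat (nat_lit 0), .ofNat (nat_lit 0), .ofNat (nat_lit 0), .ofNat (nat_lit 0), .ofNat (nat_lit 0), .ofNat (nat_lit 0), .ofNat (nat_lit 0), .ofNat (nat_lit 0)⟩⟩, [⟨nat_lit 0, nat_lit 100, nat_lit 99, nat_lit 37, nat_lit 227410821⟩]⟩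
noncomputable def p010_l51 : Lf2 := ⟨nat_lit 0, nat_lit 4, [nat_lit 38, nat_lit 5, nat_lit 5, nat_lit 20], true, nat_lit 0, nat_lit 0, nat_lit 0, nat_lit 0, ⟨nat_lit 0, nat_lit 0, nat_lit 1000, nat_lit 5, nat_lit 59, nat_lit 0, nat_lit 0, nat_lit 0, nat_lit 0, nat_lit 215, nat_lit 33750, nat_lit 260, nat_lit 65553493, nat_lit 0, nat_lit 0, nat_lit 520768, false, false⟩,
 nat_lit 0, nat_lit 7928, nat_lit 0, nat_lit 0, nat_lit 4197, nat_lit 0, nat_lit 0, nat_lit 0, nat_lit 4, nat_lit 0, nat_lit 0, nat_lit 0, nat_lit 0, nat_lit 0, nat_lit 80, nat_lit 1000000, nat_lit 0, nat_lit 0, [(nat_lit 6, [(nat_lit 6, nat_lit 1000)])],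
 ⟨p010_k29, nat_lit 0, nat_lit 0, nat_lit 0, nat_lit 0, nat_lit 226016, [nat_lit 2257066667, nat_lit 1408000000, nat_lit 211200000], [], [nat_lit 13345652384, nat_lit 13700904729, nat_lit 13455400483, nat_lit 13081764878], nat_lit 1271250, nat_lit 1271250, nat_lit 43600, nat_lit 111251, nat_lit 0, nat_lit 0, [nat_lit 1100000, nat_lit 1442500, nat_lit 1271250], [nat_lit 9, nat_lit 40, nat_lit 20, nat_lit 80]⟩, C1.Rw.none,
 ⟨nat_lit 6123, nat_lit 6325, ⟨.ofNat (nat_lit 126498), .ofNat (nat_lit 151177), .ofNat (nat_lit 137182), .ofNat (nat_lit 161861), .ofNat (nat_lit 135519), .ofNat (nat_lit 159634), .ofNat (nat_lit 146193), .ofNat (nat_lit 170308)⟩, ⟨.ofNat (nat_lit 0), .ofNat (nat_lit 0), .ofNat (nat_lit 0), .ofNat (nat_lit 0), .ofNat (nat_lit 0), .ofNat (nat_lit 0), .ofNat (nat_lit 0), .ofNat (nat_lit 0)⟩⟩, [⟨nat_lit 0, nat_lit 100, nat_lit 98, nat_lit 35, nat_lit 61795450⟩]⟩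
noncomputable def p010_l52 : Lf2 := ⟨nat_lit 0, nat_lit 4, [nat_lit 38, nat_lit 5, nat_lit 5, nat_lit 20], true, nat_lit 0, nat_lit 0, nat_lit 0, nat_lit 0, ⟨nat_lit 0, nat_lit 0, nat_lit 1000, nat_lit 5, nat_lit 63, nat_lit 0, nat_lit 0, nat_lit 0, nat_lit 0, nat_lit 215, nat_lit 36817, nat_lit 262, nat_lit 65397138, nat_lit 0, nat_lit 0, nat_lit 564653, false, false⟩,
 nat_lit 0, nat_lit 8880, nat_lit 0, nat_lit 0, nat_lit 4701, nat_lit 0, nat_lit 0, nat_lit 0, nat_lit 0, nat_lit 0, nat_lit 0, nat_lit 0, nat_lit 0, nat_lit 0, nat_lit 80, nat_lit 1000000, nat_lit 0, nat_lit 0, [(nat_lit 6, [(nat_lit 6, nat_lit 1000)])],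
 ⟨p010_k29, nat_lit 0, nat_lit 0, nat_lit 0, nat_lit 0, nat_lit 244318, [nat_lit 2257066667, nat_lit 1408000000, nat_lit 211200000], [], [nat_lit 12988049324, nat_lit 13796038394, nat_lit 12866203928, nat_lit 13488284342], nat_lit 1271250, nat_lit 1271250, nat_lit 65850, nat_lit 88400, nat_lit 0, nat_lit 0, [nat_lit 1100000, nat_lit 1442500, nat_lit 1271250], [nat_lit 9, nat_lit 40, nat_lit 20, nat_lit 80]⟩, C1.Rw.none,
 ⟨nat_lit 6123, nat_lit 6325, ⟨.ofNat (nat_lit 145408), .ofNat (nat_lit 153635), .ofNat (nat_lit 150750), .ofNat (nat_lit 158977), .ofNat (nat_lit 154231), .ofNat (nat_lit 162269), .ofNat (nat_lit 159568), .ofNat (nat_lit 167607)⟩, ⟨.ofNat (nat_lit 0), .ofNat (nat_lit 0), .ofNat (nat_lit 0), .ofNat (nat_lit 0), .ofNat (nat_lit 0), .ofNat (nat_lit 0), .ofNat (nat_lit 0), .ofNat (nat_lit 0)⟩⟩, [⟨nat_lit 0, nat_lit 100, nat_lit 99, nat_lit 39, nat_lit 493317289⟩]⟩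
noncomputable def p010_l53 : Lf2 := ⟨nat_lit 0, nat_lit 4, [nat_lit 38, nat_lit 5, nat_lit 5, nat_lit 20], false, nat_lit 0, nat_lit 0, nat_lit 0, nat_lit 0, ⟨nat_lit 115, nat_lit 0, nat_lit 885, nat_lit 5, nat_lit 65, nat_lit 0, nat_lit 0, nat_lit 0, nat_lit 0, nat_lit 215, nat_lit 40017, nat_lit 264, nat_lit 65288776, nat_lit 0, nat_lit 0, nat_lit 594374, false, false⟩,
 nat_lit 2493, nat_lit 5128, nat_lit 0, nat_lit 0, nat_lit 4034, nat_lit 1287, nat_lit 0, nat_lit 0, nat_lit 70, nat_lit 395, nat_lit 0, nat_lit 0, nat_lit 0, nat_lit 0, nat_lit 33, nat_lit 885000, nat_lit 0, nat_lit 0, [(nat_lit 6, [(nat_lit 6, nat_lit 885)])],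
 ⟨p010_k29, nat_lit 0, nat_lit 0, nat_lit 0, nat_lit 0, nat_lit 263440, [nat_lit 1931824001, nat_lit 1208830001, nat_lit 191546999], [], [nat_lit 12114829616, nat_lit 12862155302, nat_lit 11874130231, nat_lit 12604020581], nat_lit 1271250, nat_lit 1271250, nat_lit 65850, nat_lit 88400, nat_lit 0, nat_lit 0, [nat_lit 1100000, nat_lit 1442500, nat_lit 1271250], [nat_lit 9, nat_lit 40, nat_lit 20, nat_lit 80]⟩, ⟨p010_k30, nat_lit 0, nat_lit 0, nat_lit 0, nat_lit 0, nat_lit 270379, [nat_lit 718750000, nat_lit 916320000, nat_lit 1131830000], [], [nat_lit 2698467766, nat_lit 2644726483, nat_lit 2694097023, nat_lit 2529992039], nat_lit 1271250, nat_lit 1271250, nat_lit 65850, nat_lit 88400, nat_lit 0, nat_lit 0, [nat_lit 1412500, nat_lit 1271250, nat_lit 1271250], [nat_lit 25, nat_lit 40, nat_lit 20, nat_lit 80]⟩,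
 ⟨nat_lit 6123, nat_lit 6325, ⟨.ofNat (nat_lit 150750), .ofNat (nat_lit 158977), .ofNat (nat_lit 156092), .ofNat (nat_lit 164319), .ofNat (nat_lit 159568), .ofNat (nat_lit 167607), .ofNat (nat_lit 164905), .ofNat (nat_lit 172944)⟩, ⟨.ofNat (nat_lit 0), .ofNat (nat_lit 0), .ofNat (nat_lit 0), .ofNat (nat_lit 0), .ofNat (nat_lit 0), .ofNat (nat_lit 0), .ofNat (nat_lit 0), .ofNat (nat_lit 0)⟩⟩, [⟨nat_lit 0, nat_lit 100, nat_lit 99, nat_lit 41, nat_lit 672995674⟩]⟩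
noncomputable def p010_l54 : Lf2 := ⟨nat_lit 0, nat_lit 4, [nat_lit 38, nat_lit 5, nat_lit 5, nat_lit 20], true, nat_lit 0, nat_lit 0, nat_lit 0, nat_lit 0, ⟨nat_lit 0, nat_lit 0, nat_lit 1000, nat_lit 5, nat_lit 66, nat_lit 0, nat_lit 0, nat_lit 0, nat_lit 0, nat_lit 215, nat_lit 40017, nat_lit 264, nat_lit 65230799, nat_lit 0, nat_lit 0, nat_lit 610058, false, false⟩,
 nat_lit 0, nat_lit 8547, nat_lit 0, nat_lit 0, nat_lit 4524, nat_lit 0, nat_lit 0, nat_lit 0, nat_lit 0, nat_lit 0, nat_lit 0, nat_lit 0, nat_lit 0, nat_lit 0, nat_lit 80, nat_lit 1000000, nat_lit 0, nat_lit 0, [(nat_lit 6, [(nat_lit 6, nat_lit 1000)])],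
 ⟨p010_k29, nat_lit 0, nat_lit 0, nat_lit 0, nat_lit 0, nat_lit 244318, [nat_lit 2257066667, nat_lit 1408000000, nat_lit 211200000], [], [nat_lit 13136748287, nat_lit 13405327664, nat_lit 13175796939, nat_lit 13111564376], nat_lit 1271250, nat_lit 1271250, nat_lit 88400, nat_lit 111251, nat_lit 0, nat_lit 0, [nat_lit 1100000, nat_lit 1442500, nat_lit 1271250], [nat_lit 9, nat_lit 40, nat_lit 20, nat_lit 80]⟩, C1.Rw.none,
 ⟨nat_lit 6123, nat_lit 6325, ⟨.ofNat (nat_lit 153635), .ofNat (nat_lit 161861), .ofNat (nat_lit 158977), .ofNat (nat_lit 167203), .ofNat (nat_lit 162269), .ofNat (nat_lit 170308), .ofNat (nat_lit 167607), .ofNat (nat_lit 175645)⟩, ⟨.ofNat (nat_lit 0), .ofNat (nat_lit 0), .ofNat (nat_lit 0), .ofNat (nat_lit 0), .ofNat (nat_lit 0), .ofNat (nat_lit 0), .ofNat (nat_lit 0), .ofNat (nat_lit 0)⟩⟩, []⟩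
noncomputable def p010_l55 : Lf2 := ⟨nat_lit 0, nat_lit 4, [nat_lit 38, nat_lit 5, nat_lit 5, nat_lit 20], false, nat_lit 0, nat_lit 0, nat_lit 0, nat_lit 0, ⟨nat_lit 201, nat_lit 0, nat_lit 799, nat_lit 5, nat_lit 68, nat_lit 0, nat_lit 0, nat_lit 0, nat_lit 0, nat_lit 215, nat_lit 43350, nat_lit 266, nat_lit 65117490, nat_lit 0, nat_lit 0, nat_lit 640293, false, false⟩,
 nat_lit 4359, nat_lit 1967, nat_lit 0, nat_lit 0, nat_lit 3348, nat_lit 2251, nat_lit 0, nat_lit 0, nat_lit 130, nat_lit 690, nat_lit 0, nat_lit 0, nat_lit 0, nat_lit 0, nat_lit 0, nat_lit 799000, nat_lit 0, nat_lit 0, [(nat_lit 6, [(nat_lit 6, nat_lit 799)])],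
 ⟨p010_k29, nat_lit 0, nat_lit 0, nat_lit 0, nat_lit 0, nat_lit 263440, [nat_lit 1722964267, nat_lit 1102842001, nat_lit 228397799], [], [nat_lit 10989844948, nat_lit 11671355666, nat_lit 11042503213, nat_lit 11464253719], nat_lit 1271250, nat_lit 1271250, nat_lit 88400, nat_lit 111251, nat_lit 0, nat_lit 0, [nat_lit 1100000, nat_lit 1442500, nat_lit 1271250], [nat_lit 9, nat_lit 40, nat_lit 20, nat_lit 80]⟩, ⟨p010_k30, nat_lit 0, nat_lit 0, nat_lit 0, nat_lit 0, nat_lit 270379, [nat_lit 1256250000, nat_lit 1601568000, nat_lit 1978242000], [], [nat_lit 4706628970, nat_lit 4419604636, nat_lit 4701924147, nat_lit 4415324576], nat_lit 1271250, nat_lit 1271250, nat_lit 88400, nat_lit 111251, nat_lit 0, nat_lit 0, [nat_lit 1412500, nat_lit 1271250, nat_lit 1271250], [nat_lit 25, nat_lit 40, nat_lit 20, nat_lit 80]⟩,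
 ⟨nat_lit 6123, nat_lit 6325, ⟨.ofNat (nat_lit 158977), .ofNat (nat_lit 167203), .ofNat (nat_lit 164319), .ofNat (nat_lit 172545), .ofNat (nat_lit 167607), .ofNat (nat_lit 175645), .ofNat (nat_lit 172944), .ofNat (nat_lit 180982)⟩, ⟨.ofNat (nat_lit 0), .ofNat (nat_lit 0), .ofNat (nat_lit 0), .ofNat (nat_lit 0), .ofNat (nat_lit 0), .ofNat (nat_lit 0), .ofNat (nat_lit 0), .ofNat (nat_lit 0)⟩⟩, [⟨nat_lit 0, nat_lit 100, nat_lit 99, nat_lit 41, nat_lit 191343394⟩]⟩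
noncomputable def p010_l56 : Lf2 := ⟨nat_lit 0, nat_lit 4, [nat_lit 38, nat_lit 5, nat_lit 5, nat_lit 20], true, nat_lit 0, nat_lit 0, nat_lit 0, nat_lit 0, ⟨nat_lit 0, nat_lit 0, nat_lit 1000, nat_lit 5, nat_lit 59, nat_lit 0, nat_lit 0, nat_lit 0, nat_lit 0, nat_lit 215, nat_lit 32267, nat_lit 259, nat_lit 65571011, nat_lit 0, nat_lit 0, nat_lit 515773, false, false⟩,
 nat_lit 0, nat_lit 11701, nat_lit 0, nat_lit 0, nat_lit 6194, nat_lit 0, nat_lit 426, nat_lit 0, nat_lit 0, nat_lit 0, nat_lit 0, nat_lit 0, nat_lit 0, nat_lit 0, nat_lit 80, nat_lit 1000000, nat_lit 0, nat_lit 0, [(nat_lit 6, [(nat_lit 6, nat_lit 1000)])],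
 ⟨p010_k29, nat_lit 0, nat_lit 0, nat_lit 0, nat_lit 0, nat_lit 241917, [nat_lit 2257066667, nat_lit 1408000000, nat_lit 211200000], [], [nat_lit 11235352326, nat_lit 11604690478, nat_lit 10584154623, nat_lit 10951543311], nat_lit 1271250, nat_lit 1271250, nat_lit 43600, nat_lit 88400, nat_lit 0, nat_lit 0, [nat_lit 1100000, nat_lit 1442500, nat_lit 1271250], [nat_lit 9, nat_lit 40, nat_lit 20, nat_lit 80]⟩, C1.Rw.none,
 ⟨nat_lit 6224, nat_lit 6325, ⟨.ofNat (nat_lit 126498), .ofNat (nat_lit 142951), .ofNat (nat_lit 147866), .ofNat (nat_lit 164319), .ofNat (nat_lit 131030), .ofNat (nat_lit 147294), .ofNat (nat_lit 152387), .ofNat (nat_lit 168651)⟩, ⟨.ofNat (nat_lit 0), .ofNat (nat_lit 0), .ofNat (nat_lit 0), .ofNat (nat_lit 0), .ofNat (nat_lit 0), .ofNat (nat_lit 0), .ofNat (nat_lit 0), .ofNat (nat_lit 0)⟩⟩, [⟨nat_lit 0, nat_lit 100, nat_lit 99, nat_lit 42, nat_lit 844280053⟩]⟩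
noncomputable def p010_l57 : Lf2 := ⟨nat_lit 0, nat_lit 4, [nat_lit 38, nat_lit 5, nat_lit 5, nat_lit 20], true, nat_lit 0, nat_lit 0, nat_lit 0, nat_lit 0, ⟨nat_lit 0, nat_lit 0, nat_lit 1000, nat_lit 5, nat_lit 57, nat_lit 0, nat_lit 0, nat_lit 0, nat_lit 0, nat_lit 215, nat_lit 29400, nat_lit 257, nat_lit 65686673, nat_lit 0, nat_lit 0, nat_lit 482373, false, false⟩,
 nat_lit 0, nat_lit 100000, nat_lit 0, nat_lit 0, nat_lit 52941, nat_lit 0, nat_lit 9668, nat_lit 2995, nat_lit 0, nat_lit 0, nat_lit 0, nat_lit 0, nat_lit 0, nat_lit 0, nat_lit 0, nat_lit 1000000, nat_lit 0, nat_lit 0, [(nat_lit 6, [(nat_lit 6, nat_lit 1000)])],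
 ⟨p010_k29, nat_lit 0, nat_lit 0, nat_lit 0, nat_lit 0, nat_lit 194932, [nat_lit 48897066667, nat_lit 59708000001, nat_lit 70171199999], [], [nat_lit 108088564860, nat_lit 109072955791, nat_lit 106851402522, nat_lit 102812925002], nat_lit 1271250, nat_lit 1271250, nat_lit 43600, nat_lit 88400, nat_lit 0, nat_lit 0, [nat_lit 1100000, nat_lit 1442500, nat_lit 1271250], [nat_lit 9, nat_lit 40, nat_lit 20, nat_lit 80]⟩, C1.Rw.none,
 ⟨nat_lit 6264, nat_lit 6325, ⟨.ofNat (nat_lit 126498), .ofNat (nat_lit 142951), .ofNat (nat_lit 137182), .ofNat (nat_lit 153635), .ofNat (nat_lit 129223), .ofNat (nat_lit 145562), .ofNat (nat_lit 139903), .ofNat (nat_lit 156242)⟩, ⟨.ofNat (nat_lit 0), .ofNat (nat_lit 0), .ofNat (nat_lit 0), .ofNat (nat_lit 0), .ofNat (nat_lit 0), .ofNat (nat_lit 0), .ofNat (nat_lit 0), .ofNat (nat_lit 0)⟩⟩, [⟨nat_lit 13, nat_lit 99, nat_lit 5, nat_lit 100, nat_lit 94262731⟩]⟩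
noncomputable def p010_l58 : Lf2 := ⟨nat_lit 0, nat_lit 4, [nat_lit 38, nat_lit 5, nat_lit 5, nat_lit 20], true, nat_lit 0, nat_lit 0, nat_lit 0, nat_lit 0, ⟨nat_lit 0, nat_lit 0, nat_lit 1000, nat_lit 5, nat_lit 61, nat_lit 0, nat_lit 0, nat_lit 0, nat_lit 0, nat_lit 215, nat_lit 35267, nat_lit 261, nat_lit 65457474, nat_lit 0, nat_lit 0, nat_lit 547863, false, false⟩,
 nat_lit 0, nat_lit 100000, nat_lit 0, nat_lit 0, nat_lit 52941, nat_lit 0, nat_lit 8482, nat_lit 2995, nat_lit 0, nat_lit 0, nat_lit 0, nat_lit 0, nat_lit 0, nat_lit 0, nat_lit 0, nat_lit 1000000, nat_lit 0, nat_lit 0, [(nat_lit 6, [(nat_lit 6, nat_lit 1000)])],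
 ⟨p010_k29, nat_lit 0, nat_lit 0, nat_lit 0, nat_lit 0, nat_lit 213873, [nat_lit 48897066667, nat_lit 59708000001, nat_lit 70171199999], [], [nat_lit 108738605178, nat_lit 109727116751, nat_lit 106851402522, nat_lit 106600712502], nat_lit 1271250, nat_lit 1271250, nat_lit 65850, nat_lit 88400, nat_lit 0, nat_lit 0, [nat_lit 1100000, nat_lit 1442500, nat_lit 1271250], [nat_lit 9, nat_lit 40, nat_lit 20, nat_lit 80]⟩, C1.Rw.none,
 ⟨nat_lit 6264, nat_lit 6325, ⟨.ofNat (nat_lit 145408), .ofNat (nat_lit 153635), .ofNat (nat_lit 150750), .ofNat (nat_lit 158977), .ofNat (nat_lit 148073), .ofNat (nat_lit 156242), .ofNat (nat_lit 153413), .ofNat (nat_lit 161582)⟩, ⟨.ofNat (nat_lit 0), .ofNat (nat_lit 0), .ofNat (nat_lit 0), .ofNat (nat_lit 0), .ofNat (nat_lit 0), .ofNat (nat_lit 0), .ofNat (nat_lit 0), .ofNat (nat_lit 0)⟩⟩, [⟨nat_lit 0, nat_lit 100, nat_lit 99, nat_lit 35, nat_lit 10101010101⟩, ⟨nat_lit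 13, nat_lit 100, nat_lit 3, nat_lit 100, nat_lit 67944503⟩]⟩
noncomputable def p010_l59 : Lf2 := ⟨nat_lit 0, nat_lit 4, [nat_lit 38, nat_lit 5, nat_lit 5, nat_lit 20], true, nat_lit 0, nat_lit 0, nat_lit 0, nat_lit 0, ⟨nat_lit 0, nat_lit 0, nat_lit 1000, nat_lit 5, nat_lit 63, nat_lit 0, nat_lit 0, nat_lit 0, nat_lit 0, nat_lit 215, nat_lit 36817, nat_lit 262, nat_lit 65390128, nat_lit 0, nat_lit 0, nat_lit 566593, false, false⟩,
 nat_lit 0, nat_lit 100000, nat_lit 0, nat_lit 0, nat_lit 52941, nat_lit 0, nat_lit 8126, nat_lit 2981, nat_lit 0, nat_lit 0, nat_lit 0, nat_lit 0, nat_lit 0, nat_lit 0, nat_lit 0, nat_lit 1000000, nat_lit 0, nat_lit 0, [(nat_lit 6, [(nat_lit 6, nat_lit 1000)])],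
 ⟨p010_k29, nat_lit 0, nat_lit 0, nat_lit 0, nat_lit 0, nat_lit 217333, [nat_lit 48673066667, nat_lit 59428000001, nat_lit 69835199999], [], [nat_lit 109203580178, nat_lit 109533084036, nat_lit 106070018918, nat_lit 106399501016], nat_lit 1271250, nat_lit 1271250, nat_lit 65850, nat_lit 88400, nat_lit 0, nat_lit 0, [nat_lit 1100000, nat_lit 1442500, nat_lit 1271250], [nat_lit 9, nat_lit 40, nat_lit 20, nat_lit 40]⟩, C1.Rw.none,
 ⟨nat_lit 6304, nat_lit 6325, ⟨.ofNat (nat_lit 150750), .ofNat (nat_lit 158977), .ofNat (nat_lit 153956), .ofNat (nat_lit 162182), .ofNat (nat_lit 151640), .ofNat (nat_lit 159847), .ofNat (nat_lit 154844), .ofNat (nat_lit 163052)⟩, ⟨.ofNat (nat_lit 0), .ofNat (nat_lit 0), .ofNat (nat_lit 0), .ofNat (nat_lit 0), .ofNat (nat_lit 0), .ofNat (nat_lit 0), .ofNat (nat_lit 0), .ofNat (nat_lit 0)⟩⟩, [⟨nat_lit 0, nat_lit 100, nat_lit 100, nat_lit 38, nat_lit 10000000000⟩,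 ⟨nat_lit 0, nat_lit 100, nat_lit 100, nat_lit 39, nat_lit 4837774012⟩, ⟨nat_lit 0, nat_lit 100, nat_lit 100, nat_lit 37, nat_lit 10000000000⟩]⟩
noncomputable def p010_l60 : Lf2 := ⟨nat_lit 0, nat_lit 4, [nat_lit 38, nat_lit 5, nat_lit 5, nat_lit 20], true, nat_lit 0, nat_lit 0, nat_lit 0, nat_lit 0, ⟨nat_lit 0, nat_lit 0, nat_lit 1000, nat_lit 5, nat_lit 64, nat_lit 0, nat_lit 0, nat_lit 0, nat_lit 0, nat_lit 215, nat_lit 38400, nat_lit 263, nat_lit 65336230, nat_lit 0, nat_lit 0, nat_lit 581426, false, false⟩,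
 nat_lit 0, nat_lit 100000, nat_lit 0, nat_lit 100000, nat_lit 52941, nat_lit 0, nat_lit 60000, nat_lit 20000, nat_lit 0, nat_lit 0, nat_lit 0, nat_lit 0, nat_lit 0, nat_lit 0, nat_lit 0, nat_lit 1000000, nat_lit 0, nat_lit 0, [(nat_lit 6, [(nat_lit 6, nat_lit 1000)])],
 ⟨p010_k31, nat_lit 0, nat_lit 0, nat_lit 0, nat_lit 0, nat_lit 225317, [nat_lit 160516400000, nat_lit 320949200000, nat_lit 399808000000, nat_lit 478291200000], [], [nat_lit 889823518681, nat_lit 890178571721, nat_lit 887054504928, nat_lit 887409171729], nat_lit 1271250, nat_lit 1271250, nat_lit 65850, nat_lit 88400, nat_lit 0, nat_lit 0, [nat_lit 490000, nat_lit 1100000, nat_lit 1442500, nat_lit 1271250], [nat_lit 98, nat_lit 40, nat_lit 20, nat_lit 40]⟩, C1.Rw.none,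
 ⟨nat_lit 6304, nat_lit 6325, ⟨.ofNat (nat_lit 153956), .ofNat (nat_lit 162182), .ofNat (nat_lit 156092), .ofNat (nat_lit 164319), .ofNat (nat_lit 154844), .ofNat (nat_lit 163052), .ofNat (nat_lit 156981), .ofNat (nat_lit 165188)⟩, ⟨.ofNat (nat_lit 0), .ofNat (nat_lit 0), .ofNat (nat_lit 0), .ofNat (nat_lit 0), .ofNat (nat_lit 0), .ofNat (nat_lit 0), .ofNat (nat_lit 0), .ofNat (nat_lit 0)⟩⟩, [⟨nat_lit 0, nat_lit 100, nat_lit 100, nat_lit 40, nat_lit 10000000000⟩, ⟨nat_lit 0, nat_lit 100, nat_lit 100, nat_lit 40, nat_lit 10000000000⟩, ⟨nat_lit 0, nat_lit 100, nat_lit 100, nat_lit 39, nat_lit 10000000000⟩]⟩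
noncomputable def p010_l61 : Lf2 := ⟨nat_lit 0, nat_lit 4, [nat_lit 38, nat_lit 5, nat_lit 5, nat_lit 20], false, nat_lit 0, nat_lit 0, nat_lit 0, nat_lit 0, ⟨nat_lit 0, nat_lit 0, nat_lit 1000, nat_lit 5, nat_lit 64, nat_lit 0, nat_lit 0, nat_lit 0, nat_lit 0, nat_lit 215, nat_lit 38400, nat_lit 263, nat_lit 65336230, nat_lit 0, nat_lit 0, nat_lit 581426, false, false⟩,
 nat_lit 100000, nat_lit 88889, nat_lit 0, nat_lit 0, nat_lit 100000, nat_lit 52422, nat_lit 0, nat_lit 5768, nat_lit 0, nat_lit 17234, nat_lit 2712, nat_lit 0, nat_lit 0, nat_lit 0, nat_lit 0, nat_lit 1000000, nat_lit 0, nat_lit 0, [(nat_lit 6, [(nat_lit 6, nat_lit 1000)])],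
 ⟨p010_k29, nat_lit 0, nat_lit 0, nat_lit 0, nat_lit 0, nat_lit 225317, [nat_lit 93265066667, nat_lit 115168000000, nat_lit 136723200000], [], [nat_lit 255188838668, nat_lit 252634870668, nat_lit 244891158667, nat_lit 243240787888], nat_lit 1271250, nat_lit 1271250, nat_lit 65850, nat_lit 88400, nat_lit 0, nat_lit 0, [nat_lit 1100000, nat_lit 1442500, nat_lit 1271250], [nat_lit 9, nat_lit 40, nat_lit 20, nat_lit 40]⟩, ⟨p010_k32, nat_lit 0, nat_lit 0, nat_lit 0, nat_lit 0, nat_lit 227659, [nat_lit 48816000000, nat_lit 59664000000, nat_lit 70512000000], [], [nat_lit 62602041555, nat_lit 63254659037, nat_lit 60179463106, nat_lit 59356195420], nat_lit 1271250, nat_lit 1271250, nat_lit 65850, nat_lit 88400, nat_lit 0, nat_lit 0, [nat_lit 1271250, nat_lit 1271250, nat_lit 1271250], [nat_lit 96, nat_lit 40, nat_lit 20, nat_lit 40]⟩,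
 ⟨nat_lit 6304, nat_lit 6325, ⟨.ofNat (nat_lit 153956), .ofNat (nat_lit 162182), .ofNat (nat_lit 156092), .ofNat (nat_lit 164319), .ofNat (nat_lit 154844), .ofNat (nat_lit 163052), .ofNat (nat_lit 156981), .ofNat (nat_lit 165188)⟩, ⟨.ofNat (nat_lit 0), .ofNat (nat_lit 0), .ofNat (nat_lit 0), .ofNat (nat_lit 0), .ofNat (nat_lit 0), .ofNat (nat_lit 0), .ofNat (nat_lit 0), .ofNat (nat_lit 0)⟩⟩, [⟨nat_lit 0, nat_lit 100, nat_lit 100, nat_lit 40, nat_lit 10000000000⟩, ⟨nat_lit 0, nat_lit 100, nat_lit 100, nat_lit 40, nat_lit 10000000000⟩, ⟨nat_lit 0, nat_lit 100, nat_lit 100, nat_lit 39, nat_lit 10000000000⟩, ⟨nat_lit 13, nat_lit 100, nat_lit 1, nat_lit 100, nat_lit 144175042⟩]⟩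
noncomputable def p010_l62 : Lf2 := ⟨nat_lit 0, nat_lit 4, [nat_lit 38, nat_lit 5, nat_lit 5, nat_lit 20], true, nat_lit 0, nat_lit 0, nat_lit 0, nat_lit 0, ⟨nat_lit 0, nat_lit 0, nat_lit 1000, nat_lit 5, nat_lit 64, nat_lit 0, nat_lit 0, nat_lit 0, nat_lit 0, nat_lit 215, nat_lit 38400, nat_lit 263, nat_lit 65350919, nat_lit 0, nat_lit 0, nat_lit 577397, false, false⟩,
 nat_lit 0, nat_lit 100000, nat_lit 0, nat_lit 0, nat_lit 53200, nat_lit 0, nat_lit 0, nat_lit 1224, nat_lit 0, nat_lit 0, nat_lit 0, nat_lit 0, nat_lit 0, nat_lit 0, nat_lit 0, nat_lit 1000000, nat_lit 0, nat_lit 0, [(nat_lit 6, [(nat_lit 6, nat_lit 1000)])],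
 ⟨p010_k33, nat_lit 0, nat_lit 0, nat_lit 0, nat_lit 0, nat_lit 228278, [nat_lit 20561066667, nat_lit 24288000001, nat_lit 27667199999], [], [nat_lit 40743056013, nat_lit 39384345037, nat_lit 35266698022, nat_lit 35370074544], nat_lit 1271250, nat_lit 1271250, nat_lit 65850, nat_lit 88400, nat_lit 0, nat_lit 0, [nat_lit 1100000, nat_lit 1442500, nat_lit 1271250], [nat_lit 9, nat_lit 40, nat_lit 20, nat_lit 40]⟩, C1.Rw.none,
 ⟨nat_lit 6284, nat_lit 6305, ⟨.ofNat (nat_lit 151640), .ofNat (nat_lit 159847), .ofNat (nat_lit 156981), .ofNat (nat_lit 165188), .ofNat (nat_lit 152527), .ofNat (nat_lit 160716), .ofNat (nat_lit 157868), .ofNat (nat_lit 166056)⟩, ⟨.ofNat (nat_lit 0), .ofNat (nat_lit 0), .ofNat (nat_lit 0), .ofNat (nat_lit 0), .ofNat (nat_lit 0), .ofNat (nat_lit 0), .ofNat (nat_lit 0), .ofNat (nat_lit 0)⟩⟩, [⟨nat_lit 0, nat_lit 100, nat_lit 100, nat_lit 39, nat_lit 1073641897⟩, ⟨nat_lit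 0, nat_lit 100, nat_lit 100, nat_lit 41, nat_lit 10000000000⟩]⟩
noncomputable def p010_l63 : Lf2 := ⟨nat_lit 0, nat_lit 4, [nat_lit 38, nat_lit 5, nat_lit 5, nat_lit 20], true, nat_lit 0, nat_lit 0, nat_lit 0, nat_lit 0, ⟨nat_lit 0, nat_lit 0, nat_lit 1000, nat_lit 5, nat_lit 63, nat_lit 0, nat_lit 0, nat_lit 0, nat_lit 0, nat_lit 215, nat_lit 38400, nat_lit 263, nat_lit 65359814, nat_lit 0, nat_lit 0, nat_lit 574952, false, false⟩,
 nat_lit 0, nat_lit 100000, nat_lit 0, nat_lit 0, nat_lit 52941, nat_lit 0, nat_lit 0, nat_lit 3010, nat_lit 0, nat_lit 0, nat_lit 0, nat_lit 0, nat_lit 0, nat_lit 0, nat_lit 0, nat_lit 1000000, nat_lit 0, nat_lit 0, [(nat_lit 6, [(nat_lit 6, nat_lit 1000)])],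
 ⟨p010_k29, nat_lit 0, nat_lit 0, nat_lit 0, nat_lit 0, nat_lit 229455, [nat_lit 49137066667, nat_lit 60008000001, nat_lit 70531199999], [], [nat_lit 142346754691, nat_lit 139642562293, nat_lit 136895059922, nat_lit 136489573582], nat_lit 1271250, nat_lit 1271250, nat_lit 65850, nat_lit 88400, nat_lit 0, nat_lit 0, [nat_lit 1100000, nat_lit 1442500, nat_lit 1271250], [nat_lit 9, nat_lit 40, nat_lit 20, nat_lit 40]⟩, C1.Rw.none,
 ⟨nat_lit 6284, nat_lit 6325, ⟨.ofNat (nat_lit 150750), .ofNat (nat_lit 158977), .ofNat (nat_lit 156092), .ofNat (nat_lit 164319), .ofNat (nat_lit 152527), .ofNat (nat_lit 160716), .ofNat (nat_lit 157868), .ofNat (nat_lit 166056)⟩, ⟨.ofNat (nat_lit 0), .ofNat (nat_lit 0), .ofNat (nat_lit 0), .ofNat (nat_lit 0), .ofNat (nat_lit 0), .ofNat (nat_lit 0), .ofNat (nat_lit 0), .ofNat (nat_lit 0)⟩⟩, [⟨nat_lit 0, nat_lit 100, nat_lit 100, nat_lit 41, nat_lit 6923783651⟩]⟩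
noncomputable def p010_l64 : Lf2 := ⟨nat_lit 0, nat_lit 4, [nat_lit 38, nat_lit 5, nat_lit 5, nat_lit 20], true, nat_lit 0, nat_lit 0, nat_lit 0, nat_lit 0, ⟨nat_lit 0, nat_lit 0, nat_lit 1000, nat_lit 5, nat_lit 63, nat_lit 0, nat_lit 0, nat_lit 0, nat_lit 0, nat_lit 215, nat_lit 38400, nat_lit 263, nat_lit 65359814, nat_lit 0, nat_lit 0, nat_lit 574952, false, false⟩,
 nat_lit 0, nat_lit 100000, nat_lit 0, nat_lit 0, nat_lit 52941, nat_lit 0, nat_lit 0, nat_lit 3038, nat_lit 0, nat_lit 0, nat_lit 0, nat_lit 0, nat_lit 0, nat_lit 0, nat_lit 0, nat_lit 1000000, nat_lit 0, nat_lit 0, [(nat_lit 6, [(nat_lit 6, nat_lit 1000)])],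
 ⟨p010_k29, nat_lit 0, nat_lit 0, nat_lit 0, nat_lit 0, nat_lit 229455, [nat_lit 49585066667, nat_lit 60568000001, nat_lit 71203199999], [], [nat_lit 143914754691, nat_lit 141210562293, nat_lit 138463059922, nat_lit 138729573582], nat_lit 1271250, nat_lit 1271250, nat_lit 65850, nat_lit 88400, nat_lit 0, nat_lit 0, [nat_lit 1100000, nat_lit 1442500, nat_lit 1271250], [nat_lit 9, nat_lit 40, nat_lit 20, nat_lit 40]⟩, C1.Rw.none,
 ⟨nat_lit 6284, nat_lit 6325, ⟨.ofNat (nat_lit 150750), .ofNat (nat_lit 158977), .ofNat (nat_lit 156092), .ofNat (nat_lit 164319), .ofNat (nat_lit 152527), .ofNat (nat_lit 160716), .ofNat (nat_lit 157868), .ofNat (nat_lit 166056)⟩, ⟨.ofNat (nat_lit 0), .ofNat (nat_lit 0), .ofNat (nat_lit 0), .ofNat (nat_lit 0), .ofNat (nat_lit 0), .ofNat (nat_lit 0), .ofNat (nat_lit 0), .ofNat (nat_lit 0)⟩⟩, [⟨nat_lit 0, nat_lit 100, nat_lit 100, nat_lit 39, nat_lit 1011199825⟩, ⟨nat_lit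 0, nat_lit 100, nat_lit 100, nat_lit 41, nat_lit 10000000000⟩]⟩
noncomputable def p010_l65 : Lf2 := ⟨nat_lit 0, nat_lit 4, [nat_lit 38, nat_lit 5, nat_lit 5, nat_lit 20], true, nat_lit 0, nat_lit 0, nat_lit 0, nat_lit 0, ⟨nat_lit 0, nat_lit 0, nat_lit 1000, nat_lit 5, nat_lit 64, nat_lit 0, nat_lit 0, nat_lit 0, nat_lit 0, nat_lit 215, nat_lit 38400, nat_lit 263, nat_lit 65333117, nat_lit 0, nat_lit 0, nat_lit 582278, false, false⟩,
 nat_lit 0, nat_lit 100000, nat_lit 0, nat_lit 0, nat_lit 53460, nat_lit 0, nat_lit 0, nat_lit 2598, nat_lit 0, nat_lit 0, nat_lit 0, nat_lit 0, nat_lit 0, nat_lit 0, nat_lit 0, nat_lit 400000, nat_lit 0, nat_lit 0, [(nat_lit 6, [(nat_lit 5, nat_lit 1000)])],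
 ⟨p010_k34, nat_lit 0, nat_lit 0, nat_lit 0, nat_lit 0, nat_lit 231207, [nat_lit 42985600000, nat_lit 51993200001, nat_lit 61476399999], [], [nat_lit 99897780651, nat_lit 100280999960, nat_lit 96719111040, nat_lit 97102204111], nat_lit 1271250, nat_lit 1271250, nat_lit 65850, nat_lit 88400, nat_lit 0, nat_lit 0, [nat_lit 1100000, nat_lit 1442500, nat_lit 1271250], [nat_lit 9, nat_lit 40, nat_lit 20, nat_lit 80]⟩, C1.Rw.none,
 ⟨nat_lit 6264, nat_lit 6285, ⟨.ofNat (nat_lit 152527), .ofNat (nat_lit 160716), .ofNat (nat_lit 157868), .ofNat (nat_lit 166056), .ofNat (nat_lit 153413), .ofNat (nat_lit 161582), .ofNat (nat_lit 158753), .ofNat (nat_lit 166923)⟩, ⟨.ofNat (nat_lit 0), .ofNat (nat_lit 0), .ofNat (nat_lit 0), .ofNat (nat_lit 0), .ofNat (nat_lit 0), .ofNat (nat_lit 0), .ofNat (nat_lit 0), .ofNat (nat_lit 0)⟩⟩, [⟨nat_lit 0, nat_lit 100, nat_lit 99, nat_lit 40, nat_lit 10101010101⟩, ⟨nat_lit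 0, nat_lit 100, nat_lit 100, nat_lit 41, nat_lit 10000000000⟩, ⟨nat_lit 0, nat_lit 100, nat_lit 99, nat_lit 38, nat_lit 10101010101⟩]⟩
noncomputable def p010_l66 : Lf2 := ⟨nat_lit 0, nat_lit 4, [nat_lit 38, nat_lit 5, nat_lit 5, nat_lit 20], true, nat_lit 0, nat_lit 0, nat_lit 0, nat_lit 0, ⟨nat_lit 0, nat_lit 0, nat_lit 1000, nat_lit 5, nat_lit 60, nat_lit 0, nat_lit 0, nat_lit 0, nat_lit 0, nat_lit 215, nat_lit 33750, nat_lit 260, nat_lit 65545665, nat_lit 0, nat_lit 0, nat_lit 522995, false, false⟩,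
 nat_lit 0, nat_lit 100000, nat_lit 0, nat_lit 0, nat_lit 53721, nat_lit 0, nat_lit 0, nat_lit 1562, nat_lit 0, nat_lit 0, nat_lit 0, nat_lit 0, nat_lit 0, nat_lit 0, nat_lit 0, nat_lit 1000000, nat_lit 0, nat_lit 0, [(nat_lit 6, [(nat_lit 6, nat_lit 1000)])],
 ⟨p010_k35, nat_lit 0, nat_lit 0, nat_lit 0, nat_lit 0, nat_lit 238227, [nat_lit 25969066667, nat_lit 31048000001, nat_lit 35779199999], [], [nat_lit 61979022152, nat_lit 59230932993, nat_lit 50927153390, nat_lit 51065115048], nat_lit 1271250, nat_lit 1271250, nat_lit 43600, nat_lit 88400, nat_lit 0, nat_lit 0, [nat_lit 1100000, nat_lit 1442500, nat_lit 1271250], [nat_lit 9, nat_lit 40, nat_lit 20, nat_lit 80]⟩, C1.Rw.none,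
 ⟨nat_lit 6224, nat_lit 6265, ⟨.ofNat (nat_lit 129223), .ofNat (nat_lit 145562), .ofNat (nat_lit 150584), .ofNat (nat_lit 166923), .ofNat (nat_lit 131030), .ofNat (nat_lit 147294), .ofNat (nat_lit 152387), .ofNat (nat_lit 168651)⟩, ⟨.ofNat (nat_lit 0), .ofNat (nat_lit 0), .ofNat (nat_lit 0), .ofNat (nat_lit 0), .ofNat (nat_lit 0), .ofNat (nat_lit 0), .ofNat (nat_lit 0), .ofNat (nat_lit 0)⟩⟩, [⟨nat_lit 0, nat_lit 100, nat_lit 99, nat_lit 42, nat_lit 10032321527⟩]⟩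
noncomputable def p010_l67 : Lf2 := ⟨nat_lit 0, nat_lit 4, [nat_lit 38, nat_lit 5, nat_lit 5, nat_lit 20], true, nat_lit 0, nat_lit 0, nat_lit 0, nat_lit 0, ⟨nat_lit 0, nat_lit 0, nat_lit 1000, nat_lit 5, nat_lit 64, nat_lit 0, nat_lit 0, nat_lit 0, nat_lit 0, nat_lit 215, nat_lit 38400, nat_lit 263, nat_lit 65347179, nat_lit 0, nat_lit 0, nat_lit 578423, false, false⟩,
 nat_lit 0, nat_lit 11197, nat_lit 0, nat_lit 0, nat_lit 5927, nat_lit 0, nat_lit 387, nat_lit 0, nat_lit 0, nat_lit 0, nat_lit 0, nat_lit 0, nat_lit 0, nat_lit 0, nat_lit 80, nat_lit 1000000, nat_lit 0, nat_lit 0, [(nat_lit 6, [(nat_lit 6, nat_lit 1000)])],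
 ⟨p010_k29, nat_lit 0, nat_lit 0, nat_lit 0, nat_lit 0, nat_lit 233592, [nat_lit 2257066667, nat_lit 1408000000, nat_lit 211200000], [], [nat_lit 10992263909, nat_lit 11034364414, nat_lit 11015075923, nat_lit 10724008292], nat_lit 1271250, nat_lit 1271250, nat_lit 88400, nat_lit 111251, nat_lit 0, nat_lit 0, [nat_lit 1100000, nat_lit 1442500, nat_lit 1271250], [nat_lit 9, nat_lit 40, nat_lit 20, nat_lit 80]⟩, C1.Rw.none,
 ⟨nat_lit 6264, nat_lit 6325, ⟨.ofNat (nat_lit 142951), .ofNat (nat_lit 151177), .ofNat (nat_lit 164319), .ofNat (nat_lit 172545), .ofNat (nat_lit 145562), .ofNat (nat_lit 153731), .ofNat (nat_lit 166923), .ofNat (nat_lit 175092)⟩, ⟨.ofNat (nat_lit 0), .ofNat (nat_lit 0), .ofNat (nat_lit 0), .ofNat (nat_lit 0), .ofNat (nat_lit 0), .ofNat (nat_lit 0), .ofNat (nat_lit 0), .ofNat (nat_lit 0)⟩⟩, [⟨nat_lit 0, nat_lit 100, nat_lit 100, nat_lit 41, nat_lit 79514428⟩]⟩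
noncomputable def p010_l68 : Lf2 := ⟨nat_lit 0, nat_lit 4, [nat_lit 38, nat_lit 5, nat_lit 5, nat_lit 20], true, nat_lit 0, nat_lit 0, nat_lit 0, nat_lit 0, ⟨nat_lit 0, nat_lit 0, nat_lit 1000, nat_lit 5, nat_lit 64, nat_lit 0, nat_lit 0, nat_lit 0, nat_lit 0, nat_lit 215, nat_lit 38400, nat_lit 263, nat_lit 65303427, nat_lit 0, nat_lit 0, nat_lit 590388, false, false⟩,
 nat_lit 0, nat_lit 11098, nat_lit 0, nat_lit 0, nat_lit 5961, nat_lit 0, nat_lit 534, nat_lit 0, nat_lit 0, nat_lit 0, nat_lit 0, nat_lit 0, nat_lit 0, nat_lit 0, nat_lit 80, nat_lit 1000000, nat_lit 0, nat_lit 0, [(nat_lit 6, [(nat_lit 6, nat_lit 1000)])],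
 ⟨p010_k35, nat_lit 0, nat_lit 0, nat_lit 0, nat_lit 0, nat_lit 238227, [nat_lit 2257066667, nat_lit 1408000000, nat_lit 211200000], [], [nat_lit 10653065592, nat_lit 10798090624, nat_lit 10387187187, nat_lit 10485601030], nat_lit 1271250, nat_lit 1271250, nat_lit 88400, nat_lit 111251, nat_lit 0, nat_lit 0, [nat_lit 1100000, nat_lit 1442500, nat_lit 1271250], [nat_lit 9, nat_lit 40, nat_lit 20, nat_lit 80]⟩, C1.Rw.none,
 ⟨nat_lit 6224, nat_lit 6265, ⟨.ofNat (nat_lit 145562), .ofNat (nat_lit 153731), .ofNat (nat_lit 166923), .ofNat (nat_lit 175092), .ofNat (nat_lit 147294), .ofNat (nat_lit 155426), .ofNat (nat_lit 168651), .ofNat (nat_lit 176782)⟩, ⟨.ofNat (nat_lit 0), .ofNat (nat_lit 0), .ofNat (nat_lit 0), .ofNat (nat_lit 0), .ofNat (nat_lit 0), .ofNat (nat_lit 0), .ofNat (nat_lit 0), .ofNat (nat_lit 0)⟩⟩, [⟨nat_lit 0, nat_lit 100, nat_lit 99, nat_lit 42, nat_lit 501165652⟩]⟩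
noncomputable def p010_l69 : Lf2 := ⟨nat_lit 0, nat_lit 4, [nat_lit 38, nat_lit 5, nat_lit 5, nat_lit 20], true, nat_lit 0, nat_lit 0, nat_lit 0, nat_lit 0, ⟨nat_lit 0, nat_lit 0, nat_lit 1000, nat_lit 5, nat_lit 62, nat_lit 0, nat_lit 0, nat_lit 0, nat_lit 0, nat_lit 215, nat_lit 36817, nat_lit 262, nat_lit 65406664, nat_lit 0, nat_lit 0, nat_lit 562014, false, false⟩,
 nat_lit 0, nat_lit 9840, nat_lit 0, nat_lit 0, nat_lit 5337, nat_lit 0, nat_lit 442, nat_lit 0, nat_lit 0, nat_lit 0, nat_lit 0, nat_lit 0, nat_lit 0, nat_lit 0, nat_lit 80, nat_lit 1000000, nat_lit 0, nat_lit 0, [(nat_lit 6, [(nat_lit 6, nat_lit 1000)])],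
 ⟨p010_k36, nat_lit 0, nat_lit 0, nat_lit 0, nat_lit 0, nat_lit 256801, [nat_lit 2257066667, nat_lit 1408000000, nat_lit 211200000], [], [nat_lit 11824376852, nat_lit 12165658625, nat_lit 11064643726, nat_lit 11340328695], nat_lit 1271250, nat_lit 1271250, nat_lit 43600, nat_lit 111251, nat_lit 0, nat_lit 0, [nat_lit 1100000, nat_lit 1442500, nat_lit 1271250], [nat_lit 9, nat_lit 40, nat_lit 20, nat_lit 80]⟩, C1.Rw.none,
 ⟨nat_lit 6123, nat_lit 6225, ⟨.ofNat (nat_lit 131030), .ofNat (nat_lit 155426), .ofNat (nat_lit 152387), .ofNat (nat_lit 176782), .ofNat (nat_lit 135519), .ofNat (nat_lit 159634), .ofNat (nat_lit 156867), .ofNat (nat_lit 180982)⟩, ⟨.ofNat (nat_lit 0), .ofNat (nat_lit 0), .ofNat (nat_lit 0), .ofNat (nat_lit 0), .ofNat (nat_lit 0), .ofNat (nat_lit 0), .ofNat (nat_lit 0), .ofNat (nat_lit 0)⟩⟩, [⟨nat_lit 0, nat_lit 100, nat_lit 99, nat_lit 45, nat_lit 451714664⟩]⟩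
noncomputable def p010_l70 : Lf2 := ⟨nat_lit 0, nat_lit 4, [nat_lit 38, nat_lit 5, nat_lit 5, nat_lit 20], true, nat_lit 0, nat_lit 0, nat_lit 0, nat_lit 0, ⟨nat_lit 0, nat_lit 0, nat_lit 1000, nat_lit 5, nat_lit 62, nat_lit 0, nat_lit 0, nat_lit 0, nat_lit 0, nat_lit 215, nat_lit 36817, nat_lit 262, nat_lit 65406664, nat_lit 0, nat_lit 0, nat_lit 562014, false, false⟩,
 nat_lit 0, nat_lit 100000, nat_lit 0, nat_lit 0, nat_lit 54243, nat_lit 0, nat_lit 0, nat_lit 2249, nat_lit 0, nat_lit 0, nat_lit 0, nat_lit 0, nat_lit 0, nat_lit 0, nat_lit 0, nat_lit 1000000, nat_lit 0, nat_lit 0, [(nat_lit 6, [(nat_lit 6, nat_lit 1000)])],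
 ⟨p010_k36, nat_lit 0, nat_lit 0, nat_lit 0, nat_lit 0, nat_lit 256801, [nat_lit 36961066667, nat_lit 44788000001, nat_lit 52267199999], [], [nat_lit 97228417923, nat_lit 90291437958, nat_lit 80501813198, nat_lit 79685512355], nat_lit 1271250, nat_lit 1271250, nat_lit 43600, nat_lit 111251, nat_lit 0, nat_lit 0, [nat_lit 1100000, nat_lit 1442500, nat_lit 1271250], [nat_lit 9, nat_lit 40, nat_lit 20, nat_lit 80]⟩, C1.Rw.none,
 ⟨nat_lit 6123, nat_lit 6225, ⟨.ofNat (nat_lit 131030), .ofNat (nat_lit 155426), .ofNat (nat_lit 152387), .ofNat (nat_lit 176782), .ofNat (nat_lit 135519), .ofNat (nat_lit 159634), .ofNat (nat_lit 156867), .ofNat (nat_lit 180982)⟩, ⟨.ofNat (nat_lit 0), .ofNat (nat_lit 0), .ofNat (nat_lit 0), .ofNat (nat_lit 0), .ofNat (nat_lit 0), .ofNat (nat_lit 0), .ofNat (nat_lit 0), .ofNat (nat_lit 0)⟩⟩, [⟨nat_lit 0, nat_lit 100, nat_lit 99, nat_lit 45, nat_lit 7146723781⟩]⟩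
noncomputable def p010_l71 : Lf2 := ⟨nat_lit 0, nat_lit 4, [nat_lit 38, nat_lit 5, nat_lit 5, nat_lit 20], true, nat_lit 0, nat_lit 0, nat_lit 0, nat_lit 0, ⟨nat_lit 0, nat_lit 0, nat_lit 1000, nat_lit 5, nat_lit 62, nat_lit 0, nat_lit 0, nat_lit 0, nat_lit 0, nat_lit 215, nat_lit 35267, nat_lit 261, nat_lit 65450083, nat_lit 0, nat_lit 0, nat_lit 549930, false, false⟩,
 nat_lit 0, nat_lit 100000, nat_lit 0, nat_lit 0, nat_lit 52941, nat_lit 0, nat_lit 1850, nat_lit 2849, nat_lit 0, nat_lit 0, nat_lit 0, nat_lit 0, nat_lit 0, nat_lit 0, nat_lit 0, nat_lit 1000000, nat_lit 0, nat_lit 0, [(nat_lit 6, [(nat_lit 6, nat_lit 1000)])],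
 ⟨p010_k29, nat_lit 0, nat_lit 0, nat_lit 314, nat_lit 0, nat_lit 263440, [nat_lit 46561066667, nat_lit 56788000001, nat_lit 66667199999], [], [nat_lit 138782449460, nat_lit 129340372614, nat_lit 122427365153, nat_lit 119939307632], nat_lit 1271250, nat_lit 1271250, nat_lit 43600, nat_lit 111251, nat_lit 0, nat_lit 0, [nat_lit 1100000, nat_lit 1442500, nat_lit 1271250], [nat_lit 9, nat_lit 40, nat_lit 20, nat_lit 80, nat_lit 2, nat_lit 215, nat_lit 10, nat_lit 8]⟩, C1.Rw.none,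
 ⟨nat_lit 6123, nat_lit 6325, ⟨.ofNat (nat_lit 126498), .ofNat (nat_lit 151177), .ofNat (nat_lit 147866), .ofNat (nat_lit 172545), .ofNat (nat_lit 135519), .ofNat (nat_lit 159634), .ofNat (nat_lit 156867), .ofNat (nat_lit 180982)⟩, ⟨.ofNat (nat_lit 0), .ofNat (nat_lit 0), .ofNat (nat_lit 0), .ofNat (nat_lit 0), .ofNat (nat_lit 0), .ofNat (nat_lit 0), .ofNat (nat_lit 0), .ofNat (nat_lit 0)⟩⟩, [⟨nat_lit 0, nat_lit 100, nat_lit 99, nat_lit 45, nat_lit 3997018332⟩, ⟨nat_lit 0, nat_lit 100, nat_lit 98, nat_lit 30, nat_lit 3026014137⟩]⟩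
noncomputable def p010_l72 : Lf2 := ⟨nat_lit 0, nat_lit 4, [nat_lit 38, nat_lit 5, nat_lit 5, nat_lit 20], false, nat_lit 0, nat_lit 0, nat_lit 0, nat_lit 0, ⟨nat_lit 157, nat_lit 0, nat_lit 843, nat_lit 5, nat_lit 73, nat_lit 0, nat_lit 0, nat_lit 0, nat_lit 0, nat_lit 215, nat_lit 50417, nat_lit 270, nat_lit 64814429, nat_lit 0, nat_lit 0, nat_lit 718661, false, false⟩,
 nat_lit 3805, nat_lit 6910, nat_lit 0, nat_lit 0, nat_lit 5672, nat_lit 1819, nat_lit 338, nat_lit 0, nat_lit 0, nat_lit 670, nat_lit 0, nat_lit 0, nat_lit 0, nat_lit 0, nat_lit 16, nat_lit 843000, nat_lit 0, nat_lit 0, [(nat_lit 6, [(nat_lit 6, nat_lit 843)])],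
 ⟨p010_k29, nat_lit 0, nat_lit 0, nat_lit 282, nat_lit 0, nat_lit 233592, [nat_lit 1815683200, nat_lit 1139394000, nat_lit 188334600], [], [nat_lit 14013198816, nat_lit 14055513813, nat_lit 14282690912, nat_lit 13852557061], nat_lit 1271250, nat_lit 1271250, nat_lit 111251, nat_lit 230001, nat_lit 0, nat_lit 0, [nat_lit 1100000, nat_lit 1442500, nat_lit 1271250], [nat_lit 9, nat_lit 40, nat_lit 20, nat_lit 80, nat_lit 2, nat_lit 215, nat_lit 10, nat_lit 8]⟩, ⟨p010_k37, nat_lit 0, nat_lit 0, nat_lit 0, nat_lit 0, nat_lit 259988, [nat_lit 981250000, nat_lit 1250976000, nat_lit 1545194000], [], [nat_lit 4281083948, nat_lit 3357268724, nat_lit 4296519620, nat_lit 3376898704], nat_lit 1271250, nat_lit 1271250, nat_lit 111251, nat_lit 230001, nat_lit 0, nat_lit 0, [nat_lit 1412500, nat_lit 1271250, nat_lit 1271250], [nat_lit 25, nat_lit 40, nat_lit 20, nat_lit 80]⟩,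
 ⟨nat_lit 6264, nat_lit 6325, ⟨.ofNat (nat_lit 151177), .ofNat (nat_lit 192309), .ofNat (nat_lit 172545), .ofNat (nat_lit 213677), .ofNat (nat_lit 153731), .ofNat (nat_lit 194579), .ofNat (nat_lit 175092), .ofNat (nat_lit 215940)⟩, ⟨.ofNat (nat_lit 0), .ofNat (nat_lit 0), .ofNat (nat_lit 0), .ofNat (nat_lit 0), .ofNat (nat_lit 0), .ofNat (nat_lit 0), .ofNat (nat_lit 0), .ofNat (nat_lit 0)⟩⟩, []⟩
noncomputable def p010_l73 : Lf2 := ⟨nat_lit 0, nat_lit 4, [nat_lit 38, nat_lit 5, nat_lit 5, nat_lit 20], true, nat_lit 0, nat_lit 0, nat_lit 0, nat_lit 0, ⟨nat_lit 0, nat_lit 0, nat_lit 1000, nat_lit 5, nat_lit 74, nat_lit 0, nat_lit 0, nat_lit 0, nat_lit 0, nat_lit 215, nat_lit 52267, nat_lit 271, nat_lit 64768084, nat_lit 0, nat_lit 0, nat_lit 730347, false, false⟩,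
 nat_lit 0, nat_lit 8595, nat_lit 0, nat_lit 0, nat_lit 4617, nat_lit 0, nat_lit 0, nat_lit 0, nat_lit 0, nat_lit 0, nat_lit 0, nat_lit 0, nat_lit 0, nat_lit 0, nat_lit 75, nat_lit 921400, nat_lit 0, nat_lit 0, [(nat_lit 6, [(nat_lit 5, nat_lit 131), (nat_lit 6, nat_lit 869)])],
 ⟨p010_k35, nat_lit 0, nat_lit 0, nat_lit 285, nat_lit 0, nat_lit 238227, [nat_lit 2234776534, nat_lit 1337501200, nat_lit 200349200], [], [nat_lit 12796577876, nat_lit 12856480599, nat_lit 13106871018, nat_lit 12873452119], nat_lit 1271250, nat_lit 1271250, nat_lit 111251, nat_lit 230001, nat_lit 0, nat_lit 0, [nat_lit 1100000, nat_lit 1442500, nat_lit 1271250], [nat_lit 9, nat_lit 40, nat_lit 20, nat_lit 80, nat_lit 2, nat_lit 215, nat_lit 10, nat_lit 8]⟩, C1.Rw.none,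
 ⟨nat_lit 6224, nat_lit 6265, ⟨.ofNat (nat_lit 153731), .ofNat (nat_lit 194579), .ofNat (nat_lit 175092), .ofNat (nat_lit 215940), .ofNat (nat_lit 155426), .ofNat (nat_lit 196084), .ofNat (nat_lit 176782), .ofNat (nat_lit 217441)⟩, ⟨.ofNat (nat_lit 0), .ofNat (nat_lit 0), .ofNat (nat_lit 0), .ofNat (nat_lit 0), .ofNat (nat_lit 0), .ofNat (nat_lit 0), .ofNat (nat_lit 0), .ofNat (nat_lit 0)⟩⟩, []⟩
noncomputable def p010_l74 : Lf2 := ⟨nat_lit 0, nat_lit 4, [nat_lit 38, nat_lit 5, nat_lit 5, nat_lit 20], true, nat_lit 0, nat_lit 0, nat_lit 0, nat_lit 0, ⟨nat_lit 0, nat_lit 0, nat_lit 1000, nat_lit 5, nat_lit 75, nat_lit 0, nat_lit 0, nat_lit 0, nat_lit 0, nat_lit 215, nat_lit 54150, nat_lit 272, nat_lit 64702955, nat_lit 0, nat_lit 0, nat_lit 746645, false, false⟩,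
 nat_lit 0, nat_lit 8025, nat_lit 0, nat_lit 0, nat_lit 4353, nat_lit 0, nat_lit 0, nat_lit 0, nat_lit 0, nat_lit 0, nat_lit 0, nat_lit 0, nat_lit 0, nat_lit 0, nat_lit 80, nat_lit 1000000, nat_lit 0, nat_lit 0, [(nat_lit 6, [(nat_lit 6, nat_lit 1000)])],
 ⟨p010_k36, nat_lit 0, nat_lit 0, nat_lit 295, nat_lit 0, nat_lit 256801, [nat_lit 2257066667, nat_lit 1408000000, nat_lit 211200000], [], [nat_lit 12884920938, nat_lit 13043317370, nat_lit 13206251332, nat_lit 12656071309], nat_lit 1271250, nat_lit 1271250, nat_lit 111251, nat_lit 230001, nat_lit 0, nat_lit 0, [nat_lit 1100000, nat_lit 1442500, nat_lit 1271250], [nat_lit 9, nat_lit 40, nat_lit 20, nat_lit 80, nat_lit 2, nat_lit 215, nat_lit 10, nat_lit 8]⟩, C1.Rw.none,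
 ⟨nat_lit 6123, nat_lit 6225, ⟨.ofNat (nat_lit 155426), .ofNat (nat_lit 196084), .ofNat (nat_lit 176782), .ofNat (nat_lit 217441), .ofNat (nat_lit 159634), .ofNat (nat_lit 199824), .ofNat (nat_lit 180982), .ofNat (nat_lit 221172)⟩, ⟨.ofNat (nat_lit 0), .ofNat (nat_lit 0), .ofNat (nat_lit 0), .ofNat (nat_lit 0), .ofNat (nat_lit 0), .ofNat (nat_lit 0), .ofNat (nat_lit 0), .ofNat (nat_lit 0)⟩⟩, []⟩
noncomputable def b_NL_600_550_0_21 : St := ⟨false, nat_lit 1, nat_lit 1, nat_lit 1, nat_lit 20, nat_lit 240, nat_lit 250, nat_lit 220, nat_lit 240, nat_lit 8, nat_lit 40, nat_lit 0, nat_lit 0, nat_lit 0, nat_lit 0, nat_lit 0, nat_lit 0, nat_lit 8, nat_lit 16, nat_lit 0, nat_lit 0, nat_lit 0, nat_lit 800⟩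
theorem d_NL_600_550_0_21 (h : EB TB.env) : Dead b_NL_600_550_0_21 := chkB_sound0 h (T :=
(.spl (nat_lit 6) (nat_lit 12)
(.spl (nat_lit 0) (nat_lit 245)
(.spl (nat_lit 7) (nat_lit 600)
(.spl (nat_lit 7) (nat_lit 300)
(.leaf p010_l35)
(.spl (nat_lit 7) (nat_lit 460)
(.spl (nat_lit 1) (nat_lit 230)
(.leaf p010_l36)
(.trZ (nat_lit 0) (nat_lit 100) (nat_lit 99) (nat_lit 35) (nat_lit 12) (.leaf p010_l37)))
(.spl (nat_lit 2) (nat_lit 20)
(.spl (nat_lit 7) (nat_lit 540)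
(.spl (nat_lit 1) (nat_lit 230)
(.leaf p010_l38)
(.trZ (nat_lit 0) (nat_lit 100) (nat_lit 99) (nat_lit 35) (nat_lit 12) (.leaf p010_l39)))
(.leaf p010_l40))
(.spl (nat_lit 0) (nat_lit 243)
(.leaf p010_l41)
(.leaf p010_l42)))))
(.leaf p010_l43))
(.spl (nat_lit 2) (nat_lit 20)
(.spl (nat_lit 1) (nat_lit 230)
(.spl (nat_lit 1) (nat_lit 225)
(.spl (nat_lit 0) (nat_lit 248)
(.leaf p010_l44)
(.leaf p010_l45))
(.trZ (nat_lit 0) (nat_lit 100) (nat_lit 98) (nat_lit 35) (nat_lit 12) (.leaf p010_l46)))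
(.trZ (nat_lit 0) (nat_lit 100) (nat_lit 99) (nat_lit 37) (nat_lit 12) (.spl (nat_lit 7) (nat_lit 600)
(.leaf p010_l47)
(.leaf p010_l48))))
(.leaf p010_l49)))
(.spl (nat_lit 2) (nat_lit 20)
(.spl (nat_lit 7) (nat_lit 600)
(.spl (nat_lit 7) (nat_lit 300)
(.leaf p010_l50)
(.spl (nat_lit 7) (nat_lit 460)
(.spl (nat_lit 1) (nat_lit 230)
(.leaf p010_l51)
(.trZ (nat_lit 0) (nat_lit 100) (nat_lit 99) (nat_lit 35) (nat_lit 12) (.spl (nat_lit 2) (nat_lit 16)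
(.spl (nat_lit 1) (nat_lit 235)
(.leaf p010_l52)
(.leaf p010_l53))
(.spl (nat_lit 1) (nat_lit 235)
(.leaf p010_l54)
(.leaf p010_l55)))))
(.spl (nat_lit 0) (nat_lit 245)
(.spl (nat_lit 2) (nat_lit 16)
(.spl (nat_lit 7) (nat_lit 540)
(.leaf p010_l56)
(.spl (nat_lit 0) (nat_lit 243)
(.spl (nat_lit 1) (nat_lit 230)
(.leaf p010_l57)
(.trZ (nat_lit 0) (nat_lit 100) (nat_lit 99) (nat_lit 35) (nat_lit 12) (.spl (nat_lit 1) (nat_lit 235)
(.leaf p010_l58)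
(.spl (nat_lit 0) (nat_lit 242)
(.spl (nat_lit 7) (nat_lit 580)
(.spl (nat_lit 7) (nat_lit 560)
(.spl (nat_lit 0) (nat_lit 241)
(.spl (nat_lit 1) (nat_lit 238)
(.leaf p010_l59)
(.spl (nat_lit 8) (nat_lit 400)
(.leaf p010_l60)
(.leaf p010_l61)))
(.leaf p010_l62))
(.leaf p010_l63))
(.leaf p010_l64))
(.leaf p010_l65)))))
(.leaf p010_l66)))
(.spl (nat_lit 0) (nat_lit 243)
(.leaf p010_l67)
(.leaf p010_l68)))
(.spl (nat_lit 7) (nat_lit 540)
(.leaf p010_l69)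
(.leaf p010_l70)))))
(.leaf p010_l71))
(.spl (nat_lit 0) (nat_lit 245)
(.spl (nat_lit 0) (nat_lit 243)
(.leaf p010_l72)
(.leaf p010_l73))
(.leaf p010_l74))))) (by decide +kernel)
noncomputable def p010_l75 : Lf2 := ⟨nat_lit 0, nat_lit 5, [nat_lit 4, nat_lit 5, nat_lit 5, nat_lit 20], true, nat_lit 0, nat_lit 0, nat_lit 0, nat_lit 0, ⟨nat_lit 0, nat_lit 0, nat_lit 1000, nat_lit 5, nat_lit 60, nat_lit 0, nat_lit 0, nat_lit 0, nat_lit 0, nat_lit 215, nat_lit 33750, nat_lit 260, nat_lit 65529133, nat_lit 0, nat_lit 0, nat_lit 527687, false, false⟩,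
 nat_lit 0, nat_lit 5101, nat_lit 0, nat_lit 0, nat_lit 2700, nat_lit 0, nat_lit 0, nat_lit 0, nat_lit 0, nat_lit 0, nat_lit 0, nat_lit 0, nat_lit 0, nat_lit 0, nat_lit 108, nat_lit 855400, nat_lit 0, nat_lit 0, [(nat_lit 6, [(nat_lit 5, nat_lit 241), (nat_lit 6, nat_lit 759)])],
 ⟨p010_k38, nat_lit 0, nat_lit 0, nat_lit 0, nat_lit 0, nat_lit 234127, [nat_lit 1462468534, nat_lit 2637933067, nat_lit 2322209001, nat_lit 190283900], [], [nat_lit 14199452101, nat_lit 14748056163, nat_lit 13966676937, nat_lit 14517680123], nat_lit 1271250, nat_lit 1271250, nat_lit 43600, nat_lit 88400, nat_lit 0, nat_lit 0, [nat_lit 490000, nat_lit 1100000, nat_lit 1442500, nat_lit 1271250], [nat_lit 128, nat_lit 40, nat_lit 20, nat_lit 40]⟩, C1.Rw.none,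
 ⟨nat_lit 6123, nat_lit 6325, ⟨.ofNat (nat_lit 126498), .ofNat (nat_lit 142951), .ofNat (nat_lit 147866), .ofNat (nat_lit 164319), .ofNat (nat_lit 135519), .ofNat (nat_lit 151595), .ofNat (nat_lit 156867), .ofNat (nat_lit 172944)⟩, ⟨.ofNat (nat_lit 0), .ofNat (nat_lit 0), .ofNat (nat_lit 0), .ofNat (nat_lit 0), .ofNat (nat_lit 0), .ofNat (nat_lit 0), .ofNat (nat_lit 0), .ofNat (nat_lit 0)⟩⟩, [⟨nat_lit 0, nat_lit 100, nat_lit 99, nat_lit 37, nat_lit 255527658⟩]⟩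
noncomputable def p010_l76 : Lf2 := ⟨nat_lit 0, nat_lit 5, [nat_lit 4, nat_lit 5, nat_lit 5, nat_lit 20], true, nat_lit 0, nat_lit 0, nat_lit 0, nat_lit 0, ⟨nat_lit 0, nat_lit 0, nat_lit 1000, nat_lit 5, nat_lit 60, nat_lit 0, nat_lit 0, nat_lit 0, nat_lit 0, nat_lit 215, nat_lit 33750, nat_lit 260, nat_lit 65529133, nat_lit 0, nat_lit 0, nat_lit 527687, false, false⟩,
 nat_lit 0, nat_lit 100000, nat_lit 0, nat_lit 0, nat_lit 52941, nat_lit 0, nat_lit 2984, nat_lit 2459, nat_lit 0, nat_lit 0, nat_lit 0, nat_lit 0, nat_lit 0, nat_lit 0, nat_lit 0, nat_lit 1000000, nat_lit 0, nat_lit 0, [(nat_lit 6, [(nat_lit 6, nat_lit 1000)])],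
 ⟨p010_k39, nat_lit 0, nat_lit 0, nat_lit 370, nat_lit 0, nat_lit 234127, [nat_lit 40321066667, nat_lit 49282400001, nat_lit 64913599999], [], [nat_lit 117531249460, nat_lit 112177329311, nat_lit 106627859922, nat_lit 105874470393], nat_lit 1271250, nat_lit 1271250, nat_lit 43600, nat_lit 88400, nat_lit 0, nat_lit 0, [nat_lit 1100000, nat_lit 1442500, nat_lit 1271250], [nat_lit 11, nat_lit 40, nat_lit 20, nat_lit 80, nat_lit 1, nat_lit 289, nat_lit 75, nat_lit 9]⟩, C1.Rw.none,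
 ⟨nat_lit 6123, nat_lit 6325, ⟨.ofNat (nat_lit 126498), .ofNat (nat_lit 142951), .ofNat (nat_lit 147866), .ofNat (nat_lit 164319), .ofNat (nat_lit 135519), .ofNat (nat_lit 151595), .ofNat (nat_lit 156867), .ofNat (nat_lit 172944)⟩, ⟨.ofNat (nat_lit 0), .ofNat (nat_lit 0), .ofNat (nat_lit 0), .ofNat (nat_lit 0), .ofNat (nat_lit 0), .ofNat (nat_lit 0), .ofNat (nat_lit 0), .ofNat (nat_lit 0)⟩⟩, [⟨nat_lit 0, nat_lit 100, nat_lit 99, nat_lit 45, nat_lit 1330385351⟩, ⟨nat_lit 0, nat_lit 100, nat_lit 98, nat_lit 30, nat_lit 10204081633⟩]⟩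
noncomputable def p010_l77 : Lf2 := ⟨nat_lit 0, nat_lit 5, [nat_lit 4, nat_lit 5, nat_lit 5, nat_lit 20], true, nat_lit 0, nat_lit 0, nat_lit 0, nat_lit 0, ⟨nat_lit 0, nat_lit 0, nat_lit 1000, nat_lit 5, nat_lit 63, nat_lit 0, nat_lit 0, nat_lit 0, nat_lit 0, nat_lit 215, nat_lit 36817, nat_lit 262, nat_lit 65394676, nat_lit 0, nat_lit 0, nat_lit 565334, false, false⟩,
 nat_lit 0, nat_lit 8326, nat_lit 0, nat_lit 0, nat_lit 4407, nat_lit 0, nat_lit 0, nat_lit 0, nat_lit 0, nat_lit 0, nat_lit 0, nat_lit 0, nat_lit 0, nat_lit 0, nat_lit 147, nat_lit 1000000, nat_lit 0, nat_lit 0, [(nat_lit 6, [(nat_lit 6, nat_lit 1000)])],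
 ⟨p010_k39, nat_lit 0, nat_lit 0, nat_lit 347, nat_lit 0, nat_lit 195942, [nat_lit 3329066667, nat_lit 3042400001, nat_lit 177599999], [], [nat_lit 13904382695, nat_lit 14159538419, nat_lit 13944785365, nat_lit 13873372293], nat_lit 1271250, nat_lit 1271250, nat_lit 88400, nat_lit 111251, nat_lit 0, nat_lit 0, [nat_lit 1100000, nat_lit 1442500, nat_lit 1271250], [nat_lit 11, nat_lit 40, nat_lit 20, nat_lit 80, nat_lit 1, nat_lit 289, nat_lit 75, nat_lit 9]⟩, C1.Rw.none,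
 ⟨nat_lit 6123, nat_lit 6325, ⟨.ofNat (nat_lit 142951), .ofNat (nat_lit 151177), .ofNat (nat_lit 153635), .ofNat (nat_lit 161861), .ofNat (nat_lit 151595), .ofNat (nat_lit 159634), .ofNat (nat_lit 162269), .ofNat (nat_lit 170308)⟩, ⟨.ofNat (nat_lit 0), .ofNat (nat_lit 0), .ofNat (nat_lit 0), .ofNat (nat_lit 0), .ofNat (nat_lit 0), .ofNat (nat_lit 0), .ofNat (nat_lit 0), .ofNat (nat_lit 0)⟩⟩, []⟩
noncomputable def p010_l78 : Lf2 := ⟨nat_lit 0, nat_lit 5, [nat_lit 4, nat_lit 5, nat_lit 5, nat_lit 20], true, nat_lit 0, nat_lit 0, nat_lit 0, nat_lit 0, ⟨nat_lit 0, nat_lit 0, nat_lit 1000, nat_lit 5, nat_lit 67, nat_lit 0, nat_lit 0, nat_lit 0, nat_lit 0, nat_lit 215, nat_lit 41667, nat_lit 265, nat_lit 65174548, nat_lit 0, nat_lit 0, nat_lit 625135, false, false⟩,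
 nat_lit 0, nat_lit 5101, nat_lit 0, nat_lit 0, nat_lit 2700, nat_lit 0, nat_lit 0, nat_lit 0, nat_lit 0, nat_lit 0, nat_lit 0, nat_lit 0, nat_lit 0, nat_lit 0, nat_lit 108, nat_lit 855400, nat_lit 0, nat_lit 0, [(nat_lit 6, [(nat_lit 5, nat_lit 241), (nat_lit 6, nat_lit 759)])],
 ⟨p010_k38, nat_lit 0, nat_lit 0, nat_lit 0, nat_lit 0, nat_lit 234127, [nat_lit 1462468534, nat_lit 2637933067, nat_lit 2322209001, nat_lit 190283900], [], [nat_lit 13966676937, nat_lit 14517680123, nat_lit 13875676136, nat_lit 14402492102], nat_lit 1271250, nat_lit 1271250, nat_lit 88400, nat_lit 111251, nat_lit 0, nat_lit 0, [nat_lit 490000, nat_lit 1100000, nat_lit 1442500, nat_lit 1271250], [nat_lit 128, nat_lit 40, nat_lit 20, nat_lit 40]⟩, C1.Rw.none,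
 ⟨nat_lit 6123, nat_lit 6325, ⟨.ofNat (nat_lit 153635), .ofNat (nat_lit 161861), .ofNat (nat_lit 164319), .ofNat (nat_lit 172545), .ofNat (nat_lit 162269), .ofNat (nat_lit 170308), .ofNat (nat_lit 172944), .ofNat (nat_lit 180982)⟩, ⟨.ofNat (nat_lit 0), .ofNat (nat_lit 0), .ofNat (nat_lit 0), .ofNat (nat_lit 0), .ofNat (nat_lit 0), .ofNat (nat_lit 0), .ofNat (nat_lit 0), .ofNat (nat_lit 0)⟩⟩, []⟩
noncomputable def p010_l79 : Lf2 := ⟨nat_lit 0, nat_lit 5, [nat_lit 4, nat_lit 5, nat_lit 5, nat_lit 20], true, nat_lit 0, nat_lit 0, nat_lit 0, nat_lit 0, ⟨nat_lit 0, nat_lit 0, nat_lit 1000, nat_lit 5, nat_lit 67, nat_lit 0, nat_lit 0, nat_lit 0, nat_lit 0, nat_lit 215, nat_lit 41667, nat_lit 265, nat_lit 65174548, nat_lit 0, nat_lit 0, nat_lit 625135, false, false⟩,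
 nat_lit 0, nat_lit 100000, nat_lit 0, nat_lit 0, nat_lit 52941, nat_lit 0, nat_lit 642, nat_lit 3058, nat_lit 0, nat_lit 0, nat_lit 0, nat_lit 0, nat_lit 0, nat_lit 0, nat_lit 0, nat_lit 1000000, nat_lit 0, nat_lit 0, [(nat_lit 6, [(nat_lit 6, nat_lit 1000)])],
 ⟨p010_k39, nat_lit 0, nat_lit 0, nat_lit 360, nat_lit 0, nat_lit 234127, [nat_lit 49905066667, nat_lit 61262400001, nat_lit 81685599999], [], [nat_lit 139119708102, nat_lit 142105328891, nat_lit 136435793115, nat_lit 138953447430], nat_lit 1271250, nat_lit 1271250, nat_lit 88400, nat_lit 111251, nat_lit 0, nat_lit 0, [nat_lit 1100000, nat_lit 1442500, nat_lit 1271250], [nat_lit 11, nat_lit 40, nat_lit 20, nat_lit 80, nat_lit 1, nat_lit 289, nat_lit 75, nat_lit 9]⟩, C1.Rw.none,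
 ⟨nat_lit 6123, nat_lit 6325, ⟨.ofNat (nat_lit 153635), .ofNat (nat_lit 161861), .ofNat (nat_lit 164319), .ofNat (nat_lit 172545), .ofNat (nat_lit 162269), .ofNat (nat_lit 170308), .ofNat (nat_lit 172944), .ofNat (nat_lit 180982)⟩, ⟨.ofNat (nat_lit 0), .ofNat (nat_lit 0), .ofNat (nat_lit 0), .ofNat (nat_lit 0), .ofNat (nat_lit 0), .ofNat (nat_lit 0), .ofNat (nat_lit 0), .ofNat (nat_lit 0)⟩⟩, [⟨nat_lit 0, nat_lit 100, nat_lit 99, nat_lit 35, nat_lit 10101010101⟩]⟩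
noncomputable def p010_l80 : Lf2 := ⟨nat_lit 0, nat_lit 5, [nat_lit 4, nat_lit 5, nat_lit 5, nat_lit 20], true, nat_lit 0, nat_lit 0, nat_lit 0, nat_lit 0, ⟨nat_lit 0, nat_lit 0, nat_lit 1000, nat_lit 5, nat_lit 72, nat_lit 0, nat_lit 0, nat_lit 0, nat_lit 0, nat_lit 215, nat_lit 48600, nat_lit 269, nat_lit 64872925, nat_lit 0, nat_lit 0, nat_lit 703802, false, false⟩,
 nat_lit 0, nat_lit 8578, nat_lit 0, nat_lit 0, nat_lit 4541, nat_lit 0, nat_lit 0, nat_lit 0, nat_lit 0, nat_lit 0, nat_lit 0, nat_lit 0, nat_lit 0, nat_lit 0, nat_lit 147, nat_lit 1000000, nat_lit 0, nat_lit 0, [(nat_lit 6, [(nat_lit 6, nat_lit 1000)])],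
 ⟨p010_k39, nat_lit 0, nat_lit 0, nat_lit 342, nat_lit 0, nat_lit 195942, [nat_lit 3329066667, nat_lit 3042400001, nat_lit 177599999], [], [nat_lit 13738415717, nat_lit 13973020321, nat_lit 14048886205, nat_lit 13094079467], nat_lit 1271250, nat_lit 1271250, nat_lit 111251, nat_lit 230001, nat_lit 0, nat_lit 0, [nat_lit 1100000, nat_lit 1442500, nat_lit 1271250], [nat_lit 11, nat_lit 40, nat_lit 20, nat_lit 80, nat_lit 1, nat_lit 289, nat_lit 75, nat_lit 9]⟩, C1.Rw.none,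
 ⟨nat_lit 6123, nat_lit 6325, ⟨.ofNat (nat_lit 151177), .ofNat (nat_lit 192309), .ofNat (nat_lit 161861), .ofNat (nat_lit 202993), .ofNat (nat_lit 159634), .ofNat (nat_lit 199824), .ofNat (nat_lit 170308), .ofNat (nat_lit 210498)⟩, ⟨.ofNat (nat_lit 0), .ofNat (nat_lit 0), .ofNat (nat_lit 0), .ofNat (nat_lit 0), .ofNat (nat_lit 0), .ofNat (nat_lit 0), .ofNat (nat_lit 0), .ofNat (nat_lit 0)⟩⟩, []⟩
noncomputable def p010_l81 : Lf2 := ⟨nat_lit 0, nat_lit 5, [nat_lit 4, nat_lit 5, nat_lit 5, nat_lit 20], true, nat_lit 0, nat_lit 0, nat_lit 0, nat_lit 0, ⟨nat_lit 0, nat_lit 0, nat_lit 1000, nat_lit 5, nat_lit 77, nat_lit 0, nat_lit 0, nat_lit 0, nat_lit 0, nat_lit 215, nat_lit 56067, nat_lit 273, nat_lit 64623797, nat_lit 0, nat_lit 0, nat_lit 766262, false, false⟩,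
 nat_lit 0, nat_lit 7810, nat_lit 0, nat_lit 0, nat_lit 4134, nat_lit 0, nat_lit 3, nat_lit 0, nat_lit 0, nat_lit 0, nat_lit 0, nat_lit 0, nat_lit 0, nat_lit 0, nat_lit 122, nat_lit 1000000, nat_lit 0, nat_lit 0, [(nat_lit 6, [(nat_lit 6, nat_lit 1000)])],
 ⟨p010_k40, nat_lit 0, nat_lit 0, nat_lit 0, nat_lit 0, nat_lit 234127, [nat_lit 2929066667, nat_lit 2762400000, nat_lit 1733600001, nat_lit 286399999], [], [nat_lit 12688600111, nat_lit 13195691815, nat_lit 12826825475, nat_lit 12799487823], nat_lit 1271250, nat_lit 1271250, nat_lit 111251, nat_lit 230001, nat_lit 0, nat_lit 0, [nat_lit 1100000, nat_lit 1271250, nat_lit 1271250, nat_lit 1271250], [nat_lit 198, nat_lit 40, nat_lit 20, nat_lit 40]⟩, C1.Rw.none,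
 ⟨nat_lit 6123, nat_lit 6325, ⟨.ofNat (nat_lit 161861), .ofNat (nat_lit 202993), .ofNat (nat_lit 172545), .ofNat (nat_lit 213677), .ofNat (nat_lit 170308), .ofNat (nat_lit 210498), .ofNat (nat_lit 180982), .ofNat (nat_lit 221172)⟩, ⟨.ofNat (nat_lit 0), .ofNat (nat_lit 0), .ofNat (nat_lit 0), .ofNat (nat_lit 0), .ofNat (nat_lit 0), .ofNat (nat_lit 0), .ofNat (nat_lit 0), .ofNat (nat_lit 0)⟩⟩, [⟨nat_lit 0, nat_lit 100, nat_lit 99, nat_lit 45, nat_lit 98124462⟩]⟩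
noncomputable def p010_l82 : Lf2 := ⟨nat_lit 0, nat_lit 5, [nat_lit 4, nat_lit 5, nat_lit 5, nat_lit 20], true, nat_lit 0, nat_lit 0, nat_lit 0, nat_lit 0, ⟨nat_lit 0, nat_lit 0, nat_lit 1000, nat_lit 5, nat_lit 77, nat_lit 0, nat_lit 0, nat_lit 0, nat_lit 0, nat_lit 215, nat_lit 56067, nat_lit 273, nat_lit 64623797, nat_lit 0, nat_lit 0, nat_lit 766262, false, false⟩,
 nat_lit 0, nat_lit 100000, nat_lit 0, nat_lit 0, nat_lit 52941, nat_lit 0, nat_lit 609, nat_lit 3031, nat_lit 0, nat_lit 0, nat_lit 0, nat_lit 0, nat_lit 0, nat_lit 0, nat_lit 0, nat_lit 400000, nat_lit 0, nat_lit 0, [(nat_lit 6, [(nat_lit 5, nat_lit 1000)])],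
 ⟨p010_k39, nat_lit 0, nat_lit 0, nat_lit 356, nat_lit 0, nat_lit 234127, [nat_lit 49913600000, nat_lit 60700000001, nat_lit 82943200000], [], [nat_lit 137244920199, nat_lit 139759802016, nat_lit 127969532639, nat_lit 130440479594], nat_lit 1271250, nat_lit 1271250, nat_lit 111251, nat_lit 230001, nat_lit 0, nat_lit 0, [nat_lit 1100000, nat_lit 1442500, nat_lit 1271250], [nat_lit 11, nat_lit 40, nat_lit 20, nat_lit 80, nat_lit 1, nat_lit 289, nat_lit 75, nat_lit 9]⟩, C1.Rw.none,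
 ⟨nat_lit 6123, nat_lit 6325, ⟨.ofNat (nat_lit 161861), .ofNat (nat_lit 202993), .ofNat (nat_lit 172545), .ofNat (nat_lit 213677), .ofNat (nat_lit 170308), .ofNat (nat_lit 210498), .ofNat (nat_lit 180982), .ofNat (nat_lit 221172)⟩, ⟨.ofNat (nat_lit 0), .ofNat (nat_lit 0), .ofNat (nat_lit 0), .ofNat (nat_lit 0), .ofNat (nat_lit 0), .ofNat (nat_lit 0), .ofNat (nat_lit 0), .ofNat (nat_lit 0)⟩⟩, []⟩
noncomputable def b_NL_600_550_0_22 : St := ⟨false, nat_lit 1, nat_lit 1, nat_lit 1, nat_lit 20, nat_lit 240, nat_lit 250, nat_lit 220, nat_lit 240, nat_lit 8, nat_lit 40, nat_lit 0, nat_lit 0, nat_lit 0, nat_lit 0, nat_lit 0, nat_lit 0, nat_lit 16, nat_lit 20, nat_lit 0, nat_lit 0, nat_lit 0, nat_lit 800⟩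
theorem d_NL_600_550_0_22 (h : EB TB.env) : Dead b_NL_600_550_0_22 := chkB_sound0 h (T :=
(.spl (nat_lit 2) (nat_lit 20)
(.spl (nat_lit 2) (nat_lit 16)
(.spl (nat_lit 7) (nat_lit 600)
(.leaf p010_l75)
(.leaf p010_l76))
(.spl (nat_lit 1) (nat_lit 230)
(.leaf p010_l77)
(.spl (nat_lit 7) (nat_lit 600)
(.leaf p010_l78)
(.leaf p010_l79))))
(.spl (nat_lit 1) (nat_lit 230)
(.leaf p010_l80)
(.spl (nat_lit 7) (nat_lit 600)
(.leaf p010_l81)
(.leaf p010_l82))))) (by decide +kernel)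
noncomputable def p010_l83 : Lf2 := ⟨nat_lit 0, nat_lit 1, [nat_lit 19, nat_lit 5, nat_lit 5, nat_lit 20], true, nat_lit 0, nat_lit 0, nat_lit 0, nat_lit 0, ⟨nat_lit 0, nat_lit 0, nat_lit 1000, nat_lit 5, nat_lit 75, nat_lit 0, nat_lit 0, nat_lit 0, nat_lit 0, nat_lit 215, nat_lit 52267, nat_lit 271, nat_lit 64750829, nat_lit 0, nat_lit 0, nat_lit 734680, false, false⟩,
 nat_lit 0, nat_lit 6972, nat_lit 0, nat_lit 0, nat_lit 3873, nat_lit 0, nat_lit 576, nat_lit 0, nat_lit 0, nat_lit 0, nat_lit 0, nat_lit 0, nat_lit 0, nat_lit 0, nat_lit 10, nat_lit 1000000, nat_lit 0, nat_lit 0, [(nat_lit 6, [(nat_lit 6, nat_lit 1000)])],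
 ⟨p010_k41, nat_lit 0, nat_lit 0, nat_lit 303, nat_lit 0, nat_lit 388087, [nat_lit 1137066667, nat_lit 8000000], [], [nat_lit 13396988676, nat_lit 14000988135, nat_lit 12763980246, nat_lit 13339671254], nat_lit 1271250, nat_lit 1271250, nat_lit 65850, nat_lit 230001, nat_lit 0, nat_lit 0, [nat_lit 1100000, nat_lit 1442500], [nat_lit 31, nat_lit 40, nat_lit 20, nat_lit 80, nat_lit 3, nat_lit 215, nat_lit 10, nat_lit 9]⟩, C1.Rw.none,
 ⟨nat_lit 5916, nat_lit 6124, ⟨.ofNat (nat_lit 143557), .ofNat (nat_lit 199824), .ofNat (nat_lit 164905), .ofNat (nat_lit 221172), .ofNat (nat_lit 152230), .ofNat (nat_lit 207203), .ofNat (nat_lit 173569), .ofNat (nat_lit 228543)⟩, ⟨.ofNat (nat_lit 0), .ofNat (nat_lit 0), .ofNat (nat_lit 0), .ofNat (nat_lit 0), .ofNat (nat_lit 0), .ofNat (nat_lit 0), .ofNat (nat_lit 0), .ofNat (nat_lit 0)⟩⟩, [⟨nat_lit 0, nat_lit 100, nat_lit 97, nat_lit 42, nat_lit 183206298⟩,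 ⟨nat_lit 0, nat_lit 100, nat_lit 97, nat_lit 49, nat_lit 44125513⟩]⟩
noncomputable def p010_l84 : Lf2 := ⟨nat_lit 0, nat_lit 2, [nat_lit 10, nat_lit 5, nat_lit 5, nat_lit 20], true, nat_lit 0, nat_lit 0, nat_lit 0, nat_lit 0, ⟨nat_lit 0, nat_lit 0, nat_lit 1000, nat_lit 5, nat_lit 74, nat_lit 0, nat_lit 0, nat_lit 0, nat_lit 0, nat_lit 215, nat_lit 50417, nat_lit 270, nat_lit 64797192, nat_lit 0, nat_lit 0, nat_lit 723016, false, false⟩,
 nat_lit 0, nat_lit 7125, nat_lit 0, nat_lit 0, nat_lit 3958, nat_lit 0, nat_lit 372, nat_lit 0, nat_lit 0, nat_lit 0, nat_lit 0, nat_lit 0, nat_lit 0, nat_lit 0, nat_lit 80, nat_lit 1000000, nat_lit 0, nat_lit 0, [(nat_lit 6, [(nat_lit 6, nat_lit 1000)])],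
 ⟨p010_k42, nat_lit 0, nat_lit 0, nat_lit 364, nat_lit 0, nat_lit 331367, [nat_lit 2257066667, nat_lit 1408000000, nat_lit 211200000], [], [nat_lit 13380402831, nat_lit 13655749542, nat_lit 13071660279, nat_lit 12982727818], nat_lit 1271250, nat_lit 1271250, nat_lit 65850, nat_lit 230001, nat_lit 0, nat_lit 0, [nat_lit 1100000, nat_lit 1442500, nat_lit 1271250], [nat_lit 9, nat_lit 40, nat_lit 20, nat_lit 80, nat_lit 2, nat_lit 215, nat_lit 10, nat_lit 8]⟩, C1.Rw.none,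
 ⟨nat_lit 6020, nat_lit 6124, ⟨.ofNat (nat_lit 143557), .ofNat (nat_lit 199824), .ofNat (nat_lit 164905), .ofNat (nat_lit 221172), .ofNat (nat_lit 147913), .ofNat (nat_lit 203530), .ofNat (nat_lit 169255), .ofNat (nat_lit 224872)⟩, ⟨.ofNat (nat_lit 0), .ofNat (nat_lit 0), .ofNat (nat_lit 0), .ofNat (nat_lit 0), .ofNat (nat_lit 0), .ofNat (nat_lit 0), .ofNat (nat_lit 0), .ofNat (nat_lit 0)⟩⟩, [⟨nat_lit 0, nat_lit 100, nat_lit 98, nat_lit 47, nat_lit 165118007⟩]⟩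
noncomputable def p010_l85 : Lf2 := ⟨nat_lit 0, nat_lit 2, [nat_lit 10, nat_lit 5, nat_lit 5, nat_lit 20], true, nat_lit 0, nat_lit 0, nat_lit 0, nat_lit 0, ⟨nat_lit 0, nat_lit 0, nat_lit 1000, nat_lit 5, nat_lit 75, nat_lit 0, nat_lit 0, nat_lit 0, nat_lit 0, nat_lit 215, nat_lit 54150, nat_lit 272, nat_lit 64703632, nat_lit 0, nat_lit 0, nat_lit 746477, false, false⟩,
 nat_lit 0, nat_lit 6830, nat_lit 0, nat_lit 0, nat_lit 3884, nat_lit 0, nat_lit 311, nat_lit 0, nat_lit 0, nat_lit 0, nat_lit 0, nat_lit 0, nat_lit 0, nat_lit 0, nat_lit 80, nat_lit 1000000, nat_lit 0, nat_lit 0, [(nat_lit 6, [(nat_lit 6, nat_lit 1000)])],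
 ⟨p010_k43, nat_lit 0, nat_lit 0, nat_lit 371, nat_lit 0, nat_lit 343926, [nat_lit 2257066667, nat_lit 1408000000, nat_lit 211200000], [], [nat_lit 13716653485, nat_lit 14020430996, nat_lit 13075701712, nat_lit 13363907444], nat_lit 1271250, nat_lit 1271250, nat_lit 65850, nat_lit 230001, nat_lit 0, nat_lit 0, [nat_lit 1100000, nat_lit 1442500, nat_lit 1271250], [nat_lit 9, nat_lit 40, nat_lit 20, nat_lit 80, nat_lit 2, nat_lit 215, nat_lit 10, nat_lit 8]⟩, C1.Rw.none,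
 ⟨nat_lit 5916, nat_lit 6021, ⟨.ofNat (nat_lit 147913), .ofNat (nat_lit 203530), .ofNat (nat_lit 169255), .ofNat (nat_lit 224872), .ofNat (nat_lit 152230), .ofNat (nat_lit 207203), .ofNat (nat_lit 173569), .ofNat (nat_lit 228543)⟩, ⟨.ofNat (nat_lit 0), .ofNat (nat_lit 0), .ofNat (nat_lit 0), .ofNat (nat_lit 0), .ofNat (nat_lit 0), .ofNat (nat_lit 0), .ofNat (nat_lit 0), .ofNat (nat_lit 0)⟩⟩, [⟨nat_lit 0, nat_lit 100, nat_lit 97, nat_lit 49, nat_lit 226567484⟩]⟩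
noncomputable def p010_l86 : Lf2 := ⟨nat_lit 0, nat_lit 4, [nat_lit 38, nat_lit 5, nat_lit 5, nat_lit 20], true, nat_lit 0, nat_lit 0, nat_lit 0, nat_lit 0, ⟨nat_lit 0, nat_lit 0, nat_lit 1000, nat_lit 5, nat_lit 64, nat_lit 0, nat_lit 0, nat_lit 0, nat_lit 0, nat_lit 215, nat_lit 38400, nat_lit 263, nat_lit 65346662, nat_lit 0, nat_lit 0, nat_lit 578565, false, false⟩,
 nat_lit 0, nat_lit 7246, nat_lit 0, nat_lit 0, nat_lit 4025, nat_lit 0, nat_lit 119, nat_lit 0, nat_lit 0, nat_lit 0, nat_lit 0, nat_lit 0, nat_lit 0, nat_lit 0, nat_lit 80, nat_lit 1000000, nat_lit 0, nat_lit 0, [(nat_lit 6, [(nat_lit 6, nat_lit 1000)])],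
 ⟨p010_k44, nat_lit 0, nat_lit 0, nat_lit 314, nat_lit 0, nat_lit 270459, [nat_lit 2257066667, nat_lit 1408000000, nat_lit 211200000], [], [nat_lit 13480407628, nat_lit 13769642935, nat_lit 13168371117, nat_lit 13444185892], nat_lit 1271250, nat_lit 1271250, nat_lit 65850, nat_lit 111251, nat_lit 0, nat_lit 0, [nat_lit 1100000, nat_lit 1442500, nat_lit 1271250], [nat_lit 9, nat_lit 40, nat_lit 20, nat_lit 80, nat_lit 2, nat_lit 215, nat_lit 10, nat_lit 8]⟩, C1.Rw.none,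
 ⟨nat_lit 6020, nat_lit 6124, ⟨.ofNat (nat_lit 143557), .ofNat (nat_lit 159634), .ofNat (nat_lit 154231), .ofNat (nat_lit 170308), .ofNat (nat_lit 147913), .ofNat (nat_lit 163803), .ofNat (nat_lit 158584), .ofNat (nat_lit 174474)⟩, ⟨.ofNat (nat_lit 0), .ofNat (nat_lit 0), .ofNat (nat_lit 0), .ofNat (nat_lit 0), .ofNat (nat_lit 0), .ofNat (nat_lit 0), .ofNat (nat_lit 0), .ofNat (nat_lit 0)⟩⟩, [⟨nat_lit 0, nat_lit 100, nat_lit 97, nat_lit 42, nat_lit 307987815⟩]⟩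
noncomputable def p010_l87 : Lf2 := ⟨nat_lit 0, nat_lit 4, [nat_lit 38, nat_lit 5, nat_lit 5, nat_lit 20], true, nat_lit 0, nat_lit 0, nat_lit 0, nat_lit 0, ⟨nat_lit 0, nat_lit 0, nat_lit 1000, nat_lit 5, nat_lit 69, nat_lit 0, nat_lit 0, nat_lit 0, nat_lit 0, nat_lit 215, nat_lit 45067, nat_lit 267, nat_lit 65037014, nat_lit 0, nat_lit 0, nat_lit 661447, false, false⟩,
 nat_lit 0, nat_lit 7592, nat_lit 0, nat_lit 0, nat_lit 4217, nat_lit 0, nat_lit 134, nat_lit 0, nat_lit 0, nat_lit 0, nat_lit 0, nat_lit 0, nat_lit 0, nat_lit 0, nat_lit 80, nat_lit 1000000, nat_lit 0, nat_lit 0, [(nat_lit 6, [(nat_lit 6, nat_lit 1000)])],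
 ⟨p010_k44, nat_lit 0, nat_lit 0, nat_lit 322, nat_lit 0, nat_lit 305119, [nat_lit 2257066667, nat_lit 1408000000, nat_lit 211200000], [], [nat_lit 13202571088, nat_lit 13715943667, nat_lit 12824676693, nat_lit 13335863329], nat_lit 1271250, nat_lit 1271250, nat_lit 88400, nat_lit 111251, nat_lit 0, nat_lit 0, [nat_lit 1100000, nat_lit 1442500, nat_lit 1271250], [nat_lit 9, nat_lit 40, nat_lit 20, nat_lit 80, nat_lit 2, nat_lit 215, nat_lit 10, nat_lit 8]⟩, C1.Rw.none,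
 ⟨nat_lit 6020, nat_lit 6124, ⟨.ofNat (nat_lit 162269), .ofNat (nat_lit 170308), .ofNat (nat_lit 172944), .ofNat (nat_lit 180982), .ofNat (nat_lit 166529), .ofNat (nat_lit 174474), .ofNat (nat_lit 177200), .ofNat (nat_lit 185145)⟩, ⟨.ofNat (nat_lit 0), .ofNat (nat_lit 0), .ofNat (nat_lit 0), .ofNat (nat_lit 0), .ofNat (nat_lit 0), .ofNat (nat_lit 0), .ofNat (nat_lit 0), .ofNat (nat_lit 0)⟩⟩, [⟨nat_lit 0, nat_lit 100, nat_lit 98, nat_lit 43, nat_lit 1394301824⟩]⟩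
noncomputable def p010_l88 : Lf2 := ⟨nat_lit 0, nat_lit 4, [nat_lit 38, nat_lit 5, nat_lit 5, nat_lit 20], true, nat_lit 0, nat_lit 0, nat_lit 0, nat_lit 0, ⟨nat_lit 0, nat_lit 0, nat_lit 1000, nat_lit 5, nat_lit 67, nat_lit 0, nat_lit 0, nat_lit 0, nat_lit 0, nat_lit 215, nat_lit 43350, nat_lit 266, nat_lit 65147227, nat_lit 0, nat_lit 0, nat_lit 632410, false, false⟩,
 nat_lit 0, nat_lit 7791, nat_lit 0, nat_lit 0, nat_lit 4431, nat_lit 0, nat_lit 332, nat_lit 0, nat_lit 0, nat_lit 0, nat_lit 0, nat_lit 0, nat_lit 0, nat_lit 0, nat_lit 80, nat_lit 1000000, nat_lit 0, nat_lit 0, [(nat_lit 6, [(nat_lit 6, nat_lit 1000)])],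
 ⟨p010_k45, nat_lit 0, nat_lit 0, nat_lit 361, nat_lit 0, nat_lit 318972, [nat_lit 2257066667, nat_lit 1408000000, nat_lit 211200000], [], [nat_lit 14567187482, nat_lit 14987271437, nat_lit 13659623858, nat_lit 14186195696], nat_lit 1271250, nat_lit 1271250, nat_lit 65850, nat_lit 111251, nat_lit 0, nat_lit 0, [nat_lit 1100000, nat_lit 1442500, nat_lit 1271250], [nat_lit 9, nat_lit 40, nat_lit 20, nat_lit 80, nat_lit 2, nat_lit 215, nat_lit 10, nat_lit 8]⟩, C1.Rw.none,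
 ⟨nat_lit 5916, nat_lit 6021, ⟨.ofNat (nat_lit 147913), .ofNat (nat_lit 163803), .ofNat (nat_lit 169255), .ofNat (nat_lit 185145), .ofNat (nat_lit 152230), .ofNat (nat_lit 167937), .ofNat (nat_lit 173569), .ofNat (nat_lit 189276)⟩, ⟨.ofNat (nat_lit 0), .ofNat (nat_lit 0), .ofNat (nat_lit 0), .ofNat (nat_lit 0), .ofNat (nat_lit 0), .ofNat (nat_lit 0), .ofNat (nat_lit 0), .ofNat (nat_lit 0)⟩⟩, [⟨nat_lit 0, nat_lit 100, nat_lit 97, nat_lit 43, nat_lit 1366193088⟩]⟩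
noncomputable def p010_l89 : Lf2 := ⟨nat_lit 0, nat_lit 5, [nat_lit 4, nat_lit 5, nat_lit 5, nat_lit 20], true, nat_lit 0, nat_lit 0, nat_lit 0, nat_lit 0, ⟨nat_lit 0, nat_lit 0, nat_lit 1000, nat_lit 5, nat_lit 67, nat_lit 0, nat_lit 0, nat_lit 0, nat_lit 0, nat_lit 215, nat_lit 41667, nat_lit 265, nat_lit 65192474, nat_lit 0, nat_lit 0, nat_lit 620345, false, false⟩,
 nat_lit 0, nat_lit 7592, nat_lit 0, nat_lit 0, nat_lit 4217, nat_lit 0, nat_lit 134, nat_lit 0, nat_lit 0, nat_lit 0, nat_lit 0, nat_lit 0, nat_lit 0, nat_lit 0, nat_lit 80, nat_lit 1000000, nat_lit 0, nat_lit 0, [(nat_lit 6, [(nat_lit 6, nat_lit 1000)])],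
 ⟨p010_k46, nat_lit 0, nat_lit 0, nat_lit 314, nat_lit 0, nat_lit 266140, [nat_lit 2257066667, nat_lit 1408000000, nat_lit 211200000], [], [nat_lit 13583028590, nat_lit 14609019418, nat_lit 12824676693, nat_lit 13849613072], nat_lit 1271250, nat_lit 1271250, nat_lit 65850, nat_lit 111251, nat_lit 0, nat_lit 0, [nat_lit 1100000, nat_lit 1442500, nat_lit 1271250], [nat_lit 9, nat_lit 40, nat_lit 20, nat_lit 80, nat_lit 2, nat_lit 215, nat_lit 10, nat_lit 8]⟩, C1.Rw.none,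
 ⟨nat_lit 5916, nat_lit 6124, ⟨.ofNat (nat_lit 143557), .ofNat (nat_lit 159634), .ofNat (nat_lit 164905), .ofNat (nat_lit 180982), .ofNat (nat_lit 152230), .ofNat (nat_lit 167937), .ofNat (nat_lit 173569), .ofNat (nat_lit 189276)⟩, ⟨.ofNat (nat_lit 0), .ofNat (nat_lit 0), .ofNat (nat_lit 0), .ofNat (nat_lit 0), .ofNat (nat_lit 0), .ofNat (nat_lit 0), .ofNat (nat_lit 0), .ofNat (nat_lit 0)⟩⟩, [⟨nat_lit 0, nat_lit 100, nat_lit 97, nat_lit 42, nat_lit 1416006173⟩]⟩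
noncomputable def p010_l90 : Lf2 := ⟨nat_lit 0, nat_lit 5, [nat_lit 4, nat_lit 5, nat_lit 5, nat_lit 20], true, nat_lit 0, nat_lit 0, nat_lit 0, nat_lit 0, ⟨nat_lit 0, nat_lit 0, nat_lit 1000, nat_lit 5, nat_lit 78, nat_lit 0, nat_lit 0, nat_lit 0, nat_lit 0, nat_lit 215, nat_lit 56067, nat_lit 273, nat_lit 64562084, nat_lit 0, nat_lit 0, nat_lit 781413, false, false⟩,
 nat_lit 0, nat_lit 7349, nat_lit 0, nat_lit 0, nat_lit 4082, nat_lit 0, nat_lit 101, nat_lit 0, nat_lit 0, nat_lit 0, nat_lit 0, nat_lit 0, nat_lit 0, nat_lit 0, nat_lit 80, nat_lit 1000000, nat_lit 0, nat_lit 0, [(nat_lit 6, [(nat_lit 6, nat_lit 1000)])],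
 ⟨p010_k46, nat_lit 0, nat_lit 0, nat_lit 331, nat_lit 0, nat_lit 335024, [nat_lit 2257066667, nat_lit 1408000000, nat_lit 211200000], [], [nat_lit 13118101355, nat_lit 13640049442, nat_lit 13068428615, nat_lit 13247826535], nat_lit 1271250, nat_lit 1271250, nat_lit 111251, nat_lit 230001, nat_lit 0, nat_lit 0, [nat_lit 1100000, nat_lit 1442500, nat_lit 1271250], [nat_lit 9, nat_lit 40, nat_lit 20, nat_lit 80, nat_lit 2, nat_lit 215, nat_lit 10, nat_lit 8]⟩, C1.Rw.none,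
 ⟨nat_lit 5916, nat_lit 6124, ⟨.ofNat (nat_lit 159634), .ofNat (nat_lit 199824), .ofNat (nat_lit 180982), .ofNat (nat_lit 221172), .ofNat (nat_lit 167937), .ofNat (nat_lit 207203), .ofNat (nat_lit 189276), .ofNat (nat_lit 228543)⟩, ⟨.ofNat (nat_lit 0), .ofNat (nat_lit 0), .ofNat (nat_lit 0), .ofNat (nat_lit 0), .ofNat (nat_lit 0), .ofNat (nat_lit 0), .ofNat (nat_lit 0), .ofNat (nat_lit 0)⟩⟩, [⟨nat_lit 0, nat_lit 100, nat_lit 97, nat_lit 49, nat_lit 141308007⟩]⟩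
noncomputable def b_NL_600_550_0_23 : St := ⟨false, nat_lit 1, nat_lit 1, nat_lit 1, nat_lit 20, nat_lit 250, nat_lit 260, nat_lit 220, nat_lit 240, nat_lit 8, nat_lit 40, nat_lit 0, nat_lit 0, nat_lit 0, nat_lit 0, nat_lit 0, nat_lit 0, nat_lit 0, nat_lit 20, nat_lit 0, nat_lit 0, nat_lit 0, nat_lit 800⟩
theorem d_NL_600_550_0_23 (h : EB TB.env) : Dead b_NL_600_550_0_23 := chkB_sound0 h (T :=
(.trZ (nat_lit 0) (nat_lit 100) (nat_lit 97) (nat_lit 35) (nat_lit 12) (.spl (nat_lit 6) (nat_lit 8)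
(.spl (nat_lit 6) (nat_lit 4)
(.leaf p010_l83)
(.spl (nat_lit 0) (nat_lit 255)
(.leaf p010_l84)
(.leaf p010_l85)))
(.spl (nat_lit 2) (nat_lit 20)
(.spl (nat_lit 6) (nat_lit 16)
(.spl (nat_lit 0) (nat_lit 255)
(.spl (nat_lit 1) (nat_lit 230)
(.leaf p010_l86)
(.trZ (nat_lit 0) (nat_lit 100) (nat_lit 98) (nat_lit 40) (nat_lit 16) (.leaf p010_l87)))
(.leaf p010_l88))
(.leaf p010_l89))
(.leaf p010_l90))))) (by decide +kernel)
noncomputable def p010_l91 : Lf2 := ⟨nat_lit 0, nat_lit 5, [nat_lit 4, nat_lit 5, nat_lit 5, nat_lit 20], true, nat_lit 0, nat_lit 0, nat_lit 0, nat_lit 0, ⟨nat_lit 0, nat_lit 0, nat_lit 1000, nat_lit 5, nat_lit 62, nat_lit 0, nat_lit 0, nat_lit 0, nat_lit 0, nat_lit 215, nat_lit 36817, nat_lit 262, nat_lit 65406091, nat_lit 0, nat_lit 0, nat_lit 562173, false, false⟩,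
 nat_lit 0, nat_lit 7689, nat_lit 0, nat_lit 0, nat_lit 4070, nat_lit 0, nat_lit 0, nat_lit 0, nat_lit 0, nat_lit 0, nat_lit 0, nat_lit 0, nat_lit 0, nat_lit 0, nat_lit 106, nat_lit 685600, nat_lit 0, nat_lit 0, [(nat_lit 6, [(nat_lit 5, nat_lit 524), (nat_lit 6, nat_lit 476)])],
 ⟨p010_k39, nat_lit 0, nat_lit 0, nat_lit 329, nat_lit 0, nat_lit 140088, [nat_lit 2903906134, nat_lit 2210662401, nat_lit 28134399], [], [nat_lit 14588652768, nat_lit 14608960054, nat_lit 14671153896, nat_lit 14463875308], nat_lit 1271250, nat_lit 1271250, nat_lit 65850, nat_lit 111251, nat_lit 0, nat_lit 0, [nat_lit 1100000, nat_lit 1442500, nat_lit 1271250], [nat_lit 11, nat_lit 40, nat_lit 20, nat_lit 80, nat_lit 1, nat_lit 289, nat_lit 75, nat_lit 9]⟩, C1.Rw.none,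
 ⟨nat_lit 6284, nat_lit 6325, ⟨.ofNat (nat_lit 145408), .ofNat (nat_lit 161861), .ofNat (nat_lit 148614), .ofNat (nat_lit 165066), .ofNat (nat_lit 147186), .ofNat (nat_lit 163563), .ofNat (nat_lit 150391), .ofNat (nat_lit 166768)⟩, ⟨.ofNat (nat_lit 0), .ofNat (nat_lit 0), .ofNat (nat_lit 0), .ofNat (nat_lit 0), .ofNat (nat_lit 0), .ofNat (nat_lit 0), .ofNat (nat_lit 0), .ofNat (nat_lit 0)⟩⟩, [⟨nat_lit 0, nat_lit 100, nat_lit 99, nat_lit 37, nat_lit 56563204⟩]⟩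
noncomputable def p010_l92 : Lf2 := ⟨nat_lit 0, nat_lit 5, [nat_lit 4, nat_lit 5, nat_lit 5, nat_lit 20], true, nat_lit 0, nat_lit 0, nat_lit 0, nat_lit 0, ⟨nat_lit 0, nat_lit 0, nat_lit 1000, nat_lit 5, nat_lit 61, nat_lit 0, nat_lit 0, nat_lit 0, nat_lit 0, nat_lit 215, nat_lit 35267, nat_lit 261, nat_lit 65453724, nat_lit 0, nat_lit 0, nat_lit 548912, false, false⟩,
 nat_lit 0, nat_lit 7274, nat_lit 0, nat_lit 0, nat_lit 3850, nat_lit 0, nat_lit 16, nat_lit 0, nat_lit 0, nat_lit 0, nat_lit 0, nat_lit 0, nat_lit 0, nat_lit 0, nat_lit 122, nat_lit 1000000, nat_lit 0, nat_lit 0, [(nat_lit 6, [(nat_lit 6, nat_lit 1000)])],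
 ⟨p010_k38, nat_lit 0, nat_lit 0, nat_lit 0, nat_lit 0, nat_lit 139636, [nat_lit 1492400001, nat_lit 2901200001, nat_lit 2590400001, nat_lit 219800000], [], [nat_lit 13162681601, nat_lit 13224986476, nat_lit 12976846801, nat_lit 13040645037], nat_lit 1271250, nat_lit 1271250, nat_lit 65850, nat_lit 88400, nat_lit 0, nat_lit 0, [nat_lit 490000, nat_lit 1100000, nat_lit 1442500, nat_lit 1271250], [nat_lit 128, nat_lit 40, nat_lit 20, nat_lit 40]⟩, C1.Rw.none,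
 ⟨nat_lit 6304, nat_lit 6325, ⟨.ofNat (nat_lit 148614), .ofNat (nat_lit 156840), .ofNat (nat_lit 149682), .ofNat (nat_lit 157908), .ofNat (nat_lit 149503), .ofNat (nat_lit 157710), .ofNat (nat_lit 150571), .ofNat (nat_lit 158779)⟩, ⟨.ofNat (nat_lit 0), .ofNat (nat_lit 0), .ofNat (nat_lit 0), .ofNat (nat_lit 0), .ofNat (nat_lit 0), .ofNat (nat_lit 0), .ofNat (nat_lit 0), .ofNat (nat_lit 0)⟩⟩, [⟨nat_lit 0, nat_lit 100, nat_lit 99, nat_lit 37, nat_lit 343278062⟩]⟩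
noncomputable def p010_l93 : Lf2 := ⟨nat_lit 0, nat_lit 5, [nat_lit 4, nat_lit 5, nat_lit 5, nat_lit 20], true, nat_lit 0, nat_lit 0, nat_lit 0, nat_lit 0, ⟨nat_lit 0, nat_lit 0, nat_lit 1000, nat_lit 5, nat_lit 61, nat_lit 0, nat_lit 0, nat_lit 0, nat_lit 0, nat_lit 215, nat_lit 35267, nat_lit 261, nat_lit 65453724, nat_lit 0, nat_lit 0, nat_lit 548912, false, false⟩,
 nat_lit 0, nat_lit 100000, nat_lit 0, nat_lit 84991, nat_lit 52941, nat_lit 0, nat_lit 9530, nat_lit 3049, nat_lit 0, nat_lit 0, nat_lit 0, nat_lit 0, nat_lit 0, nat_lit 0, nat_lit 0, nat_lit 1000000, nat_lit 0, nat_lit 0, [(nat_lit 6, [(nat_lit 6, nat_lit 1000)])],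
 ⟨p010_k39, nat_lit 0, nat_lit 0, nat_lit 329, nat_lit 0, nat_lit 139636, [nat_lit 49761066667, nat_lit 61082400001, nat_lit 81433599999], [], [nat_lit 113239748380, nat_lit 113559689578, nat_lit 110464202522, nat_lit 110409346923], nat_lit 1271250, nat_lit 1271250, nat_lit 65850, nat_lit 88400, nat_lit 0, nat_lit 0, [nat_lit 1100000, nat_lit 1442500, nat_lit 1271250], [nat_lit 11, nat_lit 40, nat_lit 20, nat_lit 80, nat_lit 1, nat_lit 289, nat_lit 75, nat_lit 9]⟩, C1.Rw.none,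
 ⟨nat_lit 6304, nat_lit 6325, ⟨.ofNat (nat_lit 148614), .ofNat (nat_lit 156840), .ofNat (nat_lit 149682), .ofNat (nat_lit 157908), .ofNat (nat_lit 149503), .ofNat (nat_lit 157710), .ofNat (nat_lit 150571), .ofNat (nat_lit 158779)⟩, ⟨.ofNat (nat_lit 0), .ofNat (nat_lit 0), .ofNat (nat_lit 0), .ofNat (nat_lit 0), .ofNat (nat_lit 0), .ofNat (nat_lit 0), .ofNat (nat_lit 0), .ofNat (nat_lit 0)⟩⟩, [⟨nat_lit 0, nat_lit 100, nat_lit 99, nat_lit 37, nat_lit 10101010101⟩, ⟨nat_lit 0, nat_lit 100, nat_lit 99, nat_lit 36, nat_lit 10101010101⟩]⟩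
noncomputable def p010_l94 : Lf2 := ⟨nat_lit 0, nat_lit 5, [nat_lit 4, nat_lit 5, nat_lit 5, nat_lit 20], false, nat_lit 0, nat_lit 0, nat_lit 0, nat_lit 0, ⟨nat_lit 0, nat_lit 0, nat_lit 1000, nat_lit 5, nat_lit 61, nat_lit 0, nat_lit 0, nat_lit 0, nat_lit 0, nat_lit 215, nat_lit 35267, nat_lit 261, nat_lit 65453724, nat_lit 0, nat_lit 0, nat_lit 548912, false, false⟩,
 nat_lit 7785, nat_lit 0, nat_lit 0, nat_lit 0, nat_lit 4121, nat_lit 3980, nat_lit 0, nat_lit 0, nat_lit 0, nat_lit 974, nat_lit 209, nat_lit 0, nat_lit 0, nat_lit 0, nat_lit 100, nat_lit 633400, nat_lit 0, nat_lit 0, [(nat_lit 6, [(nat_lit 5, nat_lit 611), (nat_lit 6, nat_lit 389)])],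
 ⟨p010_k39, nat_lit 0, nat_lit 0, nat_lit 329, nat_lit 0, nat_lit 139636, [nat_lit 2846232534, nat_lit 2088713601, nat_lit 25921599], [], [nat_lit 14683121255, nat_lit 14748839368, nat_lit 14583326533, nat_lit 14568031939], nat_lit 1271250, nat_lit 1271250, nat_lit 65850, nat_lit 88400, nat_lit 0, nat_lit 0, [nat_lit 1100000, nat_lit 1442500, nat_lit 1271250], [nat_lit 11, nat_lit 40, nat_lit 20, nat_lit 80, nat_lit 1, nat_lit 289, nat_lit 75, nat_lit 9]⟩, ⟨p010_k47, nat_lit 0, nat_lit 0, nat_lit 0, nat_lit 0, nat_lit 144948, [nat_lit 4180000000, nat_lit 5016000000, nat_lit 5852000000], [], [nat_lit 6099594590, nat_lit 6120706420, nat_lit 5815137360, nat_lit 5827314886], nat_lit 1271250, nat_lit 1271250, nat_lit 65850, nat_lit 88400, nat_lit 0, nat_lit 0, [nat_lit 1412500, nat_lit 1271250, nat_lit 1271250], [nat_lit 25, nat_lit 40, nat_lit 20, nat_lit 80]⟩,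
 ⟨nat_lit 6304, nat_lit 6325, ⟨.ofNat (nat_lit 148614), .ofNat (nat_lit 156840), .ofNat (nat_lit 149682), .ofNat (nat_lit 157908), .ofNat (nat_lit 149503), .ofNat (nat_lit 157710), .ofNat (nat_lit 150571), .ofNat (nat_lit 158779)⟩, ⟨.ofNat (nat_lit 0), .ofNat (nat_lit 0), .ofNat (nat_lit 0), .ofNat (nat_lit 0), .ofNat (nat_lit 0), .ofNat (nat_lit 0), .ofNat (nat_lit 0), .ofNat (nat_lit 0)⟩⟩, [⟨nat_lit 0, nat_lit 100, nat_lit 99, nat_lit 37, nat_lit 690233702⟩]⟩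
noncomputable def p010_l95 : Lf2 := ⟨nat_lit 3, nat_lit 5, [nat_lit 4, nat_lit 5, nat_lit 5, nat_lit 20], false, nat_lit 0, nat_lit 0, nat_lit 0, nat_lit 0, zbN0,
 nat_lit 0, nat_lit 0, nat_lit 0, nat_lit 0, nat_lit 0, nat_lit 0, nat_lit 0, nat_lit 0, nat_lit 0, nat_lit 0, nat_lit 0, nat_lit 0, nat_lit 0, nat_lit 0, nat_lit 0, nat_lit 0, nat_lit 0, nat_lit 0, [],
 C1.Rw.none, ⟨p010_k48, nat_lit 0, nat_lit 0, nat_lit 330, nat_lit 0, nat_lit 144948, [], [], [], nat_lit 1271250, nat_lit 1271250, nat_lit 65850, nat_lit 88400, nat_lit 0, nat_lit 0, [nat_lit 1412500, nat_lit 1271250], [nat_lit 51, nat_lit 40, nat_lit 20, nat_lit 80, nat_lit 1, nat_lit 289, nat_lit 75, nat_lit 9]⟩,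
 zbF0, []⟩
noncomputable def p010_l96 : Lf2 := ⟨nat_lit 0, nat_lit 5, [nat_lit 4, nat_lit 5, nat_lit 5, nat_lit 20], true, nat_lit 0, nat_lit 0, nat_lit 0, nat_lit 0, ⟨nat_lit 0, nat_lit 0, nat_lit 1000, nat_lit 5, nat_lit 62, nat_lit 0, nat_lit 0, nat_lit 0, nat_lit 0, nat_lit 215, nat_lit 35267, nat_lit 261, nat_lit 65432657, nat_lit 0, nat_lit 0, nat_lit 554791, false, false⟩,
 nat_lit 0, nat_lit 5101, nat_lit 0, nat_lit 0, nat_lit 2700, nat_lit 0, nat_lit 0, nat_lit 0, nat_lit 0, nat_lit 0, nat_lit 0, nat_lit 0, nat_lit 0, nat_lit 0, nat_lit 108, nat_lit 855400, nat_lit 0, nat_lit 0, [(nat_lit 6, [(nat_lit 5, nat_lit 241), (nat_lit 6, nat_lit 759)])],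
 ⟨p010_k38, nat_lit 0, nat_lit 0, nat_lit 0, nat_lit 0, nat_lit 143597, [nat_lit 1462468534, nat_lit 2637933067, nat_lit 2322209001, nat_lit 190283900], [], [nat_lit 14083049702, nat_lit 14136104808, nat_lit 13966676937, nat_lit 14021424551], nat_lit 1271250, nat_lit 1271250, nat_lit 65850, nat_lit 88400, nat_lit 0, nat_lit 0, [nat_lit 490000, nat_lit 1100000, nat_lit 1442500, nat_lit 1271250], [nat_lit 128, nat_lit 40, nat_lit 20, nat_lit 40]⟩, C1.Rw.none,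
 ⟨nat_lit 6304, nat_lit 6325, ⟨.ofNat (nat_lit 149682), .ofNat (nat_lit 157908), .ofNat (nat_lit 150750), .ofNat (nat_lit 158977), .ofNat (nat_lit 150571), .ofNat (nat_lit 158779), .ofNat (nat_lit 151640), .ofNat (nat_lit 159847)⟩, ⟨.ofNat (nat_lit 0), .ofNat (nat_lit 0), .ofNat (nat_lit 0), .ofNat (nat_lit 0), .ofNat (nat_lit 0), .ofNat (nat_lit 0), .ofNat (nat_lit 0), .ofNat (nat_lit 0)⟩⟩, [⟨nat_lit 0, nat_lit 100, nat_lit 99, nat_lit 37, nat_lit 256009295⟩]⟩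
noncomputable def p010_l97 : Lf2 := ⟨nat_lit 0, nat_lit 5, [nat_lit 4, nat_lit 5, nat_lit 5, nat_lit 20], true, nat_lit 0, nat_lit 0, nat_lit 0, nat_lit 0, ⟨nat_lit 0, nat_lit 0, nat_lit 1000, nat_lit 5, nat_lit 62, nat_lit 0, nat_lit 0, nat_lit 0, nat_lit 0, nat_lit 215, nat_lit 35267, nat_lit 261, nat_lit 65432657, nat_lit 0, nat_lit 0, nat_lit 554791, false, false⟩,
 nat_lit 0, nat_lit 100000, nat_lit 0, nat_lit 0, nat_lit 52941, nat_lit 0, nat_lit 0, nat_lit 2609, nat_lit 0, nat_lit 0, nat_lit 0, nat_lit 0, nat_lit 0, nat_lit 0, nat_lit 0, nat_lit 359680, nat_lit 0, nat_lit 0, [(nat_lit 6, [(nat_lit 3, nat_lit 192), (nat_lit 5, nat_lit 808)])],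
 ⟨p010_k39, nat_lit 0, nat_lit 0, nat_lit 330, nat_lit 0, nat_lit 143597, [nat_lit 49686528000, nat_lit 52266144000, nat_lit 71273964800], [], [nat_lit 124700294680, nat_lit 125020235878, nat_lit 121548177716, nat_lit 121868142464], nat_lit 1271250, nat_lit 1271250, nat_lit 65850, nat_lit 88400, nat_lit 0, nat_lit 0, [nat_lit 1100000, nat_lit 1442500, nat_lit 1271250], [nat_lit 11, nat_lit 40, nat_lit 20, nat_lit 80, nat_lit 1, nat_lit 289, nat_lit 75, nat_lit 9]⟩, C1.Rw.none,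
 ⟨nat_lit 6304, nat_lit 6325, ⟨.ofNat (nat_lit 149682), .ofNat (nat_lit 157908), .ofNat (nat_lit 150750), .ofNat (nat_lit 158977), .ofNat (nat_lit 150571), .ofNat (nat_lit 158779), .ofNat (nat_lit 151640), .ofNat (nat_lit 159847)⟩, ⟨.ofNat (nat_lit 0), .ofNat (nat_lit 0), .ofNat (nat_lit 0), .ofNat (nat_lit 0), .ofNat (nat_lit 0), .ofNat (nat_lit 0), .ofNat (nat_lit 0), .ofNat (nat_lit 0)⟩⟩, [⟨nat_lit 0, nat_lit 100, nat_lit 99, nat_lit 37, nat_lit 10101010101⟩, ⟨nat_lit 0, nat_lit 100, nat_lit 99, nat_lit 38, nat_lit 10101010101⟩, ⟨nat_lit 0, nat_lit 100, nat_lit 99, nat_lit 37, nat_lit 10101010101⟩]⟩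
noncomputable def p010_l98 : Lf2 := ⟨nat_lit 0, nat_lit 5, [nat_lit 4, nat_lit 5, nat_lit 5, nat_lit 20], false, nat_lit 0, nat_lit 0, nat_lit 0, nat_lit 0, ⟨nat_lit 0, nat_lit 0, nat_lit 1000, nat_lit 5, nat_lit 62, nat_lit 0, nat_lit 0, nat_lit 0, nat_lit 0, nat_lit 215, nat_lit 35267, nat_lit 261, nat_lit 65432657, nat_lit 0, nat_lit 0, nat_lit 554791, false, false⟩,
 nat_lit 7872, nat_lit 0, nat_lit 0, nat_lit 0, nat_lit 4167, nat_lit 4045, nat_lit 0, nat_lit 0, nat_lit 0, nat_lit 1369, nat_lit 196, nat_lit 0, nat_lit 0, nat_lit 0, nat_lit 100, nat_lit 635200, nat_lit 0, nat_lit 0, [(nat_lit 6, [(nat_lit 5, nat_lit 608), (nat_lit 6, nat_lit 392)])],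
 ⟨p010_k39, nat_lit 0, nat_lit 0, nat_lit 330, nat_lit 0, nat_lit 143597, [nat_lit 2844910934, nat_lit 2088780801, nat_lit 20204799], [], [nat_lit 14713307840, nat_lit 14781004157, nat_lit 14511828370, nat_lit 14512597421], nat_lit 1271250, nat_lit 1271250, nat_lit 65850, nat_lit 88400, nat_lit 0, nat_lit 0, [nat_lit 1100000, nat_lit 1442500, nat_lit 1271250], [nat_lit 11, nat_lit 40, nat_lit 20, nat_lit 80, nat_lit 1, nat_lit 289, nat_lit 75, nat_lit 9]⟩, ⟨p010_k49, nat_lit 0, nat_lit 0, nat_lit 0, nat_lit 0, nat_lit 148258, [nat_lit 3920000000, nat_lit 4704000000, nat_lit 5488000000], [], [nat_lit 4604003879, nat_lit 4625460501, nat_lit 4316487868, nat_lit 4328864273], nat_lit 1271250, nat_lit 1271250, nat_lit 65850, nat_lit 88400, nat_lit 0, nat_lit 0, [nat_lit 1412500, nat_lit 1271250, nat_lit 1271250], [nat_lit 25, nat_lit 40, nat_lit 20, nat_lit 80]⟩,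
 ⟨nat_lit 6304, nat_lit 6325, ⟨.ofNat (nat_lit 149682), .ofNat (nat_lit 157908), .ofNat (nat_lit 150750), .ofNat (nat_lit 158977), .ofNat (nat_lit 150571), .ofNat (nat_lit 158779), .ofNat (nat_lit 151640), .ofNat (nat_lit 159847)⟩, ⟨.ofNat (nat_lit 0), .ofNat (nat_lit 0), .ofNat (nat_lit 0), .ofNat (nat_lit 0), .ofNat (nat_lit 0), .ofNat (nat_lit 0), .ofNat (nat_lit 0), .ofNat (nat_lit 0)⟩⟩, [⟨nat_lit 0, nat_lit 100, nat_lit 99, nat_lit 37, nat_lit 827347017⟩]⟩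
noncomputable def p010_l99 : Lf2 := ⟨nat_lit 3, nat_lit 5, [nat_lit 4, nat_lit 5, nat_lit 5, nat_lit 20], false, nat_lit 0, nat_lit 0, nat_lit 0, nat_lit 0, zbN0,
 nat_lit 0, nat_lit 0, nat_lit 0, nat_lit 0, nat_lit 0, nat_lit 0, nat_lit 0, nat_lit 0, nat_lit 0, nat_lit 0, nat_lit 0, nat_lit 0, nat_lit 0, nat_lit 0, nat_lit 0, nat_lit 0, nat_lit 0, nat_lit 0, [],
 C1.Rw.none, ⟨p010_k50, nat_lit 0, nat_lit 0, nat_lit 331, nat_lit 0, nat_lit 148258, [], [], [], nat_lit 1271250, nat_lit 1271250, nat_lit 65850, nat_lit 88400, nat_lit 0, nat_lit 0, [nat_lit 1412500, nat_lit 1271250], [nat_lit 51, nat_lit 40, nat_lit 20, nat_lit 80, nat_lit 1, nat_lit 289, nat_lit 75, nat_lit 9]⟩,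
 zbF0, []⟩
noncomputable def p010_l100 : Lf2 := ⟨nat_lit 0, nat_lit 5, [nat_lit 4, nat_lit 5, nat_lit 5, nat_lit 20], true, nat_lit 0, nat_lit 0, nat_lit 0, nat_lit 0, ⟨nat_lit 0, nat_lit 0, nat_lit 1000, nat_lit 5, nat_lit 62, nat_lit 0, nat_lit 0, nat_lit 0, nat_lit 0, nat_lit 215, nat_lit 35267, nat_lit 261, nat_lit 65436401, nat_lit 0, nat_lit 0, nat_lit 553747, false, false⟩,
 nat_lit 0, nat_lit 7679, nat_lit 0, nat_lit 0, nat_lit 4085, nat_lit 0, nat_lit 0, nat_lit 0, nat_lit 0, nat_lit 0, nat_lit 0, nat_lit 0, nat_lit 0, nat_lit 0, nat_lit 104, nat_lit 669400, nat_lit 0, nat_lit 0, [(nat_lit 6, [(nat_lit 5, nat_lit 551), (nat_lit 6, nat_lit 449)])],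
 ⟨p010_k51, nat_lit 0, nat_lit 0, nat_lit 331, nat_lit 0, nat_lit 143270, [nat_lit 2883800534, nat_lit 2170057601, nat_lit 23585599], [], [nat_lit 14614364535, nat_lit 14671930811, nat_lit 14510433080, nat_lit 14500916260], nat_lit 1271250, nat_lit 1271250, nat_lit 65850, nat_lit 88400, nat_lit 0, nat_lit 0, [nat_lit 1100000, nat_lit 1442500, nat_lit 1271250], [nat_lit 11, nat_lit 40, nat_lit 20, nat_lit 80, nat_lit 1, nat_lit 289, nat_lit 75, nat_lit 9]⟩, C1.Rw.none,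
 ⟨nat_lit 6284, nat_lit 6305, ⟨.ofNat (nat_lit 149503), .ofNat (nat_lit 157710), .ofNat (nat_lit 150571), .ofNat (nat_lit 158779), .ofNat (nat_lit 150391), .ofNat (nat_lit 158579), .ofNat (nat_lit 151459), .ofNat (nat_lit 159647)⟩, ⟨.ofNat (nat_lit 0), .ofNat (nat_lit 0), .ofNat (nat_lit 0), .ofNat (nat_lit 0), .ofNat (nat_lit 0), .ofNat (nat_lit 0), .ofNat (nat_lit 0), .ofNat (nat_lit 0)⟩⟩, [⟨nat_lit 0, nat_lit 100, nat_lit 99, nat_lit 38, nat_lit 314384132⟩]⟩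
noncomputable def p010_l101 : Lf2 := ⟨nat_lit 0, nat_lit 5, [nat_lit 4, nat_lit 5, nat_lit 5, nat_lit 20], true, nat_lit 0, nat_lit 0, nat_lit 0, nat_lit 0, ⟨nat_lit 0, nat_lit 0, nat_lit 1000, nat_lit 5, nat_lit 62, nat_lit 0, nat_lit 0, nat_lit 0, nat_lit 0, nat_lit 215, nat_lit 36817, nat_lit 262, nat_lit 65415226, nat_lit 0, nat_lit 0, nat_lit 559638, false, false⟩,
 nat_lit 0, nat_lit 8459, nat_lit 0, nat_lit 0, nat_lit 4500, nat_lit 0, nat_lit 0, nat_lit 0, nat_lit 0, nat_lit 0, nat_lit 0, nat_lit 0, nat_lit 0, nat_lit 0, nat_lit 70, nat_lit 454000, nat_lit 0, nat_lit 0, [(nat_lit 6, [(nat_lit 5, nat_lit 910), (nat_lit 6, nat_lit 90)])],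
 ⟨p010_k52, nat_lit 0, nat_lit 0, nat_lit 0, nat_lit 0, nat_lit 147236, [nat_lit 2497952001, nat_lit 1594990001, nat_lit 130789000], [], [nat_lit 14515013320, nat_lit 14589671240, nat_lit 14233750292, nat_lit 14296824620], nat_lit 1271250, nat_lit 1271250, nat_lit 65850, nat_lit 88400, nat_lit 0, nat_lit 0, [nat_lit 1100000, nat_lit 1442500, nat_lit 1271250], [nat_lit 123, nat_lit 40, nat_lit 20, nat_lit 40]⟩, C1.Rw.none,
 ⟨nat_lit 6284, nat_lit 6305, ⟨.ofNat (nat_lit 150571), .ofNat (nat_lit 158779), .ofNat (nat_lit 151640), .ofNat (nat_lit 159847), .ofNat (nat_lit 151459), .ofNat (nat_lit 159647), .ofNat (nat_lit 152527), .ofNat (nat_lit 160716)⟩, ⟨.ofNat (nat_lit 0), .ofNat (nat_lit 0), .ofNat (nat_lit 0), .ofNat (nat_lit 0), .ofNat (nat_lit 0), .ofNat (nat_lit 0), .ofNat (nat_lit 0), .ofNat (nat_lit 0)⟩⟩, [⟨nat_lit 0, nat_lit 100, nat_lit 99, nat_lit 38, nat_lit 478151766⟩]⟩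
noncomputable def p010_l102 : Lf2 := ⟨nat_lit 0, nat_lit 5, [nat_lit 4, nat_lit 5, nat_lit 5, nat_lit 20], true, nat_lit 0, nat_lit 0, nat_lit 0, nat_lit 0, ⟨nat_lit 0, nat_lit 0, nat_lit 1000, nat_lit 5, nat_lit 62, nat_lit 0, nat_lit 0, nat_lit 0, nat_lit 0, nat_lit 215, nat_lit 36817, nat_lit 262, nat_lit 65415226, nat_lit 0, nat_lit 0, nat_lit 559638, false, false⟩,
 nat_lit 0, nat_lit 100000, nat_lit 0, nat_lit 0, nat_lit 53200, nat_lit 0, nat_lit 0, nat_lit 2339, nat_lit 0, nat_lit 0, nat_lit 0, nat_lit 0, nat_lit 0, nat_lit 0, nat_lit 0, nat_lit 1000000, nat_lit 0, nat_lit 0, [(nat_lit 6, [(nat_lit 6, nat_lit 1000)])],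
 ⟨p010_k53, nat_lit 0, nat_lit 0, nat_lit 344, nat_lit 0, nat_lit 147236, [nat_lit 38958000000, nat_lit 54357466667, nat_lit 61383200000], [], [nat_lit 125686612582, nat_lit 124906791403, nat_lit 125257260318, nat_lit 123939390982], nat_lit 1271250, nat_lit 1271250, nat_lit 65850, nat_lit 88400, nat_lit 0, nat_lit 0, [nat_lit 1100000, nat_lit 1785000, nat_lit 1271250], [nat_lit 29, nat_lit 40, nat_lit 20, nat_lit 80, nat_lit 17, nat_lit 289, nat_lit 75, nat_lit 9]⟩, C1.Rw.none,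
 ⟨nat_lit 6284, nat_lit 6305, ⟨.ofNat (nat_lit 150571), .ofNat (nat_lit 158779), .ofNat (nat_lit 151640), .ofNat (nat_lit 159847), .ofNat (nat_lit 151459), .ofNat (nat_lit 159647), .ofNat (nat_lit 152527), .ofNat (nat_lit 160716)⟩, ⟨.ofNat (nat_lit 0), .ofNat (nat_lit 0), .ofNat (nat_lit 0), .ofNat (nat_lit 0), .ofNat (nat_lit 0), .ofNat (nat_lit 0), .ofNat (nat_lit 0), .ofNat (nat_lit 0)⟩⟩, [⟨nat_lit 0, nat_lit 100, nat_lit 99, nat_lit 38, nat_lit 651003755⟩]⟩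
noncomputable def p010_l103 : Lf2 := ⟨nat_lit 3, nat_lit 5, [nat_lit 4, nat_lit 5, nat_lit 5, nat_lit 20], false, nat_lit 0, nat_lit 0, nat_lit 0, nat_lit 0, zbN0,
 nat_lit 0, nat_lit 0, nat_lit 0, nat_lit 0, nat_lit 0, nat_lit 0, nat_lit 0, nat_lit 0, nat_lit 0, nat_lit 0, nat_lit 0, nat_lit 0, nat_lit 0, nat_lit 0, nat_lit 0, nat_lit 0, nat_lit 0, nat_lit 0, [],
 C1.Rw.none, ⟨p010_k50, nat_lit 0, nat_lit 0, nat_lit 333, nat_lit 0, nat_lit 152816, [], [], [], nat_lit 1271250, nat_lit 1271250, nat_lit 65850, nat_lit 88400, nat_lit 0, nat_lit 0, [nat_lit 1412500, nat_lit 1271250], [nat_lit 51, nat_lit 40, nat_lit 20, nat_lit 80, nat_lit 1, nat_lit 289, nat_lit 75, nat_lit 9]⟩,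
 zbF0, []⟩
noncomputable def p010_l104 : Lf2 := ⟨nat_lit 0, nat_lit 5, [nat_lit 4, nat_lit 5, nat_lit 5, nat_lit 20], true, nat_lit 0, nat_lit 0, nat_lit 0, nat_lit 0, ⟨nat_lit 0, nat_lit 0, nat_lit 1000, nat_lit 5, nat_lit 65, nat_lit 0, nat_lit 0, nat_lit 0, nat_lit 0, nat_lit 215, nat_lit 40017, nat_lit 264, nat_lit 65288313, nat_lit 0, nat_lit 0, nat_lit 594500, false, false⟩,
 nat_lit 0, nat_lit 7851, nat_lit 0, nat_lit 0, nat_lit 4156, nat_lit 0, nat_lit 0, nat_lit 0, nat_lit 0, nat_lit 0, nat_lit 0, nat_lit 0, nat_lit 0, nat_lit 0, nat_lit 100, nat_lit 638800, nat_lit 0, nat_lit 0, [(nat_lit 6, [(nat_lit 5, nat_lit 602), (nat_lit 6, nat_lit 398)])],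
 ⟨p010_k39, nat_lit 0, nat_lit 0, nat_lit 324, nat_lit 0, nat_lit 139636, [nat_lit 2842267734, nat_lit 2088915201, nat_lit 8771199], [], [nat_lit 14526267461, nat_lit 14493861209, nat_lit 14569574904, nat_lit 14463745689], nat_lit 1271250, nat_lit 1271250, nat_lit 88400, nat_lit 111251, nat_lit 0, nat_lit 0, [nat_lit 1100000, nat_lit 1442500, nat_lit 1271250], [nat_lit 11, nat_lit 40, nat_lit 20, nat_lit 80, nat_lit 1, nat_lit 289, nat_lit 75, nat_lit 9]⟩, C1.Rw.none,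
 ⟨nat_lit 6304, nat_lit 6325, ⟨.ofNat (nat_lit 156840), .ofNat (nat_lit 165066), .ofNat (nat_lit 157908), .ofNat (nat_lit 166135), .ofNat (nat_lit 157710), .ofNat (nat_lit 165918), .ofNat (nat_lit 158779), .ofNat (nat_lit 166986)⟩, ⟨.ofNat (nat_lit 0), .ofNat (nat_lit 0), .ofNat (nat_lit 0), .ofNat (nat_lit 0), .ofNat (nat_lit 0), .ofNat (nat_lit 0), .ofNat (nat_lit 0), .ofNat (nat_lit 0)⟩⟩, []⟩
noncomputable def p010_l105 : Lf2 := ⟨nat_lit 0, nat_lit 5, [nat_lit 4, nat_lit 5, nat_lit 5, nat_lit 20], false, nat_lit 0, nat_lit 0, nat_lit 0, nat_lit 0, ⟨nat_lit 140, nat_lit 0, nat_lit 860, nat_lit 5, nat_lit 65, nat_lit 0, nat_lit 0, nat_lit 0, nat_lit 0, nat_lit 215, nat_lit 40017, nat_lit 264, nat_lit 65266237, nat_lit 0, nat_lit 0, nat_lit 600489, false, false⟩,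
 nat_lit 2793, nat_lit 6118, nat_lit 0, nat_lit 0, nat_lit 4717, nat_lit 1435, nat_lit 0, nat_lit 0, nat_lit 0, nat_lit 464, nat_lit 0, nat_lit 0, nat_lit 0, nat_lit 0, nat_lit 77, nat_lit 860000, nat_lit 0, nat_lit 0, [(nat_lit 6, [(nat_lit 6, nat_lit 860)])],
 ⟨p010_k39, nat_lit 0, nat_lit 0, nat_lit 325, nat_lit 0, nat_lit 143597, [nat_lit 2728597334, nat_lit 2503064001, nat_lit 125015999], [], [nat_lit 15671406610, nat_lit 15675864885, nat_lit 15708221712, nat_lit 15588107081], nat_lit 1271250, nat_lit 1271250, nat_lit 88400, nat_lit 111251, nat_lit 0, nat_lit 0, [nat_lit 1100000, nat_lit 1442500, nat_lit 1271250], [nat_lit 11, nat_lit 40, nat_lit 20, nat_lit 80, nat_lit 1, nat_lit 289, nat_lit 75, nat_lit 9]⟩, ⟨p010_k54, nat_lit 0, nat_lit 0, nat_lit 0, nat_lit 0, nat_lit 148258, [nat_lit 762930000, nat_lit 992530000, nat_lit 1243970000], [], [nat_lit 2828173094, nat_lit 2838013464,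 nat_lit 2748268771, nat_lit 2758114795], nat_lit 1271250, nat_lit 1271250, nat_lit 88400, nat_lit 111251, nat_lit 0, nat_lit 0, [nat_lit 1271250, nat_lit 1271250, nat_lit 1271250], [nat_lit 96, nat_lit 40, nat_lit 20, nat_lit 40]⟩,
 ⟨nat_lit 6304, nat_lit 6325, ⟨.ofNat (nat_lit 157908), .ofNat (nat_lit 166135), .ofNat (nat_lit 158977), .ofNat (nat_lit 167203), .ofNat (nat_lit 158779), .ofNat (nat_lit 166986), .ofNat (nat_lit 159847), .ofNat (nat_lit 168054)⟩, ⟨.ofNat (nat_lit 0), .ofNat (nat_lit 0), .ofNat (nat_lit 0), .ofNat (nat_lit 0), .ofNat (nat_lit 0), .ofNat (nat_lit 0), .ofNat (nat_lit 0), .ofNat (nat_lit 0)⟩⟩, []⟩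
noncomputable def p010_l106 : Lf2 := ⟨nat_lit 3, nat_lit 5, [nat_lit 4, nat_lit 5, nat_lit 5, nat_lit 20], false, nat_lit 0, nat_lit 0, nat_lit 0, nat_lit 0, zbN0,
 nat_lit 0, nat_lit 0, nat_lit 0, nat_lit 0, nat_lit 0, nat_lit 0, nat_lit 0, nat_lit 0, nat_lit 0, nat_lit 0, nat_lit 0, nat_lit 0, nat_lit 0, nat_lit 0, nat_lit 0, nat_lit 0, nat_lit 0, nat_lit 0, [],
 C1.Rw.none, ⟨p010_k50, nat_lit 0, nat_lit 0, nat_lit 326, nat_lit 0, nat_lit 148258, [], [], [], nat_lit 1271250, nat_lit 1271250, nat_lit 88400, nat_lit 111251, nat_lit 0, nat_lit 0, [nat_lit 1412500, nat_lit 1271250], [nat_lit 51, nat_lit 40, nat_lit 20, nat_lit 80, nat_lit 1, nat_lit 289, nat_lit 75, nat_lit 9]⟩,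
 zbF0, []⟩
noncomputable def p010_l107 : Lf2 := ⟨nat_lit 0, nat_lit 5, [nat_lit 4, nat_lit 5, nat_lit 5, nat_lit 20], true, nat_lit 0, nat_lit 0, nat_lit 0, nat_lit 0, ⟨nat_lit 0, nat_lit 0, nat_lit 1000, nat_lit 5, nat_lit 65, nat_lit 0, nat_lit 0, nat_lit 0, nat_lit 0, nat_lit 215, nat_lit 40017, nat_lit 264, nat_lit 65259477, nat_lit 0, nat_lit 0, nat_lit 602319, false, false⟩,
 nat_lit 0, nat_lit 7751, nat_lit 0, nat_lit 0, nat_lit 4123, nat_lit 0, nat_lit 0, nat_lit 0, nat_lit 0, nat_lit 0, nat_lit 0, nat_lit 0, nat_lit 0, nat_lit 0, nat_lit 105, nat_lit 674800, nat_lit 0, nat_lit 0, [(nat_lit 6, [(nat_lit 5, nat_lit 542), (nat_lit 6, nat_lit 458)])],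
 ⟨p010_k51, nat_lit 0, nat_lit 0, nat_lit 327, nat_lit 0, nat_lit 147236, [nat_lit 2895835734, nat_lit 2190259201, nat_lit 34435199], [], [nat_lit 14447819436, nat_lit 14422720537, nat_lit 14491664384, nat_lit 14386675487], nat_lit 1271250, nat_lit 1271250, nat_lit 88400, nat_lit 111251, nat_lit 0, nat_lit 0, [nat_lit 1100000, nat_lit 1442500, nat_lit 1271250], [nat_lit 11, nat_lit 40, nat_lit 20, nat_lit 80, nat_lit 1, nat_lit 289, nat_lit 75, nat_lit 9]⟩, C1.Rw.none,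
 ⟨nat_lit 6284, nat_lit 6305, ⟨.ofNat (nat_lit 157710), .ofNat (nat_lit 165918), .ofNat (nat_lit 159847), .ofNat (nat_lit 168054), .ofNat (nat_lit 158579), .ofNat (nat_lit 166768), .ofNat (nat_lit 160716), .ofNat (nat_lit 168904)⟩, ⟨.ofNat (nat_lit 0), .ofNat (nat_lit 0), .ofNat (nat_lit 0), .ofNat (nat_lit 0), .ofNat (nat_lit 0), .ofNat (nat_lit 0), .ofNat (nat_lit 0), .ofNat (nat_lit 0)⟩⟩, []⟩
noncomputable def p010_l108 : Lf2 := ⟨nat_lit 0, nat_lit 5, [nat_lit 4, nat_lit 5, nat_lit 5, nat_lit 20], true, nat_lit 0, nat_lit 0, nat_lit 0, nat_lit 0, ⟨nat_lit 0, nat_lit 0, nat_lit 1000, nat_lit 5, nat_lit 62, nat_lit 0, nat_lit 0, nat_lit 0, nat_lit 0, nat_lit 215, nat_lit 35267, nat_lit 261, nat_lit 65440166, nat_lit 0, nat_lit 0, nat_lit 552698, false, false⟩,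
 nat_lit 0, nat_lit 7681, nat_lit 0, nat_lit 0, nat_lit 4106, nat_lit 0, nat_lit 0, nat_lit 0, nat_lit 0, nat_lit 0, nat_lit 0, nat_lit 0, nat_lit 0, nat_lit 0, nat_lit 110, nat_lit 711400, nat_lit 0, nat_lit 0, [(nat_lit 6, [(nat_lit 5, nat_lit 481), (nat_lit 6, nat_lit 519)])],
 ⟨p010_k55, nat_lit 0, nat_lit 0, nat_lit 334, nat_lit 0, nat_lit 150836, [nat_lit 2948963201, nat_lit 2291625601, nat_lit 58193599], [], [nat_lit 14555991979, nat_lit 14623225281, nat_lit 14345386757, nat_lit 14359347279], nat_lit 1271250, nat_lit 1271250, nat_lit 65850, nat_lit 88400, nat_lit 0, nat_lit 0, [nat_lit 1100000, nat_lit 1442500, nat_lit 1271250], [nat_lit 11, nat_lit 40, nat_lit 20, nat_lit 80, nat_lit 1, nat_lit 289, nat_lit 75, nat_lit 9]⟩, C1.Rw.none,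
 ⟨nat_lit 6264, nat_lit 6285, ⟨.ofNat (nat_lit 147186), .ofNat (nat_lit 155375), .ofNat (nat_lit 152527), .ofNat (nat_lit 160716), .ofNat (nat_lit 148073), .ofNat (nat_lit 156242), .ofNat (nat_lit 153413), .ofNat (nat_lit 161582)⟩, ⟨.ofNat (nat_lit 0), .ofNat (nat_lit 0), .ofNat (nat_lit 0), .ofNat (nat_lit 0), .ofNat (nat_lit 0), .ofNat (nat_lit 0), .ofNat (nat_lit 0), .ofNat (nat_lit 0)⟩⟩, [⟨nat_lit 0, nat_lit 100, nat_lit 99, nat_lit 39, nat_lit 441208156⟩]⟩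
noncomputable def p010_l109 : Lf2 := ⟨nat_lit 0, nat_lit 5, [nat_lit 4, nat_lit 5, nat_lit 5, nat_lit 20], true, nat_lit 0, nat_lit 0, nat_lit 0, nat_lit 0, ⟨nat_lit 0, nat_lit 0, nat_lit 1000, nat_lit 5, nat_lit 65, nat_lit 0, nat_lit 0, nat_lit 0, nat_lit 0, nat_lit 215, nat_lit 40017, nat_lit 264, nat_lit 65274887, nat_lit 0, nat_lit 0, nat_lit 598145, false, false⟩,
 nat_lit 0, nat_lit 7661, nat_lit 0, nat_lit 0, nat_lit 4095, nat_lit 0, nat_lit 0, nat_lit 0, nat_lit 0, nat_lit 0, nat_lit 0, nat_lit 0, nat_lit 0, nat_lit 0, nat_lit 110, nat_lit 714400, nat_lit 0, nat_lit 0, [(nat_lit 6, [(nat_lit 5, nat_lit 476), (nat_lit 6, nat_lit 524)])],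
 ⟨p010_k55, nat_lit 0, nat_lit 0, nat_lit 329, nat_lit 0, nat_lit 150836, [nat_lit 2946760534, nat_lit 2291737601, nat_lit 48665599], [], [nat_lit 14360782624, nat_lit 14342874049, nat_lit 14405105098, nat_lit 14300829199], nat_lit 1271250, nat_lit 1271250, nat_lit 88400, nat_lit 111251, nat_lit 0, nat_lit 0, [nat_lit 1100000, nat_lit 1442500, nat_lit 1271250], [nat_lit 11, nat_lit 40, nat_lit 20, nat_lit 80, nat_lit 1, nat_lit 289, nat_lit 75, nat_lit 9]⟩, C1.Rw.none,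
 ⟨nat_lit 6264, nat_lit 6285, ⟨.ofNat (nat_lit 155375), .ofNat (nat_lit 163563), .ofNat (nat_lit 160716), .ofNat (nat_lit 168904), .ofNat (nat_lit 156242), .ofNat (nat_lit 164412), .ofNat (nat_lit 161582), .ofNat (nat_lit 169752)⟩, ⟨.ofNat (nat_lit 0), .ofNat (nat_lit 0), .ofNat (nat_lit 0), .ofNat (nat_lit 0), .ofNat (nat_lit 0), .ofNat (nat_lit 0), .ofNat (nat_lit 0), .ofNat (nat_lit 0)⟩⟩, []⟩
noncomputable def p010_l110 : Lf2 := ⟨nat_lit 0, nat_lit 5, [nat_lit 4, nat_lit 5, nat_lit 5, nat_lit 20], true, nat_lit 0, nat_lit 0, nat_lit 0, nat_lit 0, ⟨nat_lit 0, nat_lit 0, nat_lit 1000, nat_lit 5, nat_lit 64, nat_lit 0, nat_lit 0, nat_lit 0, nat_lit 0, nat_lit 215, nat_lit 38400, nat_lit 263, nat_lit 65332153, nat_lit 0, nat_lit 0, nat_lit 582542, false, false⟩,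
 nat_lit 0, nat_lit 7445, nat_lit 0, nat_lit 0, nat_lit 3999, nat_lit 0, nat_lit 0, nat_lit 0, nat_lit 0, nat_lit 0, nat_lit 0, nat_lit 0, nat_lit 0, nat_lit 0, nat_lit 123, nat_lit 809800, nat_lit 0, nat_lit 0, [(nat_lit 6, [(nat_lit 5, nat_lit 317), (nat_lit 6, nat_lit 683)])],
 ⟨p010_k56, nat_lit 0, nat_lit 0, nat_lit 337, nat_lit 0, nat_lit 158743, [nat_lit 3084715734, nat_lit 2555299201, nat_lit 109675199], [], [nat_lit 14307952718, nat_lit 14354982337, nat_lit 14393088201, nat_lit 14189425529], nat_lit 1271250, nat_lit 1271250, nat_lit 65850, nat_lit 111251, nat_lit 0, nat_lit 0, [nat_lit 1100000, nat_lit 1442500, nat_lit 1271250], [nat_lit 11, nat_lit 40, nat_lit 20, nat_lit 80, nat_lit 1, nat_lit 289, nat_lit 75, nat_lit 9]⟩, C1.Rw.none,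
 ⟨nat_lit 6224, nat_lit 6265, ⟨.ofNat (nat_lit 148073), .ofNat (nat_lit 164412), .ofNat (nat_lit 153413), .ofNat (nat_lit 169752), .ofNat (nat_lit 149840), .ofNat (nat_lit 166104), .ofNat (nat_lit 155180), .ofNat (nat_lit 171443)⟩, ⟨.ofNat (nat_lit 0), .ofNat (nat_lit 0), .ofNat (nat_lit 0), .ofNat (nat_lit 0), .ofNat (nat_lit 0), .ofNat (nat_lit 0), .ofNat (nat_lit 0), .ofNat (nat_lit 0)⟩⟩, [⟨nat_lit 0, nat_lit 100, nat_lit 99, nat_lit 40, nat_lit 54584211⟩]⟩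
noncomputable def p010_l111 : Lf2 := ⟨nat_lit 0, nat_lit 5, [nat_lit 4, nat_lit 5, nat_lit 5, nat_lit 20], true, nat_lit 0, nat_lit 0, nat_lit 0, nat_lit 0, ⟨nat_lit 0, nat_lit 0, nat_lit 1000, nat_lit 5, nat_lit 63, nat_lit 0, nat_lit 0, nat_lit 0, nat_lit 0, nat_lit 215, nat_lit 38400, nat_lit 263, nat_lit 65358592, nat_lit 0, nat_lit 0, nat_lit 575288, false, false⟩,
 nat_lit 0, nat_lit 7807, nat_lit 0, nat_lit 0, nat_lit 4133, nat_lit 0, nat_lit 0, nat_lit 0, nat_lit 0, nat_lit 0, nat_lit 0, nat_lit 0, nat_lit 0, nat_lit 0, nat_lit 118, nat_lit 778000, nat_lit 0, nat_lit 0, [(nat_lit 6, [(nat_lit 5, nat_lit 370), (nat_lit 6, nat_lit 630)])],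
 ⟨p010_k39, nat_lit 0, nat_lit 0, nat_lit 325, nat_lit 0, nat_lit 124229, [nat_lit 3028064001, nat_lit 2454112001, nat_lit 70671999], [], [nat_lit 14432219324, nat_lit 14569224895, nat_lit 14513186427, nat_lit 14119401698], nat_lit 1271250, nat_lit 1271250, nat_lit 65850, nat_lit 111251, nat_lit 0, nat_lit 0, [nat_lit 1100000, nat_lit 1442500, nat_lit 1271250], [nat_lit 11, nat_lit 40, nat_lit 20, nat_lit 80, nat_lit 1, nat_lit 289, nat_lit 75, nat_lit 9]⟩, C1.Rw.none,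
 ⟨nat_lit 6224, nat_lit 6325, ⟨.ofNat (nat_lit 145408), .ofNat (nat_lit 161861), .ofNat (nat_lit 150750), .ofNat (nat_lit 167203), .ofNat (nat_lit 149840), .ofNat (nat_lit 166104), .ofNat (nat_lit 155180), .ofNat (nat_lit 171443)⟩, ⟨.ofNat (nat_lit 0), .ofNat (nat_lit 0), .ofNat (nat_lit 0), .ofNat (nat_lit 0), .ofNat (nat_lit 0), .ofNat (nat_lit 0), .ofNat (nat_lit 0), .ofNat (nat_lit 0)⟩⟩, [⟨nat_lit 0, nat_lit 100, nat_lit 99, nat_lit 40, nat_lit 58363038⟩]⟩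
noncomputable def b_NL_600_550_0_24 : St := ⟨false, nat_lit 1, nat_lit 1, nat_lit 1, nat_lit 20, nat_lit 240, nat_lit 245, nat_lit 230, nat_lit 235, nat_lit 12, nat_lit 20, nat_lit 0, nat_lit 0, nat_lit 0, nat_lit 0, nat_lit 0, nat_lit 0, nat_lit 20, nat_lit 32, nat_lit 0, nat_lit 0, nat_lit 0, nat_lit 0⟩
theorem d_NL_600_550_0_24 (h : EB TB.env) : Dead b_NL_600_550_0_24 := chkB_sound0 h (T :=
(.spl (nat_lit 6) (nat_lit 24)
(.spl (nat_lit 0) (nat_lit 243)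
(.spl (nat_lit 0) (nat_lit 242)
(.spl (nat_lit 1) (nat_lit 233)
(.leaf p010_l91)
(.spl (nat_lit 2) (nat_lit 16)
(.spl (nat_lit 0) (nat_lit 241)
(.spl (nat_lit 1) (nat_lit 234)
(.spl (nat_lit 8) (nat_lit 800)
(.spl (nat_lit 8) (nat_lit 400)
(.spl (nat_lit 7) (nat_lit 600)
(.leaf p010_l92)
(.leaf p010_l93))
(.leaf p010_l94))
(.leaf p010_l95))
(.spl (nat_lit 8) (nat_lit 800)
(.spl (nat_lit 8) (nat_lit 400)
(.spl (nat_lit 7) (nat_lit 600)
(.leaf p010_l96)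
(.leaf p010_l97))
(.leaf p010_l98))
(.leaf p010_l99)))
(.spl (nat_lit 1) (nat_lit 234)
(.leaf p010_l100)
(.spl (nat_lit 8) (nat_lit 800)
(.spl (nat_lit 7) (nat_lit 600)
(.leaf p010_l101)
(.leaf p010_l102))
(.leaf p010_l103))))
(.spl (nat_lit 0) (nat_lit 241)
(.spl (nat_lit 1) (nat_lit 234)
(.leaf p010_l104)
(.spl (nat_lit 8) (nat_lit 800)
(.leaf p010_l105)
(.leaf p010_l106)))
(.leaf p010_l107))))
(.spl (nat_lit 2) (nat_lit 16)
(.leaf p010_l108)
(.leaf p010_l109)))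
(.leaf p010_l110))
(.leaf p010_l111))) (by decide +kernel)
noncomputable def p010_l112 : Lf2 := ⟨nat_lit 0, nat_lit 5, [nat_lit 4, nat_lit 5, nat_lit 5, nat_lit 20], true, nat_lit 0, nat_lit 0, nat_lit 0, nat_lit 0, ⟨nat_lit 0, nat_lit 0, nat_lit 1000, nat_lit 5, nat_lit 62, nat_lit 0, nat_lit 0, nat_lit 0, nat_lit 0, nat_lit 215, nat_lit 36817, nat_lit 262, nat_lit 65411459, nat_lit 0, nat_lit 0, nat_lit 560684, false, false⟩,
 nat_lit 0, nat_lit 8903, nat_lit 0, nat_lit 0, nat_lit 4713, nat_lit 0, nat_lit 0, nat_lit 0, nat_lit 0, nat_lit 0, nat_lit 0, nat_lit 0, nat_lit 0, nat_lit 0, nat_lit 92, nat_lit 690400, nat_lit 0, nat_lit 0, [(nat_lit 6, [(nat_lit 5, nat_lit 516), (nat_lit 6, nat_lit 484)])],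
 ⟨p010_k57, nat_lit 0, nat_lit 0, nat_lit 0, nat_lit 0, nat_lit 147738, [nat_lit 2676381867, nat_lit 2015684001, nat_lit 155956400], [], [nat_lit 14048193605, nat_lit 14102751820, nat_lit 13810545140, nat_lit 13862726098], nat_lit 1271250, nat_lit 1271250, nat_lit 65850, nat_lit 88400, nat_lit 0, nat_lit 0, [nat_lit 1100000, nat_lit 1442500, nat_lit 1271250], [nat_lit 123, nat_lit 40, nat_lit 20, nat_lit 40]⟩, C1.Rw.none,
 ⟨nat_lit 6304, nat_lit 6325, ⟨.ofNat (nat_lit 150750), .ofNat (nat_lit 158977), .ofNat (nat_lit 151819), .ofNat (nat_lit 160045), .ofNat (nat_lit 151640), .ofNat (nat_lit 159847), .ofNat (nat_lit 152708), .ofNat (nat_lit 160915)⟩, ⟨.ofNat (nat_lit 0), .ofNat (nat_lit 0), .ofNat (nat_lit 0), .ofNat (nat_lit 0), .ofNat (nat_lit 0), .ofNat (nat_lit 0), .ofNat (nat_lit 0), .ofNat (nat_lit 0)⟩⟩, [⟨nat_lit 0, nat_lit 100, nat_lit 100, nat_lit 38, nat_lit 405909367⟩]⟩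
noncomputable def p010_l113 : Lf2 := ⟨nat_lit 0, nat_lit 5, [nat_lit 4, nat_lit 5, nat_lit 5, nat_lit 20], true, nat_lit 0, nat_lit 0, nat_lit 0, nat_lit 0, ⟨nat_lit 0, nat_lit 0, nat_lit 1000, nat_lit 5, nat_lit 63, nat_lit 0, nat_lit 0, nat_lit 0, nat_lit 0, nat_lit 215, nat_lit 36817, nat_lit 262, nat_lit 65390128, nat_lit 0, nat_lit 0, nat_lit 566593, false, false⟩,
 nat_lit 0, nat_lit 3528, nat_lit 0, nat_lit 0, nat_lit 1867, nat_lit 0, nat_lit 0, nat_lit 0, nat_lit 166, nat_lit 0, nat_lit 0, nat_lit 0, nat_lit 0, nat_lit 0, nat_lit 69, nat_lit 400000, nat_lit 0, nat_lit 0, [(nat_lit 6, [(nat_lit 5, nat_lit 1000)])],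
 ⟨p010_k39, nat_lit 0, nat_lit 0, nat_lit 0, nat_lit 0, nat_lit 151880, [nat_lit 2521600001, nat_lit 1460000001, nat_lit 7200000], [], [nat_lit 9045298706, nat_lit 9109883168, nat_lit 8981045559, nat_lit 9036375520], nat_lit 1271250, nat_lit 1271250, nat_lit 65850, nat_lit 88400, nat_lit 0, nat_lit 0, [nat_lit 1100000, nat_lit 1442500, nat_lit 1271250], [nat_lit 11, nat_lit 40, nat_lit 20, nat_lit 80]⟩, C1.Rw.none,
 ⟨nat_lit 6304, nat_lit 6325, ⟨.ofNat (nat_lit 151819), .ofNat (nat_lit 160045), .ofNat (nat_lit 152887), .ofNat (nat_lit 161114), .ofNat (nat_lit 152708), .ofNat (nat_lit 160915), .ofNat (nat_lit 153776), .ofNat (nat_lit 161984)⟩, ⟨.ofNat (nat_lit 0), .ofNat (nat_lit 0), .ofNat (nat_lit 0), .ofNat (nat_lit 0), .ofNat (nat_lit 0), .ofNat (nat_lit 0), .ofNat (nat_lit 0), .ofNat (nat_lit 0)⟩⟩, [⟨nat_lit 0, nat_lit 100, nat_lit 100, nat_lit 39, nat_lit 189090437⟩]⟩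
noncomputable def p010_l114 : Lf2 := ⟨nat_lit 0, nat_lit 5, [nat_lit 4, nat_lit 5, nat_lit 5, nat_lit 20], true, nat_lit 0, nat_lit 0, nat_lit 0, nat_lit 0, ⟨nat_lit 0, nat_lit 0, nat_lit 1000, nat_lit 5, nat_lit 63, nat_lit 0, nat_lit 0, nat_lit 0, nat_lit 0, nat_lit 215, nat_lit 36817, nat_lit 262, nat_lit 65390128, nat_lit 0, nat_lit 0, nat_lit 566593, false, false⟩,
 nat_lit 0, nat_lit 3846, nat_lit 0, nat_lit 0, nat_lit 2035, nat_lit 0, nat_lit 0, nat_lit 0, nat_lit 164, nat_lit 0, nat_lit 0, nat_lit 0, nat_lit 0, nat_lit 0, nat_lit 87, nat_lit 538000, nat_lit 0, nat_lit 0, [(nat_lit 6, [(nat_lit 5, nat_lit 770), (nat_lit 6, nat_lit 230)])],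
 ⟨p010_k39, nat_lit 0, nat_lit 0, nat_lit 0, nat_lit 0, nat_lit 151880, [nat_lit 2708277334, nat_lit 1825152001, nat_lit 8880000], [], [nat_lit 8737059389, nat_lit 8794058072, nat_lit 8662416449, nat_lit 8719349456], nat_lit 1271250, nat_lit 1271250, nat_lit 65850, nat_lit 88400, nat_lit 0, nat_lit 0, [nat_lit 1100000, nat_lit 1442500, nat_lit 1271250], [nat_lit 11, nat_lit 40, nat_lit 20, nat_lit 80]⟩, C1.Rw.none,
 ⟨nat_lit 6304, nat_lit 6325, ⟨.ofNat (nat_lit 151819), .ofNat (nat_lit 160045), .ofNat (nat_lit 152887), .ofNat (nat_lit 161114), .ofNat (nat_lit 152708), .ofNat (nat_lit 160915), .ofNat (nat_lit 153776), .ofNat (nat_lit 161984)⟩, ⟨.ofNat (nat_lit 0), .ofNat (nat_lit 0), .ofNat (nat_lit 0), .ofNat (nat_lit 0), .ofNat (nat_lit 0), .ofNat (nat_lit 0), .ofNat (nat_lit 0), .ofNat (nat_lit 0)⟩⟩, [⟨nat_lit 0, nat_lit 100, nat_lit 100, nat_lit 38, nat_lit 246613891⟩]⟩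
noncomputable def p010_l115 : Lf2 := ⟨nat_lit 0, nat_lit 5, [nat_lit 4, nat_lit 5, nat_lit 5, nat_lit 20], true, nat_lit 0, nat_lit 0, nat_lit 0, nat_lit 0, ⟨nat_lit 0, nat_lit 0, nat_lit 1000, nat_lit 5, nat_lit 63, nat_lit 0, nat_lit 0, nat_lit 0, nat_lit 0, nat_lit 215, nat_lit 36817, nat_lit 262, nat_lit 65390128, nat_lit 0, nat_lit 0, nat_lit 566593, false, false⟩,
 nat_lit 0, nat_lit 3732, nat_lit 0, nat_lit 0, nat_lit 1975, nat_lit 0, nat_lit 0, nat_lit 0, nat_lit 177, nat_lit 0, nat_lit 0, nat_lit 0, nat_lit 0, nat_lit 0, nat_lit 99, nat_lit 632200, nat_lit 0, nat_lit 0, [(nat_lit 6, [(nat_lit 5, nat_lit 613), (nat_lit 6, nat_lit 387)])],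
 ⟨p010_k39, nat_lit 0, nat_lit 0, nat_lit 0, nat_lit 0, nat_lit 151880, [nat_lit 2831113600, nat_lit 2068668801, nat_lit 1992000], [], [nat_lit 8039767581, nat_lit 8100375773, nat_lit 7952277282, nat_lit 7996606265], nat_lit 1271250, nat_lit 1271250, nat_lit 65850, nat_lit 88400, nat_lit 0, nat_lit 0, [nat_lit 1100000, nat_lit 1442500, nat_lit 1271250], [nat_lit 11, nat_lit 40, nat_lit 20, nat_lit 80]⟩, C1.Rw.none,
 ⟨nat_lit 6304, nat_lit 6325, ⟨.ofNat (nat_lit 151819), .ofNat (nat_lit 160045), .ofNat (nat_lit 152887), .ofNat (nat_lit 161114), .ofNat (nat_lit 152708), .ofNat (nat_lit 160915), .ofNat (nat_lit 153776), .ofNat (nat_lit 161984)⟩, ⟨.ofNat (nat_lit 0), .ofNat (nat_lit 0), .ofNat (nat_lit 0), .ofNat (nat_lit 0), .ofNat (nat_lit 0), .ofNat (nat_lit 0), .ofNat (nat_lit 0), .ofNat (nat_lit 0)⟩⟩, [⟨nat_lit 0, nat_lit 100, nat_lit 100, nat_lit 38, nat_lit 241034055⟩]⟩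
noncomputable def p010_l116 : Lf2 := ⟨nat_lit 0, nat_lit 5, [nat_lit 4, nat_lit 5, nat_lit 5, nat_lit 20], true, nat_lit 0, nat_lit 0, nat_lit 0, nat_lit 0, ⟨nat_lit 0, nat_lit 0, nat_lit 1000, nat_lit 5, nat_lit 63, nat_lit 0, nat_lit 0, nat_lit 0, nat_lit 0, nat_lit 215, nat_lit 36817, nat_lit 262, nat_lit 65390128, nat_lit 0, nat_lit 0, nat_lit 566593, false, false⟩,
 nat_lit 0, nat_lit 5101, nat_lit 0, nat_lit 0, nat_lit 2700, nat_lit 0, nat_lit 0, nat_lit 0, nat_lit 0, nat_lit 0, nat_lit 0, nat_lit 0, nat_lit 0, nat_lit 0, nat_lit 108, nat_lit 855400, nat_lit 0, nat_lit 0, [(nat_lit 6, [(nat_lit 5, nat_lit 241), (nat_lit 6, nat_lit 759)])],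
 ⟨p010_k38, nat_lit 0, nat_lit 0, nat_lit 0, nat_lit 0, nat_lit 151880, [nat_lit 1462468534, nat_lit 2637933067, nat_lit 2322209001, nat_lit 190283900], [], [nat_lit 14083049702, nat_lit 14136104808, nat_lit 13966676937, nat_lit 14021424551], nat_lit 1271250, nat_lit 1271250, nat_lit 65850, nat_lit 88400, nat_lit 0, nat_lit 0, [nat_lit 490000, nat_lit 1100000, nat_lit 1442500, nat_lit 1271250], [nat_lit 128, nat_lit 40, nat_lit 20, nat_lit 40]⟩, C1.Rw.none,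
 ⟨nat_lit 6304, nat_lit 6325, ⟨.ofNat (nat_lit 151819), .ofNat (nat_lit 160045), .ofNat (nat_lit 152887), .ofNat (nat_lit 161114), .ofNat (nat_lit 152708), .ofNat (nat_lit 160915), .ofNat (nat_lit 153776), .ofNat (nat_lit 161984)⟩, ⟨.ofNat (nat_lit 0), .ofNat (nat_lit 0), .ofNat (nat_lit 0), .ofNat (nat_lit 0), .ofNat (nat_lit 0), .ofNat (nat_lit 0), .ofNat (nat_lit 0), .ofNat (nat_lit 0)⟩⟩, [⟨nat_lit 0, nat_lit 100, nat_lit 100, nat_lit 38, nat_lit 254261618⟩]⟩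
noncomputable def p010_l117 : Lf2 := ⟨nat_lit 0, nat_lit 5, [nat_lit 4, nat_lit 5, nat_lit 5, nat_lit 20], false, nat_lit 0, nat_lit 0, nat_lit 0, nat_lit 0, ⟨nat_lit 0, nat_lit 0, nat_lit 1000, nat_lit 5, nat_lit 63, nat_lit 0, nat_lit 0, nat_lit 0, nat_lit 0, nat_lit 215, nat_lit 36817, nat_lit 262, nat_lit 65390128, nat_lit 0, nat_lit 0, nat_lit 566593, false, false⟩,
 nat_lit 11037, nat_lit 0, nat_lit 0, nat_lit 0, nat_lit 5843, nat_lit 5728, nat_lit 0, nat_lit 61, nat_lit 0, nat_lit 1412, nat_lit 304, nat_lit 0, nat_lit 0, nat_lit 0, nat_lit 61, nat_lit 1000000, nat_lit 0, nat_lit 0, [(nat_lit 6, [(nat_lit 6, nat_lit 1000)])],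
 ⟨p010_k57, nat_lit 0, nat_lit 0, nat_lit 0, nat_lit 0, nat_lit 151880, [nat_lit 2929066667, nat_lit 2590400001, nat_lit 219800000], [], [nat_lit 15600639874, nat_lit 15686517216, nat_lit 15221457844, nat_lit 15293875648], nat_lit 1271250, nat_lit 1271250, nat_lit 65850, nat_lit 88400, nat_lit 0, nat_lit 0, [nat_lit 1100000, nat_lit 1442500, nat_lit 1271250], [nat_lit 123, nat_lit 40, nat_lit 20, nat_lit 40]⟩, ⟨p010_k58, nat_lit 0, nat_lit 0, nat_lit 0, nat_lit 0, nat_lit 155136, [nat_lit 5472000000, nat_lit 6688000000, nat_lit 7904000000], [], [nat_lit 8182348258, nat_lit 8216786025, nat_lit 7781277276, nat_lit 7800687063], nat_lit 1271250, nat_lit 1271250, nat_lit 65850, nat_lit 88400, nat_lit 0, nat_lit 0, [nat_lit 1271250, nat_lit 1271250, nat_lit 1271250], [nat_lit 96, nat_lit 40, nat_lit 20, nat_lit 40]⟩,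
 ⟨nat_lit 6304, nat_lit 6325, ⟨.ofNat (nat_lit 151819), .ofNat (nat_lit 160045), .ofNat (nat_lit 152887), .ofNat (nat_lit 161114), .ofNat (nat_lit 152708), .ofNat (nat_lit 160915), .ofNat (nat_lit 153776), .ofNat (nat_lit 161984)⟩, ⟨.ofNat (nat_lit 0), .ofNat (nat_lit 0), .ofNat (nat_lit 0), .ofNat (nat_lit 0), .ofNat (nat_lit 0), .ofNat (nat_lit 0), .ofNat (nat_lit 0), .ofNat (nat_lit 0)⟩⟩, [⟨nat_lit 0, nat_lit 100, nat_lit 100, nat_lit 39, nat_lit 1132134494⟩]⟩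
noncomputable def p010_l118 : Lf2 := ⟨nat_lit 0, nat_lit 5, [nat_lit 4, nat_lit 5, nat_lit 5, nat_lit 20], true, nat_lit 0, nat_lit 0, nat_lit 0, nat_lit 0, ⟨nat_lit 0, nat_lit 0, nat_lit 1000, nat_lit 5, nat_lit 63, nat_lit 0, nat_lit 0, nat_lit 0, nat_lit 0, nat_lit 215, nat_lit 36817, nat_lit 262, nat_lit 65390128, nat_lit 0, nat_lit 0, nat_lit 566593, false, false⟩,
 nat_lit 0, nat_lit 12281, nat_lit 0, nat_lit 0, nat_lit 6501, nat_lit 0, nat_lit 466, nat_lit 0, nat_lit 0, nat_lit 0, nat_lit 0, nat_lit 0, nat_lit 0, nat_lit 0, nat_lit 147, nat_lit 1000000, nat_lit 0, nat_lit 0, [(nat_lit 6, [(nat_lit 6, nat_lit 1000)])],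
 ⟨p010_k39, nat_lit 0, nat_lit 0, nat_lit 0, nat_lit 0, nat_lit 151880, [nat_lit 3329066667, nat_lit 3042400001, nat_lit 177599999], [], [nat_lit 11018063181, nat_lit 11085211024, nat_lit 10703705370, nat_lit 10738224571], nat_lit 1271250, nat_lit 1271250, nat_lit 65850, nat_lit 88400, nat_lit 0, nat_lit 0, [nat_lit 1100000, nat_lit 1442500, nat_lit 1271250], [nat_lit 11, nat_lit 40, nat_lit 20, nat_lit 80]⟩, C1.Rw.none,
 ⟨nat_lit 6304, nat_lit 6325, ⟨.ofNat (nat_lit 151819), .ofNat (nat_lit 160045), .ofNat (nat_lit 152887), .ofNat (nat_lit 161114), .ofNat (nat_lit 152708), .ofNat (nat_lit 160915), .ofNat (nat_lit 153776), .ofNat (nat_lit 161984)⟩, ⟨.ofNat (nat_lit 0), .ofNat (nat_lit 0), .ofNat (nat_lit 0), .ofNat (nat_lit 0), .ofNat (nat_lit 0), .ofNat (nat_lit 0), .ofNat (nat_lit 0), .ofNat (nat_lit 0)⟩⟩, [⟨nat_lit 0, nat_lit 100, nat_lit 100, nat_lit 39, nat_lit 542011716⟩]⟩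
noncomputable def p010_l119 : Lf2 := ⟨nat_lit 0, nat_lit 5, [nat_lit 4, nat_lit 5, nat_lit 5, nat_lit 20], true, nat_lit 0, nat_lit 0, nat_lit 0, nat_lit 0, ⟨nat_lit 0, nat_lit 0, nat_lit 1000, nat_lit 5, nat_lit 63, nat_lit 0, nat_lit 0, nat_lit 0, nat_lit 0, nat_lit 215, nat_lit 36817, nat_lit 262, nat_lit 65368666, nat_lit 0, nat_lit 0, nat_lit 572515, false, false⟩,
 nat_lit 0, nat_lit 4248, nat_lit 0, nat_lit 0, nat_lit 2248, nat_lit 0, nat_lit 0, nat_lit 0, nat_lit 137, nat_lit 0, nat_lit 0, nat_lit 0, nat_lit 0, nat_lit 0, nat_lit 64, nat_lit 400000, nat_lit 0, nat_lit 0, [(nat_lit 6, [(nat_lit 5, nat_lit 1000)])],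
 ⟨p010_k57, nat_lit 0, nat_lit 0, nat_lit 0, nat_lit 0, nat_lit 156021, [nat_lit 2441600001, nat_lit 1479400001, nat_lit 99700000], [], [nat_lit 9609430586, nat_lit 9685396424, nat_lit 9500868066, nat_lit 9559833508], nat_lit 1271250, nat_lit 1271250, nat_lit 65850, nat_lit 88400, nat_lit 0, nat_lit 0, [nat_lit 1100000, nat_lit 1442500, nat_lit 1271250], [nat_lit 123, nat_lit 40, nat_lit 20, nat_lit 40]⟩, C1.Rw.none,
 ⟨nat_lit 6304, nat_lit 6325, ⟨.ofNat (nat_lit 152887), .ofNat (nat_lit 161114), .ofNat (nat_lit 153956), .ofNat (nat_lit 162182), .ofNat (nat_lit 153776), .ofNat (nat_lit 161984), .ofNat (nat_lit 154844), .ofNat (nat_lit 163052)⟩, ⟨.ofNat (nat_lit 0), .ofNat (nat_lit 0), .ofNat (nat_lit 0), .ofNat (nat_lit 0), .ofNat (nat_lit 0), .ofNat (nat_lit 0), .ofNat (nat_lit 0), .ofNat (nat_lit 0)⟩⟩, [⟨nat_lit 0, nat_lit 100, nat_lit 100, nat_lit 39, nat_lit 230328205⟩]⟩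
noncomputable def p010_l120 : Lf2 := ⟨nat_lit 0, nat_lit 5, [nat_lit 4, nat_lit 5, nat_lit 5, nat_lit 20], true, nat_lit 0, nat_lit 0, nat_lit 0, nat_lit 0, ⟨nat_lit 0, nat_lit 0, nat_lit 1000, nat_lit 5, nat_lit 63, nat_lit 0, nat_lit 0, nat_lit 0, nat_lit 0, nat_lit 215, nat_lit 36817, nat_lit 262, nat_lit 65368666, nat_lit 0, nat_lit 0, nat_lit 572515, false, false⟩,
 nat_lit 0, nat_lit 4071, nat_lit 0, nat_lit 0, nat_lit 2155, nat_lit 0, nat_lit 0, nat_lit 0, nat_lit 167, nat_lit 0, nat_lit 0, nat_lit 0, nat_lit 0, nat_lit 0, nat_lit 64, nat_lit 400000, nat_lit 0, nat_lit 0, [(nat_lit 6, [(nat_lit 5, nat_lit 1000)])],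
 ⟨p010_k57, nat_lit 0, nat_lit 0, nat_lit 0, nat_lit 0, nat_lit 156021, [nat_lit 2441600001, nat_lit 1479400001, nat_lit 99700000], [], [nat_lit 8761310856, nat_lit 8816378646, nat_lit 8642744428, nat_lit 8698579983], nat_lit 1271250, nat_lit 1271250, nat_lit 65850, nat_lit 88400, nat_lit 0, nat_lit 0, [nat_lit 1100000, nat_lit 1442500, nat_lit 1271250], [nat_lit 123, nat_lit 40, nat_lit 20, nat_lit 40]⟩, C1.Rw.none,
 ⟨nat_lit 6304, nat_lit 6325, ⟨.ofNat (nat_lit 152887), .ofNat (nat_lit 161114), .ofNat (nat_lit 153956), .ofNat (nat_lit 162182), .ofNat (nat_lit 153776), .ofNat (nat_lit 161984), .ofNat (nat_lit 154844), .ofNat (nat_lit 163052)⟩, ⟨.ofNat (nat_lit 0), .ofNat (nat_lit 0), .ofNat (nat_lit 0), .ofNat (nat_lit 0), .ofNat (nat_lit 0), .ofNat (nat_lit 0), .ofNat (nat_lit 0), .ofNat (nat_lit 0)⟩⟩, [⟨nat_lit 0, nat_lit 100, nat_lit 100, nat_lit 39, nat_lit 256949796⟩]⟩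
noncomputable def p010_l121 : Lf2 := ⟨nat_lit 0, nat_lit 5, [nat_lit 4, nat_lit 5, nat_lit 5, nat_lit 20], true, nat_lit 0, nat_lit 0, nat_lit 0, nat_lit 0, ⟨nat_lit 0, nat_lit 0, nat_lit 1000, nat_lit 5, nat_lit 63, nat_lit 0, nat_lit 0, nat_lit 0, nat_lit 0, nat_lit 215, nat_lit 36817, nat_lit 262, nat_lit 65368666, nat_lit 0, nat_lit 0, nat_lit 572515, false, false⟩,
 nat_lit 0, nat_lit 3956, nat_lit 0, nat_lit 0, nat_lit 2094, nat_lit 0, nat_lit 0, nat_lit 0, nat_lit 171, nat_lit 0, nat_lit 0, nat_lit 0, nat_lit 0, nat_lit 0, nat_lit 64, nat_lit 400000, nat_lit 0, nat_lit 0, [(nat_lit 6, [(nat_lit 5, nat_lit 1000)])],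
 ⟨p010_k57, nat_lit 0, nat_lit 0, nat_lit 0, nat_lit 0, nat_lit 156021, [nat_lit 2441600001, nat_lit 1479400001, nat_lit 99700000], [], [nat_lit 8619281309, nat_lit 8673839505, nat_lit 8505248255, nat_lit 8559784252], nat_lit 1271250, nat_lit 1271250, nat_lit 65850, nat_lit 88400, nat_lit 0, nat_lit 0, [nat_lit 1100000, nat_lit 1442500, nat_lit 1271250], [nat_lit 123, nat_lit 40, nat_lit 20, nat_lit 40]⟩, C1.Rw.none,
 ⟨nat_lit 6304, nat_lit 6325, ⟨.ofNat (nat_lit 152887), .ofNat (nat_lit 161114), .ofNat (nat_lit 153956), .ofNat (nat_lit 162182), .ofNat (nat_lit 153776), .ofNat (nat_lit 161984), .ofNat (nat_lit 154844), .ofNat (nat_lit 163052)⟩, ⟨.ofNat (nat_lit 0), .ofNat (nat_lit 0), .ofNat (nat_lit 0), .ofNat (nat_lit 0), .ofNat (nat_lit 0), .ofNat (nat_lit 0), .ofNat (nat_lit 0), .ofNat (nat_lit 0)⟩⟩, [⟨nat_lit 0, nat_lit 100, nat_lit 100, nat_lit 39, nat_lit 251260548⟩]⟩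
noncomputable def p010_l122 : Lf2 := ⟨nat_lit 0, nat_lit 5, [nat_lit 4, nat_lit 5, nat_lit 5, nat_lit 20], false, nat_lit 0, nat_lit 0, nat_lit 0, nat_lit 0, ⟨nat_lit 259, nat_lit 0, nat_lit 741, nat_lit 5, nat_lit 63, nat_lit 0, nat_lit 0, nat_lit 0, nat_lit 0, nat_lit 215, nat_lit 36817, nat_lit 262, nat_lit 65368666, nat_lit 0, nat_lit 0, nat_lit 572515, false, false⟩,
 nat_lit 4903, nat_lit 1512, nat_lit 0, nat_lit 0, nat_lit 3395, nat_lit 2557, nat_lit 0, nat_lit 0, nat_lit 129, nat_lit 826, nat_lit 0, nat_lit 0, nat_lit 0, nat_lit 0, nat_lit 0, nat_lit 421800, nat_lit 0, nat_lit 0, [(nat_lit 6, [(nat_lit 5, nat_lit 532), (nat_lit 6, nat_lit 209)])],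
 ⟨p010_k57, nat_lit 0, nat_lit 0, nat_lit 0, nat_lit 0, nat_lit 156021, [nat_lit 2172562134, nat_lit 1756264401, nat_lit 836975600], [], [nat_lit 12923646104, nat_lit 12989072854, nat_lit 12730448152, nat_lit 12778340942], nat_lit 1271250, nat_lit 1271250, nat_lit 65850, nat_lit 88400, nat_lit 0, nat_lit 0, [nat_lit 1100000, nat_lit 1442500, nat_lit 1271250], [nat_lit 123, nat_lit 40, nat_lit 20, nat_lit 40]⟩, ⟨p010_k59, nat_lit 0, nat_lit 0, nat_lit 0, nat_lit 0, nat_lit 158518, [nat_lit 1411420500, nat_lit 1836180500, nat_lit 2301344500], [], [nat_lit 5393791110, nat_lit 5418281499, nat_lit 5232697555, nat_lit 5248796485], nat_lit 1271250, nat_lit 1271250, nat_lit 65850, nat_lit 88400, nat_lit 0, nat_lit 0, [nat_lit 1271250, nat_lit 1271250, nat_lit 1271250], [nat_lit 96, nat_lit 40, nat_lit 20, nat_lit 40]⟩,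
 ⟨nat_lit 6304, nat_lit 6325, ⟨.ofNat (nat_lit 152887), .ofNat (nat_lit 161114), .ofNat (nat_lit 153956), .ofNat (nat_lit 162182), .ofNat (nat_lit 153776), .ofNat (nat_lit 161984), .ofNat (nat_lit 154844), .ofNat (nat_lit 163052)⟩, ⟨.ofNat (nat_lit 0), .ofNat (nat_lit 0), .ofNat (nat_lit 0), .ofNat (nat_lit 0), .ofNat (nat_lit 0), .ofNat (nat_lit 0), .ofNat (nat_lit 0), .ofNat (nat_lit 0)⟩⟩, [⟨nat_lit 0, nat_lit 100, nat_lit 100, nat_lit 39, nat_lit 778489131⟩]⟩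
noncomputable def p010_l123 : Lf2 := ⟨nat_lit 0, nat_lit 5, [nat_lit 4, nat_lit 5, nat_lit 5, nat_lit 20], true, nat_lit 0, nat_lit 0, nat_lit 0, nat_lit 0, ⟨nat_lit 0, nat_lit 0, nat_lit 1000, nat_lit 5, nat_lit 63, nat_lit 0, nat_lit 0, nat_lit 0, nat_lit 0, nat_lit 215, nat_lit 36817, nat_lit 262, nat_lit 65368666, nat_lit 0, nat_lit 0, nat_lit 572515, false, false⟩,
 nat_lit 0, nat_lit 9476, nat_lit 0, nat_lit 0, nat_lit 5016, nat_lit 0, nat_lit 0, nat_lit 0, nat_lit 66, nat_lit 0, nat_lit 0, nat_lit 0, nat_lit 0, nat_lit 0, nat_lit 122, nat_lit 1000000, nat_lit 0, nat_lit 0, [(nat_lit 6, [(nat_lit 6, nat_lit 1000)])],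
 ⟨p010_k57, nat_lit 0, nat_lit 0, nat_lit 0, nat_lit 0, nat_lit 156021, [nat_lit 2929066667, nat_lit 2590400001, nat_lit 219800000], [], [nat_lit 9621852833, nat_lit 9685138312, nat_lit 9373526682, nat_lit 9430166493], nat_lit 1271250, nat_lit 1271250, nat_lit 65850, nat_lit 88400, nat_lit 0, nat_lit 0, [nat_lit 1100000, nat_lit 1442500, nat_lit 1271250], [nat_lit 123, nat_lit 40, nat_lit 20, nat_lit 40]⟩, C1.Rw.none,
 ⟨nat_lit 6304, nat_lit 6325, ⟨.ofNat (nat_lit 152887), .ofNat (nat_lit 161114), .ofNat (nat_lit 153956), .ofNat (nat_lit 162182), .ofNat (nat_lit 153776), .ofNat (nat_lit 161984), .ofNat (nat_lit 154844), .ofNat (nat_lit 163052)⟩, ⟨.ofNat (nat_lit 0), .ofNat (nat_lit 0), .ofNat (nat_lit 0), .ofNat (nat_lit 0), .ofNat (nat_lit 0), .ofNat (nat_lit 0), .ofNat (nat_lit 0), .ofNat (nat_lit 0)⟩⟩, [⟨nat_lit 0, nat_lit 100, nat_lit 100, nat_lit 39, nat_lit 428625769⟩]⟩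
noncomputable def p010_l124 : Lf2 := ⟨nat_lit 0, nat_lit 5, [nat_lit 4, nat_lit 5, nat_lit 5, nat_lit 20], true, nat_lit 0, nat_lit 0, nat_lit 0, nat_lit 0, ⟨nat_lit 0, nat_lit 0, nat_lit 1000, nat_lit 5, nat_lit 63, nat_lit 0, nat_lit 0, nat_lit 0, nat_lit 0, nat_lit 215, nat_lit 36817, nat_lit 262, nat_lit 65368666, nat_lit 0, nat_lit 0, nat_lit 572515, false, false⟩,
 nat_lit 0, nat_lit 12283, nat_lit 0, nat_lit 0, nat_lit 6502, nat_lit 0, nat_lit 358, nat_lit 0, nat_lit 0, nat_lit 0, nat_lit 0, nat_lit 0, nat_lit 0, nat_lit 0, nat_lit 122, nat_lit 1000000, nat_lit 0, nat_lit 0, [(nat_lit 6, [(nat_lit 6, nat_lit 1000)])],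
 ⟨p010_k57, nat_lit 0, nat_lit 0, nat_lit 0, nat_lit 0, nat_lit 156021, [nat_lit 2929066667, nat_lit 2590400001, nat_lit 219800000], [], [nat_lit 11107521456, nat_lit 11179060348, nat_lit 10798176871, nat_lit 10833347354], nat_lit 1271250, nat_lit 1271250, nat_lit 65850, nat_lit 88400, nat_lit 0, nat_lit 0, [nat_lit 1100000, nat_lit 1442500, nat_lit 1271250], [nat_lit 123, nat_lit 40, nat_lit 20, nat_lit 40]⟩, C1.Rw.none,
 ⟨nat_lit 6304, nat_lit 6325, ⟨.ofNat (nat_lit 152887), .ofNat (nat_lit 161114), .ofNat (nat_lit 153956), .ofNat (nat_lit 162182), .ofNat (nat_lit 153776), .ofNat (nat_lit 161984), .ofNat (nat_lit 154844), .ofNat (nat_lit 163052)⟩, ⟨.ofNat (nat_lit 0), .ofNat (nat_lit 0), .ofNat (nat_lit 0), .ofNat (nat_lit 0), .ofNat (nat_lit 0), .ofNat (nat_lit 0), .ofNat (nat_lit 0), .ofNat (nat_lit 0)⟩⟩, [⟨nat_lit 0, nat_lit 100, nat_lit 100, nat_lit 39, nat_lit 540758925⟩]⟩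
noncomputable def p010_l125 : Lf2 := ⟨nat_lit 0, nat_lit 5, [nat_lit 4, nat_lit 5, nat_lit 5, nat_lit 20], true, nat_lit 0, nat_lit 0, nat_lit 0, nat_lit 0, ⟨nat_lit 0, nat_lit 0, nat_lit 1000, nat_lit 5, nat_lit 64, nat_lit 0, nat_lit 0, nat_lit 0, nat_lit 0, nat_lit 215, nat_lit 38400, nat_lit 263, nat_lit 65347075, nat_lit 0, nat_lit 0, nat_lit 578452, false, false⟩,
 nat_lit 0, nat_lit 4276, nat_lit 0, nat_lit 0, nat_lit 2263, nat_lit 0, nat_lit 0, nat_lit 0, nat_lit 137, nat_lit 0, nat_lit 0, nat_lit 0, nat_lit 0, nat_lit 0, nat_lit 64, nat_lit 400000, nat_lit 0, nat_lit 0, [(nat_lit 6, [(nat_lit 5, nat_lit 1000)])],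
 ⟨p010_k57, nat_lit 0, nat_lit 0, nat_lit 0, nat_lit 0, nat_lit 160162, [nat_lit 2441600001, nat_lit 1479400001, nat_lit 99700000], [], [nat_lit 9631885694, nat_lit 9708054426, nat_lit 9487537802, nat_lit 9543906657], nat_lit 1271250, nat_lit 1271250, nat_lit 65850, nat_lit 88400, nat_lit 0, nat_lit 0, [nat_lit 1100000, nat_lit 1442500, nat_lit 1271250], [nat_lit 123, nat_lit 40, nat_lit 20, nat_lit 40]⟩, C1.Rw.none,
 ⟨nat_lit 6304, nat_lit 6325, ⟨.ofNat (nat_lit 153956), .ofNat (nat_lit 162182), .ofNat (nat_lit 155024), .ofNat (nat_lit 163250), .ofNat (nat_lit 154844), .ofNat (nat_lit 163052), .ofNat (nat_lit 155913), .ofNat (nat_lit 164120)⟩, ⟨.ofNat (nat_lit 0), .ofNat (nat_lit 0), .ofNat (nat_lit 0), .ofNat (nat_lit 0), .ofNat (nat_lit 0), .ofNat (nat_lit 0), .ofNat (nat_lit 0), .ofNat (nat_lit 0)⟩⟩, [⟨nat_lit 0, nat_lit 100, nat_lit 100, nat_lit 39, nat_lit 307315967⟩]⟩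
noncomputable def p010_l126 : Lf2 := ⟨nat_lit 0, nat_lit 5, [nat_lit 4, nat_lit 5, nat_lit 5, nat_lit 20], true, nat_lit 0, nat_lit 0, nat_lit 0, nat_lit 0, ⟨nat_lit 0, nat_lit 0, nat_lit 1000, nat_lit 5, nat_lit 64, nat_lit 0, nat_lit 0, nat_lit 0, nat_lit 0, nat_lit 215, nat_lit 38400, nat_lit 263, nat_lit 65347075, nat_lit 0, nat_lit 0, nat_lit 578452, false, false⟩,
 nat_lit 0, nat_lit 4071, nat_lit 0, nat_lit 0, nat_lit 2155, nat_lit 0, nat_lit 0, nat_lit 0, nat_lit 167, nat_lit 0, nat_lit 0, nat_lit 0, nat_lit 0, nat_lit 0, nat_lit 64, nat_lit 400000, nat_lit 0, nat_lit 0, [(nat_lit 6, [(nat_lit 5, nat_lit 1000)])],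
 ⟨p010_k57, nat_lit 0, nat_lit 0, nat_lit 0, nat_lit 0, nat_lit 160162, [nat_lit 2441600001, nat_lit 1479400001, nat_lit 99700000], [], [nat_lit 8761310856, nat_lit 8816378646, nat_lit 8642744428, nat_lit 8698579983], nat_lit 1271250, nat_lit 1271250, nat_lit 65850, nat_lit 88400, nat_lit 0, nat_lit 0, [nat_lit 1100000, nat_lit 1442500, nat_lit 1271250], [nat_lit 123, nat_lit 40, nat_lit 20, nat_lit 40]⟩, C1.Rw.none,
 ⟨nat_lit 6304, nat_lit 6325, ⟨.ofNat (nat_lit 153956), .ofNat (nat_lit 162182), .ofNat (nat_lit 155024), .ofNat (nat_lit 163250), .ofNat (nat_lit 154844), .ofNat (nat_lit 163052), .ofNat (nat_lit 155913), .ofNat (nat_lit 164120)⟩, ⟨.ofNat (nat_lit 0), .ofNat (nat_lit 0), .ofNat (nat_lit 0), .ofNat (nat_lit 0), .ofNat (nat_lit 0), .ofNat (nat_lit 0), .ofNat (nat_lit 0), .ofNat (nat_lit 0)⟩⟩, [⟨nat_lit 0, nat_lit 100, nat_lit 100, nat_lit 39, nat_lit 257762114⟩]⟩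
noncomputable def p010_l127 : Lf2 := ⟨nat_lit 0, nat_lit 5, [nat_lit 4, nat_lit 5, nat_lit 5, nat_lit 20], true, nat_lit 0, nat_lit 0, nat_lit 0, nat_lit 0, ⟨nat_lit 0, nat_lit 0, nat_lit 1000, nat_lit 5, nat_lit 64, nat_lit 0, nat_lit 0, nat_lit 0, nat_lit 0, nat_lit 215, nat_lit 38400, nat_lit 263, nat_lit 65347075, nat_lit 0, nat_lit 0, nat_lit 578452, false, false⟩,
 nat_lit 0, nat_lit 3956, nat_lit 0, nat_lit 0, nat_lit 2094, nat_lit 0, nat_lit 0, nat_lit 0, nat_lit 171, nat_lit 0, nat_lit 0, nat_lit 0, nat_lit 0, nat_lit 0, nat_lit 64, nat_lit 400000, nat_lit 0, nat_lit 0, [(nat_lit 6, [(nat_lit 5, nat_lit 1000)])],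
 ⟨p010_k57, nat_lit 0, nat_lit 0, nat_lit 0, nat_lit 0, nat_lit 160162, [nat_lit 2441600001, nat_lit 1479400001, nat_lit 99700000], [], [nat_lit 8619281309, nat_lit 8673839505, nat_lit 8505248255, nat_lit 8559784252], nat_lit 1271250, nat_lit 1271250, nat_lit 65850, nat_lit 88400, nat_lit 0, nat_lit 0, [nat_lit 1100000, nat_lit 1442500, nat_lit 1271250], [nat_lit 123, nat_lit 40, nat_lit 20, nat_lit 40]⟩, C1.Rw.none,
 ⟨nat_lit 6304, nat_lit 6325, ⟨.ofNat (nat_lit 153956), .ofNat (nat_lit 162182), .ofNat (nat_lit 155024), .ofNat (nat_lit 163250), .ofNat (nat_lit 154844), .ofNat (nat_lit 163052), .ofNat (nat_lit 155913), .ofNat (nat_lit 164120)⟩, ⟨.ofNat (nat_lit 0), .ofNat (nat_lit 0), .ofNat (nat_lit 0), .ofNat (nat_lit 0), .ofNat (nat_lit 0), .ofNat (nat_lit 0), .ofNat (nat_lit 0), .ofNat (nat_lit 0)⟩⟩, [⟨nat_lit 0, nat_lit 100, nat_lit 100, nat_lit 39, nat_lit 252072865⟩]⟩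
noncomputable def p010_l128 : Lf2 := ⟨nat_lit 0, nat_lit 5, [nat_lit 4, nat_lit 5, nat_lit 5, nat_lit 20], false, nat_lit 0, nat_lit 0, nat_lit 0, nat_lit 0, ⟨nat_lit 261, nat_lit 0, nat_lit 739, nat_lit 5, nat_lit 64, nat_lit 0, nat_lit 0, nat_lit 0, nat_lit 0, nat_lit 215, nat_lit 38400, nat_lit 263, nat_lit 65347075, nat_lit 0, nat_lit 0, nat_lit 578452, false, false⟩,
 nat_lit 4882, nat_lit 1474, nat_lit 0, nat_lit 0, nat_lit 3364, nat_lit 2559, nat_lit 0, nat_lit 0, nat_lit 131, nat_lit 816, nat_lit 0, nat_lit 0, nat_lit 0, nat_lit 0, nat_lit 0, nat_lit 419200, nat_lit 0, nat_lit 0, [(nat_lit 6, [(nat_lit 5, nat_lit 533), (nat_lit 6, nat_lit 206)])],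
 ⟨p010_k57, nat_lit 0, nat_lit 0, nat_lit 0, nat_lit 0, nat_lit 160162, [nat_lit 2180424534, nat_lit 1768512601, nat_lit 861921900], [], [nat_lit 12877265913, nat_lit 12942433689, nat_lit 12698190428, nat_lit 12734005371], nat_lit 1271250, nat_lit 1271250, nat_lit 65850, nat_lit 88400, nat_lit 0, nat_lit 0, [nat_lit 1100000, nat_lit 1442500, nat_lit 1271250], [nat_lit 123, nat_lit 40, nat_lit 20, nat_lit 40]⟩, ⟨p010_k60, nat_lit 0, nat_lit 0, nat_lit 0, nat_lit 0, nat_lit 161864, [nat_lit 1422319500, nat_lit 1850359500, nat_lit 2319115500], [], [nat_lit 5450832730, nat_lit 5475405548, nat_lit 5274169035, nat_lit 5296042756], nat_lit 1271250, nat_lit 1271250, nat_lit 65850, nat_lit 88400, nat_lit 0, nat_lit 0, [nat_lit 1271250, nat_lit 1271250, nat_lit 1271250], [nat_lit 96, nat_lit 40, nat_lit 20, nat_lit 40]⟩,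
 ⟨nat_lit 6304, nat_lit 6325, ⟨.ofNat (nat_lit 153956), .ofNat (nat_lit 162182), .ofNat (nat_lit 155024), .ofNat (nat_lit 163250), .ofNat (nat_lit 154844), .ofNat (nat_lit 163052), .ofNat (nat_lit 155913), .ofNat (nat_lit 164120)⟩, ⟨.ofNat (nat_lit 0), .ofNat (nat_lit 0), .ofNat (nat_lit 0), .ofNat (nat_lit 0), .ofNat (nat_lit 0), .ofNat (nat_lit 0), .ofNat (nat_lit 0), .ofNat (nat_lit 0)⟩⟩, [⟨nat_lit 0, nat_lit 100, nat_lit 100, nat_lit 40, nat_lit 777724774⟩]⟩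
noncomputable def p010_l129 : Lf2 := ⟨nat_lit 0, nat_lit 5, [nat_lit 4, nat_lit 5, nat_lit 5, nat_lit 20], true, nat_lit 0, nat_lit 0, nat_lit 0, nat_lit 0, ⟨nat_lit 0, nat_lit 0, nat_lit 1000, nat_lit 5, nat_lit 64, nat_lit 0, nat_lit 0, nat_lit 0, nat_lit 0, nat_lit 215, nat_lit 38400, nat_lit 263, nat_lit 65347075, nat_lit 0, nat_lit 0, nat_lit 578452, false, false⟩,
 nat_lit 0, nat_lit 8559, nat_lit 0, nat_lit 0, nat_lit 4530, nat_lit 0, nat_lit 0, nat_lit 0, nat_lit 94, nat_lit 0, nat_lit 0, nat_lit 0, nat_lit 0, nat_lit 0, nat_lit 108, nat_lit 856600, nat_lit 0, nat_lit 0, [(nat_lit 6, [(nat_lit 5, nat_lit 239), (nat_lit 6, nat_lit 761)])],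
 ⟨p010_k57, nat_lit 0, nat_lit 0, nat_lit 0, nat_lit 0, nat_lit 160162, [nat_lit 2810354134, nat_lit 2322111001, nat_lit 187508100], [], [nat_lit 8903674061, nat_lit 8963625670, nat_lit 8677086760, nat_lit 8738093272], nat_lit 1271250, nat_lit 1271250, nat_lit 65850, nat_lit 88400, nat_lit 0, nat_lit 0, [nat_lit 1100000, nat_lit 1442500, nat_lit 1271250], [nat_lit 123, nat_lit 40, nat_lit 20, nat_lit 40]⟩, C1.Rw.none,
 ⟨nat_lit 6304, nat_lit 6325, ⟨.ofNat (nat_lit 153956), .ofNat (nat_lit 162182), .ofNat (nat_lit 155024), .ofNat (nat_lit 163250), .ofNat (nat_lit 154844), .ofNat (nat_lit 163052), .ofNat (nat_lit 155913), .ofNat (nat_lit 164120)⟩, ⟨.ofNat (nat_lit 0), .ofNat (nat_lit 0), .ofNat (nat_lit 0), .ofNat (nat_lit 0), .ofNat (nat_lit 0), .ofNat (nat_lit 0), .ofNat (nat_lit 0), .ofNat (nat_lit 0)⟩⟩, [⟨nat_lit 0, nat_lit 100, nat_lit 100, nat_lit 40, nat_lit 393204475⟩]⟩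
noncomputable def p010_l130 : Lf2 := ⟨nat_lit 0, nat_lit 5, [nat_lit 4, nat_lit 5, nat_lit 5, nat_lit 20], true, nat_lit 0, nat_lit 0, nat_lit 0, nat_lit 0, ⟨nat_lit 0, nat_lit 0, nat_lit 1000, nat_lit 5, nat_lit 64, nat_lit 0, nat_lit 0, nat_lit 0, nat_lit 0, nat_lit 215, nat_lit 38400, nat_lit 263, nat_lit 65347075, nat_lit 0, nat_lit 0, nat_lit 578452, false, false⟩,
 nat_lit 0, nat_lit 12288, nat_lit 0, nat_lit 0, nat_lit 6505, nat_lit 0, nat_lit 358, nat_lit 0, nat_lit 0, nat_lit 0, nat_lit 0, nat_lit 0, nat_lit 0, nat_lit 0, nat_lit 122, nat_lit 1000000, nat_lit 0, nat_lit 0, [(nat_lit 6, [(nat_lit 6, nat_lit 1000)])],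
 ⟨p010_k57, nat_lit 0, nat_lit 0, nat_lit 0, nat_lit 0, nat_lit 160162, [nat_lit 2929066667, nat_lit 2590400001, nat_lit 219800000], [], [nat_lit 11106123912, nat_lit 11177680807, nat_lit 10793591373, nat_lit 10831505356], nat_lit 1271250, nat_lit 1271250, nat_lit 65850, nat_lit 88400, nat_lit 0, nat_lit 0, [nat_lit 1100000, nat_lit 1442500, nat_lit 1271250], [nat_lit 123, nat_lit 40, nat_lit 20, nat_lit 40]⟩, C1.Rw.none,
 ⟨nat_lit 6304, nat_lit 6325, ⟨.ofNat (nat_lit 153956), .ofNat (nat_lit 162182), .ofNat (nat_lit 155024), .ofNat (nat_lit 163250), .ofNat (nat_lit 154844), .ofNat (nat_lit 163052), .ofNat (nat_lit 155913), .ofNat (nat_lit 164120)⟩, ⟨.ofNat (nat_lit 0), .ofNat (nat_lit 0), .ofNat (nat_lit 0), .ofNat (nat_lit 0), .ofNat (nat_lit 0), .ofNat (nat_lit 0), .ofNat (nat_lit 0), .ofNat (nat_lit 0)⟩⟩, [⟨nat_lit 0, nat_lit 100, nat_lit 100, nat_lit 40, nat_lit 541744909⟩]⟩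
noncomputable def p010_l131 : Lf2 := ⟨nat_lit 0, nat_lit 5, [nat_lit 4, nat_lit 5, nat_lit 5, nat_lit 20], true, nat_lit 0, nat_lit 0, nat_lit 0, nat_lit 0, ⟨nat_lit 0, nat_lit 0, nat_lit 1000, nat_lit 5, nat_lit 64, nat_lit 0, nat_lit 0, nat_lit 0, nat_lit 0, nat_lit 215, nat_lit 38400, nat_lit 263, nat_lit 65325352, nat_lit 0, nat_lit 0, nat_lit 584403, false, false⟩,
 nat_lit 0, nat_lit 4266, nat_lit 0, nat_lit 0, nat_lit 2258, nat_lit 0, nat_lit 0, nat_lit 0, nat_lit 139, nat_lit 0, nat_lit 0, nat_lit 0, nat_lit 0, nat_lit 0, nat_lit 64, nat_lit 400000, nat_lit 0, nat_lit 0, [(nat_lit 6, [(nat_lit 5, nat_lit 1000)])],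
 ⟨p010_k57, nat_lit 0, nat_lit 0, nat_lit 0, nat_lit 0, nat_lit 164304, [nat_lit 2441600001, nat_lit 1479400001, nat_lit 99700000], [], [nat_lit 9624400658, nat_lit 9700501758, nat_lit 9434884029, nat_lit 9511012058], nat_lit 1271250, nat_lit 1271250, nat_lit 65850, nat_lit 88400, nat_lit 0, nat_lit 0, [nat_lit 1100000, nat_lit 1442500, nat_lit 1271250], [nat_lit 123, nat_lit 40, nat_lit 20, nat_lit 40]⟩, C1.Rw.none,
 ⟨nat_lit 6304, nat_lit 6325, ⟨.ofNat (nat_lit 155024), .ofNat (nat_lit 163250), .ofNat (nat_lit 156092), .ofNat (nat_lit 164319), .ofNat (nat_lit 155913), .ofNat (nat_lit 164120), .ofNat (nat_lit 156981), .ofNat (nat_lit 165188)⟩, ⟨.ofNat (nat_lit 0), .ofNat (nat_lit 0), .ofNat (nat_lit 0), .ofNat (nat_lit 0), .ofNat (nat_lit 0), .ofNat (nat_lit 0), .ofNat (nat_lit 0), .ofNat (nat_lit 0)⟩⟩, [⟨nat_lit 0, nat_lit 100, nat_lit 100, nat_lit 40, nat_lit 346490901⟩]⟩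
noncomputable def p010_l132 : Lf2 := ⟨nat_lit 0, nat_lit 5, [nat_lit 4, nat_lit 5, nat_lit 5, nat_lit 20], true, nat_lit 0, nat_lit 0, nat_lit 0, nat_lit 0, ⟨nat_lit 0, nat_lit 0, nat_lit 1000, nat_lit 5, nat_lit 64, nat_lit 0, nat_lit 0, nat_lit 0, nat_lit 0, nat_lit 215, nat_lit 38400, nat_lit 263, nat_lit 65325352, nat_lit 0, nat_lit 0, nat_lit 584403, false, false⟩,
 nat_lit 0, nat_lit 4071, nat_lit 0, nat_lit 0, nat_lit 2155, nat_lit 0, nat_lit 0, nat_lit 0, nat_lit 167, nat_lit 0, nat_lit 0, nat_lit 0, nat_lit 0, nat_lit 0, nat_lit 64, nat_lit 400000, nat_lit 0, nat_lit 0, [(nat_lit 6, [(nat_lit 5, nat_lit 1000)])],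
 ⟨p010_k57, nat_lit 0, nat_lit 0, nat_lit 0, nat_lit 0, nat_lit 164304, [nat_lit 2441600001, nat_lit 1479400001, nat_lit 99700000], [], [nat_lit 8761310856, nat_lit 8816378646, nat_lit 8642744428, nat_lit 8698579983], nat_lit 1271250, nat_lit 1271250, nat_lit 65850, nat_lit 88400, nat_lit 0, nat_lit 0, [nat_lit 1100000, nat_lit 1442500, nat_lit 1271250], [nat_lit 123, nat_lit 40, nat_lit 20, nat_lit 40]⟩, C1.Rw.none,
 ⟨nat_lit 6304, nat_lit 6325, ⟨.ofNat (nat_lit 155024), .ofNat (nat_lit 163250), .ofNat (nat_lit 156092), .ofNat (nat_lit 164319), .ofNat (nat_lit 155913), .ofNat (nat_lit 164120), .ofNat (nat_lit 156981), .ofNat (nat_lit 165188)⟩, ⟨.ofNat (nat_lit 0), .ofNat (nat_lit 0), .ofNat (nat_lit 0), .ofNat (nat_lit 0), .ofNat (nat_lit 0), .ofNat (nat_lit 0), .ofNat (nat_lit 0), .ofNat (nat_lit 0)⟩⟩, [⟨nat_lit 0, nat_lit 100, nat_lit 100, nat_lit 40, nat_lit 257789134⟩]⟩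
noncomputable def p010_l133 : Lf2 := ⟨nat_lit 0, nat_lit 5, [nat_lit 4, nat_lit 5, nat_lit 5, nat_lit 20], false, nat_lit 0, nat_lit 0, nat_lit 0, nat_lit 0, ⟨nat_lit 275, nat_lit 0, nat_lit 725, nat_lit 5, nat_lit 64, nat_lit 0, nat_lit 0, nat_lit 0, nat_lit 0, nat_lit 215, nat_lit 38400, nat_lit 263, nat_lit 65325352, nat_lit 0, nat_lit 0, nat_lit 584403, false, false⟩,
 nat_lit 5050, nat_lit 0, nat_lit 0, nat_lit 0, nat_lit 2673, nat_lit 2660, nat_lit 0, nat_lit 0, nat_lit 177, nat_lit 845, nat_lit 0, nat_lit 0, nat_lit 0, nat_lit 0, nat_lit 0, nat_lit 308600, nat_lit 0, nat_lit 0, [(nat_lit 6, [(nat_lit 5, nat_lit 694), (nat_lit 6, nat_lit 31)])],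
 ⟨p010_k57, nat_lit 0, nat_lit 0, nat_lit 0, nat_lit 0, nat_lit 164304, [nat_lit 2303303467, nat_lit 1861796001, nat_lit 1250282600], [], [nat_lit 11638832890, nat_lit 11698228052, nat_lit 11487829108, nat_lit 11541147599], nat_lit 1271250, nat_lit 1271250, nat_lit 65850, nat_lit 88400, nat_lit 0, nat_lit 0, [nat_lit 1100000, nat_lit 1442500, nat_lit 1271250], [nat_lit 123, nat_lit 40, nat_lit 20, nat_lit 40]⟩, ⟨p010_k61, nat_lit 0, nat_lit 0, nat_lit 0, nat_lit 0, nat_lit 165172, [nat_lit 1498612500, nat_lit 1949612500, nat_lit 2443512500], [], [nat_lit 5757197586, nat_lit 5782870457, nat_lit 5574456656, nat_lit 5596622341], nat_lit 1271250, nat_lit 1271250, nat_lit 65850, nat_lit 88400, nat_lit 0, nat_lit 0, [nat_lit 1271250, nat_lit 1271250, nat_lit 1271250], [nat_lit 96, nat_lit 40, nat_lit 20, nat_lit 40]⟩,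
 ⟨nat_lit 6304, nat_lit 6325, ⟨.ofNat (nat_lit 155024), .ofNat (nat_lit 163250), .ofNat (nat_lit 156092), .ofNat (nat_lit 164319), .ofNat (nat_lit 155913), .ofNat (nat_lit 164120), .ofNat (nat_lit 156981), .ofNat (nat_lit 165188)⟩, ⟨.ofNat (nat_lit 0), .ofNat (nat_lit 0), .ofNat (nat_lit 0), .ofNat (nat_lit 0), .ofNat (nat_lit 0), .ofNat (nat_lit 0), .ofNat (nat_lit 0), .ofNat (nat_lit 0)⟩⟩, [⟨nat_lit 0, nat_lit 100, nat_lit 100, nat_lit 40, nat_lit 731544791⟩]⟩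
noncomputable def p010_l134 : Lf2 := ⟨nat_lit 0, nat_lit 5, [nat_lit 4, nat_lit 5, nat_lit 5, nat_lit 20], false, nat_lit 0, nat_lit 0, nat_lit 0, nat_lit 0, ⟨nat_lit 263, nat_lit 0, nat_lit 737, nat_lit 5, nat_lit 64, nat_lit 0, nat_lit 0, nat_lit 0, nat_lit 0, nat_lit 215, nat_lit 38400, nat_lit 263, nat_lit 65325352, nat_lit 0, nat_lit 0, nat_lit 584403, false, false⟩,
 nat_lit 4831, nat_lit 1483, nat_lit 0, nat_lit 0, nat_lit 3342, nat_lit 2544, nat_lit 0, nat_lit 0, nat_lit 133, nat_lit 809, nat_lit 0, nat_lit 0, nat_lit 0, nat_lit 0, nat_lit 0, nat_lit 417200, nat_lit 0, nat_lit 0, [(nat_lit 6, [(nat_lit 5, nat_lit 533), (nat_lit 6, nat_lit 204)])],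
 ⟨p010_k57, nat_lit 0, nat_lit 0, nat_lit 0, nat_lit 0, nat_lit 164304, [nat_lit 2187846401, nat_lit 1780711801, nat_lit 885480300], [], [nat_lit 12835108739, nat_lit 12900092727, nat_lit 12651637677, nat_lit 12693299218], nat_lit 1271250, nat_lit 1271250, nat_lit 65850, nat_lit 88400, nat_lit 0, nat_lit 0, [nat_lit 1100000, nat_lit 1442500, nat_lit 1271250], [nat_lit 123, nat_lit 40, nat_lit 20, nat_lit 40]⟩, ⟨p010_k61, nat_lit 0, nat_lit 0, nat_lit 0, nat_lit 0, nat_lit 165172, [nat_lit 1433218500, nat_lit 1864538500, nat_lit 2336886500], [], [nat_lit 5503971140, nat_lit 5528524178, nat_lit 5329290476, nat_lit 5350397848], nat_lit 1271250, nat_lit 1271250, nat_lit 65850, nat_lit 88400, nat_lit 0, nat_lit 0, [nat_lit 1271250, nat_lit 1271250, nat_lit 1271250], [nat_lit 96, nat_lit 40, nat_lit 20, nat_lit 40]⟩,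
 ⟨nat_lit 6304, nat_lit 6325, ⟨.ofNat (nat_lit 155024), .ofNat (nat_lit 163250), .ofNat (nat_lit 156092), .ofNat (nat_lit 164319), .ofNat (nat_lit 155913), .ofNat (nat_lit 164120), .ofNat (nat_lit 156981), .ofNat (nat_lit 165188)⟩, ⟨.ofNat (nat_lit 0), .ofNat (nat_lit 0), .ofNat (nat_lit 0), .ofNat (nat_lit 0), .ofNat (nat_lit 0), .ofNat (nat_lit 0), .ofNat (nat_lit 0), .ofNat (nat_lit 0)⟩⟩, [⟨nat_lit 0, nat_lit 100, nat_lit 100, nat_lit 40, nat_lit 797304785⟩]⟩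
noncomputable def p010_l135 : Lf2 := ⟨nat_lit 0, nat_lit 5, [nat_lit 4, nat_lit 5, nat_lit 5, nat_lit 20], true, nat_lit 0, nat_lit 0, nat_lit 0, nat_lit 0, ⟨nat_lit 0, nat_lit 0, nat_lit 1000, nat_lit 5, nat_lit 64, nat_lit 0, nat_lit 0, nat_lit 0, nat_lit 0, nat_lit 215, nat_lit 38400, nat_lit 263, nat_lit 65325352, nat_lit 0, nat_lit 0, nat_lit 584403, false, false⟩,
 nat_lit 0, nat_lit 9468, nat_lit 0, nat_lit 0, nat_lit 5012, nat_lit 0, nat_lit 0, nat_lit 0, nat_lit 67, nat_lit 0, nat_lit 0, nat_lit 0, nat_lit 0, nat_lit 0, nat_lit 122, nat_lit 1000000, nat_lit 0, nat_lit 0, [(nat_lit 6, [(nat_lit 6, nat_lit 1000)])],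
 ⟨p010_k57, nat_lit 0, nat_lit 0, nat_lit 0, nat_lit 0, nat_lit 164304, [nat_lit 2929066667, nat_lit 2590400001, nat_lit 219800000], [], [nat_lit 9577716226, nat_lit 9648225269, nat_lit 9323640679, nat_lit 9393495750], nat_lit 1271250, nat_lit 1271250, nat_lit 65850, nat_lit 88400, nat_lit 0, nat_lit 0, [nat_lit 1100000, nat_lit 1442500, nat_lit 1271250], [nat_lit 123, nat_lit 40, nat_lit 20, nat_lit 40]⟩, C1.Rw.none,
 ⟨nat_lit 6304, nat_lit 6325, ⟨.ofNat (nat_lit 155024), .ofNat (nat_lit 163250), .ofNat (nat_lit 156092), .ofNat (nat_lit 164319), .ofNat (nat_lit 155913), .ofNat (nat_lit 164120), .ofNat (nat_lit 156981), .ofNat (nat_lit 165188)⟩, ⟨.ofNat (nat_lit 0), .ofNat (nat_lit 0), .ofNat (nat_lit 0), .ofNat (nat_lit 0), .ofNat (nat_lit 0), .ofNat (nat_lit 0), .ofNat (nat_lit 0), .ofNat (nat_lit 0)⟩⟩, [⟨nat_lit 0, nat_lit 100, nat_lit 100, nat_lit 40, nat_lit 1778177855⟩]⟩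
noncomputable def p010_l136 : Lf2 := ⟨nat_lit 0, nat_lit 5, [nat_lit 4, nat_lit 5, nat_lit 5, nat_lit 20], true, nat_lit 0, nat_lit 0, nat_lit 0, nat_lit 0, ⟨nat_lit 0, nat_lit 0, nat_lit 1000, nat_lit 5, nat_lit 64, nat_lit 0, nat_lit 0, nat_lit 0, nat_lit 0, nat_lit 215, nat_lit 38400, nat_lit 263, nat_lit 65325352, nat_lit 0, nat_lit 0, nat_lit 584403, false, false⟩,
 nat_lit 0, nat_lit 12415, nat_lit 0, nat_lit 0, nat_lit 6572, nat_lit 0, nat_lit 372, nat_lit 0, nat_lit 0, nat_lit 0, nat_lit 0, nat_lit 0, nat_lit 0, nat_lit 0, nat_lit 122, nat_lit 1000000, nat_lit 0, nat_lit 0, [(nat_lit 6, [(nat_lit 6, nat_lit 1000)])],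
 ⟨p010_k57, nat_lit 0, nat_lit 0, nat_lit 0, nat_lit 0, nat_lit 164304, [nat_lit 2929066667, nat_lit 2590400001, nat_lit 219800000], [], [nat_lit 11041355845, nat_lit 11124311774, nat_lit 10691181927, nat_lit 10775085349], nat_lit 1271250, nat_lit 1271250, nat_lit 65850, nat_lit 88400, nat_lit 0, nat_lit 0, [nat_lit 1100000, nat_lit 1442500, nat_lit 1271250], [nat_lit 123, nat_lit 40, nat_lit 20, nat_lit 40]⟩, C1.Rw.none,
 ⟨nat_lit 6304, nat_lit 6325, ⟨.ofNat (nat_lit 155024), .ofNat (nat_lit 163250), .ofNat (nat_lit 156092), .ofNat (nat_lit 164319), .ofNat (nat_lit 155913), .ofNat (nat_lit 164120), .ofNat (nat_lit 156981), .ofNat (nat_lit 165188)⟩, ⟨.ofNat (nat_lit 0), .ofNat (nat_lit 0), .ofNat (nat_lit 0), .ofNat (nat_lit 0), .ofNat (nat_lit 0), .ofNat (nat_lit 0), .ofNat (nat_lit 0), .ofNat (nat_lit 0)⟩⟩, [⟨nat_lit 0, nat_lit 100, nat_lit 100, nat_lit 40, nat_lit 2103243127⟩]⟩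
noncomputable def p010_l137 : Lf2 := ⟨nat_lit 0, nat_lit 5, [nat_lit 4, nat_lit 5, nat_lit 5, nat_lit 20], true, nat_lit 0, nat_lit 0, nat_lit 0, nat_lit 0, ⟨nat_lit 0, nat_lit 0, nat_lit 1000, nat_lit 5, nat_lit 66, nat_lit 0, nat_lit 0, nat_lit 0, nat_lit 0, nat_lit 215, nat_lit 40017, nat_lit 264, nat_lit 65232877, nat_lit 0, nat_lit 0, nat_lit 609499, false, false⟩,
 nat_lit 0, nat_lit 8962, nat_lit 0, nat_lit 0, nat_lit 4744, nat_lit 0, nat_lit 0, nat_lit 0, nat_lit 0, nat_lit 0, nat_lit 0, nat_lit 0, nat_lit 0, nat_lit 0, nat_lit 94, nat_lit 708400, nat_lit 0, nat_lit 0, [(nat_lit 6, [(nat_lit 5, nat_lit 486), (nat_lit 6, nat_lit 514)])],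
 ⟨p010_k57, nat_lit 0, nat_lit 0, nat_lit 0, nat_lit 0, nat_lit 151880, [nat_lit 2695165867, nat_lit 2054214001, nat_lit 166319400], [], [nat_lit 13747005665, nat_lit 13770537669, nat_lit 13783508301, nat_lit 13662706137], nat_lit 1271250, nat_lit 1271250, nat_lit 88400, nat_lit 111251, nat_lit 0, nat_lit 0, [nat_lit 1100000, nat_lit 1442500, nat_lit 1271250], [nat_lit 123, nat_lit 40, nat_lit 20, nat_lit 40]⟩, C1.Rw.none,
 ⟨nat_lit 6304, nat_lit 6325, ⟨.ofNat (nat_lit 158977), .ofNat (nat_lit 167203), .ofNat (nat_lit 161114), .ofNat (nat_lit 169340), .ofNat (nat_lit 159847), .ofNat (nat_lit 168054), .ofNat (nat_lit 161984), .ofNat (nat_lit 170191)⟩, ⟨.ofNat (nat_lit 0), .ofNat (nat_lit 0), .ofNat (nat_lit 0), .ofNat (nat_lit 0), .ofNat (nat_lit 0), .ofNat (nat_lit 0), .ofNat (nat_lit 0), .ofNat (nat_lit 0)⟩⟩, []⟩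
noncomputable def p010_l138 : Lf2 := ⟨nat_lit 0, nat_lit 5, [nat_lit 4, nat_lit 5, nat_lit 5, nat_lit 20], true, nat_lit 0, nat_lit 0, nat_lit 0, nat_lit 0, ⟨nat_lit 0, nat_lit 0, nat_lit 1000, nat_lit 5, nat_lit 66, nat_lit 0, nat_lit 0, nat_lit 0, nat_lit 0, nat_lit 215, nat_lit 41667, nat_lit 265, nat_lit 65199228, nat_lit 0, nat_lit 0, nat_lit 618537, false, false⟩,
 nat_lit 0, nat_lit 4269, nat_lit 0, nat_lit 0, nat_lit 2259, nat_lit 0, nat_lit 0, nat_lit 0, nat_lit 138, nat_lit 0, nat_lit 0, nat_lit 0, nat_lit 0, nat_lit 0, nat_lit 64, nat_lit 400000, nat_lit 0, nat_lit 0, [(nat_lit 6, [(nat_lit 5, nat_lit 1000)])],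
 ⟨p010_k57, nat_lit 0, nat_lit 0, nat_lit 0, nat_lit 0, nat_lit 156021, [nat_lit 2441600001, nat_lit 1479400001, nat_lit 99700000], [], [nat_lit 9457083414, nat_lit 9516153817, nat_lit 9368587418, nat_lit 9427590635], nat_lit 1271250, nat_lit 1271250, nat_lit 88400, nat_lit 111251, nat_lit 0, nat_lit 0, [nat_lit 1100000, nat_lit 1442500, nat_lit 1271250], [nat_lit 123, nat_lit 40, nat_lit 20, nat_lit 40]⟩, C1.Rw.none,
 ⟨nat_lit 6304, nat_lit 6325, ⟨.ofNat (nat_lit 161114), .ofNat (nat_lit 169340), .ofNat (nat_lit 162182), .ofNat (nat_lit 170408), .ofNat (nat_lit 161984), .ofNat (nat_lit 170191), .ofNat (nat_lit 163052), .ofNat (nat_lit 171259)⟩, ⟨.ofNat (nat_lit 0), .ofNat (nat_lit 0), .ofNat (nat_lit 0), .ofNat (nat_lit 0), .ofNat (nat_lit 0), .ofNat (nat_lit 0), .ofNat (nat_lit 0), .ofNat (nat_lit 0)⟩⟩, []⟩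
noncomputable def p010_l139 : Lf2 := ⟨nat_lit 0, nat_lit 5, [nat_lit 4, nat_lit 5, nat_lit 5, nat_lit 20], false, nat_lit 0, nat_lit 0, nat_lit 0, nat_lit 0, ⟨nat_lit 214, nat_lit 0, nat_lit 786, nat_lit 5, nat_lit 66, nat_lit 0, nat_lit 0, nat_lit 0, nat_lit 0, nat_lit 215, nat_lit 41667, nat_lit 265, nat_lit 65199228, nat_lit 0, nat_lit 0, nat_lit 618537, false, false⟩,
 nat_lit 4084, nat_lit 3444, nat_lit 0, nat_lit 0, nat_lit 3985, nat_lit 2130, nat_lit 0, nat_lit 0, nat_lit 96, nat_lit 715, nat_lit 0, nat_lit 0, nat_lit 0, nat_lit 0, nat_lit 23, nat_lit 786000, nat_lit 0, nat_lit 0, [(nat_lit 6, [(nat_lit 6, nat_lit 786)])],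
 ⟨p010_k57, nat_lit 0, nat_lit 0, nat_lit 0, nat_lit 0, nat_lit 156021, [nat_lit 2139206400, nat_lit 1915714401, nat_lit 166548800], [], [nat_lit 12674177890, nat_lit 12696827165, nat_lit 12719464282, nat_lit 12617989445], nat_lit 1271250, nat_lit 1271250, nat_lit 88400, nat_lit 111251, nat_lit 0, nat_lit 0, [nat_lit 1100000, nat_lit 1442500, nat_lit 1271250], [nat_lit 123, nat_lit 40, nat_lit 20, nat_lit 40]⟩, ⟨p010_k59, nat_lit 0, nat_lit 0, nat_lit 0, nat_lit 0, nat_lit 158518, [nat_lit 1166193000, nat_lit 1517153000, nat_lit 1901497000], [], [nat_lit 4251597682, nat_lit 4264958009, nat_lit 4153325156, nat_lit 4166678038], nat_lit 1271250, nat_lit 1271250, nat_lit 88400, nat_lit 111251, nat_lit 0, nat_lit 0, [nat_lit 1271250, nat_lit 1271250, nat_lit 1271250], [nat_lit 96, nat_lit 40, nat_lit 20, nat_lit 40]⟩,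
 ⟨nat_lit 6304, nat_lit 6325, ⟨.ofNat (nat_lit 161114), .ofNat (nat_lit 169340), .ofNat (nat_lit 162182), .ofNat (nat_lit 170408), .ofNat (nat_lit 161984), .ofNat (nat_lit 170191), .ofNat (nat_lit 163052), .ofNat (nat_lit 171259)⟩, ⟨.ofNat (nat_lit 0), .ofNat (nat_lit 0), .ofNat (nat_lit 0), .ofNat (nat_lit 0), .ofNat (nat_lit 0), .ofNat (nat_lit 0), .ofNat (nat_lit 0), .ofNat (nat_lit 0)⟩⟩, []⟩
noncomputable def p010_l140 : Lf2 := ⟨nat_lit 0, nat_lit 5, [nat_lit 4, nat_lit 5, nat_lit 5, nat_lit 20], true, nat_lit 0, nat_lit 0, nat_lit 0, nat_lit 0, ⟨nat_lit 0, nat_lit 0, nat_lit 1000, nat_lit 5, nat_lit 66, nat_lit 0, nat_lit 0, nat_lit 0, nat_lit 0, nat_lit 215, nat_lit 41667, nat_lit 265, nat_lit 65199228, nat_lit 0, nat_lit 0, nat_lit 618537, false, false⟩,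
 nat_lit 0, nat_lit 12172, nat_lit 0, nat_lit 0, nat_lit 6443, nat_lit 0, nat_lit 350, nat_lit 0, nat_lit 0, nat_lit 0, nat_lit 0, nat_lit 0, nat_lit 0, nat_lit 0, nat_lit 122, nat_lit 1000000, nat_lit 0, nat_lit 0, [(nat_lit 6, [(nat_lit 6, nat_lit 1000)])],
 ⟨p010_k57, nat_lit 0, nat_lit 0, nat_lit 0, nat_lit 0, nat_lit 156021, [nat_lit 2929066667, nat_lit 2590400001, nat_lit 219800000], [], [nat_lit 10888358324, nat_lit 10882934187, nat_lit 10905198773, nat_lit 10741132933], nat_lit 1271250, nat_lit 1271250, nat_lit 88400, nat_lit 111251, nat_lit 0, nat_lit 0, [nat_lit 1100000, nat_lit 1442500, nat_lit 1271250], [nat_lit 123, nat_lit 40, nat_lit 20, nat_lit 40]⟩, C1.Rw.none,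
 ⟨nat_lit 6304, nat_lit 6325, ⟨.ofNat (nat_lit 161114), .ofNat (nat_lit 169340), .ofNat (nat_lit 162182), .ofNat (nat_lit 170408), .ofNat (nat_lit 161984), .ofNat (nat_lit 170191), .ofNat (nat_lit 163052), .ofNat (nat_lit 171259)⟩, ⟨.ofNat (nat_lit 0), .ofNat (nat_lit 0), .ofNat (nat_lit 0), .ofNat (nat_lit 0), .ofNat (nat_lit 0), .ofNat (nat_lit 0), .ofNat (nat_lit 0), .ofNat (nat_lit 0)⟩⟩, []⟩
noncomputable def p010_l141 : Lf2 := ⟨nat_lit 0, nat_lit 5, [nat_lit 4, nat_lit 5, nat_lit 5, nat_lit 20], true, nat_lit 0, nat_lit 0, nat_lit 0, nat_lit 0, ⟨nat_lit 0, nat_lit 0, nat_lit 1000, nat_lit 5, nat_lit 67, nat_lit 0, nat_lit 0, nat_lit 0, nat_lit 0, nat_lit 215, nat_lit 41667, nat_lit 265, nat_lit 65176638, nat_lit 0, nat_lit 0, nat_lit 624578, false, false⟩,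
 nat_lit 0, nat_lit 4269, nat_lit 0, nat_lit 0, nat_lit 2259, nat_lit 0, nat_lit 0, nat_lit 0, nat_lit 138, nat_lit 0, nat_lit 0, nat_lit 0, nat_lit 0, nat_lit 0, nat_lit 64, nat_lit 400000, nat_lit 0, nat_lit 0, [(nat_lit 6, [(nat_lit 5, nat_lit 1000)])],
 ⟨p010_k57, nat_lit 0, nat_lit 0, nat_lit 0, nat_lit 0, nat_lit 160162, [nat_lit 2441600001, nat_lit 1479400001, nat_lit 99700000], [], [nat_lit 9457083414, nat_lit 9516153817, nat_lit 9368587418, nat_lit 9427590635], nat_lit 1271250, nat_lit 1271250, nat_lit 88400, nat_lit 111251, nat_lit 0, nat_lit 0, [nat_lit 1100000, nat_lit 1442500, nat_lit 1271250], [nat_lit 123, nat_lit 40, nat_lit 20, nat_lit 40]⟩, C1.Rw.none,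
 ⟨nat_lit 6304, nat_lit 6325, ⟨.ofNat (nat_lit 162182), .ofNat (nat_lit 170408), .ofNat (nat_lit 163250), .ofNat (nat_lit 171477), .ofNat (nat_lit 163052), .ofNat (nat_lit 171259), .ofNat (nat_lit 164120), .ofNat (nat_lit 172327)⟩, ⟨.ofNat (nat_lit 0), .ofNat (nat_lit 0), .ofNat (nat_lit 0), .ofNat (nat_lit 0), .ofNat (nat_lit 0), .ofNat (nat_lit 0), .ofNat (nat_lit 0), .ofNat (nat_lit 0)⟩⟩, []⟩
noncomputable def p010_l142 : Lf2 := ⟨nat_lit 0, nat_lit 5, [nat_lit 4, nat_lit 5, nat_lit 5, nat_lit 20], true, nat_lit 0, nat_lit 0, nat_lit 0, nat_lit 0, ⟨nat_lit 0, nat_lit 0, nat_lit 1000, nat_lit 5, nat_lit 67, nat_lit 0, nat_lit 0, nat_lit 0, nat_lit 0, nat_lit 215, nat_lit 41667, nat_lit 265, nat_lit 65176638, nat_lit 0, nat_lit 0, nat_lit 624578, false, false⟩,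
 nat_lit 0, nat_lit 8230, nat_lit 0, nat_lit 0, nat_lit 4356, nat_lit 0, nat_lit 418, nat_lit 0, nat_lit 0, nat_lit 0, nat_lit 0, nat_lit 0, nat_lit 0, nat_lit 0, nat_lit 147, nat_lit 1000000, nat_lit 0, nat_lit 0, [(nat_lit 6, [(nat_lit 6, nat_lit 1000)])],
 ⟨p010_k62, nat_lit 0, nat_lit 0, nat_lit 0, nat_lit 0, nat_lit 160162, [nat_lit 3329066667, nat_lit 2748000001, nat_lit 1819200001, nat_lit 7200000], [], [nat_lit 11909695348, nat_lit 11962064069, nat_lit 11735924135, nat_lit 11788226544], nat_lit 1271250, nat_lit 1271250, nat_lit 88400, nat_lit 111251, nat_lit 0, nat_lit 0, [nat_lit 1100000, nat_lit 1442500, nat_lit 1271250, nat_lit 1271250], [nat_lit 199, nat_lit 40, nat_lit 20, nat_lit 80]⟩, C1.Rw.none,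
 ⟨nat_lit 6304, nat_lit 6325, ⟨.ofNat (nat_lit 162182), .ofNat (nat_lit 170408), .ofNat (nat_lit 163250), .ofNat (nat_lit 171477), .ofNat (nat_lit 163052), .ofNat (nat_lit 171259), .ofNat (nat_lit 164120), .ofNat (nat_lit 172327)⟩, ⟨.ofNat (nat_lit 0), .ofNat (nat_lit 0), .ofNat (nat_lit 0), .ofNat (nat_lit 0), .ofNat (nat_lit 0), .ofNat (nat_lit 0), .ofNat (nat_lit 0), .ofNat (nat_lit 0)⟩⟩, []⟩
noncomputable def p010_l143 : Lf2 := ⟨nat_lit 0, nat_lit 5, [nat_lit 4, nat_lit 5, nat_lit 5, nat_lit 20], true, nat_lit 0, nat_lit 0, nat_lit 0, nat_lit 0, ⟨nat_lit 0, nat_lit 0, nat_lit 1000, nat_lit 5, nat_lit 67, nat_lit 0, nat_lit 0, nat_lit 0, nat_lit 0, nat_lit 215, nat_lit 41667, nat_lit 265, nat_lit 65176638, nat_lit 0, nat_lit 0, nat_lit 624578, false, false⟩,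
 nat_lit 0, nat_lit 12173, nat_lit 0, nat_lit 0, nat_lit 6444, nat_lit 0, nat_lit 350, nat_lit 0, nat_lit 0, nat_lit 0, nat_lit 0, nat_lit 0, nat_lit 0, nat_lit 0, nat_lit 122, nat_lit 1000000, nat_lit 0, nat_lit 0, [(nat_lit 6, [(nat_lit 6, nat_lit 1000)])],
 ⟨p010_k57, nat_lit 0, nat_lit 0, nat_lit 0, nat_lit 0, nat_lit 160162, [nat_lit 2929066667, nat_lit 2590400001, nat_lit 219800000], [], [nat_lit 10886829825, nat_lit 10882413964, nat_lit 10903658701, nat_lit 10739567397], nat_lit 1271250, nat_lit 1271250, nat_lit 88400, nat_lit 111251, nat_lit 0, nat_lit 0, [nat_lit 1100000, nat_lit 1442500, nat_lit 1271250], [nat_lit 123, nat_lit 40, nat_lit 20, nat_lit 40]⟩, C1.Rw.none,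
 ⟨nat_lit 6304, nat_lit 6325, ⟨.ofNat (nat_lit 162182), .ofNat (nat_lit 170408), .ofNat (nat_lit 163250), .ofNat (nat_lit 171477), .ofNat (nat_lit 163052), .ofNat (nat_lit 171259), .ofNat (nat_lit 164120), .ofNat (nat_lit 172327)⟩, ⟨.ofNat (nat_lit 0), .ofNat (nat_lit 0), .ofNat (nat_lit 0), .ofNat (nat_lit 0), .ofNat (nat_lit 0), .ofNat (nat_lit 0), .ofNat (nat_lit 0), .ofNat (nat_lit 0)⟩⟩, []⟩
noncomputable def p010_l144 : Lf2 := ⟨nat_lit 0, nat_lit 5, [nat_lit 4, nat_lit 5, nat_lit 5, nat_lit 20], true, nat_lit 0, nat_lit 0, nat_lit 0, nat_lit 0, ⟨nat_lit 0, nat_lit 0, nat_lit 1000, nat_lit 5, nat_lit 67, nat_lit 0, nat_lit 0, nat_lit 0, nat_lit 0, nat_lit 215, nat_lit 43350, nat_lit 266, nat_lit 65153914, nat_lit 0, nat_lit 0, nat_lit 630633, false, false⟩,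
 nat_lit 0, nat_lit 4266, nat_lit 0, nat_lit 0, nat_lit 2258, nat_lit 0, nat_lit 0, nat_lit 0, nat_lit 139, nat_lit 0, nat_lit 0, nat_lit 0, nat_lit 0, nat_lit 0, nat_lit 64, nat_lit 400000, nat_lit 0, nat_lit 0, [(nat_lit 6, [(nat_lit 5, nat_lit 1000)])],
 ⟨p010_k57, nat_lit 0, nat_lit 0, nat_lit 0, nat_lit 0, nat_lit 164304, [nat_lit 2441600001, nat_lit 1479400001, nat_lit 99700000], [], [nat_lit 9434884029, nat_lit 9511012058, nat_lit 9337720594, nat_lit 9396714276], nat_lit 1271250, nat_lit 1271250, nat_lit 88400, nat_lit 111251, nat_lit 0, nat_lit 0, [nat_lit 1100000, nat_lit 1442500, nat_lit 1271250], [nat_lit 123, nat_lit 40, nat_lit 20, nat_lit 40]⟩, C1.Rw.none,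
 ⟨nat_lit 6304, nat_lit 6325, ⟨.ofNat (nat_lit 163250), .ofNat (nat_lit 171477), .ofNat (nat_lit 164319), .ofNat (nat_lit 172545), .ofNat (nat_lit 164120), .ofNat (nat_lit 172327), .ofNat (nat_lit 165188), .ofNat (nat_lit 173396)⟩, ⟨.ofNat (nat_lit 0), .ofNat (nat_lit 0), .ofNat (nat_lit 0), .ofNat (nat_lit 0), .ofNat (nat_lit 0), .ofNat (nat_lit 0), .ofNat (nat_lit 0), .ofNat (nat_lit 0)⟩⟩, [⟨nat_lit 0, nat_lit 100, nat_lit 100, nat_lit 40, nat_lit 221028758⟩]⟩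
noncomputable def p010_l145 : Lf2 := ⟨nat_lit 0, nat_lit 5, [nat_lit 4, nat_lit 5, nat_lit 5, nat_lit 20], true, nat_lit 0, nat_lit 0, nat_lit 0, nat_lit 0, ⟨nat_lit 0, nat_lit 0, nat_lit 1000, nat_lit 5, nat_lit 67, nat_lit 0, nat_lit 0, nat_lit 0, nat_lit 0, nat_lit 215, nat_lit 43350, nat_lit 266, nat_lit 65153914, nat_lit 0, nat_lit 0, nat_lit 630633, false, false⟩,
 nat_lit 0, nat_lit 4071, nat_lit 0, nat_lit 0, nat_lit 2155, nat_lit 0, nat_lit 0, nat_lit 0, nat_lit 167, nat_lit 0, nat_lit 0, nat_lit 0, nat_lit 0, nat_lit 0, nat_lit 64, nat_lit 400000, nat_lit 0, nat_lit 0, [(nat_lit 6, [(nat_lit 5, nat_lit 1000)])],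
 ⟨p010_k57, nat_lit 0, nat_lit 0, nat_lit 0, nat_lit 0, nat_lit 164304, [nat_lit 2441600001, nat_lit 1479400001, nat_lit 99700000], [], [nat_lit 8642744428, nat_lit 8698579983, nat_lit 8695560843, nat_lit 8640685492], nat_lit 1271250, nat_lit 1271250, nat_lit 88400, nat_lit 111251, nat_lit 0, nat_lit 0, [nat_lit 1100000, nat_lit 1442500, nat_lit 1271250], [nat_lit 123, nat_lit 40, nat_lit 20, nat_lit 40]⟩, C1.Rw.none,
 ⟨nat_lit 6304, nat_lit 6325, ⟨.ofNat (nat_lit 163250), .ofNat (nat_lit 171477), .ofNat (nat_lit 164319), .ofNat (nat_lit 172545), .ofNat (nat_lit 164120), .ofNat (nat_lit 172327), .ofNat (nat_lit 165188), .ofNat (nat_lit 173396)⟩, ⟨.ofNat (nat_lit 0), .ofNat (nat_lit 0), .ofNat (nat_lit 0), .ofNat (nat_lit 0), .ofNat (nat_lit 0), .ofNat (nat_lit 0), .ofNat (nat_lit 0), .ofNat (nat_lit 0)⟩⟩, []⟩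
noncomputable def p010_l146 : Lf2 := ⟨nat_lit 0, nat_lit 5, [nat_lit 4, nat_lit 5, nat_lit 5, nat_lit 20], false, nat_lit 0, nat_lit 0, nat_lit 0, nat_lit 0, ⟨nat_lit 275, nat_lit 0, nat_lit 725, nat_lit 5, nat_lit 67, nat_lit 0, nat_lit 0, nat_lit 0, nat_lit 0, nat_lit 215, nat_lit 43350, nat_lit 266, nat_lit 65153914, nat_lit 0, nat_lit 0, nat_lit 630633, false, false⟩,
 nat_lit 5050, nat_lit 0, nat_lit 0, nat_lit 0, nat_lit 2673, nat_lit 2660, nat_lit 0, nat_lit 0, nat_lit 177, nat_lit 845, nat_lit 0, nat_lit 0, nat_lit 0, nat_lit 0, nat_lit 0, nat_lit 308600, nat_lit 0, nat_lit 0, [(nat_lit 6, [(nat_lit 5, nat_lit 694), (nat_lit 6, nat_lit 31)])],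
 ⟨p010_k57, nat_lit 0, nat_lit 0, nat_lit 0, nat_lit 0, nat_lit 164304, [nat_lit 2303303467, nat_lit 1861796001, nat_lit 1250282600], [], [nat_lit 11487829108, nat_lit 11541147599, nat_lit 11548299013, nat_lit 11480233207], nat_lit 1271250, nat_lit 1271250, nat_lit 88400, nat_lit 111251, nat_lit 0, nat_lit 0, [nat_lit 1100000, nat_lit 1442500, nat_lit 1271250], [nat_lit 123, nat_lit 40, nat_lit 20, nat_lit 40]⟩, ⟨p010_k61, nat_lit 0, nat_lit 0, nat_lit 0, nat_lit 0, nat_lit 165172, [nat_lit 1498612500, nat_lit 1949612500, nat_lit 2443512500], [], [nat_lit 5574456656, nat_lit 5596622341, nat_lit 5451612517, nat_lit 5468510150], nat_lit 1271250, nat_lit 1271250, nat_lit 88400, nat_lit 111251, nat_lit 0, nat_lit 0, [nat_lit 1271250, nat_lit 1271250, nat_lit 1271250], [nat_lit 96, nat_lit 40, nat_lit 20, nat_lit 40]⟩,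
 ⟨nat_lit 6304, nat_lit 6325, ⟨.ofNat (nat_lit 163250), .ofNat (nat_lit 171477), .ofNat (nat_lit 164319), .ofNat (nat_lit 172545), .ofNat (nat_lit 164120), .ofNat (nat_lit 172327), .ofNat (nat_lit 165188), .ofNat (nat_lit 173396)⟩, ⟨.ofNat (nat_lit 0), .ofNat (nat_lit 0), .ofNat (nat_lit 0), .ofNat (nat_lit 0), .ofNat (nat_lit 0), .ofNat (nat_lit 0), .ofNat (nat_lit 0), .ofNat (nat_lit 0)⟩⟩, []⟩
noncomputable def p010_l147 : Lf2 := ⟨nat_lit 0, nat_lit 5, [nat_lit 4, nat_lit 5, nat_lit 5, nat_lit 20], false, nat_lit 0, nat_lit 0, nat_lit 0, nat_lit 0, ⟨nat_lit 263, nat_lit 0, nat_lit 737, nat_lit 5, nat_lit 67, nat_lit 0, nat_lit 0, nat_lit 0, nat_lit 0, nat_lit 215, nat_lit 43350, nat_lit 266, nat_lit 65153914, nat_lit 0, nat_lit 0, nat_lit 630633, false, false⟩,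
 nat_lit 4831, nat_lit 1483, nat_lit 0, nat_lit 0, nat_lit 3342, nat_lit 2544, nat_lit 0, nat_lit 0, nat_lit 133, nat_lit 809, nat_lit 0, nat_lit 0, nat_lit 0, nat_lit 0, nat_lit 0, nat_lit 417200, nat_lit 0, nat_lit 0, [(nat_lit 6, [(nat_lit 5, nat_lit 533), (nat_lit 6, nat_lit 204)])],
 ⟨p010_k57, nat_lit 0, nat_lit 0, nat_lit 0, nat_lit 0, nat_lit 164304, [nat_lit 2187846401, nat_lit 1780711801, nat_lit 885480300], [], [nat_lit 12651637677, nat_lit 12693299218, nat_lit 12704365379, nat_lit 12619264023], nat_lit 1271250, nat_lit 1271250, nat_lit 88400, nat_lit 111251, nat_lit 0, nat_lit 0, [nat_lit 1100000, nat_lit 1442500, nat_lit 1271250], [nat_lit 123, nat_lit 40, nat_lit 20, nat_lit 40]⟩, ⟨p010_k61, nat_lit 0, nat_lit 0, nat_lit 0, nat_lit 0, nat_lit 165172, [nat_lit 1433218500, nat_lit 1864538500, nat_lit 2336886500], [], [nat_lit 5329290476, nat_lit 5350397848, nat_lit 5212267086,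 nat_lit 5228427614], nat_lit 1271250, nat_lit 1271250, nat_lit 88400, nat_lit 111251, nat_lit 0, nat_lit 0, [nat_lit 1271250, nat_lit 1271250, nat_lit 1271250], [nat_lit 96, nat_lit 40, nat_lit 20, nat_lit 40]⟩,
 ⟨nat_lit 6304, nat_lit 6325, ⟨.ofNat (nat_lit 163250), .ofNat (nat_lit 171477), .ofNat (nat_lit 164319), .ofNat (nat_lit 172545), .ofNat (nat_lit 164120), .ofNat (nat_lit 172327), .ofNat (nat_lit 165188), .ofNat (nat_lit 173396)⟩, ⟨.ofNat (nat_lit 0), .ofNat (nat_lit 0), .ofNat (nat_lit 0), .ofNat (nat_lit 0), .ofNat (nat_lit 0), .ofNat (nat_lit 0), .ofNat (nat_lit 0), .ofNat (nat_lit 0)⟩⟩, [⟨nat_lit 0, nat_lit 100, nat_lit 100, nat_lit 40, nat_lit 373340086⟩]⟩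
noncomputable def p010_l148 : Lf2 := ⟨nat_lit 0, nat_lit 5, [nat_lit 4, nat_lit 5, nat_lit 5, nat_lit 20], true, nat_lit 0, nat_lit 0, nat_lit 0, nat_lit 0, ⟨nat_lit 0, nat_lit 0, nat_lit 1000, nat_lit 5, nat_lit 67, nat_lit 0, nat_lit 0, nat_lit 0, nat_lit 0, nat_lit 215, nat_lit 43350, nat_lit 266, nat_lit 65153914, nat_lit 0, nat_lit 0, nat_lit 630633, false, false⟩,
 nat_lit 0, nat_lit 8149, nat_lit 0, nat_lit 0, nat_lit 4314, nat_lit 0, nat_lit 0, nat_lit 0, nat_lit 105, nat_lit 0, nat_lit 0, nat_lit 0, nat_lit 0, nat_lit 0, nat_lit 102, nat_lit 797200, nat_lit 0, nat_lit 0, [(nat_lit 6, [(nat_lit 5, nat_lit 338), (nat_lit 6, nat_lit 662)])],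
 ⟨p010_k57, nat_lit 0, nat_lit 0, nat_lit 0, nat_lit 0, nat_lit 164304, [nat_lit 2757966934, nat_lit 2206962001, nat_lit 168910200], [], [nat_lit 8444557388, nat_lit 8487575173, nat_lit 8486036328, nat_lit 8376183770], nat_lit 1271250, nat_lit 1271250, nat_lit 88400, nat_lit 111251, nat_lit 0, nat_lit 0, [nat_lit 1100000, nat_lit 1442500, nat_lit 1271250], [nat_lit 123, nat_lit 40, nat_lit 20, nat_lit 40]⟩, C1.Rw.none,
 ⟨nat_lit 6304, nat_lit 6325, ⟨.ofNat (nat_lit 163250), .ofNat (nat_lit 171477), .ofNat (nat_lit 164319), .ofNat (nat_lit 172545), .ofNat (nat_lit 164120), .ofNat (nat_lit 172327), .ofNat (nat_lit 165188), .ofNat (nat_lit 173396)⟩, ⟨.ofNat (nat_lit 0), .ofNat (nat_lit 0), .ofNat (nat_lit 0), .ofNat (nat_lit 0), .ofNat (nat_lit 0), .ofNat (nat_lit 0), .ofNat (nat_lit 0), .ofNat (nat_lit 0)⟩⟩, [⟨nat_lit 0, nat_lit 100, nat_lit 100, nat_lit 40, nat_lit 58606049⟩]⟩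
noncomputable def p010_l149 : Lf2 := ⟨nat_lit 0, nat_lit 5, [nat_lit 4, nat_lit 5, nat_lit 5, nat_lit 20], true, nat_lit 0, nat_lit 0, nat_lit 0, nat_lit 0, ⟨nat_lit 0, nat_lit 0, nat_lit 1000, nat_lit 5, nat_lit 67, nat_lit 0, nat_lit 0, nat_lit 0, nat_lit 0, nat_lit 215, nat_lit 43350, nat_lit 266, nat_lit 65153914, nat_lit 0, nat_lit 0, nat_lit 630633, false, false⟩,
 nat_lit 0, nat_lit 12194, nat_lit 0, nat_lit 0, nat_lit 6455, nat_lit 0, nat_lit 352, nat_lit 0, nat_lit 0, nat_lit 0, nat_lit 0, nat_lit 0, nat_lit 0, nat_lit 0, nat_lit 122, nat_lit 1000000, nat_lit 0, nat_lit 0, [(nat_lit 6, [(nat_lit 6, nat_lit 1000)])],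
 ⟨p010_k57, nat_lit 0, nat_lit 0, nat_lit 0, nat_lit 0, nat_lit 164304, [nat_lit 2929066667, nat_lit 2590400001, nat_lit 219800000], [], [nat_lit 10870016333, nat_lit 10872466129, nat_lit 10886717909, nat_lit 10722346498], nat_lit 1271250, nat_lit 1271250, nat_lit 88400, nat_lit 111251, nat_lit 0, nat_lit 0, [nat_lit 1100000, nat_lit 1442500, nat_lit 1271250], [nat_lit 123, nat_lit 40, nat_lit 20, nat_lit 40]⟩, C1.Rw.none,
 ⟨nat_lit 6304, nat_lit 6325, ⟨.ofNat (nat_lit 163250), .ofNat (nat_lit 171477), .ofNat (nat_lit 164319), .ofNat (nat_lit 172545), .ofNat (nat_lit 164120), .ofNat (nat_lit 172327), .ofNat (nat_lit 165188), .ofNat (nat_lit 173396)⟩, ⟨.ofNat (nat_lit 0), .ofNat (nat_lit 0), .ofNat (nat_lit 0), .ofNat (nat_lit 0), .ofNat (nat_lit 0), .ofNat (nat_lit 0), .ofNat (nat_lit 0), .ofNat (nat_lit 0)⟩⟩, [⟨nat_lit 0, nat_lit 100, nat_lit 100, nat_lit 40, nat_lit 89588198⟩]⟩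
noncomputable def p010_l150 : Lf2 := ⟨nat_lit 0, nat_lit 5, [nat_lit 4, nat_lit 5, nat_lit 5, nat_lit 20], false, nat_lit 0, nat_lit 0, nat_lit 0, nat_lit 0, ⟨nat_lit 155, nat_lit 0, nat_lit 845, nat_lit 5, nat_lit 65, nat_lit 0, nat_lit 0, nat_lit 0, nat_lit 0, nat_lit 215, nat_lit 40017, nat_lit 264, nat_lit 65289019, nat_lit 0, nat_lit 0, nat_lit 594308, false, false⟩,
 nat_lit 3034, nat_lit 6576, nat_lit 0, nat_lit 0, nat_lit 5112, nat_lit 1566, nat_lit 0, nat_lit 0, nat_lit 0, nat_lit 508, nat_lit 0, nat_lit 0, nat_lit 0, nat_lit 0, nat_lit 27, nat_lit 606200, nat_lit 0, nat_lit 0, [(nat_lit 6, [(nat_lit 5, nat_lit 398), (nat_lit 6, nat_lit 447)])],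
 ⟨p010_k52, nat_lit 0, nat_lit 0, nat_lit 0, nat_lit 0, nat_lit 159522, [nat_lit 2159593600, nat_lit 1655340001, nat_lit 127960200], [], [nat_lit 16019428933, nat_lit 16096610079, nat_lit 15505268548, nat_lit 15558399358], nat_lit 1271250, nat_lit 1271250, nat_lit 65850, nat_lit 111251, nat_lit 0, nat_lit 0, [nat_lit 1100000, nat_lit 1442500, nat_lit 1271250], [nat_lit 123, nat_lit 40, nat_lit 20, nat_lit 40]⟩, ⟨p010_k63, nat_lit 0, nat_lit 0, nat_lit 0, nat_lit 0, nat_lit 164679, [nat_lit 844672500, nat_lit 1098872500, nat_lit 1377252500], [], [nat_lit 3228419561, nat_lit 3273033583, nat_lit 3042840331, nat_lit 3075675849], nat_lit 1271250, nat_lit 1271250, nat_lit 65850, nat_lit 111251, nat_lit 0, nat_lit 0, [nat_lit 1271250, nat_lit 1271250, nat_lit 1271250], [nat_lit 96, nat_lit 40, nat_lit 20, nat_lit 40]⟩,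
 ⟨nat_lit 6284, nat_lit 6305, ⟨.ofNat (nat_lit 151640), .ofNat (nat_lit 168054), .ofNat (nat_lit 154844), .ofNat (nat_lit 171259), .ofNat (nat_lit 152527), .ofNat (nat_lit 168904), .ofNat (nat_lit 155732), .ofNat (nat_lit 172108)⟩, ⟨.ofNat (nat_lit 0), .ofNat (nat_lit 0), .ofNat (nat_lit 0), .ofNat (nat_lit 0), .ofNat (nat_lit 0), .ofNat (nat_lit 0), .ofNat (nat_lit 0), .ofNat (nat_lit 0)⟩⟩, [⟨nat_lit 0, nat_lit 100, nat_lit 100, nat_lit 40, nat_lit 666605358⟩]⟩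
noncomputable def p010_l151 : Lf2 := ⟨nat_lit 0, nat_lit 5, [nat_lit 4, nat_lit 5, nat_lit 5, nat_lit 20], false, nat_lit 0, nat_lit 0, nat_lit 0, nat_lit 0, ⟨nat_lit 205, nat_lit 0, nat_lit 795, nat_lit 5, nat_lit 66, nat_lit 0, nat_lit 0, nat_lit 0, nat_lit 0, nat_lit 215, nat_lit 40017, nat_lit 264, nat_lit 65233601, nat_lit 0, nat_lit 0, nat_lit 609304, false, false⟩,
 nat_lit 3865, nat_lit 6236, nat_lit 0, nat_lit 0, nat_lit 5373, nat_lit 2026, nat_lit 0, nat_lit 0, nat_lit 0, nat_lit 646, nat_lit 0, nat_lit 0, nat_lit 0, nat_lit 0, nat_lit 27, nat_lit 795000, nat_lit 0, nat_lit 0, [(nat_lit 6, [(nat_lit 6, nat_lit 795)])],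
 ⟨p010_k52, nat_lit 0, nat_lit 0, nat_lit 0, nat_lit 0, nat_lit 167712, [nat_lit 2169808001, nat_lit 1940818001, nat_lit 164536000], [], [nat_lit 16221462703, nat_lit 16300263254, nat_lit 15677834001, nat_lit 15730482924], nat_lit 1271250, nat_lit 1271250, nat_lit 65850, nat_lit 111251, nat_lit 0, nat_lit 0, [nat_lit 1100000, nat_lit 1442500, nat_lit 1271250], [nat_lit 123, nat_lit 40, nat_lit 20, nat_lit 40]⟩, ⟨p010_k60, nat_lit 0, nat_lit 0, nat_lit 0, nat_lit 0, nat_lit 170386, [nat_lit 1117147500, nat_lit 1453347500, nat_lit 1821527500], [], [nat_lit 4279342797, nat_lit 4318136856, nat_lit 4015701273, nat_lit 4041186160], nat_lit 1271250, nat_lit 1271250, nat_lit 65850, nat_lit 111251, nat_lit 0, nat_lit 0, [nat_lit 1271250, nat_lit 1271250, nat_lit 1271250], [nat_lit 96, nat_lit 40, nat_lit 20, nat_lit 40]⟩,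
 ⟨nat_lit 6284, nat_lit 6305, ⟨.ofNat (nat_lit 154844), .ofNat (nat_lit 171259), .ofNat (nat_lit 156981), .ofNat (nat_lit 173396), .ofNat (nat_lit 155732), .ofNat (nat_lit 172108), .ofNat (nat_lit 157868), .ofNat (nat_lit 174245)⟩, ⟨.ofNat (nat_lit 0), .ofNat (nat_lit 0), .ofNat (nat_lit 0), .ofNat (nat_lit 0), .ofNat (nat_lit 0), .ofNat (nat_lit 0), .ofNat (nat_lit 0), .ofNat (nat_lit 0)⟩⟩, [⟨nat_lit 0, nat_lit 100, nat_lit 100, nat_lit 41, nat_lit 776689053⟩]⟩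
noncomputable def b_NL_600_550_0_25 : St := ⟨false, nat_lit 1, nat_lit 1, nat_lit 1, nat_lit 20, nat_lit 240, nat_lit 242, nat_lit 235, nat_lit 240, nat_lit 12, nat_lit 20, nat_lit 0, nat_lit 0, nat_lit 0, nat_lit 0, nat_lit 0, nat_lit 0, nat_lit 20, nat_lit 24, nat_lit 0, nat_lit 600, nat_lit 0, nat_lit 800⟩
theorem d_NL_600_550_0_25 (h : EB TB.env) : Dead b_NL_600_550_0_25 := chkB_sound0 h (T :=
(.spl (nat_lit 0) (nat_lit 241)
(.spl (nat_lit 2) (nat_lit 16)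
(.spl (nat_lit 1) (nat_lit 238)
(.spl (nat_lit 1) (nat_lit 237)
(.spl (nat_lit 1) (nat_lit 236)
(.leaf p010_l112)
(.spl (nat_lit 7) (nat_lit 300)
(.leaf p010_l113)
(.spl (nat_lit 7) (nat_lit 460)
(.spl (nat_lit 7) (nat_lit 380)
(.leaf p010_l114)
(.spl (nat_lit 7) (nat_lit 420)
(.leaf p010_l115)
(.spl (nat_lit 8) (nat_lit 400)
(.leaf p010_l116)
(.leaf p010_l117))))
(.leaf p010_l118))))
(.spl (nat_lit 7) (nat_lit 300)
(.leaf p010_l119)
(.spl (nat_lit 7) (nat_lit 460)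
(.spl (nat_lit 7) (nat_lit 380)
(.leaf p010_l120)
(.spl (nat_lit 7) (nat_lit 420)
(.leaf p010_l121)
(.spl (nat_lit 7) (nat_lit 440)
(.leaf p010_l122)
(.leaf p010_l123))))
(.leaf p010_l124))))
(.spl (nat_lit 1) (nat_lit 239)
(.spl (nat_lit 7) (nat_lit 300)
(.leaf p010_l125)
(.spl (nat_lit 7) (nat_lit 460)
(.spl (nat_lit 7) (nat_lit 380)
(.leaf p010_l126)
(.spl (nat_lit 7) (nat_lit 420)
(.leaf p010_l127)
(.spl (nat_lit 7) (nat_lit 440)
(.leaf p010_l128)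
(.leaf p010_l129))))
(.leaf p010_l130)))
(.spl (nat_lit 7) (nat_lit 300)
(.leaf p010_l131)
(.spl (nat_lit 7) (nat_lit 460)
(.spl (nat_lit 7) (nat_lit 380)
(.leaf p010_l132)
(.spl (nat_lit 7) (nat_lit 420)
(.leaf p010_l133)
(.spl (nat_lit 7) (nat_lit 440)
(.leaf p010_l134)
(.leaf p010_l135))))
(.leaf p010_l136)))))
(.spl (nat_lit 1) (nat_lit 238)
(.spl (nat_lit 1) (nat_lit 237)
(.leaf p010_l137)
(.spl (nat_lit 7) (nat_lit 300)
(.leaf p010_l138)
(.spl (nat_lit 7) (nat_lit 460)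
(.leaf p010_l139)
(.leaf p010_l140))))
(.spl (nat_lit 1) (nat_lit 239)
(.spl (nat_lit 7) (nat_lit 300)
(.leaf p010_l141)
(.spl (nat_lit 7) (nat_lit 460)
(.leaf p010_l142)
(.leaf p010_l143)))
(.spl (nat_lit 7) (nat_lit 300)
(.leaf p010_l144)
(.spl (nat_lit 7) (nat_lit 460)
(.spl (nat_lit 7) (nat_lit 380)
(.leaf p010_l145)
(.spl (nat_lit 7) (nat_lit 420)
(.leaf p010_l146)
(.spl (nat_lit 7) (nat_lit 440)
(.leaf p010_l147)
(.leaf p010_l148))))
(.leaf p010_l149))))))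
(.spl (nat_lit 1) (nat_lit 238)
(.leaf p010_l150)
(.leaf p010_l151)))) (by decide +kernel)
noncomputable def p010_l152 : Lf2 := ⟨nat_lit 0, nat_lit 5, [nat_lit 4, nat_lit 5, nat_lit 5, nat_lit 20], true, nat_lit 0, nat_lit 0, nat_lit 0, nat_lit 0, ⟨nat_lit 0, nat_lit 0, nat_lit 1000, nat_lit 5, nat_lit 65, nat_lit 0, nat_lit 0, nat_lit 0, nat_lit 0, nat_lit 215, nat_lit 40017, nat_lit 264, nat_lit 65270302, nat_lit 0, nat_lit 0, nat_lit 599388, false, false⟩,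
 nat_lit 0, nat_lit 7363, nat_lit 0, nat_lit 0, nat_lit 3993, nat_lit 0, nat_lit 0, nat_lit 0, nat_lit 0, nat_lit 0, nat_lit 0, nat_lit 0, nat_lit 0, nat_lit 0, nat_lit 118, nat_lit 775000, nat_lit 0, nat_lit 0, [(nat_lit 6, [(nat_lit 5, nat_lit 375), (nat_lit 6, nat_lit 625)])],
 ⟨p010_k64, nat_lit 0, nat_lit 0, nat_lit 346, nat_lit 0, nat_lit 179253, [nat_lit 3030266667, nat_lit 2454000001, nat_lit 80199999], [], [nat_lit 14497631482, nat_lit 14791088415, nat_lit 14222382420, nat_lit 14410372012], nat_lit 1271250, nat_lit 1271250, nat_lit 65850, nat_lit 111251, nat_lit 0, nat_lit 0, [nat_lit 1100000, nat_lit 1442500, nat_lit 1271250], [nat_lit 11, nat_lit 40, nat_lit 20, nat_lit 80, nat_lit 1, nat_lit 289, nat_lit 75, nat_lit 9]⟩, C1.Rw.none,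
 ⟨nat_lit 6123, nat_lit 6225, ⟨.ofNat (nat_lit 149840), .ofNat (nat_lit 166104), .ofNat (nat_lit 155180), .ofNat (nat_lit 171443), .ofNat (nat_lit 154231), .ofNat (nat_lit 170308), .ofNat (nat_lit 159568), .ofNat (nat_lit 175645)⟩, ⟨.ofNat (nat_lit 0), .ofNat (nat_lit 0), .ofNat (nat_lit 0), .ofNat (nat_lit 0), .ofNat (nat_lit 0), .ofNat (nat_lit 0), .ofNat (nat_lit 0), .ofNat (nat_lit 0)⟩⟩, [⟨nat_lit 0, nat_lit 100, nat_lit 98, nat_lit 40, nat_lit 310704507⟩]⟩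
noncomputable def p010_l153 : Lf2 := ⟨nat_lit 0, nat_lit 5, [nat_lit 4, nat_lit 5, nat_lit 5, nat_lit 20], true, nat_lit 0, nat_lit 0, nat_lit 0, nat_lit 0, ⟨nat_lit 0, nat_lit 0, nat_lit 1000, nat_lit 5, nat_lit 68, nat_lit 0, nat_lit 0, nat_lit 0, nat_lit 0, nat_lit 215, nat_lit 43350, nat_lit 266, nat_lit 65130865, nat_lit 0, nat_lit 0, nat_lit 636752, false, false⟩,
 nat_lit 0, nat_lit 7422, nat_lit 0, nat_lit 0, nat_lit 4025, nat_lit 0, nat_lit 0, nat_lit 0, nat_lit 0, nat_lit 0, nat_lit 0, nat_lit 0, nat_lit 0, nat_lit 0, nat_lit 126, nat_lit 839800, nat_lit 0, nat_lit 0, [(nat_lit 6, [(nat_lit 5, nat_lit 267), (nat_lit 6, nat_lit 733)])],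
 ⟨p010_k64, nat_lit 0, nat_lit 0, nat_lit 337, nat_lit 0, nat_lit 173269, [nat_lit 3110689067, nat_lit 2616419201, nat_lit 98395199], [], [nat_lit 14080703647, nat_lit 14090996522, nat_lit 14126286644, nat_lit 14023793239], nat_lit 1271250, nat_lit 1271250, nat_lit 88400, nat_lit 111251, nat_lit 0, nat_lit 0, [nat_lit 1100000, nat_lit 1442500, nat_lit 1271250], [nat_lit 11, nat_lit 40, nat_lit 20, nat_lit 80, nat_lit 1, nat_lit 289, nat_lit 75, nat_lit 9]⟩, C1.Rw.none,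
 ⟨nat_lit 6204, nat_lit 6225, ⟨.ofNat (nat_lit 163311), .ofNat (nat_lit 171443), .ofNat (nat_lit 166515), .ofNat (nat_lit 174647), .ofNat (nat_lit 164173), .ofNat (nat_lit 172286), .ofNat (nat_lit 167377), .ofNat (nat_lit 175490)⟩, ⟨.ofNat (nat_lit 0), .ofNat (nat_lit 0), .ofNat (nat_lit 0), .ofNat (nat_lit 0), .ofNat (nat_lit 0), .ofNat (nat_lit 0), .ofNat (nat_lit 0), .ofNat (nat_lit 0)⟩⟩, [⟨nat_lit 0, nat_lit 100, nat_lit 99, nat_lit 42, nat_lit 51832175⟩]⟩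
noncomputable def p010_l154 : Lf2 := ⟨nat_lit 0, nat_lit 5, [nat_lit 4, nat_lit 5, nat_lit 5, nat_lit 20], true, nat_lit 0, nat_lit 0, nat_lit 0, nat_lit 0, ⟨nat_lit 0, nat_lit 0, nat_lit 1000, nat_lit 5, nat_lit 68, nat_lit 0, nat_lit 0, nat_lit 0, nat_lit 0, nat_lit 215, nat_lit 43350, nat_lit 266, nat_lit 65112553, nat_lit 0, nat_lit 0, nat_lit 641598, false, false⟩,
 nat_lit 0, nat_lit 7344, nat_lit 0, nat_lit 0, nat_lit 4002, nat_lit 0, nat_lit 0, nat_lit 0, nat_lit 0, nat_lit 0, nat_lit 0, nat_lit 0, nat_lit 0, nat_lit 0, nat_lit 132, nat_lit 881200, nat_lit 0, nat_lit 0, [(nat_lit 6, [(nat_lit 5, nat_lit 198), (nat_lit 6, nat_lit 802)])],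
 ⟨p010_k65, nat_lit 0, nat_lit 0, nat_lit 339, nat_lit 0, nat_lit 176751, [nat_lit 3176292267, nat_lit 2737964801, nat_lit 134908799], [], [nat_lit 13989427488, nat_lit 14007742099, nat_lit 14035423355, nat_lit 13933515627], nat_lit 1271250, nat_lit 1271250, nat_lit 88400, nat_lit 111251, nat_lit 0, nat_lit 0, [nat_lit 1100000, nat_lit 1442500, nat_lit 1271250], [nat_lit 11, nat_lit 40, nat_lit 20, nat_lit 80, nat_lit 1, nat_lit 289, nat_lit 75, nat_lit 9]⟩, C1.Rw.none,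
 ⟨nat_lit 6184, nat_lit 6205, ⟨.ofNat (nat_lit 164173), .ofNat (nat_lit 172286), .ofNat (nat_lit 167377), .ofNat (nat_lit 175490), .ofNat (nat_lit 165034), .ofNat (nat_lit 173128), .ofNat (nat_lit 168237), .ofNat (nat_lit 176331)⟩, ⟨.ofNat (nat_lit 0), .ofNat (nat_lit 0), .ofNat (nat_lit 0), .ofNat (nat_lit 0), .ofNat (nat_lit 0), .ofNat (nat_lit 0), .ofNat (nat_lit 0), .ofNat (nat_lit 0)⟩⟩, [⟨nat_lit 0, nat_lit 100, nat_lit 99, nat_lit 42, nat_lit 50783716⟩]⟩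
noncomputable def p010_l155 : Lf2 := ⟨nat_lit 0, nat_lit 5, [nat_lit 4, nat_lit 5, nat_lit 5, nat_lit 20], false, nat_lit 0, nat_lit 0, nat_lit 0, nat_lit 0, ⟨nat_lit 225, nat_lit 0, nat_lit 775, nat_lit 5, nat_lit 69, nat_lit 0, nat_lit 0, nat_lit 0, nat_lit 0, nat_lit 215, nat_lit 43350, nat_lit 266, nat_lit 65084797, nat_lit 0, nat_lit 0, nat_lit 648918, false, false⟩,
 nat_lit 4257, nat_lit 5020, nat_lit 0, nat_lit 0, nat_lit 5031, nat_lit 2231, nat_lit 512, nat_lit 0, nat_lit 0, nat_lit 709, nat_lit 0, nat_lit 0, nat_lit 0, nat_lit 0, nat_lit 19, nat_lit 652000, nat_lit 0, nat_lit 0, [(nat_lit 6, [(nat_lit 5, nat_lit 205), (nat_lit 6, nat_lit 570)])],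
 ⟨p010_k64, nat_lit 0, nat_lit 0, nat_lit 339, nat_lit 0, nat_lit 177233, [nat_lit 2206336000, nat_lit 1861018001, nat_lit 49737999], [], [nat_lit 16017482773, nat_lit 16091281932, nat_lit 15817733819, nat_lit 15818236551], nat_lit 1271250, nat_lit 1271250, nat_lit 88400, nat_lit 111251, nat_lit 0, nat_lit 0, [nat_lit 1100000, nat_lit 1442500, nat_lit 1271250], [nat_lit 11, nat_lit 40, nat_lit 20, nat_lit 80, nat_lit 1, nat_lit 289, nat_lit 75, nat_lit 9]⟩, ⟨p010_k60, nat_lit 0, nat_lit 0, nat_lit 0, nat_lit 0, nat_lit 183846, [nat_lit 1226137500, nat_lit 1595137500, nat_lit 1999237500], [], [nat_lit 4544872272, nat_lit 4566239494, nat_lit 4395321145, nat_lit 4409760567], nat_lit 1271250, nat_lit 1271250, nat_lit 88400, nat_lit 111251, nat_lit 0, nat_lit 0, [nat_lit 1271250, nat_lit 1271250, nat_lit 1271250], [nat_lit 96, nat_lit 40, nat_lit 20, nat_lit 40]⟩,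
 ⟨nat_lit 6204, nat_lit 6225, ⟨.ofNat (nat_lit 166515), .ofNat (nat_lit 174647), .ofNat (nat_lit 167583), .ofNat (nat_lit 175714), .ofNat (nat_lit 167377), .ofNat (nat_lit 175490), .ofNat (nat_lit 168444), .ofNat (nat_lit 176557)⟩, ⟨.ofNat (nat_lit 0), .ofNat (nat_lit 0), .ofNat (nat_lit 0), .ofNat (nat_lit 0), .ofNat (nat_lit 0), .ofNat (nat_lit 0), .ofNat (nat_lit 0), .ofNat (nat_lit 0)⟩⟩, [⟨nat_lit 0, nat_lit 100, nat_lit 99, nat_lit 42, nat_lit 790028914⟩]⟩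
noncomputable def p010_l156 : Lf2 := ⟨nat_lit 3, nat_lit 5, [nat_lit 4, nat_lit 5, nat_lit 5, nat_lit 20], false, nat_lit 0, nat_lit 0, nat_lit 0, nat_lit 0, zbN0,
 nat_lit 0, nat_lit 0, nat_lit 0, nat_lit 0, nat_lit 0, nat_lit 0, nat_lit 0, nat_lit 0, nat_lit 0, nat_lit 0, nat_lit 0, nat_lit 0, nat_lit 0, nat_lit 0, nat_lit 0, nat_lit 0, nat_lit 0, nat_lit 0, [],
 C1.Rw.none, ⟨p010_k66, nat_lit 0, nat_lit 0, nat_lit 340, nat_lit 0, nat_lit 183846, [], [], [], nat_lit 1271250, nat_lit 1271250, nat_lit 88400, nat_lit 111251, nat_lit 0, nat_lit 0, [nat_lit 1412500, nat_lit 1271250], [nat_lit 51, nat_lit 40, nat_lit 20, nat_lit 80, nat_lit 1, nat_lit 289, nat_lit 75, nat_lit 9]⟩,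
 zbF0, []⟩
noncomputable def p010_l157 : Lf2 := ⟨nat_lit 0, nat_lit 5, [nat_lit 4, nat_lit 5, nat_lit 5, nat_lit 20], false, nat_lit 0, nat_lit 0, nat_lit 0, nat_lit 0, ⟨nat_lit 229, nat_lit 0, nat_lit 771, nat_lit 5, nat_lit 69, nat_lit 0, nat_lit 0, nat_lit 0, nat_lit 0, nat_lit 215, nat_lit 45067, nat_lit 267, nat_lit 65061575, nat_lit 0, nat_lit 0, nat_lit 655018, false, false⟩,
 nat_lit 4250, nat_lit 5059, nat_lit 0, nat_lit 0, nat_lit 5049, nat_lit 2238, nat_lit 527, nat_lit 0, nat_lit 0, nat_lit 709, nat_lit 0, nat_lit 0, nat_lit 0, nat_lit 0, nat_lit 17, nat_lit 643200, nat_lit 0, nat_lit 0, [(nat_lit 6, [(nat_lit 5, nat_lit 213), (nat_lit 6, nat_lit 558)])],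
 ⟨p010_k64, nat_lit 0, nat_lit 0, nat_lit 340, nat_lit 0, nat_lit 181197, [nat_lit 2192704001, nat_lit 1845429201, nat_lit 63480399], [], [nat_lit 16051201431, nat_lit 16124290105, nat_lit 15848817396, nat_lit 15850966069], nat_lit 1271250, nat_lit 1271250, nat_lit 88400, nat_lit 111251, nat_lit 0, nat_lit 0, [nat_lit 1100000, nat_lit 1442500, nat_lit 1271250], [nat_lit 11, nat_lit 40, nat_lit 20, nat_lit 80, nat_lit 1, nat_lit 289, nat_lit 75, nat_lit 9]⟩, ⟨p010_k61, nat_lit 0, nat_lit 0, nat_lit 0, nat_lit 0, nat_lit 186966, [nat_lit 1247935500, nat_lit 1623495500, nat_lit 2034779500], [], [nat_lit 4638964579, nat_lit 4660514698, nat_lit 4493496705, nat_lit 4507645582], nat_lit 1271250, nat_lit 1271250, nat_lit 88400, nat_lit 111251, nat_lit 0, nat_lit 0, [nat_lit 1271250, nat_lit 1271250, nat_lit 1271250], [nat_lit 96, nat_lit 40, nat_lit 20, nat_lit 40]⟩,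
 ⟨nat_lit 6204, nat_lit 6225, ⟨.ofNat (nat_lit 167583), .ofNat (nat_lit 175714), .ofNat (nat_lit 168651), .ofNat (nat_lit 176782), .ofNat (nat_lit 168444), .ofNat (nat_lit 176557), .ofNat (nat_lit 169512), .ofNat (nat_lit 177625)⟩, ⟨.ofNat (nat_lit 0), .ofNat (nat_lit 0), .ofNat (nat_lit 0), .ofNat (nat_lit 0), .ofNat (nat_lit 0), .ofNat (nat_lit 0), .ofNat (nat_lit 0), .ofNat (nat_lit 0)⟩⟩, [⟨nat_lit 0, nat_lit 100, nat_lit 99, nat_lit 42, nat_lit 794424052⟩]⟩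
noncomputable def p010_l158 : Lf2 := ⟨nat_lit 3, nat_lit 5, [nat_lit 4, nat_lit 5, nat_lit 5, nat_lit 20], false, nat_lit 0, nat_lit 0, nat_lit 0, nat_lit 0, zbN0,
 nat_lit 0, nat_lit 0, nat_lit 0, nat_lit 0, nat_lit 0, nat_lit 0, nat_lit 0, nat_lit 0, nat_lit 0, nat_lit 0, nat_lit 0, nat_lit 0, nat_lit 0, nat_lit 0, nat_lit 0, nat_lit 0, nat_lit 0, nat_lit 0, [],
 C1.Rw.none, ⟨p010_k67, nat_lit 0, nat_lit 0, nat_lit 341, nat_lit 0, nat_lit 186966, [], [], [], nat_lit 1271250, nat_lit 1271250, nat_lit 88400, nat_lit 111251, nat_lit 0, nat_lit 0, [nat_lit 1412500, nat_lit 1271250], [nat_lit 51, nat_lit 40, nat_lit 20, nat_lit 80, nat_lit 1, nat_lit 289, nat_lit 75, nat_lit 9]⟩,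
 zbF0, []⟩
noncomputable def p010_l159 : Lf2 := ⟨nat_lit 0, nat_lit 5, [nat_lit 4, nat_lit 5, nat_lit 5, nat_lit 20], false, nat_lit 0, nat_lit 0, nat_lit 0, nat_lit 0, ⟨nat_lit 451, nat_lit 0, nat_lit 549, nat_lit 5, nat_lit 69, nat_lit 0, nat_lit 0, nat_lit 0, nat_lit 0, nat_lit 215, nat_lit 45067, nat_lit 267, nat_lit 65066284, nat_lit 0, nat_lit 0, nat_lit 653783, false, false⟩,
 nat_lit 8528, nat_lit 2510, nat_lit 0, nat_lit 0, nat_lit 6016, nat_lit 4470, nat_lit 1416, nat_lit 0, nat_lit 0, nat_lit 1420, nat_lit 0, nat_lit 0, nat_lit 0, nat_lit 0, nat_lit 0, nat_lit 219600, nat_lit 0, nat_lit 0, [(nat_lit 6, [(nat_lit 5, nat_lit 549)])],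
 ⟨p010_k65, nat_lit 0, nat_lit 0, nat_lit 340, nat_lit 0, nat_lit 180670, [nat_lit 2892550400, nat_lit 2862670000, nat_lit 3382026800], [], [nat_lit 17611000140, nat_lit 17691796372, nat_lit 17293694604, nat_lit 17357594082], nat_lit 1271250, nat_lit 1271250, nat_lit 88400, nat_lit 111251, nat_lit 0, nat_lit 0, [nat_lit 1100000, nat_lit 1442500, nat_lit 1271250], [nat_lit 11, nat_lit 40, nat_lit 20, nat_lit 80, nat_lit 1, nat_lit 289, nat_lit 75, nat_lit 9]⟩, ⟨p010_k60, nat_lit 0, nat_lit 0, nat_lit 0, nat_lit 0, nat_lit 188382, [nat_lit 2457724500, nat_lit 3197364500, nat_lit 4007360500], [], [nat_lit 9111584352, nat_lit 9154402210, nat_lit 8815012662, nat_lit 8843480588], nat_lit 1271250, nat_lit 1271250, nat_lit 88400, nat_lit 111251, nat_lit 0, nat_lit 0, [nat_lit 1271250, nat_lit 1271250, nat_lit 1271250], [nat_lit 96, nat_lit 40, nat_lit 20, nat_lit 40]⟩,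
 ⟨nat_lit 6184, nat_lit 6205, ⟨.ofNat (nat_lit 167377), .ofNat (nat_lit 175490), .ofNat (nat_lit 168444), .ofNat (nat_lit 176557), .ofNat (nat_lit 168237), .ofNat (nat_lit 176331), .ofNat (nat_lit 169305), .ofNat (nat_lit 177399)⟩, ⟨.ofNat (nat_lit 0), .ofNat (nat_lit 0), .ofNat (nat_lit 0), .ofNat (nat_lit 0), .ofNat (nat_lit 0), .ofNat (nat_lit 0), .ofNat (nat_lit 0), .ofNat (nat_lit 0)⟩⟩, [⟨nat_lit 0, nat_lit 100, nat_lit 99, nat_lit 42, nat_lit 1219611625⟩]⟩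
noncomputable def p010_l160 : Lf2 := ⟨nat_lit 3, nat_lit 5, [nat_lit 4, nat_lit 5, nat_lit 5, nat_lit 20], false, nat_lit 0, nat_lit 0, nat_lit 0, nat_lit 0, zbN0,
 nat_lit 0, nat_lit 0, nat_lit 0, nat_lit 0, nat_lit 0, nat_lit 0, nat_lit 0, nat_lit 0, nat_lit 0, nat_lit 0, nat_lit 0, nat_lit 0, nat_lit 0, nat_lit 0, nat_lit 0, nat_lit 0, nat_lit 0, nat_lit 0, [],
 C1.Rw.none, ⟨p010_k66, nat_lit 0, nat_lit 0, nat_lit 341, nat_lit 0, nat_lit 188382, [], [], [], nat_lit 1271250, nat_lit 1271250, nat_lit 88400, nat_lit 111251, nat_lit 0, nat_lit 0, [nat_lit 1412500, nat_lit 1271250], [nat_lit 51, nat_lit 40, nat_lit 20, nat_lit 80, nat_lit 1, nat_lit 289, nat_lit 75, nat_lit 9]⟩,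
 zbF0, []⟩
noncomputable def p010_l161 : Lf2 := ⟨nat_lit 0, nat_lit 5, [nat_lit 4, nat_lit 5, nat_lit 5, nat_lit 20], false, nat_lit 0, nat_lit 0, nat_lit 0, nat_lit 0, ⟨nat_lit 723, nat_lit 0, nat_lit 277, nat_lit 5, nat_lit 69, nat_lit 0, nat_lit 0, nat_lit 0, nat_lit 0, nat_lit 215, nat_lit 45067, nat_lit 267, nat_lit 65042963, nat_lit 0, nat_lit 0, nat_lit 659892, false, false⟩,
 nat_lit 13452, nat_lit 0, nat_lit 0, nat_lit 0, nat_lit 7331, nat_lit 7086, nat_lit 2142, nat_lit 0, nat_lit 0, nat_lit 2247, nat_lit 0, nat_lit 0, nat_lit 0, nat_lit 0, nat_lit 0, nat_lit 110800, nat_lit 0, nat_lit 0, [(nat_lit 6, [(nat_lit 5, nat_lit 277)])],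
 ⟨p010_k65, nat_lit 0, nat_lit 0, nat_lit 342, nat_lit 0, nat_lit 184590, [nat_lit 3782099200, nat_lit 4540910000, nat_lit 6582596400], [], [nat_lit 19355386732, nat_lit 19446617340, nat_lit 18959374067, nat_lit 19029719951], nat_lit 1271250, nat_lit 1271250, nat_lit 88400, nat_lit 111251, nat_lit 0, nat_lit 0, [nat_lit 1100000, nat_lit 1442500, nat_lit 1271250], [nat_lit 11, nat_lit 40, nat_lit 20, nat_lit 80, nat_lit 1, nat_lit 289, nat_lit 75, nat_lit 9]⟩, ⟨p010_k61, nat_lit 0, nat_lit 0, nat_lit 0, nat_lit 0, nat_lit 191452, [nat_lit 3939988500, nat_lit 5125708500, nat_lit 6424216500], [], [nat_lit 14637074087, nat_lit 14705233897, nat_lit 14140421038, nat_lit 14208687507], nat_lit 1271250, nat_lit 1271250, nat_lit 88400, nat_lit 111251, nat_lit 0, nat_lit 0, [nat_lit 1271250, nat_lit 1271250, nat_lit 1271250], [nat_lit 96, nat_lit 40, nat_lit 20, nat_lit 40]⟩,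
 ⟨nat_lit 6184, nat_lit 6205, ⟨.ofNat (nat_lit 168444), .ofNat (nat_lit 176557), .ofNat (nat_lit 169512), .ofNat (nat_lit 177625), .ofNat (nat_lit 169305), .ofNat (nat_lit 177399), .ofNat (nat_lit 170372), .ofNat (nat_lit 178466)⟩, ⟨.ofNat (nat_lit 0), .ofNat (nat_lit 0), .ofNat (nat_lit 0), .ofNat (nat_lit 0), .ofNat (nat_lit 0), .ofNat (nat_lit 0), .ofNat (nat_lit 0), .ofNat (nat_lit 0)⟩⟩, [⟨nat_lit 0, nat_lit 100, nat_lit 99, nat_lit 42, nat_lit 1739985941⟩]⟩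
noncomputable def p010_l162 : Lf2 := ⟨nat_lit 3, nat_lit 5, [nat_lit 4, nat_lit 5, nat_lit 5, nat_lit 20], false, nat_lit 0, nat_lit 0, nat_lit 0, nat_lit 0, zbN0,
 nat_lit 0, nat_lit 0, nat_lit 0, nat_lit 0, nat_lit 0, nat_lit 0, nat_lit 0, nat_lit 0, nat_lit 0, nat_lit 0, nat_lit 0, nat_lit 0, nat_lit 0, nat_lit 0, nat_lit 0, nat_lit 0, nat_lit 0, nat_lit 0, [],
 C1.Rw.none, ⟨p010_k67, nat_lit 0, nat_lit 0, nat_lit 342, nat_lit 0, nat_lit 191452, [], [], [], nat_lit 1271250, nat_lit 1271250, nat_lit 88400, nat_lit 111251, nat_lit 0, nat_lit 0, [nat_lit 1412500, nat_lit 1271250], [nat_lit 51, nat_lit 40, nat_lit 20, nat_lit 80, nat_lit 1, nat_lit 289, nat_lit 75, nat_lit 9]⟩,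
 zbF0, []⟩
noncomputable def p010_l163 : Lf2 := ⟨nat_lit 0, nat_lit 5, [nat_lit 4, nat_lit 5, nat_lit 5, nat_lit 20], true, nat_lit 0, nat_lit 0, nat_lit 0, nat_lit 0, ⟨nat_lit 0, nat_lit 0, nat_lit 1000, nat_lit 5, nat_lit 68, nat_lit 0, nat_lit 0, nat_lit 0, nat_lit 0, nat_lit 215, nat_lit 43350, nat_lit 266, nat_lit 65094192, nat_lit 0, nat_lit 0, nat_lit 646444, false, false⟩,
 nat_lit 0, nat_lit 7315, nat_lit 0, nat_lit 0, nat_lit 4006, nat_lit 0, nat_lit 0, nat_lit 0, nat_lit 0, nat_lit 0, nat_lit 0, nat_lit 0, nat_lit 0, nat_lit 0, nat_lit 129, nat_lit 863200, nat_lit 0, nat_lit 0, [(nat_lit 6, [(nat_lit 5, nat_lit 228), (nat_lit 6, nat_lit 772)])],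
 ⟨p010_k68, nat_lit 0, nat_lit 0, nat_lit 341, nat_lit 0, nat_lit 180196, [nat_lit 3141508267, nat_lit 2677292800, nat_lit 108076800], [], [nat_lit 14072032842, nat_lit 14133153287, nat_lit 13938514339, nat_lit 13959096613], nat_lit 1271250, nat_lit 1271250, nat_lit 88400, nat_lit 111251, nat_lit 0, nat_lit 0, [nat_lit 1100000, nat_lit 1442500, nat_lit 1271250], [nat_lit 11, nat_lit 40, nat_lit 20, nat_lit 80, nat_lit 1, nat_lit 289, nat_lit 75, nat_lit 9]⟩, C1.Rw.none,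
 ⟨nat_lit 6164, nat_lit 6185, ⟨.ofNat (nat_lit 165034), .ofNat (nat_lit 173128), .ofNat (nat_lit 168237), .ofNat (nat_lit 176331), .ofNat (nat_lit 165893), .ofNat (nat_lit 173968), .ofNat (nat_lit 169096), .ofNat (nat_lit 177171)⟩, ⟨.ofNat (nat_lit 0), .ofNat (nat_lit 0), .ofNat (nat_lit 0), .ofNat (nat_lit 0), .ofNat (nat_lit 0), .ofNat (nat_lit 0), .ofNat (nat_lit 0), .ofNat (nat_lit 0)⟩⟩, [⟨nat_lit 0, nat_lit 100, nat_lit 99, nat_lit 43, nat_lit 308743628⟩]⟩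
noncomputable def p010_l164 : Lf2 := ⟨nat_lit 0, nat_lit 5, [nat_lit 4, nat_lit 5, nat_lit 5, nat_lit 20], true, nat_lit 0, nat_lit 0, nat_lit 0, nat_lit 0, ⟨nat_lit 0, nat_lit 0, nat_lit 1000, nat_lit 5, nat_lit 69, nat_lit 0, nat_lit 0, nat_lit 0, nat_lit 0, nat_lit 215, nat_lit 45067, nat_lit 267, nat_lit 65047722, nat_lit 0, nat_lit 0, nat_lit 658647, false, false⟩,
 nat_lit 0, nat_lit 7401, nat_lit 0, nat_lit 0, nat_lit 4053, nat_lit 0, nat_lit 0, nat_lit 0, nat_lit 0, nat_lit 0, nat_lit 0, nat_lit 0, nat_lit 0, nat_lit 0, nat_lit 130, nat_lit 867400, nat_lit 0, nat_lit 0, [(nat_lit 6, [(nat_lit 5, nat_lit 221), (nat_lit 6, nat_lit 779)])],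
 ⟨p010_k68, nat_lit 0, nat_lit 0, nat_lit 342, nat_lit 0, nat_lit 184071, [nat_lit 3154424534, nat_lit 2697449601, nat_lit 122737599], [], [nat_lit 14090700748, nat_lit 14157533203, nat_lit 13854983102, nat_lit 13897592829], nat_lit 1271250, nat_lit 1271250, nat_lit 88400, nat_lit 111251, nat_lit 0, nat_lit 0, [nat_lit 1100000, nat_lit 1442500, nat_lit 1271250], [nat_lit 11, nat_lit 40, nat_lit 20, nat_lit 80, nat_lit 1, nat_lit 289, nat_lit 75, nat_lit 9]⟩, C1.Rw.none,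
 ⟨nat_lit 6164, nat_lit 6185, ⟨.ofNat (nat_lit 168237), .ofNat (nat_lit 176331), .ofNat (nat_lit 169305), .ofNat (nat_lit 177399), .ofNat (nat_lit 169096), .ofNat (nat_lit 177171), .ofNat (nat_lit 170163), .ofNat (nat_lit 178239)⟩, ⟨.ofNat (nat_lit 0), .ofNat (nat_lit 0), .ofNat (nat_lit 0), .ofNat (nat_lit 0), .ofNat (nat_lit 0), .ofNat (nat_lit 0), .ofNat (nat_lit 0), .ofNat (nat_lit 0)⟩⟩, [⟨nat_lit 0, nat_lit 100, nat_lit 99, nat_lit 43, nat_lit 437351007⟩]⟩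
noncomputable def p010_l165 : Lf2 := ⟨nat_lit 0, nat_lit 5, [nat_lit 4, nat_lit 5, nat_lit 5, nat_lit 20], false, nat_lit 0, nat_lit 0, nat_lit 0, nat_lit 0, ⟨nat_lit 143, nat_lit 0, nat_lit 857, nat_lit 5, nat_lit 70, nat_lit 0, nat_lit 0, nat_lit 0, nat_lit 0, nat_lit 215, nat_lit 45067, nat_lit 267, nat_lit 65024300, nat_lit 0, nat_lit 0, nat_lit 664765, false, false⟩,
 nat_lit 3125, nat_lit 5359, nat_lit 0, nat_lit 0, nat_lit 4646, nat_lit 1646, nat_lit 299, nat_lit 0, nat_lit 0, nat_lit 459, nat_lit 0, nat_lit 0, nat_lit 0, nat_lit 0, nat_lit 71, nat_lit 819800, nat_lit 0, nat_lit 0, [(nat_lit 6, [(nat_lit 5, nat_lit 62), (nat_lit 6, nat_lit 795)])],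
 ⟨p010_k68, nat_lit 0, nat_lit 0, nat_lit 343, nat_lit 0, nat_lit 187947, [nat_lit 2671043200, nat_lit 2400118001, nat_lit 116036399], [], [nat_lit 15168370706, nat_lit 15239709902, nat_lit 14893786478, nat_lit 14935821587], nat_lit 1271250, nat_lit 1271250, nat_lit 88400, nat_lit 111251, nat_lit 0, nat_lit 0, [nat_lit 1100000, nat_lit 1442500, nat_lit 1271250], [nat_lit 11, nat_lit 40, nat_lit 20, nat_lit 80, nat_lit 1, nat_lit 289, nat_lit 75, nat_lit 9]⟩, ⟨p010_k69, nat_lit 0, nat_lit 0, nat_lit 359, nat_lit 0, nat_lit 195938, [nat_lit 893750000, nat_lit 1139424000, nat_lit 1407406000], [], [nat_lit 3178580641, nat_lit 3200416940, nat_lit 3114184922, nat_lit 3075834524], nat_lit 1271250, nat_lit 1271250, nat_lit 88400, nat_lit 111251, nat_lit 0, nat_lit 0, [nat_lit 1412500, nat_lit 1271250, nat_lit 1271250], [nat_lit 25, nat_lit 40, nat_lit 20, nat_lit 80, nat_lit 17, nat_lit 289, nat_lit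 75, nat_lit 9]⟩,
 ⟨nat_lit 6164, nat_lit 6185, ⟨.ofNat (nat_lit 169305), .ofNat (nat_lit 177399), .ofNat (nat_lit 170372), .ofNat (nat_lit 178466), .ofNat (nat_lit 170163), .ofNat (nat_lit 178239), .ofNat (nat_lit 171231), .ofNat (nat_lit 179306)⟩, ⟨.ofNat (nat_lit 0), .ofNat (nat_lit 0), .ofNat (nat_lit 0), .ofNat (nat_lit 0), .ofNat (nat_lit 0), .ofNat (nat_lit 0), .ofNat (nat_lit 0), .ofNat (nat_lit 0)⟩⟩, [⟨nat_lit 0, nat_lit 100, nat_lit 99, nat_lit 43, nat_lit 739176373⟩]⟩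
noncomputable def p010_l166 : Lf2 := ⟨nat_lit 0, nat_lit 5, [nat_lit 4, nat_lit 5, nat_lit 5, nat_lit 20], true, nat_lit 0, nat_lit 0, nat_lit 0, nat_lit 0, ⟨nat_lit 0, nat_lit 0, nat_lit 1000, nat_lit 5, nat_lit 69, nat_lit 0, nat_lit 0, nat_lit 0, nat_lit 0, nat_lit 215, nat_lit 45067, nat_lit 267, nat_lit 65043248, nat_lit 0, nat_lit 0, nat_lit 659817, false, false⟩,
 nat_lit 0, nat_lit 7364, nat_lit 0, nat_lit 0, nat_lit 4052, nat_lit 0, nat_lit 135, nat_lit 0, nat_lit 0, nat_lit 0, nat_lit 0, nat_lit 0, nat_lit 0, nat_lit 0, nat_lit 118, nat_lit 775000, nat_lit 0, nat_lit 0, [(nat_lit 6, [(nat_lit 5, nat_lit 375), (nat_lit 6, nat_lit 625)])],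
 ⟨p010_k70, nat_lit 0, nat_lit 0, nat_lit 347, nat_lit 0, nat_lit 195549, [nat_lit 3030266667, nat_lit 2454000001, nat_lit 80199999], [], [nat_lit 13976849318, nat_lit 14110499028, nat_lit 13757071765, nat_lit 13867716825], nat_lit 1271250, nat_lit 1271250, nat_lit 88400, nat_lit 111251, nat_lit 0, nat_lit 0, [nat_lit 1100000, nat_lit 1442500, nat_lit 1271250], [nat_lit 11, nat_lit 40, nat_lit 20, nat_lit 80, nat_lit 1, nat_lit 289, nat_lit 75, nat_lit 9]⟩, C1.Rw.none,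
 ⟨nat_lit 6123, nat_lit 6165, ⟨.ofNat (nat_lit 165893), .ofNat (nat_lit 173968), .ofNat (nat_lit 171231), .ofNat (nat_lit 179306), .ofNat (nat_lit 167607), .ofNat (nat_lit 175645), .ofNat (nat_lit 172944), .ofNat (nat_lit 180982)⟩, ⟨.ofNat (nat_lit 0), .ofNat (nat_lit 0), .ofNat (nat_lit 0), .ofNat (nat_lit 0), .ofNat (nat_lit 0), .ofNat (nat_lit 0), .ofNat (nat_lit 0), .ofNat (nat_lit 0)⟩⟩, [⟨nat_lit 0, nat_lit 100, nat_lit 99, nat_lit 43, nat_lit 436758665⟩]⟩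
noncomputable def p010_l167 : Lf2 := ⟨nat_lit 0, nat_lit 5, [nat_lit 4, nat_lit 5, nat_lit 5, nat_lit 20], true, nat_lit 0, nat_lit 0, nat_lit 0, nat_lit 0, ⟨nat_lit 0, nat_lit 0, nat_lit 1000, nat_lit 5, nat_lit 66, nat_lit 0, nat_lit 0, nat_lit 0, nat_lit 0, nat_lit 215, nat_lit 41667, nat_lit 265, nat_lit 65214642, nat_lit 0, nat_lit 0, nat_lit 614403, false, false⟩,
 nat_lit 0, nat_lit 7559, nat_lit 0, nat_lit 0, nat_lit 4100, nat_lit 0, nat_lit 0, nat_lit 0, nat_lit 0, nat_lit 0, nat_lit 0, nat_lit 0, nat_lit 0, nat_lit 0, nat_lit 119, nat_lit 782800, nat_lit 0, nat_lit 0, [(nat_lit 6, [(nat_lit 5, nat_lit 362), (nat_lit 6, nat_lit 638)])],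
 ⟨p010_k64, nat_lit 0, nat_lit 0, nat_lit 339, nat_lit 0, nat_lit 161273, [nat_lit 3040539734, nat_lit 2474291201, nat_lit 83427199], [], [nat_lit 14525802239, nat_lit 14861741040, nat_lit 14038826836, nat_lit 14334901399], nat_lit 1271250, nat_lit 1271250, nat_lit 65850, nat_lit 111251, nat_lit 0, nat_lit 0, [nat_lit 1100000, nat_lit 1442500, nat_lit 1271250], [nat_lit 11, nat_lit 40, nat_lit 20, nat_lit 80, nat_lit 1, nat_lit 289, nat_lit 75, nat_lit 9]⟩, C1.Rw.none,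
 ⟨nat_lit 6123, nat_lit 6225, ⟨.ofNat (nat_lit 149840), .ofNat (nat_lit 166104), .ofNat (nat_lit 160519), .ofNat (nat_lit 176782), .ofNat (nat_lit 154231), .ofNat (nat_lit 170308), .ofNat (nat_lit 164905), .ofNat (nat_lit 180982)⟩, ⟨.ofNat (nat_lit 0), .ofNat (nat_lit 0), .ofNat (nat_lit 0), .ofNat (nat_lit 0), .ofNat (nat_lit 0), .ofNat (nat_lit 0), .ofNat (nat_lit 0), .ofNat (nat_lit 0)⟩⟩, [⟨nat_lit 0, nat_lit 100, nat_lit 99, nat_lit 41, nat_lit 441567220⟩]⟩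
noncomputable def p010_l168 : Lf2 := ⟨nat_lit 0, nat_lit 5, [nat_lit 4, nat_lit 5, nat_lit 5, nat_lit 20], true, nat_lit 0, nat_lit 0, nat_lit 0, nat_lit 0, ⟨nat_lit 0, nat_lit 0, nat_lit 1000, nat_lit 5, nat_lit 66, nat_lit 0, nat_lit 0, nat_lit 0, nat_lit 0, nat_lit 215, nat_lit 41667, nat_lit 265, nat_lit 65214642, nat_lit 0, nat_lit 0, nat_lit 614403, false, false⟩,
 nat_lit 0, nat_lit 7559, nat_lit 0, nat_lit 0, nat_lit 4100, nat_lit 0, nat_lit 0, nat_lit 0, nat_lit 0, nat_lit 0, nat_lit 0, nat_lit 0, nat_lit 0, nat_lit 0, nat_lit 119, nat_lit 782800, nat_lit 0, nat_lit 0, [(nat_lit 6, [(nat_lit 5, nat_lit 362), (nat_lit 6, nat_lit 638)])],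
 ⟨p010_k64, nat_lit 0, nat_lit 0, nat_lit 325, nat_lit 0, nat_lit 122678, [nat_lit 3040539734, nat_lit 2474291201, nat_lit 83427199], [], [nat_lit 14525802239, nat_lit 14861741040, nat_lit 14038826836, nat_lit 14334901399], nat_lit 1271250, nat_lit 1271250, nat_lit 65850, nat_lit 111251, nat_lit 0, nat_lit 0, [nat_lit 1100000, nat_lit 1442500, nat_lit 1271250], [nat_lit 11, nat_lit 40, nat_lit 20, nat_lit 80, nat_lit 1, nat_lit 289, nat_lit 75, nat_lit 9]⟩, C1.Rw.none,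
 ⟨nat_lit 6123, nat_lit 6225, ⟨.ofNat (nat_lit 149840), .ofNat (nat_lit 166104), .ofNat (nat_lit 160519), .ofNat (nat_lit 176782), .ofNat (nat_lit 154231), .ofNat (nat_lit 170308), .ofNat (nat_lit 164905), .ofNat (nat_lit 180982)⟩, ⟨.ofNat (nat_lit 0), .ofNat (nat_lit 0), .ofNat (nat_lit 0), .ofNat (nat_lit 0), .ofNat (nat_lit 0), .ofNat (nat_lit 0), .ofNat (nat_lit 0), .ofNat (nat_lit 0)⟩⟩, [⟨nat_lit 0, nat_lit 100, nat_lit 99, nat_lit 41, nat_lit 375995116⟩, ⟨nat_lit 0, nat_lit 100, nat_lit 99, nat_lit 45, nat_lit 65572104⟩]⟩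
noncomputable def b_NL_600_550_0_26 : St := ⟨false, nat_lit 1, nat_lit 1, nat_lit 1, nat_lit 20, nat_lit 245, nat_lit 250, nat_lit 230, nat_lit 240, nat_lit 12, nat_lit 20, nat_lit 0, nat_lit 0, nat_lit 0, nat_lit 0, nat_lit 0, nat_lit 0, nat_lit 20, nat_lit 32, nat_lit 0, nat_lit 0, nat_lit 0, nat_lit 0⟩
theorem d_NL_600_550_0_26 (h : EB TB.env) : Dead b_NL_600_550_0_26 := chkB_sound0 h (T :=
(.spl (nat_lit 6) (nat_lit 24)
(.spl (nat_lit 1) (nat_lit 235)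
(.leaf p010_l152)
(.trZ (nat_lit 0) (nat_lit 100) (nat_lit 99) (nat_lit 40) (nat_lit 16) (.spl (nat_lit 0) (nat_lit 248)
(.spl (nat_lit 0) (nat_lit 247)
(.spl (nat_lit 1) (nat_lit 238)
(.spl (nat_lit 0) (nat_lit 246)
(.leaf p010_l153)
(.leaf p010_l154))
(.spl (nat_lit 0) (nat_lit 246)
(.spl (nat_lit 1) (nat_lit 239)
(.spl (nat_lit 8) (nat_lit 800)
(.leaf p010_l155)
(.leaf p010_l156))
(.spl (nat_lit 8) (nat_lit 800)
(.leaf p010_l157)
(.leaf p010_l158)))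
(.spl (nat_lit 1) (nat_lit 239)
(.spl (nat_lit 8) (nat_lit 800)
(.leaf p010_l159)
(.leaf p010_l160))
(.spl (nat_lit 8) (nat_lit 800)
(.leaf p010_l161)
(.leaf p010_l162)))))
(.spl (nat_lit 1) (nat_lit 238)
(.leaf p010_l163)
(.spl (nat_lit 1) (nat_lit 239)
(.leaf p010_l164)
(.leaf p010_l165))))
(.leaf p010_l166))))
(.spl (nat_lit 6) (nat_lit 28)
(.leaf p010_l167)
(.leaf p010_l168)))) (by decide +kernel)
noncomputable def p010_l169 : Lf2 := ⟨nat_lit 0, nat_lit 5, [nat_lit 4, nat_lit 5, nat_lit 5, nat_lit 20], true, nat_lit 0, nat_lit 0, nat_lit 0, nat_lit 0, ⟨nat_lit 0, nat_lit 0, nat_lit 1000, nat_lit 5, nat_lit 72, nat_lit 0, nat_lit 0, nat_lit 0, nat_lit 0, nat_lit 215, nat_lit 48600, nat_lit 269, nat_lit 64872925, nat_lit 0, nat_lit 0, nat_lit 703802, false, false⟩,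
 nat_lit 0, nat_lit 8030, nat_lit 0, nat_lit 0, nat_lit 4251, nat_lit 0, nat_lit 0, nat_lit 0, nat_lit 0, nat_lit 0, nat_lit 0, nat_lit 0, nat_lit 0, nat_lit 0, nat_lit 115, nat_lit 751000, nat_lit 0, nat_lit 0, [(nat_lit 6, [(nat_lit 5, nat_lit 415), (nat_lit 6, nat_lit 585)])],
 ⟨p010_k39, nat_lit 0, nat_lit 0, nat_lit 333, nat_lit 0, nat_lit 170775, [nat_lit 2999888001, nat_lit 2393104001, nat_lit 72423999], [], [nat_lit 14349265931, nat_lit 14548188141, nat_lit 14670243699, nat_lit 13884994210], nat_lit 1271250, nat_lit 1271250, nat_lit 111251, nat_lit 230001, nat_lit 0, nat_lit 0, [nat_lit 1100000, nat_lit 1442500, nat_lit 1271250], [nat_lit 11, nat_lit 40, nat_lit 20, nat_lit 80, nat_lit 1, nat_lit 289, nat_lit 75, nat_lit 9]⟩, C1.Rw.none,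
 ⟨nat_lit 6123, nat_lit 6325, ⟨.ofNat (nat_lit 151177), .ofNat (nat_lit 192309), .ofNat (nat_lit 161861), .ofNat (nat_lit 202993), .ofNat (nat_lit 159634), .ofNat (nat_lit 199824), .ofNat (nat_lit 170308), .ofNat (nat_lit 210498)⟩, ⟨.ofNat (nat_lit 0), .ofNat (nat_lit 0), .ofNat (nat_lit 0), .ofNat (nat_lit 0), .ofNat (nat_lit 0), .ofNat (nat_lit 0), .ofNat (nat_lit 0), .ofNat (nat_lit 0)⟩⟩, []⟩
noncomputable def p010_l170 : Lf2 := ⟨nat_lit 0, nat_lit 5, [nat_lit 4, nat_lit 5, nat_lit 5, nat_lit 20], true, nat_lit 0, nat_lit 0, nat_lit 0, nat_lit 0, ⟨nat_lit 0, nat_lit 0, nat_lit 1000, nat_lit 5, nat_lit 72, nat_lit 0, nat_lit 0, nat_lit 0, nat_lit 0, nat_lit 215, nat_lit 48600, nat_lit 269, nat_lit 64875716, nat_lit 0, nat_lit 0, nat_lit 703090, false, false⟩,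
 nat_lit 0, nat_lit 7813, nat_lit 0, nat_lit 0, nat_lit 4136, nat_lit 0, nat_lit 0, nat_lit 0, nat_lit 0, nat_lit 0, nat_lit 0, nat_lit 0, nat_lit 0, nat_lit 0, nat_lit 99, nat_lit 628600, nat_lit 0, nat_lit 0, [(nat_lit 6, [(nat_lit 5, nat_lit 619), (nat_lit 6, nat_lit 381)])],
 ⟨p010_k39, nat_lit 0, nat_lit 0, nat_lit 337, nat_lit 0, nat_lit 183988, [nat_lit 2833756800, nat_lit 2068534401, nat_lit 15096000], [], [nat_lit 14607103810, nat_lit 14853527136, nat_lit 14783700879, nat_lit 14593820712], nat_lit 1271250, nat_lit 1271250, nat_lit 111251, nat_lit 181601, nat_lit 0, nat_lit 0, [nat_lit 1100000, nat_lit 1442500, nat_lit 1271250], [nat_lit 11, nat_lit 40, nat_lit 20, nat_lit 80, nat_lit 1, nat_lit 289, nat_lit 75, nat_lit 9]⟩, C1.Rw.none,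
 ⟨nat_lit 6123, nat_lit 6325, ⟨.ofNat (nat_lit 161861), .ofNat (nat_lit 186541), .ofNat (nat_lit 167203), .ofNat (nat_lit 191883), .ofNat (nat_lit 170308), .ofNat (nat_lit 194422), .ofNat (nat_lit 175645), .ofNat (nat_lit 199759)⟩, ⟨.ofNat (nat_lit 0), .ofNat (nat_lit 0), .ofNat (nat_lit 0), .ofNat (nat_lit 0), .ofNat (nat_lit 0), .ofNat (nat_lit 0), .ofNat (nat_lit 0), .ofNat (nat_lit 0)⟩⟩, []⟩
noncomputable def p010_l171 : Lf2 := ⟨nat_lit 0, nat_lit 5, [nat_lit 4, nat_lit 5, nat_lit 5, nat_lit 20], true, nat_lit 0, nat_lit 0, nat_lit 0, nat_lit 0, ⟨nat_lit 0, nat_lit 0, nat_lit 1000, nat_lit 5, nat_lit 72, nat_lit 0, nat_lit 0, nat_lit 0, nat_lit 0, nat_lit 215, nat_lit 48600, nat_lit 269, nat_lit 64875716, nat_lit 0, nat_lit 0, nat_lit 703090, false, false⟩,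
 nat_lit 0, nat_lit 8041, nat_lit 0, nat_lit 0, nat_lit 4256, nat_lit 0, nat_lit 0, nat_lit 0, nat_lit 0, nat_lit 0, nat_lit 0, nat_lit 0, nat_lit 0, nat_lit 0, nat_lit 115, nat_lit 749200, nat_lit 0, nat_lit 0, [(nat_lit 6, [(nat_lit 5, nat_lit 418), (nat_lit 6, nat_lit 582)])],
 ⟨p010_k39, nat_lit 0, nat_lit 0, nat_lit 324, nat_lit 0, nat_lit 147873, [nat_lit 3001209601, nat_lit 2393036801, nat_lit 78140799], [], [nat_lit 14342752771, nat_lit 14557623151, nat_lit 14516309136, nat_lit 14142358923], nat_lit 1271250, nat_lit 1271250, nat_lit 111251, nat_lit 181601, nat_lit 0, nat_lit 0, [nat_lit 1100000, nat_lit 1442500, nat_lit 1271250], [nat_lit 11, nat_lit 40, nat_lit 20, nat_lit 80, nat_lit 1, nat_lit 289, nat_lit 75, nat_lit 9]⟩, C1.Rw.none,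
 ⟨nat_lit 6123, nat_lit 6325, ⟨.ofNat (nat_lit 161861), .ofNat (nat_lit 186541), .ofNat (nat_lit 167203), .ofNat (nat_lit 191883), .ofNat (nat_lit 170308), .ofNat (nat_lit 194422), .ofNat (nat_lit 175645), .ofNat (nat_lit 199759)⟩, ⟨.ofNat (nat_lit 0), .ofNat (nat_lit 0), .ofNat (nat_lit 0), .ofNat (nat_lit 0), .ofNat (nat_lit 0), .ofNat (nat_lit 0), .ofNat (nat_lit 0), .ofNat (nat_lit 0)⟩⟩, []⟩
noncomputable def p010_l172 : Lf2 := ⟨nat_lit 0, nat_lit 5, [nat_lit 4, nat_lit 5, nat_lit 5, nat_lit 20], false, nat_lit 0, nat_lit 0, nat_lit 0, nat_lit 0, ⟨nat_lit 156, nat_lit 0, nat_lit 844, nat_lit 5, nat_lit 69, nat_lit 0, nat_lit 0, nat_lit 0, nat_lit 0, nat_lit 215, nat_lit 45067, nat_lit 267, nat_lit 65038914, nat_lit 0, nat_lit 0, nat_lit 660950, false, false⟩,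
 nat_lit 3199, nat_lit 5954, nat_lit 0, nat_lit 0, nat_lit 4845, nat_lit 1652, nat_lit 0, nat_lit 0, nat_lit 0, nat_lit 582, nat_lit 0, nat_lit 0, nat_lit 0, nat_lit 0, nat_lit 70, nat_lit 844000, nat_lit 0, nat_lit 0, [(nat_lit 6, [(nat_lit 6, nat_lit 844)])],
 ⟨p010_k39, nat_lit 0, nat_lit 0, nat_lit 327, nat_lit 0, nat_lit 160610, [nat_lit 2675972267, nat_lit 2461425601, nat_lit 147006399], [], [nat_lit 15767190629, nat_lit 15814470088, nat_lit 15813030441, nat_lit 15671062548], nat_lit 1271250, nat_lit 1271250, nat_lit 111251, nat_lit 134400, nat_lit 0, nat_lit 0, [nat_lit 1100000, nat_lit 1442500, nat_lit 1271250], [nat_lit 11, nat_lit 40, nat_lit 20, nat_lit 80, nat_lit 1, nat_lit 289, nat_lit 75, nat_lit 9]⟩, ⟨p010_k71, nat_lit 0, nat_lit 0, nat_lit 338, nat_lit 0, nat_lit 164935, [nat_lit 975000000, nat_lit 1243008000, nat_lit 1535352000], [], [nat_lit 3031761948, nat_lit 3066121718,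 nat_lit 2983150462, nat_lit 3001995674], nat_lit 1271250, nat_lit 1271250, nat_lit 111251, nat_lit 134400, nat_lit 0, nat_lit 0, [nat_lit 1412500, nat_lit 1271250, nat_lit 1271250], [nat_lit 25, nat_lit 40, nat_lit 20, nat_lit 80, nat_lit 17, nat_lit 289, nat_lit 75, nat_lit 9]⟩,
 ⟨nat_lit 6264, nat_lit 6325, ⟨.ofNat (nat_lit 167203), .ofNat (nat_lit 175430), .ofNat (nat_lit 169340), .ofNat (nat_lit 177566), .ofNat (nat_lit 169752), .ofNat (nat_lit 177921), .ofNat (nat_lit 171888), .ofNat (nat_lit 180058)⟩, ⟨.ofNat (nat_lit 0), .ofNat (nat_lit 0), .ofNat (nat_lit 0), .ofNat (nat_lit 0), .ofNat (nat_lit 0), .ofNat (nat_lit 0), .ofNat (nat_lit 0), .ofNat (nat_lit 0)⟩⟩, []⟩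
noncomputable def p010_l173 : Lf2 := ⟨nat_lit 0, nat_lit 5, [nat_lit 4, nat_lit 5, nat_lit 5, nat_lit 20], false, nat_lit 0, nat_lit 0, nat_lit 0, nat_lit 0, ⟨nat_lit 160, nat_lit 0, nat_lit 840, nat_lit 5, nat_lit 70, nat_lit 0, nat_lit 0, nat_lit 0, nat_lit 0, nat_lit 215, nat_lit 45067, nat_lit 267, nat_lit 65022147, nat_lit 0, nat_lit 0, nat_lit 665326, false, false⟩,
 nat_lit 3224, nat_lit 6019, nat_lit 0, nat_lit 0, nat_lit 4893, nat_lit 1681, nat_lit 0, nat_lit 0, nat_lit 0, nat_lit 578, nat_lit 0, nat_lit 0, nat_lit 0, nat_lit 0, nat_lit 68, nat_lit 840000, nat_lit 0, nat_lit 0, [(nat_lit 6, [(nat_lit 6, nat_lit 840)])],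
 ⟨p010_k39, nat_lit 0, nat_lit 0, nat_lit 325, nat_lit 0, nat_lit 156021, [nat_lit 2658816000, nat_lit 2446016001, nat_lit 145503999], [], [nat_lit 15757291706, nat_lit 15755654158, nat_lit 15802668299, nat_lit 15678253988], nat_lit 1271250, nat_lit 1271250, nat_lit 111251, nat_lit 134400, nat_lit 0, nat_lit 0, [nat_lit 1100000, nat_lit 1442500, nat_lit 1271250], [nat_lit 11, nat_lit 40, nat_lit 20, nat_lit 80, nat_lit 1, nat_lit 289, nat_lit 75, nat_lit 9]⟩, ⟨p010_k72, nat_lit 0, nat_lit 0, nat_lit 335, nat_lit 0, nat_lit 158518, [nat_lit 1000000000, nat_lit 1274880000, nat_lit 1574720000], [], [nat_lit 3131802089, nat_lit 3150698708, nat_lit 3082365435, nat_lit 3091988908], nat_lit 1271250, nat_lit 1271250, nat_lit 111251, nat_lit 134400, nat_lit 0, nat_lit 0, [nat_lit 1412500, nat_lit 1271250, nat_lit 1271250], [nat_lit 25, nat_lit 40, nat_lit 20, nat_lit 80, nat_lit 17, nat_lit 289,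 nat_lit 75, nat_lit 9]⟩,
 ⟨nat_lit 6304, nat_lit 6325, ⟨.ofNat (nat_lit 169340), .ofNat (nat_lit 177566), .ofNat (nat_lit 170408), .ofNat (nat_lit 178635), .ofNat (nat_lit 170191), .ofNat (nat_lit 178398), .ofNat (nat_lit 171259), .ofNat (nat_lit 179467)⟩, ⟨.ofNat (nat_lit 0), .ofNat (nat_lit 0), .ofNat (nat_lit 0), .ofNat (nat_lit 0), .ofNat (nat_lit 0), .ofNat (nat_lit 0), .ofNat (nat_lit 0), .ofNat (nat_lit 0)⟩⟩, []⟩
noncomputable def p010_l174 : Lf2 := ⟨nat_lit 0, nat_lit 5, [nat_lit 4, nat_lit 5, nat_lit 5, nat_lit 20], false, nat_lit 0, nat_lit 0, nat_lit 0, nat_lit 0, ⟨nat_lit 144, nat_lit 0, nat_lit 856, nat_lit 5, nat_lit 70, nat_lit 0, nat_lit 0, nat_lit 0, nat_lit 0, nat_lit 215, nat_lit 46817, nat_lit 268, nat_lit 65003604, nat_lit 0, nat_lit 0, nat_lit 670153, false, false⟩,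
 nat_lit 2894, nat_lit 6110, nat_lit 0, nat_lit 0, nat_lit 4790, nat_lit 1509, nat_lit 0, nat_lit 0, nat_lit 0, nat_lit 519, nat_lit 0, nat_lit 0, nat_lit 0, nat_lit 0, nat_lit 75, nat_lit 856000, nat_lit 0, nat_lit 0, [(nat_lit 6, [(nat_lit 6, nat_lit 856)])],
 ⟨p010_k51, nat_lit 0, nat_lit 0, nat_lit 326, nat_lit 0, nat_lit 159522, [nat_lit 2711441067, nat_lit 2487654401, nat_lit 123513599], [], [nat_lit 15537847471, nat_lit 15541206044, nat_lit 15584396243, nat_lit 15462600913], nat_lit 1271250, nat_lit 1271250, nat_lit 111251, nat_lit 134400, nat_lit 0, nat_lit 0, [nat_lit 1100000, nat_lit 1442500, nat_lit 1271250], [nat_lit 11, nat_lit 40, nat_lit 20, nat_lit 80, nat_lit 1, nat_lit 289, nat_lit 75, nat_lit 9]⟩, ⟨p010_k72, nat_lit 0, nat_lit 0, nat_lit 337, nat_lit 0, nat_lit 162929, [nat_lit 900000000, nat_lit 1147392000, nat_lit 1417248000], [], [nat_lit 2826697210, nat_lit 2835370062,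 nat_lit 2782342647, nat_lit 2790991881], nat_lit 1271250, nat_lit 1271250, nat_lit 111251, nat_lit 134400, nat_lit 0, nat_lit 0, [nat_lit 1412500, nat_lit 1271250, nat_lit 1271250], [nat_lit 25, nat_lit 40, nat_lit 20, nat_lit 80, nat_lit 17, nat_lit 289, nat_lit 75, nat_lit 9]⟩,
 ⟨nat_lit 6284, nat_lit 6305, ⟨.ofNat (nat_lit 170191), .ofNat (nat_lit 178398), .ofNat (nat_lit 171259), .ofNat (nat_lit 179467), .ofNat (nat_lit 171040), .ofNat (nat_lit 179229), .ofNat (nat_lit 172108), .ofNat (nat_lit 180297)⟩, ⟨.ofNat (nat_lit 0), .ofNat (nat_lit 0), .ofNat (nat_lit 0), .ofNat (nat_lit 0), .ofNat (nat_lit 0), .ofNat (nat_lit 0), .ofNat (nat_lit 0), .ofNat (nat_lit 0)⟩⟩, []⟩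
noncomputable def p010_l175 : Lf2 := ⟨nat_lit 0, nat_lit 5, [nat_lit 4, nat_lit 5, nat_lit 5, nat_lit 20], false, nat_lit 0, nat_lit 0, nat_lit 0, nat_lit 0, ⟨nat_lit 247, nat_lit 0, nat_lit 753, nat_lit 5, nat_lit 70, nat_lit 0, nat_lit 0, nat_lit 0, nat_lit 0, nat_lit 215, nat_lit 46817, nat_lit 268, nat_lit 64985016, nat_lit 0, nat_lit 0, nat_lit 674979, false, false⟩,
 nat_lit 4970, nat_lit 4977, nat_lit 0, nat_lit 0, nat_lit 5317, nat_lit 2592, nat_lit 377, nat_lit 0, nat_lit 0, nat_lit 891, nat_lit 0, nat_lit 0, nat_lit 0, nat_lit 0, nat_lit 24, nat_lit 753000, nat_lit 0, nat_lit 0, [(nat_lit 6, [(nat_lit 6, nat_lit 753)])],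
 ⟨p010_k55, nat_lit 0, nat_lit 0, nat_lit 328, nat_lit 0, nat_lit 162984, [nat_lit 2277667200, nat_lit 2100857201, nat_lit 98826799], [], [nat_lit 16169498476, nat_lit 16147829305, nat_lit 16211178884, nat_lit 16075983525], nat_lit 1271250, nat_lit 1271250, nat_lit 111251, nat_lit 134400, nat_lit 0, nat_lit 0, [nat_lit 1100000, nat_lit 1442500, nat_lit 1271250], [nat_lit 11, nat_lit 40, nat_lit 20, nat_lit 80, nat_lit 1, nat_lit 289, nat_lit 75, nat_lit 9]⟩, ⟨p010_k72, nat_lit 0, nat_lit 0, nat_lit 339, nat_lit 0, nat_lit 167339, [nat_lit 1543750000, nat_lit 1968096000, nat_lit 2430974000], [], [nat_lit 4841540620, nat_lit 4859989031, nat_lit 4765330820, nat_lit 4780177776], nat_lit 1271250, nat_lit 1271250, nat_lit 111251, nat_lit 134400, nat_lit 0, nat_lit 0, [nat_lit 1412500, nat_lit 1271250, nat_lit 1271250], [nat_lit 25, nat_lit 40, nat_lit 20, nat_lit 80, nat_lit 17, nat_lit 289, nat_lit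 75, nat_lit 9]⟩,
 ⟨nat_lit 6264, nat_lit 6285, ⟨.ofNat (nat_lit 171040), .ofNat (nat_lit 179229), .ofNat (nat_lit 172108), .ofNat (nat_lit 180297), .ofNat (nat_lit 171888), .ofNat (nat_lit 180058), .ofNat (nat_lit 172956), .ofNat (nat_lit 181126)⟩, ⟨.ofNat (nat_lit 0), .ofNat (nat_lit 0), .ofNat (nat_lit 0), .ofNat (nat_lit 0), .ofNat (nat_lit 0), .ofNat (nat_lit 0), .ofNat (nat_lit 0), .ofNat (nat_lit 0)⟩⟩, []⟩
noncomputable def p010_l176 : Lf2 := ⟨nat_lit 0, nat_lit 5, [nat_lit 4, nat_lit 5, nat_lit 5, nat_lit 20], true, nat_lit 0, nat_lit 0, nat_lit 0, nat_lit 0, ⟨nat_lit 0, nat_lit 0, nat_lit 1000, nat_lit 5, nat_lit 71, nat_lit 0, nat_lit 0, nat_lit 0, nat_lit 0, nat_lit 215, nat_lit 46817, nat_lit 268, nat_lit 64980863, nat_lit 0, nat_lit 0, nat_lit 676055, false, false⟩,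
 nat_lit 0, nat_lit 7682, nat_lit 0, nat_lit 0, nat_lit 4126, nat_lit 0, nat_lit 0, nat_lit 0, nat_lit 0, nat_lit 0, nat_lit 0, nat_lit 0, nat_lit 0, nat_lit 0, nat_lit 109, nat_lit 702400, nat_lit 0, nat_lit 0, [(nat_lit 6, [(nat_lit 5, nat_lit 496), (nat_lit 6, nat_lit 504)])],
 ⟨p010_k56, nat_lit 0, nat_lit 0, nat_lit 331, nat_lit 0, nat_lit 170683, [nat_lit 2939571200, nat_lit 2271289601, nat_lit 58777599], [], [nat_lit 14258633463, nat_lit 14274674359, nat_lit 14311872374, nat_lit 14188725256], nat_lit 1271250, nat_lit 1271250, nat_lit 111251, nat_lit 134400, nat_lit 0, nat_lit 0, [nat_lit 1100000, nat_lit 1442500, nat_lit 1271250], [nat_lit 11, nat_lit 40, nat_lit 20, nat_lit 80, nat_lit 1, nat_lit 289, nat_lit 75, nat_lit 9]⟩, C1.Rw.none,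
 ⟨nat_lit 6224, nat_lit 6265, ⟨.ofNat (nat_lit 169752), .ofNat (nat_lit 177921), .ofNat (nat_lit 172956), .ofNat (nat_lit 181126), .ofNat (nat_lit 171443), .ofNat (nat_lit 179575), .ofNat (nat_lit 174647), .ofNat (nat_lit 182778)⟩, ⟨.ofNat (nat_lit 0), .ofNat (nat_lit 0), .ofNat (nat_lit 0), .ofNat (nat_lit 0), .ofNat (nat_lit 0), .ofNat (nat_lit 0), .ofNat (nat_lit 0), .ofNat (nat_lit 0)⟩⟩, []⟩
noncomputable def p010_l177 : Lf2 := ⟨nat_lit 0, nat_lit 5, [nat_lit 4, nat_lit 5, nat_lit 5, nat_lit 20], false, nat_lit 0, nat_lit 0, nat_lit 0, nat_lit 0, ⟨nat_lit 328, nat_lit 0, nat_lit 672, nat_lit 5, nat_lit 70, nat_lit 0, nat_lit 0, nat_lit 0, nat_lit 0, nat_lit 215, nat_lit 46817, nat_lit 268, nat_lit 64998567, nat_lit 0, nat_lit 0, nat_lit 671462, false, false⟩,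
 nat_lit 6203, nat_lit 4782, nat_lit 0, nat_lit 0, nat_lit 5815, nat_lit 3251, nat_lit 527, nat_lit 0, nat_lit 0, nat_lit 1034, nat_lit 0, nat_lit 0, nat_lit 0, nat_lit 0, nat_lit 0, nat_lit 672000, nat_lit 0, nat_lit 0, [(nat_lit 6, [(nat_lit 6, nat_lit 672)])],
 ⟨p010_k39, nat_lit 0, nat_lit 0, nat_lit 326, nat_lit 0, nat_lit 160162, [nat_lit 2194252800, nat_lit 2118812801, nat_lit 530403199], [], [nat_lit 17026375722, nat_lit 16985040958, nat_lit 17062854647, nat_lit 16914996642], nat_lit 1271250, nat_lit 1271250, nat_lit 111251, nat_lit 134400, nat_lit 0, nat_lit 0, [nat_lit 1100000, nat_lit 1442500, nat_lit 1271250], [nat_lit 11, nat_lit 40, nat_lit 20, nat_lit 80, nat_lit 1, nat_lit 289, nat_lit 75, nat_lit 9]⟩, ⟨p010_k60, nat_lit 0, nat_lit 0, nat_lit 0, nat_lit 0, nat_lit 161864, [nat_lit 1787436000, nat_lit 2325356000, nat_lit 2914444000], [], [nat_lit 6408937795, nat_lit 6429357560,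 nat_lit 6315396885, nat_lit 6335760753], nat_lit 1271250, nat_lit 1271250, nat_lit 111251, nat_lit 134400, nat_lit 0, nat_lit 0, [nat_lit 1271250, nat_lit 1271250, nat_lit 1271250], [nat_lit 96, nat_lit 40, nat_lit 20, nat_lit 40]⟩,
 ⟨nat_lit 6304, nat_lit 6325, ⟨.ofNat (nat_lit 170408), .ofNat (nat_lit 178635), .ofNat (nat_lit 171477), .ofNat (nat_lit 179703), .ofNat (nat_lit 171259), .ofNat (nat_lit 179467), .ofNat (nat_lit 172327), .ofNat (nat_lit 180535)⟩, ⟨.ofNat (nat_lit 0), .ofNat (nat_lit 0), .ofNat (nat_lit 0), .ofNat (nat_lit 0), .ofNat (nat_lit 0), .ofNat (nat_lit 0), .ofNat (nat_lit 0), .ofNat (nat_lit 0)⟩⟩, []⟩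
noncomputable def p010_l178 : Lf2 := ⟨nat_lit 3, nat_lit 5, [nat_lit 4, nat_lit 5, nat_lit 5, nat_lit 20], false, nat_lit 0, nat_lit 0, nat_lit 0, nat_lit 0, zbN0,
 nat_lit 0, nat_lit 0, nat_lit 0, nat_lit 0, nat_lit 0, nat_lit 0, nat_lit 0, nat_lit 0, nat_lit 0, nat_lit 0, nat_lit 0, nat_lit 0, nat_lit 0, nat_lit 0, nat_lit 0, nat_lit 0, nat_lit 0, nat_lit 0, [],
 C1.Rw.none, ⟨p010_k66, nat_lit 0, nat_lit 0, nat_lit 327, nat_lit 0, nat_lit 161864, [], [], [], nat_lit 1271250, nat_lit 1271250, nat_lit 111251, nat_lit 134400, nat_lit 0, nat_lit 0, [nat_lit 1412500, nat_lit 1271250], [nat_lit 51, nat_lit 40, nat_lit 20, nat_lit 80, nat_lit 1, nat_lit 289, nat_lit 75, nat_lit 9]⟩,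
 zbF0, []⟩
noncomputable def p010_l179 : Lf2 := ⟨nat_lit 0, nat_lit 5, [nat_lit 4, nat_lit 5, nat_lit 5, nat_lit 20], false, nat_lit 0, nat_lit 0, nat_lit 0, nat_lit 0, ⟨nat_lit 304, nat_lit 0, nat_lit 696, nat_lit 5, nat_lit 71, nat_lit 0, nat_lit 0, nat_lit 0, nat_lit 0, nat_lit 215, nat_lit 46817, nat_lit 268, nat_lit 64979927, nat_lit 0, nat_lit 0, nat_lit 676298, false, false⟩,
 nat_lit 5753, nat_lit 4876, nat_lit 0, nat_lit 0, nat_lit 5654, nat_lit 3015, nat_lit 505, nat_lit 0, nat_lit 0, nat_lit 959, nat_lit 0, nat_lit 0, nat_lit 0, nat_lit 0, nat_lit 0, nat_lit 696000, nat_lit 0, nat_lit 0, [(nat_lit 6, [(nat_lit 6, nat_lit 696)])],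
 ⟨p010_k51, nat_lit 0, nat_lit 0, nat_lit 328, nat_lit 0, nat_lit 163617, [nat_lit 2105190400, nat_lit 1971270401, nat_lit 203417599], [], [nat_lit 16711486778, nat_lit 16675441587, nat_lit 16749729745, nat_lit 16605965487], nat_lit 1271250, nat_lit 1271250, nat_lit 111251, nat_lit 134400, nat_lit 0, nat_lit 0, [nat_lit 1100000, nat_lit 1442500, nat_lit 1271250], [nat_lit 11, nat_lit 40, nat_lit 20, nat_lit 80, nat_lit 1, nat_lit 289, nat_lit 75, nat_lit 9]⟩, ⟨p010_k60, nat_lit 0, nat_lit 0, nat_lit 0, nat_lit 0, nat_lit 166226, [nat_lit 1656648000, nat_lit 2155208000, nat_lit 2701192000], [], [nat_lit 5935925872, nat_lit 5955928056, nat_lit 5849163110, nat_lit 5868043280], nat_lit 1271250, nat_lit 1271250, nat_lit 111251, nat_lit 134400, nat_lit 0, nat_lit 0, [nat_lit 1271250, nat_lit 1271250, nat_lit 1271250], [nat_lit 96, nat_lit 40, nat_lit 20, nat_lit 40]⟩,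
 ⟨nat_lit 6284, nat_lit 6305, ⟨.ofNat (nat_lit 171259), .ofNat (nat_lit 179467), .ofNat (nat_lit 172327), .ofNat (nat_lit 180535), .ofNat (nat_lit 172108), .ofNat (nat_lit 180297), .ofNat (nat_lit 173177), .ofNat (nat_lit 181365)⟩, ⟨.ofNat (nat_lit 0), .ofNat (nat_lit 0), .ofNat (nat_lit 0), .ofNat (nat_lit 0), .ofNat (nat_lit 0), .ofNat (nat_lit 0), .ofNat (nat_lit 0), .ofNat (nat_lit 0)⟩⟩, []⟩
noncomputable def p010_l180 : Lf2 := ⟨nat_lit 3, nat_lit 5, [nat_lit 4, nat_lit 5, nat_lit 5, nat_lit 20], false, nat_lit 0, nat_lit 0, nat_lit 0, nat_lit 0, zbN0,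
 nat_lit 0, nat_lit 0, nat_lit 0, nat_lit 0, nat_lit 0, nat_lit 0, nat_lit 0, nat_lit 0, nat_lit 0, nat_lit 0, nat_lit 0, nat_lit 0, nat_lit 0, nat_lit 0, nat_lit 0, nat_lit 0, nat_lit 0, nat_lit 0, [],
 C1.Rw.none, ⟨p010_k66, nat_lit 0, nat_lit 0, nat_lit 328, nat_lit 0, nat_lit 166226, [], [], [], nat_lit 1271250, nat_lit 1271250, nat_lit 111251, nat_lit 134400, nat_lit 0, nat_lit 0, [nat_lit 1412500, nat_lit 1271250], [nat_lit 51, nat_lit 40, nat_lit 20, nat_lit 80, nat_lit 1, nat_lit 289, nat_lit 75, nat_lit 9]⟩,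
 zbF0, []⟩
noncomputable def p010_l181 : Lf2 := ⟨nat_lit 0, nat_lit 5, [nat_lit 4, nat_lit 5, nat_lit 5, nat_lit 20], false, nat_lit 0, nat_lit 0, nat_lit 0, nat_lit 0, ⟨nat_lit 333, nat_lit 0, nat_lit 667, nat_lit 5, nat_lit 71, nat_lit 0, nat_lit 0, nat_lit 0, nat_lit 0, nat_lit 215, nat_lit 46817, nat_lit 268, nat_lit 64974860, nat_lit 0, nat_lit 0, nat_lit 677610, false, false⟩,
 nat_lit 6187, nat_lit 4853, nat_lit 0, nat_lit 0, nat_lit 5844, nat_lit 3259, nat_lit 543, nat_lit 0, nat_lit 0, nat_lit 1033, nat_lit 0, nat_lit 0, nat_lit 0, nat_lit 0, nat_lit 0, nat_lit 667000, nat_lit 0, nat_lit 0, [(nat_lit 6, [(nat_lit 6, nat_lit 667)])],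
 ⟨p010_k39, nat_lit 0, nat_lit 0, nat_lit 328, nat_lit 0, nat_lit 164304, [nat_lit 2212807467, nat_lit 2149550801, nat_lit 598525199], [], [nat_lit 17061744301, nat_lit 17020543795, nat_lit 17097943364, nat_lit 16949347976], nat_lit 1271250, nat_lit 1271250, nat_lit 111251, nat_lit 134400, nat_lit 0, nat_lit 0, [nat_lit 1100000, nat_lit 1442500, nat_lit 1271250], [nat_lit 11, nat_lit 40, nat_lit 20, nat_lit 80, nat_lit 1, nat_lit 289, nat_lit 75, nat_lit 9]⟩, ⟨p010_k61, nat_lit 0, nat_lit 0, nat_lit 0, nat_lit 0, nat_lit 165172, [nat_lit 1814683500, nat_lit 2360803500, nat_lit 2958871500], [], [nat_lit 6523486464, nat_lit 6546548397, nat_lit 6429930692, nat_lit 6450464663], nat_lit 1271250, nat_lit 1271250, nat_lit 111251, nat_lit 134400, nat_lit 0, nat_lit 0, [nat_lit 1271250, nat_lit 1271250, nat_lit 1271250], [nat_lit 96, nat_lit 40, nat_lit 20, nat_lit 40]⟩,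
 ⟨nat_lit 6304, nat_lit 6325, ⟨.ofNat (nat_lit 171477), .ofNat (nat_lit 179703), .ofNat (nat_lit 172545), .ofNat (nat_lit 180772), .ofNat (nat_lit 172327), .ofNat (nat_lit 180535), .ofNat (nat_lit 173396), .ofNat (nat_lit 181603)⟩, ⟨.ofNat (nat_lit 0), .ofNat (nat_lit 0), .ofNat (nat_lit 0), .ofNat (nat_lit 0), .ofNat (nat_lit 0), .ofNat (nat_lit 0), .ofNat (nat_lit 0), .ofNat (nat_lit 0)⟩⟩, []⟩
noncomputable def p010_l182 : Lf2 := ⟨nat_lit 3, nat_lit 5, [nat_lit 4, nat_lit 5, nat_lit 5, nat_lit 20], false, nat_lit 0, nat_lit 0, nat_lit 0, nat_lit 0, zbN0,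
 nat_lit 0, nat_lit 0, nat_lit 0, nat_lit 0, nat_lit 0, nat_lit 0, nat_lit 0, nat_lit 0, nat_lit 0, nat_lit 0, nat_lit 0, nat_lit 0, nat_lit 0, nat_lit 0, nat_lit 0, nat_lit 0, nat_lit 0, nat_lit 0, [],
 C1.Rw.none, ⟨p010_k67, nat_lit 0, nat_lit 0, nat_lit 328, nat_lit 0, nat_lit 165172, [], [], [], nat_lit 1271250, nat_lit 1271250, nat_lit 111251, nat_lit 134400, nat_lit 0, nat_lit 0, [nat_lit 1412500, nat_lit 1271250], [nat_lit 51, nat_lit 40, nat_lit 20, nat_lit 80, nat_lit 1, nat_lit 289, nat_lit 75, nat_lit 9]⟩,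
 zbF0, []⟩
noncomputable def p010_l183 : Lf2 := ⟨nat_lit 0, nat_lit 5, [nat_lit 4, nat_lit 5, nat_lit 5, nat_lit 20], false, nat_lit 0, nat_lit 0, nat_lit 0, nat_lit 0, ⟨nat_lit 309, nat_lit 0, nat_lit 691, nat_lit 5, nat_lit 71, nat_lit 0, nat_lit 0, nat_lit 0, nat_lit 0, nat_lit 215, nat_lit 46817, nat_lit 268, nat_lit 64956124, nat_lit 0, nat_lit 0, nat_lit 682453, false, false⟩,
 nat_lit 5729, nat_lit 4944, nat_lit 0, nat_lit 0, nat_lit 5678, nat_lit 3017, nat_lit 518, nat_lit 0, nat_lit 0, nat_lit 956, nat_lit 0, nat_lit 0, nat_lit 0, nat_lit 0, nat_lit 0, nat_lit 691000, nat_lit 0, nat_lit 0, [(nat_lit 6, [(nat_lit 6, nat_lit 691)])],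
 ⟨p010_k51, nat_lit 0, nat_lit 0, nat_lit 329, nat_lit 0, nat_lit 167712, [nat_lit 2123745067, nat_lit 2002008401, nat_lit 271539599], [], [nat_lit 16753050826, nat_lit 16720844071, nat_lit 16791063076, nat_lit 16646688570], nat_lit 1271250, nat_lit 1271250, nat_lit 111251, nat_lit 134400, nat_lit 0, nat_lit 0, [nat_lit 1100000, nat_lit 1442500, nat_lit 1271250], [nat_lit 11, nat_lit 40, nat_lit 20, nat_lit 80, nat_lit 1, nat_lit 289, nat_lit 75, nat_lit 9]⟩, ⟨p010_k61, nat_lit 0, nat_lit 0, nat_lit 0, nat_lit 0, nat_lit 169487, [nat_lit 1683895500, nat_lit 2190655500, nat_lit 2745619500], [], [nat_lit 6069023540, nat_lit 6088105652, nat_lit 5982461901, nat_lit 6001491915], nat_lit 1271250, nat_lit 1271250, nat_lit 111251, nat_lit 134400, nat_lit 0, nat_lit 0, [nat_lit 1271250, nat_lit 1271250, nat_lit 1271250], [nat_lit 96, nat_lit 40, nat_lit 20, nat_lit 40]⟩,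
 ⟨nat_lit 6284, nat_lit 6305, ⟨.ofNat (nat_lit 172327), .ofNat (nat_lit 180535), .ofNat (nat_lit 173396), .ofNat (nat_lit 181603), .ofNat (nat_lit 173177), .ofNat (nat_lit 181365), .ofNat (nat_lit 174245), .ofNat (nat_lit 182433)⟩, ⟨.ofNat (nat_lit 0), .ofNat (nat_lit 0), .ofNat (nat_lit 0), .ofNat (nat_lit 0), .ofNat (nat_lit 0), .ofNat (nat_lit 0), .ofNat (nat_lit 0), .ofNat (nat_lit 0)⟩⟩, []⟩
noncomputable def p010_l184 : Lf2 := ⟨nat_lit 3, nat_lit 5, [nat_lit 4, nat_lit 5, nat_lit 5, nat_lit 20], false, nat_lit 0, nat_lit 0, nat_lit 0, nat_lit 0, zbN0,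
 nat_lit 0, nat_lit 0, nat_lit 0, nat_lit 0, nat_lit 0, nat_lit 0, nat_lit 0, nat_lit 0, nat_lit 0, nat_lit 0, nat_lit 0, nat_lit 0, nat_lit 0, nat_lit 0, nat_lit 0, nat_lit 0, nat_lit 0, nat_lit 0, [],
 C1.Rw.none, ⟨p010_k67, nat_lit 0, nat_lit 0, nat_lit 329, nat_lit 0, nat_lit 169487, [], [], [], nat_lit 1271250, nat_lit 1271250, nat_lit 111251, nat_lit 134400, nat_lit 0, nat_lit 0, [nat_lit 1412500, nat_lit 1271250], [nat_lit 51, nat_lit 40, nat_lit 20, nat_lit 80, nat_lit 1, nat_lit 289, nat_lit 75, nat_lit 9]⟩,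
 zbF0, []⟩
noncomputable def p010_l185 : Lf2 := ⟨nat_lit 0, nat_lit 5, [nat_lit 4, nat_lit 5, nat_lit 5, nat_lit 20], false, nat_lit 0, nat_lit 0, nat_lit 0, nat_lit 0, ⟨nat_lit 250, nat_lit 0, nat_lit 750, nat_lit 5, nat_lit 71, nat_lit 0, nat_lit 0, nat_lit 0, nat_lit 0, nat_lit 215, nat_lit 46817, nat_lit 268, nat_lit 64961243, nat_lit 0, nat_lit 0, nat_lit 681131, false, false⟩,
 nat_lit 4968, nat_lit 5003, nat_lit 0, nat_lit 0, nat_lit 5330, nat_lit 2604, nat_lit 384, nat_lit 0, nat_lit 0, nat_lit 889, nat_lit 0, nat_lit 0, nat_lit 0, nat_lit 0, nat_lit 23, nat_lit 750000, nat_lit 0, nat_lit 0, [(nat_lit 6, [(nat_lit 6, nat_lit 750)])],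
 ⟨p010_k55, nat_lit 0, nat_lit 0, nat_lit 329, nat_lit 0, nat_lit 167034, [nat_lit 2272800000, nat_lit 2099300001, nat_lit 111699999], [], [nat_lit 16195783871, nat_lit 16177854703, nat_lit 16237339791, nat_lit 16101813880], nat_lit 1271250, nat_lit 1271250, nat_lit 111251, nat_lit 134400, nat_lit 0, nat_lit 0, [nat_lit 1100000, nat_lit 1442500, nat_lit 1271250], [nat_lit 11, nat_lit 40, nat_lit 20, nat_lit 80, nat_lit 1, nat_lit 289, nat_lit 75, nat_lit 9]⟩, ⟨p010_k73, nat_lit 0, nat_lit 0, nat_lit 341, nat_lit 0, nat_lit 170588, [nat_lit 1562500000, nat_lit 1992000000, nat_lit 2460500000], [], [nat_lit 4929668614, nat_lit 4944677316, nat_lit 4853183842, nat_lit 4868151716], nat_lit 1271250, nat_lit 1271250, nat_lit 111251, nat_lit 134400, nat_lit 0, nat_lit 0, [nat_lit 1412500, nat_lit 1271250, nat_lit 1271250], [nat_lit 25, nat_lit 40, nat_lit 20, nat_lit 80, nat_lit 17, nat_lit 289,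 nat_lit 75, nat_lit 9]⟩,
 ⟨nat_lit 6264, nat_lit 6285, ⟨.ofNat (nat_lit 172108), .ofNat (nat_lit 180297), .ofNat (nat_lit 173177), .ofNat (nat_lit 181365), .ofNat (nat_lit 172956), .ofNat (nat_lit 181126), .ofNat (nat_lit 174024), .ofNat (nat_lit 182194)⟩, ⟨.ofNat (nat_lit 0), .ofNat (nat_lit 0), .ofNat (nat_lit 0), .ofNat (nat_lit 0), .ofNat (nat_lit 0), .ofNat (nat_lit 0), .ofNat (nat_lit 0), .ofNat (nat_lit 0)⟩⟩, []⟩
noncomputable def p010_l186 : Lf2 := ⟨nat_lit 0, nat_lit 5, [nat_lit 4, nat_lit 5, nat_lit 5, nat_lit 20], false, nat_lit 0, nat_lit 0, nat_lit 0, nat_lit 0, ⟨nat_lit 862, nat_lit 0, nat_lit 138, nat_lit 5, nat_lit 71, nat_lit 0, nat_lit 0, nat_lit 0, nat_lit 0, nat_lit 215, nat_lit 46817, nat_lit 268, nat_lit 64937344, nat_lit 0, nat_lit 0, nat_lit 687294, false, false⟩,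
 nat_lit 16007, nat_lit 0, nat_lit 0, nat_lit 0, nat_lit 8557, nat_lit 8432, nat_lit 2322, nat_lit 0, nat_lit 0, nat_lit 2671, nat_lit 0, nat_lit 0, nat_lit 0, nat_lit 0, nat_lit 0, nat_lit 138000, nat_lit 0, nat_lit 0, [(nat_lit 6, [(nat_lit 6, nat_lit 138)])],
 ⟨p010_k55, nat_lit 0, nat_lit 0, nat_lit 331, nat_lit 0, nat_lit 171083, [nat_lit 4175891200, nat_lit 5401631200, nat_lit 7916789600], [], [nat_lit 20566679178, nat_lit 20516990536, nat_lit 20577333346, nat_lit 20359754507], nat_lit 1271250, nat_lit 1271250, nat_lit 111251, nat_lit 134400, nat_lit 0, nat_lit 0, [nat_lit 1100000, nat_lit 1442500, nat_lit 1271250], [nat_lit 11, nat_lit 40, nat_lit 20, nat_lit 80, nat_lit 1, nat_lit 289, nat_lit 75, nat_lit 9]⟩, ⟨p010_k61, nat_lit 0, nat_lit 0, nat_lit 0, nat_lit 0, nat_lit 173801, [nat_lit 4697469000, nat_lit 6111149000, nat_lit 7659301000], [], [nat_lit 16898211791, nat_lit 16951497106,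 nat_lit 16656183090, nat_lit 16709322878], nat_lit 1271250, nat_lit 1271250, nat_lit 111251, nat_lit 134400, nat_lit 0, nat_lit 0, [nat_lit 1271250, nat_lit 1271250, nat_lit 1271250], [nat_lit 96, nat_lit 40, nat_lit 20, nat_lit 40]⟩,
 ⟨nat_lit 6264, nat_lit 6285, ⟨.ofNat (nat_lit 173177), .ofNat (nat_lit 181365), .ofNat (nat_lit 174245), .ofNat (nat_lit 182433), .ofNat (nat_lit 174024), .ofNat (nat_lit 182194), .ofNat (nat_lit 175092), .ofNat (nat_lit 183262)⟩, ⟨.ofNat (nat_lit 0), .ofNat (nat_lit 0), .ofNat (nat_lit 0), .ofNat (nat_lit 0), .ofNat (nat_lit 0), .ofNat (nat_lit 0), .ofNat (nat_lit 0), .ofNat (nat_lit 0)⟩⟩, []⟩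
noncomputable def p010_l187 : Lf2 := ⟨nat_lit 3, nat_lit 5, [nat_lit 4, nat_lit 5, nat_lit 5, nat_lit 20], false, nat_lit 0, nat_lit 0, nat_lit 0, nat_lit 0, zbN0,
 nat_lit 0, nat_lit 0, nat_lit 0, nat_lit 0, nat_lit 0, nat_lit 0, nat_lit 0, nat_lit 0, nat_lit 0, nat_lit 0, nat_lit 0, nat_lit 0, nat_lit 0, nat_lit 0, nat_lit 0, nat_lit 0, nat_lit 0, nat_lit 0, [],
 C1.Rw.none, ⟨p010_k67, nat_lit 0, nat_lit 0, nat_lit 331, nat_lit 0, nat_lit 173801, [], [], [], nat_lit 1271250, nat_lit 1271250, nat_lit 111251, nat_lit 134400, nat_lit 0, nat_lit 0, [nat_lit 1412500, nat_lit 1271250], [nat_lit 51, nat_lit 40, nat_lit 20, nat_lit 80, nat_lit 1, nat_lit 289, nat_lit 75, nat_lit 9]⟩,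
 zbF0, []⟩
noncomputable def p010_l188 : Lf2 := ⟨nat_lit 0, nat_lit 5, [nat_lit 4, nat_lit 5, nat_lit 5, nat_lit 20], false, nat_lit 0, nat_lit 0, nat_lit 0, nat_lit 0, ⟨nat_lit 231, nat_lit 0, nat_lit 769, nat_lit 5, nat_lit 71, nat_lit 0, nat_lit 0, nat_lit 0, nat_lit 0, nat_lit 215, nat_lit 46817, nat_lit 268, nat_lit 64942517, nat_lit 0, nat_lit 0, nat_lit 685962, false, false⟩,
 nat_lit 4589, nat_lit 5092, nat_lit 0, nat_lit 0, nat_lit 5200, nat_lit 2405, nat_lit 372, nat_lit 0, nat_lit 0, nat_lit 821, nat_lit 0, nat_lit 0, nat_lit 0, nat_lit 0, nat_lit 32, nat_lit 769000, nat_lit 0, nat_lit 0, [(nat_lit 6, [(nat_lit 6, nat_lit 769)])],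
 ⟨p010_k56, nat_lit 0, nat_lit 0, nat_lit 331, nat_lit 0, nat_lit 170414, [nat_lit 2346292267, nat_lit 2162495601, nat_lit 104836399], [], [nat_lit 15939983549, nat_lit 15925842840, nat_lit 15982977789, nat_lit 15850757389], nat_lit 1271250, nat_lit 1271250, nat_lit 111251, nat_lit 134400, nat_lit 0, nat_lit 0, [nat_lit 1100000, nat_lit 1442500, nat_lit 1271250], [nat_lit 11, nat_lit 40, nat_lit 20, nat_lit 80, nat_lit 1, nat_lit 289, nat_lit 75, nat_lit 9]⟩, ⟨p010_k73, nat_lit 0, nat_lit 0, nat_lit 343, nat_lit 0, nat_lit 174950, [nat_lit 1443750000, nat_lit 1840608000, nat_lit 2273502000], [], [nat_lit 4557443525, nat_lit 4571308212, nat_lit 4486810510, nat_lit 4500637483], nat_lit 1271250, nat_lit 1271250, nat_lit 111251, nat_lit 134400, nat_lit 0, nat_lit 0, [nat_lit 1412500, nat_lit 1271250, nat_lit 1271250], [nat_lit 25, nat_lit 40, nat_lit 20, nat_lit 80, nat_lit 17, nat_lit 289,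 nat_lit 75, nat_lit 9]⟩,
 ⟨nat_lit 6244, nat_lit 6265, ⟨.ofNat (nat_lit 172956), .ofNat (nat_lit 181126), .ofNat (nat_lit 174024), .ofNat (nat_lit 182194), .ofNat (nat_lit 173802), .ofNat (nat_lit 181953), .ofNat (nat_lit 174870), .ofNat (nat_lit 183021)⟩, ⟨.ofNat (nat_lit 0), .ofNat (nat_lit 0), .ofNat (nat_lit 0), .ofNat (nat_lit 0), .ofNat (nat_lit 0), .ofNat (nat_lit 0), .ofNat (nat_lit 0), .ofNat (nat_lit 0)⟩⟩, []⟩
noncomputable def p010_l189 : Lf2 := ⟨nat_lit 0, nat_lit 5, [nat_lit 4, nat_lit 5, nat_lit 5, nat_lit 20], false, nat_lit 0, nat_lit 0, nat_lit 0, nat_lit 0, ⟨nat_lit 91, nat_lit 0, nat_lit 909, nat_lit 5, nat_lit 72, nat_lit 0, nat_lit 0, nat_lit 0, nat_lit 0, nat_lit 215, nat_lit 48600, nat_lit 269, nat_lit 64923754, nat_lit 0, nat_lit 0, nat_lit 690790, false, false⟩,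
 nat_lit 2041, nat_lit 6224, nat_lit 0, nat_lit 0, nat_lit 4461, nat_lit 1069, nat_lit 0, nat_lit 0, nat_lit 0, nat_lit 301, nat_lit 0, nat_lit 0, nat_lit 0, nat_lit 0, nat_lit 98, nat_lit 880800, nat_lit 0, nat_lit 0, [(nat_lit 6, [(nat_lit 5, nat_lit 47), (nat_lit 6, nat_lit 862)])],
 ⟨p010_k74, nat_lit 0, nat_lit 0, nat_lit 332, nat_lit 0, nat_lit 173758, [nat_lit 2903466667, nat_lit 2620778801, nat_lit 134983599], [], [nat_lit 14882395893, nat_lit 14894121604, nat_lit 14932605255, nat_lit 14819175408], nat_lit 1271250, nat_lit 1271250, nat_lit 111251, nat_lit 134400, nat_lit 0, nat_lit 0, [nat_lit 1100000, nat_lit 1442500, nat_lit 1271250], [nat_lit 11, nat_lit 40, nat_lit 20, nat_lit 80, nat_lit 1, nat_lit 289, nat_lit 75, nat_lit 9]⟩, ⟨p010_k73, nat_lit 0, nat_lit 0, nat_lit 345, nat_lit 0, nat_lit 179311, [nat_lit 568750000, nat_lit 725088000, nat_lit 895622000], [], [nat_lit 1976157756,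 nat_lit 1950883909, nat_lit 1975778853, nat_lit 1948597390], nat_lit 1271250, nat_lit 1271250, nat_lit 111251, nat_lit 134400, nat_lit 0, nat_lit 0, [nat_lit 1412500, nat_lit 1271250, nat_lit 1271250], [nat_lit 25, nat_lit 40, nat_lit 20, nat_lit 80, nat_lit 17, nat_lit 289, nat_lit 75, nat_lit 9]⟩,
 ⟨nat_lit 6224, nat_lit 6245, ⟨.ofNat (nat_lit 173802), .ofNat (nat_lit 181953), .ofNat (nat_lit 174870), .ofNat (nat_lit 183021), .ofNat (nat_lit 174647), .ofNat (nat_lit 182778), .ofNat (nat_lit 175714), .ofNat (nat_lit 183846)⟩, ⟨.ofNat (nat_lit 0), .ofNat (nat_lit 0), .ofNat (nat_lit 0), .ofNat (nat_lit 0), .ofNat (nat_lit 0), .ofNat (nat_lit 0), .ofNat (nat_lit 0), .ofNat (nat_lit 0)⟩⟩, []⟩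
noncomputable def p010_l190 : Lf2 := ⟨nat_lit 0, nat_lit 5, [nat_lit 4, nat_lit 5, nat_lit 5, nat_lit 20], false, nat_lit 0, nat_lit 0, nat_lit 0, nat_lit 0, ⟨nat_lit 832, nat_lit 0, nat_lit 168, nat_lit 5, nat_lit 72, nat_lit 0, nat_lit 0, nat_lit 0, nat_lit 0, nat_lit 215, nat_lit 48600, nat_lit 269, nat_lit 64918522, nat_lit 0, nat_lit 0, nat_lit 692133, false, false⟩,
 nat_lit 15453, nat_lit 0, nat_lit 0, nat_lit 0, nat_lit 8301, nat_lit 8140, nat_lit 2273, nat_lit 0, nat_lit 0, nat_lit 2579, nat_lit 0, nat_lit 0, nat_lit 0, nat_lit 0, nat_lit 0, nat_lit 168000, nat_lit 0, nat_lit 0, [(nat_lit 6, [(nat_lit 6, nat_lit 168)])],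
 ⟨p010_k56, nat_lit 0, nat_lit 0, nat_lit 332, nat_lit 0, nat_lit 174418, [nat_lit 4064563201, nat_lit 5217203200, nat_lit 7498265600], [], [nat_lit 20119287957, nat_lit 20067309316, nat_lit 20132702378, nat_lit 19921632851], nat_lit 1271250, nat_lit 1271250, nat_lit 111251, nat_lit 134400, nat_lit 0, nat_lit 0, [nat_lit 1100000, nat_lit 1442500, nat_lit 1271250], [nat_lit 11, nat_lit 40, nat_lit 20, nat_lit 80, nat_lit 1, nat_lit 289, nat_lit 75, nat_lit 9]⟩, ⟨p010_k61, nat_lit 0, nat_lit 0, nat_lit 0, nat_lit 0, nat_lit 178115, [nat_lit 4533984000, nat_lit 5898464000, nat_lit 7392736000], [], [nat_lit 16306225050, nat_lit 16359877663, nat_lit 16072568159, nat_lit 16123863454], nat_lit 1271250, nat_lit 1271250, nat_lit 111251, nat_lit 134400, nat_lit 0, nat_lit 0, [nat_lit 1271250, nat_lit 1271250, nat_lit 1271250], [nat_lit 96, nat_lit 40, nat_lit 20, nat_lit 40]⟩,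
 ⟨nat_lit 6244, nat_lit 6265, ⟨.ofNat (nat_lit 174024), .ofNat (nat_lit 182194), .ofNat (nat_lit 175092), .ofNat (nat_lit 183262), .ofNat (nat_lit 174870), .ofNat (nat_lit 183021), .ofNat (nat_lit 175938), .ofNat (nat_lit 184089)⟩, ⟨.ofNat (nat_lit 0), .ofNat (nat_lit 0), .ofNat (nat_lit 0), .ofNat (nat_lit 0), .ofNat (nat_lit 0), .ofNat (nat_lit 0), .ofNat (nat_lit 0), .ofNat (nat_lit 0)⟩⟩, []⟩
noncomputable def p010_l191 : Lf2 := ⟨nat_lit 3, nat_lit 5, [nat_lit 4, nat_lit 5, nat_lit 5, nat_lit 20], false, nat_lit 0, nat_lit 0, nat_lit 0, nat_lit 0, zbN0,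
 nat_lit 0, nat_lit 0, nat_lit 0, nat_lit 0, nat_lit 0, nat_lit 0, nat_lit 0, nat_lit 0, nat_lit 0, nat_lit 0, nat_lit 0, nat_lit 0, nat_lit 0, nat_lit 0, nat_lit 0, nat_lit 0, nat_lit 0, nat_lit 0, [],
 C1.Rw.none, ⟨p010_k67, nat_lit 0, nat_lit 0, nat_lit 333, nat_lit 0, nat_lit 178115, [], [], [], nat_lit 1271250, nat_lit 1271250, nat_lit 111251, nat_lit 134400, nat_lit 0, nat_lit 0, [nat_lit 1412500, nat_lit 1271250], [nat_lit 51, nat_lit 40, nat_lit 20, nat_lit 80, nat_lit 1, nat_lit 289, nat_lit 75, nat_lit 9]⟩,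
 zbF0, []⟩
noncomputable def p010_l192 : Lf2 := ⟨nat_lit 0, nat_lit 5, [nat_lit 4, nat_lit 5, nat_lit 5, nat_lit 20], false, nat_lit 0, nat_lit 0, nat_lit 0, nat_lit 0, ⟨nat_lit 799, nat_lit 0, nat_lit 201, nat_lit 5, nat_lit 72, nat_lit 0, nat_lit 0, nat_lit 0, nat_lit 0, nat_lit 215, nat_lit 48600, nat_lit 269, nat_lit 64899663, nat_lit 0, nat_lit 0, nat_lit 696969, false, false⟩,
 nat_lit 14829, nat_lit 0, nat_lit 0, nat_lit 0, nat_lit 8004, nat_lit 7811, nat_lit 2220, nat_lit 0, nat_lit 0, nat_lit 2474, nat_lit 0, nat_lit 0, nat_lit 0, nat_lit 0, nat_lit 0, nat_lit 201000, nat_lit 0, nat_lit 0, [(nat_lit 6, [(nat_lit 6, nat_lit 201)])],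
 ⟨p010_k74, nat_lit 0, nat_lit 0, nat_lit 334, nat_lit 0, nat_lit 177767, [nat_lit 3942102401, nat_lit 5014332400, nat_lit 7037889200], [], [nat_lit 19657285086, nat_lit 19606328604, nat_lit 19673830280, nat_lit 19470312572], nat_lit 1271250, nat_lit 1271250, nat_lit 111251, nat_lit 134400, nat_lit 0, nat_lit 0, [nat_lit 1100000, nat_lit 1442500, nat_lit 1271250], [nat_lit 11, nat_lit 40, nat_lit 20, nat_lit 80, nat_lit 1, nat_lit 289, nat_lit 75, nat_lit 9]⟩, ⟨p010_k61, nat_lit 0, nat_lit 0, nat_lit 0, nat_lit 0, nat_lit 182480, [nat_lit 4354150500, nat_lit 5664510500, nat_lit 7099514500], [], [nat_lit 15673784303, nat_lit 15723159152, nat_lit 15449611895, nat_lit 15498851911], nat_lit 1271250, nat_lit 1271250, nat_lit 111251, nat_lit 134400, nat_lit 0, nat_lit 0, [nat_lit 1271250, nat_lit 1271250, nat_lit 1271250], [nat_lit 96, nat_lit 40, nat_lit 20, nat_lit 40]⟩,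
 ⟨nat_lit 6224, nat_lit 6245, ⟨.ofNat (nat_lit 174870), .ofNat (nat_lit 183021), .ofNat (nat_lit 175938), .ofNat (nat_lit 184089), .ofNat (nat_lit 175714), .ofNat (nat_lit 183846), .ofNat (nat_lit 176782), .ofNat (nat_lit 184914)⟩, ⟨.ofNat (nat_lit 0), .ofNat (nat_lit 0), .ofNat (nat_lit 0), .ofNat (nat_lit 0), .ofNat (nat_lit 0), .ofNat (nat_lit 0), .ofNat (nat_lit 0), .ofNat (nat_lit 0)⟩⟩, []⟩
noncomputable def p010_l193 : Lf2 := ⟨nat_lit 3, nat_lit 5, [nat_lit 4, nat_lit 5, nat_lit 5, nat_lit 20], false, nat_lit 0, nat_lit 0, nat_lit 0, nat_lit 0, zbN0,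
 nat_lit 0, nat_lit 0, nat_lit 0, nat_lit 0, nat_lit 0, nat_lit 0, nat_lit 0, nat_lit 0, nat_lit 0, nat_lit 0, nat_lit 0, nat_lit 0, nat_lit 0, nat_lit 0, nat_lit 0, nat_lit 0, nat_lit 0, nat_lit 0, [],
 C1.Rw.none, ⟨p010_k67, nat_lit 0, nat_lit 0, nat_lit 334, nat_lit 0, nat_lit 182480, [], [], [], nat_lit 1271250, nat_lit 1271250, nat_lit 111251, nat_lit 134400, nat_lit 0, nat_lit 0, [nat_lit 1412500, nat_lit 1271250], [nat_lit 51, nat_lit 40, nat_lit 20, nat_lit 80, nat_lit 1, nat_lit 289, nat_lit 75, nat_lit 9]⟩,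
 zbF0, []⟩
noncomputable def p010_l194 : Lf2 := ⟨nat_lit 0, nat_lit 5, [nat_lit 4, nat_lit 5, nat_lit 5, nat_lit 20], false, nat_lit 0, nat_lit 0, nat_lit 0, nat_lit 0, ⟨nat_lit 279, nat_lit 0, nat_lit 721, nat_lit 5, nat_lit 75, nat_lit 0, nat_lit 0, nat_lit 0, nat_lit 0, nat_lit 215, nat_lit 54150, nat_lit 272, nat_lit 64704518, nat_lit 0, nat_lit 0, nat_lit 746256, false, false⟩,
 nat_lit 5731, nat_lit 4732, nat_lit 0, nat_lit 0, nat_lit 5539, nat_lit 2959, nat_lit 364, nat_lit 0, nat_lit 0, nat_lit 1039, nat_lit 0, nat_lit 0, nat_lit 0, nat_lit 0, nat_lit 8, nat_lit 721000, nat_lit 0, nat_lit 0, [(nat_lit 6, [(nat_lit 6, nat_lit 721)])],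
 ⟨p010_k39, nat_lit 0, nat_lit 0, nat_lit 332, nat_lit 0, nat_lit 181520, [nat_lit 2140417067, nat_lit 1977580401, nat_lit 86807599], [], [nat_lit 16706277496, nat_lit 16735847379, nat_lit 16808181233, nat_lit 16393213544], nat_lit 1271250, nat_lit 1271250, nat_lit 134400, nat_lit 181601, nat_lit 0, nat_lit 0, [nat_lit 1100000, nat_lit 1442500, nat_lit 1271250], [nat_lit 11, nat_lit 40, nat_lit 20, nat_lit 80, nat_lit 1, nat_lit 289, nat_lit 75, nat_lit 9]⟩, ⟨p010_k71, nat_lit 0, nat_lit 0, nat_lit 344, nat_lit 0, nat_lit 186408, [nat_lit 1743750000, nat_lit 2223072000, nat_lit 2745918000], [], [nat_lit 5330493851, nat_lit 5416584531, nat_lit 5156297790, nat_lit 5240164113], nat_lit 1271250, nat_lit 1271250, nat_lit 134400, nat_lit 181601, nat_lit 0, nat_lit 0, [nat_lit 1412500, nat_lit 1271250, nat_lit 1271250], [nat_lit 25, nat_lit 40, nat_lit 20, nat_lit 80, nat_lit 17, nat_lit 289, nat_lit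 75, nat_lit 9]⟩,
 ⟨nat_lit 6224, nat_lit 6325, ⟨.ofNat (nat_lit 175430), .ofNat (nat_lit 191883), .ofNat (nat_lit 180772), .ofNat (nat_lit 197224), .ofNat (nat_lit 179575), .ofNat (nat_lit 195838), .ofNat (nat_lit 184914), .ofNat (nat_lit 201178)⟩, ⟨.ofNat (nat_lit 0), .ofNat (nat_lit 0), .ofNat (nat_lit 0), .ofNat (nat_lit 0), .ofNat (nat_lit 0), .ofNat (nat_lit 0), .ofNat (nat_lit 0), .ofNat (nat_lit 0)⟩⟩, []⟩
noncomputable def p010_l195 : Lf2 := ⟨nat_lit 0, nat_lit 5, [nat_lit 4, nat_lit 5, nat_lit 5, nat_lit 20], true, nat_lit 0, nat_lit 0, nat_lit 0, nat_lit 0, ⟨nat_lit 0, nat_lit 0, nat_lit 1000, nat_lit 5, nat_lit 73, nat_lit 0, nat_lit 0, nat_lit 0, nat_lit 0, nat_lit 215, nat_lit 50417, nat_lit 270, nat_lit 64852599, nat_lit 0, nat_lit 0, nat_lit 708979, false, false⟩,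
 nat_lit 0, nat_lit 7983, nat_lit 0, nat_lit 0, nat_lit 4226, nat_lit 0, nat_lit 0, nat_lit 0, nat_lit 0, nat_lit 0, nat_lit 0, nat_lit 0, nat_lit 0, nat_lit 0, nat_lit 95, nat_lit 594400, nat_lit 0, nat_lit 0, [(nat_lit 6, [(nat_lit 5, nat_lit 676), (nat_lit 6, nat_lit 324)])],
 ⟨p010_k39, nat_lit 0, nat_lit 0, nat_lit 312, nat_lit 0, nat_lit 121216, [nat_lit 2794867201, nat_lit 1987257601, nat_lit 27584000], [], [nat_lit 14491054131, nat_lit 14499554497, nat_lit 14665370672, nat_lit 14451090497], nat_lit 1271250, nat_lit 1271250, nat_lit 111251, nat_lit 181601, nat_lit 0, nat_lit 0, [nat_lit 1100000, nat_lit 1442500, nat_lit 1271250], [nat_lit 11, nat_lit 40, nat_lit 20, nat_lit 80, nat_lit 1, nat_lit 289, nat_lit 75, nat_lit 9]⟩, C1.Rw.none,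
 ⟨nat_lit 6284, nat_lit 6325, ⟨.ofNat (nat_lit 167203), .ofNat (nat_lit 191883), .ofNat (nat_lit 170408), .ofNat (nat_lit 195088), .ofNat (nat_lit 168904), .ofNat (nat_lit 193469), .ofNat (nat_lit 172108), .ofNat (nat_lit 196674)⟩, ⟨.ofNat (nat_lit 0), .ofNat (nat_lit 0), .ofNat (nat_lit 0), .ofNat (nat_lit 0), .ofNat (nat_lit 0), .ofNat (nat_lit 0), .ofNat (nat_lit 0), .ofNat (nat_lit 0)⟩⟩, []⟩
noncomputable def p010_l196 : Lf2 := ⟨nat_lit 0, nat_lit 5, [nat_lit 4, nat_lit 5, nat_lit 5, nat_lit 20], true, nat_lit 0, nat_lit 0, nat_lit 0, nat_lit 0, ⟨nat_lit 0, nat_lit 0, nat_lit 1000, nat_lit 5, nat_lit 73, nat_lit 0, nat_lit 0, nat_lit 0, nat_lit 0, nat_lit 215, nat_lit 50417, nat_lit 270, nat_lit 64813001, nat_lit 0, nat_lit 0, nat_lit 719022, false, false⟩,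
 nat_lit 0, nat_lit 8004, nat_lit 0, nat_lit 0, nat_lit 4237, nat_lit 0, nat_lit 0, nat_lit 0, nat_lit 0, nat_lit 0, nat_lit 0, nat_lit 0, nat_lit 0, nat_lit 0, nat_lit 94, nat_lit 590200, nat_lit 0, nat_lit 0, [(nat_lit 6, [(nat_lit 5, nat_lit 683), (nat_lit 6, nat_lit 317)])],
 ⟨p010_k39, nat_lit 0, nat_lit 0, nat_lit 312, nat_lit 0, nat_lit 121014, [nat_lit 2781950934, nat_lit 1967100801, nat_lit 14872000], [], [nat_lit 14476883472, nat_lit 14454773671, nat_lit 14650921282, nat_lit 14543502316], nat_lit 1271250, nat_lit 1271250, nat_lit 111251, nat_lit 181601, nat_lit 0, nat_lit 0, [nat_lit 1100000, nat_lit 1442500, nat_lit 1271250], [nat_lit 11, nat_lit 40, nat_lit 20, nat_lit 80, nat_lit 1, nat_lit 289, nat_lit 75, nat_lit 9]⟩, C1.Rw.none,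
 ⟨nat_lit 6304, nat_lit 6325, ⟨.ofNat (nat_lit 170408), .ofNat (nat_lit 195088), .ofNat (nat_lit 171477), .ofNat (nat_lit 196156), .ofNat (nat_lit 171259), .ofNat (nat_lit 195881), .ofNat (nat_lit 172327), .ofNat (nat_lit 196950)⟩, ⟨.ofNat (nat_lit 0), .ofNat (nat_lit 0), .ofNat (nat_lit 0), .ofNat (nat_lit 0), .ofNat (nat_lit 0), .ofNat (nat_lit 0), .ofNat (nat_lit 0), .ofNat (nat_lit 0)⟩⟩, []⟩
noncomputable def p010_l197 : Lf2 := ⟨nat_lit 0, nat_lit 5, [nat_lit 4, nat_lit 5, nat_lit 5, nat_lit 20], false, nat_lit 0, nat_lit 0, nat_lit 0, nat_lit 0, ⟨nat_lit 1000, nat_lit 0, nat_lit 0, nat_lit 0, nat_lit 0, nat_lit 0, nat_lit 0, nat_lit 0, nat_lit 0, nat_lit 0, nat_lit 0, nat_lit 0, nat_lit 0, nat_lit 0, nat_lit 0, nat_lit 0, false, false⟩,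
 nat_lit 16123, nat_lit 1846, nat_lit 0, nat_lit 0, nat_lit 9512, nat_lit 8493, nat_lit 2640, nat_lit 0, nat_lit 0, nat_lit 0, nat_lit 0, nat_lit 0, nat_lit 0, nat_lit 0, nat_lit 0, nat_lit 0, nat_lit 0, nat_lit 0, [],
 ⟨p010_k39, nat_lit 0, nat_lit 0, nat_lit 314, nat_lit 0, nat_lit 125262, [nat_lit 4688000000, nat_lit 6250000000, nat_lit 9842000000], [], [nat_lit 22088851136, nat_lit 22044313914, nat_lit 22089652532, nat_lit 21847790908], nat_lit 1271250, nat_lit 1271250, nat_lit 111251, nat_lit 134400, nat_lit 0, nat_lit 0, [nat_lit 1100000, nat_lit 1442500, nat_lit 1271250], [nat_lit 11, nat_lit 40, nat_lit 20, nat_lit 80, nat_lit 1, nat_lit 289, nat_lit 75, nat_lit 9]⟩, ⟨p010_k61, nat_lit 0, nat_lit 0, nat_lit 0, nat_lit 0, nat_lit 125931, [nat_lit 5449500000, nat_lit 7089500000, nat_lit 8885500000], [], [nat_lit 26255037637, nat_lit 26326015600, nat_lit 25965629136, nat_lit 26036477993],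 nat_lit 1271250, nat_lit 1271250, nat_lit 111251, nat_lit 134400, nat_lit 0, nat_lit 0, [nat_lit 1271250, nat_lit 1271250, nat_lit 1271250], [nat_lit 96, nat_lit 40, nat_lit 20, nat_lit 40]⟩,
 zbF0, []⟩
noncomputable def p010_l198 : Lf2 := ⟨nat_lit 3, nat_lit 5, [nat_lit 4, nat_lit 5, nat_lit 5, nat_lit 20], false, nat_lit 0, nat_lit 0, nat_lit 0, nat_lit 0, zbN0,
 nat_lit 0, nat_lit 0, nat_lit 0, nat_lit 0, nat_lit 0, nat_lit 0, nat_lit 0, nat_lit 0, nat_lit 0, nat_lit 0, nat_lit 0, nat_lit 0, nat_lit 0, nat_lit 0, nat_lit 0, nat_lit 0, nat_lit 0, nat_lit 0, [],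
 C1.Rw.none, ⟨p010_k67, nat_lit 0, nat_lit 0, nat_lit 314, nat_lit 0, nat_lit 125931, [], [], [], nat_lit 1271250, nat_lit 1271250, nat_lit 111251, nat_lit 134400, nat_lit 0, nat_lit 0, [nat_lit 1412500, nat_lit 1271250], [nat_lit 51, nat_lit 40, nat_lit 20, nat_lit 80, nat_lit 1, nat_lit 289, nat_lit 75, nat_lit 9]⟩,
 zbF0, []⟩
noncomputable def p010_l199 : Lf2 := ⟨nat_lit 0, nat_lit 5, [nat_lit 4, nat_lit 5, nat_lit 5, nat_lit 20], true, nat_lit 0, nat_lit 0, nat_lit 0, nat_lit 0, ⟨nat_lit 0, nat_lit 0, nat_lit 1000, nat_lit 5, nat_lit 76, nat_lit 0, nat_lit 0, nat_lit 0, nat_lit 0, nat_lit 215, nat_lit 54150, nat_lit 272, nat_lit 64692301, nat_lit 0, nat_lit 0, nat_lit 749298, false, false⟩,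
 nat_lit 0, nat_lit 8109, nat_lit 0, nat_lit 0, nat_lit 4293, nat_lit 0, nat_lit 0, nat_lit 0, nat_lit 0, nat_lit 0, nat_lit 0, nat_lit 0, nat_lit 0, nat_lit 0, nat_lit 90, nat_lit 557200, nat_lit 0, nat_lit 0, [(nat_lit 6, [(nat_lit 5, nat_lit 738), (nat_lit 6, nat_lit 262)])],
 ⟨p010_k39, nat_lit 0, nat_lit 0, nat_lit 310, nat_lit 0, nat_lit 125262, [nat_lit 2742180267, nat_lit 1885868801, nat_lit 22992000], [], [nat_lit 14463571606, nat_lit 14450769448, nat_lit 14585023588, nat_lit 14476184876], nat_lit 1271250, nat_lit 1271250, nat_lit 134400, nat_lit 181601, nat_lit 0, nat_lit 0, [nat_lit 1100000, nat_lit 1442500, nat_lit 1271250], [nat_lit 11, nat_lit 40, nat_lit 20, nat_lit 80, nat_lit 1, nat_lit 289, nat_lit 75, nat_lit 9]⟩, C1.Rw.none,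
 ⟨nat_lit 6304, nat_lit 6325, ⟨.ofNat (nat_lit 179703), .ofNat (nat_lit 196156), .ofNat (nat_lit 180772), .ofNat (nat_lit 197224), .ofNat (nat_lit 180535), .ofNat (nat_lit 196950), .ofNat (nat_lit 181603), .ofNat (nat_lit 198018)⟩, ⟨.ofNat (nat_lit 0), .ofNat (nat_lit 0), .ofNat (nat_lit 0), .ofNat (nat_lit 0), .ofNat (nat_lit 0), .ofNat (nat_lit 0), .ofNat (nat_lit 0), .ofNat (nat_lit 0)⟩⟩, []⟩
noncomputable def p010_l200 : Lf2 := ⟨nat_lit 0, nat_lit 5, [nat_lit 4, nat_lit 5, nat_lit 5, nat_lit 20], true, nat_lit 0, nat_lit 0, nat_lit 0, nat_lit 0, ⟨nat_lit 0, nat_lit 0, nat_lit 1000, nat_lit 5, nat_lit 74, nat_lit 0, nat_lit 0, nat_lit 0, nat_lit 0, nat_lit 215, nat_lit 50417, nat_lit 270, nat_lit 64794042, nat_lit 0, nat_lit 0, nat_lit 723811, false, false⟩,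
 nat_lit 0, nat_lit 7901, nat_lit 0, nat_lit 0, nat_lit 4203, nat_lit 0, nat_lit 0, nat_lit 0, nat_lit 0, nat_lit 0, nat_lit 0, nat_lit 0, nat_lit 0, nat_lit 0, nat_lit 99, nat_lit 627400, nat_lit 0, nat_lit 0, [(nat_lit 6, [(nat_lit 5, nat_lit 621), (nat_lit 6, nat_lit 379)])],
 ⟨p010_k51, nat_lit 0, nat_lit 0, nat_lit 314, nat_lit 0, nat_lit 124776, [nat_lit 2834637867, nat_lit 2068489601, nat_lit 19464000], [], [nat_lit 14397684421, nat_lit 14364296106, nat_lit 14573052818, nat_lit 14466495840], nat_lit 1271250, nat_lit 1271250, nat_lit 111251, nat_lit 181601, nat_lit 0, nat_lit 0, [nat_lit 1100000, nat_lit 1442500, nat_lit 1271250], [nat_lit 11, nat_lit 40, nat_lit 20, nat_lit 80, nat_lit 1, nat_lit 289, nat_lit 75, nat_lit 9]⟩, C1.Rw.none,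
 ⟨nat_lit 6284, nat_lit 6305, ⟨.ofNat (nat_lit 171259), .ofNat (nat_lit 195881), .ofNat (nat_lit 172327), .ofNat (nat_lit 196950), .ofNat (nat_lit 172108), .ofNat (nat_lit 196674), .ofNat (nat_lit 173177), .ofNat (nat_lit 197742)⟩, ⟨.ofNat (nat_lit 0), .ofNat (nat_lit 0), .ofNat (nat_lit 0), .ofNat (nat_lit 0), .ofNat (nat_lit 0), .ofNat (nat_lit 0), .ofNat (nat_lit 0), .ofNat (nat_lit 0)⟩⟩, []⟩
noncomputable def p010_l201 : Lf2 := ⟨nat_lit 0, nat_lit 5, [nat_lit 4, nat_lit 5, nat_lit 5, nat_lit 20], false, nat_lit 0, nat_lit 0, nat_lit 0, nat_lit 0, ⟨nat_lit 117, nat_lit 0, nat_lit 883, nat_lit 5, nat_lit 74, nat_lit 0, nat_lit 0, nat_lit 0, nat_lit 0, nat_lit 215, nat_lit 52267, nat_lit 271, nat_lit 64769275, nat_lit 0, nat_lit 0, nat_lit 730048, false, false⟩,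
 nat_lit 2314, nat_lit 6409, nat_lit 0, nat_lit 0, nat_lit 4640, nat_lit 1219, nat_lit 0, nat_lit 0, nat_lit 0, nat_lit 411, nat_lit 0, nat_lit 0, nat_lit 0, nat_lit 0, nat_lit 76, nat_lit 779800, nat_lit 0, nat_lit 0, [(nat_lit 6, [(nat_lit 5, nat_lit 172), (nat_lit 6, nat_lit 711)])],
 ⟨p010_k51, nat_lit 0, nat_lit 0, nat_lit 315, nat_lit 0, nat_lit 128977, [nat_lit 2703017600, nat_lit 2337816401, nat_lit 111417999], [], [nat_lit 15408578434, nat_lit 15398053951, nat_lit 15572922371, nat_lit 15455286306], nat_lit 1271250, nat_lit 1271250, nat_lit 111251, nat_lit 181601, nat_lit 0, nat_lit 0, [nat_lit 1100000, nat_lit 1442500, nat_lit 1271250], [nat_lit 11, nat_lit 40, nat_lit 20, nat_lit 80, nat_lit 1, nat_lit 289, nat_lit 75, nat_lit 9]⟩, ⟨p010_k69, nat_lit 0, nat_lit 0, nat_lit 323, nat_lit 0, nat_lit 130355, [nat_lit 731250000, nat_lit 932256000, nat_lit 1151514000], [], [nat_lit 2308245870,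 nat_lit 2324207444, nat_lit 2197079972, nat_lit 2204047715], nat_lit 1271250, nat_lit 1271250, nat_lit 111251, nat_lit 181601, nat_lit 0, nat_lit 0, [nat_lit 1412500, nat_lit 1271250, nat_lit 1271250], [nat_lit 25, nat_lit 40, nat_lit 20, nat_lit 80, nat_lit 17, nat_lit 289, nat_lit 75, nat_lit 9]⟩,
 ⟨nat_lit 6284, nat_lit 6305, ⟨.ofNat (nat_lit 172327), .ofNat (nat_lit 196950), .ofNat (nat_lit 173396), .ofNat (nat_lit 198018), .ofNat (nat_lit 173177), .ofNat (nat_lit 197742), .ofNat (nat_lit 174245), .ofNat (nat_lit 198810)⟩, ⟨.ofNat (nat_lit 0), .ofNat (nat_lit 0), .ofNat (nat_lit 0), .ofNat (nat_lit 0), .ofNat (nat_lit 0), .ofNat (nat_lit 0), .ofNat (nat_lit 0), .ofNat (nat_lit 0)⟩⟩, []⟩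
noncomputable def p010_l202 : Lf2 := ⟨nat_lit 0, nat_lit 5, [nat_lit 4, nat_lit 5, nat_lit 5, nat_lit 20], true, nat_lit 0, nat_lit 0, nat_lit 0, nat_lit 0, ⟨nat_lit 0, nat_lit 0, nat_lit 1000, nat_lit 5, nat_lit 74, nat_lit 0, nat_lit 0, nat_lit 0, nat_lit 0, nat_lit 215, nat_lit 50417, nat_lit 270, nat_lit 64799776, nat_lit 0, nat_lit 0, nat_lit 722364, false, false⟩,
 nat_lit 0, nat_lit 7800, nat_lit 0, nat_lit 0, nat_lit 4169, nat_lit 0, nat_lit 0, nat_lit 0, nat_lit 0, nat_lit 0, nat_lit 0, nat_lit 0, nat_lit 0, nat_lit 0, nat_lit 103, nat_lit 663400, nat_lit 0, nat_lit 0, [(nat_lit 6, [(nat_lit 5, nat_lit 561), (nat_lit 6, nat_lit 439)])],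
 ⟨p010_k55, nat_lit 0, nat_lit 0, nat_lit 317, nat_lit 0, nat_lit 132650, [nat_lit 2872205867, nat_lit 2149833601, nat_lit 14641599], [], [nat_lit 14321008402, nat_lit 14293839473, nat_lit 14497699798, nat_lit 14392004808], nat_lit 1271250, nat_lit 1271250, nat_lit 111251, nat_lit 181601, nat_lit 0, nat_lit 0, [nat_lit 1100000, nat_lit 1442500, nat_lit 1271250], [nat_lit 11, nat_lit 40, nat_lit 20, nat_lit 80, nat_lit 1, nat_lit 289, nat_lit 75, nat_lit 9]⟩, C1.Rw.none,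
 ⟨nat_lit 6264, nat_lit 6285, ⟨.ofNat (nat_lit 168904), .ofNat (nat_lit 193469), .ofNat (nat_lit 174245), .ofNat (nat_lit 198810), .ofNat (nat_lit 169752), .ofNat (nat_lit 194260), .ofNat (nat_lit 175092), .ofNat (nat_lit 199601)⟩, ⟨.ofNat (nat_lit 0), .ofNat (nat_lit 0), .ofNat (nat_lit 0), .ofNat (nat_lit 0), .ofNat (nat_lit 0), .ofNat (nat_lit 0), .ofNat (nat_lit 0), .ofNat (nat_lit 0)⟩⟩, []⟩
noncomputable def p010_l203 : Lf2 := ⟨nat_lit 0, nat_lit 5, [nat_lit 4, nat_lit 5, nat_lit 5, nat_lit 20], true, nat_lit 0, nat_lit 0, nat_lit 0, nat_lit 0, ⟨nat_lit 0, nat_lit 0, nat_lit 1000, nat_lit 5, nat_lit 74, nat_lit 0, nat_lit 0, nat_lit 0, nat_lit 0, nat_lit 215, nat_lit 52267, nat_lit 271, nat_lit 64771363, nat_lit 0, nat_lit 0, nat_lit 729523, false, false⟩,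
 nat_lit 0, nat_lit 7682, nat_lit 0, nat_lit 0, nat_lit 4126, nat_lit 0, nat_lit 0, nat_lit 0, nat_lit 0, nat_lit 0, nat_lit 0, nat_lit 0, nat_lit 0, nat_lit 0, nat_lit 109, nat_lit 702400, nat_lit 0, nat_lit 0, [(nat_lit 6, [(nat_lit 5, nat_lit 496), (nat_lit 6, nat_lit 504)])],
 ⟨p010_k56, nat_lit 0, nat_lit 0, nat_lit 320, nat_lit 0, nat_lit 140616, [nat_lit 2939571200, nat_lit 2271289601, nat_lit 58777599], [], [nat_lit 14258633463, nat_lit 14274674359, nat_lit 14436865308, nat_lit 14227655653], nat_lit 1271250, nat_lit 1271250, nat_lit 111251, nat_lit 181601, nat_lit 0, nat_lit 0, [nat_lit 1100000, nat_lit 1442500, nat_lit 1271250], [nat_lit 11, nat_lit 40, nat_lit 20, nat_lit 80, nat_lit 1, nat_lit 289, nat_lit 75, nat_lit 9]⟩, C1.Rw.none,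
 ⟨nat_lit 6224, nat_lit 6265, ⟨.ofNat (nat_lit 169752), .ofNat (nat_lit 194260), .ofNat (nat_lit 175092), .ofNat (nat_lit 199601), .ofNat (nat_lit 171443), .ofNat (nat_lit 195838), .ofNat (nat_lit 176782), .ofNat (nat_lit 201178)⟩, ⟨.ofNat (nat_lit 0), .ofNat (nat_lit 0), .ofNat (nat_lit 0), .ofNat (nat_lit 0), .ofNat (nat_lit 0), .ofNat (nat_lit 0), .ofNat (nat_lit 0), .ofNat (nat_lit 0)⟩⟩, []⟩
noncomputable def p010_l204 : Lf2 := ⟨nat_lit 0, nat_lit 5, [nat_lit 4, nat_lit 5, nat_lit 5, nat_lit 20], true, nat_lit 0, nat_lit 0, nat_lit 0, nat_lit 0, ⟨nat_lit 0, nat_lit 0, nat_lit 1000, nat_lit 5, nat_lit 74, nat_lit 0, nat_lit 0, nat_lit 0, nat_lit 0, nat_lit 215, nat_lit 50417, nat_lit 270, nat_lit 64799883, nat_lit 0, nat_lit 0, nat_lit 722337, false, false⟩,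
 nat_lit 0, nat_lit 7611, nat_lit 0, nat_lit 0, nat_lit 4029, nat_lit 0, nat_lit 351, nat_lit 0, nat_lit 0, nat_lit 0, nat_lit 0, nat_lit 0, nat_lit 0, nat_lit 0, nat_lit 147, nat_lit 1000000, nat_lit 0, nat_lit 0, [(nat_lit 6, [(nat_lit 6, nat_lit 1000)])],
 ⟨p010_k39, nat_lit 0, nat_lit 0, nat_lit 307, nat_lit 0, nat_lit 102816, [nat_lit 3329066667, nat_lit 3042400001, nat_lit 177599999], [], [nat_lit 11909001629, nat_lit 12138385666, nat_lit 11660307845, nat_lit 11887986179], nat_lit 1271250, nat_lit 1271250, nat_lit 111251, nat_lit 181601, nat_lit 0, nat_lit 0, [nat_lit 1100000, nat_lit 1442500, nat_lit 1271250], [nat_lit 11, nat_lit 40, nat_lit 20, nat_lit 80, nat_lit 1, nat_lit 289, nat_lit 75, nat_lit 9]⟩, C1.Rw.none,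
 ⟨nat_lit 6224, nat_lit 6325, ⟨.ofNat (nat_lit 167203), .ofNat (nat_lit 191883), .ofNat (nat_lit 172545), .ofNat (nat_lit 197224), .ofNat (nat_lit 171443), .ofNat (nat_lit 195838), .ofNat (nat_lit 176782), .ofNat (nat_lit 201178)⟩, ⟨.ofNat (nat_lit 0), .ofNat (nat_lit 0), .ofNat (nat_lit 0), .ofNat (nat_lit 0), .ofNat (nat_lit 0), .ofNat (nat_lit 0), .ofNat (nat_lit 0), .ofNat (nat_lit 0)⟩⟩, []⟩
noncomputable def p010_l205 : Lf2 := ⟨nat_lit 0, nat_lit 5, [nat_lit 4, nat_lit 5, nat_lit 5, nat_lit 20], true, nat_lit 0, nat_lit 0, nat_lit 0, nat_lit 0, ⟨nat_lit 0, nat_lit 0, nat_lit 1000, nat_lit 5, nat_lit 75, nat_lit 0, nat_lit 0, nat_lit 0, nat_lit 0, nat_lit 215, nat_lit 52267, nat_lit 271, nat_lit 64748794, nat_lit 0, nat_lit 0, nat_lit 735190, false, false⟩,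
 nat_lit 0, nat_lit 7500, nat_lit 0, nat_lit 0, nat_lit 4068, nat_lit 0, nat_lit 0, nat_lit 0, nat_lit 0, nat_lit 0, nat_lit 0, nat_lit 0, nat_lit 0, nat_lit 0, nat_lit 120, nat_lit 791200, nat_lit 0, nat_lit 0, [(nat_lit 6, [(nat_lit 5, nat_lit 348), (nat_lit 6, nat_lit 652)])],
 ⟨p010_k64, nat_lit 0, nat_lit 0, nat_lit 336, nat_lit 0, nat_lit 182061, [nat_lit 3050372267, nat_lit 2494604801, nat_lit 84748799], [], [nat_lit 14086643145, nat_lit 14150974584, nat_lit 14267233224, nat_lit 13957830093], nat_lit 1271250, nat_lit 1271250, nat_lit 111251, nat_lit 181601, nat_lit 0, nat_lit 0, [nat_lit 1100000, nat_lit 1442500, nat_lit 1271250], [nat_lit 11, nat_lit 40, nat_lit 20, nat_lit 80, nat_lit 1, nat_lit 289, nat_lit 75, nat_lit 9]⟩, C1.Rw.none,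
 ⟨nat_lit 6164, nat_lit 6225, ⟨.ofNat (nat_lit 171443), .ofNat (nat_lit 195838), .ofNat (nat_lit 174647), .ofNat (nat_lit 199042), .ofNat (nat_lit 173968), .ofNat (nat_lit 198195), .ofNat (nat_lit 177171), .ofNat (nat_lit 201397)⟩, ⟨.ofNat (nat_lit 0), .ofNat (nat_lit 0), .ofNat (nat_lit 0), .ofNat (nat_lit 0), .ofNat (nat_lit 0), .ofNat (nat_lit 0), .ofNat (nat_lit 0), .ofNat (nat_lit 0)⟩⟩, []⟩
noncomputable def p010_l206 : Lf2 := ⟨nat_lit 0, nat_lit 5, [nat_lit 4, nat_lit 5, nat_lit 5, nat_lit 20], true, nat_lit 0, nat_lit 0, nat_lit 0, nat_lit 0, ⟨nat_lit 0, nat_lit 0, nat_lit 1000, nat_lit 5, nat_lit 75, nat_lit 0, nat_lit 0, nat_lit 0, nat_lit 0, nat_lit 215, nat_lit 52267, nat_lit 271, nat_lit 64717827, nat_lit 0, nat_lit 0, nat_lit 742937, false, false⟩,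
 nat_lit 0, nat_lit 7539, nat_lit 0, nat_lit 0, nat_lit 4089, nat_lit 0, nat_lit 0, nat_lit 0, nat_lit 0, nat_lit 0, nat_lit 0, nat_lit 0, nat_lit 0, nat_lit 0, nat_lit 119, nat_lit 785800, nat_lit 0, nat_lit 0, [(nat_lit 6, [(nat_lit 5, nat_lit 357), (nat_lit 6, nat_lit 643)])],
 ⟨p010_k64, nat_lit 0, nat_lit 0, nat_lit 334, nat_lit 0, nat_lit 177233, [nat_lit 3038337067, nat_lit 2474403201, nat_lit 73899199], [], [nat_lit 14055189492, nat_lit 14050172535, nat_lit 14235259166, nat_lit 14131592384], nat_lit 1271250, nat_lit 1271250, nat_lit 111251, nat_lit 181601, nat_lit 0, nat_lit 0, [nat_lit 1100000, nat_lit 1442500, nat_lit 1271250], [nat_lit 11, nat_lit 40, nat_lit 20, nat_lit 80, nat_lit 1, nat_lit 289, nat_lit 75, nat_lit 9]⟩, C1.Rw.none,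
 ⟨nat_lit 6204, nat_lit 6225, ⟨.ofNat (nat_lit 174647), .ofNat (nat_lit 199042), .ofNat (nat_lit 175714), .ofNat (nat_lit 200110), .ofNat (nat_lit 175490), .ofNat (nat_lit 199829), .ofNat (nat_lit 176557), .ofNat (nat_lit 200896)⟩, ⟨.ofNat (nat_lit 0), .ofNat (nat_lit 0), .ofNat (nat_lit 0), .ofNat (nat_lit 0), .ofNat (nat_lit 0), .ofNat (nat_lit 0), .ofNat (nat_lit 0), .ofNat (nat_lit 0)⟩⟩, []⟩
noncomputable def p010_l207 : Lf2 := ⟨nat_lit 0, nat_lit 5, [nat_lit 4, nat_lit 5, nat_lit 5, nat_lit 20], false, nat_lit 0, nat_lit 0, nat_lit 0, nat_lit 0, ⟨nat_lit 766, nat_lit 0, nat_lit 234, nat_lit 5, nat_lit 72, nat_lit 0, nat_lit 0, nat_lit 0, nat_lit 0, nat_lit 215, nat_lit 48600, nat_lit 269, nat_lit 64880761, nat_lit 0, nat_lit 0, nat_lit 701802, false, false⟩,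
 nat_lit 14222, nat_lit 0, nat_lit 0, nat_lit 0, nat_lit 7714, nat_lit 7492, nat_lit 2268, nat_lit 0, nat_lit 0, nat_lit 2373, nat_lit 0, nat_lit 0, nat_lit 0, nat_lit 0, nat_lit 0, nat_lit 93600, nat_lit 0, nat_lit 0, [(nat_lit 6, [(nat_lit 5, nat_lit 234)])],
 ⟨p010_k64, nat_lit 0, nat_lit 0, nat_lit 335, nat_lit 0, nat_lit 181197, [nat_lit 3922726400, nat_lit 4806220000, nat_lit 7088568800], [], [nat_lit 19301537798, nat_lit 19284569116, nat_lit 19321125417, nat_lit 19124981539], nat_lit 1271250, nat_lit 1271250, nat_lit 111251, nat_lit 134400, nat_lit 0, nat_lit 0, [nat_lit 1100000, nat_lit 1442500, nat_lit 1271250], [nat_lit 11, nat_lit 40, nat_lit 20, nat_lit 80, nat_lit 1, nat_lit 289, nat_lit 75, nat_lit 9]⟩, ⟨p010_k61, nat_lit 0, nat_lit 0, nat_lit 0, nat_lit 0, nat_lit 186966, [nat_lit 4174317000, nat_lit 5430557000, nat_lit 6806293000], [], [nat_lit 15018646867, nat_lit 15065994678,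 nat_lit 14803605746, nat_lit 14850824248], nat_lit 1271250, nat_lit 1271250, nat_lit 111251, nat_lit 134400, nat_lit 0, nat_lit 0, [nat_lit 1271250, nat_lit 1271250, nat_lit 1271250], [nat_lit 96, nat_lit 40, nat_lit 20, nat_lit 40]⟩,
 ⟨nat_lit 6204, nat_lit 6225, ⟨.ofNat (nat_lit 175714), .ofNat (nat_lit 183846), .ofNat (nat_lit 176782), .ofNat (nat_lit 184914), .ofNat (nat_lit 176557), .ofNat (nat_lit 184670), .ofNat (nat_lit 177625), .ofNat (nat_lit 185738)⟩, ⟨.ofNat (nat_lit 0), .ofNat (nat_lit 0), .ofNat (nat_lit 0), .ofNat (nat_lit 0), .ofNat (nat_lit 0), .ofNat (nat_lit 0), .ofNat (nat_lit 0), .ofNat (nat_lit 0)⟩⟩, []⟩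
noncomputable def p010_l208 : Lf2 := ⟨nat_lit 3, nat_lit 5, [nat_lit 4, nat_lit 5, nat_lit 5, nat_lit 20], false, nat_lit 0, nat_lit 0, nat_lit 0, nat_lit 0, zbN0,
 nat_lit 0, nat_lit 0, nat_lit 0, nat_lit 0, nat_lit 0, nat_lit 0, nat_lit 0, nat_lit 0, nat_lit 0, nat_lit 0, nat_lit 0, nat_lit 0, nat_lit 0, nat_lit 0, nat_lit 0, nat_lit 0, nat_lit 0, nat_lit 0, [],
 C1.Rw.none, ⟨p010_k67, nat_lit 0, nat_lit 0, nat_lit 336, nat_lit 0, nat_lit 186966, [], [], [], nat_lit 1271250, nat_lit 1271250, nat_lit 111251, nat_lit 134400, nat_lit 0, nat_lit 0, [nat_lit 1412500, nat_lit 1271250], [nat_lit 51, nat_lit 40, nat_lit 20, nat_lit 80, nat_lit 1, nat_lit 289, nat_lit 75, nat_lit 9]⟩,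
 zbF0, []⟩
noncomputable def p010_l209 : Lf2 := ⟨nat_lit 0, nat_lit 5, [nat_lit 4, nat_lit 5, nat_lit 5, nat_lit 20], true, nat_lit 0, nat_lit 0, nat_lit 0, nat_lit 0, ⟨nat_lit 0, nat_lit 0, nat_lit 1000, nat_lit 5, nat_lit 77, nat_lit 0, nat_lit 0, nat_lit 0, nat_lit 0, nat_lit 215, nat_lit 56067, nat_lit 273, nat_lit 64595995, nat_lit 0, nat_lit 0, nat_lit 773103, false, false⟩,
 nat_lit 0, nat_lit 7620, nat_lit 0, nat_lit 0, nat_lit 4133, nat_lit 0, nat_lit 0, nat_lit 0, nat_lit 0, nat_lit 0, nat_lit 0, nat_lit 0, nat_lit 0, nat_lit 0, nat_lit 114, nat_lit 748000, nat_lit 0, nat_lit 0, [(nat_lit 6, [(nat_lit 5, nat_lit 420), (nat_lit 6, nat_lit 580)])],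
 ⟨p010_k64, nat_lit 0, nat_lit 0, nat_lit 332, nat_lit 0, nat_lit 181197, [nat_lit 2986090667, nat_lit 2372992001, nat_lit 53951999], [], [nat_lit 14060235035, nat_lit 14047119047, nat_lit 14185734701, nat_lit 14080952405], nat_lit 1271250, nat_lit 1271250, nat_lit 134400, nat_lit 181601, nat_lit 0, nat_lit 0, [nat_lit 1100000, nat_lit 1442500, nat_lit 1271250], [nat_lit 11, nat_lit 40, nat_lit 20, nat_lit 80, nat_lit 1, nat_lit 289, nat_lit 75, nat_lit 9]⟩, C1.Rw.none,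
 ⟨nat_lit 6204, nat_lit 6225, ⟨.ofNat (nat_lit 183846), .ofNat (nat_lit 200110), .ofNat (nat_lit 184914), .ofNat (nat_lit 201178), .ofNat (nat_lit 184670), .ofNat (nat_lit 200896), .ofNat (nat_lit 185738), .ofNat (nat_lit 201964)⟩, ⟨.ofNat (nat_lit 0), .ofNat (nat_lit 0), .ofNat (nat_lit 0), .ofNat (nat_lit 0), .ofNat (nat_lit 0), .ofNat (nat_lit 0), .ofNat (nat_lit 0), .ofNat (nat_lit 0)⟩⟩, []⟩
noncomputable def p010_l210 : Lf2 := ⟨nat_lit 0, nat_lit 5, [nat_lit 4, nat_lit 5, nat_lit 5, nat_lit 20], false, nat_lit 0, nat_lit 0, nat_lit 0, nat_lit 0, ⟨nat_lit 194, nat_lit 0, nat_lit 806, nat_lit 5, nat_lit 76, nat_lit 0, nat_lit 0, nat_lit 0, nat_lit 0, nat_lit 215, nat_lit 54150, nat_lit 272, nat_lit 64686083, nat_lit 0, nat_lit 0, nat_lit 750844, false, false⟩,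
 nat_lit 4292, nat_lit 4683, nat_lit 0, nat_lit 0, nat_lit 4891, nat_lit 2249, nat_lit 480, nat_lit 0, nat_lit 0, nat_lit 643, nat_lit 0, nat_lit 0, nat_lit 0, nat_lit 0, nat_lit 36, nat_lit 692600, nat_lit 0, nat_lit 0, [(nat_lit 6, [(nat_lit 5, nat_lit 189), (nat_lit 6, nat_lit 617)])],
 ⟨p010_k65, nat_lit 0, nat_lit 0, nat_lit 337, nat_lit 0, nat_lit 184590, [nat_lit 2356248534, nat_lit 2010800801, nat_lit 72891999], [], [nat_lit 15398101571, nat_lit 15369955295, nat_lit 15558842558, nat_lit 15434842991], nat_lit 1271250, nat_lit 1271250, nat_lit 111251, nat_lit 181601, nat_lit 0, nat_lit 0, [nat_lit 1100000, nat_lit 1442500, nat_lit 1271250], [nat_lit 11, nat_lit 40, nat_lit 20, nat_lit 80, nat_lit 1, nat_lit 289, nat_lit 75, nat_lit 9]⟩, ⟨p010_k73, nat_lit 0, nat_lit 0, nat_lit 351, nat_lit 0, nat_lit 192468, [nat_lit 1212500000, nat_lit 1545792000, nat_lit 1909348000], [], [nat_lit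 4257789716, nat_lit 4150187908, nat_lit 4264931014, nat_lit 4150895020], nat_lit 1271250, nat_lit 1271250, nat_lit 111251, nat_lit 181601, nat_lit 0, nat_lit 0, [nat_lit 1412500, nat_lit 1271250, nat_lit 1271250], [nat_lit 25, nat_lit 40, nat_lit 20, nat_lit 80, nat_lit 17, nat_lit 289, nat_lit 75, nat_lit 9]⟩,
 ⟨nat_lit 6184, nat_lit 6205, ⟨.ofNat (nat_lit 175490), .ofNat (nat_lit 199829), .ofNat (nat_lit 177625), .ofNat (nat_lit 201964), .ofNat (nat_lit 176331), .ofNat (nat_lit 200614), .ofNat (nat_lit 178466), .ofNat (nat_lit 202749)⟩, ⟨.ofNat (nat_lit 0), .ofNat (nat_lit 0), .ofNat (nat_lit 0), .ofNat (nat_lit 0), .ofNat (nat_lit 0), .ofNat (nat_lit 0), .ofNat (nat_lit 0), .ofNat (nat_lit 0)⟩⟩, []⟩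
noncomputable def p010_l211 : Lf2 := ⟨nat_lit 0, nat_lit 5, [nat_lit 4, nat_lit 5, nat_lit 5, nat_lit 20], true, nat_lit 0, nat_lit 0, nat_lit 0, nat_lit 0, ⟨nat_lit 0, nat_lit 0, nat_lit 1000, nat_lit 5, nat_lit 76, nat_lit 0, nat_lit 0, nat_lit 0, nat_lit 0, nat_lit 215, nat_lit 54150, nat_lit 272, nat_lit 64666856, nat_lit 0, nat_lit 0, nat_lit 755617, false, false⟩,
 nat_lit 0, nat_lit 7381, nat_lit 0, nat_lit 0, nat_lit 4042, nat_lit 0, nat_lit 0, nat_lit 0, nat_lit 0, nat_lit 0, nat_lit 0, nat_lit 0, nat_lit 0, nat_lit 0, nat_lit 130, nat_lit 869800, nat_lit 0, nat_lit 0, [(nat_lit 6, [(nat_lit 5, nat_lit 217), (nat_lit 6, nat_lit 783)])],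
 ⟨p010_k68, nat_lit 0, nat_lit 0, nat_lit 338, nat_lit 0, nat_lit 187947, [nat_lit 3152662401, nat_lit 2697539201, nat_lit 115115199], [], [nat_lit 13872301705, nat_lit 13883036821, nat_lit 14054438269, nat_lit 13951963059], nat_lit 1271250, nat_lit 1271250, nat_lit 111251, nat_lit 181601, nat_lit 0, nat_lit 0, [nat_lit 1100000, nat_lit 1442500, nat_lit 1271250], [nat_lit 11, nat_lit 40, nat_lit 20, nat_lit 80, nat_lit 1, nat_lit 289, nat_lit 75, nat_lit 9]⟩, C1.Rw.none,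
 ⟨nat_lit 6164, nat_lit 6185, ⟨.ofNat (nat_lit 176331), .ofNat (nat_lit 200614), .ofNat (nat_lit 178466), .ofNat (nat_lit 202749), .ofNat (nat_lit 177171), .ofNat (nat_lit 201397), .ofNat (nat_lit 179306), .ofNat (nat_lit 203533)⟩, ⟨.ofNat (nat_lit 0), .ofNat (nat_lit 0), .ofNat (nat_lit 0), .ofNat (nat_lit 0), .ofNat (nat_lit 0), .ofNat (nat_lit 0), .ofNat (nat_lit 0), .ofNat (nat_lit 0)⟩⟩, []⟩
noncomputable def p010_l212 : Lf2 := ⟨nat_lit 0, nat_lit 5, [nat_lit 4, nat_lit 5, nat_lit 5, nat_lit 20], true, nat_lit 0, nat_lit 0, nat_lit 0, nat_lit 0, ⟨nat_lit 0, nat_lit 0, nat_lit 1000, nat_lit 5, nat_lit 76, nat_lit 0, nat_lit 0, nat_lit 0, nat_lit 0, nat_lit 215, nat_lit 54150, nat_lit 272, nat_lit 64675986, nat_lit 0, nat_lit 0, nat_lit 753352, false, false⟩,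
 nat_lit 0, nat_lit 7330, nat_lit 0, nat_lit 0, nat_lit 4033, nat_lit 0, nat_lit 123, nat_lit 0, nat_lit 0, nat_lit 0, nat_lit 0, nat_lit 0, nat_lit 0, nat_lit 0, nat_lit 119, nat_lit 779200, nat_lit 0, nat_lit 0, [(nat_lit 6, [(nat_lit 5, nat_lit 368), (nat_lit 6, nat_lit 632)])],
 ⟨p010_k70, nat_lit 0, nat_lit 0, nat_lit 342, nat_lit 0, nat_lit 195549, [nat_lit 3043182934, nat_lit 2474156801, nat_lit 94860799], [], [nat_lit 13795263037, nat_lit 13905683510, nat_lit 13946145380, nat_lit 13741651309], nat_lit 1271250, nat_lit 1271250, nat_lit 111251, nat_lit 181601, nat_lit 0, nat_lit 0, [nat_lit 1100000, nat_lit 1442500, nat_lit 1271250], [nat_lit 11, nat_lit 40, nat_lit 20, nat_lit 80, nat_lit 1, nat_lit 289, nat_lit 75, nat_lit 9]⟩, C1.Rw.none,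
 ⟨nat_lit 6123, nat_lit 6165, ⟨.ofNat (nat_lit 173968), .ofNat (nat_lit 198195), .ofNat (nat_lit 179306), .ofNat (nat_lit 203533), .ofNat (nat_lit 175645), .ofNat (nat_lit 199759), .ofNat (nat_lit 180982), .ofNat (nat_lit 205096)⟩, ⟨.ofNat (nat_lit 0), .ofNat (nat_lit 0), .ofNat (nat_lit 0), .ofNat (nat_lit 0), .ofNat (nat_lit 0), .ofNat (nat_lit 0), .ofNat (nat_lit 0), .ofNat (nat_lit 0)⟩⟩, [⟨nat_lit 0, nat_lit 100, nat_lit 99, nat_lit 45, nat_lit 58996783⟩]⟩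
noncomputable def p010_l213 : Lf2 := ⟨nat_lit 0, nat_lit 5, [nat_lit 4, nat_lit 5, nat_lit 5, nat_lit 20], true, nat_lit 0, nat_lit 0, nat_lit 0, nat_lit 0, ⟨nat_lit 0, nat_lit 0, nat_lit 1000, nat_lit 5, nat_lit 75, nat_lit 0, nat_lit 0, nat_lit 0, nat_lit 0, nat_lit 215, nat_lit 54150, nat_lit 272, nat_lit 64704786, nat_lit 0, nat_lit 0, nat_lit 746189, false, false⟩,
 nat_lit 0, nat_lit 7459, nat_lit 0, nat_lit 0, nat_lit 4046, nat_lit 0, nat_lit 0, nat_lit 0, nat_lit 0, nat_lit 0, nat_lit 0, nat_lit 0, nat_lit 0, nat_lit 0, nat_lit 121, nat_lit 799000, nat_lit 0, nat_lit 0, [(nat_lit 6, [(nat_lit 5, nat_lit 335), (nat_lit 6, nat_lit 665)])],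
 ⟨p010_k64, nat_lit 0, nat_lit 0, nat_lit 330, nat_lit 0, nat_lit 164012, [nat_lit 3060645334, nat_lit 2514896001, nat_lit 87975999], [], [nat_lit 14118181258, nat_lit 14243522924, nat_lit 14299316523, nat_lit 13989561925], nat_lit 1271250, nat_lit 1271250, nat_lit 111251, nat_lit 181601, nat_lit 0, nat_lit 0, [nat_lit 1100000, nat_lit 1442500, nat_lit 1271250], [nat_lit 11, nat_lit 40, nat_lit 20, nat_lit 80, nat_lit 1, nat_lit 289, nat_lit 75, nat_lit 9]⟩, C1.Rw.none,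
 ⟨nat_lit 6123, nat_lit 6225, ⟨.ofNat (nat_lit 171443), .ofNat (nat_lit 195838), .ofNat (nat_lit 176782), .ofNat (nat_lit 201178), .ofNat (nat_lit 175645), .ofNat (nat_lit 199759), .ofNat (nat_lit 180982), .ofNat (nat_lit 205096)⟩, ⟨.ofNat (nat_lit 0), .ofNat (nat_lit 0), .ofNat (nat_lit 0), .ofNat (nat_lit 0), .ofNat (nat_lit 0), .ofNat (nat_lit 0), .ofNat (nat_lit 0), .ofNat (nat_lit 0)⟩⟩, []⟩
noncomputable def p010_l214 : Lf2 := ⟨nat_lit 0, nat_lit 5, [nat_lit 4, nat_lit 5, nat_lit 5, nat_lit 20], false, nat_lit 0, nat_lit 0, nat_lit 0, nat_lit 0, ⟨nat_lit 342, nat_lit 0, nat_lit 658, nat_lit 5, nat_lit 82, nat_lit 0, nat_lit 0, nat_lit 0, nat_lit 0, nat_lit 215, nat_lit 62017, nat_lit 276, nat_lit 64324316, nat_lit 0, nat_lit 0, nat_lit 838683, false, false⟩,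
 nat_lit 7573, nat_lit 4139, nat_lit 0, nat_lit 0, nat_lit 6200, nat_lit 3813, nat_lit 748, nat_lit 0, nat_lit 0, nat_lit 948, nat_lit 0, nat_lit 0, nat_lit 0, nat_lit 0, nat_lit 0, nat_lit 658000, nat_lit 0, nat_lit 0, [(nat_lit 6, [(nat_lit 6, nat_lit 658)])],
 ⟨p010_k39, nat_lit 0, nat_lit 0, nat_lit 336, nat_lit 0, nat_lit 210984, [nat_lit 2246205867, nat_lit 2204879201, nat_lit 721144799], [], [nat_lit 16781830829, nat_lit 16690084719, nat_lit 16907895469, nat_lit 16223267998], nat_lit 1271250, nat_lit 1271250, nat_lit 181601, nat_lit 230001, nat_lit 0, nat_lit 0, [nat_lit 1100000, nat_lit 1442500, nat_lit 1271250], [nat_lit 11, nat_lit 40, nat_lit 20, nat_lit 80, nat_lit 1, nat_lit 289, nat_lit 75, nat_lit 9]⟩, ⟨p010_k75, nat_lit 0, nat_lit 0, nat_lit 351, nat_lit 0, nat_lit 222854, [nat_lit 2137500000, nat_lit 2725056000, nat_lit 3365964000], [], [nat_lit 8522397453, nat_lit 7555702815,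 nat_lit 8555585022, nat_lit 7591727256], nat_lit 1271250, nat_lit 1271250, nat_lit 181601, nat_lit 230001, nat_lit 0, nat_lit 0, [nat_lit 1412500, nat_lit 1271250, nat_lit 1271250], [nat_lit 25, nat_lit 40, nat_lit 20, nat_lit 80, nat_lit 17, nat_lit 289, nat_lit 75, nat_lit 9]⟩,
 ⟨nat_lit 6123, nat_lit 6325, ⟨.ofNat (nat_lit 186541), .ofNat (nat_lit 202993), .ofNat (nat_lit 197224), .ofNat (nat_lit 213677), .ofNat (nat_lit 194422), .ofNat (nat_lit 210498), .ofNat (nat_lit 205096), .ofNat (nat_lit 221172)⟩, ⟨.ofNat (nat_lit 0), .ofNat (nat_lit 0), .ofNat (nat_lit 0), .ofNat (nat_lit 0), .ofNat (nat_lit 0), .ofNat (nat_lit 0), .ofNat (nat_lit 0), .ofNat (nat_lit 0)⟩⟩, []⟩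
noncomputable def b_NL_600_550_0_27 : St := ⟨false, nat_lit 1, nat_lit 1, nat_lit 1, nat_lit 20, nat_lit 240, nat_lit 250, nat_lit 220, nat_lit 240, nat_lit 20, nat_lit 40, nat_lit 0, nat_lit 0, nat_lit 0, nat_lit 0, nat_lit 0, nat_lit 0, nat_lit 20, nat_lit 32, nat_lit 0, nat_lit 0, nat_lit 0, nat_lit 0⟩
theorem d_NL_600_550_0_27 (h : EB TB.env) : Dead b_NL_600_550_0_27 := chkB_sound0 h (T :=
(.spl (nat_lit 1) (nat_lit 230)
(.leaf p010_l169)
(.spl (nat_lit 2) (nat_lit 32)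
(.spl (nat_lit 1) (nat_lit 235)
(.spl (nat_lit 6) (nat_lit 24)
(.leaf p010_l170)
(.leaf p010_l171))
(.spl (nat_lit 0) (nat_lit 245)
(.spl (nat_lit 6) (nat_lit 24)
(.spl (nat_lit 2) (nat_lit 24)
(.spl (nat_lit 1) (nat_lit 238)
(.spl (nat_lit 0) (nat_lit 243)
(.spl (nat_lit 1) (nat_lit 237)
(.leaf p010_l172)
(.spl (nat_lit 0) (nat_lit 242)
(.spl (nat_lit 0) (nat_lit 241)
(.leaf p010_l173)
(.leaf p010_l174))
(.leaf p010_l175)))
(.leaf p010_l176))
(.spl (nat_lit 0) (nat_lit 243)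
(.spl (nat_lit 0) (nat_lit 242)
(.spl (nat_lit 1) (nat_lit 239)
(.spl (nat_lit 0) (nat_lit 241)
(.spl (nat_lit 8) (nat_lit 800)
(.leaf p010_l177)
(.leaf p010_l178))
(.spl (nat_lit 8) (nat_lit 800)
(.leaf p010_l179)
(.leaf p010_l180)))
(.spl (nat_lit 0) (nat_lit 241)
(.spl (nat_lit 8) (nat_lit 800)
(.leaf p010_l181)
(.leaf p010_l182))
(.spl (nat_lit 8) (nat_lit 800)
(.leaf p010_l183)
(.leaf p010_l184))))
(.spl (nat_lit 1) (nat_lit 239)
(.leaf p010_l185)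
(.spl (nat_lit 8) (nat_lit 800)
(.leaf p010_l186)
(.leaf p010_l187))))
(.spl (nat_lit 1) (nat_lit 239)
(.spl (nat_lit 0) (nat_lit 244)
(.leaf p010_l188)
(.leaf p010_l189))
(.spl (nat_lit 0) (nat_lit 244)
(.spl (nat_lit 8) (nat_lit 800)
(.leaf p010_l190)
(.leaf p010_l191))
(.spl (nat_lit 8) (nat_lit 800)
(.leaf p010_l192)
(.leaf p010_l193))))))
(.leaf p010_l194))
(.spl (nat_lit 6) (nat_lit 28)
(.spl (nat_lit 0) (nat_lit 243)
(.spl (nat_lit 0) (nat_lit 242)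
(.spl (nat_lit 1) (nat_lit 238)
(.leaf p010_l195)
(.spl (nat_lit 0) (nat_lit 241)
(.spl (nat_lit 1) (nat_lit 239)
(.leaf p010_l196)
(.spl (nat_lit 2) (nat_lit 24)
(.spl (nat_lit 8) (nat_lit 800)
(.leaf p010_l197)
(.leaf p010_l198))
(.leaf p010_l199)))
(.spl (nat_lit 1) (nat_lit 239)
(.leaf p010_l200)
(.leaf p010_l201))))
(.leaf p010_l202))
(.leaf p010_l203))
(.leaf p010_l204)))
(.spl (nat_lit 6) (nat_lit 24)
(.spl (nat_lit 0) (nat_lit 248)
(.spl (nat_lit 1) (nat_lit 238)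
(.leaf p010_l205)
(.spl (nat_lit 0) (nat_lit 247)
(.spl (nat_lit 0) (nat_lit 246)
(.spl (nat_lit 1) (nat_lit 239)
(.leaf p010_l206)
(.spl (nat_lit 2) (nat_lit 24)
(.spl (nat_lit 8) (nat_lit 800)
(.leaf p010_l207)
(.leaf p010_l208))
(.leaf p010_l209)))
(.leaf p010_l210))
(.leaf p010_l211)))
(.leaf p010_l212))
(.leaf p010_l213))))
(.leaf p010_l214)))) (by decide +kernel)
noncomputable def p010_l215 : Lf2 := ⟨nat_lit 0, nat_lit 2, [nat_lit 10, nat_lit 5, nat_lit 5, nat_lit 20], true, nat_lit 0, nat_lit 0, nat_lit 0, nat_lit 0, ⟨nat_lit 0, nat_lit 0, nat_lit 1000, nat_lit 5, nat_lit 84, nat_lit 0, nat_lit 0, nat_lit 0, nat_lit 0, nat_lit 215, nat_lit 66150, nat_lit 278, nat_lit 64182007, nat_lit 0, nat_lit 0, nat_lit 872163, false, false⟩,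
 nat_lit 0, nat_lit 4827, nat_lit 0, nat_lit 0, nat_lit 2555, nat_lit 0, nat_lit 0, nat_lit 0, nat_lit 100, nat_lit 0, nat_lit 0, nat_lit 0, nat_lit 0, nat_lit 0, nat_lit 80, nat_lit 1000000, nat_lit 0, nat_lit 0, [(nat_lit 6, [(nat_lit 6, nat_lit 1000)])],
 ⟨p010_k76, nat_lit 0, nat_lit 0, nat_lit 0, nat_lit 0, nat_lit 336185, [nat_lit 2257066667, nat_lit 1408000000, nat_lit 211200000], [], [nat_lit 9197619394, nat_lit 9812763140, nat_lit 9208282186, nat_lit 9815538714], nat_lit 1271250, nat_lit 1271250, nat_lit 230001, nat_lit 279600, nat_lit 0, nat_lit 0, [nat_lit 1100000, nat_lit 1442500, nat_lit 1271250], [nat_lit 9, nat_lit 40, nat_lit 20, nat_lit 80]⟩, C1.Rw.none,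
 ⟨nat_lit 6123, nat_lit 6325, ⟨.ofNat (nat_lit 192309), .ofNat (nat_lit 208762), .ofNat (nat_lit 202993), .ofNat (nat_lit 219446), .ofNat (nat_lit 199824), .ofNat (nat_lit 215900), .ofNat (nat_lit 210498), .ofNat (nat_lit 226574)⟩, ⟨.ofNat (nat_lit 0), .ofNat (nat_lit 0), .ofNat (nat_lit 0), .ofNat (nat_lit 0), .ofNat (nat_lit 0), .ofNat (nat_lit 0), .ofNat (nat_lit 0), .ofNat (nat_lit 0)⟩⟩, []⟩
noncomputable def p010_l216 : Lf2 := ⟨nat_lit 0, nat_lit 2, [nat_lit 10, nat_lit 5, nat_lit 5, nat_lit 20], true, nat_lit 0, nat_lit 0, nat_lit 0, nat_lit 0, ⟨nat_lit 0, nat_lit 0, nat_lit 1000, nat_lit 5, nat_lit 84, nat_lit 0, nat_lit 0, nat_lit 0, nat_lit 0, nat_lit 215, nat_lit 66150, nat_lit 278, nat_lit 64182007, nat_lit 0, nat_lit 0, nat_lit 872163, false, false⟩,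
 nat_lit 0, nat_lit 5610, nat_lit 0, nat_lit 0, nat_lit 2970, nat_lit 0, nat_lit 56, nat_lit 0, nat_lit 141, nat_lit 0, nat_lit 0, nat_lit 0, nat_lit 0, nat_lit 0, nat_lit 80, nat_lit 1000000, nat_lit 0, nat_lit 0, [(nat_lit 6, [(nat_lit 6, nat_lit 1000)])],
 ⟨p010_k76, nat_lit 0, nat_lit 0, nat_lit 0, nat_lit 0, nat_lit 336185, [nat_lit 2257066667, nat_lit 1408000000, nat_lit 211200000], [], [nat_lit 8040459787, nat_lit 8577140970, nat_lit 8225376740, nat_lit 8509236291], nat_lit 1271250, nat_lit 1271250, nat_lit 230001, nat_lit 279600, nat_lit 0, nat_lit 0, [nat_lit 1100000, nat_lit 1442500, nat_lit 1271250], [nat_lit 9, nat_lit 40, nat_lit 20, nat_lit 80]⟩, C1.Rw.none,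
 ⟨nat_lit 6123, nat_lit 6325, ⟨.ofNat (nat_lit 192309), .ofNat (nat_lit 208762), .ofNat (nat_lit 202993), .ofNat (nat_lit 219446), .ofNat (nat_lit 199824), .ofNat (nat_lit 215900), .ofNat (nat_lit 210498), .ofNat (nat_lit 226574)⟩, ⟨.ofNat (nat_lit 0), .ofNat (nat_lit 0), .ofNat (nat_lit 0), .ofNat (nat_lit 0), .ofNat (nat_lit 0), .ofNat (nat_lit 0), .ofNat (nat_lit 0), .ofNat (nat_lit 0)⟩⟩, []⟩
noncomputable def p010_l217 : Lf2 := ⟨nat_lit 0, nat_lit 2, [nat_lit 10, nat_lit 5, nat_lit 5, nat_lit 20], false, nat_lit 0, nat_lit 0, nat_lit 0, nat_lit 0, ⟨nat_lit 1000, nat_lit 0, nat_lit 0, nat_lit 0, nat_lit 0, nat_lit 0, nat_lit 0, nat_lit 0, nat_lit 0, nat_lit 0, nat_lit 0, nat_lit 0, nat_lit 0, nat_lit 0, nat_lit 0, nat_lit 0, false, false⟩,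
 nat_lit 28754, nat_lit 0, nat_lit 0, nat_lit 0, nat_lit 15222, nat_lit 13751, nat_lit 0, nat_lit 0, nat_lit 0, nat_lit 6157, nat_lit 0, nat_lit 0, nat_lit 0, nat_lit 0, nat_lit 0, nat_lit 0, nat_lit 0, nat_lit 0, [],
 ⟨p010_k77, nat_lit 0, nat_lit 0, nat_lit 0, nat_lit 0, nat_lit 336185, [nat_lit 4688000000, nat_lit 5449500000, nat_lit 7089500000], [], [nat_lit 26831439376, nat_lit 22926554938, nat_lit 23696413677, nat_lit 19803018805], nat_lit 1271250, nat_lit 1271250, nat_lit 230001, nat_lit 279600, nat_lit 0, nat_lit 0, [nat_lit 1100000, nat_lit 1271250, nat_lit 1271250], [nat_lit 105, nat_lit 40, nat_lit 20, nat_lit 40]⟩, ⟨p010_k78, nat_lit 0, nat_lit 0, nat_lit 0, nat_lit 0, nat_lit 373196, [nat_lit 5449500000, nat_lit 6250000000, nat_lit 7968000000], [], [nat_lit 18731057820, nat_lit 17851861465, nat_lit 18824528190, nat_lit 16541074694], nat_lit 1271250, nat_lit 1271250, nat_lit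 230001, nat_lit 279600, nat_lit 0, nat_lit 0, [nat_lit 1271250, nat_lit 1271250, nat_lit 1271250], [nat_lit 170, nat_lit 40, nat_lit 20, nat_lit 40]⟩,
 zbF0, []⟩
noncomputable def p010_l218 : Lf2 := ⟨nat_lit 0, nat_lit 2, [nat_lit 10, nat_lit 5, nat_lit 5, nat_lit 20], false, nat_lit 0, nat_lit 0, nat_lit 0, nat_lit 0, ⟨nat_lit 1000, nat_lit 0, nat_lit 0, nat_lit 0, nat_lit 0, nat_lit 0, nat_lit 0, nat_lit 0, nat_lit 0, nat_lit 0, nat_lit 0, nat_lit 0, nat_lit 0, nat_lit 0, nat_lit 0, nat_lit 0, false, false⟩,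
 nat_lit 100000, nat_lit 0, nat_lit 0, nat_lit 0, nat_lit 52941, nat_lit 47826, nat_lit 0, nat_lit 0, nat_lit 0, nat_lit 22150, nat_lit 543, nat_lit 0, nat_lit 0, nat_lit 0, nat_lit 0, nat_lit 0, nat_lit 16183362490, nat_lit 0, [],
 ⟨p010_k76, nat_lit 0, nat_lit 0, nat_lit 0, nat_lit 0, nat_lit 336185, [nat_lit 4688000000, nat_lit 6250000000, nat_lit 7968000000], [], [nat_lit 21358134818, nat_lit 7777233029, nat_lit 10454745281, nat_lit 0], nat_lit 1271250, nat_lit 1271250, nat_lit 230001, nat_lit 279600, nat_lit 0, nat_lit 0, [nat_lit 1100000, nat_lit 1442500, nat_lit 1271250], [nat_lit 9, nat_lit 40, nat_lit 20, nat_lit 80]⟩, ⟨p010_k79, nat_lit 0, nat_lit 0, nat_lit 0, nat_lit 0, nat_lit 373196, [nat_lit 17110000000, nat_lit 21000000000], [], [nat_lit 21101857032, nat_lit 15024594344, nat_lit 21153293300, nat_lit 11535390396], nat_lit 1271250, nat_lit 1271250, nat_lit 230001, nat_lit 279600,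 nat_lit 0, nat_lit 0, [nat_lit 1412500, nat_lit 1271250], [nat_lit 26, nat_lit 40, nat_lit 20, nat_lit 80]⟩,
 zbF0, []⟩
noncomputable def p010_l219 : Lf2 := ⟨nat_lit 0, nat_lit 2, [nat_lit 10, nat_lit 5, nat_lit 5, nat_lit 20], true, nat_lit 0, nat_lit 0, nat_lit 0, nat_lit 0, ⟨nat_lit 0, nat_lit 0, nat_lit 1000, nat_lit 5, nat_lit 84, nat_lit 0, nat_lit 0, nat_lit 0, nat_lit 0, nat_lit 215, nat_lit 66150, nat_lit 278, nat_lit 64182007, nat_lit 0, nat_lit 0, nat_lit 872163, false, false⟩,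
 nat_lit 0, nat_lit 100000, nat_lit 0, nat_lit 0, nat_lit 52941, nat_lit 0, nat_lit 15488, nat_lit 5054, nat_lit 0, nat_lit 0, nat_lit 0, nat_lit 0, nat_lit 0, nat_lit 0, nat_lit 0, nat_lit 1000000, nat_lit 0, nat_lit 0, [(nat_lit 6, [(nat_lit 6, nat_lit 1000)])],
 ⟨p010_k76, nat_lit 0, nat_lit 0, nat_lit 308, nat_lit 0, nat_lit 336185, [nat_lit 81841066667, nat_lit 100888000001, nat_lit 119587199999], [], [nat_lit 254118905663, nat_lit 246218184566, nat_lit 243215516126, nat_lit 243801002430], nat_lit 1271250, nat_lit 1271250, nat_lit 230001, nat_lit 279600, nat_lit 0, nat_lit 0, [nat_lit 1100000, nat_lit 1442500, nat_lit 1271250], [nat_lit 9, nat_lit 40, nat_lit 20, nat_lit 80, nat_lit 2, nat_lit 226, nat_lit 20, nat_lit 8]⟩, C1.Rw.none,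
 ⟨nat_lit 6123, nat_lit 6325, ⟨.ofNat (nat_lit 192309), .ofNat (nat_lit 208762), .ofNat (nat_lit 202993), .ofNat (nat_lit 219446), .ofNat (nat_lit 199824), .ofNat (nat_lit 215900), .ofNat (nat_lit 210498), .ofNat (nat_lit 226574)⟩, ⟨.ofNat (nat_lit 0), .ofNat (nat_lit 0), .ofNat (nat_lit 0), .ofNat (nat_lit 0), .ofNat (nat_lit 0), .ofNat (nat_lit 0), .ofNat (nat_lit 0), .ofNat (nat_lit 0)⟩⟩, []⟩
noncomputable def p010_l220 : Lf2 := ⟨nat_lit 0, nat_lit 5, [nat_lit 4, nat_lit 5, nat_lit 5, nat_lit 20], true, nat_lit 0, nat_lit 0, nat_lit 0, nat_lit 0, ⟨nat_lit 0, nat_lit 0, nat_lit 1000, nat_lit 5, nat_lit 84, nat_lit 0, nat_lit 0, nat_lit 0, nat_lit 0, nat_lit 215, nat_lit 66150, nat_lit 278, nat_lit 64182007, nat_lit 0, nat_lit 0, nat_lit 872163, false, false⟩,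
 nat_lit 0, nat_lit 10112, nat_lit 0, nat_lit 0, nat_lit 5353, nat_lit 0, nat_lit 201, nat_lit 0, nat_lit 0, nat_lit 0, nat_lit 0, nat_lit 0, nat_lit 0, nat_lit 0, nat_lit 147, nat_lit 1000000, nat_lit 0, nat_lit 0, [(nat_lit 6, [(nat_lit 6, nat_lit 1000)])],
 ⟨p010_k39, nat_lit 0, nat_lit 0, nat_lit 350, nat_lit 0, nat_lit 268576, [nat_lit 3329066667, nat_lit 3042400001, nat_lit 177599999], [], [nat_lit 12768927357, nat_lit 12843964693, nat_lit 12943029302, nat_lit 12564724046], nat_lit 1271250, nat_lit 1271250, nat_lit 230001, nat_lit 279600, nat_lit 0, nat_lit 0, [nat_lit 1100000, nat_lit 1442500, nat_lit 1271250], [nat_lit 11, nat_lit 40, nat_lit 20, nat_lit 80, nat_lit 1, nat_lit 289, nat_lit 75, nat_lit 9]⟩, C1.Rw.none,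
 ⟨nat_lit 6123, nat_lit 6325, ⟨.ofNat (nat_lit 192309), .ofNat (nat_lit 208762), .ofNat (nat_lit 202993), .ofNat (nat_lit 219446), .ofNat (nat_lit 199824), .ofNat (nat_lit 215900), .ofNat (nat_lit 210498), .ofNat (nat_lit 226574)⟩, ⟨.ofNat (nat_lit 0), .ofNat (nat_lit 0), .ofNat (nat_lit 0), .ofNat (nat_lit 0), .ofNat (nat_lit 0), .ofNat (nat_lit 0), .ofNat (nat_lit 0), .ofNat (nat_lit 0)⟩⟩, []⟩
noncomputable def p010_l221 : Lf2 := ⟨nat_lit 0, nat_lit 2, [nat_lit 10, nat_lit 5, nat_lit 5, nat_lit 20], false, nat_lit 0, nat_lit 0, nat_lit 0, nat_lit 0, ⟨nat_lit 489, nat_lit 0, nat_lit 511, nat_lit 5, nat_lit 87, nat_lit 0, nat_lit 0, nat_lit 0, nat_lit 0, nat_lit 215, nat_lit 70417, nat_lit 280, nat_lit 63992348, nat_lit 0, nat_lit 0, nat_lit 915918, false, false⟩,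
 nat_lit 16926, nat_lit 0, nat_lit 0, nat_lit 0, nat_lit 9403, nat_lit 8095, nat_lit 2814, nat_lit 0, nat_lit 0, nat_lit 281, nat_lit 0, nat_lit 0, nat_lit 0, nat_lit 0, nat_lit 0, nat_lit 511000, nat_lit 0, nat_lit 0, [(nat_lit 6, [(nat_lit 6, nat_lit 511)])],
 ⟨p010_k42, nat_lit 0, nat_lit 0, nat_lit 324, nat_lit 0, nat_lit 362892, [nat_lit 2791713067, nat_lit 2958138000, nat_lit 3004084200], [], [nat_lit 19560128571, nat_lit 18955591320, nat_lit 17630644255, nat_lit 18097010372], nat_lit 1271250, nat_lit 1271250, nat_lit 230001, nat_lit 279600, nat_lit 0, nat_lit 0, [nat_lit 1100000, nat_lit 1442500, nat_lit 1271250], [nat_lit 9, nat_lit 40, nat_lit 20, nat_lit 80, nat_lit 2, nat_lit 226, nat_lit 20, nat_lit 8]⟩, ⟨p010_k79, nat_lit 0, nat_lit 0, nat_lit 0, nat_lit 0, nat_lit 423261, [nat_lit 3056250000, nat_lit 3896352000], [], [nat_lit 10778101364, nat_lit 9904686299, nat_lit 10850242692,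 nat_lit 9463022586], nat_lit 1271250, nat_lit 1271250, nat_lit 230001, nat_lit 279600, nat_lit 0, nat_lit 0, [nat_lit 1412500, nat_lit 1271250], [nat_lit 26, nat_lit 40, nat_lit 20, nat_lit 80]⟩,
 ⟨nat_lit 5916, nat_lit 6124, ⟨.ofNat (nat_lit 199824), .ofNat (nat_lit 215900), .ofNat (nat_lit 210498), .ofNat (nat_lit 226574), .ofNat (nat_lit 207203), .ofNat (nat_lit 222910), .ofNat (nat_lit 217873), .ofNat (nat_lit 233580)⟩, ⟨.ofNat (nat_lit 0), .ofNat (nat_lit 0), .ofNat (nat_lit 0), .ofNat (nat_lit 0), .ofNat (nat_lit 0), .ofNat (nat_lit 0), .ofNat (nat_lit 0), .ofNat (nat_lit 0)⟩⟩, []⟩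
noncomputable def p010_l222 : Lf2 := ⟨nat_lit 0, nat_lit 5, [nat_lit 4, nat_lit 5, nat_lit 5, nat_lit 20], true, nat_lit 0, nat_lit 0, nat_lit 0, nat_lit 0, ⟨nat_lit 0, nat_lit 0, nat_lit 1000, nat_lit 5, nat_lit 87, nat_lit 0, nat_lit 0, nat_lit 0, nat_lit 0, nat_lit 215, nat_lit 70417, nat_lit 280, nat_lit 63992348, nat_lit 0, nat_lit 0, nat_lit 915918, false, false⟩,
 nat_lit 0, nat_lit 7831, nat_lit 0, nat_lit 0, nat_lit 4350, nat_lit 0, nat_lit 104, nat_lit 0, nat_lit 0, nat_lit 0, nat_lit 0, nat_lit 0, nat_lit 0, nat_lit 0, nat_lit 80, nat_lit 1000000, nat_lit 0, nat_lit 0, [(nat_lit 6, [(nat_lit 6, nat_lit 1000)])],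
 ⟨p010_k46, nat_lit 0, nat_lit 0, nat_lit 298, nat_lit 0, nat_lit 300622, [nat_lit 2257066667, nat_lit 1408000000, nat_lit 211200000], [], [nat_lit 12575758567, nat_lit 12799647900, nat_lit 12757600207, nat_lit 12670555674], nat_lit 1271250, nat_lit 1271250, nat_lit 230001, nat_lit 279600, nat_lit 0, nat_lit 0, [nat_lit 1100000, nat_lit 1442500, nat_lit 1271250], [nat_lit 9, nat_lit 40, nat_lit 20, nat_lit 80, nat_lit 2, nat_lit 226, nat_lit 20, nat_lit 8]⟩, C1.Rw.none,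
 ⟨nat_lit 5916, nat_lit 6124, ⟨.ofNat (nat_lit 199824), .ofNat (nat_lit 215900), .ofNat (nat_lit 210498), .ofNat (nat_lit 226574), .ofNat (nat_lit 207203), .ofNat (nat_lit 222910), .ofNat (nat_lit 217873), .ofNat (nat_lit 233580)⟩, ⟨.ofNat (nat_lit 0), .ofNat (nat_lit 0), .ofNat (nat_lit 0), .ofNat (nat_lit 0), .ofNat (nat_lit 0), .ofNat (nat_lit 0), .ofNat (nat_lit 0), .ofNat (nat_lit 0)⟩⟩, []⟩
noncomputable def p010_l223 : Lf2 := ⟨nat_lit 0, nat_lit 5, [nat_lit 4, nat_lit 5, nat_lit 5, nat_lit 20], false, nat_lit 0, nat_lit 0, nat_lit 0, nat_lit 0, ⟨nat_lit 0, nat_lit 0, nat_lit 1000, nat_lit 5, nat_lit 85, nat_lit 0, nat_lit 0, nat_lit 0, nat_lit 0, nat_lit 215, nat_lit 68267, nat_lit 279, nat_lit 64088687, nat_lit 0, nat_lit 0, nat_lit 893813, false, false⟩,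
 nat_lit 100000, nat_lit 23771, nat_lit 100000, nat_lit 100000, nat_lit 0, nat_lit 95652, nat_lit 0, nat_lit 0, nat_lit 0, nat_lit 60000, nat_lit 3963, nat_lit 0, nat_lit 0, nat_lit 0, nat_lit 147, nat_lit 1000000, nat_lit 0, nat_lit 0, [(nat_lit 6, [(nat_lit 6, nat_lit 1000)])],
 ⟨p010_k39, nat_lit 0, nat_lit 0, nat_lit 450, nat_lit 0, nat_lit 402868, [nat_lit 3329066667, nat_lit 3042400001, nat_lit 177599999], [], [nat_lit 26088616002, nat_lit 26088616002, nat_lit 26287012002, nat_lit 26287012002], nat_lit 1271250, nat_lit 1271250, nat_lit 230001, nat_lit 279600, nat_lit 0, nat_lit 0, [nat_lit 1100000, nat_lit 1442500, nat_lit 1271250], [nat_lit 11, nat_lit 40, nat_lit 20, nat_lit 80, nat_lit 1, nat_lit 317, nat_lit 100, nat_lit 10]⟩, ⟨p010_k80, nat_lit 0, nat_lit 0, nat_lit 473, nat_lit 0, nat_lit 448946, [nat_lit 79260000000, nat_lit 95112000000, nat_lit 110964000000], [], [nat_lit 30907671168,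 nat_lit 32470624848, nat_lit 26123617258, nat_lit 27658219685], nat_lit 1271250, nat_lit 1271250, nat_lit 230001, nat_lit 279600, nat_lit 0, nat_lit 0, [nat_lit 1412500, nat_lit 1271250, nat_lit 1271250], [nat_lit 25, nat_lit 40, nat_lit 20, nat_lit 80, nat_lit 17, nat_lit 289, nat_lit 75, nat_lit 9]⟩,
 ⟨nat_lit 5916, nat_lit 6325, ⟨.ofNat (nat_lit 192309), .ofNat (nat_lit 208762), .ofNat (nat_lit 202993), .ofNat (nat_lit 219446), .ofNat (nat_lit 207203), .ofNat (nat_lit 222910), .ofNat (nat_lit 217873), .ofNat (nat_lit 233580)⟩, ⟨.ofNat (nat_lit 0), .ofNat (nat_lit 0), .ofNat (nat_lit 0), .ofNat (nat_lit 0), .ofNat (nat_lit 0), .ofNat (nat_lit 0), .ofNat (nat_lit 0), .ofNat (nat_lit 0)⟩⟩, []⟩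
noncomputable def p010_l224 : Lf2 := ⟨nat_lit 0, nat_lit 2, [nat_lit 10, nat_lit 5, nat_lit 5, nat_lit 20], false, nat_lit 0, nat_lit 0, nat_lit 0, nat_lit 0, ⟨nat_lit 662, nat_lit 0, nat_lit 338, nat_lit 5, nat_lit 92, nat_lit 0, nat_lit 0, nat_lit 0, nat_lit 0, nat_lit 215, nat_lit 79350, nat_lit 284, nat_lit 63637418, nat_lit 0, nat_lit 0, nat_lit 995330, false, false⟩,
 nat_lit 24301, nat_lit 0, nat_lit 0, nat_lit 0, nat_lit 12865, nat_lit 11622, nat_lit 0, nat_lit 0, nat_lit 0, nat_lit 19, nat_lit 0, nat_lit 0, nat_lit 0, nat_lit 0, nat_lit 0, nat_lit 338000, nat_lit 0, nat_lit 0, [(nat_lit 6, [(nat_lit 6, nat_lit 338)])],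
 ⟨p010_k76, nat_lit 0, nat_lit 0, nat_lit 302, nat_lit 0, nat_lit 336185, [nat_lit 3433704534, nat_lit 4072604000, nat_lit 4671423600], [], [nat_lit 20890586924, nat_lit 19754603493, nat_lit 16916197328, nat_lit 17922666200], nat_lit 1271250, nat_lit 1271250, nat_lit 279600, nat_lit 356250, nat_lit 0, nat_lit 0, [nat_lit 1100000, nat_lit 1442500, nat_lit 1271250], [nat_lit 9, nat_lit 40, nat_lit 20, nat_lit 80, nat_lit 2, nat_lit 226, nat_lit 20, nat_lit 8]⟩, ⟨p010_k79, nat_lit 0, nat_lit 0, nat_lit 310, nat_lit 0, nat_lit 373196, [nat_lit 4137500000, nat_lit 5274816000], [], [nat_lit 13976056767, nat_lit 12821796391, nat_lit 14230125576, nat_lit 11852332436], nat_lit 1271250, nat_lit 1271250, nat_lit 279600, nat_lit 356250, nat_lit 0, nat_lit 0, [nat_lit 1412500, nat_lit 1271250], [nat_lit 26, nat_lit 40, nat_lit 20, nat_lit 80, nat_lit 2, nat_lit 289, nat_lit 75, nat_lit 10]⟩,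
 ⟨nat_lit 6123, nat_lit 6325, ⟨.ofNat (nat_lit 208762), .ofNat (nat_lit 233442), .ofNat (nat_lit 219446), .ofNat (nat_lit 244125), .ofNat (nat_lit 215900), .ofNat (nat_lit 240014), .ofNat (nat_lit 226574), .ofNat (nat_lit 250688)⟩, ⟨.ofNat (nat_lit 0), .ofNat (nat_lit 0), .ofNat (nat_lit 0), .ofNat (nat_lit 0), .ofNat (nat_lit 0), .ofNat (nat_lit 0), .ofNat (nat_lit 0), .ofNat (nat_lit 0)⟩⟩, []⟩
noncomputable def p010_l225 : Lf2 := ⟨nat_lit 0, nat_lit 2, [nat_lit 10, nat_lit 5, nat_lit 5, nat_lit 20], false, nat_lit 0, nat_lit 0, nat_lit 0, nat_lit 0, ⟨nat_lit 426, nat_lit 0, nat_lit 574, nat_lit 5, nat_lit 95, nat_lit 0, nat_lit 0, nat_lit 0, nat_lit 0, nat_lit 215, nat_lit 84017, nat_lit 286, nat_lit 63446506, nat_lit 0, nat_lit 0, nat_lit 1036806, false, false⟩,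
 nat_lit 15465, nat_lit 0, nat_lit 0, nat_lit 0, nat_lit 8591, nat_lit 7396, nat_lit 2632, nat_lit 0, nat_lit 0, nat_lit 89, nat_lit 0, nat_lit 0, nat_lit 0, nat_lit 0, nat_lit 0, nat_lit 574000, nat_lit 0, nat_lit 0, [(nat_lit 6, [(nat_lit 6, nat_lit 574)])],
 ⟨p010_k42, nat_lit 0, nat_lit 0, nat_lit 317, nat_lit 0, nat_lit 362892, [nat_lit 2557924267, nat_lit 2552292000, nat_lit 2396902800], [], [nat_lit 17674274533, nat_lit 17194334007, nat_lit 15029980196, nat_lit 16036507956], nat_lit 1271250, nat_lit 1271250, nat_lit 279600, nat_lit 356250, nat_lit 0, nat_lit 0, [nat_lit 1100000, nat_lit 1442500, nat_lit 1271250], [nat_lit 9, nat_lit 40, nat_lit 20, nat_lit 80, nat_lit 2, nat_lit 226, nat_lit 20, nat_lit 8]⟩, ⟨p010_k79, nat_lit 0, nat_lit 0, nat_lit 361, nat_lit 0, nat_lit 423261, [nat_lit 2662500000, nat_lit 3394368000], [], [nat_lit 9082671356, nat_lit 8194354714, nat_lit 9245801688,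 nat_lit 7584501388], nat_lit 1271250, nat_lit 1271250, nat_lit 279600, nat_lit 356250, nat_lit 0, nat_lit 0, [nat_lit 1412500, nat_lit 1271250], [nat_lit 26, nat_lit 40, nat_lit 20, nat_lit 80, nat_lit 2, nat_lit 289, nat_lit 75, nat_lit 10]⟩,
 ⟨nat_lit 5916, nat_lit 6124, ⟨.ofNat (nat_lit 215900), .ofNat (nat_lit 240014), .ofNat (nat_lit 226574), .ofNat (nat_lit 250688), .ofNat (nat_lit 222910), .ofNat (nat_lit 246470), .ofNat (nat_lit 233580), .ofNat (nat_lit 257140)⟩, ⟨.ofNat (nat_lit 0), .ofNat (nat_lit 0), .ofNat (nat_lit 0), .ofNat (nat_lit 0), .ofNat (nat_lit 0), .ofNat (nat_lit 0), .ofNat (nat_lit 0), .ofNat (nat_lit 0)⟩⟩, []⟩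
noncomputable def p010_l226 : Lf2 := ⟨nat_lit 0, nat_lit 5, [nat_lit 4, nat_lit 5, nat_lit 5, nat_lit 20], true, nat_lit 0, nat_lit 0, nat_lit 0, nat_lit 0, ⟨nat_lit 0, nat_lit 0, nat_lit 1000, nat_lit 5, nat_lit 92, nat_lit 0, nat_lit 0, nat_lit 0, nat_lit 0, nat_lit 215, nat_lit 79350, nat_lit 284, nat_lit 63637418, nat_lit 0, nat_lit 0, nat_lit 995330, false, false⟩,
 nat_lit 0, nat_lit 10552, nat_lit 0, nat_lit 0, nat_lit 5586, nat_lit 0, nat_lit 205, nat_lit 0, nat_lit 0, nat_lit 0, nat_lit 0, nat_lit 0, nat_lit 0, nat_lit 0, nat_lit 147, nat_lit 1000000, nat_lit 0, nat_lit 0, [(nat_lit 6, [(nat_lit 6, nat_lit 1000)])],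
 ⟨p010_k39, nat_lit 0, nat_lit 0, nat_lit 345, nat_lit 0, nat_lit 268576, [nat_lit 3329066667, nat_lit 3042400001, nat_lit 177599999], [], [nat_lit 12574693023, nat_lit 12647382069, nat_lit 12893573285, nat_lit 12199269861], nat_lit 1271250, nat_lit 1271250, nat_lit 279600, nat_lit 356250, nat_lit 0, nat_lit 0, [nat_lit 1100000, nat_lit 1442500, nat_lit 1271250], [nat_lit 11, nat_lit 40, nat_lit 20, nat_lit 80, nat_lit 1, nat_lit 317, nat_lit 100, nat_lit 10]⟩, C1.Rw.none,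
 ⟨nat_lit 6123, nat_lit 6325, ⟨.ofNat (nat_lit 208762), .ofNat (nat_lit 233442), .ofNat (nat_lit 219446), .ofNat (nat_lit 244125), .ofNat (nat_lit 215900), .ofNat (nat_lit 240014), .ofNat (nat_lit 226574), .ofNat (nat_lit 250688)⟩, ⟨.ofNat (nat_lit 0), .ofNat (nat_lit 0), .ofNat (nat_lit 0), .ofNat (nat_lit 0), .ofNat (nat_lit 0), .ofNat (nat_lit 0), .ofNat (nat_lit 0), .ofNat (nat_lit 0)⟩⟩, []⟩
noncomputable def p010_l227 : Lf2 := ⟨nat_lit 0, nat_lit 5, [nat_lit 4, nat_lit 5, nat_lit 5, nat_lit 20], true, nat_lit 0, nat_lit 0, nat_lit 0, nat_lit 0, ⟨nat_lit 0, nat_lit 0, nat_lit 1000, nat_lit 5, nat_lit 95, nat_lit 0, nat_lit 0, nat_lit 0, nat_lit 0, nat_lit 215, nat_lit 84017, nat_lit 286, nat_lit 63446506, nat_lit 0, nat_lit 0, nat_lit 1036806, false, false⟩,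
 nat_lit 0, nat_lit 8155, nat_lit 0, nat_lit 0, nat_lit 4530, nat_lit 0, nat_lit 83, nat_lit 0, nat_lit 0, nat_lit 0, nat_lit 0, nat_lit 0, nat_lit 0, nat_lit 0, nat_lit 80, nat_lit 1000000, nat_lit 0, nat_lit 0, [(nat_lit 6, [(nat_lit 6, nat_lit 1000)])],
 ⟨p010_k46, nat_lit 0, nat_lit 0, nat_lit 291, nat_lit 0, nat_lit 300622, [nat_lit 2257066667, nat_lit 1408000000, nat_lit 211200000], [], [nat_lit 12445004719, nat_lit 12680670852, nat_lit 12766542847, nat_lit 12378057300], nat_lit 1271250, nat_lit 1271250, nat_lit 279600, nat_lit 356250, nat_lit 0, nat_lit 0, [nat_lit 1100000, nat_lit 1442500, nat_lit 1271250], [nat_lit 9, nat_lit 40, nat_lit 20, nat_lit 80, nat_lit 2, nat_lit 226, nat_lit 20, nat_lit 8]⟩, C1.Rw.none,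
 ⟨nat_lit 5916, nat_lit 6124, ⟨.ofNat (nat_lit 215900), .ofNat (nat_lit 240014), .ofNat (nat_lit 226574), .ofNat (nat_lit 250688), .ofNat (nat_lit 222910), .ofNat (nat_lit 246470), .ofNat (nat_lit 233580), .ofNat (nat_lit 257140)⟩, ⟨.ofNat (nat_lit 0), .ofNat (nat_lit 0), .ofNat (nat_lit 0), .ofNat (nat_lit 0), .ofNat (nat_lit 0), .ofNat (nat_lit 0), .ofNat (nat_lit 0), .ofNat (nat_lit 0)⟩⟩, []⟩
noncomputable def b_NL_600_550_0_28 : St := ⟨false, nat_lit 1, nat_lit 1, nat_lit 1, nat_lit 20, nat_lit 240, nat_lit 260, nat_lit 220, nat_lit 230, nat_lit 40, nat_lit 60, nat_lit 0, nat_lit 0, nat_lit 0, nat_lit 0, nat_lit 0, nat_lit 0, nat_lit 0, nat_lit 20, nat_lit 0, nat_lit 0, nat_lit 0, nat_lit 0⟩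
theorem d_NL_600_550_0_28 (h : EB TB.env) : Dead b_NL_600_550_0_28 := chkB_sound0 h (T :=
(.spl (nat_lit 2) (nat_lit 48)
(.spl (nat_lit 8) (nat_lit 800)
(.spl (nat_lit 0) (nat_lit 250)
(.spl (nat_lit 6) (nat_lit 8)
(.spl (nat_lit 7) (nat_lit 600)
(.spl (nat_lit 7) (nat_lit 300)
(.leaf p010_l215)
(.spl (nat_lit 7) (nat_lit 460)
(.leaf p010_l216)
(.spl (nat_lit 8) (nat_lit 400)
(.leaf p010_l217)
(.leaf p010_l218))))
(.leaf p010_l219))
(.leaf p010_l220))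
(.spl (nat_lit 6) (nat_lit 8)
(.leaf p010_l221)
(.leaf p010_l222)))
(.leaf p010_l223))
(.spl (nat_lit 6) (nat_lit 8)
(.spl (nat_lit 0) (nat_lit 250)
(.leaf p010_l224)
(.leaf p010_l225))
(.spl (nat_lit 0) (nat_lit 250)
(.leaf p010_l226)
(.leaf p010_l227))))) (by decide +kernel)

end B2
end Pool.Agent.Lib.MP_6947cd_al
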