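import Pool.Agent.Lib.MP_6947cd_al.ZB.Pre

/-!
Problem MP_6947cd_al (Chollet).  Case B, second entry in [2/5, 17/20]: certificates of the tree, part P011 (generated).
-/

set_option autoImplicit false
set_option linter.all false

namespace Pool.Agent.Lib.MP_6947cd_al
namespace B2

open Ent Fr B1 PkA

noncomputable def p011_k0 : C1.Kn := ⟨[nat_lit 80, nat_lit 100], [nat_lit 0, nat_lit 0], [(nat_lit 0, nat_lit 0, nat_lit 0), (nat_lit 0, nat_lit 0, nat_lit 0)], (nat_lit 98, nat_lit 100, nat_lit 20)⟩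
noncomputable def p011_k1 : C1.Kn := ⟨[nat_lit 90, nat_lit 110], [nat_lit 0, nat_lit 129], [(nat_lit 0, nat_lit 0, nat_lit 0), (nat_lit 1000, nat_lit 990, nat_lit 101)], (nat_lit 99, nat_lit 100, nat_lit 20)⟩
noncomputable def p011_k2 : C1.Kn := ⟨[nat_lit 100, nat_lit 120], [nat_lit 0, nat_lit 383], [(nat_lit 0, nat_lit 0, nat_lit 0), (nat_lit 1000, nat_lit 1000, nat_lit 299)], (nat_lit 99, nat_lit 100, nat_lit 20)⟩
noncomputable def p011_k3 : C1.Kn := ⟨[nat_lit 80, nat_lit 100], [nat_lit 0, nat_lit 36], [(nat_lit 0, nat_lit 0, nat_lit 0), (nat_lit 1000, nat_lit 994, nat_lit 28)], (nat_lit 98, nat_lit 100, nat_lit 20)⟩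
noncomputable def p011_k4 : C1.Kn := ⟨[nat_lit 50, nat_lit 90, nat_lit 110], [nat_lit 0, nat_lit 0, nat_lit 129], [(nat_lit 0, nat_lit 0, nat_lit 0), (nat_lit 0, nat_lit 0, nat_lit 0), (nat_lit 1000, nat_lit 990, nat_lit 101)], (nat_lit 99, nat_lit 100, nat_lit 20)⟩
noncomputable def p011_k5 : C1.Kn := ⟨[nat_lit 80, nat_lit 100], [nat_lit 0, nat_lit 52], [(nat_lit 0, nat_lit 0, nat_lit 0), (nat_lit 1000, nat_lit 992, nat_lit 41)], (nat_lit 98, nat_lit 100, nat_lit 20)⟩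
noncomputable def p011_k6 : C1.Kn := ⟨[nat_lit 100, nat_lit 120], [nat_lit 0, nat_lit 396], [(nat_lit 0, nat_lit 0, nat_lit 0), (nat_lit 1000, nat_lit 1000, nat_lit 309)], (nat_lit 99, nat_lit 100, nat_lit 20)⟩
noncomputable def p011_k7 : C1.Kn := ⟨[nat_lit 100, nat_lit 120], [nat_lit 0, nat_lit 409], [(nat_lit 0, nat_lit 0, nat_lit 0), (nat_lit 1000, nat_lit 1000, nat_lit 319)], (nat_lit 99, nat_lit 100, nat_lit 20)⟩
noncomputable def p011_k8 : C1.Kn := ⟨[nat_lit 100, nat_lit 120], [nat_lit 0, nat_lit 422], [(nat_lit 0, nat_lit 0, nat_lit 0), (nat_lit 1000, nat_lit 1000, nat_lit 329)], (nat_lit 99, nat_lit 100, nat_lit 20)⟩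
noncomputable def p011_k9 : C1.Kn := ⟨[nat_lit 80, nat_lit 100], [nat_lit 0, nat_lit 65], [(nat_lit 0, nat_lit 0, nat_lit 0), (nat_lit 1000, nat_lit 990, nat_lit 51)], (nat_lit 97, nat_lit 100, nat_lit 20)⟩
noncomputable def p011_k10 : C1.Kn := ⟨[nat_lit 50, nat_lit 90, nat_lit 110], [nat_lit 0, nat_lit 0, nat_lit 192], [(nat_lit 0, nat_lit 0, nat_lit 0), (nat_lit 0, nat_lit 0, nat_lit 0), (nat_lit 1000, nat_lit 985, nat_lit 150)], (nat_lit 98, nat_lit 100, nat_lit 20)⟩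
noncomputable def p011_k11 : C1.Kn := ⟨[nat_lit 100, nat_lit 120], [nat_lit 0, nat_lit 448], [(nat_lit 0, nat_lit 0, nat_lit 0), (nat_lit 1000, nat_lit 1000, nat_lit 350)], (nat_lit 98, nat_lit 100, nat_lit 20)⟩
noncomputable def p011_k12 : C1.Kn := ⟨[nat_lit 80, nat_lit 100], [nat_lit 0, nat_lit 24], [(nat_lit 0, nat_lit 0, nat_lit 0), (nat_lit 1000, nat_lit 996, nat_lit 19)], (nat_lit 98, nat_lit 100, nat_lit 20)⟩
noncomputable def p011_k13 : C1.Kn := ⟨[nat_lit 100, nat_lit 120], [nat_lit 0, nat_lit 460], [(nat_lit 0, nat_lit 0, nat_lit 0), (nat_lit 1000, nat_lit 999, nat_lit 357)], (nat_lit 98, nat_lit 100, nat_lit 20)⟩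
noncomputable def p011_k14 : C1.Kn := ⟨[nat_lit 100, nat_lit 120], [nat_lit 0, nat_lit 473], [(nat_lit 0, nat_lit 0, nat_lit 0), (nat_lit 1000, nat_lit 999, nat_lit 367)], (nat_lit 98, nat_lit 100, nat_lit 20)⟩
noncomputable def p011_k15 : C1.Kn := ⟨[nat_lit 50, nat_lit 90, nat_lit 110], [nat_lit 0, nat_lit 0, nat_lit 230], [(nat_lit 0, nat_lit 0, nat_lit 0), (nat_lit 0, nat_lit 0, nat_lit 0), (nat_lit 1000, nat_lit 982, nat_lit 179)], (nat_lit 98, nat_lit 100, nat_lit 20)⟩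
noncomputable def p011_k16 : C1.Kn := ⟨[nat_lit 100, nat_lit 120], [nat_lit 0, nat_lit 486], [(nat_lit 0, nat_lit 0, nat_lit 0), (nat_lit 1000, nat_lit 999, nat_lit 375)], (nat_lit 98, nat_lit 100, nat_lit 20)⟩
noncomputable def p011_k17 : C1.Kn := ⟨[nat_lit 80, nat_lit 100], [nat_lit 0, nat_lit 11], [(nat_lit 0, nat_lit 0, nat_lit 0), (nat_lit 1000, nat_lit 998, nat_lit 9)], (nat_lit 98, nat_lit 100, nat_lit 20)⟩
noncomputable def p011_k18 : C1.Kn := ⟨[nat_lit 50, nat_lit 90, nat_lit 110], [nat_lit 0, nat_lit 0, nat_lit 245], [(nat_lit 0, nat_lit 0, nat_lit 0), (nat_lit 0, nat_lit 0, nat_lit 0), (nat_lit 1000, nat_lit 981, nat_lit 191)], (nat_lit 98, nat_lit 100, nat_lit 20)⟩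
noncomputable def p011_k19 : C1.Kn := ⟨[nat_lit 100, nat_lit 120], [nat_lit 0, nat_lit 499], [(nat_lit 0, nat_lit 0, nat_lit 0), (nat_lit 1000, nat_lit 1000, nat_lit 388)], (nat_lit 98, nat_lit 100, nat_lit 20)⟩
noncomputable def p011_k20 : C1.Kn := ⟨[nat_lit 80, nat_lit 100, nat_lit 120], [nat_lit 0, nat_lit 0, nat_lit 511], [(nat_lit 0, nat_lit 0, nat_lit 0), (nat_lit 0, nat_lit 0, nat_lit 0), (nat_lit 1000, nat_lit 997, nat_lit 383)], (nat_lit 98, nat_lit 100, nat_lit 28)⟩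
noncomputable def p011_k21 : C1.Kn := ⟨[nat_lit 100, nat_lit 120], [nat_lit 0, nat_lit 383], [(nat_lit 0, nat_lit 0, nat_lit 0), (nat_lit 1000, nat_lit 1000, nat_lit 299)], (nat_lit 100, nat_lit 100, nat_lit 28)⟩
noncomputable def p011_k22 : C1.Kn := ⟨[nat_lit 100, nat_lit 120], [nat_lit 0, nat_lit 422], [(nat_lit 0, nat_lit 0, nat_lit 0), (nat_lit 1000, nat_lit 1000, nat_lit 329)], (nat_lit 99, nat_lit 100, nat_lit 28)⟩
noncomputable def p011_k23 : C1.Kn := ⟨[nat_lit 100, nat_lit 120], [nat_lit 0, nat_lit 448], [(nat_lit 0, nat_lit 0, nat_lit 0), (nat_lit 1000, nat_lit 1000, nat_lit 350)], (nat_lit 99, nat_lit 100, nat_lit 28)⟩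
noncomputable def p011_k24 : C1.Kn := ⟨[nat_lit 80, nat_lit 100, nat_lit 120], [nat_lit 0, nat_lit 0, nat_lit 511], [(nat_lit 0, nat_lit 0, nat_lit 0), (nat_lit 0, nat_lit 0, nat_lit 0), (nat_lit 1000, nat_lit 997, nat_lit 383)], (nat_lit 100, nat_lit 100, nat_lit 40)⟩
noncomputable def p011_k25 : C1.Kn := ⟨[nat_lit 80, nat_lit 100, nat_lit 120], [nat_lit 0, nat_lit 65, nat_lit 576], [(nat_lit 0, nat_lit 0, nat_lit 0), (nat_lit 1000, nat_lit 990, nat_lit 51), (nat_lit 1000, nat_lit 990, nat_lit 399)], (nat_lit 99, nat_lit 100, nat_lit 40)⟩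
noncomputable def p011_k26 : C1.Kn := ⟨[nat_lit 80, nat_lit 100, nat_lit 140], [nat_lit 0, nat_lit 0, nat_lit 1022], [(nat_lit 0, nat_lit 0, nat_lit 0), (nat_lit 0, nat_lit 0, nat_lit 0), (nat_lit 1000, nat_lit 1000, nat_lit 399)], (nat_lit 100, nat_lit 99, nat_lit 44)⟩
noncomputable def p011_k27 : C1.Kn := ⟨[nat_lit 100, nat_lit 120, nat_lit 140], [nat_lit 0, nat_lit 383, nat_lit 902], [(nat_lit 0, nat_lit 0, nat_lit 0), (nat_lit 1000, nat_lit 1000, nat_lit 299), (nat_lit 979, nat_lit 1000, nat_lit 397)], (nat_lit 100, nat_lit 97, nat_lit 44)⟩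
noncomputable def p011_k28 : C1.Kn := ⟨[nat_lit 80, nat_lit 100, nat_lit 120], [nat_lit 0, nat_lit 132, nat_lit 640], [(nat_lit 0, nat_lit 0, nat_lit 0), (nat_lit 1000, nat_lit 979, nat_lit 103), (nat_lit 1000, nat_lit 979, nat_lit 397)], (nat_lit 97, nat_lit 100, nat_lit 28)⟩
noncomputable def p011_k29 : C1.Kn := ⟨[nat_lit 80, nat_lit 100, nat_lit 120], [nat_lit 0, nat_lit 132, nat_lit 640], [(nat_lit 0, nat_lit 0, nat_lit 0), (nat_lit 1000, nat_lit 979, nat_lit 103), (nat_lit 1000, nat_lit 979, nat_lit 397)], (nat_lit 99, nat_lit 100, nat_lit 44)⟩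
noncomputable def p011_k30 : C1.Kn := ⟨[nat_lit 80, nat_lit 100, nat_lit 140], [nat_lit 0, nat_lit 65, nat_lit 1086], [(nat_lit 0, nat_lit 0, nat_lit 0), (nat_lit 1000, nat_lit 990, nat_lit 51), (nat_lit 1000, nat_lit 990, nat_lit 399)], (nat_lit 100, nat_lit 100, nat_lit 45)⟩
noncomputable def p011_k31 : C1.Kn := ⟨[nat_lit 100, nat_lit 120, nat_lit 140], [nat_lit 0, nat_lit 254, nat_lit 778], [(nat_lit 0, nat_lit 0, nat_lit 0), (nat_lit 1000, nat_lit 1000, nat_lit 198), (nat_lit 960, nat_lit 1000, nat_lit 392)], (nat_lit 100, nat_lit 94, nat_lit 44)⟩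
noncomputable def p011_k32 : C1.Kn := ⟨[nat_lit 80, nat_lit 120, nat_lit 140], [nat_lit 0, nat_lit 0, nat_lit 1164], [(nat_lit 0, nat_lit 0, nat_lit 0), (nat_lit 0, nat_lit 0, nat_lit 0), (nat_lit 941, nat_lit 1000, nat_lit 576)], (nat_lit 100, nat_lit 99, nat_lit 44)⟩
noncomputable def p011_k33 : C1.Kn := ⟨[nat_lit 100, nat_lit 140], [nat_lit 0, nat_lit 508], [(nat_lit 0, nat_lit 0, nat_lit 0), (nat_lit 1000, nat_lit 1000, nat_lit 198)], (nat_lit 100, nat_lit 94, nat_lit 44)⟩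
noncomputable def p011_k34 : C1.Kn := ⟨[nat_lit 80, nat_lit 100, nat_lit 120], [nat_lit 0, nat_lit 198, nat_lit 704], [(nat_lit 0, nat_lit 0, nat_lit 0), (nat_lit 1000, nat_lit 969, nat_lit 154), (nat_lit 1000, nat_lit 969, nat_lit 395)], (nat_lit 98, nat_lit 100, nat_lit 44)⟩
noncomputable def p011_k35 : C1.Kn := ⟨[nat_lit 80, nat_lit 140], [nat_lit 0, nat_lit 0], [(nat_lit 0, nat_lit 0, nat_lit 0), (nat_lit 0, nat_lit 0, nat_lit 0)], (nat_lit 100, nat_lit 99, nat_lit 44)⟩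
noncomputable def p011_k36 : C1.Kn := ⟨[nat_lit 80, nat_lit 120], [nat_lit 0, nat_lit 264], [(nat_lit 0, nat_lit 0, nat_lit 0), (nat_lit 1000, nat_lit 979, nat_lit 103)], (nat_lit 99, nat_lit 100, nat_lit 44)⟩
noncomputable def p011_k37 : C1.Kn := ⟨[nat_lit 80, nat_lit 90, nat_lit 110], [nat_lit 0, nat_lit 0, nat_lit 257], [(nat_lit 0, nat_lit 0, nat_lit 0), (nat_lit 0, nat_lit 0, nat_lit 0), (nat_lit 1000, nat_lit 980, nat_lit 201)], (nat_lit 98, nat_lit 100, nat_lit 28)⟩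
noncomputable def p011_k38 : C1.Kn := ⟨[nat_lit 80, nat_lit 120], [nat_lit 0, nat_lit 0], [(nat_lit 0, nat_lit 0, nat_lit 0), (nat_lit 0, nat_lit 0, nat_lit 0)], (nat_lit 98, nat_lit 100, nat_lit 28)⟩
noncomputable def p011_k39 : C1.Kn := ⟨[nat_lit 40, nat_lit 80, nat_lit 100, nat_lit 110], [nat_lit 0, nat_lit 0, nat_lit 0, nat_lit 288], [(nat_lit 0, nat_lit 0, nat_lit 0), (nat_lit 0, nat_lit 0, nat_lit 0), (nat_lit 0, nat_lit 0, nat_lit 0), (nat_lit 1000, nat_lit 983, nat_lit 284)], (nat_lit 98, nat_lit 100, nat_lit 28)⟩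
noncomputable def p011_k40 : C1.Kn := ⟨[nat_lit 80, nat_lit 90, nat_lit 110], [nat_lit 0, nat_lit 5, nat_lit 265], [(nat_lit 0, nat_lit 0, nat_lit 0), (nat_lit 1000, nat_lit 998, nat_lit 9), (nat_lit 1000, nat_lit 979, nat_lit 202)], (nat_lit 98, nat_lit 100, nat_lit 28)⟩
noncomputable def p011_k41 : C1.Kn := ⟨[nat_lit 80, nat_lit 120], [nat_lit 0, nat_lit 23], [(nat_lit 0, nat_lit 0, nat_lit 0), (nat_lit 1000, nat_lit 998, nat_lit 9)], (nat_lit 98, nat_lit 100, nat_lit 28)⟩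
noncomputable def p011_k42 : C1.Kn := ⟨[nat_lit 80, nat_lit 100, nat_lit 120], [nat_lit 0, nat_lit 11, nat_lit 524], [(nat_lit 0, nat_lit 0, nat_lit 0), (nat_lit 1000, nat_lit 998, nat_lit 9), (nat_lit 1000, nat_lit 996, nat_lit 388)], (nat_lit 98, nat_lit 100, nat_lit 28)⟩
noncomputable def p011_k43 : C1.Kn := ⟨[nat_lit 40, nat_lit 80, nat_lit 100, nat_lit 110], [nat_lit 0, nat_lit 0, nat_lit 11, nat_lit 298], [(nat_lit 0, nat_lit 0, nat_lit 0), (nat_lit 0, nat_lit 0, nat_lit 0), (nat_lit 1000, nat_lit 998, nat_lit 9), (nat_lit 1000, nat_lit 983, nat_lit 291)], (nat_lit 98, nat_lit 100, nat_lit 28)⟩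
noncomputable def p011_k44 : C1.Kn := ⟨[nat_lit 80, nat_lit 90, nat_lit 110], [nat_lit 0, nat_lit 12, nat_lit 272], [(nat_lit 0, nat_lit 0, nat_lit 0), (nat_lit 1000, nat_lit 996, nat_lit 19), (nat_lit 1000, nat_lit 978, nat_lit 203)], (nat_lit 98, nat_lit 100, nat_lit 28)⟩
noncomputable def p011_k45 : C1.Kn := ⟨[nat_lit 80, nat_lit 120], [nat_lit 0, nat_lit 48], [(nat_lit 0, nat_lit 0, nat_lit 0), (nat_lit 1000, nat_lit 996, nat_lit 19)], (nat_lit 98, nat_lit 100, nat_lit 28)⟩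
noncomputable def p011_k46 : C1.Kn := ⟨[nat_lit 80, nat_lit 100, nat_lit 120], [nat_lit 0, nat_lit 24, nat_lit 537], [(nat_lit 0, nat_lit 0, nat_lit 0), (nat_lit 1000, nat_lit 996, nat_lit 19), (nat_lit 1000, nat_lit 995, nat_lit 395)], (nat_lit 98, nat_lit 100, nat_lit 28)⟩
noncomputable def p011_k47 : C1.Kn := ⟨[nat_lit 40, nat_lit 80, nat_lit 100, nat_lit 110], [nat_lit 0, nat_lit 0, nat_lit 24, nat_lit 308], [(nat_lit 0, nat_lit 0, nat_lit 0), (nat_lit 0, nat_lit 0, nat_lit 0), (nat_lit 1000, nat_lit 996, nat_lit 19), (nat_lit 1000, nat_lit 982, nat_lit 298)], (nat_lit 98, nat_lit 100, nat_lit 28)⟩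
noncomputable def p011_k48 : C1.Kn := ⟨[nat_lit 80, nat_lit 100, nat_lit 120], [nat_lit 0, nat_lit 36, nat_lit 550], [(nat_lit 0, nat_lit 0, nat_lit 0), (nat_lit 1000, nat_lit 994, nat_lit 28), (nat_lit 1000, nat_lit 993, nat_lit 397)], (nat_lit 98, nat_lit 100, nat_lit 28)⟩
noncomputable def p011_k49 : C1.Kn := ⟨[nat_lit 80, nat_lit 90, nat_lit 110], [nat_lit 0, nat_lit 18, nat_lit 279], [(nat_lit 0, nat_lit 0, nat_lit 0), (nat_lit 1000, nat_lit 994, nat_lit 28), (nat_lit 1000, nat_lit 977, nat_lit 204)], (nat_lit 98, nat_lit 100, nat_lit 28)⟩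
noncomputable def p011_k50 : C1.Kn := ⟨[nat_lit 80, nat_lit 120], [nat_lit 0, nat_lit 71], [(nat_lit 0, nat_lit 0, nat_lit 0), (nat_lit 1000, nat_lit 994, nat_lit 28)], (nat_lit 98, nat_lit 100, nat_lit 28)⟩
noncomputable def p011_k51 : C1.Kn := ⟨[nat_lit 30, nat_lit 70, nat_lit 80, nat_lit 100, nat_lit 110], [nat_lit 0, nat_lit 0, nat_lit 0, nat_lit 24, nat_lit 308], [(nat_lit 0, nat_lit 0, nat_lit 0), (nat_lit 0, nat_lit 0, nat_lit 0), (nat_lit 0, nat_lit 0, nat_lit 0), (nat_lit 1000, nat_lit 996, nat_lit 19), (nat_lit 1000, nat_lit 982, nat_lit 298)], (nat_lit 98, nat_lit 100, nat_lit 28)⟩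
noncomputable def p011_k52 : C1.Kn := ⟨[nat_lit 80, nat_lit 100, nat_lit 120], [nat_lit 0, nat_lit 52, nat_lit 563], [(nat_lit 0, nat_lit 0, nat_lit 0), (nat_lit 1000, nat_lit 992, nat_lit 41), (nat_lit 1000, nat_lit 992, nat_lit 398)], (nat_lit 98, nat_lit 100, nat_lit 28)⟩
noncomputable def p011_k53 : C1.Kn := ⟨[nat_lit 40, nat_lit 80, nat_lit 100, nat_lit 120], [nat_lit 0, nat_lit 0, nat_lit 0, nat_lit 511], [(nat_lit 0, nat_lit 0, nat_lit 0), (nat_lit 0, nat_lit 0, nat_lit 0), (nat_lit 0, nat_lit 0, nat_lit 0), (nat_lit 1000, nat_lit 997, nat_lit 383)], (nat_lit 98, nat_lit 100, nat_lit 28)⟩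
noncomputable def p011_k54 : C1.Kn := ⟨[nat_lit 40, nat_lit 80, nat_lit 100, nat_lit 110], [nat_lit 0, nat_lit 0, nat_lit 36, nat_lit 318], [(nat_lit 0, nat_lit 0, nat_lit 0), (nat_lit 0, nat_lit 0, nat_lit 0), (nat_lit 1000, nat_lit 994, nat_lit 28), (nat_lit 1000, nat_lit 980, nat_lit 302)], (nat_lit 98, nat_lit 100, nat_lit 28)⟩
noncomputable def p011_k55 : C1.Kn := ⟨[nat_lit 30, nat_lit 70, nat_lit 80, nat_lit 100, nat_lit 110], [nat_lit 0, nat_lit 0, nat_lit 0, nat_lit 36, nat_lit 318], [(nat_lit 0, nat_lit 0, nat_lit 0), (nat_lit 0, nat_lit 0, nat_lit 0), (nat_lit 0, nat_lit 0, nat_lit 0), (nat_lit 1000, nat_lit 994, nat_lit 28), (nat_lit 1000, nat_lit 980, nat_lit 302)], (nat_lit 98, nat_lit 100, nat_lit 28)⟩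
noncomputable def p011_k56 : C1.Kn := ⟨[nat_lit 40, nat_lit 80, nat_lit 100, nat_lit 120], [nat_lit 0, nat_lit 0, nat_lit 36, nat_lit 550], [(nat_lit 0, nat_lit 0, nat_lit 0), (nat_lit 0, nat_lit 0, nat_lit 0), (nat_lit 1000, nat_lit 994, nat_lit 28), (nat_lit 1000, nat_lit 993, nat_lit 397)], (nat_lit 98, nat_lit 100, nat_lit 28)⟩
noncomputable def p011_k57 : C1.Kn := ⟨[nat_lit 80, nat_lit 100, nat_lit 120], [nat_lit 0, nat_lit 65, nat_lit 576], [(nat_lit 0, nat_lit 0, nat_lit 0), (nat_lit 1000, nat_lit 990, nat_lit 51), (nat_lit 1000, nat_lit 990, nat_lit 399)], (nat_lit 98, nat_lit 100, nat_lit 28)⟩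
noncomputable def p011_k58 : C1.Kn := ⟨[nat_lit 80, nat_lit 90, nat_lit 110, nat_lit 120], [nat_lit 0, nat_lit 0, nat_lit 257, nat_lit 511], [(nat_lit 0, nat_lit 0, nat_lit 0), (nat_lit 0, nat_lit 0, nat_lit 0), (nat_lit 1000, nat_lit 980, nat_lit 201), (nat_lit 1000, nat_lit 997, nat_lit 383)], (nat_lit 100, nat_lit 100, nat_lit 40)⟩
noncomputable def p011_k59 : C1.Kn := ⟨[nat_lit 40, nat_lit 80, nat_lit 100, nat_lit 120], [nat_lit 0, nat_lit 0, nat_lit 0, nat_lit 511], [(nat_lit 0, nat_lit 0, nat_lit 0), (nat_lit 0, nat_lit 0, nat_lit 0), (nat_lit 0, nat_lit 0, nat_lit 0), (nat_lit 1000, nat_lit 997, nat_lit 383)], (nat_lit 100, nat_lit 100, nat_lit 40)⟩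
noncomputable def p011_k60 : C1.Kn := ⟨[nat_lit 80, nat_lit 120], [nat_lit 0, nat_lit 0], [(nat_lit 0, nat_lit 0, nat_lit 0), (nat_lit 0, nat_lit 0, nat_lit 0)], (nat_lit 100, nat_lit 100, nat_lit 40)⟩
noncomputable def p011_k61 : C1.Kn := ⟨[nat_lit 60, nat_lit 80, nat_lit 100, nat_lit 110, nat_lit 120], [nat_lit 0, nat_lit 0, nat_lit 0, nat_lit 288, nat_lit 488], [(nat_lit 0, nat_lit 0, nat_lit 0), (nat_lit 0, nat_lit 0, nat_lit 0), (nat_lit 0, nat_lit 0, nat_lit 0), (nat_lit 1000, nat_lit 983, nat_lit 284), (nat_lit 1000, nat_lit 986, nat_lit 313)], (nat_lit 100, nat_lit 100, nat_lit 40)⟩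
noncomputable def p011_k62 : C1.Kn := ⟨[nat_lit 80, nat_lit 100, nat_lit 120], [nat_lit 0, nat_lit 65, nat_lit 576], [(nat_lit 0, nat_lit 0, nat_lit 0), (nat_lit 1000, nat_lit 990, nat_lit 51), (nat_lit 1000, nat_lit 990, nat_lit 399)], (nat_lit 98, nat_lit 100, nat_lit 34)⟩
noncomputable def p011_k63 : C1.Kn := ⟨[nat_lit 40, nat_lit 80, nat_lit 100, nat_lit 120], [nat_lit 0, nat_lit 0, nat_lit 65, nat_lit 576], [(nat_lit 0, nat_lit 0, nat_lit 0), (nat_lit 0, nat_lit 0, nat_lit 0), (nat_lit 1000, nat_lit 990, nat_lit 51), (nat_lit 1000, nat_lit 990, nat_lit 399)], (nat_lit 98, nat_lit 100, nat_lit 34)⟩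
noncomputable def p011_k64 : C1.Kn := ⟨[nat_lit 40, nat_lit 80, nat_lit 100, nat_lit 120], [nat_lit 0, nat_lit 0, nat_lit 65, nat_lit 576], [(nat_lit 0, nat_lit 0, nat_lit 0), (nat_lit 0, nat_lit 0, nat_lit 0), (nat_lit 1000, nat_lit 990, nat_lit 51), (nat_lit 1000, nat_lit 990, nat_lit 399)], (nat_lit 99, nat_lit 100, nat_lit 40)⟩
noncomputable def p011_k65 : C1.Kn := ⟨[nat_lit 40, nat_lit 80, nat_lit 100, nat_lit 130], [nat_lit 0, nat_lit 0, nat_lit 0, nat_lit 767], [(nat_lit 0, nat_lit 0, nat_lit 0), (nat_lit 0, nat_lit 0, nat_lit 0), (nat_lit 0, nat_lit 0, nat_lit 0), (nat_lit 1000, nat_lit 1000, nat_lit 399)], (nat_lit 100, nat_lit 99, nat_lit 44)⟩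
noncomputable def p011_k66 : C1.Kn := ⟨[nat_lit 40, nat_lit 80, nat_lit 100, nat_lit 130], [nat_lit 0, nat_lit 0, nat_lit 65, nat_lit 831], [(nat_lit 0, nat_lit 0, nat_lit 0), (nat_lit 0, nat_lit 0, nat_lit 0), (nat_lit 1000, nat_lit 990, nat_lit 51), (nat_lit 1000, nat_lit 990, nat_lit 399)], (nat_lit 100, nat_lit 100, nat_lit 45)⟩
noncomputable def p011_k67 : C1.Kn := ⟨[nat_lit 80, nat_lit 100, nat_lit 120], [nat_lit 0, nat_lit 171, nat_lit 678], [(nat_lit 0, nat_lit 0, nat_lit 0), (nat_lit 1000, nat_lit 973, nat_lit 133), (nat_lit 1000, nat_lit 973, nat_lit 395)], (nat_lit 98, nat_lit 100, nat_lit 44)⟩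
noncomputable def p011_k68 : C1.Kn := ⟨[nat_lit 80, nat_lit 100, nat_lit 130], [nat_lit 0, nat_lit 0, nat_lit 767], [(nat_lit 0, nat_lit 0, nat_lit 0), (nat_lit 0, nat_lit 0, nat_lit 0), (nat_lit 1000, nat_lit 1000, nat_lit 399)], (nat_lit 100, nat_lit 99, nat_lit 44)⟩
noncomputable def p011_k69 : C1.Kn := ⟨[nat_lit 40, nat_lit 80, nat_lit 90, nat_lit 100], [nat_lit 0, nat_lit 0, nat_lit 0, nat_lit 129], [(nat_lit 0, nat_lit 0, nat_lit 0), (nat_lit 0, nat_lit 0, nat_lit 0), (nat_lit 0, nat_lit 0, nat_lit 0), (nat_lit 1000, nat_lit 980, nat_lit 192)], (nat_lit 98, nat_lit 100, nat_lit 20)⟩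
noncomputable def p011_k70 : C1.Kn := ⟨[nat_lit 80, nat_lit 90, nat_lit 100], [nat_lit 0, nat_lit 0, nat_lit 129], [(nat_lit 0, nat_lit 0, nat_lit 0), (nat_lit 0, nat_lit 0, nat_lit 0), (nat_lit 1000, nat_lit 980, nat_lit 192)], (nat_lit 98, nat_lit 100, nat_lit 20)⟩
noncomputable def p011_k71 : C1.Kn := ⟨[nat_lit 80, nat_lit 90, nat_lit 100], [nat_lit 0, nat_lit 5, nat_lit 135], [(nat_lit 0, nat_lit 0, nat_lit 0), (nat_lit 1000, nat_lit 998, nat_lit 9), (nat_lit 1000, nat_lit 979, nat_lit 190)], (nat_lit 98, nat_lit 100, nat_lit 20)⟩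
noncomputable def p011_k72 : C1.Kn := ⟨[nat_lit 70, nat_lit 90, nat_lit 100], [nat_lit 0, nat_lit 0, nat_lit 135], [(nat_lit 0, nat_lit 0, nat_lit 0), (nat_lit 0, nat_lit 0, nat_lit 0), (nat_lit 1000, nat_lit 979, nat_lit 190)], (nat_lit 98, nat_lit 100, nat_lit 20)⟩
noncomputable def p011_k73 : C1.Kn := ⟨[nat_lit 80, nat_lit 90, nat_lit 100], [nat_lit 0, nat_lit 12, nat_lit 142], [(nat_lit 0, nat_lit 0, nat_lit 0), (nat_lit 1000, nat_lit 996, nat_lit 19), (nat_lit 1000, nat_lit 978, nat_lit 197)], (nat_lit 98, nat_lit 100, nat_lit 20)⟩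
noncomputable def p011_k74 : C1.Kn := ⟨[nat_lit 80, nat_lit 90, nat_lit 100], [nat_lit 0, nat_lit 18, nat_lit 149], [(nat_lit 0, nat_lit 0, nat_lit 0), (nat_lit 1000, nat_lit 994, nat_lit 28), (nat_lit 1000, nat_lit 977, nat_lit 201)], (nat_lit 98, nat_lit 100, nat_lit 20)⟩
noncomputable def p011_k75 : C1.Kn := ⟨[nat_lit 40, nat_lit 80, nat_lit 100, nat_lit 110], [nat_lit 0, nat_lit 0, nat_lit 65, nat_lit 339], [(nat_lit 0, nat_lit 0, nat_lit 0), (nat_lit 0, nat_lit 0, nat_lit 0), (nat_lit 1000, nat_lit 990, nat_lit 51), (nat_lit 1000, nat_lit 978, nat_lit 313)], (nat_lit 98, nat_lit 100, nat_lit 28)⟩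
noncomputable def p011_k76 : C1.Kn := ⟨[nat_lit 70, nat_lit 90, nat_lit 100, nat_lit 110], [nat_lit 0, nat_lit 0, nat_lit 164, nat_lit 311], [(nat_lit 0, nat_lit 0, nat_lit 0), (nat_lit 0, nat_lit 0, nat_lit 0), (nat_lit 1000, nat_lit 974, nat_lit 221), (nat_lit 1000, nat_lit 974, nat_lit 230)], (nat_lit 98, nat_lit 100, nat_lit 28)⟩
noncomputable def p011_k77 : C1.Kn := ⟨[nat_lit 80, nat_lit 120], [nat_lit 0, nat_lit 130], [(nat_lit 0, nat_lit 0, nat_lit 0), (nat_lit 1000, nat_lit 990, nat_lit 51)], (nat_lit 98, nat_lit 100, nat_lit 28)⟩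
noncomputable def p011_k78 : C1.Kn := ⟨[nat_lit 80, nat_lit 90, nat_lit 110, nat_lit 120], [nat_lit 0, nat_lit 0, nat_lit 257, nat_lit 511], [(nat_lit 0, nat_lit 0, nat_lit 0), (nat_lit 0, nat_lit 0, nat_lit 0), (nat_lit 1000, nat_lit 980, nat_lit 201), (nat_lit 1000, nat_lit 997, nat_lit 383)], (nat_lit 99, nat_lit 100, nat_lit 34)⟩
noncomputable def p011_k79 : C1.Kn := ⟨[nat_lit 80, nat_lit 90, nat_lit 110, nat_lit 120], [nat_lit 0, nat_lit 32, nat_lit 292, nat_lit 578], [(nat_lit 0, nat_lit 0, nat_lit 0), (nat_lit 1000, nat_lit 990, nat_lit 51), (nat_lit 1000, nat_lit 975, nat_lit 203), (nat_lit 1000, nat_lit 994, nat_lit 421)], (nat_lit 98, nat_lit 100, nat_lit 34)⟩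
noncomputable def p011_k80 : C1.Kn := ⟨[nat_lit 80, nat_lit 90, nat_lit 110, nat_lit 120], [nat_lit 0, nat_lit 32, nat_lit 292, nat_lit 578], [(nat_lit 0, nat_lit 0, nat_lit 0), (nat_lit 1000, nat_lit 990, nat_lit 51), (nat_lit 1000, nat_lit 975, nat_lit 203), (nat_lit 1000, nat_lit 994, nat_lit 421)], (nat_lit 99, nat_lit 100, nat_lit 40)⟩
noncomputable def p011_k81 : C1.Kn := ⟨[nat_lit 80, nat_lit 100, nat_lit 120], [nat_lit 0, nat_lit 0, nat_lit 511], [(nat_lit 0, nat_lit 0, nat_lit 0), (nat_lit 0, nat_lit 0, nat_lit 0), (nat_lit 1000, nat_lit 997, nat_lit 383)], (nat_lit 99, nat_lit 100, nat_lit 34)⟩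
noncomputable def p011_k82 : C1.Kn := ⟨[nat_lit 80, nat_lit 120], [nat_lit 0, nat_lit 0], [(nat_lit 0, nat_lit 0, nat_lit 0), (nat_lit 0, nat_lit 0, nat_lit 0)], (nat_lit 99, nat_lit 100, nat_lit 34)⟩
noncomputable def p011_k83 : C1.Kn := ⟨[nat_lit 70, nat_lit 90, nat_lit 130], [nat_lit 0, nat_lit 0, nat_lit 642], [(nat_lit 0, nat_lit 0, nat_lit 0), (nat_lit 0, nat_lit 0, nat_lit 0), (nat_lit 1000, nat_lit 975, nat_lit 250)], (nat_lit 100, nat_lit 100, nat_lit 45)⟩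
noncomputable def p011_k84 : C1.Kn := ⟨[nat_lit 40, nat_lit 80, nat_lit 100, nat_lit 130], [nat_lit 0, nat_lit 0, nat_lit 36, nat_lit 806], [(nat_lit 0, nat_lit 0, nat_lit 0), (nat_lit 0, nat_lit 0, nat_lit 0), (nat_lit 1000, nat_lit 994, nat_lit 28), (nat_lit 1000, nat_lit 994, nat_lit 400)], (nat_lit 100, nat_lit 100, nat_lit 45)⟩
noncomputable def p011_k85 : C1.Kn := ⟨[nat_lit 40, nat_lit 80, nat_lit 100, nat_lit 130], [nat_lit 0, nat_lit 0, nat_lit 52, nat_lit 817], [(nat_lit 0, nat_lit 0, nat_lit 0), (nat_lit 0, nat_lit 0, nat_lit 0), (nat_lit 1000, nat_lit 992, nat_lit 41), (nat_lit 1000, nat_lit 992, nat_lit 398)], (nat_lit 100, nat_lit 100, nat_lit 45)⟩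
noncomputable def p011_k86 : C1.Kn := ⟨[nat_lit 40, nat_lit 80, nat_lit 100, nat_lit 130], [nat_lit 0, nat_lit 0, nat_lit 106, nat_lit 868], [(nat_lit 0, nat_lit 0, nat_lit 0), (nat_lit 0, nat_lit 0, nat_lit 0), (nat_lit 1000, nat_lit 983, nat_lit 83), (nat_lit 1000, nat_lit 983, nat_lit 397)], (nat_lit 99, nat_lit 100, nat_lit 45)⟩
noncomputable def p011_k87 : C1.Kn := ⟨[nat_lit 80, nat_lit 120, nat_lit 140], [nat_lit 0, nat_lit 130, nat_lit 1260], [(nat_lit 0, nat_lit 0, nat_lit 0), (nat_lit 1000, nat_lit 990, nat_lit 51), (nat_lit 946, nat_lit 1000, nat_lit 600)], (nat_lit 100, nat_lit 100, nat_lit 45)⟩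
noncomputable def p011_k88 : C1.Kn := ⟨[nat_lit 40, nat_lit 80, nat_lit 100, nat_lit 120], [nat_lit 0, nat_lit 0, nat_lit 132, nat_lit 640], [(nat_lit 0, nat_lit 0, nat_lit 0), (nat_lit 0, nat_lit 0, nat_lit 0), (nat_lit 1000, nat_lit 979, nat_lit 103), (nat_lit 1000, nat_lit 979, nat_lit 397)], (nat_lit 99, nat_lit 100, nat_lit 44)⟩
noncomputable def p011_k89 : C1.Kn := ⟨[nat_lit 80, nat_lit 90, nat_lit 110, nat_lit 120], [nat_lit 0, nat_lit 66, nat_lit 324, nat_lit 648], [(nat_lit 0, nat_lit 0, nat_lit 0), (nat_lit 1000, nat_lit 979, nat_lit 103), (nat_lit 1000, nat_lit 969, nat_lit 202), (nat_lit 1000, nat_lit 986, nat_lit 438)], (nat_lit 99, nat_lit 100, nat_lit 44)⟩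
noncomputable def p011_k90 : C1.Kn := ⟨[nat_lit 80, nat_lit 90, nat_lit 110], [nat_lit 0, nat_lit 66, nat_lit 324], [(nat_lit 0, nat_lit 0, nat_lit 0), (nat_lit 1000, nat_lit 979, nat_lit 103), (nat_lit 1000, nat_lit 969, nat_lit 202)], (nat_lit 97, nat_lit 100, nat_lit 28)⟩
noncomputable def p011_k91 : C1.Kn := ⟨[nat_lit 40, nat_lit 80, nat_lit 100, nat_lit 110], [nat_lit 0, nat_lit 0, nat_lit 132, nat_lit 394], [(nat_lit 0, nat_lit 0, nat_lit 0), (nat_lit 0, nat_lit 0, nat_lit 0), (nat_lit 1000, nat_lit 979, nat_lit 103), (nat_lit 1000, nat_lit 972, nat_lit 338)], (nat_lit 97, nat_lit 100, nat_lit 28)⟩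
noncomputable def p011_k92 : C1.Kn := ⟨[nat_lit 80, nat_lit 100, nat_lit 110], [nat_lit 0, nat_lit 0, nat_lit 288], [(nat_lit 0, nat_lit 0, nat_lit 0), (nat_lit 0, nat_lit 0, nat_lit 0), (nat_lit 1000, nat_lit 983, nat_lit 284)], (nat_lit 98, nat_lit 100, nat_lit 28)⟩
noncomputable def p011_k93 : C1.Kn := ⟨[nat_lit 80, nat_lit 100], [nat_lit 0, nat_lit 132], [(nat_lit 0, nat_lit 0, nat_lit 0), (nat_lit 1000, nat_lit 979, nat_lit 103)], (nat_lit 97, nat_lit 100, nat_lit 20)⟩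
noncomputable def p011_k94 : C1.Kn := ⟨[nat_lit 80, nat_lit 100], [nat_lit 0, nat_lit 198], [(nat_lit 0, nat_lit 0, nat_lit 0), (nat_lit 1000, nat_lit 969, nat_lit 154)], (nat_lit 96, nat_lit 100, nat_lit 20)⟩
noncomputable def p011_k95 : C1.Kn := ⟨[nat_lit 80, nat_lit 100, nat_lit 120], [nat_lit 0, nat_lit 198, nat_lit 704], [(nat_lit 0, nat_lit 0, nat_lit 0), (nat_lit 1000, nat_lit 969, nat_lit 154), (nat_lit 1000, nat_lit 969, nat_lit 395)], (nat_lit 96, nat_lit 100, nat_lit 28)⟩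
noncomputable def p011_k96 : C1.Kn := ⟨[nat_lit 80, nat_lit 100], [nat_lit 0, nat_lit 238], [(nat_lit 0, nat_lit 0, nat_lit 0), (nat_lit 1000, nat_lit 963, nat_lit 185)], (nat_lit 96, nat_lit 100, nat_lit 28)⟩
noncomputable def p011_k97 : C1.Kn := ⟨[nat_lit 80, nat_lit 100], [nat_lit 0, nat_lit 251], [(nat_lit 0, nat_lit 0, nat_lit 0), (nat_lit 1000, nat_lit 961, nat_lit 195)], (nat_lit 96, nat_lit 100, nat_lit 28)⟩
noncomputable def p011_k98 : C1.Kn := ⟨[nat_lit 80, nat_lit 100, nat_lit 110], [nat_lit 0, nat_lit 132, nat_lit 394], [(nat_lit 0, nat_lit 0, nat_lit 0), (nat_lit 1000, nat_lit 979, nat_lit 103), (nat_lit 1000, nat_lit 972, nat_lit 338)], (nat_lit 97, nat_lit 100, nat_lit 28)⟩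
noncomputable def p011_k99 : C1.Kn := ⟨[nat_lit 80, nat_lit 100, nat_lit 120], [nat_lit 0, nat_lit 132, nat_lit 640], [(nat_lit 0, nat_lit 0, nat_lit 0), (nat_lit 1000, nat_lit 979, nat_lit 103), (nat_lit 1000, nat_lit 979, nat_lit 397)], (nat_lit 97, nat_lit 100, nat_lit 34)⟩
noncomputable def p011_k100 : C1.Kn := ⟨[nat_lit 80, nat_lit 100, nat_lit 120], [nat_lit 0, nat_lit 171, nat_lit 678], [(nat_lit 0, nat_lit 0, nat_lit 0), (nat_lit 1000, nat_lit 973, nat_lit 133), (nat_lit 1000, nat_lit 973, nat_lit 395)], (nat_lit 97, nat_lit 100, nat_lit 34)⟩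
noncomputable def p011_k101 : C1.Kn := ⟨[nat_lit 80, nat_lit 100, nat_lit 120], [nat_lit 0, nat_lit 198, nat_lit 704], [(nat_lit 0, nat_lit 0, nat_lit 0), (nat_lit 1000, nat_lit 969, nat_lit 154), (nat_lit 1000, nat_lit 969, nat_lit 395)], (nat_lit 96, nat_lit 100, nat_lit 34)⟩
noncomputable def p011_k102 : C1.Kn := ⟨[nat_lit 80, nat_lit 100, nat_lit 120], [nat_lit 0, nat_lit 132, nat_lit 640], [(nat_lit 0, nat_lit 0, nat_lit 0), (nat_lit 1000, nat_lit 979, nat_lit 103), (nat_lit 1000, nat_lit 979, nat_lit 397)], (nat_lit 98, nat_lit 100, nat_lit 40)⟩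
noncomputable def p011_k103 : C1.Kn := ⟨[nat_lit 80, nat_lit 90, nat_lit 110, nat_lit 120], [nat_lit 0, nat_lit 66, nat_lit 324, nat_lit 648], [(nat_lit 0, nat_lit 0, nat_lit 0), (nat_lit 1000, nat_lit 979, nat_lit 103), (nat_lit 1000, nat_lit 969, nat_lit 202), (nat_lit 1000, nat_lit 986, nat_lit 438)], (nat_lit 98, nat_lit 100, nat_lit 40)⟩
noncomputable def p011_k104 : C1.Kn := ⟨[nat_lit 80, nat_lit 100, nat_lit 120], [nat_lit 0, nat_lit 198, nat_lit 704], [(nat_lit 0, nat_lit 0, nat_lit 0), (nat_lit 1000, nat_lit 969, nat_lit 154), (nat_lit 1000, nat_lit 969, nat_lit 395)], (nat_lit 97, nat_lit 100, nat_lit 39)⟩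
noncomputable def p011_k105 : C1.Kn := ⟨[nat_lit 80, nat_lit 90, nat_lit 110, nat_lit 130], [nat_lit 0, nat_lit 0, nat_lit 257, nat_lit 765], [(nat_lit 0, nat_lit 0, nat_lit 0), (nat_lit 0, nat_lit 0, nat_lit 0), (nat_lit 1000, nat_lit 980, nat_lit 201), (nat_lit 1000, nat_lit 999, nat_lit 396)], (nat_lit 100, nat_lit 99, nat_lit 44)⟩
noncomputable def p011_l0 : Lf2 := ⟨nat_lit 0, nat_lit 1, [nat_lit 19, nat_lit 5, nat_lit 5, nat_lit 20], false, nat_lit 0, nat_lit 0, nat_lit 0, nat_lit 0, ⟨nat_lit 1000, nat_lit 0, nat_lit 0, nat_lit 0, nat_lit 0, nat_lit 0, nat_lit 0, nat_lit 0, nat_lit 0, nat_lit 0, nat_lit 0, nat_lit 0, nat_lit 0, nat_lit 0, nat_lit 0, nat_lit 0, false, false⟩,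
 nat_lit 24078, nat_lit 0, nat_lit 0, nat_lit 0, nat_lit 12746, nat_lit 12126, nat_lit 0, nat_lit 0, nat_lit 0, nat_lit 519, nat_lit 0, nat_lit 0, nat_lit 0, nat_lit 0, nat_lit 0, nat_lit 0, nat_lit 0, nat_lit 0, [],
 ⟨p011_k0, nat_lit 0, nat_lit 0, nat_lit 274, nat_lit 0, nat_lit 318427, [nat_lit 4688000000, nat_lit 6250000000], [], [nat_lit 28294614768, nat_lit 27313699178, nat_lit 26982072476, nat_lit 26002599988], nat_lit 1271250, nat_lit 1271250, nat_lit 230001, nat_lit 254650, nat_lit 0, nat_lit 0, [nat_lit 1100000, nat_lit 1442500], [nat_lit 31, nat_lit 40, nat_lit 20, nat_lit 80, nat_lit 3, nat_lit 226, nat_lit 20, nat_lit 9]⟩, ⟨p011_k1, nat_lit 0, nat_lit 0, nat_lit 0, nat_lit 0, nat_lit 334945, [nat_lit 5449500000, nat_lit 7089500000], [], [nat_lit 17601059124, nat_lit 17275687602, nat_lit 17650741266, nat_lit 16895578995], nat_lit 1271250, nat_lit 1271250, nat_lit 230001, nat_lit 254650,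 nat_lit 0, nat_lit 0, [nat_lit 1271250, nat_lit 1271250], [nat_lit 155, nat_lit 40, nat_lit 20, nat_lit 40]⟩,
 zbF0, []⟩
noncomputable def p011_l1 : Lf2 := ⟨nat_lit 0, nat_lit 1, [nat_lit 19, nat_lit 5, nat_lit 5, nat_lit 20], false, nat_lit 0, nat_lit 0, nat_lit 0, nat_lit 0, ⟨nat_lit 773, nat_lit 0, nat_lit 227, nat_lit 5, nat_lit 84, nat_lit 0, nat_lit 0, nat_lit 0, nat_lit 0, nat_lit 215, nat_lit 66150, nat_lit 278, nat_lit 64146936, nat_lit 0, nat_lit 0, nat_lit 880328, false, false⟩,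
 nat_lit 30576, nat_lit 0, nat_lit 0, nat_lit 0, nat_lit 16187, nat_lit 15399, nat_lit 0, nat_lit 0, nat_lit 0, nat_lit 5572, nat_lit 0, nat_lit 0, nat_lit 0, nat_lit 0, nat_lit 0, nat_lit 227000, nat_lit 0, nat_lit 0, [(nat_lit 6, [(nat_lit 6, nat_lit 227)])],
 ⟨p011_k0, nat_lit 0, nat_lit 0, nat_lit 274, nat_lit 0, nat_lit 318427, [nat_lit 3845618134, nat_lit 4787666000], [], [nat_lit 23168281364, nat_lit 22718690794, nat_lit 21501395903, nat_lit 21934317477], nat_lit 1271250, nat_lit 1271250, nat_lit 230001, nat_lit 254650, nat_lit 0, nat_lit 0, [nat_lit 1100000, nat_lit 1442500], [nat_lit 31, nat_lit 40, nat_lit 20, nat_lit 80, nat_lit 3, nat_lit 226, nat_lit 20, nat_lit 9]⟩, ⟨p011_k2, nat_lit 0, nat_lit 0, nat_lit 0, nat_lit 0, nat_lit 334945, [nat_lit 4831250000, nat_lit 6159264000], [], [nat_lit 10355532018, nat_lit 9574546985, nat_lit 10404459698, nat_lit 9056536801], nat_lit 1271250,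 nat_lit 1271250, nat_lit 230001, nat_lit 254650, nat_lit 0, nat_lit 0, [nat_lit 1412500, nat_lit 1271250], [nat_lit 26, nat_lit 40, nat_lit 20, nat_lit 80]⟩,
 ⟨nat_lit 6264, nat_lit 6325, ⟨.ofNat (nat_lit 202993), .ofNat (nat_lit 211220), .ofNat (nat_lit 208335), .ofNat (nat_lit 216562), .ofNat (nat_lit 205259), .ofNat (nat_lit 213429), .ofNat (nat_lit 210599), .ofNat (nat_lit 218769)⟩, ⟨.ofNat (nat_lit 0), .ofNat (nat_lit 0), .ofNat (nat_lit 0), .ofNat (nat_lit 0), .ofNat (nat_lit 0), .ofNat (nat_lit 0), .ofNat (nat_lit 0), .ofNat (nat_lit 0)⟩⟩, []⟩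
noncomputable def p011_l2 : Lf2 := ⟨nat_lit 3, nat_lit 1, [nat_lit 19, nat_lit 5, nat_lit 5, nat_lit 20], false, nat_lit 0, nat_lit 0, nat_lit 0, nat_lit 0, zbN0,
 nat_lit 0, nat_lit 0, nat_lit 0, nat_lit 0, nat_lit 0, nat_lit 0, nat_lit 0, nat_lit 0, nat_lit 0, nat_lit 0, nat_lit 0, nat_lit 0, nat_lit 0, nat_lit 0, nat_lit 0, nat_lit 0, nat_lit 0, nat_lit 0, [],
 C1.Rw.none, ⟨p011_k2, nat_lit 0, nat_lit 0, nat_lit 301, nat_lit 0, nat_lit 334945, [], [], [], nat_lit 1271250, nat_lit 1271250, nat_lit 230001, nat_lit 254650, nat_lit 0, nat_lit 0, [nat_lit 1412500, nat_lit 1271250], [nat_lit 26, nat_lit 40, nat_lit 20, nat_lit 80, nat_lit 2, nat_lit 289, nat_lit 75, nat_lit 10]⟩,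
 zbF0, []⟩
noncomputable def p011_l3 : Lf2 := ⟨nat_lit 0, nat_lit 1, [nat_lit 19, nat_lit 5, nat_lit 5, nat_lit 20], false, nat_lit 0, nat_lit 0, nat_lit 0, nat_lit 0, ⟨nat_lit 1000, nat_lit 0, nat_lit 0, nat_lit 0, nat_lit 0, nat_lit 0, nat_lit 0, nat_lit 0, nat_lit 0, nat_lit 0, nat_lit 0, nat_lit 0, nat_lit 0, nat_lit 0, nat_lit 0, nat_lit 0, false, false⟩,
 nat_lit 19763, nat_lit 0, nat_lit 0, nat_lit 0, nat_lit 10616, nat_lit 9953, nat_lit 0, nat_lit 0, nat_lit 0, nat_lit 6398, nat_lit 0, nat_lit 0, nat_lit 0, nat_lit 0, nat_lit 0, nat_lit 0, nat_lit 0, nat_lit 0, [],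
 ⟨p011_k3, nat_lit 0, nat_lit 0, nat_lit 271, nat_lit 0, nat_lit 303723, [nat_lit 4688000000, nat_lit 6250000000], [], [nat_lit 28702780169, nat_lit 28430448983, nat_lit 27610780404, nat_lit 27338849865], nat_lit 1271250, nat_lit 1271250, nat_lit 230001, nat_lit 254650, nat_lit 0, nat_lit 0, [nat_lit 1100000, nat_lit 1442500], [nat_lit 31, nat_lit 40, nat_lit 20, nat_lit 80, nat_lit 3, nat_lit 226, nat_lit 20, nat_lit 9]⟩, ⟨p011_k4, nat_lit 0, nat_lit 0, nat_lit 0, nat_lit 0, nat_lit 324250, [nat_lit 2637500000, nat_lit 5449500000, nat_lit 7089500000], [], [nat_lit 14678408608, nat_lit 14767109204, nat_lit 14454427271, nat_lit 14542834025], nat_lit 1271250, nat_lit 1271250, nat_lit 230001, nat_lit 254650, nat_lit 0, nat_lit 0, [nat_lit 631250, nat_lit 1271250, nat_lit 1271250], [nat_lit 90, nat_lit 40, nat_lit 20, nat_lit 40]⟩,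
 zbF0, []⟩
noncomputable def p011_l4 : Lf2 := ⟨nat_lit 3, nat_lit 1, [nat_lit 19, nat_lit 5, nat_lit 5, nat_lit 20], false, nat_lit 0, nat_lit 0, nat_lit 0, nat_lit 0, zbN0,
 nat_lit 0, nat_lit 0, nat_lit 0, nat_lit 0, nat_lit 0, nat_lit 0, nat_lit 0, nat_lit 0, nat_lit 0, nat_lit 0, nat_lit 0, nat_lit 0, nat_lit 0, nat_lit 0, nat_lit 0, nat_lit 0, nat_lit 0, nat_lit 0, [],
 C1.Rw.none, ⟨p011_k2, nat_lit 0, nat_lit 0, nat_lit 295, nat_lit 0, nat_lit 324250, [], [], [], nat_lit 1271250, nat_lit 1271250, nat_lit 230001, nat_lit 254650, nat_lit 0, nat_lit 0, [nat_lit 1412500, nat_lit 1271250], [nat_lit 26, nat_lit 40, nat_lit 20, nat_lit 80, nat_lit 2, nat_lit 289, nat_lit 75, nat_lit 10]⟩,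
 zbF0, []⟩
noncomputable def p011_l5 : Lf2 := ⟨nat_lit 0, nat_lit 1, [nat_lit 19, nat_lit 5, nat_lit 5, nat_lit 20], true, nat_lit 0, nat_lit 0, nat_lit 0, nat_lit 0, ⟨nat_lit 0, nat_lit 0, nat_lit 1000, nat_lit 5, nat_lit 84, nat_lit 0, nat_lit 0, nat_lit 0, nat_lit 0, nat_lit 215, nat_lit 66150, nat_lit 278, nat_lit 64144445, nat_lit 0, nat_lit 0, nat_lit 880906, false, false⟩,
 nat_lit 0, nat_lit 9259, nat_lit 0, nat_lit 0, nat_lit 4998, nat_lit 0, nat_lit 1124, nat_lit 0, nat_lit 0, nat_lit 0, nat_lit 0, nat_lit 0, nat_lit 0, nat_lit 0, nat_lit 10, nat_lit 1000000, nat_lit 0, nat_lit 0, [(nat_lit 6, [(nat_lit 6, nat_lit 1000)])],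
 ⟨p011_k5, nat_lit 0, nat_lit 0, nat_lit 271, nat_lit 0, nat_lit 306225, [nat_lit 1137066667, nat_lit 8000000], [], [nat_lit 11869053501, nat_lit 11892693196, nat_lit 11954031750, nat_lit 11827874433], nat_lit 1271250, nat_lit 1271250, nat_lit 230001, nat_lit 254650, nat_lit 0, nat_lit 0, [nat_lit 1100000, nat_lit 1442500], [nat_lit 31, nat_lit 40, nat_lit 20, nat_lit 80, nat_lit 3, nat_lit 226, nat_lit 20, nat_lit 9]⟩, C1.Rw.none,
 ⟨nat_lit 6224, nat_lit 6245, ⟨.ofNat (nat_lit 206012), .ofNat (nat_lit 214162), .ofNat (nat_lit 207080), .ofNat (nat_lit 215230), .ofNat (nat_lit 206763), .ofNat (nat_lit 214895), .ofNat (nat_lit 207831), .ofNat (nat_lit 215962)⟩, ⟨.ofNat (nat_lit 0), .ofNat (nat_lit 0), .ofNat (nat_lit 0), .ofNat (nat_lit 0), .ofNat (nat_lit 0), .ofNat (nat_lit 0), .ofNat (nat_lit 0), .ofNat (nat_lit 0)⟩⟩, []⟩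
noncomputable def p011_l6 : Lf2 := ⟨nat_lit 0, nat_lit 1, [nat_lit 19, nat_lit 5, nat_lit 5, nat_lit 20], false, nat_lit 0, nat_lit 0, nat_lit 0, nat_lit 0, ⟨nat_lit 1000, nat_lit 0, nat_lit 0, nat_lit 0, nat_lit 0, nat_lit 0, nat_lit 0, nat_lit 0, nat_lit 0, nat_lit 0, nat_lit 0, nat_lit 0, nat_lit 0, nat_lit 0, nat_lit 0, nat_lit 0, false, false⟩,
 nat_lit 29757, nat_lit 0, nat_lit 0, nat_lit 0, nat_lit 15985, nat_lit 15063, nat_lit 5784, nat_lit 0, nat_lit 0, nat_lit 968, nat_lit 0, nat_lit 0, nat_lit 0, nat_lit 0, nat_lit 0, nat_lit 0, nat_lit 0, nat_lit 0, [],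
 ⟨p011_k3, nat_lit 0, nat_lit 0, nat_lit 272, nat_lit 0, nat_lit 311194, [nat_lit 4688000000, nat_lit 6250000000], [], [nat_lit 24550683061, nat_lit 23730559848, nat_lit 22906408735, nat_lit 22268934991], nat_lit 1271250, nat_lit 1271250, nat_lit 230001, nat_lit 254650, nat_lit 0, nat_lit 0, [nat_lit 1100000, nat_lit 1442500], [nat_lit 31, nat_lit 40, nat_lit 20, nat_lit 80, nat_lit 3, nat_lit 226, nat_lit 20, nat_lit 9]⟩, ⟨p011_k6, nat_lit 0, nat_lit 0, nat_lit 298, nat_lit 0, nat_lit 330524, [nat_lit 6250000000, nat_lit 7968000000], [], [nat_lit 19451047524, nat_lit 19344888311, nat_lit 19523503796, nat_lit 19143290178], nat_lit 1271250, nat_lit 1271250, nat_lit 230001, nat_lit 254650, nat_lit 0, nat_lit 0, [nat_lit 1412500, nat_lit 1271250], [nat_lit 26, nat_lit 40, nat_lit 20, nat_lit 80, nat_lit 2, nat_lit 289, nat_lit 75, nat_lit 10]⟩,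
 zbF0, []⟩
noncomputable def p011_l7 : Lf2 := ⟨nat_lit 0, nat_lit 1, [nat_lit 19, nat_lit 5, nat_lit 5, nat_lit 20], false, nat_lit 0, nat_lit 0, nat_lit 0, nat_lit 0, ⟨nat_lit 1000, nat_lit 0, nat_lit 0, nat_lit 0, nat_lit 0, nat_lit 0, nat_lit 0, nat_lit 0, nat_lit 0, nat_lit 0, nat_lit 0, nat_lit 0, nat_lit 0, nat_lit 0, nat_lit 0, nat_lit 0, false, false⟩,
 nat_lit 29114, nat_lit 0, nat_lit 0, nat_lit 0, nat_lit 15640, nat_lit 14812, nat_lit 5532, nat_lit 0, nat_lit 0, nat_lit 1069, nat_lit 0, nat_lit 0, nat_lit 0, nat_lit 0, nat_lit 0, nat_lit 0, nat_lit 0, nat_lit 0, [],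
 ⟨p011_k3, nat_lit 0, nat_lit 0, nat_lit 272, nat_lit 0, nat_lit 314657, [nat_lit 4688000000, nat_lit 6250000000], [], [nat_lit 24804025052, nat_lit 24001602340, nat_lit 23195238661, nat_lit 22393996456], nat_lit 1271250, nat_lit 1271250, nat_lit 230001, nat_lit 254650, nat_lit 0, nat_lit 0, [nat_lit 1100000, nat_lit 1442500], [nat_lit 31, nat_lit 40, nat_lit 20, nat_lit 80, nat_lit 3, nat_lit 226, nat_lit 20, nat_lit 9]⟩, ⟨p011_k7, nat_lit 0, nat_lit 0, nat_lit 300, nat_lit 0, nat_lit 332494, [nat_lit 6250000000, nat_lit 7968000000], [], [nat_lit 19415458804, nat_lit 19313669846, nat_lit 19488893363, nat_lit 19115015376], nat_lit 1271250, nat_lit 1271250, nat_lit 230001, nat_lit 254650, nat_lit 0, nat_lit 0, [nat_lit 1412500, nat_lit 1271250], [nat_lit 26, nat_lit 40, nat_lit 20, nat_lit 80, nat_lit 2, nat_lit 289, nat_lit 75, nat_lit 10]⟩,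
 zbF0, []⟩
noncomputable def p011_l8 : Lf2 := ⟨nat_lit 0, nat_lit 1, [nat_lit 19, nat_lit 5, nat_lit 5, nat_lit 20], false, nat_lit 0, nat_lit 0, nat_lit 0, nat_lit 0, ⟨nat_lit 1000, nat_lit 0, nat_lit 0, nat_lit 0, nat_lit 0, nat_lit 0, nat_lit 0, nat_lit 0, nat_lit 0, nat_lit 0, nat_lit 0, nat_lit 0, nat_lit 0, nat_lit 0, nat_lit 0, nat_lit 0, false, false⟩,
 nat_lit 28255, nat_lit 0, nat_lit 0, nat_lit 0, nat_lit 15178, nat_lit 14447, nat_lit 5186, nat_lit 0, nat_lit 0, nat_lit 1202, nat_lit 0, nat_lit 0, nat_lit 0, nat_lit 0, nat_lit 0, nat_lit 0, nat_lit 0, nat_lit 0, [],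
 ⟨p011_k3, nat_lit 0, nat_lit 0, nat_lit 273, nat_lit 0, nat_lit 321582, [nat_lit 4688000000, nat_lit 6250000000], [], [nat_lit 25144243676, nat_lit 24365524243, nat_lit 23582980259, nat_lit 22805406462], nat_lit 1271250, nat_lit 1271250, nat_lit 230001, nat_lit 254650, nat_lit 0, nat_lit 0, [nat_lit 1100000, nat_lit 1442500], [nat_lit 31, nat_lit 40, nat_lit 20, nat_lit 80, nat_lit 3, nat_lit 226, nat_lit 20, nat_lit 9]⟩, ⟨p011_k8, nat_lit 0, nat_lit 0, nat_lit 303, nat_lit 0, nat_lit 338082, [nat_lit 6250000000, nat_lit 7968000000], [], [nat_lit 19552214984, nat_lit 19360825367, nat_lit 19626798915, nat_lit 18897469280], nat_lit 1271250, nat_lit 1271250, nat_lit 230001, nat_lit 254650, nat_lit 0, nat_lit 0, [nat_lit 1412500, nat_lit 1271250], [nat_lit 26, nat_lit 40, nat_lit 20, nat_lit 80, nat_lit 2, nat_lit 289, nat_lit 75, nat_lit 10]⟩,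
 zbF0, []⟩
noncomputable def p011_l9 : Lf2 := ⟨nat_lit 0, nat_lit 1, [nat_lit 19, nat_lit 5, nat_lit 5, nat_lit 20], false, nat_lit 0, nat_lit 0, nat_lit 0, nat_lit 0, ⟨nat_lit 1000, nat_lit 0, nat_lit 0, nat_lit 0, nat_lit 0, nat_lit 0, nat_lit 0, nat_lit 0, nat_lit 0, nat_lit 0, nat_lit 0, nat_lit 0, nat_lit 0, nat_lit 0, nat_lit 0, nat_lit 0, false, false⟩,
 nat_lit 30051, nat_lit 0, nat_lit 0, nat_lit 0, nat_lit 15909, nat_lit 15135, nat_lit 0, nat_lit 0, nat_lit 0, nat_lit 1006, nat_lit 0, nat_lit 0, nat_lit 0, nat_lit 0, nat_lit 0, nat_lit 0, nat_lit 0, nat_lit 0, [],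
 ⟨p011_k0, nat_lit 0, nat_lit 0, nat_lit 273, nat_lit 0, nat_lit 326385, [nat_lit 4688000000, nat_lit 6250000000], [], [nat_lit 24837024561, nat_lit 22799466659, nat_lit 23198766650, nat_lit 21425382294], nat_lit 1271250, nat_lit 1271250, nat_lit 254650, nat_lit 279600, nat_lit 0, nat_lit 0, [nat_lit 1100000, nat_lit 1442500], [nat_lit 31, nat_lit 40, nat_lit 20, nat_lit 80, nat_lit 3, nat_lit 226, nat_lit 20, nat_lit 9]⟩, ⟨p011_k2, nat_lit 0, nat_lit 0, nat_lit 302, nat_lit 0, nat_lit 343317, [nat_lit 6250000000, nat_lit 7968000000], [], [nat_lit 19808215030, nat_lit 19249693635, nat_lit 19899418350, nat_lit 18748976285], nat_lit 1271250, nat_lit 1271250, nat_lit 254650, nat_lit 279600, nat_lit 0, nat_lit 0, [nat_lit 1412500, nat_lit 1271250], [nat_lit 26, nat_lit 40, nat_lit 20, nat_lit 80, nat_lit 2, nat_lit 289, nat_lit 75, nat_lit 10]⟩,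
 zbF0, []⟩
noncomputable def p011_l10 : Lf2 := ⟨nat_lit 0, nat_lit 1, [nat_lit 19, nat_lit 5, nat_lit 5, nat_lit 20], false, nat_lit 0, nat_lit 0, nat_lit 0, nat_lit 0, ⟨nat_lit 900, nat_lit 0, nat_lit 100, nat_lit 5, nat_lit 88, nat_lit 0, nat_lit 0, nat_lit 0, nat_lit 0, nat_lit 215, nat_lit 72600, nat_lit 281, nat_lit 63923399, nat_lit 0, nat_lit 0, nat_lit 931590, false, false⟩,
 nat_lit 26414, nat_lit 0, nat_lit 0, nat_lit 0, nat_lit 14327, nat_lit 13303, nat_lit 4901, nat_lit 0, nat_lit 0, nat_lit 967, nat_lit 0, nat_lit 0, nat_lit 0, nat_lit 0, nat_lit 0, nat_lit 100000, nat_lit 0, nat_lit 0, [(nat_lit 6, [(nat_lit 6, nat_lit 100)])],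
 ⟨p011_k9, nat_lit 0, nat_lit 0, nat_lit 273, nat_lit 0, nat_lit 338638, [nat_lit 4316906667, nat_lit 5605800000], [], [nat_lit 23165688434, nat_lit 22558872596, nat_lit 20220398217, nat_lit 21182101462], nat_lit 1271250, nat_lit 1271250, nat_lit 230001, nat_lit 279600, nat_lit 0, nat_lit 0, [nat_lit 1100000, nat_lit 1442500], [nat_lit 31, nat_lit 40, nat_lit 20, nat_lit 80, nat_lit 3, nat_lit 226, nat_lit 20, nat_lit 9]⟩, ⟨p011_k2, nat_lit 0, nat_lit 0, nat_lit 314, nat_lit 0, nat_lit 365085, [nat_lit 5625000000, nat_lit 7171200000], [], [nat_lit 18184695450, nat_lit 17697705408, nat_lit 18332122830, nat_lit 16820728468], nat_lit 1271250, nat_lit 1271250, nat_lit 230001, nat_lit 279600, nat_lit 0, nat_lit 0, [nat_lit 1412500, nat_lit 1271250], [nat_lit 26, nat_lit 40, nat_lit 20, nat_lit 80, nat_lit 2, nat_lit 289, nat_lit 75, nat_lit 10]⟩,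
 ⟨nat_lit 6123, nat_lit 6225, ⟨.ofNat (nat_lit 206763), .ofNat (nat_lit 223026), .ofNat (nat_lit 212102), .ofNat (nat_lit 228366), .ofNat (nat_lit 210498), .ofNat (nat_lit 226574), .ofNat (nat_lit 215835), .ofNat (nat_lit 231911)⟩, ⟨.ofNat (nat_lit 0), .ofNat (nat_lit 0), .ofNat (nat_lit 0), .ofNat (nat_lit 0), .ofNat (nat_lit 0), .ofNat (nat_lit 0), .ofNat (nat_lit 0), .ofNat (nat_lit 0)⟩⟩, []⟩
noncomputable def p011_l11 : Lf2 := ⟨nat_lit 0, nat_lit 1, [nat_lit 19, nat_lit 5, nat_lit 5, nat_lit 20], false, nat_lit 0, nat_lit 0, nat_lit 0, nat_lit 0, ⟨nat_lit 1000, nat_lit 0, nat_lit 0, nat_lit 0, nat_lit 0, nat_lit 0, nat_lit 0, nat_lit 0, nat_lit 0, nat_lit 0, nat_lit 0, nat_lit 0, nat_lit 0, nat_lit 0, nat_lit 0, nat_lit 0, false, false⟩,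
 nat_lit 17218, nat_lit 0, nat_lit 0, nat_lit 0, nat_lit 9115, nat_lit 8892, nat_lit 0, nat_lit 0, nat_lit 0, nat_lit 7271, nat_lit 0, nat_lit 0, nat_lit 0, nat_lit 0, nat_lit 0, nat_lit 0, nat_lit 0, nat_lit 0, [],
 ⟨p011_k0, nat_lit 0, nat_lit 0, nat_lit 275, nat_lit 0, nat_lit 325556, [nat_lit 4688000000, nat_lit 6250000000], [], [nat_lit 30383136920, nat_lit 29915484553, nat_lit 29444503388, nat_lit 28977539022], nat_lit 1271250, nat_lit 1271250, nat_lit 230001, nat_lit 254650, nat_lit 0, nat_lit 0, [nat_lit 1100000, nat_lit 1442500], [nat_lit 31, nat_lit 40, nat_lit 20, nat_lit 80, nat_lit 3, nat_lit 226, nat_lit 20, nat_lit 9]⟩, ⟨p011_k10, nat_lit 0, nat_lit 0, nat_lit 0, nat_lit 0, nat_lit 333818, [nat_lit 2637500000, nat_lit 5449500000, nat_lit 7089500000], [], [nat_lit 14510985668, nat_lit 14759363200, nat_lit 14317835888, nat_lit 14573068466], nat_lit 1271250, nat_lit 1271250, nat_lit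 230001, nat_lit 254650, nat_lit 0, nat_lit 0, [nat_lit 631250, nat_lit 1271250, nat_lit 1271250], [nat_lit 90, nat_lit 40, nat_lit 20, nat_lit 40]⟩,
 zbF0, []⟩
noncomputable def p011_l12 : Lf2 := ⟨nat_lit 3, nat_lit 1, [nat_lit 19, nat_lit 5, nat_lit 5, nat_lit 20], false, nat_lit 0, nat_lit 0, nat_lit 0, nat_lit 0, zbN0,
 nat_lit 0, nat_lit 0, nat_lit 0, nat_lit 0, nat_lit 0, nat_lit 0, nat_lit 0, nat_lit 0, nat_lit 0, nat_lit 0, nat_lit 0, nat_lit 0, nat_lit 0, nat_lit 0, nat_lit 0, nat_lit 0, nat_lit 0, nat_lit 0, [],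
 C1.Rw.none, ⟨p011_k11, nat_lit 0, nat_lit 0, nat_lit 302, nat_lit 0, nat_lit 333818, [], [], [], nat_lit 1271250, nat_lit 1271250, nat_lit 230001, nat_lit 254650, nat_lit 0, nat_lit 0, [nat_lit 1412500, nat_lit 1271250], [nat_lit 26, nat_lit 40, nat_lit 20, nat_lit 80, nat_lit 2, nat_lit 289, nat_lit 75, nat_lit 10]⟩,
 zbF0, []⟩
noncomputable def p011_l13 : Lf2 := ⟨nat_lit 0, nat_lit 1, [nat_lit 19, nat_lit 5, nat_lit 5, nat_lit 20], false, nat_lit 0, nat_lit 0, nat_lit 0, nat_lit 0, ⟨nat_lit 1000, nat_lit 0, nat_lit 0, nat_lit 0, nat_lit 0, nat_lit 0, nat_lit 0, nat_lit 0, nat_lit 0, nat_lit 0, nat_lit 0, nat_lit 0, nat_lit 0, nat_lit 0, nat_lit 0, nat_lit 0, false, false⟩,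
 nat_lit 17283, nat_lit 0, nat_lit 0, nat_lit 0, nat_lit 9239, nat_lit 8926, nat_lit 0, nat_lit 0, nat_lit 0, nat_lit 7312, nat_lit 0, nat_lit 0, nat_lit 0, nat_lit 0, nat_lit 0, nat_lit 0, nat_lit 0, nat_lit 0, [],
 ⟨p011_k12, nat_lit 0, nat_lit 0, nat_lit 273, nat_lit 0, nat_lit 318933, [nat_lit 4688000000, nat_lit 6250000000], [], [nat_lit 29837798826, nat_lit 29600791683, nat_lit 28887093531, nat_lit 28650435068], nat_lit 1271250, nat_lit 1271250, nat_lit 230001, nat_lit 254650, nat_lit 0, nat_lit 0, [nat_lit 1100000, nat_lit 1442500], [nat_lit 31, nat_lit 40, nat_lit 20, nat_lit 80, nat_lit 3, nat_lit 226, nat_lit 20, nat_lit 9]⟩, ⟨p011_k10, nat_lit 0, nat_lit 0, nat_lit 0, nat_lit 0, nat_lit 330281, [nat_lit 2637500000, nat_lit 5449500000, nat_lit 7089500000], [], [nat_lit 14448813254, nat_lit 14531753818, nat_lit 14254628388, nat_lit 14344894250], nat_lit 1271250, nat_lit 1271250, nat_lit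 230001, nat_lit 254650, nat_lit 0, nat_lit 0, [nat_lit 631250, nat_lit 1271250, nat_lit 1271250], [nat_lit 90, nat_lit 40, nat_lit 20, nat_lit 40]⟩,
 zbF0, []⟩
noncomputable def p011_l14 : Lf2 := ⟨nat_lit 3, nat_lit 1, [nat_lit 19, nat_lit 5, nat_lit 5, nat_lit 20], false, nat_lit 0, nat_lit 0, nat_lit 0, nat_lit 0, zbN0,
 nat_lit 0, nat_lit 0, nat_lit 0, nat_lit 0, nat_lit 0, nat_lit 0, nat_lit 0, nat_lit 0, nat_lit 0, nat_lit 0, nat_lit 0, nat_lit 0, nat_lit 0, nat_lit 0, nat_lit 0, nat_lit 0, nat_lit 0, nat_lit 0, [],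
 C1.Rw.none, ⟨p011_k11, nat_lit 0, nat_lit 0, nat_lit 300, nat_lit 0, nat_lit 330281, [], [], [], nat_lit 1271250, nat_lit 1271250, nat_lit 230001, nat_lit 254650, nat_lit 0, nat_lit 0, [nat_lit 1412500, nat_lit 1271250], [nat_lit 26, nat_lit 40, nat_lit 20, nat_lit 80, nat_lit 2, nat_lit 289, nat_lit 75, nat_lit 10]⟩,
 zbF0, []⟩
noncomputable def p011_l15 : Lf2 := ⟨nat_lit 0, nat_lit 1, [nat_lit 19, nat_lit 5, nat_lit 5, nat_lit 20], false, nat_lit 0, nat_lit 0, nat_lit 0, nat_lit 0, ⟨nat_lit 1000, nat_lit 0, nat_lit 0, nat_lit 0, nat_lit 0, nat_lit 0, nat_lit 0, nat_lit 0, nat_lit 0, nat_lit 0, nat_lit 0, nat_lit 0, nat_lit 0, nat_lit 0, nat_lit 0, nat_lit 0, false, false⟩,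
 nat_lit 26737, nat_lit 0, nat_lit 0, nat_lit 0, nat_lit 14293, nat_lit 13878, nat_lit 4637, nat_lit 0, nat_lit 0, nat_lit 1386, nat_lit 0, nat_lit 0, nat_lit 0, nat_lit 0, nat_lit 0, nat_lit 0, nat_lit 0, nat_lit 0, [],
 ⟨p011_k12, nat_lit 0, nat_lit 0, nat_lit 273, nat_lit 0, nat_lit 322577, [nat_lit 4688000000, nat_lit 6250000000], [], [nat_lit 26323703945, nat_lit 25957047045, nat_lit 24852935378, nat_lit 24486817896], nat_lit 1271250, nat_lit 1271250, nat_lit 230001, nat_lit 254650, nat_lit 0, nat_lit 0, [nat_lit 1100000, nat_lit 1442500], [nat_lit 31, nat_lit 40, nat_lit 20, nat_lit 80, nat_lit 3, nat_lit 226, nat_lit 20, nat_lit 9]⟩, ⟨p011_k13, nat_lit 0, nat_lit 0, nat_lit 301, nat_lit 0, nat_lit 332372, [nat_lit 6250000000, nat_lit 7968000000], [], [nat_lit 19296658143, nat_lit 19204502989, nat_lit 19373713266, nat_lit 19023410897], nat_lit 1271250, nat_lit 1271250, nat_lit 230001, nat_lit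 254650, nat_lit 0, nat_lit 0, [nat_lit 1412500, nat_lit 1271250], [nat_lit 26, nat_lit 40, nat_lit 20, nat_lit 80, nat_lit 2, nat_lit 289, nat_lit 75, nat_lit 10]⟩,
 zbF0, []⟩
noncomputable def p011_l16 : Lf2 := ⟨nat_lit 0, nat_lit 1, [nat_lit 19, nat_lit 5, nat_lit 5, nat_lit 20], false, nat_lit 0, nat_lit 0, nat_lit 0, nat_lit 0, ⟨nat_lit 1000, nat_lit 0, nat_lit 0, nat_lit 0, nat_lit 0, nat_lit 0, nat_lit 0, nat_lit 0, nat_lit 0, nat_lit 0, nat_lit 0, nat_lit 0, nat_lit 0, nat_lit 0, nat_lit 0, nat_lit 0, false, false⟩,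
 nat_lit 26190, nat_lit 0, nat_lit 0, nat_lit 0, nat_lit 14001, nat_lit 13661, nat_lit 4443, nat_lit 0, nat_lit 0, nat_lit 1446, nat_lit 0, nat_lit 0, nat_lit 0, nat_lit 0, nat_lit 0, nat_lit 0, nat_lit 0, nat_lit 0, [],
 ⟨p011_k12, nat_lit 0, nat_lit 0, nat_lit 274, nat_lit 0, nat_lit 326268, [nat_lit 4688000000, nat_lit 6250000000], [], [nat_lit 26521191303, nat_lit 26162025050, nat_lit 25080469921, nat_lit 24721832066], nat_lit 1271250, nat_lit 1271250, nat_lit 230001, nat_lit 254650, nat_lit 0, nat_lit 0, [nat_lit 1100000, nat_lit 1442500], [nat_lit 31, nat_lit 40, nat_lit 20, nat_lit 80, nat_lit 3, nat_lit 226, nat_lit 20, nat_lit 9]⟩, ⟨p011_k14, nat_lit 0, nat_lit 0, nat_lit 302, nat_lit 0, nat_lit 334488, [nat_lit 6250000000, nat_lit 7968000000], [], [nat_lit 19271693919, nat_lit 19181430744, nat_lit 19349586400, nat_lit 19004761449], nat_lit 1271250, nat_lit 1271250, nat_lit 230001, nat_lit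 254650, nat_lit 0, nat_lit 0, [nat_lit 1412500, nat_lit 1271250], [nat_lit 26, nat_lit 40, nat_lit 20, nat_lit 80, nat_lit 2, nat_lit 289, nat_lit 75, nat_lit 10]⟩,
 zbF0, []⟩
noncomputable def p011_l17 : Lf2 := ⟨nat_lit 0, nat_lit 1, [nat_lit 19, nat_lit 5, nat_lit 5, nat_lit 20], false, nat_lit 0, nat_lit 0, nat_lit 0, nat_lit 0, ⟨nat_lit 1000, nat_lit 0, nat_lit 0, nat_lit 0, nat_lit 0, nat_lit 0, nat_lit 0, nat_lit 0, nat_lit 0, nat_lit 0, nat_lit 0, nat_lit 0, nat_lit 0, nat_lit 0, nat_lit 0, nat_lit 0, false, false⟩,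
 nat_lit 16900, nat_lit 0, nat_lit 0, nat_lit 0, nat_lit 8947, nat_lit 8859, nat_lit 0, nat_lit 0, nat_lit 0, nat_lit 6035, nat_lit 0, nat_lit 0, nat_lit 0, nat_lit 0, nat_lit 0, nat_lit 0, nat_lit 0, nat_lit 0, [],
 ⟨p011_k0, nat_lit 0, nat_lit 0, nat_lit 275, nat_lit 0, nat_lit 329144, [nat_lit 4688000000, nat_lit 6250000000], [], [nat_lit 30479769176, nat_lit 30250252680, nat_lit 29558435747, nat_lit 29329256910], nat_lit 1271250, nat_lit 1271250, nat_lit 230001, nat_lit 254650, nat_lit 0, nat_lit 0, [nat_lit 1100000, nat_lit 1442500], [nat_lit 31, nat_lit 40, nat_lit 20, nat_lit 80, nat_lit 3, nat_lit 226, nat_lit 20, nat_lit 9]⟩, ⟨p011_k15, nat_lit 0, nat_lit 0, nat_lit 0, nat_lit 0, nat_lit 332442, [nat_lit 2637500000, nat_lit 5449500000, nat_lit 7089500000], [], [nat_lit 14820091124, nat_lit 14985220698, nat_lit 14627139749, nat_lit 14799087375], nat_lit 1271250, nat_lit 1271250, nat_lit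 230001, nat_lit 254650, nat_lit 0, nat_lit 0, [nat_lit 631250, nat_lit 1271250, nat_lit 1271250], [nat_lit 90, nat_lit 40, nat_lit 20, nat_lit 40]⟩,
 zbF0, []⟩
noncomputable def p011_l18 : Lf2 := ⟨nat_lit 3, nat_lit 1, [nat_lit 19, nat_lit 5, nat_lit 5, nat_lit 20], false, nat_lit 0, nat_lit 0, nat_lit 0, nat_lit 0, zbN0,
 nat_lit 0, nat_lit 0, nat_lit 0, nat_lit 0, nat_lit 0, nat_lit 0, nat_lit 0, nat_lit 0, nat_lit 0, nat_lit 0, nat_lit 0, nat_lit 0, nat_lit 0, nat_lit 0, nat_lit 0, nat_lit 0, nat_lit 0, nat_lit 0, [],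
 C1.Rw.none, ⟨p011_k16, nat_lit 0, nat_lit 0, nat_lit 302, nat_lit 0, nat_lit 332442, [], [], [], nat_lit 1271250, nat_lit 1271250, nat_lit 230001, nat_lit 254650, nat_lit 0, nat_lit 0, [nat_lit 1412500, nat_lit 1271250], [nat_lit 26, nat_lit 40, nat_lit 20, nat_lit 80, nat_lit 2, nat_lit 289, nat_lit 75, nat_lit 10]⟩,
 zbF0, []⟩
noncomputable def p011_l19 : Lf2 := ⟨nat_lit 0, nat_lit 1, [nat_lit 19, nat_lit 5, nat_lit 5, nat_lit 20], false, nat_lit 0, nat_lit 0, nat_lit 0, nat_lit 0, ⟨nat_lit 1000, nat_lit 0, nat_lit 0, nat_lit 0, nat_lit 0, nat_lit 0, nat_lit 0, nat_lit 0, nat_lit 0, nat_lit 0, nat_lit 0, nat_lit 0, nat_lit 0, nat_lit 0, nat_lit 0, nat_lit 0, false, false⟩,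
 nat_lit 16932, nat_lit 0, nat_lit 0, nat_lit 0, nat_lit 9007, nat_lit 8876, nat_lit 0, nat_lit 0, nat_lit 0, nat_lit 6053, nat_lit 0, nat_lit 0, nat_lit 0, nat_lit 0, nat_lit 0, nat_lit 0, nat_lit 0, nat_lit 0, [],
 ⟨p011_k17, nat_lit 0, nat_lit 0, nat_lit 274, nat_lit 0, nat_lit 327677, [nat_lit 4688000000, nat_lit 6250000000], [], [nat_lit 30214201986, nat_lit 29983146316, nat_lit 29287029873, nat_lit 29056314127], nat_lit 1271250, nat_lit 1271250, nat_lit 230001, nat_lit 254650, nat_lit 0, nat_lit 0, [nat_lit 1100000, nat_lit 1442500], [nat_lit 31, nat_lit 40, nat_lit 20, nat_lit 80, nat_lit 3, nat_lit 226, nat_lit 20, nat_lit 9]⟩, ⟨p011_k15, nat_lit 0, nat_lit 0, nat_lit 0, nat_lit 0, nat_lit 332606, [nat_lit 2637500000, nat_lit 5449500000, nat_lit 7089500000], [], [nat_lit 14788653455, nat_lit 14871664691, nat_lit 14595183368, nat_lit 14685547075], nat_lit 1271250, nat_lit 1271250, nat_lit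 230001, nat_lit 254650, nat_lit 0, nat_lit 0, [nat_lit 631250, nat_lit 1271250, nat_lit 1271250], [nat_lit 90, nat_lit 40, nat_lit 20, nat_lit 40]⟩,
 zbF0, []⟩
noncomputable def p011_l20 : Lf2 := ⟨nat_lit 3, nat_lit 1, [nat_lit 19, nat_lit 5, nat_lit 5, nat_lit 20], false, nat_lit 0, nat_lit 0, nat_lit 0, nat_lit 0, zbN0,
 nat_lit 0, nat_lit 0, nat_lit 0, nat_lit 0, nat_lit 0, nat_lit 0, nat_lit 0, nat_lit 0, nat_lit 0, nat_lit 0, nat_lit 0, nat_lit 0, nat_lit 0, nat_lit 0, nat_lit 0, nat_lit 0, nat_lit 0, nat_lit 0, [],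
 C1.Rw.none, ⟨p011_k16, nat_lit 0, nat_lit 0, nat_lit 302, nat_lit 0, nat_lit 332606, [], [], [], nat_lit 1271250, nat_lit 1271250, nat_lit 230001, nat_lit 254650, nat_lit 0, nat_lit 0, [nat_lit 1412500, nat_lit 1271250], [nat_lit 26, nat_lit 40, nat_lit 20, nat_lit 80, nat_lit 2, nat_lit 289, nat_lit 75, nat_lit 10]⟩,
 zbF0, []⟩
noncomputable def p011_l21 : Lf2 := ⟨nat_lit 0, nat_lit 1, [nat_lit 19, nat_lit 5, nat_lit 5, nat_lit 20], false, nat_lit 0, nat_lit 0, nat_lit 0, nat_lit 0, ⟨nat_lit 1000, nat_lit 0, nat_lit 0, nat_lit 0, nat_lit 0, nat_lit 0, nat_lit 0, nat_lit 0, nat_lit 0, nat_lit 0, nat_lit 0, nat_lit 0, nat_lit 0, nat_lit 0, nat_lit 0, nat_lit 0, false, false⟩,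
 nat_lit 16817, nat_lit 0, nat_lit 0, nat_lit 0, nat_lit 8946, nat_lit 8859, nat_lit 0, nat_lit 0, nat_lit 0, nat_lit 5666, nat_lit 0, nat_lit 0, nat_lit 0, nat_lit 0, nat_lit 0, nat_lit 0, nat_lit 0, nat_lit 0, [],
 ⟨p011_k17, nat_lit 0, nat_lit 0, nat_lit 275, nat_lit 0, nat_lit 331408, [nat_lit 4688000000, nat_lit 6250000000], [], [nat_lit 30250853525, nat_lit 30021362682, nat_lit 29329960694, nat_lit 29100807473], nat_lit 1271250, nat_lit 1271250, nat_lit 230001, nat_lit 254650, nat_lit 0, nat_lit 0, [nat_lit 1100000, nat_lit 1442500], [nat_lit 31, nat_lit 40, nat_lit 20, nat_lit 80, nat_lit 3, nat_lit 226, nat_lit 20, nat_lit 9]⟩, ⟨p011_k18, nat_lit 0, nat_lit 0, nat_lit 0, nat_lit 0, nat_lit 334718, [nat_lit 2637500000, nat_lit 5449500000, nat_lit 7089500000], [], [nat_lit 14902280911, nat_lit 14984997076, nat_lit 14709060791, nat_lit 14799087375], nat_lit 1271250, nat_lit 1271250, nat_lit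 230001, nat_lit 254650, nat_lit 0, nat_lit 0, [nat_lit 631250, nat_lit 1271250, nat_lit 1271250], [nat_lit 90, nat_lit 40, nat_lit 20, nat_lit 40]⟩,
 zbF0, []⟩
noncomputable def p011_l22 : Lf2 := ⟨nat_lit 3, nat_lit 1, [nat_lit 19, nat_lit 5, nat_lit 5, nat_lit 20], false, nat_lit 0, nat_lit 0, nat_lit 0, nat_lit 0, zbN0,
 nat_lit 0, nat_lit 0, nat_lit 0, nat_lit 0, nat_lit 0, nat_lit 0, nat_lit 0, nat_lit 0, nat_lit 0, nat_lit 0, nat_lit 0, nat_lit 0, nat_lit 0, nat_lit 0, nat_lit 0, nat_lit 0, nat_lit 0, nat_lit 0, [],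
 C1.Rw.none, ⟨p011_k19, nat_lit 0, nat_lit 0, nat_lit 303, nat_lit 0, nat_lit 334718, [], [], [], nat_lit 1271250, nat_lit 1271250, nat_lit 230001, nat_lit 254650, nat_lit 0, nat_lit 0, [nat_lit 1412500, nat_lit 1271250], [nat_lit 26, nat_lit 40, nat_lit 20, nat_lit 80, nat_lit 2, nat_lit 289, nat_lit 75, nat_lit 10]⟩,
 zbF0, []⟩
noncomputable def p011_l23 : Lf2 := ⟨nat_lit 0, nat_lit 1, [nat_lit 19, nat_lit 5, nat_lit 5, nat_lit 20], false, nat_lit 0, nat_lit 0, nat_lit 0, nat_lit 0, ⟨nat_lit 1000, nat_lit 0, nat_lit 0, nat_lit 0, nat_lit 0, nat_lit 0, nat_lit 0, nat_lit 0, nat_lit 0, nat_lit 0, nat_lit 0, nat_lit 0, nat_lit 0, nat_lit 0, nat_lit 0, nat_lit 0, false, false⟩,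
 nat_lit 25460, nat_lit 0, nat_lit 0, nat_lit 0, nat_lit 13611, nat_lit 13346, nat_lit 4186, nat_lit 0, nat_lit 0, nat_lit 1531, nat_lit 0, nat_lit 0, nat_lit 0, nat_lit 0, nat_lit 0, nat_lit 0, nat_lit 0, nat_lit 0, [],
 ⟨p011_k12, nat_lit 0, nat_lit 0, nat_lit 274, nat_lit 0, nat_lit 333648, [nat_lit 4688000000, nat_lit 6250000000], [], [nat_lit 26784800445, nat_lit 26435638823, nat_lit 25384210578, nat_lit 25035562635], nat_lit 1271250, nat_lit 1271250, nat_lit 230001, nat_lit 254650, nat_lit 0, nat_lit 0, [nat_lit 1100000, nat_lit 1442500], [nat_lit 31, nat_lit 40, nat_lit 20, nat_lit 80, nat_lit 3, nat_lit 226, nat_lit 20, nat_lit 9]⟩, ⟨p011_k16, nat_lit 0, nat_lit 0, nat_lit 305, nat_lit 0, nat_lit 340345, [nat_lit 6250000000, nat_lit 7968000000], [], [nat_lit 19407334243, nat_lit 19234160838, nat_lit 19486193110, nat_lit 18812445391], nat_lit 1271250, nat_lit 1271250, nat_lit 230001, nat_lit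 254650, nat_lit 0, nat_lit 0, [nat_lit 1412500, nat_lit 1271250], [nat_lit 26, nat_lit 40, nat_lit 20, nat_lit 80, nat_lit 2, nat_lit 289, nat_lit 75, nat_lit 10]⟩,
 zbF0, []⟩
noncomputable def p011_l24 : Lf2 := ⟨nat_lit 0, nat_lit 1, [nat_lit 19, nat_lit 5, nat_lit 5, nat_lit 20], false, nat_lit 0, nat_lit 0, nat_lit 0, nat_lit 0, ⟨nat_lit 1000, nat_lit 0, nat_lit 0, nat_lit 0, nat_lit 0, nat_lit 0, nat_lit 0, nat_lit 0, nat_lit 0, nat_lit 0, nat_lit 0, nat_lit 0, nat_lit 0, nat_lit 0, nat_lit 0, nat_lit 0, false, false⟩,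
 nat_lit 26999, nat_lit 0, nat_lit 0, nat_lit 0, nat_lit 14293, nat_lit 13944, nat_lit 0, nat_lit 0, nat_lit 0, nat_lit 1424, nat_lit 0, nat_lit 0, nat_lit 0, nat_lit 0, nat_lit 0, nat_lit 0, nat_lit 0, nat_lit 0, [],
 ⟨p011_k0, nat_lit 0, nat_lit 0, nat_lit 274, nat_lit 0, nat_lit 336968, [nat_lit 4688000000, nat_lit 6250000000], [], [nat_lit 25932945342, nat_lit 24834592896, nat_lit 24461097940, nat_lit 23364363748], nat_lit 1271250, nat_lit 1271250, nat_lit 254650, nat_lit 279600, nat_lit 0, nat_lit 0, [nat_lit 1100000, nat_lit 1442500], [nat_lit 31, nat_lit 40, nat_lit 20, nat_lit 80, nat_lit 3, nat_lit 226, nat_lit 20, nat_lit 9]⟩, ⟨p011_k11, nat_lit 0, nat_lit 0, nat_lit 304, nat_lit 0, nat_lit 345519, [nat_lit 6250000000, nat_lit 7968000000], [], [nat_lit 19628142069, nat_lit 19136605786, nat_lit 19722576418, nat_lit 18679979540], nat_lit 1271250, nat_lit 1271250, nat_lit 254650, nat_lit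 279600, nat_lit 0, nat_lit 0, [nat_lit 1412500, nat_lit 1271250], [nat_lit 26, nat_lit 40, nat_lit 20, nat_lit 80, nat_lit 2, nat_lit 289, nat_lit 75, nat_lit 10]⟩,
 zbF0, []⟩
noncomputable def p011_l25 : Lf2 := ⟨nat_lit 0, nat_lit 1, [nat_lit 19, nat_lit 5, nat_lit 5, nat_lit 20], false, nat_lit 0, nat_lit 0, nat_lit 0, nat_lit 0, ⟨nat_lit 1000, nat_lit 0, nat_lit 0, nat_lit 0, nat_lit 0, nat_lit 0, nat_lit 0, nat_lit 0, nat_lit 0, nat_lit 0, nat_lit 0, nat_lit 0, nat_lit 0, nat_lit 0, nat_lit 0, nat_lit 0, false, false⟩,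
 nat_lit 26430, nat_lit 0, nat_lit 0, nat_lit 0, nat_lit 14198, nat_lit 13650, nat_lit 4486, nat_lit 0, nat_lit 0, nat_lit 1465, nat_lit 0, nat_lit 0, nat_lit 0, nat_lit 0, nat_lit 0, nat_lit 0, nat_lit 0, nat_lit 0, [],
 ⟨p011_k3, nat_lit 0, nat_lit 0, nat_lit 274, nat_lit 0, nat_lit 339718, [nat_lit 4688000000, nat_lit 6250000000], [], [nat_lit 25862101362, nat_lit 25133661613, nat_lit 22941187144, nat_lit 22214890726], nat_lit 1271250, nat_lit 1271250, nat_lit 230001, nat_lit 279600, nat_lit 0, nat_lit 0, [nat_lit 1100000, nat_lit 1442500], [nat_lit 31, nat_lit 40, nat_lit 20, nat_lit 80, nat_lit 3, nat_lit 226, nat_lit 20, nat_lit 9]⟩, ⟨p011_k11, nat_lit 0, nat_lit 0, nat_lit 311, nat_lit 0, nat_lit 353542, [nat_lit 6250000000, nat_lit 7968000000], [], [nat_lit 19978306350, nat_lit 19522329200, nat_lit 20149762710, nat_lit 18631565121], nat_lit 1271250, nat_lit 1271250, nat_lit 230001, nat_lit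 279600, nat_lit 0, nat_lit 0, [nat_lit 1412500, nat_lit 1271250], [nat_lit 26, nat_lit 40, nat_lit 20, nat_lit 80, nat_lit 2, nat_lit 289, nat_lit 75, nat_lit 10]⟩,
 zbF0, []⟩
noncomputable def p011_l26 : Lf2 := ⟨nat_lit 0, nat_lit 1, [nat_lit 19, nat_lit 5, nat_lit 5, nat_lit 20], false, nat_lit 0, nat_lit 0, nat_lit 0, nat_lit 0, ⟨nat_lit 1000, nat_lit 0, nat_lit 0, nat_lit 0, nat_lit 0, nat_lit 0, nat_lit 0, nat_lit 0, nat_lit 0, nat_lit 0, nat_lit 0, nat_lit 0, nat_lit 0, nat_lit 0, nat_lit 0, nat_lit 0, false, false⟩,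
 nat_lit 26434, nat_lit 0, nat_lit 0, nat_lit 0, nat_lit 14338, nat_lit 13652, nat_lit 4484, nat_lit 0, nat_lit 0, nat_lit 1464, nat_lit 0, nat_lit 0, nat_lit 0, nat_lit 0, nat_lit 0, nat_lit 0, nat_lit 0, nat_lit 0, [],
 ⟨p011_k9, nat_lit 0, nat_lit 0, nat_lit 275, nat_lit 0, nat_lit 356129, [nat_lit 4688000000, nat_lit 6250000000], [], [nat_lit 24629040203, nat_lit 22789983802, nat_lit 21681488648, nat_lit 21192841871], nat_lit 1271250, nat_lit 1271250, nat_lit 230001, nat_lit 279600, nat_lit 0, nat_lit 0, [nat_lit 1100000, nat_lit 1442500], [nat_lit 31, nat_lit 40, nat_lit 20, nat_lit 80, nat_lit 3, nat_lit 226, nat_lit 20, nat_lit 9]⟩, ⟨p011_k11, nat_lit 0, nat_lit 0, nat_lit 320, nat_lit 0, nat_lit 374270, [nat_lit 6250000000, nat_lit 7968000000], [], [nat_lit 19975404268, nat_lit 19523821056, nat_lit 20146856681, nat_lit 18632903994], nat_lit 1271250, nat_lit 1271250, nat_lit 230001, nat_lit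 279600, nat_lit 0, nat_lit 0, [nat_lit 1412500, nat_lit 1271250], [nat_lit 26, nat_lit 40, nat_lit 20, nat_lit 80, nat_lit 2, nat_lit 289, nat_lit 75, nat_lit 10]⟩,
 zbF0, []⟩
noncomputable def p011_l27 : Lf2 := ⟨nat_lit 0, nat_lit 2, [nat_lit 10, nat_lit 5, nat_lit 5, nat_lit 20], false, nat_lit 0, nat_lit 0, nat_lit 0, nat_lit 0, ⟨nat_lit 1000, nat_lit 0, nat_lit 0, nat_lit 0, nat_lit 0, nat_lit 0, nat_lit 0, nat_lit 0, nat_lit 0, nat_lit 0, nat_lit 0, nat_lit 0, nat_lit 0, nat_lit 0, nat_lit 0, nat_lit 0, false, false⟩,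
 nat_lit 29868, nat_lit 0, nat_lit 0, nat_lit 0, nat_lit 15812, nat_lit 15042, nat_lit 0, nat_lit 0, nat_lit 0, nat_lit 972, nat_lit 0, nat_lit 0, nat_lit 0, nat_lit 0, nat_lit 0, nat_lit 0, nat_lit 0, nat_lit 0, [],
 ⟨p011_k20, nat_lit 0, nat_lit 0, nat_lit 293, nat_lit 0, nat_lit 301358, [nat_lit 4688000000, nat_lit 6250000000, nat_lit 7968000000], [], [nat_lit 26531076096, nat_lit 24166753376, nat_lit 23274537773, nat_lit 22632056650], nat_lit 1271250, nat_lit 1271250, nat_lit 230001, nat_lit 279600, nat_lit 0, nat_lit 0, [nat_lit 1100000, nat_lit 1442500, nat_lit 1271250], [nat_lit 9, nat_lit 40, nat_lit 20, nat_lit 80, nat_lit 2, nat_lit 226, nat_lit 20, nat_lit 8]⟩, ⟨p011_k21, nat_lit 0, nat_lit 0, nat_lit 293, nat_lit 0, nat_lit 317201, [nat_lit 6250000000, nat_lit 7968000000], [], [nat_lit 19859630700, nat_lit 19516377837, nat_lit 20022828420, nat_lit 18885431201], nat_lit 1271250, nat_lit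 1271250, nat_lit 230001, nat_lit 279600, nat_lit 0, nat_lit 0, [nat_lit 1412500, nat_lit 1271250], [nat_lit 26, nat_lit 40, nat_lit 20, nat_lit 80, nat_lit 2, nat_lit 289, nat_lit 75, nat_lit 10]⟩,
 zbF0, []⟩
noncomputable def p011_l28 : Lf2 := ⟨nat_lit 0, nat_lit 2, [nat_lit 10, nat_lit 5, nat_lit 5, nat_lit 20], false, nat_lit 0, nat_lit 0, nat_lit 0, nat_lit 0, ⟨nat_lit 1000, nat_lit 0, nat_lit 0, nat_lit 0, nat_lit 0, nat_lit 0, nat_lit 0, nat_lit 0, nat_lit 0, nat_lit 0, nat_lit 0, nat_lit 0, nat_lit 0, nat_lit 0, nat_lit 0, nat_lit 0, false, false⟩,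
 nat_lit 28244, nat_lit 0, nat_lit 0, nat_lit 0, nat_lit 14952, nat_lit 14442, nat_lit 0, nat_lit 0, nat_lit 0, nat_lit 1206, nat_lit 0, nat_lit 0, nat_lit 0, nat_lit 0, nat_lit 0, nat_lit 0, nat_lit 0, nat_lit 0, [],
 ⟨p011_k20, nat_lit 0, nat_lit 0, nat_lit 296, nat_lit 0, nat_lit 308413, [nat_lit 4688000000, nat_lit 6250000000, nat_lit 7968000000], [], [nat_lit 27025741216, nat_lit 23359326352, nat_lit 23946322989, nat_lit 22358353476], nat_lit 1271250, nat_lit 1271250, nat_lit 230001, nat_lit 279600, nat_lit 0, nat_lit 0, [nat_lit 1100000, nat_lit 1442500, nat_lit 1271250], [nat_lit 9, nat_lit 40, nat_lit 20, nat_lit 80, nat_lit 2, nat_lit 226, nat_lit 20, nat_lit 8]⟩, ⟨p011_k22, nat_lit 0, nat_lit 0, nat_lit 295, nat_lit 0, nat_lit 319612, [nat_lit 6250000000, nat_lit 7968000000], [], [nat_lit 19559217407, nat_lit 19355488562, nat_lit 19726994057, nat_lit 18998975147], nat_lit 1271250, nat_lit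 1271250, nat_lit 230001, nat_lit 279600, nat_lit 0, nat_lit 0, [nat_lit 1412500, nat_lit 1271250], [nat_lit 26, nat_lit 40, nat_lit 20, nat_lit 80, nat_lit 2, nat_lit 289, nat_lit 75, nat_lit 10]⟩,
 zbF0, []⟩
noncomputable def p011_l29 : Lf2 := ⟨nat_lit 0, nat_lit 2, [nat_lit 10, nat_lit 5, nat_lit 5, nat_lit 20], false, nat_lit 0, nat_lit 0, nat_lit 0, nat_lit 0, ⟨nat_lit 1000, nat_lit 0, nat_lit 0, nat_lit 0, nat_lit 0, nat_lit 0, nat_lit 0, nat_lit 0, nat_lit 0, nat_lit 0, nat_lit 0, nat_lit 0, nat_lit 0, nat_lit 0, nat_lit 0, nat_lit 0, false, false⟩,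
 nat_lit 26403, nat_lit 0, nat_lit 0, nat_lit 0, nat_lit 13977, nat_lit 13636, nat_lit 0, nat_lit 0, nat_lit 0, nat_lit 1474, nat_lit 0, nat_lit 0, nat_lit 0, nat_lit 0, nat_lit 0, nat_lit 0, nat_lit 0, nat_lit 0, [],
 ⟨p011_k20, nat_lit 0, nat_lit 0, nat_lit 304, nat_lit 0, nat_lit 326779, [nat_lit 4688000000, nat_lit 6250000000, nat_lit 7968000000], [], [nat_lit 27586553416, nat_lit 24001047583, nat_lit 24707939949, nat_lit 22300728441], nat_lit 1271250, nat_lit 1271250, nat_lit 230001, nat_lit 279600, nat_lit 0, nat_lit 0, [nat_lit 1100000, nat_lit 1442500, nat_lit 1271250], [nat_lit 9, nat_lit 40, nat_lit 20, nat_lit 80, nat_lit 2, nat_lit 226, nat_lit 20, nat_lit 8]⟩, ⟨p011_k23, nat_lit 0, nat_lit 0, nat_lit 303, nat_lit 0, nat_lit 335181, [nat_lit 6250000000, nat_lit 7968000000], [], [nat_lit 19998620924, nat_lit 19509086208, nat_lit 20170104915, nat_lit 18619393005], nat_lit 1271250, nat_lit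 1271250, nat_lit 230001, nat_lit 279600, nat_lit 0, nat_lit 0, [nat_lit 1412500, nat_lit 1271250], [nat_lit 26, nat_lit 40, nat_lit 20, nat_lit 80, nat_lit 2, nat_lit 289, nat_lit 75, nat_lit 10]⟩,
 zbF0, []⟩
noncomputable def p011_l30 : Lf2 := ⟨nat_lit 0, nat_lit 4, [nat_lit 38, nat_lit 5, nat_lit 5, nat_lit 20], true, nat_lit 0, nat_lit 0, nat_lit 0, nat_lit 0, ⟨nat_lit 0, nat_lit 0, nat_lit 1000, nat_lit 5, nat_lit 87, nat_lit 0, nat_lit 0, nat_lit 0, nat_lit 0, nat_lit 215, nat_lit 72600, nat_lit 281, nat_lit 63949755, nat_lit 0, nat_lit 0, nat_lit 925614, false, false⟩,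
 nat_lit 0, nat_lit 10115, nat_lit 0, nat_lit 0, nat_lit 5354, nat_lit 0, nat_lit 0, nat_lit 0, nat_lit 0, nat_lit 0, nat_lit 0, nat_lit 0, nat_lit 0, nat_lit 0, nat_lit 80, nat_lit 1000000, nat_lit 0, nat_lit 0, [(nat_lit 6, [(nat_lit 6, nat_lit 1000)])],
 ⟨p011_k24, nat_lit 0, nat_lit 0, nat_lit 281, nat_lit 0, nat_lit 277268, [nat_lit 2257066667, nat_lit 1408000000, nat_lit 211200000], [], [nat_lit 12178551051, nat_lit 12253998308, nat_lit 12352648458, nat_lit 11833357164], nat_lit 1271250, nat_lit 1271250, nat_lit 230001, nat_lit 279600, nat_lit 0, nat_lit 0, [nat_lit 1100000, nat_lit 1442500, nat_lit 1271250], [nat_lit 9, nat_lit 40, nat_lit 20, nat_lit 80, nat_lit 2, nat_lit 226, nat_lit 20, nat_lit 8]⟩, C1.Rw.none,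
 ⟨nat_lit 6224, nat_lit 6325, ⟨.ofNat (nat_lit 202993), .ofNat (nat_lit 219446), .ofNat (nat_lit 213677), .ofNat (nat_lit 230130), .ofNat (nat_lit 206763), .ofNat (nat_lit 223026), .ofNat (nat_lit 217441), .ofNat (nat_lit 233705)⟩, ⟨.ofNat (nat_lit 0), .ofNat (nat_lit 0), .ofNat (nat_lit 0), .ofNat (nat_lit 0), .ofNat (nat_lit 0), .ofNat (nat_lit 0), .ofNat (nat_lit 0), .ofNat (nat_lit 0)⟩⟩, []⟩
noncomputable def p011_l31 : Lf2 := ⟨nat_lit 0, nat_lit 4, [nat_lit 38, nat_lit 5, nat_lit 5, nat_lit 20], true, nat_lit 0, nat_lit 0, nat_lit 0, nat_lit 0, ⟨nat_lit 0, nat_lit 0, nat_lit 1000, nat_lit 5, nat_lit 89, nat_lit 0, nat_lit 0, nat_lit 0, nat_lit 0, nat_lit 215, nat_lit 74817, nat_lit 282, nat_lit 63851623, nat_lit 0, nat_lit 0, nat_lit 947776, false, false⟩,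
 nat_lit 0, nat_lit 9052, nat_lit 0, nat_lit 0, nat_lit 4910, nat_lit 0, nat_lit 0, nat_lit 0, nat_lit 0, nat_lit 0, nat_lit 0, nat_lit 0, nat_lit 0, nat_lit 0, nat_lit 80, nat_lit 1000000, nat_lit 0, nat_lit 0, [(nat_lit 6, [(nat_lit 6, nat_lit 1000)])],
 ⟨p011_k25, nat_lit 0, nat_lit 0, nat_lit 289, nat_lit 0, nat_lit 291225, [nat_lit 2257066667, nat_lit 1408000000, nat_lit 211200000], [], [nat_lit 12257850217, nat_lit 12362634680, nat_lit 12435761697, nat_lit 12088045167], nat_lit 1271250, nat_lit 1271250, nat_lit 230001, nat_lit 279600, nat_lit 0, nat_lit 0, [nat_lit 1100000, nat_lit 1442500, nat_lit 1271250], [nat_lit 9, nat_lit 40, nat_lit 20, nat_lit 80, nat_lit 2, nat_lit 226, nat_lit 20, nat_lit 8]⟩, C1.Rw.none,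
 ⟨nat_lit 6123, nat_lit 6225, ⟨.ofNat (nat_lit 206763), .ofNat (nat_lit 223026), .ofNat (nat_lit 217441), .ofNat (nat_lit 233705), .ofNat (nat_lit 210498), .ofNat (nat_lit 226574), .ofNat (nat_lit 221172), .ofNat (nat_lit 237248)⟩, ⟨.ofNat (nat_lit 0), .ofNat (nat_lit 0), .ofNat (nat_lit 0), .ofNat (nat_lit 0), .ofNat (nat_lit 0), .ofNat (nat_lit 0), .ofNat (nat_lit 0), .ofNat (nat_lit 0)⟩⟩, []⟩
noncomputable def p011_l32 : Lf2 := ⟨nat_lit 0, nat_lit 5, [nat_lit 4, nat_lit 5, nat_lit 5, nat_lit 20], false, nat_lit 0, nat_lit 0, nat_lit 0, nat_lit 0, ⟨nat_lit 618, nat_lit 0, nat_lit 382, nat_lit 5, nat_lit 88, nat_lit 0, nat_lit 0, nat_lit 0, nat_lit 0, nat_lit 215, nat_lit 72600, nat_lit 281, nat_lit 63901077, nat_lit 0, nat_lit 0, nat_lit 936638, false, false⟩,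
 nat_lit 14334, nat_lit 0, nat_lit 0, nat_lit 0, nat_lit 7588, nat_lit 7219, nat_lit 1298, nat_lit 0, nat_lit 0, nat_lit 1278, nat_lit 0, nat_lit 0, nat_lit 0, nat_lit 0, nat_lit 0, nat_lit 382000, nat_lit 0, nat_lit 0, [(nat_lit 6, [(nat_lit 6, nat_lit 382)])],
 ⟨p011_k26, nat_lit 0, nat_lit 0, nat_lit 338, nat_lit 0, nat_lit 234127, [nat_lit 3270423467, nat_lit 3901616800, nat_lit 4512794400], [], [nat_lit 19137678315, nat_lit 18870110124, nat_lit 19301636936, nat_lit 18517182844], nat_lit 1271250, nat_lit 1271250, nat_lit 230001, nat_lit 279600, nat_lit 0, nat_lit 0, [nat_lit 1100000, nat_lit 1442500, nat_lit 1271250], [nat_lit 11, nat_lit 40, nat_lit 20, nat_lit 80, nat_lit 1, nat_lit 289, nat_lit 75, nat_lit 9]⟩, ⟨p011_k27, nat_lit 0, nat_lit 0, nat_lit 353, nat_lit 0, nat_lit 246891, [nat_lit 3862500000, nat_lit 4924224000, nat_lit 6082356000], [], [nat_lit 15024491538, nat_lit 14369481760,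 nat_lit 15130207806, nat_lit 13977110175], nat_lit 1271250, nat_lit 1271250, nat_lit 230001, nat_lit 279600, nat_lit 0, nat_lit 0, [nat_lit 1412500, nat_lit 1271250, nat_lit 1271250], [nat_lit 25, nat_lit 40, nat_lit 20, nat_lit 80, nat_lit 17, nat_lit 289, nat_lit 75, nat_lit 9]⟩,
 ⟨nat_lit 6123, nat_lit 6325, ⟨.ofNat (nat_lit 202993), .ofNat (nat_lit 219446), .ofNat (nat_lit 213677), .ofNat (nat_lit 230130), .ofNat (nat_lit 210498), .ofNat (nat_lit 226574), .ofNat (nat_lit 221172), .ofNat (nat_lit 237248)⟩, ⟨.ofNat (nat_lit 0), .ofNat (nat_lit 0), .ofNat (nat_lit 0), .ofNat (nat_lit 0), .ofNat (nat_lit 0), .ofNat (nat_lit 0), .ofNat (nat_lit 0), .ofNat (nat_lit 0)⟩⟩, []⟩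
noncomputable def p011_l33 : Lf2 := ⟨nat_lit 0, nat_lit 2, [nat_lit 10, nat_lit 5, nat_lit 5, nat_lit 20], false, nat_lit 0, nat_lit 0, nat_lit 0, nat_lit 0, ⟨nat_lit 689, nat_lit 0, nat_lit 311, nat_lit 5, nat_lit 91, nat_lit 0, nat_lit 0, nat_lit 0, nat_lit 0, nat_lit 215, nat_lit 77067, nat_lit 283, nat_lit 63703879, nat_lit 0, nat_lit 0, nat_lit 980693, false, false⟩,
 nat_lit 19243, nat_lit 0, nat_lit 0, nat_lit 0, nat_lit 10690, nat_lit 9691, nat_lit 2793, nat_lit 0, nat_lit 0, nat_lit 961, nat_lit 0, nat_lit 0, nat_lit 0, nat_lit 0, nat_lit 0, nat_lit 311000, nat_lit 0, nat_lit 0, [(nat_lit 6, [(nat_lit 6, nat_lit 311)])],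
 ⟨p011_k28, nat_lit 0, nat_lit 0, nat_lit 363, nat_lit 0, nat_lit 395309, [nat_lit 3533899734, nat_lit 4246538001, nat_lit 4931644199], [], [nat_lit 21271139479, nat_lit 20523723600, nat_lit 19077564308, nat_lit 19527730176], nat_lit 1271250, nat_lit 1271250, nat_lit 230001, nat_lit 279600, nat_lit 0, nat_lit 0, [nat_lit 1100000, nat_lit 1442500, nat_lit 1271250], [nat_lit 9, nat_lit 40, nat_lit 20, nat_lit 80, nat_lit 2, nat_lit 226, nat_lit 20, nat_lit 8]⟩, ⟨p011_k21, nat_lit 0, nat_lit 0, nat_lit 375, nat_lit 0, nat_lit 437182, [nat_lit 4306250000, nat_lit 5489952000], [], [nat_lit 14574692874, nat_lit 13726969241, nat_lit 14688710778, nat_lit 13091344834], nat_lit 1271250, nat_lit 1271250, nat_lit 230001, nat_lit 279600, nat_lit 0, nat_lit 0, [nat_lit 1412500, nat_lit 1271250], [nat_lit 26, nat_lit 40, nat_lit 20, nat_lit 80, nat_lit 2, nat_lit 289, nat_lit 75, nat_lit 10]⟩,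
 ⟨nat_lit 5916, nat_lit 6124, ⟨.ofNat (nat_lit 210498), .ofNat (nat_lit 226574), .ofNat (nat_lit 221172), .ofNat (nat_lit 237248), .ofNat (nat_lit 217873), .ofNat (nat_lit 233580), .ofNat (nat_lit 228543), .ofNat (nat_lit 244249)⟩, ⟨.ofNat (nat_lit 0), .ofNat (nat_lit 0), .ofNat (nat_lit 0), .ofNat (nat_lit 0), .ofNat (nat_lit 0), .ofNat (nat_lit 0), .ofNat (nat_lit 0), .ofNat (nat_lit 0)⟩⟩, []⟩
noncomputable def p011_l34 : Lf2 := ⟨nat_lit 0, nat_lit 5, [nat_lit 4, nat_lit 5, nat_lit 5, nat_lit 20], true, nat_lit 0, nat_lit 0, nat_lit 0, nat_lit 0, ⟨nat_lit 0, nat_lit 0, nat_lit 1000, nat_lit 5, nat_lit 91, nat_lit 0, nat_lit 0, nat_lit 0, nat_lit 0, nat_lit 215, nat_lit 77067, nat_lit 283, nat_lit 63703879, nat_lit 0, nat_lit 0, nat_lit 980693, false, false⟩,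
 nat_lit 0, nat_lit 7853, nat_lit 0, nat_lit 0, nat_lit 4362, nat_lit 0, nat_lit 98, nat_lit 0, nat_lit 0, nat_lit 0, nat_lit 0, nat_lit 0, nat_lit 0, nat_lit 0, nat_lit 80, nat_lit 1000000, nat_lit 0, nat_lit 0, [(nat_lit 6, [(nat_lit 6, nat_lit 1000)])],
 ⟨p011_k29, nat_lit 0, nat_lit 0, nat_lit 312, nat_lit 0, nat_lit 335024, [nat_lit 2257066667, nat_lit 1408000000, nat_lit 211200000], [], [nat_lit 12558759535, nat_lit 12814365588, nat_lit 12740555508, nat_lit 12660854447], nat_lit 1271250, nat_lit 1271250, nat_lit 230001, nat_lit 279600, nat_lit 0, nat_lit 0, [nat_lit 1100000, nat_lit 1442500, nat_lit 1271250], [nat_lit 9, nat_lit 40, nat_lit 20, nat_lit 80, nat_lit 2, nat_lit 226, nat_lit 20, nat_lit 8]⟩, C1.Rw.none,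
 ⟨nat_lit 5916, nat_lit 6124, ⟨.ofNat (nat_lit 210498), .ofNat (nat_lit 226574), .ofNat (nat_lit 221172), .ofNat (nat_lit 237248), .ofNat (nat_lit 217873), .ofNat (nat_lit 233580), .ofNat (nat_lit 228543), .ofNat (nat_lit 244249)⟩, ⟨.ofNat (nat_lit 0), .ofNat (nat_lit 0), .ofNat (nat_lit 0), .ofNat (nat_lit 0), .ofNat (nat_lit 0), .ofNat (nat_lit 0), .ofNat (nat_lit 0), .ofNat (nat_lit 0)⟩⟩, []⟩
noncomputable def p011_l35 : Lf2 := ⟨nat_lit 0, nat_lit 5, [nat_lit 4, nat_lit 5, nat_lit 5, nat_lit 20], false, nat_lit 0, nat_lit 0, nat_lit 0, nat_lit 0, ⟨nat_lit 892, nat_lit 0, nat_lit 108, nat_lit 5, nat_lit 96, nat_lit 0, nat_lit 0, nat_lit 0, nat_lit 0, nat_lit 215, nat_lit 86400, nat_lit 287, nat_lit 63384119, nat_lit 0, nat_lit 0, nat_lit 1050182, false, false⟩,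
 nat_lit 26026, nat_lit 0, nat_lit 0, nat_lit 0, nat_lit 13778, nat_lit 13107, nat_lit 1704, nat_lit 0, nat_lit 0, nat_lit 3225, nat_lit 0, nat_lit 0, nat_lit 0, nat_lit 0, nat_lit 0, nat_lit 108000, nat_lit 0, nat_lit 0, [(nat_lit 6, [(nat_lit 6, nat_lit 108)])],
 ⟨p011_k26, nat_lit 0, nat_lit 0, nat_lit 431, nat_lit 0, nat_lit 371315, [nat_lit 4287219200, nat_lit 5586059200, nat_lit 8335313600], [], [nat_lit 23397885524, nat_lit 22739902839, nat_lit 20634813760, nat_lit 21323619018], nat_lit 1271250, nat_lit 1271250, nat_lit 279600, nat_lit 356250, nat_lit 0, nat_lit 0, [nat_lit 1100000, nat_lit 1442500, nat_lit 1271250], [nat_lit 11, nat_lit 40, nat_lit 20, nat_lit 80, nat_lit 1, nat_lit 317, nat_lit 100, nat_lit 10]⟩, ⟨p011_k27, nat_lit 0, nat_lit 0, nat_lit 441, nat_lit 0, nat_lit 391558, [nat_lit 5575000000, nat_lit 7107456000, nat_lit 8779064000], [], [nat_lit 18272345574, nat_lit 17040163653,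 nat_lit 18617868846, nat_lit 15685493466], nat_lit 1271250, nat_lit 1271250, nat_lit 279600, nat_lit 356250, nat_lit 0, nat_lit 0, [nat_lit 1412500, nat_lit 1271250, nat_lit 1271250], [nat_lit 25, nat_lit 40, nat_lit 20, nat_lit 80, nat_lit 17, nat_lit 289, nat_lit 75, nat_lit 9]⟩,
 ⟨nat_lit 6224, nat_lit 6325, ⟨.ofNat (nat_lit 219446), .ofNat (nat_lit 244125), .ofNat (nat_lit 230130), .ofNat (nat_lit 254809), .ofNat (nat_lit 223026), .ofNat (nat_lit 247422), .ofNat (nat_lit 233705), .ofNat (nat_lit 258100)⟩, ⟨.ofNat (nat_lit 0), .ofNat (nat_lit 0), .ofNat (nat_lit 0), .ofNat (nat_lit 0), .ofNat (nat_lit 0), .ofNat (nat_lit 0), .ofNat (nat_lit 0), .ofNat (nat_lit 0)⟩⟩, []⟩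
noncomputable def p011_l36 : Lf2 := ⟨nat_lit 0, nat_lit 5, [nat_lit 4, nat_lit 5, nat_lit 5, nat_lit 20], false, nat_lit 0, nat_lit 0, nat_lit 0, nat_lit 0, ⟨nat_lit 1000, nat_lit 0, nat_lit 0, nat_lit 0, nat_lit 0, nat_lit 0, nat_lit 0, nat_lit 0, nat_lit 0, nat_lit 0, nat_lit 0, nat_lit 0, nat_lit 0, nat_lit 0, nat_lit 0, nat_lit 0, false, false⟩,
 nat_lit 25532, nat_lit 0, nat_lit 0, nat_lit 0, nat_lit 13849, nat_lit 12858, nat_lit 2518, nat_lit 0, nat_lit 0, nat_lit 2389, nat_lit 0, nat_lit 0, nat_lit 0, nat_lit 0, nat_lit 0, nat_lit 0, nat_lit 0, nat_lit 0, [],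
 ⟨p011_k30, nat_lit 0, nat_lit 0, nat_lit 436, nat_lit 0, nat_lit 383072, [nat_lit 4688000000, nat_lit 6250000000, nat_lit 9842000000], [], [nat_lit 22525349388, nat_lit 21866730315, nat_lit 19744521469, nat_lit 20435965158], nat_lit 1271250, nat_lit 1271250, nat_lit 279600, nat_lit 356250, nat_lit 0, nat_lit 0, [nat_lit 1100000, nat_lit 1442500, nat_lit 1271250], [nat_lit 11, nat_lit 40, nat_lit 20, nat_lit 80, nat_lit 1, nat_lit 317, nat_lit 100, nat_lit 10]⟩, ⟨p011_k27, nat_lit 0, nat_lit 0, nat_lit 451, nat_lit 0, nat_lit 414514, [nat_lit 6250000000, nat_lit 7968000000, nat_lit 9842000000], [], [nat_lit 22920974580, nat_lit 21958063251, nat_lit 23298242148, nat_lit 20656714010], nat_lit 1271250, nat_lit 1271250, nat_lit 279600, nat_lit 356250, nat_lit 0, nat_lit 0, [nat_lit 1412500, nat_lit 1271250, nat_lit 1271250], [nat_lit 25, nat_lit 40, nat_lit 20, nat_lit 80, nat_lit 17, nat_lit 289,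 nat_lit 75, nat_lit 9]⟩,
 zbF0, []⟩
noncomputable def p011_l37 : Lf2 := ⟨nat_lit 0, nat_lit 5, [nat_lit 4, nat_lit 5, nat_lit 5, nat_lit 20], false, nat_lit 0, nat_lit 0, nat_lit 0, nat_lit 0, ⟨nat_lit 626, nat_lit 0, nat_lit 374, nat_lit 5, nat_lit 99, nat_lit 0, nat_lit 0, nat_lit 0, nat_lit 0, nat_lit 215, nat_lit 91267, nat_lit 289, nat_lit 63137690, nat_lit 0, nat_lit 0, nat_lit 1102202, false, false⟩,
 nat_lit 18166, nat_lit 0, nat_lit 0, nat_lit 0, nat_lit 10092, nat_lit 9149, nat_lit 831, nat_lit 0, nat_lit 0, nat_lit 2270, nat_lit 0, nat_lit 0, nat_lit 0, nat_lit 0, nat_lit 0, nat_lit 374000, nat_lit 0, nat_lit 0, [(nat_lit 6, [(nat_lit 6, nat_lit 374)])],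
 ⟨p011_k29, nat_lit 0, nat_lit 0, nat_lit 366, nat_lit 0, nat_lit 416976, [nat_lit 3300110934, nat_lit 3840692000, nat_lit 4324462800], [], [nat_lit 19633543747, nat_lit 18862951277, nat_lit 16527244312, nat_lit 17464733472], nat_lit 1271250, nat_lit 1271250, nat_lit 279600, nat_lit 356250, nat_lit 0, nat_lit 0, [nat_lit 1100000, nat_lit 1442500, nat_lit 1271250], [nat_lit 9, nat_lit 40, nat_lit 20, nat_lit 80, nat_lit 2, nat_lit 226, nat_lit 20, nat_lit 8]⟩, ⟨p011_k27, nat_lit 0, nat_lit 0, nat_lit 472, nat_lit 0, nat_lit 462781, [nat_lit 3912500000, nat_lit 4987968000, nat_lit 6161092000], [], [nat_lit 12888984402, nat_lit 11923539748, nat_lit 13131198906, nat_lit 10978689908], nat_lit 1271250, nat_lit 1271250, nat_lit 279600, nat_lit 356250, nat_lit 0, nat_lit 0, [nat_lit 1412500, nat_lit 1271250, nat_lit 1271250], [nat_lit 25, nat_lit 40, nat_lit 20, nat_lit 80, nat_lit 17, nat_lit 289, nat_lit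 75, nat_lit 9]⟩,
 ⟨nat_lit 5916, nat_lit 6124, ⟨.ofNat (nat_lit 226574), .ofNat (nat_lit 250688), .ofNat (nat_lit 237248), .ofNat (nat_lit 261362), .ofNat (nat_lit 233580), .ofNat (nat_lit 257140), .ofNat (nat_lit 244249), .ofNat (nat_lit 267810)⟩, ⟨.ofNat (nat_lit 0), .ofNat (nat_lit 0), .ofNat (nat_lit 0), .ofNat (nat_lit 0), .ofNat (nat_lit 0), .ofNat (nat_lit 0), .ofNat (nat_lit 0), .ofNat (nat_lit 0)⟩⟩, []⟩
noncomputable def b_NL_600_550_0_29 : St := ⟨false, nat_lit 1, nat_lit 1, nat_lit 1, nat_lit 20, nat_lit 240, nat_lit 260, nat_lit 230, nat_lit 240, nat_lit 40, nat_lit 60, nat_lit 0, nat_lit 0, nat_lit 0, nat_lit 0, nat_lit 0, nat_lit 0, nat_lit 0, nat_lit 20, nat_lit 0, nat_lit 0, nat_lit 0, nat_lit 0⟩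
theorem d_NL_600_550_0_29 (h : EB TB.env) : Dead b_NL_600_550_0_29 := chkB_sound0 h (T :=
(.spl (nat_lit 2) (nat_lit 48)
(.spl (nat_lit 0) (nat_lit 250)
(.spl (nat_lit 6) (nat_lit 8)
(.spl (nat_lit 6) (nat_lit 4)
(.spl (nat_lit 1) (nat_lit 235)
(.spl (nat_lit 0) (nat_lit 245)
(.spl (nat_lit 2) (nat_lit 44)
(.spl (nat_lit 0) (nat_lit 243)
(.spl (nat_lit 8) (nat_lit 800)
(.spl (nat_lit 8) (nat_lit 400)
(.leaf p011_l0)
(.leaf p011_l1))
(.leaf p011_l2))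
(.spl (nat_lit 1) (nat_lit 233)
(.spl (nat_lit 1) (nat_lit 232)
(.spl (nat_lit 1) (nat_lit 231)
(.spl (nat_lit 0) (nat_lit 244)
(.spl (nat_lit 8) (nat_lit 800)
(.leaf p011_l3)
(.leaf p011_l4))
(.leaf p011_l5))
(.leaf p011_l6))
(.leaf p011_l7))
(.leaf p011_l8)))
(.leaf p011_l9))
(.leaf p011_l10))
(.spl (nat_lit 0) (nat_lit 245)
(.spl (nat_lit 0) (nat_lit 243)
(.spl (nat_lit 2) (nat_lit 44)
(.spl (nat_lit 1) (nat_lit 238)
(.spl (nat_lit 0) (nat_lit 242)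
(.spl (nat_lit 8) (nat_lit 800)
(.leaf p011_l11)
(.leaf p011_l12))
(.spl (nat_lit 1) (nat_lit 237)
(.spl (nat_lit 1) (nat_lit 236)
(.spl (nat_lit 8) (nat_lit 800)
(.leaf p011_l13)
(.leaf p011_l14))
(.leaf p011_l15))
(.leaf p011_l16)))
(.spl (nat_lit 0) (nat_lit 242)
(.spl (nat_lit 0) (nat_lit 241)
(.spl (nat_lit 8) (nat_lit 800)
(.leaf p011_l17)
(.leaf p011_l18))
(.spl (nat_lit 1) (nat_lit 239)
(.spl (nat_lit 8) (nat_lit 800)
(.leaf p011_l19)
(.leaf p011_l20))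
(.spl (nat_lit 8) (nat_lit 800)
(.leaf p011_l21)
(.leaf p011_l22))))
(.leaf p011_l23)))
(.leaf p011_l24))
(.leaf p011_l25))
(.leaf p011_l26)))
(.spl (nat_lit 1) (nat_lit 235)
(.spl (nat_lit 1) (nat_lit 233)
(.leaf p011_l27)
(.leaf p011_l28))
(.leaf p011_l29)))
(.spl (nat_lit 6) (nat_lit 16)
(.spl (nat_lit 0) (nat_lit 245)
(.leaf p011_l30)
(.leaf p011_l31))
(.leaf p011_l32)))
(.spl (nat_lit 6) (nat_lit 8)
(.leaf p011_l33)
(.leaf p011_l34)))
(.spl (nat_lit 0) (nat_lit 250)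
(.spl (nat_lit 0) (nat_lit 245)
(.leaf p011_l35)
(.leaf p011_l36))
(.leaf p011_l37)))) (by decide +kernel)
noncomputable def p011_l38 : Lf2 := ⟨nat_lit 0, nat_lit 5, [nat_lit 4, nat_lit 5, nat_lit 5, nat_lit 20], true, nat_lit 0, nat_lit 0, nat_lit 0, nat_lit 0, ⟨nat_lit 0, nat_lit 1000, nat_lit 0, nat_lit 5, nat_lit 87, nat_lit 0, nat_lit 0, nat_lit 0, nat_lit 0, nat_lit 0, nat_lit 0, nat_lit 0, nat_lit 0, nat_lit 0, nat_lit 0, nat_lit 5000000, false, false⟩,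
 nat_lit 0, nat_lit 4656, nat_lit 0, nat_lit 0, nat_lit 2464, nat_lit 0, nat_lit 474, nat_lit 0, nat_lit 0, nat_lit 0, nat_lit 0, nat_lit 0, nat_lit 0, nat_lit 0, nat_lit 0, nat_lit 400000, nat_lit 0, nat_lit 0, [(nat_lit 6, [(nat_lit 1, nat_lit 1000)])],
 ⟨p011_k26, nat_lit 0, nat_lit 0, nat_lit 506, nat_lit 0, nat_lit 478039, [nat_lit 2692266667, nat_lit 3151066667, nat_lit 3294533333], [], [nat_lit 31724441423, nat_lit 32288988210, nat_lit 31712704716, nat_lit 31985838456], nat_lit 1271250, nat_lit 1271250, nat_lit 43600, nat_lit 490000, nat_lit 0, nat_lit 0, [nat_lit 1100000, nat_lit 1442500, nat_lit 1271250], [nat_lit 11, nat_lit 40, nat_lit 20, nat_lit 80, nat_lit 1, nat_lit 317, nat_lit 100, nat_lit 10]⟩, C1.Rw.none,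
 ⟨nat_lit 5916, nat_lit 6325, ⟨.ofNat (nat_lit 126498), .ofNat (nat_lit 274574), .ofNat (nat_lit 147866), .ofNat (nat_lit 295942), .ofNat (nat_lit 144377), .ofNat (nat_lit 285737), .ofNat (nat_lit 165716), .ofNat (nat_lit 307076)⟩, ⟨.ofNat (nat_lit 0), .ofNat (nat_lit 0), .ofNat (nat_lit 0), .ofNat (nat_lit 0), .ofNat (nat_lit 0), .ofNat (nat_lit 0), .ofNat (nat_lit 0), .ofNat (nat_lit 0)⟩⟩, []⟩
noncomputable def p011_l39 : Lf2 := ⟨nat_lit 0, nat_lit 5, [nat_lit 4, nat_lit 5, nat_lit 5, nat_lit 20], false, nat_lit 0, nat_lit 0, nat_lit 0, nat_lit 0, ⟨nat_lit 791, nat_lit 209, nat_lit 0, nat_lit 5, nat_lit 131, nat_lit 0, nat_lit 0, nat_lit 0, nat_lit 0, nat_lit 0, nat_lit 0, nat_lit 0, nat_lit 0, nat_lit 0, nat_lit 0, nat_lit 5000000, false, false⟩,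
 nat_lit 0, nat_lit 14891, nat_lit 0, nat_lit 0, nat_lit 7883, nat_lit 10670, nat_lit 1685, nat_lit 0, nat_lit 0, nat_lit 3875, nat_lit 0, nat_lit 0, nat_lit 0, nat_lit 0, nat_lit 0, nat_lit 83600, nat_lit 0, nat_lit 0, [(nat_lit 6, [(nat_lit 1, nat_lit 209)])],
 ⟨p011_k26, nat_lit 0, nat_lit 0, nat_lit 629, nat_lit 0, nat_lit 849343, [nat_lit 4270891734, nat_lit 5602322934, nat_lit 8447384800], [], [nat_lit 28278448666, nat_lit 26383630940, nat_lit 26790414538, nat_lit 25999498247], nat_lit 1271250, nat_lit 1271250, nat_lit 490000, nat_lit 780000, nat_lit 0, nat_lit 0, [nat_lit 1100000, nat_lit 1442500, nat_lit 1271250], [nat_lit 11, nat_lit 40, nat_lit 20, nat_lit 80, nat_lit 1, nat_lit 317, nat_lit 100, nat_lit 9]⟩, ⟨p011_k31, nat_lit 0, nat_lit 0, nat_lit 149, nat_lit 0, nat_lit 0, [nat_lit 4943750000, nat_lit 6302688000, nat_lit 7785022000], [], [nat_lit 9447142750, nat_lit 11083407278,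 nat_lit 8307741156, nat_lit 10127498546], nat_lit 0, nat_lit 0, nat_lit 0, nat_lit 0, nat_lit 0, nat_lit 0, [], [nat_lit 25, nat_lit 40, nat_lit 20, nat_lit 80, nat_lit 17, nat_lit 317, nat_lit 100, nat_lit 9]⟩,
 ⟨nat_lit 6123, nat_lit 6325, ⟨.ofNat (nat_lit 274574), .ofNat (nat_lit 356838), .ofNat (nat_lit 295942), .ofNat (nat_lit 378206), .ofNat (nat_lit 280205), .ofNat (nat_lit 360585), .ofNat (nat_lit 301553), .ofNat (nat_lit 381933)⟩, ⟨.ofNat (nat_lit 0), .ofNat (nat_lit 0), .ofNat (nat_lit 0), .ofNat (nat_lit 0), .ofNat (nat_lit 0), .ofNat (nat_lit 0), .ofNat (nat_lit 0), .ofNat (nat_lit 0)⟩⟩, []⟩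
noncomputable def p011_l40 : Lf2 := ⟨nat_lit 0, nat_lit 5, [nat_lit 4, nat_lit 5, nat_lit 5, nat_lit 20], false, nat_lit 0, nat_lit 0, nat_lit 0, nat_lit 0, ⟨nat_lit 812, nat_lit 188, nat_lit 0, nat_lit 5, nat_lit 133, nat_lit 0, nat_lit 0, nat_lit 0, nat_lit 0, nat_lit 0, nat_lit 0, nat_lit 0, nat_lit 0, nat_lit 0, nat_lit 0, nat_lit 5000000, false, false⟩,
 nat_lit 0, nat_lit 14149, nat_lit 0, nat_lit 0, nat_lit 7860, nat_lit 10959, nat_lit 1573, nat_lit 0, nat_lit 0, nat_lit 3980, nat_lit 0, nat_lit 0, nat_lit 0, nat_lit 0, nat_lit 0, nat_lit 75200, nat_lit 0, nat_lit 0, [(nat_lit 6, [(nat_lit 1, nat_lit 188)])],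
 ⟨p011_k29, nat_lit 0, nat_lit 0, nat_lit 564, nat_lit 0, nat_lit 886426, [nat_lit 4312802134, nat_lit 5644715201, nat_lit 7075902400], [], [nat_lit 26401091342, nat_lit 24488522858, nat_lit 23720714196, nat_lit 24082668898], nat_lit 1271250, nat_lit 1271250, nat_lit 490000, nat_lit 780000, nat_lit 0, nat_lit 0, [nat_lit 1100000, nat_lit 1442500, nat_lit 1271250], [nat_lit 9, nat_lit 40, nat_lit 20, nat_lit 80, nat_lit 2, nat_lit 238, nat_lit 30, nat_lit 8]⟩, ⟨p011_k31, nat_lit 0, nat_lit 0, nat_lit 149, nat_lit 0, nat_lit 0, [nat_lit 5075000000, nat_lit 6470016000, nat_lit 7991704000], [], [nat_lit 9692539742, nat_lit 11374650092, nat_lit 8521877854, nat_lit 10392123900], nat_lit 0, nat_lit 0, nat_lit 0, nat_lit 0, nat_lit 0, nat_lit 0, [], [nat_lit 25, nat_lit 40, nat_lit 20, nat_lit 80, nat_lit 17, nat_lit 317, nat_lit 100, nat_lit 9]⟩,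
 ⟨nat_lit 5916, nat_lit 6124, ⟨.ofNat (nat_lit 280205), .ofNat (nat_lit 360585), .ofNat (nat_lit 301553), .ofNat (nat_lit 381933), .ofNat (nat_lit 285737), .ofNat (nat_lit 364271), .ofNat (nat_lit 307076), .ofNat (nat_lit 385610)⟩, ⟨.ofNat (nat_lit 0), .ofNat (nat_lit 0), .ofNat (nat_lit 0), .ofNat (nat_lit 0), .ofNat (nat_lit 0), .ofNat (nat_lit 0), .ofNat (nat_lit 0), .ofNat (nat_lit 0)⟩⟩, []⟩
noncomputable def p011_l41 : Lf2 := ⟨nat_lit 0, nat_lit 5, [nat_lit 4, nat_lit 5, nat_lit 5, nat_lit 20], false, nat_lit 0, nat_lit 0, nat_lit 0, nat_lit 0, ⟨nat_lit 1000, nat_lit 0, nat_lit 0, nat_lit 0, nat_lit 0, nat_lit 0, nat_lit 0, nat_lit 0, nat_lit 0, nat_lit 0, nat_lit 0, nat_lit 0, nat_lit 0, nat_lit 0, nat_lit 0, nat_lit 0, false, false⟩,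
 nat_lit 0, nat_lit 15116, nat_lit 0, nat_lit 0, nat_lit 8002, nat_lit 11512, nat_lit 1619, nat_lit 0, nat_lit 0, nat_lit 0, nat_lit 0, nat_lit 0, nat_lit 0, nat_lit 0, nat_lit 0, nat_lit 0, nat_lit 0, nat_lit 0, [],
 ⟨p011_k26, nat_lit 0, nat_lit 0, nat_lit 648, nat_lit 0, nat_lit 948242, [nat_lit 4688000000, nat_lit 6250000000, nat_lit 9842000000], [], [nat_lit 36231856728, nat_lit 32067151704, nat_lit 40457938912, nat_lit 36687348500], nat_lit 1271250, nat_lit 1271250, nat_lit 780000, nat_lit 1762500, nat_lit 0, nat_lit 0, [nat_lit 1100000, nat_lit 1442500, nat_lit 1271250], [nat_lit 11, nat_lit 40, nat_lit 20, nat_lit 80, nat_lit 1, nat_lit 345, nat_lit 125, nat_lit 10]⟩, ⟨p011_k31, nat_lit 0, nat_lit 0, nat_lit 88, nat_lit 0, nat_lit 0, [nat_lit 6250000000, nat_lit 7968000000, nat_lit 9842000000], [], [nat_lit 9310369952, nat_lit 11686703136, nat_lit 17968423360, nat_lit 20220698048], nat_lit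 0, nat_lit 0, nat_lit 0, nat_lit 0, nat_lit 0, nat_lit 0, [], [nat_lit 25, nat_lit 40, nat_lit 20, nat_lit 80, nat_lit 17, nat_lit 345, nat_lit 125, nat_lit 10]⟩,
 zbF0, []⟩
noncomputable def p011_l42 : Lf2 := ⟨nat_lit 0, nat_lit 5, [nat_lit 4, nat_lit 5, nat_lit 5, nat_lit 20], false, nat_lit 0, nat_lit 0, nat_lit 0, nat_lit 0, ⟨nat_lit 1000, nat_lit 0, nat_lit 0, nat_lit 0, nat_lit 0, nat_lit 0, nat_lit 0, nat_lit 0, nat_lit 0, nat_lit 0, nat_lit 0, nat_lit 0, nat_lit 0, nat_lit 0, nat_lit 0, nat_lit 0, false, false⟩,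
 nat_lit 0, nat_lit 14286, nat_lit 0, nat_lit 0, nat_lit 7563, nat_lit 6858, nat_lit 1469, nat_lit 0, nat_lit 0, nat_lit 4298, nat_lit 0, nat_lit 0, nat_lit 0, nat_lit 0, nat_lit 0, nat_lit 0, nat_lit 0, nat_lit 0, [],
 ⟨p011_k26, nat_lit 0, nat_lit 0, nat_lit 617, nat_lit 0, nat_lit 948242, [nat_lit 4688000000, nat_lit 6250000000, nat_lit 9842000000], [], [nat_lit 34452847846, nat_lit 34762392400, nat_lit 38800685660, nat_lit 38987344572], nat_lit 1271250, nat_lit 1271250, nat_lit 1271250, nat_lit 1271250, nat_lit 0, nat_lit 0, [nat_lit 1100000, nat_lit 1442500, nat_lit 1271250], [nat_lit 11, nat_lit 40, nat_lit 20, nat_lit 80, nat_lit 1, nat_lit 401, nat_lit 175, nat_lit 11]⟩, ⟨p011_k31, nat_lit 0, nat_lit 0, nat_lit 226, nat_lit 0, nat_lit 0, [nat_lit 6250000000, nat_lit 7968000000, nat_lit 9842000000], [], [nat_lit 23677326688, nat_lit 24555075508, nat_lit 35535781964, nat_lit 35987491416],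 nat_lit 0, nat_lit 0, nat_lit 0, nat_lit 0, nat_lit 0, nat_lit 0, [], [nat_lit 25, nat_lit 40, nat_lit 20, nat_lit 80, nat_lit 17, nat_lit 401, nat_lit 175, nat_lit 11]⟩,
 zbF0, []⟩
noncomputable def p011_l43 : Lf2 := ⟨nat_lit 0, nat_lit 5, [nat_lit 4, nat_lit 5, nat_lit 5, nat_lit 20], false, nat_lit 0, nat_lit 0, nat_lit 0, nat_lit 0, ⟨nat_lit 40, nat_lit 960, nat_lit 0, nat_lit 5, nat_lit 152, nat_lit 0, nat_lit 0, nat_lit 0, nat_lit 0, nat_lit 0, nat_lit 0, nat_lit 0, nat_lit 0, nat_lit 0, nat_lit 0, nat_lit 5000000, false, false⟩,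
 nat_lit 2298, nat_lit 2578, nat_lit 0, nat_lit 0, nat_lit 2581, nat_lit 1099, nat_lit 533, nat_lit 0, nat_lit 0, nat_lit 0, nat_lit 0, nat_lit 0, nat_lit 0, nat_lit 0, nat_lit 0, nat_lit 384000, nat_lit 0, nat_lit 0, [(nat_lit 6, [(nat_lit 1, nat_lit 960)])],
 ⟨p011_k26, nat_lit 0, nat_lit 0, nat_lit 506, nat_lit 0, nat_lit 478039, [nat_lit 2772096000, nat_lit 3275024000, nat_lit 3550192000], [], [nat_lit 31820600750, nat_lit 32388961129, nat_lit 33644179936, nat_lit 34076594478], nat_lit 1271250, nat_lit 1271250, nat_lit 43600, nat_lit 1699500, nat_lit 0, nat_lit 0, [nat_lit 1100000, nat_lit 1442500, nat_lit 1271250], [nat_lit 11, nat_lit 40, nat_lit 20, nat_lit 80, nat_lit 1, nat_lit 345, nat_lit 125, nat_lit 10]⟩, ⟨p011_k31, nat_lit 0, nat_lit 0, nat_lit 566, nat_lit 0, nat_lit 535681, [nat_lit 250000000, nat_lit 318720000, nat_lit 393680000], [], [nat_lit 1790410717, nat_lit 2001260884,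 nat_lit 1745469230, nat_lit 1240150736], nat_lit 1271250, nat_lit 1271250, nat_lit 43600, nat_lit 1699500, nat_lit 0, nat_lit 0, [nat_lit 1412500, nat_lit 1271250, nat_lit 1271250], [nat_lit 25, nat_lit 40, nat_lit 20, nat_lit 80, nat_lit 17, nat_lit 345, nat_lit 125, nat_lit 11]⟩,
 ⟨nat_lit 5916, nat_lit 6325, ⟨.ofNat (nat_lit 126498), .ofNat (nat_lit 603600), .ofNat (nat_lit 147866), .ofNat (nat_lit 624961), .ofNat (nat_lit 144377), .ofNat (nat_lit 599841), .ofNat (nat_lit 165716), .ofNat (nat_lit 621173)⟩, ⟨.ofNat (nat_lit 0), .ofNat (nat_lit 0), .ofNat (nat_lit 0), .ofNat (nat_lit 0), .ofNat (nat_lit 0), .ofNat (nat_lit 0), .ofNat (nat_lit 0), .ofNat (nat_lit 0)⟩⟩, []⟩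
noncomputable def p011_l44 : Lf2 := ⟨nat_lit 0, nat_lit 5, [nat_lit 4, nat_lit 5, nat_lit 5, nat_lit 20], false, nat_lit 0, nat_lit 0, nat_lit 0, nat_lit 0, ⟨nat_lit 704, nat_lit 296, nat_lit 0, nat_lit 6, nat_lit 309, nat_lit 0, nat_lit 0, nat_lit 0, nat_lit 0, nat_lit 0, nat_lit 0, nat_lit 0, nat_lit 0, nat_lit 0, nat_lit 0, nat_lit 5000000, true, true⟩,
 nat_lit 11981, nat_lit 0, nat_lit 0, nat_lit 0, nat_lit 6342, nat_lit 5730, nat_lit 1354, nat_lit 0, nat_lit 0, nat_lit 1060, nat_lit 0, nat_lit 0, nat_lit 0, nat_lit 0, nat_lit 0, nat_lit 118400, nat_lit 0, nat_lit 0, [(nat_lit 6, [(nat_lit 1, nat_lit 296)])],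
 ⟨p011_k26, nat_lit 0, nat_lit 0, nat_lit 428, nat_lit 0, nat_lit 478039, [nat_lit 4097262934, nat_lit 5332715734, nat_lit 7866851200], [], [nat_lit 29183225140, nat_lit 29693673946, nat_lit 35673381280, nat_lit 36080668096], nat_lit 1271250, nat_lit 1271250, nat_lit 1271250, nat_lit 1271250, nat_lit 0, nat_lit 0, [nat_lit 1100000, nat_lit 1442500, nat_lit 1271250], [nat_lit 11, nat_lit 40, nat_lit 20, nat_lit 80, nat_lit 1, nat_lit 401, nat_lit 175, nat_lit 11]⟩, ⟨p011_k31, nat_lit 0, nat_lit 0, nat_lit 455, nat_lit 0, nat_lit 535681, [nat_lit 4400000000, nat_lit 5609472000, nat_lit 6928768000], [], [nat_lit 23257417184, nat_lit 23419351064, nat_lit 27119116184, nat_lit 27592702176], nat_lit 1271250, nat_lit 1271250, nat_lit 1271250, nat_lit 1271250, nat_lit 0, nat_lit 0, [nat_lit 1412500, nat_lit 1271250, nat_lit 1271250], [nat_lit 25, nat_lit 40, nat_lit 20, nat_lit 80, nat_lit 17, nat_lit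 401, nat_lit 175, nat_lit 11]⟩,
 ⟨nat_lit 5916, nat_lit 6325, ⟨.ofNat (nat_lit 603600), .ofNat (nat_lit 932560), .ofNat (nat_lit 624961), .ofNat (nat_lit 953920), .ofNat (nat_lit 599841), .ofNat (nat_lit 913878), .ofNat (nat_lit 621173), .ofNat (nat_lit 935210)⟩, ⟨.ofNat (nat_lit 0), .ofNat (nat_lit 0), .ofNat (nat_lit 0), .ofNat (nat_lit 0), .ofNat (nat_lit 0), .ofNat (nat_lit 0), .ofNat (nat_lit 0), .ofNat (nat_lit 0)⟩⟩, []⟩
noncomputable def b_NL_600_550_0_30 : St := ⟨false, nat_lit 1, nat_lit 2, nat_lit 2, nat_lit 20, nat_lit 240, nat_lit 260, nat_lit 220, nat_lit 240, nat_lit 8, nat_lit 400, nat_lit 0, nat_lit 0, nat_lit 0, nat_lit 0, nat_lit 0, nat_lit 0, nat_lit 0, nat_lit 40, nat_lit 0, nat_lit 0, nat_lit 0, nat_lit 0⟩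
theorem d_NL_600_550_0_30 (h : EB TB.env) : Dead b_NL_600_550_0_30 := chkB_sound0 h (T :=
(.st (nat_lit 1)
(.spl (nat_lit 2) (nat_lit 240)
(.spl (nat_lit 2) (nat_lit 120)
(.spl (nat_lit 2) (nat_lit 80)
(.leaf p011_l38)
(.spl (nat_lit 0) (nat_lit 250)
(.leaf p011_l39)
(.leaf p011_l40)))
(.leaf p011_l41))
(.leaf p011_l42))
(.spl (nat_lit 2) (nat_lit 240)
(.leaf p011_l43)
(.leaf p011_l44)))) (by decide +kernel)
noncomputable def p011_l45 : Lf2 := ⟨nat_lit 0, nat_lit 5, [nat_lit 4, nat_lit 5, nat_lit 5, nat_lit 20], true, nat_lit 0, nat_lit 0, nat_lit 0, nat_lit 0, ⟨nat_lit 0, nat_lit 0, nat_lit 1000, nat_lit 5, nat_lit 103, nat_lit 0, nat_lit 0, nat_lit 0, nat_lit 0, nat_lit 215, nat_lit 101400, nat_lit 293, nat_lit 62798080, nat_lit 0, nat_lit 0, nat_lit 1171864, false, false⟩,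
 nat_lit 0, nat_lit 0, nat_lit 0, nat_lit 6294, nat_lit 3995, nat_lit 0, nat_lit 0, nat_lit 0, nat_lit 0, nat_lit 0, nat_lit 0, nat_lit 0, nat_lit 0, nat_lit 0, nat_lit 125, nat_lit 828400, nat_lit 0, nat_lit 0, [(nat_lit 6, [(nat_lit 5, nat_lit 286), (nat_lit 6, nat_lit 714)])],
 ⟨p011_k26, nat_lit 0, nat_lit 0, nat_lit 290, nat_lit 0, nat_lit 0, [nat_lit 3103059200, nat_lit 2595993601, nat_lit 106601599], [], [nat_lit 14216809304, nat_lit 15542812561, nat_lit 13270939400, nat_lit 14101873800], nat_lit 0, nat_lit 0, nat_lit 0, nat_lit 0, nat_lit 0, nat_lit 0, [], [nat_lit 11, nat_lit 40, nat_lit 20, nat_lit 80, nat_lit 1, nat_lit 317, nat_lit 100, nat_lit 10]⟩, C1.Rw.none,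
 ⟨nat_lit 5916, nat_lit 6325, ⟨.ofNat (nat_lit 126498), .ofNat (nat_lit 356838), .ofNat (nat_lit 147866), .ofNat (nat_lit 378206), .ofNat (nat_lit 144377), .ofNat (nat_lit 364271), .ofNat (nat_lit 165716), .ofNat (nat_lit 385610)⟩, ⟨.ofNat (nat_lit 0), .ofNat (nat_lit 0), .ofNat (nat_lit 0), .ofNat (nat_lit 0), .ofNat (nat_lit 0), .ofNat (nat_lit 0), .ofNat (nat_lit 0), .ofNat (nat_lit 0)⟩⟩, [⟨nat_lit 0, nat_lit 100, nat_lit 98, nat_lit 40, nat_lit 164300584⟩]⟩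
noncomputable def p011_l46 : Lf2 := ⟨nat_lit 0, nat_lit 5, [nat_lit 4, nat_lit 5, nat_lit 5, nat_lit 20], false, nat_lit 0, nat_lit 0, nat_lit 0, nat_lit 0, ⟨nat_lit 1000, nat_lit 0, nat_lit 0, nat_lit 0, nat_lit 0, nat_lit 0, nat_lit 0, nat_lit 0, nat_lit 0, nat_lit 0, nat_lit 0, nat_lit 0, nat_lit 0, nat_lit 0, nat_lit 0, nat_lit 0, false, false⟩,
 nat_lit 0, nat_lit 0, nat_lit 0, nat_lit 81198, nat_lit 5628, nat_lit 10395, nat_lit 0, nat_lit 0, nat_lit 0, nat_lit 0, nat_lit 0, nat_lit 0, nat_lit 0, nat_lit 0, nat_lit 0, nat_lit 0, nat_lit 0, nat_lit 0, [],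
 ⟨p011_k26, nat_lit 0, nat_lit 0, nat_lit 214, nat_lit 0, nat_lit 0, [nat_lit 4688000000, nat_lit 6250000000, nat_lit 9842000000], [], [nat_lit 27540694112, nat_lit 28763809752, nat_lit 40156094848, nat_lit 40697112800], nat_lit 0, nat_lit 0, nat_lit 0, nat_lit 0, nat_lit 0, nat_lit 0, [], [nat_lit 11, nat_lit 40, nat_lit 20, nat_lit 80, nat_lit 1, nat_lit 401, nat_lit 175, nat_lit 12]⟩, ⟨p011_k31, nat_lit 0, nat_lit 0, nat_lit 226, nat_lit 0, nat_lit 0, [nat_lit 6250000000, nat_lit 7968000000, nat_lit 9842000000], [], [nat_lit 23817618980, nat_lit 25061233220, nat_lit 44460225440, nat_lit 44843239620], nat_lit 0, nat_lit 0, nat_lit 0, nat_lit 0, nat_lit 0, nat_lit 0, [], [nat_lit 25, nat_lit 40, nat_lit 20, nat_lit 80, nat_lit 17, nat_lit 401, nat_lit 175, nat_lit 12]⟩,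
 zbF0, [⟨nat_lit 13, nat_lit 98, nat_lit 10, nat_lit 100, nat_lit 34681984⟩]⟩
noncomputable def p011_l47 : Lf2 := ⟨nat_lit 0, nat_lit 5, [nat_lit 4, nat_lit 5, nat_lit 5, nat_lit 20], true, nat_lit 0, nat_lit 0, nat_lit 0, nat_lit 0, ⟨nat_lit 0, nat_lit 0, nat_lit 1000, nat_lit 5, nat_lit 103, nat_lit 0, nat_lit 0, nat_lit 0, nat_lit 0, nat_lit 215, nat_lit 101400, nat_lit 293, nat_lit 62798080, nat_lit 0, nat_lit 0, nat_lit 1171864, false, false⟩,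
 nat_lit 0, nat_lit 0, nat_lit 0, nat_lit 6343, nat_lit 4004, nat_lit 0, nat_lit 0, nat_lit 0, nat_lit 0, nat_lit 0, nat_lit 0, nat_lit 0, nat_lit 0, nat_lit 0, nat_lit 144, nat_lit 972400, nat_lit 0, nat_lit 0, [(nat_lit 6, [(nat_lit 5, nat_lit 46), (nat_lit 6, nat_lit 954)])],
 ⟨p011_k32, nat_lit 0, nat_lit 0, nat_lit 292, nat_lit 0, nat_lit 0, [nat_lit 3832645601, nat_lit 1714364801, nat_lit 23664000], [], [nat_lit 13608151358, nat_lit 14937250511, nat_lit 12528403986, nat_lit 13489028538], nat_lit 0, nat_lit 0, nat_lit 0, nat_lit 0, nat_lit 0, nat_lit 0, [], [nat_lit 29, nat_lit 40, nat_lit 20, nat_lit 80, nat_lit 17, nat_lit 317, nat_lit 100, nat_lit 10]⟩, C1.Rw.none,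
 ⟨nat_lit 5916, nat_lit 6325, ⟨.ofNat (nat_lit 126498), .ofNat (nat_lit 356838), .ofNat (nat_lit 147866), .ofNat (nat_lit 378206), .ofNat (nat_lit 144377), .ofNat (nat_lit 364271), .ofNat (nat_lit 165716), .ofNat (nat_lit 385610)⟩, ⟨.ofNat (nat_lit 0), .ofNat (nat_lit 0), .ofNat (nat_lit 0), .ofNat (nat_lit 0), .ofNat (nat_lit 0), .ofNat (nat_lit 0), .ofNat (nat_lit 0), .ofNat (nat_lit 0)⟩⟩, [⟨nat_lit 0, nat_lit 100, nat_lit 98, nat_lit 40, nat_lit 170367213⟩]⟩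
noncomputable def p011_l48 : Lf2 := ⟨nat_lit 0, nat_lit 5, [nat_lit 4, nat_lit 5, nat_lit 5, nat_lit 20], false, nat_lit 0, nat_lit 0, nat_lit 0, nat_lit 0, ⟨nat_lit 1000, nat_lit 0, nat_lit 0, nat_lit 0, nat_lit 0, nat_lit 0, nat_lit 0, nat_lit 0, nat_lit 0, nat_lit 0, nat_lit 0, nat_lit 0, nat_lit 0, nat_lit 0, nat_lit 0, nat_lit 0, false, false⟩,
 nat_lit 0, nat_lit 0, nat_lit 16480, nat_lit 0, nat_lit 7519, nat_lit 7881, nat_lit 0, nat_lit 0, nat_lit 0, nat_lit 0, nat_lit 0, nat_lit 0, nat_lit 0, nat_lit 0, nat_lit 0, nat_lit 0, nat_lit 0, nat_lit 0, [],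
 ⟨p011_k32, nat_lit 0, nat_lit 0, nat_lit 225, nat_lit 0, nat_lit 0, [nat_lit 4688000000, nat_lit 7968000001, nat_lit 9842000000], [], [nat_lit 25382503376, nat_lit 26808201846, nat_lit 41967941364, nat_lit 42622949658], nat_lit 0, nat_lit 0, nat_lit 0, nat_lit 0, nat_lit 0, nat_lit 0, [], [nat_lit 29, nat_lit 40, nat_lit 20, nat_lit 80, nat_lit 17, nat_lit 401, nat_lit 175, nat_lit 12]⟩, ⟨p011_k33, nat_lit 0, nat_lit 0, nat_lit 304, nat_lit 0, nat_lit 173272, [nat_lit 6250000000, nat_lit 9842000000], [], [nat_lit 40342410862, nat_lit 37718813548, nat_lit 45940754226, nat_lit 46129459048], nat_lit 1271250, nat_lit 1271250, nat_lit 780000, nat_lit 3072500, nat_lit 0, nat_lit 0, [nat_lit 1412500, nat_lit 1271250], [nat_lit 51, nat_lit 40, nat_lit 20, nat_lit 80, nat_lit 1, nat_lit 401, nat_lit 175, nat_lit 12]⟩,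
 zbF0, []⟩
noncomputable def p011_l49 : Lf2 := ⟨nat_lit 0, nat_lit 5, [nat_lit 4, nat_lit 5, nat_lit 5, nat_lit 20], true, nat_lit 0, nat_lit 0, nat_lit 0, nat_lit 0, ⟨nat_lit 0, nat_lit 1000, nat_lit 0, nat_lit 5, nat_lit 216, nat_lit 0, nat_lit 0, nat_lit 0, nat_lit 0, nat_lit 0, nat_lit 0, nat_lit 0, nat_lit 0, nat_lit 0, nat_lit 0, nat_lit 5000000, false, true⟩,
 nat_lit 0, nat_lit 0, nat_lit 0, nat_lit 5331, nat_lit 4878, nat_lit 0, nat_lit 0, nat_lit 0, nat_lit 0, nat_lit 0, nat_lit 0, nat_lit 0, nat_lit 0, nat_lit 0, nat_lit 0, nat_lit 774400, nat_lit 0, nat_lit 0, [(nat_lit 6, [(nat_lit 1, nat_lit 376), (nat_lit 2, nat_lit 624)])],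
 ⟨p011_k32, nat_lit 0, nat_lit 0, nat_lit 292, nat_lit 0, nat_lit 0, [nat_lit 3143510401, nat_lit 2793795200, nat_lit 1815369600], [], [nat_lit 25373581137, nat_lit 26190334670, nat_lit 31427137961, nat_lit 31905783112], nat_lit 0, nat_lit 0, nat_lit 0, nat_lit 0, nat_lit 0, nat_lit 0, [], [nat_lit 29, nat_lit 40, nat_lit 20, nat_lit 80, nat_lit 17, nat_lit 401, nat_lit 175, nat_lit 12]⟩, C1.Rw.none,
 ⟨nat_lit 5916, nat_lit 6325, ⟨.ofNat (nat_lit 126498), .ofNat (nat_lit 932560), .ofNat (nat_lit 147866), .ofNat (nat_lit 953920), .ofNat (nat_lit 144377), .ofNat (nat_lit 913878), .ofNat (nat_lit 165716), .ofNat (nat_lit 935210)⟩, ⟨.ofNat (nat_lit 0), .ofNat (nat_lit 0), .ofNat (nat_lit 0), .ofNat (nat_lit 0), .ofNat (nat_lit 0), .ofNat (nat_lit 0), .ofNat (nat_lit 0), .ofNat (nat_lit 0)⟩⟩, []⟩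
noncomputable def p011_l50 : Lf2 := ⟨nat_lit 0, nat_lit 5, [nat_lit 4, nat_lit 5, nat_lit 5, nat_lit 20], true, nat_lit 0, nat_lit 0, nat_lit 0, nat_lit 0, ⟨nat_lit 0, nat_lit 0, nat_lit 1000, nat_lit 5, nat_lit 86, nat_lit 0, nat_lit 0, nat_lit 0, nat_lit 0, nat_lit 215, nat_lit 68267, nat_lit 279, nat_lit 64042972, nat_lit 0, nat_lit 0, nat_lit 904333, false, false⟩,
 nat_lit 0, nat_lit 7437, nat_lit 0, nat_lit 1429, nat_lit 3937, nat_lit 0, nat_lit 0, nat_lit 0, nat_lit 0, nat_lit 0, nat_lit 0, nat_lit 0, nat_lit 0, nat_lit 0, nat_lit 121, nat_lit 799000, nat_lit 0, nat_lit 0, [(nat_lit 6, [(nat_lit 5, nat_lit 335), (nat_lit 6, nat_lit 665)])],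
 ⟨p011_k26, nat_lit 0, nat_lit 0, nat_lit 295, nat_lit 0, nat_lit 22166, [nat_lit 3060645334, nat_lit 2514896001, nat_lit 87975999], [], [nat_lit 14405001605, nat_lit 14916264928, nat_lit 13279660246, nat_lit 13713157870], nat_lit 1271250, nat_lit 1271250, nat_lit 43600, nat_lit 490000, nat_lit 0, nat_lit 0, [nat_lit 1100000, nat_lit 1442500, nat_lit 1271250], [nat_lit 11, nat_lit 40, nat_lit 20, nat_lit 80, nat_lit 1, nat_lit 317, nat_lit 100, nat_lit 10]⟩, C1.Rw.none,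
 ⟨nat_lit 6123, nat_lit 6325, ⟨.ofNat (nat_lit 126498), .ofNat (nat_lit 274574), .ofNat (nat_lit 147866), .ofNat (nat_lit 295942), .ofNat (nat_lit 135519), .ofNat (nat_lit 280205), .ofNat (nat_lit 156867), .ofNat (nat_lit 301553)⟩, ⟨.ofNat (nat_lit 0), .ofNat (nat_lit 0), .ofNat (nat_lit 0), .ofNat (nat_lit 0), .ofNat (nat_lit 0), .ofNat (nat_lit 0), .ofNat (nat_lit 0), .ofNat (nat_lit 0)⟩⟩, [⟨nat_lit 0, nat_lit 100, nat_lit 99, nat_lit 45, nat_lit 193779485⟩]⟩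
noncomputable def p011_l51 : Lf2 := ⟨nat_lit 0, nat_lit 5, [nat_lit 4, nat_lit 5, nat_lit 5, nat_lit 20], true, nat_lit 0, nat_lit 0, nat_lit 0, nat_lit 0, ⟨nat_lit 0, nat_lit 0, nat_lit 1000, nat_lit 5, nat_lit 131, nat_lit 0, nat_lit 0, nat_lit 0, nat_lit 0, nat_lit 215, nat_lit 163350, nat_lit 314, nat_lit 60465871, nat_lit 0, nat_lit 0, nat_lit 1598042, false, false⟩,
 nat_lit 0, nat_lit 8316, nat_lit 0, nat_lit 0, nat_lit 4402, nat_lit 0, nat_lit 0, nat_lit 0, nat_lit 0, nat_lit 0, nat_lit 0, nat_lit 0, nat_lit 0, nat_lit 0, nat_lit 69, nat_lit 400000, nat_lit 0, nat_lit 0, [(nat_lit 6, [(nat_lit 5, nat_lit 1000)])],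
 ⟨p011_k26, nat_lit 0, nat_lit 0, nat_lit 233, nat_lit 0, nat_lit 44389, [nat_lit 2521600001, nat_lit 1460000001, nat_lit 7200000], [], [nat_lit 13702128761, nat_lit 14275109893, nat_lit 13902723009, nat_lit 14448610139], nat_lit 1271250, nat_lit 1271250, nat_lit 490000, nat_lit 780000, nat_lit 0, nat_lit 0, [nat_lit 1100000, nat_lit 1442500, nat_lit 1271250], [nat_lit 11, nat_lit 40, nat_lit 20, nat_lit 80, nat_lit 1, nat_lit 317, nat_lit 100, nat_lit 9]⟩, C1.Rw.none,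
 ⟨nat_lit 6123, nat_lit 6325, ⟨.ofNat (nat_lit 274574), .ofNat (nat_lit 356838), .ofNat (nat_lit 295942), .ofNat (nat_lit 378206), .ofNat (nat_lit 280205), .ofNat (nat_lit 360585), .ofNat (nat_lit 301553), .ofNat (nat_lit 381933)⟩, ⟨.ofNat (nat_lit 0), .ofNat (nat_lit 0), .ofNat (nat_lit 0), .ofNat (nat_lit 0), .ofNat (nat_lit 0), .ofNat (nat_lit 0), .ofNat (nat_lit 0), .ofNat (nat_lit 0)⟩⟩, []⟩
noncomputable def p011_l52 : Lf2 := ⟨nat_lit 0, nat_lit 5, [nat_lit 4, nat_lit 5, nat_lit 5, nat_lit 20], true, nat_lit 0, nat_lit 0, nat_lit 0, nat_lit 0, ⟨nat_lit 0, nat_lit 0, nat_lit 1000, nat_lit 5, nat_lit 106, nat_lit 0, nat_lit 0, nat_lit 0, nat_lit 0, nat_lit 215, nat_lit 104017, nat_lit 294, nat_lit 62625494, nat_lit 0, nat_lit 0, nat_lit 1206417, false, false⟩,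
 nat_lit 0, nat_lit 7534, nat_lit 0, nat_lit 0, nat_lit 4185, nat_lit 0, nat_lit 0, nat_lit 0, nat_lit 0, nat_lit 0, nat_lit 0, nat_lit 0, nat_lit 0, nat_lit 0, nat_lit 41, nat_lit 400000, nat_lit 0, nat_lit 0, [(nat_lit 6, [(nat_lit 5, nat_lit 1000)])],
 ⟨p011_k29, nat_lit 0, nat_lit 0, nat_lit 265, nat_lit 0, nat_lit 86479, [nat_lit 2073600001, nat_lit 853200001, nat_lit 108399999], [], [nat_lit 14403039012, nat_lit 14730114218, nat_lit 13421575065, nat_lit 13717909928], nat_lit 1271250, nat_lit 1271250, nat_lit 65850, nat_lit 780000, nat_lit 0, nat_lit 0, [nat_lit 1100000, nat_lit 1442500, nat_lit 1271250], [nat_lit 9, nat_lit 40, nat_lit 20, nat_lit 80, nat_lit 2, nat_lit 238, nat_lit 30, nat_lit 8]⟩, C1.Rw.none,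
 ⟨nat_lit 6020, nat_lit 6124, ⟨.ofNat (nat_lit 143557), .ofNat (nat_lit 360585), .ofNat (nat_lit 164905), .ofNat (nat_lit 381933), .ofNat (nat_lit 147913), .ofNat (nat_lit 362435), .ofNat (nat_lit 169255), .ofNat (nat_lit 383777)⟩, ⟨.ofNat (nat_lit 0), .ofNat (nat_lit 0), .ofNat (nat_lit 0), .ofNat (nat_lit 0), .ofNat (nat_lit 0), .ofNat (nat_lit 0), .ofNat (nat_lit 0), .ofNat (nat_lit 0)⟩⟩, [⟨nat_lit 0, nat_lit 100, nat_lit 98, nat_lit 47, nat_lit 161115019⟩]⟩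
noncomputable def p011_l53 : Lf2 := ⟨nat_lit 0, nat_lit 5, [nat_lit 4, nat_lit 5, nat_lit 5, nat_lit 20], true, nat_lit 0, nat_lit 0, nat_lit 0, nat_lit 0, ⟨nat_lit 0, nat_lit 0, nat_lit 1000, nat_lit 5, nat_lit 107, nat_lit 0, nat_lit 0, nat_lit 0, nat_lit 0, nat_lit 215, nat_lit 106667, nat_lit 295, nat_lit 62529550, nat_lit 0, nat_lit 0, nat_lit 1225389, false, false⟩,
 nat_lit 0, nat_lit 8619, nat_lit 0, nat_lit 0, nat_lit 4902, nat_lit 0, nat_lit 0, nat_lit 0, nat_lit 0, nat_lit 0, nat_lit 0, nat_lit 0, nat_lit 0, nat_lit 0, nat_lit 38, nat_lit 350500, nat_lit 0, nat_lit 0, [(nat_lit 6, [(nat_lit 4, nat_lit 330), (nat_lit 5, nat_lit 670)])],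
 ⟨p011_k34, nat_lit 0, nat_lit 0, nat_lit 266, nat_lit 0, nat_lit 130166, [nat_lit 2499744001, nat_lit 811680000, nat_lit 105304000], [], [nat_lit 15569307241, nat_lit 15821440869, nat_lit 15629731102, nat_lit 15027738541], nat_lit 1271250, nat_lit 1271250, nat_lit 65850, nat_lit 780000, nat_lit 0, nat_lit 0, [nat_lit 1100000, nat_lit 1442500, nat_lit 1271250], [nat_lit 9, nat_lit 40, nat_lit 20, nat_lit 80, nat_lit 2, nat_lit 238, nat_lit 30, nat_lit 8]⟩, C1.Rw.none,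
 ⟨nat_lit 5916, nat_lit 6021, ⟨.ofNat (nat_lit 147913), .ofNat (nat_lit 362435), .ofNat (nat_lit 169255), .ofNat (nat_lit 383777), .ofNat (nat_lit 152230), .ofNat (nat_lit 364271), .ofNat (nat_lit 173569), .ofNat (nat_lit 385610)⟩, ⟨.ofNat (nat_lit 0), .ofNat (nat_lit 0), .ofNat (nat_lit 0), .ofNat (nat_lit 0), .ofNat (nat_lit 0), .ofNat (nat_lit 0), .ofNat (nat_lit 0), .ofNat (nat_lit 0)⟩⟩, [⟨nat_lit 0, nat_lit 100, nat_lit 97, nat_lit 49, nat_lit 139532740⟩]⟩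
noncomputable def p011_l54 : Lf2 := ⟨nat_lit 0, nat_lit 5, [nat_lit 4, nat_lit 5, nat_lit 5, nat_lit 20], false, nat_lit 0, nat_lit 0, nat_lit 0, nat_lit 0, ⟨nat_lit 1000, nat_lit 0, nat_lit 0, nat_lit 0, nat_lit 0, nat_lit 0, nat_lit 0, nat_lit 0, nat_lit 0, nat_lit 0, nat_lit 0, nat_lit 0, nat_lit 0, nat_lit 0, nat_lit 0, nat_lit 0, false, false⟩,
 nat_lit 0, nat_lit 8406, nat_lit 0, nat_lit 0, nat_lit 4450, nat_lit 10395, nat_lit 0, nat_lit 0, nat_lit 0, nat_lit 0, nat_lit 0, nat_lit 0, nat_lit 0, nat_lit 0, nat_lit 0, nat_lit 0, nat_lit 0, nat_lit 0, [],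
 ⟨p011_k32, nat_lit 0, nat_lit 0, nat_lit 294, nat_lit 0, nat_lit 143915, [nat_lit 4688000000, nat_lit 7968000001, nat_lit 9842000000], [], [nat_lit 41837196800, nat_lit 42556265000, nat_lit 54008168001, nat_lit 52019018001], nat_lit 1271250, nat_lit 1271250, nat_lit 780000, nat_lit 3072500, nat_lit 0, nat_lit 0, [nat_lit 1100000, nat_lit 1785000, nat_lit 1271250], [nat_lit 29, nat_lit 40, nat_lit 20, nat_lit 80, nat_lit 17, nat_lit 401, nat_lit 175, nat_lit 12]⟩, ⟨p011_k33, nat_lit 0, nat_lit 0, nat_lit 214, nat_lit 0, nat_lit 0, [nat_lit 6250000000, nat_lit 9842000000], [], [nat_lit 23817618980, nat_lit 25061233220, nat_lit 44460225440, nat_lit 44843239620], nat_lit 0, nat_lit 0, nat_lit 0, nat_lit 0, nat_lit 0, nat_lit 0, [], [nat_lit 51, nat_lit 40, nat_lit 20, nat_lit 80, nat_lit 1, nat_lit 401, nat_lit 175, nat_lit 12]⟩,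
 zbF0, []⟩
noncomputable def p011_l55 : Lf2 := ⟨nat_lit 0, nat_lit 5, [nat_lit 4, nat_lit 5, nat_lit 5, nat_lit 20], false, nat_lit 0, nat_lit 0, nat_lit 0, nat_lit 0, ⟨nat_lit 0, nat_lit 0, nat_lit 1000, nat_lit 5, nat_lit 102, nat_lit 0, nat_lit 0, nat_lit 0, nat_lit 0, nat_lit 215, nat_lit 98817, nat_lit 292, nat_lit 62893071, nat_lit 0, nat_lit 0, nat_lit 1152607, false, false⟩,
 nat_lit 0, nat_lit 7459, nat_lit 0, nat_lit 810, nat_lit 3948, nat_lit 0, nat_lit 0, nat_lit 0, nat_lit 0, nat_lit 0, nat_lit 0, nat_lit 0, nat_lit 0, nat_lit 0, nat_lit 122, nat_lit 805000, nat_lit 0, nat_lit 0, [(nat_lit 6, [(nat_lit 5, nat_lit 325), (nat_lit 6, nat_lit 675)])],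
 ⟨p011_k26, nat_lit 0, nat_lit 0, nat_lit 295, nat_lit 0, nat_lit 22166, [nat_lit 3072240001, nat_lit 2535120001, nat_lit 96919999], [], [nat_lit 14367667323, nat_lit 14907834032, nat_lit 13456552001, nat_lit 13870357281], nat_lit 1271250, nat_lit 1271250, nat_lit 43600, nat_lit 780000, nat_lit 0, nat_lit 0, [nat_lit 1100000, nat_lit 1442500, nat_lit 1271250], [nat_lit 11, nat_lit 40, nat_lit 20, nat_lit 80, nat_lit 1, nat_lit 317, nat_lit 100, nat_lit 10]⟩, ⟨p011_k31, nat_lit 0, nat_lit 0, nat_lit 296, nat_lit 0, nat_lit 24907, [nat_lit 0, nat_lit 0, nat_lit 0], [], [nat_lit 0, nat_lit 0, nat_lit 0, nat_lit 0], nat_lit 1271250, nat_lit 1271250, nat_lit 43600, nat_lit 780000, nat_lit 0, nat_lit 0, [nat_lit 1412500, nat_lit 1271250, nat_lit 1271250], [nat_lit 25, nat_lit 40, nat_lit 20, nat_lit 80, nat_lit 17, nat_lit 317, nat_lit 100, nat_lit 10]⟩,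
 ⟨nat_lit 6123, nat_lit 6325, ⟨.ofNat (nat_lit 126498), .ofNat (nat_lit 356838), .ofNat (nat_lit 147866), .ofNat (nat_lit 378206), .ofNat (nat_lit 135519), .ofNat (nat_lit 360585), .ofNat (nat_lit 156867), .ofNat (nat_lit 381933)⟩, ⟨.ofNat (nat_lit 0), .ofNat (nat_lit 0), .ofNat (nat_lit 0), .ofNat (nat_lit 0), .ofNat (nat_lit 0), .ofNat (nat_lit 0), .ofNat (nat_lit 0), .ofNat (nat_lit 0)⟩⟩, [⟨nat_lit 0, nat_lit 100, nat_lit 99, nat_lit 45, nat_lit 160249164⟩]⟩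
noncomputable def p011_l56 : Lf2 := ⟨nat_lit 0, nat_lit 5, [nat_lit 4, nat_lit 5, nat_lit 5, nat_lit 20], false, nat_lit 0, nat_lit 0, nat_lit 0, nat_lit 0, ⟨nat_lit 0, nat_lit 0, nat_lit 1000, nat_lit 5, nat_lit 106, nat_lit 0, nat_lit 0, nat_lit 0, nat_lit 0, nat_lit 215, nat_lit 106667, nat_lit 295, nat_lit 62577818, nat_lit 0, nat_lit 0, nat_lit 1215865, false, false⟩,
 nat_lit 0, nat_lit 7450, nat_lit 0, nat_lit 0, nat_lit 4138, nat_lit 0, nat_lit 0, nat_lit 0, nat_lit 0, nat_lit 0, nat_lit 0, nat_lit 0, nat_lit 0, nat_lit 0, nat_lit 41, nat_lit 400000, nat_lit 0, nat_lit 0, [(nat_lit 6, [(nat_lit 5, nat_lit 1000)])],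
 ⟨p011_k29, nat_lit 0, nat_lit 0, nat_lit 264, nat_lit 0, nat_lit 69804, [nat_lit 2073600001, nat_lit 853200001, nat_lit 108399999], [], [nat_lit 14430689338, nat_lit 15081370436, nat_lit 13484251962, nat_lit 14073909692], nat_lit 1271250, nat_lit 1271250, nat_lit 65850, nat_lit 780000, nat_lit 0, nat_lit 0, [nat_lit 1100000, nat_lit 1442500, nat_lit 1271250], [nat_lit 9, nat_lit 40, nat_lit 20, nat_lit 80, nat_lit 2, nat_lit 238, nat_lit 30, nat_lit 8]⟩, ⟨p011_k31, nat_lit 0, nat_lit 0, nat_lit 315, nat_lit 0, nat_lit 82764, [nat_lit 0, nat_lit 0, nat_lit 0], [], [nat_lit 0, nat_lit 0, nat_lit 0, nat_lit 0], nat_lit 1271250, nat_lit 1271250, nat_lit 65850, nat_lit 780000, nat_lit 0, nat_lit 0, [nat_lit 1412500, nat_lit 1271250, nat_lit 1271250], [nat_lit 25, nat_lit 40, nat_lit 20, nat_lit 80, nat_lit 17, nat_lit 317, nat_lit 100, nat_lit 10]⟩,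
 ⟨nat_lit 5916, nat_lit 6124, ⟨.ofNat (nat_lit 143557), .ofNat (nat_lit 360585), .ofNat (nat_lit 164905), .ofNat (nat_lit 381933), .ofNat (nat_lit 152230), .ofNat (nat_lit 364271), .ofNat (nat_lit 173569), .ofNat (nat_lit 385610)⟩, ⟨.ofNat (nat_lit 0), .ofNat (nat_lit 0), .ofNat (nat_lit 0), .ofNat (nat_lit 0), .ofNat (nat_lit 0), .ofNat (nat_lit 0), .ofNat (nat_lit 0), .ofNat (nat_lit 0)⟩⟩, [⟨nat_lit 0, nat_lit 100, nat_lit 97, nat_lit 49, nat_lit 160070467⟩]⟩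
noncomputable def p011_l57 : Lf2 := ⟨nat_lit 0, nat_lit 5, [nat_lit 4, nat_lit 5, nat_lit 5, nat_lit 20], false, nat_lit 0, nat_lit 0, nat_lit 0, nat_lit 0, ⟨nat_lit 1000, nat_lit 0, nat_lit 0, nat_lit 0, nat_lit 0, nat_lit 0, nat_lit 0, nat_lit 0, nat_lit 0, nat_lit 0, nat_lit 0, nat_lit 0, nat_lit 0, nat_lit 0, nat_lit 0, nat_lit 0, false, false⟩,
 nat_lit 12486, nat_lit 2379, nat_lit 0, nat_lit 15128, nat_lit 7869, nat_lit 5971, nat_lit 0, nat_lit 0, nat_lit 0, nat_lit 0, nat_lit 0, nat_lit 0, nat_lit 0, nat_lit 0, nat_lit 0, nat_lit 0, nat_lit 0, nat_lit 0, [],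
 ⟨p011_k32, nat_lit 0, nat_lit 0, nat_lit 250, nat_lit 0, nat_lit 73713, [nat_lit 4688000000, nat_lit 7968000001, nat_lit 9842000000], [], [nat_lit 36325830317, nat_lit 32699558671, nat_lit 58056537521, nat_lit 54539094521], nat_lit 1271250, nat_lit 1271250, nat_lit 780000, nat_lit 3072500, nat_lit 0, nat_lit 0, [nat_lit 1100000, nat_lit 1785000, nat_lit 1271250], [nat_lit 29, nat_lit 40, nat_lit 20, nat_lit 80, nat_lit 17, nat_lit 401, nat_lit 175, nat_lit 12]⟩, ⟨p011_k33, nat_lit 0, nat_lit 0, nat_lit 238, nat_lit 0, nat_lit 82764, [nat_lit 6250000000, nat_lit 9842000000], [], [nat_lit 38441766042, nat_lit 35284671444, nat_lit 43696215100, nat_lit 43952121648], nat_lit 1271250, nat_lit 1271250, nat_lit 780000, nat_lit 3072500, nat_lit 0, nat_lit 0, [nat_lit 1412500, nat_lit 1271250], [nat_lit 51, nat_lit 40, nat_lit 20, nat_lit 80, nat_lit 1, nat_lit 401, nat_lit 175, nat_lit 12]⟩,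
 zbF0, []⟩
noncomputable def p011_l58 : Lf2 := ⟨nat_lit 0, nat_lit 5, [nat_lit 4, nat_lit 5, nat_lit 5, nat_lit 20], true, nat_lit 0, nat_lit 0, nat_lit 0, nat_lit 0, ⟨nat_lit 0, nat_lit 1000, nat_lit 0, nat_lit 5, nat_lit 152, nat_lit 0, nat_lit 0, nat_lit 0, nat_lit 0, nat_lit 0, nat_lit 0, nat_lit 0, nat_lit 0, nat_lit 0, nat_lit 0, nat_lit 5000000, false, false⟩,
 nat_lit 0, nat_lit 6906, nat_lit 0, nat_lit 7843, nat_lit 3656, nat_lit 0, nat_lit 0, nat_lit 0, nat_lit 0, nat_lit 0, nat_lit 0, nat_lit 0, nat_lit 0, nat_lit 0, nat_lit 0, nat_lit 400000, nat_lit 0, nat_lit 0, [(nat_lit 6, [(nat_lit 1, nat_lit 1000)])],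
 ⟨p011_k26, nat_lit 0, nat_lit 0, nat_lit 340, nat_lit 0, nat_lit 143915, [nat_lit 2692266667, nat_lit 3151066667, nat_lit 3294533333], [], [nat_lit 32871910459, nat_lit 30944708555, nat_lit 32657951137, nat_lit 30935222001], nat_lit 1271250, nat_lit 1271250, nat_lit 43600, nat_lit 1699500, nat_lit 0, nat_lit 0, [nat_lit 1100000, nat_lit 1442500, nat_lit 1271250], [nat_lit 11, nat_lit 40, nat_lit 20, nat_lit 80, nat_lit 1, nat_lit 345, nat_lit 125, nat_lit 10]⟩, C1.Rw.none,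
 ⟨nat_lit 5916, nat_lit 6325, ⟨.ofNat (nat_lit 126498), .ofNat (nat_lit 603600), .ofNat (nat_lit 147866), .ofNat (nat_lit 624961), .ofNat (nat_lit 144377), .ofNat (nat_lit 599841), .ofNat (nat_lit 165716), .ofNat (nat_lit 621173)⟩, ⟨.ofNat (nat_lit 0), .ofNat (nat_lit 0), .ofNat (nat_lit 0), .ofNat (nat_lit 0), .ofNat (nat_lit 0), .ofNat (nat_lit 0), .ofNat (nat_lit 0), .ofNat (nat_lit 0)⟩⟩, []⟩
noncomputable def p011_l59 : Lf2 := ⟨nat_lit 0, nat_lit 5, [nat_lit 4, nat_lit 5, nat_lit 5, nat_lit 20], false, nat_lit 0, nat_lit 0, nat_lit 0, nat_lit 0, ⟨nat_lit 1000, nat_lit 0, nat_lit 0, nat_lit 0, nat_lit 0, nat_lit 0, nat_lit 0, nat_lit 0, nat_lit 0, nat_lit 0, nat_lit 0, nat_lit 0, nat_lit 0, nat_lit 0, nat_lit 0, nat_lit 0, false, false⟩,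
 nat_lit 0, nat_lit 12733, nat_lit 0, nat_lit 29186, nat_lit 6741, nat_lit 10395, nat_lit 1689, nat_lit 0, nat_lit 0, nat_lit 0, nat_lit 0, nat_lit 0, nat_lit 0, nat_lit 0, nat_lit 0, nat_lit 0, nat_lit 0, nat_lit 0, [],
 ⟨p011_k26, nat_lit 0, nat_lit 0, nat_lit 292, nat_lit 0, nat_lit 143915, [nat_lit 4688000000, nat_lit 6250000000, nat_lit 9842000000], [], [nat_lit 28524393080, nat_lit 29160257998, nat_lit 36171072714, nat_lit 36676213304], nat_lit 1271250, nat_lit 1271250, nat_lit 1271250, nat_lit 1271250, nat_lit 0, nat_lit 0, [nat_lit 1100000, nat_lit 1442500, nat_lit 1271250], [nat_lit 11, nat_lit 40, nat_lit 20, nat_lit 80, nat_lit 1, nat_lit 401, nat_lit 175, nat_lit 11]⟩, ⟨p011_k31, nat_lit 0, nat_lit 0, nat_lit 226, nat_lit 0, nat_lit 0, [nat_lit 6250000000, nat_lit 7968000000, nat_lit 9842000000], [], [nat_lit 27862040150, nat_lit 29066250960, nat_lit 44460225440, nat_lit 44843239620],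 nat_lit 0, nat_lit 0, nat_lit 0, nat_lit 0, nat_lit 0, nat_lit 0, [], [nat_lit 25, nat_lit 40, nat_lit 20, nat_lit 80, nat_lit 17, nat_lit 401, nat_lit 175, nat_lit 11]⟩,
 zbF0, [⟨nat_lit 13, nat_lit 98, nat_lit 10, nat_lit 100, nat_lit 243454506⟩]⟩
noncomputable def p011_l60 : Lf2 := ⟨nat_lit 0, nat_lit 5, [nat_lit 4, nat_lit 5, nat_lit 5, nat_lit 20], true, nat_lit 0, nat_lit 0, nat_lit 0, nat_lit 0, ⟨nat_lit 0, nat_lit 1000, nat_lit 0, nat_lit 5, nat_lit 152, nat_lit 0, nat_lit 0, nat_lit 0, nat_lit 0, nat_lit 0, nat_lit 0, nat_lit 0, nat_lit 0, nat_lit 0, nat_lit 0, nat_lit 5000000, false, false⟩,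
 nat_lit 0, nat_lit 6906, nat_lit 0, nat_lit 7843, nat_lit 3656, nat_lit 0, nat_lit 0, nat_lit 0, nat_lit 0, nat_lit 0, nat_lit 0, nat_lit 0, nat_lit 0, nat_lit 0, nat_lit 0, nat_lit 400000, nat_lit 0, nat_lit 0, [(nat_lit 6, [(nat_lit 1, nat_lit 1000)])],
 ⟨p011_k26, nat_lit 0, nat_lit 0, nat_lit 340, nat_lit 0, nat_lit 143915, [nat_lit 2692266667, nat_lit 3151066667, nat_lit 3294533333], [], [nat_lit 32871910459, nat_lit 30944708555, nat_lit 32657951137, nat_lit 30935222001], nat_lit 1271250, nat_lit 1271250, nat_lit 43600, nat_lit 1699500, nat_lit 0, nat_lit 0, [nat_lit 1100000, nat_lit 1442500, nat_lit 1271250], [nat_lit 11, nat_lit 40, nat_lit 20, nat_lit 80, nat_lit 1, nat_lit 345, nat_lit 125, nat_lit 10]⟩, C1.Rw.none,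
 ⟨nat_lit 5916, nat_lit 6325, ⟨.ofNat (nat_lit 126498), .ofNat (nat_lit 603600), .ofNat (nat_lit 147866), .ofNat (nat_lit 624961), .ofNat (nat_lit 144377), .ofNat (nat_lit 599841), .ofNat (nat_lit 165716), .ofNat (nat_lit 621173)⟩, ⟨.ofNat (nat_lit 0), .ofNat (nat_lit 0), .ofNat (nat_lit 0), .ofNat (nat_lit 0), .ofNat (nat_lit 0), .ofNat (nat_lit 0), .ofNat (nat_lit 0), .ofNat (nat_lit 0)⟩⟩, []⟩
noncomputable def p011_l61 : Lf2 := ⟨nat_lit 0, nat_lit 5, [nat_lit 4, nat_lit 5, nat_lit 5, nat_lit 20], false, nat_lit 0, nat_lit 0, nat_lit 0, nat_lit 0, ⟨nat_lit 1000, nat_lit 0, nat_lit 0, nat_lit 0, nat_lit 0, nat_lit 0, nat_lit 0, nat_lit 0, nat_lit 0, nat_lit 0, nat_lit 0, nat_lit 0, nat_lit 0, nat_lit 0, nat_lit 0, nat_lit 0, false, false⟩,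
 nat_lit 13060, nat_lit 0, nat_lit 0, nat_lit 78979, nat_lit 6913, nat_lit 6245, nat_lit 0, nat_lit 0, nat_lit 0, nat_lit 0, nat_lit 0, nat_lit 0, nat_lit 0, nat_lit 0, nat_lit 0, nat_lit 0, nat_lit 0, nat_lit 0, [],
 ⟨p011_k26, nat_lit 0, nat_lit 0, nat_lit 235, nat_lit 0, nat_lit 73713, [nat_lit 4688000000, nat_lit 6250000000, nat_lit 9842000000], [], [nat_lit 32823470500, nat_lit 33625081138, nat_lit 41500559152, nat_lit 42006730022], nat_lit 1271250, nat_lit 1271250, nat_lit 1271250, nat_lit 1271250, nat_lit 0, nat_lit 0, [nat_lit 1100000, nat_lit 1442500, nat_lit 1271250], [nat_lit 11, nat_lit 40, nat_lit 20, nat_lit 80, nat_lit 1, nat_lit 401, nat_lit 175, nat_lit 11]⟩, ⟨p011_k31, nat_lit 0, nat_lit 0, nat_lit 255, nat_lit 0, nat_lit 82764, [nat_lit 6250000000, nat_lit 7968000000, nat_lit 9842000000], [], [nat_lit 31947489960, nat_lit 32688258740, nat_lit 41415972580, nat_lit 41752058480],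 nat_lit 1271250, nat_lit 1271250, nat_lit 1271250, nat_lit 1271250, nat_lit 0, nat_lit 0, [nat_lit 1412500, nat_lit 1271250, nat_lit 1271250], [nat_lit 25, nat_lit 40, nat_lit 20, nat_lit 80, nat_lit 17, nat_lit 401, nat_lit 175, nat_lit 11]⟩,
 zbF0, [⟨nat_lit 13, nat_lit 98, nat_lit 10, nat_lit 100, nat_lit 57017568⟩]⟩
noncomputable def b_NL_600_550_0_31 : St := ⟨false, nat_lit 2, nat_lit 2, nat_lit 0, nat_lit 20, nat_lit 240, nat_lit 260, nat_lit 220, nat_lit 240, nat_lit 8, nat_lit 400, nat_lit 0, nat_lit 0, nat_lit 0, nat_lit 0, nat_lit 0, nat_lit 0, nat_lit 40, nat_lit 48, nat_lit 0, nat_lit 0, nat_lit 0, nat_lit 0⟩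
theorem d_NL_600_550_0_31 (h : EB TB.env) : Dead b_NL_600_550_0_31 := chkB_sound0 h (T :=
(.st (nat_lit 0)
(.gv
(.st (nat_lit 1)
(.spl (nat_lit 2) (nat_lit 120)
(.leaf p011_l45)
(.leaf p011_l46))
(.spl (nat_lit 2) (nat_lit 120)
(.leaf p011_l47)
(.leaf p011_l48)))
(.leaf p011_l49))
(.gv
(.st (nat_lit 1)
(.spl (nat_lit 2) (nat_lit 120)
(.spl (nat_lit 0) (nat_lit 250)
(.spl (nat_lit 2) (nat_lit 80)
(.leaf p011_l50)
(.leaf p011_l51))
(.trZ (nat_lit 0) (nat_lit 100) (nat_lit 97) (nat_lit 35) (nat_lit 12) (.spl (nat_lit 0) (nat_lit 255)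
(.leaf p011_l52)
(.leaf p011_l53))))
(.leaf p011_l54))
(.spl (nat_lit 2) (nat_lit 120)
(.spl (nat_lit 0) (nat_lit 250)
(.leaf p011_l55)
(.trZ (nat_lit 0) (nat_lit 100) (nat_lit 97) (nat_lit 35) (nat_lit 12) (.leaf p011_l56)))
(.leaf p011_l57)))
(.st (nat_lit 1)
(.spl (nat_lit 2) (nat_lit 240)
(.leaf p011_l58)
(.leaf p011_l59))
(.spl (nat_lit 2) (nat_lit 240)
(.leaf p011_l60)
(.leaf p011_l61)))))) (by decide +kernel)
noncomputable def p011_l62 : Lf2 := ⟨nat_lit 0, nat_lit 5, [nat_lit 4, nat_lit 5, nat_lit 5, nat_lit 20], false, nat_lit 0, nat_lit 0, nat_lit 0, nat_lit 0, ⟨nat_lit 1000, nat_lit 0, nat_lit 0, nat_lit 0, nat_lit 0, nat_lit 0, nat_lit 0, nat_lit 0, nat_lit 0, nat_lit 0, nat_lit 0, nat_lit 0, nat_lit 0, nat_lit 0, nat_lit 0, nat_lit 0, false, false⟩,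
 nat_lit 0, nat_lit 0, nat_lit 0, nat_lit 1859, nat_lit 6804, nat_lit 6804, nat_lit 0, nat_lit 0, nat_lit 0, nat_lit 0, nat_lit 0, nat_lit 0, nat_lit 0, nat_lit 0, nat_lit 0, nat_lit 0, nat_lit 0, nat_lit 0, [],
 ⟨p011_k35, nat_lit 0, nat_lit 0, nat_lit 204, nat_lit 0, nat_lit 0, [nat_lit 4688000000, nat_lit 9842000000], [], [nat_lit 29023660490, nat_lit 30777445093, nat_lit 41253115824, nat_lit 41894377528], nat_lit 0, nat_lit 0, nat_lit 0, nat_lit 0, nat_lit 0, nat_lit 0, [], [nat_lit 70, nat_lit 40, nat_lit 20, nat_lit 80, nat_lit 13, nat_lit 401, nat_lit 175, nat_lit 12]⟩, ⟨p011_k35, nat_lit 0, nat_lit 0, nat_lit 204, nat_lit 0, nat_lit 0, [nat_lit 4688000000, nat_lit 9842000000], [], [nat_lit 29023660490, nat_lit 30777445093, nat_lit 41253115824, nat_lit 41894377528], nat_lit 0, nat_lit 0, nat_lit 0, nat_lit 0, nat_lit 0, nat_lit 0, [], [nat_lit 70, nat_lit 40, nat_lit 20, nat_lit 80, nat_lit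 13, nat_lit 401, nat_lit 175, nat_lit 12]⟩,
 zbF0, [⟨nat_lit 0, nat_lit 100, nat_lit 100, nat_lit 40, nat_lit 278727862⟩]⟩
noncomputable def p011_l63 : Lf2 := ⟨nat_lit 0, nat_lit 5, [nat_lit 4, nat_lit 5, nat_lit 5, nat_lit 20], true, nat_lit 0, nat_lit 0, nat_lit 0, nat_lit 0, ⟨nat_lit 0, nat_lit 0, nat_lit 1000, nat_lit 6, nat_lit 161, nat_lit 0, nat_lit 0, nat_lit 0, nat_lit 0, nat_lit 215, nat_lit 6453, nat_lit 201, nat_lit 57692077, nat_lit 0, nat_lit 0, nat_lit 2015027, false, false⟩,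
 nat_lit 0, nat_lit 0, nat_lit 0, nat_lit 0, nat_lit 3933, nat_lit 0, nat_lit 0, nat_lit 0, nat_lit 0, nat_lit 0, nat_lit 0, nat_lit 0, nat_lit 0, nat_lit 10442161775324, nat_lit 69, nat_lit 400000, nat_lit 0, nat_lit 0, [(nat_lit 6, [(nat_lit 5, nat_lit 1000)])],
 ⟨p011_k35, nat_lit 0, nat_lit 0, nat_lit 196, nat_lit 0, nat_lit 0, [nat_lit 2521600001, nat_lit 7200000], [], [nat_lit 15215126761, nat_lit 15786309674, nat_lit 17717707017, nat_lit 18138478981], nat_lit 0, nat_lit 0, nat_lit 0, nat_lit 0, nat_lit 0, nat_lit 0, [], [nat_lit 70, nat_lit 40, nat_lit 20, nat_lit 80, nat_lit 13, nat_lit 345, nat_lit 125, nat_lit 10]⟩, C1.Rw.none,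
 ⟨nat_lit 6123, nat_lit 6325, ⟨.ofNat (nat_lit 164319), .ofNat (nat_lit 624989), .ofNat (nat_lit 175003), .ofNat (nat_lit 635673), .ofNat (nat_lit 172944), .ofNat (nat_lit 623066), .ofNat (nat_lit 183618), .ofNat (nat_lit 633740)⟩, ⟨.ofNat (nat_lit 0), .ofNat (nat_lit 0), .ofNat (nat_lit 0), .ofNat (nat_lit 0), .ofNat (nat_lit 0), .ofNat (nat_lit 0), .ofNat (nat_lit 0), .ofNat (nat_lit 0)⟩⟩, [⟨nat_lit 0, nat_lit 100, nat_lit 100, nat_lit 50, nat_lit 22117398⟩]⟩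
noncomputable def p011_l64 : Lf2 := ⟨nat_lit 0, nat_lit 5, [nat_lit 4, nat_lit 5, nat_lit 5, nat_lit 20], true, nat_lit 0, nat_lit 0, nat_lit 0, nat_lit 0, ⟨nat_lit 0, nat_lit 0, nat_lit 1000, nat_lit 6, nat_lit 166, nat_lit 0, nat_lit 0, nat_lit 0, nat_lit 0, nat_lit 215, nat_lit 17576, nat_lit 200, nat_lit 57184455, nat_lit 0, nat_lit 0, nat_lit 2082952, false, false⟩,
 nat_lit 0, nat_lit 0, nat_lit 0, nat_lit 0, nat_lit 4247, nat_lit 0, nat_lit 0, nat_lit 0, nat_lit 0, nat_lit 0, nat_lit 0, nat_lit 0, nat_lit 0, nat_lit 10880526767529, nat_lit 41, nat_lit 400000, nat_lit 0, nat_lit 0, [(nat_lit 6, [(nat_lit 5, nat_lit 1000)])],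
 ⟨p011_k36, nat_lit 0, nat_lit 0, nat_lit 155, nat_lit 0, nat_lit 0, [nat_lit 2073600001, nat_lit 7600000], [], [nat_lit 13843594009, nat_lit 14501179729, nat_lit 16890946507, nat_lit 17368428453], nat_lit 0, nat_lit 0, nat_lit 0, nat_lit 0, nat_lit 0, nat_lit 0, [], [nat_lit 39, nat_lit 40, nat_lit 20, nat_lit 80, nat_lit 7, nat_lit 272, nat_lit 60, nat_lit 9]⟩, C1.Rw.none,
 ⟨nat_lit 5916, nat_lit 6124, ⟨.ofNat (nat_lit 180982), .ofNat (nat_lit 623067), .ofNat (nat_lit 202330), .ofNat (nat_lit 644413), .ofNat (nat_lit 189276), .ofNat (nat_lit 621203), .ofNat (nat_lit 210615), .ofNat (nat_lit 642539)⟩, ⟨.ofNat (nat_lit 0), .ofNat (nat_lit 0), .ofNat (nat_lit 0), .ofNat (nat_lit 0), .ofNat (nat_lit 0), .ofNat (nat_lit 0), .ofNat (nat_lit 0), .ofNat (nat_lit 0)⟩⟩, [⟨nat_lit 0, nat_lit 100, nat_lit 100, nat_lit 60, nat_lit 5098931⟩]⟩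
noncomputable def p011_l65 : Lf2 := ⟨nat_lit 0, nat_lit 5, [nat_lit 4, nat_lit 5, nat_lit 5, nat_lit 20], false, nat_lit 0, nat_lit 0, nat_lit 0, nat_lit 0, ⟨nat_lit 928, nat_lit 72, nat_lit 0, nat_lit 6, nat_lit 316, nat_lit 0, nat_lit 0, nat_lit 0, nat_lit 0, nat_lit 0, nat_lit 0, nat_lit 0, nat_lit 41287640, nat_lit 25712360, nat_lit 0, nat_lit 3329389, true, true⟩,
 nat_lit 0, nat_lit 0, nat_lit 13321, nat_lit 0, nat_lit 5730, nat_lit 7052, nat_lit 4194, nat_lit 0, nat_lit 0, nat_lit 1378, nat_lit 0, nat_lit 0, nat_lit 0, nat_lit 0, nat_lit 0, nat_lit 28800, nat_lit 0, nat_lit 0, [(nat_lit 6, [(nat_lit 1, nat_lit 72)])],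
 ⟨p011_k26, nat_lit 0, nat_lit 0, nat_lit 214, nat_lit 0, nat_lit 0, [nat_lit 4544307200, nat_lit 6026876801, nat_lit 9361558400], [], [nat_lit 22867471401, nat_lit 24060504901, nat_lit 34060381481, nat_lit 34732714241], nat_lit 0, nat_lit 0, nat_lit 0, nat_lit 0, nat_lit 0, nat_lit 0, [], [nat_lit 11, nat_lit 40, nat_lit 20, nat_lit 80, nat_lit 1, nat_lit 401, nat_lit 175, nat_lit 11]⟩, ⟨p011_k26, nat_lit 0, nat_lit 0, nat_lit 671, nat_lit 0, nat_lit 1075237, [nat_lit 4350464000, nat_lit 5800000000, nat_lit 9133376000], [], [nat_lit 31762887076, nat_lit 31909491236, nat_lit 35851590896, nat_lit 35939104536], nat_lit 1271250, nat_lit 1271250, nat_lit 1271250, nat_lit 1271250, nat_lit 0, nat_lit 0, [nat_lit 1100000, nat_lit 1442500, nat_lit 1271250], [nat_lit 11, nat_lit 40, nat_lit 20, nat_lit 80, nat_lit 1, nat_lit 401, nat_lit 175, nat_lit 11]⟩,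
 ⟨nat_lit 5916, nat_lit 6325, ⟨.ofNat (nat_lit 624961), .ofNat (nat_lit 953920), .ofNat (nat_lit 635641), .ofNat (nat_lit 964601), .ofNat (nat_lit 621173), .ofNat (nat_lit 935210), .ofNat (nat_lit 631838), .ofNat (nat_lit 945876)⟩, ⟨.ofNat (nat_lit 0), .ofNat (nat_lit 0), .ofNat (nat_lit 0), .ofNat (nat_lit 0), .ofNat (nat_lit 0), .ofNat (nat_lit 0), .ofNat (nat_lit 0), .ofNat (nat_lit 0)⟩⟩, []⟩
noncomputable def p011_l66 : Lf2 := ⟨nat_lit 0, nat_lit 5, [nat_lit 4, nat_lit 5, nat_lit 5, nat_lit 20], false, nat_lit 0, nat_lit 0, nat_lit 0, nat_lit 0, ⟨nat_lit 1000, nat_lit 0, nat_lit 0, nat_lit 0, nat_lit 0, nat_lit 0, nat_lit 0, nat_lit 0, nat_lit 0, nat_lit 0, nat_lit 0, nat_lit 0, nat_lit 0, nat_lit 0, nat_lit 0, nat_lit 0, false, false⟩,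
 nat_lit 0, nat_lit 0, nat_lit 12062, nat_lit 0, nat_lit 6560, nat_lit 6701, nat_lit 704, nat_lit 0, nat_lit 0, nat_lit 4212, nat_lit 0, nat_lit 0, nat_lit 0, nat_lit 0, nat_lit 0, nat_lit 0, nat_lit 0, nat_lit 0, [],
 ⟨p011_k36, nat_lit 0, nat_lit 0, nat_lit 182, nat_lit 0, nat_lit 0, [nat_lit 4688000000, nat_lit 7968000000], [], [nat_lit 25698455880, nat_lit 26276594960, nat_lit 37467472120, nat_lit 37829773200], nat_lit 0, nat_lit 0, nat_lit 0, nat_lit 0, nat_lit 0, nat_lit 0, [], [nat_lit 39, nat_lit 40, nat_lit 20, nat_lit 80, nat_lit 7, nat_lit 203, nat_lit 0, nat_lit 6]⟩, ⟨p011_k36, nat_lit 0, nat_lit 0, nat_lit 618, nat_lit 0, nat_lit 1092630, [nat_lit 4688000000, nat_lit 7968000000], [], [nat_lit 32674017845, nat_lit 32844674870, nat_lit 36467079256, nat_lit 36575624432], nat_lit 1271250, nat_lit 1271250, nat_lit 1271250, nat_lit 1271250, nat_lit 0, nat_lit 0, [nat_lit 1100000, nat_lit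 1785000], [nat_lit 39, nat_lit 40, nat_lit 20, nat_lit 80, nat_lit 7, nat_lit 237, nat_lit 0, nat_lit 7]⟩,
 zbF0, []⟩
noncomputable def p011_l67 : Lf2 := ⟨nat_lit 0, nat_lit 5, [nat_lit 4, nat_lit 5, nat_lit 5, nat_lit 20], false, nat_lit 0, nat_lit 0, nat_lit 0, nat_lit 0, ⟨nat_lit 409, nat_lit 591, nat_lit 0, nat_lit 6, nat_lit 228, nat_lit 0, nat_lit 0, nat_lit 0, nat_lit 0, nat_lit 0, nat_lit 0, nat_lit 0, nat_lit 0, nat_lit 0, nat_lit 0, nat_lit 5000000, false, false⟩,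
 nat_lit 0, nat_lit 0, nat_lit 0, nat_lit 1482, nat_lit 4765, nat_lit 2327, nat_lit 0, nat_lit 0, nat_lit 0, nat_lit 0, nat_lit 0, nat_lit 0, nat_lit 0, nat_lit 5859125116992, nat_lit 0, nat_lit 236400, nat_lit 0, nat_lit 0, [(nat_lit 6, [(nat_lit 1, nat_lit 591)])],
 ⟨p011_k26, nat_lit 0, nat_lit 0, nat_lit 217, nat_lit 0, nat_lit 0, [nat_lit 3508521601, nat_lit 4418530400, nat_lit 5917640667], [], [nat_lit 24792428304, nat_lit 26037462598, nat_lit 35290776508, nat_lit 35892313897], nat_lit 0, nat_lit 0, nat_lit 0, nat_lit 0, nat_lit 0, nat_lit 0, [], [nat_lit 11, nat_lit 40, nat_lit 20, nat_lit 80, nat_lit 1, nat_lit 401, nat_lit 175, nat_lit 12]⟩, ⟨p011_k26, nat_lit 0, nat_lit 0, nat_lit 217, nat_lit 0, nat_lit 0, [nat_lit 1917392000, nat_lit 2556250000, nat_lit 4025378000], [], [nat_lit 12065755621, nat_lit 12621633887, nat_lit 16416892288, nat_lit 16670311730], nat_lit 0, nat_lit 0, nat_lit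 0, nat_lit 0, nat_lit 0, nat_lit 0, [], [nat_lit 11, nat_lit 40, nat_lit 20, nat_lit 80, nat_lit 1, nat_lit 401, nat_lit 175, nat_lit 12]⟩,
 ⟨nat_lit 5916, nat_lit 6325, ⟨.ofNat (nat_lit 164319), .ofNat (nat_lit 953920), .ofNat (nat_lit 185687), .ofNat (nat_lit 975281), .ofNat (nat_lit 181423), .ofNat (nat_lit 935210), .ofNat (nat_lit 202762), .ofNat (nat_lit 956542)⟩, ⟨.ofNat (nat_lit 0), .ofNat (nat_lit 0), .ofNat (nat_lit 0), .ofNat (nat_lit 0), .ofNat (nat_lit 0), .ofNat (nat_lit 0), .ofNat (nat_lit 0), .ofNat (nat_lit 0)⟩⟩, []⟩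
noncomputable def p011_l68 : Lf2 := ⟨nat_lit 0, nat_lit 5, [nat_lit 4, nat_lit 5, nat_lit 5, nat_lit 20], true, nat_lit 0, nat_lit 0, nat_lit 0, nat_lit 0, ⟨nat_lit 0, nat_lit 1000, nat_lit 0, nat_lit 6, nat_lit 163, nat_lit 0, nat_lit 0, nat_lit 0, nat_lit 0, nat_lit 0, nat_lit 0, nat_lit 0, nat_lit 0, nat_lit 0, nat_lit 0, nat_lit 5000000, false, false⟩,
 nat_lit 0, nat_lit 0, nat_lit 0, nat_lit 0, nat_lit 3868, nat_lit 0, nat_lit 0, nat_lit 0, nat_lit 0, nat_lit 0, nat_lit 0, nat_lit 0, nat_lit 0, nat_lit 0, nat_lit 0, nat_lit 250000, nat_lit 0, nat_lit 0, [(nat_lit 6, [(nat_lit 0, nat_lit 1000)])],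
 ⟨p011_k35, nat_lit 0, nat_lit 0, nat_lit 200, nat_lit 0, nat_lit 0, [nat_lit 3128000000, nat_lit 3710400000], [], [nat_lit 22588544004, nat_lit 23722888857, nat_lit 25134251136, nat_lit 25971179024], nat_lit 0, nat_lit 0, nat_lit 0, nat_lit 0, nat_lit 0, nat_lit 0, [], [nat_lit 70, nat_lit 40, nat_lit 20, nat_lit 80, nat_lit 13, nat_lit 345, nat_lit 125, nat_lit 10]⟩, C1.Rw.none,
 ⟨nat_lit 5916, nat_lit 6325, ⟨.ofNat (nat_lit 164319), .ofNat (nat_lit 624961), .ofNat (nat_lit 185687), .ofNat (nat_lit 646322), .ofNat (nat_lit 181423), .ofNat (nat_lit 621173), .ofNat (nat_lit 202762), .ofNat (nat_lit 642505)⟩, ⟨.ofNat (nat_lit 0), .ofNat (nat_lit 0), .ofNat (nat_lit 0), .ofNat (nat_lit 0), .ofNat (nat_lit 0), .ofNat (nat_lit 0), .ofNat (nat_lit 0), .ofNat (nat_lit 0)⟩⟩, []⟩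
noncomputable def p011_l69 : Lf2 := ⟨nat_lit 0, nat_lit 5, [nat_lit 4, nat_lit 5, nat_lit 5, nat_lit 20], true, nat_lit 0, nat_lit 0, nat_lit 0, nat_lit 0, ⟨nat_lit 0, nat_lit 1000, nat_lit 0, nat_lit 6, nat_lit 318, nat_lit 0, nat_lit 0, nat_lit 0, nat_lit 0, nat_lit 0, nat_lit 0, nat_lit 0, nat_lit 0, nat_lit 0, nat_lit 0, nat_lit 5000000, true, true⟩,
 nat_lit 0, nat_lit 0, nat_lit 0, nat_lit 0, nat_lit 4074, nat_lit 0, nat_lit 0, nat_lit 0, nat_lit 0, nat_lit 0, nat_lit 0, nat_lit 0, nat_lit 0, nat_lit 10802413338892, nat_lit 0, nat_lit 400000, nat_lit 0, nat_lit 0, [(nat_lit 6, [(nat_lit 1, nat_lit 1000)])],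
 ⟨p011_k26, nat_lit 0, nat_lit 0, nat_lit 214, nat_lit 0, nat_lit 0, [nat_lit 2692266667, nat_lit 3151066667, nat_lit 3294533333], [], [nat_lit 24057812848, nat_lit 24909370032, nat_lit 32042395584, nat_lit 32565567400], nat_lit 0, nat_lit 0, nat_lit 0, nat_lit 0, nat_lit 0, nat_lit 0, [], [nat_lit 11, nat_lit 40, nat_lit 20, nat_lit 80, nat_lit 1, nat_lit 401, nat_lit 175, nat_lit 11]⟩, C1.Rw.none,
 ⟨nat_lit 5916, nat_lit 6325, ⟨.ofNat (nat_lit 624961), .ofNat (nat_lit 953920), .ofNat (nat_lit 646322), .ofNat (nat_lit 975281), .ofNat (nat_lit 621173), .ofNat (nat_lit 935210), .ofNat (nat_lit 642505), .ofNat (nat_lit 956542)⟩, ⟨.ofNat (nat_lit 0), .ofNat (nat_lit 0), .ofNat (nat_lit 0), .ofNat (nat_lit 0), .ofNat (nat_lit 0), .ofNat (nat_lit 0), .ofNat (nat_lit 0), .ofNat (nat_lit 0)⟩⟩, []⟩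
noncomputable def b_NL_600_600_0_0 : St := ⟨false, nat_lit 0, nat_lit 2, nat_lit 0, nat_lit 20, nat_lit 240, nat_lit 260, nat_lit 240, nat_lit 260, nat_lit 16, nat_lit 400, nat_lit 0, nat_lit 0, nat_lit 0, nat_lit 0, nat_lit 0, nat_lit 0, nat_lit 0, nat_lit 40, nat_lit 0, nat_lit 0, nat_lit 0, nat_lit 0⟩
theorem d_NL_600_600_0_0 (h : EB TB.env) : Dead b_NL_600_600_0_0 := chkB_sound0 h (T :=
(.gv
(.st (nat_lit 1)
(.leaf p011_l62)
(.spl (nat_lit 2) (nat_lit 240)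
(.spl (nat_lit 0) (nat_lit 250)
(.ord (.leaf p011_l63))
(.trZ (nat_lit 0) (nat_lit 100) (nat_lit 99) (nat_lit 45) (nat_lit 20) (.leaf p011_l64)))
(.spl (nat_lit 1) (nat_lit 250)
(.leaf p011_l65)
(.ord (.leaf p011_l66)))))
(.st (nat_lit 1)
(.leaf p011_l67)
(.spl (nat_lit 2) (nat_lit 240)
(.leaf p011_l68)
(.leaf p011_l69))))) (by decide +kernel)
noncomputable def p011_l70 : Lf2 := ⟨nat_lit 0, nat_lit 1, [nat_lit 19, nat_lit 5, nat_lit 5, nat_lit 20], false, nat_lit 0, nat_lit 0, nat_lit 0, nat_lit 0, ⟨nat_lit 1000, nat_lit 0, nat_lit 0, nat_lit 0, nat_lit 0, nat_lit 0, nat_lit 0, nat_lit 0, nat_lit 0, nat_lit 0, nat_lit 0, nat_lit 0, nat_lit 0, nat_lit 0, nat_lit 0, nat_lit 0, false, false⟩,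
 nat_lit 0, nat_lit 8328, nat_lit 0, nat_lit 0, nat_lit 4408, nat_lit 7809, nat_lit 0, nat_lit 0, nat_lit 0, nat_lit 0, nat_lit 0, nat_lit 0, nat_lit 0, nat_lit 0, nat_lit 0, nat_lit 0, nat_lit 0, nat_lit 0, [],
 ⟨p011_k0, nat_lit 0, nat_lit 0, nat_lit 290, nat_lit 0, nat_lit 363873, [nat_lit 4688000000, nat_lit 6250000000], [], [nat_lit 35841404218, nat_lit 36065939156, nat_lit 35473790753, nat_lit 35696005273], nat_lit 1271250, nat_lit 1271250, nat_lit 88400, nat_lit 181601, nat_lit 0, nat_lit 0, [nat_lit 1100000, nat_lit 1442500], [nat_lit 31, nat_lit 40, nat_lit 20, nat_lit 80, nat_lit 3, nat_lit 215, nat_lit 10, nat_lit 9]⟩, ⟨p011_k0, nat_lit 0, nat_lit 0, nat_lit 0, nat_lit 0, nat_lit 0, [nat_lit 4688000000, nat_lit 6250000000], [], [nat_lit 18275358155, nat_lit 18883461756, nat_lit 17093293952, nat_lit 17601533145], nat_lit 0, nat_lit 0, nat_lit 0, nat_lit 0, nat_lit 0, nat_lit 0, [],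 [nat_lit 31, nat_lit 40, nat_lit 20, nat_lit 80]⟩,
 zbF0, [⟨nat_lit 0, nat_lit 100, nat_lit 100, nat_lit 40, nat_lit 1278070060⟩]⟩
noncomputable def p011_l71 : Lf2 := ⟨nat_lit 0, nat_lit 2, [nat_lit 10, nat_lit 5, nat_lit 5, nat_lit 20], false, nat_lit 0, nat_lit 0, nat_lit 0, nat_lit 0, ⟨nat_lit 1000, nat_lit 0, nat_lit 0, nat_lit 0, nat_lit 0, nat_lit 0, nat_lit 0, nat_lit 0, nat_lit 0, nat_lit 0, nat_lit 0, nat_lit 0, nat_lit 0, nat_lit 0, nat_lit 0, nat_lit 0, false, false⟩,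
 nat_lit 0, nat_lit 16867, nat_lit 0, nat_lit 0, nat_lit 8929, nat_lit 7603, nat_lit 2671, nat_lit 0, nat_lit 0, nat_lit 4607, nat_lit 0, nat_lit 0, nat_lit 0, nat_lit 1108766291937, nat_lit 0, nat_lit 0, nat_lit 0, nat_lit 0, [],
 ⟨p011_k37, nat_lit 0, nat_lit 0, nat_lit 0, nat_lit 0, nat_lit 317808, [nat_lit 4688000000, nat_lit 5449500000, nat_lit 7089500000], [], [nat_lit 19094512733, nat_lit 19603043640, nat_lit 17948966059, nat_lit 18364026510], nat_lit 1271250, nat_lit 1271250, nat_lit 88400, nat_lit 181601, nat_lit 0, nat_lit 0, [nat_lit 1100000, nat_lit 1271250, nat_lit 1271250], [nat_lit 105, nat_lit 40, nat_lit 20, nat_lit 40]⟩, ⟨p011_k37, nat_lit 0, nat_lit 0, nat_lit 0, nat_lit 0, nat_lit 0, [nat_lit 4688000000, nat_lit 5449500000, nat_lit 7089500000], [], [nat_lit 17020046989, nat_lit 17359816901, nat_lit 15869821488, nat_lit 16154716449], nat_lit 0, nat_lit 0, nat_lit 0, nat_lit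 0, nat_lit 0, nat_lit 0, [], [nat_lit 105, nat_lit 40, nat_lit 20, nat_lit 40]⟩,
 zbF0, [⟨nat_lit 0, nat_lit 100, nat_lit 100, nat_lit 42, nat_lit 1511917650⟩]⟩
noncomputable def p011_l72 : Lf2 := ⟨nat_lit 0, nat_lit 2, [nat_lit 10, nat_lit 5, nat_lit 5, nat_lit 20], false, nat_lit 0, nat_lit 0, nat_lit 0, nat_lit 0, ⟨nat_lit 1000, nat_lit 0, nat_lit 0, nat_lit 0, nat_lit 0, nat_lit 0, nat_lit 0, nat_lit 0, nat_lit 0, nat_lit 0, nat_lit 0, nat_lit 0, nat_lit 0, nat_lit 0, nat_lit 0, nat_lit 0, false, false⟩,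
 nat_lit 0, nat_lit 9949, nat_lit 0, nat_lit 0, nat_lit 5267, nat_lit 0, nat_lit 632, nat_lit 0, nat_lit 0, nat_lit 1108, nat_lit 0, nat_lit 537, nat_lit 0, nat_lit 12775296575444, nat_lit 0, nat_lit 0, nat_lit 0, nat_lit 0, [],
 ⟨p011_k20, nat_lit 0, nat_lit 0, nat_lit 323, nat_lit 0, nat_lit 317808, [nat_lit 4688000000, nat_lit 6250000000, nat_lit 7968000000], [], [nat_lit 35880087867, nat_lit 36100270870, nat_lit 35379119840, nat_lit 35597375511], nat_lit 1271250, nat_lit 1271250, nat_lit 88400, nat_lit 181601, nat_lit 0, nat_lit 0, [nat_lit 1100000, nat_lit 1442500, nat_lit 1271250], [nat_lit 9, nat_lit 40, nat_lit 20, nat_lit 80, nat_lit 2, nat_lit 215, nat_lit 10, nat_lit 8]⟩, ⟨p011_k37, nat_lit 0, nat_lit 0, nat_lit 0, nat_lit 0, nat_lit 0, [nat_lit 4688000000, nat_lit 5449500000, nat_lit 7089500000], [], [nat_lit 6275595200, nat_lit 6412184541, nat_lit 6513987200, nat_lit 6635447061],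 nat_lit 0, nat_lit 0, nat_lit 0, nat_lit 0, nat_lit 0, nat_lit 0, [], [nat_lit 105, nat_lit 40, nat_lit 20, nat_lit 40]⟩,
 zbF0, [⟨nat_lit 0, nat_lit 100, nat_lit 100, nat_lit 40, nat_lit 866278868⟩]⟩
noncomputable def p011_l73 : Lf2 := ⟨nat_lit 2, nat_lit 2, [nat_lit 10, nat_lit 5, nat_lit 5, nat_lit 20], true, nat_lit 0, nat_lit 0, nat_lit 0, nat_lit 0, zbN0,
 nat_lit 0, nat_lit 0, nat_lit 0, nat_lit 0, nat_lit 0, nat_lit 0, nat_lit 0, nat_lit 0, nat_lit 0, nat_lit 0, nat_lit 0, nat_lit 0, nat_lit 0, nat_lit 0, nat_lit 0, nat_lit 0, nat_lit 0, nat_lit 0, [],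
 ⟨p011_k37, nat_lit 0, nat_lit 0, nat_lit 0, nat_lit 0, nat_lit 294085, [], [], [], nat_lit 1271250, nat_lit 1271250, nat_lit 88400, nat_lit 111251, nat_lit 0, nat_lit 0, [nat_lit 1100000, nat_lit 1271250, nat_lit 1271250], [nat_lit 105, nat_lit 40, nat_lit 20, nat_lit 40]⟩, C1.Rw.none,
 zbF0, []⟩
noncomputable def p011_l74 : Lf2 := ⟨nat_lit 2, nat_lit 2, [nat_lit 10, nat_lit 5, nat_lit 5, nat_lit 20], true, nat_lit 0, nat_lit 0, nat_lit 0, nat_lit 0, zbN0,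
 nat_lit 0, nat_lit 0, nat_lit 0, nat_lit 0, nat_lit 0, nat_lit 0, nat_lit 0, nat_lit 0, nat_lit 0, nat_lit 0, nat_lit 0, nat_lit 0, nat_lit 0, nat_lit 0, nat_lit 0, nat_lit 0, nat_lit 0, nat_lit 0, [],
 ⟨p011_k38, nat_lit 0, nat_lit 0, nat_lit 297, nat_lit 0, nat_lit 294085, [], [], [], nat_lit 1271250, nat_lit 1271250, nat_lit 88400, nat_lit 111251, nat_lit 0, nat_lit 0, [nat_lit 1100000, nat_lit 1785000], [nat_lit 39, nat_lit 40, nat_lit 20, nat_lit 80, nat_lit 7, nat_lit 215, nat_lit 10, nat_lit 8]⟩, C1.Rw.none,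
 zbF0, []⟩
noncomputable def p011_l75 : Lf2 := ⟨nat_lit 0, nat_lit 2, [nat_lit 10, nat_lit 5, nat_lit 5, nat_lit 20], false, nat_lit 0, nat_lit 0, nat_lit 0, nat_lit 0, ⟨nat_lit 1000, nat_lit 0, nat_lit 0, nat_lit 0, nat_lit 0, nat_lit 0, nat_lit 0, nat_lit 0, nat_lit 0, nat_lit 0, nat_lit 0, nat_lit 0, nat_lit 0, nat_lit 0, nat_lit 0, nat_lit 0, false, false⟩,
 nat_lit 0, nat_lit 9833, nat_lit 0, nat_lit 0, nat_lit 5205, nat_lit 0, nat_lit 955, nat_lit 0, nat_lit 0, nat_lit 761, nat_lit 0, nat_lit 432, nat_lit 0, nat_lit 0, nat_lit 0, nat_lit 0, nat_lit 0, nat_lit 0, [],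
 ⟨p011_k20, nat_lit 0, nat_lit 0, nat_lit 306, nat_lit 0, nat_lit 294085, [nat_lit 4688000000, nat_lit 6250000000, nat_lit 7968000000], [], [nat_lit 35333012140, nat_lit 35374121622, nat_lit 35021992175, nat_lit 35065442050], nat_lit 1271250, nat_lit 1271250, nat_lit 111251, nat_lit 181601, nat_lit 0, nat_lit 0, [nat_lit 1100000, nat_lit 1442500, nat_lit 1271250], [nat_lit 9, nat_lit 40, nat_lit 20, nat_lit 80, nat_lit 2, nat_lit 215, nat_lit 10, nat_lit 8]⟩, ⟨p011_k39, nat_lit 0, nat_lit 0, nat_lit 0, nat_lit 0, nat_lit 0, [nat_lit 2032000000, nat_lit 4688000000, nat_lit 6250000000, nat_lit 7089500000], [], [nat_lit 8825132000, nat_lit 8863648200, nat_lit 9036848000, nat_lit 9074966220], nat_lit 0, nat_lit 0, nat_lit 0, nat_lit 0, nat_lit 0, nat_lit 0, [], [nat_lit 101, nat_lit 40, nat_lit 20, nat_lit 40]⟩,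
 zbF0, []⟩
noncomputable def p011_l76 : Lf2 := ⟨nat_lit 2, nat_lit 2, [nat_lit 10, nat_lit 5, nat_lit 5, nat_lit 20], true, nat_lit 0, nat_lit 0, nat_lit 0, nat_lit 0, zbN0,
 nat_lit 0, nat_lit 0, nat_lit 0, nat_lit 0, nat_lit 0, nat_lit 0, nat_lit 0, nat_lit 0, nat_lit 0, nat_lit 0, nat_lit 0, nat_lit 0, nat_lit 0, nat_lit 0, nat_lit 0, nat_lit 0, nat_lit 0, nat_lit 0, [],
 ⟨p011_k40, nat_lit 0, nat_lit 0, nat_lit 0, nat_lit 0, nat_lit 296545, [], [], [], nat_lit 1271250, nat_lit 1271250, nat_lit 88400, nat_lit 111251, nat_lit 0, nat_lit 0, [nat_lit 1100000, nat_lit 1271250, nat_lit 1271250], [nat_lit 105, nat_lit 40, nat_lit 20, nat_lit 40]⟩, C1.Rw.none,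
 zbF0, []⟩
noncomputable def p011_l77 : Lf2 := ⟨nat_lit 2, nat_lit 2, [nat_lit 10, nat_lit 5, nat_lit 5, nat_lit 20], true, nat_lit 0, nat_lit 0, nat_lit 0, nat_lit 0, zbN0,
 nat_lit 0, nat_lit 0, nat_lit 0, nat_lit 0, nat_lit 0, nat_lit 0, nat_lit 0, nat_lit 0, nat_lit 0, nat_lit 0, nat_lit 0, nat_lit 0, nat_lit 0, nat_lit 0, nat_lit 0, nat_lit 0, nat_lit 0, nat_lit 0, [],
 ⟨p011_k41, nat_lit 0, nat_lit 0, nat_lit 298, nat_lit 0, nat_lit 296545, [], [], [], nat_lit 1271250, nat_lit 1271250, nat_lit 88400, nat_lit 111251, nat_lit 0, nat_lit 0, [nat_lit 1100000, nat_lit 1785000], [nat_lit 39, nat_lit 40, nat_lit 20, nat_lit 80, nat_lit 7, nat_lit 215, nat_lit 10, nat_lit 8]⟩, C1.Rw.none,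
 zbF0, []⟩
noncomputable def p011_l78 : Lf2 := ⟨nat_lit 0, nat_lit 2, [nat_lit 10, nat_lit 5, nat_lit 5, nat_lit 20], false, nat_lit 0, nat_lit 0, nat_lit 0, nat_lit 0, ⟨nat_lit 1000, nat_lit 0, nat_lit 0, nat_lit 0, nat_lit 0, nat_lit 0, nat_lit 0, nat_lit 0, nat_lit 0, nat_lit 0, nat_lit 0, nat_lit 0, nat_lit 0, nat_lit 0, nat_lit 0, nat_lit 0, false, false⟩,
 nat_lit 0, nat_lit 9864, nat_lit 0, nat_lit 0, nat_lit 5247, nat_lit 0, nat_lit 960, nat_lit 0, nat_lit 0, nat_lit 761, nat_lit 0, nat_lit 432, nat_lit 0, nat_lit 0, nat_lit 0, nat_lit 0, nat_lit 0, nat_lit 0, [],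
 ⟨p011_k42, nat_lit 0, nat_lit 0, nat_lit 308, nat_lit 0, nat_lit 296545, [nat_lit 4688000000, nat_lit 6250000000, nat_lit 7968000000], [], [nat_lit 35162041260, nat_lit 35201763880, nat_lit 34845112652, nat_lit 34888698864], nat_lit 1271250, nat_lit 1271250, nat_lit 111251, nat_lit 181601, nat_lit 0, nat_lit 0, [nat_lit 1100000, nat_lit 1442500, nat_lit 1271250], [nat_lit 9, nat_lit 40, nat_lit 20, nat_lit 80, nat_lit 2, nat_lit 215, nat_lit 10, nat_lit 8]⟩, ⟨p011_k39, nat_lit 0, nat_lit 0, nat_lit 0, nat_lit 0, nat_lit 0, [nat_lit 2032000000, nat_lit 4688000000, nat_lit 6250000000, nat_lit 7089500000], [], [nat_lit 8825132000, nat_lit 8863648200, nat_lit 9036848000, nat_lit 9074966220], nat_lit 0, nat_lit 0, nat_lit 0, nat_lit 0, nat_lit 0, nat_lit 0, [], [nat_lit 101, nat_lit 40, nat_lit 20, nat_lit 40]⟩,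
 zbF0, []⟩
noncomputable def p011_l79 : Lf2 := ⟨nat_lit 2, nat_lit 2, [nat_lit 10, nat_lit 5, nat_lit 5, nat_lit 20], true, nat_lit 0, nat_lit 0, nat_lit 0, nat_lit 0, zbN0,
 nat_lit 0, nat_lit 0, nat_lit 0, nat_lit 0, nat_lit 0, nat_lit 0, nat_lit 0, nat_lit 0, nat_lit 0, nat_lit 0, nat_lit 0, nat_lit 0, nat_lit 0, nat_lit 0, nat_lit 0, nat_lit 0, nat_lit 0, nat_lit 0, [],
 ⟨p011_k37, nat_lit 0, nat_lit 0, nat_lit 0, nat_lit 0, nat_lit 294085, [], [], [], nat_lit 1271250, nat_lit 1271250, nat_lit 88400, nat_lit 111251, nat_lit 0, nat_lit 0, [nat_lit 1100000, nat_lit 1271250, nat_lit 1271250], [nat_lit 105, nat_lit 40, nat_lit 20, nat_lit 40]⟩, C1.Rw.none,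
 zbF0, []⟩
noncomputable def p011_l80 : Lf2 := ⟨nat_lit 2, nat_lit 2, [nat_lit 10, nat_lit 5, nat_lit 5, nat_lit 20], true, nat_lit 0, nat_lit 0, nat_lit 0, nat_lit 0, zbN0,
 nat_lit 0, nat_lit 0, nat_lit 0, nat_lit 0, nat_lit 0, nat_lit 0, nat_lit 0, nat_lit 0, nat_lit 0, nat_lit 0, nat_lit 0, nat_lit 0, nat_lit 0, nat_lit 0, nat_lit 0, nat_lit 0, nat_lit 0, nat_lit 0, [],
 ⟨p011_k38, nat_lit 0, nat_lit 0, nat_lit 297, nat_lit 0, nat_lit 294085, [], [], [], nat_lit 1271250, nat_lit 1271250, nat_lit 88400, nat_lit 111251, nat_lit 0, nat_lit 0, [nat_lit 1100000, nat_lit 1785000], [nat_lit 39, nat_lit 40, nat_lit 20, nat_lit 80, nat_lit 7, nat_lit 215, nat_lit 10, nat_lit 8]⟩, C1.Rw.none,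
 zbF0, []⟩
noncomputable def p011_l81 : Lf2 := ⟨nat_lit 0, nat_lit 2, [nat_lit 10, nat_lit 5, nat_lit 5, nat_lit 20], false, nat_lit 0, nat_lit 0, nat_lit 0, nat_lit 0, ⟨nat_lit 1000, nat_lit 0, nat_lit 0, nat_lit 0, nat_lit 0, nat_lit 0, nat_lit 0, nat_lit 0, nat_lit 0, nat_lit 0, nat_lit 0, nat_lit 0, nat_lit 0, nat_lit 0, nat_lit 0, nat_lit 0, false, false⟩,
 nat_lit 0, nat_lit 11077, nat_lit 0, nat_lit 0, nat_lit 5864, nat_lit 3800, nat_lit 0, nat_lit 0, nat_lit 0, nat_lit 2201, nat_lit 0, nat_lit 0, nat_lit 0, nat_lit 9550649840637, nat_lit 0, nat_lit 0, nat_lit 0, nat_lit 0, [],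
 ⟨p011_k20, nat_lit 0, nat_lit 0, nat_lit 306, nat_lit 0, nat_lit 294085, [nat_lit 4688000000, nat_lit 6250000000, nat_lit 7968000000], [], [nat_lit 35295915712, nat_lit 35277544778, nat_lit 34860574081, nat_lit 34906163148], nat_lit 1271250, nat_lit 1271250, nat_lit 111251, nat_lit 181601, nat_lit 0, nat_lit 0, [nat_lit 1100000, nat_lit 1442500, nat_lit 1271250], [nat_lit 9, nat_lit 40, nat_lit 20, nat_lit 80, nat_lit 2, nat_lit 215, nat_lit 10, nat_lit 8]⟩, ⟨p011_k39, nat_lit 0, nat_lit 0, nat_lit 0, nat_lit 0, nat_lit 0, [nat_lit 2032000000, nat_lit 4688000000, nat_lit 6250000000, nat_lit 7089500000], [], [nat_lit 17622990400, nat_lit 17699143600, nat_lit 17339453920, nat_lit 17415086956], nat_lit 0, nat_lit 0, nat_lit 0, nat_lit 0, nat_lit 0, nat_lit 0, [], [nat_lit 101, nat_lit 40, nat_lit 20, nat_lit 40]⟩,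
 zbF0, []⟩
noncomputable def p011_l82 : Lf2 := ⟨nat_lit 2, nat_lit 2, [nat_lit 10, nat_lit 5, nat_lit 5, nat_lit 20], true, nat_lit 0, nat_lit 0, nat_lit 0, nat_lit 0, zbN0,
 nat_lit 0, nat_lit 0, nat_lit 0, nat_lit 0, nat_lit 0, nat_lit 0, nat_lit 0, nat_lit 0, nat_lit 0, nat_lit 0, nat_lit 0, nat_lit 0, nat_lit 0, nat_lit 0, nat_lit 0, nat_lit 0, nat_lit 0, nat_lit 0, [],
 ⟨p011_k40, nat_lit 0, nat_lit 0, nat_lit 0, nat_lit 0, nat_lit 296545, [], [], [], nat_lit 1271250, nat_lit 1271250, nat_lit 88400, nat_lit 111251, nat_lit 0, nat_lit 0, [nat_lit 1100000, nat_lit 1271250, nat_lit 1271250], [nat_lit 105, nat_lit 40, nat_lit 20, nat_lit 40]⟩, C1.Rw.none,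
 zbF0, []⟩
noncomputable def p011_l83 : Lf2 := ⟨nat_lit 2, nat_lit 2, [nat_lit 10, nat_lit 5, nat_lit 5, nat_lit 20], true, nat_lit 0, nat_lit 0, nat_lit 0, nat_lit 0, zbN0,
 nat_lit 0, nat_lit 0, nat_lit 0, nat_lit 0, nat_lit 0, nat_lit 0, nat_lit 0, nat_lit 0, nat_lit 0, nat_lit 0, nat_lit 0, nat_lit 0, nat_lit 0, nat_lit 0, nat_lit 0, nat_lit 0, nat_lit 0, nat_lit 0, [],
 ⟨p011_k41, nat_lit 0, nat_lit 0, nat_lit 298, nat_lit 0, nat_lit 296545, [], [], [], nat_lit 1271250, nat_lit 1271250, nat_lit 88400, nat_lit 111251, nat_lit 0, nat_lit 0, [nat_lit 1100000, nat_lit 1785000], [nat_lit 39, nat_lit 40, nat_lit 20, nat_lit 80, nat_lit 7, nat_lit 215, nat_lit 10, nat_lit 8]⟩, C1.Rw.none,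
 zbF0, []⟩
noncomputable def p011_l84 : Lf2 := ⟨nat_lit 0, nat_lit 2, [nat_lit 10, nat_lit 5, nat_lit 5, nat_lit 20], false, nat_lit 0, nat_lit 0, nat_lit 0, nat_lit 0, ⟨nat_lit 1000, nat_lit 0, nat_lit 0, nat_lit 0, nat_lit 0, nat_lit 0, nat_lit 0, nat_lit 0, nat_lit 0, nat_lit 0, nat_lit 0, nat_lit 0, nat_lit 0, nat_lit 0, nat_lit 0, nat_lit 0, false, false⟩,
 nat_lit 0, nat_lit 11142, nat_lit 0, nat_lit 0, nat_lit 5927, nat_lit 3796, nat_lit 0, nat_lit 0, nat_lit 0, nat_lit 2196, nat_lit 0, nat_lit 0, nat_lit 0, nat_lit 0, nat_lit 0, nat_lit 0, nat_lit 0, nat_lit 0, [],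
 ⟨p011_k42, nat_lit 0, nat_lit 0, nat_lit 308, nat_lit 0, nat_lit 296545, [nat_lit 4688000000, nat_lit 6250000000, nat_lit 7968000000], [], [nat_lit 35139188372, nat_lit 35168736504, nat_lit 34745145614, nat_lit 34790939187], nat_lit 1271250, nat_lit 1271250, nat_lit 111251, nat_lit 181601, nat_lit 0, nat_lit 0, [nat_lit 1100000, nat_lit 1442500, nat_lit 1271250], [nat_lit 9, nat_lit 40, nat_lit 20, nat_lit 80, nat_lit 2, nat_lit 215, nat_lit 10, nat_lit 8]⟩, ⟨p011_k39, nat_lit 0, nat_lit 0, nat_lit 0, nat_lit 0, nat_lit 0, [nat_lit 2032000000, nat_lit 4688000000, nat_lit 6250000000, nat_lit 7089500000], [], [nat_lit 17630074368, nat_lit 17702919035, nat_lit 17343446967, nat_lit 17419040514], nat_lit 0, nat_lit 0, nat_lit 0, nat_lit 0, nat_lit 0, nat_lit 0, [], [nat_lit 101, nat_lit 40, nat_lit 20, nat_lit 40]⟩,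
 zbF0, []⟩
noncomputable def p011_l85 : Lf2 := ⟨nat_lit 2, nat_lit 2, [nat_lit 10, nat_lit 5, nat_lit 5, nat_lit 20], true, nat_lit 0, nat_lit 0, nat_lit 0, nat_lit 0, zbN0,
 nat_lit 0, nat_lit 0, nat_lit 0, nat_lit 0, nat_lit 0, nat_lit 0, nat_lit 0, nat_lit 0, nat_lit 0, nat_lit 0, nat_lit 0, nat_lit 0, nat_lit 0, nat_lit 0, nat_lit 0, nat_lit 0, nat_lit 0, nat_lit 0, [],
 ⟨p011_k40, nat_lit 0, nat_lit 0, nat_lit 0, nat_lit 0, nat_lit 300455, [], [], [], nat_lit 1271250, nat_lit 1271250, nat_lit 88400, nat_lit 111251, nat_lit 0, nat_lit 0, [nat_lit 1100000, nat_lit 1271250, nat_lit 1271250], [nat_lit 105, nat_lit 40, nat_lit 20, nat_lit 40]⟩, C1.Rw.none,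
 zbF0, []⟩
noncomputable def p011_l86 : Lf2 := ⟨nat_lit 2, nat_lit 2, [nat_lit 10, nat_lit 5, nat_lit 5, nat_lit 20], true, nat_lit 0, nat_lit 0, nat_lit 0, nat_lit 0, zbN0,
 nat_lit 0, nat_lit 0, nat_lit 0, nat_lit 0, nat_lit 0, nat_lit 0, nat_lit 0, nat_lit 0, nat_lit 0, nat_lit 0, nat_lit 0, nat_lit 0, nat_lit 0, nat_lit 0, nat_lit 0, nat_lit 0, nat_lit 0, nat_lit 0, [],
 ⟨p011_k41, nat_lit 0, nat_lit 0, nat_lit 299, nat_lit 0, nat_lit 300455, [], [], [], nat_lit 1271250, nat_lit 1271250, nat_lit 88400, nat_lit 111251, nat_lit 0, nat_lit 0, [nat_lit 1100000, nat_lit 1785000], [nat_lit 39, nat_lit 40, nat_lit 20, nat_lit 80, nat_lit 7, nat_lit 215, nat_lit 10, nat_lit 8]⟩, C1.Rw.none,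
 zbF0, []⟩
noncomputable def p011_l87 : Lf2 := ⟨nat_lit 0, nat_lit 2, [nat_lit 10, nat_lit 5, nat_lit 5, nat_lit 20], false, nat_lit 0, nat_lit 0, nat_lit 0, nat_lit 0, ⟨nat_lit 1000, nat_lit 0, nat_lit 0, nat_lit 0, nat_lit 0, nat_lit 0, nat_lit 0, nat_lit 0, nat_lit 0, nat_lit 0, nat_lit 0, nat_lit 0, nat_lit 0, nat_lit 0, nat_lit 0, nat_lit 0, false, false⟩,
 nat_lit 0, nat_lit 9868, nat_lit 0, nat_lit 0, nat_lit 5249, nat_lit 0, nat_lit 956, nat_lit 0, nat_lit 0, nat_lit 763, nat_lit 0, nat_lit 432, nat_lit 0, nat_lit 11504897765, nat_lit 0, nat_lit 0, nat_lit 0, nat_lit 0, [],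
 ⟨p011_k42, nat_lit 0, nat_lit 0, nat_lit 309, nat_lit 0, nat_lit 300455, [nat_lit 4688000000, nat_lit 6250000000, nat_lit 7968000000], [], [nat_lit 35162014487, nat_lit 35203674094, nat_lit 34846825984, nat_lit 34890418688], nat_lit 1271250, nat_lit 1271250, nat_lit 111251, nat_lit 181601, nat_lit 0, nat_lit 0, [nat_lit 1100000, nat_lit 1442500, nat_lit 1271250], [nat_lit 9, nat_lit 40, nat_lit 20, nat_lit 80, nat_lit 2, nat_lit 215, nat_lit 10, nat_lit 8]⟩, ⟨p011_k43, nat_lit 0, nat_lit 0, nat_lit 0, nat_lit 0, nat_lit 0, [nat_lit 2032000000, nat_lit 4688000000, nat_lit 6250000000, nat_lit 7089500000], [], [nat_lit 8837877850, nat_lit 8877244275, nat_lit 9048738095, nat_lit 9086856315], nat_lit 0, nat_lit 0, nat_lit 0, nat_lit 0, nat_lit 0, nat_lit 0, [], [nat_lit 101, nat_lit 40, nat_lit 20, nat_lit 40]⟩,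
 zbF0, []⟩
noncomputable def p011_l88 : Lf2 := ⟨nat_lit 2, nat_lit 2, [nat_lit 10, nat_lit 5, nat_lit 5, nat_lit 20], true, nat_lit 0, nat_lit 0, nat_lit 0, nat_lit 0, zbN0,
 nat_lit 0, nat_lit 0, nat_lit 0, nat_lit 0, nat_lit 0, nat_lit 0, nat_lit 0, nat_lit 0, nat_lit 0, nat_lit 0, nat_lit 0, nat_lit 0, nat_lit 0, nat_lit 0, nat_lit 0, nat_lit 0, nat_lit 0, nat_lit 0, [],
 ⟨p011_k40, nat_lit 0, nat_lit 0, nat_lit 0, nat_lit 0, nat_lit 300455, [], [], [], nat_lit 1271250, nat_lit 1271250, nat_lit 88400, nat_lit 111251, nat_lit 0, nat_lit 0, [nat_lit 1100000, nat_lit 1271250, nat_lit 1271250], [nat_lit 105, nat_lit 40, nat_lit 20, nat_lit 40]⟩, C1.Rw.none,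
 zbF0, []⟩
noncomputable def p011_l89 : Lf2 := ⟨nat_lit 2, nat_lit 2, [nat_lit 10, nat_lit 5, nat_lit 5, nat_lit 20], true, nat_lit 0, nat_lit 0, nat_lit 0, nat_lit 0, zbN0,
 nat_lit 0, nat_lit 0, nat_lit 0, nat_lit 0, nat_lit 0, nat_lit 0, nat_lit 0, nat_lit 0, nat_lit 0, nat_lit 0, nat_lit 0, nat_lit 0, nat_lit 0, nat_lit 0, nat_lit 0, nat_lit 0, nat_lit 0, nat_lit 0, [],
 ⟨p011_k41, nat_lit 0, nat_lit 0, nat_lit 299, nat_lit 0, nat_lit 300455, [], [], [], nat_lit 1271250, nat_lit 1271250, nat_lit 88400, nat_lit 111251, nat_lit 0, nat_lit 0, [nat_lit 1100000, nat_lit 1785000], [nat_lit 39, nat_lit 40, nat_lit 20, nat_lit 80, nat_lit 7, nat_lit 215, nat_lit 10, nat_lit 8]⟩, C1.Rw.none,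
 zbF0, []⟩
noncomputable def p011_l90 : Lf2 := ⟨nat_lit 0, nat_lit 2, [nat_lit 10, nat_lit 5, nat_lit 5, nat_lit 20], false, nat_lit 0, nat_lit 0, nat_lit 0, nat_lit 0, ⟨nat_lit 1000, nat_lit 0, nat_lit 0, nat_lit 0, nat_lit 0, nat_lit 0, nat_lit 0, nat_lit 0, nat_lit 0, nat_lit 0, nat_lit 0, nat_lit 0, nat_lit 0, nat_lit 0, nat_lit 0, nat_lit 0, false, false⟩,
 nat_lit 0, nat_lit 11181, nat_lit 0, nat_lit 0, nat_lit 5948, nat_lit 3796, nat_lit 0, nat_lit 0, nat_lit 0, nat_lit 2204, nat_lit 0, nat_lit 0, nat_lit 0, nat_lit 9724333592314, nat_lit 0, nat_lit 0, nat_lit 0, nat_lit 0, [],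
 ⟨p011_k42, nat_lit 0, nat_lit 0, nat_lit 309, nat_lit 0, nat_lit 300455, [nat_lit 4688000000, nat_lit 6250000000, nat_lit 7968000000], [], [nat_lit 35137463504, nat_lit 35117131247, nat_lit 34691473102, nat_lit 34737334844], nat_lit 1271250, nat_lit 1271250, nat_lit 111251, nat_lit 181601, nat_lit 0, nat_lit 0, [nat_lit 1100000, nat_lit 1442500, nat_lit 1271250], [nat_lit 9, nat_lit 40, nat_lit 20, nat_lit 80, nat_lit 2, nat_lit 215, nat_lit 10, nat_lit 8]⟩, ⟨p011_k43, nat_lit 0, nat_lit 0, nat_lit 0, nat_lit 0, nat_lit 0, [nat_lit 2032000000, nat_lit 4688000000, nat_lit 6250000000, nat_lit 7089500000], [], [nat_lit 17626844035, nat_lit 17702926412, nat_lit 17343278014, nat_lit 17418871560], nat_lit 0, nat_lit 0, nat_lit 0, nat_lit 0, nat_lit 0, nat_lit 0, [], [nat_lit 101, nat_lit 40, nat_lit 20, nat_lit 40]⟩,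
 zbF0, []⟩
noncomputable def p011_l91 : Lf2 := ⟨nat_lit 2, nat_lit 2, [nat_lit 10, nat_lit 5, nat_lit 5, nat_lit 20], true, nat_lit 0, nat_lit 0, nat_lit 0, nat_lit 0, zbN0,
 nat_lit 0, nat_lit 0, nat_lit 0, nat_lit 0, nat_lit 0, nat_lit 0, nat_lit 0, nat_lit 0, nat_lit 0, nat_lit 0, nat_lit 0, nat_lit 0, nat_lit 0, nat_lit 0, nat_lit 0, nat_lit 0, nat_lit 0, nat_lit 0, [],
 ⟨p011_k44, nat_lit 0, nat_lit 0, nat_lit 0, nat_lit 0, nat_lit 298978, [], [], [], nat_lit 1271250, nat_lit 1271250, nat_lit 88400, nat_lit 111251, nat_lit 0, nat_lit 0, [nat_lit 1100000, nat_lit 1271250, nat_lit 1271250], [nat_lit 105, nat_lit 40, nat_lit 20, nat_lit 40]⟩, C1.Rw.none,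
 zbF0, []⟩
noncomputable def p011_l92 : Lf2 := ⟨nat_lit 2, nat_lit 2, [nat_lit 10, nat_lit 5, nat_lit 5, nat_lit 20], true, nat_lit 0, nat_lit 0, nat_lit 0, nat_lit 0, zbN0,
 nat_lit 0, nat_lit 0, nat_lit 0, nat_lit 0, nat_lit 0, nat_lit 0, nat_lit 0, nat_lit 0, nat_lit 0, nat_lit 0, nat_lit 0, nat_lit 0, nat_lit 0, nat_lit 0, nat_lit 0, nat_lit 0, nat_lit 0, nat_lit 0, [],
 ⟨p011_k45, nat_lit 0, nat_lit 0, nat_lit 299, nat_lit 0, nat_lit 298978, [], [], [], nat_lit 1271250, nat_lit 1271250, nat_lit 88400, nat_lit 111251, nat_lit 0, nat_lit 0, [nat_lit 1100000, nat_lit 1785000], [nat_lit 39, nat_lit 40, nat_lit 20, nat_lit 80, nat_lit 7, nat_lit 215, nat_lit 10, nat_lit 8]⟩, C1.Rw.none,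
 zbF0, []⟩
noncomputable def p011_l93 : Lf2 := ⟨nat_lit 0, nat_lit 2, [nat_lit 10, nat_lit 5, nat_lit 5, nat_lit 20], false, nat_lit 0, nat_lit 0, nat_lit 0, nat_lit 0, ⟨nat_lit 1000, nat_lit 0, nat_lit 0, nat_lit 0, nat_lit 0, nat_lit 0, nat_lit 0, nat_lit 0, nat_lit 0, nat_lit 0, nat_lit 0, nat_lit 0, nat_lit 0, nat_lit 0, nat_lit 0, nat_lit 0, false, false⟩,
 nat_lit 0, nat_lit 9892, nat_lit 0, nat_lit 0, nat_lit 5288, nat_lit 0, nat_lit 964, nat_lit 0, nat_lit 0, nat_lit 761, nat_lit 0, nat_lit 432, nat_lit 0, nat_lit 0, nat_lit 0, nat_lit 0, nat_lit 0, nat_lit 0, [],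
 ⟨p011_k46, nat_lit 0, nat_lit 0, nat_lit 309, nat_lit 0, nat_lit 298978, [nat_lit 4688000000, nat_lit 6250000000, nat_lit 7968000000], [], [nat_lit 34982707415, nat_lit 35020808758, nat_lit 34659730266, nat_lit 34703449568], nat_lit 1271250, nat_lit 1271250, nat_lit 111251, nat_lit 181601, nat_lit 0, nat_lit 0, [nat_lit 1100000, nat_lit 1442500, nat_lit 1271250], [nat_lit 9, nat_lit 40, nat_lit 20, nat_lit 80, nat_lit 2, nat_lit 215, nat_lit 10, nat_lit 8]⟩, ⟨p011_k39, nat_lit 0, nat_lit 0, nat_lit 0, nat_lit 0, nat_lit 0, [nat_lit 2032000000, nat_lit 4688000000, nat_lit 6250000000, nat_lit 7089500000], [], [nat_lit 8825132000, nat_lit 8863648200, nat_lit 9036848000, nat_lit 9074966220], nat_lit 0, nat_lit 0, nat_lit 0, nat_lit 0, nat_lit 0, nat_lit 0, [], [nat_lit 101, nat_lit 40, nat_lit 20, nat_lit 40]⟩,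
 zbF0, []⟩
noncomputable def p011_l94 : Lf2 := ⟨nat_lit 0, nat_lit 2, [nat_lit 10, nat_lit 5, nat_lit 5, nat_lit 20], false, nat_lit 0, nat_lit 0, nat_lit 0, nat_lit 0, ⟨nat_lit 1000, nat_lit 0, nat_lit 0, nat_lit 0, nat_lit 0, nat_lit 0, nat_lit 0, nat_lit 0, nat_lit 0, nat_lit 0, nat_lit 0, nat_lit 0, nat_lit 0, nat_lit 0, nat_lit 0, nat_lit 0, false, false⟩,
 nat_lit 0, nat_lit 8277, nat_lit 0, nat_lit 0, nat_lit 4424, nat_lit 0, nat_lit 1938, nat_lit 0, nat_lit 0, nat_lit 761, nat_lit 0, nat_lit 434, nat_lit 0, nat_lit 0, nat_lit 0, nat_lit 0, nat_lit 0, nat_lit 0, [],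
 ⟨p011_k46, nat_lit 0, nat_lit 0, nat_lit 316, nat_lit 0, nat_lit 302893, [nat_lit 4688000000, nat_lit 6250000000, nat_lit 7968000000], [], [nat_lit 35468042438, nat_lit 35509369987, nat_lit 35084572340, nat_lit 35128978146], nat_lit 1271250, nat_lit 1271250, nat_lit 88400, nat_lit 181601, nat_lit 0, nat_lit 0, [nat_lit 1100000, nat_lit 1442500, nat_lit 1271250], [nat_lit 9, nat_lit 40, nat_lit 20, nat_lit 80, nat_lit 2, nat_lit 215, nat_lit 10, nat_lit 8]⟩, ⟨p011_k43, nat_lit 0, nat_lit 0, nat_lit 0, nat_lit 0, nat_lit 0, [nat_lit 2032000000, nat_lit 4688000000, nat_lit 6250000000, nat_lit 7089500000], [], [nat_lit 8753885045, nat_lit 8793753465, nat_lit 8996699566, nat_lit 9036318505], nat_lit 0, nat_lit 0, nat_lit 0, nat_lit 0, nat_lit 0, nat_lit 0, [], [nat_lit 101, nat_lit 40, nat_lit 20, nat_lit 40]⟩,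
 zbF0, [⟨nat_lit 0, nat_lit 100, nat_lit 100, nat_lit 42, nat_lit 833025416⟩]⟩
noncomputable def p011_l95 : Lf2 := ⟨nat_lit 2, nat_lit 2, [nat_lit 10, nat_lit 5, nat_lit 5, nat_lit 20], true, nat_lit 0, nat_lit 0, nat_lit 0, nat_lit 0, zbN0,
 nat_lit 0, nat_lit 0, nat_lit 0, nat_lit 0, nat_lit 0, nat_lit 0, nat_lit 0, nat_lit 0, nat_lit 0, nat_lit 0, nat_lit 0, nat_lit 0, nat_lit 0, nat_lit 0, nat_lit 0, nat_lit 0, nat_lit 0, nat_lit 0, [],
 ⟨p011_k44, nat_lit 0, nat_lit 0, nat_lit 0, nat_lit 0, nat_lit 298978, [], [], [], nat_lit 1271250, nat_lit 1271250, nat_lit 88400, nat_lit 111251, nat_lit 0, nat_lit 0, [nat_lit 1100000, nat_lit 1271250, nat_lit 1271250], [nat_lit 105, nat_lit 40, nat_lit 20, nat_lit 40]⟩, C1.Rw.none,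
 zbF0, []⟩
noncomputable def p011_l96 : Lf2 := ⟨nat_lit 2, nat_lit 2, [nat_lit 10, nat_lit 5, nat_lit 5, nat_lit 20], true, nat_lit 0, nat_lit 0, nat_lit 0, nat_lit 0, zbN0,
 nat_lit 0, nat_lit 0, nat_lit 0, nat_lit 0, nat_lit 0, nat_lit 0, nat_lit 0, nat_lit 0, nat_lit 0, nat_lit 0, nat_lit 0, nat_lit 0, nat_lit 0, nat_lit 0, nat_lit 0, nat_lit 0, nat_lit 0, nat_lit 0, [],
 ⟨p011_k45, nat_lit 0, nat_lit 0, nat_lit 299, nat_lit 0, nat_lit 298978, [], [], [], nat_lit 1271250, nat_lit 1271250, nat_lit 88400, nat_lit 111251, nat_lit 0, nat_lit 0, [nat_lit 1100000, nat_lit 1785000], [nat_lit 39, nat_lit 40, nat_lit 20, nat_lit 80, nat_lit 7, nat_lit 215, nat_lit 10, nat_lit 8]⟩, C1.Rw.none,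
 zbF0, []⟩
noncomputable def p011_l97 : Lf2 := ⟨nat_lit 0, nat_lit 2, [nat_lit 10, nat_lit 5, nat_lit 5, nat_lit 20], false, nat_lit 0, nat_lit 0, nat_lit 0, nat_lit 0, ⟨nat_lit 1000, nat_lit 0, nat_lit 0, nat_lit 0, nat_lit 0, nat_lit 0, nat_lit 0, nat_lit 0, nat_lit 0, nat_lit 0, nat_lit 0, nat_lit 0, nat_lit 0, nat_lit 0, nat_lit 0, nat_lit 0, false, false⟩,
 nat_lit 0, nat_lit 11248, nat_lit 0, nat_lit 0, nat_lit 6013, nat_lit 3796, nat_lit 0, nat_lit 0, nat_lit 0, nat_lit 2196, nat_lit 0, nat_lit 0, nat_lit 0, nat_lit 0, nat_lit 0, nat_lit 0, nat_lit 0, nat_lit 0, [],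
 ⟨p011_k46, nat_lit 0, nat_lit 0, nat_lit 309, nat_lit 0, nat_lit 298978, [nat_lit 4688000000, nat_lit 6250000000, nat_lit 7968000000], [], [nat_lit 34976721045, nat_lit 35003898903, nat_lit 34571416640, nat_lit 34617489379], nat_lit 1271250, nat_lit 1271250, nat_lit 111251, nat_lit 181601, nat_lit 0, nat_lit 0, [nat_lit 1100000, nat_lit 1442500, nat_lit 1271250], [nat_lit 9, nat_lit 40, nat_lit 20, nat_lit 80, nat_lit 2, nat_lit 215, nat_lit 10, nat_lit 8]⟩, ⟨p011_k39, nat_lit 0, nat_lit 0, nat_lit 0, nat_lit 0, nat_lit 0, [nat_lit 2032000000, nat_lit 4688000000, nat_lit 6250000000, nat_lit 7089500000], [], [nat_lit 17630074368, nat_lit 17702919035, nat_lit 17343446967, nat_lit 17419040514], nat_lit 0, nat_lit 0, nat_lit 0, nat_lit 0, nat_lit 0, nat_lit 0, [], [nat_lit 101, nat_lit 40, nat_lit 20, nat_lit 40]⟩,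
 zbF0, []⟩
noncomputable def p011_l98 : Lf2 := ⟨nat_lit 2, nat_lit 2, [nat_lit 10, nat_lit 5, nat_lit 5, nat_lit 20], true, nat_lit 0, nat_lit 0, nat_lit 0, nat_lit 0, zbN0,
 nat_lit 0, nat_lit 0, nat_lit 0, nat_lit 0, nat_lit 0, nat_lit 0, nat_lit 0, nat_lit 0, nat_lit 0, nat_lit 0, nat_lit 0, nat_lit 0, nat_lit 0, nat_lit 0, nat_lit 0, nat_lit 0, nat_lit 0, nat_lit 0, [],
 ⟨p011_k44, nat_lit 0, nat_lit 0, nat_lit 0, nat_lit 0, nat_lit 302893, [], [], [], nat_lit 1271250, nat_lit 1271250, nat_lit 88400, nat_lit 111251, nat_lit 0, nat_lit 0, [nat_lit 1100000, nat_lit 1271250, nat_lit 1271250], [nat_lit 105, nat_lit 40, nat_lit 20, nat_lit 40]⟩, C1.Rw.none,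
 zbF0, []⟩
noncomputable def p011_l99 : Lf2 := ⟨nat_lit 2, nat_lit 2, [nat_lit 10, nat_lit 5, nat_lit 5, nat_lit 20], true, nat_lit 0, nat_lit 0, nat_lit 0, nat_lit 0, zbN0,
 nat_lit 0, nat_lit 0, nat_lit 0, nat_lit 0, nat_lit 0, nat_lit 0, nat_lit 0, nat_lit 0, nat_lit 0, nat_lit 0, nat_lit 0, nat_lit 0, nat_lit 0, nat_lit 0, nat_lit 0, nat_lit 0, nat_lit 0, nat_lit 0, [],
 ⟨p011_k45, nat_lit 0, nat_lit 0, nat_lit 300, nat_lit 0, nat_lit 302893, [], [], [], nat_lit 1271250, nat_lit 1271250, nat_lit 88400, nat_lit 111251, nat_lit 0, nat_lit 0, [nat_lit 1100000, nat_lit 1785000], [nat_lit 39, nat_lit 40, nat_lit 20, nat_lit 80, nat_lit 7, nat_lit 215, nat_lit 10, nat_lit 8]⟩, C1.Rw.none,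
 zbF0, []⟩
noncomputable def p011_l100 : Lf2 := ⟨nat_lit 0, nat_lit 2, [nat_lit 10, nat_lit 5, nat_lit 5, nat_lit 20], false, nat_lit 0, nat_lit 0, nat_lit 0, nat_lit 0, ⟨nat_lit 1000, nat_lit 0, nat_lit 0, nat_lit 0, nat_lit 0, nat_lit 0, nat_lit 0, nat_lit 0, nat_lit 0, nat_lit 0, nat_lit 0, nat_lit 0, nat_lit 0, nat_lit 0, nat_lit 0, nat_lit 0, false, false⟩,
 nat_lit 0, nat_lit 11248, nat_lit 0, nat_lit 0, nat_lit 6013, nat_lit 3792, nat_lit 0, nat_lit 0, nat_lit 0, nat_lit 2200, nat_lit 0, nat_lit 0, nat_lit 0, nat_lit 0, nat_lit 0, nat_lit 0, nat_lit 0, nat_lit 0, [],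
 ⟨p011_k46, nat_lit 0, nat_lit 0, nat_lit 311, nat_lit 0, nat_lit 302893, [nat_lit 4688000000, nat_lit 6250000000, nat_lit 7968000000], [], [nat_lit 34976721045, nat_lit 35003898903, nat_lit 34571416640, nat_lit 34617489379], nat_lit 1271250, nat_lit 1271250, nat_lit 111251, nat_lit 181601, nat_lit 0, nat_lit 0, [nat_lit 1100000, nat_lit 1442500, nat_lit 1271250], [nat_lit 9, nat_lit 40, nat_lit 20, nat_lit 80, nat_lit 2, nat_lit 215, nat_lit 10, nat_lit 8]⟩, ⟨p011_k43, nat_lit 0, nat_lit 0, nat_lit 0, nat_lit 0, nat_lit 0, [nat_lit 2032000000, nat_lit 4688000000, nat_lit 6250000000, nat_lit 7089500000], [], [nat_lit 17633527730, nat_lit 17706456024, nat_lit 17347369071, nat_lit 17422923128], nat_lit 0, nat_lit 0, nat_lit 0, nat_lit 0, nat_lit 0, nat_lit 0, [], [nat_lit 101, nat_lit 40, nat_lit 20, nat_lit 40]⟩,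
 zbF0, []⟩
noncomputable def p011_l101 : Lf2 := ⟨nat_lit 0, nat_lit 2, [nat_lit 10, nat_lit 5, nat_lit 5, nat_lit 20], false, nat_lit 0, nat_lit 0, nat_lit 0, nat_lit 0, ⟨nat_lit 1000, nat_lit 0, nat_lit 0, nat_lit 0, nat_lit 0, nat_lit 0, nat_lit 0, nat_lit 0, nat_lit 0, nat_lit 0, nat_lit 0, nat_lit 0, nat_lit 0, nat_lit 0, nat_lit 0, nat_lit 0, false, false⟩,
 nat_lit 0, nat_lit 8277, nat_lit 0, nat_lit 0, nat_lit 4424, nat_lit 0, nat_lit 1938, nat_lit 0, nat_lit 0, nat_lit 768, nat_lit 0, nat_lit 433, nat_lit 0, nat_lit 0, nat_lit 0, nat_lit 0, nat_lit 0, nat_lit 0, [],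
 ⟨p011_k46, nat_lit 0, nat_lit 0, nat_lit 318, nat_lit 0, nat_lit 306808, [nat_lit 4688000000, nat_lit 6250000000, nat_lit 7968000000], [], [nat_lit 35468042438, nat_lit 35509369987, nat_lit 35084572340, nat_lit 35128978146], nat_lit 1271250, nat_lit 1271250, nat_lit 88400, nat_lit 181601, nat_lit 0, nat_lit 0, [nat_lit 1100000, nat_lit 1442500, nat_lit 1271250], [nat_lit 9, nat_lit 40, nat_lit 20, nat_lit 80, nat_lit 2, nat_lit 215, nat_lit 10, nat_lit 8]⟩, ⟨p011_k47, nat_lit 0, nat_lit 0, nat_lit 0, nat_lit 0, nat_lit 0, [nat_lit 2032000000, nat_lit 4688000000, nat_lit 6250000000, nat_lit 7089500000], [], [nat_lit 8783150440, nat_lit 8822181261, nat_lit 9027484440, nat_lit 9065602660], nat_lit 0, nat_lit 0, nat_lit 0, nat_lit 0, nat_lit 0, nat_lit 0, [], [nat_lit 101, nat_lit 40, nat_lit 20, nat_lit 40]⟩,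
 zbF0, [⟨nat_lit 0, nat_lit 100, nat_lit 100, nat_lit 42, nat_lit 831549932⟩]⟩
noncomputable def p011_l102 : Lf2 := ⟨nat_lit 2, nat_lit 2, [nat_lit 10, nat_lit 5, nat_lit 5, nat_lit 20], true, nat_lit 0, nat_lit 0, nat_lit 0, nat_lit 0, zbN0,
 nat_lit 0, nat_lit 0, nat_lit 0, nat_lit 0, nat_lit 0, nat_lit 0, nat_lit 0, nat_lit 0, nat_lit 0, nat_lit 0, nat_lit 0, nat_lit 0, nat_lit 0, nat_lit 0, nat_lit 0, nat_lit 0, nat_lit 0, nat_lit 0, [],
 ⟨p011_k44, nat_lit 0, nat_lit 0, nat_lit 0, nat_lit 0, nat_lit 306808, [], [], [], nat_lit 1271250, nat_lit 1271250, nat_lit 88400, nat_lit 111251, nat_lit 0, nat_lit 0, [nat_lit 1100000, nat_lit 1271250, nat_lit 1271250], [nat_lit 105, nat_lit 40, nat_lit 20, nat_lit 40]⟩, C1.Rw.none,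
 zbF0, []⟩
noncomputable def p011_l103 : Lf2 := ⟨nat_lit 2, nat_lit 2, [nat_lit 10, nat_lit 5, nat_lit 5, nat_lit 20], true, nat_lit 0, nat_lit 0, nat_lit 0, nat_lit 0, zbN0,
 nat_lit 0, nat_lit 0, nat_lit 0, nat_lit 0, nat_lit 0, nat_lit 0, nat_lit 0, nat_lit 0, nat_lit 0, nat_lit 0, nat_lit 0, nat_lit 0, nat_lit 0, nat_lit 0, nat_lit 0, nat_lit 0, nat_lit 0, nat_lit 0, [],
 ⟨p011_k45, nat_lit 0, nat_lit 0, nat_lit 302, nat_lit 0, nat_lit 306808, [], [], [], nat_lit 1271250, nat_lit 1271250, nat_lit 88400, nat_lit 111251, nat_lit 0, nat_lit 0, [nat_lit 1100000, nat_lit 1785000], [nat_lit 39, nat_lit 40, nat_lit 20, nat_lit 80, nat_lit 7, nat_lit 215, nat_lit 10, nat_lit 8]⟩, C1.Rw.none,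
 zbF0, []⟩
noncomputable def p011_l104 : Lf2 := ⟨nat_lit 0, nat_lit 2, [nat_lit 10, nat_lit 5, nat_lit 5, nat_lit 20], false, nat_lit 0, nat_lit 0, nat_lit 0, nat_lit 0, ⟨nat_lit 1000, nat_lit 0, nat_lit 0, nat_lit 0, nat_lit 0, nat_lit 0, nat_lit 0, nat_lit 0, nat_lit 0, nat_lit 0, nat_lit 0, nat_lit 0, nat_lit 0, nat_lit 0, nat_lit 0, nat_lit 0, false, false⟩,
 nat_lit 0, nat_lit 11288, nat_lit 0, nat_lit 0, nat_lit 6034, nat_lit 3820, nat_lit 0, nat_lit 0, nat_lit 0, nat_lit 2255, nat_lit 0, nat_lit 0, nat_lit 0, nat_lit 9954144369006, nat_lit 0, nat_lit 0, nat_lit 0, nat_lit 0, [],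
 ⟨p011_k46, nat_lit 0, nat_lit 0, nat_lit 312, nat_lit 0, nat_lit 306808, [nat_lit 4688000000, nat_lit 6250000000, nat_lit 7968000000], [], [nat_lit 34974453440, nat_lit 34952362807, nat_lit 34517812297, nat_lit 34563953205], nat_lit 1271250, nat_lit 1271250, nat_lit 111251, nat_lit 181601, nat_lit 0, nat_lit 0, [nat_lit 1100000, nat_lit 1442500, nat_lit 1271250], [nat_lit 9, nat_lit 40, nat_lit 20, nat_lit 80, nat_lit 2, nat_lit 215, nat_lit 10, nat_lit 8]⟩, ⟨p011_k47, nat_lit 0, nat_lit 0, nat_lit 0, nat_lit 0, nat_lit 0, [nat_lit 2032000000, nat_lit 4688000000, nat_lit 6250000000, nat_lit 7089500000], [], [nat_lit 17589211240, nat_lit 17665563481, nat_lit 17302024653, nat_lit 17377855136], nat_lit 0, nat_lit 0, nat_lit 0, nat_lit 0, nat_lit 0, nat_lit 0, [], [nat_lit 101, nat_lit 40, nat_lit 20, nat_lit 40]⟩,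
 zbF0, []⟩
noncomputable def p011_l105 : Lf2 := ⟨nat_lit 0, nat_lit 2, [nat_lit 10, nat_lit 5, nat_lit 5, nat_lit 20], false, nat_lit 0, nat_lit 0, nat_lit 0, nat_lit 0, ⟨nat_lit 1000, nat_lit 0, nat_lit 0, nat_lit 0, nat_lit 0, nat_lit 0, nat_lit 0, nat_lit 0, nat_lit 0, nat_lit 0, nat_lit 0, nat_lit 0, nat_lit 0, nat_lit 0, nat_lit 0, nat_lit 0, false, false⟩,
 nat_lit 0, nat_lit 8249, nat_lit 0, nat_lit 0, nat_lit 4431, nat_lit 0, nat_lit 1932, nat_lit 0, nat_lit 0, nat_lit 759, nat_lit 0, nat_lit 434, nat_lit 0, nat_lit 0, nat_lit 0, nat_lit 0, nat_lit 0, nat_lit 0, [],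
 ⟨p011_k48, nat_lit 0, nat_lit 0, nat_lit 318, nat_lit 0, nat_lit 305304, [nat_lit 4688000000, nat_lit 6250000000, nat_lit 7968000000], [], [nat_lit 35280086488, nat_lit 35321437131, nat_lit 34895222854, nat_lit 34939094637], nat_lit 1271250, nat_lit 1271250, nat_lit 88400, nat_lit 181601, nat_lit 0, nat_lit 0, [nat_lit 1100000, nat_lit 1442500, nat_lit 1271250], [nat_lit 9, nat_lit 40, nat_lit 20, nat_lit 80, nat_lit 2, nat_lit 215, nat_lit 10, nat_lit 8]⟩, ⟨p011_k39, nat_lit 0, nat_lit 0, nat_lit 0, nat_lit 0, nat_lit 0, [nat_lit 2032000000, nat_lit 4688000000, nat_lit 6250000000, nat_lit 7089500000], [], [nat_lit 8740176000, nat_lit 8819912840, nat_lit 8983240000, nat_lit 9062477880], nat_lit 0, nat_lit 0, nat_lit 0, nat_lit 0, nat_lit 0, nat_lit 0, [], [nat_lit 101, nat_lit 40, nat_lit 20, nat_lit 40]⟩,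
 zbF0, [⟨nat_lit 0, nat_lit 100, nat_lit 100, nat_lit 42, nat_lit 833350096⟩]⟩
noncomputable def p011_l106 : Lf2 := ⟨nat_lit 2, nat_lit 2, [nat_lit 10, nat_lit 5, nat_lit 5, nat_lit 20], true, nat_lit 0, nat_lit 0, nat_lit 0, nat_lit 0, zbN0,
 nat_lit 0, nat_lit 0, nat_lit 0, nat_lit 0, nat_lit 0, nat_lit 0, nat_lit 0, nat_lit 0, nat_lit 0, nat_lit 0, nat_lit 0, nat_lit 0, nat_lit 0, nat_lit 0, nat_lit 0, nat_lit 0, nat_lit 0, nat_lit 0, [],
 ⟨p011_k49, nat_lit 0, nat_lit 0, nat_lit 0, nat_lit 0, nat_lit 301432, [], [], [], nat_lit 1271250, nat_lit 1271250, nat_lit 88400, nat_lit 111251, nat_lit 0, nat_lit 0, [nat_lit 1100000, nat_lit 1271250, nat_lit 1271250], [nat_lit 105, nat_lit 40, nat_lit 20, nat_lit 40]⟩, C1.Rw.none,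
 zbF0, []⟩
noncomputable def p011_l107 : Lf2 := ⟨nat_lit 2, nat_lit 2, [nat_lit 10, nat_lit 5, nat_lit 5, nat_lit 20], true, nat_lit 0, nat_lit 0, nat_lit 0, nat_lit 0, zbN0,
 nat_lit 0, nat_lit 0, nat_lit 0, nat_lit 0, nat_lit 0, nat_lit 0, nat_lit 0, nat_lit 0, nat_lit 0, nat_lit 0, nat_lit 0, nat_lit 0, nat_lit 0, nat_lit 0, nat_lit 0, nat_lit 0, nat_lit 0, nat_lit 0, [],
 ⟨p011_k50, nat_lit 0, nat_lit 0, nat_lit 300, nat_lit 0, nat_lit 301432, [], [], [], nat_lit 1271250, nat_lit 1271250, nat_lit 88400, nat_lit 111251, nat_lit 0, nat_lit 0, [nat_lit 1100000, nat_lit 1785000], [nat_lit 39, nat_lit 40, nat_lit 20, nat_lit 80, nat_lit 7, nat_lit 215, nat_lit 10, nat_lit 8]⟩, C1.Rw.none,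
 zbF0, []⟩
noncomputable def p011_l108 : Lf2 := ⟨nat_lit 0, nat_lit 2, [nat_lit 10, nat_lit 5, nat_lit 5, nat_lit 20], false, nat_lit 0, nat_lit 0, nat_lit 0, nat_lit 0, ⟨nat_lit 1000, nat_lit 0, nat_lit 0, nat_lit 0, nat_lit 0, nat_lit 0, nat_lit 0, nat_lit 0, nat_lit 0, nat_lit 0, nat_lit 0, nat_lit 0, nat_lit 0, nat_lit 0, nat_lit 0, nat_lit 0, false, false⟩,
 nat_lit 0, nat_lit 8481, nat_lit 0, nat_lit 0, nat_lit 4556, nat_lit 3796, nat_lit 1946, nat_lit 0, nat_lit 0, nat_lit 2196, nat_lit 0, nat_lit 0, nat_lit 0, nat_lit 0, nat_lit 0, nat_lit 0, nat_lit 0, nat_lit 0, [],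
 ⟨p011_k48, nat_lit 0, nat_lit 0, nat_lit 311, nat_lit 0, nat_lit 301432, [nat_lit 4688000000, nat_lit 6250000000, nat_lit 7968000000], [], [nat_lit 34797438772, nat_lit 34842850696, nat_lit 34560999764, nat_lit 34606012397], nat_lit 1271250, nat_lit 1271250, nat_lit 111251, nat_lit 181601, nat_lit 0, nat_lit 0, [nat_lit 1100000, nat_lit 1442500, nat_lit 1271250], [nat_lit 9, nat_lit 40, nat_lit 20, nat_lit 80, nat_lit 2, nat_lit 215, nat_lit 10, nat_lit 8]⟩, ⟨p011_k39, nat_lit 0, nat_lit 0, nat_lit 0, nat_lit 0, nat_lit 0, [nat_lit 2032000000, nat_lit 4688000000, nat_lit 6250000000, nat_lit 7089500000], [], [nat_lit 17630074368, nat_lit 17702919035, nat_lit 17343446967, nat_lit 17419040514], nat_lit 0, nat_lit 0, nat_lit 0, nat_lit 0, nat_lit 0, nat_lit 0, [], [nat_lit 101, nat_lit 40, nat_lit 20, nat_lit 40]⟩,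
 zbF0, []⟩
noncomputable def p011_l109 : Lf2 := ⟨nat_lit 2, nat_lit 2, [nat_lit 10, nat_lit 5, nat_lit 5, nat_lit 20], true, nat_lit 0, nat_lit 0, nat_lit 0, nat_lit 0, zbN0,
 nat_lit 0, nat_lit 0, nat_lit 0, nat_lit 0, nat_lit 0, nat_lit 0, nat_lit 0, nat_lit 0, nat_lit 0, nat_lit 0, nat_lit 0, nat_lit 0, nat_lit 0, nat_lit 0, nat_lit 0, nat_lit 0, nat_lit 0, nat_lit 0, [],
 ⟨p011_k49, nat_lit 0, nat_lit 0, nat_lit 0, nat_lit 0, nat_lit 305304, [], [], [], nat_lit 1271250, nat_lit 1271250, nat_lit 88400, nat_lit 111251, nat_lit 0, nat_lit 0, [nat_lit 1100000, nat_lit 1271250, nat_lit 1271250], [nat_lit 105, nat_lit 40, nat_lit 20, nat_lit 40]⟩, C1.Rw.none,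
 zbF0, []⟩
noncomputable def p011_l110 : Lf2 := ⟨nat_lit 2, nat_lit 2, [nat_lit 10, nat_lit 5, nat_lit 5, nat_lit 20], true, nat_lit 0, nat_lit 0, nat_lit 0, nat_lit 0, zbN0,
 nat_lit 0, nat_lit 0, nat_lit 0, nat_lit 0, nat_lit 0, nat_lit 0, nat_lit 0, nat_lit 0, nat_lit 0, nat_lit 0, nat_lit 0, nat_lit 0, nat_lit 0, nat_lit 0, nat_lit 0, nat_lit 0, nat_lit 0, nat_lit 0, [],
 ⟨p011_k50, nat_lit 0, nat_lit 0, nat_lit 302, nat_lit 0, nat_lit 305304, [], [], [], nat_lit 1271250, nat_lit 1271250, nat_lit 88400, nat_lit 111251, nat_lit 0, nat_lit 0, [nat_lit 1100000, nat_lit 1785000], [nat_lit 39, nat_lit 40, nat_lit 20, nat_lit 80, nat_lit 7, nat_lit 215, nat_lit 10, nat_lit 8]⟩, C1.Rw.none,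
 zbF0, []⟩
noncomputable def p011_l111 : Lf2 := ⟨nat_lit 0, nat_lit 2, [nat_lit 10, nat_lit 5, nat_lit 5, nat_lit 20], false, nat_lit 0, nat_lit 0, nat_lit 0, nat_lit 0, ⟨nat_lit 1000, nat_lit 0, nat_lit 0, nat_lit 0, nat_lit 0, nat_lit 0, nat_lit 0, nat_lit 0, nat_lit 0, nat_lit 0, nat_lit 0, nat_lit 0, nat_lit 0, nat_lit 0, nat_lit 0, nat_lit 0, false, false⟩,
 nat_lit 0, nat_lit 8481, nat_lit 0, nat_lit 0, nat_lit 4556, nat_lit 3792, nat_lit 1946, nat_lit 0, nat_lit 0, nat_lit 2200, nat_lit 0, nat_lit 0, nat_lit 0, nat_lit 0, nat_lit 0, nat_lit 0, nat_lit 0, nat_lit 0, [],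
 ⟨p011_k48, nat_lit 0, nat_lit 0, nat_lit 312, nat_lit 0, nat_lit 305304, [nat_lit 4688000000, nat_lit 6250000000, nat_lit 7968000000], [], [nat_lit 34797438772, nat_lit 34842850696, nat_lit 34560999764, nat_lit 34606012397], nat_lit 1271250, nat_lit 1271250, nat_lit 111251, nat_lit 181601, nat_lit 0, nat_lit 0, [nat_lit 1100000, nat_lit 1442500, nat_lit 1271250], [nat_lit 9, nat_lit 40, nat_lit 20, nat_lit 80, nat_lit 2, nat_lit 215, nat_lit 10, nat_lit 8]⟩, ⟨p011_k43, nat_lit 0, nat_lit 0, nat_lit 0, nat_lit 0, nat_lit 0, [nat_lit 2032000000, nat_lit 4688000000, nat_lit 6250000000, nat_lit 7089500000], [], [nat_lit 17633527730, nat_lit 17706456024, nat_lit 17347369071, nat_lit 17422923128], nat_lit 0, nat_lit 0, nat_lit 0, nat_lit 0, nat_lit 0, nat_lit 0, [], [nat_lit 101, nat_lit 40, nat_lit 20, nat_lit 40]⟩,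
 zbF0, []⟩
noncomputable def p011_l112 : Lf2 := ⟨nat_lit 0, nat_lit 2, [nat_lit 10, nat_lit 5, nat_lit 5, nat_lit 20], false, nat_lit 0, nat_lit 0, nat_lit 0, nat_lit 0, ⟨nat_lit 1000, nat_lit 0, nat_lit 0, nat_lit 0, nat_lit 0, nat_lit 0, nat_lit 0, nat_lit 0, nat_lit 0, nat_lit 0, nat_lit 0, nat_lit 0, nat_lit 0, nat_lit 0, nat_lit 0, nat_lit 0, false, false⟩,
 nat_lit 0, nat_lit 8249, nat_lit 0, nat_lit 0, nat_lit 4431, nat_lit 3099, nat_lit 1932, nat_lit 0, nat_lit 0, nat_lit 2148, nat_lit 0, nat_lit 0, nat_lit 0, nat_lit 0, nat_lit 0, nat_lit 0, nat_lit 0, nat_lit 0, [],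
 ⟨p011_k48, nat_lit 0, nat_lit 0, nat_lit 319, nat_lit 0, nat_lit 309177, [nat_lit 4688000000, nat_lit 6250000000, nat_lit 7968000000], [], [nat_lit 35280086488, nat_lit 35321437131, nat_lit 34895222854, nat_lit 34939094637], nat_lit 1271250, nat_lit 1271250, nat_lit 88400, nat_lit 181601, nat_lit 0, nat_lit 0, [nat_lit 1100000, nat_lit 1442500, nat_lit 1271250], [nat_lit 9, nat_lit 40, nat_lit 20, nat_lit 80, nat_lit 2, nat_lit 215, nat_lit 10, nat_lit 8]⟩, ⟨p011_k51, nat_lit 0, nat_lit 0, nat_lit 0, nat_lit 0, nat_lit 0, [nat_lit 1465500000, nat_lit 3965500000, nat_lit 4688000000, nat_lit 6250000000, nat_lit 7089500000], [], [nat_lit 17696919539, nat_lit 17764068091, nat_lit 17350833292, nat_lit 17417845335], nat_lit 0, nat_lit 0, nat_lit 0, nat_lit 0, nat_lit 0, nat_lit 0, [], [nat_lit 239, nat_lit 10, nat_lit 4, nat_lit 20]⟩,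
 zbF0, [⟨nat_lit 0, nat_lit 100, nat_lit 100, nat_lit 43, nat_lit 1014294450⟩]⟩
noncomputable def p011_l113 : Lf2 := ⟨nat_lit 0, nat_lit 2, [nat_lit 10, nat_lit 5, nat_lit 5, nat_lit 20], true, nat_lit 0, nat_lit 0, nat_lit 0, nat_lit 0, ⟨nat_lit 0, nat_lit 0, nat_lit 1000, nat_lit 6, nat_lit 74, nat_lit 0, nat_lit 0, nat_lit 0, nat_lit 0, nat_lit 215, nat_lit 52267, nat_lit 271, nat_lit 64781991, nat_lit 0, nat_lit 0, nat_lit 726848, false, false⟩,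
 nat_lit 0, nat_lit 100000, nat_lit 0, nat_lit 0, nat_lit 53982, nat_lit 0, nat_lit 11629, nat_lit 3664, nat_lit 0, nat_lit 0, nat_lit 0, nat_lit 0, nat_lit 0, nat_lit 0, nat_lit 0, nat_lit 1000000, nat_lit 0, nat_lit 0, [(nat_lit 6, [(nat_lit 6, nat_lit 1000)])],
 ⟨p011_k52, nat_lit 0, nat_lit 0, nat_lit 318, nat_lit 0, nat_lit 303859, [nat_lit 59601066667, nat_lit 73088000001, nat_lit 86227199999], [], [nat_lit 163205481755, nat_lit 162673383226, nat_lit 155185637013, nat_lit 155420916022], nat_lit 1271250, nat_lit 1271250, nat_lit 88400, nat_lit 181601, nat_lit 0, nat_lit 0, [nat_lit 1100000, nat_lit 1442500, nat_lit 1271250], [nat_lit 9, nat_lit 40, nat_lit 20, nat_lit 80, nat_lit 2, nat_lit 215, nat_lit 10, nat_lit 8]⟩, C1.Rw.none,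
 ⟨nat_lit 6224, nat_lit 6245, ⟨.ofNat (nat_lit 167787), .ofNat (nat_lit 200390), .ofNat (nat_lit 168855), .ofNat (nat_lit 201458), .ofNat (nat_lit 168651), .ofNat (nat_lit 201178), .ofNat (nat_lit 169718), .ofNat (nat_lit 202245)⟩, ⟨.ofNat (nat_lit 0), .ofNat (nat_lit 0), .ofNat (nat_lit 0), .ofNat (nat_lit 0), .ofNat (nat_lit 0), .ofNat (nat_lit 0), .ofNat (nat_lit 0), .ofNat (nat_lit 0)⟩⟩, [⟨nat_lit 0, nat_lit 100, nat_lit 100, nat_lit 43, nat_lit 2376834590⟩]⟩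
noncomputable def p011_l114 : Lf2 := ⟨nat_lit 0, nat_lit 2, [nat_lit 10, nat_lit 5, nat_lit 5, nat_lit 20], false, nat_lit 0, nat_lit 0, nat_lit 0, nat_lit 0, ⟨nat_lit 1000, nat_lit 0, nat_lit 0, nat_lit 0, nat_lit 0, nat_lit 0, nat_lit 0, nat_lit 0, nat_lit 0, nat_lit 0, nat_lit 0, nat_lit 0, nat_lit 0, nat_lit 0, nat_lit 0, nat_lit 0, false, false⟩,
 nat_lit 0, nat_lit 8181, nat_lit 0, nat_lit 0, nat_lit 4416, nat_lit 3744, nat_lit 1941, nat_lit 0, nat_lit 0, nat_lit 2197, nat_lit 0, nat_lit 0, nat_lit 0, nat_lit 0, nat_lit 0, nat_lit 0, nat_lit 0, nat_lit 0, [],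
 ⟨p011_k52, nat_lit 0, nat_lit 0, nat_lit 319, nat_lit 0, nat_lit 307690, [nat_lit 4688000000, nat_lit 6250000000, nat_lit 7968000000], [], [nat_lit 35067079519, nat_lit 35108380677, nat_lit 34684310006, nat_lit 34728783706], nat_lit 1271250, nat_lit 1271250, nat_lit 88400, nat_lit 181601, nat_lit 0, nat_lit 0, [nat_lit 1100000, nat_lit 1442500, nat_lit 1271250], [nat_lit 9, nat_lit 40, nat_lit 20, nat_lit 80, nat_lit 2, nat_lit 215, nat_lit 10, nat_lit 8]⟩, ⟨p011_k43, nat_lit 0, nat_lit 0, nat_lit 0, nat_lit 0, nat_lit 0, [nat_lit 2032000000, nat_lit 4688000000, nat_lit 6250000000, nat_lit 7089500000], [], [nat_lit 17862195788, nat_lit 17937625031, nat_lit 17394914881, nat_lit 17469995067], nat_lit 0, nat_lit 0, nat_lit 0, nat_lit 0, nat_lit 0, nat_lit 0, [], [nat_lit 101, nat_lit 40, nat_lit 20, nat_lit 40]⟩,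
 zbF0, [⟨nat_lit 0, nat_lit 100, nat_lit 100, nat_lit 43, nat_lit 1051692357⟩]⟩
noncomputable def p011_l115 : Lf2 := ⟨nat_lit 0, nat_lit 2, [nat_lit 10, nat_lit 5, nat_lit 5, nat_lit 20], false, nat_lit 0, nat_lit 0, nat_lit 0, nat_lit 0, ⟨nat_lit 1000, nat_lit 0, nat_lit 0, nat_lit 0, nat_lit 0, nat_lit 0, nat_lit 0, nat_lit 0, nat_lit 0, nat_lit 0, nat_lit 0, nat_lit 0, nat_lit 0, nat_lit 0, nat_lit 0, nat_lit 0, false, false⟩,
 nat_lit 0, nat_lit 8181, nat_lit 0, nat_lit 0, nat_lit 4416, nat_lit 3741, nat_lit 1941, nat_lit 0, nat_lit 0, nat_lit 2216, nat_lit 0, nat_lit 0, nat_lit 0, nat_lit 0, nat_lit 0, nat_lit 0, nat_lit 0, nat_lit 0, [],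
 ⟨p011_k52, nat_lit 0, nat_lit 0, nat_lit 321, nat_lit 0, nat_lit 311520, [nat_lit 4688000000, nat_lit 6250000000, nat_lit 7968000000], [], [nat_lit 35067079519, nat_lit 35108380677, nat_lit 34684310006, nat_lit 34728783706], nat_lit 1271250, nat_lit 1271250, nat_lit 88400, nat_lit 181601, nat_lit 0, nat_lit 0, [nat_lit 1100000, nat_lit 1442500, nat_lit 1271250], [nat_lit 9, nat_lit 40, nat_lit 20, nat_lit 80, nat_lit 2, nat_lit 215, nat_lit 10, nat_lit 8]⟩, ⟨p011_k47, nat_lit 0, nat_lit 0, nat_lit 0, nat_lit 0, nat_lit 0, [nat_lit 2032000000, nat_lit 4688000000, nat_lit 6250000000, nat_lit 7089500000], [], [nat_lit 17849674014, nat_lit 17924962289, nat_lit 17382252493, nat_lit 17457303062], nat_lit 0, nat_lit 0, nat_lit 0, nat_lit 0, nat_lit 0, nat_lit 0, [], [nat_lit 101, nat_lit 40, nat_lit 20, nat_lit 40]⟩,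
 zbF0, [⟨nat_lit 0, nat_lit 100, nat_lit 100, nat_lit 43, nat_lit 1050116969⟩]⟩
noncomputable def p011_l116 : Lf2 := ⟨nat_lit 0, nat_lit 2, [nat_lit 10, nat_lit 5, nat_lit 5, nat_lit 20], false, nat_lit 0, nat_lit 0, nat_lit 0, nat_lit 0, ⟨nat_lit 1000, nat_lit 0, nat_lit 0, nat_lit 0, nat_lit 0, nat_lit 0, nat_lit 0, nat_lit 0, nat_lit 0, nat_lit 0, nat_lit 0, nat_lit 0, nat_lit 0, nat_lit 0, nat_lit 0, nat_lit 0, false, false⟩,
 nat_lit 0, nat_lit 10721, nat_lit 0, nat_lit 0, nat_lit 5675, nat_lit 100000, nat_lit 0, nat_lit 0, nat_lit 0, nat_lit 39355, nat_lit 11007, nat_lit 0, nat_lit 0, nat_lit 108723578879064, nat_lit 0, nat_lit 0, nat_lit 0, nat_lit 0, [],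
 ⟨p011_k20, nat_lit 0, nat_lit 0, nat_lit 323, nat_lit 0, nat_lit 317808, [nat_lit 4688000000, nat_lit 6250000000, nat_lit 7968000000], [], [nat_lit 35901940441, nat_lit 36129213936, nat_lit 35344240200, nat_lit 35569117955], nat_lit 1271250, nat_lit 1271250, nat_lit 88400, nat_lit 181601, nat_lit 0, nat_lit 0, [nat_lit 1100000, nat_lit 1442500, nat_lit 1271250], [nat_lit 9, nat_lit 40, nat_lit 20, nat_lit 80, nat_lit 2, nat_lit 215, nat_lit 10, nat_lit 8]⟩, ⟨p011_k39, nat_lit 0, nat_lit 0, nat_lit 0, nat_lit 0, nat_lit 0, [nat_lit 90088000000, nat_lit 180800000000, nat_lit 226390000000, nat_lit 249243500000], [], [nat_lit 248705961600, nat_lit 251807617681, nat_lit 229502688000, nat_lit 232578738660], nat_lit 0, nat_lit 0, nat_lit 0, nat_lit 0, nat_lit 0, nat_lit 0, [], [nat_lit 101, nat_lit 40, nat_lit 20, nat_lit 40]⟩,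
 zbF0, [⟨nat_lit 0, nat_lit 100, nat_lit 100, nat_lit 40, nat_lit 6961840627⟩]⟩
noncomputable def p011_l117 : Lf2 := ⟨nat_lit 0, nat_lit 2, [nat_lit 10, nat_lit 5, nat_lit 5, nat_lit 20], false, nat_lit 0, nat_lit 0, nat_lit 0, nat_lit 0, ⟨nat_lit 1000, nat_lit 0, nat_lit 0, nat_lit 0, nat_lit 0, nat_lit 0, nat_lit 0, nat_lit 0, nat_lit 0, nat_lit 0, nat_lit 0, nat_lit 0, nat_lit 0, nat_lit 0, nat_lit 0, nat_lit 0, false, false⟩,
 nat_lit 0, nat_lit 0, nat_lit 0, nat_lit 0, nat_lit 0, nat_lit 100000, nat_lit 0, nat_lit 0, nat_lit 0, nat_lit 39183, nat_lit 11026, nat_lit 0, nat_lit 0, nat_lit 0, nat_lit 0, nat_lit 0, nat_lit 0, nat_lit 0, [],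
 ⟨p011_k20, nat_lit 0, nat_lit 0, nat_lit 323, nat_lit 0, nat_lit 317808, [nat_lit 4688000000, nat_lit 6250000000, nat_lit 7968000000], [], [nat_lit 49630600800, nat_lit 49764262900, nat_lit 49867019200, nat_lit 49999788300], nat_lit 1271250, nat_lit 1271250, nat_lit 88400, nat_lit 181601, nat_lit 0, nat_lit 0, [nat_lit 1100000, nat_lit 1442500, nat_lit 1271250], [nat_lit 9, nat_lit 40, nat_lit 20, nat_lit 80, nat_lit 2, nat_lit 215, nat_lit 10, nat_lit 8]⟩, ⟨p011_k39, nat_lit 0, nat_lit 0, nat_lit 0, nat_lit 0, nat_lit 0, [nat_lit 90240000000, nat_lit 181104000000, nat_lit 226770000000, nat_lit 249661500000], [], [nat_lit 249430761600, nat_lit 252339915481, nat_lit 230213258401, nat_lit 233110738660], nat_lit 0, nat_lit 0, nat_lit 0, nat_lit 0, nat_lit 0, nat_lit 0, [], [nat_lit 101, nat_lit 40, nat_lit 20, nat_lit 40]⟩,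
 zbF0, [⟨nat_lit 13, nat_lit 100, nat_lit 1, nat_lit 100, nat_lit 48320929⟩]⟩
noncomputable def p011_l118 : Lf2 := ⟨nat_lit 0, nat_lit 2, [nat_lit 10, nat_lit 5, nat_lit 5, nat_lit 20], false, nat_lit 0, nat_lit 0, nat_lit 0, nat_lit 0, ⟨nat_lit 1000, nat_lit 0, nat_lit 0, nat_lit 0, nat_lit 0, nat_lit 0, nat_lit 0, nat_lit 0, nat_lit 0, nat_lit 0, nat_lit 0, nat_lit 0, nat_lit 0, nat_lit 0, nat_lit 0, nat_lit 0, false, false⟩,
 nat_lit 0, nat_lit 100000, nat_lit 0, nat_lit 34851, nat_lit 52941, nat_lit 100000, nat_lit 0, nat_lit 3884, nat_lit 0, nat_lit 0, nat_lit 20000, nat_lit 0, nat_lit 0, nat_lit 400000000000000, nat_lit 0, nat_lit 0, nat_lit 0, nat_lit 0, [],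
 ⟨p011_k20, nat_lit 0, nat_lit 0, nat_lit 323, nat_lit 0, nat_lit 317808, [nat_lit 66832000001, nat_lit 83930000000, nat_lit 101184000000], [], [nat_lit 240147843490, nat_lit 233296362210, nat_lit 225106764921, nat_lit 226098798216], nat_lit 1271250, nat_lit 1271250, nat_lit 88400, nat_lit 181601, nat_lit 0, nat_lit 0, [nat_lit 1100000, nat_lit 1442500, nat_lit 1271250], [nat_lit 9, nat_lit 40, nat_lit 20, nat_lit 80, nat_lit 2, nat_lit 215, nat_lit 10, nat_lit 8]⟩, ⟨p011_k39, nat_lit 0, nat_lit 0, nat_lit 0, nat_lit 0, nat_lit 0, [nat_lit 162032000000, nat_lit 324688000000, nat_lit 406250000000, nat_lit 447089500000], [], [nat_lit 553915461600, nat_lit 556824615480, nat_lit 534697958400, nat_lit 537583024500], nat_lit 0, nat_lit 0, nat_lit 0, nat_lit 0, nat_lit 0, nat_lit 0, [], [nat_lit 101, nat_lit 40, nat_lit 20, nat_lit 40]⟩,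
 zbF0, []⟩
noncomputable def p011_l119 : Lf2 := ⟨nat_lit 3, nat_lit 2, [nat_lit 10, nat_lit 5, nat_lit 5, nat_lit 20], false, nat_lit 0, nat_lit 0, nat_lit 0, nat_lit 0, zbN0,
 nat_lit 0, nat_lit 0, nat_lit 0, nat_lit 0, nat_lit 0, nat_lit 0, nat_lit 0, nat_lit 0, nat_lit 0, nat_lit 0, nat_lit 0, nat_lit 0, nat_lit 0, nat_lit 0, nat_lit 0, nat_lit 0, nat_lit 0, nat_lit 0, [],
 C1.Rw.none, ⟨p011_k53, nat_lit 0, nat_lit 0, nat_lit 0, nat_lit 0, nat_lit 0, [], [], [], nat_lit 0, nat_lit 0, nat_lit 0, nat_lit 0, nat_lit 0, nat_lit 0, [], [nat_lit 98, nat_lit 40, nat_lit 20, nat_lit 80]⟩,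
 zbF0, []⟩
noncomputable def p011_l120 : Lf2 := ⟨nat_lit 0, nat_lit 2, [nat_lit 10, nat_lit 5, nat_lit 5, nat_lit 20], true, nat_lit 0, nat_lit 0, nat_lit 0, nat_lit 0, ⟨nat_lit 0, nat_lit 0, nat_lit 1000, nat_lit 6, nat_lit 75, nat_lit 0, nat_lit 0, nat_lit 0, nat_lit 0, nat_lit 215, nat_lit 52267, nat_lit 271, nat_lit 64726562, nat_lit 0, nat_lit 0, nat_lit 740755, false, false⟩,
 nat_lit 0, nat_lit 4713, nat_lit 0, nat_lit 0, nat_lit 2531, nat_lit 0, nat_lit 54, nat_lit 0, nat_lit 0, nat_lit 0, nat_lit 0, nat_lit 0, nat_lit 0, nat_lit 16728944510067, nat_lit 44, nat_lit 1000000, nat_lit 0, nat_lit 0, [(nat_lit 6, [(nat_lit 6, nat_lit 1000)])],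
 ⟨p011_k54, nat_lit 0, nat_lit 0, nat_lit 0, nat_lit 0, nat_lit 313049, [nat_lit 868400000, nat_lit 1653200000, nat_lit 688000000, nat_lit 17600000], [], [nat_lit 13586715193, nat_lit 13636265759, nat_lit 13435288523, nat_lit 13486009584], nat_lit 1271250, nat_lit 1271250, nat_lit 88400, nat_lit 181601, nat_lit 0, nat_lit 0, [nat_lit 490000, nat_lit 1100000, nat_lit 1442500, nat_lit 1271250], [nat_lit 101, nat_lit 40, nat_lit 20, nat_lit 40]⟩, C1.Rw.none,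
 ⟨nat_lit 6244, nat_lit 6265, ⟨.ofNat (nat_lit 170127), .ofNat (nat_lit 202805), .ofNat (nat_lit 171195), .ofNat (nat_lit 203873), .ofNat (nat_lit 170991), .ofNat (nat_lit 203594), .ofNat (nat_lit 172059), .ofNat (nat_lit 204662)⟩, ⟨.ofNat (nat_lit 0), .ofNat (nat_lit 0), .ofNat (nat_lit 0), .ofNat (nat_lit 0), .ofNat (nat_lit 0), .ofNat (nat_lit 0), .ofNat (nat_lit 0), .ofNat (nat_lit 0)⟩⟩, [⟨nat_lit 0, nat_lit 100, nat_lit 100, nat_lit 44, nat_lit 158373685⟩]⟩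
noncomputable def p011_l121 : Lf2 := ⟨nat_lit 0, nat_lit 2, [nat_lit 10, nat_lit 5, nat_lit 5, nat_lit 20], false, nat_lit 0, nat_lit 0, nat_lit 0, nat_lit 0, ⟨nat_lit 1000, nat_lit 0, nat_lit 0, nat_lit 0, nat_lit 0, nat_lit 0, nat_lit 0, nat_lit 0, nat_lit 0, nat_lit 0, nat_lit 0, nat_lit 0, nat_lit 0, nat_lit 0, nat_lit 0, nat_lit 0, false, false⟩,
 nat_lit 0, nat_lit 8249, nat_lit 0, nat_lit 0, nat_lit 4431, nat_lit 0, nat_lit 1932, nat_lit 0, nat_lit 0, nat_lit 495, nat_lit 0, nat_lit 554, nat_lit 0, nat_lit 0, nat_lit 0, nat_lit 0, nat_lit 0, nat_lit 0, [],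
 ⟨p011_k48, nat_lit 0, nat_lit 0, nat_lit 321, nat_lit 0, nat_lit 313049, [nat_lit 4688000000, nat_lit 6250000000, nat_lit 7968000000], [], [nat_lit 35280086488, nat_lit 35321437131, nat_lit 34895222854, nat_lit 34939094637], nat_lit 1271250, nat_lit 1271250, nat_lit 88400, nat_lit 181601, nat_lit 0, nat_lit 0, [nat_lit 1100000, nat_lit 1442500, nat_lit 1271250], [nat_lit 9, nat_lit 40, nat_lit 20, nat_lit 80, nat_lit 2, nat_lit 215, nat_lit 10, nat_lit 8]⟩, ⟨p011_k54, nat_lit 0, nat_lit 0, nat_lit 0, nat_lit 0, nat_lit 0, [nat_lit 2032000000, nat_lit 4688000000, nat_lit 6250000000, nat_lit 7089500000], [], [nat_lit 6412184541, nat_lit 6457714320, nat_lit 6646409320, nat_lit 6686028261], nat_lit 0, nat_lit 0, nat_lit 0, nat_lit 0, nat_lit 0, nat_lit 0, [], [nat_lit 101, nat_lit 40, nat_lit 20, nat_lit 40]⟩,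
 zbF0, [⟨nat_lit 0, nat_lit 100, nat_lit 100, nat_lit 43, nat_lit 829990562⟩]⟩
noncomputable def p011_l122 : Lf2 := ⟨nat_lit 0, nat_lit 2, [nat_lit 10, nat_lit 5, nat_lit 5, nat_lit 20], false, nat_lit 0, nat_lit 0, nat_lit 0, nat_lit 0, ⟨nat_lit 1000, nat_lit 0, nat_lit 0, nat_lit 0, nat_lit 0, nat_lit 0, nat_lit 0, nat_lit 0, nat_lit 0, nat_lit 0, nat_lit 0, nat_lit 0, nat_lit 0, nat_lit 0, nat_lit 0, nat_lit 0, false, false⟩,
 nat_lit 0, nat_lit 8249, nat_lit 0, nat_lit 0, nat_lit 4431, nat_lit 3097, nat_lit 1932, nat_lit 0, nat_lit 0, nat_lit 2160, nat_lit 0, nat_lit 0, nat_lit 0, nat_lit 0, nat_lit 0, nat_lit 0, nat_lit 0, nat_lit 0, [],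
 ⟨p011_k48, nat_lit 0, nat_lit 0, nat_lit 321, nat_lit 0, nat_lit 313049, [nat_lit 4688000000, nat_lit 6250000000, nat_lit 7968000000], [], [nat_lit 35280086488, nat_lit 35321437131, nat_lit 34895222854, nat_lit 34939094637], nat_lit 1271250, nat_lit 1271250, nat_lit 88400, nat_lit 181601, nat_lit 0, nat_lit 0, [nat_lit 1100000, nat_lit 1442500, nat_lit 1271250], [nat_lit 9, nat_lit 40, nat_lit 20, nat_lit 80, nat_lit 2, nat_lit 215, nat_lit 10, nat_lit 8]⟩, ⟨p011_k55, nat_lit 0, nat_lit 0, nat_lit 0, nat_lit 0, nat_lit 0, [nat_lit 1465500000, nat_lit 3965500000, nat_lit 4688000000, nat_lit 6250000000, nat_lit 7089500000], [], [nat_lit 17683641355, nat_lit 17750936600, nat_lit 17337653203, nat_lit 17404646528], nat_lit 0, nat_lit 0, nat_lit 0, nat_lit 0, nat_lit 0, nat_lit 0, [], [nat_lit 239, nat_lit 10, nat_lit 4, nat_lit 20]⟩,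
 zbF0, [⟨nat_lit 0, nat_lit 100, nat_lit 100, nat_lit 43, nat_lit 1012780442⟩]⟩
noncomputable def p011_l123 : Lf2 := ⟨nat_lit 0, nat_lit 2, [nat_lit 10, nat_lit 5, nat_lit 5, nat_lit 20], false, nat_lit 0, nat_lit 0, nat_lit 0, nat_lit 0, ⟨nat_lit 1000, nat_lit 0, nat_lit 0, nat_lit 0, nat_lit 0, nat_lit 0, nat_lit 0, nat_lit 0, nat_lit 0, nat_lit 0, nat_lit 0, nat_lit 0, nat_lit 0, nat_lit 0, nat_lit 0, nat_lit 0, false, false⟩,
 nat_lit 0, nat_lit 100000, nat_lit 0, nat_lit 0, nat_lit 53721, nat_lit 100000, nat_lit 0, nat_lit 4006, nat_lit 0, nat_lit 60000, nat_lit 20000, nat_lit 0, nat_lit 0, nat_lit 400000000000000, nat_lit 0, nat_lit 0, nat_lit 0, nat_lit 0, [],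
 ⟨p011_k48, nat_lit 0, nat_lit 0, nat_lit 321, nat_lit 0, nat_lit 313049, [nat_lit 68784000001, nat_lit 86370000000, nat_lit 104112000000], [], [nat_lit 242358014002, nat_lit 240967528647, nat_lit 233473498419, nat_lit 233674437052], nat_lit 1271250, nat_lit 1271250, nat_lit 88400, nat_lit 181601, nat_lit 0, nat_lit 0, [nat_lit 1100000, nat_lit 1442500, nat_lit 1271250], [nat_lit 9, nat_lit 40, nat_lit 20, nat_lit 80, nat_lit 2, nat_lit 215, nat_lit 10, nat_lit 8]⟩, ⟨p011_k54, nat_lit 0, nat_lit 0, nat_lit 0, nat_lit 0, nat_lit 0, [nat_lit 162032000000, nat_lit 324688000000, nat_lit 406250000000, nat_lit 447089500000], [], [nat_lit 497199615481, nat_lit 498169333441, nat_lit 477958024500, nat_lit 478919713200], nat_lit 0, nat_lit 0, nat_lit 0, nat_lit 0, nat_lit 0, nat_lit 0, [], [nat_lit 101, nat_lit 40, nat_lit 20, nat_lit 40]⟩,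
 zbF0, [⟨nat_lit 13, nat_lit 100, nat_lit 1, nat_lit 100, nat_lit 217983362⟩]⟩
noncomputable def p011_l124 : Lf2 := ⟨nat_lit 3, nat_lit 2, [nat_lit 10, nat_lit 5, nat_lit 5, nat_lit 20], false, nat_lit 0, nat_lit 0, nat_lit 0, nat_lit 0, zbN0,
 nat_lit 0, nat_lit 0, nat_lit 0, nat_lit 0, nat_lit 0, nat_lit 0, nat_lit 0, nat_lit 0, nat_lit 0, nat_lit 0, nat_lit 0, nat_lit 0, nat_lit 0, nat_lit 0, nat_lit 0, nat_lit 0, nat_lit 0, nat_lit 0, [],
 C1.Rw.none, ⟨p011_k56, nat_lit 0, nat_lit 0, nat_lit 0, nat_lit 0, nat_lit 0, [], [], [], nat_lit 0, nat_lit 0, nat_lit 0, nat_lit 0, nat_lit 0, nat_lit 0, [], [nat_lit 98, nat_lit 40, nat_lit 20, nat_lit 80]⟩,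
 zbF0, []⟩
noncomputable def p011_l125 : Lf2 := ⟨nat_lit 0, nat_lit 2, [nat_lit 10, nat_lit 5, nat_lit 5, nat_lit 20], false, nat_lit 0, nat_lit 0, nat_lit 0, nat_lit 0, ⟨nat_lit 1000, nat_lit 0, nat_lit 0, nat_lit 0, nat_lit 0, nat_lit 0, nat_lit 0, nat_lit 0, nat_lit 0, nat_lit 0, nat_lit 0, nat_lit 0, nat_lit 0, nat_lit 0, nat_lit 0, nat_lit 0, false, false⟩,
 nat_lit 0, nat_lit 8181, nat_lit 0, nat_lit 0, nat_lit 4416, nat_lit 3767, nat_lit 1941, nat_lit 0, nat_lit 0, nat_lit 2263, nat_lit 0, nat_lit 0, nat_lit 0, nat_lit 0, nat_lit 0, nat_lit 0, nat_lit 0, nat_lit 0, [],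
 ⟨p011_k52, nat_lit 0, nat_lit 0, nat_lit 324, nat_lit 0, nat_lit 319180, [nat_lit 4688000000, nat_lit 6250000000, nat_lit 7968000000], [], [nat_lit 35067079519, nat_lit 35108380677, nat_lit 34684310006, nat_lit 34728783706], nat_lit 1271250, nat_lit 1271250, nat_lit 88400, nat_lit 181601, nat_lit 0, nat_lit 0, [nat_lit 1100000, nat_lit 1442500, nat_lit 1271250], [nat_lit 9, nat_lit 40, nat_lit 20, nat_lit 80, nat_lit 2, nat_lit 215, nat_lit 10, nat_lit 8]⟩, ⟨p011_k54, nat_lit 0, nat_lit 0, nat_lit 0, nat_lit 0, nat_lit 0, [nat_lit 2032000000, nat_lit 4688000000, nat_lit 6250000000, nat_lit 7089500000], [], [nat_lit 17816428587, nat_lit 17974647050, nat_lit 17343730802, nat_lit 17494345300], nat_lit 0, nat_lit 0, nat_lit 0, nat_lit 0, nat_lit 0, nat_lit 0, [], [nat_lit 101, nat_lit 40, nat_lit 20, nat_lit 40]⟩,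
 zbF0, [⟨nat_lit 0, nat_lit 100, nat_lit 100, nat_lit 44, nat_lit 1050357049⟩]⟩
noncomputable def p011_l126 : Lf2 := ⟨nat_lit 0, nat_lit 2, [nat_lit 10, nat_lit 5, nat_lit 5, nat_lit 20], false, nat_lit 0, nat_lit 0, nat_lit 0, nat_lit 0, ⟨nat_lit 1000, nat_lit 0, nat_lit 0, nat_lit 0, nat_lit 0, nat_lit 0, nat_lit 0, nat_lit 0, nat_lit 0, nat_lit 0, nat_lit 0, nat_lit 0, nat_lit 0, nat_lit 0, nat_lit 0, nat_lit 0, false, false⟩,
 nat_lit 0, nat_lit 8505, nat_lit 0, nat_lit 0, nat_lit 4613, nat_lit 3748, nat_lit 1712, nat_lit 0, nat_lit 0, nat_lit 2189, nat_lit 0, nat_lit 0, nat_lit 0, nat_lit 0, nat_lit 0, nat_lit 0, nat_lit 0, nat_lit 0, [],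
 ⟨p011_k57, nat_lit 0, nat_lit 0, nat_lit 386, nat_lit 0, nat_lit 400669, [nat_lit 4688000000, nat_lit 6250000000, nat_lit 7968000000], [], [nat_lit 34904137994, nat_lit 35113485527, nat_lit 35190117953, nat_lit 34700164876], nat_lit 1271250, nat_lit 1271250, nat_lit 88400, nat_lit 181601, nat_lit 0, nat_lit 0, [nat_lit 1100000, nat_lit 1442500, nat_lit 1271250], [nat_lit 9, nat_lit 40, nat_lit 20, nat_lit 80, nat_lit 2, nat_lit 215, nat_lit 10, nat_lit 8]⟩, ⟨p011_k39, nat_lit 0, nat_lit 0, nat_lit 0, nat_lit 0, nat_lit 0, [nat_lit 2032000000, nat_lit 4688000000, nat_lit 6250000000, nat_lit 7089500000], [], [nat_lit 17862889287, nat_lit 18621967398, nat_lit 17391363524, nat_lit 18142560277], nat_lit 0, nat_lit 0, nat_lit 0, nat_lit 0, nat_lit 0, nat_lit 0, [], [nat_lit 101, nat_lit 40, nat_lit 20, nat_lit 40]⟩,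
 zbF0, [⟨nat_lit 0, nat_lit 100, nat_lit 99, nat_lit 42, nat_lit 852465554⟩]⟩
noncomputable def b_NL_600_600_0_1 : St := ⟨false, nat_lit 1, nat_lit 0, nat_lit 1, nat_lit 20, nat_lit 240, nat_lit 250, nat_lit 240, nat_lit 250, nat_lit 16, nat_lit 32, nat_lit 0, nat_lit 0, nat_lit 0, nat_lit 0, nat_lit 0, nat_lit 0, nat_lit 0, nat_lit 8, nat_lit 0, nat_lit 0, nat_lit 0, nat_lit 800⟩
theorem d_NL_600_600_0_1 (h : EB TB.env) : Dead b_NL_600_600_0_1 := chkB_sound0 h (T :=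
(.spl (nat_lit 0) (nat_lit 245)
(.ord (.spl (nat_lit 6) (nat_lit 4)
(.leaf p011_l70)
(.spl (nat_lit 1) (nat_lit 243)
(.spl (nat_lit 7) (nat_lit 600)
(.leaf p011_l71)
(.spl (nat_lit 8) (nat_lit 400)
(.spl (nat_lit 8) (nat_lit 200)
(.leaf p011_l72)
(.spl (nat_lit 8) (nat_lit 300)
(.spl (nat_lit 8) (nat_lit 260)
(.spl (nat_lit 8) (nat_lit 240)
(.spl (nat_lit 0) (nat_lit 243)
(.spl (nat_lit 1) (nat_lit 242)
(.spl (nat_lit 0) (nat_lit 242)
(.spl (nat_lit 1) (nat_lit 241)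
(.spl (nat_lit 8) (nat_lit 220)
(.spl (nat_lit 0) (nat_lit 241)
(.spl (nat_lit 2) (nat_lit 20)
(.spl (nat_lit 7) (nat_lit 900)
(.leaf p011_l73)
(.leaf p011_l74))
(.leaf p011_l75))
(.spl (nat_lit 2) (nat_lit 20)
(.spl (nat_lit 7) (nat_lit 900)
(.leaf p011_l76)
(.leaf p011_l77))
(.leaf p011_l78)))
(.spl (nat_lit 0) (nat_lit 241)
(.spl (nat_lit 2) (nat_lit 20)
(.spl (nat_lit 7) (nat_lit 900)
(.leaf p011_l79)
(.leaf p011_l80))
(.leaf p011_l81))
(.spl (nat_lit 2) (nat_lit 20)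
(.spl (nat_lit 7) (nat_lit 900)
(.leaf p011_l82)
(.leaf p011_l83))
(.leaf p011_l84))))
(.ord (.spl (nat_lit 8) (nat_lit 220)
(.spl (nat_lit 2) (nat_lit 20)
(.spl (nat_lit 7) (nat_lit 900)
(.leaf p011_l85)
(.leaf p011_l86))
(.leaf p011_l87))
(.spl (nat_lit 2) (nat_lit 20)
(.spl (nat_lit 7) (nat_lit 900)
(.leaf p011_l88)
(.leaf p011_l89))
(.leaf p011_l90)))))
(.spl (nat_lit 8) (nat_lit 220)
(.spl (nat_lit 1) (nat_lit 241)
(.spl (nat_lit 2) (nat_lit 20)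
(.spl (nat_lit 7) (nat_lit 900)
(.leaf p011_l91)
(.leaf p011_l92))
(.leaf p011_l93))
(.leaf p011_l94))
(.spl (nat_lit 1) (nat_lit 241)
(.spl (nat_lit 2) (nat_lit 20)
(.spl (nat_lit 7) (nat_lit 900)
(.leaf p011_l95)
(.leaf p011_l96))
(.leaf p011_l97))
(.spl (nat_lit 2) (nat_lit 20)
(.spl (nat_lit 7) (nat_lit 900)
(.leaf p011_l98)
(.leaf p011_l99))
(.leaf p011_l100)))))
(.ord (.spl (nat_lit 8) (nat_lit 220)
(.leaf p011_l101)
(.spl (nat_lit 2) (nat_lit 20)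
(.spl (nat_lit 7) (nat_lit 900)
(.leaf p011_l102)
(.leaf p011_l103))
(.leaf p011_l104)))))
(.spl (nat_lit 0) (nat_lit 244)
(.spl (nat_lit 1) (nat_lit 242)
(.spl (nat_lit 8) (nat_lit 220)
(.leaf p011_l105)
(.spl (nat_lit 1) (nat_lit 241)
(.spl (nat_lit 2) (nat_lit 20)
(.spl (nat_lit 7) (nat_lit 900)
(.leaf p011_l106)
(.leaf p011_l107))
(.leaf p011_l108))
(.spl (nat_lit 2) (nat_lit 20)
(.spl (nat_lit 7) (nat_lit 900)
(.leaf p011_l109)
(.leaf p011_l110))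
(.leaf p011_l111))))
(.leaf p011_l112))
(.spl (nat_lit 1) (nat_lit 242)
(.spl (nat_lit 1) (nat_lit 241)
(.leaf p011_l113)
(.leaf p011_l114))
(.leaf p011_l115))))
(.leaf p011_l116))
(.leaf p011_l117))
(.leaf p011_l118)))
(.leaf p011_l119)))
(.ord (.spl (nat_lit 0) (nat_lit 244)
(.ord (.spl (nat_lit 7) (nat_lit 600)
(.leaf p011_l120)
(.spl (nat_lit 8) (nat_lit 400)
(.spl (nat_lit 8) (nat_lit 200)
(.leaf p011_l121)
(.spl (nat_lit 8) (nat_lit 300)
(.leaf p011_l122)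
(.leaf p011_l123)))
(.leaf p011_l124))))
(.leaf p011_l125))))))
(.leaf p011_l126))) (by decide +kernel)
noncomputable def p011_l127 : Lf2 := ⟨nat_lit 0, nat_lit 4, [nat_lit 38, nat_lit 5, nat_lit 5, nat_lit 20], false, nat_lit 0, nat_lit 0, nat_lit 0, nat_lit 0, ⟨nat_lit 1000, nat_lit 0, nat_lit 0, nat_lit 0, nat_lit 0, nat_lit 0, nat_lit 0, nat_lit 0, nat_lit 0, nat_lit 0, nat_lit 0, nat_lit 0, nat_lit 0, nat_lit 0, nat_lit 0, nat_lit 0, false, false⟩,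
 nat_lit 0, nat_lit 16032, nat_lit 0, nat_lit 0, nat_lit 8487, nat_lit 7358, nat_lit 4172, nat_lit 0, nat_lit 0, nat_lit 0, nat_lit 0, nat_lit 0, nat_lit 0, nat_lit 1252349990848, nat_lit 0, nat_lit 0, nat_lit 0, nat_lit 0, [],
 ⟨p011_k58, nat_lit 0, nat_lit 0, nat_lit 0, nat_lit 0, nat_lit 318583, [nat_lit 4688000000, nat_lit 5449500000, nat_lit 7089500001, nat_lit 7968000000], [], [nat_lit 18891626093, nat_lit 19783049680, nat_lit 17870258964, nat_lit 18531493318], nat_lit 1271250, nat_lit 1271250, nat_lit 88400, nat_lit 181601, nat_lit 0, nat_lit 0, [nat_lit 1100000, nat_lit 1271250, nat_lit 1271250, nat_lit 1271250], [nat_lit 129, nat_lit 40, nat_lit 20, nat_lit 40]⟩, ⟨p011_k58, nat_lit 0, nat_lit 0, nat_lit 0, nat_lit 0, nat_lit 0, [nat_lit 4688000000, nat_lit 5449500000, nat_lit 7089500000, nat_lit 7968000000], [], [nat_lit 23361733737, nat_lit 23885505399, nat_lit 22246033628, nat_lit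 22686252865], nat_lit 0, nat_lit 0, nat_lit 0, nat_lit 0, nat_lit 0, nat_lit 0, [], [nat_lit 129, nat_lit 40, nat_lit 20, nat_lit 40]⟩,
 zbF0, [⟨nat_lit 0, nat_lit 100, nat_lit 100, nat_lit 40, nat_lit 1461586254⟩]⟩
noncomputable def p011_l128 : Lf2 := ⟨nat_lit 0, nat_lit 4, [nat_lit 38, nat_lit 5, nat_lit 5, nat_lit 20], false, nat_lit 0, nat_lit 0, nat_lit 0, nat_lit 0, ⟨nat_lit 1000, nat_lit 0, nat_lit 0, nat_lit 0, nat_lit 0, nat_lit 0, nat_lit 0, nat_lit 0, nat_lit 0, nat_lit 0, nat_lit 0, nat_lit 0, nat_lit 0, nat_lit 0, nat_lit 0, nat_lit 0, false, false⟩,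
 nat_lit 0, nat_lit 10721, nat_lit 0, nat_lit 0, nat_lit 5675, nat_lit 0, nat_lit 0, nat_lit 0, nat_lit 0, nat_lit 584, nat_lit 0, nat_lit 557, nat_lit 0, nat_lit 0, nat_lit 0, nat_lit 0, nat_lit 0, nat_lit 0, [],
 ⟨p011_k24, nat_lit 0, nat_lit 0, nat_lit 326, nat_lit 0, nat_lit 318583, [nat_lit 4688000000, nat_lit 6250000000, nat_lit 7968000000], [], [nat_lit 35901940441, nat_lit 36356487430, nat_lit 35344240200, nat_lit 35793995710], nat_lit 1271250, nat_lit 1271250, nat_lit 88400, nat_lit 181601, nat_lit 0, nat_lit 0, [nat_lit 1100000, nat_lit 1442500, nat_lit 1271250], [nat_lit 9, nat_lit 40, nat_lit 20, nat_lit 80, nat_lit 2, nat_lit 215, nat_lit 10, nat_lit 8]⟩, ⟨p011_k59, nat_lit 0, nat_lit 0, nat_lit 0, nat_lit 0, nat_lit 0, [nat_lit 2032000000, nat_lit 4688000000, nat_lit 6250000000, nat_lit 7968000000], [], [nat_lit 6281212200, nat_lit 6503244100, nat_lit 6523240000, nat_lit 6721334700],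 nat_lit 0, nat_lit 0, nat_lit 0, nat_lit 0, nat_lit 0, nat_lit 0, [], [nat_lit 98, nat_lit 40, nat_lit 20, nat_lit 40]⟩,
 zbF0, [⟨nat_lit 0, nat_lit 100, nat_lit 100, nat_lit 40, nat_lit 892079758⟩]⟩
noncomputable def p011_l129 : Lf2 := ⟨nat_lit 0, nat_lit 4, [nat_lit 38, nat_lit 5, nat_lit 5, nat_lit 20], true, nat_lit 0, nat_lit 0, nat_lit 0, nat_lit 0, ⟨nat_lit 0, nat_lit 0, nat_lit 1000, nat_lit 6, nat_lit 75, nat_lit 0, nat_lit 0, nat_lit 0, nat_lit 0, nat_lit 215, nat_lit 52267, nat_lit 271, nat_lit 64722992, nat_lit 0, nat_lit 0, nat_lit 741646, false, false⟩,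
 nat_lit 0, nat_lit 100000, nat_lit 0, nat_lit 0, nat_lit 52941, nat_lit 0, nat_lit 60000, nat_lit 20000, nat_lit 0, nat_lit 0, nat_lit 0, nat_lit 0, nat_lit 0, nat_lit 0, nat_lit 0, nat_lit 1000000, nat_lit 0, nat_lit 0, [(nat_lit 6, [(nat_lit 6, nat_lit 1000)])],
 ⟨p011_k58, nat_lit 0, nat_lit 0, nat_lit 0, nat_lit 0, nat_lit 318583, [nat_lit 320977066667, nat_lit 360566400000, nat_lit 439049600000, nat_lit 478082000000], [], [nat_lit 1037822407155, nat_lit 1040835459602, nat_lit 1029735016251, nat_lit 1032712106647], nat_lit 1271250, nat_lit 1271250, nat_lit 88400, nat_lit 181601, nat_lit 0, nat_lit 0, [nat_lit 1100000, nat_lit 1271250, nat_lit 1271250, nat_lit 1271250], [nat_lit 129, nat_lit 40, nat_lit 20, nat_lit 40]⟩, C1.Rw.none,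
 ⟨nat_lit 6123, nat_lit 6325, ⟨.ofNat (nat_lit 164319), .ofNat (nat_lit 197224), .ofNat (nat_lit 169661), .ofNat (nat_lit 202566), .ofNat (nat_lit 172944), .ofNat (nat_lit 205096), .ofNat (nat_lit 178281), .ofNat (nat_lit 210433)⟩, ⟨.ofNat (nat_lit 0), .ofNat (nat_lit 0), .ofNat (nat_lit 0), .ofNat (nat_lit 0), .ofNat (nat_lit 0), .ofNat (nat_lit 0), .ofNat (nat_lit 0), .ofNat (nat_lit 0)⟩⟩, [⟨nat_lit 13, nat_lit 100, nat_lit 1, nat_lit 100, nat_lit 231117441⟩]⟩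
noncomputable def p011_l130 : Lf2 := ⟨nat_lit 2, nat_lit 4, [nat_lit 38, nat_lit 5, nat_lit 5, nat_lit 20], true, nat_lit 0, nat_lit 0, nat_lit 0, nat_lit 0, zbN0,
 nat_lit 0, nat_lit 0, nat_lit 0, nat_lit 0, nat_lit 0, nat_lit 0, nat_lit 0, nat_lit 0, nat_lit 0, nat_lit 0, nat_lit 0, nat_lit 0, nat_lit 0, nat_lit 0, nat_lit 0, nat_lit 0, nat_lit 0, nat_lit 0, [],
 ⟨p011_k60, nat_lit 0, nat_lit 0, nat_lit 308, nat_lit 0, nat_lit 318583, [], [], [], nat_lit 1271250, nat_lit 1271250, nat_lit 88400, nat_lit 181601, nat_lit 0, nat_lit 0, [nat_lit 1100000, nat_lit 1785000], [nat_lit 39, nat_lit 40, nat_lit 20, nat_lit 80, nat_lit 7, nat_lit 215, nat_lit 10, nat_lit 8]⟩, C1.Rw.none,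
 zbF0, []⟩
noncomputable def p011_l131 : Lf2 := ⟨nat_lit 0, nat_lit 4, [nat_lit 38, nat_lit 5, nat_lit 5, nat_lit 20], false, nat_lit 0, nat_lit 0, nat_lit 0, nat_lit 0, ⟨nat_lit 259, nat_lit 0, nat_lit 741, nat_lit 6, nat_lit 75, nat_lit 0, nat_lit 0, nat_lit 0, nat_lit 0, nat_lit 215, nat_lit 52267, nat_lit 271, nat_lit 64722992, nat_lit 0, nat_lit 0, nat_lit 741646, false, false⟩,
 nat_lit 0, nat_lit 3681, nat_lit 0, nat_lit 0, nat_lit 1948, nat_lit 100000, nat_lit 0, nat_lit 0, nat_lit 0, nat_lit 0, nat_lit 8849, nat_lit 0, nat_lit 0, nat_lit 0, nat_lit 0, nat_lit 741000, nat_lit 0, nat_lit 0, [(nat_lit 6, [(nat_lit 6, nat_lit 741)])],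
 ⟨p011_k24, nat_lit 0, nat_lit 0, nat_lit 326, nat_lit 0, nat_lit 318583, [nat_lit 1938198401, nat_lit 1476478000, nat_lit 787390200], [], [nat_lit 25446856764, nat_lit 25772236934, nat_lit 25404475961, nat_lit 25733248579], nat_lit 1271250, nat_lit 1271250, nat_lit 88400, nat_lit 181601, nat_lit 0, nat_lit 0, [nat_lit 1100000, nat_lit 1442500, nat_lit 1271250], [nat_lit 9, nat_lit 40, nat_lit 20, nat_lit 80, nat_lit 2, nat_lit 215, nat_lit 10, nat_lit 8]⟩, ⟨p011_k61, nat_lit 0, nat_lit 0, nat_lit 0, nat_lit 0, nat_lit 0, [nat_lit 107038038000, nat_lit 142798192000, nat_lit 178598750000, nat_lit 196514180500, nat_lit 214439712000], [], [nat_lit 254652866876, nat_lit 258416150384, nat_lit 236179874424, nat_lit 239912852830], nat_lit 0, nat_lit 0, nat_lit 0, nat_lit 0, nat_lit 0, nat_lit 0, [], [nat_lit 250, nat_lit 10, nat_lit 4, nat_lit 20]⟩,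
 ⟨nat_lit 6123, nat_lit 6325, ⟨.ofNat (nat_lit 164319), .ofNat (nat_lit 197224), .ofNat (nat_lit 169661), .ofNat (nat_lit 202566), .ofNat (nat_lit 172944), .ofNat (nat_lit 205096), .ofNat (nat_lit 178281), .ofNat (nat_lit 210433)⟩, ⟨.ofNat (nat_lit 0), .ofNat (nat_lit 0), .ofNat (nat_lit 0), .ofNat (nat_lit 0), .ofNat (nat_lit 0), .ofNat (nat_lit 0), .ofNat (nat_lit 0), .ofNat (nat_lit 0)⟩⟩, [⟨nat_lit 0, nat_lit 100, nat_lit 100, nat_lit 44, nat_lit 6081143188⟩]⟩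
noncomputable def p011_l132 : Lf2 := ⟨nat_lit 3, nat_lit 4, [nat_lit 38, nat_lit 5, nat_lit 5, nat_lit 20], false, nat_lit 0, nat_lit 0, nat_lit 0, nat_lit 0, zbN0,
 nat_lit 0, nat_lit 0, nat_lit 0, nat_lit 0, nat_lit 0, nat_lit 0, nat_lit 0, nat_lit 0, nat_lit 0, nat_lit 0, nat_lit 0, nat_lit 0, nat_lit 0, nat_lit 0, nat_lit 0, nat_lit 0, nat_lit 0, nat_lit 0, [],
 C1.Rw.none, ⟨p011_k59, nat_lit 0, nat_lit 0, nat_lit 0, nat_lit 0, nat_lit 0, [], [], [], nat_lit 0, nat_lit 0, nat_lit 0, nat_lit 0, nat_lit 0, nat_lit 0, [], [nat_lit 98, nat_lit 40, nat_lit 20, nat_lit 80]⟩,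
 zbF0, []⟩
noncomputable def p011_l133 : Lf2 := ⟨nat_lit 0, nat_lit 3, [nat_lit 45, nat_lit 5, nat_lit 5, nat_lit 20], false, nat_lit 0, nat_lit 0, nat_lit 0, nat_lit 0, ⟨nat_lit 1000, nat_lit 0, nat_lit 0, nat_lit 0, nat_lit 0, nat_lit 0, nat_lit 0, nat_lit 0, nat_lit 0, nat_lit 0, nat_lit 0, nat_lit 0, nat_lit 0, nat_lit 0, nat_lit 0, nat_lit 0, false, false⟩,
 nat_lit 0, nat_lit 11563, nat_lit 0, nat_lit 0, nat_lit 6272, nat_lit 3812, nat_lit 0, nat_lit 0, nat_lit 0, nat_lit 2599, nat_lit 0, nat_lit 0, nat_lit 0, nat_lit 0, nat_lit 0, nat_lit 0, nat_lit 0, nat_lit 0, [],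
 ⟨p011_k62, nat_lit 0, nat_lit 0, nat_lit 323, nat_lit 0, nat_lit 325518, [nat_lit 4688000000, nat_lit 6250000000, nat_lit 7968000000], [], [nat_lit 34462989464, nat_lit 34699745488, nat_lit 34051036864, nat_lit 34285604287], nat_lit 1271250, nat_lit 1271250, nat_lit 111251, nat_lit 181601, nat_lit 0, nat_lit 0, [nat_lit 1100000, nat_lit 1442500, nat_lit 1271250], [nat_lit 9, nat_lit 40, nat_lit 20, nat_lit 80, nat_lit 2, nat_lit 215, nat_lit 10, nat_lit 8]⟩, ⟨p011_k63, nat_lit 0, nat_lit 0, nat_lit 0, nat_lit 0, nat_lit 0, [nat_lit 2032000000, nat_lit 4688000000, nat_lit 6250000000, nat_lit 7968000000], [], [nat_lit 17466016461, nat_lit 17864667789, nat_lit 17178310426, nat_lit 17557067945], nat_lit 0, nat_lit 0, nat_lit 0, nat_lit 0, nat_lit 0, nat_lit 0, [], [nat_lit 98, nat_lit 40, nat_lit 20, nat_lit 40]⟩,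
 zbF0, [⟨nat_lit 0, nat_lit 100, nat_lit 100, nat_lit 45, nat_lit 1066785682⟩]⟩
noncomputable def p011_l134 : Lf2 := ⟨nat_lit 0, nat_lit 4, [nat_lit 38, nat_lit 5, nat_lit 5, nat_lit 20], false, nat_lit 0, nat_lit 0, nat_lit 0, nat_lit 0, ⟨nat_lit 1000, nat_lit 0, nat_lit 0, nat_lit 0, nat_lit 0, nat_lit 0, nat_lit 0, nat_lit 0, nat_lit 0, nat_lit 0, nat_lit 0, nat_lit 0, nat_lit 0, nat_lit 0, nat_lit 0, nat_lit 0, false, false⟩,
 nat_lit 0, nat_lit 15406, nat_lit 0, nat_lit 0, nat_lit 8356, nat_lit 3734, nat_lit 1934, nat_lit 0, nat_lit 0, nat_lit 2515, nat_lit 0, nat_lit 0, nat_lit 0, nat_lit 0, nat_lit 0, nat_lit 0, nat_lit 0, nat_lit 0, [],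
 ⟨p011_k25, nat_lit 0, nat_lit 0, nat_lit 311, nat_lit 0, nat_lit 296198, [nat_lit 4688000000, nat_lit 6250000000, nat_lit 7968000000], [], [nat_lit 22163959510, nat_lit 22527067554, nat_lit 22093920885, nat_lit 21827482787], nat_lit 1271250, nat_lit 1271250, nat_lit 111251, nat_lit 181601, nat_lit 0, nat_lit 0, [nat_lit 1100000, nat_lit 1442500, nat_lit 1271250], [nat_lit 9, nat_lit 40, nat_lit 20, nat_lit 80, nat_lit 2, nat_lit 215, nat_lit 10, nat_lit 8]⟩, ⟨p011_k64, nat_lit 0, nat_lit 0, nat_lit 0, nat_lit 0, nat_lit 0, [nat_lit 2032000000, nat_lit 4688000000, nat_lit 6250000000, nat_lit 7968000000], [], [nat_lit 17590014296, nat_lit 17949051860, nat_lit 17301539433, nat_lit 17644294440], nat_lit 0, nat_lit 0, nat_lit 0, nat_lit 0, nat_lit 0, nat_lit 0, [], [nat_lit 98, nat_lit 40, nat_lit 20, nat_lit 40]⟩,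
 zbF0, [⟨nat_lit 0, nat_lit 100, nat_lit 100, nat_lit 48, nat_lit 925923673⟩]⟩
noncomputable def p011_l135 : Lf2 := ⟨nat_lit 0, nat_lit 5, [nat_lit 4, nat_lit 5, nat_lit 5, nat_lit 20], false, nat_lit 0, nat_lit 0, nat_lit 0, nat_lit 0, ⟨nat_lit 1000, nat_lit 0, nat_lit 0, nat_lit 0, nat_lit 0, nat_lit 0, nat_lit 0, nat_lit 0, nat_lit 0, nat_lit 0, nat_lit 0, nat_lit 0, nat_lit 0, nat_lit 0, nat_lit 0, nat_lit 0, false, false⟩,
 nat_lit 0, nat_lit 18301, nat_lit 0, nat_lit 0, nat_lit 9688, nat_lit 3642, nat_lit 1252, nat_lit 0, nat_lit 0, nat_lit 2602, nat_lit 0, nat_lit 0, nat_lit 0, nat_lit 401800944987, nat_lit 0, nat_lit 0, nat_lit 0, nat_lit 0, [],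
 ⟨p011_k26, nat_lit 0, nat_lit 0, nat_lit 423, nat_lit 0, nat_lit 275344, [nat_lit 4688000000, nat_lit 6250000000, nat_lit 9842000000], [], [nat_lit 27626415612, nat_lit 28261061889, nat_lit 26310235586, nat_lit 26938830381], nat_lit 1271250, nat_lit 1271250, nat_lit 88400, nat_lit 181601, nat_lit 0, nat_lit 0, [nat_lit 1100000, nat_lit 1442500, nat_lit 1271250], [nat_lit 11, nat_lit 40, nat_lit 20, nat_lit 80, nat_lit 1, nat_lit 289, nat_lit 75, nat_lit 9]⟩, ⟨p011_k65, nat_lit 0, nat_lit 0, nat_lit 0, nat_lit 0, nat_lit 0, [nat_lit 2032000000, nat_lit 4688000000, nat_lit 6250000000, nat_lit 8885500000], [], [nat_lit 18014881065, nat_lit 18690281066, nat_lit 17547768969, nat_lit 18237911348], nat_lit 0, nat_lit 0, nat_lit 0, nat_lit 0, nat_lit 0, nat_lit 0, [], [nat_lit 128, nat_lit 40, nat_lit 20, nat_lit 40]⟩,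
 zbF0, [⟨nat_lit 0, nat_lit 100, nat_lit 100, nat_lit 45, nat_lit 348755432⟩, ⟨nat_lit 0, nat_lit 100, nat_lit 100, nat_lit 40, nat_lit 982248910⟩]⟩
noncomputable def b_NL_600_600_0_2 : St := ⟨false, nat_lit 1, nat_lit 0, nat_lit 1, nat_lit 20, nat_lit 240, nat_lit 250, nat_lit 240, nat_lit 250, nat_lit 16, nat_lit 32, nat_lit 0, nat_lit 0, nat_lit 0, nat_lit 0, nat_lit 0, nat_lit 0, nat_lit 8, nat_lit 20, nat_lit 0, nat_lit 0, nat_lit 0, nat_lit 800⟩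
theorem d_NL_600_600_0_2 (h : EB TB.env) : Dead b_NL_600_600_0_2 := chkB_sound0 h (T :=
(.spl (nat_lit 6) (nat_lit 16)
(.spl (nat_lit 1) (nat_lit 245)
(.spl (nat_lit 7) (nat_lit 600)
(.leaf p011_l127)
(.spl (nat_lit 8) (nat_lit 400)
(.spl (nat_lit 8) (nat_lit 200)
(.leaf p011_l128)
(.spl (nat_lit 8) (nat_lit 300)
(.spl (nat_lit 7) (nat_lit 900)
(.leaf p011_l129)
(.leaf p011_l130))
(.leaf p011_l131)))
(.leaf p011_l132)))
(.ord (.trZ (nat_lit 0) (nat_lit 100) (nat_lit 100) (nat_lit 45) (nat_lit 20) (.spl (nat_lit 6) (nat_lit 12)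
(.leaf p011_l133)
(.leaf p011_l134)))))
(.leaf p011_l135))) (by decide +kernel)
noncomputable def p011_l136 : Lf2 := ⟨nat_lit 0, nat_lit 2, [nat_lit 10, nat_lit 5, nat_lit 5, nat_lit 20], false, nat_lit 0, nat_lit 0, nat_lit 0, nat_lit 0, ⟨nat_lit 1000, nat_lit 0, nat_lit 0, nat_lit 0, nat_lit 0, nat_lit 0, nat_lit 0, nat_lit 0, nat_lit 0, nat_lit 0, nat_lit 0, nat_lit 0, nat_lit 0, nat_lit 0, nat_lit 0, nat_lit 0, false, false⟩,
 nat_lit 0, nat_lit 6672, nat_lit 0, nat_lit 0, nat_lit 3706, nat_lit 7920, nat_lit 1973, nat_lit 0, nat_lit 0, nat_lit 3313, nat_lit 0, nat_lit 0, nat_lit 0, nat_lit 0, nat_lit 0, nat_lit 0, nat_lit 0, nat_lit 0, [],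
 ⟨p011_k28, nat_lit 0, nat_lit 0, nat_lit 375, nat_lit 0, nat_lit 384080, [nat_lit 4688000000, nat_lit 6250000000, nat_lit 7968000000], [], [nat_lit 33647629278, nat_lit 33782890974, nat_lit 33596820426, nat_lit 33731696449], nat_lit 1271250, nat_lit 1271250, nat_lit 111251, nat_lit 134400, nat_lit 0, nat_lit 0, [nat_lit 1100000, nat_lit 1442500, nat_lit 1271250], [nat_lit 9, nat_lit 40, nat_lit 20, nat_lit 80, nat_lit 2, nat_lit 215, nat_lit 10, nat_lit 8]⟩, ⟨p011_k20, nat_lit 0, nat_lit 0, nat_lit 0, nat_lit 0, nat_lit 0, [nat_lit 4688000000, nat_lit 6250000000, nat_lit 7968000000], [], [nat_lit 17735996480, nat_lit 18349830760, nat_lit 17480031041, nat_lit 18008259653], nat_lit 0, nat_lit 0, nat_lit 0, nat_lit 0, nat_lit 0, nat_lit 0, [], [nat_lit 9, nat_lit 40, nat_lit 20, nat_lit 80]⟩,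
 zbF0, [⟨nat_lit 0, nat_lit 100, nat_lit 99, nat_lit 45, nat_lit 1176555694⟩]⟩
noncomputable def p011_l137 : Lf2 := ⟨nat_lit 0, nat_lit 5, [nat_lit 4, nat_lit 5, nat_lit 5, nat_lit 20], false, nat_lit 0, nat_lit 0, nat_lit 0, nat_lit 0, ⟨nat_lit 1000, nat_lit 0, nat_lit 0, nat_lit 0, nat_lit 0, nat_lit 0, nat_lit 0, nat_lit 0, nat_lit 0, nat_lit 0, nat_lit 0, nat_lit 0, nat_lit 0, nat_lit 0, nat_lit 0, nat_lit 0, false, false⟩,
 nat_lit 0, nat_lit 15677, nat_lit 0, nat_lit 0, nat_lit 8709, nat_lit 6887, nat_lit 2768, nat_lit 0, nat_lit 0, nat_lit 3081, nat_lit 0, nat_lit 0, nat_lit 0, nat_lit 0, nat_lit 0, nat_lit 0, nat_lit 0, nat_lit 0, [],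
 ⟨p011_k29, nat_lit 0, nat_lit 0, nat_lit 323, nat_lit 0, nat_lit 323164, [nat_lit 4688000000, nat_lit 6250000000, nat_lit 7968000000], [], [nat_lit 19495091365, nat_lit 19768575449, nat_lit 19255410793, nat_lit 19503183996], nat_lit 1271250, nat_lit 1271250, nat_lit 111251, nat_lit 134400, nat_lit 0, nat_lit 0, [nat_lit 1100000, nat_lit 1442500, nat_lit 1271250], [nat_lit 9, nat_lit 40, nat_lit 20, nat_lit 80, nat_lit 2, nat_lit 215, nat_lit 10, nat_lit 8]⟩, ⟨p011_k26, nat_lit 0, nat_lit 0, nat_lit 0, nat_lit 0, nat_lit 0, [nat_lit 4688000000, nat_lit 6250000000, nat_lit 9842000000], [], [nat_lit 18774099578, nat_lit 19246815148, nat_lit 18560268064, nat_lit 19032060812], nat_lit 0, nat_lit 0, nat_lit 0, nat_lit 0, nat_lit 0, nat_lit 0, [], [nat_lit 11, nat_lit 40, nat_lit 20, nat_lit 80]⟩,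
 zbF0, [⟨nat_lit 0, nat_lit 100, nat_lit 99, nat_lit 45, nat_lit 1361383070⟩]⟩
noncomputable def p011_l138 : Lf2 := ⟨nat_lit 0, nat_lit 5, [nat_lit 4, nat_lit 5, nat_lit 5, nat_lit 20], false, nat_lit 0, nat_lit 0, nat_lit 0, nat_lit 0, ⟨nat_lit 1000, nat_lit 0, nat_lit 0, nat_lit 0, nat_lit 0, nat_lit 0, nat_lit 0, nat_lit 0, nat_lit 0, nat_lit 0, nat_lit 0, nat_lit 0, nat_lit 0, nat_lit 0, nat_lit 0, nat_lit 0, false, false⟩,
 nat_lit 0, nat_lit 12661, nat_lit 0, nat_lit 0, nat_lit 7033, nat_lit 3709, nat_lit 0, nat_lit 0, nat_lit 0, nat_lit 2623, nat_lit 0, nat_lit 0, nat_lit 0, nat_lit 0, nat_lit 0, nat_lit 0, nat_lit 0, nat_lit 0, [],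
 ⟨p011_k29, nat_lit 0, nat_lit 0, nat_lit 397, nat_lit 0, nat_lit 436785, [nat_lit 4688000000, nat_lit 6250000000, nat_lit 7968000000], [], [nat_lit 33412459646, nat_lit 32999291929, nat_lit 32687428782, nat_lit 32836527528], nat_lit 1271250, nat_lit 1271250, nat_lit 111251, nat_lit 134400, nat_lit 0, nat_lit 0, [nat_lit 1100000, nat_lit 1442500, nat_lit 1271250], [nat_lit 9, nat_lit 40, nat_lit 20, nat_lit 80, nat_lit 2, nat_lit 215, nat_lit 10, nat_lit 8]⟩, ⟨p011_k66, nat_lit 0, nat_lit 0, nat_lit 0, nat_lit 0, nat_lit 0, [nat_lit 2032000000, nat_lit 4688000000, nat_lit 6250000000, nat_lit 8885500000], [], [nat_lit 17582372434, nat_lit 18147393721, nat_lit 17453999493, nat_lit 18054612269], nat_lit 0, nat_lit 0, nat_lit 0, nat_lit 0, nat_lit 0, nat_lit 0, [], [nat_lit 128, nat_lit 40, nat_lit 20, nat_lit 40]⟩,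
 zbF0, [⟨nat_lit 0, nat_lit 100, nat_lit 99, nat_lit 47, nat_lit 1862749234⟩]⟩
noncomputable def p011_l139 : Lf2 := ⟨nat_lit 0, nat_lit 5, [nat_lit 4, nat_lit 5, nat_lit 5, nat_lit 20], false, nat_lit 0, nat_lit 0, nat_lit 0, nat_lit 0, ⟨nat_lit 1000, nat_lit 0, nat_lit 0, nat_lit 0, nat_lit 0, nat_lit 0, nat_lit 0, nat_lit 0, nat_lit 0, nat_lit 0, nat_lit 0, nat_lit 0, nat_lit 0, nat_lit 0, nat_lit 0, nat_lit 0, false, false⟩,
 nat_lit 0, nat_lit 13112, nat_lit 0, nat_lit 0, nat_lit 7388, nat_lit 3690, nat_lit 0, nat_lit 0, nat_lit 0, nat_lit 2637, nat_lit 0, nat_lit 0, nat_lit 0, nat_lit 0, nat_lit 0, nat_lit 0, nat_lit 0, nat_lit 0, [],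
 ⟨p011_k67, nat_lit 0, nat_lit 0, nat_lit 401, nat_lit 0, nat_lit 446191, [nat_lit 4688000000, nat_lit 6250000000, nat_lit 7968000000], [], [nat_lit 32727907942, nat_lit 32346028132, nat_lit 31965687437, nat_lit 32067413725], nat_lit 1271250, nat_lit 1271250, nat_lit 111251, nat_lit 134400, nat_lit 0, nat_lit 0, [nat_lit 1100000, nat_lit 1442500, nat_lit 1271250], [nat_lit 9, nat_lit 40, nat_lit 20, nat_lit 80, nat_lit 2, nat_lit 215, nat_lit 10, nat_lit 8]⟩, ⟨p011_k65, nat_lit 0, nat_lit 0, nat_lit 0, nat_lit 0, nat_lit 0, [nat_lit 2032000000, nat_lit 4688000000, nat_lit 6250000000, nat_lit 8885500000], [], [nat_lit 17724563185, nat_lit 18844340120, nat_lit 17628729512, nat_lit 18752049716], nat_lit 0, nat_lit 0, nat_lit 0, nat_lit 0, nat_lit 0, nat_lit 0, [], [nat_lit 128, nat_lit 40, nat_lit 20, nat_lit 40]⟩,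
 zbF0, [⟨nat_lit 0, nat_lit 100, nat_lit 98, nat_lit 46, nat_lit 1888474599⟩]⟩
noncomputable def p011_l140 : Lf2 := ⟨nat_lit 0, nat_lit 5, [nat_lit 4, nat_lit 5, nat_lit 5, nat_lit 20], false, nat_lit 0, nat_lit 0, nat_lit 0, nat_lit 0, ⟨nat_lit 1000, nat_lit 0, nat_lit 0, nat_lit 0, nat_lit 0, nat_lit 0, nat_lit 0, nat_lit 0, nat_lit 0, nat_lit 0, nat_lit 0, nat_lit 0, nat_lit 0, nat_lit 0, nat_lit 0, nat_lit 0, false, false⟩,
 nat_lit 0, nat_lit 13437, nat_lit 0, nat_lit 0, nat_lit 7642, nat_lit 3724, nat_lit 0, nat_lit 0, nat_lit 0, nat_lit 2643, nat_lit 0, nat_lit 0, nat_lit 0, nat_lit 0, nat_lit 0, nat_lit 0, nat_lit 0, nat_lit 0, [],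
 ⟨p011_k34, nat_lit 0, nat_lit 0, nat_lit 417, nat_lit 0, nat_lit 481712, [nat_lit 4688000000, nat_lit 6250000000, nat_lit 7968000000], [], [nat_lit 32233262038, nat_lit 31887844096, nat_lit 31445998814, nat_lit 31704477138], nat_lit 1271250, nat_lit 1271250, nat_lit 111251, nat_lit 134400, nat_lit 0, nat_lit 0, [nat_lit 1100000, nat_lit 1442500, nat_lit 1271250], [nat_lit 9, nat_lit 40, nat_lit 20, nat_lit 80, nat_lit 2, nat_lit 215, nat_lit 10, nat_lit 8]⟩, ⟨p011_k65, nat_lit 0, nat_lit 0, nat_lit 0, nat_lit 0, nat_lit 0, [nat_lit 2032000000, nat_lit 4688000000, nat_lit 6250000000, nat_lit 8885500000], [], [nat_lit 17725998575, nat_lit 19196890192, nat_lit 17597742756, nat_lit 19102252327], nat_lit 0, nat_lit 0, nat_lit 0, nat_lit 0, nat_lit 0, nat_lit 0, [], [nat_lit 128, nat_lit 40, nat_lit 20, nat_lit 40]⟩,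
 zbF0, [⟨nat_lit 0, nat_lit 100, nat_lit 98, nat_lit 47, nat_lit 1960473510⟩]⟩
noncomputable def p011_l141 : Lf2 := ⟨nat_lit 0, nat_lit 5, [nat_lit 4, nat_lit 5, nat_lit 5, nat_lit 20], false, nat_lit 0, nat_lit 0, nat_lit 0, nat_lit 0, ⟨nat_lit 1000, nat_lit 0, nat_lit 0, nat_lit 0, nat_lit 0, nat_lit 0, nat_lit 0, nat_lit 0, nat_lit 0, nat_lit 0, nat_lit 0, nat_lit 0, nat_lit 0, nat_lit 0, nat_lit 0, nat_lit 0, false, false⟩,
 nat_lit 0, nat_lit 12661, nat_lit 0, nat_lit 0, nat_lit 7033, nat_lit 3724, nat_lit 0, nat_lit 0, nat_lit 0, nat_lit 2583, nat_lit 0, nat_lit 0, nat_lit 0, nat_lit 0, nat_lit 0, nat_lit 0, nat_lit 0, nat_lit 0, [],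
 ⟨p011_k29, nat_lit 0, nat_lit 0, nat_lit 419, nat_lit 0, nat_lit 493855, [nat_lit 4688000000, nat_lit 6250000000, nat_lit 7968000000], [], [nat_lit 32687428782, nat_lit 33184424603, nat_lit 32362847380, nat_lit 32856685200], nat_lit 1271250, nat_lit 1271250, nat_lit 134400, nat_lit 181601, nat_lit 0, nat_lit 0, [nat_lit 1100000, nat_lit 1442500, nat_lit 1271250], [nat_lit 9, nat_lit 40, nat_lit 20, nat_lit 80, nat_lit 2, nat_lit 215, nat_lit 10, nat_lit 8]⟩, ⟨p011_k65, nat_lit 0, nat_lit 0, nat_lit 0, nat_lit 0, nat_lit 0, [nat_lit 2032000000, nat_lit 4688000000, nat_lit 6250000000, nat_lit 8885500000], [], [nat_lit 17741345501, nat_lit 19102252327, nat_lit 17546142800, nat_lit 18912976596], nat_lit 0, nat_lit 0, nat_lit 0, nat_lit 0, nat_lit 0, nat_lit 0, [], [nat_lit 128, nat_lit 40, nat_lit 20, nat_lit 40]⟩,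
 zbF0, [⟨nat_lit 0, nat_lit 100, nat_lit 99, nat_lit 52, nat_lit 645393035⟩]⟩
noncomputable def p011_l142 : Lf2 := ⟨nat_lit 0, nat_lit 5, [nat_lit 4, nat_lit 5, nat_lit 5, nat_lit 20], false, nat_lit 0, nat_lit 0, nat_lit 0, nat_lit 0, ⟨nat_lit 1000, nat_lit 0, nat_lit 0, nat_lit 0, nat_lit 0, nat_lit 0, nat_lit 0, nat_lit 0, nat_lit 0, nat_lit 0, nat_lit 0, nat_lit 0, nat_lit 0, nat_lit 0, nat_lit 0, nat_lit 0, false, false⟩,
 nat_lit 0, nat_lit 15064, nat_lit 0, nat_lit 0, nat_lit 8368, nat_lit 3866, nat_lit 102, nat_lit 0, nat_lit 0, nat_lit 2629, nat_lit 0, nat_lit 0, nat_lit 0, nat_lit 17441347180319, nat_lit 0, nat_lit 0, nat_lit 0, nat_lit 0, [],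
 ⟨p011_k29, nat_lit 0, nat_lit 0, nat_lit 412, nat_lit 0, nat_lit 493855, [nat_lit 4688000000, nat_lit 6250000000, nat_lit 7968000000], [], [nat_lit 30354541170, nat_lit 29238834804, nat_lit 28624095672, nat_lit 28825614816], nat_lit 1271250, nat_lit 1271250, nat_lit 181601, nat_lit 230001, nat_lit 0, nat_lit 0, [nat_lit 1100000, nat_lit 1442500, nat_lit 1271250], [nat_lit 9, nat_lit 40, nat_lit 20, nat_lit 80, nat_lit 2, nat_lit 215, nat_lit 10, nat_lit 7]⟩, ⟨p011_k65, nat_lit 0, nat_lit 0, nat_lit 0, nat_lit 0, nat_lit 0, [nat_lit 2032000000, nat_lit 4688000000, nat_lit 6250000000, nat_lit 8885500000], [], [nat_lit 17417241393, nat_lit 18799260837, nat_lit 17146449241, nat_lit 18597496376], nat_lit 0, nat_lit 0, nat_lit 0, nat_lit 0, nat_lit 0, nat_lit 0, [], [nat_lit 128, nat_lit 40, nat_lit 20, nat_lit 40]⟩,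
 zbF0, []⟩
noncomputable def p011_l143 : Lf2 := ⟨nat_lit 0, nat_lit 5, [nat_lit 4, nat_lit 5, nat_lit 5, nat_lit 20], false, nat_lit 0, nat_lit 0, nat_lit 0, nat_lit 0, ⟨nat_lit 1000, nat_lit 0, nat_lit 0, nat_lit 0, nat_lit 0, nat_lit 0, nat_lit 0, nat_lit 0, nat_lit 0, nat_lit 0, nat_lit 0, nat_lit 0, nat_lit 0, nat_lit 0, nat_lit 0, nat_lit 0, false, false⟩,
 nat_lit 0, nat_lit 16245, nat_lit 0, nat_lit 0, nat_lit 9025, nat_lit 3944, nat_lit 337, nat_lit 0, nat_lit 0, nat_lit 2638, nat_lit 0, nat_lit 0, nat_lit 0, nat_lit 20078648118011, nat_lit 0, nat_lit 0, nat_lit 0, nat_lit 0, [],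
 ⟨p011_k29, nat_lit 0, nat_lit 0, nat_lit 404, nat_lit 0, nat_lit 493855, [nat_lit 4688000000, nat_lit 6250000000, nat_lit 7968000000], [], [nat_lit 27980717475, nat_lit 26604794500, nat_lit 28891291200, nat_lit 26735724100], nat_lit 1271250, nat_lit 1271250, nat_lit 230001, nat_lit 490000, nat_lit 0, nat_lit 0, [nat_lit 1100000, nat_lit 1442500, nat_lit 1271250], [nat_lit 9, nat_lit 40, nat_lit 20, nat_lit 80, nat_lit 2, nat_lit 226, nat_lit 20, nat_lit 8]⟩, ⟨p011_k65, nat_lit 0, nat_lit 0, nat_lit 0, nat_lit 0, nat_lit 0, [nat_lit 2032000000, nat_lit 4688000000, nat_lit 6250000000, nat_lit 8885500000], [], [nat_lit 17139390470, nat_lit 18528172784, nat_lit 16777324352, nat_lit 18258161376], nat_lit 0, nat_lit 0, nat_lit 0, nat_lit 0, nat_lit 0, nat_lit 0, [], [nat_lit 128, nat_lit 40, nat_lit 20, nat_lit 40]⟩,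
 zbF0, []⟩
noncomputable def p011_l144 : Lf2 := ⟨nat_lit 0, nat_lit 5, [nat_lit 4, nat_lit 5, nat_lit 5, nat_lit 20], false, nat_lit 0, nat_lit 0, nat_lit 0, nat_lit 0, ⟨nat_lit 1000, nat_lit 0, nat_lit 0, nat_lit 0, nat_lit 0, nat_lit 0, nat_lit 0, nat_lit 0, nat_lit 0, nat_lit 0, nat_lit 0, nat_lit 0, nat_lit 0, nat_lit 0, nat_lit 0, nat_lit 0, false, false⟩,
 nat_lit 0, nat_lit 15177, nat_lit 0, nat_lit 0, nat_lit 8431, nat_lit 3644, nat_lit 2601, nat_lit 0, nat_lit 0, nat_lit 204, nat_lit 0, nat_lit 0, nat_lit 0, nat_lit 2101550199355, nat_lit 0, nat_lit 0, nat_lit 0, nat_lit 0, [],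
 ⟨p011_k29, nat_lit 0, nat_lit 0, nat_lit 312, nat_lit 0, nat_lit 293605, [nat_lit 4688000000, nat_lit 6250000000, nat_lit 7968000000], [], [nat_lit 20123190794, nat_lit 20519449911, nat_lit 20960229451, nat_lit 19909967135], nat_lit 1271250, nat_lit 1271250, nat_lit 111251, nat_lit 490000, nat_lit 0, nat_lit 0, [nat_lit 1100000, nat_lit 1442500, nat_lit 1271250], [nat_lit 9, nat_lit 40, nat_lit 20, nat_lit 80, nat_lit 2, nat_lit 226, nat_lit 20, nat_lit 8]⟩, ⟨p011_k65, nat_lit 0, nat_lit 0, nat_lit 0, nat_lit 0, nat_lit 0, [nat_lit 2032000000, nat_lit 4688000000, nat_lit 6250000000, nat_lit 8885500000], [], [nat_lit 23576518556, nat_lit 24547210130, nat_lit 22861078188, nat_lit 23790172812], nat_lit 0, nat_lit 0, nat_lit 0, nat_lit 0, nat_lit 0, nat_lit 0, [], [nat_lit 128, nat_lit 40, nat_lit 20, nat_lit 40]⟩,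
 zbF0, [⟨nat_lit 0, nat_lit 100, nat_lit 100, nat_lit 55, nat_lit 732304669⟩]⟩
noncomputable def p011_l145 : Lf2 := ⟨nat_lit 0, nat_lit 5, [nat_lit 4, nat_lit 5, nat_lit 5, nat_lit 20], false, nat_lit 0, nat_lit 0, nat_lit 0, nat_lit 0, ⟨nat_lit 1000, nat_lit 0, nat_lit 0, nat_lit 0, nat_lit 0, nat_lit 0, nat_lit 0, nat_lit 0, nat_lit 0, nat_lit 0, nat_lit 0, nat_lit 0, nat_lit 0, nat_lit 0, nat_lit 0, nat_lit 0, false, false⟩,
 nat_lit 0, nat_lit 14523, nat_lit 0, nat_lit 0, nat_lit 8260, nat_lit 3680, nat_lit 2542, nat_lit 0, nat_lit 0, nat_lit 120, nat_lit 0, nat_lit 0, nat_lit 0, nat_lit 0, nat_lit 0, nat_lit 0, nat_lit 0, nat_lit 0, [],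
 ⟨p011_k34, nat_lit 0, nat_lit 0, nat_lit 329, nat_lit 0, nat_lit 329645, [nat_lit 4688000000, nat_lit 6250000000, nat_lit 7968000000], [], [nat_lit 19818664060, nat_lit 20210116880, nat_lit 19238583870, nat_lit 18209623280], nat_lit 1271250, nat_lit 1271250, nat_lit 111251, nat_lit 490000, nat_lit 0, nat_lit 0, [nat_lit 1100000, nat_lit 1442500, nat_lit 1271250], [nat_lit 9, nat_lit 40, nat_lit 20, nat_lit 80, nat_lit 2, nat_lit 226, nat_lit 20, nat_lit 8]⟩, ⟨p011_k65, nat_lit 0, nat_lit 0, nat_lit 0, nat_lit 0, nat_lit 0, [nat_lit 2032000000, nat_lit 4688000000, nat_lit 6250000000, nat_lit 8885500000], [], [nat_lit 23761923320, nat_lit 25108201720, nat_lit 23028102360, nat_lit 24272303400], nat_lit 0, nat_lit 0, nat_lit 0, nat_lit 0, nat_lit 0, nat_lit 0, [], [nat_lit 128, nat_lit 40, nat_lit 20, nat_lit 40]⟩,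
 zbF0, [⟨nat_lit 0, nat_lit 100, nat_lit 99, nat_lit 53, nat_lit 843120577⟩]⟩
noncomputable def p011_l146 : Lf2 := ⟨nat_lit 0, nat_lit 5, [nat_lit 4, nat_lit 5, nat_lit 5, nat_lit 20], false, nat_lit 0, nat_lit 0, nat_lit 0, nat_lit 0, ⟨nat_lit 1000, nat_lit 0, nat_lit 0, nat_lit 0, nat_lit 0, nat_lit 0, nat_lit 0, nat_lit 0, nat_lit 0, nat_lit 0, nat_lit 0, nat_lit 0, nat_lit 0, nat_lit 0, nat_lit 0, nat_lit 0, false, false⟩,
 nat_lit 0, nat_lit 12603, nat_lit 0, nat_lit 0, nat_lit 7001, nat_lit 6878, nat_lit 5048, nat_lit 0, nat_lit 0, nat_lit 0, nat_lit 0, nat_lit 0, nat_lit 0, nat_lit 0, nat_lit 0, nat_lit 0, nat_lit 0, nat_lit 0, [],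
 ⟨p011_k29, nat_lit 0, nat_lit 0, nat_lit 622, nat_lit 0, nat_lit 984917, [nat_lit 4688000000, nat_lit 6250000000, nat_lit 7968000000], [], [nat_lit 28241133279, nat_lit 26704544488, nat_lit 26099523786, nat_lit 26419623848], nat_lit 1271250, nat_lit 1271250, nat_lit 490000, nat_lit 780000, nat_lit 0, nat_lit 0, [nat_lit 1100000, nat_lit 1442500, nat_lit 1271250], [nat_lit 9, nat_lit 40, nat_lit 20, nat_lit 80, nat_lit 2, nat_lit 238, nat_lit 30, nat_lit 8]⟩, ⟨p011_k68, nat_lit 0, nat_lit 0, nat_lit 0, nat_lit 0, nat_lit 0, [nat_lit 4688000000, nat_lit 6250000000, nat_lit 8885500000], [], [nat_lit 10957569856, nat_lit 12125857838, nat_lit 11056597424, nat_lit 12165988790], nat_lit 0, nat_lit 0, nat_lit 0, nat_lit 0, nat_lit 0, nat_lit 0, [], [nat_lit 123, nat_lit 40, nat_lit 20, nat_lit 40]⟩,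
 zbF0, []⟩
noncomputable def p011_l147 : Lf2 := ⟨nat_lit 0, nat_lit 5, [nat_lit 4, nat_lit 5, nat_lit 5, nat_lit 20], false, nat_lit 0, nat_lit 0, nat_lit 0, nat_lit 0, ⟨nat_lit 1000, nat_lit 0, nat_lit 0, nat_lit 0, nat_lit 0, nat_lit 0, nat_lit 0, nat_lit 0, nat_lit 0, nat_lit 0, nat_lit 0, nat_lit 0, nat_lit 0, nat_lit 0, nat_lit 0, nat_lit 0, false, false⟩,
 nat_lit 0, nat_lit 13736, nat_lit 0, nat_lit 0, nat_lit 7631, nat_lit 6725, nat_lit 5644, nat_lit 0, nat_lit 0, nat_lit 0, nat_lit 0, nat_lit 0, nat_lit 0, nat_lit 4889873064832, nat_lit 0, nat_lit 0, nat_lit 0, nat_lit 0, [],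
 ⟨p011_k29, nat_lit 0, nat_lit 0, nat_lit 667, nat_lit 0, nat_lit 1092630, [nat_lit 4688000000, nat_lit 6250000000, nat_lit 7968000000], [], [nat_lit 27717149049, nat_lit 25759699408, nat_lit 25150436624, nat_lit 25493351384], nat_lit 1271250, nat_lit 1271250, nat_lit 490000, nat_lit 780000, nat_lit 0, nat_lit 0, [nat_lit 1100000, nat_lit 1442500, nat_lit 1271250], [nat_lit 9, nat_lit 40, nat_lit 20, nat_lit 80, nat_lit 2, nat_lit 238, nat_lit 30, nat_lit 8]⟩, ⟨p011_k29, nat_lit 0, nat_lit 0, nat_lit 0, nat_lit 0, nat_lit 0, [nat_lit 4688000000, nat_lit 6250000000, nat_lit 7968000000], [], [nat_lit 12215619725, nat_lit 13366868250, nat_lit 12277479125, nat_lit 13370882450], nat_lit 0, nat_lit 0, nat_lit 0, nat_lit 0, nat_lit 0, nat_lit 0, [], [nat_lit 9, nat_lit 40, nat_lit 20, nat_lit 80]⟩,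
 zbF0, []⟩
noncomputable def p011_l148 : Lf2 := ⟨nat_lit 0, nat_lit 5, [nat_lit 4, nat_lit 5, nat_lit 5, nat_lit 20], false, nat_lit 0, nat_lit 0, nat_lit 0, nat_lit 0, ⟨nat_lit 1000, nat_lit 0, nat_lit 0, nat_lit 0, nat_lit 0, nat_lit 0, nat_lit 0, nat_lit 0, nat_lit 0, nat_lit 0, nat_lit 0, nat_lit 0, nat_lit 0, nat_lit 0, nat_lit 0, nat_lit 0, false, false⟩,
 nat_lit 0, nat_lit 15166, nat_lit 0, nat_lit 0, nat_lit 8425, nat_lit 3211, nat_lit 6206, nat_lit 0, nat_lit 0, nat_lit 0, nat_lit 0, nat_lit 0, nat_lit 0, nat_lit 0, nat_lit 0, nat_lit 0, nat_lit 0, nat_lit 0, [],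
 ⟨p011_k29, nat_lit 0, nat_lit 0, nat_lit 606, nat_lit 0, nat_lit 992278, [nat_lit 4688000000, nat_lit 6250000000, nat_lit 7968000000], [], [nat_lit 20563521925, nat_lit 19535567850, nat_lit 24379383525, nat_lit 23359204488], nat_lit 1271250, nat_lit 1271250, nat_lit 780000, nat_lit 1100001, nat_lit 0, nat_lit 0, [nat_lit 1100000, nat_lit 1442500, nat_lit 1271250], [nat_lit 9, nat_lit 40, nat_lit 20, nat_lit 80, nat_lit 2, nat_lit 249, nat_lit 40, nat_lit 8]⟩, ⟨p011_k26, nat_lit 0, nat_lit 0, nat_lit 0, nat_lit 0, nat_lit 0, [nat_lit 4688000000, nat_lit 6250000000, nat_lit 9842000000], [], [nat_lit 14111912488, nat_lit 15201213789, nat_lit 15295461284, nat_lit 16322192353], nat_lit 0, nat_lit 0, nat_lit 0, nat_lit 0, nat_lit 0, nat_lit 0, [], [nat_lit 11, nat_lit 40, nat_lit 20, nat_lit 80]⟩,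
 zbF0, []⟩
noncomputable def p011_l149 : Lf2 := ⟨nat_lit 0, nat_lit 5, [nat_lit 4, nat_lit 5, nat_lit 5, nat_lit 20], false, nat_lit 0, nat_lit 0, nat_lit 0, nat_lit 0, ⟨nat_lit 1000, nat_lit 0, nat_lit 0, nat_lit 0, nat_lit 0, nat_lit 0, nat_lit 0, nat_lit 0, nat_lit 0, nat_lit 0, nat_lit 0, nat_lit 0, nat_lit 0, nat_lit 0, nat_lit 0, nat_lit 0, false, false⟩,
 nat_lit 0, nat_lit 15733, nat_lit 0, nat_lit 0, nat_lit 8948, nat_lit 10675, nat_lit 2741, nat_lit 0, nat_lit 0, nat_lit 3707, nat_lit 0, nat_lit 0, nat_lit 0, nat_lit 62165563432425, nat_lit 0, nat_lit 0, nat_lit 0, nat_lit 0, [],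
 ⟨p011_k34, nat_lit 0, nat_lit 0, nat_lit 634, nat_lit 0, nat_lit 1057235, [nat_lit 4688000000, nat_lit 6250000000, nat_lit 7968000000], [], [nat_lit 20340330074, nat_lit 19243010946, nat_lit 24328965258, nat_lit 23245456412], nat_lit 1271250, nat_lit 1271250, nat_lit 780000, nat_lit 1100001, nat_lit 0, nat_lit 0, [nat_lit 1100000, nat_lit 1442500, nat_lit 1271250], [nat_lit 9, nat_lit 40, nat_lit 20, nat_lit 80, nat_lit 2, nat_lit 249, nat_lit 40, nat_lit 8]⟩, ⟨p011_k26, nat_lit 0, nat_lit 0, nat_lit 0, nat_lit 0, nat_lit 0, [nat_lit 4688000000, nat_lit 6250000000, nat_lit 9842000000], [], [nat_lit 12879096350, nat_lit 15009244300, nat_lit 13296355100, nat_lit 15843545050], nat_lit 0, nat_lit 0, nat_lit 0, nat_lit 0, nat_lit 0, nat_lit 0, [], [nat_lit 11, nat_lit 40, nat_lit 20, nat_lit 80]⟩,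
 zbF0, []⟩
noncomputable def p011_l150 : Lf2 := ⟨nat_lit 0, nat_lit 5, [nat_lit 4, nat_lit 5, nat_lit 5, nat_lit 20], false, nat_lit 0, nat_lit 0, nat_lit 0, nat_lit 0, ⟨nat_lit 1000, nat_lit 0, nat_lit 0, nat_lit 0, nat_lit 0, nat_lit 0, nat_lit 0, nat_lit 0, nat_lit 0, nat_lit 0, nat_lit 0, nat_lit 0, nat_lit 0, nat_lit 0, nat_lit 0, nat_lit 0, false, false⟩,
 nat_lit 0, nat_lit 13631, nat_lit 0, nat_lit 0, nat_lit 7572, nat_lit 10676, nat_lit 2080, nat_lit 0, nat_lit 0, nat_lit 3518, nat_lit 0, nat_lit 0, nat_lit 0, nat_lit 2398730590941, nat_lit 0, nat_lit 0, nat_lit 0, nat_lit 0, [],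
 ⟨p011_k29, nat_lit 0, nat_lit 0, nat_lit 635, nat_lit 0, nat_lit 1092630, [nat_lit 4688000000, nat_lit 6250000000, nat_lit 7968000000], [], [nat_lit 31639654700, nat_lit 29672053976, nat_lit 32646393136, nat_lit 30837866368], nat_lit 1271250, nat_lit 1271250, nat_lit 1100001, nat_lit 1785000, nat_lit 0, nat_lit 0, [nat_lit 1100000, nat_lit 1442500, nat_lit 1271250], [nat_lit 9, nat_lit 40, nat_lit 20, nat_lit 80, nat_lit 2, nat_lit 272, nat_lit 60, nat_lit 9]⟩, ⟨p011_k26, nat_lit 0, nat_lit 0, nat_lit 0, nat_lit 0, nat_lit 0, [nat_lit 4688000000, nat_lit 6250000000, nat_lit 9842000000], [], [nat_lit 13865390236, nat_lit 15843017096, nat_lit 19655976704, nat_lit 22356899944], nat_lit 0, nat_lit 0, nat_lit 0, nat_lit 0, nat_lit 0, nat_lit 0, [], [nat_lit 11, nat_lit 40, nat_lit 20, nat_lit 80]⟩,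
 zbF0, []⟩
noncomputable def p011_l151 : Lf2 := ⟨nat_lit 0, nat_lit 5, [nat_lit 4, nat_lit 5, nat_lit 5, nat_lit 20], false, nat_lit 0, nat_lit 0, nat_lit 0, nat_lit 0, ⟨nat_lit 1000, nat_lit 0, nat_lit 0, nat_lit 0, nat_lit 0, nat_lit 0, nat_lit 0, nat_lit 0, nat_lit 0, nat_lit 0, nat_lit 0, nat_lit 0, nat_lit 0, nat_lit 0, nat_lit 0, nat_lit 0, false, false⟩,
 nat_lit 0, nat_lit 12062, nat_lit 0, nat_lit 0, nat_lit 6701, nat_lit 6453, nat_lit 4916, nat_lit 0, nat_lit 0, nat_lit 0, nat_lit 0, nat_lit 0, nat_lit 0, nat_lit 0, nat_lit 0, nat_lit 0, nat_lit 0, nat_lit 0, [],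
 ⟨p011_k36, nat_lit 0, nat_lit 0, nat_lit 618, nat_lit 0, nat_lit 1092630, [nat_lit 4688000000, nat_lit 7968000000], [], [nat_lit 31594662369, nat_lit 31804072286, nat_lit 36436586310, nat_lit 36575522916], nat_lit 1271250, nat_lit 1271250, nat_lit 1271250, nat_lit 1271250, nat_lit 0, nat_lit 0, [nat_lit 1100000, nat_lit 1785000], [nat_lit 39, nat_lit 40, nat_lit 20, nat_lit 80, nat_lit 7, nat_lit 237, nat_lit 0, nat_lit 7]⟩, ⟨p011_k35, nat_lit 0, nat_lit 0, nat_lit 0, nat_lit 0, nat_lit 0, [nat_lit 4688000000, nat_lit 9842000000], [], [nat_lit 30004458056, nat_lit 31024962304, nat_lit 40902201468, nat_lit 41536714846], nat_lit 0, nat_lit 0, nat_lit 0, nat_lit 0, nat_lit 0, nat_lit 0, [], [nat_lit 70, nat_lit 40, nat_lit 20, nat_lit 80]⟩,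
 zbF0, []⟩
noncomputable def b_NL_600_600_0_3 : St := ⟨false, nat_lit 1, nat_lit 0, nat_lit 1, nat_lit 20, nat_lit 250, nat_lit 260, nat_lit 240, nat_lit 260, nat_lit 16, nat_lit 400, nat_lit 0, nat_lit 0, nat_lit 0, nat_lit 0, nat_lit 0, nat_lit 0, nat_lit 0, nat_lit 40, nat_lit 0, nat_lit 0, nat_lit 0, nat_lit 800⟩
theorem d_NL_600_600_0_3 (h : EB TB.env) : Dead b_NL_600_600_0_3 := chkB_sound0 h (T :=
(.trZ (nat_lit 0) (nat_lit 100) (nat_lit 99) (nat_lit 45) (nat_lit 20) (.spl (nat_lit 2) (nat_lit 240)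
(.spl (nat_lit 2) (nat_lit 160)
(.spl (nat_lit 2) (nat_lit 120)
(.spl (nat_lit 2) (nat_lit 80)
(.spl (nat_lit 6) (nat_lit 20)
(.spl (nat_lit 2) (nat_lit 40)
(.spl (nat_lit 2) (nat_lit 32)
(.spl (nat_lit 2) (nat_lit 24)
(.spl (nat_lit 0) (nat_lit 255)
(.ord (.spl (nat_lit 0) (nat_lit 253)
(.ord (.spl (nat_lit 1) (nat_lit 245)
(.spl (nat_lit 6) (nat_lit 8)
(.leaf p011_l136)
(.leaf p011_l137))
(.leaf p011_l138)))
(.leaf p011_l139)))
(.leaf p011_l140))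
(.leaf p011_l141))
(.leaf p011_l142))
(.leaf p011_l143))
(.spl (nat_lit 0) (nat_lit 255)
(.ord (.leaf p011_l144))
(.leaf p011_l145)))
(.spl (nat_lit 1) (nat_lit 250)
(.leaf p011_l146)
(.leaf p011_l147)))
(.spl (nat_lit 0) (nat_lit 255)
(.ord (.leaf p011_l148))
(.leaf p011_l149)))
(.leaf p011_l150))
(.leaf p011_l151)))) (by decide +kernel)
noncomputable def p011_l152 : Lf2 := ⟨nat_lit 0, nat_lit 2, [nat_lit 10, nat_lit 5, nat_lit 5, nat_lit 20], false, nat_lit 0, nat_lit 0, nat_lit 0, nat_lit 0, ⟨nat_lit 1000, nat_lit 0, nat_lit 0, nat_lit 0, nat_lit 0, nat_lit 0, nat_lit 0, nat_lit 0, nat_lit 0, nat_lit 0, nat_lit 0, nat_lit 0, nat_lit 0, nat_lit 0, nat_lit 0, nat_lit 0, false, false⟩,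
 nat_lit 4720, nat_lit 0, nat_lit 0, nat_lit 0, nat_lit 2498, nat_lit 0, nat_lit 273, nat_lit 0, nat_lit 242, nat_lit 484, nat_lit 0, nat_lit 557, nat_lit 0, nat_lit 18167475439696, nat_lit 0, nat_lit 0, nat_lit 0, nat_lit 0, [],
 ⟨p011_k39, nat_lit 0, nat_lit 0, nat_lit 0, nat_lit 0, nat_lit 370870, [nat_lit 2032000001, nat_lit 4688000000, nat_lit 6250000000, nat_lit 7089500000], [], [nat_lit 21170238199, nat_lit 21378685533, nat_lit 21479207958, nat_lit 21229234562], nat_lit 1271250, nat_lit 1271250, nat_lit 88400, nat_lit 181601, nat_lit 0, nat_lit 0, [nat_lit 490000, nat_lit 1100000, nat_lit 1442500, nat_lit 1271250], [nat_lit 101, nat_lit 40, nat_lit 20, nat_lit 40]⟩, ⟨p011_k39, nat_lit 0, nat_lit 0, nat_lit 0, nat_lit 0, nat_lit 370870, [nat_lit 2032000000, nat_lit 4688000000, nat_lit 6250000000, nat_lit 7089500000], [], [nat_lit 6280845600, nat_lit 6503244100, nat_lit 6523240000, nat_lit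 6721334700], nat_lit 1271250, nat_lit 1271250, nat_lit 88400, nat_lit 181601, nat_lit 0, nat_lit 0, [nat_lit 490000, nat_lit 1100000, nat_lit 1442500, nat_lit 1271250], [nat_lit 101, nat_lit 40, nat_lit 20, nat_lit 40]⟩,
 zbF0, [⟨nat_lit 0, nat_lit 100, nat_lit 100, nat_lit 40, nat_lit 620886509⟩]⟩
noncomputable def p011_l153 : Lf2 := ⟨nat_lit 0, nat_lit 2, [nat_lit 10, nat_lit 5, nat_lit 5, nat_lit 20], false, nat_lit 0, nat_lit 0, nat_lit 0, nat_lit 0, ⟨nat_lit 1000, nat_lit 0, nat_lit 0, nat_lit 0, nat_lit 0, nat_lit 0, nat_lit 0, nat_lit 0, nat_lit 0, nat_lit 0, nat_lit 0, nat_lit 0, nat_lit 0, nat_lit 0, nat_lit 0, nat_lit 0, false, false⟩,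
 nat_lit 21866, nat_lit 0, nat_lit 0, nat_lit 0, nat_lit 11575, nat_lit 11575, nat_lit 0, nat_lit 0, nat_lit 0, nat_lit 3273, nat_lit 0, nat_lit 0, nat_lit 0, nat_lit 5037625729431, nat_lit 0, nat_lit 0, nat_lit 0, nat_lit 0, [],
 ⟨p011_k39, nat_lit 0, nat_lit 0, nat_lit 0, nat_lit 0, nat_lit 370870, [nat_lit 2032000001, nat_lit 4688000000, nat_lit 6250000000, nat_lit 7089500000], [], [nat_lit 25762338760, nat_lit 24286413983, nat_lit 22271741021, nat_lit 20846209164], nat_lit 1271250, nat_lit 1271250, nat_lit 88400, nat_lit 181601, nat_lit 0, nat_lit 0, [nat_lit 490000, nat_lit 1100000, nat_lit 1442500, nat_lit 1271250], [nat_lit 101, nat_lit 40, nat_lit 20, nat_lit 40]⟩, ⟨p011_k39, nat_lit 0, nat_lit 0, nat_lit 0, nat_lit 0, nat_lit 370870, [nat_lit 2032000000, nat_lit 4688000000, nat_lit 6250000000, nat_lit 7089500000], [], [nat_lit 18687818440, nat_lit 19493016348, nat_lit 16815143240, nat_lit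 17421786133], nat_lit 1271250, nat_lit 1271250, nat_lit 88400, nat_lit 181601, nat_lit 0, nat_lit 0, [nat_lit 490000, nat_lit 1100000, nat_lit 1442500, nat_lit 1271250], [nat_lit 101, nat_lit 40, nat_lit 20, nat_lit 40]⟩,
 zbF0, [⟨nat_lit 0, nat_lit 100, nat_lit 100, nat_lit 40, nat_lit 2469979943⟩]⟩
noncomputable def p011_l154 : Lf2 := ⟨nat_lit 0, nat_lit 2, [nat_lit 10, nat_lit 5, nat_lit 5, nat_lit 20], false, nat_lit 0, nat_lit 0, nat_lit 0, nat_lit 0, ⟨nat_lit 108, nat_lit 0, nat_lit 892, nat_lit 6, nat_lit 74, nat_lit 0, nat_lit 0, nat_lit 0, nat_lit 0, nat_lit 215, nat_lit 52267, nat_lit 271, nat_lit 64770899, nat_lit 0, nat_lit 0, nat_lit 729640, false, false⟩,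
 nat_lit 12118, nat_lit 0, nat_lit 0, nat_lit 0, nat_lit 6415, nat_lit 6415, nat_lit 0, nat_lit 0, nat_lit 0, nat_lit 785, nat_lit 0, nat_lit 0, nat_lit 0, nat_lit 22117325863126, nat_lit 4, nat_lit 892000, nat_lit 0, nat_lit 3469954577, [(nat_lit 6, [(nat_lit 6, nat_lit 892)])],
 ⟨p011_k39, nat_lit 0, nat_lit 0, nat_lit 0, nat_lit 0, nat_lit 370870, [nat_lit 712084800, nat_lit 1416990400, nat_lit 583736000, nat_lit 5909200], [], [nat_lit 16028233032, nat_lit 15913464052, nat_lit 14446216764, nat_lit 14125613313], nat_lit 1271250, nat_lit 1271250, nat_lit 88400, nat_lit 181601, nat_lit 0, nat_lit 0, [nat_lit 490000, nat_lit 1100000, nat_lit 1442500, nat_lit 1271250], [nat_lit 101, nat_lit 40, nat_lit 20, nat_lit 40]⟩, ⟨p011_k39, nat_lit 0, nat_lit 0, nat_lit 0, nat_lit 0, nat_lit 370870, [nat_lit 219456000, nat_lit 506304000, nat_lit 675000000, nat_lit 765666000], [], [nat_lit 1154018505, nat_lit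 1412081078, nat_lit 0, nat_lit 259376272], nat_lit 1271250, nat_lit 1271250, nat_lit 88400, nat_lit 181601, nat_lit 0, nat_lit 0, [nat_lit 490000, nat_lit 1100000, nat_lit 1442500, nat_lit 1271250], [nat_lit 101, nat_lit 40, nat_lit 20, nat_lit 40]⟩,
 ⟨nat_lit 6224, nat_lit 6325, ⟨.ofNat (nat_lit 164319), .ofNat (nat_lit 197224), .ofNat (nat_lit 169661), .ofNat (nat_lit 202566), .ofNat (nat_lit 168651), .ofNat (nat_lit 201178), .ofNat (nat_lit 173990), .ofNat (nat_lit 206517)⟩, ⟨.ofNat (nat_lit 0), .ofNat (nat_lit 0), .ofNat (nat_lit 0), .ofNat (nat_lit 0), .ofNat (nat_lit 0), .ofNat (nat_lit 0), .ofNat (nat_lit 0), .ofNat (nat_lit 0)⟩⟩, [⟨nat_lit 0, nat_lit 100, nat_lit 100, nat_lit 40, nat_lit 1040345239⟩]⟩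
noncomputable def p011_l155 : Lf2 := ⟨nat_lit 0, nat_lit 1, [nat_lit 19, nat_lit 5, nat_lit 5, nat_lit 20], false, nat_lit 0, nat_lit 0, nat_lit 0, nat_lit 0, ⟨nat_lit 1000, nat_lit 0, nat_lit 0, nat_lit 0, nat_lit 0, nat_lit 0, nat_lit 0, nat_lit 0, nat_lit 0, nat_lit 0, nat_lit 0, nat_lit 0, nat_lit 0, nat_lit 0, nat_lit 0, nat_lit 0, false, false⟩,
 nat_lit 0, nat_lit 8328, nat_lit 0, nat_lit 0, nat_lit 4408, nat_lit 0, nat_lit 0, nat_lit 0, nat_lit 0, nat_lit 0, nat_lit 0, nat_lit 557, nat_lit 0, nat_lit 0, nat_lit 0, nat_lit 0, nat_lit 0, nat_lit 0, [],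
 ⟨p011_k0, nat_lit 0, nat_lit 0, nat_lit 0, nat_lit 0, nat_lit 363873, [nat_lit 4688000000, nat_lit 6250000000], [], [nat_lit 35841404218, nat_lit 36065939156, nat_lit 35473790753, nat_lit 35696005273], nat_lit 1271250, nat_lit 1271250, nat_lit 88400, nat_lit 181601, nat_lit 0, nat_lit 0, [nat_lit 1100000, nat_lit 1442500], [nat_lit 31, nat_lit 40, nat_lit 20, nat_lit 80]⟩, ⟨p011_k0, nat_lit 0, nat_lit 0, nat_lit 0, nat_lit 0, nat_lit 363873, [nat_lit 4688000000, nat_lit 6250000000], [], [nat_lit 6280176000, nat_lit 6503244100, nat_lit 6523240000, nat_lit 6721334700], nat_lit 1271250, nat_lit 1271250, nat_lit 88400, nat_lit 181601, nat_lit 0, nat_lit 0, [nat_lit 1100000, nat_lit 1442500], [nat_lit 31, nat_lit 40, nat_lit 20, nat_lit 80]⟩,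
 zbF0, [⟨nat_lit 0, nat_lit 100, nat_lit 100, nat_lit 40, nat_lit 825612991⟩]⟩
noncomputable def p011_l156 : Lf2 := ⟨nat_lit 2, nat_lit 1, [nat_lit 19, nat_lit 5, nat_lit 5, nat_lit 20], true, nat_lit 0, nat_lit 0, nat_lit 0, nat_lit 0, zbN0,
 nat_lit 0, nat_lit 0, nat_lit 0, nat_lit 0, nat_lit 0, nat_lit 0, nat_lit 0, nat_lit 0, nat_lit 0, nat_lit 0, nat_lit 0, nat_lit 0, nat_lit 0, nat_lit 0, nat_lit 0, nat_lit 0, nat_lit 0, nat_lit 0, [],
 ⟨p011_k69, nat_lit 0, nat_lit 0, nat_lit 0, nat_lit 0, nat_lit 333033, [], [], [], nat_lit 1271250, nat_lit 1271250, nat_lit 88400, nat_lit 111251, nat_lit 0, nat_lit 0, [nat_lit 490000, nat_lit 1100000, nat_lit 1271250, nat_lit 1271250], [nat_lit 242, nat_lit 40, nat_lit 20, nat_lit 40]⟩, C1.Rw.none,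
 zbF0, []⟩
noncomputable def p011_l157 : Lf2 := ⟨nat_lit 2, nat_lit 1, [nat_lit 19, nat_lit 5, nat_lit 5, nat_lit 20], true, nat_lit 0, nat_lit 0, nat_lit 0, nat_lit 0, zbN0,
 nat_lit 0, nat_lit 0, nat_lit 0, nat_lit 0, nat_lit 0, nat_lit 0, nat_lit 0, nat_lit 0, nat_lit 0, nat_lit 0, nat_lit 0, nat_lit 0, nat_lit 0, nat_lit 0, nat_lit 0, nat_lit 0, nat_lit 0, nat_lit 0, [],
 ⟨p011_k70, nat_lit 0, nat_lit 0, nat_lit 0, nat_lit 0, nat_lit 333033, [], [], [], nat_lit 1271250, nat_lit 1271250, nat_lit 88400, nat_lit 111251, nat_lit 0, nat_lit 0, [nat_lit 1100000, nat_lit 1271250, nat_lit 1271250], [nat_lit 124, nat_lit 40, nat_lit 20, nat_lit 40]⟩, C1.Rw.none,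
 zbF0, []⟩
noncomputable def p011_l158 : Lf2 := ⟨nat_lit 2, nat_lit 1, [nat_lit 19, nat_lit 5, nat_lit 5, nat_lit 20], true, nat_lit 0, nat_lit 0, nat_lit 0, nat_lit 0, zbN0,
 nat_lit 0, nat_lit 0, nat_lit 0, nat_lit 0, nat_lit 0, nat_lit 0, nat_lit 0, nat_lit 0, nat_lit 0, nat_lit 0, nat_lit 0, nat_lit 0, nat_lit 0, nat_lit 0, nat_lit 0, nat_lit 0, nat_lit 0, nat_lit 0, [],
 ⟨p011_k71, nat_lit 0, nat_lit 0, nat_lit 0, nat_lit 0, nat_lit 335255, [], [], [], nat_lit 1271250, nat_lit 1271250, nat_lit 88400, nat_lit 111251, nat_lit 0, nat_lit 0, [nat_lit 1100000, nat_lit 1271250, nat_lit 1271250], [nat_lit 124, nat_lit 40, nat_lit 20, nat_lit 40]⟩, C1.Rw.none,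
 zbF0, []⟩
noncomputable def p011_l159 : Lf2 := ⟨nat_lit 2, nat_lit 1, [nat_lit 19, nat_lit 5, nat_lit 5, nat_lit 20], true, nat_lit 0, nat_lit 0, nat_lit 0, nat_lit 0, zbN0,
 nat_lit 0, nat_lit 0, nat_lit 0, nat_lit 0, nat_lit 0, nat_lit 0, nat_lit 0, nat_lit 0, nat_lit 0, nat_lit 0, nat_lit 0, nat_lit 0, nat_lit 0, nat_lit 0, nat_lit 0, nat_lit 0, nat_lit 0, nat_lit 0, [],
 ⟨p011_k72, nat_lit 0, nat_lit 0, nat_lit 0, nat_lit 0, nat_lit 339103, [], [], [], nat_lit 1271250, nat_lit 1271250, nat_lit 88400, nat_lit 111251, nat_lit 0, nat_lit 0, [nat_lit 936250, nat_lit 1271250, nat_lit 1271250], [nat_lit 185, nat_lit 40, nat_lit 20, nat_lit 40]⟩, C1.Rw.none,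
 zbF0, []⟩
noncomputable def p011_l160 : Lf2 := ⟨nat_lit 0, nat_lit 1, [nat_lit 19, nat_lit 5, nat_lit 5, nat_lit 20], false, nat_lit 0, nat_lit 0, nat_lit 0, nat_lit 0, ⟨nat_lit 1000, nat_lit 0, nat_lit 0, nat_lit 0, nat_lit 0, nat_lit 0, nat_lit 0, nat_lit 0, nat_lit 0, nat_lit 0, nat_lit 0, nat_lit 0, nat_lit 0, nat_lit 0, nat_lit 0, nat_lit 0, false, false⟩,
 nat_lit 19996, nat_lit 0, nat_lit 0, nat_lit 0, nat_lit 10586, nat_lit 7920, nat_lit 0, nat_lit 0, nat_lit 0, nat_lit 5071, nat_lit 0, nat_lit 0, nat_lit 0, nat_lit 33163444549207, nat_lit 0, nat_lit 0, nat_lit 0, nat_lit 0, [],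
 ⟨p011_k70, nat_lit 0, nat_lit 0, nat_lit 0, nat_lit 0, nat_lit 340789, [nat_lit 4688000000, nat_lit 5449500000, nat_lit 6250000000], [], [nat_lit 30259737472, nat_lit 29746996094, nat_lit 30433287304, nat_lit 29922678793], nat_lit 1271250, nat_lit 1271250, nat_lit 111251, nat_lit 181601, nat_lit 0, nat_lit 0, [nat_lit 1100000, nat_lit 1271250, nat_lit 1271250], [nat_lit 124, nat_lit 40, nat_lit 20, nat_lit 40]⟩, ⟨p011_k70, nat_lit 0, nat_lit 0, nat_lit 0, nat_lit 0, nat_lit 340789, [nat_lit 4688000000, nat_lit 5449500000, nat_lit 6250000000], [], [nat_lit 15691790240, nat_lit 15936897398, nat_lit 14928493089, nat_lit 15143442365], nat_lit 1271250, nat_lit 1271250, nat_lit 111251, nat_lit 181601, nat_lit 0, nat_lit 0, [nat_lit 1100000, nat_lit 1271250, nat_lit 1271250], [nat_lit 124, nat_lit 40, nat_lit 20, nat_lit 40]⟩,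
 zbF0, []⟩
noncomputable def p011_l161 : Lf2 := ⟨nat_lit 2, nat_lit 1, [nat_lit 19, nat_lit 5, nat_lit 5, nat_lit 20], true, nat_lit 0, nat_lit 0, nat_lit 0, nat_lit 0, zbN0,
 nat_lit 0, nat_lit 0, nat_lit 0, nat_lit 0, nat_lit 0, nat_lit 0, nat_lit 0, nat_lit 0, nat_lit 0, nat_lit 0, nat_lit 0, nat_lit 0, nat_lit 0, nat_lit 0, nat_lit 0, nat_lit 0, nat_lit 0, nat_lit 0, [],
 ⟨p011_k73, nat_lit 0, nat_lit 0, nat_lit 0, nat_lit 0, nat_lit 341259, [], [], [], nat_lit 1271250, nat_lit 1271250, nat_lit 88400, nat_lit 181601, nat_lit 0, nat_lit 0, [nat_lit 1100000, nat_lit 1271250, nat_lit 1271250], [nat_lit 124, nat_lit 40, nat_lit 20, nat_lit 40]⟩, C1.Rw.none,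
 zbF0, []⟩
noncomputable def p011_l162 : Lf2 := ⟨nat_lit 0, nat_lit 1, [nat_lit 19, nat_lit 5, nat_lit 5, nat_lit 20], false, nat_lit 0, nat_lit 0, nat_lit 0, nat_lit 0, ⟨nat_lit 1000, nat_lit 0, nat_lit 0, nat_lit 0, nat_lit 0, nat_lit 0, nat_lit 0, nat_lit 0, nat_lit 0, nat_lit 0, nat_lit 0, nat_lit 0, nat_lit 0, nat_lit 0, nat_lit 0, nat_lit 0, false, false⟩,
 nat_lit 17389, nat_lit 0, nat_lit 0, nat_lit 0, nat_lit 9296, nat_lit 8295, nat_lit 0, nat_lit 0, nat_lit 0, nat_lit 5473, nat_lit 0, nat_lit 0, nat_lit 0, nat_lit 60414132150123, nat_lit 0, nat_lit 0, nat_lit 0, nat_lit 0, [],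
 ⟨p011_k73, nat_lit 0, nat_lit 0, nat_lit 0, nat_lit 0, nat_lit 345064, [nat_lit 4688000000, nat_lit 5449500000, nat_lit 6250000000], [], [nat_lit 31489042075, nat_lit 31263595669, nat_lit 31709161506, nat_lit 31484968386], nat_lit 1271250, nat_lit 1271250, nat_lit 88400, nat_lit 181601, nat_lit 0, nat_lit 0, [nat_lit 1100000, nat_lit 1271250, nat_lit 1271250], [nat_lit 124, nat_lit 40, nat_lit 20, nat_lit 40]⟩, ⟨p011_k73, nat_lit 0, nat_lit 0, nat_lit 0, nat_lit 0, nat_lit 345064, [nat_lit 4688000000, nat_lit 5449500000, nat_lit 6250000000], [], [nat_lit 16152986529, nat_lit 16285795292, nat_lit 14493155405, nat_lit 14618822985], nat_lit 1271250, nat_lit 1271250, nat_lit 88400, nat_lit 181601, nat_lit 0, nat_lit 0, [nat_lit 1100000, nat_lit 1271250, nat_lit 1271250], [nat_lit 124, nat_lit 40, nat_lit 20, nat_lit 40]⟩,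
 zbF0, [⟨nat_lit 0, nat_lit 100, nat_lit 100, nat_lit 42, nat_lit 1237564211⟩]⟩
noncomputable def p011_l163 : Lf2 := ⟨nat_lit 0, nat_lit 1, [nat_lit 19, nat_lit 5, nat_lit 5, nat_lit 20], false, nat_lit 0, nat_lit 0, nat_lit 0, nat_lit 0, ⟨nat_lit 1000, nat_lit 0, nat_lit 0, nat_lit 0, nat_lit 0, nat_lit 0, nat_lit 0, nat_lit 0, nat_lit 0, nat_lit 0, nat_lit 0, nat_lit 0, nat_lit 0, nat_lit 0, nat_lit 0, nat_lit 0, false, false⟩,
 nat_lit 15396, nat_lit 1938, nat_lit 0, nat_lit 0, nat_lit 9312, nat_lit 8150, nat_lit 0, nat_lit 0, nat_lit 0, nat_lit 5104, nat_lit 0, nat_lit 0, nat_lit 0, nat_lit 8015058415329, nat_lit 0, nat_lit 0, nat_lit 0, nat_lit 0, [],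
 ⟨p011_k74, nat_lit 0, nat_lit 0, nat_lit 0, nat_lit 0, nat_lit 358518, [nat_lit 4688000000, nat_lit 5449500000, nat_lit 6250000000], [], [nat_lit 31241312508, nat_lit 30789643632, nat_lit 31462424587, nat_lit 31013266599], nat_lit 1271250, nat_lit 1271250, nat_lit 88400, nat_lit 181601, nat_lit 0, nat_lit 0, [nat_lit 1100000, nat_lit 1271250, nat_lit 1271250], [nat_lit 124, nat_lit 40, nat_lit 20, nat_lit 40]⟩, ⟨p011_k70, nat_lit 0, nat_lit 0, nat_lit 0, nat_lit 0, nat_lit 363873, [nat_lit 4688000000, nat_lit 5449500000, nat_lit 6250000000], [], [nat_lit 16254548960, nat_lit 16881105095, nat_lit 14651408961, nat_lit 15251995470], nat_lit 1271250, nat_lit 1271250, nat_lit 88400, nat_lit 181601, nat_lit 0, nat_lit 0, [nat_lit 1100000, nat_lit 1271250, nat_lit 1271250], [nat_lit 124, nat_lit 40, nat_lit 20, nat_lit 40]⟩,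
 zbF0, [⟨nat_lit 0, nat_lit 100, nat_lit 100, nat_lit 43, nat_lit 1221388615⟩]⟩
noncomputable def p011_l164 : Lf2 := ⟨nat_lit 0, nat_lit 1, [nat_lit 19, nat_lit 5, nat_lit 5, nat_lit 20], false, nat_lit 0, nat_lit 0, nat_lit 0, nat_lit 0, ⟨nat_lit 1000, nat_lit 0, nat_lit 0, nat_lit 0, nat_lit 0, nat_lit 0, nat_lit 0, nat_lit 0, nat_lit 0, nat_lit 0, nat_lit 0, nat_lit 0, nat_lit 0, nat_lit 0, nat_lit 0, nat_lit 0, false, false⟩,
 nat_lit 100000, nat_lit 0, nat_lit 0, nat_lit 0, nat_lit 52941, nat_lit 52941, nat_lit 0, nat_lit 2292, nat_lit 0, nat_lit 23271, nat_lit 2444, nat_lit 0, nat_lit 0, nat_lit 170204027978838, nat_lit 0, nat_lit 0, nat_lit 0, nat_lit 0, [],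
 ⟨p011_k70, nat_lit 0, nat_lit 0, nat_lit 0, nat_lit 0, nat_lit 363873, [nat_lit 41360000000, nat_lit 46705500001, nat_lit 52090000000], [], [nat_lit 135159489311, nat_lit 128358889627, nat_lit 134260069527, nat_lit 127876136690], nat_lit 1271250, nat_lit 1271250, nat_lit 88400, nat_lit 181601, nat_lit 0, nat_lit 0, [nat_lit 1100000, nat_lit 1271250, nat_lit 1271250], [nat_lit 124, nat_lit 40, nat_lit 20, nat_lit 40]⟩, ⟨p011_k70, nat_lit 0, nat_lit 0, nat_lit 0, nat_lit 0, nat_lit 363873, [nat_lit 43792000000, nat_lit 49441500000, nat_lit 55130000000], [], [nat_lit 63731774928, nat_lit 65687283545, nat_lit 60218799452, nat_lit 57672815232], nat_lit 1271250, nat_lit 1271250, nat_lit 88400, nat_lit 181601, nat_lit 0, nat_lit 0, [nat_lit 1100000, nat_lit 1271250, nat_lit 1271250], [nat_lit 124, nat_lit 40, nat_lit 20, nat_lit 40]⟩,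
 zbF0, [⟨nat_lit 0, nat_lit 100, nat_lit 100, nat_lit 43, nat_lit 2105126922⟩]⟩
noncomputable def p011_l165 : Lf2 := ⟨nat_lit 2, nat_lit 2, [nat_lit 10, nat_lit 5, nat_lit 5, nat_lit 20], true, nat_lit 0, nat_lit 0, nat_lit 0, nat_lit 0, zbN0,
 nat_lit 0, nat_lit 0, nat_lit 0, nat_lit 0, nat_lit 0, nat_lit 0, nat_lit 0, nat_lit 0, nat_lit 0, nat_lit 0, nat_lit 0, nat_lit 0, nat_lit 0, nat_lit 0, nat_lit 0, nat_lit 0, nat_lit 0, nat_lit 0, [],
 ⟨p011_k37, nat_lit 0, nat_lit 0, nat_lit 0, nat_lit 0, nat_lit 325623, [], [], [], nat_lit 1271250, nat_lit 1271250, nat_lit 88400, nat_lit 181601, nat_lit 0, nat_lit 0, [nat_lit 1100000, nat_lit 1271250, nat_lit 1271250], [nat_lit 105, nat_lit 40, nat_lit 20, nat_lit 40]⟩, C1.Rw.none,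
 zbF0, []⟩
noncomputable def p011_l166 : Lf2 := ⟨nat_lit 2, nat_lit 2, [nat_lit 10, nat_lit 5, nat_lit 5, nat_lit 20], true, nat_lit 0, nat_lit 0, nat_lit 0, nat_lit 0, zbN0,
 nat_lit 0, nat_lit 0, nat_lit 0, nat_lit 0, nat_lit 0, nat_lit 0, nat_lit 0, nat_lit 0, nat_lit 0, nat_lit 0, nat_lit 0, nat_lit 0, nat_lit 0, nat_lit 0, nat_lit 0, nat_lit 0, nat_lit 0, nat_lit 0, [],
 ⟨p011_k38, nat_lit 0, nat_lit 0, nat_lit 370, nat_lit 0, nat_lit 370870, [], [], [], nat_lit 1271250, nat_lit 1271250, nat_lit 88400, nat_lit 181601, nat_lit 0, nat_lit 0, [nat_lit 1100000, nat_lit 1785000], [nat_lit 39, nat_lit 40, nat_lit 20, nat_lit 80, nat_lit 7, nat_lit 215, nat_lit 10, nat_lit 8]⟩, C1.Rw.none,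
 zbF0, []⟩
noncomputable def p011_l167 : Lf2 := ⟨nat_lit 0, nat_lit 2, [nat_lit 10, nat_lit 5, nat_lit 5, nat_lit 20], false, nat_lit 0, nat_lit 0, nat_lit 0, nat_lit 0, ⟨nat_lit 0, nat_lit 0, nat_lit 1000, nat_lit 6, nat_lit 74, nat_lit 0, nat_lit 0, nat_lit 0, nat_lit 0, nat_lit 215, nat_lit 52267, nat_lit 271, nat_lit 64770899, nat_lit 0, nat_lit 0, nat_lit 729640, false, false⟩,
 nat_lit 100000, nat_lit 0, nat_lit 0, nat_lit 0, nat_lit 52941, nat_lit 52941, nat_lit 15423, nat_lit 5241, nat_lit 0, nat_lit 5798, nat_lit 345, nat_lit 0, nat_lit 0, nat_lit 174571596545296, nat_lit 0, nat_lit 1000000, nat_lit 0, nat_lit 40382191156, [(nat_lit 6, [(nat_lit 6, nat_lit 1000)])],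
 ⟨p011_k20, nat_lit 0, nat_lit 0, nat_lit 372, nat_lit 0, nat_lit 370870, [nat_lit 84833066667, nat_lit 104628000001, nat_lit 124075199999], [], [nat_lit 296847976823, nat_lit 290945137500, nat_lit 282766428463, nat_lit 283758461758], nat_lit 1271250, nat_lit 1271250, nat_lit 88400, nat_lit 181601, nat_lit 0, nat_lit 0, [nat_lit 1100000, nat_lit 1442500, nat_lit 1271250], [nat_lit 9, nat_lit 40, nat_lit 20, nat_lit 80, nat_lit 2, nat_lit 215, nat_lit 10, nat_lit 8]⟩, ⟨p011_k39, nat_lit 0, nat_lit 0, nat_lit 0, nat_lit 0, nat_lit 370870, [nat_lit 2760000000, nat_lit 5520000000, nat_lit 6900000000, nat_lit 7590000000], [], [nat_lit 9717426432, nat_lit 11725276727, nat_lit 0, nat_lit 1987082200], nat_lit 1271250, nat_lit 1271250, nat_lit 88400, nat_lit 181601, nat_lit 0, nat_lit 0, [nat_lit 490000, nat_lit 1100000, nat_lit 1442500, nat_lit 1271250], [nat_lit 101, nat_lit 40, nat_lit 20, nat_lit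 40]⟩,
 ⟨nat_lit 6224, nat_lit 6325, ⟨.ofNat (nat_lit 164319), .ofNat (nat_lit 197224), .ofNat (nat_lit 169661), .ofNat (nat_lit 202566), .ofNat (nat_lit 168651), .ofNat (nat_lit 201178), .ofNat (nat_lit 173990), .ofNat (nat_lit 206517)⟩, ⟨.ofNat (nat_lit 0), .ofNat (nat_lit 0), .ofNat (nat_lit 0), .ofNat (nat_lit 0), .ofNat (nat_lit 0), .ofNat (nat_lit 0), .ofNat (nat_lit 0), .ofNat (nat_lit 0)⟩⟩, [⟨nat_lit 0, nat_lit 100, nat_lit 100, nat_lit 40, nat_lit 5392986596⟩]⟩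
noncomputable def p011_l168 : Lf2 := ⟨nat_lit 0, nat_lit 2, [nat_lit 10, nat_lit 5, nat_lit 5, nat_lit 20], false, nat_lit 0, nat_lit 0, nat_lit 0, nat_lit 0, ⟨nat_lit 1000, nat_lit 0, nat_lit 0, nat_lit 0, nat_lit 0, nat_lit 0, nat_lit 0, nat_lit 0, nat_lit 0, nat_lit 0, nat_lit 0, nat_lit 0, nat_lit 0, nat_lit 0, nat_lit 0, nat_lit 0, false, false⟩,
 nat_lit 22290, nat_lit 0, nat_lit 0, nat_lit 0, nat_lit 11800, nat_lit 11800, nat_lit 0, nat_lit 0, nat_lit 0, nat_lit 0, nat_lit 0, nat_lit 0, nat_lit 0, nat_lit 0, nat_lit 0, nat_lit 0, nat_lit 0, nat_lit 0, [],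
 ⟨p011_k39, nat_lit 0, nat_lit 0, nat_lit 0, nat_lit 0, nat_lit 370870, [nat_lit 2032000001, nat_lit 4688000000, nat_lit 6250000000, nat_lit 7089500000], [], [nat_lit 20705592640, nat_lit 20353973240, nat_lit 19000144800, nat_lit 19427551600], nat_lit 1271250, nat_lit 1271250, nat_lit 181601, nat_lit 230001, nat_lit 0, nat_lit 0, [nat_lit 490000, nat_lit 1100000, nat_lit 1442500, nat_lit 1271250], [nat_lit 101, nat_lit 40, nat_lit 20, nat_lit 40]⟩, ⟨p011_k39, nat_lit 0, nat_lit 0, nat_lit 0, nat_lit 0, nat_lit 370870, [nat_lit 2032000000, nat_lit 4688000000, nat_lit 6250000000, nat_lit 7089500000], [], [nat_lit 20705592640, nat_lit 20353973240, nat_lit 19000144800, nat_lit 19427551600], nat_lit 1271250, nat_lit 1271250, nat_lit 181601, nat_lit 230001, nat_lit 0, nat_lit 0, [nat_lit 490000, nat_lit 1100000, nat_lit 1442500, nat_lit 1271250], [nat_lit 101, nat_lit 40, nat_lit 20, nat_lit 40]⟩,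
 zbF0, []⟩
noncomputable def p011_l169 : Lf2 := ⟨nat_lit 0, nat_lit 2, [nat_lit 10, nat_lit 5, nat_lit 5, nat_lit 20], false, nat_lit 0, nat_lit 0, nat_lit 0, nat_lit 0, ⟨nat_lit 1000, nat_lit 0, nat_lit 0, nat_lit 0, nat_lit 0, nat_lit 0, nat_lit 0, nat_lit 0, nat_lit 0, nat_lit 0, nat_lit 0, nat_lit 0, nat_lit 0, nat_lit 0, nat_lit 0, nat_lit 0, false, false⟩,
 nat_lit 23143, nat_lit 0, nat_lit 0, nat_lit 0, nat_lit 12252, nat_lit 12252, nat_lit 3837, nat_lit 601, nat_lit 0, nat_lit 0, nat_lit 0, nat_lit 0, nat_lit 0, nat_lit 47581607834528, nat_lit 0, nat_lit 0, nat_lit 0, nat_lit 0, [],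
 ⟨p011_k20, nat_lit 0, nat_lit 0, nat_lit 328, nat_lit 0, nat_lit 370870, [nat_lit 14304000001, nat_lit 18270000000, nat_lit 22392000000], [], [nat_lit 62373784738, nat_lit 60797590668, nat_lit 59830759618, nat_lit 60156540613], nat_lit 1271250, nat_lit 1271250, nat_lit 181601, nat_lit 230001, nat_lit 0, nat_lit 0, [nat_lit 1100000, nat_lit 1442500, nat_lit 1271250], [nat_lit 9, nat_lit 40, nat_lit 20, nat_lit 80, nat_lit 2, nat_lit 215, nat_lit 10, nat_lit 8]⟩, ⟨p011_k39, nat_lit 0, nat_lit 0, nat_lit 0, nat_lit 0, nat_lit 370870, [nat_lit 2032000000, nat_lit 4688000000, nat_lit 6250000000, nat_lit 7089500000], [], [nat_lit 20074232170, nat_lit 20876762226, nat_lit 18197414112, nat_lit 19254792304], nat_lit 1271250, nat_lit 1271250, nat_lit 181601, nat_lit 230001, nat_lit 0, nat_lit 0, [nat_lit 490000, nat_lit 1100000, nat_lit 1442500, nat_lit 1271250], [nat_lit 101, nat_lit 40, nat_lit 20,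 nat_lit 40]⟩,
 zbF0, []⟩
noncomputable def p011_l170 : Lf2 := ⟨nat_lit 0, nat_lit 2, [nat_lit 10, nat_lit 5, nat_lit 5, nat_lit 20], false, nat_lit 0, nat_lit 0, nat_lit 0, nat_lit 0, ⟨nat_lit 1000, nat_lit 0, nat_lit 0, nat_lit 0, nat_lit 0, nat_lit 0, nat_lit 0, nat_lit 0, nat_lit 0, nat_lit 0, nat_lit 0, nat_lit 0, nat_lit 0, nat_lit 0, nat_lit 0, nat_lit 0, false, false⟩,
 nat_lit 18511, nat_lit 0, nat_lit 0, nat_lit 0, nat_lit 10041, nat_lit 9799, nat_lit 1267, nat_lit 0, nat_lit 0, nat_lit 2564, nat_lit 0, nat_lit 0, nat_lit 0, nat_lit 0, nat_lit 0, nat_lit 0, nat_lit 0, nat_lit 0, [],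
 ⟨p011_k75, nat_lit 0, nat_lit 0, nat_lit 0, nat_lit 0, nat_lit 381399, [nat_lit 2032000001, nat_lit 4688000000, nat_lit 6250000000, nat_lit 7089500000], [], [nat_lit 25481505286, nat_lit 24201180388, nat_lit 23003924737, nat_lit 21767314337], nat_lit 1271250, nat_lit 1271250, nat_lit 88400, nat_lit 181601, nat_lit 0, nat_lit 0, [nat_lit 490000, nat_lit 1100000, nat_lit 1442500, nat_lit 1271250], [nat_lit 101, nat_lit 40, nat_lit 20, nat_lit 40]⟩, ⟨p011_k39, nat_lit 0, nat_lit 0, nat_lit 0, nat_lit 0, nat_lit 391029, [nat_lit 2032000000, nat_lit 4688000000, nat_lit 6250000000, nat_lit 7089500000], [], [nat_lit 20179468053, nat_lit 20877483432, nat_lit 18632781205, nat_lit 19172763891], nat_lit 1271250, nat_lit 1271250, nat_lit 88400, nat_lit 181601, nat_lit 0, nat_lit 0, [nat_lit 490000, nat_lit 1100000, nat_lit 1442500, nat_lit 1271250], [nat_lit 101, nat_lit 40, nat_lit 20, nat_lit 40]⟩,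
 zbF0, [⟨nat_lit 0, nat_lit 100, nat_lit 99, nat_lit 42, nat_lit 2064262351⟩]⟩
noncomputable def p011_l171 : Lf2 := ⟨nat_lit 0, nat_lit 2, [nat_lit 10, nat_lit 5, nat_lit 5, nat_lit 20], false, nat_lit 0, nat_lit 0, nat_lit 0, nat_lit 0, ⟨nat_lit 152, nat_lit 0, nat_lit 848, nat_lit 6, nat_lit 76, nat_lit 0, nat_lit 0, nat_lit 0, nat_lit 0, nat_lit 215, nat_lit 54150, nat_lit 272, nat_lit 64674193, nat_lit 0, nat_lit 0, nat_lit 753797, false, false⟩,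
 nat_lit 11499, nat_lit 0, nat_lit 0, nat_lit 0, nat_lit 6237, nat_lit 6087, nat_lit 794, nat_lit 0, nat_lit 0, nat_lit 808, nat_lit 0, nat_lit 0, nat_lit 0, nat_lit 0, nat_lit 0, nat_lit 848000, nat_lit 0, nat_lit 1858431728, [(nat_lit 6, [(nat_lit 6, nat_lit 848)])],
 ⟨p011_k75, nat_lit 0, nat_lit 0, nat_lit 0, nat_lit 0, nat_lit 381399, [nat_lit 746771201, nat_lit 1517497600, nat_lit 787184000, nat_lit 271664800], [], [nat_lit 15817499391, nat_lit 16302592368, nat_lit 14441797425, nat_lit 14569653065], nat_lit 1271250, nat_lit 1271250, nat_lit 88400, nat_lit 181601, nat_lit 0, nat_lit 0, [nat_lit 490000, nat_lit 1100000, nat_lit 1442500, nat_lit 1271250], [nat_lit 101, nat_lit 40, nat_lit 20, nat_lit 40]⟩, ⟨p011_k39, nat_lit 0, nat_lit 0, nat_lit 0, nat_lit 0, nat_lit 391029, [nat_lit 308864000, nat_lit 712576000, nat_lit 950000000, nat_lit 1077604000], [], [nat_lit 1502536722, nat_lit 1321962640,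 nat_lit 0, nat_lit 239915210], nat_lit 1271250, nat_lit 1271250, nat_lit 88400, nat_lit 181601, nat_lit 0, nat_lit 0, [nat_lit 490000, nat_lit 1100000, nat_lit 1442500, nat_lit 1271250], [nat_lit 101, nat_lit 40, nat_lit 20, nat_lit 40]⟩,
 ⟨nat_lit 6123, nat_lit 6225, ⟨.ofNat (nat_lit 168651), .ofNat (nat_lit 201178), .ofNat (nat_lit 173990), .ofNat (nat_lit 206517), .ofNat (nat_lit 172944), .ofNat (nat_lit 205096), .ofNat (nat_lit 178281), .ofNat (nat_lit 210433)⟩, ⟨.ofNat (nat_lit 0), .ofNat (nat_lit 0), .ofNat (nat_lit 0), .ofNat (nat_lit 0), .ofNat (nat_lit 0), .ofNat (nat_lit 0), .ofNat (nat_lit 0), .ofNat (nat_lit 0)⟩⟩, [⟨nat_lit 0, nat_lit 100, nat_lit 99, nat_lit 45, nat_lit 990795186⟩]⟩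
noncomputable def p011_l172 : Lf2 := ⟨nat_lit 2, nat_lit 2, [nat_lit 10, nat_lit 5, nat_lit 5, nat_lit 20], true, nat_lit 0, nat_lit 0, nat_lit 0, nat_lit 0, zbN0,
 nat_lit 0, nat_lit 0, nat_lit 0, nat_lit 0, nat_lit 0, nat_lit 0, nat_lit 0, nat_lit 0, nat_lit 0, nat_lit 0, nat_lit 0, nat_lit 0, nat_lit 0, nat_lit 0, nat_lit 0, nat_lit 0, nat_lit 0, nat_lit 0, [],
 ⟨p011_k76, nat_lit 0, nat_lit 0, nat_lit 0, nat_lit 0, nat_lit 381399, [], [], [], nat_lit 1271250, nat_lit 1271250, nat_lit 88400, nat_lit 181601, nat_lit 0, nat_lit 0, [nat_lit 936250, nat_lit 1271250, nat_lit 1271250, nat_lit 1271250], [nat_lit 254, nat_lit 40, nat_lit 20, nat_lit 40]⟩, C1.Rw.none,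
 zbF0, []⟩
noncomputable def p011_l173 : Lf2 := ⟨nat_lit 2, nat_lit 2, [nat_lit 10, nat_lit 5, nat_lit 5, nat_lit 20], true, nat_lit 0, nat_lit 0, nat_lit 0, nat_lit 0, zbN0,
 nat_lit 0, nat_lit 0, nat_lit 0, nat_lit 0, nat_lit 0, nat_lit 0, nat_lit 0, nat_lit 0, nat_lit 0, nat_lit 0, nat_lit 0, nat_lit 0, nat_lit 0, nat_lit 0, nat_lit 0, nat_lit 0, nat_lit 0, nat_lit 0, [],
 ⟨p011_k77, nat_lit 0, nat_lit 0, nat_lit 375, nat_lit 0, nat_lit 381399, [], [], [], nat_lit 1271250, nat_lit 1271250, nat_lit 88400, nat_lit 181601, nat_lit 0, nat_lit 0, [nat_lit 1100000, nat_lit 1785000], [nat_lit 39, nat_lit 40, nat_lit 20, nat_lit 80, nat_lit 7, nat_lit 215, nat_lit 10, nat_lit 8]⟩, C1.Rw.none,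
 zbF0, []⟩
noncomputable def p011_l174 : Lf2 := ⟨nat_lit 0, nat_lit 2, [nat_lit 10, nat_lit 5, nat_lit 5, nat_lit 20], false, nat_lit 0, nat_lit 0, nat_lit 0, nat_lit 0, ⟨nat_lit 0, nat_lit 0, nat_lit 1000, nat_lit 6, nat_lit 76, nat_lit 0, nat_lit 0, nat_lit 0, nat_lit 0, nat_lit 215, nat_lit 54150, nat_lit 272, nat_lit 64674193, nat_lit 0, nat_lit 0, nat_lit 753797, false, false⟩,
 nat_lit 100000, nat_lit 0, nat_lit 0, nat_lit 0, nat_lit 54243, nat_lit 52941, nat_lit 15886, nat_lit 5401, nat_lit 0, nat_lit 5307, nat_lit 258, nat_lit 0, nat_lit 0, nat_lit 0, nat_lit 0, nat_lit 1000000, nat_lit 0, nat_lit 43603330658, [(nat_lit 6, [(nat_lit 6, nat_lit 1000)])],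
 ⟨p011_k57, nat_lit 0, nat_lit 0, nat_lit 378, nat_lit 0, nat_lit 381399, [nat_lit 87393066667, nat_lit 107828000000, nat_lit 127915200000], [], [nat_lit 294983957906, nat_lit 291225422562, nat_lit 282827787463, nat_lit 283918335743], nat_lit 1271250, nat_lit 1271250, nat_lit 88400, nat_lit 181601, nat_lit 0, nat_lit 0, [nat_lit 1100000, nat_lit 1442500, nat_lit 1271250], [nat_lit 9, nat_lit 40, nat_lit 20, nat_lit 80, nat_lit 2, nat_lit 215, nat_lit 10, nat_lit 8]⟩, ⟨p011_k39, nat_lit 0, nat_lit 0, nat_lit 0, nat_lit 0, nat_lit 391029, [nat_lit 2064000000, nat_lit 4128000000, nat_lit 5160000000, nat_lit 5676000000], [], [nat_lit 10310746807, nat_lit 12778316229, nat_lit 0, nat_lit 2447001843], nat_lit 1271250, nat_lit 1271250, nat_lit 88400, nat_lit 181601, nat_lit 0, nat_lit 0, [nat_lit 490000, nat_lit 1100000, nat_lit 1442500, nat_lit 1271250], [nat_lit 101, nat_lit 40, nat_lit 20, nat_lit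 40]⟩,
 ⟨nat_lit 6123, nat_lit 6225, ⟨.ofNat (nat_lit 168651), .ofNat (nat_lit 201178), .ofNat (nat_lit 173990), .ofNat (nat_lit 206517), .ofNat (nat_lit 172944), .ofNat (nat_lit 205096), .ofNat (nat_lit 178281), .ofNat (nat_lit 210433)⟩, ⟨.ofNat (nat_lit 0), .ofNat (nat_lit 0), .ofNat (nat_lit 0), .ofNat (nat_lit 0), .ofNat (nat_lit 0), .ofNat (nat_lit 0), .ofNat (nat_lit 0), .ofNat (nat_lit 0)⟩⟩, []⟩
noncomputable def p011_l175 : Lf2 := ⟨nat_lit 0, nat_lit 2, [nat_lit 10, nat_lit 5, nat_lit 5, nat_lit 20], false, nat_lit 0, nat_lit 0, nat_lit 0, nat_lit 0, ⟨nat_lit 1000, nat_lit 0, nat_lit 0, nat_lit 0, nat_lit 0, nat_lit 0, nat_lit 0, nat_lit 0, nat_lit 0, nat_lit 0, nat_lit 0, nat_lit 0, nat_lit 0, nat_lit 0, nat_lit 0, nat_lit 0, false, false⟩,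
 nat_lit 22302, nat_lit 0, nat_lit 0, nat_lit 0, nat_lit 10176, nat_lit 11806, nat_lit 4671, nat_lit 0, nat_lit 0, nat_lit 0, nat_lit 0, nat_lit 0, nat_lit 0, nat_lit 0, nat_lit 0, nat_lit 0, nat_lit 0, nat_lit 0, [],
 ⟨p011_k75, nat_lit 0, nat_lit 0, nat_lit 0, nat_lit 0, nat_lit 381399, [nat_lit 2032000001, nat_lit 4688000000, nat_lit 6250000000, nat_lit 7089500000], [], [nat_lit 19786486487, nat_lit 19392848273, nat_lit 17709353226, nat_lit 18064385648], nat_lit 1271250, nat_lit 1271250, nat_lit 181601, nat_lit 230001, nat_lit 0, nat_lit 0, [nat_lit 490000, nat_lit 1100000, nat_lit 1442500, nat_lit 1271250], [nat_lit 101, nat_lit 40, nat_lit 20, nat_lit 40]⟩, ⟨p011_k39, nat_lit 0, nat_lit 0, nat_lit 0, nat_lit 0, nat_lit 391029, [nat_lit 2032000000, nat_lit 4688000000, nat_lit 6250000000, nat_lit 7089500000], [], [nat_lit 20697211749, nat_lit 20360912917, nat_lit 18989034576, nat_lit 19416583747],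 nat_lit 1271250, nat_lit 1271250, nat_lit 181601, nat_lit 230001, nat_lit 0, nat_lit 0, [nat_lit 490000, nat_lit 1100000, nat_lit 1442500, nat_lit 1271250], [nat_lit 101, nat_lit 40, nat_lit 20, nat_lit 40]⟩,
 zbF0, []⟩
noncomputable def p011_l176 : Lf2 := ⟨nat_lit 0, nat_lit 2, [nat_lit 10, nat_lit 5, nat_lit 5, nat_lit 20], false, nat_lit 0, nat_lit 0, nat_lit 0, nat_lit 0, ⟨nat_lit 1000, nat_lit 0, nat_lit 0, nat_lit 0, nat_lit 0, nat_lit 0, nat_lit 0, nat_lit 0, nat_lit 0, nat_lit 0, nat_lit 0, nat_lit 0, nat_lit 0, nat_lit 0, nat_lit 0, nat_lit 0, false, false⟩,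
 nat_lit 22302, nat_lit 0, nat_lit 0, nat_lit 0, nat_lit 12097, nat_lit 11806, nat_lit 4670, nat_lit 635, nat_lit 0, nat_lit 0, nat_lit 0, nat_lit 0, nat_lit 0, nat_lit 0, nat_lit 0, nat_lit 0, nat_lit 0, nat_lit 0, [],
 ⟨p011_k57, nat_lit 0, nat_lit 0, nat_lit 362, nat_lit 0, nat_lit 381399, [nat_lit 14848000001, nat_lit 18950000000, nat_lit 23208000000], [], [nat_lit 61693920302, nat_lit 61312121754, nat_lit 60311041933, nat_lit 60678550835], nat_lit 1271250, nat_lit 1271250, nat_lit 181601, nat_lit 230001, nat_lit 0, nat_lit 0, [nat_lit 1100000, nat_lit 1442500, nat_lit 1271250], [nat_lit 9, nat_lit 40, nat_lit 20, nat_lit 80, nat_lit 2, nat_lit 215, nat_lit 10, nat_lit 8]⟩, ⟨p011_k39, nat_lit 0, nat_lit 0, nat_lit 0, nat_lit 0, nat_lit 391029, [nat_lit 2032000000, nat_lit 4688000000, nat_lit 6250000000, nat_lit 7089500000], [], [nat_lit 20697211749, nat_lit 20360912917, nat_lit 18989034576,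 nat_lit 19416583747], nat_lit 1271250, nat_lit 1271250, nat_lit 181601, nat_lit 230001, nat_lit 0, nat_lit 0, [nat_lit 490000, nat_lit 1100000, nat_lit 1442500, nat_lit 1271250], [nat_lit 101, nat_lit 40, nat_lit 20, nat_lit 40]⟩,
 zbF0, []⟩
noncomputable def p011_l177 : Lf2 := ⟨nat_lit 0, nat_lit 2, [nat_lit 10, nat_lit 5, nat_lit 5, nat_lit 20], false, nat_lit 0, nat_lit 0, nat_lit 0, nat_lit 0, ⟨nat_lit 1000, nat_lit 0, nat_lit 0, nat_lit 0, nat_lit 0, nat_lit 0, nat_lit 0, nat_lit 0, nat_lit 0, nat_lit 0, nat_lit 0, nat_lit 0, nat_lit 0, nat_lit 0, nat_lit 0, nat_lit 0, false, false⟩,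
 nat_lit 20862, nat_lit 0, nat_lit 0, nat_lit 0, nat_lit 11316, nat_lit 11316, nat_lit 935, nat_lit 0, nat_lit 0, nat_lit 3406, nat_lit 0, nat_lit 0, nat_lit 0, nat_lit 20072801908338, nat_lit 0, nat_lit 0, nat_lit 0, nat_lit 0, [],
 ⟨p011_k75, nat_lit 0, nat_lit 0, nat_lit 0, nat_lit 0, nat_lit 400669, [nat_lit 2032000001, nat_lit 4688000000, nat_lit 6250000000, nat_lit 7089500000], [], [nat_lit 23032103798, nat_lit 23023788328, nat_lit 21058275949, nat_lit 19668608911], nat_lit 1271250, nat_lit 1271250, nat_lit 111251, nat_lit 230001, nat_lit 0, nat_lit 0, [nat_lit 490000, nat_lit 1100000, nat_lit 1442500, nat_lit 1271250], [nat_lit 101, nat_lit 40, nat_lit 20, nat_lit 40]⟩, ⟨p011_k75, nat_lit 0, nat_lit 0, nat_lit 0, nat_lit 0, nat_lit 400669, [nat_lit 2032000000, nat_lit 4688000000, nat_lit 6250000000, nat_lit 7089500000], [], [nat_lit 22028260048, nat_lit 23023788328, nat_lit 20054432198,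 nat_lit 19298718368], nat_lit 1271250, nat_lit 1271250, nat_lit 111251, nat_lit 230001, nat_lit 0, nat_lit 0, [nat_lit 490000, nat_lit 1100000, nat_lit 1442500, nat_lit 1271250], [nat_lit 101, nat_lit 40, nat_lit 20, nat_lit 40]⟩,
 zbF0, [⟨nat_lit 0, nat_lit 100, nat_lit 100, nat_lit 45, nat_lit 1756249595⟩]⟩
noncomputable def p011_l178 : Lf2 := ⟨nat_lit 2, nat_lit 2, [nat_lit 10, nat_lit 5, nat_lit 5, nat_lit 20], true, nat_lit 0, nat_lit 0, nat_lit 0, nat_lit 0, zbN0,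
 nat_lit 0, nat_lit 0, nat_lit 0, nat_lit 0, nat_lit 0, nat_lit 0, nat_lit 0, nat_lit 0, nat_lit 0, nat_lit 0, nat_lit 0, nat_lit 0, nat_lit 0, nat_lit 0, nat_lit 0, nat_lit 0, nat_lit 0, nat_lit 0, [],
 ⟨p011_k76, nat_lit 0, nat_lit 0, nat_lit 0, nat_lit 0, nat_lit 400669, [], [], [], nat_lit 1271250, nat_lit 1271250, nat_lit 111251, nat_lit 230001, nat_lit 0, nat_lit 0, [nat_lit 936250, nat_lit 1271250, nat_lit 1271250, nat_lit 1271250], [nat_lit 254, nat_lit 40, nat_lit 20, nat_lit 40]⟩, C1.Rw.none,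
 zbF0, []⟩
noncomputable def p011_l179 : Lf2 := ⟨nat_lit 2, nat_lit 2, [nat_lit 10, nat_lit 5, nat_lit 5, nat_lit 20], true, nat_lit 0, nat_lit 0, nat_lit 0, nat_lit 0, zbN0,
 nat_lit 0, nat_lit 0, nat_lit 0, nat_lit 0, nat_lit 0, nat_lit 0, nat_lit 0, nat_lit 0, nat_lit 0, nat_lit 0, nat_lit 0, nat_lit 0, nat_lit 0, nat_lit 0, nat_lit 0, nat_lit 0, nat_lit 0, nat_lit 0, [],
 ⟨p011_k77, nat_lit 0, nat_lit 0, nat_lit 378, nat_lit 0, nat_lit 400669, [], [], [], nat_lit 1271250, nat_lit 1271250, nat_lit 111251, nat_lit 230001, nat_lit 0, nat_lit 0, [nat_lit 1100000, nat_lit 1785000], [nat_lit 39, nat_lit 40, nat_lit 20, nat_lit 80, nat_lit 7, nat_lit 215, nat_lit 10, nat_lit 8]⟩, C1.Rw.none,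
 zbF0, []⟩
noncomputable def p011_l180 : Lf2 := ⟨nat_lit 0, nat_lit 2, [nat_lit 10, nat_lit 5, nat_lit 5, nat_lit 20], false, nat_lit 0, nat_lit 0, nat_lit 0, nat_lit 0, ⟨nat_lit 0, nat_lit 0, nat_lit 1000, nat_lit 6, nat_lit 83, nat_lit 0, nat_lit 0, nat_lit 0, nat_lit 0, nat_lit 215, nat_lit 64067, nat_lit 277, nat_lit 64244491, nat_lit 0, nat_lit 0, nat_lit 857534, false, false⟩,
 nat_lit 100000, nat_lit 0, nat_lit 0, nat_lit 0, nat_lit 54243, nat_lit 54243, nat_lit 0, nat_lit 4123, nat_lit 0, nat_lit 21152, nat_lit 1534, nat_lit 0, nat_lit 0, nat_lit 0, nat_lit 0, nat_lit 1000000, nat_lit 0, nat_lit 5169187708, [(nat_lit 6, [(nat_lit 6, nat_lit 1000)])],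
 ⟨p011_k57, nat_lit 0, nat_lit 0, nat_lit 381, nat_lit 0, nat_lit 400669, [nat_lit 66945066667, nat_lit 82268000001, nat_lit 97243199999], [], [nat_lit 226095255190, nat_lit 221648304490, nat_lit 212312718267, nat_lit 213316864506], nat_lit 1271250, nat_lit 1271250, nat_lit 111251, nat_lit 230001, nat_lit 0, nat_lit 0, [nat_lit 1100000, nat_lit 1442500, nat_lit 1271250], [nat_lit 9, nat_lit 40, nat_lit 20, nat_lit 80, nat_lit 2, nat_lit 215, nat_lit 10, nat_lit 8]⟩, ⟨p011_k75, nat_lit 0, nat_lit 0, nat_lit 0, nat_lit 0, nat_lit 400669, [nat_lit 12272000000, nat_lit 24544000000, nat_lit 30680000000, nat_lit 33748000000], [], [nat_lit 16444922237, nat_lit 13201063477, nat_lit 0, nat_lit 2021581177], nat_lit 1271250, nat_lit 1271250, nat_lit 111251, nat_lit 230001, nat_lit 0, nat_lit 0, [nat_lit 490000, nat_lit 1100000, nat_lit 1442500, nat_lit 1271250], [nat_lit 101, nat_lit 40, nat_lit 20, nat_lit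 40]⟩,
 ⟨nat_lit 6123, nat_lit 6225, ⟨.ofNat (nat_lit 182121), .ofNat (nat_lit 222780), .ofNat (nat_lit 187461), .ofNat (nat_lit 228119), .ofNat (nat_lit 186319), .ofNat (nat_lit 226509), .ofNat (nat_lit 191656), .ofNat (nat_lit 231846)⟩, ⟨.ofNat (nat_lit 0), .ofNat (nat_lit 0), .ofNat (nat_lit 0), .ofNat (nat_lit 0), .ofNat (nat_lit 0), .ofNat (nat_lit 0), .ofNat (nat_lit 0), .ofNat (nat_lit 0)⟩⟩, []⟩
noncomputable def p011_l181 : Lf2 := ⟨nat_lit 0, nat_lit 2, [nat_lit 10, nat_lit 5, nat_lit 5, nat_lit 20], false, nat_lit 0, nat_lit 0, nat_lit 0, nat_lit 0, ⟨nat_lit 1000, nat_lit 0, nat_lit 0, nat_lit 0, nat_lit 0, nat_lit 0, nat_lit 0, nat_lit 0, nat_lit 0, nat_lit 0, nat_lit 0, nat_lit 0, nat_lit 0, nat_lit 0, nat_lit 0, nat_lit 0, false, false⟩,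
 nat_lit 20135, nat_lit 0, nat_lit 0, nat_lit 0, nat_lit 10659, nat_lit 10659, nat_lit 0, nat_lit 0, nat_lit 0, nat_lit 2634, nat_lit 0, nat_lit 0, nat_lit 0, nat_lit 43089712454093, nat_lit 0, nat_lit 0, nat_lit 0, nat_lit 0, [],
 ⟨p011_k20, nat_lit 0, nat_lit 0, nat_lit 367, nat_lit 0, nat_lit 410786, [nat_lit 4688000000, nat_lit 6250000000, nat_lit 7968000000], [], [nat_lit 29495040472, nat_lit 26760697861, nat_lit 28791786288, nat_lit 26245948092], nat_lit 1271250, nat_lit 1271250, nat_lit 230001, nat_lit 490000, nat_lit 0, nat_lit 0, [nat_lit 1100000, nat_lit 1442500, nat_lit 1271250], [nat_lit 9, nat_lit 40, nat_lit 20, nat_lit 80, nat_lit 2, nat_lit 226, nat_lit 20, nat_lit 8]⟩, ⟨p011_k39, nat_lit 0, nat_lit 0, nat_lit 0, nat_lit 0, nat_lit 410786, [nat_lit 2032000000, nat_lit 4688000000, nat_lit 6250000000, nat_lit 7089500000], [], [nat_lit 17014064312, nat_lit 18587352932, nat_lit 15005300712,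 nat_lit 16095978019], nat_lit 1271250, nat_lit 1271250, nat_lit 230001, nat_lit 490000, nat_lit 0, nat_lit 0, [nat_lit 490000, nat_lit 1100000, nat_lit 1442500, nat_lit 1271250], [nat_lit 101, nat_lit 40, nat_lit 20, nat_lit 40]⟩,
 zbF0, []⟩
noncomputable def p011_l182 : Lf2 := ⟨nat_lit 0, nat_lit 2, [nat_lit 10, nat_lit 5, nat_lit 5, nat_lit 20], false, nat_lit 0, nat_lit 0, nat_lit 0, nat_lit 0, ⟨nat_lit 1000, nat_lit 0, nat_lit 0, nat_lit 0, nat_lit 0, nat_lit 0, nat_lit 0, nat_lit 0, nat_lit 0, nat_lit 0, nat_lit 0, nat_lit 0, nat_lit 0, nat_lit 0, nat_lit 0, nat_lit 0, false, false⟩,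
 nat_lit 31664, nat_lit 0, nat_lit 0, nat_lit 0, nat_lit 16763, nat_lit 16763, nat_lit 0, nat_lit 0, nat_lit 0, nat_lit 3160, nat_lit 0, nat_lit 0, nat_lit 0, nat_lit 59333414849707, nat_lit 0, nat_lit 0, nat_lit 0, nat_lit 0, [],
 ⟨p011_k20, nat_lit 0, nat_lit 0, nat_lit 321, nat_lit 0, nat_lit 370870, [nat_lit 4688000000, nat_lit 6250000000, nat_lit 7968000000], [], [nat_lit 25984068504, nat_lit 23833970691, nat_lit 19848400816, nat_lit 17872867589], nat_lit 1271250, nat_lit 1271250, nat_lit 230001, nat_lit 490000, nat_lit 0, nat_lit 0, [nat_lit 1100000, nat_lit 1442500, nat_lit 1271250], [nat_lit 9, nat_lit 40, nat_lit 20, nat_lit 80, nat_lit 2, nat_lit 226, nat_lit 20, nat_lit 8]⟩, ⟨p011_k39, nat_lit 0, nat_lit 0, nat_lit 0, nat_lit 0, nat_lit 370870, [nat_lit 2032000000, nat_lit 4688000000, nat_lit 6250000000, nat_lit 7089500000], [], [nat_lit 10311860164, nat_lit 11063570324, nat_lit 6643846184,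 nat_lit 7405489234], nat_lit 1271250, nat_lit 1271250, nat_lit 230001, nat_lit 490000, nat_lit 0, nat_lit 0, [nat_lit 490000, nat_lit 1100000, nat_lit 1442500, nat_lit 1271250], [nat_lit 101, nat_lit 40, nat_lit 20, nat_lit 40]⟩,
 zbF0, []⟩
noncomputable def p011_l183 : Lf2 := ⟨nat_lit 0, nat_lit 2, [nat_lit 10, nat_lit 5, nat_lit 5, nat_lit 20], true, nat_lit 0, nat_lit 0, nat_lit 0, nat_lit 0, ⟨nat_lit 0, nat_lit 0, nat_lit 1000, nat_lit 6, nat_lit 106, nat_lit 0, nat_lit 0, nat_lit 0, nat_lit 0, nat_lit 215, nat_lit 106667, nat_lit 295, nat_lit 62601511, nat_lit 0, nat_lit 0, nat_lit 1211175, false, false⟩,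
 nat_lit 0, nat_lit 4946, nat_lit 0, nat_lit 0, nat_lit 2682, nat_lit 0, nat_lit 86, nat_lit 0, nat_lit 0, nat_lit 0, nat_lit 0, nat_lit 0, nat_lit 0, nat_lit 19394216198171, nat_lit 44, nat_lit 1000000, nat_lit 0, nat_lit 0, [(nat_lit 6, [(nat_lit 6, nat_lit 1000)])],
 ⟨p011_k75, nat_lit 0, nat_lit 0, nat_lit 0, nat_lit 0, nat_lit 400669, [nat_lit 868400000, nat_lit 1653200000, nat_lit 688000000, nat_lit 17600000], [], [nat_lit 13199259328, nat_lit 13456806844, nat_lit 13369484124, nat_lit 13618201572], nat_lit 1271250, nat_lit 1271250, nat_lit 230001, nat_lit 490000, nat_lit 0, nat_lit 0, [nat_lit 490000, nat_lit 1100000, nat_lit 1442500, nat_lit 1271250], [nat_lit 101, nat_lit 40, nat_lit 20, nat_lit 40]⟩, C1.Rw.none,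
 ⟨nat_lit 6123, nat_lit 6225, ⟨.ofNat (nat_lit 217441), .ofNat (nat_lit 298759), .ofNat (nat_lit 228119), .ofNat (nat_lit 309437), .ofNat (nat_lit 221172), .ofNat (nat_lit 301553), .ofNat (nat_lit 231846), .ofNat (nat_lit 312227)⟩, ⟨.ofNat (nat_lit 0), .ofNat (nat_lit 0), .ofNat (nat_lit 0), .ofNat (nat_lit 0), .ofNat (nat_lit 0), .ofNat (nat_lit 0), .ofNat (nat_lit 0), .ofNat (nat_lit 0)⟩⟩, []⟩
noncomputable def p011_l184 : Lf2 := ⟨nat_lit 0, nat_lit 2, [nat_lit 10, nat_lit 5, nat_lit 5, nat_lit 20], false, nat_lit 0, nat_lit 0, nat_lit 0, nat_lit 0, ⟨nat_lit 0, nat_lit 0, nat_lit 1000, nat_lit 6, nat_lit 106, nat_lit 0, nat_lit 0, nat_lit 0, nat_lit 0, nat_lit 215, nat_lit 106667, nat_lit 295, nat_lit 62601511, nat_lit 0, nat_lit 0, nat_lit 1211175, false, false⟩,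
 nat_lit 100000, nat_lit 84354, nat_lit 0, nat_lit 0, nat_lit 100000, nat_lit 52941, nat_lit 40018, nat_lit 5711, nat_lit 0, nat_lit 0, nat_lit 0, nat_lit 0, nat_lit 0, nat_lit 0, nat_lit 0, nat_lit 1000000, nat_lit 0, nat_lit 65799521844, [(nat_lit 6, [(nat_lit 6, nat_lit 1000)])],
 ⟨p011_k57, nat_lit 0, nat_lit 0, nat_lit 362, nat_lit 0, nat_lit 400669, [nat_lit 92353066667, nat_lit 114028000001, nat_lit 135355199999], [], [nat_lit 240259839085, nat_lit 228150859752, nat_lit 248594555752, nat_lit 236652355752], nat_lit 1271250, nat_lit 1271250, nat_lit 230001, nat_lit 490000, nat_lit 0, nat_lit 0, [nat_lit 1100000, nat_lit 1442500, nat_lit 1271250], [nat_lit 9, nat_lit 40, nat_lit 20, nat_lit 80, nat_lit 2, nat_lit 226, nat_lit 20, nat_lit 8]⟩, ⟨p011_k39, nat_lit 0, nat_lit 0, nat_lit 0, nat_lit 0, nat_lit 410786, [nat_lit 0, nat_lit 0, nat_lit 0, nat_lit 0], [], [nat_lit 35348282172, nat_lit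 21767380383, nat_lit 0, nat_lit 4645360986], nat_lit 1271250, nat_lit 1271250, nat_lit 230001, nat_lit 490000, nat_lit 0, nat_lit 0, [nat_lit 490000, nat_lit 1100000, nat_lit 1442500, nat_lit 1271250], [nat_lit 101, nat_lit 40, nat_lit 20, nat_lit 40]⟩,
 ⟨nat_lit 6123, nat_lit 6225, ⟨.ofNat (nat_lit 217441), .ofNat (nat_lit 298759), .ofNat (nat_lit 228119), .ofNat (nat_lit 309437), .ofNat (nat_lit 221172), .ofNat (nat_lit 301553), .ofNat (nat_lit 231846), .ofNat (nat_lit 312227)⟩, ⟨.ofNat (nat_lit 0), .ofNat (nat_lit 0), .ofNat (nat_lit 0), .ofNat (nat_lit 0), .ofNat (nat_lit 0), .ofNat (nat_lit 0), .ofNat (nat_lit 0), .ofNat (nat_lit 0)⟩⟩, [⟨nat_lit 13, nat_lit 100, nat_lit 1, nat_lit 100, nat_lit 32265130⟩]⟩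
noncomputable def b_NL_600_600_0_4 : St := ⟨false, nat_lit 1, nat_lit 1, nat_lit 1, nat_lit 20, nat_lit 240, nat_lit 250, nat_lit 240, nat_lit 250, nat_lit 16, nat_lit 80, nat_lit 0, nat_lit 0, nat_lit 0, nat_lit 0, nat_lit 0, nat_lit 0, nat_lit 0, nat_lit 8, nat_lit 0, nat_lit 0, nat_lit 0, nat_lit 800⟩
theorem d_NL_600_600_0_4 (h : EB TB.env) : Dead b_NL_600_600_0_4 := chkB_sound0 h (T :=
(.spl (nat_lit 2) (nat_lit 40)
(.spl (nat_lit 1) (nat_lit 245)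
(.spl (nat_lit 0) (nat_lit 245)
(.spl (nat_lit 2) (nat_lit 32)
(.spl (nat_lit 7) (nat_lit 600)
(.spl (nat_lit 8) (nat_lit 400)
(.spl (nat_lit 8) (nat_lit 200)
(.leaf p011_l152)
(.leaf p011_l153))
(.leaf p011_l154))
(.spl (nat_lit 8) (nat_lit 400)
(.spl (nat_lit 7) (nat_lit 900)
(.spl (nat_lit 6) (nat_lit 4)
(.spl (nat_lit 8) (nat_lit 200)
(.leaf p011_l155)
(.spl (nat_lit 8) (nat_lit 300)
(.spl (nat_lit 0) (nat_lit 243)
(.ord (.spl (nat_lit 1) (nat_lit 242)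
(.spl (nat_lit 0) (nat_lit 242)
(.spl (nat_lit 2) (nat_lit 20)
(.spl (nat_lit 1) (nat_lit 241)
(.spl (nat_lit 0) (nat_lit 241)
(.spl (nat_lit 7) (nat_lit 760)
(.leaf p011_l156)
(.leaf p011_l157))
(.leaf p011_l158))
(.ord (.leaf p011_l159)))
(.leaf p011_l160))
(.leaf p011_l161))
(.ord (.leaf p011_l162))))
(.leaf p011_l163))
(.leaf p011_l164)))
(.leaf p011_l165))
(.leaf p011_l166))
(.leaf p011_l167)))
(.spl (nat_lit 7) (nat_lit 600)
(.leaf p011_l168)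
(.leaf p011_l169)))
(.spl (nat_lit 2) (nat_lit 32)
(.spl (nat_lit 7) (nat_lit 600)
(.spl (nat_lit 8) (nat_lit 400)
(.leaf p011_l170)
(.leaf p011_l171))
(.spl (nat_lit 8) (nat_lit 400)
(.spl (nat_lit 7) (nat_lit 900)
(.leaf p011_l172)
(.leaf p011_l173))
(.leaf p011_l174)))
(.spl (nat_lit 7) (nat_lit 600)
(.leaf p011_l175)
(.leaf p011_l176))))
(.ord (.trZ (nat_lit 0) (nat_lit 100) (nat_lit 100) (nat_lit 45) (nat_lit 20) (.spl (nat_lit 7) (nat_lit 600)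
(.leaf p011_l177)
(.spl (nat_lit 8) (nat_lit 400)
(.spl (nat_lit 7) (nat_lit 900)
(.leaf p011_l178)
(.leaf p011_l179))
(.leaf p011_l180))))))
(.spl (nat_lit 8) (nat_lit 400)
(.leaf p011_l181)
(.spl (nat_lit 0) (nat_lit 245)
(.ord (.leaf p011_l182))
(.spl (nat_lit 7) (nat_lit 600)
(.leaf p011_l183)
(.leaf p011_l184)))))) (by decide +kernel)
noncomputable def p011_l185 : Lf2 := ⟨nat_lit 0, nat_lit 3, [nat_lit 45, nat_lit 5, nat_lit 5, nat_lit 20], false, nat_lit 0, nat_lit 0, nat_lit 0, nat_lit 0, ⟨nat_lit 1000, nat_lit 0, nat_lit 0, nat_lit 0, nat_lit 0, nat_lit 0, nat_lit 0, nat_lit 0, nat_lit 0, nat_lit 0, nat_lit 0, nat_lit 0, nat_lit 0, nat_lit 0, nat_lit 0, nat_lit 0, false, false⟩,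
 nat_lit 15946, nat_lit 0, nat_lit 0, nat_lit 0, nat_lit 8442, nat_lit 8442, nat_lit 4470, nat_lit 0, nat_lit 0, nat_lit 4470, nat_lit 0, nat_lit 0, nat_lit 0, nat_lit 0, nat_lit 0, nat_lit 0, nat_lit 0, nat_lit 0, [],
 ⟨p011_k78, nat_lit 0, nat_lit 0, nat_lit 0, nat_lit 0, nat_lit 292974, [nat_lit 4688000000, nat_lit 5449500000, nat_lit 7089500001, nat_lit 7968000000], [], [nat_lit 18485447829, nat_lit 18887430360, nat_lit 19188959864, nat_lit 18121967042], nat_lit 1271250, nat_lit 1271250, nat_lit 88400, nat_lit 490000, nat_lit 0, nat_lit 0, [nat_lit 1100000, nat_lit 1271250, nat_lit 1271250, nat_lit 1271250], [nat_lit 129, nat_lit 40, nat_lit 20, nat_lit 40]⟩, ⟨p011_k78, nat_lit 0, nat_lit 0, nat_lit 0, nat_lit 0, nat_lit 292974, [nat_lit 4688000000, nat_lit 5449500000, nat_lit 7089500000, nat_lit 7968000000], [], [nat_lit 18485447827, nat_lit 18887430359, nat_lit 19188959864, nat_lit 18121967042],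 nat_lit 1271250, nat_lit 1271250, nat_lit 88400, nat_lit 490000, nat_lit 0, nat_lit 0, [nat_lit 1100000, nat_lit 1271250, nat_lit 1271250, nat_lit 1271250], [nat_lit 129, nat_lit 40, nat_lit 20, nat_lit 40]⟩,
 zbF0, [⟨nat_lit 0, nat_lit 100, nat_lit 100, nat_lit 45, nat_lit 674673167⟩]⟩
noncomputable def p011_l186 : Lf2 := ⟨nat_lit 0, nat_lit 3, [nat_lit 45, nat_lit 5, nat_lit 5, nat_lit 20], false, nat_lit 0, nat_lit 0, nat_lit 0, nat_lit 0, ⟨nat_lit 1000, nat_lit 0, nat_lit 0, nat_lit 0, nat_lit 0, nat_lit 0, nat_lit 0, nat_lit 0, nat_lit 0, nat_lit 0, nat_lit 0, nat_lit 0, nat_lit 0, nat_lit 0, nat_lit 0, nat_lit 0, false, false⟩,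
 nat_lit 15346, nat_lit 0, nat_lit 0, nat_lit 0, nat_lit 8324, nat_lit 8124, nat_lit 3878, nat_lit 0, nat_lit 0, nat_lit 4307, nat_lit 0, nat_lit 13, nat_lit 0, nat_lit 0, nat_lit 0, nat_lit 0, nat_lit 0, nat_lit 0, [],
 ⟨p011_k79, nat_lit 0, nat_lit 0, nat_lit 0, nat_lit 0, nat_lit 325518, [nat_lit 4688000000, nat_lit 5449500000, nat_lit 7089500001, nat_lit 7968000000], [], [nat_lit 19142453974, nat_lit 19506802844, nat_lit 17586225524, nat_lit 16705120454], nat_lit 1271250, nat_lit 1271250, nat_lit 88400, nat_lit 490000, nat_lit 0, nat_lit 0, [nat_lit 1100000, nat_lit 1271250, nat_lit 1271250, nat_lit 1271250], [nat_lit 129, nat_lit 40, nat_lit 20, nat_lit 40]⟩, ⟨p011_k78, nat_lit 0, nat_lit 0, nat_lit 0, nat_lit 0, nat_lit 333837, [nat_lit 4688000000, nat_lit 5449500000, nat_lit 7089500000, nat_lit 7968000000], [], [nat_lit 18479488511, nat_lit 19220456694, nat_lit 19119165808, nat_lit 17065564840],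 nat_lit 1271250, nat_lit 1271250, nat_lit 88400, nat_lit 490000, nat_lit 0, nat_lit 0, [nat_lit 1100000, nat_lit 1271250, nat_lit 1271250, nat_lit 1271250], [nat_lit 129, nat_lit 40, nat_lit 20, nat_lit 40]⟩,
 zbF0, [⟨nat_lit 0, nat_lit 100, nat_lit 100, nat_lit 50, nat_lit 825981957⟩]⟩
noncomputable def p011_l187 : Lf2 := ⟨nat_lit 0, nat_lit 4, [nat_lit 38, nat_lit 5, nat_lit 5, nat_lit 20], false, nat_lit 0, nat_lit 0, nat_lit 0, nat_lit 0, ⟨nat_lit 1000, nat_lit 0, nat_lit 0, nat_lit 0, nat_lit 0, nat_lit 0, nat_lit 0, nat_lit 0, nat_lit 0, nat_lit 0, nat_lit 0, nat_lit 0, nat_lit 0, nat_lit 0, nat_lit 0, nat_lit 0, false, false⟩,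
 nat_lit 18015, nat_lit 0, nat_lit 0, nat_lit 0, nat_lit 9537, nat_lit 9537, nat_lit 3031, nat_lit 0, nat_lit 0, nat_lit 3031, nat_lit 0, nat_lit 0, nat_lit 0, nat_lit 0, nat_lit 0, nat_lit 0, nat_lit 0, nat_lit 0, [],
 ⟨p011_k58, nat_lit 0, nat_lit 0, nat_lit 0, nat_lit 0, nat_lit 262249, [nat_lit 4688000000, nat_lit 5449500000, nat_lit 7089500001, nat_lit 7968000000], [], [nat_lit 20040233129, nat_lit 20493724187, nat_lit 17101552604, nat_lit 16487147672], nat_lit 1271250, nat_lit 1271250, nat_lit 88400, nat_lit 490000, nat_lit 0, nat_lit 0, [nat_lit 1100000, nat_lit 1271250, nat_lit 1271250, nat_lit 1271250], [nat_lit 129, nat_lit 40, nat_lit 20, nat_lit 40]⟩, ⟨p011_k58, nat_lit 0, nat_lit 0, nat_lit 0, nat_lit 0, nat_lit 262249, [nat_lit 4688000000, nat_lit 5449500000, nat_lit 7089500000, nat_lit 7968000000], [], [nat_lit 20040233128, nat_lit 20493724185, nat_lit 17101552604, nat_lit 16487147670],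 nat_lit 1271250, nat_lit 1271250, nat_lit 88400, nat_lit 490000, nat_lit 0, nat_lit 0, [nat_lit 1100000, nat_lit 1271250, nat_lit 1271250, nat_lit 1271250], [nat_lit 129, nat_lit 40, nat_lit 20, nat_lit 40]⟩,
 zbF0, [⟨nat_lit 0, nat_lit 100, nat_lit 100, nat_lit 45, nat_lit 1229132064⟩]⟩
noncomputable def p011_l188 : Lf2 := ⟨nat_lit 0, nat_lit 4, [nat_lit 38, nat_lit 5, nat_lit 5, nat_lit 20], false, nat_lit 0, nat_lit 0, nat_lit 0, nat_lit 0, ⟨nat_lit 1000, nat_lit 0, nat_lit 0, nat_lit 0, nat_lit 0, nat_lit 0, nat_lit 0, nat_lit 0, nat_lit 0, nat_lit 0, nat_lit 0, nat_lit 0, nat_lit 0, nat_lit 0, nat_lit 0, nat_lit 0, false, false⟩,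
 nat_lit 16513, nat_lit 0, nat_lit 0, nat_lit 0, nat_lit 8957, nat_lit 8742, nat_lit 3134, nat_lit 0, nat_lit 0, nat_lit 2878, nat_lit 0, nat_lit 35, nat_lit 0, nat_lit 0, nat_lit 0, nat_lit 0, nat_lit 0, nat_lit 0, [],
 ⟨p011_k80, nat_lit 0, nat_lit 0, nat_lit 0, nat_lit 0, nat_lit 296198, [nat_lit 4688000000, nat_lit 5449500000, nat_lit 7089500001, nat_lit 7968000000], [], [nat_lit 20016114339, nat_lit 20477685050, nat_lit 16448327057, nat_lit 16777153763], nat_lit 1271250, nat_lit 1271250, nat_lit 88400, nat_lit 490000, nat_lit 0, nat_lit 0, [nat_lit 1100000, nat_lit 1271250, nat_lit 1271250, nat_lit 1271250], [nat_lit 129, nat_lit 40, nat_lit 20, nat_lit 40]⟩, ⟨p011_k58, nat_lit 0, nat_lit 0, nat_lit 0, nat_lit 0, nat_lit 303856, [nat_lit 4688000000, nat_lit 5449500000, nat_lit 7089500000, nat_lit 7968000000], [], [nat_lit 19258577648, nat_lit 20165775783, nat_lit 16797067464, nat_lit 16565438838],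 nat_lit 1271250, nat_lit 1271250, nat_lit 88400, nat_lit 490000, nat_lit 0, nat_lit 0, [nat_lit 1100000, nat_lit 1271250, nat_lit 1271250, nat_lit 1271250], [nat_lit 129, nat_lit 40, nat_lit 20, nat_lit 40]⟩,
 zbF0, [⟨nat_lit 0, nat_lit 100, nat_lit 100, nat_lit 46, nat_lit 1225995397⟩]⟩
noncomputable def p011_l189 : Lf2 := ⟨nat_lit 0, nat_lit 5, [nat_lit 4, nat_lit 5, nat_lit 5, nat_lit 20], false, nat_lit 0, nat_lit 0, nat_lit 0, nat_lit 0, ⟨nat_lit 332, nat_lit 0, nat_lit 668, nat_lit 6, nat_lit 96, nat_lit 0, nat_lit 0, nat_lit 0, nat_lit 0, nat_lit 215, nat_lit 86400, nat_lit 287, nat_lit 63378861, nat_lit 0, nat_lit 0, nat_lit 1051306, false, false⟩,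
 nat_lit 6094, nat_lit 0, nat_lit 0, nat_lit 0, nat_lit 3226, nat_lit 3226, nat_lit 699, nat_lit 0, nat_lit 0, nat_lit 986, nat_lit 0, nat_lit 0, nat_lit 0, nat_lit 8821448359579, nat_lit 0, nat_lit 668000, nat_lit 0, nat_lit 0, [(nat_lit 6, [(nat_lit 6, nat_lit 668)])],
 ⟨p011_k65, nat_lit 0, nat_lit 0, nat_lit 0, nat_lit 0, nat_lit 275344, [nat_lit 1019579201, nat_lit 2190481600, nat_lit 2175467201, nat_lit 958494400], [], [nat_lit 17603906552, nat_lit 18142447855, nat_lit 17704206211, nat_lit 17811084099], nat_lit 1271250, nat_lit 1271250, nat_lit 88400, nat_lit 490000, nat_lit 0, nat_lit 0, [nat_lit 490000, nat_lit 1100000, nat_lit 1442500, nat_lit 1271250], [nat_lit 128, nat_lit 40, nat_lit 20, nat_lit 40]⟩, ⟨p011_k65, nat_lit 0, nat_lit 0, nat_lit 0, nat_lit 0, nat_lit 275344, [nat_lit 674624000, nat_lit 1556416000, nat_lit 2075000000, nat_lit 2949986000], [], [nat_lit 6887931081, nat_lit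 7189349513, nat_lit 5494926666, nat_lit 5780512438], nat_lit 1271250, nat_lit 1271250, nat_lit 88400, nat_lit 490000, nat_lit 0, nat_lit 0, [nat_lit 490000, nat_lit 1100000, nat_lit 1442500, nat_lit 1271250], [nat_lit 128, nat_lit 40, nat_lit 20, nat_lit 40]⟩,
 ⟨nat_lit 6123, nat_lit 6325, ⟨.ofNat (nat_lit 164319), .ofNat (nat_lit 295942), .ofNat (nat_lit 175003), .ofNat (nat_lit 306625), .ofNat (nat_lit 172944), .ofNat (nat_lit 301553), .ofNat (nat_lit 183618), .ofNat (nat_lit 312227)⟩, ⟨.ofNat (nat_lit 0), .ofNat (nat_lit 0), .ofNat (nat_lit 0), .ofNat (nat_lit 0), .ofNat (nat_lit 0), .ofNat (nat_lit 0), .ofNat (nat_lit 0), .ofNat (nat_lit 0)⟩⟩, [⟨nat_lit 0, nat_lit 100, nat_lit 100, nat_lit 45, nat_lit 430696174⟩]⟩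
noncomputable def p011_l190 : Lf2 := ⟨nat_lit 0, nat_lit 4, [nat_lit 38, nat_lit 5, nat_lit 5, nat_lit 20], false, nat_lit 0, nat_lit 0, nat_lit 0, nat_lit 0, ⟨nat_lit 101, nat_lit 0, nat_lit 899, nat_lit 6, nat_lit 79, nat_lit 0, nat_lit 0, nat_lit 0, nat_lit 0, nat_lit 215, nat_lit 60000, nat_lit 275, nat_lit 64463387, nat_lit 0, nat_lit 0, nat_lit 805395, false, false⟩,
 nat_lit 11337, nat_lit 0, nat_lit 0, nat_lit 0, nat_lit 6001, nat_lit 6001, nat_lit 0, nat_lit 0, nat_lit 0, nat_lit 906, nat_lit 0, nat_lit 0, nat_lit 0, nat_lit 25673405345779, nat_lit 8, nat_lit 431000, nat_lit 0, nat_lit 3725214168, [(nat_lit 6, [(nat_lit 5, nat_lit 780), (nat_lit 6, nat_lit 119)])],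
 ⟨p011_k59, nat_lit 0, nat_lit 0, nat_lit 0, nat_lit 0, nat_lit 339187, [nat_lit 999091601, nat_lit 1327730801, nat_lit 794298000, nat_lit 106513800], [], [nat_lit 16544756502, nat_lit 15940411664, nat_lit 15642786398, nat_lit 14684797234], nat_lit 1271250, nat_lit 1271250, nat_lit 88400, nat_lit 230001, nat_lit 0, nat_lit 0, [nat_lit 490000, nat_lit 1100000, nat_lit 1442500, nat_lit 1271250], [nat_lit 98, nat_lit 40, nat_lit 20, nat_lit 80]⟩, ⟨p011_k59, nat_lit 0, nat_lit 0, nat_lit 0, nat_lit 0, nat_lit 339187, [nat_lit 205232000, nat_lit 473488000, nat_lit 631250000, nat_lit 804768000], [], [nat_lit 1557621081, nat_lit 2044191495, nat_lit 0, nat_lit 482416099], nat_lit 1271250, nat_lit 1271250, nat_lit 88400, nat_lit 230001, nat_lit 0, nat_lit 0, [nat_lit 490000, nat_lit 1100000, nat_lit 1442500, nat_lit 1271250], [nat_lit 98, nat_lit 40, nat_lit 20, nat_lit 80]⟩,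
 ⟨nat_lit 6123, nat_lit 6325, ⟨.ofNat (nat_lit 164319), .ofNat (nat_lit 213677), .ofNat (nat_lit 175003), .ofNat (nat_lit 224361), .ofNat (nat_lit 172944), .ofNat (nat_lit 221172), .ofNat (nat_lit 183618), .ofNat (nat_lit 231846)⟩, ⟨.ofNat (nat_lit 0), .ofNat (nat_lit 0), .ofNat (nat_lit 0), .ofNat (nat_lit 0), .ofNat (nat_lit 0), .ofNat (nat_lit 0), .ofNat (nat_lit 0), .ofNat (nat_lit 0)⟩⟩, [⟨nat_lit 0, nat_lit 100, nat_lit 100, nat_lit 45, nat_lit 694950950⟩]⟩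
noncomputable def p011_l191 : Lf2 := ⟨nat_lit 0, nat_lit 4, [nat_lit 38, nat_lit 5, nat_lit 5, nat_lit 20], true, nat_lit 0, nat_lit 0, nat_lit 0, nat_lit 0, ⟨nat_lit 0, nat_lit 0, nat_lit 1000, nat_lit 6, nat_lit 105, nat_lit 0, nat_lit 0, nat_lit 0, nat_lit 0, nat_lit 215, nat_lit 104017, nat_lit 294, nat_lit 62652369, nat_lit 0, nat_lit 0, nat_lit 1201073, false, false⟩,
 nat_lit 0, nat_lit 2769, nat_lit 0, nat_lit 0, nat_lit 1465, nat_lit 0, nat_lit 0, nat_lit 0, nat_lit 207, nat_lit 0, nat_lit 0, nat_lit 0, nat_lit 0, nat_lit 6162021048353, nat_lit 41, nat_lit 400000, nat_lit 0, nat_lit 0, [(nat_lit 6, [(nat_lit 5, nat_lit 1000)])],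
 ⟨p011_k60, nat_lit 0, nat_lit 0, nat_lit 0, nat_lit 0, nat_lit 339187, [nat_lit 2073600001, nat_lit 7600000], [], [nat_lit 8114095782, nat_lit 8632567820, nat_lit 8594241502, nat_lit 9087330687], nat_lit 1271250, nat_lit 1271250, nat_lit 230001, nat_lit 490000, nat_lit 0, nat_lit 0, [nat_lit 1100000, nat_lit 1785000], [nat_lit 39, nat_lit 40, nat_lit 20, nat_lit 80]⟩, C1.Rw.none,
 ⟨nat_lit 6123, nat_lit 6325, ⟨.ofNat (nat_lit 213677), .ofNat (nat_lit 295942), .ofNat (nat_lit 224361), .ofNat (nat_lit 306625), .ofNat (nat_lit 221172), .ofNat (nat_lit 301553), .ofNat (nat_lit 231846), .ofNat (nat_lit 312227)⟩, ⟨.ofNat (nat_lit 0), .ofNat (nat_lit 0), .ofNat (nat_lit 0), .ofNat (nat_lit 0), .ofNat (nat_lit 0), .ofNat (nat_lit 0), .ofNat (nat_lit 0), .ofNat (nat_lit 0)⟩⟩, []⟩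
noncomputable def p011_l192 : Lf2 := ⟨nat_lit 0, nat_lit 4, [nat_lit 38, nat_lit 5, nat_lit 5, nat_lit 20], false, nat_lit 0, nat_lit 0, nat_lit 0, nat_lit 0, ⟨nat_lit 567, nat_lit 0, nat_lit 433, nat_lit 6, nat_lit 105, nat_lit 0, nat_lit 0, nat_lit 0, nat_lit 0, nat_lit 215, nat_lit 104017, nat_lit 294, nat_lit 62652369, nat_lit 0, nat_lit 0, nat_lit 1201073, false, false⟩,
 nat_lit 18266, nat_lit 0, nat_lit 0, nat_lit 0, nat_lit 9670, nat_lit 9670, nat_lit 2628, nat_lit 0, nat_lit 0, nat_lit 0, nat_lit 0, nat_lit 0, nat_lit 0, nat_lit 0, nat_lit 0, nat_lit 433000, nat_lit 0, nat_lit 0, [(nat_lit 6, [(nat_lit 6, nat_lit 433)])],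
 ⟨p011_k24, nat_lit 0, nat_lit 0, nat_lit 0, nat_lit 0, nat_lit 339187, [nat_lit 3081165867, nat_lit 3460614001, nat_lit 3755832599], [], [nat_lit 14784550189, nat_lit 14253693301, nat_lit 16103699749, nat_lit 13694486939], nat_lit 1271250, nat_lit 1271250, nat_lit 230001, nat_lit 490000, nat_lit 0, nat_lit 0, [nat_lit 1100000, nat_lit 1442500, nat_lit 1271250], [nat_lit 9, nat_lit 40, nat_lit 20, nat_lit 80]⟩, ⟨p011_k24, nat_lit 0, nat_lit 0, nat_lit 0, nat_lit 0, nat_lit 339187, [nat_lit 2658096000, nat_lit 3543750000, nat_lit 4517856000], [], [nat_lit 14637842164, nat_lit 13407119053, nat_lit 10027323288, nat_lit 10710842188], nat_lit 1271250, nat_lit 1271250, nat_lit 230001, nat_lit 490000, nat_lit 0, nat_lit 0, [nat_lit 1100000, nat_lit 1442500, nat_lit 1271250], [nat_lit 9, nat_lit 40, nat_lit 20, nat_lit 80]⟩,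
 ⟨nat_lit 6123, nat_lit 6325, ⟨.ofNat (nat_lit 213677), .ofNat (nat_lit 295942), .ofNat (nat_lit 224361), .ofNat (nat_lit 306625), .ofNat (nat_lit 221172), .ofNat (nat_lit 301553), .ofNat (nat_lit 231846), .ofNat (nat_lit 312227)⟩, ⟨.ofNat (nat_lit 0), .ofNat (nat_lit 0), .ofNat (nat_lit 0), .ofNat (nat_lit 0), .ofNat (nat_lit 0), .ofNat (nat_lit 0), .ofNat (nat_lit 0), .ofNat (nat_lit 0)⟩⟩, []⟩
noncomputable def p011_l193 : Lf2 := ⟨nat_lit 0, nat_lit 3, [nat_lit 45, nat_lit 5, nat_lit 5, nat_lit 20], false, nat_lit 0, nat_lit 0, nat_lit 0, nat_lit 0, ⟨nat_lit 1000, nat_lit 0, nat_lit 0, nat_lit 0, nat_lit 0, nat_lit 0, nat_lit 0, nat_lit 0, nat_lit 0, nat_lit 0, nat_lit 0, nat_lit 0, nat_lit 0, nat_lit 0, nat_lit 0, nat_lit 0, false, false⟩,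
 nat_lit 100000, nat_lit 0, nat_lit 0, nat_lit 0, nat_lit 52941, nat_lit 52941, nat_lit 0, nat_lit 0, nat_lit 0, nat_lit 14953, nat_lit 1829, nat_lit 0, nat_lit 0, nat_lit 0, nat_lit 0, nat_lit 0, nat_lit 16183362490, nat_lit 0, [],
 ⟨p011_k81, nat_lit 0, nat_lit 0, nat_lit 0, nat_lit 0, nat_lit 333837, [nat_lit 4688000000, nat_lit 6250000000, nat_lit 7968000000], [], [nat_lit 21358134818, nat_lit 7777233029, nat_lit 10454745281, nat_lit 0], nat_lit 1271250, nat_lit 1271250, nat_lit 230001, nat_lit 279600, nat_lit 0, nat_lit 0, [nat_lit 1100000, nat_lit 1442500, nat_lit 1271250], [nat_lit 9, nat_lit 40, nat_lit 20, nat_lit 80]⟩, ⟨p011_k81, nat_lit 0, nat_lit 0, nat_lit 0, nat_lit 0, nat_lit 333837, [nat_lit 33952000000, nat_lit 42830000000, nat_lit 51864000000], [], [nat_lit 56185905936, nat_lit 48551394266, nat_lit 56144034502, nat_lit 44625099820], nat_lit 1271250, nat_lit 1271250, nat_lit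 230001, nat_lit 279600, nat_lit 0, nat_lit 0, [nat_lit 1100000, nat_lit 1442500, nat_lit 1271250], [nat_lit 9, nat_lit 40, nat_lit 20, nat_lit 80]⟩,
 zbF0, []⟩
noncomputable def p011_l194 : Lf2 := ⟨nat_lit 0, nat_lit 3, [nat_lit 45, nat_lit 5, nat_lit 5, nat_lit 20], false, nat_lit 0, nat_lit 0, nat_lit 0, nat_lit 0, ⟨nat_lit 0, nat_lit 0, nat_lit 1000, nat_lit 6, nat_lit 92, nat_lit 0, nat_lit 0, nat_lit 0, nat_lit 0, nat_lit 215, nat_lit 79350, nat_lit 284, nat_lit 63608818, nat_lit 0, nat_lit 0, nat_lit 1001596, false, false⟩,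
 nat_lit 100000, nat_lit 0, nat_lit 0, nat_lit 0, nat_lit 52941, nat_lit 52941, nat_lit 0, nat_lit 0, nat_lit 0, nat_lit 0, nat_lit 1020, nat_lit 0, nat_lit 0, nat_lit 0, nat_lit 80, nat_lit 1000000, nat_lit 25068083288, nat_lit 0, [(nat_lit 6, [(nat_lit 6, nat_lit 1000)])],
 ⟨p011_k82, nat_lit 0, nat_lit 0, nat_lit 0, nat_lit 0, nat_lit 333837, [nat_lit 2814000001, nat_lit 141466667], [], [nat_lit 1127616859, nat_lit 3256906216, nat_lit 1391617347, nat_lit 0], nat_lit 1271250, nat_lit 1271250, nat_lit 230001, nat_lit 279600, nat_lit 0, nat_lit 0, [nat_lit 1100000, nat_lit 1785000], [nat_lit 39, nat_lit 40, nat_lit 20, nat_lit 80]⟩, ⟨p011_k82, nat_lit 0, nat_lit 0, nat_lit 0, nat_lit 0, nat_lit 333837, [nat_lit 16320000000, nat_lit 24480000000], [], [nat_lit 20597584236, nat_lit 11617218594, nat_lit 20663188724, nat_lit 8216267578], nat_lit 1271250, nat_lit 1271250, nat_lit 230001, nat_lit 279600,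 nat_lit 0, nat_lit 0, [nat_lit 1100000, nat_lit 1785000], [nat_lit 39, nat_lit 40, nat_lit 20, nat_lit 80]⟩,
 ⟨nat_lit 6123, nat_lit 6325, ⟨.ofNat (nat_lit 213677), .ofNat (nat_lit 230130), .ofNat (nat_lit 224361), .ofNat (nat_lit 240814), .ofNat (nat_lit 221172), .ofNat (nat_lit 237248), .ofNat (nat_lit 231846), .ofNat (nat_lit 247922)⟩, ⟨.ofNat (nat_lit 0), .ofNat (nat_lit 0), .ofNat (nat_lit 0), .ofNat (nat_lit 0), .ofNat (nat_lit 0), .ofNat (nat_lit 0), .ofNat (nat_lit 0), .ofNat (nat_lit 0)⟩⟩, []⟩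
noncomputable def p011_l195 : Lf2 := ⟨nat_lit 0, nat_lit 3, [nat_lit 45, nat_lit 5, nat_lit 5, nat_lit 20], false, nat_lit 0, nat_lit 0, nat_lit 0, nat_lit 0, ⟨nat_lit 0, nat_lit 0, nat_lit 1000, nat_lit 6, nat_lit 92, nat_lit 0, nat_lit 0, nat_lit 0, nat_lit 0, nat_lit 215, nat_lit 79350, nat_lit 284, nat_lit 63608818, nat_lit 0, nat_lit 0, nat_lit 1001596, false, false⟩,
 nat_lit 100000, nat_lit 0, nat_lit 0, nat_lit 0, nat_lit 52941, nat_lit 52941, nat_lit 0, nat_lit 0, nat_lit 0, nat_lit 0, nat_lit 1021, nat_lit 0, nat_lit 0, nat_lit 0, nat_lit 80, nat_lit 1000000, nat_lit 25068083288, nat_lit 0, [(nat_lit 6, [(nat_lit 6, nat_lit 1000)])],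
 ⟨p011_k82, nat_lit 0, nat_lit 0, nat_lit 0, nat_lit 0, nat_lit 333837, [nat_lit 2814000001, nat_lit 141466667], [], [nat_lit 1127616859, nat_lit 3256906216, nat_lit 1391617347, nat_lit 0], nat_lit 1271250, nat_lit 1271250, nat_lit 230001, nat_lit 279600, nat_lit 0, nat_lit 0, [nat_lit 1100000, nat_lit 1785000], [nat_lit 39, nat_lit 40, nat_lit 20, nat_lit 80]⟩, ⟨p011_k82, nat_lit 0, nat_lit 0, nat_lit 0, nat_lit 0, nat_lit 333837, [nat_lit 16336000000, nat_lit 24504000000], [], [nat_lit 20661584236, nat_lit 11665218594, nat_lit 20727188724, nat_lit 8264267578], nat_lit 1271250, nat_lit 1271250, nat_lit 230001, nat_lit 279600, nat_lit 0, nat_lit 0, [nat_lit 1100000, nat_lit 1785000], [nat_lit 39, nat_lit 40, nat_lit 20, nat_lit 80]⟩,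
 ⟨nat_lit 6123, nat_lit 6325, ⟨.ofNat (nat_lit 213677), .ofNat (nat_lit 230130), .ofNat (nat_lit 224361), .ofNat (nat_lit 240814), .ofNat (nat_lit 221172), .ofNat (nat_lit 237248), .ofNat (nat_lit 231846), .ofNat (nat_lit 247922)⟩, ⟨.ofNat (nat_lit 0), .ofNat (nat_lit 0), .ofNat (nat_lit 0), .ofNat (nat_lit 0), .ofNat (nat_lit 0), .ofNat (nat_lit 0), .ofNat (nat_lit 0), .ofNat (nat_lit 0)⟩⟩, [⟨nat_lit 13, nat_lit 99, nat_lit 5, nat_lit 100, nat_lit 125680477⟩]⟩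
noncomputable def p011_l196 : Lf2 := ⟨nat_lit 0, nat_lit 4, [nat_lit 38, nat_lit 5, nat_lit 5, nat_lit 20], false, nat_lit 0, nat_lit 0, nat_lit 0, nat_lit 0, ⟨nat_lit 0, nat_lit 0, nat_lit 1000, nat_lit 6, nat_lit 91, nat_lit 0, nat_lit 0, nat_lit 0, nat_lit 0, nat_lit 215, nat_lit 77067, nat_lit 283, nat_lit 63732995, nat_lit 0, nat_lit 0, nat_lit 974248, false, false⟩,
 nat_lit 58257, nat_lit 0, nat_lit 0, nat_lit 0, nat_lit 30841, nat_lit 30841, nat_lit 0, nat_lit 0, nat_lit 0, nat_lit 0, nat_lit 791, nat_lit 0, nat_lit 0, nat_lit 0, nat_lit 80, nat_lit 1000000, nat_lit 8828149637, nat_lit 0, [(nat_lit 6, [(nat_lit 6, nat_lit 1000)])],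
 ⟨p011_k60, nat_lit 0, nat_lit 0, nat_lit 0, nat_lit 0, nat_lit 262249, [nat_lit 2814000001, nat_lit 141466667], [], [nat_lit 3540171608, nat_lit 1593084396, nat_lit 3776785776, nat_lit 0], nat_lit 1271250, nat_lit 1271250, nat_lit 230001, nat_lit 279600, nat_lit 0, nat_lit 0, [nat_lit 1100000, nat_lit 1785000], [nat_lit 39, nat_lit 40, nat_lit 20, nat_lit 80]⟩, ⟨p011_k60, nat_lit 0, nat_lit 0, nat_lit 0, nat_lit 0, nat_lit 262249, [nat_lit 12656000000, nat_lit 18984000000], [], [nat_lit 24594072636, nat_lit 21792520245, nat_lit 24632290804, nat_lit 20855505028], nat_lit 1271250, nat_lit 1271250, nat_lit 230001, nat_lit 279600, nat_lit 0, nat_lit 0, [nat_lit 1100000, nat_lit 1785000], [nat_lit 39, nat_lit 40, nat_lit 20, nat_lit 80]⟩,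
 ⟨nat_lit 6224, nat_lit 6325, ⟨.ofNat (nat_lit 213677), .ofNat (nat_lit 230130), .ofNat (nat_lit 219019), .ofNat (nat_lit 235472), .ofNat (nat_lit 217441), .ofNat (nat_lit 233705), .ofNat (nat_lit 222780), .ofNat (nat_lit 239044)⟩, ⟨.ofNat (nat_lit 0), .ofNat (nat_lit 0), .ofNat (nat_lit 0), .ofNat (nat_lit 0), .ofNat (nat_lit 0), .ofNat (nat_lit 0), .ofNat (nat_lit 0), .ofNat (nat_lit 0)⟩⟩, []⟩
noncomputable def p011_l197 : Lf2 := ⟨nat_lit 0, nat_lit 4, [nat_lit 38, nat_lit 5, nat_lit 5, nat_lit 20], true, nat_lit 0, nat_lit 0, nat_lit 0, nat_lit 0, ⟨nat_lit 0, nat_lit 0, nat_lit 1000, nat_lit 6, nat_lit 93, nat_lit 0, nat_lit 0, nat_lit 0, nat_lit 0, nat_lit 215, nat_lit 81667, nat_lit 285, nat_lit 63557532, nat_lit 0, nat_lit 0, nat_lit 1012786, false, false⟩,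
 nat_lit 0, nat_lit 10201, nat_lit 0, nat_lit 0, nat_lit 5533, nat_lit 0, nat_lit 452, nat_lit 0, nat_lit 0, nat_lit 0, nat_lit 0, nat_lit 0, nat_lit 0, nat_lit 28863790213865, nat_lit 80, nat_lit 1000000, nat_lit 0, nat_lit 0, [(nat_lit 6, [(nat_lit 6, nat_lit 1000)])],
 ⟨p011_k25, nat_lit 0, nat_lit 0, nat_lit 0, nat_lit 0, nat_lit 296198, [nat_lit 2257066667, nat_lit 1408000000, nat_lit 211200000], [], [nat_lit 11013446232, nat_lit 10368812539, nat_lit 11188758556, nat_lit 10491464445], nat_lit 1271250, nat_lit 1271250, nat_lit 230001, nat_lit 279600, nat_lit 0, nat_lit 0, [nat_lit 1100000, nat_lit 1442500, nat_lit 1271250], [nat_lit 9, nat_lit 40, nat_lit 20, nat_lit 80]⟩, C1.Rw.none,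
 ⟨nat_lit 6123, nat_lit 6225, ⟨.ofNat (nat_lit 217441), .ofNat (nat_lit 233705), .ofNat (nat_lit 228119), .ofNat (nat_lit 244383), .ofNat (nat_lit 221172), .ofNat (nat_lit 237248), .ofNat (nat_lit 231846), .ofNat (nat_lit 247922)⟩, ⟨.ofNat (nat_lit 0), .ofNat (nat_lit 0), .ofNat (nat_lit 0), .ofNat (nat_lit 0), .ofNat (nat_lit 0), .ofNat (nat_lit 0), .ofNat (nat_lit 0), .ofNat (nat_lit 0)⟩⟩, []⟩
noncomputable def p011_l198 : Lf2 := ⟨nat_lit 0, nat_lit 4, [nat_lit 38, nat_lit 5, nat_lit 5, nat_lit 20], false, nat_lit 0, nat_lit 0, nat_lit 0, nat_lit 0, ⟨nat_lit 1000, nat_lit 0, nat_lit 0, nat_lit 0, nat_lit 0, nat_lit 0, nat_lit 0, nat_lit 0, nat_lit 0, nat_lit 0, nat_lit 0, nat_lit 0, nat_lit 0, nat_lit 0, nat_lit 0, nat_lit 0, false, false⟩,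
 nat_lit 100000, nat_lit 0, nat_lit 0, nat_lit 0, nat_lit 52941, nat_lit 52941, nat_lit 4288, nat_lit 0, nat_lit 0, nat_lit 0, nat_lit 1159, nat_lit 0, nat_lit 0, nat_lit 114264983505303, nat_lit 0, nat_lit 0, nat_lit 24155175947, nat_lit 0, [],
 ⟨p011_k24, nat_lit 0, nat_lit 0, nat_lit 0, nat_lit 0, nat_lit 339187, [nat_lit 4688000000, nat_lit 6250000000, nat_lit 7968000000], [], [nat_lit 18426558738, nat_lit 4885616816, nat_lit 2071474431, nat_lit 0], nat_lit 1271250, nat_lit 1271250, nat_lit 279600, nat_lit 356250, nat_lit 0, nat_lit 0, [nat_lit 1100000, nat_lit 1442500, nat_lit 1271250], [nat_lit 9, nat_lit 40, nat_lit 20, nat_lit 80]⟩, ⟨p011_k24, nat_lit 0, nat_lit 0, nat_lit 0, nat_lit 0, nat_lit 339187, [nat_lit 23232000000, nat_lit 29430000000, nat_lit 35784000000], [], [nat_lit 54539382791, nat_lit 52419602147, nat_lit 41991463788, nat_lit 46524806155], nat_lit 1271250, nat_lit 1271250,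 nat_lit 279600, nat_lit 356250, nat_lit 0, nat_lit 0, [nat_lit 1100000, nat_lit 1442500, nat_lit 1271250], [nat_lit 9, nat_lit 40, nat_lit 20, nat_lit 80]⟩,
 zbF0, []⟩
noncomputable def p011_l199 : Lf2 := ⟨nat_lit 0, nat_lit 4, [nat_lit 38, nat_lit 5, nat_lit 5, nat_lit 20], false, nat_lit 0, nat_lit 0, nat_lit 0, nat_lit 0, ⟨nat_lit 1000, nat_lit 0, nat_lit 0, nat_lit 0, nat_lit 0, nat_lit 0, nat_lit 0, nat_lit 0, nat_lit 0, nat_lit 0, nat_lit 0, nat_lit 0, nat_lit 0, nat_lit 0, nat_lit 0, nat_lit 0, false, false⟩,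
 nat_lit 100000, nat_lit 88889, nat_lit 20002, nat_lit 0, nat_lit 100000, nat_lit 63530, nat_lit 14886, nat_lit 826, nat_lit 0, nat_lit 1537, nat_lit 1675, nat_lit 0, nat_lit 0, nat_lit 400000000000000, nat_lit 0, nat_lit 0, nat_lit 70234587999, nat_lit 0, [],
 ⟨p011_k24, nat_lit 0, nat_lit 0, nat_lit 0, nat_lit 0, nat_lit 339187, [nat_lit 17904000001, nat_lit 22770000000, nat_lit 27792000000], [], [nat_lit 39805000001, nat_lit 14342165999, nat_lit 0, nat_lit 3320269999], nat_lit 1271250, nat_lit 1271250, nat_lit 356250, nat_lit 490000, nat_lit 0, nat_lit 0, [nat_lit 1100000, nat_lit 1442500, nat_lit 1271250], [nat_lit 9, nat_lit 40, nat_lit 20, nat_lit 80]⟩, ⟨p011_k24, nat_lit 0, nat_lit 0, nat_lit 0, nat_lit 0, nat_lit 339187, [nat_lit 31488000000, nat_lit 39750000000, nat_lit 48168000000], [], [nat_lit 53473483720, nat_lit 55861105740, nat_lit 44714398050, nat_lit 48362688380], nat_lit 1271250,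 nat_lit 1271250, nat_lit 356250, nat_lit 490000, nat_lit 0, nat_lit 0, [nat_lit 1100000, nat_lit 1442500, nat_lit 1271250], [nat_lit 9, nat_lit 40, nat_lit 20, nat_lit 80]⟩,
 zbF0, []⟩
noncomputable def p011_l200 : Lf2 := ⟨nat_lit 0, nat_lit 5, [nat_lit 4, nat_lit 5, nat_lit 5, nat_lit 20], false, nat_lit 0, nat_lit 0, nat_lit 0, nat_lit 0, ⟨nat_lit 109, nat_lit 0, nat_lit 891, nat_lit 6, nat_lit 96, nat_lit 0, nat_lit 0, nat_lit 0, nat_lit 0, nat_lit 215, nat_lit 86400, nat_lit 287, nat_lit 63378861, nat_lit 0, nat_lit 0, nat_lit 1051306, false, false⟩,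
 nat_lit 9022, nat_lit 0, nat_lit 0, nat_lit 0, nat_lit 4776, nat_lit 4776, nat_lit 358, nat_lit 0, nat_lit 0, nat_lit 801, nat_lit 0, nat_lit 0, nat_lit 0, nat_lit 3393110047257, nat_lit 71, nat_lit 891000, nat_lit 0, nat_lit 3315226572, [(nat_lit 6, [(nat_lit 6, nat_lit 891)])],
 ⟨p011_k65, nat_lit 0, nat_lit 0, nat_lit 0, nat_lit 0, nat_lit 275344, [nat_lit 1249600400, nat_lit 2492729200, nat_lit 2235256401, nat_lit 177732800], [], [nat_lit 13618621327, nat_lit 14237485884, nat_lit 12194535170, nat_lit 12868266618], nat_lit 1271250, nat_lit 1271250, nat_lit 88400, nat_lit 490000, nat_lit 0, nat_lit 0, [nat_lit 490000, nat_lit 1100000, nat_lit 1442500, nat_lit 1271250], [nat_lit 128, nat_lit 40, nat_lit 20, nat_lit 40]⟩, ⟨p011_k65, nat_lit 0, nat_lit 0, nat_lit 0, nat_lit 0, nat_lit 275344, [nat_lit 221488000, nat_lit 510992000, nat_lit 681250000, nat_lit 968519500], [], [nat_lit 2476735926,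 nat_lit 2800778408, nat_lit 0, nat_lit 375030826], nat_lit 1271250, nat_lit 1271250, nat_lit 88400, nat_lit 490000, nat_lit 0, nat_lit 0, [nat_lit 490000, nat_lit 1100000, nat_lit 1442500, nat_lit 1271250], [nat_lit 128, nat_lit 40, nat_lit 20, nat_lit 40]⟩,
 ⟨nat_lit 6123, nat_lit 6325, ⟨.ofNat (nat_lit 164319), .ofNat (nat_lit 295942), .ofNat (nat_lit 175003), .ofNat (nat_lit 306625), .ofNat (nat_lit 172944), .ofNat (nat_lit 301553), .ofNat (nat_lit 183618), .ofNat (nat_lit 312227)⟩, ⟨.ofNat (nat_lit 0), .ofNat (nat_lit 0), .ofNat (nat_lit 0), .ofNat (nat_lit 0), .ofNat (nat_lit 0), .ofNat (nat_lit 0), .ofNat (nat_lit 0), .ofNat (nat_lit 0)⟩⟩, [⟨nat_lit 0, nat_lit 100, nat_lit 100, nat_lit 50, nat_lit 477717728⟩]⟩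
noncomputable def p011_l201 : Lf2 := ⟨nat_lit 0, nat_lit 4, [nat_lit 38, nat_lit 5, nat_lit 5, nat_lit 20], true, nat_lit 0, nat_lit 0, nat_lit 0, nat_lit 0, ⟨nat_lit 0, nat_lit 0, nat_lit 1000, nat_lit 6, nat_lit 94, nat_lit 0, nat_lit 0, nat_lit 0, nat_lit 0, nat_lit 215, nat_lit 81667, nat_lit 285, nat_lit 63505211, nat_lit 0, nat_lit 0, nat_lit 1024140, false, false⟩,
 nat_lit 0, nat_lit 100000, nat_lit 0, nat_lit 0, nat_lit 52941, nat_lit 0, nat_lit 60000, nat_lit 20000, nat_lit 0, nat_lit 0, nat_lit 0, nat_lit 0, nat_lit 0, nat_lit 0, nat_lit 0, nat_lit 1000000, nat_lit 0, nat_lit 0, [(nat_lit 6, [(nat_lit 6, nat_lit 1000)])],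
 ⟨p011_k58, nat_lit 0, nat_lit 0, nat_lit 0, nat_lit 0, nat_lit 297559, [nat_lit 320977066667, nat_lit 360566400000, nat_lit 439049600000, nat_lit 478082000000], [], [nat_lit 1037822407155, nat_lit 1039328933378, nat_lit 1014197370391, nat_lit 1015593426226], nat_lit 1271250, nat_lit 1271250, nat_lit 88400, nat_lit 490000, nat_lit 0, nat_lit 0, [nat_lit 1100000, nat_lit 1271250, nat_lit 1271250, nat_lit 1271250], [nat_lit 129, nat_lit 40, nat_lit 20, nat_lit 40]⟩, C1.Rw.none,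
 ⟨nat_lit 6224, nat_lit 6325, ⟨.ofNat (nat_lit 164319), .ofNat (nat_lit 295942), .ofNat (nat_lit 169661), .ofNat (nat_lit 301284), .ofNat (nat_lit 168651), .ofNat (nat_lit 298759), .ofNat (nat_lit 173990), .ofNat (nat_lit 304098)⟩, ⟨.ofNat (nat_lit 0), .ofNat (nat_lit 0), .ofNat (nat_lit 0), .ofNat (nat_lit 0), .ofNat (nat_lit 0), .ofNat (nat_lit 0), .ofNat (nat_lit 0), .ofNat (nat_lit 0)⟩⟩, [⟨nat_lit 13, nat_lit 99, nat_lit 3, nat_lit 100, nat_lit 304236176⟩]⟩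
noncomputable def p011_l202 : Lf2 := ⟨nat_lit 0, nat_lit 5, [nat_lit 4, nat_lit 5, nat_lit 5, nat_lit 20], true, nat_lit 0, nat_lit 0, nat_lit 0, nat_lit 0, ⟨nat_lit 0, nat_lit 0, nat_lit 1000, nat_lit 6, nat_lit 94, nat_lit 0, nat_lit 0, nat_lit 0, nat_lit 0, nat_lit 215, nat_lit 81667, nat_lit 285, nat_lit 63505211, nat_lit 0, nat_lit 0, nat_lit 1024140, false, false⟩,
 nat_lit 0, nat_lit 100000, nat_lit 0, nat_lit 0, nat_lit 52941, nat_lit 0, nat_lit 5309, nat_lit 3038, nat_lit 0, nat_lit 0, nat_lit 0, nat_lit 0, nat_lit 0, nat_lit 400000000000000, nat_lit 0, nat_lit 400000, nat_lit 0, nat_lit 0, [(nat_lit 6, [(nat_lit 5, nat_lit 1000)])],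
 ⟨p011_k26, nat_lit 0, nat_lit 0, nat_lit 0, nat_lit 0, nat_lit 232919, [nat_lit 50025600000, nat_lit 60840000001, nat_lit 83139200000], [], [nat_lit 125366210186, nat_lit 126631473905, nat_lit 110847802726, nat_lit 104252862945], nat_lit 1271250, nat_lit 1271250, nat_lit 88400, nat_lit 490000, nat_lit 0, nat_lit 0, [nat_lit 1100000, nat_lit 1442500, nat_lit 1271250], [nat_lit 11, nat_lit 40, nat_lit 20, nat_lit 80]⟩, C1.Rw.none,
 ⟨nat_lit 6224, nat_lit 6325, ⟨.ofNat (nat_lit 164319), .ofNat (nat_lit 295942), .ofNat (nat_lit 169661), .ofNat (nat_lit 301284), .ofNat (nat_lit 168651), .ofNat (nat_lit 298759), .ofNat (nat_lit 173990), .ofNat (nat_lit 304098)⟩, ⟨.ofNat (nat_lit 0), .ofNat (nat_lit 0), .ofNat (nat_lit 0), .ofNat (nat_lit 0), .ofNat (nat_lit 0), .ofNat (nat_lit 0), .ofNat (nat_lit 0), .ofNat (nat_lit 0)⟩⟩, []⟩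
noncomputable def p011_l203 : Lf2 := ⟨nat_lit 2, nat_lit 5, [nat_lit 4, nat_lit 5, nat_lit 5, nat_lit 20], true, nat_lit 0, nat_lit 0, nat_lit 0, nat_lit 0, zbN0,
 nat_lit 0, nat_lit 0, nat_lit 0, nat_lit 0, nat_lit 0, nat_lit 0, nat_lit 0, nat_lit 0, nat_lit 0, nat_lit 0, nat_lit 0, nat_lit 0, nat_lit 0, nat_lit 0, nat_lit 0, nat_lit 0, nat_lit 0, nat_lit 0, [],
 ⟨p011_k83, nat_lit 0, nat_lit 0, nat_lit 0, nat_lit 0, nat_lit 338951, [], [], [], nat_lit 1271250, nat_lit 1271250, nat_lit 88400, nat_lit 490000, nat_lit 0, nat_lit 0, [nat_lit 936250, nat_lit 1271250, nat_lit 1271250], [nat_lit 168, nat_lit 40, nat_lit 20, nat_lit 40]⟩, C1.Rw.none,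
 zbF0, []⟩
noncomputable def p011_l204 : Lf2 := ⟨nat_lit 2, nat_lit 5, [nat_lit 4, nat_lit 5, nat_lit 5, nat_lit 20], true, nat_lit 0, nat_lit 0, nat_lit 0, nat_lit 0, zbN0,
 nat_lit 0, nat_lit 0, nat_lit 0, nat_lit 0, nat_lit 0, nat_lit 0, nat_lit 0, nat_lit 0, nat_lit 0, nat_lit 0, nat_lit 0, nat_lit 0, nat_lit 0, nat_lit 0, nat_lit 0, nat_lit 0, nat_lit 0, nat_lit 0, [],
 ⟨p011_k26, nat_lit 0, nat_lit 0, nat_lit 450, nat_lit 0, nat_lit 347811, [], [], [], nat_lit 1271250, nat_lit 1271250, nat_lit 88400, nat_lit 490000, nat_lit 0, nat_lit 0, [nat_lit 1100000, nat_lit 1442500, nat_lit 1271250], [nat_lit 11, nat_lit 40, nat_lit 20, nat_lit 80, nat_lit 1, nat_lit 317, nat_lit 100, nat_lit 10]⟩, C1.Rw.none,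
 zbF0, []⟩
noncomputable def p011_l205 : Lf2 := ⟨nat_lit 0, nat_lit 5, [nat_lit 4, nat_lit 5, nat_lit 5, nat_lit 20], false, nat_lit 0, nat_lit 0, nat_lit 0, nat_lit 0, ⟨nat_lit 0, nat_lit 0, nat_lit 1000, nat_lit 6, nat_lit 96, nat_lit 0, nat_lit 0, nat_lit 0, nat_lit 0, nat_lit 215, nat_lit 86400, nat_lit 287, nat_lit 63378861, nat_lit 0, nat_lit 0, nat_lit 1051306, false, false⟩,
 nat_lit 100000, nat_lit 0, nat_lit 0, nat_lit 0, nat_lit 52941, nat_lit 52941, nat_lit 0, nat_lit 3361, nat_lit 0, nat_lit 9132, nat_lit 457, nat_lit 0, nat_lit 0, nat_lit 193602798362891, nat_lit 0, nat_lit 1000000, nat_lit 0, nat_lit 53681535332, [(nat_lit 6, [(nat_lit 6, nat_lit 1000)])],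
 ⟨p011_k26, nat_lit 0, nat_lit 0, nat_lit 450, nat_lit 0, nat_lit 347811, [nat_lit 54753066667, nat_lit 67322400001, nat_lit 90169599999], [], [nat_lit 199382376823, nat_lit 185688097959, nat_lit 161711809524, nat_lit 163224598492], nat_lit 1271250, nat_lit 1271250, nat_lit 88400, nat_lit 490000, nat_lit 0, nat_lit 0, [nat_lit 1100000, nat_lit 1442500, nat_lit 1271250], [nat_lit 11, nat_lit 40, nat_lit 20, nat_lit 80, nat_lit 1, nat_lit 317, nat_lit 100, nat_lit 10]⟩, ⟨p011_k65, nat_lit 0, nat_lit 0, nat_lit 0, nat_lit 0, nat_lit 347811, [nat_lit 3656000000, nat_lit 7312000000, nat_lit 9140000000, nat_lit 11882000000], [], [nat_lit 27496770608, nat_lit 31511411448, nat_lit 0, nat_lit 3193346913], nat_lit 1271250, nat_lit 1271250, nat_lit 88400, nat_lit 490000, nat_lit 0, nat_lit 0, [nat_lit 490000, nat_lit 1100000, nat_lit 1442500, nat_lit 1271250], [nat_lit 128, nat_lit 40, nat_lit 20, nat_lit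 40]⟩,
 ⟨nat_lit 6123, nat_lit 6325, ⟨.ofNat (nat_lit 164319), .ofNat (nat_lit 295942), .ofNat (nat_lit 175003), .ofNat (nat_lit 306625), .ofNat (nat_lit 172944), .ofNat (nat_lit 301553), .ofNat (nat_lit 183618), .ofNat (nat_lit 312227)⟩, ⟨.ofNat (nat_lit 0), .ofNat (nat_lit 0), .ofNat (nat_lit 0), .ofNat (nat_lit 0), .ofNat (nat_lit 0), .ofNat (nat_lit 0), .ofNat (nat_lit 0), .ofNat (nat_lit 0)⟩⟩, [⟨nat_lit 0, nat_lit 100, nat_lit 100, nat_lit 45, nat_lit 4016468213⟩]⟩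
noncomputable def b_NL_600_600_0_5 : St := ⟨false, nat_lit 1, nat_lit 1, nat_lit 1, nat_lit 20, nat_lit 240, nat_lit 250, nat_lit 240, nat_lit 250, nat_lit 16, nat_lit 80, nat_lit 0, nat_lit 0, nat_lit 0, nat_lit 0, nat_lit 0, nat_lit 0, nat_lit 8, nat_lit 20, nat_lit 0, nat_lit 0, nat_lit 0, nat_lit 800⟩
theorem d_NL_600_600_0_5 (h : EB TB.env) : Dead b_NL_600_600_0_5 := chkB_sound0 h (T :=
(.spl (nat_lit 7) (nat_lit 600)
(.spl (nat_lit 8) (nat_lit 400)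
(.spl (nat_lit 6) (nat_lit 16)
(.spl (nat_lit 6) (nat_lit 12)
(.spl (nat_lit 0) (nat_lit 245)
(.ord (.leaf p011_l185))
(.leaf p011_l186))
(.spl (nat_lit 0) (nat_lit 245)
(.ord (.leaf p011_l187))
(.leaf p011_l188)))
(.leaf p011_l189))
(.spl (nat_lit 6) (nat_lit 16)
(.spl (nat_lit 2) (nat_lit 40)
(.leaf p011_l190)
(.spl (nat_lit 7) (nat_lit 300)
(.leaf p011_l191)
(.spl (nat_lit 7) (nat_lit 460)
(.leaf p011_l192)
(.spl (nat_lit 2) (nat_lit 60)
(.spl (nat_lit 2) (nat_lit 48)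
(.spl (nat_lit 6) (nat_lit 12)
(.spl (nat_lit 8) (nat_lit 600)
(.spl (nat_lit 8) (nat_lit 500)
(.leaf p011_l193)
(.leaf p011_l194))
(.leaf p011_l195))
(.spl (nat_lit 0) (nat_lit 245)
(.ord (.leaf p011_l196))
(.leaf p011_l197)))
(.leaf p011_l198))
(.leaf p011_l199)))))
(.leaf p011_l200)))
(.spl (nat_lit 8) (nat_lit 400)
(.spl (nat_lit 7) (nat_lit 900)
(.spl (nat_lit 0) (nat_lit 245)
(.ord (.spl (nat_lit 6) (nat_lit 16)
(.leaf p011_l201)
(.leaf p011_l202)))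
(.leaf p011_l203))
(.leaf p011_l204))
(.leaf p011_l205)))) (by decide +kernel)
noncomputable def p011_l206 : Lf2 := ⟨nat_lit 0, nat_lit 5, [nat_lit 4, nat_lit 5, nat_lit 5, nat_lit 20], false, nat_lit 0, nat_lit 0, nat_lit 0, nat_lit 0, ⟨nat_lit 20, nat_lit 0, nat_lit 980, nat_lit 6, nat_lit 93, nat_lit 0, nat_lit 0, nat_lit 0, nat_lit 0, nat_lit 215, nat_lit 81667, nat_lit 285, nat_lit 63535325, nat_lit 0, nat_lit 0, nat_lit 1017613, false, false⟩,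
 nat_lit 4910, nat_lit 0, nat_lit 0, nat_lit 0, nat_lit 2599, nat_lit 202, nat_lit 0, nat_lit 0, nat_lit 0, nat_lit 63, nat_lit 0, nat_lit 0, nat_lit 0, nat_lit 4417993512382, nat_lit 96, nat_lit 812600, nat_lit 0, nat_lit 0, [(nat_lit 6, [(nat_lit 5, nat_lit 279), (nat_lit 6, nat_lit 701)])],
 ⟨p011_k65, nat_lit 0, nat_lit 0, nat_lit 0, nat_lit 0, nat_lit 207799, [nat_lit 1409720800, nat_lit 2514517601, nat_lit 2206063001, nat_lit 166608100], [], [nat_lit 14431974126, nat_lit 14675796075, nat_lit 14770309794, nat_lit 14653388820], nat_lit 1271250, nat_lit 1271250, nat_lit 88400, nat_lit 490000, nat_lit 0, nat_lit 0, [nat_lit 490000, nat_lit 1100000, nat_lit 1442500, nat_lit 1271250], [nat_lit 128, nat_lit 40, nat_lit 20, nat_lit 40]⟩, ⟨p011_k65, nat_lit 0, nat_lit 0, nat_lit 0, nat_lit 0, nat_lit 207799, [nat_lit 40640000, nat_lit 93760000, nat_lit 125000000, nat_lit 177710000], [], [nat_lit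 408140932, nat_lit 419084649, nat_lit 315420736, nat_lit 321727092], nat_lit 1271250, nat_lit 1271250, nat_lit 88400, nat_lit 490000, nat_lit 0, nat_lit 0, [nat_lit 490000, nat_lit 1100000, nat_lit 1442500, nat_lit 1271250], [nat_lit 128, nat_lit 40, nat_lit 20, nat_lit 40]⟩,
 ⟨nat_lit 6224, nat_lit 6325, ⟨.ofNat (nat_lit 164319), .ofNat (nat_lit 295942), .ofNat (nat_lit 167524), .ofNat (nat_lit 299147), .ofNat (nat_lit 168651), .ofNat (nat_lit 298759), .ofNat (nat_lit 171854), .ofNat (nat_lit 301962)⟩, ⟨.ofNat (nat_lit 0), .ofNat (nat_lit 0), .ofNat (nat_lit 0), .ofNat (nat_lit 0), .ofNat (nat_lit 0), .ofNat (nat_lit 0), .ofNat (nat_lit 0), .ofNat (nat_lit 0)⟩⟩, [⟨nat_lit 0, nat_lit 100, nat_lit 100, nat_lit 42, nat_lit 111233447⟩]⟩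
noncomputable def p011_l207 : Lf2 := ⟨nat_lit 0, nat_lit 5, [nat_lit 4, nat_lit 5, nat_lit 5, nat_lit 20], true, nat_lit 0, nat_lit 0, nat_lit 0, nat_lit 0, ⟨nat_lit 0, nat_lit 0, nat_lit 1000, nat_lit 6, nat_lit 95, nat_lit 0, nat_lit 0, nat_lit 0, nat_lit 0, nat_lit 215, nat_lit 84017, nat_lit 286, nat_lit 63434596, nat_lit 0, nat_lit 0, nat_lit 1039366, false, false⟩,
 nat_lit 0, nat_lit 5583, nat_lit 0, nat_lit 0, nat_lit 3028, nat_lit 0, nat_lit 453, nat_lit 0, nat_lit 0, nat_lit 0, nat_lit 0, nat_lit 0, nat_lit 0, nat_lit 0, nat_lit 64, nat_lit 400000, nat_lit 0, nat_lit 0, [(nat_lit 6, [(nat_lit 5, nat_lit 1000)])],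
 ⟨p011_k66, nat_lit 0, nat_lit 0, nat_lit 0, nat_lit 0, nat_lit 225152, [nat_lit 1368933334, nat_lit 1810266667, nat_lit 1479400001, nat_lit 99700000], [], [nat_lit 13869691191, nat_lit 14157403317, nat_lit 13645385682, nat_lit 13905422174], nat_lit 1271250, nat_lit 1271250, nat_lit 88400, nat_lit 490000, nat_lit 0, nat_lit 0, [nat_lit 490000, nat_lit 1100000, nat_lit 1442500, nat_lit 1271250], [nat_lit 128, nat_lit 40, nat_lit 20, nat_lit 40]⟩, C1.Rw.none,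
 ⟨nat_lit 6123, nat_lit 6225, ⟨.ofNat (nat_lit 168651), .ofNat (nat_lit 298759), .ofNat (nat_lit 171854), .ofNat (nat_lit 301962), .ofNat (nat_lit 172944), .ofNat (nat_lit 301553), .ofNat (nat_lit 176146), .ofNat (nat_lit 304755)⟩, ⟨.ofNat (nat_lit 0), .ofNat (nat_lit 0), .ofNat (nat_lit 0), .ofNat (nat_lit 0), .ofNat (nat_lit 0), .ofNat (nat_lit 0), .ofNat (nat_lit 0), .ofNat (nat_lit 0)⟩⟩, [⟨nat_lit 0, nat_lit 100, nat_lit 99, nat_lit 44, nat_lit 134752312⟩]⟩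
noncomputable def p011_l208 : Lf2 := ⟨nat_lit 0, nat_lit 5, [nat_lit 4, nat_lit 5, nat_lit 5, nat_lit 20], false, nat_lit 0, nat_lit 0, nat_lit 0, nat_lit 0, ⟨nat_lit 49, nat_lit 0, nat_lit 951, nat_lit 6, nat_lit 95, nat_lit 0, nat_lit 0, nat_lit 0, nat_lit 0, nat_lit 215, nat_lit 86400, nat_lit 287, nat_lit 63393992, nat_lit 0, nat_lit 0, nat_lit 1048071, false, false⟩,
 nat_lit 5485, nat_lit 0, nat_lit 0, nat_lit 0, nat_lit 2946, nat_lit 468, nat_lit 473, nat_lit 0, nat_lit 0, nat_lit 148, nat_lit 0, nat_lit 0, nat_lit 0, nat_lit 3882761406302, nat_lit 45, nat_lit 380400, nat_lit 0, nat_lit 0, [(nat_lit 6, [(nat_lit 5, nat_lit 951)])],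
 ⟨p011_k84, nat_lit 0, nat_lit 0, nat_lit 0, nat_lit 0, nat_lit 231950, [nat_lit 1274511600, nat_lit 1697451600, nat_lit 1395879401, nat_lit 114873700], [], [nat_lit 14639876274, nat_lit 14995261006, nat_lit 14452871440, nat_lit 14796385018], nat_lit 1271250, nat_lit 1271250, nat_lit 88400, nat_lit 490000, nat_lit 0, nat_lit 0, [nat_lit 490000, nat_lit 1100000, nat_lit 1442500, nat_lit 1271250], [nat_lit 128, nat_lit 40, nat_lit 20, nat_lit 40]⟩, ⟨p011_k84, nat_lit 0, nat_lit 0, nat_lit 0, nat_lit 0, nat_lit 231950, [nat_lit 99568000, nat_lit 229712000, nat_lit 306250000, nat_lit 435389500], [], [nat_lit 993446306, nat_lit 997846185, nat_lit 791621630, nat_lit 796167453], nat_lit 1271250, nat_lit 1271250, nat_lit 88400, nat_lit 490000, nat_lit 0, nat_lit 0, [nat_lit 490000, nat_lit 1100000, nat_lit 1442500, nat_lit 1271250], [nat_lit 128, nat_lit 40, nat_lit 20, nat_lit 40]⟩,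
 ⟨nat_lit 6123, nat_lit 6265, ⟨.ofNat (nat_lit 170127), .ofNat (nat_lit 300839), .ofNat (nat_lit 171195), .ofNat (nat_lit 301907), .ofNat (nat_lit 176146), .ofNat (nat_lit 304755), .ofNat (nat_lit 177213), .ofNat (nat_lit 305822)⟩, ⟨.ofNat (nat_lit 0), .ofNat (nat_lit 0), .ofNat (nat_lit 0), .ofNat (nat_lit 0), .ofNat (nat_lit 0), .ofNat (nat_lit 0), .ofNat (nat_lit 0), .ofNat (nat_lit 0)⟩⟩, [⟨nat_lit 0, nat_lit 100, nat_lit 100, nat_lit 45, nat_lit 175476843⟩]⟩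
noncomputable def p011_l209 : Lf2 := ⟨nat_lit 0, nat_lit 5, [nat_lit 4, nat_lit 5, nat_lit 5, nat_lit 20], false, nat_lit 0, nat_lit 0, nat_lit 0, nat_lit 0, ⟨nat_lit 62, nat_lit 0, nat_lit 938, nat_lit 6, nat_lit 96, nat_lit 0, nat_lit 0, nat_lit 0, nat_lit 0, nat_lit 215, nat_lit 86400, nat_lit 287, nat_lit 63353147, nat_lit 0, nat_lit 0, nat_lit 1056791, false, false⟩,
 nat_lit 5490, nat_lit 0, nat_lit 0, nat_lit 0, nat_lit 2963, nat_lit 581, nat_lit 446, nat_lit 0, nat_lit 0, nat_lit 186, nat_lit 0, nat_lit 0, nat_lit 0, nat_lit 4371462398137, nat_lit 39, nat_lit 375200, nat_lit 0, nat_lit 0, [(nat_lit 6, [(nat_lit 5, nat_lit 938)])],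
 ⟨p011_k85, nat_lit 0, nat_lit 0, nat_lit 0, nat_lit 0, nat_lit 235041, [nat_lit 1241787467, nat_lit 1652174134, nat_lit 1354537201, nat_lit 93960600], [], [nat_lit 14928549597, nat_lit 15229679199, nat_lit 14618521098, nat_lit 14896696217], nat_lit 1271250, nat_lit 1271250, nat_lit 88400, nat_lit 490000, nat_lit 0, nat_lit 0, [nat_lit 490000, nat_lit 1100000, nat_lit 1442500, nat_lit 1271250], [nat_lit 128, nat_lit 40, nat_lit 20, nat_lit 40]⟩, ⟨p011_k85, nat_lit 0, nat_lit 0, nat_lit 0, nat_lit 0, nat_lit 235041, [nat_lit 125984000, nat_lit 290656000, nat_lit 387500000, nat_lit 550901000], [], [nat_lit 1255822893, nat_lit 1261323097, nat_lit 1006306387, nat_lit 1011519197], nat_lit 1271250, nat_lit 1271250, nat_lit 88400, nat_lit 490000, nat_lit 0, nat_lit 0, [nat_lit 490000, nat_lit 1100000, nat_lit 1442500, nat_lit 1271250], [nat_lit 128, nat_lit 40, nat_lit 20, nat_lit 40]⟩,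
 ⟨nat_lit 6123, nat_lit 6245, ⟨.ofNat (nat_lit 172059), .ofNat (nat_lit 302469), .ofNat (nat_lit 173127), .ofNat (nat_lit 303537), .ofNat (nat_lit 177213), .ofNat (nat_lit 305822), .ofNat (nat_lit 178281), .ofNat (nat_lit 306890)⟩, ⟨.ofNat (nat_lit 0), .ofNat (nat_lit 0), .ofNat (nat_lit 0), .ofNat (nat_lit 0), .ofNat (nat_lit 0), .ofNat (nat_lit 0), .ofNat (nat_lit 0), .ofNat (nat_lit 0)⟩⟩, [⟨nat_lit 0, nat_lit 100, nat_lit 100, nat_lit 46, nat_lit 198427893⟩]⟩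
noncomputable def p011_l210 : Lf2 := ⟨nat_lit 0, nat_lit 5, [nat_lit 4, nat_lit 5, nat_lit 5, nat_lit 20], true, nat_lit 0, nat_lit 0, nat_lit 0, nat_lit 0, ⟨nat_lit 0, nat_lit 0, nat_lit 1000, nat_lit 6, nat_lit 95, nat_lit 0, nat_lit 0, nat_lit 0, nat_lit 0, nat_lit 215, nat_lit 84017, nat_lit 286, nat_lit 63455040, nat_lit 0, nat_lit 0, nat_lit 1034969, false, false⟩,
 nat_lit 0, nat_lit 100000, nat_lit 0, nat_lit 0, nat_lit 52941, nat_lit 0, nat_lit 9541, nat_lit 3341, nat_lit 0, nat_lit 0, nat_lit 0, nat_lit 0, nat_lit 0, nat_lit 0, nat_lit 0, nat_lit 1000000, nat_lit 0, nat_lit 0, [(nat_lit 6, [(nat_lit 6, nat_lit 1000)])],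
 ⟨p011_k26, nat_lit 0, nat_lit 0, nat_lit 362, nat_lit 0, nat_lit 240194, [nat_lit 54433066667, nat_lit 66922400001, nat_lit 89609599999], [], [nat_lit 135357315205, nat_lit 137131703012, nat_lit 127420069393, nat_lit 114230189830], nat_lit 1271250, nat_lit 1271250, nat_lit 88400, nat_lit 490000, nat_lit 0, nat_lit 0, [nat_lit 1100000, nat_lit 1442500, nat_lit 1271250], [nat_lit 11, nat_lit 40, nat_lit 20, nat_lit 80, nat_lit 1, nat_lit 317, nat_lit 100, nat_lit 10]⟩, C1.Rw.none,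
 ⟨nat_lit 6123, nat_lit 6325, ⟨.ofNat (nat_lit 164319), .ofNat (nat_lit 295942), .ofNat (nat_lit 169661), .ofNat (nat_lit 301284), .ofNat (nat_lit 172944), .ofNat (nat_lit 301553), .ofNat (nat_lit 178281), .ofNat (nat_lit 306890)⟩, ⟨.ofNat (nat_lit 0), .ofNat (nat_lit 0), .ofNat (nat_lit 0), .ofNat (nat_lit 0), .ofNat (nat_lit 0), .ofNat (nat_lit 0), .ofNat (nat_lit 0), .ofNat (nat_lit 0)⟩⟩, []⟩
noncomputable def p011_l211 : Lf2 := ⟨nat_lit 0, nat_lit 5, [nat_lit 4, nat_lit 5, nat_lit 5, nat_lit 20], false, nat_lit 0, nat_lit 0, nat_lit 0, nat_lit 0, ⟨nat_lit 128, nat_lit 0, nat_lit 872, nat_lit 6, nat_lit 98, nat_lit 0, nat_lit 0, nat_lit 0, nat_lit 0, nat_lit 215, nat_lit 91267, nat_lit 289, nat_lit 63183788, nat_lit 0, nat_lit 0, nat_lit 1092568, false, false⟩,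
 nat_lit 6896, nat_lit 0, nat_lit 0, nat_lit 0, nat_lit 3740, nat_lit 1205, nat_lit 722, nat_lit 0, nat_lit 0, nat_lit 351, nat_lit 0, nat_lit 0, nat_lit 0, nat_lit 9466035962866, nat_lit 0, nat_lit 218000, nat_lit 0, nat_lit 0, [(nat_lit 6, [(nat_lit 4, nat_lit 872)])],
 ⟨p011_k66, nat_lit 0, nat_lit 0, nat_lit 0, nat_lit 0, nat_lit 238115, [nat_lit 1504614400, nat_lit 1194768000, nat_lit 984515201, nat_lit 68108800], [], [nat_lit 15013292960, nat_lit 15166067282, nat_lit 14465417381, nat_lit 14614484273], nat_lit 1271250, nat_lit 1271250, nat_lit 111251, nat_lit 490000, nat_lit 0, nat_lit 0, [nat_lit 490000, nat_lit 1100000, nat_lit 1442500, nat_lit 1271250], [nat_lit 128, nat_lit 40, nat_lit 20, nat_lit 40]⟩, ⟨p011_k66, nat_lit 0, nat_lit 0, nat_lit 0, nat_lit 0, nat_lit 238115, [nat_lit 260096000, nat_lit 600064000, nat_lit 800000000, nat_lit 1137344000], [], [nat_lit 2597124143, nat_lit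 2632670234, nat_lit 2142521819, nat_lit 2174900531], nat_lit 1271250, nat_lit 1271250, nat_lit 111251, nat_lit 490000, nat_lit 0, nat_lit 0, [nat_lit 490000, nat_lit 1100000, nat_lit 1442500, nat_lit 1271250], [nat_lit 128, nat_lit 40, nat_lit 20, nat_lit 40]⟩,
 ⟨nat_lit 6164, nat_lit 6225, ⟨.ofNat (nat_lit 182121), .ofNat (nat_lit 304098), .ofNat (nat_lit 185325), .ofNat (nat_lit 307301), .ofNat (nat_lit 184644), .ofNat (nat_lit 305776), .ofNat (nat_lit 187847), .ofNat (nat_lit 308978)⟩, ⟨.ofNat (nat_lit 0), .ofNat (nat_lit 0), .ofNat (nat_lit 0), .ofNat (nat_lit 0), .ofNat (nat_lit 0), .ofNat (nat_lit 0), .ofNat (nat_lit 0), .ofNat (nat_lit 0)⟩⟩, [⟨nat_lit 0, nat_lit 100, nat_lit 100, nat_lit 48, nat_lit 278962887⟩]⟩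
noncomputable def p011_l212 : Lf2 := ⟨nat_lit 0, nat_lit 5, [nat_lit 4, nat_lit 5, nat_lit 5, nat_lit 20], false, nat_lit 0, nat_lit 0, nat_lit 0, nat_lit 0, ⟨nat_lit 143, nat_lit 0, nat_lit 857, nat_lit 6, nat_lit 99, nat_lit 0, nat_lit 0, nat_lit 0, nat_lit 0, nat_lit 215, nat_lit 93750, nat_lit 290, nat_lit 63100992, nat_lit 0, nat_lit 0, nat_lit 1109840, false, false⟩,
 nat_lit 2464, nat_lit 4865, nat_lit 0, nat_lit 0, nat_lit 4033, nat_lit 1336, nat_lit 773, nat_lit 0, nat_lit 0, nat_lit 388, nat_lit 0, nat_lit 0, nat_lit 0, nat_lit 16204684544383, nat_lit 0, nat_lit 214250, nat_lit 0, nat_lit 0, [(nat_lit 6, [(nat_lit 4, nat_lit 857)])],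
 ⟨p011_k86, nat_lit 0, nat_lit 0, nat_lit 0, nat_lit 0, nat_lit 251913, [nat_lit 1513686400, nat_lit 1254858001, nat_lit 1075091201, nat_lit 218777800], [], [nat_lit 14922839898, nat_lit 15031248682, nat_lit 14024815214, nat_lit 14127233661], nat_lit 1271250, nat_lit 1271250, nat_lit 111251, nat_lit 490000, nat_lit 0, nat_lit 0, [nat_lit 490000, nat_lit 1100000, nat_lit 1442500, nat_lit 1271250], [nat_lit 128, nat_lit 40, nat_lit 20, nat_lit 40]⟩, ⟨p011_k66, nat_lit 0, nat_lit 0, nat_lit 0, nat_lit 0, nat_lit 255973, [nat_lit 290576000, nat_lit 670384000, nat_lit 893750000, nat_lit 1270626500], [], [nat_lit 2926296892, nat_lit 2979379944, nat_lit 2415862230, nat_lit 2475864044], nat_lit 1271250, nat_lit 1271250, nat_lit 111251, nat_lit 490000, nat_lit 0, nat_lit 0, [nat_lit 490000, nat_lit 1100000, nat_lit 1442500, nat_lit 1271250], [nat_lit 128, nat_lit 40, nat_lit 20, nat_lit 40]⟩,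
 ⟨nat_lit 6123, nat_lit 6165, ⟨.ofNat (nat_lit 184644), .ofNat (nat_lit 305776), .ofNat (nat_lit 189982), .ofNat (nat_lit 311113), .ofNat (nat_lit 186319), .ofNat (nat_lit 306890), .ofNat (nat_lit 191656), .ofNat (nat_lit 312227)⟩, ⟨.ofNat (nat_lit 0), .ofNat (nat_lit 0), .ofNat (nat_lit 0), .ofNat (nat_lit 0), .ofNat (nat_lit 0), .ofNat (nat_lit 0), .ofNat (nat_lit 0), .ofNat (nat_lit 0)⟩⟩, [⟨nat_lit 0, nat_lit 100, nat_lit 100, nat_lit 50, nat_lit 320469121⟩]⟩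
noncomputable def p011_l213 : Lf2 := ⟨nat_lit 0, nat_lit 5, [nat_lit 4, nat_lit 5, nat_lit 5, nat_lit 20], true, nat_lit 0, nat_lit 0, nat_lit 0, nat_lit 0, ⟨nat_lit 0, nat_lit 0, nat_lit 1000, nat_lit 6, nat_lit 99, nat_lit 0, nat_lit 0, nat_lit 0, nat_lit 0, nat_lit 215, nat_lit 91267, nat_lit 289, nat_lit 63131957, nat_lit 0, nat_lit 0, nat_lit 1103397, false, false⟩,
 nat_lit 0, nat_lit 100000, nat_lit 0, nat_lit 0, nat_lit 54243, nat_lit 0, nat_lit 20257, nat_lit 6548, nat_lit 0, nat_lit 0, nat_lit 0, nat_lit 0, nat_lit 0, nat_lit 0, nat_lit 0, nat_lit 400000, nat_lit 0, nat_lit 0, [(nat_lit 6, [(nat_lit 5, nat_lit 1000)])],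
 ⟨p011_k30, nat_lit 0, nat_lit 0, nat_lit 363, nat_lit 0, nat_lit 255973, [nat_lit 106185600000, nat_lit 131040000001, nat_lit 181419200000], [], [nat_lit 290830667726, nat_lit 292115474721, nat_lit 290406502930, nat_lit 283649371055], nat_lit 1271250, nat_lit 1271250, nat_lit 111251, nat_lit 490000, nat_lit 0, nat_lit 0, [nat_lit 1100000, nat_lit 1442500, nat_lit 1271250], [nat_lit 11, nat_lit 40, nat_lit 20, nat_lit 80, nat_lit 1, nat_lit 317, nat_lit 100, nat_lit 10]⟩, C1.Rw.none,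
 ⟨nat_lit 6123, nat_lit 6225, ⟨.ofNat (nat_lit 182121), .ofNat (nat_lit 304098), .ofNat (nat_lit 187461), .ofNat (nat_lit 309437), .ofNat (nat_lit 186319), .ofNat (nat_lit 306890), .ofNat (nat_lit 191656), .ofNat (nat_lit 312227)⟩, ⟨.ofNat (nat_lit 0), .ofNat (nat_lit 0), .ofNat (nat_lit 0), .ofNat (nat_lit 0), .ofNat (nat_lit 0), .ofNat (nat_lit 0), .ofNat (nat_lit 0), .ofNat (nat_lit 0)⟩⟩, [⟨nat_lit 13, nat_lit 99, nat_lit 3, nat_lit 100, nat_lit 163817763⟩]⟩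
noncomputable def b_NL_600_600_0_6 : St := ⟨false, nat_lit 1, nat_lit 1, nat_lit 1, nat_lit 20, nat_lit 240, nat_lit 250, nat_lit 240, nat_lit 250, nat_lit 16, nat_lit 80, nat_lit 0, nat_lit 0, nat_lit 0, nat_lit 0, nat_lit 0, nat_lit 0, nat_lit 20, nat_lit 40, nat_lit 0, nat_lit 0, nat_lit 0, nat_lit 800⟩
theorem d_NL_600_600_0_6 (h : EB TB.env) : Dead b_NL_600_600_0_6 := chkB_sound0 h (T :=
(.spl (nat_lit 1) (nat_lit 245)
(.spl (nat_lit 7) (nat_lit 600)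
(.spl (nat_lit 1) (nat_lit 243)
(.spl (nat_lit 0) (nat_lit 245)
(.leaf p011_l206)
(.leaf p011_l207))
(.ord (.spl (nat_lit 1) (nat_lit 244)
(.leaf p011_l208)
(.ord (.leaf p011_l209)))))
(.leaf p011_l210))
(.ord (.trZ (nat_lit 0) (nat_lit 100) (nat_lit 100) (nat_lit 45) (nat_lit 20) (.spl (nat_lit 7) (nat_lit 600)
(.spl (nat_lit 0) (nat_lit 248)
(.ord (.leaf p011_l211))
(.leaf p011_l212))
(.leaf p011_l213)))))) (by decide +kernel)
noncomputable def p011_l214 : Lf2 := ⟨nat_lit 0, nat_lit 5, [nat_lit 4, nat_lit 5, nat_lit 5, nat_lit 20], false, nat_lit 0, nat_lit 0, nat_lit 0, nat_lit 0, ⟨nat_lit 1000, nat_lit 0, nat_lit 0, nat_lit 0, nat_lit 0, nat_lit 0, nat_lit 0, nat_lit 0, nat_lit 0, nat_lit 0, nat_lit 0, nat_lit 0, nat_lit 0, nat_lit 0, nat_lit 0, nat_lit 0, false, false⟩,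
 nat_lit 31473, nat_lit 0, nat_lit 0, nat_lit 0, nat_lit 16662, nat_lit 16662, nat_lit 3062, nat_lit 0, nat_lit 0, nat_lit 1286, nat_lit 0, nat_lit 0, nat_lit 0, nat_lit 0, nat_lit 0, nat_lit 0, nat_lit 0, nat_lit 0, [],
 ⟨p011_k26, nat_lit 0, nat_lit 0, nat_lit 422, nat_lit 0, nat_lit 450052, [nat_lit 4688000000, nat_lit 6250000000, nat_lit 9842000000], [], [nat_lit 16352670704, nat_lit 15674281498, nat_lit 22590619424, nat_lit 18555432926], nat_lit 1271250, nat_lit 1271250, nat_lit 780000, nat_lit 1100001, nat_lit 0, nat_lit 0, [nat_lit 1100000, nat_lit 1442500, nat_lit 1271250], [nat_lit 11, nat_lit 40, nat_lit 20, nat_lit 80, nat_lit 1, nat_lit 345, nat_lit 125, nat_lit 10]⟩, ⟨p011_k26, nat_lit 0, nat_lit 0, nat_lit 422, nat_lit 0, nat_lit 450052, [nat_lit 4688000000, nat_lit 6250000000, nat_lit 9842000000], [], [nat_lit 20114035640, nat_lit 20610788331, nat_lit 22590619424, nat_lit 20574053853],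 nat_lit 1271250, nat_lit 1271250, nat_lit 780000, nat_lit 1100001, nat_lit 0, nat_lit 0, [nat_lit 1100000, nat_lit 1442500, nat_lit 1271250], [nat_lit 11, nat_lit 40, nat_lit 20, nat_lit 80, nat_lit 1, nat_lit 345, nat_lit 125, nat_lit 10]⟩,
 zbF0, []⟩
noncomputable def p011_l215 : Lf2 := ⟨nat_lit 0, nat_lit 5, [nat_lit 4, nat_lit 5, nat_lit 5, nat_lit 20], false, nat_lit 0, nat_lit 0, nat_lit 0, nat_lit 0, ⟨nat_lit 1000, nat_lit 0, nat_lit 0, nat_lit 0, nat_lit 0, nat_lit 0, nat_lit 0, nat_lit 0, nat_lit 0, nat_lit 0, nat_lit 0, nat_lit 0, nat_lit 0, nat_lit 0, nat_lit 0, nat_lit 0, false, false⟩,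
 nat_lit 10969, nat_lit 0, nat_lit 0, nat_lit 0, nat_lit 5807, nat_lit 5807, nat_lit 1018, nat_lit 0, nat_lit 0, nat_lit 971, nat_lit 0, nat_lit 0, nat_lit 0, nat_lit 0, nat_lit 0, nat_lit 0, nat_lit 0, nat_lit 0, [],
 ⟨p011_k26, nat_lit 0, nat_lit 0, nat_lit 365, nat_lit 0, nat_lit 450052, [nat_lit 4688000000, nat_lit 6250000000, nat_lit 9842000000], [], [nat_lit 33646187748, nat_lit 33448371411, nat_lit 36522241424, nat_lit 35135274316], nat_lit 1271250, nat_lit 1271250, nat_lit 1100001, nat_lit 1785000, nat_lit 0, nat_lit 0, [nat_lit 1100000, nat_lit 1442500, nat_lit 1271250], [nat_lit 11, nat_lit 40, nat_lit 20, nat_lit 80, nat_lit 1, nat_lit 345, nat_lit 125, nat_lit 10]⟩, ⟨p011_k26, nat_lit 0, nat_lit 0, nat_lit 364, nat_lit 0, nat_lit 450052, [nat_lit 4688000000, nat_lit 6250000000, nat_lit 9842000000], [], [nat_lit 33646187748, nat_lit 33565626912, nat_lit 36522241424, nat_lit 35828757870],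 nat_lit 1271250, nat_lit 1271250, nat_lit 1100001, nat_lit 1785000, nat_lit 0, nat_lit 0, [nat_lit 1100000, nat_lit 1442500, nat_lit 1271250], [nat_lit 11, nat_lit 40, nat_lit 20, nat_lit 80, nat_lit 1, nat_lit 345, nat_lit 125, nat_lit 10]⟩,
 zbF0, []⟩
noncomputable def p011_l216 : Lf2 := ⟨nat_lit 0, nat_lit 5, [nat_lit 4, nat_lit 5, nat_lit 5, nat_lit 20], false, nat_lit 0, nat_lit 0, nat_lit 0, nat_lit 0, ⟨nat_lit 1000, nat_lit 0, nat_lit 0, nat_lit 0, nat_lit 0, nat_lit 0, nat_lit 0, nat_lit 0, nat_lit 0, nat_lit 0, nat_lit 0, nat_lit 0, nat_lit 0, nat_lit 0, nat_lit 0, nat_lit 0, false, false⟩,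
 nat_lit 7737, nat_lit 0, nat_lit 0, nat_lit 0, nat_lit 4196, nat_lit 4196, nat_lit 549, nat_lit 0, nat_lit 0, nat_lit 699, nat_lit 0, nat_lit 0, nat_lit 0, nat_lit 0, nat_lit 0, nat_lit 0, nat_lit 0, nat_lit 0, [],
 ⟨p011_k30, nat_lit 0, nat_lit 0, nat_lit 365, nat_lit 0, nat_lit 422982, [nat_lit 4688000000, nat_lit 6250000000, nat_lit 9842000000], [], [nat_lit 34075666905, nat_lit 34286954185, nat_lit 41112843032, nat_lit 40618547938], nat_lit 1271250, nat_lit 1271250, nat_lit 780000, nat_lit 1762500, nat_lit 0, nat_lit 0, [nat_lit 1100000, nat_lit 1442500, nat_lit 1271250], [nat_lit 11, nat_lit 40, nat_lit 20, nat_lit 80, nat_lit 1, nat_lit 345, nat_lit 125, nat_lit 10]⟩, ⟨p011_k30, nat_lit 0, nat_lit 0, nat_lit 365, nat_lit 0, nat_lit 422982, [nat_lit 4688000000, nat_lit 6250000000, nat_lit 9842000000], [], [nat_lit 33626610472, nat_lit 33747422935, nat_lit 41051905532, nat_lit 40557610438],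 nat_lit 1271250, nat_lit 1271250, nat_lit 780000, nat_lit 1762500, nat_lit 0, nat_lit 0, [nat_lit 1100000, nat_lit 1442500, nat_lit 1271250], [nat_lit 11, nat_lit 40, nat_lit 20, nat_lit 80, nat_lit 1, nat_lit 345, nat_lit 125, nat_lit 10]⟩,
 zbF0, []⟩
noncomputable def p011_l217 : Lf2 := ⟨nat_lit 0, nat_lit 5, [nat_lit 4, nat_lit 5, nat_lit 5, nat_lit 20], false, nat_lit 0, nat_lit 0, nat_lit 0, nat_lit 0, ⟨nat_lit 1000, nat_lit 0, nat_lit 0, nat_lit 0, nat_lit 0, nat_lit 0, nat_lit 0, nat_lit 0, nat_lit 0, nat_lit 0, nat_lit 0, nat_lit 0, nat_lit 0, nat_lit 0, nat_lit 0, nat_lit 0, false, false⟩,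
 nat_lit 12082, nat_lit 0, nat_lit 0, nat_lit 0, nat_lit 6553, nat_lit 6553, nat_lit 0, nat_lit 0, nat_lit 0, nat_lit 0, nat_lit 0, nat_lit 0, nat_lit 0, nat_lit 0, nat_lit 0, nat_lit 0, nat_lit 0, nat_lit 0, [],
 ⟨p011_k87, nat_lit 0, nat_lit 0, nat_lit 305, nat_lit 0, nat_lit 255973, [nat_lit 4688000000, nat_lit 7968000001, nat_lit 9842000000], [], [nat_lit 34858930735, nat_lit 34731635890, nat_lit 40364413940, nat_lit 39592460710], nat_lit 1271250, nat_lit 1271250, nat_lit 780000, nat_lit 1762500, nat_lit 0, nat_lit 0, [nat_lit 1100000, nat_lit 1785000, nat_lit 1271250], [nat_lit 29, nat_lit 40, nat_lit 20, nat_lit 80, nat_lit 17, nat_lit 345, nat_lit 125, nat_lit 10]⟩, ⟨p011_k87, nat_lit 0, nat_lit 0, nat_lit 305, nat_lit 0, nat_lit 255973, [nat_lit 4688000000, nat_lit 7968000000, nat_lit 9842000000], [], [nat_lit 34858930734, nat_lit 34731635889, nat_lit 40364413939, nat_lit 39592460709],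 nat_lit 1271250, nat_lit 1271250, nat_lit 780000, nat_lit 1762500, nat_lit 0, nat_lit 0, [nat_lit 1100000, nat_lit 1785000, nat_lit 1271250], [nat_lit 29, nat_lit 40, nat_lit 20, nat_lit 80, nat_lit 17, nat_lit 345, nat_lit 125, nat_lit 10]⟩,
 zbF0, []⟩
noncomputable def b_NL_600_600_0_7 : St := ⟨false, nat_lit 1, nat_lit 1, nat_lit 1, nat_lit 20, nat_lit 240, nat_lit 250, nat_lit 240, nat_lit 250, nat_lit 120, nat_lit 240, nat_lit 0, nat_lit 0, nat_lit 0, nat_lit 0, nat_lit 0, nat_lit 0, nat_lit 0, nat_lit 40, nat_lit 0, nat_lit 0, nat_lit 0, nat_lit 0⟩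
theorem d_NL_600_600_0_7 (h : EB TB.env) : Dead b_NL_600_600_0_7 := chkB_sound0 h (T :=
(.spl (nat_lit 1) (nat_lit 245)
(.spl (nat_lit 2) (nat_lit 160)
(.leaf p011_l214)
(.leaf p011_l215))
(.ord (.spl (nat_lit 6) (nat_lit 20)
(.leaf p011_l216)
(.leaf p011_l217))))) (by decide +kernel)
noncomputable def p011_l218 : Lf2 := ⟨nat_lit 0, nat_lit 5, [nat_lit 4, nat_lit 5, nat_lit 5, nat_lit 20], false, nat_lit 0, nat_lit 0, nat_lit 0, nat_lit 0, ⟨nat_lit 1000, nat_lit 0, nat_lit 0, nat_lit 0, nat_lit 0, nat_lit 0, nat_lit 0, nat_lit 0, nat_lit 0, nat_lit 0, nat_lit 0, nat_lit 0, nat_lit 0, nat_lit 0, nat_lit 0, nat_lit 0, false, false⟩,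
 nat_lit 18175, nat_lit 0, nat_lit 0, nat_lit 0, nat_lit 10097, nat_lit 9622, nat_lit 1407, nat_lit 0, nat_lit 0, nat_lit 2896, nat_lit 0, nat_lit 21, nat_lit 0, nat_lit 0, nat_lit 0, nat_lit 0, nat_lit 0, nat_lit 0, [],
 ⟨p011_k88, nat_lit 0, nat_lit 0, nat_lit 0, nat_lit 0, nat_lit 454057, [nat_lit 2032000001, nat_lit 4688000000, nat_lit 6250000000, nat_lit 7968000000], [], [nat_lit 22518665434, nat_lit 23470227472, nat_lit 21166738346, nat_lit 21762967700], nat_lit 1271250, nat_lit 1271250, nat_lit 111251, nat_lit 230001, nat_lit 0, nat_lit 0, [nat_lit 490000, nat_lit 1100000, nat_lit 1442500, nat_lit 1271250], [nat_lit 98, nat_lit 40, nat_lit 20, nat_lit 40]⟩, ⟨p011_k65, nat_lit 0, nat_lit 0, nat_lit 0, nat_lit 0, nat_lit 477883, [nat_lit 2032000000, nat_lit 4688000000, nat_lit 6250000000, nat_lit 8885500000], [], [nat_lit 19473456800, nat_lit 20589412076, nat_lit 17793725296, nat_lit 18679665598],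 nat_lit 1271250, nat_lit 1271250, nat_lit 111251, nat_lit 230001, nat_lit 0, nat_lit 0, [nat_lit 490000, nat_lit 1100000, nat_lit 1442500, nat_lit 1271250], [nat_lit 128, nat_lit 40, nat_lit 20, nat_lit 40]⟩,
 zbF0, [⟨nat_lit 0, nat_lit 100, nat_lit 99, nat_lit 50, nat_lit 1543849054⟩]⟩
noncomputable def p011_l219 : Lf2 := ⟨nat_lit 0, nat_lit 5, [nat_lit 4, nat_lit 5, nat_lit 5, nat_lit 20], false, nat_lit 0, nat_lit 0, nat_lit 0, nat_lit 0, ⟨nat_lit 1000, nat_lit 0, nat_lit 0, nat_lit 0, nat_lit 0, nat_lit 0, nat_lit 0, nat_lit 0, nat_lit 0, nat_lit 0, nat_lit 0, nat_lit 0, nat_lit 0, nat_lit 0, nat_lit 0, nat_lit 0, false, false⟩,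
 nat_lit 16366, nat_lit 0, nat_lit 0, nat_lit 0, nat_lit 9092, nat_lit 9092, nat_lit 360, nat_lit 0, nat_lit 125, nat_lit 2635, nat_lit 0, nat_lit 0, nat_lit 0, nat_lit 4028143047698, nat_lit 0, nat_lit 0, nat_lit 0, nat_lit 0, [],
 ⟨p011_k89, nat_lit 0, nat_lit 0, nat_lit 0, nat_lit 0, nat_lit 493855, [nat_lit 4688000000, nat_lit 5449500000, nat_lit 7089500001, nat_lit 7968000000], [], [nat_lit 21120635210, nat_lit 21670236533, nat_lit 21457244624, nat_lit 20403201953], nat_lit 1271250, nat_lit 1271250, nat_lit 134400, nat_lit 230001, nat_lit 0, nat_lit 0, [nat_lit 1100000, nat_lit 1271250, nat_lit 1271250, nat_lit 1271250], [nat_lit 129, nat_lit 40, nat_lit 20, nat_lit 40]⟩, ⟨p011_k89, nat_lit 0, nat_lit 0, nat_lit 0, nat_lit 0, nat_lit 493855, [nat_lit 4688000000, nat_lit 5449500000, nat_lit 7089500000, nat_lit 7968000000], [], [nat_lit 19966149768, nat_lit 20929004154, nat_lit 18718439428,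 nat_lit 19638092080], nat_lit 1271250, nat_lit 1271250, nat_lit 134400, nat_lit 230001, nat_lit 0, nat_lit 0, [nat_lit 1100000, nat_lit 1271250, nat_lit 1271250, nat_lit 1271250], [nat_lit 129, nat_lit 40, nat_lit 20, nat_lit 40]⟩,
 zbF0, [⟨nat_lit 0, nat_lit 100, nat_lit 100, nat_lit 55, nat_lit 1036667001⟩]⟩
noncomputable def p011_l220 : Lf2 := ⟨nat_lit 0, nat_lit 2, [nat_lit 10, nat_lit 5, nat_lit 5, nat_lit 20], false, nat_lit 0, nat_lit 0, nat_lit 0, nat_lit 0, ⟨nat_lit 1000, nat_lit 0, nat_lit 0, nat_lit 0, nat_lit 0, nat_lit 0, nat_lit 0, nat_lit 0, nat_lit 0, nat_lit 0, nat_lit 0, nat_lit 0, nat_lit 0, nat_lit 0, nat_lit 0, nat_lit 0, false, false⟩,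
 nat_lit 17244, nat_lit 2182, nat_lit 0, nat_lit 0, nat_lit 10792, nat_lit 9129, nat_lit 1736, nat_lit 0, nat_lit 0, nat_lit 2284, nat_lit 0, nat_lit 0, nat_lit 0, nat_lit 0, nat_lit 0, nat_lit 0, nat_lit 0, nat_lit 0, [],
 ⟨p011_k90, nat_lit 0, nat_lit 0, nat_lit 0, nat_lit 0, nat_lit 430464, [nat_lit 4688000000, nat_lit 5449500000, nat_lit 7089500000], [], [nat_lit 26298743416, nat_lit 23685147648, nat_lit 26673367024, nat_lit 24077891024], nat_lit 1271250, nat_lit 1271250, nat_lit 111251, nat_lit 230001, nat_lit 0, nat_lit 0, [nat_lit 1100000, nat_lit 1271250, nat_lit 1271250], [nat_lit 105, nat_lit 40, nat_lit 20, nat_lit 40]⟩, ⟨p011_k37, nat_lit 0, nat_lit 0, nat_lit 0, nat_lit 0, nat_lit 452282, [nat_lit 4688000000, nat_lit 5449500000, nat_lit 7089500000], [], [nat_lit 18737373964, nat_lit 19881495197, nat_lit 17380875672, nat_lit 18217361555], nat_lit 1271250, nat_lit 1271250, nat_lit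 111251, nat_lit 230001, nat_lit 0, nat_lit 0, [nat_lit 1100000, nat_lit 1271250, nat_lit 1271250], [nat_lit 105, nat_lit 40, nat_lit 20, nat_lit 40]⟩,
 zbF0, [⟨nat_lit 0, nat_lit 100, nat_lit 99, nat_lit 50, nat_lit 1088224023⟩]⟩
noncomputable def p011_l221 : Lf2 := ⟨nat_lit 0, nat_lit 5, [nat_lit 4, nat_lit 5, nat_lit 5, nat_lit 20], true, nat_lit 0, nat_lit 0, nat_lit 0, nat_lit 0, ⟨nat_lit 0, nat_lit 0, nat_lit 1000, nat_lit 6, nat_lit 84, nat_lit 0, nat_lit 0, nat_lit 0, nat_lit 0, nat_lit 215, nat_lit 66150, nat_lit 278, nat_lit 64161597, nat_lit 0, nat_lit 0, nat_lit 876919, false, false⟩,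
 nat_lit 0, nat_lit 100000, nat_lit 0, nat_lit 0, nat_lit 55555, nat_lit 0, nat_lit 60000, nat_lit 20000, nat_lit 0, nat_lit 0, nat_lit 0, nat_lit 0, nat_lit 0, nat_lit 0, nat_lit 0, nat_lit 1000000, nat_lit 0, nat_lit 0, [(nat_lit 6, [(nat_lit 6, nat_lit 1000)])],
 ⟨p011_k89, nat_lit 0, nat_lit 0, nat_lit 0, nat_lit 0, nat_lit 372297, [nat_lit 320977066667, nat_lit 360566400000, nat_lit 439049600000, nat_lit 478082000000], [], [nat_lit 1008829726517, nat_lit 1011973012327, nat_lit 999275610412, nat_lit 1002362174317], nat_lit 1271250, nat_lit 1271250, nat_lit 111251, nat_lit 230001, nat_lit 0, nat_lit 0, [nat_lit 1100000, nat_lit 1271250, nat_lit 1271250, nat_lit 1271250], [nat_lit 129, nat_lit 40, nat_lit 20, nat_lit 40]⟩, C1.Rw.none,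
 ⟨nat_lit 5916, nat_lit 6124, ⟨.ofNat (nat_lit 180982), .ofNat (nat_lit 221172), .ofNat (nat_lit 191656), .ofNat (nat_lit 231846), .ofNat (nat_lit 189276), .ofNat (nat_lit 228543), .ofNat (nat_lit 199946), .ofNat (nat_lit 239212)⟩, ⟨.ofNat (nat_lit 0), .ofNat (nat_lit 0), .ofNat (nat_lit 0), .ofNat (nat_lit 0), .ofNat (nat_lit 0), .ofNat (nat_lit 0), .ofNat (nat_lit 0), .ofNat (nat_lit 0)⟩⟩, [⟨nat_lit 0, nat_lit 100, nat_lit 99, nat_lit 45, nat_lit 2806444997⟩, ⟨nat_lit 13, nat_lit 99, nat_lit 5, nat_lit 100, nat_lit 271363869⟩]⟩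
noncomputable def p011_l222 : Lf2 := ⟨nat_lit 0, nat_lit 5, [nat_lit 4, nat_lit 5, nat_lit 5, nat_lit 20], false, nat_lit 0, nat_lit 0, nat_lit 0, nat_lit 0, ⟨nat_lit 1000, nat_lit 0, nat_lit 0, nat_lit 0, nat_lit 0, nat_lit 0, nat_lit 0, nat_lit 0, nat_lit 0, nat_lit 0, nat_lit 0, nat_lit 0, nat_lit 0, nat_lit 0, nat_lit 0, nat_lit 0, false, false⟩,
 nat_lit 22679, nat_lit 0, nat_lit 0, nat_lit 0, nat_lit 12599, nat_lit 9171, nat_lit 1371, nat_lit 0, nat_lit 0, nat_lit 2912, nat_lit 0, nat_lit 0, nat_lit 0, nat_lit 30429753318296, nat_lit 0, nat_lit 0, nat_lit 0, nat_lit 0, [],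
 ⟨p011_k89, nat_lit 0, nat_lit 0, nat_lit 0, nat_lit 0, nat_lit 493855, [nat_lit 4688000000, nat_lit 5449500000, nat_lit 7089500001, nat_lit 7968000000], [], [nat_lit 23728949522, nat_lit 22384539908, nat_lit 24047894878, nat_lit 21017835378], nat_lit 1271250, nat_lit 1271250, nat_lit 134400, nat_lit 230001, nat_lit 0, nat_lit 0, [nat_lit 1100000, nat_lit 1271250, nat_lit 1271250, nat_lit 1271250], [nat_lit 129, nat_lit 40, nat_lit 20, nat_lit 40]⟩, ⟨p011_k89, nat_lit 0, nat_lit 0, nat_lit 0, nat_lit 0, nat_lit 493855, [nat_lit 4688000000, nat_lit 5449500000, nat_lit 7089500000, nat_lit 7968000000], [], [nat_lit 19348932259, nat_lit 21047657477, nat_lit 18088117589, nat_lit 19012899790], nat_lit 1271250, nat_lit 1271250, nat_lit 134400, nat_lit 230001, nat_lit 0, nat_lit 0, [nat_lit 1100000, nat_lit 1271250, nat_lit 1271250, nat_lit 1271250], [nat_lit 129, nat_lit 40, nat_lit 20, nat_lit 40]⟩,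
 zbF0, [⟨nat_lit 0, nat_lit 100, nat_lit 100, nat_lit 55, nat_lit 1046300496⟩]⟩
noncomputable def p011_l223 : Lf2 := ⟨nat_lit 2, nat_lit 5, [nat_lit 4, nat_lit 5, nat_lit 5, nat_lit 20], true, nat_lit 0, nat_lit 0, nat_lit 0, nat_lit 0, zbN0,
 nat_lit 0, nat_lit 0, nat_lit 0, nat_lit 0, nat_lit 0, nat_lit 0, nat_lit 0, nat_lit 0, nat_lit 0, nat_lit 0, nat_lit 0, nat_lit 0, nat_lit 0, nat_lit 0, nat_lit 0, nat_lit 0, nat_lit 0, nat_lit 0, [],
 ⟨p011_k36, nat_lit 0, nat_lit 0, nat_lit 412, nat_lit 0, nat_lit 493855, [], [], [], nat_lit 1271250, nat_lit 1271250, nat_lit 111251, nat_lit 230001, nat_lit 0, nat_lit 0, [nat_lit 1100000, nat_lit 1785000], [nat_lit 39, nat_lit 40, nat_lit 20, nat_lit 80, nat_lit 7, nat_lit 215, nat_lit 10, nat_lit 8]⟩, C1.Rw.none,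
 zbF0, []⟩
noncomputable def p011_l224 : Lf2 := ⟨nat_lit 0, nat_lit 2, [nat_lit 10, nat_lit 5, nat_lit 5, nat_lit 20], true, nat_lit 0, nat_lit 0, nat_lit 0, nat_lit 0, ⟨nat_lit 0, nat_lit 0, nat_lit 1000, nat_lit 6, nat_lit 84, nat_lit 0, nat_lit 0, nat_lit 0, nat_lit 0, nat_lit 215, nat_lit 66150, nat_lit 278, nat_lit 64161597, nat_lit 0, nat_lit 0, nat_lit 876919, false, false⟩,
 nat_lit 0, nat_lit 1059, nat_lit 0, nat_lit 0, nat_lit 588, nat_lit 0, nat_lit 0, nat_lit 0, nat_lit 228, nat_lit 0, nat_lit 0, nat_lit 0, nat_lit 0, nat_lit 0, nat_lit 20, nat_lit 400000, nat_lit 0, nat_lit 0, [(nat_lit 6, [(nat_lit 5, nat_lit 1000)])],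
 ⟨p011_k91, nat_lit 0, nat_lit 0, nat_lit 0, nat_lit 0, nat_lit 430464, [nat_lit 1016933334, nat_lit 1106266667, nat_lit 433200001, nat_lit 18800000], [], [nat_lit 7620517549, nat_lit 8141863808, nat_lit 7898889145, nat_lit 8317628997], nat_lit 1271250, nat_lit 1271250, nat_lit 111251, nat_lit 230001, nat_lit 0, nat_lit 0, [nat_lit 490000, nat_lit 1100000, nat_lit 1442500, nat_lit 1271250], [nat_lit 101, nat_lit 40, nat_lit 20, nat_lit 40]⟩, C1.Rw.none,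
 ⟨nat_lit 5916, nat_lit 6124, ⟨.ofNat (nat_lit 180982), .ofNat (nat_lit 221172), .ofNat (nat_lit 191656), .ofNat (nat_lit 231846), .ofNat (nat_lit 189276), .ofNat (nat_lit 228543), .ofNat (nat_lit 199946), .ofNat (nat_lit 239212)⟩, ⟨.ofNat (nat_lit 0), .ofNat (nat_lit 0), .ofNat (nat_lit 0), .ofNat (nat_lit 0), .ofNat (nat_lit 0), .ofNat (nat_lit 0), .ofNat (nat_lit 0), .ofNat (nat_lit 0)⟩⟩, [⟨nat_lit 0, nat_lit 100, nat_lit 99, nat_lit 50, nat_lit 43146387⟩]⟩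
noncomputable def p011_l225 : Lf2 := ⟨nat_lit 0, nat_lit 2, [nat_lit 10, nat_lit 5, nat_lit 5, nat_lit 20], false, nat_lit 0, nat_lit 0, nat_lit 0, nat_lit 0, ⟨nat_lit 0, nat_lit 0, nat_lit 1000, nat_lit 6, nat_lit 84, nat_lit 0, nat_lit 0, nat_lit 0, nat_lit 0, nat_lit 215, nat_lit 66150, nat_lit 278, nat_lit 64161597, nat_lit 0, nat_lit 0, nat_lit 876919, false, false⟩,
 nat_lit 9549, nat_lit 0, nat_lit 0, nat_lit 0, nat_lit 5305, nat_lit 5055, nat_lit 1049, nat_lit 0, nat_lit 0, nat_lit 0, nat_lit 0, nat_lit 0, nat_lit 0, nat_lit 0, nat_lit 44, nat_lit 1000000, nat_lit 0, nat_lit 4204349655, [(nat_lit 6, [(nat_lit 6, nat_lit 1000)])],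
 ⟨p011_k91, nat_lit 0, nat_lit 0, nat_lit 0, nat_lit 0, nat_lit 430464, [nat_lit 868400000, nat_lit 1653200000, nat_lit 688000000, nat_lit 17600000], [], [nat_lit 11912980780, nat_lit 12680333800, nat_lit 12282883425, nat_lit 11632535840], nat_lit 1271250, nat_lit 1271250, nat_lit 111251, nat_lit 230001, nat_lit 0, nat_lit 0, [nat_lit 490000, nat_lit 1100000, nat_lit 1442500, nat_lit 1271250], [nat_lit 101, nat_lit 40, nat_lit 20, nat_lit 40]⟩, ⟨p011_k39, nat_lit 0, nat_lit 0, nat_lit 0, nat_lit 0, nat_lit 452282, [nat_lit 0, nat_lit 0, nat_lit 0, nat_lit 0], [], [nat_lit 3919793595, nat_lit 2613349065, nat_lit 1296754095, nat_lit 0], nat_lit 1271250, nat_lit 1271250, nat_lit 111251, nat_lit 230001, nat_lit 0, nat_lit 0, [nat_lit 490000, nat_lit 1100000, nat_lit 1442500, nat_lit 1271250], [nat_lit 101, nat_lit 40, nat_lit 20, nat_lit 40]⟩,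
 ⟨nat_lit 5916, nat_lit 6124, ⟨.ofNat (nat_lit 180982), .ofNat (nat_lit 221172), .ofNat (nat_lit 191656), .ofNat (nat_lit 231846), .ofNat (nat_lit 189276), .ofNat (nat_lit 228543), .ofNat (nat_lit 199946), .ofNat (nat_lit 239212)⟩, ⟨.ofNat (nat_lit 0), .ofNat (nat_lit 0), .ofNat (nat_lit 0), .ofNat (nat_lit 0), .ofNat (nat_lit 0), .ofNat (nat_lit 0), .ofNat (nat_lit 0), .ofNat (nat_lit 0)⟩⟩, [⟨nat_lit 0, nat_lit 100, nat_lit 99, nat_lit 45, nat_lit 682458423⟩]⟩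
noncomputable def p011_l226 : Lf2 := ⟨nat_lit 0, nat_lit 2, [nat_lit 10, nat_lit 5, nat_lit 5, nat_lit 20], false, nat_lit 0, nat_lit 0, nat_lit 0, nat_lit 0, ⟨nat_lit 0, nat_lit 0, nat_lit 1000, nat_lit 6, nat_lit 84, nat_lit 0, nat_lit 0, nat_lit 0, nat_lit 0, nat_lit 215, nat_lit 66150, nat_lit 278, nat_lit 64161597, nat_lit 0, nat_lit 0, nat_lit 876919, false, false⟩,
 nat_lit 100000, nat_lit 33301, nat_lit 0, nat_lit 0, nat_lit 74056, nat_lit 52941, nat_lit 28601, nat_lit 6494, nat_lit 0, nat_lit 0, nat_lit 0, nat_lit 0, nat_lit 0, nat_lit 0, nat_lit 0, nat_lit 1000000, nat_lit 0, nat_lit 57018939348, [(nat_lit 6, [(nat_lit 6, nat_lit 1000)])],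
 ⟨p011_k28, nat_lit 0, nat_lit 0, nat_lit 396, nat_lit 0, nat_lit 430464, [nat_lit 104881066667, nat_lit 129688000001, nat_lit 154147199999], [], [nat_lit 324346773878, nat_lit 306285774430, nat_lit 323870302390, nat_lit 305935494366], nat_lit 1271250, nat_lit 1271250, nat_lit 111251, nat_lit 230001, nat_lit 0, nat_lit 0, [nat_lit 1100000, nat_lit 1442500, nat_lit 1271250], [nat_lit 9, nat_lit 40, nat_lit 20, nat_lit 80, nat_lit 2, nat_lit 215, nat_lit 10, nat_lit 8]⟩, ⟨p011_k37, nat_lit 0, nat_lit 0, nat_lit 0, nat_lit 0, nat_lit 452282, [nat_lit 0, nat_lit 0, nat_lit 0], [], [nat_lit 26567699676, nat_lit 14870809254, nat_lit 0, nat_lit 3924675153], nat_lit 1271250, nat_lit 1271250, nat_lit 111251, nat_lit 230001, nat_lit 0, nat_lit 0, [nat_lit 1100000, nat_lit 1271250, nat_lit 1271250], [nat_lit 105, nat_lit 40, nat_lit 20, nat_lit 40]⟩,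
 ⟨nat_lit 5916, nat_lit 6124, ⟨.ofNat (nat_lit 180982), .ofNat (nat_lit 221172), .ofNat (nat_lit 191656), .ofNat (nat_lit 231846), .ofNat (nat_lit 189276), .ofNat (nat_lit 228543), .ofNat (nat_lit 199946), .ofNat (nat_lit 239212)⟩, ⟨.ofNat (nat_lit 0), .ofNat (nat_lit 0), .ofNat (nat_lit 0), .ofNat (nat_lit 0), .ofNat (nat_lit 0), .ofNat (nat_lit 0), .ofNat (nat_lit 0), .ofNat (nat_lit 0)⟩⟩, [⟨nat_lit 0, nat_lit 100, nat_lit 99, nat_lit 50, nat_lit 2997942264⟩]⟩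
noncomputable def p011_l227 : Lf2 := ⟨nat_lit 0, nat_lit 5, [nat_lit 4, nat_lit 5, nat_lit 5, nat_lit 20], false, nat_lit 0, nat_lit 0, nat_lit 0, nat_lit 0, ⟨nat_lit 244, nat_lit 0, nat_lit 756, nat_lit 6, nat_lit 84, nat_lit 0, nat_lit 0, nat_lit 0, nat_lit 0, nat_lit 215, nat_lit 66150, nat_lit 278, nat_lit 64161597, nat_lit 0, nat_lit 0, nat_lit 876919, false, false⟩,
 nat_lit 11047, nat_lit 0, nat_lit 0, nat_lit 0, nat_lit 6137, nat_lit 5848, nat_lit 404, nat_lit 0, nat_lit 0, nat_lit 1190, nat_lit 0, nat_lit 0, nat_lit 0, nat_lit 0, nat_lit 0, nat_lit 302400, nat_lit 0, nat_lit 0, [(nat_lit 6, [(nat_lit 5, nat_lit 756)])],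
 ⟨p011_k88, nat_lit 0, nat_lit 0, nat_lit 0, nat_lit 0, nat_lit 372297, [nat_lit 1143649601, nat_lit 1738289600, nat_lit 1550099200, nat_lit 1272722400], [], [nat_lit 16252665634, nat_lit 16869419792, nat_lit 16160026346, nat_lit 15585879338], nat_lit 1271250, nat_lit 1271250, nat_lit 111251, nat_lit 230001, nat_lit 0, nat_lit 0, [nat_lit 490000, nat_lit 1100000, nat_lit 1442500, nat_lit 1271250], [nat_lit 98, nat_lit 40, nat_lit 20, nat_lit 40]⟩, ⟨p011_k65, nat_lit 0, nat_lit 0, nat_lit 0, nat_lit 0, nat_lit 391833, [nat_lit 495808000, nat_lit 1143872000, nat_lit 1525000000, nat_lit 2168062000], [], [nat_lit 2699110480, nat_lit 2205468198, nat_lit 634410046, nat_lit 1081929496], nat_lit 1271250, nat_lit 1271250, nat_lit 111251, nat_lit 230001, nat_lit 0, nat_lit 0, [nat_lit 490000, nat_lit 1100000, nat_lit 1442500, nat_lit 1271250], [nat_lit 128, nat_lit 40, nat_lit 20, nat_lit 40]⟩,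
 ⟨nat_lit 5916, nat_lit 6124, ⟨.ofNat (nat_lit 180982), .ofNat (nat_lit 221172), .ofNat (nat_lit 191656), .ofNat (nat_lit 231846), .ofNat (nat_lit 189276), .ofNat (nat_lit 228543), .ofNat (nat_lit 199946), .ofNat (nat_lit 239212)⟩, ⟨.ofNat (nat_lit 0), .ofNat (nat_lit 0), .ofNat (nat_lit 0), .ofNat (nat_lit 0), .ofNat (nat_lit 0), .ofNat (nat_lit 0), .ofNat (nat_lit 0), .ofNat (nat_lit 0)⟩⟩, [⟨nat_lit 0, nat_lit 100, nat_lit 99, nat_lit 50, nat_lit 578958260⟩]⟩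
noncomputable def p011_l228 : Lf2 := ⟨nat_lit 0, nat_lit 5, [nat_lit 4, nat_lit 5, nat_lit 5, nat_lit 20], false, nat_lit 0, nat_lit 0, nat_lit 0, nat_lit 0, ⟨nat_lit 0, nat_lit 0, nat_lit 1000, nat_lit 6, nat_lit 84, nat_lit 0, nat_lit 0, nat_lit 0, nat_lit 0, nat_lit 215, nat_lit 66150, nat_lit 278, nat_lit 64161597, nat_lit 0, nat_lit 0, nat_lit 876919, false, false⟩,
 nat_lit 100000, nat_lit 0, nat_lit 0, nat_lit 0, nat_lit 55555, nat_lit 52941, nat_lit 0, nat_lit 3425, nat_lit 0, nat_lit 8278, nat_lit 706, nat_lit 0, nat_lit 0, nat_lit 0, nat_lit 0, nat_lit 1000000, nat_lit 0, nat_lit 29461261518, [(nat_lit 6, [(nat_lit 6, nat_lit 1000)])],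
 ⟨p011_k29, nat_lit 0, nat_lit 0, nat_lit 372, nat_lit 0, nat_lit 372297, [nat_lit 55777066667, nat_lit 68308000001, nat_lit 80491199999], [], [nat_lit 182376875745, nat_lit 168018908215, nat_lit 154078346298, nat_lit 156128814328], nat_lit 1271250, nat_lit 1271250, nat_lit 111251, nat_lit 230001, nat_lit 0, nat_lit 0, [nat_lit 1100000, nat_lit 1442500, nat_lit 1271250], [nat_lit 9, nat_lit 40, nat_lit 20, nat_lit 80, nat_lit 2, nat_lit 215, nat_lit 10, nat_lit 8]⟩, ⟨p011_k65, nat_lit 0, nat_lit 0, nat_lit 0, nat_lit 0, nat_lit 391833, [nat_lit 5648000000, nat_lit 11296000000, nat_lit 14120000000, nat_lit 18356000000], [], [nat_lit 11287548002, nat_lit 14412329601, nat_lit 0, nat_lit 3131830737], nat_lit 1271250, nat_lit 1271250, nat_lit 111251, nat_lit 230001, nat_lit 0, nat_lit 0, [nat_lit 490000, nat_lit 1100000, nat_lit 1442500, nat_lit 1271250], [nat_lit 128, nat_lit 40, nat_lit 20, nat_lit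 40]⟩,
 ⟨nat_lit 5916, nat_lit 6124, ⟨.ofNat (nat_lit 180982), .ofNat (nat_lit 221172), .ofNat (nat_lit 191656), .ofNat (nat_lit 231846), .ofNat (nat_lit 189276), .ofNat (nat_lit 228543), .ofNat (nat_lit 199946), .ofNat (nat_lit 239212)⟩, ⟨.ofNat (nat_lit 0), .ofNat (nat_lit 0), .ofNat (nat_lit 0), .ofNat (nat_lit 0), .ofNat (nat_lit 0), .ofNat (nat_lit 0), .ofNat (nat_lit 0), .ofNat (nat_lit 0)⟩⟩, [⟨nat_lit 0, nat_lit 100, nat_lit 99, nat_lit 50, nat_lit 10101010101⟩, ⟨nat_lit 13, nat_lit 99, nat_lit 5, nat_lit 100, nat_lit 51937990⟩]⟩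
noncomputable def p011_l229 : Lf2 := ⟨nat_lit 0, nat_lit 2, [nat_lit 10, nat_lit 5, nat_lit 5, nat_lit 20], true, nat_lit 0, nat_lit 0, nat_lit 0, nat_lit 0, ⟨nat_lit 0, nat_lit 0, nat_lit 1000, nat_lit 6, nat_lit 90, nat_lit 0, nat_lit 0, nat_lit 0, nat_lit 0, nat_lit 215, nat_lit 74817, nat_lit 282, nat_lit 63772282, nat_lit 0, nat_lit 0, nat_lit 965519, false, false⟩,
 nat_lit 0, nat_lit 0, nat_lit 0, nat_lit 0, nat_lit 0, nat_lit 0, nat_lit 0, nat_lit 0, nat_lit 284, nat_lit 0, nat_lit 0, nat_lit 0, nat_lit 0, nat_lit 11213087253633, nat_lit 44, nat_lit 1000000, nat_lit 0, nat_lit 0, [(nat_lit 6, [(nat_lit 6, nat_lit 1000)])],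
 ⟨p011_k90, nat_lit 0, nat_lit 0, nat_lit 0, nat_lit 0, nat_lit 468194, [nat_lit 1681066667, nat_lit 1358400000, nat_lit 17600000], [], [nat_lit 6820302335, nat_lit 7273358400, nat_lit 7101522334, nat_lit 7498600000], nat_lit 1271250, nat_lit 1271250, nat_lit 134400, nat_lit 230001, nat_lit 0, nat_lit 0, [nat_lit 1100000, nat_lit 1271250, nat_lit 1271250], [nat_lit 105, nat_lit 40, nat_lit 20, nat_lit 40]⟩, C1.Rw.none,
 ⟨nat_lit 5916, nat_lit 6124, ⟨.ofNat (nat_lit 199694), .ofNat (nat_lit 231846), .ofNat (nat_lit 210368), .ofNat (nat_lit 242520), .ofNat (nat_lit 207799), .ofNat (nat_lit 239212), .ofNat (nat_lit 218469), .ofNat (nat_lit 249882)⟩, ⟨.ofNat (nat_lit 0), .ofNat (nat_lit 0), .ofNat (nat_lit 0), .ofNat (nat_lit 0), .ofNat (nat_lit 0), .ofNat (nat_lit 0), .ofNat (nat_lit 0), .ofNat (nat_lit 0)⟩⟩, [⟨nat_lit 0, nat_lit 100, nat_lit 100, nat_lit 50, nat_lit 27629776⟩]⟩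
noncomputable def p011_l230 : Lf2 := ⟨nat_lit 0, nat_lit 2, [nat_lit 10, nat_lit 5, nat_lit 5, nat_lit 20], false, nat_lit 0, nat_lit 0, nat_lit 0, nat_lit 0, ⟨nat_lit 526, nat_lit 0, nat_lit 474, nat_lit 6, nat_lit 90, nat_lit 0, nat_lit 0, nat_lit 0, nat_lit 0, nat_lit 215, nat_lit 74817, nat_lit 282, nat_lit 63772282, nat_lit 0, nat_lit 0, nat_lit 965519, false, false⟩,
 nat_lit 24232, nat_lit 0, nat_lit 0, nat_lit 0, nat_lit 13462, nat_lit 13462, nat_lit 5332, nat_lit 0, nat_lit 0, nat_lit 0, nat_lit 0, nat_lit 0, nat_lit 0, nat_lit 0, nat_lit 0, nat_lit 189600, nat_lit 0, nat_lit 0, [(nat_lit 6, [(nat_lit 5, nat_lit 474)])],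
 ⟨p011_k90, nat_lit 0, nat_lit 0, nat_lit 0, nat_lit 0, nat_lit 468194, [nat_lit 3137830400, nat_lit 3097559401, nat_lit 3529428200], [], [nat_lit 13415693979, nat_lit 14935862961, nat_lit 11629282867, nat_lit 12409687864], nat_lit 1271250, nat_lit 1271250, nat_lit 134400, nat_lit 230001, nat_lit 0, nat_lit 0, [nat_lit 1100000, nat_lit 1271250, nat_lit 1271250], [nat_lit 105, nat_lit 40, nat_lit 20, nat_lit 40]⟩, ⟨p011_k90, nat_lit 0, nat_lit 0, nat_lit 0, nat_lit 0, nat_lit 468194, [nat_lit 2465888000, nat_lit 2866437000, nat_lit 3729077000], [], [nat_lit 6541496088, nat_lit 5139396088, nat_lit 2310380680, nat_lit 3040028228], nat_lit 1271250, nat_lit 1271250, nat_lit 134400, nat_lit 230001, nat_lit 0, nat_lit 0, [nat_lit 1100000, nat_lit 1271250, nat_lit 1271250], [nat_lit 105, nat_lit 40, nat_lit 20, nat_lit 40]⟩,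
 ⟨nat_lit 5916, nat_lit 6124, ⟨.ofNat (nat_lit 199694), .ofNat (nat_lit 231846), .ofNat (nat_lit 210368), .ofNat (nat_lit 242520), .ofNat (nat_lit 207799), .ofNat (nat_lit 239212), .ofNat (nat_lit 218469), .ofNat (nat_lit 249882)⟩, ⟨.ofNat (nat_lit 0), .ofNat (nat_lit 0), .ofNat (nat_lit 0), .ofNat (nat_lit 0), .ofNat (nat_lit 0), .ofNat (nat_lit 0), .ofNat (nat_lit 0), .ofNat (nat_lit 0)⟩⟩, [⟨nat_lit 0, nat_lit 100, nat_lit 100, nat_lit 55, nat_lit 2329536351⟩]⟩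
noncomputable def p011_l231 : Lf2 := ⟨nat_lit 0, nat_lit 5, [nat_lit 4, nat_lit 5, nat_lit 5, nat_lit 20], false, nat_lit 0, nat_lit 0, nat_lit 0, nat_lit 0, ⟨nat_lit 1000, nat_lit 0, nat_lit 0, nat_lit 0, nat_lit 0, nat_lit 0, nat_lit 0, nat_lit 0, nat_lit 0, nat_lit 0, nat_lit 0, nat_lit 0, nat_lit 0, nat_lit 0, nat_lit 0, nat_lit 0, false, false⟩,
 nat_lit 19862, nat_lit 0, nat_lit 0, nat_lit 0, nat_lit 10566, nat_lit 11034, nat_lit 1442, nat_lit 0, nat_lit 0, nat_lit 1926, nat_lit 0, nat_lit 0, nat_lit 0, nat_lit 0, nat_lit 0, nat_lit 0, nat_lit 0, nat_lit 0, [],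
 ⟨p011_k88, nat_lit 0, nat_lit 0, nat_lit 0, nat_lit 0, nat_lit 412266, [nat_lit 2032000001, nat_lit 4688000000, nat_lit 6250000000, nat_lit 7968000000], [], [nat_lit 21804262666, nat_lit 23143937110, nat_lit 20261013911, nat_lit 21208210284], nat_lit 1271250, nat_lit 1271250, nat_lit 134400, nat_lit 230001, nat_lit 0, nat_lit 0, [nat_lit 490000, nat_lit 1100000, nat_lit 1442500, nat_lit 1271250], [nat_lit 98, nat_lit 40, nat_lit 20, nat_lit 80]⟩, ⟨p011_k88, nat_lit 0, nat_lit 0, nat_lit 0, nat_lit 0, nat_lit 412266, [nat_lit 2032000000, nat_lit 4688000000, nat_lit 6250000000, nat_lit 7968000000], [], [nat_lit 19637361459, nat_lit 20686252957, nat_lit 18986734090, nat_lit 19099828476], nat_lit 1271250, nat_lit 1271250, nat_lit 134400, nat_lit 230001, nat_lit 0, nat_lit 0, [nat_lit 490000, nat_lit 1100000, nat_lit 1442500, nat_lit 1271250], [nat_lit 98, nat_lit 40, nat_lit 20, nat_lit 80]⟩,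
 zbF0, [⟨nat_lit 0, nat_lit 100, nat_lit 100, nat_lit 55, nat_lit 1546381393⟩]⟩
noncomputable def p011_l232 : Lf2 := ⟨nat_lit 0, nat_lit 5, [nat_lit 4, nat_lit 5, nat_lit 5, nat_lit 20], false, nat_lit 0, nat_lit 0, nat_lit 0, nat_lit 0, ⟨nat_lit 0, nat_lit 0, nat_lit 1000, nat_lit 6, nat_lit 90, nat_lit 0, nat_lit 0, nat_lit 0, nat_lit 0, nat_lit 215, nat_lit 74817, nat_lit 282, nat_lit 63772282, nat_lit 0, nat_lit 0, nat_lit 965519, false, false⟩,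
 nat_lit 100000, nat_lit 0, nat_lit 0, nat_lit 0, nat_lit 55555, nat_lit 55555, nat_lit 19202, nat_lit 1230, nat_lit 0, nat_lit 0, nat_lit 0, nat_lit 0, nat_lit 0, nat_lit 55311680801853, nat_lit 0, nat_lit 1000000, nat_lit 0, nat_lit 41113422195, [(nat_lit 6, [(nat_lit 6, nat_lit 1000)])],
 ⟨p011_k36, nat_lit 0, nat_lit 0, nat_lit 409, nat_lit 0, nat_lit 493855, [nat_lit 21214000000, nat_lit 27741466667], [], [nat_lit 23388079527, nat_lit 16185363379, nat_lit 23633818227, nat_lit 10364839807], nat_lit 1271250, nat_lit 1271250, nat_lit 134400, nat_lit 230001, nat_lit 0, nat_lit 0, [nat_lit 1100000, nat_lit 1785000], [nat_lit 39, nat_lit 40, nat_lit 20, nat_lit 80, nat_lit 7, nat_lit 215, nat_lit 10, nat_lit 8]⟩, ⟨p011_k88, nat_lit 0, nat_lit 0, nat_lit 0, nat_lit 0, nat_lit 493855, [nat_lit 0, nat_lit 0, nat_lit 0, nat_lit 0], [], [nat_lit 17883954492, nat_lit 14590020765, nat_lit 0, nat_lit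 4746119205], nat_lit 1271250, nat_lit 1271250, nat_lit 134400, nat_lit 230001, nat_lit 0, nat_lit 0, [nat_lit 490000, nat_lit 1100000, nat_lit 1442500, nat_lit 1271250], [nat_lit 98, nat_lit 40, nat_lit 20, nat_lit 80]⟩,
 ⟨nat_lit 5916, nat_lit 6124, ⟨.ofNat (nat_lit 199694), .ofNat (nat_lit 231846), .ofNat (nat_lit 210368), .ofNat (nat_lit 242520), .ofNat (nat_lit 207799), .ofNat (nat_lit 239212), .ofNat (nat_lit 218469), .ofNat (nat_lit 249882)⟩, ⟨.ofNat (nat_lit 0), .ofNat (nat_lit 0), .ofNat (nat_lit 0), .ofNat (nat_lit 0), .ofNat (nat_lit 0), .ofNat (nat_lit 0), .ofNat (nat_lit 0), .ofNat (nat_lit 0)⟩⟩, [⟨nat_lit 0, nat_lit 100, nat_lit 100, nat_lit 55, nat_lit 3114968108⟩]⟩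
noncomputable def p011_l233 : Lf2 := ⟨nat_lit 0, nat_lit 2, [nat_lit 10, nat_lit 5, nat_lit 5, nat_lit 20], false, nat_lit 0, nat_lit 0, nat_lit 0, nat_lit 0, ⟨nat_lit 1000, nat_lit 0, nat_lit 0, nat_lit 0, nat_lit 0, nat_lit 0, nat_lit 0, nat_lit 0, nat_lit 0, nat_lit 0, nat_lit 0, nat_lit 0, nat_lit 0, nat_lit 0, nat_lit 0, nat_lit 0, false, false⟩,
 nat_lit 21121, nat_lit 0, nat_lit 0, nat_lit 0, nat_lit 11733, nat_lit 11181, nat_lit 4351, nat_lit 0, nat_lit 0, nat_lit 36, nat_lit 0, nat_lit 0, nat_lit 0, nat_lit 29078364090432, nat_lit 0, nat_lit 0, nat_lit 0, nat_lit 0, [],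
 ⟨p011_k28, nat_lit 0, nat_lit 0, nat_lit 394, nat_lit 0, nat_lit 468194, [nat_lit 4688000000, nat_lit 6250000000, nat_lit 7968000000], [], [nat_lit 24072642007, nat_lit 21794556520, nat_lit 22621051704, nat_lit 19818695052], nat_lit 1271250, nat_lit 1271250, nat_lit 230001, nat_lit 490000, nat_lit 0, nat_lit 0, [nat_lit 1100000, nat_lit 1442500, nat_lit 1271250], [nat_lit 9, nat_lit 40, nat_lit 20, nat_lit 80, nat_lit 2, nat_lit 226, nat_lit 20, nat_lit 8]⟩, ⟨p011_k92, nat_lit 0, nat_lit 0, nat_lit 0, nat_lit 0, nat_lit 491925, [nat_lit 4688000000, nat_lit 6250000000, nat_lit 7089500000], [], [nat_lit 19588360976, nat_lit 21123256232, nat_lit 20951130084, nat_lit 18748572232], nat_lit 1271250, nat_lit 1271250, nat_lit 230001, nat_lit 490000, nat_lit 0, nat_lit 0, [nat_lit 1100000, nat_lit 1442500, nat_lit 1271250], [nat_lit 176, nat_lit 40, nat_lit 20, nat_lit 40]⟩,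
 zbF0, []⟩
noncomputable def p011_l234 : Lf2 := ⟨nat_lit 0, nat_lit 1, [nat_lit 19, nat_lit 5, nat_lit 5, nat_lit 20], false, nat_lit 0, nat_lit 0, nat_lit 0, nat_lit 0, ⟨nat_lit 995, nat_lit 0, nat_lit 5, nat_lit 6, nat_lit 108, nat_lit 0, nat_lit 0, nat_lit 0, nat_lit 0, nat_lit 215, nat_lit 109350, nat_lit 296, nat_lit 62416576, nat_lit 0, nat_lit 0, nat_lit 1247518, false, false⟩,
 nat_lit 15141, nat_lit 0, nat_lit 0, nat_lit 0, nat_lit 8411, nat_lit 8015, nat_lit 3270, nat_lit 0, nat_lit 0, nat_lit 0, nat_lit 0, nat_lit 0, nat_lit 0, nat_lit 0, nat_lit 0, nat_lit 5000, nat_lit 0, nat_lit 0, [(nat_lit 6, [(nat_lit 6, nat_lit 5)])],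
 ⟨p011_k93, nat_lit 0, nat_lit 0, nat_lit 277, nat_lit 0, nat_lit 421550, [nat_lit 4669445334, nat_lit 6217790000], [], [nat_lit 16514399252, nat_lit 16950855180, nat_lit 15742711678, nat_lit 15796788554], nat_lit 1271250, nat_lit 1271250, nat_lit 230001, nat_lit 490000, nat_lit 0, nat_lit 0, [nat_lit 1100000, nat_lit 1442500], [nat_lit 31, nat_lit 40, nat_lit 20, nat_lit 80, nat_lit 3, nat_lit 226, nat_lit 20, nat_lit 9]⟩, ⟨p011_k0, nat_lit 0, nat_lit 0, nat_lit 0, nat_lit 0, nat_lit 442647, [nat_lit 4664560000, nat_lit 6218750000], [], [nat_lit 30837718060, nat_lit 27925943173, nat_lit 32443645420, nat_lit 29572143430], nat_lit 1271250, nat_lit 1271250, nat_lit 230001, nat_lit 490000, nat_lit 0, nat_lit 0, [nat_lit 1100000, nat_lit 1442500], [nat_lit 31, nat_lit 40, nat_lit 20, nat_lit 40]⟩,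
 ⟨nat_lit 6020, nat_lit 6124, ⟨.ofNat (nat_lit 221172), .ofNat (nat_lit 301553), .ofNat (nat_lit 237183), .ofNat (nat_lit 317564), .ofNat (nat_lit 224872), .ofNat (nat_lit 304325), .ofNat (nat_lit 240879), .ofNat (nat_lit 320331)⟩, ⟨.ofNat (nat_lit 0), .ofNat (nat_lit 0), .ofNat (nat_lit 0), .ofNat (nat_lit 0), .ofNat (nat_lit 0), .ofNat (nat_lit 0), .ofNat (nat_lit 0), .ofNat (nat_lit 0)⟩⟩, []⟩
noncomputable def p011_l235 : Lf2 := ⟨nat_lit 0, nat_lit 2, [nat_lit 10, nat_lit 5, nat_lit 5, nat_lit 20], false, nat_lit 0, nat_lit 0, nat_lit 0, nat_lit 0, ⟨nat_lit 1000, nat_lit 0, nat_lit 0, nat_lit 0, nat_lit 0, nat_lit 0, nat_lit 0, nat_lit 0, nat_lit 0, nat_lit 0, nat_lit 0, nat_lit 0, nat_lit 0, nat_lit 0, nat_lit 0, nat_lit 0, false, false⟩,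
 nat_lit 15887, nat_lit 0, nat_lit 0, nat_lit 0, nat_lit 8825, nat_lit 8410, nat_lit 2956, nat_lit 0, nat_lit 0, nat_lit 0, nat_lit 0, nat_lit 0, nat_lit 0, nat_lit 0, nat_lit 0, nat_lit 0, nat_lit 0, nat_lit 0, [],
 ⟨p011_k90, nat_lit 0, nat_lit 0, nat_lit 0, nat_lit 0, nat_lit 386573, [nat_lit 4688000000, nat_lit 5449500000, nat_lit 7089500000], [], [nat_lit 17020200375, nat_lit 17429684013, nat_lit 16211099725, nat_lit 16612269138], nat_lit 1271250, nat_lit 1271250, nat_lit 230001, nat_lit 356250, nat_lit 0, nat_lit 0, [nat_lit 1100000, nat_lit 1271250, nat_lit 1271250], [nat_lit 105, nat_lit 40, nat_lit 20, nat_lit 40]⟩, ⟨p011_k37, nat_lit 0, nat_lit 0, nat_lit 0, nat_lit 0, nat_lit 406167, [nat_lit 4688000000, nat_lit 5449500000, nat_lit 7089500000], [], [nat_lit 30749647280, nat_lit 27513533945, nat_lit 31073408880, nat_lit 28039501380], nat_lit 1271250, nat_lit 1271250, nat_lit 230001,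 nat_lit 356250, nat_lit 0, nat_lit 0, [nat_lit 1100000, nat_lit 1271250, nat_lit 1271250], [nat_lit 105, nat_lit 40, nat_lit 20, nat_lit 40]⟩,
 zbF0, []⟩
noncomputable def p011_l236 : Lf2 := ⟨nat_lit 0, nat_lit 2, [nat_lit 10, nat_lit 5, nat_lit 5, nat_lit 20], true, nat_lit 0, nat_lit 0, nat_lit 0, nat_lit 0, ⟨nat_lit 0, nat_lit 0, nat_lit 1000, nat_lit 6, nat_lit 100, nat_lit 0, nat_lit 0, nat_lit 0, nat_lit 0, nat_lit 215, nat_lit 93750, nat_lit 290, nat_lit 63028940, nat_lit 0, nat_lit 0, nat_lit 1124757, false, false⟩,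
 nat_lit 0, nat_lit 100000, nat_lit 0, nat_lit 0, nat_lit 55555, nat_lit 0, nat_lit 19395, nat_lit 4989, nat_lit 0, nat_lit 0, nat_lit 0, nat_lit 0, nat_lit 0, nat_lit 174934574857048, nat_lit 0, nat_lit 1000000, nat_lit 0, nat_lit 0, [(nat_lit 6, [(nat_lit 6, nat_lit 1000)])],
 ⟨p011_k28, nat_lit 0, nat_lit 0, nat_lit 331, nat_lit 0, nat_lit 386573, [nat_lit 80801066667, nat_lit 99588000001, nat_lit 118027199999], [], [nat_lit 226983447680, nat_lit 219863377949, nat_lit 212149917961, nat_lit 213466783524], nat_lit 1271250, nat_lit 1271250, nat_lit 230001, nat_lit 356250, nat_lit 0, nat_lit 0, [nat_lit 1100000, nat_lit 1442500, nat_lit 1271250], [nat_lit 9, nat_lit 40, nat_lit 20, nat_lit 80, nat_lit 2, nat_lit 226, nat_lit 20, nat_lit 8]⟩, C1.Rw.none,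
 ⟨nat_lit 6020, nat_lit 6124, ⟨.ofNat (nat_lit 221172), .ofNat (nat_lit 261362), .ofNat (nat_lit 237183), .ofNat (nat_lit 277373), .ofNat (nat_lit 224872), .ofNat (nat_lit 264598), .ofNat (nat_lit 240879), .ofNat (nat_lit 280605)⟩, ⟨.ofNat (nat_lit 0), .ofNat (nat_lit 0), .ofNat (nat_lit 0), .ofNat (nat_lit 0), .ofNat (nat_lit 0), .ofNat (nat_lit 0), .ofNat (nat_lit 0), .ofNat (nat_lit 0)⟩⟩, []⟩
noncomputable def p011_l237 : Lf2 := ⟨nat_lit 0, nat_lit 2, [nat_lit 10, nat_lit 5, nat_lit 5, nat_lit 20], false, nat_lit 0, nat_lit 0, nat_lit 0, nat_lit 0, ⟨nat_lit 1000, nat_lit 0, nat_lit 0, nat_lit 0, nat_lit 0, nat_lit 0, nat_lit 0, nat_lit 0, nat_lit 0, nat_lit 0, nat_lit 0, nat_lit 0, nat_lit 0, nat_lit 0, nat_lit 0, nat_lit 0, false, false⟩,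
 nat_lit 36456, nat_lit 0, nat_lit 0, nat_lit 0, nat_lit 11708, nat_lit 19300, nat_lit 1878, nat_lit 0, nat_lit 0, nat_lit 0, nat_lit 0, nat_lit 0, nat_lit 0, nat_lit 0, nat_lit 0, nat_lit 0, nat_lit 0, nat_lit 0, [],
 ⟨p011_k28, nat_lit 0, nat_lit 0, nat_lit 316, nat_lit 0, nat_lit 386573, [nat_lit 4688000000, nat_lit 6250000000, nat_lit 7968000000], [], [nat_lit 19107378656, nat_lit 17990193410, nat_lit 16035727284, nat_lit 16727179902], nat_lit 1271250, nat_lit 1271250, nat_lit 356250, nat_lit 490000, nat_lit 0, nat_lit 0, [nat_lit 1100000, nat_lit 1442500, nat_lit 1271250], [nat_lit 9, nat_lit 40, nat_lit 20, nat_lit 80, nat_lit 2, nat_lit 226, nat_lit 20, nat_lit 8]⟩, ⟨p011_k92, nat_lit 0, nat_lit 0, nat_lit 0, nat_lit 0, nat_lit 406167, [nat_lit 4688000000, nat_lit 6250000000, nat_lit 7089500000], [], [nat_lit 14587574400, nat_lit 10446575650, nat_lit 16131269600, nat_lit 9216735800], nat_lit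 1271250, nat_lit 1271250, nat_lit 356250, nat_lit 490000, nat_lit 0, nat_lit 0, [nat_lit 1100000, nat_lit 1442500, nat_lit 1271250], [nat_lit 176, nat_lit 40, nat_lit 20, nat_lit 40]⟩,
 zbF0, []⟩
noncomputable def p011_l238 : Lf2 := ⟨nat_lit 0, nat_lit 1, [nat_lit 19, nat_lit 5, nat_lit 5, nat_lit 20], true, nat_lit 0, nat_lit 0, nat_lit 0, nat_lit 0, ⟨nat_lit 0, nat_lit 0, nat_lit 1000, nat_lit 6, nat_lit 109, nat_lit 0, nat_lit 0, nat_lit 0, nat_lit 0, nat_lit 215, nat_lit 109350, nat_lit 296, nat_lit 62399096, nat_lit 0, nat_lit 0, nat_lit 1250922, false, false⟩,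
 nat_lit 0, nat_lit 7418, nat_lit 0, nat_lit 0, nat_lit 4219, nat_lit 0, nat_lit 450, nat_lit 0, nat_lit 0, nat_lit 0, nat_lit 0, nat_lit 0, nat_lit 0, nat_lit 0, nat_lit 10, nat_lit 1000000, nat_lit 0, nat_lit 0, [(nat_lit 6, [(nat_lit 6, nat_lit 1000)])],
 ⟨p011_k94, nat_lit 0, nat_lit 0, nat_lit 274, nat_lit 0, nat_lit 412656, [nat_lit 1137066667, nat_lit 8000000], [], [nat_lit 12341233282, nat_lit 12640607705, nat_lit 12178822081, nat_lit 12488895665], nat_lit 1271250, nat_lit 1271250, nat_lit 230001, nat_lit 490000, nat_lit 0, nat_lit 0, [nat_lit 1100000, nat_lit 1442500], [nat_lit 31, nat_lit 40, nat_lit 20, nat_lit 80, nat_lit 3, nat_lit 226, nat_lit 20, nat_lit 9]⟩, C1.Rw.none,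
 ⟨nat_lit 5916, nat_lit 6021, ⟨.ofNat (nat_lit 224872), .ofNat (nat_lit 304325), .ofNat (nat_lit 235543), .ofNat (nat_lit 314996), .ofNat (nat_lit 228543), .ofNat (nat_lit 307076), .ofNat (nat_lit 239212), .ofNat (nat_lit 317746)⟩, ⟨.ofNat (nat_lit 0), .ofNat (nat_lit 0), .ofNat (nat_lit 0), .ofNat (nat_lit 0), .ofNat (nat_lit 0), .ofNat (nat_lit 0), .ofNat (nat_lit 0), .ofNat (nat_lit 0)⟩⟩, []⟩
noncomputable def p011_l239 : Lf2 := ⟨nat_lit 0, nat_lit 2, [nat_lit 10, nat_lit 5, nat_lit 5, nat_lit 20], true, nat_lit 0, nat_lit 0, nat_lit 0, nat_lit 0, ⟨nat_lit 0, nat_lit 0, nat_lit 1000, nat_lit 6, nat_lit 96, nat_lit 0, nat_lit 0, nat_lit 0, nat_lit 0, nat_lit 215, nat_lit 86400, nat_lit 287, nat_lit 63373156, nat_lit 0, nat_lit 0, nat_lit 1052524, false, false⟩,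
 nat_lit 0, nat_lit 7471, nat_lit 0, nat_lit 0, nat_lit 4249, nat_lit 0, nat_lit 437, nat_lit 0, nat_lit 0, nat_lit 0, nat_lit 0, nat_lit 0, nat_lit 0, nat_lit 0, nat_lit 80, nat_lit 1000000, nat_lit 0, nat_lit 0, [(nat_lit 6, [(nat_lit 6, nat_lit 1000)])],
 ⟨p011_k95, nat_lit 0, nat_lit 0, nat_lit 326, nat_lit 0, nat_lit 370502, [nat_lit 2257066667, nat_lit 1408000000, nat_lit 211200000], [], [nat_lit 12291205792, nat_lit 12471301044, nat_lit 12218930383, nat_lit 12397740996], nat_lit 1271250, nat_lit 1271250, nat_lit 230001, nat_lit 279600, nat_lit 0, nat_lit 0, [nat_lit 1100000, nat_lit 1442500, nat_lit 1271250], [nat_lit 9, nat_lit 40, nat_lit 20, nat_lit 80, nat_lit 2, nat_lit 226, nat_lit 20, nat_lit 8]⟩, C1.Rw.none,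
 ⟨nat_lit 5958, nat_lit 6021, ⟨.ofNat (nat_lit 224872), .ofNat (nat_lit 240762), .ofNat (nat_lit 235543), .ofNat (nat_lit 251434), .ofNat (nat_lit 227078), .ofNat (nat_lit 242858), .ofNat (nat_lit 237748), .ofNat (nat_lit 253528)⟩, ⟨.ofNat (nat_lit 0), .ofNat (nat_lit 0), .ofNat (nat_lit 0), .ofNat (nat_lit 0), .ofNat (nat_lit 0), .ofNat (nat_lit 0), .ofNat (nat_lit 0), .ofNat (nat_lit 0)⟩⟩, []⟩
noncomputable def p011_l240 : Lf2 := ⟨nat_lit 0, nat_lit 2, [nat_lit 10, nat_lit 5, nat_lit 5, nat_lit 20], false, nat_lit 0, nat_lit 0, nat_lit 0, nat_lit 0, ⟨nat_lit 997, nat_lit 0, nat_lit 3, nat_lit 6, nat_lit 104, nat_lit 0, nat_lit 0, nat_lit 0, nat_lit 0, nat_lit 215, nat_lit 101400, nat_lit 293, nat_lit 62787444, nat_lit 0, nat_lit 0, nat_lit 1174010, false, false⟩,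
 nat_lit 19900, nat_lit 0, nat_lit 0, nat_lit 0, nat_lit 11318, nat_lit 10535, nat_lit 3776, nat_lit 0, nat_lit 0, nat_lit 0, nat_lit 0, nat_lit 0, nat_lit 0, nat_lit 0, nat_lit 0, nat_lit 750, nat_lit 0, nat_lit 0, [(nat_lit 6, [(nat_lit 0, nat_lit 3)])],
 ⟨p011_k95, nat_lit 0, nat_lit 0, nat_lit 320, nat_lit 0, nat_lit 370502, [nat_lit 4683320000, nat_lit 6240512800, nat_lit 7954472400], [], [nat_lit 20087480306, nat_lit 19829509641, nat_lit 17645122464, nat_lit 18236824239], nat_lit 1271250, nat_lit 1271250, nat_lit 279600, nat_lit 356250, nat_lit 0, nat_lit 0, [nat_lit 1100000, nat_lit 1442500, nat_lit 1271250], [nat_lit 9, nat_lit 40, nat_lit 20, nat_lit 80, nat_lit 2, nat_lit 226, nat_lit 20, nat_lit 8]⟩, ⟨p011_k92, nat_lit 0, nat_lit 0, nat_lit 0, nat_lit 0, nat_lit 398776, [nat_lit 4673936000, nat_lit 6231250000, nat_lit 7068231500], [], [nat_lit 27292412224, nat_lit 24748131766, nat_lit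 27756243844, nat_lit 25222576344], nat_lit 1271250, nat_lit 1271250, nat_lit 279600, nat_lit 356250, nat_lit 0, nat_lit 0, [nat_lit 1100000, nat_lit 1442500, nat_lit 1271250], [nat_lit 176, nat_lit 40, nat_lit 20, nat_lit 40]⟩,
 ⟨nat_lit 5958, nat_lit 6021, ⟨.ofNat (nat_lit 240762), .ofNat (nat_lit 264598), .ofNat (nat_lit 251434), .ofNat (nat_lit 275269), .ofNat (nat_lit 242858), .ofNat (nat_lit 266528), .ofNat (nat_lit 253528), .ofNat (nat_lit 277198)⟩, ⟨.ofNat (nat_lit 0), .ofNat (nat_lit 0), .ofNat (nat_lit 0), .ofNat (nat_lit 0), .ofNat (nat_lit 0), .ofNat (nat_lit 0), .ofNat (nat_lit 0), .ofNat (nat_lit 0)⟩⟩, []⟩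
noncomputable def p011_l241 : Lf2 := ⟨nat_lit 0, nat_lit 2, [nat_lit 10, nat_lit 5, nat_lit 5, nat_lit 20], false, nat_lit 0, nat_lit 0, nat_lit 0, nat_lit 0, ⟨nat_lit 1000, nat_lit 0, nat_lit 0, nat_lit 0, nat_lit 0, nat_lit 0, nat_lit 0, nat_lit 0, nat_lit 0, nat_lit 0, nat_lit 0, nat_lit 0, nat_lit 0, nat_lit 0, nat_lit 0, nat_lit 0, false, false⟩,
 nat_lit 36456, nat_lit 0, nat_lit 0, nat_lit 0, nat_lit 10814, nat_lit 19300, nat_lit 1993, nat_lit 0, nat_lit 0, nat_lit 0, nat_lit 0, nat_lit 0, nat_lit 0, nat_lit 0, nat_lit 0, nat_lit 0, nat_lit 0, nat_lit 0, [],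
 ⟨p011_k95, nat_lit 0, nat_lit 0, nat_lit 310, nat_lit 0, nat_lit 370502, [nat_lit 4688000000, nat_lit 6250000000, nat_lit 7968000000], [], [nat_lit 18474213504, nat_lit 17772187426, nat_lit 16238172191, nat_lit 16629799673], nat_lit 1271250, nat_lit 1271250, nat_lit 356250, nat_lit 490000, nat_lit 0, nat_lit 0, [nat_lit 1100000, nat_lit 1442500, nat_lit 1271250], [nat_lit 9, nat_lit 40, nat_lit 20, nat_lit 80, nat_lit 2, nat_lit 226, nat_lit 20, nat_lit 8]⟩, ⟨p011_k92, nat_lit 0, nat_lit 0, nat_lit 0, nat_lit 0, nat_lit 398776, [nat_lit 4688000000, nat_lit 6250000000, nat_lit 7089500000], [], [nat_lit 14587574400, nat_lit 9945924400, nat_lit 16131269600, nat_lit 11521580400], nat_lit 1271250, nat_lit 1271250, nat_lit 356250, nat_lit 490000, nat_lit 0, nat_lit 0, [nat_lit 1100000, nat_lit 1442500, nat_lit 1271250], [nat_lit 176, nat_lit 40, nat_lit 20, nat_lit 40]⟩,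
 zbF0, []⟩
noncomputable def p011_l242 : Lf2 := ⟨nat_lit 0, nat_lit 2, [nat_lit 10, nat_lit 5, nat_lit 5, nat_lit 20], false, nat_lit 0, nat_lit 0, nat_lit 0, nat_lit 0, ⟨nat_lit 0, nat_lit 0, nat_lit 1000, nat_lit 6, nat_lit 109, nat_lit 0, nat_lit 0, nat_lit 0, nat_lit 0, nat_lit 215, nat_lit 112067, nat_lit 297, nat_lit 62378738, nat_lit 0, nat_lit 0, nat_lit 1254880, false, false⟩,
 nat_lit 10460, nat_lit 0, nat_lit 0, nat_lit 0, nat_lit 6032, nat_lit 5537, nat_lit 1058, nat_lit 0, nat_lit 0, nat_lit 0, nat_lit 0, nat_lit 0, nat_lit 0, nat_lit 0, nat_lit 10, nat_lit 1000000, nat_lit 0, nat_lit 6881848708, [(nat_lit 6, [(nat_lit 6, nat_lit 1000)])],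
 ⟨p011_k96, nat_lit 0, nat_lit 0, nat_lit 269, nat_lit 0, nat_lit 369152, [nat_lit 1137066667, nat_lit 8000000], [], [nat_lit 14720410420, nat_lit 14721154866, nat_lit 12594443831, nat_lit 12718860172], nat_lit 1271250, nat_lit 1271250, nat_lit 230001, nat_lit 490000, nat_lit 0, nat_lit 0, [nat_lit 1100000, nat_lit 1442500], [nat_lit 31, nat_lit 40, nat_lit 20, nat_lit 80, nat_lit 3, nat_lit 226, nat_lit 20, nat_lit 9]⟩, ⟨p011_k39, nat_lit 0, nat_lit 0, nat_lit 0, nat_lit 0, nat_lit 403032, [nat_lit 0, nat_lit 0, nat_lit 0, nat_lit 0], [], [nat_lit 3697010604, nat_lit 2276609531, nat_lit 0, nat_lit 485849602], nat_lit 1271250, nat_lit 1271250, nat_lit 230001, nat_lit 490000, nat_lit 0, nat_lit 0, [nat_lit 490000, nat_lit 1100000, nat_lit 1442500, nat_lit 1271250], [nat_lit 101, nat_lit 40, nat_lit 20, nat_lit 40]⟩,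
 ⟨nat_lit 5937, nat_lit 5959, ⟨.ofNat (nat_lit 227078), .ofNat (nat_lit 305978), .ofNat (nat_lit 237748), .ofNat (nat_lit 316648), .ofNat (nat_lit 227811), .ofNat (nat_lit 306528), .ofNat (nat_lit 238481), .ofNat (nat_lit 317197)⟩, ⟨.ofNat (nat_lit 0), .ofNat (nat_lit 0), .ofNat (nat_lit 0), .ofNat (nat_lit 0), .ofNat (nat_lit 0), .ofNat (nat_lit 0), .ofNat (nat_lit 0), .ofNat (nat_lit 0)⟩⟩, []⟩
noncomputable def p011_l243 : Lf2 := ⟨nat_lit 0, nat_lit 2, [nat_lit 10, nat_lit 5, nat_lit 5, nat_lit 20], true, nat_lit 0, nat_lit 0, nat_lit 0, nat_lit 0, ⟨nat_lit 0, nat_lit 0, nat_lit 1000, nat_lit 6, nat_lit 109, nat_lit 0, nat_lit 0, nat_lit 0, nat_lit 0, nat_lit 215, nat_lit 112067, nat_lit 297, nat_lit 62358468, nat_lit 0, nat_lit 0, nat_lit 1258813, false, false⟩,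
 nat_lit 0, nat_lit 7282, nat_lit 0, nat_lit 0, nat_lit 4219, nat_lit 0, nat_lit 355, nat_lit 0, nat_lit 0, nat_lit 0, nat_lit 0, nat_lit 0, nat_lit 0, nat_lit 0, nat_lit 10, nat_lit 1000000, nat_lit 0, nat_lit 0, [(nat_lit 6, [(nat_lit 6, nat_lit 1000)])],
 ⟨p011_k97, nat_lit 0, nat_lit 0, nat_lit 269, nat_lit 0, nat_lit 371292, [nat_lit 1137066667, nat_lit 8000000], [], [nat_lit 12580558707, nat_lit 12640607705, nat_lit 12575384731, nat_lit 12488895665], nat_lit 1271250, nat_lit 1271250, nat_lit 230001, nat_lit 490000, nat_lit 0, nat_lit 0, [nat_lit 1100000, nat_lit 1442500], [nat_lit 31, nat_lit 40, nat_lit 20, nat_lit 80, nat_lit 3, nat_lit 226, nat_lit 20, nat_lit 9]⟩, C1.Rw.none,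
 ⟨nat_lit 5916, nat_lit 5938, ⟨.ofNat (nat_lit 227811), .ofNat (nat_lit 306528), .ofNat (nat_lit 238481), .ofNat (nat_lit 317197), .ofNat (nat_lit 228543), .ofNat (nat_lit 307076), .ofNat (nat_lit 239212), .ofNat (nat_lit 317746)⟩, ⟨.ofNat (nat_lit 0), .ofNat (nat_lit 0), .ofNat (nat_lit 0), .ofNat (nat_lit 0), .ofNat (nat_lit 0), .ofNat (nat_lit 0), .ofNat (nat_lit 0), .ofNat (nat_lit 0)⟩⟩, []⟩
noncomputable def p011_l244 : Lf2 := ⟨nat_lit 0, nat_lit 2, [nat_lit 10, nat_lit 5, nat_lit 5, nat_lit 20], false, nat_lit 0, nat_lit 0, nat_lit 0, nat_lit 0, ⟨nat_lit 1000, nat_lit 0, nat_lit 0, nat_lit 0, nat_lit 0, nat_lit 0, nat_lit 0, nat_lit 0, nat_lit 0, nat_lit 0, nat_lit 0, nat_lit 0, nat_lit 0, nat_lit 0, nat_lit 0, nat_lit 0, false, false⟩,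
 nat_lit 20305, nat_lit 0, nat_lit 0, nat_lit 0, nat_lit 11548, nat_lit 11280, nat_lit 4205, nat_lit 0, nat_lit 0, nat_lit 0, nat_lit 0, nat_lit 0, nat_lit 0, nat_lit 0, nat_lit 0, nat_lit 0, nat_lit 0, nat_lit 0, [],
 ⟨p011_k95, nat_lit 0, nat_lit 0, nat_lit 389, nat_lit 0, nat_lit 457047, [nat_lit 4688000000, nat_lit 6250000000, nat_lit 7968000000], [], [nat_lit 21938255696, nat_lit 21569145120, nat_lit 20750152418, nat_lit 19371067162], nat_lit 1271250, nat_lit 1271250, nat_lit 230001, nat_lit 490000, nat_lit 0, nat_lit 0, [nat_lit 1100000, nat_lit 1442500, nat_lit 1271250], [nat_lit 9, nat_lit 40, nat_lit 20, nat_lit 80, nat_lit 2, nat_lit 226, nat_lit 20, nat_lit 8]⟩, ⟨p011_k98, nat_lit 0, nat_lit 0, nat_lit 0, nat_lit 0, nat_lit 468194, [nat_lit 4688000000, nat_lit 6250000000, nat_lit 7089500000], [], [nat_lit 26244199120, nat_lit 23350552000, nat_lit 25187756640, nat_lit 22493596320],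 nat_lit 1271250, nat_lit 1271250, nat_lit 230001, nat_lit 490000, nat_lit 0, nat_lit 0, [nat_lit 1100000, nat_lit 1442500, nat_lit 1271250], [nat_lit 176, nat_lit 40, nat_lit 20, nat_lit 40]⟩,
 zbF0, []⟩
noncomputable def p011_l245 : Lf2 := ⟨nat_lit 0, nat_lit 3, [nat_lit 45, nat_lit 5, nat_lit 5, nat_lit 20], true, nat_lit 0, nat_lit 0, nat_lit 0, nat_lit 0, ⟨nat_lit 0, nat_lit 0, nat_lit 1000, nat_lit 6, nat_lit 99, nat_lit 0, nat_lit 0, nat_lit 0, nat_lit 0, nat_lit 215, nat_lit 91267, nat_lit 289, nat_lit 63128437, nat_lit 0, nat_lit 0, nat_lit 1104130, false, false⟩,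
 nat_lit 0, nat_lit 8226, nat_lit 0, nat_lit 0, nat_lit 4569, nat_lit 0, nat_lit 95, nat_lit 0, nat_lit 0, nat_lit 0, nat_lit 0, nat_lit 0, nat_lit 0, nat_lit 0, nat_lit 80, nat_lit 1000000, nat_lit 0, nat_lit 0, [(nat_lit 6, [(nat_lit 6, nat_lit 1000)])],
 ⟨p011_k99, nat_lit 0, nat_lit 0, nat_lit 307, nat_lit 0, nat_lit 329431, [nat_lit 2257066667, nat_lit 1408000000, nat_lit 211200000], [], [nat_lit 12182613733, nat_lit 12315088037, nat_lit 12685288681, nat_lit 12341311516], nat_lit 1271250, nat_lit 1271250, nat_lit 230001, nat_lit 356250, nat_lit 0, nat_lit 0, [nat_lit 1100000, nat_lit 1442500, nat_lit 1271250], [nat_lit 9, nat_lit 40, nat_lit 20, nat_lit 80, nat_lit 2, nat_lit 226, nat_lit 20, nat_lit 8]⟩, C1.Rw.none,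
 ⟨nat_lit 6062, nat_lit 6124, ⟨.ofNat (nat_lit 221172), .ofNat (nat_lit 261362), .ofNat (nat_lit 231846), .ofNat (nat_lit 272036), .ofNat (nat_lit 223395), .ofNat (nat_lit 263307), .ofNat (nat_lit 234068), .ofNat (nat_lit 273979)⟩, ⟨.ofNat (nat_lit 0), .ofNat (nat_lit 0), .ofNat (nat_lit 0), .ofNat (nat_lit 0), .ofNat (nat_lit 0), .ofNat (nat_lit 0), .ofNat (nat_lit 0), .ofNat (nat_lit 0)⟩⟩, []⟩
noncomputable def p011_l246 : Lf2 := ⟨nat_lit 0, nat_lit 3, [nat_lit 45, nat_lit 5, nat_lit 5, nat_lit 20], true, nat_lit 0, nat_lit 0, nat_lit 0, nat_lit 0, ⟨nat_lit 0, nat_lit 0, nat_lit 1000, nat_lit 6, nat_lit 100, nat_lit 0, nat_lit 0, nat_lit 0, nat_lit 0, nat_lit 215, nat_lit 93750, nat_lit 290, nat_lit 63077238, nat_lit 0, nat_lit 0, nat_lit 1114770, false, false⟩,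
 nat_lit 0, nat_lit 7663, nat_lit 0, nat_lit 0, nat_lit 4317, nat_lit 0, nat_lit 351, nat_lit 0, nat_lit 0, nat_lit 0, nat_lit 0, nat_lit 0, nat_lit 0, nat_lit 0, nat_lit 80, nat_lit 1000000, nat_lit 0, nat_lit 0, [(nat_lit 6, [(nat_lit 6, nat_lit 1000)])],
 ⟨p011_k100, nat_lit 0, nat_lit 0, nat_lit 309, nat_lit 0, nat_lit 332486, [nat_lit 2257066667, nat_lit 1408000000, nat_lit 211200000], [], [nat_lit 12130052235, nat_lit 12242405773, nat_lit 12524584774, nat_lit 12307914544], nat_lit 1271250, nat_lit 1271250, nat_lit 230001, nat_lit 356250, nat_lit 0, nat_lit 0, [nat_lit 1100000, nat_lit 1442500, nat_lit 1271250], [nat_lit 9, nat_lit 40, nat_lit 20, nat_lit 80, nat_lit 2, nat_lit 226, nat_lit 20, nat_lit 8]⟩, C1.Rw.none,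
 ⟨nat_lit 6020, nat_lit 6063, ⟨.ofNat (nat_lit 223395), .ofNat (nat_lit 263307), .ofNat (nat_lit 234068), .ofNat (nat_lit 273979), .ofNat (nat_lit 224872), .ofNat (nat_lit 264598), .ofNat (nat_lit 235543), .ofNat (nat_lit 275269)⟩, ⟨.ofNat (nat_lit 0), .ofNat (nat_lit 0), .ofNat (nat_lit 0), .ofNat (nat_lit 0), .ofNat (nat_lit 0), .ofNat (nat_lit 0), .ofNat (nat_lit 0), .ofNat (nat_lit 0)⟩⟩, []⟩
noncomputable def p011_l247 : Lf2 := ⟨nat_lit 0, nat_lit 3, [nat_lit 45, nat_lit 5, nat_lit 5, nat_lit 20], true, nat_lit 0, nat_lit 0, nat_lit 0, nat_lit 0, ⟨nat_lit 0, nat_lit 0, nat_lit 1000, nat_lit 6, nat_lit 101, nat_lit 0, nat_lit 0, nat_lit 0, nat_lit 0, nat_lit 215, nat_lit 96267, nat_lit 291, nat_lit 63005538, nat_lit 0, nat_lit 0, nat_lit 1129580, false, false⟩,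
 nat_lit 0, nat_lit 7484, nat_lit 0, nat_lit 0, nat_lit 4256, nat_lit 0, nat_lit 262, nat_lit 0, nat_lit 0, nat_lit 0, nat_lit 0, nat_lit 0, nat_lit 0, nat_lit 0, nat_lit 80, nat_lit 1000000, nat_lit 0, nat_lit 0, [(nat_lit 6, [(nat_lit 6, nat_lit 1000)])],
 ⟨p011_k101, nat_lit 0, nat_lit 0, nat_lit 318, nat_lit 0, nat_lit 349320, [nat_lit 2257066667, nat_lit 1408000000, nat_lit 211200000], [], [nat_lit 12407393199, nat_lit 12686325074, nat_lit 12478080003, nat_lit 12499354178], nat_lit 1271250, nat_lit 1271250, nat_lit 230001, nat_lit 356250, nat_lit 0, nat_lit 0, [nat_lit 1100000, nat_lit 1442500, nat_lit 1271250], [nat_lit 9, nat_lit 40, nat_lit 20, nat_lit 80, nat_lit 2, nat_lit 226, nat_lit 20, nat_lit 8]⟩, C1.Rw.none,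
 ⟨nat_lit 5916, nat_lit 6021, ⟨.ofNat (nat_lit 224872), .ofNat (nat_lit 264598), .ofNat (nat_lit 235543), .ofNat (nat_lit 275269), .ofNat (nat_lit 228543), .ofNat (nat_lit 267810), .ofNat (nat_lit 239212), .ofNat (nat_lit 278479)⟩, ⟨.ofNat (nat_lit 0), .ofNat (nat_lit 0), .ofNat (nat_lit 0), .ofNat (nat_lit 0), .ofNat (nat_lit 0), .ofNat (nat_lit 0), .ofNat (nat_lit 0), .ofNat (nat_lit 0)⟩⟩, []⟩
noncomputable def p011_l248 : Lf2 := ⟨nat_lit 0, nat_lit 4, [nat_lit 38, nat_lit 5, nat_lit 5, nat_lit 20], false, nat_lit 0, nat_lit 0, nat_lit 0, nat_lit 0, ⟨nat_lit 364, nat_lit 0, nat_lit 636, nat_lit 6, nat_lit 100, nat_lit 0, nat_lit 0, nat_lit 0, nat_lit 0, nat_lit 215, nat_lit 93750, nat_lit 290, nat_lit 63057117, nat_lit 0, nat_lit 0, nat_lit 1118936, false, false⟩,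
 nat_lit 10892, nat_lit 0, nat_lit 0, nat_lit 0, nat_lit 6051, nat_lit 5766, nat_lit 1057, nat_lit 0, nat_lit 0, nat_lit 0, nat_lit 0, nat_lit 0, nat_lit 0, nat_lit 0, nat_lit 0, nat_lit 636000, nat_lit 0, nat_lit 0, [(nat_lit 6, [(nat_lit 6, nat_lit 636)])],
 ⟨p011_k102, nat_lit 0, nat_lit 0, nat_lit 310, nat_lit 0, nat_lit 330053, [nat_lit 2327846400, nat_lit 2152888000, nat_lit 1799359200], [], [nat_lit 14718814014, nat_lit 14871380440, nat_lit 15220736106, nat_lit 14423047284], nat_lit 1271250, nat_lit 1271250, nat_lit 230001, nat_lit 356250, nat_lit 0, nat_lit 0, [nat_lit 1100000, nat_lit 1442500, nat_lit 1271250], [nat_lit 9, nat_lit 40, nat_lit 20, nat_lit 80, nat_lit 2, nat_lit 226, nat_lit 20, nat_lit 8]⟩, ⟨p011_k24, nat_lit 0, nat_lit 0, nat_lit 0, nat_lit 0, nat_lit 347182, [nat_lit 1706432000, nat_lit 2275000000, nat_lit 2900352000], [], [nat_lit 9651311296, nat_lit 8807993456, nat_lit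 7460789496, nat_lit 7886895290], nat_lit 1271250, nat_lit 1271250, nat_lit 230001, nat_lit 356250, nat_lit 0, nat_lit 0, [nat_lit 1100000, nat_lit 1442500, nat_lit 1271250], [nat_lit 9, nat_lit 40, nat_lit 20, nat_lit 40]⟩,
 ⟨nat_lit 5916, nat_lit 6124, ⟨.ofNat (nat_lit 221172), .ofNat (nat_lit 261362), .ofNat (nat_lit 231846), .ofNat (nat_lit 272036), .ofNat (nat_lit 228543), .ofNat (nat_lit 267810), .ofNat (nat_lit 239212), .ofNat (nat_lit 278479)⟩, ⟨.ofNat (nat_lit 0), .ofNat (nat_lit 0), .ofNat (nat_lit 0), .ofNat (nat_lit 0), .ofNat (nat_lit 0), .ofNat (nat_lit 0), .ofNat (nat_lit 0), .ofNat (nat_lit 0)⟩⟩, []⟩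
noncomputable def p011_l249 : Lf2 := ⟨nat_lit 0, nat_lit 4, [nat_lit 38, nat_lit 5, nat_lit 5, nat_lit 20], false, nat_lit 0, nat_lit 0, nat_lit 0, nat_lit 0, ⟨nat_lit 875, nat_lit 0, nat_lit 125, nat_lit 6, nat_lit 116, nat_lit 0, nat_lit 0, nat_lit 0, nat_lit 0, nat_lit 215, nat_lit 126150, nat_lit 302, nat_lit 61809487, nat_lit 0, nat_lit 0, nat_lit 1362731, false, false⟩,
 nat_lit 19282, nat_lit 0, nat_lit 0, nat_lit 0, nat_lit 10712, nat_lit 10208, nat_lit 1580, nat_lit 0, nat_lit 0, nat_lit 0, nat_lit 0, nat_lit 0, nat_lit 0, nat_lit 0, nat_lit 0, nat_lit 125000, nat_lit 0, nat_lit 0, [(nat_lit 6, [(nat_lit 6, nat_lit 125)])],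
 ⟨p011_k102, nat_lit 0, nat_lit 0, nat_lit 308, nat_lit 0, nat_lit 363576, [nat_lit 4224133334, nat_lit 5444750000, nat_lit 6732250000], [], [nat_lit 18836659452, nat_lit 18054673392, nat_lit 15630191086, nat_lit 16891241280], nat_lit 1271250, nat_lit 1271250, nat_lit 356250, nat_lit 490000, nat_lit 0, nat_lit 0, [nat_lit 1100000, nat_lit 1442500, nat_lit 1271250], [nat_lit 9, nat_lit 40, nat_lit 20, nat_lit 80, nat_lit 2, nat_lit 226, nat_lit 20, nat_lit 8]⟩, ⟨p011_k24, nat_lit 0, nat_lit 0, nat_lit 0, nat_lit 0, nat_lit 382446, [nat_lit 4102000000, nat_lit 5468750000, nat_lit 6972000000], [], [nat_lit 22899814644, nat_lit 22121893989, nat_lit 23901450556, nat_lit 21463331004], nat_lit 1271250, nat_lit 1271250, nat_lit 356250, nat_lit 490000, nat_lit 0, nat_lit 0, [nat_lit 1100000, nat_lit 1442500, nat_lit 1271250], [nat_lit 9, nat_lit 40, nat_lit 20, nat_lit 40]⟩,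
 ⟨nat_lit 5916, nat_lit 6124, ⟨.ofNat (nat_lit 261362), .ofNat (nat_lit 301553), .ofNat (nat_lit 272036), .ofNat (nat_lit 312227), .ofNat (nat_lit 267810), .ofNat (nat_lit 307076), .ofNat (nat_lit 278479), .ofNat (nat_lit 317746)⟩, ⟨.ofNat (nat_lit 0), .ofNat (nat_lit 0), .ofNat (nat_lit 0), .ofNat (nat_lit 0), .ofNat (nat_lit 0), .ofNat (nat_lit 0), .ofNat (nat_lit 0), .ofNat (nat_lit 0)⟩⟩, []⟩
noncomputable def p011_l250 : Lf2 := ⟨nat_lit 0, nat_lit 4, [nat_lit 38, nat_lit 5, nat_lit 5, nat_lit 20], false, nat_lit 0, nat_lit 0, nat_lit 0, nat_lit 0, ⟨nat_lit 1000, nat_lit 0, nat_lit 0, nat_lit 0, nat_lit 0, nat_lit 0, nat_lit 0, nat_lit 0, nat_lit 0, nat_lit 0, nat_lit 0, nat_lit 0, nat_lit 0, nat_lit 0, nat_lit 0, nat_lit 0, false, false⟩,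
 nat_lit 17446, nat_lit 0, nat_lit 0, nat_lit 0, nat_lit 9692, nat_lit 9692, nat_lit 0, nat_lit 0, nat_lit 0, nat_lit 2903, nat_lit 0, nat_lit 0, nat_lit 0, nat_lit 40395123495790, nat_lit 0, nat_lit 0, nat_lit 0, nat_lit 0, [],
 ⟨p011_k102, nat_lit 0, nat_lit 0, nat_lit 321, nat_lit 0, nat_lit 362475, [nat_lit 4688000000, nat_lit 6250000000, nat_lit 7968000000], [], [nat_lit 27564972068, nat_lit 26321832534, nat_lit 21939763952, nat_lit 22397187112], nat_lit 1271250, nat_lit 1271250, nat_lit 230001, nat_lit 490000, nat_lit 0, nat_lit 0, [nat_lit 1100000, nat_lit 1442500, nat_lit 1271250], [nat_lit 9, nat_lit 40, nat_lit 20, nat_lit 80, nat_lit 2, nat_lit 226, nat_lit 20, nat_lit 8]⟩, ⟨p011_k103, nat_lit 0, nat_lit 0, nat_lit 0, nat_lit 0, nat_lit 362475, [nat_lit 4688000000, nat_lit 5449500000, nat_lit 7089500000, nat_lit 7968000000], [], [nat_lit 17648674828, nat_lit 18424028048, nat_lit 15753103388,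 nat_lit 16212777214], nat_lit 1271250, nat_lit 1271250, nat_lit 230001, nat_lit 490000, nat_lit 0, nat_lit 0, [nat_lit 1100000, nat_lit 1271250, nat_lit 1271250, nat_lit 1271250], [nat_lit 129, nat_lit 40, nat_lit 20, nat_lit 40]⟩,
 zbF0, []⟩
noncomputable def p011_l251 : Lf2 := ⟨nat_lit 0, nat_lit 4, [nat_lit 38, nat_lit 5, nat_lit 5, nat_lit 20], false, nat_lit 0, nat_lit 0, nat_lit 0, nat_lit 0, ⟨nat_lit 1000, nat_lit 0, nat_lit 0, nat_lit 0, nat_lit 0, nat_lit 0, nat_lit 0, nat_lit 0, nat_lit 0, nat_lit 0, nat_lit 0, nat_lit 0, nat_lit 0, nat_lit 0, nat_lit 0, nat_lit 0, false, false⟩,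
 nat_lit 21899, nat_lit 0, nat_lit 0, nat_lit 0, nat_lit 12455, nat_lit 12166, nat_lit 839, nat_lit 0, nat_lit 0, nat_lit 0, nat_lit 0, nat_lit 0, nat_lit 0, nat_lit 0, nat_lit 0, nat_lit 0, nat_lit 0, nat_lit 0, [],
 ⟨p011_k104, nat_lit 0, nat_lit 0, nat_lit 362, nat_lit 0, nat_lit 393070, [nat_lit 4688000000, nat_lit 6250000000, nat_lit 7968000000], [], [nat_lit 23150261348, nat_lit 22674270200, nat_lit 18520740708, nat_lit 19244563450], nat_lit 1271250, nat_lit 1271250, nat_lit 230001, nat_lit 490000, nat_lit 0, nat_lit 0, [nat_lit 1100000, nat_lit 1442500, nat_lit 1271250], [nat_lit 9, nat_lit 40, nat_lit 20, nat_lit 80, nat_lit 2, nat_lit 226, nat_lit 20, nat_lit 8]⟩, ⟨p011_k102, nat_lit 0, nat_lit 0, nat_lit 0, nat_lit 0, nat_lit 402875, [nat_lit 4688000000, nat_lit 6250000000, nat_lit 7968000000], [], [nat_lit 25507294314, nat_lit 24454568684, nat_lit 19700366818, nat_lit 21122965540],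 nat_lit 1271250, nat_lit 1271250, nat_lit 230001, nat_lit 490000, nat_lit 0, nat_lit 0, [nat_lit 1100000, nat_lit 1442500, nat_lit 1271250], [nat_lit 9, nat_lit 40, nat_lit 20, nat_lit 40]⟩,
 zbF0, []⟩
noncomputable def p011_l252 : Lf2 := ⟨nat_lit 0, nat_lit 5, [nat_lit 4, nat_lit 5, nat_lit 5, nat_lit 20], false, nat_lit 0, nat_lit 0, nat_lit 0, nat_lit 0, ⟨nat_lit 1000, nat_lit 0, nat_lit 0, nat_lit 0, nat_lit 0, nat_lit 0, nat_lit 0, nat_lit 0, nat_lit 0, nat_lit 0, nat_lit 0, nat_lit 0, nat_lit 0, nat_lit 0, nat_lit 0, nat_lit 0, false, false⟩,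
 nat_lit 19459, nat_lit 0, nat_lit 0, nat_lit 0, nat_lit 10810, nat_lit 10301, nat_lit 0, nat_lit 0, nat_lit 0, nat_lit 284, nat_lit 0, nat_lit 0, nat_lit 0, nat_lit 34194491211255, nat_lit 0, nat_lit 0, nat_lit 0, nat_lit 0, [],
 ⟨p011_k29, nat_lit 0, nat_lit 0, nat_lit 316, nat_lit 0, nat_lit 343503, [nat_lit 4688000000, nat_lit 6250000000, nat_lit 7968000000], [], [nat_lit 26635107990, nat_lit 24147469940, nat_lit 20677436860, nat_lit 21660715960], nat_lit 1271250, nat_lit 1271250, nat_lit 230001, nat_lit 490000, nat_lit 0, nat_lit 0, [nat_lit 1100000, nat_lit 1442500, nat_lit 1271250], [nat_lit 9, nat_lit 40, nat_lit 20, nat_lit 80, nat_lit 2, nat_lit 226, nat_lit 20, nat_lit 8]⟩, ⟨p011_k65, nat_lit 0, nat_lit 0, nat_lit 0, nat_lit 0, nat_lit 361527, [nat_lit 2032000000, nat_lit 4688000000, nat_lit 6250000000, nat_lit 8885500000], [], [nat_lit 24476150796, nat_lit 26600912890, nat_lit 26108989948,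 nat_lit 24146657436], nat_lit 1271250, nat_lit 1271250, nat_lit 230001, nat_lit 490000, nat_lit 0, nat_lit 0, [nat_lit 490000, nat_lit 1100000, nat_lit 1442500, nat_lit 1271250], [nat_lit 128, nat_lit 40, nat_lit 20, nat_lit 40]⟩,
 zbF0, []⟩
noncomputable def p011_l253 : Lf2 := ⟨nat_lit 0, nat_lit 5, [nat_lit 4, nat_lit 5, nat_lit 5, nat_lit 20], false, nat_lit 0, nat_lit 0, nat_lit 0, nat_lit 0, ⟨nat_lit 261, nat_lit 0, nat_lit 739, nat_lit 6, nat_lit 84, nat_lit 0, nat_lit 0, nat_lit 0, nat_lit 0, nat_lit 215, nat_lit 66150, nat_lit 278, nat_lit 64190826, nat_lit 0, nat_lit 0, nat_lit 870105, false, false⟩,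
 nat_lit 4670, nat_lit 5582, nat_lit 0, nat_lit 0, nat_lit 5695, nat_lit 2472, nat_lit 921, nat_lit 0, nat_lit 0, nat_lit 741, nat_lit 0, nat_lit 0, nat_lit 0, nat_lit 12870903174167, nat_lit 0, nat_lit 295600, nat_lit 0, nat_lit 0, [(nat_lit 6, [(nat_lit 5, nat_lit 739)])],
 ⟨p011_k29, nat_lit 0, nat_lit 0, nat_lit 304, nat_lit 0, nat_lit 275965, [nat_lit 2271174400, nat_lit 1655784801, nat_lit 1422400599], [], [nat_lit 15109119128, nat_lit 15314530254, nat_lit 14431290232, nat_lit 14421836582], nat_lit 1271250, nat_lit 1271250, nat_lit 111251, nat_lit 230001, nat_lit 0, nat_lit 0, [nat_lit 1100000, nat_lit 1442500, nat_lit 1271250], [nat_lit 9, nat_lit 40, nat_lit 20, nat_lit 80, nat_lit 2, nat_lit 215, nat_lit 10, nat_lit 8]⟩, ⟨p011_k105, nat_lit 0, nat_lit 0, nat_lit 0, nat_lit 0, nat_lit 291163, [nat_lit 1223568000, nat_lit 1422319500, nat_lit 1850359500, nat_lit 2319115500], [], [nat_lit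 5367435630, nat_lit 5621380761, nat_lit 4925637066, nat_lit 5176704090], nat_lit 1271250, nat_lit 1271250, nat_lit 111251, nat_lit 230001, nat_lit 0, nat_lit 0, [nat_lit 1100000, nat_lit 1271250, nat_lit 1271250, nat_lit 1271250], [nat_lit 198, nat_lit 40, nat_lit 20, nat_lit 40]⟩,
 ⟨nat_lit 6062, nat_lit 6124, ⟨.ofNat (nat_lit 180982), .ofNat (nat_lit 221172), .ofNat (nat_lit 194858), .ofNat (nat_lit 235048), .ofNat (nat_lit 183484), .ofNat (nat_lit 223395), .ofNat (nat_lit 197358), .ofNat (nat_lit 237269)⟩, ⟨.ofNat (nat_lit 0), .ofNat (nat_lit 0), .ofNat (nat_lit 0), .ofNat (nat_lit 0), .ofNat (nat_lit 0), .ofNat (nat_lit 0), .ofNat (nat_lit 0), .ofNat (nat_lit 0)⟩⟩, [⟨nat_lit 0, nat_lit 100, nat_lit 100, nat_lit 53, nat_lit 607345913⟩]⟩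
noncomputable def p011_l254 : Lf2 := ⟨nat_lit 0, nat_lit 5, [nat_lit 4, nat_lit 5, nat_lit 5, nat_lit 20], false, nat_lit 0, nat_lit 0, nat_lit 0, nat_lit 0, ⟨nat_lit 251, nat_lit 0, nat_lit 749, nat_lit 6, nat_lit 85, nat_lit 0, nat_lit 0, nat_lit 0, nat_lit 0, nat_lit 215, nat_lit 68267, nat_lit 279, nat_lit 64112337, nat_lit 0, nat_lit 0, nat_lit 888349, false, false⟩,
 nat_lit 4470, nat_lit 5383, nat_lit 0, nat_lit 0, nat_lit 5551, nat_lit 2366, nat_lit 867, nat_lit 0, nat_lit 0, nat_lit 709, nat_lit 0, nat_lit 0, nat_lit 0, nat_lit 12199287876235, nat_lit 0, nat_lit 299600, nat_lit 0, nat_lit 0, [(nat_lit 6, [(nat_lit 5, nat_lit 749)])],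
 ⟨p011_k67, nat_lit 0, nat_lit 0, nat_lit 310, nat_lit 0, nat_lit 289033, [nat_lit 2238470400, nat_lit 1593616800, nat_lit 1334354600], [], [nat_lit 15203728949, nat_lit 15343449287, nat_lit 14376785398, nat_lit 14481606820], nat_lit 1271250, nat_lit 1271250, nat_lit 111251, nat_lit 230001, nat_lit 0, nat_lit 0, [nat_lit 1100000, nat_lit 1442500, nat_lit 1271250], [nat_lit 9, nat_lit 40, nat_lit 20, nat_lit 80, nat_lit 2, nat_lit 215, nat_lit 10, nat_lit 8]⟩, ⟨p011_k105, nat_lit 0, nat_lit 0, nat_lit 0, nat_lit 0, nat_lit 309774, [nat_lit 1176688000, nat_lit 1367824500, nat_lit 1779464500, nat_lit 2230260500], [], [nat_lit 5183018718, nat_lit 5464013484, nat_lit 4760531282, nat_lit 5038343009], nat_lit 1271250, nat_lit 1271250, nat_lit 111251, nat_lit 230001, nat_lit 0, nat_lit 0, [nat_lit 1100000, nat_lit 1271250, nat_lit 1271250, nat_lit 1271250], [nat_lit 198, nat_lit 40, nat_lit 20, nat_lit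 40]⟩,
 ⟨nat_lit 6020, nat_lit 6063, ⟨.ofNat (nat_lit 183484), .ofNat (nat_lit 223395), .ofNat (nat_lit 199492), .ofNat (nat_lit 239404), .ofNat (nat_lit 185145), .ofNat (nat_lit 224872), .ofNat (nat_lit 201152), .ofNat (nat_lit 240879)⟩, ⟨.ofNat (nat_lit 0), .ofNat (nat_lit 0), .ofNat (nat_lit 0), .ofNat (nat_lit 0), .ofNat (nat_lit 0), .ofNat (nat_lit 0), .ofNat (nat_lit 0), .ofNat (nat_lit 0)⟩⟩, [⟨nat_lit 0, nat_lit 100, nat_lit 100, nat_lit 55, nat_lit 587507707⟩]⟩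
noncomputable def p011_l255 : Lf2 := ⟨nat_lit 0, nat_lit 5, [nat_lit 4, nat_lit 5, nat_lit 5, nat_lit 20], false, nat_lit 0, nat_lit 0, nat_lit 0, nat_lit 0, ⟨nat_lit 348, nat_lit 0, nat_lit 652, nat_lit 6, nat_lit 108, nat_lit 0, nat_lit 0, nat_lit 0, nat_lit 0, nat_lit 215, nat_lit 109350, nat_lit 296, nat_lit 62416576, nat_lit 0, nat_lit 0, nat_lit 1247518, false, false⟩,
 nat_lit 7796, nat_lit 3636, nat_lit 0, nat_lit 0, nat_lit 6351, nat_lit 4127, nat_lit 1209, nat_lit 0, nat_lit 0, nat_lit 739, nat_lit 0, nat_lit 0, nat_lit 0, nat_lit 0, nat_lit 0, nat_lit 236950, nat_lit 0, nat_lit 0, [(nat_lit 6, [(nat_lit 4, nat_lit 159), (nat_lit 5, nat_lit 493)])],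
 ⟨p011_k29, nat_lit 0, nat_lit 0, nat_lit 292, nat_lit 0, nat_lit 293605, [nat_lit 2784150401, nat_lit 2205550400, nat_lit 2221600000], [], [nat_lit 14606317015, nat_lit 14579893494, nat_lit 15852764972, nat_lit 15061611376], nat_lit 1271250, nat_lit 1271250, nat_lit 230001, nat_lit 490000, nat_lit 0, nat_lit 0, [nat_lit 1100000, nat_lit 1442500, nat_lit 1271250], [nat_lit 9, nat_lit 40, nat_lit 20, nat_lit 80, nat_lit 2, nat_lit 226, nat_lit 20, nat_lit 8]⟩, ⟨p011_k26, nat_lit 0, nat_lit 0, nat_lit 0, nat_lit 0, nat_lit 309774, [nat_lit 1631424000, nat_lit 2175000000, nat_lit 3425016000], [], [nat_lit 10024034792, nat_lit 8439040072, nat_lit 7049812204, nat_lit 7416507325], nat_lit 1271250, nat_lit 1271250, nat_lit 230001, nat_lit 490000, nat_lit 0, nat_lit 0, [nat_lit 1100000, nat_lit 1442500, nat_lit 1271250], [nat_lit 11, nat_lit 40, nat_lit 20, nat_lit 80]⟩,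
 ⟨nat_lit 6020, nat_lit 6124, ⟨.ofNat (nat_lit 221172), .ofNat (nat_lit 301553), .ofNat (nat_lit 237183), .ofNat (nat_lit 317564), .ofNat (nat_lit 224872), .ofNat (nat_lit 304325), .ofNat (nat_lit 240879), .ofNat (nat_lit 320331)⟩, ⟨.ofNat (nat_lit 0), .ofNat (nat_lit 0), .ofNat (nat_lit 0), .ofNat (nat_lit 0), .ofNat (nat_lit 0), .ofNat (nat_lit 0), .ofNat (nat_lit 0), .ofNat (nat_lit 0)⟩⟩, []⟩
noncomputable def p011_l256 : Lf2 := ⟨nat_lit 0, nat_lit 5, [nat_lit 4, nat_lit 5, nat_lit 5, nat_lit 20], false, nat_lit 0, nat_lit 0, nat_lit 0, nat_lit 0, ⟨nat_lit 257, nat_lit 0, nat_lit 743, nat_lit 6, nat_lit 101, nat_lit 0, nat_lit 0, nat_lit 0, nat_lit 0, nat_lit 215, nat_lit 96267, nat_lit 291, nat_lit 63005535, nat_lit 0, nat_lit 0, nat_lit 1129581, false, false⟩,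
 nat_lit 5316, nat_lit 4110, nat_lit 0, nat_lit 0, nat_lit 5361, nat_lit 2814, nat_lit 882, nat_lit 0, nat_lit 0, nat_lit 607, nat_lit 0, nat_lit 0, nat_lit 0, nat_lit 0, nat_lit 0, nat_lit 297200, nat_lit 0, nat_lit 0, [(nat_lit 6, [(nat_lit 5, nat_lit 743)])],
 ⟨p011_k34, nat_lit 0, nat_lit 0, nat_lit 312, nat_lit 0, nat_lit 287227, [nat_lit 2258092800, nat_lit 1630917601, nat_lit 1387182199], [], [nat_lit 15366196243, nat_lit 15648914576, nat_lit 15194177172, nat_lit 14526349360], nat_lit 1271250, nat_lit 1271250, nat_lit 111251, nat_lit 490000, nat_lit 0, nat_lit 0, [nat_lit 1100000, nat_lit 1442500, nat_lit 1271250], [nat_lit 9, nat_lit 40, nat_lit 20, nat_lit 80, nat_lit 2, nat_lit 226, nat_lit 20, nat_lit 8]⟩, ⟨p011_k65, nat_lit 0, nat_lit 0, nat_lit 0, nat_lit 0, nat_lit 311046, [nat_lit 522224000, nat_lit 1204816000, nat_lit 1606250000, nat_lit 2283573500], [], [nat_lit 6489845220, nat_lit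 5941022553, nat_lit 4581184982, nat_lit 4780496993], nat_lit 1271250, nat_lit 1271250, nat_lit 111251, nat_lit 490000, nat_lit 0, nat_lit 0, [nat_lit 490000, nat_lit 1100000, nat_lit 1442500, nat_lit 1271250], [nat_lit 128, nat_lit 40, nat_lit 20, nat_lit 40]⟩,
 ⟨nat_lit 5916, nat_lit 6021, ⟨.ofNat (nat_lit 185145), .ofNat (nat_lit 304325), .ofNat (nat_lit 195817), .ofNat (nat_lit 314996), .ofNat (nat_lit 189276), .ofNat (nat_lit 307076), .ofNat (nat_lit 199946), .ofNat (nat_lit 317746)⟩, ⟨.ofNat (nat_lit 0), .ofNat (nat_lit 0), .ofNat (nat_lit 0), .ofNat (nat_lit 0), .ofNat (nat_lit 0), .ofNat (nat_lit 0), .ofNat (nat_lit 0), .ofNat (nat_lit 0)⟩⟩, [⟨nat_lit 0, nat_lit 100, nat_lit 99, nat_lit 55, nat_lit 386729307⟩]⟩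
noncomputable def p011_l257 : Lf2 := ⟨nat_lit 0, nat_lit 5, [nat_lit 4, nat_lit 5, nat_lit 5, nat_lit 20], false, nat_lit 0, nat_lit 0, nat_lit 0, nat_lit 0, ⟨nat_lit 407, nat_lit 0, nat_lit 593, nat_lit 6, nat_lit 107, nat_lit 0, nat_lit 0, nat_lit 0, nat_lit 0, nat_lit 215, nat_lit 106667, nat_lit 295, nat_lit 62559827, nat_lit 0, nat_lit 0, nat_lit 1219420, false, false⟩,
 nat_lit 10523, nat_lit 0, nat_lit 0, nat_lit 0, nat_lit 5985, nat_lit 5845, nat_lit 1239, nat_lit 0, nat_lit 0, nat_lit 0, nat_lit 0, nat_lit 0, nat_lit 0, nat_lit 0, nat_lit 0, nat_lit 237200, nat_lit 0, nat_lit 0, [(nat_lit 6, [(nat_lit 5, nat_lit 593)])],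
 ⟨p011_k34, nat_lit 0, nat_lit 0, nat_lit 325, nat_lit 0, nat_lit 329645, [nat_lit 2748652801, nat_lit 2563437601, nat_lit 2707872199], [], [nat_lit 15942985929, nat_lit 16262474089, nat_lit 15909191761, nat_lit 15163631333], nat_lit 1271250, nat_lit 1271250, nat_lit 134400, nat_lit 490000, nat_lit 0, nat_lit 0, [nat_lit 1100000, nat_lit 1442500, nat_lit 1271250], [nat_lit 9, nat_lit 40, nat_lit 20, nat_lit 80, nat_lit 2, nat_lit 226, nat_lit 20, nat_lit 8]⟩, ⟨p011_k29, nat_lit 0, nat_lit 0, nat_lit 0, nat_lit 0, nat_lit 338348, [nat_lit 1908016000, nat_lit 2543750000, nat_lit 3242976000], [], [nat_lit 12055790147, nat_lit 11739100845, nat_lit 8773868223, nat_lit 9206886898], nat_lit 1271250, nat_lit 1271250, nat_lit 134400, nat_lit 490000, nat_lit 0, nat_lit 0, [nat_lit 1100000, nat_lit 1442500, nat_lit 1271250], [nat_lit 9, nat_lit 40, nat_lit 20, nat_lit 80]⟩,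
 ⟨nat_lit 5916, nat_lit 6021, ⟨.ofNat (nat_lit 203762), .ofNat (nat_lit 314996), .ofNat (nat_lit 214433), .ofNat (nat_lit 325667), .ofNat (nat_lit 207799), .ofNat (nat_lit 317746), .ofNat (nat_lit 218469), .ofNat (nat_lit 328416)⟩, ⟨.ofNat (nat_lit 0), .ofNat (nat_lit 0), .ofNat (nat_lit 0), .ofNat (nat_lit 0), .ofNat (nat_lit 0), .ofNat (nat_lit 0), .ofNat (nat_lit 0), .ofNat (nat_lit 0)⟩⟩, [⟨nat_lit 0, nat_lit 100, nat_lit 99, nat_lit 52, nat_lit 593747402⟩]⟩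
noncomputable def b_NL_600_600_0_8 : St := ⟨false, nat_lit 1, nat_lit 1, nat_lit 1, nat_lit 20, nat_lit 250, nat_lit 260, nat_lit 240, nat_lit 260, nat_lit 20, nat_lit 80, nat_lit 0, nat_lit 0, nat_lit 0, nat_lit 0, nat_lit 0, nat_lit 0, nat_lit 0, nat_lit 40, nat_lit 0, nat_lit 0, nat_lit 0, nat_lit 800⟩
theorem d_NL_600_600_0_8 (h : EB TB.env) : Dead b_NL_600_600_0_8 := chkB_sound0 h (T :=
(.spl (nat_lit 6) (nat_lit 20)
(.spl (nat_lit 2) (nat_lit 40)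
(.spl (nat_lit 8) (nat_lit 400)
(.spl (nat_lit 7) (nat_lit 600)
(.spl (nat_lit 1) (nat_lit 250)
(.leaf p011_l218)
(.trZ (nat_lit 0) (nat_lit 100) (nat_lit 100) (nat_lit 50) (nat_lit 24) (.leaf p011_l219)))
(.spl (nat_lit 7) (nat_lit 900)
(.spl (nat_lit 1) (nat_lit 250)
(.spl (nat_lit 6) (nat_lit 8)
(.leaf p011_l220)
(.leaf p011_l221))
(.trZ (nat_lit 0) (nat_lit 100) (nat_lit 100) (nat_lit 50) (nat_lit 24) (.leaf p011_l222)))
(.leaf p011_l223)))
(.spl (nat_lit 1) (nat_lit 250)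
(.spl (nat_lit 6) (nat_lit 8)
(.spl (nat_lit 7) (nat_lit 600)
(.spl (nat_lit 7) (nat_lit 300)
(.leaf p011_l224)
(.leaf p011_l225))
(.leaf p011_l226))
(.spl (nat_lit 7) (nat_lit 600)
(.leaf p011_l227)
(.leaf p011_l228)))
(.trZ (nat_lit 0) (nat_lit 100) (nat_lit 100) (nat_lit 50) (nat_lit 24) (.spl (nat_lit 7) (nat_lit 600)
(.spl (nat_lit 6) (nat_lit 8)
(.spl (nat_lit 7) (nat_lit 300)
(.leaf p011_l229)
(.leaf p011_l230))
(.leaf p011_l231))
(.leaf p011_l232)))))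
(.spl (nat_lit 6) (nat_lit 8)
(.spl (nat_lit 8) (nat_lit 400)
(.leaf p011_l233)
(.spl (nat_lit 0) (nat_lit 255)
(.ord (.spl (nat_lit 6) (nat_lit 4)
(.leaf p011_l234)
(.spl (nat_lit 2) (nat_lit 60)
(.spl (nat_lit 7) (nat_lit 600)
(.leaf p011_l235)
(.leaf p011_l236))
(.leaf p011_l237))))
(.spl (nat_lit 1) (nat_lit 250)
(.spl (nat_lit 6) (nat_lit 4)
(.leaf p011_l238)
(.spl (nat_lit 0) (nat_lit 258)
(.spl (nat_lit 2) (nat_lit 60)
(.spl (nat_lit 2) (nat_lit 48)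
(.leaf p011_l239)
(.leaf p011_l240))
(.leaf p011_l241))
(.spl (nat_lit 0) (nat_lit 259)
(.leaf p011_l242)
(.leaf p011_l243))))
(.leaf p011_l244))))
(.spl (nat_lit 6) (nat_lit 16)
(.spl (nat_lit 1) (nat_lit 250)
(.spl (nat_lit 2) (nat_lit 60)
(.spl (nat_lit 6) (nat_lit 12)
(.spl (nat_lit 0) (nat_lit 255)
(.spl (nat_lit 0) (nat_lit 253)
(.leaf p011_l245)
(.leaf p011_l246))
(.leaf p011_l247))
(.leaf p011_l248))
(.leaf p011_l249))
(.spl (nat_lit 0) (nat_lit 255)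
(.ord (.leaf p011_l250))
(.leaf p011_l251)))
(.leaf p011_l252))))
(.spl (nat_lit 0) (nat_lit 255)
(.ord (.spl (nat_lit 2) (nat_lit 40)
(.spl (nat_lit 0) (nat_lit 253)
(.ord (.leaf p011_l253))
(.leaf p011_l254))
(.leaf p011_l255)))
(.spl (nat_lit 1) (nat_lit 250)
(.leaf p011_l256)
(.trZ (nat_lit 0) (nat_lit 100) (nat_lit 99) (nat_lit 52) (nat_lit 24) (.leaf p011_l257)))))) (by decide +kernel)
noncomputable def p011_l258 : Lf2 := ⟨nat_lit 0, nat_lit 5, [nat_lit 4, nat_lit 5, nat_lit 5, nat_lit 20], true, nat_lit 0, nat_lit 0, nat_lit 0, nat_lit 0, ⟨nat_lit 0, nat_lit 1000, nat_lit 0, nat_lit 6, nat_lit 163, nat_lit 0, nat_lit 0, nat_lit 0, nat_lit 0, nat_lit 0, nat_lit 0, nat_lit 0, nat_lit 0, nat_lit 0, nat_lit 0, nat_lit 5000000, false, false⟩,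
 nat_lit 0, nat_lit 948, nat_lit 0, nat_lit 0, nat_lit 501, nat_lit 0, nat_lit 0, nat_lit 0, nat_lit 250, nat_lit 0, nat_lit 0, nat_lit 0, nat_lit 0, nat_lit 16676983334214, nat_lit 0, nat_lit 313900, nat_lit 0, nat_lit 0, [(nat_lit 6, [(nat_lit 0, nat_lit 574), (nat_lit 1, nat_lit 426)])],
 ⟨p011_k26, nat_lit 0, nat_lit 0, nat_lit 0, nat_lit 0, nat_lit 1169481, [nat_lit 2942377600, nat_lit 3148234934, nat_lit 3568293066], [], [nat_lit 17377893700, nat_lit 17114603170, nat_lit 20861992924, nat_lit 20632432940], nat_lit 1271250, nat_lit 1271250, nat_lit 88400, nat_lit 1704000, nat_lit 0, nat_lit 0, [nat_lit 1100000, nat_lit 1442500, nat_lit 1271250], [nat_lit 11, nat_lit 40, nat_lit 20, nat_lit 80]⟩, C1.Rw.none,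
 ⟨nat_lit 5916, nat_lit 6325, ⟨.ofNat (nat_lit 164319), .ofNat (nat_lit 624961), .ofNat (nat_lit 185687), .ofNat (nat_lit 646322), .ofNat (nat_lit 181423), .ofNat (nat_lit 621173), .ofNat (nat_lit 202762), .ofNat (nat_lit 642505)⟩, ⟨.ofNat (nat_lit 0), .ofNat (nat_lit 0), .ofNat (nat_lit 0), .ofNat (nat_lit 0), .ofNat (nat_lit 0), .ofNat (nat_lit 0), .ofNat (nat_lit 0), .ofNat (nat_lit 0)⟩⟩, []⟩
noncomputable def p011_l259 : Lf2 := ⟨nat_lit 0, nat_lit 5, [nat_lit 4, nat_lit 5, nat_lit 5, nat_lit 20], false, nat_lit 0, nat_lit 0, nat_lit 0, nat_lit 0, ⟨nat_lit 877, nat_lit 123, nat_lit 0, nat_lit 6, nat_lit 318, nat_lit 0, nat_lit 0, nat_lit 0, nat_lit 0, nat_lit 0, nat_lit 0, nat_lit 0, nat_lit 0, nat_lit 0, nat_lit 0, nat_lit 5000000, true, true⟩,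
 nat_lit 0, nat_lit 0, nat_lit 0, nat_lit 0, nat_lit 0, nat_lit 6259, nat_lit 0, nat_lit 0, nat_lit 499, nat_lit 0, nat_lit 0, nat_lit 0, nat_lit 0, nat_lit 0, nat_lit 0, nat_lit 123000, nat_lit 0, nat_lit 0, [(nat_lit 6, [(nat_lit 2, nat_lit 123)])],
 ⟨p011_k35, nat_lit 0, nat_lit 0, nat_lit 0, nat_lit 0, nat_lit 1169481, [nat_lit 4636881200, nat_lit 8754384800], [], [nat_lit 15124889600, nat_lit 15633991600, nat_lit 19391160800, nat_lit 19901608800], nat_lit 1271250, nat_lit 1271250, nat_lit 1271250, nat_lit 1271250, nat_lit 0, nat_lit 0, [nat_lit 1100000, nat_lit 2127500], [nat_lit 70, nat_lit 40, nat_lit 20, nat_lit 80]⟩, ⟨p011_k35, nat_lit 0, nat_lit 0, nat_lit 0, nat_lit 0, nat_lit 0, [nat_lit 4111376000, nat_lit 8631434000], [], [nat_lit 25659347612, nat_lit 26685531746, nat_lit 36470803356, nat_lit 37038801786], nat_lit 0, nat_lit 0, nat_lit 0, nat_lit 0, nat_lit 0, nat_lit 0, [], [nat_lit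 70, nat_lit 40, nat_lit 20, nat_lit 80]⟩,
 ⟨nat_lit 5916, nat_lit 6325, ⟨.ofNat (nat_lit 624961), .ofNat (nat_lit 953920), .ofNat (nat_lit 646322), .ofNat (nat_lit 975281), .ofNat (nat_lit 621173), .ofNat (nat_lit 935210), .ofNat (nat_lit 642505), .ofNat (nat_lit 956542)⟩, ⟨.ofNat (nat_lit 0), .ofNat (nat_lit 0), .ofNat (nat_lit 0), .ofNat (nat_lit 0), .ofNat (nat_lit 0), .ofNat (nat_lit 0), .ofNat (nat_lit 0), .ofNat (nat_lit 0)⟩⟩, [⟨nat_lit 13, nat_lit 97, nat_lit 11, nat_lit 100, nat_lit 36234876⟩]⟩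
noncomputable def p011_l260 : Lf2 := ⟨nat_lit 0, nat_lit 5, [nat_lit 4, nat_lit 5, nat_lit 5, nat_lit 20], true, nat_lit 0, nat_lit 0, nat_lit 0, nat_lit 0, ⟨nat_lit 0, nat_lit 1000, nat_lit 0, nat_lit 6, nat_lit 96, nat_lit 0, nat_lit 0, nat_lit 0, nat_lit 0, nat_lit 0, nat_lit 0, nat_lit 0, nat_lit 0, nat_lit 0, nat_lit 0, nat_lit 5000000, false, false⟩,
 nat_lit 0, nat_lit 5034, nat_lit 0, nat_lit 0, nat_lit 2665, nat_lit 0, nat_lit 575, nat_lit 0, nat_lit 0, nat_lit 0, nat_lit 0, nat_lit 0, nat_lit 0, nat_lit 22023080464040, nat_lit 0, nat_lit 400000, nat_lit 0, nat_lit 0, [(nat_lit 6, [(nat_lit 1, nat_lit 1000)])],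
 ⟨p011_k26, nat_lit 0, nat_lit 0, nat_lit 495, nat_lit 0, nat_lit 472791, [nat_lit 2692266667, nat_lit 3151066667, nat_lit 3294533333], [], [nat_lit 30514412748, nat_lit 30799297955, nat_lit 31418205948, nat_lit 30781686688], nat_lit 1271250, nat_lit 1271250, nat_lit 88400, nat_lit 490000, nat_lit 0, nat_lit 0, [nat_lit 1100000, nat_lit 1442500, nat_lit 1271250], [nat_lit 11, nat_lit 40, nat_lit 20, nat_lit 80, nat_lit 1, nat_lit 317, nat_lit 100, nat_lit 10]⟩, C1.Rw.none,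
 ⟨nat_lit 6123, nat_lit 6325, ⟨.ofNat (nat_lit 164319), .ofNat (nat_lit 295942), .ofNat (nat_lit 175003), .ofNat (nat_lit 306625), .ofNat (nat_lit 172944), .ofNat (nat_lit 301553), .ofNat (nat_lit 183618), .ofNat (nat_lit 312227)⟩, ⟨.ofNat (nat_lit 0), .ofNat (nat_lit 0), .ofNat (nat_lit 0), .ofNat (nat_lit 0), .ofNat (nat_lit 0), .ofNat (nat_lit 0), .ofNat (nat_lit 0), .ofNat (nat_lit 0)⟩⟩, []⟩
noncomputable def p011_l261 : Lf2 := ⟨nat_lit 0, nat_lit 5, [nat_lit 4, nat_lit 5, nat_lit 5, nat_lit 20], false, nat_lit 0, nat_lit 0, nat_lit 0, nat_lit 0, ⟨nat_lit 1000, nat_lit 0, nat_lit 0, nat_lit 0, nat_lit 0, nat_lit 0, nat_lit 0, nat_lit 0, nat_lit 0, nat_lit 0, nat_lit 0, nat_lit 0, nat_lit 0, nat_lit 0, nat_lit 0, nat_lit 0, false, false⟩,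
 nat_lit 0, nat_lit 15317, nat_lit 0, nat_lit 0, nat_lit 8108, nat_lit 10648, nat_lit 1931, nat_lit 0, nat_lit 0, nat_lit 4112, nat_lit 0, nat_lit 0, nat_lit 0, nat_lit 4163078225131, nat_lit 0, nat_lit 0, nat_lit 0, nat_lit 0, [],
 ⟨p011_k26, nat_lit 0, nat_lit 0, nat_lit 631, nat_lit 0, nat_lit 855451, [nat_lit 4688000000, nat_lit 6250000000, nat_lit 9842000000], [], [nat_lit 29400355264, nat_lit 28363224792, nat_lit 31884095616, nat_lit 30902301950], nat_lit 1271250, nat_lit 1271250, nat_lit 490000, nat_lit 1100001, nat_lit 0, nat_lit 0, [nat_lit 1100000, nat_lit 1442500, nat_lit 1271250], [nat_lit 11, nat_lit 40, nat_lit 20, nat_lit 80, nat_lit 1, nat_lit 345, nat_lit 125, nat_lit 10]⟩, ⟨p011_k26, nat_lit 0, nat_lit 0, nat_lit 0, nat_lit 0, nat_lit 0, [nat_lit 4688000000, nat_lit 6250000000, nat_lit 9842000000], [], [nat_lit 12818855456, nat_lit 13542939696, nat_lit 13315219136, nat_lit 13950864304],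 nat_lit 0, nat_lit 0, nat_lit 0, nat_lit 0, nat_lit 0, nat_lit 0, [], [nat_lit 11, nat_lit 40, nat_lit 20, nat_lit 80]⟩,
 zbF0, []⟩
noncomputable def p011_l262 : Lf2 := ⟨nat_lit 0, nat_lit 5, [nat_lit 4, nat_lit 5, nat_lit 5, nat_lit 20], false, nat_lit 0, nat_lit 0, nat_lit 0, nat_lit 0, ⟨nat_lit 1000, nat_lit 0, nat_lit 0, nat_lit 0, nat_lit 0, nat_lit 0, nat_lit 0, nat_lit 0, nat_lit 0, nat_lit 0, nat_lit 0, nat_lit 0, nat_lit 0, nat_lit 0, nat_lit 0, nat_lit 0, false, false⟩,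
 nat_lit 0, nat_lit 14238, nat_lit 0, nat_lit 0, nat_lit 7723, nat_lit 6878, nat_lit 5809, nat_lit 0, nat_lit 0, nat_lit 0, nat_lit 0, nat_lit 0, nat_lit 0, nat_lit 37341605546410, nat_lit 0, nat_lit 0, nat_lit 0, nat_lit 0, [],
 ⟨p011_k30, nat_lit 0, nat_lit 0, nat_lit 657, nat_lit 0, nat_lit 925016, [nat_lit 4688000000, nat_lit 6250000000, nat_lit 9842000000], [], [nat_lit 28631217451, nat_lit 27640798164, nat_lit 29007297638, nat_lit 28072123429], nat_lit 1271250, nat_lit 1271250, nat_lit 490000, nat_lit 1100001, nat_lit 0, nat_lit 0, [nat_lit 1100000, nat_lit 1442500, nat_lit 1271250], [nat_lit 11, nat_lit 40, nat_lit 20, nat_lit 80, nat_lit 1, nat_lit 345, nat_lit 125, nat_lit 10]⟩, ⟨p011_k68, nat_lit 0, nat_lit 0, nat_lit 0, nat_lit 0, nat_lit 0, [nat_lit 4688000000, nat_lit 6250000000, nat_lit 8885500000], [], [nat_lit 10957569856, nat_lit 12125857838, nat_lit 12274014632, nat_lit 13309393574],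 nat_lit 0, nat_lit 0, nat_lit 0, nat_lit 0, nat_lit 0, nat_lit 0, [], [nat_lit 123, nat_lit 40, nat_lit 20, nat_lit 40]⟩,
 zbF0, []⟩
noncomputable def p011_l263 : Lf2 := ⟨nat_lit 0, nat_lit 5, [nat_lit 4, nat_lit 5, nat_lit 5, nat_lit 20], false, nat_lit 0, nat_lit 0, nat_lit 0, nat_lit 0, ⟨nat_lit 1000, nat_lit 0, nat_lit 0, nat_lit 0, nat_lit 0, nat_lit 0, nat_lit 0, nat_lit 0, nat_lit 0, nat_lit 0, nat_lit 0, nat_lit 0, nat_lit 0, nat_lit 0, nat_lit 0, nat_lit 0, false, false⟩,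
 nat_lit 0, nat_lit 14037, nat_lit 0, nat_lit 0, nat_lit 7431, nat_lit 11066, nat_lit 1646, nat_lit 0, nat_lit 0, nat_lit 4130, nat_lit 0, nat_lit 0, nat_lit 0, nat_lit 2025982341825, nat_lit 0, nat_lit 0, nat_lit 0, nat_lit 0, [],
 ⟨p011_k26, nat_lit 0, nat_lit 0, nat_lit 638, nat_lit 0, nat_lit 957208, [nat_lit 4688000000, nat_lit 6250000000, nat_lit 9842000000], [], [nat_lit 34403562884, nat_lit 32469069747, nat_lit 33210424328, nat_lit 33434582653], nat_lit 1271250, nat_lit 1271250, nat_lit 1100001, nat_lit 1785000, nat_lit 0, nat_lit 0, [nat_lit 1100000, nat_lit 1442500, nat_lit 1271250], [nat_lit 11, nat_lit 40, nat_lit 20, nat_lit 80, nat_lit 1, nat_lit 345, nat_lit 125, nat_lit 10]⟩, ⟨p011_k26, nat_lit 0, nat_lit 0, nat_lit 0, nat_lit 0, nat_lit 0, [nat_lit 4688000000, nat_lit 6250000000, nat_lit 9842000000], [], [nat_lit 13023175912, nat_lit 14330145474, nat_lit 19919423264, nat_lit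 21305275434], nat_lit 0, nat_lit 0, nat_lit 0, nat_lit 0, nat_lit 0, nat_lit 0, [], [nat_lit 11, nat_lit 40, nat_lit 20, nat_lit 80]⟩,
 zbF0, []⟩
noncomputable def p011_l264 : Lf2 := ⟨nat_lit 0, nat_lit 5, [nat_lit 4, nat_lit 5, nat_lit 5, nat_lit 20], false, nat_lit 0, nat_lit 0, nat_lit 0, nat_lit 0, ⟨nat_lit 1000, nat_lit 0, nat_lit 0, nat_lit 0, nat_lit 0, nat_lit 0, nat_lit 0, nat_lit 0, nat_lit 0, nat_lit 0, nat_lit 0, nat_lit 0, nat_lit 0, nat_lit 0, nat_lit 0, nat_lit 0, false, false⟩,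
 nat_lit 0, nat_lit 14759, nat_lit 0, nat_lit 0, nat_lit 7813, nat_lit 5883, nat_lit 1481, nat_lit 0, nat_lit 0, nat_lit 4616, nat_lit 0, nat_lit 0, nat_lit 0, nat_lit 0, nat_lit 0, nat_lit 0, nat_lit 0, nat_lit 0, [],
 ⟨p011_k26, nat_lit 0, nat_lit 0, nat_lit 620, nat_lit 0, nat_lit 957208, [nat_lit 4688000000, nat_lit 6250000000, nat_lit 9842000000], [], [nat_lit 33205445846, nat_lit 33360154863, nat_lit 37804483664, nat_lit 37926994618], nat_lit 1271250, nat_lit 1271250, nat_lit 1271250, nat_lit 1271250, nat_lit 0, nat_lit 0, [nat_lit 1100000, nat_lit 1442500, nat_lit 1271250], [nat_lit 11, nat_lit 40, nat_lit 20, nat_lit 80, nat_lit 1, nat_lit 401, nat_lit 175, nat_lit 11]⟩, ⟨p011_k26, nat_lit 0, nat_lit 0, nat_lit 0, nat_lit 0, nat_lit 0, [nat_lit 4688000000, nat_lit 6250000000, nat_lit 9842000000], [], [nat_lit 23022746540, nat_lit 23627077765, nat_lit 34380115708, nat_lit 34718398409],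 nat_lit 0, nat_lit 0, nat_lit 0, nat_lit 0, nat_lit 0, nat_lit 0, [], [nat_lit 11, nat_lit 40, nat_lit 20, nat_lit 80]⟩,
 zbF0, []⟩
noncomputable def p011_l265 : Lf2 := ⟨nat_lit 0, nat_lit 5, [nat_lit 4, nat_lit 5, nat_lit 5, nat_lit 20], true, nat_lit 0, nat_lit 0, nat_lit 0, nat_lit 0, ⟨nat_lit 0, nat_lit 1000, nat_lit 0, nat_lit 6, nat_lit 102, nat_lit 0, nat_lit 0, nat_lit 0, nat_lit 0, nat_lit 0, nat_lit 0, nat_lit 0, nat_lit 0, nat_lit 0, nat_lit 0, nat_lit 5000000, false, false⟩,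
 nat_lit 0, nat_lit 4745, nat_lit 0, nat_lit 0, nat_lit 2636, nat_lit 0, nat_lit 507, nat_lit 0, nat_lit 0, nat_lit 0, nat_lit 0, nat_lit 0, nat_lit 0, nat_lit 22654843565049, nat_lit 0, nat_lit 400000, nat_lit 0, nat_lit 0, [(nat_lit 6, [(nat_lit 1, nat_lit 1000)])],
 ⟨p011_k29, nat_lit 0, nat_lit 0, nat_lit 440, nat_lit 0, nat_lit 536625, [nat_lit 2692266667, nat_lit 3030400001, nat_lit 3280799999], [], [nat_lit 29575086438, nat_lit 29905592750, nat_lit 30501298870, nat_lit 29871706086], nat_lit 1271250, nat_lit 1271250, nat_lit 111251, nat_lit 490000, nat_lit 0, nat_lit 0, [nat_lit 1100000, nat_lit 1442500, nat_lit 1271250], [nat_lit 9, nat_lit 40, nat_lit 20, nat_lit 80, nat_lit 2, nat_lit 226, nat_lit 20, nat_lit 8]⟩, C1.Rw.none,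
 ⟨nat_lit 5916, nat_lit 6124, ⟨.ofNat (nat_lit 180982), .ofNat (nat_lit 301553), .ofNat (nat_lit 202330), .ofNat (nat_lit 322901), .ofNat (nat_lit 189276), .ofNat (nat_lit 307076), .ofNat (nat_lit 210615), .ofNat (nat_lit 328416)⟩, ⟨.ofNat (nat_lit 0), .ofNat (nat_lit 0), .ofNat (nat_lit 0), .ofNat (nat_lit 0), .ofNat (nat_lit 0), .ofNat (nat_lit 0), .ofNat (nat_lit 0), .ofNat (nat_lit 0)⟩⟩, []⟩
noncomputable def p011_l266 : Lf2 := ⟨nat_lit 0, nat_lit 5, [nat_lit 4, nat_lit 5, nat_lit 5, nat_lit 20], false, nat_lit 0, nat_lit 0, nat_lit 0, nat_lit 0, ⟨nat_lit 1000, nat_lit 0, nat_lit 0, nat_lit 0, nat_lit 0, nat_lit 0, nat_lit 0, nat_lit 0, nat_lit 0, nat_lit 0, nat_lit 0, nat_lit 0, nat_lit 0, nat_lit 0, nat_lit 0, nat_lit 0, false, false⟩,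
 nat_lit 0, nat_lit 12603, nat_lit 0, nat_lit 0, nat_lit 7001, nat_lit 6878, nat_lit 5048, nat_lit 0, nat_lit 0, nat_lit 0, nat_lit 0, nat_lit 0, nat_lit 0, nat_lit 0, nat_lit 0, nat_lit 0, nat_lit 0, nat_lit 0, [],
 ⟨p011_k29, nat_lit 0, nat_lit 0, nat_lit 622, nat_lit 0, nat_lit 984917, [nat_lit 4688000000, nat_lit 6250000000, nat_lit 7968000000], [], [nat_lit 28241133279, nat_lit 26704544488, nat_lit 26099523786, nat_lit 26419623848], nat_lit 1271250, nat_lit 1271250, nat_lit 490000, nat_lit 780000, nat_lit 0, nat_lit 0, [nat_lit 1100000, nat_lit 1442500, nat_lit 1271250], [nat_lit 9, nat_lit 40, nat_lit 20, nat_lit 80, nat_lit 2, nat_lit 238, nat_lit 30, nat_lit 8]⟩, ⟨p011_k68, nat_lit 0, nat_lit 0, nat_lit 0, nat_lit 0, nat_lit 0, [nat_lit 4688000000, nat_lit 6250000000, nat_lit 8885500000], [], [nat_lit 10957569856, nat_lit 12125857838, nat_lit 11056597424, nat_lit 12165988790], nat_lit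 0, nat_lit 0, nat_lit 0, nat_lit 0, nat_lit 0, nat_lit 0, [], [nat_lit 123, nat_lit 40, nat_lit 20, nat_lit 40]⟩,
 zbF0, []⟩
noncomputable def p011_l267 : Lf2 := ⟨nat_lit 0, nat_lit 5, [nat_lit 4, nat_lit 5, nat_lit 5, nat_lit 20], false, nat_lit 0, nat_lit 0, nat_lit 0, nat_lit 0, ⟨nat_lit 1000, nat_lit 0, nat_lit 0, nat_lit 0, nat_lit 0, nat_lit 0, nat_lit 0, nat_lit 0, nat_lit 0, nat_lit 0, nat_lit 0, nat_lit 0, nat_lit 0, nat_lit 0, nat_lit 0, nat_lit 0, false, false⟩,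
 nat_lit 0, nat_lit 13736, nat_lit 0, nat_lit 0, nat_lit 7631, nat_lit 6725, nat_lit 5644, nat_lit 0, nat_lit 0, nat_lit 0, nat_lit 0, nat_lit 0, nat_lit 0, nat_lit 4889873064832, nat_lit 0, nat_lit 0, nat_lit 0, nat_lit 0, [],
 ⟨p011_k29, nat_lit 0, nat_lit 0, nat_lit 667, nat_lit 0, nat_lit 1092630, [nat_lit 4688000000, nat_lit 6250000000, nat_lit 7968000000], [], [nat_lit 27717149049, nat_lit 25759699408, nat_lit 25150436624, nat_lit 25493351384], nat_lit 1271250, nat_lit 1271250, nat_lit 490000, nat_lit 780000, nat_lit 0, nat_lit 0, [nat_lit 1100000, nat_lit 1442500, nat_lit 1271250], [nat_lit 9, nat_lit 40, nat_lit 20, nat_lit 80, nat_lit 2, nat_lit 238, nat_lit 30, nat_lit 8]⟩, ⟨p011_k29, nat_lit 0, nat_lit 0, nat_lit 0, nat_lit 0, nat_lit 0, [nat_lit 4688000000, nat_lit 6250000000, nat_lit 7968000000], [], [nat_lit 12215619725, nat_lit 13366868250, nat_lit 12277479125, nat_lit 13370882450],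 nat_lit 0, nat_lit 0, nat_lit 0, nat_lit 0, nat_lit 0, nat_lit 0, [], [nat_lit 9, nat_lit 40, nat_lit 20, nat_lit 80]⟩,
 zbF0, []⟩
noncomputable def p011_l268 : Lf2 := ⟨nat_lit 0, nat_lit 5, [nat_lit 4, nat_lit 5, nat_lit 5, nat_lit 20], false, nat_lit 0, nat_lit 0, nat_lit 0, nat_lit 0, ⟨nat_lit 1000, nat_lit 0, nat_lit 0, nat_lit 0, nat_lit 0, nat_lit 0, nat_lit 0, nat_lit 0, nat_lit 0, nat_lit 0, nat_lit 0, nat_lit 0, nat_lit 0, nat_lit 0, nat_lit 0, nat_lit 0, false, false⟩,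
 nat_lit 0, nat_lit 13503, nat_lit 0, nat_lit 0, nat_lit 7501, nat_lit 10675, nat_lit 1836, nat_lit 0, nat_lit 0, nat_lit 3707, nat_lit 0, nat_lit 0, nat_lit 0, nat_lit 54296983043516, nat_lit 0, nat_lit 0, nat_lit 0, nat_lit 0, [],
 ⟨p011_k29, nat_lit 0, nat_lit 0, nat_lit 649, nat_lit 0, nat_lit 1092630, [nat_lit 4688000000, nat_lit 6250000000, nat_lit 7968000000], [], [nat_lit 32530330475, nat_lit 30581067852, nat_lit 37356613353, nat_lit 35589355250], nat_lit 1271250, nat_lit 1271250, nat_lit 780000, nat_lit 1762500, nat_lit 0, nat_lit 0, [nat_lit 1100000, nat_lit 1442500, nat_lit 1271250], [nat_lit 9, nat_lit 40, nat_lit 20, nat_lit 80, nat_lit 2, nat_lit 272, nat_lit 60, nat_lit 9]⟩, ⟨p011_k26, nat_lit 0, nat_lit 0, nat_lit 0, nat_lit 0, nat_lit 0, [nat_lit 4688000000, nat_lit 6250000000, nat_lit 9842000000], [], [nat_lit 12879096350, nat_lit 15009244300, nat_lit 19655301200, nat_lit 22356042950],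 nat_lit 0, nat_lit 0, nat_lit 0, nat_lit 0, nat_lit 0, nat_lit 0, [], [nat_lit 11, nat_lit 40, nat_lit 20, nat_lit 80]⟩,
 zbF0, []⟩
noncomputable def p011_l269 : Lf2 := ⟨nat_lit 0, nat_lit 5, [nat_lit 4, nat_lit 5, nat_lit 5, nat_lit 20], false, nat_lit 0, nat_lit 0, nat_lit 0, nat_lit 0, ⟨nat_lit 1000, nat_lit 0, nat_lit 0, nat_lit 0, nat_lit 0, nat_lit 0, nat_lit 0, nat_lit 0, nat_lit 0, nat_lit 0, nat_lit 0, nat_lit 0, nat_lit 0, nat_lit 0, nat_lit 0, nat_lit 0, false, false⟩,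
 nat_lit 0, nat_lit 13519, nat_lit 0, nat_lit 0, nat_lit 7510, nat_lit 6288, nat_lit 5550, nat_lit 0, nat_lit 0, nat_lit 0, nat_lit 0, nat_lit 0, nat_lit 0, nat_lit 0, nat_lit 0, nat_lit 0, nat_lit 0, nat_lit 0, [],
 ⟨p011_k36, nat_lit 0, nat_lit 0, nat_lit 618, nat_lit 0, nat_lit 1092630, [nat_lit 4688000000, nat_lit 7968000000], [], [nat_lit 27172668860, nat_lit 27432361080, nat_lit 32406399100, nat_lit 32540001160], nat_lit 1271250, nat_lit 1271250, nat_lit 1271250, nat_lit 1271250, nat_lit 0, nat_lit 0, [nat_lit 1100000, nat_lit 1785000], [nat_lit 39, nat_lit 40, nat_lit 20, nat_lit 80, nat_lit 7, nat_lit 237, nat_lit 0, nat_lit 7]⟩, ⟨p011_k35, nat_lit 0, nat_lit 0, nat_lit 0, nat_lit 0, nat_lit 0, [nat_lit 4688000000, nat_lit 9842000000], [], [nat_lit 30184546976, nat_lit 31193333584, nat_lit 40737241728, nat_lit 41368582816], nat_lit 0, nat_lit 0, nat_lit 0, nat_lit 0, nat_lit 0, nat_lit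 0, [], [nat_lit 70, nat_lit 40, nat_lit 20, nat_lit 80]⟩,
 zbF0, []⟩
noncomputable def p011_l270 : Lf2 := ⟨nat_lit 3, nat_lit 5, [nat_lit 4, nat_lit 5, nat_lit 5, nat_lit 20], false, nat_lit 0, nat_lit 0, nat_lit 0, nat_lit 0, zbN0,
 nat_lit 0, nat_lit 0, nat_lit 0, nat_lit 0, nat_lit 0, nat_lit 0, nat_lit 0, nat_lit 0, nat_lit 0, nat_lit 0, nat_lit 0, nat_lit 0, nat_lit 0, nat_lit 0, nat_lit 0, nat_lit 0, nat_lit 0, nat_lit 0, [],
 C1.Rw.none, ⟨p011_k32, nat_lit 0, nat_lit 0, nat_lit 241, nat_lit 0, nat_lit 0, [], [], [], nat_lit 0, nat_lit 0, nat_lit 0, nat_lit 0, nat_lit 0, nat_lit 0, [], [nat_lit 29, nat_lit 40, nat_lit 20, nat_lit 80, nat_lit 17, nat_lit 401, nat_lit 175, nat_lit 12]⟩,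
 zbF0, []⟩
noncomputable def p011_l271 : Lf2 := ⟨nat_lit 0, nat_lit 5, [nat_lit 4, nat_lit 5, nat_lit 5, nat_lit 20], false, nat_lit 0, nat_lit 0, nat_lit 0, nat_lit 0, ⟨nat_lit 39, nat_lit 961, nat_lit 0, nat_lit 6, nat_lit 161, nat_lit 0, nat_lit 0, nat_lit 0, nat_lit 0, nat_lit 0, nat_lit 0, nat_lit 0, nat_lit 0, nat_lit 0, nat_lit 0, nat_lit 5000000, false, false⟩,
 nat_lit 5194, nat_lit 0, nat_lit 0, nat_lit 0, nat_lit 2749, nat_lit 741, nat_lit 595, nat_lit 0, nat_lit 0, nat_lit 0, nat_lit 0, nat_lit 0, nat_lit 0, nat_lit 19869229385467, nat_lit 0, nat_lit 384400, nat_lit 0, nat_lit 0, [(nat_lit 6, [(nat_lit 1, nat_lit 961)])],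
 ⟨p011_k26, nat_lit 0, nat_lit 0, nat_lit 495, nat_lit 0, nat_lit 472791, [nat_lit 2770100267, nat_lit 3271925067, nat_lit 3543800533], [], [nat_lit 31332286302, nat_lit 31188759583, nat_lit 33600560945, nat_lit 32952888298], nat_lit 1271250, nat_lit 1271250, nat_lit 88400, nat_lit 1704000, nat_lit 0, nat_lit 0, [nat_lit 1100000, nat_lit 1442500, nat_lit 1271250], [nat_lit 11, nat_lit 40, nat_lit 20, nat_lit 80, nat_lit 1, nat_lit 345, nat_lit 125, nat_lit 10]⟩, ⟨p011_k26, nat_lit 0, nat_lit 0, nat_lit 495, nat_lit 0, nat_lit 472791, [nat_lit 182832000, nat_lit 243750000, nat_lit 383838000], [], [nat_lit 2143077176, nat_lit 1948368311, nat_lit 1240694364, nat_lit 1170704223], nat_lit 1271250, nat_lit 1271250, nat_lit 88400, nat_lit 1704000, nat_lit 0, nat_lit 0, [nat_lit 1100000, nat_lit 1442500, nat_lit 1271250], [nat_lit 11, nat_lit 40, nat_lit 20, nat_lit 80, nat_lit 1, nat_lit 345, nat_lit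 125, nat_lit 10]⟩,
 ⟨nat_lit 6123, nat_lit 6325, ⟨.ofNat (nat_lit 164319), .ofNat (nat_lit 624989), .ofNat (nat_lit 175003), .ofNat (nat_lit 635673), .ofNat (nat_lit 172944), .ofNat (nat_lit 623066), .ofNat (nat_lit 183618), .ofNat (nat_lit 633740)⟩, ⟨.ofNat (nat_lit 0), .ofNat (nat_lit 0), .ofNat (nat_lit 0), .ofNat (nat_lit 0), .ofNat (nat_lit 0), .ofNat (nat_lit 0), .ofNat (nat_lit 0), .ofNat (nat_lit 0)⟩⟩, []⟩
noncomputable def p011_l272 : Lf2 := ⟨nat_lit 0, nat_lit 5, [nat_lit 4, nat_lit 5, nat_lit 5, nat_lit 20], false, nat_lit 0, nat_lit 0, nat_lit 0, nat_lit 0, ⟨nat_lit 46, nat_lit 954, nat_lit 0, nat_lit 6, nat_lit 166, nat_lit 0, nat_lit 0, nat_lit 0, nat_lit 0, nat_lit 0, nat_lit 0, nat_lit 0, nat_lit 0, nat_lit 0, nat_lit 0, nat_lit 5000000, false, false⟩,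
 nat_lit 1215, nat_lit 4123, nat_lit 0, nat_lit 0, nat_lit 2965, nat_lit 643, nat_lit 615, nat_lit 0, nat_lit 0, nat_lit 28, nat_lit 0, nat_lit 0, nat_lit 0, nat_lit 18740613170758, nat_lit 0, nat_lit 381600, nat_lit 0, nat_lit 0, [(nat_lit 6, [(nat_lit 1, nat_lit 954)])],
 ⟨p011_k29, nat_lit 0, nat_lit 0, nat_lit 440, nat_lit 0, nat_lit 536625, [nat_lit 2784070400, nat_lit 3178501601, nat_lit 3494617199], [], [nat_lit 30519045200, nat_lit 29741135940, nat_lit 32129009747, nat_lit 31493509359], nat_lit 1271250, nat_lit 1271250, nat_lit 111251, nat_lit 1706250, nat_lit 0, nat_lit 0, [nat_lit 1100000, nat_lit 1442500, nat_lit 1271250], [nat_lit 9, nat_lit 40, nat_lit 20, nat_lit 80, nat_lit 2, nat_lit 272, nat_lit 60, nat_lit 9]⟩, ⟨p011_k26, nat_lit 0, nat_lit 0, nat_lit 562, nat_lit 0, nat_lit 566178, [nat_lit 215648000, nat_lit 287500000, nat_lit 452732000], [], [nat_lit 2205549004, nat_lit 1868148900,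 nat_lit 1606923760, nat_lit 1335819992], nat_lit 1271250, nat_lit 1271250, nat_lit 111251, nat_lit 1706250, nat_lit 0, nat_lit 0, [nat_lit 1100000, nat_lit 1442500, nat_lit 1271250], [nat_lit 11, nat_lit 40, nat_lit 20, nat_lit 80, nat_lit 1, nat_lit 345, nat_lit 125, nat_lit 10]⟩,
 ⟨nat_lit 5916, nat_lit 6124, ⟨.ofNat (nat_lit 180982), .ofNat (nat_lit 623067), .ofNat (nat_lit 202330), .ofNat (nat_lit 644413), .ofNat (nat_lit 189276), .ofNat (nat_lit 621203), .ofNat (nat_lit 210615), .ofNat (nat_lit 642539)⟩, ⟨.ofNat (nat_lit 0), .ofNat (nat_lit 0), .ofNat (nat_lit 0), .ofNat (nat_lit 0), .ofNat (nat_lit 0), .ofNat (nat_lit 0), .ofNat (nat_lit 0), .ofNat (nat_lit 0)⟩⟩, []⟩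
noncomputable def p011_l273 : Lf2 := ⟨nat_lit 0, nat_lit 5, [nat_lit 4, nat_lit 5, nat_lit 5, nat_lit 20], false, nat_lit 0, nat_lit 0, nat_lit 0, nat_lit 0, ⟨nat_lit 829, nat_lit 171, nat_lit 0, nat_lit 6, nat_lit 318, nat_lit 0, nat_lit 0, nat_lit 0, nat_lit 0, nat_lit 0, nat_lit 0, nat_lit 0, nat_lit 0, nat_lit 0, nat_lit 0, nat_lit 5000000, true, true⟩,
 nat_lit 11722, nat_lit 0, nat_lit 0, nat_lit 0, nat_lit 6205, nat_lit 6205, nat_lit 1292, nat_lit 0, nat_lit 0, nat_lit 1389, nat_lit 0, nat_lit 0, nat_lit 0, nat_lit 0, nat_lit 0, nat_lit 68400, nat_lit 0, nat_lit 0, [(nat_lit 6, [(nat_lit 1, nat_lit 171)])],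
 ⟨p011_k26, nat_lit 0, nat_lit 0, nat_lit 458, nat_lit 0, nat_lit 566178, [nat_lit 4346729601, nat_lit 5720082401, nat_lit 8700951200], [], [nat_lit 32292979682, nat_lit 32764443692, nat_lit 37507265723, nat_lit 37846875704], nat_lit 1271250, nat_lit 1271250, nat_lit 1271250, nat_lit 1271250, nat_lit 0, nat_lit 0, [nat_lit 1100000, nat_lit 1442500, nat_lit 1271250], [nat_lit 11, nat_lit 40, nat_lit 20, nat_lit 80, nat_lit 1, nat_lit 401, nat_lit 175, nat_lit 11]⟩, ⟨p011_k26, nat_lit 0, nat_lit 0, nat_lit 458, nat_lit 0, nat_lit 566178, [nat_lit 3886352000, nat_lit 5181250000, nat_lit 8159018000], [], [nat_lit 24188840968, nat_lit 24587241466, nat_lit 31133916376, nat_lit 31982848352], nat_lit 1271250, nat_lit 1271250, nat_lit 1271250, nat_lit 1271250, nat_lit 0, nat_lit 0, [nat_lit 1100000, nat_lit 1442500, nat_lit 1271250], [nat_lit 11, nat_lit 40, nat_lit 20, nat_lit 80, nat_lit 1, nat_lit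 401, nat_lit 175, nat_lit 11]⟩,
 ⟨nat_lit 5916, nat_lit 6325, ⟨.ofNat (nat_lit 624961), .ofNat (nat_lit 953920), .ofNat (nat_lit 646322), .ofNat (nat_lit 975281), .ofNat (nat_lit 621173), .ofNat (nat_lit 935210), .ofNat (nat_lit 642505), .ofNat (nat_lit 956542)⟩, ⟨.ofNat (nat_lit 0), .ofNat (nat_lit 0), .ofNat (nat_lit 0), .ofNat (nat_lit 0), .ofNat (nat_lit 0), .ofNat (nat_lit 0), .ofNat (nat_lit 0), .ofNat (nat_lit 0)⟩⟩, []⟩
noncomputable def b_NL_600_600_0_9 : St := ⟨false, nat_lit 1, nat_lit 2, nat_lit 2, nat_lit 20, nat_lit 240, nat_lit 260, nat_lit 240, nat_lit 260, nat_lit 16, nat_lit 400, nat_lit 0, nat_lit 0, nat_lit 0, nat_lit 0, nat_lit 0, nat_lit 0, nat_lit 0, nat_lit 40, nat_lit 0, nat_lit 0, nat_lit 0, nat_lit 0⟩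
theorem d_NL_600_600_0_9 (h : EB TB.env) : Dead b_NL_600_600_0_9 := chkB_sound0 h (T :=
(.st (nat_lit 1)
(.spl (nat_lit 8) (nat_lit 800)
(.spl (nat_lit 7) (nat_lit 600)
(.spl (nat_lit 2) (nat_lit 240)
(.leaf p011_l258)
(.leaf p011_l259))
(.spl (nat_lit 0) (nat_lit 250)
(.ord (.spl (nat_lit 2) (nat_lit 240)
(.spl (nat_lit 2) (nat_lit 160)
(.spl (nat_lit 2) (nat_lit 80)
(.leaf p011_l260)
(.spl (nat_lit 0) (nat_lit 245)
(.ord (.leaf p011_l261))
(.leaf p011_l262)))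
(.leaf p011_l263))
(.leaf p011_l264)))
(.trZ (nat_lit 0) (nat_lit 100) (nat_lit 99) (nat_lit 45) (nat_lit 20) (.spl (nat_lit 2) (nat_lit 120)
(.spl (nat_lit 2) (nat_lit 80)
(.leaf p011_l265)
(.spl (nat_lit 1) (nat_lit 250)
(.leaf p011_l266)
(.leaf p011_l267)))
(.spl (nat_lit 2) (nat_lit 240)
(.leaf p011_l268)
(.leaf p011_l269))))))
(.leaf p011_l270))
(.spl (nat_lit 2) (nat_lit 240)
(.spl (nat_lit 0) (nat_lit 250)
(.ord (.leaf p011_l271))
(.trZ (nat_lit 0) (nat_lit 100) (nat_lit 99) (nat_lit 45) (nat_lit 20) (.leaf p011_l272)))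
(.leaf p011_l273)))) (by decide +kernel)

end B2
end Pool.Agent.Lib.MP_6947cd_al
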