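import Pool.Agent.Lib.MP_6947cd_al.ZB.Pre

/-!
Problem MP_6947cd_al (Chollet).  Case B, second entry in [2/5, 17/20]: certificates of the tree, part P012 (generated).
-/

set_option autoImplicit false
set_option linter.all false

namespace Pool.Agent.Lib.MP_6947cd_al
namespace B2

open Ent Fr B1 PkA

noncomputable def p012_k0 : C1.Kn := ⟨[nat_lit 80, nat_lit 100, nat_lit 140], [nat_lit 0, nat_lit 0, nat_lit 1022], [(nat_lit 0, nat_lit 0, nat_lit 0), (nat_lit 0, nat_lit 0, nat_lit 0), (nat_lit 1000, nat_lit 1000, nat_lit 399)], (nat_lit 100, nat_lit 99, nat_lit 44)⟩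
noncomputable def p012_k1 : C1.Kn := ⟨[nat_lit 80, nat_lit 120, nat_lit 140], [nat_lit 0, nat_lit 130, nat_lit 1260], [(nat_lit 0, nat_lit 0, nat_lit 0), (nat_lit 1000, nat_lit 990, nat_lit 51), (nat_lit 946, nat_lit 1000, nat_lit 600)], (nat_lit 100, nat_lit 100, nat_lit 45)⟩
noncomputable def p012_k2 : C1.Kn := ⟨[nat_lit 80, nat_lit 120, nat_lit 140], [nat_lit 0, nat_lit 212, nat_lit 1320], [(nat_lit 0, nat_lit 0, nat_lit 0), (nat_lit 1000, nat_lit 983, nat_lit 83), (nat_lit 946, nat_lit 1000, nat_lit 623)], (nat_lit 99, nat_lit 100, nat_lit 45)⟩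
noncomputable def p012_k3 : C1.Kn := ⟨[nat_lit 80, nat_lit 120, nat_lit 140], [nat_lit 0, nat_lit 238, nat_lit 1340], [(nat_lit 0, nat_lit 0, nat_lit 0), (nat_lit 1000, nat_lit 981, nat_lit 93), (nat_lit 948, nat_lit 1000, nat_lit 625)], (nat_lit 99, nat_lit 100, nat_lit 45)⟩
noncomputable def p012_k4 : C1.Kn := ⟨[nat_lit 80, nat_lit 100, nat_lit 120], [nat_lit 0, nat_lit 132, nat_lit 640], [(nat_lit 0, nat_lit 0, nat_lit 0), (nat_lit 1000, nat_lit 979, nat_lit 103), (nat_lit 1000, nat_lit 979, nat_lit 397)], (nat_lit 99, nat_lit 100, nat_lit 44)⟩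
noncomputable def p012_k5 : C1.Kn := ⟨[nat_lit 80, nat_lit 120, nat_lit 140], [nat_lit 0, nat_lit 0, nat_lit 1164], [(nat_lit 0, nat_lit 0, nat_lit 0), (nat_lit 0, nat_lit 0, nat_lit 0), (nat_lit 941, nat_lit 1000, nat_lit 576)], (nat_lit 100, nat_lit 99, nat_lit 44)⟩
noncomputable def p012_k6 : C1.Kn := ⟨[nat_lit 80, nat_lit 120], [nat_lit 0, nat_lit 528], [(nat_lit 0, nat_lit 0, nat_lit 0), (nat_lit 1000, nat_lit 959, nat_lit 206)], (nat_lit 96, nat_lit 100, nat_lit 44)⟩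
noncomputable def p012_k7 : C1.Kn := ⟨[nat_lit 120, nat_lit 180], [nat_lit 0, nat_lit 0], [(nat_lit 0, nat_lit 0, nat_lit 0), (nat_lit 0, nat_lit 0, nat_lit 0)], (nat_lit 100, nat_lit 81, nat_lit 44)⟩
noncomputable def p012_k8 : C1.Kn := ⟨[nat_lit 120, nat_lit 160], [nat_lit 0, nat_lit 264], [(nat_lit 0, nat_lit 0, nat_lit 0), (nat_lit 980, nat_lit 1000, nat_lit 101)], (nat_lit 100, nat_lit 83, nat_lit 44)⟩
noncomputable def p012_k9 : C1.Kn := ⟨[nat_lit 80, nat_lit 120], [nat_lit 0, nat_lit 796], [(nat_lit 0, nat_lit 0, nat_lit 0), (nat_lit 1000, nat_lit 938, nat_lit 310)], (nat_lit 94, nat_lit 100, nat_lit 44)⟩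
noncomputable def p012_k10 : C1.Kn := ⟨[nat_lit 120, nat_lit 160, nat_lit 180], [nat_lit 0, nat_lit 0, nat_lit 1613], [(nat_lit 0, nat_lit 0, nat_lit 0), (nat_lit 0, nat_lit 0, nat_lit 0), (nat_lit 620, nat_lit 1000, nat_lit 670)], (nat_lit 100, nat_lit 81, nat_lit 44)⟩
noncomputable def p012_k11 : C1.Kn := ⟨[nat_lit 80, nat_lit 100, nat_lit 120], [nat_lit 0, nat_lit 265, nat_lit 768], [(nat_lit 0, nat_lit 0, nat_lit 0), (nat_lit 1000, nat_lit 959, nat_lit 206), (nat_lit 1000, nat_lit 958, nat_lit 392)], (nat_lit 96, nat_lit 100, nat_lit 44)⟩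
noncomputable def p012_k12 : C1.Kn := ⟨[nat_lit 120, nat_lit 140, nat_lit 180], [nat_lit 0, nat_lit 0, nat_lit 1219], [(nat_lit 0, nat_lit 0, nat_lit 0), (nat_lit 0, nat_lit 0, nat_lit 0), (nat_lit 840, nat_lit 1000, nat_lit 400)], (nat_lit 100, nat_lit 81, nat_lit 44)⟩
noncomputable def p012_k13 : C1.Kn := ⟨[nat_lit 80, nat_lit 100, nat_lit 120], [nat_lit 0, nat_lit 399, nat_lit 897], [(nat_lit 0, nat_lit 0, nat_lit 0), (nat_lit 1000, nat_lit 938, nat_lit 310), (nat_lit 1000, nat_lit 938, nat_lit 389)], (nat_lit 94, nat_lit 100, nat_lit 44)⟩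
noncomputable def p012_k14 : C1.Kn := ⟨[nat_lit 120, nat_lit 140, nat_lit 160], [nat_lit 0, nat_lit 132, nat_lit 736], [(nat_lit 0, nat_lit 0, nat_lit 0), (nat_lit 980, nat_lit 1000, nat_lit 101), (nat_lit 856, nat_lit 1000, nat_lit 404)], (nat_lit 100, nat_lit 83, nat_lit 44)⟩
noncomputable def p012_k15 : C1.Kn := ⟨[nat_lit 120, nat_lit 160], [nat_lit 0, nat_lit 533], [(nat_lit 0, nat_lit 0, nat_lit 0), (nat_lit 960, nat_lit 1000, nat_lit 200)], (nat_lit 100, nat_lit 86, nat_lit 44)⟩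
noncomputable def p012_k16 : C1.Kn := ⟨[nat_lit 80, nat_lit 100], [nat_lit 0, nat_lit 265], [(nat_lit 0, nat_lit 0, nat_lit 0), (nat_lit 1000, nat_lit 959, nat_lit 206)], (nat_lit 95, nat_lit 100, nat_lit 28)⟩
noncomputable def p012_k17 : C1.Kn := ⟨[nat_lit 120, nat_lit 140, nat_lit 160], [nat_lit 0, nat_lit 266, nat_lit 862], [(nat_lit 0, nat_lit 0, nat_lit 0), (nat_lit 960, nat_lit 1000, nat_lit 200), (nat_lit 874, nat_lit 1000, nat_lit 406)], (nat_lit 100, nat_lit 86, nat_lit 44)⟩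
noncomputable def p012_k18 : C1.Kn := ⟨[nat_lit 100, nat_lit 160], [nat_lit 0, nat_lit 0], [(nat_lit 0, nat_lit 0, nat_lit 0), (nat_lit 0, nat_lit 0, nat_lit 0)], (nat_lit 100, nat_lit 90, nat_lit 44)⟩
noncomputable def p012_k19 : C1.Kn := ⟨[nat_lit 100, nat_lit 140, nat_lit 160], [nat_lit 0, nat_lit 0, nat_lit 1280], [(nat_lit 0, nat_lit 0, nat_lit 0), (nat_lit 0, nat_lit 0, nat_lit 0), (nat_lit 800, nat_lit 1000, nat_lit 600)], (nat_lit 100, nat_lit 90, nat_lit 44)⟩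
noncomputable def p012_k20 : C1.Kn := ⟨[nat_lit 100, nat_lit 140], [nat_lit 0, nat_lit 256], [(nat_lit 0, nat_lit 0, nat_lit 0), (nat_lit 1000, nat_lit 1000, nat_lit 100)], (nat_lit 100, nat_lit 92, nat_lit 44)⟩
noncomputable def p012_k21 : C1.Kn := ⟨[nat_lit 80, nat_lit 100], [nat_lit 0, nat_lit 399], [(nat_lit 0, nat_lit 0, nat_lit 0), (nat_lit 1000, nat_lit 938, nat_lit 310)], (nat_lit 94, nat_lit 100, nat_lit 28)⟩
noncomputable def p012_k22 : C1.Kn := ⟨[nat_lit 100, nat_lit 120, nat_lit 160], [nat_lit 0, nat_lit 0, nat_lit 1063], [(nat_lit 0, nat_lit 0, nat_lit 0), (nat_lit 0, nat_lit 0, nat_lit 0), (nat_lit 924, nat_lit 1000, nat_lit 383)], (nat_lit 100, nat_lit 90, nat_lit 44)⟩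
noncomputable def p012_k23 : C1.Kn := ⟨[nat_lit 100, nat_lit 140], [nat_lit 0, nat_lit 0], [(nat_lit 0, nat_lit 0, nat_lit 0), (nat_lit 0, nat_lit 0, nat_lit 0)], (nat_lit 100, nat_lit 96, nat_lit 28)⟩
noncomputable def p012_k24 : C1.Kn := ⟨[nat_lit 100, nat_lit 120, nat_lit 140], [nat_lit 0, nat_lit 0, nat_lit 533], [(nat_lit 0, nat_lit 0, nat_lit 0), (nat_lit 0, nat_lit 0, nat_lit 0), (nat_lit 924, nat_lit 1000, nat_lit 383)], (nat_lit 100, nat_lit 96, nat_lit 28)⟩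
noncomputable def p012_k25 : C1.Kn := ⟨[nat_lit 100, nat_lit 140], [nat_lit 0, nat_lit 508], [(nat_lit 0, nat_lit 0, nat_lit 0), (nat_lit 1000, nat_lit 1000, nat_lit 198)], (nat_lit 100, nat_lit 94, nat_lit 44)⟩
noncomputable def p012_k26 : C1.Kn := ⟨[nat_lit 80, nat_lit 120], [nat_lit 0, nat_lit 929], [(nat_lit 0, nat_lit 0, nat_lit 0), (nat_lit 1000, nat_lit 927, nat_lit 362)], (nat_lit 93, nat_lit 100, nat_lit 44)⟩
noncomputable def p012_k27 : C1.Kn := ⟨[nat_lit 100, nat_lit 140], [nat_lit 0, nat_lit 766], [(nat_lit 0, nat_lit 0, nat_lit 0), (nat_lit 1000, nat_lit 1000, nat_lit 299)], (nat_lit 100, nat_lit 97, nat_lit 44)⟩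
noncomputable def p012_k28 : C1.Kn := ⟨[nat_lit 100, nat_lit 120, nat_lit 140], [nat_lit 0, nat_lit 383, nat_lit 902], [(nat_lit 0, nat_lit 0, nat_lit 0), (nat_lit 1000, nat_lit 1000, nat_lit 299), (nat_lit 979, nat_lit 1000, nat_lit 397)], (nat_lit 100, nat_lit 97, nat_lit 44)⟩
noncomputable def p012_k29 : C1.Kn := ⟨[nat_lit 100, nat_lit 120], [nat_lit 0, nat_lit 254], [(nat_lit 0, nat_lit 0, nat_lit 0), (nat_lit 1000, nat_lit 1000, nat_lit 198)], (nat_lit 100, nat_lit 99, nat_lit 28)⟩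
noncomputable def p012_k30 : C1.Kn := ⟨[nat_lit 80, nat_lit 120], [nat_lit 0, nat_lit 528], [(nat_lit 0, nat_lit 0, nat_lit 0), (nat_lit 1000, nat_lit 959, nat_lit 206)], (nat_lit 96, nat_lit 100, nat_lit 39)⟩
noncomputable def p012_k31 : C1.Kn := ⟨[nat_lit 80, nat_lit 120], [nat_lit 0, nat_lit 796], [(nat_lit 0, nat_lit 0, nat_lit 0), (nat_lit 1000, nat_lit 938, nat_lit 310)], (nat_lit 94, nat_lit 100, nat_lit 39)⟩
noncomputable def p012_k32 : C1.Kn := ⟨[nat_lit 80, nat_lit 120], [nat_lit 0, nat_lit 929], [(nat_lit 0, nat_lit 0, nat_lit 0), (nat_lit 1000, nat_lit 927, nat_lit 362)], (nat_lit 93, nat_lit 100, nat_lit 39)⟩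
noncomputable def p012_k33 : C1.Kn := ⟨[nat_lit 100, nat_lit 140], [nat_lit 0, nat_lit 508], [(nat_lit 0, nat_lit 0, nat_lit 0), (nat_lit 1000, nat_lit 1000, nat_lit 198)], (nat_lit 100, nat_lit 96, nat_lit 39)⟩
noncomputable def p012_k34 : C1.Kn := ⟨[nat_lit 100, nat_lit 120, nat_lit 140], [nat_lit 0, nat_lit 254, nat_lit 778], [(nat_lit 0, nat_lit 0, nat_lit 0), (nat_lit 1000, nat_lit 1000, nat_lit 198), (nat_lit 960, nat_lit 1000, nat_lit 392)], (nat_lit 100, nat_lit 94, nat_lit 44)⟩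
noncomputable def p012_k35 : C1.Kn := ⟨[nat_lit 100, nat_lit 140], [nat_lit 0, nat_lit 640], [(nat_lit 0, nat_lit 0, nat_lit 0), (nat_lit 1000, nat_lit 1000, nat_lit 250)], (nat_lit 100, nat_lit 95, nat_lit 44)⟩
noncomputable def p012_k36 : C1.Kn := ⟨[nat_lit 100, nat_lit 140], [nat_lit 0, nat_lit 896], [(nat_lit 0, nat_lit 0, nat_lit 0), (nat_lit 1000, nat_lit 1000, nat_lit 350)], (nat_lit 100, nat_lit 98, nat_lit 44)⟩
noncomputable def p012_k37 : C1.Kn := ⟨[nat_lit 100, nat_lit 120], [nat_lit 0, nat_lit 383], [(nat_lit 0, nat_lit 0, nat_lit 0), (nat_lit 1000, nat_lit 1000, nat_lit 299)], (nat_lit 100, nat_lit 100, nat_lit 28)⟩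
noncomputable def p012_k38 : C1.Kn := ⟨[nat_lit 80, nat_lit 100, nat_lit 120], [nat_lit 0, nat_lit 466, nat_lit 966], [(nat_lit 0, nat_lit 0, nat_lit 0), (nat_lit 1000, nat_lit 927, nat_lit 359), (nat_lit 1000, nat_lit 927, nat_lit 391)], (nat_lit 93, nat_lit 100, nat_lit 44)⟩
noncomputable def p012_k39 : C1.Kn := ⟨[nat_lit 100, nat_lit 120, nat_lit 140], [nat_lit 0, nat_lit 448, nat_lit 962], [(nat_lit 0, nat_lit 0, nat_lit 0), (nat_lit 1000, nat_lit 1000, nat_lit 350), (nat_lit 990, nat_lit 1000, nat_lit 398)], (nat_lit 100, nat_lit 98, nat_lit 44)⟩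
noncomputable def p012_k40 : C1.Kn := ⟨[nat_lit 80, nat_lit 140], [nat_lit 0, nat_lit 0], [(nat_lit 0, nat_lit 0, nat_lit 0), (nat_lit 0, nat_lit 0, nat_lit 0)], (nat_lit 100, nat_lit 99, nat_lit 44)⟩
noncomputable def p012_k41 : C1.Kn := ⟨[nat_lit 80, nat_lit 120], [nat_lit 0, nat_lit 664], [(nat_lit 0, nat_lit 0, nat_lit 0), (nat_lit 1000, nat_lit 948, nat_lit 259)], (nat_lit 95, nat_lit 100, nat_lit 44)⟩
noncomputable def p012_k42 : C1.Kn := ⟨[nat_lit 80, nat_lit 100, nat_lit 140], [nat_lit 0, nat_lit 65, nat_lit 1086], [(nat_lit 0, nat_lit 0, nat_lit 0), (nat_lit 1000, nat_lit 990, nat_lit 51), (nat_lit 1000, nat_lit 990, nat_lit 399)], (nat_lit 100, nat_lit 100, nat_lit 45)⟩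
noncomputable def p012_l0 : Lf2 := ⟨nat_lit 0, nat_lit 5, [nat_lit 4, nat_lit 5, nat_lit 5, nat_lit 20], false, nat_lit 0, nat_lit 0, nat_lit 0, nat_lit 0, ⟨nat_lit 1000, nat_lit 0, nat_lit 0, nat_lit 0, nat_lit 0, nat_lit 0, nat_lit 0, nat_lit 0, nat_lit 0, nat_lit 0, nat_lit 0, nat_lit 0, nat_lit 0, nat_lit 0, nat_lit 0, nat_lit 0, false, false⟩,
 nat_lit 0, nat_lit 0, nat_lit 0, nat_lit 6348, nat_lit 6804, nat_lit 6804, nat_lit 0, nat_lit 0, nat_lit 0, nat_lit 0, nat_lit 0, nat_lit 0, nat_lit 0, nat_lit 0, nat_lit 0, nat_lit 0, nat_lit 0, nat_lit 0, [],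
 ⟨p012_k0, nat_lit 0, nat_lit 0, nat_lit 217, nat_lit 0, nat_lit 0, [nat_lit 4688000000, nat_lit 6250000000, nat_lit 9842000000], [], [nat_lit 29023660490, nat_lit 30777445093, nat_lit 41253115824, nat_lit 41894377528], nat_lit 0, nat_lit 0, nat_lit 0, nat_lit 0, nat_lit 0, nat_lit 0, [], [nat_lit 11, nat_lit 40, nat_lit 20, nat_lit 80, nat_lit 1, nat_lit 401, nat_lit 175, nat_lit 12]⟩, ⟨p012_k0, nat_lit 0, nat_lit 0, nat_lit 217, nat_lit 0, nat_lit 0, [nat_lit 4688000000, nat_lit 6250000000, nat_lit 9842000000], [], [nat_lit 29023660490, nat_lit 30777445093, nat_lit 41253115824, nat_lit 41894377528], nat_lit 0, nat_lit 0, nat_lit 0, nat_lit 0, nat_lit 0, nat_lit 0, [], [nat_lit 11, nat_lit 40, nat_lit 20, nat_lit 80, nat_lit 1, nat_lit 401, nat_lit 175, nat_lit 12]⟩,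
 zbF0, [⟨nat_lit 0, nat_lit 100, nat_lit 100, nat_lit 40, nat_lit 273243221⟩]⟩
noncomputable def p012_l1 : Lf2 := ⟨nat_lit 0, nat_lit 5, [nat_lit 4, nat_lit 5, nat_lit 5, nat_lit 20], true, nat_lit 0, nat_lit 0, nat_lit 0, nat_lit 0, ⟨nat_lit 0, nat_lit 0, nat_lit 1000, nat_lit 6, nat_lit 115, nat_lit 0, nat_lit 0, nat_lit 0, nat_lit 0, nat_lit 215, nat_lit 123267, nat_lit 301, nat_lit 61866208, nat_lit 0, nat_lit 0, nat_lit 1352220, false, false⟩,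
 nat_lit 0, nat_lit 0, nat_lit 0, nat_lit 3155, nat_lit 3860, nat_lit 0, nat_lit 0, nat_lit 0, nat_lit 0, nat_lit 0, nat_lit 0, nat_lit 0, nat_lit 0, nat_lit 9029204884783, nat_lit 69, nat_lit 400000, nat_lit 0, nat_lit 0, [(nat_lit 6, [(nat_lit 5, nat_lit 1000)])],
 ⟨p012_k0, nat_lit 0, nat_lit 0, nat_lit 217, nat_lit 0, nat_lit 0, [nat_lit 2521600001, nat_lit 1460000001, nat_lit 7200000], [], [nat_lit 15246367665, nat_lit 16379725321, nat_lit 14521305441, nat_lit 15555015241], nat_lit 0, nat_lit 0, nat_lit 0, nat_lit 0, nat_lit 0, nat_lit 0, [], [nat_lit 11, nat_lit 40, nat_lit 20, nat_lit 80, nat_lit 1, nat_lit 317, nat_lit 100, nat_lit 10]⟩, C1.Rw.none,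
 ⟨nat_lit 5916, nat_lit 6325, ⟨.ofNat (nat_lit 164319), .ofNat (nat_lit 378206), .ofNat (nat_lit 185687), .ofNat (nat_lit 399574), .ofNat (nat_lit 181423), .ofNat (nat_lit 385610), .ofNat (nat_lit 202762), .ofNat (nat_lit 406949)⟩, ⟨.ofNat (nat_lit 0), .ofNat (nat_lit 0), .ofNat (nat_lit 0), .ofNat (nat_lit 0), .ofNat (nat_lit 0), .ofNat (nat_lit 0), .ofNat (nat_lit 0), .ofNat (nat_lit 0)⟩⟩, [⟨nat_lit 0, nat_lit 100, nat_lit 100, nat_lit 60, nat_lit 153300431⟩]⟩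
noncomputable def p012_l2 : Lf2 := ⟨nat_lit 0, nat_lit 5, [nat_lit 4, nat_lit 5, nat_lit 5, nat_lit 20], false, nat_lit 0, nat_lit 0, nat_lit 0, nat_lit 0, ⟨nat_lit 1000, nat_lit 0, nat_lit 0, nat_lit 0, nat_lit 0, nat_lit 0, nat_lit 0, nat_lit 0, nat_lit 0, nat_lit 0, nat_lit 0, nat_lit 0, nat_lit 0, nat_lit 0, nat_lit 0, nat_lit 0, false, false⟩,
 nat_lit 0, nat_lit 0, nat_lit 5675, nat_lit 0, nat_lit 7519, nat_lit 3004, nat_lit 0, nat_lit 0, nat_lit 0, nat_lit 1405, nat_lit 0, nat_lit 0, nat_lit 0, nat_lit 0, nat_lit 0, nat_lit 0, nat_lit 0, nat_lit 0, [],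
 ⟨p012_k0, nat_lit 0, nat_lit 0, nat_lit 214, nat_lit 0, nat_lit 0, [nat_lit 4688000000, nat_lit 6250000000, nat_lit 9842000000], [], [nat_lit 25382503376, nat_lit 26808201846, nat_lit 41967941364, nat_lit 42622949658], nat_lit 0, nat_lit 0, nat_lit 0, nat_lit 0, nat_lit 0, nat_lit 0, [], [nat_lit 11, nat_lit 40, nat_lit 20, nat_lit 80, nat_lit 1, nat_lit 401, nat_lit 175, nat_lit 12]⟩, ⟨p012_k0, nat_lit 0, nat_lit 0, nat_lit 356, nat_lit 0, nat_lit 347165, [nat_lit 4688000000, nat_lit 6250000000, nat_lit 9842000000], [], [nat_lit 35515627360, nat_lit 36165684900, nat_lit 47812978784, nat_lit 46452743552], nat_lit 1271250, nat_lit 1271250, nat_lit 780000, nat_lit 3072500, nat_lit 0, nat_lit 0, [nat_lit 1100000, nat_lit 1442500, nat_lit 1271250], [nat_lit 11, nat_lit 40, nat_lit 20, nat_lit 80, nat_lit 1, nat_lit 401, nat_lit 175, nat_lit 12]⟩,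
 zbF0, []⟩
noncomputable def p012_l3 : Lf2 := ⟨nat_lit 0, nat_lit 5, [nat_lit 4, nat_lit 5, nat_lit 5, nat_lit 20], false, nat_lit 0, nat_lit 0, nat_lit 0, nat_lit 0, ⟨nat_lit 348, nat_lit 652, nat_lit 0, nat_lit 6, nat_lit 228, nat_lit 0, nat_lit 0, nat_lit 0, nat_lit 0, nat_lit 0, nat_lit 0, nat_lit 0, nat_lit 0, nat_lit 0, nat_lit 0, nat_lit 5000000, false, false⟩,
 nat_lit 0, nat_lit 0, nat_lit 3185, nat_lit 0, nat_lit 4614, nat_lit 1686, nat_lit 0, nat_lit 0, nat_lit 0, nat_lit 358, nat_lit 0, nat_lit 0, nat_lit 0, nat_lit 0, nat_lit 0, nat_lit 260800, nat_lit 0, nat_lit 0, [(nat_lit 6, [(nat_lit 1, nat_lit 652)])],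
 ⟨p012_k0, nat_lit 0, nat_lit 0, nat_lit 217, nat_lit 0, nat_lit 0, [nat_lit 3386781867, nat_lit 4229495467, nat_lit 5520639111], [], [nat_lit 24338308612, nat_lit 25564709566, nat_lit 34813769202, nat_lit 35343142378], nat_lit 0, nat_lit 0, nat_lit 0, nat_lit 0, nat_lit 0, nat_lit 0, [], [nat_lit 11, nat_lit 40, nat_lit 20, nat_lit 80, nat_lit 1, nat_lit 401, nat_lit 175, nat_lit 12]⟩, ⟨p012_k0, nat_lit 0, nat_lit 0, nat_lit 450, nat_lit 0, nat_lit 347165, [nat_lit 1631424000, nat_lit 2175000000, nat_lit 3425016000], [], [nat_lit 15144998590, nat_lit 15329609434, nat_lit 17158075056, nat_lit 16415249748], nat_lit 1271250, nat_lit 1271250, nat_lit 88400, nat_lit 2858000, nat_lit 0, nat_lit 0, [nat_lit 1100000, nat_lit 1442500, nat_lit 1271250], [nat_lit 11, nat_lit 40, nat_lit 20, nat_lit 80, nat_lit 1, nat_lit 401, nat_lit 175, nat_lit 12]⟩,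
 ⟨nat_lit 5916, nat_lit 6325, ⟨.ofNat (nat_lit 164319), .ofNat (nat_lit 953920), .ofNat (nat_lit 185687), .ofNat (nat_lit 975281), .ofNat (nat_lit 181423), .ofNat (nat_lit 935210), .ofNat (nat_lit 202762), .ofNat (nat_lit 956542)⟩, ⟨.ofNat (nat_lit 0), .ofNat (nat_lit 0), .ofNat (nat_lit 0), .ofNat (nat_lit 0), .ofNat (nat_lit 0), .ofNat (nat_lit 0), .ofNat (nat_lit 0), .ofNat (nat_lit 0)⟩⟩, []⟩
noncomputable def p012_l4 : Lf2 := ⟨nat_lit 0, nat_lit 5, [nat_lit 4, nat_lit 5, nat_lit 5, nat_lit 20], true, nat_lit 0, nat_lit 0, nat_lit 0, nat_lit 0, ⟨nat_lit 0, nat_lit 0, nat_lit 1000, nat_lit 6, nat_lit 95, nat_lit 0, nat_lit 0, nat_lit 0, nat_lit 0, nat_lit 215, nat_lit 84017, nat_lit 286, nat_lit 63455040, nat_lit 0, nat_lit 0, nat_lit 1034969, false, false⟩,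
 nat_lit 0, nat_lit 7625, nat_lit 0, nat_lit 0, nat_lit 4036, nat_lit 0, nat_lit 0, nat_lit 0, nat_lit 0, nat_lit 0, nat_lit 0, nat_lit 0, nat_lit 0, nat_lit 0, nat_lit 124, nat_lit 819400, nat_lit 0, nat_lit 0, [(nat_lit 6, [(nat_lit 5, nat_lit 301), (nat_lit 6, nat_lit 699)])],
 ⟨p012_k0, nat_lit 0, nat_lit 0, nat_lit 293, nat_lit 0, nat_lit 44750, [nat_lit 3093667200, nat_lit 2575657601, nat_lit 107185599], [], [nat_lit 13879305383, nat_lit 14429744631, nat_lit 13015540736, nat_lit 13452874808], nat_lit 1271250, nat_lit 1271250, nat_lit 88400, nat_lit 490000, nat_lit 0, nat_lit 0, [nat_lit 1100000, nat_lit 1442500, nat_lit 1271250], [nat_lit 11, nat_lit 40, nat_lit 20, nat_lit 80, nat_lit 1, nat_lit 317, nat_lit 100, nat_lit 10]⟩, C1.Rw.none,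
 ⟨nat_lit 6123, nat_lit 6325, ⟨.ofNat (nat_lit 164319), .ofNat (nat_lit 295942), .ofNat (nat_lit 169661), .ofNat (nat_lit 301284), .ofNat (nat_lit 172944), .ofNat (nat_lit 301553), .ofNat (nat_lit 178281), .ofNat (nat_lit 306890)⟩, ⟨.ofNat (nat_lit 0), .ofNat (nat_lit 0), .ofNat (nat_lit 0), .ofNat (nat_lit 0), .ofNat (nat_lit 0), .ofNat (nat_lit 0), .ofNat (nat_lit 0), .ofNat (nat_lit 0)⟩⟩, [⟨nat_lit 0, nat_lit 100, nat_lit 100, nat_lit 44, nat_lit 186186381⟩]⟩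
noncomputable def p012_l5 : Lf2 := ⟨nat_lit 0, nat_lit 5, [nat_lit 4, nat_lit 5, nat_lit 5, nat_lit 20], true, nat_lit 0, nat_lit 0, nat_lit 0, nat_lit 0, ⟨nat_lit 0, nat_lit 0, nat_lit 1000, nat_lit 6, nat_lit 99, nat_lit 0, nat_lit 0, nat_lit 0, nat_lit 0, nat_lit 215, nat_lit 91267, nat_lit 289, nat_lit 63163349, nat_lit 0, nat_lit 0, nat_lit 1096845, false, false⟩,
 nat_lit 0, nat_lit 7493, nat_lit 0, nat_lit 0, nat_lit 4064, nat_lit 0, nat_lit 120, nat_lit 0, nat_lit 0, nat_lit 0, nat_lit 0, nat_lit 0, nat_lit 0, nat_lit 0, nat_lit 134, nat_lit 894400, nat_lit 0, nat_lit 0, [(nat_lit 6, [(nat_lit 5, nat_lit 176), (nat_lit 6, nat_lit 824)])],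
 ⟨p012_k1, nat_lit 0, nat_lit 0, nat_lit 294, nat_lit 0, nat_lit 57359, [nat_lit 3657513601, nat_lit 1578642134, nat_lit 27584000], [], [nat_lit 13113630047, nat_lit 13360109945, nat_lit 12326165807, nat_lit 12528024663], nat_lit 1271250, nat_lit 1271250, nat_lit 111251, nat_lit 490000, nat_lit 0, nat_lit 0, [nat_lit 1100000, nat_lit 1785000, nat_lit 1271250], [nat_lit 29, nat_lit 40, nat_lit 20, nat_lit 80, nat_lit 17, nat_lit 317, nat_lit 100, nat_lit 10]⟩, C1.Rw.none,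
 ⟨nat_lit 6123, nat_lit 6225, ⟨.ofNat (nat_lit 182121), .ofNat (nat_lit 304098), .ofNat (nat_lit 185325), .ofNat (nat_lit 307301), .ofNat (nat_lit 186319), .ofNat (nat_lit 306890), .ofNat (nat_lit 189521), .ofNat (nat_lit 310092)⟩, ⟨.ofNat (nat_lit 0), .ofNat (nat_lit 0), .ofNat (nat_lit 0), .ofNat (nat_lit 0), .ofNat (nat_lit 0), .ofNat (nat_lit 0), .ofNat (nat_lit 0), .ofNat (nat_lit 0)⟩⟩, [⟨nat_lit 0, nat_lit 100, nat_lit 100, nat_lit 49, nat_lit 183546021⟩]⟩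
noncomputable def p012_l6 : Lf2 := ⟨nat_lit 0, nat_lit 5, [nat_lit 4, nat_lit 5, nat_lit 5, nat_lit 20], true, nat_lit 0, nat_lit 0, nat_lit 0, nat_lit 0, ⟨nat_lit 0, nat_lit 0, nat_lit 1000, nat_lit 6, nat_lit 100, nat_lit 0, nat_lit 0, nat_lit 0, nat_lit 0, nat_lit 215, nat_lit 93750, nat_lit 290, nat_lit 63079718, nat_lit 0, nat_lit 0, nat_lit 1114255, false, false⟩,
 nat_lit 0, nat_lit 7609, nat_lit 0, nat_lit 0, nat_lit 4187, nat_lit 0, nat_lit 530, nat_lit 0, nat_lit 0, nat_lit 0, nat_lit 0, nat_lit 0, nat_lit 0, nat_lit 23026743738630, nat_lit 69, nat_lit 400000, nat_lit 0, nat_lit 0, [(nat_lit 6, [(nat_lit 5, nat_lit 1000)])],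
 ⟨p012_k2, nat_lit 0, nat_lit 0, nat_lit 294, nat_lit 0, nat_lit 56408, [nat_lit 2521600001, nat_lit 679600001, nat_lit 7200000], [], [nat_lit 13426738540, nat_lit 13469773158, nat_lit 12578806307, nat_lit 12619578542], nat_lit 1271250, nat_lit 1271250, nat_lit 111251, nat_lit 490000, nat_lit 0, nat_lit 0, [nat_lit 1100000, nat_lit 1785000, nat_lit 1271250], [nat_lit 29, nat_lit 40, nat_lit 20, nat_lit 80, nat_lit 17, nat_lit 317, nat_lit 100, nat_lit 10]⟩, C1.Rw.none,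
 ⟨nat_lit 6144, nat_lit 6165, ⟨.ofNat (nat_lit 187847), .ofNat (nat_lit 308978), .ofNat (nat_lit 188914), .ofNat (nat_lit 310046), .ofNat (nat_lit 188685), .ofNat (nat_lit 309536), .ofNat (nat_lit 189752), .ofNat (nat_lit 310603)⟩, ⟨.ofNat (nat_lit 0), .ofNat (nat_lit 0), .ofNat (nat_lit 0), .ofNat (nat_lit 0), .ofNat (nat_lit 0), .ofNat (nat_lit 0), .ofNat (nat_lit 0), .ofNat (nat_lit 0)⟩⟩, [⟨nat_lit 0, nat_lit 100, nat_lit 100, nat_lit 49, nat_lit 187291593⟩]⟩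
noncomputable def p012_l7 : Lf2 := ⟨nat_lit 0, nat_lit 5, [nat_lit 4, nat_lit 5, nat_lit 5, nat_lit 20], true, nat_lit 0, nat_lit 0, nat_lit 0, nat_lit 0, ⟨nat_lit 0, nat_lit 0, nat_lit 1000, nat_lit 6, nat_lit 100, nat_lit 0, nat_lit 0, nat_lit 0, nat_lit 0, nat_lit 215, nat_lit 93750, nat_lit 290, nat_lit 63043209, nat_lit 0, nat_lit 0, nat_lit 1121811, false, false⟩,
 nat_lit 0, nat_lit 7202, nat_lit 0, nat_lit 0, nat_lit 3982, nat_lit 0, nat_lit 414, nat_lit 0, nat_lit 0, nat_lit 0, nat_lit 0, nat_lit 0, nat_lit 0, nat_lit 21954720000798, nat_lit 69, nat_lit 400000, nat_lit 0, nat_lit 0, [(nat_lit 6, [(nat_lit 5, nat_lit 1000)])],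
 ⟨p012_k3, nat_lit 0, nat_lit 0, nat_lit 298, nat_lit 0, nat_lit 65185, [nat_lit 2521600001, nat_lit 679600001, nat_lit 7200000], [], [nat_lit 13780349937, nat_lit 13837730373, nat_lit 12876273832, nat_lit 12931141573], nat_lit 1271250, nat_lit 1271250, nat_lit 111251, nat_lit 490000, nat_lit 0, nat_lit 0, [nat_lit 1100000, nat_lit 1785000, nat_lit 1271250], [nat_lit 29, nat_lit 40, nat_lit 20, nat_lit 80, nat_lit 17, nat_lit 317, nat_lit 100, nat_lit 10]⟩, C1.Rw.none,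
 ⟨nat_lit 6123, nat_lit 6145, ⟨.ofNat (nat_lit 188685), .ofNat (nat_lit 309536), .ofNat (nat_lit 190819), .ofNat (nat_lit 311670), .ofNat (nat_lit 189521), .ofNat (nat_lit 310092), .ofNat (nat_lit 191656), .ofNat (nat_lit 312227)⟩, ⟨.ofNat (nat_lit 0), .ofNat (nat_lit 0), .ofNat (nat_lit 0), .ofNat (nat_lit 0), .ofNat (nat_lit 0), .ofNat (nat_lit 0), .ofNat (nat_lit 0), .ofNat (nat_lit 0)⟩⟩, [⟨nat_lit 0, nat_lit 100, nat_lit 100, nat_lit 50, nat_lit 191461171⟩]⟩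
noncomputable def p012_l8 : Lf2 := ⟨nat_lit 1, nat_lit 5, [nat_lit 4, nat_lit 5, nat_lit 5, nat_lit 20], false, nat_lit 0, nat_lit 0, nat_lit 0, nat_lit 0, zbN0,
 nat_lit 0, nat_lit 0, nat_lit 0, nat_lit 0, nat_lit 0, nat_lit 0, nat_lit 0, nat_lit 0, nat_lit 0, nat_lit 0, nat_lit 0, nat_lit 0, nat_lit 0, nat_lit 0, nat_lit 0, nat_lit 0, nat_lit 0, nat_lit 0, [],
 C1.Rw.none, C1.Rw.none,
 zbF0, []⟩
noncomputable def p012_l9 : Lf2 := ⟨nat_lit 0, nat_lit 5, [nat_lit 4, nat_lit 5, nat_lit 5, nat_lit 20], false, nat_lit 0, nat_lit 0, nat_lit 0, nat_lit 0, ⟨nat_lit 1000, nat_lit 0, nat_lit 0, nat_lit 0, nat_lit 0, nat_lit 0, nat_lit 0, nat_lit 0, nat_lit 0, nat_lit 0, nat_lit 0, nat_lit 0, nat_lit 0, nat_lit 0, nat_lit 0, nat_lit 0, false, false⟩,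
 nat_lit 0, nat_lit 18266, nat_lit 0, nat_lit 0, nat_lit 10147, nat_lit 6666, nat_lit 0, nat_lit 0, nat_lit 0, nat_lit 0, nat_lit 0, nat_lit 0, nat_lit 0, nat_lit 0, nat_lit 0, nat_lit 0, nat_lit 0, nat_lit 0, [],
 ⟨p012_k4, nat_lit 0, nat_lit 0, nat_lit 267, nat_lit 0, nat_lit 166602, [nat_lit 4688000000, nat_lit 6250000000, nat_lit 7968000000], [], [nat_lit 29676010178, nat_lit 30564991636, nat_lit 25730207687, nat_lit 26572634154], nat_lit 1271250, nat_lit 1271250, nat_lit 111251, nat_lit 490000, nat_lit 0, nat_lit 0, [nat_lit 1100000, nat_lit 1442500, nat_lit 1271250], [nat_lit 9, nat_lit 40, nat_lit 20, nat_lit 80, nat_lit 2, nat_lit 226, nat_lit 20, nat_lit 8]⟩, ⟨p012_k0, nat_lit 0, nat_lit 0, nat_lit 211, nat_lit 0, nat_lit 0, [nat_lit 4688000000, nat_lit 6250000000, nat_lit 9842000000], [], [nat_lit 28722124704, nat_lit 30200949768, nat_lit 26507885080, nat_lit 27915864592],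 nat_lit 0, nat_lit 0, nat_lit 0, nat_lit 0, nat_lit 0, nat_lit 0, [], [nat_lit 11, nat_lit 40, nat_lit 20, nat_lit 80, nat_lit 1, nat_lit 317, nat_lit 100, nat_lit 10]⟩,
 zbF0, [⟨nat_lit 0, nat_lit 100, nat_lit 100, nat_lit 60, nat_lit 1225548655⟩]⟩
noncomputable def p012_l10 : Lf2 := ⟨nat_lit 0, nat_lit 5, [nat_lit 4, nat_lit 5, nat_lit 5, nat_lit 20], false, nat_lit 0, nat_lit 0, nat_lit 0, nat_lit 0, ⟨nat_lit 1000, nat_lit 0, nat_lit 0, nat_lit 0, nat_lit 0, nat_lit 0, nat_lit 0, nat_lit 0, nat_lit 0, nat_lit 0, nat_lit 0, nat_lit 0, nat_lit 0, nat_lit 0, nat_lit 0, nat_lit 0, false, false⟩,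
 nat_lit 0, nat_lit 13975, nat_lit 0, nat_lit 0, nat_lit 7398, nat_lit 7353, nat_lit 1854, nat_lit 0, nat_lit 0, nat_lit 0, nat_lit 0, nat_lit 0, nat_lit 0, nat_lit 768099925533, nat_lit 0, nat_lit 0, nat_lit 0, nat_lit 0, [],
 ⟨p012_k0, nat_lit 0, nat_lit 0, nat_lit 356, nat_lit 0, nat_lit 347165, [nat_lit 4688000000, nat_lit 6250000000, nat_lit 9842000000], [], [nat_lit 29808741584, nat_lit 26013138500, nat_lit 29174120816, nat_lit 25540060460], nat_lit 1271250, nat_lit 1271250, nat_lit 490000, nat_lit 780000, nat_lit 0, nat_lit 0, [nat_lit 1100000, nat_lit 1442500, nat_lit 1271250], [nat_lit 11, nat_lit 40, nat_lit 20, nat_lit 80, nat_lit 1, nat_lit 317, nat_lit 100, nat_lit 9]⟩, ⟨p012_k0, nat_lit 0, nat_lit 0, nat_lit 160, nat_lit 0, nat_lit 0, [nat_lit 4688000000, nat_lit 6250000000, nat_lit 9842000000], [], [nat_lit 25830764140, nat_lit 27318251536, nat_lit 25571958512, nat_lit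 26979873402], nat_lit 0, nat_lit 0, nat_lit 0, nat_lit 0, nat_lit 0, nat_lit 0, [], [nat_lit 11, nat_lit 40, nat_lit 20, nat_lit 80, nat_lit 1, nat_lit 317, nat_lit 100, nat_lit 9]⟩,
 zbF0, []⟩
noncomputable def p012_l11 : Lf2 := ⟨nat_lit 0, nat_lit 5, [nat_lit 4, nat_lit 5, nat_lit 5, nat_lit 20], false, nat_lit 0, nat_lit 0, nat_lit 0, nat_lit 0, ⟨nat_lit 1000, nat_lit 0, nat_lit 0, nat_lit 0, nat_lit 0, nat_lit 0, nat_lit 0, nat_lit 0, nat_lit 0, nat_lit 0, nat_lit 0, nat_lit 0, nat_lit 0, nat_lit 0, nat_lit 0, nat_lit 0, false, false⟩,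
 nat_lit 0, nat_lit 6322, nat_lit 0, nat_lit 0, nat_lit 3346, nat_lit 7519, nat_lit 899, nat_lit 0, nat_lit 0, nat_lit 0, nat_lit 0, nat_lit 0, nat_lit 0, nat_lit 0, nat_lit 0, nat_lit 0, nat_lit 0, nat_lit 0, [],
 ⟨p012_k5, nat_lit 0, nat_lit 0, nat_lit 366, nat_lit 0, nat_lit 347165, [nat_lit 4688000000, nat_lit 7968000001, nat_lit 9842000000], [], [nat_lit 37321195544, nat_lit 37989540281, nat_lit 52700943681, nat_lit 51205281681], nat_lit 1271250, nat_lit 1271250, nat_lit 780000, nat_lit 3072500, nat_lit 0, nat_lit 0, [nat_lit 1100000, nat_lit 1785000, nat_lit 1271250], [nat_lit 29, nat_lit 40, nat_lit 20, nat_lit 80, nat_lit 17, nat_lit 401, nat_lit 175, nat_lit 12]⟩, ⟨p012_k5, nat_lit 0, nat_lit 0, nat_lit 225, nat_lit 0, nat_lit 0, [nat_lit 4688000000, nat_lit 7968000000, nat_lit 9842000000], [], [nat_lit 25382503376, nat_lit 26808201846, nat_lit 41967941364, nat_lit 42622949658],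 nat_lit 0, nat_lit 0, nat_lit 0, nat_lit 0, nat_lit 0, nat_lit 0, [], [nat_lit 29, nat_lit 40, nat_lit 20, nat_lit 80, nat_lit 17, nat_lit 401, nat_lit 175, nat_lit 12]⟩,
 zbF0, []⟩
noncomputable def p012_l12 : Lf2 := ⟨nat_lit 0, nat_lit 5, [nat_lit 4, nat_lit 5, nat_lit 5, nat_lit 20], false, nat_lit 0, nat_lit 0, nat_lit 0, nat_lit 0, ⟨nat_lit 0, nat_lit 0, nat_lit 1000, nat_lit 6, nat_lit 111, nat_lit 0, nat_lit 0, nat_lit 0, nat_lit 0, nat_lit 215, nat_lit 114817, nat_lit 298, nat_lit 62224851, nat_lit 0, nat_lit 0, nat_lit 1284565, false, false⟩,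
 nat_lit 7620, nat_lit 0, nat_lit 0, nat_lit 0, nat_lit 4033, nat_lit 0, nat_lit 0, nat_lit 0, nat_lit 0, nat_lit 0, nat_lit 0, nat_lit 0, nat_lit 0, nat_lit 0, nat_lit 144, nat_lit 977800, nat_lit 0, nat_lit 0, [(nat_lit 6, [(nat_lit 5, nat_lit 37), (nat_lit 6, nat_lit 963)])],
 ⟨p012_k5, nat_lit 0, nat_lit 0, nat_lit 295, nat_lit 0, nat_lit 44750, [nat_lit 3833693200, nat_lit 1707145601, nat_lit 4008000], [], [nat_lit 13226639997, nat_lit 13764113829, nat_lit 12445979869, nat_lit 12863113618], nat_lit 1271250, nat_lit 1271250, nat_lit 88400, nat_lit 780000, nat_lit 0, nat_lit 0, [nat_lit 1100000, nat_lit 1785000, nat_lit 1271250], [nat_lit 29, nat_lit 40, nat_lit 20, nat_lit 80, nat_lit 17, nat_lit 317, nat_lit 100, nat_lit 10]⟩, ⟨p012_k5, nat_lit 0, nat_lit 0, nat_lit 293, nat_lit 0, nat_lit 44750, [nat_lit 0, nat_lit 0, nat_lit 0], [], [nat_lit 0, nat_lit 0, nat_lit 0, nat_lit 0],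 nat_lit 1271250, nat_lit 1271250, nat_lit 88400, nat_lit 780000, nat_lit 0, nat_lit 0, [nat_lit 1100000, nat_lit 1785000, nat_lit 1271250], [nat_lit 29, nat_lit 40, nat_lit 20, nat_lit 80, nat_lit 17, nat_lit 317, nat_lit 100, nat_lit 10]⟩,
 ⟨nat_lit 6123, nat_lit 6325, ⟨.ofNat (nat_lit 164319), .ofNat (nat_lit 378206), .ofNat (nat_lit 169661), .ofNat (nat_lit 383548), .ofNat (nat_lit 172944), .ofNat (nat_lit 381933), .ofNat (nat_lit 178281), .ofNat (nat_lit 387270)⟩, ⟨.ofNat (nat_lit 0), .ofNat (nat_lit 0), .ofNat (nat_lit 0), .ofNat (nat_lit 0), .ofNat (nat_lit 0), .ofNat (nat_lit 0), .ofNat (nat_lit 0), .ofNat (nat_lit 0)⟩⟩, [⟨nat_lit 0, nat_lit 100, nat_lit 100, nat_lit 44, nat_lit 160082164⟩]⟩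
noncomputable def p012_l13 : Lf2 := ⟨nat_lit 0, nat_lit 5, [nat_lit 4, nat_lit 5, nat_lit 5, nat_lit 20], true, nat_lit 0, nat_lit 0, nat_lit 0, nat_lit 0, ⟨nat_lit 0, nat_lit 0, nat_lit 1000, nat_lit 6, nat_lit 98, nat_lit 0, nat_lit 0, nat_lit 0, nat_lit 0, nat_lit 215, nat_lit 91267, nat_lit 289, nat_lit 63183788, nat_lit 0, nat_lit 0, nat_lit 1092568, false, false⟩,
 nat_lit 0, nat_lit 7516, nat_lit 0, nat_lit 0, nat_lit 4076, nat_lit 0, nat_lit 135, nat_lit 0, nat_lit 0, nat_lit 0, nat_lit 0, nat_lit 0, nat_lit 0, nat_lit 1348249282107, nat_lit 131, nat_lit 878200, nat_lit 0, nat_lit 0, [(nat_lit 6, [(nat_lit 5, nat_lit 203), (nat_lit 6, nat_lit 797)])],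
 ⟨p012_k1, nat_lit 0, nat_lit 0, nat_lit 289, nat_lit 0, nat_lit 48001, [nat_lit 3606370801, nat_lit 1528299734, nat_lit 2552000], [], [nat_lit 13109983343, nat_lit 13237102570, nat_lit 12317203433, nat_lit 12438435956], nat_lit 1271250, nat_lit 1271250, nat_lit 111251, nat_lit 490000, nat_lit 0, nat_lit 0, [nat_lit 1100000, nat_lit 1785000, nat_lit 1271250], [nat_lit 29, nat_lit 40, nat_lit 20, nat_lit 80, nat_lit 17, nat_lit 317, nat_lit 100, nat_lit 10]⟩, C1.Rw.none,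
 ⟨nat_lit 6164, nat_lit 6225, ⟨.ofNat (nat_lit 182121), .ofNat (nat_lit 304098), .ofNat (nat_lit 185325), .ofNat (nat_lit 307301), .ofNat (nat_lit 184644), .ofNat (nat_lit 305776), .ofNat (nat_lit 187847), .ofNat (nat_lit 308978)⟩, ⟨.ofNat (nat_lit 0), .ofNat (nat_lit 0), .ofNat (nat_lit 0), .ofNat (nat_lit 0), .ofNat (nat_lit 0), .ofNat (nat_lit 0), .ofNat (nat_lit 0), .ofNat (nat_lit 0)⟩⟩, [⟨nat_lit 0, nat_lit 100, nat_lit 100, nat_lit 48, nat_lit 182425602⟩]⟩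
noncomputable def p012_l14 : Lf2 := ⟨nat_lit 0, nat_lit 5, [nat_lit 4, nat_lit 5, nat_lit 5, nat_lit 20], true, nat_lit 0, nat_lit 0, nat_lit 0, nat_lit 0, ⟨nat_lit 0, nat_lit 0, nat_lit 1000, nat_lit 6, nat_lit 99, nat_lit 0, nat_lit 0, nat_lit 0, nat_lit 0, nat_lit 215, nat_lit 91267, nat_lit 289, nat_lit 63127019, nat_lit 0, nat_lit 0, nat_lit 1104426, false, false⟩,
 nat_lit 0, nat_lit 7609, nat_lit 0, nat_lit 0, nat_lit 4187, nat_lit 0, nat_lit 530, nat_lit 0, nat_lit 0, nat_lit 0, nat_lit 0, nat_lit 0, nat_lit 0, nat_lit 22940155440717, nat_lit 69, nat_lit 400000, nat_lit 0, nat_lit 0, [(nat_lit 6, [(nat_lit 5, nat_lit 1000)])],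
 ⟨p012_k2, nat_lit 0, nat_lit 0, nat_lit 294, nat_lit 0, nat_lit 56408, [nat_lit 2521600001, nat_lit 679600001, nat_lit 7200000], [], [nat_lit 13426738540, nat_lit 13469773158, nat_lit 12578806307, nat_lit 12619578542], nat_lit 1271250, nat_lit 1271250, nat_lit 111251, nat_lit 490000, nat_lit 0, nat_lit 0, [nat_lit 1100000, nat_lit 1785000, nat_lit 1271250], [nat_lit 29, nat_lit 40, nat_lit 20, nat_lit 80, nat_lit 17, nat_lit 317, nat_lit 100, nat_lit 10]⟩, C1.Rw.none,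
 ⟨nat_lit 6144, nat_lit 6165, ⟨.ofNat (nat_lit 184644), .ofNat (nat_lit 305776), .ofNat (nat_lit 188914), .ofNat (nat_lit 310046), .ofNat (nat_lit 185482), .ofNat (nat_lit 306333), .ofNat (nat_lit 189752), .ofNat (nat_lit 310603)⟩, ⟨.ofNat (nat_lit 0), .ofNat (nat_lit 0), .ofNat (nat_lit 0), .ofNat (nat_lit 0), .ofNat (nat_lit 0), .ofNat (nat_lit 0), .ofNat (nat_lit 0), .ofNat (nat_lit 0)⟩⟩, [⟨nat_lit 0, nat_lit 100, nat_lit 100, nat_lit 49, nat_lit 186495991⟩]⟩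
noncomputable def p012_l15 : Lf2 := ⟨nat_lit 0, nat_lit 5, [nat_lit 4, nat_lit 5, nat_lit 5, nat_lit 20], true, nat_lit 0, nat_lit 0, nat_lit 0, nat_lit 0, ⟨nat_lit 0, nat_lit 0, nat_lit 1000, nat_lit 6, nat_lit 100, nat_lit 0, nat_lit 0, nat_lit 0, nat_lit 0, nat_lit 215, nat_lit 93750, nat_lit 290, nat_lit 63090686, nat_lit 0, nat_lit 0, nat_lit 1111980, false, false⟩,
 nat_lit 0, nat_lit 7202, nat_lit 0, nat_lit 0, nat_lit 3982, nat_lit 0, nat_lit 414, nat_lit 0, nat_lit 0, nat_lit 0, nat_lit 0, nat_lit 0, nat_lit 0, nat_lit 21892983855237, nat_lit 69, nat_lit 400000, nat_lit 0, nat_lit 0, [(nat_lit 6, [(nat_lit 5, nat_lit 1000)])],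
 ⟨p012_k3, nat_lit 0, nat_lit 0, nat_lit 298, nat_lit 0, nat_lit 65185, [nat_lit 2521600001, nat_lit 679600001, nat_lit 7200000], [], [nat_lit 13780349937, nat_lit 13837730373, nat_lit 12876273832, nat_lit 12931141573], nat_lit 1271250, nat_lit 1271250, nat_lit 111251, nat_lit 490000, nat_lit 0, nat_lit 0, [nat_lit 1100000, nat_lit 1785000, nat_lit 1271250], [nat_lit 29, nat_lit 40, nat_lit 20, nat_lit 80, nat_lit 17, nat_lit 317, nat_lit 100, nat_lit 10]⟩, C1.Rw.none,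
 ⟨nat_lit 6123, nat_lit 6145, ⟨.ofNat (nat_lit 185482), .ofNat (nat_lit 306333), .ofNat (nat_lit 190819), .ofNat (nat_lit 311670), .ofNat (nat_lit 186319), .ofNat (nat_lit 306890), .ofNat (nat_lit 191656), .ofNat (nat_lit 312227)⟩, ⟨.ofNat (nat_lit 0), .ofNat (nat_lit 0), .ofNat (nat_lit 0), .ofNat (nat_lit 0), .ofNat (nat_lit 0), .ofNat (nat_lit 0), .ofNat (nat_lit 0), .ofNat (nat_lit 0)⟩⟩, [⟨nat_lit 0, nat_lit 100, nat_lit 100, nat_lit 50, nat_lit 191461171⟩]⟩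
noncomputable def p012_l16 : Lf2 := ⟨nat_lit 0, nat_lit 5, [nat_lit 4, nat_lit 5, nat_lit 5, nat_lit 20], true, nat_lit 0, nat_lit 0, nat_lit 0, nat_lit 0, ⟨nat_lit 0, nat_lit 0, nat_lit 1000, nat_lit 6, nat_lit 139, nat_lit 0, nat_lit 0, nat_lit 0, nat_lit 0, nat_lit 215, nat_lit 183750, nat_lit 320, nat_lit 59740712, nat_lit 0, nat_lit 0, nat_lit 1715230, false, false⟩,
 nat_lit 0, nat_lit 8116, nat_lit 0, nat_lit 0, nat_lit 4402, nat_lit 0, nat_lit 0, nat_lit 0, nat_lit 0, nat_lit 0, nat_lit 0, nat_lit 0, nat_lit 0, nat_lit 0, nat_lit 69, nat_lit 400000, nat_lit 0, nat_lit 0, [(nat_lit 6, [(nat_lit 5, nat_lit 1000)])],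
 ⟨p012_k1, nat_lit 0, nat_lit 0, nat_lit 237, nat_lit 0, nat_lit 131789, [nat_lit 2521600001, nat_lit 679600001, nat_lit 7200000], [], [nat_lit 13988619327, nat_lit 14275109893, nat_lit 14175666574, nat_lit 14448610139], nat_lit 1271250, nat_lit 1271250, nat_lit 490000, nat_lit 780000, nat_lit 0, nat_lit 0, [nat_lit 1100000, nat_lit 1785000, nat_lit 1271250], [nat_lit 29, nat_lit 40, nat_lit 20, nat_lit 80, nat_lit 17, nat_lit 317, nat_lit 100, nat_lit 9]⟩, C1.Rw.none,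
 ⟨nat_lit 6123, nat_lit 6225, ⟨.ofNat (nat_lit 304098), .ofNat (nat_lit 385416), .ofNat (nat_lit 309437), .ofNat (nat_lit 390755), .ofNat (nat_lit 306890), .ofNat (nat_lit 387270), .ofNat (nat_lit 312227), .ofNat (nat_lit 392607)⟩, ⟨.ofNat (nat_lit 0), .ofNat (nat_lit 0), .ofNat (nat_lit 0), .ofNat (nat_lit 0), .ofNat (nat_lit 0), .ofNat (nat_lit 0), .ofNat (nat_lit 0), .ofNat (nat_lit 0)⟩⟩, []⟩
noncomputable def p012_l17 : Lf2 := ⟨nat_lit 1, nat_lit 5, [nat_lit 4, nat_lit 5, nat_lit 5, nat_lit 20], false, nat_lit 0, nat_lit 0, nat_lit 0, nat_lit 0, zbN0,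
 nat_lit 0, nat_lit 0, nat_lit 0, nat_lit 0, nat_lit 0, nat_lit 0, nat_lit 0, nat_lit 0, nat_lit 0, nat_lit 0, nat_lit 0, nat_lit 0, nat_lit 0, nat_lit 0, nat_lit 0, nat_lit 0, nat_lit 0, nat_lit 0, [],
 C1.Rw.none, C1.Rw.none,
 zbF0, []⟩
noncomputable def p012_l18 : Lf2 := ⟨nat_lit 0, nat_lit 5, [nat_lit 4, nat_lit 5, nat_lit 5, nat_lit 20], false, nat_lit 0, nat_lit 0, nat_lit 0, nat_lit 0, ⟨nat_lit 0, nat_lit 0, nat_lit 1000, nat_lit 6, nat_lit 116, nat_lit 0, nat_lit 0, nat_lit 0, nat_lit 0, nat_lit 215, nat_lit 126150, nat_lit 302, nat_lit 61809483, nat_lit 0, nat_lit 0, nat_lit 1362732, false, false⟩,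
 nat_lit 0, nat_lit 9209, nat_lit 0, nat_lit 0, nat_lit 5116, nat_lit 0, nat_lit 0, nat_lit 0, nat_lit 0, nat_lit 0, nat_lit 0, nat_lit 0, nat_lit 0, nat_lit 0, nat_lit 37, nat_lit 337750, nat_lit 0, nat_lit 0, [(nat_lit 6, [(nat_lit 4, nat_lit 415), (nat_lit 5, nat_lit 585)])],
 ⟨p012_k4, nat_lit 0, nat_lit 0, nat_lit 264, nat_lit 0, nat_lit 118809, [nat_lit 2605872000, nat_lit 796440001, nat_lit 99051999], [], [nat_lit 14751320646, nat_lit 15263789806, nat_lit 13630315422, nat_lit 14092050926], nat_lit 1271250, nat_lit 1271250, nat_lit 111251, nat_lit 780000, nat_lit 0, nat_lit 0, [nat_lit 1100000, nat_lit 1442500, nat_lit 1271250], [nat_lit 9, nat_lit 40, nat_lit 20, nat_lit 80, nat_lit 2, nat_lit 238, nat_lit 30, nat_lit 8]⟩, ⟨p012_k0, nat_lit 0, nat_lit 0, nat_lit 316, nat_lit 0, nat_lit 125663, [nat_lit 0, nat_lit 0, nat_lit 0], [], [nat_lit 0, nat_lit 0, nat_lit 0, nat_lit 0],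 nat_lit 1271250, nat_lit 1271250, nat_lit 111251, nat_lit 780000, nat_lit 0, nat_lit 0, [nat_lit 1100000, nat_lit 1442500, nat_lit 1271250], [nat_lit 11, nat_lit 40, nat_lit 20, nat_lit 80, nat_lit 1, nat_lit 317, nat_lit 100, nat_lit 10]⟩,
 ⟨nat_lit 5916, nat_lit 6124, ⟨.ofNat (nat_lit 180982), .ofNat (nat_lit 381933), .ofNat (nat_lit 191656), .ofNat (nat_lit 392607), .ofNat (nat_lit 189276), .ofNat (nat_lit 385610), .ofNat (nat_lit 199946), .ofNat (nat_lit 396280)⟩, ⟨.ofNat (nat_lit 0), .ofNat (nat_lit 0), .ofNat (nat_lit 0), .ofNat (nat_lit 0), .ofNat (nat_lit 0), .ofNat (nat_lit 0), .ofNat (nat_lit 0), .ofNat (nat_lit 0)⟩⟩, [⟨nat_lit 0, nat_lit 100, nat_lit 99, nat_lit 55, nat_lit 173997351⟩]⟩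
noncomputable def p012_l19 : Lf2 := ⟨nat_lit 0, nat_lit 5, [nat_lit 4, nat_lit 5, nat_lit 5, nat_lit 20], false, nat_lit 0, nat_lit 0, nat_lit 0, nat_lit 0, ⟨nat_lit 1000, nat_lit 0, nat_lit 0, nat_lit 0, nat_lit 0, nat_lit 0, nat_lit 0, nat_lit 0, nat_lit 0, nat_lit 0, nat_lit 0, nat_lit 0, nat_lit 0, nat_lit 0, nat_lit 0, nat_lit 0, false, false⟩,
 nat_lit 25240, nat_lit 0, nat_lit 0, nat_lit 0, nat_lit 14022, nat_lit 14022, nat_lit 0, nat_lit 0, nat_lit 0, nat_lit 0, nat_lit 0, nat_lit 0, nat_lit 0, nat_lit 0, nat_lit 0, nat_lit 0, nat_lit 0, nat_lit 0, [],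
 ⟨p012_k4, nat_lit 0, nat_lit 0, nat_lit 265, nat_lit 0, nat_lit 166602, [nat_lit 4688000000, nat_lit 6250000000, nat_lit 7968000000], [], [nat_lit 27229933332, nat_lit 28333957538, nat_lit 20480942412, nat_lit 21462261368], nat_lit 1271250, nat_lit 1271250, nat_lit 134400, nat_lit 780000, nat_lit 0, nat_lit 0, [nat_lit 1100000, nat_lit 1442500, nat_lit 1271250], [nat_lit 9, nat_lit 40, nat_lit 20, nat_lit 80, nat_lit 2, nat_lit 238, nat_lit 30, nat_lit 8]⟩, ⟨p012_k4, nat_lit 0, nat_lit 0, nat_lit 265, nat_lit 0, nat_lit 166602, [nat_lit 4688000000, nat_lit 6250000000, nat_lit 7968000000], [], [nat_lit 27229933332, nat_lit 28333957538, nat_lit 20480942412, nat_lit 21462261368], nat_lit 1271250, nat_lit 1271250, nat_lit 134400, nat_lit 780000, nat_lit 0, nat_lit 0, [nat_lit 1100000, nat_lit 1442500, nat_lit 1271250], [nat_lit 9, nat_lit 40, nat_lit 20, nat_lit 80, nat_lit 2, nat_lit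 238, nat_lit 30, nat_lit 8]⟩,
 zbF0, [⟨nat_lit 0, nat_lit 100, nat_lit 100, nat_lit 60, nat_lit 1392976470⟩]⟩
noncomputable def p012_l20 : Lf2 := ⟨nat_lit 0, nat_lit 5, [nat_lit 4, nat_lit 5, nat_lit 5, nat_lit 20], false, nat_lit 0, nat_lit 0, nat_lit 0, nat_lit 0, ⟨nat_lit 1000, nat_lit 0, nat_lit 0, nat_lit 0, nat_lit 0, nat_lit 0, nat_lit 0, nat_lit 0, nat_lit 0, nat_lit 0, nat_lit 0, nat_lit 0, nat_lit 0, nat_lit 0, nat_lit 0, nat_lit 0, false, false⟩,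
 nat_lit 9779, nat_lit 0, nat_lit 0, nat_lit 0, nat_lit 5176, nat_lit 5176, nat_lit 0, nat_lit 0, nat_lit 0, nat_lit 0, nat_lit 0, nat_lit 0, nat_lit 0, nat_lit 0, nat_lit 0, nat_lit 0, nat_lit 0, nat_lit 0, [],
 ⟨p012_k0, nat_lit 0, nat_lit 0, nat_lit 223, nat_lit 0, nat_lit 176213, [nat_lit 4688000000, nat_lit 6250000000, nat_lit 9842000000], [], [nat_lit 34913912064, nat_lit 34772938720, nat_lit 41476836256, nat_lit 39037874000], nat_lit 1271250, nat_lit 1271250, nat_lit 780000, nat_lit 1762500, nat_lit 0, nat_lit 0, [nat_lit 1100000, nat_lit 1442500, nat_lit 1271250], [nat_lit 11, nat_lit 40, nat_lit 20, nat_lit 80, nat_lit 1, nat_lit 345, nat_lit 125, nat_lit 10]⟩, ⟨p012_k0, nat_lit 0, nat_lit 0, nat_lit 223, nat_lit 0, nat_lit 176213, [nat_lit 4688000000, nat_lit 6250000000, nat_lit 9842000000], [], [nat_lit 34913912064, nat_lit 34772938720, nat_lit 41476836256, nat_lit 39037874000],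 nat_lit 1271250, nat_lit 1271250, nat_lit 780000, nat_lit 1762500, nat_lit 0, nat_lit 0, [nat_lit 1100000, nat_lit 1442500, nat_lit 1271250], [nat_lit 11, nat_lit 40, nat_lit 20, nat_lit 80, nat_lit 1, nat_lit 345, nat_lit 125, nat_lit 10]⟩,
 zbF0, []⟩
noncomputable def p012_l21 : Lf2 := ⟨nat_lit 0, nat_lit 5, [nat_lit 4, nat_lit 5, nat_lit 5, nat_lit 20], false, nat_lit 0, nat_lit 0, nat_lit 0, nat_lit 0, ⟨nat_lit 1000, nat_lit 0, nat_lit 0, nat_lit 0, nat_lit 0, nat_lit 0, nat_lit 0, nat_lit 0, nat_lit 0, nat_lit 0, nat_lit 0, nat_lit 0, nat_lit 0, nat_lit 0, nat_lit 0, nat_lit 0, false, false⟩,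
 nat_lit 16509, nat_lit 0, nat_lit 0, nat_lit 0, nat_lit 8739, nat_lit 8739, nat_lit 0, nat_lit 0, nat_lit 0, nat_lit 680, nat_lit 0, nat_lit 0, nat_lit 0, nat_lit 0, nat_lit 0, nat_lit 0, nat_lit 0, nat_lit 0, [],
 ⟨p012_k0, nat_lit 0, nat_lit 0, nat_lit 303, nat_lit 0, nat_lit 176213, [nat_lit 4688000000, nat_lit 6250000000, nat_lit 9842000000], [], [nat_lit 36894564796, nat_lit 37734839940, nat_lit 45765673912, nat_lit 46139436632], nat_lit 1271250, nat_lit 1271250, nat_lit 1271250, nat_lit 1271250, nat_lit 0, nat_lit 0, [nat_lit 1100000, nat_lit 1442500, nat_lit 1271250], [nat_lit 11, nat_lit 40, nat_lit 20, nat_lit 80, nat_lit 1, nat_lit 401, nat_lit 175, nat_lit 11]⟩, ⟨p012_k0, nat_lit 0, nat_lit 0, nat_lit 303, nat_lit 0, nat_lit 176213, [nat_lit 4688000000, nat_lit 6250000000, nat_lit 9842000000], [], [nat_lit 32551064796, nat_lit 33391339940, nat_lit 41422173912, nat_lit 41795936632],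 nat_lit 1271250, nat_lit 1271250, nat_lit 1271250, nat_lit 1271250, nat_lit 0, nat_lit 0, [nat_lit 1100000, nat_lit 1442500, nat_lit 1271250], [nat_lit 11, nat_lit 40, nat_lit 20, nat_lit 80, nat_lit 1, nat_lit 401, nat_lit 175, nat_lit 11]⟩,
 zbF0, [⟨nat_lit 13, nat_lit 97, nat_lit 11, nat_lit 100, nat_lit 49149259⟩]⟩
noncomputable def p012_l22 : Lf2 := ⟨nat_lit 0, nat_lit 5, [nat_lit 4, nat_lit 5, nat_lit 5, nat_lit 20], true, nat_lit 0, nat_lit 0, nat_lit 0, nat_lit 0, ⟨nat_lit 0, nat_lit 1000, nat_lit 0, nat_lit 6, nat_lit 115, nat_lit 0, nat_lit 0, nat_lit 0, nat_lit 0, nat_lit 0, nat_lit 0, nat_lit 0, nat_lit 0, nat_lit 0, nat_lit 0, nat_lit 5000000, false, false⟩,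
 nat_lit 0, nat_lit 12034, nat_lit 0, nat_lit 0, nat_lit 6370, nat_lit 0, nat_lit 507, nat_lit 0, nat_lit 0, nat_lit 0, nat_lit 0, nat_lit 0, nat_lit 0, nat_lit 51082436913526, nat_lit 0, nat_lit 400000, nat_lit 0, nat_lit 0, [(nat_lit 6, [(nat_lit 1, nat_lit 1000)])],
 ⟨p012_k0, nat_lit 0, nat_lit 0, nat_lit 450, nat_lit 0, nat_lit 347165, [nat_lit 2692266667, nat_lit 3151066667, nat_lit 3294533333], [], [nat_lit 28842895705, nat_lit 25545342901, nat_lit 28453213388, nat_lit 25451631168], nat_lit 1271250, nat_lit 1271250, nat_lit 88400, nat_lit 780000, nat_lit 0, nat_lit 0, [nat_lit 1100000, nat_lit 1442500, nat_lit 1271250], [nat_lit 11, nat_lit 40, nat_lit 20, nat_lit 80, nat_lit 1, nat_lit 317, nat_lit 100, nat_lit 10]⟩, C1.Rw.none,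
 ⟨nat_lit 5916, nat_lit 6325, ⟨.ofNat (nat_lit 164319), .ofNat (nat_lit 378206), .ofNat (nat_lit 185687), .ofNat (nat_lit 399574), .ofNat (nat_lit 181423), .ofNat (nat_lit 385610), .ofNat (nat_lit 202762), .ofNat (nat_lit 406949)⟩, ⟨.ofNat (nat_lit 0), .ofNat (nat_lit 0), .ofNat (nat_lit 0), .ofNat (nat_lit 0), .ofNat (nat_lit 0), .ofNat (nat_lit 0), .ofNat (nat_lit 0), .ofNat (nat_lit 0)⟩⟩, []⟩
noncomputable def p012_l23 : Lf2 := ⟨nat_lit 0, nat_lit 5, [nat_lit 4, nat_lit 5, nat_lit 5, nat_lit 20], false, nat_lit 0, nat_lit 0, nat_lit 0, nat_lit 0, ⟨nat_lit 1000, nat_lit 0, nat_lit 0, nat_lit 0, nat_lit 0, nat_lit 0, nat_lit 0, nat_lit 0, nat_lit 0, nat_lit 0, nat_lit 0, nat_lit 0, nat_lit 0, nat_lit 0, nat_lit 0, nat_lit 0, false, false⟩,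
 nat_lit 0, nat_lit 7194, nat_lit 0, nat_lit 0, nat_lit 3808, nat_lit 8788, nat_lit 1405, nat_lit 0, nat_lit 0, nat_lit 0, nat_lit 0, nat_lit 0, nat_lit 0, nat_lit 22419256771013, nat_lit 0, nat_lit 0, nat_lit 0, nat_lit 0, [],
 ⟨p012_k0, nat_lit 0, nat_lit 0, nat_lit 356, nat_lit 0, nat_lit 347165, [nat_lit 4688000000, nat_lit 6250000000, nat_lit 9842000000], [], [nat_lit 36740794720, nat_lit 34729017300, nat_lit 48391614368, nat_lit 46667321504], nat_lit 1271250, nat_lit 1271250, nat_lit 780000, nat_lit 3072500, nat_lit 0, nat_lit 0, [nat_lit 1100000, nat_lit 1442500, nat_lit 1271250], [nat_lit 11, nat_lit 40, nat_lit 20, nat_lit 80, nat_lit 1, nat_lit 401, nat_lit 175, nat_lit 12]⟩, ⟨p012_k0, nat_lit 0, nat_lit 0, nat_lit 214, nat_lit 0, nat_lit 0, [nat_lit 4688000000, nat_lit 6250000000, nat_lit 9842000000], [], [nat_lit 24950292736, nat_lit 26824053368, nat_lit 43236631728, nat_lit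 43916037816], nat_lit 0, nat_lit 0, nat_lit 0, nat_lit 0, nat_lit 0, nat_lit 0, [], [nat_lit 11, nat_lit 40, nat_lit 20, nat_lit 80, nat_lit 1, nat_lit 401, nat_lit 175, nat_lit 12]⟩,
 zbF0, []⟩
noncomputable def p012_l24 : Lf2 := ⟨nat_lit 0, nat_lit 5, [nat_lit 4, nat_lit 5, nat_lit 5, nat_lit 20], false, nat_lit 0, nat_lit 0, nat_lit 0, nat_lit 0, ⟨nat_lit 28, nat_lit 972, nat_lit 0, nat_lit 6, nat_lit 163, nat_lit 0, nat_lit 0, nat_lit 0, nat_lit 0, nat_lit 0, nat_lit 0, nat_lit 0, nat_lit 0, nat_lit 0, nat_lit 0, nat_lit 5000000, false, false⟩,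
 nat_lit 6992, nat_lit 0, nat_lit 0, nat_lit 0, nat_lit 3701, nat_lit 445, nat_lit 0, nat_lit 0, nat_lit 0, nat_lit 0, nat_lit 0, nat_lit 0, nat_lit 0, nat_lit 25345105136037, nat_lit 0, nat_lit 388800, nat_lit 0, nat_lit 0, [(nat_lit 6, [(nat_lit 1, nat_lit 972)])],
 ⟨p012_k0, nat_lit 0, nat_lit 0, nat_lit 342, nat_lit 0, nat_lit 176213, [nat_lit 2748147200, nat_lit 3237836800, nat_lit 3473494400], [], [nat_lit 32312959940, nat_lit 30367973410, nat_lit 32944425456, nat_lit 31200492050], nat_lit 1271250, nat_lit 1271250, nat_lit 88400, nat_lit 1704000, nat_lit 0, nat_lit 0, [nat_lit 1100000, nat_lit 1442500, nat_lit 1271250], [nat_lit 11, nat_lit 40, nat_lit 20, nat_lit 80, nat_lit 1, nat_lit 345, nat_lit 125, nat_lit 10]⟩, ⟨p012_k0, nat_lit 0, nat_lit 0, nat_lit 342, nat_lit 0, nat_lit 176213, [nat_lit 131264000, nat_lit 175000000, nat_lit 275576000], [], [nat_lit 1442980480, nat_lit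 1209119630, nat_lit 942480256, nat_lit 872784916], nat_lit 1271250, nat_lit 1271250, nat_lit 88400, nat_lit 1704000, nat_lit 0, nat_lit 0, [nat_lit 1100000, nat_lit 1442500, nat_lit 1271250], [nat_lit 11, nat_lit 40, nat_lit 20, nat_lit 80, nat_lit 1, nat_lit 345, nat_lit 125, nat_lit 10]⟩,
 ⟨nat_lit 5916, nat_lit 6325, ⟨.ofNat (nat_lit 164319), .ofNat (nat_lit 624961), .ofNat (nat_lit 185687), .ofNat (nat_lit 646322), .ofNat (nat_lit 181423), .ofNat (nat_lit 621173), .ofNat (nat_lit 202762), .ofNat (nat_lit 642505)⟩, ⟨.ofNat (nat_lit 0), .ofNat (nat_lit 0), .ofNat (nat_lit 0), .ofNat (nat_lit 0), .ofNat (nat_lit 0), .ofNat (nat_lit 0), .ofNat (nat_lit 0), .ofNat (nat_lit 0)⟩⟩, []⟩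
noncomputable def p012_l25 : Lf2 := ⟨nat_lit 0, nat_lit 5, [nat_lit 4, nat_lit 5, nat_lit 5, nat_lit 20], false, nat_lit 0, nat_lit 0, nat_lit 0, nat_lit 0, ⟨nat_lit 1000, nat_lit 0, nat_lit 0, nat_lit 0, nat_lit 0, nat_lit 0, nat_lit 0, nat_lit 0, nat_lit 0, nat_lit 0, nat_lit 0, nat_lit 0, nat_lit 0, nat_lit 0, nat_lit 0, nat_lit 0, false, false⟩,
 nat_lit 11840, nat_lit 0, nat_lit 0, nat_lit 0, nat_lit 6268, nat_lit 6268, nat_lit 1553, nat_lit 0, nat_lit 0, nat_lit 1569, nat_lit 0, nat_lit 0, nat_lit 0, nat_lit 0, nat_lit 0, nat_lit 0, nat_lit 0, nat_lit 0, [],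
 ⟨p012_k0, nat_lit 0, nat_lit 0, nat_lit 303, nat_lit 0, nat_lit 176213, [nat_lit 4688000000, nat_lit 6250000000, nat_lit 9842000000], [], [nat_lit 30326142340, nat_lit 30950467004, nat_lit 36893570644, nat_lit 37285915284], nat_lit 1271250, nat_lit 1271250, nat_lit 1271250, nat_lit 1271250, nat_lit 0, nat_lit 0, [nat_lit 1100000, nat_lit 1442500, nat_lit 1271250], [nat_lit 11, nat_lit 40, nat_lit 20, nat_lit 80, nat_lit 1, nat_lit 401, nat_lit 175, nat_lit 11]⟩, ⟨p012_k0, nat_lit 0, nat_lit 0, nat_lit 303, nat_lit 0, nat_lit 176213, [nat_lit 4688000000, nat_lit 6250000000, nat_lit 9842000000], [], [nat_lit 30223942340, nat_lit 30848267004, nat_lit 36791370644, nat_lit 37234712642], nat_lit 1271250, nat_lit 1271250, nat_lit 1271250, nat_lit 1271250, nat_lit 0, nat_lit 0, [nat_lit 1100000, nat_lit 1442500, nat_lit 1271250], [nat_lit 11, nat_lit 40, nat_lit 20, nat_lit 80, nat_lit 1,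 nat_lit 401, nat_lit 175, nat_lit 11]⟩,
 zbF0, []⟩
noncomputable def b_NL_600_600_0_10 : St := ⟨false, nat_lit 2, nat_lit 2, nat_lit 0, nat_lit 20, nat_lit 240, nat_lit 260, nat_lit 240, nat_lit 260, nat_lit 16, nat_lit 400, nat_lit 0, nat_lit 0, nat_lit 0, nat_lit 0, nat_lit 0, nat_lit 0, nat_lit 40, nat_lit 64, nat_lit 0, nat_lit 0, nat_lit 0, nat_lit 0⟩
theorem d_NL_600_600_0_10 (h : EB TB.env) : Dead b_NL_600_600_0_10 := chkB_sound0 h (T :=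
(.st (nat_lit 0)
(.gv
(.st (nat_lit 1)
(.leaf p012_l0)
(.spl (nat_lit 2) (nat_lit 120)
(.leaf p012_l1)
(.leaf p012_l2)))
(.leaf p012_l3))
(.gv
(.st (nat_lit 1)
(.spl (nat_lit 2) (nat_lit 120)
(.spl (nat_lit 2) (nat_lit 80)
(.spl (nat_lit 0) (nat_lit 250)
(.ord (.spl (nat_lit 6) (nat_lit 48)
(.spl (nat_lit 1) (nat_lit 245)
(.leaf p012_l4)
(.ord (.trZ (nat_lit 0) (nat_lit 100) (nat_lit 100) (nat_lit 45) (nat_lit 20) (.spl (nat_lit 1) (nat_lit 248)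
(.leaf p012_l5)
(.ord (.spl (nat_lit 0) (nat_lit 249)
(.ord (.leaf p012_l6))
(.leaf p012_l7)))))))
(.leaf p012_l8)))
(.trZ (nat_lit 0) (nat_lit 100) (nat_lit 99) (nat_lit 45) (nat_lit 20) (.leaf p012_l9)))
(.leaf p012_l10))
(.leaf p012_l11))
(.spl (nat_lit 2) (nat_lit 120)
(.spl (nat_lit 0) (nat_lit 250)
(.ord (.spl (nat_lit 6) (nat_lit 48)
(.spl (nat_lit 1) (nat_lit 245)
(.leaf p012_l12)
(.ord (.trZ (nat_lit 0) (nat_lit 100) (nat_lit 100) (nat_lit 45) (nat_lit 20) (.spl (nat_lit 2) (nat_lit 80)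
(.spl (nat_lit 0) (nat_lit 248)
(.ord (.leaf p012_l13))
(.spl (nat_lit 0) (nat_lit 249)
(.ord (.leaf p012_l14))
(.leaf p012_l15)))
(.leaf p012_l16)))))
(.leaf p012_l17)))
(.trZ (nat_lit 0) (nat_lit 100) (nat_lit 99) (nat_lit 45) (nat_lit 20) (.spl (nat_lit 1) (nat_lit 250)
(.leaf p012_l18)
(.trZ (nat_lit 0) (nat_lit 100) (nat_lit 100) (nat_lit 50) (nat_lit 24) (.leaf p012_l19)))))
(.spl (nat_lit 2) (nat_lit 240)
(.leaf p012_l20)
(.leaf p012_l21))))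
(.st (nat_lit 1)
(.spl (nat_lit 2) (nat_lit 120)
(.leaf p012_l22)
(.leaf p012_l23))
(.spl (nat_lit 2) (nat_lit 240)
(.leaf p012_l24)
(.leaf p012_l25)))))) (by decide +kernel)
noncomputable def p012_l26 : Lf2 := ⟨nat_lit 0, nat_lit 5, [nat_lit 4, nat_lit 5, nat_lit 5, nat_lit 20], true, nat_lit 0, nat_lit 0, nat_lit 0, nat_lit 0, ⟨nat_lit 0, nat_lit 0, nat_lit 1000, nat_lit 4, nat_lit 95, nat_lit 0, nat_lit 0, nat_lit 0, nat_lit 0, nat_lit 215, nat_lit 84017, nat_lit 286, nat_lit 63414693, nat_lit 0, nat_lit 0, nat_lit 1043637, false, false⟩,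
 nat_lit 0, nat_lit 0, nat_lit 0, nat_lit 2803, nat_lit 3837, nat_lit 0, nat_lit 0, nat_lit 0, nat_lit 0, nat_lit 0, nat_lit 0, nat_lit 0, nat_lit 0, nat_lit 0, nat_lit 55, nat_lit 400000, nat_lit 0, nat_lit 0, [(nat_lit 9, [(nat_lit 5, nat_lit 1000)])],
 ⟨p012_k6, nat_lit 0, nat_lit 0, nat_lit 188, nat_lit 0, nat_lit 0, [nat_lit 2406400000, nat_lit 19600000], [], [nat_lit 15480115680, nat_lit 16910698376, nat_lit 14951778614, nat_lit 16025918940], nat_lit 0, nat_lit 0, nat_lit 0, nat_lit 0, nat_lit 0, nat_lit 0, [], [nat_lit 39, nat_lit 40, nat_lit 20, nat_lit 80, nat_lit 7, nat_lit 249, nat_lit 40, nat_lit 9]⟩, C1.Rw.none,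
 ⟨nat_lit 5477, nat_lit 5917, ⟨.ofNat (nat_lit 64652), .ofNat (nat_lit 378786), .ofNat (nat_lit 85991), .ofNat (nat_lit 400126), .ofNat (nat_lit 82619), .ofNat (nat_lit 382351), .ofNat (nat_lit 103976), .ofNat (nat_lit 403708)⟩, ⟨.ofNat (nat_lit 0), .ofNat (nat_lit 0), .ofNat (nat_lit 0), .ofNat (nat_lit 0), .ofNat (nat_lit 0), .ofNat (nat_lit 0), .ofNat (nat_lit 0), .ofNat (nat_lit 0)⟩⟩, [⟨nat_lit 0, nat_lit 100, nat_lit 95, nat_lit 21, nat_lit 116957454⟩]⟩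
noncomputable def p012_l27 : Lf2 := ⟨nat_lit 0, nat_lit 5, [nat_lit 4, nat_lit 5, nat_lit 5, nat_lit 20], false, nat_lit 0, nat_lit 0, nat_lit 0, nat_lit 0, ⟨nat_lit 1000, nat_lit 0, nat_lit 0, nat_lit 0, nat_lit 0, nat_lit 0, nat_lit 0, nat_lit 0, nat_lit 0, nat_lit 0, nat_lit 0, nat_lit 0, nat_lit 0, nat_lit 0, nat_lit 0, nat_lit 0, false, false⟩,
 nat_lit 0, nat_lit 0, nat_lit 0, nat_lit 0, nat_lit 5883, nat_lit 10756, nat_lit 0, nat_lit 0, nat_lit 0, nat_lit 0, nat_lit 0, nat_lit 0, nat_lit 0, nat_lit 0, nat_lit 0, nat_lit 0, nat_lit 0, nat_lit 0, [],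
 ⟨p012_k6, nat_lit 0, nat_lit 0, nat_lit 176, nat_lit 0, nat_lit 0, [nat_lit 4688000000, nat_lit 7968000000], [], [nat_lit 24690515226, nat_lit 26001987460, nat_lit 36443566485, nat_lit 37162312715], nat_lit 0, nat_lit 0, nat_lit 0, nat_lit 0, nat_lit 0, nat_lit 0, [], [nat_lit 39, nat_lit 40, nat_lit 20, nat_lit 80, nat_lit 7, nat_lit 317, nat_lit 100, nat_lit 10]⟩, ⟨p012_k7, nat_lit 0, nat_lit 0, nat_lit 289, nat_lit 0, nat_lit 0, [nat_lit 7968000000, nat_lit 14058000000], [], [nat_lit 38657975072, nat_lit 38920401800, nat_lit 53029824781, nat_lit 52828423050], nat_lit 0, nat_lit 0, nat_lit 0, nat_lit 0, nat_lit 0, nat_lit 0, [], [nat_lit 121, nat_lit 40, nat_lit 20, nat_lit 80, nat_lit 28, nat_lit 373, nat_lit 150, nat_lit 9]⟩,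
 zbF0, []⟩
noncomputable def p012_l28 : Lf2 := ⟨nat_lit 0, nat_lit 5, [nat_lit 4, nat_lit 5, nat_lit 5, nat_lit 20], true, nat_lit 0, nat_lit 0, nat_lit 0, nat_lit 0, ⟨nat_lit 0, nat_lit 0, nat_lit 1000, nat_lit 4, nat_lit 95, nat_lit 0, nat_lit 0, nat_lit 0, nat_lit 0, nat_lit 215, nat_lit 84017, nat_lit 286, nat_lit 63414693, nat_lit 0, nat_lit 0, nat_lit 1043637, false, false⟩,
 nat_lit 0, nat_lit 0, nat_lit 0, nat_lit 2803, nat_lit 3837, nat_lit 0, nat_lit 0, nat_lit 0, nat_lit 0, nat_lit 0, nat_lit 0, nat_lit 0, nat_lit 0, nat_lit 0, nat_lit 55, nat_lit 400000, nat_lit 0, nat_lit 0, [(nat_lit 9, [(nat_lit 5, nat_lit 1000)])],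
 ⟨p012_k6, nat_lit 0, nat_lit 0, nat_lit 188, nat_lit 0, nat_lit 0, [nat_lit 2406400000, nat_lit 19600000], [], [nat_lit 15480115680, nat_lit 16910698376, nat_lit 14951778614, nat_lit 16025918940], nat_lit 0, nat_lit 0, nat_lit 0, nat_lit 0, nat_lit 0, nat_lit 0, [], [nat_lit 39, nat_lit 40, nat_lit 20, nat_lit 80, nat_lit 7, nat_lit 249, nat_lit 40, nat_lit 9]⟩, C1.Rw.none,
 ⟨nat_lit 5477, nat_lit 5917, ⟨.ofNat (nat_lit 64652), .ofNat (nat_lit 378786), .ofNat (nat_lit 85991), .ofNat (nat_lit 400126), .ofNat (nat_lit 82619), .ofNat (nat_lit 382351), .ofNat (nat_lit 103976), .ofNat (nat_lit 403708)⟩, ⟨.ofNat (nat_lit 0), .ofNat (nat_lit 0), .ofNat (nat_lit 0), .ofNat (nat_lit 0), .ofNat (nat_lit 0), .ofNat (nat_lit 0), .ofNat (nat_lit 0), .ofNat (nat_lit 0)⟩⟩, [⟨nat_lit 0, nat_lit 100, nat_lit 95, nat_lit 21, nat_lit 116957454⟩]⟩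
noncomputable def p012_l29 : Lf2 := ⟨nat_lit 0, nat_lit 5, [nat_lit 4, nat_lit 5, nat_lit 5, nat_lit 20], true, nat_lit 0, nat_lit 0, nat_lit 0, nat_lit 0, ⟨nat_lit 0, nat_lit 1000, nat_lit 0, nat_lit 4, nat_lit 187, nat_lit 0, nat_lit 0, nat_lit 0, nat_lit 0, nat_lit 0, nat_lit 0, nat_lit 0, nat_lit 54963142, nat_lit 12036858, nat_lit 0, nat_lit 2354345, false, true⟩,
 nat_lit 0, nat_lit 0, nat_lit 0, nat_lit 14, nat_lit 5208, nat_lit 0, nat_lit 0, nat_lit 0, nat_lit 0, nat_lit 0, nat_lit 0, nat_lit 0, nat_lit 0, nat_lit 0, nat_lit 0, nat_lit 250000, nat_lit 0, nat_lit 0, [(nat_lit 9, [(nat_lit 0, nat_lit 1000)])],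
 ⟨p012_k6, nat_lit 0, nat_lit 0, nat_lit 68, nat_lit 0, nat_lit 0, [nat_lit 3116800000, nat_lit 3354400000], [], [nat_lit 13829977776, nat_lit 15581134400, nat_lit 17916621120, nat_lit 19379530688], nat_lit 0, nat_lit 0, nat_lit 0, nat_lit 0, nat_lit 0, nat_lit 0, [], [nat_lit 39, nat_lit 40, nat_lit 20, nat_lit 80, nat_lit 7, nat_lit 272, nat_lit 60, nat_lit 9]⟩, C1.Rw.none,
 ⟨nat_lit 5477, nat_lit 5917, ⟨.ofNat (nat_lit 378786), .ofNat (nat_lit 535851), .ofNat (nat_lit 400126), .ofNat (nat_lit 557183), .ofNat (nat_lit 382351), .ofNat (nat_lit 532215), .ofNat (nat_lit 403708), .ofNat (nat_lit 553564)⟩, ⟨.ofNat (nat_lit 0), .ofNat (nat_lit 0), .ofNat (nat_lit 0), .ofNat (nat_lit 0), .ofNat (nat_lit 0), .ofNat (nat_lit 0), .ofNat (nat_lit 0), .ofNat (nat_lit 0)⟩⟩, []⟩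
noncomputable def p012_l30 : Lf2 := ⟨nat_lit 0, nat_lit 5, [nat_lit 4, nat_lit 5, nat_lit 5, nat_lit 20], true, nat_lit 0, nat_lit 0, nat_lit 0, nat_lit 0, ⟨nat_lit 0, nat_lit 1000, nat_lit 0, nat_lit 6, nat_lit 249, nat_lit 0, nat_lit 0, nat_lit 0, nat_lit 0, nat_lit 0, nat_lit 0, nat_lit 0, nat_lit 48334962, nat_lit 18665038, nat_lit 0, nat_lit 2958047, false, true⟩,
 nat_lit 0, nat_lit 0, nat_lit 0, nat_lit 1650, nat_lit 5107, nat_lit 0, nat_lit 0, nat_lit 0, nat_lit 0, nat_lit 0, nat_lit 0, nat_lit 0, nat_lit 0, nat_lit 0, nat_lit 0, nat_lit 250000, nat_lit 0, nat_lit 0, [(nat_lit 9, [(nat_lit 0, nat_lit 1000)])],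
 ⟨p012_k6, nat_lit 0, nat_lit 0, nat_lit 148, nat_lit 0, nat_lit 0, [nat_lit 3116800000, nat_lit 3354400000], [], [nat_lit 22384932212, nat_lit 23414747064, nat_lit 26566006232, nat_lit 27382707172], nat_lit 0, nat_lit 0, nat_lit 0, nat_lit 0, nat_lit 0, nat_lit 0, [], [nat_lit 39, nat_lit 40, nat_lit 20, nat_lit 80, nat_lit 7, nat_lit 203, nat_lit 0, nat_lit 6]⟩, C1.Rw.none,
 ⟨nat_lit 5477, nat_lit 5917, ⟨.ofNat (nat_lit 535851), .ofNat (nat_lit 692881), .ofNat (nat_lit 557183), .ofNat (nat_lit 714212), .ofNat (nat_lit 532215), .ofNat (nat_lit 682044), .ofNat (nat_lit 553564), .ofNat (nat_lit 703393)⟩, ⟨.ofNat (nat_lit 0), .ofNat (nat_lit 0), .ofNat (nat_lit 0), .ofNat (nat_lit 0), .ofNat (nat_lit 0), .ofNat (nat_lit 0), .ofNat (nat_lit 0), .ofNat (nat_lit 0)⟩⟩, []⟩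
noncomputable def p012_l31 : Lf2 := ⟨nat_lit 0, nat_lit 5, [nat_lit 4, nat_lit 5, nat_lit 5, nat_lit 20], true, nat_lit 0, nat_lit 0, nat_lit 0, nat_lit 0, ⟨nat_lit 0, nat_lit 1000, nat_lit 0, nat_lit 8, nat_lit 301, nat_lit 0, nat_lit 0, nat_lit 0, nat_lit 0, nat_lit 0, nat_lit 0, nat_lit 0, nat_lit 42726367, nat_lit 24273633, nat_lit 0, nat_lit 3273629, false, true⟩,
 nat_lit 0, nat_lit 0, nat_lit 0, nat_lit 2787, nat_lit 4352, nat_lit 0, nat_lit 0, nat_lit 0, nat_lit 0, nat_lit 0, nat_lit 0, nat_lit 0, nat_lit 0, nat_lit 0, nat_lit 0, nat_lit 400000, nat_lit 0, nat_lit 0, [(nat_lit 9, [(nat_lit 1, nat_lit 1000)])],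
 ⟨p012_k6, nat_lit 0, nat_lit 0, nat_lit 173, nat_lit 0, nat_lit 0, [nat_lit 2742800000, nat_lit 3014800000], [], [nat_lit 26468202352, nat_lit 26856009272, nat_lit 29927079920, nat_lit 30245395144], nat_lit 0, nat_lit 0, nat_lit 0, nat_lit 0, nat_lit 0, nat_lit 0, [], [nat_lit 39, nat_lit 40, nat_lit 20, nat_lit 80, nat_lit 7, nat_lit 203, nat_lit 0, nat_lit 6]⟩, C1.Rw.none,
 ⟨nat_lit 5700, nat_lit 5917, ⟨.ofNat (nat_lit 692910), .ofNat (nat_lit 810703), .ofNat (nat_lit 703579), .ofNat (nat_lit 821372), .ofNat (nat_lit 687461), .ofNat (nat_lit 802532), .ofNat (nat_lit 698131), .ofNat (nat_lit 813202)⟩, ⟨.ofNat (nat_lit 0), .ofNat (nat_lit 0), .ofNat (nat_lit 0), .ofNat (nat_lit 0), .ofNat (nat_lit 0), .ofNat (nat_lit 0), .ofNat (nat_lit 0), .ofNat (nat_lit 0)⟩⟩, [⟨nat_lit 13, nat_lit 96, nat_lit 44, nat_lit 100, nat_lit 187297026⟩]⟩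
noncomputable def p012_l32 : Lf2 := ⟨nat_lit 0, nat_lit 5, [nat_lit 4, nat_lit 5, nat_lit 5, nat_lit 20], false, nat_lit 0, nat_lit 0, nat_lit 0, nat_lit 0, ⟨nat_lit 33, nat_lit 967, nat_lit 0, nat_lit 8, nat_lit 307, nat_lit 0, nat_lit 0, nat_lit 0, nat_lit 0, nat_lit 0, nat_lit 0, nat_lit 0, nat_lit 42131360, nat_lit 24868640, nat_lit 0, nat_lit 3297886, false, true⟩,
 nat_lit 0, nat_lit 0, nat_lit 1101, nat_lit 0, nat_lit 4403, nat_lit 392, nat_lit 0, nat_lit 0, nat_lit 0, nat_lit 0, nat_lit 0, nat_lit 0, nat_lit 0, nat_lit 0, nat_lit 0, nat_lit 386800, nat_lit 0, nat_lit 0, [(nat_lit 9, [(nat_lit 1, nat_lit 967)])],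
 ⟨p012_k6, nat_lit 0, nat_lit 0, nat_lit 175, nat_lit 0, nat_lit 0, [nat_lit 2806991600, nat_lit 3175681600], [], [nat_lit 26651678728, nat_lit 27040873358, nat_lit 30376792821, nat_lit 30729601986], nat_lit 0, nat_lit 0, nat_lit 0, nat_lit 0, nat_lit 0, nat_lit 0, [], [nat_lit 39, nat_lit 40, nat_lit 20, nat_lit 80, nat_lit 7, nat_lit 203, nat_lit 0, nat_lit 6]⟩, ⟨p012_k8, nat_lit 0, nat_lit 0, nat_lit 888, nat_lit 0, nat_lit 1377128, [nat_lit 262944000, nat_lit 391776000], [], [nat_lit 1609465123, nat_lit 1600154634, nat_lit 1677100725, nat_lit 1668266385], nat_lit 1184688, nat_lit 1271250, nat_lit 1271250, nat_lit 1271250, nat_lit 0, nat_lit 0, [nat_lit 1695000, nat_lit 1271250], [nat_lit 143, nat_lit 40, nat_lit 20, nat_lit 80, nat_lit 14, nat_lit 293, nat_lit 50, nat_lit 7]⟩,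
 ⟨nat_lit 5700, nat_lit 5917, ⟨.ofNat (nat_lit 703579), .ofNat (nat_lit 829225), .ofNat (nat_lit 714247), .ofNat (nat_lit 839893), .ofNat (nat_lit 698131), .ofNat (nat_lit 820874), .ofNat (nat_lit 708801), .ofNat (nat_lit 831543)⟩, ⟨.ofNat (nat_lit 0), .ofNat (nat_lit 0), .ofNat (nat_lit 0), .ofNat (nat_lit 0), .ofNat (nat_lit 0), .ofNat (nat_lit 0), .ofNat (nat_lit 0), .ofNat (nat_lit 0)⟩⟩, [⟨nat_lit 13, nat_lit 96, nat_lit 40, nat_lit 100, nat_lit 179985588⟩]⟩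
noncomputable def p012_l33 : Lf2 := ⟨nat_lit 0, nat_lit 5, [nat_lit 4, nat_lit 5, nat_lit 5, nat_lit 20], false, nat_lit 0, nat_lit 0, nat_lit 0, nat_lit 0, ⟨nat_lit 28, nat_lit 972, nat_lit 0, nat_lit 8, nat_lit 301, nat_lit 0, nat_lit 0, nat_lit 0, nat_lit 0, nat_lit 0, nat_lit 0, nat_lit 0, nat_lit 42784989, nat_lit 24215011, nat_lit 0, nat_lit 3271147, false, true⟩,
 nat_lit 0, nat_lit 0, nat_lit 961, nat_lit 0, nat_lit 4393, nat_lit 320, nat_lit 0, nat_lit 0, nat_lit 0, nat_lit 18, nat_lit 0, nat_lit 0, nat_lit 0, nat_lit 0, nat_lit 0, nat_lit 388800, nat_lit 0, nat_lit 0, [(nat_lit 9, [(nat_lit 1, nat_lit 972)])],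
 ⟨p012_k9, nat_lit 0, nat_lit 0, nat_lit 174, nat_lit 0, nat_lit 0, [nat_lit 2797265600, nat_lit 3151305600], [], [nat_lit 27014655498, nat_lit 27403578028, nat_lit 30415686342, nat_lit 30775178676], nat_lit 0, nat_lit 0, nat_lit 0, nat_lit 0, nat_lit 0, nat_lit 0, [], [nat_lit 39, nat_lit 40, nat_lit 20, nat_lit 80, nat_lit 7, nat_lit 203, nat_lit 0, nat_lit 6]⟩, ⟨p012_k10, nat_lit 0, nat_lit 0, nat_lit 1176, nat_lit 0, nat_lit 1850510, [nat_lit 223104000, nat_lit 332416000, nat_lit 393624000], [], [nat_lit 1412883728, nat_lit 1398007832, nat_lit 1446389072, nat_lit 1434539902], nat_lit 1100001, nat_lit 1271250, nat_lit 1271250, nat_lit 1271250, nat_lit 0, nat_lit 0, [nat_lit 1695000, nat_lit 1271250, nat_lit 1271250], [nat_lit 62, nat_lit 40, nat_lit 20, nat_lit 80, nat_lit 58, nat_lit 373, nat_lit 150, nat_lit 8]⟩,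
 ⟨nat_lit 5477, nat_lit 5701, ⟨.ofNat (nat_lit 687464), .ofNat (nat_lit 802536), .ofNat (nat_lit 708804), .ofNat (nat_lit 823875), .ofNat (nat_lit 682076), .ofNat (nat_lit 794468), .ofNat (nat_lit 703431), .ofNat (nat_lit 815823)⟩, ⟨.ofNat (nat_lit 0), .ofNat (nat_lit 0), .ofNat (nat_lit 0), .ofNat (nat_lit 0), .ofNat (nat_lit 0), .ofNat (nat_lit 0), .ofNat (nat_lit 0), .ofNat (nat_lit 0)⟩⟩, [⟨nat_lit 13, nat_lit 94, nat_lit 44, nat_lit 100, nat_lit 187767601⟩]⟩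
noncomputable def p012_l34 : Lf2 := ⟨nat_lit 0, nat_lit 5, [nat_lit 4, nat_lit 5, nat_lit 5, nat_lit 20], true, nat_lit 0, nat_lit 0, nat_lit 0, nat_lit 0, ⟨nat_lit 0, nat_lit 1000, nat_lit 0, nat_lit 4, nat_lit 181, nat_lit 0, nat_lit 0, nat_lit 0, nat_lit 0, nat_lit 0, nat_lit 0, nat_lit 0, nat_lit 0, nat_lit 0, nat_lit 0, nat_lit 5000000, false, true⟩,
 nat_lit 0, nat_lit 0, nat_lit 0, nat_lit 2803, nat_lit 4352, nat_lit 0, nat_lit 0, nat_lit 0, nat_lit 0, nat_lit 0, nat_lit 0, nat_lit 0, nat_lit 0, nat_lit 0, nat_lit 0, nat_lit 400000, nat_lit 0, nat_lit 0, [(nat_lit 9, [(nat_lit 1, nat_lit 1000)])],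
 ⟨p012_k6, nat_lit 0, nat_lit 0, nat_lit 188, nat_lit 0, nat_lit 0, [nat_lit 2742800000, nat_lit 3014800000], [], [nat_lit 20841065280, nat_lit 22177461472, nat_lit 30172621114, nat_lit 30878403034], nat_lit 0, nat_lit 0, nat_lit 0, nat_lit 0, nat_lit 0, nat_lit 0, [], [nat_lit 39, nat_lit 40, nat_lit 20, nat_lit 80, nat_lit 7, nat_lit 317, nat_lit 100, nat_lit 11]⟩, C1.Rw.none,
 ⟨nat_lit 5477, nat_lit 5917, ⟨.ofNat (nat_lit 64652), .ofNat (nat_lit 818504), .ofNat (nat_lit 85991), .ofNat (nat_lit 839835), .ofNat (nat_lit 82619), .ofNat (nat_lit 801906), .ofNat (nat_lit 103976), .ofNat (nat_lit 823255)⟩, ⟨.ofNat (nat_lit 0), .ofNat (nat_lit 0), .ofNat (nat_lit 0), .ofNat (nat_lit 0), .ofNat (nat_lit 0), .ofNat (nat_lit 0), .ofNat (nat_lit 0), .ofNat (nat_lit 0)⟩⟩, [⟨nat_lit 13, nat_lit 96, nat_lit 40, nat_lit 100, nat_lit 171757330⟩]⟩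
noncomputable def p012_l35 : Lf2 := ⟨nat_lit 0, nat_lit 5, [nat_lit 4, nat_lit 5, nat_lit 5, nat_lit 20], true, nat_lit 0, nat_lit 0, nat_lit 0, nat_lit 0, ⟨nat_lit 0, nat_lit 0, nat_lit 1000, nat_lit 4, nat_lit 64, nat_lit 0, nat_lit 0, nat_lit 0, nat_lit 0, nat_lit 215, nat_lit 38400, nat_lit 263, nat_lit 65306294, nat_lit 0, nat_lit 0, nat_lit 589606, false, false⟩,
 nat_lit 0, nat_lit 7388, nat_lit 0, nat_lit 0, nat_lit 4300, nat_lit 0, nat_lit 406, nat_lit 0, nat_lit 0, nat_lit 0, nat_lit 0, nat_lit 0, nat_lit 0, nat_lit 0, nat_lit 117, nat_lit 1000000, nat_lit 0, nat_lit 0, [(nat_lit 9, [(nat_lit 6, nat_lit 1000)])],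
 ⟨p012_k6, nat_lit 0, nat_lit 0, nat_lit 401, nat_lit 0, nat_lit 389283, [nat_lit 3178400000, nat_lit 158133334], [], [nat_lit 17349962334, nat_lit 17988862400, nat_lit 19520920334, nat_lit 17494734534], nat_lit 1271250, nat_lit 1271250, nat_lit 0, nat_lit 490000, nat_lit 0, nat_lit 0, [nat_lit 1100000, nat_lit 1785000], [nat_lit 39, nat_lit 40, nat_lit 20, nat_lit 80, nat_lit 7, nat_lit 226, nat_lit 20, nat_lit 8]⟩, C1.Rw.none,
 ⟨nat_lit 5477, nat_lit 5917, ⟨.ofNat (nat_lit 64652), .ofNat (nat_lit 221719), .ofNat (nat_lit 85991), .ofNat (nat_lit 243059), .ofNat (nat_lit 82619), .ofNat (nat_lit 232485), .ofNat (nat_lit 103976), .ofNat (nat_lit 253842)⟩, ⟨.ofNat (nat_lit 0), .ofNat (nat_lit 0), .ofNat (nat_lit 0), .ofNat (nat_lit 0), .ofNat (nat_lit 0), .ofNat (nat_lit 0), .ofNat (nat_lit 0), .ofNat (nat_lit 0)⟩⟩, []⟩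
noncomputable def p012_l36 : Lf2 := ⟨nat_lit 0, nat_lit 5, [nat_lit 4, nat_lit 5, nat_lit 5, nat_lit 20], false, nat_lit 0, nat_lit 0, nat_lit 0, nat_lit 0, ⟨nat_lit 327, nat_lit 0, nat_lit 673, nat_lit 4, nat_lit 126, nat_lit 0, nat_lit 0, nat_lit 0, nat_lit 0, nat_lit 215, nat_lit 147267, nat_lit 309, nat_lit 60969161, nat_lit 0, nat_lit 0, nat_lit 1512830, false, false⟩,
 nat_lit 0, nat_lit 10127, nat_lit 0, nat_lit 0, nat_lit 5894, nat_lit 5871, nat_lit 0, nat_lit 0, nat_lit 0, nat_lit 2252, nat_lit 0, nat_lit 0, nat_lit 0, nat_lit 0, nat_lit 0, nat_lit 673000, nat_lit 0, nat_lit 0, [(nat_lit 9, [(nat_lit 6, nat_lit 673)])],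
 ⟨p012_k11, nat_lit 0, nat_lit 0, nat_lit 452, nat_lit 0, nat_lit 661139, [nat_lit 2271660800, nat_lit 1545730000, nat_lit 855366200], [], [nat_lit 20400848900, nat_lit 17572824976, nat_lit 19609806236, nat_lit 17795309888], nat_lit 1271250, nat_lit 1271250, nat_lit 490000, nat_lit 1100001, nat_lit 0, nat_lit 0, [nat_lit 1100000, nat_lit 1442500, nat_lit 1271250], [nat_lit 9, nat_lit 40, nat_lit 20, nat_lit 80, nat_lit 2, nat_lit 249, nat_lit 40, nat_lit 8]⟩, ⟨p012_k12, nat_lit 0, nat_lit 0, nat_lit 391, nat_lit 0, nat_lit 0, [nat_lit 2605536000, nat_lit 3218334000, nat_lit 4596966000], [], [nat_lit 6206962388, nat_lit 6397237986, nat_lit 5455256808, nat_lit 5896640856], nat_lit 0, nat_lit 0, nat_lit 0, nat_lit 0, nat_lit 0, nat_lit 0, [], [nat_lit 92, nat_lit 40, nat_lit 20, nat_lit 80, nat_lit 32, nat_lit 317, nat_lit 100, nat_lit 8]⟩,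
 ⟨nat_lit 5477, nat_lit 5917, ⟨.ofNat (nat_lit 221719), .ofNat (nat_lit 378786), .ofNat (nat_lit 243059), .ofNat (nat_lit 400126), .ofNat (nat_lit 232485), .ofNat (nat_lit 382351), .ofNat (nat_lit 253842), .ofNat (nat_lit 403708)⟩, ⟨.ofNat (nat_lit 0), .ofNat (nat_lit 0), .ofNat (nat_lit 0), .ofNat (nat_lit 0), .ofNat (nat_lit 0), .ofNat (nat_lit 0), .ofNat (nat_lit 0), .ofNat (nat_lit 0)⟩⟩, []⟩
noncomputable def p012_l37 : Lf2 := ⟨nat_lit 0, nat_lit 5, [nat_lit 4, nat_lit 5, nat_lit 5, nat_lit 20], false, nat_lit 0, nat_lit 0, nat_lit 0, nat_lit 0, ⟨nat_lit 1000, nat_lit 0, nat_lit 0, nat_lit 0, nat_lit 0, nat_lit 0, nat_lit 0, nat_lit 0, nat_lit 0, nat_lit 0, nat_lit 0, nat_lit 0, nat_lit 0, nat_lit 0, nat_lit 0, nat_lit 0, false, false⟩,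
 nat_lit 0, nat_lit 11538, nat_lit 0, nat_lit 0, nat_lit 6716, nat_lit 8204, nat_lit 1111, nat_lit 0, nat_lit 0, nat_lit 2163, nat_lit 0, nat_lit 0, nat_lit 0, nat_lit 0, nat_lit 0, nat_lit 0, nat_lit 0, nat_lit 0, [],
 ⟨p012_k11, nat_lit 0, nat_lit 0, nat_lit 399, nat_lit 0, nat_lit 557916, [nat_lit 4688000000, nat_lit 6250000000, nat_lit 7968000000], [], [nat_lit 29652520701, nat_lit 29447988597, nat_lit 47282471596, nat_lit 45753985215], nat_lit 1271250, nat_lit 1271250, nat_lit 1100001, nat_lit 3018000, nat_lit 0, nat_lit 0, [nat_lit 1100000, nat_lit 1442500, nat_lit 1271250], [nat_lit 9, nat_lit 40, nat_lit 20, nat_lit 80, nat_lit 2, nat_lit 317, nat_lit 100, nat_lit 10]⟩, ⟨p012_k12, nat_lit 0, nat_lit 0, nat_lit 306, nat_lit 0, nat_lit 0, [nat_lit 7968000000, nat_lit 9842000000, nat_lit 14058000000], [], [nat_lit 31932878323, nat_lit 32244972075, nat_lit 41372120103, nat_lit 41422003210],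 nat_lit 0, nat_lit 0, nat_lit 0, nat_lit 0, nat_lit 0, nat_lit 0, [], [nat_lit 92, nat_lit 40, nat_lit 20, nat_lit 80, nat_lit 32, nat_lit 373, nat_lit 150, nat_lit 9]⟩,
 zbF0, []⟩
noncomputable def p012_l38 : Lf2 := ⟨nat_lit 0, nat_lit 5, [nat_lit 4, nat_lit 5, nat_lit 5, nat_lit 20], false, nat_lit 0, nat_lit 0, nat_lit 0, nat_lit 0, ⟨nat_lit 1000, nat_lit 0, nat_lit 0, nat_lit 0, nat_lit 0, nat_lit 0, nat_lit 0, nat_lit 0, nat_lit 0, nat_lit 0, nat_lit 0, nat_lit 0, nat_lit 0, nat_lit 0, nat_lit 0, nat_lit 0, false, false⟩,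
 nat_lit 0, nat_lit 10872, nat_lit 0, nat_lit 0, nat_lit 6621, nat_lit 8271, nat_lit 1163, nat_lit 0, nat_lit 0, nat_lit 2184, nat_lit 0, nat_lit 0, nat_lit 0, nat_lit 0, nat_lit 0, nat_lit 0, nat_lit 0, nat_lit 0, [],
 ⟨p012_k13, nat_lit 0, nat_lit 0, nat_lit 420, nat_lit 0, nat_lit 622439, [nat_lit 4688000000, nat_lit 6250000000, nat_lit 7968000000], [], [nat_lit 27403585712, nat_lit 27458431503, nat_lit 44761984556, nat_lit 43253157971], nat_lit 1271250, nat_lit 1271250, nat_lit 1100001, nat_lit 2983750, nat_lit 0, nat_lit 0, [nat_lit 1100000, nat_lit 1442500, nat_lit 1271250], [nat_lit 9, nat_lit 40, nat_lit 20, nat_lit 80, nat_lit 2, nat_lit 317, nat_lit 100, nat_lit 10]⟩, ⟨p012_k12, nat_lit 0, nat_lit 0, nat_lit 304, nat_lit 0, nat_lit 0, [nat_lit 7968000000, nat_lit 9842000000, nat_lit 14058000000], [], [nat_lit 31813117752, nat_lit 32123907550, nat_lit 41007324856, nat_lit 41065063098],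 nat_lit 0, nat_lit 0, nat_lit 0, nat_lit 0, nat_lit 0, nat_lit 0, [], [nat_lit 92, nat_lit 40, nat_lit 20, nat_lit 80, nat_lit 32, nat_lit 373, nat_lit 150, nat_lit 9]⟩,
 zbF0, []⟩
noncomputable def p012_l39 : Lf2 := ⟨nat_lit 0, nat_lit 5, [nat_lit 4, nat_lit 5, nat_lit 5, nat_lit 20], true, nat_lit 0, nat_lit 0, nat_lit 0, nat_lit 0, ⟨nat_lit 0, nat_lit 0, nat_lit 1000, nat_lit 4, nat_lit 64, nat_lit 0, nat_lit 0, nat_lit 0, nat_lit 0, nat_lit 215, nat_lit 38400, nat_lit 263, nat_lit 65306294, nat_lit 0, nat_lit 0, nat_lit 589606, false, false⟩,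
 nat_lit 0, nat_lit 7388, nat_lit 0, nat_lit 0, nat_lit 4300, nat_lit 0, nat_lit 406, nat_lit 0, nat_lit 0, nat_lit 0, nat_lit 0, nat_lit 0, nat_lit 0, nat_lit 0, nat_lit 117, nat_lit 1000000, nat_lit 0, nat_lit 0, [(nat_lit 9, [(nat_lit 6, nat_lit 1000)])],
 ⟨p012_k6, nat_lit 0, nat_lit 0, nat_lit 401, nat_lit 0, nat_lit 389283, [nat_lit 3178400000, nat_lit 158133334], [], [nat_lit 17349962334, nat_lit 17988862400, nat_lit 19520920334, nat_lit 17494734534], nat_lit 1271250, nat_lit 1271250, nat_lit 0, nat_lit 490000, nat_lit 0, nat_lit 0, [nat_lit 1100000, nat_lit 1785000], [nat_lit 39, nat_lit 40, nat_lit 20, nat_lit 80, nat_lit 7, nat_lit 226, nat_lit 20, nat_lit 8]⟩, C1.Rw.none,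
 ⟨nat_lit 5477, nat_lit 5917, ⟨.ofNat (nat_lit 64652), .ofNat (nat_lit 221719), .ofNat (nat_lit 85991), .ofNat (nat_lit 243059), .ofNat (nat_lit 82619), .ofNat (nat_lit 232485), .ofNat (nat_lit 103976), .ofNat (nat_lit 253842)⟩, ⟨.ofNat (nat_lit 0), .ofNat (nat_lit 0), .ofNat (nat_lit 0), .ofNat (nat_lit 0), .ofNat (nat_lit 0), .ofNat (nat_lit 0), .ofNat (nat_lit 0), .ofNat (nat_lit 0)⟩⟩, []⟩
noncomputable def p012_l40 : Lf2 := ⟨nat_lit 0, nat_lit 5, [nat_lit 4, nat_lit 5, nat_lit 5, nat_lit 20], false, nat_lit 0, nat_lit 0, nat_lit 0, nat_lit 0, ⟨nat_lit 0, nat_lit 0, nat_lit 1000, nat_lit 4, nat_lit 126, nat_lit 0, nat_lit 0, nat_lit 0, nat_lit 0, nat_lit 215, nat_lit 147267, nat_lit 309, nat_lit 60969161, nat_lit 0, nat_lit 0, nat_lit 1512830, false, false⟩,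
 nat_lit 0, nat_lit 11025, nat_lit 0, nat_lit 0, nat_lit 6417, nat_lit 0, nat_lit 1153, nat_lit 0, nat_lit 0, nat_lit 0, nat_lit 0, nat_lit 0, nat_lit 0, nat_lit 0, nat_lit 117, nat_lit 1000000, nat_lit 0, nat_lit 0, [(nat_lit 9, [(nat_lit 6, nat_lit 1000)])],
 ⟨p012_k6, nat_lit 0, nat_lit 0, nat_lit 301, nat_lit 0, nat_lit 389283, [nat_lit 3178400000, nat_lit 158133334], [], [nat_lit 16935911750, nat_lit 15724343368, nat_lit 13705654098, nat_lit 16037853704], nat_lit 1271250, nat_lit 1271250, nat_lit 490000, nat_lit 1100001, nat_lit 0, nat_lit 0, [nat_lit 1100000, nat_lit 1785000], [nat_lit 39, nat_lit 40, nat_lit 20, nat_lit 80, nat_lit 7, nat_lit 249, nat_lit 40, nat_lit 8]⟩, ⟨p012_k7, nat_lit 0, nat_lit 0, nat_lit 772, nat_lit 0, nat_lit 733823, [nat_lit 0, nat_lit 0], [], [nat_lit 0, nat_lit 0, nat_lit 0, nat_lit 0], nat_lit 1100001, nat_lit 1271250, nat_lit 490000, nat_lit 1100001,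 nat_lit 0, nat_lit 0, [nat_lit 1695000, nat_lit 1271250], [nat_lit 121, nat_lit 40, nat_lit 20, nat_lit 80, nat_lit 28, nat_lit 317, nat_lit 100, nat_lit 8]⟩,
 ⟨nat_lit 5477, nat_lit 5917, ⟨.ofNat (nat_lit 221719), .ofNat (nat_lit 378786), .ofNat (nat_lit 243059), .ofNat (nat_lit 400126), .ofNat (nat_lit 232485), .ofNat (nat_lit 382351), .ofNat (nat_lit 253842), .ofNat (nat_lit 403708)⟩, ⟨.ofNat (nat_lit 0), .ofNat (nat_lit 0), .ofNat (nat_lit 0), .ofNat (nat_lit 0), .ofNat (nat_lit 0), .ofNat (nat_lit 0), .ofNat (nat_lit 0), .ofNat (nat_lit 0)⟩⟩, []⟩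
noncomputable def p012_l41 : Lf2 := ⟨nat_lit 0, nat_lit 5, [nat_lit 4, nat_lit 5, nat_lit 5, nat_lit 20], false, nat_lit 0, nat_lit 0, nat_lit 0, nat_lit 0, ⟨nat_lit 0, nat_lit 0, nat_lit 1000, nat_lit 4, nat_lit 172, nat_lit 0, nat_lit 0, nat_lit 0, nat_lit 0, nat_lit 215, nat_lit 73782, nat_lit 281, nat_lit 56560885, nat_lit 0, nat_lit 0, nat_lit 2163259, false, true⟩,
 nat_lit 0, nat_lit 8810, nat_lit 0, nat_lit 0, nat_lit 5127, nat_lit 0, nat_lit 698, nat_lit 0, nat_lit 0, nat_lit 0, nat_lit 0, nat_lit 0, nat_lit 0, nat_lit 0, nat_lit 117, nat_lit 1000000, nat_lit 0, nat_lit 0, [(nat_lit 9, [(nat_lit 6, nat_lit 1000)])],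
 ⟨p012_k6, nat_lit 0, nat_lit 0, nat_lit 280, nat_lit 0, nat_lit 389283, [nat_lit 3178400000, nat_lit 158133334], [], [nat_lit 14262726972, nat_lit 15089559224, nat_lit 17724282622, nat_lit 16845648708], nat_lit 1271250, nat_lit 1271250, nat_lit 1100001, nat_lit 1442500, nat_lit 0, nat_lit 0, [nat_lit 1100000, nat_lit 1785000], [nat_lit 39, nat_lit 40, nat_lit 20, nat_lit 80, nat_lit 7, nat_lit 260, nat_lit 50, nat_lit 8]⟩, ⟨p012_k7, nat_lit 0, nat_lit 0, nat_lit 734, nat_lit 0, nat_lit 733823, [nat_lit 0, nat_lit 0], [], [nat_lit 0, nat_lit 0, nat_lit 0, nat_lit 0], nat_lit 1100001, nat_lit 1271250, nat_lit 1100001, nat_lit 1442500, nat_lit 0, nat_lit 0, [nat_lit 1695000, nat_lit 1271250], [nat_lit 121, nat_lit 40, nat_lit 20, nat_lit 80, nat_lit 28, nat_lit 317, nat_lit 100, nat_lit 8]⟩,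
 ⟨nat_lit 5477, nat_lit 5917, ⟨.ofNat (nat_lit 378786), .ofNat (nat_lit 457320), .ofNat (nat_lit 400126), .ofNat (nat_lit 478659), .ofNat (nat_lit 382351), .ofNat (nat_lit 457284), .ofNat (nat_lit 403708), .ofNat (nat_lit 478641)⟩, ⟨.ofNat (nat_lit 0), .ofNat (nat_lit 0), .ofNat (nat_lit 0), .ofNat (nat_lit 0), .ofNat (nat_lit 0), .ofNat (nat_lit 0), .ofNat (nat_lit 0), .ofNat (nat_lit 0)⟩⟩, []⟩
noncomputable def p012_l42 : Lf2 := ⟨nat_lit 0, nat_lit 5, [nat_lit 4, nat_lit 5, nat_lit 5, nat_lit 20], false, nat_lit 0, nat_lit 0, nat_lit 0, nat_lit 0, ⟨nat_lit 0, nat_lit 0, nat_lit 1000, nat_lit 5, nat_lit 203, nat_lit 0, nat_lit 0, nat_lit 0, nat_lit 0, nat_lit 215, nat_lit 4700, nat_lit 229, nat_lit 53327823, nat_lit 0, nat_lit 0, nat_lit 2529912, false, true⟩,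
 nat_lit 0, nat_lit 7348, nat_lit 0, nat_lit 0, nat_lit 4277, nat_lit 0, nat_lit 479, nat_lit 0, nat_lit 0, nat_lit 0, nat_lit 0, nat_lit 0, nat_lit 0, nat_lit 0, nat_lit 117, nat_lit 1000000, nat_lit 0, nat_lit 0, [(nat_lit 9, [(nat_lit 6, nat_lit 1000)])],
 ⟨p012_k6, nat_lit 0, nat_lit 0, nat_lit 281, nat_lit 0, nat_lit 389283, [nat_lit 3178400000, nat_lit 158133334], [], [nat_lit 15910362870, nat_lit 16944155456, nat_lit 17464945864, nat_lit 18414059808], nat_lit 1271250, nat_lit 1271250, nat_lit 1271250, nat_lit 1271250, nat_lit 0, nat_lit 0, [nat_lit 1100000, nat_lit 1785000], [nat_lit 39, nat_lit 40, nat_lit 20, nat_lit 80, nat_lit 7, nat_lit 272, nat_lit 60, nat_lit 9]⟩, ⟨p012_k7, nat_lit 0, nat_lit 0, nat_lit 719, nat_lit 0, nat_lit 733823, [nat_lit 0, nat_lit 0], [], [nat_lit 0, nat_lit 0, nat_lit 0, nat_lit 0], nat_lit 1100001, nat_lit 1271250, nat_lit 1271250, nat_lit 1271250,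 nat_lit 0, nat_lit 0, [nat_lit 1695000, nat_lit 1271250], [nat_lit 121, nat_lit 40, nat_lit 20, nat_lit 80, nat_lit 28, nat_lit 345, nat_lit 125, nat_lit 8]⟩,
 ⟨nat_lit 5477, nat_lit 5917, ⟨.ofNat (nat_lit 457320), .ofNat (nat_lit 535851), .ofNat (nat_lit 478659), .ofNat (nat_lit 557183), .ofNat (nat_lit 457284), .ofNat (nat_lit 532215), .ofNat (nat_lit 478641), .ofNat (nat_lit 553564)⟩, ⟨.ofNat (nat_lit 0), .ofNat (nat_lit 0), .ofNat (nat_lit 0), .ofNat (nat_lit 0), .ofNat (nat_lit 0), .ofNat (nat_lit 0), .ofNat (nat_lit 0), .ofNat (nat_lit 0)⟩⟩, []⟩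
noncomputable def p012_l43 : Lf2 := ⟨nat_lit 0, nat_lit 5, [nat_lit 4, nat_lit 5, nat_lit 5, nat_lit 20], false, nat_lit 0, nat_lit 0, nat_lit 0, nat_lit 0, ⟨nat_lit 410, nat_lit 590, nat_lit 0, nat_lit 6, nat_lit 274, nat_lit 0, nat_lit 0, nat_lit 0, nat_lit 0, nat_lit 0, nat_lit 0, nat_lit 0, nat_lit 45588215, nat_lit 21411785, nat_lit 0, nat_lit 3132757, false, true⟩,
 nat_lit 11275, nat_lit 0, nat_lit 0, nat_lit 0, nat_lit 4937, nat_lit 3758, nat_lit 1053, nat_lit 0, nat_lit 0, nat_lit 690, nat_lit 0, nat_lit 0, nat_lit 0, nat_lit 0, nat_lit 0, nat_lit 590000, nat_lit 0, nat_lit 0, [(nat_lit 9, [(nat_lit 2, nat_lit 590)])],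
 ⟨p012_k11, nat_lit 0, nat_lit 0, nat_lit 306, nat_lit 0, nat_lit 328505, [nat_lit 3493525334, nat_lit 3936728001, nat_lit 4222501999], [], [nat_lit 23706355026, nat_lit 24139173292, nat_lit 30608971314, nat_lit 30886507505], nat_lit 1271250, nat_lit 1271250, nat_lit 1271250, nat_lit 1271250, nat_lit 0, nat_lit 0, [nat_lit 1100000, nat_lit 1442500, nat_lit 1271250], [nat_lit 9, nat_lit 40, nat_lit 20, nat_lit 80, nat_lit 2, nat_lit 203, nat_lit 0, nat_lit 6]⟩, ⟨p012_k12, nat_lit 0, nat_lit 0, nat_lit 630, nat_lit 0, nat_lit 619252, [nat_lit 3266880000, nat_lit 4035220000, nat_lit 5763780000], [], [nat_lit 17831960082, nat_lit 17752465554, nat_lit 19284102831, nat_lit 19160176264], nat_lit 1100001, nat_lit 1271250, nat_lit 1271250, nat_lit 1271250, nat_lit 0, nat_lit 0, [nat_lit 1695000, nat_lit 1271250, nat_lit 1271250], [nat_lit 92, nat_lit 40, nat_lit 20, nat_lit 80, nat_lit 32, nat_lit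 373, nat_lit 150, nat_lit 9]⟩,
 ⟨nat_lit 5700, nat_lit 5917, ⟨.ofNat (nat_lit 535853), .ofNat (nat_lit 818556), .ofNat (nat_lit 557190), .ofNat (nat_lit 839893), .ofNat (nat_lit 534033), .ofNat (nat_lit 810204), .ofNat (nat_lit 555373), .ofNat (nat_lit 831543)⟩, ⟨.ofNat (nat_lit 0), .ofNat (nat_lit 0), .ofNat (nat_lit 0), .ofNat (nat_lit 0), .ofNat (nat_lit 0), .ofNat (nat_lit 0), .ofNat (nat_lit 0), .ofNat (nat_lit 0)⟩⟩, [⟨nat_lit 13, nat_lit 96, nat_lit 47, nat_lit 100, nat_lit 3926736⟩]⟩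
noncomputable def p012_l44 : Lf2 := ⟨nat_lit 0, nat_lit 5, [nat_lit 4, nat_lit 5, nat_lit 5, nat_lit 20], false, nat_lit 0, nat_lit 0, nat_lit 0, nat_lit 0, ⟨nat_lit 249, nat_lit 751, nat_lit 0, nat_lit 6, nat_lit 271, nat_lit 0, nat_lit 0, nat_lit 0, nat_lit 0, nat_lit 0, nat_lit 0, nat_lit 0, nat_lit 45964862, nat_lit 21035138, nat_lit 0, nat_lit 3111151, false, true⟩,
 nat_lit 8050, nat_lit 0, nat_lit 0, nat_lit 0, nat_lit 4902, nat_lit 2683, nat_lit 511, nat_lit 0, nat_lit 0, nat_lit 571, nat_lit 0, nat_lit 0, nat_lit 0, nat_lit 0, nat_lit 0, nat_lit 630400, nat_lit 0, nat_lit 0, [(nat_lit 9, [(nat_lit 1, nat_lit 201), (nat_lit 2, nat_lit 550)])],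
 ⟨p012_k13, nat_lit 0, nat_lit 0, nat_lit 318, nat_lit 0, nat_lit 370347, [nat_lit 3175465387, nat_lit 3412732800, nat_lit 3489251800], [], [nat_lit 24757498914, nat_lit 25146768604, nat_lit 30639783546, nat_lit 30897449172], nat_lit 1271250, nat_lit 1271250, nat_lit 1271250, nat_lit 1271250, nat_lit 0, nat_lit 0, [nat_lit 1100000, nat_lit 1442500, nat_lit 1271250], [nat_lit 9, nat_lit 40, nat_lit 20, nat_lit 80, nat_lit 2, nat_lit 203, nat_lit 0, nat_lit 6]⟩, ⟨p012_k12, nat_lit 0, nat_lit 0, nat_lit 675, nat_lit 0, nat_lit 733823, [nat_lit 1984032000, nat_lit 2450658000, nat_lit 3500442000], [], [nat_lit 10167264904, nat_lit 10114533548, nat_lit 10998123120, nat_lit 10898580942], nat_lit 1100001, nat_lit 1271250, nat_lit 1271250, nat_lit 1271250, nat_lit 0, nat_lit 0, [nat_lit 1695000, nat_lit 1271250, nat_lit 1271250], [nat_lit 92, nat_lit 40, nat_lit 20, nat_lit 80, nat_lit 32, nat_lit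 373, nat_lit 150, nat_lit 9]⟩,
 ⟨nat_lit 5477, nat_lit 5701, ⟨.ofNat (nat_lit 534033), .ofNat (nat_lit 802536), .ofNat (nat_lit 555374), .ofNat (nat_lit 823875), .ofNat (nat_lit 532217), .ofNat (nat_lit 794468), .ofNat (nat_lit 553573), .ofNat (nat_lit 815823)⟩, ⟨.ofNat (nat_lit 0), .ofNat (nat_lit 0), .ofNat (nat_lit 0), .ofNat (nat_lit 0), .ofNat (nat_lit 0), .ofNat (nat_lit 0), .ofNat (nat_lit 0), .ofNat (nat_lit 0)⟩⟩, [⟨nat_lit 13, nat_lit 94, nat_lit 52, nat_lit 100, nat_lit 34694773⟩]⟩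
noncomputable def p012_l45 : Lf2 := ⟨nat_lit 0, nat_lit 5, [nat_lit 4, nat_lit 5, nat_lit 5, nat_lit 20], true, nat_lit 0, nat_lit 0, nat_lit 0, nat_lit 0, ⟨nat_lit 0, nat_lit 1000, nat_lit 0, nat_lit 4, nat_lit 95, nat_lit 0, nat_lit 0, nat_lit 0, nat_lit 0, nat_lit 0, nat_lit 0, nat_lit 0, nat_lit 0, nat_lit 0, nat_lit 0, nat_lit 5000000, false, false⟩,
 nat_lit 0, nat_lit 5308, nat_lit 0, nat_lit 0, nat_lit 3089, nat_lit 0, nat_lit 1118, nat_lit 0, nat_lit 0, nat_lit 0, nat_lit 0, nat_lit 0, nat_lit 0, nat_lit 0, nat_lit 0, nat_lit 400000, nat_lit 0, nat_lit 0, [(nat_lit 9, [(nat_lit 1, nat_lit 1000)])],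
 ⟨p012_k6, nat_lit 0, nat_lit 0, nat_lit 527, nat_lit 0, nat_lit 661139, [nat_lit 2742800000, nat_lit 3014800000], [], [nat_lit 31302282078, nat_lit 29786835264, nat_lit 30508842606, nat_lit 29848295160], nat_lit 1271250, nat_lit 1271250, nat_lit 0, nat_lit 1100001, nat_lit 0, nat_lit 0, [nat_lit 1100000, nat_lit 1785000], [nat_lit 39, nat_lit 40, nat_lit 20, nat_lit 80, nat_lit 7, nat_lit 249, nat_lit 40, nat_lit 9]⟩, C1.Rw.none,
 ⟨nat_lit 5477, nat_lit 5917, ⟨.ofNat (nat_lit 64652), .ofNat (nat_lit 378786), .ofNat (nat_lit 85991), .ofNat (nat_lit 400126), .ofNat (nat_lit 82619), .ofNat (nat_lit 382351), .ofNat (nat_lit 103976), .ofNat (nat_lit 403708)⟩, ⟨.ofNat (nat_lit 0), .ofNat (nat_lit 0), .ofNat (nat_lit 0), .ofNat (nat_lit 0), .ofNat (nat_lit 0), .ofNat (nat_lit 0), .ofNat (nat_lit 0), .ofNat (nat_lit 0)⟩⟩, []⟩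
noncomputable def p012_l46 : Lf2 := ⟨nat_lit 0, nat_lit 5, [nat_lit 4, nat_lit 5, nat_lit 5, nat_lit 20], false, nat_lit 0, nat_lit 0, nat_lit 0, nat_lit 0, ⟨nat_lit 424, nat_lit 576, nat_lit 0, nat_lit 4, nat_lit 242, nat_lit 0, nat_lit 0, nat_lit 0, nat_lit 0, nat_lit 0, nat_lit 0, nat_lit 0, nat_lit 0, nat_lit 0, nat_lit 0, nat_lit 5000000, false, true⟩,
 nat_lit 0, nat_lit 6356, nat_lit 0, nat_lit 0, nat_lit 3699, nat_lit 3465, nat_lit 297, nat_lit 0, nat_lit 0, nat_lit 899, nat_lit 0, nat_lit 0, nat_lit 0, nat_lit 0, nat_lit 0, nat_lit 576000, nat_lit 0, nat_lit 0, [(nat_lit 9, [(nat_lit 2, nat_lit 576)])],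
 ⟨p012_k11, nat_lit 0, nat_lit 0, nat_lit 435, nat_lit 0, nat_lit 661139, [nat_lit 3521868800, nat_lit 3991619201, nat_lit 4310452799], [], [nat_lit 35040086756, nat_lit 35567063822, nat_lit 42121788582, nat_lit 40438086640], nat_lit 1271250, nat_lit 1271250, nat_lit 1100001, nat_lit 3018000, nat_lit 0, nat_lit 0, [nat_lit 1100000, nat_lit 1442500, nat_lit 1271250], [nat_lit 9, nat_lit 40, nat_lit 20, nat_lit 80, nat_lit 2, nat_lit 317, nat_lit 100, nat_lit 10]⟩, ⟨p012_k12, nat_lit 0, nat_lit 0, nat_lit 306, nat_lit 0, nat_lit 0, [nat_lit 3378432000, nat_lit 4173008000, nat_lit 5960592000], [], [nat_lit 13616545523, nat_lit 13749135933, nat_lit 17612045220, nat_lit 17570747592], nat_lit 0, nat_lit 0, nat_lit 0, nat_lit 0, nat_lit 0, nat_lit 0, [], [nat_lit 92, nat_lit 40, nat_lit 20, nat_lit 80, nat_lit 32, nat_lit 373, nat_lit 150, nat_lit 9]⟩,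
 ⟨nat_lit 5477, nat_lit 5917, ⟨.ofNat (nat_lit 378786), .ofNat (nat_lit 818504), .ofNat (nat_lit 400126), .ofNat (nat_lit 839835), .ofNat (nat_lit 382351), .ofNat (nat_lit 801906), .ofNat (nat_lit 403708), .ofNat (nat_lit 823255)⟩, ⟨.ofNat (nat_lit 0), .ofNat (nat_lit 0), .ofNat (nat_lit 0), .ofNat (nat_lit 0), .ofNat (nat_lit 0), .ofNat (nat_lit 0), .ofNat (nat_lit 0), .ofNat (nat_lit 0)⟩⟩, []⟩
noncomputable def p012_l47 : Lf2 := ⟨nat_lit 0, nat_lit 5, [nat_lit 4, nat_lit 5, nat_lit 5, nat_lit 20], true, nat_lit 0, nat_lit 0, nat_lit 0, nat_lit 0, ⟨nat_lit 0, nat_lit 1000, nat_lit 0, nat_lit 4, nat_lit 95, nat_lit 0, nat_lit 0, nat_lit 0, nat_lit 0, nat_lit 0, nat_lit 0, nat_lit 0, nat_lit 0, nat_lit 0, nat_lit 0, nat_lit 5000000, false, false⟩,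
 nat_lit 0, nat_lit 5308, nat_lit 0, nat_lit 0, nat_lit 3089, nat_lit 0, nat_lit 1118, nat_lit 0, nat_lit 0, nat_lit 0, nat_lit 0, nat_lit 0, nat_lit 0, nat_lit 0, nat_lit 0, nat_lit 400000, nat_lit 0, nat_lit 0, [(nat_lit 9, [(nat_lit 1, nat_lit 1000)])],
 ⟨p012_k6, nat_lit 0, nat_lit 0, nat_lit 527, nat_lit 0, nat_lit 661139, [nat_lit 2742800000, nat_lit 3014800000], [], [nat_lit 31302282078, nat_lit 29786835264, nat_lit 30508842606, nat_lit 29848295160], nat_lit 1271250, nat_lit 1271250, nat_lit 0, nat_lit 1100001, nat_lit 0, nat_lit 0, [nat_lit 1100000, nat_lit 1785000], [nat_lit 39, nat_lit 40, nat_lit 20, nat_lit 80, nat_lit 7, nat_lit 249, nat_lit 40, nat_lit 9]⟩, C1.Rw.none,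
 ⟨nat_lit 5477, nat_lit 5917, ⟨.ofNat (nat_lit 64652), .ofNat (nat_lit 378786), .ofNat (nat_lit 85991), .ofNat (nat_lit 400126), .ofNat (nat_lit 82619), .ofNat (nat_lit 382351), .ofNat (nat_lit 103976), .ofNat (nat_lit 403708)⟩, ⟨.ofNat (nat_lit 0), .ofNat (nat_lit 0), .ofNat (nat_lit 0), .ofNat (nat_lit 0), .ofNat (nat_lit 0), .ofNat (nat_lit 0), .ofNat (nat_lit 0), .ofNat (nat_lit 0)⟩⟩, []⟩
noncomputable def p012_l48 : Lf2 := ⟨nat_lit 0, nat_lit 5, [nat_lit 4, nat_lit 5, nat_lit 5, nat_lit 20], false, nat_lit 0, nat_lit 0, nat_lit 0, nat_lit 0, ⟨nat_lit 0, nat_lit 1000, nat_lit 0, nat_lit 4, nat_lit 242, nat_lit 0, nat_lit 0, nat_lit 0, nat_lit 0, nat_lit 0, nat_lit 0, nat_lit 0, nat_lit 0, nat_lit 0, nat_lit 0, nat_lit 5000000, false, true⟩,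
 nat_lit 0, nat_lit 4264, nat_lit 0, nat_lit 0, nat_lit 2482, nat_lit 0, nat_lit 364, nat_lit 0, nat_lit 0, nat_lit 0, nat_lit 0, nat_lit 0, nat_lit 0, nat_lit 0, nat_lit 0, nat_lit 400000, nat_lit 0, nat_lit 0, [(nat_lit 9, [(nat_lit 1, nat_lit 1000)])],
 ⟨p012_k6, nat_lit 0, nat_lit 0, nat_lit 315, nat_lit 0, nat_lit 389283, [nat_lit 2742800000, nat_lit 3014800000], [], [nat_lit 30670859804, nat_lit 31275643152, nat_lit 36563056306, nat_lit 36964889543], nat_lit 1271250, nat_lit 1271250, nat_lit 1100001, nat_lit 3018000, nat_lit 0, nat_lit 0, [nat_lit 1100000, nat_lit 1785000], [nat_lit 39, nat_lit 40, nat_lit 20, nat_lit 80, nat_lit 7, nat_lit 317, nat_lit 100, nat_lit 10]⟩, ⟨p012_k7, nat_lit 0, nat_lit 0, nat_lit 734, nat_lit 0, nat_lit 733823, [nat_lit 0, nat_lit 0], [], [nat_lit 0, nat_lit 0, nat_lit 0, nat_lit 0], nat_lit 1100001, nat_lit 1271250, nat_lit 1100001, nat_lit 3018000,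 nat_lit 0, nat_lit 0, [nat_lit 1695000, nat_lit 1271250], [nat_lit 121, nat_lit 40, nat_lit 20, nat_lit 80, nat_lit 28, nat_lit 373, nat_lit 150, nat_lit 9]⟩,
 ⟨nat_lit 5477, nat_lit 5917, ⟨.ofNat (nat_lit 378786), .ofNat (nat_lit 818504), .ofNat (nat_lit 400126), .ofNat (nat_lit 839835), .ofNat (nat_lit 382351), .ofNat (nat_lit 801906), .ofNat (nat_lit 403708), .ofNat (nat_lit 823255)⟩, ⟨.ofNat (nat_lit 0), .ofNat (nat_lit 0), .ofNat (nat_lit 0), .ofNat (nat_lit 0), .ofNat (nat_lit 0), .ofNat (nat_lit 0), .ofNat (nat_lit 0), .ofNat (nat_lit 0)⟩⟩, [⟨nat_lit 13, nat_lit 96, nat_lit 40, nat_lit 100, nat_lit 201440257⟩]⟩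
noncomputable def p012_l49 : Lf2 := ⟨nat_lit 0, nat_lit 5, [nat_lit 4, nat_lit 5, nat_lit 5, nat_lit 20], true, nat_lit 0, nat_lit 0, nat_lit 0, nat_lit 0, ⟨nat_lit 0, nat_lit 0, nat_lit 1000, nat_lit 4, nat_lit 95, nat_lit 0, nat_lit 0, nat_lit 0, nat_lit 0, nat_lit 215, nat_lit 84017, nat_lit 286, nat_lit 63414693, nat_lit 0, nat_lit 0, nat_lit 1043637, false, false⟩,
 nat_lit 0, nat_lit 0, nat_lit 0, nat_lit 3782, nat_lit 3807, nat_lit 0, nat_lit 0, nat_lit 0, nat_lit 0, nat_lit 0, nat_lit 0, nat_lit 0, nat_lit 0, nat_lit 0, nat_lit 55, nat_lit 400000, nat_lit 0, nat_lit 0, [(nat_lit 9, [(nat_lit 5, nat_lit 1000)])],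
 ⟨p012_k11, nat_lit 0, nat_lit 0, nat_lit 208, nat_lit 0, nat_lit 0, [nat_lit 2406400000, nat_lit 893600000, nat_lit 116000000], [], [nat_lit 15586456480, nat_lit 16842303852, nat_lit 15087639954, nat_lit 16158300340], nat_lit 0, nat_lit 0, nat_lit 0, nat_lit 0, nat_lit 0, nat_lit 0, [], [nat_lit 9, nat_lit 40, nat_lit 20, nat_lit 80, nat_lit 2, nat_lit 249, nat_lit 40, nat_lit 9]⟩, C1.Rw.none,
 ⟨nat_lit 5477, nat_lit 5917, ⟨.ofNat (nat_lit 64652), .ofNat (nat_lit 378786), .ofNat (nat_lit 85991), .ofNat (nat_lit 400126), .ofNat (nat_lit 82619), .ofNat (nat_lit 382351), .ofNat (nat_lit 103976), .ofNat (nat_lit 403708)⟩, ⟨.ofNat (nat_lit 0), .ofNat (nat_lit 0), .ofNat (nat_lit 0), .ofNat (nat_lit 0), .ofNat (nat_lit 0), .ofNat (nat_lit 0), .ofNat (nat_lit 0), .ofNat (nat_lit 0)⟩⟩, [⟨nat_lit 0, nat_lit 100, nat_lit 92, nat_lit 31, nat_lit 114461012⟩]⟩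
noncomputable def p012_l50 : Lf2 := ⟨nat_lit 0, nat_lit 5, [nat_lit 4, nat_lit 5, nat_lit 5, nat_lit 20], false, nat_lit 0, nat_lit 0, nat_lit 0, nat_lit 0, ⟨nat_lit 1000, nat_lit 0, nat_lit 0, nat_lit 0, nat_lit 0, nat_lit 0, nat_lit 0, nat_lit 0, nat_lit 0, nat_lit 0, nat_lit 0, nat_lit 0, nat_lit 0, nat_lit 0, nat_lit 0, nat_lit 0, false, false⟩,
 nat_lit 0, nat_lit 0, nat_lit 0, nat_lit 93511, nat_lit 7748, nat_lit 8510, nat_lit 0, nat_lit 0, nat_lit 0, nat_lit 0, nat_lit 0, nat_lit 0, nat_lit 0, nat_lit 0, nat_lit 0, nat_lit 0, nat_lit 0, nat_lit 0, [],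
 ⟨p012_k11, nat_lit 0, nat_lit 0, nat_lit 185, nat_lit 0, nat_lit 0, [nat_lit 4688000000, nat_lit 6250000000, nat_lit 7968000000], [], [nat_lit 22237335256, nat_lit 23765143760, nat_lit 37947248813, nat_lit 38783327447], nat_lit 0, nat_lit 0, nat_lit 0, nat_lit 0, nat_lit 0, nat_lit 0, [], [nat_lit 9, nat_lit 40, nat_lit 20, nat_lit 80, nat_lit 2, nat_lit 317, nat_lit 100, nat_lit 10]⟩, ⟨p012_k12, nat_lit 0, nat_lit 0, nat_lit 306, nat_lit 0, nat_lit 0, [nat_lit 7968000000, nat_lit 9842000000, nat_lit 14058000000], [], [nat_lit 39990949120, nat_lit 40297087500, nat_lit 50018844369, nat_lit 49950305216], nat_lit 0, nat_lit 0, nat_lit 0, nat_lit 0, nat_lit 0, nat_lit 0, [], [nat_lit 92, nat_lit 40, nat_lit 20, nat_lit 80, nat_lit 32, nat_lit 373, nat_lit 150, nat_lit 9]⟩,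
 zbF0, []⟩
noncomputable def p012_l51 : Lf2 := ⟨nat_lit 0, nat_lit 5, [nat_lit 4, nat_lit 5, nat_lit 5, nat_lit 20], true, nat_lit 0, nat_lit 0, nat_lit 0, nat_lit 0, ⟨nat_lit 0, nat_lit 0, nat_lit 1000, nat_lit 4, nat_lit 95, nat_lit 0, nat_lit 0, nat_lit 0, nat_lit 0, nat_lit 215, nat_lit 84017, nat_lit 286, nat_lit 63414693, nat_lit 0, nat_lit 0, nat_lit 1043637, false, false⟩,
 nat_lit 0, nat_lit 0, nat_lit 0, nat_lit 3799, nat_lit 3769, nat_lit 0, nat_lit 0, nat_lit 0, nat_lit 0, nat_lit 0, nat_lit 0, nat_lit 0, nat_lit 0, nat_lit 0, nat_lit 55, nat_lit 400000, nat_lit 0, nat_lit 0, [(nat_lit 9, [(nat_lit 5, nat_lit 1000)])],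
 ⟨p012_k6, nat_lit 0, nat_lit 0, nat_lit 188, nat_lit 0, nat_lit 0, [nat_lit 2406400000, nat_lit 19600000], [], [nat_lit 15502648160, nat_lit 16752879284, nat_lit 15041224318, nat_lit 16107476780], nat_lit 0, nat_lit 0, nat_lit 0, nat_lit 0, nat_lit 0, nat_lit 0, [], [nat_lit 39, nat_lit 40, nat_lit 20, nat_lit 80, nat_lit 7, nat_lit 249, nat_lit 40, nat_lit 9]⟩, C1.Rw.none,
 ⟨nat_lit 5477, nat_lit 5917, ⟨.ofNat (nat_lit 64652), .ofNat (nat_lit 378786), .ofNat (nat_lit 85991), .ofNat (nat_lit 400126), .ofNat (nat_lit 82619), .ofNat (nat_lit 382351), .ofNat (nat_lit 103976), .ofNat (nat_lit 403708)⟩, ⟨.ofNat (nat_lit 0), .ofNat (nat_lit 0), .ofNat (nat_lit 0), .ofNat (nat_lit 0), .ofNat (nat_lit 0), .ofNat (nat_lit 0), .ofNat (nat_lit 0), .ofNat (nat_lit 0)⟩⟩, [⟨nat_lit 0, nat_lit 100, nat_lit 92, nat_lit 31, nat_lit 113136982⟩]⟩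
noncomputable def p012_l52 : Lf2 := ⟨nat_lit 0, nat_lit 5, [nat_lit 4, nat_lit 5, nat_lit 5, nat_lit 20], false, nat_lit 0, nat_lit 0, nat_lit 0, nat_lit 0, ⟨nat_lit 364, nat_lit 636, nat_lit 0, nat_lit 4, nat_lit 242, nat_lit 0, nat_lit 0, nat_lit 0, nat_lit 0, nat_lit 0, nat_lit 0, nat_lit 0, nat_lit 49001418, nat_lit 17998582, nat_lit 0, nat_lit 2909484, false, true⟩,
 nat_lit 0, nat_lit 0, nat_lit 6839, nat_lit 0, nat_lit 5039, nat_lit 2279, nat_lit 0, nat_lit 0, nat_lit 0, nat_lit 0, nat_lit 0, nat_lit 0, nat_lit 0, nat_lit 0, nat_lit 0, nat_lit 159000, nat_lit 0, nat_lit 0, [(nat_lit 9, [(nat_lit 0, nat_lit 636)])],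
 ⟨p012_k6, nat_lit 0, nat_lit 0, nat_lit 176, nat_lit 0, nat_lit 0, [nat_lit 3688716801, nat_lit 5033750400], [], [nat_lit 21867161459, nat_lit 23080731381, nat_lit 32855932907, nat_lit 33495055480], nat_lit 0, nat_lit 0, nat_lit 0, nat_lit 0, nat_lit 0, nat_lit 0, [], [nat_lit 39, nat_lit 40, nat_lit 20, nat_lit 80, nat_lit 7, nat_lit 317, nat_lit 100, nat_lit 10]⟩, ⟨p012_k10, nat_lit 0, nat_lit 0, nat_lit 393, nat_lit 0, nat_lit 93726, [nat_lit 2900352000, nat_lit 4321408000, nat_lit 5117112000], [], [nat_lit 19624593072, nat_lit 19661122450, nat_lit 21311921944, nat_lit 21273700619], nat_lit 1100001, nat_lit 1271250, nat_lit 1100001, nat_lit 3018000, nat_lit 0, nat_lit 0, [nat_lit 1695000, nat_lit 1271250, nat_lit 1271250], [nat_lit 62, nat_lit 40, nat_lit 20, nat_lit 80, nat_lit 58, nat_lit 373, nat_lit 150, nat_lit 9]⟩,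
 ⟨nat_lit 5477, nat_lit 5917, ⟨.ofNat (nat_lit 378786), .ofNat (nat_lit 818504), .ofNat (nat_lit 400126), .ofNat (nat_lit 839835), .ofNat (nat_lit 382351), .ofNat (nat_lit 801906), .ofNat (nat_lit 403708), .ofNat (nat_lit 823255)⟩, ⟨.ofNat (nat_lit 0), .ofNat (nat_lit 0), .ofNat (nat_lit 0), .ofNat (nat_lit 0), .ofNat (nat_lit 0), .ofNat (nat_lit 0), .ofNat (nat_lit 0), .ofNat (nat_lit 0)⟩⟩, []⟩
noncomputable def p012_l53 : Lf2 := ⟨nat_lit 0, nat_lit 5, [nat_lit 4, nat_lit 5, nat_lit 5, nat_lit 20], true, nat_lit 0, nat_lit 0, nat_lit 0, nat_lit 0, ⟨nat_lit 0, nat_lit 1000, nat_lit 0, nat_lit 4, nat_lit 181, nat_lit 0, nat_lit 0, nat_lit 0, nat_lit 0, nat_lit 0, nat_lit 0, nat_lit 0, nat_lit 0, nat_lit 0, nat_lit 0, nat_lit 5000000, false, true⟩,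
 nat_lit 0, nat_lit 0, nat_lit 0, nat_lit 4406, nat_lit 4251, nat_lit 0, nat_lit 0, nat_lit 0, nat_lit 0, nat_lit 0, nat_lit 0, nat_lit 0, nat_lit 0, nat_lit 0, nat_lit 0, nat_lit 400000, nat_lit 0, nat_lit 0, [(nat_lit 9, [(nat_lit 1, nat_lit 1000)])],
 ⟨p012_k11, nat_lit 0, nat_lit 0, nat_lit 208, nat_lit 0, nat_lit 0, [nat_lit 2702720000, nat_lit 2862800001, nat_lit 3030799999], [], [nat_lit 20850452639, nat_lit 22171921435, nat_lit 30189934266, nat_lit 30807482345], nat_lit 0, nat_lit 0, nat_lit 0, nat_lit 0, nat_lit 0, nat_lit 0, [], [nat_lit 9, nat_lit 40, nat_lit 20, nat_lit 80, nat_lit 2, nat_lit 317, nat_lit 100, nat_lit 11]⟩, C1.Rw.none,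
 ⟨nat_lit 5477, nat_lit 5917, ⟨.ofNat (nat_lit 64652), .ofNat (nat_lit 818504), .ofNat (nat_lit 85991), .ofNat (nat_lit 839835), .ofNat (nat_lit 82619), .ofNat (nat_lit 801906), .ofNat (nat_lit 103976), .ofNat (nat_lit 823255)⟩, ⟨.ofNat (nat_lit 0), .ofNat (nat_lit 0), .ofNat (nat_lit 0), .ofNat (nat_lit 0), .ofNat (nat_lit 0), .ofNat (nat_lit 0), .ofNat (nat_lit 0), .ofNat (nat_lit 0)⟩⟩, [⟨nat_lit 13, nat_lit 95, nat_lit 49, nat_lit 100, nat_lit 171442755⟩]⟩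
noncomputable def p012_l54 : Lf2 := ⟨nat_lit 0, nat_lit 5, [nat_lit 4, nat_lit 5, nat_lit 5, nat_lit 20], true, nat_lit 0, nat_lit 0, nat_lit 0, nat_lit 0, ⟨nat_lit 0, nat_lit 0, nat_lit 1000, nat_lit 4, nat_lit 95, nat_lit 0, nat_lit 0, nat_lit 0, nat_lit 0, nat_lit 215, nat_lit 84017, nat_lit 286, nat_lit 63414693, nat_lit 0, nat_lit 0, nat_lit 1043637, false, false⟩,
 nat_lit 0, nat_lit 6862, nat_lit 0, nat_lit 0, nat_lit 3994, nat_lit 0, nat_lit 0, nat_lit 0, nat_lit 0, nat_lit 0, nat_lit 0, nat_lit 0, nat_lit 0, nat_lit 0, nat_lit 55, nat_lit 400000, nat_lit 0, nat_lit 0, [(nat_lit 9, [(nat_lit 5, nat_lit 1000)])],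
 ⟨p012_k11, nat_lit 0, nat_lit 0, nat_lit 262, nat_lit 0, nat_lit 32529, [nat_lit 2406400000, nat_lit 893600000, nat_lit 116000000], [], [nat_lit 16343784904, nat_lit 17276728688, nat_lit 15600612604, nat_lit 16394321136], nat_lit 1271250, nat_lit 1271250, nat_lit 0, nat_lit 1100001, nat_lit 0, nat_lit 0, [nat_lit 1100000, nat_lit 1442500, nat_lit 1271250], [nat_lit 9, nat_lit 40, nat_lit 20, nat_lit 80, nat_lit 2, nat_lit 249, nat_lit 40, nat_lit 9]⟩, C1.Rw.none,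
 ⟨nat_lit 5477, nat_lit 5917, ⟨.ofNat (nat_lit 64652), .ofNat (nat_lit 378786), .ofNat (nat_lit 85991), .ofNat (nat_lit 400126), .ofNat (nat_lit 82619), .ofNat (nat_lit 382351), .ofNat (nat_lit 103976), .ofNat (nat_lit 403708)⟩, ⟨.ofNat (nat_lit 0), .ofNat (nat_lit 0), .ofNat (nat_lit 0), .ofNat (nat_lit 0), .ofNat (nat_lit 0), .ofNat (nat_lit 0), .ofNat (nat_lit 0), .ofNat (nat_lit 0)⟩⟩, [⟨nat_lit 0, nat_lit 100, nat_lit 92, nat_lit 31, nat_lit 121184230⟩]⟩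
noncomputable def p012_l55 : Lf2 := ⟨nat_lit 0, nat_lit 5, [nat_lit 4, nat_lit 5, nat_lit 5, nat_lit 20], false, nat_lit 0, nat_lit 0, nat_lit 0, nat_lit 0, ⟨nat_lit 1000, nat_lit 0, nat_lit 0, nat_lit 0, nat_lit 0, nat_lit 0, nat_lit 0, nat_lit 0, nat_lit 0, nat_lit 0, nat_lit 0, nat_lit 0, nat_lit 0, nat_lit 0, nat_lit 0, nat_lit 0, false, false⟩,
 nat_lit 0, nat_lit 18128, nat_lit 0, nat_lit 12877, nat_lit 10552, nat_lit 8177, nat_lit 0, nat_lit 0, nat_lit 0, nat_lit 0, nat_lit 0, nat_lit 0, nat_lit 0, nat_lit 0, nat_lit 0, nat_lit 0, nat_lit 0, nat_lit 0, [],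
 ⟨p012_k11, nat_lit 0, nat_lit 0, nat_lit 195, nat_lit 0, nat_lit 32529, [nat_lit 4688000000, nat_lit 6250000000, nat_lit 7968000000], [], [nat_lit 30363835472, nat_lit 24868586016, nat_lit 49784386669, nat_lit 44981352634], nat_lit 1271250, nat_lit 1271250, nat_lit 1100001, nat_lit 3018000, nat_lit 0, nat_lit 0, [nat_lit 1100000, nat_lit 1442500, nat_lit 1271250], [nat_lit 9, nat_lit 40, nat_lit 20, nat_lit 80, nat_lit 2, nat_lit 317, nat_lit 100, nat_lit 10]⟩, ⟨p012_k12, nat_lit 0, nat_lit 0, nat_lit 306, nat_lit 0, nat_lit 0, [nat_lit 7968000000, nat_lit 9842000000, nat_lit 14058000000], [], [nat_lit 40188580624, nat_lit 40501199850, nat_lit 49614084347, nat_lit 49523585164], nat_lit 0, nat_lit 0, nat_lit 0, nat_lit 0, nat_lit 0, nat_lit 0, [], [nat_lit 92, nat_lit 40, nat_lit 20, nat_lit 80, nat_lit 32, nat_lit 373, nat_lit 150, nat_lit 9]⟩,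
 zbF0, [⟨nat_lit 13, nat_lit 94, nat_lit 59, nat_lit 100, nat_lit 98768005⟩]⟩
noncomputable def p012_l56 : Lf2 := ⟨nat_lit 1, nat_lit 5, [nat_lit 4, nat_lit 5, nat_lit 5, nat_lit 20], false, nat_lit 0, nat_lit 0, nat_lit 0, nat_lit 0, zbN0,
 nat_lit 0, nat_lit 0, nat_lit 0, nat_lit 0, nat_lit 0, nat_lit 0, nat_lit 0, nat_lit 0, nat_lit 0, nat_lit 0, nat_lit 0, nat_lit 0, nat_lit 0, nat_lit 0, nat_lit 0, nat_lit 0, nat_lit 0, nat_lit 0, [],
 C1.Rw.none, C1.Rw.none,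
 zbF0, []⟩
noncomputable def p012_l57 : Lf2 := ⟨nat_lit 0, nat_lit 5, [nat_lit 4, nat_lit 5, nat_lit 5, nat_lit 20], true, nat_lit 0, nat_lit 0, nat_lit 0, nat_lit 0, ⟨nat_lit 0, nat_lit 0, nat_lit 1000, nat_lit 4, nat_lit 94, nat_lit 0, nat_lit 0, nat_lit 0, nat_lit 0, nat_lit 215, nat_lit 84017, nat_lit 286, nat_lit 63489077, nat_lit 0, nat_lit 0, nat_lit 1027629, false, false⟩,
 nat_lit 0, nat_lit 6558, nat_lit 0, nat_lit 0, nat_lit 3993, nat_lit 0, nat_lit 0, nat_lit 0, nat_lit 0, nat_lit 0, nat_lit 0, nat_lit 0, nat_lit 0, nat_lit 0, nat_lit 55, nat_lit 400000, nat_lit 0, nat_lit 0, [(nat_lit 9, [(nat_lit 5, nat_lit 1000)])],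
 ⟨p012_k13, nat_lit 0, nat_lit 0, nat_lit 256, nat_lit 0, nat_lit 20464, [nat_lit 2406400000, nat_lit 893600000, nat_lit 116000000], [], [nat_lit 16811391762, nat_lit 17277820136, nat_lit 15999538015, nat_lit 16396359992], nat_lit 1271250, nat_lit 1271250, nat_lit 0, nat_lit 1100001, nat_lit 0, nat_lit 0, [nat_lit 1100000, nat_lit 1442500, nat_lit 1271250], [nat_lit 9, nat_lit 40, nat_lit 20, nat_lit 80, nat_lit 2, nat_lit 249, nat_lit 40, nat_lit 9]⟩, C1.Rw.none,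
 ⟨nat_lit 5477, nat_lit 5701, ⟨.ofNat (nat_lit 73719), .ofNat (nat_lit 380596), .ofNat (nat_lit 84390), .ofNat (nat_lit 391267), .ofNat (nat_lit 82619), .ofNat (nat_lit 382351), .ofNat (nat_lit 93298), .ofNat (nat_lit 393030)⟩, ⟨.ofNat (nat_lit 0), .ofNat (nat_lit 0), .ofNat (nat_lit 0), .ofNat (nat_lit 0), .ofNat (nat_lit 0), .ofNat (nat_lit 0), .ofNat (nat_lit 0), .ofNat (nat_lit 0)⟩⟩, [⟨nat_lit 0, nat_lit 100, nat_lit 93, nat_lit 26, nat_lit 119488380⟩]⟩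
noncomputable def p012_l58 : Lf2 := ⟨nat_lit 0, nat_lit 5, [nat_lit 4, nat_lit 5, nat_lit 5, nat_lit 20], false, nat_lit 0, nat_lit 0, nat_lit 0, nat_lit 0, ⟨nat_lit 1000, nat_lit 0, nat_lit 0, nat_lit 0, nat_lit 0, nat_lit 0, nat_lit 0, nat_lit 0, nat_lit 0, nat_lit 0, nat_lit 0, nat_lit 0, nat_lit 0, nat_lit 0, nat_lit 0, nat_lit 0, false, false⟩,
 nat_lit 9071, nat_lit 8289, nat_lit 0, nat_lit 15401, nat_lit 10572, nat_lit 3023, nat_lit 0, nat_lit 0, nat_lit 0, nat_lit 0, nat_lit 0, nat_lit 0, nat_lit 0, nat_lit 0, nat_lit 0, nat_lit 0, nat_lit 0, nat_lit 0, [],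
 ⟨p012_k13, nat_lit 0, nat_lit 0, nat_lit 184, nat_lit 0, nat_lit 8027, [nat_lit 4688000000, nat_lit 6250000000, nat_lit 7968000000], [], [nat_lit 22118249736, nat_lit 23246093392, nat_lit 46136976975, nat_lit 43724603040], nat_lit 1271250, nat_lit 1271250, nat_lit 1100001, nat_lit 2949500, nat_lit 0, nat_lit 0, [nat_lit 1100000, nat_lit 1442500, nat_lit 1271250], [nat_lit 9, nat_lit 40, nat_lit 20, nat_lit 80, nat_lit 2, nat_lit 317, nat_lit 100, nat_lit 10]⟩, ⟨p012_k12, nat_lit 0, nat_lit 0, nat_lit 310, nat_lit 0, nat_lit 18250, [nat_lit 7968000000, nat_lit 9842000000, nat_lit 14058000000], [], [nat_lit 43247417776, nat_lit 43453880963, nat_lit 50037503097, nat_lit 50147123245], nat_lit 1100001, nat_lit 1184688, nat_lit 1100001, nat_lit 2949500, nat_lit 0, nat_lit 0, [nat_lit 1695000, nat_lit 1271250, nat_lit 1271250], [nat_lit 92, nat_lit 40, nat_lit 20, nat_lit 80, nat_lit 32,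 nat_lit 373, nat_lit 150, nat_lit 9]⟩,
 zbF0, [⟨nat_lit 13, nat_lit 94, nat_lit 59, nat_lit 100, nat_lit 65754318⟩]⟩
noncomputable def p012_l59 : Lf2 := ⟨nat_lit 0, nat_lit 5, [nat_lit 4, nat_lit 5, nat_lit 5, nat_lit 20], true, nat_lit 0, nat_lit 0, nat_lit 0, nat_lit 0, ⟨nat_lit 0, nat_lit 0, nat_lit 1000, nat_lit 4, nat_lit 100, nat_lit 0, nat_lit 0, nat_lit 0, nat_lit 0, nat_lit 215, nat_lit 93750, nat_lit 290, nat_lit 63069953, nat_lit 0, nat_lit 0, nat_lit 1116279, false, false⟩,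
 nat_lit 0, nat_lit 6896, nat_lit 0, nat_lit 8235, nat_lit 4199, nat_lit 0, nat_lit 0, nat_lit 0, nat_lit 0, nat_lit 0, nat_lit 0, nat_lit 0, nat_lit 0, nat_lit 0, nat_lit 55, nat_lit 400000, nat_lit 0, nat_lit 0, [(nat_lit 9, [(nat_lit 5, nat_lit 1000)])],
 ⟨p012_k9, nat_lit 0, nat_lit 0, nat_lit 255, nat_lit 0, nat_lit 30579, [nat_lit 2406400000, nat_lit 19600000], [], [nat_lit 16391908995, nat_lit 17377217976, nat_lit 21066727549, nat_lit 20077430552], nat_lit 1271250, nat_lit 1271250, nat_lit 21650, nat_lit 1100001, nat_lit 0, nat_lit 0, [nat_lit 1100000, nat_lit 1785000], [nat_lit 39, nat_lit 40, nat_lit 20, nat_lit 80, nat_lit 7, nat_lit 249, nat_lit 40, nat_lit 9]⟩, C1.Rw.none,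
 ⟨nat_lit 5477, nat_lit 5701, ⟨.ofNat (nat_lit 92062), .ofNat (nat_lit 391267), .ofNat (nat_lit 102733), .ofNat (nat_lit 401937), .ofNat (nat_lit 100791), .ofNat (nat_lit 393030), .ofNat (nat_lit 111470), .ofNat (nat_lit 403708)⟩, ⟨.ofNat (nat_lit 0), .ofNat (nat_lit 0), .ofNat (nat_lit 0), .ofNat (nat_lit 0), .ofNat (nat_lit 0), .ofNat (nat_lit 0), .ofNat (nat_lit 0), .ofNat (nat_lit 0)⟩⟩, []⟩
noncomputable def p012_l60 : Lf2 := ⟨nat_lit 0, nat_lit 5, [nat_lit 4, nat_lit 5, nat_lit 5, nat_lit 20], false, nat_lit 0, nat_lit 0, nat_lit 0, nat_lit 0, ⟨nat_lit 1000, nat_lit 0, nat_lit 0, nat_lit 0, nat_lit 0, nat_lit 0, nat_lit 0, nat_lit 0, nat_lit 0, nat_lit 0, nat_lit 0, nat_lit 0, nat_lit 0, nat_lit 0, nat_lit 0, nat_lit 0, false, false⟩,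
 nat_lit 3663, nat_lit 13685, nat_lit 0, nat_lit 8062, nat_lit 10564, nat_lit 1306, nat_lit 0, nat_lit 0, nat_lit 0, nat_lit 0, nat_lit 0, nat_lit 0, nat_lit 0, nat_lit 0, nat_lit 0, nat_lit 0, nat_lit 0, nat_lit 0, [],
 ⟨p012_k13, nat_lit 0, nat_lit 0, nat_lit 188, nat_lit 0, nat_lit 17410, [nat_lit 4688000000, nat_lit 6250000000, nat_lit 7968000000], [], [nat_lit 22120309432, nat_lit 23247561904, nat_lit 46757657604, nat_lit 44350280464], nat_lit 1271250, nat_lit 1271250, nat_lit 1100001, nat_lit 2983750, nat_lit 0, nat_lit 0, [nat_lit 1100000, nat_lit 1442500, nat_lit 1271250], [nat_lit 9, nat_lit 40, nat_lit 20, nat_lit 80, nat_lit 2, nat_lit 317, nat_lit 100, nat_lit 10]⟩, ⟨p012_k14, nat_lit 0, nat_lit 0, nat_lit 281, nat_lit 0, nat_lit 32591, [nat_lit 7968000000, nat_lit 9842000000, nat_lit 11872000000], [], [nat_lit 40582526890, nat_lit 40826820372, nat_lit 47228381028, nat_lit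 47399643032], nat_lit 1184688, nat_lit 1271250, nat_lit 1100001, nat_lit 2983750, nat_lit 0, nat_lit 0, [nat_lit 1695000, nat_lit 1271250, nat_lit 1271250], [nat_lit 106, nat_lit 40, nat_lit 20, nat_lit 80, nat_lit 41, nat_lit 373, nat_lit 150, nat_lit 10]⟩,
 zbF0, [⟨nat_lit 13, nat_lit 93, nat_lit 49, nat_lit 100, nat_lit 80477651⟩]⟩
noncomputable def p012_l61 : Lf2 := ⟨nat_lit 0, nat_lit 5, [nat_lit 4, nat_lit 5, nat_lit 5, nat_lit 20], true, nat_lit 0, nat_lit 0, nat_lit 0, nat_lit 0, ⟨nat_lit 0, nat_lit 1000, nat_lit 0, nat_lit 4, nat_lit 181, nat_lit 0, nat_lit 0, nat_lit 0, nat_lit 0, nat_lit 0, nat_lit 0, nat_lit 0, nat_lit 0, nat_lit 0, nat_lit 0, nat_lit 5000000, false, true⟩,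
 nat_lit 0, nat_lit 7997, nat_lit 0, nat_lit 0, nat_lit 4654, nat_lit 0, nat_lit 299, nat_lit 0, nat_lit 0, nat_lit 0, nat_lit 0, nat_lit 0, nat_lit 0, nat_lit 0, nat_lit 0, nat_lit 400000, nat_lit 0, nat_lit 0, [(nat_lit 9, [(nat_lit 1, nat_lit 1000)])],
 ⟨p012_k11, nat_lit 0, nat_lit 0, nat_lit 262, nat_lit 0, nat_lit 32529, [nat_lit 2702720000, nat_lit 2862800001, nat_lit 3030799999], [], [nat_lit 32739376708, nat_lit 30278630056, nat_lit 30254285069, nat_lit 30684787219], nat_lit 1271250, nat_lit 1271250, nat_lit 0, nat_lit 2712000, nat_lit 0, nat_lit 0, [nat_lit 1100000, nat_lit 1442500, nat_lit 1271250], [nat_lit 9, nat_lit 40, nat_lit 20, nat_lit 80, nat_lit 2, nat_lit 317, nat_lit 100, nat_lit 11]⟩, C1.Rw.none,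
 ⟨nat_lit 5477, nat_lit 5917, ⟨.ofNat (nat_lit 64652), .ofNat (nat_lit 818504), .ofNat (nat_lit 85991), .ofNat (nat_lit 839835), .ofNat (nat_lit 82619), .ofNat (nat_lit 801906), .ofNat (nat_lit 103976), .ofNat (nat_lit 823255)⟩, ⟨.ofNat (nat_lit 0), .ofNat (nat_lit 0), .ofNat (nat_lit 0), .ofNat (nat_lit 0), .ofNat (nat_lit 0), .ofNat (nat_lit 0), .ofNat (nat_lit 0), .ofNat (nat_lit 0)⟩⟩, [⟨nat_lit 13, nat_lit 95, nat_lit 49, nat_lit 100, nat_lit 24426120⟩]⟩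
noncomputable def b_NL_650_400_0_0 : St := ⟨false, nat_lit 2, nat_lit 2, nat_lit 0, nat_lit 20, nat_lit 260, nat_lit 280, nat_lit 160, nat_lit 180, nat_lit 0, nat_lit 400, nat_lit 0, nat_lit 0, nat_lit 0, nat_lit 0, nat_lit 0, nat_lit 0, nat_lit 0, nat_lit 48, nat_lit 0, nat_lit 0, nat_lit 0, nat_lit 0⟩
theorem d_NL_650_400_0_0 (h : EB TB.env) : Dead b_NL_650_400_0_0 := chkB_sound0 h (T :=
(.trX (nat_lit 13) (nat_lit 96) (nat_lit 40) (nat_lit 100) (nat_lit 384) (.spl (nat_lit 6) (nat_lit 40)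
(.st (nat_lit 0)
(.gv
(.st (nat_lit 1)
(.spl (nat_lit 2) (nat_lit 160)
(.leaf p012_l26)
(.leaf p012_l27))
(.spl (nat_lit 2) (nat_lit 160)
(.leaf p012_l28)
(.spl (nat_lit 2) (nat_lit 240)
(.leaf p012_l29)
(.spl (nat_lit 2) (nat_lit 320)
(.leaf p012_l30)
(.spl (nat_lit 0) (nat_lit 270)
(.spl (nat_lit 1) (nat_lit 170)
(.trX (nat_lit 13) (nat_lit 96) (nat_lit 44) (nat_lit 100) (nat_lit 380) (.leaf p012_l31))
(.leaf p012_l32))
(.trX (nat_lit 13) (nat_lit 94) (nat_lit 44) (nat_lit 100) (nat_lit 380) (.leaf p012_l33)))))))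
(.leaf p012_l34))
(.gv
(.st (nat_lit 1)
(.spl (nat_lit 2) (nat_lit 160)
(.spl (nat_lit 2) (nat_lit 80)
(.leaf p012_l35)
(.leaf p012_l36))
(.spl (nat_lit 0) (nat_lit 270)
(.leaf p012_l37)
(.trX (nat_lit 13) (nat_lit 94) (nat_lit 44) (nat_lit 100) (nat_lit 380) (.leaf p012_l38))))
(.spl (nat_lit 2) (nat_lit 160)
(.spl (nat_lit 2) (nat_lit 80)
(.leaf p012_l39)
(.leaf p012_l40))
(.spl (nat_lit 2) (nat_lit 240)
(.spl (nat_lit 2) (nat_lit 200)
(.leaf p012_l41)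
(.leaf p012_l42))
(.spl (nat_lit 0) (nat_lit 270)
(.leaf p012_l43)
(.trX (nat_lit 13) (nat_lit 94) (nat_lit 44) (nat_lit 100) (nat_lit 380) (.leaf p012_l44))))))
(.st (nat_lit 1)
(.spl (nat_lit 2) (nat_lit 160)
(.leaf p012_l45)
(.leaf p012_l46))
(.spl (nat_lit 2) (nat_lit 160)
(.leaf p012_l47)
(.leaf p012_l48)))))
(.st (nat_lit 0)
(.gv
(.st (nat_lit 1)
(.spl (nat_lit 2) (nat_lit 160)
(.leaf p012_l49)
(.leaf p012_l50))
(.spl (nat_lit 2) (nat_lit 160)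
(.leaf p012_l51)
(.leaf p012_l52)))
(.leaf p012_l53))
(.gv
(.st (nat_lit 1)
(.spl (nat_lit 2) (nat_lit 160)
(.leaf p012_l54)
(.leaf p012_l55))
(.spl (nat_lit 0) (nat_lit 270)
(.leaf p012_l56)
(.trX (nat_lit 13) (nat_lit 94) (nat_lit 44) (nat_lit 100) (nat_lit 380) (.spl (nat_lit 1) (nat_lit 170)
(.trX (nat_lit 13) (nat_lit 95) (nat_lit 49) (nat_lit 100) (nat_lit 376) (.spl (nat_lit 2) (nat_lit 160)
(.leaf p012_l57)
(.leaf p012_l58)))
(.trZ (nat_lit 0) (nat_lit 100) (nat_lit 95) (nat_lit 21) (nat_lit 4) (.spl (nat_lit 2) (nat_lit 160)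
(.leaf p012_l59)
(.leaf p012_l60)))))))
(.leaf p012_l61)))))) (by decide +kernel)
noncomputable def p012_l62 : Lf2 := ⟨nat_lit 0, nat_lit 5, [nat_lit 4, nat_lit 5, nat_lit 5, nat_lit 20], true, nat_lit 0, nat_lit 0, nat_lit 0, nat_lit 0, ⟨nat_lit 0, nat_lit 0, nat_lit 1000, nat_lit 4, nat_lit 105, nat_lit 0, nat_lit 0, nat_lit 0, nat_lit 0, nat_lit 215, nat_lit 104017, nat_lit 294, nat_lit 62666685, nat_lit 0, nat_lit 0, nat_lit 1198220, false, false⟩,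
 nat_lit 0, nat_lit 0, nat_lit 0, nat_lit 2804, nat_lit 3940, nat_lit 0, nat_lit 0, nat_lit 0, nat_lit 0, nat_lit 0, nat_lit 0, nat_lit 0, nat_lit 0, nat_lit 0, nat_lit 55, nat_lit 400000, nat_lit 0, nat_lit 0, [(nat_lit 9, [(nat_lit 5, nat_lit 1000)])],
 ⟨p012_k6, nat_lit 0, nat_lit 0, nat_lit 184, nat_lit 0, nat_lit 0, [nat_lit 2406400000, nat_lit 19600000], [], [nat_lit 15253070193, nat_lit 16799185713, nat_lit 14816294680, nat_lit 15902382800], nat_lit 0, nat_lit 0, nat_lit 0, nat_lit 0, nat_lit 0, nat_lit 0, [], [nat_lit 39, nat_lit 40, nat_lit 20, nat_lit 80, nat_lit 7, nat_lit 249, nat_lit 40, nat_lit 9]⟩, C1.Rw.none,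
 ⟨nat_lit 5477, nat_lit 5917, ⟨.ofNat (nat_lit 93845), .ofNat (nat_lit 400126), .ofNat (nat_lit 115184), .ofNat (nat_lit 421465), .ofNat (nat_lit 111470), .ofNat (nat_lit 403708), .ofNat (nat_lit 132827), .ofNat (nat_lit 425065)⟩, ⟨.ofNat (nat_lit 0), .ofNat (nat_lit 0), .ofNat (nat_lit 0), .ofNat (nat_lit 0), .ofNat (nat_lit 0), .ofNat (nat_lit 0), .ofNat (nat_lit 0), .ofNat (nat_lit 0)⟩⟩, [⟨nat_lit 0, nat_lit 100, nat_lit 94, nat_lit 30, nat_lit 122135867⟩]⟩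
noncomputable def p012_l63 : Lf2 := ⟨nat_lit 0, nat_lit 5, [nat_lit 4, nat_lit 5, nat_lit 5, nat_lit 20], false, nat_lit 0, nat_lit 0, nat_lit 0, nat_lit 0, ⟨nat_lit 1000, nat_lit 0, nat_lit 0, nat_lit 0, nat_lit 0, nat_lit 0, nat_lit 0, nat_lit 0, nat_lit 0, nat_lit 0, nat_lit 0, nat_lit 0, nat_lit 0, nat_lit 0, nat_lit 0, nat_lit 0, false, false⟩,
 nat_lit 0, nat_lit 0, nat_lit 0, nat_lit 0, nat_lit 6870, nat_lit 0, nat_lit 0, nat_lit 0, nat_lit 0, nat_lit 0, nat_lit 0, nat_lit 0, nat_lit 0, nat_lit 0, nat_lit 0, nat_lit 0, nat_lit 0, nat_lit 0, [],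
 ⟨p012_k6, nat_lit 0, nat_lit 0, nat_lit 180, nat_lit 0, nat_lit 0, [nat_lit 4688000000, nat_lit 7968000000], [], [nat_lit 23392237140, nat_lit 24818199400, nat_lit 37964470817, nat_lit 38732644968], nat_lit 0, nat_lit 0, nat_lit 0, nat_lit 0, nat_lit 0, nat_lit 0, [], [nat_lit 39, nat_lit 40, nat_lit 20, nat_lit 80, nat_lit 7, nat_lit 317, nat_lit 100, nat_lit 10]⟩, ⟨p012_k15, nat_lit 0, nat_lit 0, nat_lit 256, nat_lit 0, nat_lit 0, [nat_lit 7968000000, nat_lit 11872000000], [], [nat_lit 42029696000, nat_lit 42523776000, nat_lit 48210053600, nat_lit 48615175200], nat_lit 0, nat_lit 0, nat_lit 0, nat_lit 0, nat_lit 0, nat_lit 0, [], [nat_lit 143, nat_lit 40, nat_lit 20, nat_lit 80, nat_lit 14, nat_lit 373, nat_lit 150, nat_lit 10]⟩,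
 zbF0, []⟩
noncomputable def p012_l64 : Lf2 := ⟨nat_lit 0, nat_lit 5, [nat_lit 4, nat_lit 5, nat_lit 5, nat_lit 20], true, nat_lit 0, nat_lit 0, nat_lit 0, nat_lit 0, ⟨nat_lit 0, nat_lit 0, nat_lit 1000, nat_lit 4, nat_lit 105, nat_lit 0, nat_lit 0, nat_lit 0, nat_lit 0, nat_lit 215, nat_lit 104017, nat_lit 294, nat_lit 62666685, nat_lit 0, nat_lit 0, nat_lit 1198220, false, false⟩,
 nat_lit 0, nat_lit 0, nat_lit 0, nat_lit 2804, nat_lit 3940, nat_lit 0, nat_lit 0, nat_lit 0, nat_lit 0, nat_lit 0, nat_lit 0, nat_lit 0, nat_lit 0, nat_lit 0, nat_lit 55, nat_lit 400000, nat_lit 0, nat_lit 0, [(nat_lit 9, [(nat_lit 5, nat_lit 1000)])],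
 ⟨p012_k6, nat_lit 0, nat_lit 0, nat_lit 184, nat_lit 0, nat_lit 0, [nat_lit 2406400000, nat_lit 19600000], [], [nat_lit 15253070193, nat_lit 16799185713, nat_lit 14816294680, nat_lit 15902382800], nat_lit 0, nat_lit 0, nat_lit 0, nat_lit 0, nat_lit 0, nat_lit 0, [], [nat_lit 39, nat_lit 40, nat_lit 20, nat_lit 80, nat_lit 7, nat_lit 249, nat_lit 40, nat_lit 9]⟩, C1.Rw.none,
 ⟨nat_lit 5477, nat_lit 5917, ⟨.ofNat (nat_lit 93845), .ofNat (nat_lit 400126), .ofNat (nat_lit 115184), .ofNat (nat_lit 421465), .ofNat (nat_lit 111470), .ofNat (nat_lit 403708), .ofNat (nat_lit 132827), .ofNat (nat_lit 425065)⟩, ⟨.ofNat (nat_lit 0), .ofNat (nat_lit 0), .ofNat (nat_lit 0), .ofNat (nat_lit 0), .ofNat (nat_lit 0), .ofNat (nat_lit 0), .ofNat (nat_lit 0), .ofNat (nat_lit 0)⟩⟩, [⟨nat_lit 0, nat_lit 100, nat_lit 94, nat_lit 30, nat_lit 122135867⟩]⟩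
noncomputable def p012_l65 : Lf2 := ⟨nat_lit 0, nat_lit 5, [nat_lit 4, nat_lit 5, nat_lit 5, nat_lit 20], true, nat_lit 0, nat_lit 0, nat_lit 0, nat_lit 0, ⟨nat_lit 0, nat_lit 1000, nat_lit 0, nat_lit 4, nat_lit 196, nat_lit 0, nat_lit 0, nat_lit 0, nat_lit 0, nat_lit 0, nat_lit 0, nat_lit 0, nat_lit 54057047, nat_lit 12942953, nat_lit 0, nat_lit 2453993, false, true⟩,
 nat_lit 0, nat_lit 0, nat_lit 0, nat_lit 84, nat_lit 5208, nat_lit 0, nat_lit 0, nat_lit 0, nat_lit 0, nat_lit 0, nat_lit 0, nat_lit 0, nat_lit 0, nat_lit 0, nat_lit 0, nat_lit 250000, nat_lit 0, nat_lit 0, [(nat_lit 9, [(nat_lit 0, nat_lit 1000)])],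
 ⟨p012_k6, nat_lit 0, nat_lit 0, nat_lit 68, nat_lit 0, nat_lit 0, [nat_lit 3116800000, nat_lit 3354400000], [], [nat_lit 13829977776, nat_lit 15581134400, nat_lit 17916621120, nat_lit 19379530688], nat_lit 0, nat_lit 0, nat_lit 0, nat_lit 0, nat_lit 0, nat_lit 0, [], [nat_lit 39, nat_lit 40, nat_lit 20, nat_lit 80, nat_lit 7, nat_lit 272, nat_lit 60, nat_lit 9]⟩, C1.Rw.none,
 ⟨nat_lit 5477, nat_lit 5917, ⟨.ofNat (nat_lit 400126), .ofNat (nat_lit 557183), .ofNat (nat_lit 421465), .ofNat (nat_lit 578514), .ofNat (nat_lit 403708), .ofNat (nat_lit 553564), .ofNat (nat_lit 425065), .ofNat (nat_lit 574913)⟩, ⟨.ofNat (nat_lit 0), .ofNat (nat_lit 0), .ofNat (nat_lit 0), .ofNat (nat_lit 0), .ofNat (nat_lit 0), .ofNat (nat_lit 0), .ofNat (nat_lit 0), .ofNat (nat_lit 0)⟩⟩, []⟩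
noncomputable def p012_l66 : Lf2 := ⟨nat_lit 0, nat_lit 5, [nat_lit 4, nat_lit 5, nat_lit 5, nat_lit 20], true, nat_lit 0, nat_lit 0, nat_lit 0, nat_lit 0, ⟨nat_lit 0, nat_lit 1000, nat_lit 0, nat_lit 6, nat_lit 257, nat_lit 0, nat_lit 0, nat_lit 0, nat_lit 0, nat_lit 0, nat_lit 0, nat_lit 0, nat_lit 47412218, nat_lit 19587782, nat_lit 0, nat_lit 3021233, true, true⟩,
 nat_lit 0, nat_lit 0, nat_lit 0, nat_lit 1150, nat_lit 5225, nat_lit 0, nat_lit 0, nat_lit 0, nat_lit 0, nat_lit 0, nat_lit 0, nat_lit 0, nat_lit 0, nat_lit 0, nat_lit 0, nat_lit 250000, nat_lit 0, nat_lit 0, [(nat_lit 9, [(nat_lit 0, nat_lit 1000)])],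
 ⟨p012_k6, nat_lit 0, nat_lit 0, nat_lit 148, nat_lit 0, nat_lit 0, [nat_lit 3116800000, nat_lit 3354400000], [], [nat_lit 22245871100, nat_lit 23285956200, nat_lit 26469762600, nat_lit 27429086800], nat_lit 0, nat_lit 0, nat_lit 0, nat_lit 0, nat_lit 0, nat_lit 0, [], [nat_lit 39, nat_lit 40, nat_lit 20, nat_lit 80, nat_lit 7, nat_lit 203, nat_lit 0, nat_lit 6]⟩, C1.Rw.none,
 ⟨nat_lit 5477, nat_lit 5917, ⟨.ofNat (nat_lit 557183), .ofNat (nat_lit 714212), .ofNat (nat_lit 578514), .ofNat (nat_lit 735543), .ofNat (nat_lit 553564), .ofNat (nat_lit 703393), .ofNat (nat_lit 574913), .ofNat (nat_lit 724742)⟩, ⟨.ofNat (nat_lit 0), .ofNat (nat_lit 0), .ofNat (nat_lit 0), .ofNat (nat_lit 0), .ofNat (nat_lit 0), .ofNat (nat_lit 0), .ofNat (nat_lit 0), .ofNat (nat_lit 0)⟩⟩, []⟩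
noncomputable def p012_l67 : Lf2 := ⟨nat_lit 0, nat_lit 5, [nat_lit 4, nat_lit 5, nat_lit 5, nat_lit 20], false, nat_lit 0, nat_lit 0, nat_lit 0, nat_lit 0, ⟨nat_lit 56, nat_lit 944, nat_lit 0, nat_lit 8, nat_lit 317, nat_lit 0, nat_lit 0, nat_lit 0, nat_lit 0, nat_lit 0, nat_lit 0, nat_lit 0, nat_lit 41171291, nat_lit 25828709, nat_lit 0, nat_lit 3333469, true, true⟩,
 nat_lit 0, nat_lit 0, nat_lit 1308, nat_lit 0, nat_lit 4341, nat_lit 497, nat_lit 0, nat_lit 0, nat_lit 0, nat_lit 133, nat_lit 0, nat_lit 0, nat_lit 0, nat_lit 0, nat_lit 0, nat_lit 377600, nat_lit 0, nat_lit 0, [(nat_lit 9, [(nat_lit 1, nat_lit 944)])],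
 ⟨p012_k6, nat_lit 0, nat_lit 0, nat_lit 179, nat_lit 0, nat_lit 0, [nat_lit 2851731201, nat_lit 3287811200], [], [nat_lit 26859116617, nat_lit 27246624227, nat_lit 31049533518, nat_lit 31349873586], nat_lit 0, nat_lit 0, nat_lit 0, nat_lit 0, nat_lit 0, nat_lit 0, [], [nat_lit 39, nat_lit 40, nat_lit 20, nat_lit 80, nat_lit 7, nat_lit 203, nat_lit 0, nat_lit 6]⟩, ⟨p012_k15, nat_lit 0, nat_lit 0, nat_lit 887, nat_lit 0, nat_lit 1383542, [nat_lit 446208000, nat_lit 664832000], [], [nat_lit 2439555839, nat_lit 2423299172, nat_lit 2489707778, nat_lit 2471312878], nat_lit 1271250, nat_lit 1271250, nat_lit 1271250, nat_lit 1271250, nat_lit 0, nat_lit 0, [nat_lit 1695000, nat_lit 1271250], [nat_lit 143, nat_lit 40, nat_lit 20, nat_lit 80, nat_lit 14, nat_lit 296, nat_lit 50, nat_lit 7]⟩,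
 ⟨nat_lit 5700, nat_lit 5917, ⟨.ofNat (nat_lit 714247), .ofNat (nat_lit 855599), .ofNat (nat_lit 735585), .ofNat (nat_lit 876936), .ofNat (nat_lit 708801), .ofNat (nat_lit 846886), .ofNat (nat_lit 730141), .ofNat (nat_lit 868227)⟩, ⟨.ofNat (nat_lit 0), .ofNat (nat_lit 0), .ofNat (nat_lit 0), .ofNat (nat_lit 0), .ofNat (nat_lit 0), .ofNat (nat_lit 0), .ofNat (nat_lit 0), .ofNat (nat_lit 0)⟩⟩, [⟨nat_lit 13, nat_lit 95, nat_lit 30, nat_lit 100, nat_lit 167409963⟩]⟩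
noncomputable def p012_l68 : Lf2 := ⟨nat_lit 0, nat_lit 5, [nat_lit 4, nat_lit 5, nat_lit 5, nat_lit 20], false, nat_lit 0, nat_lit 0, nat_lit 0, nat_lit 0, ⟨nat_lit 47, nat_lit 953, nat_lit 0, nat_lit 8, nat_lit 312, nat_lit 0, nat_lit 0, nat_lit 0, nat_lit 0, nat_lit 0, nat_lit 0, nat_lit 0, nat_lit 41606266, nat_lit 25393734, nat_lit 0, nat_lit 3317888, true, true⟩,
 nat_lit 0, nat_lit 0, nat_lit 1119, nat_lit 0, nat_lit 4338, nat_lit 425, nat_lit 0, nat_lit 0, nat_lit 0, nat_lit 109, nat_lit 0, nat_lit 0, nat_lit 0, nat_lit 0, nat_lit 0, nat_lit 381200, nat_lit 0, nat_lit 0, [(nat_lit 9, [(nat_lit 1, nat_lit 953)])],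
 ⟨p012_k9, nat_lit 0, nat_lit 0, nat_lit 178, nat_lit 0, nat_lit 0, [nat_lit 2834224401, nat_lit 3243934400], [], [nat_lit 27187605869, nat_lit 27575031849, nat_lit 31049198421, nat_lit 31368939701], nat_lit 0, nat_lit 0, nat_lit 0, nat_lit 0, nat_lit 0, nat_lit 0, [], [nat_lit 39, nat_lit 40, nat_lit 20, nat_lit 80, nat_lit 7, nat_lit 203, nat_lit 0, nat_lit 6]⟩, ⟨p012_k15, nat_lit 0, nat_lit 0, nat_lit 1006, nat_lit 0, nat_lit 1635849, [nat_lit 374496000, nat_lit 557984000], [], [nat_lit 2057371084, nat_lit 2041724004, nat_lit 2077635632, nat_lit 2060162551], nat_lit 1271250, nat_lit 1271250, nat_lit 1271250, nat_lit 1271250, nat_lit 0, nat_lit 0, [nat_lit 1695000, nat_lit 1271250], [nat_lit 143, nat_lit 40, nat_lit 20, nat_lit 80, nat_lit 14, nat_lit 325, nat_lit 50, nat_lit 8]⟩,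
 ⟨nat_lit 5477, nat_lit 5701, ⟨.ofNat (nat_lit 708804), .ofNat (nat_lit 839218), .ofNat (nat_lit 730143), .ofNat (nat_lit 860558), .ofNat (nat_lit 703431), .ofNat (nat_lit 830809), .ofNat (nat_lit 724785), .ofNat (nat_lit 852164)⟩, ⟨.ofNat (nat_lit 0), .ofNat (nat_lit 0), .ofNat (nat_lit 0), .ofNat (nat_lit 0), .ofNat (nat_lit 0), .ofNat (nat_lit 0), .ofNat (nat_lit 0), .ofNat (nat_lit 0)⟩⟩, [⟨nat_lit 13, nat_lit 94, nat_lit 35, nat_lit 100, nat_lit 175596042⟩]⟩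
noncomputable def p012_l69 : Lf2 := ⟨nat_lit 0, nat_lit 5, [nat_lit 4, nat_lit 5, nat_lit 5, nat_lit 20], true, nat_lit 0, nat_lit 0, nat_lit 0, nat_lit 0, ⟨nat_lit 0, nat_lit 1000, nat_lit 0, nat_lit 4, nat_lit 194, nat_lit 0, nat_lit 0, nat_lit 0, nat_lit 0, nat_lit 0, nat_lit 0, nat_lit 0, nat_lit 0, nat_lit 0, nat_lit 0, nat_lit 5000000, false, true⟩,
 nat_lit 0, nat_lit 0, nat_lit 0, nat_lit 2817, nat_lit 4287, nat_lit 0, nat_lit 0, nat_lit 0, nat_lit 0, nat_lit 0, nat_lit 0, nat_lit 0, nat_lit 0, nat_lit 0, nat_lit 0, nat_lit 400000, nat_lit 0, nat_lit 0, [(nat_lit 9, [(nat_lit 1, nat_lit 1000)])],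
 ⟨p012_k6, nat_lit 0, nat_lit 0, nat_lit 184, nat_lit 0, nat_lit 0, [nat_lit 2742800000, nat_lit 3014800000], [], [nat_lit 20648506282, nat_lit 21974152292, nat_lit 30686675775, nat_lit 31365718257], nat_lit 0, nat_lit 0, nat_lit 0, nat_lit 0, nat_lit 0, nat_lit 0, [], [nat_lit 39, nat_lit 40, nat_lit 20, nat_lit 80, nat_lit 7, nat_lit 317, nat_lit 100, nat_lit 11]⟩, C1.Rw.none,
 ⟨nat_lit 5477, nat_lit 5917, ⟨.ofNat (nat_lit 93845), .ofNat (nat_lit 855538), .ofNat (nat_lit 115184), .ofNat (nat_lit 876870), .ofNat (nat_lit 111470), .ofNat (nat_lit 838238), .ofNat (nat_lit 132827), .ofNat (nat_lit 859587)⟩, ⟨.ofNat (nat_lit 0), .ofNat (nat_lit 0), .ofNat (nat_lit 0), .ofNat (nat_lit 0), .ofNat (nat_lit 0), .ofNat (nat_lit 0), .ofNat (nat_lit 0), .ofNat (nat_lit 0)⟩⟩, [⟨nat_lit 13, nat_lit 95, nat_lit 30, nat_lit 100, nat_lit 178951512⟩]⟩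
noncomputable def p012_l70 : Lf2 := ⟨nat_lit 0, nat_lit 2, [nat_lit 10, nat_lit 5, nat_lit 5, nat_lit 20], true, nat_lit 0, nat_lit 0, nat_lit 0, nat_lit 0, ⟨nat_lit 0, nat_lit 0, nat_lit 1000, nat_lit 4, nat_lit 74, nat_lit 0, nat_lit 0, nat_lit 0, nat_lit 0, nat_lit 215, nat_lit 52267, nat_lit 271, nat_lit 64754266, nat_lit 0, nat_lit 0, nat_lit 733817, false, false⟩,
 nat_lit 0, nat_lit 7047, nat_lit 0, nat_lit 0, nat_lit 4101, nat_lit 0, nat_lit 503, nat_lit 0, nat_lit 0, nat_lit 0, nat_lit 0, nat_lit 0, nat_lit 0, nat_lit 0, nat_lit 37, nat_lit 1000000, nat_lit 0, nat_lit 0, [(nat_lit 9, [(nat_lit 6, nat_lit 1000)])],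
 ⟨p012_k16, nat_lit 0, nat_lit 0, nat_lit 315, nat_lit 0, nat_lit 368939, [nat_lit 1689600001, nat_lit 0], [], [nat_lit 16252168091, nat_lit 17158503065, nat_lit 18263612672, nat_lit 16304614184], nat_lit 1271250, nat_lit 1271250, nat_lit 21650, nat_lit 490000, nat_lit 0, nat_lit 0, [nat_lit 1100000, nat_lit 1442500], [nat_lit 31, nat_lit 40, nat_lit 20, nat_lit 80, nat_lit 3, nat_lit 226, nat_lit 20, nat_lit 9]⟩, C1.Rw.none,
 ⟨nat_lit 5477, nat_lit 5917, ⟨.ofNat (nat_lit 93845), .ofNat (nat_lit 243059), .ofNat (nat_lit 115184), .ofNat (nat_lit 264398), .ofNat (nat_lit 111470), .ofNat (nat_lit 253842), .ofNat (nat_lit 132827), .ofNat (nat_lit 275199)⟩, ⟨.ofNat (nat_lit 0), .ofNat (nat_lit 0), .ofNat (nat_lit 0), .ofNat (nat_lit 0), .ofNat (nat_lit 0), .ofNat (nat_lit 0), .ofNat (nat_lit 0), .ofNat (nat_lit 0)⟩⟩, []⟩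
noncomputable def p012_l71 : Lf2 := ⟨nat_lit 0, nat_lit 5, [nat_lit 4, nat_lit 5, nat_lit 5, nat_lit 20], true, nat_lit 0, nat_lit 0, nat_lit 0, nat_lit 0, ⟨nat_lit 0, nat_lit 0, nat_lit 1000, nat_lit 4, nat_lit 74, nat_lit 0, nat_lit 0, nat_lit 0, nat_lit 0, nat_lit 215, nat_lit 52267, nat_lit 271, nat_lit 64754266, nat_lit 0, nat_lit 0, nat_lit 733817, false, false⟩,
 nat_lit 0, nat_lit 6588, nat_lit 0, nat_lit 0, nat_lit 3834, nat_lit 0, nat_lit 2, nat_lit 0, nat_lit 0, nat_lit 0, nat_lit 0, nat_lit 0, nat_lit 0, nat_lit 0, nat_lit 117, nat_lit 1000000, nat_lit 0, nat_lit 0, [(nat_lit 9, [(nat_lit 6, nat_lit 1000)])],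
 ⟨p012_k6, nat_lit 0, nat_lit 0, nat_lit 371, nat_lit 0, nat_lit 309848, [nat_lit 3178400000, nat_lit 158133334], [], [nat_lit 15657018655, nat_lit 16565638792, nat_lit 14932793128, nat_lit 15613168526], nat_lit 1271250, nat_lit 1271250, nat_lit 21650, nat_lit 490000, nat_lit 0, nat_lit 0, [nat_lit 1100000, nat_lit 1785000], [nat_lit 39, nat_lit 40, nat_lit 20, nat_lit 80, nat_lit 7, nat_lit 226, nat_lit 20, nat_lit 8]⟩, C1.Rw.none,
 ⟨nat_lit 5477, nat_lit 5917, ⟨.ofNat (nat_lit 93845), .ofNat (nat_lit 243059), .ofNat (nat_lit 115184), .ofNat (nat_lit 264398), .ofNat (nat_lit 111470), .ofNat (nat_lit 253842), .ofNat (nat_lit 132827), .ofNat (nat_lit 275199)⟩, ⟨.ofNat (nat_lit 0), .ofNat (nat_lit 0), .ofNat (nat_lit 0), .ofNat (nat_lit 0), .ofNat (nat_lit 0), .ofNat (nat_lit 0), .ofNat (nat_lit 0), .ofNat (nat_lit 0)⟩⟩, [⟨nat_lit 0, nat_lit 100, nat_lit 92, nat_lit 40, nat_lit 161471533⟩]⟩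
noncomputable def p012_l72 : Lf2 := ⟨nat_lit 0, nat_lit 5, [nat_lit 4, nat_lit 5, nat_lit 5, nat_lit 20], true, nat_lit 0, nat_lit 0, nat_lit 0, nat_lit 0, ⟨nat_lit 0, nat_lit 0, nat_lit 1000, nat_lit 4, nat_lit 74, nat_lit 0, nat_lit 0, nat_lit 0, nat_lit 0, nat_lit 215, nat_lit 52267, nat_lit 271, nat_lit 64754266, nat_lit 0, nat_lit 0, nat_lit 733817, false, false⟩,
 nat_lit 0, nat_lit 6839, nat_lit 0, nat_lit 0, nat_lit 3980, nat_lit 0, nat_lit 0, nat_lit 0, nat_lit 0, nat_lit 0, nat_lit 0, nat_lit 0, nat_lit 0, nat_lit 0, nat_lit 66, nat_lit 511600, nat_lit 0, nat_lit 0, [(nat_lit 9, [(nat_lit 5, nat_lit 814), (nat_lit 6, nat_lit 186)])],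
 ⟨p012_k6, nat_lit 0, nat_lit 0, nat_lit 304, nat_lit 0, nat_lit 230711, [nat_lit 2541480001, nat_lit 7204000], [], [nat_lit 15775774874, nat_lit 16890925700, nat_lit 17079076201, nat_lit 15749160003], nat_lit 1271250, nat_lit 1271250, nat_lit 21650, nat_lit 490000, nat_lit 0, nat_lit 0, [nat_lit 1100000, nat_lit 1785000], [nat_lit 39, nat_lit 40, nat_lit 20, nat_lit 80, nat_lit 7, nat_lit 226, nat_lit 20, nat_lit 8]⟩, C1.Rw.none,
 ⟨nat_lit 5477, nat_lit 5917, ⟨.ofNat (nat_lit 93845), .ofNat (nat_lit 243059), .ofNat (nat_lit 115184), .ofNat (nat_lit 264398), .ofNat (nat_lit 111470), .ofNat (nat_lit 253842), .ofNat (nat_lit 132827), .ofNat (nat_lit 275199)⟩, ⟨.ofNat (nat_lit 0), .ofNat (nat_lit 0), .ofNat (nat_lit 0), .ofNat (nat_lit 0), .ofNat (nat_lit 0), .ofNat (nat_lit 0), .ofNat (nat_lit 0), .ofNat (nat_lit 0)⟩⟩, [⟨nat_lit 0, nat_lit 100, nat_lit 92, nat_lit 40, nat_lit 66093227⟩]⟩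
noncomputable def p012_l73 : Lf2 := ⟨nat_lit 0, nat_lit 5, [nat_lit 4, nat_lit 5, nat_lit 5, nat_lit 20], false, nat_lit 0, nat_lit 0, nat_lit 0, nat_lit 0, ⟨nat_lit 408, nat_lit 0, nat_lit 592, nat_lit 4, nat_lit 134, nat_lit 0, nat_lit 0, nat_lit 0, nat_lit 0, nat_lit 215, nat_lit 170017, nat_lit 316, nat_lit 60208460, nat_lit 0, nat_lit 0, nat_lit 1640370, false, false⟩,
 nat_lit 0, nat_lit 10541, nat_lit 0, nat_lit 0, nat_lit 6135, nat_lit 6987, nat_lit 213, nat_lit 0, nat_lit 0, nat_lit 2556, nat_lit 0, nat_lit 0, nat_lit 0, nat_lit 0, nat_lit 0, nat_lit 592000, nat_lit 0, nat_lit 0, [(nat_lit 9, [(nat_lit 6, nat_lit 592)])],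
 ⟨p012_k11, nat_lit 0, nat_lit 0, nat_lit 508, nat_lit 0, nat_lit 748092, [nat_lit 2562483201, nat_lit 2111920000, nat_lit 1706724800], [], [nat_lit 21011047853, nat_lit 18053667043, nat_lit 20301663141, nat_lit 18212588120], nat_lit 1271250, nat_lit 1271250, nat_lit 490000, nat_lit 1100001, nat_lit 0, nat_lit 0, [nat_lit 1100000, nat_lit 1442500, nat_lit 1271250], [nat_lit 9, nat_lit 40, nat_lit 20, nat_lit 80, nat_lit 2, nat_lit 249, nat_lit 40, nat_lit 8]⟩, ⟨p012_k17, nat_lit 0, nat_lit 0, nat_lit 216, nat_lit 0, nat_lit 0, [nat_lit 3250944000, nat_lit 4015536000, nat_lit 4843776000], [], [nat_lit 6183827718, nat_lit 6545139360, nat_lit 5369867922, nat_lit 5904168096], nat_lit 0, nat_lit 0, nat_lit 0, nat_lit 0, nat_lit 0, nat_lit 0, [], [nat_lit 106, nat_lit 40, nat_lit 20, nat_lit 80, nat_lit 41, nat_lit 317, nat_lit 100, nat_lit 9]⟩,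
 ⟨nat_lit 5477, nat_lit 5917, ⟨.ofNat (nat_lit 243059), .ofNat (nat_lit 400126), .ofNat (nat_lit 264398), .ofNat (nat_lit 421465), .ofNat (nat_lit 253842), .ofNat (nat_lit 403708), .ofNat (nat_lit 275199), .ofNat (nat_lit 425065)⟩, ⟨.ofNat (nat_lit 0), .ofNat (nat_lit 0), .ofNat (nat_lit 0), .ofNat (nat_lit 0), .ofNat (nat_lit 0), .ofNat (nat_lit 0), .ofNat (nat_lit 0), .ofNat (nat_lit 0)⟩⟩, []⟩
noncomputable def p012_l74 : Lf2 := ⟨nat_lit 0, nat_lit 5, [nat_lit 4, nat_lit 5, nat_lit 5, nat_lit 20], false, nat_lit 0, nat_lit 0, nat_lit 0, nat_lit 0, ⟨nat_lit 1000, nat_lit 0, nat_lit 0, nat_lit 0, nat_lit 0, nat_lit 0, nat_lit 0, nat_lit 0, nat_lit 0, nat_lit 0, nat_lit 0, nat_lit 0, nat_lit 0, nat_lit 0, nat_lit 0, nat_lit 0, false, false⟩,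
 nat_lit 0, nat_lit 8810, nat_lit 0, nat_lit 0, nat_lit 5128, nat_lit 11502, nat_lit 2693, nat_lit 0, nat_lit 0, nat_lit 0, nat_lit 0, nat_lit 0, nat_lit 0, nat_lit 0, nat_lit 0, nat_lit 0, nat_lit 0, nat_lit 0, [],
 ⟨p012_k6, nat_lit 0, nat_lit 0, nat_lit 480, nat_lit 0, nat_lit 748092, [nat_lit 4688000000, nat_lit 7968000000], [], [nat_lit 34478895056, nat_lit 32841106384, nat_lit 43024306644, nat_lit 40665475872], nat_lit 1271250, nat_lit 1271250, nat_lit 1100001, nat_lit 3086500, nat_lit 0, nat_lit 0, [nat_lit 1100000, nat_lit 1785000], [nat_lit 39, nat_lit 40, nat_lit 20, nat_lit 80, nat_lit 7, nat_lit 317, nat_lit 100, nat_lit 10]⟩, ⟨p012_k15, nat_lit 0, nat_lit 0, nat_lit 256, nat_lit 0, nat_lit 0, [nat_lit 7968000000, nat_lit 11872000000], [], [nat_lit 31435916924, nat_lit 31881619512, nat_lit 49041748889, nat_lit 48901943180], nat_lit 0, nat_lit 0, nat_lit 0, nat_lit 0, nat_lit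 0, nat_lit 0, [], [nat_lit 143, nat_lit 40, nat_lit 20, nat_lit 80, nat_lit 14, nat_lit 373, nat_lit 150, nat_lit 10]⟩,
 zbF0, []⟩
noncomputable def p012_l75 : Lf2 := ⟨nat_lit 0, nat_lit 2, [nat_lit 10, nat_lit 5, nat_lit 5, nat_lit 20], true, nat_lit 0, nat_lit 0, nat_lit 0, nat_lit 0, ⟨nat_lit 0, nat_lit 0, nat_lit 1000, nat_lit 4, nat_lit 74, nat_lit 0, nat_lit 0, nat_lit 0, nat_lit 0, nat_lit 215, nat_lit 52267, nat_lit 271, nat_lit 64754266, nat_lit 0, nat_lit 0, nat_lit 733817, false, false⟩,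
 nat_lit 0, nat_lit 7047, nat_lit 0, nat_lit 0, nat_lit 4101, nat_lit 0, nat_lit 503, nat_lit 0, nat_lit 0, nat_lit 0, nat_lit 0, nat_lit 0, nat_lit 0, nat_lit 0, nat_lit 37, nat_lit 1000000, nat_lit 0, nat_lit 0, [(nat_lit 9, [(nat_lit 6, nat_lit 1000)])],
 ⟨p012_k16, nat_lit 0, nat_lit 0, nat_lit 315, nat_lit 0, nat_lit 368939, [nat_lit 1689600001, nat_lit 0], [], [nat_lit 16252168091, nat_lit 17158503065, nat_lit 18263612672, nat_lit 16304614184], nat_lit 1271250, nat_lit 1271250, nat_lit 21650, nat_lit 490000, nat_lit 0, nat_lit 0, [nat_lit 1100000, nat_lit 1442500], [nat_lit 31, nat_lit 40, nat_lit 20, nat_lit 80, nat_lit 3, nat_lit 226, nat_lit 20, nat_lit 9]⟩, C1.Rw.none,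
 ⟨nat_lit 5477, nat_lit 5917, ⟨.ofNat (nat_lit 93845), .ofNat (nat_lit 243059), .ofNat (nat_lit 115184), .ofNat (nat_lit 264398), .ofNat (nat_lit 111470), .ofNat (nat_lit 253842), .ofNat (nat_lit 132827), .ofNat (nat_lit 275199)⟩, ⟨.ofNat (nat_lit 0), .ofNat (nat_lit 0), .ofNat (nat_lit 0), .ofNat (nat_lit 0), .ofNat (nat_lit 0), .ofNat (nat_lit 0), .ofNat (nat_lit 0), .ofNat (nat_lit 0)⟩⟩, []⟩
noncomputable def p012_l76 : Lf2 := ⟨nat_lit 0, nat_lit 5, [nat_lit 4, nat_lit 5, nat_lit 5, nat_lit 20], true, nat_lit 0, nat_lit 0, nat_lit 0, nat_lit 0, ⟨nat_lit 0, nat_lit 0, nat_lit 1000, nat_lit 4, nat_lit 74, nat_lit 0, nat_lit 0, nat_lit 0, nat_lit 0, nat_lit 215, nat_lit 52267, nat_lit 271, nat_lit 64754266, nat_lit 0, nat_lit 0, nat_lit 733817, false, false⟩,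
 nat_lit 0, nat_lit 6588, nat_lit 0, nat_lit 0, nat_lit 3834, nat_lit 0, nat_lit 2, nat_lit 0, nat_lit 0, nat_lit 0, nat_lit 0, nat_lit 0, nat_lit 0, nat_lit 0, nat_lit 117, nat_lit 1000000, nat_lit 0, nat_lit 0, [(nat_lit 9, [(nat_lit 6, nat_lit 1000)])],
 ⟨p012_k6, nat_lit 0, nat_lit 0, nat_lit 371, nat_lit 0, nat_lit 309848, [nat_lit 3178400000, nat_lit 158133334], [], [nat_lit 15657018655, nat_lit 16565638792, nat_lit 14932793128, nat_lit 15613168526], nat_lit 1271250, nat_lit 1271250, nat_lit 21650, nat_lit 490000, nat_lit 0, nat_lit 0, [nat_lit 1100000, nat_lit 1785000], [nat_lit 39, nat_lit 40, nat_lit 20, nat_lit 80, nat_lit 7, nat_lit 226, nat_lit 20, nat_lit 8]⟩, C1.Rw.none,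
 ⟨nat_lit 5477, nat_lit 5917, ⟨.ofNat (nat_lit 93845), .ofNat (nat_lit 243059), .ofNat (nat_lit 115184), .ofNat (nat_lit 264398), .ofNat (nat_lit 111470), .ofNat (nat_lit 253842), .ofNat (nat_lit 132827), .ofNat (nat_lit 275199)⟩, ⟨.ofNat (nat_lit 0), .ofNat (nat_lit 0), .ofNat (nat_lit 0), .ofNat (nat_lit 0), .ofNat (nat_lit 0), .ofNat (nat_lit 0), .ofNat (nat_lit 0), .ofNat (nat_lit 0)⟩⟩, [⟨nat_lit 0, nat_lit 100, nat_lit 92, nat_lit 40, nat_lit 161471533⟩]⟩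
noncomputable def p012_l77 : Lf2 := ⟨nat_lit 0, nat_lit 5, [nat_lit 4, nat_lit 5, nat_lit 5, nat_lit 20], true, nat_lit 0, nat_lit 0, nat_lit 0, nat_lit 0, ⟨nat_lit 0, nat_lit 0, nat_lit 1000, nat_lit 4, nat_lit 74, nat_lit 0, nat_lit 0, nat_lit 0, nat_lit 0, nat_lit 215, nat_lit 52267, nat_lit 271, nat_lit 64754266, nat_lit 0, nat_lit 0, nat_lit 733817, false, false⟩,
 nat_lit 0, nat_lit 6839, nat_lit 0, nat_lit 0, nat_lit 3980, nat_lit 0, nat_lit 0, nat_lit 0, nat_lit 0, nat_lit 0, nat_lit 0, nat_lit 0, nat_lit 0, nat_lit 0, nat_lit 66, nat_lit 511600, nat_lit 0, nat_lit 0, [(nat_lit 9, [(nat_lit 5, nat_lit 814), (nat_lit 6, nat_lit 186)])],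
 ⟨p012_k6, nat_lit 0, nat_lit 0, nat_lit 304, nat_lit 0, nat_lit 230711, [nat_lit 2541480001, nat_lit 7204000], [], [nat_lit 15775774874, nat_lit 16890925700, nat_lit 17079076201, nat_lit 15749160003], nat_lit 1271250, nat_lit 1271250, nat_lit 21650, nat_lit 490000, nat_lit 0, nat_lit 0, [nat_lit 1100000, nat_lit 1785000], [nat_lit 39, nat_lit 40, nat_lit 20, nat_lit 80, nat_lit 7, nat_lit 226, nat_lit 20, nat_lit 8]⟩, C1.Rw.none,
 ⟨nat_lit 5477, nat_lit 5917, ⟨.ofNat (nat_lit 93845), .ofNat (nat_lit 243059), .ofNat (nat_lit 115184), .ofNat (nat_lit 264398), .ofNat (nat_lit 111470), .ofNat (nat_lit 253842), .ofNat (nat_lit 132827), .ofNat (nat_lit 275199)⟩, ⟨.ofNat (nat_lit 0), .ofNat (nat_lit 0), .ofNat (nat_lit 0), .ofNat (nat_lit 0), .ofNat (nat_lit 0), .ofNat (nat_lit 0), .ofNat (nat_lit 0), .ofNat (nat_lit 0)⟩⟩, [⟨nat_lit 0, nat_lit 100, nat_lit 92, nat_lit 40, nat_lit 66093227⟩]⟩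
noncomputable def p012_l78 : Lf2 := ⟨nat_lit 0, nat_lit 5, [nat_lit 4, nat_lit 5, nat_lit 5, nat_lit 20], false, nat_lit 0, nat_lit 0, nat_lit 0, nat_lit 0, ⟨nat_lit 0, nat_lit 0, nat_lit 1000, nat_lit 4, nat_lit 119, nat_lit 0, nat_lit 0, nat_lit 0, nat_lit 0, nat_lit 215, nat_lit 132017, nat_lit 304, nat_lit 61552545, nat_lit 0, nat_lit 0, nat_lit 1409725, false, false⟩,
 nat_lit 0, nat_lit 7586, nat_lit 0, nat_lit 0, nat_lit 4415, nat_lit 0, nat_lit 0, nat_lit 0, nat_lit 0, nat_lit 0, nat_lit 0, nat_lit 0, nat_lit 0, nat_lit 0, nat_lit 117, nat_lit 1000000, nat_lit 0, nat_lit 0, [(nat_lit 9, [(nat_lit 6, nat_lit 1000)])],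
 ⟨p012_k11, nat_lit 0, nat_lit 0, nat_lit 328, nat_lit 0, nat_lit 421236, [nat_lit 2969600000, nat_lit 1600000000, nat_lit 226400000], [], [nat_lit 12417464240, nat_lit 13685070000, nat_lit 13563471550, nat_lit 14035459700], nat_lit 1271250, nat_lit 1271250, nat_lit 490000, nat_lit 780000, nat_lit 0, nat_lit 0, [nat_lit 1100000, nat_lit 1442500, nat_lit 1271250], [nat_lit 9, nat_lit 40, nat_lit 20, nat_lit 80, nat_lit 2, nat_lit 238, nat_lit 30, nat_lit 8]⟩, ⟨p012_k17, nat_lit 0, nat_lit 0, nat_lit 667, nat_lit 0, nat_lit 681107, [nat_lit 0, nat_lit 0, nat_lit 0], [], [nat_lit 0, nat_lit 0, nat_lit 0, nat_lit 0], nat_lit 1271250, nat_lit 1271250, nat_lit 490000, nat_lit 780000, nat_lit 0, nat_lit 0, [nat_lit 1695000, nat_lit 1271250, nat_lit 1271250], [nat_lit 106, nat_lit 40, nat_lit 20, nat_lit 80, nat_lit 41, nat_lit 317, nat_lit 100, nat_lit 9]⟩,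
 ⟨nat_lit 5477, nat_lit 5917, ⟨.ofNat (nat_lit 243059), .ofNat (nat_lit 321592), .ofNat (nat_lit 264398), .ofNat (nat_lit 342931), .ofNat (nat_lit 253842), .ofNat (nat_lit 328775), .ofNat (nat_lit 275199), .ofNat (nat_lit 350132)⟩, ⟨.ofNat (nat_lit 0), .ofNat (nat_lit 0), .ofNat (nat_lit 0), .ofNat (nat_lit 0), .ofNat (nat_lit 0), .ofNat (nat_lit 0), .ofNat (nat_lit 0), .ofNat (nat_lit 0)⟩⟩, []⟩
noncomputable def p012_l79 : Lf2 := ⟨nat_lit 0, nat_lit 5, [nat_lit 4, nat_lit 5, nat_lit 5, nat_lit 20], false, nat_lit 0, nat_lit 0, nat_lit 0, nat_lit 0, ⟨nat_lit 122, nat_lit 0, nat_lit 878, nat_lit 4, nat_lit 150, nat_lit 0, nat_lit 0, nat_lit 0, nat_lit 0, nat_lit 215, nat_lit 209067, nat_lit 327, nat_lit 58769672, nat_lit 0, nat_lit 0, nat_lit 1862732, false, false⟩,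
 nat_lit 7061, nat_lit 1879, nat_lit 0, nat_lit 0, nat_lit 5203, nat_lit 2685, nat_lit 599, nat_lit 0, nat_lit 0, nat_lit 278, nat_lit 0, nat_lit 0, nat_lit 0, nat_lit 0, nat_lit 62, nat_lit 878000, nat_lit 0, nat_lit 0, [(nat_lit 9, [(nat_lit 6, nat_lit 878)])],
 ⟨p012_k11, nat_lit 0, nat_lit 0, nat_lit 311, nat_lit 0, nat_lit 421236, [nat_lit 2527628800, nat_lit 1352780000, nat_lit 188693200], [], [nat_lit 13237285360, nat_lit 14262092912, nat_lit 16101207432, nat_lit 15145427736], nat_lit 1271250, nat_lit 1271250, nat_lit 780000, nat_lit 1100001, nat_lit 0, nat_lit 0, [nat_lit 1100000, nat_lit 1442500, nat_lit 1271250], [nat_lit 9, nat_lit 40, nat_lit 20, nat_lit 80, nat_lit 2, nat_lit 249, nat_lit 40, nat_lit 8]⟩, ⟨p012_k17, nat_lit 0, nat_lit 0, nat_lit 644, nat_lit 0, nat_lit 681107, [nat_lit 972096000, nat_lit 1200724000, nat_lit 1448384000], [], [nat_lit 4238091874, nat_lit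 3036751176, nat_lit 4620128442, nat_lit 3242567712], nat_lit 1271250, nat_lit 1271250, nat_lit 780000, nat_lit 1100001, nat_lit 0, nat_lit 0, [nat_lit 1695000, nat_lit 1271250, nat_lit 1271250], [nat_lit 106, nat_lit 40, nat_lit 20, nat_lit 80, nat_lit 41, nat_lit 317, nat_lit 100, nat_lit 8]⟩,
 ⟨nat_lit 5477, nat_lit 5917, ⟨.ofNat (nat_lit 321592), .ofNat (nat_lit 400126), .ofNat (nat_lit 342931), .ofNat (nat_lit 421465), .ofNat (nat_lit 328775), .ofNat (nat_lit 403708), .ofNat (nat_lit 350132), .ofNat (nat_lit 425065)⟩, ⟨.ofNat (nat_lit 0), .ofNat (nat_lit 0), .ofNat (nat_lit 0), .ofNat (nat_lit 0), .ofNat (nat_lit 0), .ofNat (nat_lit 0), .ofNat (nat_lit 0), .ofNat (nat_lit 0)⟩⟩, []⟩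
noncomputable def p012_l80 : Lf2 := ⟨nat_lit 0, nat_lit 5, [nat_lit 4, nat_lit 5, nat_lit 5, nat_lit 20], false, nat_lit 0, nat_lit 0, nat_lit 0, nat_lit 0, ⟨nat_lit 168, nat_lit 0, nat_lit 832, nat_lit 4, nat_lit 180, nat_lit 0, nat_lit 0, nat_lit 0, nat_lit 0, nat_lit 215, nat_lit 38748, nat_lit 262, nat_lit 55677303, nat_lit 0, nat_lit 0, nat_lit 2271447, false, false⟩,
 nat_lit 7220, nat_lit 3006, nat_lit 0, nat_lit 0, nat_lit 5952, nat_lit 2745, nat_lit 1179, nat_lit 0, nat_lit 0, nat_lit 0, nat_lit 0, nat_lit 0, nat_lit 0, nat_lit 0, nat_lit 41, nat_lit 832000, nat_lit 0, nat_lit 0, [(nat_lit 9, [(nat_lit 6, nat_lit 832)])],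
 ⟨p012_k6, nat_lit 0, nat_lit 0, nat_lit 291, nat_lit 0, nat_lit 421236, [nat_lit 2530508801, nat_lit 104830933], [], [nat_lit 15080077223, nat_lit 15696026624, nat_lit 18878191623, nat_lit 17529247008], nat_lit 1271250, nat_lit 1271250, nat_lit 1100001, nat_lit 1442500, nat_lit 0, nat_lit 0, [nat_lit 1100000, nat_lit 1785000], [nat_lit 39, nat_lit 40, nat_lit 20, nat_lit 80, nat_lit 7, nat_lit 260, nat_lit 50, nat_lit 8]⟩, ⟨p012_k15, nat_lit 0, nat_lit 0, nat_lit 591, nat_lit 0, nat_lit 681107, [nat_lit 1338624000, nat_lit 1994496000], [], [nat_lit 6709898226, nat_lit 6635203368, nat_lit 7521821376, nat_lit 6475314612], nat_lit 1271250, nat_lit 1271250, nat_lit 1100001, nat_lit 1442500, nat_lit 0, nat_lit 0, [nat_lit 1695000, nat_lit 1271250], [nat_lit 143, nat_lit 40, nat_lit 20, nat_lit 80, nat_lit 14, nat_lit 317, nat_lit 100, nat_lit 8]⟩,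
 ⟨nat_lit 5477, nat_lit 5917, ⟨.ofNat (nat_lit 400126), .ofNat (nat_lit 478659), .ofNat (nat_lit 421465), .ofNat (nat_lit 499999), .ofNat (nat_lit 403708), .ofNat (nat_lit 478641), .ofNat (nat_lit 425065), .ofNat (nat_lit 499999)⟩, ⟨.ofNat (nat_lit 0), .ofNat (nat_lit 0), .ofNat (nat_lit 0), .ofNat (nat_lit 0), .ofNat (nat_lit 0), .ofNat (nat_lit 0), .ofNat (nat_lit 0), .ofNat (nat_lit 0)⟩⟩, []⟩
noncomputable def p012_l81 : Lf2 := ⟨nat_lit 0, nat_lit 5, [nat_lit 4, nat_lit 5, nat_lit 5, nat_lit 20], false, nat_lit 0, nat_lit 0, nat_lit 0, nat_lit 0, ⟨nat_lit 353, nat_lit 0, nat_lit 647, nat_lit 5, nat_lit 211, nat_lit 0, nat_lit 0, nat_lit 0, nat_lit 0, nat_lit 215, nat_lit 1481, nat_lit 220, nat_lit 52407195, nat_lit 0, nat_lit 0, nat_lit 2620565, true, true⟩,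
 nat_lit 9993, nat_lit 0, nat_lit 0, nat_lit 0, nat_lit 5816, nat_lit 3800, nat_lit 310, nat_lit 0, nat_lit 0, nat_lit 1124, nat_lit 0, nat_lit 0, nat_lit 0, nat_lit 0, nat_lit 0, nat_lit 647000, nat_lit 0, nat_lit 0, [(nat_lit 9, [(nat_lit 6, nat_lit 647)])],
 ⟨p012_k6, nat_lit 0, nat_lit 0, nat_lit 292, nat_lit 0, nat_lit 421236, [nat_lit 2500104800, nat_lit 1070706267], [], [nat_lit 19002297371, nat_lit 18188093366, nat_lit 18612970731, nat_lit 20010790944], nat_lit 1271250, nat_lit 1271250, nat_lit 1271250, nat_lit 1271250, nat_lit 0, nat_lit 0, [nat_lit 1100000, nat_lit 1785000], [nat_lit 39, nat_lit 40, nat_lit 20, nat_lit 80, nat_lit 7, nat_lit 272, nat_lit 60, nat_lit 9]⟩, ⟨p012_k15, nat_lit 0, nat_lit 0, nat_lit 579, nat_lit 0, nat_lit 681107, [nat_lit 2812704000, nat_lit 4190816000], [], [nat_lit 12196228636, nat_lit 11474198172, nat_lit 11593503762, nat_lit 11507601316],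 nat_lit 1271250, nat_lit 1271250, nat_lit 1271250, nat_lit 1271250, nat_lit 0, nat_lit 0, [nat_lit 1695000, nat_lit 1271250], [nat_lit 143, nat_lit 40, nat_lit 20, nat_lit 80, nat_lit 14, nat_lit 345, nat_lit 125, nat_lit 9]⟩,
 ⟨nat_lit 5477, nat_lit 5917, ⟨.ofNat (nat_lit 478659), .ofNat (nat_lit 557183), .ofNat (nat_lit 499999), .ofNat (nat_lit 578514), .ofNat (nat_lit 478641), .ofNat (nat_lit 553564), .ofNat (nat_lit 499999), .ofNat (nat_lit 574913)⟩, ⟨.ofNat (nat_lit 0), .ofNat (nat_lit 0), .ofNat (nat_lit 0), .ofNat (nat_lit 0), .ofNat (nat_lit 0), .ofNat (nat_lit 0), .ofNat (nat_lit 0), .ofNat (nat_lit 0)⟩⟩, []⟩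
noncomputable def p012_l82 : Lf2 := ⟨nat_lit 0, nat_lit 5, [nat_lit 4, nat_lit 5, nat_lit 5, nat_lit 20], false, nat_lit 0, nat_lit 0, nat_lit 0, nat_lit 0, ⟨nat_lit 1000, nat_lit 0, nat_lit 0, nat_lit 0, nat_lit 0, nat_lit 0, nat_lit 0, nat_lit 0, nat_lit 0, nat_lit 0, nat_lit 0, nat_lit 0, nat_lit 0, nat_lit 0, nat_lit 0, nat_lit 0, false, false⟩,
 nat_lit 23584, nat_lit 0, nat_lit 0, nat_lit 0, nat_lit 7686, nat_lit 8968, nat_lit 1754, nat_lit 0, nat_lit 0, nat_lit 3267, nat_lit 0, nat_lit 0, nat_lit 0, nat_lit 0, nat_lit 0, nat_lit 0, nat_lit 0, nat_lit 0, [],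
 ⟨p012_k6, nat_lit 0, nat_lit 0, nat_lit 341, nat_lit 0, nat_lit 421236, [nat_lit 4688000000, nat_lit 7968000000], [], [nat_lit 27583163752, nat_lit 28144886184, nat_lit 37989424709, nat_lit 39080741581], nat_lit 1271250, nat_lit 1271250, nat_lit 1271250, nat_lit 1271250, nat_lit 0, nat_lit 0, [nat_lit 1100000, nat_lit 1785000], [nat_lit 39, nat_lit 40, nat_lit 20, nat_lit 80, nat_lit 7, nat_lit 203, nat_lit 0, nat_lit 6]⟩, ⟨p012_k15, nat_lit 0, nat_lit 0, nat_lit 572, nat_lit 0, nat_lit 681107, [nat_lit 7968000000, nat_lit 11872000000], [], [nat_lit 36453316202, nat_lit 36319902570, nat_lit 40907440491, nat_lit 40701703962], nat_lit 1271250, nat_lit 1271250, nat_lit 1271250, nat_lit 1271250, nat_lit 0, nat_lit 0, [nat_lit 1695000, nat_lit 1271250], [nat_lit 143, nat_lit 40, nat_lit 20, nat_lit 80, nat_lit 14, nat_lit 373, nat_lit 150, nat_lit 10]⟩,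
 zbF0, []⟩
noncomputable def p012_l83 : Lf2 := ⟨nat_lit 0, nat_lit 5, [nat_lit 4, nat_lit 5, nat_lit 5, nat_lit 20], true, nat_lit 0, nat_lit 0, nat_lit 0, nat_lit 0, ⟨nat_lit 0, nat_lit 1000, nat_lit 0, nat_lit 4, nat_lit 105, nat_lit 0, nat_lit 0, nat_lit 0, nat_lit 0, nat_lit 0, nat_lit 0, nat_lit 0, nat_lit 0, nat_lit 0, nat_lit 0, nat_lit 5000000, false, false⟩,
 nat_lit 0, nat_lit 6506, nat_lit 0, nat_lit 0, nat_lit 3786, nat_lit 0, nat_lit 1108, nat_lit 0, nat_lit 0, nat_lit 0, nat_lit 0, nat_lit 0, nat_lit 0, nat_lit 0, nat_lit 0, nat_lit 400000, nat_lit 0, nat_lit 0, [(nat_lit 9, [(nat_lit 1, nat_lit 1000)])],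
 ⟨p012_k6, nat_lit 0, nat_lit 0, nat_lit 554, nat_lit 0, nat_lit 748092, [nat_lit 2742800000, nat_lit 3014800000], [], [nat_lit 31597076677, nat_lit 29924245178, nat_lit 29239085644, nat_lit 29753477720], nat_lit 1271250, nat_lit 1271250, nat_lit 21650, nat_lit 1100001, nat_lit 0, nat_lit 0, [nat_lit 1100000, nat_lit 1785000], [nat_lit 39, nat_lit 40, nat_lit 20, nat_lit 80, nat_lit 7, nat_lit 249, nat_lit 40, nat_lit 9]⟩, C1.Rw.none,
 ⟨nat_lit 5477, nat_lit 5917, ⟨.ofNat (nat_lit 93845), .ofNat (nat_lit 400126), .ofNat (nat_lit 115184), .ofNat (nat_lit 421465), .ofNat (nat_lit 111470), .ofNat (nat_lit 403708), .ofNat (nat_lit 132827), .ofNat (nat_lit 425065)⟩, ⟨.ofNat (nat_lit 0), .ofNat (nat_lit 0), .ofNat (nat_lit 0), .ofNat (nat_lit 0), .ofNat (nat_lit 0), .ofNat (nat_lit 0), .ofNat (nat_lit 0), .ofNat (nat_lit 0)⟩⟩, []⟩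
noncomputable def p012_l84 : Lf2 := ⟨nat_lit 0, nat_lit 5, [nat_lit 4, nat_lit 5, nat_lit 5, nat_lit 20], false, nat_lit 0, nat_lit 0, nat_lit 0, nat_lit 0, ⟨nat_lit 645, nat_lit 355, nat_lit 0, nat_lit 4, nat_lit 254, nat_lit 0, nat_lit 0, nat_lit 0, nat_lit 0, nat_lit 0, nat_lit 0, nat_lit 0, nat_lit 0, nat_lit 0, nat_lit 0, nat_lit 5000000, false, true⟩,
 nat_lit 0, nat_lit 7918, nat_lit 0, nat_lit 0, nat_lit 4608, nat_lit 5501, nat_lit 2113, nat_lit 0, nat_lit 0, nat_lit 273, nat_lit 0, nat_lit 0, nat_lit 0, nat_lit 0, nat_lit 0, nat_lit 142000, nat_lit 0, nat_lit 0, [(nat_lit 9, [(nat_lit 1, nat_lit 355)])],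
 ⟨p012_k6, nat_lit 0, nat_lit 0, nat_lit 480, nat_lit 0, nat_lit 748092, [nat_lit 3997454000, nat_lit 6198254000], [], [nat_lit 32580350016, nat_lit 31015273520, nat_lit 40927389156, nat_lit 38807753392], nat_lit 1271250, nat_lit 1271250, nat_lit 1100001, nat_lit 3086500, nat_lit 0, nat_lit 0, [nat_lit 1100000, nat_lit 1785000], [nat_lit 39, nat_lit 40, nat_lit 20, nat_lit 80, nat_lit 7, nat_lit 317, nat_lit 100, nat_lit 10]⟩, ⟨p012_k15, nat_lit 0, nat_lit 0, nat_lit 256, nat_lit 0, nat_lit 0, [nat_lit 5139360000, nat_lit 7657440000], [], [nat_lit 21587808257, nat_lit 21883352651, nat_lit 29032584604, nat_lit 28997817245], nat_lit 0, nat_lit 0, nat_lit 0, nat_lit 0, nat_lit 0, nat_lit 0, [], [nat_lit 143, nat_lit 40, nat_lit 20, nat_lit 80, nat_lit 14, nat_lit 373, nat_lit 150, nat_lit 10]⟩,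
 ⟨nat_lit 5477, nat_lit 5917, ⟨.ofNat (nat_lit 400126), .ofNat (nat_lit 855538), .ofNat (nat_lit 421465), .ofNat (nat_lit 876870), .ofNat (nat_lit 403708), .ofNat (nat_lit 838238), .ofNat (nat_lit 425065), .ofNat (nat_lit 859587)⟩, ⟨.ofNat (nat_lit 0), .ofNat (nat_lit 0), .ofNat (nat_lit 0), .ofNat (nat_lit 0), .ofNat (nat_lit 0), .ofNat (nat_lit 0), .ofNat (nat_lit 0), .ofNat (nat_lit 0)⟩⟩, []⟩
noncomputable def p012_l85 : Lf2 := ⟨nat_lit 0, nat_lit 5, [nat_lit 4, nat_lit 5, nat_lit 5, nat_lit 20], true, nat_lit 0, nat_lit 0, nat_lit 0, nat_lit 0, ⟨nat_lit 0, nat_lit 1000, nat_lit 0, nat_lit 4, nat_lit 90, nat_lit 0, nat_lit 0, nat_lit 0, nat_lit 0, nat_lit 0, nat_lit 0, nat_lit 0, nat_lit 0, nat_lit 0, nat_lit 0, nat_lit 5000000, false, false⟩,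
 nat_lit 0, nat_lit 6230, nat_lit 0, nat_lit 0, nat_lit 3626, nat_lit 0, nat_lit 1199, nat_lit 0, nat_lit 0, nat_lit 0, nat_lit 0, nat_lit 0, nat_lit 0, nat_lit 0, nat_lit 0, nat_lit 400000, nat_lit 0, nat_lit 0, [(nat_lit 9, [(nat_lit 1, nat_lit 1000)])],
 ⟨p012_k6, nat_lit 0, nat_lit 0, nat_lit 554, nat_lit 0, nat_lit 748092, [nat_lit 2742800000, nat_lit 3014800000], [], [nat_lit 31454713669, nat_lit 30360286525, nat_lit 29335422360, nat_lit 29959460072], nat_lit 1271250, nat_lit 1271250, nat_lit 21650, nat_lit 780000, nat_lit 0, nat_lit 0, [nat_lit 1100000, nat_lit 1785000], [nat_lit 39, nat_lit 40, nat_lit 20, nat_lit 80, nat_lit 7, nat_lit 238, nat_lit 30, nat_lit 8]⟩, C1.Rw.none,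
 ⟨nat_lit 5477, nat_lit 5917, ⟨.ofNat (nat_lit 93845), .ofNat (nat_lit 321592), .ofNat (nat_lit 115184), .ofNat (nat_lit 342931), .ofNat (nat_lit 111470), .ofNat (nat_lit 328775), .ofNat (nat_lit 132827), .ofNat (nat_lit 350132)⟩, ⟨.ofNat (nat_lit 0), .ofNat (nat_lit 0), .ofNat (nat_lit 0), .ofNat (nat_lit 0), .ofNat (nat_lit 0), .ofNat (nat_lit 0), .ofNat (nat_lit 0), .ofNat (nat_lit 0)⟩⟩, []⟩
noncomputable def p012_l86 : Lf2 := ⟨nat_lit 0, nat_lit 5, [nat_lit 4, nat_lit 5, nat_lit 5, nat_lit 20], true, nat_lit 0, nat_lit 0, nat_lit 0, nat_lit 0, ⟨nat_lit 0, nat_lit 1000, nat_lit 0, nat_lit 4, nat_lit 180, nat_lit 0, nat_lit 0, nat_lit 0, nat_lit 0, nat_lit 0, nat_lit 0, nat_lit 0, nat_lit 0, nat_lit 0, nat_lit 0, nat_lit 5000000, false, false⟩,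
 nat_lit 0, nat_lit 8771, nat_lit 0, nat_lit 0, nat_lit 5105, nat_lit 0, nat_lit 2475, nat_lit 0, nat_lit 0, nat_lit 0, nat_lit 0, nat_lit 0, nat_lit 0, nat_lit 0, nat_lit 0, nat_lit 400000, nat_lit 0, nat_lit 0, [(nat_lit 9, [(nat_lit 1, nat_lit 1000)])],
 ⟨p012_k6, nat_lit 0, nat_lit 0, nat_lit 488, nat_lit 0, nat_lit 748092, [nat_lit 2742800000, nat_lit 3014800000], [], [nat_lit 21396078530, nat_lit 21530668680, nat_lit 26325578250, nat_lit 23921657880], nat_lit 1271250, nat_lit 1271250, nat_lit 780000, nat_lit 1762500, nat_lit 0, nat_lit 0, [nat_lit 1100000, nat_lit 1785000], [nat_lit 39, nat_lit 40, nat_lit 20, nat_lit 80, nat_lit 7, nat_lit 272, nat_lit 60, nat_lit 9]⟩, C1.Rw.none,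
 ⟨nat_lit 5477, nat_lit 5917, ⟨.ofNat (nat_lit 321592), .ofNat (nat_lit 557183), .ofNat (nat_lit 342931), .ofNat (nat_lit 578514), .ofNat (nat_lit 328775), .ofNat (nat_lit 553564), .ofNat (nat_lit 350132), .ofNat (nat_lit 574913)⟩, ⟨.ofNat (nat_lit 0), .ofNat (nat_lit 0), .ofNat (nat_lit 0), .ofNat (nat_lit 0), .ofNat (nat_lit 0), .ofNat (nat_lit 0), .ofNat (nat_lit 0), .ofNat (nat_lit 0)⟩⟩, []⟩
noncomputable def p012_l87 : Lf2 := ⟨nat_lit 0, nat_lit 5, [nat_lit 4, nat_lit 5, nat_lit 5, nat_lit 20], false, nat_lit 0, nat_lit 0, nat_lit 0, nat_lit 0, ⟨nat_lit 419, nat_lit 581, nat_lit 0, nat_lit 6, nat_lit 285, nat_lit 0, nat_lit 0, nat_lit 0, nat_lit 0, nat_lit 0, nat_lit 0, nat_lit 0, nat_lit 0, nat_lit 0, nat_lit 0, nat_lit 5000000, true, true⟩,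
 nat_lit 9993, nat_lit 0, nat_lit 0, nat_lit 0, nat_lit 5816, nat_lit 3800, nat_lit 153, nat_lit 0, nat_lit 0, nat_lit 1332, nat_lit 0, nat_lit 0, nat_lit 0, nat_lit 0, nat_lit 0, nat_lit 581000, nat_lit 0, nat_lit 0, [(nat_lit 9, [(nat_lit 2, nat_lit 581)])],
 ⟨p012_k6, nat_lit 0, nat_lit 0, nat_lit 341, nat_lit 0, nat_lit 421236, [nat_lit 3800929200, nat_lit 4233728267], [], [nat_lit 29117366913, nat_lit 29649707905, nat_lit 33967509966, nat_lit 34366821645], nat_lit 1271250, nat_lit 1271250, nat_lit 1271250, nat_lit 1271250, nat_lit 0, nat_lit 0, [nat_lit 1100000, nat_lit 1785000], [nat_lit 39, nat_lit 40, nat_lit 20, nat_lit 80, nat_lit 7, nat_lit 203, nat_lit 0, nat_lit 6]⟩, ⟨p012_k15, nat_lit 0, nat_lit 0, nat_lit 572, nat_lit 0, nat_lit 681107, [nat_lit 3338592000, nat_lit 4974368000], [], [nat_lit 15269943658, nat_lit 15211750176, nat_lit 17252704467, nat_lit 17163601356], nat_lit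 1271250, nat_lit 1271250, nat_lit 1271250, nat_lit 1271250, nat_lit 0, nat_lit 0, [nat_lit 1695000, nat_lit 1271250], [nat_lit 143, nat_lit 40, nat_lit 20, nat_lit 80, nat_lit 14, nat_lit 373, nat_lit 150, nat_lit 10]⟩,
 ⟨nat_lit 5477, nat_lit 5917, ⟨.ofNat (nat_lit 557183), .ofNat (nat_lit 855538), .ofNat (nat_lit 578514), .ofNat (nat_lit 876870), .ofNat (nat_lit 553564), .ofNat (nat_lit 838238), .ofNat (nat_lit 574913), .ofNat (nat_lit 859587)⟩, ⟨.ofNat (nat_lit 0), .ofNat (nat_lit 0), .ofNat (nat_lit 0), .ofNat (nat_lit 0), .ofNat (nat_lit 0), .ofNat (nat_lit 0), .ofNat (nat_lit 0), .ofNat (nat_lit 0)⟩⟩, [⟨nat_lit 13, nat_lit 94, nat_lit 40, nat_lit 100, nat_lit 53237528⟩]⟩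
noncomputable def p012_l88 : Lf2 := ⟨nat_lit 0, nat_lit 5, [nat_lit 4, nat_lit 5, nat_lit 5, nat_lit 20], true, nat_lit 0, nat_lit 0, nat_lit 0, nat_lit 0, ⟨nat_lit 0, nat_lit 0, nat_lit 1000, nat_lit 4, nat_lit 105, nat_lit 0, nat_lit 0, nat_lit 0, nat_lit 0, nat_lit 215, nat_lit 104017, nat_lit 294, nat_lit 62666685, nat_lit 0, nat_lit 0, nat_lit 1198220, false, false⟩,
 nat_lit 0, nat_lit 0, nat_lit 0, nat_lit 4291, nat_lit 3830, nat_lit 0, nat_lit 0, nat_lit 0, nat_lit 0, nat_lit 0, nat_lit 0, nat_lit 0, nat_lit 0, nat_lit 0, nat_lit 55, nat_lit 400000, nat_lit 0, nat_lit 0, [(nat_lit 9, [(nat_lit 5, nat_lit 1000)])],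
 ⟨p012_k6, nat_lit 0, nat_lit 0, nat_lit 184, nat_lit 0, nat_lit 0, [nat_lit 2406400000, nat_lit 19600000], [], [nat_lit 15296234545, nat_lit 16554363008, nat_lit 14960986260, nat_lit 16034314600], nat_lit 0, nat_lit 0, nat_lit 0, nat_lit 0, nat_lit 0, nat_lit 0, [], [nat_lit 39, nat_lit 40, nat_lit 20, nat_lit 80, nat_lit 7, nat_lit 249, nat_lit 40, nat_lit 9]⟩, C1.Rw.none,
 ⟨nat_lit 5477, nat_lit 5917, ⟨.ofNat (nat_lit 93845), .ofNat (nat_lit 400126), .ofNat (nat_lit 115184), .ofNat (nat_lit 421465), .ofNat (nat_lit 111470), .ofNat (nat_lit 403708), .ofNat (nat_lit 132827), .ofNat (nat_lit 425065)⟩, ⟨.ofNat (nat_lit 0), .ofNat (nat_lit 0), .ofNat (nat_lit 0), .ofNat (nat_lit 0), .ofNat (nat_lit 0), .ofNat (nat_lit 0), .ofNat (nat_lit 0), .ofNat (nat_lit 0)⟩⟩, [⟨nat_lit 0, nat_lit 100, nat_lit 92, nat_lit 40, nat_lit 115718659⟩]⟩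
noncomputable def p012_l89 : Lf2 := ⟨nat_lit 0, nat_lit 5, [nat_lit 4, nat_lit 5, nat_lit 5, nat_lit 20], false, nat_lit 0, nat_lit 0, nat_lit 0, nat_lit 0, ⟨nat_lit 1000, nat_lit 0, nat_lit 0, nat_lit 0, nat_lit 0, nat_lit 0, nat_lit 0, nat_lit 0, nat_lit 0, nat_lit 0, nat_lit 0, nat_lit 0, nat_lit 0, nat_lit 0, nat_lit 0, nat_lit 0, false, false⟩,
 nat_lit 0, nat_lit 0, nat_lit 0, nat_lit 93590, nat_lit 6782, nat_lit 8522, nat_lit 0, nat_lit 0, nat_lit 0, nat_lit 0, nat_lit 0, nat_lit 0, nat_lit 0, nat_lit 0, nat_lit 0, nat_lit 0, nat_lit 0, nat_lit 0, [],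
 ⟨p012_k11, nat_lit 0, nat_lit 0, nat_lit 189, nat_lit 0, nat_lit 0, [nat_lit 4688000000, nat_lit 6250000000, nat_lit 7968000000], [], [nat_lit 23507990404, nat_lit 24923744840, nat_lit 37885239418, nat_lit 38650411925], nat_lit 0, nat_lit 0, nat_lit 0, nat_lit 0, nat_lit 0, nat_lit 0, [], [nat_lit 9, nat_lit 40, nat_lit 20, nat_lit 80, nat_lit 2, nat_lit 317, nat_lit 100, nat_lit 10]⟩, ⟨p012_k17, nat_lit 0, nat_lit 0, nat_lit 272, nat_lit 0, nat_lit 0, [nat_lit 7968000000, nat_lit 9842000000, nat_lit 11872000000], [], [nat_lit 34180610164, nat_lit 34638846632, nat_lit 45718698032, nat_lit 45656227719], nat_lit 0, nat_lit 0, nat_lit 0, nat_lit 0, nat_lit 0, nat_lit 0, [], [nat_lit 106, nat_lit 40, nat_lit 20, nat_lit 80, nat_lit 41, nat_lit 373, nat_lit 150, nat_lit 10]⟩,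
 zbF0, []⟩
noncomputable def p012_l90 : Lf2 := ⟨nat_lit 0, nat_lit 5, [nat_lit 4, nat_lit 5, nat_lit 5, nat_lit 20], true, nat_lit 0, nat_lit 0, nat_lit 0, nat_lit 0, ⟨nat_lit 0, nat_lit 0, nat_lit 1000, nat_lit 4, nat_lit 105, nat_lit 0, nat_lit 0, nat_lit 0, nat_lit 0, nat_lit 215, nat_lit 104017, nat_lit 294, nat_lit 62666685, nat_lit 0, nat_lit 0, nat_lit 1198220, false, false⟩,
 nat_lit 0, nat_lit 0, nat_lit 0, nat_lit 4291, nat_lit 3830, nat_lit 0, nat_lit 0, nat_lit 0, nat_lit 0, nat_lit 0, nat_lit 0, nat_lit 0, nat_lit 0, nat_lit 0, nat_lit 55, nat_lit 400000, nat_lit 0, nat_lit 0, [(nat_lit 9, [(nat_lit 5, nat_lit 1000)])],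
 ⟨p012_k6, nat_lit 0, nat_lit 0, nat_lit 184, nat_lit 0, nat_lit 0, [nat_lit 2406400000, nat_lit 19600000], [], [nat_lit 15296234545, nat_lit 16554363008, nat_lit 14960986260, nat_lit 16034314600], nat_lit 0, nat_lit 0, nat_lit 0, nat_lit 0, nat_lit 0, nat_lit 0, [], [nat_lit 39, nat_lit 40, nat_lit 20, nat_lit 80, nat_lit 7, nat_lit 249, nat_lit 40, nat_lit 9]⟩, C1.Rw.none,
 ⟨nat_lit 5477, nat_lit 5917, ⟨.ofNat (nat_lit 93845), .ofNat (nat_lit 400126), .ofNat (nat_lit 115184), .ofNat (nat_lit 421465), .ofNat (nat_lit 111470), .ofNat (nat_lit 403708), .ofNat (nat_lit 132827), .ofNat (nat_lit 425065)⟩, ⟨.ofNat (nat_lit 0), .ofNat (nat_lit 0), .ofNat (nat_lit 0), .ofNat (nat_lit 0), .ofNat (nat_lit 0), .ofNat (nat_lit 0), .ofNat (nat_lit 0), .ofNat (nat_lit 0)⟩⟩, [⟨nat_lit 0, nat_lit 100, nat_lit 92, nat_lit 40, nat_lit 115718659⟩]⟩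
noncomputable def p012_l91 : Lf2 := ⟨nat_lit 0, nat_lit 5, [nat_lit 4, nat_lit 5, nat_lit 5, nat_lit 20], false, nat_lit 0, nat_lit 0, nat_lit 0, nat_lit 0, ⟨nat_lit 670, nat_lit 330, nat_lit 0, nat_lit 4, nat_lit 254, nat_lit 0, nat_lit 0, nat_lit 0, nat_lit 0, nat_lit 0, nat_lit 0, nat_lit 0, nat_lit 47743929, nat_lit 19256071, nat_lit 0, nat_lit 2999053, false, true⟩,
 nat_lit 0, nat_lit 0, nat_lit 10286, nat_lit 0, nat_lit 6991, nat_lit 3911, nat_lit 0, nat_lit 0, nat_lit 0, nat_lit 0, nat_lit 0, nat_lit 0, nat_lit 0, nat_lit 0, nat_lit 0, nat_lit 82500, nat_lit 0, nat_lit 0, [(nat_lit 9, [(nat_lit 0, nat_lit 330)])],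
 ⟨p012_k11, nat_lit 0, nat_lit 0, nat_lit 189, nat_lit 0, nat_lit 0, [nat_lit 4169504000, nat_lit 5176444000, nat_lit 6445512000], [], [nat_lit 21192092402, nat_lit 22632090420, nat_lit 36550925989, nat_lit 37328776685], nat_lit 0, nat_lit 0, nat_lit 0, nat_lit 0, nat_lit 0, nat_lit 0, [], [nat_lit 9, nat_lit 40, nat_lit 20, nat_lit 80, nat_lit 2, nat_lit 317, nat_lit 100, nat_lit 10]⟩, ⟨p012_k17, nat_lit 0, nat_lit 0, nat_lit 377, nat_lit 0, nat_lit 206657, [nat_lit 5338560000, nat_lit 6594140000, nat_lit 7954240000], [], [nat_lit 33931256200, nat_lit 34053992896, nat_lit 39045992035, nat_lit 37595342037], nat_lit 1271250, nat_lit 1271250, nat_lit 1100001, nat_lit 3086500, nat_lit 0, nat_lit 0, [nat_lit 1695000, nat_lit 1271250, nat_lit 1271250], [nat_lit 106, nat_lit 40, nat_lit 20, nat_lit 80, nat_lit 41, nat_lit 373, nat_lit 150, nat_lit 10]⟩,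
 ⟨nat_lit 5477, nat_lit 5917, ⟨.ofNat (nat_lit 400126), .ofNat (nat_lit 855538), .ofNat (nat_lit 421465), .ofNat (nat_lit 876870), .ofNat (nat_lit 403708), .ofNat (nat_lit 838238), .ofNat (nat_lit 425065), .ofNat (nat_lit 859587)⟩, ⟨.ofNat (nat_lit 0), .ofNat (nat_lit 0), .ofNat (nat_lit 0), .ofNat (nat_lit 0), .ofNat (nat_lit 0), .ofNat (nat_lit 0), .ofNat (nat_lit 0), .ofNat (nat_lit 0)⟩⟩, []⟩
noncomputable def p012_l92 : Lf2 := ⟨nat_lit 0, nat_lit 5, [nat_lit 4, nat_lit 5, nat_lit 5, nat_lit 20], true, nat_lit 0, nat_lit 0, nat_lit 0, nat_lit 0, ⟨nat_lit 0, nat_lit 1000, nat_lit 0, nat_lit 4, nat_lit 194, nat_lit 0, nat_lit 0, nat_lit 0, nat_lit 0, nat_lit 0, nat_lit 0, nat_lit 0, nat_lit 0, nat_lit 0, nat_lit 0, nat_lit 5000000, false, true⟩,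
 nat_lit 0, nat_lit 0, nat_lit 0, nat_lit 4519, nat_lit 4223, nat_lit 0, nat_lit 0, nat_lit 0, nat_lit 0, nat_lit 0, nat_lit 0, nat_lit 0, nat_lit 0, nat_lit 0, nat_lit 0, nat_lit 400000, nat_lit 0, nat_lit 0, [(nat_lit 9, [(nat_lit 1, nat_lit 1000)])],
 ⟨p012_k6, nat_lit 0, nat_lit 0, nat_lit 184, nat_lit 0, nat_lit 0, [nat_lit 2742800000, nat_lit 3014800000], [], [nat_lit 20673620087, nat_lit 21989810685, nat_lit 30709294630, nat_lit 31307142719], nat_lit 0, nat_lit 0, nat_lit 0, nat_lit 0, nat_lit 0, nat_lit 0, [], [nat_lit 39, nat_lit 40, nat_lit 20, nat_lit 80, nat_lit 7, nat_lit 317, nat_lit 100, nat_lit 11]⟩, C1.Rw.none,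
 ⟨nat_lit 5477, nat_lit 5917, ⟨.ofNat (nat_lit 93845), .ofNat (nat_lit 855538), .ofNat (nat_lit 115184), .ofNat (nat_lit 876870), .ofNat (nat_lit 111470), .ofNat (nat_lit 838238), .ofNat (nat_lit 132827), .ofNat (nat_lit 859587)⟩, ⟨.ofNat (nat_lit 0), .ofNat (nat_lit 0), .ofNat (nat_lit 0), .ofNat (nat_lit 0), .ofNat (nat_lit 0), .ofNat (nat_lit 0), .ofNat (nat_lit 0), .ofNat (nat_lit 0)⟩⟩, [⟨nat_lit 13, nat_lit 94, nat_lit 40, nat_lit 100, nat_lit 178711989⟩]⟩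
noncomputable def p012_l93 : Lf2 := ⟨nat_lit 0, nat_lit 5, [nat_lit 4, nat_lit 5, nat_lit 5, nat_lit 20], true, nat_lit 0, nat_lit 0, nat_lit 0, nat_lit 0, ⟨nat_lit 0, nat_lit 0, nat_lit 1000, nat_lit 4, nat_lit 105, nat_lit 0, nat_lit 0, nat_lit 0, nat_lit 0, nat_lit 215, nat_lit 104017, nat_lit 294, nat_lit 62666685, nat_lit 0, nat_lit 0, nat_lit 1198220, false, false⟩,
 nat_lit 0, nat_lit 5387, nat_lit 0, nat_lit 9519, nat_lit 3135, nat_lit 0, nat_lit 0, nat_lit 0, nat_lit 0, nat_lit 0, nat_lit 0, nat_lit 0, nat_lit 0, nat_lit 0, nat_lit 64, nat_lit 487600, nat_lit 0, nat_lit 0, [(nat_lit 9, [(nat_lit 5, nat_lit 854), (nat_lit 6, nat_lit 146)])],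
 ⟨p012_k6, nat_lit 0, nat_lit 0, nat_lit 265, nat_lit 0, nat_lit 94618, [nat_lit 2518280000, nat_lit 18644000], [], [nat_lit 19754725188, nat_lit 18139639153, nat_lit 22379210290, nat_lit 20901979480], nat_lit 1271250, nat_lit 1271250, nat_lit 21650, nat_lit 1100001, nat_lit 0, nat_lit 0, [nat_lit 1100000, nat_lit 1785000], [nat_lit 39, nat_lit 40, nat_lit 20, nat_lit 80, nat_lit 7, nat_lit 249, nat_lit 40, nat_lit 9]⟩, C1.Rw.none,
 ⟨nat_lit 5477, nat_lit 5917, ⟨.ofNat (nat_lit 93845), .ofNat (nat_lit 400126), .ofNat (nat_lit 115184), .ofNat (nat_lit 421465), .ofNat (nat_lit 111470), .ofNat (nat_lit 403708), .ofNat (nat_lit 132827), .ofNat (nat_lit 425065)⟩, ⟨.ofNat (nat_lit 0), .ofNat (nat_lit 0), .ofNat (nat_lit 0), .ofNat (nat_lit 0), .ofNat (nat_lit 0), .ofNat (nat_lit 0), .ofNat (nat_lit 0), .ofNat (nat_lit 0)⟩⟩, []⟩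
noncomputable def p012_l94 : Lf2 := ⟨nat_lit 0, nat_lit 5, [nat_lit 4, nat_lit 5, nat_lit 5, nat_lit 20], false, nat_lit 0, nat_lit 0, nat_lit 0, nat_lit 0, ⟨nat_lit 1000, nat_lit 0, nat_lit 0, nat_lit 0, nat_lit 0, nat_lit 0, nat_lit 0, nat_lit 0, nat_lit 0, nat_lit 0, nat_lit 0, nat_lit 0, nat_lit 0, nat_lit 0, nat_lit 0, nat_lit 0, false, false⟩,
 nat_lit 0, nat_lit 12873, nat_lit 0, nat_lit 0, nat_lit 7493, nat_lit 12448, nat_lit 0, nat_lit 0, nat_lit 0, nat_lit 0, nat_lit 0, nat_lit 0, nat_lit 0, nat_lit 0, nat_lit 0, nat_lit 0, nat_lit 0, nat_lit 0, [],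
 ⟨p012_k6, nat_lit 0, nat_lit 0, nat_lit 215, nat_lit 0, nat_lit 94618, [nat_lit 4688000000, nat_lit 7968000000], [], [nat_lit 36832311286, nat_lit 32870477452, nat_lit 43139279700, nat_lit 41096063780], nat_lit 1271250, nat_lit 1271250, nat_lit 1100001, nat_lit 3086500, nat_lit 0, nat_lit 0, [nat_lit 1100000, nat_lit 1785000], [nat_lit 39, nat_lit 40, nat_lit 20, nat_lit 80, nat_lit 7, nat_lit 317, nat_lit 100, nat_lit 10]⟩, ⟨p012_k15, nat_lit 0, nat_lit 0, nat_lit 256, nat_lit 0, nat_lit 0, [nat_lit 7968000000, nat_lit 11872000000], [], [nat_lit 30564614976, nat_lit 31006338688, nat_lit 50120703892, nat_lit 49932505741], nat_lit 0, nat_lit 0, nat_lit 0, nat_lit 0, nat_lit 0, nat_lit 0, [], [nat_lit 143, nat_lit 40, nat_lit 20, nat_lit 80, nat_lit 14, nat_lit 373, nat_lit 150, nat_lit 10]⟩,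
 zbF0, []⟩
noncomputable def p012_l95 : Lf2 := ⟨nat_lit 0, nat_lit 5, [nat_lit 4, nat_lit 5, nat_lit 5, nat_lit 20], true, nat_lit 0, nat_lit 0, nat_lit 0, nat_lit 0, ⟨nat_lit 0, nat_lit 0, nat_lit 1000, nat_lit 4, nat_lit 105, nat_lit 0, nat_lit 0, nat_lit 0, nat_lit 0, nat_lit 215, nat_lit 104017, nat_lit 294, nat_lit 62666685, nat_lit 0, nat_lit 0, nat_lit 1198220, false, false⟩,
 nat_lit 0, nat_lit 5387, nat_lit 0, nat_lit 9519, nat_lit 3135, nat_lit 0, nat_lit 0, nat_lit 0, nat_lit 0, nat_lit 0, nat_lit 0, nat_lit 0, nat_lit 0, nat_lit 0, nat_lit 64, nat_lit 487600, nat_lit 0, nat_lit 0, [(nat_lit 9, [(nat_lit 5, nat_lit 854), (nat_lit 6, nat_lit 146)])],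
 ⟨p012_k6, nat_lit 0, nat_lit 0, nat_lit 265, nat_lit 0, nat_lit 94618, [nat_lit 2518280000, nat_lit 18644000], [], [nat_lit 19754725188, nat_lit 18139639153, nat_lit 22379210290, nat_lit 20901979480], nat_lit 1271250, nat_lit 1271250, nat_lit 21650, nat_lit 1100001, nat_lit 0, nat_lit 0, [nat_lit 1100000, nat_lit 1785000], [nat_lit 39, nat_lit 40, nat_lit 20, nat_lit 80, nat_lit 7, nat_lit 249, nat_lit 40, nat_lit 9]⟩, C1.Rw.none,
 ⟨nat_lit 5477, nat_lit 5917, ⟨.ofNat (nat_lit 93845), .ofNat (nat_lit 400126), .ofNat (nat_lit 115184), .ofNat (nat_lit 421465), .ofNat (nat_lit 111470), .ofNat (nat_lit 403708), .ofNat (nat_lit 132827), .ofNat (nat_lit 425065)⟩, ⟨.ofNat (nat_lit 0), .ofNat (nat_lit 0), .ofNat (nat_lit 0), .ofNat (nat_lit 0), .ofNat (nat_lit 0), .ofNat (nat_lit 0), .ofNat (nat_lit 0), .ofNat (nat_lit 0)⟩⟩, []⟩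
noncomputable def p012_l96 : Lf2 := ⟨nat_lit 0, nat_lit 5, [nat_lit 4, nat_lit 5, nat_lit 5, nat_lit 20], true, nat_lit 0, nat_lit 0, nat_lit 0, nat_lit 0, ⟨nat_lit 0, nat_lit 50, nat_lit 950, nat_lit 4, nat_lit 196, nat_lit 0, nat_lit 0, nat_lit 0, nat_lit 0, nat_lit 215, nat_lit 1481, nat_lit 220, nat_lit 54057047, nat_lit 12942953, nat_lit 0, nat_lit 2453993, false, true⟩,
 nat_lit 0, nat_lit 7403, nat_lit 0, nat_lit 0, nat_lit 4309, nat_lit 0, nat_lit 0, nat_lit 0, nat_lit 0, nat_lit 0, nat_lit 0, nat_lit 0, nat_lit 0, nat_lit 0, nat_lit 45, nat_lit 392500, nat_lit 0, nat_lit 0, [(nat_lit 9, [(nat_lit 0, nat_lit 50), (nat_lit 5, nat_lit 950)])],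
 ⟨p012_k11, nat_lit 0, nat_lit 0, nat_lit 187, nat_lit 0, nat_lit 94618, [nat_lit 2325920000, nat_lit 853760001, nat_lit 104959999], [], [nat_lit 14735800197, nat_lit 15864691579, nat_lit 17485042443, nat_lit 18445795556], nat_lit 1271250, nat_lit 1271250, nat_lit 1100001, nat_lit 1785000, nat_lit 0, nat_lit 0, [nat_lit 1100000, nat_lit 1442500, nat_lit 1271250], [nat_lit 9, nat_lit 40, nat_lit 20, nat_lit 80, nat_lit 2, nat_lit 272, nat_lit 60, nat_lit 9]⟩, C1.Rw.none,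
 ⟨nat_lit 5477, nat_lit 5917, ⟨.ofNat (nat_lit 400126), .ofNat (nat_lit 557183), .ofNat (nat_lit 421465), .ofNat (nat_lit 578514), .ofNat (nat_lit 403708), .ofNat (nat_lit 553564), .ofNat (nat_lit 425065), .ofNat (nat_lit 574913)⟩, ⟨.ofNat (nat_lit 0), .ofNat (nat_lit 0), .ofNat (nat_lit 0), .ofNat (nat_lit 0), .ofNat (nat_lit 0), .ofNat (nat_lit 0), .ofNat (nat_lit 0), .ofNat (nat_lit 0)⟩⟩, []⟩
noncomputable def p012_l97 : Lf2 := ⟨nat_lit 0, nat_lit 5, [nat_lit 4, nat_lit 5, nat_lit 5, nat_lit 20], false, nat_lit 0, nat_lit 0, nat_lit 0, nat_lit 0, ⟨nat_lit 971, nat_lit 0, nat_lit 29, nat_lit 6, nat_lit 285, nat_lit 0, nat_lit 0, nat_lit 0, nat_lit 0, nat_lit 215, nat_lit 482490, nat_lit 200, nat_lit 44469209, nat_lit 0, nat_lit 0, nat_lit 3192686, true, true⟩,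
 nat_lit 32838, nat_lit 0, nat_lit 0, nat_lit 0, nat_lit 6715, nat_lit 12487, nat_lit 0, nat_lit 0, nat_lit 0, nat_lit 0, nat_lit 0, nat_lit 0, nat_lit 0, nat_lit 0, nat_lit 0, nat_lit 5365, nat_lit 0, nat_lit 0, [(nat_lit 9, [(nat_lit 3, nat_lit 29)])],
 ⟨p012_k11, nat_lit 0, nat_lit 0, nat_lit 205, nat_lit 0, nat_lit 54334, [nat_lit 5897740800, nat_lit 6068332400, nat_lit 7714667600], [], [nat_lit 27631138340, nat_lit 28800907080, nat_lit 37683381386, nat_lit 38341038472], nat_lit 1271250, nat_lit 1271250, nat_lit 1271250, nat_lit 1271250, nat_lit 0, nat_lit 0, [nat_lit 1100000, nat_lit 1442500, nat_lit 1271250], [nat_lit 9, nat_lit 40, nat_lit 20, nat_lit 80, nat_lit 2, nat_lit 203, nat_lit 0, nat_lit 6]⟩, ⟨p012_k17, nat_lit 0, nat_lit 0, nat_lit 331, nat_lit 0, nat_lit 88988, [nat_lit 7736928000, nat_lit 9556582000, nat_lit 11527712000], [], [nat_lit 40597839606, nat_lit 40564163632,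 nat_lit 49366725652, nat_lit 48920210200], nat_lit 1271250, nat_lit 1271250, nat_lit 1271250, nat_lit 1271250, nat_lit 0, nat_lit 0, [nat_lit 1695000, nat_lit 1271250, nat_lit 1271250], [nat_lit 106, nat_lit 40, nat_lit 20, nat_lit 80, nat_lit 41, nat_lit 373, nat_lit 150, nat_lit 10]⟩,
 ⟨nat_lit 5477, nat_lit 5917, ⟨.ofNat (nat_lit 557183), .ofNat (nat_lit 855538), .ofNat (nat_lit 578514), .ofNat (nat_lit 876870), .ofNat (nat_lit 553564), .ofNat (nat_lit 838238), .ofNat (nat_lit 574913), .ofNat (nat_lit 859587)⟩, ⟨.ofNat (nat_lit 0), .ofNat (nat_lit 0), .ofNat (nat_lit 0), .ofNat (nat_lit 0), .ofNat (nat_lit 0), .ofNat (nat_lit 0), .ofNat (nat_lit 0), .ofNat (nat_lit 0)⟩⟩, [⟨nat_lit 13, nat_lit 94, nat_lit 40, nat_lit 100, nat_lit 105579468⟩]⟩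
noncomputable def p012_l98 : Lf2 := ⟨nat_lit 1, nat_lit 5, [nat_lit 4, nat_lit 5, nat_lit 5, nat_lit 20], false, nat_lit 0, nat_lit 0, nat_lit 0, nat_lit 0, zbN0,
 nat_lit 0, nat_lit 0, nat_lit 0, nat_lit 0, nat_lit 0, nat_lit 0, nat_lit 0, nat_lit 0, nat_lit 0, nat_lit 0, nat_lit 0, nat_lit 0, nat_lit 0, nat_lit 0, nat_lit 0, nat_lit 0, nat_lit 0, nat_lit 0, [],
 C1.Rw.none, C1.Rw.none,
 zbF0, []⟩
noncomputable def p012_l99 : Lf2 := ⟨nat_lit 0, nat_lit 5, [nat_lit 4, nat_lit 5, nat_lit 5, nat_lit 20], true, nat_lit 0, nat_lit 0, nat_lit 0, nat_lit 0, ⟨nat_lit 0, nat_lit 1000, nat_lit 0, nat_lit 4, nat_lit 193, nat_lit 0, nat_lit 0, nat_lit 0, nat_lit 0, nat_lit 0, nat_lit 0, nat_lit 0, nat_lit 0, nat_lit 0, nat_lit 0, nat_lit 5000000, false, true⟩,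
 nat_lit 0, nat_lit 10168, nat_lit 0, nat_lit 0, nat_lit 6192, nat_lit 0, nat_lit 0, nat_lit 0, nat_lit 0, nat_lit 0, nat_lit 0, nat_lit 0, nat_lit 0, nat_lit 0, nat_lit 0, nat_lit 250000, nat_lit 0, nat_lit 0, [(nat_lit 9, [(nat_lit 0, nat_lit 1000)])],
 ⟨p012_k13, nat_lit 0, nat_lit 0, nat_lit 266, nat_lit 0, nat_lit 88988, [nat_lit 3116800000, nat_lit 2996800000, nat_lit 3375200000], [], [nat_lit 33225370554, nat_lit 31590880698, nat_lit 36012676224, nat_lit 34861471751], nat_lit 1271250, nat_lit 1271250, nat_lit 21650, nat_lit 2748050, nat_lit 0, nat_lit 0, [nat_lit 1100000, nat_lit 1442500, nat_lit 1271250], [nat_lit 9, nat_lit 40, nat_lit 20, nat_lit 80, nat_lit 2, nat_lit 317, nat_lit 100, nat_lit 11]⟩, C1.Rw.none,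
 ⟨nat_lit 5477, nat_lit 5701, ⟨.ofNat (nat_lit 102733), .ofNat (nat_lit 839218), .ofNat (nat_lit 124075), .ofNat (nat_lit 860558), .ofNat (nat_lit 111470), .ofNat (nat_lit 830809), .ofNat (nat_lit 132827), .ofNat (nat_lit 852164)⟩, ⟨.ofNat (nat_lit 0), .ofNat (nat_lit 0), .ofNat (nat_lit 0), .ofNat (nat_lit 0), .ofNat (nat_lit 0), .ofNat (nat_lit 0), .ofNat (nat_lit 0), .ofNat (nat_lit 0)⟩⟩, [⟨nat_lit 13, nat_lit 94, nat_lit 35, nat_lit 100, nat_lit 85030760⟩]⟩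
noncomputable def p012_l100 : Lf2 := ⟨nat_lit 0, nat_lit 5, [nat_lit 4, nat_lit 5, nat_lit 5, nat_lit 20], false, nat_lit 0, nat_lit 0, nat_lit 0, nat_lit 0, ⟨nat_lit 101, nat_lit 899, nat_lit 0, nat_lit 4, nat_lit 194, nat_lit 0, nat_lit 0, nat_lit 0, nat_lit 0, nat_lit 0, nat_lit 0, nat_lit 0, nat_lit 0, nat_lit 0, nat_lit 0, nat_lit 5000000, false, true⟩,
 nat_lit 3325, nat_lit 7195, nat_lit 0, nat_lit 6951, nat_lit 6123, nat_lit 1264, nat_lit 0, nat_lit 0, nat_lit 0, nat_lit 0, nat_lit 0, nat_lit 0, nat_lit 0, nat_lit 0, nat_lit 0, nat_lit 359600, nat_lit 0, nat_lit 0, [(nat_lit 9, [(nat_lit 1, nat_lit 899)])],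
 ⟨p012_k11, nat_lit 0, nat_lit 0, nat_lit 262, nat_lit 0, nat_lit 54334, [nat_lit 2903233281, nat_lit 3204907200, nat_lit 3525518200], [], [nat_lit 34157766206, nat_lit 30925214078, nat_lit 37884639512, nat_lit 35140711175], nat_lit 1271250, nat_lit 1271250, nat_lit 21650, nat_lit 2776450, nat_lit 0, nat_lit 0, [nat_lit 1100000, nat_lit 1442500, nat_lit 1271250], [nat_lit 9, nat_lit 40, nat_lit 20, nat_lit 80, nat_lit 2, nat_lit 317, nat_lit 100, nat_lit 11]⟩, ⟨p012_k17, nat_lit 0, nat_lit 0, nat_lit 426, nat_lit 0, nat_lit 88988, [nat_lit 804768000, nat_lit 994042000, nat_lit 1199072000], [], [nat_lit 7465107292, nat_lit 6776808227, nat_lit 5726421408, nat_lit 5129188992], nat_lit 1271250, nat_lit 1271250, nat_lit 21650, nat_lit 2776450, nat_lit 0, nat_lit 0, [nat_lit 1695000, nat_lit 1271250, nat_lit 1271250], [nat_lit 106, nat_lit 40, nat_lit 20, nat_lit 80, nat_lit 41, nat_lit 373,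 nat_lit 150, nat_lit 10]⟩,
 ⟨nat_lit 5477, nat_lit 5917, ⟨.ofNat (nat_lit 93845), .ofNat (nat_lit 855538), .ofNat (nat_lit 115184), .ofNat (nat_lit 876870), .ofNat (nat_lit 111470), .ofNat (nat_lit 838238), .ofNat (nat_lit 132827), .ofNat (nat_lit 859587)⟩, ⟨.ofNat (nat_lit 0), .ofNat (nat_lit 0), .ofNat (nat_lit 0), .ofNat (nat_lit 0), .ofNat (nat_lit 0), .ofNat (nat_lit 0), .ofNat (nat_lit 0), .ofNat (nat_lit 0)⟩⟩, []⟩
noncomputable def b_NL_650_450_0_0 : St := ⟨false, nat_lit 2, nat_lit 2, nat_lit 0, nat_lit 20, nat_lit 260, nat_lit 280, nat_lit 180, nat_lit 200, nat_lit 0, nat_lit 400, nat_lit 0, nat_lit 0, nat_lit 0, nat_lit 0, nat_lit 0, nat_lit 0, nat_lit 0, nat_lit 52, nat_lit 0, nat_lit 0, nat_lit 0, nat_lit 0⟩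
theorem d_NL_650_450_0_0 (h : EB TB.env) : Dead b_NL_650_450_0_0 := chkB_sound0 h (T :=
(.trZ (nat_lit 0) (nat_lit 100) (nat_lit 96) (nat_lit 20) (nat_lit 4) (.trX (nat_lit 13) (nat_lit 95) (nat_lit 30) (nat_lit 100) (nat_lit 392) (.spl (nat_lit 6) (nat_lit 40)
(.st (nat_lit 0)
(.gv
(.st (nat_lit 1)
(.spl (nat_lit 2) (nat_lit 160)
(.leaf p012_l62)
(.leaf p012_l63))
(.spl (nat_lit 2) (nat_lit 160)
(.leaf p012_l64)
(.spl (nat_lit 2) (nat_lit 240)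
(.leaf p012_l65)
(.spl (nat_lit 2) (nat_lit 320)
(.leaf p012_l66)
(.spl (nat_lit 0) (nat_lit 270)
(.leaf p012_l67)
(.trX (nat_lit 13) (nat_lit 94) (nat_lit 35) (nat_lit 100) (nat_lit 388) (.leaf p012_l68)))))))
(.leaf p012_l69))
(.gv
(.st (nat_lit 1)
(.spl (nat_lit 2) (nat_lit 160)
(.spl (nat_lit 2) (nat_lit 80)
(.spl (nat_lit 6) (nat_lit 20)
(.spl (nat_lit 6) (nat_lit 8)
(.leaf p012_l70)
(.leaf p012_l71))
(.leaf p012_l72))
(.leaf p012_l73))
(.leaf p012_l74))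
(.spl (nat_lit 2) (nat_lit 160)
(.spl (nat_lit 2) (nat_lit 80)
(.spl (nat_lit 6) (nat_lit 20)
(.spl (nat_lit 6) (nat_lit 8)
(.leaf p012_l75)
(.leaf p012_l76))
(.leaf p012_l77))
(.spl (nat_lit 2) (nat_lit 120)
(.leaf p012_l78)
(.leaf p012_l79)))
(.spl (nat_lit 2) (nat_lit 240)
(.spl (nat_lit 2) (nat_lit 200)
(.leaf p012_l80)
(.leaf p012_l81))
(.leaf p012_l82))))
(.st (nat_lit 1)
(.spl (nat_lit 2) (nat_lit 160)
(.leaf p012_l83)
(.leaf p012_l84))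
(.spl (nat_lit 2) (nat_lit 120)
(.leaf p012_l85)
(.spl (nat_lit 2) (nat_lit 240)
(.leaf p012_l86)
(.leaf p012_l87))))))
(.st (nat_lit 0)
(.gv
(.st (nat_lit 1)
(.spl (nat_lit 2) (nat_lit 160)
(.leaf p012_l88)
(.leaf p012_l89))
(.spl (nat_lit 2) (nat_lit 160)
(.leaf p012_l90)
(.leaf p012_l91)))
(.leaf p012_l92))
(.gv
(.st (nat_lit 1)
(.spl (nat_lit 2) (nat_lit 160)
(.leaf p012_l93)
(.leaf p012_l94))
(.spl (nat_lit 2) (nat_lit 160)
(.leaf p012_l95)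
(.spl (nat_lit 2) (nat_lit 240)
(.leaf p012_l96)
(.leaf p012_l97))))
(.st (nat_lit 1)
(.spl (nat_lit 0) (nat_lit 270)
(.leaf p012_l98)
(.trX (nat_lit 13) (nat_lit 94) (nat_lit 35) (nat_lit 100) (nat_lit 388) (.leaf p012_l99)))
(.leaf p012_l100)))))))) (by decide +kernel)
noncomputable def p012_l101 : Lf2 := ⟨nat_lit 0, nat_lit 5, [nat_lit 4, nat_lit 5, nat_lit 5, nat_lit 20], true, nat_lit 0, nat_lit 0, nat_lit 0, nat_lit 0, ⟨nat_lit 0, nat_lit 0, nat_lit 1000, nat_lit 5, nat_lit 146, nat_lit 0, nat_lit 0, nat_lit 0, nat_lit 0, nat_lit 215, nat_lit 422, nat_lit 212, nat_lit 59128321, nat_lit 0, nat_lit 0, nat_lit 1809445, false, false⟩,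
 nat_lit 0, nat_lit 0, nat_lit 0, nat_lit 31, nat_lit 4180, nat_lit 0, nat_lit 0, nat_lit 0, nat_lit 0, nat_lit 0, nat_lit 0, nat_lit 0, nat_lit 0, nat_lit 0, nat_lit 55, nat_lit 400000, nat_lit 0, nat_lit 0, [(nat_lit 9, [(nat_lit 5, nat_lit 1000)])],
 ⟨p012_k6, nat_lit 0, nat_lit 0, nat_lit 180, nat_lit 0, nat_lit 0, [nat_lit 2406400000, nat_lit 19600000], [], [nat_lit 14951327648, nat_lit 16960203488, nat_lit 17327403960, nat_lit 18441331600], nat_lit 0, nat_lit 0, nat_lit 0, nat_lit 0, nat_lit 0, nat_lit 0, [], [nat_lit 39, nat_lit 40, nat_lit 20, nat_lit 80, nat_lit 7, nat_lit 272, nat_lit 60, nat_lit 9]⟩, C1.Rw.none,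
 ⟨nat_lit 5477, nat_lit 5917, ⟨.ofNat (nat_lit 123037), .ofNat (nat_lit 578514), .ofNat (nat_lit 144377), .ofNat (nat_lit 599845), .ofNat (nat_lit 140320), .ofNat (nat_lit 574913), .ofNat (nat_lit 161677), .ofNat (nat_lit 596262)⟩, ⟨.ofNat (nat_lit 0), .ofNat (nat_lit 0), .ofNat (nat_lit 0), .ofNat (nat_lit 0), .ofNat (nat_lit 0), .ofNat (nat_lit 0), .ofNat (nat_lit 0), .ofNat (nat_lit 0)⟩⟩, [⟨nat_lit 0, nat_lit 100, nat_lit 94, nat_lit 40, nat_lit 9301632⟩]⟩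
noncomputable def p012_l102 : Lf2 := ⟨nat_lit 0, nat_lit 5, [nat_lit 4, nat_lit 5, nat_lit 5, nat_lit 20], false, nat_lit 0, nat_lit 0, nat_lit 0, nat_lit 0, ⟨nat_lit 895, nat_lit 0, nat_lit 105, nat_lit 6, nat_lit 295, nat_lit 0, nat_lit 0, nat_lit 0, nat_lit 0, nat_lit 215, nat_lit 540854, nat_lit 200, nat_lit 43418125, nat_lit 0, nat_lit 0, nat_lit 3243282, true, true⟩,
 nat_lit 0, nat_lit 0, nat_lit 0, nat_lit 1831, nat_lit 0, nat_lit 8139, nat_lit 0, nat_lit 0, nat_lit 0, nat_lit 0, nat_lit 0, nat_lit 0, nat_lit 0, nat_lit 0, nat_lit 0, nat_lit 19425, nat_lit 0, nat_lit 0, [(nat_lit 9, [(nat_lit 3, nat_lit 105)])],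
 ⟨p012_k6, nat_lit 0, nat_lit 0, nat_lit 181, nat_lit 0, nat_lit 0, [nat_lit 9068096000, nat_lit 7050762000], [], [nat_lit 38051108000, nat_lit 38636430000, nat_lit 42878714000, nat_lit 43401835200], nat_lit 0, nat_lit 0, nat_lit 0, nat_lit 0, nat_lit 0, nat_lit 0, [], [nat_lit 39, nat_lit 40, nat_lit 20, nat_lit 80, nat_lit 7, nat_lit 203, nat_lit 0, nat_lit 6]⟩, ⟨p012_k18, nat_lit 0, nat_lit 0, nat_lit 241, nat_lit 0, nat_lit 0, [nat_lit 5593750000, nat_lit 10625440000], [], [nat_lit 29682717296, nat_lit 30507156250, nat_lit 41793351676, nat_lit 42061019336], nat_lit 0, nat_lit 0, nat_lit 0, nat_lit 0, nat_lit 0, nat_lit 0, [], [nat_lit 107, nat_lit 40, nat_lit 20, nat_lit 80, nat_lit 12, nat_lit 401, nat_lit 175, nat_lit 10]⟩,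
 ⟨nat_lit 5477, nat_lit 5917, ⟨.ofNat (nat_lit 578514), .ofNat (nat_lit 884721), .ofNat (nat_lit 599845), .ofNat (nat_lit 906052), .ofNat (nat_lit 574913), .ofNat (nat_lit 867078), .ofNat (nat_lit 596262), .ofNat (nat_lit 888427)⟩, ⟨.ofNat (nat_lit 0), .ofNat (nat_lit 0), .ofNat (nat_lit 0), .ofNat (nat_lit 0), .ofNat (nat_lit 0), .ofNat (nat_lit 0), .ofNat (nat_lit 0), .ofNat (nat_lit 0)⟩⟩, [⟨nat_lit 13, nat_lit 96, nat_lit 20, nat_lit 100, nat_lit 93096641⟩]⟩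
noncomputable def p012_l103 : Lf2 := ⟨nat_lit 0, nat_lit 5, [nat_lit 4, nat_lit 5, nat_lit 5, nat_lit 20], true, nat_lit 0, nat_lit 0, nat_lit 0, nat_lit 0, ⟨nat_lit 0, nat_lit 0, nat_lit 1000, nat_lit 5, nat_lit 146, nat_lit 0, nat_lit 0, nat_lit 0, nat_lit 0, nat_lit 215, nat_lit 422, nat_lit 212, nat_lit 59128321, nat_lit 0, nat_lit 0, nat_lit 1809445, false, false⟩,
 nat_lit 0, nat_lit 0, nat_lit 0, nat_lit 31, nat_lit 4180, nat_lit 0, nat_lit 0, nat_lit 0, nat_lit 0, nat_lit 0, nat_lit 0, nat_lit 0, nat_lit 0, nat_lit 0, nat_lit 55, nat_lit 400000, nat_lit 0, nat_lit 0, [(nat_lit 9, [(nat_lit 5, nat_lit 1000)])],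
 ⟨p012_k6, nat_lit 0, nat_lit 0, nat_lit 180, nat_lit 0, nat_lit 0, [nat_lit 2406400000, nat_lit 19600000], [], [nat_lit 14951327648, nat_lit 16960203488, nat_lit 17327403960, nat_lit 18441331600], nat_lit 0, nat_lit 0, nat_lit 0, nat_lit 0, nat_lit 0, nat_lit 0, [], [nat_lit 39, nat_lit 40, nat_lit 20, nat_lit 80, nat_lit 7, nat_lit 272, nat_lit 60, nat_lit 9]⟩, C1.Rw.none,
 ⟨nat_lit 5477, nat_lit 5917, ⟨.ofNat (nat_lit 123037), .ofNat (nat_lit 578514), .ofNat (nat_lit 144377), .ofNat (nat_lit 599845), .ofNat (nat_lit 140320), .ofNat (nat_lit 574913), .ofNat (nat_lit 161677), .ofNat (nat_lit 596262)⟩, ⟨.ofNat (nat_lit 0), .ofNat (nat_lit 0), .ofNat (nat_lit 0), .ofNat (nat_lit 0), .ofNat (nat_lit 0), .ofNat (nat_lit 0), .ofNat (nat_lit 0), .ofNat (nat_lit 0)⟩⟩, [⟨nat_lit 0, nat_lit 100, nat_lit 94, nat_lit 40, nat_lit 9301632⟩]⟩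
noncomputable def p012_l104 : Lf2 := ⟨nat_lit 0, nat_lit 5, [nat_lit 4, nat_lit 5, nat_lit 5, nat_lit 20], true, nat_lit 0, nat_lit 0, nat_lit 0, nat_lit 0, ⟨nat_lit 0, nat_lit 1000, nat_lit 0, nat_lit 6, nat_lit 266, nat_lit 0, nat_lit 0, nat_lit 0, nat_lit 0, nat_lit 0, nat_lit 0, nat_lit 0, nat_lit 46494651, nat_lit 20505349, nat_lit 0, nat_lit 3079517, true, true⟩,
 nat_lit 0, nat_lit 0, nat_lit 0, nat_lit 1284, nat_lit 5225, nat_lit 0, nat_lit 0, nat_lit 0, nat_lit 0, nat_lit 0, nat_lit 0, nat_lit 0, nat_lit 0, nat_lit 0, nat_lit 0, nat_lit 250000, nat_lit 0, nat_lit 0, [(nat_lit 9, [(nat_lit 0, nat_lit 1000)])],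
 ⟨p012_k6, nat_lit 0, nat_lit 0, nat_lit 148, nat_lit 0, nat_lit 0, [nat_lit 3116800000, nat_lit 3354400000], [], [nat_lit 22245871100, nat_lit 23285956200, nat_lit 26469762600, nat_lit 27429086800], nat_lit 0, nat_lit 0, nat_lit 0, nat_lit 0, nat_lit 0, nat_lit 0, [], [nat_lit 39, nat_lit 40, nat_lit 20, nat_lit 80, nat_lit 7, nat_lit 203, nat_lit 0, nat_lit 6]⟩, C1.Rw.none,
 ⟨nat_lit 5477, nat_lit 5917, ⟨.ofNat (nat_lit 578514), .ofNat (nat_lit 735543), .ofNat (nat_lit 599845), .ofNat (nat_lit 756874), .ofNat (nat_lit 574913), .ofNat (nat_lit 724742), .ofNat (nat_lit 596262), .ofNat (nat_lit 746090)⟩, ⟨.ofNat (nat_lit 0), .ofNat (nat_lit 0), .ofNat (nat_lit 0), .ofNat (nat_lit 0), .ofNat (nat_lit 0), .ofNat (nat_lit 0), .ofNat (nat_lit 0), .ofNat (nat_lit 0)⟩⟩, []⟩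
noncomputable def p012_l105 : Lf2 := ⟨nat_lit 0, nat_lit 5, [nat_lit 4, nat_lit 5, nat_lit 5, nat_lit 20], true, nat_lit 0, nat_lit 0, nat_lit 0, nat_lit 0, ⟨nat_lit 0, nat_lit 1000, nat_lit 0, nat_lit 8, nat_lit 312, nat_lit 0, nat_lit 0, nat_lit 0, nat_lit 0, nat_lit 0, nat_lit 0, nat_lit 0, nat_lit 41689873, nat_lit 25310127, nat_lit 0, nat_lit 3314791, true, true⟩,
 nat_lit 0, nat_lit 0, nat_lit 0, nat_lit 1167, nat_lit 4862, nat_lit 0, nat_lit 0, nat_lit 0, nat_lit 0, nat_lit 0, nat_lit 0, nat_lit 0, nat_lit 0, nat_lit 0, nat_lit 0, nat_lit 250000, nat_lit 0, nat_lit 0, [(nat_lit 9, [(nat_lit 0, nat_lit 1000)])],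
 ⟨p012_k6, nat_lit 0, nat_lit 0, nat_lit 165, nat_lit 0, nat_lit 0, [nat_lit 3116800000, nat_lit 3354400000], [], [nat_lit 26765834112, nat_lit 27569202152, nat_lit 29155288836, nat_lit 29958518280], nat_lit 0, nat_lit 0, nat_lit 0, nat_lit 0, nat_lit 0, nat_lit 0, [], [nat_lit 39, nat_lit 40, nat_lit 20, nat_lit 80, nat_lit 7, nat_lit 203, nat_lit 0, nat_lit 6]⟩, C1.Rw.none,
 ⟨nat_lit 5477, nat_lit 5917, ⟨.ofNat (nat_lit 735543), .ofNat (nat_lit 814058), .ofNat (nat_lit 756874), .ofNat (nat_lit 835389), .ofNat (nat_lit 724742), .ofNat (nat_lit 799655), .ofNat (nat_lit 746090), .ofNat (nat_lit 821004)⟩, ⟨.ofNat (nat_lit 0), .ofNat (nat_lit 0), .ofNat (nat_lit 0), .ofNat (nat_lit 0), .ofNat (nat_lit 0), .ofNat (nat_lit 0), .ofNat (nat_lit 0), .ofNat (nat_lit 0)⟩⟩, []⟩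
noncomputable def p012_l106 : Lf2 := ⟨nat_lit 0, nat_lit 5, [nat_lit 4, nat_lit 5, nat_lit 5, nat_lit 20], false, nat_lit 0, nat_lit 0, nat_lit 0, nat_lit 0, ⟨nat_lit 44, nat_lit 956, nat_lit 0, nat_lit 9, nat_lit 339, nat_lit 0, nat_lit 0, nat_lit 0, nat_lit 0, nat_lit 0, nat_lit 0, nat_lit 0, nat_lit 39023306, nat_lit 27976694, nat_lit 0, nat_lit 3397464, true, true⟩,
 nat_lit 0, nat_lit 0, nat_lit 1067, nat_lit 0, nat_lit 4262, nat_lit 457, nat_lit 0, nat_lit 0, nat_lit 0, nat_lit 35, nat_lit 0, nat_lit 0, nat_lit 0, nat_lit 0, nat_lit 0, nat_lit 382400, nat_lit 0, nat_lit 0, [(nat_lit 9, [(nat_lit 1, nat_lit 956)])],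
 ⟨p012_k6, nat_lit 0, nat_lit 0, nat_lit 181, nat_lit 0, nat_lit 0, [nat_lit 2828388801, nat_lit 3229308800], [], [nat_lit 29085059637, nat_lit 29760272593, nat_lit 31238611448, nat_lit 31827955135], nat_lit 0, nat_lit 0, nat_lit 0, nat_lit 0, nat_lit 0, nat_lit 0, [], [nat_lit 39, nat_lit 40, nat_lit 20, nat_lit 80, nat_lit 7, nat_lit 203, nat_lit 0, nat_lit 6]⟩, ⟨p012_k19, nat_lit 0, nat_lit 0, nat_lit 901, nat_lit 0, nat_lit 1437492, [nat_lit 275000000, nat_lit 433048000, nat_lit 522368000], [], [nat_lit 1950771796, nat_lit 1942876416, nat_lit 1985630513, nat_lit 1984430732], nat_lit 1271250, nat_lit 1271250, nat_lit 1271250, nat_lit 1271250, nat_lit 0, nat_lit 0, [nat_lit 1412500, nat_lit 1271250, nat_lit 1271250], [nat_lit 46, nat_lit 40, nat_lit 20, nat_lit 80, nat_lit 41, nat_lit 301, nat_lit 60, nat_lit 7]⟩,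
 ⟨nat_lit 5477, nat_lit 5917, ⟨.ofNat (nat_lit 814058), .ofNat (nat_lit 884721), .ofNat (nat_lit 824723), .ofNat (nat_lit 895386), .ofNat (nat_lit 799655), .ofNat (nat_lit 867078), .ofNat (nat_lit 810330), .ofNat (nat_lit 877752)⟩, ⟨.ofNat (nat_lit 0), .ofNat (nat_lit 0), .ofNat (nat_lit 0), .ofNat (nat_lit 0), .ofNat (nat_lit 0), .ofNat (nat_lit 0), .ofNat (nat_lit 0), .ofNat (nat_lit 0)⟩⟩, [⟨nat_lit 13, nat_lit 96, nat_lit 25, nat_lit 100, nat_lit 182356368⟩]⟩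
noncomputable def p012_l107 : Lf2 := ⟨nat_lit 0, nat_lit 5, [nat_lit 4, nat_lit 5, nat_lit 5, nat_lit 20], false, nat_lit 0, nat_lit 0, nat_lit 0, nat_lit 0, ⟨nat_lit 47, nat_lit 953, nat_lit 0, nat_lit 9, nat_lit 343, nat_lit 0, nat_lit 0, nat_lit 0, nat_lit 0, nat_lit 0, nat_lit 0, nat_lit 0, nat_lit 38614369, nat_lit 28385631, nat_lit 0, nat_lit 3407238, true, true⟩,
 nat_lit 0, nat_lit 0, nat_lit 1052, nat_lit 0, nat_lit 4267, nat_lit 476, nat_lit 0, nat_lit 0, nat_lit 0, nat_lit 24, nat_lit 0, nat_lit 0, nat_lit 0, nat_lit 0, nat_lit 0, nat_lit 381200, nat_lit 0, nat_lit 0, [(nat_lit 9, [(nat_lit 1, nat_lit 953)])],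
 ⟨p012_k6, nat_lit 0, nat_lit 0, nat_lit 181, nat_lit 0, nat_lit 0, [nat_lit 2834224401, nat_lit 3243934400], [], [nat_lit 29102660227, nat_lit 29778060873, nat_lit 31257446584, nat_lit 31847416291], nat_lit 0, nat_lit 0, nat_lit 0, nat_lit 0, nat_lit 0, nat_lit 0, [], [nat_lit 39, nat_lit 40, nat_lit 20, nat_lit 80, nat_lit 7, nat_lit 203, nat_lit 0, nat_lit 6]⟩, ⟨p012_k20, nat_lit 0, nat_lit 0, nat_lit 811, nat_lit 0, nat_lit 1398543, [nat_lit 293750000, nat_lit 462574000], [], [nat_lit 2033201188, nat_lit 2027041292, nat_lit 2077888520, nat_lit 2076441951], nat_lit 1271250, nat_lit 1271250, nat_lit 1271250, nat_lit 1271250, nat_lit 0, nat_lit 0, [nat_lit 1412500, nat_lit 1271250], [nat_lit 51, nat_lit 40, nat_lit 20, nat_lit 80, nat_lit 1, nat_lit 280, nat_lit 60, nat_lit 7]⟩,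
 ⟨nat_lit 5477, nat_lit 5917, ⟨.ofNat (nat_lit 824723), .ofNat (nat_lit 895386), .ofNat (nat_lit 835389), .ofNat (nat_lit 906052), .ofNat (nat_lit 810330), .ofNat (nat_lit 877752), .ofNat (nat_lit 821004), .ofNat (nat_lit 888427)⟩, ⟨.ofNat (nat_lit 0), .ofNat (nat_lit 0), .ofNat (nat_lit 0), .ofNat (nat_lit 0), .ofNat (nat_lit 0), .ofNat (nat_lit 0), .ofNat (nat_lit 0), .ofNat (nat_lit 0)⟩⟩, [⟨nat_lit 13, nat_lit 94, nat_lit 28, nat_lit 100, nat_lit 184440942⟩]⟩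
noncomputable def p012_l108 : Lf2 := ⟨nat_lit 0, nat_lit 5, [nat_lit 4, nat_lit 5, nat_lit 5, nat_lit 20], true, nat_lit 0, nat_lit 0, nat_lit 0, nat_lit 0, ⟨nat_lit 0, nat_lit 1000, nat_lit 0, nat_lit 5, nat_lit 206, nat_lit 0, nat_lit 0, nat_lit 0, nat_lit 0, nat_lit 0, nat_lit 0, nat_lit 0, nat_lit 0, nat_lit 0, nat_lit 0, nat_lit 5000000, false, true⟩,
 nat_lit 0, nat_lit 0, nat_lit 0, nat_lit 2824, nat_lit 4256, nat_lit 0, nat_lit 0, nat_lit 0, nat_lit 0, nat_lit 0, nat_lit 0, nat_lit 0, nat_lit 0, nat_lit 0, nat_lit 0, nat_lit 400000, nat_lit 0, nat_lit 0, [(nat_lit 9, [(nat_lit 1, nat_lit 1000)])],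
 ⟨p012_k6, nat_lit 0, nat_lit 0, nat_lit 181, nat_lit 0, nat_lit 0, [nat_lit 2742800000, nat_lit 3014800000], [], [nat_lit 20448465722, nat_lit 21768390036, nat_lit 30940465124, nat_lit 31607643668], nat_lit 0, nat_lit 0, nat_lit 0, nat_lit 0, nat_lit 0, nat_lit 0, [], [nat_lit 39, nat_lit 40, nat_lit 20, nat_lit 80, nat_lit 7, nat_lit 317, nat_lit 100, nat_lit 11]⟩, C1.Rw.none,
 ⟨nat_lit 5477, nat_lit 5917, ⟨.ofNat (nat_lit 123037), .ofNat (nat_lit 884721), .ofNat (nat_lit 144377), .ofNat (nat_lit 906052), .ofNat (nat_lit 140320), .ofNat (nat_lit 867078), .ofNat (nat_lit 161677), .ofNat (nat_lit 888427)⟩, ⟨.ofNat (nat_lit 0), .ofNat (nat_lit 0), .ofNat (nat_lit 0), .ofNat (nat_lit 0), .ofNat (nat_lit 0), .ofNat (nat_lit 0), .ofNat (nat_lit 0), .ofNat (nat_lit 0)⟩⟩, [⟨nat_lit 13, nat_lit 96, nat_lit 20, nat_lit 100, nat_lit 178025557⟩]⟩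
noncomputable def p012_l109 : Lf2 := ⟨nat_lit 0, nat_lit 2, [nat_lit 10, nat_lit 5, nat_lit 5, nat_lit 20], true, nat_lit 0, nat_lit 0, nat_lit 0, nat_lit 0, ⟨nat_lit 0, nat_lit 0, nat_lit 1000, nat_lit 5, nat_lit 68, nat_lit 0, nat_lit 0, nat_lit 0, nat_lit 0, nat_lit 215, nat_lit 43350, nat_lit 266, nat_lit 65137132, nat_lit 0, nat_lit 0, nat_lit 635091, false, false⟩,
 nat_lit 0, nat_lit 6545, nat_lit 0, nat_lit 0, nat_lit 3809, nat_lit 0, nat_lit 0, nat_lit 0, nat_lit 0, nat_lit 0, nat_lit 0, nat_lit 0, nat_lit 0, nat_lit 0, nat_lit 37, nat_lit 1000000, nat_lit 0, nat_lit 0, [(nat_lit 9, [(nat_lit 6, nat_lit 1000)])],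
 ⟨p012_k16, nat_lit 0, nat_lit 0, nat_lit 303, nat_lit 0, nat_lit 362748, [nat_lit 1689600001, nat_lit 0], [], [nat_lit 14573930360, nat_lit 15200505686, nat_lit 13814903147, nat_lit 14429907807], nat_lit 1271250, nat_lit 1271250, nat_lit 43600, nat_lit 230001, nat_lit 0, nat_lit 0, [nat_lit 1100000, nat_lit 1442500], [nat_lit 31, nat_lit 40, nat_lit 20, nat_lit 80, nat_lit 3, nat_lit 215, nat_lit 10, nat_lit 9]⟩, C1.Rw.none,
 ⟨nat_lit 5700, nat_lit 5917, ⟨.ofNat (nat_lit 123037), .ofNat (nat_lit 185864), .ofNat (nat_lit 144377), .ofNat (nat_lit 207203), .ofNat (nat_lit 131747), .ofNat (nat_lit 193122), .ofNat (nat_lit 153089), .ofNat (nat_lit 214464)⟩, ⟨.ofNat (nat_lit 0), .ofNat (nat_lit 0), .ofNat (nat_lit 0), .ofNat (nat_lit 0), .ofNat (nat_lit 0), .ofNat (nat_lit 0), .ofNat (nat_lit 0), .ofNat (nat_lit 0)⟩⟩, [⟨nat_lit 0, nat_lit 100, nat_lit 94, nat_lit 44, nat_lit 227535536⟩]⟩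
noncomputable def p012_l110 : Lf2 := ⟨nat_lit 0, nat_lit 5, [nat_lit 4, nat_lit 5, nat_lit 5, nat_lit 20], true, nat_lit 0, nat_lit 0, nat_lit 0, nat_lit 0, ⟨nat_lit 0, nat_lit 0, nat_lit 1000, nat_lit 5, nat_lit 68, nat_lit 0, nat_lit 0, nat_lit 0, nat_lit 0, nat_lit 215, nat_lit 43350, nat_lit 266, nat_lit 65137132, nat_lit 0, nat_lit 0, nat_lit 635091, false, false⟩,
 nat_lit 0, nat_lit 6846, nat_lit 0, nat_lit 0, nat_lit 3984, nat_lit 0, nat_lit 0, nat_lit 0, nat_lit 0, nat_lit 0, nat_lit 0, nat_lit 0, nat_lit 0, nat_lit 0, nat_lit 117, nat_lit 1000000, nat_lit 0, nat_lit 0, [(nat_lit 9, [(nat_lit 6, nat_lit 1000)])],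
 ⟨p012_k6, nat_lit 0, nat_lit 0, nat_lit 363, nat_lit 0, nat_lit 303737, [nat_lit 3178400000, nat_lit 158133334], [], [nat_lit 14911595057, nat_lit 15551380293, nat_lit 14094420944, nat_lit 14722330104], nat_lit 1271250, nat_lit 1271250, nat_lit 43600, nat_lit 230001, nat_lit 0, nat_lit 0, [nat_lit 1100000, nat_lit 1785000], [nat_lit 39, nat_lit 40, nat_lit 20, nat_lit 80, nat_lit 7, nat_lit 215, nat_lit 10, nat_lit 8]⟩, C1.Rw.none,
 ⟨nat_lit 5700, nat_lit 5917, ⟨.ofNat (nat_lit 123037), .ofNat (nat_lit 185864), .ofNat (nat_lit 144377), .ofNat (nat_lit 207203), .ofNat (nat_lit 131747), .ofNat (nat_lit 193122), .ofNat (nat_lit 153089), .ofNat (nat_lit 214464)⟩, ⟨.ofNat (nat_lit 0), .ofNat (nat_lit 0), .ofNat (nat_lit 0), .ofNat (nat_lit 0), .ofNat (nat_lit 0), .ofNat (nat_lit 0), .ofNat (nat_lit 0), .ofNat (nat_lit 0)⟩⟩, [⟨nat_lit 0, nat_lit 100, nat_lit 94, nat_lit 44, nat_lit 237265518⟩]⟩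
noncomputable def p012_l111 : Lf2 := ⟨nat_lit 0, nat_lit 2, [nat_lit 10, nat_lit 5, nat_lit 5, nat_lit 20], true, nat_lit 0, nat_lit 0, nat_lit 0, nat_lit 0, ⟨nat_lit 0, nat_lit 0, nat_lit 1000, nat_lit 5, nat_lit 72, nat_lit 0, nat_lit 0, nat_lit 0, nat_lit 0, nat_lit 215, nat_lit 48600, nat_lit 269, nat_lit 64878512, nat_lit 0, nat_lit 0, nat_lit 702376, false, false⟩,
 nat_lit 0, nat_lit 6663, nat_lit 0, nat_lit 0, nat_lit 4057, nat_lit 0, nat_lit 404, nat_lit 0, nat_lit 0, nat_lit 0, nat_lit 0, nat_lit 0, nat_lit 0, nat_lit 0, nat_lit 37, nat_lit 1000000, nat_lit 0, nat_lit 0, [(nat_lit 9, [(nat_lit 6, nat_lit 1000)])],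
 ⟨p012_k21, nat_lit 0, nat_lit 0, nat_lit 314, nat_lit 0, nat_lit 391392, [nat_lit 1689600001, nat_lit 0], [], [nat_lit 15798214462, nat_lit 16339043837, nat_lit 15923148358, nat_lit 15768226424], nat_lit 1271250, nat_lit 1271250, nat_lit 65850, nat_lit 230001, nat_lit 0, nat_lit 0, [nat_lit 1100000, nat_lit 1442500], [nat_lit 31, nat_lit 40, nat_lit 20, nat_lit 80, nat_lit 3, nat_lit 215, nat_lit 10, nat_lit 9]⟩, C1.Rw.none,
 ⟨nat_lit 5477, nat_lit 5701, ⟨.ofNat (nat_lit 139419), .ofNat (nat_lit 193122), .ofNat (nat_lit 160761), .ofNat (nat_lit 214464), .ofNat (nat_lit 147813), .ofNat (nat_lit 200266), .ofNat (nat_lit 169170), .ofNat (nat_lit 221623)⟩, ⟨.ofNat (nat_lit 0), .ofNat (nat_lit 0), .ofNat (nat_lit 0), .ofNat (nat_lit 0), .ofNat (nat_lit 0), .ofNat (nat_lit 0), .ofNat (nat_lit 0), .ofNat (nat_lit 0)⟩⟩, [⟨nat_lit 0, nat_lit 100, nat_lit 92, nat_lit 49, nat_lit 115526496⟩]⟩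
noncomputable def p012_l112 : Lf2 := ⟨nat_lit 0, nat_lit 5, [nat_lit 4, nat_lit 5, nat_lit 5, nat_lit 20], true, nat_lit 0, nat_lit 0, nat_lit 0, nat_lit 0, ⟨nat_lit 0, nat_lit 0, nat_lit 1000, nat_lit 5, nat_lit 72, nat_lit 0, nat_lit 0, nat_lit 0, nat_lit 0, nat_lit 215, nat_lit 48600, nat_lit 269, nat_lit 64878512, nat_lit 0, nat_lit 0, nat_lit 702376, false, false⟩,
 nat_lit 0, nat_lit 6472, nat_lit 0, nat_lit 0, nat_lit 3941, nat_lit 0, nat_lit 0, nat_lit 0, nat_lit 0, nat_lit 0, nat_lit 0, nat_lit 0, nat_lit 0, nat_lit 0, nat_lit 117, nat_lit 1000000, nat_lit 0, nat_lit 0, [(nat_lit 9, [(nat_lit 6, nat_lit 1000)])],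
 ⟨p012_k9, nat_lit 0, nat_lit 0, nat_lit 372, nat_lit 0, nat_lit 337063, [nat_lit 3178400000, nat_lit 158133334], [], [nat_lit 15465562154, nat_lit 16101140218, nat_lit 14804393196, nat_lit 15429131536], nat_lit 1271250, nat_lit 1271250, nat_lit 65850, nat_lit 230001, nat_lit 0, nat_lit 0, [nat_lit 1100000, nat_lit 1785000], [nat_lit 39, nat_lit 40, nat_lit 20, nat_lit 80, nat_lit 7, nat_lit 215, nat_lit 10, nat_lit 7]⟩, C1.Rw.none,
 ⟨nat_lit 5477, nat_lit 5701, ⟨.ofNat (nat_lit 139419), .ofNat (nat_lit 193122), .ofNat (nat_lit 160761), .ofNat (nat_lit 214464), .ofNat (nat_lit 147813), .ofNat (nat_lit 200266), .ofNat (nat_lit 169170), .ofNat (nat_lit 221623)⟩, ⟨.ofNat (nat_lit 0), .ofNat (nat_lit 0), .ofNat (nat_lit 0), .ofNat (nat_lit 0), .ofNat (nat_lit 0), .ofNat (nat_lit 0), .ofNat (nat_lit 0), .ofNat (nat_lit 0)⟩⟩, [⟨nat_lit 0, nat_lit 100, nat_lit 92, nat_lit 49, nat_lit 228725822⟩]⟩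
noncomputable def p012_l113 : Lf2 := ⟨nat_lit 0, nat_lit 2, [nat_lit 10, nat_lit 5, nat_lit 5, nat_lit 20], true, nat_lit 0, nat_lit 0, nat_lit 0, nat_lit 0, ⟨nat_lit 0, nat_lit 0, nat_lit 1000, nat_lit 5, nat_lit 97, nat_lit 0, nat_lit 0, nat_lit 0, nat_lit 0, nat_lit 215, nat_lit 88817, nat_lit 288, nat_lit 63290231, nat_lit 0, nat_lit 0, nat_lit 1070153, false, false⟩,
 nat_lit 0, nat_lit 7043, nat_lit 0, nat_lit 0, nat_lit 4099, nat_lit 0, nat_lit 0, nat_lit 0, nat_lit 0, nat_lit 0, nat_lit 0, nat_lit 0, nat_lit 0, nat_lit 0, nat_lit 37, nat_lit 1000000, nat_lit 0, nat_lit 0, [(nat_lit 9, [(nat_lit 6, nat_lit 1000)])],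
 ⟨p012_k16, nat_lit 0, nat_lit 0, nat_lit 273, nat_lit 0, nat_lit 409934, [nat_lit 1689600001, nat_lit 0], [], [nat_lit 13240069787, nat_lit 14512848307, nat_lit 13115616947, nat_lit 14339190003], nat_lit 1271250, nat_lit 1271250, nat_lit 230001, nat_lit 490000, nat_lit 0, nat_lit 0, [nat_lit 1100000, nat_lit 1442500], [nat_lit 31, nat_lit 40, nat_lit 20, nat_lit 80, nat_lit 3, nat_lit 226, nat_lit 20, nat_lit 9]⟩, C1.Rw.none,
 ⟨nat_lit 5477, nat_lit 5917, ⟨.ofNat (nat_lit 185864), .ofNat (nat_lit 264398), .ofNat (nat_lit 207203), .ofNat (nat_lit 285737), .ofNat (nat_lit 200266), .ofNat (nat_lit 275199), .ofNat (nat_lit 221623), .ofNat (nat_lit 296556)⟩, ⟨.ofNat (nat_lit 0), .ofNat (nat_lit 0), .ofNat (nat_lit 0), .ofNat (nat_lit 0), .ofNat (nat_lit 0), .ofNat (nat_lit 0), .ofNat (nat_lit 0), .ofNat (nat_lit 0)⟩⟩, []⟩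
noncomputable def p012_l114 : Lf2 := ⟨nat_lit 0, nat_lit 5, [nat_lit 4, nat_lit 5, nat_lit 5, nat_lit 20], true, nat_lit 0, nat_lit 0, nat_lit 0, nat_lit 0, ⟨nat_lit 0, nat_lit 0, nat_lit 1000, nat_lit 5, nat_lit 97, nat_lit 0, nat_lit 0, nat_lit 0, nat_lit 0, nat_lit 215, nat_lit 88817, nat_lit 288, nat_lit 63290231, nat_lit 0, nat_lit 0, nat_lit 1070153, false, false⟩,
 nat_lit 0, nat_lit 7367, nat_lit 0, nat_lit 0, nat_lit 4288, nat_lit 0, nat_lit 0, nat_lit 0, nat_lit 0, nat_lit 0, nat_lit 0, nat_lit 0, nat_lit 0, nat_lit 0, nat_lit 117, nat_lit 1000000, nat_lit 0, nat_lit 0, [(nat_lit 9, [(nat_lit 6, nat_lit 1000)])],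
 ⟨p012_k6, nat_lit 0, nat_lit 0, nat_lit 311, nat_lit 0, nat_lit 353545, [nat_lit 3178400000, nat_lit 158133334], [], [nat_lit 13491837008, nat_lit 14792489248, nat_lit 14362445388, nat_lit 14574360000], nat_lit 1271250, nat_lit 1271250, nat_lit 230001, nat_lit 490000, nat_lit 0, nat_lit 0, [nat_lit 1100000, nat_lit 1785000], [nat_lit 39, nat_lit 40, nat_lit 20, nat_lit 80, nat_lit 7, nat_lit 226, nat_lit 20, nat_lit 8]⟩, C1.Rw.none,
 ⟨nat_lit 5477, nat_lit 5917, ⟨.ofNat (nat_lit 185864), .ofNat (nat_lit 264398), .ofNat (nat_lit 207203), .ofNat (nat_lit 285737), .ofNat (nat_lit 200266), .ofNat (nat_lit 275199), .ofNat (nat_lit 221623), .ofNat (nat_lit 296556)⟩, ⟨.ofNat (nat_lit 0), .ofNat (nat_lit 0), .ofNat (nat_lit 0), .ofNat (nat_lit 0), .ofNat (nat_lit 0), .ofNat (nat_lit 0), .ofNat (nat_lit 0), .ofNat (nat_lit 0)⟩⟩, []⟩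
noncomputable def p012_l115 : Lf2 := ⟨nat_lit 0, nat_lit 5, [nat_lit 4, nat_lit 5, nat_lit 5, nat_lit 20], true, nat_lit 0, nat_lit 0, nat_lit 0, nat_lit 0, ⟨nat_lit 0, nat_lit 0, nat_lit 1000, nat_lit 5, nat_lit 85, nat_lit 0, nat_lit 0, nat_lit 0, nat_lit 0, nat_lit 215, nat_lit 66150, nat_lit 278, nat_lit 64133533, nat_lit 0, nat_lit 0, nat_lit 883439, false, false⟩,
 nat_lit 0, nat_lit 6930, nat_lit 0, nat_lit 0, nat_lit 4033, nat_lit 0, nat_lit 0, nat_lit 0, nat_lit 0, nat_lit 0, nat_lit 0, nat_lit 0, nat_lit 0, nat_lit 0, nat_lit 67, nat_lit 516400, nat_lit 0, nat_lit 0, [(nat_lit 9, [(nat_lit 5, nat_lit 806), (nat_lit 6, nat_lit 194)])],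
 ⟨p012_k6, nat_lit 0, nat_lit 0, nat_lit 314, nat_lit 0, nat_lit 278537, [nat_lit 2555720000, nat_lit 19316000], [], [nat_lit 15529085397, nat_lit 16649677196, nat_lit 16986187270, nat_lit 15634170000], nat_lit 1271250, nat_lit 1271250, nat_lit 43600, nat_lit 490000, nat_lit 0, nat_lit 0, [nat_lit 1100000, nat_lit 1785000], [nat_lit 39, nat_lit 40, nat_lit 20, nat_lit 80, nat_lit 7, nat_lit 226, nat_lit 20, nat_lit 8]⟩, C1.Rw.none,
 ⟨nat_lit 5477, nat_lit 5917, ⟨.ofNat (nat_lit 123037), .ofNat (nat_lit 264398), .ofNat (nat_lit 144377), .ofNat (nat_lit 285737), .ofNat (nat_lit 140320), .ofNat (nat_lit 275199), .ofNat (nat_lit 161677), .ofNat (nat_lit 296556)⟩, ⟨.ofNat (nat_lit 0), .ofNat (nat_lit 0), .ofNat (nat_lit 0), .ofNat (nat_lit 0), .ofNat (nat_lit 0), .ofNat (nat_lit 0), .ofNat (nat_lit 0), .ofNat (nat_lit 0)⟩⟩, [⟨nat_lit 0, nat_lit 100, nat_lit 92, nat_lit 49, nat_lit 51223081⟩]⟩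
noncomputable def p012_l116 : Lf2 := ⟨nat_lit 0, nat_lit 5, [nat_lit 4, nat_lit 5, nat_lit 5, nat_lit 20], false, nat_lit 0, nat_lit 0, nat_lit 0, nat_lit 0, ⟨nat_lit 1000, nat_lit 0, nat_lit 0, nat_lit 0, nat_lit 0, nat_lit 0, nat_lit 0, nat_lit 0, nat_lit 0, nat_lit 0, nat_lit 0, nat_lit 0, nat_lit 0, nat_lit 0, nat_lit 0, nat_lit 0, false, false⟩,
 nat_lit 0, nat_lit 15586, nat_lit 0, nat_lit 0, nat_lit 9072, nat_lit 10141, nat_lit 1898, nat_lit 0, nat_lit 0, nat_lit 3946, nat_lit 0, nat_lit 0, nat_lit 0, nat_lit 0, nat_lit 0, nat_lit 0, nat_lit 0, nat_lit 0, [],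
 ⟨p012_k11, nat_lit 0, nat_lit 0, nat_lit 557, nat_lit 0, nat_lit 867534, [nat_lit 4688000000, nat_lit 6250000000, nat_lit 7968000000], [], [nat_lit 24191408000, nat_lit 20044655192, nat_lit 23299101468, nat_lit 19441555744], nat_lit 1271250, nat_lit 1271250, nat_lit 490000, nat_lit 1100001, nat_lit 0, nat_lit 0, [nat_lit 1100000, nat_lit 1442500, nat_lit 1271250], [nat_lit 9, nat_lit 40, nat_lit 20, nat_lit 80, nat_lit 2, nat_lit 249, nat_lit 40, nat_lit 8]⟩, ⟨p012_k22, nat_lit 0, nat_lit 0, nat_lit 208, nat_lit 0, nat_lit 0, [nat_lit 6250000000, nat_lit 7968000000, nat_lit 11872000000], [], [nat_lit 17557350218, nat_lit 18961672412, nat_lit 17772207020, nat_lit 19093878800], nat_lit 0, nat_lit 0, nat_lit 0, nat_lit 0, nat_lit 0, nat_lit 0, [], [nat_lit 53, nat_lit 40, nat_lit 20, nat_lit 80, nat_lit 14, nat_lit 317, nat_lit 100, nat_lit 9]⟩,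
 zbF0, []⟩
noncomputable def p012_l117 : Lf2 := ⟨nat_lit 0, nat_lit 5, [nat_lit 4, nat_lit 5, nat_lit 5, nat_lit 20], false, nat_lit 0, nat_lit 0, nat_lit 0, nat_lit 0, ⟨nat_lit 1000, nat_lit 0, nat_lit 0, nat_lit 0, nat_lit 0, nat_lit 0, nat_lit 0, nat_lit 0, nat_lit 0, nat_lit 0, nat_lit 0, nat_lit 0, nat_lit 0, nat_lit 0, nat_lit 0, nat_lit 0, false, false⟩,
 nat_lit 0, nat_lit 12400, nat_lit 0, nat_lit 0, nat_lit 7217, nat_lit 11400, nat_lit 2880, nat_lit 0, nat_lit 0, nat_lit 1701, nat_lit 0, nat_lit 0, nat_lit 0, nat_lit 0, nat_lit 0, nat_lit 0, nat_lit 0, nat_lit 0, [],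
 ⟨p012_k6, nat_lit 0, nat_lit 0, nat_lit 520, nat_lit 0, nat_lit 867534, [nat_lit 4688000000, nat_lit 7968000000], [], [nat_lit 24760509098, nat_lit 24339411352, nat_lit 33483802250, nat_lit 30083108548], nat_lit 1271250, nat_lit 1271250, nat_lit 1100001, nat_lit 1785000, nat_lit 0, nat_lit 0, [nat_lit 1100000, nat_lit 1785000], [nat_lit 39, nat_lit 40, nat_lit 20, nat_lit 80, nat_lit 7, nat_lit 272, nat_lit 60, nat_lit 9]⟩, ⟨p012_k19, nat_lit 0, nat_lit 0, nat_lit 190, nat_lit 0, nat_lit 0, [nat_lit 6250000000, nat_lit 9842000000, nat_lit 11872000000], [], [nat_lit 23053096000, nat_lit 24368630000, nat_lit 26763017600, nat_lit 27775654000], nat_lit 0, nat_lit 0, nat_lit 0, nat_lit 0, nat_lit 0, nat_lit 0, [], [nat_lit 46, nat_lit 40, nat_lit 20, nat_lit 80, nat_lit 41, nat_lit 345, nat_lit 125, nat_lit 9]⟩,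
 zbF0, []⟩
noncomputable def p012_l118 : Lf2 := ⟨nat_lit 0, nat_lit 5, [nat_lit 4, nat_lit 5, nat_lit 5, nat_lit 20], false, nat_lit 0, nat_lit 0, nat_lit 0, nat_lit 0, ⟨nat_lit 1000, nat_lit 0, nat_lit 0, nat_lit 0, nat_lit 0, nat_lit 0, nat_lit 0, nat_lit 0, nat_lit 0, nat_lit 0, nat_lit 0, nat_lit 0, nat_lit 0, nat_lit 0, nat_lit 0, nat_lit 0, false, false⟩,
 nat_lit 0, nat_lit 11104, nat_lit 0, nat_lit 0, nat_lit 6463, nat_lit 7140, nat_lit 2748, nat_lit 0, nat_lit 0, nat_lit 1200, nat_lit 0, nat_lit 0, nat_lit 0, nat_lit 0, nat_lit 0, nat_lit 0, nat_lit 0, nat_lit 0, [],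
 ⟨p012_k6, nat_lit 0, nat_lit 0, nat_lit 520, nat_lit 0, nat_lit 867534, [nat_lit 4688000000, nat_lit 7968000000], [], [nat_lit 30393116856, nat_lit 31017418260, nat_lit 36104810020, nat_lit 36466570704], nat_lit 1271250, nat_lit 1271250, nat_lit 1271250, nat_lit 1271250, nat_lit 0, nat_lit 0, [nat_lit 1100000, nat_lit 1785000], [nat_lit 39, nat_lit 40, nat_lit 20, nat_lit 80, nat_lit 7, nat_lit 215, nat_lit 0, nat_lit 7]⟩, ⟨p012_k19, nat_lit 0, nat_lit 0, nat_lit 269, nat_lit 0, nat_lit 0, [nat_lit 6250000000, nat_lit 9842000000, nat_lit 11872000000], [], [nat_lit 30209995920, nat_lit 30928987120, nat_lit 40461900656, nat_lit 40793779624], nat_lit 0, nat_lit 0, nat_lit 0, nat_lit 0, nat_lit 0, nat_lit 0, [], [nat_lit 46, nat_lit 40, nat_lit 20, nat_lit 80, nat_lit 41, nat_lit 401, nat_lit 175, nat_lit 10]⟩,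
 zbF0, [⟨nat_lit 13, nat_lit 94, nat_lit 30, nat_lit 100, nat_lit 390413⟩]⟩
noncomputable def p012_l119 : Lf2 := ⟨nat_lit 0, nat_lit 2, [nat_lit 10, nat_lit 5, nat_lit 5, nat_lit 20], false, nat_lit 0, nat_lit 0, nat_lit 0, nat_lit 0, ⟨nat_lit 0, nat_lit 0, nat_lit 1000, nat_lit 5, nat_lit 99, nat_lit 0, nat_lit 0, nat_lit 0, nat_lit 0, nat_lit 215, nat_lit 91267, nat_lit 289, nat_lit 63155101, nat_lit 0, nat_lit 0, nat_lit 1098568, false, false⟩,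
 nat_lit 0, nat_lit 6545, nat_lit 0, nat_lit 0, nat_lit 3809, nat_lit 0, nat_lit 0, nat_lit 0, nat_lit 0, nat_lit 0, nat_lit 0, nat_lit 0, nat_lit 0, nat_lit 0, nat_lit 37, nat_lit 1000000, nat_lit 0, nat_lit 0, [(nat_lit 9, [(nat_lit 6, nat_lit 1000)])],
 ⟨p012_k16, nat_lit 0, nat_lit 0, nat_lit 303, nat_lit 0, nat_lit 362748, [nat_lit 1689600001, nat_lit 0], [], [nat_lit 14573930360, nat_lit 15200505686, nat_lit 14238716353, nat_lit 14801270088], nat_lit 1271250, nat_lit 1271250, nat_lit 43600, nat_lit 780000, nat_lit 0, nat_lit 0, [nat_lit 1100000, nat_lit 1442500], [nat_lit 31, nat_lit 40, nat_lit 20, nat_lit 80, nat_lit 3, nat_lit 238, nat_lit 30, nat_lit 10]⟩, ⟨p012_k23, nat_lit 0, nat_lit 0, nat_lit 513, nat_lit 0, nat_lit 496952, [nat_lit 0, nat_lit 0], [], [nat_lit 0, nat_lit 0, nat_lit 0, nat_lit 0], nat_lit 1271250, nat_lit 1271250, nat_lit 43600, nat_lit 780000, nat_lit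 0, nat_lit 0, [nat_lit 1412500, nat_lit 1271250], [nat_lit 51, nat_lit 40, nat_lit 20, nat_lit 80, nat_lit 1, nat_lit 317, nat_lit 100, nat_lit 10]⟩,
 ⟨nat_lit 5700, nat_lit 5917, ⟨.ofNat (nat_lit 123037), .ofNat (nat_lit 342931), .ofNat (nat_lit 144377), .ofNat (nat_lit 364271), .ofNat (nat_lit 131747), .ofNat (nat_lit 346560), .ofNat (nat_lit 153089), .ofNat (nat_lit 367902)⟩, ⟨.ofNat (nat_lit 0), .ofNat (nat_lit 0), .ofNat (nat_lit 0), .ofNat (nat_lit 0), .ofNat (nat_lit 0), .ofNat (nat_lit 0), .ofNat (nat_lit 0), .ofNat (nat_lit 0)⟩⟩, [⟨nat_lit 0, nat_lit 100, nat_lit 94, nat_lit 44, nat_lit 124151658⟩]⟩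
noncomputable def p012_l120 : Lf2 := ⟨nat_lit 0, nat_lit 2, [nat_lit 10, nat_lit 5, nat_lit 5, nat_lit 20], false, nat_lit 0, nat_lit 0, nat_lit 0, nat_lit 0, ⟨nat_lit 165, nat_lit 0, nat_lit 835, nat_lit 5, nat_lit 103, nat_lit 0, nat_lit 0, nat_lit 0, nat_lit 0, nat_lit 215, nat_lit 98817, nat_lit 292, nat_lit 62859320, nat_lit 0, nat_lit 0, nat_lit 1159469, false, false⟩,
 nat_lit 6185, nat_lit 1361, nat_lit 0, nat_lit 0, nat_lit 4595, nat_lit 2650, nat_lit 271, nat_lit 0, nat_lit 0, nat_lit 819, nat_lit 0, nat_lit 0, nat_lit 0, nat_lit 0, nat_lit 0, nat_lit 835000, nat_lit 0, nat_lit 0, [(nat_lit 9, [(nat_lit 6, nat_lit 835)])],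
 ⟨p012_k21, nat_lit 0, nat_lit 0, nat_lit 314, nat_lit 0, nat_lit 391392, [nat_lit 1690016001, nat_lit 413350000], [], [nat_lit 17250804528, nat_lit 17436730793, nat_lit 21360519843, nat_lit 20277924058], nat_lit 1271250, nat_lit 1271250, nat_lit 65850, nat_lit 780000, nat_lit 0, nat_lit 0, [nat_lit 1100000, nat_lit 1442500], [nat_lit 31, nat_lit 40, nat_lit 20, nat_lit 80, nat_lit 3, nat_lit 238, nat_lit 30, nat_lit 10]⟩, ⟨p012_k24, nat_lit 0, nat_lit 0, nat_lit 574, nat_lit 0, nat_lit 561596, [nat_lit 1031250000, nat_lit 1314720000, nat_lit 1623930000], [], [nat_lit 5116023621, nat_lit 4353175556, nat_lit 5936405780, nat_lit 4634667480], nat_lit 1271250, nat_lit 1271250, nat_lit 65850, nat_lit 780000, nat_lit 0, nat_lit 0, [nat_lit 1412500, nat_lit 1271250, nat_lit 1271250], [nat_lit 25, nat_lit 40, nat_lit 20, nat_lit 80, nat_lit 17, nat_lit 317, nat_lit 100, nat_lit 10]⟩,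
 ⟨nat_lit 5477, nat_lit 5701, ⟨.ofNat (nat_lit 139419), .ofNat (nat_lit 346560), .ofNat (nat_lit 160761), .ofNat (nat_lit 367902), .ofNat (nat_lit 147813), .ofNat (nat_lit 350132), .ofNat (nat_lit 169170), .ofNat (nat_lit 371489)⟩, ⟨.ofNat (nat_lit 0), .ofNat (nat_lit 0), .ofNat (nat_lit 0), .ofNat (nat_lit 0), .ofNat (nat_lit 0), .ofNat (nat_lit 0), .ofNat (nat_lit 0), .ofNat (nat_lit 0)⟩⟩, []⟩
noncomputable def p012_l121 : Lf2 := ⟨nat_lit 0, nat_lit 5, [nat_lit 4, nat_lit 5, nat_lit 5, nat_lit 20], false, nat_lit 0, nat_lit 0, nat_lit 0, nat_lit 0, ⟨nat_lit 0, nat_lit 0, nat_lit 1000, nat_lit 5, nat_lit 99, nat_lit 0, nat_lit 0, nat_lit 0, nat_lit 0, nat_lit 215, nat_lit 91267, nat_lit 289, nat_lit 63155101, nat_lit 0, nat_lit 0, nat_lit 1098568, false, false⟩,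
 nat_lit 0, nat_lit 6846, nat_lit 0, nat_lit 0, nat_lit 3984, nat_lit 0, nat_lit 0, nat_lit 0, nat_lit 0, nat_lit 0, nat_lit 0, nat_lit 0, nat_lit 0, nat_lit 0, nat_lit 117, nat_lit 1000000, nat_lit 0, nat_lit 0, [(nat_lit 9, [(nat_lit 6, nat_lit 1000)])],
 ⟨p012_k6, nat_lit 0, nat_lit 0, nat_lit 363, nat_lit 0, nat_lit 303737, [nat_lit 3178400000, nat_lit 158133334], [], [nat_lit 14911595057, nat_lit 15551380293, nat_lit 16697420364, nat_lit 15745865868], nat_lit 1271250, nat_lit 1271250, nat_lit 43600, nat_lit 780000, nat_lit 0, nat_lit 0, [nat_lit 1100000, nat_lit 1785000], [nat_lit 39, nat_lit 40, nat_lit 20, nat_lit 80, nat_lit 7, nat_lit 238, nat_lit 30, nat_lit 8]⟩, ⟨p012_k18, nat_lit 0, nat_lit 0, nat_lit 565, nat_lit 0, nat_lit 421016, [nat_lit 0, nat_lit 0], [], [nat_lit 0, nat_lit 0, nat_lit 0, nat_lit 0], nat_lit 1271250, nat_lit 1271250, nat_lit 43600, nat_lit 780000, nat_lit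 0, nat_lit 0, [nat_lit 1412500, nat_lit 1271250], [nat_lit 107, nat_lit 40, nat_lit 20, nat_lit 80, nat_lit 12, nat_lit 317, nat_lit 100, nat_lit 9]⟩,
 ⟨nat_lit 5700, nat_lit 5917, ⟨.ofNat (nat_lit 123037), .ofNat (nat_lit 342931), .ofNat (nat_lit 144377), .ofNat (nat_lit 364271), .ofNat (nat_lit 131747), .ofNat (nat_lit 346560), .ofNat (nat_lit 153089), .ofNat (nat_lit 367902)⟩, ⟨.ofNat (nat_lit 0), .ofNat (nat_lit 0), .ofNat (nat_lit 0), .ofNat (nat_lit 0), .ofNat (nat_lit 0), .ofNat (nat_lit 0), .ofNat (nat_lit 0), .ofNat (nat_lit 0)⟩⟩, [⟨nat_lit 0, nat_lit 100, nat_lit 94, nat_lit 44, nat_lit 42247074⟩]⟩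
noncomputable def p012_l122 : Lf2 := ⟨nat_lit 0, nat_lit 5, [nat_lit 4, nat_lit 5, nat_lit 5, nat_lit 20], false, nat_lit 0, nat_lit 0, nat_lit 0, nat_lit 0, ⟨nat_lit 0, nat_lit 0, nat_lit 1000, nat_lit 5, nat_lit 103, nat_lit 0, nat_lit 0, nat_lit 0, nat_lit 0, nat_lit 215, nat_lit 98817, nat_lit 292, nat_lit 62859320, nat_lit 0, nat_lit 0, nat_lit 1159469, false, false⟩,
 nat_lit 0, nat_lit 6472, nat_lit 0, nat_lit 0, nat_lit 3941, nat_lit 0, nat_lit 0, nat_lit 0, nat_lit 0, nat_lit 0, nat_lit 0, nat_lit 0, nat_lit 0, nat_lit 0, nat_lit 117, nat_lit 1000000, nat_lit 0, nat_lit 0, [(nat_lit 9, [(nat_lit 6, nat_lit 1000)])],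
 ⟨p012_k9, nat_lit 0, nat_lit 0, nat_lit 372, nat_lit 0, nat_lit 337063, [nat_lit 3178400000, nat_lit 158133334], [], [nat_lit 15465562154, nat_lit 16101140218, nat_lit 15129820665, nat_lit 15700877180], nat_lit 1271250, nat_lit 1271250, nat_lit 65850, nat_lit 780000, nat_lit 0, nat_lit 0, [nat_lit 1100000, nat_lit 1785000], [nat_lit 39, nat_lit 40, nat_lit 20, nat_lit 80, nat_lit 7, nat_lit 238, nat_lit 30, nat_lit 8]⟩, ⟨p012_k18, nat_lit 0, nat_lit 0, nat_lit 614, nat_lit 0, nat_lit 490055, [nat_lit 0, nat_lit 0], [], [nat_lit 0, nat_lit 0, nat_lit 0, nat_lit 0], nat_lit 1271250, nat_lit 1271250, nat_lit 65850, nat_lit 780000, nat_lit 0, nat_lit 0, [nat_lit 1412500, nat_lit 1271250], [nat_lit 107, nat_lit 40, nat_lit 20, nat_lit 80, nat_lit 12, nat_lit 317, nat_lit 100, nat_lit 9]⟩,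
 ⟨nat_lit 5477, nat_lit 5701, ⟨.ofNat (nat_lit 139419), .ofNat (nat_lit 346560), .ofNat (nat_lit 160761), .ofNat (nat_lit 367902), .ofNat (nat_lit 147813), .ofNat (nat_lit 350132), .ofNat (nat_lit 169170), .ofNat (nat_lit 371489)⟩, ⟨.ofNat (nat_lit 0), .ofNat (nat_lit 0), .ofNat (nat_lit 0), .ofNat (nat_lit 0), .ofNat (nat_lit 0), .ofNat (nat_lit 0), .ofNat (nat_lit 0), .ofNat (nat_lit 0)⟩⟩, [⟨nat_lit 0, nat_lit 100, nat_lit 92, nat_lit 49, nat_lit 123786210⟩]⟩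
noncomputable def p012_l123 : Lf2 := ⟨nat_lit 0, nat_lit 5, [nat_lit 4, nat_lit 5, nat_lit 5, nat_lit 20], false, nat_lit 0, nat_lit 0, nat_lit 0, nat_lit 0, ⟨nat_lit 0, nat_lit 0, nat_lit 1000, nat_lit 5, nat_lit 100, nat_lit 0, nat_lit 0, nat_lit 0, nat_lit 0, nat_lit 215, nat_lit 93750, nat_lit 290, nat_lit 63065372, nat_lit 0, nat_lit 0, nat_lit 1117228, false, false⟩,
 nat_lit 0, nat_lit 6887, nat_lit 0, nat_lit 0, nat_lit 4008, nat_lit 0, nat_lit 0, nat_lit 0, nat_lit 0, nat_lit 0, nat_lit 0, nat_lit 0, nat_lit 0, nat_lit 0, nat_lit 75, nat_lit 599800, nat_lit 0, nat_lit 0, [(nat_lit 9, [(nat_lit 5, nat_lit 667), (nat_lit 6, nat_lit 333)])],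
 ⟨p012_k6, nat_lit 0, nat_lit 0, nat_lit 314, nat_lit 0, nat_lit 278537, [nat_lit 2653140000, nat_lit 4762000], [], [nat_lit 15312217072, nat_lit 16595410836, nat_lit 18527669152, nat_lit 16613095648], nat_lit 1271250, nat_lit 1271250, nat_lit 43600, nat_lit 780000, nat_lit 0, nat_lit 0, [nat_lit 1100000, nat_lit 1785000], [nat_lit 39, nat_lit 40, nat_lit 20, nat_lit 80, nat_lit 7, nat_lit 238, nat_lit 30, nat_lit 8]⟩, ⟨p012_k18, nat_lit 0, nat_lit 0, nat_lit 556, nat_lit 0, nat_lit 392654, [nat_lit 0, nat_lit 0], [], [nat_lit 0, nat_lit 0, nat_lit 0, nat_lit 0], nat_lit 1271250, nat_lit 1271250, nat_lit 43600, nat_lit 780000, nat_lit 0, nat_lit 0, [nat_lit 1412500, nat_lit 1271250], [nat_lit 107, nat_lit 40, nat_lit 20, nat_lit 80, nat_lit 12, nat_lit 317, nat_lit 100, nat_lit 9]⟩,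
 ⟨nat_lit 5477, nat_lit 5917, ⟨.ofNat (nat_lit 123037), .ofNat (nat_lit 342931), .ofNat (nat_lit 144377), .ofNat (nat_lit 364271), .ofNat (nat_lit 140320), .ofNat (nat_lit 350132), .ofNat (nat_lit 161677), .ofNat (nat_lit 371489)⟩, ⟨.ofNat (nat_lit 0), .ofNat (nat_lit 0), .ofNat (nat_lit 0), .ofNat (nat_lit 0), .ofNat (nat_lit 0), .ofNat (nat_lit 0), .ofNat (nat_lit 0), .ofNat (nat_lit 0)⟩⟩, []⟩
noncomputable def p012_l124 : Lf2 := ⟨nat_lit 0, nat_lit 5, [nat_lit 4, nat_lit 5, nat_lit 5, nat_lit 20], false, nat_lit 0, nat_lit 0, nat_lit 0, nat_lit 0, ⟨nat_lit 0, nat_lit 0, nat_lit 1000, nat_lit 5, nat_lit 158, nat_lit 0, nat_lit 0, nat_lit 0, nat_lit 0, nat_lit 215, nat_lit 236017, nat_lit 334, nat_lit 57934542, nat_lit 0, nat_lit 0, nat_lit 1981742, false, false⟩,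
 nat_lit 0, nat_lit 4468, nat_lit 0, nat_lit 0, nat_lit 2600, nat_lit 0, nat_lit 0, nat_lit 0, nat_lit 0, nat_lit 0, nat_lit 0, nat_lit 0, nat_lit 0, nat_lit 0, nat_lit 100, nat_lit 835000, nat_lit 0, nat_lit 0, [(nat_lit 9, [(nat_lit 5, nat_lit 275), (nat_lit 6, nat_lit 725)])],
 ⟨p012_k6, nat_lit 0, nat_lit 0, nat_lit 314, nat_lit 0, nat_lit 468042, [nat_lit 2966900000, nat_lit 80353334], [], [nat_lit 18905788934, nat_lit 18821876000, nat_lit 19835073734, nat_lit 19691080000], nat_lit 1271250, nat_lit 1271250, nat_lit 780000, nat_lit 1100001, nat_lit 0, nat_lit 0, [nat_lit 1100000, nat_lit 1785000], [nat_lit 39, nat_lit 40, nat_lit 20, nat_lit 80, nat_lit 7, nat_lit 249, nat_lit 40, nat_lit 8]⟩, ⟨p012_k18, nat_lit 0, nat_lit 0, nat_lit 579, nat_lit 0, nat_lit 659798, [nat_lit 0, nat_lit 0], [], [nat_lit 0, nat_lit 0, nat_lit 0, nat_lit 0], nat_lit 1271250, nat_lit 1271250, nat_lit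 780000, nat_lit 1100001, nat_lit 0, nat_lit 0, [nat_lit 1412500, nat_lit 1271250], [nat_lit 107, nat_lit 40, nat_lit 20, nat_lit 80, nat_lit 12, nat_lit 317, nat_lit 100, nat_lit 8]⟩,
 ⟨nat_lit 5477, nat_lit 5917, ⟨.ofNat (nat_lit 342931), .ofNat (nat_lit 421465), .ofNat (nat_lit 364271), .ofNat (nat_lit 442804), .ofNat (nat_lit 350132), .ofNat (nat_lit 425065), .ofNat (nat_lit 371489), .ofNat (nat_lit 446423)⟩, ⟨.ofNat (nat_lit 0), .ofNat (nat_lit 0), .ofNat (nat_lit 0), .ofNat (nat_lit 0), .ofNat (nat_lit 0), .ofNat (nat_lit 0), .ofNat (nat_lit 0), .ofNat (nat_lit 0)⟩⟩, []⟩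
noncomputable def p012_l125 : Lf2 := ⟨nat_lit 0, nat_lit 5, [nat_lit 4, nat_lit 5, nat_lit 5, nat_lit 20], false, nat_lit 0, nat_lit 0, nat_lit 0, nat_lit 0, ⟨nat_lit 511, nat_lit 0, nat_lit 489, nat_lit 5, nat_lit 204, nat_lit 0, nat_lit 0, nat_lit 0, nat_lit 0, nat_lit 215, nat_lit 422, nat_lit 212, nat_lit 53141915, nat_lit 0, nat_lit 0, nat_lit 2548677, false, false⟩,
 nat_lit 14881, nat_lit 0, nat_lit 0, nat_lit 0, nat_lit 8661, nat_lit 6377, nat_lit 2061, nat_lit 0, nat_lit 0, nat_lit 486, nat_lit 0, nat_lit 0, nat_lit 0, nat_lit 0, nat_lit 0, nat_lit 489000, nat_lit 0, nat_lit 0, [(nat_lit 9, [(nat_lit 6, nat_lit 489)])],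
 ⟨p012_k6, nat_lit 0, nat_lit 0, nat_lit 307, nat_lit 0, nat_lit 468042, [nat_lit 3034397600, nat_lit 2736005200], [], [nat_lit 15304415634, nat_lit 17687445032, nat_lit 25224865650, nat_lit 22965277924], nat_lit 1271250, nat_lit 1271250, nat_lit 1100001, nat_lit 1785000, nat_lit 0, nat_lit 0, [nat_lit 1100000, nat_lit 1785000], [nat_lit 39, nat_lit 40, nat_lit 20, nat_lit 80, nat_lit 7, nat_lit 272, nat_lit 60, nat_lit 9]⟩, ⟨p012_k19, nat_lit 0, nat_lit 0, nat_lit 589, nat_lit 0, nat_lit 659798, [nat_lit 3193750000, nat_lit 5029262000, nat_lit 6066592000], [], [nat_lit 19581509360, nat_lit 17773118710, nat_lit 17686868404, nat_lit 17766731766], nat_lit 1271250, nat_lit 1271250, nat_lit 1100001, nat_lit 1785000, nat_lit 0, nat_lit 0, [nat_lit 1412500, nat_lit 1271250, nat_lit 1271250], [nat_lit 46, nat_lit 40, nat_lit 20, nat_lit 80, nat_lit 41, nat_lit 345, nat_lit 125, nat_lit 9]⟩,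
 ⟨nat_lit 5477, nat_lit 5917, ⟨.ofNat (nat_lit 421465), .ofNat (nat_lit 578514), .ofNat (nat_lit 442804), .ofNat (nat_lit 599845), .ofNat (nat_lit 425065), .ofNat (nat_lit 574913), .ofNat (nat_lit 446423), .ofNat (nat_lit 596262)⟩, ⟨.ofNat (nat_lit 0), .ofNat (nat_lit 0), .ofNat (nat_lit 0), .ofNat (nat_lit 0), .ofNat (nat_lit 0), .ofNat (nat_lit 0), .ofNat (nat_lit 0), .ofNat (nat_lit 0)⟩⟩, []⟩
noncomputable def p012_l126 : Lf2 := ⟨nat_lit 0, nat_lit 5, [nat_lit 4, nat_lit 5, nat_lit 5, nat_lit 20], false, nat_lit 0, nat_lit 0, nat_lit 0, nat_lit 0, ⟨nat_lit 1000, nat_lit 0, nat_lit 0, nat_lit 0, nat_lit 0, nat_lit 0, nat_lit 0, nat_lit 0, nat_lit 0, nat_lit 0, nat_lit 0, nat_lit 0, nat_lit 0, nat_lit 0, nat_lit 0, nat_lit 0, false, false⟩,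
 nat_lit 11008, nat_lit 0, nat_lit 9562, nat_lit 0, nat_lit 6407, nat_lit 8815, nat_lit 3178, nat_lit 0, nat_lit 0, nat_lit 882, nat_lit 0, nat_lit 0, nat_lit 0, nat_lit 0, nat_lit 0, nat_lit 0, nat_lit 0, nat_lit 0, [],
 ⟨p012_k6, nat_lit 0, nat_lit 0, nat_lit 339, nat_lit 0, nat_lit 414167, [nat_lit 4688000000, nat_lit 7968000000], [], [nat_lit 25533526154, nat_lit 25925675431, nat_lit 35332886037, nat_lit 35826491199], nat_lit 1271250, nat_lit 1271250, nat_lit 1271250, nat_lit 1271250, nat_lit 0, nat_lit 0, [nat_lit 1100000, nat_lit 1785000], [nat_lit 39, nat_lit 40, nat_lit 20, nat_lit 80, nat_lit 7, nat_lit 203, nat_lit 0, nat_lit 6]⟩, ⟨p012_k19, nat_lit 0, nat_lit 0, nat_lit 534, nat_lit 0, nat_lit 583851, [nat_lit 6250000000, nat_lit 9842000000, nat_lit 11872000000], [], [nat_lit 42000201500, nat_lit 42158185850, nat_lit 47753614260, nat_lit 47748353918], nat_lit 1271250, nat_lit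 1271250, nat_lit 1271250, nat_lit 1271250, nat_lit 0, nat_lit 0, [nat_lit 1412500, nat_lit 1271250, nat_lit 1271250], [nat_lit 46, nat_lit 40, nat_lit 20, nat_lit 80, nat_lit 41, nat_lit 401, nat_lit 175, nat_lit 10]⟩,
 zbF0, []⟩
noncomputable def p012_l127 : Lf2 := ⟨nat_lit 0, nat_lit 5, [nat_lit 4, nat_lit 5, nat_lit 5, nat_lit 20], false, nat_lit 0, nat_lit 0, nat_lit 0, nat_lit 0, ⟨nat_lit 553, nat_lit 447, nat_lit 0, nat_lit 6, nat_lit 294, nat_lit 0, nat_lit 0, nat_lit 0, nat_lit 0, nat_lit 0, nat_lit 0, nat_lit 0, nat_lit 43527258, nat_lit 23472742, nat_lit 0, nat_lit 3238281, true, true⟩,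
 nat_lit 10697, nat_lit 0, nat_lit 0, nat_lit 0, nat_lit 5279, nat_lit 4584, nat_lit 1531, nat_lit 0, nat_lit 0, nat_lit 431, nat_lit 0, nat_lit 0, nat_lit 0, nat_lit 0, nat_lit 0, nat_lit 178800, nat_lit 0, nat_lit 0, [(nat_lit 9, [(nat_lit 1, nat_lit 447)])],
 ⟨p012_k9, nat_lit 0, nat_lit 0, nat_lit 363, nat_lit 0, nat_lit 445275, [nat_lit 3818495601, nat_lit 5739615600], [], [nat_lit 25834779744, nat_lit 26214554552, nat_lit 33159104666, nat_lit 33422853411], nat_lit 1271250, nat_lit 1271250, nat_lit 1271250, nat_lit 1271250, nat_lit 0, nat_lit 0, [nat_lit 1100000, nat_lit 1785000], [nat_lit 39, nat_lit 40, nat_lit 20, nat_lit 80, nat_lit 7, nat_lit 203, nat_lit 0, nat_lit 6]⟩, ⟨p012_k19, nat_lit 0, nat_lit 0, nat_lit 567, nat_lit 0, nat_lit 659798, [nat_lit 3456250000, nat_lit 5442626000, nat_lit 6565216000], [], [nat_lit 24147557196, nat_lit 24212251228, nat_lit 26914196352, nat_lit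 26923754362], nat_lit 1271250, nat_lit 1271250, nat_lit 1271250, nat_lit 1271250, nat_lit 0, nat_lit 0, [nat_lit 1412500, nat_lit 1271250, nat_lit 1271250], [nat_lit 46, nat_lit 40, nat_lit 20, nat_lit 80, nat_lit 41, nat_lit 401, nat_lit 175, nat_lit 10]⟩,
 ⟨nat_lit 5477, nat_lit 5701, ⟨.ofNat (nat_lit 576714), .ofNat (nat_lit 875901), .ofNat (nat_lit 598054), .ofNat (nat_lit 897241), .ofNat (nat_lit 574928), .ofNat (nat_lit 867149), .ofNat (nat_lit 596283), .ofNat (nat_lit 888505)⟩, ⟨.ofNat (nat_lit 0), .ofNat (nat_lit 0), .ofNat (nat_lit 0), .ofNat (nat_lit 0), .ofNat (nat_lit 0), .ofNat (nat_lit 0), .ofNat (nat_lit 0), .ofNat (nat_lit 0)⟩⟩, []⟩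
noncomputable def p012_l128 : Lf2 := ⟨nat_lit 0, nat_lit 5, [nat_lit 4, nat_lit 5, nat_lit 5, nat_lit 20], true, nat_lit 0, nat_lit 0, nat_lit 0, nat_lit 0, ⟨nat_lit 0, nat_lit 1000, nat_lit 0, nat_lit 5, nat_lit 100, nat_lit 0, nat_lit 0, nat_lit 0, nat_lit 0, nat_lit 0, nat_lit 0, nat_lit 0, nat_lit 0, nat_lit 0, nat_lit 0, nat_lit 5000000, false, false⟩,
 nat_lit 0, nat_lit 6317, nat_lit 0, nat_lit 0, nat_lit 3677, nat_lit 0, nat_lit 1213, nat_lit 0, nat_lit 0, nat_lit 0, nat_lit 0, nat_lit 0, nat_lit 0, nat_lit 0, nat_lit 0, nat_lit 400000, nat_lit 0, nat_lit 0, [(nat_lit 9, [(nat_lit 1, nat_lit 1000)])],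
 ⟨p012_k6, nat_lit 0, nat_lit 0, nat_lit 622, nat_lit 0, nat_lit 867534, [nat_lit 2742800000, nat_lit 3014800000], [], [nat_lit 31112781702, nat_lit 30058751468, nat_lit 29087354220, nat_lit 29736568244], nat_lit 1271250, nat_lit 1271250, nat_lit 43600, nat_lit 780000, nat_lit 0, nat_lit 0, [nat_lit 1100000, nat_lit 1785000], [nat_lit 39, nat_lit 40, nat_lit 20, nat_lit 80, nat_lit 7, nat_lit 238, nat_lit 30, nat_lit 8]⟩, C1.Rw.none,
 ⟨nat_lit 5477, nat_lit 5917, ⟨.ofNat (nat_lit 123037), .ofNat (nat_lit 342931), .ofNat (nat_lit 144377), .ofNat (nat_lit 364271), .ofNat (nat_lit 140320), .ofNat (nat_lit 350132), .ofNat (nat_lit 161677), .ofNat (nat_lit 371489)⟩, ⟨.ofNat (nat_lit 0), .ofNat (nat_lit 0), .ofNat (nat_lit 0), .ofNat (nat_lit 0), .ofNat (nat_lit 0), .ofNat (nat_lit 0), .ofNat (nat_lit 0), .ofNat (nat_lit 0)⟩⟩, []⟩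
noncomputable def p012_l129 : Lf2 := ⟨nat_lit 0, nat_lit 5, [nat_lit 4, nat_lit 5, nat_lit 5, nat_lit 20], false, nat_lit 0, nat_lit 0, nat_lit 0, nat_lit 0, ⟨nat_lit 733, nat_lit 267, nat_lit 0, nat_lit 5, nat_lit 249, nat_lit 0, nat_lit 0, nat_lit 0, nat_lit 0, nat_lit 0, nat_lit 0, nat_lit 0, nat_lit 0, nat_lit 0, nat_lit 0, nat_lit 5000000, false, true⟩,
 nat_lit 0, nat_lit 9601, nat_lit 0, nat_lit 0, nat_lit 5588, nat_lit 6131, nat_lit 1187, nat_lit 0, nat_lit 0, nat_lit 2078, nat_lit 0, nat_lit 0, nat_lit 0, nat_lit 0, nat_lit 0, nat_lit 267000, nat_lit 0, nat_lit 0, [(nat_lit 9, [(nat_lit 2, nat_lit 267)])],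
 ⟨p012_k11, nat_lit 0, nat_lit 0, nat_lit 539, nat_lit 0, nat_lit 867534, [nat_lit 4147449600, nat_lit 5203146401, nat_lit 6251652599], [], [nat_lit 33928253602, nat_lit 31908882414, nat_lit 43676205871, nat_lit 41142604436], nat_lit 1271250, nat_lit 1271250, nat_lit 780000, nat_lit 3039750, nat_lit 0, nat_lit 0, [nat_lit 1100000, nat_lit 1442500, nat_lit 1271250], [nat_lit 9, nat_lit 40, nat_lit 20, nat_lit 80, nat_lit 2, nat_lit 317, nat_lit 100, nat_lit 10]⟩, ⟨p012_k22, nat_lit 0, nat_lit 0, nat_lit 253, nat_lit 0, nat_lit 0, [nat_lit 4581250000, nat_lit 5840544000, nat_lit 8702176000], [], [nat_lit 15888749470, nat_lit 16569333578, nat_lit 27778513468, nat_lit 28161269148], nat_lit 0, nat_lit 0, nat_lit 0, nat_lit 0, nat_lit 0, nat_lit 0, [], [nat_lit 53, nat_lit 40, nat_lit 20, nat_lit 80, nat_lit 14, nat_lit 401, nat_lit 175, nat_lit 11]⟩,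
 ⟨nat_lit 5477, nat_lit 5917, ⟨.ofNat (nat_lit 342931), .ofNat (nat_lit 884721), .ofNat (nat_lit 364271), .ofNat (nat_lit 906052), .ofNat (nat_lit 350132), .ofNat (nat_lit 867078), .ofNat (nat_lit 371489), .ofNat (nat_lit 888427)⟩, ⟨.ofNat (nat_lit 0), .ofNat (nat_lit 0), .ofNat (nat_lit 0), .ofNat (nat_lit 0), .ofNat (nat_lit 0), .ofNat (nat_lit 0), .ofNat (nat_lit 0), .ofNat (nat_lit 0)⟩⟩, []⟩
noncomputable def p012_l130 : Lf2 := ⟨nat_lit 0, nat_lit 5, [nat_lit 4, nat_lit 5, nat_lit 5, nat_lit 20], false, nat_lit 0, nat_lit 0, nat_lit 0, nat_lit 0, ⟨nat_lit 0, nat_lit 1000, nat_lit 0, nat_lit 5, nat_lit 146, nat_lit 0, nat_lit 0, nat_lit 0, nat_lit 0, nat_lit 0, nat_lit 0, nat_lit 0, nat_lit 0, nat_lit 0, nat_lit 0, nat_lit 5000000, false, false⟩,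
 nat_lit 0, nat_lit 3113, nat_lit 0, nat_lit 0, nat_lit 1812, nat_lit 0, nat_lit 50, nat_lit 0, nat_lit 0, nat_lit 0, nat_lit 0, nat_lit 0, nat_lit 0, nat_lit 0, nat_lit 0, nat_lit 499000, nat_lit 0, nat_lit 0, [(nat_lit 9, [(nat_lit 1, nat_lit 835), (nat_lit 2, nat_lit 165)])],
 ⟨p012_k6, nat_lit 0, nat_lit 0, nat_lit 419, nat_lit 0, nat_lit 468042, [nat_lit 2811836000, nat_lit 2780852000], [], [nat_lit 33818239528, nat_lit 34402030160, nat_lit 36484596016, nat_lit 36951787728], nat_lit 1271250, nat_lit 1271250, nat_lit 43600, nat_lit 1699500, nat_lit 0, nat_lit 0, [nat_lit 1100000, nat_lit 1785000], [nat_lit 39, nat_lit 40, nat_lit 20, nat_lit 80, nat_lit 7, nat_lit 272, nat_lit 60, nat_lit 9]⟩, ⟨p012_k18, nat_lit 0, nat_lit 0, nat_lit 698, nat_lit 0, nat_lit 659798, [nat_lit 0, nat_lit 0], [], [nat_lit 0, nat_lit 0, nat_lit 0, nat_lit 0], nat_lit 1271250, nat_lit 1271250, nat_lit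 43600, nat_lit 1699500, nat_lit 0, nat_lit 0, [nat_lit 1412500, nat_lit 1271250], [nat_lit 107, nat_lit 40, nat_lit 20, nat_lit 80, nat_lit 12, nat_lit 345, nat_lit 125, nat_lit 9]⟩,
 ⟨nat_lit 5477, nat_lit 5917, ⟨.ofNat (nat_lit 123037), .ofNat (nat_lit 578514), .ofNat (nat_lit 144377), .ofNat (nat_lit 599845), .ofNat (nat_lit 140320), .ofNat (nat_lit 574913), .ofNat (nat_lit 161677), .ofNat (nat_lit 596262)⟩, ⟨.ofNat (nat_lit 0), .ofNat (nat_lit 0), .ofNat (nat_lit 0), .ofNat (nat_lit 0), .ofNat (nat_lit 0), .ofNat (nat_lit 0), .ofNat (nat_lit 0), .ofNat (nat_lit 0)⟩⟩, []⟩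
noncomputable def p012_l131 : Lf2 := ⟨nat_lit 0, nat_lit 5, [nat_lit 4, nat_lit 5, nat_lit 5, nat_lit 20], false, nat_lit 0, nat_lit 0, nat_lit 0, nat_lit 0, ⟨nat_lit 363, nat_lit 637, nat_lit 0, nat_lit 6, nat_lit 295, nat_lit 0, nat_lit 0, nat_lit 0, nat_lit 0, nat_lit 0, nat_lit 0, nat_lit 0, nat_lit 0, nat_lit 0, nat_lit 0, nat_lit 5000000, true, true⟩,
 nat_lit 8688, nat_lit 0, nat_lit 0, nat_lit 0, nat_lit 5057, nat_lit 3723, nat_lit 1136, nat_lit 0, nat_lit 0, nat_lit 284, nat_lit 0, nat_lit 0, nat_lit 0, nat_lit 0, nat_lit 0, nat_lit 317800, nat_lit 0, nat_lit 0, [(nat_lit 9, [(nat_lit 1, nat_lit 532), (nat_lit 2, nat_lit 105)])],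
 ⟨p012_k6, nat_lit 0, nat_lit 0, nat_lit 370, nat_lit 0, nat_lit 468042, [nat_lit 3492839600, nat_lit 4636439600], [], [nat_lit 27464741324, nat_lit 27985156908, nat_lit 32430420468, nat_lit 32852331921], nat_lit 1271250, nat_lit 1271250, nat_lit 1271250, nat_lit 1271250, nat_lit 0, nat_lit 0, [nat_lit 1100000, nat_lit 1785000], [nat_lit 39, nat_lit 40, nat_lit 20, nat_lit 80, nat_lit 7, nat_lit 203, nat_lit 0, nat_lit 6]⟩, ⟨p012_k19, nat_lit 0, nat_lit 0, nat_lit 567, nat_lit 0, nat_lit 659798, [nat_lit 2268750000, nat_lit 3572646000, nat_lit 4309536000], [], [nat_lit 14491943492, nat_lit 14523319916, nat_lit 16423123428, nat_lit 16398777480], nat_lit 1271250, nat_lit 1271250, nat_lit 1271250, nat_lit 1271250, nat_lit 0, nat_lit 0, [nat_lit 1412500, nat_lit 1271250, nat_lit 1271250], [nat_lit 46, nat_lit 40, nat_lit 20, nat_lit 80, nat_lit 41, nat_lit 401, nat_lit 175, nat_lit 10]⟩,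
 ⟨nat_lit 5477, nat_lit 5917, ⟨.ofNat (nat_lit 578514), .ofNat (nat_lit 884721), .ofNat (nat_lit 599845), .ofNat (nat_lit 906052), .ofNat (nat_lit 574913), .ofNat (nat_lit 867078), .ofNat (nat_lit 596262), .ofNat (nat_lit 888427)⟩, ⟨.ofNat (nat_lit 0), .ofNat (nat_lit 0), .ofNat (nat_lit 0), .ofNat (nat_lit 0), .ofNat (nat_lit 0), .ofNat (nat_lit 0), .ofNat (nat_lit 0), .ofNat (nat_lit 0)⟩⟩, [⟨nat_lit 13, nat_lit 94, nat_lit 30, nat_lit 100, nat_lit 88471122⟩]⟩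
noncomputable def b_NL_650_500_0_0 : St := ⟨false, nat_lit 2, nat_lit 2, nat_lit 0, nat_lit 20, nat_lit 260, nat_lit 280, nat_lit 200, nat_lit 220, nat_lit 8, nat_lit 396, nat_lit 0, nat_lit 0, nat_lit 0, nat_lit 0, nat_lit 0, nat_lit 0, nat_lit 0, nat_lit 40, nat_lit 0, nat_lit 0, nat_lit 0, nat_lit 0⟩
theorem d_NL_650_500_0_0 (h : EB TB.env) : Dead b_NL_650_500_0_0 := chkB_sound0 h (T :=
(.st (nat_lit 0)
(.gv
(.st (nat_lit 1)
(.spl (nat_lit 2) (nat_lit 240)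
(.leaf p012_l101)
(.leaf p012_l102))
(.spl (nat_lit 2) (nat_lit 240)
(.leaf p012_l103)
(.spl (nat_lit 2) (nat_lit 320)
(.leaf p012_l104)
(.spl (nat_lit 2) (nat_lit 360)
(.leaf p012_l105)
(.spl (nat_lit 1) (nat_lit 210)
(.leaf p012_l106)
(.leaf p012_l107))))))
(.leaf p012_l108))
(.gv
(.st (nat_lit 1)
(.spl (nat_lit 2) (nat_lit 240)
(.spl (nat_lit 2) (nat_lit 160)
(.spl (nat_lit 2) (nat_lit 80)
(.spl (nat_lit 6) (nat_lit 20)
(.spl (nat_lit 2) (nat_lit 40)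
(.spl (nat_lit 0) (nat_lit 270)
(.spl (nat_lit 6) (nat_lit 8)
(.leaf p012_l109)
(.leaf p012_l110))
(.trZ (nat_lit 0) (nat_lit 100) (nat_lit 94) (nat_lit 35) (nat_lit 12) (.spl (nat_lit 6) (nat_lit 8)
(.leaf p012_l111)
(.leaf p012_l112))))
(.spl (nat_lit 6) (nat_lit 8)
(.leaf p012_l113)
(.leaf p012_l114)))
(.leaf p012_l115))
(.leaf p012_l116))
(.leaf p012_l117))
(.leaf p012_l118))
(.spl (nat_lit 2) (nat_lit 240)
(.spl (nat_lit 2) (nat_lit 120)
(.spl (nat_lit 6) (nat_lit 20)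
(.spl (nat_lit 6) (nat_lit 8)
(.spl (nat_lit 0) (nat_lit 270)
(.leaf p012_l119)
(.trZ (nat_lit 0) (nat_lit 100) (nat_lit 94) (nat_lit 35) (nat_lit 12) (.leaf p012_l120)))
(.spl (nat_lit 0) (nat_lit 270)
(.leaf p012_l121)
(.trZ (nat_lit 0) (nat_lit 100) (nat_lit 94) (nat_lit 35) (nat_lit 12) (.leaf p012_l122))))
(.leaf p012_l123))
(.spl (nat_lit 2) (nat_lit 160)
(.leaf p012_l124)
(.leaf p012_l125)))
(.spl (nat_lit 0) (nat_lit 270)
(.leaf p012_l126)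
(.leaf p012_l127))))
(.st (nat_lit 1)
(.spl (nat_lit 2) (nat_lit 120)
(.leaf p012_l128)
(.leaf p012_l129))
(.spl (nat_lit 2) (nat_lit 240)
(.leaf p012_l130)
(.leaf p012_l131)))))) (by decide +kernel)
noncomputable def p012_l132 : Lf2 := ⟨nat_lit 0, nat_lit 5, [nat_lit 4, nat_lit 5, nat_lit 5, nat_lit 20], true, nat_lit 0, nat_lit 0, nat_lit 0, nat_lit 0, ⟨nat_lit 0, nat_lit 0, nat_lit 1000, nat_lit 5, nat_lit 146, nat_lit 0, nat_lit 0, nat_lit 0, nat_lit 0, nat_lit 215, nat_lit 422, nat_lit 212, nat_lit 59128321, nat_lit 0, nat_lit 0, nat_lit 1809445, false, false⟩,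
 nat_lit 0, nat_lit 0, nat_lit 0, nat_lit 2882, nat_lit 3947, nat_lit 0, nat_lit 0, nat_lit 0, nat_lit 0, nat_lit 0, nat_lit 0, nat_lit 0, nat_lit 0, nat_lit 0, nat_lit 55, nat_lit 400000, nat_lit 0, nat_lit 0, [(nat_lit 9, [(nat_lit 5, nat_lit 1000)])],
 ⟨p012_k6, nat_lit 0, nat_lit 0, nat_lit 180, nat_lit 0, nat_lit 0, [nat_lit 2406400000, nat_lit 19600000], [], [nat_lit 15056980660, nat_lit 16462766756, nat_lit 17633887034, nat_lit 18720787140], nat_lit 0, nat_lit 0, nat_lit 0, nat_lit 0, nat_lit 0, nat_lit 0, [], [nat_lit 39, nat_lit 40, nat_lit 20, nat_lit 80, nat_lit 7, nat_lit 272, nat_lit 60, nat_lit 9]⟩, C1.Rw.none,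
 ⟨nat_lit 5477, nat_lit 5917, ⟨.ofNat (nat_lit 123037), .ofNat (nat_lit 578514), .ofNat (nat_lit 144377), .ofNat (nat_lit 599845), .ofNat (nat_lit 140320), .ofNat (nat_lit 574913), .ofNat (nat_lit 161677), .ofNat (nat_lit 596262)⟩, ⟨.ofNat (nat_lit 0), .ofNat (nat_lit 0), .ofNat (nat_lit 0), .ofNat (nat_lit 0), .ofNat (nat_lit 0), .ofNat (nat_lit 0), .ofNat (nat_lit 0), .ofNat (nat_lit 0)⟩⟩, [⟨nat_lit 0, nat_lit 100, nat_lit 94, nat_lit 40, nat_lit 2323844⟩]⟩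
noncomputable def p012_l133 : Lf2 := ⟨nat_lit 0, nat_lit 5, [nat_lit 4, nat_lit 5, nat_lit 5, nat_lit 20], false, nat_lit 0, nat_lit 0, nat_lit 0, nat_lit 0, ⟨nat_lit 944, nat_lit 0, nat_lit 56, nat_lit 6, nat_lit 295, nat_lit 0, nat_lit 0, nat_lit 0, nat_lit 0, nat_lit 215, nat_lit 540854, nat_lit 200, nat_lit 43418125, nat_lit 0, nat_lit 0, nat_lit 3243282, true, true⟩,
 nat_lit 0, nat_lit 0, nat_lit 0, nat_lit 48336, nat_lit 7554, nat_lit 6460, nat_lit 0, nat_lit 0, nat_lit 0, nat_lit 0, nat_lit 0, nat_lit 0, nat_lit 0, nat_lit 0, nat_lit 0, nat_lit 10360, nat_lit 0, nat_lit 0, [(nat_lit 9, [(nat_lit 3, nat_lit 56)])],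
 ⟨p012_k11, nat_lit 0, nat_lit 0, nat_lit 191, nat_lit 0, nat_lit 0, [nat_lit 7024051201, nat_lit 5899193601, nat_lit 7478806400], [], [nat_lit 27532839465, nat_lit 28775631409, nat_lit 38613170910, nat_lit 39275870915], nat_lit 0, nat_lit 0, nat_lit 0, nat_lit 0, nat_lit 0, nat_lit 0, [], [nat_lit 9, nat_lit 40, nat_lit 20, nat_lit 80, nat_lit 2, nat_lit 203, nat_lit 0, nat_lit 6]⟩, ⟨p012_k22, nat_lit 0, nat_lit 0, nat_lit 253, nat_lit 0, nat_lit 0, [nat_lit 5900000000, nat_lit 7521792000, nat_lit 11207168000], [], [nat_lit 33314571728, nat_lit 33919234128, nat_lit 41772368698, nat_lit 42022810421], nat_lit 0, nat_lit 0, nat_lit 0, nat_lit 0, nat_lit 0, nat_lit 0, [], [nat_lit 53, nat_lit 40, nat_lit 20, nat_lit 80, nat_lit 14, nat_lit 401, nat_lit 175, nat_lit 10]⟩,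
 ⟨nat_lit 5477, nat_lit 5917, ⟨.ofNat (nat_lit 578514), .ofNat (nat_lit 884721), .ofNat (nat_lit 599845), .ofNat (nat_lit 906052), .ofNat (nat_lit 574913), .ofNat (nat_lit 867078), .ofNat (nat_lit 596262), .ofNat (nat_lit 888427)⟩, ⟨.ofNat (nat_lit 0), .ofNat (nat_lit 0), .ofNat (nat_lit 0), .ofNat (nat_lit 0), .ofNat (nat_lit 0), .ofNat (nat_lit 0), .ofNat (nat_lit 0), .ofNat (nat_lit 0)⟩⟩, [⟨nat_lit 13, nat_lit 94, nat_lit 30, nat_lit 100, nat_lit 141572083⟩]⟩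
noncomputable def p012_l134 : Lf2 := ⟨nat_lit 0, nat_lit 5, [nat_lit 4, nat_lit 5, nat_lit 5, nat_lit 20], true, nat_lit 0, nat_lit 0, nat_lit 0, nat_lit 0, ⟨nat_lit 0, nat_lit 0, nat_lit 1000, nat_lit 5, nat_lit 146, nat_lit 0, nat_lit 0, nat_lit 0, nat_lit 0, nat_lit 215, nat_lit 422, nat_lit 212, nat_lit 59128321, nat_lit 0, nat_lit 0, nat_lit 1809445, false, false⟩,
 nat_lit 0, nat_lit 0, nat_lit 0, nat_lit 2882, nat_lit 3947, nat_lit 0, nat_lit 0, nat_lit 0, nat_lit 0, nat_lit 0, nat_lit 0, nat_lit 0, nat_lit 0, nat_lit 0, nat_lit 55, nat_lit 400000, nat_lit 0, nat_lit 0, [(nat_lit 9, [(nat_lit 5, nat_lit 1000)])],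
 ⟨p012_k6, nat_lit 0, nat_lit 0, nat_lit 180, nat_lit 0, nat_lit 0, [nat_lit 2406400000, nat_lit 19600000], [], [nat_lit 15056980660, nat_lit 16462766756, nat_lit 17633887034, nat_lit 18720787140], nat_lit 0, nat_lit 0, nat_lit 0, nat_lit 0, nat_lit 0, nat_lit 0, [], [nat_lit 39, nat_lit 40, nat_lit 20, nat_lit 80, nat_lit 7, nat_lit 272, nat_lit 60, nat_lit 9]⟩, C1.Rw.none,
 ⟨nat_lit 5477, nat_lit 5917, ⟨.ofNat (nat_lit 123037), .ofNat (nat_lit 578514), .ofNat (nat_lit 144377), .ofNat (nat_lit 599845), .ofNat (nat_lit 140320), .ofNat (nat_lit 574913), .ofNat (nat_lit 161677), .ofNat (nat_lit 596262)⟩, ⟨.ofNat (nat_lit 0), .ofNat (nat_lit 0), .ofNat (nat_lit 0), .ofNat (nat_lit 0), .ofNat (nat_lit 0), .ofNat (nat_lit 0), .ofNat (nat_lit 0), .ofNat (nat_lit 0)⟩⟩, [⟨nat_lit 0, nat_lit 100, nat_lit 94, nat_lit 40, nat_lit 2323844⟩]⟩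
noncomputable def p012_l135 : Lf2 := ⟨nat_lit 0, nat_lit 5, [nat_lit 4, nat_lit 5, nat_lit 5, nat_lit 20], false, nat_lit 0, nat_lit 0, nat_lit 0, nat_lit 0, ⟨nat_lit 1000, nat_lit 0, nat_lit 0, nat_lit 0, nat_lit 0, nat_lit 0, nat_lit 0, nat_lit 0, nat_lit 0, nat_lit 0, nat_lit 0, nat_lit 0, nat_lit 0, nat_lit 0, nat_lit 0, nat_lit 0, false, false⟩,
 nat_lit 0, nat_lit 0, nat_lit 17783, nat_lit 0, nat_lit 5726, nat_lit 7621, nat_lit 0, nat_lit 0, nat_lit 0, nat_lit 1870, nat_lit 0, nat_lit 0, nat_lit 0, nat_lit 0, nat_lit 0, nat_lit 0, nat_lit 0, nat_lit 0, [],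
 ⟨p012_k11, nat_lit 0, nat_lit 0, nat_lit 191, nat_lit 0, nat_lit 0, [nat_lit 4688000000, nat_lit 6250000000, nat_lit 7968000000], [], [nat_lit 27840250616, nat_lit 28923940752, nat_lit 37360802308, nat_lit 37982717439], nat_lit 0, nat_lit 0, nat_lit 0, nat_lit 0, nat_lit 0, nat_lit 0, [], [nat_lit 9, nat_lit 40, nat_lit 20, nat_lit 80, nat_lit 2, nat_lit 203, nat_lit 0, nat_lit 6]⟩, ⟨p012_k22, nat_lit 0, nat_lit 0, nat_lit 410, nat_lit 0, nat_lit 335019, [nat_lit 6250000000, nat_lit 7968000000, nat_lit 11872000000], [], [nat_lit 33713965280, nat_lit 33981680538, nat_lit 40029513472, nat_lit 40224428705], nat_lit 1271250, nat_lit 1271250, nat_lit 1271250, nat_lit 1271250, nat_lit 0, nat_lit 0, [nat_lit 1412500, nat_lit 1271250, nat_lit 1271250], [nat_lit 53, nat_lit 40, nat_lit 20, nat_lit 80, nat_lit 14, nat_lit 401, nat_lit 175, nat_lit 10]⟩,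
 zbF0, []⟩
noncomputable def p012_l136 : Lf2 := ⟨nat_lit 0, nat_lit 5, [nat_lit 4, nat_lit 5, nat_lit 5, nat_lit 20], true, nat_lit 0, nat_lit 0, nat_lit 0, nat_lit 0, ⟨nat_lit 0, nat_lit 1000, nat_lit 0, nat_lit 5, nat_lit 206, nat_lit 0, nat_lit 0, nat_lit 0, nat_lit 0, nat_lit 0, nat_lit 0, nat_lit 0, nat_lit 0, nat_lit 0, nat_lit 0, nat_lit 5000000, false, true⟩,
 nat_lit 0, nat_lit 0, nat_lit 0, nat_lit 3804, nat_lit 4256, nat_lit 0, nat_lit 0, nat_lit 0, nat_lit 0, nat_lit 0, nat_lit 0, nat_lit 0, nat_lit 0, nat_lit 0, nat_lit 0, nat_lit 400000, nat_lit 0, nat_lit 0, [(nat_lit 9, [(nat_lit 1, nat_lit 1000)])],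
 ⟨p012_k6, nat_lit 0, nat_lit 0, nat_lit 181, nat_lit 0, nat_lit 0, [nat_lit 2742800000, nat_lit 3014800000], [], [nat_lit 20448465722, nat_lit 21768390036, nat_lit 30940465124, nat_lit 31607643668], nat_lit 0, nat_lit 0, nat_lit 0, nat_lit 0, nat_lit 0, nat_lit 0, [], [nat_lit 39, nat_lit 40, nat_lit 20, nat_lit 80, nat_lit 7, nat_lit 317, nat_lit 100, nat_lit 11]⟩, C1.Rw.none,
 ⟨nat_lit 5477, nat_lit 5917, ⟨.ofNat (nat_lit 123037), .ofNat (nat_lit 884721), .ofNat (nat_lit 144377), .ofNat (nat_lit 906052), .ofNat (nat_lit 140320), .ofNat (nat_lit 867078), .ofNat (nat_lit 161677), .ofNat (nat_lit 888427)⟩, ⟨.ofNat (nat_lit 0), .ofNat (nat_lit 0), .ofNat (nat_lit 0), .ofNat (nat_lit 0), .ofNat (nat_lit 0), .ofNat (nat_lit 0), .ofNat (nat_lit 0), .ofNat (nat_lit 0)⟩⟩, [⟨nat_lit 13, nat_lit 96, nat_lit 20, nat_lit 100, nat_lit 177063434⟩]⟩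
noncomputable def p012_l137 : Lf2 := ⟨nat_lit 0, nat_lit 5, [nat_lit 4, nat_lit 5, nat_lit 5, nat_lit 20], true, nat_lit 0, nat_lit 0, nat_lit 0, nat_lit 0, ⟨nat_lit 0, nat_lit 0, nat_lit 1000, nat_lit 5, nat_lit 100, nat_lit 0, nat_lit 0, nat_lit 0, nat_lit 0, nat_lit 215, nat_lit 93750, nat_lit 290, nat_lit 63065372, nat_lit 0, nat_lit 0, nat_lit 1117228, false, false⟩,
 nat_lit 0, nat_lit 7104, nat_lit 0, nat_lit 0, nat_lit 4134, nat_lit 0, nat_lit 0, nat_lit 0, nat_lit 0, nat_lit 0, nat_lit 0, nat_lit 0, nat_lit 0, nat_lit 0, nat_lit 55, nat_lit 400000, nat_lit 0, nat_lit 0, [(nat_lit 9, [(nat_lit 5, nat_lit 1000)])],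
 ⟨p012_k6, nat_lit 0, nat_lit 0, nat_lit 288, nat_lit 0, nat_lit 191492, [nat_lit 2406400000, nat_lit 19600000], [], [nat_lit 15759399368, nat_lit 16865043980, nat_lit 19455425296, nat_lit 17480663104], nat_lit 1271250, nat_lit 1271250, nat_lit 43600, nat_lit 780000, nat_lit 0, nat_lit 0, [nat_lit 1100000, nat_lit 1785000], [nat_lit 39, nat_lit 40, nat_lit 20, nat_lit 80, nat_lit 7, nat_lit 238, nat_lit 30, nat_lit 8]⟩, C1.Rw.none,
 ⟨nat_lit 5477, nat_lit 5917, ⟨.ofNat (nat_lit 123037), .ofNat (nat_lit 342931), .ofNat (nat_lit 144377), .ofNat (nat_lit 364271), .ofNat (nat_lit 140320), .ofNat (nat_lit 350132), .ofNat (nat_lit 161677), .ofNat (nat_lit 371489)⟩, ⟨.ofNat (nat_lit 0), .ofNat (nat_lit 0), .ofNat (nat_lit 0), .ofNat (nat_lit 0), .ofNat (nat_lit 0), .ofNat (nat_lit 0), .ofNat (nat_lit 0), .ofNat (nat_lit 0)⟩⟩, [⟨nat_lit 0, nat_lit 100, nat_lit 92, nat_lit 49, nat_lit 27248899⟩]⟩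
noncomputable def p012_l138 : Lf2 := ⟨nat_lit 0, nat_lit 5, [nat_lit 4, nat_lit 5, nat_lit 5, nat_lit 20], false, nat_lit 0, nat_lit 0, nat_lit 0, nat_lit 0, ⟨nat_lit 1000, nat_lit 0, nat_lit 0, nat_lit 0, nat_lit 0, nat_lit 0, nat_lit 0, nat_lit 0, nat_lit 0, nat_lit 0, nat_lit 0, nat_lit 0, nat_lit 0, nat_lit 0, nat_lit 0, nat_lit 0, false, false⟩,
 nat_lit 0, nat_lit 11620, nat_lit 0, nat_lit 0, nat_lit 6763, nat_lit 6841, nat_lit 0, nat_lit 0, nat_lit 0, nat_lit 0, nat_lit 0, nat_lit 0, nat_lit 0, nat_lit 0, nat_lit 0, nat_lit 0, nat_lit 0, nat_lit 0, [],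
 ⟨p012_k6, nat_lit 0, nat_lit 0, nat_lit 263, nat_lit 0, nat_lit 191492, [nat_lit 4688000000, nat_lit 7968000000], [], [nat_lit 32288010118, nat_lit 31989254148, nat_lit 53313588372, nat_lit 50286626473], nat_lit 1271250, nat_lit 1271250, nat_lit 780000, nat_lit 3039750, nat_lit 0, nat_lit 0, [nat_lit 1100000, nat_lit 1785000], [nat_lit 39, nat_lit 40, nat_lit 20, nat_lit 80, nat_lit 7, nat_lit 317, nat_lit 100, nat_lit 10]⟩, ⟨p012_k19, nat_lit 0, nat_lit 0, nat_lit 269, nat_lit 0, nat_lit 0, [nat_lit 6250000000, nat_lit 9842000000, nat_lit 11872000000], [], [nat_lit 32497368040, nat_lit 33357062964, nat_lit 44251003941, nat_lit 44514441688], nat_lit 0, nat_lit 0, nat_lit 0, nat_lit 0, nat_lit 0, nat_lit 0, [], [nat_lit 46, nat_lit 40, nat_lit 20, nat_lit 80, nat_lit 41, nat_lit 401, nat_lit 175, nat_lit 11]⟩,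
 zbF0, []⟩
noncomputable def p012_l139 : Lf2 := ⟨nat_lit 0, nat_lit 5, [nat_lit 4, nat_lit 5, nat_lit 5, nat_lit 20], true, nat_lit 0, nat_lit 0, nat_lit 0, nat_lit 0, ⟨nat_lit 0, nat_lit 0, nat_lit 1000, nat_lit 5, nat_lit 100, nat_lit 0, nat_lit 0, nat_lit 0, nat_lit 0, nat_lit 215, nat_lit 93750, nat_lit 290, nat_lit 63065372, nat_lit 0, nat_lit 0, nat_lit 1117228, false, false⟩,
 nat_lit 0, nat_lit 7104, nat_lit 0, nat_lit 0, nat_lit 4134, nat_lit 0, nat_lit 0, nat_lit 0, nat_lit 0, nat_lit 0, nat_lit 0, nat_lit 0, nat_lit 0, nat_lit 0, nat_lit 55, nat_lit 400000, nat_lit 0, nat_lit 0, [(nat_lit 9, [(nat_lit 5, nat_lit 1000)])],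
 ⟨p012_k6, nat_lit 0, nat_lit 0, nat_lit 288, nat_lit 0, nat_lit 191492, [nat_lit 2406400000, nat_lit 19600000], [], [nat_lit 15759399368, nat_lit 16865043980, nat_lit 19455425296, nat_lit 17480663104], nat_lit 1271250, nat_lit 1271250, nat_lit 43600, nat_lit 780000, nat_lit 0, nat_lit 0, [nat_lit 1100000, nat_lit 1785000], [nat_lit 39, nat_lit 40, nat_lit 20, nat_lit 80, nat_lit 7, nat_lit 238, nat_lit 30, nat_lit 8]⟩, C1.Rw.none,
 ⟨nat_lit 5477, nat_lit 5917, ⟨.ofNat (nat_lit 123037), .ofNat (nat_lit 342931), .ofNat (nat_lit 144377), .ofNat (nat_lit 364271), .ofNat (nat_lit 140320), .ofNat (nat_lit 350132), .ofNat (nat_lit 161677), .ofNat (nat_lit 371489)⟩, ⟨.ofNat (nat_lit 0), .ofNat (nat_lit 0), .ofNat (nat_lit 0), .ofNat (nat_lit 0), .ofNat (nat_lit 0), .ofNat (nat_lit 0), .ofNat (nat_lit 0), .ofNat (nat_lit 0)⟩⟩, [⟨nat_lit 0, nat_lit 100, nat_lit 92, nat_lit 49, nat_lit 27248899⟩]⟩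
noncomputable def p012_l140 : Lf2 := ⟨nat_lit 0, nat_lit 5, [nat_lit 4, nat_lit 5, nat_lit 5, nat_lit 20], true, nat_lit 0, nat_lit 0, nat_lit 0, nat_lit 0, ⟨nat_lit 0, nat_lit 0, nat_lit 1000, nat_lit 5, nat_lit 189, nat_lit 0, nat_lit 0, nat_lit 0, nat_lit 0, nat_lit 215, nat_lit 422, nat_lit 212, nat_lit 54780533, nat_lit 0, nat_lit 0, nat_lit 2374915, false, false⟩,
 nat_lit 0, nat_lit 7369, nat_lit 0, nat_lit 4689, nat_lit 4289, nat_lit 0, nat_lit 0, nat_lit 0, nat_lit 0, nat_lit 0, nat_lit 0, nat_lit 0, nat_lit 0, nat_lit 0, nat_lit 55, nat_lit 400000, nat_lit 0, nat_lit 0, [(nat_lit 9, [(nat_lit 5, nat_lit 1000)])],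
 ⟨p012_k6, nat_lit 0, nat_lit 0, nat_lit 214, nat_lit 0, nat_lit 191492, [nat_lit 2406400000, nat_lit 19600000], [], [nat_lit 19992630354, nat_lit 17759013512, nat_lit 19403117910, nat_lit 18426858616], nat_lit 1271250, nat_lit 1271250, nat_lit 780000, nat_lit 1762500, nat_lit 0, nat_lit 0, [nat_lit 1100000, nat_lit 1785000], [nat_lit 39, nat_lit 40, nat_lit 20, nat_lit 80, nat_lit 7, nat_lit 272, nat_lit 60, nat_lit 9]⟩, C1.Rw.none,
 ⟨nat_lit 5477, nat_lit 5917, ⟨.ofNat (nat_lit 342931), .ofNat (nat_lit 578514), .ofNat (nat_lit 364271), .ofNat (nat_lit 599845), .ofNat (nat_lit 350132), .ofNat (nat_lit 574913), .ofNat (nat_lit 371489), .ofNat (nat_lit 596262)⟩, ⟨.ofNat (nat_lit 0), .ofNat (nat_lit 0), .ofNat (nat_lit 0), .ofNat (nat_lit 0), .ofNat (nat_lit 0), .ofNat (nat_lit 0), .ofNat (nat_lit 0), .ofNat (nat_lit 0)⟩⟩, []⟩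
noncomputable def p012_l141 : Lf2 := ⟨nat_lit 0, nat_lit 5, [nat_lit 4, nat_lit 5, nat_lit 5, nat_lit 20], false, nat_lit 0, nat_lit 0, nat_lit 0, nat_lit 0, ⟨nat_lit 966, nat_lit 0, nat_lit 34, nat_lit 6, nat_lit 295, nat_lit 0, nat_lit 0, nat_lit 0, nat_lit 0, nat_lit 215, nat_lit 540854, nat_lit 200, nat_lit 43418125, nat_lit 0, nat_lit 0, nat_lit 3243282, true, true⟩,
 nat_lit 18483, nat_lit 0, nat_lit 0, nat_lit 0, nat_lit 8044, nat_lit 7921, nat_lit 0, nat_lit 0, nat_lit 0, nat_lit 816, nat_lit 0, nat_lit 0, nat_lit 0, nat_lit 0, nat_lit 0, nat_lit 6290, nat_lit 0, nat_lit 0, [(nat_lit 9, [(nat_lit 3, nat_lit 34)])],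
 ⟨p012_k6, nat_lit 0, nat_lit 0, nat_lit 234, nat_lit 0, nat_lit 105472, [nat_lit 6106316800, nat_lit 7670989600], [], [nat_lit 31429435848, nat_lit 32295205936, nat_lit 39992933968, nat_lit 40532481184], nat_lit 1271250, nat_lit 1271250, nat_lit 1271250, nat_lit 1271250, nat_lit 0, nat_lit 0, [nat_lit 1100000, nat_lit 1785000], [nat_lit 39, nat_lit 40, nat_lit 20, nat_lit 80, nat_lit 7, nat_lit 203, nat_lit 0, nat_lit 6]⟩, ⟨p012_k19, nat_lit 0, nat_lit 0, nat_lit 350, nat_lit 0, nat_lit 149999, [nat_lit 6037500000, nat_lit 9507372000, nat_lit 11468352000], [], [nat_lit 37013542444, nat_lit 37261251542, nat_lit 43875642811, nat_lit 43990177996], nat_lit 1271250, nat_lit 1271250, nat_lit 1271250, nat_lit 1271250, nat_lit 0, nat_lit 0, [nat_lit 1412500, nat_lit 1271250, nat_lit 1271250], [nat_lit 46, nat_lit 40, nat_lit 20, nat_lit 80, nat_lit 41, nat_lit 401, nat_lit 175, nat_lit 10]⟩,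
 ⟨nat_lit 5477, nat_lit 5917, ⟨.ofNat (nat_lit 578514), .ofNat (nat_lit 884721), .ofNat (nat_lit 599845), .ofNat (nat_lit 906052), .ofNat (nat_lit 574913), .ofNat (nat_lit 867078), .ofNat (nat_lit 596262), .ofNat (nat_lit 888427)⟩, ⟨.ofNat (nat_lit 0), .ofNat (nat_lit 0), .ofNat (nat_lit 0), .ofNat (nat_lit 0), .ofNat (nat_lit 0), .ofNat (nat_lit 0), .ofNat (nat_lit 0), .ofNat (nat_lit 0)⟩⟩, [⟨nat_lit 13, nat_lit 96, nat_lit 20, nat_lit 100, nat_lit 5899256⟩]⟩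
noncomputable def p012_l142 : Lf2 := ⟨nat_lit 0, nat_lit 5, [nat_lit 4, nat_lit 5, nat_lit 5, nat_lit 20], true, nat_lit 0, nat_lit 0, nat_lit 0, nat_lit 0, ⟨nat_lit 0, nat_lit 1000, nat_lit 0, nat_lit 5, nat_lit 146, nat_lit 0, nat_lit 0, nat_lit 0, nat_lit 0, nat_lit 0, nat_lit 0, nat_lit 0, nat_lit 0, nat_lit 0, nat_lit 0, nat_lit 5000000, false, false⟩,
 nat_lit 0, nat_lit 11666, nat_lit 0, nat_lit 0, nat_lit 6790, nat_lit 0, nat_lit 0, nat_lit 0, nat_lit 0, nat_lit 0, nat_lit 0, nat_lit 0, nat_lit 0, nat_lit 0, nat_lit 0, nat_lit 981400, nat_lit 0, nat_lit 0, [(nat_lit 9, [(nat_lit 1, nat_lit 31), (nat_lit 2, nat_lit 969)])],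
 ⟨p012_k6, nat_lit 0, nat_lit 0, nat_lit 288, nat_lit 0, nat_lit 191492, [nat_lit 3148229600, nat_lit 1640887200], [], [nat_lit 34771018525, nat_lit 31191778664, nat_lit 33691033720, nat_lit 30575971840], nat_lit 1271250, nat_lit 1271250, nat_lit 43600, nat_lit 1699500, nat_lit 0, nat_lit 0, [nat_lit 1100000, nat_lit 1785000], [nat_lit 39, nat_lit 40, nat_lit 20, nat_lit 80, nat_lit 7, nat_lit 272, nat_lit 60, nat_lit 9]⟩, C1.Rw.none,
 ⟨nat_lit 5477, nat_lit 5917, ⟨.ofNat (nat_lit 123037), .ofNat (nat_lit 578514), .ofNat (nat_lit 144377), .ofNat (nat_lit 599845), .ofNat (nat_lit 140320), .ofNat (nat_lit 574913), .ofNat (nat_lit 161677), .ofNat (nat_lit 596262)⟩, ⟨.ofNat (nat_lit 0), .ofNat (nat_lit 0), .ofNat (nat_lit 0), .ofNat (nat_lit 0), .ofNat (nat_lit 0), .ofNat (nat_lit 0), .ofNat (nat_lit 0), .ofNat (nat_lit 0)⟩⟩, []⟩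
noncomputable def p012_l143 : Lf2 := ⟨nat_lit 0, nat_lit 5, [nat_lit 4, nat_lit 5, nat_lit 5, nat_lit 20], true, nat_lit 0, nat_lit 0, nat_lit 0, nat_lit 0, ⟨nat_lit 0, nat_lit 1000, nat_lit 0, nat_lit 6, nat_lit 295, nat_lit 0, nat_lit 0, nat_lit 0, nat_lit 0, nat_lit 0, nat_lit 0, nat_lit 0, nat_lit 0, nat_lit 0, nat_lit 0, nat_lit 5000000, true, true⟩,
 nat_lit 0, nat_lit 7760, nat_lit 0, nat_lit 0, nat_lit 4516, nat_lit 0, nat_lit 283, nat_lit 0, nat_lit 0, nat_lit 0, nat_lit 0, nat_lit 0, nat_lit 0, nat_lit 0, nat_lit 0, nat_lit 400000, nat_lit 0, nat_lit 0, [(nat_lit 9, [(nat_lit 1, nat_lit 1000)])],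
 ⟨p012_k11, nat_lit 0, nat_lit 0, nat_lit 266, nat_lit 0, nat_lit 191492, [nat_lit 2702720000, nat_lit 2862800001, nat_lit 3030799999], [], [nat_lit 24746319670, nat_lit 25453322702, nat_lit 31023496446, nat_lit 31464223429], nat_lit 1271250, nat_lit 1271250, nat_lit 1271250, nat_lit 1271250, nat_lit 0, nat_lit 0, [nat_lit 1100000, nat_lit 1442500, nat_lit 1271250], [nat_lit 9, nat_lit 40, nat_lit 20, nat_lit 80, nat_lit 2, nat_lit 203, nat_lit 0, nat_lit 6]⟩, C1.Rw.none,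
 ⟨nat_lit 5477, nat_lit 5917, ⟨.ofNat (nat_lit 578514), .ofNat (nat_lit 884721), .ofNat (nat_lit 599845), .ofNat (nat_lit 906052), .ofNat (nat_lit 574913), .ofNat (nat_lit 867078), .ofNat (nat_lit 596262), .ofNat (nat_lit 888427)⟩, ⟨.ofNat (nat_lit 0), .ofNat (nat_lit 0), .ofNat (nat_lit 0), .ofNat (nat_lit 0), .ofNat (nat_lit 0), .ofNat (nat_lit 0), .ofNat (nat_lit 0), .ofNat (nat_lit 0)⟩⟩, [⟨nat_lit 13, nat_lit 94, nat_lit 30, nat_lit 100, nat_lit 283965033⟩]⟩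
noncomputable def p012_l144 : Lf2 := ⟨nat_lit 0, nat_lit 5, [nat_lit 4, nat_lit 5, nat_lit 5, nat_lit 20], true, nat_lit 0, nat_lit 0, nat_lit 0, nat_lit 0, ⟨nat_lit 0, nat_lit 1000, nat_lit 0, nat_lit 5, nat_lit 146, nat_lit 0, nat_lit 0, nat_lit 0, nat_lit 0, nat_lit 0, nat_lit 0, nat_lit 0, nat_lit 0, nat_lit 0, nat_lit 0, nat_lit 5000000, false, false⟩,
 nat_lit 0, nat_lit 11666, nat_lit 0, nat_lit 0, nat_lit 6790, nat_lit 0, nat_lit 0, nat_lit 0, nat_lit 0, nat_lit 0, nat_lit 0, nat_lit 0, nat_lit 0, nat_lit 0, nat_lit 0, nat_lit 981400, nat_lit 0, nat_lit 0, [(nat_lit 9, [(nat_lit 1, nat_lit 31), (nat_lit 2, nat_lit 969)])],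
 ⟨p012_k6, nat_lit 0, nat_lit 0, nat_lit 288, nat_lit 0, nat_lit 191492, [nat_lit 3148229600, nat_lit 1640887200], [], [nat_lit 34771018525, nat_lit 31191778664, nat_lit 33691033720, nat_lit 30575971840], nat_lit 1271250, nat_lit 1271250, nat_lit 43600, nat_lit 1699500, nat_lit 0, nat_lit 0, [nat_lit 1100000, nat_lit 1785000], [nat_lit 39, nat_lit 40, nat_lit 20, nat_lit 80, nat_lit 7, nat_lit 272, nat_lit 60, nat_lit 9]⟩, C1.Rw.none,
 ⟨nat_lit 5477, nat_lit 5917, ⟨.ofNat (nat_lit 123037), .ofNat (nat_lit 578514), .ofNat (nat_lit 144377), .ofNat (nat_lit 599845), .ofNat (nat_lit 140320), .ofNat (nat_lit 574913), .ofNat (nat_lit 161677), .ofNat (nat_lit 596262)⟩, ⟨.ofNat (nat_lit 0), .ofNat (nat_lit 0), .ofNat (nat_lit 0), .ofNat (nat_lit 0), .ofNat (nat_lit 0), .ofNat (nat_lit 0), .ofNat (nat_lit 0), .ofNat (nat_lit 0)⟩⟩, []⟩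
noncomputable def p012_l145 : Lf2 := ⟨nat_lit 0, nat_lit 5, [nat_lit 4, nat_lit 5, nat_lit 5, nat_lit 20], true, nat_lit 0, nat_lit 0, nat_lit 0, nat_lit 0, ⟨nat_lit 0, nat_lit 1000, nat_lit 0, nat_lit 6, nat_lit 295, nat_lit 0, nat_lit 0, nat_lit 0, nat_lit 0, nat_lit 0, nat_lit 0, nat_lit 0, nat_lit 0, nat_lit 0, nat_lit 0, nat_lit 5000000, true, true⟩,
 nat_lit 0, nat_lit 7760, nat_lit 0, nat_lit 0, nat_lit 4516, nat_lit 0, nat_lit 283, nat_lit 0, nat_lit 0, nat_lit 0, nat_lit 0, nat_lit 0, nat_lit 0, nat_lit 0, nat_lit 0, nat_lit 400000, nat_lit 0, nat_lit 0, [(nat_lit 9, [(nat_lit 1, nat_lit 1000)])],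
 ⟨p012_k11, nat_lit 0, nat_lit 0, nat_lit 266, nat_lit 0, nat_lit 191492, [nat_lit 2702720000, nat_lit 2862800001, nat_lit 3030799999], [], [nat_lit 24746319670, nat_lit 25453322702, nat_lit 31023496446, nat_lit 31464223429], nat_lit 1271250, nat_lit 1271250, nat_lit 1271250, nat_lit 1271250, nat_lit 0, nat_lit 0, [nat_lit 1100000, nat_lit 1442500, nat_lit 1271250], [nat_lit 9, nat_lit 40, nat_lit 20, nat_lit 80, nat_lit 2, nat_lit 203, nat_lit 0, nat_lit 6]⟩, C1.Rw.none,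
 ⟨nat_lit 5477, nat_lit 5917, ⟨.ofNat (nat_lit 578514), .ofNat (nat_lit 884721), .ofNat (nat_lit 599845), .ofNat (nat_lit 906052), .ofNat (nat_lit 574913), .ofNat (nat_lit 867078), .ofNat (nat_lit 596262), .ofNat (nat_lit 888427)⟩, ⟨.ofNat (nat_lit 0), .ofNat (nat_lit 0), .ofNat (nat_lit 0), .ofNat (nat_lit 0), .ofNat (nat_lit 0), .ofNat (nat_lit 0), .ofNat (nat_lit 0), .ofNat (nat_lit 0)⟩⟩, [⟨nat_lit 13, nat_lit 94, nat_lit 30, nat_lit 100, nat_lit 283965033⟩]⟩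
noncomputable def b_NL_650_500_0_1 : St := ⟨false, nat_lit 2, nat_lit 2, nat_lit 0, nat_lit 20, nat_lit 260, nat_lit 280, nat_lit 200, nat_lit 220, nat_lit 8, nat_lit 396, nat_lit 0, nat_lit 0, nat_lit 0, nat_lit 0, nat_lit 0, nat_lit 0, nat_lit 40, nat_lit 52, nat_lit 0, nat_lit 0, nat_lit 0, nat_lit 0⟩
theorem d_NL_650_500_0_1 (h : EB TB.env) : Dead b_NL_650_500_0_1 := chkB_sound0 h (T :=
(.st (nat_lit 0)
(.gv
(.st (nat_lit 1)
(.spl (nat_lit 2) (nat_lit 240)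
(.leaf p012_l132)
(.leaf p012_l133))
(.spl (nat_lit 2) (nat_lit 240)
(.leaf p012_l134)
(.leaf p012_l135)))
(.leaf p012_l136))
(.gv
(.st (nat_lit 1)
(.spl (nat_lit 2) (nat_lit 120)
(.leaf p012_l137)
(.leaf p012_l138))
(.spl (nat_lit 2) (nat_lit 120)
(.leaf p012_l139)
(.spl (nat_lit 2) (nat_lit 240)
(.leaf p012_l140)
(.leaf p012_l141))))
(.st (nat_lit 1)
(.spl (nat_lit 2) (nat_lit 240)
(.leaf p012_l142)
(.leaf p012_l143))
(.spl (nat_lit 2) (nat_lit 240)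
(.leaf p012_l144)
(.leaf p012_l145)))))) (by decide +kernel)
noncomputable def p012_l146 : Lf2 := ⟨nat_lit 0, nat_lit 5, [nat_lit 4, nat_lit 5, nat_lit 5, nat_lit 20], false, nat_lit 0, nat_lit 0, nat_lit 0, nat_lit 0, ⟨nat_lit 1000, nat_lit 0, nat_lit 0, nat_lit 0, nat_lit 0, nat_lit 0, nat_lit 0, nat_lit 0, nat_lit 0, nat_lit 0, nat_lit 0, nat_lit 0, nat_lit 0, nat_lit 0, nat_lit 0, nat_lit 0, false, false⟩,
 nat_lit 0, nat_lit 0, nat_lit 0, nat_lit 1854, nat_lit 7073, nat_lit 9756, nat_lit 0, nat_lit 0, nat_lit 0, nat_lit 0, nat_lit 0, nat_lit 0, nat_lit 0, nat_lit 0, nat_lit 0, nat_lit 0, nat_lit 0, nat_lit 0, [],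
 ⟨p012_k6, nat_lit 0, nat_lit 0, nat_lit 183, nat_lit 0, nat_lit 0, [nat_lit 4688000000, nat_lit 7968000000], [], [nat_lit 25301179706, nat_lit 27348176270, nat_lit 38908090860, nat_lit 39648050188], nat_lit 0, nat_lit 0, nat_lit 0, nat_lit 0, nat_lit 0, nat_lit 0, [], [nat_lit 39, nat_lit 40, nat_lit 20, nat_lit 80, nat_lit 7, nat_lit 317, nat_lit 100, nat_lit 11]⟩, ⟨p012_k25, nat_lit 0, nat_lit 0, nat_lit 214, nat_lit 0, nat_lit 0, [nat_lit 6250000000, nat_lit 9842000000], [], [nat_lit 29489379263, nat_lit 31212251812, nat_lit 43814917232, nat_lit 44204395536], nat_lit 0, nat_lit 0, nat_lit 0, nat_lit 0, nat_lit 0, nat_lit 0, [], [nat_lit 51, nat_lit 40, nat_lit 20, nat_lit 80, nat_lit 1, nat_lit 401, nat_lit 175, nat_lit 12]⟩,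
 zbF0, [⟨nat_lit 0, nat_lit 100, nat_lit 96, nat_lit 40, nat_lit 243244664⟩]⟩
noncomputable def p012_l147 : Lf2 := ⟨nat_lit 0, nat_lit 5, [nat_lit 4, nat_lit 5, nat_lit 5, nat_lit 20], true, nat_lit 0, nat_lit 0, nat_lit 0, nat_lit 0, ⟨nat_lit 0, nat_lit 0, nat_lit 1000, nat_lit 5, nat_lit 158, nat_lit 0, nat_lit 0, nat_lit 0, nat_lit 0, nat_lit 215, nat_lit 2161, nat_lit 205, nat_lit 58001332, nat_lit 0, nat_lit 0, nat_lit 1972476, false, false⟩,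
 nat_lit 0, nat_lit 0, nat_lit 0, nat_lit 0, nat_lit 4288, nat_lit 0, nat_lit 0, nat_lit 0, nat_lit 0, nat_lit 0, nat_lit 0, nat_lit 0, nat_lit 0, nat_lit 0, nat_lit 55, nat_lit 400000, nat_lit 0, nat_lit 0, [(nat_lit 9, [(nat_lit 5, nat_lit 1000)])],
 ⟨p012_k6, nat_lit 0, nat_lit 0, nat_lit 171, nat_lit 0, nat_lit 0, [nat_lit 2406400000, nat_lit 19600000], [], [nat_lit 14474038554, nat_lit 16420631418, nat_lit 17185343136, nat_lit 18423987392], nat_lit 0, nat_lit 0, nat_lit 0, nat_lit 0, nat_lit 0, nat_lit 0, [], [nat_lit 39, nat_lit 40, nat_lit 20, nat_lit 80, nat_lit 7, nat_lit 272, nat_lit 60, nat_lit 9]⟩, C1.Rw.none,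
 ⟨nat_lit 5477, nat_lit 5917, ⟨.ofNat (nat_lit 160083), .ofNat (nat_lit 599845), .ofNat (nat_lit 181423), .ofNat (nat_lit 621176), .ofNat (nat_lit 176664), .ofNat (nat_lit 596262), .ofNat (nat_lit 198021), .ofNat (nat_lit 617611)⟩, ⟨.ofNat (nat_lit 0), .ofNat (nat_lit 0), .ofNat (nat_lit 0), .ofNat (nat_lit 0), .ofNat (nat_lit 0), .ofNat (nat_lit 0), .ofNat (nat_lit 0), .ofNat (nat_lit 0)⟩⟩, [⟨nat_lit 0, nat_lit 100, nat_lit 95, nat_lit 49, nat_lit 9875524⟩]⟩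
noncomputable def p012_l148 : Lf2 := ⟨nat_lit 0, nat_lit 5, [nat_lit 4, nat_lit 5, nat_lit 5, nat_lit 20], true, nat_lit 0, nat_lit 0, nat_lit 0, nat_lit 0, ⟨nat_lit 0, nat_lit 1000, nat_lit 0, nat_lit 6, nat_lit 274, nat_lit 0, nat_lit 0, nat_lit 0, nat_lit 0, nat_lit 0, nat_lit 0, nat_lit 0, nat_lit 45583655, nat_lit 21416345, nat_lit 0, nat_lit 3133014, true, true⟩,
 nat_lit 0, nat_lit 0, nat_lit 0, nat_lit 0, nat_lit 5225, nat_lit 0, nat_lit 0, nat_lit 0, nat_lit 0, nat_lit 0, nat_lit 0, nat_lit 0, nat_lit 0, nat_lit 0, nat_lit 0, nat_lit 250000, nat_lit 0, nat_lit 0, [(nat_lit 9, [(nat_lit 0, nat_lit 1000)])],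
 ⟨p012_k6, nat_lit 0, nat_lit 0, nat_lit 148, nat_lit 0, nat_lit 0, [nat_lit 3116800000, nat_lit 3354400000], [], [nat_lit 22245871100, nat_lit 23285956200, nat_lit 26469762600, nat_lit 27429086800], nat_lit 0, nat_lit 0, nat_lit 0, nat_lit 0, nat_lit 0, nat_lit 0, [], [nat_lit 39, nat_lit 40, nat_lit 20, nat_lit 80, nat_lit 7, nat_lit 203, nat_lit 0, nat_lit 6]⟩, C1.Rw.none,
 ⟨nat_lit 5477, nat_lit 5917, ⟨.ofNat (nat_lit 599845), .ofNat (nat_lit 756874), .ofNat (nat_lit 621176), .ofNat (nat_lit 778206), .ofNat (nat_lit 596262), .ofNat (nat_lit 746090), .ofNat (nat_lit 617611), .ofNat (nat_lit 767439)⟩, ⟨.ofNat (nat_lit 0), .ofNat (nat_lit 0), .ofNat (nat_lit 0), .ofNat (nat_lit 0), .ofNat (nat_lit 0), .ofNat (nat_lit 0), .ofNat (nat_lit 0), .ofNat (nat_lit 0)⟩⟩, []⟩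
noncomputable def p012_l149 : Lf2 := ⟨nat_lit 0, nat_lit 5, [nat_lit 4, nat_lit 5, nat_lit 5, nat_lit 20], false, nat_lit 0, nat_lit 0, nat_lit 0, nat_lit 0, ⟨nat_lit 154, nat_lit 846, nat_lit 0, nat_lit 8, nat_lit 335, nat_lit 0, nat_lit 0, nat_lit 0, nat_lit 0, nat_lit 0, nat_lit 0, nat_lit 0, nat_lit 39392465, nat_lit 27607535, nat_lit 0, nat_lit 3387984, true, true⟩,
 nat_lit 0, nat_lit 0, nat_lit 2598, nat_lit 0, nat_lit 4649, nat_lit 1242, nat_lit 0, nat_lit 0, nat_lit 0, nat_lit 351, nat_lit 0, nat_lit 0, nat_lit 0, nat_lit 0, nat_lit 0, nat_lit 738600, nat_lit 0, nat_lit 0, [(nat_lit 9, [(nat_lit 1, nat_lit 179), (nat_lit 2, nat_lit 667)])],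
 ⟨p012_k6, nat_lit 0, nat_lit 0, nat_lit 182, nat_lit 0, nat_lit 0, [nat_lit 3321433600, nat_lit 2819863734], [], [nat_lit 26609659358, nat_lit 27005547648, nat_lit 31450272440, nat_lit 31751528090], nat_lit 0, nat_lit 0, nat_lit 0, nat_lit 0, nat_lit 0, nat_lit 0, [], [nat_lit 39, nat_lit 40, nat_lit 20, nat_lit 80, nat_lit 7, nat_lit 203, nat_lit 0, nat_lit 6]⟩, ⟨p012_k25, nat_lit 0, nat_lit 0, nat_lit 733, nat_lit 0, nat_lit 1203569, [nat_lit 962500000, nat_lit 1515668000], [], [nat_lit 5723190936, nat_lit 5722084974, nat_lit 5975430276, nat_lit 5972265214], nat_lit 1271250, nat_lit 1271250, nat_lit 1271250, nat_lit 1271250, nat_lit 0, nat_lit 0, [nat_lit 1412500, nat_lit 1271250], [nat_lit 51, nat_lit 40, nat_lit 20, nat_lit 80, nat_lit 1, nat_lit 272, nat_lit 60, nat_lit 7]⟩,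
 ⟨nat_lit 5700, nat_lit 5917, ⟨.ofNat (nat_lit 756922), .ofNat (nat_lit 913979), .ofNat (nat_lit 767591), .ofNat (nat_lit 924648), .ofNat (nat_lit 751481), .ofNat (nat_lit 904909), .ofNat (nat_lit 762152), .ofNat (nat_lit 915579)⟩, ⟨.ofNat (nat_lit 0), .ofNat (nat_lit 0), .ofNat (nat_lit 0), .ofNat (nat_lit 0), .ofNat (nat_lit 0), .ofNat (nat_lit 0), .ofNat (nat_lit 0), .ofNat (nat_lit 0)⟩⟩, [⟨nat_lit 13, nat_lit 95, nat_lit 21, nat_lit 100, nat_lit 151709169⟩]⟩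
noncomputable def p012_l150 : Lf2 := ⟨nat_lit 0, nat_lit 5, [nat_lit 4, nat_lit 5, nat_lit 5, nat_lit 20], false, nat_lit 0, nat_lit 0, nat_lit 0, nat_lit 0, ⟨nat_lit 242, nat_lit 758, nat_lit 0, nat_lit 8, nat_lit 331, nat_lit 0, nat_lit 0, nat_lit 0, nat_lit 0, nat_lit 0, nat_lit 0, nat_lit 0, nat_lit 39750963, nat_lit 27249037, nat_lit 0, nat_lit 3378177, true, true⟩,
 nat_lit 0, nat_lit 0, nat_lit 4094, nat_lit 0, nat_lit 4291, nat_lit 1957, nat_lit 953, nat_lit 0, nat_lit 0, nat_lit 545, nat_lit 0, nat_lit 0, nat_lit 0, nat_lit 0, nat_lit 0, nat_lit 303200, nat_lit 0, nat_lit 0, [(nat_lit 9, [(nat_lit 1, nat_lit 758)])],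
 ⟨p012_k9, nat_lit 0, nat_lit 0, nat_lit 181, nat_lit 0, nat_lit 0, [nat_lit 3213538400, nat_lit 4194598400], [], [nat_lit 26184051826, nat_lit 26377125381, nat_lit 30503981255, nat_lit 30671514290], nat_lit 0, nat_lit 0, nat_lit 0, nat_lit 0, nat_lit 0, nat_lit 0, [], [nat_lit 39, nat_lit 40, nat_lit 20, nat_lit 80, nat_lit 7, nat_lit 203, nat_lit 0, nat_lit 6]⟩, ⟨p012_k25, nat_lit 0, nat_lit 0, nat_lit 764, nat_lit 0, nat_lit 1285821, [nat_lit 1512500000, nat_lit 2381764000], [], [nat_lit 8999058528, nat_lit 8990815650, nat_lit 9338830813, nat_lit 9328909960], nat_lit 1271250, nat_lit 1271250, nat_lit 1271250, nat_lit 1271250, nat_lit 0, nat_lit 0, [nat_lit 1412500, nat_lit 1271250], [nat_lit 51, nat_lit 40, nat_lit 20, nat_lit 80, nat_lit 1, nat_lit 272, nat_lit 60, nat_lit 7]⟩,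
 ⟨nat_lit 5590, nat_lit 5701, ⟨.ofNat (nat_lit 751495), .ofNat (nat_lit 897259), .ofNat (nat_lit 762165), .ofNat (nat_lit 907929), .ofNat (nat_lit 748812), .ofNat (nat_lit 892873), .ofNat (nat_lit 759485), .ofNat (nat_lit 903546)⟩, ⟨.ofNat (nat_lit 0), .ofNat (nat_lit 0), .ofNat (nat_lit 0), .ofNat (nat_lit 0), .ofNat (nat_lit 0), .ofNat (nat_lit 0), .ofNat (nat_lit 0), .ofNat (nat_lit 0)⟩⟩, [⟨nat_lit 13, nat_lit 94, nat_lit 25, nat_lit 100, nat_lit 116458804⟩]⟩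
noncomputable def p012_l151 : Lf2 := ⟨nat_lit 0, nat_lit 5, [nat_lit 4, nat_lit 5, nat_lit 5, nat_lit 20], false, nat_lit 0, nat_lit 0, nat_lit 0, nat_lit 0, ⟨nat_lit 210, nat_lit 790, nat_lit 0, nat_lit 8, nat_lit 330, nat_lit 0, nat_lit 0, nat_lit 0, nat_lit 0, nat_lit 0, nat_lit 0, nat_lit 0, nat_lit 39888514, nat_lit 27111486, nat_lit 0, nat_lit 3374257, true, true⟩,
 nat_lit 0, nat_lit 0, nat_lit 3552, nat_lit 0, nat_lit 4231, nat_lit 1698, nat_lit 777, nat_lit 0, nat_lit 0, nat_lit 473, nat_lit 0, nat_lit 0, nat_lit 0, nat_lit 0, nat_lit 0, nat_lit 316000, nat_lit 0, nat_lit 0, [(nat_lit 9, [(nat_lit 1, nat_lit 790)])],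
 ⟨p012_k26, nat_lit 0, nat_lit 0, nat_lit 181, nat_lit 0, nat_lit 0, [nat_lit 3151292000, nat_lit 4038592000], [], [nat_lit 26320220496, nat_lit 26512477751, nat_lit 30566571234, nat_lit 30730573827], nat_lit 0, nat_lit 0, nat_lit 0, nat_lit 0, nat_lit 0, nat_lit 0, [], [nat_lit 39, nat_lit 40, nat_lit 20, nat_lit 80, nat_lit 7, nat_lit 203, nat_lit 0, nat_lit 6]⟩, ⟨p012_k25, nat_lit 0, nat_lit 0, nat_lit 796, nat_lit 0, nat_lit 1371291, [nat_lit 1312500000, nat_lit 2066820000], [], [nat_lit 7810231180, nat_lit 7803083398, nat_lit 8105143244, nat_lit 8096609459], nat_lit 1271250, nat_lit 1271250, nat_lit 1271250, nat_lit 1271250, nat_lit 0, nat_lit 0, [nat_lit 1412500, nat_lit 1271250], [nat_lit 51, nat_lit 40, nat_lit 20, nat_lit 80, nat_lit 1, nat_lit 278, nat_lit 60, nat_lit 8]⟩,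
 ⟨nat_lit 5477, nat_lit 5591, ⟨.ofNat (nat_lit 748812), .ofNat (nat_lit 892873), .ofNat (nat_lit 759486), .ofNat (nat_lit 903547), .ofNat (nat_lit 746152), .ofNat (nat_lit 888523), .ofNat (nat_lit 756830), .ofNat (nat_lit 899201)⟩, ⟨.ofNat (nat_lit 0), .ofNat (nat_lit 0), .ofNat (nat_lit 0), .ofNat (nat_lit 0), .ofNat (nat_lit 0), .ofNat (nat_lit 0), .ofNat (nat_lit 0), .ofNat (nat_lit 0)⟩⟩, [⟨nat_lit 13, nat_lit 93, nat_lit 27, nat_lit 100, nat_lit 126554188⟩]⟩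
noncomputable def p012_l152 : Lf2 := ⟨nat_lit 0, nat_lit 5, [nat_lit 4, nat_lit 5, nat_lit 5, nat_lit 20], false, nat_lit 0, nat_lit 0, nat_lit 0, nat_lit 0, ⟨nat_lit 350, nat_lit 650, nat_lit 0, nat_lit 8, nat_lit 339, nat_lit 0, nat_lit 0, nat_lit 0, nat_lit 0, nat_lit 0, nat_lit 0, nat_lit 0, nat_lit 38980448, nat_lit 28019552, nat_lit 0, nat_lit 3398524, true, true⟩,
 nat_lit 0, nat_lit 0, nat_lit 5585, nat_lit 0, nat_lit 4423, nat_lit 2812, nat_lit 1619, nat_lit 0, nat_lit 0, nat_lit 521, nat_lit 0, nat_lit 0, nat_lit 0, nat_lit 0, nat_lit 0, nat_lit 260000, nat_lit 0, nat_lit 0, [(nat_lit 9, [(nat_lit 1, nat_lit 650)])],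
 ⟨p012_k6, nat_lit 0, nat_lit 0, nat_lit 182, nat_lit 0, nat_lit 0, [nat_lit 3423620001, nat_lit 4727620000], [], [nat_lit 26132583049, nat_lit 26522321879, nat_lit 30855988463, nat_lit 31168536986], nat_lit 0, nat_lit 0, nat_lit 0, nat_lit 0, nat_lit 0, nat_lit 0, [], [nat_lit 39, nat_lit 40, nat_lit 20, nat_lit 80, nat_lit 7, nat_lit 203, nat_lit 0, nat_lit 6]⟩, ⟨p012_k27, nat_lit 0, nat_lit 0, nat_lit 730, nat_lit 0, nat_lit 1200974, [nat_lit 2187500000, nat_lit 3444700000], [], [nat_lit 13087100224, nat_lit 13084806154, nat_lit 13634552004, nat_lit 13628275996], nat_lit 1271250, nat_lit 1271250, nat_lit 1271250, nat_lit 1271250, nat_lit 0, nat_lit 0, [nat_lit 1412500, nat_lit 1271250], [nat_lit 51, nat_lit 40, nat_lit 20, nat_lit 80, nat_lit 1, nat_lit 272, nat_lit 60, nat_lit 7]⟩,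
 ⟨nat_lit 5700, nat_lit 5917, ⟨.ofNat (nat_lit 767591), .ofNat (nat_lit 924648), .ofNat (nat_lit 778259), .ofNat (nat_lit 935316), .ofNat (nat_lit 762152), .ofNat (nat_lit 915579), .ofNat (nat_lit 772821), .ofNat (nat_lit 926249)⟩, ⟨.ofNat (nat_lit 0), .ofNat (nat_lit 0), .ofNat (nat_lit 0), .ofNat (nat_lit 0), .ofNat (nat_lit 0), .ofNat (nat_lit 0), .ofNat (nat_lit 0), .ofNat (nat_lit 0)⟩⟩, [⟨nat_lit 13, nat_lit 96, nat_lit 16, nat_lit 100, nat_lit 90515718⟩]⟩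
noncomputable def p012_l153 : Lf2 := ⟨nat_lit 0, nat_lit 5, [nat_lit 4, nat_lit 5, nat_lit 5, nat_lit 20], false, nat_lit 0, nat_lit 0, nat_lit 0, nat_lit 0, ⟨nat_lit 203, nat_lit 797, nat_lit 0, nat_lit 8, nat_lit 336, nat_lit 0, nat_lit 0, nat_lit 0, nat_lit 0, nat_lit 0, nat_lit 0, nat_lit 0, nat_lit 39257457, nat_lit 27742543, nat_lit 0, nat_lit 3391523, true, true⟩,
 nat_lit 0, nat_lit 0, nat_lit 3238, nat_lit 0, nat_lit 4163, nat_lit 1630, nat_lit 804, nat_lit 0, nat_lit 0, nat_lit 254, nat_lit 0, nat_lit 0, nat_lit 0, nat_lit 0, nat_lit 0, nat_lit 318800, nat_lit 0, nat_lit 0, [(nat_lit 9, [(nat_lit 1, nat_lit 797)])],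
 ⟨p012_k13, nat_lit 0, nat_lit 0, nat_lit 193, nat_lit 0, nat_lit 0, [nat_lit 3105731840, nat_lit 3550401601, nat_lit 4025134599], [], [nat_lit 26124573457, nat_lit 26507237687, nat_lit 30619312654, nat_lit 30915845452], nat_lit 0, nat_lit 0, nat_lit 0, nat_lit 0, nat_lit 0, nat_lit 0, [], [nat_lit 9, nat_lit 40, nat_lit 20, nat_lit 80, nat_lit 2, nat_lit 203, nat_lit 0, nat_lit 6]⟩, ⟨p012_k28, nat_lit 0, nat_lit 0, nat_lit 794, nat_lit 0, nat_lit 1353041, [nat_lit 1268750000, nat_lit 1617504000, nat_lit 1997926000], [], [nat_lit 7683359109, nat_lit 7677474132, nat_lit 7950819952, nat_lit 7940001058], nat_lit 1271250, nat_lit 1271250, nat_lit 1271250, nat_lit 1271250, nat_lit 0, nat_lit 0, [nat_lit 1412500, nat_lit 1271250, nat_lit 1271250], [nat_lit 25, nat_lit 40, nat_lit 20, nat_lit 80, nat_lit 17, nat_lit 279, nat_lit 60, nat_lit 8]⟩,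
 ⟨nat_lit 5477, nat_lit 5701, ⟨.ofNat (nat_lit 762153), .ofNat (nat_lit 915583), .ofNat (nat_lit 772823), .ofNat (nat_lit 926252), .ofNat (nat_lit 756818), .ofNat (nat_lit 906675), .ofNat (nat_lit 767495), .ofNat (nat_lit 917352)⟩, ⟨.ofNat (nat_lit 0), .ofNat (nat_lit 0), .ofNat (nat_lit 0), .ofNat (nat_lit 0), .ofNat (nat_lit 0), .ofNat (nat_lit 0), .ofNat (nat_lit 0), .ofNat (nat_lit 0)⟩⟩, [⟨nat_lit 13, nat_lit 94, nat_lit 21, nat_lit 100, nat_lit 123135239⟩]⟩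
noncomputable def p012_l154 : Lf2 := ⟨nat_lit 0, nat_lit 5, [nat_lit 4, nat_lit 5, nat_lit 5, nat_lit 20], true, nat_lit 0, nat_lit 0, nat_lit 0, nat_lit 0, ⟨nat_lit 0, nat_lit 1000, nat_lit 0, nat_lit 5, nat_lit 219, nat_lit 0, nat_lit 0, nat_lit 0, nat_lit 0, nat_lit 0, nat_lit 0, nat_lit 0, nat_lit 0, nat_lit 0, nat_lit 0, nat_lit 5000000, false, true⟩,
 nat_lit 0, nat_lit 0, nat_lit 0, nat_lit 0, nat_lit 4224, nat_lit 0, nat_lit 0, nat_lit 0, nat_lit 0, nat_lit 0, nat_lit 0, nat_lit 0, nat_lit 0, nat_lit 0, nat_lit 0, nat_lit 400000, nat_lit 0, nat_lit 0, [(nat_lit 9, [(nat_lit 1, nat_lit 1000)])],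
 ⟨p012_k6, nat_lit 0, nat_lit 0, nat_lit 183, nat_lit 0, nat_lit 0, [nat_lit 2742800000, nat_lit 3014800000], [], [nat_lit 20042472653, nat_lit 21355391098, nat_lit 31192802656, nat_lit 31846545344], nat_lit 0, nat_lit 0, nat_lit 0, nat_lit 0, nat_lit 0, nat_lit 0, [], [nat_lit 39, nat_lit 40, nat_lit 20, nat_lit 80, nat_lit 7, nat_lit 317, nat_lit 100, nat_lit 11]⟩, C1.Rw.none,
 ⟨nat_lit 5477, nat_lit 5917, ⟨.ofNat (nat_lit 160083), .ofNat (nat_lit 913903), .ofNat (nat_lit 181423), .ofNat (nat_lit 935234), .ofNat (nat_lit 176664), .ofNat (nat_lit 895918), .ofNat (nat_lit 198021), .ofNat (nat_lit 917267)⟩, ⟨.ofNat (nat_lit 0), .ofNat (nat_lit 0), .ofNat (nat_lit 0), .ofNat (nat_lit 0), .ofNat (nat_lit 0), .ofNat (nat_lit 0), .ofNat (nat_lit 0), .ofNat (nat_lit 0)⟩⟩, [⟨nat_lit 13, nat_lit 97, nat_lit 11, nat_lit 100, nat_lit 182934115⟩]⟩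
noncomputable def b_NL_650_550_0_0 : St := ⟨false, nat_lit 0, nat_lit 2, nat_lit 0, nat_lit 20, nat_lit 260, nat_lit 280, nat_lit 220, nat_lit 240, nat_lit 16, nat_lit 400, nat_lit 0, nat_lit 0, nat_lit 0, nat_lit 0, nat_lit 0, nat_lit 0, nat_lit 0, nat_lit 40, nat_lit 0, nat_lit 0, nat_lit 0, nat_lit 0⟩
theorem d_NL_650_550_0_0 (h : EB TB.env) : Dead b_NL_650_550_0_0 := chkB_sound0 h (T :=
(.gv
(.st (nat_lit 1)
(.leaf p012_l146)
(.spl (nat_lit 2) (nat_lit 240)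
(.leaf p012_l147)
(.spl (nat_lit 2) (nat_lit 320)
(.leaf p012_l148)
(.spl (nat_lit 1) (nat_lit 230)
(.spl (nat_lit 0) (nat_lit 270)
(.leaf p012_l149)
(.trX (nat_lit 13) (nat_lit 95) (nat_lit 21) (nat_lit 100) (nat_lit 396) (.spl (nat_lit 0) (nat_lit 275)
(.leaf p012_l150)
(.leaf p012_l151))))
(.spl (nat_lit 0) (nat_lit 270)
(.leaf p012_l152)
(.leaf p012_l153))))))
(.leaf p012_l154))) (by decide +kernel)
noncomputable def p012_l155 : Lf2 := ⟨nat_lit 0, nat_lit 2, [nat_lit 10, nat_lit 5, nat_lit 5, nat_lit 20], false, nat_lit 0, nat_lit 0, nat_lit 0, nat_lit 0, ⟨nat_lit 1000, nat_lit 0, nat_lit 0, nat_lit 0, nat_lit 0, nat_lit 0, nat_lit 0, nat_lit 0, nat_lit 0, nat_lit 0, nat_lit 0, nat_lit 0, nat_lit 0, nat_lit 0, nat_lit 0, nat_lit 0, false, false⟩,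
 nat_lit 0, nat_lit 15617, nat_lit 0, nat_lit 0, nat_lit 9090, nat_lit 11036, nat_lit 0, nat_lit 0, nat_lit 0, nat_lit 3185, nat_lit 0, nat_lit 0, nat_lit 0, nat_lit 0, nat_lit 0, nat_lit 0, nat_lit 0, nat_lit 0, [],
 ⟨p012_k16, nat_lit 0, nat_lit 0, nat_lit 335, nat_lit 0, nat_lit 462392, [nat_lit 4688000000, nat_lit 6250000000], [], [nat_lit 24593716709, nat_lit 25742250769, nat_lit 24814085044, nat_lit 23124186448], nat_lit 1271250, nat_lit 1271250, nat_lit 88400, nat_lit 181601, nat_lit 0, nat_lit 0, [nat_lit 1100000, nat_lit 1442500], [nat_lit 31, nat_lit 40, nat_lit 20, nat_lit 80, nat_lit 3, nat_lit 215, nat_lit 10, nat_lit 9]⟩, ⟨p012_k29, nat_lit 0, nat_lit 0, nat_lit 157, nat_lit 0, nat_lit 0, [nat_lit 6250000000, nat_lit 7968000000], [], [nat_lit 20020589137, nat_lit 22221593354, nat_lit 18237538295, nat_lit 19931998033], nat_lit 0, nat_lit 0, nat_lit 0, nat_lit 0, nat_lit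 0, nat_lit 0, [], [nat_lit 26, nat_lit 40, nat_lit 20, nat_lit 80, nat_lit 2, nat_lit 289, nat_lit 75, nat_lit 10]⟩,
 zbF0, [⟨nat_lit 0, nat_lit 100, nat_lit 96, nat_lit 40, nat_lit 1335529894⟩]⟩
noncomputable def p012_l156 : Lf2 := ⟨nat_lit 0, nat_lit 4, [nat_lit 38, nat_lit 5, nat_lit 5, nat_lit 20], true, nat_lit 0, nat_lit 0, nat_lit 0, nat_lit 0, ⟨nat_lit 0, nat_lit 0, nat_lit 1000, nat_lit 5, nat_lit 76, nat_lit 0, nat_lit 0, nat_lit 0, nat_lit 0, nat_lit 215, nat_lit 54150, nat_lit 272, nat_lit 64654800, nat_lit 0, nat_lit 0, nat_lit 758604, false, false⟩,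
 nat_lit 0, nat_lit 7228, nat_lit 0, nat_lit 0, nat_lit 4207, nat_lit 0, nat_lit 0, nat_lit 0, nat_lit 0, nat_lit 0, nat_lit 0, nat_lit 0, nat_lit 0, nat_lit 0, nat_lit 117, nat_lit 1000000, nat_lit 0, nat_lit 0, [(nat_lit 9, [(nat_lit 6, nat_lit 1000)])],
 ⟨p012_k30, nat_lit 0, nat_lit 0, nat_lit 371, nat_lit 0, nat_lit 354636, [nat_lit 3178400000, nat_lit 158133334], [], [nat_lit 14212614501, nat_lit 15238004554, nat_lit 13809172713, nat_lit 14457242227], nat_lit 1271250, nat_lit 1271250, nat_lit 88400, nat_lit 181601, nat_lit 0, nat_lit 0, [nat_lit 1100000, nat_lit 1785000], [nat_lit 39, nat_lit 40, nat_lit 20, nat_lit 80, nat_lit 7, nat_lit 215, nat_lit 10, nat_lit 8]⟩, C1.Rw.none,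
 ⟨nat_lit 5700, nat_lit 5917, ⟨.ofNat (nat_lit 160083), .ofNat (nat_lit 191497), .ofNat (nat_lit 181423), .ofNat (nat_lit 212836), .ofNat (nat_lit 168433), .ofNat (nat_lit 199121), .ofNat (nat_lit 189775), .ofNat (nat_lit 220462)⟩, ⟨.ofNat (nat_lit 0), .ofNat (nat_lit 0), .ofNat (nat_lit 0), .ofNat (nat_lit 0), .ofNat (nat_lit 0), .ofNat (nat_lit 0), .ofNat (nat_lit 0), .ofNat (nat_lit 0)⟩⟩, [⟨nat_lit 0, nat_lit 100, nat_lit 96, nat_lit 54, nat_lit 357269572⟩]⟩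
noncomputable def p012_l157 : Lf2 := ⟨nat_lit 0, nat_lit 4, [nat_lit 38, nat_lit 5, nat_lit 5, nat_lit 20], true, nat_lit 0, nat_lit 0, nat_lit 0, nat_lit 0, ⟨nat_lit 0, nat_lit 0, nat_lit 1000, nat_lit 5, nat_lit 80, nat_lit 0, nat_lit 0, nat_lit 0, nat_lit 0, nat_lit 215, nat_lit 60000, nat_lit 275, nat_lit 64417186, nat_lit 0, nat_lit 0, nat_lit 816517, false, false⟩,
 nat_lit 0, nat_lit 6991, nat_lit 0, nat_lit 0, nat_lit 4257, nat_lit 0, nat_lit 0, nat_lit 0, nat_lit 0, nat_lit 0, nat_lit 0, nat_lit 0, nat_lit 0, nat_lit 0, nat_lit 117, nat_lit 1000000, nat_lit 0, nat_lit 0, [(nat_lit 9, [(nat_lit 6, nat_lit 1000)])],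
 ⟨p012_k31, nat_lit 0, nat_lit 0, nat_lit 370, nat_lit 0, nat_lit 359753, [nat_lit 3178400000, nat_lit 158133334], [], [nat_lit 14945455518, nat_lit 15461920421, nat_lit 14365361847, nat_lit 14722976576], nat_lit 1271250, nat_lit 1271250, nat_lit 111251, nat_lit 181601, nat_lit 0, nat_lit 0, [nat_lit 1100000, nat_lit 1785000], [nat_lit 39, nat_lit 40, nat_lit 20, nat_lit 80, nat_lit 7, nat_lit 215, nat_lit 10, nat_lit 7]⟩, C1.Rw.none,
 ⟨nat_lit 5590, nat_lit 5701, ⟨.ofNat (nat_lit 176105), .ofNat (nat_lit 199121), .ofNat (nat_lit 197447), .ofNat (nat_lit 220462), .ofNat (nat_lit 180144), .ofNat (nat_lit 202891), .ofNat (nat_lit 201492), .ofNat (nat_lit 224239)⟩, ⟨.ofNat (nat_lit 0), .ofNat (nat_lit 0), .ofNat (nat_lit 0), .ofNat (nat_lit 0), .ofNat (nat_lit 0), .ofNat (nat_lit 0), .ofNat (nat_lit 0), .ofNat (nat_lit 0)⟩⟩, [⟨nat_lit 0, nat_lit 100, nat_lit 95, nat_lit 56, nat_lit 427437761⟩]⟩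
noncomputable def p012_l158 : Lf2 := ⟨nat_lit 0, nat_lit 4, [nat_lit 38, nat_lit 5, nat_lit 5, nat_lit 20], false, nat_lit 0, nat_lit 0, nat_lit 0, nat_lit 0, ⟨nat_lit 612, nat_lit 0, nat_lit 388, nat_lit 5, nat_lit 82, nat_lit 0, nat_lit 0, nat_lit 0, nat_lit 0, nat_lit 215, nat_lit 62017, nat_lit 276, nat_lit 64319764, nat_lit 0, nat_lit 0, nat_lit 839762, false, false⟩,
 nat_lit 0, nat_lit 10096, nat_lit 0, nat_lit 0, nat_lit 6285, nat_lit 6192, nat_lit 2125, nat_lit 0, nat_lit 0, nat_lit 0, nat_lit 0, nat_lit 0, nat_lit 0, nat_lit 0, nat_lit 0, nat_lit 388000, nat_lit 0, nat_lit 0, [(nat_lit 9, [(nat_lit 6, nat_lit 388)])],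
 ⟨p012_k32, nat_lit 0, nat_lit 0, nat_lit 376, nat_lit 0, nat_lit 373017, [nat_lit 3375939200, nat_lit 3800531734], [], [nat_lit 19383584470, nat_lit 19718690620, nat_lit 19584399239, nat_lit 19322865637], nat_lit 1271250, nat_lit 1271250, nat_lit 111251, nat_lit 181601, nat_lit 0, nat_lit 0, [nat_lit 1100000, nat_lit 1785000], [nat_lit 39, nat_lit 40, nat_lit 20, nat_lit 80, nat_lit 7, nat_lit 215, nat_lit 10, nat_lit 7]⟩, ⟨p012_k33, nat_lit 0, nat_lit 0, nat_lit 200, nat_lit 0, nat_lit 0, [nat_lit 3825000000, nat_lit 6023304000], [], [nat_lit 17751418488, nat_lit 18831623760, nat_lit 16935651087, nat_lit 17977376160], nat_lit 0, nat_lit 0, nat_lit 0, nat_lit 0, nat_lit 0, nat_lit 0, [], [nat_lit 51, nat_lit 40, nat_lit 20, nat_lit 80, nat_lit 1, nat_lit 289, nat_lit 75, nat_lit 9]⟩,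
 ⟨nat_lit 5477, nat_lit 5591, ⟨.ofNat (nat_lit 180144), .ofNat (nat_lit 202891), .ofNat (nat_lit 201492), .ofNat (nat_lit 224239), .ofNat (nat_lit 184157), .ofNat (nat_lit 206637), .ofNat (nat_lit 205514), .ofNat (nat_lit 227994)⟩, ⟨.ofNat (nat_lit 0), .ofNat (nat_lit 0), .ofNat (nat_lit 0), .ofNat (nat_lit 0), .ofNat (nat_lit 0), .ofNat (nat_lit 0), .ofNat (nat_lit 0), .ofNat (nat_lit 0)⟩⟩, [⟨nat_lit 0, nat_lit 100, nat_lit 93, nat_lit 47, nat_lit 798327962⟩]⟩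
noncomputable def p012_l159 : Lf2 := ⟨nat_lit 0, nat_lit 5, [nat_lit 4, nat_lit 5, nat_lit 5, nat_lit 20], true, nat_lit 0, nat_lit 0, nat_lit 0, nat_lit 0, ⟨nat_lit 0, nat_lit 0, nat_lit 1000, nat_lit 5, nat_lit 78, nat_lit 0, nat_lit 0, nat_lit 0, nat_lit 0, nat_lit 215, nat_lit 56067, nat_lit 273, nat_lit 64560319, nat_lit 0, nat_lit 0, nat_lit 781845, false, false⟩,
 nat_lit 0, nat_lit 6778, nat_lit 0, nat_lit 0, nat_lit 3945, nat_lit 0, nat_lit 0, nat_lit 0, nat_lit 0, nat_lit 0, nat_lit 0, nat_lit 0, nat_lit 0, nat_lit 0, nat_lit 117, nat_lit 1000000, nat_lit 0, nat_lit 0, [(nat_lit 9, [(nat_lit 6, nat_lit 1000)])],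
 ⟨p012_k11, nat_lit 0, nat_lit 0, nat_lit 372, nat_lit 0, nat_lit 343661, [nat_lit 2969600000, nat_lit 1600000000, nat_lit 226400000], [], [nat_lit 14044009521, nat_lit 15754801465, nat_lit 13683693028, nat_lit 14940897808], nat_lit 1271250, nat_lit 1271250, nat_lit 88400, nat_lit 181601, nat_lit 0, nat_lit 0, [nat_lit 1100000, nat_lit 1442500, nat_lit 1271250], [nat_lit 9, nat_lit 40, nat_lit 20, nat_lit 80, nat_lit 2, nat_lit 215, nat_lit 10, nat_lit 8]⟩, C1.Rw.none,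
 ⟨nat_lit 5477, nat_lit 5917, ⟨.ofNat (nat_lit 160083), .ofNat (nat_lit 191497), .ofNat (nat_lit 181423), .ofNat (nat_lit 212836), .ofNat (nat_lit 176664), .ofNat (nat_lit 206637), .ofNat (nat_lit 198021), .ofNat (nat_lit 227994)⟩, ⟨.ofNat (nat_lit 0), .ofNat (nat_lit 0), .ofNat (nat_lit 0), .ofNat (nat_lit 0), .ofNat (nat_lit 0), .ofNat (nat_lit 0), .ofNat (nat_lit 0), .ofNat (nat_lit 0)⟩⟩, [⟨nat_lit 0, nat_lit 100, nat_lit 95, nat_lit 49, nat_lit 367893616⟩]⟩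
noncomputable def p012_l160 : Lf2 := ⟨nat_lit 0, nat_lit 5, [nat_lit 4, nat_lit 5, nat_lit 5, nat_lit 20], false, nat_lit 0, nat_lit 0, nat_lit 0, nat_lit 0, ⟨nat_lit 1000, nat_lit 0, nat_lit 0, nat_lit 0, nat_lit 0, nat_lit 0, nat_lit 0, nat_lit 0, nat_lit 0, nat_lit 0, nat_lit 0, nat_lit 0, nat_lit 0, nat_lit 0, nat_lit 0, nat_lit 0, false, false⟩,
 nat_lit 0, nat_lit 17691, nat_lit 0, nat_lit 0, nat_lit 10297, nat_lit 9800, nat_lit 285, nat_lit 0, nat_lit 0, nat_lit 3503, nat_lit 0, nat_lit 0, nat_lit 0, nat_lit 0, nat_lit 0, nat_lit 0, nat_lit 0, nat_lit 0, [],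
 ⟨p012_k11, nat_lit 0, nat_lit 0, nat_lit 392, nat_lit 0, nat_lit 440767, [nat_lit 4688000000, nat_lit 6250000000, nat_lit 7968000000], [], [nat_lit 26305739966, nat_lit 25599115982, nat_lit 24242331450, nat_lit 24981305034], nat_lit 1271250, nat_lit 1271250, nat_lit 181601, nat_lit 230001, nat_lit 0, nat_lit 0, [nat_lit 1100000, nat_lit 1442500, nat_lit 1271250], [nat_lit 9, nat_lit 40, nat_lit 20, nat_lit 80, nat_lit 2, nat_lit 215, nat_lit 10, nat_lit 7]⟩, ⟨p012_k34, nat_lit 0, nat_lit 0, nat_lit 204, nat_lit 0, nat_lit 0, [nat_lit 6250000000, nat_lit 7968000000, nat_lit 9842000000], [], [nat_lit 19362018850, nat_lit 20696786931, nat_lit 18666519650, nat_lit 20016113750], nat_lit 0, nat_lit 0, nat_lit 0, nat_lit 0, nat_lit 0, nat_lit 0, [], [nat_lit 25, nat_lit 40, nat_lit 20, nat_lit 80, nat_lit 17, nat_lit 289, nat_lit 75, nat_lit 9]⟩,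
 zbF0, []⟩
noncomputable def p012_l161 : Lf2 := ⟨nat_lit 0, nat_lit 5, [nat_lit 4, nat_lit 5, nat_lit 5, nat_lit 20], false, nat_lit 0, nat_lit 0, nat_lit 0, nat_lit 0, ⟨nat_lit 1000, nat_lit 0, nat_lit 0, nat_lit 0, nat_lit 0, nat_lit 0, nat_lit 0, nat_lit 0, nat_lit 0, nat_lit 0, nat_lit 0, nat_lit 0, nat_lit 0, nat_lit 0, nat_lit 0, nat_lit 0, false, false⟩,
 nat_lit 0, nat_lit 13780, nat_lit 0, nat_lit 0, nat_lit 8392, nat_lit 9800, nat_lit 889, nat_lit 0, nat_lit 0, nat_lit 3503, nat_lit 0, nat_lit 0, nat_lit 0, nat_lit 0, nat_lit 0, nat_lit 0, nat_lit 0, nat_lit 0, [],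
 ⟨p012_k13, nat_lit 0, nat_lit 0, nat_lit 405, nat_lit 0, nat_lit 464269, [nat_lit 4688000000, nat_lit 6250000000, nat_lit 7968000000], [], [nat_lit 24954693321, nat_lit 24547797348, nat_lit 23545144696, nat_lit 24129829552], nat_lit 1271250, nat_lit 1271250, nat_lit 181601, nat_lit 230001, nat_lit 0, nat_lit 0, [nat_lit 1100000, nat_lit 1442500, nat_lit 1271250], [nat_lit 9, nat_lit 40, nat_lit 20, nat_lit 80, nat_lit 2, nat_lit 215, nat_lit 10, nat_lit 7]⟩, ⟨p012_k34, nat_lit 0, nat_lit 0, nat_lit 204, nat_lit 0, nat_lit 0, [nat_lit 6250000000, nat_lit 7968000000, nat_lit 9842000000], [], [nat_lit 19362018850, nat_lit 20696786931, nat_lit 18666519650, nat_lit 20016113750], nat_lit 0, nat_lit 0, nat_lit 0, nat_lit 0, nat_lit 0, nat_lit 0, [], [nat_lit 25, nat_lit 40, nat_lit 20, nat_lit 80, nat_lit 17, nat_lit 289, nat_lit 75, nat_lit 9]⟩,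
 zbF0, []⟩
noncomputable def p012_l162 : Lf2 := ⟨nat_lit 0, nat_lit 5, [nat_lit 4, nat_lit 5, nat_lit 5, nat_lit 20], false, nat_lit 0, nat_lit 0, nat_lit 0, nat_lit 0, ⟨nat_lit 1000, nat_lit 0, nat_lit 0, nat_lit 0, nat_lit 0, nat_lit 0, nat_lit 0, nat_lit 0, nat_lit 0, nat_lit 0, nat_lit 0, nat_lit 0, nat_lit 0, nat_lit 0, nat_lit 0, nat_lit 0, false, false⟩,
 nat_lit 0, nat_lit 16057, nat_lit 0, nat_lit 0, nat_lit 9346, nat_lit 9986, nat_lit 1298, nat_lit 0, nat_lit 0, nat_lit 3521, nat_lit 0, nat_lit 0, nat_lit 0, nat_lit 0, nat_lit 0, nat_lit 0, nat_lit 0, nat_lit 0, [],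
 ⟨p012_k11, nat_lit 0, nat_lit 0, nat_lit 407, nat_lit 0, nat_lit 486971, [nat_lit 4688000000, nat_lit 6250000000, nat_lit 7968000000], [], [nat_lit 24380321250, nat_lit 23141985124, nat_lit 25176173574, nat_lit 21467546428], nat_lit 1271250, nat_lit 1271250, nat_lit 230001, nat_lit 490000, nat_lit 0, nat_lit 0, [nat_lit 1100000, nat_lit 1442500, nat_lit 1271250], [nat_lit 9, nat_lit 40, nat_lit 20, nat_lit 80, nat_lit 2, nat_lit 226, nat_lit 20, nat_lit 8]⟩, ⟨p012_k34, nat_lit 0, nat_lit 0, nat_lit 192, nat_lit 0, nat_lit 0, [nat_lit 6250000000, nat_lit 7968000000, nat_lit 9842000000], [], [nat_lit 18486465278, nat_lit 19831368410, nat_lit 16425295378, nat_lit 17880174506], nat_lit 0, nat_lit 0, nat_lit 0, nat_lit 0, nat_lit 0, nat_lit 0, [], [nat_lit 25, nat_lit 40, nat_lit 20, nat_lit 80, nat_lit 17, nat_lit 317, nat_lit 100, nat_lit 10]⟩,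
 zbF0, []⟩
noncomputable def p012_l163 : Lf2 := ⟨nat_lit 0, nat_lit 5, [nat_lit 4, nat_lit 5, nat_lit 5, nat_lit 20], false, nat_lit 0, nat_lit 0, nat_lit 0, nat_lit 0, ⟨nat_lit 94, nat_lit 0, nat_lit 906, nat_lit 5, nat_lit 96, nat_lit 0, nat_lit 0, nat_lit 0, nat_lit 0, nat_lit 215, nat_lit 86400, nat_lit 287, nat_lit 63338492, nat_lit 0, nat_lit 0, nat_lit 1059911, false, false⟩,
 nat_lit 0, nat_lit 7109, nat_lit 0, nat_lit 0, nat_lit 4138, nat_lit 881, nat_lit 113, nat_lit 0, nat_lit 0, nat_lit 313, nat_lit 0, nat_lit 0, nat_lit 0, nat_lit 0, nat_lit 74, nat_lit 906000, nat_lit 0, nat_lit 0, [(nat_lit 9, [(nat_lit 6, nat_lit 906)])],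
 ⟨p012_k11, nat_lit 0, nat_lit 0, nat_lit 370, nat_lit 0, nat_lit 339358, [nat_lit 2619097600, nat_lit 1397060000, nat_lit 182396400], [], [nat_lit 15158760081, nat_lit 16129452138, nat_lit 14451199455, nat_lit 15272051819], nat_lit 1271250, nat_lit 1271250, nat_lit 88400, nat_lit 490000, nat_lit 0, nat_lit 0, [nat_lit 1100000, nat_lit 1442500, nat_lit 1271250], [nat_lit 9, nat_lit 40, nat_lit 20, nat_lit 80, nat_lit 2, nat_lit 226, nat_lit 20, nat_lit 8]⟩, ⟨p012_k34, nat_lit 0, nat_lit 0, nat_lit 229, nat_lit 0, nat_lit 0, [nat_lit 587500000, nat_lit 748992000, nat_lit 925148000], [], [nat_lit 2027683397, nat_lit 2150692854, nat_lit 1646278344, nat_lit 1763908526], nat_lit 0, nat_lit 0, nat_lit 0, nat_lit 0, nat_lit 0, nat_lit 0, [], [nat_lit 25, nat_lit 40, nat_lit 20, nat_lit 80, nat_lit 17, nat_lit 317, nat_lit 100, nat_lit 10]⟩,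
 ⟨nat_lit 5477, nat_lit 5917, ⟨.ofNat (nat_lit 160083), .ofNat (nat_lit 285737), .ofNat (nat_lit 181423), .ofNat (nat_lit 307076), .ofNat (nat_lit 176664), .ofNat (nat_lit 296556), .ofNat (nat_lit 198021), .ofNat (nat_lit 317913)⟩, ⟨.ofNat (nat_lit 0), .ofNat (nat_lit 0), .ofNat (nat_lit 0), .ofNat (nat_lit 0), .ofNat (nat_lit 0), .ofNat (nat_lit 0), .ofNat (nat_lit 0), .ofNat (nat_lit 0)⟩⟩, [⟨nat_lit 0, nat_lit 100, nat_lit 95, nat_lit 49, nat_lit 177865788⟩, ⟨nat_lit 0, nat_lit 100, nat_lit 94, nat_lit 59, nat_lit 88554569⟩]⟩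
noncomputable def p012_l164 : Lf2 := ⟨nat_lit 0, nat_lit 5, [nat_lit 4, nat_lit 5, nat_lit 5, nat_lit 20], false, nat_lit 0, nat_lit 0, nat_lit 0, nat_lit 0, ⟨nat_lit 1000, nat_lit 0, nat_lit 0, nat_lit 0, nat_lit 0, nat_lit 0, nat_lit 0, nat_lit 0, nat_lit 0, nat_lit 0, nat_lit 0, nat_lit 0, nat_lit 0, nat_lit 0, nat_lit 0, nat_lit 0, false, false⟩,
 nat_lit 0, nat_lit 14764, nat_lit 0, nat_lit 0, nat_lit 8593, nat_lit 11262, nat_lit 2772, nat_lit 0, nat_lit 0, nat_lit 0, nat_lit 0, nat_lit 0, nat_lit 0, nat_lit 0, nat_lit 0, nat_lit 0, nat_lit 0, nat_lit 0, [],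
 ⟨p012_k6, nat_lit 0, nat_lit 0, nat_lit 560, nat_lit 0, nat_lit 902422, [nat_lit 4688000000, nat_lit 7968000000], [], [nat_lit 24712679750, nat_lit 20764447284, nat_lit 31347592622, nat_lit 27298519464], nat_lit 1271250, nat_lit 1271250, nat_lit 490000, nat_lit 1100001, nat_lit 0, nat_lit 0, [nat_lit 1100000, nat_lit 1785000], [nat_lit 39, nat_lit 40, nat_lit 20, nat_lit 80, nat_lit 7, nat_lit 249, nat_lit 40, nat_lit 8]⟩, ⟨p012_k25, nat_lit 0, nat_lit 0, nat_lit 35, nat_lit 0, nat_lit 0, [nat_lit 6250000000, nat_lit 9842000000], [], [nat_lit 10017213476, nat_lit 10633762623, nat_lit 10720070152, nat_lit 11261611860], nat_lit 0, nat_lit 0, nat_lit 0, nat_lit 0, nat_lit 0, nat_lit 0, [], [nat_lit 51, nat_lit 40, nat_lit 20, nat_lit 80, nat_lit 1, nat_lit 317, nat_lit 100, nat_lit 9]⟩,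
 zbF0, []⟩
noncomputable def p012_l165 : Lf2 := ⟨nat_lit 0, nat_lit 5, [nat_lit 4, nat_lit 5, nat_lit 5, nat_lit 20], false, nat_lit 0, nat_lit 0, nat_lit 0, nat_lit 0, ⟨nat_lit 1000, nat_lit 0, nat_lit 0, nat_lit 0, nat_lit 0, nat_lit 0, nat_lit 0, nat_lit 0, nat_lit 0, nat_lit 0, nat_lit 0, nat_lit 0, nat_lit 0, nat_lit 0, nat_lit 0, nat_lit 0, false, false⟩,
 nat_lit 0, nat_lit 14965, nat_lit 0, nat_lit 0, nat_lit 8710, nat_lit 10769, nat_lit 2861, nat_lit 0, nat_lit 0, nat_lit 2847, nat_lit 0, nat_lit 0, nat_lit 0, nat_lit 0, nat_lit 0, nat_lit 0, nat_lit 0, nat_lit 0, [],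
 ⟨p012_k6, nat_lit 0, nat_lit 0, nat_lit 602, nat_lit 0, nat_lit 939439, [nat_lit 4688000000, nat_lit 7968000000], [], [nat_lit 24585354500, nat_lit 20119244080, nat_lit 30967108340, nat_lit 26862904080], nat_lit 1271250, nat_lit 1271250, nat_lit 490000, nat_lit 1100001, nat_lit 0, nat_lit 0, [nat_lit 1100000, nat_lit 1785000], [nat_lit 39, nat_lit 40, nat_lit 20, nat_lit 80, nat_lit 7, nat_lit 249, nat_lit 40, nat_lit 8]⟩, ⟨p012_k35, nat_lit 0, nat_lit 0, nat_lit 141, nat_lit 0, nat_lit 0, [nat_lit 6250000000, nat_lit 9842000000], [], [nat_lit 18833716068, nat_lit 19171156773, nat_lit 18271517954, nat_lit 18606237073], nat_lit 0, nat_lit 0, nat_lit 0, nat_lit 0, nat_lit 0, nat_lit 0, [], [nat_lit 51, nat_lit 40, nat_lit 20, nat_lit 80, nat_lit 1, nat_lit 317, nat_lit 100, nat_lit 9]⟩,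
 zbF0, []⟩
noncomputable def p012_l166 : Lf2 := ⟨nat_lit 0, nat_lit 5, [nat_lit 4, nat_lit 5, nat_lit 5, nat_lit 20], false, nat_lit 0, nat_lit 0, nat_lit 0, nat_lit 0, ⟨nat_lit 1000, nat_lit 0, nat_lit 0, nat_lit 0, nat_lit 0, nat_lit 0, nat_lit 0, nat_lit 0, nat_lit 0, nat_lit 0, nat_lit 0, nat_lit 0, nat_lit 0, nat_lit 0, nat_lit 0, nat_lit 0, false, false⟩,
 nat_lit 0, nat_lit 14965, nat_lit 0, nat_lit 0, nat_lit 8710, nat_lit 10660, nat_lit 2861, nat_lit 0, nat_lit 0, nat_lit 2904, nat_lit 0, nat_lit 0, nat_lit 0, nat_lit 0, nat_lit 0, nat_lit 0, nat_lit 0, nat_lit 0, [],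
 ⟨p012_k6, nat_lit 0, nat_lit 0, nat_lit 617, nat_lit 0, nat_lit 978500, [nat_lit 4688000000, nat_lit 7968000000], [], [nat_lit 24585354500, nat_lit 20119244080, nat_lit 30967108340, nat_lit 26862904080], nat_lit 1271250, nat_lit 1271250, nat_lit 490000, nat_lit 1100001, nat_lit 0, nat_lit 0, [nat_lit 1100000, nat_lit 1785000], [nat_lit 39, nat_lit 40, nat_lit 20, nat_lit 80, nat_lit 7, nat_lit 249, nat_lit 40, nat_lit 8]⟩, ⟨p012_k27, nat_lit 0, nat_lit 0, nat_lit 144, nat_lit 0, nat_lit 0, [nat_lit 6250000000, nat_lit 9842000000], [], [nat_lit 18020601220, nat_lit 18356122490, nat_lit 17435970640, nat_lit 17763008990], nat_lit 0, nat_lit 0, nat_lit 0, nat_lit 0, nat_lit 0, nat_lit 0, [], [nat_lit 51, nat_lit 40, nat_lit 20, nat_lit 80, nat_lit 1, nat_lit 317, nat_lit 100, nat_lit 9]⟩,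
 zbF0, []⟩
noncomputable def p012_l167 : Lf2 := ⟨nat_lit 0, nat_lit 5, [nat_lit 4, nat_lit 5, nat_lit 5, nat_lit 20], false, nat_lit 0, nat_lit 0, nat_lit 0, nat_lit 0, ⟨nat_lit 1000, nat_lit 0, nat_lit 0, nat_lit 0, nat_lit 0, nat_lit 0, nat_lit 0, nat_lit 0, nat_lit 0, nat_lit 0, nat_lit 0, nat_lit 0, nat_lit 0, nat_lit 0, nat_lit 0, nat_lit 0, false, false⟩,
 nat_lit 0, nat_lit 14965, nat_lit 0, nat_lit 0, nat_lit 8710, nat_lit 10552, nat_lit 2861, nat_lit 0, nat_lit 0, nat_lit 2961, nat_lit 0, nat_lit 0, nat_lit 0, nat_lit 0, nat_lit 0, nat_lit 0, nat_lit 0, nat_lit 0, [],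
 ⟨p012_k6, nat_lit 0, nat_lit 0, nat_lit 632, nat_lit 0, nat_lit 1019514, [nat_lit 4688000000, nat_lit 7968000000], [], [nat_lit 24585354500, nat_lit 20119244080, nat_lit 30967108340, nat_lit 26862904080], nat_lit 1271250, nat_lit 1271250, nat_lit 490000, nat_lit 1100001, nat_lit 0, nat_lit 0, [nat_lit 1100000, nat_lit 1785000], [nat_lit 39, nat_lit 40, nat_lit 20, nat_lit 80, nat_lit 7, nat_lit 249, nat_lit 40, nat_lit 8]⟩, ⟨p012_k36, nat_lit 0, nat_lit 0, nat_lit 147, nat_lit 0, nat_lit 0, [nat_lit 6250000000, nat_lit 9842000000], [], [nat_lit 17120784428, nat_lit 17454403872, nat_lit 16514292584, nat_lit 16832964672], nat_lit 0, nat_lit 0, nat_lit 0, nat_lit 0, nat_lit 0, nat_lit 0, [], [nat_lit 51, nat_lit 40, nat_lit 20, nat_lit 80, nat_lit 1, nat_lit 317, nat_lit 100, nat_lit 9]⟩,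
 zbF0, []⟩
noncomputable def p012_l168 : Lf2 := ⟨nat_lit 0, nat_lit 5, [nat_lit 4, nat_lit 5, nat_lit 5, nat_lit 20], false, nat_lit 0, nat_lit 0, nat_lit 0, nat_lit 0, ⟨nat_lit 1000, nat_lit 0, nat_lit 0, nat_lit 0, nat_lit 0, nat_lit 0, nat_lit 0, nat_lit 0, nat_lit 0, nat_lit 0, nat_lit 0, nat_lit 0, nat_lit 0, nat_lit 0, nat_lit 0, nat_lit 0, false, false⟩,
 nat_lit 0, nat_lit 15738, nat_lit 0, nat_lit 0, nat_lit 9160, nat_lit 3321, nat_lit 5545, nat_lit 0, nat_lit 0, nat_lit 0, nat_lit 0, nat_lit 0, nat_lit 0, nat_lit 0, nat_lit 0, nat_lit 0, nat_lit 0, nat_lit 0, [],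
 ⟨p012_k6, nat_lit 0, nat_lit 0, nat_lit 603, nat_lit 0, nat_lit 1019514, [nat_lit 4688000000, nat_lit 7968000000], [], [nat_lit 17311183040, nat_lit 18054265920, nat_lit 27645332000, nat_lit 23483481440], nat_lit 1271250, nat_lit 1271250, nat_lit 1100001, nat_lit 1785000, nat_lit 0, nat_lit 0, [nat_lit 1100000, nat_lit 1785000], [nat_lit 39, nat_lit 40, nat_lit 20, nat_lit 80, nat_lit 7, nat_lit 272, nat_lit 60, nat_lit 9]⟩, ⟨p012_k25, nat_lit 0, nat_lit 0, nat_lit 63, nat_lit 0, nat_lit 0, [nat_lit 6250000000, nat_lit 9842000000], [], [nat_lit 17306367316, nat_lit 18434359572, nat_lit 20934858288, nat_lit 21890468744], nat_lit 0, nat_lit 0, nat_lit 0, nat_lit 0, nat_lit 0, nat_lit 0, [], [nat_lit 51, nat_lit 40, nat_lit 20, nat_lit 80, nat_lit 1, nat_lit 345, nat_lit 125, nat_lit 10]⟩,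
 zbF0, []⟩
noncomputable def p012_l169 : Lf2 := ⟨nat_lit 0, nat_lit 5, [nat_lit 4, nat_lit 5, nat_lit 5, nat_lit 20], false, nat_lit 0, nat_lit 0, nat_lit 0, nat_lit 0, ⟨nat_lit 1000, nat_lit 0, nat_lit 0, nat_lit 0, nat_lit 0, nat_lit 0, nat_lit 0, nat_lit 0, nat_lit 0, nat_lit 0, nat_lit 0, nat_lit 0, nat_lit 0, nat_lit 0, nat_lit 0, nat_lit 0, false, false⟩,
 nat_lit 0, nat_lit 11029, nat_lit 0, nat_lit 0, nat_lit 6419, nat_lit 7421, nat_lit 2355, nat_lit 0, nat_lit 0, nat_lit 1849, nat_lit 0, nat_lit 0, nat_lit 0, nat_lit 0, nat_lit 0, nat_lit 0, nat_lit 0, nat_lit 0, [],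
 ⟨p012_k6, nat_lit 0, nat_lit 0, nat_lit 582, nat_lit 0, nat_lit 1019514, [nat_lit 4688000000, nat_lit 7968000000], [], [nat_lit 31663689272, nat_lit 32016128832, nat_lit 36464219124, nat_lit 36819287104], nat_lit 1271250, nat_lit 1271250, nat_lit 1271250, nat_lit 1271250, nat_lit 0, nat_lit 0, [nat_lit 1100000, nat_lit 1785000], [nat_lit 39, nat_lit 40, nat_lit 20, nat_lit 80, nat_lit 7, nat_lit 231, nat_lit 0, nat_lit 7]⟩, ⟨p012_k25, nat_lit 0, nat_lit 0, nat_lit 214, nat_lit 0, nat_lit 0, [nat_lit 6250000000, nat_lit 9842000000], [], [nat_lit 27673923868, nat_lit 28455198792, nat_lit 38521578612, nat_lit 38934677776], nat_lit 0, nat_lit 0, nat_lit 0, nat_lit 0, nat_lit 0, nat_lit 0, [], [nat_lit 51, nat_lit 40, nat_lit 20, nat_lit 80, nat_lit 1, nat_lit 401, nat_lit 175, nat_lit 11]⟩,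
 zbF0, []⟩
noncomputable def p012_l170 : Lf2 := ⟨nat_lit 0, nat_lit 2, [nat_lit 10, nat_lit 5, nat_lit 5, nat_lit 20], true, nat_lit 0, nat_lit 0, nat_lit 0, nat_lit 0, ⟨nat_lit 0, nat_lit 0, nat_lit 1000, nat_lit 5, nat_lit 93, nat_lit 0, nat_lit 0, nat_lit 0, nat_lit 0, nat_lit 215, nat_lit 79350, nat_lit 284, nat_lit 63586533, nat_lit 0, nat_lit 0, nat_lit 1006466, false, false⟩,
 nat_lit 0, nat_lit 6735, nat_lit 0, nat_lit 0, nat_lit 3920, nat_lit 0, nat_lit 0, nat_lit 0, nat_lit 0, nat_lit 0, nat_lit 0, nat_lit 0, nat_lit 0, nat_lit 0, nat_lit 37, nat_lit 1000000, nat_lit 0, nat_lit 0, [(nat_lit 9, [(nat_lit 6, nat_lit 1000)])],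
 ⟨p012_k16, nat_lit 0, nat_lit 0, nat_lit 304, nat_lit 0, nat_lit 389265, [nat_lit 1689600001, nat_lit 0], [], [nat_lit 14087867124, nat_lit 14720903452, nat_lit 13511089523, nat_lit 14110404763], nat_lit 1271250, nat_lit 1271250, nat_lit 88400, nat_lit 490000, nat_lit 0, nat_lit 0, [nat_lit 1100000, nat_lit 1442500], [nat_lit 31, nat_lit 40, nat_lit 20, nat_lit 80, nat_lit 3, nat_lit 226, nat_lit 20, nat_lit 9]⟩, C1.Rw.none,
 ⟨nat_lit 5700, nat_lit 5917, ⟨.ofNat (nat_lit 160083), .ofNat (nat_lit 285737), .ofNat (nat_lit 170753), .ofNat (nat_lit 296407), .ofNat (nat_lit 168433), .ofNat (nat_lit 291183), .ofNat (nat_lit 179104), .ofNat (nat_lit 301854)⟩, ⟨.ofNat (nat_lit 0), .ofNat (nat_lit 0), .ofNat (nat_lit 0), .ofNat (nat_lit 0), .ofNat (nat_lit 0), .ofNat (nat_lit 0), .ofNat (nat_lit 0), .ofNat (nat_lit 0)⟩⟩, [⟨nat_lit 0, nat_lit 100, nat_lit 95, nat_lit 49, nat_lit 156213188⟩]⟩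
noncomputable def p012_l171 : Lf2 := ⟨nat_lit 0, nat_lit 2, [nat_lit 10, nat_lit 5, nat_lit 5, nat_lit 20], false, nat_lit 0, nat_lit 0, nat_lit 0, nat_lit 0, ⟨nat_lit 283, nat_lit 0, nat_lit 717, nat_lit 5, nat_lit 97, nat_lit 0, nat_lit 0, nat_lit 0, nat_lit 0, nat_lit 215, nat_lit 88817, nat_lit 288, nat_lit 63283516, nat_lit 0, nat_lit 0, nat_lit 1071574, false, false⟩,
 nat_lit 8390, nat_lit 0, nat_lit 0, nat_lit 0, nat_lit 5109, nat_lit 4012, nat_lit 1056, nat_lit 0, nat_lit 0, nat_lit 482, nat_lit 0, nat_lit 0, nat_lit 0, nat_lit 0, nat_lit 0, nat_lit 717000, nat_lit 0, nat_lit 0, [(nat_lit 9, [(nat_lit 6, nat_lit 717)])],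
 ⟨p012_k21, nat_lit 0, nat_lit 0, nat_lit 313, nat_lit 0, nat_lit 415142, [nat_lit 2113683201, nat_lit 1238170000], [], [nat_lit 17329174198, nat_lit 17555897560, nat_lit 19211226303, nat_lit 17990972307], nat_lit 1271250, nat_lit 1271250, nat_lit 111251, nat_lit 490000, nat_lit 0, nat_lit 0, [nat_lit 1100000, nat_lit 1442500], [nat_lit 31, nat_lit 40, nat_lit 20, nat_lit 80, nat_lit 3, nat_lit 226, nat_lit 20, nat_lit 9]⟩, ⟨p012_k29, nat_lit 0, nat_lit 0, nat_lit 432, nat_lit 0, nat_lit 531973, [nat_lit 1768750000, nat_lit 2254944000], [], [nat_lit 6954838256, nat_lit 6507589774, nat_lit 7398161732, nat_lit 6398600016], nat_lit 1271250, nat_lit 1271250, nat_lit 111251, nat_lit 490000, nat_lit 0, nat_lit 0, [nat_lit 1412500, nat_lit 1271250], [nat_lit 26, nat_lit 40, nat_lit 20, nat_lit 80, nat_lit 2, nat_lit 317, nat_lit 100, nat_lit 11]⟩,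
 ⟨nat_lit 5477, nat_lit 5701, ⟨.ofNat (nat_lit 176105), .ofNat (nat_lit 291183), .ofNat (nat_lit 186776), .ofNat (nat_lit 301854), .ofNat (nat_lit 184157), .ofNat (nat_lit 296556), .ofNat (nat_lit 194835), .ofNat (nat_lit 307235)⟩, ⟨.ofNat (nat_lit 0), .ofNat (nat_lit 0), .ofNat (nat_lit 0), .ofNat (nat_lit 0), .ofNat (nat_lit 0), .ofNat (nat_lit 0), .ofNat (nat_lit 0), .ofNat (nat_lit 0)⟩⟩, [⟨nat_lit 0, nat_lit 100, nat_lit 93, nat_lit 49, nat_lit 99103082⟩]⟩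
noncomputable def p012_l172 : Lf2 := ⟨nat_lit 0, nat_lit 2, [nat_lit 10, nat_lit 5, nat_lit 5, nat_lit 20], false, nat_lit 0, nat_lit 0, nat_lit 0, nat_lit 0, ⟨nat_lit 482, nat_lit 0, nat_lit 518, nat_lit 5, nat_lit 100, nat_lit 0, nat_lit 0, nat_lit 0, nat_lit 0, nat_lit 215, nat_lit 93750, nat_lit 290, nat_lit 63070456, nat_lit 0, nat_lit 0, nat_lit 1116175, false, false⟩,
 nat_lit 10909, nat_lit 0, nat_lit 0, nat_lit 0, nat_lit 6350, nat_lit 5494, nat_lit 1678, nat_lit 0, nat_lit 0, nat_lit 50, nat_lit 0, nat_lit 0, nat_lit 0, nat_lit 0, nat_lit 0, nat_lit 518000, nat_lit 0, nat_lit 0, [(nat_lit 9, [(nat_lit 6, nat_lit 518)])],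
 ⟨p012_k16, nat_lit 0, nat_lit 0, nat_lit 331, nat_lit 0, nat_lit 462392, [nat_lit 2828172800, nat_lit 2629180000], [], [nat_lit 19542766950, nat_lit 19838572200, nat_lit 21481981050, nat_lit 18448662250], nat_lit 1271250, nat_lit 1271250, nat_lit 111251, nat_lit 490000, nat_lit 0, nat_lit 0, [nat_lit 1100000, nat_lit 1442500], [nat_lit 31, nat_lit 40, nat_lit 20, nat_lit 80, nat_lit 3, nat_lit 226, nat_lit 20, nat_lit 9]⟩, ⟨p012_k37, nat_lit 0, nat_lit 0, nat_lit 435, nat_lit 0, nat_lit 536407, [nat_lit 3012500000, nat_lit 3840576000], [], [nat_lit 11838202700, nat_lit 11546804146, nat_lit 12618607474, nat_lit 11249815832], nat_lit 1271250, nat_lit 1271250, nat_lit 111251, nat_lit 490000, nat_lit 0, nat_lit 0, [nat_lit 1412500, nat_lit 1271250], [nat_lit 26, nat_lit 40, nat_lit 20, nat_lit 80, nat_lit 2, nat_lit 317, nat_lit 100, nat_lit 11]⟩,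
 ⟨nat_lit 5477, nat_lit 5917, ⟨.ofNat (nat_lit 178606), .ofNat (nat_lit 296407), .ofNat (nat_lit 189276), .ofNat (nat_lit 307076), .ofNat (nat_lit 194835), .ofNat (nat_lit 307235), .ofNat (nat_lit 205514), .ofNat (nat_lit 317913)⟩, ⟨.ofNat (nat_lit 0), .ofNat (nat_lit 0), .ofNat (nat_lit 0), .ofNat (nat_lit 0), .ofNat (nat_lit 0), .ofNat (nat_lit 0), .ofNat (nat_lit 0), .ofNat (nat_lit 0)⟩⟩, [⟨nat_lit 0, nat_lit 100, nat_lit 95, nat_lit 52, nat_lit 198074650⟩]⟩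
noncomputable def p012_l173 : Lf2 := ⟨nat_lit 0, nat_lit 5, [nat_lit 4, nat_lit 5, nat_lit 5, nat_lit 20], true, nat_lit 0, nat_lit 0, nat_lit 0, nat_lit 0, ⟨nat_lit 0, nat_lit 0, nat_lit 1000, nat_lit 5, nat_lit 93, nat_lit 0, nat_lit 0, nat_lit 0, nat_lit 0, nat_lit 215, nat_lit 79350, nat_lit 284, nat_lit 63586533, nat_lit 0, nat_lit 0, nat_lit 1006466, false, false⟩,
 nat_lit 0, nat_lit 7044, nat_lit 0, nat_lit 0, nat_lit 4100, nat_lit 0, nat_lit 0, nat_lit 0, nat_lit 0, nat_lit 0, nat_lit 0, nat_lit 0, nat_lit 0, nat_lit 0, nat_lit 117, nat_lit 1000000, nat_lit 0, nat_lit 0, [(nat_lit 9, [(nat_lit 6, nat_lit 1000)])],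
 ⟨p012_k6, nat_lit 0, nat_lit 0, nat_lit 364, nat_lit 0, nat_lit 331888, [nat_lit 3178400000, nat_lit 158133334], [], [nat_lit 14398492401, nat_lit 15045075241, nat_lit 14601357668, nat_lit 14351663800], nat_lit 1271250, nat_lit 1271250, nat_lit 88400, nat_lit 490000, nat_lit 0, nat_lit 0, [nat_lit 1100000, nat_lit 1785000], [nat_lit 39, nat_lit 40, nat_lit 20, nat_lit 80, nat_lit 7, nat_lit 226, nat_lit 20, nat_lit 8]⟩, C1.Rw.none,
 ⟨nat_lit 5700, nat_lit 5917, ⟨.ofNat (nat_lit 160083), .ofNat (nat_lit 285737), .ofNat (nat_lit 170753), .ofNat (nat_lit 296407), .ofNat (nat_lit 168433), .ofNat (nat_lit 291183), .ofNat (nat_lit 179104), .ofNat (nat_lit 301854)⟩, ⟨.ofNat (nat_lit 0), .ofNat (nat_lit 0), .ofNat (nat_lit 0), .ofNat (nat_lit 0), .ofNat (nat_lit 0), .ofNat (nat_lit 0), .ofNat (nat_lit 0), .ofNat (nat_lit 0)⟩⟩, [⟨nat_lit 0, nat_lit 100, nat_lit 95, nat_lit 49, nat_lit 117156657⟩]⟩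
noncomputable def p012_l174 : Lf2 := ⟨nat_lit 0, nat_lit 5, [nat_lit 4, nat_lit 5, nat_lit 5, nat_lit 20], true, nat_lit 0, nat_lit 0, nat_lit 0, nat_lit 0, ⟨nat_lit 0, nat_lit 0, nat_lit 1000, nat_lit 5, nat_lit 98, nat_lit 0, nat_lit 0, nat_lit 0, nat_lit 0, nat_lit 215, nat_lit 91267, nat_lit 289, nat_lit 63169584, nat_lit 0, nat_lit 0, nat_lit 1095541, false, false⟩,
 nat_lit 0, nat_lit 6834, nat_lit 0, nat_lit 0, nat_lit 3977, nat_lit 0, nat_lit 0, nat_lit 0, nat_lit 0, nat_lit 0, nat_lit 0, nat_lit 0, nat_lit 0, nat_lit 0, nat_lit 117, nat_lit 1000000, nat_lit 0, nat_lit 0, [(nat_lit 9, [(nat_lit 6, nat_lit 1000)])],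
 ⟨p012_k11, nat_lit 0, nat_lit 0, nat_lit 372, nat_lit 0, nat_lit 362902, [nat_lit 2969600000, nat_lit 1600000000, nat_lit 226400000], [], [nat_lit 13833435454, nat_lit 14469796119, nat_lit 13385156912, nat_lit 13988443456], nat_lit 1271250, nat_lit 1271250, nat_lit 111251, nat_lit 490000, nat_lit 0, nat_lit 0, [nat_lit 1100000, nat_lit 1442500, nat_lit 1271250], [nat_lit 9, nat_lit 40, nat_lit 20, nat_lit 80, nat_lit 2, nat_lit 226, nat_lit 20, nat_lit 8]⟩, C1.Rw.none,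
 ⟨nat_lit 5700, nat_lit 5917, ⟨.ofNat (nat_lit 178606), .ofNat (nat_lit 296407), .ofNat (nat_lit 189276), .ofNat (nat_lit 307076), .ofNat (nat_lit 186776), .ofNat (nat_lit 301854), .ofNat (nat_lit 197447), .ofNat (nat_lit 312525)⟩, ⟨.ofNat (nat_lit 0), .ofNat (nat_lit 0), .ofNat (nat_lit 0), .ofNat (nat_lit 0), .ofNat (nat_lit 0), .ofNat (nat_lit 0), .ofNat (nat_lit 0), .ofNat (nat_lit 0)⟩⟩, [⟨nat_lit 0, nat_lit 100, nat_lit 96, nat_lit 54, nat_lit 149867939⟩]⟩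
noncomputable def p012_l175 : Lf2 := ⟨nat_lit 0, nat_lit 5, [nat_lit 4, nat_lit 5, nat_lit 5, nat_lit 20], false, nat_lit 0, nat_lit 0, nat_lit 0, nat_lit 0, ⟨nat_lit 115, nat_lit 0, nat_lit 885, nat_lit 5, nat_lit 98, nat_lit 0, nat_lit 0, nat_lit 0, nat_lit 0, nat_lit 215, nat_lit 91267, nat_lit 289, nat_lit 63176793, nat_lit 0, nat_lit 0, nat_lit 1094032, false, false⟩,
 nat_lit 3116, nat_lit 4202, nat_lit 0, nat_lit 0, nat_lit 4456, nat_lit 1490, nat_lit 0, nat_lit 0, nat_lit 0, nat_lit 440, nat_lit 0, nat_lit 0, nat_lit 0, nat_lit 0, nat_lit 65, nat_lit 885000, nat_lit 0, nat_lit 0, [(nat_lit 9, [(nat_lit 6, nat_lit 885)])],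
 ⟨p012_k9, nat_lit 0, nat_lit 0, nat_lit 373, nat_lit 0, nat_lit 367823, [nat_lit 2735284000, nat_lit 122218000], [], [nat_lit 15529737008, nat_lit 15815434568, nat_lit 14756592568, nat_lit 15074922284], nat_lit 1271250, nat_lit 1271250, nat_lit 111251, nat_lit 490000, nat_lit 0, nat_lit 0, [nat_lit 1100000, nat_lit 1785000], [nat_lit 39, nat_lit 40, nat_lit 20, nat_lit 80, nat_lit 7, nat_lit 226, nat_lit 20, nat_lit 8]⟩, ⟨p012_k25, nat_lit 0, nat_lit 0, nat_lit 491, nat_lit 0, nat_lit 475395, [nat_lit 718750000, nat_lit 1131830000], [], [nat_lit 2972011400, nat_lit 3064341240, nat_lit 3151650600, nat_lit 2409409360], nat_lit 1271250, nat_lit 1271250, nat_lit 111251, nat_lit 490000, nat_lit 0, nat_lit 0, [nat_lit 1412500, nat_lit 1271250], [nat_lit 51, nat_lit 40, nat_lit 20, nat_lit 80, nat_lit 1, nat_lit 317, nat_lit 100, nat_lit 10]⟩,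
 ⟨nat_lit 5590, nat_lit 5701, ⟨.ofNat (nat_lit 176105), .ofNat (nat_lit 291183), .ofNat (nat_lit 197447), .ofNat (nat_lit 312525), .ofNat (nat_lit 180144), .ofNat (nat_lit 293878), .ofNat (nat_lit 201492), .ofNat (nat_lit 315226)⟩, ⟨.ofNat (nat_lit 0), .ofNat (nat_lit 0), .ofNat (nat_lit 0), .ofNat (nat_lit 0), .ofNat (nat_lit 0), .ofNat (nat_lit 0), .ofNat (nat_lit 0), .ofNat (nat_lit 0)⟩⟩, [⟨nat_lit 0, nat_lit 100, nat_lit 95, nat_lit 56, nat_lit 302584658⟩]⟩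
noncomputable def p012_l176 : Lf2 := ⟨nat_lit 0, nat_lit 5, [nat_lit 4, nat_lit 5, nat_lit 5, nat_lit 20], true, nat_lit 0, nat_lit 0, nat_lit 0, nat_lit 0, ⟨nat_lit 0, nat_lit 0, nat_lit 1000, nat_lit 5, nat_lit 98, nat_lit 0, nat_lit 0, nat_lit 0, nat_lit 0, nat_lit 215, nat_lit 88817, nat_lit 288, nat_lit 63234590, nat_lit 0, nat_lit 0, nat_lit 1081900, false, false⟩,
 nat_lit 0, nat_lit 6224, nat_lit 0, nat_lit 0, nat_lit 3875, nat_lit 0, nat_lit 0, nat_lit 0, nat_lit 0, nat_lit 0, nat_lit 0, nat_lit 0, nat_lit 0, nat_lit 0, nat_lit 117, nat_lit 1000000, nat_lit 0, nat_lit 0, [(nat_lit 9, [(nat_lit 6, nat_lit 1000)])],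
 ⟨p012_k38, nat_lit 0, nat_lit 0, nat_lit 371, nat_lit 0, nat_lit 353914, [nat_lit 2969600000, nat_lit 1600000000, nat_lit 226400000], [], [nat_lit 14960742063, nat_lit 15275090000, nat_lit 14504780000, nat_lit 14802870000], nat_lit 1271250, nat_lit 1271250, nat_lit 111251, nat_lit 490000, nat_lit 0, nat_lit 0, [nat_lit 1100000, nat_lit 1442500, nat_lit 1271250], [nat_lit 9, nat_lit 40, nat_lit 20, nat_lit 80, nat_lit 2, nat_lit 226, nat_lit 20, nat_lit 8]⟩, C1.Rw.none,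
 ⟨nat_lit 5477, nat_lit 5591, ⟨.ofNat (nat_lit 180144), .ofNat (nat_lit 293878), .ofNat (nat_lit 190818), .ofNat (nat_lit 304552), .ofNat (nat_lit 184157), .ofNat (nat_lit 296556), .ofNat (nat_lit 194835), .ofNat (nat_lit 307235)⟩, ⟨.ofNat (nat_lit 0), .ofNat (nat_lit 0), .ofNat (nat_lit 0), .ofNat (nat_lit 0), .ofNat (nat_lit 0), .ofNat (nat_lit 0), .ofNat (nat_lit 0), .ofNat (nat_lit 0)⟩⟩, [⟨nat_lit 0, nat_lit 100, nat_lit 93, nat_lit 54, nat_lit 147710334⟩]⟩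
noncomputable def p012_l177 : Lf2 := ⟨nat_lit 0, nat_lit 5, [nat_lit 4, nat_lit 5, nat_lit 5, nat_lit 20], true, nat_lit 0, nat_lit 0, nat_lit 0, nat_lit 0, ⟨nat_lit 0, nat_lit 0, nat_lit 1000, nat_lit 5, nat_lit 102, nat_lit 0, nat_lit 0, nat_lit 0, nat_lit 0, nat_lit 215, nat_lit 98817, nat_lit 292, nat_lit 62885253, nat_lit 0, nat_lit 0, nat_lit 1154198, false, false⟩,
 nat_lit 0, nat_lit 6293, nat_lit 0, nat_lit 0, nat_lit 3918, nat_lit 0, nat_lit 0, nat_lit 0, nat_lit 0, nat_lit 0, nat_lit 0, nat_lit 0, nat_lit 0, nat_lit 0, nat_lit 117, nat_lit 1000000, nat_lit 0, nat_lit 0, [(nat_lit 9, [(nat_lit 6, nat_lit 1000)])],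
 ⟨p012_k38, nat_lit 0, nat_lit 0, nat_lit 373, nat_lit 0, nat_lit 367241, [nat_lit 2969600000, nat_lit 1600000000, nat_lit 226400000], [], [nat_lit 14817009315, nat_lit 15132084391, nat_lit 14414272052, nat_lit 14713860000], nat_lit 1271250, nat_lit 1271250, nat_lit 134400, nat_lit 490000, nat_lit 0, nat_lit 0, [nat_lit 1100000, nat_lit 1442500, nat_lit 1271250], [nat_lit 9, nat_lit 40, nat_lit 20, nat_lit 80, nat_lit 2, nat_lit 226, nat_lit 20, nat_lit 8]⟩, C1.Rw.none,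
 ⟨nat_lit 5477, nat_lit 5591, ⟨.ofNat (nat_lit 198400), .ofNat (nat_lit 304552), .ofNat (nat_lit 203737), .ofNat (nat_lit 309889), .ofNat (nat_lit 202329), .ofNat (nat_lit 307235), .ofNat (nat_lit 207668), .ofNat (nat_lit 312574)⟩, ⟨.ofNat (nat_lit 0), .ofNat (nat_lit 0), .ofNat (nat_lit 0), .ofNat (nat_lit 0), .ofNat (nat_lit 0), .ofNat (nat_lit 0), .ofNat (nat_lit 0), .ofNat (nat_lit 0)⟩⟩, [⟨nat_lit 0, nat_lit 100, nat_lit 93, nat_lit 56, nat_lit 147926158⟩]⟩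
noncomputable def p012_l178 : Lf2 := ⟨nat_lit 0, nat_lit 5, [nat_lit 4, nat_lit 5, nat_lit 5, nat_lit 20], false, nat_lit 0, nat_lit 0, nat_lit 0, nat_lit 0, ⟨nat_lit 551, nat_lit 0, nat_lit 449, nat_lit 5, nat_lit 106, nat_lit 0, nat_lit 0, nat_lit 0, nat_lit 0, nat_lit 215, nat_lit 104017, nat_lit 294, nat_lit 62606599, nat_lit 0, nat_lit 0, nat_lit 1210167, false, false⟩,
 nat_lit 11614, nat_lit 0, nat_lit 0, nat_lit 0, nat_lit 7231, nat_lit 5998, nat_lit 352, nat_lit 0, nat_lit 0, nat_lit 1141, nat_lit 0, nat_lit 0, nat_lit 0, nat_lit 0, nat_lit 0, nat_lit 449000, nat_lit 0, nat_lit 0, [(nat_lit 9, [(nat_lit 6, nat_lit 449)])],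
 ⟨p012_k38, nat_lit 0, nat_lit 0, nat_lit 375, nat_lit 0, nat_lit 381163, [nat_lit 3075910401, nat_lit 3111490000, nat_lit 3209740600], [], [nat_lit 20321334957, nat_lit 20548470553, nat_lit 17351169106, nat_lit 17848617644], nat_lit 1271250, nat_lit 1271250, nat_lit 157850, nat_lit 490000, nat_lit 0, nat_lit 0, [nat_lit 1100000, nat_lit 1442500, nat_lit 1271250], [nat_lit 9, nat_lit 40, nat_lit 20, nat_lit 80, nat_lit 2, nat_lit 226, nat_lit 20, nat_lit 8]⟩, ⟨p012_k39, nat_lit 0, nat_lit 0, nat_lit 491, nat_lit 0, nat_lit 464549, [nat_lit 3443750000, nat_lit 4390368000, nat_lit 5422942000], [], [nat_lit 13144525836, nat_lit 13252487330, nat_lit 14040781485, nat_lit 13293601628], nat_lit 1271250, nat_lit 1271250, nat_lit 157850, nat_lit 490000, nat_lit 0, nat_lit 0, [nat_lit 1412500, nat_lit 1271250, nat_lit 1271250], [nat_lit 25, nat_lit 40, nat_lit 20, nat_lit 80, nat_lit 17, nat_lit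 317, nat_lit 100, nat_lit 10]⟩,
 ⟨nat_lit 5477, nat_lit 5591, ⟨.ofNat (nat_lit 211320), .ofNat (nat_lit 309889), .ofNat (nat_lit 216657), .ofNat (nat_lit 315226), .ofNat (nat_lit 215161), .ofNat (nat_lit 312574), .ofNat (nat_lit 220501), .ofNat (nat_lit 317913)⟩, ⟨.ofNat (nat_lit 0), .ofNat (nat_lit 0), .ofNat (nat_lit 0), .ofNat (nat_lit 0), .ofNat (nat_lit 0), .ofNat (nat_lit 0), .ofNat (nat_lit 0), .ofNat (nat_lit 0)⟩⟩, [⟨nat_lit 0, nat_lit 100, nat_lit 94, nat_lit 56, nat_lit 643309150⟩]⟩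
noncomputable def p012_l179 : Lf2 := ⟨nat_lit 0, nat_lit 5, [nat_lit 4, nat_lit 5, nat_lit 5, nat_lit 20], false, nat_lit 0, nat_lit 0, nat_lit 0, nat_lit 0, ⟨nat_lit 61, nat_lit 0, nat_lit 939, nat_lit 5, nat_lit 96, nat_lit 0, nat_lit 0, nat_lit 0, nat_lit 0, nat_lit 215, nat_lit 86400, nat_lit 287, nat_lit 63338492, nat_lit 0, nat_lit 0, nat_lit 1059911, false, false⟩,
 nat_lit 1409, nat_lit 5470, nat_lit 0, nat_lit 0, nat_lit 4004, nat_lit 673, nat_lit 0, nat_lit 0, nat_lit 0, nat_lit 185, nat_lit 0, nat_lit 0, nat_lit 0, nat_lit 0, nat_lit 89, nat_lit 939000, nat_lit 0, nat_lit 0, [(nat_lit 9, [(nat_lit 6, nat_lit 939)])],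
 ⟨p012_k11, nat_lit 0, nat_lit 0, nat_lit 370, nat_lit 0, nat_lit 339358, [nat_lit 2740614400, nat_lit 1466390000, nat_lit 195546600], [], [nat_lit 15024329725, nat_lit 15880887064, nat_lit 14374452240, nat_lit 15192883200], nat_lit 1271250, nat_lit 1271250, nat_lit 88400, nat_lit 490000, nat_lit 0, nat_lit 0, [nat_lit 1100000, nat_lit 1442500, nat_lit 1271250], [nat_lit 9, nat_lit 40, nat_lit 20, nat_lit 80, nat_lit 2, nat_lit 226, nat_lit 20, nat_lit 8]⟩, ⟨p012_k34, nat_lit 0, nat_lit 0, nat_lit 486, nat_lit 0, nat_lit 422490, [nat_lit 381250000, nat_lit 486048000, nat_lit 600362000], [], [nat_lit 1700129258, nat_lit 1525121461, nat_lit 1793284826, nat_lit 1457938348], nat_lit 1271250, nat_lit 1271250, nat_lit 88400, nat_lit 490000, nat_lit 0, nat_lit 0, [nat_lit 1412500, nat_lit 1271250, nat_lit 1271250], [nat_lit 25, nat_lit 40, nat_lit 20, nat_lit 80, nat_lit 17, nat_lit 317, nat_lit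 100, nat_lit 10]⟩,
 ⟨nat_lit 5477, nat_lit 5917, ⟨.ofNat (nat_lit 160083), .ofNat (nat_lit 285737), .ofNat (nat_lit 181423), .ofNat (nat_lit 307076), .ofNat (nat_lit 176664), .ofNat (nat_lit 296556), .ofNat (nat_lit 198021), .ofNat (nat_lit 317913)⟩, ⟨.ofNat (nat_lit 0), .ofNat (nat_lit 0), .ofNat (nat_lit 0), .ofNat (nat_lit 0), .ofNat (nat_lit 0), .ofNat (nat_lit 0), .ofNat (nat_lit 0), .ofNat (nat_lit 0)⟩⟩, [⟨nat_lit 0, nat_lit 100, nat_lit 95, nat_lit 49, nat_lit 193875965⟩, ⟨nat_lit 0, nat_lit 100, nat_lit 94, nat_lit 59, nat_lit 9142524⟩]⟩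
noncomputable def p012_l180 : Lf2 := ⟨nat_lit 0, nat_lit 5, [nat_lit 4, nat_lit 5, nat_lit 5, nat_lit 20], false, nat_lit 0, nat_lit 0, nat_lit 0, nat_lit 0, ⟨nat_lit 435, nat_lit 0, nat_lit 565, nat_lit 5, nat_lit 136, nat_lit 0, nat_lit 0, nat_lit 0, nat_lit 0, nat_lit 215, nat_lit 173400, nat_lit 317, nat_lit 60050508, nat_lit 0, nat_lit 0, nat_lit 1665941, false, false⟩,
 nat_lit 14279, nat_lit 0, nat_lit 0, nat_lit 0, nat_lit 8311, nat_lit 6829, nat_lit 674, nat_lit 0, nat_lit 0, nat_lit 1640, nat_lit 0, nat_lit 0, nat_lit 0, nat_lit 0, nat_lit 0, nat_lit 565000, nat_lit 0, nat_lit 0, [(nat_lit 9, [(nat_lit 6, nat_lit 565)])],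
 ⟨p012_k6, nat_lit 0, nat_lit 0, nat_lit 391, nat_lit 0, nat_lit 527936, [nat_lit 2777396000, nat_lit 1934975334], [], [nat_lit 19287754250, nat_lit 17656420344, nat_lit 20471652452, nat_lit 16707168944], nat_lit 1271250, nat_lit 1271250, nat_lit 490000, nat_lit 780000, nat_lit 0, nat_lit 0, [nat_lit 1100000, nat_lit 1785000], [nat_lit 39, nat_lit 40, nat_lit 20, nat_lit 80, nat_lit 7, nat_lit 238, nat_lit 30, nat_lit 8]⟩, ⟨p012_k25, nat_lit 0, nat_lit 0, nat_lit 520, nat_lit 0, nat_lit 657263, [nat_lit 2718750000, nat_lit 4281270000], [], [nat_lit 10685934682, nat_lit 8730853576, nat_lit 12354824550, nat_lit 9000269512], nat_lit 1271250, nat_lit 1271250, nat_lit 490000, nat_lit 780000, nat_lit 0, nat_lit 0, [nat_lit 1412500, nat_lit 1271250], [nat_lit 51, nat_lit 40, nat_lit 20, nat_lit 80, nat_lit 1, nat_lit 317, nat_lit 100, nat_lit 9]⟩,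
 ⟨nat_lit 5477, nat_lit 5917, ⟨.ofNat (nat_lit 285737), .ofNat (nat_lit 364271), .ofNat (nat_lit 307076), .ofNat (nat_lit 385610), .ofNat (nat_lit 296556), .ofNat (nat_lit 371489), .ofNat (nat_lit 317913), .ofNat (nat_lit 392847)⟩, ⟨.ofNat (nat_lit 0), .ofNat (nat_lit 0), .ofNat (nat_lit 0), .ofNat (nat_lit 0), .ofNat (nat_lit 0), .ofNat (nat_lit 0), .ofNat (nat_lit 0), .ofNat (nat_lit 0)⟩⟩, []⟩
noncomputable def p012_l181 : Lf2 := ⟨nat_lit 0, nat_lit 5, [nat_lit 4, nat_lit 5, nat_lit 5, nat_lit 20], false, nat_lit 0, nat_lit 0, nat_lit 0, nat_lit 0, ⟨nat_lit 193, nat_lit 0, nat_lit 807, nat_lit 5, nat_lit 167, nat_lit 0, nat_lit 0, nat_lit 0, nat_lit 0, nat_lit 215, nat_lit 104024, nat_lit 294, nat_lit 57078451, nat_lit 0, nat_lit 0, nat_lit 2096843, false, false⟩,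
 nat_lit 6765, nat_lit 0, nat_lit 0, nat_lit 0, nat_lit 3937, nat_lit 3235, nat_lit 0, nat_lit 0, nat_lit 0, nat_lit 515, nat_lit 0, nat_lit 0, nat_lit 0, nat_lit 0, nat_lit 30, nat_lit 807000, nat_lit 0, nat_lit 0, [(nat_lit 9, [(nat_lit 6, nat_lit 807)])],
 ⟨p012_k6, nat_lit 0, nat_lit 0, nat_lit 376, nat_lit 0, nat_lit 527936, [nat_lit 2439048800, nat_lit 104327600], [], [nat_lit 21129160482, nat_lit 19799035292, nat_lit 20623177978, nat_lit 20501094384], nat_lit 1271250, nat_lit 1271250, nat_lit 780000, nat_lit 1100001, nat_lit 0, nat_lit 0, [nat_lit 1100000, nat_lit 1785000], [nat_lit 39, nat_lit 40, nat_lit 20, nat_lit 80, nat_lit 7, nat_lit 249, nat_lit 40, nat_lit 8]⟩, ⟨p012_k25, nat_lit 0, nat_lit 0, nat_lit 502, nat_lit 0, nat_lit 657263, [nat_lit 1206250000, nat_lit 1899506000], [], [nat_lit 5304088266, nat_lit 3815952020, nat_lit 6535940678, nat_lit 4969042548], nat_lit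 1271250, nat_lit 1271250, nat_lit 780000, nat_lit 1100001, nat_lit 0, nat_lit 0, [nat_lit 1412500, nat_lit 1271250], [nat_lit 51, nat_lit 40, nat_lit 20, nat_lit 80, nat_lit 1, nat_lit 317, nat_lit 100, nat_lit 9]⟩,
 ⟨nat_lit 5477, nat_lit 5917, ⟨.ofNat (nat_lit 364271), .ofNat (nat_lit 442804), .ofNat (nat_lit 385610), .ofNat (nat_lit 464143), .ofNat (nat_lit 371489), .ofNat (nat_lit 446423), .ofNat (nat_lit 392847), .ofNat (nat_lit 467780)⟩, ⟨.ofNat (nat_lit 0), .ofNat (nat_lit 0), .ofNat (nat_lit 0), .ofNat (nat_lit 0), .ofNat (nat_lit 0), .ofNat (nat_lit 0), .ofNat (nat_lit 0), .ofNat (nat_lit 0)⟩⟩, []⟩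
noncomputable def p012_l182 : Lf2 := ⟨nat_lit 0, nat_lit 5, [nat_lit 4, nat_lit 5, nat_lit 5, nat_lit 20], false, nat_lit 0, nat_lit 0, nat_lit 0, nat_lit 0, ⟨nat_lit 1000, nat_lit 0, nat_lit 0, nat_lit 0, nat_lit 0, nat_lit 0, nat_lit 0, nat_lit 0, nat_lit 0, nat_lit 0, nat_lit 0, nat_lit 0, nat_lit 0, nat_lit 0, nat_lit 0, nat_lit 0, false, false⟩,
 nat_lit 19596, nat_lit 0, nat_lit 0, nat_lit 0, nat_lit 11406, nat_lit 9371, nat_lit 1764, nat_lit 0, nat_lit 0, nat_lit 2188, nat_lit 0, nat_lit 0, nat_lit 0, nat_lit 0, nat_lit 0, nat_lit 0, nat_lit 0, nat_lit 0, [],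
 ⟨p012_k6, nat_lit 0, nat_lit 0, nat_lit 367, nat_lit 0, nat_lit 527936, [nat_lit 4688000000, nat_lit 7968000000], [], [nat_lit 20021802764, nat_lit 20183316112, nat_lit 32218011500, nat_lit 26843435864], nat_lit 1271250, nat_lit 1271250, nat_lit 1100001, nat_lit 1785000, nat_lit 0, nat_lit 0, [nat_lit 1100000, nat_lit 1785000], [nat_lit 39, nat_lit 40, nat_lit 20, nat_lit 80, nat_lit 7, nat_lit 272, nat_lit 60, nat_lit 9]⟩, ⟨p012_k25, nat_lit 0, nat_lit 0, nat_lit 489, nat_lit 0, nat_lit 657263, [nat_lit 6250000000, nat_lit 9842000000], [], [nat_lit 31990098406, nat_lit 30258603296, nat_lit 30616305630, nat_lit 30887269472], nat_lit 1271250, nat_lit 1271250, nat_lit 1100001, nat_lit 1785000, nat_lit 0, nat_lit 0, [nat_lit 1412500, nat_lit 1271250], [nat_lit 51, nat_lit 40, nat_lit 20, nat_lit 80, nat_lit 1, nat_lit 345, nat_lit 125, nat_lit 10]⟩,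
 zbF0, []⟩
noncomputable def p012_l183 : Lf2 := ⟨nat_lit 0, nat_lit 5, [nat_lit 4, nat_lit 5, nat_lit 5, nat_lit 20], false, nat_lit 0, nat_lit 0, nat_lit 0, nat_lit 0, ⟨nat_lit 1000, nat_lit 0, nat_lit 0, nat_lit 0, nat_lit 0, nat_lit 0, nat_lit 0, nat_lit 0, nat_lit 0, nat_lit 0, nat_lit 0, nat_lit 0, nat_lit 0, nat_lit 0, nat_lit 0, nat_lit 0, false, false⟩,
 nat_lit 15687, nat_lit 0, nat_lit 0, nat_lit 0, nat_lit 8969, nat_lit 7502, nat_lit 203, nat_lit 0, nat_lit 0, nat_lit 2883, nat_lit 0, nat_lit 0, nat_lit 0, nat_lit 0, nat_lit 0, nat_lit 0, nat_lit 0, nat_lit 0, [],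
 ⟨p012_k6, nat_lit 0, nat_lit 0, nat_lit 390, nat_lit 0, nat_lit 527936, [nat_lit 4688000000, nat_lit 7968000000], [], [nat_lit 32404159970, nat_lit 33135894548, nat_lit 42379577676, nat_lit 43487340904], nat_lit 1271250, nat_lit 1271250, nat_lit 1271250, nat_lit 1271250, nat_lit 0, nat_lit 0, [nat_lit 1100000, nat_lit 1785000], [nat_lit 39, nat_lit 40, nat_lit 20, nat_lit 80, nat_lit 7, nat_lit 203, nat_lit 0, nat_lit 6]⟩, ⟨p012_k25, nat_lit 0, nat_lit 0, nat_lit 492, nat_lit 0, nat_lit 657263, [nat_lit 6250000000, nat_lit 9842000000], [], [nat_lit 32477203480, nat_lit 32668945060, nat_lit 37473015380, nat_lit 37602060440], nat_lit 1271250, nat_lit 1271250, nat_lit 1271250, nat_lit 1271250, nat_lit 0, nat_lit 0, [nat_lit 1412500, nat_lit 1271250], [nat_lit 51, nat_lit 40, nat_lit 20, nat_lit 80, nat_lit 1, nat_lit 401, nat_lit 175, nat_lit 11]⟩,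
 zbF0, []⟩
noncomputable def p012_l184 : Lf2 := ⟨nat_lit 0, nat_lit 5, [nat_lit 4, nat_lit 5, nat_lit 5, nat_lit 20], true, nat_lit 0, nat_lit 0, nat_lit 0, nat_lit 0, ⟨nat_lit 0, nat_lit 1000, nat_lit 0, nat_lit 5, nat_lit 96, nat_lit 0, nat_lit 0, nat_lit 0, nat_lit 0, nat_lit 0, nat_lit 0, nat_lit 0, nat_lit 0, nat_lit 0, nat_lit 0, nat_lit 5000000, false, false⟩,
 nat_lit 0, nat_lit 7945, nat_lit 0, nat_lit 0, nat_lit 4624, nat_lit 0, nat_lit 584, nat_lit 0, nat_lit 0, nat_lit 0, nat_lit 0, nat_lit 0, nat_lit 0, nat_lit 0, nat_lit 0, nat_lit 1000000, nat_lit 0, nat_lit 0, [(nat_lit 9, [(nat_lit 2, nat_lit 1000)])],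
 ⟨p012_k11, nat_lit 0, nat_lit 0, nat_lit 445, nat_lit 0, nat_lit 527936, [nat_lit 2663466667, nat_lit 2329200000, nat_lit 1646800000], [], [nat_lit 25001876014, nat_lit 22608173634, nat_lit 24947220857, nat_lit 22738391545], nat_lit 1271250, nat_lit 1271250, nat_lit 88400, nat_lit 490000, nat_lit 0, nat_lit 0, [nat_lit 1100000, nat_lit 1442500, nat_lit 1271250], [nat_lit 9, nat_lit 40, nat_lit 20, nat_lit 80, nat_lit 2, nat_lit 226, nat_lit 20, nat_lit 8]⟩, C1.Rw.none,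
 ⟨nat_lit 5477, nat_lit 5917, ⟨.ofNat (nat_lit 160083), .ofNat (nat_lit 285737), .ofNat (nat_lit 181423), .ofNat (nat_lit 307076), .ofNat (nat_lit 176664), .ofNat (nat_lit 296556), .ofNat (nat_lit 198021), .ofNat (nat_lit 317913)⟩, ⟨.ofNat (nat_lit 0), .ofNat (nat_lit 0), .ofNat (nat_lit 0), .ofNat (nat_lit 0), .ofNat (nat_lit 0), .ofNat (nat_lit 0), .ofNat (nat_lit 0), .ofNat (nat_lit 0)⟩⟩, []⟩
noncomputable def p012_l185 : Lf2 := ⟨nat_lit 0, nat_lit 5, [nat_lit 4, nat_lit 5, nat_lit 5, nat_lit 20], false, nat_lit 0, nat_lit 0, nat_lit 0, nat_lit 0, ⟨nat_lit 341, nat_lit 659, nat_lit 0, nat_lit 5, nat_lit 136, nat_lit 0, nat_lit 0, nat_lit 0, nat_lit 0, nat_lit 0, nat_lit 0, nat_lit 0, nat_lit 0, nat_lit 0, nat_lit 0, nat_lit 5000000, false, false⟩,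
 nat_lit 0, nat_lit 12170, nat_lit 0, nat_lit 0, nat_lit 7084, nat_lit 4070, nat_lit 1856, nat_lit 0, nat_lit 0, nat_lit 2702, nat_lit 0, nat_lit 0, nat_lit 0, nat_lit 0, nat_lit 0, nat_lit 263600, nat_lit 0, nat_lit 0, [(nat_lit 9, [(nat_lit 1, nat_lit 659)])],
 ⟨p012_k6, nat_lit 0, nat_lit 0, nat_lit 632, nat_lit 0, nat_lit 1019514, [nat_lit 3406113201, nat_lit 4682753200], [], [nat_lit 22509188603, nat_lit 18992503286, nat_lit 24011719697, nat_lit 20627777905], nat_lit 1271250, nat_lit 1271250, nat_lit 490000, nat_lit 780000, nat_lit 0, nat_lit 0, [nat_lit 1100000, nat_lit 1785000], [nat_lit 39, nat_lit 40, nat_lit 20, nat_lit 80, nat_lit 7, nat_lit 238, nat_lit 30, nat_lit 8]⟩, ⟨p012_k25, nat_lit 0, nat_lit 0, nat_lit 147, nat_lit 0, nat_lit 0, [nat_lit 2131250000, nat_lit 3356122000], [], [nat_lit 3867654700, nat_lit 4520545700, nat_lit 3690735180, nat_lit 4308456064], nat_lit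 0, nat_lit 0, nat_lit 0, nat_lit 0, nat_lit 0, nat_lit 0, [], [nat_lit 51, nat_lit 40, nat_lit 20, nat_lit 80, nat_lit 1, nat_lit 317, nat_lit 100, nat_lit 9]⟩,
 ⟨nat_lit 5477, nat_lit 5917, ⟨.ofNat (nat_lit 285737), .ofNat (nat_lit 364271), .ofNat (nat_lit 307076), .ofNat (nat_lit 385610), .ofNat (nat_lit 296556), .ofNat (nat_lit 371489), .ofNat (nat_lit 317913), .ofNat (nat_lit 392847)⟩, ⟨.ofNat (nat_lit 0), .ofNat (nat_lit 0), .ofNat (nat_lit 0), .ofNat (nat_lit 0), .ofNat (nat_lit 0), .ofNat (nat_lit 0), .ofNat (nat_lit 0), .ofNat (nat_lit 0)⟩⟩, []⟩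
noncomputable def p012_l186 : Lf2 := ⟨nat_lit 0, nat_lit 5, [nat_lit 4, nat_lit 5, nat_lit 5, nat_lit 20], false, nat_lit 0, nat_lit 0, nat_lit 0, nat_lit 0, ⟨nat_lit 1000, nat_lit 0, nat_lit 0, nat_lit 0, nat_lit 0, nat_lit 0, nat_lit 0, nat_lit 0, nat_lit 0, nat_lit 0, nat_lit 0, nat_lit 0, nat_lit 0, nat_lit 0, nat_lit 0, nat_lit 0, false, false⟩,
 nat_lit 0, nat_lit 9496, nat_lit 0, nat_lit 0, nat_lit 5527, nat_lit 9473, nat_lit 2589, nat_lit 0, nat_lit 0, nat_lit 984, nat_lit 0, nat_lit 0, nat_lit 0, nat_lit 0, nat_lit 0, nat_lit 0, nat_lit 0, nat_lit 0, [],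
 ⟨p012_k11, nat_lit 0, nat_lit 0, nat_lit 561, nat_lit 0, nat_lit 922783, [nat_lit 4688000000, nat_lit 6250000000, nat_lit 7968000000], [], [nat_lit 34293925129, nat_lit 33161389794, nat_lit 44982086351, nat_lit 43730751443], nat_lit 1271250, nat_lit 1271250, nat_lit 780000, nat_lit 3072500, nat_lit 0, nat_lit 0, [nat_lit 1100000, nat_lit 1442500, nat_lit 1271250], [nat_lit 9, nat_lit 40, nat_lit 20, nat_lit 80, nat_lit 2, nat_lit 317, nat_lit 100, nat_lit 10]⟩, ⟨p012_k34, nat_lit 0, nat_lit 0, nat_lit 226, nat_lit 0, nat_lit 0, [nat_lit 6250000000, nat_lit 7968000000, nat_lit 9842000000], [], [nat_lit 22506476252, nat_lit 23690979228, nat_lit 41825249596, nat_lit 42533725616], nat_lit 0, nat_lit 0, nat_lit 0, nat_lit 0, nat_lit 0, nat_lit 0, [], [nat_lit 25, nat_lit 40, nat_lit 20, nat_lit 80, nat_lit 17, nat_lit 401, nat_lit 175, nat_lit 12]⟩,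
 zbF0, []⟩
noncomputable def p012_l187 : Lf2 := ⟨nat_lit 0, nat_lit 5, [nat_lit 4, nat_lit 5, nat_lit 5, nat_lit 20], false, nat_lit 0, nat_lit 0, nat_lit 0, nat_lit 0, ⟨nat_lit 1000, nat_lit 0, nat_lit 0, nat_lit 0, nat_lit 0, nat_lit 0, nat_lit 0, nat_lit 0, nat_lit 0, nat_lit 0, nat_lit 0, nat_lit 0, nat_lit 0, nat_lit 0, nat_lit 0, nat_lit 0, false, false⟩,
 nat_lit 0, nat_lit 9677, nat_lit 0, nat_lit 0, nat_lit 5893, nat_lit 8791, nat_lit 1745, nat_lit 0, nat_lit 0, nat_lit 1836, nat_lit 0, nat_lit 0, nat_lit 0, nat_lit 0, nat_lit 0, nat_lit 0, nat_lit 0, nat_lit 0, [],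
 ⟨p012_k13, nat_lit 0, nat_lit 0, nat_lit 576, nat_lit 0, nat_lit 958095, [nat_lit 4688000000, nat_lit 6250000000, nat_lit 7968000000], [], [nat_lit 33068424694, nat_lit 31801169354, nat_lit 43713787337, nat_lit 42379588565], nat_lit 1271250, nat_lit 1271250, nat_lit 780000, nat_lit 3072500, nat_lit 0, nat_lit 0, [nat_lit 1100000, nat_lit 1442500, nat_lit 1271250], [nat_lit 9, nat_lit 40, nat_lit 20, nat_lit 80, nat_lit 2, nat_lit 317, nat_lit 100, nat_lit 10]⟩, ⟨p012_k34, nat_lit 0, nat_lit 0, nat_lit 226, nat_lit 0, nat_lit 0, [nat_lit 6250000000, nat_lit 7968000000, nat_lit 9842000000], [], [nat_lit 21234816284, nat_lit 22375594876, nat_lit 40127716132, nat_lit 40826139472], nat_lit 0, nat_lit 0, nat_lit 0, nat_lit 0, nat_lit 0, nat_lit 0, [], [nat_lit 25, nat_lit 40, nat_lit 20, nat_lit 80, nat_lit 17, nat_lit 401, nat_lit 175, nat_lit 12]⟩,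
 zbF0, []⟩
noncomputable def p012_l188 : Lf2 := ⟨nat_lit 0, nat_lit 5, [nat_lit 4, nat_lit 5, nat_lit 5, nat_lit 20], false, nat_lit 0, nat_lit 0, nat_lit 0, nat_lit 0, ⟨nat_lit 55, nat_lit 945, nat_lit 0, nat_lit 5, nat_lit 158, nat_lit 0, nat_lit 0, nat_lit 0, nat_lit 0, nat_lit 0, nat_lit 0, nat_lit 0, nat_lit 0, nat_lit 0, nat_lit 0, nat_lit 5000000, false, false⟩,
 nat_lit 3186, nat_lit 0, nat_lit 0, nat_lit 0, nat_lit 1854, nat_lit 1523, nat_lit 64, nat_lit 0, nat_lit 0, nat_lit 0, nat_lit 0, nat_lit 0, nat_lit 0, nat_lit 0, nat_lit 0, nat_lit 509400, nat_lit 0, nat_lit 0, [(nat_lit 9, [(nat_lit 1, nat_lit 726), (nat_lit 2, nat_lit 219)])],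
 ⟨p012_k6, nat_lit 0, nat_lit 0, nat_lit 431, nat_lit 0, nat_lit 527936, [nat_lit 2941415601, nat_lit 2972423200], [], [nat_lit 34288601086, nat_lit 34872745065, nat_lit 37000378076, nat_lit 37459438777], nat_lit 1271250, nat_lit 1271250, nat_lit 88400, nat_lit 1704000, nat_lit 0, nat_lit 0, [nat_lit 1100000, nat_lit 1785000], [nat_lit 39, nat_lit 40, nat_lit 20, nat_lit 80, nat_lit 7, nat_lit 272, nat_lit 60, nat_lit 9]⟩, ⟨p012_k25, nat_lit 0, nat_lit 0, nat_lit 602, nat_lit 0, nat_lit 657263, [nat_lit 343750000, nat_lit 541310000], [], [nat_lit 2248531526, nat_lit 2476068669, nat_lit 2427548410, nat_lit 1713228872], nat_lit 1271250, nat_lit 1271250, nat_lit 88400, nat_lit 1704000, nat_lit 0, nat_lit 0, [nat_lit 1412500, nat_lit 1271250], [nat_lit 51, nat_lit 40, nat_lit 20, nat_lit 80, nat_lit 1, nat_lit 345, nat_lit 125, nat_lit 11]⟩,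
 ⟨nat_lit 5477, nat_lit 5917, ⟨.ofNat (nat_lit 160083), .ofNat (nat_lit 599845), .ofNat (nat_lit 181423), .ofNat (nat_lit 621176), .ofNat (nat_lit 176664), .ofNat (nat_lit 596262), .ofNat (nat_lit 198021), .ofNat (nat_lit 617611)⟩, ⟨.ofNat (nat_lit 0), .ofNat (nat_lit 0), .ofNat (nat_lit 0), .ofNat (nat_lit 0), .ofNat (nat_lit 0), .ofNat (nat_lit 0), .ofNat (nat_lit 0), .ofNat (nat_lit 0)⟩⟩, []⟩
noncomputable def p012_l189 : Lf2 := ⟨nat_lit 0, nat_lit 5, [nat_lit 4, nat_lit 5, nat_lit 5, nat_lit 20], false, nat_lit 0, nat_lit 0, nat_lit 0, nat_lit 0, ⟨nat_lit 768, nat_lit 232, nat_lit 0, nat_lit 6, nat_lit 305, nat_lit 0, nat_lit 0, nat_lit 0, nat_lit 0, nat_lit 0, nat_lit 0, nat_lit 0, nat_lit 0, nat_lit 0, nat_lit 0, nat_lit 5000000, true, true⟩,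
 nat_lit 12557, nat_lit 0, nat_lit 0, nat_lit 0, nat_lit 7309, nat_lit 6005, nat_lit 348, nat_lit 0, nat_lit 0, nat_lit 1876, nat_lit 0, nat_lit 0, nat_lit 0, nat_lit 0, nat_lit 0, nat_lit 232000, nat_lit 0, nat_lit 0, [(nat_lit 9, [(nat_lit 2, nat_lit 232)])],
 ⟨p012_k6, nat_lit 0, nat_lit 0, nat_lit 390, nat_lit 0, nat_lit 527936, [nat_lit 4333782400, nat_lit 6466774400], [], [nat_lit 30833940188, nat_lit 31389739196, nat_lit 38129639036, nat_lit 39143758344], nat_lit 1271250, nat_lit 1271250, nat_lit 1271250, nat_lit 1271250, nat_lit 0, nat_lit 0, [nat_lit 1100000, nat_lit 1785000], [nat_lit 39, nat_lit 40, nat_lit 20, nat_lit 80, nat_lit 7, nat_lit 203, nat_lit 0, nat_lit 6]⟩, ⟨p012_k25, nat_lit 0, nat_lit 0, nat_lit 492, nat_lit 0, nat_lit 657263, [nat_lit 4800000000, nat_lit 7558656000], [], [nat_lit 25802057662, nat_lit 25943055736, nat_lit 29344968890, nat_lit 29491309960],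 nat_lit 1271250, nat_lit 1271250, nat_lit 1271250, nat_lit 1271250, nat_lit 0, nat_lit 0, [nat_lit 1412500, nat_lit 1271250], [nat_lit 51, nat_lit 40, nat_lit 20, nat_lit 80, nat_lit 1, nat_lit 401, nat_lit 175, nat_lit 11]⟩,
 ⟨nat_lit 5477, nat_lit 5917, ⟨.ofNat (nat_lit 599845), .ofNat (nat_lit 913903), .ofNat (nat_lit 621176), .ofNat (nat_lit 935234), .ofNat (nat_lit 596262), .ofNat (nat_lit 895918), .ofNat (nat_lit 617611), .ofNat (nat_lit 917267)⟩, ⟨.ofNat (nat_lit 0), .ofNat (nat_lit 0), .ofNat (nat_lit 0), .ofNat (nat_lit 0), .ofNat (nat_lit 0), .ofNat (nat_lit 0), .ofNat (nat_lit 0), .ofNat (nat_lit 0)⟩⟩, []⟩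
noncomputable def b_NL_650_550_0_1 : St := ⟨false, nat_lit 1, nat_lit 2, nat_lit 0, nat_lit 20, nat_lit 260, nat_lit 280, nat_lit 220, nat_lit 240, nat_lit 16, nat_lit 400, nat_lit 0, nat_lit 0, nat_lit 0, nat_lit 0, nat_lit 0, nat_lit 0, nat_lit 0, nat_lit 40, nat_lit 0, nat_lit 0, nat_lit 0, nat_lit 0⟩
theorem d_NL_650_550_0_1 (h : EB TB.env) : Dead b_NL_650_550_0_1 := chkB_sound0 h (T :=
(.gv
(.st (nat_lit 1)
(.spl (nat_lit 2) (nat_lit 240)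
(.spl (nat_lit 2) (nat_lit 160)
(.spl (nat_lit 2) (nat_lit 80)
(.spl (nat_lit 6) (nat_lit 20)
(.spl (nat_lit 2) (nat_lit 40)
(.spl (nat_lit 2) (nat_lit 32)
(.spl (nat_lit 6) (nat_lit 8)
(.leaf p012_l155)
(.spl (nat_lit 6) (nat_lit 16)
(.spl (nat_lit 0) (nat_lit 270)
(.leaf p012_l156)
(.trZ (nat_lit 0) (nat_lit 100) (nat_lit 94) (nat_lit 44) (nat_lit 20) (.spl (nat_lit 0) (nat_lit 275)
(.leaf p012_l157)
(.leaf p012_l158))))
(.leaf p012_l159)))
(.spl (nat_lit 0) (nat_lit 270)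
(.leaf p012_l160)
(.leaf p012_l161)))
(.leaf p012_l162))
(.leaf p012_l163))
(.spl (nat_lit 1) (nat_lit 230)
(.spl (nat_lit 1) (nat_lit 225)
(.leaf p012_l164)
(.leaf p012_l165))
(.spl (nat_lit 1) (nat_lit 235)
(.leaf p012_l166)
(.leaf p012_l167))))
(.leaf p012_l168))
(.leaf p012_l169))
(.spl (nat_lit 2) (nat_lit 240)
(.spl (nat_lit 2) (nat_lit 120)
(.spl (nat_lit 2) (nat_lit 80)
(.spl (nat_lit 6) (nat_lit 20)
(.spl (nat_lit 6) (nat_lit 8)
(.spl (nat_lit 1) (nat_lit 230)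
(.spl (nat_lit 0) (nat_lit 270)
(.leaf p012_l170)
(.trZ (nat_lit 0) (nat_lit 100) (nat_lit 94) (nat_lit 44) (nat_lit 20) (.leaf p012_l171)))
(.trZ (nat_lit 0) (nat_lit 100) (nat_lit 96) (nat_lit 44) (nat_lit 20) (.leaf p012_l172)))
(.spl (nat_lit 0) (nat_lit 270)
(.spl (nat_lit 1) (nat_lit 230)
(.leaf p012_l173)
(.trZ (nat_lit 0) (nat_lit 100) (nat_lit 96) (nat_lit 44) (nat_lit 20) (.leaf p012_l174)))
(.trZ (nat_lit 0) (nat_lit 100) (nat_lit 94) (nat_lit 44) (nat_lit 20) (.spl (nat_lit 0) (nat_lit 275)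
(.leaf p012_l175)
(.spl (nat_lit 1) (nat_lit 230)
(.leaf p012_l176)
(.trZ (nat_lit 0) (nat_lit 100) (nat_lit 94) (nat_lit 52) (nat_lit 24) (.spl (nat_lit 1) (nat_lit 235)
(.leaf p012_l177)
(.trZ (nat_lit 0) (nat_lit 100) (nat_lit 94) (nat_lit 54) (nat_lit 28) (.leaf p012_l178)))))))))
(.leaf p012_l179))
(.leaf p012_l180))
(.spl (nat_lit 2) (nat_lit 160)
(.leaf p012_l181)
(.leaf p012_l182)))
(.leaf p012_l183)))
(.st (nat_lit 1)
(.spl (nat_lit 2) (nat_lit 120)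
(.spl (nat_lit 2) (nat_lit 80)
(.leaf p012_l184)
(.leaf p012_l185))
(.spl (nat_lit 0) (nat_lit 270)
(.leaf p012_l186)
(.leaf p012_l187)))
(.spl (nat_lit 2) (nat_lit 240)
(.leaf p012_l188)
(.leaf p012_l189))))) (by decide +kernel)
noncomputable def p012_l190 : Lf2 := ⟨nat_lit 0, nat_lit 5, [nat_lit 4, nat_lit 5, nat_lit 5, nat_lit 20], false, nat_lit 0, nat_lit 0, nat_lit 0, nat_lit 0, ⟨nat_lit 1000, nat_lit 0, nat_lit 0, nat_lit 0, nat_lit 0, nat_lit 0, nat_lit 0, nat_lit 0, nat_lit 0, nat_lit 0, nat_lit 0, nat_lit 0, nat_lit 0, nat_lit 0, nat_lit 0, nat_lit 0, false, false⟩,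
 nat_lit 0, nat_lit 0, nat_lit 0, nat_lit 3482, nat_lit 7073, nat_lit 9756, nat_lit 0, nat_lit 0, nat_lit 0, nat_lit 0, nat_lit 0, nat_lit 0, nat_lit 0, nat_lit 0, nat_lit 0, nat_lit 0, nat_lit 0, nat_lit 0, [],
 ⟨p012_k11, nat_lit 0, nat_lit 0, nat_lit 193, nat_lit 0, nat_lit 0, [nat_lit 4688000000, nat_lit 6250000000, nat_lit 7968000000], [], [nat_lit 25301179706, nat_lit 27348176270, nat_lit 38908090860, nat_lit 39648050188], nat_lit 0, nat_lit 0, nat_lit 0, nat_lit 0, nat_lit 0, nat_lit 0, [], [nat_lit 9, nat_lit 40, nat_lit 20, nat_lit 80, nat_lit 2, nat_lit 317, nat_lit 100, nat_lit 11]⟩, ⟨p012_k34, nat_lit 0, nat_lit 0, nat_lit 229, nat_lit 0, nat_lit 0, [nat_lit 6250000000, nat_lit 7968000000, nat_lit 9842000000], [], [nat_lit 29489379263, nat_lit 31212251812, nat_lit 43814917232, nat_lit 44204395536], nat_lit 0, nat_lit 0, nat_lit 0, nat_lit 0, nat_lit 0, nat_lit 0, [], [nat_lit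 25, nat_lit 40, nat_lit 20, nat_lit 80, nat_lit 17, nat_lit 401, nat_lit 175, nat_lit 12]⟩,
 zbF0, [⟨nat_lit 0, nat_lit 100, nat_lit 96, nat_lit 40, nat_lit 242472458⟩]⟩
noncomputable def p012_l191 : Lf2 := ⟨nat_lit 0, nat_lit 5, [nat_lit 4, nat_lit 5, nat_lit 5, nat_lit 20], true, nat_lit 0, nat_lit 0, nat_lit 0, nat_lit 0, ⟨nat_lit 0, nat_lit 0, nat_lit 1000, nat_lit 5, nat_lit 158, nat_lit 0, nat_lit 0, nat_lit 0, nat_lit 0, nat_lit 215, nat_lit 2161, nat_lit 205, nat_lit 58001332, nat_lit 0, nat_lit 0, nat_lit 1972476, false, false⟩,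
 nat_lit 0, nat_lit 0, nat_lit 0, nat_lit 3164, nat_lit 4071, nat_lit 0, nat_lit 0, nat_lit 0, nat_lit 0, nat_lit 0, nat_lit 0, nat_lit 0, nat_lit 0, nat_lit 0, nat_lit 55, nat_lit 400000, nat_lit 0, nat_lit 0, [(nat_lit 9, [(nat_lit 5, nat_lit 1000)])],
 ⟨p012_k6, nat_lit 0, nat_lit 0, nat_lit 171, nat_lit 0, nat_lit 0, [nat_lit 2406400000, nat_lit 19600000], [], [nat_lit 14598929172, nat_lit 15999392060, nat_lit 17470780162, nat_lit 18572064020], nat_lit 0, nat_lit 0, nat_lit 0, nat_lit 0, nat_lit 0, nat_lit 0, [], [nat_lit 39, nat_lit 40, nat_lit 20, nat_lit 80, nat_lit 7, nat_lit 272, nat_lit 60, nat_lit 9]⟩, C1.Rw.none,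
 ⟨nat_lit 5477, nat_lit 5917, ⟨.ofNat (nat_lit 160083), .ofNat (nat_lit 599845), .ofNat (nat_lit 181423), .ofNat (nat_lit 621176), .ofNat (nat_lit 176664), .ofNat (nat_lit 596262), .ofNat (nat_lit 198021), .ofNat (nat_lit 617611)⟩, ⟨.ofNat (nat_lit 0), .ofNat (nat_lit 0), .ofNat (nat_lit 0), .ofNat (nat_lit 0), .ofNat (nat_lit 0), .ofNat (nat_lit 0), .ofNat (nat_lit 0), .ofNat (nat_lit 0)⟩⟩, [⟨nat_lit 0, nat_lit 100, nat_lit 95, nat_lit 49, nat_lit 2283386⟩]⟩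
noncomputable def p012_l192 : Lf2 := ⟨nat_lit 0, nat_lit 5, [nat_lit 4, nat_lit 5, nat_lit 5, nat_lit 20], false, nat_lit 0, nat_lit 0, nat_lit 0, nat_lit 0, ⟨nat_lit 1000, nat_lit 0, nat_lit 0, nat_lit 0, nat_lit 0, nat_lit 0, nat_lit 0, nat_lit 0, nat_lit 0, nat_lit 0, nat_lit 0, nat_lit 0, nat_lit 0, nat_lit 0, nat_lit 0, nat_lit 0, false, false⟩,
 nat_lit 0, nat_lit 0, nat_lit 16520, nat_lit 0, nat_lit 6072, nat_lit 7900, nat_lit 0, nat_lit 0, nat_lit 0, nat_lit 1610, nat_lit 0, nat_lit 0, nat_lit 0, nat_lit 0, nat_lit 0, nat_lit 0, nat_lit 0, nat_lit 0, [],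
 ⟨p012_k11, nat_lit 0, nat_lit 0, nat_lit 193, nat_lit 0, nat_lit 0, [nat_lit 4688000000, nat_lit 6250000000, nat_lit 7968000000], [], [nat_lit 27432495152, nat_lit 28546299744, nat_lit 37937301040, nat_lit 38647294432], nat_lit 0, nat_lit 0, nat_lit 0, nat_lit 0, nat_lit 0, nat_lit 0, [], [nat_lit 9, nat_lit 40, nat_lit 20, nat_lit 80, nat_lit 2, nat_lit 203, nat_lit 0, nat_lit 6]⟩, ⟨p012_k34, nat_lit 0, nat_lit 0, nat_lit 429, nat_lit 0, nat_lit 465457, [nat_lit 6250000000, nat_lit 7968000000, nat_lit 9842000000], [], [nat_lit 33237117500, nat_lit 33418626500, nat_lit 38514062700, nat_lit 38599365500], nat_lit 1271250, nat_lit 1271250, nat_lit 1271250, nat_lit 1271250, nat_lit 0, nat_lit 0, [nat_lit 1412500, nat_lit 1271250, nat_lit 1271250], [nat_lit 25, nat_lit 40, nat_lit 20, nat_lit 80, nat_lit 17, nat_lit 401, nat_lit 175, nat_lit 11]⟩,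
 zbF0, []⟩
noncomputable def p012_l193 : Lf2 := ⟨nat_lit 0, nat_lit 5, [nat_lit 4, nat_lit 5, nat_lit 5, nat_lit 20], true, nat_lit 0, nat_lit 0, nat_lit 0, nat_lit 0, ⟨nat_lit 0, nat_lit 1000, nat_lit 0, nat_lit 5, nat_lit 219, nat_lit 0, nat_lit 0, nat_lit 0, nat_lit 0, nat_lit 0, nat_lit 0, nat_lit 0, nat_lit 0, nat_lit 0, nat_lit 0, nat_lit 5000000, false, true⟩,
 nat_lit 0, nat_lit 0, nat_lit 0, nat_lit 2253, nat_lit 4519, nat_lit 0, nat_lit 0, nat_lit 0, nat_lit 0, nat_lit 0, nat_lit 0, nat_lit 0, nat_lit 0, nat_lit 0, nat_lit 0, nat_lit 250000, nat_lit 0, nat_lit 0, [(nat_lit 9, [(nat_lit 0, nat_lit 1000)])],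
 ⟨p012_k6, nat_lit 0, nat_lit 0, nat_lit 183, nat_lit 0, nat_lit 0, [nat_lit 3116800000, nat_lit 3354400000], [], [nat_lit 20586290477, nat_lit 21942743606, nat_lit 31818785886, nat_lit 32481073364], nat_lit 0, nat_lit 0, nat_lit 0, nat_lit 0, nat_lit 0, nat_lit 0, [], [nat_lit 39, nat_lit 40, nat_lit 20, nat_lit 80, nat_lit 7, nat_lit 317, nat_lit 100, nat_lit 11]⟩, C1.Rw.none,
 ⟨nat_lit 5477, nat_lit 5917, ⟨.ofNat (nat_lit 160083), .ofNat (nat_lit 913903), .ofNat (nat_lit 181423), .ofNat (nat_lit 935234), .ofNat (nat_lit 176664), .ofNat (nat_lit 895918), .ofNat (nat_lit 198021), .ofNat (nat_lit 917267)⟩, ⟨.ofNat (nat_lit 0), .ofNat (nat_lit 0), .ofNat (nat_lit 0), .ofNat (nat_lit 0), .ofNat (nat_lit 0), .ofNat (nat_lit 0), .ofNat (nat_lit 0), .ofNat (nat_lit 0)⟩⟩, [⟨nat_lit 13, nat_lit 97, nat_lit 11, nat_lit 100, nat_lit 184037911⟩]⟩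
noncomputable def p012_l194 : Lf2 := ⟨nat_lit 0, nat_lit 5, [nat_lit 4, nat_lit 5, nat_lit 5, nat_lit 20], true, nat_lit 0, nat_lit 0, nat_lit 0, nat_lit 0, ⟨nat_lit 0, nat_lit 0, nat_lit 1000, nat_lit 5, nat_lit 96, nat_lit 0, nat_lit 0, nat_lit 0, nat_lit 0, nat_lit 215, nat_lit 86400, nat_lit 287, nat_lit 63338492, nat_lit 0, nat_lit 0, nat_lit 1059911, false, false⟩,
 nat_lit 0, nat_lit 7363, nat_lit 0, nat_lit 0, nat_lit 4285, nat_lit 0, nat_lit 0, nat_lit 0, nat_lit 0, nat_lit 0, nat_lit 0, nat_lit 0, nat_lit 0, nat_lit 0, nat_lit 55, nat_lit 400000, nat_lit 0, nat_lit 0, [(nat_lit 9, [(nat_lit 5, nat_lit 1000)])],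
 ⟨p012_k11, nat_lit 0, nat_lit 0, nat_lit 282, nat_lit 0, nat_lit 174728, [nat_lit 2406400000, nat_lit 893600000, nat_lit 116000000], [], [nat_lit 15311393148, nat_lit 16417867116, nat_lit 14411276490, nat_lit 15473313440], nat_lit 1271250, nat_lit 1271250, nat_lit 88400, nat_lit 490000, nat_lit 0, nat_lit 0, [nat_lit 1100000, nat_lit 1442500, nat_lit 1271250], [nat_lit 9, nat_lit 40, nat_lit 20, nat_lit 80, nat_lit 2, nat_lit 226, nat_lit 20, nat_lit 8]⟩, C1.Rw.none,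
 ⟨nat_lit 5477, nat_lit 5917, ⟨.ofNat (nat_lit 160083), .ofNat (nat_lit 285737), .ofNat (nat_lit 181423), .ofNat (nat_lit 307076), .ofNat (nat_lit 176664), .ofNat (nat_lit 296556), .ofNat (nat_lit 198021), .ofNat (nat_lit 317913)⟩, ⟨.ofNat (nat_lit 0), .ofNat (nat_lit 0), .ofNat (nat_lit 0), .ofNat (nat_lit 0), .ofNat (nat_lit 0), .ofNat (nat_lit 0), .ofNat (nat_lit 0), .ofNat (nat_lit 0)⟩⟩, [⟨nat_lit 0, nat_lit 100, nat_lit 94, nat_lit 59, nat_lit 182421947⟩]⟩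
noncomputable def p012_l195 : Lf2 := ⟨nat_lit 0, nat_lit 5, [nat_lit 4, nat_lit 5, nat_lit 5, nat_lit 20], true, nat_lit 0, nat_lit 0, nat_lit 0, nat_lit 0, ⟨nat_lit 0, nat_lit 0, nat_lit 1000, nat_lit 5, nat_lit 136, nat_lit 0, nat_lit 0, nat_lit 0, nat_lit 0, nat_lit 215, nat_lit 173400, nat_lit 317, nat_lit 60050508, nat_lit 0, nat_lit 0, nat_lit 1665941, false, false⟩,
 nat_lit 0, nat_lit 8378, nat_lit 0, nat_lit 0, nat_lit 4876, nat_lit 0, nat_lit 0, nat_lit 0, nat_lit 0, nat_lit 0, nat_lit 0, nat_lit 0, nat_lit 0, nat_lit 0, nat_lit 55, nat_lit 400000, nat_lit 0, nat_lit 0, [(nat_lit 9, [(nat_lit 5, nat_lit 1000)])],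
 ⟨p012_k11, nat_lit 0, nat_lit 0, nat_lit 289, nat_lit 0, nat_lit 325707, [nat_lit 2406400000, nat_lit 893600000, nat_lit 116000000], [], [nat_lit 13231707864, nat_lit 14356786784, nat_lit 14194990520, nat_lit 14494403008], nat_lit 1271250, nat_lit 1271250, nat_lit 490000, nat_lit 780000, nat_lit 0, nat_lit 0, [nat_lit 1100000, nat_lit 1442500, nat_lit 1271250], [nat_lit 9, nat_lit 40, nat_lit 20, nat_lit 80, nat_lit 2, nat_lit 238, nat_lit 30, nat_lit 8]⟩, C1.Rw.none,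
 ⟨nat_lit 5477, nat_lit 5917, ⟨.ofNat (nat_lit 285737), .ofNat (nat_lit 364271), .ofNat (nat_lit 307076), .ofNat (nat_lit 385610), .ofNat (nat_lit 296556), .ofNat (nat_lit 371489), .ofNat (nat_lit 317913), .ofNat (nat_lit 392847)⟩, ⟨.ofNat (nat_lit 0), .ofNat (nat_lit 0), .ofNat (nat_lit 0), .ofNat (nat_lit 0), .ofNat (nat_lit 0), .ofNat (nat_lit 0), .ofNat (nat_lit 0), .ofNat (nat_lit 0)⟩⟩, []⟩
noncomputable def p012_l196 : Lf2 := ⟨nat_lit 0, nat_lit 5, [nat_lit 4, nat_lit 5, nat_lit 5, nat_lit 20], false, nat_lit 0, nat_lit 0, nat_lit 0, nat_lit 0, ⟨nat_lit 1000, nat_lit 0, nat_lit 0, nat_lit 0, nat_lit 0, nat_lit 0, nat_lit 0, nat_lit 0, nat_lit 0, nat_lit 0, nat_lit 0, nat_lit 0, nat_lit 0, nat_lit 0, nat_lit 0, nat_lit 0, false, false⟩,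
 nat_lit 0, nat_lit 4541, nat_lit 0, nat_lit 0, nat_lit 2643, nat_lit 10241, nat_lit 0, nat_lit 0, nat_lit 0, nat_lit 0, nat_lit 0, nat_lit 0, nat_lit 0, nat_lit 0, nat_lit 0, nat_lit 0, nat_lit 0, nat_lit 0, [],
 ⟨p012_k6, nat_lit 0, nat_lit 0, nat_lit 302, nat_lit 0, nat_lit 325707, [nat_lit 4688000000, nat_lit 7968000000], [], [nat_lit 39300734350, nat_lit 40030169152, nat_lit 50687114440, nat_lit 49505693440], nat_lit 1271250, nat_lit 1271250, nat_lit 780000, nat_lit 3072500, nat_lit 0, nat_lit 0, [nat_lit 1100000, nat_lit 1785000], [nat_lit 39, nat_lit 40, nat_lit 20, nat_lit 80, nat_lit 7, nat_lit 317, nat_lit 100, nat_lit 10]⟩, ⟨p012_k25, nat_lit 0, nat_lit 0, nat_lit 214, nat_lit 0, nat_lit 0, [nat_lit 6250000000, nat_lit 9842000000], [], [nat_lit 23998211084, nat_lit 25231952076, nat_lit 44304705152, nat_lit 44689277196], nat_lit 0, nat_lit 0, nat_lit 0, nat_lit 0, nat_lit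 0, nat_lit 0, [], [nat_lit 51, nat_lit 40, nat_lit 20, nat_lit 80, nat_lit 1, nat_lit 401, nat_lit 175, nat_lit 12]⟩,
 zbF0, []⟩
noncomputable def p012_l197 : Lf2 := ⟨nat_lit 0, nat_lit 5, [nat_lit 4, nat_lit 5, nat_lit 5, nat_lit 20], false, nat_lit 0, nat_lit 0, nat_lit 0, nat_lit 0, ⟨nat_lit 0, nat_lit 0, nat_lit 1000, nat_lit 5, nat_lit 112, nat_lit 0, nat_lit 0, nat_lit 0, nat_lit 0, nat_lit 215, nat_lit 117600, nat_lit 299, nat_lit 62167704, nat_lit 0, nat_lit 0, nat_lit 1295486, false, false⟩,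
 nat_lit 0, nat_lit 7363, nat_lit 0, nat_lit 0, nat_lit 4285, nat_lit 0, nat_lit 0, nat_lit 0, nat_lit 0, nat_lit 0, nat_lit 0, nat_lit 0, nat_lit 0, nat_lit 0, nat_lit 55, nat_lit 400000, nat_lit 0, nat_lit 0, [(nat_lit 9, [(nat_lit 5, nat_lit 1000)])],
 ⟨p012_k11, nat_lit 0, nat_lit 0, nat_lit 282, nat_lit 0, nat_lit 174728, [nat_lit 2406400000, nat_lit 893600000, nat_lit 116000000], [], [nat_lit 15311393148, nat_lit 16417867116, nat_lit 15303251450, nat_lit 15695901280], nat_lit 1271250, nat_lit 1271250, nat_lit 88400, nat_lit 780000, nat_lit 0, nat_lit 0, [nat_lit 1100000, nat_lit 1442500, nat_lit 1271250], [nat_lit 9, nat_lit 40, nat_lit 20, nat_lit 80, nat_lit 2, nat_lit 238, nat_lit 30, nat_lit 8]⟩, ⟨p012_k34, nat_lit 0, nat_lit 0, nat_lit 369, nat_lit 0, nat_lit 219439, [nat_lit 0, nat_lit 0, nat_lit 0], [], [nat_lit 0, nat_lit 0, nat_lit 0, nat_lit 0], nat_lit 1271250, nat_lit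 1271250, nat_lit 88400, nat_lit 780000, nat_lit 0, nat_lit 0, [nat_lit 1412500, nat_lit 1271250, nat_lit 1271250], [nat_lit 25, nat_lit 40, nat_lit 20, nat_lit 80, nat_lit 17, nat_lit 317, nat_lit 100, nat_lit 10]⟩,
 ⟨nat_lit 5477, nat_lit 5917, ⟨.ofNat (nat_lit 160083), .ofNat (nat_lit 364271), .ofNat (nat_lit 181423), .ofNat (nat_lit 385610), .ofNat (nat_lit 176664), .ofNat (nat_lit 371489), .ofNat (nat_lit 198021), .ofNat (nat_lit 392847)⟩, ⟨.ofNat (nat_lit 0), .ofNat (nat_lit 0), .ofNat (nat_lit 0), .ofNat (nat_lit 0), .ofNat (nat_lit 0), .ofNat (nat_lit 0), .ofNat (nat_lit 0), .ofNat (nat_lit 0)⟩⟩, [⟨nat_lit 0, nat_lit 100, nat_lit 94, nat_lit 59, nat_lit 143860470⟩]⟩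
noncomputable def p012_l198 : Lf2 := ⟨nat_lit 0, nat_lit 5, [nat_lit 4, nat_lit 5, nat_lit 5, nat_lit 20], false, nat_lit 0, nat_lit 0, nat_lit 0, nat_lit 0, ⟨nat_lit 1000, nat_lit 0, nat_lit 0, nat_lit 0, nat_lit 0, nat_lit 0, nat_lit 0, nat_lit 0, nat_lit 0, nat_lit 0, nat_lit 0, nat_lit 0, nat_lit 0, nat_lit 0, nat_lit 0, nat_lit 0, false, false⟩,
 nat_lit 14939, nat_lit 0, nat_lit 0, nat_lit 0, nat_lit 7759, nat_lit 7144, nat_lit 0, nat_lit 0, nat_lit 0, nat_lit 0, nat_lit 0, nat_lit 0, nat_lit 0, nat_lit 0, nat_lit 0, nat_lit 0, nat_lit 0, nat_lit 0, [],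
 ⟨p012_k6, nat_lit 0, nat_lit 0, nat_lit 260, nat_lit 0, nat_lit 174728, [nat_lit 4688000000, nat_lit 7968000000], [], [nat_lit 32233813774, nat_lit 30045456564, nat_lit 54458015720, nat_lit 50989742720], nat_lit 1271250, nat_lit 1271250, nat_lit 780000, nat_lit 3072500, nat_lit 0, nat_lit 0, [nat_lit 1100000, nat_lit 1785000], [nat_lit 39, nat_lit 40, nat_lit 20, nat_lit 80, nat_lit 7, nat_lit 317, nat_lit 100, nat_lit 10]⟩, ⟨p012_k25, nat_lit 0, nat_lit 0, nat_lit 319, nat_lit 0, nat_lit 219439, [nat_lit 6250000000, nat_lit 9842000000], [], [nat_lit 39609020688, nat_lit 39096629152, nat_lit 46550173984, nat_lit 46686277408], nat_lit 1271250, nat_lit 1271250, nat_lit 780000, nat_lit 3072500, nat_lit 0, nat_lit 0, [nat_lit 1412500, nat_lit 1271250], [nat_lit 51, nat_lit 40, nat_lit 20, nat_lit 80, nat_lit 1, nat_lit 401, nat_lit 175, nat_lit 12]⟩,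
 zbF0, []⟩
noncomputable def p012_l199 : Lf2 := ⟨nat_lit 0, nat_lit 5, [nat_lit 4, nat_lit 5, nat_lit 5, nat_lit 20], false, nat_lit 0, nat_lit 0, nat_lit 0, nat_lit 0, ⟨nat_lit 317, nat_lit 683, nat_lit 0, nat_lit 5, nat_lit 219, nat_lit 0, nat_lit 0, nat_lit 0, nat_lit 0, nat_lit 0, nat_lit 0, nat_lit 0, nat_lit 0, nat_lit 0, nat_lit 0, nat_lit 5000000, false, true⟩,
 nat_lit 0, nat_lit 5840, nat_lit 0, nat_lit 0, nat_lit 3399, nat_lit 2223, nat_lit 0, nat_lit 0, nat_lit 0, nat_lit 0, nat_lit 0, nat_lit 0, nat_lit 0, nat_lit 0, nat_lit 0, nat_lit 273200, nat_lit 0, nat_lit 0, [(nat_lit 9, [(nat_lit 1, nat_lit 683)])],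
 ⟨p012_k11, nat_lit 0, nat_lit 0, nat_lit 297, nat_lit 0, nat_lit 224948, [nat_lit 3332053760, nat_lit 3936542401, nat_lit 4583529399], [], [nat_lit 31946414791, nat_lit 31658016662, nat_lit 41331143482, nat_lit 40571466982], nat_lit 1271250, nat_lit 1271250, nat_lit 88400, nat_lit 2858000, nat_lit 0, nat_lit 0, [nat_lit 1100000, nat_lit 1442500, nat_lit 1271250], [nat_lit 9, nat_lit 40, nat_lit 20, nat_lit 80, nat_lit 2, nat_lit 317, nat_lit 100, nat_lit 11]⟩, ⟨p012_k34, nat_lit 0, nat_lit 0, nat_lit 229, nat_lit 0, nat_lit 0, [nat_lit 1981250000, nat_lit 2525856000, nat_lit 3119914000], [], [nat_lit 9749946889, nat_lit 10108886998, nat_lit 13041575150, nat_lit 13143787884], nat_lit 0, nat_lit 0, nat_lit 0, nat_lit 0, nat_lit 0, nat_lit 0, [], [nat_lit 25, nat_lit 40, nat_lit 20, nat_lit 80, nat_lit 17, nat_lit 401, nat_lit 175, nat_lit 12]⟩,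
 ⟨nat_lit 5700, nat_lit 5917, ⟨.ofNat (nat_lit 160083), .ofNat (nat_lit 913979), .ofNat (nat_lit 181423), .ofNat (nat_lit 935316), .ofNat (nat_lit 168433), .ofNat (nat_lit 904909), .ofNat (nat_lit 189775), .ofNat (nat_lit 926249)⟩, ⟨.ofNat (nat_lit 0), .ofNat (nat_lit 0), .ofNat (nat_lit 0), .ofNat (nat_lit 0), .ofNat (nat_lit 0), .ofNat (nat_lit 0), .ofNat (nat_lit 0), .ofNat (nat_lit 0)⟩⟩, []⟩
noncomputable def p012_l200 : Lf2 := ⟨nat_lit 0, nat_lit 5, [nat_lit 4, nat_lit 5, nat_lit 5, nat_lit 20], false, nat_lit 0, nat_lit 0, nat_lit 0, nat_lit 0, ⟨nat_lit 347, nat_lit 653, nat_lit 0, nat_lit 5, nat_lit 220, nat_lit 0, nat_lit 0, nat_lit 0, nat_lit 0, nat_lit 0, nat_lit 0, nat_lit 0, nat_lit 0, nat_lit 0, nat_lit 0, nat_lit 5000000, false, true⟩,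
 nat_lit 0, nat_lit 6958, nat_lit 0, nat_lit 0, nat_lit 4237, nat_lit 2433, nat_lit 0, nat_lit 0, nat_lit 0, nat_lit 0, nat_lit 0, nat_lit 0, nat_lit 0, nat_lit 0, nat_lit 0, nat_lit 261200, nat_lit 0, nat_lit 0, [(nat_lit 9, [(nat_lit 1, nat_lit 653)])],
 ⟨p012_k13, nat_lit 0, nat_lit 0, nat_lit 327, nat_lit 0, nat_lit 305929, [nat_lit 3391612161, nat_lit 4038158401, nat_lit 4730475399], [], [nat_lit 31047975547, nat_lit 30380468562, nat_lit 40718454423, nat_lit 39771484923], nat_lit 1271250, nat_lit 1271250, nat_lit 111251, nat_lit 2866250, nat_lit 0, nat_lit 0, [nat_lit 1100000, nat_lit 1442500, nat_lit 1271250], [nat_lit 9, nat_lit 40, nat_lit 20, nat_lit 80, nat_lit 2, nat_lit 317, nat_lit 100, nat_lit 11]⟩, ⟨p012_k34, nat_lit 0, nat_lit 0, nat_lit 226, nat_lit 0, nat_lit 0, [nat_lit 2168750000, nat_lit 2764896000, nat_lit 3415174000], [], [nat_lit 10541581626, nat_lit 10934616416,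 nat_lit 14275929410, nat_lit 14387822004], nat_lit 0, nat_lit 0, nat_lit 0, nat_lit 0, nat_lit 0, nat_lit 0, [], [nat_lit 25, nat_lit 40, nat_lit 20, nat_lit 80, nat_lit 17, nat_lit 401, nat_lit 175, nat_lit 12]⟩,
 ⟨nat_lit 5477, nat_lit 5701, ⟨.ofNat (nat_lit 176105), .ofNat (nat_lit 904913), .ofNat (nat_lit 197447), .ofNat (nat_lit 926252), .ofNat (nat_lit 184157), .ofNat (nat_lit 895997), .ofNat (nat_lit 205514), .ofNat (nat_lit 917352)⟩, ⟨.ofNat (nat_lit 0), .ofNat (nat_lit 0), .ofNat (nat_lit 0), .ofNat (nat_lit 0), .ofNat (nat_lit 0), .ofNat (nat_lit 0), .ofNat (nat_lit 0), .ofNat (nat_lit 0)⟩⟩, []⟩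
noncomputable def p012_l201 : Lf2 := ⟨nat_lit 0, nat_lit 5, [nat_lit 4, nat_lit 5, nat_lit 5, nat_lit 20], true, nat_lit 0, nat_lit 0, nat_lit 0, nat_lit 0, ⟨nat_lit 0, nat_lit 1000, nat_lit 0, nat_lit 5, nat_lit 158, nat_lit 0, nat_lit 0, nat_lit 0, nat_lit 0, nat_lit 0, nat_lit 0, nat_lit 0, nat_lit 0, nat_lit 0, nat_lit 0, nat_lit 5000000, false, false⟩,
 nat_lit 0, nat_lit 10441, nat_lit 0, nat_lit 0, nat_lit 6077, nat_lit 0, nat_lit 0, nat_lit 0, nat_lit 0, nat_lit 0, nat_lit 0, nat_lit 0, nat_lit 0, nat_lit 0, nat_lit 0, nat_lit 400000, nat_lit 0, nat_lit 0, [(nat_lit 9, [(nat_lit 1, nat_lit 1000)])],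
 ⟨p012_k11, nat_lit 0, nat_lit 0, nat_lit 365, nat_lit 0, nat_lit 325707, [nat_lit 2702720000, nat_lit 2862800001, nat_lit 3030799999], [], [nat_lit 31594967429, nat_lit 28401321619, nat_lit 30701254036, nat_lit 27913296592], nat_lit 1271250, nat_lit 1271250, nat_lit 88400, nat_lit 1704000, nat_lit 0, nat_lit 0, [nat_lit 1100000, nat_lit 1442500, nat_lit 1271250], [nat_lit 9, nat_lit 40, nat_lit 20, nat_lit 80, nat_lit 2, nat_lit 272, nat_lit 60, nat_lit 9]⟩, C1.Rw.none,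
 ⟨nat_lit 5477, nat_lit 5917, ⟨.ofNat (nat_lit 160083), .ofNat (nat_lit 599845), .ofNat (nat_lit 181423), .ofNat (nat_lit 621176), .ofNat (nat_lit 176664), .ofNat (nat_lit 596262), .ofNat (nat_lit 198021), .ofNat (nat_lit 617611)⟩, ⟨.ofNat (nat_lit 0), .ofNat (nat_lit 0), .ofNat (nat_lit 0), .ofNat (nat_lit 0), .ofNat (nat_lit 0), .ofNat (nat_lit 0), .ofNat (nat_lit 0), .ofNat (nat_lit 0)⟩⟩, []⟩
noncomputable def p012_l202 : Lf2 := ⟨nat_lit 0, nat_lit 5, [nat_lit 4, nat_lit 5, nat_lit 5, nat_lit 20], false, nat_lit 0, nat_lit 0, nat_lit 0, nat_lit 0, ⟨nat_lit 1000, nat_lit 0, nat_lit 0, nat_lit 0, nat_lit 0, nat_lit 0, nat_lit 0, nat_lit 0, nat_lit 0, nat_lit 0, nat_lit 0, nat_lit 0, nat_lit 0, nat_lit 0, nat_lit 0, nat_lit 0, false, false⟩,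
 nat_lit 9987, nat_lit 4141, nat_lit 0, nat_lit 0, nat_lit 8223, nat_lit 4776, nat_lit 0, nat_lit 0, nat_lit 0, nat_lit 1635, nat_lit 0, nat_lit 0, nat_lit 0, nat_lit 0, nat_lit 0, nat_lit 0, nat_lit 0, nat_lit 0, [],
 ⟨p012_k11, nat_lit 0, nat_lit 0, nat_lit 263, nat_lit 0, nat_lit 174728, [nat_lit 4688000000, nat_lit 6250000000, nat_lit 7968000000], [], [nat_lit 30698681846, nat_lit 31765324728, nat_lit 40810935740, nat_lit 41535345368], nat_lit 1271250, nat_lit 1271250, nat_lit 1271250, nat_lit 1271250, nat_lit 0, nat_lit 0, [nat_lit 1100000, nat_lit 1442500, nat_lit 1271250], [nat_lit 9, nat_lit 40, nat_lit 20, nat_lit 80, nat_lit 2, nat_lit 203, nat_lit 0, nat_lit 6]⟩, ⟨p012_k34, nat_lit 0, nat_lit 0, nat_lit 324, nat_lit 0, nat_lit 219439, [nat_lit 6250000000, nat_lit 7968000000, nat_lit 9842000000], [], [nat_lit 36892032020, nat_lit 37324557364, nat_lit 42580783784, nat_lit 42835935080],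 nat_lit 1271250, nat_lit 1271250, nat_lit 1271250, nat_lit 1271250, nat_lit 0, nat_lit 0, [nat_lit 1412500, nat_lit 1271250, nat_lit 1271250], [nat_lit 25, nat_lit 40, nat_lit 20, nat_lit 80, nat_lit 17, nat_lit 401, nat_lit 175, nat_lit 11]⟩,
 zbF0, []⟩
noncomputable def b_NL_650_550_0_2 : St := ⟨false, nat_lit 2, nat_lit 2, nat_lit 0, nat_lit 20, nat_lit 260, nat_lit 280, nat_lit 220, nat_lit 240, nat_lit 16, nat_lit 400, nat_lit 0, nat_lit 0, nat_lit 0, nat_lit 0, nat_lit 0, nat_lit 0, nat_lit 40, nat_lit 60, nat_lit 0, nat_lit 0, nat_lit 0, nat_lit 0⟩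
theorem d_NL_650_550_0_2 (h : EB TB.env) : Dead b_NL_650_550_0_2 := chkB_sound0 h (T :=
(.st (nat_lit 0)
(.gv
(.st (nat_lit 1)
(.leaf p012_l190)
(.spl (nat_lit 2) (nat_lit 240)
(.leaf p012_l191)
(.leaf p012_l192)))
(.leaf p012_l193))
(.gv
(.st (nat_lit 1)
(.spl (nat_lit 2) (nat_lit 120)
(.spl (nat_lit 2) (nat_lit 80)
(.leaf p012_l194)
(.leaf p012_l195))
(.leaf p012_l196))
(.spl (nat_lit 2) (nat_lit 120)
(.leaf p012_l197)
(.leaf p012_l198)))
(.st (nat_lit 1)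
(.spl (nat_lit 0) (nat_lit 270)
(.leaf p012_l199)
(.trZ (nat_lit 0) (nat_lit 100) (nat_lit 94) (nat_lit 44) (nat_lit 20) (.leaf p012_l200)))
(.spl (nat_lit 2) (nat_lit 240)
(.leaf p012_l201)
(.leaf p012_l202)))))) (by decide +kernel)
noncomputable def p012_l203 : Lf2 := ⟨nat_lit 0, nat_lit 5, [nat_lit 4, nat_lit 5, nat_lit 5, nat_lit 20], false, nat_lit 0, nat_lit 0, nat_lit 0, nat_lit 0, ⟨nat_lit 1000, nat_lit 0, nat_lit 0, nat_lit 0, nat_lit 0, nat_lit 0, nat_lit 0, nat_lit 0, nat_lit 0, nat_lit 0, nat_lit 0, nat_lit 0, nat_lit 0, nat_lit 0, nat_lit 0, nat_lit 0, false, false⟩,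
 nat_lit 0, nat_lit 0, nat_lit 0, nat_lit 0, nat_lit 7228, nat_lit 6947, nat_lit 0, nat_lit 0, nat_lit 0, nat_lit 0, nat_lit 0, nat_lit 0, nat_lit 0, nat_lit 0, nat_lit 0, nat_lit 0, nat_lit 0, nat_lit 0, [],
 ⟨p012_k6, nat_lit 0, nat_lit 0, nat_lit 183, nat_lit 0, nat_lit 0, [nat_lit 4688000000, nat_lit 7968000000], [], [nat_lit 24580908045, nat_lit 26652939268, nat_lit 39058412960, nat_lit 39803012368], nat_lit 0, nat_lit 0, nat_lit 0, nat_lit 0, nat_lit 0, nat_lit 0, [], [nat_lit 39, nat_lit 40, nat_lit 20, nat_lit 80, nat_lit 7, nat_lit 317, nat_lit 100, nat_lit 11]⟩, ⟨p012_k40, nat_lit 0, nat_lit 0, nat_lit 204, nat_lit 0, nat_lit 0, [nat_lit 4688000000, nat_lit 9842000000], [], [nat_lit 28354818617, nat_lit 30128392788, nat_lit 41396080932, nat_lit 42040091954], nat_lit 0, nat_lit 0, nat_lit 0, nat_lit 0, nat_lit 0, nat_lit 0, [], [nat_lit 70, nat_lit 40, nat_lit 20, nat_lit 80,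 nat_lit 13, nat_lit 401, nat_lit 175, nat_lit 12]⟩,
 zbF0, [⟨nat_lit 0, nat_lit 100, nat_lit 97, nat_lit 49, nat_lit 215945412⟩]⟩
noncomputable def p012_l204 : Lf2 := ⟨nat_lit 0, nat_lit 5, [nat_lit 4, nat_lit 5, nat_lit 5, nat_lit 20], true, nat_lit 0, nat_lit 0, nat_lit 0, nat_lit 0, ⟨nat_lit 0, nat_lit 0, nat_lit 1000, nat_lit 6, nat_lit 169, nat_lit 0, nat_lit 0, nat_lit 0, nat_lit 0, nat_lit 215, nat_lit 13764, nat_lit 200, nat_lit 56835203, nat_lit 0, nat_lit 0, nat_lit 2128346, false, false⟩,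
 nat_lit 0, nat_lit 0, nat_lit 0, nat_lit 0, nat_lit 4385, nat_lit 0, nat_lit 0, nat_lit 0, nat_lit 0, nat_lit 0, nat_lit 0, nat_lit 0, nat_lit 0, nat_lit 0, nat_lit 55, nat_lit 400000, nat_lit 0, nat_lit 0, [(nat_lit 9, [(nat_lit 5, nat_lit 1000)])],
 ⟨p012_k6, nat_lit 0, nat_lit 0, nat_lit 163, nat_lit 0, nat_lit 0, [nat_lit 2406400000, nat_lit 19600000], [], [nat_lit 14079992717, nat_lit 15958766705, nat_lit 17057751470, nat_lit 18524720340], nat_lit 0, nat_lit 0, nat_lit 0, nat_lit 0, nat_lit 0, nat_lit 0, [], [nat_lit 39, nat_lit 40, nat_lit 20, nat_lit 80, nat_lit 7, nat_lit 272, nat_lit 60, nat_lit 9]⟩, C1.Rw.none,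
 ⟨nat_lit 5477, nat_lit 5917, ⟨.ofNat (nat_lit 197129), .ofNat (nat_lit 621176), .ofNat (nat_lit 218469), .ofNat (nat_lit 642507), .ofNat (nat_lit 213007), .ofNat (nat_lit 617611), .ofNat (nat_lit 234364), .ofNat (nat_lit 638960)⟩, ⟨.ofNat (nat_lit 0), .ofNat (nat_lit 0), .ofNat (nat_lit 0), .ofNat (nat_lit 0), .ofNat (nat_lit 0), .ofNat (nat_lit 0), .ofNat (nat_lit 0), .ofNat (nat_lit 0)⟩⟩, [⟨nat_lit 0, nat_lit 100, nat_lit 97, nat_lit 59, nat_lit 1765907⟩]⟩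
noncomputable def p012_l205 : Lf2 := ⟨nat_lit 0, nat_lit 5, [nat_lit 4, nat_lit 5, nat_lit 5, nat_lit 20], true, nat_lit 0, nat_lit 0, nat_lit 0, nat_lit 0, ⟨nat_lit 0, nat_lit 1000, nat_lit 0, nat_lit 6, nat_lit 281, nat_lit 0, nat_lit 0, nat_lit 0, nat_lit 0, nat_lit 0, nat_lit 0, nat_lit 0, nat_lit 44905496, nat_lit 22094504, nat_lit 0, nat_lit 3170072, true, true⟩,
 nat_lit 0, nat_lit 0, nat_lit 0, nat_lit 0, nat_lit 5225, nat_lit 0, nat_lit 0, nat_lit 0, nat_lit 0, nat_lit 0, nat_lit 0, nat_lit 0, nat_lit 0, nat_lit 0, nat_lit 0, nat_lit 250000, nat_lit 0, nat_lit 0, [(nat_lit 9, [(nat_lit 0, nat_lit 1000)])],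
 ⟨p012_k6, nat_lit 0, nat_lit 0, nat_lit 148, nat_lit 0, nat_lit 0, [nat_lit 3116800000, nat_lit 3354400000], [], [nat_lit 22245871100, nat_lit 23285956200, nat_lit 26469762600, nat_lit 27429086800], nat_lit 0, nat_lit 0, nat_lit 0, nat_lit 0, nat_lit 0, nat_lit 0, [], [nat_lit 39, nat_lit 40, nat_lit 20, nat_lit 80, nat_lit 7, nat_lit 203, nat_lit 0, nat_lit 6]⟩, C1.Rw.none,
 ⟨nat_lit 5477, nat_lit 5917, ⟨.ofNat (nat_lit 621176), .ofNat (nat_lit 778206), .ofNat (nat_lit 631842), .ofNat (nat_lit 788871), .ofNat (nat_lit 617611), .ofNat (nat_lit 767439), .ofNat (nat_lit 628285), .ofNat (nat_lit 778114)⟩, ⟨.ofNat (nat_lit 0), .ofNat (nat_lit 0), .ofNat (nat_lit 0), .ofNat (nat_lit 0), .ofNat (nat_lit 0), .ofNat (nat_lit 0), .ofNat (nat_lit 0), .ofNat (nat_lit 0)⟩⟩, []⟩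
noncomputable def p012_l206 : Lf2 := ⟨nat_lit 0, nat_lit 5, [nat_lit 4, nat_lit 5, nat_lit 5, nat_lit 20], false, nat_lit 0, nat_lit 0, nat_lit 0, nat_lit 0, ⟨nat_lit 53, nat_lit 947, nat_lit 0, nat_lit 8, nat_lit 326, nat_lit 0, nat_lit 0, nat_lit 0, nat_lit 0, nat_lit 0, nat_lit 0, nat_lit 0, nat_lit 40304472, nat_lit 26695528, nat_lit 0, nat_lit 3361871, true, true⟩,
 nat_lit 0, nat_lit 0, nat_lit 1075, nat_lit 0, nat_lit 4552, nat_lit 569, nat_lit 0, nat_lit 0, nat_lit 0, nat_lit 0, nat_lit 0, nat_lit 0, nat_lit 0, nat_lit 0, nat_lit 0, nat_lit 378800, nat_lit 0, nat_lit 0, [(nat_lit 9, [(nat_lit 1, nat_lit 947)])],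
 ⟨p012_k6, nat_lit 0, nat_lit 0, nat_lit 165, nat_lit 0, nat_lit 0, [nat_lit 2845895600, nat_lit 3273185600], [], [nat_lit 26666558752, nat_lit 27453056592, nat_lit 28980527856, nat_lit 29666626832], nat_lit 0, nat_lit 0, nat_lit 0, nat_lit 0, nat_lit 0, nat_lit 0, [], [nat_lit 39, nat_lit 40, nat_lit 20, nat_lit 80, nat_lit 7, nat_lit 203, nat_lit 0, nat_lit 6]⟩, ⟨p012_k40, nat_lit 0, nat_lit 0, nat_lit 759, nat_lit 0, nat_lit 1299978, [nat_lit 248464000, nat_lit 521626000], [], [nat_lit 2209603008, nat_lit 2208147307, nat_lit 2252652364, nat_lit 2253845663], nat_lit 1271250, nat_lit 1271250, nat_lit 1271250, nat_lit 1271250, nat_lit 0, nat_lit 0, [nat_lit 1100000, nat_lit 2127500], [nat_lit 70, nat_lit 40, nat_lit 20, nat_lit 80, nat_lit 13, nat_lit 289, nat_lit 75, nat_lit 8]⟩,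
 ⟨nat_lit 5477, nat_lit 5917, ⟨.ofNat (nat_lit 778206), .ofNat (nat_lit 856720), .ofNat (nat_lit 783538), .ofNat (nat_lit 862052), .ofNat (nat_lit 767439), .ofNat (nat_lit 842353), .ofNat (nat_lit 772776), .ofNat (nat_lit 847690)⟩, ⟨.ofNat (nat_lit 0), .ofNat (nat_lit 0), .ofNat (nat_lit 0), .ofNat (nat_lit 0), .ofNat (nat_lit 0), .ofNat (nat_lit 0), .ofNat (nat_lit 0), .ofNat (nat_lit 0)⟩⟩, []⟩
noncomputable def p012_l207 : Lf2 := ⟨nat_lit 0, nat_lit 5, [nat_lit 4, nat_lit 5, nat_lit 5, nat_lit 20], false, nat_lit 0, nat_lit 0, nat_lit 0, nat_lit 0, ⟨nat_lit 65, nat_lit 935, nat_lit 0, nat_lit 9, nat_lit 349, nat_lit 0, nat_lit 0, nat_lit 0, nat_lit 0, nat_lit 0, nat_lit 0, nat_lit 0, nat_lit 38083172, nat_lit 28916828, nat_lit 0, nat_lit 3418794, true, true⟩,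
 nat_lit 0, nat_lit 0, nat_lit 1159, nat_lit 0, nat_lit 4415, nat_lit 613, nat_lit 0, nat_lit 0, nat_lit 0, nat_lit 40, nat_lit 0, nat_lit 0, nat_lit 0, nat_lit 0, nat_lit 0, nat_lit 374000, nat_lit 0, nat_lit 0, [(nat_lit 9, [(nat_lit 1, nat_lit 935)])],
 ⟨p012_k6, nat_lit 0, nat_lit 0, nat_lit 174, nat_lit 0, nat_lit 0, [nat_lit 2869238001, nat_lit 3331688000], [], [nat_lit 29140753371, nat_lit 29821709641, nat_lit 30342809401, nat_lit 30974638621], nat_lit 0, nat_lit 0, nat_lit 0, nat_lit 0, nat_lit 0, nat_lit 0, [], [nat_lit 39, nat_lit 40, nat_lit 20, nat_lit 80, nat_lit 7, nat_lit 203, nat_lit 0, nat_lit 6]⟩, ⟨p012_k5, nat_lit 0, nat_lit 0, nat_lit 766, nat_lit 0, nat_lit 1299978, [nat_lit 304720000, nat_lit 517920000, nat_lit 639730000], [], [nat_lit 2549542876, nat_lit 2549007227, nat_lit 2574220832, nat_lit 2577744531], nat_lit 1271250, nat_lit 1271250, nat_lit 1271250, nat_lit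 1271250, nat_lit 0, nat_lit 0, [nat_lit 1100000, nat_lit 1785000, nat_lit 1271250], [nat_lit 29, nat_lit 40, nat_lit 20, nat_lit 80, nat_lit 17, nat_lit 289, nat_lit 75, nat_lit 8]⟩,
 ⟨nat_lit 5477, nat_lit 5917, ⟨.ofNat (nat_lit 856720), .ofNat (nat_lit 895977), .ofNat (nat_lit 862052), .ofNat (nat_lit 901310), .ofNat (nat_lit 842353), .ofNat (nat_lit 879810), .ofNat (nat_lit 847690), .ofNat (nat_lit 885147)⟩, ⟨.ofNat (nat_lit 0), .ofNat (nat_lit 0), .ofNat (nat_lit 0), .ofNat (nat_lit 0), .ofNat (nat_lit 0), .ofNat (nat_lit 0), .ofNat (nat_lit 0), .ofNat (nat_lit 0)⟩⟩, []⟩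
noncomputable def p012_l208 : Lf2 := ⟨nat_lit 0, nat_lit 5, [nat_lit 4, nat_lit 5, nat_lit 5, nat_lit 20], false, nat_lit 0, nat_lit 0, nat_lit 0, nat_lit 0, ⟨nat_lit 280, nat_lit 720, nat_lit 0, nat_lit 9, nat_lit 366, nat_lit 0, nat_lit 0, nat_lit 0, nat_lit 0, nat_lit 0, nat_lit 0, nat_lit 0, nat_lit 36424168, nat_lit 30575832, nat_lit 0, nat_lit 3446662, true, true⟩,
 nat_lit 0, nat_lit 0, nat_lit 4752, nat_lit 0, nat_lit 4340, nat_lit 2515, nat_lit 1510, nat_lit 0, nat_lit 0, nat_lit 149, nat_lit 0, nat_lit 0, nat_lit 0, nat_lit 0, nat_lit 0, nat_lit 288000, nat_lit 0, nat_lit 0, [(nat_lit 9, [(nat_lit 1, nat_lit 720)])],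
 ⟨p012_k6, nat_lit 0, nat_lit 0, nat_lit 182, nat_lit 0, nat_lit 0, [nat_lit 3287456001, nat_lit 4379856000], [], [nat_lit 29350548401, nat_lit 29507960681, nat_lit 30576561961, nat_lit 30742218102], nat_lit 0, nat_lit 0, nat_lit 0, nat_lit 0, nat_lit 0, nat_lit 0, [], [nat_lit 39, nat_lit 40, nat_lit 20, nat_lit 80, nat_lit 7, nat_lit 203, nat_lit 0, nat_lit 6]⟩, ⟨p012_k5, nat_lit 0, nat_lit 0, nat_lit 657, nat_lit 0, nat_lit 1051005, [nat_lit 1312640000, nat_lit 2231040000, nat_lit 2755760000], [], [nat_lit 11530669720, nat_lit 11532595970, nat_lit 11686589040, nat_lit 11686626050], nat_lit 1271250, nat_lit 1271250, nat_lit 1271250, nat_lit 1271250, nat_lit 0, nat_lit 0, [nat_lit 1100000, nat_lit 1785000, nat_lit 1271250], [nat_lit 29, nat_lit 40, nat_lit 20, nat_lit 80, nat_lit 17, nat_lit 289, nat_lit 75, nat_lit 8]⟩,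
 ⟨nat_lit 5809, nat_lit 5917, ⟨.ofNat (nat_lit 896072), .ofNat (nat_lit 935338), .ofNat (nat_lit 901407), .ofNat (nat_lit 940673), .ofNat (nat_lit 891972), .ofNat (nat_lit 930783), .ofNat (nat_lit 897306), .ofNat (nat_lit 936117)⟩, ⟨.ofNat (nat_lit 0), .ofNat (nat_lit 0), .ofNat (nat_lit 0), .ofNat (nat_lit 0), .ofNat (nat_lit 0), .ofNat (nat_lit 0), .ofNat (nat_lit 0), .ofNat (nat_lit 0)⟩⟩, [⟨nat_lit 13, nat_lit 97, nat_lit 11, nat_lit 100, nat_lit 137109749⟩]⟩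
noncomputable def p012_l209 : Lf2 := ⟨nat_lit 0, nat_lit 5, [nat_lit 4, nat_lit 5, nat_lit 5, nat_lit 20], false, nat_lit 0, nat_lit 0, nat_lit 0, nat_lit 0, ⟨nat_lit 222, nat_lit 778, nat_lit 0, nat_lit 9, nat_lit 365, nat_lit 0, nat_lit 0, nat_lit 0, nat_lit 0, nat_lit 0, nat_lit 0, nat_lit 0, nat_lit 36580729, nat_lit 30419271, nat_lit 0, nat_lit 3444562, true, true⟩,
 nat_lit 0, nat_lit 0, nat_lit 3767, nat_lit 0, nat_lit 4243, nat_lit 1994, nat_lit 1110, nat_lit 0, nat_lit 0, nat_lit 118, nat_lit 0, nat_lit 0, nat_lit 0, nat_lit 0, nat_lit 0, nat_lit 311200, nat_lit 0, nat_lit 0, [(nat_lit 9, [(nat_lit 1, nat_lit 778)])],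
 ⟨p012_k41, nat_lit 0, nat_lit 0, nat_lit 182, nat_lit 0, nat_lit 0, [nat_lit 3174634401, nat_lit 4097094400], [], [nat_lit 29342412462, nat_lit 29499119843, nat_lit 30542870130, nat_lit 30703648346], nat_lit 0, nat_lit 0, nat_lit 0, nat_lit 0, nat_lit 0, nat_lit 0, [], [nat_lit 39, nat_lit 40, nat_lit 20, nat_lit 80, nat_lit 7, nat_lit 203, nat_lit 0, nat_lit 6]⟩, ⟨p012_k5, nat_lit 0, nat_lit 0, nat_lit 682, nat_lit 0, nat_lit 1114960, [nat_lit 1040736000, nat_lit 1768896000, nat_lit 2184924000], [], [nat_lit 9142818760, nat_lit 9144346307, nat_lit 9266439840, nat_lit 9266469512], nat_lit 1271250, nat_lit 1271250, nat_lit 1271250, nat_lit 1271250, nat_lit 0, nat_lit 0, [nat_lit 1100000, nat_lit 1785000, nat_lit 1271250], [nat_lit 29, nat_lit 40, nat_lit 20, nat_lit 80, nat_lit 17, nat_lit 289, nat_lit 75, nat_lit 8]⟩,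
 ⟨nat_lit 5700, nat_lit 5810, ⟨.ofNat (nat_lit 891972), .ofNat (nat_lit 930783), .ofNat (nat_lit 897307), .ofNat (nat_lit 936117), .ofNat (nat_lit 887912), .ofNat (nat_lit 926271), .ofNat (nat_lit 893248), .ofNat (nat_lit 931607)⟩, ⟨.ofNat (nat_lit 0), .ofNat (nat_lit 0), .ofNat (nat_lit 0), .ofNat (nat_lit 0), .ofNat (nat_lit 0), .ofNat (nat_lit 0), .ofNat (nat_lit 0), .ofNat (nat_lit 0)⟩⟩, [⟨nat_lit 13, nat_lit 96, nat_lit 13, nat_lit 100, nat_lit 148241485⟩]⟩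
noncomputable def p012_l210 : Lf2 := ⟨nat_lit 0, nat_lit 5, [nat_lit 4, nat_lit 5, nat_lit 5, nat_lit 20], true, nat_lit 0, nat_lit 0, nat_lit 0, nat_lit 0, ⟨nat_lit 0, nat_lit 1000, nat_lit 0, nat_lit 9, nat_lit 362, nat_lit 0, nat_lit 0, nat_lit 0, nat_lit 0, nat_lit 0, nat_lit 0, nat_lit 0, nat_lit 36814039, nat_lit 30185961, nat_lit 0, nat_lit 3441229, true, true⟩,
 nat_lit 0, nat_lit 0, nat_lit 0, nat_lit 0, nat_lit 3932, nat_lit 0, nat_lit 671, nat_lit 0, nat_lit 0, nat_lit 0, nat_lit 0, nat_lit 0, nat_lit 0, nat_lit 0, nat_lit 0, nat_lit 400000, nat_lit 0, nat_lit 0, [(nat_lit 9, [(nat_lit 1, nat_lit 1000)])],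
 ⟨p012_k9, nat_lit 0, nat_lit 0, nat_lit 183, nat_lit 0, nat_lit 0, [nat_lit 2742800000, nat_lit 3014800000], [], [nat_lit 28750838908, nat_lit 29059733596, nat_lit 29897138856, nat_lit 30307446112], nat_lit 0, nat_lit 0, nat_lit 0, nat_lit 0, nat_lit 0, nat_lit 0, [], [nat_lit 39, nat_lit 40, nat_lit 20, nat_lit 80, nat_lit 7, nat_lit 203, nat_lit 0, nat_lit 6]⟩, C1.Rw.none,
 ⟨nat_lit 5477, nat_lit 5701, ⟨.ofNat (nat_lit 887895), .ofNat (nat_lit 926252), .ofNat (nat_lit 893230), .ofNat (nat_lit 931587), .ofNat (nat_lit 879888), .ofNat (nat_lit 917352), .ofNat (nat_lit 885227), .ofNat (nat_lit 922691)⟩, ⟨.ofNat (nat_lit 0), .ofNat (nat_lit 0), .ofNat (nat_lit 0), .ofNat (nat_lit 0), .ofNat (nat_lit 0), .ofNat (nat_lit 0), .ofNat (nat_lit 0), .ofNat (nat_lit 0)⟩⟩, [⟨nat_lit 13, nat_lit 96, nat_lit 13, nat_lit 100, nat_lit 184242777⟩]⟩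
noncomputable def p012_l211 : Lf2 := ⟨nat_lit 0, nat_lit 5, [nat_lit 4, nat_lit 5, nat_lit 5, nat_lit 20], false, nat_lit 0, nat_lit 0, nat_lit 0, nat_lit 0, ⟨nat_lit 1000, nat_lit 0, nat_lit 0, nat_lit 0, nat_lit 0, nat_lit 0, nat_lit 0, nat_lit 0, nat_lit 0, nat_lit 0, nat_lit 0, nat_lit 0, nat_lit 0, nat_lit 0, nat_lit 0, nat_lit 0, false, false⟩,
 nat_lit 0, nat_lit 0, nat_lit 16798, nat_lit 0, nat_lit 5724, nat_lit 8893, nat_lit 0, nat_lit 0, nat_lit 0, nat_lit 602, nat_lit 0, nat_lit 0, nat_lit 0, nat_lit 0, nat_lit 0, nat_lit 0, nat_lit 0, nat_lit 0, [],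
 ⟨p012_k6, nat_lit 0, nat_lit 0, nat_lit 182, nat_lit 0, nat_lit 0, [nat_lit 4688000000, nat_lit 7968000000], [], [nat_lit 36224489040, nat_lit 36559428656, nat_lit 37645693656, nat_lit 37950627820], nat_lit 0, nat_lit 0, nat_lit 0, nat_lit 0, nat_lit 0, nat_lit 0, [], [nat_lit 39, nat_lit 40, nat_lit 20, nat_lit 80, nat_lit 7, nat_lit 203, nat_lit 0, nat_lit 6]⟩, ⟨p012_k5, nat_lit 0, nat_lit 0, nat_lit 514, nat_lit 0, nat_lit 707555, [nat_lit 4688000000, nat_lit 7968000000, nat_lit 9842000000], [], [nat_lit 40537795048, nat_lit 40575920711, nat_lit 41328831904, nat_lit 41358298914], nat_lit 1271250, nat_lit 1271250, nat_lit 1271250, nat_lit 1271250, nat_lit 0, nat_lit 0, [nat_lit 1100000, nat_lit 1785000, nat_lit 1271250], [nat_lit 29, nat_lit 40, nat_lit 20, nat_lit 80, nat_lit 17, nat_lit 289, nat_lit 75, nat_lit 8]⟩,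
 zbF0, [⟨nat_lit 13, nat_lit 97, nat_lit 12, nat_lit 100, nat_lit 104492018⟩]⟩
noncomputable def p012_l212 : Lf2 := ⟨nat_lit 0, nat_lit 5, [nat_lit 4, nat_lit 5, nat_lit 5, nat_lit 20], false, nat_lit 0, nat_lit 0, nat_lit 0, nat_lit 0, ⟨nat_lit 1000, nat_lit 0, nat_lit 0, nat_lit 0, nat_lit 0, nat_lit 0, nat_lit 0, nat_lit 0, nat_lit 0, nat_lit 0, nat_lit 0, nat_lit 0, nat_lit 0, nat_lit 0, nat_lit 0, nat_lit 0, false, false⟩,
 nat_lit 0, nat_lit 0, nat_lit 13310, nat_lit 0, nat_lit 5318, nat_lit 7046, nat_lit 1812, nat_lit 0, nat_lit 0, nat_lit 626, nat_lit 0, nat_lit 0, nat_lit 0, nat_lit 0, nat_lit 0, nat_lit 0, nat_lit 0, nat_lit 0, [],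
 ⟨p012_k9, nat_lit 0, nat_lit 0, nat_lit 183, nat_lit 0, nat_lit 0, [nat_lit 4688000000, nat_lit 7968000000], [], [nat_lit 32224022092, nat_lit 32388541498, nat_lit 33559675990, nat_lit 33710868368], nat_lit 0, nat_lit 0, nat_lit 0, nat_lit 0, nat_lit 0, nat_lit 0, [], [nat_lit 39, nat_lit 40, nat_lit 20, nat_lit 80, nat_lit 7, nat_lit 203, nat_lit 0, nat_lit 6]⟩, ⟨p012_k5, nat_lit 0, nat_lit 0, nat_lit 537, nat_lit 0, nat_lit 771232, [nat_lit 4688000000, nat_lit 7968000000, nat_lit 9842000000], [], [nat_lit 46071985776, nat_lit 46117857442, nat_lit 46785620088, nat_lit 46827690750], nat_lit 1271250, nat_lit 1271250, nat_lit 1271250, nat_lit 1271250, nat_lit 0, nat_lit 0, [nat_lit 1100000, nat_lit 1785000, nat_lit 1271250], [nat_lit 29, nat_lit 40, nat_lit 20, nat_lit 80, nat_lit 17, nat_lit 289, nat_lit 75, nat_lit 8]⟩,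
 zbF0, [⟨nat_lit 13, nat_lit 95, nat_lit 16, nat_lit 100, nat_lit 71883706⟩]⟩
noncomputable def p012_l213 : Lf2 := ⟨nat_lit 0, nat_lit 5, [nat_lit 4, nat_lit 5, nat_lit 5, nat_lit 20], false, nat_lit 0, nat_lit 0, nat_lit 0, nat_lit 0, ⟨nat_lit 217, nat_lit 783, nat_lit 0, nat_lit 9, nat_lit 361, nat_lit 0, nat_lit 0, nat_lit 0, nat_lit 0, nat_lit 0, nat_lit 0, nat_lit 0, nat_lit 36891169, nat_lit 30108831, nat_lit 0, nat_lit 3440073, true, true⟩,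
 nat_lit 0, nat_lit 0, nat_lit 2894, nat_lit 0, nat_lit 4207, nat_lit 1532, nat_lit 774, nat_lit 0, nat_lit 0, nat_lit 136, nat_lit 0, nat_lit 0, nat_lit 0, nat_lit 0, nat_lit 0, nat_lit 313200, nat_lit 0, nat_lit 0, [(nat_lit 9, [(nat_lit 1, nat_lit 783)])],
 ⟨p012_k26, nat_lit 0, nat_lit 0, nat_lit 183, nat_lit 0, nat_lit 0, [nat_lit 3164908401, nat_lit 4072718400], [], [nat_lit 29692941078, nat_lit 29849386847, nat_lit 30864798375, nat_lit 31027015512], nat_lit 0, nat_lit 0, nat_lit 0, nat_lit 0, nat_lit 0, nat_lit 0, [], [nat_lit 39, nat_lit 40, nat_lit 20, nat_lit 80, nat_lit 7, nat_lit 203, nat_lit 0, nat_lit 6]⟩, ⟨p012_k5, nat_lit 0, nat_lit 0, nat_lit 575, nat_lit 0, nat_lit 837294, [nat_lit 1017296000, nat_lit 1729056000, nat_lit 2135714000], [], [nat_lit 9987098848, nat_lit 9997802161, nat_lit 10142845788, nat_lit 10152373758], nat_lit 1271250, nat_lit 1271250, nat_lit 1271250,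 nat_lit 1271250, nat_lit 0, nat_lit 0, [nat_lit 1100000, nat_lit 1785000, nat_lit 1271250], [nat_lit 29, nat_lit 40, nat_lit 20, nat_lit 80, nat_lit 17, nat_lit 289, nat_lit 75, nat_lit 8]⟩,
 ⟨nat_lit 5477, nat_lit 5591, ⟨.ofNat (nat_lit 883891), .ofNat (nat_lit 921802), .ofNat (nat_lit 889228), .ofNat (nat_lit 927139), .ofNat (nat_lit 879906), .ofNat (nat_lit 917372), .ofNat (nat_lit 885245), .ofNat (nat_lit 922711)⟩, ⟨.ofNat (nat_lit 0), .ofNat (nat_lit 0), .ofNat (nat_lit 0), .ofNat (nat_lit 0), .ofNat (nat_lit 0), .ofNat (nat_lit 0), .ofNat (nat_lit 0), .ofNat (nat_lit 0)⟩⟩, [⟨nat_lit 13, nat_lit 94, nat_lit 19, nat_lit 100, nat_lit 164326421⟩]⟩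
noncomputable def p012_l214 : Lf2 := ⟨nat_lit 0, nat_lit 5, [nat_lit 4, nat_lit 5, nat_lit 5, nat_lit 20], false, nat_lit 0, nat_lit 0, nat_lit 0, nat_lit 0, ⟨nat_lit 1000, nat_lit 0, nat_lit 0, nat_lit 0, nat_lit 0, nat_lit 0, nat_lit 0, nat_lit 0, nat_lit 0, nat_lit 0, nat_lit 0, nat_lit 0, nat_lit 0, nat_lit 0, nat_lit 0, nat_lit 0, false, false⟩,
 nat_lit 0, nat_lit 0, nat_lit 12523, nat_lit 0, nat_lit 5689, nat_lit 6629, nat_lit 0, nat_lit 0, nat_lit 0, nat_lit 676, nat_lit 0, nat_lit 0, nat_lit 0, nat_lit 0, nat_lit 0, nat_lit 0, nat_lit 0, nat_lit 0, [],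
 ⟨p012_k6, nat_lit 0, nat_lit 0, nat_lit 183, nat_lit 0, nat_lit 0, [nat_lit 4688000000, nat_lit 7968000000], [], [nat_lit 36239820440, nat_lit 36908682292, nat_lit 37656088866, nat_lit 38265235424], nat_lit 0, nat_lit 0, nat_lit 0, nat_lit 0, nat_lit 0, nat_lit 0, [], [nat_lit 39, nat_lit 40, nat_lit 20, nat_lit 80, nat_lit 7, nat_lit 203, nat_lit 0, nat_lit 6]⟩, ⟨p012_k5, nat_lit 0, nat_lit 0, nat_lit 466, nat_lit 0, nat_lit 577995, [nat_lit 4688000000, nat_lit 7968000000, nat_lit 9842000000], [], [nat_lit 43766145280, nat_lit 43833972170, nat_lit 44600965076, nat_lit 44664322562], nat_lit 1271250, nat_lit 1271250, nat_lit 1271250, nat_lit 1271250, nat_lit 0, nat_lit 0, [nat_lit 1100000, nat_lit 1785000, nat_lit 1271250], [nat_lit 29, nat_lit 40, nat_lit 20, nat_lit 80, nat_lit 17, nat_lit 289, nat_lit 75, nat_lit 8]⟩,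
 zbF0, [⟨nat_lit 13, nat_lit 94, nat_lit 21, nat_lit 100, nat_lit 116517809⟩]⟩
noncomputable def p012_l215 : Lf2 := ⟨nat_lit 0, nat_lit 5, [nat_lit 4, nat_lit 5, nat_lit 5, nat_lit 20], false, nat_lit 0, nat_lit 0, nat_lit 0, nat_lit 0, ⟨nat_lit 261, nat_lit 739, nat_lit 0, nat_lit 8, nat_lit 343, nat_lit 0, nat_lit 0, nat_lit 0, nat_lit 0, nat_lit 0, nat_lit 0, nat_lit 0, nat_lit 38608416, nat_lit 28391584, nat_lit 0, nat_lit 3407374, true, true⟩,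
 nat_lit 0, nat_lit 0, nat_lit 3685, nat_lit 0, nat_lit 4325, nat_lit 1998, nat_lit 475, nat_lit 0, nat_lit 0, nat_lit 305, nat_lit 0, nat_lit 0, nat_lit 0, nat_lit 0, nat_lit 0, nat_lit 739000, nat_lit 0, nat_lit 0, [(nat_lit 9, [(nat_lit 2, nat_lit 739)])],
 ⟨p012_k11, nat_lit 0, nat_lit 0, nat_lit 193, nat_lit 0, nat_lit 0, [nat_lit 3191869867, nat_lit 3352528801, nat_lit 3286454199], [], [nat_lit 26070948266, nat_lit 26845092766, nat_lit 30743529116, nat_lit 31335776200], nat_lit 0, nat_lit 0, nat_lit 0, nat_lit 0, nat_lit 0, nat_lit 0, [], [nat_lit 9, nat_lit 40, nat_lit 20, nat_lit 80, nat_lit 2, nat_lit 203, nat_lit 0, nat_lit 6]⟩, ⟨p012_k42, nat_lit 0, nat_lit 0, nat_lit 762, nat_lit 0, nat_lit 1296265, [nat_lit 1223568000, nat_lit 1631250000, nat_lit 2568762000], [], [nat_lit 9594496423, nat_lit 9602573360, nat_lit 10036271787, nat_lit 10048261770], nat_lit 1271250, nat_lit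 1271250, nat_lit 1271250, nat_lit 1271250, nat_lit 0, nat_lit 0, [nat_lit 1100000, nat_lit 1442500, nat_lit 1271250], [nat_lit 11, nat_lit 40, nat_lit 20, nat_lit 80, nat_lit 1, nat_lit 289, nat_lit 75, nat_lit 8]⟩,
 ⟨nat_lit 5477, nat_lit 5917, ⟨.ofNat (nat_lit 783538), .ofNat (nat_lit 940567), .ofNat (nat_lit 788871), .ofNat (nat_lit 945900), .ofNat (nat_lit 772776), .ofNat (nat_lit 922604), .ofNat (nat_lit 778114), .ofNat (nat_lit 927941)⟩, ⟨.ofNat (nat_lit 0), .ofNat (nat_lit 0), .ofNat (nat_lit 0), .ofNat (nat_lit 0), .ofNat (nat_lit 0), .ofNat (nat_lit 0), .ofNat (nat_lit 0), .ofNat (nat_lit 0)⟩⟩, [⟨nat_lit 13, nat_lit 94, nat_lit 19, nat_lit 100, nat_lit 116156897⟩]⟩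
noncomputable def p012_l216 : Lf2 := ⟨nat_lit 0, nat_lit 5, [nat_lit 4, nat_lit 5, nat_lit 5, nat_lit 20], false, nat_lit 0, nat_lit 0, nat_lit 0, nat_lit 0, ⟨nat_lit 559, nat_lit 441, nat_lit 0, nat_lit 6, nat_lit 316, nat_lit 0, nat_lit 0, nat_lit 0, nat_lit 0, nat_lit 0, nat_lit 0, nat_lit 0, nat_lit 41300713, nat_lit 25699287, nat_lit 0, nat_lit 3328926, true, true⟩,
 nat_lit 0, nat_lit 0, nat_lit 7028, nat_lit 0, nat_lit 4814, nat_lit 3904, nat_lit 922, nat_lit 0, nat_lit 0, nat_lit 1581, nat_lit 0, nat_lit 0, nat_lit 0, nat_lit 0, nat_lit 0, nat_lit 441000, nat_lit 0, nat_lit 0, [(nat_lit 9, [(nat_lit 2, nat_lit 441)])],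
 ⟨p012_k11, nat_lit 0, nat_lit 0, nat_lit 193, nat_lit 0, nat_lit 0, [nat_lit 3795180800, nat_lit 4520927201, nat_lit 5158549799], [], [nat_lit 22999958623, nat_lit 24004271927, nat_lit 32000899715, nat_lit 32615301424], nat_lit 0, nat_lit 0, nat_lit 0, nat_lit 0, nat_lit 0, nat_lit 0, [], [nat_lit 9, nat_lit 40, nat_lit 20, nat_lit 80, nat_lit 2, nat_lit 203, nat_lit 0, nat_lit 6]⟩, ⟨p012_k4, nat_lit 0, nat_lit 0, nat_lit 731, nat_lit 0, nat_lit 1336040, [nat_lit 2620592000, nat_lit 3493750000, nat_lit 4454112000], [], [nat_lit 19110763441, nat_lit 19185926990, nat_lit 20797342169, nat_lit 20849199788], nat_lit 1271250, nat_lit 1271250, nat_lit 1271250, nat_lit 1271250, nat_lit 0, nat_lit 0, [nat_lit 1100000, nat_lit 1442500, nat_lit 1271250], [nat_lit 9, nat_lit 40, nat_lit 20, nat_lit 80, nat_lit 2, nat_lit 266, nat_lit 0, nat_lit 8]⟩,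
 ⟨nat_lit 5477, nat_lit 5917, ⟨.ofNat (nat_lit 631842), .ofNat (nat_lit 945900), .ofNat (nat_lit 642507), .ofNat (nat_lit 956565), .ofNat (nat_lit 628285), .ofNat (nat_lit 927941), .ofNat (nat_lit 638960), .ofNat (nat_lit 938616)⟩, ⟨.ofNat (nat_lit 0), .ofNat (nat_lit 0), .ofNat (nat_lit 0), .ofNat (nat_lit 0), .ofNat (nat_lit 0), .ofNat (nat_lit 0), .ofNat (nat_lit 0), .ofNat (nat_lit 0)⟩⟩, []⟩
noncomputable def p012_l217 : Lf2 := ⟨nat_lit 0, nat_lit 5, [nat_lit 4, nat_lit 5, nat_lit 5, nat_lit 20], false, nat_lit 0, nat_lit 0, nat_lit 0, nat_lit 0, ⟨nat_lit 439, nat_lit 561, nat_lit 0, nat_lit 6, nat_lit 231, nat_lit 0, nat_lit 0, nat_lit 0, nat_lit 0, nat_lit 0, nat_lit 0, nat_lit 0, nat_lit 0, nat_lit 0, nat_lit 0, nat_lit 5000000, false, false⟩,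
 nat_lit 0, nat_lit 0, nat_lit 0, nat_lit 0, nat_lit 2133, nat_lit 0, nat_lit 0, nat_lit 0, nat_lit 0, nat_lit 0, nat_lit 0, nat_lit 0, nat_lit 0, nat_lit 0, nat_lit 0, nat_lit 140250, nat_lit 0, nat_lit 0, [(nat_lit 9, [(nat_lit 0, nat_lit 561)])],
 ⟨p012_k11, nat_lit 0, nat_lit 0, nat_lit 193, nat_lit 0, nat_lit 0, [nat_lit 3806556801, nat_lit 4424954800, nat_lit 5379770400], [], [nat_lit 24568388394, nat_lit 25569524937, nat_lit 35242569403, nat_lit 35778384129], nat_lit 0, nat_lit 0, nat_lit 0, nat_lit 0, nat_lit 0, nat_lit 0, [], [nat_lit 9, nat_lit 40, nat_lit 20, nat_lit 80, nat_lit 2, nat_lit 317, nat_lit 100, nat_lit 11]⟩, ⟨p012_k0, nat_lit 0, nat_lit 0, nat_lit 214, nat_lit 0, nat_lit 0, [nat_lit 2058032000, nat_lit 2743750000, nat_lit 4320638000], [], [nat_lit 14068532557, nat_lit 14356106707, nat_lit 18311385376, nat_lit 18520518830], nat_lit 0, nat_lit 0, nat_lit 0, nat_lit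 0, nat_lit 0, nat_lit 0, [], [nat_lit 11, nat_lit 40, nat_lit 20, nat_lit 80, nat_lit 1, nat_lit 401, nat_lit 175, nat_lit 12]⟩,
 ⟨nat_lit 5477, nat_lit 5917, ⟨.ofNat (nat_lit 197129), .ofNat (nat_lit 935234), .ofNat (nat_lit 218469), .ofNat (nat_lit 956565), .ofNat (nat_lit 213007), .ofNat (nat_lit 917267), .ofNat (nat_lit 234364), .ofNat (nat_lit 938616)⟩, ⟨.ofNat (nat_lit 0), .ofNat (nat_lit 0), .ofNat (nat_lit 0), .ofNat (nat_lit 0), .ofNat (nat_lit 0), .ofNat (nat_lit 0), .ofNat (nat_lit 0), .ofNat (nat_lit 0)⟩⟩, []⟩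
noncomputable def p012_l218 : Lf2 := ⟨nat_lit 0, nat_lit 5, [nat_lit 4, nat_lit 5, nat_lit 5, nat_lit 20], true, nat_lit 0, nat_lit 0, nat_lit 0, nat_lit 0, ⟨nat_lit 0, nat_lit 1000, nat_lit 0, nat_lit 6, nat_lit 169, nat_lit 0, nat_lit 0, nat_lit 0, nat_lit 0, nat_lit 0, nat_lit 0, nat_lit 0, nat_lit 0, nat_lit 0, nat_lit 0, nat_lit 5000000, false, false⟩,
 nat_lit 0, nat_lit 0, nat_lit 0, nat_lit 0, nat_lit 1306, nat_lit 0, nat_lit 0, nat_lit 0, nat_lit 0, nat_lit 0, nat_lit 0, nat_lit 0, nat_lit 0, nat_lit 0, nat_lit 0, nat_lit 250000, nat_lit 0, nat_lit 0, [(nat_lit 9, [(nat_lit 0, nat_lit 1000)])],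
 ⟨p012_k6, nat_lit 0, nat_lit 0, nat_lit 163, nat_lit 0, nat_lit 0, [nat_lit 3116800000, nat_lit 3354400000], [], [nat_lit 22414412450, nat_lit 23293903247, nat_lit 26864349896, nat_lit 27563340912], nat_lit 0, nat_lit 0, nat_lit 0, nat_lit 0, nat_lit 0, nat_lit 0, [], [nat_lit 39, nat_lit 40, nat_lit 20, nat_lit 80, nat_lit 7, nat_lit 272, nat_lit 60, nat_lit 9]⟩, C1.Rw.none,
 ⟨nat_lit 5477, nat_lit 5917, ⟨.ofNat (nat_lit 197129), .ofNat (nat_lit 621176), .ofNat (nat_lit 218469), .ofNat (nat_lit 642507), .ofNat (nat_lit 213007), .ofNat (nat_lit 617611), .ofNat (nat_lit 234364), .ofNat (nat_lit 638960)⟩, ⟨.ofNat (nat_lit 0), .ofNat (nat_lit 0), .ofNat (nat_lit 0), .ofNat (nat_lit 0), .ofNat (nat_lit 0), .ofNat (nat_lit 0), .ofNat (nat_lit 0), .ofNat (nat_lit 0)⟩⟩, []⟩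
noncomputable def p012_l219 : Lf2 := ⟨nat_lit 0, nat_lit 5, [nat_lit 4, nat_lit 5, nat_lit 5, nat_lit 20], true, nat_lit 0, nat_lit 0, nat_lit 0, nat_lit 0, ⟨nat_lit 0, nat_lit 1000, nat_lit 0, nat_lit 6, nat_lit 313, nat_lit 0, nat_lit 0, nat_lit 0, nat_lit 0, nat_lit 0, nat_lit 0, nat_lit 0, nat_lit 0, nat_lit 0, nat_lit 0, nat_lit 5000000, true, true⟩,
 nat_lit 0, nat_lit 0, nat_lit 0, nat_lit 0, nat_lit 4224, nat_lit 0, nat_lit 0, nat_lit 0, nat_lit 0, nat_lit 0, nat_lit 0, nat_lit 0, nat_lit 0, nat_lit 0, nat_lit 0, nat_lit 400000, nat_lit 0, nat_lit 0, [(nat_lit 9, [(nat_lit 1, nat_lit 1000)])],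
 ⟨p012_k6, nat_lit 0, nat_lit 0, nat_lit 183, nat_lit 0, nat_lit 0, [nat_lit 2742800000, nat_lit 3014800000], [], [nat_lit 22711933584, nat_lit 23664895648, nat_lit 31192802656, nat_lit 31846545344], nat_lit 0, nat_lit 0, nat_lit 0, nat_lit 0, nat_lit 0, nat_lit 0, [], [nat_lit 39, nat_lit 40, nat_lit 20, nat_lit 80, nat_lit 7, nat_lit 203, nat_lit 0, nat_lit 6]⟩, C1.Rw.none,
 ⟨nat_lit 5477, nat_lit 5917, ⟨.ofNat (nat_lit 621176), .ofNat (nat_lit 935234), .ofNat (nat_lit 642507), .ofNat (nat_lit 956565), .ofNat (nat_lit 617611), .ofNat (nat_lit 917267), .ofNat (nat_lit 638960), .ofNat (nat_lit 938616)⟩, ⟨.ofNat (nat_lit 0), .ofNat (nat_lit 0), .ofNat (nat_lit 0), .ofNat (nat_lit 0), .ofNat (nat_lit 0), .ofNat (nat_lit 0), .ofNat (nat_lit 0), .ofNat (nat_lit 0)⟩⟩, []⟩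
noncomputable def b_NL_650_600_0_0 : St := ⟨false, nat_lit 0, nat_lit 2, nat_lit 0, nat_lit 20, nat_lit 260, nat_lit 280, nat_lit 240, nat_lit 260, nat_lit 24, nat_lit 400, nat_lit 0, nat_lit 0, nat_lit 0, nat_lit 0, nat_lit 0, nat_lit 0, nat_lit 0, nat_lit 40, nat_lit 0, nat_lit 0, nat_lit 0, nat_lit 0⟩
theorem d_NL_650_600_0_0 (h : EB TB.env) : Dead b_NL_650_600_0_0 := chkB_sound0 h (T :=
(.gv
(.st (nat_lit 1)
(.leaf p012_l203)
(.spl (nat_lit 2) (nat_lit 240)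
(.leaf p012_l204)
(.spl (nat_lit 1) (nat_lit 250)
(.spl (nat_lit 2) (nat_lit 320)
(.leaf p012_l205)
(.spl (nat_lit 1) (nat_lit 245)
(.spl (nat_lit 2) (nat_lit 360)
(.leaf p012_l206)
(.spl (nat_lit 2) (nat_lit 380)
(.leaf p012_l207)
(.spl (nat_lit 6) (nat_lit 20)
(.spl (nat_lit 0) (nat_lit 270)
(.spl (nat_lit 0) (nat_lit 265)
(.leaf p012_l208)
(.leaf p012_l209))
(.leaf p012_l210))
(.spl (nat_lit 6) (nat_lit 32)
(.spl (nat_lit 0) (nat_lit 270)
(.leaf p012_l211)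
(.spl (nat_lit 0) (nat_lit 275)
(.leaf p012_l212)
(.leaf p012_l213)))
(.leaf p012_l214)))))
(.leaf p012_l215)))
(.leaf p012_l216))))
(.st (nat_lit 1)
(.leaf p012_l217)
(.spl (nat_lit 2) (nat_lit 240)
(.leaf p012_l218)
(.leaf p012_l219))))) (by decide +kernel)
noncomputable def p012_l220 : Lf2 := ⟨nat_lit 0, nat_lit 5, [nat_lit 4, nat_lit 5, nat_lit 5, nat_lit 20], false, nat_lit 0, nat_lit 0, nat_lit 0, nat_lit 0, ⟨nat_lit 1000, nat_lit 0, nat_lit 0, nat_lit 0, nat_lit 0, nat_lit 0, nat_lit 0, nat_lit 0, nat_lit 0, nat_lit 0, nat_lit 0, nat_lit 0, nat_lit 0, nat_lit 0, nat_lit 0, nat_lit 0, false, false⟩,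
 nat_lit 0, nat_lit 14349, nat_lit 0, nat_lit 0, nat_lit 8352, nat_lit 7953, nat_lit 0, nat_lit 0, nat_lit 0, nat_lit 3610, nat_lit 0, nat_lit 0, nat_lit 0, nat_lit 0, nat_lit 0, nat_lit 0, nat_lit 0, nat_lit 0, [],
 ⟨p012_k11, nat_lit 0, nat_lit 0, nat_lit 428, nat_lit 0, nat_lit 510464, [nat_lit 4688000000, nat_lit 6250000000, nat_lit 7968000000], [], [nat_lit 29979086826, nat_lit 30519314719, nat_lit 29154695824, nat_lit 29687776216], nat_lit 1271250, nat_lit 1271250, nat_lit 134400, nat_lit 230001, nat_lit 0, nat_lit 0, [nat_lit 1100000, nat_lit 1442500, nat_lit 1271250], [nat_lit 9, nat_lit 40, nat_lit 20, nat_lit 80, nat_lit 2, nat_lit 215, nat_lit 10, nat_lit 7]⟩, ⟨p012_k0, nat_lit 0, nat_lit 0, nat_lit 207, nat_lit 0, nat_lit 0, [nat_lit 4688000000, nat_lit 6250000000, nat_lit 9842000000], [], [nat_lit 17445522016, nat_lit 19854658977, nat_lit 16416238752, nat_lit 18468026164],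 nat_lit 0, nat_lit 0, nat_lit 0, nat_lit 0, nat_lit 0, nat_lit 0, [], [nat_lit 11, nat_lit 40, nat_lit 20, nat_lit 80, nat_lit 1, nat_lit 289, nat_lit 75, nat_lit 9]⟩,
 zbF0, [⟨nat_lit 0, nat_lit 100, nat_lit 97, nat_lit 49, nat_lit 1372448952⟩]⟩
noncomputable def p012_l221 : Lf2 := ⟨nat_lit 0, nat_lit 5, [nat_lit 4, nat_lit 5, nat_lit 5, nat_lit 20], false, nat_lit 0, nat_lit 0, nat_lit 0, nat_lit 0, ⟨nat_lit 1000, nat_lit 0, nat_lit 0, nat_lit 0, nat_lit 0, nat_lit 0, nat_lit 0, nat_lit 0, nat_lit 0, nat_lit 0, nat_lit 0, nat_lit 0, nat_lit 0, nat_lit 0, nat_lit 0, nat_lit 0, false, false⟩,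
 nat_lit 0, nat_lit 14684, nat_lit 0, nat_lit 0, nat_lit 8547, nat_lit 6947, nat_lit 2119, nat_lit 0, nat_lit 0, nat_lit 571, nat_lit 0, nat_lit 0, nat_lit 0, nat_lit 0, nat_lit 0, nat_lit 0, nat_lit 0, nat_lit 0, [],
 ⟨p012_k11, nat_lit 0, nat_lit 0, nat_lit 369, nat_lit 0, nat_lit 365237, [nat_lit 4688000000, nat_lit 6250000000, nat_lit 7968000000], [], [nat_lit 20910018272, nat_lit 21725115224, nat_lit 20060655414, nat_lit 20600004276], nat_lit 1271250, nat_lit 1271250, nat_lit 134400, nat_lit 230001, nat_lit 0, nat_lit 0, [nat_lit 1100000, nat_lit 1442500, nat_lit 1271250], [nat_lit 9, nat_lit 40, nat_lit 20, nat_lit 80, nat_lit 2, nat_lit 215, nat_lit 10, nat_lit 7]⟩, ⟨p012_k0, nat_lit 0, nat_lit 0, nat_lit 207, nat_lit 0, nat_lit 0, [nat_lit 4688000000, nat_lit 6250000000, nat_lit 9842000000], [], [nat_lit 26531187367, nat_lit 28304761538, nat_lit 25611661962, nat_lit 27107851848],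 nat_lit 0, nat_lit 0, nat_lit 0, nat_lit 0, nat_lit 0, nat_lit 0, [], [nat_lit 11, nat_lit 40, nat_lit 20, nat_lit 80, nat_lit 1, nat_lit 289, nat_lit 75, nat_lit 9]⟩,
 zbF0, [⟨nat_lit 0, nat_lit 100, nat_lit 97, nat_lit 49, nat_lit 1345122375⟩]⟩
noncomputable def p012_l222 : Lf2 := ⟨nat_lit 0, nat_lit 5, [nat_lit 4, nat_lit 5, nat_lit 5, nat_lit 20], false, nat_lit 0, nat_lit 0, nat_lit 0, nat_lit 0, ⟨nat_lit 1000, nat_lit 0, nat_lit 0, nat_lit 0, nat_lit 0, nat_lit 0, nat_lit 0, nat_lit 0, nat_lit 0, nat_lit 0, nat_lit 0, nat_lit 0, nat_lit 0, nat_lit 0, nat_lit 0, nat_lit 0, false, false⟩,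
 nat_lit 0, nat_lit 15557, nat_lit 0, nat_lit 0, nat_lit 9474, nat_lit 7009, nat_lit 625, nat_lit 0, nat_lit 0, nat_lit 2341, nat_lit 0, nat_lit 0, nat_lit 0, nat_lit 0, nat_lit 0, nat_lit 0, nat_lit 0, nat_lit 0, [],
 ⟨p012_k13, nat_lit 0, nat_lit 0, nat_lit 451, nat_lit 0, nat_lit 570495, [nat_lit 4688000000, nat_lit 6250000000, nat_lit 7968000000], [], [nat_lit 25025124777, nat_lit 25851530919, nat_lit 24187396053, nat_lit 24890427581], nat_lit 1271250, nat_lit 1271250, nat_lit 157850, nat_lit 230001, nat_lit 0, nat_lit 0, [nat_lit 1100000, nat_lit 1442500, nat_lit 1271250], [nat_lit 9, nat_lit 40, nat_lit 20, nat_lit 80, nat_lit 2, nat_lit 215, nat_lit 10, nat_lit 7]⟩, ⟨p012_k0, nat_lit 0, nat_lit 0, nat_lit 203, nat_lit 0, nat_lit 0, [nat_lit 4688000000, nat_lit 6250000000, nat_lit 9842000000], [], [nat_lit 20612790734, nat_lit 22393373298, nat_lit 19915262214, nat_lit 21475283934],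 nat_lit 0, nat_lit 0, nat_lit 0, nat_lit 0, nat_lit 0, nat_lit 0, [], [nat_lit 11, nat_lit 40, nat_lit 20, nat_lit 80, nat_lit 1, nat_lit 289, nat_lit 75, nat_lit 9]⟩,
 zbF0, [⟨nat_lit 0, nat_lit 100, nat_lit 96, nat_lit 54, nat_lit 1432358017⟩]⟩
noncomputable def p012_l223 : Lf2 := ⟨nat_lit 0, nat_lit 5, [nat_lit 4, nat_lit 5, nat_lit 5, nat_lit 20], false, nat_lit 0, nat_lit 0, nat_lit 0, nat_lit 0, ⟨nat_lit 1000, nat_lit 0, nat_lit 0, nat_lit 0, nat_lit 0, nat_lit 0, nat_lit 0, nat_lit 0, nat_lit 0, nat_lit 0, nat_lit 0, nat_lit 0, nat_lit 0, nat_lit 0, nat_lit 0, nat_lit 0, false, false⟩,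
 nat_lit 0, nat_lit 15903, nat_lit 0, nat_lit 0, nat_lit 9256, nat_lit 6959, nat_lit 1156, nat_lit 0, nat_lit 0, nat_lit 1894, nat_lit 0, nat_lit 0, nat_lit 0, nat_lit 0, nat_lit 0, nat_lit 0, nat_lit 0, nat_lit 0, [],
 ⟨p012_k11, nat_lit 0, nat_lit 0, nat_lit 452, nat_lit 0, nat_lit 599664, [nat_lit 4688000000, nat_lit 6250000000, nat_lit 7968000000], [], [nat_lit 24595857500, nat_lit 25433725420, nat_lit 25468624364, nat_lit 23708265068], nat_lit 1271250, nat_lit 1271250, nat_lit 230001, nat_lit 490000, nat_lit 0, nat_lit 0, [nat_lit 1100000, nat_lit 1442500, nat_lit 1271250], [nat_lit 9, nat_lit 40, nat_lit 20, nat_lit 80, nat_lit 2, nat_lit 226, nat_lit 20, nat_lit 8]⟩, ⟨p012_k0, nat_lit 0, nat_lit 0, nat_lit 191, nat_lit 0, nat_lit 0, [nat_lit 4688000000, nat_lit 6250000000, nat_lit 9842000000], [], [nat_lit 21377918664, nat_lit 22875569406, nat_lit 20170135920, nat_lit 21612024908],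 nat_lit 0, nat_lit 0, nat_lit 0, nat_lit 0, nat_lit 0, nat_lit 0, [], [nat_lit 11, nat_lit 40, nat_lit 20, nat_lit 80, nat_lit 1, nat_lit 317, nat_lit 100, nat_lit 10]⟩,
 zbF0, [⟨nat_lit 0, nat_lit 100, nat_lit 96, nat_lit 69, nat_lit 769666451⟩]⟩
noncomputable def p012_l224 : Lf2 := ⟨nat_lit 0, nat_lit 5, [nat_lit 4, nat_lit 5, nat_lit 5, nat_lit 20], false, nat_lit 0, nat_lit 0, nat_lit 0, nat_lit 0, ⟨nat_lit 1000, nat_lit 0, nat_lit 0, nat_lit 0, nat_lit 0, nat_lit 0, nat_lit 0, nat_lit 0, nat_lit 0, nat_lit 0, nat_lit 0, nat_lit 0, nat_lit 0, nat_lit 0, nat_lit 0, nat_lit 0, false, false⟩,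
 nat_lit 0, nat_lit 15592, nat_lit 0, nat_lit 0, nat_lit 9075, nat_lit 10457, nat_lit 2288, nat_lit 0, nat_lit 0, nat_lit 3912, nat_lit 0, nat_lit 0, nat_lit 0, nat_lit 0, nat_lit 0, nat_lit 0, nat_lit 0, nat_lit 0, [],
 ⟨p012_k11, nat_lit 0, nat_lit 0, nat_lit 673, nat_lit 0, nat_lit 1107949, [nat_lit 4688000000, nat_lit 6250000000, nat_lit 7968000000], [], [nat_lit 24188143250, nat_lit 19535883700, nat_lit 22648451550, nat_lit 18817159300], nat_lit 1271250, nat_lit 1271250, nat_lit 490000, nat_lit 1100001, nat_lit 0, nat_lit 0, [nat_lit 1100000, nat_lit 1442500, nat_lit 1271250], [nat_lit 9, nat_lit 40, nat_lit 20, nat_lit 80, nat_lit 2, nat_lit 249, nat_lit 40, nat_lit 8]⟩, ⟨p012_k0, nat_lit 0, nat_lit 0, nat_lit 153, nat_lit 0, nat_lit 0, [nat_lit 4688000000, nat_lit 6250000000, nat_lit 9842000000], [], [nat_lit 13244777468, nat_lit 14353596211, nat_lit 13448664724, nat_lit 14703651873],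 nat_lit 0, nat_lit 0, nat_lit 0, nat_lit 0, nat_lit 0, nat_lit 0, [], [nat_lit 11, nat_lit 40, nat_lit 20, nat_lit 80, nat_lit 1, nat_lit 345, nat_lit 125, nat_lit 10]⟩,
 zbF0, []⟩
noncomputable def p012_l225 : Lf2 := ⟨nat_lit 0, nat_lit 5, [nat_lit 4, nat_lit 5, nat_lit 5, nat_lit 20], false, nat_lit 0, nat_lit 0, nat_lit 0, nat_lit 0, ⟨nat_lit 1000, nat_lit 0, nat_lit 0, nat_lit 0, nat_lit 0, nat_lit 0, nat_lit 0, nat_lit 0, nat_lit 0, nat_lit 0, nat_lit 0, nat_lit 0, nat_lit 0, nat_lit 0, nat_lit 0, nat_lit 0, false, false⟩,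
 nat_lit 0, nat_lit 14139, nat_lit 0, nat_lit 0, nat_lit 8230, nat_lit 6725, nat_lit 2522, nat_lit 0, nat_lit 0, nat_lit 0, nat_lit 0, nat_lit 0, nat_lit 0, nat_lit 0, nat_lit 0, nat_lit 0, nat_lit 0, nat_lit 0, [],
 ⟨p012_k11, nat_lit 0, nat_lit 0, nat_lit 675, nat_lit 0, nat_lit 1111641, [nat_lit 4688000000, nat_lit 6250000000, nat_lit 7968000000], [], [nat_lit 25107714500, nat_lit 23160310700, nat_lit 23588220120, nat_lit 22842313600], nat_lit 1271250, nat_lit 1271250, nat_lit 490000, nat_lit 1100001, nat_lit 0, nat_lit 0, [nat_lit 1100000, nat_lit 1442500, nat_lit 1271250], [nat_lit 9, nat_lit 40, nat_lit 20, nat_lit 80, nat_lit 2, nat_lit 249, nat_lit 40, nat_lit 8]⟩, ⟨p012_k4, nat_lit 0, nat_lit 0, nat_lit 69, nat_lit 0, nat_lit 0, [nat_lit 4688000000, nat_lit 6250000000, nat_lit 7968000000], [], [nat_lit 12215619725, nat_lit 13366868250, nat_lit 13420818425, nat_lit 14441556950],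 nat_lit 0, nat_lit 0, nat_lit 0, nat_lit 0, nat_lit 0, nat_lit 0, [], [nat_lit 9, nat_lit 40, nat_lit 20, nat_lit 80, nat_lit 2, nat_lit 249, nat_lit 40, nat_lit 8]⟩,
 zbF0, []⟩
noncomputable def p012_l226 : Lf2 := ⟨nat_lit 0, nat_lit 5, [nat_lit 4, nat_lit 5, nat_lit 5, nat_lit 20], false, nat_lit 0, nat_lit 0, nat_lit 0, nat_lit 0, ⟨nat_lit 1000, nat_lit 0, nat_lit 0, nat_lit 0, nat_lit 0, nat_lit 0, nat_lit 0, nat_lit 0, nat_lit 0, nat_lit 0, nat_lit 0, nat_lit 0, nat_lit 0, nat_lit 0, nat_lit 0, nat_lit 0, false, false⟩,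
 nat_lit 0, nat_lit 14776, nat_lit 0, nat_lit 0, nat_lit 8998, nat_lit 6725, nat_lit 1626, nat_lit 0, nat_lit 0, nat_lit 0, nat_lit 0, nat_lit 0, nat_lit 0, nat_lit 0, nat_lit 0, nat_lit 0, nat_lit 0, nat_lit 0, [],
 ⟨p012_k13, nat_lit 0, nat_lit 0, nat_lit 683, nat_lit 0, nat_lit 1131416, [nat_lit 4688000000, nat_lit 6250000000, nat_lit 7968000000], [], [nat_lit 21963690558, nat_lit 19749987770, nat_lit 20324939470, nat_lit 19213601192], nat_lit 1271250, nat_lit 1271250, nat_lit 490000, nat_lit 1100001, nat_lit 0, nat_lit 0, [nat_lit 1100000, nat_lit 1442500, nat_lit 1271250], [nat_lit 9, nat_lit 40, nat_lit 20, nat_lit 80, nat_lit 2, nat_lit 249, nat_lit 40, nat_lit 8]⟩, ⟨p012_k4, nat_lit 0, nat_lit 0, nat_lit 69, nat_lit 0, nat_lit 0, [nat_lit 4688000000, nat_lit 6250000000, nat_lit 7968000000], [], [nat_lit 12215619725, nat_lit 13366868250, nat_lit 13420818425, nat_lit 14441556950],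 nat_lit 0, nat_lit 0, nat_lit 0, nat_lit 0, nat_lit 0, nat_lit 0, [], [nat_lit 9, nat_lit 40, nat_lit 20, nat_lit 80, nat_lit 2, nat_lit 249, nat_lit 40, nat_lit 8]⟩,
 zbF0, []⟩
noncomputable def p012_l227 : Lf2 := ⟨nat_lit 0, nat_lit 5, [nat_lit 4, nat_lit 5, nat_lit 5, nat_lit 20], false, nat_lit 0, nat_lit 0, nat_lit 0, nat_lit 0, ⟨nat_lit 1000, nat_lit 0, nat_lit 0, nat_lit 0, nat_lit 0, nat_lit 0, nat_lit 0, nat_lit 0, nat_lit 0, nat_lit 0, nat_lit 0, nat_lit 0, nat_lit 0, nat_lit 0, nat_lit 0, nat_lit 0, false, false⟩,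
 nat_lit 0, nat_lit 13828, nat_lit 0, nat_lit 0, nat_lit 8049, nat_lit 10676, nat_lit 2052, nat_lit 0, nat_lit 0, nat_lit 3518, nat_lit 0, nat_lit 0, nat_lit 0, nat_lit 0, nat_lit 0, nat_lit 0, nat_lit 0, nat_lit 0, [],
 ⟨p012_k11, nat_lit 0, nat_lit 0, nat_lit 681, nat_lit 0, nat_lit 1204563, [nat_lit 4688000000, nat_lit 6250000000, nat_lit 7968000000], [], [nat_lit 28800721214, nat_lit 24609924708, nat_lit 29441871556, nat_lit 25596960844], nat_lit 1271250, nat_lit 1271250, nat_lit 1100001, nat_lit 1785000, nat_lit 0, nat_lit 0, [nat_lit 1100000, nat_lit 1442500, nat_lit 1271250], [nat_lit 9, nat_lit 40, nat_lit 20, nat_lit 80, nat_lit 2, nat_lit 272, nat_lit 60, nat_lit 9]⟩, ⟨p012_k0, nat_lit 0, nat_lit 0, nat_lit 146, nat_lit 0, nat_lit 0, [nat_lit 4688000000, nat_lit 6250000000, nat_lit 9842000000], [], [nat_lit 13865390236, nat_lit 15843017096, nat_lit 19655976704, nat_lit 22356899944],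 nat_lit 0, nat_lit 0, nat_lit 0, nat_lit 0, nat_lit 0, nat_lit 0, [], [nat_lit 11, nat_lit 40, nat_lit 20, nat_lit 80, nat_lit 1, nat_lit 345, nat_lit 125, nat_lit 10]⟩,
 zbF0, []⟩
noncomputable def p012_l228 : Lf2 := ⟨nat_lit 0, nat_lit 5, [nat_lit 4, nat_lit 5, nat_lit 5, nat_lit 20], false, nat_lit 0, nat_lit 0, nat_lit 0, nat_lit 0, ⟨nat_lit 1000, nat_lit 0, nat_lit 0, nat_lit 0, nat_lit 0, nat_lit 0, nat_lit 0, nat_lit 0, nat_lit 0, nat_lit 0, nat_lit 0, nat_lit 0, nat_lit 0, nat_lit 0, nat_lit 0, nat_lit 0, false, false⟩,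
 nat_lit 0, nat_lit 11354, nat_lit 0, nat_lit 0, nat_lit 6609, nat_lit 5957, nat_lit 2498, nat_lit 0, nat_lit 0, nat_lit 2017, nat_lit 0, nat_lit 0, nat_lit 0, nat_lit 0, nat_lit 0, nat_lit 0, nat_lit 0, nat_lit 0, [],
 ⟨p012_k6, nat_lit 0, nat_lit 0, nat_lit 657, nat_lit 0, nat_lit 1204563, [nat_lit 4688000000, nat_lit 7968000000], [], [nat_lit 32226400374, nat_lit 32645458168, nat_lit 37034445044, nat_lit 37313531552], nat_lit 1271250, nat_lit 1271250, nat_lit 1271250, nat_lit 1271250, nat_lit 0, nat_lit 0, [nat_lit 1100000, nat_lit 1785000], [nat_lit 39, nat_lit 40, nat_lit 20, nat_lit 80, nat_lit 7, nat_lit 250, nat_lit 0, nat_lit 8]⟩, ⟨p012_k5, nat_lit 0, nat_lit 0, nat_lit 225, nat_lit 0, nat_lit 0, [nat_lit 4688000000, nat_lit 7968000000, nat_lit 9842000000], [], [nat_lit 26464225360, nat_lit 27568020812, nat_lit 37119220988, nat_lit 37825771740], nat_lit 0, nat_lit 0, nat_lit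 0, nat_lit 0, nat_lit 0, nat_lit 0, [], [nat_lit 29, nat_lit 40, nat_lit 20, nat_lit 80, nat_lit 17, nat_lit 401, nat_lit 175, nat_lit 11]⟩,
 zbF0, []⟩
noncomputable def b_NL_650_600_0_1 : St := ⟨false, nat_lit 1, nat_lit 0, nat_lit 1, nat_lit 20, nat_lit 260, nat_lit 280, nat_lit 240, nat_lit 260, nat_lit 24, nat_lit 400, nat_lit 0, nat_lit 0, nat_lit 0, nat_lit 0, nat_lit 0, nat_lit 0, nat_lit 0, nat_lit 40, nat_lit 0, nat_lit 0, nat_lit 0, nat_lit 0⟩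
theorem d_NL_650_600_0_1 (h : EB TB.env) : Dead b_NL_650_600_0_1 := chkB_sound0 h (T :=
(.spl (nat_lit 2) (nat_lit 240)
(.spl (nat_lit 2) (nat_lit 160)
(.spl (nat_lit 2) (nat_lit 80)
(.spl (nat_lit 2) (nat_lit 40)
(.spl (nat_lit 0) (nat_lit 270)
(.spl (nat_lit 6) (nat_lit 20)
(.leaf p012_l220)
(.leaf p012_l221))
(.trZ (nat_lit 0) (nat_lit 100) (nat_lit 96) (nat_lit 54) (nat_lit 28) (.leaf p012_l222)))
(.leaf p012_l223))
(.spl (nat_lit 1) (nat_lit 250)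
(.leaf p012_l224)
(.spl (nat_lit 0) (nat_lit 270)
(.leaf p012_l225)
(.leaf p012_l226))))
(.leaf p012_l227))
(.leaf p012_l228))) (by decide +kernel)

end B2
end Pool.Agent.Lib.MP_6947cd_al
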