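import Pool.Agent.Lib.MP_6947cd_al.ZB.Pre

/-!
Problem MP_6947cd_al (Chollet).  Case B, second entry in [2/5, 17/20]: certificates of the tree, part P013 (generated).
-/

set_option autoImplicit false
set_option linter.all false

namespace Pool.Agent.Lib.MP_6947cd_al
namespace B2

open Ent Fr B1 PkA

noncomputable def p013_k0 : C1.Kn := ⟨[nat_lit 80, nat_lit 100, nat_lit 120], [nat_lit 0, nat_lit 265, nat_lit 768], [(nat_lit 0, nat_lit 0, nat_lit 0), (nat_lit 1000, nat_lit 959, nat_lit 206), (nat_lit 1000, nat_lit 958, nat_lit 392)], (nat_lit 96, nat_lit 100, nat_lit 44)⟩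
noncomputable def p013_k1 : C1.Kn := ⟨[nat_lit 80, nat_lit 90, nat_lit 110, nat_lit 130], [nat_lit 0, nat_lit 0, nat_lit 257, nat_lit 765], [(nat_lit 0, nat_lit 0, nat_lit 0), (nat_lit 0, nat_lit 0, nat_lit 0), (nat_lit 1000, nat_lit 980, nat_lit 201), (nat_lit 1000, nat_lit 999, nat_lit 396)], (nat_lit 100, nat_lit 99, nat_lit 44)⟩
noncomputable def p013_k2 : C1.Kn := ⟨[nat_lit 80, nat_lit 100, nat_lit 120], [nat_lit 0, nat_lit 399, nat_lit 897], [(nat_lit 0, nat_lit 0, nat_lit 0), (nat_lit 1000, nat_lit 938, nat_lit 310), (nat_lit 1000, nat_lit 938, nat_lit 389)], (nat_lit 94, nat_lit 100, nat_lit 44)⟩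
noncomputable def p013_k3 : C1.Kn := ⟨[nat_lit 70, nat_lit 80, nat_lit 100], [nat_lit 0, nat_lit 0, nat_lit 265], [(nat_lit 0, nat_lit 0, nat_lit 0), (nat_lit 0, nat_lit 0, nat_lit 0), (nat_lit 1000, nat_lit 959, nat_lit 206)], (nat_lit 95, nat_lit 100, nat_lit 28)⟩
noncomputable def p013_k4 : C1.Kn := ⟨[nat_lit 80, nat_lit 90, nat_lit 110], [nat_lit 0, nat_lit 0, nat_lit 257], [(nat_lit 0, nat_lit 0, nat_lit 0), (nat_lit 0, nat_lit 0, nat_lit 0), (nat_lit 1000, nat_lit 980, nat_lit 201)], (nat_lit 98, nat_lit 100, nat_lit 28)⟩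
noncomputable def p013_k5 : C1.Kn := ⟨[nat_lit 80, nat_lit 100], [nat_lit 0, nat_lit 399], [(nat_lit 0, nat_lit 0, nat_lit 0), (nat_lit 1000, nat_lit 938, nat_lit 310)], (nat_lit 94, nat_lit 100, nat_lit 28)⟩
noncomputable def p013_k6 : C1.Kn := ⟨[nat_lit 80, nat_lit 100, nat_lit 120], [nat_lit 0, nat_lit 0, nat_lit 511], [(nat_lit 0, nat_lit 0, nat_lit 0), (nat_lit 0, nat_lit 0, nat_lit 0), (nat_lit 1000, nat_lit 997, nat_lit 383)], (nat_lit 98, nat_lit 100, nat_lit 28)⟩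
noncomputable def p013_k7 : C1.Kn := ⟨[nat_lit 80, nat_lit 120], [nat_lit 0, nat_lit 528], [(nat_lit 0, nat_lit 0, nat_lit 0), (nat_lit 1000, nat_lit 959, nat_lit 206)], (nat_lit 96, nat_lit 100, nat_lit 44)⟩
noncomputable def p013_k8 : C1.Kn := ⟨[nat_lit 80, nat_lit 100, nat_lit 140], [nat_lit 0, nat_lit 0, nat_lit 1022], [(nat_lit 0, nat_lit 0, nat_lit 0), (nat_lit 0, nat_lit 0, nat_lit 0), (nat_lit 1000, nat_lit 1000, nat_lit 399)], (nat_lit 100, nat_lit 99, nat_lit 44)⟩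
noncomputable def p013_k9 : C1.Kn := ⟨[nat_lit 80, nat_lit 120], [nat_lit 0, nat_lit 664], [(nat_lit 0, nat_lit 0, nat_lit 0), (nat_lit 1000, nat_lit 948, nat_lit 259)], (nat_lit 95, nat_lit 100, nat_lit 44)⟩
noncomputable def p013_k10 : C1.Kn := ⟨[nat_lit 80, nat_lit 120, nat_lit 140], [nat_lit 0, nat_lit 0, nat_lit 1164], [(nat_lit 0, nat_lit 0, nat_lit 0), (nat_lit 0, nat_lit 0, nat_lit 0), (nat_lit 941, nat_lit 1000, nat_lit 576)], (nat_lit 100, nat_lit 99, nat_lit 44)⟩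
noncomputable def p013_k11 : C1.Kn := ⟨[nat_lit 80, nat_lit 120], [nat_lit 0, nat_lit 796], [(nat_lit 0, nat_lit 0, nat_lit 0), (nat_lit 1000, nat_lit 938, nat_lit 310)], (nat_lit 94, nat_lit 100, nat_lit 39)⟩
noncomputable def p013_k12 : C1.Kn := ⟨[nat_lit 80, nat_lit 120], [nat_lit 0, nat_lit 0], [(nat_lit 0, nat_lit 0, nat_lit 0), (nat_lit 0, nat_lit 0, nat_lit 0)], (nat_lit 100, nat_lit 100, nat_lit 40)⟩
noncomputable def p013_k13 : C1.Kn := ⟨[nat_lit 80, nat_lit 120], [nat_lit 0, nat_lit 796], [(nat_lit 0, nat_lit 0, nat_lit 0), (nat_lit 1000, nat_lit 938, nat_lit 310)], (nat_lit 94, nat_lit 100, nat_lit 44)⟩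
noncomputable def p013_k14 : C1.Kn := ⟨[nat_lit 80, nat_lit 120], [nat_lit 0, nat_lit 264], [(nat_lit 0, nat_lit 0, nat_lit 0), (nat_lit 1000, nat_lit 979, nat_lit 103)], (nat_lit 99, nat_lit 100, nat_lit 44)⟩
noncomputable def p013_k15 : C1.Kn := ⟨[nat_lit 80, nat_lit 100, nat_lit 120], [nat_lit 0, nat_lit 132, nat_lit 640], [(nat_lit 0, nat_lit 0, nat_lit 0), (nat_lit 1000, nat_lit 979, nat_lit 103), (nat_lit 1000, nat_lit 979, nat_lit 397)], (nat_lit 99, nat_lit 100, nat_lit 44)⟩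
noncomputable def p013_k16 : C1.Kn := ⟨[nat_lit 80, nat_lit 120], [nat_lit 0, nat_lit 929], [(nat_lit 0, nat_lit 0, nat_lit 0), (nat_lit 1000, nat_lit 927, nat_lit 362)], (nat_lit 93, nat_lit 100, nat_lit 44)⟩
noncomputable def p013_k17 : C1.Kn := ⟨[nat_lit 80, nat_lit 100], [nat_lit 0, nat_lit 265], [(nat_lit 0, nat_lit 0, nat_lit 0), (nat_lit 1000, nat_lit 959, nat_lit 206)], (nat_lit 95, nat_lit 100, nat_lit 28)⟩
noncomputable def p013_k18 : C1.Kn := ⟨[nat_lit 80, nat_lit 100, nat_lit 120], [nat_lit 0, nat_lit 265, nat_lit 768], [(nat_lit 0, nat_lit 0, nat_lit 0), (nat_lit 1000, nat_lit 959, nat_lit 206), (nat_lit 1000, nat_lit 958, nat_lit 392)], (nat_lit 96, nat_lit 100, nat_lit 39)⟩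
noncomputable def p013_k19 : C1.Kn := ⟨[nat_lit 80, nat_lit 100, nat_lit 120], [nat_lit 0, nat_lit 332, nat_lit 833], [(nat_lit 0, nat_lit 0, nat_lit 0), (nat_lit 1000, nat_lit 948, nat_lit 259), (nat_lit 1000, nat_lit 948, nat_lit 391)], (nat_lit 95, nat_lit 100, nat_lit 39)⟩
noncomputable def p013_k20 : C1.Kn := ⟨[nat_lit 80, nat_lit 100, nat_lit 120], [nat_lit 0, nat_lit 399, nat_lit 897], [(nat_lit 0, nat_lit 0, nat_lit 0), (nat_lit 1000, nat_lit 938, nat_lit 310), (nat_lit 1000, nat_lit 938, nat_lit 389)], (nat_lit 94, nat_lit 100, nat_lit 39)⟩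
noncomputable def p013_k21 : C1.Kn := ⟨[nat_lit 80, nat_lit 100, nat_lit 120], [nat_lit 0, nat_lit 0, nat_lit 511], [(nat_lit 0, nat_lit 0, nat_lit 0), (nat_lit 0, nat_lit 0, nat_lit 0), (nat_lit 1000, nat_lit 997, nat_lit 383)], (nat_lit 100, nat_lit 100, nat_lit 40)⟩
noncomputable def p013_k22 : C1.Kn := ⟨[nat_lit 80, nat_lit 140], [nat_lit 0, nat_lit 0], [(nat_lit 0, nat_lit 0, nat_lit 0), (nat_lit 0, nat_lit 0, nat_lit 0)], (nat_lit 100, nat_lit 99, nat_lit 44)⟩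
noncomputable def p013_k23 : C1.Kn := ⟨[nat_lit 80, nat_lit 100], [nat_lit 0, nat_lit 439], [(nat_lit 0, nat_lit 0, nat_lit 0), (nat_lit 1000, nat_lit 931, nat_lit 340)], (nat_lit 93, nat_lit 100, nat_lit 28)⟩
noncomputable def p013_k24 : C1.Kn := ⟨[nat_lit 80, nat_lit 100], [nat_lit 0, nat_lit 466], [(nat_lit 0, nat_lit 0, nat_lit 0), (nat_lit 1000, nat_lit 927, nat_lit 359)], (nat_lit 93, nat_lit 100, nat_lit 28)⟩
noncomputable def p013_k25 : C1.Kn := ⟨[nat_lit 80, nat_lit 100], [nat_lit 0, nat_lit 479], [(nat_lit 0, nat_lit 0, nat_lit 0), (nat_lit 1000, nat_lit 925, nat_lit 364)], (nat_lit 93, nat_lit 100, nat_lit 28)⟩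
noncomputable def p013_k26 : C1.Kn := ⟨[nat_lit 80, nat_lit 100], [nat_lit 0, nat_lit 493], [(nat_lit 0, nat_lit 0, nat_lit 0), (nat_lit 1000, nat_lit 923, nat_lit 378)], (nat_lit 94, nat_lit 100, nat_lit 20)⟩
noncomputable def p013_k27 : C1.Kn := ⟨[nat_lit 80, nat_lit 100], [nat_lit 0, nat_lit 265], [(nat_lit 0, nat_lit 0, nat_lit 0), (nat_lit 1000, nat_lit 959, nat_lit 206)], (nat_lit 96, nat_lit 100, nat_lit 20)⟩
noncomputable def p013_k28 : C1.Kn := ⟨[nat_lit 80, nat_lit 100], [nat_lit 0, nat_lit 493], [(nat_lit 0, nat_lit 0, nat_lit 0), (nat_lit 1000, nat_lit 923, nat_lit 378)], (nat_lit 93, nat_lit 100, nat_lit 28)⟩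
noncomputable def p013_k29 : C1.Kn := ⟨[nat_lit 80, nat_lit 100], [nat_lit 0, nat_lit 506], [(nat_lit 0, nat_lit 0, nat_lit 0), (nat_lit 1000, nat_lit 921, nat_lit 376)], (nat_lit 94, nat_lit 100, nat_lit 20)⟩
noncomputable def p013_k30 : C1.Kn := ⟨[nat_lit 80, nat_lit 100], [nat_lit 0, nat_lit 399], [(nat_lit 0, nat_lit 0, nat_lit 0), (nat_lit 1000, nat_lit 938, nat_lit 310)], (nat_lit 95, nat_lit 100, nat_lit 20)⟩
noncomputable def p013_k31 : C1.Kn := ⟨[nat_lit 80, nat_lit 100], [nat_lit 0, nat_lit 466], [(nat_lit 0, nat_lit 0, nat_lit 0), (nat_lit 1000, nat_lit 927, nat_lit 359)], (nat_lit 94, nat_lit 100, nat_lit 20)⟩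
noncomputable def p013_k32 : C1.Kn := ⟨[nat_lit 80, nat_lit 100], [nat_lit 0, nat_lit 520], [(nat_lit 0, nat_lit 0, nat_lit 0), (nat_lit 1000, nat_lit 919, nat_lit 385)], (nat_lit 94, nat_lit 100, nat_lit 20)⟩
noncomputable def p013_k33 : C1.Kn := ⟨[nat_lit 80, nat_lit 100], [nat_lit 0, nat_lit 506], [(nat_lit 0, nat_lit 0, nat_lit 0), (nat_lit 1000, nat_lit 921, nat_lit 376)], (nat_lit 93, nat_lit 100, nat_lit 28)⟩
noncomputable def p013_k34 : C1.Kn := ⟨[nat_lit 80, nat_lit 100, nat_lit 120], [nat_lit 0, nat_lit 466, nat_lit 966], [(nat_lit 0, nat_lit 0, nat_lit 0), (nat_lit 1000, nat_lit 927, nat_lit 359), (nat_lit 1000, nat_lit 927, nat_lit 391)], (nat_lit 93, nat_lit 100, nat_lit 44)⟩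
noncomputable def p013_k35 : C1.Kn := ⟨[nat_lit 80, nat_lit 100, nat_lit 120], [nat_lit 0, nat_lit 493, nat_lit 997], [(nat_lit 0, nat_lit 0, nat_lit 0), (nat_lit 1000, nat_lit 923, nat_lit 378), (nat_lit 1000, nat_lit 923, nat_lit 394)], (nat_lit 92, nat_lit 100, nat_lit 44)⟩
noncomputable def p013_k36 : C1.Kn := ⟨[nat_lit 80, nat_lit 100, nat_lit 120], [nat_lit 0, nat_lit 506, nat_lit 1024], [(nat_lit 0, nat_lit 0, nat_lit 0), (nat_lit 1000, nat_lit 921, nat_lit 376), (nat_lit 1000, nat_lit 921, nat_lit 405)], (nat_lit 92, nat_lit 100, nat_lit 44)⟩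
noncomputable def p013_k37 : C1.Kn := ⟨[nat_lit 80, nat_lit 100, nat_lit 120], [nat_lit 0, nat_lit 332, nat_lit 833], [(nat_lit 0, nat_lit 0, nat_lit 0), (nat_lit 1000, nat_lit 948, nat_lit 259), (nat_lit 1000, nat_lit 948, nat_lit 391)], (nat_lit 95, nat_lit 100, nat_lit 44)⟩
noncomputable def p013_k38 : C1.Kn := ⟨[nat_lit 80, nat_lit 100, nat_lit 120], [nat_lit 0, nat_lit 506, nat_lit 1024], [(nat_lit 0, nat_lit 0, nat_lit 0), (nat_lit 1000, nat_lit 921, nat_lit 376), (nat_lit 1000, nat_lit 921, nat_lit 405)], (nat_lit 92, nat_lit 100, nat_lit 39)⟩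
noncomputable def p013_k39 : C1.Kn := ⟨[nat_lit 80, nat_lit 100], [nat_lit 0, nat_lit 520], [(nat_lit 0, nat_lit 0, nat_lit 0), (nat_lit 1000, nat_lit 919, nat_lit 385)], (nat_lit 92, nat_lit 100, nat_lit 39)⟩
noncomputable def p013_k40 : C1.Kn := ⟨[nat_lit 60, nat_lit 140], [nat_lit 0, nat_lit 0], [(nat_lit 0, nat_lit 0, nat_lit 0), (nat_lit 0, nat_lit 0, nat_lit 0)], (nat_lit 94, nat_lit 100, nat_lit 62)⟩
noncomputable def p013_k41 : C1.Kn := ⟨[nat_lit 120, nat_lit 180], [nat_lit 0, nat_lit 0], [(nat_lit 0, nat_lit 0, nat_lit 0), (nat_lit 0, nat_lit 0, nat_lit 0)], (nat_lit 100, nat_lit 68, nat_lit 61)⟩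
noncomputable def p013_k42 : C1.Kn := ⟨[nat_lit 60, nat_lit 80, nat_lit 140], [nat_lit 0, nat_lit 0, nat_lit 1595], [(nat_lit 0, nat_lit 0, nat_lit 0), (nat_lit 0, nat_lit 0, nat_lit 0), (nat_lit 1000, nat_lit 917, nat_lit 415)], (nat_lit 94, nat_lit 100, nat_lit 62)⟩
noncomputable def p013_k43 : C1.Kn := ⟨[nat_lit 60, nat_lit 100, nat_lit 140], [nat_lit 0, nat_lit 0, nat_lit 2047], [(nat_lit 0, nat_lit 0, nat_lit 0), (nat_lit 0, nat_lit 0, nat_lit 0), (nat_lit 1000, nat_lit 993, nat_lit 781)], (nat_lit 94, nat_lit 100, nat_lit 62)⟩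
noncomputable def p013_k44 : C1.Kn := ⟨[nat_lit 60, nat_lit 80, nat_lit 120], [nat_lit 0, nat_lit 151, nat_lit 1205], [(nat_lit 0, nat_lit 0, nat_lit 0), (nat_lit 1000, nat_lit 953, nat_lit 118), (nat_lit 1000, nat_lit 894, nat_lit 411)], (nat_lit 91, nat_lit 100, nat_lit 61)⟩
noncomputable def p013_k45 : C1.Kn := ⟨[nat_lit 120, nat_lit 140, nat_lit 180], [nat_lit 0, nat_lit 0, nat_lit 1219], [(nat_lit 0, nat_lit 0, nat_lit 0), (nat_lit 0, nat_lit 0, nat_lit 0), (nat_lit 840, nat_lit 1000, nat_lit 400)], (nat_lit 100, nat_lit 68, nat_lit 61)⟩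
noncomputable def p013_k46 : C1.Kn := ⟨[nat_lit 60, nat_lit 80, nat_lit 100], [nat_lit 0, nat_lit 304, nat_lit 825], [(nat_lit 0, nat_lit 0, nat_lit 0), (nat_lit 1000, nat_lit 905, nat_lit 238), (nat_lit 1000, nat_lit 871, nat_lit 407)], (nat_lit 87, nat_lit 100, nat_lit 44)⟩
noncomputable def p013_k47 : C1.Kn := ⟨[nat_lit 120, nat_lit 140, nat_lit 180], [nat_lit 0, nat_lit 0, nat_lit 1219], [(nat_lit 0, nat_lit 0, nat_lit 0), (nat_lit 0, nat_lit 0, nat_lit 0), (nat_lit 840, nat_lit 1000, nat_lit 400)], (nat_lit 100, nat_lit 81, nat_lit 44)⟩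
noncomputable def p013_k48 : C1.Kn := ⟨[nat_lit 60, nat_lit 80, nat_lit 120], [nat_lit 0, nat_lit 304, nat_lit 1346], [(nat_lit 0, nat_lit 0, nat_lit 0), (nat_lit 1000, nat_lit 905, nat_lit 238), (nat_lit 1000, nat_lit 871, nat_lit 407)], (nat_lit 87, nat_lit 100, nat_lit 60)⟩
noncomputable def p013_k49 : C1.Kn := ⟨[nat_lit 120, nat_lit 160, nat_lit 180], [nat_lit 0, nat_lit 0, nat_lit 1613], [(nat_lit 0, nat_lit 0, nat_lit 0), (nat_lit 0, nat_lit 0, nat_lit 0), (nat_lit 620, nat_lit 1000, nat_lit 670)], (nat_lit 100, nat_lit 68, nat_lit 61)⟩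
noncomputable def p013_k50 : C1.Kn := ⟨[nat_lit 60, nat_lit 100, nat_lit 120], [nat_lit 0, nat_lit 609, nat_lit 1609], [(nat_lit 0, nat_lit 0, nat_lit 0), (nat_lit 1000, nat_lit 905, nat_lit 238), (nat_lit 1000, nat_lit 882, nat_lit 668)], (nat_lit 87, nat_lit 100, nat_lit 60)⟩
noncomputable def p013_k51 : C1.Kn := ⟨[nat_lit 60, nat_lit 80, nat_lit 120], [nat_lit 0, nat_lit 0, nat_lit 1064], [(nat_lit 0, nat_lit 0, nat_lit 0), (nat_lit 0, nat_lit 0, nat_lit 0), (nat_lit 1000, nat_lit 917, nat_lit 415)], (nat_lit 92, nat_lit 100, nat_lit 44)⟩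
noncomputable def p013_k52 : C1.Kn := ⟨[nat_lit 60, nat_lit 80, nat_lit 140], [nat_lit 0, nat_lit 75, nat_lit 1666], [(nat_lit 0, nat_lit 0, nat_lit 0), (nat_lit 1000, nat_lit 977, nat_lit 59), (nat_lit 1000, nat_lit 905, nat_lit 414)], (nat_lit 92, nat_lit 100, nat_lit 61)⟩
noncomputable def p013_k53 : C1.Kn := ⟨[nat_lit 60, nat_lit 80, nat_lit 100], [nat_lit 0, nat_lit 151, nat_lit 679], [(nat_lit 0, nat_lit 0, nat_lit 0), (nat_lit 1000, nat_lit 953, nat_lit 118), (nat_lit 1000, nat_lit 894, nat_lit 411)], (nat_lit 89, nat_lit 100, nat_lit 44)⟩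
noncomputable def p013_k54 : C1.Kn := ⟨[nat_lit 60, nat_lit 80, nat_lit 120], [nat_lit 0, nat_lit 228, nat_lit 1272], [(nat_lit 0, nat_lit 0, nat_lit 0), (nat_lit 1000, nat_lit 929, nat_lit 178), (nat_lit 1000, nat_lit 883, nat_lit 407)], (nat_lit 89, nat_lit 100, nat_lit 61)⟩
noncomputable def p013_k55 : C1.Kn := ⟨[nat_lit 60, nat_lit 80, nat_lit 120], [nat_lit 0, nat_lit 456, nat_lit 1495], [(nat_lit 0, nat_lit 0, nat_lit 0), (nat_lit 1000, nat_lit 859, nat_lit 351), (nat_lit 1000, nat_lit 848, nat_lit 406)], (nat_lit 84, nat_lit 100, nat_lit 60)⟩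
noncomputable def p013_k56 : C1.Kn := ⟨[nat_lit 60, nat_lit 80, nat_lit 100], [nat_lit 0, nat_lit 456, nat_lit 976], [(nat_lit 0, nat_lit 0, nat_lit 0), (nat_lit 1000, nat_lit 859, nat_lit 351), (nat_lit 1000, nat_lit 848, nat_lit 406)], (nat_lit 84, nat_lit 100, nat_lit 44)⟩
noncomputable def p013_k57 : C1.Kn := ⟨[nat_lit 60, nat_lit 80, nat_lit 120], [nat_lit 0, nat_lit 379, nat_lit 1423], [(nat_lit 0, nat_lit 0, nat_lit 0), (nat_lit 1000, nat_lit 882, nat_lit 294), (nat_lit 1000, nat_lit 859, nat_lit 408)], (nat_lit 85, nat_lit 100, nat_lit 60)⟩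
noncomputable def p013_k58 : C1.Kn := ⟨[nat_lit 60, nat_lit 80, nat_lit 120], [nat_lit 0, nat_lit 533, nat_lit 1600], [(nat_lit 0, nat_lit 0, nat_lit 0), (nat_lit 1000, nat_lit 837, nat_lit 397), (nat_lit 1000, nat_lit 833, nat_lit 417)], (nat_lit 82, nat_lit 100, nat_lit 60)⟩
noncomputable def p013_k59 : C1.Kn := ⟨[nat_lit 120, nat_lit 140, nat_lit 180], [nat_lit 0, nat_lit 132, nat_lit 1340], [(nat_lit 0, nat_lit 0, nat_lit 0), (nat_lit 980, nat_lit 1000, nat_lit 101), (nat_lit 856, nat_lit 1000, nat_lit 404)], (nat_lit 100, nat_lit 71, nat_lit 61)⟩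
noncomputable def p013_k60 : C1.Kn := ⟨[nat_lit 120, nat_lit 140, nat_lit 180], [nat_lit 0, nat_lit 266, nat_lit 1456], [(nat_lit 0, nat_lit 0, nat_lit 0), (nat_lit 960, nat_lit 1000, nat_lit 200), (nat_lit 874, nat_lit 1000, nat_lit 406)], (nat_lit 100, nat_lit 74, nat_lit 60)⟩
noncomputable def p013_k61 : C1.Kn := ⟨[nat_lit 60, nat_lit 120], [nat_lit 0, nat_lit 913], [(nat_lit 0, nat_lit 0, nat_lit 0), (nat_lit 1000, nat_lit 905, nat_lit 238)], (nat_lit 87, nat_lit 100, nat_lit 60)⟩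
noncomputable def p013_k62 : C1.Kn := ⟨[nat_lit 60, nat_lit 100, nat_lit 140], [nat_lit 0, nat_lit 151, nat_lit 2175], [(nat_lit 0, nat_lit 0, nat_lit 0), (nat_lit 1000, nat_lit 977, nat_lit 59), (nat_lit 1000, nat_lit 974, nat_lit 785)], (nat_lit 92, nat_lit 100, nat_lit 61)⟩
noncomputable def p013_k63 : C1.Kn := ⟨[nat_lit 120, nat_lit 160, nat_lit 180], [nat_lit 0, nat_lit 533, nat_lit 2066], [(nat_lit 0, nat_lit 0, nat_lit 0), (nat_lit 960, nat_lit 1000, nat_lit 200), (nat_lit 615, nat_lit 1000, nat_lit 729)], (nat_lit 100, nat_lit 74, nat_lit 60)⟩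
noncomputable def p013_k64 : C1.Kn := ⟨[nat_lit 60, nat_lit 100, nat_lit 120], [nat_lit 0, nat_lit 238, nat_lit 1332], [(nat_lit 0, nat_lit 0, nat_lit 0), (nat_lit 1000, nat_lit 963, nat_lit 93), (nat_lit 1000, nat_lit 916, nat_lit 621)], (nat_lit 91, nat_lit 100, nat_lit 61)⟩
noncomputable def p013_k65 : C1.Kn := ⟨[nat_lit 120, nat_lit 160, nat_lit 180], [nat_lit 0, nat_lit 797, nat_lit 2300], [(nat_lit 0, nat_lit 0, nat_lit 0), (nat_lit 942, nat_lit 1000, nat_lit 293), (nat_lit 634, nat_lit 1000, nat_lit 743)], (nat_lit 100, nat_lit 77, nat_lit 60)⟩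
noncomputable def p013_k66 : C1.Kn := ⟨[nat_lit 60, nat_lit 100, nat_lit 120], [nat_lit 0, nat_lit 909, nat_lit 1866], [(nat_lit 0, nat_lit 0, nat_lit 0), (nat_lit 1000, nat_lit 858, nat_lit 354), (nat_lit 1000, nat_lit 849, nat_lit 705)], (nat_lit 84, nat_lit 100, nat_lit 60)⟩
noncomputable def p013_l0 : Lf2 := ⟨nat_lit 0, nat_lit 5, [nat_lit 4, nat_lit 5, nat_lit 5, nat_lit 20], false, nat_lit 0, nat_lit 0, nat_lit 0, nat_lit 0, ⟨nat_lit 1000, nat_lit 0, nat_lit 0, nat_lit 0, nat_lit 0, nat_lit 0, nat_lit 0, nat_lit 0, nat_lit 0, nat_lit 0, nat_lit 0, nat_lit 0, nat_lit 0, nat_lit 0, nat_lit 0, nat_lit 0, false, false⟩,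
 nat_lit 18411, nat_lit 0, nat_lit 0, nat_lit 0, nat_lit 10716, nat_lit 9747, nat_lit 0, nat_lit 0, nat_lit 0, nat_lit 3427, nat_lit 0, nat_lit 0, nat_lit 0, nat_lit 0, nat_lit 0, nat_lit 0, nat_lit 0, nat_lit 0, [],
 ⟨p013_k0, nat_lit 0, nat_lit 0, nat_lit 447, nat_lit 0, nat_lit 553134, [nat_lit 4688000000, nat_lit 6250000000, nat_lit 7968000000], [], [nat_lit 28379882805, nat_lit 28799602359, nat_lit 24687361600, nat_lit 26813786320], nat_lit 1271250, nat_lit 1271250, nat_lit 134400, nat_lit 230001, nat_lit 0, nat_lit 0, [nat_lit 1100000, nat_lit 1442500, nat_lit 1271250], [nat_lit 9, nat_lit 40, nat_lit 20, nat_lit 80, nat_lit 2, nat_lit 215, nat_lit 10, nat_lit 7]⟩, ⟨p013_k1, nat_lit 0, nat_lit 0, nat_lit 0, nat_lit 0, nat_lit 611620, [nat_lit 4688000000, nat_lit 5449500000, nat_lit 7089500000, nat_lit 8885500000], [], [nat_lit 18358551854, nat_lit 21912775378, nat_lit 17012134366, nat_lit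 19374734680], nat_lit 1271250, nat_lit 1271250, nat_lit 134400, nat_lit 230001, nat_lit 0, nat_lit 0, [nat_lit 1100000, nat_lit 1271250, nat_lit 1271250, nat_lit 1271250], [nat_lit 198, nat_lit 40, nat_lit 20, nat_lit 40]⟩,
 zbF0, [⟨nat_lit 0, nat_lit 100, nat_lit 97, nat_lit 49, nat_lit 2398909731⟩]⟩
noncomputable def p013_l1 : Lf2 := ⟨nat_lit 0, nat_lit 5, [nat_lit 4, nat_lit 5, nat_lit 5, nat_lit 20], false, nat_lit 0, nat_lit 0, nat_lit 0, nat_lit 0, ⟨nat_lit 810, nat_lit 0, nat_lit 190, nat_lit 6, nat_lit 91, nat_lit 0, nat_lit 0, nat_lit 0, nat_lit 0, nat_lit 215, nat_lit 77067, nat_lit 283, nat_lit 63707942, nat_lit 0, nat_lit 0, nat_lit 979795, false, false⟩,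
 nat_lit 13300, nat_lit 0, nat_lit 0, nat_lit 0, nat_lit 7741, nat_lit 7041, nat_lit 1651, nat_lit 0, nat_lit 0, nat_lit 635, nat_lit 0, nat_lit 108, nat_lit 0, nat_lit 0, nat_lit 0, nat_lit 190000, nat_lit 0, nat_lit 0, [(nat_lit 9, [(nat_lit 6, nat_lit 190)])],
 ⟨p013_k0, nat_lit 0, nat_lit 0, nat_lit 369, nat_lit 0, nat_lit 365237, [nat_lit 4005824001, nat_lit 4921900001, nat_lit 5931985999], [], [nat_lit 19392635797, nat_lit 20405140630, nat_lit 18646489944, nat_lit 19159929130], nat_lit 1271250, nat_lit 1271250, nat_lit 134400, nat_lit 230001, nat_lit 0, nat_lit 0, [nat_lit 1100000, nat_lit 1442500, nat_lit 1271250], [nat_lit 9, nat_lit 40, nat_lit 20, nat_lit 80, nat_lit 2, nat_lit 215, nat_lit 10, nat_lit 7]⟩, ⟨p013_k1, nat_lit 0, nat_lit 0, nat_lit 0, nat_lit 0, nat_lit 405780, [nat_lit 3797280000, nat_lit 4414095000, nat_lit 5742495000, nat_lit 7197255000], [], [nat_lit 16761485842,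 nat_lit 18536417195, nat_lit 15777824218, nat_lit 17273888175], nat_lit 1271250, nat_lit 1271250, nat_lit 134400, nat_lit 230001, nat_lit 0, nat_lit 0, [nat_lit 1100000, nat_lit 1271250, nat_lit 1271250, nat_lit 1271250], [nat_lit 198, nat_lit 40, nat_lit 20, nat_lit 40]⟩,
 ⟨nat_lit 5700, nat_lit 5917, ⟨.ofNat (nat_lit 197129), .ofNat (nat_lit 228543), .ofNat (nat_lit 218469), .ofNat (nat_lit 249882), .ofNat (nat_lit 205119), .ofNat (nat_lit 235806), .ofNat (nat_lit 226461), .ofNat (nat_lit 257148)⟩, ⟨.ofNat (nat_lit 0), .ofNat (nat_lit 0), .ofNat (nat_lit 0), .ofNat (nat_lit 0), .ofNat (nat_lit 0), .ofNat (nat_lit 0), .ofNat (nat_lit 0), .ofNat (nat_lit 0)⟩⟩, [⟨nat_lit 0, nat_lit 100, nat_lit 98, nat_lit 57, nat_lit 1191184500⟩]⟩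
noncomputable def p013_l2 : Lf2 := ⟨nat_lit 0, nat_lit 5, [nat_lit 4, nat_lit 5, nat_lit 5, nat_lit 20], false, nat_lit 0, nat_lit 0, nat_lit 0, nat_lit 0, ⟨nat_lit 1000, nat_lit 0, nat_lit 0, nat_lit 0, nat_lit 0, nat_lit 0, nat_lit 0, nat_lit 0, nat_lit 0, nat_lit 0, nat_lit 0, nat_lit 0, nat_lit 0, nat_lit 0, nat_lit 0, nat_lit 0, false, false⟩,
 nat_lit 15912, nat_lit 0, nat_lit 0, nat_lit 0, nat_lit 9690, nat_lit 8423, nat_lit 706, nat_lit 0, nat_lit 0, nat_lit 2273, nat_lit 0, nat_lit 94, nat_lit 0, nat_lit 0, nat_lit 0, nat_lit 0, nat_lit 0, nat_lit 0, [],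
 ⟨p013_k2, nat_lit 0, nat_lit 0, nat_lit 379, nat_lit 0, nat_lit 391559, [nat_lit 4688000000, nat_lit 6250000000, nat_lit 7968000000], [], [nat_lit 24698258026, nat_lit 25746158543, nat_lit 23401251930, nat_lit 24417177550], nat_lit 1271250, nat_lit 1271250, nat_lit 157850, nat_lit 230001, nat_lit 0, nat_lit 0, [nat_lit 1100000, nat_lit 1442500, nat_lit 1271250], [nat_lit 9, nat_lit 40, nat_lit 20, nat_lit 80, nat_lit 2, nat_lit 215, nat_lit 10, nat_lit 7]⟩, ⟨p013_k1, nat_lit 0, nat_lit 0, nat_lit 0, nat_lit 0, nat_lit 457266, [nat_lit 4688000000, nat_lit 5449500000, nat_lit 7089500000, nat_lit 8885500000], [], [nat_lit 17675526385, nat_lit 19812588339, nat_lit 16809351574, nat_lit 18685606345], nat_lit 1271250, nat_lit 1271250, nat_lit 157850, nat_lit 230001, nat_lit 0, nat_lit 0, [nat_lit 1100000, nat_lit 1271250, nat_lit 1271250, nat_lit 1271250], [nat_lit 198, nat_lit 40, nat_lit 20, nat_lit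 40]⟩,
 zbF0, [⟨nat_lit 0, nat_lit 100, nat_lit 96, nat_lit 54, nat_lit 1704972600⟩]⟩
noncomputable def p013_l3 : Lf2 := ⟨nat_lit 0, nat_lit 2, [nat_lit 10, nat_lit 5, nat_lit 5, nat_lit 20], false, nat_lit 0, nat_lit 0, nat_lit 0, nat_lit 0, ⟨nat_lit 0, nat_lit 0, nat_lit 1000, nat_lit 6, nat_lit 91, nat_lit 0, nat_lit 0, nat_lit 0, nat_lit 0, nat_lit 215, nat_lit 77067, nat_lit 283, nat_lit 63707942, nat_lit 0, nat_lit 0, nat_lit 979795, false, false⟩,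
 nat_lit 7259, nat_lit 0, nat_lit 0, nat_lit 0, nat_lit 4225, nat_lit 3842, nat_lit 537, nat_lit 0, nat_lit 0, nat_lit 0, nat_lit 0, nat_lit 0, nat_lit 0, nat_lit 0, nat_lit 37, nat_lit 1000000, nat_lit 0, nat_lit 3568303604, [(nat_lit 9, [(nat_lit 6, nat_lit 1000)])],
 ⟨p013_k3, nat_lit 0, nat_lit 0, nat_lit 0, nat_lit 0, nat_lit 484700, [nat_lit 1478400001, nat_lit 1222400001, nat_lit 0], [], [nat_lit 13841423708, nat_lit 14647038061, nat_lit 14185190928, nat_lit 13672065700], nat_lit 1271250, nat_lit 1271250, nat_lit 134400, nat_lit 230001, nat_lit 0, nat_lit 0, [nat_lit 936250, nat_lit 1100000, nat_lit 1442500], [nat_lit 187, nat_lit 40, nat_lit 20, nat_lit 40]⟩, ⟨p013_k4, nat_lit 0, nat_lit 0, nat_lit 0, nat_lit 0, nat_lit 534201, [nat_lit 0, nat_lit 0, nat_lit 0], [], [nat_lit 2953306980, nat_lit 970353962, nat_lit 1358415940, nat_lit 0], nat_lit 1271250, nat_lit 1271250, nat_lit 134400,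 nat_lit 230001, nat_lit 0, nat_lit 0, [nat_lit 1100000, nat_lit 1271250, nat_lit 1271250], [nat_lit 105, nat_lit 40, nat_lit 20, nat_lit 40]⟩,
 ⟨nat_lit 5700, nat_lit 5917, ⟨.ofNat (nat_lit 197129), .ofNat (nat_lit 228543), .ofNat (nat_lit 218469), .ofNat (nat_lit 249882), .ofNat (nat_lit 205119), .ofNat (nat_lit 235806), .ofNat (nat_lit 226461), .ofNat (nat_lit 257148)⟩, ⟨.ofNat (nat_lit 0), .ofNat (nat_lit 0), .ofNat (nat_lit 0), .ofNat (nat_lit 0), .ofNat (nat_lit 0), .ofNat (nat_lit 0), .ofNat (nat_lit 0), .ofNat (nat_lit 0)⟩⟩, [⟨nat_lit 0, nat_lit 100, nat_lit 97, nat_lit 49, nat_lit 517501571⟩]⟩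
noncomputable def p013_l4 : Lf2 := ⟨nat_lit 0, nat_lit 2, [nat_lit 10, nat_lit 5, nat_lit 5, nat_lit 20], false, nat_lit 0, nat_lit 0, nat_lit 0, nat_lit 0, ⟨nat_lit 262, nat_lit 0, nat_lit 738, nat_lit 6, nat_lit 95, nat_lit 0, nat_lit 0, nat_lit 0, nat_lit 0, nat_lit 215, nat_lit 86400, nat_lit 287, nat_lit 63388447, nat_lit 0, nat_lit 0, nat_lit 1049257, false, false⟩,
 nat_lit 8579, nat_lit 0, nat_lit 0, nat_lit 0, nat_lit 5224, nat_lit 4541, nat_lit 1593, nat_lit 0, nat_lit 0, nat_lit 0, nat_lit 0, nat_lit 0, nat_lit 0, nat_lit 0, nat_lit 0, nat_lit 738000, nat_lit 0, nat_lit 0, [(nat_lit 9, [(nat_lit 6, nat_lit 738)])],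
 ⟨p013_k5, nat_lit 0, nat_lit 0, nat_lit 0, nat_lit 0, nat_lit 501458, [nat_lit 2038284800, nat_lit 1091380000], [], [nat_lit 16175302325, nat_lit 17131495252, nat_lit 16453144885, nat_lit 16481664640], nat_lit 1271250, nat_lit 1271250, nat_lit 157850, nat_lit 230001, nat_lit 0, nat_lit 0, [nat_lit 1100000, nat_lit 1442500], [nat_lit 31, nat_lit 40, nat_lit 20, nat_lit 80]⟩, ⟨p013_k6, nat_lit 0, nat_lit 0, nat_lit 0, nat_lit 0, nat_lit 578855, [nat_lit 1228256000, nat_lit 1637500000, nat_lit 2087616000], [], [nat_lit 8135863212, nat_lit 7369376276, nat_lit 6722068272, nat_lit 6713631366], nat_lit 1271250, nat_lit 1271250, nat_lit 157850, nat_lit 230001, nat_lit 0, nat_lit 0, [nat_lit 1100000, nat_lit 1442500, nat_lit 1271250], [nat_lit 9, nat_lit 40, nat_lit 20, nat_lit 80]⟩,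
 ⟨nat_lit 5477, nat_lit 5701, ⟨.ofNat (nat_lit 212791), .ofNat (nat_lit 235806), .ofNat (nat_lit 234133), .ofNat (nat_lit 257148), .ofNat (nat_lit 220501), .ofNat (nat_lit 242980), .ofNat (nat_lit 241858), .ofNat (nat_lit 264337)⟩, ⟨.ofNat (nat_lit 0), .ofNat (nat_lit 0), .ofNat (nat_lit 0), .ofNat (nat_lit 0), .ofNat (nat_lit 0), .ofNat (nat_lit 0), .ofNat (nat_lit 0), .ofNat (nat_lit 0)⟩⟩, [⟨nat_lit 0, nat_lit 100, nat_lit 96, nat_lit 54, nat_lit 776432387⟩]⟩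
noncomputable def p013_l5 : Lf2 := ⟨nat_lit 0, nat_lit 5, [nat_lit 4, nat_lit 5, nat_lit 5, nat_lit 20], true, nat_lit 0, nat_lit 0, nat_lit 0, nat_lit 0, ⟨nat_lit 0, nat_lit 0, nat_lit 1000, nat_lit 6, nat_lit 92, nat_lit 0, nat_lit 0, nat_lit 0, nat_lit 0, nat_lit 215, nat_lit 79350, nat_lit 284, nat_lit 63603445, nat_lit 0, nat_lit 0, nat_lit 1002771, false, false⟩,
 nat_lit 0, nat_lit 0, nat_lit 0, nat_lit 0, nat_lit 0, nat_lit 0, nat_lit 0, nat_lit 0, nat_lit 316, nat_lit 0, nat_lit 0, nat_lit 0, nat_lit 0, nat_lit 0, nat_lit 55, nat_lit 400000, nat_lit 0, nat_lit 0, [(nat_lit 9, [(nat_lit 5, nat_lit 1000)])],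
 ⟨p013_k7, nat_lit 0, nat_lit 0, nat_lit 0, nat_lit 0, nat_lit 475750, [nat_lit 2406400000, nat_lit 19600000], [], [nat_lit 7273358400, nat_lit 8182274400, nat_lit 7547182000, nat_lit 8403116000], nat_lit 1271250, nat_lit 1271250, nat_lit 134400, nat_lit 230001, nat_lit 0, nat_lit 0, [nat_lit 1100000, nat_lit 1785000], [nat_lit 39, nat_lit 40, nat_lit 20, nat_lit 80]⟩, C1.Rw.none,
 ⟨nat_lit 5477, nat_lit 5917, ⟨.ofNat (nat_lit 197129), .ofNat (nat_lit 228543), .ofNat (nat_lit 218469), .ofNat (nat_lit 249882), .ofNat (nat_lit 213007), .ofNat (nat_lit 242980), .ofNat (nat_lit 234364), .ofNat (nat_lit 264337)⟩, ⟨.ofNat (nat_lit 0), .ofNat (nat_lit 0), .ofNat (nat_lit 0), .ofNat (nat_lit 0), .ofNat (nat_lit 0), .ofNat (nat_lit 0), .ofNat (nat_lit 0), .ofNat (nat_lit 0)⟩⟩, [⟨nat_lit 0, nat_lit 100, nat_lit 97, nat_lit 59, nat_lit 25452489⟩]⟩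
noncomputable def p013_l6 : Lf2 := ⟨nat_lit 0, nat_lit 5, [nat_lit 4, nat_lit 5, nat_lit 5, nat_lit 20], false, nat_lit 0, nat_lit 0, nat_lit 0, nat_lit 0, ⟨nat_lit 335, nat_lit 0, nat_lit 665, nat_lit 6, nat_lit 92, nat_lit 0, nat_lit 0, nat_lit 0, nat_lit 0, nat_lit 215, nat_lit 79350, nat_lit 284, nat_lit 63603445, nat_lit 0, nat_lit 0, nat_lit 1002771, false, false⟩,
 nat_lit 6292, nat_lit 3198, nat_lit 0, nat_lit 0, nat_lit 5523, nat_lit 3330, nat_lit 917, nat_lit 0, nat_lit 0, nat_lit 0, nat_lit 0, nat_lit 0, nat_lit 0, nat_lit 0, nat_lit 0, nat_lit 665000, nat_lit 0, nat_lit 0, [(nat_lit 9, [(nat_lit 6, nat_lit 665)])],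
 ⟨p013_k0, nat_lit 0, nat_lit 0, nat_lit 0, nat_lit 0, nat_lit 475750, [nat_lit 2300384000, nat_lit 1601650000, nat_lit 939451000], [], [nat_lit 14626921244, nat_lit 16374260976, nat_lit 14118281295, nat_lit 15508581808], nat_lit 1271250, nat_lit 1271250, nat_lit 134400, nat_lit 230001, nat_lit 0, nat_lit 0, [nat_lit 1100000, nat_lit 1442500, nat_lit 1271250], [nat_lit 9, nat_lit 40, nat_lit 20, nat_lit 80]⟩, ⟨p013_k8, nat_lit 0, nat_lit 0, nat_lit 0, nat_lit 0, nat_lit 526054, [nat_lit 1570480000, nat_lit 2093750000, nat_lit 3297070000], [], [nat_lit 11401674260, nat_lit 10862529782, nat_lit 10019324660, nat_lit 10248449590], nat_lit 1271250, nat_lit 1271250, nat_lit 134400, nat_lit 230001, nat_lit 0, nat_lit 0, [nat_lit 1100000, nat_lit 1442500, nat_lit 1271250], [nat_lit 11, nat_lit 40, nat_lit 20, nat_lit 80]⟩,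
 ⟨nat_lit 5477, nat_lit 5917, ⟨.ofNat (nat_lit 197129), .ofNat (nat_lit 228543), .ofNat (nat_lit 218469), .ofNat (nat_lit 249882), .ofNat (nat_lit 213007), .ofNat (nat_lit 242980), .ofNat (nat_lit 234364), .ofNat (nat_lit 264337)⟩, ⟨.ofNat (nat_lit 0), .ofNat (nat_lit 0), .ofNat (nat_lit 0), .ofNat (nat_lit 0), .ofNat (nat_lit 0), .ofNat (nat_lit 0), .ofNat (nat_lit 0), .ofNat (nat_lit 0)⟩⟩, [⟨nat_lit 0, nat_lit 100, nat_lit 97, nat_lit 49, nat_lit 865145676⟩]⟩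
noncomputable def p013_l7 : Lf2 := ⟨nat_lit 0, nat_lit 5, [nat_lit 4, nat_lit 5, nat_lit 5, nat_lit 20], true, nat_lit 0, nat_lit 0, nat_lit 0, nat_lit 0, ⟨nat_lit 0, nat_lit 0, nat_lit 1000, nat_lit 6, nat_lit 88, nat_lit 0, nat_lit 0, nat_lit 0, nat_lit 0, nat_lit 215, nat_lit 72600, nat_lit 281, nat_lit 63904656, nat_lit 0, nat_lit 0, nat_lit 935829, false, false⟩,
 nat_lit 0, nat_lit 18919, nat_lit 0, nat_lit 0, nat_lit 11012, nat_lit 0, nat_lit 1786, nat_lit 346, nat_lit 0, nat_lit 0, nat_lit 0, nat_lit 0, nat_lit 0, nat_lit 0, nat_lit 0, nat_lit 1000000, nat_lit 0, nat_lit 0, [(nat_lit 9, [(nat_lit 6, nat_lit 1000)])],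
 ⟨p013_k0, nat_lit 0, nat_lit 0, nat_lit 0, nat_lit 0, nat_lit 375216, [nat_lit 6633600001, nat_lit 6180000001, nat_lit 5722399999], [], [nat_lit 17481463381, nat_lit 18009898485, nat_lit 16198075233, nat_lit 16719708709], nat_lit 1271250, nat_lit 1271250, nat_lit 134400, nat_lit 230001, nat_lit 0, nat_lit 0, [nat_lit 1100000, nat_lit 1442500, nat_lit 1271250], [nat_lit 9, nat_lit 40, nat_lit 20, nat_lit 80]⟩, C1.Rw.none,
 ⟨nat_lit 5809, nat_lit 5917, ⟨.ofNat (nat_lit 197129), .ofNat (nat_lit 228543), .ofNat (nat_lit 207799), .ofNat (nat_lit 239212), .ofNat (nat_lit 201138), .ofNat (nat_lit 232187), .ofNat (nat_lit 211807), .ofNat (nat_lit 242856)⟩, ⟨.ofNat (nat_lit 0), .ofNat (nat_lit 0), .ofNat (nat_lit 0), .ofNat (nat_lit 0), .ofNat (nat_lit 0), .ofNat (nat_lit 0), .ofNat (nat_lit 0), .ofNat (nat_lit 0)⟩⟩, [⟨nat_lit 0, nat_lit 100, nat_lit 98, nat_lit 57, nat_lit 519902669⟩]⟩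
noncomputable def p013_l8 : Lf2 := ⟨nat_lit 0, nat_lit 5, [nat_lit 4, nat_lit 5, nat_lit 5, nat_lit 20], false, nat_lit 0, nat_lit 0, nat_lit 0, nat_lit 0, ⟨nat_lit 155, nat_lit 0, nat_lit 845, nat_lit 6, nat_lit 90, nat_lit 0, nat_lit 0, nat_lit 0, nat_lit 0, nat_lit 215, nat_lit 74817, nat_lit 282, nat_lit 63801619, nat_lit 0, nat_lit 0, nat_lit 958977, false, false⟩,
 nat_lit 5801, nat_lit 3607, nat_lit 0, nat_lit 0, nat_lit 5602, nat_lit 3071, nat_lit 328, nat_lit 5, nat_lit 0, nat_lit 436, nat_lit 0, nat_lit 0, nat_lit 0, nat_lit 0, nat_lit 42, nat_lit 845000, nat_lit 0, nat_lit 0, [(nat_lit 9, [(nat_lit 6, nat_lit 845)])],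
 ⟨p013_k9, nat_lit 0, nat_lit 0, nat_lit 0, nat_lit 0, nat_lit 387182, [nat_lit 2582548000, nat_lit 111812667], [], [nat_lit 13739822517, nat_lit 14117672883, nat_lit 13086463158, nat_lit 13446911712], nat_lit 1271250, nat_lit 1271250, nat_lit 134400, nat_lit 230001, nat_lit 0, nat_lit 0, [nat_lit 1100000, nat_lit 1785000], [nat_lit 39, nat_lit 40, nat_lit 20, nat_lit 80]⟩, ⟨p013_k10, nat_lit 0, nat_lit 0, nat_lit 0, nat_lit 0, nat_lit 438549, [nat_lit 726640000, nat_lit 1235040000, nat_lit 1525510000], [], [nat_lit 4119684328, nat_lit 4325281955, nat_lit 4133361196, nat_lit 3723314866], nat_lit 1271250, nat_lit 1271250, nat_lit 134400, nat_lit 230001, nat_lit 0, nat_lit 0, [nat_lit 1100000, nat_lit 1785000, nat_lit 1271250], [nat_lit 29, nat_lit 40, nat_lit 20, nat_lit 80]⟩,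
 ⟨nat_lit 5700, nat_lit 5810, ⟨.ofNat (nat_lit 201138), .ofNat (nat_lit 232187), .ofNat (nat_lit 211807), .ofNat (nat_lit 242856), .ofNat (nat_lit 205119), .ofNat (nat_lit 235806), .ofNat (nat_lit 215790), .ofNat (nat_lit 246477)⟩, ⟨.ofNat (nat_lit 0), .ofNat (nat_lit 0), .ofNat (nat_lit 0), .ofNat (nat_lit 0), .ofNat (nat_lit 0), .ofNat (nat_lit 0), .ofNat (nat_lit 0), .ofNat (nat_lit 0)⟩⟩, [⟨nat_lit 0, nat_lit 100, nat_lit 97, nat_lit 55, nat_lit 615999715⟩]⟩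
noncomputable def p013_l9 : Lf2 := ⟨nat_lit 0, nat_lit 4, [nat_lit 38, nat_lit 5, nat_lit 5, nat_lit 20], false, nat_lit 0, nat_lit 0, nat_lit 0, nat_lit 0, ⟨nat_lit 1000, nat_lit 0, nat_lit 0, nat_lit 0, nat_lit 0, nat_lit 0, nat_lit 0, nat_lit 0, nat_lit 0, nat_lit 0, nat_lit 0, nat_lit 0, nat_lit 0, nat_lit 0, nat_lit 0, nat_lit 0, false, false⟩,
 nat_lit 45756, nat_lit 0, nat_lit 0, nat_lit 0, nat_lit 27866, nat_lit 24223, nat_lit 8188, nat_lit 571, nat_lit 0, nat_lit 0, nat_lit 0, nat_lit 0, nat_lit 0, nat_lit 0, nat_lit 0, nat_lit 0, nat_lit 0, nat_lit 0, [],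
 ⟨p013_k11, nat_lit 0, nat_lit 0, nat_lit 0, nat_lit 0, nat_lit 411760, [nat_lit 13824000000, nat_lit 21672000000], [], [nat_lit 16472627005, nat_lit 19487154666, nat_lit 15602005264, nat_lit 16157397296], nat_lit 1271250, nat_lit 1271250, nat_lit 157850, nat_lit 230001, nat_lit 0, nat_lit 0, [nat_lit 1100000, nat_lit 1785000], [nat_lit 39, nat_lit 40, nat_lit 20, nat_lit 80]⟩, ⟨p013_k12, nat_lit 0, nat_lit 0, nat_lit 0, nat_lit 0, nat_lit 476836, [nat_lit 4688000000, nat_lit 7968000000], [], [nat_lit 25604772673, nat_lit 28181614132, nat_lit 22944707108, nat_lit 24622045823], nat_lit 1271250, nat_lit 1271250, nat_lit 157850, nat_lit 230001, nat_lit 0, nat_lit 0, [nat_lit 1100000, nat_lit 1785000], [nat_lit 39, nat_lit 40, nat_lit 20, nat_lit 80]⟩,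
 zbF0, [⟨nat_lit 0, nat_lit 100, nat_lit 95, nat_lit 59, nat_lit 3698692315⟩]⟩
noncomputable def p013_l10 : Lf2 := ⟨nat_lit 0, nat_lit 5, [nat_lit 4, nat_lit 5, nat_lit 5, nat_lit 20], true, nat_lit 0, nat_lit 0, nat_lit 0, nat_lit 0, ⟨nat_lit 0, nat_lit 0, nat_lit 1000, nat_lit 6, nat_lit 93, nat_lit 0, nat_lit 0, nat_lit 0, nat_lit 0, nat_lit 215, nat_lit 81667, nat_lit 285, nat_lit 63539907, nat_lit 0, nat_lit 0, nat_lit 1016618, false, false⟩,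
 nat_lit 0, nat_lit 9678, nat_lit 0, nat_lit 0, nat_lit 5894, nat_lit 0, nat_lit 0, nat_lit 57, nat_lit 0, nat_lit 0, nat_lit 0, nat_lit 0, nat_lit 0, nat_lit 0, nat_lit 60, nat_lit 1000000, nat_lit 0, nat_lit 0, [(nat_lit 9, [(nat_lit 6, nat_lit 1000)])],
 ⟨p013_k13, nat_lit 0, nat_lit 0, nat_lit 0, nat_lit 0, nat_lit 358233, [nat_lit 3178400000, nat_lit 158133334], [], [nat_lit 14360434943, nat_lit 15135719066, nat_lit 13814660948, nat_lit 14581954624], nat_lit 1271250, nat_lit 1271250, nat_lit 157850, nat_lit 230001, nat_lit 0, nat_lit 0, [nat_lit 1100000, nat_lit 1785000], [nat_lit 39, nat_lit 40, nat_lit 20, nat_lit 80]⟩, C1.Rw.none,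
 ⟨nat_lit 5477, nat_lit 5701, ⟨.ofNat (nat_lit 212791), .ofNat (nat_lit 235806), .ofNat (nat_lit 223462), .ofNat (nat_lit 246477), .ofNat (nat_lit 220501), .ofNat (nat_lit 242980), .ofNat (nat_lit 231179), .ofNat (nat_lit 253659)⟩, ⟨.ofNat (nat_lit 0), .ofNat (nat_lit 0), .ofNat (nat_lit 0), .ofNat (nat_lit 0), .ofNat (nat_lit 0), .ofNat (nat_lit 0), .ofNat (nat_lit 0), .ofNat (nat_lit 0)⟩⟩, [⟨nat_lit 0, nat_lit 100, nat_lit 95, nat_lit 64, nat_lit 623375967⟩]⟩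
noncomputable def p013_l11 : Lf2 := ⟨nat_lit 0, nat_lit 5, [nat_lit 4, nat_lit 5, nat_lit 5, nat_lit 20], false, nat_lit 0, nat_lit 0, nat_lit 0, nat_lit 0, ⟨nat_lit 1000, nat_lit 0, nat_lit 0, nat_lit 0, nat_lit 0, nat_lit 0, nat_lit 0, nat_lit 0, nat_lit 0, nat_lit 0, nat_lit 0, nat_lit 0, nat_lit 0, nat_lit 0, nat_lit 0, nat_lit 0, false, false⟩,
 nat_lit 36736, nat_lit 0, nat_lit 0, nat_lit 0, nat_lit 21383, nat_lit 20408, nat_lit 6528, nat_lit 0, nat_lit 0, nat_lit 0, nat_lit 74, nat_lit 0, nat_lit 0, nat_lit 0, nat_lit 0, nat_lit 0, nat_lit 0, nat_lit 0, [],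
 ⟨p013_k7, nat_lit 0, nat_lit 0, nat_lit 0, nat_lit 0, nat_lit 475750, [nat_lit 4688000000, nat_lit 7968000000], [], [nat_lit 3373580594, nat_lit 7195852319, nat_lit 1198201684, nat_lit 4670399468], nat_lit 1271250, nat_lit 1271250, nat_lit 157850, nat_lit 230001, nat_lit 0, nat_lit 0, [nat_lit 1100000, nat_lit 1785000], [nat_lit 39, nat_lit 40, nat_lit 20, nat_lit 80]⟩, ⟨p013_k14, nat_lit 0, nat_lit 0, nat_lit 0, nat_lit 0, nat_lit 499826, [nat_lit 5872000000, nat_lit 9744000000], [], [nat_lit 28847241596, nat_lit 31077830602, nat_lit 25888153080, nat_lit 28097167392], nat_lit 1271250, nat_lit 1271250, nat_lit 157850, nat_lit 230001, nat_lit 0, nat_lit 0, [nat_lit 1100000, nat_lit 1785000], [nat_lit 39, nat_lit 40, nat_lit 20, nat_lit 80]⟩,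
 zbF0, [⟨nat_lit 0, nat_lit 100, nat_lit 97, nat_lit 62, nat_lit 3449270865⟩]⟩
noncomputable def p013_l12 : Lf2 := ⟨nat_lit 0, nat_lit 5, [nat_lit 4, nat_lit 5, nat_lit 5, nat_lit 20], false, nat_lit 0, nat_lit 0, nat_lit 0, nat_lit 0, ⟨nat_lit 146, nat_lit 0, nat_lit 854, nat_lit 6, nat_lit 89, nat_lit 0, nat_lit 0, nat_lit 0, nat_lit 0, nat_lit 215, nat_lit 74817, nat_lit 282, nat_lit 63853488, nat_lit 0, nat_lit 0, nat_lit 947357, false, false⟩,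
 nat_lit 4006, nat_lit 3970, nat_lit 0, nat_lit 0, nat_lit 4642, nat_lit 2120, nat_lit 53, nat_lit 0, nat_lit 0, nat_lit 225, nat_lit 0, nat_lit 0, nat_lit 0, nat_lit 0, nat_lit 51, nat_lit 854000, nat_lit 0, nat_lit 0, [(nat_lit 9, [(nat_lit 6, nat_lit 854)])],
 ⟨p013_k0, nat_lit 0, nat_lit 0, nat_lit 0, nat_lit 0, nat_lit 325827, [nat_lit 2437798401, nat_lit 1300540000, nat_lit 176947600], [], [nat_lit 14683762005, nat_lit 15329952956, nat_lit 14281909422, nat_lit 14853865004], nat_lit 1271250, nat_lit 1271250, nat_lit 134400, nat_lit 230001, nat_lit 0, nat_lit 0, [nat_lit 1100000, nat_lit 1442500, nat_lit 1271250], [nat_lit 9, nat_lit 40, nat_lit 20, nat_lit 80]⟩, ⟨p013_k8, nat_lit 0, nat_lit 0, nat_lit 0, nat_lit 0, nat_lit 361995, [nat_lit 684448000, nat_lit 912500000, nat_lit 1436932000], [], [nat_lit 4862045112, nat_lit 4315153827, nat_lit 3981990712, nat_lit 3908159444], nat_lit 1271250,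 nat_lit 1271250, nat_lit 134400, nat_lit 230001, nat_lit 0, nat_lit 0, [nat_lit 1100000, nat_lit 1442500, nat_lit 1271250], [nat_lit 11, nat_lit 40, nat_lit 20, nat_lit 80]⟩,
 ⟨nat_lit 5700, nat_lit 5917, ⟨.ofNat (nat_lit 197129), .ofNat (nat_lit 228543), .ofNat (nat_lit 207799), .ofNat (nat_lit 239212), .ofNat (nat_lit 205119), .ofNat (nat_lit 235806), .ofNat (nat_lit 215790), .ofNat (nat_lit 246477)⟩, ⟨.ofNat (nat_lit 0), .ofNat (nat_lit 0), .ofNat (nat_lit 0), .ofNat (nat_lit 0), .ofNat (nat_lit 0), .ofNat (nat_lit 0), .ofNat (nat_lit 0), .ofNat (nat_lit 0)⟩⟩, [⟨nat_lit 0, nat_lit 100, nat_lit 97, nat_lit 54, nat_lit 468506934⟩]⟩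
noncomputable def p013_l13 : Lf2 := ⟨nat_lit 0, nat_lit 5, [nat_lit 4, nat_lit 5, nat_lit 5, nat_lit 20], false, nat_lit 0, nat_lit 0, nat_lit 0, nat_lit 0, ⟨nat_lit 351, nat_lit 0, nat_lit 649, nat_lit 6, nat_lit 95, nat_lit 0, nat_lit 0, nat_lit 0, nat_lit 0, nat_lit 215, nat_lit 84017, nat_lit 286, nat_lit 63450017, nat_lit 0, nat_lit 0, nat_lit 1036050, false, false⟩,
 nat_lit 9454, nat_lit 0, nat_lit 0, nat_lit 0, nat_lit 5503, nat_lit 5252, nat_lit 719, nat_lit 0, nat_lit 0, nat_lit 89, nat_lit 0, nat_lit 0, nat_lit 0, nat_lit 0, nat_lit 0, nat_lit 649000, nat_lit 0, nat_lit 0, [(nat_lit 9, [(nat_lit 6, nat_lit 649)])],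
 ⟨p013_k0, nat_lit 0, nat_lit 0, nat_lit 0, nat_lit 0, nat_lit 365237, [nat_lit 2357830401, nat_lit 1713490000, nat_lit 1107620600], [], [nat_lit 15204822797, nat_lit 16405661792, nat_lit 14801662508, nat_lit 15420982545], nat_lit 1271250, nat_lit 1271250, nat_lit 157850, nat_lit 230001, nat_lit 0, nat_lit 0, [nat_lit 1100000, nat_lit 1442500, nat_lit 1271250], [nat_lit 9, nat_lit 40, nat_lit 20, nat_lit 80]⟩, ⟨p013_k15, nat_lit 0, nat_lit 0, nat_lit 0, nat_lit 0, nat_lit 384599, [nat_lit 1645488000, nat_lit 2193750000, nat_lit 2796768000], [], [nat_lit 9728935850, nat_lit 9377214277, nat_lit 8233077289, nat_lit 8634980882], nat_lit 1271250, nat_lit 1271250, nat_lit 157850, nat_lit 230001, nat_lit 0, nat_lit 0, [nat_lit 1100000, nat_lit 1442500, nat_lit 1271250], [nat_lit 9, nat_lit 40, nat_lit 20, nat_lit 80]⟩,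
 ⟨nat_lit 5700, nat_lit 5917, ⟨.ofNat (nat_lit 215652), .ofNat (nat_lit 239212), .ofNat (nat_lit 226322), .ofNat (nat_lit 249882), .ofNat (nat_lit 223462), .ofNat (nat_lit 246477), .ofNat (nat_lit 234133), .ofNat (nat_lit 257148)⟩, ⟨.ofNat (nat_lit 0), .ofNat (nat_lit 0), .ofNat (nat_lit 0), .ofNat (nat_lit 0), .ofNat (nat_lit 0), .ofNat (nat_lit 0), .ofNat (nat_lit 0), .ofNat (nat_lit 0)⟩⟩, [⟨nat_lit 0, nat_lit 100, nat_lit 99, nat_lit 55, nat_lit 1067364348⟩]⟩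
noncomputable def p013_l14 : Lf2 := ⟨nat_lit 0, nat_lit 5, [nat_lit 4, nat_lit 5, nat_lit 5, nat_lit 20], false, nat_lit 0, nat_lit 0, nat_lit 0, nat_lit 0, ⟨nat_lit 336, nat_lit 0, nat_lit 664, nat_lit 6, nat_lit 95, nat_lit 0, nat_lit 0, nat_lit 0, nat_lit 0, nat_lit 215, nat_lit 84017, nat_lit 286, nat_lit 63441467, nat_lit 0, nat_lit 0, nat_lit 1037889, false, false⟩,
 nat_lit 8626, nat_lit 0, nat_lit 0, nat_lit 0, nat_lit 5253, nat_lit 4566, nat_lit 740, nat_lit 0, nat_lit 0, nat_lit 0, nat_lit 0, nat_lit 0, nat_lit 0, nat_lit 0, nat_lit 0, nat_lit 664000, nat_lit 0, nat_lit 0, [(nat_lit 9, [(nat_lit 6, nat_lit 664)])],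
 ⟨p013_k13, nat_lit 0, nat_lit 0, nat_lit 0, nat_lit 0, nat_lit 358088, [nat_lit 2442617600, nat_lit 891528534], [], [nat_lit 16061052482, nat_lit 16597415539, nat_lit 15709167468, nat_lit 16069910078], nat_lit 1271250, nat_lit 1271250, nat_lit 157850, nat_lit 230001, nat_lit 0, nat_lit 0, [nat_lit 1100000, nat_lit 1785000], [nat_lit 39, nat_lit 40, nat_lit 20, nat_lit 80]⟩, ⟨p013_k10, nat_lit 0, nat_lit 0, nat_lit 0, nat_lit 0, nat_lit 417085, [nat_lit 1575168000, nat_lit 2677248000, nat_lit 3306912000], [], [nat_lit 10772825674, nat_lit 11617307559, nat_lit 10724987112, nat_lit 10961715144], nat_lit 1271250, nat_lit 1271250, nat_lit 157850, nat_lit 230001, nat_lit 0, nat_lit 0, [nat_lit 1100000, nat_lit 1785000, nat_lit 1271250], [nat_lit 29, nat_lit 40, nat_lit 20, nat_lit 80]⟩,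
 ⟨nat_lit 5590, nat_lit 5701, ⟨.ofNat (nat_lit 212791), .ofNat (nat_lit 235806), .ofNat (nat_lit 234133), .ofNat (nat_lit 257148), .ofNat (nat_lit 216657), .ofNat (nat_lit 239403), .ofNat (nat_lit 238004), .ofNat (nat_lit 260751)⟩, ⟨.ofNat (nat_lit 0), .ofNat (nat_lit 0), .ofNat (nat_lit 0), .ofNat (nat_lit 0), .ofNat (nat_lit 0), .ofNat (nat_lit 0), .ofNat (nat_lit 0), .ofNat (nat_lit 0)⟩⟩, [⟨nat_lit 0, nat_lit 100, nat_lit 96, nat_lit 60, nat_lit 768604645⟩]⟩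
noncomputable def p013_l15 : Lf2 := ⟨nat_lit 0, nat_lit 5, [nat_lit 4, nat_lit 5, nat_lit 5, nat_lit 20], false, nat_lit 0, nat_lit 0, nat_lit 0, nat_lit 0, ⟨nat_lit 325, nat_lit 0, nat_lit 675, nat_lit 6, nat_lit 98, nat_lit 0, nat_lit 0, nat_lit 0, nat_lit 0, nat_lit 215, nat_lit 88817, nat_lit 288, nat_lit 63225604, nat_lit 0, nat_lit 0, nat_lit 1083791, false, false⟩,
 nat_lit 9347, nat_lit 0, nat_lit 0, nat_lit 0, nat_lit 5819, nat_lit 4948, nat_lit 297, nat_lit 0, nat_lit 0, nat_lit 0, nat_lit 0, nat_lit 0, nat_lit 0, nat_lit 0, nat_lit 0, nat_lit 675000, nat_lit 0, nat_lit 0, [(nat_lit 9, [(nat_lit 6, nat_lit 675)])],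
 ⟨p013_k16, nat_lit 0, nat_lit 0, nat_lit 0, nat_lit 0, nat_lit 370736, [nat_lit 2405420000, nat_lit 775590000], [], [nat_lit 17165582193, nat_lit 17787133877, nat_lit 16451476982, nat_lit 17072401856], nat_lit 1271250, nat_lit 1271250, nat_lit 181601, nat_lit 230001, nat_lit 0, nat_lit 0, [nat_lit 1100000, nat_lit 1785000], [nat_lit 39, nat_lit 40, nat_lit 20, nat_lit 80]⟩, ⟨p013_k10, nat_lit 0, nat_lit 0, nat_lit 0, nat_lit 0, nat_lit 442273, [nat_lit 1523600000, nat_lit 2589600000, nat_lit 3198650000], [], [nat_lit 10395332738, nat_lit 11377836990, nat_lit 9925298408, nat_lit 10899456898], nat_lit 1271250, nat_lit 1271250, nat_lit 181601, nat_lit 230001, nat_lit 0, nat_lit 0, [nat_lit 1100000, nat_lit 1785000, nat_lit 1271250], [nat_lit 29, nat_lit 40, nat_lit 20, nat_lit 80]⟩,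
 ⟨nat_lit 5477, nat_lit 5591, ⟨.ofNat (nat_lit 224239), .ofNat (nat_lit 239403), .ofNat (nat_lit 245587), .ofNat (nat_lit 260751), .ofNat (nat_lit 227994), .ofNat (nat_lit 242980), .ofNat (nat_lit 249351), .ofNat (nat_lit 264337)⟩, ⟨.ofNat (nat_lit 0), .ofNat (nat_lit 0), .ofNat (nat_lit 0), .ofNat (nat_lit 0), .ofNat (nat_lit 0), .ofNat (nat_lit 0), .ofNat (nat_lit 0), .ofNat (nat_lit 0)⟩⟩, [⟨nat_lit 0, nat_lit 100, nat_lit 95, nat_lit 63, nat_lit 1093656633⟩]⟩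
noncomputable def p013_l16 : Lf2 := ⟨nat_lit 0, nat_lit 5, [nat_lit 4, nat_lit 5, nat_lit 5, nat_lit 20], true, nat_lit 0, nat_lit 0, nat_lit 0, nat_lit 0, ⟨nat_lit 0, nat_lit 0, nat_lit 1000, nat_lit 6, nat_lit 95, nat_lit 0, nat_lit 0, nat_lit 0, nat_lit 0, nat_lit 215, nat_lit 86400, nat_lit 287, nat_lit 63388447, nat_lit 0, nat_lit 0, nat_lit 1049257, false, false⟩,
 nat_lit 0, nat_lit 7784, nat_lit 0, nat_lit 0, nat_lit 4740, nat_lit 0, nat_lit 0, nat_lit 0, nat_lit 0, nat_lit 0, nat_lit 0, nat_lit 0, nat_lit 0, nat_lit 0, nat_lit 55, nat_lit 400000, nat_lit 0, nat_lit 0, [(nat_lit 9, [(nat_lit 5, nat_lit 1000)])],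
 ⟨p013_k13, nat_lit 0, nat_lit 0, nat_lit 0, nat_lit 0, nat_lit 283266, [nat_lit 2406400000, nat_lit 19600000], [], [nat_lit 15210195528, nat_lit 16307471313, nat_lit 14370602940, nat_lit 15464881760], nat_lit 1271250, nat_lit 1271250, nat_lit 157850, nat_lit 230001, nat_lit 0, nat_lit 0, [nat_lit 1100000, nat_lit 1785000], [nat_lit 39, nat_lit 40, nat_lit 20, nat_lit 80]⟩, C1.Rw.none,
 ⟨nat_lit 5477, nat_lit 5701, ⟨.ofNat (nat_lit 212791), .ofNat (nat_lit 235806), .ofNat (nat_lit 234133), .ofNat (nat_lit 257148), .ofNat (nat_lit 220501), .ofNat (nat_lit 242980), .ofNat (nat_lit 241858), .ofNat (nat_lit 264337)⟩, ⟨.ofNat (nat_lit 0), .ofNat (nat_lit 0), .ofNat (nat_lit 0), .ofNat (nat_lit 0), .ofNat (nat_lit 0), .ofNat (nat_lit 0), .ofNat (nat_lit 0), .ofNat (nat_lit 0)⟩⟩, [⟨nat_lit 0, nat_lit 100, nat_lit 96, nat_lit 61, nat_lit 1071189165⟩]⟩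
noncomputable def p013_l17 : Lf2 := ⟨nat_lit 0, nat_lit 5, [nat_lit 4, nat_lit 5, nat_lit 5, nat_lit 20], true, nat_lit 0, nat_lit 0, nat_lit 0, nat_lit 0, ⟨nat_lit 0, nat_lit 0, nat_lit 1000, nat_lit 6, nat_lit 88, nat_lit 0, nat_lit 0, nat_lit 0, nat_lit 0, nat_lit 215, nat_lit 72600, nat_lit 281, nat_lit 63904656, nat_lit 0, nat_lit 0, nat_lit 935829, false, false⟩,
 nat_lit 0, nat_lit 100000, nat_lit 0, nat_lit 0, nat_lit 58208, nat_lit 0, nat_lit 19147, nat_lit 1598, nat_lit 0, nat_lit 0, nat_lit 0, nat_lit 0, nat_lit 0, nat_lit 0, nat_lit 0, nat_lit 1000000, nat_lit 0, nat_lit 0, [(nat_lit 9, [(nat_lit 6, nat_lit 1000)])],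
 ⟨p013_k7, nat_lit 0, nat_lit 0, nat_lit 396, nat_lit 0, nat_lit 452964, [nat_lit 26874400000, nat_lit 35702133334], [], [nat_lit 14960583840, nat_lit 10629345073, nat_lit 15276910118, nat_lit 8325594342], nat_lit 1271250, nat_lit 1271250, nat_lit 134400, nat_lit 230001, nat_lit 0, nat_lit 0, [nat_lit 1100000, nat_lit 1785000], [nat_lit 39, nat_lit 40, nat_lit 20, nat_lit 80, nat_lit 7, nat_lit 215, nat_lit 10, nat_lit 7]⟩, C1.Rw.none,
 ⟨nat_lit 5809, nat_lit 5917, ⟨.ofNat (nat_lit 197129), .ofNat (nat_lit 228543), .ofNat (nat_lit 207799), .ofNat (nat_lit 239212), .ofNat (nat_lit 201138), .ofNat (nat_lit 232187), .ofNat (nat_lit 211807), .ofNat (nat_lit 242856)⟩, ⟨.ofNat (nat_lit 0), .ofNat (nat_lit 0), .ofNat (nat_lit 0), .ofNat (nat_lit 0), .ofNat (nat_lit 0), .ofNat (nat_lit 0), .ofNat (nat_lit 0), .ofNat (nat_lit 0)⟩⟩, [⟨nat_lit 0, nat_lit 100, nat_lit 98, nat_lit 57, nat_lit 10305531⟩]⟩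
noncomputable def p013_l18 : Lf2 := ⟨nat_lit 0, nat_lit 5, [nat_lit 4, nat_lit 5, nat_lit 5, nat_lit 20], true, nat_lit 0, nat_lit 0, nat_lit 0, nat_lit 0, ⟨nat_lit 0, nat_lit 517, nat_lit 483, nat_lit 6, nat_lit 90, nat_lit 0, nat_lit 0, nat_lit 0, nat_lit 0, nat_lit 215, nat_lit 74817, nat_lit 282, nat_lit 63801619, nat_lit 3198381, nat_lit 0, nat_lit 958977, false, false⟩,
 nat_lit 0, nat_lit 100000, nat_lit 0, nat_lit 0, nat_lit 59550, nat_lit 0, nat_lit 19425, nat_lit 1520, nat_lit 0, nat_lit 0, nat_lit 0, nat_lit 0, nat_lit 0, nat_lit 0, nat_lit 0, nat_lit 689800, nat_lit 10284533397, nat_lit 0, [(nat_lit 9, [(nat_lit 1, nat_lit 517), (nat_lit 6, nat_lit 483)])],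
 ⟨p013_k9, nat_lit 0, nat_lit 0, nat_lit 401, nat_lit 0, nat_lit 463017, [nat_lit 26369018801, nat_lit 36758766000], [], [nat_lit 6757331340, nat_lit 2311708641, nat_lit 7111580100, nat_lit 0], nat_lit 1271250, nat_lit 1271250, nat_lit 134400, nat_lit 230001, nat_lit 0, nat_lit 0, [nat_lit 1100000, nat_lit 1785000], [nat_lit 39, nat_lit 40, nat_lit 20, nat_lit 80, nat_lit 7, nat_lit 215, nat_lit 10, nat_lit 7]⟩, C1.Rw.none,
 ⟨nat_lit 5700, nat_lit 5810, ⟨.ofNat (nat_lit 201138), .ofNat (nat_lit 232187), .ofNat (nat_lit 211807), .ofNat (nat_lit 242856), .ofNat (nat_lit 205119), .ofNat (nat_lit 235806), .ofNat (nat_lit 215790), .ofNat (nat_lit 246477)⟩, ⟨.ofNat (nat_lit 0), .ofNat (nat_lit 0), .ofNat (nat_lit 0), .ofNat (nat_lit 0), .ofNat (nat_lit 0), .ofNat (nat_lit 0), .ofNat (nat_lit 0), .ofNat (nat_lit 0)⟩⟩, []⟩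
noncomputable def p013_l19 : Lf2 := ⟨nat_lit 0, nat_lit 5, [nat_lit 4, nat_lit 5, nat_lit 5, nat_lit 20], true, nat_lit 0, nat_lit 0, nat_lit 0, nat_lit 0, ⟨nat_lit 0, nat_lit 0, nat_lit 1000, nat_lit 6, nat_lit 89, nat_lit 0, nat_lit 0, nat_lit 0, nat_lit 0, nat_lit 215, nat_lit 74817, nat_lit 282, nat_lit 63853488, nat_lit 0, nat_lit 0, nat_lit 947357, false, false⟩,
 nat_lit 0, nat_lit 100000, nat_lit 0, nat_lit 0, nat_lit 58208, nat_lit 0, nat_lit 19510, nat_lit 3366, nat_lit 0, nat_lit 0, nat_lit 0, nat_lit 0, nat_lit 0, nat_lit 0, nat_lit 0, nat_lit 1000000, nat_lit 0, nat_lit 0, [(nat_lit 9, [(nat_lit 6, nat_lit 1000)])],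
 ⟨p013_k7, nat_lit 0, nat_lit 0, nat_lit 311, nat_lit 0, nat_lit 325827, [nat_lit 55162400000, nat_lit 78134133334], [], [nat_lit 92410407680, nat_lit 86573538913, nat_lit 92091847660, nat_lit 78199417172], nat_lit 1271250, nat_lit 1271250, nat_lit 134400, nat_lit 230001, nat_lit 0, nat_lit 0, [nat_lit 1100000, nat_lit 1785000], [nat_lit 39, nat_lit 40, nat_lit 20, nat_lit 80, nat_lit 7, nat_lit 215, nat_lit 10, nat_lit 7]⟩, C1.Rw.none,
 ⟨nat_lit 5700, nat_lit 5917, ⟨.ofNat (nat_lit 197129), .ofNat (nat_lit 228543), .ofNat (nat_lit 207799), .ofNat (nat_lit 239212), .ofNat (nat_lit 205119), .ofNat (nat_lit 235806), .ofNat (nat_lit 215790), .ofNat (nat_lit 246477)⟩, ⟨.ofNat (nat_lit 0), .ofNat (nat_lit 0), .ofNat (nat_lit 0), .ofNat (nat_lit 0), .ofNat (nat_lit 0), .ofNat (nat_lit 0), .ofNat (nat_lit 0), .ofNat (nat_lit 0)⟩⟩, [⟨nat_lit 13, nat_lit 99, nat_lit 5, nat_lit 100, nat_lit 121922237⟩]⟩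
noncomputable def p013_l20 : Lf2 := ⟨nat_lit 0, nat_lit 5, [nat_lit 4, nat_lit 5, nat_lit 5, nat_lit 20], true, nat_lit 0, nat_lit 0, nat_lit 0, nat_lit 0, ⟨nat_lit 0, nat_lit 0, nat_lit 1000, nat_lit 6, nat_lit 93, nat_lit 0, nat_lit 0, nat_lit 0, nat_lit 0, nat_lit 215, nat_lit 81667, nat_lit 285, nat_lit 63539907, nat_lit 0, nat_lit 0, nat_lit 1016618, false, false⟩,
 nat_lit 0, nat_lit 100000, nat_lit 0, nat_lit 0, nat_lit 60902, nat_lit 0, nat_lit 20057, nat_lit 2279, nat_lit 0, nat_lit 0, nat_lit 0, nat_lit 0, nat_lit 0, nat_lit 0, nat_lit 0, nat_lit 1000000, nat_lit 0, nat_lit 0, [(nat_lit 9, [(nat_lit 6, nat_lit 1000)])],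
 ⟨p013_k13, nat_lit 0, nat_lit 0, nat_lit 424, nat_lit 0, nat_lit 535072, [nat_lit 37770400001, nat_lit 52046133333], [], [nat_lit 26711623278, nat_lit 26632772631, nat_lit 27118572044, nat_lit 20314556995], nat_lit 1271250, nat_lit 1271250, nat_lit 157850, nat_lit 230001, nat_lit 0, nat_lit 0, [nat_lit 1100000, nat_lit 1785000], [nat_lit 39, nat_lit 40, nat_lit 20, nat_lit 80, nat_lit 7, nat_lit 215, nat_lit 10, nat_lit 7]⟩, C1.Rw.none,
 ⟨nat_lit 5477, nat_lit 5701, ⟨.ofNat (nat_lit 212791), .ofNat (nat_lit 235806), .ofNat (nat_lit 223462), .ofNat (nat_lit 246477), .ofNat (nat_lit 220501), .ofNat (nat_lit 242980), .ofNat (nat_lit 231179), .ofNat (nat_lit 253659)⟩, ⟨.ofNat (nat_lit 0), .ofNat (nat_lit 0), .ofNat (nat_lit 0), .ofNat (nat_lit 0), .ofNat (nat_lit 0), .ofNat (nat_lit 0), .ofNat (nat_lit 0), .ofNat (nat_lit 0)⟩⟩, [⟨nat_lit 0, nat_lit 100, nat_lit 95, nat_lit 59, nat_lit 2877534200⟩]⟩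
noncomputable def p013_l21 : Lf2 := ⟨nat_lit 0, nat_lit 5, [nat_lit 4, nat_lit 5, nat_lit 5, nat_lit 20], false, nat_lit 0, nat_lit 0, nat_lit 0, nat_lit 0, ⟨nat_lit 1000, nat_lit 0, nat_lit 0, nat_lit 0, nat_lit 0, nat_lit 0, nat_lit 0, nat_lit 0, nat_lit 0, nat_lit 0, nat_lit 0, nat_lit 0, nat_lit 0, nat_lit 0, nat_lit 0, nat_lit 0, false, false⟩,
 nat_lit 100000, nat_lit 0, nat_lit 0, nat_lit 0, nat_lit 58208, nat_lit 55555, nat_lit 19977, nat_lit 1176, nat_lit 0, nat_lit 0, nat_lit 1268, nat_lit 0, nat_lit 0, nat_lit 0, nat_lit 0, nat_lit 0, nat_lit 0, nat_lit 0, [],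
 ⟨p013_k7, nat_lit 0, nat_lit 0, nat_lit 430, nat_lit 0, nat_lit 553134, [nat_lit 23504000000, nat_lit 36192000000], [], [nat_lit 3942198468, nat_lit 10913521079, nat_lit 4286076784, nat_lit 3705077168], nat_lit 1271250, nat_lit 1271250, nat_lit 157850, nat_lit 230001, nat_lit 0, nat_lit 0, [nat_lit 1100000, nat_lit 1785000], [nat_lit 39, nat_lit 40, nat_lit 20, nat_lit 80, nat_lit 7, nat_lit 215, nat_lit 10, nat_lit 7]⟩, ⟨p013_k14, nat_lit 0, nat_lit 0, nat_lit 0, nat_lit 0, nat_lit 581126, [nat_lit 24976000000, nat_lit 38400000000], [], [nat_lit 67732930593, nat_lit 73153489436, nat_lit 64007454675, nat_lit 64713049070], nat_lit 1271250, nat_lit 1271250, nat_lit 157850, nat_lit 230001, nat_lit 0, nat_lit 0, [nat_lit 1100000, nat_lit 1785000], [nat_lit 39, nat_lit 40, nat_lit 20, nat_lit 80]⟩,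
 zbF0, [⟨nat_lit 0, nat_lit 100, nat_lit 97, nat_lit 62, nat_lit 7097940757⟩]⟩
noncomputable def p013_l22 : Lf2 := ⟨nat_lit 0, nat_lit 5, [nat_lit 4, nat_lit 5, nat_lit 5, nat_lit 20], false, nat_lit 0, nat_lit 0, nat_lit 0, nat_lit 0, ⟨nat_lit 0, nat_lit 0, nat_lit 1000, nat_lit 6, nat_lit 96, nat_lit 0, nat_lit 0, nat_lit 0, nat_lit 0, nat_lit 215, nat_lit 86400, nat_lit 287, nat_lit 63343429, nat_lit 0, nat_lit 0, nat_lit 1058861, false, false⟩,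
 nat_lit 100000, nat_lit 0, nat_lit 0, nat_lit 0, nat_lit 58208, nat_lit 55555, nat_lit 11913, nat_lit 1491, nat_lit 0, nat_lit 0, nat_lit 1888, nat_lit 0, nat_lit 0, nat_lit 0, nat_lit 0, nat_lit 1000000, nat_lit 0, nat_lit 0, [(nat_lit 9, [(nat_lit 6, nat_lit 1000)])],
 ⟨p013_k7, nat_lit 0, nat_lit 0, nat_lit 383, nat_lit 0, nat_lit 411579, [nat_lit 25162400001, nat_lit 33134133333], [], [nat_lit 19165131804, nat_lit 22821082225, nat_lit 19509010120, nat_lit 15611210502], nat_lit 1271250, nat_lit 1271250, nat_lit 157850, nat_lit 230001, nat_lit 0, nat_lit 0, [nat_lit 1100000, nat_lit 1785000], [nat_lit 39, nat_lit 40, nat_lit 20, nat_lit 80, nat_lit 7, nat_lit 215, nat_lit 10, nat_lit 7]⟩, ⟨p013_k14, nat_lit 0, nat_lit 0, nat_lit 0, nat_lit 0, nat_lit 433398, [nat_lit 30208000000, nat_lit 45312000000], [], [nat_lit 61481527193, nat_lit 66523743436, nat_lit 60298438675, nat_lit 57893763070],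 nat_lit 1271250, nat_lit 1271250, nat_lit 157850, nat_lit 230001, nat_lit 0, nat_lit 0, [nat_lit 1100000, nat_lit 1785000], [nat_lit 39, nat_lit 40, nat_lit 20, nat_lit 80]⟩,
 ⟨nat_lit 5477, nat_lit 5917, ⟨.ofNat (nat_lit 215652), .ofNat (nat_lit 239212), .ofNat (nat_lit 226322), .ofNat (nat_lit 249882), .ofNat (nat_lit 231179), .ofNat (nat_lit 253659), .ofNat (nat_lit 241858), .ofNat (nat_lit 264337)⟩, ⟨.ofNat (nat_lit 0), .ofNat (nat_lit 0), .ofNat (nat_lit 0), .ofNat (nat_lit 0), .ofNat (nat_lit 0), .ofNat (nat_lit 0), .ofNat (nat_lit 0), .ofNat (nat_lit 0)⟩⟩, [⟨nat_lit 0, nat_lit 100, nat_lit 97, nat_lit 62, nat_lit 6514977843⟩]⟩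
noncomputable def p013_l23 : Lf2 := ⟨nat_lit 0, nat_lit 5, [nat_lit 4, nat_lit 5, nat_lit 5, nat_lit 20], false, nat_lit 0, nat_lit 0, nat_lit 0, nat_lit 0, ⟨nat_lit 0, nat_lit 0, nat_lit 1000, nat_lit 6, nat_lit 92, nat_lit 0, nat_lit 0, nat_lit 0, nat_lit 0, nat_lit 215, nat_lit 79350, nat_lit 284, nat_lit 63603445, nat_lit 0, nat_lit 0, nat_lit 1002771, false, false⟩,
 nat_lit 10333, nat_lit 0, nat_lit 0, nat_lit 0, nat_lit 6014, nat_lit 5470, nat_lit 707, nat_lit 0, nat_lit 0, nat_lit 405, nat_lit 217, nat_lit 0, nat_lit 0, nat_lit 0, nat_lit 117, nat_lit 1000000, nat_lit 0, nat_lit 0, [(nat_lit 9, [(nat_lit 6, nat_lit 1000)])],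
 ⟨p013_k7, nat_lit 0, nat_lit 0, nat_lit 485, nat_lit 0, nat_lit 599664, [nat_lit 3178400000, nat_lit 158133334], [], [nat_lit 16306030372, nat_lit 18847684826, nat_lit 14828107406, nat_lit 17362917536], nat_lit 1271250, nat_lit 1271250, nat_lit 134400, nat_lit 230001, nat_lit 0, nat_lit 0, [nat_lit 1100000, nat_lit 1785000], [nat_lit 39, nat_lit 40, nat_lit 20, nat_lit 80, nat_lit 7, nat_lit 215, nat_lit 10, nat_lit 7]⟩, ⟨p013_k10, nat_lit 0, nat_lit 0, nat_lit 601, nat_lit 0, nat_lit 666229, [nat_lit 3472000000, nat_lit 5208000000, nat_lit 6076000000], [], [nat_lit 7674470752, nat_lit 7927648909, nat_lit 6960692640, nat_lit 7120942060], nat_lit 1271250, nat_lit 1271250, nat_lit 134400, nat_lit 230001, nat_lit 0, nat_lit 0, [nat_lit 1100000, nat_lit 1785000, nat_lit 1271250], [nat_lit 29, nat_lit 40, nat_lit 20, nat_lit 80, nat_lit 17, nat_lit 289, nat_lit 75, nat_lit 9]⟩,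
 ⟨nat_lit 5477, nat_lit 5917, ⟨.ofNat (nat_lit 197129), .ofNat (nat_lit 228543), .ofNat (nat_lit 218469), .ofNat (nat_lit 249882), .ofNat (nat_lit 213007), .ofNat (nat_lit 242980), .ofNat (nat_lit 234364), .ofNat (nat_lit 264337)⟩, ⟨.ofNat (nat_lit 0), .ofNat (nat_lit 0), .ofNat (nat_lit 0), .ofNat (nat_lit 0), .ofNat (nat_lit 0), .ofNat (nat_lit 0), .ofNat (nat_lit 0), .ofNat (nat_lit 0)⟩⟩, [⟨nat_lit 0, nat_lit 100, nat_lit 97, nat_lit 59, nat_lit 1164852857⟩]⟩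
noncomputable def p013_l24 : Lf2 := ⟨nat_lit 0, nat_lit 2, [nat_lit 10, nat_lit 5, nat_lit 5, nat_lit 20], false, nat_lit 0, nat_lit 0, nat_lit 0, nat_lit 0, ⟨nat_lit 361, nat_lit 0, nat_lit 639, nat_lit 6, nat_lit 112, nat_lit 0, nat_lit 0, nat_lit 0, nat_lit 0, nat_lit 215, nat_lit 117600, nat_lit 299, nat_lit 62146325, nat_lit 0, nat_lit 0, nat_lit 1299558, false, false⟩,
 nat_lit 10838, nat_lit 0, nat_lit 0, nat_lit 0, nat_lit 6308, nat_lit 5737, nat_lit 1614, nat_lit 0, nat_lit 0, nat_lit 0, nat_lit 0, nat_lit 0, nat_lit 0, nat_lit 0, nat_lit 0, nat_lit 639000, nat_lit 0, nat_lit 0, [(nat_lit 9, [(nat_lit 6, nat_lit 639)])],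
 ⟨p013_k17, nat_lit 0, nat_lit 0, nat_lit 326, nat_lit 0, nat_lit 492604, [nat_lit 2393734400, nat_lit 1783390000], [], [nat_lit 17935771202, nat_lit 17800925792, nat_lit 19467475802, nat_lit 16454219898], nat_lit 1271250, nat_lit 1271250, nat_lit 230001, nat_lit 490000, nat_lit 0, nat_lit 0, [nat_lit 1100000, nat_lit 1442500], [nat_lit 31, nat_lit 40, nat_lit 20, nat_lit 80, nat_lit 3, nat_lit 226, nat_lit 20, nat_lit 9]⟩, ⟨p013_k6, nat_lit 0, nat_lit 0, nat_lit 422, nat_lit 0, nat_lit 542913, [nat_lit 1692368000, nat_lit 2256250000, nat_lit 2876448000], [], [nat_lit 9561113828, nat_lit 8755454738, nat_lit 7625984516, nat_lit 6843521095], nat_lit 1271250, nat_lit 1271250, nat_lit 230001, nat_lit 490000, nat_lit 0, nat_lit 0, [nat_lit 1100000, nat_lit 1442500, nat_lit 1271250], [nat_lit 9, nat_lit 40, nat_lit 20, nat_lit 80, nat_lit 2, nat_lit 226, nat_lit 20, nat_lit 8]⟩,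
 ⟨nat_lit 5477, nat_lit 5917, ⟨.ofNat (nat_lit 228543), .ofNat (nat_lit 307076), .ofNat (nat_lit 239212), .ofNat (nat_lit 317746), .ofNat (nat_lit 242980), .ofNat (nat_lit 317913), .ofNat (nat_lit 253659), .ofNat (nat_lit 328592)⟩, ⟨.ofNat (nat_lit 0), .ofNat (nat_lit 0), .ofNat (nat_lit 0), .ofNat (nat_lit 0), .ofNat (nat_lit 0), .ofNat (nat_lit 0), .ofNat (nat_lit 0), .ofNat (nat_lit 0)⟩⟩, []⟩
noncomputable def p013_l25 : Lf2 := ⟨nat_lit 0, nat_lit 4, [nat_lit 38, nat_lit 5, nat_lit 5, nat_lit 20], true, nat_lit 0, nat_lit 0, nat_lit 0, nat_lit 0, ⟨nat_lit 0, nat_lit 0, nat_lit 1000, nat_lit 6, nat_lit 110, nat_lit 0, nat_lit 0, nat_lit 0, nat_lit 0, nat_lit 215, nat_lit 112067, nat_lit 297, nat_lit 62297693, nat_lit 0, nat_lit 0, nat_lit 1270564, false, false⟩,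
 nat_lit 0, nat_lit 7340, nat_lit 0, nat_lit 0, nat_lit 4272, nat_lit 0, nat_lit 0, nat_lit 0, nat_lit 0, nat_lit 0, nat_lit 0, nat_lit 0, nat_lit 0, nat_lit 0, nat_lit 117, nat_lit 1000000, nat_lit 0, nat_lit 0, [(nat_lit 9, [(nat_lit 6, nat_lit 1000)])],
 ⟨p013_k18, nat_lit 0, nat_lit 0, nat_lit 327, nat_lit 0, nat_lit 366750, [nat_lit 2969600000, nat_lit 1600000000, nat_lit 226400000], [], [nat_lit 12897151952, nat_lit 13221725092, nat_lit 12733400432, nat_lit 13045320324], nat_lit 1271250, nat_lit 1271250, nat_lit 230001, nat_lit 490000, nat_lit 0, nat_lit 0, [nat_lit 1100000, nat_lit 1442500, nat_lit 1271250], [nat_lit 9, nat_lit 40, nat_lit 20, nat_lit 80, nat_lit 2, nat_lit 226, nat_lit 20, nat_lit 8]⟩, C1.Rw.none,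
 ⟨nat_lit 5809, nat_lit 5917, ⟨.ofNat (nat_lit 228543), .ofNat (nat_lit 307076), .ofNat (nat_lit 239212), .ofNat (nat_lit 317746), .ofNat (nat_lit 232187), .ofNat (nat_lit 309809), .ofNat (nat_lit 242856), .ofNat (nat_lit 320479)⟩, ⟨.ofNat (nat_lit 0), .ofNat (nat_lit 0), .ofNat (nat_lit 0), .ofNat (nat_lit 0), .ofNat (nat_lit 0), .ofNat (nat_lit 0), .ofNat (nat_lit 0), .ofNat (nat_lit 0)⟩⟩, []⟩
noncomputable def p013_l26 : Lf2 := ⟨nat_lit 0, nat_lit 4, [nat_lit 38, nat_lit 5, nat_lit 5, nat_lit 20], true, nat_lit 0, nat_lit 0, nat_lit 0, nat_lit 0, ⟨nat_lit 0, nat_lit 0, nat_lit 1000, nat_lit 6, nat_lit 111, nat_lit 0, nat_lit 0, nat_lit 0, nat_lit 0, nat_lit 215, nat_lit 114817, nat_lit 298, nat_lit 62196110, nat_lit 0, nat_lit 0, nat_lit 1290064, false, false⟩,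
 nat_lit 0, nat_lit 7076, nat_lit 0, nat_lit 0, nat_lit 4213, nat_lit 0, nat_lit 0, nat_lit 0, nat_lit 0, nat_lit 0, nat_lit 0, nat_lit 0, nat_lit 0, nat_lit 0, nat_lit 117, nat_lit 1000000, nat_lit 0, nat_lit 0, [(nat_lit 9, [(nat_lit 6, nat_lit 1000)])],
 ⟨p013_k19, nat_lit 0, nat_lit 0, nat_lit 334, nat_lit 0, nat_lit 378668, [nat_lit 2969600000, nat_lit 1600000000, nat_lit 226400000], [], [nat_lit 13336498618, nat_lit 13658896428, nat_lit 13173616296, nat_lit 13483480864], nat_lit 1271250, nat_lit 1271250, nat_lit 230001, nat_lit 490000, nat_lit 0, nat_lit 0, [nat_lit 1100000, nat_lit 1442500, nat_lit 1271250], [nat_lit 9, nat_lit 40, nat_lit 20, nat_lit 80, nat_lit 2, nat_lit 226, nat_lit 20, nat_lit 8]⟩, C1.Rw.none,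
 ⟨nat_lit 5700, nat_lit 5810, ⟨.ofNat (nat_lit 232187), .ofNat (nat_lit 309809), .ofNat (nat_lit 242856), .ofNat (nat_lit 320479), .ofNat (nat_lit 235806), .ofNat (nat_lit 312525), .ofNat (nat_lit 246477), .ofNat (nat_lit 323196)⟩, ⟨.ofNat (nat_lit 0), .ofNat (nat_lit 0), .ofNat (nat_lit 0), .ofNat (nat_lit 0), .ofNat (nat_lit 0), .ofNat (nat_lit 0), .ofNat (nat_lit 0), .ofNat (nat_lit 0)⟩⟩, []⟩
noncomputable def p013_l27 : Lf2 := ⟨nat_lit 0, nat_lit 4, [nat_lit 38, nat_lit 5, nat_lit 5, nat_lit 20], false, nat_lit 0, nat_lit 0, nat_lit 0, nat_lit 0, ⟨nat_lit 319, nat_lit 0, nat_lit 681, nat_lit 6, nat_lit 113, nat_lit 0, nat_lit 0, nat_lit 0, nat_lit 0, nat_lit 215, nat_lit 120417, nat_lit 300, nat_lit 62043509, nat_lit 0, nat_lit 0, nat_lit 1319035, false, false⟩,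
 nat_lit 9517, nat_lit 0, nat_lit 0, nat_lit 0, nat_lit 5796, nat_lit 5038, nat_lit 908, nat_lit 0, nat_lit 0, nat_lit 0, nat_lit 0, nat_lit 0, nat_lit 0, nat_lit 0, nat_lit 0, nat_lit 681000, nat_lit 0, nat_lit 0, [(nat_lit 9, [(nat_lit 6, nat_lit 681)])],
 ⟨p013_k20, nat_lit 0, nat_lit 0, nat_lit 376, nat_lit 0, nat_lit 411760, [nat_lit 2242937601, nat_lit 1489810000, nat_lit 771281400], [], [nat_lit 17049195618, nat_lit 17038135904, nat_lit 14038481259, nat_lit 15090858784], nat_lit 1271250, nat_lit 1271250, nat_lit 230001, nat_lit 490000, nat_lit 0, nat_lit 0, [nat_lit 1100000, nat_lit 1442500, nat_lit 1271250], [nat_lit 9, nat_lit 40, nat_lit 20, nat_lit 80, nat_lit 2, nat_lit 226, nat_lit 20, nat_lit 8]⟩, ⟨p013_k21, nat_lit 0, nat_lit 0, nat_lit 395, nat_lit 0, nat_lit 476836, [nat_lit 1495472000, nat_lit 1993750000, nat_lit 2541792000], [], [nat_lit 8466880532, nat_lit 7702667522, nat_lit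 6784958444, nat_lit 6424517924], nat_lit 1271250, nat_lit 1271250, nat_lit 230001, nat_lit 490000, nat_lit 0, nat_lit 0, [nat_lit 1100000, nat_lit 1442500, nat_lit 1271250], [nat_lit 9, nat_lit 40, nat_lit 20, nat_lit 80, nat_lit 2, nat_lit 226, nat_lit 20, nat_lit 8]⟩,
 ⟨nat_lit 5477, nat_lit 5701, ⟨.ofNat (nat_lit 235806), .ofNat (nat_lit 312525), .ofNat (nat_lit 246477), .ofNat (nat_lit 323196), .ofNat (nat_lit 242980), .ofNat (nat_lit 317913), .ofNat (nat_lit 253659), .ofNat (nat_lit 328592)⟩, ⟨.ofNat (nat_lit 0), .ofNat (nat_lit 0), .ofNat (nat_lit 0), .ofNat (nat_lit 0), .ofNat (nat_lit 0), .ofNat (nat_lit 0), .ofNat (nat_lit 0), .ofNat (nat_lit 0)⟩⟩, []⟩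
noncomputable def p013_l28 : Lf2 := ⟨nat_lit 0, nat_lit 5, [nat_lit 4, nat_lit 5, nat_lit 5, nat_lit 20], false, nat_lit 0, nat_lit 0, nat_lit 0, nat_lit 0, ⟨nat_lit 549, nat_lit 0, nat_lit 451, nat_lit 6, nat_lit 112, nat_lit 0, nat_lit 0, nat_lit 0, nat_lit 0, nat_lit 215, nat_lit 117600, nat_lit 299, nat_lit 62146325, nat_lit 0, nat_lit 0, nat_lit 1299558, false, false⟩,
 nat_lit 10543, nat_lit 0, nat_lit 0, nat_lit 0, nat_lit 6136, nat_lit 5581, nat_lit 1204, nat_lit 0, nat_lit 0, nat_lit 0, nat_lit 0, nat_lit 0, nat_lit 0, nat_lit 0, nat_lit 0, nat_lit 451000, nat_lit 0, nat_lit 0, [(nat_lit 9, [(nat_lit 6, nat_lit 451)])],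
 ⟨p013_k0, nat_lit 0, nat_lit 0, nat_lit 362, nat_lit 0, nat_lit 375751, [nat_lit 3068729601, nat_lit 3097510000, nat_lit 3188719400], [], [nat_lit 16325048485, nat_lit 17554147353, nat_lit 15782086409, nat_lit 16804540153], nat_lit 1271250, nat_lit 1271250, nat_lit 230001, nat_lit 490000, nat_lit 0, nat_lit 0, [nat_lit 1100000, nat_lit 1442500, nat_lit 1271250], [nat_lit 9, nat_lit 40, nat_lit 20, nat_lit 80, nat_lit 2, nat_lit 226, nat_lit 20, nat_lit 8]⟩, ⟨p013_k8, nat_lit 0, nat_lit 0, nat_lit 453, nat_lit 0, nat_lit 415481, [nat_lit 2573712000, nat_lit 3431250000, nat_lit 5403258000], [], [nat_lit 16348534036, nat_lit 16252377287, nat_lit 16203444980, nat_lit 15202357826], nat_lit 1271250, nat_lit 1271250, nat_lit 230001, nat_lit 490000, nat_lit 0, nat_lit 0, [nat_lit 1100000, nat_lit 1442500, nat_lit 1271250], [nat_lit 11, nat_lit 40, nat_lit 20, nat_lit 80, nat_lit 1, nat_lit 317, nat_lit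 100, nat_lit 10]⟩,
 ⟨nat_lit 5477, nat_lit 5917, ⟨.ofNat (nat_lit 228543), .ofNat (nat_lit 307076), .ofNat (nat_lit 239212), .ofNat (nat_lit 317746), .ofNat (nat_lit 242980), .ofNat (nat_lit 317913), .ofNat (nat_lit 253659), .ofNat (nat_lit 328592)⟩, ⟨.ofNat (nat_lit 0), .ofNat (nat_lit 0), .ofNat (nat_lit 0), .ofNat (nat_lit 0), .ofNat (nat_lit 0), .ofNat (nat_lit 0), .ofNat (nat_lit 0), .ofNat (nat_lit 0)⟩⟩, [⟨nat_lit 0, nat_lit 100, nat_lit 95, nat_lit 64, nat_lit 290620357⟩]⟩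
noncomputable def p013_l29 : Lf2 := ⟨nat_lit 0, nat_lit 5, [nat_lit 4, nat_lit 5, nat_lit 5, nat_lit 20], false, nat_lit 0, nat_lit 0, nat_lit 0, nat_lit 0, ⟨nat_lit 330, nat_lit 0, nat_lit 670, nat_lit 6, nat_lit 112, nat_lit 0, nat_lit 0, nat_lit 0, nat_lit 0, nat_lit 215, nat_lit 117600, nat_lit 299, nat_lit 62146325, nat_lit 0, nat_lit 0, nat_lit 1299558, false, false⟩,
 nat_lit 8925, nat_lit 261, nat_lit 0, nat_lit 0, nat_lit 5347, nat_lit 4725, nat_lit 536, nat_lit 0, nat_lit 0, nat_lit 521, nat_lit 0, nat_lit 0, nat_lit 0, nat_lit 0, nat_lit 0, nat_lit 670000, nat_lit 0, nat_lit 0, [(nat_lit 9, [(nat_lit 6, nat_lit 670)])],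
 ⟨p013_k0, nat_lit 0, nat_lit 0, nat_lit 361, nat_lit 0, nat_lit 374124, [nat_lit 2282432001, nat_lit 1566700000, nat_lit 886898000], [], [nat_lit 15323592173, nat_lit 16369204928, nat_lit 14689077907, nat_lit 15783528050], nat_lit 1271250, nat_lit 1271250, nat_lit 230001, nat_lit 490000, nat_lit 0, nat_lit 0, [nat_lit 1100000, nat_lit 1442500, nat_lit 1271250], [nat_lit 9, nat_lit 40, nat_lit 20, nat_lit 80, nat_lit 2, nat_lit 226, nat_lit 20, nat_lit 8]⟩, ⟨p013_k8, nat_lit 0, nat_lit 0, nat_lit 453, nat_lit 0, nat_lit 415653, [nat_lit 1547040000, nat_lit 2062500000, nat_lit 3247860000], [], [nat_lit 9038801760, nat_lit 8768212820, nat_lit 7732055160, nat_lit 7559161940], nat_lit 1271250, nat_lit 1271250, nat_lit 230001, nat_lit 490000, nat_lit 0, nat_lit 0, [nat_lit 1100000, nat_lit 1442500, nat_lit 1271250], [nat_lit 11, nat_lit 40, nat_lit 20, nat_lit 80, nat_lit 1, nat_lit 317, nat_lit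 100, nat_lit 10]⟩,
 ⟨nat_lit 5477, nat_lit 5917, ⟨.ofNat (nat_lit 228543), .ofNat (nat_lit 307076), .ofNat (nat_lit 239212), .ofNat (nat_lit 317746), .ofNat (nat_lit 242980), .ofNat (nat_lit 317913), .ofNat (nat_lit 253659), .ofNat (nat_lit 328592)⟩, ⟨.ofNat (nat_lit 0), .ofNat (nat_lit 0), .ofNat (nat_lit 0), .ofNat (nat_lit 0), .ofNat (nat_lit 0), .ofNat (nat_lit 0), .ofNat (nat_lit 0), .ofNat (nat_lit 0)⟩⟩, [⟨nat_lit 0, nat_lit 100, nat_lit 95, nat_lit 64, nat_lit 404935987⟩]⟩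
noncomputable def p013_l30 : Lf2 := ⟨nat_lit 0, nat_lit 5, [nat_lit 4, nat_lit 5, nat_lit 5, nat_lit 20], false, nat_lit 0, nat_lit 0, nat_lit 0, nat_lit 0, ⟨nat_lit 1000, nat_lit 0, nat_lit 0, nat_lit 0, nat_lit 0, nat_lit 0, nat_lit 0, nat_lit 0, nat_lit 0, nat_lit 0, nat_lit 0, nat_lit 0, nat_lit 0, nat_lit 0, nat_lit 0, nat_lit 0, false, false⟩,
 nat_lit 17181, nat_lit 0, nat_lit 0, nat_lit 0, nat_lit 10000, nat_lit 9544, nat_lit 3161, nat_lit 0, nat_lit 0, nat_lit 0, nat_lit 0, nat_lit 0, nat_lit 0, nat_lit 0, nat_lit 0, nat_lit 0, nat_lit 0, nat_lit 0, [],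
 ⟨p013_k0, nat_lit 0, nat_lit 0, nat_lit 414, nat_lit 0, nat_lit 510464, [nat_lit 4688000000, nat_lit 6250000000, nat_lit 7968000000], [], [nat_lit 22125808875, nat_lit 21492178000, nat_lit 22362748875, nat_lit 19974308875], nat_lit 1271250, nat_lit 1271250, nat_lit 230001, nat_lit 490000, nat_lit 0, nat_lit 0, [nat_lit 1100000, nat_lit 1442500, nat_lit 1271250], [nat_lit 9, nat_lit 40, nat_lit 20, nat_lit 80, nat_lit 2, nat_lit 226, nat_lit 20, nat_lit 8]⟩, ⟨p013_k15, nat_lit 0, nat_lit 0, nat_lit 422, nat_lit 0, nat_lit 536298, [nat_lit 4688000000, nat_lit 6250000000, nat_lit 7968000000], [], [nat_lit 27688066776, nat_lit 26676128400, nat_lit 28145921472, nat_lit 25866394336], nat_lit 1271250, nat_lit 1271250, nat_lit 230001, nat_lit 490000, nat_lit 0, nat_lit 0, [nat_lit 1100000, nat_lit 1442500, nat_lit 1271250], [nat_lit 9, nat_lit 40, nat_lit 20, nat_lit 80, nat_lit 2, nat_lit 226, nat_lit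 20, nat_lit 8]⟩,
 zbF0, []⟩
noncomputable def p013_l31 : Lf2 := ⟨nat_lit 0, nat_lit 5, [nat_lit 4, nat_lit 5, nat_lit 5, nat_lit 20], false, nat_lit 0, nat_lit 0, nat_lit 0, nat_lit 0, ⟨nat_lit 813, nat_lit 0, nat_lit 187, nat_lit 6, nat_lit 117, nat_lit 0, nat_lit 0, nat_lit 0, nat_lit 0, nat_lit 215, nat_lit 129067, nat_lit 303, nat_lit 61692265, nat_lit 0, nat_lit 0, nat_lit 1384296, false, false⟩,
 nat_lit 12648, nat_lit 0, nat_lit 0, nat_lit 0, nat_lit 7702, nat_lit 7026, nat_lit 1968, nat_lit 0, nat_lit 0, nat_lit 126, nat_lit 0, nat_lit 0, nat_lit 0, nat_lit 0, nat_lit 0, nat_lit 187000, nat_lit 0, nat_lit 0, [(nat_lit 9, [(nat_lit 6, nat_lit 187)])],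
 ⟨p013_k2, nat_lit 0, nat_lit 0, nat_lit 423, nat_lit 0, nat_lit 527347, [nat_lit 4016595201, nat_lit 4942870000, nat_lit 5963517800], [], [nat_lit 20164734544, nat_lit 19877740448, nat_lit 21830364203, nat_lit 19990787715], nat_lit 1271250, nat_lit 1271250, nat_lit 230001, nat_lit 490000, nat_lit 0, nat_lit 0, [nat_lit 1100000, nat_lit 1442500, nat_lit 1271250], [nat_lit 9, nat_lit 40, nat_lit 20, nat_lit 80, nat_lit 2, nat_lit 226, nat_lit 20, nat_lit 8]⟩, ⟨p013_k15, nat_lit 0, nat_lit 0, nat_lit 441, nat_lit 0, nat_lit 581126, [nat_lit 3811344000, nat_lit 5081250000, nat_lit 6477984000], [], [nat_lit 23068301010, nat_lit 22743535578, nat_lit 24080163444, nat_lit 22402045500], nat_lit 1271250, nat_lit 1271250, nat_lit 230001, nat_lit 490000, nat_lit 0, nat_lit 0, [nat_lit 1100000, nat_lit 1442500, nat_lit 1271250], [nat_lit 9, nat_lit 40, nat_lit 20, nat_lit 80, nat_lit 2, nat_lit 226, nat_lit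 20, nat_lit 8]⟩,
 ⟨nat_lit 5477, nat_lit 5701, ⟨.ofNat (nat_lit 246477), .ofNat (nat_lit 323196), .ofNat (nat_lit 257148), .ofNat (nat_lit 333867), .ofNat (nat_lit 253659), .ofNat (nat_lit 328592), .ofNat (nat_lit 264337), .ofNat (nat_lit 339271)⟩, ⟨.ofNat (nat_lit 0), .ofNat (nat_lit 0), .ofNat (nat_lit 0), .ofNat (nat_lit 0), .ofNat (nat_lit 0), .ofNat (nat_lit 0), .ofNat (nat_lit 0), .ofNat (nat_lit 0)⟩⟩, []⟩
noncomputable def p013_l32 : Lf2 := ⟨nat_lit 0, nat_lit 5, [nat_lit 4, nat_lit 5, nat_lit 5, nat_lit 20], false, nat_lit 0, nat_lit 0, nat_lit 0, nat_lit 0, ⟨nat_lit 950, nat_lit 0, nat_lit 50, nat_lit 6, nat_lit 115, nat_lit 0, nat_lit 0, nat_lit 0, nat_lit 0, nat_lit 215, nat_lit 123267, nat_lit 301, nat_lit 61901485, nat_lit 0, nat_lit 0, nat_lit 1345657, false, false⟩,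
 nat_lit 13744, nat_lit 0, nat_lit 0, nat_lit 0, nat_lit 8000, nat_lit 7635, nat_lit 2305, nat_lit 0, nat_lit 0, nat_lit 165, nat_lit 0, nat_lit 0, nat_lit 0, nat_lit 0, nat_lit 0, nat_lit 50000, nat_lit 0, nat_lit 0, [(nat_lit 9, [(nat_lit 6, nat_lit 50)])],
 ⟨p013_k0, nat_lit 0, nat_lit 0, nat_lit 329, nat_lit 0, nat_lit 365237, [nat_lit 4508480000, nat_lit 5900500000, nat_lit 7430280000], [], [nat_lit 18054311875, nat_lit 18783914000, nat_lit 17191059750, nat_lit 17609501750], nat_lit 1271250, nat_lit 1271250, nat_lit 230001, nat_lit 490000, nat_lit 0, nat_lit 0, [nat_lit 1100000, nat_lit 1442500, nat_lit 1271250], [nat_lit 9, nat_lit 40, nat_lit 20, nat_lit 80, nat_lit 2, nat_lit 226, nat_lit 20, nat_lit 8]⟩, ⟨p013_k15, nat_lit 0, nat_lit 0, nat_lit 333, nat_lit 0, nat_lit 384599, [nat_lit 4453600000, nat_lit 5937500000, nat_lit 7569600000], [], [nat_lit 27426459065, nat_lit 27951101120,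 nat_lit 26126337725, nat_lit 26699146730], nat_lit 1271250, nat_lit 1271250, nat_lit 230001, nat_lit 490000, nat_lit 0, nat_lit 0, [nat_lit 1100000, nat_lit 1442500, nat_lit 1271250], [nat_lit 9, nat_lit 40, nat_lit 20, nat_lit 80, nat_lit 2, nat_lit 226, nat_lit 20, nat_lit 8]⟩,
 ⟨nat_lit 5700, nat_lit 5917, ⟨.ofNat (nat_lit 239212), .ofNat (nat_lit 317746), .ofNat (nat_lit 249882), .ofNat (nat_lit 328416), .ofNat (nat_lit 246477), .ofNat (nat_lit 323196), .ofNat (nat_lit 257148), .ofNat (nat_lit 333867)⟩, ⟨.ofNat (nat_lit 0), .ofNat (nat_lit 0), .ofNat (nat_lit 0), .ofNat (nat_lit 0), .ofNat (nat_lit 0), .ofNat (nat_lit 0), .ofNat (nat_lit 0), .ofNat (nat_lit 0)⟩⟩, [⟨nat_lit 0, nat_lit 100, nat_lit 98, nat_lit 64, nat_lit 654781056⟩]⟩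
noncomputable def p013_l33 : Lf2 := ⟨nat_lit 0, nat_lit 5, [nat_lit 4, nat_lit 5, nat_lit 5, nat_lit 20], false, nat_lit 0, nat_lit 0, nat_lit 0, nat_lit 0, ⟨nat_lit 526, nat_lit 0, nat_lit 474, nat_lit 6, nat_lit 117, nat_lit 0, nat_lit 0, nat_lit 0, nat_lit 0, nat_lit 215, nat_lit 129067, nat_lit 303, nat_lit 61692265, nat_lit 0, nat_lit 0, nat_lit 1384296, false, false⟩,
 nat_lit 9939, nat_lit 0, nat_lit 0, nat_lit 0, nat_lit 6052, nat_lit 5521, nat_lit 911, nat_lit 0, nat_lit 0, nat_lit 214, nat_lit 0, nat_lit 0, nat_lit 0, nat_lit 0, nat_lit 0, nat_lit 474000, nat_lit 0, nat_lit 0, [(nat_lit 9, [(nat_lit 6, nat_lit 474)])],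
 ⟨p013_k2, nat_lit 0, nat_lit 0, nat_lit 368, nat_lit 0, nat_lit 391559, [nat_lit 2986150401, nat_lit 2936740000, nat_lit 2946975600], [], [nat_lit 16781906813, nat_lit 17419530848, nat_lit 16026636875, nat_lit 16651898295], nat_lit 1271250, nat_lit 1271250, nat_lit 230001, nat_lit 490000, nat_lit 0, nat_lit 0, [nat_lit 1100000, nat_lit 1442500, nat_lit 1271250], [nat_lit 9, nat_lit 40, nat_lit 20, nat_lit 80, nat_lit 2, nat_lit 226, nat_lit 20, nat_lit 8]⟩, ⟨p013_k15, nat_lit 0, nat_lit 0, nat_lit 379, nat_lit 0, nat_lit 433398, [nat_lit 2465888000, nat_lit 3287500000, nat_lit 4191168000], [], [nat_lit 14059075671, nat_lit 14148957860, nat_lit 13863015060, nat_lit 13102789626], nat_lit 1271250, nat_lit 1271250, nat_lit 230001, nat_lit 490000, nat_lit 0, nat_lit 0, [nat_lit 1100000, nat_lit 1442500, nat_lit 1271250], [nat_lit 9, nat_lit 40, nat_lit 20, nat_lit 80, nat_lit 2, nat_lit 226, nat_lit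 20, nat_lit 8]⟩,
 ⟨nat_lit 5477, nat_lit 5701, ⟨.ofNat (nat_lit 246477), .ofNat (nat_lit 323196), .ofNat (nat_lit 257148), .ofNat (nat_lit 333867), .ofNat (nat_lit 253659), .ofNat (nat_lit 328592), .ofNat (nat_lit 264337), .ofNat (nat_lit 339271)⟩, ⟨.ofNat (nat_lit 0), .ofNat (nat_lit 0), .ofNat (nat_lit 0), .ofNat (nat_lit 0), .ofNat (nat_lit 0), .ofNat (nat_lit 0), .ofNat (nat_lit 0), .ofNat (nat_lit 0)⟩⟩, [⟨nat_lit 0, nat_lit 100, nat_lit 96, nat_lit 64, nat_lit 548719414⟩]⟩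
noncomputable def p013_l34 : Lf2 := ⟨nat_lit 0, nat_lit 5, [nat_lit 4, nat_lit 5, nat_lit 5, nat_lit 20], false, nat_lit 0, nat_lit 0, nat_lit 0, nat_lit 0, ⟨nat_lit 1000, nat_lit 0, nat_lit 0, nat_lit 0, nat_lit 0, nat_lit 0, nat_lit 0, nat_lit 0, nat_lit 0, nat_lit 0, nat_lit 0, nat_lit 0, nat_lit 0, nat_lit 0, nat_lit 0, nat_lit 0, false, false⟩,
 nat_lit 16278, nat_lit 0, nat_lit 0, nat_lit 0, nat_lit 9475, nat_lit 8617, nat_lit 1430, nat_lit 0, nat_lit 0, nat_lit 1741, nat_lit 0, nat_lit 0, nat_lit 0, nat_lit 0, nat_lit 0, nat_lit 0, nat_lit 0, nat_lit 0, [],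
 ⟨p013_k0, nat_lit 0, nat_lit 0, nat_lit 427, nat_lit 0, nat_lit 599664, [nat_lit 4688000000, nat_lit 6250000000, nat_lit 7968000000], [], [nat_lit 23752843250, nat_lit 21952924400, nat_lit 23441191650, nat_lit 21248102200], nat_lit 1271250, nat_lit 1271250, nat_lit 490000, nat_lit 1100001, nat_lit 0, nat_lit 0, [nat_lit 1100000, nat_lit 1442500, nat_lit 1271250], [nat_lit 9, nat_lit 40, nat_lit 20, nat_lit 80, nat_lit 2, nat_lit 249, nat_lit 40, nat_lit 8]⟩, ⟨p013_k8, nat_lit 0, nat_lit 0, nat_lit 542, nat_lit 0, nat_lit 666229, [nat_lit 4688000000, nat_lit 6250000000, nat_lit 9842000000], [], [nat_lit 29107582536, nat_lit 28024859300, nat_lit 31331093584, nat_lit 27157380698], nat_lit 1271250, nat_lit 1271250, nat_lit 490000, nat_lit 1100001, nat_lit 0, nat_lit 0, [nat_lit 1100000, nat_lit 1442500, nat_lit 1271250], [nat_lit 11, nat_lit 40, nat_lit 20, nat_lit 80, nat_lit 1, nat_lit 345,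 nat_lit 125, nat_lit 10]⟩,
 zbF0, []⟩
noncomputable def p013_l35 : Lf2 := ⟨nat_lit 0, nat_lit 5, [nat_lit 4, nat_lit 5, nat_lit 5, nat_lit 20], false, nat_lit 0, nat_lit 0, nat_lit 0, nat_lit 0, ⟨nat_lit 1000, nat_lit 0, nat_lit 0, nat_lit 0, nat_lit 0, nat_lit 0, nat_lit 0, nat_lit 0, nat_lit 0, nat_lit 0, nat_lit 0, nat_lit 0, nat_lit 0, nat_lit 0, nat_lit 0, nat_lit 0, false, false⟩,
 nat_lit 12584, nat_lit 0, nat_lit 0, nat_lit 0, nat_lit 7325, nat_lit 6662, nat_lit 1042, nat_lit 0, nat_lit 0, nat_lit 1334, nat_lit 0, nat_lit 0, nat_lit 0, nat_lit 0, nat_lit 0, nat_lit 0, nat_lit 0, nat_lit 0, [],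
 ⟨p013_k0, nat_lit 0, nat_lit 0, nat_lit 397, nat_lit 0, nat_lit 599664, [nat_lit 4688000000, nat_lit 6250000000, nat_lit 7968000000], [], [nat_lit 29676523200, nat_lit 28403036450, nat_lit 31120185550, nat_lit 29651856750], nat_lit 1271250, nat_lit 1271250, nat_lit 1100001, nat_lit 1785000, nat_lit 0, nat_lit 0, [nat_lit 1100000, nat_lit 1442500, nat_lit 1271250], [nat_lit 9, nat_lit 40, nat_lit 20, nat_lit 80, nat_lit 2, nat_lit 272, nat_lit 60, nat_lit 9]⟩, ⟨p013_k8, nat_lit 0, nat_lit 0, nat_lit 492, nat_lit 0, nat_lit 666229, [nat_lit 4688000000, nat_lit 6250000000, nat_lit 9842000000], [], [nat_lit 34044928968, nat_lit 33331761788, nat_lit 35936422784, nat_lit 34289393956], nat_lit 1271250, nat_lit 1271250, nat_lit 1100001, nat_lit 1785000, nat_lit 0, nat_lit 0, [nat_lit 1100000, nat_lit 1442500, nat_lit 1271250], [nat_lit 11, nat_lit 40, nat_lit 20, nat_lit 80, nat_lit 1, nat_lit 345,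 nat_lit 125, nat_lit 10]⟩,
 zbF0, []⟩
noncomputable def p013_l36 : Lf2 := ⟨nat_lit 0, nat_lit 5, [nat_lit 4, nat_lit 5, nat_lit 5, nat_lit 20], false, nat_lit 0, nat_lit 0, nat_lit 0, nat_lit 0, ⟨nat_lit 1000, nat_lit 0, nat_lit 0, nat_lit 0, nat_lit 0, nat_lit 0, nat_lit 0, nat_lit 0, nat_lit 0, nat_lit 0, nat_lit 0, nat_lit 0, nat_lit 0, nat_lit 0, nat_lit 0, nat_lit 0, false, false⟩,
 nat_lit 15654, nat_lit 0, nat_lit 0, nat_lit 0, nat_lit 6594, nat_lit 8287, nat_lit 2196, nat_lit 0, nat_lit 0, nat_lit 834, nat_lit 0, nat_lit 0, nat_lit 0, nat_lit 0, nat_lit 0, nat_lit 0, nat_lit 0, nat_lit 0, [],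
 ⟨p013_k7, nat_lit 0, nat_lit 0, nat_lit 412, nat_lit 0, nat_lit 599664, [nat_lit 4688000000, nat_lit 7968000000], [], [nat_lit 28723317208, nat_lit 29269137360, nat_lit 36299093176, nat_lit 37272877904], nat_lit 1271250, nat_lit 1271250, nat_lit 1271250, nat_lit 1271250, nat_lit 0, nat_lit 0, [nat_lit 1100000, nat_lit 1785000], [nat_lit 39, nat_lit 40, nat_lit 20, nat_lit 80, nat_lit 7, nat_lit 203, nat_lit 0, nat_lit 6]⟩, ⟨p013_k10, nat_lit 0, nat_lit 0, nat_lit 499, nat_lit 0, nat_lit 666229, [nat_lit 4688000000, nat_lit 7968000000, nat_lit 9842000000], [], [nat_lit 34491909612, nat_lit 35030632998, nat_lit 41621347376, nat_lit 41952109438], nat_lit 1271250, nat_lit 1271250, nat_lit 1271250, nat_lit 1271250, nat_lit 0, nat_lit 0, [nat_lit 1100000, nat_lit 1785000, nat_lit 1271250], [nat_lit 29, nat_lit 40, nat_lit 20, nat_lit 80, nat_lit 17, nat_lit 401, nat_lit 175, nat_lit 11]⟩,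
 zbF0, []⟩
noncomputable def b_NL_650_600_0_2 : St := ⟨false, nat_lit 1, nat_lit 1, nat_lit 1, nat_lit 20, nat_lit 260, nat_lit 280, nat_lit 240, nat_lit 260, nat_lit 24, nat_lit 400, nat_lit 0, nat_lit 0, nat_lit 0, nat_lit 0, nat_lit 0, nat_lit 0, nat_lit 0, nat_lit 40, nat_lit 0, nat_lit 0, nat_lit 0, nat_lit 0⟩
theorem d_NL_650_600_0_2 (h : EB TB.env) : Dead b_NL_650_600_0_2 := chkB_sound0 h (T :=
(.spl (nat_lit 2) (nat_lit 240)
(.spl (nat_lit 2) (nat_lit 160)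
(.spl (nat_lit 2) (nat_lit 80)
(.spl (nat_lit 2) (nat_lit 40)
(.spl (nat_lit 8) (nat_lit 800)
(.spl (nat_lit 8) (nat_lit 400)
(.spl (nat_lit 6) (nat_lit 20)
(.leaf p013_l0)
(.spl (nat_lit 0) (nat_lit 270)
(.leaf p013_l1)
(.trZ (nat_lit 0) (nat_lit 100) (nat_lit 96) (nat_lit 54) (nat_lit 28) (.leaf p013_l2))))
(.spl (nat_lit 7) (nat_lit 600)
(.spl (nat_lit 6) (nat_lit 20)
(.spl (nat_lit 6) (nat_lit 8)
(.spl (nat_lit 0) (nat_lit 270)
(.leaf p013_l3)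
(.trZ (nat_lit 0) (nat_lit 100) (nat_lit 96) (nat_lit 54) (nat_lit 28) (.leaf p013_l4)))
(.spl (nat_lit 7) (nat_lit 300)
(.leaf p013_l5)
(.spl (nat_lit 7) (nat_lit 460)
(.leaf p013_l6)
(.spl (nat_lit 1) (nat_lit 250)
(.spl (nat_lit 0) (nat_lit 270)
(.spl (nat_lit 0) (nat_lit 265)
(.leaf p013_l7)
(.leaf p013_l8))
(.trZ (nat_lit 0) (nat_lit 100) (nat_lit 96) (nat_lit 54) (nat_lit 28) (.spl (nat_lit 6) (nat_lit 16)
(.leaf p013_l9)
(.leaf p013_l10))))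
(.trZ (nat_lit 0) (nat_lit 100) (nat_lit 99) (nat_lit 55) (nat_lit 28) (.leaf p013_l11))))))
(.spl (nat_lit 0) (nat_lit 270)
(.spl (nat_lit 1) (nat_lit 250)
(.leaf p013_l12)
(.trZ (nat_lit 0) (nat_lit 100) (nat_lit 99) (nat_lit 55) (nat_lit 28) (.leaf p013_l13)))
(.trZ (nat_lit 0) (nat_lit 100) (nat_lit 96) (nat_lit 54) (nat_lit 28) (.spl (nat_lit 6) (nat_lit 32)
(.spl (nat_lit 0) (nat_lit 275)
(.leaf p013_l14)
(.trZ (nat_lit 0) (nat_lit 100) (nat_lit 95) (nat_lit 56) (nat_lit 32) (.leaf p013_l15)))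
(.leaf p013_l16)))))
(.spl (nat_lit 1) (nat_lit 250)
(.spl (nat_lit 0) (nat_lit 270)
(.spl (nat_lit 6) (nat_lit 20)
(.spl (nat_lit 0) (nat_lit 265)
(.leaf p013_l17)
(.leaf p013_l18))
(.leaf p013_l19))
(.trZ (nat_lit 0) (nat_lit 100) (nat_lit 96) (nat_lit 54) (nat_lit 28) (.leaf p013_l20)))
(.trZ (nat_lit 0) (nat_lit 100) (nat_lit 99) (nat_lit 55) (nat_lit 28) (.spl (nat_lit 6) (nat_lit 20)
(.leaf p013_l21)
(.leaf p013_l22))))))
(.leaf p013_l23))
(.spl (nat_lit 1) (nat_lit 250)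
(.spl (nat_lit 6) (nat_lit 20)
(.spl (nat_lit 6) (nat_lit 8)
(.leaf p013_l24)
(.spl (nat_lit 6) (nat_lit 16)
(.spl (nat_lit 0) (nat_lit 270)
(.spl (nat_lit 0) (nat_lit 265)
(.leaf p013_l25)
(.leaf p013_l26))
(.leaf p013_l27))
(.leaf p013_l28)))
(.leaf p013_l29))
(.spl (nat_lit 6) (nat_lit 20)
(.spl (nat_lit 0) (nat_lit 270)
(.leaf p013_l30)
(.leaf p013_l31))
(.spl (nat_lit 0) (nat_lit 270)
(.leaf p013_l32)
(.leaf p013_l33)))))
(.leaf p013_l34))
(.leaf p013_l35))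
(.leaf p013_l36))) (by decide +kernel)
noncomputable def p013_l37 : Lf2 := ⟨nat_lit 0, nat_lit 5, [nat_lit 4, nat_lit 5, nat_lit 5, nat_lit 20], true, nat_lit 0, nat_lit 0, nat_lit 0, nat_lit 0, ⟨nat_lit 0, nat_lit 1000, nat_lit 0, nat_lit 6, nat_lit 108, nat_lit 0, nat_lit 0, nat_lit 0, nat_lit 0, nat_lit 0, nat_lit 0, nat_lit 0, nat_lit 0, nat_lit 0, nat_lit 0, nat_lit 5000000, false, false⟩,
 nat_lit 0, nat_lit 9185, nat_lit 0, nat_lit 0, nat_lit 5346, nat_lit 0, nat_lit 755, nat_lit 0, nat_lit 0, nat_lit 0, nat_lit 0, nat_lit 0, nat_lit 0, nat_lit 0, nat_lit 0, nat_lit 1000000, nat_lit 0, nat_lit 0, [(nat_lit 9, [(nat_lit 2, nat_lit 1000)])],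
 ⟨p013_k0, nat_lit 0, nat_lit 0, nat_lit 447, nat_lit 0, nat_lit 553134, [nat_lit 2663466667, nat_lit 2329200000, nat_lit 1646800000], [], [nat_lit 23415960728, nat_lit 20656755409, nat_lit 23402869450, nat_lit 20849149402], nat_lit 1271250, nat_lit 1271250, nat_lit 134400, nat_lit 490000, nat_lit 0, nat_lit 0, [nat_lit 1100000, nat_lit 1442500, nat_lit 1271250], [nat_lit 9, nat_lit 40, nat_lit 20, nat_lit 80, nat_lit 2, nat_lit 226, nat_lit 20, nat_lit 8]⟩, C1.Rw.none,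
 ⟨nat_lit 5477, nat_lit 5917, ⟨.ofNat (nat_lit 197129), .ofNat (nat_lit 307076), .ofNat (nat_lit 218469), .ofNat (nat_lit 328416), .ofNat (nat_lit 213007), .ofNat (nat_lit 317913), .ofNat (nat_lit 234364), .ofNat (nat_lit 339271)⟩, ⟨.ofNat (nat_lit 0), .ofNat (nat_lit 0), .ofNat (nat_lit 0), .ofNat (nat_lit 0), .ofNat (nat_lit 0), .ofNat (nat_lit 0), .ofNat (nat_lit 0), .ofNat (nat_lit 0)⟩⟩, []⟩
noncomputable def p013_l38 : Lf2 := ⟨nat_lit 0, nat_lit 5, [nat_lit 4, nat_lit 5, nat_lit 5, nat_lit 20], false, nat_lit 0, nat_lit 0, nat_lit 0, nat_lit 0, ⟨nat_lit 1000, nat_lit 0, nat_lit 0, nat_lit 0, nat_lit 0, nat_lit 0, nat_lit 0, nat_lit 0, nat_lit 0, nat_lit 0, nat_lit 0, nat_lit 0, nat_lit 0, nat_lit 0, nat_lit 0, nat_lit 0, false, false⟩,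
 nat_lit 0, nat_lit 15586, nat_lit 0, nat_lit 0, nat_lit 9072, nat_lit 10457, nat_lit 2228, nat_lit 0, nat_lit 0, nat_lit 3912, nat_lit 0, nat_lit 0, nat_lit 0, nat_lit 0, nat_lit 0, nat_lit 0, nat_lit 0, nat_lit 0, [],
 ⟨p013_k0, nat_lit 0, nat_lit 0, nat_lit 655, nat_lit 0, nat_lit 1064308, [nat_lit 4688000000, nat_lit 6250000000, nat_lit 7968000000], [], [nat_lit 24191408000, nat_lit 19650292312, nat_lit 23106302368, nat_lit 19030440504], nat_lit 1271250, nat_lit 1271250, nat_lit 490000, nat_lit 780000, nat_lit 0, nat_lit 0, [nat_lit 1100000, nat_lit 1442500, nat_lit 1271250], [nat_lit 9, nat_lit 40, nat_lit 20, nat_lit 80, nat_lit 2, nat_lit 238, nat_lit 30, nat_lit 8]⟩, ⟨p013_k8, nat_lit 0, nat_lit 0, nat_lit 153, nat_lit 0, nat_lit 0, [nat_lit 4688000000, nat_lit 6250000000, nat_lit 9842000000], [], [nat_lit 13244777468, nat_lit 14353596211, nat_lit 12415256596, nat_lit 13767156364],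 nat_lit 0, nat_lit 0, nat_lit 0, nat_lit 0, nat_lit 0, nat_lit 0, [], [nat_lit 11, nat_lit 40, nat_lit 20, nat_lit 80, nat_lit 1, nat_lit 317, nat_lit 100, nat_lit 9]⟩,
 zbF0, []⟩
noncomputable def p013_l39 : Lf2 := ⟨nat_lit 0, nat_lit 5, [nat_lit 4, nat_lit 5, nat_lit 5, nat_lit 20], false, nat_lit 0, nat_lit 0, nat_lit 0, nat_lit 0, ⟨nat_lit 1000, nat_lit 0, nat_lit 0, nat_lit 0, nat_lit 0, nat_lit 0, nat_lit 0, nat_lit 0, nat_lit 0, nat_lit 0, nat_lit 0, nat_lit 0, nat_lit 0, nat_lit 0, nat_lit 0, nat_lit 0, false, false⟩,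
 nat_lit 0, nat_lit 15385, nat_lit 0, nat_lit 0, nat_lit 8955, nat_lit 6725, nat_lit 6181, nat_lit 0, nat_lit 0, nat_lit 0, nat_lit 0, nat_lit 0, nat_lit 0, nat_lit 0, nat_lit 0, nat_lit 0, nat_lit 0, nat_lit 0, [],
 ⟨p013_k0, nat_lit 0, nat_lit 0, nat_lit 694, nat_lit 0, nat_lit 1158032, [nat_lit 4688000000, nat_lit 6250000000, nat_lit 7968000000], [], [nat_lit 24318733250, nat_lit 19961466460, nat_lit 23358186520, nat_lit 19475747720], nat_lit 1271250, nat_lit 1271250, nat_lit 490000, nat_lit 780000, nat_lit 0, nat_lit 0, [nat_lit 1100000, nat_lit 1442500, nat_lit 1271250], [nat_lit 9, nat_lit 40, nat_lit 20, nat_lit 80, nat_lit 2, nat_lit 238, nat_lit 30, nat_lit 8]⟩, ⟨p013_k15, nat_lit 0, nat_lit 0, nat_lit 69, nat_lit 0, nat_lit 0, [nat_lit 4688000000, nat_lit 6250000000, nat_lit 7968000000], [], [nat_lit 12215619725, nat_lit 13366868250, nat_lit 12277479125, nat_lit 13370882450], nat_lit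 0, nat_lit 0, nat_lit 0, nat_lit 0, nat_lit 0, nat_lit 0, [], [nat_lit 9, nat_lit 40, nat_lit 20, nat_lit 80, nat_lit 2, nat_lit 238, nat_lit 30, nat_lit 8]⟩,
 zbF0, []⟩
noncomputable def p013_l40 : Lf2 := ⟨nat_lit 0, nat_lit 5, [nat_lit 4, nat_lit 5, nat_lit 5, nat_lit 20], false, nat_lit 0, nat_lit 0, nat_lit 0, nat_lit 0, ⟨nat_lit 1000, nat_lit 0, nat_lit 0, nat_lit 0, nat_lit 0, nat_lit 0, nat_lit 0, nat_lit 0, nat_lit 0, nat_lit 0, nat_lit 0, nat_lit 0, nat_lit 0, nat_lit 0, nat_lit 0, nat_lit 0, false, false⟩,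
 nat_lit 0, nat_lit 13760, nat_lit 0, nat_lit 0, nat_lit 8009, nat_lit 10675, nat_lit 2233, nat_lit 0, nat_lit 0, nat_lit 3707, nat_lit 0, nat_lit 0, nat_lit 0, nat_lit 0, nat_lit 0, nat_lit 0, nat_lit 0, nat_lit 0, [],
 ⟨p013_k0, nat_lit 0, nat_lit 0, nat_lit 676, nat_lit 0, nat_lit 1158032, [nat_lit 4688000000, nat_lit 6250000000, nat_lit 7968000000], [], [nat_lit 28365804024, nat_lit 24499162125, nat_lit 32983120000, nat_lit 29209231146], nat_lit 1271250, nat_lit 1271250, nat_lit 780000, nat_lit 1762500, nat_lit 0, nat_lit 0, [nat_lit 1100000, nat_lit 1442500, nat_lit 1271250], [nat_lit 9, nat_lit 40, nat_lit 20, nat_lit 80, nat_lit 2, nat_lit 272, nat_lit 60, nat_lit 9]⟩, ⟨p013_k8, nat_lit 0, nat_lit 0, nat_lit 146, nat_lit 0, nat_lit 0, [nat_lit 4688000000, nat_lit 6250000000, nat_lit 9842000000], [], [nat_lit 12879096350, nat_lit 15009244300, nat_lit 19655301200, nat_lit 22356042950],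 nat_lit 0, nat_lit 0, nat_lit 0, nat_lit 0, nat_lit 0, nat_lit 0, [], [nat_lit 11, nat_lit 40, nat_lit 20, nat_lit 80, nat_lit 1, nat_lit 345, nat_lit 125, nat_lit 10]⟩,
 zbF0, []⟩
noncomputable def p013_l41 : Lf2 := ⟨nat_lit 0, nat_lit 5, [nat_lit 4, nat_lit 5, nat_lit 5, nat_lit 20], true, nat_lit 0, nat_lit 0, nat_lit 0, nat_lit 0, ⟨nat_lit 0, nat_lit 1000, nat_lit 0, nat_lit 6, nat_lit 108, nat_lit 0, nat_lit 0, nat_lit 0, nat_lit 0, nat_lit 0, nat_lit 0, nat_lit 0, nat_lit 0, nat_lit 0, nat_lit 0, nat_lit 5000000, false, false⟩,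
 nat_lit 0, nat_lit 9214, nat_lit 0, nat_lit 0, nat_lit 5363, nat_lit 0, nat_lit 0, nat_lit 0, nat_lit 0, nat_lit 0, nat_lit 0, nat_lit 0, nat_lit 0, nat_lit 0, nat_lit 0, nat_lit 671200, nat_lit 0, nat_lit 0, [(nat_lit 9, [(nat_lit 1, nat_lit 548), (nat_lit 2, nat_lit 452)])],
 ⟨p013_k0, nat_lit 0, nat_lit 0, nat_lit 390, nat_lit 0, nat_lit 411579, [nat_lit 2684977494, nat_lit 2621612801, nat_lit 2405231999], [], [nat_lit 24365134206, nat_lit 24274053778, nat_lit 24352020555, nat_lit 23189754833], nat_lit 1271250, nat_lit 1271250, nat_lit 134400, nat_lit 490000, nat_lit 0, nat_lit 0, [nat_lit 1100000, nat_lit 1442500, nat_lit 1271250], [nat_lit 9, nat_lit 40, nat_lit 20, nat_lit 80, nat_lit 2, nat_lit 226, nat_lit 20, nat_lit 8]⟩, C1.Rw.none,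
 ⟨nat_lit 5477, nat_lit 5917, ⟨.ofNat (nat_lit 197129), .ofNat (nat_lit 307076), .ofNat (nat_lit 218469), .ofNat (nat_lit 328416), .ofNat (nat_lit 213007), .ofNat (nat_lit 317913), .ofNat (nat_lit 234364), .ofNat (nat_lit 339271)⟩, ⟨.ofNat (nat_lit 0), .ofNat (nat_lit 0), .ofNat (nat_lit 0), .ofNat (nat_lit 0), .ofNat (nat_lit 0), .ofNat (nat_lit 0), .ofNat (nat_lit 0), .ofNat (nat_lit 0)⟩⟩, []⟩
noncomputable def p013_l42 : Lf2 := ⟨nat_lit 0, nat_lit 5, [nat_lit 4, nat_lit 5, nat_lit 5, nat_lit 20], true, nat_lit 0, nat_lit 0, nat_lit 0, nat_lit 0, ⟨nat_lit 0, nat_lit 1000, nat_lit 0, nat_lit 6, nat_lit 144, nat_lit 0, nat_lit 0, nat_lit 0, nat_lit 0, nat_lit 0, nat_lit 0, nat_lit 0, nat_lit 0, nat_lit 0, nat_lit 0, nat_lit 5000000, false, false⟩,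
 nat_lit 0, nat_lit 8523, nat_lit 0, nat_lit 0, nat_lit 4960, nat_lit 0, nat_lit 415, nat_lit 0, nat_lit 0, nat_lit 0, nat_lit 0, nat_lit 0, nat_lit 0, nat_lit 0, nat_lit 0, nat_lit 1000000, nat_lit 0, nat_lit 0, [(nat_lit 9, [(nat_lit 2, nat_lit 1000)])],
 ⟨p013_k0, nat_lit 0, nat_lit 0, nat_lit 500, nat_lit 0, nat_lit 733662, [nat_lit 2663466667, nat_lit 2329200000, nat_lit 1646800000], [], [nat_lit 22592692001, nat_lit 21691160007, nat_lit 21358135727, nat_lit 21684033047], nat_lit 1271250, nat_lit 1271250, nat_lit 490000, nat_lit 780000, nat_lit 0, nat_lit 0, [nat_lit 1100000, nat_lit 1442500, nat_lit 1271250], [nat_lit 9, nat_lit 40, nat_lit 20, nat_lit 80, nat_lit 2, nat_lit 238, nat_lit 30, nat_lit 8]⟩, C1.Rw.none,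
 ⟨nat_lit 5700, nat_lit 5917, ⟨.ofNat (nat_lit 307076), .ofNat (nat_lit 385610), .ofNat (nat_lit 328416), .ofNat (nat_lit 406949), .ofNat (nat_lit 312525), .ofNat (nat_lit 389244), .ofNat (nat_lit 333867), .ofNat (nat_lit 410586)⟩, ⟨.ofNat (nat_lit 0), .ofNat (nat_lit 0), .ofNat (nat_lit 0), .ofNat (nat_lit 0), .ofNat (nat_lit 0), .ofNat (nat_lit 0), .ofNat (nat_lit 0), .ofNat (nat_lit 0)⟩⟩, []⟩
noncomputable def p013_l43 : Lf2 := ⟨nat_lit 0, nat_lit 5, [nat_lit 4, nat_lit 5, nat_lit 5, nat_lit 20], true, nat_lit 0, nat_lit 0, nat_lit 0, nat_lit 0, ⟨nat_lit 0, nat_lit 1000, nat_lit 0, nat_lit 6, nat_lit 146, nat_lit 0, nat_lit 0, nat_lit 0, nat_lit 0, nat_lit 0, nat_lit 0, nat_lit 0, nat_lit 0, nat_lit 0, nat_lit 0, nat_lit 5000000, false, false⟩,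
 nat_lit 0, nat_lit 9022, nat_lit 0, nat_lit 0, nat_lit 5494, nat_lit 0, nat_lit 649, nat_lit 0, nat_lit 0, nat_lit 0, nat_lit 0, nat_lit 0, nat_lit 0, nat_lit 0, nat_lit 0, nat_lit 400000, nat_lit 0, nat_lit 0, [(nat_lit 9, [(nat_lit 1, nat_lit 1000)])],
 ⟨p013_k2, nat_lit 0, nat_lit 0, nat_lit 519, nat_lit 0, nat_lit 776546, [nat_lit 2702720000, nat_lit 2862800001, nat_lit 3030799999], [], [nat_lit 20719956174, nat_lit 20584351702, nat_lit 21555892200, nat_lit 20495775176], nat_lit 1271250, nat_lit 1271250, nat_lit 490000, nat_lit 780000, nat_lit 0, nat_lit 0, [nat_lit 1100000, nat_lit 1442500, nat_lit 1271250], [nat_lit 9, nat_lit 40, nat_lit 20, nat_lit 80, nat_lit 2, nat_lit 238, nat_lit 30, nat_lit 8]⟩, C1.Rw.none,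
 ⟨nat_lit 5477, nat_lit 5701, ⟨.ofNat (nat_lit 312525), .ofNat (nat_lit 389244), .ofNat (nat_lit 333867), .ofNat (nat_lit 410586), .ofNat (nat_lit 317913), .ofNat (nat_lit 392847), .ofNat (nat_lit 339271), .ofNat (nat_lit 414204)⟩, ⟨.ofNat (nat_lit 0), .ofNat (nat_lit 0), .ofNat (nat_lit 0), .ofNat (nat_lit 0), .ofNat (nat_lit 0), .ofNat (nat_lit 0), .ofNat (nat_lit 0), .ofNat (nat_lit 0)⟩⟩, []⟩
noncomputable def p013_l44 : Lf2 := ⟨nat_lit 0, nat_lit 5, [nat_lit 4, nat_lit 5, nat_lit 5, nat_lit 20], false, nat_lit 0, nat_lit 0, nat_lit 0, nat_lit 0, ⟨nat_lit 1000, nat_lit 0, nat_lit 0, nat_lit 0, nat_lit 0, nat_lit 0, nat_lit 0, nat_lit 0, nat_lit 0, nat_lit 0, nat_lit 0, nat_lit 0, nat_lit 0, nat_lit 0, nat_lit 0, nat_lit 0, false, false⟩,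
 nat_lit 0, nat_lit 13149, nat_lit 0, nat_lit 0, nat_lit 7653, nat_lit 8990, nat_lit 1666, nat_lit 0, nat_lit 0, nat_lit 3434, nat_lit 0, nat_lit 0, nat_lit 0, nat_lit 0, nat_lit 0, nat_lit 0, nat_lit 0, nat_lit 0, [],
 ⟨p013_k0, nat_lit 0, nat_lit 0, nat_lit 522, nat_lit 0, nat_lit 826750, [nat_lit 4688000000, nat_lit 6250000000, nat_lit 7968000000], [], [nat_lit 29324269158, nat_lit 25490735154, nat_lit 34218316750, nat_lit 30612177232], nat_lit 1271250, nat_lit 1271250, nat_lit 780000, nat_lit 1762500, nat_lit 0, nat_lit 0, [nat_lit 1100000, nat_lit 1442500, nat_lit 1271250], [nat_lit 9, nat_lit 40, nat_lit 20, nat_lit 80, nat_lit 2, nat_lit 272, nat_lit 60, nat_lit 9]⟩, ⟨p013_k8, nat_lit 0, nat_lit 0, nat_lit 146, nat_lit 0, nat_lit 0, [nat_lit 4688000000, nat_lit 6250000000, nat_lit 9842000000], [], [nat_lit 13958123780, nat_lit 15859298640, nat_lit 19579013360, nat_lit 21424781220],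 nat_lit 0, nat_lit 0, nat_lit 0, nat_lit 0, nat_lit 0, nat_lit 0, [], [nat_lit 11, nat_lit 40, nat_lit 20, nat_lit 80, nat_lit 1, nat_lit 345, nat_lit 125, nat_lit 10]⟩,
 zbF0, []⟩
noncomputable def p013_l45 : Lf2 := ⟨nat_lit 0, nat_lit 5, [nat_lit 4, nat_lit 5, nat_lit 5, nat_lit 20], false, nat_lit 0, nat_lit 0, nat_lit 0, nat_lit 0, ⟨nat_lit 1000, nat_lit 0, nat_lit 0, nat_lit 0, nat_lit 0, nat_lit 0, nat_lit 0, nat_lit 0, nat_lit 0, nat_lit 0, nat_lit 0, nat_lit 0, nat_lit 0, nat_lit 0, nat_lit 0, nat_lit 0, false, false⟩,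
 nat_lit 0, nat_lit 11354, nat_lit 0, nat_lit 0, nat_lit 6609, nat_lit 5957, nat_lit 2498, nat_lit 0, nat_lit 0, nat_lit 2017, nat_lit 0, nat_lit 0, nat_lit 0, nat_lit 0, nat_lit 0, nat_lit 0, nat_lit 0, nat_lit 0, [],
 ⟨p013_k7, nat_lit 0, nat_lit 0, nat_lit 657, nat_lit 0, nat_lit 1204563, [nat_lit 4688000000, nat_lit 7968000000], [], [nat_lit 32226400374, nat_lit 32645458168, nat_lit 37034445044, nat_lit 37313531552], nat_lit 1271250, nat_lit 1271250, nat_lit 1271250, nat_lit 1271250, nat_lit 0, nat_lit 0, [nat_lit 1100000, nat_lit 1785000], [nat_lit 39, nat_lit 40, nat_lit 20, nat_lit 80, nat_lit 7, nat_lit 250, nat_lit 0, nat_lit 8]⟩, ⟨p013_k10, nat_lit 0, nat_lit 0, nat_lit 225, nat_lit 0, nat_lit 0, [nat_lit 4688000000, nat_lit 7968000000, nat_lit 9842000000], [], [nat_lit 26464225360, nat_lit 27568020812, nat_lit 37119220988, nat_lit 37825771740], nat_lit 0, nat_lit 0, nat_lit 0, nat_lit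 0, nat_lit 0, nat_lit 0, [], [nat_lit 29, nat_lit 40, nat_lit 20, nat_lit 80, nat_lit 17, nat_lit 401, nat_lit 175, nat_lit 11]⟩,
 zbF0, []⟩
noncomputable def p013_l46 : Lf2 := ⟨nat_lit 0, nat_lit 5, [nat_lit 4, nat_lit 5, nat_lit 5, nat_lit 20], false, nat_lit 0, nat_lit 0, nat_lit 0, nat_lit 0, ⟨nat_lit 161, nat_lit 839, nat_lit 0, nat_lit 6, nat_lit 169, nat_lit 0, nat_lit 0, nat_lit 0, nat_lit 0, nat_lit 0, nat_lit 0, nat_lit 0, nat_lit 0, nat_lit 0, nat_lit 0, nat_lit 5000000, false, false⟩,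
 nat_lit 4209, nat_lit 989, nat_lit 0, nat_lit 0, nat_lit 3025, nat_lit 2228, nat_lit 21, nat_lit 0, nat_lit 0, nat_lit 112, nat_lit 0, nat_lit 0, nat_lit 0, nat_lit 0, nat_lit 0, nat_lit 839000, nat_lit 0, nat_lit 0, [(nat_lit 9, [(nat_lit 2, nat_lit 839)])],
 ⟨p013_k0, nat_lit 0, nat_lit 0, nat_lit 445, nat_lit 0, nat_lit 553406, [nat_lit 2989416534, nat_lit 2960448800, nat_lit 2658234200], [], [nat_lit 30068956252, nat_lit 30396452755, nat_lit 35782893836, nat_lit 35089001186], nat_lit 1271250, nat_lit 1271250, nat_lit 134400, nat_lit 1708500, nat_lit 0, nat_lit 0, [nat_lit 1100000, nat_lit 1442500, nat_lit 1271250], [nat_lit 9, nat_lit 40, nat_lit 20, nat_lit 80, nat_lit 2, nat_lit 272, nat_lit 60, nat_lit 9]⟩, ⟨p013_k8, nat_lit 0, nat_lit 0, nat_lit 577, nat_lit 0, nat_lit 614835, [nat_lit 754768000, nat_lit 1006250000, nat_lit 1584562000], [], [nat_lit 7462333244, nat_lit 6294999380,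 nat_lit 5658908900, nat_lit 4611755292], nat_lit 1271250, nat_lit 1271250, nat_lit 134400, nat_lit 1708500, nat_lit 0, nat_lit 0, [nat_lit 1100000, nat_lit 1442500, nat_lit 1271250], [nat_lit 11, nat_lit 40, nat_lit 20, nat_lit 80, nat_lit 1, nat_lit 345, nat_lit 125, nat_lit 10]⟩,
 ⟨nat_lit 5700, nat_lit 5917, ⟨.ofNat (nat_lit 197129), .ofNat (nat_lit 621202), .ofNat (nat_lit 218469), .ofNat (nat_lit 642540), .ofNat (nat_lit 205119), .ofNat (nat_lit 619393), .ofNat (nat_lit 226461), .ofNat (nat_lit 640733)⟩, ⟨.ofNat (nat_lit 0), .ofNat (nat_lit 0), .ofNat (nat_lit 0), .ofNat (nat_lit 0), .ofNat (nat_lit 0), .ofNat (nat_lit 0), .ofNat (nat_lit 0), .ofNat (nat_lit 0)⟩⟩, []⟩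
noncomputable def p013_l47 : Lf2 := ⟨nat_lit 0, nat_lit 5, [nat_lit 4, nat_lit 5, nat_lit 5, nat_lit 20], false, nat_lit 0, nat_lit 0, nat_lit 0, nat_lit 0, ⟨nat_lit 187, nat_lit 813, nat_lit 0, nat_lit 6, nat_lit 171, nat_lit 0, nat_lit 0, nat_lit 0, nat_lit 0, nat_lit 0, nat_lit 0, nat_lit 0, nat_lit 0, nat_lit 0, nat_lit 0, nat_lit 5000000, false, false⟩,
 nat_lit 4904, nat_lit 228, nat_lit 0, nat_lit 0, nat_lit 3125, nat_lit 2596, nat_lit 502, nat_lit 0, nat_lit 0, nat_lit 126, nat_lit 0, nat_lit 0, nat_lit 0, nat_lit 0, nat_lit 0, nat_lit 325200, nat_lit 0, nat_lit 0, [(nat_lit 9, [(nat_lit 1, nat_lit 813)])],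
 ⟨p013_k2, nat_lit 0, nat_lit 0, nat_lit 451, nat_lit 0, nat_lit 570495, [nat_lit 3073967360, nat_lit 3496206401, nat_lit 3946763399], [], [nat_lit 29214795330, nat_lit 29576604811, nat_lit 35316637690, nat_lit 34599806440], nat_lit 1271250, nat_lit 1271250, nat_lit 157850, nat_lit 1710750, nat_lit 0, nat_lit 0, [nat_lit 1100000, nat_lit 1442500, nat_lit 1271250], [nat_lit 9, nat_lit 40, nat_lit 20, nat_lit 80, nat_lit 2, nat_lit 272, nat_lit 60, nat_lit 9]⟩, ⟨p013_k8, nat_lit 0, nat_lit 0, nat_lit 593, nat_lit 0, nat_lit 666229, [nat_lit 876656000, nat_lit 1168750000, nat_lit 1840454000], [], [nat_lit 8401194868, nat_lit 7043102660, nat_lit 6593090020, nat_lit 5370099344], nat_lit 1271250, nat_lit 1271250, nat_lit 157850, nat_lit 1710750, nat_lit 0, nat_lit 0, [nat_lit 1100000, nat_lit 1442500, nat_lit 1271250], [nat_lit 11, nat_lit 40, nat_lit 20, nat_lit 80, nat_lit 1, nat_lit 345, nat_lit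 125, nat_lit 10]⟩,
 ⟨nat_lit 5477, nat_lit 5701, ⟨.ofNat (nat_lit 212791), .ofNat (nat_lit 619394), .ofNat (nat_lit 234133), .ofNat (nat_lit 640734), .ofNat (nat_lit 220501), .ofNat (nat_lit 617638), .ofNat (nat_lit 241858), .ofNat (nat_lit 638993)⟩, ⟨.ofNat (nat_lit 0), .ofNat (nat_lit 0), .ofNat (nat_lit 0), .ofNat (nat_lit 0), .ofNat (nat_lit 0), .ofNat (nat_lit 0), .ofNat (nat_lit 0), .ofNat (nat_lit 0)⟩⟩, []⟩
noncomputable def p013_l48 : Lf2 := ⟨nat_lit 0, nat_lit 5, [nat_lit 4, nat_lit 5, nat_lit 5, nat_lit 20], false, nat_lit 0, nat_lit 0, nat_lit 0, nat_lit 0, ⟨nat_lit 1000, nat_lit 0, nat_lit 0, nat_lit 0, nat_lit 0, nat_lit 0, nat_lit 0, nat_lit 0, nat_lit 0, nat_lit 0, nat_lit 0, nat_lit 0, nat_lit 0, nat_lit 0, nat_lit 0, nat_lit 0, false, false⟩,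
 nat_lit 13879, nat_lit 0, nat_lit 0, nat_lit 0, nat_lit 8078, nat_lit 7347, nat_lit 283, nat_lit 0, nat_lit 0, nat_lit 1636, nat_lit 0, nat_lit 0, nat_lit 0, nat_lit 0, nat_lit 0, nat_lit 0, nat_lit 0, nat_lit 0, [],
 ⟨p013_k0, nat_lit 0, nat_lit 0, nat_lit 418, nat_lit 0, nat_lit 599664, [nat_lit 4688000000, nat_lit 6250000000, nat_lit 7968000000], [], [nat_lit 31031837365, nat_lit 31821929377, nat_lit 40098435912, nat_lit 41155936048], nat_lit 1271250, nat_lit 1271250, nat_lit 1271250, nat_lit 1271250, nat_lit 0, nat_lit 0, [nat_lit 1100000, nat_lit 1442500, nat_lit 1271250], [nat_lit 9, nat_lit 40, nat_lit 20, nat_lit 80, nat_lit 2, nat_lit 203, nat_lit 0, nat_lit 6]⟩, ⟨p013_k8, nat_lit 0, nat_lit 0, nat_lit 491, nat_lit 0, nat_lit 666229, [nat_lit 4688000000, nat_lit 6250000000, nat_lit 9842000000], [], [nat_lit 32347375984, nat_lit 32791468348, nat_lit 38063038404, nat_lit 38382254804],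 nat_lit 1271250, nat_lit 1271250, nat_lit 1271250, nat_lit 1271250, nat_lit 0, nat_lit 0, [nat_lit 1100000, nat_lit 1442500, nat_lit 1271250], [nat_lit 11, nat_lit 40, nat_lit 20, nat_lit 80, nat_lit 1, nat_lit 401, nat_lit 175, nat_lit 11]⟩,
 zbF0, []⟩
noncomputable def b_NL_650_600_0_3 : St := ⟨false, nat_lit 1, nat_lit 2, nat_lit 2, nat_lit 20, nat_lit 260, nat_lit 280, nat_lit 240, nat_lit 260, nat_lit 24, nat_lit 400, nat_lit 0, nat_lit 0, nat_lit 0, nat_lit 0, nat_lit 0, nat_lit 0, nat_lit 0, nat_lit 40, nat_lit 0, nat_lit 0, nat_lit 0, nat_lit 0⟩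
theorem d_NL_650_600_0_3 (h : EB TB.env) : Dead b_NL_650_600_0_3 := chkB_sound0 h (T :=
(.st (nat_lit 1)
(.spl (nat_lit 2) (nat_lit 240)
(.spl (nat_lit 6) (nat_lit 20)
(.spl (nat_lit 2) (nat_lit 120)
(.spl (nat_lit 2) (nat_lit 80)
(.leaf p013_l37)
(.spl (nat_lit 1) (nat_lit 250)
(.leaf p013_l38)
(.leaf p013_l39)))
(.leaf p013_l40))
(.spl (nat_lit 2) (nat_lit 120)
(.spl (nat_lit 2) (nat_lit 80)
(.leaf p013_l41)
(.spl (nat_lit 0) (nat_lit 270)
(.leaf p013_l42)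
(.leaf p013_l43)))
(.leaf p013_l44)))
(.leaf p013_l45))
(.spl (nat_lit 2) (nat_lit 240)
(.spl (nat_lit 0) (nat_lit 270)
(.leaf p013_l46)
(.trZ (nat_lit 0) (nat_lit 100) (nat_lit 96) (nat_lit 54) (nat_lit 28) (.leaf p013_l47)))
(.leaf p013_l48)))) (by decide +kernel)
noncomputable def p013_l49 : Lf2 := ⟨nat_lit 0, nat_lit 5, [nat_lit 4, nat_lit 5, nat_lit 5, nat_lit 20], false, nat_lit 0, nat_lit 0, nat_lit 0, nat_lit 0, ⟨nat_lit 1000, nat_lit 0, nat_lit 0, nat_lit 0, nat_lit 0, nat_lit 0, nat_lit 0, nat_lit 0, nat_lit 0, nat_lit 0, nat_lit 0, nat_lit 0, nat_lit 0, nat_lit 0, nat_lit 0, nat_lit 0, false, false⟩,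
 nat_lit 0, nat_lit 0, nat_lit 0, nat_lit 2099, nat_lit 7228, nat_lit 6947, nat_lit 0, nat_lit 0, nat_lit 0, nat_lit 0, nat_lit 0, nat_lit 0, nat_lit 0, nat_lit 0, nat_lit 0, nat_lit 0, nat_lit 0, nat_lit 0, [],
 ⟨p013_k0, nat_lit 0, nat_lit 0, nat_lit 193, nat_lit 0, nat_lit 0, [nat_lit 4688000000, nat_lit 6250000000, nat_lit 7968000000], [], [nat_lit 24580908045, nat_lit 26652939268, nat_lit 39058412960, nat_lit 39803012368], nat_lit 0, nat_lit 0, nat_lit 0, nat_lit 0, nat_lit 0, nat_lit 0, [], [nat_lit 9, nat_lit 40, nat_lit 20, nat_lit 80, nat_lit 2, nat_lit 317, nat_lit 100, nat_lit 11]⟩, ⟨p013_k8, nat_lit 0, nat_lit 0, nat_lit 214, nat_lit 0, nat_lit 0, [nat_lit 4688000000, nat_lit 6250000000, nat_lit 9842000000], [], [nat_lit 28354818617, nat_lit 30128392788, nat_lit 41396080932, nat_lit 42040091954], nat_lit 0, nat_lit 0, nat_lit 0, nat_lit 0, nat_lit 0, nat_lit 0, [], [nat_lit 11,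 nat_lit 40, nat_lit 20, nat_lit 80, nat_lit 1, nat_lit 401, nat_lit 175, nat_lit 12]⟩,
 zbF0, [⟨nat_lit 0, nat_lit 100, nat_lit 97, nat_lit 49, nat_lit 215945412⟩]⟩
noncomputable def p013_l50 : Lf2 := ⟨nat_lit 0, nat_lit 5, [nat_lit 4, nat_lit 5, nat_lit 5, nat_lit 20], true, nat_lit 0, nat_lit 0, nat_lit 0, nat_lit 0, ⟨nat_lit 0, nat_lit 0, nat_lit 1000, nat_lit 6, nat_lit 169, nat_lit 0, nat_lit 0, nat_lit 0, nat_lit 0, nat_lit 215, nat_lit 13764, nat_lit 200, nat_lit 56835203, nat_lit 0, nat_lit 0, nat_lit 2128346, false, false⟩,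
 nat_lit 0, nat_lit 0, nat_lit 0, nat_lit 2948, nat_lit 4237, nat_lit 0, nat_lit 0, nat_lit 0, nat_lit 0, nat_lit 0, nat_lit 0, nat_lit 0, nat_lit 0, nat_lit 0, nat_lit 55, nat_lit 400000, nat_lit 0, nat_lit 0, [(nat_lit 9, [(nat_lit 5, nat_lit 1000)])],
 ⟨p013_k0, nat_lit 0, nat_lit 0, nat_lit 176, nat_lit 0, nat_lit 0, [nat_lit 2406400000, nat_lit 893600000, nat_lit 116000000], [], [nat_lit 14276816400, nat_lit 15696299005, nat_lit 17261413292, nat_lit 18372966940], nat_lit 0, nat_lit 0, nat_lit 0, nat_lit 0, nat_lit 0, nat_lit 0, [], [nat_lit 9, nat_lit 40, nat_lit 20, nat_lit 80, nat_lit 2, nat_lit 272, nat_lit 60, nat_lit 9]⟩, C1.Rw.none,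
 ⟨nat_lit 5477, nat_lit 5917, ⟨.ofNat (nat_lit 197129), .ofNat (nat_lit 621176), .ofNat (nat_lit 218469), .ofNat (nat_lit 642507), .ofNat (nat_lit 213007), .ofNat (nat_lit 617611), .ofNat (nat_lit 234364), .ofNat (nat_lit 638960)⟩, ⟨.ofNat (nat_lit 0), .ofNat (nat_lit 0), .ofNat (nat_lit 0), .ofNat (nat_lit 0), .ofNat (nat_lit 0), .ofNat (nat_lit 0), .ofNat (nat_lit 0), .ofNat (nat_lit 0)⟩⟩, []⟩
noncomputable def p013_l51 : Lf2 := ⟨nat_lit 0, nat_lit 5, [nat_lit 4, nat_lit 5, nat_lit 5, nat_lit 20], false, nat_lit 0, nat_lit 0, nat_lit 0, nat_lit 0, ⟨nat_lit 1000, nat_lit 0, nat_lit 0, nat_lit 0, nat_lit 0, nat_lit 0, nat_lit 0, nat_lit 0, nat_lit 0, nat_lit 0, nat_lit 0, nat_lit 0, nat_lit 0, nat_lit 0, nat_lit 0, nat_lit 0, false, false⟩,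
 nat_lit 0, nat_lit 0, nat_lit 13089, nat_lit 0, nat_lit 5689, nat_lit 6929, nat_lit 0, nat_lit 0, nat_lit 0, nat_lit 1530, nat_lit 0, nat_lit 0, nat_lit 0, nat_lit 0, nat_lit 0, nat_lit 0, nat_lit 0, nat_lit 0, [],
 ⟨p013_k0, nat_lit 0, nat_lit 0, nat_lit 193, nat_lit 0, nat_lit 0, [nat_lit 4688000000, nat_lit 6250000000, nat_lit 7968000000], [], [nat_lit 27883854524, nat_lit 28964324328, nat_lit 37656088866, nat_lit 38265235424], nat_lit 0, nat_lit 0, nat_lit 0, nat_lit 0, nat_lit 0, nat_lit 0, [], [nat_lit 9, nat_lit 40, nat_lit 20, nat_lit 80, nat_lit 2, nat_lit 203, nat_lit 0, nat_lit 6]⟩, ⟨p013_k8, nat_lit 0, nat_lit 0, nat_lit 466, nat_lit 0, nat_lit 590270, [nat_lit 4688000000, nat_lit 6250000000, nat_lit 9842000000], [], [nat_lit 31905265316, nat_lit 32275805594, nat_lit 37519748052, nat_lit 37903738020], nat_lit 1271250, nat_lit 1271250, nat_lit 1271250, nat_lit 1271250, nat_lit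 0, nat_lit 0, [nat_lit 1100000, nat_lit 1442500, nat_lit 1271250], [nat_lit 11, nat_lit 40, nat_lit 20, nat_lit 80, nat_lit 1, nat_lit 401, nat_lit 175, nat_lit 11]⟩,
 zbF0, []⟩
noncomputable def p013_l52 : Lf2 := ⟨nat_lit 0, nat_lit 5, [nat_lit 4, nat_lit 5, nat_lit 5, nat_lit 20], false, nat_lit 0, nat_lit 0, nat_lit 0, nat_lit 0, ⟨nat_lit 390, nat_lit 610, nat_lit 0, nat_lit 6, nat_lit 231, nat_lit 0, nat_lit 0, nat_lit 0, nat_lit 0, nat_lit 0, nat_lit 0, nat_lit 0, nat_lit 0, nat_lit 0, nat_lit 0, nat_lit 5000000, false, false⟩,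
 nat_lit 0, nat_lit 0, nat_lit 3601, nat_lit 0, nat_lit 4740, nat_lit 1906, nat_lit 0, nat_lit 0, nat_lit 0, nat_lit 527, nat_lit 0, nat_lit 0, nat_lit 0, nat_lit 0, nat_lit 0, nat_lit 244000, nat_lit 0, nat_lit 0, [(nat_lit 9, [(nat_lit 1, nat_lit 610)])],
 ⟨p013_k0, nat_lit 0, nat_lit 0, nat_lit 193, nat_lit 0, nat_lit 0, [nat_lit 3476979200, nat_lit 4183808001, nat_lit 4941097999], [], [nat_lit 22031188784, nat_lit 23415796255, nat_lit 33700024759, nat_lit 34289601039], nat_lit 0, nat_lit 0, nat_lit 0, nat_lit 0, nat_lit 0, nat_lit 0, [], [nat_lit 9, nat_lit 40, nat_lit 20, nat_lit 80, nat_lit 2, nat_lit 317, nat_lit 100, nat_lit 11]⟩, ⟨p013_k8, nat_lit 0, nat_lit 0, nat_lit 568, nat_lit 0, nat_lit 590270, [nat_lit 1828320000, nat_lit 2437500000, nat_lit 3838380000], [], [nat_lit 17386152902, nat_lit 17547441241, nat_lit 19385799160, nat_lit 18533817160], nat_lit 1271250, nat_lit 1271250,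 nat_lit 134400, nat_lit 2874500, nat_lit 0, nat_lit 0, [nat_lit 1100000, nat_lit 1442500, nat_lit 1271250], [nat_lit 11, nat_lit 40, nat_lit 20, nat_lit 80, nat_lit 1, nat_lit 401, nat_lit 175, nat_lit 12]⟩,
 ⟨nat_lit 5477, nat_lit 5917, ⟨.ofNat (nat_lit 197129), .ofNat (nat_lit 935234), .ofNat (nat_lit 218469), .ofNat (nat_lit 956565), .ofNat (nat_lit 213007), .ofNat (nat_lit 917267), .ofNat (nat_lit 234364), .ofNat (nat_lit 938616)⟩, ⟨.ofNat (nat_lit 0), .ofNat (nat_lit 0), .ofNat (nat_lit 0), .ofNat (nat_lit 0), .ofNat (nat_lit 0), .ofNat (nat_lit 0), .ofNat (nat_lit 0), .ofNat (nat_lit 0)⟩⟩, []⟩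
noncomputable def p013_l53 : Lf2 := ⟨nat_lit 0, nat_lit 5, [nat_lit 4, nat_lit 5, nat_lit 5, nat_lit 20], false, nat_lit 0, nat_lit 0, nat_lit 0, nat_lit 0, ⟨nat_lit 996, nat_lit 0, nat_lit 4, nat_lit 6, nat_lit 108, nat_lit 0, nat_lit 0, nat_lit 0, nat_lit 0, nat_lit 215, nat_lit 109350, nat_lit 296, nat_lit 62464669, nat_lit 0, nat_lit 0, nat_lit 1238126, false, false⟩,
 nat_lit 0, nat_lit 13856, nat_lit 0, nat_lit 0, nat_lit 8065, nat_lit 6922, nat_lit 2123, nat_lit 0, nat_lit 0, nat_lit 0, nat_lit 0, nat_lit 0, nat_lit 0, nat_lit 0, nat_lit 0, nat_lit 1600, nat_lit 0, nat_lit 0, [(nat_lit 9, [(nat_lit 5, nat_lit 4)])],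
 ⟨p013_k0, nat_lit 0, nat_lit 0, nat_lit 306, nat_lit 0, nat_lit 260360, [nat_lit 4675353600, nat_lit 6224174401, nat_lit 7930926400], [], [nat_lit 20939726453, nat_lit 22484990577, nat_lit 18469247270, nat_lit 19726196560], nat_lit 1271250, nat_lit 1271250, nat_lit 134400, nat_lit 490000, nat_lit 0, nat_lit 0, [nat_lit 1100000, nat_lit 1442500, nat_lit 1271250], [nat_lit 9, nat_lit 40, nat_lit 20, nat_lit 80, nat_lit 2, nat_lit 226, nat_lit 20, nat_lit 8]⟩, ⟨p013_k8, nat_lit 0, nat_lit 0, nat_lit 207, nat_lit 0, nat_lit 0, [nat_lit 4669248000, nat_lit 6225000000, nat_lit 9802632000], [], [nat_lit 28242299807, nat_lit 30010018740, nat_lit 26123254248, nat_lit 27558315112], nat_lit 0, nat_lit 0, nat_lit 0, nat_lit 0, nat_lit 0, nat_lit 0, [], [nat_lit 11, nat_lit 40, nat_lit 20, nat_lit 80, nat_lit 1, nat_lit 317, nat_lit 100, nat_lit 10]⟩,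
 ⟨nat_lit 5477, nat_lit 5917, ⟨.ofNat (nat_lit 197129), .ofNat (nat_lit 307076), .ofNat (nat_lit 218469), .ofNat (nat_lit 328416), .ofNat (nat_lit 213007), .ofNat (nat_lit 317913), .ofNat (nat_lit 234364), .ofNat (nat_lit 339271)⟩, ⟨.ofNat (nat_lit 0), .ofNat (nat_lit 0), .ofNat (nat_lit 0), .ofNat (nat_lit 0), .ofNat (nat_lit 0), .ofNat (nat_lit 0), .ofNat (nat_lit 0), .ofNat (nat_lit 0)⟩⟩, [⟨nat_lit 0, nat_lit 100, nat_lit 97, nat_lit 59, nat_lit 1167548988⟩]⟩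
noncomputable def p013_l54 : Lf2 := ⟨nat_lit 0, nat_lit 5, [nat_lit 4, nat_lit 5, nat_lit 5, nat_lit 20], false, nat_lit 0, nat_lit 0, nat_lit 0, nat_lit 0, ⟨nat_lit 1000, nat_lit 0, nat_lit 0, nat_lit 0, nat_lit 0, nat_lit 0, nat_lit 0, nat_lit 0, nat_lit 0, nat_lit 0, nat_lit 0, nat_lit 0, nat_lit 0, nat_lit 0, nat_lit 0, nat_lit 0, false, false⟩,
 nat_lit 0, nat_lit 14731, nat_lit 0, nat_lit 0, nat_lit 8574, nat_lit 7353, nat_lit 1974, nat_lit 0, nat_lit 0, nat_lit 0, nat_lit 0, nat_lit 0, nat_lit 0, nat_lit 0, nat_lit 0, nat_lit 0, nat_lit 0, nat_lit 0, [],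
 ⟨p013_k0, nat_lit 0, nat_lit 0, nat_lit 384, nat_lit 0, nat_lit 497257, [nat_lit 4688000000, nat_lit 6250000000, nat_lit 7968000000], [], [nat_lit 24733356500, nat_lit 20334644884, nat_lit 20065352480, nat_lit 19845587966], nat_lit 1271250, nat_lit 1271250, nat_lit 490000, nat_lit 780000, nat_lit 0, nat_lit 0, [nat_lit 1100000, nat_lit 1442500, nat_lit 1271250], [nat_lit 9, nat_lit 40, nat_lit 20, nat_lit 80, nat_lit 2, nat_lit 238, nat_lit 30, nat_lit 8]⟩, ⟨p013_k8, nat_lit 0, nat_lit 0, nat_lit 160, nat_lit 0, nat_lit 0, [nat_lit 4688000000, nat_lit 6250000000, nat_lit 9842000000], [], [nat_lit 25830764140, nat_lit 27318251536, nat_lit 25571958512, nat_lit 26979873402], nat_lit 0, nat_lit 0, nat_lit 0, nat_lit 0, nat_lit 0, nat_lit 0, [], [nat_lit 11, nat_lit 40, nat_lit 20, nat_lit 80, nat_lit 1, nat_lit 317, nat_lit 100, nat_lit 9]⟩,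
 zbF0, []⟩
noncomputable def p013_l55 : Lf2 := ⟨nat_lit 0, nat_lit 5, [nat_lit 4, nat_lit 5, nat_lit 5, nat_lit 20], false, nat_lit 0, nat_lit 0, nat_lit 0, nat_lit 0, ⟨nat_lit 1000, nat_lit 0, nat_lit 0, nat_lit 0, nat_lit 0, nat_lit 0, nat_lit 0, nat_lit 0, nat_lit 0, nat_lit 0, nat_lit 0, nat_lit 0, nat_lit 0, nat_lit 0, nat_lit 0, nat_lit 0, false, false⟩,
 nat_lit 0, nat_lit 7849, nat_lit 0, nat_lit 0, nat_lit 4568, nat_lit 7519, nat_lit 2171, nat_lit 0, nat_lit 0, nat_lit 0, nat_lit 0, nat_lit 0, nat_lit 0, nat_lit 0, nat_lit 0, nat_lit 0, nat_lit 0, nat_lit 0, [],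
 ⟨p013_k7, nat_lit 0, nat_lit 0, nat_lit 380, nat_lit 0, nat_lit 497257, [nat_lit 4688000000, nat_lit 7968000000], [], [nat_lit 33371567264, nat_lit 34008071664, nat_lit 48523843440, nat_lit 46481947440], nat_lit 1271250, nat_lit 1271250, nat_lit 780000, nat_lit 3072500, nat_lit 0, nat_lit 0, [nat_lit 1100000, nat_lit 1785000], [nat_lit 39, nat_lit 40, nat_lit 20, nat_lit 80, nat_lit 7, nat_lit 317, nat_lit 100, nat_lit 10]⟩, ⟨p013_k10, nat_lit 0, nat_lit 0, nat_lit 225, nat_lit 0, nat_lit 0, [nat_lit 4688000000, nat_lit 7968000000, nat_lit 9842000000], [], [nat_lit 25382503376, nat_lit 26808201846, nat_lit 41967941364, nat_lit 42622949658], nat_lit 0, nat_lit 0, nat_lit 0, nat_lit 0, nat_lit 0, nat_lit 0, [], [nat_lit 29, nat_lit 40, nat_lit 20, nat_lit 80, nat_lit 17, nat_lit 401, nat_lit 175, nat_lit 12]⟩,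
 zbF0, []⟩
noncomputable def p013_l56 : Lf2 := ⟨nat_lit 0, nat_lit 5, [nat_lit 4, nat_lit 5, nat_lit 5, nat_lit 20], false, nat_lit 0, nat_lit 0, nat_lit 0, nat_lit 0, ⟨nat_lit 22, nat_lit 0, nat_lit 978, nat_lit 6, nat_lit 121, nat_lit 0, nat_lit 0, nat_lit 0, nat_lit 0, nat_lit 215, nat_lit 138017, nat_lit 306, nat_lit 61383563, nat_lit 0, nat_lit 0, nat_lit 1440092, false, false⟩,
 nat_lit 595, nat_lit 7142, nat_lit 0, nat_lit 0, nat_lit 4503, nat_lit 315, nat_lit 0, nat_lit 0, nat_lit 0, nat_lit 32, nat_lit 0, nat_lit 0, nat_lit 0, nat_lit 0, nat_lit 46, nat_lit 391200, nat_lit 0, nat_lit 0, [(nat_lit 9, [(nat_lit 5, nat_lit 978)])],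
 ⟨p013_k0, nat_lit 0, nat_lit 0, nat_lit 290, nat_lit 0, nat_lit 218605, [nat_lit 2331955200, nat_lit 855640800, nat_lit 100926000], [], [nat_lit 15196864115, nat_lit 16168031492, nat_lit 15248088110, nat_lit 15592745424], nat_lit 1271250, nat_lit 1271250, nat_lit 134400, nat_lit 780000, nat_lit 0, nat_lit 0, [nat_lit 1100000, nat_lit 1442500, nat_lit 1271250], [nat_lit 9, nat_lit 40, nat_lit 20, nat_lit 80, nat_lit 2, nat_lit 238, nat_lit 30, nat_lit 8]⟩, ⟨p013_k8, nat_lit 0, nat_lit 0, nat_lit 356, nat_lit 0, nat_lit 244212, [nat_lit 103136000, nat_lit 137500000, nat_lit 216524000], [], [nat_lit 733349584, nat_lit 653231655, nat_lit 462513080, nat_lit 478773651], nat_lit 1271250, nat_lit 1271250, nat_lit 134400, nat_lit 780000, nat_lit 0, nat_lit 0, [nat_lit 1100000, nat_lit 1442500, nat_lit 1271250], [nat_lit 11, nat_lit 40, nat_lit 20, nat_lit 80, nat_lit 1, nat_lit 317, nat_lit 100, nat_lit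 10]⟩,
 ⟨nat_lit 5477, nat_lit 5917, ⟨.ofNat (nat_lit 197129), .ofNat (nat_lit 385610), .ofNat (nat_lit 207799), .ofNat (nat_lit 396280), .ofNat (nat_lit 213007), .ofNat (nat_lit 392847), .ofNat (nat_lit 223686), .ofNat (nat_lit 403525)⟩, ⟨.ofNat (nat_lit 0), .ofNat (nat_lit 0), .ofNat (nat_lit 0), .ofNat (nat_lit 0), .ofNat (nat_lit 0), .ofNat (nat_lit 0), .ofNat (nat_lit 0), .ofNat (nat_lit 0)⟩⟩, [⟨nat_lit 0, nat_lit 100, nat_lit 95, nat_lit 64, nat_lit 163954022⟩]⟩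
noncomputable def p013_l57 : Lf2 := ⟨nat_lit 0, nat_lit 5, [nat_lit 4, nat_lit 5, nat_lit 5, nat_lit 20], false, nat_lit 0, nat_lit 0, nat_lit 0, nat_lit 0, ⟨nat_lit 430, nat_lit 0, nat_lit 570, nat_lit 6, nat_lit 127, nat_lit 0, nat_lit 0, nat_lit 0, nat_lit 0, nat_lit 215, nat_lit 150417, nat_lit 310, nat_lit 60882162, nat_lit 0, nat_lit 0, nat_lit 1527799, false, false⟩,
 nat_lit 11024, nat_lit 0, nat_lit 0, nat_lit 0, nat_lit 6416, nat_lit 6124, nat_lit 736, nat_lit 0, nat_lit 0, nat_lit 0, nat_lit 0, nat_lit 0, nat_lit 0, nat_lit 0, nat_lit 0, nat_lit 228000, nat_lit 0, nat_lit 0, [(nat_lit 9, [(nat_lit 5, nat_lit 570)])],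
 ⟨p013_k0, nat_lit 0, nat_lit 0, nat_lit 302, nat_lit 0, nat_lit 260360, [nat_lit 2885888001, nat_lit 2569852000, nat_lit 2723190000], [], [nat_lit 17769302778, nat_lit 19160909581, nat_lit 17000128321, nat_lit 17059895840], nat_lit 1271250, nat_lit 1271250, nat_lit 157850, nat_lit 780000, nat_lit 0, nat_lit 0, [nat_lit 1100000, nat_lit 1442500, nat_lit 1271250], [nat_lit 9, nat_lit 40, nat_lit 20, nat_lit 80, nat_lit 2, nat_lit 238, nat_lit 30, nat_lit 8]⟩, ⟨p013_k15, nat_lit 0, nat_lit 0, nat_lit 299, nat_lit 0, nat_lit 274892, [nat_lit 2015840000, nat_lit 2687500000, nat_lit 3426240000], [], [nat_lit 12125328092, nat_lit 11915603319, nat_lit 8697871144, nat_lit 9124423296], nat_lit 1271250, nat_lit 1271250, nat_lit 157850, nat_lit 780000, nat_lit 0, nat_lit 0, [nat_lit 1100000, nat_lit 1442500, nat_lit 1271250], [nat_lit 9, nat_lit 40, nat_lit 20, nat_lit 80, nat_lit 2, nat_lit 238, nat_lit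 30, nat_lit 8]⟩,
 ⟨nat_lit 5477, nat_lit 5917, ⟨.ofNat (nat_lit 215652), .ofNat (nat_lit 396280), .ofNat (nat_lit 226322), .ofNat (nat_lit 406949), .ofNat (nat_lit 231179), .ofNat (nat_lit 403525), .ofNat (nat_lit 241858), .ofNat (nat_lit 414204)⟩, ⟨.ofNat (nat_lit 0), .ofNat (nat_lit 0), .ofNat (nat_lit 0), .ofNat (nat_lit 0), .ofNat (nat_lit 0), .ofNat (nat_lit 0), .ofNat (nat_lit 0), .ofNat (nat_lit 0)⟩⟩, [⟨nat_lit 0, nat_lit 100, nat_lit 97, nat_lit 62, nat_lit 592775607⟩]⟩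
noncomputable def p013_l58 : Lf2 := ⟨nat_lit 0, nat_lit 5, [nat_lit 4, nat_lit 5, nat_lit 5, nat_lit 20], false, nat_lit 0, nat_lit 0, nat_lit 0, nat_lit 0, ⟨nat_lit 1000, nat_lit 0, nat_lit 0, nat_lit 0, nat_lit 0, nat_lit 0, nat_lit 0, nat_lit 0, nat_lit 0, nat_lit 0, nat_lit 0, nat_lit 0, nat_lit 0, nat_lit 0, nat_lit 0, nat_lit 0, false, false⟩,
 nat_lit 29825, nat_lit 0, nat_lit 0, nat_lit 0, nat_lit 12671, nat_lit 15789, nat_lit 0, nat_lit 0, nat_lit 0, nat_lit 0, nat_lit 0, nat_lit 0, nat_lit 0, nat_lit 0, nat_lit 0, nat_lit 0, nat_lit 0, nat_lit 0, [],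
 ⟨p013_k7, nat_lit 0, nat_lit 0, nat_lit 243, nat_lit 0, nat_lit 260360, [nat_lit 4688000000, nat_lit 7968000000], [], [nat_lit 31966532206, nat_lit 25367754168, nat_lit 33071568490, nat_lit 27130453008], nat_lit 1271250, nat_lit 1271250, nat_lit 780000, nat_lit 1762500, nat_lit 0, nat_lit 0, [nat_lit 1100000, nat_lit 1785000], [nat_lit 39, nat_lit 40, nat_lit 20, nat_lit 80, nat_lit 7, nat_lit 272, nat_lit 60, nat_lit 9]⟩, ⟨p013_k22, nat_lit 0, nat_lit 0, nat_lit 311, nat_lit 0, nat_lit 290858, [nat_lit 4688000000, nat_lit 9842000000], [], [nat_lit 29068036080, nat_lit 30641040506, nat_lit 47801569716, nat_lit 40461232038], nat_lit 1271250, nat_lit 1271250, nat_lit 780000, nat_lit 1762500, nat_lit 0, nat_lit 0, [nat_lit 1100000, nat_lit 2127500], [nat_lit 70, nat_lit 40, nat_lit 20, nat_lit 80, nat_lit 13, nat_lit 345, nat_lit 125, nat_lit 10]⟩,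
 zbF0, []⟩
noncomputable def p013_l59 : Lf2 := ⟨nat_lit 0, nat_lit 5, [nat_lit 4, nat_lit 5, nat_lit 5, nat_lit 20], false, nat_lit 0, nat_lit 0, nat_lit 0, nat_lit 0, ⟨nat_lit 955, nat_lit 0, nat_lit 45, nat_lit 6, nat_lit 313, nat_lit 0, nat_lit 0, nat_lit 0, nat_lit 0, nat_lit 215, nat_lit 641880, nat_lit 200, nat_lit 41515380, nat_lit 0, nat_lit 0, nat_lit 3321217, true, true⟩,
 nat_lit 13567, nat_lit 0, nat_lit 0, nat_lit 529, nat_lit 7897, nat_lit 7182, nat_lit 0, nat_lit 0, nat_lit 0, nat_lit 0, nat_lit 0, nat_lit 0, nat_lit 0, nat_lit 0, nat_lit 0, nat_lit 8325, nat_lit 0, nat_lit 0, [(nat_lit 9, [(nat_lit 3, nat_lit 45)])],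
 ⟨p013_k7, nat_lit 0, nat_lit 0, nat_lit 284, nat_lit 0, nat_lit 260360, [nat_lit 6565184001, nat_lit 7574898000], [], [nat_lit 32002755675, nat_lit 32861910469, nat_lit 40239605983, nat_lit 40690008364], nat_lit 1271250, nat_lit 1271250, nat_lit 1271250, nat_lit 1271250, nat_lit 0, nat_lit 0, [nat_lit 1100000, nat_lit 1785000], [nat_lit 39, nat_lit 40, nat_lit 20, nat_lit 80, nat_lit 7, nat_lit 203, nat_lit 0, nat_lit 6]⟩, ⟨p013_k22, nat_lit 0, nat_lit 0, nat_lit 332, nat_lit 0, nat_lit 290858, [nat_lit 4477040000, nat_lit 9399110000], [], [nat_lit 36346193248, nat_lit 37104554730, nat_lit 44199637156, nat_lit 44565331916], nat_lit 1271250, nat_lit 1271250, nat_lit 1271250, nat_lit 1271250, nat_lit 0, nat_lit 0, [nat_lit 1100000, nat_lit 2127500], [nat_lit 70, nat_lit 40, nat_lit 20, nat_lit 80, nat_lit 13, nat_lit 401, nat_lit 175, nat_lit 11]⟩,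
 ⟨nat_lit 5477, nat_lit 5917, ⟨.ofNat (nat_lit 621176), .ofNat (nat_lit 935234), .ofNat (nat_lit 642507), .ofNat (nat_lit 956565), .ofNat (nat_lit 617611), .ofNat (nat_lit 917267), .ofNat (nat_lit 638960), .ofNat (nat_lit 938616)⟩, ⟨.ofNat (nat_lit 0), .ofNat (nat_lit 0), .ofNat (nat_lit 0), .ofNat (nat_lit 0), .ofNat (nat_lit 0), .ofNat (nat_lit 0), .ofNat (nat_lit 0), .ofNat (nat_lit 0)⟩⟩, [⟨nat_lit 13, nat_lit 97, nat_lit 11, nat_lit 100, nat_lit 31780021⟩]⟩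
noncomputable def p013_l60 : Lf2 := ⟨nat_lit 0, nat_lit 5, [nat_lit 4, nat_lit 5, nat_lit 5, nat_lit 20], true, nat_lit 0, nat_lit 0, nat_lit 0, nat_lit 0, ⟨nat_lit 0, nat_lit 1000, nat_lit 0, nat_lit 6, nat_lit 123, nat_lit 0, nat_lit 0, nat_lit 0, nat_lit 0, nat_lit 0, nat_lit 0, nat_lit 0, nat_lit 0, nat_lit 0, nat_lit 0, nat_lit 5000000, false, false⟩,
 nat_lit 0, nat_lit 9858, nat_lit 0, nat_lit 0, nat_lit 5738, nat_lit 0, nat_lit 369, nat_lit 0, nat_lit 0, nat_lit 0, nat_lit 0, nat_lit 0, nat_lit 0, nat_lit 0, nat_lit 0, nat_lit 400000, nat_lit 0, nat_lit 0, [(nat_lit 9, [(nat_lit 1, nat_lit 1000)])],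
 ⟨p013_k0, nat_lit 0, nat_lit 0, nat_lit 425, nat_lit 0, nat_lit 497257, [nat_lit 2702720000, nat_lit 2862800001, nat_lit 3030799999], [], [nat_lit 24082654343, nat_lit 23501057814, nat_lit 25983612376, nat_lit 23279832348], nat_lit 1271250, nat_lit 1271250, nat_lit 134400, nat_lit 780000, nat_lit 0, nat_lit 0, [nat_lit 1100000, nat_lit 1442500, nat_lit 1271250], [nat_lit 9, nat_lit 40, nat_lit 20, nat_lit 80, nat_lit 2, nat_lit 238, nat_lit 30, nat_lit 8]⟩, C1.Rw.none,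
 ⟨nat_lit 5477, nat_lit 5917, ⟨.ofNat (nat_lit 197129), .ofNat (nat_lit 385610), .ofNat (nat_lit 218469), .ofNat (nat_lit 406949), .ofNat (nat_lit 213007), .ofNat (nat_lit 392847), .ofNat (nat_lit 234364), .ofNat (nat_lit 414204)⟩, ⟨.ofNat (nat_lit 0), .ofNat (nat_lit 0), .ofNat (nat_lit 0), .ofNat (nat_lit 0), .ofNat (nat_lit 0), .ofNat (nat_lit 0), .ofNat (nat_lit 0), .ofNat (nat_lit 0)⟩⟩, []⟩
noncomputable def p013_l61 : Lf2 := ⟨nat_lit 0, nat_lit 5, [nat_lit 4, nat_lit 5, nat_lit 5, nat_lit 20], false, nat_lit 0, nat_lit 0, nat_lit 0, nat_lit 0, ⟨nat_lit 1000, nat_lit 0, nat_lit 0, nat_lit 0, nat_lit 0, nat_lit 0, nat_lit 0, nat_lit 0, nat_lit 0, nat_lit 0, nat_lit 0, nat_lit 0, nat_lit 0, nat_lit 0, nat_lit 0, nat_lit 0, false, false⟩,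
 nat_lit 0, nat_lit 7822, nat_lit 0, nat_lit 0, nat_lit 4553, nat_lit 7519, nat_lit 1756, nat_lit 0, nat_lit 0, nat_lit 0, nat_lit 0, nat_lit 0, nat_lit 0, nat_lit 0, nat_lit 0, nat_lit 0, nat_lit 0, nat_lit 0, [],
 ⟨p013_k0, nat_lit 0, nat_lit 0, nat_lit 383, nat_lit 0, nat_lit 497257, [nat_lit 4688000000, nat_lit 6250000000, nat_lit 7968000000], [], [nat_lit 34014523906, nat_lit 32247593652, nat_lit 45411965564, nat_lit 43350330740], nat_lit 1271250, nat_lit 1271250, nat_lit 780000, nat_lit 3072500, nat_lit 0, nat_lit 0, [nat_lit 1100000, nat_lit 1442500, nat_lit 1271250], [nat_lit 9, nat_lit 40, nat_lit 20, nat_lit 80, nat_lit 2, nat_lit 317, nat_lit 100, nat_lit 10]⟩, ⟨p013_k8, nat_lit 0, nat_lit 0, nat_lit 214, nat_lit 0, nat_lit 0, [nat_lit 4688000000, nat_lit 6250000000, nat_lit 9842000000], [], [nat_lit 25382503376, nat_lit 26808201846, nat_lit 41967941364, nat_lit 42622949658], nat_lit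 0, nat_lit 0, nat_lit 0, nat_lit 0, nat_lit 0, nat_lit 0, [], [nat_lit 11, nat_lit 40, nat_lit 20, nat_lit 80, nat_lit 1, nat_lit 401, nat_lit 175, nat_lit 12]⟩,
 zbF0, []⟩
noncomputable def p013_l62 : Lf2 := ⟨nat_lit 0, nat_lit 5, [nat_lit 4, nat_lit 5, nat_lit 5, nat_lit 20], false, nat_lit 0, nat_lit 0, nat_lit 0, nat_lit 0, ⟨nat_lit 68, nat_lit 932, nat_lit 0, nat_lit 6, nat_lit 169, nat_lit 0, nat_lit 0, nat_lit 0, nat_lit 0, nat_lit 0, nat_lit 0, nat_lit 0, nat_lit 0, nat_lit 0, nat_lit 0, nat_lit 5000000, false, false⟩,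
 nat_lit 2058, nat_lit 3236, nat_lit 0, nat_lit 0, nat_lit 3081, nat_lit 1089, nat_lit 0, nat_lit 0, nat_lit 0, nat_lit 0, nat_lit 0, nat_lit 0, nat_lit 0, nat_lit 0, nat_lit 0, nat_lit 372800, nat_lit 0, nat_lit 0, [(nat_lit 9, [(nat_lit 1, nat_lit 932)])],
 ⟨p013_k0, nat_lit 0, nat_lit 0, nat_lit 306, nat_lit 0, nat_lit 260360, [nat_lit 2837719041, nat_lit 3093129601, nat_lit 3363877599], [], [nat_lit 29634240269, nat_lit 29607459726, nat_lit 31734872493, nat_lit 32063799518], nat_lit 1271250, nat_lit 1271250, nat_lit 134400, nat_lit 1708500, nat_lit 0, nat_lit 0, [nat_lit 1100000, nat_lit 1442500, nat_lit 1271250], [nat_lit 9, nat_lit 40, nat_lit 20, nat_lit 80, nat_lit 2, nat_lit 272, nat_lit 60, nat_lit 9]⟩, ⟨p013_k8, nat_lit 0, nat_lit 0, nat_lit 422, nat_lit 0, nat_lit 290858, [nat_lit 318784000, nat_lit 425000000, nat_lit 669256000], [], [nat_lit 3283171372, nat_lit 2712602890, nat_lit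 2304780400, nat_lit 2112018036], nat_lit 1271250, nat_lit 1271250, nat_lit 134400, nat_lit 1708500, nat_lit 0, nat_lit 0, [nat_lit 1100000, nat_lit 1442500, nat_lit 1271250], [nat_lit 11, nat_lit 40, nat_lit 20, nat_lit 80, nat_lit 1, nat_lit 345, nat_lit 125, nat_lit 10]⟩,
 ⟨nat_lit 5477, nat_lit 5917, ⟨.ofNat (nat_lit 197129), .ofNat (nat_lit 621176), .ofNat (nat_lit 218469), .ofNat (nat_lit 642507), .ofNat (nat_lit 213007), .ofNat (nat_lit 617611), .ofNat (nat_lit 234364), .ofNat (nat_lit 638960)⟩, ⟨.ofNat (nat_lit 0), .ofNat (nat_lit 0), .ofNat (nat_lit 0), .ofNat (nat_lit 0), .ofNat (nat_lit 0), .ofNat (nat_lit 0), .ofNat (nat_lit 0), .ofNat (nat_lit 0)⟩⟩, []⟩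
noncomputable def p013_l63 : Lf2 := ⟨nat_lit 0, nat_lit 5, [nat_lit 4, nat_lit 5, nat_lit 5, nat_lit 20], false, nat_lit 0, nat_lit 0, nat_lit 0, nat_lit 0, ⟨nat_lit 1000, nat_lit 0, nat_lit 0, nat_lit 0, nat_lit 0, nat_lit 0, nat_lit 0, nat_lit 0, nat_lit 0, nat_lit 0, nat_lit 0, nat_lit 0, nat_lit 0, nat_lit 0, nat_lit 0, nat_lit 0, false, false⟩,
 nat_lit 12733, nat_lit 0, nat_lit 0, nat_lit 10512, nat_lit 7411, nat_lit 6741, nat_lit 0, nat_lit 0, nat_lit 0, nat_lit 1689, nat_lit 0, nat_lit 0, nat_lit 0, nat_lit 0, nat_lit 0, nat_lit 0, nat_lit 0, nat_lit 0, [],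
 ⟨p013_k0, nat_lit 0, nat_lit 0, nat_lit 290, nat_lit 0, nat_lit 260360, [nat_lit 4688000000, nat_lit 6250000000, nat_lit 7968000000], [], [nat_lit 31925551262, nat_lit 32762835084, nat_lit 41160599180, nat_lit 41681881732], nat_lit 1271250, nat_lit 1271250, nat_lit 1271250, nat_lit 1271250, nat_lit 0, nat_lit 0, [nat_lit 1100000, nat_lit 1442500, nat_lit 1271250], [nat_lit 9, nat_lit 40, nat_lit 20, nat_lit 80, nat_lit 2, nat_lit 203, nat_lit 0, nat_lit 6]⟩, ⟨p013_k8, nat_lit 0, nat_lit 0, nat_lit 339, nat_lit 0, nat_lit 290858, [nat_lit 4688000000, nat_lit 6250000000, nat_lit 9842000000], [], [nat_lit 28524393080, nat_lit 29160257998, nat_lit 36171072714, nat_lit 36676213304], nat_lit 1271250, nat_lit 1271250, nat_lit 1271250, nat_lit 1271250, nat_lit 0, nat_lit 0, [nat_lit 1100000, nat_lit 1442500, nat_lit 1271250], [nat_lit 11, nat_lit 40, nat_lit 20, nat_lit 80, nat_lit 1, nat_lit 401,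 nat_lit 175, nat_lit 11]⟩,
 zbF0, [⟨nat_lit 13, nat_lit 97, nat_lit 11, nat_lit 100, nat_lit 48651335⟩]⟩
noncomputable def b_NL_650_600_0_4 : St := ⟨false, nat_lit 2, nat_lit 2, nat_lit 0, nat_lit 20, nat_lit 260, nat_lit 280, nat_lit 240, nat_lit 260, nat_lit 24, nat_lit 400, nat_lit 0, nat_lit 0, nat_lit 0, nat_lit 0, nat_lit 0, nat_lit 0, nat_lit 40, nat_lit 68, nat_lit 0, nat_lit 0, nat_lit 0, nat_lit 0⟩
theorem d_NL_650_600_0_4 (h : EB TB.env) : Dead b_NL_650_600_0_4 := chkB_sound0 h (T :=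
(.st (nat_lit 0)
(.gv
(.st (nat_lit 1)
(.leaf p013_l49)
(.spl (nat_lit 2) (nat_lit 240)
(.leaf p013_l50)
(.leaf p013_l51)))
(.leaf p013_l52))
(.gv
(.st (nat_lit 1)
(.spl (nat_lit 2) (nat_lit 120)
(.spl (nat_lit 2) (nat_lit 80)
(.leaf p013_l53)
(.leaf p013_l54))
(.leaf p013_l55))
(.spl (nat_lit 2) (nat_lit 120)
(.spl (nat_lit 1) (nat_lit 250)
(.leaf p013_l56)
(.trZ (nat_lit 0) (nat_lit 100) (nat_lit 99) (nat_lit 55) (nat_lit 28) (.leaf p013_l57)))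
(.spl (nat_lit 2) (nat_lit 240)
(.leaf p013_l58)
(.leaf p013_l59))))
(.st (nat_lit 1)
(.spl (nat_lit 2) (nat_lit 120)
(.leaf p013_l60)
(.leaf p013_l61))
(.spl (nat_lit 2) (nat_lit 240)
(.leaf p013_l62)
(.leaf p013_l63)))))) (by decide +kernel)
noncomputable def p013_l64 : Lf2 := ⟨nat_lit 0, nat_lit 5, [nat_lit 4, nat_lit 5, nat_lit 5, nat_lit 20], false, nat_lit 0, nat_lit 0, nat_lit 0, nat_lit 0, ⟨nat_lit 1000, nat_lit 0, nat_lit 0, nat_lit 0, nat_lit 0, nat_lit 0, nat_lit 0, nat_lit 0, nat_lit 0, nat_lit 0, nat_lit 0, nat_lit 0, nat_lit 0, nat_lit 0, nat_lit 0, nat_lit 0, false, false⟩,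
 nat_lit 0, nat_lit 0, nat_lit 0, nat_lit 0, nat_lit 0, nat_lit 3583, nat_lit 0, nat_lit 0, nat_lit 0, nat_lit 0, nat_lit 0, nat_lit 0, nat_lit 0, nat_lit 0, nat_lit 0, nat_lit 0, nat_lit 0, nat_lit 0, [],
 ⟨p013_k7, nat_lit 0, nat_lit 0, nat_lit 183, nat_lit 0, nat_lit 0, [nat_lit 4688000000, nat_lit 7968000000], [], [nat_lit 29682980400, nat_lit 30366568800, nat_lit 39345756000, nat_lit 39837584000], nat_lit 0, nat_lit 0, nat_lit 0, nat_lit 0, nat_lit 0, nat_lit 0, [], [nat_lit 39, nat_lit 40, nat_lit 20, nat_lit 80, nat_lit 7, nat_lit 317, nat_lit 100, nat_lit 11]⟩, ⟨p013_k7, nat_lit 0, nat_lit 0, nat_lit 183, nat_lit 0, nat_lit 0, [nat_lit 4688000000, nat_lit 7968000000], [], [nat_lit 26800723476, nat_lit 28006753405, nat_lit 38281583502, nat_lit 38847300128], nat_lit 0, nat_lit 0, nat_lit 0, nat_lit 0, nat_lit 0, nat_lit 0, [], [nat_lit 39, nat_lit 40, nat_lit 20, nat_lit 80, nat_lit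 7, nat_lit 317, nat_lit 100, nat_lit 11]⟩,
 zbF0, [⟨nat_lit 0, nat_lit 100, nat_lit 100, nat_lit 70, nat_lit 262975254⟩]⟩
noncomputable def p013_l65 : Lf2 := ⟨nat_lit 0, nat_lit 5, [nat_lit 4, nat_lit 5, nat_lit 5, nat_lit 20], true, nat_lit 0, nat_lit 0, nat_lit 0, nat_lit 0, ⟨nat_lit 0, nat_lit 101, nat_lit 899, nat_lit 6, nat_lit 182, nat_lit 0, nat_lit 0, nat_lit 0, nat_lit 0, nat_lit 215, nat_lit 56426, nat_lit 200, nat_lit 55476690, nat_lit 11523310, nat_lit 0, nat_lit 2295134, false, false⟩,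
 nat_lit 0, nat_lit 0, nat_lit 0, nat_lit 0, nat_lit 4413, nat_lit 0, nat_lit 0, nat_lit 0, nat_lit 0, nat_lit 0, nat_lit 0, nat_lit 0, nat_lit 0, nat_lit 6670626483261, nat_lit 35, nat_lit 384850, nat_lit 0, nat_lit 0, [(nat_lit 9, [(nat_lit 0, nat_lit 101), (nat_lit 5, nat_lit 899)])],
 ⟨p013_k7, nat_lit 0, nat_lit 0, nat_lit 153, nat_lit 0, nat_lit 0, [nat_lit 2247030400, nat_lit 9734800], [], [nat_lit 14333815428, nat_lit 15660868653, nat_lit 17588365308, nat_lit 18557777176], nat_lit 0, nat_lit 0, nat_lit 0, nat_lit 0, nat_lit 0, nat_lit 0, [], [nat_lit 39, nat_lit 40, nat_lit 20, nat_lit 80, nat_lit 7, nat_lit 272, nat_lit 60, nat_lit 9]⟩, C1.Rw.none,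
 ⟨nat_lit 5477, nat_lit 5917, ⟨.ofNat (nat_lit 242029), .ofNat (nat_lit 642507), .ofNat (nat_lit 263368), .ofNat (nat_lit 663838), .ofNat (nat_lit 256844), .ofNat (nat_lit 638960), .ofNat (nat_lit 278201), .ofNat (nat_lit 660309)⟩, ⟨.ofNat (nat_lit 0), .ofNat (nat_lit 0), .ofNat (nat_lit 0), .ofNat (nat_lit 0), .ofNat (nat_lit 0), .ofNat (nat_lit 0), .ofNat (nat_lit 0), .ofNat (nat_lit 0)⟩⟩, []⟩
noncomputable def p013_l66 : Lf2 := ⟨nat_lit 0, nat_lit 5, [nat_lit 4, nat_lit 5, nat_lit 5, nat_lit 20], false, nat_lit 0, nat_lit 0, nat_lit 0, nat_lit 0, ⟨nat_lit 665, nat_lit 335, nat_lit 0, nat_lit 6, nat_lit 320, nat_lit 0, nat_lit 0, nat_lit 0, nat_lit 0, nat_lit 0, nat_lit 0, nat_lit 0, nat_lit 40873710, nat_lit 26126290, nat_lit 0, nat_lit 3343615, true, true⟩,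
 nat_lit 0, nat_lit 0, nat_lit 7791, nat_lit 0, nat_lit 5143, nat_lit 4534, nat_lit 1389, nat_lit 0, nat_lit 0, nat_lit 1472, nat_lit 0, nat_lit 0, nat_lit 0, nat_lit 0, nat_lit 0, nat_lit 335000, nat_lit 0, nat_lit 0, [(nat_lit 9, [(nat_lit 2, nat_lit 335)])],
 ⟨p013_k7, nat_lit 0, nat_lit 0, nat_lit 183, nat_lit 0, nat_lit 0, [nat_lit 4176522000, nat_lit 5800282000], [], [nat_lit 23556260788, nat_lit 24589208936, nat_lit 32847208142, nat_lit 33476168088], nat_lit 0, nat_lit 0, nat_lit 0, nat_lit 0, nat_lit 0, nat_lit 0, [], [nat_lit 39, nat_lit 40, nat_lit 20, nat_lit 80, nat_lit 7, nat_lit 203, nat_lit 0, nat_lit 6]⟩, ⟨p013_k7, nat_lit 0, nat_lit 0, nat_lit 728, nat_lit 0, nat_lit 1334152, [nat_lit 3117520000, nat_lit 5298720000], [], [nat_lit 22301110620, nat_lit 22388422142, nat_lit 24791624432, nat_lit 24861352936], nat_lit 1271250, nat_lit 1271250, nat_lit 1271250, nat_lit 1271250,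 nat_lit 0, nat_lit 0, [nat_lit 1100000, nat_lit 1785000], [nat_lit 39, nat_lit 40, nat_lit 20, nat_lit 80, nat_lit 7, nat_lit 266, nat_lit 0, nat_lit 8]⟩,
 ⟨nat_lit 5477, nat_lit 5917, ⟨.ofNat (nat_lit 642507), .ofNat (nat_lit 956565), .ofNat (nat_lit 653173), .ofNat (nat_lit 967231), .ofNat (nat_lit 638960), .ofNat (nat_lit 938616), .ofNat (nat_lit 649634), .ofNat (nat_lit 949290)⟩, ⟨.ofNat (nat_lit 0), .ofNat (nat_lit 0), .ofNat (nat_lit 0), .ofNat (nat_lit 0), .ofNat (nat_lit 0), .ofNat (nat_lit 0), .ofNat (nat_lit 0), .ofNat (nat_lit 0)⟩⟩, []⟩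
noncomputable def p013_l67 : Lf2 := ⟨nat_lit 0, nat_lit 5, [nat_lit 4, nat_lit 5, nat_lit 5, nat_lit 20], false, nat_lit 0, nat_lit 0, nat_lit 0, nat_lit 0, ⟨nat_lit 940, nat_lit 60, nat_lit 0, nat_lit 6, nat_lit 323, nat_lit 0, nat_lit 0, nat_lit 0, nat_lit 0, nat_lit 0, nat_lit 0, nat_lit 0, nat_lit 40554841, nat_lit 26445159, nat_lit 0, nat_lit 3354028, true, true⟩,
 nat_lit 0, nat_lit 0, nat_lit 10454, nat_lit 0, nat_lit 5217, nat_lit 6366, nat_lit 2753, nat_lit 0, nat_lit 0, nat_lit 1452, nat_lit 0, nat_lit 0, nat_lit 0, nat_lit 0, nat_lit 0, nat_lit 24000, nat_lit 0, nat_lit 0, [(nat_lit 9, [(nat_lit 1, nat_lit 60)])],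
 ⟨p013_k13, nat_lit 0, nat_lit 0, nat_lit 183, nat_lit 0, nat_lit 0, [nat_lit 4571288001, nat_lit 7668888000], [], [nat_lit 22670241759, nat_lit 23287350542, nat_lit 33317942138, nat_lit 33672250950], nat_lit 0, nat_lit 0, nat_lit 0, nat_lit 0, nat_lit 0, nat_lit 0, [], [nat_lit 39, nat_lit 40, nat_lit 20, nat_lit 80, nat_lit 7, nat_lit 203, nat_lit 0, nat_lit 6]⟩, ⟨p013_k13, nat_lit 0, nat_lit 0, nat_lit 727, nat_lit 0, nat_lit 1335265, [nat_lit 4406720000, nat_lit 7489920000], [], [nat_lit 31727658206, nat_lit 31882271896, nat_lit 35392108354, nat_lit 35491095520], nat_lit 1271250, nat_lit 1271250, nat_lit 1271250, nat_lit 1271250, nat_lit 0, nat_lit 0, [nat_lit 1100000, nat_lit 1785000], [nat_lit 39, nat_lit 40, nat_lit 20, nat_lit 80, nat_lit 7, nat_lit 267, nat_lit 0, nat_lit 8]⟩,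
 ⟨nat_lit 5477, nat_lit 5701, ⟨.ofNat (nat_lit 651404), .ofNat (nat_lit 958262), .ofNat (nat_lit 662074), .ofNat (nat_lit 968932), .ofNat (nat_lit 649670), .ofNat (nat_lit 949385), .ofNat (nat_lit 660348), .ofNat (nat_lit 960062)⟩, ⟨.ofNat (nat_lit 0), .ofNat (nat_lit 0), .ofNat (nat_lit 0), .ofNat (nat_lit 0), .ofNat (nat_lit 0), .ofNat (nat_lit 0), .ofNat (nat_lit 0), .ofNat (nat_lit 0)⟩⟩, []⟩
noncomputable def p013_l68 : Lf2 := ⟨nat_lit 0, nat_lit 5, [nat_lit 4, nat_lit 5, nat_lit 5, nat_lit 20], false, nat_lit 0, nat_lit 0, nat_lit 0, nat_lit 0, ⟨nat_lit 426, nat_lit 574, nat_lit 0, nat_lit 6, nat_lit 244, nat_lit 0, nat_lit 0, nat_lit 0, nat_lit 0, nat_lit 0, nat_lit 0, nat_lit 0, nat_lit 0, nat_lit 0, nat_lit 0, nat_lit 5000000, false, false⟩,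
 nat_lit 0, nat_lit 0, nat_lit 0, nat_lit 0, nat_lit 0, nat_lit 0, nat_lit 0, nat_lit 0, nat_lit 0, nat_lit 0, nat_lit 0, nat_lit 0, nat_lit 0, nat_lit 0, nat_lit 0, nat_lit 143500, nat_lit 0, nat_lit 0, [(nat_lit 9, [(nat_lit 0, nat_lit 574)])],
 ⟨p013_k7, nat_lit 0, nat_lit 0, nat_lit 183, nat_lit 0, nat_lit 0, [nat_lit 3786131201, nat_lit 5319793600], [], [nat_lit 26132905201, nat_lit 26816493601, nat_lit 35795680801, nat_lit 36287508801], nat_lit 0, nat_lit 0, nat_lit 0, nat_lit 0, nat_lit 0, nat_lit 0, [], [nat_lit 39, nat_lit 40, nat_lit 20, nat_lit 80, nat_lit 7, nat_lit 317, nat_lit 100, nat_lit 11]⟩, ⟨p013_k7, nat_lit 0, nat_lit 0, nat_lit 183, nat_lit 0, nat_lit 0, [nat_lit 1997088000, nat_lit 3394368000], [], [nat_lit 12644949651, nat_lit 12936158309, nat_lit 16761292056, nat_lit 16970810784], nat_lit 0, nat_lit 0, nat_lit 0, nat_lit 0, nat_lit 0, nat_lit 0, [], [nat_lit 39, nat_lit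 40, nat_lit 20, nat_lit 80, nat_lit 7, nat_lit 317, nat_lit 100, nat_lit 11]⟩,
 ⟨nat_lit 5477, nat_lit 5917, ⟨.ofNat (nat_lit 242029), .ofNat (nat_lit 956565), .ofNat (nat_lit 263368), .ofNat (nat_lit 977896), .ofNat (nat_lit 256844), .ofNat (nat_lit 938616), .ofNat (nat_lit 278201), .ofNat (nat_lit 959965)⟩, ⟨.ofNat (nat_lit 0), .ofNat (nat_lit 0), .ofNat (nat_lit 0), .ofNat (nat_lit 0), .ofNat (nat_lit 0), .ofNat (nat_lit 0), .ofNat (nat_lit 0), .ofNat (nat_lit 0)⟩⟩, [⟨nat_lit 13, nat_lit 96, nat_lit 11, nat_lit 100, nat_lit 4911292⟩]⟩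
noncomputable def p013_l69 : Lf2 := ⟨nat_lit 0, nat_lit 5, [nat_lit 4, nat_lit 5, nat_lit 5, nat_lit 20], false, nat_lit 0, nat_lit 0, nat_lit 0, nat_lit 0, ⟨nat_lit 352, nat_lit 648, nat_lit 0, nat_lit 6, nat_lit 242, nat_lit 0, nat_lit 0, nat_lit 0, nat_lit 0, nat_lit 0, nat_lit 0, nat_lit 0, nat_lit 0, nat_lit 0, nat_lit 0, nat_lit 5000000, false, false⟩,
 nat_lit 0, nat_lit 0, nat_lit 3480, nat_lit 0, nat_lit 4914, nat_lit 2025, nat_lit 0, nat_lit 0, nat_lit 0, nat_lit 710, nat_lit 0, nat_lit 0, nat_lit 0, nat_lit 0, nat_lit 0, nat_lit 648000, nat_lit 0, nat_lit 0, [(nat_lit 9, [(nat_lit 2, nat_lit 648)])],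
 ⟨p013_k7, nat_lit 0, nat_lit 0, nat_lit 183, nat_lit 0, nat_lit 0, [nat_lit 3698633600, nat_lit 3812092800], [], [nat_lit 20584759402, nat_lit 21984864039, nat_lit 32740994916, nat_lit 33334159424], nat_lit 0, nat_lit 0, nat_lit 0, nat_lit 0, nat_lit 0, nat_lit 0, [], [nat_lit 39, nat_lit 40, nat_lit 20, nat_lit 80, nat_lit 7, nat_lit 317, nat_lit 100, nat_lit 11]⟩, ⟨p013_k7, nat_lit 0, nat_lit 0, nat_lit 800, nat_lit 0, nat_lit 1334152, [nat_lit 1650176000, nat_lit 2804736000], [], [nat_lit 14729263801, nat_lit 14788548593, nat_lit 15829958224, nat_lit 15388563463], nat_lit 1271250, nat_lit 1271250, nat_lit 205650, nat_lit 2899250, nat_lit 0, nat_lit 0, [nat_lit 1100000, nat_lit 1785000], [nat_lit 39, nat_lit 40, nat_lit 20, nat_lit 80, nat_lit 7, nat_lit 317, nat_lit 100, nat_lit 11]⟩,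
 ⟨nat_lit 5477, nat_lit 5917, ⟨.ofNat (nat_lit 242029), .ofNat (nat_lit 956565), .ofNat (nat_lit 252698), .ofNat (nat_lit 967231), .ofNat (nat_lit 256844), .ofNat (nat_lit 938616), .ofNat (nat_lit 267523), .ofNat (nat_lit 949290)⟩, ⟨.ofNat (nat_lit 0), .ofNat (nat_lit 0), .ofNat (nat_lit 0), .ofNat (nat_lit 0), .ofNat (nat_lit 0), .ofNat (nat_lit 0), .ofNat (nat_lit 0), .ofNat (nat_lit 0)⟩⟩, [⟨nat_lit 13, nat_lit 99, nat_lit 3, nat_lit 100, nat_lit 34566848⟩]⟩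
noncomputable def p013_l70 : Lf2 := ⟨nat_lit 0, nat_lit 5, [nat_lit 4, nat_lit 5, nat_lit 5, nat_lit 20], false, nat_lit 0, nat_lit 0, nat_lit 0, nat_lit 0, ⟨nat_lit 442, nat_lit 558, nat_lit 0, nat_lit 6, nat_lit 250, nat_lit 0, nat_lit 0, nat_lit 0, nat_lit 0, nat_lit 0, nat_lit 0, nat_lit 0, nat_lit 0, nat_lit 0, nat_lit 0, nat_lit 5000000, false, false⟩,
 nat_lit 0, nat_lit 0, nat_lit 4266, nat_lit 0, nat_lit 4812, nat_lit 2597, nat_lit 822, nat_lit 0, nat_lit 0, nat_lit 607, nat_lit 0, nat_lit 0, nat_lit 0, nat_lit 0, nat_lit 0, nat_lit 223200, nat_lit 0, nat_lit 0, [(nat_lit 9, [(nat_lit 1, nat_lit 558)])],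
 ⟨p013_k13, nat_lit 0, nat_lit 0, nat_lit 183, nat_lit 0, nat_lit 0, [nat_lit 3602578401, nat_lit 5186258400], [], [nat_lit 20296823773, nat_lit 20983245021, nat_lit 32300205461, nat_lit 32610068192], nat_lit 0, nat_lit 0, nat_lit 0, nat_lit 0, nat_lit 0, nat_lit 0, [], [nat_lit 39, nat_lit 40, nat_lit 20, nat_lit 80, nat_lit 7, nat_lit 317, nat_lit 100, nat_lit 11]⟩, ⟨p013_k13, nat_lit 0, nat_lit 0, nat_lit 792, nat_lit 0, nat_lit 1335265, [nat_lit 2072096000, nat_lit 3521856000], [], [nat_lit 17795946152, nat_lit 17884150710, nat_lit 19561332064, nat_lit 18998115128], nat_lit 1271250, nat_lit 1271250, nat_lit 279600, nat_lit 2924000, nat_lit 0, nat_lit 0, [nat_lit 1100000, nat_lit 1785000], [nat_lit 39, nat_lit 40, nat_lit 20, nat_lit 80, nat_lit 7, nat_lit 317, nat_lit 100, nat_lit 11]⟩,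
 ⟨nat_lit 5477, nat_lit 5701, ⟨.ofNat (nat_lit 283163), .ofNat (nat_lit 958262), .ofNat (nat_lit 293834), .ofNat (nat_lit 968932), .ofNat (nat_lit 290003), .ofNat (nat_lit 949385), .ofNat (nat_lit 300681), .ofNat (nat_lit 960062)⟩, ⟨.ofNat (nat_lit 0), .ofNat (nat_lit 0), .ofNat (nat_lit 0), .ofNat (nat_lit 0), .ofNat (nat_lit 0), .ofNat (nat_lit 0), .ofNat (nat_lit 0), .ofNat (nat_lit 0)⟩⟩, []⟩
noncomputable def b_NL_650_650_0_0 : St := ⟨false, nat_lit 0, nat_lit 2, nat_lit 0, nat_lit 20, nat_lit 260, nat_lit 280, nat_lit 260, nat_lit 280, nat_lit 36, nat_lit 400, nat_lit 0, nat_lit 0, nat_lit 0, nat_lit 0, nat_lit 0, nat_lit 0, nat_lit 0, nat_lit 40, nat_lit 0, nat_lit 0, nat_lit 0, nat_lit 0⟩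
theorem d_NL_650_650_0_0 (h : EB TB.env) : Dead b_NL_650_650_0_0 := chkB_sound0 h (T :=
(.gv
(.st (nat_lit 1)
(.leaf p013_l64)
(.spl (nat_lit 2) (nat_lit 240)
(.leaf p013_l65)
(.spl (nat_lit 1) (nat_lit 270)
(.leaf p013_l66)
(.ord (.leaf p013_l67)))))
(.st (nat_lit 1)
(.leaf p013_l68)
(.spl (nat_lit 1) (nat_lit 270)
(.leaf p013_l69)
(.ord (.trZ (nat_lit 0) (nat_lit 100) (nat_lit 100) (nat_lit 70) (nat_lit 48) (.leaf p013_l70))))))) (by decide +kernel)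
noncomputable def p013_l71 : Lf2 := ⟨nat_lit 0, nat_lit 5, [nat_lit 4, nat_lit 5, nat_lit 5, nat_lit 20], false, nat_lit 0, nat_lit 0, nat_lit 0, nat_lit 0, ⟨nat_lit 1000, nat_lit 0, nat_lit 0, nat_lit 0, nat_lit 0, nat_lit 0, nat_lit 0, nat_lit 0, nat_lit 0, nat_lit 0, nat_lit 0, nat_lit 0, nat_lit 0, nat_lit 0, nat_lit 0, nat_lit 0, false, false⟩,
 nat_lit 0, nat_lit 17896, nat_lit 0, nat_lit 0, nat_lit 10416, nat_lit 7432, nat_lit 1858, nat_lit 0, nat_lit 0, nat_lit 1434, nat_lit 0, nat_lit 0, nat_lit 0, nat_lit 19853376867151, nat_lit 0, nat_lit 0, nat_lit 0, nat_lit 0, [],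
 ⟨p013_k7, nat_lit 0, nat_lit 0, nat_lit 486, nat_lit 0, nat_lit 628812, [nat_lit 4688000000, nat_lit 7968000000], [], [nat_lit 26478621581, nat_lit 24604938778, nat_lit 28580764000, nat_lit 23672682304], nat_lit 1271250, nat_lit 1271250, nat_lit 205650, nat_lit 490000, nat_lit 0, nat_lit 0, [nat_lit 1100000, nat_lit 1785000], [nat_lit 39, nat_lit 40, nat_lit 20, nat_lit 80, nat_lit 7, nat_lit 226, nat_lit 20, nat_lit 8]⟩, ⟨p013_k7, nat_lit 0, nat_lit 0, nat_lit 153, nat_lit 0, nat_lit 0, [nat_lit 4688000000, nat_lit 7968000000], [], [nat_lit 21338389341, nat_lit 23436371860, nat_lit 19818894672, nat_lit 21512800160], nat_lit 0, nat_lit 0, nat_lit 0, nat_lit 0, nat_lit 0, nat_lit 0, [], [nat_lit 39, nat_lit 40, nat_lit 20, nat_lit 80, nat_lit 7, nat_lit 226, nat_lit 20, nat_lit 8]⟩,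
 zbF0, [⟨nat_lit 0, nat_lit 100, nat_lit 100, nat_lit 60, nat_lit 626170945⟩]⟩
noncomputable def p013_l72 : Lf2 := ⟨nat_lit 0, nat_lit 5, [nat_lit 4, nat_lit 5, nat_lit 5, nat_lit 20], false, nat_lit 0, nat_lit 0, nat_lit 0, nat_lit 0, ⟨nat_lit 1000, nat_lit 0, nat_lit 0, nat_lit 0, nat_lit 0, nat_lit 0, nat_lit 0, nat_lit 0, nat_lit 0, nat_lit 0, nat_lit 0, nat_lit 0, nat_lit 0, nat_lit 0, nat_lit 0, nat_lit 0, false, false⟩,
 nat_lit 0, nat_lit 14754, nat_lit 0, nat_lit 0, nat_lit 8588, nat_lit 7432, nat_lit 0, nat_lit 0, nat_lit 0, nat_lit 0, nat_lit 0, nat_lit 0, nat_lit 0, nat_lit 14745452328362, nat_lit 0, nat_lit 0, nat_lit 0, nat_lit 0, [],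
 ⟨p013_k7, nat_lit 0, nat_lit 0, nat_lit 400, nat_lit 0, nat_lit 478761, [nat_lit 4688000000, nat_lit 7968000000], [], [nat_lit 32495392135, nat_lit 31644427757, nat_lit 34428223000, nat_lit 30381505872], nat_lit 1271250, nat_lit 1271250, nat_lit 205650, nat_lit 490000, nat_lit 0, nat_lit 0, [nat_lit 1100000, nat_lit 1785000], [nat_lit 39, nat_lit 40, nat_lit 20, nat_lit 80, nat_lit 7, nat_lit 226, nat_lit 20, nat_lit 8]⟩, ⟨p013_k7, nat_lit 0, nat_lit 0, nat_lit 153, nat_lit 0, nat_lit 0, [nat_lit 4688000000, nat_lit 7968000000], [], [nat_lit 23704489341, nat_lit 25802471860, nat_lit 22184994672, nat_lit 23878900160], nat_lit 0, nat_lit 0, nat_lit 0, nat_lit 0, nat_lit 0, nat_lit 0, [], [nat_lit 39, nat_lit 40, nat_lit 20, nat_lit 80, nat_lit 7, nat_lit 226, nat_lit 20, nat_lit 8]⟩,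
 zbF0, [⟨nat_lit 0, nat_lit 100, nat_lit 100, nat_lit 60, nat_lit 645416275⟩]⟩
noncomputable def p013_l73 : Lf2 := ⟨nat_lit 0, nat_lit 5, [nat_lit 4, nat_lit 5, nat_lit 5, nat_lit 20], false, nat_lit 0, nat_lit 0, nat_lit 0, nat_lit 0, ⟨nat_lit 1000, nat_lit 0, nat_lit 0, nat_lit 0, nat_lit 0, nat_lit 0, nat_lit 0, nat_lit 0, nat_lit 0, nat_lit 0, nat_lit 0, nat_lit 0, nat_lit 0, nat_lit 0, nat_lit 0, nat_lit 0, false, false⟩,
 nat_lit 0, nat_lit 12978, nat_lit 0, nat_lit 0, nat_lit 7554, nat_lit 7432, nat_lit 1304, nat_lit 0, nat_lit 0, nat_lit 0, nat_lit 0, nat_lit 0, nat_lit 0, nat_lit 11782516541029, nat_lit 0, nat_lit 0, nat_lit 0, nat_lit 0, [],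
 ⟨p013_k7, nat_lit 0, nat_lit 0, nat_lit 366, nat_lit 0, nat_lit 380434, [nat_lit 4688000000, nat_lit 7968000000], [], [nat_lit 32013051956, nat_lit 31753709504, nat_lit 33850112500, nat_lit 30365314400], nat_lit 1271250, nat_lit 1271250, nat_lit 205650, nat_lit 490000, nat_lit 0, nat_lit 0, [nat_lit 1100000, nat_lit 1785000], [nat_lit 39, nat_lit 40, nat_lit 20, nat_lit 80, nat_lit 7, nat_lit 226, nat_lit 20, nat_lit 8]⟩, ⟨p013_k7, nat_lit 0, nat_lit 0, nat_lit 153, nat_lit 0, nat_lit 0, [nat_lit 4688000000, nat_lit 7968000000], [], [nat_lit 23704489341, nat_lit 25802471860, nat_lit 22184994672, nat_lit 23878900160], nat_lit 0, nat_lit 0, nat_lit 0, nat_lit 0, nat_lit 0, nat_lit 0, [], [nat_lit 39, nat_lit 40, nat_lit 20, nat_lit 80, nat_lit 7, nat_lit 226, nat_lit 20, nat_lit 8]⟩,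
 zbF0, [⟨nat_lit 0, nat_lit 100, nat_lit 100, nat_lit 60, nat_lit 656298591⟩]⟩
noncomputable def p013_l74 : Lf2 := ⟨nat_lit 0, nat_lit 5, [nat_lit 4, nat_lit 5, nat_lit 5, nat_lit 20], false, nat_lit 0, nat_lit 0, nat_lit 0, nat_lit 0, ⟨nat_lit 1000, nat_lit 0, nat_lit 0, nat_lit 0, nat_lit 0, nat_lit 0, nat_lit 0, nat_lit 0, nat_lit 0, nat_lit 0, nat_lit 0, nat_lit 0, nat_lit 0, nat_lit 0, nat_lit 0, nat_lit 0, false, false⟩,
 nat_lit 0, nat_lit 11398, nat_lit 0, nat_lit 0, nat_lit 6634, nat_lit 6650, nat_lit 4544, nat_lit 0, nat_lit 0, nat_lit 0, nat_lit 0, nat_lit 0, nat_lit 0, nat_lit 10395313498744, nat_lit 0, nat_lit 0, nat_lit 0, nat_lit 0, [],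
 ⟨p013_k7, nat_lit 0, nat_lit 0, nat_lit 654, nat_lit 0, nat_lit 1077234, [nat_lit 4688000000, nat_lit 7968000000], [], [nat_lit 31759918668, nat_lit 30886956186, nat_lit 30776466024, nat_lit 30928570052], nat_lit 1271250, nat_lit 1271250, nat_lit 490000, nat_lit 1100001, nat_lit 0, nat_lit 0, [nat_lit 1100000, nat_lit 1785000], [nat_lit 39, nat_lit 40, nat_lit 20, nat_lit 80, nat_lit 7, nat_lit 249, nat_lit 40, nat_lit 8]⟩, ⟨p013_k7, nat_lit 0, nat_lit 0, nat_lit 53, nat_lit 0, nat_lit 0, [nat_lit 4688000000, nat_lit 7968000000], [], [nat_lit 13402516500, nat_lit 13973964425, nat_lit 14489000300, nat_lit 14995781225], nat_lit 0, nat_lit 0, nat_lit 0, nat_lit 0, nat_lit 0, nat_lit 0, [], [nat_lit 39, nat_lit 40, nat_lit 20, nat_lit 80, nat_lit 7, nat_lit 249, nat_lit 40, nat_lit 8]⟩,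
 zbF0, []⟩
noncomputable def p013_l75 : Lf2 := ⟨nat_lit 0, nat_lit 5, [nat_lit 4, nat_lit 5, nat_lit 5, nat_lit 20], false, nat_lit 0, nat_lit 0, nat_lit 0, nat_lit 0, ⟨nat_lit 1000, nat_lit 0, nat_lit 0, nat_lit 0, nat_lit 0, nat_lit 0, nat_lit 0, nat_lit 0, nat_lit 0, nat_lit 0, nat_lit 0, nat_lit 0, nat_lit 0, nat_lit 0, nat_lit 0, nat_lit 0, false, false⟩,
 nat_lit 0, nat_lit 13896, nat_lit 0, nat_lit 0, nat_lit 8275, nat_lit 6577, nat_lit 2241, nat_lit 0, nat_lit 0, nat_lit 0, nat_lit 0, nat_lit 0, nat_lit 0, nat_lit 56900053765576, nat_lit 0, nat_lit 0, nat_lit 0, nat_lit 0, [],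
 ⟨p013_k9, nat_lit 0, nat_lit 0, nat_lit 676, nat_lit 0, nat_lit 1136179, [nat_lit 4688000000, nat_lit 7968000000], [], [nat_lit 23997354513, nat_lit 22938382725, nat_lit 22447025450, nat_lit 22610029000], nat_lit 1271250, nat_lit 1271250, nat_lit 490000, nat_lit 1100001, nat_lit 0, nat_lit 0, [nat_lit 1100000, nat_lit 1785000], [nat_lit 39, nat_lit 40, nat_lit 20, nat_lit 80, nat_lit 7, nat_lit 249, nat_lit 40, nat_lit 8]⟩, ⟨p013_k7, nat_lit 0, nat_lit 0, nat_lit 57, nat_lit 0, nat_lit 0, [nat_lit 4688000000, nat_lit 7968000000], [], [nat_lit 13437214130, nat_lit 14571980043, nat_lit 14535178494, nat_lit 15541755047], nat_lit 0, nat_lit 0, nat_lit 0, nat_lit 0, nat_lit 0, nat_lit 0, [], [nat_lit 39, nat_lit 40, nat_lit 20, nat_lit 80, nat_lit 7, nat_lit 249, nat_lit 40, nat_lit 8]⟩,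
 zbF0, []⟩
noncomputable def p013_l76 : Lf2 := ⟨nat_lit 0, nat_lit 5, [nat_lit 4, nat_lit 5, nat_lit 5, nat_lit 20], false, nat_lit 0, nat_lit 0, nat_lit 0, nat_lit 0, ⟨nat_lit 1000, nat_lit 0, nat_lit 0, nat_lit 0, nat_lit 0, nat_lit 0, nat_lit 0, nat_lit 0, nat_lit 0, nat_lit 0, nat_lit 0, nat_lit 0, nat_lit 0, nat_lit 0, nat_lit 0, nat_lit 0, false, false⟩,
 nat_lit 0, nat_lit 8666, nat_lit 0, nat_lit 0, nat_lit 5044, nat_lit 6577, nat_lit 3090, nat_lit 0, nat_lit 0, nat_lit 0, nat_lit 0, nat_lit 0, nat_lit 0, nat_lit 38695338726175, nat_lit 0, nat_lit 0, nat_lit 0, nat_lit 0, [],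
 ⟨p013_k7, nat_lit 0, nat_lit 0, nat_lit 534, nat_lit 0, nat_lit 833754, [nat_lit 4688000000, nat_lit 7968000000], [], [nat_lit 32576806488, nat_lit 31245760920, nat_lit 31350471280, nat_lit 31702980072], nat_lit 1271250, nat_lit 1271250, nat_lit 490000, nat_lit 1100001, nat_lit 0, nat_lit 0, [nat_lit 1100000, nat_lit 1785000], [nat_lit 39, nat_lit 40, nat_lit 20, nat_lit 80, nat_lit 7, nat_lit 249, nat_lit 40, nat_lit 8]⟩, ⟨p013_k7, nat_lit 0, nat_lit 0, nat_lit 57, nat_lit 0, nat_lit 0, [nat_lit 4688000000, nat_lit 7968000000], [], [nat_lit 13437214130, nat_lit 14571980043, nat_lit 14535178494, nat_lit 15541755047], nat_lit 0, nat_lit 0, nat_lit 0, nat_lit 0, nat_lit 0, nat_lit 0, [], [nat_lit 39, nat_lit 40, nat_lit 20, nat_lit 80, nat_lit 7, nat_lit 249, nat_lit 40, nat_lit 8]⟩,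
 zbF0, []⟩
noncomputable def p013_l77 : Lf2 := ⟨nat_lit 0, nat_lit 2, [nat_lit 10, nat_lit 5, nat_lit 5, nat_lit 20], false, nat_lit 0, nat_lit 0, nat_lit 0, nat_lit 0, ⟨nat_lit 1000, nat_lit 0, nat_lit 0, nat_lit 0, nat_lit 0, nat_lit 0, nat_lit 0, nat_lit 0, nat_lit 0, nat_lit 0, nat_lit 0, nat_lit 0, nat_lit 0, nat_lit 0, nat_lit 0, nat_lit 0, false, false⟩,
 nat_lit 0, nat_lit 13938, nat_lit 0, nat_lit 0, nat_lit 8488, nat_lit 6534, nat_lit 1660, nat_lit 0, nat_lit 0, nat_lit 0, nat_lit 0, nat_lit 0, nat_lit 0, nat_lit 55527336022039, nat_lit 0, nat_lit 0, nat_lit 0, nat_lit 0, [],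
 ⟨p013_k5, nat_lit 0, nat_lit 0, nat_lit 604, nat_lit 0, nat_lit 1129579, [nat_lit 4688000000, nat_lit 6250000000], [], [nat_lit 22649527848, nat_lit 21997611061, nat_lit 21510548560, nat_lit 21609199538], nat_lit 1271250, nat_lit 1271250, nat_lit 490000, nat_lit 1100001, nat_lit 0, nat_lit 0, [nat_lit 1100000, nat_lit 1442500], [nat_lit 31, nat_lit 40, nat_lit 20, nat_lit 80, nat_lit 3, nat_lit 249, nat_lit 40, nat_lit 10]⟩, ⟨p013_k17, nat_lit 0, nat_lit 0, nat_lit 59, nat_lit 0, nat_lit 0, [nat_lit 4688000000, nat_lit 6250000000], [], [nat_lit 13457652460, nat_lit 14926622620, nat_lit 14562379348, nat_lit 15865579852], nat_lit 0, nat_lit 0, nat_lit 0, nat_lit 0, nat_lit 0, nat_lit 0, [], [nat_lit 31, nat_lit 40, nat_lit 20, nat_lit 80, nat_lit 3, nat_lit 249, nat_lit 40, nat_lit 10]⟩,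
 zbF0, []⟩
noncomputable def p013_l78 : Lf2 := ⟨nat_lit 0, nat_lit 2, [nat_lit 10, nat_lit 5, nat_lit 5, nat_lit 20], false, nat_lit 0, nat_lit 0, nat_lit 0, nat_lit 0, ⟨nat_lit 1000, nat_lit 0, nat_lit 0, nat_lit 0, nat_lit 0, nat_lit 0, nat_lit 0, nat_lit 0, nat_lit 0, nat_lit 0, nat_lit 0, nat_lit 0, nat_lit 0, nat_lit 0, nat_lit 0, nat_lit 0, false, false⟩,
 nat_lit 0, nat_lit 13993, nat_lit 0, nat_lit 0, nat_lit 8635, nat_lit 6505, nat_lit 1500, nat_lit 0, nat_lit 0, nat_lit 0, nat_lit 0, nat_lit 0, nat_lit 0, nat_lit 55510755217040, nat_lit 0, nat_lit 0, nat_lit 0, nat_lit 0, [],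
 ⟨p013_k23, nat_lit 0, nat_lit 0, nat_lit 610, nat_lit 0, nat_lit 1144401, [nat_lit 4688000000, nat_lit 6250000000], [], [nat_lit 21787306961, nat_lit 21347787820, nat_lit 20850989003, nat_lit 20917146870], nat_lit 1271250, nat_lit 1271250, nat_lit 490000, nat_lit 1100001, nat_lit 0, nat_lit 0, [nat_lit 1100000, nat_lit 1442500], [nat_lit 31, nat_lit 40, nat_lit 20, nat_lit 80, nat_lit 3, nat_lit 249, nat_lit 40, nat_lit 10]⟩, ⟨p013_k17, nat_lit 0, nat_lit 0, nat_lit 61, nat_lit 0, nat_lit 0, [nat_lit 4688000000, nat_lit 6250000000], [], [nat_lit 13471436450, nat_lit 15161557468, nat_lit 14580724110, nat_lit 16080254528], nat_lit 0, nat_lit 0, nat_lit 0, nat_lit 0, nat_lit 0, nat_lit 0, [], [nat_lit 31, nat_lit 40, nat_lit 20, nat_lit 80, nat_lit 3, nat_lit 249, nat_lit 40, nat_lit 10]⟩,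
 zbF0, []⟩
noncomputable def p013_l79 : Lf2 := ⟨nat_lit 0, nat_lit 5, [nat_lit 4, nat_lit 5, nat_lit 5, nat_lit 20], false, nat_lit 0, nat_lit 0, nat_lit 0, nat_lit 0, ⟨nat_lit 1000, nat_lit 0, nat_lit 0, nat_lit 0, nat_lit 0, nat_lit 0, nat_lit 0, nat_lit 0, nat_lit 0, nat_lit 0, nat_lit 0, nat_lit 0, nat_lit 0, nat_lit 0, nat_lit 0, nat_lit 0, false, false⟩,
 nat_lit 0, nat_lit 13303, nat_lit 0, nat_lit 0, nat_lit 8101, nat_lit 7834, nat_lit 1836, nat_lit 0, nat_lit 0, nat_lit 2814, nat_lit 0, nat_lit 0, nat_lit 0, nat_lit 51361329835871, nat_lit 0, nat_lit 0, nat_lit 0, nat_lit 0, [],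
 ⟨p013_k2, nat_lit 0, nat_lit 0, nat_lit 643, nat_lit 0, nat_lit 1036530, [nat_lit 4688000000, nat_lit 6250000000, nat_lit 7968000000], [], [nat_lit 23169957321, nat_lit 22133606167, nat_lit 21835723713, nat_lit 22039757701], nat_lit 1271250, nat_lit 1271250, nat_lit 490000, nat_lit 1100001, nat_lit 0, nat_lit 0, [nat_lit 1100000, nat_lit 1442500, nat_lit 1271250], [nat_lit 9, nat_lit 40, nat_lit 20, nat_lit 80, nat_lit 2, nat_lit 249, nat_lit 40, nat_lit 8]⟩, ⟨p013_k0, nat_lit 0, nat_lit 0, nat_lit 122, nat_lit 0, nat_lit 0, [nat_lit 4688000000, nat_lit 6250000000, nat_lit 7968000000], [], [nat_lit 14979625464, nat_lit 16429691105, nat_lit 15701226146, nat_lit 16982621372], nat_lit 0, nat_lit 0, nat_lit 0, nat_lit 0, nat_lit 0, nat_lit 0, [], [nat_lit 9, nat_lit 40, nat_lit 20, nat_lit 80, nat_lit 2, nat_lit 249, nat_lit 40, nat_lit 8]⟩,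
 zbF0, []⟩
noncomputable def p013_l80 : Lf2 := ⟨nat_lit 0, nat_lit 2, [nat_lit 10, nat_lit 5, nat_lit 5, nat_lit 20], false, nat_lit 0, nat_lit 0, nat_lit 0, nat_lit 0, ⟨nat_lit 1000, nat_lit 0, nat_lit 0, nat_lit 0, nat_lit 0, nat_lit 0, nat_lit 0, nat_lit 0, nat_lit 0, nat_lit 0, nat_lit 0, nat_lit 0, nat_lit 0, nat_lit 0, nat_lit 0, nat_lit 0, false, false⟩,
 nat_lit 0, nat_lit 13991, nat_lit 0, nat_lit 0, nat_lit 8711, nat_lit 6491, nat_lit 1409, nat_lit 0, nat_lit 0, nat_lit 0, nat_lit 0, nat_lit 0, nat_lit 0, nat_lit 55385990239324, nat_lit 0, nat_lit 0, nat_lit 0, nat_lit 0, [],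
 ⟨p013_k24, nat_lit 0, nat_lit 0, nat_lit 612, nat_lit 0, nat_lit 1148370, [nat_lit 4688000000, nat_lit 6250000000], [], [nat_lit 21232330072, nat_lit 21010760140, nat_lit 20525348782, nat_lit 20558528675], nat_lit 1271250, nat_lit 1271250, nat_lit 490000, nat_lit 1100001, nat_lit 0, nat_lit 0, [nat_lit 1100000, nat_lit 1442500], [nat_lit 31, nat_lit 40, nat_lit 20, nat_lit 80, nat_lit 3, nat_lit 249, nat_lit 40, nat_lit 10]⟩, ⟨p013_k17, nat_lit 0, nat_lit 0, nat_lit 62, nat_lit 0, nat_lit 0, [nat_lit 4688000000, nat_lit 6250000000], [], [nat_lit 13478090790, nat_lit 15278391877, nat_lit 14589580202, nat_lit 16186935881], nat_lit 0, nat_lit 0, nat_lit 0, nat_lit 0, nat_lit 0, nat_lit 0, [], [nat_lit 31, nat_lit 40, nat_lit 20, nat_lit 80, nat_lit 3, nat_lit 249, nat_lit 40, nat_lit 10]⟩,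
 zbF0, []⟩
noncomputable def p013_l81 : Lf2 := ⟨nat_lit 0, nat_lit 2, [nat_lit 10, nat_lit 5, nat_lit 5, nat_lit 20], false, nat_lit 0, nat_lit 0, nat_lit 0, nat_lit 0, ⟨nat_lit 1000, nat_lit 0, nat_lit 0, nat_lit 0, nat_lit 0, nat_lit 0, nat_lit 0, nat_lit 0, nat_lit 0, nat_lit 0, nat_lit 0, nat_lit 0, nat_lit 0, nat_lit 0, nat_lit 0, nat_lit 0, false, false⟩,
 nat_lit 0, nat_lit 14053, nat_lit 0, nat_lit 0, nat_lit 8788, nat_lit 6477, nat_lit 1367, nat_lit 0, nat_lit 0, nat_lit 0, nat_lit 0, nat_lit 0, nat_lit 0, nat_lit 55578646513585, nat_lit 0, nat_lit 0, nat_lit 0, nat_lit 0, [],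
 ⟨p013_k25, nat_lit 0, nat_lit 0, nat_lit 616, nat_lit 0, nat_lit 1159194, [nat_lit 4688000000, nat_lit 6250000000], [], [nat_lit 20893468037, nat_lit 20668997336, nat_lit 20161677636, nat_lit 20194959815], nat_lit 1271250, nat_lit 1271250, nat_lit 490000, nat_lit 1100001, nat_lit 0, nat_lit 0, [nat_lit 1100000, nat_lit 1442500], [nat_lit 31, nat_lit 40, nat_lit 20, nat_lit 80, nat_lit 3, nat_lit 249, nat_lit 40, nat_lit 10]⟩, ⟨p013_k17, nat_lit 0, nat_lit 0, nat_lit 62, nat_lit 0, nat_lit 0, [nat_lit 4688000000, nat_lit 6250000000], [], [nat_lit 13484745130, nat_lit 15394914453, nat_lit 14598436294, nat_lit 16293349305], nat_lit 0, nat_lit 0, nat_lit 0, nat_lit 0, nat_lit 0, nat_lit 0, [], [nat_lit 31, nat_lit 40, nat_lit 20, nat_lit 80, nat_lit 3, nat_lit 249, nat_lit 40, nat_lit 10]⟩,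
 zbF0, []⟩
noncomputable def p013_l82 : Lf2 := ⟨nat_lit 0, nat_lit 1, [nat_lit 19, nat_lit 5, nat_lit 5, nat_lit 20], false, nat_lit 0, nat_lit 0, nat_lit 0, nat_lit 0, ⟨nat_lit 1000, nat_lit 0, nat_lit 0, nat_lit 0, nat_lit 0, nat_lit 0, nat_lit 0, nat_lit 0, nat_lit 0, nat_lit 0, nat_lit 0, nat_lit 0, nat_lit 0, nat_lit 0, nat_lit 0, nat_lit 0, false, false⟩,
 nat_lit 0, nat_lit 14116, nat_lit 0, nat_lit 0, nat_lit 8866, nat_lit 6463, nat_lit 1324, nat_lit 0, nat_lit 0, nat_lit 0, nat_lit 0, nat_lit 0, nat_lit 0, nat_lit 55347673542038, nat_lit 0, nat_lit 0, nat_lit 0, nat_lit 0, [],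
 ⟨p013_k26, nat_lit 0, nat_lit 0, nat_lit 617, nat_lit 0, nat_lit 1160752, [nat_lit 4688000000, nat_lit 6250000000], [], [nat_lit 20549131107, nat_lit 20322724622, nat_lit 19793058481, nat_lit 19826444276], nat_lit 1271250, nat_lit 1271250, nat_lit 490000, nat_lit 1100001, nat_lit 0, nat_lit 0, [nat_lit 1100000, nat_lit 1442500], [nat_lit 31, nat_lit 40, nat_lit 20, nat_lit 80, nat_lit 3, nat_lit 249, nat_lit 40, nat_lit 10]⟩, ⟨p013_k27, nat_lit 0, nat_lit 0, nat_lit 63, nat_lit 0, nat_lit 0, [nat_lit 4688000000, nat_lit 6250000000], [], [nat_lit 13491399470, nat_lit 15511125195, nat_lit 14607292386, nat_lit 16399494799], nat_lit 0, nat_lit 0, nat_lit 0, nat_lit 0, nat_lit 0, nat_lit 0, [], [nat_lit 31, nat_lit 40, nat_lit 20, nat_lit 80, nat_lit 3, nat_lit 249, nat_lit 40, nat_lit 10]⟩,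
 zbF0, []⟩
noncomputable def p013_l83 : Lf2 := ⟨nat_lit 0, nat_lit 2, [nat_lit 10, nat_lit 5, nat_lit 5, nat_lit 20], false, nat_lit 0, nat_lit 0, nat_lit 0, nat_lit 0, ⟨nat_lit 1000, nat_lit 0, nat_lit 0, nat_lit 0, nat_lit 0, nat_lit 0, nat_lit 0, nat_lit 0, nat_lit 0, nat_lit 0, nat_lit 0, nat_lit 0, nat_lit 0, nat_lit 0, nat_lit 0, nat_lit 0, false, false⟩,
 nat_lit 0, nat_lit 14116, nat_lit 0, nat_lit 0, nat_lit 8866, nat_lit 6463, nat_lit 1324, nat_lit 0, nat_lit 0, nat_lit 0, nat_lit 0, nat_lit 0, nat_lit 0, nat_lit 55862449765910, nat_lit 0, nat_lit 0, nat_lit 0, nat_lit 0, [],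
 ⟨p013_k28, nat_lit 0, nat_lit 0, nat_lit 573, nat_lit 0, nat_lit 1088688, [nat_lit 4688000000, nat_lit 6250000000], [], [nat_lit 20549131107, nat_lit 20322724622, nat_lit 19793058481, nat_lit 19826444276], nat_lit 1271250, nat_lit 1271250, nat_lit 490000, nat_lit 1100001, nat_lit 0, nat_lit 0, [nat_lit 1100000, nat_lit 1442500], [nat_lit 31, nat_lit 40, nat_lit 20, nat_lit 80, nat_lit 3, nat_lit 249, nat_lit 40, nat_lit 10]⟩, ⟨p013_k17, nat_lit 0, nat_lit 0, nat_lit 63, nat_lit 0, nat_lit 0, [nat_lit 4688000000, nat_lit 6250000000], [], [nat_lit 13491399470, nat_lit 15511125195, nat_lit 14607292386, nat_lit 16399494799], nat_lit 0, nat_lit 0, nat_lit 0, nat_lit 0, nat_lit 0, nat_lit 0, [], [nat_lit 31, nat_lit 40, nat_lit 20, nat_lit 80, nat_lit 3, nat_lit 249, nat_lit 40, nat_lit 10]⟩,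
 zbF0, []⟩
noncomputable def p013_l84 : Lf2 := ⟨nat_lit 0, nat_lit 1, [nat_lit 19, nat_lit 5, nat_lit 5, nat_lit 20], false, nat_lit 0, nat_lit 0, nat_lit 0, nat_lit 0, ⟨nat_lit 1000, nat_lit 0, nat_lit 0, nat_lit 0, nat_lit 0, nat_lit 0, nat_lit 0, nat_lit 0, nat_lit 0, nat_lit 0, nat_lit 0, nat_lit 0, nat_lit 0, nat_lit 0, nat_lit 0, nat_lit 0, false, false⟩,
 nat_lit 0, nat_lit 14159, nat_lit 0, nat_lit 0, nat_lit 8932, nat_lit 6577, nat_lit 1286, nat_lit 0, nat_lit 0, nat_lit 0, nat_lit 0, nat_lit 0, nat_lit 0, nat_lit 0, nat_lit 0, nat_lit 0, nat_lit 0, nat_lit 0, [],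
 ⟨p013_k29, nat_lit 0, nat_lit 0, nat_lit 572, nat_lit 0, nat_lit 1085406, [nat_lit 4688000000, nat_lit 6250000000], [], [nat_lit 20219392350, nat_lit 20036327889, nat_lit 19486461591, nat_lit 19519935060], nat_lit 1271250, nat_lit 1271250, nat_lit 490000, nat_lit 1100001, nat_lit 0, nat_lit 0, [nat_lit 1100000, nat_lit 1442500], [nat_lit 31, nat_lit 40, nat_lit 20, nat_lit 80, nat_lit 3, nat_lit 249, nat_lit 40, nat_lit 10]⟩, ⟨p013_k27, nat_lit 0, nat_lit 0, nat_lit 57, nat_lit 0, nat_lit 0, [nat_lit 4688000000, nat_lit 6250000000], [], [nat_lit 13437214130, nat_lit 14571980043, nat_lit 14535178494, nat_lit 15541755047], nat_lit 0, nat_lit 0, nat_lit 0, nat_lit 0, nat_lit 0, nat_lit 0, [], [nat_lit 31, nat_lit 40, nat_lit 20, nat_lit 80, nat_lit 3, nat_lit 249, nat_lit 40, nat_lit 10]⟩,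
 zbF0, []⟩
noncomputable def p013_l85 : Lf2 := ⟨nat_lit 0, nat_lit 1, [nat_lit 19, nat_lit 5, nat_lit 5, nat_lit 20], false, nat_lit 0, nat_lit 0, nat_lit 0, nat_lit 0, ⟨nat_lit 1000, nat_lit 0, nat_lit 0, nat_lit 0, nat_lit 0, nat_lit 0, nat_lit 0, nat_lit 0, nat_lit 0, nat_lit 0, nat_lit 0, nat_lit 0, nat_lit 0, nat_lit 0, nat_lit 0, nat_lit 0, false, false⟩,
 nat_lit 0, nat_lit 14158, nat_lit 0, nat_lit 0, nat_lit 8931, nat_lit 6505, nat_lit 1286, nat_lit 0, nat_lit 0, nat_lit 0, nat_lit 0, nat_lit 0, nat_lit 0, nat_lit 0, nat_lit 0, nat_lit 0, nat_lit 0, nat_lit 0, [],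
 ⟨p013_k29, nat_lit 0, nat_lit 0, nat_lit 605, nat_lit 0, nat_lit 1132312, [nat_lit 4688000000, nat_lit 6250000000], [], [nat_lit 20220942352, nat_lit 20041296651, nat_lit 19491612844, nat_lit 19525084984], nat_lit 1271250, nat_lit 1271250, nat_lit 490000, nat_lit 1100001, nat_lit 0, nat_lit 0, [nat_lit 1100000, nat_lit 1442500], [nat_lit 31, nat_lit 40, nat_lit 20, nat_lit 80, nat_lit 3, nat_lit 249, nat_lit 40, nat_lit 10]⟩, ⟨p013_k30, nat_lit 0, nat_lit 0, nat_lit 61, nat_lit 0, nat_lit 0, [nat_lit 4688000000, nat_lit 6250000000], [], [nat_lit 14598183795, nat_lit 15161557468, nat_lit 15580411055, nat_lit 16080254528], nat_lit 0, nat_lit 0, nat_lit 0, nat_lit 0, nat_lit 0, nat_lit 0, [], [nat_lit 31, nat_lit 40, nat_lit 20, nat_lit 80, nat_lit 3, nat_lit 249, nat_lit 40, nat_lit 10]⟩,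
 zbF0, []⟩
noncomputable def p013_l86 : Lf2 := ⟨nat_lit 0, nat_lit 1, [nat_lit 19, nat_lit 5, nat_lit 5, nat_lit 20], false, nat_lit 0, nat_lit 0, nat_lit 0, nat_lit 0, ⟨nat_lit 1000, nat_lit 0, nat_lit 0, nat_lit 0, nat_lit 0, nat_lit 0, nat_lit 0, nat_lit 0, nat_lit 0, nat_lit 0, nat_lit 0, nat_lit 0, nat_lit 0, nat_lit 0, nat_lit 0, nat_lit 0, false, false⟩,
 nat_lit 0, nat_lit 14157, nat_lit 0, nat_lit 0, nat_lit 8931, nat_lit 6477, nat_lit 1286, nat_lit 0, nat_lit 0, nat_lit 0, nat_lit 0, nat_lit 0, nat_lit 0, nat_lit 0, nat_lit 0, nat_lit 0, nat_lit 0, nat_lit 0, [],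
 ⟨p013_k29, nat_lit 0, nat_lit 0, nat_lit 613, nat_lit 0, nat_lit 1151679, [nat_lit 4688000000, nat_lit 6250000000], [], [nat_lit 20220942352, nat_lit 20041296651, nat_lit 19491612844, nat_lit 19525084984], nat_lit 1271250, nat_lit 1271250, nat_lit 490000, nat_lit 1100001, nat_lit 0, nat_lit 0, [nat_lit 1100000, nat_lit 1442500], [nat_lit 31, nat_lit 40, nat_lit 20, nat_lit 80, nat_lit 3, nat_lit 249, nat_lit 40, nat_lit 10]⟩, ⟨p013_k31, nat_lit 0, nat_lit 0, nat_lit 62, nat_lit 0, nat_lit 0, [nat_lit 4688000000, nat_lit 6250000000], [], [nat_lit 15170188650, nat_lit 15394914453, nat_lit 16093947774, nat_lit 16293349305], nat_lit 0, nat_lit 0, nat_lit 0, nat_lit 0, nat_lit 0, nat_lit 0, [], [nat_lit 31, nat_lit 40, nat_lit 20, nat_lit 80, nat_lit 3, nat_lit 249, nat_lit 40, nat_lit 10]⟩,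
 zbF0, []⟩
noncomputable def p013_l87 : Lf2 := ⟨nat_lit 0, nat_lit 1, [nat_lit 19, nat_lit 5, nat_lit 5, nat_lit 20], false, nat_lit 0, nat_lit 0, nat_lit 0, nat_lit 0, ⟨nat_lit 1000, nat_lit 0, nat_lit 0, nat_lit 0, nat_lit 0, nat_lit 0, nat_lit 0, nat_lit 0, nat_lit 0, nat_lit 0, nat_lit 0, nat_lit 0, nat_lit 0, nat_lit 0, nat_lit 0, nat_lit 0, false, false⟩,
 nat_lit 0, nat_lit 14157, nat_lit 0, nat_lit 0, nat_lit 8930, nat_lit 6463, nat_lit 1286, nat_lit 0, nat_lit 0, nat_lit 0, nat_lit 0, nat_lit 0, nat_lit 0, nat_lit 0, nat_lit 0, nat_lit 0, nat_lit 0, nat_lit 0, [],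
 ⟨p013_k29, nat_lit 0, nat_lit 0, nat_lit 617, nat_lit 0, nat_lit 1161407, [nat_lit 4688000000, nat_lit 6250000000], [], [nat_lit 20222492354, nat_lit 20046265412, nat_lit 19496764097, nat_lit 19530234909], nat_lit 1271250, nat_lit 1271250, nat_lit 490000, nat_lit 1100001, nat_lit 0, nat_lit 0, [nat_lit 1100000, nat_lit 1442500], [nat_lit 31, nat_lit 40, nat_lit 20, nat_lit 80, nat_lit 3, nat_lit 249, nat_lit 40, nat_lit 10]⟩, ⟨p013_k26, nat_lit 0, nat_lit 0, nat_lit 63, nat_lit 0, nat_lit 0, [nat_lit 4688000000, nat_lit 6250000000], [], [nat_lit 15398918210, nat_lit 15511125195, nat_lit 16299927998, nat_lit 16399494799], nat_lit 0, nat_lit 0, nat_lit 0, nat_lit 0, nat_lit 0, nat_lit 0, [], [nat_lit 31, nat_lit 40, nat_lit 20, nat_lit 80, nat_lit 3, nat_lit 249, nat_lit 40, nat_lit 10]⟩,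
 zbF0, []⟩
noncomputable def p013_l88 : Lf2 := ⟨nat_lit 0, nat_lit 1, [nat_lit 19, nat_lit 5, nat_lit 5, nat_lit 20], false, nat_lit 0, nat_lit 0, nat_lit 0, nat_lit 0, ⟨nat_lit 1000, nat_lit 0, nat_lit 0, nat_lit 0, nat_lit 0, nat_lit 0, nat_lit 0, nat_lit 0, nat_lit 0, nat_lit 0, nat_lit 0, nat_lit 0, nat_lit 0, nat_lit 0, nat_lit 0, nat_lit 0, false, false⟩,
 nat_lit 0, nat_lit 14423, nat_lit 0, nat_lit 0, nat_lit 9098, nat_lit 0, nat_lit 0, nat_lit 0, nat_lit 0, nat_lit 0, nat_lit 0, nat_lit 0, nat_lit 0, nat_lit 400000000000000, nat_lit 0, nat_lit 0, nat_lit 0, nat_lit 0, [],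
 ⟨p013_k29, nat_lit 0, nat_lit 0, nat_lit 318, nat_lit 0, nat_lit 533839, [nat_lit 4688000000, nat_lit 6250000000], [], [nat_lit 19962091985, nat_lit 19728701901, nat_lit 18172982987, nat_lit 18241859514], nat_lit 1271250, nat_lit 1271250, nat_lit 490000, nat_lit 631250, nat_lit 0, nat_lit 0, [nat_lit 1100000, nat_lit 1442500], [nat_lit 31, nat_lit 40, nat_lit 20, nat_lit 80, nat_lit 3, nat_lit 232, nat_lit 25, nat_lit 9]⟩, ⟨p013_k29, nat_lit 0, nat_lit 0, nat_lit 64, nat_lit 0, nat_lit 0, [nat_lit 4688000000, nat_lit 6250000000], [], [nat_lit 17287453600, nat_lit 17327682800, nat_lit 17762766200, nat_lit 17802439100], nat_lit 0, nat_lit 0, nat_lit 0, nat_lit 0, nat_lit 0, nat_lit 0, [], [nat_lit 31, nat_lit 40, nat_lit 20, nat_lit 80, nat_lit 3, nat_lit 232, nat_lit 25, nat_lit 9]⟩,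
 zbF0, [⟨nat_lit 13, nat_lit 100, nat_lit 1, nat_lit 100, nat_lit 141393588⟩]⟩
noncomputable def p013_l89 : Lf2 := ⟨nat_lit 0, nat_lit 1, [nat_lit 19, nat_lit 5, nat_lit 5, nat_lit 20], false, nat_lit 0, nat_lit 0, nat_lit 0, nat_lit 0, ⟨nat_lit 1000, nat_lit 0, nat_lit 0, nat_lit 0, nat_lit 0, nat_lit 0, nat_lit 0, nat_lit 0, nat_lit 0, nat_lit 0, nat_lit 0, nat_lit 0, nat_lit 0, nat_lit 0, nat_lit 0, nat_lit 0, false, false⟩,
 nat_lit 0, nat_lit 14807, nat_lit 0, nat_lit 0, nat_lit 9341, nat_lit 6669, nat_lit 1258, nat_lit 0, nat_lit 0, nat_lit 0, nat_lit 0, nat_lit 0, nat_lit 0, nat_lit 0, nat_lit 0, nat_lit 0, nat_lit 0, nat_lit 0, [],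
 ⟨p013_k29, nat_lit 0, nat_lit 0, nat_lit 612, nat_lit 0, nat_lit 1171164, [nat_lit 4688000000, nat_lit 6250000000], [], [nat_lit 17653287647, nat_lit 17688128322, nat_lit 17447382272, nat_lit 17484402908], nat_lit 1271250, nat_lit 1271250, nat_lit 631250, nat_lit 780000, nat_lit 0, nat_lit 0, [nat_lit 1100000, nat_lit 1442500], [nat_lit 31, nat_lit 40, nat_lit 20, nat_lit 80, nat_lit 3, nat_lit 238, nat_lit 30, nat_lit 9]⟩, ⟨p013_k29, nat_lit 0, nat_lit 0, nat_lit 57, nat_lit 0, nat_lit 0, [nat_lit 4688000000, nat_lit 6250000000], [], [nat_lit 15264609485, nat_lit 15376442299, nat_lit 15363430226, nat_lit 15472185375], nat_lit 0, nat_lit 0, nat_lit 0, nat_lit 0, nat_lit 0, nat_lit 0, [], [nat_lit 31, nat_lit 40, nat_lit 20, nat_lit 80, nat_lit 3, nat_lit 238, nat_lit 30, nat_lit 9]⟩,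
 zbF0, []⟩
noncomputable def p013_l90 : Lf2 := ⟨nat_lit 0, nat_lit 1, [nat_lit 19, nat_lit 5, nat_lit 5, nat_lit 20], false, nat_lit 0, nat_lit 0, nat_lit 0, nat_lit 0, ⟨nat_lit 1000, nat_lit 0, nat_lit 0, nat_lit 0, nat_lit 0, nat_lit 0, nat_lit 0, nat_lit 0, nat_lit 0, nat_lit 0, nat_lit 0, nat_lit 0, nat_lit 0, nat_lit 0, nat_lit 0, nat_lit 0, false, false⟩,
 nat_lit 0, nat_lit 14841, nat_lit 0, nat_lit 0, nat_lit 9362, nat_lit 6822, nat_lit 1239, nat_lit 0, nat_lit 0, nat_lit 0, nat_lit 0, nat_lit 0, nat_lit 0, nat_lit 0, nat_lit 0, nat_lit 0, nat_lit 0, nat_lit 0, [],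
 ⟨p013_k29, nat_lit 0, nat_lit 0, nat_lit 605, nat_lit 0, nat_lit 1171164, [nat_lit 4688000000, nat_lit 6250000000], [], [nat_lit 17340991904, nat_lit 17378046057, nat_lit 17900826433, nat_lit 18051792489], nat_lit 1271250, nat_lit 1271250, nat_lit 780000, nat_lit 1100001, nat_lit 0, nat_lit 0, [nat_lit 1100000, nat_lit 1442500], [nat_lit 31, nat_lit 40, nat_lit 20, nat_lit 80, nat_lit 3, nat_lit 249, nat_lit 40, nat_lit 9]⟩, ⟨p013_k29, nat_lit 0, nat_lit 0, nat_lit 52, nat_lit 0, nat_lit 0, [nat_lit 4688000000, nat_lit 6250000000], [], [nat_lit 15296706406, nat_lit 15407060359, nat_lit 16234233529, nat_lit 16337235565], nat_lit 0, nat_lit 0, nat_lit 0, nat_lit 0, nat_lit 0, nat_lit 0, [], [nat_lit 31, nat_lit 40, nat_lit 20, nat_lit 80, nat_lit 3, nat_lit 249, nat_lit 40, nat_lit 9]⟩,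
 zbF0, []⟩
noncomputable def p013_l91 : Lf2 := ⟨nat_lit 0, nat_lit 1, [nat_lit 19, nat_lit 5, nat_lit 5, nat_lit 20], false, nat_lit 0, nat_lit 0, nat_lit 0, nat_lit 0, ⟨nat_lit 1000, nat_lit 0, nat_lit 0, nat_lit 0, nat_lit 0, nat_lit 0, nat_lit 0, nat_lit 0, nat_lit 0, nat_lit 0, nat_lit 0, nat_lit 0, nat_lit 0, nat_lit 0, nat_lit 0, nat_lit 0, false, false⟩,
 nat_lit 0, nat_lit 14224, nat_lit 0, nat_lit 0, nat_lit 9012, nat_lit 6577, nat_lit 1248, nat_lit 0, nat_lit 0, nat_lit 0, nat_lit 0, nat_lit 0, nat_lit 0, nat_lit 0, nat_lit 0, nat_lit 0, nat_lit 0, nat_lit 0, [],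
 ⟨p013_k32, nat_lit 0, nat_lit 0, nat_lit 573, nat_lit 0, nat_lit 1086662, [nat_lit 4688000000, nat_lit 6250000000], [], [nat_lit 19864208239, nat_lit 19680354544, nat_lit 19107941108, nat_lit 19141520848], nat_lit 1271250, nat_lit 1271250, nat_lit 490000, nat_lit 1100001, nat_lit 0, nat_lit 0, [nat_lit 1100000, nat_lit 1442500], [nat_lit 31, nat_lit 40, nat_lit 20, nat_lit 80, nat_lit 3, nat_lit 249, nat_lit 40, nat_lit 10]⟩, ⟨p013_k27, nat_lit 0, nat_lit 0, nat_lit 57, nat_lit 0, nat_lit 0, [nat_lit 4688000000, nat_lit 6250000000], [], [nat_lit 13437214130, nat_lit 14571980043, nat_lit 14535178494, nat_lit 15541755047], nat_lit 0, nat_lit 0, nat_lit 0, nat_lit 0, nat_lit 0, nat_lit 0, [], [nat_lit 31, nat_lit 40, nat_lit 20, nat_lit 80, nat_lit 3, nat_lit 249, nat_lit 40, nat_lit 10]⟩,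
 zbF0, []⟩
noncomputable def p013_l92 : Lf2 := ⟨nat_lit 0, nat_lit 1, [nat_lit 19, nat_lit 5, nat_lit 5, nat_lit 20], false, nat_lit 0, nat_lit 0, nat_lit 0, nat_lit 0, ⟨nat_lit 1000, nat_lit 0, nat_lit 0, nat_lit 0, nat_lit 0, nat_lit 0, nat_lit 0, nat_lit 0, nat_lit 0, nat_lit 0, nat_lit 0, nat_lit 0, nat_lit 0, nat_lit 0, nat_lit 0, nat_lit 0, false, false⟩,
 nat_lit 0, nat_lit 14223, nat_lit 0, nat_lit 0, nat_lit 9011, nat_lit 6505, nat_lit 1248, nat_lit 0, nat_lit 0, nat_lit 0, nat_lit 0, nat_lit 0, nat_lit 0, nat_lit 0, nat_lit 0, nat_lit 0, nat_lit 0, nat_lit 0, [],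
 ⟨p013_k32, nat_lit 0, nat_lit 0, nat_lit 606, nat_lit 0, nat_lit 1133213, [nat_lit 4688000000, nat_lit 6250000000], [], [nat_lit 19865783894, nat_lit 19685286332, nat_lit 19113091032, nat_lit 19146669444], nat_lit 1271250, nat_lit 1271250, nat_lit 490000, nat_lit 1100001, nat_lit 0, nat_lit 0, [nat_lit 1100000, nat_lit 1442500], [nat_lit 31, nat_lit 40, nat_lit 20, nat_lit 80, nat_lit 3, nat_lit 249, nat_lit 40, nat_lit 10]⟩, ⟨p013_k30, nat_lit 0, nat_lit 0, nat_lit 61, nat_lit 0, nat_lit 0, [nat_lit 4688000000, nat_lit 6250000000], [], [nat_lit 14598183795, nat_lit 15161557468, nat_lit 15580411055, nat_lit 16080254528], nat_lit 0, nat_lit 0, nat_lit 0, nat_lit 0, nat_lit 0, nat_lit 0, [], [nat_lit 31, nat_lit 40, nat_lit 20, nat_lit 80, nat_lit 3, nat_lit 249, nat_lit 40, nat_lit 10]⟩,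
 zbF0, []⟩
noncomputable def p013_l93 : Lf2 := ⟨nat_lit 0, nat_lit 1, [nat_lit 19, nat_lit 5, nat_lit 5, nat_lit 20], false, nat_lit 0, nat_lit 0, nat_lit 0, nat_lit 0, ⟨nat_lit 1000, nat_lit 0, nat_lit 0, nat_lit 0, nat_lit 0, nat_lit 0, nat_lit 0, nat_lit 0, nat_lit 0, nat_lit 0, nat_lit 0, nat_lit 0, nat_lit 0, nat_lit 0, nat_lit 0, nat_lit 0, false, false⟩,
 nat_lit 0, nat_lit 14222, nat_lit 0, nat_lit 0, nat_lit 9011, nat_lit 6463, nat_lit 1248, nat_lit 0, nat_lit 0, nat_lit 0, nat_lit 0, nat_lit 0, nat_lit 0, nat_lit 0, nat_lit 0, nat_lit 0, nat_lit 0, nat_lit 0, [],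
 ⟨p013_k32, nat_lit 0, nat_lit 0, nat_lit 617, nat_lit 0, nat_lit 1162039, [nat_lit 4688000000, nat_lit 6250000000], [], [nat_lit 19865783894, nat_lit 19685286332, nat_lit 19113091032, nat_lit 19146669444], nat_lit 1271250, nat_lit 1271250, nat_lit 490000, nat_lit 1100001, nat_lit 0, nat_lit 0, [nat_lit 1100000, nat_lit 1442500], [nat_lit 31, nat_lit 40, nat_lit 20, nat_lit 80, nat_lit 3, nat_lit 249, nat_lit 40, nat_lit 10]⟩, ⟨p013_k31, nat_lit 0, nat_lit 0, nat_lit 63, nat_lit 0, nat_lit 0, [nat_lit 4688000000, nat_lit 6250000000], [], [nat_lit 15174504241, nat_lit 15511125195, nat_lit 16100794397, nat_lit 16399494799], nat_lit 0, nat_lit 0, nat_lit 0, nat_lit 0, nat_lit 0, nat_lit 0, [], [nat_lit 31, nat_lit 40, nat_lit 20, nat_lit 80, nat_lit 3, nat_lit 249, nat_lit 40, nat_lit 10]⟩,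
 zbF0, []⟩
noncomputable def p013_l94 : Lf2 := ⟨nat_lit 0, nat_lit 1, [nat_lit 19, nat_lit 5, nat_lit 5, nat_lit 20], false, nat_lit 0, nat_lit 0, nat_lit 0, nat_lit 0, ⟨nat_lit 982, nat_lit 0, nat_lit 18, nat_lit 6, nat_lit 151, nat_lit 0, nat_lit 0, nat_lit 0, nat_lit 0, nat_lit 215, nat_lit 212817, nat_lit 328, nat_lit 58621882, nat_lit 0, nat_lit 0, nat_lit 1884301, false, false⟩,
 nat_lit 0, nat_lit 15561, nat_lit 0, nat_lit 0, nat_lit 9859, nat_lit 0, nat_lit 0, nat_lit 0, nat_lit 0, nat_lit 0, nat_lit 0, nat_lit 0, nat_lit 0, nat_lit 400000000000000, nat_lit 0, nat_lit 3330, nat_lit 0, nat_lit 0, [(nat_lit 9, [(nat_lit 3, nat_lit 18)])],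
 ⟨p013_k32, nat_lit 0, nat_lit 0, nat_lit 320, nat_lit 0, nat_lit 538273, [nat_lit 5438873600, nat_lit 6137240800], [], [nat_lit 20782249170, nat_lit 20529337228, nat_lit 18193471930, nat_lit 18306898000], nat_lit 1271250, nat_lit 1271250, nat_lit 490000, nat_lit 631250, nat_lit 0, nat_lit 0, [nat_lit 1100000, nat_lit 1442500], [nat_lit 31, nat_lit 40, nat_lit 20, nat_lit 80, nat_lit 3, nat_lit 232, nat_lit 25, nat_lit 9]⟩, ⟨p013_k29, nat_lit 0, nat_lit 0, nat_lit 65, nat_lit 0, nat_lit 0, [nat_lit 4603616000, nat_lit 6137500000], [], [nat_lit 16976279436, nat_lit 17055289584, nat_lit 17443036409, nat_lit 17520953984], nat_lit 0, nat_lit 0, nat_lit 0, nat_lit 0, nat_lit 0, nat_lit 0, [], [nat_lit 31, nat_lit 40, nat_lit 20, nat_lit 80, nat_lit 3, nat_lit 232, nat_lit 25, nat_lit 9]⟩,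
 ⟨nat_lit 5477, nat_lit 5500, ⟨.ofNat (nat_lit 357951), .ofNat (nat_lit 395507), .ofNat (nat_lit 360087), .ofNat (nat_lit 397642), .ofNat (nat_lit 358492), .ofNat (nat_lit 395958), .ofNat (nat_lit 360628), .ofNat (nat_lit 398094)⟩, ⟨.ofNat (nat_lit 0), .ofNat (nat_lit 0), .ofNat (nat_lit 0), .ofNat (nat_lit 0), .ofNat (nat_lit 0), .ofNat (nat_lit 0), .ofNat (nat_lit 0), .ofNat (nat_lit 0)⟩⟩, [⟨nat_lit 13, nat_lit 100, nat_lit 1, nat_lit 100, nat_lit 61289659⟩]⟩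
noncomputable def p013_l95 : Lf2 := ⟨nat_lit 0, nat_lit 1, [nat_lit 19, nat_lit 5, nat_lit 5, nat_lit 20], false, nat_lit 0, nat_lit 0, nat_lit 0, nat_lit 0, ⟨nat_lit 1000, nat_lit 0, nat_lit 0, nat_lit 0, nat_lit 0, nat_lit 0, nat_lit 0, nat_lit 0, nat_lit 0, nat_lit 0, nat_lit 0, nat_lit 0, nat_lit 0, nat_lit 0, nat_lit 0, nat_lit 0, false, false⟩,
 nat_lit 0, nat_lit 14709, nat_lit 0, nat_lit 0, nat_lit 9319, nat_lit 6654, nat_lit 1223, nat_lit 0, nat_lit 0, nat_lit 0, nat_lit 0, nat_lit 0, nat_lit 0, nat_lit 0, nat_lit 0, nat_lit 0, nat_lit 0, nat_lit 0, [],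
 ⟨p013_k32, nat_lit 0, nat_lit 0, nat_lit 617, nat_lit 0, nat_lit 1181399, [nat_lit 4688000000, nat_lit 6250000000], [], [nat_lit 17800910517, nat_lit 17836248288, nat_lit 17595824372, nat_lit 17632809896], nat_lit 1271250, nat_lit 1271250, nat_lit 631250, nat_lit 780000, nat_lit 0, nat_lit 0, [nat_lit 1100000, nat_lit 1442500], [nat_lit 31, nat_lit 40, nat_lit 20, nat_lit 80, nat_lit 3, nat_lit 238, nat_lit 30, nat_lit 9]⟩, ⟨p013_k29, nat_lit 0, nat_lit 0, nat_lit 58, nat_lit 0, nat_lit 0, [nat_lit 4688000000, nat_lit 6250000000], [], [nat_lit 15270228371, nat_lit 15493569392, nat_lit 15369971777, nat_lit 15587168584], nat_lit 0, nat_lit 0, nat_lit 0, nat_lit 0, nat_lit 0, nat_lit 0, [], [nat_lit 31, nat_lit 40, nat_lit 20, nat_lit 80, nat_lit 3, nat_lit 238, nat_lit 30, nat_lit 9]⟩,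
 zbF0, []⟩
noncomputable def p013_l96 : Lf2 := ⟨nat_lit 0, nat_lit 1, [nat_lit 19, nat_lit 5, nat_lit 5, nat_lit 20], false, nat_lit 0, nat_lit 0, nat_lit 0, nat_lit 0, ⟨nat_lit 1000, nat_lit 0, nat_lit 0, nat_lit 0, nat_lit 0, nat_lit 0, nat_lit 0, nat_lit 0, nat_lit 0, nat_lit 0, nat_lit 0, nat_lit 0, nat_lit 0, nat_lit 0, nat_lit 0, nat_lit 0, false, false⟩,
 nat_lit 0, nat_lit 14744, nat_lit 0, nat_lit 0, nat_lit 9341, nat_lit 6806, nat_lit 1204, nat_lit 0, nat_lit 0, nat_lit 0, nat_lit 0, nat_lit 0, nat_lit 0, nat_lit 0, nat_lit 0, nat_lit 0, nat_lit 0, nat_lit 0, [],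
 ⟨p013_k32, nat_lit 0, nat_lit 0, nat_lit 609, nat_lit 0, nat_lit 1181399, [nat_lit 4688000000, nat_lit 6250000000], [], [nat_lit 17484402908, nat_lit 17521423544, nat_lit 18036600121, nat_lit 18187321192], nat_lit 1271250, nat_lit 1271250, nat_lit 780000, nat_lit 1100001, nat_lit 0, nat_lit 0, [nat_lit 1100000, nat_lit 1442500], [nat_lit 31, nat_lit 40, nat_lit 20, nat_lit 80, nat_lit 3, nat_lit 249, nat_lit 40, nat_lit 9]⟩, ⟨p013_k29, nat_lit 0, nat_lit 0, nat_lit 53, nat_lit 0, nat_lit 0, [nat_lit 4688000000, nat_lit 6250000000], [], [nat_lit 15303684060, nat_lit 15524057576, nat_lit 16241598934, nat_lit 16447296800], nat_lit 0, nat_lit 0, nat_lit 0, nat_lit 0, nat_lit 0, nat_lit 0, [], [nat_lit 31, nat_lit 40, nat_lit 20, nat_lit 80, nat_lit 3, nat_lit 249, nat_lit 40, nat_lit 9]⟩,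
 zbF0, []⟩
noncomputable def p013_l97 : Lf2 := ⟨nat_lit 0, nat_lit 2, [nat_lit 10, nat_lit 5, nat_lit 5, nat_lit 20], false, nat_lit 0, nat_lit 0, nat_lit 0, nat_lit 0, ⟨nat_lit 1000, nat_lit 0, nat_lit 0, nat_lit 0, nat_lit 0, nat_lit 0, nat_lit 0, nat_lit 0, nat_lit 0, nat_lit 0, nat_lit 0, nat_lit 0, nat_lit 0, nat_lit 0, nat_lit 0, nat_lit 0, false, false⟩,
 nat_lit 0, nat_lit 14308, nat_lit 0, nat_lit 0, nat_lit 9026, nat_lit 6434, nat_lit 1282, nat_lit 0, nat_lit 0, nat_lit 0, nat_lit 0, nat_lit 0, nat_lit 0, nat_lit 56545771393033, nat_lit 0, nat_lit 0, nat_lit 0, nat_lit 0, [],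
 ⟨p013_k33, nat_lit 0, nat_lit 0, nat_lit 595, nat_lit 0, nat_lit 1116926, [nat_lit 4688000000, nat_lit 6250000000], [], [nat_lit 20073692143, nat_lit 19611309512, nat_lit 19002243828, nat_lit 19069440504], nat_lit 1271250, nat_lit 1271250, nat_lit 490000, nat_lit 1100001, nat_lit 0, nat_lit 0, [nat_lit 1100000, nat_lit 1442500], [nat_lit 31, nat_lit 40, nat_lit 20, nat_lit 80, nat_lit 3, nat_lit 249, nat_lit 40, nat_lit 10]⟩, ⟨p013_k17, nat_lit 0, nat_lit 0, nat_lit 65, nat_lit 0, nat_lit 0, [nat_lit 4688000000, nat_lit 6250000000], [], [nat_lit 13505183460, nat_lit 15742863752, nat_lit 14625637148, nat_lit 16611423200], nat_lit 0, nat_lit 0, nat_lit 0, nat_lit 0, nat_lit 0, nat_lit 0, [], [nat_lit 31, nat_lit 40, nat_lit 20, nat_lit 80, nat_lit 3, nat_lit 249, nat_lit 40, nat_lit 10]⟩,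
 zbF0, []⟩
noncomputable def p013_l98 : Lf2 := ⟨nat_lit 0, nat_lit 5, [nat_lit 4, nat_lit 5, nat_lit 5, nat_lit 20], false, nat_lit 0, nat_lit 0, nat_lit 0, nat_lit 0, ⟨nat_lit 1000, nat_lit 0, nat_lit 0, nat_lit 0, nat_lit 0, nat_lit 0, nat_lit 0, nat_lit 0, nat_lit 0, nat_lit 0, nat_lit 0, nat_lit 0, nat_lit 0, nat_lit 0, nat_lit 0, nat_lit 0, false, false⟩,
 nat_lit 0, nat_lit 13312, nat_lit 0, nat_lit 0, nat_lit 8288, nat_lit 7795, nat_lit 1682, nat_lit 0, nat_lit 0, nat_lit 2793, nat_lit 0, nat_lit 0, nat_lit 0, nat_lit 50785952649852, nat_lit 0, nat_lit 0, nat_lit 0, nat_lit 0, [],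
 ⟨p013_k34, nat_lit 0, nat_lit 0, nat_lit 645, nat_lit 0, nat_lit 1041196, [nat_lit 4688000000, nat_lit 6250000000, nat_lit 7968000000], [], [nat_lit 21855427472, nat_lit 21432929689, nat_lit 21206513844, nat_lit 21288930605], nat_lit 1271250, nat_lit 1271250, nat_lit 490000, nat_lit 1100001, nat_lit 0, nat_lit 0, [nat_lit 1100000, nat_lit 1442500, nat_lit 1271250], [nat_lit 9, nat_lit 40, nat_lit 20, nat_lit 80, nat_lit 2, nat_lit 249, nat_lit 40, nat_lit 8]⟩, ⟨p013_k0, nat_lit 0, nat_lit 0, nat_lit 124, nat_lit 0, nat_lit 0, [nat_lit 4688000000, nat_lit 6250000000, nat_lit 7968000000], [], [nat_lit 15073853820, nat_lit 16687426519, nat_lit 15775835855, nat_lit 17223626694], nat_lit 0, nat_lit 0, nat_lit 0, nat_lit 0, nat_lit 0, nat_lit 0, [], [nat_lit 9, nat_lit 40, nat_lit 20, nat_lit 80, nat_lit 2, nat_lit 249, nat_lit 40, nat_lit 8]⟩,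
 zbF0, []⟩
noncomputable def p013_l99 : Lf2 := ⟨nat_lit 0, nat_lit 5, [nat_lit 4, nat_lit 5, nat_lit 5, nat_lit 20], false, nat_lit 0, nat_lit 0, nat_lit 0, nat_lit 0, ⟨nat_lit 1000, nat_lit 0, nat_lit 0, nat_lit 0, nat_lit 0, nat_lit 0, nat_lit 0, nat_lit 0, nat_lit 0, nat_lit 0, nat_lit 0, nat_lit 0, nat_lit 0, nat_lit 0, nat_lit 0, nat_lit 0, false, false⟩,
 nat_lit 0, nat_lit 13350, nat_lit 0, nat_lit 0, nat_lit 8385, nat_lit 7775, nat_lit 1627, nat_lit 0, nat_lit 0, nat_lit 2783, nat_lit 0, nat_lit 0, nat_lit 0, nat_lit 50665071374837, nat_lit 0, nat_lit 0, nat_lit 0, nat_lit 0, [],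
 ⟨p013_k35, nat_lit 0, nat_lit 0, nat_lit 647, nat_lit 0, nat_lit 1046430, [nat_lit 4688000000, nat_lit 6250000000, nat_lit 7968000000], [], [nat_lit 21282343120, nat_lit 21069119620, nat_lit 20857129818, nat_lit 20898546505], nat_lit 1271250, nat_lit 1271250, nat_lit 490000, nat_lit 1100001, nat_lit 0, nat_lit 0, [nat_lit 1100000, nat_lit 1442500, nat_lit 1271250], [nat_lit 9, nat_lit 40, nat_lit 20, nat_lit 80, nat_lit 2, nat_lit 249, nat_lit 40, nat_lit 8]⟩, ⟨p013_k0, nat_lit 0, nat_lit 0, nat_lit 125, nat_lit 0, nat_lit 0, [nat_lit 4688000000, nat_lit 6250000000, nat_lit 7968000000], [], [nat_lit 15120329900, nat_lit 16815997330, nat_lit 15813460225, nat_lit 17343995095], nat_lit 0, nat_lit 0, nat_lit 0, nat_lit 0, nat_lit 0, nat_lit 0, [], [nat_lit 9, nat_lit 40, nat_lit 20, nat_lit 80, nat_lit 2, nat_lit 249, nat_lit 40, nat_lit 8]⟩,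
 zbF0, []⟩
noncomputable def p013_l100 : Lf2 := ⟨nat_lit 0, nat_lit 5, [nat_lit 4, nat_lit 5, nat_lit 5, nat_lit 20], false, nat_lit 0, nat_lit 0, nat_lit 0, nat_lit 0, ⟨nat_lit 1000, nat_lit 0, nat_lit 0, nat_lit 0, nat_lit 0, nat_lit 0, nat_lit 0, nat_lit 0, nat_lit 0, nat_lit 0, nat_lit 0, nat_lit 0, nat_lit 0, nat_lit 0, nat_lit 0, nat_lit 0, false, false⟩,
 nat_lit 0, nat_lit 13562, nat_lit 0, nat_lit 0, nat_lit 8555, nat_lit 6577, nat_lit 1580, nat_lit 0, nat_lit 0, nat_lit 0, nat_lit 0, nat_lit 0, nat_lit 0, nat_lit 0, nat_lit 0, nat_lit 0, nat_lit 0, nat_lit 0, [],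
 ⟨p013_k36, nat_lit 0, nat_lit 0, nat_lit 619, nat_lit 0, nat_lit 980142, [nat_lit 4688000000, nat_lit 6250000000, nat_lit 7968000000], [], [nat_lit 20803743179, nat_lit 20441812100, nat_lit 20142147315, nat_lit 20225710840], nat_lit 1271250, nat_lit 1271250, nat_lit 490000, nat_lit 1100001, nat_lit 0, nat_lit 0, [nat_lit 1100000, nat_lit 1442500, nat_lit 1271250], [nat_lit 9, nat_lit 40, nat_lit 20, nat_lit 80, nat_lit 2, nat_lit 249, nat_lit 40, nat_lit 8]⟩, ⟨p013_k0, nat_lit 0, nat_lit 0, nat_lit 79, nat_lit 0, nat_lit 0, [nat_lit 4688000000, nat_lit 6250000000, nat_lit 7968000000], [], [nat_lit 13437214130, nat_lit 14571980043, nat_lit 14535178494, nat_lit 15541755047], nat_lit 0, nat_lit 0, nat_lit 0, nat_lit 0, nat_lit 0, nat_lit 0, [], [nat_lit 9, nat_lit 40, nat_lit 20, nat_lit 80, nat_lit 2, nat_lit 249, nat_lit 40, nat_lit 8]⟩,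
 zbF0, []⟩
noncomputable def p013_l101 : Lf2 := ⟨nat_lit 0, nat_lit 5, [nat_lit 4, nat_lit 5, nat_lit 5, nat_lit 20], false, nat_lit 0, nat_lit 0, nat_lit 0, nat_lit 0, ⟨nat_lit 1000, nat_lit 0, nat_lit 0, nat_lit 0, nat_lit 0, nat_lit 0, nat_lit 0, nat_lit 0, nat_lit 0, nat_lit 0, nat_lit 0, nat_lit 0, nat_lit 0, nat_lit 0, nat_lit 0, nat_lit 0, false, false⟩,
 nat_lit 0, nat_lit 13560, nat_lit 0, nat_lit 0, nat_lit 8554, nat_lit 7351, nat_lit 1580, nat_lit 0, nat_lit 0, nat_lit 2701, nat_lit 0, nat_lit 0, nat_lit 0, nat_lit 0, nat_lit 0, nat_lit 0, nat_lit 0, nat_lit 0, [],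
 ⟨p013_k36, nat_lit 0, nat_lit 0, nat_lit 639, nat_lit 0, nat_lit 1026832, [nat_lit 4688000000, nat_lit 6250000000, nat_lit 7968000000], [], [nat_lit 20805293182, nat_lit 20446055480, nat_lit 20146596722, nat_lit 20230155952], nat_lit 1271250, nat_lit 1271250, nat_lit 490000, nat_lit 1100001, nat_lit 0, nat_lit 0, [nat_lit 1100000, nat_lit 1442500, nat_lit 1271250], [nat_lit 9, nat_lit 40, nat_lit 20, nat_lit 80, nat_lit 2, nat_lit 249, nat_lit 40, nat_lit 8]⟩, ⟨p013_k2, nat_lit 0, nat_lit 0, nat_lit 122, nat_lit 0, nat_lit 0, [nat_lit 4688000000, nat_lit 6250000000, nat_lit 7968000000], [], [nat_lit 15546138463, nat_lit 15967543595, nat_lit 16194190195, nat_lit 16605086858], nat_lit 0, nat_lit 0, nat_lit 0, nat_lit 0, nat_lit 0, nat_lit 0, [], [nat_lit 9, nat_lit 40, nat_lit 20, nat_lit 80, nat_lit 2, nat_lit 249, nat_lit 40, nat_lit 8]⟩,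
 zbF0, []⟩
noncomputable def p013_l102 : Lf2 := ⟨nat_lit 0, nat_lit 5, [nat_lit 4, nat_lit 5, nat_lit 5, nat_lit 20], false, nat_lit 0, nat_lit 0, nat_lit 0, nat_lit 0, ⟨nat_lit 1000, nat_lit 0, nat_lit 0, nat_lit 0, nat_lit 0, nat_lit 0, nat_lit 0, nat_lit 0, nat_lit 0, nat_lit 0, nat_lit 0, nat_lit 0, nat_lit 0, nat_lit 0, nat_lit 0, nat_lit 0, false, false⟩,
 nat_lit 0, nat_lit 13821, nat_lit 0, nat_lit 0, nat_lit 8719, nat_lit 7701, nat_lit 1151, nat_lit 0, nat_lit 0, nat_lit 2278, nat_lit 0, nat_lit 0, nat_lit 0, nat_lit 372645741676764, nat_lit 0, nat_lit 0, nat_lit 0, nat_lit 0, [],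
 ⟨p013_k36, nat_lit 0, nat_lit 0, nat_lit 388, nat_lit 0, nat_lit 506841, [nat_lit 4688000000, nat_lit 6250000000, nat_lit 7968000000], [], [nat_lit 20549542819, nat_lit 20102207548, nat_lit 19652201689, nat_lit 19762703830], nat_lit 1271250, nat_lit 1271250, nat_lit 490000, nat_lit 631250, nat_lit 0, nat_lit 0, [nat_lit 1100000, nat_lit 1442500, nat_lit 1271250], [nat_lit 9, nat_lit 40, nat_lit 20, nat_lit 80, nat_lit 2, nat_lit 232, nat_lit 25, nat_lit 8]⟩, ⟨p013_k34, nat_lit 0, nat_lit 0, nat_lit 127, nat_lit 0, nat_lit 0, [nat_lit 4688000000, nat_lit 6250000000, nat_lit 7968000000], [], [nat_lit 16304286634, nat_lit 17034156904, nat_lit 16042523266, nat_lit 16464057636], nat_lit 0, nat_lit 0, nat_lit 0, nat_lit 0, nat_lit 0, nat_lit 0, [], [nat_lit 9, nat_lit 40, nat_lit 20, nat_lit 80, nat_lit 2, nat_lit 232, nat_lit 25, nat_lit 8]⟩,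
 zbF0, []⟩
noncomputable def p013_l103 : Lf2 := ⟨nat_lit 0, nat_lit 5, [nat_lit 4, nat_lit 5, nat_lit 5, nat_lit 20], false, nat_lit 0, nat_lit 0, nat_lit 0, nat_lit 0, ⟨nat_lit 1000, nat_lit 0, nat_lit 0, nat_lit 0, nat_lit 0, nat_lit 0, nat_lit 0, nat_lit 0, nat_lit 0, nat_lit 0, nat_lit 0, nat_lit 0, nat_lit 0, nat_lit 0, nat_lit 0, nat_lit 0, false, false⟩,
 nat_lit 0, nat_lit 14273, nat_lit 0, nat_lit 0, nat_lit 9004, nat_lit 6654, nat_lit 1557, nat_lit 0, nat_lit 0, nat_lit 0, nat_lit 0, nat_lit 0, nat_lit 0, nat_lit 0, nat_lit 0, nat_lit 0, nat_lit 0, nat_lit 0, [],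
 ⟨p013_k36, nat_lit 0, nat_lit 0, nat_lit 649, nat_lit 0, nat_lit 1075191, [nat_lit 4688000000, nat_lit 6250000000, nat_lit 7968000000], [], [nat_lit 18182895488, nat_lit 18261300336, nat_lit 18033918884, nat_lit 18126498288], nat_lit 1271250, nat_lit 1271250, nat_lit 631250, nat_lit 780000, nat_lit 0, nat_lit 0, [nat_lit 1100000, nat_lit 1442500, nat_lit 1271250], [nat_lit 9, nat_lit 40, nat_lit 20, nat_lit 80, nat_lit 2, nat_lit 238, nat_lit 30, nat_lit 8]⟩, ⟨p013_k34, nat_lit 0, nat_lit 0, nat_lit 78, nat_lit 0, nat_lit 0, [nat_lit 4688000000, nat_lit 6250000000, nat_lit 7968000000], [], [nat_lit 14935216838, nat_lit 15493569392, nat_lit 15044176565, nat_lit 15587168584], nat_lit 0, nat_lit 0, nat_lit 0, nat_lit 0, nat_lit 0, nat_lit 0, [], [nat_lit 9, nat_lit 40, nat_lit 20, nat_lit 80, nat_lit 2, nat_lit 238, nat_lit 30, nat_lit 8]⟩,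
 zbF0, []⟩
noncomputable def p013_l104 : Lf2 := ⟨nat_lit 0, nat_lit 5, [nat_lit 4, nat_lit 5, nat_lit 5, nat_lit 20], false, nat_lit 0, nat_lit 0, nat_lit 0, nat_lit 0, ⟨nat_lit 1000, nat_lit 0, nat_lit 0, nat_lit 0, nat_lit 0, nat_lit 0, nat_lit 0, nat_lit 0, nat_lit 0, nat_lit 0, nat_lit 0, nat_lit 0, nat_lit 0, nat_lit 0, nat_lit 0, nat_lit 0, false, false⟩,
 nat_lit 0, nat_lit 14264, nat_lit 0, nat_lit 0, nat_lit 8998, nat_lit 6806, nat_lit 1531, nat_lit 0, nat_lit 0, nat_lit 0, nat_lit 0, nat_lit 0, nat_lit 0, nat_lit 0, nat_lit 0, nat_lit 0, nat_lit 0, nat_lit 0, [],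
 ⟨p013_k36, nat_lit 0, nat_lit 0, nat_lit 640, nat_lit 0, nat_lit 1075191, [nat_lit 4688000000, nat_lit 6250000000, nat_lit 7968000000], [], [nat_lit 18077710779, nat_lit 18153331056, nat_lit 18433517488, nat_lit 18635823128], nat_lit 1271250, nat_lit 1271250, nat_lit 780000, nat_lit 1100001, nat_lit 0, nat_lit 0, [nat_lit 1100000, nat_lit 1442500, nat_lit 1271250], [nat_lit 9, nat_lit 40, nat_lit 20, nat_lit 80, nat_lit 2, nat_lit 249, nat_lit 40, nat_lit 8]⟩, ⟨p013_k34, nat_lit 0, nat_lit 0, nat_lit 72, nat_lit 0, nat_lit 0, [nat_lit 4688000000, nat_lit 6250000000, nat_lit 7968000000], [], [nat_lit 14973123785, nat_lit 15524057576, nat_lit 15933052133, nat_lit 16447296800], nat_lit 0, nat_lit 0, nat_lit 0, nat_lit 0, nat_lit 0, nat_lit 0, [], [nat_lit 9, nat_lit 40, nat_lit 20, nat_lit 80, nat_lit 2, nat_lit 249, nat_lit 40, nat_lit 8]⟩,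
 zbF0, []⟩
noncomputable def p013_l105 : Lf2 := ⟨nat_lit 0, nat_lit 5, [nat_lit 4, nat_lit 5, nat_lit 5, nat_lit 20], false, nat_lit 0, nat_lit 0, nat_lit 0, nat_lit 0, ⟨nat_lit 1000, nat_lit 0, nat_lit 0, nat_lit 0, nat_lit 0, nat_lit 0, nat_lit 0, nat_lit 0, nat_lit 0, nat_lit 0, nat_lit 0, nat_lit 0, nat_lit 0, nat_lit 0, nat_lit 0, nat_lit 0, false, false⟩,
 nat_lit 0, nat_lit 11840, nat_lit 0, nat_lit 0, nat_lit 7210, nat_lit 7701, nat_lit 1966, nat_lit 0, nat_lit 0, nat_lit 2646, nat_lit 0, nat_lit 0, nat_lit 0, nat_lit 45515282202038, nat_lit 0, nat_lit 0, nat_lit 0, nat_lit 0, [],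
 ⟨p013_k2, nat_lit 0, nat_lit 0, nat_lit 560, nat_lit 0, nat_lit 874433, [nat_lit 4688000000, nat_lit 6250000000, nat_lit 7968000000], [], [nat_lit 24368155410, nat_lit 23444972725, nat_lit 23436553190, nat_lit 23677401335], nat_lit 1271250, nat_lit 1271250, nat_lit 490000, nat_lit 1100001, nat_lit 0, nat_lit 0, [nat_lit 1100000, nat_lit 1442500, nat_lit 1271250], [nat_lit 9, nat_lit 40, nat_lit 20, nat_lit 80, nat_lit 2, nat_lit 249, nat_lit 40, nat_lit 8]⟩, ⟨p013_k0, nat_lit 0, nat_lit 0, nat_lit 122, nat_lit 0, nat_lit 0, [nat_lit 4688000000, nat_lit 6250000000, nat_lit 7968000000], [], [nat_lit 15532291396, nat_lit 16830599134, nat_lit 16035482894, nat_lit 17303466533], nat_lit 0, nat_lit 0, nat_lit 0, nat_lit 0, nat_lit 0, nat_lit 0, [], [nat_lit 9, nat_lit 40, nat_lit 20, nat_lit 80, nat_lit 2, nat_lit 249, nat_lit 40, nat_lit 8]⟩,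
 zbF0, []⟩
noncomputable def p013_l106 : Lf2 := ⟨nat_lit 0, nat_lit 5, [nat_lit 4, nat_lit 5, nat_lit 5, nat_lit 20], false, nat_lit 0, nat_lit 0, nat_lit 0, nat_lit 0, ⟨nat_lit 1000, nat_lit 0, nat_lit 0, nat_lit 0, nat_lit 0, nat_lit 0, nat_lit 0, nat_lit 0, nat_lit 0, nat_lit 0, nat_lit 0, nat_lit 0, nat_lit 0, nat_lit 0, nat_lit 0, nat_lit 0, false, false⟩,
 nat_lit 0, nat_lit 12385, nat_lit 0, nat_lit 0, nat_lit 7711, nat_lit 6577, nat_lit 1846, nat_lit 0, nat_lit 0, nat_lit 0, nat_lit 0, nat_lit 0, nat_lit 0, nat_lit 0, nat_lit 0, nat_lit 0, nat_lit 0, nat_lit 0, [],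
 ⟨p013_k34, nat_lit 0, nat_lit 0, nat_lit 547, nat_lit 0, nat_lit 842273, [nat_lit 4688000000, nat_lit 6250000000, nat_lit 7968000000], [], [nat_lit 22705373572, nat_lit 21864124120, nat_lit 21800586949, nat_lit 22049313068], nat_lit 1271250, nat_lit 1271250, nat_lit 490000, nat_lit 1100001, nat_lit 0, nat_lit 0, [nat_lit 1100000, nat_lit 1442500, nat_lit 1271250], [nat_lit 9, nat_lit 40, nat_lit 20, nat_lit 80, nat_lit 2, nat_lit 249, nat_lit 40, nat_lit 8]⟩, ⟨p013_k0, nat_lit 0, nat_lit 0, nat_lit 79, nat_lit 0, nat_lit 0, [nat_lit 4688000000, nat_lit 6250000000, nat_lit 7968000000], [], [nat_lit 13437214130, nat_lit 14571980043, nat_lit 14535178494, nat_lit 15541755047], nat_lit 0, nat_lit 0, nat_lit 0, nat_lit 0, nat_lit 0, nat_lit 0, [], [nat_lit 9, nat_lit 40, nat_lit 20, nat_lit 80, nat_lit 2, nat_lit 249, nat_lit 40, nat_lit 8]⟩,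
 zbF0, []⟩
noncomputable def p013_l107 : Lf2 := ⟨nat_lit 0, nat_lit 5, [nat_lit 4, nat_lit 5, nat_lit 5, nat_lit 20], false, nat_lit 0, nat_lit 0, nat_lit 0, nat_lit 0, ⟨nat_lit 1000, nat_lit 0, nat_lit 0, nat_lit 0, nat_lit 0, nat_lit 0, nat_lit 0, nat_lit 0, nat_lit 0, nat_lit 0, nat_lit 0, nat_lit 0, nat_lit 0, nat_lit 0, nat_lit 0, nat_lit 0, false, false⟩,
 nat_lit 0, nat_lit 13467, nat_lit 0, nat_lit 0, nat_lit 8385, nat_lit 7652, nat_lit 1680, nat_lit 0, nat_lit 0, nat_lit 2424, nat_lit 0, nat_lit 0, nat_lit 0, nat_lit 53422432782419, nat_lit 0, nat_lit 0, nat_lit 0, nat_lit 0, [],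
 ⟨p013_k34, nat_lit 0, nat_lit 0, nat_lit 571, nat_lit 0, nat_lit 902269, [nat_lit 4688000000, nat_lit 6250000000, nat_lit 7968000000], [], [nat_lit 21712542253, nat_lit 21067710959, nat_lit 20774296443, nat_lit 20898546505], nat_lit 1271250, nat_lit 1271250, nat_lit 490000, nat_lit 1100001, nat_lit 0, nat_lit 0, [nat_lit 1100000, nat_lit 1442500, nat_lit 1271250], [nat_lit 9, nat_lit 40, nat_lit 20, nat_lit 80, nat_lit 2, nat_lit 249, nat_lit 40, nat_lit 8]⟩, ⟨p013_k2, nat_lit 0, nat_lit 0, nat_lit 125, nat_lit 0, nat_lit 0, [nat_lit 4688000000, nat_lit 6250000000, nat_lit 7968000000], [], [nat_lit 16005135776, nat_lit 16694858164, nat_lit 16327172892, nat_lit 16933841971], nat_lit 0, nat_lit 0, nat_lit 0, nat_lit 0, nat_lit 0, nat_lit 0, [], [nat_lit 9, nat_lit 40, nat_lit 20, nat_lit 80, nat_lit 2, nat_lit 249, nat_lit 40, nat_lit 8]⟩,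
 zbF0, []⟩
noncomputable def p013_l108 : Lf2 := ⟨nat_lit 0, nat_lit 5, [nat_lit 4, nat_lit 5, nat_lit 5, nat_lit 20], false, nat_lit 0, nat_lit 0, nat_lit 0, nat_lit 0, ⟨nat_lit 1000, nat_lit 0, nat_lit 0, nat_lit 0, nat_lit 0, nat_lit 0, nat_lit 0, nat_lit 0, nat_lit 0, nat_lit 0, nat_lit 0, nat_lit 0, nat_lit 0, nat_lit 0, nat_lit 0, nat_lit 0, false, false⟩,
 nat_lit 0, nat_lit 13607, nat_lit 0, nat_lit 0, nat_lit 8584, nat_lit 7620, nat_lit 1580, nat_lit 0, nat_lit 0, nat_lit 2405, nat_lit 0, nat_lit 0, nat_lit 0, nat_lit 53689420451486, nat_lit 0, nat_lit 0, nat_lit 0, nat_lit 0, [],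
 ⟨p013_k36, nat_lit 0, nat_lit 0, nat_lit 579, nat_lit 0, nat_lit 921709, [nat_lit 4688000000, nat_lit 6250000000, nat_lit 7968000000], [], [nat_lit 20758793116, nat_lit 20318754080, nat_lit 20013114512, nat_lit 20096802592], nat_lit 1271250, nat_lit 1271250, nat_lit 490000, nat_lit 1100001, nat_lit 0, nat_lit 0, [nat_lit 1100000, nat_lit 1442500, nat_lit 1271250], [nat_lit 9, nat_lit 40, nat_lit 20, nat_lit 80, nat_lit 2, nat_lit 249, nat_lit 40, nat_lit 8]⟩, ⟨p013_k2, nat_lit 0, nat_lit 0, nat_lit 127, nat_lit 0, nat_lit 0, [nat_lit 4688000000, nat_lit 6250000000, nat_lit 7968000000], [], [nat_lit 16092145935, nat_lit 16952087975, nat_lit 16420668395, nat_lit 17177148775], nat_lit 0, nat_lit 0, nat_lit 0, nat_lit 0, nat_lit 0, nat_lit 0, [], [nat_lit 9, nat_lit 40, nat_lit 20, nat_lit 80, nat_lit 2, nat_lit 249, nat_lit 40, nat_lit 8]⟩,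
 zbF0, []⟩
noncomputable def p013_l109 : Lf2 := ⟨nat_lit 0, nat_lit 5, [nat_lit 4, nat_lit 5, nat_lit 5, nat_lit 20], false, nat_lit 0, nat_lit 0, nat_lit 0, nat_lit 0, ⟨nat_lit 1000, nat_lit 0, nat_lit 0, nat_lit 0, nat_lit 0, nat_lit 0, nat_lit 0, nat_lit 0, nat_lit 0, nat_lit 0, nat_lit 0, nat_lit 0, nat_lit 0, nat_lit 0, nat_lit 0, nat_lit 0, false, false⟩,
 nat_lit 0, nat_lit 14450, nat_lit 0, nat_lit 0, nat_lit 8411, nat_lit 7071, nat_lit 5951, nat_lit 0, nat_lit 0, nat_lit 0, nat_lit 0, nat_lit 0, nat_lit 0, nat_lit 63045981362461, nat_lit 0, nat_lit 0, nat_lit 0, nat_lit 0, [],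
 ⟨p013_k7, nat_lit 0, nat_lit 0, nat_lit 678, nat_lit 0, nat_lit 1218726, [nat_lit 4688000000, nat_lit 7968000000], [], [nat_lit 21580199596, nat_lit 21908013320, nat_lit 27531002750, nat_lit 25549345917], nat_lit 1271250, nat_lit 1271250, nat_lit 1100001, nat_lit 1785000, nat_lit 0, nat_lit 0, [nat_lit 1100000, nat_lit 1785000], [nat_lit 39, nat_lit 40, nat_lit 20, nat_lit 80, nat_lit 7, nat_lit 272, nat_lit 60, nat_lit 9]⟩, ⟨p013_k7, nat_lit 0, nat_lit 0, nat_lit 63, nat_lit 0, nat_lit 0, [nat_lit 4688000000, nat_lit 7968000000], [], [nat_lit 14222684962, nat_lit 15276531881, nat_lit 19267436574, nat_lit 20290762469], nat_lit 0, nat_lit 0, nat_lit 0, nat_lit 0, nat_lit 0, nat_lit 0, [], [nat_lit 39, nat_lit 40, nat_lit 20, nat_lit 80, nat_lit 7, nat_lit 272, nat_lit 60, nat_lit 9]⟩,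
 zbF0, []⟩
noncomputable def p013_l110 : Lf2 := ⟨nat_lit 0, nat_lit 5, [nat_lit 4, nat_lit 5, nat_lit 5, nat_lit 20], false, nat_lit 0, nat_lit 0, nat_lit 0, nat_lit 0, ⟨nat_lit 1000, nat_lit 0, nat_lit 0, nat_lit 0, nat_lit 0, nat_lit 0, nat_lit 0, nat_lit 0, nat_lit 0, nat_lit 0, nat_lit 0, nat_lit 0, nat_lit 0, nat_lit 0, nat_lit 0, nat_lit 0, false, false⟩,
 nat_lit 0, nat_lit 14884, nat_lit 0, nat_lit 0, nat_lit 9064, nat_lit 6910, nat_lit 6140, nat_lit 0, nat_lit 0, nat_lit 0, nat_lit 0, nat_lit 0, nat_lit 0, nat_lit 0, nat_lit 0, nat_lit 0, nat_lit 0, nat_lit 0, [],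
 ⟨p013_k13, nat_lit 0, nat_lit 0, nat_lit 745, nat_lit 0, nat_lit 1335265, [nat_lit 4688000000, nat_lit 7968000000], [], [nat_lit 19448640536, nat_lit 19708416608, nat_lit 22179606296, nat_lit 23383786976], nat_lit 1271250, nat_lit 1271250, nat_lit 1100001, nat_lit 1785000, nat_lit 0, nat_lit 0, [nat_lit 1100000, nat_lit 1785000], [nat_lit 39, nat_lit 40, nat_lit 20, nat_lit 80, nat_lit 7, nat_lit 272, nat_lit 60, nat_lit 9]⟩, ⟨p013_k7, nat_lit 0, nat_lit 0, nat_lit 68, nat_lit 0, nat_lit 0, [nat_lit 4688000000, nat_lit 7968000000], [], [nat_lit 14324530020, nat_lit 16401412000, nat_lit 19129460540, nat_lit 21146892440], nat_lit 0, nat_lit 0, nat_lit 0, nat_lit 0, nat_lit 0, nat_lit 0, [], [nat_lit 39, nat_lit 40, nat_lit 20, nat_lit 80, nat_lit 7, nat_lit 272, nat_lit 60, nat_lit 9]⟩,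
 zbF0, []⟩
noncomputable def b_NL_650_650_0_1 : St := ⟨false, nat_lit 1, nat_lit 0, nat_lit 1, nat_lit 20, nat_lit 260, nat_lit 280, nat_lit 260, nat_lit 280, nat_lit 36, nat_lit 240, nat_lit 0, nat_lit 0, nat_lit 0, nat_lit 0, nat_lit 0, nat_lit 0, nat_lit 0, nat_lit 40, nat_lit 0, nat_lit 0, nat_lit 0, nat_lit 0⟩
theorem d_NL_650_650_0_1 (h : EB TB.env) : Dead b_NL_650_650_0_1 := chkB_sound0 h (T :=
(.spl (nat_lit 2) (nat_lit 160)
(.spl (nat_lit 2) (nat_lit 80)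
(.spl (nat_lit 6) (nat_lit 20)
(.leaf p013_l71)
(.spl (nat_lit 6) (nat_lit 32)
(.leaf p013_l72)
(.leaf p013_l73)))
(.spl (nat_lit 0) (nat_lit 270)
(.ord (.spl (nat_lit 6) (nat_lit 20)
(.spl (nat_lit 0) (nat_lit 265)
(.ord (.leaf p013_l74))
(.leaf p013_l75))
(.leaf p013_l76)))
(.spl (nat_lit 6) (nat_lit 20)
(.spl (nat_lit 0) (nat_lit 275)
(.ord (.spl (nat_lit 6) (nat_lit 8)
(.spl (nat_lit 0) (nat_lit 273)
(.ord (.leaf p013_l77))
(.leaf p013_l78))
(.leaf p013_l79)))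
(.spl (nat_lit 6) (nat_lit 8)
(.spl (nat_lit 0) (nat_lit 278)
(.ord (.spl (nat_lit 0) (nat_lit 277)
(.ord (.spl (nat_lit 0) (nat_lit 276)
(.ord (.leaf p013_l80))
(.leaf p013_l81)))
(.spl (nat_lit 6) (nat_lit 4)
(.leaf p013_l82)
(.leaf p013_l83))))
(.spl (nat_lit 6) (nat_lit 4)
(.spl (nat_lit 0) (nat_lit 279)
(.ord (.spl (nat_lit 1) (nat_lit 270)
(.leaf p013_l84)
(.spl (nat_lit 1) (nat_lit 275)
(.leaf p013_l85)
(.spl (nat_lit 1) (nat_lit 277)
(.leaf p013_l86)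
(.spl (nat_lit 1) (nat_lit 278)
(.leaf p013_l87)
(.spl (nat_lit 2) (nat_lit 120)
(.spl (nat_lit 2) (nat_lit 100)
(.leaf p013_l88)
(.leaf p013_l89))
(.leaf p013_l90)))))))
(.spl (nat_lit 1) (nat_lit 270)
(.leaf p013_l91)
(.spl (nat_lit 1) (nat_lit 275)
(.leaf p013_l92)
(.spl (nat_lit 1) (nat_lit 278)
(.leaf p013_l93)
(.spl (nat_lit 2) (nat_lit 120)
(.spl (nat_lit 2) (nat_lit 100)
(.leaf p013_l94)
(.leaf p013_l95))
(.leaf p013_l96))))))
(.leaf p013_l97)))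
(.spl (nat_lit 0) (nat_lit 278)
(.ord (.spl (nat_lit 0) (nat_lit 277)
(.ord (.leaf p013_l98))
(.leaf p013_l99)))
(.spl (nat_lit 1) (nat_lit 270)
(.leaf p013_l100)
(.spl (nat_lit 1) (nat_lit 275)
(.leaf p013_l101)
(.spl (nat_lit 2) (nat_lit 120)
(.spl (nat_lit 2) (nat_lit 100)
(.leaf p013_l102)
(.leaf p013_l103))
(.leaf p013_l104)))))))
(.spl (nat_lit 0) (nat_lit 275)
(.ord (.leaf p013_l105))
(.spl (nat_lit 1) (nat_lit 270)
(.leaf p013_l106)
(.spl (nat_lit 0) (nat_lit 278)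
(.ord (.leaf p013_l107))
(.leaf p013_l108)))))))
(.spl (nat_lit 0) (nat_lit 270)
(.ord (.leaf p013_l109))
(.leaf p013_l110)))) (by decide +kernel)
noncomputable def p013_l111 : Lf2 := ⟨nat_lit 0, nat_lit 5, [nat_lit 4, nat_lit 5, nat_lit 5, nat_lit 20], false, nat_lit 0, nat_lit 0, nat_lit 0, nat_lit 0, ⟨nat_lit 1000, nat_lit 0, nat_lit 0, nat_lit 0, nat_lit 0, nat_lit 0, nat_lit 0, nat_lit 0, nat_lit 0, nat_lit 0, nat_lit 0, nat_lit 0, nat_lit 0, nat_lit 0, nat_lit 0, nat_lit 0, false, false⟩,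
 nat_lit 17280, nat_lit 0, nat_lit 0, nat_lit 0, nat_lit 10058, nat_lit 10058, nat_lit 1234, nat_lit 0, nat_lit 0, nat_lit 1933, nat_lit 0, nat_lit 0, nat_lit 0, nat_lit 2894420297107, nat_lit 0, nat_lit 0, nat_lit 0, nat_lit 0, [],
 ⟨p013_k0, nat_lit 0, nat_lit 0, nat_lit 487, nat_lit 0, nat_lit 628812, [nat_lit 4688000000, nat_lit 6250000000, nat_lit 7968000000], [], [nat_lit 24694594016, nat_lit 24046535685, nat_lit 27129164250, nat_lit 22389774302], nat_lit 1271250, nat_lit 1271250, nat_lit 205650, nat_lit 780000, nat_lit 0, nat_lit 0, [nat_lit 1100000, nat_lit 1442500, nat_lit 1271250], [nat_lit 9, nat_lit 40, nat_lit 20, nat_lit 80, nat_lit 2, nat_lit 238, nat_lit 30, nat_lit 8]⟩, ⟨p013_k0, nat_lit 0, nat_lit 0, nat_lit 487, nat_lit 0, nat_lit 628812, [nat_lit 4688000000, nat_lit 6250000000, nat_lit 7968000000], [], [nat_lit 24115734641, nat_lit 24045683685, nat_lit 26550304875, nat_lit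 21810914927], nat_lit 1271250, nat_lit 1271250, nat_lit 205650, nat_lit 780000, nat_lit 0, nat_lit 0, [nat_lit 1100000, nat_lit 1442500, nat_lit 1271250], [nat_lit 9, nat_lit 40, nat_lit 20, nat_lit 80, nat_lit 2, nat_lit 238, nat_lit 30, nat_lit 8]⟩,
 zbF0, [⟨nat_lit 0, nat_lit 100, nat_lit 100, nat_lit 60, nat_lit 380223041⟩]⟩
noncomputable def p013_l112 : Lf2 := ⟨nat_lit 0, nat_lit 5, [nat_lit 4, nat_lit 5, nat_lit 5, nat_lit 20], false, nat_lit 0, nat_lit 0, nat_lit 0, nat_lit 0, ⟨nat_lit 1000, nat_lit 0, nat_lit 0, nat_lit 0, nat_lit 0, nat_lit 0, nat_lit 0, nat_lit 0, nat_lit 0, nat_lit 0, nat_lit 0, nat_lit 0, nat_lit 0, nat_lit 0, nat_lit 0, nat_lit 0, false, false⟩,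
 nat_lit 19502, nat_lit 0, nat_lit 0, nat_lit 0, nat_lit 11351, nat_lit 11351, nat_lit 1094, nat_lit 0, nat_lit 0, nat_lit 1094, nat_lit 0, nat_lit 0, nat_lit 0, nat_lit 0, nat_lit 0, nat_lit 0, nat_lit 0, nat_lit 0, [],
 ⟨p013_k0, nat_lit 0, nat_lit 0, nat_lit 375, nat_lit 0, nat_lit 407201, [nat_lit 4688000000, nat_lit 6250000000, nat_lit 7968000000], [], [nat_lit 23536620334, nat_lit 24073444197, nat_lit 19159193644, nat_lit 20010974442], nat_lit 1271250, nat_lit 1271250, nat_lit 205650, nat_lit 780000, nat_lit 0, nat_lit 0, [nat_lit 1100000, nat_lit 1442500, nat_lit 1271250], [nat_lit 9, nat_lit 40, nat_lit 20, nat_lit 80, nat_lit 2, nat_lit 238, nat_lit 30, nat_lit 8]⟩, ⟨p013_k0, nat_lit 0, nat_lit 0, nat_lit 375, nat_lit 0, nat_lit 407201, [nat_lit 4688000000, nat_lit 6250000000, nat_lit 7968000000], [], [nat_lit 23536620334, nat_lit 24073444197, nat_lit 19159193644, nat_lit 20010974442],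 nat_lit 1271250, nat_lit 1271250, nat_lit 205650, nat_lit 780000, nat_lit 0, nat_lit 0, [nat_lit 1100000, nat_lit 1442500, nat_lit 1271250], [nat_lit 9, nat_lit 40, nat_lit 20, nat_lit 80, nat_lit 2, nat_lit 238, nat_lit 30, nat_lit 8]⟩,
 zbF0, [⟨nat_lit 0, nat_lit 100, nat_lit 100, nat_lit 65, nat_lit 1136041364⟩]⟩
noncomputable def p013_l113 : Lf2 := ⟨nat_lit 0, nat_lit 5, [nat_lit 4, nat_lit 5, nat_lit 5, nat_lit 20], false, nat_lit 0, nat_lit 0, nat_lit 0, nat_lit 0, ⟨nat_lit 887, nat_lit 0, nat_lit 113, nat_lit 6, nat_lit 139, nat_lit 0, nat_lit 0, nat_lit 0, nat_lit 0, nat_lit 215, nat_lit 180267, nat_lit 319, nat_lit 59790565, nat_lit 0, nat_lit 0, nat_lit 1707374, false, false⟩,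
 nat_lit 13651, nat_lit 0, nat_lit 0, nat_lit 0, nat_lit 8313, nat_lit 7946, nat_lit 1111, nat_lit 0, nat_lit 0, nat_lit 1344, nat_lit 0, nat_lit 0, nat_lit 0, nat_lit 0, nat_lit 0, nat_lit 45200, nat_lit 0, nat_lit 0, [(nat_lit 9, [(nat_lit 5, nat_lit 113)])],
 ⟨p013_k2, nat_lit 0, nat_lit 0, nat_lit 400, nat_lit 0, nat_lit 470062, [nat_lit 4330739200, nat_lit 5520426800, nat_lit 6920670800], [], [nat_lit 21617491248, nat_lit 21678365247, nat_lit 26027772786, nat_lit 24069205047], nat_lit 1271250, nat_lit 1271250, nat_lit 230001, nat_lit 780000, nat_lit 0, nat_lit 0, [nat_lit 1100000, nat_lit 1442500, nat_lit 1271250], [nat_lit 9, nat_lit 40, nat_lit 20, nat_lit 80, nat_lit 2, nat_lit 238, nat_lit 30, nat_lit 8]⟩, ⟨p013_k0, nat_lit 0, nat_lit 0, nat_lit 410, nat_lit 0, nat_lit 494097, [nat_lit 4158256000, nat_lit 5543750000, nat_lit 7067616000], [], [nat_lit 21840038144, nat_lit 21173418720,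 nat_lit 25546228144, nat_lit 21802025268], nat_lit 1271250, nat_lit 1271250, nat_lit 230001, nat_lit 780000, nat_lit 0, nat_lit 0, [nat_lit 1100000, nat_lit 1442500, nat_lit 1271250], [nat_lit 9, nat_lit 40, nat_lit 20, nat_lit 80, nat_lit 2, nat_lit 238, nat_lit 30, nat_lit 8]⟩,
 ⟨nat_lit 5477, nat_lit 5701, ⟨.ofNat (nat_lit 257148), .ofNat (nat_lit 410586), .ofNat (nat_lit 278490), .ofNat (nat_lit 431928), .ofNat (nat_lit 264337), .ofNat (nat_lit 414204), .ofNat (nat_lit 285695), .ofNat (nat_lit 435561)⟩, ⟨.ofNat (nat_lit 0), .ofNat (nat_lit 0), .ofNat (nat_lit 0), .ofNat (nat_lit 0), .ofNat (nat_lit 0), .ofNat (nat_lit 0), .ofNat (nat_lit 0), .ofNat (nat_lit 0)⟩⟩, [⟨nat_lit 0, nat_lit 100, nat_lit 99, nat_lit 72, nat_lit 112700593⟩]⟩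
noncomputable def p013_l114 : Lf2 := ⟨nat_lit 0, nat_lit 5, [nat_lit 4, nat_lit 5, nat_lit 5, nat_lit 20], false, nat_lit 0, nat_lit 0, nat_lit 0, nat_lit 0, ⟨nat_lit 1000, nat_lit 0, nat_lit 0, nat_lit 0, nat_lit 0, nat_lit 0, nat_lit 0, nat_lit 0, nat_lit 0, nat_lit 0, nat_lit 0, nat_lit 0, nat_lit 0, nat_lit 0, nat_lit 0, nat_lit 0, false, false⟩,
 nat_lit 13563, nat_lit 0, nat_lit 0, nat_lit 0, nat_lit 7894, nat_lit 7894, nat_lit 1276, nat_lit 0, nat_lit 0, nat_lit 1276, nat_lit 0, nat_lit 0, nat_lit 0, nat_lit 0, nat_lit 0, nat_lit 0, nat_lit 0, nat_lit 0, [],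
 ⟨p013_k7, nat_lit 0, nat_lit 0, nat_lit 430, nat_lit 0, nat_lit 681709, [nat_lit 4688000000, nat_lit 7968000000], [], [nat_lit 30121067884, nat_lit 28985324112, nat_lit 34827777500, nat_lit 31108077336], nat_lit 1271250, nat_lit 1271250, nat_lit 780000, nat_lit 1762500, nat_lit 0, nat_lit 0, [nat_lit 1100000, nat_lit 1785000], [nat_lit 39, nat_lit 40, nat_lit 20, nat_lit 80, nat_lit 7, nat_lit 272, nat_lit 60, nat_lit 9]⟩, ⟨p013_k7, nat_lit 0, nat_lit 0, nat_lit 430, nat_lit 0, nat_lit 681709, [nat_lit 4688000000, nat_lit 7968000000], [], [nat_lit 30121067884, nat_lit 28985324112, nat_lit 34827777500, nat_lit 31108077336], nat_lit 1271250, nat_lit 1271250, nat_lit 780000, nat_lit 1762500, nat_lit 0, nat_lit 0, [nat_lit 1100000, nat_lit 1785000], [nat_lit 39, nat_lit 40, nat_lit 20, nat_lit 80, nat_lit 7, nat_lit 272, nat_lit 60, nat_lit 9]⟩,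
 zbF0, []⟩
noncomputable def p013_l115 : Lf2 := ⟨nat_lit 0, nat_lit 5, [nat_lit 4, nat_lit 5, nat_lit 5, nat_lit 20], false, nat_lit 0, nat_lit 0, nat_lit 0, nat_lit 0, ⟨nat_lit 1000, nat_lit 0, nat_lit 0, nat_lit 0, nat_lit 0, nat_lit 0, nat_lit 0, nat_lit 0, nat_lit 0, nat_lit 0, nat_lit 0, nat_lit 0, nat_lit 0, nat_lit 0, nat_lit 0, nat_lit 0, false, false⟩,
 nat_lit 13472, nat_lit 0, nat_lit 0, nat_lit 0, nat_lit 6929, nat_lit 7841, nat_lit 2020, nat_lit 0, nat_lit 0, nat_lit 509, nat_lit 0, nat_lit 0, nat_lit 0, nat_lit 0, nat_lit 0, nat_lit 0, nat_lit 0, nat_lit 0, [],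
 ⟨p013_k7, nat_lit 0, nat_lit 0, nat_lit 437, nat_lit 0, nat_lit 681709, [nat_lit 4688000000, nat_lit 7968000000], [], [nat_lit 29658107520, nat_lit 30100620944, nat_lit 37156761516, nat_lit 38149444264], nat_lit 1271250, nat_lit 1271250, nat_lit 1271250, nat_lit 1271250, nat_lit 0, nat_lit 0, [nat_lit 1100000, nat_lit 1785000], [nat_lit 39, nat_lit 40, nat_lit 20, nat_lit 80, nat_lit 7, nat_lit 203, nat_lit 0, nat_lit 6]⟩, ⟨p013_k7, nat_lit 0, nat_lit 0, nat_lit 437, nat_lit 0, nat_lit 681709, [nat_lit 4688000000, nat_lit 7968000000], [], [nat_lit 33561496080, nat_lit 34008255776, nat_lit 40205622834, nat_lit 40540922500], nat_lit 1271250, nat_lit 1271250, nat_lit 1271250, nat_lit 1271250, nat_lit 0, nat_lit 0, [nat_lit 1100000, nat_lit 1785000], [nat_lit 39, nat_lit 40, nat_lit 20, nat_lit 80, nat_lit 7, nat_lit 203, nat_lit 0, nat_lit 6]⟩,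
 zbF0, []⟩
noncomputable def b_NL_650_650_0_2 : St := ⟨false, nat_lit 1, nat_lit 1, nat_lit 1, nat_lit 20, nat_lit 260, nat_lit 280, nat_lit 260, nat_lit 280, nat_lit 36, nat_lit 400, nat_lit 0, nat_lit 0, nat_lit 0, nat_lit 0, nat_lit 0, nat_lit 0, nat_lit 0, nat_lit 40, nat_lit 0, nat_lit 0, nat_lit 0, nat_lit 0⟩
theorem d_NL_650_650_0_2 (h : EB TB.env) : Dead b_NL_650_650_0_2 := chkB_sound0 h (T :=
(.spl (nat_lit 2) (nat_lit 240)
(.spl (nat_lit 2) (nat_lit 120)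
(.spl (nat_lit 6) (nat_lit 20)
(.leaf p013_l111)
(.spl (nat_lit 0) (nat_lit 270)
(.ord (.leaf p013_l112))
(.trZ (nat_lit 0) (nat_lit 100) (nat_lit 98) (nat_lit 64) (nat_lit 40) (.leaf p013_l113))))
(.leaf p013_l114))
(.leaf p013_l115))) (by decide +kernel)
noncomputable def p013_l116 : Lf2 := ⟨nat_lit 0, nat_lit 5, [nat_lit 4, nat_lit 5, nat_lit 5, nat_lit 20], true, nat_lit 0, nat_lit 0, nat_lit 0, nat_lit 0, ⟨nat_lit 0, nat_lit 1000, nat_lit 0, nat_lit 6, nat_lit 121, nat_lit 0, nat_lit 0, nat_lit 0, nat_lit 0, nat_lit 0, nat_lit 0, nat_lit 0, nat_lit 0, nat_lit 0, nat_lit 0, nat_lit 5000000, false, false⟩,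
 nat_lit 0, nat_lit 6780, nat_lit 0, nat_lit 0, nat_lit 3946, nat_lit 0, nat_lit 935, nat_lit 0, nat_lit 0, nat_lit 0, nat_lit 0, nat_lit 0, nat_lit 0, nat_lit 26987360845481, nat_lit 0, nat_lit 400000, nat_lit 0, nat_lit 0, [(nat_lit 9, [(nat_lit 1, nat_lit 1000)])],
 ⟨p013_k7, nat_lit 0, nat_lit 0, nat_lit 505, nat_lit 0, nat_lit 681709, [nat_lit 2742800000, nat_lit 3014800000], [], [nat_lit 27657753245, nat_lit 27342414405, nat_lit 29160636500, nat_lit 27301257624], nat_lit 1271250, nat_lit 1271250, nat_lit 205650, nat_lit 490000, nat_lit 0, nat_lit 0, [nat_lit 1100000, nat_lit 1785000], [nat_lit 39, nat_lit 40, nat_lit 20, nat_lit 80, nat_lit 7, nat_lit 226, nat_lit 20, nat_lit 8]⟩, C1.Rw.none,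
 ⟨nat_lit 5477, nat_lit 5917, ⟨.ofNat (nat_lit 242029), .ofNat (nat_lit 328416), .ofNat (nat_lit 263368), .ofNat (nat_lit 349755), .ofNat (nat_lit 256844), .ofNat (nat_lit 339271), .ofNat (nat_lit 278201), .ofNat (nat_lit 360628)⟩, ⟨.ofNat (nat_lit 0), .ofNat (nat_lit 0), .ofNat (nat_lit 0), .ofNat (nat_lit 0), .ofNat (nat_lit 0), .ofNat (nat_lit 0), .ofNat (nat_lit 0), .ofNat (nat_lit 0)⟩⟩, []⟩
noncomputable def p013_l117 : Lf2 := ⟨nat_lit 0, nat_lit 5, [nat_lit 4, nat_lit 5, nat_lit 5, nat_lit 20], false, nat_lit 0, nat_lit 0, nat_lit 0, nat_lit 0, ⟨nat_lit 1000, nat_lit 0, nat_lit 0, nat_lit 0, nat_lit 0, nat_lit 0, nat_lit 0, nat_lit 0, nat_lit 0, nat_lit 0, nat_lit 0, nat_lit 0, nat_lit 0, nat_lit 0, nat_lit 0, nat_lit 0, false, false⟩,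
 nat_lit 0, nat_lit 13643, nat_lit 0, nat_lit 0, nat_lit 7941, nat_lit 6650, nat_lit 2552, nat_lit 0, nat_lit 0, nat_lit 0, nat_lit 0, nat_lit 0, nat_lit 0, nat_lit 7469713362564, nat_lit 0, nat_lit 0, nat_lit 0, nat_lit 0, [],
 ⟨p013_k0, nat_lit 0, nat_lit 0, nat_lit 660, nat_lit 0, nat_lit 1077234, [nat_lit 4688000000, nat_lit 6250000000, nat_lit 7968000000], [], [nat_lit 25422218750, nat_lit 24405292256, nat_lit 24012526676, nat_lit 24173311798], nat_lit 1271250, nat_lit 1271250, nat_lit 490000, nat_lit 1100001, nat_lit 0, nat_lit 0, [nat_lit 1100000, nat_lit 1442500, nat_lit 1271250], [nat_lit 9, nat_lit 40, nat_lit 20, nat_lit 80, nat_lit 2, nat_lit 249, nat_lit 40, nat_lit 8]⟩, ⟨p013_k0, nat_lit 0, nat_lit 0, nat_lit 74, nat_lit 0, nat_lit 0, [nat_lit 4688000000, nat_lit 6250000000, nat_lit 7968000000], [], [nat_lit 13402516500, nat_lit 13973964425, nat_lit 14489000300, nat_lit 14995781225],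 nat_lit 0, nat_lit 0, nat_lit 0, nat_lit 0, nat_lit 0, nat_lit 0, [], [nat_lit 9, nat_lit 40, nat_lit 20, nat_lit 80, nat_lit 2, nat_lit 249, nat_lit 40, nat_lit 8]⟩,
 zbF0, []⟩
noncomputable def p013_l118 : Lf2 := ⟨nat_lit 0, nat_lit 5, [nat_lit 4, nat_lit 5, nat_lit 5, nat_lit 20], false, nat_lit 0, nat_lit 0, nat_lit 0, nat_lit 0, ⟨nat_lit 1000, nat_lit 0, nat_lit 0, nat_lit 0, nat_lit 0, nat_lit 0, nat_lit 0, nat_lit 0, nat_lit 0, nat_lit 0, nat_lit 0, nat_lit 0, nat_lit 0, nat_lit 0, nat_lit 0, nat_lit 0, false, false⟩,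
 nat_lit 0, nat_lit 13896, nat_lit 0, nat_lit 0, nat_lit 8275, nat_lit 6577, nat_lit 2011, nat_lit 0, nat_lit 0, nat_lit 0, nat_lit 0, nat_lit 0, nat_lit 0, nat_lit 56900053765576, nat_lit 0, nat_lit 0, nat_lit 0, nat_lit 0, [],
 ⟨p013_k37, nat_lit 0, nat_lit 0, nat_lit 685, nat_lit 0, nat_lit 1136179, [nat_lit 4688000000, nat_lit 6250000000, nat_lit 7968000000], [], [nat_lit 23997354513, nat_lit 22937885600, nat_lit 22519755738, nat_lit 22610029000], nat_lit 1271250, nat_lit 1271250, nat_lit 490000, nat_lit 1100001, nat_lit 0, nat_lit 0, [nat_lit 1100000, nat_lit 1442500, nat_lit 1271250], [nat_lit 9, nat_lit 40, nat_lit 20, nat_lit 80, nat_lit 2, nat_lit 249, nat_lit 40, nat_lit 8]⟩, ⟨p013_k0, nat_lit 0, nat_lit 0, nat_lit 79, nat_lit 0, nat_lit 0, [nat_lit 4688000000, nat_lit 6250000000, nat_lit 7968000000], [], [nat_lit 13437214130, nat_lit 14571980043, nat_lit 14535178494, nat_lit 15541755047],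 nat_lit 0, nat_lit 0, nat_lit 0, nat_lit 0, nat_lit 0, nat_lit 0, [], [nat_lit 9, nat_lit 40, nat_lit 20, nat_lit 80, nat_lit 2, nat_lit 249, nat_lit 40, nat_lit 8]⟩,
 zbF0, []⟩
noncomputable def p013_l119 : Lf2 := ⟨nat_lit 0, nat_lit 5, [nat_lit 4, nat_lit 5, nat_lit 5, nat_lit 20], false, nat_lit 0, nat_lit 0, nat_lit 0, nat_lit 0, ⟨nat_lit 1000, nat_lit 0, nat_lit 0, nat_lit 0, nat_lit 0, nat_lit 0, nat_lit 0, nat_lit 0, nat_lit 0, nat_lit 0, nat_lit 0, nat_lit 0, nat_lit 0, nat_lit 0, nat_lit 0, nat_lit 0, false, false⟩,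
 nat_lit 0, nat_lit 11650, nat_lit 0, nat_lit 0, nat_lit 6781, nat_lit 6577, nat_lit 2819, nat_lit 0, nat_lit 0, nat_lit 0, nat_lit 0, nat_lit 0, nat_lit 0, nat_lit 6855814870953, nat_lit 0, nat_lit 0, nat_lit 0, nat_lit 0, [],
 ⟨p013_k0, nat_lit 0, nat_lit 0, nat_lit 542, nat_lit 0, nat_lit 833754, [nat_lit 4688000000, nat_lit 6250000000, nat_lit 7968000000], [], [nat_lit 26684588750, nat_lit 24945436917, nat_lit 25372411764, nat_lit 25107558604], nat_lit 1271250, nat_lit 1271250, nat_lit 490000, nat_lit 1100001, nat_lit 0, nat_lit 0, [nat_lit 1100000, nat_lit 1442500, nat_lit 1271250], [nat_lit 9, nat_lit 40, nat_lit 20, nat_lit 80, nat_lit 2, nat_lit 249, nat_lit 40, nat_lit 8]⟩, ⟨p013_k0, nat_lit 0, nat_lit 0, nat_lit 79, nat_lit 0, nat_lit 0, [nat_lit 4688000000, nat_lit 6250000000, nat_lit 7968000000], [], [nat_lit 13437214130, nat_lit 14571980043, nat_lit 14535178494, nat_lit 15541755047],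 nat_lit 0, nat_lit 0, nat_lit 0, nat_lit 0, nat_lit 0, nat_lit 0, [], [nat_lit 9, nat_lit 40, nat_lit 20, nat_lit 80, nat_lit 2, nat_lit 249, nat_lit 40, nat_lit 8]⟩,
 zbF0, []⟩
noncomputable def p013_l120 : Lf2 := ⟨nat_lit 0, nat_lit 2, [nat_lit 10, nat_lit 5, nat_lit 5, nat_lit 20], false, nat_lit 0, nat_lit 0, nat_lit 0, nat_lit 0, ⟨nat_lit 1000, nat_lit 0, nat_lit 0, nat_lit 0, nat_lit 0, nat_lit 0, nat_lit 0, nat_lit 0, nat_lit 0, nat_lit 0, nat_lit 0, nat_lit 0, nat_lit 0, nat_lit 0, nat_lit 0, nat_lit 0, false, false⟩,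
 nat_lit 0, nat_lit 13938, nat_lit 0, nat_lit 0, nat_lit 8488, nat_lit 6534, nat_lit 1660, nat_lit 0, nat_lit 0, nat_lit 0, nat_lit 0, nat_lit 0, nat_lit 0, nat_lit 55527336022039, nat_lit 0, nat_lit 0, nat_lit 0, nat_lit 0, [],
 ⟨p013_k5, nat_lit 0, nat_lit 0, nat_lit 604, nat_lit 0, nat_lit 1129579, [nat_lit 4688000000, nat_lit 6250000000], [], [nat_lit 22649527848, nat_lit 21997611061, nat_lit 21510548560, nat_lit 21609199538], nat_lit 1271250, nat_lit 1271250, nat_lit 490000, nat_lit 1100001, nat_lit 0, nat_lit 0, [nat_lit 1100000, nat_lit 1442500], [nat_lit 31, nat_lit 40, nat_lit 20, nat_lit 80, nat_lit 3, nat_lit 249, nat_lit 40, nat_lit 10]⟩, ⟨p013_k17, nat_lit 0, nat_lit 0, nat_lit 59, nat_lit 0, nat_lit 0, [nat_lit 4688000000, nat_lit 6250000000], [], [nat_lit 13457652460, nat_lit 14926622620, nat_lit 14562379348, nat_lit 15865579852], nat_lit 0, nat_lit 0, nat_lit 0, nat_lit 0,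 nat_lit 0, nat_lit 0, [], [nat_lit 31, nat_lit 40, nat_lit 20, nat_lit 80, nat_lit 3, nat_lit 249, nat_lit 40, nat_lit 10]⟩,
 zbF0, []⟩
noncomputable def p013_l121 : Lf2 := ⟨nat_lit 0, nat_lit 2, [nat_lit 10, nat_lit 5, nat_lit 5, nat_lit 20], false, nat_lit 0, nat_lit 0, nat_lit 0, nat_lit 0, ⟨nat_lit 1000, nat_lit 0, nat_lit 0, nat_lit 0, nat_lit 0, nat_lit 0, nat_lit 0, nat_lit 0, nat_lit 0, nat_lit 0, nat_lit 0, nat_lit 0, nat_lit 0, nat_lit 0, nat_lit 0, nat_lit 0, false, false⟩,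
 nat_lit 0, nat_lit 13993, nat_lit 0, nat_lit 0, nat_lit 8635, nat_lit 6505, nat_lit 1500, nat_lit 0, nat_lit 0, nat_lit 0, nat_lit 0, nat_lit 0, nat_lit 0, nat_lit 55510755217040, nat_lit 0, nat_lit 0, nat_lit 0, nat_lit 0, [],
 ⟨p013_k23, nat_lit 0, nat_lit 0, nat_lit 610, nat_lit 0, nat_lit 1144401, [nat_lit 4688000000, nat_lit 6250000000], [], [nat_lit 21787306961, nat_lit 21347787820, nat_lit 20850989003, nat_lit 20917146870], nat_lit 1271250, nat_lit 1271250, nat_lit 490000, nat_lit 1100001, nat_lit 0, nat_lit 0, [nat_lit 1100000, nat_lit 1442500], [nat_lit 31, nat_lit 40, nat_lit 20, nat_lit 80, nat_lit 3, nat_lit 249, nat_lit 40, nat_lit 10]⟩, ⟨p013_k17, nat_lit 0, nat_lit 0, nat_lit 61, nat_lit 0, nat_lit 0, [nat_lit 4688000000, nat_lit 6250000000], [], [nat_lit 13471436450, nat_lit 15161557468, nat_lit 14580724110, nat_lit 16080254528], nat_lit 0, nat_lit 0, nat_lit 0, nat_lit 0,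 nat_lit 0, nat_lit 0, [], [nat_lit 31, nat_lit 40, nat_lit 20, nat_lit 80, nat_lit 3, nat_lit 249, nat_lit 40, nat_lit 10]⟩,
 zbF0, []⟩
noncomputable def p013_l122 : Lf2 := ⟨nat_lit 0, nat_lit 5, [nat_lit 4, nat_lit 5, nat_lit 5, nat_lit 20], false, nat_lit 0, nat_lit 0, nat_lit 0, nat_lit 0, ⟨nat_lit 1000, nat_lit 0, nat_lit 0, nat_lit 0, nat_lit 0, nat_lit 0, nat_lit 0, nat_lit 0, nat_lit 0, nat_lit 0, nat_lit 0, nat_lit 0, nat_lit 0, nat_lit 0, nat_lit 0, nat_lit 0, false, false⟩,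
 nat_lit 0, nat_lit 13303, nat_lit 0, nat_lit 0, nat_lit 8101, nat_lit 7834, nat_lit 1836, nat_lit 0, nat_lit 0, nat_lit 2814, nat_lit 0, nat_lit 0, nat_lit 0, nat_lit 51361329835871, nat_lit 0, nat_lit 0, nat_lit 0, nat_lit 0, [],
 ⟨p013_k2, nat_lit 0, nat_lit 0, nat_lit 643, nat_lit 0, nat_lit 1036530, [nat_lit 4688000000, nat_lit 6250000000, nat_lit 7968000000], [], [nat_lit 23169957321, nat_lit 22133606167, nat_lit 21835723713, nat_lit 22039757701], nat_lit 1271250, nat_lit 1271250, nat_lit 490000, nat_lit 1100001, nat_lit 0, nat_lit 0, [nat_lit 1100000, nat_lit 1442500, nat_lit 1271250], [nat_lit 9, nat_lit 40, nat_lit 20, nat_lit 80, nat_lit 2, nat_lit 249, nat_lit 40, nat_lit 8]⟩, ⟨p013_k0, nat_lit 0, nat_lit 0, nat_lit 122, nat_lit 0, nat_lit 0, [nat_lit 4688000000, nat_lit 6250000000, nat_lit 7968000000], [], [nat_lit 14979625464, nat_lit 16429691105, nat_lit 15701226146, nat_lit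 16982621372], nat_lit 0, nat_lit 0, nat_lit 0, nat_lit 0, nat_lit 0, nat_lit 0, [], [nat_lit 9, nat_lit 40, nat_lit 20, nat_lit 80, nat_lit 2, nat_lit 249, nat_lit 40, nat_lit 8]⟩,
 zbF0, []⟩
noncomputable def p013_l123 : Lf2 := ⟨nat_lit 0, nat_lit 2, [nat_lit 10, nat_lit 5, nat_lit 5, nat_lit 20], false, nat_lit 0, nat_lit 0, nat_lit 0, nat_lit 0, ⟨nat_lit 1000, nat_lit 0, nat_lit 0, nat_lit 0, nat_lit 0, nat_lit 0, nat_lit 0, nat_lit 0, nat_lit 0, nat_lit 0, nat_lit 0, nat_lit 0, nat_lit 0, nat_lit 0, nat_lit 0, nat_lit 0, false, false⟩,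
 nat_lit 0, nat_lit 13991, nat_lit 0, nat_lit 0, nat_lit 8711, nat_lit 6491, nat_lit 1409, nat_lit 0, nat_lit 0, nat_lit 0, nat_lit 0, nat_lit 0, nat_lit 0, nat_lit 55385990239324, nat_lit 0, nat_lit 0, nat_lit 0, nat_lit 0, [],
 ⟨p013_k24, nat_lit 0, nat_lit 0, nat_lit 612, nat_lit 0, nat_lit 1148370, [nat_lit 4688000000, nat_lit 6250000000], [], [nat_lit 21232330072, nat_lit 21010760140, nat_lit 20525348782, nat_lit 20558528675], nat_lit 1271250, nat_lit 1271250, nat_lit 490000, nat_lit 1100001, nat_lit 0, nat_lit 0, [nat_lit 1100000, nat_lit 1442500], [nat_lit 31, nat_lit 40, nat_lit 20, nat_lit 80, nat_lit 3, nat_lit 249, nat_lit 40, nat_lit 10]⟩, ⟨p013_k17, nat_lit 0, nat_lit 0, nat_lit 62, nat_lit 0, nat_lit 0, [nat_lit 4688000000, nat_lit 6250000000], [], [nat_lit 13478090790, nat_lit 15278391877, nat_lit 14589580202, nat_lit 16186935881], nat_lit 0, nat_lit 0, nat_lit 0, nat_lit 0,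 nat_lit 0, nat_lit 0, [], [nat_lit 31, nat_lit 40, nat_lit 20, nat_lit 80, nat_lit 3, nat_lit 249, nat_lit 40, nat_lit 10]⟩,
 zbF0, []⟩
noncomputable def p013_l124 : Lf2 := ⟨nat_lit 0, nat_lit 2, [nat_lit 10, nat_lit 5, nat_lit 5, nat_lit 20], false, nat_lit 0, nat_lit 0, nat_lit 0, nat_lit 0, ⟨nat_lit 1000, nat_lit 0, nat_lit 0, nat_lit 0, nat_lit 0, nat_lit 0, nat_lit 0, nat_lit 0, nat_lit 0, nat_lit 0, nat_lit 0, nat_lit 0, nat_lit 0, nat_lit 0, nat_lit 0, nat_lit 0, false, false⟩,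
 nat_lit 0, nat_lit 14053, nat_lit 0, nat_lit 0, nat_lit 8788, nat_lit 6477, nat_lit 1367, nat_lit 0, nat_lit 0, nat_lit 0, nat_lit 0, nat_lit 0, nat_lit 0, nat_lit 55578646513585, nat_lit 0, nat_lit 0, nat_lit 0, nat_lit 0, [],
 ⟨p013_k25, nat_lit 0, nat_lit 0, nat_lit 616, nat_lit 0, nat_lit 1159194, [nat_lit 4688000000, nat_lit 6250000000], [], [nat_lit 20893468037, nat_lit 20668997336, nat_lit 20161677636, nat_lit 20194959815], nat_lit 1271250, nat_lit 1271250, nat_lit 490000, nat_lit 1100001, nat_lit 0, nat_lit 0, [nat_lit 1100000, nat_lit 1442500], [nat_lit 31, nat_lit 40, nat_lit 20, nat_lit 80, nat_lit 3, nat_lit 249, nat_lit 40, nat_lit 10]⟩, ⟨p013_k17, nat_lit 0, nat_lit 0, nat_lit 62, nat_lit 0, nat_lit 0, [nat_lit 4688000000, nat_lit 6250000000], [], [nat_lit 13484745130, nat_lit 15394914453, nat_lit 14598436294, nat_lit 16293349305], nat_lit 0, nat_lit 0, nat_lit 0, nat_lit 0,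 nat_lit 0, nat_lit 0, [], [nat_lit 31, nat_lit 40, nat_lit 20, nat_lit 80, nat_lit 3, nat_lit 249, nat_lit 40, nat_lit 10]⟩,
 zbF0, []⟩
noncomputable def p013_l125 : Lf2 := ⟨nat_lit 0, nat_lit 1, [nat_lit 19, nat_lit 5, nat_lit 5, nat_lit 20], false, nat_lit 0, nat_lit 0, nat_lit 0, nat_lit 0, ⟨nat_lit 1000, nat_lit 0, nat_lit 0, nat_lit 0, nat_lit 0, nat_lit 0, nat_lit 0, nat_lit 0, nat_lit 0, nat_lit 0, nat_lit 0, nat_lit 0, nat_lit 0, nat_lit 0, nat_lit 0, nat_lit 0, false, false⟩,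
 nat_lit 0, nat_lit 14116, nat_lit 0, nat_lit 0, nat_lit 8866, nat_lit 6463, nat_lit 1324, nat_lit 0, nat_lit 0, nat_lit 0, nat_lit 0, nat_lit 0, nat_lit 0, nat_lit 55347673542038, nat_lit 0, nat_lit 0, nat_lit 0, nat_lit 0, [],
 ⟨p013_k26, nat_lit 0, nat_lit 0, nat_lit 617, nat_lit 0, nat_lit 1160752, [nat_lit 4688000000, nat_lit 6250000000], [], [nat_lit 20549131107, nat_lit 20322724622, nat_lit 19793058481, nat_lit 19826444276], nat_lit 1271250, nat_lit 1271250, nat_lit 490000, nat_lit 1100001, nat_lit 0, nat_lit 0, [nat_lit 1100000, nat_lit 1442500], [nat_lit 31, nat_lit 40, nat_lit 20, nat_lit 80, nat_lit 3, nat_lit 249, nat_lit 40, nat_lit 10]⟩, ⟨p013_k27, nat_lit 0, nat_lit 0, nat_lit 63, nat_lit 0, nat_lit 0, [nat_lit 4688000000, nat_lit 6250000000], [], [nat_lit 13491399470, nat_lit 15511125195, nat_lit 14607292386, nat_lit 16399494799], nat_lit 0, nat_lit 0, nat_lit 0, nat_lit 0,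 nat_lit 0, nat_lit 0, [], [nat_lit 31, nat_lit 40, nat_lit 20, nat_lit 80, nat_lit 3, nat_lit 249, nat_lit 40, nat_lit 10]⟩,
 zbF0, []⟩
noncomputable def p013_l126 : Lf2 := ⟨nat_lit 0, nat_lit 2, [nat_lit 10, nat_lit 5, nat_lit 5, nat_lit 20], false, nat_lit 0, nat_lit 0, nat_lit 0, nat_lit 0, ⟨nat_lit 1000, nat_lit 0, nat_lit 0, nat_lit 0, nat_lit 0, nat_lit 0, nat_lit 0, nat_lit 0, nat_lit 0, nat_lit 0, nat_lit 0, nat_lit 0, nat_lit 0, nat_lit 0, nat_lit 0, nat_lit 0, false, false⟩,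
 nat_lit 0, nat_lit 14116, nat_lit 0, nat_lit 0, nat_lit 8866, nat_lit 6463, nat_lit 1324, nat_lit 0, nat_lit 0, nat_lit 0, nat_lit 0, nat_lit 0, nat_lit 0, nat_lit 55862449765910, nat_lit 0, nat_lit 0, nat_lit 0, nat_lit 0, [],
 ⟨p013_k28, nat_lit 0, nat_lit 0, nat_lit 573, nat_lit 0, nat_lit 1088688, [nat_lit 4688000000, nat_lit 6250000000], [], [nat_lit 20549131107, nat_lit 20322724622, nat_lit 19793058481, nat_lit 19826444276], nat_lit 1271250, nat_lit 1271250, nat_lit 490000, nat_lit 1100001, nat_lit 0, nat_lit 0, [nat_lit 1100000, nat_lit 1442500], [nat_lit 31, nat_lit 40, nat_lit 20, nat_lit 80, nat_lit 3, nat_lit 249, nat_lit 40, nat_lit 10]⟩, ⟨p013_k17, nat_lit 0, nat_lit 0, nat_lit 63, nat_lit 0, nat_lit 0, [nat_lit 4688000000, nat_lit 6250000000], [], [nat_lit 13491399470, nat_lit 15511125195, nat_lit 14607292386, nat_lit 16399494799], nat_lit 0, nat_lit 0, nat_lit 0, nat_lit 0,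 nat_lit 0, nat_lit 0, [], [nat_lit 31, nat_lit 40, nat_lit 20, nat_lit 80, nat_lit 3, nat_lit 249, nat_lit 40, nat_lit 10]⟩,
 zbF0, []⟩
noncomputable def p013_l127 : Lf2 := ⟨nat_lit 0, nat_lit 1, [nat_lit 19, nat_lit 5, nat_lit 5, nat_lit 20], false, nat_lit 0, nat_lit 0, nat_lit 0, nat_lit 0, ⟨nat_lit 1000, nat_lit 0, nat_lit 0, nat_lit 0, nat_lit 0, nat_lit 0, nat_lit 0, nat_lit 0, nat_lit 0, nat_lit 0, nat_lit 0, nat_lit 0, nat_lit 0, nat_lit 0, nat_lit 0, nat_lit 0, false, false⟩,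
 nat_lit 0, nat_lit 14159, nat_lit 0, nat_lit 0, nat_lit 8932, nat_lit 6577, nat_lit 1286, nat_lit 0, nat_lit 0, nat_lit 0, nat_lit 0, nat_lit 0, nat_lit 0, nat_lit 0, nat_lit 0, nat_lit 0, nat_lit 0, nat_lit 0, [],
 ⟨p013_k29, nat_lit 0, nat_lit 0, nat_lit 572, nat_lit 0, nat_lit 1085406, [nat_lit 4688000000, nat_lit 6250000000], [], [nat_lit 20219392350, nat_lit 20036327889, nat_lit 19486461591, nat_lit 19519935060], nat_lit 1271250, nat_lit 1271250, nat_lit 490000, nat_lit 1100001, nat_lit 0, nat_lit 0, [nat_lit 1100000, nat_lit 1442500], [nat_lit 31, nat_lit 40, nat_lit 20, nat_lit 80, nat_lit 3, nat_lit 249, nat_lit 40, nat_lit 10]⟩, ⟨p013_k27, nat_lit 0, nat_lit 0, nat_lit 57, nat_lit 0, nat_lit 0, [nat_lit 4688000000, nat_lit 6250000000], [], [nat_lit 13437214130, nat_lit 14571980043, nat_lit 14535178494, nat_lit 15541755047], nat_lit 0, nat_lit 0, nat_lit 0, nat_lit 0, nat_lit 0, nat_lit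 0, [], [nat_lit 31, nat_lit 40, nat_lit 20, nat_lit 80, nat_lit 3, nat_lit 249, nat_lit 40, nat_lit 10]⟩,
 zbF0, []⟩
noncomputable def p013_l128 : Lf2 := ⟨nat_lit 0, nat_lit 1, [nat_lit 19, nat_lit 5, nat_lit 5, nat_lit 20], false, nat_lit 0, nat_lit 0, nat_lit 0, nat_lit 0, ⟨nat_lit 1000, nat_lit 0, nat_lit 0, nat_lit 0, nat_lit 0, nat_lit 0, nat_lit 0, nat_lit 0, nat_lit 0, nat_lit 0, nat_lit 0, nat_lit 0, nat_lit 0, nat_lit 0, nat_lit 0, nat_lit 0, false, false⟩,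
 nat_lit 0, nat_lit 14158, nat_lit 0, nat_lit 0, nat_lit 8931, nat_lit 6505, nat_lit 1286, nat_lit 0, nat_lit 0, nat_lit 0, nat_lit 0, nat_lit 0, nat_lit 0, nat_lit 0, nat_lit 0, nat_lit 0, nat_lit 0, nat_lit 0, [],
 ⟨p013_k29, nat_lit 0, nat_lit 0, nat_lit 605, nat_lit 0, nat_lit 1132312, [nat_lit 4688000000, nat_lit 6250000000], [], [nat_lit 20220942352, nat_lit 20041296651, nat_lit 19491612844, nat_lit 19525084984], nat_lit 1271250, nat_lit 1271250, nat_lit 490000, nat_lit 1100001, nat_lit 0, nat_lit 0, [nat_lit 1100000, nat_lit 1442500], [nat_lit 31, nat_lit 40, nat_lit 20, nat_lit 80, nat_lit 3, nat_lit 249, nat_lit 40, nat_lit 10]⟩, ⟨p013_k30, nat_lit 0, nat_lit 0, nat_lit 61, nat_lit 0, nat_lit 0, [nat_lit 4688000000, nat_lit 6250000000], [], [nat_lit 14598183795, nat_lit 15161557468, nat_lit 15580411055, nat_lit 16080254528], nat_lit 0, nat_lit 0, nat_lit 0, nat_lit 0, nat_lit 0, nat_lit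 0, [], [nat_lit 31, nat_lit 40, nat_lit 20, nat_lit 80, nat_lit 3, nat_lit 249, nat_lit 40, nat_lit 10]⟩,
 zbF0, []⟩
noncomputable def p013_l129 : Lf2 := ⟨nat_lit 0, nat_lit 1, [nat_lit 19, nat_lit 5, nat_lit 5, nat_lit 20], false, nat_lit 0, nat_lit 0, nat_lit 0, nat_lit 0, ⟨nat_lit 1000, nat_lit 0, nat_lit 0, nat_lit 0, nat_lit 0, nat_lit 0, nat_lit 0, nat_lit 0, nat_lit 0, nat_lit 0, nat_lit 0, nat_lit 0, nat_lit 0, nat_lit 0, nat_lit 0, nat_lit 0, false, false⟩,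
 nat_lit 0, nat_lit 14157, nat_lit 0, nat_lit 0, nat_lit 8931, nat_lit 6477, nat_lit 1286, nat_lit 0, nat_lit 0, nat_lit 0, nat_lit 0, nat_lit 0, nat_lit 0, nat_lit 0, nat_lit 0, nat_lit 0, nat_lit 0, nat_lit 0, [],
 ⟨p013_k29, nat_lit 0, nat_lit 0, nat_lit 613, nat_lit 0, nat_lit 1151679, [nat_lit 4688000000, nat_lit 6250000000], [], [nat_lit 20220942352, nat_lit 20041296651, nat_lit 19491612844, nat_lit 19525084984], nat_lit 1271250, nat_lit 1271250, nat_lit 490000, nat_lit 1100001, nat_lit 0, nat_lit 0, [nat_lit 1100000, nat_lit 1442500], [nat_lit 31, nat_lit 40, nat_lit 20, nat_lit 80, nat_lit 3, nat_lit 249, nat_lit 40, nat_lit 10]⟩, ⟨p013_k31, nat_lit 0, nat_lit 0, nat_lit 62, nat_lit 0, nat_lit 0, [nat_lit 4688000000, nat_lit 6250000000], [], [nat_lit 15170188650, nat_lit 15394914453, nat_lit 16093947774, nat_lit 16293349305], nat_lit 0, nat_lit 0, nat_lit 0, nat_lit 0, nat_lit 0, nat_lit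 0, [], [nat_lit 31, nat_lit 40, nat_lit 20, nat_lit 80, nat_lit 3, nat_lit 249, nat_lit 40, nat_lit 10]⟩,
 zbF0, []⟩
noncomputable def p013_l130 : Lf2 := ⟨nat_lit 0, nat_lit 1, [nat_lit 19, nat_lit 5, nat_lit 5, nat_lit 20], false, nat_lit 0, nat_lit 0, nat_lit 0, nat_lit 0, ⟨nat_lit 1000, nat_lit 0, nat_lit 0, nat_lit 0, nat_lit 0, nat_lit 0, nat_lit 0, nat_lit 0, nat_lit 0, nat_lit 0, nat_lit 0, nat_lit 0, nat_lit 0, nat_lit 0, nat_lit 0, nat_lit 0, false, false⟩,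
 nat_lit 0, nat_lit 14157, nat_lit 0, nat_lit 0, nat_lit 8930, nat_lit 6463, nat_lit 1286, nat_lit 0, nat_lit 0, nat_lit 0, nat_lit 0, nat_lit 0, nat_lit 0, nat_lit 0, nat_lit 0, nat_lit 0, nat_lit 0, nat_lit 0, [],
 ⟨p013_k29, nat_lit 0, nat_lit 0, nat_lit 617, nat_lit 0, nat_lit 1161407, [nat_lit 4688000000, nat_lit 6250000000], [], [nat_lit 20222492354, nat_lit 20046265412, nat_lit 19496764097, nat_lit 19530234909], nat_lit 1271250, nat_lit 1271250, nat_lit 490000, nat_lit 1100001, nat_lit 0, nat_lit 0, [nat_lit 1100000, nat_lit 1442500], [nat_lit 31, nat_lit 40, nat_lit 20, nat_lit 80, nat_lit 3, nat_lit 249, nat_lit 40, nat_lit 10]⟩, ⟨p013_k26, nat_lit 0, nat_lit 0, nat_lit 63, nat_lit 0, nat_lit 0, [nat_lit 4688000000, nat_lit 6250000000], [], [nat_lit 15398918210, nat_lit 15511125195, nat_lit 16299927998, nat_lit 16399494799], nat_lit 0, nat_lit 0, nat_lit 0, nat_lit 0, nat_lit 0, nat_lit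 0, [], [nat_lit 31, nat_lit 40, nat_lit 20, nat_lit 80, nat_lit 3, nat_lit 249, nat_lit 40, nat_lit 10]⟩,
 zbF0, []⟩
noncomputable def p013_l131 : Lf2 := ⟨nat_lit 0, nat_lit 1, [nat_lit 19, nat_lit 5, nat_lit 5, nat_lit 20], true, nat_lit 0, nat_lit 0, nat_lit 0, nat_lit 0, ⟨nat_lit 0, nat_lit 1000, nat_lit 0, nat_lit 6, nat_lit 151, nat_lit 0, nat_lit 0, nat_lit 0, nat_lit 0, nat_lit 0, nat_lit 0, nat_lit 0, nat_lit 0, nat_lit 0, nat_lit 0, nat_lit 5000000, false, false⟩,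
 nat_lit 0, nat_lit 8224, nat_lit 0, nat_lit 0, nat_lit 5188, nat_lit 0, nat_lit 0, nat_lit 0, nat_lit 0, nat_lit 0, nat_lit 0, nat_lit 0, nat_lit 0, nat_lit 28278025229581, nat_lit 0, nat_lit 1000000, nat_lit 0, nat_lit 0, [(nat_lit 9, [(nat_lit 2, nat_lit 1000)])],
 ⟨p013_k29, nat_lit 0, nat_lit 0, nat_lit 318, nat_lit 0, nat_lit 533839, [nat_lit 2663466667, nat_lit 2329200000], [], [nat_lit 19949000588, nat_lit 19815913343, nat_lit 19929368252, nat_lit 19804596852], nat_lit 1271250, nat_lit 1271250, nat_lit 490000, nat_lit 631250, nat_lit 0, nat_lit 0, [nat_lit 1100000, nat_lit 1442500], [nat_lit 31, nat_lit 40, nat_lit 20, nat_lit 80, nat_lit 3, nat_lit 232, nat_lit 25, nat_lit 9]⟩, C1.Rw.none,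
 ⟨nat_lit 5500, nat_lit 5523, ⟨.ofNat (nat_lit 357411), .ofNat (nat_lit 395055), .ofNat (nat_lit 358478), .ofNat (nat_lit 396122), .ofNat (nat_lit 357951), .ofNat (nat_lit 395507), .ofNat (nat_lit 359019), .ofNat (nat_lit 396574)⟩, ⟨.ofNat (nat_lit 0), .ofNat (nat_lit 0), .ofNat (nat_lit 0), .ofNat (nat_lit 0), .ofNat (nat_lit 0), .ofNat (nat_lit 0), .ofNat (nat_lit 0), .ofNat (nat_lit 0)⟩⟩, []⟩
noncomputable def p013_l132 : Lf2 := ⟨nat_lit 0, nat_lit 1, [nat_lit 19, nat_lit 5, nat_lit 5, nat_lit 20], false, nat_lit 0, nat_lit 0, nat_lit 0, nat_lit 0, ⟨nat_lit 1000, nat_lit 0, nat_lit 0, nat_lit 0, nat_lit 0, nat_lit 0, nat_lit 0, nat_lit 0, nat_lit 0, nat_lit 0, nat_lit 0, nat_lit 0, nat_lit 0, nat_lit 0, nat_lit 0, nat_lit 0, false, false⟩,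
 nat_lit 0, nat_lit 14807, nat_lit 0, nat_lit 0, nat_lit 9341, nat_lit 6669, nat_lit 1258, nat_lit 0, nat_lit 0, nat_lit 0, nat_lit 0, nat_lit 0, nat_lit 0, nat_lit 0, nat_lit 0, nat_lit 0, nat_lit 0, nat_lit 0, [],
 ⟨p013_k29, nat_lit 0, nat_lit 0, nat_lit 612, nat_lit 0, nat_lit 1171164, [nat_lit 4688000000, nat_lit 6250000000], [], [nat_lit 17653287647, nat_lit 17688128322, nat_lit 17447382272, nat_lit 17484402908], nat_lit 1271250, nat_lit 1271250, nat_lit 631250, nat_lit 780000, nat_lit 0, nat_lit 0, [nat_lit 1100000, nat_lit 1442500], [nat_lit 31, nat_lit 40, nat_lit 20, nat_lit 80, nat_lit 3, nat_lit 238, nat_lit 30, nat_lit 9]⟩, ⟨p013_k29, nat_lit 0, nat_lit 0, nat_lit 57, nat_lit 0, nat_lit 0, [nat_lit 4688000000, nat_lit 6250000000], [], [nat_lit 15264609485, nat_lit 15376442299, nat_lit 15363430226, nat_lit 15472185375], nat_lit 0, nat_lit 0, nat_lit 0, nat_lit 0, nat_lit 0, nat_lit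 0, [], [nat_lit 31, nat_lit 40, nat_lit 20, nat_lit 80, nat_lit 3, nat_lit 238, nat_lit 30, nat_lit 9]⟩,
 zbF0, []⟩
noncomputable def p013_l133 : Lf2 := ⟨nat_lit 0, nat_lit 1, [nat_lit 19, nat_lit 5, nat_lit 5, nat_lit 20], false, nat_lit 0, nat_lit 0, nat_lit 0, nat_lit 0, ⟨nat_lit 1000, nat_lit 0, nat_lit 0, nat_lit 0, nat_lit 0, nat_lit 0, nat_lit 0, nat_lit 0, nat_lit 0, nat_lit 0, nat_lit 0, nat_lit 0, nat_lit 0, nat_lit 0, nat_lit 0, nat_lit 0, false, false⟩,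
 nat_lit 0, nat_lit 14841, nat_lit 0, nat_lit 0, nat_lit 9362, nat_lit 6822, nat_lit 1237, nat_lit 0, nat_lit 0, nat_lit 0, nat_lit 0, nat_lit 0, nat_lit 0, nat_lit 0, nat_lit 0, nat_lit 0, nat_lit 0, nat_lit 0, [],
 ⟨p013_k29, nat_lit 0, nat_lit 0, nat_lit 605, nat_lit 0, nat_lit 1171164, [nat_lit 4688000000, nat_lit 6250000000], [], [nat_lit 17343806112, nat_lit 17378046057, nat_lit 17900826433, nat_lit 18051792489], nat_lit 1271250, nat_lit 1271250, nat_lit 780000, nat_lit 1100001, nat_lit 0, nat_lit 0, [nat_lit 1100000, nat_lit 1442500], [nat_lit 31, nat_lit 40, nat_lit 20, nat_lit 80, nat_lit 3, nat_lit 249, nat_lit 40, nat_lit 9]⟩, ⟨p013_k29, nat_lit 0, nat_lit 0, nat_lit 52, nat_lit 0, nat_lit 0, [nat_lit 4688000000, nat_lit 6250000000], [], [nat_lit 15296706406, nat_lit 15407060359, nat_lit 16234233529, nat_lit 16337235565], nat_lit 0, nat_lit 0, nat_lit 0, nat_lit 0, nat_lit 0, nat_lit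 0, [], [nat_lit 31, nat_lit 40, nat_lit 20, nat_lit 80, nat_lit 3, nat_lit 249, nat_lit 40, nat_lit 9]⟩,
 zbF0, []⟩
noncomputable def p013_l134 : Lf2 := ⟨nat_lit 0, nat_lit 1, [nat_lit 19, nat_lit 5, nat_lit 5, nat_lit 20], false, nat_lit 0, nat_lit 0, nat_lit 0, nat_lit 0, ⟨nat_lit 1000, nat_lit 0, nat_lit 0, nat_lit 0, nat_lit 0, nat_lit 0, nat_lit 0, nat_lit 0, nat_lit 0, nat_lit 0, nat_lit 0, nat_lit 0, nat_lit 0, nat_lit 0, nat_lit 0, nat_lit 0, false, false⟩,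
 nat_lit 0, nat_lit 14224, nat_lit 0, nat_lit 0, nat_lit 9012, nat_lit 6577, nat_lit 1248, nat_lit 0, nat_lit 0, nat_lit 0, nat_lit 0, nat_lit 0, nat_lit 0, nat_lit 0, nat_lit 0, nat_lit 0, nat_lit 0, nat_lit 0, [],
 ⟨p013_k32, nat_lit 0, nat_lit 0, nat_lit 573, nat_lit 0, nat_lit 1086662, [nat_lit 4688000000, nat_lit 6250000000], [], [nat_lit 19864208239, nat_lit 19680354544, nat_lit 19107941108, nat_lit 19141520848], nat_lit 1271250, nat_lit 1271250, nat_lit 490000, nat_lit 1100001, nat_lit 0, nat_lit 0, [nat_lit 1100000, nat_lit 1442500], [nat_lit 31, nat_lit 40, nat_lit 20, nat_lit 80, nat_lit 3, nat_lit 249, nat_lit 40, nat_lit 10]⟩, ⟨p013_k27, nat_lit 0, nat_lit 0, nat_lit 57, nat_lit 0, nat_lit 0, [nat_lit 4688000000, nat_lit 6250000000], [], [nat_lit 13437214130, nat_lit 14571980043, nat_lit 14535178494, nat_lit 15541755047], nat_lit 0, nat_lit 0, nat_lit 0, nat_lit 0, nat_lit 0, nat_lit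 0, [], [nat_lit 31, nat_lit 40, nat_lit 20, nat_lit 80, nat_lit 3, nat_lit 249, nat_lit 40, nat_lit 10]⟩,
 zbF0, []⟩
noncomputable def p013_l135 : Lf2 := ⟨nat_lit 0, nat_lit 1, [nat_lit 19, nat_lit 5, nat_lit 5, nat_lit 20], false, nat_lit 0, nat_lit 0, nat_lit 0, nat_lit 0, ⟨nat_lit 1000, nat_lit 0, nat_lit 0, nat_lit 0, nat_lit 0, nat_lit 0, nat_lit 0, nat_lit 0, nat_lit 0, nat_lit 0, nat_lit 0, nat_lit 0, nat_lit 0, nat_lit 0, nat_lit 0, nat_lit 0, false, false⟩,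
 nat_lit 0, nat_lit 14223, nat_lit 0, nat_lit 0, nat_lit 9011, nat_lit 6505, nat_lit 1248, nat_lit 0, nat_lit 0, nat_lit 0, nat_lit 0, nat_lit 0, nat_lit 0, nat_lit 0, nat_lit 0, nat_lit 0, nat_lit 0, nat_lit 0, [],
 ⟨p013_k32, nat_lit 0, nat_lit 0, nat_lit 606, nat_lit 0, nat_lit 1133213, [nat_lit 4688000000, nat_lit 6250000000], [], [nat_lit 19865783894, nat_lit 19685286332, nat_lit 19113091032, nat_lit 19146669444], nat_lit 1271250, nat_lit 1271250, nat_lit 490000, nat_lit 1100001, nat_lit 0, nat_lit 0, [nat_lit 1100000, nat_lit 1442500], [nat_lit 31, nat_lit 40, nat_lit 20, nat_lit 80, nat_lit 3, nat_lit 249, nat_lit 40, nat_lit 10]⟩, ⟨p013_k30, nat_lit 0, nat_lit 0, nat_lit 61, nat_lit 0, nat_lit 0, [nat_lit 4688000000, nat_lit 6250000000], [], [nat_lit 14598183795, nat_lit 15161557468, nat_lit 15580411055, nat_lit 16080254528], nat_lit 0, nat_lit 0, nat_lit 0, nat_lit 0, nat_lit 0, nat_lit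 0, [], [nat_lit 31, nat_lit 40, nat_lit 20, nat_lit 80, nat_lit 3, nat_lit 249, nat_lit 40, nat_lit 10]⟩,
 zbF0, []⟩
noncomputable def p013_l136 : Lf2 := ⟨nat_lit 0, nat_lit 1, [nat_lit 19, nat_lit 5, nat_lit 5, nat_lit 20], false, nat_lit 0, nat_lit 0, nat_lit 0, nat_lit 0, ⟨nat_lit 1000, nat_lit 0, nat_lit 0, nat_lit 0, nat_lit 0, nat_lit 0, nat_lit 0, nat_lit 0, nat_lit 0, nat_lit 0, nat_lit 0, nat_lit 0, nat_lit 0, nat_lit 0, nat_lit 0, nat_lit 0, false, false⟩,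
 nat_lit 0, nat_lit 14222, nat_lit 0, nat_lit 0, nat_lit 9011, nat_lit 6463, nat_lit 1248, nat_lit 0, nat_lit 0, nat_lit 0, nat_lit 0, nat_lit 0, nat_lit 0, nat_lit 0, nat_lit 0, nat_lit 0, nat_lit 0, nat_lit 0, [],
 ⟨p013_k32, nat_lit 0, nat_lit 0, nat_lit 617, nat_lit 0, nat_lit 1162039, [nat_lit 4688000000, nat_lit 6250000000], [], [nat_lit 19865783894, nat_lit 19685286332, nat_lit 19113091032, nat_lit 19146669444], nat_lit 1271250, nat_lit 1271250, nat_lit 490000, nat_lit 1100001, nat_lit 0, nat_lit 0, [nat_lit 1100000, nat_lit 1442500], [nat_lit 31, nat_lit 40, nat_lit 20, nat_lit 80, nat_lit 3, nat_lit 249, nat_lit 40, nat_lit 10]⟩, ⟨p013_k31, nat_lit 0, nat_lit 0, nat_lit 63, nat_lit 0, nat_lit 0, [nat_lit 4688000000, nat_lit 6250000000], [], [nat_lit 15174504241, nat_lit 15511125195, nat_lit 16100794397, nat_lit 16399494799], nat_lit 0, nat_lit 0, nat_lit 0, nat_lit 0, nat_lit 0, nat_lit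 0, [], [nat_lit 31, nat_lit 40, nat_lit 20, nat_lit 80, nat_lit 3, nat_lit 249, nat_lit 40, nat_lit 10]⟩,
 zbF0, []⟩
noncomputable def p013_l137 : Lf2 := ⟨nat_lit 0, nat_lit 1, [nat_lit 19, nat_lit 5, nat_lit 5, nat_lit 20], true, nat_lit 0, nat_lit 0, nat_lit 0, nat_lit 0, ⟨nat_lit 0, nat_lit 1000, nat_lit 0, nat_lit 6, nat_lit 151, nat_lit 0, nat_lit 0, nat_lit 0, nat_lit 0, nat_lit 0, nat_lit 0, nat_lit 0, nat_lit 0, nat_lit 0, nat_lit 0, nat_lit 5000000, false, false⟩,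
 nat_lit 0, nat_lit 8201, nat_lit 0, nat_lit 0, nat_lit 5196, nat_lit 0, nat_lit 0, nat_lit 0, nat_lit 0, nat_lit 0, nat_lit 0, nat_lit 0, nat_lit 0, nat_lit 28149545153182, nat_lit 0, nat_lit 1000000, nat_lit 0, nat_lit 0, [(nat_lit 9, [(nat_lit 2, nat_lit 1000)])],
 ⟨p013_k32, nat_lit 0, nat_lit 0, nat_lit 320, nat_lit 0, nat_lit 538273, [nat_lit 2663466667, nat_lit 2329200000], [], [nat_lit 19803308102, nat_lit 19670015633, nat_lit 19782793796, nat_lit 19657829996], nat_lit 1271250, nat_lit 1271250, nat_lit 490000, nat_lit 631250, nat_lit 0, nat_lit 0, [nat_lit 1100000, nat_lit 1442500], [nat_lit 31, nat_lit 40, nat_lit 20, nat_lit 80, nat_lit 3, nat_lit 232, nat_lit 25, nat_lit 9]⟩, C1.Rw.none,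
 ⟨nat_lit 5477, nat_lit 5500, ⟨.ofNat (nat_lit 357951), .ofNat (nat_lit 395507), .ofNat (nat_lit 360087), .ofNat (nat_lit 397642), .ofNat (nat_lit 358492), .ofNat (nat_lit 395958), .ofNat (nat_lit 360628), .ofNat (nat_lit 398094)⟩, ⟨.ofNat (nat_lit 0), .ofNat (nat_lit 0), .ofNat (nat_lit 0), .ofNat (nat_lit 0), .ofNat (nat_lit 0), .ofNat (nat_lit 0), .ofNat (nat_lit 0), .ofNat (nat_lit 0)⟩⟩, []⟩
noncomputable def p013_l138 : Lf2 := ⟨nat_lit 0, nat_lit 1, [nat_lit 19, nat_lit 5, nat_lit 5, nat_lit 20], false, nat_lit 0, nat_lit 0, nat_lit 0, nat_lit 0, ⟨nat_lit 1000, nat_lit 0, nat_lit 0, nat_lit 0, nat_lit 0, nat_lit 0, nat_lit 0, nat_lit 0, nat_lit 0, nat_lit 0, nat_lit 0, nat_lit 0, nat_lit 0, nat_lit 0, nat_lit 0, nat_lit 0, false, false⟩,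
 nat_lit 0, nat_lit 14709, nat_lit 0, nat_lit 0, nat_lit 9319, nat_lit 6654, nat_lit 1223, nat_lit 0, nat_lit 0, nat_lit 0, nat_lit 0, nat_lit 0, nat_lit 0, nat_lit 0, nat_lit 0, nat_lit 0, nat_lit 0, nat_lit 0, [],
 ⟨p013_k32, nat_lit 0, nat_lit 0, nat_lit 617, nat_lit 0, nat_lit 1181399, [nat_lit 4688000000, nat_lit 6250000000], [], [nat_lit 17800910517, nat_lit 17836248288, nat_lit 17595824372, nat_lit 17632809896], nat_lit 1271250, nat_lit 1271250, nat_lit 631250, nat_lit 780000, nat_lit 0, nat_lit 0, [nat_lit 1100000, nat_lit 1442500], [nat_lit 31, nat_lit 40, nat_lit 20, nat_lit 80, nat_lit 3, nat_lit 238, nat_lit 30, nat_lit 9]⟩, ⟨p013_k29, nat_lit 0, nat_lit 0, nat_lit 58, nat_lit 0, nat_lit 0, [nat_lit 4688000000, nat_lit 6250000000], [], [nat_lit 15270228371, nat_lit 15493569392, nat_lit 15369971777, nat_lit 15587168584], nat_lit 0, nat_lit 0, nat_lit 0, nat_lit 0, nat_lit 0, nat_lit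 0, [], [nat_lit 31, nat_lit 40, nat_lit 20, nat_lit 80, nat_lit 3, nat_lit 238, nat_lit 30, nat_lit 9]⟩,
 zbF0, []⟩
noncomputable def p013_l139 : Lf2 := ⟨nat_lit 0, nat_lit 1, [nat_lit 19, nat_lit 5, nat_lit 5, nat_lit 20], false, nat_lit 0, nat_lit 0, nat_lit 0, nat_lit 0, ⟨nat_lit 1000, nat_lit 0, nat_lit 0, nat_lit 0, nat_lit 0, nat_lit 0, nat_lit 0, nat_lit 0, nat_lit 0, nat_lit 0, nat_lit 0, nat_lit 0, nat_lit 0, nat_lit 0, nat_lit 0, nat_lit 0, false, false⟩,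
 nat_lit 0, nat_lit 14744, nat_lit 0, nat_lit 0, nat_lit 9341, nat_lit 6806, nat_lit 1202, nat_lit 0, nat_lit 0, nat_lit 0, nat_lit 0, nat_lit 0, nat_lit 0, nat_lit 0, nat_lit 0, nat_lit 0, nat_lit 0, nat_lit 0, [],
 ⟨p013_k32, nat_lit 0, nat_lit 0, nat_lit 609, nat_lit 0, nat_lit 1181399, [nat_lit 4688000000, nat_lit 6250000000], [], [nat_lit 17487346977, nat_lit 17521423544, nat_lit 18036600121, nat_lit 18187321192], nat_lit 1271250, nat_lit 1271250, nat_lit 780000, nat_lit 1100001, nat_lit 0, nat_lit 0, [nat_lit 1100000, nat_lit 1442500], [nat_lit 31, nat_lit 40, nat_lit 20, nat_lit 80, nat_lit 3, nat_lit 249, nat_lit 40, nat_lit 9]⟩, ⟨p013_k29, nat_lit 0, nat_lit 0, nat_lit 53, nat_lit 0, nat_lit 0, [nat_lit 4688000000, nat_lit 6250000000], [], [nat_lit 15303684060, nat_lit 15524057576, nat_lit 16241598934, nat_lit 16447296800], nat_lit 0, nat_lit 0, nat_lit 0, nat_lit 0, nat_lit 0, nat_lit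 0, [], [nat_lit 31, nat_lit 40, nat_lit 20, nat_lit 80, nat_lit 3, nat_lit 249, nat_lit 40, nat_lit 9]⟩,
 zbF0, []⟩
noncomputable def p013_l140 : Lf2 := ⟨nat_lit 0, nat_lit 2, [nat_lit 10, nat_lit 5, nat_lit 5, nat_lit 20], false, nat_lit 0, nat_lit 0, nat_lit 0, nat_lit 0, ⟨nat_lit 1000, nat_lit 0, nat_lit 0, nat_lit 0, nat_lit 0, nat_lit 0, nat_lit 0, nat_lit 0, nat_lit 0, nat_lit 0, nat_lit 0, nat_lit 0, nat_lit 0, nat_lit 0, nat_lit 0, nat_lit 0, false, false⟩,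
 nat_lit 0, nat_lit 14308, nat_lit 0, nat_lit 0, nat_lit 9026, nat_lit 6434, nat_lit 1282, nat_lit 0, nat_lit 0, nat_lit 0, nat_lit 0, nat_lit 0, nat_lit 0, nat_lit 56545771393033, nat_lit 0, nat_lit 0, nat_lit 0, nat_lit 0, [],
 ⟨p013_k33, nat_lit 0, nat_lit 0, nat_lit 595, nat_lit 0, nat_lit 1116926, [nat_lit 4688000000, nat_lit 6250000000], [], [nat_lit 20073692143, nat_lit 19611309512, nat_lit 19002243828, nat_lit 19069440504], nat_lit 1271250, nat_lit 1271250, nat_lit 490000, nat_lit 1100001, nat_lit 0, nat_lit 0, [nat_lit 1100000, nat_lit 1442500], [nat_lit 31, nat_lit 40, nat_lit 20, nat_lit 80, nat_lit 3, nat_lit 249, nat_lit 40, nat_lit 10]⟩, ⟨p013_k17, nat_lit 0, nat_lit 0, nat_lit 65, nat_lit 0, nat_lit 0, [nat_lit 4688000000, nat_lit 6250000000], [], [nat_lit 13505183460, nat_lit 15742863752, nat_lit 14625637148, nat_lit 16611423200], nat_lit 0, nat_lit 0, nat_lit 0, nat_lit 0,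 nat_lit 0, nat_lit 0, [], [nat_lit 31, nat_lit 40, nat_lit 20, nat_lit 80, nat_lit 3, nat_lit 249, nat_lit 40, nat_lit 10]⟩,
 zbF0, []⟩
noncomputable def p013_l141 : Lf2 := ⟨nat_lit 0, nat_lit 5, [nat_lit 4, nat_lit 5, nat_lit 5, nat_lit 20], false, nat_lit 0, nat_lit 0, nat_lit 0, nat_lit 0, ⟨nat_lit 1000, nat_lit 0, nat_lit 0, nat_lit 0, nat_lit 0, nat_lit 0, nat_lit 0, nat_lit 0, nat_lit 0, nat_lit 0, nat_lit 0, nat_lit 0, nat_lit 0, nat_lit 0, nat_lit 0, nat_lit 0, false, false⟩,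
 nat_lit 0, nat_lit 13312, nat_lit 0, nat_lit 0, nat_lit 8288, nat_lit 7795, nat_lit 1682, nat_lit 0, nat_lit 0, nat_lit 2793, nat_lit 0, nat_lit 0, nat_lit 0, nat_lit 7686960747889, nat_lit 0, nat_lit 0, nat_lit 0, nat_lit 0, [],
 ⟨p013_k34, nat_lit 0, nat_lit 0, nat_lit 645, nat_lit 0, nat_lit 1041196, [nat_lit 4688000000, nat_lit 6250000000, nat_lit 7968000000], [], [nat_lit 21855427472, nat_lit 21432929689, nat_lit 21206513844, nat_lit 21288930605], nat_lit 1271250, nat_lit 1271250, nat_lit 490000, nat_lit 1100001, nat_lit 0, nat_lit 0, [nat_lit 1100000, nat_lit 1442500, nat_lit 1271250], [nat_lit 9, nat_lit 40, nat_lit 20, nat_lit 80, nat_lit 2, nat_lit 249, nat_lit 40, nat_lit 8]⟩, ⟨p013_k0, nat_lit 0, nat_lit 0, nat_lit 124, nat_lit 0, nat_lit 0, [nat_lit 4688000000, nat_lit 6250000000, nat_lit 7968000000], [], [nat_lit 15073853820, nat_lit 16687426519, nat_lit 15775835855, nat_lit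 17223626694], nat_lit 0, nat_lit 0, nat_lit 0, nat_lit 0, nat_lit 0, nat_lit 0, [], [nat_lit 9, nat_lit 40, nat_lit 20, nat_lit 80, nat_lit 2, nat_lit 249, nat_lit 40, nat_lit 8]⟩,
 zbF0, []⟩
noncomputable def p013_l142 : Lf2 := ⟨nat_lit 0, nat_lit 5, [nat_lit 4, nat_lit 5, nat_lit 5, nat_lit 20], false, nat_lit 0, nat_lit 0, nat_lit 0, nat_lit 0, ⟨nat_lit 1000, nat_lit 0, nat_lit 0, nat_lit 0, nat_lit 0, nat_lit 0, nat_lit 0, nat_lit 0, nat_lit 0, nat_lit 0, nat_lit 0, nat_lit 0, nat_lit 0, nat_lit 0, nat_lit 0, nat_lit 0, false, false⟩,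
 nat_lit 0, nat_lit 13350, nat_lit 0, nat_lit 0, nat_lit 8385, nat_lit 7775, nat_lit 1627, nat_lit 0, nat_lit 0, nat_lit 2783, nat_lit 0, nat_lit 0, nat_lit 0, nat_lit 8326881266706, nat_lit 0, nat_lit 0, nat_lit 0, nat_lit 0, [],
 ⟨p013_k35, nat_lit 0, nat_lit 0, nat_lit 647, nat_lit 0, nat_lit 1046430, [nat_lit 4688000000, nat_lit 6250000000, nat_lit 7968000000], [], [nat_lit 21282343120, nat_lit 21069119620, nat_lit 20857129818, nat_lit 20898546505], nat_lit 1271250, nat_lit 1271250, nat_lit 490000, nat_lit 1100001, nat_lit 0, nat_lit 0, [nat_lit 1100000, nat_lit 1442500, nat_lit 1271250], [nat_lit 9, nat_lit 40, nat_lit 20, nat_lit 80, nat_lit 2, nat_lit 249, nat_lit 40, nat_lit 8]⟩, ⟨p013_k0, nat_lit 0, nat_lit 0, nat_lit 125, nat_lit 0, nat_lit 0, [nat_lit 4688000000, nat_lit 6250000000, nat_lit 7968000000], [], [nat_lit 15120329900, nat_lit 16815997330, nat_lit 15813460225, nat_lit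 17343995095], nat_lit 0, nat_lit 0, nat_lit 0, nat_lit 0, nat_lit 0, nat_lit 0, [], [nat_lit 9, nat_lit 40, nat_lit 20, nat_lit 80, nat_lit 2, nat_lit 249, nat_lit 40, nat_lit 8]⟩,
 zbF0, []⟩
noncomputable def p013_l143 : Lf2 := ⟨nat_lit 0, nat_lit 5, [nat_lit 4, nat_lit 5, nat_lit 5, nat_lit 20], false, nat_lit 0, nat_lit 0, nat_lit 0, nat_lit 0, ⟨nat_lit 1000, nat_lit 0, nat_lit 0, nat_lit 0, nat_lit 0, nat_lit 0, nat_lit 0, nat_lit 0, nat_lit 0, nat_lit 0, nat_lit 0, nat_lit 0, nat_lit 0, nat_lit 0, nat_lit 0, nat_lit 0, false, false⟩,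
 nat_lit 0, nat_lit 13562, nat_lit 0, nat_lit 0, nat_lit 8555, nat_lit 6577, nat_lit 1580, nat_lit 0, nat_lit 0, nat_lit 0, nat_lit 0, nat_lit 0, nat_lit 0, nat_lit 0, nat_lit 0, nat_lit 0, nat_lit 0, nat_lit 0, [],
 ⟨p013_k36, nat_lit 0, nat_lit 0, nat_lit 619, nat_lit 0, nat_lit 980142, [nat_lit 4688000000, nat_lit 6250000000, nat_lit 7968000000], [], [nat_lit 20803743179, nat_lit 20441812100, nat_lit 20142147315, nat_lit 20225710840], nat_lit 1271250, nat_lit 1271250, nat_lit 490000, nat_lit 1100001, nat_lit 0, nat_lit 0, [nat_lit 1100000, nat_lit 1442500, nat_lit 1271250], [nat_lit 9, nat_lit 40, nat_lit 20, nat_lit 80, nat_lit 2, nat_lit 249, nat_lit 40, nat_lit 8]⟩, ⟨p013_k0, nat_lit 0, nat_lit 0, nat_lit 79, nat_lit 0, nat_lit 0, [nat_lit 4688000000, nat_lit 6250000000, nat_lit 7968000000], [], [nat_lit 13437214130, nat_lit 14571980043, nat_lit 14535178494, nat_lit 15541755047], nat_lit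 0, nat_lit 0, nat_lit 0, nat_lit 0, nat_lit 0, nat_lit 0, [], [nat_lit 9, nat_lit 40, nat_lit 20, nat_lit 80, nat_lit 2, nat_lit 249, nat_lit 40, nat_lit 8]⟩,
 zbF0, []⟩
noncomputable def p013_l144 : Lf2 := ⟨nat_lit 0, nat_lit 4, [nat_lit 38, nat_lit 5, nat_lit 5, nat_lit 20], false, nat_lit 0, nat_lit 0, nat_lit 0, nat_lit 0, ⟨nat_lit 1000, nat_lit 0, nat_lit 0, nat_lit 0, nat_lit 0, nat_lit 0, nat_lit 0, nat_lit 0, nat_lit 0, nat_lit 0, nat_lit 0, nat_lit 0, nat_lit 0, nat_lit 0, nat_lit 0, nat_lit 0, false, false⟩,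
 nat_lit 0, nat_lit 13448, nat_lit 0, nat_lit 0, nat_lit 8483, nat_lit 7279, nat_lit 1582, nat_lit 0, nat_lit 0, nat_lit 2669, nat_lit 0, nat_lit 0, nat_lit 0, nat_lit 50246318587939, nat_lit 0, nat_lit 0, nat_lit 0, nat_lit 0, [],
 ⟨p013_k38, nat_lit 0, nat_lit 0, nat_lit 647, nat_lit 0, nat_lit 1045661, [nat_lit 4688000000, nat_lit 6250000000, nat_lit 7968000000], [], [nat_lit 20915343338, nat_lit 20699749955, nat_lit 20462504619, nat_lit 20504131762], nat_lit 1271250, nat_lit 1271250, nat_lit 490000, nat_lit 1100001, nat_lit 0, nat_lit 0, [nat_lit 1100000, nat_lit 1442500, nat_lit 1271250], [nat_lit 9, nat_lit 40, nat_lit 20, nat_lit 80, nat_lit 2, nat_lit 249, nat_lit 40, nat_lit 8]⟩, ⟨p013_k20, nat_lit 0, nat_lit 0, nat_lit 126, nat_lit 0, nat_lit 0, [nat_lit 4688000000, nat_lit 6250000000, nat_lit 7968000000], [], [nat_lit 15711777727, nat_lit 16464521229, nat_lit 16334885155, nat_lit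 17070142904], nat_lit 0, nat_lit 0, nat_lit 0, nat_lit 0, nat_lit 0, nat_lit 0, [], [nat_lit 9, nat_lit 40, nat_lit 20, nat_lit 80, nat_lit 2, nat_lit 249, nat_lit 40, nat_lit 8]⟩,
 zbF0, []⟩
noncomputable def p013_l145 : Lf2 := ⟨nat_lit 0, nat_lit 4, [nat_lit 38, nat_lit 5, nat_lit 5, nat_lit 20], false, nat_lit 0, nat_lit 0, nat_lit 0, nat_lit 0, ⟨nat_lit 1000, nat_lit 0, nat_lit 0, nat_lit 0, nat_lit 0, nat_lit 0, nat_lit 0, nat_lit 0, nat_lit 0, nat_lit 0, nat_lit 0, nat_lit 0, nat_lit 0, nat_lit 0, nat_lit 0, nat_lit 0, false, false⟩,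
 nat_lit 0, nat_lit 13548, nat_lit 0, nat_lit 0, nat_lit 8584, nat_lit 7261, nat_lit 1392, nat_lit 0, nat_lit 0, nat_lit 2661, nat_lit 0, nat_lit 0, nat_lit 0, nat_lit 50493906281074, nat_lit 0, nat_lit 0, nat_lit 0, nat_lit 0, [],
 ⟨p013_k39, nat_lit 0, nat_lit 0, nat_lit 561, nat_lit 0, nat_lit 1056725, [nat_lit 4688000000, nat_lit 6250000000], [], [nat_lit 20538588622, nat_lit 20318754080, nat_lit 20054958552, nat_lit 20096802592], nat_lit 1271250, nat_lit 1271250, nat_lit 490000, nat_lit 1100001, nat_lit 0, nat_lit 0, [nat_lit 1100000, nat_lit 1442500], [nat_lit 31, nat_lit 40, nat_lit 20, nat_lit 80, nat_lit 3, nat_lit 249, nat_lit 40, nat_lit 10]⟩, ⟨p013_k20, nat_lit 0, nat_lit 0, nat_lit 127, nat_lit 0, nat_lit 0, [nat_lit 4688000000, nat_lit 6250000000, nat_lit 7968000000], [], [nat_lit 15753187543, nat_lit 16588325555, nat_lit 16370058895, nat_lit 17185801881], nat_lit 0, nat_lit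 0, nat_lit 0, nat_lit 0, nat_lit 0, nat_lit 0, [], [nat_lit 9, nat_lit 40, nat_lit 20, nat_lit 80, nat_lit 2, nat_lit 249, nat_lit 40, nat_lit 8]⟩,
 zbF0, []⟩
noncomputable def p013_l146 : Lf2 := ⟨nat_lit 0, nat_lit 5, [nat_lit 4, nat_lit 5, nat_lit 5, nat_lit 20], false, nat_lit 0, nat_lit 0, nat_lit 0, nat_lit 0, ⟨nat_lit 1000, nat_lit 0, nat_lit 0, nat_lit 0, nat_lit 0, nat_lit 0, nat_lit 0, nat_lit 0, nat_lit 0, nat_lit 0, nat_lit 0, nat_lit 0, nat_lit 0, nat_lit 0, nat_lit 0, nat_lit 0, false, false⟩,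
 nat_lit 0, nat_lit 13607, nat_lit 0, nat_lit 0, nat_lit 8584, nat_lit 7620, nat_lit 1580, nat_lit 0, nat_lit 0, nat_lit 2405, nat_lit 0, nat_lit 0, nat_lit 0, nat_lit 51674762785535, nat_lit 0, nat_lit 0, nat_lit 0, nat_lit 0, [],
 ⟨p013_k36, nat_lit 0, nat_lit 0, nat_lit 606, nat_lit 0, nat_lit 947824, [nat_lit 4688000000, nat_lit 6250000000, nat_lit 7968000000], [], [nat_lit 20758793116, nat_lit 20318754080, nat_lit 20013114512, nat_lit 20096802592], nat_lit 1271250, nat_lit 1271250, nat_lit 490000, nat_lit 1100001, nat_lit 0, nat_lit 0, [nat_lit 1100000, nat_lit 1442500, nat_lit 1271250], [nat_lit 9, nat_lit 40, nat_lit 20, nat_lit 80, nat_lit 2, nat_lit 249, nat_lit 40, nat_lit 8]⟩, ⟨p013_k2, nat_lit 0, nat_lit 0, nat_lit 127, nat_lit 0, nat_lit 0, [nat_lit 4688000000, nat_lit 6250000000, nat_lit 7968000000], [], [nat_lit 16092145935, nat_lit 16952087975, nat_lit 16420668395, nat_lit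 17177148775], nat_lit 0, nat_lit 0, nat_lit 0, nat_lit 0, nat_lit 0, nat_lit 0, [], [nat_lit 9, nat_lit 40, nat_lit 20, nat_lit 80, nat_lit 2, nat_lit 249, nat_lit 40, nat_lit 8]⟩,
 zbF0, []⟩
noncomputable def p013_l147 : Lf2 := ⟨nat_lit 0, nat_lit 5, [nat_lit 4, nat_lit 5, nat_lit 5, nat_lit 20], false, nat_lit 0, nat_lit 0, nat_lit 0, nat_lit 0, ⟨nat_lit 1000, nat_lit 0, nat_lit 0, nat_lit 0, nat_lit 0, nat_lit 0, nat_lit 0, nat_lit 0, nat_lit 0, nat_lit 0, nat_lit 0, nat_lit 0, nat_lit 0, nat_lit 0, nat_lit 0, nat_lit 0, false, false⟩,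
 nat_lit 0, nat_lit 11840, nat_lit 0, nat_lit 0, nat_lit 7210, nat_lit 7701, nat_lit 1966, nat_lit 0, nat_lit 0, nat_lit 2646, nat_lit 0, nat_lit 0, nat_lit 0, nat_lit 45515282202038, nat_lit 0, nat_lit 0, nat_lit 0, nat_lit 0, [],
 ⟨p013_k2, nat_lit 0, nat_lit 0, nat_lit 560, nat_lit 0, nat_lit 874433, [nat_lit 4688000000, nat_lit 6250000000, nat_lit 7968000000], [], [nat_lit 24368155410, nat_lit 23444972725, nat_lit 23436553190, nat_lit 23677401335], nat_lit 1271250, nat_lit 1271250, nat_lit 490000, nat_lit 1100001, nat_lit 0, nat_lit 0, [nat_lit 1100000, nat_lit 1442500, nat_lit 1271250], [nat_lit 9, nat_lit 40, nat_lit 20, nat_lit 80, nat_lit 2, nat_lit 249, nat_lit 40, nat_lit 8]⟩, ⟨p013_k0, nat_lit 0, nat_lit 0, nat_lit 122, nat_lit 0, nat_lit 0, [nat_lit 4688000000, nat_lit 6250000000, nat_lit 7968000000], [], [nat_lit 15532291396, nat_lit 16830599134, nat_lit 16035482894, nat_lit 17303466533],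 nat_lit 0, nat_lit 0, nat_lit 0, nat_lit 0, nat_lit 0, nat_lit 0, [], [nat_lit 9, nat_lit 40, nat_lit 20, nat_lit 80, nat_lit 2, nat_lit 249, nat_lit 40, nat_lit 8]⟩,
 zbF0, []⟩
noncomputable def p013_l148 : Lf2 := ⟨nat_lit 0, nat_lit 5, [nat_lit 4, nat_lit 5, nat_lit 5, nat_lit 20], false, nat_lit 0, nat_lit 0, nat_lit 0, nat_lit 0, ⟨nat_lit 1000, nat_lit 0, nat_lit 0, nat_lit 0, nat_lit 0, nat_lit 0, nat_lit 0, nat_lit 0, nat_lit 0, nat_lit 0, nat_lit 0, nat_lit 0, nat_lit 0, nat_lit 0, nat_lit 0, nat_lit 0, false, false⟩,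
 nat_lit 0, nat_lit 12385, nat_lit 0, nat_lit 0, nat_lit 7711, nat_lit 6577, nat_lit 1846, nat_lit 0, nat_lit 0, nat_lit 0, nat_lit 0, nat_lit 0, nat_lit 0, nat_lit 0, nat_lit 0, nat_lit 0, nat_lit 0, nat_lit 0, [],
 ⟨p013_k34, nat_lit 0, nat_lit 0, nat_lit 547, nat_lit 0, nat_lit 842273, [nat_lit 4688000000, nat_lit 6250000000, nat_lit 7968000000], [], [nat_lit 22705373572, nat_lit 21864124120, nat_lit 21800586949, nat_lit 22049313068], nat_lit 1271250, nat_lit 1271250, nat_lit 490000, nat_lit 1100001, nat_lit 0, nat_lit 0, [nat_lit 1100000, nat_lit 1442500, nat_lit 1271250], [nat_lit 9, nat_lit 40, nat_lit 20, nat_lit 80, nat_lit 2, nat_lit 249, nat_lit 40, nat_lit 8]⟩, ⟨p013_k0, nat_lit 0, nat_lit 0, nat_lit 79, nat_lit 0, nat_lit 0, [nat_lit 4688000000, nat_lit 6250000000, nat_lit 7968000000], [], [nat_lit 13437214130, nat_lit 14571980043, nat_lit 14535178494, nat_lit 15541755047], nat_lit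 0, nat_lit 0, nat_lit 0, nat_lit 0, nat_lit 0, nat_lit 0, [], [nat_lit 9, nat_lit 40, nat_lit 20, nat_lit 80, nat_lit 2, nat_lit 249, nat_lit 40, nat_lit 8]⟩,
 zbF0, []⟩
noncomputable def p013_l149 : Lf2 := ⟨nat_lit 0, nat_lit 5, [nat_lit 4, nat_lit 5, nat_lit 5, nat_lit 20], false, nat_lit 0, nat_lit 0, nat_lit 0, nat_lit 0, ⟨nat_lit 1000, nat_lit 0, nat_lit 0, nat_lit 0, nat_lit 0, nat_lit 0, nat_lit 0, nat_lit 0, nat_lit 0, nat_lit 0, nat_lit 0, nat_lit 0, nat_lit 0, nat_lit 0, nat_lit 0, nat_lit 0, false, false⟩,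
 nat_lit 0, nat_lit 13467, nat_lit 0, nat_lit 0, nat_lit 8385, nat_lit 7652, nat_lit 1680, nat_lit 0, nat_lit 0, nat_lit 2424, nat_lit 0, nat_lit 0, nat_lit 0, nat_lit 53422432782419, nat_lit 0, nat_lit 0, nat_lit 0, nat_lit 0, [],
 ⟨p013_k34, nat_lit 0, nat_lit 0, nat_lit 571, nat_lit 0, nat_lit 902269, [nat_lit 4688000000, nat_lit 6250000000, nat_lit 7968000000], [], [nat_lit 21712542253, nat_lit 21067710959, nat_lit 20774296443, nat_lit 20898546505], nat_lit 1271250, nat_lit 1271250, nat_lit 490000, nat_lit 1100001, nat_lit 0, nat_lit 0, [nat_lit 1100000, nat_lit 1442500, nat_lit 1271250], [nat_lit 9, nat_lit 40, nat_lit 20, nat_lit 80, nat_lit 2, nat_lit 249, nat_lit 40, nat_lit 8]⟩, ⟨p013_k2, nat_lit 0, nat_lit 0, nat_lit 125, nat_lit 0, nat_lit 0, [nat_lit 4688000000, nat_lit 6250000000, nat_lit 7968000000], [], [nat_lit 16005135776, nat_lit 16694858164, nat_lit 16327172892, nat_lit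 16933841971], nat_lit 0, nat_lit 0, nat_lit 0, nat_lit 0, nat_lit 0, nat_lit 0, [], [nat_lit 9, nat_lit 40, nat_lit 20, nat_lit 80, nat_lit 2, nat_lit 249, nat_lit 40, nat_lit 8]⟩,
 zbF0, []⟩
noncomputable def p013_l150 : Lf2 := ⟨nat_lit 0, nat_lit 5, [nat_lit 4, nat_lit 5, nat_lit 5, nat_lit 20], false, nat_lit 0, nat_lit 0, nat_lit 0, nat_lit 0, ⟨nat_lit 1000, nat_lit 0, nat_lit 0, nat_lit 0, nat_lit 0, nat_lit 0, nat_lit 0, nat_lit 0, nat_lit 0, nat_lit 0, nat_lit 0, nat_lit 0, nat_lit 0, nat_lit 0, nat_lit 0, nat_lit 0, false, false⟩,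
 nat_lit 0, nat_lit 13607, nat_lit 0, nat_lit 0, nat_lit 8584, nat_lit 7620, nat_lit 1580, nat_lit 0, nat_lit 0, nat_lit 2405, nat_lit 0, nat_lit 0, nat_lit 0, nat_lit 53689420451486, nat_lit 0, nat_lit 0, nat_lit 0, nat_lit 0, [],
 ⟨p013_k36, nat_lit 0, nat_lit 0, nat_lit 579, nat_lit 0, nat_lit 921709, [nat_lit 4688000000, nat_lit 6250000000, nat_lit 7968000000], [], [nat_lit 20758793116, nat_lit 20318754080, nat_lit 20013114512, nat_lit 20096802592], nat_lit 1271250, nat_lit 1271250, nat_lit 490000, nat_lit 1100001, nat_lit 0, nat_lit 0, [nat_lit 1100000, nat_lit 1442500, nat_lit 1271250], [nat_lit 9, nat_lit 40, nat_lit 20, nat_lit 80, nat_lit 2, nat_lit 249, nat_lit 40, nat_lit 8]⟩, ⟨p013_k2, nat_lit 0, nat_lit 0, nat_lit 127, nat_lit 0, nat_lit 0, [nat_lit 4688000000, nat_lit 6250000000, nat_lit 7968000000], [], [nat_lit 16092145935, nat_lit 16952087975, nat_lit 16420668395, nat_lit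 17177148775], nat_lit 0, nat_lit 0, nat_lit 0, nat_lit 0, nat_lit 0, nat_lit 0, [], [nat_lit 9, nat_lit 40, nat_lit 20, nat_lit 80, nat_lit 2, nat_lit 249, nat_lit 40, nat_lit 8]⟩,
 zbF0, []⟩
noncomputable def p013_l151 : Lf2 := ⟨nat_lit 0, nat_lit 5, [nat_lit 4, nat_lit 5, nat_lit 5, nat_lit 20], false, nat_lit 0, nat_lit 0, nat_lit 0, nat_lit 0, ⟨nat_lit 1000, nat_lit 0, nat_lit 0, nat_lit 0, nat_lit 0, nat_lit 0, nat_lit 0, nat_lit 0, nat_lit 0, nat_lit 0, nat_lit 0, nat_lit 0, nat_lit 0, nat_lit 0, nat_lit 0, nat_lit 0, false, false⟩,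
 nat_lit 0, nat_lit 14450, nat_lit 0, nat_lit 0, nat_lit 8411, nat_lit 7071, nat_lit 5951, nat_lit 0, nat_lit 0, nat_lit 0, nat_lit 0, nat_lit 0, nat_lit 0, nat_lit 0, nat_lit 0, nat_lit 0, nat_lit 0, nat_lit 0, [],
 ⟨p013_k7, nat_lit 0, nat_lit 0, nat_lit 678, nat_lit 0, nat_lit 1218726, [nat_lit 4688000000, nat_lit 7968000000], [], [nat_lit 21580199596, nat_lit 21908013320, nat_lit 27531002750, nat_lit 25549345917], nat_lit 1271250, nat_lit 1271250, nat_lit 1100001, nat_lit 1785000, nat_lit 0, nat_lit 0, [nat_lit 1100000, nat_lit 1785000], [nat_lit 39, nat_lit 40, nat_lit 20, nat_lit 80, nat_lit 7, nat_lit 272, nat_lit 60, nat_lit 9]⟩, ⟨p013_k7, nat_lit 0, nat_lit 0, nat_lit 63, nat_lit 0, nat_lit 0, [nat_lit 4688000000, nat_lit 7968000000], [], [nat_lit 14222684962, nat_lit 15276531881, nat_lit 19267436574, nat_lit 20290762469], nat_lit 0, nat_lit 0, nat_lit 0, nat_lit 0, nat_lit 0, nat_lit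 0, [], [nat_lit 39, nat_lit 40, nat_lit 20, nat_lit 80, nat_lit 7, nat_lit 272, nat_lit 60, nat_lit 9]⟩,
 zbF0, []⟩
noncomputable def p013_l152 : Lf2 := ⟨nat_lit 0, nat_lit 5, [nat_lit 4, nat_lit 5, nat_lit 5, nat_lit 20], false, nat_lit 0, nat_lit 0, nat_lit 0, nat_lit 0, ⟨nat_lit 1000, nat_lit 0, nat_lit 0, nat_lit 0, nat_lit 0, nat_lit 0, nat_lit 0, nat_lit 0, nat_lit 0, nat_lit 0, nat_lit 0, nat_lit 0, nat_lit 0, nat_lit 0, nat_lit 0, nat_lit 0, false, false⟩,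
 nat_lit 0, nat_lit 14884, nat_lit 0, nat_lit 0, nat_lit 9064, nat_lit 6910, nat_lit 6140, nat_lit 0, nat_lit 0, nat_lit 0, nat_lit 0, nat_lit 0, nat_lit 0, nat_lit 0, nat_lit 0, nat_lit 0, nat_lit 0, nat_lit 0, [],
 ⟨p013_k13, nat_lit 0, nat_lit 0, nat_lit 745, nat_lit 0, nat_lit 1335265, [nat_lit 4688000000, nat_lit 7968000000], [], [nat_lit 19448640536, nat_lit 19708416608, nat_lit 22179606296, nat_lit 23383786976], nat_lit 1271250, nat_lit 1271250, nat_lit 1100001, nat_lit 1785000, nat_lit 0, nat_lit 0, [nat_lit 1100000, nat_lit 1785000], [nat_lit 39, nat_lit 40, nat_lit 20, nat_lit 80, nat_lit 7, nat_lit 272, nat_lit 60, nat_lit 9]⟩, ⟨p013_k7, nat_lit 0, nat_lit 0, nat_lit 68, nat_lit 0, nat_lit 0, [nat_lit 4688000000, nat_lit 7968000000], [], [nat_lit 14324530020, nat_lit 16401412000, nat_lit 19129460540, nat_lit 21146892440], nat_lit 0, nat_lit 0, nat_lit 0, nat_lit 0, nat_lit 0, nat_lit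 0, [], [nat_lit 39, nat_lit 40, nat_lit 20, nat_lit 80, nat_lit 7, nat_lit 272, nat_lit 60, nat_lit 9]⟩,
 zbF0, []⟩
noncomputable def p013_l153 : Lf2 := ⟨nat_lit 0, nat_lit 5, [nat_lit 4, nat_lit 5, nat_lit 5, nat_lit 20], false, nat_lit 0, nat_lit 0, nat_lit 0, nat_lit 0, ⟨nat_lit 1000, nat_lit 0, nat_lit 0, nat_lit 0, nat_lit 0, nat_lit 0, nat_lit 0, nat_lit 0, nat_lit 0, nat_lit 0, nat_lit 0, nat_lit 0, nat_lit 0, nat_lit 0, nat_lit 0, nat_lit 0, false, false⟩,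
 nat_lit 0, nat_lit 11433, nat_lit 0, nat_lit 0, nat_lit 6655, nat_lit 5855, nat_lit 2388, nat_lit 0, nat_lit 0, nat_lit 2252, nat_lit 0, nat_lit 0, nat_lit 0, nat_lit 41048733050255, nat_lit 0, nat_lit 0, nat_lit 0, nat_lit 0, [],
 ⟨p013_k7, nat_lit 0, nat_lit 0, nat_lit 662, nat_lit 0, nat_lit 1218726, [nat_lit 4688000000, nat_lit 7968000000], [], [nat_lit 32163736330, nat_lit 32373053465, nat_lit 36804983980, nat_lit 36944223910], nat_lit 1271250, nat_lit 1271250, nat_lit 1271250, nat_lit 1271250, nat_lit 0, nat_lit 0, [nat_lit 1100000, nat_lit 1785000], [nat_lit 39, nat_lit 40, nat_lit 20, nat_lit 80, nat_lit 7, nat_lit 250, nat_lit 0, nat_lit 8]⟩, ⟨p013_k7, nat_lit 0, nat_lit 0, nat_lit 182, nat_lit 0, nat_lit 0, [nat_lit 4688000000, nat_lit 7968000000], [], [nat_lit 23972426180, nat_lit 24519885070, nat_lit 34407102420, nat_lit 34873150550], nat_lit 0, nat_lit 0, nat_lit 0, nat_lit 0,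 nat_lit 0, nat_lit 0, [], [nat_lit 39, nat_lit 40, nat_lit 20, nat_lit 80, nat_lit 7, nat_lit 203, nat_lit 0, nat_lit 6]⟩,
 zbF0, []⟩
noncomputable def p013_l154 : Lf2 := ⟨nat_lit 0, nat_lit 5, [nat_lit 4, nat_lit 5, nat_lit 5, nat_lit 20], false, nat_lit 0, nat_lit 0, nat_lit 0, nat_lit 0, ⟨nat_lit 1000, nat_lit 0, nat_lit 0, nat_lit 0, nat_lit 0, nat_lit 0, nat_lit 0, nat_lit 0, nat_lit 0, nat_lit 0, nat_lit 0, nat_lit 0, nat_lit 0, nat_lit 0, nat_lit 0, nat_lit 0, false, false⟩,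
 nat_lit 0, nat_lit 11123, nat_lit 0, nat_lit 0, nat_lit 6774, nat_lit 5667, nat_lit 1545, nat_lit 0, nat_lit 0, nat_lit 2961, nat_lit 0, nat_lit 0, nat_lit 0, nat_lit 41391871024099, nat_lit 0, nat_lit 0, nat_lit 0, nat_lit 0, [],
 ⟨p013_k13, nat_lit 0, nat_lit 0, nat_lit 727, nat_lit 0, nat_lit 1335265, [nat_lit 4688000000, nat_lit 7968000000], [], [nat_lit 33741987614, nat_lit 33906465724, nat_lit 37641531826, nat_lit 37746820960], nat_lit 1271250, nat_lit 1271250, nat_lit 1271250, nat_lit 1271250, nat_lit 0, nat_lit 0, [nat_lit 1100000, nat_lit 1785000], [nat_lit 39, nat_lit 40, nat_lit 20, nat_lit 80, nat_lit 7, nat_lit 267, nat_lit 0, nat_lit 8]⟩, ⟨p013_k7, nat_lit 0, nat_lit 0, nat_lit 183, nat_lit 0, nat_lit 0, [nat_lit 4688000000, nat_lit 7968000000], [], [nat_lit 23024131172, nat_lit 24102686184, nat_lit 33925784068, nat_lit 34847274872], nat_lit 0, nat_lit 0, nat_lit 0, nat_lit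 0, nat_lit 0, nat_lit 0, [], [nat_lit 39, nat_lit 40, nat_lit 20, nat_lit 80, nat_lit 7, nat_lit 203, nat_lit 0, nat_lit 6]⟩,
 zbF0, []⟩
noncomputable def b_NL_650_650_0_3 : St := ⟨false, nat_lit 1, nat_lit 0, nat_lit 2, nat_lit 20, nat_lit 260, nat_lit 280, nat_lit 260, nat_lit 280, nat_lit 36, nat_lit 400, nat_lit 0, nat_lit 0, nat_lit 0, nat_lit 0, nat_lit 0, nat_lit 0, nat_lit 0, nat_lit 40, nat_lit 0, nat_lit 0, nat_lit 0, nat_lit 0⟩
theorem d_NL_650_650_0_3 (h : EB TB.env) : Dead b_NL_650_650_0_3 := chkB_sound0 h (T :=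
(.spl (nat_lit 2) (nat_lit 240)
(.spl (nat_lit 2) (nat_lit 160)
(.spl (nat_lit 2) (nat_lit 80)
(.leaf p013_l116)
(.spl (nat_lit 0) (nat_lit 270)
(.ord (.spl (nat_lit 6) (nat_lit 20)
(.spl (nat_lit 0) (nat_lit 265)
(.ord (.leaf p013_l117))
(.leaf p013_l118))
(.leaf p013_l119)))
(.spl (nat_lit 6) (nat_lit 20)
(.spl (nat_lit 0) (nat_lit 275)
(.ord (.spl (nat_lit 6) (nat_lit 8)
(.spl (nat_lit 0) (nat_lit 273)
(.ord (.leaf p013_l120))
(.leaf p013_l121))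
(.leaf p013_l122)))
(.spl (nat_lit 6) (nat_lit 8)
(.spl (nat_lit 0) (nat_lit 278)
(.ord (.spl (nat_lit 0) (nat_lit 277)
(.ord (.spl (nat_lit 0) (nat_lit 276)
(.ord (.leaf p013_l123))
(.leaf p013_l124)))
(.spl (nat_lit 6) (nat_lit 4)
(.leaf p013_l125)
(.leaf p013_l126))))
(.spl (nat_lit 6) (nat_lit 4)
(.spl (nat_lit 0) (nat_lit 279)
(.ord (.spl (nat_lit 1) (nat_lit 270)
(.leaf p013_l127)
(.spl (nat_lit 1) (nat_lit 275)
(.leaf p013_l128)
(.spl (nat_lit 1) (nat_lit 277)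
(.leaf p013_l129)
(.spl (nat_lit 1) (nat_lit 278)
(.leaf p013_l130)
(.spl (nat_lit 2) (nat_lit 120)
(.spl (nat_lit 2) (nat_lit 100)
(.leaf p013_l131)
(.leaf p013_l132))
(.leaf p013_l133)))))))
(.spl (nat_lit 1) (nat_lit 270)
(.leaf p013_l134)
(.spl (nat_lit 1) (nat_lit 275)
(.leaf p013_l135)
(.spl (nat_lit 1) (nat_lit 278)
(.leaf p013_l136)
(.spl (nat_lit 2) (nat_lit 120)
(.spl (nat_lit 2) (nat_lit 100)
(.leaf p013_l137)
(.leaf p013_l138))
(.leaf p013_l139))))))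
(.leaf p013_l140)))
(.spl (nat_lit 0) (nat_lit 278)
(.ord (.spl (nat_lit 0) (nat_lit 277)
(.ord (.leaf p013_l141))
(.leaf p013_l142)))
(.spl (nat_lit 1) (nat_lit 270)
(.leaf p013_l143)
(.spl (nat_lit 6) (nat_lit 16)
(.spl (nat_lit 0) (nat_lit 279)
(.ord (.leaf p013_l144))
(.leaf p013_l145))
(.leaf p013_l146))))))
(.spl (nat_lit 0) (nat_lit 275)
(.ord (.leaf p013_l147))
(.spl (nat_lit 1) (nat_lit 270)
(.leaf p013_l148)
(.spl (nat_lit 0) (nat_lit 278)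
(.ord (.leaf p013_l149))
(.leaf p013_l150)))))))
(.spl (nat_lit 0) (nat_lit 270)
(.ord (.leaf p013_l151))
(.leaf p013_l152)))
(.spl (nat_lit 0) (nat_lit 270)
(.ord (.leaf p013_l153))
(.leaf p013_l154)))) (by decide +kernel)
noncomputable def p013_l155 : Lf2 := ⟨nat_lit 0, nat_lit 5, [nat_lit 4, nat_lit 5, nat_lit 5, nat_lit 20], false, nat_lit 0, nat_lit 0, nat_lit 0, nat_lit 0, ⟨nat_lit 920, nat_lit 0, nat_lit 80, nat_lit 6, nat_lit 244, nat_lit 0, nat_lit 0, nat_lit 0, nat_lit 0, nat_lit 215, nat_lit 684542, nat_lit 200, nat_lit 48865626, nat_lit 0, nat_lit 0, nat_lit 2919581, false, false⟩,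
 nat_lit 0, nat_lit 0, nat_lit 0, nat_lit 0, nat_lit 0, nat_lit 7310, nat_lit 0, nat_lit 0, nat_lit 0, nat_lit 0, nat_lit 0, nat_lit 0, nat_lit 0, nat_lit 0, nat_lit 0, nat_lit 20000, nat_lit 0, nat_lit 0, [(nat_lit 9, [(nat_lit 4, nat_lit 80)])],
 ⟨p013_k0, nat_lit 0, nat_lit 0, nat_lit 193, nat_lit 0, nat_lit 0, [nat_lit 4561024000, nat_lit 5744208001, nat_lit 7256256000], [], [nat_lit 28844260400, nat_lit 29527848800, nat_lit 38507036000, nat_lit 38998864000], nat_lit 0, nat_lit 0, nat_lit 0, nat_lit 0, nat_lit 0, nat_lit 0, [], [nat_lit 9, nat_lit 40, nat_lit 20, nat_lit 80, nat_lit 2, nat_lit 317, nat_lit 100, nat_lit 11]⟩, ⟨p013_k0, nat_lit 0, nat_lit 0, nat_lit 193, nat_lit 0, nat_lit 0, [nat_lit 4312960000, nat_lit 5750000000, nat_lit 7330560000], [], [nat_lit 21939257184, nat_lit 23955238505, nat_lit 36578830600, nat_lit 37544862000], nat_lit 0, nat_lit 0, nat_lit 0, nat_lit 0, nat_lit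 0, nat_lit 0, [], [nat_lit 9, nat_lit 40, nat_lit 20, nat_lit 80, nat_lit 2, nat_lit 317, nat_lit 100, nat_lit 11]⟩,
 ⟨nat_lit 5477, nat_lit 5917, ⟨.ofNat (nat_lit 242029), .ofNat (nat_lit 956565), .ofNat (nat_lit 263368), .ofNat (nat_lit 977896), .ofNat (nat_lit 256844), .ofNat (nat_lit 938616), .ofNat (nat_lit 278201), .ofNat (nat_lit 959965)⟩, ⟨.ofNat (nat_lit 0), .ofNat (nat_lit 0), .ofNat (nat_lit 0), .ofNat (nat_lit 0), .ofNat (nat_lit 0), .ofNat (nat_lit 0), .ofNat (nat_lit 0), .ofNat (nat_lit 0)⟩⟩, [⟨nat_lit 0, nat_lit 100, nat_lit 100, nat_lit 80, nat_lit 174826390⟩]⟩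
noncomputable def p013_l156 : Lf2 := ⟨nat_lit 0, nat_lit 5, [nat_lit 4, nat_lit 5, nat_lit 5, nat_lit 20], false, nat_lit 0, nat_lit 0, nat_lit 0, nat_lit 0, ⟨nat_lit 71, nat_lit 0, nat_lit 929, nat_lit 6, nat_lit 182, nat_lit 0, nat_lit 0, nat_lit 0, nat_lit 0, nat_lit 215, nat_lit 56426, nat_lit 200, nat_lit 55476690, nat_lit 0, nat_lit 0, nat_lit 2295134, false, false⟩,
 nat_lit 0, nat_lit 0, nat_lit 1303, nat_lit 0, nat_lit 4730, nat_lit 758, nat_lit 0, nat_lit 0, nat_lit 0, nat_lit 43, nat_lit 0, nat_lit 0, nat_lit 0, nat_lit 5553151814851, nat_lit 25, nat_lit 348050, nat_lit 0, nat_lit 0, [(nat_lit 9, [(nat_lit 4, nat_lit 157), (nat_lit 5, nat_lit 772)])],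
 ⟨p013_k0, nat_lit 0, nat_lit 0, nat_lit 163, nat_lit 0, nat_lit 0, [nat_lit 2398054401, nat_lit 773042401, nat_lit 98639399], [], [nat_lit 14718741112, nat_lit 16092553888, nat_lit 17854714480, nat_lit 18882997320], nat_lit 0, nat_lit 0, nat_lit 0, nat_lit 0, nat_lit 0, nat_lit 0, [], [nat_lit 9, nat_lit 40, nat_lit 20, nat_lit 80, nat_lit 2, nat_lit 272, nat_lit 60, nat_lit 9]⟩, ⟨p013_k0, nat_lit 0, nat_lit 0, nat_lit 521, nat_lit 0, nat_lit 711570, [nat_lit 332848000, nat_lit 443750000, nat_lit 565728000], [], [nat_lit 2456563100, nat_lit 2061214556, nat_lit 2218987602, nat_lit 1865180724], nat_lit 1271250, nat_lit 1271250, nat_lit 205650, nat_lit 1715250, nat_lit 0, nat_lit 0, [nat_lit 1100000, nat_lit 1442500, nat_lit 1271250], [nat_lit 9, nat_lit 40, nat_lit 20, nat_lit 80, nat_lit 2, nat_lit 272, nat_lit 60, nat_lit 9]⟩,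
 ⟨nat_lit 5477, nat_lit 5917, ⟨.ofNat (nat_lit 242029), .ofNat (nat_lit 642507), .ofNat (nat_lit 263368), .ofNat (nat_lit 663838), .ofNat (nat_lit 256844), .ofNat (nat_lit 638960), .ofNat (nat_lit 278201), .ofNat (nat_lit 660309)⟩, ⟨.ofNat (nat_lit 0), .ofNat (nat_lit 0), .ofNat (nat_lit 0), .ofNat (nat_lit 0), .ofNat (nat_lit 0), .ofNat (nat_lit 0), .ofNat (nat_lit 0), .ofNat (nat_lit 0)⟩⟩, [⟨nat_lit 0, nat_lit 100, nat_lit 100, nat_lit 80, nat_lit 35979592⟩]⟩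
noncomputable def p013_l157 : Lf2 := ⟨nat_lit 0, nat_lit 5, [nat_lit 4, nat_lit 5, nat_lit 5, nat_lit 20], false, nat_lit 0, nat_lit 0, nat_lit 0, nat_lit 0, ⟨nat_lit 1000, nat_lit 0, nat_lit 0, nat_lit 0, nat_lit 0, nat_lit 0, nat_lit 0, nat_lit 0, nat_lit 0, nat_lit 0, nat_lit 0, nat_lit 0, nat_lit 0, nat_lit 0, nat_lit 0, nat_lit 0, false, false⟩,
 nat_lit 0, nat_lit 0, nat_lit 11139, nat_lit 0, nat_lit 5833, nat_lit 6483, nat_lit 0, nat_lit 0, nat_lit 0, nat_lit 1451, nat_lit 0, nat_lit 0, nat_lit 0, nat_lit 0, nat_lit 0, nat_lit 0, nat_lit 0, nat_lit 0, [],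
 ⟨p013_k0, nat_lit 0, nat_lit 0, nat_lit 193, nat_lit 0, nat_lit 0, [nat_lit 4688000000, nat_lit 6250000000, nat_lit 7968000000], [], [nat_lit 27714152828, nat_lit 28807155816, nat_lit 37705514060, nat_lit 38408352748], nat_lit 0, nat_lit 0, nat_lit 0, nat_lit 0, nat_lit 0, nat_lit 0, [], [nat_lit 9, nat_lit 40, nat_lit 20, nat_lit 80, nat_lit 2, nat_lit 203, nat_lit 0, nat_lit 6]⟩, ⟨p013_k0, nat_lit 0, nat_lit 0, nat_lit 456, nat_lit 0, nat_lit 711570, [nat_lit 4688000000, nat_lit 6250000000, nat_lit 7968000000], [], [nat_lit 31555619558, nat_lit 32003124651, nat_lit 36690490464, nat_lit 36988001272], nat_lit 1271250, nat_lit 1271250, nat_lit 1271250, nat_lit 1271250, nat_lit 0, nat_lit 0, [nat_lit 1100000, nat_lit 1442500, nat_lit 1271250], [nat_lit 9, nat_lit 40, nat_lit 20, nat_lit 80, nat_lit 2, nat_lit 203, nat_lit 0, nat_lit 6]⟩,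
 zbF0, []⟩
noncomputable def p013_l158 : Lf2 := ⟨nat_lit 0, nat_lit 5, [nat_lit 4, nat_lit 5, nat_lit 5, nat_lit 20], false, nat_lit 0, nat_lit 0, nat_lit 0, nat_lit 0, ⟨nat_lit 450, nat_lit 550, nat_lit 0, nat_lit 6, nat_lit 244, nat_lit 0, nat_lit 0, nat_lit 0, nat_lit 0, nat_lit 0, nat_lit 0, nat_lit 0, nat_lit 0, nat_lit 0, nat_lit 0, nat_lit 5000000, false, false⟩,
 nat_lit 0, nat_lit 0, nat_lit 3556, nat_lit 0, nat_lit 4834, nat_lit 2069, nat_lit 0, nat_lit 0, nat_lit 0, nat_lit 723, nat_lit 0, nat_lit 0, nat_lit 0, nat_lit 0, nat_lit 0, nat_lit 220000, nat_lit 0, nat_lit 0, [(nat_lit 9, [(nat_lit 1, nat_lit 550)])],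
 ⟨p013_k0, nat_lit 0, nat_lit 0, nat_lit 193, nat_lit 0, nat_lit 0, [nat_lit 3596096001, nat_lit 4387040000, nat_lit 5234990000], [], [nat_lit 21969473051, nat_lit 23357912792, nat_lit 34085114997, nat_lit 34676629745], nat_lit 0, nat_lit 0, nat_lit 0, nat_lit 0, nat_lit 0, nat_lit 0, [], [nat_lit 9, nat_lit 40, nat_lit 20, nat_lit 80, nat_lit 2, nat_lit 317, nat_lit 100, nat_lit 11]⟩, ⟨p013_k0, nat_lit 0, nat_lit 0, nat_lit 521, nat_lit 0, nat_lit 711570, [nat_lit 2109600000, nat_lit 2812500000, nat_lit 3585600000], [], [nat_lit 16748146474, nat_lit 16995751498, nat_lit 20444238170, nat_lit 19519395170], nat_lit 1271250, nat_lit 1271250, nat_lit 205650, nat_lit 2899250, nat_lit 0, nat_lit 0, [nat_lit 1100000, nat_lit 1442500, nat_lit 1271250], [nat_lit 9, nat_lit 40, nat_lit 20, nat_lit 80, nat_lit 2, nat_lit 317, nat_lit 100, nat_lit 11]⟩,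
 ⟨nat_lit 5477, nat_lit 5917, ⟨.ofNat (nat_lit 242029), .ofNat (nat_lit 956565), .ofNat (nat_lit 263368), .ofNat (nat_lit 977896), .ofNat (nat_lit 256844), .ofNat (nat_lit 938616), .ofNat (nat_lit 278201), .ofNat (nat_lit 959965)⟩, ⟨.ofNat (nat_lit 0), .ofNat (nat_lit 0), .ofNat (nat_lit 0), .ofNat (nat_lit 0), .ofNat (nat_lit 0), .ofNat (nat_lit 0), .ofNat (nat_lit 0), .ofNat (nat_lit 0)⟩⟩, []⟩
noncomputable def p013_l159 : Lf2 := ⟨nat_lit 0, nat_lit 5, [nat_lit 4, nat_lit 5, nat_lit 5, nat_lit 20], false, nat_lit 0, nat_lit 0, nat_lit 0, nat_lit 0, ⟨nat_lit 1000, nat_lit 0, nat_lit 0, nat_lit 0, nat_lit 0, nat_lit 0, nat_lit 0, nat_lit 0, nat_lit 0, nat_lit 0, nat_lit 0, nat_lit 0, nat_lit 0, nat_lit 0, nat_lit 0, nat_lit 0, false, false⟩,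
 nat_lit 0, nat_lit 14513, nat_lit 0, nat_lit 0, nat_lit 8447, nat_lit 7743, nat_lit 2121, nat_lit 0, nat_lit 0, nat_lit 0, nat_lit 0, nat_lit 0, nat_lit 0, nat_lit 4655333515582, nat_lit 0, nat_lit 0, nat_lit 0, nat_lit 0, [],
 ⟨p013_k0, nat_lit 0, nat_lit 0, nat_lit 362, nat_lit 0, nat_lit 366716, [nat_lit 4688000000, nat_lit 6250000000, nat_lit 7968000000], [], [nat_lit 20312348895, nat_lit 21533671820, nat_lit 18784130519, nat_lit 19735405191], nat_lit 1271250, nat_lit 1271250, nat_lit 205650, nat_lit 490000, nat_lit 0, nat_lit 0, [nat_lit 1100000, nat_lit 1442500, nat_lit 1271250], [nat_lit 9, nat_lit 40, nat_lit 20, nat_lit 80, nat_lit 2, nat_lit 226, nat_lit 20, nat_lit 8]⟩, ⟨p013_k0, nat_lit 0, nat_lit 0, nat_lit 163, nat_lit 0, nat_lit 0, [nat_lit 4688000000, nat_lit 6250000000, nat_lit 7968000000], [], [nat_lit 23790629820, nat_lit 25945259921, nat_lit 21835491628, nat_lit 23700465332],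 nat_lit 0, nat_lit 0, nat_lit 0, nat_lit 0, nat_lit 0, nat_lit 0, [], [nat_lit 9, nat_lit 40, nat_lit 20, nat_lit 80, nat_lit 2, nat_lit 226, nat_lit 20, nat_lit 8]⟩,
 zbF0, [⟨nat_lit 0, nat_lit 100, nat_lit 100, nat_lit 70, nat_lit 1095904175⟩]⟩
noncomputable def p013_l160 : Lf2 := ⟨nat_lit 0, nat_lit 5, [nat_lit 4, nat_lit 5, nat_lit 5, nat_lit 20], false, nat_lit 0, nat_lit 0, nat_lit 0, nat_lit 0, ⟨nat_lit 1000, nat_lit 0, nat_lit 0, nat_lit 0, nat_lit 0, nat_lit 0, nat_lit 0, nat_lit 0, nat_lit 0, nat_lit 0, nat_lit 0, nat_lit 0, nat_lit 0, nat_lit 0, nat_lit 0, nat_lit 0, false, false⟩,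
 nat_lit 0, nat_lit 14104, nat_lit 0, nat_lit 0, nat_lit 8209, nat_lit 0, nat_lit 1182, nat_lit 0, nat_lit 0, nat_lit 0, nat_lit 0, nat_lit 0, nat_lit 0, nat_lit 0, nat_lit 0, nat_lit 0, nat_lit 0, nat_lit 0, [],
 ⟨p013_k0, nat_lit 0, nat_lit 0, nat_lit 386, nat_lit 0, nat_lit 507820, [nat_lit 4688000000, nat_lit 6250000000, nat_lit 7968000000], [], [nat_lit 25743598554, nat_lit 26150790477, nat_lit 25131724782, nat_lit 25513785507], nat_lit 1271250, nat_lit 1271250, nat_lit 490000, nat_lit 780000, nat_lit 0, nat_lit 0, [nat_lit 1100000, nat_lit 1442500, nat_lit 1271250], [nat_lit 9, nat_lit 40, nat_lit 20, nat_lit 80, nat_lit 2, nat_lit 238, nat_lit 30, nat_lit 8]⟩, ⟨p013_k0, nat_lit 0, nat_lit 0, nat_lit 79, nat_lit 0, nat_lit 0, [nat_lit 4688000000, nat_lit 6250000000, nat_lit 7968000000], [], [nat_lit 16563328000, nat_lit 16965620000, nat_lit 17568614000, nat_lit 17959275000], nat_lit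 0, nat_lit 0, nat_lit 0, nat_lit 0, nat_lit 0, nat_lit 0, [], [nat_lit 9, nat_lit 40, nat_lit 20, nat_lit 80, nat_lit 2, nat_lit 238, nat_lit 30, nat_lit 8]⟩,
 zbF0, []⟩
noncomputable def p013_l161 : Lf2 := ⟨nat_lit 0, nat_lit 5, [nat_lit 4, nat_lit 5, nat_lit 5, nat_lit 20], false, nat_lit 0, nat_lit 0, nat_lit 0, nat_lit 0, ⟨nat_lit 1000, nat_lit 0, nat_lit 0, nat_lit 0, nat_lit 0, nat_lit 0, nat_lit 0, nat_lit 0, nat_lit 0, nat_lit 0, nat_lit 0, nat_lit 0, nat_lit 0, nat_lit 0, nat_lit 0, nat_lit 0, false, false⟩,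
 nat_lit 0, nat_lit 13781, nat_lit 0, nat_lit 0, nat_lit 8392, nat_lit 7620, nat_lit 1690, nat_lit 0, nat_lit 0, nat_lit 0, nat_lit 0, nat_lit 0, nat_lit 0, nat_lit 1040197801066, nat_lit 0, nat_lit 0, nat_lit 0, nat_lit 0, [],
 ⟨p013_k2, nat_lit 0, nat_lit 0, nat_lit 455, nat_lit 0, nat_lit 667475, [nat_lit 4688000000, nat_lit 6250000000, nat_lit 7968000000], [], [nat_lit 22778626632, nat_lit 20629056028, nat_lit 22565865600, nat_lit 20561486752], nat_lit 1271250, nat_lit 1271250, nat_lit 490000, nat_lit 780000, nat_lit 0, nat_lit 0, [nat_lit 1100000, nat_lit 1442500, nat_lit 1271250], [nat_lit 9, nat_lit 40, nat_lit 20, nat_lit 80, nat_lit 2, nat_lit 238, nat_lit 30, nat_lit 8]⟩, ⟨p013_k0, nat_lit 0, nat_lit 0, nat_lit 127, nat_lit 0, nat_lit 0, [nat_lit 4688000000, nat_lit 6250000000, nat_lit 7968000000], [], [nat_lit 21973719520, nat_lit 23693603600, nat_lit 21767629080, nat_lit 23393232480],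 nat_lit 0, nat_lit 0, nat_lit 0, nat_lit 0, nat_lit 0, nat_lit 0, [], [nat_lit 9, nat_lit 40, nat_lit 20, nat_lit 80, nat_lit 2, nat_lit 238, nat_lit 30, nat_lit 8]⟩,
 zbF0, []⟩
noncomputable def p013_l162 : Lf2 := ⟨nat_lit 0, nat_lit 5, [nat_lit 4, nat_lit 5, nat_lit 5, nat_lit 20], false, nat_lit 0, nat_lit 0, nat_lit 0, nat_lit 0, ⟨nat_lit 1000, nat_lit 0, nat_lit 0, nat_lit 0, nat_lit 0, nat_lit 0, nat_lit 0, nat_lit 0, nat_lit 0, nat_lit 0, nat_lit 0, nat_lit 0, nat_lit 0, nat_lit 0, nat_lit 0, nat_lit 0, false, false⟩,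
 nat_lit 0, nat_lit 9906, nat_lit 0, nat_lit 0, nat_lit 5766, nat_lit 7790, nat_lit 1599, nat_lit 0, nat_lit 0, nat_lit 0, nat_lit 0, nat_lit 0, nat_lit 0, nat_lit 0, nat_lit 0, nat_lit 0, nat_lit 0, nat_lit 0, [],
 ⟨p013_k0, nat_lit 0, nat_lit 0, nat_lit 456, nat_lit 0, nat_lit 711570, [nat_lit 4688000000, nat_lit 6250000000, nat_lit 7968000000], [], [nat_lit 35351598257, nat_lit 32872625738, nat_lit 45865716333, nat_lit 43254825405], nat_lit 1271250, nat_lit 1271250, nat_lit 780000, nat_lit 3072500, nat_lit 0, nat_lit 0, [nat_lit 1100000, nat_lit 1442500, nat_lit 1271250], [nat_lit 9, nat_lit 40, nat_lit 20, nat_lit 80, nat_lit 2, nat_lit 317, nat_lit 100, nat_lit 10]⟩, ⟨p013_k0, nat_lit 0, nat_lit 0, nat_lit 193, nat_lit 0, nat_lit 0, [nat_lit 4688000000, nat_lit 6250000000, nat_lit 7968000000], [], [nat_lit 21551819860, nat_lit 23199212160, nat_lit 39603451800, nat_lit 40402350640], nat_lit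 0, nat_lit 0, nat_lit 0, nat_lit 0, nat_lit 0, nat_lit 0, [], [nat_lit 9, nat_lit 40, nat_lit 20, nat_lit 80, nat_lit 2, nat_lit 317, nat_lit 100, nat_lit 10]⟩,
 zbF0, []⟩
noncomputable def p013_l163 : Lf2 := ⟨nat_lit 0, nat_lit 5, [nat_lit 4, nat_lit 5, nat_lit 5, nat_lit 20], false, nat_lit 0, nat_lit 0, nat_lit 0, nat_lit 0, ⟨nat_lit 1000, nat_lit 0, nat_lit 0, nat_lit 0, nat_lit 0, nat_lit 0, nat_lit 0, nat_lit 0, nat_lit 0, nat_lit 0, nat_lit 0, nat_lit 0, nat_lit 0, nat_lit 0, nat_lit 0, nat_lit 0, false, false⟩,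
 nat_lit 18666, nat_lit 0, nat_lit 0, nat_lit 0, nat_lit 10865, nat_lit 10865, nat_lit 1085, nat_lit 0, nat_lit 0, nat_lit 1085, nat_lit 0, nat_lit 0, nat_lit 0, nat_lit 0, nat_lit 0, nat_lit 0, nat_lit 0, nat_lit 0, [],
 ⟨p013_k0, nat_lit 0, nat_lit 0, nat_lit 362, nat_lit 0, nat_lit 366716, [nat_lit 4688000000, nat_lit 6250000000, nat_lit 7968000000], [], [nat_lit 24022898543, nat_lit 25305290665, nat_lit 20445996700, nat_lit 21526787120], nat_lit 1271250, nat_lit 1271250, nat_lit 205650, nat_lit 780000, nat_lit 0, nat_lit 0, [nat_lit 1100000, nat_lit 1442500, nat_lit 1271250], [nat_lit 9, nat_lit 40, nat_lit 20, nat_lit 80, nat_lit 2, nat_lit 238, nat_lit 30, nat_lit 8]⟩, ⟨p013_k0, nat_lit 0, nat_lit 0, nat_lit 362, nat_lit 0, nat_lit 366716, [nat_lit 4688000000, nat_lit 6250000000, nat_lit 7968000000], [], [nat_lit 24022898543, nat_lit 25305290665, nat_lit 20445996700, nat_lit 21526787120],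 nat_lit 1271250, nat_lit 1271250, nat_lit 205650, nat_lit 780000, nat_lit 0, nat_lit 0, [nat_lit 1100000, nat_lit 1442500, nat_lit 1271250], [nat_lit 9, nat_lit 40, nat_lit 20, nat_lit 80, nat_lit 2, nat_lit 238, nat_lit 30, nat_lit 8]⟩,
 zbF0, [⟨nat_lit 0, nat_lit 100, nat_lit 100, nat_lit 70, nat_lit 63608912⟩, ⟨nat_lit 0, nat_lit 100, nat_lit 100, nat_lit 80, nat_lit 1014108264⟩]⟩
noncomputable def p013_l164 : Lf2 := ⟨nat_lit 0, nat_lit 5, [nat_lit 4, nat_lit 5, nat_lit 5, nat_lit 20], false, nat_lit 0, nat_lit 0, nat_lit 0, nat_lit 0, ⟨nat_lit 1000, nat_lit 0, nat_lit 0, nat_lit 0, nat_lit 0, nat_lit 0, nat_lit 0, nat_lit 0, nat_lit 0, nat_lit 0, nat_lit 0, nat_lit 0, nat_lit 0, nat_lit 0, nat_lit 0, nat_lit 0, false, false⟩,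
 nat_lit 12739, nat_lit 0, nat_lit 0, nat_lit 0, nat_lit 7415, nat_lit 7415, nat_lit 0, nat_lit 0, nat_lit 0, nat_lit 0, nat_lit 0, nat_lit 0, nat_lit 0, nat_lit 0, nat_lit 0, nat_lit 0, nat_lit 0, nat_lit 0, [],
 ⟨p013_k0, nat_lit 0, nat_lit 0, nat_lit 288, nat_lit 0, nat_lit 366716, [nat_lit 4688000000, nat_lit 6250000000, nat_lit 7968000000], [], [nat_lit 32096532190, nat_lit 30716808340, nat_lit 37175585750, nat_lit 33681593260], nat_lit 1271250, nat_lit 1271250, nat_lit 780000, nat_lit 1762500, nat_lit 0, nat_lit 0, [nat_lit 1100000, nat_lit 1442500, nat_lit 1271250], [nat_lit 9, nat_lit 40, nat_lit 20, nat_lit 80, nat_lit 2, nat_lit 272, nat_lit 60, nat_lit 9]⟩, ⟨p013_k0, nat_lit 0, nat_lit 0, nat_lit 288, nat_lit 0, nat_lit 366716, [nat_lit 4688000000, nat_lit 6250000000, nat_lit 7968000000], [], [nat_lit 32096532190, nat_lit 30716808340, nat_lit 37175585750, nat_lit 33681593260], nat_lit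 1271250, nat_lit 1271250, nat_lit 780000, nat_lit 1762500, nat_lit 0, nat_lit 0, [nat_lit 1100000, nat_lit 1442500, nat_lit 1271250], [nat_lit 9, nat_lit 40, nat_lit 20, nat_lit 80, nat_lit 2, nat_lit 272, nat_lit 60, nat_lit 9]⟩,
 zbF0, []⟩
noncomputable def p013_l165 : Lf2 := ⟨nat_lit 0, nat_lit 5, [nat_lit 4, nat_lit 5, nat_lit 5, nat_lit 20], false, nat_lit 0, nat_lit 0, nat_lit 0, nat_lit 0, ⟨nat_lit 1000, nat_lit 0, nat_lit 0, nat_lit 0, nat_lit 0, nat_lit 0, nat_lit 0, nat_lit 0, nat_lit 0, nat_lit 0, nat_lit 0, nat_lit 0, nat_lit 0, nat_lit 0, nat_lit 0, nat_lit 0, false, false⟩,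
 nat_lit 9087, nat_lit 0, nat_lit 4928, nat_lit 0, nat_lit 5289, nat_lit 8157, nat_lit 0, nat_lit 0, nat_lit 0, nat_lit 0, nat_lit 0, nat_lit 0, nat_lit 0, nat_lit 0, nat_lit 0, nat_lit 0, nat_lit 0, nat_lit 0, [],
 ⟨p013_k7, nat_lit 0, nat_lit 0, nat_lit 314, nat_lit 0, nat_lit 366716, [nat_lit 4688000000, nat_lit 7968000000], [], [nat_lit 38989755654, nat_lit 39609802464, nat_lit 44800005166, nat_lit 45165791360], nat_lit 1271250, nat_lit 1271250, nat_lit 1271250, nat_lit 1271250, nat_lit 0, nat_lit 0, [nat_lit 1100000, nat_lit 1785000], [nat_lit 39, nat_lit 40, nat_lit 20, nat_lit 80, nat_lit 7, nat_lit 203, nat_lit 0, nat_lit 6]⟩, ⟨p013_k7, nat_lit 0, nat_lit 0, nat_lit 314, nat_lit 0, nat_lit 366716, [nat_lit 4688000000, nat_lit 7968000000], [], [nat_lit 30772482914, nat_lit 31834958952, nat_lit 40839356660, nat_lit 41366183484], nat_lit 1271250, nat_lit 1271250, nat_lit 1271250, nat_lit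 1271250, nat_lit 0, nat_lit 0, [nat_lit 1100000, nat_lit 1785000], [nat_lit 39, nat_lit 40, nat_lit 20, nat_lit 80, nat_lit 7, nat_lit 203, nat_lit 0, nat_lit 6]⟩,
 zbF0, [⟨nat_lit 13, nat_lit 96, nat_lit 11, nat_lit 100, nat_lit 16355375⟩]⟩
noncomputable def p013_l166 : Lf2 := ⟨nat_lit 0, nat_lit 5, [nat_lit 4, nat_lit 5, nat_lit 5, nat_lit 20], true, nat_lit 0, nat_lit 0, nat_lit 0, nat_lit 0, ⟨nat_lit 0, nat_lit 1000, nat_lit 0, nat_lit 6, nat_lit 121, nat_lit 0, nat_lit 0, nat_lit 0, nat_lit 0, nat_lit 0, nat_lit 0, nat_lit 0, nat_lit 0, nat_lit 0, nat_lit 0, nat_lit 5000000, false, false⟩,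
 nat_lit 0, nat_lit 9987, nat_lit 0, nat_lit 0, nat_lit 5813, nat_lit 0, nat_lit 1231, nat_lit 0, nat_lit 0, nat_lit 0, nat_lit 0, nat_lit 0, nat_lit 0, nat_lit 0, nat_lit 0, nat_lit 400000, nat_lit 0, nat_lit 0, [(nat_lit 9, [(nat_lit 1, nat_lit 1000)])],
 ⟨p013_k0, nat_lit 0, nat_lit 0, nat_lit 362, nat_lit 0, nat_lit 366716, [nat_lit 2702720000, nat_lit 2862800001, nat_lit 3030799999], [], [nat_lit 16592965305, nat_lit 17420403513, nat_lit 15770680000, nat_lit 16561434368], nat_lit 1271250, nat_lit 1271250, nat_lit 205650, nat_lit 490000, nat_lit 0, nat_lit 0, [nat_lit 1100000, nat_lit 1442500, nat_lit 1271250], [nat_lit 9, nat_lit 40, nat_lit 20, nat_lit 80, nat_lit 2, nat_lit 226, nat_lit 20, nat_lit 8]⟩, C1.Rw.none,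
 ⟨nat_lit 5477, nat_lit 5917, ⟨.ofNat (nat_lit 242029), .ofNat (nat_lit 328416), .ofNat (nat_lit 263368), .ofNat (nat_lit 349755), .ofNat (nat_lit 256844), .ofNat (nat_lit 339271), .ofNat (nat_lit 278201), .ofNat (nat_lit 360628)⟩, ⟨.ofNat (nat_lit 0), .ofNat (nat_lit 0), .ofNat (nat_lit 0), .ofNat (nat_lit 0), .ofNat (nat_lit 0), .ofNat (nat_lit 0), .ofNat (nat_lit 0), .ofNat (nat_lit 0)⟩⟩, [⟨nat_lit 0, nat_lit 100, nat_lit 100, nat_lit 80, nat_lit 93078477⟩]⟩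
noncomputable def p013_l167 : Lf2 := ⟨nat_lit 0, nat_lit 5, [nat_lit 4, nat_lit 5, nat_lit 5, nat_lit 20], true, nat_lit 0, nat_lit 0, nat_lit 0, nat_lit 0, ⟨nat_lit 0, nat_lit 1000, nat_lit 0, nat_lit 6, nat_lit 150, nat_lit 0, nat_lit 0, nat_lit 0, nat_lit 0, nat_lit 0, nat_lit 0, nat_lit 0, nat_lit 0, nat_lit 0, nat_lit 0, nat_lit 5000000, false, false⟩,
 nat_lit 0, nat_lit 10341, nat_lit 0, nat_lit 0, nat_lit 6019, nat_lit 0, nat_lit 521, nat_lit 0, nat_lit 0, nat_lit 0, nat_lit 0, nat_lit 0, nat_lit 0, nat_lit 4565175514809, nat_lit 0, nat_lit 400000, nat_lit 0, nat_lit 0, [(nat_lit 9, [(nat_lit 1, nat_lit 1000)])],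
 ⟨p013_k0, nat_lit 0, nat_lit 0, nat_lit 386, nat_lit 0, nat_lit 507820, [nat_lit 2702720000, nat_lit 2862800001, nat_lit 3030799999], [], [nat_lit 21557995250, nat_lit 20013947199, nat_lit 19395117159, nat_lit 19738798134], nat_lit 1271250, nat_lit 1271250, nat_lit 490000, nat_lit 780000, nat_lit 0, nat_lit 0, [nat_lit 1100000, nat_lit 1442500, nat_lit 1271250], [nat_lit 9, nat_lit 40, nat_lit 20, nat_lit 80, nat_lit 2, nat_lit 238, nat_lit 30, nat_lit 8]⟩, C1.Rw.none,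
 ⟨nat_lit 5700, nat_lit 5917, ⟨.ofNat (nat_lit 328416), .ofNat (nat_lit 406949), .ofNat (nat_lit 339085), .ofNat (nat_lit 417619), .ofNat (nat_lit 333867), .ofNat (nat_lit 410586), .ofNat (nat_lit 344538), .ofNat (nat_lit 421257)⟩, ⟨.ofNat (nat_lit 0), .ofNat (nat_lit 0), .ofNat (nat_lit 0), .ofNat (nat_lit 0), .ofNat (nat_lit 0), .ofNat (nat_lit 0), .ofNat (nat_lit 0), .ofNat (nat_lit 0)⟩⟩, []⟩
noncomputable def p013_l168 : Lf2 := ⟨nat_lit 0, nat_lit 5, [nat_lit 4, nat_lit 5, nat_lit 5, nat_lit 20], false, nat_lit 0, nat_lit 0, nat_lit 0, nat_lit 0, ⟨nat_lit 1000, nat_lit 0, nat_lit 0, nat_lit 0, nat_lit 0, nat_lit 0, nat_lit 0, nat_lit 0, nat_lit 0, nat_lit 0, nat_lit 0, nat_lit 0, nat_lit 0, nat_lit 0, nat_lit 0, nat_lit 0, false, false⟩,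
 nat_lit 0, nat_lit 13781, nat_lit 0, nat_lit 0, nat_lit 8392, nat_lit 7620, nat_lit 1690, nat_lit 0, nat_lit 0, nat_lit 0, nat_lit 0, nat_lit 0, nat_lit 0, nat_lit 1040197801066, nat_lit 0, nat_lit 0, nat_lit 0, nat_lit 0, [],
 ⟨p013_k2, nat_lit 0, nat_lit 0, nat_lit 455, nat_lit 0, nat_lit 667475, [nat_lit 4688000000, nat_lit 6250000000, nat_lit 7968000000], [], [nat_lit 22778626632, nat_lit 20629056028, nat_lit 22565865600, nat_lit 20561486752], nat_lit 1271250, nat_lit 1271250, nat_lit 490000, nat_lit 780000, nat_lit 0, nat_lit 0, [nat_lit 1100000, nat_lit 1442500, nat_lit 1271250], [nat_lit 9, nat_lit 40, nat_lit 20, nat_lit 80, nat_lit 2, nat_lit 238, nat_lit 30, nat_lit 8]⟩, ⟨p013_k0, nat_lit 0, nat_lit 0, nat_lit 127, nat_lit 0, nat_lit 0, [nat_lit 4688000000, nat_lit 6250000000, nat_lit 7968000000], [], [nat_lit 21973719520, nat_lit 23693603600, nat_lit 21767629080, nat_lit 23393232480],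 nat_lit 0, nat_lit 0, nat_lit 0, nat_lit 0, nat_lit 0, nat_lit 0, [], [nat_lit 9, nat_lit 40, nat_lit 20, nat_lit 80, nat_lit 2, nat_lit 238, nat_lit 30, nat_lit 8]⟩,
 zbF0, []⟩
noncomputable def p013_l169 : Lf2 := ⟨nat_lit 0, nat_lit 5, [nat_lit 4, nat_lit 5, nat_lit 5, nat_lit 20], false, nat_lit 0, nat_lit 0, nat_lit 0, nat_lit 0, ⟨nat_lit 1000, nat_lit 0, nat_lit 0, nat_lit 0, nat_lit 0, nat_lit 0, nat_lit 0, nat_lit 0, nat_lit 0, nat_lit 0, nat_lit 0, nat_lit 0, nat_lit 0, nat_lit 0, nat_lit 0, nat_lit 0, false, false⟩,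
 nat_lit 0, nat_lit 9906, nat_lit 0, nat_lit 0, nat_lit 5766, nat_lit 7790, nat_lit 1599, nat_lit 0, nat_lit 0, nat_lit 0, nat_lit 0, nat_lit 0, nat_lit 0, nat_lit 0, nat_lit 0, nat_lit 0, nat_lit 0, nat_lit 0, [],
 ⟨p013_k0, nat_lit 0, nat_lit 0, nat_lit 456, nat_lit 0, nat_lit 711570, [nat_lit 4688000000, nat_lit 6250000000, nat_lit 7968000000], [], [nat_lit 35351598257, nat_lit 32872625738, nat_lit 45865716333, nat_lit 43254825405], nat_lit 1271250, nat_lit 1271250, nat_lit 780000, nat_lit 3072500, nat_lit 0, nat_lit 0, [nat_lit 1100000, nat_lit 1442500, nat_lit 1271250], [nat_lit 9, nat_lit 40, nat_lit 20, nat_lit 80, nat_lit 2, nat_lit 317, nat_lit 100, nat_lit 10]⟩, ⟨p013_k0, nat_lit 0, nat_lit 0, nat_lit 193, nat_lit 0, nat_lit 0, [nat_lit 4688000000, nat_lit 6250000000, nat_lit 7968000000], [], [nat_lit 21551819860, nat_lit 23199212160, nat_lit 39603451800, nat_lit 40402350640], nat_lit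 0, nat_lit 0, nat_lit 0, nat_lit 0, nat_lit 0, nat_lit 0, [], [nat_lit 9, nat_lit 40, nat_lit 20, nat_lit 80, nat_lit 2, nat_lit 317, nat_lit 100, nat_lit 10]⟩,
 zbF0, []⟩
noncomputable def p013_l170 : Lf2 := ⟨nat_lit 0, nat_lit 5, [nat_lit 4, nat_lit 5, nat_lit 5, nat_lit 20], false, nat_lit 0, nat_lit 0, nat_lit 0, nat_lit 0, ⟨nat_lit 31, nat_lit 969, nat_lit 0, nat_lit 6, nat_lit 182, nat_lit 0, nat_lit 0, nat_lit 0, nat_lit 0, nat_lit 0, nat_lit 0, nat_lit 0, nat_lit 0, nat_lit 0, nat_lit 0, nat_lit 5000000, false, false⟩,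
 nat_lit 10035, nat_lit 0, nat_lit 0, nat_lit 0, nat_lit 5841, nat_lit 420, nat_lit 70, nat_lit 0, nat_lit 0, nat_lit 0, nat_lit 0, nat_lit 0, nat_lit 0, nat_lit 27182084502914, nat_lit 0, nat_lit 387600, nat_lit 0, nat_lit 0, [(nat_lit 9, [(nat_lit 1, nat_lit 969)])],
 ⟨p013_k0, nat_lit 0, nat_lit 0, nat_lit 362, nat_lit 0, nat_lit 366716, [nat_lit 2764263681, nat_lit 2967803200, nat_lit 3182644200], [], [nat_lit 28585764239, nat_lit 25539285551, nat_lit 28587743831, nat_lit 25835429585], nat_lit 1271250, nat_lit 1271250, nat_lit 205650, nat_lit 1715250, nat_lit 0, nat_lit 0, [nat_lit 1100000, nat_lit 1442500, nat_lit 1271250], [nat_lit 9, nat_lit 40, nat_lit 20, nat_lit 80, nat_lit 2, nat_lit 272, nat_lit 60, nat_lit 9]⟩, ⟨p013_k0, nat_lit 0, nat_lit 0, nat_lit 362, nat_lit 0, nat_lit 366716, [nat_lit 145328000, nat_lit 193750000, nat_lit 247008000], [], [nat_lit 1077049892, nat_lit 914289826,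 nat_lit 909059372, nat_lit 869263288], nat_lit 1271250, nat_lit 1271250, nat_lit 205650, nat_lit 1715250, nat_lit 0, nat_lit 0, [nat_lit 1100000, nat_lit 1442500, nat_lit 1271250], [nat_lit 9, nat_lit 40, nat_lit 20, nat_lit 80, nat_lit 2, nat_lit 272, nat_lit 60, nat_lit 9]⟩,
 ⟨nat_lit 5477, nat_lit 5917, ⟨.ofNat (nat_lit 242029), .ofNat (nat_lit 642507), .ofNat (nat_lit 263368), .ofNat (nat_lit 663838), .ofNat (nat_lit 256844), .ofNat (nat_lit 638960), .ofNat (nat_lit 278201), .ofNat (nat_lit 660309)⟩, ⟨.ofNat (nat_lit 0), .ofNat (nat_lit 0), .ofNat (nat_lit 0), .ofNat (nat_lit 0), .ofNat (nat_lit 0), .ofNat (nat_lit 0), .ofNat (nat_lit 0), .ofNat (nat_lit 0)⟩⟩, []⟩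
noncomputable def p013_l171 : Lf2 := ⟨nat_lit 0, nat_lit 5, [nat_lit 4, nat_lit 5, nat_lit 5, nat_lit 20], false, nat_lit 0, nat_lit 0, nat_lit 0, nat_lit 0, ⟨nat_lit 1000, nat_lit 0, nat_lit 0, nat_lit 0, nat_lit 0, nat_lit 0, nat_lit 0, nat_lit 0, nat_lit 0, nat_lit 0, nat_lit 0, nat_lit 0, nat_lit 0, nat_lit 0, nat_lit 0, nat_lit 0, false, false⟩,
 nat_lit 8804, nat_lit 0, nat_lit 5211, nat_lit 0, nat_lit 5124, nat_lit 8157, nat_lit 0, nat_lit 0, nat_lit 0, nat_lit 0, nat_lit 0, nat_lit 0, nat_lit 0, nat_lit 0, nat_lit 0, nat_lit 0, nat_lit 0, nat_lit 0, [],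
 ⟨p013_k0, nat_lit 0, nat_lit 0, nat_lit 324, nat_lit 0, nat_lit 366716, [nat_lit 4688000000, nat_lit 6250000000, nat_lit 7968000000], [], [nat_lit 38992378872, nat_lit 39615113104, nat_lit 44794274864, nat_lit 45166758336], nat_lit 1271250, nat_lit 1271250, nat_lit 1271250, nat_lit 1271250, nat_lit 0, nat_lit 0, [nat_lit 1100000, nat_lit 1442500, nat_lit 1271250], [nat_lit 9, nat_lit 40, nat_lit 20, nat_lit 80, nat_lit 2, nat_lit 203, nat_lit 0, nat_lit 6]⟩, ⟨p013_k0, nat_lit 0, nat_lit 0, nat_lit 324, nat_lit 0, nat_lit 366716, [nat_lit 4688000000, nat_lit 6250000000, nat_lit 7968000000], [], [nat_lit 30772482914, nat_lit 31834958952, nat_lit 40839356660, nat_lit 41366183484], nat_lit 1271250, nat_lit 1271250, nat_lit 1271250, nat_lit 1271250, nat_lit 0, nat_lit 0, [nat_lit 1100000, nat_lit 1442500, nat_lit 1271250], [nat_lit 9, nat_lit 40, nat_lit 20, nat_lit 80, nat_lit 2, nat_lit 203,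 nat_lit 0, nat_lit 6]⟩,
 zbF0, [⟨nat_lit 13, nat_lit 96, nat_lit 11, nat_lit 100, nat_lit 16218135⟩]⟩
noncomputable def b_NL_650_650_0_4 : St := ⟨false, nat_lit 2, nat_lit 2, nat_lit 0, nat_lit 20, nat_lit 260, nat_lit 280, nat_lit 260, nat_lit 280, nat_lit 36, nat_lit 400, nat_lit 0, nat_lit 0, nat_lit 0, nat_lit 0, nat_lit 0, nat_lit 0, nat_lit 40, nat_lit 80, nat_lit 0, nat_lit 0, nat_lit 0, nat_lit 0⟩
theorem d_NL_650_650_0_4 (h : EB TB.env) : Dead b_NL_650_650_0_4 := chkB_sound0 h (T :=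
(.st (nat_lit 0)
(.gv
(.st (nat_lit 1)
(.leaf p013_l155)
(.spl (nat_lit 2) (nat_lit 240)
(.leaf p013_l156)
(.leaf p013_l157)))
(.leaf p013_l158))
(.gv
(.st (nat_lit 1)
(.spl (nat_lit 2) (nat_lit 120)
(.spl (nat_lit 2) (nat_lit 80)
(.leaf p013_l159)
(.spl (nat_lit 0) (nat_lit 270)
(.ord (.leaf p013_l160))
(.leaf p013_l161)))
(.leaf p013_l162))
(.spl (nat_lit 2) (nat_lit 240)
(.spl (nat_lit 2) (nat_lit 120)
(.leaf p013_l163)
(.leaf p013_l164))
(.leaf p013_l165)))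
(.st (nat_lit 1)
(.spl (nat_lit 2) (nat_lit 120)
(.spl (nat_lit 2) (nat_lit 80)
(.leaf p013_l166)
(.spl (nat_lit 0) (nat_lit 270)
(.ord (.leaf p013_l167))
(.leaf p013_l168)))
(.leaf p013_l169))
(.spl (nat_lit 2) (nat_lit 240)
(.leaf p013_l170)
(.leaf p013_l171)))))) (by decide +kernel)
noncomputable def p013_l172 : Lf2 := ⟨nat_lit 0, nat_lit 10, [nat_lit 0, nat_lit 5, nat_lit 5, nat_lit 20], true, nat_lit 0, nat_lit 0, nat_lit 0, nat_lit 0, ⟨nat_lit 0, nat_lit 0, nat_lit 1000, nat_lit 4, nat_lit 107, nat_lit 0, nat_lit 0, nat_lit 0, nat_lit 0, nat_lit 215, nat_lit 106667, nat_lit 295, nat_lit 62518302, nat_lit 0, nat_lit 0, nat_lit 1227603, false, false⟩,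
 nat_lit 0, nat_lit 0, nat_lit 0, nat_lit 0, nat_lit 3399, nat_lit 0, nat_lit 0, nat_lit 0, nat_lit 0, nat_lit 0, nat_lit 0, nat_lit 0, nat_lit 0, nat_lit 0, nat_lit 118, nat_lit 562000, nat_lit 0, nat_lit 0, [(nat_lit 12, [(nat_lit 5, nat_lit 730), (nat_lit 6, nat_lit 270)]), (nat_lit 15, [(nat_lit 5, nat_lit 730), (nat_lit 6, nat_lit 270)])],
 ⟨p013_k40, nat_lit 0, nat_lit 0, nat_lit 307, nat_lit 0, nat_lit 0, [nat_lit 2969988000, nat_lit 254676000], [], [nat_lit 16822508791, nat_lit 19856608651, nat_lit 16754825992, nat_lit 18723944976], nat_lit 0, nat_lit 0, nat_lit 0, nat_lit 0, nat_lit 0, nat_lit 0, [], [nat_lit 82, nat_lit 40, nat_lit 80, nat_lit 80, nat_lit 63, nat_lit 249, nat_lit 40, nat_lit 8]⟩, C1.Rw.none,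
 ⟨nat_lit 4472, nat_lit 5478, ⟨.ofNat (nat_lit 90113), .ofNat (nat_lit 382351), .ofNat (nat_lit 132827), .ofNat (nat_lit 425065), .ofNat (nat_lit 123773), .ofNat (nat_lit 388887), .ofNat (nat_lit 166906), .ofNat (nat_lit 432020)⟩, ⟨.ofNat (nat_lit 0), .ofNat (nat_lit 0), .ofNat (nat_lit 0), .ofNat (nat_lit 0), .ofNat (nat_lit 0), .ofNat (nat_lit 0), .ofNat (nat_lit 0), .ofNat (nat_lit 0)⟩⟩, [⟨nat_lit 0, nat_lit 100, nat_lit 87, nat_lit 41, nat_lit 106930239⟩]⟩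
noncomputable def p013_l173 : Lf2 := ⟨nat_lit 0, nat_lit 10, [nat_lit 0, nat_lit 5, nat_lit 5, nat_lit 20], false, nat_lit 0, nat_lit 0, nat_lit 0, nat_lit 0, ⟨nat_lit 1000, nat_lit 0, nat_lit 0, nat_lit 0, nat_lit 0, nat_lit 0, nat_lit 0, nat_lit 0, nat_lit 0, nat_lit 0, nat_lit 0, nat_lit 0, nat_lit 0, nat_lit 0, nat_lit 0, nat_lit 0, false, false⟩,
 nat_lit 0, nat_lit 0, nat_lit 0, nat_lit 0, nat_lit 5824, nat_lit 10361, nat_lit 0, nat_lit 0, nat_lit 0, nat_lit 0, nat_lit 0, nat_lit 0, nat_lit 0, nat_lit 0, nat_lit 0, nat_lit 0, nat_lit 0, nat_lit 0, [],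
 ⟨p013_k40, nat_lit 0, nat_lit 0, nat_lit 196, nat_lit 0, nat_lit 0, [nat_lit 3282000000, nat_lit 9842000000], [], [nat_lit 28749803392, nat_lit 31892857824, nat_lit 40402432896, nat_lit 42083380781], nat_lit 0, nat_lit 0, nat_lit 0, nat_lit 0, nat_lit 0, nat_lit 0, [], [nat_lit 82, nat_lit 40, nat_lit 80, nat_lit 80, nat_lit 63, nat_lit 317, nat_lit 100, nat_lit 9]⟩, ⟨p013_k41, nat_lit 0, nat_lit 0, nat_lit 289, nat_lit 0, nat_lit 0, [nat_lit 7968000000, nat_lit 14058000000], [], [nat_lit 38892402832, nat_lit 39432631268, nat_lit 52618471825, nat_lit 52259519778], nat_lit 0, nat_lit 0, nat_lit 0, nat_lit 0, nat_lit 0, nat_lit 0, [], [nat_lit 121, nat_lit 40, nat_lit 80, nat_lit 80, nat_lit 28, nat_lit 373, nat_lit 150, nat_lit 9]⟩,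
 zbF0, []⟩
noncomputable def p013_l174 : Lf2 := ⟨nat_lit 0, nat_lit 10, [nat_lit 0, nat_lit 5, nat_lit 5, nat_lit 20], true, nat_lit 0, nat_lit 0, nat_lit 0, nat_lit 0, ⟨nat_lit 0, nat_lit 0, nat_lit 1000, nat_lit 4, nat_lit 107, nat_lit 0, nat_lit 0, nat_lit 0, nat_lit 0, nat_lit 215, nat_lit 106667, nat_lit 295, nat_lit 62518302, nat_lit 0, nat_lit 0, nat_lit 1227603, false, false⟩,
 nat_lit 0, nat_lit 0, nat_lit 0, nat_lit 0, nat_lit 2952, nat_lit 0, nat_lit 0, nat_lit 0, nat_lit 0, nat_lit 0, nat_lit 0, nat_lit 0, nat_lit 0, nat_lit 0, nat_lit 174, nat_lit 854800, nat_lit 0, nat_lit 0, [(nat_lit 12, [(nat_lit 5, nat_lit 242), (nat_lit 6, nat_lit 758)]), (nat_lit 15, [(nat_lit 5, nat_lit 242), (nat_lit 6, nat_lit 758)])],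
 ⟨p013_k42, nat_lit 0, nat_lit 0, nat_lit 312, nat_lit 0, nat_lit 0, [nat_lit 3149118401, nat_lit 3120425920, nat_lit 348330400], [], [nat_lit 14771781522, nat_lit 18553930050, nat_lit 15683555201, nat_lit 17886435681], nat_lit 0, nat_lit 0, nat_lit 0, nat_lit 0, nat_lit 0, nat_lit 0, [], [nat_lit 42, nat_lit 40, nat_lit 80, nat_lit 80, nat_lit 13, nat_lit 249, nat_lit 40, nat_lit 8]⟩, C1.Rw.none,
 ⟨nat_lit 4472, nat_lit 5478, ⟨.ofNat (nat_lit 90113), .ofNat (nat_lit 382351), .ofNat (nat_lit 132827), .ofNat (nat_lit 425065), .ofNat (nat_lit 123773), .ofNat (nat_lit 388887), .ofNat (nat_lit 166906), .ofNat (nat_lit 432020)⟩, ⟨.ofNat (nat_lit 0), .ofNat (nat_lit 0), .ofNat (nat_lit 0), .ofNat (nat_lit 0), .ofNat (nat_lit 0), .ofNat (nat_lit 0), .ofNat (nat_lit 0), .ofNat (nat_lit 0)⟩⟩, [⟨nat_lit 0, nat_lit 100, nat_lit 87, nat_lit 41, nat_lit 70909155⟩]⟩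
noncomputable def p013_l175 : Lf2 := ⟨nat_lit 0, nat_lit 10, [nat_lit 0, nat_lit 5, nat_lit 5, nat_lit 20], true, nat_lit 0, nat_lit 0, nat_lit 0, nat_lit 0, ⟨nat_lit 0, nat_lit 0, nat_lit 1000, nat_lit 4, nat_lit 191, nat_lit 0, nat_lit 0, nat_lit 0, nat_lit 0, nat_lit 215, nat_lit 5017, nat_lit 222, nat_lit 54516379, nat_lit 0, nat_lit 0, nat_lit 2404232, false, true⟩,
 nat_lit 0, nat_lit 0, nat_lit 0, nat_lit 0, nat_lit 3605, nat_lit 0, nat_lit 0, nat_lit 0, nat_lit 0, nat_lit 0, nat_lit 0, nat_lit 0, nat_lit 0, nat_lit 0, nat_lit 123, nat_lit 589600, nat_lit 0, nat_lit 0, [(nat_lit 12, [(nat_lit 5, nat_lit 684), (nat_lit 6, nat_lit 316)]), (nat_lit 15, [(nat_lit 5, nat_lit 684), (nat_lit 6, nat_lit 316)])],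
 ⟨p013_k40, nat_lit 0, nat_lit 0, nat_lit 163, nat_lit 0, nat_lit 0, [nat_lit 3070670400, nat_lit 255700800], [], [nat_lit 15738690420, nat_lit 18044022780, nat_lit 18113850100, nat_lit 20876330400], nat_lit 0, nat_lit 0, nat_lit 0, nat_lit 0, nat_lit 0, nat_lit 0, [], [nat_lit 82, nat_lit 40, nat_lit 80, nat_lit 80, nat_lit 63, nat_lit 272, nat_lit 60, nat_lit 8]⟩, C1.Rw.none,
 ⟨nat_lit 4472, nat_lit 5478, ⟨.ofNat (nat_lit 382351), .ofNat (nat_lit 532217), .ofNat (nat_lit 425065), .ofNat (nat_lit 574895), .ofNat (nat_lit 388887), .ofNat (nat_lit 524844), .ofNat (nat_lit 432020), .ofNat (nat_lit 567940)⟩, ⟨.ofNat (nat_lit 0), .ofNat (nat_lit 0), .ofNat (nat_lit 0), .ofNat (nat_lit 0), .ofNat (nat_lit 0), .ofNat (nat_lit 0), .ofNat (nat_lit 0), .ofNat (nat_lit 0)⟩⟩, []⟩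
noncomputable def p013_l176 : Lf2 := ⟨nat_lit 0, nat_lit 10, [nat_lit 0, nat_lit 5, nat_lit 5, nat_lit 20], true, nat_lit 0, nat_lit 0, nat_lit 0, nat_lit 0, ⟨nat_lit 0, nat_lit 0, nat_lit 1000, nat_lit 6, nat_lit 249, nat_lit 0, nat_lit 0, nat_lit 0, nat_lit 0, nat_lit 215, nat_lit 178124, nat_lit 200, nat_lit 48335743, nat_lit 0, nat_lit 0, nat_lit 2957992, false, true⟩,
 nat_lit 0, nat_lit 0, nat_lit 0, nat_lit 0, nat_lit 3108, nat_lit 0, nat_lit 0, nat_lit 0, nat_lit 0, nat_lit 0, nat_lit 0, nat_lit 0, nat_lit 0, nat_lit 0, nat_lit 95, nat_lit 444400, nat_lit 0, nat_lit 0, [(nat_lit 12, [(nat_lit 5, nat_lit 926), (nat_lit 6, nat_lit 74)]), (nat_lit 15, [(nat_lit 5, nat_lit 926), (nat_lit 6, nat_lit 74)])],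
 ⟨p013_k40, nat_lit 0, nat_lit 0, nat_lit 178, nat_lit 0, nat_lit 0, [nat_lit 2520645600, nat_lit 202831200], [], [nat_lit 19051870560, nat_lit 20886740992, nat_lit 22253965856, nat_lit 24633646288], nat_lit 0, nat_lit 0, nat_lit 0, nat_lit 0, nat_lit 0, nat_lit 0, [], [nat_lit 82, nat_lit 40, nat_lit 80, nat_lit 80, nat_lit 63, nat_lit 317, nat_lit 100, nat_lit 9]⟩, C1.Rw.none,
 ⟨nat_lit 4472, nat_lit 5478, ⟨.ofNat (nat_lit 532217), .ofNat (nat_lit 682039), .ofNat (nat_lit 574895), .ofNat (nat_lit 724687), .ofNat (nat_lit 524844), .ofNat (nat_lit 660755), .ofNat (nat_lit 567940), .ofNat (nat_lit 703822)⟩, ⟨.ofNat (nat_lit 0), .ofNat (nat_lit 0), .ofNat (nat_lit 0), .ofNat (nat_lit 0), .ofNat (nat_lit 0), .ofNat (nat_lit 0), .ofNat (nat_lit 0), .ofNat (nat_lit 0)⟩⟩, []⟩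
noncomputable def p013_l177 : Lf2 := ⟨nat_lit 0, nat_lit 10, [nat_lit 0, nat_lit 5, nat_lit 5, nat_lit 20], true, nat_lit 0, nat_lit 0, nat_lit 0, nat_lit 0, ⟨nat_lit 0, nat_lit 1000, nat_lit 0, nat_lit 8, nat_lit 300, nat_lit 0, nat_lit 0, nat_lit 0, nat_lit 0, nat_lit 0, nat_lit 0, nat_lit 0, nat_lit 42881631, nat_lit 24118369, nat_lit 0, nat_lit 3267020, true, true⟩,
 nat_lit 0, nat_lit 0, nat_lit 0, nat_lit 0, nat_lit 3475, nat_lit 0, nat_lit 225, nat_lit 0, nat_lit 0, nat_lit 0, nat_lit 0, nat_lit 0, nat_lit 0, nat_lit 0, nat_lit 0, nat_lit 400000, nat_lit 0, nat_lit 0, [(nat_lit 12, [(nat_lit 1, nat_lit 1000)]), (nat_lit 15, [(nat_lit 1, nat_lit 1000)])],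
 ⟨p013_k43, nat_lit 0, nat_lit 0, nat_lit 214, nat_lit 0, nat_lit 0, [nat_lit 2068400000, nat_lit 2721200001, nat_lit 2642799999], [], [nat_lit 26403196324, nat_lit 27997459124, nat_lit 29573367604, nat_lit 31010711044], nat_lit 0, nat_lit 0, nat_lit 0, nat_lit 0, nat_lit 0, nat_lit 0, [], [nat_lit 8, nat_lit 40, nat_lit 80, nat_lit 80, nat_lit 1, nat_lit 203, nat_lit 0, nat_lit 5]⟩, C1.Rw.none,
 ⟨nat_lit 4472, nat_lit 5478, ⟨.ofNat (nat_lit 682039), .ofNat (nat_lit 801872), .ofNat (nat_lit 724687), .ofNat (nat_lit 844520), .ofNat (nat_lit 660755), .ofNat (nat_lit 769461), .ofNat (nat_lit 703822), .ofNat (nat_lit 812527)⟩, ⟨.ofNat (nat_lit 0), .ofNat (nat_lit 0), .ofNat (nat_lit 0), .ofNat (nat_lit 0), .ofNat (nat_lit 0), .ofNat (nat_lit 0), .ofNat (nat_lit 0), .ofNat (nat_lit 0)⟩⟩, [⟨nat_lit 13, nat_lit 92, nat_lit 40, nat_lit 100, nat_lit 178897494⟩]⟩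
noncomputable def p013_l178 : Lf2 := ⟨nat_lit 0, nat_lit 10, [nat_lit 0, nat_lit 5, nat_lit 5, nat_lit 20], true, nat_lit 0, nat_lit 0, nat_lit 0, nat_lit 0, ⟨nat_lit 0, nat_lit 1000, nat_lit 0, nat_lit 4, nat_lit 187, nat_lit 0, nat_lit 0, nat_lit 0, nat_lit 0, nat_lit 0, nat_lit 0, nat_lit 0, nat_lit 0, nat_lit 0, nat_lit 0, nat_lit 5000000, false, true⟩,
 nat_lit 0, nat_lit 0, nat_lit 0, nat_lit 0, nat_lit 3964, nat_lit 0, nat_lit 0, nat_lit 0, nat_lit 0, nat_lit 0, nat_lit 0, nat_lit 0, nat_lit 0, nat_lit 0, nat_lit 0, nat_lit 920800, nat_lit 0, nat_lit 0, [(nat_lit 12, [(nat_lit 1, nat_lit 132), (nat_lit 2, nat_lit 868)]), (nat_lit 15, [(nat_lit 1, nat_lit 132), (nat_lit 2, nat_lit 868)])],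
 ⟨p013_k42, nat_lit 0, nat_lit 0, nat_lit 312, nat_lit 0, nat_lit 0, [nat_lit 1998298080, nat_lit 2626444800, nat_lit 92812800], [], [nat_lit 21640689908, nat_lit 23979480467, nat_lit 29059151130, nat_lit 31164938608], nat_lit 0, nat_lit 0, nat_lit 0, nat_lit 0, nat_lit 0, nat_lit 0, [], [nat_lit 42, nat_lit 40, nat_lit 80, nat_lit 80, nat_lit 13, nat_lit 317, nat_lit 100, nat_lit 10]⟩, C1.Rw.none,
 ⟨nat_lit 4472, nat_lit 5478, ⟨.ofNat (nat_lit 90113), .ofNat (nat_lit 801872), .ofNat (nat_lit 132827), .ofNat (nat_lit 844520), .ofNat (nat_lit 123773), .ofNat (nat_lit 769461), .ofNat (nat_lit 166906), .ofNat (nat_lit 812527)⟩, ⟨.ofNat (nat_lit 0), .ofNat (nat_lit 0), .ofNat (nat_lit 0), .ofNat (nat_lit 0), .ofNat (nat_lit 0), .ofNat (nat_lit 0), .ofNat (nat_lit 0), .ofNat (nat_lit 0)⟩⟩, [⟨nat_lit 13, nat_lit 92, nat_lit 40, nat_lit 100, nat_lit 158686450⟩]⟩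
noncomputable def b_N_700_400_0_0 : St := ⟨false, nat_lit 0, nat_lit 2, nat_lit 0, nat_lit 40, nat_lit 280, nat_lit 320, nat_lit 160, nat_lit 200, nat_lit 4, nat_lit 384, nat_lit 0, nat_lit 0, nat_lit 0, nat_lit 0, nat_lit 0, nat_lit 0, nat_lit 0, nat_lit 40, nat_lit 0, nat_lit 0, nat_lit 0, nat_lit 0⟩
theorem d_N_700_400_0_0 (h : EB TB.env) : Dead b_N_700_400_0_0 := chkB_sound0 h (T :=
(.gv
(.st (nat_lit 1)
(.spl (nat_lit 2) (nat_lit 160)
(.leaf p013_l172)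
(.leaf p013_l173))
(.spl (nat_lit 2) (nat_lit 160)
(.leaf p013_l174)
(.spl (nat_lit 2) (nat_lit 240)
(.leaf p013_l175)
(.spl (nat_lit 2) (nat_lit 320)
(.leaf p013_l176)
(.leaf p013_l177)))))
(.leaf p013_l178))) (by decide +kernel)
noncomputable def p013_l179 : Lf2 := ⟨nat_lit 0, nat_lit 10, [nat_lit 0, nat_lit 5, nat_lit 5, nat_lit 20], true, nat_lit 0, nat_lit 0, nat_lit 0, nat_lit 0, ⟨nat_lit 0, nat_lit 0, nat_lit 1000, nat_lit 4, nat_lit 64, nat_lit 0, nat_lit 0, nat_lit 0, nat_lit 0, nat_lit 215, nat_lit 38400, nat_lit 263, nat_lit 65316191, nat_lit 0, nat_lit 0, nat_lit 586906, false, false⟩,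
 nat_lit 0, nat_lit 5007, nat_lit 0, nat_lit 0, nat_lit 3186, nat_lit 0, nat_lit 0, nat_lit 0, nat_lit 0, nat_lit 0, nat_lit 0, nat_lit 0, nat_lit 0, nat_lit 0, nat_lit 199, nat_lit 982000, nat_lit 0, nat_lit 0, [(nat_lit 12, [(nat_lit 5, nat_lit 30), (nat_lit 6, nat_lit 970)]), (nat_lit 15, [(nat_lit 5, nat_lit 30), (nat_lit 6, nat_lit 970)])],
 ⟨p013_k42, nat_lit 0, nat_lit 0, nat_lit 592, nat_lit 0, nat_lit 611111, [nat_lit 3378056000, nat_lit 3520052800, nat_lit 407836000], [], [nat_lit 17421095006, nat_lit 19237990962, nat_lit 18040242364, nat_lit 19051303188], nat_lit 1271250, nat_lit 1271250, nat_lit 21650, nat_lit 230001, nat_lit 0, nat_lit 0, [nat_lit 780000, nat_lit 1100000, nat_lit 2127500], [nat_lit 42, nat_lit 40, nat_lit 80, nat_lit 80, nat_lit 13, nat_lit 215, nat_lit 10, nat_lit 7]⟩, C1.Rw.none,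
 ⟨nat_lit 4472, nat_lit 5478, ⟨.ofNat (nat_lit 90113), .ofNat (nat_lit 157552), .ofNat (nat_lit 132827), .ofNat (nat_lit 200266), .ofNat (nat_lit 123773), .ofNat (nat_lit 184953), .ofNat (nat_lit 166906), .ofNat (nat_lit 228086)⟩, ⟨.ofNat (nat_lit 0), .ofNat (nat_lit 0), .ofNat (nat_lit 0), .ofNat (nat_lit 0), .ofNat (nat_lit 0), .ofNat (nat_lit 0), .ofNat (nat_lit 0), .ofNat (nat_lit 0)⟩⟩, [⟨nat_lit 0, nat_lit 100, nat_lit 87, nat_lit 41, nat_lit 107892106⟩]⟩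
noncomputable def p013_l180 : Lf2 := ⟨nat_lit 0, nat_lit 10, [nat_lit 0, nat_lit 5, nat_lit 5, nat_lit 20], true, nat_lit 0, nat_lit 0, nat_lit 0, nat_lit 0, ⟨nat_lit 0, nat_lit 0, nat_lit 1000, nat_lit 4, nat_lit 91, nat_lit 0, nat_lit 0, nat_lit 0, nat_lit 0, nat_lit 215, nat_lit 79350, nat_lit 284, nat_lit 63676970, nat_lit 0, nat_lit 0, nat_lit 986632, false, false⟩,
 nat_lit 0, nat_lit 5401, nat_lit 0, nat_lit 0, nat_lit 3437, nat_lit 0, nat_lit 0, nat_lit 0, nat_lit 0, nat_lit 0, nat_lit 0, nat_lit 0, nat_lit 0, nat_lit 0, nat_lit 178, nat_lit 874600, nat_lit 0, nat_lit 0, [(nat_lit 12, [(nat_lit 5, nat_lit 209), (nat_lit 6, nat_lit 791)]), (nat_lit 15, [(nat_lit 5, nat_lit 209), (nat_lit 6, nat_lit 791)])],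
 ⟨p013_k42, nat_lit 0, nat_lit 0, nat_lit 569, nat_lit 0, nat_lit 611111, [nat_lit 3186056800, nat_lit 3184367840, nat_lit 360630800], [], [nat_lit 18008611522, nat_lit 18422073822, nat_lit 16113975508, nat_lit 17235408596], nat_lit 1271250, nat_lit 1271250, nat_lit 230001, nat_lit 490000, nat_lit 0, nat_lit 0, [nat_lit 780000, nat_lit 1100000, nat_lit 2127500], [nat_lit 42, nat_lit 40, nat_lit 80, nat_lit 80, nat_lit 13, nat_lit 226, nat_lit 20, nat_lit 7]⟩, C1.Rw.none,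
 ⟨nat_lit 4472, nat_lit 5478, ⟨.ofNat (nat_lit 157552), .ofNat (nat_lit 232485), .ofNat (nat_lit 200266), .ofNat (nat_lit 275199), .ofNat (nat_lit 184953), .ofNat (nat_lit 252931), .ofNat (nat_lit 228086), .ofNat (nat_lit 296064)⟩, ⟨.ofNat (nat_lit 0), .ofNat (nat_lit 0), .ofNat (nat_lit 0), .ofNat (nat_lit 0), .ofNat (nat_lit 0), .ofNat (nat_lit 0), .ofNat (nat_lit 0), .ofNat (nat_lit 0)⟩⟩, []⟩
noncomputable def p013_l181 : Lf2 := ⟨nat_lit 0, nat_lit 10, [nat_lit 0, nat_lit 5, nat_lit 5, nat_lit 20], true, nat_lit 0, nat_lit 0, nat_lit 0, nat_lit 0, ⟨nat_lit 0, nat_lit 0, nat_lit 1000, nat_lit 4, nat_lit 117, nat_lit 0, nat_lit 0, nat_lit 0, nat_lit 0, nat_lit 215, nat_lit 129067, nat_lit 303, nat_lit 61686319, nat_lit 0, nat_lit 0, nat_lit 1385384, false, false⟩,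
 nat_lit 0, nat_lit 6013, nat_lit 0, nat_lit 0, nat_lit 3826, nat_lit 0, nat_lit 169, nat_lit 0, nat_lit 0, nat_lit 0, nat_lit 0, nat_lit 0, nat_lit 0, nat_lit 0, nat_lit 208, nat_lit 1000000, nat_lit 0, nat_lit 0, [(nat_lit 12, [(nat_lit 6, nat_lit 1000)])],
 ⟨p013_k42, nat_lit 0, nat_lit 0, nat_lit 589, nat_lit 0, nat_lit 758175, [nat_lit 3405600001, nat_lit 3733000000, nat_lit 431200000], [], [nat_lit 15088407592, nat_lit 14534227853, nat_lit 15822926246, nat_lit 15005127349], nat_lit 1271250, nat_lit 1271250, nat_lit 490000, nat_lit 780000, nat_lit 0, nat_lit 0, [nat_lit 780000, nat_lit 1100000, nat_lit 2127500], [nat_lit 42, nat_lit 40, nat_lit 80, nat_lit 80, nat_lit 13, nat_lit 238, nat_lit 30, nat_lit 7]⟩, C1.Rw.none,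
 ⟨nat_lit 5244, nat_lit 5478, ⟨.ofNat (nat_lit 232485), .ofNat (nat_lit 307418), .ofNat (nat_lit 275199), .ofNat (nat_lit 350132), .ofNat (nat_lit 237714), .ofNat (nat_lit 310885), .ofNat (nat_lit 280485), .ofNat (nat_lit 353656)⟩, ⟨.ofNat (nat_lit 0), .ofNat (nat_lit 0), .ofNat (nat_lit 0), .ofNat (nat_lit 0), .ofNat (nat_lit 0), .ofNat (nat_lit 0), .ofNat (nat_lit 0), .ofNat (nat_lit 0)⟩⟩, []⟩
noncomputable def p013_l182 : Lf2 := ⟨nat_lit 0, nat_lit 10, [nat_lit 0, nat_lit 5, nat_lit 5, nat_lit 20], true, nat_lit 0, nat_lit 0, nat_lit 0, nat_lit 0, ⟨nat_lit 0, nat_lit 0, nat_lit 1000, nat_lit 4, nat_lit 147, nat_lit 0, nat_lit 0, nat_lit 0, nat_lit 0, nat_lit 215, nat_lit 201667, nat_lit 325, nat_lit 59026048, nat_lit 0, nat_lit 0, nat_lit 1824779, false, false⟩,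
 nat_lit 0, nat_lit 5988, nat_lit 0, nat_lit 0, nat_lit 3810, nat_lit 0, nat_lit 158, nat_lit 0, nat_lit 0, nat_lit 0, nat_lit 0, nat_lit 0, nat_lit 0, nat_lit 0, nat_lit 208, nat_lit 1000000, nat_lit 0, nat_lit 0, [(nat_lit 12, [(nat_lit 6, nat_lit 1000)])],
 ⟨p013_k42, nat_lit 0, nat_lit 0, nat_lit 575, nat_lit 0, nat_lit 758175, [nat_lit 3405600001, nat_lit 3733000000, nat_lit 431200000], [], [nat_lit 15647180661, nat_lit 15061655381, nat_lit 16385684392, nat_lit 15534006141], nat_lit 1271250, nat_lit 1271250, nat_lit 780000, nat_lit 1100001, nat_lit 0, nat_lit 0, [nat_lit 780000, nat_lit 1100000, nat_lit 2127500], [nat_lit 42, nat_lit 40, nat_lit 80, nat_lit 80, nat_lit 13, nat_lit 249, nat_lit 40, nat_lit 7]⟩, C1.Rw.none,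
 ⟨nat_lit 5244, nat_lit 5478, ⟨.ofNat (nat_lit 307418), .ofNat (nat_lit 382351), .ofNat (nat_lit 350132), .ofNat (nat_lit 425065), .ofNat (nat_lit 310885), .ofNat (nat_lit 384056), .ofNat (nat_lit 353656), .ofNat (nat_lit 426827)⟩, ⟨.ofNat (nat_lit 0), .ofNat (nat_lit 0), .ofNat (nat_lit 0), .ofNat (nat_lit 0), .ofNat (nat_lit 0), .ofNat (nat_lit 0), .ofNat (nat_lit 0), .ofNat (nat_lit 0)⟩⟩, []⟩
noncomputable def p013_l183 : Lf2 := ⟨nat_lit 0, nat_lit 10, [nat_lit 0, nat_lit 5, nat_lit 5, nat_lit 20], false, nat_lit 0, nat_lit 0, nat_lit 0, nat_lit 0, ⟨nat_lit 239, nat_lit 0, nat_lit 761, nat_lit 4, nat_lit 134, nat_lit 0, nat_lit 0, nat_lit 0, nat_lit 0, nat_lit 215, nat_lit 166667, nat_lit 315, nat_lit 60276164, nat_lit 0, nat_lit 0, nat_lit 1629317, false, false⟩,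
 nat_lit 0, nat_lit 7390, nat_lit 0, nat_lit 0, nat_lit 4907, nat_lit 4087, nat_lit 353, nat_lit 0, nat_lit 0, nat_lit 1530, nat_lit 0, nat_lit 0, nat_lit 0, nat_lit 0, nat_lit 0, nat_lit 304400, nat_lit 0, nat_lit 0, [(nat_lit 12, [(nat_lit 5, nat_lit 761)])],
 ⟨p013_k44, nat_lit 0, nat_lit 0, nat_lit 529, nat_lit 0, nat_lit 809123, [nat_lit 1728646800, nat_lit 1604732401, nat_lit 633712800], [], [nat_lit 16157371436, nat_lit 16668057962, nat_lit 20758990233, nat_lit 19633393131], nat_lit 1271250, nat_lit 1271250, nat_lit 490000, nat_lit 1100001, nat_lit 0, nat_lit 0, [nat_lit 780000, nat_lit 1100000, nat_lit 1785000], [nat_lit 36, nat_lit 40, nat_lit 80, nat_lit 80, nat_lit 7, nat_lit 249, nat_lit 40, nat_lit 8]⟩, ⟨p013_k45, nat_lit 0, nat_lit 0, nat_lit 391, nat_lit 0, nat_lit 0, [nat_lit 1904352000, nat_lit 2352238000, nat_lit 3359862000], [], [nat_lit 4806561666, nat_lit 5083986492, nat_lit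 4230787600, nat_lit 4705269128], nat_lit 0, nat_lit 0, nat_lit 0, nat_lit 0, nat_lit 0, nat_lit 0, [], [nat_lit 92, nat_lit 40, nat_lit 80, nat_lit 80, nat_lit 32, nat_lit 317, nat_lit 100, nat_lit 8]⟩,
 ⟨nat_lit 5000, nat_lit 5245, ⟨.ofNat (nat_lit 237714), .ofNat (nat_lit 384056), .ofNat (nat_lit 280485), .ofNat (nat_lit 426827), .ofNat (nat_lit 242856), .ofNat (nat_lit 385713), .ofNat (nat_lit 285713), .ofNat (nat_lit 428570)⟩, ⟨.ofNat (nat_lit 0), .ofNat (nat_lit 0), .ofNat (nat_lit 0), .ofNat (nat_lit 0), .ofNat (nat_lit 0), .ofNat (nat_lit 0), .ofNat (nat_lit 0), .ofNat (nat_lit 0)⟩⟩, []⟩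
noncomputable def p013_l184 : Lf2 := ⟨nat_lit 0, nat_lit 5, [nat_lit 4, nat_lit 5, nat_lit 5, nat_lit 20], false, nat_lit 0, nat_lit 0, nat_lit 0, nat_lit 0, ⟨nat_lit 274, nat_lit 0, nat_lit 726, nat_lit 4, nat_lit 136, nat_lit 0, nat_lit 0, nat_lit 0, nat_lit 0, nat_lit 215, nat_lit 173400, nat_lit 317, nat_lit 60090499, nat_lit 0, nat_lit 0, nat_lit 1659495, false, false⟩,
 nat_lit 0, nat_lit 6264, nat_lit 0, nat_lit 0, nat_lit 4336, nat_lit 4688, nat_lit 0, nat_lit 0, nat_lit 0, nat_lit 1755, nat_lit 0, nat_lit 0, nat_lit 0, nat_lit 0, nat_lit 8, nat_lit 726000, nat_lit 0, nat_lit 0, [(nat_lit 15, [(nat_lit 6, nat_lit 726)])],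
 ⟨p013_k46, nat_lit 0, nat_lit 0, nat_lit 511, nat_lit 0, nat_lit 910979, [nat_lit 1706748000, nat_lit 1062580001, nat_lit 16553600], [], [nat_lit 17120424978, nat_lit 18197555649, nat_lit 18116038704, nat_lit 19148432352], nat_lit 1271250, nat_lit 1271250, nat_lit 490000, nat_lit 1100001, nat_lit 0, nat_lit 0, [nat_lit 780000, nat_lit 1100000, nat_lit 1442500], [nat_lit 59, nat_lit 40, nat_lit 80, nat_lit 80, nat_lit 3, nat_lit 249, nat_lit 40, nat_lit 10]⟩, ⟨p013_k47, nat_lit 0, nat_lit 0, nat_lit 391, nat_lit 0, nat_lit 0, [nat_lit 2183232000, nat_lit 2696708000, nat_lit 3851892000], [], [nat_lit 5508957291, nat_lit 5826153528, nat_lit 4847378120, nat_lit 5393437408], nat_lit 0, nat_lit 0, nat_lit 0, nat_lit 0, nat_lit 0, nat_lit 0, [], [nat_lit 92, nat_lit 40, nat_lit 80, nat_lit 80, nat_lit 32, nat_lit 317, nat_lit 100, nat_lit 8]⟩,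
 ⟨nat_lit 4472, nat_lit 5000, ⟨.ofNat (nat_lit 242856), .ofNat (nat_lit 385713), .ofNat (nat_lit 285713), .ofNat (nat_lit 428570), .ofNat (nat_lit 252931), .ofNat (nat_lit 388887), .ofNat (nat_lit 296064), .ofNat (nat_lit 432020)⟩, ⟨.ofNat (nat_lit 0), .ofNat (nat_lit 0), .ofNat (nat_lit 0), .ofNat (nat_lit 0), .ofNat (nat_lit 0), .ofNat (nat_lit 0), .ofNat (nat_lit 0), .ofNat (nat_lit 0)⟩⟩, []⟩
noncomputable def p013_l185 : Lf2 := ⟨nat_lit 0, nat_lit 10, [nat_lit 0, nat_lit 5, nat_lit 5, nat_lit 20], true, nat_lit 0, nat_lit 0, nat_lit 0, nat_lit 0, ⟨nat_lit 0, nat_lit 0, nat_lit 1000, nat_lit 4, nat_lit 136, nat_lit 0, nat_lit 0, nat_lit 0, nat_lit 0, nat_lit 215, nat_lit 173400, nat_lit 317, nat_lit 60090499, nat_lit 0, nat_lit 0, nat_lit 1659495, false, false⟩,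
 nat_lit 0, nat_lit 5006, nat_lit 0, nat_lit 0, nat_lit 3465, nat_lit 0, nat_lit 0, nat_lit 0, nat_lit 0, nat_lit 0, nat_lit 0, nat_lit 0, nat_lit 0, nat_lit 0, nat_lit 219, nat_lit 1000000, nat_lit 0, nat_lit 0, [(nat_lit 15, [(nat_lit 6, nat_lit 1000)])],
 ⟨p013_k48, nat_lit 0, nat_lit 0, nat_lit 487, nat_lit 0, nat_lit 681252, [nat_lit 3608000000, nat_lit 3646000001, nat_lit 144666667], [], [nat_lit 15548111521, nat_lit 16751311160, nat_lit 16843212560, nat_lit 17895975880], nat_lit 1271250, nat_lit 1271250, nat_lit 490000, nat_lit 1100001, nat_lit 0, nat_lit 0, [nat_lit 780000, nat_lit 1100000, nat_lit 1785000], [nat_lit 36, nat_lit 40, nat_lit 80, nat_lit 80, nat_lit 7, nat_lit 249, nat_lit 40, nat_lit 8]⟩, C1.Rw.none,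
 ⟨nat_lit 4472, nat_lit 5000, ⟨.ofNat (nat_lit 242856), .ofNat (nat_lit 385713), .ofNat (nat_lit 285713), .ofNat (nat_lit 428570), .ofNat (nat_lit 252931), .ofNat (nat_lit 388887), .ofNat (nat_lit 296064), .ofNat (nat_lit 432020)⟩, ⟨.ofNat (nat_lit 0), .ofNat (nat_lit 0), .ofNat (nat_lit 0), .ofNat (nat_lit 0), .ofNat (nat_lit 0), .ofNat (nat_lit 0), .ofNat (nat_lit 0), .ofNat (nat_lit 0)⟩⟩, []⟩
noncomputable def p013_l186 : Lf2 := ⟨nat_lit 0, nat_lit 10, [nat_lit 0, nat_lit 5, nat_lit 5, nat_lit 20], false, nat_lit 0, nat_lit 0, nat_lit 0, nat_lit 0, ⟨nat_lit 453, nat_lit 0, nat_lit 547, nat_lit 4, nat_lit 191, nat_lit 0, nat_lit 0, nat_lit 0, nat_lit 0, nat_lit 215, nat_lit 5073, nat_lit 222, nat_lit 54513184, nat_lit 0, nat_lit 0, nat_lit 2404583, false, true⟩,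
 nat_lit 0, nat_lit 8362, nat_lit 0, nat_lit 0, nat_lit 5321, nat_lit 5180, nat_lit 396, nat_lit 0, nat_lit 0, nat_lit 1543, nat_lit 0, nat_lit 0, nat_lit 0, nat_lit 0, nat_lit 0, nat_lit 547000, nat_lit 0, nat_lit 0, [(nat_lit 12, [(nat_lit 6, nat_lit 547)])],
 ⟨p013_k42, nat_lit 0, nat_lit 0, nat_lit 593, nat_lit 0, nat_lit 856246, [nat_lit 1984297200, nat_lit 2345199000, nat_lit 1508564400], [], [nat_lit 19208503120, nat_lit 19912211486, nat_lit 24224011224, nat_lit 22377685574], nat_lit 1271250, nat_lit 1271250, nat_lit 1100001, nat_lit 1785000, nat_lit 0, nat_lit 0, [nat_lit 780000, nat_lit 1100000, nat_lit 2127500], [nat_lit 42, nat_lit 40, nat_lit 80, nat_lit 80, nat_lit 13, nat_lit 272, nat_lit 60, nat_lit 8]⟩, ⟨p013_k45, nat_lit 0, nat_lit 0, nat_lit 253, nat_lit 0, nat_lit 0, [nat_lit 3609504000, nat_lit 4458426000, nat_lit 6368274000], [], [nat_lit 11451680531, nat_lit 11677468771,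 nat_lit 12614689476, nat_lit 12991577308], nat_lit 0, nat_lit 0, nat_lit 0, nat_lit 0, nat_lit 0, nat_lit 0, [], [nat_lit 92, nat_lit 40, nat_lit 80, nat_lit 80, nat_lit 32, nat_lit 345, nat_lit 125, nat_lit 8]⟩,
 ⟨nat_lit 5000, nat_lit 5478, ⟨.ofNat (nat_lit 382351), .ofNat (nat_lit 532217), .ofNat (nat_lit 425065), .ofNat (nat_lit 574920), .ofNat (nat_lit 385713), .ofNat (nat_lit 528570), .ofNat (nat_lit 428570), .ofNat (nat_lit 571415)⟩, ⟨.ofNat (nat_lit 0), .ofNat (nat_lit 0), .ofNat (nat_lit 0), .ofNat (nat_lit 0), .ofNat (nat_lit 0), .ofNat (nat_lit 0), .ofNat (nat_lit 0), .ofNat (nat_lit 0)⟩⟩, []⟩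
noncomputable def p013_l187 : Lf2 := ⟨nat_lit 0, nat_lit 10, [nat_lit 0, nat_lit 5, nat_lit 5, nat_lit 20], false, nat_lit 0, nat_lit 0, nat_lit 0, nat_lit 0, ⟨nat_lit 547, nat_lit 0, nat_lit 453, nat_lit 4, nat_lit 191, nat_lit 0, nat_lit 0, nat_lit 0, nat_lit 0, nat_lit 215, nat_lit 3024, nat_lit 223, nat_lit 54517541, nat_lit 0, nat_lit 0, nat_lit 2404104, false, true⟩,
 nat_lit 0, nat_lit 7839, nat_lit 0, nat_lit 0, nat_lit 5427, nat_lit 6254, nat_lit 657, nat_lit 0, nat_lit 0, nat_lit 1416, nat_lit 0, nat_lit 0, nat_lit 0, nat_lit 0, nat_lit 0, nat_lit 213600, nat_lit 0, nat_lit 0, [(nat_lit 15, [(nat_lit 5, nat_lit 399), (nat_lit 6, nat_lit 54)])],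
 ⟨p013_k48, nat_lit 0, nat_lit 0, nat_lit 554, nat_lit 0, nat_lit 950266, [nat_lit 2372938800, nat_lit 2694257600, nat_lit 3183530400], [], [nat_lit 19200865486, nat_lit 20046734928, nat_lit 21586648814, nat_lit 23566476960], nat_lit 1271250, nat_lit 1271250, nat_lit 1100001, nat_lit 1785000, nat_lit 0, nat_lit 0, [nat_lit 780000, nat_lit 1100000, nat_lit 1785000], [nat_lit 36, nat_lit 40, nat_lit 80, nat_lit 80, nat_lit 7, nat_lit 272, nat_lit 60, nat_lit 9]⟩, ⟨p013_k45, nat_lit 0, nat_lit 0, nat_lit 253, nat_lit 0, nat_lit 0, [nat_lit 4358496000, nat_lit 5383574000, nat_lit 7689726000], [], [nat_lit 15531969052, nat_lit 15804643796, nat_lit 16896980316, nat_lit 17223426076], nat_lit 0, nat_lit 0, nat_lit 0, nat_lit 0, nat_lit 0, nat_lit 0, [], [nat_lit 92, nat_lit 40, nat_lit 80, nat_lit 80, nat_lit 32, nat_lit 345, nat_lit 125, nat_lit 8]⟩,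
 ⟨nat_lit 4472, nat_lit 5000, ⟨.ofNat (nat_lit 385713), .ofNat (nat_lit 528570), .ofNat (nat_lit 428570), .ofNat (nat_lit 571423), .ofNat (nat_lit 388887), .ofNat (nat_lit 524844), .ofNat (nat_lit 432020), .ofNat (nat_lit 567973)⟩, ⟨.ofNat (nat_lit 0), .ofNat (nat_lit 0), .ofNat (nat_lit 0), .ofNat (nat_lit 0), .ofNat (nat_lit 0), .ofNat (nat_lit 0), .ofNat (nat_lit 0), .ofNat (nat_lit 0)⟩⟩, []⟩
noncomputable def p013_l188 : Lf2 := ⟨nat_lit 0, nat_lit 10, [nat_lit 0, nat_lit 5, nat_lit 5, nat_lit 20], false, nat_lit 0, nat_lit 0, nat_lit 0, nat_lit 0, ⟨nat_lit 1000, nat_lit 0, nat_lit 0, nat_lit 0, nat_lit 0, nat_lit 0, nat_lit 0, nat_lit 0, nat_lit 0, nat_lit 0, nat_lit 0, nat_lit 0, nat_lit 0, nat_lit 0, nat_lit 0, nat_lit 0, false, false⟩,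
 nat_lit 0, nat_lit 10851, nat_lit 0, nat_lit 0, nat_lit 6905, nat_lit 8453, nat_lit 948, nat_lit 0, nat_lit 0, nat_lit 2279, nat_lit 0, nat_lit 0, nat_lit 0, nat_lit 0, nat_lit 0, nat_lit 0, nat_lit 0, nat_lit 0, [],
 ⟨p013_k42, nat_lit 0, nat_lit 0, nat_lit 576, nat_lit 0, nat_lit 856246, [nat_lit 3282000000, nat_lit 4688000000, nat_lit 9842000000], [], [nat_lit 30222282380, nat_lit 30836298130, nat_lit 36685498421, nat_lit 37581943948], nat_lit 1271250, nat_lit 1271250, nat_lit 1271250, nat_lit 1271250, nat_lit 0, nat_lit 0, [nat_lit 780000, nat_lit 1100000, nat_lit 2127500], [nat_lit 42, nat_lit 40, nat_lit 80, nat_lit 80, nat_lit 13, nat_lit 317, nat_lit 100, nat_lit 9]⟩, ⟨p013_k45, nat_lit 0, nat_lit 0, nat_lit 307, nat_lit 0, nat_lit 0, [nat_lit 7968000000, nat_lit 9842000000, nat_lit 14058000000], [], [nat_lit 33141498395, nat_lit 33511431199, nat_lit 41359151756, nat_lit 41434951267],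 nat_lit 0, nat_lit 0, nat_lit 0, nat_lit 0, nat_lit 0, nat_lit 0, [], [nat_lit 92, nat_lit 40, nat_lit 80, nat_lit 80, nat_lit 32, nat_lit 373, nat_lit 150, nat_lit 9]⟩,
 zbF0, []⟩
noncomputable def p013_l189 : Lf2 := ⟨nat_lit 0, nat_lit 10, [nat_lit 0, nat_lit 5, nat_lit 5, nat_lit 20], false, nat_lit 0, nat_lit 0, nat_lit 0, nat_lit 0, ⟨nat_lit 1000, nat_lit 0, nat_lit 0, nat_lit 0, nat_lit 0, nat_lit 0, nat_lit 0, nat_lit 0, nat_lit 0, nat_lit 0, nat_lit 0, nat_lit 0, nat_lit 0, nat_lit 0, nat_lit 0, nat_lit 0, false, false⟩,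
 nat_lit 0, nat_lit 8347, nat_lit 0, nat_lit 0, nat_lit 5778, nat_lit 8324, nat_lit 1324, nat_lit 0, nat_lit 0, nat_lit 1022, nat_lit 0, nat_lit 0, nat_lit 0, nat_lit 0, nat_lit 0, nat_lit 0, nat_lit 0, nat_lit 0, [],
 ⟨p013_k48, nat_lit 0, nat_lit 0, nat_lit 542, nat_lit 0, nat_lit 950266, [nat_lit 3282000000, nat_lit 4688000000, nat_lit 7968000000], [], [nat_lit 28049234108, nat_lit 28650838312, nat_lit 33933366952, nat_lit 35220342040], nat_lit 1271250, nat_lit 1271250, nat_lit 1271250, nat_lit 1271250, nat_lit 0, nat_lit 0, [nat_lit 780000, nat_lit 1100000, nat_lit 1785000], [nat_lit 36, nat_lit 40, nat_lit 80, nat_lit 80, nat_lit 7, nat_lit 223, nat_lit 0, nat_lit 7]⟩, ⟨p013_k45, nat_lit 0, nat_lit 0, nat_lit 304, nat_lit 0, nat_lit 0, [nat_lit 7968000000, nat_lit 9842000000, nat_lit 14058000000], [], [nat_lit 38008528910, nat_lit 38386450942, nat_lit 45273787438, nat_lit 45204864344],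 nat_lit 0, nat_lit 0, nat_lit 0, nat_lit 0, nat_lit 0, nat_lit 0, [], [nat_lit 92, nat_lit 40, nat_lit 80, nat_lit 80, nat_lit 32, nat_lit 373, nat_lit 150, nat_lit 9]⟩,
 zbF0, []⟩
noncomputable def p013_l190 : Lf2 := ⟨nat_lit 0, nat_lit 10, [nat_lit 0, nat_lit 5, nat_lit 5, nat_lit 20], false, nat_lit 0, nat_lit 0, nat_lit 0, nat_lit 0, ⟨nat_lit 0, nat_lit 0, nat_lit 1000, nat_lit 4, nat_lit 107, nat_lit 0, nat_lit 0, nat_lit 0, nat_lit 0, nat_lit 215, nat_lit 106667, nat_lit 295, nat_lit 62518302, nat_lit 0, nat_lit 0, nat_lit 1227603, false, false⟩,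
 nat_lit 0, nat_lit 5157, nat_lit 0, nat_lit 0, nat_lit 3281, nat_lit 0, nat_lit 0, nat_lit 0, nat_lit 0, nat_lit 0, nat_lit 0, nat_lit 0, nat_lit 0, nat_lit 0, nat_lit 173, nat_lit 845800, nat_lit 0, nat_lit 0, [(nat_lit 12, [(nat_lit 5, nat_lit 257), (nat_lit 6, nat_lit 743)]), (nat_lit 15, [(nat_lit 5, nat_lit 257), (nat_lit 6, nat_lit 743)])],
 ⟨p013_k43, nat_lit 0, nat_lit 0, nat_lit 596, nat_lit 0, nat_lit 611111, [nat_lit 3261918001, nat_lit 2483516001, nat_lit 365648400], [], [nat_lit 17593705605, nat_lit 19518343351, nat_lit 21012561569, nat_lit 20032783514], nat_lit 1271250, nat_lit 1271250, nat_lit 21650, nat_lit 1100001, nat_lit 0, nat_lit 0, [nat_lit 780000, nat_lit 1435000, nat_lit 1271250], [nat_lit 8, nat_lit 40, nat_lit 80, nat_lit 80, nat_lit 1, nat_lit 249, nat_lit 40, nat_lit 8]⟩, ⟨p013_k49, nat_lit 0, nat_lit 0, nat_lit 1091, nat_lit 0, nat_lit 1270704, [nat_lit 0, nat_lit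 0, nat_lit 0], [], [nat_lit 0, nat_lit 0, nat_lit 0, nat_lit 0], nat_lit 1100001, nat_lit 1442500, nat_lit 21650, nat_lit 1100001, nat_lit 0, nat_lit 0, [nat_lit 1695000, nat_lit 1271250, nat_lit 1271250], [nat_lit 62, nat_lit 40, nat_lit 80, nat_lit 80, nat_lit 58, nat_lit 318, nat_lit 100, nat_lit 8]⟩,
 ⟨nat_lit 4472, nat_lit 5478, ⟨.ofNat (nat_lit 90113), .ofNat (nat_lit 382351), .ofNat (nat_lit 132827), .ofNat (nat_lit 425065), .ofNat (nat_lit 123773), .ofNat (nat_lit 388887), .ofNat (nat_lit 166906), .ofNat (nat_lit 432020)⟩, ⟨.ofNat (nat_lit 0), .ofNat (nat_lit 0), .ofNat (nat_lit 0), .ofNat (nat_lit 0), .ofNat (nat_lit 0), .ofNat (nat_lit 0), .ofNat (nat_lit 0), .ofNat (nat_lit 0)⟩⟩, [⟨nat_lit 0, nat_lit 100, nat_lit 80, nat_lit 60, nat_lit 17968032⟩]⟩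
noncomputable def p013_l191 : Lf2 := ⟨nat_lit 0, nat_lit 10, [nat_lit 0, nat_lit 5, nat_lit 5, nat_lit 20], false, nat_lit 0, nat_lit 0, nat_lit 0, nat_lit 0, ⟨nat_lit 0, nat_lit 0, nat_lit 1000, nat_lit 4, nat_lit 191, nat_lit 0, nat_lit 0, nat_lit 0, nat_lit 0, nat_lit 215, nat_lit 5073, nat_lit 222, nat_lit 54513184, nat_lit 0, nat_lit 0, nat_lit 2404583, false, true⟩,
 nat_lit 0, nat_lit 6013, nat_lit 0, nat_lit 0, nat_lit 3826, nat_lit 0, nat_lit 0, nat_lit 0, nat_lit 0, nat_lit 0, nat_lit 0, nat_lit 0, nat_lit 0, nat_lit 0, nat_lit 206, nat_lit 988600, nat_lit 0, nat_lit 0, [(nat_lit 12, [(nat_lit 5, nat_lit 19), (nat_lit 6, nat_lit 981)])],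
 ⟨p013_k43, nat_lit 0, nat_lit 0, nat_lit 431, nat_lit 0, nat_lit 492660, [nat_lit 3615092401, nat_lit 3003665734, nat_lit 430961200], [], [nat_lit 14399626972, nat_lit 16053929520, nat_lit 19863345281, nat_lit 19573420132], nat_lit 1271250, nat_lit 1271250, nat_lit 1100001, nat_lit 1785000, nat_lit 0, nat_lit 0, [nat_lit 780000, nat_lit 1435000, nat_lit 1271250], [nat_lit 8, nat_lit 40, nat_lit 80, nat_lit 80, nat_lit 1, nat_lit 272, nat_lit 60, nat_lit 8]⟩, ⟨p013_k49, nat_lit 0, nat_lit 0, nat_lit 860, nat_lit 0, nat_lit 1024405, [nat_lit 0, nat_lit 0, nat_lit 0], [], [nat_lit 0, nat_lit 0, nat_lit 0, nat_lit 0], nat_lit 1100001, nat_lit 1442500, nat_lit 1100001, nat_lit 1785000, nat_lit 0, nat_lit 0, [nat_lit 1695000, nat_lit 1271250, nat_lit 1271250], [nat_lit 62, nat_lit 40, nat_lit 80, nat_lit 80, nat_lit 58, nat_lit 345, nat_lit 125, nat_lit 8]⟩,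
 ⟨nat_lit 5000, nat_lit 5478, ⟨.ofNat (nat_lit 382351), .ofNat (nat_lit 532217), .ofNat (nat_lit 425065), .ofNat (nat_lit 574920), .ofNat (nat_lit 385713), .ofNat (nat_lit 528570), .ofNat (nat_lit 428570), .ofNat (nat_lit 571415)⟩, ⟨.ofNat (nat_lit 0), .ofNat (nat_lit 0), .ofNat (nat_lit 0), .ofNat (nat_lit 0), .ofNat (nat_lit 0), .ofNat (nat_lit 0), .ofNat (nat_lit 0), .ofNat (nat_lit 0)⟩⟩, []⟩
noncomputable def p013_l192 : Lf2 := ⟨nat_lit 0, nat_lit 10, [nat_lit 0, nat_lit 5, nat_lit 5, nat_lit 20], false, nat_lit 0, nat_lit 0, nat_lit 0, nat_lit 0, ⟨nat_lit 150, nat_lit 0, nat_lit 850, nat_lit 4, nat_lit 191, nat_lit 0, nat_lit 0, nat_lit 0, nat_lit 0, nat_lit 215, nat_lit 3024, nat_lit 223, nat_lit 54517541, nat_lit 0, nat_lit 0, nat_lit 2404104, false, true⟩,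
 nat_lit 5112, nat_lit 0, nat_lit 0, nat_lit 0, nat_lit 3539, nat_lit 1704, nat_lit 0, nat_lit 0, nat_lit 0, nat_lit 38, nat_lit 0, nat_lit 0, nat_lit 0, nat_lit 0, nat_lit 137, nat_lit 850000, nat_lit 0, nat_lit 0, [(nat_lit 15, [(nat_lit 6, nat_lit 850)])],
 ⟨p013_k50, nat_lit 0, nat_lit 0, nat_lit 392, nat_lit 0, nat_lit 557391, [nat_lit 2969300000, nat_lit 1726580001, nat_lit 16620000], [], [nat_lit 17141639312, nat_lit 18335226172, nat_lit 19746443844, nat_lit 20781176080], nat_lit 1271250, nat_lit 1271250, nat_lit 1100001, nat_lit 1785000, nat_lit 0, nat_lit 0, [nat_lit 780000, nat_lit 1435000, nat_lit 1271250], [nat_lit 18, nat_lit 40, nat_lit 80, nat_lit 80, nat_lit 2, nat_lit 272, nat_lit 60, nat_lit 9]⟩, ⟨p013_k49, nat_lit 0, nat_lit 0, nat_lit 978, nat_lit 0, nat_lit 1270704, [nat_lit 1195200000, nat_lit 1780800000, nat_lit 2108700000], [], [nat_lit 8151593626, nat_lit 7982830594,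 nat_lit 7863288490, nat_lit 7685537890], nat_lit 1100001, nat_lit 1442500, nat_lit 1100001, nat_lit 1785000, nat_lit 0, nat_lit 0, [nat_lit 1695000, nat_lit 1271250, nat_lit 1271250], [nat_lit 62, nat_lit 40, nat_lit 80, nat_lit 80, nat_lit 58, nat_lit 345, nat_lit 125, nat_lit 8]⟩,
 ⟨nat_lit 4472, nat_lit 5000, ⟨.ofNat (nat_lit 385713), .ofNat (nat_lit 528570), .ofNat (nat_lit 428570), .ofNat (nat_lit 571423), .ofNat (nat_lit 388887), .ofNat (nat_lit 524844), .ofNat (nat_lit 432020), .ofNat (nat_lit 567973)⟩, ⟨.ofNat (nat_lit 0), .ofNat (nat_lit 0), .ofNat (nat_lit 0), .ofNat (nat_lit 0), .ofNat (nat_lit 0), .ofNat (nat_lit 0), .ofNat (nat_lit 0), .ofNat (nat_lit 0)⟩⟩, []⟩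
noncomputable def p013_l193 : Lf2 := ⟨nat_lit 0, nat_lit 10, [nat_lit 0, nat_lit 5, nat_lit 5, nat_lit 20], false, nat_lit 0, nat_lit 0, nat_lit 0, nat_lit 0, ⟨nat_lit 165, nat_lit 107, nat_lit 728, nat_lit 6, nat_lit 250, nat_lit 0, nat_lit 0, nat_lit 0, nat_lit 0, nat_lit 215, nat_lit 178270, nat_lit 200, nat_lit 48181930, nat_lit 18818070, nat_lit 0, nat_lit 2968849, false, true⟩,
 nat_lit 5771, nat_lit 0, nat_lit 0, nat_lit 0, nat_lit 3672, nat_lit 1923, nat_lit 0, nat_lit 0, nat_lit 0, nat_lit 369, nat_lit 0, nat_lit 0, nat_lit 0, nat_lit 0, nat_lit 60, nat_lit 641200, nat_lit 0, nat_lit 0, [(nat_lit 12, [(nat_lit 1, nat_lit 107), (nat_lit 5, nat_lit 216), (nat_lit 6, nat_lit 512)])],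
 ⟨p013_k42, nat_lit 0, nat_lit 0, nat_lit 412, nat_lit 0, nat_lit 492660, [nat_lit 2212831800, nat_lit 2322425200, nat_lit 293983200], [], [nat_lit 21143596184, nat_lit 21860851816, nat_lit 23753257640, nat_lit 24500854120], nat_lit 1271250, nat_lit 1271250, nat_lit 1271250, nat_lit 1271250, nat_lit 0, nat_lit 0, [nat_lit 780000, nat_lit 1100000, nat_lit 2127500], [nat_lit 42, nat_lit 40, nat_lit 80, nat_lit 80, nat_lit 13, nat_lit 317, nat_lit 100, nat_lit 9]⟩, ⟨p013_k45, nat_lit 0, nat_lit 0, nat_lit 821, nat_lit 0, nat_lit 1024405, [nat_lit 1314720000, nat_lit 1623930000, nat_lit 2319570000], [], [nat_lit 6298662264, nat_lit 6213561264, nat_lit 6536066736, nat_lit 6415054308], nat_lit 1100001, nat_lit 1442500, nat_lit 1271250, nat_lit 1271250, nat_lit 0, nat_lit 0, [nat_lit 1695000, nat_lit 1271250, nat_lit 1271250], [nat_lit 92, nat_lit 40, nat_lit 80, nat_lit 80, nat_lit 32, nat_lit 373,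 nat_lit 150, nat_lit 9]⟩,
 ⟨nat_lit 5000, nat_lit 5478, ⟨.ofNat (nat_lit 532217), .ofNat (nat_lit 682065), .ofNat (nat_lit 574920), .ofNat (nat_lit 724760), .ofNat (nat_lit 528570), .ofNat (nat_lit 671409), .ofNat (nat_lit 571415), .ofNat (nat_lit 714246)⟩, ⟨.ofNat (nat_lit 0), .ofNat (nat_lit 0), .ofNat (nat_lit 0), .ofNat (nat_lit 0), .ofNat (nat_lit 0), .ofNat (nat_lit 0), .ofNat (nat_lit 0), .ofNat (nat_lit 0)⟩⟩, []⟩
noncomputable def p013_l194 : Lf2 := ⟨nat_lit 0, nat_lit 5, [nat_lit 4, nat_lit 5, nat_lit 5, nat_lit 20], false, nat_lit 0, nat_lit 0, nat_lit 0, nat_lit 0, ⟨nat_lit 223, nat_lit 777, nat_lit 0, nat_lit 8, nat_lit 304, nat_lit 0, nat_lit 0, nat_lit 0, nat_lit 0, nat_lit 0, nat_lit 0, nat_lit 0, nat_lit 42468970, nat_lit 24531030, nat_lit 0, nat_lit 3284331, true, true⟩,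
 nat_lit 7107, nat_lit 0, nat_lit 0, nat_lit 0, nat_lit 4522, nat_lit 2369, nat_lit 582, nat_lit 0, nat_lit 0, nat_lit 495, nat_lit 0, nat_lit 0, nat_lit 0, nat_lit 0, nat_lit 0, nat_lit 310800, nat_lit 0, nat_lit 0, [(nat_lit 12, [(nat_lit 1, nat_lit 777)])],
 ⟨p013_k51, nat_lit 0, nat_lit 0, nat_lit 321, nat_lit 0, nat_lit 404038, [nat_lit 2311837800, nat_lit 3046043600, nat_lit 3866590400], [], [nat_lit 27854708848, nat_lit 28202844130, nat_lit 30675035664, nat_lit 30979683531], nat_lit 1271250, nat_lit 1271250, nat_lit 1271250, nat_lit 1271250, nat_lit 0, nat_lit 0, [nat_lit 780000, nat_lit 1100000, nat_lit 1785000], [nat_lit 36, nat_lit 40, nat_lit 80, nat_lit 80, nat_lit 7, nat_lit 203, nat_lit 0, nat_lit 6]⟩, ⟨p013_k47, nat_lit 0, nat_lit 0, nat_lit 719, nat_lit 0, nat_lit 808479, [nat_lit 1776864000, nat_lit 2194766000, nat_lit 3134934000], [], [nat_lit 9531971632, nat_lit 9396158796,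 nat_lit 10000853380, nat_lit 9840347481], nat_lit 1100001, nat_lit 1442500, nat_lit 1271250, nat_lit 1271250, nat_lit 0, nat_lit 0, [nat_lit 1695000, nat_lit 1271250, nat_lit 1271250], [nat_lit 92, nat_lit 40, nat_lit 80, nat_lit 80, nat_lit 32, nat_lit 373, nat_lit 150, nat_lit 8]⟩,
 ⟨nat_lit 5244, nat_lit 5478, ⟨.ofNat (nat_lit 682079), .ofNat (nat_lit 801965), .ofNat (nat_lit 724787), .ofNat (nat_lit 844675), .ofNat (nat_lit 676736), .ofNat (nat_lit 793804), .ofNat (nat_lit 719502), .ofNat (nat_lit 836570)⟩, ⟨.ofNat (nat_lit 0), .ofNat (nat_lit 0), .ofNat (nat_lit 0), .ofNat (nat_lit 0), .ofNat (nat_lit 0), .ofNat (nat_lit 0), .ofNat (nat_lit 0), .ofNat (nat_lit 0)⟩⟩, [⟨nat_lit 13, nat_lit 91, nat_lit 52, nat_lit 100, nat_lit 77994403⟩]⟩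
noncomputable def p013_l195 : Lf2 := ⟨nat_lit 0, nat_lit 10, [nat_lit 0, nat_lit 5, nat_lit 5, nat_lit 20], false, nat_lit 0, nat_lit 0, nat_lit 0, nat_lit 0, ⟨nat_lit 474, nat_lit 526, nat_lit 0, nat_lit 8, nat_lit 305, nat_lit 0, nat_lit 0, nat_lit 0, nat_lit 0, nat_lit 0, nat_lit 0, nat_lit 0, nat_lit 42400079, nat_lit 24599921, nat_lit 0, nat_lit 3287141, true, true⟩,
 nat_lit 13608, nat_lit 0, nat_lit 0, nat_lit 0, nat_lit 4634, nat_lit 4536, nat_lit 686, nat_lit 0, nat_lit 0, nat_lit 787, nat_lit 0, nat_lit 0, nat_lit 0, nat_lit 0, nat_lit 0, nat_lit 526000, nat_lit 0, nat_lit 0, [(nat_lit 12, [(nat_lit 2, nat_lit 526)])],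
 ⟨p013_k42, nat_lit 0, nat_lit 0, nat_lit 312, nat_lit 0, nat_lit 236016, [nat_lit 2603964961, nat_lit 3596234400, nat_lit 4510464000], [], [nat_lit 27544595383, nat_lit 27733123963, nat_lit 30795318136, nat_lit 30970331704], nat_lit 1271250, nat_lit 1271250, nat_lit 1271250, nat_lit 1271250, nat_lit 0, nat_lit 0, [nat_lit 780000, nat_lit 1100000, nat_lit 2127500], [nat_lit 42, nat_lit 40, nat_lit 80, nat_lit 80, nat_lit 13, nat_lit 203, nat_lit 0, nat_lit 5]⟩, ⟨p013_k45, nat_lit 0, nat_lit 0, nat_lit 570, nat_lit 0, nat_lit 490756, [nat_lit 3776832000, nat_lit 4665108000, nat_lit 6663492000], [], [nat_lit 20925702134, nat_lit 20644274299, nat_lit 22102475501, nat_lit 21753912548], nat_lit 1100001, nat_lit 1442500, nat_lit 1271250, nat_lit 1271250, nat_lit 0, nat_lit 0, [nat_lit 1695000, nat_lit 1271250, nat_lit 1271250], [nat_lit 92, nat_lit 40, nat_lit 80, nat_lit 80, nat_lit 32, nat_lit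 373, nat_lit 150, nat_lit 8]⟩,
 ⟨nat_lit 5361, nat_lit 5478, ⟨.ofNat (nat_lit 682082), .ofNat (nat_lit 801974), .ofNat (nat_lit 724795), .ofNat (nat_lit 844687), .ofNat (nat_lit 679406), .ofNat (nat_lit 797884), .ofNat (nat_lit 722144), .ofNat (nat_lit 840622)⟩, ⟨.ofNat (nat_lit 0), .ofNat (nat_lit 0), .ofNat (nat_lit 0), .ofNat (nat_lit 0), .ofNat (nat_lit 0), .ofNat (nat_lit 0), .ofNat (nat_lit 0), .ofNat (nat_lit 0)⟩⟩, [⟨nat_lit 13, nat_lit 92, nat_lit 40, nat_lit 100, nat_lit 68848106⟩]⟩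
noncomputable def p013_l196 : Lf2 := ⟨nat_lit 0, nat_lit 10, [nat_lit 0, nat_lit 5, nat_lit 5, nat_lit 20], false, nat_lit 0, nat_lit 0, nat_lit 0, nat_lit 0, ⟨nat_lit 451, nat_lit 549, nat_lit 0, nat_lit 8, nat_lit 303, nat_lit 0, nat_lit 0, nat_lit 0, nat_lit 0, nat_lit 0, nat_lit 0, nat_lit 0, nat_lit 42537611, nat_lit 24462389, nat_lit 0, nat_lit 3281508, true, true⟩,
 nat_lit 12934, nat_lit 0, nat_lit 0, nat_lit 0, nat_lit 4494, nat_lit 4311, nat_lit 937, nat_lit 0, nat_lit 0, nat_lit 748, nat_lit 0, nat_lit 0, nat_lit 0, nat_lit 0, nat_lit 0, nat_lit 219600, nat_lit 0, nat_lit 0, [(nat_lit 12, [(nat_lit 1, nat_lit 549)])],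
 ⟨p013_k52, nat_lit 0, nat_lit 0, nat_lit 318, nat_lit 0, nat_lit 257323, [nat_lit 2596518600, nat_lit 3606909201, nat_lit 5886125600], [], [nat_lit 27656494708, nat_lit 27843151488, nat_lit 30719250689, nat_lit 30905335564], nat_lit 1271250, nat_lit 1271250, nat_lit 1271250, nat_lit 1271250, nat_lit 0, nat_lit 0, [nat_lit 780000, nat_lit 1100000, nat_lit 2127500], [nat_lit 42, nat_lit 40, nat_lit 80, nat_lit 80, nat_lit 13, nat_lit 203, nat_lit 0, nat_lit 5]⟩, ⟨p013_k45, nat_lit 0, nat_lit 0, nat_lit 592, nat_lit 0, nat_lit 547802, [nat_lit 3593568000, nat_lit 4438742000, nat_lit 6340158000], [], [nat_lit 19924573856, nat_lit 19654575412, nat_lit 21036398057, nat_lit 20707413985], nat_lit 1100001, nat_lit 1442500, nat_lit 1271250, nat_lit 1271250, nat_lit 0, nat_lit 0, [nat_lit 1695000, nat_lit 1271250, nat_lit 1271250], [nat_lit 92, nat_lit 40, nat_lit 80, nat_lit 80, nat_lit 32, nat_lit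 373, nat_lit 150, nat_lit 8]⟩,
 ⟨nat_lit 5244, nat_lit 5362, ⟨.ofNat (nat_lit 679407), .ofNat (nat_lit 797884), .ofNat (nat_lit 722145), .ofNat (nat_lit 840623), .ofNat (nat_lit 676740), .ofNat (nat_lit 793813), .ofNat (nat_lit 719510), .ofNat (nat_lit 836583)⟩, ⟨.ofNat (nat_lit 0), .ofNat (nat_lit 0), .ofNat (nat_lit 0), .ofNat (nat_lit 0), .ofNat (nat_lit 0), .ofNat (nat_lit 0), .ofNat (nat_lit 0), .ofNat (nat_lit 0)⟩⟩, [⟨nat_lit 13, nat_lit 90, nat_lit 53, nat_lit 100, nat_lit 56385490⟩]⟩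
noncomputable def p013_l197 : Lf2 := ⟨nat_lit 0, nat_lit 5, [nat_lit 4, nat_lit 5, nat_lit 5, nat_lit 20], false, nat_lit 0, nat_lit 0, nat_lit 0, nat_lit 0, ⟨nat_lit 210, nat_lit 790, nat_lit 0, nat_lit 8, nat_lit 300, nat_lit 0, nat_lit 0, nat_lit 0, nat_lit 0, nat_lit 0, nat_lit 0, nat_lit 0, nat_lit 42891975, nat_lit 24108025, nat_lit 0, nat_lit 3266575, true, true⟩,
 nat_lit 6387, nat_lit 0, nat_lit 0, nat_lit 0, nat_lit 4241, nat_lit 2128, nat_lit 593, nat_lit 0, nat_lit 0, nat_lit 329, nat_lit 0, nat_lit 0, nat_lit 0, nat_lit 0, nat_lit 0, nat_lit 316000, nat_lit 0, nat_lit 0, [(nat_lit 12, [(nat_lit 1, nat_lit 790)])],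
 ⟨p013_k53, nat_lit 0, nat_lit 0, nat_lit 310, nat_lit 0, nat_lit 436285, [nat_lit 2295606000, nat_lit 2911764000, nat_lit 3388936000], [], [nat_lit 27424268834, nat_lit 27791873269, nat_lit 30157064513, nat_lit 30489213752], nat_lit 1271250, nat_lit 1271250, nat_lit 1271250, nat_lit 1271250, nat_lit 0, nat_lit 0, [nat_lit 780000, nat_lit 1100000, nat_lit 1442500], [nat_lit 59, nat_lit 40, nat_lit 80, nat_lit 80, nat_lit 3, nat_lit 203, nat_lit 0, nat_lit 7]⟩, ⟨p013_k47, nat_lit 0, nat_lit 0, nat_lit 760, nat_lit 0, nat_lit 913057, [nat_lit 1673280000, nat_lit 2066820000, nat_lit 2952180000], [], [nat_lit 9288784456, nat_lit 9173299968, nat_lit 9695756056, nat_lit 9584780597], nat_lit 1100001, nat_lit 1442500, nat_lit 1271250, nat_lit 1271250, nat_lit 0, nat_lit 0, [nat_lit 1695000, nat_lit 1271250, nat_lit 1271250], [nat_lit 92, nat_lit 40, nat_lit 80, nat_lit 80, nat_lit 32, nat_lit 373,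 nat_lit 150, nat_lit 8]⟩,
 ⟨nat_lit 5000, nat_lit 5245, ⟨.ofNat (nat_lit 676739), .ofNat (nat_lit 786491), .ofNat (nat_lit 719505), .ofNat (nat_lit 829257), .ofNat (nat_lit 671425), .ofNat (nat_lit 778563), .ofNat (nat_lit 714277), .ofNat (nat_lit 821416)⟩, ⟨.ofNat (nat_lit 0), .ofNat (nat_lit 0), .ofNat (nat_lit 0), .ofNat (nat_lit 0), .ofNat (nat_lit 0), .ofNat (nat_lit 0), .ofNat (nat_lit 0), .ofNat (nat_lit 0)⟩⟩, [⟨nat_lit 13, nat_lit 88, nat_lit 56, nat_lit 100, nat_lit 103621747⟩]⟩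
noncomputable def p013_l198 : Lf2 := ⟨nat_lit 0, nat_lit 10, [nat_lit 0, nat_lit 5, nat_lit 5, nat_lit 20], false, nat_lit 0, nat_lit 0, nat_lit 0, nat_lit 0, ⟨nat_lit 231, nat_lit 769, nat_lit 0, nat_lit 8, nat_lit 301, nat_lit 0, nat_lit 0, nat_lit 0, nat_lit 0, nat_lit 0, nat_lit 0, nat_lit 0, nat_lit 42824213, nat_lit 24175787, nat_lit 0, nat_lit 3269478, true, true⟩,
 nat_lit 6654, nat_lit 0, nat_lit 0, nat_lit 0, nat_lit 4419, nat_lit 2218, nat_lit 227, nat_lit 0, nat_lit 0, nat_lit 385, nat_lit 0, nat_lit 0, nat_lit 0, nat_lit 0, nat_lit 0, nat_lit 307600, nat_lit 0, nat_lit 0, [(nat_lit 12, [(nat_lit 1, nat_lit 769)])],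
 ⟨p013_k44, nat_lit 0, nat_lit 0, nat_lit 284, nat_lit 0, nat_lit 278098, [nat_lit 2321826600, nat_lit 3062949201, nat_lit 3908015467], [], [nat_lit 28545817805, nat_lit 28728592788, nat_lit 31249671429, nat_lit 31404110557], nat_lit 1271250, nat_lit 1271250, nat_lit 1271250, nat_lit 1271250, nat_lit 0, nat_lit 0, [nat_lit 780000, nat_lit 1100000, nat_lit 1785000], [nat_lit 36, nat_lit 40, nat_lit 80, nat_lit 80, nat_lit 7, nat_lit 203, nat_lit 0, nat_lit 6]⟩, ⟨p013_k45, nat_lit 0, nat_lit 0, nat_lit 614, nat_lit 0, nat_lit 605906, [nat_lit 1840608000, nat_lit 2273502000, nat_lit 3247398000], [], [nat_lit 10174616826, nat_lit 10041720773, nat_lit 10715241487, nat_lit 10548169295], nat_lit 1100001, nat_lit 1442500, nat_lit 1271250, nat_lit 1271250, nat_lit 0, nat_lit 0, [nat_lit 1695000, nat_lit 1271250, nat_lit 1271250], [nat_lit 92, nat_lit 40, nat_lit 80, nat_lit 80, nat_lit 32, nat_lit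 373, nat_lit 150, nat_lit 8]⟩,
 ⟨nat_lit 5123, nat_lit 5245, ⟨.ofNat (nat_lit 676740), .ofNat (nat_lit 786496), .ofNat (nat_lit 719510), .ofNat (nat_lit 829266), .ofNat (nat_lit 674081), .ofNat (nat_lit 782527), .ofNat (nat_lit 716890), .ofNat (nat_lit 825336)⟩, ⟨.ofNat (nat_lit 0), .ofNat (nat_lit 0), .ofNat (nat_lit 0), .ofNat (nat_lit 0), .ofNat (nat_lit 0), .ofNat (nat_lit 0), .ofNat (nat_lit 0), .ofNat (nat_lit 0)⟩⟩, [⟨nat_lit 13, nat_lit 89, nat_lit 55, nat_lit 100, nat_lit 20365299⟩, ⟨nat_lit 13, nat_lit 89, nat_lit 45, nat_lit 100, nat_lit 78649346⟩]⟩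
noncomputable def p013_l199 : Lf2 := ⟨nat_lit 0, nat_lit 10, [nat_lit 0, nat_lit 5, nat_lit 5, nat_lit 20], false, nat_lit 0, nat_lit 0, nat_lit 0, nat_lit 0, ⟨nat_lit 221, nat_lit 779, nat_lit 0, nat_lit 8, nat_lit 298, nat_lit 0, nat_lit 0, nat_lit 0, nat_lit 0, nat_lit 0, nat_lit 0, nat_lit 0, nat_lit 43107838, nat_lit 23892162, nat_lit 0, nat_lit 3257181, true, true⟩,
 nat_lit 6408, nat_lit 0, nat_lit 0, nat_lit 0, nat_lit 4345, nat_lit 2136, nat_lit 429, nat_lit 0, nat_lit 0, nat_lit 372, nat_lit 0, nat_lit 0, nat_lit 0, nat_lit 0, nat_lit 0, nat_lit 311600, nat_lit 0, nat_lit 0, [(nat_lit 12, [(nat_lit 1, nat_lit 779)])],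
 ⟨p013_k54, nat_lit 0, nat_lit 0, nat_lit 290, nat_lit 0, nat_lit 298304, [nat_lit 2309340600, nat_lit 3041817200, nat_lit 3856234134], [], [nat_lit 27764122757, nat_lit 27945908544, nat_lit 30243864534, nat_lit 30413514559], nat_lit 1271250, nat_lit 1271250, nat_lit 1271250, nat_lit 1271250, nat_lit 0, nat_lit 0, [nat_lit 780000, nat_lit 1100000, nat_lit 1785000], [nat_lit 36, nat_lit 40, nat_lit 80, nat_lit 80, nat_lit 7, nat_lit 203, nat_lit 0, nat_lit 6]⟩, ⟨p013_k45, nat_lit 0, nat_lit 0, nat_lit 636, nat_lit 0, nat_lit 664934, [nat_lit 1760928000, nat_lit 2175082000, nat_lit 3106818000], [], [nat_lit 9683142576, nat_lit 9567484392, nat_lit 10179730618, nat_lit 10021764121], nat_lit 1100001, nat_lit 1442500, nat_lit 1271250, nat_lit 1271250, nat_lit 0, nat_lit 0, [nat_lit 1695000, nat_lit 1271250, nat_lit 1271250], [nat_lit 92, nat_lit 40, nat_lit 80, nat_lit 80, nat_lit 32, nat_lit 373,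 nat_lit 150, nat_lit 8]⟩,
 ⟨nat_lit 5000, nat_lit 5124, ⟨.ofNat (nat_lit 674081), .ofNat (nat_lit 775297), .ofNat (nat_lit 716890), .ofNat (nat_lit 818107), .ofNat (nat_lit 671427), .ofNat (nat_lit 771426), .ofNat (nat_lit 714283), .ofNat (nat_lit 814282)⟩, ⟨.ofNat (nat_lit 0), .ofNat (nat_lit 0), .ofNat (nat_lit 0), .ofNat (nat_lit 0), .ofNat (nat_lit 0), .ofNat (nat_lit 0), .ofNat (nat_lit 0), .ofNat (nat_lit 0)⟩⟩, [⟨nat_lit 13, nat_lit 88, nat_lit 58, nat_lit 100, nat_lit 54820439⟩, ⟨nat_lit 13, nat_lit 88, nat_lit 48, nat_lit 100, nat_lit 49079140⟩]⟩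
noncomputable def p013_l200 : Lf2 := ⟨nat_lit 0, nat_lit 10, [nat_lit 0, nat_lit 5, nat_lit 5, nat_lit 20], false, nat_lit 0, nat_lit 0, nat_lit 0, nat_lit 0, ⟨nat_lit 166, nat_lit 484, nat_lit 350, nat_lit 6, nat_lit 248, nat_lit 0, nat_lit 0, nat_lit 0, nat_lit 0, nat_lit 215, nat_lit 157310, nat_lit 200, nat_lit 48410847, nat_lit 18589153, nat_lit 0, nat_lit 2952643, false, true⟩,
 nat_lit 5719, nat_lit 0, nat_lit 0, nat_lit 0, nat_lit 3959, nat_lit 1906, nat_lit 312, nat_lit 0, nat_lit 0, nat_lit 341, nat_lit 0, nat_lit 0, nat_lit 0, nat_lit 0, nat_lit 0, nat_lit 350400, nat_lit 0, nat_lit 0, [(nat_lit 15, [(nat_lit 1, nat_lit 484), (nat_lit 5, nat_lit 322), (nat_lit 6, nat_lit 28)])],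
 ⟨p013_k48, nat_lit 0, nat_lit 0, nat_lit 366, nat_lit 0, nat_lit 502566, [nat_lit 1973523200, nat_lit 2011856001, nat_lit 1602549600], [], [nat_lit 22716913600, nat_lit 23115491095, nat_lit 25358821916, nat_lit 25702656073], nat_lit 1271250, nat_lit 1271250, nat_lit 1271250, nat_lit 1271250, nat_lit 0, nat_lit 0, [nat_lit 780000, nat_lit 1100000, nat_lit 1785000], [nat_lit 36, nat_lit 40, nat_lit 80, nat_lit 80, nat_lit 7, nat_lit 203, nat_lit 0, nat_lit 6]⟩, ⟨p013_k45, nat_lit 0, nat_lit 0, nat_lit 882, nat_lit 0, nat_lit 1145718, [nat_lit 1322688000, nat_lit 1633772000, nat_lit 2333628000], [], [nat_lit 6546068696, nat_lit 6416694856, nat_lit 6664365442, nat_lit 6544410840], nat_lit 1100001, nat_lit 1442500, nat_lit 1271250, nat_lit 1271250, nat_lit 0, nat_lit 0, [nat_lit 1695000, nat_lit 1271250, nat_lit 1271250], [nat_lit 92, nat_lit 40, nat_lit 80, nat_lit 80, nat_lit 32, nat_lit 373,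 nat_lit 150, nat_lit 9]⟩,
 ⟨nat_lit 4743, nat_lit 5000, ⟨.ofNat (nat_lit 528570), .ofNat (nat_lit 671427), .ofNat (nat_lit 571426), .ofNat (nat_lit 714280), .ofNat (nat_lit 526722), .ofNat (nat_lit 666121), .ofNat (nat_lit 569697), .ofNat (nat_lit 709094)⟩, ⟨.ofNat (nat_lit 0), .ofNat (nat_lit 0), .ofNat (nat_lit 0), .ofNat (nat_lit 0), .ofNat (nat_lit 0), .ofNat (nat_lit 0), .ofNat (nat_lit 0), .ofNat (nat_lit 0)⟩⟩, []⟩
noncomputable def p013_l201 : Lf2 := ⟨nat_lit 0, nat_lit 10, [nat_lit 0, nat_lit 5, nat_lit 5, nat_lit 20], false, nat_lit 0, nat_lit 0, nat_lit 0, nat_lit 0, ⟨nat_lit 170, nat_lit 709, nat_lit 121, nat_lit 6, nat_lit 246, nat_lit 0, nat_lit 0, nat_lit 0, nat_lit 0, nat_lit 215, nat_lit 146942, nat_lit 200, nat_lit 48563419, nat_lit 18436581, nat_lit 0, nat_lit 2941680, false, true⟩,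
 nat_lit 5853, nat_lit 0, nat_lit 0, nat_lit 0, nat_lit 4219, nat_lit 1951, nat_lit 355, nat_lit 0, nat_lit 0, nat_lit 349, nat_lit 0, nat_lit 0, nat_lit 0, nat_lit 0, nat_lit 0, nat_lit 332000, nat_lit 0, nat_lit 0, [(nat_lit 15, [(nat_lit 1, nat_lit 709), (nat_lit 5, nat_lit 121)])],
 ⟨p013_k55, nat_lit 0, nat_lit 0, nat_lit 377, nat_lit 0, nat_lit 533394, [nat_lit 2149401000, nat_lit 2490825600, nat_lit 2740268534], [], [nat_lit 23916174422, nat_lit 24323931217, nat_lit 26537264422, nat_lit 26890361132], nat_lit 1271250, nat_lit 1271250, nat_lit 1271250, nat_lit 1271250, nat_lit 0, nat_lit 0, [nat_lit 780000, nat_lit 1100000, nat_lit 1785000], [nat_lit 36, nat_lit 40, nat_lit 80, nat_lit 80, nat_lit 7, nat_lit 203, nat_lit 0, nat_lit 6]⟩, ⟨p013_k45, nat_lit 0, nat_lit 0, nat_lit 943, nat_lit 0, nat_lit 1270704, [nat_lit 1354560000, nat_lit 1673140000, nat_lit 2389860000], [], [nat_lit 6707694652,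 nat_lit 6575317100, nat_lit 6826792830, nat_lit 6705036756], nat_lit 1100001, nat_lit 1442500, nat_lit 1271250, nat_lit 1271250, nat_lit 0, nat_lit 0, [nat_lit 1695000, nat_lit 1271250, nat_lit 1271250], [nat_lit 92, nat_lit 40, nat_lit 80, nat_lit 80, nat_lit 32, nat_lit 373, nat_lit 150, nat_lit 9]⟩,
 ⟨nat_lit 4472, nat_lit 4744, ⟨.ofNat (nat_lit 526722), .ofNat (nat_lit 666122), .ofNat (nat_lit 569698), .ofNat (nat_lit 709096), .ofNat (nat_lit 524844), .ofNat (nat_lit 660800), .ofNat (nat_lit 567976), .ofNat (nat_lit 703932)⟩, ⟨.ofNat (nat_lit 0), .ofNat (nat_lit 0), .ofNat (nat_lit 0), .ofNat (nat_lit 0), .ofNat (nat_lit 0), .ofNat (nat_lit 0), .ofNat (nat_lit 0), .ofNat (nat_lit 0)⟩⟩, []⟩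
noncomputable def p013_l202 : Lf2 := ⟨nat_lit 0, nat_lit 5, [nat_lit 4, nat_lit 5, nat_lit 5, nat_lit 20], false, nat_lit 0, nat_lit 0, nat_lit 0, nat_lit 0, ⟨nat_lit 186, nat_lit 814, nat_lit 0, nat_lit 8, nat_lit 296, nat_lit 0, nat_lit 0, nat_lit 0, nat_lit 0, nat_lit 0, nat_lit 0, nat_lit 0, nat_lit 43308394, nat_lit 23691606, nat_lit 0, nat_lit 3248251, true, true⟩,
 nat_lit 5822, nat_lit 0, nat_lit 0, nat_lit 0, nat_lit 4030, nat_lit 1940, nat_lit 0, nat_lit 0, nat_lit 0, nat_lit 348, nat_lit 0, nat_lit 0, nat_lit 0, nat_lit 0, nat_lit 0, nat_lit 773200, nat_lit 0, nat_lit 0, [(nat_lit 15, [(nat_lit 1, nat_lit 68), (nat_lit 2, nat_lit 746)])],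
 ⟨p013_k46, nat_lit 0, nat_lit 0, nat_lit 320, nat_lit 0, nat_lit 467143, [nat_lit 2225979840, nat_lit 2295033600, nat_lit 1869751200], [], [nat_lit 27328788260, nat_lit 27690477310, nat_lit 29860482704, nat_lit 30193913406], nat_lit 1271250, nat_lit 1271250, nat_lit 1271250, nat_lit 1271250, nat_lit 0, nat_lit 0, [nat_lit 780000, nat_lit 1100000, nat_lit 1442500], [nat_lit 59, nat_lit 40, nat_lit 80, nat_lit 80, nat_lit 3, nat_lit 203, nat_lit 0, nat_lit 7]⟩, ⟨p013_k47, nat_lit 0, nat_lit 0, nat_lit 801, nat_lit 0, nat_lit 1021183, [nat_lit 1482048000, nat_lit 1830612000, nat_lit 2614788000], [], [nat_lit 8059571768, nat_lit 7950627504, nat_lit 8399496226, nat_lit 8270501598], nat_lit 1100001, nat_lit 1442500, nat_lit 1271250, nat_lit 1271250, nat_lit 0, nat_lit 0, [nat_lit 1695000, nat_lit 1271250, nat_lit 1271250], [nat_lit 92, nat_lit 40, nat_lit 80, nat_lit 80, nat_lit 32, nat_lit 373,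 nat_lit 150, nat_lit 8]⟩,
 ⟨nat_lit 4743, nat_lit 5000, ⟨.ofNat (nat_lit 671427), .ofNat (nat_lit 771425), .ofNat (nat_lit 714280), .ofNat (nat_lit 814277), .ofNat (nat_lit 666121), .ofNat (nat_lit 763700), .ofNat (nat_lit 709094), .ofNat (nat_lit 806671)⟩, ⟨.ofNat (nat_lit 0), .ofNat (nat_lit 0), .ofNat (nat_lit 0), .ofNat (nat_lit 0), .ofNat (nat_lit 0), .ofNat (nat_lit 0), .ofNat (nat_lit 0), .ofNat (nat_lit 0)⟩⟩, [⟨nat_lit 13, nat_lit 86, nat_lit 61, nat_lit 100, nat_lit 122606014⟩]⟩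
noncomputable def p013_l203 : Lf2 := ⟨nat_lit 0, nat_lit 5, [nat_lit 4, nat_lit 5, nat_lit 5, nat_lit 20], false, nat_lit 0, nat_lit 0, nat_lit 0, nat_lit 0, ⟨nat_lit 165, nat_lit 835, nat_lit 0, nat_lit 8, nat_lit 291, nat_lit 0, nat_lit 0, nat_lit 0, nat_lit 0, nat_lit 0, nat_lit 0, nat_lit 0, nat_lit 43862571, nat_lit 23137429, nat_lit 0, nat_lit 3222552, true, true⟩,
 nat_lit 5524, nat_lit 0, nat_lit 0, nat_lit 0, nat_lit 3982, nat_lit 1841, nat_lit 484, nat_lit 0, nat_lit 0, nat_lit 396, nat_lit 0, nat_lit 0, nat_lit 0, nat_lit 0, nat_lit 0, nat_lit 334000, nat_lit 0, nat_lit 0, [(nat_lit 15, [(nat_lit 1, nat_lit 835)])],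
 ⟨p013_k56, nat_lit 0, nat_lit 0, nat_lit 328, nat_lit 0, nat_lit 496600, [nat_lit 2228397000, nat_lit 2623880000, nat_lit 2973794000], [], [nat_lit 27692834138, nat_lit 28035832920, nat_lit 29691048831, nat_lit 30010612911], nat_lit 1271250, nat_lit 1271250, nat_lit 1271250, nat_lit 1271250, nat_lit 0, nat_lit 0, [nat_lit 780000, nat_lit 1100000, nat_lit 1442500], [nat_lit 59, nat_lit 40, nat_lit 80, nat_lit 80, nat_lit 3, nat_lit 203, nat_lit 0, nat_lit 6]⟩, ⟨p013_k47, nat_lit 0, nat_lit 0, nat_lit 844, nat_lit 0, nat_lit 1132584, [nat_lit 1314720000, nat_lit 1623930000, nat_lit 2319570000], [], [nat_lit 6801424988, nat_lit 6673971276, nat_lit 7070291162, nat_lit 7016391032], nat_lit 1100001, nat_lit 1442500, nat_lit 1271250, nat_lit 1271250, nat_lit 0, nat_lit 0, [nat_lit 1695000, nat_lit 1271250, nat_lit 1271250], [nat_lit 92, nat_lit 40, nat_lit 80, nat_lit 80, nat_lit 32, nat_lit 373,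 nat_lit 150, nat_lit 8]⟩,
 ⟨nat_lit 4472, nat_lit 4744, ⟨.ofNat (nat_lit 666122), .ofNat (nat_lit 749761), .ofNat (nat_lit 709096), .ofNat (nat_lit 792736), .ofNat (nat_lit 660800), .ofNat (nat_lit 742374), .ofNat (nat_lit 703932), .ofNat (nat_lit 785505)⟩, ⟨.ofNat (nat_lit 0), .ofNat (nat_lit 0), .ofNat (nat_lit 0), .ofNat (nat_lit 0), .ofNat (nat_lit 0), .ofNat (nat_lit 0), .ofNat (nat_lit 0), .ofNat (nat_lit 0)⟩⟩, [⟨nat_lit 13, nat_lit 82, nat_lit 66, nat_lit 100, nat_lit 123927805⟩]⟩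
noncomputable def p013_l204 : Lf2 := ⟨nat_lit 0, nat_lit 10, [nat_lit 0, nat_lit 5, nat_lit 5, nat_lit 20], false, nat_lit 0, nat_lit 0, nat_lit 0, nat_lit 0, ⟨nat_lit 213, nat_lit 787, nat_lit 0, nat_lit 8, nat_lit 288, nat_lit 0, nat_lit 0, nat_lit 0, nat_lit 0, nat_lit 0, nat_lit 0, nat_lit 0, nat_lit 44130872, nat_lit 22869128, nat_lit 0, nat_lit 3209568, false, true⟩,
 nat_lit 6322, nat_lit 0, nat_lit 0, nat_lit 0, nat_lit 4376, nat_lit 2107, nat_lit 0, nat_lit 0, nat_lit 0, nat_lit 373, nat_lit 0, nat_lit 0, nat_lit 0, nat_lit 0, nat_lit 0, nat_lit 622000, nat_lit 0, nat_lit 0, [(nat_lit 15, [(nat_lit 1, nat_lit 275), (nat_lit 2, nat_lit 512)])],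
 ⟨p013_k48, nat_lit 0, nat_lit 0, nat_lit 287, nat_lit 0, nat_lit 297515, [nat_lit 2269118281, nat_lit 2751794400, nat_lit 2016999067], [], [nat_lit 27671130237, nat_lit 27853330417, nat_lit 29604602077, nat_lit 29784812593], nat_lit 1271250, nat_lit 1271250, nat_lit 1271250, nat_lit 1271250, nat_lit 0, nat_lit 0, [nat_lit 780000, nat_lit 1100000, nat_lit 1785000], [nat_lit 36, nat_lit 40, nat_lit 80, nat_lit 80, nat_lit 7, nat_lit 203, nat_lit 0, nat_lit 6]⟩, ⟨p013_k45, nat_lit 0, nat_lit 0, nat_lit 641, nat_lit 0, nat_lit 678256, [nat_lit 1697184000, nat_lit 2096346000, nat_lit 2994354000], [], [nat_lit 9185645913, nat_lit 9131785063, nat_lit 9572295706, nat_lit 9496773659], nat_lit 1100001, nat_lit 1271250, nat_lit 1271250, nat_lit 1271250, nat_lit 0, nat_lit 0, [nat_lit 1695000, nat_lit 1271250, nat_lit 1271250], [nat_lit 92, nat_lit 40, nat_lit 80, nat_lit 80, nat_lit 32, nat_lit 373,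 nat_lit 150, nat_lit 8]⟩,
 ⟨nat_lit 4873, nat_lit 5000, ⟨.ofNat (nat_lit 671427), .ofNat (nat_lit 749998), .ofNat (nat_lit 692855), .ofNat (nat_lit 771426), .ofNat (nat_lit 668775), .ofNat (nat_lit 746393), .ofNat (nat_lit 690230), .ofNat (nat_lit 767849)⟩, ⟨.ofNat (nat_lit 0), .ofNat (nat_lit 0), .ofNat (nat_lit 0), .ofNat (nat_lit 0), .ofNat (nat_lit 0), .ofNat (nat_lit 0), .ofNat (nat_lit 0), .ofNat (nat_lit 0)⟩⟩, [⟨nat_lit 13, nat_lit 87, nat_lit 59, nat_lit 100, nat_lit 118810241⟩]⟩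
noncomputable def p013_l205 : Lf2 := ⟨nat_lit 0, nat_lit 10, [nat_lit 0, nat_lit 5, nat_lit 5, nat_lit 20], false, nat_lit 0, nat_lit 0, nat_lit 0, nat_lit 0, ⟨nat_lit 187, nat_lit 813, nat_lit 0, nat_lit 8, nat_lit 285, nat_lit 0, nat_lit 0, nat_lit 0, nat_lit 0, nat_lit 0, nat_lit 0, nat_lit 0, nat_lit 44408357, nat_lit 22591643, nat_lit 0, nat_lit 3195764, false, true⟩,
 nat_lit 6004, nat_lit 0, nat_lit 0, nat_lit 0, nat_lit 4242, nat_lit 2001, nat_lit 354, nat_lit 0, nat_lit 0, nat_lit 348, nat_lit 0, nat_lit 0, nat_lit 0, nat_lit 0, nat_lit 0, nat_lit 325200, nat_lit 0, nat_lit 0, [(nat_lit 15, [(nat_lit 1, nat_lit 813)])],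
 ⟨p013_k57, nat_lit 0, nat_lit 0, nat_lit 292, nat_lit 0, nat_lit 318627, [nat_lit 2256156600, nat_lit 2776474400, nat_lit 3380451600], [], [nat_lit 27548859471, nat_lit 27729268406, nat_lit 29266160415, nat_lit 29441901889], nat_lit 1271250, nat_lit 1271250, nat_lit 1271250, nat_lit 1271250, nat_lit 0, nat_lit 0, [nat_lit 780000, nat_lit 1100000, nat_lit 1785000], [nat_lit 36, nat_lit 40, nat_lit 80, nat_lit 80, nat_lit 7, nat_lit 203, nat_lit 0, nat_lit 6]⟩, ⟨p013_k45, nat_lit 0, nat_lit 0, nat_lit 665, nat_lit 0, nat_lit 742662, [nat_lit 1490016000, nat_lit 1840454000, nat_lit 2628846000], [], [nat_lit 7949326688, nat_lit 7891511926, nat_lit 8195722036, nat_lit 8127115422], nat_lit 1100001, nat_lit 1271250, nat_lit 1271250, nat_lit 1271250, nat_lit 0, nat_lit 0, [nat_lit 1695000, nat_lit 1271250, nat_lit 1271250], [nat_lit 92, nat_lit 40, nat_lit 80, nat_lit 80, nat_lit 32, nat_lit 373,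 nat_lit 150, nat_lit 8]⟩,
 ⟨nat_lit 4743, nat_lit 4874, ⟨.ofNat (nat_lit 668775), .ofNat (nat_lit 739337), .ofNat (nat_lit 690231), .ofNat (nat_lit 760793), .ofNat (nat_lit 666122), .ofNat (nat_lit 735821), .ofNat (nat_lit 687609), .ofNat (nat_lit 757309)⟩, ⟨.ofNat (nat_lit 0), .ofNat (nat_lit 0), .ofNat (nat_lit 0), .ofNat (nat_lit 0), .ofNat (nat_lit 0), .ofNat (nat_lit 0), .ofNat (nat_lit 0), .ofNat (nat_lit 0)⟩⟩, [⟨nat_lit 13, nat_lit 86, nat_lit 61, nat_lit 100, nat_lit 118518831⟩]⟩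
noncomputable def p013_l206 : Lf2 := ⟨nat_lit 0, nat_lit 10, [nat_lit 0, nat_lit 5, nat_lit 5, nat_lit 20], false, nat_lit 0, nat_lit 0, nat_lit 0, nat_lit 0, ⟨nat_lit 170, nat_lit 830, nat_lit 0, nat_lit 8, nat_lit 279, nat_lit 0, nat_lit 0, nat_lit 0, nat_lit 0, nat_lit 0, nat_lit 0, nat_lit 0, nat_lit 45056173, nat_lit 21943827, nat_lit 0, nat_lit 3162040, false, true⟩,
 nat_lit 5570, nat_lit 0, nat_lit 0, nat_lit 0, nat_lit 4015, nat_lit 1856, nat_lit 494, nat_lit 0, nat_lit 0, nat_lit 328, nat_lit 0, nat_lit 0, nat_lit 0, nat_lit 0, nat_lit 0, nat_lit 332000, nat_lit 0, nat_lit 0, [(nat_lit 15, [(nat_lit 1, nat_lit 830)])],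
 ⟨p013_k55, nat_lit 0, nat_lit 0, nat_lit 295, nat_lit 0, nat_lit 335179, [nat_lit 2234706000, nat_lit 2736504000, nat_lit 3286156000], [], [nat_lit 27134345155, nat_lit 27302435013, nat_lit 28414686463, nat_lit 28586589065], nat_lit 1271250, nat_lit 1271250, nat_lit 1271250, nat_lit 1271250, nat_lit 0, nat_lit 0, [nat_lit 780000, nat_lit 1100000, nat_lit 1785000], [nat_lit 36, nat_lit 40, nat_lit 80, nat_lit 80, nat_lit 7, nat_lit 203, nat_lit 0, nat_lit 6]⟩, ⟨p013_k45, nat_lit 0, nat_lit 0, nat_lit 704, nat_lit 0, nat_lit 798496, [nat_lit 1354560000, nat_lit 1673140000, nat_lit 2389860000], [], [nat_lit 7114571112, nat_lit 7087178718, nat_lit 7295102952, nat_lit 7263718927], nat_lit 1100001, nat_lit 1184688, nat_lit 1271250, nat_lit 1271250, nat_lit 0, nat_lit 0, [nat_lit 1695000, nat_lit 1271250, nat_lit 1271250], [nat_lit 92, nat_lit 40, nat_lit 80, nat_lit 80, nat_lit 32, nat_lit 373,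 nat_lit 150, nat_lit 8]⟩,
 ⟨nat_lit 4609, nat_lit 4744, ⟨.ofNat (nat_lit 666122), .ofNat (nat_lit 721881), .ofNat (nat_lit 676866), .ofNat (nat_lit 732625), .ofNat (nat_lit 663464), .ofNat (nat_lit 718535), .ofNat (nat_lit 674227), .ofNat (nat_lit 729298)⟩, ⟨.ofNat (nat_lit 0), .ofNat (nat_lit 0), .ofNat (nat_lit 0), .ofNat (nat_lit 0), .ofNat (nat_lit 0), .ofNat (nat_lit 0), .ofNat (nat_lit 0), .ofNat (nat_lit 0)⟩⟩, [⟨nat_lit 13, nat_lit 84, nat_lit 71, nat_lit 100, nat_lit 115284359⟩]⟩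
noncomputable def p013_l207 : Lf2 := ⟨nat_lit 0, nat_lit 10, [nat_lit 0, nat_lit 5, nat_lit 5, nat_lit 20], false, nat_lit 0, nat_lit 0, nat_lit 0, nat_lit 0, ⟨nat_lit 166, nat_lit 834, nat_lit 0, nat_lit 8, nat_lit 277, nat_lit 0, nat_lit 0, nat_lit 0, nat_lit 0, nat_lit 0, nat_lit 0, nat_lit 0, nat_lit 45327879, nat_lit 21672121, nat_lit 0, nat_lit 3147266, false, true⟩,
 nat_lit 5487, nat_lit 0, nat_lit 0, nat_lit 0, nat_lit 4035, nat_lit 1829, nat_lit 437, nat_lit 0, nat_lit 0, nat_lit 324, nat_lit 0, nat_lit 0, nat_lit 0, nat_lit 0, nat_lit 0, nat_lit 333600, nat_lit 0, nat_lit 0, [(nat_lit 15, [(nat_lit 1, nat_lit 834)])],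
 ⟨p013_k58, nat_lit 0, nat_lit 0, nat_lit 301, nat_lit 0, nat_lit 355904, [nat_lit 2229658800, nat_lit 2727099201, nat_lit 3263968800], [], [nat_lit 27280689365, nat_lit 27449015032, nat_lit 28447002124, nat_lit 28629543280], nat_lit 1271250, nat_lit 1271250, nat_lit 1271250, nat_lit 1271250, nat_lit 0, nat_lit 0, [nat_lit 780000, nat_lit 1100000, nat_lit 1785000], [nat_lit 36, nat_lit 40, nat_lit 80, nat_lit 80, nat_lit 7, nat_lit 203, nat_lit 0, nat_lit 6]⟩, ⟨p013_k45, nat_lit 0, nat_lit 0, nat_lit 742, nat_lit 0, nat_lit 866337, [nat_lit 1322688000, nat_lit 1633772000, nat_lit 2333628000], [], [nat_lit 6896542396, nat_lit 6869291844, nat_lit 7051318615, nat_lit 7020630960], nat_lit 1100001, nat_lit 1184688, nat_lit 1271250, nat_lit 1271250, nat_lit 0, nat_lit 0, [nat_lit 1695000, nat_lit 1271250, nat_lit 1271250], [nat_lit 92, nat_lit 40, nat_lit 80, nat_lit 80, nat_lit 32, nat_lit 373,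 nat_lit 150, nat_lit 8]⟩,
 ⟨nat_lit 4472, nat_lit 4610, ⟨.ofNat (nat_lit 663464), .ofNat (nat_lit 711651), .ofNat (nat_lit 674227), .ofNat (nat_lit 722414), .ofNat (nat_lit 660800), .ofNat (nat_lit 708385), .ofNat (nat_lit 671583), .ofNat (nat_lit 719168)⟩, ⟨.ofNat (nat_lit 0), .ofNat (nat_lit 0), .ofNat (nat_lit 0), .ofNat (nat_lit 0), .ofNat (nat_lit 0), .ofNat (nat_lit 0), .ofNat (nat_lit 0), .ofNat (nat_lit 0)⟩⟩, [⟨nat_lit 13, nat_lit 82, nat_lit 73, nat_lit 100, nat_lit 136773728⟩]⟩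
noncomputable def p013_l208 : Lf2 := ⟨nat_lit 0, nat_lit 10, [nat_lit 0, nat_lit 5, nat_lit 5, nat_lit 20], false, nat_lit 0, nat_lit 0, nat_lit 0, nat_lit 0, ⟨nat_lit 199, nat_lit 801, nat_lit 0, nat_lit 8, nat_lit 284, nat_lit 0, nat_lit 0, nat_lit 0, nat_lit 0, nat_lit 0, nat_lit 0, nat_lit 0, nat_lit 44520365, nat_lit 22479635, nat_lit 0, nat_lit 3190084, false, true⟩,
 nat_lit 5560, nat_lit 0, nat_lit 0, nat_lit 0, nat_lit 4008, nat_lit 1982, nat_lit 505, nat_lit 0, nat_lit 0, nat_lit 309, nat_lit 0, nat_lit 0, nat_lit 0, nat_lit 0, nat_lit 0, nat_lit 320400, nat_lit 0, nat_lit 0, [(nat_lit 15, [(nat_lit 1, nat_lit 801)])],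
 ⟨p013_k55, nat_lit 0, nat_lit 0, nat_lit 306, nat_lit 0, nat_lit 366916, [nat_lit 2271298200, nat_lit 2804688801, nat_lit 3447013200], [], [nat_lit 27403269143, nat_lit 27739283791, nat_lit 28832131221, nat_lit 29170594600], nat_lit 1271250, nat_lit 1271250, nat_lit 1271250, nat_lit 1271250, nat_lit 0, nat_lit 0, [nat_lit 780000, nat_lit 1100000, nat_lit 1785000], [nat_lit 36, nat_lit 40, nat_lit 80, nat_lit 80, nat_lit 7, nat_lit 203, nat_lit 0, nat_lit 6]⟩, ⟨p013_k59, nat_lit 0, nat_lit 0, nat_lit 703, nat_lit 0, nat_lit 807695, [nat_lit 1585632000, nat_lit 1958558000, nat_lit 2797542000], [], [nat_lit 8381483613, nat_lit 8345819534, nat_lit 8596057624, nat_lit 8564874625], nat_lit 1184688, nat_lit 1271250, nat_lit 1271250, nat_lit 1271250, nat_lit 0, nat_lit 0, [nat_lit 1695000, nat_lit 1271250, nat_lit 1271250], [nat_lit 92, nat_lit 40, nat_lit 80, nat_lit 80, nat_lit 32, nat_lit 373,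 nat_lit 150, nat_lit 8]⟩,
 ⟨nat_lit 4472, nat_lit 4744, ⟨.ofNat (nat_lit 676866), .ofNat (nat_lit 739595), .ofNat (nat_lit 687610), .ofNat (nat_lit 750339), .ofNat (nat_lit 671583), .ofNat (nat_lit 732764), .ofNat (nat_lit 682366), .ofNat (nat_lit 743547)⟩, ⟨.ofNat (nat_lit 0), .ofNat (nat_lit 0), .ofNat (nat_lit 0), .ofNat (nat_lit 0), .ofNat (nat_lit 0), .ofNat (nat_lit 0), .ofNat (nat_lit 0), .ofNat (nat_lit 0)⟩⟩, [⟨nat_lit 13, nat_lit 82, nat_lit 68, nat_lit 100, nat_lit 107518228⟩]⟩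
noncomputable def p013_l209 : Lf2 := ⟨nat_lit 0, nat_lit 10, [nat_lit 0, nat_lit 5, nat_lit 5, nat_lit 20], false, nat_lit 0, nat_lit 0, nat_lit 0, nat_lit 0, ⟨nat_lit 278, nat_lit 722, nat_lit 0, nat_lit 8, nat_lit 300, nat_lit 0, nat_lit 0, nat_lit 0, nat_lit 0, nat_lit 0, nat_lit 0, nat_lit 0, nat_lit 42865481, nat_lit 24134519, nat_lit 0, nat_lit 3267713, true, true⟩,
 nat_lit 6637, nat_lit 0, nat_lit 0, nat_lit 0, nat_lit 4594, nat_lit 2523, nat_lit 0, nat_lit 0, nat_lit 0, nat_lit 469, nat_lit 0, nat_lit 0, nat_lit 0, nat_lit 0, nat_lit 0, nat_lit 534800, nat_lit 0, nat_lit 0, [(nat_lit 15, [(nat_lit 1, nat_lit 312), (nat_lit 2, nat_lit 410)])],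
 ⟨p013_k48, nat_lit 0, nat_lit 0, nat_lit 304, nat_lit 0, nat_lit 344845, [nat_lit 2355088800, nat_lit 2921717600, nat_lit 2677897067], [], [nat_lit 28906782391, nat_lit 29256615505, nat_lit 31288533775, nat_lit 31603556874], nat_lit 1271250, nat_lit 1271250, nat_lit 1271250, nat_lit 1271250, nat_lit 0, nat_lit 0, [nat_lit 780000, nat_lit 1100000, nat_lit 1785000], [nat_lit 36, nat_lit 40, nat_lit 80, nat_lit 80, nat_lit 7, nat_lit 203, nat_lit 0, nat_lit 6]⟩, ⟨p013_k60, nat_lit 0, nat_lit 0, nat_lit 632, nat_lit 0, nat_lit 674330, [nat_lit 2215104000, nat_lit 2736076000, nat_lit 3908124000], [], [nat_lit 11322673074, nat_lit 11274644258, nat_lit 11839908774, nat_lit 11770721821], nat_lit 1271250, nat_lit 1271250, nat_lit 1271250, nat_lit 1271250, nat_lit 0, nat_lit 0, [nat_lit 1695000, nat_lit 1271250, nat_lit 1271250], [nat_lit 92, nat_lit 40, nat_lit 80, nat_lit 80, nat_lit 32, nat_lit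 373, nat_lit 150, nat_lit 8]⟩,
 ⟨nat_lit 4743, nat_lit 5000, ⟨.ofNat (nat_lit 692854), .ofNat (nat_lit 792852), .ofNat (nat_lit 714280), .ofNat (nat_lit 814277), .ofNat (nat_lit 687608), .ofNat (nat_lit 785186), .ofNat (nat_lit 709094), .ofNat (nat_lit 806671)⟩, ⟨.ofNat (nat_lit 0), .ofNat (nat_lit 0), .ofNat (nat_lit 0), .ofNat (nat_lit 0), .ofNat (nat_lit 0), .ofNat (nat_lit 0), .ofNat (nat_lit 0), .ofNat (nat_lit 0)⟩⟩, [⟨nat_lit 13, nat_lit 85, nat_lit 57, nat_lit 100, nat_lit 83188634⟩]⟩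
noncomputable def p013_l210 : Lf2 := ⟨nat_lit 0, nat_lit 10, [nat_lit 0, nat_lit 5, nat_lit 5, nat_lit 20], false, nat_lit 0, nat_lit 0, nat_lit 0, nat_lit 0, ⟨nat_lit 225, nat_lit 775, nat_lit 0, nat_lit 8, nat_lit 295, nat_lit 0, nat_lit 0, nat_lit 0, nat_lit 0, nat_lit 0, nat_lit 0, nat_lit 0, nat_lit 43414900, nat_lit 23585100, nat_lit 0, nat_lit 3243429, true, true⟩,
 nat_lit 5537, nat_lit 0, nat_lit 0, nat_lit 0, nat_lit 3991, nat_lit 2105, nat_lit 493, nat_lit 0, nat_lit 0, nat_lit 361, nat_lit 0, nat_lit 0, nat_lit 0, nat_lit 0, nat_lit 0, nat_lit 310000, nat_lit 0, nat_lit 0, [(nat_lit 15, [(nat_lit 1, nat_lit 775)])],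
 ⟨p013_k55, nat_lit 0, nat_lit 0, nat_lit 313, nat_lit 0, nat_lit 382394, [nat_lit 2304105000, nat_lit 2865820000, nat_lit 3591230000], [], [nat_lit 27836156982, nat_lit 28171770753, nat_lit 29729475292, nat_lit 30032847108], nat_lit 1271250, nat_lit 1271250, nat_lit 1271250, nat_lit 1271250, nat_lit 0, nat_lit 0, [nat_lit 780000, nat_lit 1100000, nat_lit 1785000], [nat_lit 36, nat_lit 40, nat_lit 80, nat_lit 80, nat_lit 7, nat_lit 203, nat_lit 0, nat_lit 6]⟩, ⟨p013_k60, nat_lit 0, nat_lit 0, nat_lit 673, nat_lit 0, nat_lit 781396, [nat_lit 1792800000, nat_lit 2214450000, nat_lit 3163050000], [], [nat_lit 9304768740, nat_lit 9238383620, nat_lit 9557500891, nat_lit 9521814857], nat_lit 1271250, nat_lit 1271250, nat_lit 1271250, nat_lit 1271250, nat_lit 0, nat_lit 0, [nat_lit 1695000, nat_lit 1271250, nat_lit 1271250], [nat_lit 92, nat_lit 40, nat_lit 80, nat_lit 80, nat_lit 32, nat_lit 373,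 nat_lit 150, nat_lit 8]⟩,
 ⟨nat_lit 4472, nat_lit 4744, ⟨.ofNat (nat_lit 687610), .ofNat (nat_lit 771249), .ofNat (nat_lit 709096), .ofNat (nat_lit 792736), .ofNat (nat_lit 682366), .ofNat (nat_lit 763940), .ofNat (nat_lit 703932), .ofNat (nat_lit 785505)⟩, ⟨.ofNat (nat_lit 0), .ofNat (nat_lit 0), .ofNat (nat_lit 0), .ofNat (nat_lit 0), .ofNat (nat_lit 0), .ofNat (nat_lit 0), .ofNat (nat_lit 0), .ofNat (nat_lit 0)⟩⟩, [⟨nat_lit 13, nat_lit 80, nat_lit 68, nat_lit 100, nat_lit 82497318⟩]⟩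
noncomputable def p013_l211 : Lf2 := ⟨nat_lit 0, nat_lit 10, [nat_lit 0, nat_lit 5, nat_lit 5, nat_lit 20], true, nat_lit 0, nat_lit 0, nat_lit 0, nat_lit 0, ⟨nat_lit 0, nat_lit 1000, nat_lit 0, nat_lit 4, nat_lit 105, nat_lit 0, nat_lit 0, nat_lit 0, nat_lit 0, nat_lit 0, nat_lit 0, nat_lit 0, nat_lit 0, nat_lit 0, nat_lit 0, nat_lit 5000000, false, false⟩,
 nat_lit 0, nat_lit 8526, nat_lit 0, nat_lit 0, nat_lit 5425, nat_lit 0, nat_lit 143, nat_lit 0, nat_lit 0, nat_lit 0, nat_lit 0, nat_lit 0, nat_lit 0, nat_lit 0, nat_lit 12, nat_lit 1000000, nat_lit 0, nat_lit 0, [(nat_lit 12, [(nat_lit 2, nat_lit 1000)])],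
 ⟨p013_k43, nat_lit 0, nat_lit 0, nat_lit 711, nat_lit 0, nat_lit 856246, [nat_lit 2479200001, nat_lit 2186400000, nat_lit 42000000], [], [nat_lit 22554992966, nat_lit 23042730806, nat_lit 22952264704, nat_lit 21519946003], nat_lit 1271250, nat_lit 1271250, nat_lit 21650, nat_lit 1100001, nat_lit 0, nat_lit 0, [nat_lit 780000, nat_lit 1435000, nat_lit 1271250], [nat_lit 8, nat_lit 40, nat_lit 80, nat_lit 80, nat_lit 1, nat_lit 249, nat_lit 40, nat_lit 8]⟩, C1.Rw.none,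
 ⟨nat_lit 5000, nat_lit 5478, ⟨.ofNat (nat_lit 90113), .ofNat (nat_lit 382351), .ofNat (nat_lit 132827), .ofNat (nat_lit 425065), .ofNat (nat_lit 107141), .ofNat (nat_lit 385713), .ofNat (nat_lit 149999), .ofNat (nat_lit 428570)⟩, ⟨.ofNat (nat_lit 0), .ofNat (nat_lit 0), .ofNat (nat_lit 0), .ofNat (nat_lit 0), .ofNat (nat_lit 0), .ofNat (nat_lit 0), .ofNat (nat_lit 0), .ofNat (nat_lit 0)⟩⟩, [⟨nat_lit 0, nat_lit 100, nat_lit 87, nat_lit 50, nat_lit 26319368⟩]⟩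
noncomputable def p013_l212 : Lf2 := ⟨nat_lit 0, nat_lit 10, [nat_lit 0, nat_lit 5, nat_lit 5, nat_lit 20], true, nat_lit 0, nat_lit 0, nat_lit 0, nat_lit 0, ⟨nat_lit 0, nat_lit 1000, nat_lit 0, nat_lit 4, nat_lit 111, nat_lit 0, nat_lit 0, nat_lit 0, nat_lit 0, nat_lit 0, nat_lit 0, nat_lit 0, nat_lit 0, nat_lit 0, nat_lit 0, nat_lit 5000000, false, false⟩,
 nat_lit 0, nat_lit 6700, nat_lit 0, nat_lit 0, nat_lit 4638, nat_lit 0, nat_lit 881, nat_lit 0, nat_lit 0, nat_lit 0, nat_lit 0, nat_lit 0, nat_lit 0, nat_lit 0, nat_lit 0, nat_lit 400000, nat_lit 0, nat_lit 0, [(nat_lit 15, [(nat_lit 1, nat_lit 1000)])],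
 ⟨p013_k61, nat_lit 0, nat_lit 0, nat_lit 649, nat_lit 0, nat_lit 950266, [nat_lit 2112600000, nat_lit 2433300000], [], [nat_lit 22940606723, nat_lit 23215803121, nat_lit 23113617971, nat_lit 22298857032], nat_lit 1271250, nat_lit 1271250, nat_lit 43600, nat_lit 1100001, nat_lit 0, nat_lit 0, [nat_lit 780000, nat_lit 1762500], [nat_lit 74, nat_lit 40, nat_lit 80, nat_lit 80, nat_lit 43, nat_lit 249, nat_lit 40, nat_lit 9]⟩, C1.Rw.none,
 ⟨nat_lit 4472, nat_lit 5000, ⟨.ofNat (nat_lit 114284), .ofNat (nat_lit 385713), .ofNat (nat_lit 157141), .ofNat (nat_lit 428570), .ofNat (nat_lit 130570), .ofNat (nat_lit 388887), .ofNat (nat_lit 173703), .ofNat (nat_lit 432020)⟩, ⟨.ofNat (nat_lit 0), .ofNat (nat_lit 0), .ofNat (nat_lit 0), .ofNat (nat_lit 0), .ofNat (nat_lit 0), .ofNat (nat_lit 0), .ofNat (nat_lit 0), .ofNat (nat_lit 0)⟩⟩, []⟩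
noncomputable def p013_l213 : Lf2 := ⟨nat_lit 0, nat_lit 10, [nat_lit 0, nat_lit 5, nat_lit 5, nat_lit 20], true, nat_lit 0, nat_lit 0, nat_lit 0, nat_lit 0, ⟨nat_lit 0, nat_lit 1000, nat_lit 0, nat_lit 4, nat_lit 191, nat_lit 0, nat_lit 0, nat_lit 0, nat_lit 0, nat_lit 0, nat_lit 0, nat_lit 0, nat_lit 0, nat_lit 0, nat_lit 0, nat_lit 5000000, false, true⟩,
 nat_lit 0, nat_lit 8704, nat_lit 0, nat_lit 0, nat_lit 5538, nat_lit 0, nat_lit 177, nat_lit 0, nat_lit 0, nat_lit 0, nat_lit 0, nat_lit 0, nat_lit 0, nat_lit 0, nat_lit 12, nat_lit 1000000, nat_lit 0, nat_lit 0, [(nat_lit 12, [(nat_lit 2, nat_lit 1000)])],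
 ⟨p013_k42, nat_lit 0, nat_lit 0, nat_lit 593, nat_lit 0, nat_lit 856246, [nat_lit 2136960000, nat_lit 2804400000, nat_lit 42000000], [], [nat_lit 19167933568, nat_lit 20075186680, nat_lit 23545207297, nat_lit 21730948036], nat_lit 1271250, nat_lit 1271250, nat_lit 1100001, nat_lit 1785000, nat_lit 0, nat_lit 0, [nat_lit 780000, nat_lit 1100000, nat_lit 2127500], [nat_lit 42, nat_lit 40, nat_lit 80, nat_lit 80, nat_lit 13, nat_lit 272, nat_lit 60, nat_lit 8]⟩, C1.Rw.none,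
 ⟨nat_lit 5000, nat_lit 5478, ⟨.ofNat (nat_lit 382351), .ofNat (nat_lit 532217), .ofNat (nat_lit 425065), .ofNat (nat_lit 574920), .ofNat (nat_lit 385713), .ofNat (nat_lit 528570), .ofNat (nat_lit 428570), .ofNat (nat_lit 571415)⟩, ⟨.ofNat (nat_lit 0), .ofNat (nat_lit 0), .ofNat (nat_lit 0), .ofNat (nat_lit 0), .ofNat (nat_lit 0), .ofNat (nat_lit 0), .ofNat (nat_lit 0), .ofNat (nat_lit 0)⟩⟩, []⟩
noncomputable def p013_l214 : Lf2 := ⟨nat_lit 0, nat_lit 10, [nat_lit 0, nat_lit 5, nat_lit 5, nat_lit 20], false, nat_lit 0, nat_lit 0, nat_lit 0, nat_lit 0, ⟨nat_lit 714, nat_lit 286, nat_lit 0, nat_lit 6, nat_lit 273, nat_lit 0, nat_lit 0, nat_lit 0, nat_lit 0, nat_lit 0, nat_lit 0, nat_lit 0, nat_lit 0, nat_lit 0, nat_lit 0, nat_lit 5000000, false, true⟩,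
 nat_lit 0, nat_lit 9082, nat_lit 0, nat_lit 0, nat_lit 5779, nat_lit 6132, nat_lit 791, nat_lit 0, nat_lit 0, nat_lit 1631, nat_lit 0, nat_lit 0, nat_lit 0, nat_lit 0, nat_lit 0, nat_lit 286000, nat_lit 0, nat_lit 0, [(nat_lit 12, [(nat_lit 2, nat_lit 286)])],
 ⟨p013_k42, nat_lit 0, nat_lit 0, nat_lit 576, nat_lit 0, nat_lit 856246, [nat_lit 2913334560, nat_lit 4094378400, nat_lit 6943104000], [], [nat_lit 30320000919, nat_lit 30903670969, nat_lit 34331337951, nat_lit 34720964788], nat_lit 1271250, nat_lit 1271250, nat_lit 1271250, nat_lit 1271250, nat_lit 0, nat_lit 0, [nat_lit 780000, nat_lit 1100000, nat_lit 2127500], [nat_lit 42, nat_lit 40, nat_lit 80, nat_lit 80, nat_lit 13, nat_lit 317, nat_lit 100, nat_lit 9]⟩, ⟨p013_k45, nat_lit 0, nat_lit 0, nat_lit 307, nat_lit 0, nat_lit 0, [nat_lit 5689152000, nat_lit 7027188000, nat_lit 10037412000], [], [nat_lit 23589709535, nat_lit 23847861527,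 nat_lit 29645987668, nat_lit 29539782940], nat_lit 0, nat_lit 0, nat_lit 0, nat_lit 0, nat_lit 0, nat_lit 0, [], [nat_lit 92, nat_lit 40, nat_lit 80, nat_lit 80, nat_lit 32, nat_lit 373, nat_lit 150, nat_lit 9]⟩,
 ⟨nat_lit 5000, nat_lit 5478, ⟨.ofNat (nat_lit 532217), .ofNat (nat_lit 801938), .ofNat (nat_lit 574920), .ofNat (nat_lit 844633), .ofNat (nat_lit 528570), .ofNat (nat_lit 785675), .ofNat (nat_lit 571415), .ofNat (nat_lit 828512)⟩, ⟨.ofNat (nat_lit 0), .ofNat (nat_lit 0), .ofNat (nat_lit 0), .ofNat (nat_lit 0), .ofNat (nat_lit 0), .ofNat (nat_lit 0), .ofNat (nat_lit 0), .ofNat (nat_lit 0)⟩⟩, []⟩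
noncomputable def p013_l215 : Lf2 := ⟨nat_lit 0, nat_lit 10, [nat_lit 0, nat_lit 5, nat_lit 5, nat_lit 20], false, nat_lit 0, nat_lit 0, nat_lit 0, nat_lit 0, ⟨nat_lit 473, nat_lit 527, nat_lit 0, nat_lit 4, nat_lit 239, nat_lit 0, nat_lit 0, nat_lit 0, nat_lit 0, nat_lit 0, nat_lit 0, nat_lit 0, nat_lit 0, nat_lit 0, nat_lit 0, nat_lit 5000000, false, true⟩,
 nat_lit 0, nat_lit 6889, nat_lit 0, nat_lit 0, nat_lit 4769, nat_lit 3899, nat_lit 747, nat_lit 0, nat_lit 0, nat_lit 1001, nat_lit 0, nat_lit 0, nat_lit 0, nat_lit 0, nat_lit 0, nat_lit 210800, nat_lit 0, nat_lit 0, [(nat_lit 15, [(nat_lit 1, nat_lit 527)])],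
 ⟨p013_k48, nat_lit 0, nat_lit 0, nat_lit 554, nat_lit 0, nat_lit 950266, [nat_lit 2617031400, nat_lit 3448917601, nat_lit 4989396000], [], [nat_lit 27225587861, nat_lit 27881396929, nat_lit 34482657583, nat_lit 32631066420], nat_lit 1271250, nat_lit 1271250, nat_lit 1100001, nat_lit 2949500, nat_lit 0, nat_lit 0, [nat_lit 780000, nat_lit 1100000, nat_lit 1785000], [nat_lit 36, nat_lit 40, nat_lit 80, nat_lit 80, nat_lit 7, nat_lit 317, nat_lit 100, nat_lit 10]⟩, ⟨p013_k45, nat_lit 0, nat_lit 0, nat_lit 304, nat_lit 0, nat_lit 0, [nat_lit 3768864000, nat_lit 4655266000, nat_lit 6649434000], [], [nat_lit 15177450549, nat_lit 15471970833, nat_lit 19449397476, nat_lit 19364889868], nat_lit 0, nat_lit 0, nat_lit 0, nat_lit 0, nat_lit 0, nat_lit 0, [], [nat_lit 92, nat_lit 40, nat_lit 80, nat_lit 80, nat_lit 32, nat_lit 373, nat_lit 150, nat_lit 9]⟩,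
 ⟨nat_lit 4472, nat_lit 5000, ⟨.ofNat (nat_lit 385713), .ofNat (nat_lit 771425), .ofNat (nat_lit 428570), .ofNat (nat_lit 814263), .ofNat (nat_lit 388887), .ofNat (nat_lit 755968), .ofNat (nat_lit 432020), .ofNat (nat_lit 799081)⟩, ⟨.ofNat (nat_lit 0), .ofNat (nat_lit 0), .ofNat (nat_lit 0), .ofNat (nat_lit 0), .ofNat (nat_lit 0), .ofNat (nat_lit 0), .ofNat (nat_lit 0), .ofNat (nat_lit 0)⟩⟩, []⟩
noncomputable def p013_l216 : Lf2 := ⟨nat_lit 0, nat_lit 10, [nat_lit 0, nat_lit 5, nat_lit 5, nat_lit 20], true, nat_lit 0, nat_lit 0, nat_lit 0, nat_lit 0, ⟨nat_lit 0, nat_lit 1000, nat_lit 0, nat_lit 4, nat_lit 107, nat_lit 0, nat_lit 0, nat_lit 0, nat_lit 0, nat_lit 0, nat_lit 0, nat_lit 0, nat_lit 0, nat_lit 0, nat_lit 0, nat_lit 5000000, false, false⟩,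
 nat_lit 0, nat_lit 8226, nat_lit 0, nat_lit 0, nat_lit 5234, nat_lit 0, nat_lit 31, nat_lit 0, nat_lit 0, nat_lit 0, nat_lit 0, nat_lit 0, nat_lit 0, nat_lit 0, nat_lit 12, nat_lit 1000000, nat_lit 0, nat_lit 0, [(nat_lit 12, [(nat_lit 2, nat_lit 1000)]), (nat_lit 15, [(nat_lit 2, nat_lit 1000)])],
 ⟨p013_k43, nat_lit 0, nat_lit 0, nat_lit 786, nat_lit 0, nat_lit 1062115, [nat_lit 2479200001, nat_lit 2186400000, nat_lit 42000000], [], [nat_lit 23952842976, nat_lit 25211778008, nat_lit 23449391100, nat_lit 23751180500], nat_lit 1271250, nat_lit 1271250, nat_lit 21650, nat_lit 1100001, nat_lit 0, nat_lit 0, [nat_lit 780000, nat_lit 1435000, nat_lit 1271250], [nat_lit 8, nat_lit 40, nat_lit 80, nat_lit 80, nat_lit 1, nat_lit 257, nat_lit 40, nat_lit 8]⟩, C1.Rw.none,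
 ⟨nat_lit 4472, nat_lit 5478, ⟨.ofNat (nat_lit 90113), .ofNat (nat_lit 382351), .ofNat (nat_lit 132827), .ofNat (nat_lit 425065), .ofNat (nat_lit 123773), .ofNat (nat_lit 388887), .ofNat (nat_lit 166906), .ofNat (nat_lit 432020)⟩, ⟨.ofNat (nat_lit 0), .ofNat (nat_lit 0), .ofNat (nat_lit 0), .ofNat (nat_lit 0), .ofNat (nat_lit 0), .ofNat (nat_lit 0), .ofNat (nat_lit 0), .ofNat (nat_lit 0)⟩⟩, [⟨nat_lit 0, nat_lit 100, nat_lit 80, nat_lit 60, nat_lit 20119731⟩]⟩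
noncomputable def p013_l217 : Lf2 := ⟨nat_lit 0, nat_lit 10, [nat_lit 0, nat_lit 5, nat_lit 5, nat_lit 20], false, nat_lit 0, nat_lit 0, nat_lit 0, nat_lit 0, ⟨nat_lit 0, nat_lit 1000, nat_lit 0, nat_lit 4, nat_lit 243, nat_lit 0, nat_lit 0, nat_lit 0, nat_lit 0, nat_lit 0, nat_lit 0, nat_lit 0, nat_lit 0, nat_lit 0, nat_lit 0, nat_lit 5000000, false, true⟩,
 nat_lit 0, nat_lit 6397, nat_lit 0, nat_lit 0, nat_lit 4070, nat_lit 0, nat_lit 0, nat_lit 0, nat_lit 0, nat_lit 0, nat_lit 0, nat_lit 0, nat_lit 0, nat_lit 0, nat_lit 12, nat_lit 1000000, nat_lit 0, nat_lit 0, [(nat_lit 12, [(nat_lit 2, nat_lit 1000)]), (nat_lit 15, [(nat_lit 2, nat_lit 1000)])],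
 ⟨p013_k43, nat_lit 0, nat_lit 0, nat_lit 476, nat_lit 0, nat_lit 611111, [nat_lit 2479200001, nat_lit 2186400000, nat_lit 42000000], [], [nat_lit 26179713481, nat_lit 25673715682, nat_lit 32097155996, nat_lit 31450747739], nat_lit 1271250, nat_lit 1271250, nat_lit 1100001, nat_lit 3018000, nat_lit 0, nat_lit 0, [nat_lit 780000, nat_lit 1435000, nat_lit 1271250], [nat_lit 8, nat_lit 40, nat_lit 80, nat_lit 80, nat_lit 1, nat_lit 317, nat_lit 100, nat_lit 9]⟩, ⟨p013_k49, nat_lit 0, nat_lit 0, nat_lit 978, nat_lit 0, nat_lit 1270704, [nat_lit 0, nat_lit 0, nat_lit 0], [], [nat_lit 0, nat_lit 0, nat_lit 0, nat_lit 0], nat_lit 1100001, nat_lit 1442500, nat_lit 1100001, nat_lit 3018000, nat_lit 0, nat_lit 0, [nat_lit 1695000, nat_lit 1271250, nat_lit 1271250], [nat_lit 62, nat_lit 40, nat_lit 80, nat_lit 80, nat_lit 58, nat_lit 373, nat_lit 150, nat_lit 9]⟩,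
 ⟨nat_lit 4472, nat_lit 5478, ⟨.ofNat (nat_lit 382351), .ofNat (nat_lit 801872), .ofNat (nat_lit 425065), .ofNat (nat_lit 844520), .ofNat (nat_lit 388887), .ofNat (nat_lit 769461), .ofNat (nat_lit 432020), .ofNat (nat_lit 812527)⟩, ⟨.ofNat (nat_lit 0), .ofNat (nat_lit 0), .ofNat (nat_lit 0), .ofNat (nat_lit 0), .ofNat (nat_lit 0), .ofNat (nat_lit 0), .ofNat (nat_lit 0), .ofNat (nat_lit 0)⟩⟩, [⟨nat_lit 13, nat_lit 87, nat_lit 59, nat_lit 100, nat_lit 32168933⟩, ⟨nat_lit 13, nat_lit 92, nat_lit 40, nat_lit 100, nat_lit 187275792⟩]⟩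
noncomputable def b_N_700_400_0_1 : St := ⟨false, nat_lit 1, nat_lit 2, nat_lit 0, nat_lit 40, nat_lit 280, nat_lit 320, nat_lit 160, nat_lit 200, nat_lit 4, nat_lit 384, nat_lit 0, nat_lit 0, nat_lit 0, nat_lit 0, nat_lit 0, nat_lit 0, nat_lit 0, nat_lit 40, nat_lit 0, nat_lit 0, nat_lit 0, nat_lit 0⟩
theorem d_N_700_400_0_1 (h : EB TB.env) : Dead b_N_700_400_0_1 := chkB_sound0 h (T :=
(.gv
(.st (nat_lit 1)
(.spl (nat_lit 2) (nat_lit 160)
(.spl (nat_lit 2) (nat_lit 80)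
(.spl (nat_lit 2) (nat_lit 40)
(.leaf p013_l179)
(.leaf p013_l180))
(.spl (nat_lit 0) (nat_lit 300)
(.spl (nat_lit 0) (nat_lit 290)
(.spl (nat_lit 2) (nat_lit 120)
(.leaf p013_l181)
(.leaf p013_l182))
(.leaf p013_l183))
(.spl (nat_lit 6) (nat_lit 20)
(.leaf p013_l184)
(.leaf p013_l185))))
(.spl (nat_lit 2) (nat_lit 240)
(.spl (nat_lit 0) (nat_lit 300)
(.leaf p013_l186)
(.leaf p013_l187))
(.spl (nat_lit 0) (nat_lit 300)
(.leaf p013_l188)
(.trX (nat_lit 13) (nat_lit 87) (nat_lit 50) (nat_lit 100) (nat_lit 376) (.leaf p013_l189)))))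
(.spl (nat_lit 2) (nat_lit 160)
(.leaf p013_l190)
(.spl (nat_lit 2) (nat_lit 240)
(.spl (nat_lit 0) (nat_lit 300)
(.leaf p013_l191)
(.leaf p013_l192))
(.spl (nat_lit 0) (nat_lit 300)
(.spl (nat_lit 2) (nat_lit 320)
(.leaf p013_l193)
(.spl (nat_lit 0) (nat_lit 290)
(.spl (nat_lit 6) (nat_lit 20)
(.leaf p013_l194)
(.spl (nat_lit 0) (nat_lit 285)
(.leaf p013_l195)
(.leaf p013_l196)))
(.trX (nat_lit 13) (nat_lit 89) (nat_lit 45) (nat_lit 100) (nat_lit 380) (.spl (nat_lit 6) (nat_lit 20)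
(.leaf p013_l197)
(.spl (nat_lit 0) (nat_lit 295)
(.leaf p013_l198)
(.trX (nat_lit 13) (nat_lit 88) (nat_lit 48) (nat_lit 100) (nat_lit 376) (.leaf p013_l199)))))))
(.trX (nat_lit 13) (nat_lit 87) (nat_lit 50) (nat_lit 100) (nat_lit 376) (.spl (nat_lit 2) (nat_lit 320)
(.spl (nat_lit 0) (nat_lit 310)
(.leaf p013_l200)
(.leaf p013_l201))
(.spl (nat_lit 6) (nat_lit 20)
(.spl (nat_lit 0) (nat_lit 310)
(.leaf p013_l202)
(.trX (nat_lit 13) (nat_lit 84) (nat_lit 55) (nat_lit 100) (nat_lit 368) (.leaf p013_l203)))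
(.spl (nat_lit 1) (nat_lit 180)
(.trX (nat_lit 13) (nat_lit 87) (nat_lit 59) (nat_lit 100) (nat_lit 364) (.spl (nat_lit 0) (nat_lit 310)
(.spl (nat_lit 0) (nat_lit 305)
(.leaf p013_l204)
(.trX (nat_lit 13) (nat_lit 86) (nat_lit 61) (nat_lit 100) (nat_lit 360) (.leaf p013_l205)))
(.trX (nat_lit 13) (nat_lit 84) (nat_lit 63) (nat_lit 100) (nat_lit 356) (.spl (nat_lit 1) (nat_lit 170)
(.trX (nat_lit 13) (nat_lit 84) (nat_lit 68) (nat_lit 100) (nat_lit 352) (.spl (nat_lit 0) (nat_lit 315)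
(.leaf p013_l206)
(.trX (nat_lit 13) (nat_lit 83) (nat_lit 70) (nat_lit 100) (nat_lit 348) (.leaf p013_l207))))
(.leaf p013_l208)))))
(.spl (nat_lit 0) (nat_lit 310)
(.leaf p013_l209)
(.trX (nat_lit 13) (nat_lit 84) (nat_lit 55) (nat_lit 100) (nat_lit 368) (.leaf p013_l210)))))))))))
(.st (nat_lit 1)
(.spl (nat_lit 2) (nat_lit 160)
(.spl (nat_lit 0) (nat_lit 300)
(.leaf p013_l211)
(.trZ (nat_lit 0) (nat_lit 100) (nat_lit 88) (nat_lit 32) (nat_lit 8) (.leaf p013_l212)))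
(.spl (nat_lit 0) (nat_lit 300)
(.spl (nat_lit 2) (nat_lit 240)
(.leaf p013_l213)
(.leaf p013_l214))
(.trX (nat_lit 13) (nat_lit 87) (nat_lit 50) (nat_lit 100) (nat_lit 376) (.leaf p013_l215))))
(.spl (nat_lit 2) (nat_lit 160)
(.leaf p013_l216)
(.leaf p013_l217))))) (by decide +kernel)
noncomputable def p013_l218 : Lf2 := ⟨nat_lit 0, nat_lit 10, [nat_lit 0, nat_lit 5, nat_lit 5, nat_lit 20], true, nat_lit 0, nat_lit 0, nat_lit 0, nat_lit 0, ⟨nat_lit 0, nat_lit 0, nat_lit 1000, nat_lit 4, nat_lit 107, nat_lit 0, nat_lit 0, nat_lit 0, nat_lit 0, nat_lit 215, nat_lit 106667, nat_lit 295, nat_lit 62518302, nat_lit 0, nat_lit 0, nat_lit 1227603, false, false⟩,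
 nat_lit 0, nat_lit 0, nat_lit 0, nat_lit 4564, nat_lit 2980, nat_lit 0, nat_lit 132, nat_lit 0, nat_lit 0, nat_lit 0, nat_lit 0, nat_lit 0, nat_lit 0, nat_lit 0, nat_lit 86, nat_lit 400000, nat_lit 0, nat_lit 0, [(nat_lit 12, [(nat_lit 5, nat_lit 1000)]), (nat_lit 15, [(nat_lit 5, nat_lit 1000)])],
 ⟨p013_k43, nat_lit 0, nat_lit 0, nat_lit 318, nat_lit 0, nat_lit 0, [nat_lit 2347200000, nat_lit 1180400000, nat_lit 174400000], [], [nat_lit 16842667812, nat_lit 18864884496, nat_lit 17000604340, nat_lit 18874436020], nat_lit 0, nat_lit 0, nat_lit 0, nat_lit 0, nat_lit 0, nat_lit 0, [], [nat_lit 8, nat_lit 40, nat_lit 80, nat_lit 80, nat_lit 1, nat_lit 249, nat_lit 40, nat_lit 8]⟩, C1.Rw.none,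
 ⟨nat_lit 4472, nat_lit 5478, ⟨.ofNat (nat_lit 90113), .ofNat (nat_lit 382351), .ofNat (nat_lit 132827), .ofNat (nat_lit 425065), .ofNat (nat_lit 123773), .ofNat (nat_lit 388887), .ofNat (nat_lit 166906), .ofNat (nat_lit 432020)⟩, ⟨.ofNat (nat_lit 0), .ofNat (nat_lit 0), .ofNat (nat_lit 0), .ofNat (nat_lit 0), .ofNat (nat_lit 0), .ofNat (nat_lit 0), .ofNat (nat_lit 0), .ofNat (nat_lit 0)⟩⟩, [⟨nat_lit 0, nat_lit 100, nat_lit 80, nat_lit 60, nat_lit 86549515⟩]⟩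
noncomputable def p013_l219 : Lf2 := ⟨nat_lit 0, nat_lit 10, [nat_lit 0, nat_lit 5, nat_lit 5, nat_lit 20], false, nat_lit 0, nat_lit 0, nat_lit 0, nat_lit 0, ⟨nat_lit 1000, nat_lit 0, nat_lit 0, nat_lit 0, nat_lit 0, nat_lit 0, nat_lit 0, nat_lit 0, nat_lit 0, nat_lit 0, nat_lit 0, nat_lit 0, nat_lit 0, nat_lit 0, nat_lit 0, nat_lit 0, false, false⟩,
 nat_lit 0, nat_lit 0, nat_lit 0, nat_lit 1563, nat_lit 5174, nat_lit 10631, nat_lit 0, nat_lit 0, nat_lit 0, nat_lit 0, nat_lit 0, nat_lit 0, nat_lit 0, nat_lit 0, nat_lit 0, nat_lit 0, nat_lit 0, nat_lit 0, [],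
 ⟨p013_k43, nat_lit 0, nat_lit 0, nat_lit 214, nat_lit 0, nat_lit 0, [nat_lit 3282000000, nat_lit 6250000000, nat_lit 9842000000], [], [nat_lit 29001799736, nat_lit 31653581800, nat_lit 39796175297, nat_lit 41409812301], nat_lit 0, nat_lit 0, nat_lit 0, nat_lit 0, nat_lit 0, nat_lit 0, [], [nat_lit 8, nat_lit 40, nat_lit 80, nat_lit 80, nat_lit 1, nat_lit 317, nat_lit 100, nat_lit 9]⟩, ⟨p013_k49, nat_lit 0, nat_lit 0, nat_lit 328, nat_lit 0, nat_lit 0, [nat_lit 7968000000, nat_lit 11872000000, nat_lit 14058000000], [], [nat_lit 38732161072, nat_lit 39261880028, nat_lit 52983343561, nat_lit 52592376210], nat_lit 0, nat_lit 0, nat_lit 0, nat_lit 0, nat_lit 0, nat_lit 0, [], [nat_lit 62, nat_lit 40, nat_lit 80, nat_lit 80, nat_lit 58, nat_lit 373, nat_lit 150, nat_lit 9]⟩,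
 zbF0, []⟩
noncomputable def p013_l220 : Lf2 := ⟨nat_lit 0, nat_lit 10, [nat_lit 0, nat_lit 5, nat_lit 5, nat_lit 20], true, nat_lit 0, nat_lit 0, nat_lit 0, nat_lit 0, ⟨nat_lit 0, nat_lit 0, nat_lit 1000, nat_lit 4, nat_lit 107, nat_lit 0, nat_lit 0, nat_lit 0, nat_lit 0, nat_lit 215, nat_lit 106667, nat_lit 295, nat_lit 62518302, nat_lit 0, nat_lit 0, nat_lit 1227603, false, false⟩,
 nat_lit 0, nat_lit 0, nat_lit 0, nat_lit 4104, nat_lit 3304, nat_lit 0, nat_lit 0, nat_lit 0, nat_lit 0, nat_lit 0, nat_lit 0, nat_lit 0, nat_lit 0, nat_lit 0, nat_lit 99, nat_lit 464200, nat_lit 0, nat_lit 0, [(nat_lit 12, [(nat_lit 5, nat_lit 893), (nat_lit 6, nat_lit 107)]), (nat_lit 15, [(nat_lit 5, nat_lit 893), (nat_lit 6, nat_lit 107)])],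
 ⟨p013_k40, nat_lit 0, nat_lit 0, nat_lit 307, nat_lit 0, nat_lit 0, [nat_lit 2597830800, nat_lit 215131600], [], [nat_lit 17735130536, nat_lit 19924228925, nat_lit 17193769744, nat_lit 19076986896], nat_lit 0, nat_lit 0, nat_lit 0, nat_lit 0, nat_lit 0, nat_lit 0, [], [nat_lit 82, nat_lit 40, nat_lit 80, nat_lit 80, nat_lit 63, nat_lit 249, nat_lit 40, nat_lit 8]⟩, C1.Rw.none,
 ⟨nat_lit 4472, nat_lit 5478, ⟨.ofNat (nat_lit 90113), .ofNat (nat_lit 382351), .ofNat (nat_lit 132827), .ofNat (nat_lit 425065), .ofNat (nat_lit 123773), .ofNat (nat_lit 388887), .ofNat (nat_lit 166906), .ofNat (nat_lit 432020)⟩, ⟨.ofNat (nat_lit 0), .ofNat (nat_lit 0), .ofNat (nat_lit 0), .ofNat (nat_lit 0), .ofNat (nat_lit 0), .ofNat (nat_lit 0), .ofNat (nat_lit 0), .ofNat (nat_lit 0)⟩⟩, [⟨nat_lit 0, nat_lit 100, nat_lit 87, nat_lit 41, nat_lit 111119538⟩]⟩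
noncomputable def p013_l221 : Lf2 := ⟨nat_lit 0, nat_lit 10, [nat_lit 0, nat_lit 5, nat_lit 5, nat_lit 20], true, nat_lit 0, nat_lit 0, nat_lit 0, nat_lit 0, ⟨nat_lit 0, nat_lit 0, nat_lit 1000, nat_lit 4, nat_lit 191, nat_lit 0, nat_lit 0, nat_lit 0, nat_lit 0, nat_lit 215, nat_lit 5017, nat_lit 222, nat_lit 54516379, nat_lit 0, nat_lit 0, nat_lit 2404232, false, true⟩,
 nat_lit 0, nat_lit 0, nat_lit 0, nat_lit 1512, nat_lit 4208, nat_lit 0, nat_lit 0, nat_lit 0, nat_lit 0, nat_lit 0, nat_lit 0, nat_lit 0, nat_lit 0, nat_lit 0, nat_lit 57, nat_lit 250000, nat_lit 0, nat_lit 0, [(nat_lit 12, [(nat_lit 4, nat_lit 1000)]), (nat_lit 15, [(nat_lit 4, nat_lit 1000)])],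
 ⟨p013_k40, nat_lit 0, nat_lit 0, nat_lit 163, nat_lit 0, nat_lit 0, [nat_lit 3096000001, nat_lit 120400000], [], [nat_lit 17709716513, nat_lit 20104797601, nat_lit 20132785761, nat_lit 22195910593], nat_lit 0, nat_lit 0, nat_lit 0, nat_lit 0, nat_lit 0, nat_lit 0, [], [nat_lit 82, nat_lit 40, nat_lit 80, nat_lit 80, nat_lit 63, nat_lit 272, nat_lit 60, nat_lit 8]⟩, C1.Rw.none,
 ⟨nat_lit 4472, nat_lit 5478, ⟨.ofNat (nat_lit 382351), .ofNat (nat_lit 532217), .ofNat (nat_lit 425065), .ofNat (nat_lit 574895), .ofNat (nat_lit 388887), .ofNat (nat_lit 524844), .ofNat (nat_lit 432020), .ofNat (nat_lit 567940)⟩, ⟨.ofNat (nat_lit 0), .ofNat (nat_lit 0), .ofNat (nat_lit 0), .ofNat (nat_lit 0), .ofNat (nat_lit 0), .ofNat (nat_lit 0), .ofNat (nat_lit 0), .ofNat (nat_lit 0)⟩⟩, []⟩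
noncomputable def p013_l222 : Lf2 := ⟨nat_lit 0, nat_lit 10, [nat_lit 0, nat_lit 5, nat_lit 5, nat_lit 20], true, nat_lit 0, nat_lit 0, nat_lit 0, nat_lit 0, ⟨nat_lit 0, nat_lit 23, nat_lit 977, nat_lit 6, nat_lit 250, nat_lit 0, nat_lit 0, nat_lit 0, nat_lit 0, nat_lit 215, nat_lit 178270, nat_lit 200, nat_lit 48181930, nat_lit 18818070, nat_lit 0, nat_lit 2968849, false, true⟩,
 nat_lit 0, nat_lit 0, nat_lit 0, nat_lit 3695, nat_lit 2939, nat_lit 0, nat_lit 0, nat_lit 0, nat_lit 0, nat_lit 0, nat_lit 0, nat_lit 0, nat_lit 0, nat_lit 0, nat_lit 90, nat_lit 396550, nat_lit 0, nat_lit 0, [(nat_lit 12, [(nat_lit 0, nat_lit 23), (nat_lit 5, nat_lit 977)])],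
 ⟨p013_k42, nat_lit 0, nat_lit 0, nat_lit 180, nat_lit 0, nat_lit 0, [nat_lit 2346633600, nat_lit 1913088800, nat_lit 196080800], [], [nat_lit 19214298480, nat_lit 20114199608, nat_lit 22364931248, nat_lit 23126646760], nat_lit 0, nat_lit 0, nat_lit 0, nat_lit 0, nat_lit 0, nat_lit 0, [], [nat_lit 42, nat_lit 40, nat_lit 80, nat_lit 80, nat_lit 13, nat_lit 317, nat_lit 100, nat_lit 9]⟩, C1.Rw.none,
 ⟨nat_lit 5000, nat_lit 5478, ⟨.ofNat (nat_lit 532217), .ofNat (nat_lit 682065), .ofNat (nat_lit 574920), .ofNat (nat_lit 724760), .ofNat (nat_lit 528570), .ofNat (nat_lit 671409), .ofNat (nat_lit 571415), .ofNat (nat_lit 714246)⟩, ⟨.ofNat (nat_lit 0), .ofNat (nat_lit 0), .ofNat (nat_lit 0), .ofNat (nat_lit 0), .ofNat (nat_lit 0), .ofNat (nat_lit 0), .ofNat (nat_lit 0), .ofNat (nat_lit 0)⟩⟩, []⟩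
noncomputable def p013_l223 : Lf2 := ⟨nat_lit 0, nat_lit 10, [nat_lit 0, nat_lit 5, nat_lit 5, nat_lit 20], true, nat_lit 0, nat_lit 0, nat_lit 0, nat_lit 0, ⟨nat_lit 0, nat_lit 1000, nat_lit 0, nat_lit 6, nat_lit 247, nat_lit 0, nat_lit 0, nat_lit 0, nat_lit 0, nat_lit 0, nat_lit 0, nat_lit 0, nat_lit 48487325, nat_lit 18512675, nat_lit 0, nat_lit 2947164, false, true⟩,
 nat_lit 0, nat_lit 0, nat_lit 0, nat_lit 752, nat_lit 3952, nat_lit 0, nat_lit 0, nat_lit 0, nat_lit 0, nat_lit 0, nat_lit 0, nat_lit 0, nat_lit 0, nat_lit 0, nat_lit 0, nat_lit 250000, nat_lit 0, nat_lit 0, [(nat_lit 15, [(nat_lit 0, nat_lit 1000)])],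
 ⟨p013_k61, nat_lit 0, nat_lit 0, nat_lit 154, nat_lit 0, nat_lit 0, [nat_lit 2318400000, nat_lit 3071600000], [], [nat_lit 24117510816, nat_lit 25218049152, nat_lit 27720581760, nat_lit 28627870272], nat_lit 0, nat_lit 0, nat_lit 0, nat_lit 0, nat_lit 0, nat_lit 0, [], [nat_lit 74, nat_lit 40, nat_lit 80, nat_lit 80, nat_lit 43, nat_lit 203, nat_lit 0, nat_lit 6]⟩, C1.Rw.none,
 ⟨nat_lit 4472, nat_lit 5000, ⟨.ofNat (nat_lit 528570), .ofNat (nat_lit 671427), .ofNat (nat_lit 571423), .ofNat (nat_lit 714270), .ofNat (nat_lit 524844), .ofNat (nat_lit 660800), .ofNat (nat_lit 567973), .ofNat (nat_lit 703919)⟩, ⟨.ofNat (nat_lit 0), .ofNat (nat_lit 0), .ofNat (nat_lit 0), .ofNat (nat_lit 0), .ofNat (nat_lit 0), .ofNat (nat_lit 0), .ofNat (nat_lit 0), .ofNat (nat_lit 0)⟩⟩, []⟩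
noncomputable def p013_l224 : Lf2 := ⟨nat_lit 0, nat_lit 10, [nat_lit 0, nat_lit 5, nat_lit 5, nat_lit 20], false, nat_lit 0, nat_lit 0, nat_lit 0, nat_lit 0, ⟨nat_lit 46, nat_lit 954, nat_lit 0, nat_lit 8, nat_lit 297, nat_lit 0, nat_lit 0, nat_lit 0, nat_lit 0, nat_lit 0, nat_lit 0, nat_lit 0, nat_lit 43145237, nat_lit 23854763, nat_lit 0, nat_lit 3255531, false, true⟩,
 nat_lit 0, nat_lit 0, nat_lit 1561, nat_lit 0, nat_lit 3559, nat_lit 520, nat_lit 347, nat_lit 0, nat_lit 0, nat_lit 29, nat_lit 0, nat_lit 0, nat_lit 0, nat_lit 0, nat_lit 0, nat_lit 381600, nat_lit 0, nat_lit 0, [(nat_lit 12, [(nat_lit 1, nat_lit 954)])],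
 ⟨p013_k43, nat_lit 0, nat_lit 0, nat_lit 206, nat_lit 0, nat_lit 0, [nat_lit 2124225600, nat_lit 2883524800, nat_lit 2967857600], [], [nat_lit 25958068263, nat_lit 26158850177, nat_lit 28759100570, nat_lit 28951465060], nat_lit 0, nat_lit 0, nat_lit 0, nat_lit 0, nat_lit 0, nat_lit 0, [], [nat_lit 8, nat_lit 40, nat_lit 80, nat_lit 80, nat_lit 1, nat_lit 203, nat_lit 0, nat_lit 5]⟩, ⟨p013_k49, nat_lit 0, nat_lit 0, nat_lit 562, nat_lit 0, nat_lit 463835, [nat_lit 366528000, nat_lit 546112000, nat_lit 646668000], [], [nat_lit 2303174867, nat_lit 2282350715, nat_lit 2386933009, nat_lit 2362248262], nat_lit 1100001, nat_lit 1271250, nat_lit 1271250, nat_lit 1271250, nat_lit 0, nat_lit 0, [nat_lit 1695000, nat_lit 1271250, nat_lit 1271250], [nat_lit 62, nat_lit 40, nat_lit 80, nat_lit 80, nat_lit 58, nat_lit 373, nat_lit 150, nat_lit 8]⟩,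
 ⟨nat_lit 5361, nat_lit 5478, ⟨.ofNat (nat_lit 682082), .ofNat (nat_lit 786987), .ofNat (nat_lit 703439), .ofNat (nat_lit 808344), .ofNat (nat_lit 679406), .ofNat (nat_lit 783074), .ofNat (nat_lit 700775), .ofNat (nat_lit 804443)⟩, ⟨.ofNat (nat_lit 0), .ofNat (nat_lit 0), .ofNat (nat_lit 0), .ofNat (nat_lit 0), .ofNat (nat_lit 0), .ofNat (nat_lit 0), .ofNat (nat_lit 0), .ofNat (nat_lit 0)⟩⟩, [⟨nat_lit 13, nat_lit 92, nat_lit 49, nat_lit 100, nat_lit 163009799⟩]⟩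
noncomputable def p013_l225 : Lf2 := ⟨nat_lit 0, nat_lit 10, [nat_lit 0, nat_lit 5, nat_lit 5, nat_lit 20], true, nat_lit 0, nat_lit 0, nat_lit 0, nat_lit 0, ⟨nat_lit 0, nat_lit 1000, nat_lit 0, nat_lit 8, nat_lit 295, nat_lit 0, nat_lit 0, nat_lit 0, nat_lit 0, nat_lit 0, nat_lit 0, nat_lit 0, nat_lit 43433398, nat_lit 23566602, nat_lit 0, nat_lit 3242585, false, true⟩,
 nat_lit 0, nat_lit 0, nat_lit 0, nat_lit 0, nat_lit 3514, nat_lit 0, nat_lit 327, nat_lit 0, nat_lit 0, nat_lit 0, nat_lit 0, nat_lit 0, nat_lit 0, nat_lit 0, nat_lit 0, nat_lit 400000, nat_lit 0, nat_lit 0, [(nat_lit 12, [(nat_lit 1, nat_lit 1000)])],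
 ⟨p013_k62, nat_lit 0, nat_lit 0, nat_lit 205, nat_lit 0, nat_lit 0, [nat_lit 2068400000, nat_lit 2721200001, nat_lit 2642799999], [], [nat_lit 25798725966, nat_lit 25998704810, nat_lit 28362283536, nat_lit 28564366219], nat_lit 0, nat_lit 0, nat_lit 0, nat_lit 0, nat_lit 0, nat_lit 0, [], [nat_lit 8, nat_lit 40, nat_lit 80, nat_lit 80, nat_lit 1, nat_lit 203, nat_lit 0, nat_lit 5]⟩, C1.Rw.none,
 ⟨nat_lit 5244, nat_lit 5362, ⟨.ofNat (nat_lit 679407), .ofNat (nat_lit 775670), .ofNat (nat_lit 700776), .ofNat (nat_lit 797039), .ofNat (nat_lit 676740), .ofNat (nat_lit 771862), .ofNat (nat_lit 698125), .ofNat (nat_lit 793247)⟩, ⟨.ofNat (nat_lit 0), .ofNat (nat_lit 0), .ofNat (nat_lit 0), .ofNat (nat_lit 0), .ofNat (nat_lit 0), .ofNat (nat_lit 0), .ofNat (nat_lit 0), .ofNat (nat_lit 0)⟩⟩, [⟨nat_lit 13, nat_lit 91, nat_lit 52, nat_lit 100, nat_lit 178236111⟩]⟩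
noncomputable def p013_l226 : Lf2 := ⟨nat_lit 0, nat_lit 10, [nat_lit 0, nat_lit 5, nat_lit 5, nat_lit 20], false, nat_lit 0, nat_lit 0, nat_lit 0, nat_lit 0, ⟨nat_lit 1000, nat_lit 0, nat_lit 0, nat_lit 0, nat_lit 0, nat_lit 0, nat_lit 0, nat_lit 0, nat_lit 0, nat_lit 0, nat_lit 0, nat_lit 0, nat_lit 0, nat_lit 0, nat_lit 0, nat_lit 0, false, false⟩,
 nat_lit 0, nat_lit 0, nat_lit 26085, nat_lit 0, nat_lit 4598, nat_lit 8694, nat_lit 899, nat_lit 0, nat_lit 0, nat_lit 763, nat_lit 0, nat_lit 0, nat_lit 0, nat_lit 0, nat_lit 0, nat_lit 0, nat_lit 0, nat_lit 0, [],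
 ⟨p013_k43, nat_lit 0, nat_lit 0, nat_lit 206, nat_lit 0, nat_lit 0, [nat_lit 3282000000, nat_lit 6250000000, nat_lit 9842000000], [], [nat_lit 29894974111, nat_lit 30114298019, nat_lit 33031608821, nat_lit 33215959195], nat_lit 0, nat_lit 0, nat_lit 0, nat_lit 0, nat_lit 0, nat_lit 0, [], [nat_lit 8, nat_lit 40, nat_lit 80, nat_lit 80, nat_lit 1, nat_lit 203, nat_lit 0, nat_lit 5]⟩, ⟨p013_k49, nat_lit 0, nat_lit 0, nat_lit 406, nat_lit 0, nat_lit 126551, [nat_lit 7968000000, nat_lit 11872000000, nat_lit 14058000000], [], [nat_lit 48673040144, nat_lit 48547378124, nat_lit 51316036141, nat_lit 51091294937], nat_lit 1100001, nat_lit 1271250, nat_lit 1271250, nat_lit 1271250, nat_lit 0, nat_lit 0, [nat_lit 1695000, nat_lit 1271250, nat_lit 1271250], [nat_lit 62, nat_lit 40, nat_lit 80, nat_lit 80, nat_lit 58, nat_lit 373, nat_lit 150, nat_lit 8]⟩,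
 zbF0, [⟨nat_lit 13, nat_lit 92, nat_lit 61, nat_lit 100, nat_lit 9246391⟩]⟩
noncomputable def p013_l227 : Lf2 := ⟨nat_lit 0, nat_lit 10, [nat_lit 0, nat_lit 5, nat_lit 5, nat_lit 20], false, nat_lit 0, nat_lit 0, nat_lit 0, nat_lit 0, ⟨nat_lit 128, nat_lit 872, nat_lit 0, nat_lit 8, nat_lit 295, nat_lit 0, nat_lit 0, nat_lit 0, nat_lit 0, nat_lit 0, nat_lit 0, nat_lit 0, nat_lit 43433398, nat_lit 23566602, nat_lit 0, nat_lit 3242585, false, true⟩,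
 nat_lit 0, nat_lit 0, nat_lit 3107, nat_lit 0, nat_lit 3643, nat_lit 1035, nat_lit 397, nat_lit 0, nat_lit 0, nat_lit 87, nat_lit 0, nat_lit 0, nat_lit 0, nat_lit 0, nat_lit 0, nat_lit 348800, nat_lit 0, nat_lit 0, [(nat_lit 12, [(nat_lit 1, nat_lit 872)])],
 ⟨p013_k62, nat_lit 0, nat_lit 0, nat_lit 205, nat_lit 0, nat_lit 0, [nat_lit 2223740800, nat_lit 3172886400, nat_lit 3558716800], [], [nat_lit 26326487379, nat_lit 26528768357, nat_lit 28925350676, nat_lit 29104371294], nat_lit 0, nat_lit 0, nat_lit 0, nat_lit 0, nat_lit 0, nat_lit 0, [], [nat_lit 8, nat_lit 40, nat_lit 80, nat_lit 80, nat_lit 1, nat_lit 203, nat_lit 0, nat_lit 5]⟩, ⟨p013_k49, nat_lit 0, nat_lit 0, nat_lit 471, nat_lit 0, nat_lit 287523, [nat_lit 1019904000, nat_lit 1519616000, nat_lit 1799424000], [], [nat_lit 6416531522, nat_lit 6390660342, nat_lit 6650487079, nat_lit 6620348482], nat_lit 1100001, nat_lit 1271250,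 nat_lit 1271250, nat_lit 1271250, nat_lit 0, nat_lit 0, [nat_lit 1695000, nat_lit 1271250, nat_lit 1271250], [nat_lit 62, nat_lit 40, nat_lit 80, nat_lit 80, nat_lit 58, nat_lit 373, nat_lit 150, nat_lit 8]⟩,
 ⟨nat_lit 5244, nat_lit 5362, ⟨.ofNat (nat_lit 679407), .ofNat (nat_lit 775670), .ofNat (nat_lit 700776), .ofNat (nat_lit 797039), .ofNat (nat_lit 676740), .ofNat (nat_lit 771862), .ofNat (nat_lit 698125), .ofNat (nat_lit 793247)⟩, ⟨.ofNat (nat_lit 0), .ofNat (nat_lit 0), .ofNat (nat_lit 0), .ofNat (nat_lit 0), .ofNat (nat_lit 0), .ofNat (nat_lit 0), .ofNat (nat_lit 0), .ofNat (nat_lit 0)⟩⟩, [⟨nat_lit 13, nat_lit 91, nat_lit 52, nat_lit 100, nat_lit 149440488⟩]⟩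
noncomputable def p013_l228 : Lf2 := ⟨nat_lit 0, nat_lit 10, [nat_lit 0, nat_lit 5, nat_lit 5, nat_lit 20], false, nat_lit 0, nat_lit 0, nat_lit 0, nat_lit 0, ⟨nat_lit 60, nat_lit 940, nat_lit 0, nat_lit 8, nat_lit 305, nat_lit 0, nat_lit 0, nat_lit 0, nat_lit 0, nat_lit 0, nat_lit 0, nat_lit 0, nat_lit 42334040, nat_lit 24665960, nat_lit 0, nat_lit 3289814, true, true⟩,
 nat_lit 0, nat_lit 0, nat_lit 1721, nat_lit 0, nat_lit 3545, nat_lit 654, nat_lit 348, nat_lit 0, nat_lit 0, nat_lit 51, nat_lit 0, nat_lit 0, nat_lit 0, nat_lit 0, nat_lit 0, nat_lit 376000, nat_lit 0, nat_lit 0, [(nat_lit 12, [(nat_lit 1, nat_lit 940)])],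
 ⟨p013_k43, nat_lit 0, nat_lit 0, nat_lit 208, nat_lit 0, nat_lit 0, [nat_lit 2141216001, nat_lit 2932928000, nat_lit 3068736000], [], [nat_lit 26077138941, nat_lit 26277671011, nat_lit 29073399906, nat_lit 29250387051], nat_lit 0, nat_lit 0, nat_lit 0, nat_lit 0, nat_lit 0, nat_lit 0, [], [nat_lit 8, nat_lit 40, nat_lit 80, nat_lit 80, nat_lit 1, nat_lit 203, nat_lit 0, nat_lit 5]⟩, ⟨p013_k63, nat_lit 0, nat_lit 0, nat_lit 543, nat_lit 0, nat_lit 436252, [nat_lit 478080000, nat_lit 712320000, nat_lit 843480000], [], [nat_lit 2747147559, nat_lit 2736296571, nat_lit 2876166357, nat_lit 2862416874], nat_lit 1271250, nat_lit 1271250, nat_lit 1271250, nat_lit 1271250, nat_lit 0, nat_lit 0, [nat_lit 1695000, nat_lit 1271250, nat_lit 1271250], [nat_lit 62, nat_lit 40, nat_lit 80, nat_lit 80, nat_lit 58, nat_lit 373, nat_lit 150, nat_lit 8]⟩,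
 ⟨nat_lit 5361, nat_lit 5478, ⟨.ofNat (nat_lit 703439), .ofNat (nat_lit 815837), .ofNat (nat_lit 714117), .ofNat (nat_lit 826516), .ofNat (nat_lit 700775), .ofNat (nat_lit 811848), .ofNat (nat_lit 711460), .ofNat (nat_lit 822533)⟩, ⟨.ofNat (nat_lit 0), .ofNat (nat_lit 0), .ofNat (nat_lit 0), .ofNat (nat_lit 0), .ofNat (nat_lit 0), .ofNat (nat_lit 0), .ofNat (nat_lit 0), .ofNat (nat_lit 0)⟩⟩, [⟨nat_lit 13, nat_lit 91, nat_lit 48, nat_lit 100, nat_lit 158707286⟩]⟩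
noncomputable def p013_l229 : Lf2 := ⟨nat_lit 0, nat_lit 10, [nat_lit 0, nat_lit 5, nat_lit 5, nat_lit 20], false, nat_lit 0, nat_lit 0, nat_lit 0, nat_lit 0, ⟨nat_lit 59, nat_lit 941, nat_lit 0, nat_lit 8, nat_lit 304, nat_lit 0, nat_lit 0, nat_lit 0, nat_lit 0, nat_lit 0, nat_lit 0, nat_lit 0, nat_lit 42442445, nat_lit 24557555, nat_lit 0, nat_lit 3285416, true, true⟩,
 nat_lit 0, nat_lit 0, nat_lit 1711, nat_lit 0, nat_lit 3538, nat_lit 650, nat_lit 349, nat_lit 0, nat_lit 0, nat_lit 51, nat_lit 0, nat_lit 0, nat_lit 0, nat_lit 0, nat_lit 0, nat_lit 376400, nat_lit 0, nat_lit 0, [(nat_lit 12, [(nat_lit 1, nat_lit 941)])],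
 ⟨p013_k62, nat_lit 0, nat_lit 0, nat_lit 208, nat_lit 0, nat_lit 0, [nat_lit 2140002400, nat_lit 2929399200, nat_lit 3061530400], [], [nat_lit 26126929389, nat_lit 26247173678, nat_lit 29089937601, nat_lit 29201064909], nat_lit 0, nat_lit 0, nat_lit 0, nat_lit 0, nat_lit 0, nat_lit 0, [], [nat_lit 8, nat_lit 40, nat_lit 80, nat_lit 80, nat_lit 1, nat_lit 203, nat_lit 0, nat_lit 5]⟩, ⟨p013_k63, nat_lit 0, nat_lit 0, nat_lit 574, nat_lit 0, nat_lit 512841, [nat_lit 470112000, nat_lit 700448000, nat_lit 829422000], [], [nat_lit 2684700743, nat_lit 2673805375, nat_lit 2812543890, nat_lit 2803412100], nat_lit 1271250, nat_lit 1271250, nat_lit 1271250, nat_lit 1271250, nat_lit 0, nat_lit 0, [nat_lit 1695000, nat_lit 1271250, nat_lit 1271250], [nat_lit 62, nat_lit 40, nat_lit 80, nat_lit 80, nat_lit 58, nat_lit 373, nat_lit 150, nat_lit 8]⟩,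
 ⟨nat_lit 5291, nat_lit 5362, ⟨.ofNat (nat_lit 700777), .ofNat (nat_lit 811850), .ofNat (nat_lit 711461), .ofNat (nat_lit 822535), .ofNat (nat_lit 699185), .ofNat (nat_lit 809467), .ofNat (nat_lit 709874), .ofNat (nat_lit 820156)⟩, ⟨.ofNat (nat_lit 0), .ofNat (nat_lit 0), .ofNat (nat_lit 0), .ofNat (nat_lit 0), .ofNat (nat_lit 0), .ofNat (nat_lit 0), .ofNat (nat_lit 0), .ofNat (nat_lit 0)⟩⟩, [⟨nat_lit 13, nat_lit 90, nat_lit 50, nat_lit 100, nat_lit 162172090⟩]⟩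
noncomputable def p013_l230 : Lf2 := ⟨nat_lit 0, nat_lit 10, [nat_lit 0, nat_lit 5, nat_lit 5, nat_lit 20], true, nat_lit 0, nat_lit 0, nat_lit 0, nat_lit 0, ⟨nat_lit 0, nat_lit 1000, nat_lit 0, nat_lit 8, nat_lit 302, nat_lit 0, nat_lit 0, nat_lit 0, nat_lit 0, nat_lit 0, nat_lit 0, nat_lit 0, nat_lit 42660383, nat_lit 24339617, nat_lit 0, nat_lit 3276403, true, true⟩,
 nat_lit 0, nat_lit 0, nat_lit 0, nat_lit 0, nat_lit 3563, nat_lit 0, nat_lit 0, nat_lit 0, nat_lit 0, nat_lit 0, nat_lit 0, nat_lit 0, nat_lit 0, nat_lit 0, nat_lit 0, nat_lit 400000, nat_lit 0, nat_lit 0, [(nat_lit 12, [(nat_lit 1, nat_lit 1000)])],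
 ⟨p013_k64, nat_lit 0, nat_lit 0, nat_lit 184, nat_lit 0, nat_lit 0, [nat_lit 2068400000, nat_lit 2721200001, nat_lit 2682000000], [], [nat_lit 26772192344, nat_lit 26859598901, nat_lit 29750295989, nat_lit 29830039590], nat_lit 0, nat_lit 0, nat_lit 0, nat_lit 0, nat_lit 0, nat_lit 0, [], [nat_lit 18, nat_lit 40, nat_lit 80, nat_lit 80, nat_lit 2, nat_lit 203, nat_lit 0, nat_lit 6]⟩, C1.Rw.none,
 ⟨nat_lit 5244, nat_lit 5292, ⟨.ofNat (nat_lit 699185), .ofNat (nat_lit 802115), .ofNat (nat_lit 709874), .ofNat (nat_lit 812805), .ofNat (nat_lit 698126), .ofNat (nat_lit 800566), .ofNat (nat_lit 708819), .ofNat (nat_lit 811258)⟩, ⟨.ofNat (nat_lit 0), .ofNat (nat_lit 0), .ofNat (nat_lit 0), .ofNat (nat_lit 0), .ofNat (nat_lit 0), .ofNat (nat_lit 0), .ofNat (nat_lit 0), .ofNat (nat_lit 0)⟩⟩, [⟨nat_lit 13, nat_lit 90, nat_lit 48, nat_lit 100, nat_lit 200142993⟩]⟩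
noncomputable def p013_l231 : Lf2 := ⟨nat_lit 0, nat_lit 10, [nat_lit 0, nat_lit 5, nat_lit 5, nat_lit 20], false, nat_lit 0, nat_lit 0, nat_lit 0, nat_lit 0, ⟨nat_lit 85, nat_lit 915, nat_lit 0, nat_lit 8, nat_lit 310, nat_lit 0, nat_lit 0, nat_lit 0, nat_lit 0, nat_lit 0, nat_lit 0, nat_lit 0, nat_lit 41816461, nat_lit 25183539, nat_lit 0, nat_lit 3310038, true, true⟩,
 nat_lit 0, nat_lit 0, nat_lit 1804, nat_lit 0, nat_lit 3544, nat_lit 729, nat_lit 265, nat_lit 0, nat_lit 0, nat_lit 160, nat_lit 0, nat_lit 0, nat_lit 0, nat_lit 0, nat_lit 0, nat_lit 366000, nat_lit 0, nat_lit 0, [(nat_lit 12, [(nat_lit 1, nat_lit 915)])],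
 ⟨p013_k43, nat_lit 0, nat_lit 0, nat_lit 210, nat_lit 0, nat_lit 0, [nat_lit 2171556000, nat_lit 3021148000, nat_lit 3248876000], [], [nat_lit 26819102333, nat_lit 27220130781, nat_lit 30014744881, nat_lit 30354072793], nat_lit 0, nat_lit 0, nat_lit 0, nat_lit 0, nat_lit 0, nat_lit 0, [], [nat_lit 8, nat_lit 40, nat_lit 80, nat_lit 80, nat_lit 1, nat_lit 203, nat_lit 0, nat_lit 5]⟩, ⟨p013_k65, nat_lit 0, nat_lit 0, nat_lit 596, nat_lit 0, nat_lit 577777, [nat_lit 677280000, nat_lit 1009120000, nat_lit 1194930000], [], [nat_lit 3431105453, nat_lit 3422827892, nat_lit 3583436674, nat_lit 3571955297], nat_lit 1271250, nat_lit 1271250, nat_lit 1271250, nat_lit 1271250, nat_lit 0, nat_lit 0, [nat_lit 1695000, nat_lit 1271250, nat_lit 1271250], [nat_lit 62, nat_lit 40, nat_lit 80, nat_lit 80, nat_lit 58, nat_lit 373, nat_lit 150, nat_lit 8]⟩,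
 ⟨nat_lit 5244, nat_lit 5478, ⟨.ofNat (nat_lit 714110), .ofNat (nat_lit 833997), .ofNat (nat_lit 724787), .ofNat (nat_lit 844675), .ofNat (nat_lit 708810), .ofNat (nat_lit 825878), .ofNat (nat_lit 719502), .ofNat (nat_lit 836570)⟩, ⟨.ofNat (nat_lit 0), .ofNat (nat_lit 0), .ofNat (nat_lit 0), .ofNat (nat_lit 0), .ofNat (nat_lit 0), .ofNat (nat_lit 0), .ofNat (nat_lit 0), .ofNat (nat_lit 0)⟩⟩, [⟨nat_lit 13, nat_lit 91, nat_lit 45, nat_lit 100, nat_lit 149542734⟩]⟩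
noncomputable def p013_l232 : Lf2 := ⟨nat_lit 0, nat_lit 10, [nat_lit 0, nat_lit 5, nat_lit 5, nat_lit 20], false, nat_lit 0, nat_lit 0, nat_lit 0, nat_lit 0, ⟨nat_lit 1000, nat_lit 0, nat_lit 0, nat_lit 0, nat_lit 0, nat_lit 0, nat_lit 0, nat_lit 0, nat_lit 0, nat_lit 0, nat_lit 0, nat_lit 0, nat_lit 0, nat_lit 0, nat_lit 0, nat_lit 0, false, false⟩,
 nat_lit 0, nat_lit 0, nat_lit 22202, nat_lit 0, nat_lit 4545, nat_lit 8443, nat_lit 1416, nat_lit 0, nat_lit 0, nat_lit 1794, nat_lit 0, nat_lit 0, nat_lit 0, nat_lit 0, nat_lit 0, nat_lit 0, nat_lit 0, nat_lit 0, [],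
 ⟨p013_k42, nat_lit 0, nat_lit 0, nat_lit 201, nat_lit 0, nat_lit 0, [nat_lit 3282000000, nat_lit 4688000000, nat_lit 9842000000], [], [nat_lit 28616656440, nat_lit 29053412580, nat_lit 32181816936, nat_lit 32539341988], nat_lit 0, nat_lit 0, nat_lit 0, nat_lit 0, nat_lit 0, nat_lit 0, [], [nat_lit 42, nat_lit 40, nat_lit 80, nat_lit 80, nat_lit 13, nat_lit 203, nat_lit 0, nat_lit 5]⟩, ⟨p013_k60, nat_lit 0, nat_lit 0, nat_lit 481, nat_lit 0, nat_lit 363621, [nat_lit 7968000000, nat_lit 9842000000, nat_lit 14058000000], [], [nat_lit 39962663642, nat_lit 39841294144, nat_lit 42722106960, nat_lit 42440242463], nat_lit 1271250, nat_lit 1271250, nat_lit 1271250, nat_lit 1271250, nat_lit 0, nat_lit 0, [nat_lit 1695000, nat_lit 1271250, nat_lit 1271250], [nat_lit 92, nat_lit 40, nat_lit 80, nat_lit 80, nat_lit 32, nat_lit 373, nat_lit 150, nat_lit 8]⟩,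
 zbF0, []⟩
noncomputable def p013_l233 : Lf2 := ⟨nat_lit 1, nat_lit 10, [nat_lit 0, nat_lit 5, nat_lit 5, nat_lit 20], false, nat_lit 0, nat_lit 0, nat_lit 0, nat_lit 0, zbN0,
 nat_lit 0, nat_lit 0, nat_lit 0, nat_lit 0, nat_lit 0, nat_lit 0, nat_lit 0, nat_lit 0, nat_lit 0, nat_lit 0, nat_lit 0, nat_lit 0, nat_lit 0, nat_lit 0, nat_lit 0, nat_lit 0, nat_lit 0, nat_lit 0, [],
 C1.Rw.none, C1.Rw.none,
 zbF0, []⟩
noncomputable def p013_l234 : Lf2 := ⟨nat_lit 0, nat_lit 10, [nat_lit 0, nat_lit 5, nat_lit 5, nat_lit 20], false, nat_lit 0, nat_lit 0, nat_lit 0, nat_lit 0, ⟨nat_lit 36, nat_lit 964, nat_lit 0, nat_lit 8, nat_lit 301, nat_lit 0, nat_lit 0, nat_lit 0, nat_lit 0, nat_lit 0, nat_lit 0, nat_lit 0, nat_lit 42824213, nat_lit 24175787, nat_lit 0, nat_lit 3269478, true, true⟩,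
 nat_lit 0, nat_lit 0, nat_lit 1007, nat_lit 0, nat_lit 3824, nat_lit 335, nat_lit 0, nat_lit 0, nat_lit 0, nat_lit 50, nat_lit 0, nat_lit 0, nat_lit 0, nat_lit 0, nat_lit 0, nat_lit 241000, nat_lit 0, nat_lit 0, [(nat_lit 12, [(nat_lit 0, nat_lit 964)])],
 ⟨p013_k44, nat_lit 0, nat_lit 0, nat_lit 178, nat_lit 0, nat_lit 0, [nat_lit 2397048000, nat_lit 2603832001, nat_lit 3403415467], [], [nat_lit 27753826315, nat_lit 27977915451, nat_lit 31030464487, nat_lit 31218595797], nat_lit 0, nat_lit 0, nat_lit 0, nat_lit 0, nat_lit 0, nat_lit 0, [], [nat_lit 36, nat_lit 40, nat_lit 80, nat_lit 80, nat_lit 7, nat_lit 203, nat_lit 0, nat_lit 6]⟩, ⟨p013_k45, nat_lit 0, nat_lit 0, nat_lit 784, nat_lit 0, nat_lit 975326, [nat_lit 286848000, nat_lit 354312000, nat_lit 506088000], [], [nat_lit 1711102284, nat_lit 1684051310, nat_lit 1758257335, nat_lit 1731020909], nat_lit 1100001, nat_lit 1442500, nat_lit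 1271250, nat_lit 1271250, nat_lit 0, nat_lit 0, [nat_lit 1695000, nat_lit 1271250, nat_lit 1271250], [nat_lit 92, nat_lit 40, nat_lit 80, nat_lit 80, nat_lit 32, nat_lit 373, nat_lit 150, nat_lit 8]⟩,
 ⟨nat_lit 5123, nat_lit 5245, ⟨.ofNat (nat_lit 676740), .ofNat (nat_lit 786496), .ofNat (nat_lit 719510), .ofNat (nat_lit 829266), .ofNat (nat_lit 674081), .ofNat (nat_lit 782527), .ofNat (nat_lit 716890), .ofNat (nat_lit 825336)⟩, ⟨.ofNat (nat_lit 0), .ofNat (nat_lit 0), .ofNat (nat_lit 0), .ofNat (nat_lit 0), .ofNat (nat_lit 0), .ofNat (nat_lit 0), .ofNat (nat_lit 0), .ofNat (nat_lit 0)⟩⟩, [⟨nat_lit 13, nat_lit 89, nat_lit 45, nat_lit 100, nat_lit 206840585⟩]⟩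
noncomputable def p013_l235 : Lf2 := ⟨nat_lit 0, nat_lit 10, [nat_lit 0, nat_lit 5, nat_lit 5, nat_lit 20], false, nat_lit 0, nat_lit 0, nat_lit 0, nat_lit 0, ⟨nat_lit 30, nat_lit 970, nat_lit 0, nat_lit 8, nat_lit 298, nat_lit 0, nat_lit 0, nat_lit 0, nat_lit 0, nat_lit 0, nat_lit 0, nat_lit 0, nat_lit 43107838, nat_lit 23892162, nat_lit 0, nat_lit 3257181, true, true⟩,
 nat_lit 0, nat_lit 0, nat_lit 864, nat_lit 0, nat_lit 3839, nat_lit 288, nat_lit 0, nat_lit 0, nat_lit 0, nat_lit 39, nat_lit 0, nat_lit 0, nat_lit 0, nat_lit 0, nat_lit 0, nat_lit 242500, nat_lit 0, nat_lit 0, [(nat_lit 12, [(nat_lit 0, nat_lit 970)])],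
 ⟨p013_k54, nat_lit 0, nat_lit 0, nat_lit 177, nat_lit 0, nat_lit 0, [nat_lit 2391540000, nat_lit 2590860001, nat_lit 3375490667], [], [nat_lit 27935846829, nat_lit 28160256237, nat_lit 30965820289, nat_lit 31172601977], nat_lit 0, nat_lit 0, nat_lit 0, nat_lit 0, nat_lit 0, nat_lit 0, [], [nat_lit 36, nat_lit 40, nat_lit 80, nat_lit 80, nat_lit 7, nat_lit 203, nat_lit 0, nat_lit 6]⟩, ⟨p013_k45, nat_lit 0, nat_lit 0, nat_lit 850, nat_lit 0, nat_lit 1147552, [nat_lit 239040000, nat_lit 295260000, nat_lit 421740000], [], [nat_lit 1439577639, nat_lit 1416289128, nat_lit 1469587670, nat_lit 1448267272], nat_lit 1100001, nat_lit 1442500, nat_lit 1271250, nat_lit 1271250, nat_lit 0, nat_lit 0, [nat_lit 1695000, nat_lit 1271250, nat_lit 1271250], [nat_lit 92, nat_lit 40, nat_lit 80, nat_lit 80, nat_lit 32, nat_lit 373, nat_lit 150, nat_lit 8]⟩,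
 ⟨nat_lit 5000, nat_lit 5124, ⟨.ofNat (nat_lit 674081), .ofNat (nat_lit 775297), .ofNat (nat_lit 716890), .ofNat (nat_lit 818107), .ofNat (nat_lit 671427), .ofNat (nat_lit 771426), .ofNat (nat_lit 714283), .ofNat (nat_lit 814282)⟩, ⟨.ofNat (nat_lit 0), .ofNat (nat_lit 0), .ofNat (nat_lit 0), .ofNat (nat_lit 0), .ofNat (nat_lit 0), .ofNat (nat_lit 0), .ofNat (nat_lit 0), .ofNat (nat_lit 0)⟩⟩, [⟨nat_lit 13, nat_lit 88, nat_lit 48, nat_lit 100, nat_lit 212637871⟩]⟩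
noncomputable def p013_l236 : Lf2 := ⟨nat_lit 1, nat_lit 10, [nat_lit 0, nat_lit 5, nat_lit 5, nat_lit 20], false, nat_lit 0, nat_lit 0, nat_lit 0, nat_lit 0, zbN0,
 nat_lit 0, nat_lit 0, nat_lit 0, nat_lit 0, nat_lit 0, nat_lit 0, nat_lit 0, nat_lit 0, nat_lit 0, nat_lit 0, nat_lit 0, nat_lit 0, nat_lit 0, nat_lit 0, nat_lit 0, nat_lit 0, nat_lit 0, nat_lit 0, [],
 C1.Rw.none, C1.Rw.none,
 zbF0, []⟩
noncomputable def p013_l237 : Lf2 := ⟨nat_lit 0, nat_lit 10, [nat_lit 0, nat_lit 5, nat_lit 5, nat_lit 20], true, nat_lit 0, nat_lit 0, nat_lit 0, nat_lit 0, ⟨nat_lit 0, nat_lit 1000, nat_lit 0, nat_lit 8, nat_lit 296, nat_lit 0, nat_lit 0, nat_lit 0, nat_lit 0, nat_lit 0, nat_lit 0, nat_lit 0, nat_lit 43308394, nat_lit 23691606, nat_lit 0, nat_lit 3248251, true, true⟩,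
 nat_lit 0, nat_lit 0, nat_lit 0, nat_lit 2661, nat_lit 3729, nat_lit 0, nat_lit 0, nat_lit 0, nat_lit 0, nat_lit 0, nat_lit 0, nat_lit 0, nat_lit 0, nat_lit 0, nat_lit 0, nat_lit 250000, nat_lit 0, nat_lit 0, [(nat_lit 15, [(nat_lit 0, nat_lit 1000)])],
 ⟨p013_k50, nat_lit 0, nat_lit 0, nat_lit 188, nat_lit 0, nat_lit 0, [nat_lit 2318400000, nat_lit 2724800000, nat_lit 3082400000], [], [nat_lit 27855006270, nat_lit 28299127757, nat_lit 30813519562, nat_lit 31191750955], nat_lit 0, nat_lit 0, nat_lit 0, nat_lit 0, nat_lit 0, nat_lit 0, [], [nat_lit 18, nat_lit 40, nat_lit 80, nat_lit 80, nat_lit 2, nat_lit 203, nat_lit 0, nat_lit 6]⟩, C1.Rw.none,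
 ⟨nat_lit 4743, nat_lit 5000, ⟨.ofNat (nat_lit 671427), .ofNat (nat_lit 771425), .ofNat (nat_lit 714280), .ofNat (nat_lit 814277), .ofNat (nat_lit 666121), .ofNat (nat_lit 763700), .ofNat (nat_lit 709094), .ofNat (nat_lit 806671)⟩, ⟨.ofNat (nat_lit 0), .ofNat (nat_lit 0), .ofNat (nat_lit 0), .ofNat (nat_lit 0), .ofNat (nat_lit 0), .ofNat (nat_lit 0), .ofNat (nat_lit 0), .ofNat (nat_lit 0)⟩⟩, [⟨nat_lit 13, nat_lit 87, nat_lit 50, nat_lit 100, nat_lit 226554641⟩]⟩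
noncomputable def p013_l238 : Lf2 := ⟨nat_lit 0, nat_lit 10, [nat_lit 0, nat_lit 5, nat_lit 5, nat_lit 20], true, nat_lit 0, nat_lit 0, nat_lit 0, nat_lit 0, ⟨nat_lit 0, nat_lit 1000, nat_lit 0, nat_lit 8, nat_lit 291, nat_lit 0, nat_lit 0, nat_lit 0, nat_lit 0, nat_lit 0, nat_lit 0, nat_lit 0, nat_lit 43862571, nat_lit 23137429, nat_lit 0, nat_lit 3222552, true, true⟩,
 nat_lit 0, nat_lit 0, nat_lit 0, nat_lit 2243, nat_lit 3765, nat_lit 0, nat_lit 0, nat_lit 0, nat_lit 0, nat_lit 0, nat_lit 0, nat_lit 0, nat_lit 0, nat_lit 0, nat_lit 0, nat_lit 250000, nat_lit 0, nat_lit 0, [(nat_lit 15, [(nat_lit 0, nat_lit 1000)])],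
 ⟨p013_k66, nat_lit 0, nat_lit 0, nat_lit 187, nat_lit 0, nat_lit 0, [nat_lit 2318400000, nat_lit 2724800000, nat_lit 3082400000], [], [nat_lit 28280707745, nat_lit 28726366540, nat_lit 30770275379, nat_lit 31191708353], nat_lit 0, nat_lit 0, nat_lit 0, nat_lit 0, nat_lit 0, nat_lit 0, [], [nat_lit 18, nat_lit 40, nat_lit 80, nat_lit 80, nat_lit 2, nat_lit 203, nat_lit 0, nat_lit 6]⟩, C1.Rw.none,
 ⟨nat_lit 4472, nat_lit 4744, ⟨.ofNat (nat_lit 666122), .ofNat (nat_lit 749761), .ofNat (nat_lit 709096), .ofNat (nat_lit 792736), .ofNat (nat_lit 660800), .ofNat (nat_lit 742374), .ofNat (nat_lit 703932), .ofNat (nat_lit 785505)⟩, ⟨.ofNat (nat_lit 0), .ofNat (nat_lit 0), .ofNat (nat_lit 0), .ofNat (nat_lit 0), .ofNat (nat_lit 0), .ofNat (nat_lit 0), .ofNat (nat_lit 0), .ofNat (nat_lit 0)⟩⟩, [⟨nat_lit 13, nat_lit 84, nat_lit 55, nat_lit 100, nat_lit 238454876⟩]⟩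
noncomputable def p013_l239 : Lf2 := ⟨nat_lit 0, nat_lit 10, [nat_lit 0, nat_lit 5, nat_lit 5, nat_lit 20], true, nat_lit 0, nat_lit 0, nat_lit 0, nat_lit 0, ⟨nat_lit 0, nat_lit 1000, nat_lit 0, nat_lit 4, nat_lit 187, nat_lit 0, nat_lit 0, nat_lit 0, nat_lit 0, nat_lit 0, nat_lit 0, nat_lit 0, nat_lit 0, nat_lit 0, nat_lit 0, nat_lit 5000000, false, true⟩,
 nat_lit 0, nat_lit 0, nat_lit 0, nat_lit 4047, nat_lit 4601, nat_lit 0, nat_lit 0, nat_lit 0, nat_lit 0, nat_lit 0, nat_lit 0, nat_lit 0, nat_lit 0, nat_lit 0, nat_lit 0, nat_lit 554200, nat_lit 0, nat_lit 0, [(nat_lit 12, [(nat_lit 1, nat_lit 743), (nat_lit 2, nat_lit 257)]), (nat_lit 15, [(nat_lit 1, nat_lit 743), (nat_lit 2, nat_lit 257)])],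
 ⟨p013_k40, nat_lit 0, nat_lit 0, nat_lit 307, nat_lit 0, nat_lit 0, [nat_lit 2863419201, nat_lit 1941742400], [], [nat_lit 27206766411, nat_lit 29220324345, nat_lit 31844442373, nat_lit 32916919843], nat_lit 0, nat_lit 0, nat_lit 0, nat_lit 0, nat_lit 0, nat_lit 0, [], [nat_lit 82, nat_lit 40, nat_lit 80, nat_lit 80, nat_lit 63, nat_lit 317, nat_lit 100, nat_lit 10]⟩, C1.Rw.none,
 ⟨nat_lit 4472, nat_lit 5478, ⟨.ofNat (nat_lit 90113), .ofNat (nat_lit 801872), .ofNat (nat_lit 132827), .ofNat (nat_lit 844520), .ofNat (nat_lit 123773), .ofNat (nat_lit 769461), .ofNat (nat_lit 166906), .ofNat (nat_lit 812527)⟩, ⟨.ofNat (nat_lit 0), .ofNat (nat_lit 0), .ofNat (nat_lit 0), .ofNat (nat_lit 0), .ofNat (nat_lit 0), .ofNat (nat_lit 0), .ofNat (nat_lit 0), .ofNat (nat_lit 0)⟩⟩, [⟨nat_lit 13, nat_lit 87, nat_lit 59, nat_lit 100, nat_lit 119958175⟩]⟩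
noncomputable def b_N_700_400_0_2 : St := ⟨false, nat_lit 0, nat_lit 2, nat_lit 0, nat_lit 40, nat_lit 280, nat_lit 320, nat_lit 160, nat_lit 200, nat_lit 4, nat_lit 384, nat_lit 0, nat_lit 0, nat_lit 0, nat_lit 0, nat_lit 0, nat_lit 0, nat_lit 40, nat_lit 80, nat_lit 0, nat_lit 0, nat_lit 0, nat_lit 0⟩
theorem d_N_700_400_0_2 (h : EB TB.env) : Dead b_N_700_400_0_2 := chkB_sound0 h (T :=
(.gv
(.st (nat_lit 1)
(.spl (nat_lit 2) (nat_lit 160)
(.leaf p013_l218)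
(.leaf p013_l219))
(.spl (nat_lit 2) (nat_lit 160)
(.leaf p013_l220)
(.spl (nat_lit 2) (nat_lit 240)
(.leaf p013_l221)
(.spl (nat_lit 2) (nat_lit 320)
(.spl (nat_lit 0) (nat_lit 300)
(.leaf p013_l222)
(.leaf p013_l223))
(.spl (nat_lit 0) (nat_lit 300)
(.spl (nat_lit 6) (nat_lit 68)
(.spl (nat_lit 0) (nat_lit 290)
(.spl (nat_lit 6) (nat_lit 60)
(.spl (nat_lit 1) (nat_lit 180)
(.trX (nat_lit 13) (nat_lit 92) (nat_lit 49) (nat_lit 100) (nat_lit 376) (.spl (nat_lit 6) (nat_lit 48)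
(.spl (nat_lit 0) (nat_lit 285)
(.leaf p013_l224)
(.trX (nat_lit 13) (nat_lit 91) (nat_lit 52) (nat_lit 100) (nat_lit 372) (.leaf p013_l225)))
(.spl (nat_lit 0) (nat_lit 285)
(.leaf p013_l226)
(.trX (nat_lit 13) (nat_lit 91) (nat_lit 52) (nat_lit 100) (nat_lit 372) (.leaf p013_l227)))))
(.spl (nat_lit 6) (nat_lit 48)
(.spl (nat_lit 1) (nat_lit 190)
(.trX (nat_lit 13) (nat_lit 92) (nat_lit 45) (nat_lit 100) (nat_lit 380) (.spl (nat_lit 0) (nat_lit 285)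
(.leaf p013_l228)
(.spl (nat_lit 0) (nat_lit 288)
(.leaf p013_l229)
(.trX (nat_lit 13) (nat_lit 90) (nat_lit 48) (nat_lit 100) (nat_lit 376) (.leaf p013_l230)))))
(.leaf p013_l231))
(.leaf p013_l232)))
(.leaf p013_l233))
(.trX (nat_lit 13) (nat_lit 89) (nat_lit 45) (nat_lit 100) (nat_lit 380) (.spl (nat_lit 0) (nat_lit 295)
(.leaf p013_l234)
(.trX (nat_lit 13) (nat_lit 88) (nat_lit 48) (nat_lit 100) (nat_lit 376) (.leaf p013_l235)))))
(.leaf p013_l236))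
(.trX (nat_lit 13) (nat_lit 87) (nat_lit 50) (nat_lit 100) (nat_lit 376) (.spl (nat_lit 0) (nat_lit 310)
(.leaf p013_l237)
(.trX (nat_lit 13) (nat_lit 84) (nat_lit 55) (nat_lit 100) (nat_lit 368) (.leaf p013_l238)))))))))
(.leaf p013_l239))) (by decide +kernel)

end B2
end Pool.Agent.Lib.MP_6947cd_al
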