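import Pool.Agent.Lib.MP_6947cd_al.ZB.Pre

/-!
Problem MP_6947cd_al (Chollet).  Case B, second entry in [2/5, 17/20]: certificates of the tree, part P014 (generated).
-/

set_option autoImplicit false
set_option linter.all false

namespace Pool.Agent.Lib.MP_6947cd_al
namespace B2

open Ent Fr B1 PkA

noncomputable def p014_k0 : C1.Kn := ⟨[nat_lit 60, nat_lit 100, nat_lit 140], [nat_lit 0, nat_lit 0, nat_lit 2047], [(nat_lit 0, nat_lit 0, nat_lit 0), (nat_lit 0, nat_lit 0, nat_lit 0), (nat_lit 1000, nat_lit 993, nat_lit 781)], (nat_lit 94, nat_lit 100, nat_lit 62)⟩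
noncomputable def p014_k1 : C1.Kn := ⟨[nat_lit 60, nat_lit 80, nat_lit 140], [nat_lit 0, nat_lit 0, nat_lit 1595], [(nat_lit 0, nat_lit 0, nat_lit 0), (nat_lit 0, nat_lit 0, nat_lit 0), (nat_lit 1000, nat_lit 917, nat_lit 415)], (nat_lit 94, nat_lit 100, nat_lit 62)⟩
noncomputable def p014_k2 : C1.Kn := ⟨[nat_lit 60, nat_lit 80, nat_lit 120], [nat_lit 0, nat_lit 304, nat_lit 1346], [(nat_lit 0, nat_lit 0, nat_lit 0), (nat_lit 1000, nat_lit 905, nat_lit 238), (nat_lit 1000, nat_lit 871, nat_lit 407)], (nat_lit 87, nat_lit 100, nat_lit 60)⟩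
noncomputable def p014_k3 : C1.Kn := ⟨[nat_lit 120, nat_lit 160, nat_lit 180], [nat_lit 0, nat_lit 0, nat_lit 1613], [(nat_lit 0, nat_lit 0, nat_lit 0), (nat_lit 0, nat_lit 0, nat_lit 0), (nat_lit 620, nat_lit 1000, nat_lit 670)], (nat_lit 100, nat_lit 68, nat_lit 61)⟩
noncomputable def p014_k4 : C1.Kn := ⟨[nat_lit 60, nat_lit 100, nat_lit 120], [nat_lit 0, nat_lit 609, nat_lit 1609], [(nat_lit 0, nat_lit 0, nat_lit 0), (nat_lit 1000, nat_lit 905, nat_lit 238), (nat_lit 1000, nat_lit 882, nat_lit 668)], (nat_lit 87, nat_lit 100, nat_lit 60)⟩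
noncomputable def p014_k5 : C1.Kn := ⟨[nat_lit 60, nat_lit 100, nat_lit 120], [nat_lit 0, nat_lit 909, nat_lit 1866], [(nat_lit 0, nat_lit 0, nat_lit 0), (nat_lit 1000, nat_lit 858, nat_lit 354), (nat_lit 1000, nat_lit 849, nat_lit 705)], (nat_lit 84, nat_lit 100, nat_lit 60)⟩
noncomputable def p014_k6 : C1.Kn := ⟨[nat_lit 120, nat_lit 140, nat_lit 180], [nat_lit 0, nat_lit 0, nat_lit 1219], [(nat_lit 0, nat_lit 0, nat_lit 0), (nat_lit 0, nat_lit 0, nat_lit 0), (nat_lit 840, nat_lit 1000, nat_lit 400)], (nat_lit 100, nat_lit 68, nat_lit 61)⟩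
noncomputable def p014_k7 : C1.Kn := ⟨[nat_lit 60, nat_lit 80, nat_lit 120], [nat_lit 0, nat_lit 151, nat_lit 1205], [(nat_lit 0, nat_lit 0, nat_lit 0), (nat_lit 1000, nat_lit 953, nat_lit 118), (nat_lit 1000, nat_lit 894, nat_lit 411)], (nat_lit 91, nat_lit 100, nat_lit 61)⟩
noncomputable def p014_k8 : C1.Kn := ⟨[nat_lit 120, nat_lit 140, nat_lit 180], [nat_lit 0, nat_lit 132, nat_lit 1340], [(nat_lit 0, nat_lit 0, nat_lit 0), (nat_lit 980, nat_lit 1000, nat_lit 101), (nat_lit 856, nat_lit 1000, nat_lit 404)], (nat_lit 100, nat_lit 71, nat_lit 61)⟩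
noncomputable def p014_k9 : C1.Kn := ⟨[nat_lit 120, nat_lit 140, nat_lit 180], [nat_lit 0, nat_lit 266, nat_lit 1456], [(nat_lit 0, nat_lit 0, nat_lit 0), (nat_lit 960, nat_lit 1000, nat_lit 200), (nat_lit 874, nat_lit 1000, nat_lit 406)], (nat_lit 100, nat_lit 74, nat_lit 60)⟩
noncomputable def p014_k10 : C1.Kn := ⟨[nat_lit 60, nat_lit 80, nat_lit 120], [nat_lit 0, nat_lit 379, nat_lit 1423], [(nat_lit 0, nat_lit 0, nat_lit 0), (nat_lit 1000, nat_lit 882, nat_lit 294), (nat_lit 1000, nat_lit 859, nat_lit 408)], (nat_lit 85, nat_lit 100, nat_lit 60)⟩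
noncomputable def p014_k11 : C1.Kn := ⟨[nat_lit 60, nat_lit 80, nat_lit 120], [nat_lit 0, nat_lit 456, nat_lit 1495], [(nat_lit 0, nat_lit 0, nat_lit 0), (nat_lit 1000, nat_lit 859, nat_lit 351), (nat_lit 1000, nat_lit 848, nat_lit 406)], (nat_lit 84, nat_lit 100, nat_lit 60)⟩
noncomputable def p014_k12 : C1.Kn := ⟨[nat_lit 60, nat_lit 80, nat_lit 120], [nat_lit 0, nat_lit 533, nat_lit 1600], [(nat_lit 0, nat_lit 0, nat_lit 0), (nat_lit 1000, nat_lit 837, nat_lit 397), (nat_lit 1000, nat_lit 833, nat_lit 417)], (nat_lit 82, nat_lit 100, nat_lit 60)⟩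
noncomputable def p014_k13 : C1.Kn := ⟨[nat_lit 60, nat_lit 120], [nat_lit 0, nat_lit 913], [(nat_lit 0, nat_lit 0, nat_lit 0), (nat_lit 1000, nat_lit 905, nat_lit 238)], (nat_lit 87, nat_lit 100, nat_lit 60)⟩
noncomputable def p014_k14 : C1.Kn := ⟨[nat_lit 120, nat_lit 160, nat_lit 180], [nat_lit 0, nat_lit 533, nat_lit 2066], [(nat_lit 0, nat_lit 0, nat_lit 0), (nat_lit 960, nat_lit 1000, nat_lit 200), (nat_lit 615, nat_lit 1000, nat_lit 729)], (nat_lit 100, nat_lit 74, nat_lit 60)⟩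
noncomputable def p014_k15 : C1.Kn := ⟨[nat_lit 60, nat_lit 140], [nat_lit 0, nat_lit 0], [(nat_lit 0, nat_lit 0, nat_lit 0), (nat_lit 0, nat_lit 0, nat_lit 0)], (nat_lit 94, nat_lit 100, nat_lit 62)⟩
noncomputable def p014_k16 : C1.Kn := ⟨[nat_lit 100, nat_lit 160], [nat_lit 0, nat_lit 0], [(nat_lit 0, nat_lit 0, nat_lit 0), (nat_lit 0, nat_lit 0, nat_lit 0)], (nat_lit 100, nat_lit 80, nat_lit 60)⟩
noncomputable def p014_k17 : C1.Kn := ⟨[nat_lit 60, nat_lit 120, nat_lit 140], [nat_lit 0, nat_lit 0, nat_lit 2047], [(nat_lit 0, nat_lit 0, nat_lit 0), (nat_lit 0, nat_lit 0, nat_lit 0), (nat_lit 1000, nat_lit 993, nat_lit 781)], (nat_lit 94, nat_lit 100, nat_lit 62)⟩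
noncomputable def p014_k18 : C1.Kn := ⟨[nat_lit 100, nat_lit 140, nat_lit 160], [nat_lit 0, nat_lit 256, nat_lit 1478], [(nat_lit 0, nat_lit 0, nat_lit 0), (nat_lit 1000, nat_lit 1000, nat_lit 100), (nat_lit 806, nat_lit 1000, nat_lit 633)], (nat_lit 100, nat_lit 83, nat_lit 60)⟩
noncomputable def p014_k19 : C1.Kn := ⟨[nat_lit 100, nat_lit 140, nat_lit 160], [nat_lit 0, nat_lit 508, nat_lit 1689], [(nat_lit 0, nat_lit 0, nat_lit 0), (nat_lit 1000, nat_lit 1000, nat_lit 198), (nat_lit 811, nat_lit 1000, nat_lit 671)], (nat_lit 100, nat_lit 86, nat_lit 60)⟩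
noncomputable def p014_k20 : C1.Kn := ⟨[nat_lit 100, nat_lit 140, nat_lit 160], [nat_lit 0, nat_lit 640, nat_lit 1800], [(nat_lit 0, nat_lit 0, nat_lit 0), (nat_lit 1000, nat_lit 1000, nat_lit 250), (nat_lit 808, nat_lit 1000, nat_lit 699)], (nat_lit 100, nat_lit 88, nat_lit 60)⟩
noncomputable def p014_k21 : C1.Kn := ⟨[nat_lit 100, nat_lit 140, nat_lit 160], [nat_lit 0, nat_lit 766, nat_lit 1913], [(nat_lit 0, nat_lit 0, nat_lit 0), (nat_lit 1000, nat_lit 1000, nat_lit 299), (nat_lit 817, nat_lit 1000, nat_lit 711)], (nat_lit 100, nat_lit 89, nat_lit 61)⟩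
noncomputable def p014_k22 : C1.Kn := ⟨[nat_lit 60, nat_lit 100, nat_lit 140], [nat_lit 0, nat_lit 151, nat_lit 2175], [(nat_lit 0, nat_lit 0, nat_lit 0), (nat_lit 1000, nat_lit 977, nat_lit 59), (nat_lit 1000, nat_lit 974, nat_lit 785)], (nat_lit 92, nat_lit 100, nat_lit 61)⟩
noncomputable def p014_k23 : C1.Kn := ⟨[nat_lit 60, nat_lit 100, nat_lit 120], [nat_lit 0, nat_lit 302, nat_lit 1376], [(nat_lit 0, nat_lit 0, nat_lit 0), (nat_lit 1000, nat_lit 953, nat_lit 118), (nat_lit 1000, nat_lit 911, nat_lit 628)], (nat_lit 91, nat_lit 100, nat_lit 61)⟩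
noncomputable def p014_k24 : C1.Kn := ⟨[nat_lit 100, nat_lit 120, nat_lit 140, nat_lit 160], [nat_lit 0, nat_lit 0, nat_lit 533, nat_lit 1117], [(nat_lit 0, nat_lit 0, nat_lit 0), (nat_lit 0, nat_lit 0, nat_lit 0), (nat_lit 924, nat_lit 1000, nat_lit 383), (nat_lit 910, nat_lit 1000, nat_lit 415)], (nat_lit 100, nat_lit 80, nat_lit 60)⟩
noncomputable def p014_k25 : C1.Kn := ⟨[nat_lit 60, nat_lit 100, nat_lit 120], [nat_lit 0, nat_lit 0, nat_lit 1164], [(nat_lit 0, nat_lit 0, nat_lit 0), (nat_lit 0, nat_lit 0, nat_lit 0), (nat_lit 1000, nat_lit 933, nat_lit 572)], (nat_lit 92, nat_lit 100, nat_lit 44)⟩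
noncomputable def p014_k26 : C1.Kn := ⟨[nat_lit 100, nat_lit 140], [nat_lit 0, nat_lit 508], [(nat_lit 0, nat_lit 0, nat_lit 0), (nat_lit 1000, nat_lit 1000, nat_lit 198)], (nat_lit 100, nat_lit 94, nat_lit 44)⟩
noncomputable def p014_k27 : C1.Kn := ⟨[nat_lit 60, nat_lit 100], [nat_lit 0, nat_lit 0], [(nat_lit 0, nat_lit 0, nat_lit 0), (nat_lit 0, nat_lit 0, nat_lit 0)], (nat_lit 92, nat_lit 100, nat_lit 28)⟩
noncomputable def p014_k28 : C1.Kn := ⟨[nat_lit 100, nat_lit 120], [nat_lit 0, nat_lit 383], [(nat_lit 0, nat_lit 0, nat_lit 0), (nat_lit 1000, nat_lit 1000, nat_lit 299)], (nat_lit 100, nat_lit 100, nat_lit 28)⟩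
noncomputable def p014_k29 : C1.Kn := ⟨[nat_lit 60, nat_lit 100], [nat_lit 0, nat_lit 151], [(nat_lit 0, nat_lit 0, nat_lit 0), (nat_lit 1000, nat_lit 977, nat_lit 59)], (nat_lit 92, nat_lit 100, nat_lit 28)⟩
noncomputable def p014_k30 : C1.Kn := ⟨[nat_lit 100, nat_lit 140], [nat_lit 0, nat_lit 766], [(nat_lit 0, nat_lit 0, nat_lit 0), (nat_lit 1000, nat_lit 1000, nat_lit 299)], (nat_lit 100, nat_lit 97, nat_lit 44)⟩
noncomputable def p014_k31 : C1.Kn := ⟨[nat_lit 100, nat_lit 140, nat_lit 160], [nat_lit 0, nat_lit 0, nat_lit 1280], [(nat_lit 0, nat_lit 0, nat_lit 0), (nat_lit 0, nat_lit 0, nat_lit 0), (nat_lit 800, nat_lit 1000, nat_lit 600)], (nat_lit 100, nat_lit 80, nat_lit 60)⟩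
noncomputable def p014_k32 : C1.Kn := ⟨[nat_lit 100, nat_lit 120, nat_lit 140, nat_lit 160], [nat_lit 0, nat_lit 383, nat_lit 902, nat_lit 1888], [(nat_lit 0, nat_lit 0, nat_lit 0), (nat_lit 1000, nat_lit 1000, nat_lit 299), (nat_lit 979, nat_lit 1000, nat_lit 397), (nat_lit 857, nat_lit 1000, nat_lit 660)], (nat_lit 100, nat_lit 89, nat_lit 61)⟩
noncomputable def p014_k33 : C1.Kn := ⟨[nat_lit 60, nat_lit 100, nat_lit 120], [nat_lit 0, nat_lit 455, nat_lit 1489], [(nat_lit 0, nat_lit 0, nat_lit 0), (nat_lit 1000, nat_lit 929, nat_lit 178), (nat_lit 1000, nat_lit 895, nat_lit 641)], (nat_lit 89, nat_lit 100, nat_lit 61)⟩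
noncomputable def p014_k34 : C1.Kn := ⟨[nat_lit 60, nat_lit 120], [nat_lit 0, nat_lit 453], [(nat_lit 0, nat_lit 0, nat_lit 0), (nat_lit 1000, nat_lit 953, nat_lit 118)], (nat_lit 91, nat_lit 100, nat_lit 61)⟩
noncomputable def p014_k35 : C1.Kn := ⟨[nat_lit 100, nat_lit 160], [nat_lit 0, nat_lit 761], [(nat_lit 0, nat_lit 0, nat_lit 0), (nat_lit 1000, nat_lit 1000, nat_lit 198)], (nat_lit 100, nat_lit 86, nat_lit 60)⟩
noncomputable def p014_k36 : C1.Kn := ⟨[nat_lit 60, nat_lit 100, nat_lit 120, nat_lit 160], [nat_lit 0, nat_lit 0, nat_lit 0, nat_lit 1063], [(nat_lit 0, nat_lit 0, nat_lit 0), (nat_lit 0, nat_lit 0, nat_lit 0), (nat_lit 0, nat_lit 0, nat_lit 0), (nat_lit 924, nat_lit 1000, nat_lit 383)], (nat_lit 100, nat_lit 80, nat_lit 60)⟩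
noncomputable def p014_k37 : C1.Kn := ⟨[nat_lit 100, nat_lit 140, nat_lit 160], [nat_lit 0, nat_lit 0, nat_lit 1280], [(nat_lit 0, nat_lit 0, nat_lit 0), (nat_lit 0, nat_lit 0, nat_lit 0), (nat_lit 800, nat_lit 1000, nat_lit 600)], (nat_lit 100, nat_lit 90, nat_lit 44)⟩
noncomputable def p014_k38 : C1.Kn := ⟨[nat_lit 60, nat_lit 100], [nat_lit 0, nat_lit 302], [(nat_lit 0, nat_lit 0, nat_lit 0), (nat_lit 1000, nat_lit 953, nat_lit 118)], (nat_lit 89, nat_lit 100, nat_lit 44)⟩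
noncomputable def p014_k39 : C1.Kn := ⟨[nat_lit 60, nat_lit 100, nat_lit 120], [nat_lit 0, nat_lit 1063, nat_lit 2005], [(nat_lit 0, nat_lit 0, nat_lit 0), (nat_lit 1000, nat_lit 834, nat_lit 414), (nat_lit 1000, nat_lit 833, nat_lit 732)], (nat_lit 82, nat_lit 100, nat_lit 60)⟩
noncomputable def p014_k40 : C1.Kn := ⟨[nat_lit 100, nat_lit 120, nat_lit 160], [nat_lit 0, nat_lit 0, nat_lit 1063], [(nat_lit 0, nat_lit 0, nat_lit 0), (nat_lit 0, nat_lit 0, nat_lit 0), (nat_lit 924, nat_lit 1000, nat_lit 383)], (nat_lit 100, nat_lit 80, nat_lit 60)⟩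
noncomputable def p014_k41 : C1.Kn := ⟨[nat_lit 100, nat_lit 120, nat_lit 160], [nat_lit 0, nat_lit 128, nat_lit 1183], [(nat_lit 0, nat_lit 0, nat_lit 0), (nat_lit 1000, nat_lit 1000, nat_lit 100), (nat_lit 941, nat_lit 1000, nat_lit 388)], (nat_lit 100, nat_lit 83, nat_lit 60)⟩
noncomputable def p014_k42 : C1.Kn := ⟨[nat_lit 100, nat_lit 120, nat_lit 160], [nat_lit 0, nat_lit 254, nat_lit 1301], [(nat_lit 0, nat_lit 0, nat_lit 0), (nat_lit 1000, nat_lit 1000, nat_lit 198), (nat_lit 960, nat_lit 1000, nat_lit 392)], (nat_lit 100, nat_lit 86, nat_lit 60)⟩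
noncomputable def p014_k43 : C1.Kn := ⟨[nat_lit 100, nat_lit 120, nat_lit 160], [nat_lit 0, nat_lit 383, nat_lit 1421], [(nat_lit 0, nat_lit 0, nat_lit 0), (nat_lit 1000, nat_lit 1000, nat_lit 299), (nat_lit 979, nat_lit 1000, nat_lit 397)], (nat_lit 100, nat_lit 89, nat_lit 61)⟩
noncomputable def p014_k44 : C1.Kn := ⟨[nat_lit 100, nat_lit 140, nat_lit 160], [nat_lit 0, nat_lit 896, nat_lit 2029], [(nat_lit 0, nat_lit 0, nat_lit 0), (nat_lit 1000, nat_lit 1000, nat_lit 350), (nat_lit 825, nat_lit 1000, nat_lit 727)], (nat_lit 100, nat_lit 91, nat_lit 61)⟩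
noncomputable def p014_k45 : C1.Kn := ⟨[nat_lit 60, nat_lit 80, nat_lit 120], [nat_lit 0, nat_lit 228, nat_lit 1272], [(nat_lit 0, nat_lit 0, nat_lit 0), (nat_lit 1000, nat_lit 929, nat_lit 178), (nat_lit 1000, nat_lit 883, nat_lit 407)], (nat_lit 89, nat_lit 100, nat_lit 61)⟩
noncomputable def p014_l0 : Lf2 := ⟨nat_lit 0, nat_lit 10, [nat_lit 0, nat_lit 5, nat_lit 5, nat_lit 20], true, nat_lit 0, nat_lit 0, nat_lit 0, nat_lit 0, ⟨nat_lit 0, nat_lit 0, nat_lit 1000, nat_lit 4, nat_lit 79, nat_lit 0, nat_lit 0, nat_lit 0, nat_lit 0, nat_lit 215, nat_lit 58017, nat_lit 274, nat_lit 64514347, nat_lit 0, nat_lit 0, nat_lit 793050, false, false⟩,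
 nat_lit 0, nat_lit 4830, nat_lit 0, nat_lit 0, nat_lit 3073, nat_lit 0, nat_lit 0, nat_lit 0, nat_lit 0, nat_lit 0, nat_lit 0, nat_lit 0, nat_lit 0, nat_lit 0, nat_lit 130, nat_lit 627400, nat_lit 0, nat_lit 0, [(nat_lit 12, [(nat_lit 5, nat_lit 621), (nat_lit 6, nat_lit 379)]), (nat_lit 15, [(nat_lit 5, nat_lit 621), (nat_lit 6, nat_lit 379)])],
 ⟨p014_k0, nat_lit 0, nat_lit 0, nat_lit 477, nat_lit 0, nat_lit 361573, [nat_lit 2809254001, nat_lit 1837548000, nat_lit 261365200], [], [nat_lit 17643774445, nat_lit 18907963657, nat_lit 16291953815, nat_lit 18177374927], nat_lit 1271250, nat_lit 1271250, nat_lit 21650, nat_lit 490000, nat_lit 0, nat_lit 0, [nat_lit 780000, nat_lit 1435000, nat_lit 1271250], [nat_lit 8, nat_lit 40, nat_lit 80, nat_lit 80, nat_lit 1, nat_lit 226, nat_lit 20, nat_lit 7]⟩, C1.Rw.none,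
 ⟨nat_lit 4472, nat_lit 5478, ⟨.ofNat (nat_lit 90113), .ofNat (nat_lit 232485), .ofNat (nat_lit 132827), .ofNat (nat_lit 275199), .ofNat (nat_lit 123773), .ofNat (nat_lit 252931), .ofNat (nat_lit 166906), .ofNat (nat_lit 296064)⟩, ⟨.ofNat (nat_lit 0), .ofNat (nat_lit 0), .ofNat (nat_lit 0), .ofNat (nat_lit 0), .ofNat (nat_lit 0), .ofNat (nat_lit 0), .ofNat (nat_lit 0), .ofNat (nat_lit 0)⟩⟩, [⟨nat_lit 0, nat_lit 100, nat_lit 80, nat_lit 60, nat_lit 146528960⟩]⟩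
noncomputable def p014_l1 : Lf2 := ⟨nat_lit 0, nat_lit 10, [nat_lit 0, nat_lit 5, nat_lit 5, nat_lit 20], true, nat_lit 0, nat_lit 0, nat_lit 0, nat_lit 0, ⟨nat_lit 0, nat_lit 0, nat_lit 1000, nat_lit 4, nat_lit 133, nat_lit 0, nat_lit 0, nat_lit 0, nat_lit 0, nat_lit 215, nat_lit 166667, nat_lit 315, nat_lit 60339373, nat_lit 0, nat_lit 0, nat_lit 1618946, false, false⟩,
 nat_lit 0, nat_lit 5148, nat_lit 0, nat_lit 0, nat_lit 3276, nat_lit 0, nat_lit 0, nat_lit 0, nat_lit 0, nat_lit 0, nat_lit 0, nat_lit 0, nat_lit 0, nat_lit 0, nat_lit 95, nat_lit 400000, nat_lit 0, nat_lit 0, [(nat_lit 12, [(nat_lit 5, nat_lit 1000)])],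
 ⟨p014_k1, nat_lit 0, nat_lit 0, nat_lit 391, nat_lit 0, nat_lit 373979, [nat_lit 2380800000, nat_lit 1939600000, nat_lit 202000000], [], [nat_lit 20195683008, nat_lit 18514905000, nat_lit 21678267344, nat_lit 20175330272], nat_lit 1271250, nat_lit 1271250, nat_lit 490000, nat_lit 1100001, nat_lit 0, nat_lit 0, [nat_lit 780000, nat_lit 1100000, nat_lit 2127500], [nat_lit 42, nat_lit 40, nat_lit 80, nat_lit 80, nat_lit 13, nat_lit 249, nat_lit 40, nat_lit 7]⟩, C1.Rw.none,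
 ⟨nat_lit 5000, nat_lit 5478, ⟨.ofNat (nat_lit 232485), .ofNat (nat_lit 382351), .ofNat (nat_lit 275199), .ofNat (nat_lit 425065), .ofNat (nat_lit 242856), .ofNat (nat_lit 385713), .ofNat (nat_lit 285713), .ofNat (nat_lit 428570)⟩, ⟨.ofNat (nat_lit 0), .ofNat (nat_lit 0), .ofNat (nat_lit 0), .ofNat (nat_lit 0), .ofNat (nat_lit 0), .ofNat (nat_lit 0), .ofNat (nat_lit 0), .ofNat (nat_lit 0)⟩⟩, []⟩
noncomputable def p014_l2 : Lf2 := ⟨nat_lit 0, nat_lit 10, [nat_lit 0, nat_lit 5, nat_lit 5, nat_lit 20], true, nat_lit 0, nat_lit 0, nat_lit 0, nat_lit 0, ⟨nat_lit 0, nat_lit 0, nat_lit 1000, nat_lit 4, nat_lit 136, nat_lit 0, nat_lit 0, nat_lit 0, nat_lit 0, nat_lit 215, nat_lit 173400, nat_lit 317, nat_lit 60090499, nat_lit 0, nat_lit 0, nat_lit 1659495, false, false⟩,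
 nat_lit 0, nat_lit 5208, nat_lit 0, nat_lit 0, nat_lit 3605, nat_lit 0, nat_lit 0, nat_lit 0, nat_lit 0, nat_lit 0, nat_lit 0, nat_lit 0, nat_lit 0, nat_lit 0, nat_lit 94, nat_lit 400000, nat_lit 0, nat_lit 0, [(nat_lit 15, [(nat_lit 5, nat_lit 1000)])],
 ⟨p014_k2, nat_lit 0, nat_lit 0, nat_lit 404, nat_lit 0, nat_lit 530436, [nat_lit 2443200000, nat_lit 1810400000, nat_lit 87733334], [], [nat_lit 15716662794, nat_lit 16982370520, nat_lit 18376140894, nat_lit 18126773540], nat_lit 1271250, nat_lit 1271250, nat_lit 490000, nat_lit 1100001, nat_lit 0, nat_lit 0, [nat_lit 780000, nat_lit 1100000, nat_lit 1785000], [nat_lit 36, nat_lit 40, nat_lit 80, nat_lit 80, nat_lit 7, nat_lit 249, nat_lit 40, nat_lit 8]⟩, C1.Rw.none,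
 ⟨nat_lit 4472, nat_lit 5000, ⟨.ofNat (nat_lit 242856), .ofNat (nat_lit 385713), .ofNat (nat_lit 285713), .ofNat (nat_lit 428570), .ofNat (nat_lit 252931), .ofNat (nat_lit 388887), .ofNat (nat_lit 296064), .ofNat (nat_lit 432020)⟩, ⟨.ofNat (nat_lit 0), .ofNat (nat_lit 0), .ofNat (nat_lit 0), .ofNat (nat_lit 0), .ofNat (nat_lit 0), .ofNat (nat_lit 0), .ofNat (nat_lit 0), .ofNat (nat_lit 0)⟩⟩, []⟩
noncomputable def p014_l3 : Lf2 := ⟨nat_lit 0, nat_lit 10, [nat_lit 0, nat_lit 5, nat_lit 5, nat_lit 20], true, nat_lit 0, nat_lit 0, nat_lit 0, nat_lit 0, ⟨nat_lit 0, nat_lit 0, nat_lit 1000, nat_lit 4, nat_lit 191, nat_lit 0, nat_lit 0, nat_lit 0, nat_lit 0, nat_lit 215, nat_lit 5073, nat_lit 222, nat_lit 54513184, nat_lit 0, nat_lit 0, nat_lit 2404583, false, true⟩,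
 nat_lit 0, nat_lit 5266, nat_lit 0, nat_lit 0, nat_lit 3351, nat_lit 0, nat_lit 120, nat_lit 0, nat_lit 0, nat_lit 0, nat_lit 0, nat_lit 0, nat_lit 0, nat_lit 0, nat_lit 95, nat_lit 400000, nat_lit 0, nat_lit 0, [(nat_lit 12, [(nat_lit 5, nat_lit 1000)])],
 ⟨p014_k0, nat_lit 0, nat_lit 0, nat_lit 344, nat_lit 0, nat_lit 365197, [nat_lit 2380800000, nat_lit 1365333334, nat_lit 202000000], [], [nat_lit 16038299008, nat_lit 17017400516, nat_lit 19679545724, nat_lit 19072664294], nat_lit 1271250, nat_lit 1271250, nat_lit 1100001, nat_lit 1785000, nat_lit 0, nat_lit 0, [nat_lit 780000, nat_lit 1435000, nat_lit 1271250], [nat_lit 8, nat_lit 40, nat_lit 80, nat_lit 80, nat_lit 1, nat_lit 272, nat_lit 60, nat_lit 8]⟩, C1.Rw.none,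
 ⟨nat_lit 5000, nat_lit 5478, ⟨.ofNat (nat_lit 382351), .ofNat (nat_lit 532217), .ofNat (nat_lit 425065), .ofNat (nat_lit 574920), .ofNat (nat_lit 385713), .ofNat (nat_lit 528570), .ofNat (nat_lit 428570), .ofNat (nat_lit 571415)⟩, ⟨.ofNat (nat_lit 0), .ofNat (nat_lit 0), .ofNat (nat_lit 0), .ofNat (nat_lit 0), .ofNat (nat_lit 0), .ofNat (nat_lit 0), .ofNat (nat_lit 0), .ofNat (nat_lit 0)⟩⟩, []⟩
noncomputable def p014_l4 : Lf2 := ⟨nat_lit 0, nat_lit 10, [nat_lit 0, nat_lit 5, nat_lit 5, nat_lit 20], false, nat_lit 0, nat_lit 0, nat_lit 0, nat_lit 0, ⟨nat_lit 1000, nat_lit 0, nat_lit 0, nat_lit 0, nat_lit 0, nat_lit 0, nat_lit 0, nat_lit 0, nat_lit 0, nat_lit 0, nat_lit 0, nat_lit 0, nat_lit 0, nat_lit 0, nat_lit 0, nat_lit 0, false, false⟩,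
 nat_lit 0, nat_lit 11070, nat_lit 0, nat_lit 0, nat_lit 7044, nat_lit 8681, nat_lit 853, nat_lit 0, nat_lit 0, nat_lit 1022, nat_lit 0, nat_lit 0, nat_lit 0, nat_lit 0, nat_lit 0, nat_lit 0, nat_lit 0, nat_lit 0, [],
 ⟨p014_k0, nat_lit 0, nat_lit 0, nat_lit 357, nat_lit 0, nat_lit 365197, [nat_lit 3282000000, nat_lit 6250000000, nat_lit 9842000000], [], [nat_lit 30915954082, nat_lit 31640591770, nat_lit 37253299959, nat_lit 37935698797], nat_lit 1271250, nat_lit 1271250, nat_lit 1271250, nat_lit 1271250, nat_lit 0, nat_lit 0, [nat_lit 780000, nat_lit 1435000, nat_lit 1271250], [nat_lit 8, nat_lit 40, nat_lit 80, nat_lit 80, nat_lit 1, nat_lit 317, nat_lit 100, nat_lit 9]⟩, ⟨p014_k3, nat_lit 0, nat_lit 0, nat_lit 328, nat_lit 0, nat_lit 0, [nat_lit 7968000000, nat_lit 11872000000, nat_lit 14058000000], [], [nat_lit 36532542790, nat_lit 36888355098, nat_lit 45196640051, nat_lit 45114649704],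 nat_lit 0, nat_lit 0, nat_lit 0, nat_lit 0, nat_lit 0, nat_lit 0, [], [nat_lit 62, nat_lit 40, nat_lit 80, nat_lit 80, nat_lit 58, nat_lit 373, nat_lit 150, nat_lit 9]⟩,
 zbF0, []⟩
noncomputable def p014_l5 : Lf2 := ⟨nat_lit 1, nat_lit 10, [nat_lit 0, nat_lit 5, nat_lit 5, nat_lit 20], false, nat_lit 0, nat_lit 0, nat_lit 0, nat_lit 0, zbN0,
 nat_lit 0, nat_lit 0, nat_lit 0, nat_lit 0, nat_lit 0, nat_lit 0, nat_lit 0, nat_lit 0, nat_lit 0, nat_lit 0, nat_lit 0, nat_lit 0, nat_lit 0, nat_lit 0, nat_lit 0, nat_lit 0, nat_lit 0, nat_lit 0, [],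
 C1.Rw.none, C1.Rw.none,
 zbF0, []⟩
noncomputable def p014_l6 : Lf2 := ⟨nat_lit 0, nat_lit 10, [nat_lit 0, nat_lit 5, nat_lit 5, nat_lit 20], false, nat_lit 0, nat_lit 0, nat_lit 0, nat_lit 0, ⟨nat_lit 812, nat_lit 0, nat_lit 188, nat_lit 4, nat_lit 239, nat_lit 0, nat_lit 0, nat_lit 0, nat_lit 0, nat_lit 215, nat_lit 357304, nat_lit 200, nat_lit 49330039, nat_lit 0, nat_lit 0, nat_lit 2884614, false, true⟩,
 nat_lit 0, nat_lit 8293, nat_lit 0, nat_lit 0, nat_lit 5741, nat_lit 7273, nat_lit 725, nat_lit 0, nat_lit 0, nat_lit 881, nat_lit 0, nat_lit 0, nat_lit 0, nat_lit 0, nat_lit 0, nat_lit 188000, nat_lit 0, nat_lit 0, [(nat_lit 15, [(nat_lit 6, nat_lit 188)])],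
 ⟨p014_k4, nat_lit 0, nat_lit 0, nat_lit 340, nat_lit 0, nat_lit 430746, [nat_lit 2849224000, nat_lit 4643502401, nat_lit 5482113600], [], [nat_lit 23249804088, nat_lit 23756889846, nat_lit 35773527385, nat_lit 34483938946], nat_lit 1271250, nat_lit 1271250, nat_lit 1100001, nat_lit 2949500, nat_lit 0, nat_lit 0, [nat_lit 780000, nat_lit 1435000, nat_lit 1271250], [nat_lit 18, nat_lit 40, nat_lit 80, nat_lit 80, nat_lit 2, nat_lit 317, nat_lit 100, nat_lit 10]⟩, ⟨p014_k3, nat_lit 0, nat_lit 0, nat_lit 325, nat_lit 0, nat_lit 0, [nat_lit 6470016000, nat_lit 9640064000, nat_lit 11415096000], [], [nat_lit 27816495135, nat_lit 28299539123, nat_lit 36151143160, nat_lit 36233606710], nat_lit 0, nat_lit 0, nat_lit 0, nat_lit 0, nat_lit 0, nat_lit 0, [], [nat_lit 62, nat_lit 40, nat_lit 80, nat_lit 80, nat_lit 58, nat_lit 373, nat_lit 150, nat_lit 9]⟩,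
 ⟨nat_lit 4743, nat_lit 5000, ⟨.ofNat (nat_lit 385713), .ofNat (nat_lit 771425), .ofNat (nat_lit 428570), .ofNat (nat_lit 814277), .ofNat (nat_lit 387322), .ofNat (nat_lit 763700), .ofNat (nat_lit 430299), .ofNat (nat_lit 806671)⟩, ⟨.ofNat (nat_lit 0), .ofNat (nat_lit 0), .ofNat (nat_lit 0), .ofNat (nat_lit 0), .ofNat (nat_lit 0), .ofNat (nat_lit 0), .ofNat (nat_lit 0), .ofNat (nat_lit 0)⟩⟩, []⟩
noncomputable def p014_l7 : Lf2 := ⟨nat_lit 0, nat_lit 10, [nat_lit 0, nat_lit 5, nat_lit 5, nat_lit 20], false, nat_lit 0, nat_lit 0, nat_lit 0, nat_lit 0, ⟨nat_lit 1000, nat_lit 0, nat_lit 0, nat_lit 0, nat_lit 0, nat_lit 0, nat_lit 0, nat_lit 0, nat_lit 0, nat_lit 0, nat_lit 0, nat_lit 0, nat_lit 0, nat_lit 0, nat_lit 0, nat_lit 0, false, false⟩,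
 nat_lit 0, nat_lit 7278, nat_lit 0, nat_lit 0, nat_lit 5246, nat_lit 11434, nat_lit 1208, nat_lit 0, nat_lit 0, nat_lit 708, nat_lit 0, nat_lit 0, nat_lit 0, nat_lit 0, nat_lit 0, nat_lit 0, nat_lit 0, nat_lit 0, [],
 ⟨p014_k5, nat_lit 0, nat_lit 0, nat_lit 378, nat_lit 0, nat_lit 502635, [nat_lit 3282000000, nat_lit 6250000000, nat_lit 7968000000], [], [nat_lit 24239536508, nat_lit 24728759184, nat_lit 33642892077, nat_lit 33156527048], nat_lit 1271250, nat_lit 1271250, nat_lit 1100001, nat_lit 2881000, nat_lit 0, nat_lit 0, [nat_lit 780000, nat_lit 1435000, nat_lit 1271250], [nat_lit 18, nat_lit 40, nat_lit 80, nat_lit 80, nat_lit 2, nat_lit 317, nat_lit 100, nat_lit 10]⟩, ⟨p014_k3, nat_lit 0, nat_lit 0, nat_lit 322, nat_lit 0, nat_lit 0, [nat_lit 7968000000, nat_lit 11872000000, nat_lit 14058000000], [], [nat_lit 34686827708, nat_lit 35185290692, nat_lit 48767967523, nat_lit 48411274201],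 nat_lit 0, nat_lit 0, nat_lit 0, nat_lit 0, nat_lit 0, nat_lit 0, [], [nat_lit 62, nat_lit 40, nat_lit 80, nat_lit 80, nat_lit 58, nat_lit 373, nat_lit 150, nat_lit 9]⟩,
 zbF0, []⟩
noncomputable def p014_l8 : Lf2 := ⟨nat_lit 0, nat_lit 10, [nat_lit 0, nat_lit 5, nat_lit 5, nat_lit 20], false, nat_lit 0, nat_lit 0, nat_lit 0, nat_lit 0, ⟨nat_lit 0, nat_lit 0, nat_lit 1000, nat_lit 4, nat_lit 107, nat_lit 0, nat_lit 0, nat_lit 0, nat_lit 0, nat_lit 215, nat_lit 106667, nat_lit 295, nat_lit 62518302, nat_lit 0, nat_lit 0, nat_lit 1227603, false, false⟩,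
 nat_lit 0, nat_lit 4847, nat_lit 0, nat_lit 0, nat_lit 3084, nat_lit 0, nat_lit 0, nat_lit 0, nat_lit 0, nat_lit 0, nat_lit 0, nat_lit 0, nat_lit 0, nat_lit 0, nat_lit 129, nat_lit 619000, nat_lit 0, nat_lit 0, [(nat_lit 12, [(nat_lit 5, nat_lit 635), (nat_lit 6, nat_lit 365)]), (nat_lit 15, [(nat_lit 5, nat_lit 635), (nat_lit 6, nat_lit 365)])],
 ⟨p014_k0, nat_lit 0, nat_lit 0, nat_lit 477, nat_lit 0, nat_lit 361573, [nat_lit 2799690000, nat_lit 1825780001, nat_lit 275662000], [], [nat_lit 17655226850, nat_lit 18940962229, nat_lit 19578572034, nat_lit 19199330832], nat_lit 1271250, nat_lit 1271250, nat_lit 21650, nat_lit 1100001, nat_lit 0, nat_lit 0, [nat_lit 780000, nat_lit 1435000, nat_lit 1271250], [nat_lit 8, nat_lit 40, nat_lit 80, nat_lit 80, nat_lit 1, nat_lit 249, nat_lit 40, nat_lit 8]⟩, ⟨p014_k3, nat_lit 0, nat_lit 0, nat_lit 872, nat_lit 0, nat_lit 797552, [nat_lit 0, nat_lit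 0, nat_lit 0], [], [nat_lit 0, nat_lit 0, nat_lit 0, nat_lit 0], nat_lit 1100001, nat_lit 1442500, nat_lit 21650, nat_lit 1100001, nat_lit 0, nat_lit 0, [nat_lit 1695000, nat_lit 1271250, nat_lit 1271250], [nat_lit 62, nat_lit 40, nat_lit 80, nat_lit 80, nat_lit 58, nat_lit 317, nat_lit 100, nat_lit 8]⟩,
 ⟨nat_lit 4472, nat_lit 5478, ⟨.ofNat (nat_lit 90113), .ofNat (nat_lit 382351), .ofNat (nat_lit 132827), .ofNat (nat_lit 425065), .ofNat (nat_lit 123773), .ofNat (nat_lit 388887), .ofNat (nat_lit 166906), .ofNat (nat_lit 432020)⟩, ⟨.ofNat (nat_lit 0), .ofNat (nat_lit 0), .ofNat (nat_lit 0), .ofNat (nat_lit 0), .ofNat (nat_lit 0), .ofNat (nat_lit 0), .ofNat (nat_lit 0), .ofNat (nat_lit 0)⟩⟩, [⟨nat_lit 0, nat_lit 100, nat_lit 80, nat_lit 60, nat_lit 54580422⟩]⟩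
noncomputable def p014_l9 : Lf2 := ⟨nat_lit 0, nat_lit 10, [nat_lit 0, nat_lit 5, nat_lit 5, nat_lit 20], false, nat_lit 0, nat_lit 0, nat_lit 0, nat_lit 0, ⟨nat_lit 0, nat_lit 0, nat_lit 1000, nat_lit 4, nat_lit 191, nat_lit 0, nat_lit 0, nat_lit 0, nat_lit 0, nat_lit 215, nat_lit 5017, nat_lit 222, nat_lit 54516379, nat_lit 0, nat_lit 0, nat_lit 2404232, false, true⟩,
 nat_lit 0, nat_lit 5227, nat_lit 0, nat_lit 0, nat_lit 3326, nat_lit 0, nat_lit 100, nat_lit 0, nat_lit 0, nat_lit 0, nat_lit 0, nat_lit 0, nat_lit 0, nat_lit 0, nat_lit 86, nat_lit 400000, nat_lit 0, nat_lit 0, [(nat_lit 12, [(nat_lit 5, nat_lit 1000)]), (nat_lit 15, [(nat_lit 5, nat_lit 1000)])],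
 ⟨p014_k0, nat_lit 0, nat_lit 0, nat_lit 348, nat_lit 0, nat_lit 361573, [nat_lit 2347200000, nat_lit 1180400000, nat_lit 174400000], [], [nat_lit 16584306308, nat_lit 18536823924, nat_lit 19784342656, nat_lit 20466347460], nat_lit 1271250, nat_lit 1271250, nat_lit 1100001, nat_lit 1785000, nat_lit 0, nat_lit 0, [nat_lit 780000, nat_lit 1435000, nat_lit 1271250], [nat_lit 8, nat_lit 40, nat_lit 80, nat_lit 80, nat_lit 1, nat_lit 272, nat_lit 60, nat_lit 8]⟩, ⟨p014_k3, nat_lit 0, nat_lit 0, nat_lit 764, nat_lit 0, nat_lit 797552, [nat_lit 0, nat_lit 0, nat_lit 0], [], [nat_lit 0, nat_lit 0, nat_lit 0, nat_lit 0], nat_lit 1100001, nat_lit 1442500, nat_lit 1100001, nat_lit 1785000, nat_lit 0, nat_lit 0, [nat_lit 1695000, nat_lit 1271250, nat_lit 1271250], [nat_lit 62, nat_lit 40, nat_lit 80, nat_lit 80, nat_lit 58, nat_lit 345, nat_lit 125, nat_lit 8]⟩,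
 ⟨nat_lit 4472, nat_lit 5478, ⟨.ofNat (nat_lit 382351), .ofNat (nat_lit 532217), .ofNat (nat_lit 425065), .ofNat (nat_lit 574895), .ofNat (nat_lit 388887), .ofNat (nat_lit 524844), .ofNat (nat_lit 432020), .ofNat (nat_lit 567940)⟩, ⟨.ofNat (nat_lit 0), .ofNat (nat_lit 0), .ofNat (nat_lit 0), .ofNat (nat_lit 0), .ofNat (nat_lit 0), .ofNat (nat_lit 0), .ofNat (nat_lit 0), .ofNat (nat_lit 0)⟩⟩, []⟩
noncomputable def p014_l10 : Lf2 := ⟨nat_lit 0, nat_lit 10, [nat_lit 0, nat_lit 5, nat_lit 5, nat_lit 20], false, nat_lit 0, nat_lit 0, nat_lit 0, nat_lit 0, ⟨nat_lit 153, nat_lit 0, nat_lit 847, nat_lit 6, nat_lit 250, nat_lit 0, nat_lit 0, nat_lit 0, nat_lit 0, nat_lit 215, nat_lit 178270, nat_lit 200, nat_lit 48181930, nat_lit 0, nat_lit 0, nat_lit 2968849, false, true⟩,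
 nat_lit 5113, nat_lit 0, nat_lit 0, nat_lit 0, nat_lit 3253, nat_lit 1704, nat_lit 0, nat_lit 0, nat_lit 0, nat_lit 307, nat_lit 0, nat_lit 0, nat_lit 0, nat_lit 0, nat_lit 76, nat_lit 591400, nat_lit 0, nat_lit 0, [(nat_lit 12, [(nat_lit 5, nat_lit 426), (nat_lit 6, nat_lit 421)])],
 ⟨p014_k1, nat_lit 0, nat_lit 0, nat_lit 294, nat_lit 0, nat_lit 218826, [nat_lit 2325668400, nat_lit 2282518600, nat_lit 316349200], [], [nat_lit 20370651260, nat_lit 21132248126, nat_lit 23140591124, nat_lit 23824360100], nat_lit 1271250, nat_lit 1271250, nat_lit 1271250, nat_lit 1271250, nat_lit 0, nat_lit 0, [nat_lit 780000, nat_lit 1100000, nat_lit 2127500], [nat_lit 42, nat_lit 40, nat_lit 80, nat_lit 80, nat_lit 13, nat_lit 317, nat_lit 100, nat_lit 9]⟩, ⟨p014_k6, nat_lit 0, nat_lit 0, nat_lit 574, nat_lit 0, nat_lit 475159, [nat_lit 1219104000, nat_lit 1505826000, nat_lit 2150874000], [], [nat_lit 5827415978,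 nat_lit 5762349158, nat_lit 6208724726, nat_lit 6100523858], nat_lit 1100001, nat_lit 1442500, nat_lit 1271250, nat_lit 1271250, nat_lit 0, nat_lit 0, [nat_lit 1695000, nat_lit 1271250, nat_lit 1271250], [nat_lit 92, nat_lit 40, nat_lit 80, nat_lit 80, nat_lit 32, nat_lit 373, nat_lit 150, nat_lit 9]⟩,
 ⟨nat_lit 5000, nat_lit 5478, ⟨.ofNat (nat_lit 532217), .ofNat (nat_lit 682065), .ofNat (nat_lit 574920), .ofNat (nat_lit 724760), .ofNat (nat_lit 528570), .ofNat (nat_lit 671409), .ofNat (nat_lit 571415), .ofNat (nat_lit 714246)⟩, ⟨.ofNat (nat_lit 0), .ofNat (nat_lit 0), .ofNat (nat_lit 0), .ofNat (nat_lit 0), .ofNat (nat_lit 0), .ofNat (nat_lit 0), .ofNat (nat_lit 0), .ofNat (nat_lit 0)⟩⟩, []⟩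
noncomputable def p014_l11 : Lf2 := ⟨nat_lit 0, nat_lit 10, [nat_lit 0, nat_lit 5, nat_lit 5, nat_lit 20], false, nat_lit 0, nat_lit 0, nat_lit 0, nat_lit 0, ⟨nat_lit 958, nat_lit 42, nat_lit 0, nat_lit 8, nat_lit 304, nat_lit 0, nat_lit 0, nat_lit 0, nat_lit 0, nat_lit 0, nat_lit 0, nat_lit 0, nat_lit 42468970, nat_lit 24531030, nat_lit 0, nat_lit 3284331, true, true⟩,
 nat_lit 23721, nat_lit 0, nat_lit 0, nat_lit 0, nat_lit 5377, nat_lit 7906, nat_lit 1429, nat_lit 0, nat_lit 0, nat_lit 1641, nat_lit 0, nat_lit 0, nat_lit 0, nat_lit 0, nat_lit 0, nat_lit 42000, nat_lit 0, nat_lit 0, [(nat_lit 12, [(nat_lit 2, nat_lit 42)])],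
 ⟨p014_k1, nat_lit 0, nat_lit 0, nat_lit 290, nat_lit 0, nat_lit 157382, [nat_lit 3227860320, nat_lit 4600824800, nat_lit 9416288000], [], [nat_lit 29238460602, nat_lit 29579593209, nat_lit 32751058122, nat_lit 33105925512], nat_lit 1271250, nat_lit 1271250, nat_lit 1271250, nat_lit 1271250, nat_lit 0, nat_lit 0, [nat_lit 780000, nat_lit 1100000, nat_lit 2127500], [nat_lit 42, nat_lit 40, nat_lit 80, nat_lit 80, nat_lit 13, nat_lit 203, nat_lit 0, nat_lit 5]⟩, ⟨p014_k6, nat_lit 0, nat_lit 0, nat_lit 481, nat_lit 0, nat_lit 341740, [nat_lit 7633344000, nat_lit 9428636000, nat_lit 13467564000], [], [nat_lit 41830612210, nat_lit 41492539585, nat_lit 44343260542, nat_lit 43833606741], nat_lit 1100001, nat_lit 1442500, nat_lit 1271250, nat_lit 1271250, nat_lit 0, nat_lit 0, [nat_lit 1695000, nat_lit 1271250, nat_lit 1271250], [nat_lit 92, nat_lit 40, nat_lit 80, nat_lit 80, nat_lit 32, nat_lit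 373, nat_lit 150, nat_lit 8]⟩,
 ⟨nat_lit 5244, nat_lit 5478, ⟨.ofNat (nat_lit 682079), .ofNat (nat_lit 801965), .ofNat (nat_lit 724787), .ofNat (nat_lit 844675), .ofNat (nat_lit 676736), .ofNat (nat_lit 793804), .ofNat (nat_lit 719502), .ofNat (nat_lit 836570)⟩, ⟨.ofNat (nat_lit 0), .ofNat (nat_lit 0), .ofNat (nat_lit 0), .ofNat (nat_lit 0), .ofNat (nat_lit 0), .ofNat (nat_lit 0), .ofNat (nat_lit 0), .ofNat (nat_lit 0)⟩⟩, []⟩
noncomputable def p014_l12 : Lf2 := ⟨nat_lit 0, nat_lit 10, [nat_lit 0, nat_lit 5, nat_lit 5, nat_lit 20], false, nat_lit 0, nat_lit 0, nat_lit 0, nat_lit 0, ⟨nat_lit 188, nat_lit 561, nat_lit 251, nat_lit 8, nat_lit 288, nat_lit 0, nat_lit 0, nat_lit 0, nat_lit 0, nat_lit 215, nat_lit 264580, nat_lit 200, nat_lit 44159037, nat_lit 22840963, nat_lit 0, nat_lit 3208185, false, true⟩,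
 nat_lit 5915, nat_lit 0, nat_lit 0, nat_lit 0, nat_lit 3928, nat_lit 1971, nat_lit 397, nat_lit 0, nat_lit 0, nat_lit 355, nat_lit 0, nat_lit 0, nat_lit 0, nat_lit 0, nat_lit 0, nat_lit 324800, nat_lit 0, nat_lit 0, [(nat_lit 12, [(nat_lit 1, nat_lit 561), (nat_lit 5, nat_lit 251)])],
 ⟨p014_k7, nat_lit 0, nat_lit 0, nat_lit 251, nat_lit 0, nat_lit 174514, [nat_lit 2069194200, nat_lit 2485543200, nat_lit 2591732000], [], [nat_lit 26266598094, nat_lit 26606615726, nat_lit 28110586020, nat_lit 28443744019], nat_lit 1271250, nat_lit 1271250, nat_lit 1271250, nat_lit 1271250, nat_lit 0, nat_lit 0, [nat_lit 780000, nat_lit 1100000, nat_lit 1785000], [nat_lit 36, nat_lit 40, nat_lit 80, nat_lit 80, nat_lit 7, nat_lit 203, nat_lit 0, nat_lit 6]⟩, ⟨p014_k6, nat_lit 0, nat_lit 0, nat_lit 499, nat_lit 0, nat_lit 397923, [nat_lit 1497984000, nat_lit 1850296000, nat_lit 2642904000], [], [nat_lit 7823264026,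 nat_lit 7794076047, nat_lit 8241937086, nat_lit 8205867549], nat_lit 1100001, nat_lit 1184688, nat_lit 1271250, nat_lit 1271250, nat_lit 0, nat_lit 0, [nat_lit 1695000, nat_lit 1271250, nat_lit 1271250], [nat_lit 92, nat_lit 40, nat_lit 80, nat_lit 80, nat_lit 32, nat_lit 373, nat_lit 150, nat_lit 8]⟩,
 ⟨nat_lit 5000, nat_lit 5245, ⟨.ofNat (nat_lit 676739), .ofNat (nat_lit 757224), .ofNat (nat_lit 687430), .ofNat (nat_lit 767915), .ofNat (nat_lit 671425), .ofNat (nat_lit 749993), .ofNat (nat_lit 682138), .ofNat (nat_lit 760706)⟩, ⟨.ofNat (nat_lit 0), .ofNat (nat_lit 0), .ofNat (nat_lit 0), .ofNat (nat_lit 0), .ofNat (nat_lit 0), .ofNat (nat_lit 0), .ofNat (nat_lit 0), .ofNat (nat_lit 0)⟩⟩, [⟨nat_lit 13, nat_lit 89, nat_lit 63, nat_lit 100, nat_lit 140870053⟩]⟩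
noncomputable def p014_l13 : Lf2 := ⟨nat_lit 0, nat_lit 10, [nat_lit 0, nat_lit 5, nat_lit 5, nat_lit 20], false, nat_lit 0, nat_lit 0, nat_lit 0, nat_lit 0, ⟨nat_lit 378, nat_lit 622, nat_lit 0, nat_lit 8, nat_lit 295, nat_lit 0, nat_lit 0, nat_lit 0, nat_lit 0, nat_lit 0, nat_lit 0, nat_lit 0, nat_lit 43411837, nat_lit 23588163, nat_lit 0, nat_lit 3243568, false, true⟩,
 nat_lit 8917, nat_lit 0, nat_lit 0, nat_lit 0, nat_lit 4387, nat_lit 3180, nat_lit 733, nat_lit 0, nat_lit 0, nat_lit 678, nat_lit 0, nat_lit 0, nat_lit 0, nat_lit 0, nat_lit 0, nat_lit 248800, nat_lit 0, nat_lit 0, [(nat_lit 12, [(nat_lit 1, nat_lit 622)])],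
 ⟨p014_k7, nat_lit 0, nat_lit 0, nat_lit 255, nat_lit 0, nat_lit 182233, [nat_lit 2505370800, nat_lit 3373589600, nat_lit 4680108000], [], [nat_lit 27563791526, nat_lit 27914661754, nat_lit 29838802434, nat_lit 30182317317], nat_lit 1271250, nat_lit 1271250, nat_lit 1271250, nat_lit 1271250, nat_lit 0, nat_lit 0, [nat_lit 780000, nat_lit 1100000, nat_lit 1785000], [nat_lit 36, nat_lit 40, nat_lit 80, nat_lit 80, nat_lit 7, nat_lit 203, nat_lit 0, nat_lit 6]⟩, ⟨p014_k8, nat_lit 0, nat_lit 0, nat_lit 491, nat_lit 0, nat_lit 381859, [nat_lit 3011904000, nat_lit 3720276000, nat_lit 5313924000], [], [nat_lit 15678780798, nat_lit 15656173476, nat_lit 16493326872, nat_lit 16444235929], nat_lit 1184688, nat_lit 1271250, nat_lit 1271250, nat_lit 1271250, nat_lit 0, nat_lit 0, [nat_lit 1695000, nat_lit 1271250, nat_lit 1271250], [nat_lit 92, nat_lit 40, nat_lit 80, nat_lit 80, nat_lit 32, nat_lit 373,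 nat_lit 150, nat_lit 8]⟩,
 ⟨nat_lit 5000, nat_lit 5245, ⟨.ofNat (nat_lit 687430), .ofNat (nat_lit 782549), .ofNat (nat_lit 698122), .ofNat (nat_lit 793240), .ofNat (nat_lit 682138), .ofNat (nat_lit 774991), .ofNat (nat_lit 692851), .ofNat (nat_lit 785704)⟩, ⟨.ofNat (nat_lit 0), .ofNat (nat_lit 0), .ofNat (nat_lit 0), .ofNat (nat_lit 0), .ofNat (nat_lit 0), .ofNat (nat_lit 0), .ofNat (nat_lit 0), .ofNat (nat_lit 0)⟩⟩, [⟨nat_lit 13, nat_lit 89, nat_lit 59, nat_lit 100, nat_lit 68979782⟩]⟩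
noncomputable def p014_l14 : Lf2 := ⟨nat_lit 0, nat_lit 10, [nat_lit 0, nat_lit 5, nat_lit 5, nat_lit 20], false, nat_lit 0, nat_lit 0, nat_lit 0, nat_lit 0, ⟨nat_lit 1000, nat_lit 0, nat_lit 0, nat_lit 0, nat_lit 0, nat_lit 0, nat_lit 0, nat_lit 0, nat_lit 0, nat_lit 0, nat_lit 0, nat_lit 0, nat_lit 0, nat_lit 0, nat_lit 0, nat_lit 0, false, false⟩,
 nat_lit 23555, nat_lit 0, nat_lit 0, nat_lit 0, nat_lit 5083, nat_lit 8957, nat_lit 1402, nat_lit 0, nat_lit 0, nat_lit 1841, nat_lit 0, nat_lit 0, nat_lit 0, nat_lit 0, nat_lit 0, nat_lit 0, nat_lit 0, nat_lit 0, [],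
 ⟨p014_k7, nat_lit 0, nat_lit 0, nat_lit 265, nat_lit 0, nat_lit 208387, [nat_lit 3282000000, nat_lit 4688000000, nat_lit 7968000000], [], [nat_lit 28687115084, nat_lit 29054622910, nat_lit 31994645434, nat_lit 32589716759], nat_lit 1271250, nat_lit 1271250, nat_lit 1271250, nat_lit 1271250, nat_lit 0, nat_lit 0, [nat_lit 780000, nat_lit 1100000, nat_lit 1785000], [nat_lit 36, nat_lit 40, nat_lit 80, nat_lit 80, nat_lit 7, nat_lit 203, nat_lit 0, nat_lit 6]⟩, ⟨p014_k9, nat_lit 0, nat_lit 0, nat_lit 496, nat_lit 0, nat_lit 403326, [nat_lit 7968000000, nat_lit 9842000000, nat_lit 14058000000], [], [nat_lit 39959181216, nat_lit 39701914120, nat_lit 42052026222, nat_lit 41814847981], nat_lit 1271250, nat_lit 1271250, nat_lit 1271250, nat_lit 1271250, nat_lit 0, nat_lit 0, [nat_lit 1695000, nat_lit 1271250, nat_lit 1271250], [nat_lit 92, nat_lit 40, nat_lit 80, nat_lit 80, nat_lit 32, nat_lit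 373, nat_lit 150, nat_lit 8]⟩,
 zbF0, []⟩
noncomputable def p014_l15 : Lf2 := ⟨nat_lit 1, nat_lit 10, [nat_lit 0, nat_lit 5, nat_lit 5, nat_lit 20], false, nat_lit 0, nat_lit 0, nat_lit 0, nat_lit 0, zbN0,
 nat_lit 0, nat_lit 0, nat_lit 0, nat_lit 0, nat_lit 0, nat_lit 0, nat_lit 0, nat_lit 0, nat_lit 0, nat_lit 0, nat_lit 0, nat_lit 0, nat_lit 0, nat_lit 0, nat_lit 0, nat_lit 0, nat_lit 0, nat_lit 0, [],
 C1.Rw.none, C1.Rw.none,
 zbF0, []⟩
noncomputable def p014_l16 : Lf2 := ⟨nat_lit 0, nat_lit 10, [nat_lit 0, nat_lit 5, nat_lit 5, nat_lit 20], false, nat_lit 0, nat_lit 0, nat_lit 0, nat_lit 0, ⟨nat_lit 136, nat_lit 132, nat_lit 732, nat_lit 6, nat_lit 243, nat_lit 0, nat_lit 0, nat_lit 0, nat_lit 0, nat_lit 215, nat_lit 114452, nat_lit 200, nat_lit 48953681, nat_lit 18046319, nat_lit 0, nat_lit 2913045, false, true⟩,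
 nat_lit 4762, nat_lit 0, nat_lit 0, nat_lit 0, nat_lit 3296, nat_lit 1587, nat_lit 0, nat_lit 0, nat_lit 0, nat_lit 288, nat_lit 0, nat_lit 0, nat_lit 0, nat_lit 0, nat_lit 27, nat_lit 421200, nat_lit 0, nat_lit 0, [(nat_lit 15, [(nat_lit 1, nat_lit 132), (nat_lit 5, nat_lit 606), (nat_lit 6, nat_lit 126)])],
 ⟨p014_k2, nat_lit 0, nat_lit 0, nat_lit 280, nat_lit 0, nat_lit 308652, [nat_lit 1957509600, nat_lit 1581596000, nat_lit 72344800], [], [nat_lit 21326626960, nat_lit 22093946272, nat_lit 24223659056, nat_lit 25014503456], nat_lit 1271250, nat_lit 1271250, nat_lit 1271250, nat_lit 1271250, nat_lit 0, nat_lit 0, [nat_lit 780000, nat_lit 1100000, nat_lit 1785000], [nat_lit 36, nat_lit 40, nat_lit 80, nat_lit 80, nat_lit 7, nat_lit 203, nat_lit 0, nat_lit 6]⟩, ⟨p014_k6, nat_lit 0, nat_lit 0, nat_lit 689, nat_lit 0, nat_lit 750774, [nat_lit 1083648000, nat_lit 1338512000, nat_lit 1911888000],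 [], [nat_lit 5185633356, nat_lit 5150457522, nat_lit 5389079572, nat_lit 5344563050], nat_lit 1100001, nat_lit 1271250, nat_lit 1271250, nat_lit 1271250, nat_lit 0, nat_lit 0, [nat_lit 1695000, nat_lit 1271250, nat_lit 1271250], [nat_lit 92, nat_lit 40, nat_lit 80, nat_lit 80, nat_lit 32, nat_lit 345, nat_lit 125, nat_lit 8]⟩,
 ⟨nat_lit 4472, nat_lit 5000, ⟨.ofNat (nat_lit 528570), .ofNat (nat_lit 671427), .ofNat (nat_lit 549999), .ofNat (nat_lit 692851), .ofNat (nat_lit 524844), .ofNat (nat_lit 660800), .ofNat (nat_lit 546410), .ofNat (nat_lit 682362)⟩, ⟨.ofNat (nat_lit 0), .ofNat (nat_lit 0), .ofNat (nat_lit 0), .ofNat (nat_lit 0), .ofNat (nat_lit 0), .ofNat (nat_lit 0), .ofNat (nat_lit 0), .ofNat (nat_lit 0)⟩⟩, []⟩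
noncomputable def p014_l17 : Lf2 := ⟨nat_lit 0, nat_lit 10, [nat_lit 0, nat_lit 5, nat_lit 5, nat_lit 20], false, nat_lit 0, nat_lit 0, nat_lit 0, nat_lit 0, ⟨nat_lit 210, nat_lit 292, nat_lit 498, nat_lit 6, nat_lit 251, nat_lit 0, nat_lit 0, nat_lit 0, nat_lit 0, nat_lit 215, nat_lit 157290, nat_lit 200, nat_lit 48021723, nat_lit 18978277, nat_lit 0, nat_lit 2980019, true, true⟩,
 nat_lit 5446, nat_lit 0, nat_lit 0, nat_lit 0, nat_lit 3770, nat_lit 2071, nat_lit 0, nat_lit 0, nat_lit 0, nat_lit 422, nat_lit 0, nat_lit 0, nat_lit 0, nat_lit 0, nat_lit 0, nat_lit 488800, nat_lit 0, nat_lit 0, [(nat_lit 15, [(nat_lit 1, nat_lit 292), (nat_lit 5, nat_lit 210), (nat_lit 6, nat_lit 288)])],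
 ⟨p014_k2, nat_lit 0, nat_lit 0, nat_lit 286, nat_lit 0, nat_lit 327883, [nat_lit 1837550400, nat_lit 1772065600, nat_lit 413714400], [], [nat_lit 22626491900, nat_lit 23427854840, nat_lit 25275406040, nat_lit 25977431520], nat_lit 1271250, nat_lit 1271250, nat_lit 1271250, nat_lit 1271250, nat_lit 0, nat_lit 0, [nat_lit 780000, nat_lit 1100000, nat_lit 1785000], [nat_lit 36, nat_lit 40, nat_lit 80, nat_lit 80, nat_lit 7, nat_lit 203, nat_lit 0, nat_lit 6]⟩, ⟨p014_k9, nat_lit 0, nat_lit 0, nat_lit 645, nat_lit 0, nat_lit 674473, [nat_lit 1673280000, nat_lit 2066820000, nat_lit 2952180000], [], [nat_lit 7535172092, nat_lit 7511141300, nat_lit 7889598938, nat_lit 7835461800], nat_lit 1271250, nat_lit 1271250, nat_lit 1271250, nat_lit 1271250, nat_lit 0, nat_lit 0, [nat_lit 1695000, nat_lit 1271250, nat_lit 1271250], [nat_lit 92, nat_lit 40, nat_lit 80, nat_lit 80, nat_lit 32, nat_lit 373, nat_lit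 150, nat_lit 9]⟩,
 ⟨nat_lit 4472, nat_lit 5000, ⟨.ofNat (nat_lit 549999), .ofNat (nat_lit 692851), .ofNat (nat_lit 571423), .ofNat (nat_lit 714270), .ofNat (nat_lit 546410), .ofNat (nat_lit 682362), .ofNat (nat_lit 567973), .ofNat (nat_lit 703919)⟩, ⟨.ofNat (nat_lit 0), .ofNat (nat_lit 0), .ofNat (nat_lit 0), .ofNat (nat_lit 0), .ofNat (nat_lit 0), .ofNat (nat_lit 0), .ofNat (nat_lit 0), .ofNat (nat_lit 0)⟩⟩, []⟩
noncomputable def p014_l18 : Lf2 := ⟨nat_lit 0, nat_lit 10, [nat_lit 0, nat_lit 5, nat_lit 5, nat_lit 20], false, nat_lit 0, nat_lit 0, nat_lit 0, nat_lit 0, ⟨nat_lit 200, nat_lit 800, nat_lit 0, nat_lit 8, nat_lit 288, nat_lit 0, nat_lit 0, nat_lit 0, nat_lit 0, nat_lit 0, nat_lit 0, nat_lit 0, nat_lit 44130872, nat_lit 22869128, nat_lit 0, nat_lit 3209568, false, true⟩,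
 nat_lit 5919, nat_lit 0, nat_lit 0, nat_lit 0, nat_lit 4097, nat_lit 1972, nat_lit 0, nat_lit 0, nat_lit 0, nat_lit 350, nat_lit 0, nat_lit 0, nat_lit 0, nat_lit 0, nat_lit 0, nat_lit 761600, nat_lit 0, nat_lit 0, [(nat_lit 15, [(nat_lit 1, nat_lit 64), (nat_lit 2, nat_lit 736)])],
 ⟨p014_k2, nat_lit 0, nat_lit 0, nat_lit 258, nat_lit 0, nat_lit 198788, [nat_lit 2244032640, nat_lit 2683686401, nat_lit 1285285333], [], [nat_lit 26873345830, nat_lit 27054758602, nat_lit 28940481326, nat_lit 29130362222], nat_lit 1271250, nat_lit 1271250, nat_lit 1271250, nat_lit 1271250, nat_lit 0, nat_lit 0, [nat_lit 780000, nat_lit 1100000, nat_lit 1785000], [nat_lit 36, nat_lit 40, nat_lit 80, nat_lit 80, nat_lit 7, nat_lit 203, nat_lit 0, nat_lit 6]⟩, ⟨p014_k6, nat_lit 0, nat_lit 0, nat_lit 562, nat_lit 0, nat_lit 469359, [nat_lit 1593600000, nat_lit 1968400000, nat_lit 2811600000], [], [nat_lit 8636800446,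 nat_lit 8586622566, nat_lit 8990460392, nat_lit 8925690276], nat_lit 1100001, nat_lit 1271250, nat_lit 1271250, nat_lit 1271250, nat_lit 0, nat_lit 0, [nat_lit 1695000, nat_lit 1271250, nat_lit 1271250], [nat_lit 92, nat_lit 40, nat_lit 80, nat_lit 80, nat_lit 32, nat_lit 373, nat_lit 150, nat_lit 8]⟩,
 ⟨nat_lit 4873, nat_lit 5000, ⟨.ofNat (nat_lit 671427), .ofNat (nat_lit 749998), .ofNat (nat_lit 692855), .ofNat (nat_lit 771426), .ofNat (nat_lit 668775), .ofNat (nat_lit 746393), .ofNat (nat_lit 690230), .ofNat (nat_lit 767849)⟩, ⟨.ofNat (nat_lit 0), .ofNat (nat_lit 0), .ofNat (nat_lit 0), .ofNat (nat_lit 0), .ofNat (nat_lit 0), .ofNat (nat_lit 0), .ofNat (nat_lit 0), .ofNat (nat_lit 0)⟩⟩, [⟨nat_lit 13, nat_lit 87, nat_lit 59, nat_lit 100, nat_lit 140899578⟩]⟩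
noncomputable def p014_l19 : Lf2 := ⟨nat_lit 0, nat_lit 10, [nat_lit 0, nat_lit 5, nat_lit 5, nat_lit 20], false, nat_lit 0, nat_lit 0, nat_lit 0, nat_lit 0, ⟨nat_lit 183, nat_lit 787, nat_lit 30, nat_lit 8, nat_lit 285, nat_lit 0, nat_lit 0, nat_lit 0, nat_lit 0, nat_lit 215, nat_lit 250336, nat_lit 200, nat_lit 44408357, nat_lit 22591643, nat_lit 0, nat_lit 3195764, false, true⟩,
 nat_lit 5442, nat_lit 0, nat_lit 0, nat_lit 0, nat_lit 3845, nat_lit 1814, nat_lit 498, nat_lit 0, nat_lit 0, nat_lit 322, nat_lit 0, nat_lit 0, nat_lit 0, nat_lit 0, nat_lit 0, nat_lit 344800, nat_lit 0, nat_lit 0, [(nat_lit 15, [(nat_lit 1, nat_lit 787), (nat_lit 6, nat_lit 30)])],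
 ⟨p014_k10, nat_lit 0, nat_lit 0, nat_lit 265, nat_lit 0, nat_lit 223454, [nat_lit 2219903400, nat_lit 2701225600, nat_lit 3134628400], [], [nat_lit 26712994030, nat_lit 26882021620, nat_lit 28325534920, nat_lit 28508791303], nat_lit 1271250, nat_lit 1271250, nat_lit 1271250, nat_lit 1271250, nat_lit 0, nat_lit 0, [nat_lit 780000, nat_lit 1100000, nat_lit 1785000], [nat_lit 36, nat_lit 40, nat_lit 80, nat_lit 80, nat_lit 7, nat_lit 203, nat_lit 0, nat_lit 6]⟩, ⟨p014_k6, nat_lit 0, nat_lit 0, nat_lit 589, nat_lit 0, nat_lit 539806, [nat_lit 1458144000, nat_lit 1801086000, nat_lit 2572614000], [], [nat_lit 7879651694, nat_lit 7833144514, nat_lit 8176021546, nat_lit 8115816838], nat_lit 1100001, nat_lit 1271250, nat_lit 1271250, nat_lit 1271250, nat_lit 0, nat_lit 0, [nat_lit 1695000, nat_lit 1271250, nat_lit 1271250], [nat_lit 92, nat_lit 40, nat_lit 80, nat_lit 80, nat_lit 32, nat_lit 373,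 nat_lit 150, nat_lit 8]⟩,
 ⟨nat_lit 4743, nat_lit 4874, ⟨.ofNat (nat_lit 668775), .ofNat (nat_lit 739337), .ofNat (nat_lit 690231), .ofNat (nat_lit 760793), .ofNat (nat_lit 666122), .ofNat (nat_lit 735821), .ofNat (nat_lit 687609), .ofNat (nat_lit 757309)⟩, ⟨.ofNat (nat_lit 0), .ofNat (nat_lit 0), .ofNat (nat_lit 0), .ofNat (nat_lit 0), .ofNat (nat_lit 0), .ofNat (nat_lit 0), .ofNat (nat_lit 0), .ofNat (nat_lit 0)⟩⟩, [⟨nat_lit 13, nat_lit 86, nat_lit 61, nat_lit 100, nat_lit 115581025⟩]⟩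
noncomputable def p014_l20 : Lf2 := ⟨nat_lit 0, nat_lit 10, [nat_lit 0, nat_lit 5, nat_lit 5, nat_lit 20], false, nat_lit 0, nat_lit 0, nat_lit 0, nat_lit 0, ⟨nat_lit 244, nat_lit 756, nat_lit 0, nat_lit 8, nat_lit 300, nat_lit 0, nat_lit 0, nat_lit 0, nat_lit 0, nat_lit 0, nat_lit 0, nat_lit 0, nat_lit 42865481, nat_lit 24134519, nat_lit 0, nat_lit 3267713, true, true⟩,
 nat_lit 5865, nat_lit 0, nat_lit 0, nat_lit 0, nat_lit 4060, nat_lit 2230, nat_lit 0, nat_lit 0, nat_lit 0, nat_lit 441, nat_lit 0, nat_lit 0, nat_lit 0, nat_lit 0, nat_lit 0, nat_lit 756000, nat_lit 0, nat_lit 0, [(nat_lit 15, [(nat_lit 2, nat_lit 756)])],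
 ⟨p014_k2, nat_lit 0, nat_lit 0, nat_lit 277, nat_lit 0, nat_lit 249812, [nat_lit 2298776640, nat_lit 2783787200, nat_lit 1470451200], [], [nat_lit 27360844560, nat_lit 27703983200, nat_lit 29898131081, nat_lit 30263266954], nat_lit 1271250, nat_lit 1271250, nat_lit 1271250, nat_lit 1271250, nat_lit 0, nat_lit 0, [nat_lit 780000, nat_lit 1100000, nat_lit 1785000], [nat_lit 36, nat_lit 40, nat_lit 80, nat_lit 80, nat_lit 7, nat_lit 203, nat_lit 0, nat_lit 6]⟩, ⟨p014_k9, nat_lit 0, nat_lit 0, nat_lit 567, nat_lit 0, nat_lit 502023, [nat_lit 1944192000, nat_lit 2401448000, nat_lit 3430152000], [], [nat_lit 9817029306, nat_lit 9773987994, nat_lit 10285146351, nat_lit 10210445711], nat_lit 1271250, nat_lit 1271250, nat_lit 1271250, nat_lit 1271250, nat_lit 0, nat_lit 0, [nat_lit 1695000, nat_lit 1271250, nat_lit 1271250], [nat_lit 92, nat_lit 40, nat_lit 80, nat_lit 80, nat_lit 32, nat_lit 373,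 nat_lit 150, nat_lit 8]⟩,
 ⟨nat_lit 4743, nat_lit 5000, ⟨.ofNat (nat_lit 692854), .ofNat (nat_lit 792852), .ofNat (nat_lit 714280), .ofNat (nat_lit 814277), .ofNat (nat_lit 687608), .ofNat (nat_lit 785186), .ofNat (nat_lit 709094), .ofNat (nat_lit 806671)⟩, ⟨.ofNat (nat_lit 0), .ofNat (nat_lit 0), .ofNat (nat_lit 0), .ofNat (nat_lit 0), .ofNat (nat_lit 0), .ofNat (nat_lit 0), .ofNat (nat_lit 0), .ofNat (nat_lit 0)⟩⟩, [⟨nat_lit 13, nat_lit 85, nat_lit 57, nat_lit 100, nat_lit 116506590⟩]⟩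
noncomputable def p014_l21 : Lf2 := ⟨nat_lit 0, nat_lit 10, [nat_lit 0, nat_lit 5, nat_lit 5, nat_lit 20], false, nat_lit 0, nat_lit 0, nat_lit 0, nat_lit 0, ⟨nat_lit 498, nat_lit 502, nat_lit 0, nat_lit 8, nat_lit 296, nat_lit 0, nat_lit 0, nat_lit 0, nat_lit 0, nat_lit 0, nat_lit 0, nat_lit 0, nat_lit 43308394, nat_lit 23691606, nat_lit 0, nat_lit 3248251, true, true⟩,
 nat_lit 12268, nat_lit 0, nat_lit 0, nat_lit 0, nat_lit 5171, nat_lit 4089, nat_lit 0, nat_lit 0, nat_lit 0, nat_lit 346, nat_lit 0, nat_lit 0, nat_lit 0, nat_lit 0, nat_lit 0, nat_lit 502000, nat_lit 0, nat_lit 0, [(nat_lit 15, [(nat_lit 2, nat_lit 502)])],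
 ⟨p014_k4, nat_lit 0, nat_lit 0, nat_lit 218, nat_lit 0, nat_lit 103170, [nat_lit 2695463201, nat_lit 3638596001, nat_lit 3618069600], [], [nat_lit 29629728819, nat_lit 30073695634, nat_lit 32688700589, nat_lit 33059403329], nat_lit 1271250, nat_lit 1271250, nat_lit 1271250, nat_lit 1271250, nat_lit 0, nat_lit 0, [nat_lit 780000, nat_lit 1435000, nat_lit 1271250], [nat_lit 18, nat_lit 40, nat_lit 80, nat_lit 80, nat_lit 2, nat_lit 203, nat_lit 0, nat_lit 6]⟩, ⟨p014_k3, nat_lit 0, nat_lit 0, nat_lit 457, nat_lit 0, nat_lit 250953, [nat_lit 3968064000, nat_lit 5912256000, nat_lit 7000884000], [], [nat_lit 24789188284, nat_lit 24614112662, nat_lit 25883800253, nat_lit 25634504459], nat_lit 1100001, nat_lit 1442500, nat_lit 1271250, nat_lit 1271250, nat_lit 0, nat_lit 0, [nat_lit 1695000, nat_lit 1271250, nat_lit 1271250], [nat_lit 62, nat_lit 40, nat_lit 80, nat_lit 80, nat_lit 58, nat_lit 373,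 nat_lit 150, nat_lit 8]⟩,
 ⟨nat_lit 4743, nat_lit 5000, ⟨.ofNat (nat_lit 671427), .ofNat (nat_lit 771425), .ofNat (nat_lit 714280), .ofNat (nat_lit 814277), .ofNat (nat_lit 666121), .ofNat (nat_lit 763700), .ofNat (nat_lit 709094), .ofNat (nat_lit 806671)⟩, ⟨.ofNat (nat_lit 0), .ofNat (nat_lit 0), .ofNat (nat_lit 0), .ofNat (nat_lit 0), .ofNat (nat_lit 0), .ofNat (nat_lit 0), .ofNat (nat_lit 0), .ofNat (nat_lit 0)⟩⟩, [⟨nat_lit 13, nat_lit 86, nat_lit 61, nat_lit 100, nat_lit 110462472⟩]⟩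
noncomputable def p014_l22 : Lf2 := ⟨nat_lit 0, nat_lit 10, [nat_lit 0, nat_lit 5, nat_lit 5, nat_lit 20], false, nat_lit 0, nat_lit 0, nat_lit 0, nat_lit 0, ⟨nat_lit 158, nat_lit 641, nat_lit 201, nat_lit 8, nat_lit 279, nat_lit 0, nat_lit 0, nat_lit 0, nat_lit 0, nat_lit 215, nat_lit 194000, nat_lit 200, nat_lit 45056173, nat_lit 21943827, nat_lit 0, nat_lit 3162040, false, true⟩,
 nat_lit 4959, nat_lit 0, nat_lit 0, nat_lit 0, nat_lit 3575, nat_lit 1653, nat_lit 356, nat_lit 0, nat_lit 0, nat_lit 298, nat_lit 0, nat_lit 0, nat_lit 0, nat_lit 0, nat_lit 0, nat_lit 405200, nat_lit 0, nat_lit 0, [(nat_lit 15, [(nat_lit 1, nat_lit 641), (nat_lit 5, nat_lit 87), (nat_lit 6, nat_lit 114)])],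
 ⟨p014_k11, nat_lit 0, nat_lit 0, nat_lit 269, nat_lit 0, nat_lit 242641, [nat_lit 2039646600, nat_lit 2281437601, nat_lit 1977280000], [], [nat_lit 25990152576, nat_lit 26179132139, nat_lit 27394537116, nat_lit 27577932082], nat_lit 1271250, nat_lit 1271250, nat_lit 1271250, nat_lit 1271250, nat_lit 0, nat_lit 0, [nat_lit 780000, nat_lit 1100000, nat_lit 1785000], [nat_lit 36, nat_lit 40, nat_lit 80, nat_lit 80, nat_lit 7, nat_lit 203, nat_lit 0, nat_lit 6]⟩, ⟨p014_k6, nat_lit 0, nat_lit 0, nat_lit 611, nat_lit 0, nat_lit 599520, [nat_lit 1258944000, nat_lit 1555036000, nat_lit 2221164000], [], [nat_lit 6579463746, nat_lit 6556704751, nat_lit 6833875908, nat_lit 6804454178], nat_lit 1100001, nat_lit 1184688, nat_lit 1271250, nat_lit 1271250, nat_lit 0, nat_lit 0, [nat_lit 1695000, nat_lit 1271250, nat_lit 1271250], [nat_lit 92, nat_lit 40, nat_lit 80, nat_lit 80, nat_lit 32, nat_lit 373,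 nat_lit 150, nat_lit 8]⟩,
 ⟨nat_lit 4609, nat_lit 4744, ⟨.ofNat (nat_lit 666122), .ofNat (nat_lit 721881), .ofNat (nat_lit 676866), .ofNat (nat_lit 732625), .ofNat (nat_lit 663464), .ofNat (nat_lit 718535), .ofNat (nat_lit 674227), .ofNat (nat_lit 729298)⟩, ⟨.ofNat (nat_lit 0), .ofNat (nat_lit 0), .ofNat (nat_lit 0), .ofNat (nat_lit 0), .ofNat (nat_lit 0), .ofNat (nat_lit 0), .ofNat (nat_lit 0), .ofNat (nat_lit 0)⟩⟩, [⟨nat_lit 13, nat_lit 84, nat_lit 71, nat_lit 100, nat_lit 178449189⟩]⟩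
noncomputable def p014_l23 : Lf2 := ⟨nat_lit 0, nat_lit 10, [nat_lit 0, nat_lit 5, nat_lit 5, nat_lit 20], false, nat_lit 0, nat_lit 0, nat_lit 0, nat_lit 0, ⟨nat_lit 151, nat_lit 599, nat_lit 250, nat_lit 8, nat_lit 277, nat_lit 0, nat_lit 0, nat_lit 0, nat_lit 0, nat_lit 215, nat_lit 173578, nat_lit 200, nat_lit 45327879, nat_lit 21672121, nat_lit 0, nat_lit 3147266, false, true⟩,
 nat_lit 4755, nat_lit 0, nat_lit 0, nat_lit 0, nat_lit 3496, nat_lit 1584, nat_lit 306, nat_lit 0, nat_lit 0, nat_lit 286, nat_lit 0, nat_lit 0, nat_lit 0, nat_lit 0, nat_lit 0, nat_lit 420600, nat_lit 0, nat_lit 0, [(nat_lit 15, [(nat_lit 1, nat_lit 600), (nat_lit 5, nat_lit 114), (nat_lit 6, nat_lit 135)])],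
 ⟨p014_k12, nat_lit 0, nat_lit 0, nat_lit 275, nat_lit 0, nat_lit 266673, [nat_lit 1989934800, nat_lit 2164067600, nat_lit 1660097600], [], [nat_lit 25948955070, nat_lit 26136651870, nat_lit 27204515198, nat_lit 27398421172], nat_lit 1271250, nat_lit 1271250, nat_lit 1271250, nat_lit 1271250, nat_lit 0, nat_lit 0, [nat_lit 780000, nat_lit 1100000, nat_lit 1785000], [nat_lit 36, nat_lit 40, nat_lit 80, nat_lit 80, nat_lit 7, nat_lit 203, nat_lit 0, nat_lit 6]⟩, ⟨p014_k6, nat_lit 0, nat_lit 0, nat_lit 639, nat_lit 0, nat_lit 673702, [nat_lit 1203168000, nat_lit 1486142000, nat_lit 2122758000], [], [nat_lit 6276789132, nat_lit 6254307886, nat_lit 6490845077, nat_lit 6463175718], nat_lit 1100001, nat_lit 1184688, nat_lit 1271250, nat_lit 1271250, nat_lit 0, nat_lit 0, [nat_lit 1695000, nat_lit 1271250, nat_lit 1271250], [nat_lit 92, nat_lit 40, nat_lit 80, nat_lit 80, nat_lit 32, nat_lit 373,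 nat_lit 150, nat_lit 8]⟩,
 ⟨nat_lit 4472, nat_lit 4610, ⟨.ofNat (nat_lit 663464), .ofNat (nat_lit 711651), .ofNat (nat_lit 674227), .ofNat (nat_lit 722414), .ofNat (nat_lit 660800), .ofNat (nat_lit 708385), .ofNat (nat_lit 671583), .ofNat (nat_lit 719168)⟩, ⟨.ofNat (nat_lit 0), .ofNat (nat_lit 0), .ofNat (nat_lit 0), .ofNat (nat_lit 0), .ofNat (nat_lit 0), .ofNat (nat_lit 0), .ofNat (nat_lit 0), .ofNat (nat_lit 0)⟩⟩, [⟨nat_lit 13, nat_lit 82, nat_lit 73, nat_lit 100, nat_lit 202113988⟩]⟩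
noncomputable def p014_l24 : Lf2 := ⟨nat_lit 0, nat_lit 10, [nat_lit 0, nat_lit 5, nat_lit 5, nat_lit 20], false, nat_lit 0, nat_lit 0, nat_lit 0, nat_lit 0, ⟨nat_lit 197, nat_lit 803, nat_lit 0, nat_lit 8, nat_lit 284, nat_lit 0, nat_lit 0, nat_lit 0, nat_lit 0, nat_lit 0, nat_lit 0, nat_lit 0, nat_lit 44520365, nat_lit 22479635, nat_lit 0, nat_lit 3190084, false, true⟩,
 nat_lit 5462, nat_lit 0, nat_lit 0, nat_lit 0, nat_lit 3937, nat_lit 1947, nat_lit 459, nat_lit 0, nat_lit 0, nat_lit 369, nat_lit 0, nat_lit 0, nat_lit 0, nat_lit 0, nat_lit 0, nat_lit 321200, nat_lit 0, nat_lit 0, [(nat_lit 15, [(nat_lit 1, nat_lit 803)])],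
 ⟨p014_k11, nat_lit 0, nat_lit 0, nat_lit 280, nat_lit 0, nat_lit 276727, [nat_lit 2268774600, nat_lit 2799986401, nat_lit 3435919600], [], [nat_lit 26997705541, nat_lit 27387420616, nat_lit 28638363685, nat_lit 29006195996], nat_lit 1271250, nat_lit 1271250, nat_lit 1271250, nat_lit 1271250, nat_lit 0, nat_lit 0, [nat_lit 780000, nat_lit 1100000, nat_lit 1785000], [nat_lit 36, nat_lit 40, nat_lit 80, nat_lit 80, nat_lit 7, nat_lit 203, nat_lit 0, nat_lit 6]⟩, ⟨p014_k8, nat_lit 0, nat_lit 0, nat_lit 619, nat_lit 0, nat_lit 629232, [nat_lit 1569696000, nat_lit 1938874000, nat_lit 2769426000], [], [nat_lit 7938845800, nat_lit 7913423614, nat_lit 8280563998, nat_lit 8248642113], nat_lit 1184688, nat_lit 1271250, nat_lit 1271250, nat_lit 1271250, nat_lit 0, nat_lit 0, [nat_lit 1695000, nat_lit 1271250, nat_lit 1271250], [nat_lit 92, nat_lit 40, nat_lit 80, nat_lit 80, nat_lit 32, nat_lit 373,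 nat_lit 150, nat_lit 8]⟩,
 ⟨nat_lit 4472, nat_lit 4744, ⟨.ofNat (nat_lit 676866), .ofNat (nat_lit 739595), .ofNat (nat_lit 687610), .ofNat (nat_lit 750339), .ofNat (nat_lit 671583), .ofNat (nat_lit 732764), .ofNat (nat_lit 682366), .ofNat (nat_lit 743547)⟩, ⟨.ofNat (nat_lit 0), .ofNat (nat_lit 0), .ofNat (nat_lit 0), .ofNat (nat_lit 0), .ofNat (nat_lit 0), .ofNat (nat_lit 0), .ofNat (nat_lit 0), .ofNat (nat_lit 0)⟩⟩, [⟨nat_lit 13, nat_lit 82, nat_lit 68, nat_lit 100, nat_lit 160066653⟩]⟩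
noncomputable def p014_l25 : Lf2 := ⟨nat_lit 0, nat_lit 10, [nat_lit 0, nat_lit 5, nat_lit 5, nat_lit 20], false, nat_lit 0, nat_lit 0, nat_lit 0, nat_lit 0, ⟨nat_lit 187, nat_lit 121, nat_lit 692, nat_lit 8, nat_lit 282, nat_lit 0, nat_lit 0, nat_lit 0, nat_lit 0, nat_lit 215, nat_lit 229428, nat_lit 200, nat_lit 44746922, nat_lit 22253078, nat_lit 0, nat_lit 3178402, false, true⟩,
 nat_lit 4653, nat_lit 0, nat_lit 0, nat_lit 0, nat_lit 3354, nat_lit 1551, nat_lit 0, nat_lit 0, nat_lit 0, nat_lit 321, nat_lit 0, nat_lit 0, nat_lit 0, nat_lit 0, nat_lit 0, nat_lit 325200, nat_lit 0, nat_lit 0, [(nat_lit 15, [(nat_lit 1, nat_lit 121), (nat_lit 5, nat_lit 692)])],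
 ⟨p014_k11, nat_lit 0, nat_lit 0, nat_lit 241, nat_lit 0, nat_lit 137445, [nat_lit 1768296600, nat_lit 1371437600, nat_lit 258516667], [], [nat_lit 25924039678, nat_lit 26250485654, nat_lit 27294898532, nat_lit 27618521800], nat_lit 1271250, nat_lit 1271250, nat_lit 1271250, nat_lit 1271250, nat_lit 0, nat_lit 0, [nat_lit 780000, nat_lit 1100000, nat_lit 1785000], [nat_lit 36, nat_lit 40, nat_lit 80, nat_lit 80, nat_lit 7, nat_lit 203, nat_lit 0, nat_lit 6]⟩, ⟨p014_k6, nat_lit 0, nat_lit 0, nat_lit 481, nat_lit 0, nat_lit 350290, [nat_lit 1490016000, nat_lit 1840454000, nat_lit 2628846000], [], [nat_lit 8147689426, nat_lit 8107248366, nat_lit 8413558777, nat_lit 8371563506], nat_lit 1100001, nat_lit 1271250, nat_lit 1271250, nat_lit 1271250, nat_lit 0, nat_lit 0, [nat_lit 1695000, nat_lit 1271250, nat_lit 1271250], [nat_lit 92, nat_lit 40, nat_lit 80, nat_lit 80, nat_lit 32, nat_lit 373,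 nat_lit 150, nat_lit 8]⟩,
 ⟨nat_lit 4472, nat_lit 4744, ⟨.ofNat (nat_lit 666122), .ofNat (nat_lit 728851), .ofNat (nat_lit 687610), .ofNat (nat_lit 750339), .ofNat (nat_lit 660800), .ofNat (nat_lit 721980), .ofNat (nat_lit 682366), .ofNat (nat_lit 743547)⟩, ⟨.ofNat (nat_lit 0), .ofNat (nat_lit 0), .ofNat (nat_lit 0), .ofNat (nat_lit 0), .ofNat (nat_lit 0), .ofNat (nat_lit 0), .ofNat (nat_lit 0), .ofNat (nat_lit 0)⟩⟩, [⟨nat_lit 13, nat_lit 83, nat_lit 70, nat_lit 100, nat_lit 185942411⟩]⟩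
noncomputable def p014_l26 : Lf2 := ⟨nat_lit 0, nat_lit 10, [nat_lit 0, nat_lit 5, nat_lit 5, nat_lit 20], false, nat_lit 0, nat_lit 0, nat_lit 0, nat_lit 0, ⟨nat_lit 240, nat_lit 760, nat_lit 0, nat_lit 8, nat_lit 295, nat_lit 0, nat_lit 0, nat_lit 0, nat_lit 0, nat_lit 0, nat_lit 0, nat_lit 0, nat_lit 43414900, nat_lit 23585100, nat_lit 0, nat_lit 3243429, true, true⟩,
 nat_lit 5850, nat_lit 0, nat_lit 0, nat_lit 0, nat_lit 4217, nat_lit 2224, nat_lit 346, nat_lit 0, nat_lit 0, nat_lit 443, nat_lit 0, nat_lit 0, nat_lit 0, nat_lit 0, nat_lit 0, nat_lit 304000, nat_lit 0, nat_lit 0, [(nat_lit 15, [(nat_lit 1, nat_lit 760)])],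
 ⟨p014_k11, nat_lit 0, nat_lit 0, nat_lit 288, nat_lit 0, nat_lit 293970, [nat_lit 2323032000, nat_lit 2901088001, nat_lit 3674432000], [], [nat_lit 28226189632, nat_lit 28586339127, nat_lit 30260219453, nat_lit 30595358396], nat_lit 1271250, nat_lit 1271250, nat_lit 1271250, nat_lit 1271250, nat_lit 0, nat_lit 0, [nat_lit 780000, nat_lit 1100000, nat_lit 1785000], [nat_lit 36, nat_lit 40, nat_lit 80, nat_lit 80, nat_lit 7, nat_lit 203, nat_lit 0, nat_lit 6]⟩, ⟨p014_k9, nat_lit 0, nat_lit 0, nat_lit 611, nat_lit 0, nat_lit 618209, [nat_lit 1912320000, nat_lit 2362080000, nat_lit 3373920000], [], [nat_lit 9539569806, nat_lit 9495494030, nat_lit 9940335450, nat_lit 9868776061], nat_lit 1271250, nat_lit 1271250, nat_lit 1271250, nat_lit 1271250, nat_lit 0, nat_lit 0, [nat_lit 1695000, nat_lit 1271250, nat_lit 1271250], [nat_lit 92, nat_lit 40, nat_lit 80, nat_lit 80, nat_lit 32, nat_lit 373,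 nat_lit 150, nat_lit 8]⟩,
 ⟨nat_lit 4472, nat_lit 4744, ⟨.ofNat (nat_lit 687610), .ofNat (nat_lit 771249), .ofNat (nat_lit 709096), .ofNat (nat_lit 792736), .ofNat (nat_lit 682366), .ofNat (nat_lit 763940), .ofNat (nat_lit 703932), .ofNat (nat_lit 785505)⟩, ⟨.ofNat (nat_lit 0), .ofNat (nat_lit 0), .ofNat (nat_lit 0), .ofNat (nat_lit 0), .ofNat (nat_lit 0), .ofNat (nat_lit 0), .ofNat (nat_lit 0), .ofNat (nat_lit 0)⟩⟩, [⟨nat_lit 13, nat_lit 82, nat_lit 62, nat_lit 100, nat_lit 110326109⟩]⟩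
noncomputable def p014_l27 : Lf2 := ⟨nat_lit 0, nat_lit 10, [nat_lit 0, nat_lit 5, nat_lit 5, nat_lit 20], false, nat_lit 0, nat_lit 0, nat_lit 0, nat_lit 0, ⟨nat_lit 386, nat_lit 380, nat_lit 234, nat_lit 8, nat_lit 295, nat_lit 0, nat_lit 0, nat_lit 0, nat_lit 0, nat_lit 215, nat_lit 314222, nat_lit 200, nat_lit 43414900, nat_lit 23585100, nat_lit 0, nat_lit 3243429, true, true⟩,
 nat_lit 8534, nat_lit 0, nat_lit 0, nat_lit 0, nat_lit 4074, nat_lit 3245, nat_lit 0, nat_lit 0, nat_lit 0, nat_lit 695, nat_lit 0, nat_lit 0, nat_lit 0, nat_lit 0, nat_lit 0, nat_lit 614000, nat_lit 0, nat_lit 0, [(nat_lit 15, [(nat_lit 2, nat_lit 380), (nat_lit 6, nat_lit 234)])],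
 ⟨p014_k11, nat_lit 0, nat_lit 0, nat_lit 250, nat_lit 0, nat_lit 157033, [nat_lit 2249119200, nat_lit 2667092001, nat_lit 1620930667], [], [nat_lit 27931996198, nat_lit 28275465854, nat_lit 29887443267, nat_lit 30239433112], nat_lit 1271250, nat_lit 1271250, nat_lit 1271250, nat_lit 1271250, nat_lit 0, nat_lit 0, [nat_lit 780000, nat_lit 1100000, nat_lit 1785000], [nat_lit 36, nat_lit 40, nat_lit 80, nat_lit 80, nat_lit 7, nat_lit 203, nat_lit 0, nat_lit 6]⟩, ⟨p014_k9, nat_lit 0, nat_lit 0, nat_lit 471, nat_lit 0, nat_lit 338451, [nat_lit 3075648000, nat_lit 3799012000, nat_lit 5426388000], [], [nat_lit 15436355152, nat_lit 15390316814, nat_lit 16198862231, nat_lit 16103107944], nat_lit 1271250, nat_lit 1271250, nat_lit 1271250, nat_lit 1271250, nat_lit 0, nat_lit 0, [nat_lit 1695000, nat_lit 1271250, nat_lit 1271250], [nat_lit 92, nat_lit 40, nat_lit 80, nat_lit 80, nat_lit 32, nat_lit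 373, nat_lit 150, nat_lit 8]⟩,
 ⟨nat_lit 4472, nat_lit 4744, ⟨.ofNat (nat_lit 687610), .ofNat (nat_lit 771249), .ofNat (nat_lit 709096), .ofNat (nat_lit 792736), .ofNat (nat_lit 682366), .ofNat (nat_lit 763940), .ofNat (nat_lit 703932), .ofNat (nat_lit 785505)⟩, ⟨.ofNat (nat_lit 0), .ofNat (nat_lit 0), .ofNat (nat_lit 0), .ofNat (nat_lit 0), .ofNat (nat_lit 0), .ofNat (nat_lit 0), .ofNat (nat_lit 0), .ofNat (nat_lit 0)⟩⟩, [⟨nat_lit 13, nat_lit 82, nat_lit 62, nat_lit 100, nat_lit 99979712⟩]⟩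
noncomputable def p014_l28 : Lf2 := ⟨nat_lit 0, nat_lit 10, [nat_lit 0, nat_lit 5, nat_lit 5, nat_lit 20], true, nat_lit 0, nat_lit 0, nat_lit 0, nat_lit 0, ⟨nat_lit 0, nat_lit 1000, nat_lit 0, nat_lit 4, nat_lit 105, nat_lit 0, nat_lit 0, nat_lit 0, nat_lit 0, nat_lit 0, nat_lit 0, nat_lit 0, nat_lit 0, nat_lit 0, nat_lit 0, nat_lit 5000000, false, false⟩,
 nat_lit 0, nat_lit 7306, nat_lit 0, nat_lit 0, nat_lit 4649, nat_lit 0, nat_lit 528, nat_lit 0, nat_lit 0, nat_lit 0, nat_lit 0, nat_lit 0, nat_lit 0, nat_lit 0, nat_lit 0, nat_lit 250000, nat_lit 0, nat_lit 0, [(nat_lit 12, [(nat_lit 0, nat_lit 1000)])],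
 ⟨p014_k0, nat_lit 0, nat_lit 0, nat_lit 476, nat_lit 0, nat_lit 365197, [nat_lit 2364000000, nat_lit 2954000000, nat_lit 3510800000], [], [nat_lit 25124387025, nat_lit 25960832406, nat_lit 25818962152, nat_lit 24937348640], nat_lit 1271250, nat_lit 1271250, nat_lit 21650, nat_lit 1100001, nat_lit 0, nat_lit 0, [nat_lit 780000, nat_lit 1435000, nat_lit 1271250], [nat_lit 8, nat_lit 40, nat_lit 80, nat_lit 80, nat_lit 1, nat_lit 249, nat_lit 40, nat_lit 8]⟩, C1.Rw.none,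
 ⟨nat_lit 5000, nat_lit 5478, ⟨.ofNat (nat_lit 90113), .ofNat (nat_lit 382351), .ofNat (nat_lit 132827), .ofNat (nat_lit 425065), .ofNat (nat_lit 107141), .ofNat (nat_lit 385713), .ofNat (nat_lit 149999), .ofNat (nat_lit 428570)⟩, ⟨.ofNat (nat_lit 0), .ofNat (nat_lit 0), .ofNat (nat_lit 0), .ofNat (nat_lit 0), .ofNat (nat_lit 0), .ofNat (nat_lit 0), .ofNat (nat_lit 0), .ofNat (nat_lit 0)⟩⟩, []⟩
noncomputable def p014_l29 : Lf2 := ⟨nat_lit 0, nat_lit 10, [nat_lit 0, nat_lit 5, nat_lit 5, nat_lit 20], false, nat_lit 0, nat_lit 0, nat_lit 0, nat_lit 0, ⟨nat_lit 452, nat_lit 548, nat_lit 0, nat_lit 4, nat_lit 244, nat_lit 0, nat_lit 0, nat_lit 0, nat_lit 0, nat_lit 0, nat_lit 0, nat_lit 0, nat_lit 0, nat_lit 0, nat_lit 0, nat_lit 5000000, false, true⟩,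
 nat_lit 0, nat_lit 5759, nat_lit 0, nat_lit 0, nat_lit 3664, nat_lit 3674, nat_lit 162, nat_lit 0, nat_lit 0, nat_lit 376, nat_lit 0, nat_lit 0, nat_lit 0, nat_lit 0, nat_lit 0, nat_lit 548000, nat_lit 0, nat_lit 0, [(nat_lit 12, [(nat_lit 2, nat_lit 548)])],
 ⟨p014_k0, nat_lit 0, nat_lit 0, nat_lit 357, nat_lit 0, nat_lit 365197, [nat_lit 2763153601, nat_lit 3891627200, nat_lit 4287472000], [], [nat_lit 33246114805, nat_lit 33869894949, nat_lit 40349388769, nat_lit 38702954248], nat_lit 1271250, nat_lit 1271250, nat_lit 1100001, nat_lit 3018000, nat_lit 0, nat_lit 0, [nat_lit 780000, nat_lit 1435000, nat_lit 1271250], [nat_lit 8, nat_lit 40, nat_lit 80, nat_lit 80, nat_lit 1, nat_lit 317, nat_lit 100, nat_lit 9]⟩, ⟨p014_k3, nat_lit 0, nat_lit 0, nat_lit 328, nat_lit 0, nat_lit 0, [nat_lit 3601536000, nat_lit 5366144000, nat_lit 6354216000], [], [nat_lit 16283022552, nat_lit 16566486816,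 nat_lit 20569811005, nat_lit 20481919084], nat_lit 0, nat_lit 0, nat_lit 0, nat_lit 0, nat_lit 0, nat_lit 0, [], [nat_lit 62, nat_lit 40, nat_lit 80, nat_lit 80, nat_lit 58, nat_lit 373, nat_lit 150, nat_lit 9]⟩,
 ⟨nat_lit 5000, nat_lit 5478, ⟨.ofNat (nat_lit 382351), .ofNat (nat_lit 801938), .ofNat (nat_lit 425065), .ofNat (nat_lit 844633), .ofNat (nat_lit 385713), .ofNat (nat_lit 785675), .ofNat (nat_lit 428570), .ofNat (nat_lit 828512)⟩, ⟨.ofNat (nat_lit 0), .ofNat (nat_lit 0), .ofNat (nat_lit 0), .ofNat (nat_lit 0), .ofNat (nat_lit 0), .ofNat (nat_lit 0), .ofNat (nat_lit 0), .ofNat (nat_lit 0)⟩⟩, []⟩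
noncomputable def p014_l30 : Lf2 := ⟨nat_lit 1, nat_lit 10, [nat_lit 0, nat_lit 5, nat_lit 5, nat_lit 20], false, nat_lit 0, nat_lit 0, nat_lit 0, nat_lit 0, zbN0,
 nat_lit 0, nat_lit 0, nat_lit 0, nat_lit 0, nat_lit 0, nat_lit 0, nat_lit 0, nat_lit 0, nat_lit 0, nat_lit 0, nat_lit 0, nat_lit 0, nat_lit 0, nat_lit 0, nat_lit 0, nat_lit 0, nat_lit 0, nat_lit 0, [],
 C1.Rw.none, C1.Rw.none,
 zbF0, []⟩
noncomputable def p014_l31 : Lf2 := ⟨nat_lit 0, nat_lit 10, [nat_lit 0, nat_lit 5, nat_lit 5, nat_lit 20], true, nat_lit 0, nat_lit 0, nat_lit 0, nat_lit 0, ⟨nat_lit 0, nat_lit 1000, nat_lit 0, nat_lit 4, nat_lit 186, nat_lit 0, nat_lit 0, nat_lit 0, nat_lit 0, nat_lit 0, nat_lit 0, nat_lit 0, nat_lit 0, nat_lit 0, nat_lit 0, nat_lit 5000000, false, true⟩,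
 nat_lit 0, nat_lit 5583, nat_lit 0, nat_lit 0, nat_lit 3865, nat_lit 0, nat_lit 526, nat_lit 0, nat_lit 0, nat_lit 0, nat_lit 0, nat_lit 0, nat_lit 0, nat_lit 0, nat_lit 0, nat_lit 400000, nat_lit 0, nat_lit 0, [(nat_lit 15, [(nat_lit 1, nat_lit 1000)])],
 ⟨p014_k13, nat_lit 0, nat_lit 0, nat_lit 485, nat_lit 0, nat_lit 530436, [nat_lit 2112600000, nat_lit 2433300000], [], [nat_lit 27446826873, nat_lit 26151145263, nat_lit 31843328464, nat_lit 30311948082], nat_lit 1271250, nat_lit 1271250, nat_lit 43600, nat_lit 2670200, nat_lit 0, nat_lit 0, [nat_lit 780000, nat_lit 1762500], [nat_lit 74, nat_lit 40, nat_lit 80, nat_lit 80, nat_lit 43, nat_lit 317, nat_lit 100, nat_lit 11]⟩, C1.Rw.none,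
 ⟨nat_lit 4472, nat_lit 5000, ⟨.ofNat (nat_lit 114284), .ofNat (nat_lit 771425), .ofNat (nat_lit 157141), .ofNat (nat_lit 814263), .ofNat (nat_lit 130570), .ofNat (nat_lit 755968), .ofNat (nat_lit 173703), .ofNat (nat_lit 799081)⟩, ⟨.ofNat (nat_lit 0), .ofNat (nat_lit 0), .ofNat (nat_lit 0), .ofNat (nat_lit 0), .ofNat (nat_lit 0), .ofNat (nat_lit 0), .ofNat (nat_lit 0), .ofNat (nat_lit 0)⟩⟩, [⟨nat_lit 13, nat_lit 84, nat_lit 63, nat_lit 100, nat_lit 103538337⟩, ⟨nat_lit 13, nat_lit 87, nat_lit 50, nat_lit 100, nat_lit 27345946⟩]⟩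
noncomputable def p014_l32 : Lf2 := ⟨nat_lit 0, nat_lit 10, [nat_lit 0, nat_lit 5, nat_lit 5, nat_lit 20], true, nat_lit 0, nat_lit 0, nat_lit 0, nat_lit 0, ⟨nat_lit 0, nat_lit 1000, nat_lit 0, nat_lit 4, nat_lit 107, nat_lit 0, nat_lit 0, nat_lit 0, nat_lit 0, nat_lit 0, nat_lit 0, nat_lit 0, nat_lit 0, nat_lit 0, nat_lit 0, nat_lit 5000000, false, false⟩,
 nat_lit 0, nat_lit 7589, nat_lit 0, nat_lit 0, nat_lit 4829, nat_lit 0, nat_lit 0, nat_lit 0, nat_lit 0, nat_lit 0, nat_lit 0, nat_lit 0, nat_lit 0, nat_lit 0, nat_lit 12, nat_lit 1000000, nat_lit 0, nat_lit 0, [(nat_lit 12, [(nat_lit 2, nat_lit 1000)]), (nat_lit 15, [(nat_lit 2, nat_lit 1000)])],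
 ⟨p014_k0, nat_lit 0, nat_lit 0, nat_lit 590, nat_lit 0, nat_lit 594095, [nat_lit 2479200001, nat_lit 2186400000, nat_lit 42000000], [], [nat_lit 23356895778, nat_lit 24855925647, nat_lit 24503507280, nat_lit 23487659177], nat_lit 1271250, nat_lit 1271250, nat_lit 21650, nat_lit 1100001, nat_lit 0, nat_lit 0, [nat_lit 780000, nat_lit 1435000, nat_lit 1271250], [nat_lit 8, nat_lit 40, nat_lit 80, nat_lit 80, nat_lit 1, nat_lit 249, nat_lit 40, nat_lit 8]⟩, C1.Rw.none,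
 ⟨nat_lit 4472, nat_lit 5478, ⟨.ofNat (nat_lit 90113), .ofNat (nat_lit 382351), .ofNat (nat_lit 132827), .ofNat (nat_lit 425065), .ofNat (nat_lit 123773), .ofNat (nat_lit 388887), .ofNat (nat_lit 166906), .ofNat (nat_lit 432020)⟩, ⟨.ofNat (nat_lit 0), .ofNat (nat_lit 0), .ofNat (nat_lit 0), .ofNat (nat_lit 0), .ofNat (nat_lit 0), .ofNat (nat_lit 0), .ofNat (nat_lit 0), .ofNat (nat_lit 0)⟩⟩, [⟨nat_lit 0, nat_lit 100, nat_lit 80, nat_lit 60, nat_lit 16395036⟩]⟩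
noncomputable def p014_l33 : Lf2 := ⟨nat_lit 0, nat_lit 10, [nat_lit 0, nat_lit 5, nat_lit 5, nat_lit 20], false, nat_lit 0, nat_lit 0, nat_lit 0, nat_lit 0, ⟨nat_lit 0, nat_lit 1000, nat_lit 0, nat_lit 4, nat_lit 243, nat_lit 0, nat_lit 0, nat_lit 0, nat_lit 0, nat_lit 0, nat_lit 0, nat_lit 0, nat_lit 0, nat_lit 0, nat_lit 0, nat_lit 5000000, false, true⟩,
 nat_lit 0, nat_lit 6498, nat_lit 0, nat_lit 0, nat_lit 4134, nat_lit 0, nat_lit 0, nat_lit 0, nat_lit 0, nat_lit 0, nat_lit 0, nat_lit 0, nat_lit 0, nat_lit 0, nat_lit 0, nat_lit 716200, nat_lit 0, nat_lit 0, [(nat_lit 12, [(nat_lit 1, nat_lit 473), (nat_lit 2, nat_lit 527)]), (nat_lit 15, [(nat_lit 1, nat_lit 473), (nat_lit 2, nat_lit 527)])],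
 ⟨p014_k0, nat_lit 0, nat_lit 0, nat_lit 356, nat_lit 0, nat_lit 361573, [nat_lit 2209003601, nat_lit 2312880400, nat_lit 1092079200], [], [nat_lit 26449844777, nat_lit 26794649353, nat_lit 31514364995, nat_lit 31620276296], nat_lit 1271250, nat_lit 1271250, nat_lit 1100001, nat_lit 3018000, nat_lit 0, nat_lit 0, [nat_lit 780000, nat_lit 1435000, nat_lit 1271250], [nat_lit 8, nat_lit 40, nat_lit 80, nat_lit 80, nat_lit 1, nat_lit 317, nat_lit 100, nat_lit 9]⟩, ⟨p014_k3, nat_lit 0, nat_lit 0, nat_lit 764, nat_lit 0, nat_lit 797552, [nat_lit 0, nat_lit 0, nat_lit 0], [], [nat_lit 0, nat_lit 0, nat_lit 0, nat_lit 0], nat_lit 1100001, nat_lit 1442500, nat_lit 1100001, nat_lit 3018000, nat_lit 0, nat_lit 0, [nat_lit 1695000, nat_lit 1271250, nat_lit 1271250], [nat_lit 62, nat_lit 40, nat_lit 80, nat_lit 80, nat_lit 58, nat_lit 373, nat_lit 150, nat_lit 9]⟩,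
 ⟨nat_lit 4472, nat_lit 5478, ⟨.ofNat (nat_lit 382351), .ofNat (nat_lit 801872), .ofNat (nat_lit 425065), .ofNat (nat_lit 844520), .ofNat (nat_lit 388887), .ofNat (nat_lit 769461), .ofNat (nat_lit 432020), .ofNat (nat_lit 812527)⟩, ⟨.ofNat (nat_lit 0), .ofNat (nat_lit 0), .ofNat (nat_lit 0), .ofNat (nat_lit 0), .ofNat (nat_lit 0), .ofNat (nat_lit 0), .ofNat (nat_lit 0), .ofNat (nat_lit 0)⟩⟩, [⟨nat_lit 13, nat_lit 87, nat_lit 59, nat_lit 100, nat_lit 216973559⟩]⟩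
noncomputable def b_N_700_400_0_3 : St := ⟨false, nat_lit 1, nat_lit 2, nat_lit 0, nat_lit 40, nat_lit 280, nat_lit 320, nat_lit 160, nat_lit 200, nat_lit 4, nat_lit 384, nat_lit 0, nat_lit 0, nat_lit 0, nat_lit 0, nat_lit 0, nat_lit 0, nat_lit 40, nat_lit 80, nat_lit 0, nat_lit 0, nat_lit 0, nat_lit 0⟩
theorem d_N_700_400_0_3 (h : EB TB.env) : Dead b_N_700_400_0_3 := chkB_sound0 h (T :=
(.gv
(.st (nat_lit 1)
(.spl (nat_lit 2) (nat_lit 160)
(.spl (nat_lit 2) (nat_lit 80)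
(.leaf p014_l0)
(.spl (nat_lit 0) (nat_lit 300)
(.leaf p014_l1)
(.leaf p014_l2)))
(.spl (nat_lit 0) (nat_lit 300)
(.spl (nat_lit 6) (nat_lit 68)
(.spl (nat_lit 2) (nat_lit 240)
(.leaf p014_l3)
(.leaf p014_l4))
(.leaf p014_l5))
(.trX (nat_lit 13) (nat_lit 87) (nat_lit 50) (nat_lit 100) (nat_lit 376) (.spl (nat_lit 0) (nat_lit 310)
(.leaf p014_l6)
(.trX (nat_lit 13) (nat_lit 84) (nat_lit 55) (nat_lit 100) (nat_lit 368) (.leaf p014_l7))))))
(.spl (nat_lit 2) (nat_lit 160)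
(.leaf p014_l8)
(.spl (nat_lit 2) (nat_lit 240)
(.leaf p014_l9)
(.spl (nat_lit 0) (nat_lit 300)
(.spl (nat_lit 6) (nat_lit 68)
(.spl (nat_lit 2) (nat_lit 320)
(.leaf p014_l10)
(.spl (nat_lit 0) (nat_lit 290)
(.leaf p014_l11)
(.trX (nat_lit 13) (nat_lit 89) (nat_lit 45) (nat_lit 100) (nat_lit 380) (.spl (nat_lit 1) (nat_lit 180)
(.trX (nat_lit 13) (nat_lit 90) (nat_lit 54) (nat_lit 100) (nat_lit 372) (.spl (nat_lit 1) (nat_lit 170)
(.trX (nat_lit 13) (nat_lit 90) (nat_lit 59) (nat_lit 100) (nat_lit 364) (.leaf p014_l12))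
(.leaf p014_l13)))
(.leaf p014_l14)))))
(.leaf p014_l15))
(.trX (nat_lit 13) (nat_lit 87) (nat_lit 50) (nat_lit 100) (nat_lit 376) (.spl (nat_lit 2) (nat_lit 320)
(.spl (nat_lit 1) (nat_lit 180)
(.leaf p014_l16)
(.leaf p014_l17))
(.spl (nat_lit 0) (nat_lit 310)
(.spl (nat_lit 6) (nat_lit 60)
(.spl (nat_lit 1) (nat_lit 180)
(.trX (nat_lit 13) (nat_lit 87) (nat_lit 59) (nat_lit 100) (nat_lit 364) (.spl (nat_lit 0) (nat_lit 305)
(.leaf p014_l18)
(.trX (nat_lit 13) (nat_lit 86) (nat_lit 61) (nat_lit 100) (nat_lit 360) (.leaf p014_l19))))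
(.leaf p014_l20))
(.leaf p014_l21))
(.trX (nat_lit 13) (nat_lit 84) (nat_lit 55) (nat_lit 100) (nat_lit 368) (.spl (nat_lit 1) (nat_lit 180)
(.trX (nat_lit 13) (nat_lit 84) (nat_lit 63) (nat_lit 100) (nat_lit 356) (.spl (nat_lit 6) (nat_lit 60)
(.spl (nat_lit 1) (nat_lit 170)
(.trX (nat_lit 13) (nat_lit 84) (nat_lit 68) (nat_lit 100) (nat_lit 352) (.spl (nat_lit 0) (nat_lit 315)
(.leaf p014_l22)
(.trX (nat_lit 13) (nat_lit 83) (nat_lit 70) (nat_lit 100) (nat_lit 348) (.leaf p014_l23))))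
(.leaf p014_l24))
(.leaf p014_l25)))
(.spl (nat_lit 6) (nat_lit 60)
(.leaf p014_l26)
(.leaf p014_l27)))))))))))
(.st (nat_lit 1)
(.spl (nat_lit 0) (nat_lit 300)
(.spl (nat_lit 6) (nat_lit 68)
(.spl (nat_lit 2) (nat_lit 160)
(.leaf p014_l28)
(.leaf p014_l29))
(.leaf p014_l30))
(.trZ (nat_lit 0) (nat_lit 100) (nat_lit 88) (nat_lit 32) (nat_lit 8) (.trX (nat_lit 13) (nat_lit 87) (nat_lit 50) (nat_lit 100) (nat_lit 376) (.leaf p014_l31))))
(.spl (nat_lit 2) (nat_lit 160)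
(.leaf p014_l32)
(.leaf p014_l33))))) (by decide +kernel)
noncomputable def p014_l34 : Lf2 := ⟨nat_lit 0, nat_lit 10, [nat_lit 0, nat_lit 5, nat_lit 5, nat_lit 20], true, nat_lit 0, nat_lit 0, nat_lit 0, nat_lit 0, ⟨nat_lit 0, nat_lit 0, nat_lit 1000, nat_lit 4, nat_lit 107, nat_lit 0, nat_lit 0, nat_lit 0, nat_lit 0, nat_lit 215, nat_lit 106667, nat_lit 295, nat_lit 62518302, nat_lit 0, nat_lit 0, nat_lit 1227603, false, false⟩,
 nat_lit 0, nat_lit 0, nat_lit 0, nat_lit 5302, nat_lit 2980, nat_lit 0, nat_lit 76, nat_lit 0, nat_lit 0, nat_lit 0, nat_lit 0, nat_lit 0, nat_lit 0, nat_lit 0, nat_lit 86, nat_lit 400000, nat_lit 0, nat_lit 0, [(nat_lit 12, [(nat_lit 5, nat_lit 1000)]), (nat_lit 15, [(nat_lit 5, nat_lit 1000)])],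
 ⟨p014_k0, nat_lit 0, nat_lit 0, nat_lit 318, nat_lit 0, nat_lit 0, [nat_lit 2347200000, nat_lit 1180400000, nat_lit 174400000], [], [nat_lit 17559117812, nat_lit 19223109496, nat_lit 17358829340, nat_lit 19232661020], nat_lit 0, nat_lit 0, nat_lit 0, nat_lit 0, nat_lit 0, nat_lit 0, [], [nat_lit 8, nat_lit 40, nat_lit 80, nat_lit 80, nat_lit 1, nat_lit 249, nat_lit 40, nat_lit 8]⟩, C1.Rw.none,
 ⟨nat_lit 4472, nat_lit 5478, ⟨.ofNat (nat_lit 90113), .ofNat (nat_lit 382351), .ofNat (nat_lit 132827), .ofNat (nat_lit 425065), .ofNat (nat_lit 123773), .ofNat (nat_lit 388887), .ofNat (nat_lit 166906), .ofNat (nat_lit 432020)⟩, ⟨.ofNat (nat_lit 0), .ofNat (nat_lit 0), .ofNat (nat_lit 0), .ofNat (nat_lit 0), .ofNat (nat_lit 0), .ofNat (nat_lit 0), .ofNat (nat_lit 0), .ofNat (nat_lit 0)⟩⟩, [⟨nat_lit 0, nat_lit 100, nat_lit 80, nat_lit 60, nat_lit 86549515⟩]⟩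
noncomputable def p014_l35 : Lf2 := ⟨nat_lit 0, nat_lit 10, [nat_lit 0, nat_lit 5, nat_lit 5, nat_lit 20], false, nat_lit 0, nat_lit 0, nat_lit 0, nat_lit 0, ⟨nat_lit 1000, nat_lit 0, nat_lit 0, nat_lit 0, nat_lit 0, nat_lit 0, nat_lit 0, nat_lit 0, nat_lit 0, nat_lit 0, nat_lit 0, nat_lit 0, nat_lit 0, nat_lit 0, nat_lit 0, nat_lit 0, false, false⟩,
 nat_lit 0, nat_lit 0, nat_lit 0, nat_lit 2157, nat_lit 5174, nat_lit 10631, nat_lit 0, nat_lit 0, nat_lit 0, nat_lit 0, nat_lit 0, nat_lit 0, nat_lit 0, nat_lit 0, nat_lit 0, nat_lit 0, nat_lit 0, nat_lit 0, [],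
 ⟨p014_k0, nat_lit 0, nat_lit 0, nat_lit 214, nat_lit 0, nat_lit 0, [nat_lit 3282000000, nat_lit 6250000000, nat_lit 9842000000], [], [nat_lit 29001799736, nat_lit 31653581800, nat_lit 39796175297, nat_lit 41409812301], nat_lit 0, nat_lit 0, nat_lit 0, nat_lit 0, nat_lit 0, nat_lit 0, [], [nat_lit 8, nat_lit 40, nat_lit 80, nat_lit 80, nat_lit 1, nat_lit 317, nat_lit 100, nat_lit 9]⟩, ⟨p014_k3, nat_lit 0, nat_lit 0, nat_lit 328, nat_lit 0, nat_lit 0, [nat_lit 7968000000, nat_lit 11872000000, nat_lit 14058000000], [], [nat_lit 38732161072, nat_lit 39261880028, nat_lit 52983343561, nat_lit 52592376210], nat_lit 0, nat_lit 0, nat_lit 0, nat_lit 0, nat_lit 0, nat_lit 0, [], [nat_lit 62, nat_lit 40, nat_lit 80, nat_lit 80, nat_lit 58, nat_lit 373, nat_lit 150, nat_lit 9]⟩,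
 zbF0, []⟩
noncomputable def p014_l36 : Lf2 := ⟨nat_lit 0, nat_lit 10, [nat_lit 0, nat_lit 5, nat_lit 5, nat_lit 20], true, nat_lit 0, nat_lit 0, nat_lit 0, nat_lit 0, ⟨nat_lit 0, nat_lit 0, nat_lit 1000, nat_lit 4, nat_lit 107, nat_lit 0, nat_lit 0, nat_lit 0, nat_lit 0, nat_lit 215, nat_lit 106667, nat_lit 295, nat_lit 62518302, nat_lit 0, nat_lit 0, nat_lit 1227603, false, false⟩,
 nat_lit 0, nat_lit 0, nat_lit 0, nat_lit 5302, nat_lit 2980, nat_lit 0, nat_lit 76, nat_lit 0, nat_lit 0, nat_lit 0, nat_lit 0, nat_lit 0, nat_lit 0, nat_lit 0, nat_lit 86, nat_lit 400000, nat_lit 0, nat_lit 0, [(nat_lit 12, [(nat_lit 5, nat_lit 1000)]), (nat_lit 15, [(nat_lit 5, nat_lit 1000)])],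
 ⟨p014_k0, nat_lit 0, nat_lit 0, nat_lit 318, nat_lit 0, nat_lit 0, [nat_lit 2347200000, nat_lit 1180400000, nat_lit 174400000], [], [nat_lit 17559117812, nat_lit 19223109496, nat_lit 17358829340, nat_lit 19232661020], nat_lit 0, nat_lit 0, nat_lit 0, nat_lit 0, nat_lit 0, nat_lit 0, [], [nat_lit 8, nat_lit 40, nat_lit 80, nat_lit 80, nat_lit 1, nat_lit 249, nat_lit 40, nat_lit 8]⟩, C1.Rw.none,
 ⟨nat_lit 4472, nat_lit 5478, ⟨.ofNat (nat_lit 90113), .ofNat (nat_lit 382351), .ofNat (nat_lit 132827), .ofNat (nat_lit 425065), .ofNat (nat_lit 123773), .ofNat (nat_lit 388887), .ofNat (nat_lit 166906), .ofNat (nat_lit 432020)⟩, ⟨.ofNat (nat_lit 0), .ofNat (nat_lit 0), .ofNat (nat_lit 0), .ofNat (nat_lit 0), .ofNat (nat_lit 0), .ofNat (nat_lit 0), .ofNat (nat_lit 0), .ofNat (nat_lit 0)⟩⟩, [⟨nat_lit 0, nat_lit 100, nat_lit 80, nat_lit 60, nat_lit 86549515⟩]⟩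
noncomputable def p014_l37 : Lf2 := ⟨nat_lit 1, nat_lit 10, [nat_lit 0, nat_lit 5, nat_lit 5, nat_lit 20], false, nat_lit 0, nat_lit 0, nat_lit 0, nat_lit 0, zbN0,
 nat_lit 0, nat_lit 0, nat_lit 0, nat_lit 0, nat_lit 0, nat_lit 0, nat_lit 0, nat_lit 0, nat_lit 0, nat_lit 0, nat_lit 0, nat_lit 0, nat_lit 0, nat_lit 0, nat_lit 0, nat_lit 0, nat_lit 0, nat_lit 0, [],
 C1.Rw.none, C1.Rw.none,
 zbF0, []⟩
noncomputable def p014_l38 : Lf2 := ⟨nat_lit 0, nat_lit 10, [nat_lit 0, nat_lit 5, nat_lit 5, nat_lit 20], true, nat_lit 0, nat_lit 0, nat_lit 0, nat_lit 0, ⟨nat_lit 0, nat_lit 177, nat_lit 823, nat_lit 4, nat_lit 191, nat_lit 0, nat_lit 0, nat_lit 0, nat_lit 0, nat_lit 215, nat_lit 3024, nat_lit 223, nat_lit 54517541, nat_lit 12482459, nat_lit 0, nat_lit 2404104, false, true⟩,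
 nat_lit 0, nat_lit 0, nat_lit 0, nat_lit 2375, nat_lit 4020, nat_lit 0, nat_lit 0, nat_lit 0, nat_lit 0, nat_lit 0, nat_lit 0, nat_lit 0, nat_lit 0, nat_lit 0, nat_lit 28, nat_lit 250000, nat_lit 0, nat_lit 0, [(nat_lit 15, [(nat_lit 0, nat_lit 177), (nat_lit 4, nat_lit 823)])],
 ⟨p014_k2, nat_lit 0, nat_lit 0, nat_lit 139, nat_lit 0, nat_lit 0, [nat_lit 2684028000, nat_lit 1154322401, nat_lit 37643467], [], [nat_lit 17848358107, nat_lit 19137146667, nat_lit 20380992627, nat_lit 21489814480], nat_lit 0, nat_lit 0, nat_lit 0, nat_lit 0, nat_lit 0, nat_lit 0, [], [nat_lit 36, nat_lit 40, nat_lit 80, nat_lit 80, nat_lit 7, nat_lit 272, nat_lit 60, nat_lit 9]⟩, C1.Rw.none,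
 ⟨nat_lit 4472, nat_lit 5000, ⟨.ofNat (nat_lit 385713), .ofNat (nat_lit 528570), .ofNat (nat_lit 428570), .ofNat (nat_lit 571423), .ofNat (nat_lit 388887), .ofNat (nat_lit 524844), .ofNat (nat_lit 432020), .ofNat (nat_lit 567973)⟩, ⟨.ofNat (nat_lit 0), .ofNat (nat_lit 0), .ofNat (nat_lit 0), .ofNat (nat_lit 0), .ofNat (nat_lit 0), .ofNat (nat_lit 0), .ofNat (nat_lit 0), .ofNat (nat_lit 0)⟩⟩, []⟩
noncomputable def p014_l39 : Lf2 := ⟨nat_lit 0, nat_lit 10, [nat_lit 0, nat_lit 5, nat_lit 5, nat_lit 20], true, nat_lit 0, nat_lit 0, nat_lit 0, nat_lit 0, ⟨nat_lit 0, nat_lit 1000, nat_lit 0, nat_lit 6, nat_lit 258, nat_lit 0, nat_lit 0, nat_lit 0, nat_lit 0, nat_lit 0, nat_lit 0, nat_lit 0, nat_lit 47294289, nat_lit 19705711, nat_lit 0, nat_lit 3028975, false, true⟩,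
 nat_lit 0, nat_lit 0, nat_lit 0, nat_lit 2616, nat_lit 3752, nat_lit 0, nat_lit 0, nat_lit 0, nat_lit 0, nat_lit 0, nat_lit 0, nat_lit 0, nat_lit 0, nat_lit 0, nat_lit 0, nat_lit 250000, nat_lit 0, nat_lit 0, [(nat_lit 15, [(nat_lit 0, nat_lit 1000)])],
 ⟨p014_k4, nat_lit 0, nat_lit 0, nat_lit 185, nat_lit 0, nat_lit 0, [nat_lit 2318400000, nat_lit 2724800000, nat_lit 3082400000], [], [nat_lit 24305339216, nat_lit 25381553952, nat_lit 30172995864, nat_lit 30959193196], nat_lit 0, nat_lit 0, nat_lit 0, nat_lit 0, nat_lit 0, nat_lit 0, [], [nat_lit 18, nat_lit 40, nat_lit 80, nat_lit 80, nat_lit 2, nat_lit 203, nat_lit 0, nat_lit 6]⟩, C1.Rw.none,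
 ⟨nat_lit 4472, nat_lit 5000, ⟨.ofNat (nat_lit 528570), .ofNat (nat_lit 749998), .ofNat (nat_lit 549999), .ofNat (nat_lit 771417), .ofNat (nat_lit 524844), .ofNat (nat_lit 735576), .ofNat (nat_lit 546410), .ofNat (nat_lit 757132)⟩, ⟨.ofNat (nat_lit 0), .ofNat (nat_lit 0), .ofNat (nat_lit 0), .ofNat (nat_lit 0), .ofNat (nat_lit 0), .ofNat (nat_lit 0), .ofNat (nat_lit 0), .ofNat (nat_lit 0)⟩⟩, [⟨nat_lit 13, nat_lit 84, nat_lit 68, nat_lit 100, nat_lit 195524401⟩]⟩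
noncomputable def p014_l40 : Lf2 := ⟨nat_lit 0, nat_lit 10, [nat_lit 0, nat_lit 5, nat_lit 5, nat_lit 20], false, nat_lit 0, nat_lit 0, nat_lit 0, nat_lit 0, ⟨nat_lit 904, nat_lit 96, nat_lit 0, nat_lit 6, nat_lit 271, nat_lit 0, nat_lit 0, nat_lit 0, nat_lit 0, nat_lit 0, nat_lit 0, nat_lit 0, nat_lit 45924242, nat_lit 21075758, nat_lit 0, nat_lit 3113516, true, true⟩,
 nat_lit 0, nat_lit 0, nat_lit 21447, nat_lit 0, nat_lit 5118, nat_lit 8155, nat_lit 0, nat_lit 0, nat_lit 0, nat_lit 739, nat_lit 0, nat_lit 0, nat_lit 0, nat_lit 0, nat_lit 0, nat_lit 24000, nat_lit 0, nat_lit 0, [(nat_lit 15, [(nat_lit 0, nat_lit 96)])],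
 ⟨p014_k4, nat_lit 0, nat_lit 0, nat_lit 190, nat_lit 0, nat_lit 0, [nat_lit 3189494401, nat_lit 5911580800, nat_lit 7497945600], [], [nat_lit 28382875245, nat_lit 29625220169, nat_lit 36430239243, nat_lit 37345012029], nat_lit 0, nat_lit 0, nat_lit 0, nat_lit 0, nat_lit 0, nat_lit 0, [], [nat_lit 18, nat_lit 40, nat_lit 80, nat_lit 80, nat_lit 2, nat_lit 203, nat_lit 0, nat_lit 6]⟩, ⟨p014_k14, nat_lit 0, nat_lit 0, nat_lit 441, nat_lit 0, nat_lit 231540, [nat_lit 7203072000, nat_lit 10732288000, nat_lit 12708432000], [], [nat_lit 39125802087, nat_lit 39029643643, nat_lit 43600177586, nat_lit 43376593970], nat_lit 1271250, nat_lit 1271250, nat_lit 1271250, nat_lit 1271250, nat_lit 0, nat_lit 0, [nat_lit 1695000, nat_lit 1271250, nat_lit 1271250], [nat_lit 62, nat_lit 40, nat_lit 80, nat_lit 80, nat_lit 58, nat_lit 373, nat_lit 150, nat_lit 9]⟩,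
 ⟨nat_lit 4472, nat_lit 5000, ⟨.ofNat (nat_lit 549999), .ofNat (nat_lit 792844), .ofNat (nat_lit 571423), .ofNat (nat_lit 814263), .ofNat (nat_lit 546410), .ofNat (nat_lit 777524), .ofNat (nat_lit 567973), .ofNat (nat_lit 799081)⟩, ⟨.ofNat (nat_lit 0), .ofNat (nat_lit 0), .ofNat (nat_lit 0), .ofNat (nat_lit 0), .ofNat (nat_lit 0), .ofNat (nat_lit 0), .ofNat (nat_lit 0), .ofNat (nat_lit 0)⟩⟩, []⟩
noncomputable def p014_l41 : Lf2 := ⟨nat_lit 0, nat_lit 10, [nat_lit 0, nat_lit 5, nat_lit 5, nat_lit 20], true, nat_lit 0, nat_lit 0, nat_lit 0, nat_lit 0, ⟨nat_lit 0, nat_lit 1000, nat_lit 0, nat_lit 4, nat_lit 187, nat_lit 0, nat_lit 0, nat_lit 0, nat_lit 0, nat_lit 0, nat_lit 0, nat_lit 0, nat_lit 0, nat_lit 0, nat_lit 0, nat_lit 5000000, false, true⟩,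
 nat_lit 0, nat_lit 0, nat_lit 0, nat_lit 4241, nat_lit 4401, nat_lit 0, nat_lit 292, nat_lit 0, nat_lit 0, nat_lit 0, nat_lit 0, nat_lit 0, nat_lit 0, nat_lit 0, nat_lit 0, nat_lit 250000, nat_lit 0, nat_lit 0, [(nat_lit 12, [(nat_lit 0, nat_lit 1000)]), (nat_lit 15, [(nat_lit 0, nat_lit 1000)])],
 ⟨p014_k0, nat_lit 0, nat_lit 0, nat_lit 318, nat_lit 0, nat_lit 0, [nat_lit 2364000000, nat_lit 2954000000, nat_lit 3510800000], [], [nat_lit 26427080134, nat_lit 28528915545, nat_lit 31345508450, nat_lit 32412059563], nat_lit 0, nat_lit 0, nat_lit 0, nat_lit 0, nat_lit 0, nat_lit 0, [], [nat_lit 8, nat_lit 40, nat_lit 80, nat_lit 80, nat_lit 1, nat_lit 317, nat_lit 100, nat_lit 10]⟩, C1.Rw.none,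
 ⟨nat_lit 4472, nat_lit 5478, ⟨.ofNat (nat_lit 90113), .ofNat (nat_lit 801872), .ofNat (nat_lit 132827), .ofNat (nat_lit 844520), .ofNat (nat_lit 123773), .ofNat (nat_lit 769461), .ofNat (nat_lit 166906), .ofNat (nat_lit 812527)⟩, ⟨.ofNat (nat_lit 0), .ofNat (nat_lit 0), .ofNat (nat_lit 0), .ofNat (nat_lit 0), .ofNat (nat_lit 0), .ofNat (nat_lit 0), .ofNat (nat_lit 0), .ofNat (nat_lit 0)⟩⟩, [⟨nat_lit 13, nat_lit 87, nat_lit 59, nat_lit 100, nat_lit 122786831⟩]⟩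
noncomputable def p014_l42 : Lf2 := ⟨nat_lit 0, nat_lit 10, [nat_lit 0, nat_lit 5, nat_lit 5, nat_lit 20], true, nat_lit 0, nat_lit 0, nat_lit 0, nat_lit 0, ⟨nat_lit 0, nat_lit 0, nat_lit 1000, nat_lit 4, nat_lit 107, nat_lit 0, nat_lit 0, nat_lit 0, nat_lit 0, nat_lit 215, nat_lit 106667, nat_lit 295, nat_lit 62518302, nat_lit 0, nat_lit 0, nat_lit 1227603, false, false⟩,
 nat_lit 0, nat_lit 4684, nat_lit 0, nat_lit 0, nat_lit 2980, nat_lit 0, nat_lit 76, nat_lit 0, nat_lit 0, nat_lit 0, nat_lit 0, nat_lit 0, nat_lit 0, nat_lit 0, nat_lit 86, nat_lit 400000, nat_lit 0, nat_lit 0, [(nat_lit 12, [(nat_lit 5, nat_lit 1000)]), (nat_lit 15, [(nat_lit 5, nat_lit 1000)])],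
 ⟨p014_k0, nat_lit 0, nat_lit 0, nat_lit 346, nat_lit 0, nat_lit 87471, [nat_lit 2347200000, nat_lit 1180400000, nat_lit 174400000], [], [nat_lit 17559117812, nat_lit 19223109496, nat_lit 17358829340, nat_lit 19232661020], nat_lit 1271250, nat_lit 1271250, nat_lit 21650, nat_lit 1100001, nat_lit 0, nat_lit 0, [nat_lit 780000, nat_lit 1435000, nat_lit 1271250], [nat_lit 8, nat_lit 40, nat_lit 80, nat_lit 80, nat_lit 1, nat_lit 249, nat_lit 40, nat_lit 8]⟩, C1.Rw.none,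
 ⟨nat_lit 4472, nat_lit 5478, ⟨.ofNat (nat_lit 90113), .ofNat (nat_lit 382351), .ofNat (nat_lit 132827), .ofNat (nat_lit 425065), .ofNat (nat_lit 123773), .ofNat (nat_lit 388887), .ofNat (nat_lit 166906), .ofNat (nat_lit 432020)⟩, ⟨.ofNat (nat_lit 0), .ofNat (nat_lit 0), .ofNat (nat_lit 0), .ofNat (nat_lit 0), .ofNat (nat_lit 0), .ofNat (nat_lit 0), .ofNat (nat_lit 0), .ofNat (nat_lit 0)⟩⟩, [⟨nat_lit 0, nat_lit 100, nat_lit 80, nat_lit 60, nat_lit 86549515⟩]⟩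
noncomputable def p014_l43 : Lf2 := ⟨nat_lit 0, nat_lit 10, [nat_lit 0, nat_lit 5, nat_lit 5, nat_lit 20], false, nat_lit 0, nat_lit 0, nat_lit 0, nat_lit 0, ⟨nat_lit 1000, nat_lit 0, nat_lit 0, nat_lit 0, nat_lit 0, nat_lit 0, nat_lit 0, nat_lit 0, nat_lit 0, nat_lit 0, nat_lit 0, nat_lit 0, nat_lit 0, nat_lit 0, nat_lit 0, nat_lit 0, false, false⟩,
 nat_lit 0, nat_lit 13720, nat_lit 0, nat_lit 0, nat_lit 8730, nat_lit 9410, nat_lit 0, nat_lit 0, nat_lit 0, nat_lit 0, nat_lit 0, nat_lit 0, nat_lit 0, nat_lit 0, nat_lit 0, nat_lit 0, nat_lit 0, nat_lit 0, [],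
 ⟨p014_k0, nat_lit 0, nat_lit 0, nat_lit 239, nat_lit 0, nat_lit 87471, [nat_lit 3282000000, nat_lit 6250000000, nat_lit 9842000000], [], [nat_lit 33603369720, nat_lit 32965900440, nat_lit 43112870721, nat_lit 45094750016], nat_lit 1271250, nat_lit 1271250, nat_lit 1100001, nat_lit 3018000, nat_lit 0, nat_lit 0, [nat_lit 780000, nat_lit 1435000, nat_lit 1271250], [nat_lit 8, nat_lit 40, nat_lit 80, nat_lit 80, nat_lit 1, nat_lit 317, nat_lit 100, nat_lit 9]⟩, ⟨p014_k3, nat_lit 0, nat_lit 0, nat_lit 328, nat_lit 0, nat_lit 0, [nat_lit 7968000000, nat_lit 11872000000, nat_lit 14058000000], [], [nat_lit 39456809920, nat_lit 40034055080, nat_lit 51333312489, nat_lit 51087125457], nat_lit 0, nat_lit 0, nat_lit 0, nat_lit 0, nat_lit 0, nat_lit 0, [], [nat_lit 62, nat_lit 40, nat_lit 80, nat_lit 80, nat_lit 58, nat_lit 373, nat_lit 150, nat_lit 9]⟩,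
 zbF0, []⟩
noncomputable def p014_l44 : Lf2 := ⟨nat_lit 1, nat_lit 10, [nat_lit 0, nat_lit 5, nat_lit 5, nat_lit 20], false, nat_lit 0, nat_lit 0, nat_lit 0, nat_lit 0, zbN0,
 nat_lit 0, nat_lit 0, nat_lit 0, nat_lit 0, nat_lit 0, nat_lit 0, nat_lit 0, nat_lit 0, nat_lit 0, nat_lit 0, nat_lit 0, nat_lit 0, nat_lit 0, nat_lit 0, nat_lit 0, nat_lit 0, nat_lit 0, nat_lit 0, [],
 C1.Rw.none, C1.Rw.none,
 zbF0, []⟩
noncomputable def p014_l45 : Lf2 := ⟨nat_lit 0, nat_lit 10, [nat_lit 0, nat_lit 5, nat_lit 5, nat_lit 20], true, nat_lit 0, nat_lit 0, nat_lit 0, nat_lit 0, ⟨nat_lit 0, nat_lit 0, nat_lit 1000, nat_lit 4, nat_lit 97, nat_lit 0, nat_lit 0, nat_lit 0, nat_lit 0, nat_lit 215, nat_lit 86400, nat_lit 287, nat_lit 63307482, nat_lit 0, nat_lit 0, nat_lit 1066498, false, false⟩,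
 nat_lit 0, nat_lit 4105, nat_lit 0, nat_lit 0, nat_lit 2841, nat_lit 0, nat_lit 0, nat_lit 0, nat_lit 0, nat_lit 0, nat_lit 0, nat_lit 0, nat_lit 0, nat_lit 0, nat_lit 94, nat_lit 400000, nat_lit 0, nat_lit 0, [(nat_lit 15, [(nat_lit 5, nat_lit 1000)])],
 ⟨p014_k4, nat_lit 0, nat_lit 0, nat_lit 283, nat_lit 0, nat_lit 78069, [nat_lit 2443200000, nat_lit 916400001, nat_lit 120399999], [], [nat_lit 16938192476, nat_lit 18100659863, nat_lit 16911811923, nat_lit 17983921740], nat_lit 1271250, nat_lit 1271250, nat_lit 43600, nat_lit 780000, nat_lit 0, nat_lit 0, [nat_lit 780000, nat_lit 1435000, nat_lit 1271250], [nat_lit 18, nat_lit 40, nat_lit 80, nat_lit 80, nat_lit 2, nat_lit 238, nat_lit 30, nat_lit 8]⟩, C1.Rw.none,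
 ⟨nat_lit 4472, nat_lit 5000, ⟨.ofNat (nat_lit 114284), .ofNat (nat_lit 314284), .ofNat (nat_lit 157141), .ofNat (nat_lit 357141), .ofNat (nat_lit 130570), .ofNat (nat_lit 320909), .ofNat (nat_lit 173703), .ofNat (nat_lit 364042)⟩, ⟨.ofNat (nat_lit 0), .ofNat (nat_lit 0), .ofNat (nat_lit 0), .ofNat (nat_lit 0), .ofNat (nat_lit 0), .ofNat (nat_lit 0), .ofNat (nat_lit 0), .ofNat (nat_lit 0)⟩⟩, [⟨nat_lit 0, nat_lit 100, nat_lit 80, nat_lit 60, nat_lit 95632628⟩]⟩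
noncomputable def p014_l46 : Lf2 := ⟨nat_lit 0, nat_lit 10, [nat_lit 0, nat_lit 5, nat_lit 5, nat_lit 20], true, nat_lit 0, nat_lit 0, nat_lit 0, nat_lit 0, ⟨nat_lit 0, nat_lit 116, nat_lit 884, nat_lit 4, nat_lit 177, nat_lit 0, nat_lit 0, nat_lit 0, nat_lit 0, nat_lit 215, nat_lit 3024, nat_lit 223, nat_lit 55981508, nat_lit 11018492, nat_lit 0, nat_lit 2234919, false, true⟩,
 nat_lit 0, nat_lit 4620, nat_lit 0, nat_lit 0, nat_lit 3198, nat_lit 0, nat_lit 0, nat_lit 0, nat_lit 0, nat_lit 0, nat_lit 0, nat_lit 0, nat_lit 0, nat_lit 0, nat_lit 68, nat_lit 382600, nat_lit 0, nat_lit 0, [(nat_lit 15, [(nat_lit 0, nat_lit 116), (nat_lit 5, nat_lit 884)])],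
 ⟨p014_k2, nat_lit 0, nat_lit 0, nat_lit 185, nat_lit 0, nat_lit 78069, [nat_lit 2247571200, nat_lit 1634705601, nat_lit 72393067], [], [nat_lit 16258507175, nat_lit 17483392983, nat_lit 19266872151, nat_lit 20276093752], nat_lit 1271250, nat_lit 1271250, nat_lit 780000, nat_lit 1762500, nat_lit 0, nat_lit 0, [nat_lit 780000, nat_lit 1100000, nat_lit 1785000], [nat_lit 36, nat_lit 40, nat_lit 80, nat_lit 80, nat_lit 7, nat_lit 272, nat_lit 60, nat_lit 9]⟩, C1.Rw.none,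
 ⟨nat_lit 4472, nat_lit 5000, ⟨.ofNat (nat_lit 314284), .ofNat (nat_lit 528570), .ofNat (nat_lit 357141), .ofNat (nat_lit 571423), .ofNat (nat_lit 320909), .ofNat (nat_lit 524844), .ofNat (nat_lit 364042), .ofNat (nat_lit 567973)⟩, ⟨.ofNat (nat_lit 0), .ofNat (nat_lit 0), .ofNat (nat_lit 0), .ofNat (nat_lit 0), .ofNat (nat_lit 0), .ofNat (nat_lit 0), .ofNat (nat_lit 0), .ofNat (nat_lit 0)⟩⟩, []⟩
noncomputable def p014_l47 : Lf2 := ⟨nat_lit 0, nat_lit 10, [nat_lit 0, nat_lit 5, nat_lit 5, nat_lit 20], false, nat_lit 0, nat_lit 0, nat_lit 0, nat_lit 0, ⟨nat_lit 700, nat_lit 300, nat_lit 0, nat_lit 6, nat_lit 267, nat_lit 0, nat_lit 0, nat_lit 0, nat_lit 0, nat_lit 0, nat_lit 0, nat_lit 0, nat_lit 46383472, nat_lit 20616528, nat_lit 0, nat_lit 3086277, false, true⟩,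
 nat_lit 7687, nat_lit 0, nat_lit 11358, nat_lit 0, nat_lit 5321, nat_lit 6348, nat_lit 0, nat_lit 0, nat_lit 0, nat_lit 0, nat_lit 0, nat_lit 0, nat_lit 0, nat_lit 0, nat_lit 0, nat_lit 75000, nat_lit 0, nat_lit 0, [(nat_lit 15, [(nat_lit 0, nat_lit 300)])],
 ⟨p014_k2, nat_lit 0, nat_lit 0, nat_lit 193, nat_lit 0, nat_lit 48706, [nat_lit 2992920000, nat_lit 3995000000, nat_lit 6499080000], [], [nat_lit 28731910326, nat_lit 29797353536, nat_lit 35611547227, nat_lit 36540230994], nat_lit 1271250, nat_lit 1271250, nat_lit 1271250, nat_lit 1271250, nat_lit 0, nat_lit 0, [nat_lit 780000, nat_lit 1100000, nat_lit 1785000], [nat_lit 36, nat_lit 40, nat_lit 80, nat_lit 80, nat_lit 7, nat_lit 203, nat_lit 0, nat_lit 6]⟩, ⟨p014_k6, nat_lit 0, nat_lit 0, nat_lit 398, nat_lit 0, nat_lit 119746, [nat_lit 5577600000, nat_lit 6889400000, nat_lit 9840600000], [], [nat_lit 37735778768, nat_lit 37598297040,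 nat_lit 41247305100, nat_lit 40805596122], nat_lit 1100001, nat_lit 1442500, nat_lit 1271250, nat_lit 1271250, nat_lit 0, nat_lit 0, [nat_lit 1695000, nat_lit 1271250, nat_lit 1271250], [nat_lit 92, nat_lit 40, nat_lit 80, nat_lit 80, nat_lit 32, nat_lit 373, nat_lit 150, nat_lit 9]⟩,
 ⟨nat_lit 4472, nat_lit 5000, ⟨.ofNat (nat_lit 528570), .ofNat (nat_lit 771425), .ofNat (nat_lit 571423), .ofNat (nat_lit 814263), .ofNat (nat_lit 524844), .ofNat (nat_lit 755968), .ofNat (nat_lit 567973), .ofNat (nat_lit 799081)⟩, ⟨.ofNat (nat_lit 0), .ofNat (nat_lit 0), .ofNat (nat_lit 0), .ofNat (nat_lit 0), .ofNat (nat_lit 0), .ofNat (nat_lit 0), .ofNat (nat_lit 0), .ofNat (nat_lit 0)⟩⟩, []⟩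
noncomputable def p014_l48 : Lf2 := ⟨nat_lit 0, nat_lit 10, [nat_lit 0, nat_lit 5, nat_lit 5, nat_lit 20], true, nat_lit 0, nat_lit 0, nat_lit 0, nat_lit 0, ⟨nat_lit 0, nat_lit 1000, nat_lit 0, nat_lit 4, nat_lit 187, nat_lit 0, nat_lit 0, nat_lit 0, nat_lit 0, nat_lit 0, nat_lit 0, nat_lit 0, nat_lit 0, nat_lit 0, nat_lit 0, nat_lit 5000000, false, true⟩,
 nat_lit 0, nat_lit 5969, nat_lit 0, nat_lit 0, nat_lit 3798, nat_lit 0, nat_lit 201, nat_lit 0, nat_lit 0, nat_lit 0, nat_lit 0, nat_lit 0, nat_lit 0, nat_lit 0, nat_lit 0, nat_lit 400000, nat_lit 0, nat_lit 0, [(nat_lit 12, [(nat_lit 1, nat_lit 1000)]), (nat_lit 15, [(nat_lit 1, nat_lit 1000)])],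
 ⟨p014_k0, nat_lit 0, nat_lit 0, nat_lit 346, nat_lit 0, nat_lit 87471, [nat_lit 2068400000, nat_lit 2721200001, nat_lit 2642799999], [], [nat_lit 25848447630, nat_lit 27674493558, nat_lit 31586602978, nat_lit 32120081364], nat_lit 1271250, nat_lit 1271250, nat_lit 21650, nat_lit 2719650, nat_lit 0, nat_lit 0, [nat_lit 780000, nat_lit 1435000, nat_lit 1271250], [nat_lit 8, nat_lit 40, nat_lit 80, nat_lit 80, nat_lit 1, nat_lit 317, nat_lit 100, nat_lit 10]⟩, C1.Rw.none,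
 ⟨nat_lit 4472, nat_lit 5478, ⟨.ofNat (nat_lit 90113), .ofNat (nat_lit 801872), .ofNat (nat_lit 132827), .ofNat (nat_lit 844520), .ofNat (nat_lit 123773), .ofNat (nat_lit 769461), .ofNat (nat_lit 166906), .ofNat (nat_lit 812527)⟩, ⟨.ofNat (nat_lit 0), .ofNat (nat_lit 0), .ofNat (nat_lit 0), .ofNat (nat_lit 0), .ofNat (nat_lit 0), .ofNat (nat_lit 0), .ofNat (nat_lit 0), .ofNat (nat_lit 0)⟩⟩, [⟨nat_lit 13, nat_lit 87, nat_lit 59, nat_lit 100, nat_lit 131285693⟩]⟩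
noncomputable def b_N_700_400_0_4 : St := ⟨false, nat_lit 2, nat_lit 2, nat_lit 0, nat_lit 40, nat_lit 280, nat_lit 320, nat_lit 160, nat_lit 200, nat_lit 4, nat_lit 384, nat_lit 0, nat_lit 0, nat_lit 0, nat_lit 0, nat_lit 0, nat_lit 0, nat_lit 80, nat_lit 88, nat_lit 0, nat_lit 0, nat_lit 0, nat_lit 0⟩
theorem d_N_700_400_0_4 (h : EB TB.env) : Dead b_N_700_400_0_4 := chkB_sound0 h (T :=
(.st (nat_lit 0)
(.gv
(.st (nat_lit 1)
(.spl (nat_lit 2) (nat_lit 160)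
(.leaf p014_l34)
(.leaf p014_l35))
(.spl (nat_lit 2) (nat_lit 160)
(.leaf p014_l36)
(.spl (nat_lit 0) (nat_lit 300)
(.leaf p014_l37)
(.trX (nat_lit 13) (nat_lit 87) (nat_lit 50) (nat_lit 100) (nat_lit 376) (.spl (nat_lit 2) (nat_lit 240)
(.leaf p014_l38)
(.spl (nat_lit 1) (nat_lit 180)
(.trX (nat_lit 13) (nat_lit 87) (nat_lit 59) (nat_lit 100) (nat_lit 364) (.leaf p014_l39))
(.leaf p014_l40)))))))
(.leaf p014_l41))
(.gv
(.st (nat_lit 1)
(.spl (nat_lit 2) (nat_lit 160)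
(.leaf p014_l42)
(.leaf p014_l43))
(.spl (nat_lit 0) (nat_lit 300)
(.leaf p014_l44)
(.trZ (nat_lit 0) (nat_lit 100) (nat_lit 88) (nat_lit 32) (nat_lit 8) (.trX (nat_lit 13) (nat_lit 87) (nat_lit 50) (nat_lit 100) (nat_lit 376) (.spl (nat_lit 2) (nat_lit 120)
(.leaf p014_l45)
(.spl (nat_lit 2) (nat_lit 240)
(.leaf p014_l46)
(.leaf p014_l47)))))))
(.leaf p014_l48)))) (by decide +kernel)
noncomputable def p014_l49 : Lf2 := ⟨nat_lit 0, nat_lit 10, [nat_lit 0, nat_lit 5, nat_lit 5, nat_lit 20], true, nat_lit 0, nat_lit 0, nat_lit 0, nat_lit 0, ⟨nat_lit 0, nat_lit 0, nat_lit 1000, nat_lit 5, nat_lit 157, nat_lit 0, nat_lit 0, nat_lit 0, nat_lit 0, nat_lit 215, nat_lit 1350, nat_lit 206, nat_lit 58044227, nat_lit 0, nat_lit 0, nat_lit 1966502, false, false⟩,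
 nat_lit 0, nat_lit 0, nat_lit 0, nat_lit 0, nat_lit 3466, nat_lit 0, nat_lit 0, nat_lit 0, nat_lit 0, nat_lit 0, nat_lit 0, nat_lit 0, nat_lit 0, nat_lit 0, nat_lit 117, nat_lit 560200, nat_lit 0, nat_lit 0, [(nat_lit 12, [(nat_lit 5, nat_lit 733), (nat_lit 6, nat_lit 267)]), (nat_lit 15, [(nat_lit 5, nat_lit 733), (nat_lit 6, nat_lit 267)])],
 ⟨p014_k15, nat_lit 0, nat_lit 0, nat_lit 300, nat_lit 0, nat_lit 0, [nat_lit 2955334800, nat_lit 235739600], [], [nat_lit 16588647823, nat_lit 19530985284, nat_lit 18822273872, nat_lit 20944018552], nat_lit 0, nat_lit 0, nat_lit 0, nat_lit 0, nat_lit 0, nat_lit 0, [], [nat_lit 82, nat_lit 40, nat_lit 80, nat_lit 80, nat_lit 63, nat_lit 272, nat_lit 60, nat_lit 8]⟩, C1.Rw.none,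
 ⟨nat_lit 4472, nat_lit 5478, ⟨.ofNat (nat_lit 155307), .ofNat (nat_lit 574895), .ofNat (nat_lit 198021), .ofNat (nat_lit 617523), .ofNat (nat_lit 187299), .ofNat (nat_lit 567940), .ofNat (nat_lit 230432), .ofNat (nat_lit 610987)⟩, ⟨.ofNat (nat_lit 0), .ofNat (nat_lit 0), .ofNat (nat_lit 0), .ofNat (nat_lit 0), .ofNat (nat_lit 0), .ofNat (nat_lit 0), .ofNat (nat_lit 0), .ofNat (nat_lit 0)⟩⟩, [⟨nat_lit 0, nat_lit 100, nat_lit 87, nat_lit 59, nat_lit 11111327⟩]⟩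
noncomputable def p014_l50 : Lf2 := ⟨nat_lit 0, nat_lit 10, [nat_lit 0, nat_lit 5, nat_lit 5, nat_lit 20], false, nat_lit 0, nat_lit 0, nat_lit 0, nat_lit 0, ⟨nat_lit 1000, nat_lit 0, nat_lit 0, nat_lit 0, nat_lit 0, nat_lit 0, nat_lit 0, nat_lit 0, nat_lit 0, nat_lit 0, nat_lit 0, nat_lit 0, nat_lit 0, nat_lit 0, nat_lit 0, nat_lit 0, false, false⟩,
 nat_lit 0, nat_lit 0, nat_lit 0, nat_lit 0, nat_lit 2614, nat_lit 0, nat_lit 0, nat_lit 0, nat_lit 0, nat_lit 0, nat_lit 0, nat_lit 0, nat_lit 0, nat_lit 0, nat_lit 0, nat_lit 0, nat_lit 0, nat_lit 0, [],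
 ⟨p014_k15, nat_lit 0, nat_lit 0, nat_lit 199, nat_lit 0, nat_lit 0, [nat_lit 3282000000, nat_lit 9842000000], [], [nat_lit 36645454688, nat_lit 38225983440, nat_lit 42542100109, nat_lit 43673305480], nat_lit 0, nat_lit 0, nat_lit 0, nat_lit 0, nat_lit 0, nat_lit 0, [], [nat_lit 82, nat_lit 40, nat_lit 80, nat_lit 80, nat_lit 63, nat_lit 317, nat_lit 100, nat_lit 9]⟩, ⟨p014_k16, nat_lit 0, nat_lit 0, nat_lit 241, nat_lit 0, nat_lit 0, [nat_lit 6250000000, nat_lit 11872000000], [], [nat_lit 41767092000, nat_lit 42775632000, nat_lit 46142182400, nat_lit 47010957400], nat_lit 0, nat_lit 0, nat_lit 0, nat_lit 0, nat_lit 0, nat_lit 0, [], [nat_lit 107, nat_lit 40, nat_lit 80, nat_lit 80, nat_lit 12, nat_lit 401, nat_lit 175, nat_lit 10]⟩,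
 zbF0, []⟩
noncomputable def p014_l51 : Lf2 := ⟨nat_lit 0, nat_lit 10, [nat_lit 0, nat_lit 5, nat_lit 5, nat_lit 20], true, nat_lit 0, nat_lit 0, nat_lit 0, nat_lit 0, ⟨nat_lit 0, nat_lit 0, nat_lit 1000, nat_lit 5, nat_lit 157, nat_lit 0, nat_lit 0, nat_lit 0, nat_lit 0, nat_lit 215, nat_lit 1350, nat_lit 206, nat_lit 58044227, nat_lit 0, nat_lit 0, nat_lit 1966502, false, false⟩,
 nat_lit 0, nat_lit 0, nat_lit 0, nat_lit 0, nat_lit 3466, nat_lit 0, nat_lit 0, nat_lit 0, nat_lit 0, nat_lit 0, nat_lit 0, nat_lit 0, nat_lit 0, nat_lit 0, nat_lit 117, nat_lit 560200, nat_lit 0, nat_lit 0, [(nat_lit 12, [(nat_lit 5, nat_lit 733), (nat_lit 6, nat_lit 267)]), (nat_lit 15, [(nat_lit 5, nat_lit 733), (nat_lit 6, nat_lit 267)])],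
 ⟨p014_k15, nat_lit 0, nat_lit 0, nat_lit 300, nat_lit 0, nat_lit 0, [nat_lit 2955334800, nat_lit 235739600], [], [nat_lit 16588647823, nat_lit 19530985284, nat_lit 18822273872, nat_lit 20944018552], nat_lit 0, nat_lit 0, nat_lit 0, nat_lit 0, nat_lit 0, nat_lit 0, [], [nat_lit 82, nat_lit 40, nat_lit 80, nat_lit 80, nat_lit 63, nat_lit 272, nat_lit 60, nat_lit 8]⟩, C1.Rw.none,
 ⟨nat_lit 4472, nat_lit 5478, ⟨.ofNat (nat_lit 155307), .ofNat (nat_lit 574895), .ofNat (nat_lit 198021), .ofNat (nat_lit 617523), .ofNat (nat_lit 187299), .ofNat (nat_lit 567940), .ofNat (nat_lit 230432), .ofNat (nat_lit 610987)⟩, ⟨.ofNat (nat_lit 0), .ofNat (nat_lit 0), .ofNat (nat_lit 0), .ofNat (nat_lit 0), .ofNat (nat_lit 0), .ofNat (nat_lit 0), .ofNat (nat_lit 0), .ofNat (nat_lit 0)⟩⟩, [⟨nat_lit 0, nat_lit 100, nat_lit 87, nat_lit 59, nat_lit 11111327⟩]⟩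
noncomputable def p014_l52 : Lf2 := ⟨nat_lit 0, nat_lit 10, [nat_lit 0, nat_lit 5, nat_lit 5, nat_lit 20], true, nat_lit 0, nat_lit 0, nat_lit 0, nat_lit 0, ⟨nat_lit 0, nat_lit 1000, nat_lit 0, nat_lit 6, nat_lit 266, nat_lit 0, nat_lit 0, nat_lit 0, nat_lit 0, nat_lit 0, nat_lit 0, nat_lit 0, nat_lit 46487885, nat_lit 20512115, nat_lit 0, nat_lit 3079930, true, true⟩,
 nat_lit 0, nat_lit 0, nat_lit 0, nat_lit 0, nat_lit 3935, nat_lit 0, nat_lit 198, nat_lit 0, nat_lit 0, nat_lit 0, nat_lit 0, nat_lit 0, nat_lit 0, nat_lit 0, nat_lit 0, nat_lit 400000, nat_lit 0, nat_lit 0, [(nat_lit 12, [(nat_lit 1, nat_lit 1000)]), (nat_lit 15, [(nat_lit 1, nat_lit 1000)])],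
 ⟨p014_k17, nat_lit 0, nat_lit 0, nat_lit 201, nat_lit 0, nat_lit 0, [nat_lit 2251200000, nat_lit 2817000000, nat_lit 2636400000], [], [nat_lit 23048711950, nat_lit 25055188190, nat_lit 26502638670, nat_lit 28362259280], nat_lit 0, nat_lit 0, nat_lit 0, nat_lit 0, nat_lit 0, nat_lit 0, [], [nat_lit 99, nat_lit 40, nat_lit 80, nat_lit 80, nat_lit 17, nat_lit 317, nat_lit 100, nat_lit 9]⟩, C1.Rw.none,
 ⟨nat_lit 4472, nat_lit 5478, ⟨.ofNat (nat_lit 574895), .ofNat (nat_lit 724687), .ofNat (nat_lit 617523), .ofNat (nat_lit 767319), .ofNat (nat_lit 567940), .ofNat (nat_lit 703822), .ofNat (nat_lit 610987), .ofNat (nat_lit 746873)⟩, ⟨.ofNat (nat_lit 0), .ofNat (nat_lit 0), .ofNat (nat_lit 0), .ofNat (nat_lit 0), .ofNat (nat_lit 0), .ofNat (nat_lit 0), .ofNat (nat_lit 0), .ofNat (nat_lit 0)⟩⟩, []⟩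
noncomputable def p014_l53 : Lf2 := ⟨nat_lit 0, nat_lit 10, [nat_lit 0, nat_lit 5, nat_lit 5, nat_lit 20], true, nat_lit 0, nat_lit 0, nat_lit 0, nat_lit 0, ⟨nat_lit 0, nat_lit 1000, nat_lit 0, nat_lit 8, nat_lit 309, nat_lit 0, nat_lit 0, nat_lit 0, nat_lit 0, nat_lit 0, nat_lit 0, nat_lit 0, nat_lit 42005363, nat_lit 24994637, nat_lit 0, nat_lit 3302805, true, true⟩,
 nat_lit 0, nat_lit 0, nat_lit 0, nat_lit 0, nat_lit 3579, nat_lit 0, nat_lit 343, nat_lit 0, nat_lit 0, nat_lit 0, nat_lit 0, nat_lit 0, nat_lit 0, nat_lit 0, nat_lit 0, nat_lit 400000, nat_lit 0, nat_lit 0, [(nat_lit 12, [(nat_lit 1, nat_lit 1000)]), (nat_lit 15, [(nat_lit 1, nat_lit 1000)])],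
 ⟨p014_k0, nat_lit 0, nat_lit 0, nat_lit 206, nat_lit 0, nat_lit 0, [nat_lit 2068400000, nat_lit 2721200001, nat_lit 2642799999], [], [nat_lit 25591917202, nat_lit 27201027874, nat_lit 27597612107, nat_lit 29283566033], nat_lit 0, nat_lit 0, nat_lit 0, nat_lit 0, nat_lit 0, nat_lit 0, [], [nat_lit 8, nat_lit 40, nat_lit 80, nat_lit 80, nat_lit 1, nat_lit 203, nat_lit 0, nat_lit 5]⟩, C1.Rw.none,
 ⟨nat_lit 4472, nat_lit 5478, ⟨.ofNat (nat_lit 724687), .ofNat (nat_lit 799582), .ofNat (nat_lit 767319), .ofNat (nat_lit 842216), .ofNat (nat_lit 703822), .ofNat (nat_lit 771763), .ofNat (nat_lit 746873), .ofNat (nat_lit 814816)⟩, ⟨.ofNat (nat_lit 0), .ofNat (nat_lit 0), .ofNat (nat_lit 0), .ofNat (nat_lit 0), .ofNat (nat_lit 0), .ofNat (nat_lit 0), .ofNat (nat_lit 0), .ofNat (nat_lit 0)⟩⟩, []⟩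
noncomputable def p014_l54 : Lf2 := ⟨nat_lit 0, nat_lit 10, [nat_lit 0, nat_lit 5, nat_lit 5, nat_lit 20], true, nat_lit 0, nat_lit 0, nat_lit 0, nat_lit 0, ⟨nat_lit 0, nat_lit 1000, nat_lit 0, nat_lit 9, nat_lit 326, nat_lit 0, nat_lit 0, nat_lit 0, nat_lit 0, nat_lit 0, nat_lit 0, nat_lit 0, nat_lit 40218543, nat_lit 26781457, nat_lit 0, nat_lit 3364495, true, true⟩,
 nat_lit 0, nat_lit 0, nat_lit 0, nat_lit 0, nat_lit 3458, nat_lit 0, nat_lit 221, nat_lit 0, nat_lit 0, nat_lit 0, nat_lit 0, nat_lit 0, nat_lit 0, nat_lit 0, nat_lit 0, nat_lit 400000, nat_lit 0, nat_lit 0, [(nat_lit 12, [(nat_lit 1, nat_lit 1000)]), (nat_lit 15, [(nat_lit 1, nat_lit 1000)])],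
 ⟨p014_k0, nat_lit 0, nat_lit 0, nat_lit 215, nat_lit 0, nat_lit 0, [nat_lit 2068400000, nat_lit 2721200001, nat_lit 2642799999], [], [nat_lit 28415445724, nat_lit 29872504229, nat_lit 29799650115, nat_lit 31216702060], nat_lit 0, nat_lit 0, nat_lit 0, nat_lit 0, nat_lit 0, nat_lit 0, [], [nat_lit 8, nat_lit 40, nat_lit 80, nat_lit 80, nat_lit 1, nat_lit 203, nat_lit 0, nat_lit 5]⟩, C1.Rw.none,
 ⟨nat_lit 4472, nat_lit 5478, ⟨.ofNat (nat_lit 799582), .ofNat (nat_lit 852009), .ofNat (nat_lit 810244), .ofNat (nat_lit 862671), .ofNat (nat_lit 771763), .ofNat (nat_lit 819321), .ofNat (nat_lit 782529), .ofNat (nat_lit 830088)⟩, ⟨.ofNat (nat_lit 0), .ofNat (nat_lit 0), .ofNat (nat_lit 0), .ofNat (nat_lit 0), .ofNat (nat_lit 0), .ofNat (nat_lit 0), .ofNat (nat_lit 0), .ofNat (nat_lit 0)⟩⟩, [⟨nat_lit 13, nat_lit 92, nat_lit 35, nat_lit 100, nat_lit 172239170⟩]⟩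
noncomputable def p014_l55 : Lf2 := ⟨nat_lit 0, nat_lit 10, [nat_lit 0, nat_lit 5, nat_lit 5, nat_lit 20], false, nat_lit 0, nat_lit 0, nat_lit 0, nat_lit 0, ⟨nat_lit 22, nat_lit 978, nat_lit 0, nat_lit 9, nat_lit 332, nat_lit 0, nat_lit 0, nat_lit 0, nat_lit 0, nat_lit 0, nat_lit 0, nat_lit 0, nat_lit 39658686, nat_lit 27341314, nat_lit 0, nat_lit 3380758, true, true⟩,
 nat_lit 0, nat_lit 0, nat_lit 470, nat_lit 0, nat_lit 3465, nat_lit 213, nat_lit 229, nat_lit 0, nat_lit 0, nat_lit 16, nat_lit 0, nat_lit 0, nat_lit 0, nat_lit 0, nat_lit 0, nat_lit 391200, nat_lit 0, nat_lit 0, [(nat_lit 12, [(nat_lit 1, nat_lit 978)]), (nat_lit 15, [(nat_lit 1, nat_lit 978)])],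
 ⟨p014_k0, nat_lit 0, nat_lit 0, nat_lit 216, nat_lit 0, nat_lit 0, [nat_lit 2095099200, nat_lit 2798833601, nat_lit 2797750399], [], [nat_lit 28543735974, nat_lit 29995108691, nat_lit 30128937113, nat_lit 31526066689], nat_lit 0, nat_lit 0, nat_lit 0, nat_lit 0, nat_lit 0, nat_lit 0, [], [nat_lit 8, nat_lit 40, nat_lit 80, nat_lit 80, nat_lit 1, nat_lit 203, nat_lit 0, nat_lit 5]⟩, ⟨p014_k18, nat_lit 0, nat_lit 0, nat_lit 1276, nat_lit 0, nat_lit 2277880, [nat_lit 137500000, nat_lit 216524000, nat_lit 261184000], [], [nat_lit 985665367, nat_lit 982182334, nat_lit 990638981, nat_lit 986895763], nat_lit 1271250, nat_lit 1271250, nat_lit 1271250, nat_lit 1271250, nat_lit 0, nat_lit 0, [nat_lit 1412500, nat_lit 1271250, nat_lit 1271250], [nat_lit 46, nat_lit 40, nat_lit 80, nat_lit 80, nat_lit 41, nat_lit 396, nat_lit 60, nat_lit 10]⟩,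
 ⟨nat_lit 4472, nat_lit 5478, ⟨.ofNat (nat_lit 810244), .ofNat (nat_lit 870161), .ofNat (nat_lit 820904), .ofNat (nat_lit 880822), .ofNat (nat_lit 782529), .ofNat (nat_lit 836882), .ofNat (nat_lit 793294), .ofNat (nat_lit 847648)⟩, ⟨.ofNat (nat_lit 0), .ofNat (nat_lit 0), .ofNat (nat_lit 0), .ofNat (nat_lit 0), .ofNat (nat_lit 0), .ofNat (nat_lit 0), .ofNat (nat_lit 0), .ofNat (nat_lit 0)⟩⟩, [⟨nat_lit 13, nat_lit 92, nat_lit 31, nat_lit 100, nat_lit 163923899⟩]⟩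
noncomputable def p014_l56 : Lf2 := ⟨nat_lit 0, nat_lit 10, [nat_lit 0, nat_lit 5, nat_lit 5, nat_lit 20], false, nat_lit 0, nat_lit 0, nat_lit 0, nat_lit 0, ⟨nat_lit 148, nat_lit 852, nat_lit 0, nat_lit 9, nat_lit 340, nat_lit 0, nat_lit 0, nat_lit 0, nat_lit 0, nat_lit 0, nat_lit 0, nat_lit 0, nat_lit 38902605, nat_lit 28097395, nat_lit 0, nat_lit 3400428, true, true⟩,
 nat_lit 0, nat_lit 0, nat_lit 2550, nat_lit 0, nat_lit 3580, nat_lit 1219, nat_lit 292, nat_lit 0, nat_lit 0, nat_lit 310, nat_lit 0, nat_lit 0, nat_lit 0, nat_lit 0, nat_lit 0, nat_lit 340800, nat_lit 0, nat_lit 0, [(nat_lit 12, [(nat_lit 1, nat_lit 852)])],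
 ⟨p014_k0, nat_lit 0, nat_lit 0, nat_lit 213, nat_lit 0, nat_lit 0, [nat_lit 2248012800, nat_lit 3243462400, nat_lit 3702828800], [], [nat_lit 29162839100, nat_lit 29523694640, nat_lit 30767305053, nat_lit 31099512071], nat_lit 0, nat_lit 0, nat_lit 0, nat_lit 0, nat_lit 0, nat_lit 0, [], [nat_lit 8, nat_lit 40, nat_lit 80, nat_lit 80, nat_lit 1, nat_lit 203, nat_lit 0, nat_lit 5]⟩, ⟨p014_k19, nat_lit 0, nat_lit 0, nat_lit 925, nat_lit 0, nat_lit 1512993, [nat_lit 925000000, nat_lit 1456616000, nat_lit 1757056000], [], [nat_lit 5649982933, nat_lit 5645748946, nat_lit 5720877045, nat_lit 5725261041], nat_lit 1271250, nat_lit 1271250, nat_lit 1271250, nat_lit 1271250, nat_lit 0, nat_lit 0, [nat_lit 1412500, nat_lit 1271250, nat_lit 1271250], [nat_lit 46, nat_lit 40, nat_lit 80, nat_lit 80, nat_lit 41, nat_lit 309, nat_lit 60, nat_lit 7]⟩,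
 ⟨nat_lit 5244, nat_lit 5478, ⟨.ofNat (nat_lit 821072), .ofNat (nat_lit 881015), .ofNat (nat_lit 826410), .ofNat (nat_lit 886354), .ofNat (nat_lit 814053), .ofNat (nat_lit 872587), .ofNat (nat_lit 819398), .ofNat (nat_lit 877933)⟩, ⟨.ofNat (nat_lit 0), .ofNat (nat_lit 0), .ofNat (nat_lit 0), .ofNat (nat_lit 0), .ofNat (nat_lit 0), .ofNat (nat_lit 0), .ofNat (nat_lit 0), .ofNat (nat_lit 0)⟩⟩, [⟨nat_lit 13, nat_lit 91, nat_lit 32, nat_lit 100, nat_lit 124003146⟩]⟩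
noncomputable def p014_l57 : Lf2 := ⟨nat_lit 0, nat_lit 10, [nat_lit 0, nat_lit 5, nat_lit 5, nat_lit 20], false, nat_lit 0, nat_lit 0, nat_lit 0, nat_lit 0, ⟨nat_lit 149, nat_lit 851, nat_lit 0, nat_lit 9, nat_lit 344, nat_lit 0, nat_lit 0, nat_lit 0, nat_lit 0, nat_lit 0, nat_lit 0, nat_lit 0, nat_lit 38556613, nat_lit 28443387, nat_lit 0, nat_lit 3408556, true, true⟩,
 nat_lit 0, nat_lit 0, nat_lit 2474, nat_lit 0, nat_lit 3642, nat_lit 1214, nat_lit 314, nat_lit 0, nat_lit 0, nat_lit 242, nat_lit 0, nat_lit 0, nat_lit 0, nat_lit 0, nat_lit 0, nat_lit 340400, nat_lit 0, nat_lit 0, [(nat_lit 12, [(nat_lit 1, nat_lit 851)])],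
 ⟨p014_k0, nat_lit 0, nat_lit 0, nat_lit 214, nat_lit 0, nat_lit 0, [nat_lit 2249226400, nat_lit 3246991200, nat_lit 3710034400], [], [nat_lit 29011179950, nat_lit 29377281665, nat_lit 30896549577, nat_lit 31244270902], nat_lit 0, nat_lit 0, nat_lit 0, nat_lit 0, nat_lit 0, nat_lit 0, [], [nat_lit 8, nat_lit 40, nat_lit 80, nat_lit 80, nat_lit 1, nat_lit 203, nat_lit 0, nat_lit 5]⟩, ⟨p014_k20, nat_lit 0, nat_lit 0, nat_lit 916, nat_lit 0, nat_lit 1493464, [nat_lit 931250000, nat_lit 1466458000, nat_lit 1768928000], [], [nat_lit 5790548465, nat_lit 5784959694, nat_lit 5861888264, nat_lit 5856733298], nat_lit 1271250, nat_lit 1271250, nat_lit 1271250, nat_lit 1271250, nat_lit 0, nat_lit 0, [nat_lit 1412500, nat_lit 1271250, nat_lit 1271250], [nat_lit 46, nat_lit 40, nat_lit 80, nat_lit 80, nat_lit 41, nat_lit 308, nat_lit 60, nat_lit 7]⟩,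
 ⟨nat_lit 5244, nat_lit 5478, ⟨.ofNat (nat_lit 826410), .ofNat (nat_lit 893847), .ofNat (nat_lit 831749), .ofNat (nat_lit 899186), .ofNat (nat_lit 819398), .ofNat (nat_lit 885249), .ofNat (nat_lit 824744), .ofNat (nat_lit 890595)⟩, ⟨.ofNat (nat_lit 0), .ofNat (nat_lit 0), .ofNat (nat_lit 0), .ofNat (nat_lit 0), .ofNat (nat_lit 0), .ofNat (nat_lit 0), .ofNat (nat_lit 0), .ofNat (nat_lit 0)⟩⟩, [⟨nat_lit 13, nat_lit 91, nat_lit 30, nat_lit 100, nat_lit 138604990⟩]⟩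
noncomputable def p014_l58 : Lf2 := ⟨nat_lit 0, nat_lit 10, [nat_lit 0, nat_lit 5, nat_lit 5, nat_lit 20], false, nat_lit 0, nat_lit 0, nat_lit 0, nat_lit 0, ⟨nat_lit 168, nat_lit 832, nat_lit 0, nat_lit 9, nat_lit 348, nat_lit 0, nat_lit 0, nat_lit 0, nat_lit 0, nat_lit 0, nat_lit 0, nat_lit 0, nat_lit 38178216, nat_lit 28821784, nat_lit 0, nat_lit 3416821, true, true⟩,
 nat_lit 0, nat_lit 0, nat_lit 2726, nat_lit 0, nat_lit 3917, nat_lit 1372, nat_lit 409, nat_lit 0, nat_lit 0, nat_lit 233, nat_lit 0, nat_lit 0, nat_lit 0, nat_lit 0, nat_lit 0, nat_lit 332800, nat_lit 0, nat_lit 0, [(nat_lit 12, [(nat_lit 1, nat_lit 832)])],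
 ⟨p014_k0, nat_lit 0, nat_lit 0, nat_lit 214, nat_lit 0, nat_lit 0, [nat_lit 2272284800, nat_lit 3314038401, nat_lit 3846940800], [], [nat_lit 28735692297, nat_lit 28933794076, nat_lit 30705030188, nat_lit 30883303436], nat_lit 0, nat_lit 0, nat_lit 0, nat_lit 0, nat_lit 0, nat_lit 0, [], [nat_lit 8, nat_lit 40, nat_lit 80, nat_lit 80, nat_lit 1, nat_lit 203, nat_lit 0, nat_lit 5]⟩, ⟨p014_k21, nat_lit 0, nat_lit 0, nat_lit 890, nat_lit 0, nat_lit 1433428, [nat_lit 1050000000, nat_lit 1653456000, nat_lit 1994496000], [], [nat_lit 6484844124, nat_lit 6475518122, nat_lit 6569695486, nat_lit 6572596260], nat_lit 1271250, nat_lit 1271250, nat_lit 1271250, nat_lit 1271250, nat_lit 0, nat_lit 0, [nat_lit 1412500, nat_lit 1271250, nat_lit 1271250], [nat_lit 46, nat_lit 40, nat_lit 80, nat_lit 80, nat_lit 41, nat_lit 302, nat_lit 60, nat_lit 7]⟩,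
 ⟨nat_lit 5361, nat_lit 5478, ⟨.ofNat (nat_lit 831762), .ofNat (nat_lit 899202), .ofNat (nat_lit 842441), .ofNat (nat_lit 909879), .ofNat (nat_lit 828246), .ofNat (nat_lit 894890), .ofNat (nat_lit 838931), .ofNat (nat_lit 905574)⟩, ⟨.ofNat (nat_lit 0), .ofNat (nat_lit 0), .ofNat (nat_lit 0), .ofNat (nat_lit 0), .ofNat (nat_lit 0), .ofNat (nat_lit 0), .ofNat (nat_lit 0), .ofNat (nat_lit 0)⟩⟩, [⟨nat_lit 13, nat_lit 93, nat_lit 25, nat_lit 100, nat_lit 137175000⟩]⟩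
noncomputable def p014_l59 : Lf2 := ⟨nat_lit 0, nat_lit 10, [nat_lit 0, nat_lit 5, nat_lit 5, nat_lit 20], false, nat_lit 0, nat_lit 0, nat_lit 0, nat_lit 0, ⟨nat_lit 166, nat_lit 834, nat_lit 0, nat_lit 9, nat_lit 346, nat_lit 0, nat_lit 0, nat_lit 0, nat_lit 0, nat_lit 0, nat_lit 0, nat_lit 0, nat_lit 38325691, nat_lit 28674309, nat_lit 0, nat_lit 3413677, true, true⟩,
 nat_lit 0, nat_lit 0, nat_lit 2684, nat_lit 0, nat_lit 3898, nat_lit 1351, nat_lit 407, nat_lit 0, nat_lit 0, nat_lit 229, nat_lit 0, nat_lit 0, nat_lit 0, nat_lit 0, nat_lit 0, nat_lit 333600, nat_lit 0, nat_lit 0, [(nat_lit 12, [(nat_lit 1, nat_lit 834)])],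
 ⟨p014_k22, nat_lit 0, nat_lit 0, nat_lit 214, nat_lit 0, nat_lit 0, [nat_lit 2269857600, nat_lit 3306980800, nat_lit 3832529600], [], [nat_lit 28754917780, nat_lit 28952703260, nat_lit 30699231022, nat_lit 30876346129], nat_lit 0, nat_lit 0, nat_lit 0, nat_lit 0, nat_lit 0, nat_lit 0, [], [nat_lit 8, nat_lit 40, nat_lit 80, nat_lit 80, nat_lit 1, nat_lit 203, nat_lit 0, nat_lit 5]⟩, ⟨p014_k21, nat_lit 0, nat_lit 0, nat_lit 923, nat_lit 0, nat_lit 1516465, [nat_lit 1037500000, nat_lit 1633772000, nat_lit 1970752000], [], [nat_lit 6442437643, nat_lit 6433336566, nat_lit 6526329313, nat_lit 6514882038], nat_lit 1271250, nat_lit 1271250, nat_lit 1271250, nat_lit 1271250, nat_lit 0, nat_lit 0, [nat_lit 1412500, nat_lit 1271250, nat_lit 1271250], [nat_lit 46, nat_lit 40, nat_lit 80, nat_lit 80, nat_lit 41, nat_lit 311, nat_lit 60, nat_lit 7]⟩,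
 ⟨nat_lit 5244, nat_lit 5362, ⟨.ofNat (nat_lit 828247), .ofNat (nat_lit 894891), .ofNat (nat_lit 838931), .ofNat (nat_lit 905575), .ofNat (nat_lit 824758), .ofNat (nat_lit 890611), .ofNat (nat_lit 835450), .ofNat (nat_lit 901304)⟩, ⟨.ofNat (nat_lit 0), .ofNat (nat_lit 0), .ofNat (nat_lit 0), .ofNat (nat_lit 0), .ofNat (nat_lit 0), .ofNat (nat_lit 0), .ofNat (nat_lit 0), .ofNat (nat_lit 0)⟩⟩, [⟨nat_lit 13, nat_lit 91, nat_lit 28, nat_lit 100, nat_lit 142623369⟩]⟩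
noncomputable def p014_l60 : Lf2 := ⟨nat_lit 0, nat_lit 10, [nat_lit 0, nat_lit 5, nat_lit 5, nat_lit 20], true, nat_lit 0, nat_lit 0, nat_lit 0, nat_lit 0, ⟨nat_lit 0, nat_lit 1000, nat_lit 0, nat_lit 9, nat_lit 342, nat_lit 0, nat_lit 0, nat_lit 0, nat_lit 0, nat_lit 0, nat_lit 0, nat_lit 0, nat_lit 38750215, nat_lit 28249785, nat_lit 0, nat_lit 3404076, true, true⟩,
 nat_lit 0, nat_lit 0, nat_lit 0, nat_lit 0, nat_lit 3465, nat_lit 0, nat_lit 103, nat_lit 0, nat_lit 0, nat_lit 0, nat_lit 0, nat_lit 0, nat_lit 0, nat_lit 0, nat_lit 0, nat_lit 400000, nat_lit 0, nat_lit 0, [(nat_lit 12, [(nat_lit 1, nat_lit 1000)])],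
 ⟨p014_k23, nat_lit 0, nat_lit 0, nat_lit 194, nat_lit 0, nat_lit 0, [nat_lit 2068400000, nat_lit 2721200001, nat_lit 2682000000], [], [nat_lit 28623407114, nat_lit 29004561556, nat_lit 30452314485, nat_lit 30827301307], nat_lit 0, nat_lit 0, nat_lit 0, nat_lit 0, nat_lit 0, nat_lit 0, [], [nat_lit 18, nat_lit 40, nat_lit 80, nat_lit 80, nat_lit 2, nat_lit 203, nat_lit 0, nat_lit 6]⟩, C1.Rw.none,
 ⟨nat_lit 5000, nat_lit 5245, ⟨.ofNat (nat_lit 814056), .ofNat (nat_lit 879907), .ofNat (nat_lit 835439), .ofNat (nat_lit 901290), .ofNat (nat_lit 807129), .ofNat (nat_lit 871412), .ofNat (nat_lit 828555), .ofNat (nat_lit 892838)⟩, ⟨.ofNat (nat_lit 0), .ofNat (nat_lit 0), .ofNat (nat_lit 0), .ofNat (nat_lit 0), .ofNat (nat_lit 0), .ofNat (nat_lit 0), .ofNat (nat_lit 0), .ofNat (nat_lit 0)⟩⟩, [⟨nat_lit 13, nat_lit 91, nat_lit 27, nat_lit 100, nat_lit 183820596⟩]⟩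
noncomputable def p014_l61 : Lf2 := ⟨nat_lit 0, nat_lit 10, [nat_lit 0, nat_lit 5, nat_lit 5, nat_lit 20], true, nat_lit 0, nat_lit 0, nat_lit 0, nat_lit 0, ⟨nat_lit 0, nat_lit 1000, nat_lit 0, nat_lit 9, nat_lit 336, nat_lit 0, nat_lit 0, nat_lit 0, nat_lit 0, nat_lit 0, nat_lit 0, nat_lit 0, nat_lit 39324896, nat_lit 27675104, nat_lit 0, nat_lit 3389766, true, true⟩,
 nat_lit 0, nat_lit 0, nat_lit 0, nat_lit 0, nat_lit 3415, nat_lit 0, nat_lit 115, nat_lit 0, nat_lit 0, nat_lit 0, nat_lit 0, nat_lit 0, nat_lit 0, nat_lit 0, nat_lit 0, nat_lit 400000, nat_lit 0, nat_lit 0, [(nat_lit 15, [(nat_lit 1, nat_lit 1000)])],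
 ⟨p014_k4, nat_lit 0, nat_lit 0, nat_lit 196, nat_lit 0, nat_lit 0, [nat_lit 2020200000, nat_lit 2354866667, nat_lit 2328333333], [], [nat_lit 28483701247, nat_lit 29242680682, nat_lit 30065224316, nat_lit 30821138407], nat_lit 0, nat_lit 0, nat_lit 0, nat_lit 0, nat_lit 0, nat_lit 0, [], [nat_lit 18, nat_lit 40, nat_lit 80, nat_lit 80, nat_lit 2, nat_lit 203, nat_lit 0, nat_lit 6]⟩, C1.Rw.none,
 ⟨nat_lit 4472, nat_lit 5000, ⟨.ofNat (nat_lit 807111), .ofNat (nat_lit 864250), .ofNat (nat_lit 828527), .ofNat (nat_lit 885667), .ofNat (nat_lit 793448), .ofNat (nat_lit 847826), .ofNat (nat_lit 815001), .ofNat (nat_lit 869380)⟩, ⟨.ofNat (nat_lit 0), .ofNat (nat_lit 0), .ofNat (nat_lit 0), .ofNat (nat_lit 0), .ofNat (nat_lit 0), .ofNat (nat_lit 0), .ofNat (nat_lit 0), .ofNat (nat_lit 0)⟩⟩, [⟨nat_lit 13, nat_lit 88, nat_lit 32, nat_lit 100, nat_lit 195422104⟩]⟩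
noncomputable def p014_l62 : Lf2 := ⟨nat_lit 0, nat_lit 10, [nat_lit 0, nat_lit 5, nat_lit 5, nat_lit 20], true, nat_lit 0, nat_lit 0, nat_lit 0, nat_lit 0, ⟨nat_lit 0, nat_lit 1000, nat_lit 0, nat_lit 5, nat_lit 213, nat_lit 0, nat_lit 0, nat_lit 0, nat_lit 0, nat_lit 0, nat_lit 0, nat_lit 0, nat_lit 0, nat_lit 0, nat_lit 0, nat_lit 5000000, false, true⟩,
 nat_lit 0, nat_lit 0, nat_lit 0, nat_lit 0, nat_lit 4523, nat_lit 0, nat_lit 0, nat_lit 0, nat_lit 0, nat_lit 0, nat_lit 0, nat_lit 0, nat_lit 0, nat_lit 0, nat_lit 0, nat_lit 664600, nat_lit 0, nat_lit 0, [(nat_lit 12, [(nat_lit 1, nat_lit 559), (nat_lit 2, nat_lit 441)]), (nat_lit 15, [(nat_lit 1, nat_lit 559), (nat_lit 2, nat_lit 441)])],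
 ⟨p014_k15, nat_lit 0, nat_lit 0, nat_lit 300, nat_lit 0, nat_lit 0, [nat_lit 3037409601, nat_lit 1390331200], [], [nat_lit 26022005214, nat_lit 27940373859, nat_lit 31496980046, nat_lit 33606779680], nat_lit 0, nat_lit 0, nat_lit 0, nat_lit 0, nat_lit 0, nat_lit 0, [], [nat_lit 82, nat_lit 40, nat_lit 80, nat_lit 80, nat_lit 63, nat_lit 317, nat_lit 100, nat_lit 9]⟩, C1.Rw.none,
 ⟨nat_lit 4472, nat_lit 5478, ⟨.ofNat (nat_lit 155307), .ofNat (nat_lit 866988), .ofNat (nat_lit 198021), .ofNat (nat_lit 909625), .ofNat (nat_lit 187299), .ofNat (nat_lit 832909), .ofNat (nat_lit 230432), .ofNat (nat_lit 875965)⟩, ⟨.ofNat (nat_lit 0), .ofNat (nat_lit 0), .ofNat (nat_lit 0), .ofNat (nat_lit 0), .ofNat (nat_lit 0), .ofNat (nat_lit 0), .ofNat (nat_lit 0), .ofNat (nat_lit 0)⟩⟩, [⟨nat_lit 13, nat_lit 94, nat_lit 21, nat_lit 100, nat_lit 118486818⟩]⟩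
noncomputable def b_N_700_500_0_0 : St := ⟨false, nat_lit 0, nat_lit 2, nat_lit 0, nat_lit 40, nat_lit 280, nat_lit 320, nat_lit 200, nat_lit 240, nat_lit 16, nat_lit 396, nat_lit 0, nat_lit 0, nat_lit 0, nat_lit 0, nat_lit 0, nat_lit 0, nat_lit 0, nat_lit 40, nat_lit 0, nat_lit 0, nat_lit 0, nat_lit 0⟩
theorem d_N_700_500_0_0 (h : EB TB.env) : Dead b_N_700_500_0_0 := chkB_sound0 h (T :=
(.gv
(.st (nat_lit 1)
(.spl (nat_lit 2) (nat_lit 240)
(.leaf p014_l49)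
(.leaf p014_l50))
(.spl (nat_lit 2) (nat_lit 240)
(.leaf p014_l51)
(.spl (nat_lit 2) (nat_lit 320)
(.leaf p014_l52)
(.spl (nat_lit 2) (nat_lit 360)
(.leaf p014_l53)
(.spl (nat_lit 1) (nat_lit 220)
(.trX (nat_lit 13) (nat_lit 92) (nat_lit 31) (nat_lit 100) (nat_lit 392) (.spl (nat_lit 1) (nat_lit 210)
(.trX (nat_lit 13) (nat_lit 92) (nat_lit 35) (nat_lit 100) (nat_lit 388) (.leaf p014_l54))
(.leaf p014_l55)))
(.spl (nat_lit 0) (nat_lit 300)
(.spl (nat_lit 0) (nat_lit 290)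
(.spl (nat_lit 1) (nat_lit 230)
(.spl (nat_lit 1) (nat_lit 225)
(.trX (nat_lit 13) (nat_lit 92) (nat_lit 28) (nat_lit 100) (nat_lit 392) (.leaf p014_l56))
(.leaf p014_l57))
(.spl (nat_lit 0) (nat_lit 285)
(.leaf p014_l58)
(.leaf p014_l59)))
(.leaf p014_l60))
(.trX (nat_lit 13) (nat_lit 88) (nat_lit 32) (nat_lit 100) (nat_lit 392) (.leaf p014_l61))))))))
(.leaf p014_l62))) (by decide +kernel)
noncomputable def p014_l63 : Lf2 := ⟨nat_lit 0, nat_lit 10, [nat_lit 0, nat_lit 5, nat_lit 5, nat_lit 20], true, nat_lit 0, nat_lit 0, nat_lit 0, nat_lit 0, ⟨nat_lit 0, nat_lit 0, nat_lit 1000, nat_lit 5, nat_lit 93, nat_lit 0, nat_lit 0, nat_lit 0, nat_lit 0, nat_lit 215, nat_lit 81667, nat_lit 285, nat_lit 63560945, nat_lit 0, nat_lit 0, nat_lit 1012043, false, false⟩,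
 nat_lit 0, nat_lit 5274, nat_lit 0, nat_lit 0, nat_lit 3356, nat_lit 0, nat_lit 0, nat_lit 0, nat_lit 0, nat_lit 0, nat_lit 0, nat_lit 0, nat_lit 0, nat_lit 0, nat_lit 179, nat_lit 848800, nat_lit 0, nat_lit 0, [(nat_lit 12, [(nat_lit 5, nat_lit 252), (nat_lit 6, nat_lit 748)])],
 ⟨p014_k0, nat_lit 0, nat_lit 0, nat_lit 538, nat_lit 0, nat_lit 528382, [nat_lit 3314299201, nat_lit 2601819201, nat_lit 358769600], [], [nat_lit 16003713481, nat_lit 17192611284, nat_lit 16391682341, nat_lit 16821625725], nat_lit 1271250, nat_lit 1271250, nat_lit 88400, nat_lit 490000, nat_lit 0, nat_lit 0, [nat_lit 780000, nat_lit 1435000, nat_lit 1271250], [nat_lit 8, nat_lit 40, nat_lit 80, nat_lit 80, nat_lit 1, nat_lit 226, nat_lit 20, nat_lit 7]⟩, C1.Rw.none,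
 ⟨nat_lit 5000, nat_lit 5478, ⟨.ofNat (nat_lit 155307), .ofNat (nat_lit 275199), .ofNat (nat_lit 176664), .ofNat (nat_lit 296556), .ofNat (nat_lit 171427), .ofNat (nat_lit 285713), .ofNat (nat_lit 192856), .ofNat (nat_lit 307141)⟩, ⟨.ofNat (nat_lit 0), .ofNat (nat_lit 0), .ofNat (nat_lit 0), .ofNat (nat_lit 0), .ofNat (nat_lit 0), .ofNat (nat_lit 0), .ofNat (nat_lit 0), .ofNat (nat_lit 0)⟩⟩, [⟨nat_lit 0, nat_lit 100, nat_lit 87, nat_lit 59, nat_lit 113199428⟩]⟩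
noncomputable def p014_l64 : Lf2 := ⟨nat_lit 0, nat_lit 10, [nat_lit 0, nat_lit 5, nat_lit 5, nat_lit 20], false, nat_lit 0, nat_lit 0, nat_lit 0, nat_lit 0, ⟨nat_lit 36, nat_lit 0, nat_lit 964, nat_lit 5, nat_lit 105, nat_lit 0, nat_lit 0, nat_lit 0, nat_lit 0, nat_lit 215, nat_lit 101400, nat_lit 293, nat_lit 62717208, nat_lit 0, nat_lit 0, nat_lit 1188124, false, false⟩,
 nat_lit 0, nat_lit 5550, nat_lit 0, nat_lit 0, nat_lit 3531, nat_lit 370, nat_lit 0, nat_lit 0, nat_lit 0, nat_lit 182, nat_lit 0, nat_lit 0, nat_lit 0, nat_lit 0, nat_lit 142, nat_lit 716200, nat_lit 0, nat_lit 0, [(nat_lit 12, [(nat_lit 5, nat_lit 413), (nat_lit 6, nat_lit 551)])],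
 ⟨p014_k0, nat_lit 0, nat_lit 0, nat_lit 568, nat_lit 0, nat_lit 575852, [nat_lit 2963403601, nat_lit 2222875067, nat_lit 343725200], [], [nat_lit 16330389406, nat_lit 17264496311, nat_lit 16570310607, nat_lit 16811006513], nat_lit 1271250, nat_lit 1271250, nat_lit 134400, nat_lit 490000, nat_lit 0, nat_lit 0, [nat_lit 780000, nat_lit 1435000, nat_lit 1271250], [nat_lit 8, nat_lit 40, nat_lit 80, nat_lit 80, nat_lit 1, nat_lit 226, nat_lit 20, nat_lit 7]⟩, ⟨p014_k19, nat_lit 0, nat_lit 0, nat_lit 0, nat_lit 0, nat_lit 0, [nat_lit 225000000, nat_lit 354312000, nat_lit 427392000], [], [nat_lit 822254675, nat_lit 858082166, nat_lit 643950108, nat_lit 678350488], nat_lit 0, nat_lit 0, nat_lit 0, nat_lit 0, nat_lit 0, nat_lit 0, [], [nat_lit 46, nat_lit 40, nat_lit 80, nat_lit 80]⟩,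
 ⟨nat_lit 5000, nat_lit 5478, ⟨.ofNat (nat_lit 191650), .ofNat (nat_lit 296556), .ofNat (nat_lit 213007), .ofNat (nat_lit 317913), .ofNat (nat_lit 207141), .ofNat (nat_lit 307141), .ofNat (nat_lit 228570), .ofNat (nat_lit 328570)⟩, ⟨.ofNat (nat_lit 0), .ofNat (nat_lit 0), .ofNat (nat_lit 0), .ofNat (nat_lit 0), .ofNat (nat_lit 0), .ofNat (nat_lit 0), .ofNat (nat_lit 0), .ofNat (nat_lit 0)⟩⟩, [⟨nat_lit 0, nat_lit 100, nat_lit 90, nat_lit 59, nat_lit 12582062⟩, ⟨nat_lit 0, nat_lit 100, nat_lit 88, nat_lit 68, nat_lit 121336760⟩]⟩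
noncomputable def p014_l65 : Lf2 := ⟨nat_lit 0, nat_lit 10, [nat_lit 0, nat_lit 5, nat_lit 5, nat_lit 20], false, nat_lit 0, nat_lit 0, nat_lit 0, nat_lit 0, ⟨nat_lit 241, nat_lit 0, nat_lit 759, nat_lit 5, nat_lit 145, nat_lit 0, nat_lit 0, nat_lit 0, nat_lit 0, nat_lit 215, nat_lit 198017, nat_lit 324, nat_lit 59215309, nat_lit 0, nat_lit 0, nat_lit 1796314, false, false⟩,
 nat_lit 0, nat_lit 7918, nat_lit 0, nat_lit 0, nat_lit 5038, nat_lit 3912, nat_lit 303, nat_lit 0, nat_lit 0, nat_lit 1420, nat_lit 0, nat_lit 0, nat_lit 0, nat_lit 0, nat_lit 76, nat_lit 759000, nat_lit 0, nat_lit 0, [(nat_lit 12, [(nat_lit 6, nat_lit 759)])],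
 ⟨p014_k0, nat_lit 0, nat_lit 0, nat_lit 631, nat_lit 0, nat_lit 861214, [nat_lit 2569132801, nat_lit 2170401600, nat_lit 406786800], [], [nat_lit 15220786066, nat_lit 15591061282, nat_lit 19951264076, nat_lit 18795617408], nat_lit 1271250, nat_lit 1271250, nat_lit 490000, nat_lit 1100001, nat_lit 0, nat_lit 0, [nat_lit 780000, nat_lit 1435000, nat_lit 1271250], [nat_lit 8, nat_lit 40, nat_lit 80, nat_lit 80, nat_lit 1, nat_lit 249, nat_lit 40, nat_lit 7]⟩, ⟨p014_k24, nat_lit 0, nat_lit 0, nat_lit 0, nat_lit 0, nat_lit 0, [nat_lit 1506250000, nat_lit 1920288000, nat_lit 2371922000, nat_lit 2861152000], [], [nat_lit 2906756708, nat_lit 3356912186, nat_lit 2454191172, nat_lit 2946268858], nat_lit 0, nat_lit 0, nat_lit 0, nat_lit 0, nat_lit 0, nat_lit 0, [], [nat_lit 255, nat_lit 40, nat_lit 80, nat_lit 80]⟩,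
 ⟨nat_lit 5244, nat_lit 5478, ⟨.ofNat (nat_lit 275199), .ofNat (nat_lit 425065), .ofNat (nat_lit 296556), .ofNat (nat_lit 446423), .ofNat (nat_lit 280485), .ofNat (nat_lit 426827), .ofNat (nat_lit 301871), .ofNat (nat_lit 448213)⟩, ⟨.ofNat (nat_lit 0), .ofNat (nat_lit 0), .ofNat (nat_lit 0), .ofNat (nat_lit 0), .ofNat (nat_lit 0), .ofNat (nat_lit 0), .ofNat (nat_lit 0), .ofNat (nat_lit 0)⟩⟩, []⟩
noncomputable def p014_l66 : Lf2 := ⟨nat_lit 0, nat_lit 5, [nat_lit 4, nat_lit 5, nat_lit 5, nat_lit 20], false, nat_lit 0, nat_lit 0, nat_lit 0, nat_lit 0, ⟨nat_lit 275, nat_lit 0, nat_lit 725, nat_lit 5, nat_lit 151, nat_lit 0, nat_lit 0, nat_lit 0, nat_lit 0, nat_lit 215, nat_lit 147267, nat_lit 309, nat_lit 58600016, nat_lit 0, nat_lit 0, nat_lit 1887473, false, false⟩,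
 nat_lit 0, nat_lit 8159, nat_lit 0, nat_lit 0, nat_lit 5192, nat_lit 3381, nat_lit 0, nat_lit 0, nat_lit 0, nat_lit 2269, nat_lit 0, nat_lit 0, nat_lit 0, nat_lit 0, nat_lit 27, nat_lit 725000, nat_lit 0, nat_lit 0, [(nat_lit 12, [(nat_lit 6, nat_lit 725)])],
 ⟨p014_k25, nat_lit 0, nat_lit 0, nat_lit 566, nat_lit 0, nat_lit 886317, [nat_lit 2053920001, nat_lit 1441240001, nat_lit 20690000], [], [nat_lit 15725305382, nat_lit 16100772820, nat_lit 20092426853, nat_lit 18901454741], nat_lit 1271250, nat_lit 1271250, nat_lit 490000, nat_lit 1100001, nat_lit 0, nat_lit 0, [nat_lit 780000, nat_lit 1435000, nat_lit 1271250], [nat_lit 18, nat_lit 40, nat_lit 80, nat_lit 80, nat_lit 2, nat_lit 249, nat_lit 40, nat_lit 8]⟩, ⟨p014_k26, nat_lit 0, nat_lit 0, nat_lit 0, nat_lit 0, nat_lit 0, [nat_lit 1718750000, nat_lit 2706550000], [], [nat_lit 2971968958, nat_lit 3244279322, nat_lit 3044232222, nat_lit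 3277174821], nat_lit 0, nat_lit 0, nat_lit 0, nat_lit 0, nat_lit 0, nat_lit 0, [], [nat_lit 51, nat_lit 40, nat_lit 80, nat_lit 80]⟩,
 ⟨nat_lit 5244, nat_lit 5478, ⟨.ofNat (nat_lit 296556), .ofNat (nat_lit 446423), .ofNat (nat_lit 307235), .ofNat (nat_lit 457101), .ofNat (nat_lit 301871), .ofNat (nat_lit 448213), .ofNat (nat_lit 312563), .ofNat (nat_lit 458906)⟩, ⟨.ofNat (nat_lit 0), .ofNat (nat_lit 0), .ofNat (nat_lit 0), .ofNat (nat_lit 0), .ofNat (nat_lit 0), .ofNat (nat_lit 0), .ofNat (nat_lit 0), .ofNat (nat_lit 0)⟩⟩, []⟩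
noncomputable def p014_l67 : Lf2 := ⟨nat_lit 0, nat_lit 10, [nat_lit 0, nat_lit 5, nat_lit 5, nat_lit 20], false, nat_lit 0, nat_lit 0, nat_lit 0, nat_lit 0, ⟨nat_lit 392, nat_lit 0, nat_lit 608, nat_lit 5, nat_lit 151, nat_lit 0, nat_lit 0, nat_lit 0, nat_lit 0, nat_lit 215, nat_lit 147267, nat_lit 309, nat_lit 58600016, nat_lit 0, nat_lit 0, nat_lit 1887473, false, false⟩,
 nat_lit 0, nat_lit 8549, nat_lit 0, nat_lit 0, nat_lit 5440, nat_lit 4221, nat_lit 318, nat_lit 0, nat_lit 0, nat_lit 869, nat_lit 0, nat_lit 0, nat_lit 0, nat_lit 0, nat_lit 0, nat_lit 608000, nat_lit 0, nat_lit 0, [(nat_lit 12, [(nat_lit 6, nat_lit 608)])],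
 ⟨p014_k0, nat_lit 0, nat_lit 0, nat_lit 503, nat_lit 0, nat_lit 606527, [nat_lit 1980393601, nat_lit 1764419200, nat_lit 579241600], [], [nat_lit 17469285602, nat_lit 17962858630, nat_lit 20953782722, nat_lit 19689249282], nat_lit 1271250, nat_lit 1271250, nat_lit 490000, nat_lit 1100001, nat_lit 0, nat_lit 0, [nat_lit 780000, nat_lit 1435000, nat_lit 1271250], [nat_lit 8, nat_lit 40, nat_lit 80, nat_lit 80, nat_lit 1, nat_lit 249, nat_lit 40, nat_lit 7]⟩, ⟨p014_k19, nat_lit 0, nat_lit 0, nat_lit 0, nat_lit 0, nat_lit 0, [nat_lit 2450000000, nat_lit 3858064000, nat_lit 4653824000], [], [nat_lit 8103505566, nat_lit 8368043301, nat_lit 7901650892, nat_lit 8146257121], nat_lit 0, nat_lit 0, nat_lit 0, nat_lit 0, nat_lit 0, nat_lit 0, [], [nat_lit 46, nat_lit 40, nat_lit 80, nat_lit 80]⟩,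
 ⟨nat_lit 5244, nat_lit 5478, ⟨.ofNat (nat_lit 296556), .ofNat (nat_lit 446423), .ofNat (nat_lit 307235), .ofNat (nat_lit 457101), .ofNat (nat_lit 301871), .ofNat (nat_lit 448213), .ofNat (nat_lit 312563), .ofNat (nat_lit 458906)⟩, ⟨.ofNat (nat_lit 0), .ofNat (nat_lit 0), .ofNat (nat_lit 0), .ofNat (nat_lit 0), .ofNat (nat_lit 0), .ofNat (nat_lit 0), .ofNat (nat_lit 0), .ofNat (nat_lit 0)⟩⟩, []⟩
noncomputable def p014_l68 : Lf2 := ⟨nat_lit 0, nat_lit 2, [nat_lit 10, nat_lit 5, nat_lit 5, nat_lit 20], false, nat_lit 0, nat_lit 0, nat_lit 0, nat_lit 0, ⟨nat_lit 1000, nat_lit 0, nat_lit 0, nat_lit 0, nat_lit 0, nat_lit 0, nat_lit 0, nat_lit 0, nat_lit 0, nat_lit 0, nat_lit 0, nat_lit 0, nat_lit 0, nat_lit 0, nat_lit 0, nat_lit 0, false, false⟩,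
 nat_lit 0, nat_lit 17324, nat_lit 0, nat_lit 0, nat_lit 11024, nat_lit 10845, nat_lit 0, nat_lit 0, nat_lit 0, nat_lit 0, nat_lit 0, nat_lit 0, nat_lit 0, nat_lit 0, nat_lit 0, nat_lit 0, nat_lit 0, nat_lit 0, [],
 ⟨p014_k27, nat_lit 0, nat_lit 0, nat_lit 478, nat_lit 0, nat_lit 887631, [nat_lit 3282000000, nat_lit 6250000000], [], [nat_lit 21266338624, nat_lit 21526245200, nat_lit 20394393152, nat_lit 20400299136], nat_lit 1271250, nat_lit 1271250, nat_lit 490000, nat_lit 1100001, nat_lit 0, nat_lit 0, [nat_lit 780000, nat_lit 1435000], [nat_lit 49, nat_lit 40, nat_lit 80, nat_lit 80, nat_lit 16, nat_lit 249, nat_lit 40, nat_lit 10]⟩, ⟨p014_k28, nat_lit 0, nat_lit 0, nat_lit 0, nat_lit 0, nat_lit 0, [nat_lit 6250000000, nat_lit 7968000000], [], [nat_lit 11510171575, nat_lit 12711228840, nat_lit 12121756580, nat_lit 13177581540], nat_lit 0, nat_lit 0, nat_lit 0, nat_lit 0, nat_lit 0, nat_lit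 0, [], [nat_lit 26, nat_lit 40, nat_lit 80, nat_lit 80]⟩,
 zbF0, []⟩
noncomputable def p014_l69 : Lf2 := ⟨nat_lit 0, nat_lit 2, [nat_lit 10, nat_lit 5, nat_lit 5, nat_lit 20], false, nat_lit 0, nat_lit 0, nat_lit 0, nat_lit 0, ⟨nat_lit 1000, nat_lit 0, nat_lit 0, nat_lit 0, nat_lit 0, nat_lit 0, nat_lit 0, nat_lit 0, nat_lit 0, nat_lit 0, nat_lit 0, nat_lit 0, nat_lit 0, nat_lit 0, nat_lit 0, nat_lit 0, false, false⟩,
 nat_lit 0, nat_lit 3823, nat_lit 0, nat_lit 0, nat_lit 2485, nat_lit 10845, nat_lit 0, nat_lit 0, nat_lit 0, nat_lit 0, nat_lit 0, nat_lit 0, nat_lit 0, nat_lit 0, nat_lit 0, nat_lit 0, nat_lit 0, nat_lit 0, [],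
 ⟨p014_k29, nat_lit 0, nat_lit 0, nat_lit 501, nat_lit 0, nat_lit 903852, [nat_lit 3282000000, nat_lit 6250000000], [], [nat_lit 42970014963, nat_lit 43154653405, nat_lit 44052084730, nat_lit 44221074580], nat_lit 1271250, nat_lit 1271250, nat_lit 490000, nat_lit 1100001, nat_lit 0, nat_lit 0, [nat_lit 780000, nat_lit 1435000], [nat_lit 49, nat_lit 40, nat_lit 80, nat_lit 80, nat_lit 16, nat_lit 249, nat_lit 40, nat_lit 10]⟩, ⟨p014_k28, nat_lit 0, nat_lit 0, nat_lit 0, nat_lit 0, nat_lit 0, [nat_lit 6250000000, nat_lit 7968000000], [], [nat_lit 11510171575, nat_lit 12711228840, nat_lit 12121756580, nat_lit 13177581540], nat_lit 0, nat_lit 0, nat_lit 0, nat_lit 0, nat_lit 0, nat_lit 0, [], [nat_lit 26, nat_lit 40, nat_lit 80, nat_lit 80]⟩,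
 zbF0, []⟩
noncomputable def p014_l70 : Lf2 := ⟨nat_lit 0, nat_lit 5, [nat_lit 4, nat_lit 5, nat_lit 5, nat_lit 20], false, nat_lit 0, nat_lit 0, nat_lit 0, nat_lit 0, ⟨nat_lit 441, nat_lit 0, nat_lit 559, nat_lit 5, nat_lit 156, nat_lit 0, nat_lit 0, nat_lit 0, nat_lit 0, nat_lit 215, nat_lit 99974, nat_lit 292, nat_lit 58182469, nat_lit 0, nat_lit 0, nat_lit 1947129, false, false⟩,
 nat_lit 0, nat_lit 8748, nat_lit 0, nat_lit 0, nat_lit 5566, nat_lit 5265, nat_lit 90, nat_lit 0, nat_lit 0, nat_lit 2318, nat_lit 0, nat_lit 0, nat_lit 0, nat_lit 0, nat_lit 0, nat_lit 559000, nat_lit 0, nat_lit 0, [(nat_lit 12, [(nat_lit 6, nat_lit 559)])],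
 ⟨p014_k25, nat_lit 0, nat_lit 0, nat_lit 537, nat_lit 0, nat_lit 815195, [nat_lit 2085292801, nat_lit 2125921600, nat_lit 1340719600], [], [nat_lit 19536719313, nat_lit 19972022724, nat_lit 21765168908, nat_lit 20488406432], nat_lit 1271250, nat_lit 1271250, nat_lit 490000, nat_lit 1100001, nat_lit 0, nat_lit 0, [nat_lit 780000, nat_lit 1435000, nat_lit 1271250], [nat_lit 18, nat_lit 40, nat_lit 80, nat_lit 80, nat_lit 2, nat_lit 249, nat_lit 40, nat_lit 8]⟩, ⟨p014_k30, nat_lit 0, nat_lit 0, nat_lit 0, nat_lit 0, nat_lit 0, [nat_lit 2756250000, nat_lit 4340322000], [], [nat_lit 5421013109, nat_lit 5844230460, nat_lit 5502020661, nat_lit 5868652284], nat_lit 0, nat_lit 0, nat_lit 0, nat_lit 0, nat_lit 0, nat_lit 0, [], [nat_lit 51, nat_lit 40, nat_lit 80, nat_lit 80]⟩,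
 ⟨nat_lit 5244, nat_lit 5478, ⟨.ofNat (nat_lit 307235), .ofNat (nat_lit 457101), .ofNat (nat_lit 317913), .ofNat (nat_lit 467779), .ofNat (nat_lit 312563), .ofNat (nat_lit 458906), .ofNat (nat_lit 323256), .ofNat (nat_lit 469597)⟩, ⟨.ofNat (nat_lit 0), .ofNat (nat_lit 0), .ofNat (nat_lit 0), .ofNat (nat_lit 0), .ofNat (nat_lit 0), .ofNat (nat_lit 0), .ofNat (nat_lit 0), .ofNat (nat_lit 0)⟩⟩, []⟩
noncomputable def p014_l71 : Lf2 := ⟨nat_lit 0, nat_lit 10, [nat_lit 0, nat_lit 5, nat_lit 5, nat_lit 20], false, nat_lit 0, nat_lit 0, nat_lit 0, nat_lit 0, ⟨nat_lit 690, nat_lit 0, nat_lit 310, nat_lit 5, nat_lit 155, nat_lit 0, nat_lit 0, nat_lit 0, nat_lit 0, nat_lit 215, nat_lit 102006, nat_lit 293, nat_lit 58217544, nat_lit 0, nat_lit 0, nat_lit 1942184, false, false⟩,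
 nat_lit 0, nat_lit 9978, nat_lit 0, nat_lit 0, nat_lit 6349, nat_lit 7279, nat_lit 722, nat_lit 0, nat_lit 0, nat_lit 1525, nat_lit 0, nat_lit 0, nat_lit 0, nat_lit 0, nat_lit 0, nat_lit 310000, nat_lit 0, nat_lit 0, [(nat_lit 12, [(nat_lit 6, nat_lit 310)])],
 ⟨p014_k0, nat_lit 0, nat_lit 0, nat_lit 509, nat_lit 0, nat_lit 624496, [nat_lit 2618352001, nat_lit 3962944001, nat_lit 5119212000], [], [nat_lit 22236105485, nat_lit 22502100556, nat_lit 24651535756, nat_lit 23913620057], nat_lit 1271250, nat_lit 1271250, nat_lit 490000, nat_lit 1100001, nat_lit 0, nat_lit 0, [nat_lit 780000, nat_lit 1435000, nat_lit 1271250], [nat_lit 8, nat_lit 40, nat_lit 80, nat_lit 80, nat_lit 1, nat_lit 249, nat_lit 40, nat_lit 7]⟩, ⟨p014_k21, nat_lit 0, nat_lit 0, nat_lit 0, nat_lit 0, nat_lit 0, [nat_lit 4312500000, nat_lit 6790980000, nat_lit 8191680000], [], [nat_lit 13655170773, nat_lit 14115499394, nat_lit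 13269004866, nat_lit 13685273974], nat_lit 0, nat_lit 0, nat_lit 0, nat_lit 0, nat_lit 0, nat_lit 0, [], [nat_lit 46, nat_lit 40, nat_lit 80, nat_lit 80]⟩,
 ⟨nat_lit 5361, nat_lit 5478, ⟨.ofNat (nat_lit 307235), .ofNat (nat_lit 457101), .ofNat (nat_lit 317913), .ofNat (nat_lit 467779), .ofNat (nat_lit 309905), .ofNat (nat_lit 458003), .ofNat (nat_lit 320589), .ofNat (nat_lit 468688)⟩, ⟨.ofNat (nat_lit 0), .ofNat (nat_lit 0), .ofNat (nat_lit 0), .ofNat (nat_lit 0), .ofNat (nat_lit 0), .ofNat (nat_lit 0), .ofNat (nat_lit 0), .ofNat (nat_lit 0)⟩⟩, []⟩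
noncomputable def p014_l72 : Lf2 := ⟨nat_lit 0, nat_lit 10, [nat_lit 0, nat_lit 5, nat_lit 5, nat_lit 20], false, nat_lit 0, nat_lit 0, nat_lit 0, nat_lit 0, ⟨nat_lit 266, nat_lit 0, nat_lit 734, nat_lit 5, nat_lit 156, nat_lit 0, nat_lit 0, nat_lit 0, nat_lit 0, nat_lit 215, nat_lit 99977, nat_lit 292, nat_lit 58147257, nat_lit 0, nat_lit 0, nat_lit 1952081, false, false⟩,
 nat_lit 0, nat_lit 7769, nat_lit 0, nat_lit 0, nat_lit 5051, nat_lit 2811, nat_lit 342, nat_lit 0, nat_lit 0, nat_lit 937, nat_lit 0, nat_lit 0, nat_lit 0, nat_lit 0, nat_lit 62, nat_lit 734000, nat_lit 0, nat_lit 0, [(nat_lit 12, [(nat_lit 6, nat_lit 734)])],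
 ⟨p014_k22, nat_lit 0, nat_lit 0, nat_lit 519, nat_lit 0, nat_lit 650705, [nat_lit 2454652801, nat_lit 2074841601, nat_lit 395656800], [], [nat_lit 15368045919, nat_lit 15590381884, nat_lit 18490606752, nat_lit 17903551751], nat_lit 1271250, nat_lit 1271250, nat_lit 490000, nat_lit 1100001, nat_lit 0, nat_lit 0, [nat_lit 780000, nat_lit 1435000, nat_lit 1271250], [nat_lit 8, nat_lit 40, nat_lit 80, nat_lit 80, nat_lit 1, nat_lit 249, nat_lit 40, nat_lit 7]⟩, ⟨p014_k21, nat_lit 0, nat_lit 0, nat_lit 0, nat_lit 0, nat_lit 0, [nat_lit 1662500000, nat_lit 2617972000, nat_lit 3157952000], [], [nat_lit 4423707449, nat_lit 4605339462, nat_lit 4273734314, nat_lit 4439212558], nat_lit 0, nat_lit 0, nat_lit 0, nat_lit 0, nat_lit 0, nat_lit 0, [], [nat_lit 46, nat_lit 40, nat_lit 80, nat_lit 80]⟩,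
 ⟨nat_lit 5244, nat_lit 5362, ⟨.ofNat (nat_lit 309905), .ofNat (nat_lit 458003), .ofNat (nat_lit 320589), .ofNat (nat_lit 468688), .ofNat (nat_lit 312563), .ofNat (nat_lit 458905), .ofNat (nat_lit 323256), .ofNat (nat_lit 469598)⟩, ⟨.ofNat (nat_lit 0), .ofNat (nat_lit 0), .ofNat (nat_lit 0), .ofNat (nat_lit 0), .ofNat (nat_lit 0), .ofNat (nat_lit 0), .ofNat (nat_lit 0), .ofNat (nat_lit 0)⟩⟩, []⟩
noncomputable def p014_l73 : Lf2 := ⟨nat_lit 0, nat_lit 10, [nat_lit 0, nat_lit 5, nat_lit 5, nat_lit 20], false, nat_lit 0, nat_lit 0, nat_lit 0, nat_lit 0, ⟨nat_lit 441, nat_lit 0, nat_lit 559, nat_lit 5, nat_lit 146, nat_lit 0, nat_lit 0, nat_lit 0, nat_lit 0, nat_lit 215, nat_lit 201667, nat_lit 325, nat_lit 59114642, nat_lit 0, nat_lit 0, nat_lit 1811502, false, false⟩,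
 nat_lit 0, nat_lit 8269, nat_lit 0, nat_lit 0, nat_lit 5491, nat_lit 4847, nat_lit 1028, nat_lit 0, nat_lit 0, nat_lit 931, nat_lit 0, nat_lit 0, nat_lit 0, nat_lit 0, nat_lit 0, nat_lit 559000, nat_lit 0, nat_lit 0, [(nat_lit 12, [(nat_lit 6, nat_lit 559)])],
 ⟨p014_k23, nat_lit 0, nat_lit 0, nat_lit 555, nat_lit 0, nat_lit 858375, [nat_lit 2085292801, nat_lit 2125921600, nat_lit 1340719600], [], [nat_lit 16585214462, nat_lit 16776361568, nat_lit 19730642082, nat_lit 19100862819], nat_lit 1271250, nat_lit 1271250, nat_lit 490000, nat_lit 1100001, nat_lit 0, nat_lit 0, [nat_lit 780000, nat_lit 1435000, nat_lit 1271250], [nat_lit 18, nat_lit 40, nat_lit 80, nat_lit 80, nat_lit 2, nat_lit 249, nat_lit 40, nat_lit 8]⟩, ⟨p014_k31, nat_lit 0, nat_lit 0, nat_lit 0, nat_lit 0, nat_lit 0, [nat_lit 2756250000, nat_lit 4340322000, nat_lit 5235552000], [], [nat_lit 9966344848, nat_lit 10568484090,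 nat_lit 9802164808, nat_lit 10344330888], nat_lit 0, nat_lit 0, nat_lit 0, nat_lit 0, nat_lit 0, nat_lit 0, [], [nat_lit 46, nat_lit 40, nat_lit 80, nat_lit 80]⟩,
 ⟨nat_lit 5123, nat_lit 5245, ⟨.ofNat (nat_lit 280485), .ofNat (nat_lit 426827), .ofNat (nat_lit 301871), .ofNat (nat_lit 448213), .ofNat (nat_lit 283105), .ofNat (nat_lit 427701), .ofNat (nat_lit 304510), .ofNat (nat_lit 449106)⟩, ⟨.ofNat (nat_lit 0), .ofNat (nat_lit 0), .ofNat (nat_lit 0), .ofNat (nat_lit 0), .ofNat (nat_lit 0), .ofNat (nat_lit 0), .ofNat (nat_lit 0), .ofNat (nat_lit 0)⟩⟩, []⟩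
noncomputable def p014_l74 : Lf2 := ⟨nat_lit 0, nat_lit 10, [nat_lit 0, nat_lit 5, nat_lit 5, nat_lit 20], false, nat_lit 0, nat_lit 0, nat_lit 0, nat_lit 0, ⟨nat_lit 505, nat_lit 0, nat_lit 495, nat_lit 5, nat_lit 153, nat_lit 0, nat_lit 0, nat_lit 0, nat_lit 0, nat_lit 215, nat_lit 141067, nat_lit 307, nat_lit 58496403, nat_lit 0, nat_lit 0, nat_lit 1902439, false, false⟩,
 nat_lit 0, nat_lit 8779, nat_lit 0, nat_lit 0, nat_lit 5830, nat_lit 5435, nat_lit 1114, nat_lit 0, nat_lit 0, nat_lit 1119, nat_lit 0, nat_lit 0, nat_lit 0, nat_lit 0, nat_lit 0, nat_lit 495000, nat_lit 0, nat_lit 0, [(nat_lit 12, [(nat_lit 6, nat_lit 495)])],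
 ⟨p014_k23, nat_lit 0, nat_lit 0, nat_lit 579, nat_lit 0, nat_lit 916129, [nat_lit 2222304001, nat_lit 2598088000, nat_lit 2099478000], [], [nat_lit 17023186601, nat_lit 17209522840, nat_lit 19709594644, nat_lit 19040934454], nat_lit 1271250, nat_lit 1271250, nat_lit 490000, nat_lit 1100001, nat_lit 0, nat_lit 0, [nat_lit 780000, nat_lit 1435000, nat_lit 1271250], [nat_lit 18, nat_lit 40, nat_lit 80, nat_lit 80, nat_lit 2, nat_lit 249, nat_lit 40, nat_lit 8]⟩, ⟨p014_k19, nat_lit 0, nat_lit 0, nat_lit 0, nat_lit 0, nat_lit 0, [nat_lit 3156250000, nat_lit 4970210000, nat_lit 5995360000], [], [nat_lit 10443074750, nat_lit 10783772055, nat_lit 10183636240, nat_lit 10495966480], nat_lit 0, nat_lit 0, nat_lit 0, nat_lit 0, nat_lit 0, nat_lit 0, [], [nat_lit 46, nat_lit 40, nat_lit 80, nat_lit 80]⟩,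
 ⟨nat_lit 5123, nat_lit 5245, ⟨.ofNat (nat_lit 301871), .ofNat (nat_lit 448213), .ofNat (nat_lit 312563), .ofNat (nat_lit 458905), .ofNat (nat_lit 304510), .ofNat (nat_lit 449106), .ofNat (nat_lit 315213), .ofNat (nat_lit 459808)⟩, ⟨.ofNat (nat_lit 0), .ofNat (nat_lit 0), .ofNat (nat_lit 0), .ofNat (nat_lit 0), .ofNat (nat_lit 0), .ofNat (nat_lit 0), .ofNat (nat_lit 0), .ofNat (nat_lit 0)⟩⟩, []⟩
noncomputable def p014_l75 : Lf2 := ⟨nat_lit 0, nat_lit 10, [nat_lit 0, nat_lit 5, nat_lit 5, nat_lit 20], false, nat_lit 0, nat_lit 0, nat_lit 0, nat_lit 0, ⟨nat_lit 499, nat_lit 0, nat_lit 501, nat_lit 5, nat_lit 157, nat_lit 0, nat_lit 0, nat_lit 0, nat_lit 0, nat_lit 215, nat_lit 93750, nat_lit 290, nat_lit 58076979, nat_lit 0, nat_lit 0, nat_lit 1961929, false, false⟩,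
 nat_lit 0, nat_lit 8848, nat_lit 0, nat_lit 0, nat_lit 5876, nat_lit 5269, nat_lit 1024, nat_lit 0, nat_lit 0, nat_lit 1284, nat_lit 0, nat_lit 0, nat_lit 0, nat_lit 0, nat_lit 0, nat_lit 501000, nat_lit 0, nat_lit 0, [(nat_lit 12, [(nat_lit 6, nat_lit 501)])],
 ⟨p014_k23, nat_lit 0, nat_lit 0, nat_lit 621, nat_lit 0, nat_lit 980370, [nat_lit 2209459201, nat_lit 2553822400, nat_lit 2028344400], [], [nat_lit 17053301824, nat_lit 17256723224, nat_lit 19568608812, nat_lit 18894672744], nat_lit 1271250, nat_lit 1271250, nat_lit 490000, nat_lit 1100001, nat_lit 0, nat_lit 0, [nat_lit 780000, nat_lit 1435000, nat_lit 1271250], [nat_lit 18, nat_lit 40, nat_lit 80, nat_lit 80, nat_lit 2, nat_lit 249, nat_lit 40, nat_lit 8]⟩, ⟨p014_k32, nat_lit 0, nat_lit 0, nat_lit 0, nat_lit 0, nat_lit 0, [nat_lit 3118750000, nat_lit 3976032000, nat_lit 4911158000, nat_lit 5924128000], [], [nat_lit 8891146141,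 nat_lit 9227434128, nat_lit 8610767806, nat_lit 8916831552], nat_lit 0, nat_lit 0, nat_lit 0, nat_lit 0, nat_lit 0, nat_lit 0, [], [nat_lit 255, nat_lit 40, nat_lit 80, nat_lit 80]⟩,
 ⟨nat_lit 5123, nat_lit 5245, ⟨.ofNat (nat_lit 312563), .ofNat (nat_lit 458905), .ofNat (nat_lit 323256), .ofNat (nat_lit 469598), .ofNat (nat_lit 315213), .ofNat (nat_lit 459808), .ofNat (nat_lit 325915), .ofNat (nat_lit 470510)⟩, ⟨.ofNat (nat_lit 0), .ofNat (nat_lit 0), .ofNat (nat_lit 0), .ofNat (nat_lit 0), .ofNat (nat_lit 0), .ofNat (nat_lit 0), .ofNat (nat_lit 0), .ofNat (nat_lit 0)⟩⟩, []⟩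
noncomputable def p014_l76 : Lf2 := ⟨nat_lit 0, nat_lit 10, [nat_lit 0, nat_lit 5, nat_lit 5, nat_lit 20], false, nat_lit 0, nat_lit 0, nat_lit 0, nat_lit 0, ⟨nat_lit 826, nat_lit 0, nat_lit 174, nat_lit 5, nat_lit 147, nat_lit 0, nat_lit 0, nat_lit 0, nat_lit 0, nat_lit 215, nat_lit 201667, nat_lit 325, nat_lit 59047761, nat_lit 0, nat_lit 0, nat_lit 1821533, false, false⟩,
 nat_lit 0, nat_lit 10027, nat_lit 0, nat_lit 0, nat_lit 6799, nat_lit 7896, nat_lit 1598, nat_lit 0, nat_lit 0, nat_lit 1326, nat_lit 0, nat_lit 0, nat_lit 0, nat_lit 0, nat_lit 0, nat_lit 69600, nat_lit 0, nat_lit 0, [(nat_lit 12, [(nat_lit 5, nat_lit 174)])],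
 ⟨p014_k33, nat_lit 0, nat_lit 0, nat_lit 565, nat_lit 0, nat_lit 879326, [nat_lit 2926831200, nat_lit 5069468001, nat_lit 6283053600], [], [nat_lit 18960397866, nat_lit 19200607665, nat_lit 20254121386, nat_lit 19474323679], nat_lit 1271250, nat_lit 1271250, nat_lit 490000, nat_lit 1100001, nat_lit 0, nat_lit 0, [nat_lit 780000, nat_lit 1435000, nat_lit 1271250], [nat_lit 18, nat_lit 40, nat_lit 80, nat_lit 80, nat_lit 2, nat_lit 249, nat_lit 40, nat_lit 8]⟩, ⟨p014_k31, nat_lit 0, nat_lit 0, nat_lit 0, nat_lit 0, nat_lit 0, [nat_lit 5162500000, nat_lit 8129492000, nat_lit 9806272000], [], [nat_lit 20135834504, nat_lit 20997883468, nat_lit 19884837392, nat_lit 20788702200], nat_lit 0, nat_lit 0, nat_lit 0, nat_lit 0, nat_lit 0, nat_lit 0, [], [nat_lit 46, nat_lit 40, nat_lit 80, nat_lit 80]⟩,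
 ⟨nat_lit 5000, nat_lit 5124, ⟨.ofNat (nat_lit 283105), .ofNat (nat_lit 427701), .ofNat (nat_lit 304510), .ofNat (nat_lit 449106), .ofNat (nat_lit 285713), .ofNat (nat_lit 428570), .ofNat (nat_lit 307141), .ofNat (nat_lit 449998)⟩, ⟨.ofNat (nat_lit 0), .ofNat (nat_lit 0), .ofNat (nat_lit 0), .ofNat (nat_lit 0), .ofNat (nat_lit 0), .ofNat (nat_lit 0), .ofNat (nat_lit 0), .ofNat (nat_lit 0)⟩⟩, []⟩
noncomputable def p014_l77 : Lf2 := ⟨nat_lit 0, nat_lit 10, [nat_lit 0, nat_lit 5, nat_lit 5, nat_lit 20], false, nat_lit 0, nat_lit 0, nat_lit 0, nat_lit 0, ⟨nat_lit 1000, nat_lit 0, nat_lit 0, nat_lit 0, nat_lit 0, nat_lit 0, nat_lit 0, nat_lit 0, nat_lit 0, nat_lit 0, nat_lit 0, nat_lit 0, nat_lit 0, nat_lit 0, nat_lit 0, nat_lit 0, false, false⟩,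
 nat_lit 0, nat_lit 11007, nat_lit 0, nat_lit 0, nat_lit 7464, nat_lit 10552, nat_lit 1937, nat_lit 0, nat_lit 0, nat_lit 2147, nat_lit 0, nat_lit 0, nat_lit 0, nat_lit 0, nat_lit 0, nat_lit 0, nat_lit 0, nat_lit 0, [],
 ⟨p014_k33, nat_lit 0, nat_lit 0, nat_lit 628, nat_lit 0, nat_lit 996610, [nat_lit 3282000000, nat_lit 6250000000, nat_lit 7968000000], [], [nat_lit 19857521199, nat_lit 20076875191, nat_lit 20413667685, nat_lit 19976416039], nat_lit 1271250, nat_lit 1271250, nat_lit 490000, nat_lit 1100001, nat_lit 0, nat_lit 0, [nat_lit 780000, nat_lit 1435000, nat_lit 1271250], [nat_lit 18, nat_lit 40, nat_lit 80, nat_lit 80, nat_lit 2, nat_lit 249, nat_lit 40, nat_lit 8]⟩, ⟨p014_k19, nat_lit 0, nat_lit 0, nat_lit 0, nat_lit 0, nat_lit 0, [nat_lit 6250000000, nat_lit 9842000000, nat_lit 11872000000], [], [nat_lit 21002363596, nat_lit 22336841372, nat_lit 20534521756, nat_lit 21715402172],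 nat_lit 0, nat_lit 0, nat_lit 0, nat_lit 0, nat_lit 0, nat_lit 0, [], [nat_lit 46, nat_lit 40, nat_lit 80, nat_lit 80]⟩,
 zbF0, []⟩
noncomputable def p014_l78 : Lf2 := ⟨nat_lit 0, nat_lit 10, [nat_lit 0, nat_lit 5, nat_lit 5, nat_lit 20], false, nat_lit 0, nat_lit 0, nat_lit 0, nat_lit 0, ⟨nat_lit 1000, nat_lit 0, nat_lit 0, nat_lit 0, nat_lit 0, nat_lit 0, nat_lit 0, nat_lit 0, nat_lit 0, nat_lit 0, nat_lit 0, nat_lit 0, nat_lit 0, nat_lit 0, nat_lit 0, nat_lit 0, false, false⟩,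
 nat_lit 0, nat_lit 15111, nat_lit 0, nat_lit 0, nat_lit 9616, nat_lit 28231, nat_lit 1098, nat_lit 0, nat_lit 0, nat_lit 3556, nat_lit 0, nat_lit 0, nat_lit 0, nat_lit 0, nat_lit 0, nat_lit 0, nat_lit 0, nat_lit 0, [],
 ⟨p014_k0, nat_lit 0, nat_lit 0, nat_lit 634, nat_lit 0, nat_lit 957327, [nat_lit 3282000000, nat_lit 6250000000, nat_lit 9842000000], [], [nat_lit 25363117440, nat_lit 26204699696, nat_lit 26162560384, nat_lit 26854300048], nat_lit 1271250, nat_lit 1271250, nat_lit 1100001, nat_lit 1785000, nat_lit 0, nat_lit 0, [nat_lit 780000, nat_lit 1435000, nat_lit 1271250], [nat_lit 8, nat_lit 40, nat_lit 80, nat_lit 80, nat_lit 1, nat_lit 272, nat_lit 60, nat_lit 8]⟩, ⟨p014_k31, nat_lit 0, nat_lit 0, nat_lit 0, nat_lit 0, nat_lit 0, [nat_lit 6250000000, nat_lit 9842000000, nat_lit 11872000000], [], [nat_lit 16424153000, nat_lit 18796505490, nat_lit 24058981452, nat_lit 27043162180],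 nat_lit 0, nat_lit 0, nat_lit 0, nat_lit 0, nat_lit 0, nat_lit 0, [], [nat_lit 46, nat_lit 40, nat_lit 80, nat_lit 80]⟩,
 zbF0, []⟩
noncomputable def p014_l79 : Lf2 := ⟨nat_lit 0, nat_lit 10, [nat_lit 0, nat_lit 5, nat_lit 5, nat_lit 20], false, nat_lit 0, nat_lit 0, nat_lit 0, nat_lit 0, ⟨nat_lit 1000, nat_lit 0, nat_lit 0, nat_lit 0, nat_lit 0, nat_lit 0, nat_lit 0, nat_lit 0, nat_lit 0, nat_lit 0, nat_lit 0, nat_lit 0, nat_lit 0, nat_lit 0, nat_lit 0, nat_lit 0, false, false⟩,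
 nat_lit 0, nat_lit 14420, nat_lit 0, nat_lit 0, nat_lit 9176, nat_lit 19105, nat_lit 808, nat_lit 0, nat_lit 0, nat_lit 3886, nat_lit 0, nat_lit 0, nat_lit 0, nat_lit 0, nat_lit 0, nat_lit 0, nat_lit 0, nat_lit 0, [],
 ⟨p014_k0, nat_lit 0, nat_lit 0, nat_lit 710, nat_lit 0, nat_lit 1085830, [nat_lit 3282000000, nat_lit 6250000000, nat_lit 9842000000], [], [nat_lit 27235299208, nat_lit 27898697056, nat_lit 27909525824, nat_lit 28589405728], nat_lit 1271250, nat_lit 1271250, nat_lit 1100001, nat_lit 1785000, nat_lit 0, nat_lit 0, [nat_lit 780000, nat_lit 1435000, nat_lit 1271250], [nat_lit 8, nat_lit 40, nat_lit 80, nat_lit 80, nat_lit 1, nat_lit 272, nat_lit 60, nat_lit 8]⟩, ⟨p014_k19, nat_lit 0, nat_lit 0, nat_lit 0, nat_lit 0, nat_lit 0, [nat_lit 6250000000, nat_lit 9842000000, nat_lit 11872000000], [], [nat_lit 15093446790, nat_lit 17384716780, nat_lit 22089751900, nat_lit 25349799920],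 nat_lit 0, nat_lit 0, nat_lit 0, nat_lit 0, nat_lit 0, nat_lit 0, [], [nat_lit 46, nat_lit 40, nat_lit 80, nat_lit 80]⟩,
 zbF0, []⟩
noncomputable def p014_l80 : Lf2 := ⟨nat_lit 0, nat_lit 10, [nat_lit 0, nat_lit 5, nat_lit 5, nat_lit 20], false, nat_lit 0, nat_lit 0, nat_lit 0, nat_lit 0, ⟨nat_lit 1000, nat_lit 0, nat_lit 0, nat_lit 0, nat_lit 0, nat_lit 0, nat_lit 0, nat_lit 0, nat_lit 0, nat_lit 0, nat_lit 0, nat_lit 0, nat_lit 0, nat_lit 0, nat_lit 0, nat_lit 0, false, false⟩,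
 nat_lit 0, nat_lit 10462, nat_lit 0, nat_lit 0, nat_lit 6657, nat_lit 7196, nat_lit 776, nat_lit 0, nat_lit 0, nat_lit 2386, nat_lit 0, nat_lit 0, nat_lit 0, nat_lit 0, nat_lit 0, nat_lit 0, nat_lit 0, nat_lit 0, [],
 ⟨p014_k0, nat_lit 0, nat_lit 0, nat_lit 580, nat_lit 0, nat_lit 861214, [nat_lit 3282000000, nat_lit 6250000000, nat_lit 9842000000], [], [nat_lit 35130380196, nat_lit 35386876525, nat_lit 40256038980, nat_lit 40505885690], nat_lit 1271250, nat_lit 1271250, nat_lit 1271250, nat_lit 1271250, nat_lit 0, nat_lit 0, [nat_lit 780000, nat_lit 1435000, nat_lit 1271250], [nat_lit 8, nat_lit 40, nat_lit 80, nat_lit 80, nat_lit 1, nat_lit 317, nat_lit 100, nat_lit 9]⟩, ⟨p014_k31, nat_lit 0, nat_lit 0, nat_lit 0, nat_lit 0, nat_lit 0, [nat_lit 6250000000, nat_lit 9842000000, nat_lit 11872000000], [], [nat_lit 30091734544, nat_lit 30865259568, nat_lit 40162113279, nat_lit 40504681807],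 nat_lit 0, nat_lit 0, nat_lit 0, nat_lit 0, nat_lit 0, nat_lit 0, [], [nat_lit 46, nat_lit 40, nat_lit 80, nat_lit 80]⟩,
 zbF0, []⟩
noncomputable def p014_l81 : Lf2 := ⟨nat_lit 0, nat_lit 10, [nat_lit 0, nat_lit 5, nat_lit 5, nat_lit 20], false, nat_lit 0, nat_lit 0, nat_lit 0, nat_lit 0, ⟨nat_lit 1000, nat_lit 0, nat_lit 0, nat_lit 0, nat_lit 0, nat_lit 0, nat_lit 0, nat_lit 0, nat_lit 0, nat_lit 0, nat_lit 0, nat_lit 0, nat_lit 0, nat_lit 0, nat_lit 0, nat_lit 0, false, false⟩,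
 nat_lit 0, nat_lit 8880, nat_lit 0, nat_lit 0, nat_lit 5897, nat_lit 8118, nat_lit 2594, nat_lit 0, nat_lit 0, nat_lit 0, nat_lit 0, nat_lit 0, nat_lit 0, nat_lit 0, nat_lit 0, nat_lit 0, nat_lit 0, nat_lit 0, [],
 ⟨p014_k34, nat_lit 0, nat_lit 0, nat_lit 524, nat_lit 0, nat_lit 904144, [nat_lit 3282000000, nat_lit 7968000000], [], [nat_lit 31413058285, nat_lit 31680419916, nat_lit 35176086427, nat_lit 35420337703], nat_lit 1271250, nat_lit 1271250, nat_lit 1271250, nat_lit 1271250, nat_lit 0, nat_lit 0, [nat_lit 780000, nat_lit 1762500], [nat_lit 74, nat_lit 40, nat_lit 80, nat_lit 80, nat_lit 43, nat_lit 217, nat_lit 0, nat_lit 7]⟩, ⟨p014_k16, nat_lit 0, nat_lit 0, nat_lit 0, nat_lit 0, nat_lit 0, [nat_lit 6250000000, nat_lit 11872000000], [], [nat_lit 34084444104, nat_lit 34750359720, nat_lit 44895723142, nat_lit 45243389891], nat_lit 0, nat_lit 0, nat_lit 0, nat_lit 0, nat_lit 0, nat_lit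 0, [], [nat_lit 107, nat_lit 40, nat_lit 80, nat_lit 80]⟩,
 zbF0, []⟩
noncomputable def p014_l82 : Lf2 := ⟨nat_lit 0, nat_lit 10, [nat_lit 0, nat_lit 5, nat_lit 5, nat_lit 20], false, nat_lit 0, nat_lit 0, nat_lit 0, nat_lit 0, ⟨nat_lit 1000, nat_lit 0, nat_lit 0, nat_lit 0, nat_lit 0, nat_lit 0, nat_lit 0, nat_lit 0, nat_lit 0, nat_lit 0, nat_lit 0, nat_lit 0, nat_lit 0, nat_lit 0, nat_lit 0, nat_lit 0, false, false⟩,
 nat_lit 0, nat_lit 11711, nat_lit 0, nat_lit 0, nat_lit 7452, nat_lit 7407, nat_lit 763, nat_lit 0, nat_lit 0, nat_lit 2973, nat_lit 0, nat_lit 0, nat_lit 0, nat_lit 0, nat_lit 0, nat_lit 0, nat_lit 0, nat_lit 0, [],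
 ⟨p014_k0, nat_lit 0, nat_lit 0, nat_lit 628, nat_lit 0, nat_lit 992279, [nat_lit 3282000000, nat_lit 6250000000, nat_lit 9842000000], [], [nat_lit 34811597799, nat_lit 35071159652, nat_lit 39511759794, nat_lit 39695930256], nat_lit 1271250, nat_lit 1271250, nat_lit 1271250, nat_lit 1271250, nat_lit 0, nat_lit 0, [nat_lit 780000, nat_lit 1435000, nat_lit 1271250], [nat_lit 8, nat_lit 40, nat_lit 80, nat_lit 80, nat_lit 1, nat_lit 317, nat_lit 100, nat_lit 9]⟩, ⟨p014_k19, nat_lit 0, nat_lit 0, nat_lit 0, nat_lit 0, nat_lit 0, [nat_lit 6250000000, nat_lit 9842000000, nat_lit 11872000000], [], [nat_lit 25905505756, nat_lit 26686298464, nat_lit 36353680939, nat_lit 36817342145], nat_lit 0, nat_lit 0, nat_lit 0, nat_lit 0, nat_lit 0, nat_lit 0, [], [nat_lit 46, nat_lit 40, nat_lit 80, nat_lit 80]⟩,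
 zbF0, []⟩
noncomputable def p014_l83 : Lf2 := ⟨nat_lit 0, nat_lit 10, [nat_lit 0, nat_lit 5, nat_lit 5, nat_lit 20], false, nat_lit 0, nat_lit 0, nat_lit 0, nat_lit 0, ⟨nat_lit 1000, nat_lit 0, nat_lit 0, nat_lit 0, nat_lit 0, nat_lit 0, nat_lit 0, nat_lit 0, nat_lit 0, nat_lit 0, nat_lit 0, nat_lit 0, nat_lit 0, nat_lit 0, nat_lit 0, nat_lit 0, false, false⟩,
 nat_lit 0, nat_lit 8763, nat_lit 0, nat_lit 0, nat_lit 5819, nat_lit 8294, nat_lit 2666, nat_lit 0, nat_lit 0, nat_lit 0, nat_lit 0, nat_lit 0, nat_lit 0, nat_lit 0, nat_lit 0, nat_lit 0, nat_lit 0, nat_lit 0, [],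
 ⟨p014_k34, nat_lit 0, nat_lit 0, nat_lit 581, nat_lit 0, nat_lit 1024989, [nat_lit 3282000000, nat_lit 7968000000], [], [nat_lit 32387786302, nat_lit 32622737210, nat_lit 35865151926, nat_lit 36012612927], nat_lit 1271250, nat_lit 1271250, nat_lit 1271250, nat_lit 1271250, nat_lit 0, nat_lit 0, [nat_lit 780000, nat_lit 1762500], [nat_lit 74, nat_lit 40, nat_lit 80, nat_lit 80, nat_lit 43, nat_lit 233, nat_lit 0, nat_lit 7]⟩, ⟨p014_k35, nat_lit 0, nat_lit 0, nat_lit 0, nat_lit 0, nat_lit 0, [nat_lit 6250000000, nat_lit 11872000000], [], [nat_lit 34587302760, nat_lit 35256722888, nat_lit 46137019193, nat_lit 46451231919], nat_lit 0, nat_lit 0, nat_lit 0, nat_lit 0, nat_lit 0, nat_lit 0, [], [nat_lit 107, nat_lit 40, nat_lit 80, nat_lit 80]⟩,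
 zbF0, []⟩
noncomputable def p014_l84 : Lf2 := ⟨nat_lit 0, nat_lit 10, [nat_lit 0, nat_lit 5, nat_lit 5, nat_lit 20], true, nat_lit 0, nat_lit 0, nat_lit 0, nat_lit 0, ⟨nat_lit 0, nat_lit 0, nat_lit 1000, nat_lit 5, nat_lit 105, nat_lit 0, nat_lit 0, nat_lit 0, nat_lit 0, nat_lit 215, nat_lit 104017, nat_lit 294, nat_lit 62647317, nat_lit 0, nat_lit 0, nat_lit 1202078, false, false⟩,
 nat_lit 0, nat_lit 4644, nat_lit 0, nat_lit 0, nat_lit 3214, nat_lit 0, nat_lit 0, nat_lit 0, nat_lit 0, nat_lit 0, nat_lit 0, nat_lit 0, nat_lit 0, nat_lit 0, nat_lit 165, nat_lit 738400, nat_lit 0, nat_lit 0, [(nat_lit 15, [(nat_lit 5, nat_lit 436), (nat_lit 6, nat_lit 564)])],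
 ⟨p014_k4, nat_lit 0, nat_lit 0, nat_lit 508, nat_lit 0, nat_lit 620659, [nat_lit 3106147200, nat_lit 1585377601, nat_lit 39227199], [], [nat_lit 17349140571, nat_lit 18536300309, nat_lit 17080041180, nat_lit 18212065696], nat_lit 1271250, nat_lit 1271250, nat_lit 134400, nat_lit 490000, nat_lit 0, nat_lit 0, [nat_lit 780000, nat_lit 1435000, nat_lit 1271250], [nat_lit 18, nat_lit 40, nat_lit 80, nat_lit 80, nat_lit 2, nat_lit 226, nat_lit 20, nat_lit 8]⟩, C1.Rw.none,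
 ⟨nat_lit 4472, nat_lit 5000, ⟨.ofNat (nat_lit 185713), .ofNat (nat_lit 285713), .ofNat (nat_lit 228562), .ofNat (nat_lit 328559), .ofNat (nat_lit 200895), .ofNat (nat_lit 296064), .ofNat (nat_lit 244020), .ofNat (nat_lit 339186)⟩, ⟨.ofNat (nat_lit 0), .ofNat (nat_lit 0), .ofNat (nat_lit 0), .ofNat (nat_lit 0), .ofNat (nat_lit 0), .ofNat (nat_lit 0), .ofNat (nat_lit 0), .ofNat (nat_lit 0)⟩⟩, [⟨nat_lit 0, nat_lit 100, nat_lit 82, nat_lit 76, nat_lit 133865085⟩]⟩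
noncomputable def p014_l85 : Lf2 := ⟨nat_lit 0, nat_lit 10, [nat_lit 0, nat_lit 5, nat_lit 5, nat_lit 20], false, nat_lit 0, nat_lit 0, nat_lit 0, nat_lit 0, ⟨nat_lit 727, nat_lit 0, nat_lit 273, nat_lit 5, nat_lit 134, nat_lit 0, nat_lit 0, nat_lit 0, nat_lit 0, nat_lit 215, nat_lit 166667, nat_lit 315, nat_lit 60264375, nat_lit 0, nat_lit 0, nat_lit 1631245, false, false⟩,
 nat_lit 0, nat_lit 8949, nat_lit 0, nat_lit 0, nat_lit 6195, nat_lit 7993, nat_lit 841, nat_lit 0, nat_lit 0, nat_lit 1535, nat_lit 0, nat_lit 0, nat_lit 0, nat_lit 0, nat_lit 0, nat_lit 273000, nat_lit 0, nat_lit 0, [(nat_lit 15, [(nat_lit 6, nat_lit 273)])],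
 ⟨p014_k4, nat_lit 0, nat_lit 0, nat_lit 607, nat_lit 0, nat_lit 944671, [nat_lit 2653554000, nat_lit 3917160401, nat_lit 4358175600], [], [nat_lit 19359818488, nat_lit 19819700878, nat_lit 19448690872, nat_lit 19885936827], nat_lit 1271250, nat_lit 1271250, nat_lit 490000, nat_lit 780000, nat_lit 0, nat_lit 0, [nat_lit 780000, nat_lit 1435000, nat_lit 1271250], [nat_lit 18, nat_lit 40, nat_lit 80, nat_lit 80, nat_lit 2, nat_lit 238, nat_lit 30, nat_lit 8]⟩, ⟨p014_k31, nat_lit 0, nat_lit 0, nat_lit 0, nat_lit 0, nat_lit 0, [nat_lit 4543750000, nat_lit 7155134000, nat_lit 8630944000], [], [nat_lit 16426961296, nat_lit 17421377536, nat_lit 16291369828, nat_lit 17236241061], nat_lit 0, nat_lit 0, nat_lit 0, nat_lit 0, nat_lit 0, nat_lit 0, [], [nat_lit 46, nat_lit 40, nat_lit 80, nat_lit 80]⟩,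
 ⟨nat_lit 4743, nat_lit 5000, ⟨.ofNat (nat_lit 285713), .ofNat (nat_lit 357141), .ofNat (nat_lit 307141), .ofNat (nat_lit 378570), .ofNat (nat_lit 290899), .ofNat (nat_lit 360599), .ofNat (nat_lit 312387), .ofNat (nat_lit 382087)⟩, ⟨.ofNat (nat_lit 0), .ofNat (nat_lit 0), .ofNat (nat_lit 0), .ofNat (nat_lit 0), .ofNat (nat_lit 0), .ofNat (nat_lit 0), .ofNat (nat_lit 0), .ofNat (nat_lit 0)⟩⟩, []⟩
noncomputable def p014_l86 : Lf2 := ⟨nat_lit 0, nat_lit 10, [nat_lit 0, nat_lit 5, nat_lit 5, nat_lit 20], false, nat_lit 0, nat_lit 0, nat_lit 0, nat_lit 0, ⟨nat_lit 905, nat_lit 0, nat_lit 95, nat_lit 5, nat_lit 142, nat_lit 0, nat_lit 0, nat_lit 0, nat_lit 0, nat_lit 215, nat_lit 190817, nat_lit 322, nat_lit 59472249, nat_lit 0, nat_lit 0, nat_lit 1757046, false, false⟩,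
 nat_lit 0, nat_lit 10187, nat_lit 0, nat_lit 0, nat_lit 7052, nat_lit 9553, nat_lit 1101, nat_lit 0, nat_lit 0, nat_lit 1944, nat_lit 0, nat_lit 0, nat_lit 0, nat_lit 0, nat_lit 0, nat_lit 95000, nat_lit 0, nat_lit 0, [(nat_lit 15, [(nat_lit 6, nat_lit 95)])],
 ⟨p014_k4, nat_lit 0, nat_lit 0, nat_lit 652, nat_lit 0, nat_lit 1056108, [nat_lit 3063310000, nat_lit 5438206001, nat_lit 6711834000], [], [nat_lit 20659379616, nat_lit 21096563888, nat_lit 20557062648, nat_lit 21047783852], nat_lit 1271250, nat_lit 1271250, nat_lit 490000, nat_lit 780000, nat_lit 0, nat_lit 0, [nat_lit 780000, nat_lit 1435000, nat_lit 1271250], [nat_lit 18, nat_lit 40, nat_lit 80, nat_lit 80, nat_lit 2, nat_lit 238, nat_lit 30, nat_lit 8]⟩, ⟨p014_k19, nat_lit 0, nat_lit 0, nat_lit 0, nat_lit 0, nat_lit 0, [nat_lit 5656250000, nat_lit 8907010000, nat_lit 10744160000], [], [nat_lit 19002112414, nat_lit 20212860112,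 nat_lit 18790038729, nat_lit 19931567840], nat_lit 0, nat_lit 0, nat_lit 0, nat_lit 0, nat_lit 0, nat_lit 0, [], [nat_lit 46, nat_lit 40, nat_lit 80, nat_lit 80]⟩,
 ⟨nat_lit 4743, nat_lit 5000, ⟨.ofNat (nat_lit 307141), .ofNat (nat_lit 378570), .ofNat (nat_lit 328569), .ofNat (nat_lit 399997), .ofNat (nat_lit 312387), .ofNat (nat_lit 382087), .ofNat (nat_lit 333875), .ofNat (nat_lit 403574)⟩, ⟨.ofNat (nat_lit 0), .ofNat (nat_lit 0), .ofNat (nat_lit 0), .ofNat (nat_lit 0), .ofNat (nat_lit 0), .ofNat (nat_lit 0), .ofNat (nat_lit 0), .ofNat (nat_lit 0)⟩⟩, []⟩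
noncomputable def p014_l87 : Lf2 := ⟨nat_lit 0, nat_lit 10, [nat_lit 0, nat_lit 5, nat_lit 5, nat_lit 20], false, nat_lit 0, nat_lit 0, nat_lit 0, nat_lit 0, ⟨nat_lit 1000, nat_lit 0, nat_lit 0, nat_lit 0, nat_lit 0, nat_lit 0, nat_lit 0, nat_lit 0, nat_lit 0, nat_lit 0, nat_lit 0, nat_lit 0, nat_lit 0, nat_lit 0, nat_lit 0, nat_lit 0, false, false⟩,
 nat_lit 0, nat_lit 9574, nat_lit 0, nat_lit 0, nat_lit 6902, nat_lit 5189, nat_lit 1004, nat_lit 0, nat_lit 0, nat_lit 1871, nat_lit 0, nat_lit 0, nat_lit 0, nat_lit 0, nat_lit 0, nat_lit 0, nat_lit 0, nat_lit 0, [],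
 ⟨p014_k5, nat_lit 0, nat_lit 0, nat_lit 665, nat_lit 0, nat_lit 1085577, [nat_lit 3282000000, nat_lit 6250000000, nat_lit 7968000000], [], [nat_lit 21936551836, nat_lit 22425829964, nat_lit 21983965440, nat_lit 22445586828], nat_lit 1271250, nat_lit 1271250, nat_lit 490000, nat_lit 780000, nat_lit 0, nat_lit 0, [nat_lit 780000, nat_lit 1435000, nat_lit 1271250], [nat_lit 18, nat_lit 40, nat_lit 80, nat_lit 80, nat_lit 2, nat_lit 238, nat_lit 30, nat_lit 8]⟩, ⟨p014_k36, nat_lit 0, nat_lit 0, nat_lit 0, nat_lit 0, nat_lit 0, [nat_lit 3282000000, nat_lit 6250000000, nat_lit 7968000000, nat_lit 11872000000], [], [nat_lit 22998151647, nat_lit 24907085511, nat_lit 23340215435, nat_lit 25148222013], nat_lit 0, nat_lit 0, nat_lit 0, nat_lit 0, nat_lit 0, nat_lit 0, [], [nat_lit 229, nat_lit 40, nat_lit 80, nat_lit 80]⟩,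
 zbF0, []⟩
noncomputable def p014_l88 : Lf2 := ⟨nat_lit 0, nat_lit 10, [nat_lit 0, nat_lit 5, nat_lit 5, nat_lit 20], false, nat_lit 0, nat_lit 0, nat_lit 0, nat_lit 0, ⟨nat_lit 1000, nat_lit 0, nat_lit 0, nat_lit 0, nat_lit 0, nat_lit 0, nat_lit 0, nat_lit 0, nat_lit 0, nat_lit 0, nat_lit 0, nat_lit 0, nat_lit 0, nat_lit 0, nat_lit 0, nat_lit 0, false, false⟩,
 nat_lit 0, nat_lit 9065, nat_lit 0, nat_lit 0, nat_lit 6275, nat_lit 9325, nat_lit 1628, nat_lit 0, nat_lit 0, nat_lit 1106, nat_lit 0, nat_lit 0, nat_lit 0, nat_lit 0, nat_lit 0, nat_lit 0, nat_lit 0, nat_lit 0, [],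
 ⟨p014_k4, nat_lit 0, nat_lit 0, nat_lit 636, nat_lit 0, nat_lit 1056108, [nat_lit 3282000000, nat_lit 6250000000, nat_lit 7968000000], [], [nat_lit 24561149750, nat_lit 24944632500, nat_lit 36807387836, nat_lit 37429598468], nat_lit 1271250, nat_lit 1271250, nat_lit 780000, nat_lit 3007000, nat_lit 0, nat_lit 0, [nat_lit 780000, nat_lit 1435000, nat_lit 1271250], [nat_lit 18, nat_lit 40, nat_lit 80, nat_lit 80, nat_lit 2, nat_lit 317, nat_lit 100, nat_lit 10]⟩, ⟨p014_k31, nat_lit 0, nat_lit 0, nat_lit 0, nat_lit 0, nat_lit 0, [nat_lit 6250000000, nat_lit 9842000000, nat_lit 11872000000], [], [nat_lit 26259350800, nat_lit 28183858450, nat_lit 42157520050, nat_lit 42950723790], nat_lit 0, nat_lit 0, nat_lit 0, nat_lit 0, nat_lit 0, nat_lit 0, [], [nat_lit 46, nat_lit 40, nat_lit 80, nat_lit 80]⟩,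
 zbF0, []⟩
noncomputable def p014_l89 : Lf2 := ⟨nat_lit 0, nat_lit 10, [nat_lit 0, nat_lit 5, nat_lit 5, nat_lit 20], false, nat_lit 0, nat_lit 0, nat_lit 0, nat_lit 0, ⟨nat_lit 1000, nat_lit 0, nat_lit 0, nat_lit 0, nat_lit 0, nat_lit 0, nat_lit 0, nat_lit 0, nat_lit 0, nat_lit 0, nat_lit 0, nat_lit 0, nat_lit 0, nat_lit 0, nat_lit 0, nat_lit 0, false, false⟩,
 nat_lit 0, nat_lit 8514, nat_lit 0, nat_lit 0, nat_lit 6137, nat_lit 9325, nat_lit 1321, nat_lit 0, nat_lit 0, nat_lit 1196, nat_lit 0, nat_lit 0, nat_lit 0, nat_lit 0, nat_lit 0, nat_lit 0, nat_lit 0, nat_lit 0, [],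
 ⟨p014_k5, nat_lit 0, nat_lit 0, nat_lit 648, nat_lit 0, nat_lit 1085577, [nat_lit 3282000000, nat_lit 6250000000, nat_lit 7968000000], [], [nat_lit 25050456988, nat_lit 25433325243, nat_lit 36665237494, nat_lit 37292678616], nat_lit 1271250, nat_lit 1271250, nat_lit 780000, nat_lit 2974250, nat_lit 0, nat_lit 0, [nat_lit 780000, nat_lit 1435000, nat_lit 1271250], [nat_lit 18, nat_lit 40, nat_lit 80, nat_lit 80, nat_lit 2, nat_lit 317, nat_lit 100, nat_lit 10]⟩, ⟨p014_k31, nat_lit 0, nat_lit 0, nat_lit 0, nat_lit 0, nat_lit 0, [nat_lit 6250000000, nat_lit 9842000000, nat_lit 11872000000], [], [nat_lit 25899350800, nat_lit 27823858450, nat_lit 41636287075, nat_lit 42539335336], nat_lit 0, nat_lit 0, nat_lit 0, nat_lit 0, nat_lit 0, nat_lit 0, [], [nat_lit 46, nat_lit 40, nat_lit 80, nat_lit 80]⟩,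
 zbF0, []⟩
noncomputable def p014_l90 : Lf2 := ⟨nat_lit 0, nat_lit 10, [nat_lit 0, nat_lit 5, nat_lit 5, nat_lit 20], false, nat_lit 0, nat_lit 0, nat_lit 0, nat_lit 0, ⟨nat_lit 347, nat_lit 0, nat_lit 653, nat_lit 5, nat_lit 213, nat_lit 0, nat_lit 0, nat_lit 0, nat_lit 0, nat_lit 215, nat_lit 548000, nat_lit 200, nat_lit 52217424, nat_lit 0, nat_lit 0, nat_lit 2638554, false, true⟩,
 nat_lit 0, nat_lit 0, nat_lit 0, nat_lit 0, nat_lit 0, nat_lit 100000, nat_lit 0, nat_lit 0, nat_lit 0, nat_lit 0, nat_lit 6441, nat_lit 0, nat_lit 0, nat_lit 0, nat_lit 14, nat_lit 653000, nat_lit 0, nat_lit 0, [(nat_lit 12, [(nat_lit 6, nat_lit 653)]), (nat_lit 15, [(nat_lit 6, nat_lit 653)])],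
 ⟨p014_k15, nat_lit 0, nat_lit 0, nat_lit 878, nat_lit 0, nat_lit 1283111, [nat_lit 2743192800, nat_lit 375789600], [], [nat_lit 57123304000, nat_lit 57973036800, nat_lit 63633114400, nat_lit 64379319200], nat_lit 1271250, nat_lit 1271250, nat_lit 88400, nat_lit 2829150, nat_lit 0, nat_lit 0, [nat_lit 780000, nat_lit 2090000], [nat_lit 82, nat_lit 40, nat_lit 80, nat_lit 80, nat_lit 63, nat_lit 317, nat_lit 100, nat_lit 9]⟩, ⟨p014_k16, nat_lit 0, nat_lit 0, nat_lit 354, nat_lit 0, nat_lit 0, [nat_lit 130988750000, nat_lit 210231584000], [], [nat_lit 478264760462, nat_lit 478123638731, nat_lit 402649310381, nat_lit 393804927512], nat_lit 0, nat_lit 0, nat_lit 0, nat_lit 0, nat_lit 0, nat_lit 0, [], [nat_lit 107, nat_lit 40, nat_lit 80, nat_lit 80, nat_lit 12, nat_lit 401, nat_lit 175, nat_lit 11]⟩,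
 ⟨nat_lit 4472, nat_lit 5478, ⟨.ofNat (nat_lit 155307), .ofNat (nat_lit 866988), .ofNat (nat_lit 198021), .ofNat (nat_lit 909625), .ofNat (nat_lit 187299), .ofNat (nat_lit 832909), .ofNat (nat_lit 230432), .ofNat (nat_lit 875965)⟩, ⟨.ofNat (nat_lit 0), .ofNat (nat_lit 0), .ofNat (nat_lit 0), .ofNat (nat_lit 0), .ofNat (nat_lit 0), .ofNat (nat_lit 0), .ofNat (nat_lit 0), .ofNat (nat_lit 0)⟩⟩, [⟨nat_lit 0, nat_lit 100, nat_lit 87, nat_lit 59, nat_lit 1307495738⟩]⟩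
noncomputable def b_N_700_500_0_1 : St := ⟨false, nat_lit 1, nat_lit 0, nat_lit 1, nat_lit 40, nat_lit 280, nat_lit 320, nat_lit 200, nat_lit 240, nat_lit 16, nat_lit 396, nat_lit 0, nat_lit 0, nat_lit 0, nat_lit 0, nat_lit 0, nat_lit 0, nat_lit 0, nat_lit 40, nat_lit 0, nat_lit 0, nat_lit 0, nat_lit 0⟩
theorem d_N_700_500_0_1 (h : EB TB.env) : Dead b_N_700_500_0_1 := chkB_sound0 h (T :=
(.spl (nat_lit 8) (nat_lit 800)
(.spl (nat_lit 0) (nat_lit 300)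
(.spl (nat_lit 2) (nat_lit 240)
(.spl (nat_lit 2) (nat_lit 160)
(.spl (nat_lit 2) (nat_lit 80)
(.spl (nat_lit 1) (nat_lit 220)
(.leaf p014_l63)
(.trZ (nat_lit 0) (nat_lit 100) (nat_lit 92) (nat_lit 49) (nat_lit 24) (.leaf p014_l64)))
(.spl (nat_lit 0) (nat_lit 290)
(.spl (nat_lit 1) (nat_lit 220)
(.leaf p014_l65)
(.spl (nat_lit 1) (nat_lit 230)
(.spl (nat_lit 6) (nat_lit 20)
(.leaf p014_l66)
(.leaf p014_l67))
(.spl (nat_lit 6) (nat_lit 20)
(.spl (nat_lit 6) (nat_lit 8)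
(.spl (nat_lit 0) (nat_lit 285)
(.leaf p014_l68)
(.leaf p014_l69))
(.leaf p014_l70))
(.spl (nat_lit 0) (nat_lit 285)
(.leaf p014_l71)
(.leaf p014_l72)))))
(.spl (nat_lit 0) (nat_lit 295)
(.spl (nat_lit 1) (nat_lit 220)
(.leaf p014_l73)
(.spl (nat_lit 1) (nat_lit 230)
(.leaf p014_l74)
(.leaf p014_l75)))
(.spl (nat_lit 1) (nat_lit 220)
(.leaf p014_l76)
(.leaf p014_l77)))))
(.spl (nat_lit 1) (nat_lit 220)
(.leaf p014_l78)
(.leaf p014_l79)))
(.spl (nat_lit 1) (nat_lit 220)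
(.trX (nat_lit 13) (nat_lit 92) (nat_lit 31) (nat_lit 100) (nat_lit 392) (.spl (nat_lit 0) (nat_lit 290)
(.leaf p014_l80)
(.trX (nat_lit 13) (nat_lit 90) (nat_lit 36) (nat_lit 100) (nat_lit 388) (.leaf p014_l81))))
(.spl (nat_lit 0) (nat_lit 290)
(.leaf p014_l82)
(.leaf p014_l83))))
(.trZ (nat_lit 0) (nat_lit 100) (nat_lit 87) (nat_lit 50) (nat_lit 24) (.trX (nat_lit 13) (nat_lit 88) (nat_lit 32) (nat_lit 100) (nat_lit 392) (.spl (nat_lit 2) (nat_lit 120)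
(.spl (nat_lit 2) (nat_lit 80)
(.leaf p014_l84)
(.spl (nat_lit 0) (nat_lit 310)
(.spl (nat_lit 1) (nat_lit 220)
(.leaf p014_l85)
(.leaf p014_l86))
(.leaf p014_l87)))
(.spl (nat_lit 0) (nat_lit 310)
(.leaf p014_l88)
(.trX (nat_lit 13) (nat_lit 85) (nat_lit 38) (nat_lit 100) (nat_lit 388) (.leaf p014_l89)))))))
(.leaf p014_l90))) (by decide +kernel)
noncomputable def p014_l91 : Lf2 := ⟨nat_lit 0, nat_lit 10, [nat_lit 0, nat_lit 5, nat_lit 5, nat_lit 20], false, nat_lit 0, nat_lit 0, nat_lit 0, nat_lit 0, ⟨nat_lit 0, nat_lit 0, nat_lit 1000, nat_lit 5, nat_lit 110, nat_lit 0, nat_lit 0, nat_lit 0, nat_lit 0, nat_lit 215, nat_lit 114817, nat_lit 298, nat_lit 62272127, nat_lit 0, nat_lit 0, nat_lit 1275488, false, false⟩,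
 nat_lit 0, nat_lit 5473, nat_lit 0, nat_lit 0, nat_lit 3482, nat_lit 0, nat_lit 0, nat_lit 0, nat_lit 0, nat_lit 0, nat_lit 0, nat_lit 0, nat_lit 0, nat_lit 0, nat_lit 186, nat_lit 885400, nat_lit 0, nat_lit 0, [(nat_lit 12, [(nat_lit 5, nat_lit 191), (nat_lit 6, nat_lit 809)])],
 ⟨p014_k0, nat_lit 0, nat_lit 0, nat_lit 512, nat_lit 0, nat_lit 502188, [nat_lit 3392223601, nat_lit 2705650267, nat_lit 375746800], [], [nat_lit 15709980870, nat_lit 15933431599, nat_lit 15735659335, nat_lit 15982275640], nat_lit 1271250, nat_lit 1271250, nat_lit 88400, nat_lit 780000, nat_lit 0, nat_lit 0, [nat_lit 780000, nat_lit 1435000, nat_lit 1271250], [nat_lit 8, nat_lit 40, nat_lit 80, nat_lit 80, nat_lit 1, nat_lit 238, nat_lit 30, nat_lit 7]⟩, ⟨p014_k31, nat_lit 0, nat_lit 0, nat_lit 757, nat_lit 0, nat_lit 780893, [nat_lit 0, nat_lit 0, nat_lit 0], [], [nat_lit 0, nat_lit 0, nat_lit 0, nat_lit 0], nat_lit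 1271250, nat_lit 1271250, nat_lit 88400, nat_lit 780000, nat_lit 0, nat_lit 0, [nat_lit 1412500, nat_lit 1271250, nat_lit 1271250], [nat_lit 46, nat_lit 40, nat_lit 80, nat_lit 80, nat_lit 41, nat_lit 317, nat_lit 100, nat_lit 9]⟩,
 ⟨nat_lit 5361, nat_lit 5478, ⟨.ofNat (nat_lit 155307), .ofNat (nat_lit 350132), .ofNat (nat_lit 198021), .ofNat (nat_lit 392847), .ofNat (nat_lit 159371), .ofNat (nat_lit 351900), .ofNat (nat_lit 202110), .ofNat (nat_lit 394639)⟩, ⟨.ofNat (nat_lit 0), .ofNat (nat_lit 0), .ofNat (nat_lit 0), .ofNat (nat_lit 0), .ofNat (nat_lit 0), .ofNat (nat_lit 0), .ofNat (nat_lit 0), .ofNat (nat_lit 0)⟩⟩, [⟨nat_lit 0, nat_lit 100, nat_lit 92, nat_lit 61, nat_lit 102789514⟩]⟩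
noncomputable def p014_l92 : Lf2 := ⟨nat_lit 0, nat_lit 10, [nat_lit 0, nat_lit 5, nat_lit 5, nat_lit 20], false, nat_lit 0, nat_lit 0, nat_lit 0, nat_lit 0, ⟨nat_lit 0, nat_lit 0, nat_lit 1000, nat_lit 5, nat_lit 111, nat_lit 0, nat_lit 0, nat_lit 0, nat_lit 0, nat_lit 215, nat_lit 117600, nat_lit 299, nat_lit 62178604, nat_lit 0, nat_lit 0, nat_lit 1293407, false, false⟩,
 nat_lit 0, nat_lit 5273, nat_lit 0, nat_lit 0, nat_lit 3428, nat_lit 0, nat_lit 0, nat_lit 0, nat_lit 0, nat_lit 0, nat_lit 0, nat_lit 0, nat_lit 0, nat_lit 0, nat_lit 180, nat_lit 849400, nat_lit 0, nat_lit 0, [(nat_lit 12, [(nat_lit 5, nat_lit 251), (nat_lit 6, nat_lit 749)])],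
 ⟨p014_k22, nat_lit 0, nat_lit 0, nat_lit 517, nat_lit 0, nat_lit 513998, [nat_lit 3326199601, nat_lit 2621226267, nat_lit 383834800], [], [nat_lit 16065126666, nat_lit 16336780522, nat_lit 16225034920, nat_lit 16470080513], nat_lit 1271250, nat_lit 1271250, nat_lit 88400, nat_lit 780000, nat_lit 0, nat_lit 0, [nat_lit 780000, nat_lit 1435000, nat_lit 1271250], [nat_lit 8, nat_lit 40, nat_lit 80, nat_lit 80, nat_lit 1, nat_lit 238, nat_lit 30, nat_lit 7]⟩, ⟨p014_k31, nat_lit 0, nat_lit 0, nat_lit 772, nat_lit 0, nat_lit 818290, [nat_lit 0, nat_lit 0, nat_lit 0], [], [nat_lit 0, nat_lit 0, nat_lit 0, nat_lit 0], nat_lit 1271250, nat_lit 1271250, nat_lit 88400, nat_lit 780000, nat_lit 0, nat_lit 0, [nat_lit 1412500, nat_lit 1271250, nat_lit 1271250], [nat_lit 46, nat_lit 40, nat_lit 80, nat_lit 80, nat_lit 41, nat_lit 317, nat_lit 100, nat_lit 9]⟩,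
 ⟨nat_lit 5244, nat_lit 5362, ⟨.ofNat (nat_lit 159371), .ofNat (nat_lit 351900), .ofNat (nat_lit 202110), .ofNat (nat_lit 394639), .ofNat (nat_lit 163411), .ofNat (nat_lit 353656), .ofNat (nat_lit 206182), .ofNat (nat_lit 396427)⟩, ⟨.ofNat (nat_lit 0), .ofNat (nat_lit 0), .ofNat (nat_lit 0), .ofNat (nat_lit 0), .ofNat (nat_lit 0), .ofNat (nat_lit 0), .ofNat (nat_lit 0), .ofNat (nat_lit 0)⟩⟩, [⟨nat_lit 0, nat_lit 100, nat_lit 91, nat_lit 63, nat_lit 96982034⟩]⟩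
noncomputable def p014_l93 : Lf2 := ⟨nat_lit 0, nat_lit 10, [nat_lit 0, nat_lit 5, nat_lit 5, nat_lit 20], false, nat_lit 0, nat_lit 0, nat_lit 0, nat_lit 0, ⟨nat_lit 0, nat_lit 0, nat_lit 1000, nat_lit 5, nat_lit 114, nat_lit 0, nat_lit 0, nat_lit 0, nat_lit 0, nat_lit 215, nat_lit 123267, nat_lit 301, nat_lit 61966530, nat_lit 0, nat_lit 0, nat_lit 1333505, false, false⟩,
 nat_lit 0, nat_lit 5143, nat_lit 0, nat_lit 0, nat_lit 3415, nat_lit 0, nat_lit 0, nat_lit 0, nat_lit 0, nat_lit 0, nat_lit 0, nat_lit 0, nat_lit 0, nat_lit 0, nat_lit 136, nat_lit 824800, nat_lit 0, nat_lit 0, [(nat_lit 12, [(nat_lit 5, nat_lit 292), (nat_lit 6, nat_lit 708)])],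
 ⟨p014_k23, nat_lit 0, nat_lit 0, nat_lit 450, nat_lit 0, nat_lit 525651, [nat_lit 2802283201, nat_lit 1765536534, nat_lit 10624000], [], [nat_lit 16386950343, nat_lit 16657285901, nat_lit 16554469836, nat_lit 16799137295], nat_lit 1271250, nat_lit 1271250, nat_lit 111251, nat_lit 780000, nat_lit 0, nat_lit 0, [nat_lit 780000, nat_lit 1435000, nat_lit 1271250], [nat_lit 18, nat_lit 40, nat_lit 80, nat_lit 80, nat_lit 2, nat_lit 238, nat_lit 30, nat_lit 8]⟩, ⟨p014_k31, nat_lit 0, nat_lit 0, nat_lit 801, nat_lit 0, nat_lit 856459, [nat_lit 0, nat_lit 0, nat_lit 0], [], [nat_lit 0, nat_lit 0, nat_lit 0, nat_lit 0], nat_lit 1271250, nat_lit 1271250, nat_lit 111251, nat_lit 780000, nat_lit 0, nat_lit 0, [nat_lit 1412500, nat_lit 1271250, nat_lit 1271250], [nat_lit 46, nat_lit 40, nat_lit 80, nat_lit 80, nat_lit 41, nat_lit 317, nat_lit 100, nat_lit 9]⟩,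
 ⟨nat_lit 5123, nat_lit 5245, ⟨.ofNat (nat_lit 170728), .ofNat (nat_lit 353656), .ofNat (nat_lit 213499), .ofNat (nat_lit 396427), .ofNat (nat_lit 174659), .ofNat (nat_lit 355403), .ofNat (nat_lit 217469), .ofNat (nat_lit 398213)⟩, ⟨.ofNat (nat_lit 0), .ofNat (nat_lit 0), .ofNat (nat_lit 0), .ofNat (nat_lit 0), .ofNat (nat_lit 0), .ofNat (nat_lit 0), .ofNat (nat_lit 0), .ofNat (nat_lit 0)⟩⟩, [⟨nat_lit 0, nat_lit 100, nat_lit 90, nat_lit 65, nat_lit 95425923⟩]⟩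
noncomputable def p014_l94 : Lf2 := ⟨nat_lit 0, nat_lit 10, [nat_lit 0, nat_lit 5, nat_lit 5, nat_lit 20], false, nat_lit 0, nat_lit 0, nat_lit 0, nat_lit 0, ⟨nat_lit 0, nat_lit 0, nat_lit 1000, nat_lit 5, nat_lit 117, nat_lit 0, nat_lit 0, nat_lit 0, nat_lit 0, nat_lit 215, nat_lit 126150, nat_lit 302, nat_lit 61754291, nat_lit 0, nat_lit 0, nat_lit 1372912, false, false⟩,
 nat_lit 0, nat_lit 5040, nat_lit 0, nat_lit 0, nat_lit 3417, nat_lit 0, nat_lit 0, nat_lit 0, nat_lit 0, nat_lit 0, nat_lit 0, nat_lit 0, nat_lit 0, nat_lit 0, nat_lit 133, nat_lit 805600, nat_lit 0, nat_lit 0, [(nat_lit 12, [(nat_lit 5, nat_lit 324), (nat_lit 6, nat_lit 676)])],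
 ⟨p014_k33, nat_lit 0, nat_lit 0, nat_lit 453, nat_lit 0, nat_lit 537175, [nat_lit 2769470401, nat_lit 1724510401, nat_lit 8128000], [], [nat_lit 16703421048, nat_lit 17008557541, nat_lit 17040041638, nat_lit 17316258614], nat_lit 1271250, nat_lit 1271250, nat_lit 134400, nat_lit 780000, nat_lit 0, nat_lit 0, [nat_lit 780000, nat_lit 1435000, nat_lit 1271250], [nat_lit 18, nat_lit 40, nat_lit 80, nat_lit 80, nat_lit 2, nat_lit 238, nat_lit 30, nat_lit 8]⟩, ⟨p014_k31, nat_lit 0, nat_lit 0, nat_lit 813, nat_lit 0, nat_lit 895438, [nat_lit 0, nat_lit 0, nat_lit 0], [], [nat_lit 0, nat_lit 0, nat_lit 0, nat_lit 0], nat_lit 1271250, nat_lit 1271250, nat_lit 134400, nat_lit 780000, nat_lit 0, nat_lit 0, [nat_lit 1412500, nat_lit 1271250, nat_lit 1271250], [nat_lit 46, nat_lit 40, nat_lit 80, nat_lit 80, nat_lit 41, nat_lit 317, nat_lit 100, nat_lit 9]⟩,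
 ⟨nat_lit 5000, nat_lit 5124, ⟨.ofNat (nat_lit 181888), .ofNat (nat_lit 355403), .ofNat (nat_lit 224698), .ofNat (nat_lit 398213), .ofNat (nat_lit 185713), .ofNat (nat_lit 357141), .ofNat (nat_lit 228570), .ofNat (nat_lit 399998)⟩, ⟨.ofNat (nat_lit 0), .ofNat (nat_lit 0), .ofNat (nat_lit 0), .ofNat (nat_lit 0), .ofNat (nat_lit 0), .ofNat (nat_lit 0), .ofNat (nat_lit 0), .ofNat (nat_lit 0)⟩⟩, [⟨nat_lit 0, nat_lit 100, nat_lit 88, nat_lit 68, nat_lit 85084490⟩]⟩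
noncomputable def p014_l95 : Lf2 := ⟨nat_lit 0, nat_lit 10, [nat_lit 0, nat_lit 5, nat_lit 5, nat_lit 20], false, nat_lit 0, nat_lit 0, nat_lit 0, nat_lit 0, ⟨nat_lit 0, nat_lit 0, nat_lit 1000, nat_lit 5, nat_lit 119, nat_lit 0, nat_lit 0, nat_lit 0, nat_lit 0, nat_lit 215, nat_lit 135000, nat_lit 305, nat_lit 61520594, nat_lit 0, nat_lit 0, nat_lit 1415499, false, false⟩,
 nat_lit 0, nat_lit 4644, nat_lit 0, nat_lit 0, nat_lit 3214, nat_lit 0, nat_lit 0, nat_lit 0, nat_lit 0, nat_lit 0, nat_lit 0, nat_lit 0, nat_lit 0, nat_lit 0, nat_lit 165, nat_lit 738400, nat_lit 0, nat_lit 0, [(nat_lit 15, [(nat_lit 5, nat_lit 436), (nat_lit 6, nat_lit 564)])],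
 ⟨p014_k4, nat_lit 0, nat_lit 0, nat_lit 508, nat_lit 0, nat_lit 620659, [nat_lit 3106147200, nat_lit 1585377601, nat_lit 39227199], [], [nat_lit 17349140571, nat_lit 18536300309, nat_lit 17749831478, nat_lit 18825879272], nat_lit 1271250, nat_lit 1271250, nat_lit 134400, nat_lit 780000, nat_lit 0, nat_lit 0, [nat_lit 780000, nat_lit 1435000, nat_lit 1271250], [nat_lit 18, nat_lit 40, nat_lit 80, nat_lit 80, nat_lit 2, nat_lit 238, nat_lit 30, nat_lit 8]⟩, ⟨p014_k31, nat_lit 0, nat_lit 0, nat_lit 881, nat_lit 0, nat_lit 1058127, [nat_lit 0, nat_lit 0, nat_lit 0], [], [nat_lit 0, nat_lit 0, nat_lit 0, nat_lit 0], nat_lit 1271250, nat_lit 1271250, nat_lit 134400, nat_lit 780000, nat_lit 0, nat_lit 0, [nat_lit 1412500, nat_lit 1271250, nat_lit 1271250], [nat_lit 46, nat_lit 40, nat_lit 80, nat_lit 80, nat_lit 41, nat_lit 317, nat_lit 100, nat_lit 9]⟩,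
 ⟨nat_lit 4472, nat_lit 5000, ⟨.ofNat (nat_lit 185713), .ofNat (nat_lit 357141), .ofNat (nat_lit 228562), .ofNat (nat_lit 399984), .ofNat (nat_lit 200895), .ofNat (nat_lit 364042), .ofNat (nat_lit 244020), .ofNat (nat_lit 407160)⟩, ⟨.ofNat (nat_lit 0), .ofNat (nat_lit 0), .ofNat (nat_lit 0), .ofNat (nat_lit 0), .ofNat (nat_lit 0), .ofNat (nat_lit 0), .ofNat (nat_lit 0), .ofNat (nat_lit 0)⟩⟩, [⟨nat_lit 0, nat_lit 100, nat_lit 82, nat_lit 76, nat_lit 81226030⟩]⟩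
noncomputable def p014_l96 : Lf2 := ⟨nat_lit 0, nat_lit 10, [nat_lit 0, nat_lit 5, nat_lit 5, nat_lit 20], false, nat_lit 0, nat_lit 0, nat_lit 0, nat_lit 0, ⟨nat_lit 189, nat_lit 0, nat_lit 811, nat_lit 5, nat_lit 194, nat_lit 0, nat_lit 0, nat_lit 0, nat_lit 0, nat_lit 215, nat_lit 1350, nat_lit 206, nat_lit 54250075, nat_lit 0, nat_lit 0, nat_lit 2433268, false, false⟩,
 nat_lit 5561, nat_lit 1415, nat_lit 0, nat_lit 0, nat_lit 4439, nat_lit 2383, nat_lit 170, nat_lit 0, nat_lit 0, nat_lit 187, nat_lit 0, nat_lit 0, nat_lit 0, nat_lit 0, nat_lit 104, nat_lit 811000, nat_lit 0, nat_lit 0, [(nat_lit 12, [(nat_lit 6, nat_lit 811)])],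
 ⟨p014_k0, nat_lit 0, nat_lit 0, nat_lit 477, nat_lit 0, nat_lit 575852, [nat_lit 2793811201, nat_lit 2346766400, nat_lit 398577200], [], [nat_lit 16283460456, nat_lit 16359170014, nat_lit 20706630319, nat_lit 20344256598], nat_lit 1271250, nat_lit 1271250, nat_lit 780000, nat_lit 1762500, nat_lit 0, nat_lit 0, [nat_lit 780000, nat_lit 1435000, nat_lit 1271250], [nat_lit 8, nat_lit 40, nat_lit 80, nat_lit 80, nat_lit 1, nat_lit 272, nat_lit 60, nat_lit 8]⟩, ⟨p014_k31, nat_lit 0, nat_lit 0, nat_lit 732, nat_lit 0, nat_lit 895438, [nat_lit 1181250000, nat_lit 1860138000, nat_lit 2243808000], [], [nat_lit 9793353588, nat_lit 7272816360, nat_lit 6553403472, nat_lit 6563572716], nat_lit 1271250, nat_lit 1271250, nat_lit 780000, nat_lit 1762500, nat_lit 0, nat_lit 0, [nat_lit 1412500, nat_lit 1271250, nat_lit 1271250], [nat_lit 46, nat_lit 40, nat_lit 80, nat_lit 80, nat_lit 41, nat_lit 345, nat_lit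 125, nat_lit 9]⟩,
 ⟨nat_lit 5000, nat_lit 5478, ⟨.ofNat (nat_lit 350132), .ofNat (nat_lit 574920), .ofNat (nat_lit 392847), .ofNat (nat_lit 617614), .ofNat (nat_lit 357141), .ofNat (nat_lit 571415), .ofNat (nat_lit 399998), .ofNat (nat_lit 614253)⟩, ⟨.ofNat (nat_lit 0), .ofNat (nat_lit 0), .ofNat (nat_lit 0), .ofNat (nat_lit 0), .ofNat (nat_lit 0), .ofNat (nat_lit 0), .ofNat (nat_lit 0), .ofNat (nat_lit 0)⟩⟩, []⟩
noncomputable def p014_l97 : Lf2 := ⟨nat_lit 0, nat_lit 10, [nat_lit 0, nat_lit 5, nat_lit 5, nat_lit 20], false, nat_lit 0, nat_lit 0, nat_lit 0, nat_lit 0, ⟨nat_lit 190, nat_lit 0, nat_lit 810, nat_lit 5, nat_lit 195, nat_lit 0, nat_lit 0, nat_lit 0, nat_lit 0, nat_lit 215, nat_lit 1067, nat_lit 207, nat_lit 54171567, nat_lit 0, nat_lit 0, nat_lit 2441730, false, false⟩,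
 nat_lit 5186, nat_lit 549, nat_lit 0, nat_lit 0, nat_lit 3970, nat_lit 2222, nat_lit 0, nat_lit 0, nat_lit 0, nat_lit 146, nat_lit 0, nat_lit 0, nat_lit 0, nat_lit 0, nat_lit 115, nat_lit 810000, nat_lit 0, nat_lit 0, [(nat_lit 15, [(nat_lit 6, nat_lit 810)])],
 ⟨p014_k4, nat_lit 0, nat_lit 0, nat_lit 431, nat_lit 0, nat_lit 620659, [nat_lit 2797380000, nat_lit 1628388001, nat_lit 17532000], [], [nat_lit 16710119690, nat_lit 17893497560, nat_lit 19754497540, nat_lit 21415245600], nat_lit 1271250, nat_lit 1271250, nat_lit 780000, nat_lit 1762500, nat_lit 0, nat_lit 0, [nat_lit 780000, nat_lit 1435000, nat_lit 1271250], [nat_lit 18, nat_lit 40, nat_lit 80, nat_lit 80, nat_lit 2, nat_lit 272, nat_lit 60, nat_lit 9]⟩, ⟨p014_k31, nat_lit 0, nat_lit 0, nat_lit 816, nat_lit 0, nat_lit 1058127, [nat_lit 1187500000, nat_lit 1869980000, nat_lit 2255680000], [], [nat_lit 9579195160, nat_lit 7604911248,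 nat_lit 7169937400, nat_lit 7117211056], nat_lit 1271250, nat_lit 1271250, nat_lit 780000, nat_lit 1762500, nat_lit 0, nat_lit 0, [nat_lit 1412500, nat_lit 1271250, nat_lit 1271250], [nat_lit 46, nat_lit 40, nat_lit 80, nat_lit 80, nat_lit 41, nat_lit 345, nat_lit 125, nat_lit 9]⟩,
 ⟨nat_lit 4472, nat_lit 5000, ⟨.ofNat (nat_lit 357141), .ofNat (nat_lit 571423), .ofNat (nat_lit 399984), .ofNat (nat_lit 614256), .ofNat (nat_lit 364042), .ofNat (nat_lit 567973), .ofNat (nat_lit 407160), .ofNat (nat_lit 611081)⟩, ⟨.ofNat (nat_lit 0), .ofNat (nat_lit 0), .ofNat (nat_lit 0), .ofNat (nat_lit 0), .ofNat (nat_lit 0), .ofNat (nat_lit 0), .ofNat (nat_lit 0), .ofNat (nat_lit 0)⟩⟩, []⟩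
noncomputable def p014_l98 : Lf2 := ⟨nat_lit 0, nat_lit 10, [nat_lit 0, nat_lit 5, nat_lit 5, nat_lit 20], false, nat_lit 0, nat_lit 0, nat_lit 0, nat_lit 0, ⟨nat_lit 226, nat_lit 135, nat_lit 639, nat_lit 6, nat_lit 263, nat_lit 0, nat_lit 0, nat_lit 0, nat_lit 0, nat_lit 215, nat_lit 220964, nat_lit 200, nat_lit 46798032, nat_lit 20201968, nat_lit 0, nat_lit 3060740, true, true⟩,
 nat_lit 6063, nat_lit 0, nat_lit 0, nat_lit 0, nat_lit 3858, nat_lit 2598, nat_lit 0, nat_lit 0, nat_lit 0, nat_lit 200, nat_lit 0, nat_lit 0, nat_lit 0, nat_lit 0, nat_lit 57, nat_lit 774000, nat_lit 0, nat_lit 0, [(nat_lit 12, [(nat_lit 2, nat_lit 135), (nat_lit 6, nat_lit 639)])],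
 ⟨p014_k0, nat_lit 0, nat_lit 0, nat_lit 430, nat_lit 0, nat_lit 528382, [nat_lit 2470210801, nat_lit 2094727600, nat_lit 334602800], [], [nat_lit 21609315401, nat_lit 22357861889, nat_lit 24212714345, nat_lit 24845948720], nat_lit 1271250, nat_lit 1271250, nat_lit 1271250, nat_lit 1271250, nat_lit 0, nat_lit 0, [nat_lit 780000, nat_lit 1435000, nat_lit 1271250], [nat_lit 8, nat_lit 40, nat_lit 80, nat_lit 80, nat_lit 1, nat_lit 317, nat_lit 100, nat_lit 9]⟩, ⟨p014_k31, nat_lit 0, nat_lit 0, nat_lit 654, nat_lit 0, nat_lit 821624, [nat_lit 1412500000, nat_lit 2224292000, nat_lit 2683072000], [], [nat_lit 8623076256, nat_lit 8616353552, nat_lit 8900121672, nat_lit 8867841112], nat_lit 1271250, nat_lit 1271250, nat_lit 1271250, nat_lit 1271250, nat_lit 0, nat_lit 0, [nat_lit 1412500, nat_lit 1271250, nat_lit 1271250], [nat_lit 46, nat_lit 40, nat_lit 80, nat_lit 80, nat_lit 41, nat_lit 373,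 nat_lit 150, nat_lit 9]⟩,
 ⟨nat_lit 5000, nat_lit 5478, ⟨.ofNat (nat_lit 574920), .ofNat (nat_lit 724760), .ofNat (nat_lit 596267), .ofNat (nat_lit 746107), .ofNat (nat_lit 571415), .ofNat (nat_lit 714246), .ofNat (nat_lit 592834), .ofNat (nat_lit 735665)⟩, ⟨.ofNat (nat_lit 0), .ofNat (nat_lit 0), .ofNat (nat_lit 0), .ofNat (nat_lit 0), .ofNat (nat_lit 0), .ofNat (nat_lit 0), .ofNat (nat_lit 0), .ofNat (nat_lit 0)⟩⟩, []⟩
noncomputable def p014_l99 : Lf2 := ⟨nat_lit 0, nat_lit 5, [nat_lit 4, nat_lit 5, nat_lit 5, nat_lit 20], false, nat_lit 0, nat_lit 0, nat_lit 0, nat_lit 0, ⟨nat_lit 430, nat_lit 570, nat_lit 0, nat_lit 8, nat_lit 320, nat_lit 0, nat_lit 0, nat_lit 0, nat_lit 0, nat_lit 0, nat_lit 0, nat_lit 0, nat_lit 40874677, nat_lit 26125323, nat_lit 0, nat_lit 3343583, true, true⟩,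
 nat_lit 8240, nat_lit 0, nat_lit 0, nat_lit 0, nat_lit 5243, nat_lit 3531, nat_lit 181, nat_lit 0, nat_lit 0, nat_lit 339, nat_lit 0, nat_lit 0, nat_lit 0, nat_lit 0, nat_lit 0, nat_lit 570000, nat_lit 0, nat_lit 0, [(nat_lit 12, [(nat_lit 2, nat_lit 570)])],
 ⟨p014_k25, nat_lit 0, nat_lit 0, nat_lit 360, nat_lit 0, nat_lit 440254, [nat_lit 2742324001, nat_lit 3796948000, nat_lit 3716028000], [], [nat_lit 29907263789, nat_lit 30248673174, nat_lit 33229996121, nat_lit 33535114751], nat_lit 1271250, nat_lit 1271250, nat_lit 1271250, nat_lit 1271250, nat_lit 0, nat_lit 0, [nat_lit 780000, nat_lit 1435000, nat_lit 1271250], [nat_lit 18, nat_lit 40, nat_lit 80, nat_lit 80, nat_lit 2, nat_lit 203, nat_lit 0, nat_lit 6]⟩, ⟨p014_k37, nat_lit 0, nat_lit 0, nat_lit 568, nat_lit 0, nat_lit 670379, [nat_lit 2687500000, nat_lit 4232060000, nat_lit 5104960000], [], [nat_lit 19608001896, nat_lit 19637714668,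 nat_lit 20918191492, nat_lit 20930092680], nat_lit 1271250, nat_lit 1271250, nat_lit 1271250, nat_lit 1271250, nat_lit 0, nat_lit 0, [nat_lit 1412500, nat_lit 1271250, nat_lit 1271250], [nat_lit 46, nat_lit 40, nat_lit 80, nat_lit 80, nat_lit 41, nat_lit 272, nat_lit 60, nat_lit 7]⟩,
 ⟨nat_lit 5244, nat_lit 5478, ⟨.ofNat (nat_lit 724787), .ofNat (nat_lit 859660), .ofNat (nat_lit 746143), .ofNat (nat_lit 881015), .ofNat (nat_lit 719502), .ofNat (nat_lit 851203), .ofNat (nat_lit 740885), .ofNat (nat_lit 872587)⟩, ⟨.ofNat (nat_lit 0), .ofNat (nat_lit 0), .ofNat (nat_lit 0), .ofNat (nat_lit 0), .ofNat (nat_lit 0), .ofNat (nat_lit 0), .ofNat (nat_lit 0), .ofNat (nat_lit 0)⟩⟩, [⟨nat_lit 13, nat_lit 91, nat_lit 38, nat_lit 100, nat_lit 75818809⟩]⟩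
noncomputable def p014_l100 : Lf2 := ⟨nat_lit 0, nat_lit 5, [nat_lit 4, nat_lit 5, nat_lit 5, nat_lit 20], false, nat_lit 0, nat_lit 0, nat_lit 0, nat_lit 0, ⟨nat_lit 286, nat_lit 714, nat_lit 0, nat_lit 8, nat_lit 316, nat_lit 0, nat_lit 0, nat_lit 0, nat_lit 0, nat_lit 0, nat_lit 0, nat_lit 0, nat_lit 41291932, nat_lit 25708068, nat_lit 0, nat_lit 3329237, true, true⟩,
 nat_lit 6930, nat_lit 0, nat_lit 0, nat_lit 0, nat_lit 4602, nat_lit 2969, nat_lit 353, nat_lit 0, nat_lit 0, nat_lit 207, nat_lit 0, nat_lit 0, nat_lit 0, nat_lit 0, nat_lit 0, nat_lit 714000, nat_lit 0, nat_lit 0, [(nat_lit 12, [(nat_lit 2, nat_lit 714)])],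
 ⟨p014_k38, nat_lit 0, nat_lit 0, nat_lit 320, nat_lit 0, nat_lit 467919, [nat_lit 2605984801, nat_lit 3132613599], [], [nat_lit 28861168970, nat_lit 29192049056, nat_lit 31666233917, nat_lit 32074834529], nat_lit 1271250, nat_lit 1271250, nat_lit 1271250, nat_lit 1271250, nat_lit 0, nat_lit 0, [nat_lit 780000, nat_lit 1435000], [nat_lit 49, nat_lit 40, nat_lit 80, nat_lit 80, nat_lit 16, nat_lit 203, nat_lit 0, nat_lit 7]⟩, ⟨p014_k37, nat_lit 0, nat_lit 0, nat_lit 597, nat_lit 0, nat_lit 745194, [nat_lit 1787500000, nat_lit 2814812000, nat_lit 3395392000], [], [nat_lit 12269397708, nat_lit 12240799626, nat_lit 12848301653, nat_lit 12790958024], nat_lit 1271250, nat_lit 1271250, nat_lit 1271250, nat_lit 1271250, nat_lit 0, nat_lit 0, [nat_lit 1412500, nat_lit 1271250, nat_lit 1271250], [nat_lit 46, nat_lit 40, nat_lit 80, nat_lit 80, nat_lit 41, nat_lit 272, nat_lit 60, nat_lit 7]⟩,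
 ⟨nat_lit 5000, nat_lit 5245, ⟨.ofNat (nat_lit 719505), .ofNat (nat_lit 843891), .ofNat (nat_lit 740887), .ofNat (nat_lit 865274), .ofNat (nat_lit 714277), .ofNat (nat_lit 835701), .ofNat (nat_lit 735703), .ofNat (nat_lit 857127)⟩, ⟨.ofNat (nat_lit 0), .ofNat (nat_lit 0), .ofNat (nat_lit 0), .ofNat (nat_lit 0), .ofNat (nat_lit 0), .ofNat (nat_lit 0), .ofNat (nat_lit 0), .ofNat (nat_lit 0)⟩⟩, [⟨nat_lit 13, nat_lit 88, nat_lit 43, nat_lit 100, nat_lit 62336484⟩]⟩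
noncomputable def p014_l101 : Lf2 := ⟨nat_lit 0, nat_lit 10, [nat_lit 0, nat_lit 5, nat_lit 5, nat_lit 20], false, nat_lit 0, nat_lit 0, nat_lit 0, nat_lit 0, ⟨nat_lit 1000, nat_lit 0, nat_lit 0, nat_lit 0, nat_lit 0, nat_lit 0, nat_lit 0, nat_lit 0, nat_lit 0, nat_lit 0, nat_lit 0, nat_lit 0, nat_lit 0, nat_lit 0, nat_lit 0, nat_lit 0, false, false⟩,
 nat_lit 18196, nat_lit 0, nat_lit 0, nat_lit 0, nat_lit 6666, nat_lit 7798, nat_lit 824, nat_lit 0, nat_lit 0, nat_lit 710, nat_lit 0, nat_lit 0, nat_lit 0, nat_lit 0, nat_lit 0, nat_lit 0, nat_lit 0, nat_lit 0, [],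
 ⟨p014_k0, nat_lit 0, nat_lit 0, nat_lit 339, nat_lit 0, nat_lit 303592, [nat_lit 3282000000, nat_lit 6250000000, nat_lit 9842000000], [], [nat_lit 32553483576, nat_lit 32998328772, nat_lit 36854068568, nat_lit 37193671643], nat_lit 1271250, nat_lit 1271250, nat_lit 1271250, nat_lit 1271250, nat_lit 0, nat_lit 0, [nat_lit 780000, nat_lit 1435000, nat_lit 1271250], [nat_lit 8, nat_lit 40, nat_lit 80, nat_lit 80, nat_lit 1, nat_lit 203, nat_lit 0, nat_lit 5]⟩, ⟨p014_k31, nat_lit 0, nat_lit 0, nat_lit 491, nat_lit 0, nat_lit 472080, [nat_lit 6250000000, nat_lit 9842000000, nat_lit 11872000000], [], [nat_lit 46918417144, nat_lit 46955220904, nat_lit 49417516620, nat_lit 49415958258], nat_lit 1271250, nat_lit 1271250, nat_lit 1271250, nat_lit 1271250, nat_lit 0, nat_lit 0, [nat_lit 1412500, nat_lit 1271250, nat_lit 1271250], [nat_lit 46, nat_lit 40, nat_lit 80, nat_lit 80, nat_lit 41, nat_lit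 272, nat_lit 60, nat_lit 7]⟩,
 zbF0, []⟩
noncomputable def p014_l102 : Lf2 := ⟨nat_lit 0, nat_lit 10, [nat_lit 0, nat_lit 5, nat_lit 5, nat_lit 20], false, nat_lit 0, nat_lit 0, nat_lit 0, nat_lit 0, ⟨nat_lit 446, nat_lit 554, nat_lit 0, nat_lit 8, nat_lit 316, nat_lit 0, nat_lit 0, nat_lit 0, nat_lit 0, nat_lit 0, nat_lit 0, nat_lit 0, nat_lit 41291932, nat_lit 25708068, nat_lit 0, nat_lit 3329237, true, true⟩,
 nat_lit 7976, nat_lit 0, nat_lit 0, nat_lit 0, nat_lit 5168, nat_lit 3418, nat_lit 153, nat_lit 0, nat_lit 0, nat_lit 318, nat_lit 0, nat_lit 0, nat_lit 0, nat_lit 0, nat_lit 0, nat_lit 554000, nat_lit 0, nat_lit 0, [(nat_lit 12, [(nat_lit 2, nat_lit 554)])],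
 ⟨p014_k23, nat_lit 0, nat_lit 0, nat_lit 313, nat_lit 0, nat_lit 340380, [nat_lit 2757472801, nat_lit 3865805600, nat_lit 3835381600], [], [nat_lit 30414116917, nat_lit 30730338645, nat_lit 33261100977, nat_lit 33545266526], nat_lit 1271250, nat_lit 1271250, nat_lit 1271250, nat_lit 1271250, nat_lit 0, nat_lit 0, [nat_lit 780000, nat_lit 1435000, nat_lit 1271250], [nat_lit 18, nat_lit 40, nat_lit 80, nat_lit 80, nat_lit 2, nat_lit 203, nat_lit 0, nat_lit 6]⟩, ⟨p014_k31, nat_lit 0, nat_lit 0, nat_lit 523, nat_lit 0, nat_lit 554592, [nat_lit 2787500000, nat_lit 4389532000, nat_lit 5294912000], [], [nat_lit 21102216928, nat_lit 21121376672, nat_lit 22078741654, nat_lit 22077252758], nat_lit 1271250, nat_lit 1271250, nat_lit 1271250, nat_lit 1271250, nat_lit 0, nat_lit 0, [nat_lit 1412500, nat_lit 1271250, nat_lit 1271250], [nat_lit 46, nat_lit 40, nat_lit 80, nat_lit 80, nat_lit 41, nat_lit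 272, nat_lit 60, nat_lit 7]⟩,
 ⟨nat_lit 5000, nat_lit 5245, ⟨.ofNat (nat_lit 719505), .ofNat (nat_lit 843891), .ofNat (nat_lit 740887), .ofNat (nat_lit 865274), .ofNat (nat_lit 714277), .ofNat (nat_lit 835701), .ofNat (nat_lit 735703), .ofNat (nat_lit 857127)⟩, ⟨.ofNat (nat_lit 0), .ofNat (nat_lit 0), .ofNat (nat_lit 0), .ofNat (nat_lit 0), .ofNat (nat_lit 0), .ofNat (nat_lit 0), .ofNat (nat_lit 0), .ofNat (nat_lit 0)⟩⟩, [⟨nat_lit 13, nat_lit 88, nat_lit 43, nat_lit 100, nat_lit 33348657⟩]⟩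
noncomputable def p014_l103 : Lf2 := ⟨nat_lit 0, nat_lit 10, [nat_lit 0, nat_lit 5, nat_lit 5, nat_lit 20], false, nat_lit 0, nat_lit 0, nat_lit 0, nat_lit 0, ⟨nat_lit 1000, nat_lit 0, nat_lit 0, nat_lit 0, nat_lit 0, nat_lit 0, nat_lit 0, nat_lit 0, nat_lit 0, nat_lit 0, nat_lit 0, nat_lit 0, nat_lit 0, nat_lit 0, nat_lit 0, nat_lit 0, false, false⟩,
 nat_lit 17500, nat_lit 0, nat_lit 0, nat_lit 0, nat_lit 7402, nat_lit 8369, nat_lit 945, nat_lit 0, nat_lit 0, nat_lit 2052, nat_lit 0, nat_lit 0, nat_lit 0, nat_lit 0, nat_lit 0, nat_lit 0, nat_lit 0, nat_lit 0, [],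
 ⟨p014_k0, nat_lit 0, nat_lit 0, nat_lit 456, nat_lit 0, nat_lit 575852, [nat_lit 3282000000, nat_lit 6250000000, nat_lit 9842000000], [], [nat_lit 29437340077, nat_lit 30341123209, nat_lit 38898739715, nat_lit 40224570518], nat_lit 1271250, nat_lit 1271250, nat_lit 1271250, nat_lit 1271250, nat_lit 0, nat_lit 0, [nat_lit 780000, nat_lit 1435000, nat_lit 1271250], [nat_lit 8, nat_lit 40, nat_lit 80, nat_lit 80, nat_lit 1, nat_lit 317, nat_lit 100, nat_lit 9]⟩, ⟨p014_k19, nat_lit 0, nat_lit 0, nat_lit 619, nat_lit 0, nat_lit 790801, [nat_lit 6250000000, nat_lit 9842000000, nat_lit 11872000000], [], [nat_lit 34409750788, nat_lit 34481919392, nat_lit 38972843269, nat_lit 39177591568], nat_lit 1271250, nat_lit 1271250, nat_lit 1271250, nat_lit 1271250, nat_lit 0, nat_lit 0, [nat_lit 1412500, nat_lit 1271250, nat_lit 1271250], [nat_lit 46, nat_lit 40, nat_lit 80, nat_lit 80, nat_lit 41, nat_lit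 401, nat_lit 175, nat_lit 10]⟩,
 zbF0, []⟩
noncomputable def p014_l104 : Lf2 := ⟨nat_lit 0, nat_lit 10, [nat_lit 0, nat_lit 5, nat_lit 5, nat_lit 20], false, nat_lit 0, nat_lit 0, nat_lit 0, nat_lit 0, ⟨nat_lit 221, nat_lit 527, nat_lit 252, nat_lit 6, nat_lit 261, nat_lit 0, nat_lit 0, nat_lit 0, nat_lit 0, nat_lit 215, nat_lit 200162, nat_lit 200, nat_lit 47020474, nat_lit 19979526, nat_lit 0, nat_lit 3046664, true, true⟩,
 nat_lit 5921, nat_lit 0, nat_lit 0, nat_lit 0, nat_lit 4099, nat_lit 2537, nat_lit 7, nat_lit 0, nat_lit 0, nat_lit 195, nat_lit 0, nat_lit 0, nat_lit 0, nat_lit 0, nat_lit 0, nat_lit 779000, nat_lit 0, nat_lit 0, [(nat_lit 15, [(nat_lit 2, nat_lit 527), (nat_lit 6, nat_lit 252)])],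
 ⟨p014_k4, nat_lit 0, nat_lit 0, nat_lit 378, nat_lit 0, nat_lit 532110, [nat_lit 2086149201, nat_lit 1355155601, nat_lit 69294000], [], [nat_lit 23132590643, nat_lit 23514483825, nat_lit 25655315625, nat_lit 25975812282], nat_lit 1271250, nat_lit 1271250, nat_lit 1271250, nat_lit 1271250, nat_lit 0, nat_lit 0, [nat_lit 780000, nat_lit 1435000, nat_lit 1271250], [nat_lit 18, nat_lit 40, nat_lit 80, nat_lit 80, nat_lit 2, nat_lit 203, nat_lit 0, nat_lit 6]⟩, ⟨p014_k31, nat_lit 0, nat_lit 0, nat_lit 690, nat_lit 0, nat_lit 907166, [nat_lit 1381250000, nat_lit 2175082000, nat_lit 2623712000], [], [nat_lit 8443317408, nat_lit 8436864844, nat_lit 8714337516, nat_lit 8681742962], nat_lit 1271250, nat_lit 1271250, nat_lit 1271250, nat_lit 1271250, nat_lit 0, nat_lit 0, [nat_lit 1412500, nat_lit 1271250, nat_lit 1271250], [nat_lit 46, nat_lit 40, nat_lit 80, nat_lit 80, nat_lit 41, nat_lit 373, nat_lit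 150, nat_lit 9]⟩,
 ⟨nat_lit 4743, nat_lit 5000, ⟨.ofNat (nat_lit 571426), .ofNat (nat_lit 714280), .ofNat (nat_lit 592852), .ofNat (nat_lit 735706), .ofNat (nat_lit 569697), .ofNat (nat_lit 709094), .ofNat (nat_lit 591183), .ofNat (nat_lit 730579)⟩, ⟨.ofNat (nat_lit 0), .ofNat (nat_lit 0), .ofNat (nat_lit 0), .ofNat (nat_lit 0), .ofNat (nat_lit 0), .ofNat (nat_lit 0), .ofNat (nat_lit 0), .ofNat (nat_lit 0)⟩⟩, []⟩
noncomputable def p014_l105 : Lf2 := ⟨nat_lit 0, nat_lit 10, [nat_lit 0, nat_lit 5, nat_lit 5, nat_lit 20], false, nat_lit 0, nat_lit 0, nat_lit 0, nat_lit 0, ⟨nat_lit 250, nat_lit 750, nat_lit 0, nat_lit 8, nat_lit 312, nat_lit 0, nat_lit 0, nat_lit 0, nat_lit 0, nat_lit 0, nat_lit 0, nat_lit 0, nat_lit 41702204, nat_lit 25297796, nat_lit 0, nat_lit 3314331, true, true⟩,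
 nat_lit 6139, nat_lit 0, nat_lit 0, nat_lit 0, nat_lit 4250, nat_lit 2631, nat_lit 64, nat_lit 0, nat_lit 0, nat_lit 203, nat_lit 0, nat_lit 0, nat_lit 0, nat_lit 0, nat_lit 0, nat_lit 750000, nat_lit 0, nat_lit 0, [(nat_lit 15, [(nat_lit 2, nat_lit 750)])],
 ⟨p014_k4, nat_lit 0, nat_lit 0, nat_lit 391, nat_lit 0, nat_lit 532110, [nat_lit 2405700001, nat_lit 2348500001, nat_lit 1469100000], [], [nat_lit 28581035005, nat_lit 28909001505, nat_lit 31105263006, nat_lit 31381666705], nat_lit 1271250, nat_lit 1271250, nat_lit 1271250, nat_lit 1271250, nat_lit 0, nat_lit 0, [nat_lit 780000, nat_lit 1435000, nat_lit 1271250], [nat_lit 18, nat_lit 40, nat_lit 80, nat_lit 80, nat_lit 2, nat_lit 203, nat_lit 0, nat_lit 6]⟩, ⟨p014_k31, nat_lit 0, nat_lit 0, nat_lit 677, nat_lit 0, nat_lit 907166, [nat_lit 1562500000, nat_lit 2460500000, nat_lit 2968000000], [], [nat_lit 10612210356, nat_lit 10585667702,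 nat_lit 11090541716, nat_lit 11039502190], nat_lit 1271250, nat_lit 1271250, nat_lit 1271250, nat_lit 1271250, nat_lit 0, nat_lit 0, [nat_lit 1412500, nat_lit 1271250, nat_lit 1271250], [nat_lit 46, nat_lit 40, nat_lit 80, nat_lit 80, nat_lit 41, nat_lit 272, nat_lit 60, nat_lit 7]⟩,
 ⟨nat_lit 4743, nat_lit 5000, ⟨.ofNat (nat_lit 714280), .ofNat (nat_lit 828563), .ofNat (nat_lit 735706), .ofNat (nat_lit 849988), .ofNat (nat_lit 709094), .ofNat (nat_lit 820610), .ofNat (nat_lit 730579), .ofNat (nat_lit 842095)⟩, ⟨.ofNat (nat_lit 0), .ofNat (nat_lit 0), .ofNat (nat_lit 0), .ofNat (nat_lit 0), .ofNat (nat_lit 0), .ofNat (nat_lit 0), .ofNat (nat_lit 0), .ofNat (nat_lit 0)⟩⟩, [⟨nat_lit 13, nat_lit 85, nat_lit 48, nat_lit 100, nat_lit 74283682⟩]⟩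
noncomputable def p014_l106 : Lf2 := ⟨nat_lit 0, nat_lit 10, [nat_lit 0, nat_lit 5, nat_lit 5, nat_lit 20], false, nat_lit 0, nat_lit 0, nat_lit 0, nat_lit 0, ⟨nat_lit 229, nat_lit 771, nat_lit 0, nat_lit 6, nat_lit 259, nat_lit 0, nat_lit 0, nat_lit 0, nat_lit 0, nat_lit 0, nat_lit 0, nat_lit 0, nat_lit 47167431, nat_lit 19832569, nat_lit 0, nat_lit 3037220, true, true⟩,
 nat_lit 6134, nat_lit 0, nat_lit 0, nat_lit 0, nat_lit 4422, nat_lit 2628, nat_lit 515, nat_lit 0, nat_lit 0, nat_lit 202, nat_lit 0, nat_lit 0, nat_lit 0, nat_lit 0, nat_lit 0, nat_lit 308400, nat_lit 0, nat_lit 0, [(nat_lit 15, [(nat_lit 1, nat_lit 771)])],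
 ⟨p014_k5, nat_lit 0, nat_lit 0, nat_lit 388, nat_lit 0, nat_lit 558729, [nat_lit 2309152200, nat_lit 3246852200, nat_lit 3610886000], [], [nat_lit 24036665473, nat_lit 24485080877, nat_lit 26925470029, nat_lit 27299696445], nat_lit 1271250, nat_lit 1271250, nat_lit 1271250, nat_lit 1271250, nat_lit 0, nat_lit 0, [nat_lit 780000, nat_lit 1435000, nat_lit 1271250], [nat_lit 18, nat_lit 40, nat_lit 80, nat_lit 80, nat_lit 2, nat_lit 203, nat_lit 0, nat_lit 6]⟩, ⟨p014_k31, nat_lit 0, nat_lit 0, nat_lit 727, nat_lit 0, nat_lit 995402, [nat_lit 1431250000, nat_lit 2253818000, nat_lit 2718688000], [], [nat_lit 8751576312, nat_lit 8744919026, nat_lit 9032431824, nat_lit 8998693568], nat_lit 1271250, nat_lit 1271250, nat_lit 1271250, nat_lit 1271250, nat_lit 0, nat_lit 0, [nat_lit 1412500, nat_lit 1271250, nat_lit 1271250], [nat_lit 46, nat_lit 40, nat_lit 80, nat_lit 80, nat_lit 41, nat_lit 373,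 nat_lit 150, nat_lit 9]⟩,
 ⟨nat_lit 4472, nat_lit 4744, ⟨.ofNat (nat_lit 569698), .ofNat (nat_lit 709096), .ofNat (nat_lit 591183), .ofNat (nat_lit 730582), .ofNat (nat_lit 567976), .ofNat (nat_lit 703932), .ofNat (nat_lit 589540), .ofNat (nat_lit 725496)⟩, ⟨.ofNat (nat_lit 0), .ofNat (nat_lit 0), .ofNat (nat_lit 0), .ofNat (nat_lit 0), .ofNat (nat_lit 0), .ofNat (nat_lit 0), .ofNat (nat_lit 0), .ofNat (nat_lit 0)⟩⟩, []⟩
noncomputable def p014_l107 : Lf2 := ⟨nat_lit 0, nat_lit 10, [nat_lit 0, nat_lit 5, nat_lit 5, nat_lit 20], false, nat_lit 0, nat_lit 0, nat_lit 0, nat_lit 0, ⟨nat_lit 232, nat_lit 768, nat_lit 0, nat_lit 8, nat_lit 308, nat_lit 0, nat_lit 0, nat_lit 0, nat_lit 0, nat_lit 0, nat_lit 0, nat_lit 0, nat_lit 42040908, nat_lit 24959092, nat_lit 0, nat_lit 3301425, true, true⟩,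
 nat_lit 5719, nat_lit 0, nat_lit 0, nat_lit 0, nat_lit 4122, nat_lit 2450, nat_lit 445, nat_lit 0, nat_lit 0, nat_lit 189, nat_lit 0, nat_lit 0, nat_lit 0, nat_lit 0, nat_lit 0, nat_lit 307200, nat_lit 0, nat_lit 0, [(nat_lit 15, [(nat_lit 1, nat_lit 768)])],
 ⟨p014_k5, nat_lit 0, nat_lit 0, nat_lit 391, nat_lit 0, nat_lit 533765, [nat_lit 2312937600, nat_lit 3258537601, nat_lit 3627687999], [], [nat_lit 28583626148, nat_lit 28746203318, nat_lit 30875872973, nat_lit 31014823345], nat_lit 1271250, nat_lit 1271250, nat_lit 1271250, nat_lit 1271250, nat_lit 0, nat_lit 0, [nat_lit 780000, nat_lit 1435000, nat_lit 1271250], [nat_lit 18, nat_lit 40, nat_lit 80, nat_lit 80, nat_lit 2, nat_lit 203, nat_lit 0, nat_lit 6]⟩, ⟨p014_k31, nat_lit 0, nat_lit 0, nat_lit 695, nat_lit 0, nat_lit 950927, [nat_lit 1450000000, nat_lit 2283344000, nat_lit 2754304000], [], [nat_lit 9821506968, nat_lit 9796510836,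 nat_lit 10238111844, nat_lit 10191740889], nat_lit 1271250, nat_lit 1271250, nat_lit 1271250, nat_lit 1271250, nat_lit 0, nat_lit 0, [nat_lit 1412500, nat_lit 1271250, nat_lit 1271250], [nat_lit 46, nat_lit 40, nat_lit 80, nat_lit 80, nat_lit 41, nat_lit 272, nat_lit 60, nat_lit 7]⟩,
 ⟨nat_lit 4609, nat_lit 4744, ⟨.ofNat (nat_lit 709097), .ofNat (nat_lit 813647), .ofNat (nat_lit 730585), .ofNat (nat_lit 835134), .ofNat (nat_lit 706514), .ofNat (nat_lit 809771), .ofNat (nat_lit 728038), .ofNat (nat_lit 831295)⟩, ⟨.ofNat (nat_lit 0), .ofNat (nat_lit 0), .ofNat (nat_lit 0), .ofNat (nat_lit 0), .ofNat (nat_lit 0), .ofNat (nat_lit 0), .ofNat (nat_lit 0), .ofNat (nat_lit 0)⟩⟩, [⟨nat_lit 13, nat_lit 84, nat_lit 47, nat_lit 100, nat_lit 81106625⟩]⟩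
noncomputable def p014_l108 : Lf2 := ⟨nat_lit 0, nat_lit 10, [nat_lit 0, nat_lit 5, nat_lit 5, nat_lit 20], false, nat_lit 0, nat_lit 0, nat_lit 0, nat_lit 0, ⟨nat_lit 223, nat_lit 777, nat_lit 0, nat_lit 8, nat_lit 306, nat_lit 0, nat_lit 0, nat_lit 0, nat_lit 0, nat_lit 0, nat_lit 0, nat_lit 0, nat_lit 42310926, nat_lit 24689074, nat_lit 0, nat_lit 3290744, true, true⟩,
 nat_lit 5531, nat_lit 0, nat_lit 0, nat_lit 0, nat_lit 4067, nat_lit 2370, nat_lit 415, nat_lit 0, nat_lit 0, nat_lit 183, nat_lit 0, nat_lit 0, nat_lit 0, nat_lit 0, nat_lit 0, nat_lit 310800, nat_lit 0, nat_lit 0, [(nat_lit 15, [(nat_lit 1, nat_lit 777)])],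
 ⟨p014_k39, nat_lit 0, nat_lit 0, nat_lit 394, nat_lit 0, nat_lit 546819, [nat_lit 2301581400, nat_lit 3223481400, nat_lit 3577282000], [], [nat_lit 28591766651, nat_lit 28753739646, nat_lit 30698985539, nat_lit 30839124727], nat_lit 1271250, nat_lit 1271250, nat_lit 1271250, nat_lit 1271250, nat_lit 0, nat_lit 0, [nat_lit 780000, nat_lit 1435000, nat_lit 1271250], [nat_lit 18, nat_lit 40, nat_lit 80, nat_lit 80, nat_lit 2, nat_lit 203, nat_lit 0, nat_lit 6]⟩, ⟨p014_k31, nat_lit 0, nat_lit 0, nat_lit 713, nat_lit 0, nat_lit 995402, [nat_lit 1393750000, nat_lit 2194766000, nat_lit 2647456000], [], [nat_lit 9393001272, nat_lit 9368324444, nat_lit 9767508799, nat_lit 9723551909], nat_lit 1271250, nat_lit 1271250, nat_lit 1271250, nat_lit 1271250, nat_lit 0, nat_lit 0, [nat_lit 1412500, nat_lit 1271250, nat_lit 1271250], [nat_lit 46, nat_lit 40, nat_lit 80, nat_lit 80, nat_lit 41, nat_lit 272,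 nat_lit 60, nat_lit 7]⟩,
 ⟨nat_lit 4472, nat_lit 4610, ⟨.ofNat (nat_lit 706514), .ofNat (nat_lit 802888), .ofNat (nat_lit 728038), .ofNat (nat_lit 824412), .ofNat (nat_lit 703933), .ofNat (nat_lit 799102), .ofNat (nat_lit 725499), .ofNat (nat_lit 820668)⟩, ⟨.ofNat (nat_lit 0), .ofNat (nat_lit 0), .ofNat (nat_lit 0), .ofNat (nat_lit 0), .ofNat (nat_lit 0), .ofNat (nat_lit 0), .ofNat (nat_lit 0), .ofNat (nat_lit 0)⟩⟩, [⟨nat_lit 13, nat_lit 81, nat_lit 55, nat_lit 100, nat_lit 87945524⟩]⟩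
noncomputable def p014_l109 : Lf2 := ⟨nat_lit 0, nat_lit 10, [nat_lit 0, nat_lit 5, nat_lit 5, nat_lit 20], false, nat_lit 0, nat_lit 0, nat_lit 0, nat_lit 0, ⟨nat_lit 1000, nat_lit 0, nat_lit 0, nat_lit 0, nat_lit 0, nat_lit 0, nat_lit 0, nat_lit 0, nat_lit 0, nat_lit 0, nat_lit 0, nat_lit 0, nat_lit 0, nat_lit 0, nat_lit 0, nat_lit 0, false, false⟩,
 nat_lit 17333, nat_lit 0, nat_lit 0, nat_lit 0, nat_lit 6457, nat_lit 8289, nat_lit 791, nat_lit 0, nat_lit 0, nat_lit 2193, nat_lit 0, nat_lit 0, nat_lit 0, nat_lit 0, nat_lit 0, nat_lit 0, nat_lit 0, nat_lit 0, [],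
 ⟨p014_k4, nat_lit 0, nat_lit 0, nat_lit 422, nat_lit 0, nat_lit 620659, [nat_lit 3282000000, nat_lit 6250000000, nat_lit 7968000000], [], [nat_lit 28228074183, nat_lit 28991531179, nat_lit 37284874190, nat_lit 38546951748], nat_lit 1271250, nat_lit 1271250, nat_lit 1271250, nat_lit 1271250, nat_lit 0, nat_lit 0, [nat_lit 780000, nat_lit 1435000, nat_lit 1271250], [nat_lit 18, nat_lit 40, nat_lit 80, nat_lit 80, nat_lit 2, nat_lit 203, nat_lit 0, nat_lit 6]⟩, ⟨p014_k19, nat_lit 0, nat_lit 0, nat_lit 696, nat_lit 0, nat_lit 934479, [nat_lit 6250000000, nat_lit 9842000000, nat_lit 11872000000], [], [nat_lit 34066842128, nat_lit 34141705452, nat_lit 38299173759, nat_lit 38497693498], nat_lit 1271250, nat_lit 1271250, nat_lit 1271250, nat_lit 1271250, nat_lit 0, nat_lit 0, [nat_lit 1412500, nat_lit 1271250, nat_lit 1271250], [nat_lit 46, nat_lit 40, nat_lit 80, nat_lit 80, nat_lit 41, nat_lit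 401, nat_lit 175, nat_lit 10]⟩,
 zbF0, []⟩
noncomputable def b_N_700_500_0_2 : St := ⟨false, nat_lit 1, nat_lit 1, nat_lit 1, nat_lit 40, nat_lit 280, nat_lit 320, nat_lit 200, nat_lit 240, nat_lit 16, nat_lit 396, nat_lit 0, nat_lit 0, nat_lit 0, nat_lit 0, nat_lit 0, nat_lit 0, nat_lit 0, nat_lit 40, nat_lit 0, nat_lit 0, nat_lit 0, nat_lit 0⟩
theorem d_N_700_500_0_2 (h : EB TB.env) : Dead b_N_700_500_0_2 := chkB_sound0 h (T :=
(.spl (nat_lit 2) (nat_lit 240)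
(.spl (nat_lit 2) (nat_lit 120)
(.spl (nat_lit 0) (nat_lit 300)
(.spl (nat_lit 0) (nat_lit 290)
(.spl (nat_lit 0) (nat_lit 285)
(.leaf p014_l91)
(.leaf p014_l92))
(.trZ (nat_lit 0) (nat_lit 100) (nat_lit 89) (nat_lit 45) (nat_lit 20) (.spl (nat_lit 0) (nat_lit 295)
(.leaf p014_l93)
(.trZ (nat_lit 0) (nat_lit 100) (nat_lit 88) (nat_lit 47) (nat_lit 24) (.leaf p014_l94)))))
(.trZ (nat_lit 0) (nat_lit 100) (nat_lit 87) (nat_lit 50) (nat_lit 24) (.leaf p014_l95)))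
(.spl (nat_lit 0) (nat_lit 300)
(.leaf p014_l96)
(.leaf p014_l97)))
(.spl (nat_lit 0) (nat_lit 300)
(.spl (nat_lit 1) (nat_lit 220)
(.trX (nat_lit 13) (nat_lit 92) (nat_lit 31) (nat_lit 100) (nat_lit 392) (.spl (nat_lit 2) (nat_lit 320)
(.leaf p014_l98)
(.spl (nat_lit 6) (nat_lit 20)
(.spl (nat_lit 0) (nat_lit 290)
(.leaf p014_l99)
(.trX (nat_lit 13) (nat_lit 90) (nat_lit 36) (nat_lit 100) (nat_lit 388) (.leaf p014_l100)))
(.spl (nat_lit 0) (nat_lit 290)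
(.leaf p014_l101)
(.trX (nat_lit 13) (nat_lit 90) (nat_lit 36) (nat_lit 100) (nat_lit 388) (.leaf p014_l102))))))
(.leaf p014_l103))
(.trX (nat_lit 13) (nat_lit 88) (nat_lit 32) (nat_lit 100) (nat_lit 392) (.spl (nat_lit 1) (nat_lit 220)
(.trX (nat_lit 13) (nat_lit 87) (nat_lit 41) (nat_lit 100) (nat_lit 384) (.spl (nat_lit 0) (nat_lit 310)
(.spl (nat_lit 2) (nat_lit 320)
(.leaf p014_l104)
(.leaf p014_l105))
(.trX (nat_lit 13) (nat_lit 84) (nat_lit 47) (nat_lit 100) (nat_lit 380) (.spl (nat_lit 2) (nat_lit 320)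
(.leaf p014_l106)
(.spl (nat_lit 0) (nat_lit 315)
(.leaf p014_l107)
(.trX (nat_lit 13) (nat_lit 82) (nat_lit 49) (nat_lit 100) (nat_lit 376) (.leaf p014_l108)))))))
(.leaf p014_l109)))))) (by decide +kernel)
noncomputable def p014_l110 : Lf2 := ⟨nat_lit 0, nat_lit 10, [nat_lit 0, nat_lit 5, nat_lit 5, nat_lit 20], true, nat_lit 0, nat_lit 0, nat_lit 0, nat_lit 0, ⟨nat_lit 0, nat_lit 1000, nat_lit 0, nat_lit 5, nat_lit 96, nat_lit 0, nat_lit 0, nat_lit 0, nat_lit 0, nat_lit 0, nat_lit 0, nat_lit 0, nat_lit 0, nat_lit 0, nat_lit 0, nat_lit 5000000, false, false⟩,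
 nat_lit 0, nat_lit 8357, nat_lit 0, nat_lit 0, nat_lit 5317, nat_lit 0, nat_lit 75, nat_lit 0, nat_lit 0, nat_lit 0, nat_lit 0, nat_lit 0, nat_lit 0, nat_lit 0, nat_lit 12, nat_lit 1000000, nat_lit 0, nat_lit 0, [(nat_lit 12, [(nat_lit 2, nat_lit 1000)])],
 ⟨p014_k0, nat_lit 0, nat_lit 0, nat_lit 525, nat_lit 0, nat_lit 526238, [nat_lit 2479200001, nat_lit 2186400000, nat_lit 42000000], [], [nat_lit 21389201405, nat_lit 21839144159, nat_lit 19942273145, nat_lit 20368427733], nat_lit 1271250, nat_lit 1271250, nat_lit 88400, nat_lit 490000, nat_lit 0, nat_lit 0, [nat_lit 780000, nat_lit 1435000, nat_lit 1271250], [nat_lit 8, nat_lit 40, nat_lit 80, nat_lit 80, nat_lit 1, nat_lit 226, nat_lit 20, nat_lit 7]⟩, C1.Rw.none,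
 ⟨nat_lit 5244, nat_lit 5478, ⟨.ofNat (nat_lit 155307), .ofNat (nat_lit 275199), .ofNat (nat_lit 198021), .ofNat (nat_lit 317913), .ofNat (nat_lit 163411), .ofNat (nat_lit 280485), .ofNat (nat_lit 206182), .ofNat (nat_lit 323256)⟩, ⟨.ofNat (nat_lit 0), .ofNat (nat_lit 0), .ofNat (nat_lit 0), .ofNat (nat_lit 0), .ofNat (nat_lit 0), .ofNat (nat_lit 0), .ofNat (nat_lit 0), .ofNat (nat_lit 0)⟩⟩, []⟩
noncomputable def p014_l111 : Lf2 := ⟨nat_lit 0, nat_lit 10, [nat_lit 0, nat_lit 5, nat_lit 5, nat_lit 20], true, nat_lit 0, nat_lit 0, nat_lit 0, nat_lit 0, ⟨nat_lit 0, nat_lit 1000, nat_lit 0, nat_lit 5, nat_lit 134, nat_lit 0, nat_lit 0, nat_lit 0, nat_lit 0, nat_lit 0, nat_lit 0, nat_lit 0, nat_lit 0, nat_lit 0, nat_lit 0, nat_lit 5000000, false, false⟩,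
 nat_lit 0, nat_lit 9469, nat_lit 0, nat_lit 0, nat_lit 6025, nat_lit 0, nat_lit 183, nat_lit 0, nat_lit 0, nat_lit 0, nat_lit 0, nat_lit 0, nat_lit 0, nat_lit 0, nat_lit 12, nat_lit 1000000, nat_lit 0, nat_lit 0, [(nat_lit 12, [(nat_lit 2, nat_lit 1000)])],
 ⟨p014_k0, nat_lit 0, nat_lit 0, nat_lit 708, nat_lit 0, nat_lit 992279, [nat_lit 2479200001, nat_lit 2186400000, nat_lit 42000000], [], [nat_lit 17949544601, nat_lit 18310422600, nat_lit 18038633704, nat_lit 18237467866], nat_lit 1271250, nat_lit 1271250, nat_lit 490000, nat_lit 780000, nat_lit 0, nat_lit 0, [nat_lit 780000, nat_lit 1435000, nat_lit 1271250], [nat_lit 8, nat_lit 40, nat_lit 80, nat_lit 80, nat_lit 1, nat_lit 238, nat_lit 30, nat_lit 7]⟩, C1.Rw.none,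
 ⟨nat_lit 5244, nat_lit 5478, ⟨.ofNat (nat_lit 275199), .ofNat (nat_lit 350132), .ofNat (nat_lit 317913), .ofNat (nat_lit 392847), .ofNat (nat_lit 280485), .ofNat (nat_lit 353656), .ofNat (nat_lit 323256), .ofNat (nat_lit 396427)⟩, ⟨.ofNat (nat_lit 0), .ofNat (nat_lit 0), .ofNat (nat_lit 0), .ofNat (nat_lit 0), .ofNat (nat_lit 0), .ofNat (nat_lit 0), .ofNat (nat_lit 0), .ofNat (nat_lit 0)⟩⟩, []⟩
noncomputable def p014_l112 : Lf2 := ⟨nat_lit 0, nat_lit 10, [nat_lit 0, nat_lit 5, nat_lit 5, nat_lit 20], true, nat_lit 0, nat_lit 0, nat_lit 0, nat_lit 0, ⟨nat_lit 0, nat_lit 1000, nat_lit 0, nat_lit 5, nat_lit 115, nat_lit 0, nat_lit 0, nat_lit 0, nat_lit 0, nat_lit 0, nat_lit 0, nat_lit 0, nat_lit 0, nat_lit 0, nat_lit 0, nat_lit 5000000, false, false⟩,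
 nat_lit 0, nat_lit 7506, nat_lit 0, nat_lit 0, nat_lit 4984, nat_lit 0, nat_lit 2066, nat_lit 0, nat_lit 0, nat_lit 0, nat_lit 0, nat_lit 0, nat_lit 0, nat_lit 0, nat_lit 0, nat_lit 400000, nat_lit 0, nat_lit 0, [(nat_lit 12, [(nat_lit 1, nat_lit 1000)])],
 ⟨p014_k23, nat_lit 0, nat_lit 0, nat_lit 682, nat_lit 0, nat_lit 1024989, [nat_lit 2068400000, nat_lit 2721200001, nat_lit 2682000000], [], [nat_lit 20377427799, nat_lit 20823464489, nat_lit 19872375089, nat_lit 20324681128], nat_lit 1271250, nat_lit 1271250, nat_lit 111251, nat_lit 780000, nat_lit 0, nat_lit 0, [nat_lit 780000, nat_lit 1435000, nat_lit 1271250], [nat_lit 18, nat_lit 40, nat_lit 80, nat_lit 80, nat_lit 2, nat_lit 238, nat_lit 30, nat_lit 8]⟩, C1.Rw.none,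
 ⟨nat_lit 5000, nat_lit 5245, ⟨.ofNat (nat_lit 170728), .ofNat (nat_lit 353656), .ofNat (nat_lit 213499), .ofNat (nat_lit 396427), .ofNat (nat_lit 178570), .ofNat (nat_lit 357141), .ofNat (nat_lit 221427), .ofNat (nat_lit 399998)⟩, ⟨.ofNat (nat_lit 0), .ofNat (nat_lit 0), .ofNat (nat_lit 0), .ofNat (nat_lit 0), .ofNat (nat_lit 0), .ofNat (nat_lit 0), .ofNat (nat_lit 0), .ofNat (nat_lit 0)⟩⟩, [⟨nat_lit 0, nat_lit 100, nat_lit 88, nat_lit 68, nat_lit 9112045⟩]⟩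
noncomputable def p014_l113 : Lf2 := ⟨nat_lit 0, nat_lit 10, [nat_lit 0, nat_lit 5, nat_lit 5, nat_lit 20], true, nat_lit 0, nat_lit 0, nat_lit 0, nat_lit 0, ⟨nat_lit 0, nat_lit 1000, nat_lit 0, nat_lit 5, nat_lit 119, nat_lit 0, nat_lit 0, nat_lit 0, nat_lit 0, nat_lit 0, nat_lit 0, nat_lit 0, nat_lit 0, nat_lit 0, nat_lit 0, nat_lit 5000000, false, false⟩,
 nat_lit 0, nat_lit 7075, nat_lit 0, nat_lit 0, nat_lit 4898, nat_lit 0, nat_lit 761, nat_lit 0, nat_lit 0, nat_lit 0, nat_lit 0, nat_lit 0, nat_lit 0, nat_lit 0, nat_lit 0, nat_lit 400000, nat_lit 0, nat_lit 0, [(nat_lit 15, [(nat_lit 1, nat_lit 1000)])],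
 ⟨p014_k4, nat_lit 0, nat_lit 0, nat_lit 741, nat_lit 0, nat_lit 1145621, [nat_lit 2020200000, nat_lit 2354866667, nat_lit 2328333333], [], [nat_lit 22102113975, nat_lit 22881406491, nat_lit 21665153210, nat_lit 22459447928], nat_lit 1271250, nat_lit 1271250, nat_lit 134400, nat_lit 780000, nat_lit 0, nat_lit 0, [nat_lit 780000, nat_lit 1435000, nat_lit 1271250], [nat_lit 18, nat_lit 40, nat_lit 80, nat_lit 80, nat_lit 2, nat_lit 241, nat_lit 30, nat_lit 8]⟩, C1.Rw.none,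
 ⟨nat_lit 4472, nat_lit 5000, ⟨.ofNat (nat_lit 185713), .ofNat (nat_lit 357141), .ofNat (nat_lit 228562), .ofNat (nat_lit 399984), .ofNat (nat_lit 200895), .ofNat (nat_lit 364042), .ofNat (nat_lit 244020), .ofNat (nat_lit 407160)⟩, ⟨.ofNat (nat_lit 0), .ofNat (nat_lit 0), .ofNat (nat_lit 0), .ofNat (nat_lit 0), .ofNat (nat_lit 0), .ofNat (nat_lit 0), .ofNat (nat_lit 0), .ofNat (nat_lit 0)⟩⟩, []⟩
noncomputable def p014_l114 : Lf2 := ⟨nat_lit 0, nat_lit 10, [nat_lit 0, nat_lit 5, nat_lit 5, nat_lit 20], true, nat_lit 0, nat_lit 0, nat_lit 0, nat_lit 0, ⟨nat_lit 0, nat_lit 1000, nat_lit 0, nat_lit 5, nat_lit 190, nat_lit 0, nat_lit 0, nat_lit 0, nat_lit 0, nat_lit 0, nat_lit 0, nat_lit 0, nat_lit 0, nat_lit 0, nat_lit 0, nat_lit 5000000, false, false⟩,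
 nat_lit 0, nat_lit 8701, nat_lit 0, nat_lit 0, nat_lit 5536, nat_lit 0, nat_lit 138, nat_lit 0, nat_lit 0, nat_lit 0, nat_lit 0, nat_lit 0, nat_lit 0, nat_lit 0, nat_lit 12, nat_lit 1000000, nat_lit 0, nat_lit 0, [(nat_lit 12, [(nat_lit 2, nat_lit 1000)])],
 ⟨p014_k0, nat_lit 0, nat_lit 0, nat_lit 651, nat_lit 0, nat_lit 957327, [nat_lit 2479200001, nat_lit 2186400000, nat_lit 42000000], [], [nat_lit 20047928305, nat_lit 20684091953, nat_lit 22403607587, nat_lit 21728688133], nat_lit 1271250, nat_lit 1271250, nat_lit 780000, nat_lit 1762500, nat_lit 0, nat_lit 0, [nat_lit 780000, nat_lit 1435000, nat_lit 1271250], [nat_lit 8, nat_lit 40, nat_lit 80, nat_lit 80, nat_lit 1, nat_lit 272, nat_lit 60, nat_lit 8]⟩, C1.Rw.none,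
 ⟨nat_lit 5000, nat_lit 5478, ⟨.ofNat (nat_lit 350132), .ofNat (nat_lit 574920), .ofNat (nat_lit 371489), .ofNat (nat_lit 596267), .ofNat (nat_lit 357141), .ofNat (nat_lit 571415), .ofNat (nat_lit 378570), .ofNat (nat_lit 592834)⟩, ⟨.ofNat (nat_lit 0), .ofNat (nat_lit 0), .ofNat (nat_lit 0), .ofNat (nat_lit 0), .ofNat (nat_lit 0), .ofNat (nat_lit 0), .ofNat (nat_lit 0), .ofNat (nat_lit 0)⟩⟩, []⟩
noncomputable def p014_l115 : Lf2 := ⟨nat_lit 0, nat_lit 10, [nat_lit 0, nat_lit 5, nat_lit 5, nat_lit 20], false, nat_lit 0, nat_lit 0, nat_lit 0, nat_lit 0, ⟨nat_lit 303, nat_lit 697, nat_lit 0, nat_lit 5, nat_lit 198, nat_lit 0, nat_lit 0, nat_lit 0, nat_lit 0, nat_lit 0, nat_lit 0, nat_lit 0, nat_lit 0, nat_lit 0, nat_lit 0, nat_lit 5000000, false, false⟩,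
 nat_lit 0, nat_lit 10033, nat_lit 0, nat_lit 0, nat_lit 6384, nat_lit 3374, nat_lit 204, nat_lit 0, nat_lit 0, nat_lit 2410, nat_lit 0, nat_lit 0, nat_lit 0, nat_lit 0, nat_lit 0, nat_lit 697000, nat_lit 0, nat_lit 0, [(nat_lit 12, [(nat_lit 2, nat_lit 697)])],
 ⟨p014_k0, nat_lit 0, nat_lit 0, nat_lit 671, nat_lit 0, nat_lit 992279, [nat_lit 2622080401, nat_lit 3250390800, nat_lit 2777208000], [], [nat_lit 23104107260, nat_lit 23418802288, nat_lit 23996769616, nat_lit 24299081784], nat_lit 1271250, nat_lit 1271250, nat_lit 780000, nat_lit 1762500, nat_lit 0, nat_lit 0, [nat_lit 780000, nat_lit 1435000, nat_lit 1271250], [nat_lit 8, nat_lit 40, nat_lit 80, nat_lit 80, nat_lit 1, nat_lit 272, nat_lit 60, nat_lit 8]⟩, ⟨p014_k19, nat_lit 0, nat_lit 0, nat_lit 210, nat_lit 0, nat_lit 0, [nat_lit 1893750000, nat_lit 2982126000, nat_lit 3597216000], [], [nat_lit 3351173705, nat_lit 3869790360,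 nat_lit 5382481540, nat_lit 6049772184], nat_lit 0, nat_lit 0, nat_lit 0, nat_lit 0, nat_lit 0, nat_lit 0, [], [nat_lit 46, nat_lit 40, nat_lit 80, nat_lit 80, nat_lit 41, nat_lit 345, nat_lit 125, nat_lit 9]⟩,
 ⟨nat_lit 5244, nat_lit 5478, ⟨.ofNat (nat_lit 371489), .ofNat (nat_lit 596283), .ofNat (nat_lit 392847), .ofNat (nat_lit 617638), .ofNat (nat_lit 375042), .ofNat (nat_lit 594550), .ofNat (nat_lit 396427), .ofNat (nat_lit 615933)⟩, ⟨.ofNat (nat_lit 0), .ofNat (nat_lit 0), .ofNat (nat_lit 0), .ofNat (nat_lit 0), .ofNat (nat_lit 0), .ofNat (nat_lit 0), .ofNat (nat_lit 0), .ofNat (nat_lit 0)⟩⟩, []⟩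
noncomputable def p014_l116 : Lf2 := ⟨nat_lit 0, nat_lit 10, [nat_lit 0, nat_lit 5, nat_lit 5, nat_lit 20], true, nat_lit 0, nat_lit 0, nat_lit 0, nat_lit 0, ⟨nat_lit 0, nat_lit 1000, nat_lit 0, nat_lit 5, nat_lit 198, nat_lit 0, nat_lit 0, nat_lit 0, nat_lit 0, nat_lit 0, nat_lit 0, nat_lit 0, nat_lit 0, nat_lit 0, nat_lit 0, nat_lit 5000000, false, false⟩,
 nat_lit 0, nat_lit 7605, nat_lit 0, nat_lit 0, nat_lit 5050, nat_lit 0, nat_lit 2101, nat_lit 0, nat_lit 0, nat_lit 0, nat_lit 0, nat_lit 0, nat_lit 0, nat_lit 0, nat_lit 0, nat_lit 400000, nat_lit 0, nat_lit 0, [(nat_lit 12, [(nat_lit 1, nat_lit 1000)])],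
 ⟨p014_k23, nat_lit 0, nat_lit 0, nat_lit 623, nat_lit 0, nat_lit 1024989, [nat_lit 2068400000, nat_lit 2721200001, nat_lit 2682000000], [], [nat_lit 18388153051, nat_lit 18843755751, nat_lit 20694141400, nat_lit 21117039200], nat_lit 1271250, nat_lit 1271250, nat_lit 780000, nat_lit 1762500, nat_lit 0, nat_lit 0, [nat_lit 780000, nat_lit 1435000, nat_lit 1271250], [nat_lit 18, nat_lit 40, nat_lit 80, nat_lit 80, nat_lit 2, nat_lit 272, nat_lit 60, nat_lit 9]⟩, C1.Rw.none,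
 ⟨nat_lit 5000, nat_lit 5245, ⟨.ofNat (nat_lit 375042), .ofNat (nat_lit 594550), .ofNat (nat_lit 396427), .ofNat (nat_lit 615934), .ofNat (nat_lit 378570), .ofNat (nat_lit 592851), .ofNat (nat_lit 399998), .ofNat (nat_lit 614277)⟩, ⟨.ofNat (nat_lit 0), .ofNat (nat_lit 0), .ofNat (nat_lit 0), .ofNat (nat_lit 0), .ofNat (nat_lit 0), .ofNat (nat_lit 0), .ofNat (nat_lit 0), .ofNat (nat_lit 0)⟩⟩, []⟩
noncomputable def p014_l117 : Lf2 := ⟨nat_lit 0, nat_lit 10, [nat_lit 0, nat_lit 5, nat_lit 5, nat_lit 20], false, nat_lit 0, nat_lit 0, nat_lit 0, nat_lit 0, ⟨nat_lit 1000, nat_lit 0, nat_lit 0, nat_lit 0, nat_lit 0, nat_lit 0, nat_lit 0, nat_lit 0, nat_lit 0, nat_lit 0, nat_lit 0, nat_lit 0, nat_lit 0, nat_lit 0, nat_lit 0, nat_lit 0, false, false⟩,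
 nat_lit 0, nat_lit 10462, nat_lit 0, nat_lit 0, nat_lit 6657, nat_lit 7196, nat_lit 776, nat_lit 0, nat_lit 0, nat_lit 2377, nat_lit 0, nat_lit 0, nat_lit 0, nat_lit 0, nat_lit 0, nat_lit 0, nat_lit 0, nat_lit 0, [],
 ⟨p014_k0, nat_lit 0, nat_lit 0, nat_lit 580, nat_lit 0, nat_lit 861214, [nat_lit 3282000000, nat_lit 6250000000, nat_lit 9842000000], [], [nat_lit 35130380196, nat_lit 35386876525, nat_lit 40256038980, nat_lit 40505885690], nat_lit 1271250, nat_lit 1271250, nat_lit 1271250, nat_lit 1271250, nat_lit 0, nat_lit 0, [nat_lit 780000, nat_lit 1435000, nat_lit 1271250], [nat_lit 8, nat_lit 40, nat_lit 80, nat_lit 80, nat_lit 1, nat_lit 317, nat_lit 100, nat_lit 9]⟩, ⟨p014_k31, nat_lit 0, nat_lit 0, nat_lit 267, nat_lit 0, nat_lit 0, [nat_lit 6250000000, nat_lit 9842000000, nat_lit 11872000000], [], [nat_lit 30091734544, nat_lit 30865259568, nat_lit 40162113279, nat_lit 40504681807],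 nat_lit 0, nat_lit 0, nat_lit 0, nat_lit 0, nat_lit 0, nat_lit 0, [], [nat_lit 46, nat_lit 40, nat_lit 80, nat_lit 80, nat_lit 41, nat_lit 401, nat_lit 175, nat_lit 10]⟩,
 zbF0, []⟩
noncomputable def p014_l118 : Lf2 := ⟨nat_lit 0, nat_lit 10, [nat_lit 0, nat_lit 5, nat_lit 5, nat_lit 20], false, nat_lit 0, nat_lit 0, nat_lit 0, nat_lit 0, ⟨nat_lit 1000, nat_lit 0, nat_lit 0, nat_lit 0, nat_lit 0, nat_lit 0, nat_lit 0, nat_lit 0, nat_lit 0, nat_lit 0, nat_lit 0, nat_lit 0, nat_lit 0, nat_lit 0, nat_lit 0, nat_lit 0, false, false⟩,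
 nat_lit 0, nat_lit 9388, nat_lit 0, nat_lit 0, nat_lit 6234, nat_lit 8208, nat_lit 1696, nat_lit 0, nat_lit 0, nat_lit 1068, nat_lit 0, nat_lit 0, nat_lit 0, nat_lit 0, nat_lit 0, nat_lit 0, nat_lit 0, nat_lit 0, [],
 ⟨p014_k23, nat_lit 0, nat_lit 0, nat_lit 534, nat_lit 0, nat_lit 904144, [nat_lit 3282000000, nat_lit 6250000000, nat_lit 7968000000], [], [nat_lit 32466554542, nat_lit 32730749524, nat_lit 36124184644, nat_lit 36292384749], nat_lit 1271250, nat_lit 1271250, nat_lit 1271250, nat_lit 1271250, nat_lit 0, nat_lit 0, [nat_lit 780000, nat_lit 1435000, nat_lit 1271250], [nat_lit 18, nat_lit 40, nat_lit 80, nat_lit 80, nat_lit 2, nat_lit 220, nat_lit 0, nat_lit 7]⟩, ⟨p014_k31, nat_lit 0, nat_lit 0, nat_lit 265, nat_lit 0, nat_lit 0, [nat_lit 6250000000, nat_lit 9842000000, nat_lit 11872000000], [], [nat_lit 29727270624, nat_lit 30394978320, nat_lit 40719624352, nat_lit 41066721964],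 nat_lit 0, nat_lit 0, nat_lit 0, nat_lit 0, nat_lit 0, nat_lit 0, [], [nat_lit 46, nat_lit 40, nat_lit 80, nat_lit 80, nat_lit 41, nat_lit 401, nat_lit 175, nat_lit 10]⟩,
 zbF0, []⟩
noncomputable def p014_l119 : Lf2 := ⟨nat_lit 0, nat_lit 10, [nat_lit 0, nat_lit 5, nat_lit 5, nat_lit 20], false, nat_lit 0, nat_lit 0, nat_lit 0, nat_lit 0, ⟨nat_lit 1000, nat_lit 0, nat_lit 0, nat_lit 0, nat_lit 0, nat_lit 0, nat_lit 0, nat_lit 0, nat_lit 0, nat_lit 0, nat_lit 0, nat_lit 0, nat_lit 0, nat_lit 0, nat_lit 0, nat_lit 0, false, false⟩,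
 nat_lit 0, nat_lit 11711, nat_lit 0, nat_lit 0, nat_lit 7452, nat_lit 7407, nat_lit 763, nat_lit 0, nat_lit 0, nat_lit 2973, nat_lit 0, nat_lit 0, nat_lit 0, nat_lit 0, nat_lit 0, nat_lit 0, nat_lit 0, nat_lit 0, [],
 ⟨p014_k0, nat_lit 0, nat_lit 0, nat_lit 628, nat_lit 0, nat_lit 992279, [nat_lit 3282000000, nat_lit 6250000000, nat_lit 9842000000], [], [nat_lit 34811597799, nat_lit 35071159652, nat_lit 39511759794, nat_lit 39695930256], nat_lit 1271250, nat_lit 1271250, nat_lit 1271250, nat_lit 1271250, nat_lit 0, nat_lit 0, [nat_lit 780000, nat_lit 1435000, nat_lit 1271250], [nat_lit 8, nat_lit 40, nat_lit 80, nat_lit 80, nat_lit 1, nat_lit 317, nat_lit 100, nat_lit 9]⟩, ⟨p014_k19, nat_lit 0, nat_lit 0, nat_lit 266, nat_lit 0, nat_lit 0, [nat_lit 6250000000, nat_lit 9842000000, nat_lit 11872000000], [], [nat_lit 25905505756, nat_lit 26686298464, nat_lit 36353680939, nat_lit 36817342145],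 nat_lit 0, nat_lit 0, nat_lit 0, nat_lit 0, nat_lit 0, nat_lit 0, [], [nat_lit 46, nat_lit 40, nat_lit 80, nat_lit 80, nat_lit 41, nat_lit 401, nat_lit 175, nat_lit 10]⟩,
 zbF0, []⟩
noncomputable def p014_l120 : Lf2 := ⟨nat_lit 0, nat_lit 10, [nat_lit 0, nat_lit 5, nat_lit 5, nat_lit 20], false, nat_lit 0, nat_lit 0, nat_lit 0, nat_lit 0, ⟨nat_lit 1000, nat_lit 0, nat_lit 0, nat_lit 0, nat_lit 0, nat_lit 0, nat_lit 0, nat_lit 0, nat_lit 0, nat_lit 0, nat_lit 0, nat_lit 0, nat_lit 0, nat_lit 0, nat_lit 0, nat_lit 0, false, false⟩,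
 nat_lit 0, nat_lit 9364, nat_lit 0, nat_lit 0, nat_lit 6218, nat_lit 7745, nat_lit 1594, nat_lit 0, nat_lit 0, nat_lit 1279, nat_lit 0, nat_lit 0, nat_lit 0, nat_lit 0, nat_lit 0, nat_lit 0, nat_lit 0, nat_lit 0, [],
 ⟨p014_k23, nat_lit 0, nat_lit 0, nat_lit 578, nat_lit 0, nat_lit 1024989, [nat_lit 3282000000, nat_lit 6250000000, nat_lit 7968000000], [], [nat_lit 33022462834, nat_lit 33286507048, nat_lit 36910680603, nat_lit 37073613868], nat_lit 1271250, nat_lit 1271250, nat_lit 1271250, nat_lit 1271250, nat_lit 0, nat_lit 0, [nat_lit 780000, nat_lit 1435000, nat_lit 1271250], [nat_lit 18, nat_lit 40, nat_lit 80, nat_lit 80, nat_lit 2, nat_lit 232, nat_lit 0, nat_lit 7]⟩, ⟨p014_k19, nat_lit 0, nat_lit 0, nat_lit 266, nat_lit 0, nat_lit 0, [nat_lit 6250000000, nat_lit 9842000000, nat_lit 11872000000], [], [nat_lit 28345207425, nat_lit 29003695865, nat_lit 39373456352, nat_lit 39799677078],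 nat_lit 0, nat_lit 0, nat_lit 0, nat_lit 0, nat_lit 0, nat_lit 0, [], [nat_lit 46, nat_lit 40, nat_lit 80, nat_lit 80, nat_lit 41, nat_lit 401, nat_lit 175, nat_lit 10]⟩,
 zbF0, []⟩
noncomputable def p014_l121 : Lf2 := ⟨nat_lit 0, nat_lit 10, [nat_lit 0, nat_lit 5, nat_lit 5, nat_lit 20], false, nat_lit 0, nat_lit 0, nat_lit 0, nat_lit 0, ⟨nat_lit 1000, nat_lit 0, nat_lit 0, nat_lit 0, nat_lit 0, nat_lit 0, nat_lit 0, nat_lit 0, nat_lit 0, nat_lit 0, nat_lit 0, nat_lit 0, nat_lit 0, nat_lit 0, nat_lit 0, nat_lit 0, false, false⟩,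
 nat_lit 0, nat_lit 9065, nat_lit 0, nat_lit 0, nat_lit 6275, nat_lit 9325, nat_lit 1628, nat_lit 0, nat_lit 0, nat_lit 1106, nat_lit 0, nat_lit 0, nat_lit 0, nat_lit 0, nat_lit 0, nat_lit 0, nat_lit 0, nat_lit 0, [],
 ⟨p014_k4, nat_lit 0, nat_lit 0, nat_lit 636, nat_lit 0, nat_lit 1056108, [nat_lit 3282000000, nat_lit 6250000000, nat_lit 7968000000], [], [nat_lit 24561149750, nat_lit 24944632500, nat_lit 36807387836, nat_lit 37429598468], nat_lit 1271250, nat_lit 1271250, nat_lit 780000, nat_lit 3007000, nat_lit 0, nat_lit 0, [nat_lit 780000, nat_lit 1435000, nat_lit 1271250], [nat_lit 18, nat_lit 40, nat_lit 80, nat_lit 80, nat_lit 2, nat_lit 317, nat_lit 100, nat_lit 10]⟩, ⟨p014_k31, nat_lit 0, nat_lit 0, nat_lit 267, nat_lit 0, nat_lit 0, [nat_lit 6250000000, nat_lit 9842000000, nat_lit 11872000000], [], [nat_lit 26259350800, nat_lit 28183858450, nat_lit 42157520050, nat_lit 42950723790],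 nat_lit 0, nat_lit 0, nat_lit 0, nat_lit 0, nat_lit 0, nat_lit 0, [], [nat_lit 46, nat_lit 40, nat_lit 80, nat_lit 80, nat_lit 41, nat_lit 401, nat_lit 175, nat_lit 11]⟩,
 zbF0, []⟩
noncomputable def p014_l122 : Lf2 := ⟨nat_lit 0, nat_lit 10, [nat_lit 0, nat_lit 5, nat_lit 5, nat_lit 20], false, nat_lit 0, nat_lit 0, nat_lit 0, nat_lit 0, ⟨nat_lit 1000, nat_lit 0, nat_lit 0, nat_lit 0, nat_lit 0, nat_lit 0, nat_lit 0, nat_lit 0, nat_lit 0, nat_lit 0, nat_lit 0, nat_lit 0, nat_lit 0, nat_lit 0, nat_lit 0, nat_lit 0, false, false⟩,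
 nat_lit 0, nat_lit 8514, nat_lit 0, nat_lit 0, nat_lit 6137, nat_lit 9325, nat_lit 1321, nat_lit 0, nat_lit 0, nat_lit 1196, nat_lit 0, nat_lit 0, nat_lit 0, nat_lit 0, nat_lit 0, nat_lit 0, nat_lit 0, nat_lit 0, [],
 ⟨p014_k5, nat_lit 0, nat_lit 0, nat_lit 648, nat_lit 0, nat_lit 1085577, [nat_lit 3282000000, nat_lit 6250000000, nat_lit 7968000000], [], [nat_lit 25050456988, nat_lit 25433325243, nat_lit 36665237494, nat_lit 37292678616], nat_lit 1271250, nat_lit 1271250, nat_lit 780000, nat_lit 2974250, nat_lit 0, nat_lit 0, [nat_lit 780000, nat_lit 1435000, nat_lit 1271250], [nat_lit 18, nat_lit 40, nat_lit 80, nat_lit 80, nat_lit 2, nat_lit 317, nat_lit 100, nat_lit 10]⟩, ⟨p014_k31, nat_lit 0, nat_lit 0, nat_lit 265, nat_lit 0, nat_lit 0, [nat_lit 6250000000, nat_lit 9842000000, nat_lit 11872000000], [], [nat_lit 25899350800, nat_lit 27823858450, nat_lit 41636287075, nat_lit 42539335336],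 nat_lit 0, nat_lit 0, nat_lit 0, nat_lit 0, nat_lit 0, nat_lit 0, [], [nat_lit 46, nat_lit 40, nat_lit 80, nat_lit 80, nat_lit 41, nat_lit 401, nat_lit 175, nat_lit 11]⟩,
 zbF0, []⟩
noncomputable def p014_l123 : Lf2 := ⟨nat_lit 0, nat_lit 10, [nat_lit 0, nat_lit 5, nat_lit 5, nat_lit 20], false, nat_lit 0, nat_lit 0, nat_lit 0, nat_lit 0, ⟨nat_lit 92, nat_lit 908, nat_lit 0, nat_lit 5, nat_lit 157, nat_lit 0, nat_lit 0, nat_lit 0, nat_lit 0, nat_lit 0, nat_lit 0, nat_lit 0, nat_lit 0, nat_lit 0, nat_lit 0, nat_lit 5000000, false, false⟩,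
 nat_lit 5937, nat_lit 2593, nat_lit 0, nat_lit 0, nat_lit 5427, nat_lit 2544, nat_lit 181, nat_lit 0, nat_lit 0, nat_lit 328, nat_lit 0, nat_lit 0, nat_lit 0, nat_lit 0, nat_lit 0, nat_lit 908000, nat_lit 0, nat_lit 0, [(nat_lit 12, [(nat_lit 2, nat_lit 908)]), (nat_lit 15, [(nat_lit 2, nat_lit 908)])],
 ⟨p014_k0, nat_lit 0, nat_lit 0, nat_lit 612, nat_lit 0, nat_lit 680476, [nat_lit 2422305601, nat_lit 2342331200, nat_lit 638512000], [], [nat_lit 23248152343, nat_lit 24858547406, nat_lit 29324729764, nat_lit 24472991764], nat_lit 1271250, nat_lit 1271250, nat_lit 88400, nat_lit 1704000, nat_lit 0, nat_lit 0, [nat_lit 780000, nat_lit 1435000, nat_lit 1271250], [nat_lit 8, nat_lit 40, nat_lit 80, nat_lit 80, nat_lit 1, nat_lit 272, nat_lit 60, nat_lit 8]⟩, ⟨p014_k31, nat_lit 0, nat_lit 0, nat_lit 887, nat_lit 0, nat_lit 1058127, [nat_lit 575000000, nat_lit 905464000, nat_lit 1092224000],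 [], [nat_lit 3977902951, nat_lit 4482023821, nat_lit 5259573168, nat_lit 2863357408], nat_lit 1271250, nat_lit 1271250, nat_lit 88400, nat_lit 1704000, nat_lit 0, nat_lit 0, [nat_lit 1412500, nat_lit 1271250, nat_lit 1271250], [nat_lit 46, nat_lit 40, nat_lit 80, nat_lit 80, nat_lit 41, nat_lit 345, nat_lit 125, nat_lit 9]⟩,
 ⟨nat_lit 4472, nat_lit 5478, ⟨.ofNat (nat_lit 155307), .ofNat (nat_lit 574895), .ofNat (nat_lit 198021), .ofNat (nat_lit 617523), .ofNat (nat_lit 187299), .ofNat (nat_lit 567940), .ofNat (nat_lit 230432), .ofNat (nat_lit 610987)⟩, ⟨.ofNat (nat_lit 0), .ofNat (nat_lit 0), .ofNat (nat_lit 0), .ofNat (nat_lit 0), .ofNat (nat_lit 0), .ofNat (nat_lit 0), .ofNat (nat_lit 0), .ofNat (nat_lit 0)⟩⟩, []⟩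
noncomputable def p014_l124 : Lf2 := ⟨nat_lit 0, nat_lit 10, [nat_lit 0, nat_lit 5, nat_lit 5, nat_lit 20], false, nat_lit 0, nat_lit 0, nat_lit 0, nat_lit 0, ⟨nat_lit 309, nat_lit 691, nat_lit 0, nat_lit 6, nat_lit 293, nat_lit 0, nat_lit 0, nat_lit 0, nat_lit 0, nat_lit 0, nat_lit 0, nat_lit 0, nat_lit 0, nat_lit 0, nat_lit 0, nat_lit 5000000, true, true⟩,
 nat_lit 7644, nat_lit 0, nat_lit 0, nat_lit 0, nat_lit 4864, nat_lit 3275, nat_lit 190, nat_lit 0, nat_lit 0, nat_lit 331, nat_lit 0, nat_lit 0, nat_lit 0, nat_lit 0, nat_lit 0, nat_lit 691000, nat_lit 0, nat_lit 0, [(nat_lit 12, [(nat_lit 2, nat_lit 691)]), (nat_lit 15, [(nat_lit 2, nat_lit 691)])],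
 ⟨p014_k0, nat_lit 0, nat_lit 0, nat_lit 490, nat_lit 0, nat_lit 680476, [nat_lit 2627761201, nat_lit 3276212400, nat_lit 2838024000], [], [nat_lit 28906324791, nat_lit 30179884401, nat_lit 33703956585, nat_lit 34555515073], nat_lit 1271250, nat_lit 1271250, nat_lit 1271250, nat_lit 1271250, nat_lit 0, nat_lit 0, [nat_lit 780000, nat_lit 1435000, nat_lit 1271250], [nat_lit 8, nat_lit 40, nat_lit 80, nat_lit 80, nat_lit 1, nat_lit 317, nat_lit 100, nat_lit 9]⟩, ⟨p014_k31, nat_lit 0, nat_lit 0, nat_lit 754, nat_lit 0, nat_lit 1058127, [nat_lit 1931250000, nat_lit 3041178000, nat_lit 3668448000], [], [nat_lit 13121966124, nat_lit 13017913372, nat_lit 13802255385, nat_lit 13809263715], nat_lit 1271250, nat_lit 1271250, nat_lit 1271250, nat_lit 1271250, nat_lit 0, nat_lit 0, [nat_lit 1412500, nat_lit 1271250, nat_lit 1271250], [nat_lit 46, nat_lit 40, nat_lit 80, nat_lit 80, nat_lit 41, nat_lit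 401, nat_lit 175, nat_lit 10]⟩,
 ⟨nat_lit 4472, nat_lit 5478, ⟨.ofNat (nat_lit 574895), .ofNat (nat_lit 866988), .ofNat (nat_lit 617523), .ofNat (nat_lit 909625), .ofNat (nat_lit 567940), .ofNat (nat_lit 832909), .ofNat (nat_lit 610987), .ofNat (nat_lit 875965)⟩, ⟨.ofNat (nat_lit 0), .ofNat (nat_lit 0), .ofNat (nat_lit 0), .ofNat (nat_lit 0), .ofNat (nat_lit 0), .ofNat (nat_lit 0), .ofNat (nat_lit 0), .ofNat (nat_lit 0)⟩⟩, [⟨nat_lit 13, nat_lit 87, nat_lit 41, nat_lit 100, nat_lit 100330215⟩]⟩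
noncomputable def b_N_700_500_0_3 : St := ⟨false, nat_lit 1, nat_lit 2, nat_lit 2, nat_lit 40, nat_lit 280, nat_lit 320, nat_lit 200, nat_lit 240, nat_lit 16, nat_lit 396, nat_lit 0, nat_lit 0, nat_lit 0, nat_lit 0, nat_lit 0, nat_lit 0, nat_lit 0, nat_lit 40, nat_lit 0, nat_lit 0, nat_lit 0, nat_lit 0⟩
theorem d_N_700_500_0_3 (h : EB TB.env) : Dead b_N_700_500_0_3 := chkB_sound0 h (T :=
(.st (nat_lit 1)
(.spl (nat_lit 2) (nat_lit 120)
(.spl (nat_lit 0) (nat_lit 300)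
(.spl (nat_lit 0) (nat_lit 290)
(.spl (nat_lit 2) (nat_lit 80)
(.leaf p014_l110)
(.leaf p014_l111))
(.trZ (nat_lit 0) (nat_lit 100) (nat_lit 89) (nat_lit 45) (nat_lit 20) (.leaf p014_l112)))
(.trZ (nat_lit 0) (nat_lit 100) (nat_lit 87) (nat_lit 50) (nat_lit 24) (.leaf p014_l113)))
(.spl (nat_lit 0) (nat_lit 300)
(.spl (nat_lit 2) (nat_lit 240)
(.spl (nat_lit 1) (nat_lit 220)
(.leaf p014_l114)
(.spl (nat_lit 0) (nat_lit 290)
(.leaf p014_l115)
(.leaf p014_l116)))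
(.spl (nat_lit 1) (nat_lit 220)
(.trX (nat_lit 13) (nat_lit 92) (nat_lit 31) (nat_lit 100) (nat_lit 392) (.spl (nat_lit 0) (nat_lit 290)
(.leaf p014_l117)
(.trX (nat_lit 13) (nat_lit 90) (nat_lit 36) (nat_lit 100) (nat_lit 388) (.leaf p014_l118))))
(.spl (nat_lit 0) (nat_lit 290)
(.leaf p014_l119)
(.leaf p014_l120))))
(.trX (nat_lit 13) (nat_lit 88) (nat_lit 32) (nat_lit 100) (nat_lit 392) (.spl (nat_lit 0) (nat_lit 310)
(.leaf p014_l121)
(.trX (nat_lit 13) (nat_lit 85) (nat_lit 38) (nat_lit 100) (nat_lit 388) (.leaf p014_l122))))))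
(.spl (nat_lit 2) (nat_lit 240)
(.leaf p014_l123)
(.leaf p014_l124)))) (by decide +kernel)
noncomputable def p014_l125 : Lf2 := ⟨nat_lit 0, nat_lit 10, [nat_lit 0, nat_lit 5, nat_lit 5, nat_lit 20], true, nat_lit 0, nat_lit 0, nat_lit 0, nat_lit 0, ⟨nat_lit 0, nat_lit 0, nat_lit 1000, nat_lit 5, nat_lit 157, nat_lit 0, nat_lit 0, nat_lit 0, nat_lit 0, nat_lit 215, nat_lit 1350, nat_lit 206, nat_lit 58044227, nat_lit 0, nat_lit 0, nat_lit 1966502, false, false⟩,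
 nat_lit 0, nat_lit 0, nat_lit 0, nat_lit 2903, nat_lit 3250, nat_lit 0, nat_lit 140, nat_lit 0, nat_lit 0, nat_lit 0, nat_lit 0, nat_lit 0, nat_lit 0, nat_lit 0, nat_lit 86, nat_lit 400000, nat_lit 0, nat_lit 0, [(nat_lit 12, [(nat_lit 5, nat_lit 1000)]), (nat_lit 15, [(nat_lit 5, nat_lit 1000)])],
 ⟨p014_k0, nat_lit 0, nat_lit 0, nat_lit 308, nat_lit 0, nat_lit 0, [nat_lit 2347200000, nat_lit 1180400000, nat_lit 174400000], [], [nat_lit 16360790200, nat_lit 18948579300, nat_lit 18636209500, nat_lit 20355175000], nat_lit 0, nat_lit 0, nat_lit 0, nat_lit 0, nat_lit 0, nat_lit 0, [], [nat_lit 8, nat_lit 40, nat_lit 80, nat_lit 80, nat_lit 1, nat_lit 272, nat_lit 60, nat_lit 8]⟩, C1.Rw.none,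
 ⟨nat_lit 4472, nat_lit 5478, ⟨.ofNat (nat_lit 155307), .ofNat (nat_lit 574895), .ofNat (nat_lit 198021), .ofNat (nat_lit 617523), .ofNat (nat_lit 187299), .ofNat (nat_lit 567940), .ofNat (nat_lit 230432), .ofNat (nat_lit 610987)⟩, ⟨.ofNat (nat_lit 0), .ofNat (nat_lit 0), .ofNat (nat_lit 0), .ofNat (nat_lit 0), .ofNat (nat_lit 0), .ofNat (nat_lit 0), .ofNat (nat_lit 0), .ofNat (nat_lit 0)⟩⟩, [⟨nat_lit 0, nat_lit 100, nat_lit 87, nat_lit 59, nat_lit 9387127⟩]⟩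
noncomputable def p014_l126 : Lf2 := ⟨nat_lit 0, nat_lit 10, [nat_lit 0, nat_lit 5, nat_lit 5, nat_lit 20], false, nat_lit 0, nat_lit 0, nat_lit 0, nat_lit 0, ⟨nat_lit 1000, nat_lit 0, nat_lit 0, nat_lit 0, nat_lit 0, nat_lit 0, nat_lit 0, nat_lit 0, nat_lit 0, nat_lit 0, nat_lit 0, nat_lit 0, nat_lit 0, nat_lit 0, nat_lit 0, nat_lit 0, false, false⟩,
 nat_lit 0, nat_lit 0, nat_lit 0, nat_lit 0, nat_lit 0, nat_lit 9134, nat_lit 0, nat_lit 0, nat_lit 0, nat_lit 0, nat_lit 0, nat_lit 0, nat_lit 0, nat_lit 0, nat_lit 0, nat_lit 0, nat_lit 0, nat_lit 0, [],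
 ⟨p014_k15, nat_lit 0, nat_lit 0, nat_lit 199, nat_lit 0, nat_lit 0, [nat_lit 3282000000, nat_lit 9842000000], [], [nat_lit 41184948000, nat_lit 42303928000, nat_lit 45423484600, nat_lit 46383971200], nat_lit 0, nat_lit 0, nat_lit 0, nat_lit 0, nat_lit 0, nat_lit 0, [], [nat_lit 82, nat_lit 40, nat_lit 80, nat_lit 80, nat_lit 63, nat_lit 317, nat_lit 100, nat_lit 9]⟩, ⟨p014_k16, nat_lit 0, nat_lit 0, nat_lit 241, nat_lit 0, nat_lit 0, [nat_lit 6250000000, nat_lit 11872000000], [], [nat_lit 33172044736, nat_lit 35017551224, nat_lit 46766579226, nat_lit 47362878543], nat_lit 0, nat_lit 0, nat_lit 0, nat_lit 0, nat_lit 0, nat_lit 0, [], [nat_lit 107, nat_lit 40, nat_lit 80, nat_lit 80, nat_lit 12, nat_lit 401, nat_lit 175, nat_lit 10]⟩,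
 zbF0, [⟨nat_lit 13, nat_lit 94, nat_lit 21, nat_lit 100, nat_lit 74127305⟩]⟩
noncomputable def p014_l127 : Lf2 := ⟨nat_lit 0, nat_lit 10, [nat_lit 0, nat_lit 5, nat_lit 5, nat_lit 20], true, nat_lit 0, nat_lit 0, nat_lit 0, nat_lit 0, ⟨nat_lit 0, nat_lit 0, nat_lit 1000, nat_lit 5, nat_lit 157, nat_lit 0, nat_lit 0, nat_lit 0, nat_lit 0, nat_lit 215, nat_lit 1350, nat_lit 206, nat_lit 58044227, nat_lit 0, nat_lit 0, nat_lit 1966502, false, false⟩,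
 nat_lit 0, nat_lit 0, nat_lit 0, nat_lit 2866, nat_lit 3318, nat_lit 0, nat_lit 128, nat_lit 0, nat_lit 0, nat_lit 0, nat_lit 0, nat_lit 0, nat_lit 0, nat_lit 0, nat_lit 86, nat_lit 400000, nat_lit 0, nat_lit 0, [(nat_lit 12, [(nat_lit 5, nat_lit 1000)]), (nat_lit 15, [(nat_lit 5, nat_lit 1000)])],
 ⟨p014_k17, nat_lit 0, nat_lit 0, nat_lit 313, nat_lit 0, nat_lit 0, [nat_lit 2347200000, nat_lit 597000001, nat_lit 174400000], [], [nat_lit 16516394163, nat_lit 19129207434, nat_lit 18647227345, nat_lit 20498001097], nat_lit 0, nat_lit 0, nat_lit 0, nat_lit 0, nat_lit 0, nat_lit 0, [], [nat_lit 99, nat_lit 40, nat_lit 80, nat_lit 80, nat_lit 17, nat_lit 272, nat_lit 60, nat_lit 8]⟩, C1.Rw.none,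
 ⟨nat_lit 4472, nat_lit 5478, ⟨.ofNat (nat_lit 155307), .ofNat (nat_lit 574895), .ofNat (nat_lit 198021), .ofNat (nat_lit 617523), .ofNat (nat_lit 187299), .ofNat (nat_lit 567940), .ofNat (nat_lit 230432), .ofNat (nat_lit 610987)⟩, ⟨.ofNat (nat_lit 0), .ofNat (nat_lit 0), .ofNat (nat_lit 0), .ofNat (nat_lit 0), .ofNat (nat_lit 0), .ofNat (nat_lit 0), .ofNat (nat_lit 0), .ofNat (nat_lit 0)⟩⟩, [⟨nat_lit 0, nat_lit 100, nat_lit 87, nat_lit 59, nat_lit 10419635⟩]⟩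
noncomputable def p014_l128 : Lf2 := ⟨nat_lit 0, nat_lit 10, [nat_lit 0, nat_lit 5, nat_lit 5, nat_lit 20], false, nat_lit 0, nat_lit 0, nat_lit 0, nat_lit 0, ⟨nat_lit 50, nat_lit 0, nat_lit 950, nat_lit 6, nat_lit 252, nat_lit 0, nat_lit 0, nat_lit 0, nat_lit 0, nat_lit 215, nat_lit 113818, nat_lit 200, nat_lit 47914277, nat_lit 0, nat_lit 0, nat_lit 2987431, true, true⟩,
 nat_lit 0, nat_lit 0, nat_lit 1325, nat_lit 0, nat_lit 3210, nat_lit 567, nat_lit 0, nat_lit 0, nat_lit 0, nat_lit 37, nat_lit 0, nat_lit 0, nat_lit 0, nat_lit 0, nat_lit 73, nat_lit 380000, nat_lit 0, nat_lit 0, [(nat_lit 12, [(nat_lit 5, nat_lit 950)])],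
 ⟨p014_k0, nat_lit 0, nat_lit 0, nat_lit 176, nat_lit 0, nat_lit 0, [nat_lit 2218860000, nat_lit 1264566667, nat_lit 201000000], [], [nat_lit 19541831200, nat_lit 20469849120, nat_lit 21158408960, nat_lit 22089502530], nat_lit 0, nat_lit 0, nat_lit 0, nat_lit 0, nat_lit 0, nat_lit 0, [], [nat_lit 8, nat_lit 40, nat_lit 80, nat_lit 80, nat_lit 1, nat_lit 289, nat_lit 75, nat_lit 8]⟩, ⟨p014_k31, nat_lit 0, nat_lit 0, nat_lit 802, nat_lit 0, nat_lit 1139005, [nat_lit 312500000, nat_lit 492100000, nat_lit 593600000], [], [nat_lit 1963360460, nat_lit 1943073164, nat_lit 1969933746, nat_lit 1955414994], nat_lit 1271250, nat_lit 1271250, nat_lit 1271250, nat_lit 1271250, nat_lit 0, nat_lit 0, [nat_lit 1412500, nat_lit 1271250, nat_lit 1271250], [nat_lit 46, nat_lit 40, nat_lit 80, nat_lit 80, nat_lit 41, nat_lit 373, nat_lit 150, nat_lit 9]⟩,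
 ⟨nat_lit 5000, nat_lit 5478, ⟨.ofNat (nat_lit 574920), .ofNat (nat_lit 649840), .ofNat (nat_lit 617614), .ofNat (nat_lit 692534), .ofNat (nat_lit 571415), .ofNat (nat_lit 642831), .ofNat (nat_lit 614253), .ofNat (nat_lit 685668)⟩, ⟨.ofNat (nat_lit 0), .ofNat (nat_lit 0), .ofNat (nat_lit 0), .ofNat (nat_lit 0), .ofNat (nat_lit 0), .ofNat (nat_lit 0), .ofNat (nat_lit 0), .ofNat (nat_lit 0)⟩⟩, []⟩
noncomputable def p014_l129 : Lf2 := ⟨nat_lit 0, nat_lit 10, [nat_lit 0, nat_lit 5, nat_lit 5, nat_lit 20], true, nat_lit 0, nat_lit 0, nat_lit 0, nat_lit 0, ⟨nat_lit 0, nat_lit 401, nat_lit 599, nat_lit 6, nat_lit 250, nat_lit 0, nat_lit 0, nat_lit 0, nat_lit 0, nat_lit 215, nat_lit 100108, nat_lit 200, nat_lit 48135070, nat_lit 18864930, nat_lit 0, nat_lit 2972131, true, true⟩,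
 nat_lit 0, nat_lit 0, nat_lit 0, nat_lit 0, nat_lit 4225, nat_lit 0, nat_lit 0, nat_lit 0, nat_lit 0, nat_lit 0, nat_lit 0, nat_lit 0, nat_lit 0, nat_lit 0, nat_lit 0, nat_lit 250000, nat_lit 0, nat_lit 0, [(nat_lit 15, [(nat_lit 0, nat_lit 401), (nat_lit 4, nat_lit 599)])],
 ⟨p014_k4, nat_lit 0, nat_lit 0, nat_lit 155, nat_lit 0, nat_lit 0, [nat_lit 2339964000, nat_lit 754569201, nat_lit 390493999], [], [nat_lit 21216325049, nat_lit 22350065099, nat_lit 23063010899, nat_lit 24344126550], nat_lit 0, nat_lit 0, nat_lit 0, nat_lit 0, nat_lit 0, nat_lit 0, [], [nat_lit 18, nat_lit 40, nat_lit 80, nat_lit 80, nat_lit 2, nat_lit 203, nat_lit 0, nat_lit 6]⟩, C1.Rw.none,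
 ⟨nat_lit 4472, nat_lit 5000, ⟨.ofNat (nat_lit 571423), .ofNat (nat_lit 642847), .ofNat (nat_lit 614256), .ofNat (nat_lit 685679), .ofNat (nat_lit 567973), .ofNat (nat_lit 635946), .ofNat (nat_lit 611081), .ofNat (nat_lit 679054)⟩, ⟨.ofNat (nat_lit 0), .ofNat (nat_lit 0), .ofNat (nat_lit 0), .ofNat (nat_lit 0), .ofNat (nat_lit 0), .ofNat (nat_lit 0), .ofNat (nat_lit 0), .ofNat (nat_lit 0)⟩⟩, []⟩
noncomputable def p014_l130 : Lf2 := ⟨nat_lit 0, nat_lit 10, [nat_lit 0, nat_lit 5, nat_lit 5, nat_lit 20], false, nat_lit 0, nat_lit 0, nat_lit 0, nat_lit 0, ⟨nat_lit 74, nat_lit 834, nat_lit 92, nat_lit 7, nat_lit 277, nat_lit 0, nat_lit 0, nat_lit 0, nat_lit 0, nat_lit 215, nat_lit 220964, nat_lit 200, nat_lit 45236775, nat_lit 21763225, nat_lit 0, nat_lit 3152261, true, true⟩,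
 nat_lit 0, nat_lit 0, nat_lit 1596, nat_lit 0, nat_lit 3677, nat_lit 684, nat_lit 0, nat_lit 0, nat_lit 0, nat_lit 114, nat_lit 0, nat_lit 0, nat_lit 0, nat_lit 0, nat_lit 0, nat_lit 370400, nat_lit 0, nat_lit 0, [(nat_lit 12, [(nat_lit 1, nat_lit 834), (nat_lit 5, nat_lit 92)])],
 ⟨p014_k1, nat_lit 0, nat_lit 0, nat_lit 180, nat_lit 0, nat_lit 0, [nat_lit 2052877200, nat_lit 2652994400, nat_lit 2700929600], [], [nat_lit 26087779552, nat_lit 26981790088, nat_lit 27775460864, nat_lit 28587011832], nat_lit 0, nat_lit 0, nat_lit 0, nat_lit 0, nat_lit 0, nat_lit 0, [], [nat_lit 42, nat_lit 40, nat_lit 80, nat_lit 80, nat_lit 13, nat_lit 203, nat_lit 0, nat_lit 5]⟩, ⟨p014_k40, nat_lit 0, nat_lit 0, nat_lit 695, nat_lit 0, nat_lit 945165, [nat_lit 462500000, nat_lit 589632000, nat_lit 878528000], [], [nat_lit 2718980536, nat_lit 2717739010, nat_lit 2768176590, nat_lit 2765756386], nat_lit 1271250,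 nat_lit 1271250, nat_lit 1271250, nat_lit 1271250, nat_lit 0, nat_lit 0, [nat_lit 1412500, nat_lit 1271250, nat_lit 1271250], [nat_lit 53, nat_lit 40, nat_lit 80, nat_lit 80, nat_lit 14, nat_lit 373, nat_lit 150, nat_lit 9]⟩,
 ⟨nat_lit 5000, nat_lit 5478, ⟨.ofNat (nat_lit 649840), .ofNat (nat_lit 724760), .ofNat (nat_lit 671187), .ofNat (nat_lit 746107), .ofNat (nat_lit 642831), .ofNat (nat_lit 714246), .ofNat (nat_lit 664250), .ofNat (nat_lit 735665)⟩, ⟨.ofNat (nat_lit 0), .ofNat (nat_lit 0), .ofNat (nat_lit 0), .ofNat (nat_lit 0), .ofNat (nat_lit 0), .ofNat (nat_lit 0), .ofNat (nat_lit 0), .ofNat (nat_lit 0)⟩⟩, []⟩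
noncomputable def p014_l131 : Lf2 := ⟨nat_lit 0, nat_lit 10, [nat_lit 0, nat_lit 5, nat_lit 5, nat_lit 20], false, nat_lit 0, nat_lit 0, nat_lit 0, nat_lit 0, ⟨nat_lit 140, nat_lit 860, nat_lit 0, nat_lit 7, nat_lit 287, nat_lit 0, nat_lit 0, nat_lit 0, nat_lit 0, nat_lit 0, nat_lit 0, nat_lit 0, nat_lit 44243734, nat_lit 22756266, nat_lit 0, nat_lit 3204000, true, true⟩,
 nat_lit 0, nat_lit 0, nat_lit 2981, nat_lit 0, nat_lit 3887, nat_lit 1425, nat_lit 469, nat_lit 0, nat_lit 0, nat_lit 129, nat_lit 0, nat_lit 0, nat_lit 0, nat_lit 0, nat_lit 0, nat_lit 344000, nat_lit 0, nat_lit 0, [(nat_lit 12, [(nat_lit 1, nat_lit 860)])],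
 ⟨p014_k0, nat_lit 0, nat_lit 0, nat_lit 184, nat_lit 0, nat_lit 0, [nat_lit 2238304000, nat_lit 3215232000, nat_lit 3645184000], [], [nat_lit 24071371337, nat_lit 24527571245, nat_lit 25791026409, nat_lit 26213171256], nat_lit 0, nat_lit 0, nat_lit 0, nat_lit 0, nat_lit 0, nat_lit 0, [], [nat_lit 8, nat_lit 40, nat_lit 80, nat_lit 80, nat_lit 1, nat_lit 203, nat_lit 0, nat_lit 5]⟩, ⟨p014_k19, nat_lit 0, nat_lit 0, nat_lit 611, nat_lit 0, nat_lit 785313, [nat_lit 875000000, nat_lit 1377880000, nat_lit 1662080000], [], [nat_lit 5182561570, nat_lit 5177270570, nat_lit 5263612570, nat_lit 5253584820], nat_lit 1271250, nat_lit 1271250, nat_lit 1271250, nat_lit 1271250, nat_lit 0, nat_lit 0, [nat_lit 1412500, nat_lit 1271250, nat_lit 1271250], [nat_lit 46, nat_lit 40, nat_lit 80, nat_lit 80, nat_lit 41, nat_lit 373, nat_lit 150, nat_lit 9]⟩,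
 ⟨nat_lit 5244, nat_lit 5478, ⟨.ofNat (nat_lit 671213), .ofNat (nat_lit 746143), .ofNat (nat_lit 692568), .ofNat (nat_lit 767497), .ofNat (nat_lit 667718), .ofNat (nat_lit 740885), .ofNat (nat_lit 689101), .ofNat (nat_lit 762268)⟩, ⟨.ofNat (nat_lit 0), .ofNat (nat_lit 0), .ofNat (nat_lit 0), .ofNat (nat_lit 0), .ofNat (nat_lit 0), .ofNat (nat_lit 0), .ofNat (nat_lit 0), .ofNat (nat_lit 0)⟩⟩, []⟩
noncomputable def p014_l132 : Lf2 := ⟨nat_lit 0, nat_lit 10, [nat_lit 0, nat_lit 5, nat_lit 5, nat_lit 20], true, nat_lit 0, nat_lit 0, nat_lit 0, nat_lit 0, ⟨nat_lit 0, nat_lit 1000, nat_lit 0, nat_lit 7, nat_lit 285, nat_lit 0, nat_lit 0, nat_lit 0, nat_lit 0, nat_lit 0, nat_lit 0, nat_lit 0, nat_lit 44425186, nat_lit 22574814, nat_lit 0, nat_lit 3194915, true, true⟩,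
 nat_lit 0, nat_lit 0, nat_lit 0, nat_lit 1121, nat_lit 4078, nat_lit 0, nat_lit 0, nat_lit 0, nat_lit 0, nat_lit 0, nat_lit 0, nat_lit 0, nat_lit 0, nat_lit 0, nat_lit 0, nat_lit 250000, nat_lit 0, nat_lit 0, [(nat_lit 12, [(nat_lit 0, nat_lit 1000)])],
 ⟨p014_k23, nat_lit 0, nat_lit 0, nat_lit 160, nat_lit 0, nat_lit 0, [nat_lit 2364000000, nat_lit 2875200000, nat_lit 3241600000], [], [nat_lit 25535479064, nat_lit 26043957032, nat_lit 27407306306, nat_lit 27866331140], nat_lit 0, nat_lit 0, nat_lit 0, nat_lit 0, nat_lit 0, nat_lit 0, [], [nat_lit 18, nat_lit 40, nat_lit 80, nat_lit 80, nat_lit 2, nat_lit 203, nat_lit 0, nat_lit 6]⟩, C1.Rw.none,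
 ⟨nat_lit 5000, nat_lit 5245, ⟨.ofNat (nat_lit 667719), .ofNat (nat_lit 740887), .ofNat (nat_lit 689102), .ofNat (nat_lit 762271), .ofNat (nat_lit 664277), .ofNat (nat_lit 735703), .ofNat (nat_lit 685703), .ofNat (nat_lit 757129)⟩, ⟨.ofNat (nat_lit 0), .ofNat (nat_lit 0), .ofNat (nat_lit 0), .ofNat (nat_lit 0), .ofNat (nat_lit 0), .ofNat (nat_lit 0), .ofNat (nat_lit 0), .ofNat (nat_lit 0)⟩⟩, []⟩
noncomputable def p014_l133 : Lf2 := ⟨nat_lit 0, nat_lit 10, [nat_lit 0, nat_lit 5, nat_lit 5, nat_lit 20], true, nat_lit 0, nat_lit 0, nat_lit 0, nat_lit 0, ⟨nat_lit 0, nat_lit 1000, nat_lit 0, nat_lit 7, nat_lit 278, nat_lit 0, nat_lit 0, nat_lit 0, nat_lit 0, nat_lit 0, nat_lit 0, nat_lit 0, nat_lit 45146998, nat_lit 21853002, nat_lit 0, nat_lit 3157143, true, true⟩,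
 nat_lit 0, nat_lit 0, nat_lit 0, nat_lit 0, nat_lit 4034, nat_lit 0, nat_lit 0, nat_lit 0, nat_lit 0, nat_lit 0, nat_lit 0, nat_lit 0, nat_lit 0, nat_lit 0, nat_lit 0, nat_lit 250000, nat_lit 0, nat_lit 0, [(nat_lit 15, [(nat_lit 0, nat_lit 1000)])],
 ⟨p014_k4, nat_lit 0, nat_lit 0, nat_lit 167, nat_lit 0, nat_lit 0, [nat_lit 2318400000, nat_lit 2724800000, nat_lit 3082400000], [], [nat_lit 25870826296, nat_lit 26883227704, nat_lit 27685923420, nat_lit 28686493792], nat_lit 0, nat_lit 0, nat_lit 0, nat_lit 0, nat_lit 0, nat_lit 0, [], [nat_lit 18, nat_lit 40, nat_lit 80, nat_lit 80, nat_lit 2, nat_lit 203, nat_lit 0, nat_lit 6]⟩, C1.Rw.none,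
 ⟨nat_lit 4472, nat_lit 5000, ⟨.ofNat (nat_lit 642847), .ofNat (nat_lit 714270), .ofNat (nat_lit 685679), .ofNat (nat_lit 757103), .ofNat (nat_lit 635946), .ofNat (nat_lit 703919), .ofNat (nat_lit 679054), .ofNat (nat_lit 747027)⟩, ⟨.ofNat (nat_lit 0), .ofNat (nat_lit 0), .ofNat (nat_lit 0), .ofNat (nat_lit 0), .ofNat (nat_lit 0), .ofNat (nat_lit 0), .ofNat (nat_lit 0), .ofNat (nat_lit 0)⟩⟩, []⟩
noncomputable def p014_l134 : Lf2 := ⟨nat_lit 0, nat_lit 10, [nat_lit 0, nat_lit 5, nat_lit 5, nat_lit 20], false, nat_lit 0, nat_lit 0, nat_lit 0, nat_lit 0, ⟨nat_lit 111, nat_lit 889, nat_lit 0, nat_lit 8, nat_lit 309, nat_lit 0, nat_lit 0, nat_lit 0, nat_lit 0, nat_lit 0, nat_lit 0, nat_lit 0, nat_lit 42004890, nat_lit 24995110, nat_lit 0, nat_lit 3302823, true, true⟩,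
 nat_lit 0, nat_lit 0, nat_lit 2668, nat_lit 0, nat_lit 3689, nat_lit 1143, nat_lit 403, nat_lit 0, nat_lit 0, nat_lit 79, nat_lit 0, nat_lit 0, nat_lit 0, nat_lit 0, nat_lit 0, nat_lit 355600, nat_lit 0, nat_lit 0, [(nat_lit 12, [(nat_lit 1, nat_lit 889)])],
 ⟨p014_k0, nat_lit 0, nat_lit 0, nat_lit 200, nat_lit 0, nat_lit 0, [nat_lit 2203109600, nat_lit 3112896800, nat_lit 3436221600], [], [nat_lit 26076531423, nat_lit 26279633317, nat_lit 28107262125, nat_lit 28294237455], nat_lit 0, nat_lit 0, nat_lit 0, nat_lit 0, nat_lit 0, nat_lit 0, [], [nat_lit 8, nat_lit 40, nat_lit 80, nat_lit 80, nat_lit 1, nat_lit 203, nat_lit 0, nat_lit 5]⟩, ⟨p014_k31, nat_lit 0, nat_lit 0, nat_lit 539, nat_lit 0, nat_lit 601761, [nat_lit 693750000, nat_lit 1092462000, nat_lit 1317792000], [], [nat_lit 4682104528, nat_lit 4677124120, nat_lit 4851599284, nat_lit 4843782523], nat_lit 1271250, nat_lit 1271250, nat_lit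 1271250, nat_lit 1271250, nat_lit 0, nat_lit 0, [nat_lit 1412500, nat_lit 1271250, nat_lit 1271250], [nat_lit 46, nat_lit 40, nat_lit 80, nat_lit 80, nat_lit 41, nat_lit 272, nat_lit 60, nat_lit 7]⟩,
 ⟨nat_lit 5361, nat_lit 5478, ⟨.ofNat (nat_lit 724795), .ofNat (nat_lit 799728), .ofNat (nat_lit 746152), .ofNat (nat_lit 821084), .ofNat (nat_lit 722144), .ofNat (nat_lit 796193), .ofNat (nat_lit 743513), .ofNat (nat_lit 817562)⟩, ⟨.ofNat (nat_lit 0), .ofNat (nat_lit 0), .ofNat (nat_lit 0), .ofNat (nat_lit 0), .ofNat (nat_lit 0), .ofNat (nat_lit 0), .ofNat (nat_lit 0), .ofNat (nat_lit 0)⟩⟩, []⟩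
noncomputable def p014_l135 : Lf2 := ⟨nat_lit 0, nat_lit 10, [nat_lit 0, nat_lit 5, nat_lit 5, nat_lit 20], false, nat_lit 0, nat_lit 0, nat_lit 0, nat_lit 0, ⟨nat_lit 98, nat_lit 902, nat_lit 0, nat_lit 8, nat_lit 307, nat_lit 0, nat_lit 0, nat_lit 0, nat_lit 0, nat_lit 0, nat_lit 0, nat_lit 0, nat_lit 42129981, nat_lit 24870019, nat_lit 0, nat_lit 3297940, true, true⟩,
 nat_lit 0, nat_lit 0, nat_lit 2349, nat_lit 0, nat_lit 3661, nat_lit 1006, nat_lit 395, nat_lit 0, nat_lit 0, nat_lit 69, nat_lit 0, nat_lit 0, nat_lit 0, nat_lit 0, nat_lit 0, nat_lit 360800, nat_lit 0, nat_lit 0, [(nat_lit 12, [(nat_lit 1, nat_lit 902)])],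
 ⟨p014_k22, nat_lit 0, nat_lit 0, nat_lit 201, nat_lit 0, nat_lit 0, [nat_lit 2187332800, nat_lit 3067022400, nat_lit 3342548800], [], [nat_lit 26078056533, nat_lit 26280658739, nat_lit 28081259884, nat_lit 28268860488], nat_lit 0, nat_lit 0, nat_lit 0, nat_lit 0, nat_lit 0, nat_lit 0, [], [nat_lit 8, nat_lit 40, nat_lit 80, nat_lit 80, nat_lit 1, nat_lit 203, nat_lit 0, nat_lit 5]⟩, ⟨p014_k31, nat_lit 0, nat_lit 0, nat_lit 580, nat_lit 0, nat_lit 705751, [nat_lit 612500000, nat_lit 964516000, nat_lit 1163456000], [], [nat_lit 4145593600, nat_lit 4141324152, nat_lit 4295042952, nat_lit 4283880210], nat_lit 1271250, nat_lit 1271250, nat_lit 1271250, nat_lit 1271250, nat_lit 0, nat_lit 0, [nat_lit 1412500, nat_lit 1271250, nat_lit 1271250], [nat_lit 46, nat_lit 40, nat_lit 80, nat_lit 80, nat_lit 41, nat_lit 272, nat_lit 60, nat_lit 7]⟩,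
 ⟨nat_lit 5244, nat_lit 5362, ⟨.ofNat (nat_lit 722145), .ofNat (nat_lit 796193), .ofNat (nat_lit 743514), .ofNat (nat_lit 817562), .ofNat (nat_lit 719510), .ofNat (nat_lit 792680), .ofNat (nat_lit 740895), .ofNat (nat_lit 814065)⟩, ⟨.ofNat (nat_lit 0), .ofNat (nat_lit 0), .ofNat (nat_lit 0), .ofNat (nat_lit 0), .ofNat (nat_lit 0), .ofNat (nat_lit 0), .ofNat (nat_lit 0), .ofNat (nat_lit 0)⟩⟩, []⟩
noncomputable def p014_l136 : Lf2 := ⟨nat_lit 1, nat_lit 10, [nat_lit 0, nat_lit 5, nat_lit 5, nat_lit 20], false, nat_lit 0, nat_lit 0, nat_lit 0, nat_lit 0, zbN0,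
 nat_lit 0, nat_lit 0, nat_lit 0, nat_lit 0, nat_lit 0, nat_lit 0, nat_lit 0, nat_lit 0, nat_lit 0, nat_lit 0, nat_lit 0, nat_lit 0, nat_lit 0, nat_lit 0, nat_lit 0, nat_lit 0, nat_lit 0, nat_lit 0, [],
 C1.Rw.none, C1.Rw.none,
 zbF0, []⟩
noncomputable def p014_l137 : Lf2 := ⟨nat_lit 0, nat_lit 10, [nat_lit 0, nat_lit 5, nat_lit 5, nat_lit 20], false, nat_lit 0, nat_lit 0, nat_lit 0, nat_lit 0, ⟨nat_lit 334, nat_lit 666, nat_lit 0, nat_lit 8, nat_lit 314, nat_lit 0, nat_lit 0, nat_lit 0, nat_lit 0, nat_lit 0, nat_lit 0, nat_lit 0, nat_lit 41419183, nat_lit 25580817, nat_lit 0, nat_lit 3324699, true, true⟩,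
 nat_lit 0, nat_lit 0, nat_lit 5495, nat_lit 0, nat_lit 3924, nat_lit 2627, nat_lit 529, nat_lit 0, nat_lit 0, nat_lit 878, nat_lit 0, nat_lit 0, nat_lit 0, nat_lit 0, nat_lit 0, nat_lit 266400, nat_lit 0, nat_lit 0, [(nat_lit 12, [(nat_lit 1, nat_lit 666)])],
 ⟨p014_k0, nat_lit 0, nat_lit 0, nat_lit 201, nat_lit 0, nat_lit 0, [nat_lit 2473742400, nat_lit 3899819201, nat_lit 5043070400], [], [nat_lit 27020456293, nat_lit 27435047701, nat_lit 29105405725, nat_lit 29482713251], nat_lit 0, nat_lit 0, nat_lit 0, nat_lit 0, nat_lit 0, nat_lit 0, [], [nat_lit 8, nat_lit 40, nat_lit 80, nat_lit 80, nat_lit 1, nat_lit 203, nat_lit 0, nat_lit 5]⟩, ⟨p014_k19, nat_lit 0, nat_lit 0, nat_lit 570, nat_lit 0, nat_lit 694393, [nat_lit 2087500000, nat_lit 3287228000, nat_lit 3965248000], [], [nat_lit 11428428628, nat_lit 11442052166, nat_lit 11853143418, nat_lit 11860363554], nat_lit 1271250, nat_lit 1271250,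 nat_lit 1271250, nat_lit 1271250, nat_lit 0, nat_lit 0, [nat_lit 1412500, nat_lit 1271250, nat_lit 1271250], [nat_lit 46, nat_lit 40, nat_lit 80, nat_lit 80, nat_lit 41, nat_lit 272, nat_lit 60, nat_lit 7]⟩,
 ⟨nat_lit 5244, nat_lit 5478, ⟨.ofNat (nat_lit 746143), .ofNat (nat_lit 821072), .ofNat (nat_lit 756820), .ofNat (nat_lit 831749), .ofNat (nat_lit 740885), .ofNat (nat_lit 814053), .ofNat (nat_lit 751577), .ofNat (nat_lit 824744)⟩, ⟨.ofNat (nat_lit 0), .ofNat (nat_lit 0), .ofNat (nat_lit 0), .ofNat (nat_lit 0), .ofNat (nat_lit 0), .ofNat (nat_lit 0), .ofNat (nat_lit 0), .ofNat (nat_lit 0)⟩⟩, []⟩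
noncomputable def p014_l138 : Lf2 := ⟨nat_lit 0, nat_lit 10, [nat_lit 0, nat_lit 5, nat_lit 5, nat_lit 20], false, nat_lit 0, nat_lit 0, nat_lit 0, nat_lit 0, ⟨nat_lit 1000, nat_lit 0, nat_lit 0, nat_lit 0, nat_lit 0, nat_lit 0, nat_lit 0, nat_lit 0, nat_lit 0, nat_lit 0, nat_lit 0, nat_lit 0, nat_lit 0, nat_lit 0, nat_lit 0, nat_lit 0, false, false⟩,
 nat_lit 0, nat_lit 0, nat_lit 16156, nat_lit 0, nat_lit 4815, nat_lit 8136, nat_lit 945, nat_lit 0, nat_lit 0, nat_lit 1757, nat_lit 0, nat_lit 0, nat_lit 0, nat_lit 0, nat_lit 0, nat_lit 0, nat_lit 0, nat_lit 0, [],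
 ⟨p014_k0, nat_lit 0, nat_lit 0, nat_lit 201, nat_lit 0, nat_lit 0, [nat_lit 3282000000, nat_lit 6250000000, nat_lit 9842000000], [], [nat_lit 29482937205, nat_lit 29929330185, nat_lit 31902324245, nat_lit 32332029995], nat_lit 0, nat_lit 0, nat_lit 0, nat_lit 0, nat_lit 0, nat_lit 0, [], [nat_lit 8, nat_lit 40, nat_lit 80, nat_lit 80, nat_lit 1, nat_lit 203, nat_lit 0, nat_lit 5]⟩, ⟨p014_k21, nat_lit 0, nat_lit 0, nat_lit 581, nat_lit 0, nat_lit 727735, [nat_lit 6250000000, nat_lit 9842000000, nat_lit 11872000000], [], [nat_lit 33851008268, nat_lit 33884776868, nat_lit 35114653778, nat_lit 35159074018], nat_lit 1271250, nat_lit 1271250, nat_lit 1271250, nat_lit 1271250, nat_lit 0, nat_lit 0, [nat_lit 1412500, nat_lit 1271250, nat_lit 1271250], [nat_lit 46, nat_lit 40, nat_lit 80, nat_lit 80, nat_lit 41, nat_lit 272, nat_lit 60, nat_lit 7]⟩,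
 zbF0, []⟩
noncomputable def p014_l139 : Lf2 := ⟨nat_lit 0, nat_lit 10, [nat_lit 0, nat_lit 5, nat_lit 5, nat_lit 20], false, nat_lit 0, nat_lit 0, nat_lit 0, nat_lit 0, ⟨nat_lit 43, nat_lit 957, nat_lit 0, nat_lit 8, nat_lit 305, nat_lit 0, nat_lit 0, nat_lit 0, nat_lit 0, nat_lit 0, nat_lit 0, nat_lit 0, nat_lit 42316652, nat_lit 24683348, nat_lit 0, nat_lit 3290514, true, true⟩,
 nat_lit 0, nat_lit 0, nat_lit 1036, nat_lit 0, nat_lit 3912, nat_lit 443, nat_lit 0, nat_lit 0, nat_lit 0, nat_lit 28, nat_lit 0, nat_lit 0, nat_lit 0, nat_lit 0, nat_lit 0, nat_lit 239250, nat_lit 0, nat_lit 0, [(nat_lit 12, [(nat_lit 0, nat_lit 957)])],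
 ⟨p014_k23, nat_lit 0, nat_lit 0, nat_lit 179, nat_lit 0, nat_lit 0, [nat_lit 2403474000, nat_lit 3020316400, nat_lit 3443158200], [], [nat_lit 27747452624, nat_lit 28199388760, nat_lit 29954236848, nat_lit 30357414600], nat_lit 0, nat_lit 0, nat_lit 0, nat_lit 0, nat_lit 0, nat_lit 0, [], [nat_lit 18, nat_lit 40, nat_lit 80, nat_lit 80, nat_lit 2, nat_lit 203, nat_lit 0, nat_lit 6]⟩, ⟨p014_k31, nat_lit 0, nat_lit 0, nat_lit 693, nat_lit 0, nat_lit 945165, [nat_lit 268750000, nat_lit 423206000, nat_lit 510496000], [], [nat_lit 1858319968, nat_lit 1851964766, nat_lit 1906474216, nat_lit 1899734708], nat_lit 1271250, nat_lit 1271250, nat_lit 1271250, nat_lit 1271250, nat_lit 0, nat_lit 0, [nat_lit 1412500, nat_lit 1271250, nat_lit 1271250], [nat_lit 46, nat_lit 40, nat_lit 80, nat_lit 80, nat_lit 41, nat_lit 272, nat_lit 60, nat_lit 7]⟩,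
 ⟨nat_lit 5000, nat_lit 5245, ⟨.ofNat (nat_lit 719505), .ofNat (nat_lit 792673), .ofNat (nat_lit 740887), .ofNat (nat_lit 814056), .ofNat (nat_lit 714277), .ofNat (nat_lit 785702), .ofNat (nat_lit 735703), .ofNat (nat_lit 807129)⟩, ⟨.ofNat (nat_lit 0), .ofNat (nat_lit 0), .ofNat (nat_lit 0), .ofNat (nat_lit 0), .ofNat (nat_lit 0), .ofNat (nat_lit 0), .ofNat (nat_lit 0), .ofNat (nat_lit 0)⟩⟩, []⟩
noncomputable def p014_l140 : Lf2 := ⟨nat_lit 0, nat_lit 10, [nat_lit 0, nat_lit 5, nat_lit 5, nat_lit 20], false, nat_lit 0, nat_lit 0, nat_lit 0, nat_lit 0, ⟨nat_lit 49, nat_lit 951, nat_lit 0, nat_lit 8, nat_lit 314, nat_lit 0, nat_lit 0, nat_lit 0, nat_lit 0, nat_lit 0, nat_lit 0, nat_lit 0, nat_lit 41448740, nat_lit 25551260, nat_lit 0, nat_lit 3323634, true, true⟩,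
 nat_lit 0, nat_lit 0, nat_lit 987, nat_lit 0, nat_lit 3917, nat_lit 472, nat_lit 0, nat_lit 0, nat_lit 0, nat_lit 43, nat_lit 0, nat_lit 0, nat_lit 0, nat_lit 0, nat_lit 0, nat_lit 237750, nat_lit 0, nat_lit 0, [(nat_lit 12, [(nat_lit 0, nat_lit 951)])],
 ⟨p014_k23, nat_lit 0, nat_lit 0, nat_lit 179, nat_lit 0, nat_lit 0, [nat_lit 2408982001, nat_lit 3040565201, nat_lit 3471282599], [], [nat_lit 27778099659, nat_lit 28230249310, nat_lit 29986154268, nat_lit 30389499250], nat_lit 0, nat_lit 0, nat_lit 0, nat_lit 0, nat_lit 0, nat_lit 0, [], [nat_lit 18, nat_lit 40, nat_lit 80, nat_lit 80, nat_lit 2, nat_lit 203, nat_lit 0, nat_lit 6]⟩, ⟨p014_k19, nat_lit 0, nat_lit 0, nat_lit 695, nat_lit 0, nat_lit 966344, [nat_lit 306250000, nat_lit 482258000, nat_lit 581728000], [], [nat_lit 1941537176, nat_lit 1938223104, nat_lit 1995771175, nat_lit 1989672214], nat_lit 1271250, nat_lit 1271250, nat_lit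 1271250, nat_lit 1271250, nat_lit 0, nat_lit 0, [nat_lit 1412500, nat_lit 1271250, nat_lit 1271250], [nat_lit 46, nat_lit 40, nat_lit 80, nat_lit 80, nat_lit 41, nat_lit 272, nat_lit 60, nat_lit 7]⟩,
 ⟨nat_lit 5000, nat_lit 5245, ⟨.ofNat (nat_lit 740887), .ofNat (nat_lit 814056), .ofNat (nat_lit 762271), .ofNat (nat_lit 835439), .ofNat (nat_lit 735703), .ofNat (nat_lit 807129), .ofNat (nat_lit 757129), .ofNat (nat_lit 828555)⟩, ⟨.ofNat (nat_lit 0), .ofNat (nat_lit 0), .ofNat (nat_lit 0), .ofNat (nat_lit 0), .ofNat (nat_lit 0), .ofNat (nat_lit 0), .ofNat (nat_lit 0), .ofNat (nat_lit 0)⟩⟩, []⟩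
noncomputable def p014_l141 : Lf2 := ⟨nat_lit 0, nat_lit 10, [nat_lit 0, nat_lit 5, nat_lit 5, nat_lit 20], false, nat_lit 0, nat_lit 0, nat_lit 0, nat_lit 0, ⟨nat_lit 35, nat_lit 965, nat_lit 0, nat_lit 8, nat_lit 302, nat_lit 0, nat_lit 0, nat_lit 0, nat_lit 0, nat_lit 0, nat_lit 0, nat_lit 0, nat_lit 42687332, nat_lit 24312668, nat_lit 0, nat_lit 3275273, true, true⟩,
 nat_lit 0, nat_lit 0, nat_lit 848, nat_lit 0, nat_lit 3801, nat_lit 363, nat_lit 0, nat_lit 0, nat_lit 0, nat_lit 22, nat_lit 0, nat_lit 0, nat_lit 0, nat_lit 0, nat_lit 0, nat_lit 241250, nat_lit 0, nat_lit 0, [(nat_lit 15, [(nat_lit 0, nat_lit 965)])],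
 ⟨p014_k4, nat_lit 0, nat_lit 0, nat_lit 184, nat_lit 0, nat_lit 0, [nat_lit 2352126000, nat_lit 2848182000, nat_lit 3252031000], [], [nat_lit 28018448630, nat_lit 28912840836, nat_lit 30149299450, nat_lit 30948229942], nat_lit 0, nat_lit 0, nat_lit 0, nat_lit 0, nat_lit 0, nat_lit 0, [], [nat_lit 18, nat_lit 40, nat_lit 80, nat_lit 80, nat_lit 2, nat_lit 203, nat_lit 0, nat_lit 6]⟩, ⟨p014_k31, nat_lit 0, nat_lit 0, nat_lit 908, nat_lit 0, nat_lit 1437497, [nat_lit 218750000, nat_lit 344470000, nat_lit 415520000], [], [nat_lit 1548433236, nat_lit 1536969652, nat_lit 1557985772, nat_lit 1549865308], nat_lit 1271250, nat_lit 1271250, nat_lit 1271250, nat_lit 1271250, nat_lit 0, nat_lit 0, [nat_lit 1412500, nat_lit 1271250, nat_lit 1271250], [nat_lit 46, nat_lit 40, nat_lit 80, nat_lit 80, nat_lit 41, nat_lit 300, nat_lit 60, nat_lit 7]⟩,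
 ⟨nat_lit 4472, nat_lit 5000, ⟨.ofNat (nat_lit 714270), .ofNat (nat_lit 785694), .ofNat (nat_lit 735687), .ofNat (nat_lit 807111), .ofNat (nat_lit 703919), .ofNat (nat_lit 771892), .ofNat (nat_lit 725474), .ofNat (nat_lit 793448)⟩, ⟨.ofNat (nat_lit 0), .ofNat (nat_lit 0), .ofNat (nat_lit 0), .ofNat (nat_lit 0), .ofNat (nat_lit 0), .ofNat (nat_lit 0), .ofNat (nat_lit 0), .ofNat (nat_lit 0)⟩⟩, []⟩
noncomputable def p014_l142 : Lf2 := ⟨nat_lit 0, nat_lit 10, [nat_lit 0, nat_lit 5, nat_lit 5, nat_lit 20], false, nat_lit 0, nat_lit 0, nat_lit 0, nat_lit 0, ⟨nat_lit 46, nat_lit 954, nat_lit 0, nat_lit 8, nat_lit 308, nat_lit 0, nat_lit 0, nat_lit 0, nat_lit 0, nat_lit 0, nat_lit 0, nat_lit 0, nat_lit 42029079, nat_lit 24970921, nat_lit 0, nat_lit 3301885, true, true⟩,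
 nat_lit 0, nat_lit 0, nat_lit 936, nat_lit 0, nat_lit 3810, nat_lit 447, nat_lit 0, nat_lit 0, nat_lit 0, nat_lit 41, nat_lit 0, nat_lit 0, nat_lit 0, nat_lit 0, nat_lit 0, nat_lit 238500, nat_lit 0, nat_lit 0, [(nat_lit 15, [(nat_lit 0, nat_lit 954)])],
 ⟨p014_k4, nat_lit 0, nat_lit 0, nat_lit 184, nat_lit 0, nat_lit 0, [nat_lit 2362725600, nat_lit 2886959200, nat_lit 3305343600], [], [nat_lit 28077371500, nat_lit 28972532360, nat_lit 30210425700, nat_lit 31009958220], nat_lit 0, nat_lit 0, nat_lit 0, nat_lit 0, nat_lit 0, nat_lit 0, [], [nat_lit 18, nat_lit 40, nat_lit 80, nat_lit 80, nat_lit 2, nat_lit 203, nat_lit 0, nat_lit 6]⟩, ⟨p014_k19, nat_lit 0, nat_lit 0, nat_lit 839, nat_lit 0, nat_lit 1286879, [nat_lit 287500000, nat_lit 452732000, nat_lit 546112000], [], [nat_lit 1813198664, nat_lit 1808611542, nat_lit 1857208773, nat_lit 1854252096], nat_lit 1271250, nat_lit 1271250, nat_lit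 1271250, nat_lit 1271250, nat_lit 0, nat_lit 0, [nat_lit 1412500, nat_lit 1271250, nat_lit 1271250], [nat_lit 46, nat_lit 40, nat_lit 80, nat_lit 80, nat_lit 41, nat_lit 284, nat_lit 60, nat_lit 7]⟩,
 ⟨nat_lit 4472, nat_lit 5000, ⟨.ofNat (nat_lit 735687), .ofNat (nat_lit 807111), .ofNat (nat_lit 746395), .ofNat (nat_lit 817819), .ofNat (nat_lit 725474), .ofNat (nat_lit 793448), .ofNat (nat_lit 736251), .ofNat (nat_lit 804224)⟩, ⟨.ofNat (nat_lit 0), .ofNat (nat_lit 0), .ofNat (nat_lit 0), .ofNat (nat_lit 0), .ofNat (nat_lit 0), .ofNat (nat_lit 0), .ofNat (nat_lit 0), .ofNat (nat_lit 0)⟩⟩, []⟩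
noncomputable def p014_l143 : Lf2 := ⟨nat_lit 0, nat_lit 10, [nat_lit 0, nat_lit 5, nat_lit 5, nat_lit 20], false, nat_lit 0, nat_lit 0, nat_lit 0, nat_lit 0, ⟨nat_lit 66, nat_lit 934, nat_lit 0, nat_lit 8, nat_lit 313, nat_lit 0, nat_lit 0, nat_lit 0, nat_lit 0, nat_lit 0, nat_lit 0, nat_lit 0, nat_lit 41593979, nat_lit 25406021, nat_lit 0, nat_lit 3318341, true, true⟩,
 nat_lit 0, nat_lit 0, nat_lit 1072, nat_lit 0, nat_lit 3828, nat_lit 539, nat_lit 0, nat_lit 0, nat_lit 0, nat_lit 91, nat_lit 0, nat_lit 0, nat_lit 0, nat_lit 0, nat_lit 0, nat_lit 233500, nat_lit 0, nat_lit 0, [(nat_lit 15, [(nat_lit 0, nat_lit 934)])],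
 ⟨p014_k4, nat_lit 0, nat_lit 0, nat_lit 184, nat_lit 0, nat_lit 0, [nat_lit 2381997600, nat_lit 2957463200, nat_lit 3402275600], [], [nat_lit 28183596840, nat_lit 29080295008, nat_lit 30321057800, nat_lit 31121794376], nat_lit 0, nat_lit 0, nat_lit 0, nat_lit 0, nat_lit 0, nat_lit 0, [], [nat_lit 18, nat_lit 40, nat_lit 80, nat_lit 80, nat_lit 2, nat_lit 203, nat_lit 0, nat_lit 6]⟩, ⟨p014_k21, nat_lit 0, nat_lit 0, nat_lit 826, nat_lit 0, nat_lit 1263405, [nat_lit 412500000, nat_lit 649572000, nat_lit 783552000], [], [nat_lit 2465221784, nat_lit 2461313286, nat_lit 2498154166, nat_lit 2494655924], nat_lit 1271250, nat_lit 1271250, nat_lit 1271250, nat_lit 1271250, nat_lit 0, nat_lit 0, [nat_lit 1412500, nat_lit 1271250, nat_lit 1271250], [nat_lit 46, nat_lit 40, nat_lit 80, nat_lit 80, nat_lit 41, nat_lit 282, nat_lit 60, nat_lit 7]⟩,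
 ⟨nat_lit 4472, nat_lit 5000, ⟨.ofNat (nat_lit 746395), .ofNat (nat_lit 817819), .ofNat (nat_lit 757103), .ofNat (nat_lit 828527), .ofNat (nat_lit 736251), .ofNat (nat_lit 804224), .ofNat (nat_lit 747027), .ofNat (nat_lit 815001)⟩, ⟨.ofNat (nat_lit 0), .ofNat (nat_lit 0), .ofNat (nat_lit 0), .ofNat (nat_lit 0), .ofNat (nat_lit 0), .ofNat (nat_lit 0), .ofNat (nat_lit 0), .ofNat (nat_lit 0)⟩⟩, []⟩
noncomputable def p014_l144 : Lf2 := ⟨nat_lit 0, nat_lit 10, [nat_lit 0, nat_lit 5, nat_lit 5, nat_lit 20], false, nat_lit 0, nat_lit 0, nat_lit 0, nat_lit 0, ⟨nat_lit 150, nat_lit 850, nat_lit 0, nat_lit 9, nat_lit 331, nat_lit 0, nat_lit 0, nat_lit 0, nat_lit 0, nat_lit 0, nat_lit 0, nat_lit 0, nat_lit 39770220, nat_lit 27229780, nat_lit 0, nat_lit 3377634, true, true⟩,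
 nat_lit 0, nat_lit 0, nat_lit 2725, nat_lit 0, nat_lit 3541, nat_lit 1167, nat_lit 68, nat_lit 0, nat_lit 0, nat_lit 238, nat_lit 0, nat_lit 0, nat_lit 0, nat_lit 0, nat_lit 0, nat_lit 850000, nat_lit 0, nat_lit 0, [(nat_lit 12, [(nat_lit 2, nat_lit 850)])],
 ⟨p014_k1, nat_lit 0, nat_lit 0, nat_lit 202, nat_lit 0, nat_lit 0, [nat_lit 2186316000, nat_lit 2923740000, nat_lit 1226400000], [], [nat_lit 28165833450, nat_lit 28525622808, nat_lit 29563442557, nat_lit 29894439505], nat_lit 0, nat_lit 0, nat_lit 0, nat_lit 0, nat_lit 0, nat_lit 0, [], [nat_lit 42, nat_lit 40, nat_lit 80, nat_lit 80, nat_lit 13, nat_lit 203, nat_lit 0, nat_lit 5]⟩, ⟨p014_k40, nat_lit 0, nat_lit 0, nat_lit 539, nat_lit 0, nat_lit 612822, [nat_lit 937500000, nat_lit 1195200000, nat_lit 1780800000], [], [nat_lit 6168562252, nat_lit 6173246500, nat_lit 6320156912, nat_lit 6321213042], nat_lit 1271250, nat_lit 1271250,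 nat_lit 1271250, nat_lit 1271250, nat_lit 0, nat_lit 0, [nat_lit 1412500, nat_lit 1271250, nat_lit 1271250], [nat_lit 53, nat_lit 40, nat_lit 80, nat_lit 80, nat_lit 14, nat_lit 272, nat_lit 60, nat_lit 7]⟩,
 ⟨nat_lit 5244, nat_lit 5478, ⟨.ofNat (nat_lit 799717), .ofNat (nat_lit 852168), .ofNat (nat_lit 810394), .ofNat (nat_lit 862845), .ofNat (nat_lit 792669), .ofNat (nat_lit 843887), .ofNat (nat_lit 803361), .ofNat (nat_lit 854579)⟩, ⟨.ofNat (nat_lit 0), .ofNat (nat_lit 0), .ofNat (nat_lit 0), .ofNat (nat_lit 0), .ofNat (nat_lit 0), .ofNat (nat_lit 0), .ofNat (nat_lit 0), .ofNat (nat_lit 0)⟩⟩, [⟨nat_lit 13, nat_lit 91, nat_lit 40, nat_lit 100, nat_lit 141948779⟩]⟩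
noncomputable def p014_l145 : Lf2 := ⟨nat_lit 0, nat_lit 10, [nat_lit 0, nat_lit 5, nat_lit 5, nat_lit 20], false, nat_lit 0, nat_lit 0, nat_lit 0, nat_lit 0, ⟨nat_lit 156, nat_lit 844, nat_lit 0, nat_lit 9, nat_lit 337, nat_lit 0, nat_lit 0, nat_lit 0, nat_lit 0, nat_lit 0, nat_lit 0, nat_lit 0, nat_lit 39211245, nat_lit 27788755, nat_lit 0, nat_lit 3392716, true, true⟩,
 nat_lit 0, nat_lit 0, nat_lit 2664, nat_lit 0, nat_lit 3532, nat_lit 1207, nat_lit 71, nat_lit 0, nat_lit 0, nat_lit 247, nat_lit 0, nat_lit 0, nat_lit 0, nat_lit 0, nat_lit 0, nat_lit 844000, nat_lit 0, nat_lit 0, [(nat_lit 12, [(nat_lit 2, nat_lit 844)])],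
 ⟨p014_k1, nat_lit 0, nat_lit 0, nat_lit 203, nat_lit 0, nat_lit 0, [nat_lit 2194050240, nat_lit 2936193600, nat_lit 1287216000], [], [nat_lit 28222239015, nat_lit 28581782331, nat_lit 29817845396, nat_lit 30146637983], nat_lit 0, nat_lit 0, nat_lit 0, nat_lit 0, nat_lit 0, nat_lit 0, [], [nat_lit 42, nat_lit 40, nat_lit 80, nat_lit 80, nat_lit 13, nat_lit 203, nat_lit 0, nat_lit 5]⟩, ⟨p014_k41, nat_lit 0, nat_lit 0, nat_lit 547, nat_lit 0, nat_lit 639462, [nat_lit 975000000, nat_lit 1243008000, nat_lit 1852032000], [], [nat_lit 6151232932, nat_lit 6156233347, nat_lit 6326747808, nat_lit 6329560148], nat_lit 1271250, nat_lit 1271250, nat_lit 1271250, nat_lit 1271250, nat_lit 0, nat_lit 0, [nat_lit 1412500, nat_lit 1271250, nat_lit 1271250], [nat_lit 53, nat_lit 40, nat_lit 80, nat_lit 80, nat_lit 14, nat_lit 272, nat_lit 60, nat_lit 7]⟩,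
 ⟨nat_lit 5244, nat_lit 5478, ⟨.ofNat (nat_lit 810394), .ofNat (nat_lit 870338), .ofNat (nat_lit 821072), .ofNat (nat_lit 881015), .ofNat (nat_lit 803361), .ofNat (nat_lit 861895), .ofNat (nat_lit 814053), .ofNat (nat_lit 872587)⟩, ⟨.ofNat (nat_lit 0), .ofNat (nat_lit 0), .ofNat (nat_lit 0), .ofNat (nat_lit 0), .ofNat (nat_lit 0), .ofNat (nat_lit 0), .ofNat (nat_lit 0), .ofNat (nat_lit 0)⟩⟩, [⟨nat_lit 13, nat_lit 91, nat_lit 36, nat_lit 100, nat_lit 138767274⟩]⟩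
noncomputable def p014_l146 : Lf2 := ⟨nat_lit 0, nat_lit 10, [nat_lit 0, nat_lit 5, nat_lit 5, nat_lit 20], false, nat_lit 0, nat_lit 0, nat_lit 0, nat_lit 0, ⟨nat_lit 32, nat_lit 968, nat_lit 0, nat_lit 9, nat_lit 330, nat_lit 0, nat_lit 0, nat_lit 0, nat_lit 0, nat_lit 0, nat_lit 0, nat_lit 0, nat_lit 39858524, nat_lit 27141476, nat_lit 0, nat_lit 3375120, true, true⟩,
 nat_lit 0, nat_lit 0, nat_lit 741, nat_lit 0, nat_lit 3769, nat_lit 317, nat_lit 0, nat_lit 0, nat_lit 0, nat_lit 19, nat_lit 0, nat_lit 0, nat_lit 0, nat_lit 0, nat_lit 0, nat_lit 242000, nat_lit 0, nat_lit 0, [(nat_lit 12, [(nat_lit 0, nat_lit 968)])],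
 ⟨p014_k23, nat_lit 0, nat_lit 0, nat_lit 191, nat_lit 0, nat_lit 0, [nat_lit 2393376000, nat_lit 2983193601, nat_lit 3391596799], [], [nat_lit 29941625875, nat_lit 30340020849, nat_lit 31460941725, nat_lit 31826132455], nat_lit 0, nat_lit 0, nat_lit 0, nat_lit 0, nat_lit 0, nat_lit 0, [], [nat_lit 18, nat_lit 40, nat_lit 80, nat_lit 80, nat_lit 2, nat_lit 203, nat_lit 0, nat_lit 6]⟩, ⟨p014_k31, nat_lit 0, nat_lit 0, nat_lit 677, nat_lit 0, nat_lit 911105, [nat_lit 200000000, nat_lit 314944000, nat_lit 379904000], [], [nat_lit 1464542790, nat_lit 1457478086, nat_lit 1486324018, nat_lit 1483335395], nat_lit 1271250, nat_lit 1271250, nat_lit 1271250, nat_lit 1271250, nat_lit 0, nat_lit 0, [nat_lit 1412500, nat_lit 1271250, nat_lit 1271250], [nat_lit 46, nat_lit 40, nat_lit 80, nat_lit 80, nat_lit 41, nat_lit 272, nat_lit 60, nat_lit 7]⟩,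
 ⟨nat_lit 5000, nat_lit 5245, ⟨.ofNat (nat_lit 792673), .ofNat (nat_lit 843891), .ofNat (nat_lit 814056), .ofNat (nat_lit 865274), .ofNat (nat_lit 785702), .ofNat (nat_lit 835701), .ofNat (nat_lit 807129), .ofNat (nat_lit 857127)⟩, ⟨.ofNat (nat_lit 0), .ofNat (nat_lit 0), .ofNat (nat_lit 0), .ofNat (nat_lit 0), .ofNat (nat_lit 0), .ofNat (nat_lit 0), .ofNat (nat_lit 0), .ofNat (nat_lit 0)⟩⟩, [⟨nat_lit 13, nat_lit 88, nat_lit 43, nat_lit 100, nat_lit 206326236⟩]⟩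
noncomputable def p014_l147 : Lf2 := ⟨nat_lit 0, nat_lit 10, [nat_lit 0, nat_lit 5, nat_lit 5, nat_lit 20], false, nat_lit 0, nat_lit 0, nat_lit 0, nat_lit 0, ⟨nat_lit 1000, nat_lit 0, nat_lit 0, nat_lit 0, nat_lit 0, nat_lit 0, nat_lit 0, nat_lit 0, nat_lit 0, nat_lit 0, nat_lit 0, nat_lit 0, nat_lit 0, nat_lit 0, nat_lit 0, nat_lit 0, false, false⟩,
 nat_lit 0, nat_lit 0, nat_lit 16406, nat_lit 0, nat_lit 4481, nat_lit 7031, nat_lit 0, nat_lit 0, nat_lit 0, nat_lit 1631, nat_lit 0, nat_lit 0, nat_lit 0, nat_lit 0, nat_lit 0, nat_lit 0, nat_lit 0, nat_lit 0, [],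
 ⟨p014_k1, nat_lit 0, nat_lit 0, nat_lit 204, nat_lit 0, nat_lit 0, [nat_lit 3282000000, nat_lit 4688000000, nat_lit 9842000000], [], [nat_lit 37922727950, nat_lit 38693702106, nat_lit 39693495437, nat_lit 40386093954], nat_lit 0, nat_lit 0, nat_lit 0, nat_lit 0, nat_lit 0, nat_lit 0, [], [nat_lit 42, nat_lit 40, nat_lit 80, nat_lit 80, nat_lit 13, nat_lit 203, nat_lit 0, nat_lit 5]⟩, ⟨p014_k40, nat_lit 0, nat_lit 0, nat_lit 404, nat_lit 0, nat_lit 320535, [nat_lit 6250000000, nat_lit 7968000000, nat_lit 11872000000], [], [nat_lit 40174762270, nat_lit 40280329721, nat_lit 41436739739, nat_lit 41492968219], nat_lit 1271250, nat_lit 1271250, nat_lit 1271250, nat_lit 1271250, nat_lit 0, nat_lit 0, [nat_lit 1412500, nat_lit 1271250, nat_lit 1271250], [nat_lit 53, nat_lit 40, nat_lit 80, nat_lit 80, nat_lit 14, nat_lit 272, nat_lit 60, nat_lit 7]⟩,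
 zbF0, [⟨nat_lit 13, nat_lit 89, nat_lit 41, nat_lit 100, nat_lit 8373148⟩]⟩
noncomputable def p014_l148 : Lf2 := ⟨nat_lit 0, nat_lit 10, [nat_lit 0, nat_lit 5, nat_lit 5, nat_lit 20], false, nat_lit 0, nat_lit 0, nat_lit 0, nat_lit 0, ⟨nat_lit 1000, nat_lit 0, nat_lit 0, nat_lit 0, nat_lit 0, nat_lit 0, nat_lit 0, nat_lit 0, nat_lit 0, nat_lit 0, nat_lit 0, nat_lit 0, nat_lit 0, nat_lit 0, nat_lit 0, nat_lit 0, false, false⟩,
 nat_lit 0, nat_lit 0, nat_lit 15771, nat_lit 0, nat_lit 4487, nat_lit 7542, nat_lit 1389, nat_lit 0, nat_lit 0, nat_lit 1590, nat_lit 0, nat_lit 0, nat_lit 0, nat_lit 0, nat_lit 0, nat_lit 0, nat_lit 0, nat_lit 0, [],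
 ⟨p014_k1, nat_lit 0, nat_lit 0, nat_lit 205, nat_lit 0, nat_lit 0, [nat_lit 3282000000, nat_lit 4688000000, nat_lit 9842000000], [], [nat_lit 30997558775, nat_lit 31383209881, nat_lit 32990918075, nat_lit 33332437773], nat_lit 0, nat_lit 0, nat_lit 0, nat_lit 0, nat_lit 0, nat_lit 0, [], [nat_lit 42, nat_lit 40, nat_lit 80, nat_lit 80, nat_lit 13, nat_lit 203, nat_lit 0, nat_lit 5]⟩, ⟨p014_k42, nat_lit 0, nat_lit 0, nat_lit 555, nat_lit 0, nat_lit 669582, [nat_lit 6250000000, nat_lit 7968000000, nat_lit 11872000000], [], [nat_lit 38169724898, nat_lit 38205542096, nat_lit 39421104085, nat_lit 39464649417], nat_lit 1271250, nat_lit 1271250, nat_lit 1271250, nat_lit 1271250, nat_lit 0, nat_lit 0, [nat_lit 1412500, nat_lit 1271250, nat_lit 1271250], [nat_lit 53, nat_lit 40, nat_lit 80, nat_lit 80, nat_lit 14, nat_lit 272, nat_lit 60, nat_lit 6]⟩,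
 zbF0, []⟩
noncomputable def p014_l149 : Lf2 := ⟨nat_lit 0, nat_lit 10, [nat_lit 0, nat_lit 5, nat_lit 5, nat_lit 20], false, nat_lit 0, nat_lit 0, nat_lit 0, nat_lit 0, ⟨nat_lit 1000, nat_lit 0, nat_lit 0, nat_lit 0, nat_lit 0, nat_lit 0, nat_lit 0, nat_lit 0, nat_lit 0, nat_lit 0, nat_lit 0, nat_lit 0, nat_lit 0, nat_lit 0, nat_lit 0, nat_lit 0, false, false⟩,
 nat_lit 0, nat_lit 0, nat_lit 14946, nat_lit 0, nat_lit 4601, nat_lit 7527, nat_lit 1436, nat_lit 0, nat_lit 0, nat_lit 1540, nat_lit 0, nat_lit 0, nat_lit 0, nat_lit 0, nat_lit 0, nat_lit 0, nat_lit 0, nat_lit 0, [],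
 ⟨p014_k1, nat_lit 0, nat_lit 0, nat_lit 205, nat_lit 0, nat_lit 0, [nat_lit 3282000000, nat_lit 4688000000, nat_lit 9842000000], [], [nat_lit 30727719450, nat_lit 31116487088, nat_lit 32844221732, nat_lit 33216965675], nat_lit 0, nat_lit 0, nat_lit 0, nat_lit 0, nat_lit 0, nat_lit 0, [], [nat_lit 42, nat_lit 40, nat_lit 80, nat_lit 80, nat_lit 13, nat_lit 203, nat_lit 0, nat_lit 5]⟩, ⟨p014_k43, nat_lit 0, nat_lit 0, nat_lit 564, nat_lit 0, nat_lit 702063, [nat_lit 6250000000, nat_lit 7968000000, nat_lit 11872000000], [], [nat_lit 37678813356, nat_lit 37711008328, nat_lit 38774591449, nat_lit 38784188207], nat_lit 1271250, nat_lit 1271250, nat_lit 1271250, nat_lit 1271250, nat_lit 0, nat_lit 0, [nat_lit 1412500, nat_lit 1271250, nat_lit 1271250], [nat_lit 53, nat_lit 40, nat_lit 80, nat_lit 80, nat_lit 14, nat_lit 272, nat_lit 60, nat_lit 6]⟩,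
 zbF0, []⟩
noncomputable def p014_l150 : Lf2 := ⟨nat_lit 0, nat_lit 10, [nat_lit 0, nat_lit 5, nat_lit 5, nat_lit 20], false, nat_lit 0, nat_lit 0, nat_lit 0, nat_lit 0, ⟨nat_lit 88, nat_lit 912, nat_lit 0, nat_lit 9, nat_lit 338, nat_lit 0, nat_lit 0, nat_lit 0, nat_lit 0, nat_lit 0, nat_lit 0, nat_lit 0, nat_lit 39094592, nat_lit 27905408, nat_lit 0, nat_lit 3395682, true, true⟩,
 nat_lit 0, nat_lit 0, nat_lit 1429, nat_lit 0, nat_lit 3554, nat_lit 683, nat_lit 0, nat_lit 0, nat_lit 0, nat_lit 200, nat_lit 0, nat_lit 0, nat_lit 0, nat_lit 0, nat_lit 0, nat_lit 364800, nat_lit 0, nat_lit 0, [(nat_lit 12, [(nat_lit 1, nat_lit 912)])],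
 ⟨p014_k23, nat_lit 0, nat_lit 0, nat_lit 193, nat_lit 0, nat_lit 0, [nat_lit 2175196800, nat_lit 3031734400, nat_lit 3147168000], [], [nat_lit 29552762016, nat_lit 29943966100, nat_lit 31245421743, nat_lit 31600270324], nat_lit 0, nat_lit 0, nat_lit 0, nat_lit 0, nat_lit 0, nat_lit 0, [], [nat_lit 18, nat_lit 40, nat_lit 80, nat_lit 80, nat_lit 2, nat_lit 203, nat_lit 0, nat_lit 6]⟩, ⟨p014_k19, nat_lit 0, nat_lit 0, nat_lit 646, nat_lit 0, nat_lit 848811, [nat_lit 550000000, nat_lit 866096000, nat_lit 1044736000], [], [nat_lit 3344614218, nat_lit 3340906969, nat_lit 3409587537, nat_lit 3406672917], nat_lit 1271250, nat_lit 1271250, nat_lit 1271250, nat_lit 1271250, nat_lit 0, nat_lit 0, [nat_lit 1412500, nat_lit 1271250, nat_lit 1271250], [nat_lit 46, nat_lit 40, nat_lit 80, nat_lit 80, nat_lit 41, nat_lit 272, nat_lit 60, nat_lit 6]⟩,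
 ⟨nat_lit 5000, nat_lit 5245, ⟨.ofNat (nat_lit 814056), .ofNat (nat_lit 872590), .ofNat (nat_lit 824747), .ofNat (nat_lit 883282), .ofNat (nat_lit 807129), .ofNat (nat_lit 864269), .ofNat (nat_lit 817841), .ofNat (nat_lit 874983)⟩, ⟨.ofNat (nat_lit 0), .ofNat (nat_lit 0), .ofNat (nat_lit 0), .ofNat (nat_lit 0), .ofNat (nat_lit 0), .ofNat (nat_lit 0), .ofNat (nat_lit 0), .ofNat (nat_lit 0)⟩⟩, [⟨nat_lit 13, nat_lit 89, nat_lit 36, nat_lit 100, nat_lit 177388737⟩]⟩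
noncomputable def p014_l151 : Lf2 := ⟨nat_lit 0, nat_lit 10, [nat_lit 0, nat_lit 5, nat_lit 5, nat_lit 20], false, nat_lit 0, nat_lit 0, nat_lit 0, nat_lit 0, ⟨nat_lit 87, nat_lit 913, nat_lit 0, nat_lit 9, nat_lit 344, nat_lit 0, nat_lit 0, nat_lit 0, nat_lit 0, nat_lit 0, nat_lit 0, nat_lit 0, nat_lit 38545866, nat_lit 28454134, nat_lit 0, nat_lit 3408800, true, true⟩,
 nat_lit 0, nat_lit 0, nat_lit 1343, nat_lit 0, nat_lit 3535, nat_lit 676, nat_lit 0, nat_lit 0, nat_lit 0, nat_lit 142, nat_lit 0, nat_lit 0, nat_lit 0, nat_lit 0, nat_lit 0, nat_lit 365200, nat_lit 0, nat_lit 0, [(nat_lit 12, [(nat_lit 1, nat_lit 913)])],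
 ⟨p014_k23, nat_lit 0, nat_lit 0, nat_lit 194, nat_lit 0, nat_lit 0, [nat_lit 2173983200, nat_lit 3028205600, nat_lit 3141882000], [], [nat_lit 29552779340, nat_lit 29943347950, nat_lit 31452676816, nat_lit 31802503780], nat_lit 0, nat_lit 0, nat_lit 0, nat_lit 0, nat_lit 0, nat_lit 0, [], [nat_lit 18, nat_lit 40, nat_lit 80, nat_lit 80, nat_lit 2, nat_lit 203, nat_lit 0, nat_lit 6]⟩, ⟨p014_k21, nat_lit 0, nat_lit 0, nat_lit 649, nat_lit 0, nat_lit 864258, [nat_lit 543750000, nat_lit 856254000, nat_lit 1032864000], [], [nat_lit 3225235655, nat_lit 3226536862, nat_lit 3314583489, nat_lit 3316714340], nat_lit 1271250, nat_lit 1271250, nat_lit 1271250, nat_lit 1271250, nat_lit 0, nat_lit 0, [nat_lit 1412500, nat_lit 1271250, nat_lit 1271250], [nat_lit 46, nat_lit 40, nat_lit 80, nat_lit 80, nat_lit 41, nat_lit 272, nat_lit 60, nat_lit 6]⟩,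
 ⟨nat_lit 5000, nat_lit 5245, ⟨.ofNat (nat_lit 824747), .ofNat (nat_lit 890599), .ofNat (nat_lit 835439), .ofNat (nat_lit 901290), .ofNat (nat_lit 817841), .ofNat (nat_lit 882125), .ofNat (nat_lit 828555), .ofNat (nat_lit 892838)⟩, ⟨.ofNat (nat_lit 0), .ofNat (nat_lit 0), .ofNat (nat_lit 0), .ofNat (nat_lit 0), .ofNat (nat_lit 0), .ofNat (nat_lit 0), .ofNat (nat_lit 0), .ofNat (nat_lit 0)⟩⟩, [⟨nat_lit 13, nat_lit 89, nat_lit 32, nat_lit 100, nat_lit 177970301⟩]⟩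
noncomputable def p014_l152 : Lf2 := ⟨nat_lit 0, nat_lit 10, [nat_lit 0, nat_lit 5, nat_lit 5, nat_lit 20], false, nat_lit 0, nat_lit 0, nat_lit 0, nat_lit 0, ⟨nat_lit 1000, nat_lit 0, nat_lit 0, nat_lit 0, nat_lit 0, nat_lit 0, nat_lit 0, nat_lit 0, nat_lit 0, nat_lit 0, nat_lit 0, nat_lit 0, nat_lit 0, nat_lit 0, nat_lit 0, nat_lit 0, false, false⟩,
 nat_lit 0, nat_lit 0, nat_lit 18687, nat_lit 0, nat_lit 4463, nat_lit 8937, nat_lit 751, nat_lit 0, nat_lit 0, nat_lit 754, nat_lit 0, nat_lit 0, nat_lit 0, nat_lit 0, nat_lit 0, nat_lit 0, nat_lit 0, nat_lit 0, [],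
 ⟨p014_k0, nat_lit 0, nat_lit 0, nat_lit 215, nat_lit 0, nat_lit 0, [nat_lit 3282000000, nat_lit 6250000000, nat_lit 9842000000], [], [nat_lit 33124291725, nat_lit 33894281713, nat_lit 35112667516, nat_lit 35794755580], nat_lit 0, nat_lit 0, nat_lit 0, nat_lit 0, nat_lit 0, nat_lit 0, [], [nat_lit 8, nat_lit 40, nat_lit 80, nat_lit 80, nat_lit 1, nat_lit 203, nat_lit 0, nat_lit 5]⟩, ⟨p014_k19, nat_lit 0, nat_lit 0, nat_lit 456, nat_lit 0, nat_lit 437989, [nat_lit 6250000000, nat_lit 9842000000, nat_lit 11872000000], [], [nat_lit 42650166786, nat_lit 42596079532, nat_lit 43992104502, nat_lit 43947396796], nat_lit 1271250, nat_lit 1271250, nat_lit 1271250, nat_lit 1271250, nat_lit 0, nat_lit 0, [nat_lit 1412500, nat_lit 1271250, nat_lit 1271250], [nat_lit 46, nat_lit 40, nat_lit 80, nat_lit 80, nat_lit 41, nat_lit 272, nat_lit 60, nat_lit 6]⟩,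
 zbF0, [⟨nat_lit 13, nat_lit 90, nat_lit 31, nat_lit 100, nat_lit 17686859⟩]⟩
noncomputable def p014_l153 : Lf2 := ⟨nat_lit 0, nat_lit 10, [nat_lit 0, nat_lit 5, nat_lit 5, nat_lit 20], false, nat_lit 0, nat_lit 0, nat_lit 0, nat_lit 0, ⟨nat_lit 52, nat_lit 948, nat_lit 0, nat_lit 9, nat_lit 326, nat_lit 0, nat_lit 0, nat_lit 0, nat_lit 0, nat_lit 0, nat_lit 0, nat_lit 0, nat_lit 40292689, nat_lit 26707311, nat_lit 0, nat_lit 3362233, true, true⟩,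
 nat_lit 0, nat_lit 0, nat_lit 1223, nat_lit 0, nat_lit 3483, nat_lit 524, nat_lit 0, nat_lit 0, nat_lit 0, nat_lit 31, nat_lit 0, nat_lit 0, nat_lit 0, nat_lit 0, nat_lit 0, nat_lit 379200, nat_lit 0, nat_lit 0, [(nat_lit 15, [(nat_lit 1, nat_lit 948)])],
 ⟨p014_k4, nat_lit 0, nat_lit 0, nat_lit 191, nat_lit 0, nat_lit 0, [nat_lit 2085813601, nat_lit 2557413601, nat_lit 2619567999], [], [nat_lit 29348960950, nat_lit 29737790368, nat_lit 30580759787, nat_lit 30942716926], nat_lit 0, nat_lit 0, nat_lit 0, nat_lit 0, nat_lit 0, nat_lit 0, [], [nat_lit 18, nat_lit 40, nat_lit 80, nat_lit 80, nat_lit 2, nat_lit 203, nat_lit 0, nat_lit 6]⟩, ⟨p014_k31, nat_lit 0, nat_lit 0, nat_lit 795, nat_lit 0, nat_lit 1183950, [nat_lit 325000000, nat_lit 511784000, nat_lit 617344000], [], [nat_lit 2379609544, nat_lit 2366075768, nat_lit 2401437882, nat_lit 2394251460], nat_lit 1271250, nat_lit 1271250, nat_lit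 1271250, nat_lit 1271250, nat_lit 0, nat_lit 0, [nat_lit 1412500, nat_lit 1271250, nat_lit 1271250], [nat_lit 46, nat_lit 40, nat_lit 80, nat_lit 80, nat_lit 41, nat_lit 275, nat_lit 60, nat_lit 7]⟩,
 ⟨nat_lit 4743, nat_lit 5000, ⟨.ofNat (nat_lit 785707), .ofNat (nat_lit 828563), .ofNat (nat_lit 807132), .ofNat (nat_lit 849988), .ofNat (nat_lit 778792), .ofNat (nat_lit 820610), .ofNat (nat_lit 800276), .ofNat (nat_lit 842095)⟩, ⟨.ofNat (nat_lit 0), .ofNat (nat_lit 0), .ofNat (nat_lit 0), .ofNat (nat_lit 0), .ofNat (nat_lit 0), .ofNat (nat_lit 0), .ofNat (nat_lit 0), .ofNat (nat_lit 0)⟩⟩, [⟨nat_lit 13, nat_lit 87, nat_lit 41, nat_lit 100, nat_lit 192843590⟩]⟩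
noncomputable def p014_l154 : Lf2 := ⟨nat_lit 0, nat_lit 10, [nat_lit 0, nat_lit 5, nat_lit 5, nat_lit 20], false, nat_lit 0, nat_lit 0, nat_lit 0, nat_lit 0, ⟨nat_lit 35, nat_lit 965, nat_lit 0, nat_lit 9, nat_lit 321, nat_lit 0, nat_lit 0, nat_lit 0, nat_lit 0, nat_lit 0, nat_lit 0, nat_lit 0, nat_lit 40721313, nat_lit 26278687, nat_lit 0, nat_lit 3348651, true, true⟩,
 nat_lit 0, nat_lit 0, nat_lit 848, nat_lit 0, nat_lit 3713, nat_lit 363, nat_lit 0, nat_lit 0, nat_lit 0, nat_lit 22, nat_lit 0, nat_lit 0, nat_lit 0, nat_lit 0, nat_lit 0, nat_lit 241250, nat_lit 0, nat_lit 0, [(nat_lit 15, [(nat_lit 0, nat_lit 965)])],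
 ⟨p014_k5, nat_lit 0, nat_lit 0, nat_lit 192, nat_lit 0, nat_lit 0, [nat_lit 2352126000, nat_lit 2848182000, nat_lit 3252031000], [], [nat_lit 30573061848, nat_lit 30969583846, nat_lit 31604257058, nat_lit 31977320935], nat_lit 0, nat_lit 0, nat_lit 0, nat_lit 0, nat_lit 0, nat_lit 0, [], [nat_lit 18, nat_lit 40, nat_lit 80, nat_lit 80, nat_lit 2, nat_lit 203, nat_lit 0, nat_lit 5]⟩, ⟨p014_k31, nat_lit 0, nat_lit 0, nat_lit 902, nat_lit 0, nat_lit 1437497, [nat_lit 218750000, nat_lit 344470000, nat_lit 415520000], [], [nat_lit 1557985772, nat_lit 1549865308, nat_lit 1590227334, nat_lit 1590409549], nat_lit 1271250, nat_lit 1271250, nat_lit 1271250, nat_lit 1271250, nat_lit 0, nat_lit 0, [nat_lit 1412500, nat_lit 1271250, nat_lit 1271250], [nat_lit 46, nat_lit 40, nat_lit 80, nat_lit 80, nat_lit 41, nat_lit 301, nat_lit 60, nat_lit 7]⟩,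
 ⟨nat_lit 4472, nat_lit 4744, ⟨.ofNat (nat_lit 778796), .ofNat (nat_lit 813645), .ofNat (nat_lit 800281), .ofNat (nat_lit 835131), .ofNat (nat_lit 771909), .ofNat (nat_lit 805898), .ofNat (nat_lit 793473), .ofNat (nat_lit 827462)⟩, ⟨.ofNat (nat_lit 0), .ofNat (nat_lit 0), .ofNat (nat_lit 0), .ofNat (nat_lit 0), .ofNat (nat_lit 0), .ofNat (nat_lit 0), .ofNat (nat_lit 0), .ofNat (nat_lit 0)⟩⟩, [⟨nat_lit 13, nat_lit 82, nat_lit 53, nat_lit 100, nat_lit 234644013⟩]⟩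
noncomputable def p014_l155 : Lf2 := ⟨nat_lit 0, nat_lit 10, [nat_lit 0, nat_lit 5, nat_lit 5, nat_lit 20], true, nat_lit 0, nat_lit 0, nat_lit 0, nat_lit 0, ⟨nat_lit 0, nat_lit 1000, nat_lit 0, nat_lit 9, nat_lit 332, nat_lit 0, nat_lit 0, nat_lit 0, nat_lit 0, nat_lit 0, nat_lit 0, nat_lit 0, nat_lit 39669032, nat_lit 27330968, nat_lit 0, nat_lit 3380471, true, true⟩,
 nat_lit 0, nat_lit 0, nat_lit 0, nat_lit 0, nat_lit 3432, nat_lit 0, nat_lit 0, nat_lit 0, nat_lit 0, nat_lit 0, nat_lit 0, nat_lit 0, nat_lit 0, nat_lit 0, nat_lit 0, nat_lit 400000, nat_lit 0, nat_lit 0, [(nat_lit 15, [(nat_lit 1, nat_lit 1000)])],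
 ⟨p014_k4, nat_lit 0, nat_lit 0, nat_lit 195, nat_lit 0, nat_lit 0, [nat_lit 2020200000, nat_lit 2354866667, nat_lit 2328333333], [], [nat_lit 29007899733, nat_lit 29782147077, nat_lit 30436258301, nat_lit 31203899135], nat_lit 0, nat_lit 0, nat_lit 0, nat_lit 0, nat_lit 0, nat_lit 0, [], [nat_lit 18, nat_lit 40, nat_lit 80, nat_lit 80, nat_lit 2, nat_lit 203, nat_lit 0, nat_lit 6]⟩, C1.Rw.none,
 ⟨nat_lit 4472, nat_lit 5000, ⟨.ofNat (nat_lit 807111), .ofNat (nat_lit 857108), .ofNat (nat_lit 817819), .ofNat (nat_lit 867816), .ofNat (nat_lit 793448), .ofNat (nat_lit 841029), .ofNat (nat_lit 804224), .ofNat (nat_lit 851806)⟩, ⟨.ofNat (nat_lit 0), .ofNat (nat_lit 0), .ofNat (nat_lit 0), .ofNat (nat_lit 0), .ofNat (nat_lit 0), .ofNat (nat_lit 0), .ofNat (nat_lit 0), .ofNat (nat_lit 0)⟩⟩, [⟨nat_lit 13, nat_lit 88, nat_lit 37, nat_lit 100, nat_lit 204133289⟩]⟩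
noncomputable def p014_l156 : Lf2 := ⟨nat_lit 0, nat_lit 10, [nat_lit 0, nat_lit 5, nat_lit 5, nat_lit 20], false, nat_lit 0, nat_lit 0, nat_lit 0, nat_lit 0, ⟨nat_lit 75, nat_lit 925, nat_lit 0, nat_lit 9, nat_lit 331, nat_lit 0, nat_lit 0, nat_lit 0, nat_lit 0, nat_lit 0, nat_lit 0, nat_lit 0, nat_lit 39773853, nat_lit 27226147, nat_lit 0, nat_lit 3377531, true, true⟩,
 nat_lit 0, nat_lit 0, nat_lit 1226, nat_lit 0, nat_lit 3714, nat_lit 586, nat_lit 0, nat_lit 0, nat_lit 0, nat_lit 58, nat_lit 0, nat_lit 0, nat_lit 0, nat_lit 0, nat_lit 0, nat_lit 231250, nat_lit 0, nat_lit 0, [(nat_lit 15, [(nat_lit 0, nat_lit 925)])],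
 ⟨p014_k4, nat_lit 0, nat_lit 0, nat_lit 195, nat_lit 0, nat_lit 0, [nat_lit 2390670000, nat_lit 2989190000, nat_lit 3445895000], [], [nat_lit 30408638300, nat_lit 31201749188, nat_lit 31885324336, nat_lit 32612938484], nat_lit 0, nat_lit 0, nat_lit 0, nat_lit 0, nat_lit 0, nat_lit 0, [], [nat_lit 18, nat_lit 40, nat_lit 80, nat_lit 80, nat_lit 2, nat_lit 203, nat_lit 0, nat_lit 6]⟩, ⟨p014_k19, nat_lit 0, nat_lit 0, nat_lit 574, nat_lit 0, nat_lit 701766, [nat_lit 468750000, nat_lit 738150000, nat_lit 890400000], [], [nat_lit 3338548675, nat_lit 3339426296, nat_lit 3415715483, nat_lit 3416582293], nat_lit 1271250, nat_lit 1271250, nat_lit 1271250, nat_lit 1271250, nat_lit 0, nat_lit 0, [nat_lit 1412500, nat_lit 1271250, nat_lit 1271250], [nat_lit 46, nat_lit 40, nat_lit 80, nat_lit 80, nat_lit 41, nat_lit 272, nat_lit 60, nat_lit 6]⟩,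
 ⟨nat_lit 4472, nat_lit 5000, ⟨.ofNat (nat_lit 807111), .ofNat (nat_lit 857108), .ofNat (nat_lit 812465), .ofNat (nat_lit 862462), .ofNat (nat_lit 793448), .ofNat (nat_lit 841029), .ofNat (nat_lit 798836), .ofNat (nat_lit 846417)⟩, ⟨.ofNat (nat_lit 0), .ofNat (nat_lit 0), .ofNat (nat_lit 0), .ofNat (nat_lit 0), .ofNat (nat_lit 0), .ofNat (nat_lit 0), .ofNat (nat_lit 0), .ofNat (nat_lit 0)⟩⟩, [⟨nat_lit 13, nat_lit 80, nat_lit 52, nat_lit 100, nat_lit 220680293⟩]⟩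
noncomputable def p014_l157 : Lf2 := ⟨nat_lit 0, nat_lit 10, [nat_lit 0, nat_lit 5, nat_lit 5, nat_lit 20], false, nat_lit 0, nat_lit 0, nat_lit 0, nat_lit 0, ⟨nat_lit 105, nat_lit 895, nat_lit 0, nat_lit 9, nat_lit 333, nat_lit 0, nat_lit 0, nat_lit 0, nat_lit 0, nat_lit 0, nat_lit 0, nat_lit 0, nat_lit 39564430, nat_lit 27435570, nat_lit 0, nat_lit 3383354, true, true⟩,
 nat_lit 0, nat_lit 0, nat_lit 1664, nat_lit 0, nat_lit 3501, nat_lit 816, nat_lit 0, nat_lit 0, nat_lit 0, nat_lit 82, nat_lit 0, nat_lit 0, nat_lit 0, nat_lit 0, nat_lit 0, nat_lit 358000, nat_lit 0, nat_lit 0, [(nat_lit 15, [(nat_lit 1, nat_lit 895)])],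
 ⟨p014_k4, nat_lit 0, nat_lit 0, nat_lit 195, nat_lit 0, nat_lit 0, [nat_lit 2152689001, nat_lit 2763855667, nat_lit 2916403333], [], [nat_lit 29707099784, nat_lit 30485962676, nat_lit 31147283158, nat_lit 31863288142], nat_lit 0, nat_lit 0, nat_lit 0, nat_lit 0, nat_lit 0, nat_lit 0, [], [nat_lit 18, nat_lit 40, nat_lit 80, nat_lit 80, nat_lit 2, nat_lit 203, nat_lit 0, nat_lit 6]⟩, ⟨p014_k20, nat_lit 0, nat_lit 0, nat_lit 576, nat_lit 0, nat_lit 709581, [nat_lit 656250000, nat_lit 1033410000, nat_lit 1246560000], [], [nat_lit 4580537328, nat_lit 4581811981, nat_lit 4687190503, nat_lit 4687308260], nat_lit 1271250, nat_lit 1271250, nat_lit 1271250, nat_lit 1271250, nat_lit 0, nat_lit 0, [nat_lit 1412500, nat_lit 1271250, nat_lit 1271250], [nat_lit 46, nat_lit 40, nat_lit 80, nat_lit 80, nat_lit 41, nat_lit 272, nat_lit 60, nat_lit 6]⟩,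
 ⟨nat_lit 4472, nat_lit 5000, ⟨.ofNat (nat_lit 812465), .ofNat (nat_lit 862462), .ofNat (nat_lit 817819), .ofNat (nat_lit 867816), .ofNat (nat_lit 798836), .ofNat (nat_lit 846417), .ofNat (nat_lit 804224), .ofNat (nat_lit 851806)⟩, ⟨.ofNat (nat_lit 0), .ofNat (nat_lit 0), .ofNat (nat_lit 0), .ofNat (nat_lit 0), .ofNat (nat_lit 0), .ofNat (nat_lit 0), .ofNat (nat_lit 0), .ofNat (nat_lit 0)⟩⟩, [⟨nat_lit 13, nat_lit 81, nat_lit 50, nat_lit 100, nat_lit 202489558⟩]⟩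
noncomputable def p014_l158 : Lf2 := ⟨nat_lit 0, nat_lit 10, [nat_lit 0, nat_lit 5, nat_lit 5, nat_lit 20], false, nat_lit 0, nat_lit 0, nat_lit 0, nat_lit 0, ⟨nat_lit 44, nat_lit 956, nat_lit 0, nat_lit 9, nat_lit 338, nat_lit 0, nat_lit 0, nat_lit 0, nat_lit 0, nat_lit 0, nat_lit 0, nat_lit 0, nat_lit 39117330, nat_lit 27882670, nat_lit 0, nat_lit 3395109, true, true⟩,
 nat_lit 0, nat_lit 0, nat_lit 708, nat_lit 0, nat_lit 3415, nat_lit 356, nat_lit 0, nat_lit 0, nat_lit 0, nat_lit 59, nat_lit 0, nat_lit 0, nat_lit 0, nat_lit 0, nat_lit 0, nat_lit 382400, nat_lit 0, nat_lit 0, [(nat_lit 15, [(nat_lit 1, nat_lit 956)])],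
 ⟨p014_k4, nat_lit 0, nat_lit 0, nat_lit 196, nat_lit 0, nat_lit 0, [nat_lit 2075719201, nat_lit 2526252534, nat_lit 2574762666], [], [nat_lit 29315110617, nat_lit 30088220797, nat_lit 30944190857, nat_lit 31646648789], nat_lit 0, nat_lit 0, nat_lit 0, nat_lit 0, nat_lit 0, nat_lit 0, [], [nat_lit 18, nat_lit 40, nat_lit 80, nat_lit 80, nat_lit 2, nat_lit 203, nat_lit 0, nat_lit 6]⟩, ⟨p014_k21, nat_lit 0, nat_lit 0, nat_lit 803, nat_lit 0, nat_lit 1221075, [nat_lit 275000000, nat_lit 433048000, nat_lit 522368000], [], [nat_lit 1693541614, nat_lit 1691291676, nat_lit 1728230821, nat_lit 1728951731], nat_lit 1271250, nat_lit 1271250, nat_lit 1271250, nat_lit 1271250, nat_lit 0, nat_lit 0, [nat_lit 1412500, nat_lit 1271250, nat_lit 1271250], [nat_lit 46, nat_lit 40, nat_lit 80, nat_lit 80, nat_lit 41, nat_lit 280, nat_lit 60, nat_lit 7]⟩,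
 ⟨nat_lit 4472, nat_lit 5000, ⟨.ofNat (nat_lit 817819), .ofNat (nat_lit 874958), .ofNat (nat_lit 828527), .ofNat (nat_lit 885667), .ofNat (nat_lit 804224), .ofNat (nat_lit 858603), .ofNat (nat_lit 815001), .ofNat (nat_lit 869380)⟩, ⟨.ofNat (nat_lit 0), .ofNat (nat_lit 0), .ofNat (nat_lit 0), .ofNat (nat_lit 0), .ofNat (nat_lit 0), .ofNat (nat_lit 0), .ofNat (nat_lit 0), .ofNat (nat_lit 0)⟩⟩, [⟨nat_lit 13, nat_lit 85, nat_lit 40, nat_lit 100, nat_lit 204775015⟩]⟩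
noncomputable def p014_l159 : Lf2 := ⟨nat_lit 0, nat_lit 10, [nat_lit 0, nat_lit 5, nat_lit 5, nat_lit 20], false, nat_lit 0, nat_lit 0, nat_lit 0, nat_lit 0, ⟨nat_lit 129, nat_lit 871, nat_lit 0, nat_lit 9, nat_lit 337, nat_lit 0, nat_lit 0, nat_lit 0, nat_lit 0, nat_lit 0, nat_lit 0, nat_lit 0, nat_lit 39221011, nat_lit 27778989, nat_lit 0, nat_lit 3392465, true, true⟩,
 nat_lit 0, nat_lit 0, nat_lit 2006, nat_lit 0, nat_lit 3511, nat_lit 1010, nat_lit 0, nat_lit 0, nat_lit 0, nat_lit 205, nat_lit 0, nat_lit 0, nat_lit 0, nat_lit 0, nat_lit 0, nat_lit 348400, nat_lit 0, nat_lit 0, [(nat_lit 15, [(nat_lit 1, nat_lit 871)])],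
 ⟨p014_k4, nat_lit 0, nat_lit 0, nat_lit 196, nat_lit 0, nat_lit 0, [nat_lit 2182972200, nat_lit 2857338867, nat_lit 3050819333], [], [nat_lit 29868703483, nat_lit 30648235295, nat_lit 31516585899, nat_lit 32224043588], nat_lit 0, nat_lit 0, nat_lit 0, nat_lit 0, nat_lit 0, nat_lit 0, [], [nat_lit 18, nat_lit 40, nat_lit 80, nat_lit 80, nat_lit 2, nat_lit 203, nat_lit 0, nat_lit 6]⟩, ⟨p014_k21, nat_lit 0, nat_lit 0, nat_lit 578, nat_lit 0, nat_lit 718464, [nat_lit 806250000, nat_lit 1269618000, nat_lit 1531488000], [], [nat_lit 4784127680, nat_lit 4783023768, nat_lit 4898054237, nat_lit 4903289604], nat_lit 1271250, nat_lit 1271250, nat_lit 1271250, nat_lit 1271250, nat_lit 0, nat_lit 0, [nat_lit 1412500, nat_lit 1271250, nat_lit 1271250], [nat_lit 46, nat_lit 40, nat_lit 80, nat_lit 80, nat_lit 41, nat_lit 272, nat_lit 60, nat_lit 6]⟩,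
 ⟨nat_lit 4472, nat_lit 5000, ⟨.ofNat (nat_lit 817819), .ofNat (nat_lit 874958), .ofNat (nat_lit 823173), .ofNat (nat_lit 880312), .ofNat (nat_lit 804224), .ofNat (nat_lit 858603), .ofNat (nat_lit 809613), .ofNat (nat_lit 863991)⟩, ⟨.ofNat (nat_lit 0), .ofNat (nat_lit 0), .ofNat (nat_lit 0), .ofNat (nat_lit 0), .ofNat (nat_lit 0), .ofNat (nat_lit 0), .ofNat (nat_lit 0), .ofNat (nat_lit 0)⟩⟩, [⟨nat_lit 13, nat_lit 81, nat_lit 48, nat_lit 100, nat_lit 189882602⟩]⟩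
noncomputable def p014_l160 : Lf2 := ⟨nat_lit 0, nat_lit 10, [nat_lit 0, nat_lit 5, nat_lit 5, nat_lit 20], false, nat_lit 0, nat_lit 0, nat_lit 0, nat_lit 0, ⟨nat_lit 129, nat_lit 871, nat_lit 0, nat_lit 9, nat_lit 339, nat_lit 0, nat_lit 0, nat_lit 0, nat_lit 0, nat_lit 0, nat_lit 0, nat_lit 0, nat_lit 39013872, nat_lit 27986128, nat_lit 0, nat_lit 3397698, true, true⟩,
 nat_lit 0, nat_lit 0, nat_lit 1948, nat_lit 0, nat_lit 3511, nat_lit 1005, nat_lit 0, nat_lit 0, nat_lit 0, nat_lit 176, nat_lit 0, nat_lit 0, nat_lit 0, nat_lit 0, nat_lit 0, nat_lit 348400, nat_lit 0, nat_lit 0, [(nat_lit 15, [(nat_lit 1, nat_lit 871)])],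
 ⟨p014_k4, nat_lit 0, nat_lit 0, nat_lit 196, nat_lit 0, nat_lit 0, [nat_lit 2182972200, nat_lit 2857338867, nat_lit 3050819333], [], [nat_lit 29868703483, nat_lit 30648235295, nat_lit 31516585899, nat_lit 32224043588], nat_lit 0, nat_lit 0, nat_lit 0, nat_lit 0, nat_lit 0, nat_lit 0, [], [nat_lit 18, nat_lit 40, nat_lit 80, nat_lit 80, nat_lit 2, nat_lit 203, nat_lit 0, nat_lit 6]⟩, ⟨p014_k44, nat_lit 0, nat_lit 0, nat_lit 580, nat_lit 0, nat_lit 728354, [nat_lit 806250000, nat_lit 1269618000, nat_lit 1531488000], [], [nat_lit 4797587068, nat_lit 4796541156, nat_lit 4911507202, nat_lit 4911140742], nat_lit 1271250, nat_lit 1271250, nat_lit 1271250, nat_lit 1271250, nat_lit 0, nat_lit 0, [nat_lit 1412500, nat_lit 1271250, nat_lit 1271250], [nat_lit 46, nat_lit 40, nat_lit 80, nat_lit 80, nat_lit 41, nat_lit 272, nat_lit 60, nat_lit 6]⟩,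
 ⟨nat_lit 4472, nat_lit 5000, ⟨.ofNat (nat_lit 823173), .ofNat (nat_lit 880312), .ofNat (nat_lit 828527), .ofNat (nat_lit 885667), .ofNat (nat_lit 809613), .ofNat (nat_lit 863991), .ofNat (nat_lit 815001), .ofNat (nat_lit 869380)⟩, ⟨.ofNat (nat_lit 0), .ofNat (nat_lit 0), .ofNat (nat_lit 0), .ofNat (nat_lit 0), .ofNat (nat_lit 0), .ofNat (nat_lit 0), .ofNat (nat_lit 0), .ofNat (nat_lit 0)⟩⟩, [⟨nat_lit 13, nat_lit 81, nat_lit 46, nat_lit 100, nat_lit 190161958⟩]⟩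
noncomputable def p014_l161 : Lf2 := ⟨nat_lit 0, nat_lit 10, [nat_lit 0, nat_lit 5, nat_lit 5, nat_lit 20], true, nat_lit 0, nat_lit 0, nat_lit 0, nat_lit 0, ⟨nat_lit 0, nat_lit 1000, nat_lit 0, nat_lit 5, nat_lit 213, nat_lit 0, nat_lit 0, nat_lit 0, nat_lit 0, nat_lit 0, nat_lit 0, nat_lit 0, nat_lit 0, nat_lit 0, nat_lit 0, nat_lit 5000000, false, true⟩,
 nat_lit 0, nat_lit 0, nat_lit 0, nat_lit 3843, nat_lit 4524, nat_lit 0, nat_lit 0, nat_lit 0, nat_lit 0, nat_lit 0, nat_lit 0, nat_lit 0, nat_lit 0, nat_lit 0, nat_lit 0, nat_lit 535000, nat_lit 0, nat_lit 0, [(nat_lit 12, [(nat_lit 1, nat_lit 775), (nat_lit 2, nat_lit 225)]), (nat_lit 15, [(nat_lit 1, nat_lit 775), (nat_lit 2, nat_lit 225)])],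
 ⟨p014_k15, nat_lit 0, nat_lit 0, nat_lit 300, nat_lit 0, nat_lit 0, [nat_lit 2833160001, nat_lit 2037640000], [], [nat_lit 27111509128, nat_lit 29030050670, nat_lit 32584701682, nat_lit 33611739639], nat_lit 0, nat_lit 0, nat_lit 0, nat_lit 0, nat_lit 0, nat_lit 0, [], [nat_lit 82, nat_lit 40, nat_lit 80, nat_lit 80, nat_lit 63, nat_lit 317, nat_lit 100, nat_lit 9]⟩, C1.Rw.none,
 ⟨nat_lit 4472, nat_lit 5478, ⟨.ofNat (nat_lit 155307), .ofNat (nat_lit 866988), .ofNat (nat_lit 198021), .ofNat (nat_lit 909625), .ofNat (nat_lit 187299), .ofNat (nat_lit 832909), .ofNat (nat_lit 230432), .ofNat (nat_lit 875965)⟩, ⟨.ofNat (nat_lit 0), .ofNat (nat_lit 0), .ofNat (nat_lit 0), .ofNat (nat_lit 0), .ofNat (nat_lit 0), .ofNat (nat_lit 0), .ofNat (nat_lit 0), .ofNat (nat_lit 0)⟩⟩, [⟨nat_lit 13, nat_lit 94, nat_lit 21, nat_lit 100, nat_lit 113969679⟩]⟩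
noncomputable def b_N_700_500_0_4 : St := ⟨false, nat_lit 0, nat_lit 2, nat_lit 0, nat_lit 40, nat_lit 280, nat_lit 320, nat_lit 200, nat_lit 240, nat_lit 16, nat_lit 396, nat_lit 0, nat_lit 0, nat_lit 0, nat_lit 0, nat_lit 0, nat_lit 0, nat_lit 40, nat_lit 80, nat_lit 0, nat_lit 0, nat_lit 0, nat_lit 0⟩
theorem d_N_700_500_0_4 (h : EB TB.env) : Dead b_N_700_500_0_4 := chkB_sound0 h (T :=
(.gv
(.st (nat_lit 1)
(.spl (nat_lit 2) (nat_lit 240)
(.leaf p014_l125)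
(.leaf p014_l126))
(.spl (nat_lit 2) (nat_lit 240)
(.leaf p014_l127)
(.spl (nat_lit 2) (nat_lit 320)
(.spl (nat_lit 2) (nat_lit 280)
(.spl (nat_lit 0) (nat_lit 300)
(.leaf p014_l128)
(.leaf p014_l129))
(.spl (nat_lit 0) (nat_lit 300)
(.spl (nat_lit 1) (nat_lit 220)
(.leaf p014_l130)
(.spl (nat_lit 0) (nat_lit 290)
(.leaf p014_l131)
(.leaf p014_l132)))
(.leaf p014_l133)))
(.spl (nat_lit 2) (nat_lit 360)
(.spl (nat_lit 0) (nat_lit 300)
(.spl (nat_lit 0) (nat_lit 290)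
(.spl (nat_lit 1) (nat_lit 220)
(.spl (nat_lit 6) (nat_lit 68)
(.spl (nat_lit 0) (nat_lit 285)
(.leaf p014_l134)
(.leaf p014_l135))
(.leaf p014_l136))
(.spl (nat_lit 1) (nat_lit 230)
(.leaf p014_l137)
(.leaf p014_l138)))
(.spl (nat_lit 1) (nat_lit 220)
(.leaf p014_l139)
(.leaf p014_l140)))
(.spl (nat_lit 1) (nat_lit 220)
(.leaf p014_l141)
(.spl (nat_lit 1) (nat_lit 230)
(.leaf p014_l142)
(.leaf p014_l143))))
(.spl (nat_lit 0) (nat_lit 300)
(.spl (nat_lit 1) (nat_lit 220)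
(.trX (nat_lit 13) (nat_lit 92) (nat_lit 31) (nat_lit 100) (nat_lit 392) (.spl (nat_lit 6) (nat_lit 60)
(.spl (nat_lit 0) (nat_lit 290)
(.spl (nat_lit 1) (nat_lit 210)
(.trX (nat_lit 13) (nat_lit 92) (nat_lit 35) (nat_lit 100) (nat_lit 388) (.leaf p014_l144))
(.leaf p014_l145))
(.trX (nat_lit 13) (nat_lit 90) (nat_lit 36) (nat_lit 100) (nat_lit 388) (.leaf p014_l146)))
(.leaf p014_l147)))
(.spl (nat_lit 6) (nat_lit 60)
(.spl (nat_lit 0) (nat_lit 290)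
(.spl (nat_lit 1) (nat_lit 230)
(.leaf p014_l148)
(.leaf p014_l149))
(.spl (nat_lit 1) (nat_lit 230)
(.trX (nat_lit 13) (nat_lit 90) (nat_lit 31) (nat_lit 100) (nat_lit 392) (.leaf p014_l150))
(.leaf p014_l151)))
(.leaf p014_l152)))
(.trX (nat_lit 13) (nat_lit 88) (nat_lit 32) (nat_lit 100) (nat_lit 392) (.spl (nat_lit 1) (nat_lit 220)
(.trX (nat_lit 13) (nat_lit 87) (nat_lit 41) (nat_lit 100) (nat_lit 384) (.spl (nat_lit 0) (nat_lit 310)
(.leaf p014_l153)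
(.trX (nat_lit 13) (nat_lit 84) (nat_lit 47) (nat_lit 100) (nat_lit 380) (.leaf p014_l154))))
(.spl (nat_lit 1) (nat_lit 230)
(.trX (nat_lit 13) (nat_lit 88) (nat_lit 37) (nat_lit 100) (nat_lit 388) (.spl (nat_lit 6) (nat_lit 60)
(.leaf p014_l155)
(.spl (nat_lit 1) (nat_lit 225)
(.leaf p014_l156)
(.leaf p014_l157))))
(.spl (nat_lit 6) (nat_lit 60)
(.leaf p014_l158)
(.spl (nat_lit 1) (nat_lit 235)
(.leaf p014_l159)
(.leaf p014_l160)))))))))))
(.leaf p014_l161))) (by decide +kernel)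
noncomputable def p014_l162 : Lf2 := ⟨nat_lit 0, nat_lit 10, [nat_lit 0, nat_lit 5, nat_lit 5, nat_lit 20], true, nat_lit 0, nat_lit 0, nat_lit 0, nat_lit 0, ⟨nat_lit 0, nat_lit 0, nat_lit 1000, nat_lit 5, nat_lit 97, nat_lit 0, nat_lit 0, nat_lit 0, nat_lit 0, nat_lit 215, nat_lit 88817, nat_lit 288, nat_lit 63255469, nat_lit 0, nat_lit 0, nat_lit 1077499, false, false⟩,
 nat_lit 0, nat_lit 5351, nat_lit 0, nat_lit 0, nat_lit 3404, nat_lit 0, nat_lit 0, nat_lit 0, nat_lit 0, nat_lit 0, nat_lit 0, nat_lit 0, nat_lit 0, nat_lit 0, nat_lit 140, nat_lit 638800, nat_lit 0, nat_lit 0, [(nat_lit 12, [(nat_lit 5, nat_lit 602), (nat_lit 6, nat_lit 398)])],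
 ⟨p014_k0, nat_lit 0, nat_lit 0, nat_lit 453, nat_lit 0, nat_lit 325640, [nat_lit 2881159201, nat_lit 2029345867, nat_lit 293949600], [], [nat_lit 16314953652, nat_lit 17308188530, nat_lit 15117056179, nat_lit 16097557667], nat_lit 1271250, nat_lit 1271250, nat_lit 88400, nat_lit 490000, nat_lit 0, nat_lit 0, [nat_lit 780000, nat_lit 1435000, nat_lit 1271250], [nat_lit 8, nat_lit 40, nat_lit 80, nat_lit 80, nat_lit 1, nat_lit 226, nat_lit 20, nat_lit 7]⟩, C1.Rw.none,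
 ⟨nat_lit 5000, nat_lit 5478, ⟨.ofNat (nat_lit 155307), .ofNat (nat_lit 275199), .ofNat (nat_lit 198021), .ofNat (nat_lit 317913), .ofNat (nat_lit 171427), .ofNat (nat_lit 285713), .ofNat (nat_lit 214284), .ofNat (nat_lit 328570)⟩, ⟨.ofNat (nat_lit 0), .ofNat (nat_lit 0), .ofNat (nat_lit 0), .ofNat (nat_lit 0), .ofNat (nat_lit 0), .ofNat (nat_lit 0), .ofNat (nat_lit 0), .ofNat (nat_lit 0)⟩⟩, [⟨nat_lit 0, nat_lit 100, nat_lit 88, nat_lit 68, nat_lit 207672788⟩]⟩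
noncomputable def p014_l163 : Lf2 := ⟨nat_lit 0, nat_lit 10, [nat_lit 0, nat_lit 5, nat_lit 5, nat_lit 20], true, nat_lit 0, nat_lit 0, nat_lit 0, nat_lit 0, ⟨nat_lit 0, nat_lit 0, nat_lit 1000, nat_lit 5, nat_lit 105, nat_lit 0, nat_lit 0, nat_lit 0, nat_lit 0, nat_lit 215, nat_lit 104017, nat_lit 294, nat_lit 62647317, nat_lit 0, nat_lit 0, nat_lit 1202078, false, false⟩,
 nat_lit 0, nat_lit 4560, nat_lit 0, nat_lit 0, nat_lit 3156, nat_lit 0, nat_lit 0, nat_lit 0, nat_lit 0, nat_lit 0, nat_lit 0, nat_lit 0, nat_lit 0, nat_lit 0, nat_lit 94, nat_lit 400000, nat_lit 0, nat_lit 0, [(nat_lit 15, [(nat_lit 5, nat_lit 1000)])],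
 ⟨p014_k4, nat_lit 0, nat_lit 0, nat_lit 408, nat_lit 0, nat_lit 402751, [nat_lit 2443200000, nat_lit 916400001, nat_lit 120399999], [], [nat_lit 17306197538, nat_lit 18388099724, nat_lit 16835167711, nat_lit 17958345296], nat_lit 1271250, nat_lit 1271250, nat_lit 134400, nat_lit 490000, nat_lit 0, nat_lit 0, [nat_lit 780000, nat_lit 1435000, nat_lit 1271250], [nat_lit 18, nat_lit 40, nat_lit 80, nat_lit 80, nat_lit 2, nat_lit 226, nat_lit 20, nat_lit 8]⟩, C1.Rw.none,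
 ⟨nat_lit 4472, nat_lit 5000, ⟨.ofNat (nat_lit 185713), .ofNat (nat_lit 285713), .ofNat (nat_lit 228562), .ofNat (nat_lit 328559), .ofNat (nat_lit 200895), .ofNat (nat_lit 296064), .ofNat (nat_lit 244020), .ofNat (nat_lit 339186)⟩, ⟨.ofNat (nat_lit 0), .ofNat (nat_lit 0), .ofNat (nat_lit 0), .ofNat (nat_lit 0), .ofNat (nat_lit 0), .ofNat (nat_lit 0), .ofNat (nat_lit 0), .ofNat (nat_lit 0)⟩⟩, [⟨nat_lit 0, nat_lit 100, nat_lit 82, nat_lit 76, nat_lit 145372604⟩]⟩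
noncomputable def p014_l164 : Lf2 := ⟨nat_lit 0, nat_lit 10, [nat_lit 0, nat_lit 5, nat_lit 5, nat_lit 20], true, nat_lit 0, nat_lit 0, nat_lit 0, nat_lit 0, ⟨nat_lit 0, nat_lit 0, nat_lit 1000, nat_lit 5, nat_lit 145, nat_lit 0, nat_lit 0, nat_lit 0, nat_lit 0, nat_lit 215, nat_lit 198017, nat_lit 324, nat_lit 59215309, nat_lit 0, nat_lit 0, nat_lit 1796314, false, false⟩,
 nat_lit 0, nat_lit 5394, nat_lit 0, nat_lit 0, nat_lit 3432, nat_lit 0, nat_lit 23, nat_lit 0, nat_lit 0, nat_lit 0, nat_lit 0, nat_lit 0, nat_lit 0, nat_lit 0, nat_lit 170, nat_lit 796600, nat_lit 0, nat_lit 0, [(nat_lit 12, [(nat_lit 5, nat_lit 339), (nat_lit 6, nat_lit 661)])],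
 ⟨p014_k0, nat_lit 0, nat_lit 0, nat_lit 368, nat_lit 0, nat_lit 358726, [nat_lit 3214964401, nat_lit 2473404400, nat_lit 362097200], [], [nat_lit 13552186053, nat_lit 13993512394, nat_lit 14710941842, nat_lit 15292604506], nat_lit 1271250, nat_lit 1271250, nat_lit 490000, nat_lit 1100001, nat_lit 0, nat_lit 0, [nat_lit 780000, nat_lit 1435000, nat_lit 1271250], [nat_lit 8, nat_lit 40, nat_lit 80, nat_lit 80, nat_lit 1, nat_lit 249, nat_lit 40, nat_lit 7]⟩, C1.Rw.none,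
 ⟨nat_lit 5244, nat_lit 5478, ⟨.ofNat (nat_lit 275199), .ofNat (nat_lit 425065), .ofNat (nat_lit 296556), .ofNat (nat_lit 446423), .ofNat (nat_lit 280485), .ofNat (nat_lit 426827), .ofNat (nat_lit 301871), .ofNat (nat_lit 448213)⟩, ⟨.ofNat (nat_lit 0), .ofNat (nat_lit 0), .ofNat (nat_lit 0), .ofNat (nat_lit 0), .ofNat (nat_lit 0), .ofNat (nat_lit 0), .ofNat (nat_lit 0), .ofNat (nat_lit 0)⟩⟩, []⟩
noncomputable def p014_l165 : Lf2 := ⟨nat_lit 0, nat_lit 10, [nat_lit 0, nat_lit 5, nat_lit 5, nat_lit 20], false, nat_lit 0, nat_lit 0, nat_lit 0, nat_lit 0, ⟨nat_lit 212, nat_lit 0, nat_lit 788, nat_lit 5, nat_lit 153, nat_lit 0, nat_lit 0, nat_lit 0, nat_lit 0, nat_lit 215, nat_lit 102006, nat_lit 293, nat_lit 58426718, nat_lit 0, nat_lit 0, nat_lit 1912444, false, false⟩,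
 nat_lit 0, nat_lit 6858, nat_lit 0, nat_lit 0, nat_lit 4363, nat_lit 2225, nat_lit 53, nat_lit 0, nat_lit 0, nat_lit 452, nat_lit 0, nat_lit 0, nat_lit 0, nat_lit 0, nat_lit 91, nat_lit 788000, nat_lit 0, nat_lit 0, [(nat_lit 12, [(nat_lit 6, nat_lit 788)])],
 ⟨p014_k0, nat_lit 0, nat_lit 0, nat_lit 437, nat_lit 0, nat_lit 428854, [nat_lit 2687049601, nat_lit 2256451200, nat_lit 384977600], [], [nat_lit 15827001162, nat_lit 16077046519, nat_lit 19867428026, nat_lit 19360336170], nat_lit 1271250, nat_lit 1271250, nat_lit 490000, nat_lit 1100001, nat_lit 0, nat_lit 0, [nat_lit 780000, nat_lit 1435000, nat_lit 1271250], [nat_lit 8, nat_lit 40, nat_lit 80, nat_lit 80, nat_lit 1, nat_lit 249, nat_lit 40, nat_lit 7]⟩, ⟨p014_k19, nat_lit 0, nat_lit 0, nat_lit 234, nat_lit 0, nat_lit 0, [nat_lit 1325000000, nat_lit 2086504000, nat_lit 2516864000], [], [nat_lit 4469739138, nat_lit 4751801480, nat_lit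 4373179944, nat_lit 4616227136], nat_lit 0, nat_lit 0, nat_lit 0, nat_lit 0, nat_lit 0, nat_lit 0, [], [nat_lit 46, nat_lit 40, nat_lit 80, nat_lit 80, nat_lit 41, nat_lit 317, nat_lit 100, nat_lit 8]⟩,
 ⟨nat_lit 5361, nat_lit 5478, ⟨.ofNat (nat_lit 296556), .ofNat (nat_lit 446423), .ofNat (nat_lit 317913), .ofNat (nat_lit 467779), .ofNat (nat_lit 299220), .ofNat (nat_lit 447319), .ofNat (nat_lit 320589), .ofNat (nat_lit 468688)⟩, ⟨.ofNat (nat_lit 0), .ofNat (nat_lit 0), .ofNat (nat_lit 0), .ofNat (nat_lit 0), .ofNat (nat_lit 0), .ofNat (nat_lit 0), .ofNat (nat_lit 0), .ofNat (nat_lit 0)⟩⟩, []⟩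
noncomputable def p014_l166 : Lf2 := ⟨nat_lit 0, nat_lit 10, [nat_lit 0, nat_lit 5, nat_lit 5, nat_lit 20], false, nat_lit 0, nat_lit 0, nat_lit 0, nat_lit 0, ⟨nat_lit 155, nat_lit 0, nat_lit 845, nat_lit 5, nat_lit 154, nat_lit 0, nat_lit 0, nat_lit 0, nat_lit 0, nat_lit 215, nat_lit 99977, nat_lit 292, nat_lit 58357027, nat_lit 0, nat_lit 0, nat_lit 1922400, false, false⟩,
 nat_lit 0, nat_lit 6166, nat_lit 0, nat_lit 0, nat_lit 4009, nat_lit 1631, nat_lit 0, nat_lit 0, nat_lit 0, nat_lit 332, nat_lit 0, nat_lit 0, nat_lit 0, nat_lit 0, nat_lit 110, nat_lit 777800, nat_lit 0, nat_lit 0, [(nat_lit 12, [(nat_lit 5, nat_lit 112), (nat_lit 6, nat_lit 733)])],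
 ⟨p014_k22, nat_lit 0, nat_lit 0, nat_lit 450, nat_lit 0, nat_lit 463338, [nat_lit 2804179201, nat_lit 2282336534, nat_lit 377291600], [], [nat_lit 15850707946, nat_lit 16092354475, nat_lit 19240734873, nat_lit 18774786843], nat_lit 1271250, nat_lit 1271250, nat_lit 490000, nat_lit 1100001, nat_lit 0, nat_lit 0, [nat_lit 780000, nat_lit 1435000, nat_lit 1271250], [nat_lit 8, nat_lit 40, nat_lit 80, nat_lit 80, nat_lit 1, nat_lit 249, nat_lit 40, nat_lit 7]⟩, ⟨p014_k19, nat_lit 0, nat_lit 0, nat_lit 234, nat_lit 0, nat_lit 0, [nat_lit 968750000, nat_lit 1525510000, nat_lit 1840160000], [], [nat_lit 3261245058, nat_lit 3467767916, nat_lit 3189724428, nat_lit 3367970576], nat_lit 0, nat_lit 0, nat_lit 0, nat_lit 0, nat_lit 0, nat_lit 0, [], [nat_lit 46, nat_lit 40, nat_lit 80, nat_lit 80, nat_lit 41, nat_lit 317, nat_lit 100, nat_lit 8]⟩,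
 ⟨nat_lit 5244, nat_lit 5362, ⟨.ofNat (nat_lit 299220), .ofNat (nat_lit 447319), .ofNat (nat_lit 320589), .ofNat (nat_lit 468688), .ofNat (nat_lit 301871), .ofNat (nat_lit 448213), .ofNat (nat_lit 323256), .ofNat (nat_lit 469598)⟩, ⟨.ofNat (nat_lit 0), .ofNat (nat_lit 0), .ofNat (nat_lit 0), .ofNat (nat_lit 0), .ofNat (nat_lit 0), .ofNat (nat_lit 0), .ofNat (nat_lit 0), .ofNat (nat_lit 0)⟩⟩, []⟩
noncomputable def p014_l167 : Lf2 := ⟨nat_lit 0, nat_lit 10, [nat_lit 0, nat_lit 5, nat_lit 5, nat_lit 20], false, nat_lit 0, nat_lit 0, nat_lit 0, nat_lit 0, ⟨nat_lit 1000, nat_lit 0, nat_lit 0, nat_lit 0, nat_lit 0, nat_lit 0, nat_lit 0, nat_lit 0, nat_lit 0, nat_lit 0, nat_lit 0, nat_lit 0, nat_lit 0, nat_lit 0, nat_lit 0, nat_lit 0, false, false⟩,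
 nat_lit 0, nat_lit 10467, nat_lit 0, nat_lit 0, nat_lit 6951, nat_lit 9282, nat_lit 1798, nat_lit 0, nat_lit 0, nat_lit 0, nat_lit 0, nat_lit 0, nat_lit 0, nat_lit 0, nat_lit 0, nat_lit 0, nat_lit 0, nat_lit 0, [],
 ⟨p014_k7, nat_lit 0, nat_lit 0, nat_lit 385, nat_lit 0, nat_lit 496623, [nat_lit 3282000000, nat_lit 4688000000, nat_lit 7968000000], [], [nat_lit 18630938660, nat_lit 18608382130, nat_lit 24936180708, nat_lit 24138949665], nat_lit 1271250, nat_lit 1271250, nat_lit 490000, nat_lit 1100001, nat_lit 0, nat_lit 0, [nat_lit 780000, nat_lit 1100000, nat_lit 1785000], [nat_lit 36, nat_lit 40, nat_lit 80, nat_lit 80, nat_lit 7, nat_lit 249, nat_lit 40, nat_lit 8]⟩, ⟨p014_k40, nat_lit 0, nat_lit 0, nat_lit 215, nat_lit 0, nat_lit 0, [nat_lit 6250000000, nat_lit 7968000000, nat_lit 11872000000], [], [nat_lit 31006268000, nat_lit 33065683872, nat_lit 30435667776, nat_lit 32217661192],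 nat_lit 0, nat_lit 0, nat_lit 0, nat_lit 0, nat_lit 0, nat_lit 0, [], [nat_lit 53, nat_lit 40, nat_lit 80, nat_lit 80, nat_lit 14, nat_lit 317, nat_lit 100, nat_lit 9]⟩,
 zbF0, []⟩
noncomputable def p014_l168 : Lf2 := ⟨nat_lit 0, nat_lit 10, [nat_lit 0, nat_lit 5, nat_lit 5, nat_lit 20], false, nat_lit 0, nat_lit 0, nat_lit 0, nat_lit 0, ⟨nat_lit 1000, nat_lit 0, nat_lit 0, nat_lit 0, nat_lit 0, nat_lit 0, nat_lit 0, nat_lit 0, nat_lit 0, nat_lit 0, nat_lit 0, nat_lit 0, nat_lit 0, nat_lit 0, nat_lit 0, nat_lit 0, false, false⟩,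
 nat_lit 0, nat_lit 9505, nat_lit 0, nat_lit 0, nat_lit 6445, nat_lit 9282, nat_lit 1848, nat_lit 0, nat_lit 0, nat_lit 0, nat_lit 0, nat_lit 0, nat_lit 0, nat_lit 0, nat_lit 0, nat_lit 0, nat_lit 0, nat_lit 0, [],
 ⟨p014_k45, nat_lit 0, nat_lit 0, nat_lit 398, nat_lit 0, nat_lit 528822, [nat_lit 3282000000, nat_lit 4688000000, nat_lit 7968000000], [], [nat_lit 18396107100, nat_lit 18718497200, nat_lit 23693264425, nat_lit 22954068040], nat_lit 1271250, nat_lit 1271250, nat_lit 490000, nat_lit 1100001, nat_lit 0, nat_lit 0, [nat_lit 780000, nat_lit 1100000, nat_lit 1785000], [nat_lit 36, nat_lit 40, nat_lit 80, nat_lit 80, nat_lit 7, nat_lit 249, nat_lit 40, nat_lit 8]⟩, ⟨p014_k40, nat_lit 0, nat_lit 0, nat_lit 215, nat_lit 0, nat_lit 0, [nat_lit 6250000000, nat_lit 7968000000, nat_lit 11872000000], [], [nat_lit 31006268000, nat_lit 33065683872, nat_lit 30435667776, nat_lit 32217661192],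 nat_lit 0, nat_lit 0, nat_lit 0, nat_lit 0, nat_lit 0, nat_lit 0, [], [nat_lit 53, nat_lit 40, nat_lit 80, nat_lit 80, nat_lit 14, nat_lit 317, nat_lit 100, nat_lit 9]⟩,
 zbF0, []⟩
noncomputable def p014_l169 : Lf2 := ⟨nat_lit 0, nat_lit 10, [nat_lit 0, nat_lit 5, nat_lit 5, nat_lit 20], false, nat_lit 0, nat_lit 0, nat_lit 0, nat_lit 0, ⟨nat_lit 1000, nat_lit 0, nat_lit 0, nat_lit 0, nat_lit 0, nat_lit 0, nat_lit 0, nat_lit 0, nat_lit 0, nat_lit 0, nat_lit 0, nat_lit 0, nat_lit 0, nat_lit 0, nat_lit 0, nat_lit 0, false, false⟩,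
 nat_lit 0, nat_lit 8738, nat_lit 0, nat_lit 0, nat_lit 6049, nat_lit 9282, nat_lit 1821, nat_lit 0, nat_lit 0, nat_lit 0, nat_lit 0, nat_lit 0, nat_lit 0, nat_lit 0, nat_lit 0, nat_lit 0, nat_lit 0, nat_lit 0, [],
 ⟨p014_k2, nat_lit 0, nat_lit 0, nat_lit 410, nat_lit 0, nat_lit 559816, [nat_lit 3282000000, nat_lit 4688000000, nat_lit 7968000000], [], [nat_lit 18584309390, nat_lit 18895817410, nat_lit 22693511878, nat_lit 21999733921], nat_lit 1271250, nat_lit 1271250, nat_lit 490000, nat_lit 1100001, nat_lit 0, nat_lit 0, [nat_lit 780000, nat_lit 1100000, nat_lit 1785000], [nat_lit 36, nat_lit 40, nat_lit 80, nat_lit 80, nat_lit 7, nat_lit 249, nat_lit 40, nat_lit 8]⟩, ⟨p014_k40, nat_lit 0, nat_lit 0, nat_lit 215, nat_lit 0, nat_lit 0, [nat_lit 6250000000, nat_lit 7968000000, nat_lit 11872000000], [], [nat_lit 31006268000, nat_lit 33065683872, nat_lit 30435667776, nat_lit 32217661192], nat_lit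 0, nat_lit 0, nat_lit 0, nat_lit 0, nat_lit 0, nat_lit 0, [], [nat_lit 53, nat_lit 40, nat_lit 80, nat_lit 80, nat_lit 14, nat_lit 317, nat_lit 100, nat_lit 9]⟩,
 zbF0, []⟩
noncomputable def p014_l170 : Lf2 := ⟨nat_lit 0, nat_lit 10, [nat_lit 0, nat_lit 5, nat_lit 5, nat_lit 20], false, nat_lit 0, nat_lit 0, nat_lit 0, nat_lit 0, ⟨nat_lit 1000, nat_lit 0, nat_lit 0, nat_lit 0, nat_lit 0, nat_lit 0, nat_lit 0, nat_lit 0, nat_lit 0, nat_lit 0, nat_lit 0, nat_lit 0, nat_lit 0, nat_lit 0, nat_lit 0, nat_lit 0, false, false⟩,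
 nat_lit 0, nat_lit 8884, nat_lit 0, nat_lit 0, nat_lit 6277, nat_lit 9282, nat_lit 1560, nat_lit 0, nat_lit 0, nat_lit 0, nat_lit 0, nat_lit 0, nat_lit 0, nat_lit 0, nat_lit 0, nat_lit 0, nat_lit 0, nat_lit 0, [],
 ⟨p014_k10, nat_lit 0, nat_lit 0, nat_lit 421, nat_lit 0, nat_lit 589796, [nat_lit 3282000000, nat_lit 4688000000, nat_lit 7968000000], [], [nat_lit 19642041035, nat_lit 19940860327, nat_lit 21954181783, nat_lit 21234253822], nat_lit 1271250, nat_lit 1271250, nat_lit 490000, nat_lit 1100001, nat_lit 0, nat_lit 0, [nat_lit 780000, nat_lit 1100000, nat_lit 1785000], [nat_lit 36, nat_lit 40, nat_lit 80, nat_lit 80, nat_lit 7, nat_lit 249, nat_lit 40, nat_lit 8]⟩, ⟨p014_k40, nat_lit 0, nat_lit 0, nat_lit 215, nat_lit 0, nat_lit 0, [nat_lit 6250000000, nat_lit 7968000000, nat_lit 11872000000], [], [nat_lit 31006268000, nat_lit 33065683872, nat_lit 30435667776, nat_lit 32217661192],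 nat_lit 0, nat_lit 0, nat_lit 0, nat_lit 0, nat_lit 0, nat_lit 0, [], [nat_lit 53, nat_lit 40, nat_lit 80, nat_lit 80, nat_lit 14, nat_lit 317, nat_lit 100, nat_lit 9]⟩,
 zbF0, []⟩
noncomputable def p014_l171 : Lf2 := ⟨nat_lit 0, nat_lit 10, [nat_lit 0, nat_lit 5, nat_lit 5, nat_lit 20], false, nat_lit 0, nat_lit 0, nat_lit 0, nat_lit 0, ⟨nat_lit 1000, nat_lit 0, nat_lit 0, nat_lit 0, nat_lit 0, nat_lit 0, nat_lit 0, nat_lit 0, nat_lit 0, nat_lit 0, nat_lit 0, nat_lit 0, nat_lit 0, nat_lit 0, nat_lit 0, nat_lit 0, false, false⟩,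
 nat_lit 0, nat_lit 8272, nat_lit 0, nat_lit 0, nat_lit 5963, nat_lit 9282, nat_lit 1552, nat_lit 0, nat_lit 0, nat_lit 0, nat_lit 0, nat_lit 0, nat_lit 0, nat_lit 0, nat_lit 0, nat_lit 0, nat_lit 0, nat_lit 0, [],
 ⟨p014_k5, nat_lit 0, nat_lit 0, nat_lit 481, nat_lit 0, nat_lit 664008, [nat_lit 3282000000, nat_lit 6250000000, nat_lit 7968000000], [], [nat_lit 20287595293, nat_lit 20876108848, nat_lit 21130645818, nat_lit 21395668452], nat_lit 1271250, nat_lit 1271250, nat_lit 490000, nat_lit 1100001, nat_lit 0, nat_lit 0, [nat_lit 780000, nat_lit 1435000, nat_lit 1271250], [nat_lit 18, nat_lit 40, nat_lit 80, nat_lit 80, nat_lit 2, nat_lit 249, nat_lit 40, nat_lit 8]⟩, ⟨p014_k31, nat_lit 0, nat_lit 0, nat_lit 234, nat_lit 0, nat_lit 0, [nat_lit 6250000000, nat_lit 9842000000, nat_lit 11872000000], [], [nat_lit 31006268000, nat_lit 33065683872, nat_lit 30435667776, nat_lit 32217661192], nat_lit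 0, nat_lit 0, nat_lit 0, nat_lit 0, nat_lit 0, nat_lit 0, [], [nat_lit 46, nat_lit 40, nat_lit 80, nat_lit 80, nat_lit 41, nat_lit 317, nat_lit 100, nat_lit 9]⟩,
 zbF0, []⟩
noncomputable def p014_l172 : Lf2 := ⟨nat_lit 0, nat_lit 10, [nat_lit 0, nat_lit 5, nat_lit 5, nat_lit 20], false, nat_lit 0, nat_lit 0, nat_lit 0, nat_lit 0, ⟨nat_lit 1000, nat_lit 0, nat_lit 0, nat_lit 0, nat_lit 0, nat_lit 0, nat_lit 0, nat_lit 0, nat_lit 0, nat_lit 0, nat_lit 0, nat_lit 0, nat_lit 0, nat_lit 0, nat_lit 0, nat_lit 0, false, false⟩,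
 nat_lit 0, nat_lit 10054, nat_lit 0, nat_lit 0, nat_lit 6398, nat_lit 9368, nat_lit 963, nat_lit 0, nat_lit 0, nat_lit 0, nat_lit 0, nat_lit 0, nat_lit 0, nat_lit 0, nat_lit 0, nat_lit 0, nat_lit 0, nat_lit 0, [],
 ⟨p014_k0, nat_lit 0, nat_lit 0, nat_lit 462, nat_lit 0, nat_lit 576937, [nat_lit 3282000000, nat_lit 6250000000, nat_lit 9842000000], [], [nat_lit 29884643583, nat_lit 30775069280, nat_lit 31594695800, nat_lit 32503861728], nat_lit 1271250, nat_lit 1271250, nat_lit 1100001, nat_lit 1785000, nat_lit 0, nat_lit 0, [nat_lit 780000, nat_lit 1435000, nat_lit 1271250], [nat_lit 8, nat_lit 40, nat_lit 80, nat_lit 80, nat_lit 1, nat_lit 272, nat_lit 60, nat_lit 8]⟩, ⟨p014_k31, nat_lit 0, nat_lit 0, nat_lit 194, nat_lit 0, nat_lit 0, [nat_lit 6250000000, nat_lit 9842000000, nat_lit 11872000000], [], [nat_lit 30349527424, nat_lit 32138090208, nat_lit 33212831872, nat_lit 35076902048], nat_lit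 0, nat_lit 0, nat_lit 0, nat_lit 0, nat_lit 0, nat_lit 0, [], [nat_lit 46, nat_lit 40, nat_lit 80, nat_lit 80, nat_lit 41, nat_lit 345, nat_lit 125, nat_lit 9]⟩,
 zbF0, []⟩
noncomputable def p014_l173 : Lf2 := ⟨nat_lit 0, nat_lit 10, [nat_lit 0, nat_lit 5, nat_lit 5, nat_lit 20], false, nat_lit 0, nat_lit 0, nat_lit 0, nat_lit 0, ⟨nat_lit 1000, nat_lit 0, nat_lit 0, nat_lit 0, nat_lit 0, nat_lit 0, nat_lit 0, nat_lit 0, nat_lit 0, nat_lit 0, nat_lit 0, nat_lit 0, nat_lit 0, nat_lit 0, nat_lit 0, nat_lit 0, false, false⟩,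
 nat_lit 0, nat_lit 9092, nat_lit 0, nat_lit 0, nat_lit 6294, nat_lit 9368, nat_lit 2026, nat_lit 0, nat_lit 0, nat_lit 0, nat_lit 0, nat_lit 0, nat_lit 0, nat_lit 0, nat_lit 0, nat_lit 0, nat_lit 0, nat_lit 0, [],
 ⟨p014_k4, nat_lit 0, nat_lit 0, nat_lit 448, nat_lit 0, nat_lit 701316, [nat_lit 3282000000, nat_lit 6250000000, nat_lit 7968000000], [], [nat_lit 20213625030, nat_lit 21148886364, nat_lit 22676885708, nat_lit 24846585120], nat_lit 1271250, nat_lit 1271250, nat_lit 1100001, nat_lit 1785000, nat_lit 0, nat_lit 0, [nat_lit 780000, nat_lit 1435000, nat_lit 1271250], [nat_lit 18, nat_lit 40, nat_lit 80, nat_lit 80, nat_lit 2, nat_lit 272, nat_lit 60, nat_lit 9]⟩, ⟨p014_k31, nat_lit 0, nat_lit 0, nat_lit 194, nat_lit 0, nat_lit 0, [nat_lit 6250000000, nat_lit 9842000000, nat_lit 11872000000], [], [nat_lit 30349527424, nat_lit 32138090208, nat_lit 33212831872, nat_lit 35076902048],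 nat_lit 0, nat_lit 0, nat_lit 0, nat_lit 0, nat_lit 0, nat_lit 0, [], [nat_lit 46, nat_lit 40, nat_lit 80, nat_lit 80, nat_lit 41, nat_lit 345, nat_lit 125, nat_lit 9]⟩,
 zbF0, []⟩
noncomputable def p014_l174 : Lf2 := ⟨nat_lit 0, nat_lit 10, [nat_lit 0, nat_lit 5, nat_lit 5, nat_lit 20], false, nat_lit 0, nat_lit 0, nat_lit 0, nat_lit 0, ⟨nat_lit 1000, nat_lit 0, nat_lit 0, nat_lit 0, nat_lit 0, nat_lit 0, nat_lit 0, nat_lit 0, nat_lit 0, nat_lit 0, nat_lit 0, nat_lit 0, nat_lit 0, nat_lit 0, nat_lit 0, nat_lit 0, false, false⟩,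
 nat_lit 0, nat_lit 9914, nat_lit 0, nat_lit 0, nat_lit 6308, nat_lit 6784, nat_lit 833, nat_lit 0, nat_lit 0, nat_lit 0, nat_lit 0, nat_lit 0, nat_lit 0, nat_lit 0, nat_lit 0, nat_lit 0, nat_lit 0, nat_lit 0, [],
 ⟨p014_k0, nat_lit 0, nat_lit 0, nat_lit 456, nat_lit 0, nat_lit 576937, [nat_lit 3282000000, nat_lit 6250000000, nat_lit 9842000000], [], [nat_lit 32676414373, nat_lit 33342463890, nat_lit 39105053600, nat_lit 39734727445], nat_lit 1271250, nat_lit 1271250, nat_lit 1271250, nat_lit 1271250, nat_lit 0, nat_lit 0, [nat_lit 780000, nat_lit 1435000, nat_lit 1271250], [nat_lit 8, nat_lit 40, nat_lit 80, nat_lit 80, nat_lit 1, nat_lit 317, nat_lit 100, nat_lit 9]⟩, ⟨p014_k31, nat_lit 0, nat_lit 0, nat_lit 269, nat_lit 0, nat_lit 0, [nat_lit 6250000000, nat_lit 9842000000, nat_lit 11872000000], [], [nat_lit 35346904352, nat_lit 36625610368, nat_lit 44283510221, nat_lit 44813001100], nat_lit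 0, nat_lit 0, nat_lit 0, nat_lit 0, nat_lit 0, nat_lit 0, [], [nat_lit 46, nat_lit 40, nat_lit 80, nat_lit 80, nat_lit 41, nat_lit 401, nat_lit 175, nat_lit 10]⟩,
 zbF0, []⟩
noncomputable def p014_l175 : Lf2 := ⟨nat_lit 0, nat_lit 10, [nat_lit 0, nat_lit 5, nat_lit 5, nat_lit 20], false, nat_lit 0, nat_lit 0, nat_lit 0, nat_lit 0, ⟨nat_lit 1000, nat_lit 0, nat_lit 0, nat_lit 0, nat_lit 0, nat_lit 0, nat_lit 0, nat_lit 0, nat_lit 0, nat_lit 0, nat_lit 0, nat_lit 0, nat_lit 0, nat_lit 0, nat_lit 0, nat_lit 0, false, false⟩,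
 nat_lit 0, nat_lit 7468, nat_lit 0, nat_lit 0, nat_lit 5169, nat_lit 7340, nat_lit 1508, nat_lit 0, nat_lit 0, nat_lit 0, nat_lit 0, nat_lit 0, nat_lit 0, nat_lit 0, nat_lit 0, nat_lit 0, nat_lit 0, nat_lit 0, [],
 ⟨p014_k4, nat_lit 0, nat_lit 0, nat_lit 450, nat_lit 0, nat_lit 701316, [nat_lit 3282000000, nat_lit 6250000000, nat_lit 7968000000], [], [nat_lit 29465385194, nat_lit 30116060600, nat_lit 34548007401, nat_lit 35050667007], nat_lit 1271250, nat_lit 1271250, nat_lit 1271250, nat_lit 1271250, nat_lit 0, nat_lit 0, [nat_lit 780000, nat_lit 1435000, nat_lit 1271250], [nat_lit 18, nat_lit 40, nat_lit 80, nat_lit 80, nat_lit 2, nat_lit 203, nat_lit 0, nat_lit 6]⟩, ⟨p014_k31, nat_lit 0, nat_lit 0, nat_lit 267, nat_lit 0, nat_lit 0, [nat_lit 6250000000, nat_lit 9842000000, nat_lit 11872000000], [], [nat_lit 34820721520, nat_lit 36121569680, nat_lit 44408830360, nat_lit 45101385409], nat_lit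 0, nat_lit 0, nat_lit 0, nat_lit 0, nat_lit 0, nat_lit 0, [], [nat_lit 46, nat_lit 40, nat_lit 80, nat_lit 80, nat_lit 41, nat_lit 401, nat_lit 175, nat_lit 10]⟩,
 zbF0, []⟩
noncomputable def p014_l176 : Lf2 := ⟨nat_lit 0, nat_lit 10, [nat_lit 0, nat_lit 5, nat_lit 5, nat_lit 20], false, nat_lit 0, nat_lit 0, nat_lit 0, nat_lit 0, ⟨nat_lit 0, nat_lit 0, nat_lit 1000, nat_lit 5, nat_lit 112, nat_lit 0, nat_lit 0, nat_lit 0, nat_lit 0, nat_lit 215, nat_lit 117600, nat_lit 299, nat_lit 62132479, nat_lit 0, nat_lit 0, nat_lit 1302191, false, false⟩,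
 nat_lit 0, nat_lit 5120, nat_lit 0, nat_lit 0, nat_lit 3258, nat_lit 0, nat_lit 0, nat_lit 0, nat_lit 0, nat_lit 0, nat_lit 0, nat_lit 0, nat_lit 0, nat_lit 0, nat_lit 131, nat_lit 592600, nat_lit 0, nat_lit 0, [(nat_lit 12, [(nat_lit 5, nat_lit 679), (nat_lit 6, nat_lit 321)])],
 ⟨p014_k0, nat_lit 0, nat_lit 0, nat_lit 453, nat_lit 0, nat_lit 325640, [nat_lit 2780828401, nat_lit 1895001734, nat_lit 267929200], [], [nat_lit 16557400143, nat_lit 17341478448, nat_lit 16814438274, nat_lit 17131686897], nat_lit 1271250, nat_lit 1271250, nat_lit 88400, nat_lit 780000, nat_lit 0, nat_lit 0, [nat_lit 780000, nat_lit 1435000, nat_lit 1271250], [nat_lit 8, nat_lit 40, nat_lit 80, nat_lit 80, nat_lit 1, nat_lit 238, nat_lit 30, nat_lit 7]⟩, ⟨p014_k31, nat_lit 0, nat_lit 0, nat_lit 650, nat_lit 0, nat_lit 523327, [nat_lit 0, nat_lit 0, nat_lit 0], [], [nat_lit 0, nat_lit 0, nat_lit 0, nat_lit 0], nat_lit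 1271250, nat_lit 1271250, nat_lit 88400, nat_lit 780000, nat_lit 0, nat_lit 0, [nat_lit 1412500, nat_lit 1271250, nat_lit 1271250], [nat_lit 46, nat_lit 40, nat_lit 80, nat_lit 80, nat_lit 41, nat_lit 317, nat_lit 100, nat_lit 9]⟩,
 ⟨nat_lit 5000, nat_lit 5478, ⟨.ofNat (nat_lit 155307), .ofNat (nat_lit 350132), .ofNat (nat_lit 198021), .ofNat (nat_lit 392847), .ofNat (nat_lit 171427), .ofNat (nat_lit 357141), .ofNat (nat_lit 214284), .ofNat (nat_lit 399998)⟩, ⟨.ofNat (nat_lit 0), .ofNat (nat_lit 0), .ofNat (nat_lit 0), .ofNat (nat_lit 0), .ofNat (nat_lit 0), .ofNat (nat_lit 0), .ofNat (nat_lit 0), .ofNat (nat_lit 0)⟩⟩, [⟨nat_lit 0, nat_lit 100, nat_lit 88, nat_lit 68, nat_lit 100187483⟩]⟩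
noncomputable def p014_l177 : Lf2 := ⟨nat_lit 0, nat_lit 10, [nat_lit 0, nat_lit 5, nat_lit 5, nat_lit 20], false, nat_lit 0, nat_lit 0, nat_lit 0, nat_lit 0, ⟨nat_lit 0, nat_lit 0, nat_lit 1000, nat_lit 5, nat_lit 119, nat_lit 0, nat_lit 0, nat_lit 0, nat_lit 0, nat_lit 215, nat_lit 135000, nat_lit 305, nat_lit 61520594, nat_lit 0, nat_lit 0, nat_lit 1415499, false, false⟩,
 nat_lit 0, nat_lit 4560, nat_lit 0, nat_lit 0, nat_lit 3156, nat_lit 0, nat_lit 0, nat_lit 0, nat_lit 0, nat_lit 0, nat_lit 0, nat_lit 0, nat_lit 0, nat_lit 0, nat_lit 94, nat_lit 400000, nat_lit 0, nat_lit 0, [(nat_lit 15, [(nat_lit 5, nat_lit 1000)])],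
 ⟨p014_k4, nat_lit 0, nat_lit 0, nat_lit 408, nat_lit 0, nat_lit 402751, [nat_lit 2443200000, nat_lit 916400001, nat_lit 120399999], [], [nat_lit 17306197538, nat_lit 18388099724, nat_lit 17416498964, nat_lit 18614192992], nat_lit 1271250, nat_lit 1271250, nat_lit 134400, nat_lit 780000, nat_lit 0, nat_lit 0, [nat_lit 780000, nat_lit 1435000, nat_lit 1271250], [nat_lit 18, nat_lit 40, nat_lit 80, nat_lit 80, nat_lit 2, nat_lit 238, nat_lit 30, nat_lit 8]⟩, ⟨p014_k31, nat_lit 0, nat_lit 0, nat_lit 723, nat_lit 0, nat_lit 713756, [nat_lit 0, nat_lit 0, nat_lit 0], [], [nat_lit 0, nat_lit 0, nat_lit 0, nat_lit 0], nat_lit 1271250, nat_lit 1271250, nat_lit 134400, nat_lit 780000, nat_lit 0, nat_lit 0, [nat_lit 1412500, nat_lit 1271250, nat_lit 1271250], [nat_lit 46, nat_lit 40, nat_lit 80, nat_lit 80, nat_lit 41, nat_lit 317, nat_lit 100, nat_lit 9]⟩,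
 ⟨nat_lit 4472, nat_lit 5000, ⟨.ofNat (nat_lit 185713), .ofNat (nat_lit 357141), .ofNat (nat_lit 228562), .ofNat (nat_lit 399984), .ofNat (nat_lit 200895), .ofNat (nat_lit 364042), .ofNat (nat_lit 244020), .ofNat (nat_lit 407160)⟩, ⟨.ofNat (nat_lit 0), .ofNat (nat_lit 0), .ofNat (nat_lit 0), .ofNat (nat_lit 0), .ofNat (nat_lit 0), .ofNat (nat_lit 0), .ofNat (nat_lit 0), .ofNat (nat_lit 0)⟩⟩, [⟨nat_lit 0, nat_lit 100, nat_lit 82, nat_lit 76, nat_lit 85270438⟩]⟩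
noncomputable def p014_l178 : Lf2 := ⟨nat_lit 0, nat_lit 10, [nat_lit 0, nat_lit 5, nat_lit 5, nat_lit 20], false, nat_lit 0, nat_lit 0, nat_lit 0, nat_lit 0, ⟨nat_lit 151, nat_lit 0, nat_lit 849, nat_lit 5, nat_lit 194, nat_lit 0, nat_lit 0, nat_lit 0, nat_lit 0, nat_lit 215, nat_lit 1350, nat_lit 206, nat_lit 54250075, nat_lit 0, nat_lit 0, nat_lit 2433268, false, false⟩,
 nat_lit 5305, nat_lit 540, nat_lit 0, nat_lit 0, nat_lit 3719, nat_lit 2273, nat_lit 0, nat_lit 0, nat_lit 0, nat_lit 53, nat_lit 0, nat_lit 0, nat_lit 0, nat_lit 0, nat_lit 122, nat_lit 834000, nat_lit 0, nat_lit 0, [(nat_lit 12, [(nat_lit 5, nat_lit 25), (nat_lit 6, nat_lit 824)])],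
 ⟨p014_k0, nat_lit 0, nat_lit 0, nat_lit 345, nat_lit 0, nat_lit 325640, [nat_lit 2930950801, nat_lit 2441240934, nat_lit 397024800], [], [nat_lit 15715841643, nat_lit 16670614027, nat_lit 19960121533, nat_lit 19438869558], nat_lit 1271250, nat_lit 1271250, nat_lit 780000, nat_lit 1762500, nat_lit 0, nat_lit 0, [nat_lit 780000, nat_lit 1435000, nat_lit 1271250], [nat_lit 8, nat_lit 40, nat_lit 80, nat_lit 80, nat_lit 1, nat_lit 272, nat_lit 60, nat_lit 8]⟩, ⟨p014_k31, nat_lit 0, nat_lit 0, nat_lit 549, nat_lit 0, nat_lit 523327, [nat_lit 943750000, nat_lit 1486142000, nat_lit 1792672000], [], [nat_lit 8389828732, nat_lit 5985640264, nat_lit 5658905680, nat_lit 5755247460], nat_lit 1271250, nat_lit 1271250, nat_lit 780000, nat_lit 1762500, nat_lit 0, nat_lit 0, [nat_lit 1412500, nat_lit 1271250, nat_lit 1271250], [nat_lit 46, nat_lit 40, nat_lit 80, nat_lit 80, nat_lit 41, nat_lit 345, nat_lit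 125, nat_lit 9]⟩,
 ⟨nat_lit 5000, nat_lit 5478, ⟨.ofNat (nat_lit 350132), .ofNat (nat_lit 574920), .ofNat (nat_lit 392847), .ofNat (nat_lit 617614), .ofNat (nat_lit 357141), .ofNat (nat_lit 571415), .ofNat (nat_lit 399998), .ofNat (nat_lit 614253)⟩, ⟨.ofNat (nat_lit 0), .ofNat (nat_lit 0), .ofNat (nat_lit 0), .ofNat (nat_lit 0), .ofNat (nat_lit 0), .ofNat (nat_lit 0), .ofNat (nat_lit 0), .ofNat (nat_lit 0)⟩⟩, []⟩
noncomputable def p014_l179 : Lf2 := ⟨nat_lit 0, nat_lit 10, [nat_lit 0, nat_lit 5, nat_lit 5, nat_lit 20], false, nat_lit 0, nat_lit 0, nat_lit 0, nat_lit 0, ⟨nat_lit 174, nat_lit 0, nat_lit 826, nat_lit 5, nat_lit 195, nat_lit 0, nat_lit 0, nat_lit 0, nat_lit 0, nat_lit 215, nat_lit 1067, nat_lit 207, nat_lit 54171567, nat_lit 0, nat_lit 0, nat_lit 2441730, false, false⟩,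
 nat_lit 4910, nat_lit 591, nat_lit 0, nat_lit 0, nat_lit 3808, nat_lit 2104, nat_lit 0, nat_lit 0, nat_lit 0, nat_lit 146, nat_lit 0, nat_lit 0, nat_lit 0, nat_lit 0, nat_lit 68, nat_lit 563200, nat_lit 0, nat_lit 0, [(nat_lit 15, [(nat_lit 5, nat_lit 438), (nat_lit 6, nat_lit 388)])],
 ⟨p014_k4, nat_lit 0, nat_lit 0, nat_lit 325, nat_lit 0, nat_lit 402751, [nat_lit 2343365601, nat_lit 1134905601, nat_lit 19542799], [], [nat_lit 16899166754, nat_lit 17987730164, nat_lit 19701586676, nat_lit 21176055840], nat_lit 1271250, nat_lit 1271250, nat_lit 780000, nat_lit 1762500, nat_lit 0, nat_lit 0, [nat_lit 780000, nat_lit 1435000, nat_lit 1271250], [nat_lit 18, nat_lit 40, nat_lit 80, nat_lit 80, nat_lit 2, nat_lit 272, nat_lit 60, nat_lit 9]⟩, ⟨p014_k31, nat_lit 0, nat_lit 0, nat_lit 654, nat_lit 0, nat_lit 713756, [nat_lit 1087500000, nat_lit 1712508000, nat_lit 2065728000], [], [nat_lit 8878414248,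 nat_lit 6660028412, nat_lit 6314414160, nat_lit 6312228264], nat_lit 1271250, nat_lit 1271250, nat_lit 780000, nat_lit 1762500, nat_lit 0, nat_lit 0, [nat_lit 1412500, nat_lit 1271250, nat_lit 1271250], [nat_lit 46, nat_lit 40, nat_lit 80, nat_lit 80, nat_lit 41, nat_lit 345, nat_lit 125, nat_lit 9]⟩,
 ⟨nat_lit 4472, nat_lit 5000, ⟨.ofNat (nat_lit 357141), .ofNat (nat_lit 571423), .ofNat (nat_lit 399984), .ofNat (nat_lit 614256), .ofNat (nat_lit 364042), .ofNat (nat_lit 567973), .ofNat (nat_lit 407160), .ofNat (nat_lit 611081)⟩, ⟨.ofNat (nat_lit 0), .ofNat (nat_lit 0), .ofNat (nat_lit 0), .ofNat (nat_lit 0), .ofNat (nat_lit 0), .ofNat (nat_lit 0), .ofNat (nat_lit 0), .ofNat (nat_lit 0)⟩⟩, []⟩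
noncomputable def p014_l180 : Lf2 := ⟨nat_lit 0, nat_lit 10, [nat_lit 0, nat_lit 5, nat_lit 5, nat_lit 20], false, nat_lit 0, nat_lit 0, nat_lit 0, nat_lit 0, ⟨nat_lit 1000, nat_lit 0, nat_lit 0, nat_lit 0, nat_lit 0, nat_lit 0, nat_lit 0, nat_lit 0, nat_lit 0, nat_lit 0, nat_lit 0, nat_lit 0, nat_lit 0, nat_lit 0, nat_lit 0, nat_lit 0, false, false⟩,
 nat_lit 19884, nat_lit 0, nat_lit 0, nat_lit 0, nat_lit 5818, nat_lit 8521, nat_lit 1567, nat_lit 0, nat_lit 0, nat_lit 1716, nat_lit 0, nat_lit 0, nat_lit 0, nat_lit 0, nat_lit 0, nat_lit 0, nat_lit 0, nat_lit 0, [],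
 ⟨p014_k1, nat_lit 0, nat_lit 0, nat_lit 324, nat_lit 0, nat_lit 269364, [nat_lit 3282000000, nat_lit 4688000000, nat_lit 9842000000], [], [nat_lit 25523523958, nat_lit 25958410429, nat_lit 34825361114, nat_lit 35413993805], nat_lit 1271250, nat_lit 1271250, nat_lit 1271250, nat_lit 1271250, nat_lit 0, nat_lit 0, [nat_lit 780000, nat_lit 1100000, nat_lit 2127500], [nat_lit 42, nat_lit 40, nat_lit 80, nat_lit 80, nat_lit 13, nat_lit 317, nat_lit 100, nat_lit 9]⟩, ⟨p014_k40, nat_lit 0, nat_lit 0, nat_lit 458, nat_lit 0, nat_lit 432887, [nat_lit 6250000000, nat_lit 7968000000, nat_lit 11872000000], [], [nat_lit 35543453336, nat_lit 35695624276, nat_lit 40776880806, nat_lit 40999805441], nat_lit 1271250, nat_lit 1271250, nat_lit 1271250, nat_lit 1271250, nat_lit 0, nat_lit 0, [nat_lit 1412500, nat_lit 1271250, nat_lit 1271250], [nat_lit 53, nat_lit 40, nat_lit 80, nat_lit 80, nat_lit 14, nat_lit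 401, nat_lit 175, nat_lit 10]⟩,
 zbF0, []⟩
noncomputable def p014_l181 : Lf2 := ⟨nat_lit 0, nat_lit 10, [nat_lit 0, nat_lit 5, nat_lit 5, nat_lit 20], false, nat_lit 0, nat_lit 0, nat_lit 0, nat_lit 0, ⟨nat_lit 1000, nat_lit 0, nat_lit 0, nat_lit 0, nat_lit 0, nat_lit 0, nat_lit 0, nat_lit 0, nat_lit 0, nat_lit 0, nat_lit 0, nat_lit 0, nat_lit 0, nat_lit 0, nat_lit 0, nat_lit 0, false, false⟩,
 nat_lit 19444, nat_lit 0, nat_lit 0, nat_lit 0, nat_lit 5953, nat_lit 8332, nat_lit 1087, nat_lit 0, nat_lit 0, nat_lit 1715, nat_lit 0, nat_lit 0, nat_lit 0, nat_lit 0, nat_lit 0, nat_lit 0, nat_lit 0, nat_lit 0, [],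
 ⟨p014_k7, nat_lit 0, nat_lit 0, nat_lit 298, nat_lit 0, nat_lit 309853, [nat_lit 3282000000, nat_lit 4688000000, nat_lit 7968000000], [], [nat_lit 26577354576, nat_lit 27046330241, nat_lit 35767487667, nat_lit 36362451272], nat_lit 1271250, nat_lit 1271250, nat_lit 1271250, nat_lit 1271250, nat_lit 0, nat_lit 0, [nat_lit 780000, nat_lit 1100000, nat_lit 1785000], [nat_lit 36, nat_lit 40, nat_lit 80, nat_lit 80, nat_lit 7, nat_lit 203, nat_lit 0, nat_lit 6]⟩, ⟨p014_k40, nat_lit 0, nat_lit 0, nat_lit 508, nat_lit 0, nat_lit 523327, [nat_lit 6250000000, nat_lit 7968000000, nat_lit 11872000000], [], [nat_lit 35901648437, nat_lit 36067170181, nat_lit 41094163131, nat_lit 41328095379], nat_lit 1271250, nat_lit 1271250, nat_lit 1271250, nat_lit 1271250, nat_lit 0, nat_lit 0, [nat_lit 1412500, nat_lit 1271250, nat_lit 1271250], [nat_lit 53, nat_lit 40, nat_lit 80, nat_lit 80, nat_lit 14, nat_lit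 401, nat_lit 175, nat_lit 10]⟩,
 zbF0, []⟩
noncomputable def p014_l182 : Lf2 := ⟨nat_lit 0, nat_lit 10, [nat_lit 0, nat_lit 5, nat_lit 5, nat_lit 20], false, nat_lit 0, nat_lit 0, nat_lit 0, nat_lit 0, ⟨nat_lit 304, nat_lit 283, nat_lit 413, nat_lit 6, nat_lit 260, nat_lit 0, nat_lit 0, nat_lit 0, nat_lit 0, nat_lit 215, nat_lit 200124, nat_lit 200, nat_lit 47094187, nat_lit 19905813, nat_lit 0, nat_lit 3041941, true, true⟩,
 nat_lit 5976, nat_lit 0, nat_lit 0, nat_lit 0, nat_lit 4136, nat_lit 2560, nat_lit 0, nat_lit 0, nat_lit 0, nat_lit 532, nat_lit 0, nat_lit 0, nat_lit 0, nat_lit 0, nat_lit 0, nat_lit 529800, nat_lit 0, nat_lit 0, [(nat_lit 15, [(nat_lit 1, nat_lit 277), (nat_lit 2, nat_lit 6), (nat_lit 6, nat_lit 413)])],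
 ⟨p014_k2, nat_lit 0, nat_lit 0, nat_lit 295, nat_lit 0, nat_lit 359722, [nat_lit 1973952040, nat_lit 2144106800, nat_lit 933036934], [], [nat_lit 23149711174, nat_lit 24006013606, nat_lit 25977638102, nat_lit 26716205696], nat_lit 1271250, nat_lit 1271250, nat_lit 1271250, nat_lit 1271250, nat_lit 0, nat_lit 0, [nat_lit 780000, nat_lit 1100000, nat_lit 1785000], [nat_lit 36, nat_lit 40, nat_lit 80, nat_lit 80, nat_lit 7, nat_lit 203, nat_lit 0, nat_lit 6]⟩, ⟨p014_k40, nat_lit 0, nat_lit 0, nat_lit 549, nat_lit 0, nat_lit 637499, [nat_lit 1900000000, nat_lit 2422272000, nat_lit 3609088000], [], [nat_lit 10758187148, nat_lit 10782367692, nat_lit 11338608648, nat_lit 11362789192], nat_lit 1271250, nat_lit 1271250, nat_lit 1271250, nat_lit 1271250, nat_lit 0, nat_lit 0, [nat_lit 1412500, nat_lit 1271250, nat_lit 1271250], [nat_lit 53, nat_lit 40, nat_lit 80, nat_lit 80, nat_lit 14, nat_lit 373,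 nat_lit 150, nat_lit 9]⟩,
 ⟨nat_lit 4472, nat_lit 5000, ⟨.ofNat (nat_lit 571423), .ofNat (nat_lit 714270), .ofNat (nat_lit 592840), .ofNat (nat_lit 735687), .ofNat (nat_lit 567973), .ofNat (nat_lit 703919), .ofNat (nat_lit 589527), .ofNat (nat_lit 725474)⟩, ⟨.ofNat (nat_lit 0), .ofNat (nat_lit 0), .ofNat (nat_lit 0), .ofNat (nat_lit 0), .ofNat (nat_lit 0), .ofNat (nat_lit 0), .ofNat (nat_lit 0), .ofNat (nat_lit 0)⟩⟩, []⟩
noncomputable def p014_l183 : Lf2 := ⟨nat_lit 0, nat_lit 10, [nat_lit 0, nat_lit 5, nat_lit 5, nat_lit 20], false, nat_lit 0, nat_lit 0, nat_lit 0, nat_lit 0, ⟨nat_lit 1000, nat_lit 0, nat_lit 0, nat_lit 0, nat_lit 0, nat_lit 0, nat_lit 0, nat_lit 0, nat_lit 0, nat_lit 0, nat_lit 0, nat_lit 0, nat_lit 0, nat_lit 0, nat_lit 0, nat_lit 0, false, false⟩,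
 nat_lit 19201, nat_lit 0, nat_lit 0, nat_lit 0, nat_lit 5270, nat_lit 8228, nat_lit 1035, nat_lit 0, nat_lit 0, nat_lit 1698, nat_lit 0, nat_lit 0, nat_lit 0, nat_lit 0, nat_lit 0, nat_lit 0, nat_lit 0, nat_lit 0, [],
 ⟨p014_k2, nat_lit 0, nat_lit 0, nat_lit 294, nat_lit 0, nat_lit 301518, [nat_lit 3282000000, nat_lit 4688000000, nat_lit 7968000000], [], [nat_lit 30597075670, nat_lit 30962849540, nat_lit 33689928949, nat_lit 34023249533], nat_lit 1271250, nat_lit 1271250, nat_lit 1271250, nat_lit 1271250, nat_lit 0, nat_lit 0, [nat_lit 780000, nat_lit 1100000, nat_lit 1785000], [nat_lit 36, nat_lit 40, nat_lit 80, nat_lit 80, nat_lit 7, nat_lit 203, nat_lit 0, nat_lit 6]⟩, ⟨p014_k40, nat_lit 0, nat_lit 0, nat_lit 511, nat_lit 0, nat_lit 534350, [nat_lit 6250000000, nat_lit 7968000000, nat_lit 11872000000], [], [nat_lit 37999226148, nat_lit 38086992346, nat_lit 40752454638, nat_lit 40832336876],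 nat_lit 1271250, nat_lit 1271250, nat_lit 1271250, nat_lit 1271250, nat_lit 0, nat_lit 0, [nat_lit 1412500, nat_lit 1271250, nat_lit 1271250], [nat_lit 53, nat_lit 40, nat_lit 80, nat_lit 80, nat_lit 14, nat_lit 272, nat_lit 60, nat_lit 7]⟩,
 zbF0, []⟩
noncomputable def p014_l184 : Lf2 := ⟨nat_lit 0, nat_lit 10, [nat_lit 0, nat_lit 5, nat_lit 5, nat_lit 20], false, nat_lit 0, nat_lit 0, nat_lit 0, nat_lit 0, ⟨nat_lit 538, nat_lit 462, nat_lit 0, nat_lit 8, nat_lit 308, nat_lit 0, nat_lit 0, nat_lit 0, nat_lit 0, nat_lit 0, nat_lit 0, nat_lit 0, nat_lit 42106182, nat_lit 24893818, nat_lit 0, nat_lit 3298875, true, true⟩,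
 nat_lit 9832, nat_lit 0, nat_lit 0, nat_lit 0, nat_lit 4239, nat_lit 4213, nat_lit 691, nat_lit 0, nat_lit 0, nat_lit 858, nat_lit 0, nat_lit 0, nat_lit 0, nat_lit 0, nat_lit 0, nat_lit 276600, nat_lit 0, nat_lit 0, [(nat_lit 15, [(nat_lit 1, nat_lit 309), (nat_lit 2, nat_lit 153)])],
 ⟨p014_k11, nat_lit 0, nat_lit 0, nat_lit 305, nat_lit 0, nat_lit 343327, [nat_lit 2693118121, nat_lit 3576102800, nat_lit 4895756400], [], [nat_lit 29058673793, nat_lit 29356473455, nat_lit 31267992749, nat_lit 31581428464], nat_lit 1271250, nat_lit 1271250, nat_lit 1271250, nat_lit 1271250, nat_lit 0, nat_lit 0, [nat_lit 780000, nat_lit 1100000, nat_lit 1785000], [nat_lit 36, nat_lit 40, nat_lit 80, nat_lit 80, nat_lit 7, nat_lit 203, nat_lit 0, nat_lit 6]⟩, ⟨p014_k40, nat_lit 0, nat_lit 0, nat_lit 548, nat_lit 0, nat_lit 637499, [nat_lit 3362500000, nat_lit 4286784000, nat_lit 6387136000], [], [nat_lit 21289115156,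 nat_lit 21318880266, nat_lit 22429323373, nat_lit 22435109133], nat_lit 1271250, nat_lit 1271250, nat_lit 1271250, nat_lit 1271250, nat_lit 0, nat_lit 0, [nat_lit 1412500, nat_lit 1271250, nat_lit 1271250], [nat_lit 53, nat_lit 40, nat_lit 80, nat_lit 80, nat_lit 14, nat_lit 272, nat_lit 60, nat_lit 7]⟩,
 ⟨nat_lit 4472, nat_lit 4744, ⟨.ofNat (nat_lit 709096), .ofNat (nat_lit 813645), .ofNat (nat_lit 730582), .ofNat (nat_lit 835131), .ofNat (nat_lit 703932), .ofNat (nat_lit 805898), .ofNat (nat_lit 725496), .ofNat (nat_lit 827462)⟩, ⟨.ofNat (nat_lit 0), .ofNat (nat_lit 0), .ofNat (nat_lit 0), .ofNat (nat_lit 0), .ofNat (nat_lit 0), .ofNat (nat_lit 0), .ofNat (nat_lit 0), .ofNat (nat_lit 0)⟩⟩, [⟨nat_lit 13, nat_lit 82, nat_lit 53, nat_lit 100, nat_lit 6174401⟩]⟩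
noncomputable def p014_l185 : Lf2 := ⟨nat_lit 0, nat_lit 10, [nat_lit 0, nat_lit 5, nat_lit 5, nat_lit 20], false, nat_lit 0, nat_lit 0, nat_lit 0, nat_lit 0, ⟨nat_lit 1000, nat_lit 0, nat_lit 0, nat_lit 0, nat_lit 0, nat_lit 0, nat_lit 0, nat_lit 0, nat_lit 0, nat_lit 0, nat_lit 0, nat_lit 0, nat_lit 0, nat_lit 0, nat_lit 0, nat_lit 0, false, false⟩,
 nat_lit 16160, nat_lit 0, nat_lit 0, nat_lit 0, nat_lit 5622, nat_lit 7728, nat_lit 1243, nat_lit 0, nat_lit 0, nat_lit 1727, nat_lit 0, nat_lit 0, nat_lit 0, nat_lit 0, nat_lit 0, nat_lit 0, nat_lit 0, nat_lit 0, [],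
 ⟨p014_k2, nat_lit 0, nat_lit 0, nat_lit 332, nat_lit 0, nat_lit 402751, [nat_lit 3282000000, nat_lit 4688000000, nat_lit 7968000000], [], [nat_lit 26218842688, nat_lit 27002379420, nat_lit 35094208771, nat_lit 36275280808], nat_lit 1271250, nat_lit 1271250, nat_lit 1271250, nat_lit 1271250, nat_lit 0, nat_lit 0, [nat_lit 780000, nat_lit 1100000, nat_lit 1785000], [nat_lit 36, nat_lit 40, nat_lit 80, nat_lit 80, nat_lit 7, nat_lit 203, nat_lit 0, nat_lit 6]⟩, ⟨p014_k42, nat_lit 0, nat_lit 0, nat_lit 540, nat_lit 0, nat_lit 624001, [nat_lit 6250000000, nat_lit 7968000000, nat_lit 11872000000], [], [nat_lit 33724245096, nat_lit 33847467045, nat_lit 38387932932, nat_lit 38493247394], nat_lit 1271250, nat_lit 1271250, nat_lit 1271250, nat_lit 1271250, nat_lit 0, nat_lit 0, [nat_lit 1412500, nat_lit 1271250, nat_lit 1271250], [nat_lit 53, nat_lit 40, nat_lit 80, nat_lit 80, nat_lit 14, nat_lit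 401, nat_lit 175, nat_lit 10]⟩,
 zbF0, []⟩
noncomputable def p014_l186 : Lf2 := ⟨nat_lit 0, nat_lit 10, [nat_lit 0, nat_lit 5, nat_lit 5, nat_lit 20], true, nat_lit 0, nat_lit 0, nat_lit 0, nat_lit 0, ⟨nat_lit 0, nat_lit 1000, nat_lit 0, nat_lit 5, nat_lit 156, nat_lit 0, nat_lit 0, nat_lit 0, nat_lit 0, nat_lit 0, nat_lit 0, nat_lit 0, nat_lit 0, nat_lit 0, nat_lit 0, nat_lit 5000000, false, false⟩,
 nat_lit 0, nat_lit 7862, nat_lit 0, nat_lit 0, nat_lit 5002, nat_lit 0, nat_lit 135, nat_lit 0, nat_lit 0, nat_lit 0, nat_lit 0, nat_lit 0, nat_lit 0, nat_lit 0, nat_lit 0, nat_lit 439000, nat_lit 0, nat_lit 0, [(nat_lit 12, [(nat_lit 1, nat_lit 935), (nat_lit 2, nat_lit 65)])],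
 ⟨p014_k0, nat_lit 0, nat_lit 0, nat_lit 574, nat_lit 0, nat_lit 576937, [nat_lit 2085742000, nat_lit 2670838001, nat_lit 2445924000], [], [nat_lit 27301945082, nat_lit 27999652032, nat_lit 29189443394, nat_lit 26925304161], nat_lit 1271250, nat_lit 1271250, nat_lit 88400, nat_lit 1704000, nat_lit 0, nat_lit 0, [nat_lit 780000, nat_lit 1435000, nat_lit 1271250], [nat_lit 8, nat_lit 40, nat_lit 80, nat_lit 80, nat_lit 1, nat_lit 272, nat_lit 60, nat_lit 8]⟩, C1.Rw.none,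
 ⟨nat_lit 5000, nat_lit 5478, ⟨.ofNat (nat_lit 155307), .ofNat (nat_lit 574920), .ofNat (nat_lit 198021), .ofNat (nat_lit 617614), .ofNat (nat_lit 171427), .ofNat (nat_lit 571415), .ofNat (nat_lit 214284), .ofNat (nat_lit 614253)⟩, ⟨.ofNat (nat_lit 0), .ofNat (nat_lit 0), .ofNat (nat_lit 0), .ofNat (nat_lit 0), .ofNat (nat_lit 0), .ofNat (nat_lit 0), .ofNat (nat_lit 0), .ofNat (nat_lit 0)⟩⟩, []⟩
noncomputable def p014_l187 : Lf2 := ⟨nat_lit 0, nat_lit 10, [nat_lit 0, nat_lit 5, nat_lit 5, nat_lit 20], true, nat_lit 0, nat_lit 0, nat_lit 0, nat_lit 0, ⟨nat_lit 0, nat_lit 1000, nat_lit 0, nat_lit 5, nat_lit 161, nat_lit 0, nat_lit 0, nat_lit 0, nat_lit 0, nat_lit 0, nat_lit 0, nat_lit 0, nat_lit 0, nat_lit 0, nat_lit 0, nat_lit 5000000, false, false⟩,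
 nat_lit 0, nat_lit 7264, nat_lit 0, nat_lit 0, nat_lit 5028, nat_lit 0, nat_lit 208, nat_lit 0, nat_lit 0, nat_lit 0, nat_lit 0, nat_lit 0, nat_lit 0, nat_lit 0, nat_lit 0, nat_lit 400000, nat_lit 0, nat_lit 0, [(nat_lit 15, [(nat_lit 1, nat_lit 1000)])],
 ⟨p014_k4, nat_lit 0, nat_lit 0, nat_lit 539, nat_lit 0, nat_lit 701316, [nat_lit 2020200000, nat_lit 2354866667, nat_lit 2328333333], [], [nat_lit 23028559530, nat_lit 23932478437, nat_lit 25995938907, nat_lit 23750742518], nat_lit 1271250, nat_lit 1271250, nat_lit 134400, nat_lit 1708500, nat_lit 0, nat_lit 0, [nat_lit 780000, nat_lit 1435000, nat_lit 1271250], [nat_lit 18, nat_lit 40, nat_lit 80, nat_lit 80, nat_lit 2, nat_lit 272, nat_lit 60, nat_lit 9]⟩, C1.Rw.none,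
 ⟨nat_lit 4472, nat_lit 5000, ⟨.ofNat (nat_lit 185713), .ofNat (nat_lit 571423), .ofNat (nat_lit 228562), .ofNat (nat_lit 614256), .ofNat (nat_lit 200895), .ofNat (nat_lit 567973), .ofNat (nat_lit 244020), .ofNat (nat_lit 611081)⟩, ⟨.ofNat (nat_lit 0), .ofNat (nat_lit 0), .ofNat (nat_lit 0), .ofNat (nat_lit 0), .ofNat (nat_lit 0), .ofNat (nat_lit 0), .ofNat (nat_lit 0), .ofNat (nat_lit 0)⟩⟩, []⟩
noncomputable def p014_l188 : Lf2 := ⟨nat_lit 0, nat_lit 10, [nat_lit 0, nat_lit 5, nat_lit 5, nat_lit 20], false, nat_lit 0, nat_lit 0, nat_lit 0, nat_lit 0, ⟨nat_lit 1000, nat_lit 0, nat_lit 0, nat_lit 0, nat_lit 0, nat_lit 0, nat_lit 0, nat_lit 0, nat_lit 0, nat_lit 0, nat_lit 0, nat_lit 0, nat_lit 0, nat_lit 0, nat_lit 0, nat_lit 0, false, false⟩,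
 nat_lit 0, nat_lit 9914, nat_lit 0, nat_lit 0, nat_lit 6308, nat_lit 6784, nat_lit 833, nat_lit 0, nat_lit 0, nat_lit 0, nat_lit 0, nat_lit 0, nat_lit 0, nat_lit 0, nat_lit 0, nat_lit 0, nat_lit 0, nat_lit 0, [],
 ⟨p014_k0, nat_lit 0, nat_lit 0, nat_lit 456, nat_lit 0, nat_lit 576937, [nat_lit 3282000000, nat_lit 6250000000, nat_lit 9842000000], [], [nat_lit 32676414373, nat_lit 33342463890, nat_lit 39105053600, nat_lit 39734727445], nat_lit 1271250, nat_lit 1271250, nat_lit 1271250, nat_lit 1271250, nat_lit 0, nat_lit 0, [nat_lit 780000, nat_lit 1435000, nat_lit 1271250], [nat_lit 8, nat_lit 40, nat_lit 80, nat_lit 80, nat_lit 1, nat_lit 317, nat_lit 100, nat_lit 9]⟩, ⟨p014_k31, nat_lit 0, nat_lit 0, nat_lit 269, nat_lit 0, nat_lit 0, [nat_lit 6250000000, nat_lit 9842000000, nat_lit 11872000000], [], [nat_lit 35346904352, nat_lit 36625610368, nat_lit 44283510221, nat_lit 44813001100], nat_lit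 0, nat_lit 0, nat_lit 0, nat_lit 0, nat_lit 0, nat_lit 0, [], [nat_lit 46, nat_lit 40, nat_lit 80, nat_lit 80, nat_lit 41, nat_lit 401, nat_lit 175, nat_lit 10]⟩,
 zbF0, []⟩
noncomputable def p014_l189 : Lf2 := ⟨nat_lit 0, nat_lit 10, [nat_lit 0, nat_lit 5, nat_lit 5, nat_lit 20], false, nat_lit 0, nat_lit 0, nat_lit 0, nat_lit 0, ⟨nat_lit 1000, nat_lit 0, nat_lit 0, nat_lit 0, nat_lit 0, nat_lit 0, nat_lit 0, nat_lit 0, nat_lit 0, nat_lit 0, nat_lit 0, nat_lit 0, nat_lit 0, nat_lit 0, nat_lit 0, nat_lit 0, false, false⟩,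
 nat_lit 0, nat_lit 7468, nat_lit 0, nat_lit 0, nat_lit 5169, nat_lit 7340, nat_lit 1508, nat_lit 0, nat_lit 0, nat_lit 0, nat_lit 0, nat_lit 0, nat_lit 0, nat_lit 0, nat_lit 0, nat_lit 0, nat_lit 0, nat_lit 0, [],
 ⟨p014_k4, nat_lit 0, nat_lit 0, nat_lit 450, nat_lit 0, nat_lit 701316, [nat_lit 3282000000, nat_lit 6250000000, nat_lit 7968000000], [], [nat_lit 29465385194, nat_lit 30116060600, nat_lit 34548007401, nat_lit 35050667007], nat_lit 1271250, nat_lit 1271250, nat_lit 1271250, nat_lit 1271250, nat_lit 0, nat_lit 0, [nat_lit 780000, nat_lit 1435000, nat_lit 1271250], [nat_lit 18, nat_lit 40, nat_lit 80, nat_lit 80, nat_lit 2, nat_lit 203, nat_lit 0, nat_lit 6]⟩, ⟨p014_k31, nat_lit 0, nat_lit 0, nat_lit 267, nat_lit 0, nat_lit 0, [nat_lit 6250000000, nat_lit 9842000000, nat_lit 11872000000], [], [nat_lit 34820721520, nat_lit 36121569680, nat_lit 44408830360, nat_lit 45101385409], nat_lit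 0, nat_lit 0, nat_lit 0, nat_lit 0, nat_lit 0, nat_lit 0, [], [nat_lit 46, nat_lit 40, nat_lit 80, nat_lit 80, nat_lit 41, nat_lit 401, nat_lit 175, nat_lit 10]⟩,
 zbF0, []⟩
noncomputable def p014_l190 : Lf2 := ⟨nat_lit 0, nat_lit 10, [nat_lit 0, nat_lit 5, nat_lit 5, nat_lit 20], false, nat_lit 0, nat_lit 0, nat_lit 0, nat_lit 0, ⟨nat_lit 0, nat_lit 1000, nat_lit 0, nat_lit 5, nat_lit 157, nat_lit 0, nat_lit 0, nat_lit 0, nat_lit 0, nat_lit 0, nat_lit 0, nat_lit 0, nat_lit 0, nat_lit 0, nat_lit 0, nat_lit 5000000, false, false⟩,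
 nat_lit 0, nat_lit 8021, nat_lit 0, nat_lit 0, nat_lit 5104, nat_lit 0, nat_lit 0, nat_lit 0, nat_lit 0, nat_lit 0, nat_lit 0, nat_lit 0, nat_lit 0, nat_lit 0, nat_lit 0, nat_lit 608200, nat_lit 0, nat_lit 0, [(nat_lit 12, [(nat_lit 1, nat_lit 653), (nat_lit 2, nat_lit 347)]), (nat_lit 15, [(nat_lit 1, nat_lit 653), (nat_lit 2, nat_lit 347)])],
 ⟨p014_k0, nat_lit 0, nat_lit 0, nat_lit 497, nat_lit 0, nat_lit 444134, [nat_lit 2160979601, nat_lit 2452344400, nat_lit 1619551200], [], [nat_lit 26296630871, nat_lit 28340512864, nat_lit 28739292386, nat_lit 26977530848], nat_lit 1271250, nat_lit 1271250, nat_lit 88400, nat_lit 1704000, nat_lit 0, nat_lit 0, [nat_lit 780000, nat_lit 1435000, nat_lit 1271250], [nat_lit 8, nat_lit 40, nat_lit 80, nat_lit 80, nat_lit 1, nat_lit 272, nat_lit 60, nat_lit 8]⟩, ⟨p014_k31, nat_lit 0, nat_lit 0, nat_lit 729, nat_lit 0, nat_lit 713756, [nat_lit 0, nat_lit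 0, nat_lit 0], [], [nat_lit 0, nat_lit 0, nat_lit 0, nat_lit 0], nat_lit 1271250, nat_lit 1271250, nat_lit 88400, nat_lit 1704000, nat_lit 0, nat_lit 0, [nat_lit 1412500, nat_lit 1271250, nat_lit 1271250], [nat_lit 46, nat_lit 40, nat_lit 80, nat_lit 80, nat_lit 41, nat_lit 345, nat_lit 125, nat_lit 9]⟩,
 ⟨nat_lit 4472, nat_lit 5478, ⟨.ofNat (nat_lit 155307), .ofNat (nat_lit 574895), .ofNat (nat_lit 198021), .ofNat (nat_lit 617523), .ofNat (nat_lit 187299), .ofNat (nat_lit 567940), .ofNat (nat_lit 230432), .ofNat (nat_lit 610987)⟩, ⟨.ofNat (nat_lit 0), .ofNat (nat_lit 0), .ofNat (nat_lit 0), .ofNat (nat_lit 0), .ofNat (nat_lit 0), .ofNat (nat_lit 0), .ofNat (nat_lit 0), .ofNat (nat_lit 0)⟩⟩, []⟩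
noncomputable def p014_l191 : Lf2 := ⟨nat_lit 0, nat_lit 10, [nat_lit 0, nat_lit 5, nat_lit 5, nat_lit 20], false, nat_lit 0, nat_lit 0, nat_lit 0, nat_lit 0, ⟨nat_lit 312, nat_lit 688, nat_lit 0, nat_lit 6, nat_lit 293, nat_lit 0, nat_lit 0, nat_lit 0, nat_lit 0, nat_lit 0, nat_lit 0, nat_lit 0, nat_lit 0, nat_lit 0, nat_lit 0, nat_lit 5000000, true, true⟩,
 nat_lit 7374, nat_lit 0, nat_lit 0, nat_lit 0, nat_lit 4692, nat_lit 3160, nat_lit 108, nat_lit 0, nat_lit 0, nat_lit 237, nat_lit 0, nat_lit 0, nat_lit 0, nat_lit 0, nat_lit 0, nat_lit 688000, nat_lit 0, nat_lit 0, [(nat_lit 12, [(nat_lit 2, nat_lit 688)]), (nat_lit 15, [(nat_lit 2, nat_lit 688)])],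
 ⟨p014_k0, nat_lit 0, nat_lit 0, nat_lit 391, nat_lit 0, nat_lit 444134, [nat_lit 2630601601, nat_lit 3289123200, nat_lit 2868432000], [], [nat_lit 28706636841, nat_lit 29861522297, nat_lit 33162777185, nat_lit 34073077720], nat_lit 1271250, nat_lit 1271250, nat_lit 1271250, nat_lit 1271250, nat_lit 0, nat_lit 0, [nat_lit 780000, nat_lit 1435000, nat_lit 1271250], [nat_lit 8, nat_lit 40, nat_lit 80, nat_lit 80, nat_lit 1, nat_lit 317, nat_lit 100, nat_lit 9]⟩, ⟨p014_k31, nat_lit 0, nat_lit 0, nat_lit 590, nat_lit 0, nat_lit 713756, [nat_lit 1950000000, nat_lit 3070704000, nat_lit 3704064000], [], [nat_lit 12657163424, nat_lit 12668283648, nat_lit 14191724562, nat_lit 14165867498], nat_lit 1271250, nat_lit 1271250, nat_lit 1271250, nat_lit 1271250, nat_lit 0, nat_lit 0, [nat_lit 1412500, nat_lit 1271250, nat_lit 1271250], [nat_lit 46, nat_lit 40, nat_lit 80, nat_lit 80, nat_lit 41, nat_lit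 401, nat_lit 175, nat_lit 10]⟩,
 ⟨nat_lit 4472, nat_lit 5478, ⟨.ofNat (nat_lit 574895), .ofNat (nat_lit 866988), .ofNat (nat_lit 617523), .ofNat (nat_lit 909625), .ofNat (nat_lit 567940), .ofNat (nat_lit 832909), .ofNat (nat_lit 610987), .ofNat (nat_lit 875965)⟩, ⟨.ofNat (nat_lit 0), .ofNat (nat_lit 0), .ofNat (nat_lit 0), .ofNat (nat_lit 0), .ofNat (nat_lit 0), .ofNat (nat_lit 0), .ofNat (nat_lit 0), .ofNat (nat_lit 0)⟩⟩, [⟨nat_lit 13, nat_lit 87, nat_lit 41, nat_lit 100, nat_lit 116383120⟩]⟩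
noncomputable def b_N_700_500_0_5 : St := ⟨false, nat_lit 1, nat_lit 2, nat_lit 0, nat_lit 40, nat_lit 280, nat_lit 320, nat_lit 200, nat_lit 240, nat_lit 16, nat_lit 396, nat_lit 0, nat_lit 0, nat_lit 0, nat_lit 0, nat_lit 0, nat_lit 0, nat_lit 40, nat_lit 80, nat_lit 0, nat_lit 0, nat_lit 0, nat_lit 0⟩
theorem d_N_700_500_0_5 (h : EB TB.env) : Dead b_N_700_500_0_5 := chkB_sound0 h (T :=
(.gv
(.st (nat_lit 1)
(.spl (nat_lit 2) (nat_lit 240)
(.spl (nat_lit 2) (nat_lit 160)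
(.spl (nat_lit 2) (nat_lit 80)
(.spl (nat_lit 0) (nat_lit 300)
(.leaf p014_l162)
(.trZ (nat_lit 0) (nat_lit 100) (nat_lit 87) (nat_lit 50) (nat_lit 24) (.leaf p014_l163)))
(.spl (nat_lit 0) (nat_lit 300)
(.spl (nat_lit 0) (nat_lit 290)
(.spl (nat_lit 1) (nat_lit 220)
(.leaf p014_l164)
(.spl (nat_lit 0) (nat_lit 285)
(.leaf p014_l165)
(.leaf p014_l166)))
(.spl (nat_lit 0) (nat_lit 295)
(.leaf p014_l167)
(.leaf p014_l168)))
(.spl (nat_lit 0) (nat_lit 310)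
(.spl (nat_lit 0) (nat_lit 305)
(.leaf p014_l169)
(.leaf p014_l170))
(.leaf p014_l171))))
(.spl (nat_lit 0) (nat_lit 300)
(.leaf p014_l172)
(.leaf p014_l173)))
(.spl (nat_lit 0) (nat_lit 300)
(.leaf p014_l174)
(.trX (nat_lit 13) (nat_lit 88) (nat_lit 32) (nat_lit 100) (nat_lit 392) (.leaf p014_l175))))
(.spl (nat_lit 2) (nat_lit 240)
(.spl (nat_lit 2) (nat_lit 120)
(.spl (nat_lit 0) (nat_lit 300)
(.leaf p014_l176)
(.trZ (nat_lit 0) (nat_lit 100) (nat_lit 87) (nat_lit 50) (nat_lit 24) (.leaf p014_l177)))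
(.spl (nat_lit 0) (nat_lit 300)
(.leaf p014_l178)
(.leaf p014_l179)))
(.spl (nat_lit 0) (nat_lit 300)
(.spl (nat_lit 0) (nat_lit 290)
(.leaf p014_l180)
(.leaf p014_l181))
(.trX (nat_lit 13) (nat_lit 88) (nat_lit 32) (nat_lit 100) (nat_lit 392) (.spl (nat_lit 1) (nat_lit 220)
(.trX (nat_lit 13) (nat_lit 87) (nat_lit 41) (nat_lit 100) (nat_lit 384) (.spl (nat_lit 2) (nat_lit 320)
(.leaf p014_l182)
(.spl (nat_lit 0) (nat_lit 310)
(.leaf p014_l183)
(.trX (nat_lit 13) (nat_lit 84) (nat_lit 47) (nat_lit 100) (nat_lit 380) (.leaf p014_l184)))))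
(.leaf p014_l185))))))
(.st (nat_lit 1)
(.spl (nat_lit 2) (nat_lit 240)
(.spl (nat_lit 0) (nat_lit 300)
(.leaf p014_l186)
(.trZ (nat_lit 0) (nat_lit 100) (nat_lit 87) (nat_lit 50) (nat_lit 24) (.leaf p014_l187)))
(.spl (nat_lit 0) (nat_lit 300)
(.leaf p014_l188)
(.trX (nat_lit 13) (nat_lit 88) (nat_lit 32) (nat_lit 100) (nat_lit 392) (.leaf p014_l189))))
(.spl (nat_lit 2) (nat_lit 240)
(.leaf p014_l190)
(.leaf p014_l191))))) (by decide +kernel)
noncomputable def p014_l192 : Lf2 := ⟨nat_lit 0, nat_lit 10, [nat_lit 0, nat_lit 5, nat_lit 5, nat_lit 20], true, nat_lit 0, nat_lit 0, nat_lit 0, nat_lit 0, ⟨nat_lit 0, nat_lit 0, nat_lit 1000, nat_lit 5, nat_lit 157, nat_lit 0, nat_lit 0, nat_lit 0, nat_lit 0, nat_lit 215, nat_lit 1350, nat_lit 206, nat_lit 58044227, nat_lit 0, nat_lit 0, nat_lit 1966502, false, false⟩,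
 nat_lit 0, nat_lit 0, nat_lit 0, nat_lit 4085, nat_lit 3122, nat_lit 0, nat_lit 103, nat_lit 0, nat_lit 0, nat_lit 0, nat_lit 0, nat_lit 0, nat_lit 0, nat_lit 0, nat_lit 86, nat_lit 400000, nat_lit 0, nat_lit 0, [(nat_lit 12, [(nat_lit 5, nat_lit 1000)]), (nat_lit 15, [(nat_lit 5, nat_lit 1000)])],
 ⟨p014_k0, nat_lit 0, nat_lit 0, nat_lit 308, nat_lit 0, nat_lit 0, [nat_lit 2347200000, nat_lit 1180400000, nat_lit 174400000], [], [nat_lit 16944762010, nat_lit 18991467477, nat_lit 19095179699, nat_lit 20765404995], nat_lit 0, nat_lit 0, nat_lit 0, nat_lit 0, nat_lit 0, nat_lit 0, [], [nat_lit 8, nat_lit 40, nat_lit 80, nat_lit 80, nat_lit 1, nat_lit 272, nat_lit 60, nat_lit 8]⟩, C1.Rw.none,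
 ⟨nat_lit 4472, nat_lit 5478, ⟨.ofNat (nat_lit 155307), .ofNat (nat_lit 574895), .ofNat (nat_lit 198021), .ofNat (nat_lit 617523), .ofNat (nat_lit 187299), .ofNat (nat_lit 567940), .ofNat (nat_lit 230432), .ofNat (nat_lit 610987)⟩, ⟨.ofNat (nat_lit 0), .ofNat (nat_lit 0), .ofNat (nat_lit 0), .ofNat (nat_lit 0), .ofNat (nat_lit 0), .ofNat (nat_lit 0), .ofNat (nat_lit 0), .ofNat (nat_lit 0)⟩⟩, []⟩
noncomputable def p014_l193 : Lf2 := ⟨nat_lit 0, nat_lit 10, [nat_lit 0, nat_lit 5, nat_lit 5, nat_lit 20], false, nat_lit 0, nat_lit 0, nat_lit 0, nat_lit 0, ⟨nat_lit 1000, nat_lit 0, nat_lit 0, nat_lit 0, nat_lit 0, nat_lit 0, nat_lit 0, nat_lit 0, nat_lit 0, nat_lit 0, nat_lit 0, nat_lit 0, nat_lit 0, nat_lit 0, nat_lit 0, nat_lit 0, false, false⟩,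
 nat_lit 0, nat_lit 0, nat_lit 0, nat_lit 36898, nat_lit 0, nat_lit 7661, nat_lit 0, nat_lit 0, nat_lit 0, nat_lit 0, nat_lit 0, nat_lit 0, nat_lit 0, nat_lit 0, nat_lit 0, nat_lit 0, nat_lit 0, nat_lit 0, [],
 ⟨p014_k0, nat_lit 0, nat_lit 0, nat_lit 218, nat_lit 0, nat_lit 0, [nat_lit 3282000000, nat_lit 6250000000, nat_lit 9842000000], [], [nat_lit 35885740000, nat_lit 37075688000, nat_lit 40382674800, nat_lit 41393035000], nat_lit 0, nat_lit 0, nat_lit 0, nat_lit 0, nat_lit 0, nat_lit 0, [], [nat_lit 8, nat_lit 40, nat_lit 80, nat_lit 80, nat_lit 1, nat_lit 317, nat_lit 100, nat_lit 9]⟩, ⟨p014_k31, nat_lit 0, nat_lit 0, nat_lit 269, nat_lit 0, nat_lit 0, [nat_lit 6250000000, nat_lit 9842000000, nat_lit 11872000000], [], [nat_lit 34516936108, nat_lit 35830567772, nat_lit 45111606279, nat_lit 45764241070], nat_lit 0, nat_lit 0, nat_lit 0, nat_lit 0, nat_lit 0, nat_lit 0, [], [nat_lit 46,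 nat_lit 40, nat_lit 80, nat_lit 80, nat_lit 41, nat_lit 401, nat_lit 175, nat_lit 10]⟩,
 zbF0, []⟩
noncomputable def p014_l194 : Lf2 := ⟨nat_lit 0, nat_lit 10, [nat_lit 0, nat_lit 5, nat_lit 5, nat_lit 20], true, nat_lit 0, nat_lit 0, nat_lit 0, nat_lit 0, ⟨nat_lit 0, nat_lit 0, nat_lit 1000, nat_lit 5, nat_lit 157, nat_lit 0, nat_lit 0, nat_lit 0, nat_lit 0, nat_lit 215, nat_lit 1350, nat_lit 206, nat_lit 58044227, nat_lit 0, nat_lit 0, nat_lit 1966502, false, false⟩,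
 nat_lit 0, nat_lit 0, nat_lit 0, nat_lit 4085, nat_lit 3122, nat_lit 0, nat_lit 103, nat_lit 0, nat_lit 0, nat_lit 0, nat_lit 0, nat_lit 0, nat_lit 0, nat_lit 0, nat_lit 86, nat_lit 400000, nat_lit 0, nat_lit 0, [(nat_lit 12, [(nat_lit 5, nat_lit 1000)]), (nat_lit 15, [(nat_lit 5, nat_lit 1000)])],
 ⟨p014_k0, nat_lit 0, nat_lit 0, nat_lit 308, nat_lit 0, nat_lit 0, [nat_lit 2347200000, nat_lit 1180400000, nat_lit 174400000], [], [nat_lit 16944762010, nat_lit 18991467477, nat_lit 19095179699, nat_lit 20765404995], nat_lit 0, nat_lit 0, nat_lit 0, nat_lit 0, nat_lit 0, nat_lit 0, [], [nat_lit 8, nat_lit 40, nat_lit 80, nat_lit 80, nat_lit 1, nat_lit 272, nat_lit 60, nat_lit 8]⟩, C1.Rw.none,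
 ⟨nat_lit 4472, nat_lit 5478, ⟨.ofNat (nat_lit 155307), .ofNat (nat_lit 574895), .ofNat (nat_lit 198021), .ofNat (nat_lit 617523), .ofNat (nat_lit 187299), .ofNat (nat_lit 567940), .ofNat (nat_lit 230432), .ofNat (nat_lit 610987)⟩, ⟨.ofNat (nat_lit 0), .ofNat (nat_lit 0), .ofNat (nat_lit 0), .ofNat (nat_lit 0), .ofNat (nat_lit 0), .ofNat (nat_lit 0), .ofNat (nat_lit 0), .ofNat (nat_lit 0)⟩⟩, []⟩
noncomputable def p014_l195 : Lf2 := ⟨nat_lit 0, nat_lit 10, [nat_lit 0, nat_lit 5, nat_lit 5, nat_lit 20], false, nat_lit 0, nat_lit 0, nat_lit 0, nat_lit 0, ⟨nat_lit 1000, nat_lit 0, nat_lit 0, nat_lit 0, nat_lit 0, nat_lit 0, nat_lit 0, nat_lit 0, nat_lit 0, nat_lit 0, nat_lit 0, nat_lit 0, nat_lit 0, nat_lit 0, nat_lit 0, nat_lit 0, false, false⟩,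
 nat_lit 0, nat_lit 0, nat_lit 29562, nat_lit 0, nat_lit 2306, nat_lit 12669, nat_lit 0, nat_lit 0, nat_lit 0, nat_lit 0, nat_lit 0, nat_lit 0, nat_lit 0, nat_lit 0, nat_lit 0, nat_lit 0, nat_lit 0, nat_lit 0, [],
 ⟨p014_k17, nat_lit 0, nat_lit 0, nat_lit 226, nat_lit 0, nat_lit 0, [nat_lit 3282000000, nat_lit 7968000001, nat_lit 9842000000], [], [nat_lit 33931912320, nat_lit 34766138432, nat_lit 40141919638, nat_lit 40738506810], nat_lit 0, nat_lit 0, nat_lit 0, nat_lit 0, nat_lit 0, nat_lit 0, [], [nat_lit 99, nat_lit 40, nat_lit 80, nat_lit 80, nat_lit 17, nat_lit 317, nat_lit 100, nat_lit 9]⟩, ⟨p014_k16, nat_lit 0, nat_lit 0, nat_lit 321, nat_lit 0, nat_lit 76001, [nat_lit 6250000000, nat_lit 11872000000], [], [nat_lit 41905517072, nat_lit 42586873328, nat_lit 50773385187, nat_lit 51199391419], nat_lit 1271250, nat_lit 1271250, nat_lit 1271250, nat_lit 1271250, nat_lit 0, nat_lit 0, [nat_lit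 1412500, nat_lit 1271250], [nat_lit 107, nat_lit 40, nat_lit 80, nat_lit 80, nat_lit 12, nat_lit 401, nat_lit 175, nat_lit 10]⟩,
 zbF0, []⟩
noncomputable def p014_l196 : Lf2 := ⟨nat_lit 0, nat_lit 10, [nat_lit 0, nat_lit 5, nat_lit 5, nat_lit 20], false, nat_lit 0, nat_lit 0, nat_lit 0, nat_lit 0, ⟨nat_lit 1000, nat_lit 0, nat_lit 0, nat_lit 0, nat_lit 0, nat_lit 0, nat_lit 0, nat_lit 0, nat_lit 0, nat_lit 0, nat_lit 0, nat_lit 0, nat_lit 0, nat_lit 0, nat_lit 0, nat_lit 0, false, false⟩,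
 nat_lit 0, nat_lit 0, nat_lit 17672, nat_lit 0, nat_lit 5209, nat_lit 7573, nat_lit 0, nat_lit 0, nat_lit 0, nat_lit 0, nat_lit 0, nat_lit 0, nat_lit 0, nat_lit 0, nat_lit 0, nat_lit 0, nat_lit 0, nat_lit 0, [],
 ⟨p014_k4, nat_lit 0, nat_lit 0, nat_lit 193, nat_lit 0, nat_lit 0, [nat_lit 3282000000, nat_lit 6250000000, nat_lit 7968000000], [], [nat_lit 28864887322, nat_lit 30118299484, nat_lit 37527876146, nat_lit 38420882378], nat_lit 0, nat_lit 0, nat_lit 0, nat_lit 0, nat_lit 0, nat_lit 0, [], [nat_lit 18, nat_lit 40, nat_lit 80, nat_lit 80, nat_lit 2, nat_lit 203, nat_lit 0, nat_lit 6]⟩, ⟨p014_k31, nat_lit 0, nat_lit 0, nat_lit 418, nat_lit 0, nat_lit 333030, [nat_lit 6250000000, nat_lit 9842000000, nat_lit 11872000000], [], [nat_lit 46225993140, nat_lit 46494644494, nat_lit 51638897805, nat_lit 51743875271], nat_lit 1271250, nat_lit 1271250, nat_lit 1271250, nat_lit 1271250, nat_lit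 0, nat_lit 0, [nat_lit 1412500, nat_lit 1271250, nat_lit 1271250], [nat_lit 46, nat_lit 40, nat_lit 80, nat_lit 80, nat_lit 41, nat_lit 401, nat_lit 175, nat_lit 10]⟩,
 zbF0, []⟩
noncomputable def p014_l197 : Lf2 := ⟨nat_lit 0, nat_lit 10, [nat_lit 0, nat_lit 5, nat_lit 5, nat_lit 20], false, nat_lit 0, nat_lit 0, nat_lit 0, nat_lit 0, ⟨nat_lit 993, nat_lit 7, nat_lit 0, nat_lit 6, nat_lit 294, nat_lit 0, nat_lit 0, nat_lit 0, nat_lit 0, nat_lit 0, nat_lit 0, nat_lit 0, nat_lit 43526989, nat_lit 23473011, nat_lit 0, nat_lit 3238294, true, true⟩,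
 nat_lit 0, nat_lit 0, nat_lit 19304, nat_lit 0, nat_lit 5202, nat_lit 9232, nat_lit 0, nat_lit 0, nat_lit 0, nat_lit 882, nat_lit 0, nat_lit 0, nat_lit 0, nat_lit 0, nat_lit 0, nat_lit 1750, nat_lit 0, nat_lit 0, [(nat_lit 15, [(nat_lit 0, nat_lit 7)])],
 ⟨p014_k4, nat_lit 0, nat_lit 0, nat_lit 196, nat_lit 0, nat_lit 0, [nat_lit 3275254801, nat_lit 6225323600, nat_lit 7933725200], [], [nat_lit 28830063317, nat_lit 30082624153, nat_lit 38033420005, nat_lit 38898003943], nat_lit 0, nat_lit 0, nat_lit 0, nat_lit 0, nat_lit 0, nat_lit 0, [], [nat_lit 18, nat_lit 40, nat_lit 80, nat_lit 80, nat_lit 2, nat_lit 203, nat_lit 0, nat_lit 6]⟩, ⟨p014_k19, nat_lit 0, nat_lit 0, nat_lit 454, nat_lit 0, nat_lit 434821, [nat_lit 6206250000, nat_lit 9773106000, nat_lit 11788896000], [], [nat_lit 37049488144, nat_lit 37163986908, nat_lit 42201605078, nat_lit 42189285734], nat_lit 1271250, nat_lit 1271250,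 nat_lit 1271250, nat_lit 1271250, nat_lit 0, nat_lit 0, [nat_lit 1412500, nat_lit 1271250, nat_lit 1271250], [nat_lit 46, nat_lit 40, nat_lit 80, nat_lit 80, nat_lit 41, nat_lit 401, nat_lit 175, nat_lit 10]⟩,
 ⟨nat_lit 4472, nat_lit 5000, ⟨.ofNat (nat_lit 592840), .ofNat (nat_lit 864250), .ofNat (nat_lit 614256), .ofNat (nat_lit 885667), .ofNat (nat_lit 589527), .ofNat (nat_lit 847826), .ofNat (nat_lit 611081), .ofNat (nat_lit 869380)⟩, ⟨.ofNat (nat_lit 0), .ofNat (nat_lit 0), .ofNat (nat_lit 0), .ofNat (nat_lit 0), .ofNat (nat_lit 0), .ofNat (nat_lit 0), .ofNat (nat_lit 0), .ofNat (nat_lit 0)⟩⟩, []⟩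
noncomputable def p014_l198 : Lf2 := ⟨nat_lit 0, nat_lit 10, [nat_lit 0, nat_lit 5, nat_lit 5, nat_lit 20], true, nat_lit 0, nat_lit 0, nat_lit 0, nat_lit 0, ⟨nat_lit 0, nat_lit 1000, nat_lit 0, nat_lit 5, nat_lit 213, nat_lit 0, nat_lit 0, nat_lit 0, nat_lit 0, nat_lit 0, nat_lit 0, nat_lit 0, nat_lit 0, nat_lit 0, nat_lit 0, nat_lit 5000000, false, true⟩,
 nat_lit 0, nat_lit 0, nat_lit 0, nat_lit 4310, nat_lit 4305, nat_lit 0, nat_lit 287, nat_lit 0, nat_lit 0, nat_lit 0, nat_lit 0, nat_lit 0, nat_lit 0, nat_lit 0, nat_lit 0, nat_lit 250000, nat_lit 0, nat_lit 0, [(nat_lit 12, [(nat_lit 0, nat_lit 1000)]), (nat_lit 15, [(nat_lit 0, nat_lit 1000)])],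
 ⟨p014_k0, nat_lit 0, nat_lit 0, nat_lit 308, nat_lit 0, nat_lit 0, [nat_lit 2364000000, nat_lit 2954000000, nat_lit 3510800000], [], [nat_lit 26109486270, nat_lit 28177214330, nat_lit 31958547613, nat_lit 33009817074], nat_lit 0, nat_lit 0, nat_lit 0, nat_lit 0, nat_lit 0, nat_lit 0, [], [nat_lit 8, nat_lit 40, nat_lit 80, nat_lit 80, nat_lit 1, nat_lit 317, nat_lit 100, nat_lit 9]⟩, C1.Rw.none,
 ⟨nat_lit 4472, nat_lit 5478, ⟨.ofNat (nat_lit 155307), .ofNat (nat_lit 866988), .ofNat (nat_lit 198021), .ofNat (nat_lit 909625), .ofNat (nat_lit 187299), .ofNat (nat_lit 832909), .ofNat (nat_lit 230432), .ofNat (nat_lit 875965)⟩, ⟨.ofNat (nat_lit 0), .ofNat (nat_lit 0), .ofNat (nat_lit 0), .ofNat (nat_lit 0), .ofNat (nat_lit 0), .ofNat (nat_lit 0), .ofNat (nat_lit 0), .ofNat (nat_lit 0)⟩⟩, [⟨nat_lit 13, nat_lit 87, nat_lit 41, nat_lit 100, nat_lit 126957235⟩]⟩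
noncomputable def p014_l199 : Lf2 := ⟨nat_lit 0, nat_lit 10, [nat_lit 0, nat_lit 5, nat_lit 5, nat_lit 20], true, nat_lit 0, nat_lit 0, nat_lit 0, nat_lit 0, ⟨nat_lit 0, nat_lit 0, nat_lit 1000, nat_lit 5, nat_lit 112, nat_lit 0, nat_lit 0, nat_lit 0, nat_lit 0, nat_lit 215, nat_lit 117600, nat_lit 299, nat_lit 62132479, nat_lit 0, nat_lit 0, nat_lit 1302191, false, false⟩,
 nat_lit 0, nat_lit 4828, nat_lit 0, nat_lit 2217, nat_lit 3072, nat_lit 0, nat_lit 91, nat_lit 0, nat_lit 0, nat_lit 0, nat_lit 0, nat_lit 0, nat_lit 0, nat_lit 0, nat_lit 95, nat_lit 400000, nat_lit 0, nat_lit 0, [(nat_lit 12, [(nat_lit 5, nat_lit 1000)])],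
 ⟨p014_k0, nat_lit 0, nat_lit 0, nat_lit 313, nat_lit 0, nat_lit 38395, [nat_lit 2380800000, nat_lit 1365333334, nat_lit 202000000], [], [nat_lit 16618291330, nat_lit 17453811163, nat_lit 16185223239, nat_lit 17181481383], nat_lit 1271250, nat_lit 1271250, nat_lit 88400, nat_lit 780000, nat_lit 0, nat_lit 0, [nat_lit 780000, nat_lit 1435000, nat_lit 1271250], [nat_lit 8, nat_lit 40, nat_lit 80, nat_lit 80, nat_lit 1, nat_lit 238, nat_lit 30, nat_lit 7]⟩, C1.Rw.none,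
 ⟨nat_lit 5000, nat_lit 5478, ⟨.ofNat (nat_lit 155307), .ofNat (nat_lit 350132), .ofNat (nat_lit 198021), .ofNat (nat_lit 392847), .ofNat (nat_lit 171427), .ofNat (nat_lit 357141), .ofNat (nat_lit 214284), .ofNat (nat_lit 399998)⟩, ⟨.ofNat (nat_lit 0), .ofNat (nat_lit 0), .ofNat (nat_lit 0), .ofNat (nat_lit 0), .ofNat (nat_lit 0), .ofNat (nat_lit 0), .ofNat (nat_lit 0), .ofNat (nat_lit 0)⟩⟩, [⟨nat_lit 0, nat_lit 100, nat_lit 88, nat_lit 68, nat_lit 116676676⟩]⟩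
noncomputable def p014_l200 : Lf2 := ⟨nat_lit 0, nat_lit 10, [nat_lit 0, nat_lit 5, nat_lit 5, nat_lit 20], true, nat_lit 0, nat_lit 0, nat_lit 0, nat_lit 0, ⟨nat_lit 0, nat_lit 0, nat_lit 1000, nat_lit 5, nat_lit 119, nat_lit 0, nat_lit 0, nat_lit 0, nat_lit 0, nat_lit 215, nat_lit 135000, nat_lit 305, nat_lit 61520594, nat_lit 0, nat_lit 0, nat_lit 1415499, false, false⟩,
 nat_lit 0, nat_lit 4258, nat_lit 0, nat_lit 0, nat_lit 2947, nat_lit 0, nat_lit 0, nat_lit 0, nat_lit 0, nat_lit 0, nat_lit 0, nat_lit 0, nat_lit 0, nat_lit 0, nat_lit 94, nat_lit 400000, nat_lit 0, nat_lit 0, [(nat_lit 15, [(nat_lit 5, nat_lit 1000)])],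
 ⟨p014_k4, nat_lit 0, nat_lit 0, nat_lit 320, nat_lit 0, nat_lit 223866, [nat_lit 2443200000, nat_lit 916400001, nat_lit 120399999], [], [nat_lit 16678803199, nat_lit 17845631007, nat_lit 16727283307, nat_lit 17803736580], nat_lit 1271250, nat_lit 1271250, nat_lit 134400, nat_lit 780000, nat_lit 0, nat_lit 0, [nat_lit 780000, nat_lit 1435000, nat_lit 1271250], [nat_lit 18, nat_lit 40, nat_lit 80, nat_lit 80, nat_lit 2, nat_lit 238, nat_lit 30, nat_lit 8]⟩, C1.Rw.none,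
 ⟨nat_lit 4472, nat_lit 5000, ⟨.ofNat (nat_lit 185713), .ofNat (nat_lit 357141), .ofNat (nat_lit 228562), .ofNat (nat_lit 399984), .ofNat (nat_lit 200895), .ofNat (nat_lit 364042), .ofNat (nat_lit 244020), .ofNat (nat_lit 407160)⟩, ⟨.ofNat (nat_lit 0), .ofNat (nat_lit 0), .ofNat (nat_lit 0), .ofNat (nat_lit 0), .ofNat (nat_lit 0), .ofNat (nat_lit 0), .ofNat (nat_lit 0), .ofNat (nat_lit 0)⟩⟩, [⟨nat_lit 0, nat_lit 100, nat_lit 82, nat_lit 76, nat_lit 102280611⟩]⟩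
noncomputable def p014_l201 : Lf2 := ⟨nat_lit 0, nat_lit 10, [nat_lit 0, nat_lit 5, nat_lit 5, nat_lit 20], false, nat_lit 0, nat_lit 0, nat_lit 0, nat_lit 0, ⟨nat_lit 1000, nat_lit 0, nat_lit 0, nat_lit 0, nat_lit 0, nat_lit 0, nat_lit 0, nat_lit 0, nat_lit 0, nat_lit 0, nat_lit 0, nat_lit 0, nat_lit 0, nat_lit 0, nat_lit 0, nat_lit 0, false, false⟩,
 nat_lit 0, nat_lit 9057, nat_lit 0, nat_lit 0, nat_lit 5763, nat_lit 9325, nat_lit 1011, nat_lit 0, nat_lit 0, nat_lit 0, nat_lit 0, nat_lit 0, nat_lit 0, nat_lit 0, nat_lit 0, nat_lit 0, nat_lit 0, nat_lit 0, [],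
 ⟨p014_k0, nat_lit 0, nat_lit 0, nat_lit 325, nat_lit 0, nat_lit 251376, [nat_lit 3282000000, nat_lit 6250000000, nat_lit 9842000000], [], [nat_lit 29229670864, nat_lit 28902876396, nat_lit 44577835594, nat_lit 39418929391], nat_lit 1271250, nat_lit 1271250, nat_lit 780000, nat_lit 3039750, nat_lit 0, nat_lit 0, [nat_lit 780000, nat_lit 1435000, nat_lit 1271250], [nat_lit 8, nat_lit 40, nat_lit 80, nat_lit 80, nat_lit 1, nat_lit 317, nat_lit 100, nat_lit 9]⟩, ⟨p014_k31, nat_lit 0, nat_lit 0, nat_lit 269, nat_lit 0, nat_lit 0, [nat_lit 6250000000, nat_lit 9842000000, nat_lit 11872000000], [], [nat_lit 30683350800, nat_lit 32607858450, nat_lit 46981175175, nat_lit 47570169621], nat_lit 0, nat_lit 0, nat_lit 0, nat_lit 0, nat_lit 0, nat_lit 0, [], [nat_lit 46, nat_lit 40, nat_lit 80, nat_lit 80, nat_lit 41, nat_lit 401, nat_lit 175, nat_lit 11]⟩,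
 zbF0, []⟩
noncomputable def p014_l202 : Lf2 := ⟨nat_lit 0, nat_lit 10, [nat_lit 0, nat_lit 5, nat_lit 5, nat_lit 20], true, nat_lit 0, nat_lit 0, nat_lit 0, nat_lit 0, ⟨nat_lit 0, nat_lit 0, nat_lit 1000, nat_lit 5, nat_lit 156, nat_lit 0, nat_lit 0, nat_lit 0, nat_lit 0, nat_lit 215, nat_lit 1350, nat_lit 206, nat_lit 58168250, nat_lit 0, nat_lit 0, nat_lit 1949130, false, false⟩,
 nat_lit 0, nat_lit 4859, nat_lit 0, nat_lit 473, nat_lit 3092, nat_lit 0, nat_lit 84, nat_lit 0, nat_lit 0, nat_lit 0, nat_lit 0, nat_lit 0, nat_lit 0, nat_lit 0, nat_lit 95, nat_lit 400000, nat_lit 0, nat_lit 0, [(nat_lit 12, [(nat_lit 5, nat_lit 1000)])],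
 ⟨p014_k0, nat_lit 0, nat_lit 0, nat_lit 313, nat_lit 0, nat_lit 38395, [nat_lit 2380800000, nat_lit 1365333334, nat_lit 202000000], [], [nat_lit 16690565852, nat_lit 17526041941, nat_lit 18895618564, nat_lit 19728082692], nat_lit 1271250, nat_lit 1271250, nat_lit 88400, nat_lit 1704000, nat_lit 0, nat_lit 0, [nat_lit 780000, nat_lit 1435000, nat_lit 1271250], [nat_lit 8, nat_lit 40, nat_lit 80, nat_lit 80, nat_lit 1, nat_lit 272, nat_lit 60, nat_lit 8]⟩, C1.Rw.none,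
 ⟨nat_lit 5000, nat_lit 5478, ⟨.ofNat (nat_lit 155307), .ofNat (nat_lit 574920), .ofNat (nat_lit 198021), .ofNat (nat_lit 617614), .ofNat (nat_lit 171427), .ofNat (nat_lit 571415), .ofNat (nat_lit 214284), .ofNat (nat_lit 614253)⟩, ⟨.ofNat (nat_lit 0), .ofNat (nat_lit 0), .ofNat (nat_lit 0), .ofNat (nat_lit 0), .ofNat (nat_lit 0), .ofNat (nat_lit 0), .ofNat (nat_lit 0), .ofNat (nat_lit 0)⟩⟩, []⟩
noncomputable def p014_l203 : Lf2 := ⟨nat_lit 0, nat_lit 10, [nat_lit 0, nat_lit 5, nat_lit 5, nat_lit 20], false, nat_lit 0, nat_lit 0, nat_lit 0, nat_lit 0, ⟨nat_lit 30, nat_lit 0, nat_lit 970, nat_lit 5, nat_lit 161, nat_lit 0, nat_lit 0, nat_lit 0, nat_lit 0, nat_lit 215, nat_lit 1067, nat_lit 207, nat_lit 57639305, nat_lit 0, nat_lit 0, nat_lit 2022198, false, false⟩,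
 nat_lit 1383, nat_lit 3047, nat_lit 0, nat_lit 0, nat_lit 3066, nat_lit 592, nat_lit 0, nat_lit 0, nat_lit 0, nat_lit 0, nat_lit 0, nat_lit 0, nat_lit 0, nat_lit 0, nat_lit 81, nat_lit 388000, nat_lit 0, nat_lit 0, [(nat_lit 15, [(nat_lit 5, nat_lit 970)])],
 ⟨p014_k4, nat_lit 0, nat_lit 0, nat_lit 288, nat_lit 0, nat_lit 131827, [nat_lit 2346204000, nat_lit 872808000, nat_lit 110338000], [], [nat_lit 16963493800, nat_lit 18151060801, nat_lit 19981204004, nat_lit 21068157352], nat_lit 1271250, nat_lit 1271250, nat_lit 134400, nat_lit 1708500, nat_lit 0, nat_lit 0, [nat_lit 780000, nat_lit 1435000, nat_lit 1271250], [nat_lit 18, nat_lit 40, nat_lit 80, nat_lit 80, nat_lit 2, nat_lit 272, nat_lit 60, nat_lit 9]⟩, ⟨p014_k31, nat_lit 0, nat_lit 0, nat_lit 499, nat_lit 0, nat_lit 237289, [nat_lit 187500000, nat_lit 295260000, nat_lit 356160000], [], [nat_lit 1576846154, nat_lit 1620463524, nat_lit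 1627576312, nat_lit 1131177712], nat_lit 1271250, nat_lit 1271250, nat_lit 134400, nat_lit 1708500, nat_lit 0, nat_lit 0, [nat_lit 1412500, nat_lit 1271250, nat_lit 1271250], [nat_lit 46, nat_lit 40, nat_lit 80, nat_lit 80, nat_lit 41, nat_lit 345, nat_lit 125, nat_lit 9]⟩,
 ⟨nat_lit 4472, nat_lit 5000, ⟨.ofNat (nat_lit 185713), .ofNat (nat_lit 571423), .ofNat (nat_lit 228562), .ofNat (nat_lit 614256), .ofNat (nat_lit 200895), .ofNat (nat_lit 567973), .ofNat (nat_lit 244020), .ofNat (nat_lit 611081)⟩, ⟨.ofNat (nat_lit 0), .ofNat (nat_lit 0), .ofNat (nat_lit 0), .ofNat (nat_lit 0), .ofNat (nat_lit 0), .ofNat (nat_lit 0), .ofNat (nat_lit 0), .ofNat (nat_lit 0)⟩⟩, []⟩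
noncomputable def p014_l204 : Lf2 := ⟨nat_lit 0, nat_lit 10, [nat_lit 0, nat_lit 5, nat_lit 5, nat_lit 20], false, nat_lit 0, nat_lit 0, nat_lit 0, nat_lit 0, ⟨nat_lit 1000, nat_lit 0, nat_lit 0, nat_lit 0, nat_lit 0, nat_lit 0, nat_lit 0, nat_lit 0, nat_lit 0, nat_lit 0, nat_lit 0, nat_lit 0, nat_lit 0, nat_lit 0, nat_lit 0, nat_lit 0, false, false⟩,
 nat_lit 18894, nat_lit 0, nat_lit 0, nat_lit 0, nat_lit 6393, nat_lit 8097, nat_lit 897, nat_lit 0, nat_lit 0, nat_lit 0, nat_lit 0, nat_lit 0, nat_lit 0, nat_lit 0, nat_lit 0, nat_lit 0, nat_lit 0, nat_lit 0, [],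
 ⟨p014_k0, nat_lit 0, nat_lit 0, nat_lit 292, nat_lit 0, nat_lit 145719, [nat_lit 3282000000, nat_lit 6250000000, nat_lit 9842000000], [], [nat_lit 29162766158, nat_lit 30964618866, nat_lit 37160435855, nat_lit 38768635932], nat_lit 1271250, nat_lit 1271250, nat_lit 1271250, nat_lit 1271250, nat_lit 0, nat_lit 0, [nat_lit 780000, nat_lit 1435000, nat_lit 1271250], [nat_lit 8, nat_lit 40, nat_lit 80, nat_lit 80, nat_lit 1, nat_lit 317, nat_lit 100, nat_lit 9]⟩, ⟨p014_k31, nat_lit 0, nat_lit 0, nat_lit 384, nat_lit 0, nat_lit 237289, [nat_lit 6250000000, nat_lit 9842000000, nat_lit 11872000000], [], [nat_lit 45262975460, nat_lit 45779840072, nat_lit 52106475231, nat_lit 52222621240], nat_lit 1271250, nat_lit 1271250, nat_lit 1271250, nat_lit 1271250, nat_lit 0, nat_lit 0, [nat_lit 1412500, nat_lit 1271250, nat_lit 1271250], [nat_lit 46, nat_lit 40, nat_lit 80, nat_lit 80, nat_lit 41, nat_lit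 401, nat_lit 175, nat_lit 10]⟩,
 zbF0, []⟩
noncomputable def p014_l205 : Lf2 := ⟨nat_lit 0, nat_lit 10, [nat_lit 0, nat_lit 5, nat_lit 5, nat_lit 20], true, nat_lit 0, nat_lit 0, nat_lit 0, nat_lit 0, ⟨nat_lit 0, nat_lit 1000, nat_lit 0, nat_lit 5, nat_lit 213, nat_lit 0, nat_lit 0, nat_lit 0, nat_lit 0, nat_lit 0, nat_lit 0, nat_lit 0, nat_lit 0, nat_lit 0, nat_lit 0, nat_lit 5000000, false, true⟩,
 nat_lit 0, nat_lit 6666, nat_lit 0, nat_lit 1815, nat_lit 4242, nat_lit 0, nat_lit 198, nat_lit 0, nat_lit 0, nat_lit 0, nat_lit 0, nat_lit 0, nat_lit 0, nat_lit 0, nat_lit 0, nat_lit 400000, nat_lit 0, nat_lit 0, [(nat_lit 12, [(nat_lit 1, nat_lit 1000)])],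
 ⟨p014_k0, nat_lit 0, nat_lit 0, nat_lit 313, nat_lit 0, nat_lit 38395, [nat_lit 2068400000, nat_lit 2721200001, nat_lit 2642799999], [], [nat_lit 25503142186, nat_lit 26530698278, nat_lit 32188528798, nat_lit 31899630178], nat_lit 1271250, nat_lit 1271250, nat_lit 88400, nat_lit 2829150, nat_lit 0, nat_lit 0, [nat_lit 780000, nat_lit 1435000, nat_lit 1271250], [nat_lit 8, nat_lit 40, nat_lit 80, nat_lit 80, nat_lit 1, nat_lit 317, nat_lit 100, nat_lit 9]⟩, C1.Rw.none,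
 ⟨nat_lit 5000, nat_lit 5478, ⟨.ofNat (nat_lit 155307), .ofNat (nat_lit 867109), .ofNat (nat_lit 198021), .ofNat (nat_lit 909802), .ofNat (nat_lit 171427), .ofNat (nat_lit 849937), .ofNat (nat_lit 214284), .ofNat (nat_lit 892774)⟩, ⟨.ofNat (nat_lit 0), .ofNat (nat_lit 0), .ofNat (nat_lit 0), .ofNat (nat_lit 0), .ofNat (nat_lit 0), .ofNat (nat_lit 0), .ofNat (nat_lit 0), .ofNat (nat_lit 0)⟩⟩, [⟨nat_lit 13, nat_lit 90, nat_lit 36, nat_lit 100, nat_lit 126392535⟩]⟩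
noncomputable def p014_l206 : Lf2 := ⟨nat_lit 0, nat_lit 10, [nat_lit 0, nat_lit 5, nat_lit 5, nat_lit 20], true, nat_lit 0, nat_lit 0, nat_lit 0, nat_lit 0, ⟨nat_lit 0, nat_lit 1000, nat_lit 0, nat_lit 5, nat_lit 214, nat_lit 0, nat_lit 0, nat_lit 0, nat_lit 0, nat_lit 0, nat_lit 0, nat_lit 0, nat_lit 0, nat_lit 0, nat_lit 0, nat_lit 5000000, false, true⟩,
 nat_lit 0, nat_lit 5330, nat_lit 0, nat_lit 0, nat_lit 3689, nat_lit 0, nat_lit 183, nat_lit 0, nat_lit 0, nat_lit 0, nat_lit 0, nat_lit 0, nat_lit 0, nat_lit 0, nat_lit 0, nat_lit 400000, nat_lit 0, nat_lit 0, [(nat_lit 15, [(nat_lit 1, nat_lit 1000)])],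
 ⟨p014_k4, nat_lit 0, nat_lit 0, nat_lit 320, nat_lit 0, nat_lit 223866, [nat_lit 2020200000, nat_lit 2354866667, nat_lit 2328333333], [], [nat_lit 23380687940, nat_lit 24431549582, nat_lit 30817913729, nat_lit 31024383367], nat_lit 1271250, nat_lit 1271250, nat_lit 134400, nat_lit 2816200, nat_lit 0, nat_lit 0, [nat_lit 780000, nat_lit 1435000, nat_lit 1271250], [nat_lit 18, nat_lit 40, nat_lit 80, nat_lit 80, nat_lit 2, nat_lit 317, nat_lit 100, nat_lit 11]⟩, C1.Rw.none,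
 ⟨nat_lit 4472, nat_lit 5000, ⟨.ofNat (nat_lit 185713), .ofNat (nat_lit 842833), .ofNat (nat_lit 228562), .ofNat (nat_lit 885667), .ofNat (nat_lit 200895), .ofNat (nat_lit 826271), .ofNat (nat_lit 244020), .ofNat (nat_lit 869380)⟩, ⟨.ofNat (nat_lit 0), .ofNat (nat_lit 0), .ofNat (nat_lit 0), .ofNat (nat_lit 0), .ofNat (nat_lit 0), .ofNat (nat_lit 0), .ofNat (nat_lit 0), .ofNat (nat_lit 0)⟩⟩, [⟨nat_lit 13, nat_lit 84, nat_lit 47, nat_lit 100, nat_lit 161937806⟩]⟩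
noncomputable def p014_l207 : Lf2 := ⟨nat_lit 0, nat_lit 10, [nat_lit 0, nat_lit 5, nat_lit 5, nat_lit 20], true, nat_lit 0, nat_lit 0, nat_lit 0, nat_lit 0, ⟨nat_lit 0, nat_lit 1000, nat_lit 0, nat_lit 5, nat_lit 213, nat_lit 0, nat_lit 0, nat_lit 0, nat_lit 0, nat_lit 0, nat_lit 0, nat_lit 0, nat_lit 0, nat_lit 0, nat_lit 0, nat_lit 5000000, false, true⟩,
 nat_lit 0, nat_lit 6666, nat_lit 0, nat_lit 1815, nat_lit 4242, nat_lit 0, nat_lit 198, nat_lit 0, nat_lit 0, nat_lit 0, nat_lit 0, nat_lit 0, nat_lit 0, nat_lit 0, nat_lit 0, nat_lit 400000, nat_lit 0, nat_lit 0, [(nat_lit 12, [(nat_lit 1, nat_lit 1000)])],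
 ⟨p014_k0, nat_lit 0, nat_lit 0, nat_lit 313, nat_lit 0, nat_lit 38395, [nat_lit 2068400000, nat_lit 2721200001, nat_lit 2642799999], [], [nat_lit 25503142186, nat_lit 26530698278, nat_lit 32188528798, nat_lit 31899630178], nat_lit 1271250, nat_lit 1271250, nat_lit 88400, nat_lit 2829150, nat_lit 0, nat_lit 0, [nat_lit 780000, nat_lit 1435000, nat_lit 1271250], [nat_lit 8, nat_lit 40, nat_lit 80, nat_lit 80, nat_lit 1, nat_lit 317, nat_lit 100, nat_lit 9]⟩, C1.Rw.none,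
 ⟨nat_lit 5000, nat_lit 5478, ⟨.ofNat (nat_lit 155307), .ofNat (nat_lit 867109), .ofNat (nat_lit 198021), .ofNat (nat_lit 909802), .ofNat (nat_lit 171427), .ofNat (nat_lit 849937), .ofNat (nat_lit 214284), .ofNat (nat_lit 892774)⟩, ⟨.ofNat (nat_lit 0), .ofNat (nat_lit 0), .ofNat (nat_lit 0), .ofNat (nat_lit 0), .ofNat (nat_lit 0), .ofNat (nat_lit 0), .ofNat (nat_lit 0), .ofNat (nat_lit 0)⟩⟩, [⟨nat_lit 13, nat_lit 90, nat_lit 36, nat_lit 100, nat_lit 126392535⟩]⟩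
noncomputable def p014_l208 : Lf2 := ⟨nat_lit 0, nat_lit 10, [nat_lit 0, nat_lit 5, nat_lit 5, nat_lit 20], true, nat_lit 0, nat_lit 0, nat_lit 0, nat_lit 0, ⟨nat_lit 0, nat_lit 1000, nat_lit 0, nat_lit 5, nat_lit 214, nat_lit 0, nat_lit 0, nat_lit 0, nat_lit 0, nat_lit 0, nat_lit 0, nat_lit 0, nat_lit 0, nat_lit 0, nat_lit 0, nat_lit 5000000, false, true⟩,
 nat_lit 0, nat_lit 5330, nat_lit 0, nat_lit 0, nat_lit 3689, nat_lit 0, nat_lit 183, nat_lit 0, nat_lit 0, nat_lit 0, nat_lit 0, nat_lit 0, nat_lit 0, nat_lit 0, nat_lit 0, nat_lit 400000, nat_lit 0, nat_lit 0, [(nat_lit 15, [(nat_lit 1, nat_lit 1000)])],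
 ⟨p014_k4, nat_lit 0, nat_lit 0, nat_lit 320, nat_lit 0, nat_lit 223866, [nat_lit 2020200000, nat_lit 2354866667, nat_lit 2328333333], [], [nat_lit 23380687940, nat_lit 24431549582, nat_lit 30817913729, nat_lit 31024383367], nat_lit 1271250, nat_lit 1271250, nat_lit 134400, nat_lit 2816200, nat_lit 0, nat_lit 0, [nat_lit 780000, nat_lit 1435000, nat_lit 1271250], [nat_lit 18, nat_lit 40, nat_lit 80, nat_lit 80, nat_lit 2, nat_lit 317, nat_lit 100, nat_lit 11]⟩, C1.Rw.none,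
 ⟨nat_lit 4472, nat_lit 5000, ⟨.ofNat (nat_lit 185713), .ofNat (nat_lit 842833), .ofNat (nat_lit 228562), .ofNat (nat_lit 885667), .ofNat (nat_lit 200895), .ofNat (nat_lit 826271), .ofNat (nat_lit 244020), .ofNat (nat_lit 869380)⟩, ⟨.ofNat (nat_lit 0), .ofNat (nat_lit 0), .ofNat (nat_lit 0), .ofNat (nat_lit 0), .ofNat (nat_lit 0), .ofNat (nat_lit 0), .ofNat (nat_lit 0), .ofNat (nat_lit 0)⟩⟩, [⟨nat_lit 13, nat_lit 84, nat_lit 47, nat_lit 100, nat_lit 161937806⟩]⟩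
noncomputable def b_N_700_500_0_6 : St := ⟨false, nat_lit 2, nat_lit 2, nat_lit 0, nat_lit 40, nat_lit 280, nat_lit 320, nat_lit 200, nat_lit 240, nat_lit 16, nat_lit 396, nat_lit 0, nat_lit 0, nat_lit 0, nat_lit 0, nat_lit 0, nat_lit 0, nat_lit 80, nat_lit 100, nat_lit 0, nat_lit 0, nat_lit 0, nat_lit 0⟩
theorem d_N_700_500_0_6 (h : EB TB.env) : Dead b_N_700_500_0_6 := chkB_sound0 h (T :=
(.st (nat_lit 0)
(.gv
(.st (nat_lit 1)
(.spl (nat_lit 2) (nat_lit 240)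
(.leaf p014_l192)
(.leaf p014_l193))
(.spl (nat_lit 2) (nat_lit 240)
(.leaf p014_l194)
(.spl (nat_lit 0) (nat_lit 300)
(.leaf p014_l195)
(.trX (nat_lit 13) (nat_lit 88) (nat_lit 32) (nat_lit 100) (nat_lit 392) (.spl (nat_lit 1) (nat_lit 220)
(.trX (nat_lit 13) (nat_lit 87) (nat_lit 41) (nat_lit 100) (nat_lit 384) (.leaf p014_l196))
(.leaf p014_l197))))))
(.leaf p014_l198))
(.gv
(.st (nat_lit 1)
(.spl (nat_lit 2) (nat_lit 120)
(.spl (nat_lit 0) (nat_lit 300)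
(.leaf p014_l199)
(.trZ (nat_lit 0) (nat_lit 100) (nat_lit 87) (nat_lit 50) (nat_lit 24) (.leaf p014_l200)))
(.leaf p014_l201))
(.spl (nat_lit 2) (nat_lit 240)
(.spl (nat_lit 0) (nat_lit 300)
(.leaf p014_l202)
(.trZ (nat_lit 0) (nat_lit 100) (nat_lit 87) (nat_lit 50) (nat_lit 24) (.leaf p014_l203)))
(.leaf p014_l204)))
(.st (nat_lit 1)
(.spl (nat_lit 0) (nat_lit 300)
(.leaf p014_l205)
(.trZ (nat_lit 0) (nat_lit 100) (nat_lit 87) (nat_lit 50) (nat_lit 24) (.trX (nat_lit 13) (nat_lit 88) (nat_lit 32) (nat_lit 100) (nat_lit 392) (.leaf p014_l206))))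
(.spl (nat_lit 0) (nat_lit 300)
(.leaf p014_l207)
(.trZ (nat_lit 0) (nat_lit 100) (nat_lit 87) (nat_lit 50) (nat_lit 24) (.trX (nat_lit 13) (nat_lit 88) (nat_lit 32) (nat_lit 100) (nat_lit 392) (.leaf p014_l208)))))))) (by decide +kernel)

end B2
end Pool.Agent.Lib.MP_6947cd_al
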