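import Pool.Agent.Lib.MP_6947cd_al.ZB.Pre

/-!
Problem MP_6947cd_al (Chollet).  Case B, second entry in [2/5, 17/20]: certificates of the tree, part P015 (generated).
-/

set_option autoImplicit false
set_option linter.all false

namespace Pool.Agent.Lib.MP_6947cd_al
namespace B2

open Ent Fr B1 PkA

noncomputable def p015_k0 : C1.Kn := ⟨[nat_lit 60, nat_lit 100, nat_lit 140], [nat_lit 0, nat_lit 0, nat_lit 2047], [(nat_lit 0, nat_lit 0, nat_lit 0), (nat_lit 0, nat_lit 0, nat_lit 0), (nat_lit 1000, nat_lit 993, nat_lit 781)], (nat_lit 94, nat_lit 100, nat_lit 62)⟩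
noncomputable def p015_k1 : C1.Kn := ⟨[nat_lit 80, nat_lit 120, nat_lit 160], [nat_lit 0, nat_lit 0, nat_lit 2132], [(nat_lit 0, nat_lit 0, nat_lit 0), (nat_lit 0, nat_lit 0, nat_lit 0), (nat_lit 858, nat_lit 1000, nat_lit 713)], (nat_lit 100, nat_lit 92, nat_lit 61)⟩
noncomputable def p015_k2 : C1.Kn := ⟨[nat_lit 60, nat_lit 140], [nat_lit 0, nat_lit 0], [(nat_lit 0, nat_lit 0, nat_lit 0), (nat_lit 0, nat_lit 0, nat_lit 0)], (nat_lit 94, nat_lit 100, nat_lit 62)⟩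
noncomputable def p015_k3 : C1.Kn := ⟨[nat_lit 60, nat_lit 120], [nat_lit 0, nat_lit 913], [(nat_lit 0, nat_lit 0, nat_lit 0), (nat_lit 1000, nat_lit 905, nat_lit 238)], (nat_lit 87, nat_lit 100, nat_lit 60)⟩
noncomputable def p015_k4 : C1.Kn := ⟨[nat_lit 60, nat_lit 120, nat_lit 140], [nat_lit 0, nat_lit 0, nat_lit 2047], [(nat_lit 0, nat_lit 0, nat_lit 0), (nat_lit 0, nat_lit 0, nat_lit 0), (nat_lit 1000, nat_lit 993, nat_lit 781)], (nat_lit 94, nat_lit 100, nat_lit 62)⟩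
noncomputable def p015_k5 : C1.Kn := ⟨[nat_lit 80, nat_lit 120, nat_lit 140], [nat_lit 0, nat_lit 528, nat_lit 1572], [(nat_lit 0, nat_lit 0, nat_lit 0), (nat_lit 1000, nat_lit 959, nat_lit 206), (nat_lit 966, nat_lit 1000, nat_lit 679)], (nat_lit 100, nat_lit 99, nat_lit 63)⟩
noncomputable def p015_k6 : C1.Kn := ⟨[nat_lit 80, nat_lit 120, nat_lit 140], [nat_lit 0, nat_lit 264, nat_lit 1360], [(nat_lit 0, nat_lit 0, nat_lit 0), (nat_lit 1000, nat_lit 979, nat_lit 103), (nat_lit 951, nat_lit 1000, nat_lit 628)], (nat_lit 100, nat_lit 95, nat_lit 62)⟩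
noncomputable def p015_k7 : C1.Kn := ⟨[nat_lit 80, nat_lit 120, nat_lit 140], [nat_lit 0, nat_lit 395, nat_lit 1464], [(nat_lit 0, nat_lit 0, nat_lit 0), (nat_lit 1000, nat_lit 969, nat_lit 154), (nat_lit 957, nat_lit 1000, nat_lit 654)], (nat_lit 100, nat_lit 97, nat_lit 62)⟩
noncomputable def p015_k8 : C1.Kn := ⟨[nat_lit 60, nat_lit 100, nat_lit 120], [nat_lit 0, nat_lit 609, nat_lit 1609], [(nat_lit 0, nat_lit 0, nat_lit 0), (nat_lit 1000, nat_lit 905, nat_lit 238), (nat_lit 1000, nat_lit 882, nat_lit 668)], (nat_lit 87, nat_lit 100, nat_lit 60)⟩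
noncomputable def p015_k9 : C1.Kn := ⟨[nat_lit 60, nat_lit 100, nat_lit 120], [nat_lit 0, nat_lit 302, nat_lit 1376], [(nat_lit 0, nat_lit 0, nat_lit 0), (nat_lit 1000, nat_lit 953, nat_lit 118), (nat_lit 1000, nat_lit 911, nat_lit 628)], (nat_lit 91, nat_lit 100, nat_lit 61)⟩
noncomputable def p015_k10 : C1.Kn := ⟨[nat_lit 60, nat_lit 100, nat_lit 120], [nat_lit 0, nat_lit 0, nat_lit 1164], [(nat_lit 0, nat_lit 0, nat_lit 0), (nat_lit 0, nat_lit 0, nat_lit 0), (nat_lit 1000, nat_lit 933, nat_lit 572)], (nat_lit 92, nat_lit 100, nat_lit 44)⟩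
noncomputable def p015_k11 : C1.Kn := ⟨[nat_lit 60, nat_lit 100], [nat_lit 0, nat_lit 609], [(nat_lit 0, nat_lit 0, nat_lit 0), (nat_lit 1000, nat_lit 905, nat_lit 238)], (nat_lit 87, nat_lit 100, nat_lit 44)⟩
noncomputable def p015_k12 : C1.Kn := ⟨[nat_lit 60, nat_lit 70, nat_lit 90, nat_lit 130], [nat_lit 0, nat_lit 0, nat_lit 280, nat_lit 1294], [(nat_lit 0, nat_lit 0, nat_lit 0), (nat_lit 0, nat_lit 0, nat_lit 0), (nat_lit 1000, nat_lit 934, nat_lit 219), (nat_lit 1000, nat_lit 917, nat_lit 396)], (nat_lit 94, nat_lit 100, nat_lit 62)⟩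
noncomputable def p015_k13 : C1.Kn := ⟨[nat_lit 80, nat_lit 100, nat_lit 160], [nat_lit 0, nat_lit 0, nat_lit 1533], [(nat_lit 0, nat_lit 0, nat_lit 0), (nat_lit 0, nat_lit 0, nat_lit 0), (nat_lit 1000, nat_lit 1000, nat_lit 399)], (nat_lit 100, nat_lit 92, nat_lit 61)⟩
noncomputable def p015_k14 : C1.Kn := ⟨[nat_lit 60, nat_lit 80, nat_lit 120], [nat_lit 0, nat_lit 304, nat_lit 1346], [(nat_lit 0, nat_lit 0, nat_lit 0), (nat_lit 1000, nat_lit 905, nat_lit 238), (nat_lit 1000, nat_lit 871, nat_lit 407)], (nat_lit 87, nat_lit 100, nat_lit 60)⟩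
noncomputable def p015_k15 : C1.Kn := ⟨[nat_lit 60, nat_lit 100, nat_lit 120], [nat_lit 0, nat_lit 0, nat_lit 1164], [(nat_lit 0, nat_lit 0, nat_lit 0), (nat_lit 0, nat_lit 0, nat_lit 0), (nat_lit 1000, nat_lit 933, nat_lit 572)], (nat_lit 93, nat_lit 100, nat_lit 55)⟩
noncomputable def p015_k16 : C1.Kn := ⟨[nat_lit 80, nat_lit 120, nat_lit 140], [nat_lit 0, nat_lit 264, nat_lit 1360], [(nat_lit 0, nat_lit 0, nat_lit 0), (nat_lit 1000, nat_lit 979, nat_lit 103), (nat_lit 951, nat_lit 1000, nat_lit 628)], (nat_lit 100, nat_lit 98, nat_lit 56)⟩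
noncomputable def p015_k17 : C1.Kn := ⟨[nat_lit 60, nat_lit 80, nat_lit 140], [nat_lit 0, nat_lit 0, nat_lit 1595], [(nat_lit 0, nat_lit 0, nat_lit 0), (nat_lit 0, nat_lit 0, nat_lit 0), (nat_lit 1000, nat_lit 917, nat_lit 415)], (nat_lit 94, nat_lit 100, nat_lit 62)⟩
noncomputable def p015_k18 : C1.Kn := ⟨[nat_lit 60, nat_lit 70, nat_lit 90, nat_lit 120], [nat_lit 0, nat_lit 75, nat_lit 359, nat_lit 1310], [(nat_lit 0, nat_lit 0, nat_lit 0), (nat_lit 1000, nat_lit 953, nat_lit 118), (nat_lit 1000, nat_lit 922, nat_lit 222), (nat_lit 1000, nat_lit 894, nat_lit 495)], (nat_lit 91, nat_lit 100, nat_lit 61)⟩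
noncomputable def p015_k19 : C1.Kn := ⟨[nat_lit 80, nat_lit 100, nat_lit 140], [nat_lit 0, nat_lit 132, nat_lit 1148], [(nat_lit 0, nat_lit 0, nat_lit 0), (nat_lit 1000, nat_lit 979, nat_lit 103), (nat_lit 1000, nat_lit 979, nat_lit 397)], (nat_lit 100, nat_lit 95, nat_lit 62)⟩
noncomputable def p015_k20 : C1.Kn := ⟨[nat_lit 80, nat_lit 100, nat_lit 140], [nat_lit 0, nat_lit 265, nat_lit 1269], [(nat_lit 0, nat_lit 0, nat_lit 0), (nat_lit 1000, nat_lit 959, nat_lit 206), (nat_lit 1000, nat_lit 958, nat_lit 392)], (nat_lit 100, nat_lit 99, nat_lit 63)⟩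
noncomputable def p015_k21 : C1.Kn := ⟨[nat_lit 60, nat_lit 80, nat_lit 100, nat_lit 120], [nat_lit 0, nat_lit 304, nat_lit 825, nat_lit 1582], [(nat_lit 0, nat_lit 0, nat_lit 0), (nat_lit 1000, nat_lit 905, nat_lit 238), (nat_lit 1000, nat_lit 871, nat_lit 407), (nat_lit 1000, nat_lit 871, nat_lit 590)], (nat_lit 87, nat_lit 100, nat_lit 60)⟩
noncomputable def p015_k22 : C1.Kn := ⟨[nat_lit 80, nat_lit 120, nat_lit 140], [nat_lit 0, nat_lit 664, nat_lit 1684], [(nat_lit 0, nat_lit 0, nat_lit 0), (nat_lit 1000, nat_lit 948, nat_lit 259), (nat_lit 975, nat_lit 1000, nat_lit 704)], (nat_lit 99, nat_lit 100, nat_lit 63)⟩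
noncomputable def p015_k23 : C1.Kn := ⟨[nat_lit 80, nat_lit 120, nat_lit 140], [nat_lit 0, nat_lit 796, nat_lit 1801], [(nat_lit 0, nat_lit 0, nat_lit 0), (nat_lit 1000, nat_lit 938, nat_lit 310), (nat_lit 982, nat_lit 1000, nat_lit 736)], (nat_lit 98, nat_lit 100, nat_lit 63)⟩
noncomputable def p015_k24 : C1.Kn := ⟨[nat_lit 60, nat_lit 80, nat_lit 100, nat_lit 120], [nat_lit 0, nat_lit 456, nat_lit 976, nat_lit 1863], [(nat_lit 0, nat_lit 0, nat_lit 0), (nat_lit 1000, nat_lit 859, nat_lit 351), (nat_lit 1000, nat_lit 848, nat_lit 406), (nat_lit 1000, nat_lit 846, nat_lit 688)], (nat_lit 84, nat_lit 100, nat_lit 60)⟩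
noncomputable def p015_k25 : C1.Kn := ⟨[nat_lit 60, nat_lit 100], [nat_lit 0, nat_lit 0], [(nat_lit 0, nat_lit 0, nat_lit 0), (nat_lit 0, nat_lit 0, nat_lit 0)], (nat_lit 92, nat_lit 100, nat_lit 28)⟩
noncomputable def p015_k26 : C1.Kn := ⟨[nat_lit 80, nat_lit 120], [nat_lit 0, nat_lit 0], [(nat_lit 0, nat_lit 0, nat_lit 0), (nat_lit 0, nat_lit 0, nat_lit 0)], (nat_lit 98, nat_lit 100, nat_lit 28)⟩
noncomputable def p015_k27 : C1.Kn := ⟨[nat_lit 60, nat_lit 100], [nat_lit 0, nat_lit 151], [(nat_lit 0, nat_lit 0, nat_lit 0), (nat_lit 1000, nat_lit 977, nat_lit 59)], (nat_lit 92, nat_lit 100, nat_lit 28)⟩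
noncomputable def p015_k28 : C1.Kn := ⟨[nat_lit 60, nat_lit 100], [nat_lit 0, nat_lit 0], [(nat_lit 0, nat_lit 0, nat_lit 0), (nat_lit 0, nat_lit 0, nat_lit 0)], (nat_lit 92, nat_lit 100, nat_lit 39)⟩
noncomputable def p015_k29 : C1.Kn := ⟨[nat_lit 80, nat_lit 120], [nat_lit 0, nat_lit 0], [(nat_lit 0, nat_lit 0, nat_lit 0), (nat_lit 0, nat_lit 0, nat_lit 0)], (nat_lit 100, nat_lit 100, nat_lit 40)⟩
noncomputable def p015_k30 : C1.Kn := ⟨[nat_lit 80, nat_lit 120, nat_lit 140], [nat_lit 0, nat_lit 0, nat_lit 1164], [(nat_lit 0, nat_lit 0, nat_lit 0), (nat_lit 0, nat_lit 0, nat_lit 0), (nat_lit 941, nat_lit 1000, nat_lit 576)], (nat_lit 100, nat_lit 99, nat_lit 44)⟩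
noncomputable def p015_k31 : C1.Kn := ⟨[nat_lit 80, nat_lit 120, nat_lit 140], [nat_lit 0, nat_lit 130, nat_lit 1260], [(nat_lit 0, nat_lit 0, nat_lit 0), (nat_lit 1000, nat_lit 990, nat_lit 51), (nat_lit 946, nat_lit 1000, nat_lit 600)], (nat_lit 100, nat_lit 100, nat_lit 45)⟩
noncomputable def p015_k32 : C1.Kn := ⟨[nat_lit 80, nat_lit 120, nat_lit 140], [nat_lit 0, nat_lit 212, nat_lit 1320], [(nat_lit 0, nat_lit 0, nat_lit 0), (nat_lit 1000, nat_lit 983, nat_lit 83), (nat_lit 946, nat_lit 1000, nat_lit 623)], (nat_lit 99, nat_lit 100, nat_lit 45)⟩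
noncomputable def p015_k33 : C1.Kn := ⟨[nat_lit 60, nat_lit 100, nat_lit 120], [nat_lit 0, nat_lit 53, nat_lit 1205], [(nat_lit 0, nat_lit 0, nat_lit 0), (nat_lit 1000, nat_lit 992, nat_lit 21), (nat_lit 1000, nat_lit 929, nat_lit 586)], (nat_lit 91, nat_lit 100, nat_lit 44)⟩
noncomputable def p015_k34 : C1.Kn := ⟨[nat_lit 60, nat_lit 100, nat_lit 120], [nat_lit 0, nat_lit 84, nat_lit 1225], [(nat_lit 0, nat_lit 0, nat_lit 0), (nat_lit 1000, nat_lit 987, nat_lit 33), (nat_lit 1000, nat_lit 925, nat_lit 584)], (nat_lit 91, nat_lit 100, nat_lit 44)⟩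
noncomputable def p015_k35 : C1.Kn := ⟨[nat_lit 60, nat_lit 100, nat_lit 120], [nat_lit 0, nat_lit 151, nat_lit 1267], [(nat_lit 0, nat_lit 0, nat_lit 0), (nat_lit 1000, nat_lit 977, nat_lit 59), (nat_lit 1000, nat_lit 921, nat_lit 595)], (nat_lit 91, nat_lit 100, nat_lit 44)⟩
noncomputable def p015_k36 : C1.Kn := ⟨[nat_lit 60, nat_lit 100], [nat_lit 0, nat_lit 238], [(nat_lit 0, nat_lit 0, nat_lit 0), (nat_lit 1000, nat_lit 963, nat_lit 93)], (nat_lit 90, nat_lit 100, nat_lit 44)⟩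
noncomputable def p015_k37 : C1.Kn := ⟨[nat_lit 60, nat_lit 80], [nat_lit 0, nat_lit 0], [(nat_lit 0, nat_lit 0, nat_lit 0), (nat_lit 0, nat_lit 0, nat_lit 0)], (nat_lit 94, nat_lit 100, nat_lit 20)⟩
noncomputable def p015_k38 : C1.Kn := ⟨[nat_lit 80, nat_lit 100], [nat_lit 0, nat_lit 132], [(nat_lit 0, nat_lit 0, nat_lit 0), (nat_lit 1000, nat_lit 979, nat_lit 103)], (nat_lit 97, nat_lit 100, nat_lit 20)⟩
noncomputable def p015_k39 : C1.Kn := ⟨[nat_lit 80, nat_lit 120], [nat_lit 0, nat_lit 264], [(nat_lit 0, nat_lit 0, nat_lit 0), (nat_lit 1000, nat_lit 979, nat_lit 103)], (nat_lit 97, nat_lit 100, nat_lit 28)⟩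
noncomputable def p015_k40 : C1.Kn := ⟨[nat_lit 60, nat_lit 100], [nat_lit 0, nat_lit 53], [(nat_lit 0, nat_lit 0, nat_lit 0), (nat_lit 1000, nat_lit 992, nat_lit 21)], (nat_lit 92, nat_lit 100, nat_lit 28)⟩
noncomputable def p015_k41 : C1.Kn := ⟨[nat_lit 60, nat_lit 100], [nat_lit 0, nat_lit 84], [(nat_lit 0, nat_lit 0, nat_lit 0), (nat_lit 1000, nat_lit 987, nat_lit 33)], (nat_lit 92, nat_lit 100, nat_lit 28)⟩
noncomputable def p015_k42 : C1.Kn := ⟨[nat_lit 80, nat_lit 120], [nat_lit 0, nat_lit 264], [(nat_lit 0, nat_lit 0, nat_lit 0), (nat_lit 1000, nat_lit 979, nat_lit 103)], (nat_lit 99, nat_lit 100, nat_lit 44)⟩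
noncomputable def p015_k43 : C1.Kn := ⟨[nat_lit 80, nat_lit 120, nat_lit 140], [nat_lit 0, nat_lit 0, nat_lit 1164], [(nat_lit 0, nat_lit 0, nat_lit 0), (nat_lit 0, nat_lit 0, nat_lit 0), (nat_lit 941, nat_lit 1000, nat_lit 576)], (nat_lit 100, nat_lit 95, nat_lit 55)⟩
noncomputable def p015_k44 : C1.Kn := ⟨[nat_lit 60, nat_lit 100, nat_lit 120], [nat_lit 0, nat_lit 151, nat_lit 1267], [(nat_lit 0, nat_lit 0, nat_lit 0), (nat_lit 1000, nat_lit 977, nat_lit 59), (nat_lit 1000, nat_lit 921, nat_lit 595)], (nat_lit 91, nat_lit 100, nat_lit 55)⟩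
noncomputable def p015_k45 : C1.Kn := ⟨[nat_lit 60, nat_lit 100, nat_lit 120], [nat_lit 0, nat_lit 0, nat_lit 1164], [(nat_lit 0, nat_lit 0, nat_lit 0), (nat_lit 0, nat_lit 0, nat_lit 0), (nat_lit 1000, nat_lit 933, nat_lit 572)], (nat_lit 92, nat_lit 100, nat_lit 48)⟩
noncomputable def p015_k46 : C1.Kn := ⟨[nat_lit 80, nat_lit 120, nat_lit 140], [nat_lit 0, nat_lit 130, nat_lit 1260], [(nat_lit 0, nat_lit 0, nat_lit 0), (nat_lit 1000, nat_lit 990, nat_lit 51), (nat_lit 946, nat_lit 1000, nat_lit 600)], (nat_lit 100, nat_lit 99, nat_lit 49)⟩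
noncomputable def p015_k47 : C1.Kn := ⟨[nat_lit 80, nat_lit 120, nat_lit 140], [nat_lit 0, nat_lit 130, nat_lit 1260], [(nat_lit 0, nat_lit 0, nat_lit 0), (nat_lit 1000, nat_lit 990, nat_lit 51), (nat_lit 946, nat_lit 1000, nat_lit 600)], (nat_lit 100, nat_lit 97, nat_lit 56)⟩
noncomputable def p015_k48 : C1.Kn := ⟨[nat_lit 60, nat_lit 100, nat_lit 120], [nat_lit 0, nat_lit 84, nat_lit 1225], [(nat_lit 0, nat_lit 0, nat_lit 0), (nat_lit 1000, nat_lit 987, nat_lit 33), (nat_lit 1000, nat_lit 925, nat_lit 584)], (nat_lit 92, nat_lit 100, nat_lit 55)⟩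
noncomputable def p015_k49 : C1.Kn := ⟨[nat_lit 60, nat_lit 100, nat_lit 120], [nat_lit 0, nat_lit 117, nat_lit 1246], [(nat_lit 0, nat_lit 0, nat_lit 0), (nat_lit 1000, nat_lit 982, nat_lit 46), (nat_lit 1000, nat_lit 924, nat_lit 593)], (nat_lit 92, nat_lit 100, nat_lit 55)⟩
noncomputable def p015_k50 : C1.Kn := ⟨[nat_lit 60, nat_lit 100, nat_lit 120], [nat_lit 0, nat_lit 238, nat_lit 1332], [(nat_lit 0, nat_lit 0, nat_lit 0), (nat_lit 1000, nat_lit 963, nat_lit 93), (nat_lit 1000, nat_lit 916, nat_lit 621)], (nat_lit 90, nat_lit 100, nat_lit 55)⟩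
noncomputable def p015_k51 : C1.Kn := ⟨[nat_lit 60, nat_lit 100, nat_lit 140], [nat_lit 0, nat_lit 151, nat_lit 2175], [(nat_lit 0, nat_lit 0, nat_lit 0), (nat_lit 1000, nat_lit 977, nat_lit 59), (nat_lit 1000, nat_lit 974, nat_lit 785)], (nat_lit 92, nat_lit 100, nat_lit 61)⟩
noncomputable def p015_k52 : C1.Kn := ⟨[nat_lit 80, nat_lit 120, nat_lit 140], [nat_lit 0, nat_lit 341, nat_lit 1422], [(nat_lit 0, nat_lit 0, nat_lit 0), (nat_lit 1000, nat_lit 973, nat_lit 133), (nat_lit 955, nat_lit 1000, nat_lit 643)], (nat_lit 100, nat_lit 99, nat_lit 56)⟩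
noncomputable def p015_k53 : C1.Kn := ⟨[nat_lit 60, nat_lit 100, nat_lit 120], [nat_lit 0, nat_lit 238, nat_lit 1332], [(nat_lit 0, nat_lit 0, nat_lit 0), (nat_lit 1000, nat_lit 963, nat_lit 93), (nat_lit 1000, nat_lit 916, nat_lit 621)], (nat_lit 91, nat_lit 100, nat_lit 61)⟩
noncomputable def p015_k54 : C1.Kn := ⟨[nat_lit 80, nat_lit 120, nat_lit 140], [nat_lit 0, nat_lit 395, nat_lit 1464], [(nat_lit 0, nat_lit 0, nat_lit 0), (nat_lit 1000, nat_lit 969, nat_lit 154), (nat_lit 957, nat_lit 1000, nat_lit 654)], (nat_lit 100, nat_lit 100, nat_lit 56)⟩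
noncomputable def p015_k55 : C1.Kn := ⟨[nat_lit 80, nat_lit 120, nat_lit 140], [nat_lit 0, nat_lit 453, nat_lit 1507], [(nat_lit 0, nat_lit 0, nat_lit 0), (nat_lit 1000, nat_lit 965, nat_lit 177), (nat_lit 958, nat_lit 1000, nat_lit 669)], (nat_lit 100, nat_lit 100, nat_lit 57)⟩
noncomputable def p015_k56 : C1.Kn := ⟨[nat_lit 80, nat_lit 120, nat_lit 140], [nat_lit 0, nat_lit 475, nat_lit 1528], [(nat_lit 0, nat_lit 0, nat_lit 0), (nat_lit 1000, nat_lit 963, nat_lit 185), (nat_lit 963, nat_lit 1000, nat_lit 667)], (nat_lit 100, nat_lit 100, nat_lit 56)⟩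
noncomputable def p015_k57 : C1.Kn := ⟨[nat_lit 80, nat_lit 120, nat_lit 140], [nat_lit 0, nat_lit 501, nat_lit 1550], [(nat_lit 0, nat_lit 0, nat_lit 0), (nat_lit 1000, nat_lit 961, nat_lit 195), (nat_lit 963, nat_lit 1000, nat_lit 675)], (nat_lit 99, nat_lit 100, nat_lit 56)⟩
noncomputable def p015_k58 : C1.Kn := ⟨[nat_lit 60, nat_lit 100, nat_lit 120], [nat_lit 0, nat_lit 181, nat_lit 1289], [(nat_lit 0, nat_lit 0, nat_lit 0), (nat_lit 1000, nat_lit 971, nat_lit 71), (nat_lit 1000, nat_lit 921, nat_lit 614)], (nat_lit 91, nat_lit 100, nat_lit 55)⟩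
noncomputable def p015_k59 : C1.Kn := ⟨[nat_lit 60, nat_lit 100, nat_lit 120], [nat_lit 0, nat_lit 181, nat_lit 1289], [(nat_lit 0, nat_lit 0, nat_lit 0), (nat_lit 1000, nat_lit 971, nat_lit 71), (nat_lit 1000, nat_lit 921, nat_lit 614)], (nat_lit 92, nat_lit 100, nat_lit 61)⟩
noncomputable def p015_k60 : C1.Kn := ⟨[nat_lit 60, nat_lit 100, nat_lit 120], [nat_lit 0, nat_lit 205, nat_lit 1310], [(nat_lit 0, nat_lit 0, nat_lit 0), (nat_lit 1000, nat_lit 968, nat_lit 80), (nat_lit 1000, nat_lit 917, nat_lit 609)], (nat_lit 92, nat_lit 100, nat_lit 61)⟩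
noncomputable def p015_k61 : C1.Kn := ⟨[nat_lit 80, nat_lit 120, nat_lit 140], [nat_lit 0, nat_lit 475, nat_lit 1528], [(nat_lit 0, nat_lit 0, nat_lit 0), (nat_lit 1000, nat_lit 963, nat_lit 185), (nat_lit 963, nat_lit 1000, nat_lit 667)], (nat_lit 100, nat_lit 98, nat_lit 63)⟩
noncomputable def p015_k62 : C1.Kn := ⟨[nat_lit 80, nat_lit 120, nat_lit 140], [nat_lit 0, nat_lit 501, nat_lit 1550], [(nat_lit 0, nat_lit 0, nat_lit 0), (nat_lit 1000, nat_lit 961, nat_lit 195), (nat_lit 963, nat_lit 1000, nat_lit 675)], (nat_lit 100, nat_lit 99, nat_lit 63)⟩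
noncomputable def p015_k63 : C1.Kn := ⟨[nat_lit 60, nat_lit 100, nat_lit 120], [nat_lit 0, nat_lit 269, nat_lit 1353], [(nat_lit 0, nat_lit 0, nat_lit 0), (nat_lit 1000, nat_lit 958, nat_lit 105), (nat_lit 1000, nat_lit 911, nat_lit 612)], (nat_lit 91, nat_lit 100, nat_lit 61)⟩
noncomputable def p015_k64 : C1.Kn := ⟨[nat_lit 60, nat_lit 80, nat_lit 100], [nat_lit 0, nat_lit 0, nat_lit 534], [(nat_lit 0, nat_lit 0, nat_lit 0), (nat_lit 0, nat_lit 0, nat_lit 0), (nat_lit 1000, nat_lit 917, nat_lit 393)], (nat_lit 92, nat_lit 100, nat_lit 28)⟩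
noncomputable def p015_k65 : C1.Kn := ⟨[nat_lit 80, nat_lit 100], [nat_lit 0, nat_lit 265], [(nat_lit 0, nat_lit 0, nat_lit 0), (nat_lit 1000, nat_lit 959, nat_lit 206)], (nat_lit 95, nat_lit 100, nat_lit 28)⟩
noncomputable def p015_k66 : C1.Kn := ⟨[nat_lit 60, nat_lit 80, nat_lit 120], [nat_lit 0, nat_lit 0, nat_lit 1064], [(nat_lit 0, nat_lit 0, nat_lit 0), (nat_lit 0, nat_lit 0, nat_lit 0), (nat_lit 1000, nat_lit 917, nat_lit 415)], (nat_lit 92, nat_lit 100, nat_lit 44)⟩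
noncomputable def p015_k67 : C1.Kn := ⟨[nat_lit 80, nat_lit 100, nat_lit 120], [nat_lit 0, nat_lit 265, nat_lit 768], [(nat_lit 0, nat_lit 0, nat_lit 0), (nat_lit 1000, nat_lit 959, nat_lit 206), (nat_lit 1000, nat_lit 958, nat_lit 392)], (nat_lit 96, nat_lit 100, nat_lit 44)⟩
noncomputable def p015_k68 : C1.Kn := ⟨[nat_lit 70, nat_lit 90, nat_lit 110], [nat_lit 0, nat_lit 139, nat_lit 651], [(nat_lit 0, nat_lit 0, nat_lit 0), (nat_lit 1000, nat_lit 967, nat_lit 109), (nat_lit 1000, nat_lit 938, nat_lit 398)], (nat_lit 94, nat_lit 100, nat_lit 44)⟩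
noncomputable def p015_k69 : C1.Kn := ⟨[nat_lit 60, nat_lit 80, nat_lit 120], [nat_lit 0, nat_lit 0, nat_lit 1064], [(nat_lit 0, nat_lit 0, nat_lit 0), (nat_lit 0, nat_lit 0, nat_lit 0), (nat_lit 1000, nat_lit 917, nat_lit 415)], (nat_lit 93, nat_lit 100, nat_lit 55)⟩
noncomputable def p015_k70 : C1.Kn := ⟨[nat_lit 70, nat_lit 90, nat_lit 130], [nat_lit 0, nat_lit 0, nat_lit 1031], [(nat_lit 0, nat_lit 0, nat_lit 0), (nat_lit 0, nat_lit 0, nat_lit 0), (nat_lit 1000, nat_lit 959, nat_lit 402)], (nat_lit 99, nat_lit 100, nat_lit 56)⟩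
noncomputable def p015_k71 : C1.Kn := ⟨[nat_lit 40, nat_lit 70, nat_lit 90, nat_lit 140], [nat_lit 0, nat_lit 0, nat_lit 0, nat_lit 1289], [(nat_lit 0, nat_lit 0, nat_lit 0), (nat_lit 0, nat_lit 0, nat_lit 0), (nat_lit 0, nat_lit 0, nat_lit 0), (nat_lit 1000, nat_lit 959, nat_lit 402)], (nat_lit 100, nat_lit 99, nat_lit 63)⟩
noncomputable def p015_k72 : C1.Kn := ⟨[nat_lit 40, nat_lit 70, nat_lit 90, nat_lit 140], [nat_lit 0, nat_lit 0, nat_lit 69, nat_lit 1352], [(nat_lit 0, nat_lit 0, nat_lit 0), (nat_lit 0, nat_lit 0, nat_lit 0), (nat_lit 1000, nat_lit 984, nat_lit 54), (nat_lit 1000, nat_lit 949, nat_lit 400)], (nat_lit 99, nat_lit 100, nat_lit 63)⟩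
noncomputable def p015_k73 : C1.Kn := ⟨[nat_lit 60, nat_lit 80, nat_lit 140], [nat_lit 0, nat_lit 75, nat_lit 1666], [(nat_lit 0, nat_lit 0, nat_lit 0), (nat_lit 1000, nat_lit 977, nat_lit 59), (nat_lit 1000, nat_lit 905, nat_lit 414)], (nat_lit 92, nat_lit 100, nat_lit 61)⟩
noncomputable def p015_k74 : C1.Kn := ⟨[nat_lit 70, nat_lit 90, nat_lit 140], [nat_lit 0, nat_lit 0, nat_lit 1289], [(nat_lit 0, nat_lit 0, nat_lit 0), (nat_lit 0, nat_lit 0, nat_lit 0), (nat_lit 1000, nat_lit 959, nat_lit 402)], (nat_lit 100, nat_lit 99, nat_lit 63)⟩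
noncomputable def p015_k75 : C1.Kn := ⟨[nat_lit 60, nat_lit 100, nat_lit 140], [nat_lit 0, nat_lit 84, nat_lit 2124], [(nat_lit 0, nat_lit 0, nat_lit 0), (nat_lit 1000, nat_lit 987, nat_lit 33), (nat_lit 1000, nat_lit 984, nat_lit 790)], (nat_lit 93, nat_lit 100, nat_lit 61)⟩
noncomputable def p015_k76 : C1.Kn := ⟨[nat_lit 80, nat_lit 100, nat_lit 140], [nat_lit 0, nat_lit 466, nat_lit 1467], [(nat_lit 0, nat_lit 0, nat_lit 0), (nat_lit 1000, nat_lit 927, nat_lit 359), (nat_lit 1000, nat_lit 927, nat_lit 391)], (nat_lit 96, nat_lit 100, nat_lit 62)⟩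
noncomputable def p015_k77 : C1.Kn := ⟨[nat_lit 80, nat_lit 100, nat_lit 140], [nat_lit 0, nat_lit 399, nat_lit 1395], [(nat_lit 0, nat_lit 0, nat_lit 0), (nat_lit 1000, nat_lit 938, nat_lit 310), (nat_lit 1000, nat_lit 938, nat_lit 389)], (nat_lit 98, nat_lit 100, nat_lit 63)⟩
noncomputable def p015_k78 : C1.Kn := ⟨[nat_lit 70, nat_lit 90, nat_lit 130], [nat_lit 0, nat_lit 139, nat_lit 1161], [(nat_lit 0, nat_lit 0, nat_lit 0), (nat_lit 1000, nat_lit 967, nat_lit 109), (nat_lit 1000, nat_lit 938, nat_lit 398)], (nat_lit 98, nat_lit 100, nat_lit 63)⟩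
noncomputable def p015_k79 : C1.Kn := ⟨[nat_lit 80, nat_lit 100], [nat_lit 0, nat_lit 265], [(nat_lit 0, nat_lit 0, nat_lit 0), (nat_lit 1000, nat_lit 959, nat_lit 206)], (nat_lit 96, nat_lit 100, nat_lit 20)⟩
noncomputable def p015_k80 : C1.Kn := ⟨[nat_lit 80, nat_lit 120], [nat_lit 0, nat_lit 528], [(nat_lit 0, nat_lit 0, nat_lit 0), (nat_lit 1000, nat_lit 959, nat_lit 206)], (nat_lit 96, nat_lit 100, nat_lit 44)⟩
noncomputable def p015_k81 : C1.Kn := ⟨[nat_lit 60, nat_lit 80, nat_lit 120], [nat_lit 0, nat_lit 151, nat_lit 1205], [(nat_lit 0, nat_lit 0, nat_lit 0), (nat_lit 1000, nat_lit 953, nat_lit 118), (nat_lit 1000, nat_lit 894, nat_lit 411)], (nat_lit 91, nat_lit 100, nat_lit 61)⟩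
noncomputable def p015_k82 : C1.Kn := ⟨[nat_lit 60, nat_lit 80, nat_lit 120], [nat_lit 0, nat_lit 228, nat_lit 1272], [(nat_lit 0, nat_lit 0, nat_lit 0), (nat_lit 1000, nat_lit 929, nat_lit 178), (nat_lit 1000, nat_lit 883, nat_lit 407)], (nat_lit 89, nat_lit 100, nat_lit 61)⟩
noncomputable def p015_k83 : C1.Kn := ⟨[nat_lit 60, nat_lit 100, nat_lit 120], [nat_lit 0, nat_lit 909, nat_lit 1866], [(nat_lit 0, nat_lit 0, nat_lit 0), (nat_lit 1000, nat_lit 858, nat_lit 354), (nat_lit 1000, nat_lit 849, nat_lit 705)], (nat_lit 84, nat_lit 100, nat_lit 60)⟩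
noncomputable def p015_k84 : C1.Kn := ⟨[nat_lit 80, nat_lit 100, nat_lit 140], [nat_lit 0, nat_lit 0, nat_lit 1022], [(nat_lit 0, nat_lit 0, nat_lit 0), (nat_lit 0, nat_lit 0, nat_lit 0), (nat_lit 1000, nat_lit 1000, nat_lit 399)], (nat_lit 100, nat_lit 99, nat_lit 44)⟩
noncomputable def p015_k85 : C1.Kn := ⟨[nat_lit 80, nat_lit 100, nat_lit 140], [nat_lit 0, nat_lit 399, nat_lit 1395], [(nat_lit 0, nat_lit 0, nat_lit 0), (nat_lit 1000, nat_lit 938, nat_lit 310), (nat_lit 1000, nat_lit 938, nat_lit 389)], (nat_lit 96, nat_lit 100, nat_lit 56)⟩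
noncomputable def p015_k86 : C1.Kn := ⟨[nat_lit 60, nat_lit 100], [nat_lit 0, nat_lit 302], [(nat_lit 0, nat_lit 0, nat_lit 0), (nat_lit 1000, nat_lit 953, nat_lit 118)], (nat_lit 89, nat_lit 100, nat_lit 44)⟩
noncomputable def p015_k87 : C1.Kn := ⟨[nat_lit 60, nat_lit 100], [nat_lit 0, nat_lit 455], [(nat_lit 0, nat_lit 0, nat_lit 0), (nat_lit 1000, nat_lit 929, nat_lit 178)], (nat_lit 88, nat_lit 100, nat_lit 44)⟩
noncomputable def p015_k88 : C1.Kn := ⟨[nat_lit 60, nat_lit 100, nat_lit 120], [nat_lit 0, nat_lit 455, nat_lit 1489], [(nat_lit 0, nat_lit 0, nat_lit 0), (nat_lit 1000, nat_lit 929, nat_lit 178), (nat_lit 1000, nat_lit 895, nat_lit 641)], (nat_lit 89, nat_lit 100, nat_lit 61)⟩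
noncomputable def p015_k89 : C1.Kn := ⟨[nat_lit 80, nat_lit 100, nat_lit 140], [nat_lit 0, nat_lit 198, nat_lit 1210], [(nat_lit 0, nat_lit 0, nat_lit 0), (nat_lit 1000, nat_lit 969, nat_lit 154), (nat_lit 1000, nat_lit 969, nat_lit 395)], (nat_lit 100, nat_lit 97, nat_lit 62)⟩
noncomputable def p015_k90 : C1.Kn := ⟨[nat_lit 80, nat_lit 100, nat_lit 140], [nat_lit 0, nat_lit 332, nat_lit 1333], [(nat_lit 0, nat_lit 0, nat_lit 0), (nat_lit 1000, nat_lit 948, nat_lit 259), (nat_lit 1000, nat_lit 948, nat_lit 391)], (nat_lit 99, nat_lit 100, nat_lit 63)⟩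
noncomputable def p015_l0 : Lf2 := ⟨nat_lit 0, nat_lit 10, [nat_lit 0, nat_lit 5, nat_lit 5, nat_lit 20], false, nat_lit 0, nat_lit 0, nat_lit 0, nat_lit 0, ⟨nat_lit 1000, nat_lit 0, nat_lit 0, nat_lit 0, nat_lit 0, nat_lit 0, nat_lit 0, nat_lit 0, nat_lit 0, nat_lit 0, nat_lit 0, nat_lit 0, nat_lit 0, nat_lit 0, nat_lit 0, nat_lit 0, false, false⟩,
 nat_lit 0, nat_lit 0, nat_lit 0, nat_lit 0, nat_lit 7927, nat_lit 11578, nat_lit 1388, nat_lit 0, nat_lit 0, nat_lit 1823, nat_lit 0, nat_lit 0, nat_lit 0, nat_lit 0, nat_lit 0, nat_lit 0, nat_lit 0, nat_lit 0, [],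
 ⟨p015_k0, nat_lit 0, nat_lit 0, nat_lit 292, nat_lit 0, nat_lit 0, [nat_lit 3282000000, nat_lit 6250000000, nat_lit 9842000000], [], [nat_lit 25054546230, nat_lit 29289508934, nat_lit 40760827032, nat_lit 43451739812], nat_lit 0, nat_lit 0, nat_lit 0, nat_lit 0, nat_lit 0, nat_lit 0, [], [nat_lit 8, nat_lit 40, nat_lit 80, nat_lit 80, nat_lit 1, nat_lit 317, nat_lit 100, nat_lit 9]⟩, ⟨p015_k1, nat_lit 0, nat_lit 0, nat_lit 348, nat_lit 0, nat_lit 0, [nat_lit 4688000000, nat_lit 7968000000, nat_lit 11872000000], [], [nat_lit 27711828000, nat_lit 31789640867, nat_lit 47804207776, nat_lit 50314092048], nat_lit 0, nat_lit 0, nat_lit 0, nat_lit 0, nat_lit 0, nat_lit 0, [], [nat_lit 21, nat_lit 40, nat_lit 80, nat_lit 80, nat_lit 14, nat_lit 401, nat_lit 175, nat_lit 11]⟩,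
 zbF0, [⟨nat_lit 0, nat_lit 100, nat_lit 94, nat_lit 59, nat_lit 51427402⟩]⟩
noncomputable def p015_l1 : Lf2 := ⟨nat_lit 0, nat_lit 10, [nat_lit 0, nat_lit 5, nat_lit 5, nat_lit 20], true, nat_lit 0, nat_lit 0, nat_lit 0, nat_lit 0, ⟨nat_lit 0, nat_lit 0, nat_lit 1000, nat_lit 6, nat_lit 181, nat_lit 0, nat_lit 0, nat_lit 0, nat_lit 0, nat_lit 215, nat_lit 49046, nat_lit 200, nat_lit 55569938, nat_lit 0, nat_lit 0, nat_lit 2284163, false, false⟩,
 nat_lit 0, nat_lit 0, nat_lit 0, nat_lit 0, nat_lit 3583, nat_lit 0, nat_lit 0, nat_lit 0, nat_lit 0, nat_lit 0, nat_lit 0, nat_lit 0, nat_lit 0, nat_lit 0, nat_lit 117, nat_lit 557200, nat_lit 0, nat_lit 0, [(nat_lit 12, [(nat_lit 5, nat_lit 738), (nat_lit 6, nat_lit 262)]), (nat_lit 15, [(nat_lit 5, nat_lit 738), (nat_lit 6, nat_lit 262)])],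
 ⟨p015_k2, nat_lit 0, nat_lit 0, nat_lit 288, nat_lit 0, nat_lit 0, [nat_lit 2950912800, nat_lit 250845600], [], [nat_lit 16162774851, nat_lit 18950382411, nat_lit 18625352736, nat_lit 20843847840], nat_lit 0, nat_lit 0, nat_lit 0, nat_lit 0, nat_lit 0, nat_lit 0, [], [nat_lit 82, nat_lit 40, nat_lit 80, nat_lit 80, nat_lit 63, nat_lit 272, nat_lit 60, nat_lit 8]⟩, C1.Rw.none,
 ⟨nat_lit 4472, nat_lit 5478, ⟨.ofNat (nat_lit 235487), .ofNat (nat_lit 617523), .ofNat (nat_lit 278138), .ofNat (nat_lit 660148), .ofNat (nat_lit 264421), .ofNat (nat_lit 610987), .ofNat (nat_lit 307491), .ofNat (nat_lit 654031)⟩, ⟨.ofNat (nat_lit 0), .ofNat (nat_lit 0), .ofNat (nat_lit 0), .ofNat (nat_lit 0), .ofNat (nat_lit 0), .ofNat (nat_lit 0), .ofNat (nat_lit 0), .ofNat (nat_lit 0)⟩⟩, [⟨nat_lit 0, nat_lit 100, nat_lit 91, nat_lit 77, nat_lit 2112331⟩]⟩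
noncomputable def p015_l2 : Lf2 := ⟨nat_lit 0, nat_lit 10, [nat_lit 0, nat_lit 5, nat_lit 5, nat_lit 20], true, nat_lit 0, nat_lit 0, nat_lit 0, nat_lit 0, ⟨nat_lit 0, nat_lit 1000, nat_lit 0, nat_lit 6, nat_lit 270, nat_lit 0, nat_lit 0, nat_lit 0, nat_lit 0, nat_lit 0, nat_lit 0, nat_lit 0, nat_lit 46075289, nat_lit 20924711, nat_lit 0, nat_lit 3104678, true, false⟩,
 nat_lit 0, nat_lit 0, nat_lit 0, nat_lit 0, nat_lit 4170, nat_lit 0, nat_lit 500, nat_lit 0, nat_lit 0, nat_lit 0, nat_lit 0, nat_lit 0, nat_lit 0, nat_lit 0, nat_lit 0, nat_lit 400000, nat_lit 0, nat_lit 0, [(nat_lit 12, [(nat_lit 1, nat_lit 1000)])],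
 ⟨p015_k0, nat_lit 0, nat_lit 0, nat_lit 176, nat_lit 0, nat_lit 0, [nat_lit 2068400000, nat_lit 2721200001, nat_lit 2642799999], [], [nat_lit 20835702699, nat_lit 21967785479, nat_lit 22766385079, nat_lit 23992233291], nat_lit 0, nat_lit 0, nat_lit 0, nat_lit 0, nat_lit 0, nat_lit 0, [], [nat_lit 8, nat_lit 40, nat_lit 80, nat_lit 80, nat_lit 1, nat_lit 289, nat_lit 75, nat_lit 8]⟩, C1.Rw.none,
 ⟨nat_lit 5000, nat_lit 5478, ⟨.ofNat (nat_lit 617614), .ofNat (nat_lit 692534), .ofNat (nat_lit 660309), .ofNat (nat_lit 735229), .ofNat (nat_lit 614253), .ofNat (nat_lit 685668), .ofNat (nat_lit 657090), .ofNat (nat_lit 728506)⟩, ⟨.ofNat (nat_lit 0), .ofNat (nat_lit 0), .ofNat (nat_lit 0), .ofNat (nat_lit 0), .ofNat (nat_lit 0), .ofNat (nat_lit 0), .ofNat (nat_lit 0), .ofNat (nat_lit 0)⟩⟩, []⟩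
noncomputable def p015_l3 : Lf2 := ⟨nat_lit 0, nat_lit 10, [nat_lit 0, nat_lit 5, nat_lit 5, nat_lit 20], true, nat_lit 0, nat_lit 0, nat_lit 0, nat_lit 0, ⟨nat_lit 0, nat_lit 1000, nat_lit 0, nat_lit 6, nat_lit 268, nat_lit 0, nat_lit 0, nat_lit 0, nat_lit 0, nat_lit 0, nat_lit 0, nat_lit 0, nat_lit 46284644, nat_lit 20715356, nat_lit 0, nat_lit 3092231, true, false⟩,
 nat_lit 0, nat_lit 0, nat_lit 0, nat_lit 0, nat_lit 4418, nat_lit 0, nat_lit 0, nat_lit 0, nat_lit 0, nat_lit 0, nat_lit 0, nat_lit 0, nat_lit 0, nat_lit 0, nat_lit 0, nat_lit 820000, nat_lit 0, nat_lit 0, [(nat_lit 15, [(nat_lit 1, nat_lit 300), (nat_lit 2, nat_lit 700)])],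
 ⟨p015_k3, nat_lit 0, nat_lit 0, nat_lit 145, nat_lit 0, nat_lit 0, [nat_lit 2537640001, nat_lit 550860000], [], [nat_lit 21403534645, nat_lit 22560746969, nat_lit 23282139993, nat_lit 24682100044], nat_lit 0, nat_lit 0, nat_lit 0, nat_lit 0, nat_lit 0, nat_lit 0, [], [nat_lit 74, nat_lit 40, nat_lit 80, nat_lit 80, nat_lit 43, nat_lit 203, nat_lit 0, nat_lit 6]⟩, C1.Rw.none,
 ⟨nat_lit 4472, nat_lit 5000, ⟨.ofNat (nat_lit 614256), .ofNat (nat_lit 685679), .ofNat (nat_lit 657088), .ofNat (nat_lit 728511), .ofNat (nat_lit 611081), .ofNat (nat_lit 679054), .ofNat (nat_lit 654189), .ofNat (nat_lit 722162)⟩, ⟨.ofNat (nat_lit 0), .ofNat (nat_lit 0), .ofNat (nat_lit 0), .ofNat (nat_lit 0), .ofNat (nat_lit 0), .ofNat (nat_lit 0), .ofNat (nat_lit 0), .ofNat (nat_lit 0)⟩⟩, []⟩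
noncomputable def p015_l4 : Lf2 := ⟨nat_lit 0, nat_lit 10, [nat_lit 0, nat_lit 5, nat_lit 5, nat_lit 20], true, nat_lit 0, nat_lit 0, nat_lit 0, nat_lit 0, ⟨nat_lit 0, nat_lit 1000, nat_lit 0, nat_lit 7, nat_lit 293, nat_lit 0, nat_lit 0, nat_lit 0, nat_lit 0, nat_lit 0, nat_lit 0, nat_lit 0, nat_lit 43620866, nat_lit 23379134, nat_lit 0, nat_lit 3233946, true, true⟩,
 nat_lit 0, nat_lit 0, nat_lit 0, nat_lit 0, nat_lit 3935, nat_lit 0, nat_lit 198, nat_lit 0, nat_lit 0, nat_lit 0, nat_lit 0, nat_lit 0, nat_lit 0, nat_lit 0, nat_lit 0, nat_lit 400000, nat_lit 0, nat_lit 0, [(nat_lit 12, [(nat_lit 1, nat_lit 1000)]), (nat_lit 15, [(nat_lit 1, nat_lit 1000)])],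
 ⟨p015_k4, nat_lit 0, nat_lit 0, nat_lit 201, nat_lit 0, nat_lit 0, [nat_lit 2251200000, nat_lit 2817000000, nat_lit 2636400000], [], [nat_lit 24775675310, nat_lit 26622675470, nat_lit 26502638670, nat_lit 28362259280], nat_lit 0, nat_lit 0, nat_lit 0, nat_lit 0, nat_lit 0, nat_lit 0, [], [nat_lit 99, nat_lit 40, nat_lit 80, nat_lit 80, nat_lit 17, nat_lit 203, nat_lit 0, nat_lit 5]⟩, C1.Rw.none,
 ⟨nat_lit 4472, nat_lit 5478, ⟨.ofNat (nat_lit 692421), .ofNat (nat_lit 767319), .ofNat (nat_lit 713733), .ofNat (nat_lit 788632), .ofNat (nat_lit 678930), .ofNat (nat_lit 746873), .ofNat (nat_lit 700452), .ofNat (nat_lit 768395)⟩, ⟨.ofNat (nat_lit 0), .ofNat (nat_lit 0), .ofNat (nat_lit 0), .ofNat (nat_lit 0), .ofNat (nat_lit 0), .ofNat (nat_lit 0), .ofNat (nat_lit 0), .ofNat (nat_lit 0)⟩⟩, []⟩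
noncomputable def p015_l5 : Lf2 := ⟨nat_lit 0, nat_lit 10, [nat_lit 0, nat_lit 5, nat_lit 5, nat_lit 20], false, nat_lit 0, nat_lit 0, nat_lit 0, nat_lit 0, ⟨nat_lit 51, nat_lit 949, nat_lit 0, nat_lit 7, nat_lit 301, nat_lit 0, nat_lit 0, nat_lit 0, nat_lit 0, nat_lit 0, nat_lit 0, nat_lit 0, nat_lit 42735594, nat_lit 24264406, nat_lit 0, nat_lit 3273240, true, true⟩,
 nat_lit 0, nat_lit 0, nat_lit 704, nat_lit 0, nat_lit 3820, nat_lit 409, nat_lit 405, nat_lit 0, nat_lit 0, nat_lit 84, nat_lit 0, nat_lit 0, nat_lit 0, nat_lit 0, nat_lit 0, nat_lit 379600, nat_lit 0, nat_lit 0, [(nat_lit 12, [(nat_lit 1, nat_lit 949)]), (nat_lit 15, [(nat_lit 1, nat_lit 949)])],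
 ⟨p015_k0, nat_lit 0, nat_lit 0, nat_lit 192, nat_lit 0, nat_lit 0, [nat_lit 2130293601, nat_lit 2901168800, nat_lit 3003885600], [], [nat_lit 23778029146, nat_lit 25604309065, nat_lit 25487483066, nat_lit 27283414081], nat_lit 0, nat_lit 0, nat_lit 0, nat_lit 0, nat_lit 0, nat_lit 0, [], [nat_lit 8, nat_lit 40, nat_lit 80, nat_lit 80, nat_lit 1, nat_lit 203, nat_lit 0, nat_lit 5]⟩, ⟨p015_k5, nat_lit 0, nat_lit 0, nat_lit 1066, nat_lit 0, nat_lit 1955257, [nat_lit 239088000, nat_lit 406368000, nat_lit 501942000], [], [nat_lit 1558022393, nat_lit 1559411458, nat_lit 1565894566, nat_lit 1568231188], nat_lit 1271250, nat_lit 1271250, nat_lit 1271250, nat_lit 1271250, nat_lit 0, nat_lit 0, [nat_lit 1100000, nat_lit 1785000, nat_lit 1271250], [nat_lit 29, nat_lit 40, nat_lit 80, nat_lit 80, nat_lit 17, nat_lit 342, nat_lit 75, nat_lit 9]⟩,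
 ⟨nat_lit 4472, nat_lit 5478, ⟨.ofNat (nat_lit 713733), .ofNat (nat_lit 788632), .ofNat (nat_lit 735046), .ofNat (nat_lit 809944), .ofNat (nat_lit 700452), .ofNat (nat_lit 768395), .ofNat (nat_lit 721974), .ofNat (nat_lit 789917)⟩, ⟨.ofNat (nat_lit 0), .ofNat (nat_lit 0), .ofNat (nat_lit 0), .ofNat (nat_lit 0), .ofNat (nat_lit 0), .ofNat (nat_lit 0), .ofNat (nat_lit 0), .ofNat (nat_lit 0)⟩⟩, []⟩
noncomputable def p015_l6 : Lf2 := ⟨nat_lit 0, nat_lit 10, [nat_lit 0, nat_lit 5, nat_lit 5, nat_lit 20], true, nat_lit 0, nat_lit 0, nat_lit 0, nat_lit 0, ⟨nat_lit 0, nat_lit 1000, nat_lit 0, nat_lit 8, nat_lit 319, nat_lit 0, nat_lit 0, nat_lit 0, nat_lit 0, nat_lit 0, nat_lit 0, nat_lit 0, nat_lit 40927028, nat_lit 26072972, nat_lit 0, nat_lit 3341828, true, true⟩,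
 nat_lit 0, nat_lit 0, nat_lit 0, nat_lit 0, nat_lit 3579, nat_lit 0, nat_lit 343, nat_lit 0, nat_lit 0, nat_lit 0, nat_lit 0, nat_lit 0, nat_lit 0, nat_lit 0, nat_lit 0, nat_lit 400000, nat_lit 0, nat_lit 0, [(nat_lit 12, [(nat_lit 1, nat_lit 1000)]), (nat_lit 15, [(nat_lit 1, nat_lit 1000)])],
 ⟨p015_k0, nat_lit 0, nat_lit 0, nat_lit 206, nat_lit 0, nat_lit 0, [nat_lit 2068400000, nat_lit 2721200001, nat_lit 2642799999], [], [nat_lit 25591917202, nat_lit 27201027874, nat_lit 27597612107, nat_lit 29283566033], nat_lit 0, nat_lit 0, nat_lit 0, nat_lit 0, nat_lit 0, nat_lit 0, [], [nat_lit 8, nat_lit 40, nat_lit 80, nat_lit 80, nat_lit 1, nat_lit 203, nat_lit 0, nat_lit 5]⟩, C1.Rw.none,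
 ⟨nat_lit 4472, nat_lit 5478, ⟨.ofNat (nat_lit 767319), .ofNat (nat_lit 842216), .ofNat (nat_lit 777975), .ofNat (nat_lit 852873), .ofNat (nat_lit 746873), .ofNat (nat_lit 814816), .ofNat (nat_lit 757634), .ofNat (nat_lit 825577)⟩, ⟨.ofNat (nat_lit 0), .ofNat (nat_lit 0), .ofNat (nat_lit 0), .ofNat (nat_lit 0), .ofNat (nat_lit 0), .ofNat (nat_lit 0), .ofNat (nat_lit 0), .ofNat (nat_lit 0)⟩⟩, []⟩
noncomputable def p015_l7 : Lf2 := ⟨nat_lit 0, nat_lit 10, [nat_lit 0, nat_lit 5, nat_lit 5, nat_lit 20], false, nat_lit 0, nat_lit 0, nat_lit 0, nat_lit 0, ⟨nat_lit 15, nat_lit 985, nat_lit 0, nat_lit 8, nat_lit 322, nat_lit 0, nat_lit 0, nat_lit 0, nat_lit 0, nat_lit 0, nat_lit 0, nat_lit 0, nat_lit 40607396, nat_lit 26392604, nat_lit 0, nat_lit 3352344, true, true⟩,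
 nat_lit 0, nat_lit 0, nat_lit 243, nat_lit 0, nat_lit 3595, nat_lit 135, nat_lit 352, nat_lit 0, nat_lit 0, nat_lit 13, nat_lit 0, nat_lit 0, nat_lit 0, nat_lit 0, nat_lit 0, nat_lit 394000, nat_lit 0, nat_lit 0, [(nat_lit 12, [(nat_lit 1, nat_lit 985)]), (nat_lit 15, [(nat_lit 1, nat_lit 985)])],
 ⟨p015_k0, nat_lit 0, nat_lit 0, nat_lit 206, nat_lit 0, nat_lit 0, [nat_lit 2086604000, nat_lit 2774132001, nat_lit 2748447999], [], [nat_lit 25649513039, nat_lit 27260907999, nat_lit 27662540331, nat_lit 29350999761], nat_lit 0, nat_lit 0, nat_lit 0, nat_lit 0, nat_lit 0, nat_lit 0, [], [nat_lit 8, nat_lit 40, nat_lit 80, nat_lit 80, nat_lit 1, nat_lit 203, nat_lit 0, nat_lit 5]⟩, ⟨p015_k6, nat_lit 0, nat_lit 0, nat_lit 1034, nat_lit 0, nat_lit 1896286, [nat_lit 70320000, nat_lit 119520000, nat_lit 147630000], [], [nat_lit 539752215, nat_lit 540312443, nat_lit 555591878, nat_lit 555939192], nat_lit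 1271250, nat_lit 1271250, nat_lit 1271250, nat_lit 1271250, nat_lit 0, nat_lit 0, [nat_lit 1100000, nat_lit 1785000, nat_lit 1271250], [nat_lit 29, nat_lit 40, nat_lit 80, nat_lit 80, nat_lit 17, nat_lit 336, nat_lit 75, nat_lit 9]⟩,
 ⟨nat_lit 4472, nat_lit 5478, ⟨.ofNat (nat_lit 777975), .ofNat (nat_lit 852873), .ofNat (nat_lit 783304), .ofNat (nat_lit 858201), .ofNat (nat_lit 757634), .ofNat (nat_lit 825577), .ofNat (nat_lit 763015), .ofNat (nat_lit 830958)⟩, ⟨.ofNat (nat_lit 0), .ofNat (nat_lit 0), .ofNat (nat_lit 0), .ofNat (nat_lit 0), .ofNat (nat_lit 0), .ofNat (nat_lit 0), .ofNat (nat_lit 0), .ofNat (nat_lit 0)⟩⟩, []⟩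
noncomputable def p015_l8 : Lf2 := ⟨nat_lit 0, nat_lit 10, [nat_lit 0, nat_lit 5, nat_lit 5, nat_lit 20], false, nat_lit 0, nat_lit 0, nat_lit 0, nat_lit 0, ⟨nat_lit 282, nat_lit 718, nat_lit 0, nat_lit 8, nat_lit 327, nat_lit 0, nat_lit 0, nat_lit 0, nat_lit 0, nat_lit 0, nat_lit 0, nat_lit 0, nat_lit 40157988, nat_lit 26842012, nat_lit 0, nat_lit 3366324, true, true⟩,
 nat_lit 0, nat_lit 0, nat_lit 3774, nat_lit 0, nat_lit 3837, nat_lit 2146, nat_lit 488, nat_lit 0, nat_lit 0, nat_lit 581, nat_lit 0, nat_lit 0, nat_lit 0, nat_lit 0, nat_lit 0, nat_lit 287200, nat_lit 0, nat_lit 0, [(nat_lit 12, [(nat_lit 1, nat_lit 718)])],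
 ⟨p015_k0, nat_lit 0, nat_lit 0, nat_lit 202, nat_lit 0, nat_lit 0, [nat_lit 2410635201, nat_lit 3716321600, nat_lit 4668379200], [], [nat_lit 26892150585, nat_lit 27715122993, nat_lit 28957027551, nat_lit 29698046108], nat_lit 0, nat_lit 0, nat_lit 0, nat_lit 0, nat_lit 0, nat_lit 0, [], [nat_lit 8, nat_lit 40, nat_lit 80, nat_lit 80, nat_lit 1, nat_lit 203, nat_lit 0, nat_lit 5]⟩, ⟨p015_k7, nat_lit 0, nat_lit 0, nat_lit 884, nat_lit 0, nat_lit 1562813, [nat_lit 1322016000, nat_lit 2246976000, nat_lit 2775444000], [], [nat_lit 9354963779, nat_lit 9359570319, nat_lit 9524016674, nat_lit 9526306801], nat_lit 1271250, nat_lit 1271250, nat_lit 1271250, nat_lit 1271250, nat_lit 0, nat_lit 0, [nat_lit 1100000, nat_lit 1785000, nat_lit 1271250], [nat_lit 29, nat_lit 40, nat_lit 80, nat_lit 80, nat_lit 17, nat_lit 299, nat_lit 75, nat_lit 8]⟩,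
 ⟨nat_lit 5000, nat_lit 5478, ⟨.ofNat (nat_lit 783465), .ofNat (nat_lit 858385), .ofNat (nat_lit 788802), .ofNat (nat_lit 863722), .ofNat (nat_lit 773149), .ofNat (nat_lit 844564), .ofNat (nat_lit 778503), .ofNat (nat_lit 849919)⟩, ⟨.ofNat (nat_lit 0), .ofNat (nat_lit 0), .ofNat (nat_lit 0), .ofNat (nat_lit 0), .ofNat (nat_lit 0), .ofNat (nat_lit 0), .ofNat (nat_lit 0), .ofNat (nat_lit 0)⟩⟩, []⟩
noncomputable def p015_l9 : Lf2 := ⟨nat_lit 0, nat_lit 10, [nat_lit 0, nat_lit 5, nat_lit 5, nat_lit 20], true, nat_lit 0, nat_lit 0, nat_lit 0, nat_lit 0, ⟨nat_lit 0, nat_lit 1000, nat_lit 0, nat_lit 8, nat_lit 322, nat_lit 0, nat_lit 0, nat_lit 0, nat_lit 0, nat_lit 0, nat_lit 0, nat_lit 0, nat_lit 40626373, nat_lit 26373627, nat_lit 0, nat_lit 3351733, true, true⟩,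
 nat_lit 0, nat_lit 0, nat_lit 0, nat_lit 0, nat_lit 3559, nat_lit 0, nat_lit 300, nat_lit 0, nat_lit 0, nat_lit 0, nat_lit 0, nat_lit 0, nat_lit 0, nat_lit 0, nat_lit 0, nat_lit 400000, nat_lit 0, nat_lit 0, [(nat_lit 15, [(nat_lit 1, nat_lit 1000)])],
 ⟨p015_k8, nat_lit 0, nat_lit 0, nat_lit 184, nat_lit 0, nat_lit 0, [nat_lit 2020200000, nat_lit 2354866667, nat_lit 2328333333], [], [nat_lit 25388545003, nat_lit 26262268957, nat_lit 27461312016, nat_lit 28389219964], nat_lit 0, nat_lit 0, nat_lit 0, nat_lit 0, nat_lit 0, nat_lit 0, [], [nat_lit 18, nat_lit 40, nat_lit 80, nat_lit 80, nat_lit 2, nat_lit 203, nat_lit 0, nat_lit 6]⟩, C1.Rw.none,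
 ⟨nat_lit 4472, nat_lit 5000, ⟨.ofNat (nat_lit 773165), .ofNat (nat_lit 844589), .ofNat (nat_lit 778519), .ofNat (nat_lit 849943), .ofNat (nat_lit 763193), .ofNat (nat_lit 831167), .ofNat (nat_lit 768581), .ofNat (nat_lit 836555)⟩, ⟨.ofNat (nat_lit 0), .ofNat (nat_lit 0), .ofNat (nat_lit 0), .ofNat (nat_lit 0), .ofNat (nat_lit 0), .ofNat (nat_lit 0), .ofNat (nat_lit 0), .ofNat (nat_lit 0)⟩⟩, []⟩
noncomputable def p015_l10 : Lf2 := ⟨nat_lit 0, nat_lit 10, [nat_lit 0, nat_lit 5, nat_lit 5, nat_lit 20], false, nat_lit 0, nat_lit 0, nat_lit 0, nat_lit 0, ⟨nat_lit 262, nat_lit 738, nat_lit 0, nat_lit 8, nat_lit 334, nat_lit 0, nat_lit 0, nat_lit 0, nat_lit 0, nat_lit 0, nat_lit 0, nat_lit 0, nat_lit 39516602, nat_lit 27483398, nat_lit 0, nat_lit 3384655, true, true⟩,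
 nat_lit 0, nat_lit 0, nat_lit 3368, nat_lit 0, nat_lit 3843, nat_lit 1960, nat_lit 486, nat_lit 0, nat_lit 0, nat_lit 375, nat_lit 0, nat_lit 0, nat_lit 0, nat_lit 0, nat_lit 0, nat_lit 295200, nat_lit 0, nat_lit 0, [(nat_lit 12, [(nat_lit 1, nat_lit 738)])],
 ⟨p015_k0, nat_lit 0, nat_lit 0, nat_lit 201, nat_lit 0, nat_lit 0, [nat_lit 2386363200, nat_lit 3645745600, nat_lit 4524267200], [], [nat_lit 26733303726, nat_lit 27145004082, nat_lit 28799565000, nat_lit 29169516288], nat_lit 0, nat_lit 0, nat_lit 0, nat_lit 0, nat_lit 0, nat_lit 0, [], [nat_lit 8, nat_lit 40, nat_lit 80, nat_lit 80, nat_lit 1, nat_lit 203, nat_lit 0, nat_lit 5]⟩, ⟨p015_k5, nat_lit 0, nat_lit 0, nat_lit 875, nat_lit 0, nat_lit 1543482, [nat_lit 1228256000, nat_lit 2087616000, nat_lit 2578604000], [], [nat_lit 8917954468, nat_lit 8948204128, nat_lit 9103787768, nat_lit 9124580268], nat_lit 1271250, nat_lit 1271250, nat_lit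 1271250, nat_lit 1271250, nat_lit 0, nat_lit 0, [nat_lit 1100000, nat_lit 1785000, nat_lit 1271250], [nat_lit 29, nat_lit 40, nat_lit 80, nat_lit 80, nat_lit 17, nat_lit 299, nat_lit 75, nat_lit 8]⟩,
 ⟨nat_lit 5244, nat_lit 5478, ⟨.ofNat (nat_lit 788852), .ofNat (nat_lit 863781), .ofNat (nat_lit 810206), .ofNat (nat_lit 885136), .ofNat (nat_lit 783652), .ofNat (nat_lit 856819), .ofNat (nat_lit 805035), .ofNat (nat_lit 878202)⟩, ⟨.ofNat (nat_lit 0), .ofNat (nat_lit 0), .ofNat (nat_lit 0), .ofNat (nat_lit 0), .ofNat (nat_lit 0), .ofNat (nat_lit 0), .ofNat (nat_lit 0), .ofNat (nat_lit 0)⟩⟩, []⟩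
noncomputable def p015_l11 : Lf2 := ⟨nat_lit 0, nat_lit 10, [nat_lit 0, nat_lit 5, nat_lit 5, nat_lit 20], false, nat_lit 0, nat_lit 0, nat_lit 0, nat_lit 0, ⟨nat_lit 224, nat_lit 776, nat_lit 0, nat_lit 8, nat_lit 331, nat_lit 0, nat_lit 0, nat_lit 0, nat_lit 0, nat_lit 0, nat_lit 0, nat_lit 0, nat_lit 39750607, nat_lit 27249393, nat_lit 0, nat_lit 3378187, true, true⟩,
 nat_lit 0, nat_lit 0, nat_lit 2912, nat_lit 0, nat_lit 3853, nat_lit 1694, nat_lit 392, nat_lit 0, nat_lit 0, nat_lit 304, nat_lit 0, nat_lit 0, nat_lit 0, nat_lit 0, nat_lit 0, nat_lit 310400, nat_lit 0, nat_lit 0, [(nat_lit 12, [(nat_lit 1, nat_lit 776)])],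
 ⟨p015_k9, nat_lit 0, nat_lit 0, nat_lit 179, nat_lit 0, nat_lit 0, [nat_lit 2340246400, nat_lit 3511651201, nat_lit 3866064000], [], [nat_lit 26456758131, nat_lit 26906174790, nat_lit 28648551812, nat_lit 29049756250], nat_lit 0, nat_lit 0, nat_lit 0, nat_lit 0, nat_lit 0, nat_lit 0, [], [nat_lit 18, nat_lit 40, nat_lit 80, nat_lit 80, nat_lit 2, nat_lit 203, nat_lit 0, nat_lit 6]⟩, ⟨p015_k5, nat_lit 0, nat_lit 0, nat_lit 928, nat_lit 0, nat_lit 1672764, [nat_lit 1050112000, nat_lit 1784832000, nat_lit 2204608000], [], [nat_lit 7715206880, nat_lit 7730177752, nat_lit 7847743004, nat_lit 7855390644], nat_lit 1271250, nat_lit 1271250, nat_lit 1271250, nat_lit 1271250, nat_lit 0, nat_lit 0, [nat_lit 1100000, nat_lit 1785000, nat_lit 1271250], [nat_lit 29, nat_lit 40, nat_lit 80, nat_lit 80, nat_lit 17, nat_lit 312, nat_lit 75, nat_lit 8]⟩,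
 ⟨nat_lit 5000, nat_lit 5245, ⟨.ofNat (nat_lit 783653), .ofNat (nat_lit 856822), .ofNat (nat_lit 805036), .ofNat (nat_lit 878204), .ofNat (nat_lit 778555), .ofNat (nat_lit 849981), .ofNat (nat_lit 799980), .ofNat (nat_lit 871406)⟩, ⟨.ofNat (nat_lit 0), .ofNat (nat_lit 0), .ofNat (nat_lit 0), .ofNat (nat_lit 0), .ofNat (nat_lit 0), .ofNat (nat_lit 0), .ofNat (nat_lit 0), .ofNat (nat_lit 0)⟩⟩, []⟩
noncomputable def p015_l12 : Lf2 := ⟨nat_lit 0, nat_lit 10, [nat_lit 0, nat_lit 5, nat_lit 5, nat_lit 20], true, nat_lit 0, nat_lit 0, nat_lit 0, nat_lit 0, ⟨nat_lit 0, nat_lit 1000, nat_lit 0, nat_lit 8, nat_lit 328, nat_lit 0, nat_lit 0, nat_lit 0, nat_lit 0, nat_lit 0, nat_lit 0, nat_lit 0, nat_lit 40095899, nat_lit 26904101, nat_lit 0, nat_lit 3368182, true, true⟩,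
 nat_lit 0, nat_lit 0, nat_lit 0, nat_lit 0, nat_lit 3559, nat_lit 0, nat_lit 300, nat_lit 0, nat_lit 0, nat_lit 0, nat_lit 0, nat_lit 0, nat_lit 0, nat_lit 0, nat_lit 0, nat_lit 400000, nat_lit 0, nat_lit 0, [(nat_lit 15, [(nat_lit 1, nat_lit 1000)])],
 ⟨p015_k8, nat_lit 0, nat_lit 0, nat_lit 184, nat_lit 0, nat_lit 0, [nat_lit 2020200000, nat_lit 2354866667, nat_lit 2328333333], [], [nat_lit 25388545003, nat_lit 26262268957, nat_lit 27461312016, nat_lit 28389219964], nat_lit 0, nat_lit 0, nat_lit 0, nat_lit 0, nat_lit 0, nat_lit 0, [], [nat_lit 18, nat_lit 40, nat_lit 80, nat_lit 80, nat_lit 2, nat_lit 203, nat_lit 0, nat_lit 6]⟩, C1.Rw.none,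
 ⟨nat_lit 4472, nat_lit 5000, ⟨.ofNat (nat_lit 778519), .ofNat (nat_lit 849943), .ofNat (nat_lit 799935), .ofNat (nat_lit 871359), .ofNat (nat_lit 768581), .ofNat (nat_lit 836555), .ofNat (nat_lit 790136), .ofNat (nat_lit 858109)⟩, ⟨.ofNat (nat_lit 0), .ofNat (nat_lit 0), .ofNat (nat_lit 0), .ofNat (nat_lit 0), .ofNat (nat_lit 0), .ofNat (nat_lit 0), .ofNat (nat_lit 0), .ofNat (nat_lit 0)⟩⟩, []⟩
noncomputable def p015_l13 : Lf2 := ⟨nat_lit 0, nat_lit 5, [nat_lit 4, nat_lit 5, nat_lit 5, nat_lit 20], true, nat_lit 0, nat_lit 0, nat_lit 0, nat_lit 0, ⟨nat_lit 0, nat_lit 1000, nat_lit 0, nat_lit 9, nat_lit 357, nat_lit 0, nat_lit 0, nat_lit 0, nat_lit 0, nat_lit 0, nat_lit 0, nat_lit 0, nat_lit 37260089, nat_lit 29739911, nat_lit 0, nat_lit 3434173, true, true⟩,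
 nat_lit 0, nat_lit 0, nat_lit 0, nat_lit 0, nat_lit 3764, nat_lit 0, nat_lit 0, nat_lit 0, nat_lit 0, nat_lit 0, nat_lit 0, nat_lit 0, nat_lit 0, nat_lit 0, nat_lit 0, nat_lit 700000, nat_lit 0, nat_lit 0, [(nat_lit 12, [(nat_lit 1, nat_lit 500), (nat_lit 2, nat_lit 500)])],
 ⟨p015_k10, nat_lit 0, nat_lit 0, nat_lit 196, nat_lit 0, nat_lit 0, [nat_lit 2201800001, nat_lit 2333800000, nat_lit 1595200000], [], [nat_lit 27819062434, nat_lit 28601281430, nat_lit 29968256338, nat_lit 30836268104], nat_lit 0, nat_lit 0, nat_lit 0, nat_lit 0, nat_lit 0, nat_lit 0, [], [nat_lit 18, nat_lit 40, nat_lit 80, nat_lit 80, nat_lit 2, nat_lit 203, nat_lit 0, nat_lit 6]⟩, C1.Rw.none,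
 ⟨nat_lit 5000, nat_lit 5478, ⟨.ofNat (nat_lit 842374), .ofNat (nat_lit 917295), .ofNat (nat_lit 885069), .ofNat (nat_lit 959989), .ofNat (nat_lit 828500), .ofNat (nat_lit 899915), .ofNat (nat_lit 871337), .ofNat (nat_lit 942753)⟩, ⟨.ofNat (nat_lit 0), .ofNat (nat_lit 0), .ofNat (nat_lit 0), .ofNat (nat_lit 0), .ofNat (nat_lit 0), .ofNat (nat_lit 0), .ofNat (nat_lit 0), .ofNat (nat_lit 0)⟩⟩, []⟩
noncomputable def p015_l14 : Lf2 := ⟨nat_lit 0, nat_lit 5, [nat_lit 4, nat_lit 5, nat_lit 5, nat_lit 20], true, nat_lit 0, nat_lit 0, nat_lit 0, nat_lit 0, ⟨nat_lit 0, nat_lit 1000, nat_lit 0, nat_lit 9, nat_lit 351, nat_lit 0, nat_lit 0, nat_lit 0, nat_lit 0, nat_lit 0, nat_lit 0, nat_lit 0, nat_lit 37830521, nat_lit 29169479, nat_lit 0, nat_lit 3423841, true, true⟩,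
 nat_lit 0, nat_lit 0, nat_lit 0, nat_lit 0, nat_lit 3384, nat_lit 0, nat_lit 0, nat_lit 0, nat_lit 0, nat_lit 0, nat_lit 0, nat_lit 0, nat_lit 0, nat_lit 0, nat_lit 0, nat_lit 860200, nat_lit 0, nat_lit 0, [(nat_lit 15, [(nat_lit 1, nat_lit 233), (nat_lit 2, nat_lit 767)])],
 ⟨p015_k11, nat_lit 0, nat_lit 0, nat_lit 164, nat_lit 0, nat_lit 0, [nat_lit 2091837801, nat_lit 1349175799], [], [nat_lit 28076579783, nat_lit 28754996279, nat_lit 29849083785, nat_lit 30741534304], nat_lit 0, nat_lit 0, nat_lit 0, nat_lit 0, nat_lit 0, nat_lit 0, [], [nat_lit 49, nat_lit 40, nat_lit 80, nat_lit 80, nat_lit 16, nat_lit 203, nat_lit 0, nat_lit 6]⟩, C1.Rw.none,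
 ⟨nat_lit 4472, nat_lit 5000, ⟨.ofNat (nat_lit 828527), .ofNat (nat_lit 899951), .ofNat (nat_lit 871359), .ofNat (nat_lit 942783), .ofNat (nat_lit 815001), .ofNat (nat_lit 882974), .ofNat (nat_lit 858109), .ofNat (nat_lit 926083)⟩, ⟨.ofNat (nat_lit 0), .ofNat (nat_lit 0), .ofNat (nat_lit 0), .ofNat (nat_lit 0), .ofNat (nat_lit 0), .ofNat (nat_lit 0), .ofNat (nat_lit 0), .ofNat (nat_lit 0)⟩⟩, [⟨nat_lit 13, nat_lit 94, nat_lit 12, nat_lit 100, nat_lit 152583061⟩]⟩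
noncomputable def p015_l15 : Lf2 := ⟨nat_lit 0, nat_lit 10, [nat_lit 0, nat_lit 5, nat_lit 5, nat_lit 20], false, nat_lit 0, nat_lit 0, nat_lit 0, nat_lit 0, ⟨nat_lit 1000, nat_lit 0, nat_lit 0, nat_lit 0, nat_lit 0, nat_lit 0, nat_lit 0, nat_lit 0, nat_lit 0, nat_lit 0, nat_lit 0, nat_lit 0, nat_lit 0, nat_lit 0, nat_lit 0, nat_lit 0, false, false⟩,
 nat_lit 0, nat_lit 0, nat_lit 0, nat_lit 0, nat_lit 6432, nat_lit 0, nat_lit 865, nat_lit 0, nat_lit 0, nat_lit 313, nat_lit 0, nat_lit 438, nat_lit 0, nat_lit 0, nat_lit 0, nat_lit 0, nat_lit 0, nat_lit 0, [],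
 ⟨p015_k0, nat_lit 0, nat_lit 0, nat_lit 219, nat_lit 0, nat_lit 0, [nat_lit 3282000000, nat_lit 6250000000, nat_lit 9842000000], [], [nat_lit 34810457045, nat_lit 36501253952, nat_lit 37424131648, nat_lit 39269094592], nat_lit 0, nat_lit 0, nat_lit 0, nat_lit 0, nat_lit 0, nat_lit 0, [], [nat_lit 8, nat_lit 40, nat_lit 80, nat_lit 80, nat_lit 1, nat_lit 203, nat_lit 0, nat_lit 5]⟩, ⟨p015_k1, nat_lit 0, nat_lit 0, nat_lit 0, nat_lit 0, nat_lit 1759020, [nat_lit 4688000000, nat_lit 7968000000, nat_lit 11872000000], [], [nat_lit 23420221500, nat_lit 24232997500, nat_lit 24365108000, nat_lit 25195256000], nat_lit 1271250, nat_lit 1271250, nat_lit 1271250, nat_lit 1271250, nat_lit 0, nat_lit 0, [nat_lit 1100000, nat_lit 1785000, nat_lit 1271250], [nat_lit 21, nat_lit 40, nat_lit 80, nat_lit 80]⟩,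
 zbF0, []⟩
noncomputable def p015_l16 : Lf2 := ⟨nat_lit 0, nat_lit 10, [nat_lit 0, nat_lit 5, nat_lit 5, nat_lit 20], false, nat_lit 0, nat_lit 0, nat_lit 0, nat_lit 0, ⟨nat_lit 42, nat_lit 958, nat_lit 0, nat_lit 9, nat_lit 357, nat_lit 0, nat_lit 0, nat_lit 0, nat_lit 0, nat_lit 0, nat_lit 0, nat_lit 0, nat_lit 37260089, nat_lit 29739911, nat_lit 0, nat_lit 3434173, true, true⟩,
 nat_lit 0, nat_lit 0, nat_lit 639, nat_lit 0, nat_lit 598, nat_lit 338, nat_lit 0, nat_lit 0, nat_lit 280, nat_lit 49, nat_lit 0, nat_lit 0, nat_lit 0, nat_lit 0, nat_lit 0, nat_lit 325150, nat_lit 0, nat_lit 0, [(nat_lit 12, [(nat_lit 0, nat_lit 387), (nat_lit 1, nat_lit 571)])],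
 ⟨p015_k12, nat_lit 0, nat_lit 0, nat_lit 0, nat_lit 0, nat_lit 0, [nat_lit 2213783400, nat_lit 2321223801, nat_lit 2776839534, nat_lit 3243699266], [], [nat_lit 20398313370, nat_lit 20935865814, nat_lit 21688768344, nat_lit 22265317228], nat_lit 0, nat_lit 0, nat_lit 0, nat_lit 0, nat_lit 0, nat_lit 0, [], [nat_lit 148, nat_lit 40, nat_lit 20, nat_lit 40]⟩, ⟨p015_k13, nat_lit 0, nat_lit 0, nat_lit 881, nat_lit 0, nat_lit 1450360, [nat_lit 196896000, nat_lit 262500000, nat_lit 498624000], [], [nat_lit 1613427099, nat_lit 1614725583, nat_lit 1641746391, nat_lit 1639902247], nat_lit 1271250, nat_lit 1271250, nat_lit 1271250, nat_lit 1271250, nat_lit 0, nat_lit 0, [nat_lit 1100000, nat_lit 1442500, nat_lit 1271250], [nat_lit 48, nat_lit 40, nat_lit 80, nat_lit 80, nat_lit 12, nat_lit 306, nat_lit 75, nat_lit 7]⟩,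
 ⟨nat_lit 5000, nat_lit 5478, ⟨.ofNat (nat_lit 842374), .ofNat (nat_lit 917295), .ofNat (nat_lit 885069), .ofNat (nat_lit 959989), .ofNat (nat_lit 828500), .ofNat (nat_lit 899915), .ofNat (nat_lit 871337), .ofNat (nat_lit 942753)⟩, ⟨.ofNat (nat_lit 0), .ofNat (nat_lit 0), .ofNat (nat_lit 0), .ofNat (nat_lit 0), .ofNat (nat_lit 0), .ofNat (nat_lit 0), .ofNat (nat_lit 0), .ofNat (nat_lit 0)⟩⟩, []⟩
noncomputable def p015_l17 : Lf2 := ⟨nat_lit 0, nat_lit 10, [nat_lit 0, nat_lit 5, nat_lit 5, nat_lit 20], true, nat_lit 0, nat_lit 0, nat_lit 0, nat_lit 0, ⟨nat_lit 0, nat_lit 1000, nat_lit 0, nat_lit 9, nat_lit 351, nat_lit 0, nat_lit 0, nat_lit 0, nat_lit 0, nat_lit 0, nat_lit 0, nat_lit 0, nat_lit 37830521, nat_lit 29169479, nat_lit 0, nat_lit 3423841, true, true⟩,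
 nat_lit 0, nat_lit 0, nat_lit 0, nat_lit 0, nat_lit 1093, nat_lit 0, nat_lit 0, nat_lit 0, nat_lit 222, nat_lit 0, nat_lit 0, nat_lit 0, nat_lit 0, nat_lit 0, nat_lit 0, nat_lit 362950, nat_lit 0, nat_lit 0, [(nat_lit 15, [(nat_lit 0, nat_lit 247), (nat_lit 1, nat_lit 753)])],
 ⟨p015_k14, nat_lit 0, nat_lit 0, nat_lit 0, nat_lit 0, nat_lit 0, [nat_lit 2093855400, nat_lit 2346976401, nat_lit 2524893200], [], [nat_lit 22226073004, nat_lit 22803140644, nat_lit 23605374298, nat_lit 24331875308], nat_lit 0, nat_lit 0, nat_lit 0, nat_lit 0, nat_lit 0, nat_lit 0, [], [nat_lit 36, nat_lit 40, nat_lit 80, nat_lit 80]⟩, C1.Rw.none,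
 ⟨nat_lit 4472, nat_lit 5000, ⟨.ofNat (nat_lit 828527), .ofNat (nat_lit 899951), .ofNat (nat_lit 871359), .ofNat (nat_lit 942783), .ofNat (nat_lit 815001), .ofNat (nat_lit 882974), .ofNat (nat_lit 858109), .ofNat (nat_lit 926083)⟩, ⟨.ofNat (nat_lit 0), .ofNat (nat_lit 0), .ofNat (nat_lit 0), .ofNat (nat_lit 0), .ofNat (nat_lit 0), .ofNat (nat_lit 0), .ofNat (nat_lit 0), .ofNat (nat_lit 0)⟩⟩, [⟨nat_lit 13, nat_lit 94, nat_lit 12, nat_lit 100, nat_lit 98171594⟩]⟩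
noncomputable def p015_l18 : Lf2 := ⟨nat_lit 0, nat_lit 8, [nat_lit 50, nat_lit 5, nat_lit 5, nat_lit 20], true, nat_lit 0, nat_lit 0, nat_lit 0, nat_lit 0, ⟨nat_lit 0, nat_lit 1000, nat_lit 0, nat_lit 9, nat_lit 351, nat_lit 0, nat_lit 0, nat_lit 0, nat_lit 0, nat_lit 0, nat_lit 0, nat_lit 0, nat_lit 37857975, nat_lit 29142025, nat_lit 0, nat_lit 3423307, true, true⟩,
 nat_lit 0, nat_lit 0, nat_lit 0, nat_lit 0, nat_lit 3470, nat_lit 0, nat_lit 97, nat_lit 0, nat_lit 0, nat_lit 0, nat_lit 0, nat_lit 0, nat_lit 0, nat_lit 0, nat_lit 0, nat_lit 400000, nat_lit 0, nat_lit 0, [(nat_lit 12, [(nat_lit 1, nat_lit 1000)])],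
 ⟨p015_k15, nat_lit 0, nat_lit 0, nat_lit 0, nat_lit 0, nat_lit 0, [nat_lit 2068400000, nat_lit 2721200001, nat_lit 2682000000], [], [nat_lit 28332773361, nat_lit 29095415191, nat_lit 30407525740, nat_lit 31147248120], nat_lit 0, nat_lit 0, nat_lit 0, nat_lit 0, nat_lit 0, nat_lit 0, [], [nat_lit 18, nat_lit 40, nat_lit 80, nat_lit 80]⟩, C1.Rw.none,
 ⟨nat_lit 5000, nat_lit 5478, ⟨.ofNat (nat_lit 842374), .ofNat (nat_lit 917295), .ofNat (nat_lit 853048), .ofNat (nat_lit 927968), .ofNat (nat_lit 828500), .ofNat (nat_lit 899915), .ofNat (nat_lit 839209), .ofNat (nat_lit 910625)⟩, ⟨.ofNat (nat_lit 0), .ofNat (nat_lit 0), .ofNat (nat_lit 0), .ofNat (nat_lit 0), .ofNat (nat_lit 0), .ofNat (nat_lit 0), .ofNat (nat_lit 0), .ofNat (nat_lit 0)⟩⟩, [⟨nat_lit 13, nat_lit 95, nat_lit 16, nat_lit 100, nat_lit 168675074⟩]⟩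
noncomputable def p015_l19 : Lf2 := ⟨nat_lit 0, nat_lit 8, [nat_lit 50, nat_lit 5, nat_lit 5, nat_lit 20], false, nat_lit 0, nat_lit 0, nat_lit 0, nat_lit 0, ⟨nat_lit 43, nat_lit 957, nat_lit 0, nat_lit 9, nat_lit 355, nat_lit 0, nat_lit 0, nat_lit 0, nat_lit 0, nat_lit 0, nat_lit 0, nat_lit 0, nat_lit 37458462, nat_lit 29541538, nat_lit 0, nat_lit 3430747, true, true⟩,
 nat_lit 0, nat_lit 0, nat_lit 564, nat_lit 0, nat_lit 3470, nat_lit 313, nat_lit 104, nat_lit 0, nat_lit 0, nat_lit 139, nat_lit 0, nat_lit 0, nat_lit 0, nat_lit 0, nat_lit 0, nat_lit 382800, nat_lit 0, nat_lit 0, [(nat_lit 12, [(nat_lit 1, nat_lit 957)])],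
 ⟨p015_k15, nat_lit 0, nat_lit 0, nat_lit 0, nat_lit 0, nat_lit 0, [nat_lit 2120584801, nat_lit 2872938400, nat_lit 2909298000], [], [nat_lit 28588881362, nat_lit 29351523192, nat_lit 30663212282, nat_lit 31349083620], nat_lit 0, nat_lit 0, nat_lit 0, nat_lit 0, nat_lit 0, nat_lit 0, [], [nat_lit 18, nat_lit 40, nat_lit 80, nat_lit 80]⟩, ⟨p015_k16, nat_lit 0, nat_lit 0, nat_lit 713, nat_lit 0, nat_lit 1170047, [nat_lit 201584000, nat_lit 342624000, nat_lit 423206000], [], [nat_lit 1490470100, nat_lit 1492435900, nat_lit 1527707928, nat_lit 1535039788], nat_lit 1271250, nat_lit 1271250, nat_lit 1271250, nat_lit 1271250, nat_lit 0, nat_lit 0, [nat_lit 1100000, nat_lit 1785000, nat_lit 1271250], [nat_lit 29, nat_lit 40, nat_lit 80, nat_lit 80, nat_lit 17, nat_lit 289, nat_lit 75, nat_lit 8]⟩,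
 ⟨nat_lit 5000, nat_lit 5478, ⟨.ofNat (nat_lit 853048), .ofNat (nat_lit 927968), .ofNat (nat_lit 863722), .ofNat (nat_lit 938642), .ofNat (nat_lit 839209), .ofNat (nat_lit 910625), .ofNat (nat_lit 849919), .ofNat (nat_lit 921335)⟩, ⟨.ofNat (nat_lit 0), .ofNat (nat_lit 0), .ofNat (nat_lit 0), .ofNat (nat_lit 0), .ofNat (nat_lit 0), .ofNat (nat_lit 0), .ofNat (nat_lit 0), .ofNat (nat_lit 0)⟩⟩, [⟨nat_lit 13, nat_lit 93, nat_lit 19, nat_lit 100, nat_lit 159335544⟩]⟩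
noncomputable def p015_l20 : Lf2 := ⟨nat_lit 0, nat_lit 10, [nat_lit 0, nat_lit 5, nat_lit 5, nat_lit 20], false, nat_lit 0, nat_lit 0, nat_lit 0, nat_lit 0, ⟨nat_lit 1000, nat_lit 0, nat_lit 0, nat_lit 0, nat_lit 0, nat_lit 0, nat_lit 0, nat_lit 0, nat_lit 0, nat_lit 0, nat_lit 0, nat_lit 0, nat_lit 0, nat_lit 0, nat_lit 0, nat_lit 0, false, false⟩,
 nat_lit 0, nat_lit 0, nat_lit 13097, nat_lit 0, nat_lit 5530, nat_lit 6933, nat_lit 1467, nat_lit 0, nat_lit 0, nat_lit 1474, nat_lit 0, nat_lit 0, nat_lit 0, nat_lit 0, nat_lit 0, nat_lit 0, nat_lit 0, nat_lit 0, [],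
 ⟨p015_k17, nat_lit 0, nat_lit 0, nat_lit 0, nat_lit 0, nat_lit 0, [nat_lit 3282000000, nat_lit 4688000000, nat_lit 9842000000], [], [nat_lit 31630654475, nat_lit 32020949690, nat_lit 33950887395, nat_lit 34287381510], nat_lit 0, nat_lit 0, nat_lit 0, nat_lit 0, nat_lit 0, nat_lit 0, [], [nat_lit 42, nat_lit 40, nat_lit 80, nat_lit 80]⟩, ⟨p015_k13, nat_lit 0, nat_lit 0, nat_lit 629, nat_lit 0, nat_lit 837868, [nat_lit 4688000000, nat_lit 6250000000, nat_lit 11872000000], [], [nat_lit 38377294186, nat_lit 38490203223, nat_lit 39625407042, nat_lit 39711666560], nat_lit 1271250, nat_lit 1271250, nat_lit 1271250, nat_lit 1271250, nat_lit 0, nat_lit 0, [nat_lit 1100000, nat_lit 1442500, nat_lit 1271250], [nat_lit 48, nat_lit 40, nat_lit 80, nat_lit 80, nat_lit 12, nat_lit 289, nat_lit 75, nat_lit 7]⟩,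
 zbF0, [⟨nat_lit 13, nat_lit 93, nat_lit 22, nat_lit 100, nat_lit 1136952⟩]⟩
noncomputable def p015_l21 : Lf2 := ⟨nat_lit 0, nat_lit 10, [nat_lit 0, nat_lit 5, nat_lit 5, nat_lit 20], false, nat_lit 0, nat_lit 0, nat_lit 0, nat_lit 0, ⟨nat_lit 211, nat_lit 789, nat_lit 0, nat_lit 9, nat_lit 348, nat_lit 0, nat_lit 0, nat_lit 0, nat_lit 0, nat_lit 0, nat_lit 0, nat_lit 0, nat_lit 38139823, nat_lit 28860177, nat_lit 0, nat_lit 3417623, true, true⟩,
 nat_lit 0, nat_lit 0, nat_lit 3193, nat_lit 0, nat_lit 3646, nat_lit 1690, nat_lit 296, nat_lit 0, nat_lit 0, nat_lit 299, nat_lit 0, nat_lit 0, nat_lit 0, nat_lit 0, nat_lit 0, nat_lit 315600, nat_lit 0, nat_lit 0, [(nat_lit 12, [(nat_lit 1, nat_lit 789)])],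
 ⟨p015_k18, nat_lit 0, nat_lit 0, nat_lit 0, nat_lit 0, nat_lit 0, [nat_lit 2296854600, nat_lit 2616388901, nat_lit 3202506900, nat_lit 3811512900], [], [nat_lit 29043165317, nat_lit 29432976337, nat_lit 31010888608, nat_lit 31363480243], nat_lit 0, nat_lit 0, nat_lit 0, nat_lit 0, nat_lit 0, nat_lit 0, [], [nat_lit 166, nat_lit 40, nat_lit 20, nat_lit 40]⟩, ⟨p015_k13, nat_lit 0, nat_lit 0, nat_lit 686, nat_lit 0, nat_lit 983351, [nat_lit 989168000, nat_lit 1318750000, nat_lit 2504992000], [], [nat_lit 7569448093, nat_lit 7587636590, nat_lit 7800224272, nat_lit 7817795206], nat_lit 1271250, nat_lit 1271250, nat_lit 1271250, nat_lit 1271250, nat_lit 0, nat_lit 0, [nat_lit 1100000, nat_lit 1442500, nat_lit 1271250], [nat_lit 48, nat_lit 40, nat_lit 80, nat_lit 80, nat_lit 12, nat_lit 289, nat_lit 75, nat_lit 7]⟩,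
 ⟨nat_lit 5000, nat_lit 5245, ⟨.ofNat (nat_lit 835439), .ofNat (nat_lit 901290), .ofNat (nat_lit 846130), .ofNat (nat_lit 911982), .ofNat (nat_lit 828555), .ofNat (nat_lit 892838), .ofNat (nat_lit 839268), .ofNat (nat_lit 903551)⟩, ⟨.ofNat (nat_lit 0), .ofNat (nat_lit 0), .ofNat (nat_lit 0), .ofNat (nat_lit 0), .ofNat (nat_lit 0), .ofNat (nat_lit 0), .ofNat (nat_lit 0), .ofNat (nat_lit 0)⟩⟩, [⟨nat_lit 13, nat_lit 90, nat_lit 27, nat_lit 100, nat_lit 160815493⟩]⟩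
noncomputable def p015_l22 : Lf2 := ⟨nat_lit 0, nat_lit 10, [nat_lit 0, nat_lit 5, nat_lit 5, nat_lit 20], false, nat_lit 0, nat_lit 0, nat_lit 0, nat_lit 0, ⟨nat_lit 1000, nat_lit 0, nat_lit 0, nat_lit 0, nat_lit 0, nat_lit 0, nat_lit 0, nat_lit 0, nat_lit 0, nat_lit 0, nat_lit 0, nat_lit 0, nat_lit 0, nat_lit 0, nat_lit 0, nat_lit 0, false, false⟩,
 nat_lit 0, nat_lit 0, nat_lit 12718, nat_lit 0, nat_lit 5530, nat_lit 7065, nat_lit 1467, nat_lit 0, nat_lit 0, nat_lit 1349, nat_lit 0, nat_lit 0, nat_lit 0, nat_lit 0, nat_lit 0, nat_lit 0, nat_lit 0, nat_lit 0, [],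
 ⟨p015_k17, nat_lit 0, nat_lit 0, nat_lit 0, nat_lit 0, nat_lit 0, [nat_lit 3282000000, nat_lit 4688000000, nat_lit 9842000000], [], [nat_lit 31630654475, nat_lit 32020949690, nat_lit 33950887395, nat_lit 34287381510], nat_lit 0, nat_lit 0, nat_lit 0, nat_lit 0, nat_lit 0, nat_lit 0, [], [nat_lit 42, nat_lit 40, nat_lit 80, nat_lit 80]⟩, ⟨p015_k19, nat_lit 0, nat_lit 0, nat_lit 581, nat_lit 0, nat_lit 862540, [nat_lit 4688000000, nat_lit 6250000000, nat_lit 9842000000], [], [nat_lit 35687251300, nat_lit 35822705890, nat_lit 37045647750, nat_lit 37151277520], nat_lit 1271250, nat_lit 1271250, nat_lit 1271250, nat_lit 1271250, nat_lit 0, nat_lit 0, [nat_lit 1100000, nat_lit 1442500, nat_lit 1271250], [nat_lit 11, nat_lit 40, nat_lit 80, nat_lit 80, nat_lit 1, nat_lit 289, nat_lit 75, nat_lit 8]⟩,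
 zbF0, [⟨nat_lit 13, nat_lit 94, nat_lit 17, nat_lit 100, nat_lit 20398506⟩]⟩
noncomputable def p015_l23 : Lf2 := ⟨nat_lit 0, nat_lit 10, [nat_lit 0, nat_lit 5, nat_lit 5, nat_lit 20], false, nat_lit 0, nat_lit 0, nat_lit 0, nat_lit 0, ⟨nat_lit 1000, nat_lit 0, nat_lit 0, nat_lit 0, nat_lit 0, nat_lit 0, nat_lit 0, nat_lit 0, nat_lit 0, nat_lit 0, nat_lit 0, nat_lit 0, nat_lit 0, nat_lit 0, nat_lit 0, nat_lit 0, false, false⟩,
 nat_lit 0, nat_lit 0, nat_lit 13606, nat_lit 0, nat_lit 4930, nat_lit 7558, nat_lit 1166, nat_lit 0, nat_lit 0, nat_lit 1313, nat_lit 0, nat_lit 0, nat_lit 0, nat_lit 0, nat_lit 0, nat_lit 0, nat_lit 0, nat_lit 0, [],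
 ⟨p015_k18, nat_lit 0, nat_lit 0, nat_lit 0, nat_lit 0, nat_lit 0, [nat_lit 3282000000, nat_lit 3965500000, nat_lit 5449500000, nat_lit 7968000000], [], [nat_lit 30973522440, nat_lit 31359661350, nat_lit 33218415290, nat_lit 33555718930], nat_lit 0, nat_lit 0, nat_lit 0, nat_lit 0, nat_lit 0, nat_lit 0, [], [nat_lit 166, nat_lit 40, nat_lit 20, nat_lit 40]⟩, ⟨p015_k19, nat_lit 0, nat_lit 0, nat_lit 627, nat_lit 0, nat_lit 995070, [nat_lit 4688000000, nat_lit 6250000000, nat_lit 9842000000], [], [nat_lit 34933053521, nat_lit 35053177970, nat_lit 36207261792, nat_lit 36298724524], nat_lit 1271250, nat_lit 1271250, nat_lit 1271250, nat_lit 1271250, nat_lit 0, nat_lit 0, [nat_lit 1100000, nat_lit 1442500, nat_lit 1271250], [nat_lit 11, nat_lit 40, nat_lit 80, nat_lit 80, nat_lit 1, nat_lit 289, nat_lit 75, nat_lit 8]⟩,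
 zbF0, [⟨nat_lit 13, nat_lit 92, nat_lit 22, nat_lit 100, nat_lit 5035976⟩]⟩
noncomputable def p015_l24 : Lf2 := ⟨nat_lit 0, nat_lit 10, [nat_lit 0, nat_lit 5, nat_lit 5, nat_lit 20], false, nat_lit 0, nat_lit 0, nat_lit 0, nat_lit 0, ⟨nat_lit 1000, nat_lit 0, nat_lit 0, nat_lit 0, nat_lit 0, nat_lit 0, nat_lit 0, nat_lit 0, nat_lit 0, nat_lit 0, nat_lit 0, nat_lit 0, nat_lit 0, nat_lit 0, nat_lit 0, nat_lit 0, false, false⟩,
 nat_lit 0, nat_lit 0, nat_lit 12441, nat_lit 0, nat_lit 4835, nat_lit 7241, nat_lit 876, nat_lit 0, nat_lit 0, nat_lit 2011, nat_lit 0, nat_lit 0, nat_lit 0, nat_lit 0, nat_lit 0, nat_lit 0, nat_lit 0, nat_lit 0, [],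
 ⟨p015_k0, nat_lit 0, nat_lit 0, nat_lit 0, nat_lit 0, nat_lit 0, [nat_lit 3282000000, nat_lit 6250000000, nat_lit 9842000000], [], [nat_lit 32463615480, nat_lit 32890383388, nat_lit 34887745180, nat_lit 35258574260], nat_lit 0, nat_lit 0, nat_lit 0, nat_lit 0, nat_lit 0, nat_lit 0, [], [nat_lit 8, nat_lit 40, nat_lit 80, nat_lit 80]⟩, ⟨p015_k5, nat_lit 0, nat_lit 0, nat_lit 701, nat_lit 0, nat_lit 1144952, [nat_lit 4688000000, nat_lit 7968000000, nat_lit 9842000000], [], [nat_lit 32754450038, nat_lit 32963045380, nat_lit 33947071712, nat_lit 34153336144], nat_lit 1271250, nat_lit 1271250, nat_lit 1271250, nat_lit 1271250, nat_lit 0, nat_lit 0, [nat_lit 1100000, nat_lit 1785000, nat_lit 1271250], [nat_lit 29, nat_lit 40, nat_lit 80, nat_lit 80, nat_lit 17, nat_lit 289, nat_lit 75, nat_lit 8]⟩,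
 zbF0, [⟨nat_lit 13, nat_lit 97, nat_lit 9, nat_lit 100, nat_lit 24404583⟩]⟩
noncomputable def p015_l25 : Lf2 := ⟨nat_lit 0, nat_lit 10, [nat_lit 0, nat_lit 5, nat_lit 5, nat_lit 20], false, nat_lit 0, nat_lit 0, nat_lit 0, nat_lit 0, ⟨nat_lit 433, nat_lit 567, nat_lit 0, nat_lit 9, nat_lit 360, nat_lit 0, nat_lit 0, nat_lit 0, nat_lit 0, nat_lit 0, nat_lit 0, nat_lit 0, nat_lit 37007304, nat_lit 29992696, nat_lit 0, nat_lit 3438282, true, true⟩,
 nat_lit 0, nat_lit 0, nat_lit 5498, nat_lit 0, nat_lit 4268, nat_lit 3200, nat_lit 764, nat_lit 0, nat_lit 0, nat_lit 619, nat_lit 0, nat_lit 0, nat_lit 0, nat_lit 0, nat_lit 0, nat_lit 226800, nat_lit 0, nat_lit 0, [(nat_lit 12, [(nat_lit 1, nat_lit 567)])],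
 ⟨p015_k18, nat_lit 0, nat_lit 0, nat_lit 0, nat_lit 0, nat_lit 0, [nat_lit 2574043800, nat_lit 2995986701, nat_lit 3834740700, nat_lit 4970838000], [], [nat_lit 28962166045, nat_lit 29330638161, nat_lit 31161184733, nat_lit 31522796920], nat_lit 0, nat_lit 0, nat_lit 0, nat_lit 0, nat_lit 0, nat_lit 0, [], [nat_lit 166, nat_lit 40, nat_lit 20, nat_lit 40]⟩, ⟨p015_k20, nat_lit 0, nat_lit 0, nat_lit 746, nat_lit 0, nat_lit 1267046, [nat_lit 2029904000, nat_lit 2706250000, nat_lit 4261586000], [], [nat_lit 14381726006, nat_lit 14458088855, nat_lit 14821742923, nat_lit 14888631875], nat_lit 1271250, nat_lit 1271250, nat_lit 1271250, nat_lit 1271250, nat_lit 0, nat_lit 0, [nat_lit 1100000, nat_lit 1442500, nat_lit 1271250], [nat_lit 11, nat_lit 40, nat_lit 80, nat_lit 80, nat_lit 1, nat_lit 289, nat_lit 75, nat_lit 8]⟩,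
 ⟨nat_lit 5000, nat_lit 5245, ⟨.ofNat (nat_lit 856822), .ofNat (nat_lit 929990), .ofNat (nat_lit 878204), .ofNat (nat_lit 951373), .ofNat (nat_lit 849981), .ofNat (nat_lit 921407), .ofNat (nat_lit 871406), .ofNat (nat_lit 942832)⟩, ⟨.ofNat (nat_lit 0), .ofNat (nat_lit 0), .ofNat (nat_lit 0), .ofNat (nat_lit 0), .ofNat (nat_lit 0), .ofNat (nat_lit 0), .ofNat (nat_lit 0), .ofNat (nat_lit 0)⟩⟩, [⟨nat_lit 13, nat_lit 94, nat_lit 15, nat_lit 100, nat_lit 100967562⟩]⟩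
noncomputable def p015_l26 : Lf2 := ⟨nat_lit 0, nat_lit 10, [nat_lit 0, nat_lit 5, nat_lit 5, nat_lit 20], true, nat_lit 0, nat_lit 0, nat_lit 0, nat_lit 0, ⟨nat_lit 0, nat_lit 1000, nat_lit 0, nat_lit 9, nat_lit 344, nat_lit 0, nat_lit 0, nat_lit 0, nat_lit 0, nat_lit 0, nat_lit 0, nat_lit 0, nat_lit 38488956, nat_lit 28511044, nat_lit 0, nat_lit 3410082, true, true⟩,
 nat_lit 0, nat_lit 0, nat_lit 0, nat_lit 0, nat_lit 3455, nat_lit 0, nat_lit 0, nat_lit 0, nat_lit 0, nat_lit 0, nat_lit 0, nat_lit 0, nat_lit 0, nat_lit 0, nat_lit 0, nat_lit 624400, nat_lit 0, nat_lit 0, [(nat_lit 15, [(nat_lit 1, nat_lit 626), (nat_lit 2, nat_lit 374)])],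
 ⟨p015_k14, nat_lit 0, nat_lit 0, nat_lit 0, nat_lit 0, nat_lit 0, [nat_lit 2005703760, nat_lit 2274117600, nat_lit 1241894667], [], [nat_lit 27899845177, nat_lit 28679151410, nat_lit 28923494845, nat_lit 29713076087], nat_lit 0, nat_lit 0, nat_lit 0, nat_lit 0, nat_lit 0, nat_lit 0, [], [nat_lit 36, nat_lit 40, nat_lit 80, nat_lit 80]⟩, C1.Rw.none,
 ⟨nat_lit 4472, nat_lit 5000, ⟨.ofNat (nat_lit 828527), .ofNat (nat_lit 864239), .ofNat (nat_lit 871359), .ofNat (nat_lit 907071), .ofNat (nat_lit 815001), .ofNat (nat_lit 848988), .ofNat (nat_lit 858109), .ofNat (nat_lit 892095)⟩, ⟨.ofNat (nat_lit 0), .ofNat (nat_lit 0), .ofNat (nat_lit 0), .ofNat (nat_lit 0), .ofNat (nat_lit 0), .ofNat (nat_lit 0), .ofNat (nat_lit 0), .ofNat (nat_lit 0)⟩⟩, []⟩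
noncomputable def p015_l27 : Lf2 := ⟨nat_lit 0, nat_lit 10, [nat_lit 0, nat_lit 5, nat_lit 5, nat_lit 20], true, nat_lit 0, nat_lit 0, nat_lit 0, nat_lit 0, ⟨nat_lit 0, nat_lit 1000, nat_lit 0, nat_lit 9, nat_lit 353, nat_lit 0, nat_lit 0, nat_lit 0, nat_lit 0, nat_lit 0, nat_lit 0, nat_lit 0, nat_lit 37710749, nat_lit 29289251, nat_lit 0, nat_lit 3426133, true, true⟩,
 nat_lit 0, nat_lit 0, nat_lit 0, nat_lit 0, nat_lit 3397, nat_lit 0, nat_lit 111, nat_lit 0, nat_lit 0, nat_lit 0, nat_lit 0, nat_lit 0, nat_lit 0, nat_lit 0, nat_lit 0, nat_lit 400000, nat_lit 0, nat_lit 0, [(nat_lit 15, [(nat_lit 1, nat_lit 1000)])],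
 ⟨p015_k8, nat_lit 0, nat_lit 0, nat_lit 0, nat_lit 0, nat_lit 0, [nat_lit 2020200000, nat_lit 2354866667, nat_lit 2328333333], [], [nat_lit 29500500738, nat_lit 30216727901, nat_lit 30289554799, nat_lit 31034760618], nat_lit 0, nat_lit 0, nat_lit 0, nat_lit 0, nat_lit 0, nat_lit 0, [], [nat_lit 18, nat_lit 40, nat_lit 80, nat_lit 80]⟩, C1.Rw.none,
 ⟨nat_lit 4472, nat_lit 5000, ⟨.ofNat (nat_lit 864239), .ofNat (nat_lit 892808), .ofNat (nat_lit 885655), .ofNat (nat_lit 914224), .ofNat (nat_lit 848988), .ofNat (nat_lit 876177), .ofNat (nat_lit 870542), .ofNat (nat_lit 897731)⟩, ⟨.ofNat (nat_lit 0), .ofNat (nat_lit 0), .ofNat (nat_lit 0), .ofNat (nat_lit 0), .ofNat (nat_lit 0), .ofNat (nat_lit 0), .ofNat (nat_lit 0), .ofNat (nat_lit 0)⟩⟩, [⟨nat_lit 13, nat_lit 91, nat_lit 23, nat_lit 100, nat_lit 186898513⟩]⟩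
noncomputable def p015_l28 : Lf2 := ⟨nat_lit 0, nat_lit 10, [nat_lit 0, nat_lit 5, nat_lit 5, nat_lit 20], false, nat_lit 0, nat_lit 0, nat_lit 0, nat_lit 0, ⟨nat_lit 34, nat_lit 966, nat_lit 0, nat_lit 9, nat_lit 359, nat_lit 0, nat_lit 0, nat_lit 0, nat_lit 0, nat_lit 0, nat_lit 0, nat_lit 0, nat_lit 37082571, nat_lit 29917429, nat_lit 0, nat_lit 3437088, true, true⟩,
 nat_lit 0, nat_lit 0, nat_lit 433, nat_lit 0, nat_lit 3670, nat_lit 251, nat_lit 371, nat_lit 0, nat_lit 0, nat_lit 63, nat_lit 0, nat_lit 0, nat_lit 0, nat_lit 0, nat_lit 0, nat_lit 386400, nat_lit 0, nat_lit 0, [(nat_lit 15, [(nat_lit 1, nat_lit 966)])],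
 ⟨p015_k21, nat_lit 0, nat_lit 0, nat_lit 0, nat_lit 0, nat_lit 0, [nat_lit 2063101200, nat_lit 2300048000, nat_lit 2459802400, nat_lit 2546254800], [], [nat_lit 28775410005, nat_lit 29470989965, nat_lit 29743160105, nat_lit 30494625105], nat_lit 0, nat_lit 0, nat_lit 0, nat_lit 0, nat_lit 0, nat_lit 0, [], [nat_lit 212, nat_lit 40, nat_lit 80, nat_lit 80]⟩, ⟨p015_k5, nat_lit 0, nat_lit 0, nat_lit 809, nat_lit 0, nat_lit 1421693, [nat_lit 159392000, nat_lit 270912000, nat_lit 334628000], [], [nat_lit 1144827053, nat_lit 1145794892, nat_lit 1167835362, nat_lit 1170725073], nat_lit 1271250, nat_lit 1271250, nat_lit 1271250, nat_lit 1271250, nat_lit 0, nat_lit 0, [nat_lit 1100000, nat_lit 1785000, nat_lit 1271250], [nat_lit 29, nat_lit 40, nat_lit 80, nat_lit 80, nat_lit 17, nat_lit 289, nat_lit 75, nat_lit 7]⟩,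
 ⟨nat_lit 4472, nat_lit 5000, ⟨.ofNat (nat_lit 885655), .ofNat (nat_lit 921367), .ofNat (nat_lit 891009), .ofNat (nat_lit 926721), .ofNat (nat_lit 870542), .ofNat (nat_lit 904528), .ofNat (nat_lit 875930), .ofNat (nat_lit 909917)⟩, ⟨.ofNat (nat_lit 0), .ofNat (nat_lit 0), .ofNat (nat_lit 0), .ofNat (nat_lit 0), .ofNat (nat_lit 0), .ofNat (nat_lit 0), .ofNat (nat_lit 0), .ofNat (nat_lit 0)⟩⟩, [⟨nat_lit 13, nat_lit 88, nat_lit 28, nat_lit 100, nat_lit 175413120⟩]⟩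
noncomputable def p015_l29 : Lf2 := ⟨nat_lit 0, nat_lit 10, [nat_lit 0, nat_lit 5, nat_lit 5, nat_lit 20], false, nat_lit 0, nat_lit 0, nat_lit 0, nat_lit 0, ⟨nat_lit 51, nat_lit 949, nat_lit 0, nat_lit 9, nat_lit 361, nat_lit 0, nat_lit 0, nat_lit 0, nat_lit 0, nat_lit 0, nat_lit 0, nat_lit 0, nat_lit 36884995, nat_lit 30115005, nat_lit 0, nat_lit 3440166, true, true⟩,
 nat_lit 0, nat_lit 0, nat_lit 633, nat_lit 0, nat_lit 3650, nat_lit 376, nat_lit 383, nat_lit 0, nat_lit 0, nat_lit 74, nat_lit 0, nat_lit 0, nat_lit 0, nat_lit 0, nat_lit 0, nat_lit 379600, nat_lit 0, nat_lit 0, [(nat_lit 15, [(nat_lit 1, nat_lit 949)])],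
 ⟨p015_k21, nat_lit 0, nat_lit 0, nat_lit 0, nat_lit 0, nat_lit 0, [nat_lit 2084551801, nat_lit 2342072001, nat_lit 2526503600, nat_lit 2640982200], [], [nat_lit 28889106627, nat_lit 29583659827, nat_lit 29854677127, nat_lit 30508290727], nat_lit 0, nat_lit 0, nat_lit 0, nat_lit 0, nat_lit 0, nat_lit 0, [], [nat_lit 212, nat_lit 40, nat_lit 80, nat_lit 80]⟩, ⟨p015_k22, nat_lit 0, nat_lit 0, nat_lit 804, nat_lit 0, nat_lit 1411918, [nat_lit 239088000, nat_lit 406368000, nat_lit 501942000], [], [nat_lit 1726543131, nat_lit 1727998429, nat_lit 1748657429, nat_lit 1750193495], nat_lit 1271250, nat_lit 1271250, nat_lit 1271250, nat_lit 1271250, nat_lit 0, nat_lit 0, [nat_lit 1100000, nat_lit 1785000, nat_lit 1271250], [nat_lit 29, nat_lit 40, nat_lit 80, nat_lit 80, nat_lit 17, nat_lit 289, nat_lit 75, nat_lit 7]⟩,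
 ⟨nat_lit 4472, nat_lit 5000, ⟨.ofNat (nat_lit 891009), .ofNat (nat_lit 926721), .ofNat (nat_lit 896363), .ofNat (nat_lit 932075), .ofNat (nat_lit 875930), .ofNat (nat_lit 909917), .ofNat (nat_lit 881319), .ofNat (nat_lit 915306)⟩, ⟨.ofNat (nat_lit 0), .ofNat (nat_lit 0), .ofNat (nat_lit 0), .ofNat (nat_lit 0), .ofNat (nat_lit 0), .ofNat (nat_lit 0), .ofNat (nat_lit 0), .ofNat (nat_lit 0)⟩⟩, [⟨nat_lit 13, nat_lit 89, nat_lit 25, nat_lit 100, nat_lit 173043752⟩]⟩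
noncomputable def p015_l30 : Lf2 := ⟨nat_lit 0, nat_lit 10, [nat_lit 0, nat_lit 5, nat_lit 5, nat_lit 20], false, nat_lit 0, nat_lit 0, nat_lit 0, nat_lit 0, ⟨nat_lit 397, nat_lit 603, nat_lit 0, nat_lit 9, nat_lit 366, nat_lit 0, nat_lit 0, nat_lit 0, nat_lit 0, nat_lit 0, nat_lit 0, nat_lit 0, nat_lit 36445215, nat_lit 30554785, nat_lit 0, nat_lit 3446386, true, true⟩,
 nat_lit 0, nat_lit 0, nat_lit 4822, nat_lit 0, nat_lit 4140, nat_lit 2936, nat_lit 333, nat_lit 0, nat_lit 0, nat_lit 500, nat_lit 0, nat_lit 0, nat_lit 0, nat_lit 0, nat_lit 0, nat_lit 565200, nat_lit 0, nat_lit 0, [(nat_lit 15, [(nat_lit 1, nat_lit 63), (nat_lit 2, nat_lit 540)])],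
 ⟨p015_k21, nat_lit 0, nat_lit 0, nat_lit 0, nat_lit 0, nat_lit 0, [nat_lit 2500204200, nat_lit 2921768000, nat_lit 3025253200, nat_lit 2997347400], [], [nat_lit 29926082035, nat_lit 30285936445, nat_lit 30945052735, nat_lit 31282439615], nat_lit 0, nat_lit 0, nat_lit 0, nat_lit 0, nat_lit 0, nat_lit 0, [], [nat_lit 212, nat_lit 40, nat_lit 80, nat_lit 80]⟩, ⟨p015_k23, nat_lit 0, nat_lit 0, nat_lit 763, nat_lit 0, nat_lit 1310940, [nat_lit 1861136000, nat_lit 3163296000, nat_lit 3907274000], [], [nat_lit 13321209132, nat_lit 13354130592, nat_lit 13521013449, nat_lit 13549250976], nat_lit 1271250, nat_lit 1271250, nat_lit 1271250, nat_lit 1271250, nat_lit 0, nat_lit 0, [nat_lit 1100000, nat_lit 1785000, nat_lit 1271250], [nat_lit 29, nat_lit 40, nat_lit 80, nat_lit 80, nat_lit 17, nat_lit 289, nat_lit 75, nat_lit 7]⟩,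
 ⟨nat_lit 4743, nat_lit 5000, ⟨.ofNat (nat_lit 896410), .ofNat (nat_lit 932123), .ofNat (nat_lit 907123), .ofNat (nat_lit 942836), .ofNat (nat_lit 888839), .ofNat (nat_lit 923687), .ofNat (nat_lit 899581), .ofNat (nat_lit 934430)⟩, ⟨.ofNat (nat_lit 0), .ofNat (nat_lit 0), .ofNat (nat_lit 0), .ofNat (nat_lit 0), .ofNat (nat_lit 0), .ofNat (nat_lit 0), .ofNat (nat_lit 0), .ofNat (nat_lit 0)⟩⟩, [⟨nat_lit 13, nat_lit 92, nat_lit 18, nat_lit 100, nat_lit 98616190⟩]⟩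
noncomputable def p015_l31 : Lf2 := ⟨nat_lit 0, nat_lit 10, [nat_lit 0, nat_lit 5, nat_lit 5, nat_lit 20], false, nat_lit 0, nat_lit 0, nat_lit 0, nat_lit 0, ⟨nat_lit 54, nat_lit 946, nat_lit 0, nat_lit 9, nat_lit 363, nat_lit 0, nat_lit 0, nat_lit 0, nat_lit 0, nat_lit 0, nat_lit 0, nat_lit 0, nat_lit 36734200, nat_lit 30265800, nat_lit 0, nat_lit 3442397, true, true⟩,
 nat_lit 0, nat_lit 0, nat_lit 654, nat_lit 0, nat_lit 3620, nat_lit 398, nat_lit 329, nat_lit 0, nat_lit 0, nat_lit 65, nat_lit 0, nat_lit 0, nat_lit 0, nat_lit 0, nat_lit 0, nat_lit 378400, nat_lit 0, nat_lit 0, [(nat_lit 15, [(nat_lit 1, nat_lit 946)])],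
 ⟨p015_k24, nat_lit 0, nat_lit 0, nat_lit 0, nat_lit 0, nat_lit 0, [nat_lit 2088337201, nat_lit 2349488001, nat_lit 2538274400, nat_lit 2657698800], [], [nat_lit 29176369712, nat_lit 29522876242, nat_lit 30126666542, nat_lit 30469478162], nat_lit 0, nat_lit 0, nat_lit 0, nat_lit 0, nat_lit 0, nat_lit 0, [], [nat_lit 212, nat_lit 40, nat_lit 80, nat_lit 80]⟩, ⟨p015_k23, nat_lit 0, nat_lit 0, nat_lit 814, nat_lit 0, nat_lit 1440206, [nat_lit 253152000, nat_lit 430272000, nat_lit 531468000], [], [nat_lit 1832165533, nat_lit 1835249008, nat_lit 1855296814, nat_lit 1858604764], nat_lit 1271250, nat_lit 1271250, nat_lit 1271250, nat_lit 1271250, nat_lit 0, nat_lit 0, [nat_lit 1100000, nat_lit 1785000, nat_lit 1271250], [nat_lit 29, nat_lit 40, nat_lit 80, nat_lit 80, nat_lit 17, nat_lit 289, nat_lit 75, nat_lit 7]⟩,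
 ⟨nat_lit 4472, nat_lit 4744, ⟨.ofNat (nat_lit 888843), .ofNat (nat_lit 923692), .ofNat (nat_lit 899585), .ofNat (nat_lit 934435), .ofNat (nat_lit 881370), .ofNat (nat_lit 915358), .ofNat (nat_lit 892151), .ofNat (nat_lit 926140)⟩, ⟨.ofNat (nat_lit 0), .ofNat (nat_lit 0), .ofNat (nat_lit 0), .ofNat (nat_lit 0), .ofNat (nat_lit 0), .ofNat (nat_lit 0), .ofNat (nat_lit 0), .ofNat (nat_lit 0)⟩⟩, [⟨nat_lit 13, nat_lit 88, nat_lit 24, nat_lit 100, nat_lit 181169070⟩]⟩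
noncomputable def p015_l32 : Lf2 := ⟨nat_lit 2, nat_lit 10, [nat_lit 0, nat_lit 5, nat_lit 5, nat_lit 20], true, nat_lit 0, nat_lit 0, nat_lit 0, nat_lit 0, zbN0,
 nat_lit 0, nat_lit 0, nat_lit 0, nat_lit 0, nat_lit 0, nat_lit 0, nat_lit 0, nat_lit 0, nat_lit 0, nat_lit 0, nat_lit 0, nat_lit 0, nat_lit 0, nat_lit 0, nat_lit 0, nat_lit 0, nat_lit 0, nat_lit 0, [],
 ⟨p015_k17, nat_lit 0, nat_lit 0, nat_lit 209, nat_lit 0, nat_lit 0, [], [], [], nat_lit 0, nat_lit 0, nat_lit 0, nat_lit 0, nat_lit 0, nat_lit 0, [], [nat_lit 42, nat_lit 40, nat_lit 80, nat_lit 80, nat_lit 13, nat_lit 203, nat_lit 0, nat_lit 5]⟩, C1.Rw.none,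
 zbF0, []⟩
noncomputable def p015_l33 : Lf2 := ⟨nat_lit 0, nat_lit 10, [nat_lit 0, nat_lit 5, nat_lit 5, nat_lit 20], false, nat_lit 0, nat_lit 0, nat_lit 0, nat_lit 0, ⟨nat_lit 468, nat_lit 532, nat_lit 0, nat_lit 6, nat_lit 239, nat_lit 0, nat_lit 0, nat_lit 0, nat_lit 0, nat_lit 0, nat_lit 0, nat_lit 0, nat_lit 0, nat_lit 0, nat_lit 0, nat_lit 5000000, false, false⟩,
 nat_lit 0, nat_lit 0, nat_lit 0, nat_lit 0, nat_lit 5121, nat_lit 3817, nat_lit 711, nat_lit 0, nat_lit 0, nat_lit 683, nat_lit 0, nat_lit 0, nat_lit 0, nat_lit 0, nat_lit 0, nat_lit 482200, nat_lit 0, nat_lit 0, [(nat_lit 12, [(nat_lit 1, nat_lit 83), (nat_lit 2, nat_lit 449)]), (nat_lit 15, [(nat_lit 1, nat_lit 83), (nat_lit 2, nat_lit 449)])],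
 ⟨p015_k0, nat_lit 0, nat_lit 0, nat_lit 292, nat_lit 0, nat_lit 0, [nat_lit 2756158000, nat_lit 4024793201, nat_lit 4692871200], [], [nat_lit 22833281758, nat_lit 25706387843, nat_lit 33420685146, nat_lit 35601236476], nat_lit 0, nat_lit 0, nat_lit 0, nat_lit 0, nat_lit 0, nat_lit 0, [], [nat_lit 8, nat_lit 40, nat_lit 80, nat_lit 80, nat_lit 1, nat_lit 317, nat_lit 100, nat_lit 9]⟩, ⟨p015_k1, nat_lit 0, nat_lit 0, nat_lit 348, nat_lit 0, nat_lit 0, [nat_lit 2193984000, nat_lit 3729024000, nat_lit 5556096000], [], [nat_lit 14289959963, nat_lit 15365996100, nat_lit 18866472476, nat_lit 19359575308], nat_lit 0, nat_lit 0, nat_lit 0, nat_lit 0, nat_lit 0, nat_lit 0, [], [nat_lit 21, nat_lit 40, nat_lit 80, nat_lit 80, nat_lit 14, nat_lit 401, nat_lit 175, nat_lit 11]⟩,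
 ⟨nat_lit 4472, nat_lit 5478, ⟨.ofNat (nat_lit 235487), .ofNat (nat_lit 917115), .ofNat (nat_lit 278138), .ofNat (nat_lit 959740), .ofNat (nat_lit 264421), .ofNat (nat_lit 882759), .ofNat (nat_lit 307491), .ofNat (nat_lit 925804)⟩, ⟨.ofNat (nat_lit 0), .ofNat (nat_lit 0), .ofNat (nat_lit 0), .ofNat (nat_lit 0), .ofNat (nat_lit 0), .ofNat (nat_lit 0), .ofNat (nat_lit 0), .ofNat (nat_lit 0)⟩⟩, []⟩
noncomputable def p015_l34 : Lf2 := ⟨nat_lit 0, nat_lit 10, [nat_lit 0, nat_lit 5, nat_lit 5, nat_lit 20], true, nat_lit 0, nat_lit 0, nat_lit 0, nat_lit 0, ⟨nat_lit 0, nat_lit 1000, nat_lit 0, nat_lit 6, nat_lit 181, nat_lit 0, nat_lit 0, nat_lit 0, nat_lit 0, nat_lit 0, nat_lit 0, nat_lit 0, nat_lit 0, nat_lit 0, nat_lit 0, nat_lit 5000000, false, false⟩,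
 nat_lit 0, nat_lit 0, nat_lit 0, nat_lit 0, nat_lit 4324, nat_lit 0, nat_lit 0, nat_lit 0, nat_lit 0, nat_lit 0, nat_lit 0, nat_lit 0, nat_lit 0, nat_lit 0, nat_lit 12, nat_lit 1000000, nat_lit 0, nat_lit 0, [(nat_lit 12, [(nat_lit 2, nat_lit 1000)]), (nat_lit 15, [(nat_lit 2, nat_lit 1000)])],
 ⟨p015_k2, nat_lit 0, nat_lit 0, nat_lit 288, nat_lit 0, nat_lit 0, [nat_lit 3710000001, nat_lit 51120000], [], [nat_lit 22883686276, nat_lit 24742795006, nat_lit 24116975010, nat_lit 25999435042], nat_lit 0, nat_lit 0, nat_lit 0, nat_lit 0, nat_lit 0, nat_lit 0, [], [nat_lit 82, nat_lit 40, nat_lit 80, nat_lit 80, nat_lit 63, nat_lit 272, nat_lit 60, nat_lit 8]⟩, C1.Rw.none,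
 ⟨nat_lit 4472, nat_lit 5478, ⟨.ofNat (nat_lit 235487), .ofNat (nat_lit 617523), .ofNat (nat_lit 278138), .ofNat (nat_lit 660148), .ofNat (nat_lit 264421), .ofNat (nat_lit 610987), .ofNat (nat_lit 307491), .ofNat (nat_lit 654031)⟩, ⟨.ofNat (nat_lit 0), .ofNat (nat_lit 0), .ofNat (nat_lit 0), .ofNat (nat_lit 0), .ofNat (nat_lit 0), .ofNat (nat_lit 0), .ofNat (nat_lit 0), .ofNat (nat_lit 0)⟩⟩, []⟩
noncomputable def p015_l35 : Lf2 := ⟨nat_lit 0, nat_lit 10, [nat_lit 0, nat_lit 5, nat_lit 5, nat_lit 20], true, nat_lit 0, nat_lit 0, nat_lit 0, nat_lit 0, ⟨nat_lit 0, nat_lit 1000, nat_lit 0, nat_lit 6, nat_lit 311, nat_lit 0, nat_lit 0, nat_lit 0, nat_lit 0, nat_lit 0, nat_lit 0, nat_lit 0, nat_lit 0, nat_lit 0, nat_lit 0, nat_lit 5000000, true, true⟩,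
 nat_lit 0, nat_lit 0, nat_lit 0, nat_lit 0, nat_lit 3893, nat_lit 0, nat_lit 0, nat_lit 0, nat_lit 0, nat_lit 0, nat_lit 0, nat_lit 0, nat_lit 0, nat_lit 0, nat_lit 0, nat_lit 250000, nat_lit 0, nat_lit 0, [(nat_lit 12, [(nat_lit 0, nat_lit 1000)]), (nat_lit 15, [(nat_lit 0, nat_lit 1000)])],
 ⟨p015_k2, nat_lit 0, nat_lit 0, nat_lit 200, nat_lit 0, nat_lit 0, [nat_lit 2378800001, nat_lit 3513428572], [], [nat_lit 26289361630, nat_lit 28095720854, nat_lit 33185855662, nat_lit 34585083772], nat_lit 0, nat_lit 0, nat_lit 0, nat_lit 0, nat_lit 0, nat_lit 0, [], [nat_lit 82, nat_lit 40, nat_lit 80, nat_lit 80, nat_lit 63, nat_lit 317, nat_lit 100, nat_lit 9]⟩, C1.Rw.none,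
 ⟨nat_lit 4472, nat_lit 5478, ⟨.ofNat (nat_lit 617523), .ofNat (nat_lit 917115), .ofNat (nat_lit 660148), .ofNat (nat_lit 959740), .ofNat (nat_lit 610987), .ofNat (nat_lit 882759), .ofNat (nat_lit 654031), .ofNat (nat_lit 925804)⟩, ⟨.ofNat (nat_lit 0), .ofNat (nat_lit 0), .ofNat (nat_lit 0), .ofNat (nat_lit 0), .ofNat (nat_lit 0), .ofNat (nat_lit 0), .ofNat (nat_lit 0), .ofNat (nat_lit 0)⟩⟩, []⟩
noncomputable def b_N_700_600_0_0 : St := ⟨false, nat_lit 0, nat_lit 2, nat_lit 0, nat_lit 40, nat_lit 280, nat_lit 320, nat_lit 240, nat_lit 280, nat_lit 36, nat_lit 400, nat_lit 0, nat_lit 0, nat_lit 0, nat_lit 0, nat_lit 0, nat_lit 0, nat_lit 0, nat_lit 40, nat_lit 0, nat_lit 0, nat_lit 0, nat_lit 0⟩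
theorem d_N_700_600_0_0 (h : EB TB.env) : Dead b_N_700_600_0_0 := chkB_sound0 h (T :=
(.gv
(.st (nat_lit 1)
(.leaf p015_l0)
(.spl (nat_lit 2) (nat_lit 240)
(.leaf p015_l1)
(.spl (nat_lit 2) (nat_lit 320)
(.spl (nat_lit 2) (nat_lit 280)
(.spl (nat_lit 0) (nat_lit 300)
(.leaf p015_l2)
(.leaf p015_l3))
(.spl (nat_lit 1) (nat_lit 260)
(.leaf p015_l4)
(.leaf p015_l5)))
(.spl (nat_lit 2) (nat_lit 360)
(.spl (nat_lit 1) (nat_lit 260)
(.spl (nat_lit 1) (nat_lit 250)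
(.leaf p015_l6)
(.spl (nat_lit 1) (nat_lit 255)
(.leaf p015_l7)
(.spl (nat_lit 0) (nat_lit 300)
(.leaf p015_l8)
(.leaf p015_l9))))
(.spl (nat_lit 0) (nat_lit 300)
(.spl (nat_lit 0) (nat_lit 290)
(.leaf p015_l10)
(.leaf p015_l11))
(.leaf p015_l12)))
(.spl (nat_lit 6) (nat_lit 20)
(.spl (nat_lit 0) (nat_lit 300)
(.leaf p015_l13)
(.leaf p015_l14))
(.spl (nat_lit 8) (nat_lit 800)
(.leaf p015_l15)
(.spl (nat_lit 7) (nat_lit 600)
(.spl (nat_lit 7) (nat_lit 300)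
(.spl (nat_lit 0) (nat_lit 300)
(.leaf p015_l16)
(.leaf p015_l17))
(.spl (nat_lit 0) (nat_lit 300)
(.spl (nat_lit 1) (nat_lit 260)
(.spl (nat_lit 6) (nat_lit 32)
(.spl (nat_lit 1) (nat_lit 250)
(.leaf p015_l18)
(.leaf p015_l19))
(.spl (nat_lit 1) (nat_lit 250)
(.spl (nat_lit 0) (nat_lit 290)
(.leaf p015_l20)
(.trX (nat_lit 13) (nat_lit 92) (nat_lit 22) (nat_lit 100) (nat_lit 396) (.leaf p015_l21)))
(.spl (nat_lit 0) (nat_lit 290)
(.leaf p015_l22)
(.leaf p015_l23))))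
(.spl (nat_lit 0) (nat_lit 290)
(.leaf p015_l24)
(.leaf p015_l25)))
(.spl (nat_lit 2) (nat_lit 380)
(.leaf p015_l26)
(.spl (nat_lit 1) (nat_lit 260)
(.trX (nat_lit 13) (nat_lit 91) (nat_lit 23) (nat_lit 100) (nat_lit 396) (.leaf p015_l27))
(.spl (nat_lit 1) (nat_lit 270)
(.spl (nat_lit 1) (nat_lit 265)
(.leaf p015_l28)
(.leaf p015_l29))
(.spl (nat_lit 0) (nat_lit 310)
(.leaf p015_l30)
(.leaf p015_l31)))))))
(.leaf p015_l32))))))))
(.st (nat_lit 1)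
(.leaf p015_l33)
(.spl (nat_lit 2) (nat_lit 240)
(.leaf p015_l34)
(.leaf p015_l35))))) (by decide +kernel)
noncomputable def p015_l36 : Lf2 := ⟨nat_lit 0, nat_lit 10, [nat_lit 0, nat_lit 5, nat_lit 5, nat_lit 20], false, nat_lit 0, nat_lit 0, nat_lit 0, nat_lit 0, ⟨nat_lit 284, nat_lit 0, nat_lit 716, nat_lit 6, nat_lit 120, nat_lit 0, nat_lit 0, nat_lit 0, nat_lit 0, nat_lit 215, nat_lit 135000, nat_lit 305, nat_lit 61469176, nat_lit 0, nat_lit 0, nat_lit 1424759, false, false⟩,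
 nat_lit 0, nat_lit 7072, nat_lit 0, nat_lit 0, nat_lit 4500, nat_lit 1764, nat_lit 160, nat_lit 0, nat_lit 0, nat_lit 437, nat_lit 0, nat_lit 0, nat_lit 0, nat_lit 0, nat_lit 48, nat_lit 716000, nat_lit 0, nat_lit 0, [(nat_lit 12, [(nat_lit 6, nat_lit 716)]), (nat_lit 15, [(nat_lit 6, nat_lit 716)])],
 ⟨p015_k0, nat_lit 0, nat_lit 0, nat_lit 0, nat_lit 0, nat_lit 731113, [nat_lit 2325187201, nat_lit 1927638401, nat_lit 376691200], [], [nat_lit 18016729601, nat_lit 21141770000, nat_lit 17198344406, nat_lit 19298821200], nat_lit 1271250, nat_lit 1271250, nat_lit 205650, nat_lit 490000, nat_lit 0, nat_lit 0, [nat_lit 780000, nat_lit 1435000, nat_lit 1271250], [nat_lit 8, nat_lit 40, nat_lit 80, nat_lit 80]⟩, ⟨p015_k1, nat_lit 0, nat_lit 0, nat_lit 0, nat_lit 0, nat_lit 0, [nat_lit 1331392000, nat_lit 2262912000, nat_lit 3371648000], [], [nat_lit 6898695409, nat_lit 7247238233, nat_lit 6295518012,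 nat_lit 6690147848], nat_lit 0, nat_lit 0, nat_lit 0, nat_lit 0, nat_lit 0, nat_lit 0, [], [nat_lit 21, nat_lit 40, nat_lit 80, nat_lit 80]⟩,
 ⟨nat_lit 4472, nat_lit 5478, ⟨.ofNat (nat_lit 235487), .ofNat (nat_lit 317898), .ofNat (nat_lit 256814), .ofNat (nat_lit 339222), .ofNat (nat_lit 264421), .ofNat (nat_lit 339182), .ofNat (nat_lit 285957), .ofNat (nat_lit 360715)⟩, ⟨.ofNat (nat_lit 0), .ofNat (nat_lit 0), .ofNat (nat_lit 0), .ofNat (nat_lit 0), .ofNat (nat_lit 0), .ofNat (nat_lit 0), .ofNat (nat_lit 0), .ofNat (nat_lit 0)⟩⟩, [⟨nat_lit 0, nat_lit 100, nat_lit 89, nat_lit 72, nat_lit 477269965⟩]⟩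
noncomputable def p015_l37 : Lf2 := ⟨nat_lit 0, nat_lit 10, [nat_lit 0, nat_lit 5, nat_lit 5, nat_lit 20], false, nat_lit 0, nat_lit 0, nat_lit 0, nat_lit 0, ⟨nat_lit 1000, nat_lit 0, nat_lit 0, nat_lit 0, nat_lit 0, nat_lit 0, nat_lit 0, nat_lit 0, nat_lit 0, nat_lit 0, nat_lit 0, nat_lit 0, nat_lit 0, nat_lit 0, nat_lit 0, nat_lit 0, false, false⟩,
 nat_lit 0, nat_lit 14030, nat_lit 0, nat_lit 0, nat_lit 8927, nat_lit 6892, nat_lit 1216, nat_lit 0, nat_lit 0, nat_lit 1531, nat_lit 0, nat_lit 0, nat_lit 0, nat_lit 0, nat_lit 0, nat_lit 0, nat_lit 0, nat_lit 0, [],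
 ⟨p015_k0, nat_lit 0, nat_lit 0, nat_lit 0, nat_lit 0, nat_lit 790795, [nat_lit 3282000000, nat_lit 6250000000, nat_lit 9842000000], [], [nat_lit 25925818886, nat_lit 30060986020, nat_lit 23997751508, nat_lit 27321787236], nat_lit 1271250, nat_lit 1271250, nat_lit 279600, nat_lit 490000, nat_lit 0, nat_lit 0, [nat_lit 780000, nat_lit 1435000, nat_lit 1271250], [nat_lit 8, nat_lit 40, nat_lit 80, nat_lit 80]⟩, ⟨p015_k5, nat_lit 0, nat_lit 0, nat_lit 0, nat_lit 0, nat_lit 0, [nat_lit 4688000000, nat_lit 7968000000, nat_lit 9842000000], [], [nat_lit 21908235505, nat_lit 23633544612, nat_lit 20265698832, nat_lit 21884984960], nat_lit 0, nat_lit 0, nat_lit 0, nat_lit 0, nat_lit 0, nat_lit 0, [], [nat_lit 29, nat_lit 40, nat_lit 80, nat_lit 80]⟩,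
 zbF0, [⟨nat_lit 0, nat_lit 100, nat_lit 96, nat_lit 69, nat_lit 1271059573⟩]⟩
noncomputable def p015_l38 : Lf2 := ⟨nat_lit 0, nat_lit 10, [nat_lit 0, nat_lit 5, nat_lit 5, nat_lit 20], false, nat_lit 0, nat_lit 0, nat_lit 0, nat_lit 0, ⟨nat_lit 1000, nat_lit 0, nat_lit 0, nat_lit 0, nat_lit 0, nat_lit 0, nat_lit 0, nat_lit 0, nat_lit 0, nat_lit 0, nat_lit 0, nat_lit 0, nat_lit 0, nat_lit 0, nat_lit 0, nat_lit 0, false, false⟩,
 nat_lit 0, nat_lit 0, nat_lit 0, nat_lit 0, nat_lit 0, nat_lit 7843, nat_lit 260, nat_lit 0, nat_lit 509, nat_lit 1863, nat_lit 0, nat_lit 0, nat_lit 0, nat_lit 0, nat_lit 0, nat_lit 0, nat_lit 0, nat_lit 0, [],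
 ⟨p015_k0, nat_lit 0, nat_lit 0, nat_lit 0, nat_lit 0, nat_lit 1607852, [nat_lit 3282000000, nat_lit 6250000000, nat_lit 9842000000], [], [nat_lit 10856592500, nat_lit 12123464500, nat_lit 11726432500, nat_lit 12959284500], nat_lit 1271250, nat_lit 1271250, nat_lit 490000, nat_lit 780000, nat_lit 0, nat_lit 0, [nat_lit 780000, nat_lit 1435000, nat_lit 1271250], [nat_lit 8, nat_lit 40, nat_lit 80, nat_lit 80]⟩, ⟨p015_k1, nat_lit 0, nat_lit 0, nat_lit 0, nat_lit 0, nat_lit 0, [nat_lit 4688000000, nat_lit 7968000000, nat_lit 11872000000], [], [nat_lit 19972412116, nat_lit 23706517732, nat_lit 20272979074, nat_lit 23726778640], nat_lit 0, nat_lit 0, nat_lit 0, nat_lit 0, nat_lit 0, nat_lit 0, [], [nat_lit 21, nat_lit 40, nat_lit 80, nat_lit 80]⟩,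
 zbF0, []⟩
noncomputable def p015_l39 : Lf2 := ⟨nat_lit 0, nat_lit 10, [nat_lit 0, nat_lit 5, nat_lit 5, nat_lit 20], false, nat_lit 0, nat_lit 0, nat_lit 0, nat_lit 0, ⟨nat_lit 1000, nat_lit 0, nat_lit 0, nat_lit 0, nat_lit 0, nat_lit 0, nat_lit 0, nat_lit 0, nat_lit 0, nat_lit 0, nat_lit 0, nat_lit 0, nat_lit 0, nat_lit 0, nat_lit 0, nat_lit 0, false, false⟩,
 nat_lit 0, nat_lit 0, nat_lit 0, nat_lit 0, nat_lit 0, nat_lit 7818, nat_lit 279, nat_lit 0, nat_lit 487, nat_lit 1773, nat_lit 0, nat_lit 0, nat_lit 0, nat_lit 0, nat_lit 0, nat_lit 0, nat_lit 0, nat_lit 0, [],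
 ⟨p015_k0, nat_lit 0, nat_lit 0, nat_lit 0, nat_lit 0, nat_lit 1607852, [nat_lit 3282000000, nat_lit 6250000000, nat_lit 9842000000], [], [nat_lit 13027395875, nat_lit 14199592000, nat_lit 20513012000, nat_lit 21273928000], nat_lit 1271250, nat_lit 1271250, nat_lit 780000, nat_lit 3072500, nat_lit 0, nat_lit 0, [nat_lit 780000, nat_lit 1435000, nat_lit 1271250], [nat_lit 8, nat_lit 40, nat_lit 80, nat_lit 80]⟩, ⟨p015_k1, nat_lit 0, nat_lit 0, nat_lit 0, nat_lit 0, nat_lit 0, [nat_lit 4688000000, nat_lit 7968000000, nat_lit 11872000000], [], [nat_lit 20307192836, nat_lit 23728316640, nat_lit 38868345112, nat_lit 40475615888], nat_lit 0, nat_lit 0, nat_lit 0, nat_lit 0, nat_lit 0, nat_lit 0, [], [nat_lit 21, nat_lit 40, nat_lit 80, nat_lit 80]⟩,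
 zbF0, []⟩
noncomputable def b_N_700_600_0_1 : St := ⟨false, nat_lit 1, nat_lit 0, nat_lit 1, nat_lit 40, nat_lit 280, nat_lit 320, nat_lit 240, nat_lit 280, nat_lit 36, nat_lit 400, nat_lit 0, nat_lit 0, nat_lit 0, nat_lit 0, nat_lit 0, nat_lit 0, nat_lit 0, nat_lit 40, nat_lit 0, nat_lit 600, nat_lit 0, nat_lit 800⟩
theorem d_N_700_600_0_1 (h : EB TB.env) : Dead b_N_700_600_0_1 := chkB_sound0 h (T :=
(.spl (nat_lit 2) (nat_lit 120)
(.spl (nat_lit 2) (nat_lit 80)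
(.spl (nat_lit 1) (nat_lit 260)
(.leaf p015_l36)
(.trZ (nat_lit 0) (nat_lit 100) (nat_lit 96) (nat_lit 69) (nat_lit 48) (.leaf p015_l37)))
(.leaf p015_l38))
(.leaf p015_l39))) (by decide +kernel)
noncomputable def p015_l40 : Lf2 := ⟨nat_lit 0, nat_lit 2, [nat_lit 10, nat_lit 5, nat_lit 5, nat_lit 20], false, nat_lit 0, nat_lit 0, nat_lit 0, nat_lit 0, ⟨nat_lit 1000, nat_lit 0, nat_lit 0, nat_lit 0, nat_lit 0, nat_lit 0, nat_lit 0, nat_lit 0, nat_lit 0, nat_lit 0, nat_lit 0, nat_lit 0, nat_lit 0, nat_lit 0, nat_lit 0, nat_lit 0, false, false⟩,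
 nat_lit 0, nat_lit 11644, nat_lit 0, nat_lit 0, nat_lit 7409, nat_lit 6878, nat_lit 0, nat_lit 0, nat_lit 0, nat_lit 0, nat_lit 0, nat_lit 0, nat_lit 0, nat_lit 0, nat_lit 0, nat_lit 0, nat_lit 0, nat_lit 0, [],
 ⟨p015_k25, nat_lit 0, nat_lit 0, nat_lit 520, nat_lit 0, nat_lit 960907, [nat_lit 3282000000, nat_lit 6250000000], [], [nat_lit 34433283416, nat_lit 34620148823, nat_lit 33948700560, nat_lit 34136934534], nat_lit 1271250, nat_lit 1271250, nat_lit 490000, nat_lit 1100001, nat_lit 0, nat_lit 0, [nat_lit 780000, nat_lit 1435000], [nat_lit 49, nat_lit 40, nat_lit 80, nat_lit 80, nat_lit 16, nat_lit 249, nat_lit 40, nat_lit 10]⟩, ⟨p015_k26, nat_lit 0, nat_lit 0, nat_lit 0, nat_lit 0, nat_lit 0, [nat_lit 4688000000, nat_lit 7968000000], [], [nat_lit 10957569856, nat_lit 12125857838, nat_lit 12274014632, nat_lit 13309393574], nat_lit 0, nat_lit 0, nat_lit 0, nat_lit 0, nat_lit 0, nat_lit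 0, [], [nat_lit 39, nat_lit 40, nat_lit 80, nat_lit 80]⟩,
 zbF0, []⟩
noncomputable def p015_l41 : Lf2 := ⟨nat_lit 0, nat_lit 2, [nat_lit 10, nat_lit 5, nat_lit 5, nat_lit 20], false, nat_lit 0, nat_lit 0, nat_lit 0, nat_lit 0, ⟨nat_lit 1000, nat_lit 0, nat_lit 0, nat_lit 0, nat_lit 0, nat_lit 0, nat_lit 0, nat_lit 0, nat_lit 0, nat_lit 0, nat_lit 0, nat_lit 0, nat_lit 0, nat_lit 0, nat_lit 0, nat_lit 0, false, false⟩,
 nat_lit 0, nat_lit 0, nat_lit 0, nat_lit 0, nat_lit 0, nat_lit 7075, nat_lit 0, nat_lit 0, nat_lit 0, nat_lit 0, nat_lit 0, nat_lit 0, nat_lit 0, nat_lit 0, nat_lit 0, nat_lit 0, nat_lit 0, nat_lit 0, [],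
 ⟨p015_k27, nat_lit 0, nat_lit 0, nat_lit 525, nat_lit 0, nat_lit 974289, [nat_lit 3282000000, nat_lit 6250000000], [], [nat_lit 52862421000, nat_lit 52994078000, nat_lit 54421945000, nat_lit 54547174000], nat_lit 1271250, nat_lit 1271250, nat_lit 490000, nat_lit 1100001, nat_lit 0, nat_lit 0, [nat_lit 780000, nat_lit 1435000], [nat_lit 49, nat_lit 40, nat_lit 80, nat_lit 80, nat_lit 16, nat_lit 249, nat_lit 40, nat_lit 10]⟩, ⟨p015_k26, nat_lit 0, nat_lit 0, nat_lit 0, nat_lit 0, nat_lit 0, [nat_lit 4688000000, nat_lit 7968000000], [], [nat_lit 10865423100, nat_lit 12247960275, nat_lit 12111695300, nat_lit 13165924975], nat_lit 0, nat_lit 0, nat_lit 0, nat_lit 0, nat_lit 0, nat_lit 0, [], [nat_lit 39, nat_lit 40, nat_lit 80, nat_lit 80]⟩,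
 zbF0, []⟩
noncomputable def p015_l42 : Lf2 := ⟨nat_lit 0, nat_lit 4, [nat_lit 38, nat_lit 5, nat_lit 5, nat_lit 20], false, nat_lit 0, nat_lit 0, nat_lit 0, nat_lit 0, ⟨nat_lit 1000, nat_lit 0, nat_lit 0, nat_lit 0, nat_lit 0, nat_lit 0, nat_lit 0, nat_lit 0, nat_lit 0, nat_lit 0, nat_lit 0, nat_lit 0, nat_lit 0, nat_lit 0, nat_lit 0, nat_lit 0, false, false⟩,
 nat_lit 0, nat_lit 17938, nat_lit 0, nat_lit 0, nat_lit 11415, nat_lit 6878, nat_lit 0, nat_lit 0, nat_lit 0, nat_lit 0, nat_lit 0, nat_lit 0, nat_lit 0, nat_lit 0, nat_lit 0, nat_lit 0, nat_lit 0, nat_lit 0, [],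
 ⟨p015_k28, nat_lit 0, nat_lit 0, nat_lit 469, nat_lit 0, nat_lit 875736, [nat_lit 3282000000, nat_lit 6250000000], [], [nat_lit 19845161540, nat_lit 20374963960, nat_lit 19544768920, nat_lit 19216493450], nat_lit 1271250, nat_lit 1271250, nat_lit 490000, nat_lit 1100001, nat_lit 0, nat_lit 0, [nat_lit 780000, nat_lit 1435000], [nat_lit 49, nat_lit 40, nat_lit 80, nat_lit 80, nat_lit 16, nat_lit 249, nat_lit 40, nat_lit 10]⟩, ⟨p015_k29, nat_lit 0, nat_lit 0, nat_lit 0, nat_lit 0, nat_lit 0, [nat_lit 4688000000, nat_lit 7968000000], [], [nat_lit 10957569856, nat_lit 12125857838, nat_lit 12274014632, nat_lit 13309393574], nat_lit 0, nat_lit 0, nat_lit 0, nat_lit 0, nat_lit 0, nat_lit 0, [], [nat_lit 39, nat_lit 40, nat_lit 80, nat_lit 80]⟩,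
 zbF0, []⟩
noncomputable def p015_l43 : Lf2 := ⟨nat_lit 0, nat_lit 5, [nat_lit 4, nat_lit 5, nat_lit 5, nat_lit 20], false, nat_lit 0, nat_lit 0, nat_lit 0, nat_lit 0, ⟨nat_lit 361, nat_lit 0, nat_lit 639, nat_lit 6, nat_lit 159, nat_lit 0, nat_lit 0, nat_lit 0, nat_lit 0, nat_lit 215, nat_lit 84476, nat_lit 286, nat_lit 57901219, nat_lit 0, nat_lit 0, nat_lit 1986350, false, false⟩,
 nat_lit 0, nat_lit 9246, nat_lit 0, nat_lit 0, nat_lit 5883, nat_lit 6468, nat_lit 0, nat_lit 0, nat_lit 0, nat_lit 935, nat_lit 0, nat_lit 0, nat_lit 0, nat_lit 0, nat_lit 0, nat_lit 639000, nat_lit 0, nat_lit 0, [(nat_lit 12, [(nat_lit 6, nat_lit 639)])],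
 ⟨p015_k10, nat_lit 0, nat_lit 0, nat_lit 484, nat_lit 0, nat_lit 688860, [nat_lit 1914028801, nat_lit 1535713600, nat_lit 392271600], [], [nat_lit 16256379512, nat_lit 16487377487, nat_lit 19664831256, nat_lit 18990092337], nat_lit 1271250, nat_lit 1271250, nat_lit 490000, nat_lit 1100001, nat_lit 0, nat_lit 0, [nat_lit 780000, nat_lit 1435000, nat_lit 1271250], [nat_lit 18, nat_lit 40, nat_lit 80, nat_lit 80, nat_lit 2, nat_lit 249, nat_lit 40, nat_lit 8]⟩, ⟨p015_k30, nat_lit 0, nat_lit 0, nat_lit 0, nat_lit 0, nat_lit 0, [nat_lit 1692368000, nat_lit 2876448000, nat_lit 3552962000], [], [nat_lit 6053610640, nat_lit 6351507812, nat_lit 5492747508, nat_lit 5794293857], nat_lit 0, nat_lit 0, nat_lit 0, nat_lit 0, nat_lit 0, nat_lit 0, [], [nat_lit 29, nat_lit 40, nat_lit 80, nat_lit 80]⟩,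
 ⟨nat_lit 5361, nat_lit 5478, ⟨.ofNat (nat_lit 317913), .ofNat (nat_lit 467779), .ofNat (nat_lit 323253), .ofNat (nat_lit 473119), .ofNat (nat_lit 320589), .ofNat (nat_lit 468688), .ofNat (nat_lit 325932), .ofNat (nat_lit 474030)⟩, ⟨.ofNat (nat_lit 0), .ofNat (nat_lit 0), .ofNat (nat_lit 0), .ofNat (nat_lit 0), .ofNat (nat_lit 0), .ofNat (nat_lit 0), .ofNat (nat_lit 0), .ofNat (nat_lit 0)⟩⟩, []⟩
noncomputable def p015_l44 : Lf2 := ⟨nat_lit 0, nat_lit 5, [nat_lit 4, nat_lit 5, nat_lit 5, nat_lit 20], false, nat_lit 0, nat_lit 0, nat_lit 0, nat_lit 0, ⟨nat_lit 363, nat_lit 0, nat_lit 637, nat_lit 6, nat_lit 160, nat_lit 0, nat_lit 0, nat_lit 0, nat_lit 0, nat_lit 215, nat_lit 78293, nat_lit 283, nat_lit 57745613, nat_lit 0, nat_lit 0, nat_lit 2007725, false, false⟩,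
 nat_lit 0, nat_lit 8468, nat_lit 0, nat_lit 0, nat_lit 5388, nat_lit 5933, nat_lit 0, nat_lit 0, nat_lit 0, nat_lit 906, nat_lit 0, nat_lit 0, nat_lit 0, nat_lit 0, nat_lit 0, nat_lit 637000, nat_lit 0, nat_lit 0, [(nat_lit 12, [(nat_lit 6, nat_lit 637)])],
 ⟨p015_k10, nat_lit 0, nat_lit 0, nat_lit 486, nat_lit 0, nat_lit 693400, [nat_lit 1918310401, nat_lit 1550468800, nat_lit 415982800], [], [nat_lit 17692522017, nat_lit 17821070527, nat_lit 20985077076, nat_lit 20614297546], nat_lit 1271250, nat_lit 1271250, nat_lit 490000, nat_lit 1100001, nat_lit 0, nat_lit 0, [nat_lit 780000, nat_lit 1435000, nat_lit 1271250], [nat_lit 18, nat_lit 40, nat_lit 80, nat_lit 80, nat_lit 2, nat_lit 249, nat_lit 40, nat_lit 8]⟩, ⟨p015_k31, nat_lit 0, nat_lit 0, nat_lit 0, nat_lit 0, nat_lit 0, [nat_lit 1701744000, nat_lit 2892384000, nat_lit 3572646000], [], [nat_lit 6183956046, nat_lit 6351252001, nat_lit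 5710759408, nat_lit 5880034545], nat_lit 0, nat_lit 0, nat_lit 0, nat_lit 0, nat_lit 0, nat_lit 0, [], [nat_lit 29, nat_lit 40, nat_lit 80, nat_lit 80]⟩,
 ⟨nat_lit 5408, nat_lit 5478, ⟨.ofNat (nat_lit 323253), .ofNat (nat_lit 473119), .ofNat (nat_lit 326456), .ofNat (nat_lit 476322), .ofNat (nat_lit 324861), .ofNat (nat_lit 473665), .ofNat (nat_lit 328066), .ofNat (nat_lit 476870)⟩, ⟨.ofNat (nat_lit 0), .ofNat (nat_lit 0), .ofNat (nat_lit 0), .ofNat (nat_lit 0), .ofNat (nat_lit 0), .ofNat (nat_lit 0), .ofNat (nat_lit 0), .ofNat (nat_lit 0)⟩⟩, []⟩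
noncomputable def p015_l45 : Lf2 := ⟨nat_lit 0, nat_lit 5, [nat_lit 4, nat_lit 5, nat_lit 5, nat_lit 20], false, nat_lit 0, nat_lit 0, nat_lit 0, nat_lit 0, ⟨nat_lit 1000, nat_lit 0, nat_lit 0, nat_lit 0, nat_lit 0, nat_lit 0, nat_lit 0, nat_lit 0, nat_lit 0, nat_lit 0, nat_lit 0, nat_lit 0, nat_lit 0, nat_lit 0, nat_lit 0, nat_lit 0, false, false⟩,
 nat_lit 0, nat_lit 11460, nat_lit 0, nat_lit 0, nat_lit 7292, nat_lit 15412, nat_lit 804, nat_lit 0, nat_lit 0, nat_lit 2442, nat_lit 0, nat_lit 0, nat_lit 0, nat_lit 0, nat_lit 0, nat_lit 0, nat_lit 0, nat_lit 0, [],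
 ⟨p015_k10, nat_lit 0, nat_lit 0, nat_lit 488, nat_lit 0, nat_lit 699509, [nat_lit 3282000000, nat_lit 6250000000, nat_lit 7968000000], [], [nat_lit 31173261344, nat_lit 31272566648, nat_lit 30987601632, nat_lit 31086408705], nat_lit 1271250, nat_lit 1271250, nat_lit 490000, nat_lit 1100001, nat_lit 0, nat_lit 0, [nat_lit 780000, nat_lit 1435000, nat_lit 1271250], [nat_lit 18, nat_lit 40, nat_lit 80, nat_lit 80, nat_lit 2, nat_lit 249, nat_lit 40, nat_lit 8]⟩, ⟨p015_k32, nat_lit 0, nat_lit 0, nat_lit 0, nat_lit 0, nat_lit 0, [nat_lit 4688000000, nat_lit 7968000000, nat_lit 9842000000], [], [nat_lit 17140211319, nat_lit 17435039476, nat_lit 15986186709, nat_lit 16283288704], nat_lit 0, nat_lit 0, nat_lit 0, nat_lit 0, nat_lit 0, nat_lit 0, [], [nat_lit 29, nat_lit 40, nat_lit 80, nat_lit 80]⟩,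
 zbF0, []⟩
noncomputable def p015_l46 : Lf2 := ⟨nat_lit 0, nat_lit 5, [nat_lit 4, nat_lit 5, nat_lit 5, nat_lit 20], false, nat_lit 0, nat_lit 0, nat_lit 0, nat_lit 0, ⟨nat_lit 1000, nat_lit 0, nat_lit 0, nat_lit 0, nat_lit 0, nat_lit 0, nat_lit 0, nat_lit 0, nat_lit 0, nat_lit 0, nat_lit 0, nat_lit 0, nat_lit 0, nat_lit 0, nat_lit 0, nat_lit 0, false, false⟩,
 nat_lit 0, nat_lit 11347, nat_lit 0, nat_lit 0, nat_lit 7283, nat_lit 15412, nat_lit 811, nat_lit 0, nat_lit 0, nat_lit 2442, nat_lit 0, nat_lit 0, nat_lit 0, nat_lit 0, nat_lit 0, nat_lit 0, nat_lit 0, nat_lit 0, [],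
 ⟨p015_k33, nat_lit 0, nat_lit 0, nat_lit 488, nat_lit 0, nat_lit 699701, [nat_lit 3282000000, nat_lit 6250000000, nat_lit 7968000000], [], [nat_lit 30765746919, nat_lit 30816000997, nat_lit 30576323801, nat_lit 30625697667], nat_lit 1271250, nat_lit 1271250, nat_lit 490000, nat_lit 1100001, nat_lit 0, nat_lit 0, [nat_lit 780000, nat_lit 1435000, nat_lit 1271250], [nat_lit 18, nat_lit 40, nat_lit 80, nat_lit 80, nat_lit 2, nat_lit 249, nat_lit 40, nat_lit 8]⟩, ⟨p015_k32, nat_lit 0, nat_lit 0, nat_lit 0, nat_lit 0, nat_lit 0, [nat_lit 4688000000, nat_lit 7968000000, nat_lit 9842000000], [], [nat_lit 17140211319, nat_lit 17435039476, nat_lit 15986186709, nat_lit 16283288704], nat_lit 0, nat_lit 0, nat_lit 0, nat_lit 0, nat_lit 0, nat_lit 0, [], [nat_lit 29, nat_lit 40, nat_lit 80, nat_lit 80]⟩,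
 zbF0, []⟩
noncomputable def p015_l47 : Lf2 := ⟨nat_lit 0, nat_lit 5, [nat_lit 4, nat_lit 5, nat_lit 5, nat_lit 20], false, nat_lit 0, nat_lit 0, nat_lit 0, nat_lit 0, ⟨nat_lit 1000, nat_lit 0, nat_lit 0, nat_lit 0, nat_lit 0, nat_lit 0, nat_lit 0, nat_lit 0, nat_lit 0, nat_lit 0, nat_lit 0, nat_lit 0, nat_lit 0, nat_lit 0, nat_lit 0, nat_lit 0, false, false⟩,
 nat_lit 0, nat_lit 11269, nat_lit 0, nat_lit 0, nat_lit 7264, nat_lit 16163, nat_lit 816, nat_lit 0, nat_lit 0, nat_lit 2465, nat_lit 0, nat_lit 0, nat_lit 0, nat_lit 0, nat_lit 0, nat_lit 0, nat_lit 0, nat_lit 0, [],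
 ⟨p015_k34, nat_lit 0, nat_lit 0, nat_lit 494, nat_lit 0, nat_lit 712152, [nat_lit 3282000000, nat_lit 6250000000, nat_lit 7968000000], [], [nat_lit 30561813097, nat_lit 30660631496, nat_lit 30363550231, nat_lit 30462172688], nat_lit 1271250, nat_lit 1271250, nat_lit 490000, nat_lit 1100001, nat_lit 0, nat_lit 0, [nat_lit 780000, nat_lit 1435000, nat_lit 1271250], [nat_lit 18, nat_lit 40, nat_lit 80, nat_lit 80, nat_lit 2, nat_lit 249, nat_lit 40, nat_lit 8]⟩, ⟨p015_k31, nat_lit 0, nat_lit 0, nat_lit 0, nat_lit 0, nat_lit 0, [nat_lit 4688000000, nat_lit 7968000000, nat_lit 9842000000], [], [nat_lit 17139674231, nat_lit 17901650999, nat_lit 15824855009, nat_lit 16595358696], nat_lit 0, nat_lit 0, nat_lit 0, nat_lit 0, nat_lit 0, nat_lit 0, [], [nat_lit 29, nat_lit 40, nat_lit 80, nat_lit 80]⟩,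
 zbF0, []⟩
noncomputable def p015_l48 : Lf2 := ⟨nat_lit 0, nat_lit 5, [nat_lit 4, nat_lit 5, nat_lit 5, nat_lit 20], false, nat_lit 0, nat_lit 0, nat_lit 0, nat_lit 0, ⟨nat_lit 1000, nat_lit 0, nat_lit 0, nat_lit 0, nat_lit 0, nat_lit 0, nat_lit 0, nat_lit 0, nat_lit 0, nat_lit 0, nat_lit 0, nat_lit 0, nat_lit 0, nat_lit 0, nat_lit 0, nat_lit 0, false, false⟩,
 nat_lit 0, nat_lit 15830, nat_lit 0, nat_lit 0, nat_lit 10292, nat_lit 17930, nat_lit 2573, nat_lit 0, nat_lit 0, nat_lit 2592, nat_lit 0, nat_lit 0, nat_lit 0, nat_lit 0, nat_lit 0, nat_lit 0, nat_lit 0, nat_lit 0, [],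
 ⟨p015_k35, nat_lit 0, nat_lit 0, nat_lit 494, nat_lit 0, nat_lit 711276, [nat_lit 3282000000, nat_lit 6250000000, nat_lit 7968000000], [], [nat_lit 18267980990, nat_lit 18607762616, nat_lit 18360532420, nat_lit 17951672235], nat_lit 1271250, nat_lit 1271250, nat_lit 490000, nat_lit 1100001, nat_lit 0, nat_lit 0, [nat_lit 780000, nat_lit 1435000, nat_lit 1271250], [nat_lit 18, nat_lit 40, nat_lit 80, nat_lit 80, nat_lit 2, nat_lit 249, nat_lit 40, nat_lit 8]⟩, ⟨p015_k30, nat_lit 0, nat_lit 0, nat_lit 0, nat_lit 0, nat_lit 0, [nat_lit 4688000000, nat_lit 7968000000, nat_lit 9842000000], [], [nat_lit 16762623320, nat_lit 17589507735, nat_lit 15209088920, nat_lit 16044881490], nat_lit 0, nat_lit 0, nat_lit 0, nat_lit 0, nat_lit 0, nat_lit 0, [], [nat_lit 29, nat_lit 40, nat_lit 80, nat_lit 80]⟩,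
 zbF0, []⟩
noncomputable def p015_l49 : Lf2 := ⟨nat_lit 0, nat_lit 5, [nat_lit 4, nat_lit 5, nat_lit 5, nat_lit 20], false, nat_lit 0, nat_lit 0, nat_lit 0, nat_lit 0, ⟨nat_lit 1000, nat_lit 0, nat_lit 0, nat_lit 0, nat_lit 0, nat_lit 0, nat_lit 0, nat_lit 0, nat_lit 0, nat_lit 0, nat_lit 0, nat_lit 0, nat_lit 0, nat_lit 0, nat_lit 0, nat_lit 0, false, false⟩,
 nat_lit 0, nat_lit 11130, nat_lit 0, nat_lit 0, nat_lit 7236, nat_lit 16163, nat_lit 1101, nat_lit 0, nat_lit 0, nat_lit 2465, nat_lit 0, nat_lit 0, nat_lit 0, nat_lit 0, nat_lit 0, nat_lit 0, nat_lit 0, nat_lit 0, [],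
 ⟨p015_k35, nat_lit 0, nat_lit 0, nat_lit 501, nat_lit 0, nat_lit 729002, [nat_lit 3282000000, nat_lit 6250000000, nat_lit 7968000000], [], [nat_lit 29536332304, nat_lit 29683156056, nat_lit 29325188562, nat_lit 29472845326], nat_lit 1271250, nat_lit 1271250, nat_lit 490000, nat_lit 1100001, nat_lit 0, nat_lit 0, [nat_lit 780000, nat_lit 1435000, nat_lit 1271250], [nat_lit 18, nat_lit 40, nat_lit 80, nat_lit 80, nat_lit 2, nat_lit 249, nat_lit 40, nat_lit 8]⟩, ⟨p015_k31, nat_lit 0, nat_lit 0, nat_lit 0, nat_lit 0, nat_lit 0, [nat_lit 4688000000, nat_lit 7968000000, nat_lit 9842000000], [], [nat_lit 17139674231, nat_lit 17901650999, nat_lit 15824855009, nat_lit 16595358696], nat_lit 0, nat_lit 0, nat_lit 0, nat_lit 0, nat_lit 0, nat_lit 0, [], [nat_lit 29, nat_lit 40, nat_lit 80, nat_lit 80]⟩,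
 zbF0, []⟩
noncomputable def p015_l50 : Lf2 := ⟨nat_lit 0, nat_lit 5, [nat_lit 4, nat_lit 5, nat_lit 5, nat_lit 20], false, nat_lit 0, nat_lit 0, nat_lit 0, nat_lit 0, ⟨nat_lit 1000, nat_lit 0, nat_lit 0, nat_lit 0, nat_lit 0, nat_lit 0, nat_lit 0, nat_lit 0, nat_lit 0, nat_lit 0, nat_lit 0, nat_lit 0, nat_lit 0, nat_lit 0, nat_lit 0, nat_lit 0, false, false⟩,
 nat_lit 0, nat_lit 10924, nat_lit 0, nat_lit 0, nat_lit 7193, nat_lit 16163, nat_lit 5709, nat_lit 0, nat_lit 0, nat_lit 2465, nat_lit 0, nat_lit 0, nat_lit 0, nat_lit 0, nat_lit 0, nat_lit 0, nat_lit 0, nat_lit 0, [],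
 ⟨p015_k36, nat_lit 0, nat_lit 0, nat_lit 415, nat_lit 0, nat_lit 733060, [nat_lit 3282000000, nat_lit 6250000000], [], [nat_lit 15254774441, nat_lit 15367699849, nat_lit 20875344544, nat_lit 20545349844], nat_lit 1271250, nat_lit 1271250, nat_lit 490000, nat_lit 1100001, nat_lit 0, nat_lit 0, [nat_lit 780000, nat_lit 1435000], [nat_lit 49, nat_lit 40, nat_lit 80, nat_lit 80, nat_lit 16, nat_lit 249, nat_lit 40, nat_lit 10]⟩, ⟨p015_k31, nat_lit 0, nat_lit 0, nat_lit 0, nat_lit 0, nat_lit 0, [nat_lit 4688000000, nat_lit 7968000000, nat_lit 9842000000], [], [nat_lit 17139674231, nat_lit 17901650999, nat_lit 15824855009, nat_lit 16595358696], nat_lit 0, nat_lit 0, nat_lit 0, nat_lit 0, nat_lit 0, nat_lit 0, [], [nat_lit 29, nat_lit 40, nat_lit 80, nat_lit 80]⟩,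
 zbF0, []⟩
noncomputable def p015_l51 : Lf2 := ⟨nat_lit 0, nat_lit 1, [nat_lit 19, nat_lit 5, nat_lit 5, nat_lit 20], false, nat_lit 0, nat_lit 0, nat_lit 0, nat_lit 0, ⟨nat_lit 1000, nat_lit 0, nat_lit 0, nat_lit 0, nat_lit 0, nat_lit 0, nat_lit 0, nat_lit 0, nat_lit 0, nat_lit 0, nat_lit 0, nat_lit 0, nat_lit 0, nat_lit 0, nat_lit 0, nat_lit 0, false, false⟩,
 nat_lit 0, nat_lit 13314, nat_lit 0, nat_lit 0, nat_lit 8472, nat_lit 6725, nat_lit 0, nat_lit 0, nat_lit 0, nat_lit 0, nat_lit 0, nat_lit 0, nat_lit 0, nat_lit 0, nat_lit 0, nat_lit 0, nat_lit 0, nat_lit 0, [],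
 ⟨p015_k37, nat_lit 0, nat_lit 0, nat_lit 458, nat_lit 0, nat_lit 1032703, [nat_lit 3282000000, nat_lit 4688000000], [], [nat_lit 19251311776, nat_lit 19509369436, nat_lit 19210469536, nat_lit 19511074836], nat_lit 1271250, nat_lit 1271250, nat_lit 490000, nat_lit 1100001, nat_lit 0, nat_lit 0, [nat_lit 780000, nat_lit 1100000], [nat_lit 40, nat_lit 40, nat_lit 80, nat_lit 80, nat_lit 22, nat_lit 249, nat_lit 40, nat_lit 12]⟩, ⟨p015_k38, nat_lit 0, nat_lit 0, nat_lit 0, nat_lit 0, nat_lit 0, [nat_lit 4688000000, nat_lit 6250000000], [], [nat_lit 12215619725, nat_lit 13366868250, nat_lit 13420818425, nat_lit 14441556950], nat_lit 0, nat_lit 0, nat_lit 0, nat_lit 0, nat_lit 0, nat_lit 0, [], [nat_lit 31, nat_lit 40, nat_lit 80, nat_lit 80]⟩,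
 zbF0, []⟩
noncomputable def p015_l52 : Lf2 := ⟨nat_lit 0, nat_lit 2, [nat_lit 10, nat_lit 5, nat_lit 5, nat_lit 20], false, nat_lit 0, nat_lit 0, nat_lit 0, nat_lit 0, ⟨nat_lit 1000, nat_lit 0, nat_lit 0, nat_lit 0, nat_lit 0, nat_lit 0, nat_lit 0, nat_lit 0, nat_lit 0, nat_lit 0, nat_lit 0, nat_lit 0, nat_lit 0, nat_lit 0, nat_lit 0, nat_lit 0, false, false⟩,
 nat_lit 0, nat_lit 11681, nat_lit 0, nat_lit 0, nat_lit 7433, nat_lit 6725, nat_lit 0, nat_lit 0, nat_lit 0, nat_lit 0, nat_lit 0, nat_lit 0, nat_lit 0, nat_lit 0, nat_lit 0, nat_lit 0, nat_lit 0, nat_lit 0, [],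
 ⟨p015_k25, nat_lit 0, nat_lit 0, nat_lit 512, nat_lit 0, nat_lit 939838, [nat_lit 3282000000, nat_lit 6250000000], [], [nat_lit 34329565592, nat_lit 34404407976, nat_lit 33855336720, nat_lit 33930726708], nat_lit 1271250, nat_lit 1271250, nat_lit 490000, nat_lit 1100001, nat_lit 0, nat_lit 0, [nat_lit 780000, nat_lit 1435000], [nat_lit 49, nat_lit 40, nat_lit 80, nat_lit 80, nat_lit 16, nat_lit 249, nat_lit 40, nat_lit 10]⟩, ⟨p015_k39, nat_lit 0, nat_lit 0, nat_lit 0, nat_lit 0, nat_lit 0, [nat_lit 4688000000, nat_lit 7968000000], [], [nat_lit 12215619725, nat_lit 13366868250, nat_lit 13420818425, nat_lit 14441556950], nat_lit 0, nat_lit 0, nat_lit 0, nat_lit 0, nat_lit 0, nat_lit 0, [], [nat_lit 39, nat_lit 40, nat_lit 80, nat_lit 80]⟩,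
 zbF0, []⟩
noncomputable def p015_l53 : Lf2 := ⟨nat_lit 0, nat_lit 2, [nat_lit 10, nat_lit 5, nat_lit 5, nat_lit 20], false, nat_lit 0, nat_lit 0, nat_lit 0, nat_lit 0, ⟨nat_lit 1000, nat_lit 0, nat_lit 0, nat_lit 0, nat_lit 0, nat_lit 0, nat_lit 0, nat_lit 0, nat_lit 0, nat_lit 0, nat_lit 0, nat_lit 0, nat_lit 0, nat_lit 0, nat_lit 0, nat_lit 0, false, false⟩,
 nat_lit 0, nat_lit 11627, nat_lit 0, nat_lit 0, nat_lit 7463, nat_lit 6725, nat_lit 21051, nat_lit 0, nat_lit 0, nat_lit 0, nat_lit 0, nat_lit 0, nat_lit 0, nat_lit 0, nat_lit 0, nat_lit 0, nat_lit 0, nat_lit 0, [],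
 ⟨p015_k40, nat_lit 0, nat_lit 0, nat_lit 511, nat_lit 0, nat_lit 936919, [nat_lit 3282000000, nat_lit 6250000000], [], [nat_lit 16862498758, nat_lit 16905666559, nat_lit 21909694554, nat_lit 21738503782], nat_lit 1271250, nat_lit 1271250, nat_lit 490000, nat_lit 1100001, nat_lit 0, nat_lit 0, [nat_lit 780000, nat_lit 1435000], [nat_lit 49, nat_lit 40, nat_lit 80, nat_lit 80, nat_lit 16, nat_lit 249, nat_lit 40, nat_lit 10]⟩, ⟨p015_k39, nat_lit 0, nat_lit 0, nat_lit 0, nat_lit 0, nat_lit 0, [nat_lit 4688000000, nat_lit 7968000000], [], [nat_lit 12215619725, nat_lit 13366868250, nat_lit 13420818425, nat_lit 14441556950], nat_lit 0, nat_lit 0, nat_lit 0, nat_lit 0, nat_lit 0, nat_lit 0, [], [nat_lit 39, nat_lit 40, nat_lit 80, nat_lit 80]⟩,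
 zbF0, []⟩
noncomputable def p015_l54 : Lf2 := ⟨nat_lit 0, nat_lit 2, [nat_lit 10, nat_lit 5, nat_lit 5, nat_lit 20], false, nat_lit 0, nat_lit 0, nat_lit 0, nat_lit 0, ⟨nat_lit 1000, nat_lit 0, nat_lit 0, nat_lit 0, nat_lit 0, nat_lit 0, nat_lit 0, nat_lit 0, nat_lit 0, nat_lit 0, nat_lit 0, nat_lit 0, nat_lit 0, nat_lit 0, nat_lit 0, nat_lit 0, false, false⟩,
 nat_lit 0, nat_lit 11566, nat_lit 0, nat_lit 0, nat_lit 7455, nat_lit 6725, nat_lit 14277, nat_lit 0, nat_lit 0, nat_lit 0, nat_lit 0, nat_lit 0, nat_lit 0, nat_lit 0, nat_lit 0, nat_lit 0, nat_lit 0, nat_lit 0, [],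
 ⟨p015_k41, nat_lit 0, nat_lit 0, nat_lit 515, nat_lit 0, nat_lit 947331, [nat_lit 3282000000, nat_lit 6250000000], [], [nat_lit 15896890693, nat_lit 15997435675, nat_lit 21498735731, nat_lit 21156721205], nat_lit 1271250, nat_lit 1271250, nat_lit 490000, nat_lit 1100001, nat_lit 0, nat_lit 0, [nat_lit 780000, nat_lit 1435000], [nat_lit 49, nat_lit 40, nat_lit 80, nat_lit 80, nat_lit 16, nat_lit 249, nat_lit 40, nat_lit 10]⟩, ⟨p015_k39, nat_lit 0, nat_lit 0, nat_lit 0, nat_lit 0, nat_lit 0, [nat_lit 4688000000, nat_lit 7968000000], [], [nat_lit 12215619725, nat_lit 13366868250, nat_lit 13420818425, nat_lit 14441556950], nat_lit 0, nat_lit 0, nat_lit 0, nat_lit 0, nat_lit 0, nat_lit 0, [], [nat_lit 39, nat_lit 40, nat_lit 80, nat_lit 80]⟩,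
 zbF0, []⟩
noncomputable def p015_l55 : Lf2 := ⟨nat_lit 0, nat_lit 5, [nat_lit 4, nat_lit 5, nat_lit 5, nat_lit 20], false, nat_lit 0, nat_lit 0, nat_lit 0, nat_lit 0, ⟨nat_lit 1000, nat_lit 0, nat_lit 0, nat_lit 0, nat_lit 0, nat_lit 0, nat_lit 0, nat_lit 0, nat_lit 0, nat_lit 0, nat_lit 0, nat_lit 0, nat_lit 0, nat_lit 0, nat_lit 0, nat_lit 0, false, false⟩,
 nat_lit 0, nat_lit 11644, nat_lit 0, nat_lit 0, nat_lit 7409, nat_lit 6725, nat_lit 705, nat_lit 0, nat_lit 0, nat_lit 0, nat_lit 0, nat_lit 0, nat_lit 0, nat_lit 0, nat_lit 0, nat_lit 0, nat_lit 0, nat_lit 0, [],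
 ⟨p015_k10, nat_lit 0, nat_lit 0, nat_lit 580, nat_lit 0, nat_lit 922781, [nat_lit 3282000000, nat_lit 6250000000, nat_lit 7968000000], [], [nat_lit 34433283416, nat_lit 34620148823, nat_lit 33948700560, nat_lit 34136934534], nat_lit 1271250, nat_lit 1271250, nat_lit 490000, nat_lit 1100001, nat_lit 0, nat_lit 0, [nat_lit 780000, nat_lit 1435000, nat_lit 1271250], [nat_lit 18, nat_lit 40, nat_lit 80, nat_lit 80, nat_lit 2, nat_lit 249, nat_lit 40, nat_lit 8]⟩, ⟨p015_k42, nat_lit 0, nat_lit 0, nat_lit 0, nat_lit 0, nat_lit 0, [nat_lit 4688000000, nat_lit 7968000000], [], [nat_lit 12215619725, nat_lit 13366868250, nat_lit 13420818425, nat_lit 14441556950], nat_lit 0, nat_lit 0, nat_lit 0, nat_lit 0, nat_lit 0, nat_lit 0, [], [nat_lit 39, nat_lit 40, nat_lit 80, nat_lit 80]⟩,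
 zbF0, []⟩
noncomputable def p015_l56 : Lf2 := ⟨nat_lit 0, nat_lit 5, [nat_lit 4, nat_lit 5, nat_lit 5, nat_lit 20], false, nat_lit 0, nat_lit 0, nat_lit 0, nat_lit 0, ⟨nat_lit 1000, nat_lit 0, nat_lit 0, nat_lit 0, nat_lit 0, nat_lit 0, nat_lit 0, nat_lit 0, nat_lit 0, nat_lit 0, nat_lit 0, nat_lit 0, nat_lit 0, nat_lit 0, nat_lit 0, nat_lit 0, false, false⟩,
 nat_lit 0, nat_lit 11613, nat_lit 0, nat_lit 0, nat_lit 7550, nat_lit 6725, nat_lit 7027, nat_lit 0, nat_lit 0, nat_lit 0, nat_lit 0, nat_lit 0, nat_lit 0, nat_lit 0, nat_lit 0, nat_lit 0, nat_lit 0, nat_lit 0, [],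
 ⟨p015_k35, nat_lit 0, nat_lit 0, nat_lit 660, nat_lit 0, nat_lit 1076340, [nat_lit 3282000000, nat_lit 6250000000, nat_lit 7968000000], [], [nat_lit 17555481475, nat_lit 17745787650, nat_lit 21330410425, nat_lit 20464478275], nat_lit 1271250, nat_lit 1271250, nat_lit 490000, nat_lit 1100001, nat_lit 0, nat_lit 0, [nat_lit 780000, nat_lit 1435000, nat_lit 1271250], [nat_lit 18, nat_lit 40, nat_lit 80, nat_lit 80, nat_lit 2, nat_lit 249, nat_lit 40, nat_lit 8]⟩, ⟨p015_k42, nat_lit 0, nat_lit 0, nat_lit 0, nat_lit 0, nat_lit 0, [nat_lit 4688000000, nat_lit 7968000000], [], [nat_lit 12215619725, nat_lit 13366868250, nat_lit 13420818425, nat_lit 14441556950], nat_lit 0, nat_lit 0, nat_lit 0, nat_lit 0, nat_lit 0, nat_lit 0, [], [nat_lit 39, nat_lit 40, nat_lit 80, nat_lit 80]⟩,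
 zbF0, []⟩
noncomputable def b_N_700_600_0_2 : St := ⟨false, nat_lit 1, nat_lit 0, nat_lit 1, nat_lit 40, nat_lit 280, nat_lit 290, nat_lit 240, nat_lit 260, nat_lit 80, nat_lit 160, nat_lit 0, nat_lit 0, nat_lit 0, nat_lit 0, nat_lit 0, nat_lit 0, nat_lit 0, nat_lit 20, nat_lit 600, nat_lit 0, nat_lit 0, nat_lit 800⟩
theorem d_N_700_600_0_2 (h : EB TB.env) : Dead b_N_700_600_0_2 := chkB_sound0 h (T :=
(.spl (nat_lit 1) (nat_lit 250)
(.spl (nat_lit 6) (nat_lit 8)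
(.spl (nat_lit 0) (nat_lit 285)
(.leaf p015_l40)
(.leaf p015_l41))
(.spl (nat_lit 6) (nat_lit 16)
(.leaf p015_l42)
(.spl (nat_lit 0) (nat_lit 285)
(.spl (nat_lit 1) (nat_lit 245)
(.leaf p015_l43)
(.spl (nat_lit 0) (nat_lit 283)
(.spl (nat_lit 1) (nat_lit 248)
(.leaf p015_l44)
(.spl (nat_lit 0) (nat_lit 282)
(.leaf p015_l45)
(.leaf p015_l46)))
(.leaf p015_l47)))
(.spl (nat_lit 1) (nat_lit 245)
(.leaf p015_l48)
(.spl (nat_lit 0) (nat_lit 288)
(.leaf p015_l49)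
(.leaf p015_l50))))))
(.spl (nat_lit 0) (nat_lit 285)
(.spl (nat_lit 6) (nat_lit 8)
(.spl (nat_lit 6) (nat_lit 4)
(.leaf p015_l51)
(.spl (nat_lit 0) (nat_lit 283)
(.spl (nat_lit 0) (nat_lit 282)
(.leaf p015_l52)
(.leaf p015_l53))
(.leaf p015_l54)))
(.leaf p015_l55))
(.leaf p015_l56)))) (by decide +kernel)
noncomputable def p015_l57 : Lf2 := ⟨nat_lit 0, nat_lit 8, [nat_lit 50, nat_lit 5, nat_lit 5, nat_lit 20], false, nat_lit 0, nat_lit 0, nat_lit 0, nat_lit 0, ⟨nat_lit 1000, nat_lit 0, nat_lit 0, nat_lit 0, nat_lit 0, nat_lit 0, nat_lit 0, nat_lit 0, nat_lit 0, nat_lit 0, nat_lit 0, nat_lit 0, nat_lit 0, nat_lit 0, nat_lit 0, nat_lit 0, false, false⟩,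
 nat_lit 0, nat_lit 11002, nat_lit 0, nat_lit 0, nat_lit 7001, nat_lit 14164, nat_lit 813, nat_lit 0, nat_lit 0, nat_lit 2240, nat_lit 0, nat_lit 0, nat_lit 0, nat_lit 0, nat_lit 0, nat_lit 0, nat_lit 0, nat_lit 0, [],
 ⟨p015_k15, nat_lit 0, nat_lit 0, nat_lit 450, nat_lit 0, nat_lit 653325, [nat_lit 3282000000, nat_lit 6250000000, nat_lit 7968000000], [], [nat_lit 28222163236, nat_lit 28476681757, nat_lit 29136179048, nat_lit 28527210530], nat_lit 1271250, nat_lit 1271250, nat_lit 490000, nat_lit 1100001, nat_lit 0, nat_lit 0, [nat_lit 780000, nat_lit 1435000, nat_lit 1271250], [nat_lit 18, nat_lit 40, nat_lit 80, nat_lit 80, nat_lit 2, nat_lit 249, nat_lit 40, nat_lit 8]⟩, ⟨p015_k43, nat_lit 0, nat_lit 0, nat_lit 0, nat_lit 0, nat_lit 0, [nat_lit 4688000000, nat_lit 7968000000, nat_lit 9842000000], [], [nat_lit 17815089936, nat_lit 18504061554, nat_lit 17013590416, nat_lit 17710233052], nat_lit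 0, nat_lit 0, nat_lit 0, nat_lit 0, nat_lit 0, nat_lit 0, [], [nat_lit 29, nat_lit 40, nat_lit 80, nat_lit 80]⟩,
 zbF0, []⟩
noncomputable def p015_l58 : Lf2 := ⟨nat_lit 0, nat_lit 8, [nat_lit 50, nat_lit 5, nat_lit 5, nat_lit 20], false, nat_lit 0, nat_lit 0, nat_lit 0, nat_lit 0, ⟨nat_lit 1000, nat_lit 0, nat_lit 0, nat_lit 0, nat_lit 0, nat_lit 0, nat_lit 0, nat_lit 0, nat_lit 0, nat_lit 0, nat_lit 0, nat_lit 0, nat_lit 0, nat_lit 0, nat_lit 0, nat_lit 0, false, false⟩,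
 nat_lit 0, nat_lit 17125, nat_lit 0, nat_lit 0, nat_lit 11134, nat_lit 17930, nat_lit 1034, nat_lit 0, nat_lit 0, nat_lit 2592, nat_lit 0, nat_lit 0, nat_lit 0, nat_lit 0, nat_lit 0, nat_lit 0, nat_lit 0, nat_lit 0, [],
 ⟨p015_k44, nat_lit 0, nat_lit 0, nat_lit 481, nat_lit 0, nat_lit 677648, [nat_lit 3282000000, nat_lit 6250000000, nat_lit 7968000000], [], [nat_lit 18839373105, nat_lit 19196964546, nat_lit 17927444788, nat_lit 18347661970], nat_lit 1271250, nat_lit 1271250, nat_lit 490000, nat_lit 1100001, nat_lit 0, nat_lit 0, [nat_lit 780000, nat_lit 1435000, nat_lit 1271250], [nat_lit 18, nat_lit 40, nat_lit 80, nat_lit 80, nat_lit 2, nat_lit 249, nat_lit 40, nat_lit 8]⟩, ⟨p015_k43, nat_lit 0, nat_lit 0, nat_lit 0, nat_lit 0, nat_lit 0, [nat_lit 4688000000, nat_lit 7968000000, nat_lit 9842000000], [], [nat_lit 16762623320, nat_lit 17589507735, nat_lit 15209088920, nat_lit 16044881490],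 nat_lit 0, nat_lit 0, nat_lit 0, nat_lit 0, nat_lit 0, nat_lit 0, [], [nat_lit 29, nat_lit 40, nat_lit 80, nat_lit 80]⟩,
 zbF0, []⟩
noncomputable def p015_l59 : Lf2 := ⟨nat_lit 0, nat_lit 6, [nat_lit 47, nat_lit 5, nat_lit 5, nat_lit 20], false, nat_lit 0, nat_lit 0, nat_lit 0, nat_lit 0, ⟨nat_lit 359, nat_lit 0, nat_lit 641, nat_lit 6, nat_lit 161, nat_lit 0, nat_lit 0, nat_lit 0, nat_lit 0, nat_lit 215, nat_lit 70417, nat_lit 280, nat_lit 57703030, nat_lit 0, nat_lit 0, nat_lit 2013535, false, false⟩,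
 nat_lit 0, nat_lit 9268, nat_lit 0, nat_lit 0, nat_lit 5897, nat_lit 5799, nat_lit 0, nat_lit 0, nat_lit 0, nat_lit 884, nat_lit 0, nat_lit 0, nat_lit 0, nat_lit 0, nat_lit 0, nat_lit 641000, nat_lit 0, nat_lit 0, [(nat_lit 12, [(nat_lit 6, nat_lit 641)])],
 ⟨p015_k45, nat_lit 0, nat_lit 0, nat_lit 453, nat_lit 0, nat_lit 660601, [nat_lit 1909747201, nat_lit 1520958400, nat_lit 368560400], [], [nat_lit 16149850408, nat_lit 16288594723, nat_lit 19596511072, nat_lit 19190704300], nat_lit 1271250, nat_lit 1271250, nat_lit 490000, nat_lit 1100001, nat_lit 0, nat_lit 0, [nat_lit 780000, nat_lit 1435000, nat_lit 1271250], [nat_lit 18, nat_lit 40, nat_lit 80, nat_lit 80, nat_lit 2, nat_lit 249, nat_lit 40, nat_lit 8]⟩, ⟨p015_k46, nat_lit 0, nat_lit 0, nat_lit 0, nat_lit 0, nat_lit 0, [nat_lit 1682992000, nat_lit 2860512000, nat_lit 3533278000], [], [nat_lit 6156484083, nat_lit 6429747238, nat_lit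 5683058034, nat_lit 5959538908], nat_lit 0, nat_lit 0, nat_lit 0, nat_lit 0, nat_lit 0, nat_lit 0, [], [nat_lit 29, nat_lit 40, nat_lit 80, nat_lit 80]⟩,
 ⟨nat_lit 5408, nat_lit 5478, ⟨.ofNat (nat_lit 323253), .ofNat (nat_lit 473119), .ofNat (nat_lit 328592), .ofNat (nat_lit 478458), .ofNat (nat_lit 324861), .ofNat (nat_lit 473665), .ofNat (nat_lit 330202), .ofNat (nat_lit 479006)⟩, ⟨.ofNat (nat_lit 0), .ofNat (nat_lit 0), .ofNat (nat_lit 0), .ofNat (nat_lit 0), .ofNat (nat_lit 0), .ofNat (nat_lit 0), .ofNat (nat_lit 0), .ofNat (nat_lit 0)⟩⟩, []⟩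
noncomputable def p015_l60 : Lf2 := ⟨nat_lit 0, nat_lit 8, [nat_lit 50, nat_lit 5, nat_lit 5, nat_lit 20], false, nat_lit 0, nat_lit 0, nat_lit 0, nat_lit 0, ⟨nat_lit 1000, nat_lit 0, nat_lit 0, nat_lit 0, nat_lit 0, nat_lit 0, nat_lit 0, nat_lit 0, nat_lit 0, nat_lit 0, nat_lit 0, nat_lit 0, nat_lit 0, nat_lit 0, nat_lit 0, nat_lit 0, false, false⟩,
 nat_lit 0, nat_lit 10661, nat_lit 0, nat_lit 0, nat_lit 6784, nat_lit 12391, nat_lit 862, nat_lit 0, nat_lit 0, nat_lit 2110, nat_lit 0, nat_lit 0, nat_lit 0, nat_lit 0, nat_lit 0, nat_lit 0, nat_lit 0, nat_lit 0, [],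
 ⟨p015_k15, nat_lit 0, nat_lit 0, nat_lit 437, nat_lit 0, nat_lit 622457, [nat_lit 3282000000, nat_lit 6250000000, nat_lit 7968000000], [], [nat_lit 28397531960, nat_lit 28569470871, nat_lit 29607709632, nat_lit 29134625357], nat_lit 1271250, nat_lit 1271250, nat_lit 490000, nat_lit 1100001, nat_lit 0, nat_lit 0, [nat_lit 780000, nat_lit 1435000, nat_lit 1271250], [nat_lit 18, nat_lit 40, nat_lit 80, nat_lit 80, nat_lit 2, nat_lit 249, nat_lit 40, nat_lit 8]⟩, ⟨p015_k47, nat_lit 0, nat_lit 0, nat_lit 0, nat_lit 0, nat_lit 0, [nat_lit 4688000000, nat_lit 7968000000, nat_lit 9842000000], [], [nat_lit 18172268489, nat_lit 18798296993, nat_lit 17637078563, nat_lit 18268210622], nat_lit 0, nat_lit 0, nat_lit 0, nat_lit 0, nat_lit 0, nat_lit 0, [], [nat_lit 29, nat_lit 40, nat_lit 80, nat_lit 80]⟩,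
 zbF0, []⟩
noncomputable def p015_l61 : Lf2 := ⟨nat_lit 0, nat_lit 8, [nat_lit 50, nat_lit 5, nat_lit 5, nat_lit 20], false, nat_lit 0, nat_lit 0, nat_lit 0, nat_lit 0, ⟨nat_lit 1000, nat_lit 0, nat_lit 0, nat_lit 0, nat_lit 0, nat_lit 0, nat_lit 0, nat_lit 0, nat_lit 0, nat_lit 0, nat_lit 0, nat_lit 0, nat_lit 0, nat_lit 0, nat_lit 0, nat_lit 0, false, false⟩,
 nat_lit 0, nat_lit 16930, nat_lit 0, nat_lit 0, nat_lit 10913, nat_lit 16163, nat_lit 854, nat_lit 0, nat_lit 0, nat_lit 2465, nat_lit 0, nat_lit 0, nat_lit 0, nat_lit 0, nat_lit 0, nat_lit 0, nat_lit 0, nat_lit 0, [],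
 ⟨p015_k48, nat_lit 0, nat_lit 0, nat_lit 456, nat_lit 0, nat_lit 668912, [nat_lit 3282000000, nat_lit 6250000000, nat_lit 7968000000], [], [nat_lit 20372816917, nat_lit 20436445462, nat_lit 19426219496, nat_lit 19408070155], nat_lit 1271250, nat_lit 1271250, nat_lit 490000, nat_lit 1100001, nat_lit 0, nat_lit 0, [nat_lit 780000, nat_lit 1435000, nat_lit 1271250], [nat_lit 18, nat_lit 40, nat_lit 80, nat_lit 80, nat_lit 2, nat_lit 249, nat_lit 40, nat_lit 8]⟩, ⟨p015_k47, nat_lit 0, nat_lit 0, nat_lit 0, nat_lit 0, nat_lit 0, [nat_lit 4688000000, nat_lit 7968000000, nat_lit 9842000000], [], [nat_lit 17139674231, nat_lit 17901650999, nat_lit 15824855009, nat_lit 16595358696], nat_lit 0, nat_lit 0, nat_lit 0, nat_lit 0, nat_lit 0, nat_lit 0, [], [nat_lit 29, nat_lit 40, nat_lit 80, nat_lit 80]⟩,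
 zbF0, []⟩
noncomputable def p015_l62 : Lf2 := ⟨nat_lit 0, nat_lit 8, [nat_lit 50, nat_lit 5, nat_lit 5, nat_lit 20], false, nat_lit 0, nat_lit 0, nat_lit 0, nat_lit 0, ⟨nat_lit 1000, nat_lit 0, nat_lit 0, nat_lit 0, nat_lit 0, nat_lit 0, nat_lit 0, nat_lit 0, nat_lit 0, nat_lit 0, nat_lit 0, nat_lit 0, nat_lit 0, nat_lit 0, nat_lit 0, nat_lit 0, false, false⟩,
 nat_lit 0, nat_lit 16665, nat_lit 0, nat_lit 0, nat_lit 10788, nat_lit 16163, nat_lit 860, nat_lit 0, nat_lit 0, nat_lit 2465, nat_lit 0, nat_lit 0, nat_lit 0, nat_lit 0, nat_lit 0, nat_lit 0, nat_lit 0, nat_lit 0, [],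
 ⟨p015_k49, nat_lit 0, nat_lit 0, nat_lit 459, nat_lit 0, nat_lit 673465, [nat_lit 3282000000, nat_lit 6250000000, nat_lit 7968000000], [], [nat_lit 20428736212, nat_lit 20492182610, nat_lit 19409337905, nat_lit 19483719348], nat_lit 1271250, nat_lit 1271250, nat_lit 490000, nat_lit 1100001, nat_lit 0, nat_lit 0, [nat_lit 780000, nat_lit 1435000, nat_lit 1271250], [nat_lit 18, nat_lit 40, nat_lit 80, nat_lit 80, nat_lit 2, nat_lit 249, nat_lit 40, nat_lit 8]⟩, ⟨p015_k47, nat_lit 0, nat_lit 0, nat_lit 0, nat_lit 0, nat_lit 0, [nat_lit 4688000000, nat_lit 7968000000, nat_lit 9842000000], [], [nat_lit 17139674231, nat_lit 17901650999, nat_lit 15824855009, nat_lit 16595358696], nat_lit 0, nat_lit 0, nat_lit 0, nat_lit 0, nat_lit 0, nat_lit 0, [], [nat_lit 29, nat_lit 40, nat_lit 80, nat_lit 80]⟩,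
 zbF0, []⟩
noncomputable def p015_l63 : Lf2 := ⟨nat_lit 0, nat_lit 8, [nat_lit 50, nat_lit 5, nat_lit 5, nat_lit 20], false, nat_lit 0, nat_lit 0, nat_lit 0, nat_lit 0, ⟨nat_lit 1000, nat_lit 0, nat_lit 0, nat_lit 0, nat_lit 0, nat_lit 0, nat_lit 0, nat_lit 0, nat_lit 0, nat_lit 0, nat_lit 0, nat_lit 0, nat_lit 0, nat_lit 0, nat_lit 0, nat_lit 0, false, false⟩,
 nat_lit 0, nat_lit 11746, nat_lit 0, nat_lit 0, nat_lit 7636, nat_lit 16163, nat_lit 834, nat_lit 0, nat_lit 0, nat_lit 2465, nat_lit 0, nat_lit 0, nat_lit 0, nat_lit 0, nat_lit 0, nat_lit 0, nat_lit 0, nat_lit 0, [],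
 ⟨p015_k44, nat_lit 0, nat_lit 0, nat_lit 487, nat_lit 0, nat_lit 695117, [nat_lit 3282000000, nat_lit 6250000000, nat_lit 7968000000], [], [nat_lit 28926286604, nat_lit 29083107824, nat_lit 28624102862, nat_lit 28775715666], nat_lit 1271250, nat_lit 1271250, nat_lit 490000, nat_lit 1100001, nat_lit 0, nat_lit 0, [nat_lit 780000, nat_lit 1435000, nat_lit 1271250], [nat_lit 18, nat_lit 40, nat_lit 80, nat_lit 80, nat_lit 2, nat_lit 249, nat_lit 40, nat_lit 8]⟩, ⟨p015_k47, nat_lit 0, nat_lit 0, nat_lit 0, nat_lit 0, nat_lit 0, [nat_lit 4688000000, nat_lit 7968000000, nat_lit 9842000000], [], [nat_lit 17139674231, nat_lit 17901650999, nat_lit 15824855009, nat_lit 16595358696], nat_lit 0, nat_lit 0, nat_lit 0, nat_lit 0, nat_lit 0, nat_lit 0, [], [nat_lit 29, nat_lit 40, nat_lit 80, nat_lit 80]⟩,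
 zbF0, []⟩
noncomputable def p015_l64 : Lf2 := ⟨nat_lit 0, nat_lit 8, [nat_lit 50, nat_lit 5, nat_lit 5, nat_lit 20], false, nat_lit 0, nat_lit 0, nat_lit 0, nat_lit 0, ⟨nat_lit 1000, nat_lit 0, nat_lit 0, nat_lit 0, nat_lit 0, nat_lit 0, nat_lit 0, nat_lit 0, nat_lit 0, nat_lit 0, nat_lit 0, nat_lit 0, nat_lit 0, nat_lit 0, nat_lit 0, nat_lit 0, false, false⟩,
 nat_lit 0, nat_lit 14556, nat_lit 0, nat_lit 0, nat_lit 9585, nat_lit 8129, nat_lit 2452, nat_lit 0, nat_lit 0, nat_lit 1708, nat_lit 0, nat_lit 0, nat_lit 0, nat_lit 0, nat_lit 0, nat_lit 0, nat_lit 0, nat_lit 0, [],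
 ⟨p015_k50, nat_lit 0, nat_lit 0, nat_lit 490, nat_lit 0, nat_lit 699981, [nat_lit 3282000000, nat_lit 6250000000, nat_lit 7968000000], [], [nat_lit 17984514828, nat_lit 18114752955, nat_lit 18091486812, nat_lit 17645878245], nat_lit 1271250, nat_lit 1271250, nat_lit 490000, nat_lit 1100001, nat_lit 0, nat_lit 0, [nat_lit 780000, nat_lit 1435000, nat_lit 1271250], [nat_lit 18, nat_lit 40, nat_lit 80, nat_lit 80, nat_lit 2, nat_lit 249, nat_lit 40, nat_lit 8]⟩, ⟨p015_k47, nat_lit 0, nat_lit 0, nat_lit 0, nat_lit 0, nat_lit 0, [nat_lit 4688000000, nat_lit 7968000000, nat_lit 9842000000], [], [nat_lit 19365163482, nat_lit 19812718416, nat_lit 19863298432, nat_lit 20256299367], nat_lit 0, nat_lit 0, nat_lit 0, nat_lit 0, nat_lit 0, nat_lit 0, [], [nat_lit 29, nat_lit 40, nat_lit 80, nat_lit 80]⟩,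
 zbF0, []⟩
noncomputable def p015_l65 : Lf2 := ⟨nat_lit 0, nat_lit 10, [nat_lit 0, nat_lit 5, nat_lit 5, nat_lit 20], false, nat_lit 0, nat_lit 0, nat_lit 0, nat_lit 0, ⟨nat_lit 814, nat_lit 0, nat_lit 186, nat_lit 6, nat_lit 160, nat_lit 0, nat_lit 0, nat_lit 0, nat_lit 0, nat_lit 215, nat_lit 70995, nat_lit 280, nat_lit 57795119, nat_lit 0, nat_lit 0, nat_lit 2000949, false, false⟩,
 nat_lit 0, nat_lit 10190, nat_lit 0, nat_lit 0, nat_lit 6484, nat_lit 6617, nat_lit 879, nat_lit 0, nat_lit 0, nat_lit 1566, nat_lit 0, nat_lit 0, nat_lit 0, nat_lit 0, nat_lit 0, nat_lit 186000, nat_lit 0, nat_lit 0, [(nat_lit 12, [(nat_lit 6, nat_lit 186)])],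
 ⟨p015_k0, nat_lit 0, nat_lit 0, nat_lit 483, nat_lit 0, nat_lit 556242, [nat_lit 2883811201, nat_lit 4877766400, nat_lit 7008327200], [], [nat_lit 24702627019, nat_lit 24985866081, nat_lit 26718750434, nat_lit 25965144292], nat_lit 1271250, nat_lit 1271250, nat_lit 490000, nat_lit 1100001, nat_lit 0, nat_lit 0, [nat_lit 780000, nat_lit 1435000, nat_lit 1271250], [nat_lit 8, nat_lit 40, nat_lit 80, nat_lit 80, nat_lit 1, nat_lit 249, nat_lit 40, nat_lit 7]⟩, ⟨p015_k1, nat_lit 0, nat_lit 0, nat_lit 0, nat_lit 0, nat_lit 0, [nat_lit 3816032000, nat_lit 6485952000, nat_lit 9663808000], [], [nat_lit 16035577812, nat_lit 16692374198, nat_lit 16413645000, nat_lit 17053450175], nat_lit 0, nat_lit 0, nat_lit 0, nat_lit 0, nat_lit 0, nat_lit 0, [], [nat_lit 21, nat_lit 40, nat_lit 80, nat_lit 80]⟩,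
 ⟨nat_lit 5361, nat_lit 5478, ⟨.ofNat (nat_lit 317913), .ofNat (nat_lit 467779), .ofNat (nat_lit 328592), .ofNat (nat_lit 478458), .ofNat (nat_lit 320589), .ofNat (nat_lit 468688), .ofNat (nat_lit 331274), .ofNat (nat_lit 479373)⟩, ⟨.ofNat (nat_lit 0), .ofNat (nat_lit 0), .ofNat (nat_lit 0), .ofNat (nat_lit 0), .ofNat (nat_lit 0), .ofNat (nat_lit 0), .ofNat (nat_lit 0), .ofNat (nat_lit 0)⟩⟩, []⟩
noncomputable def p015_l66 : Lf2 := ⟨nat_lit 0, nat_lit 10, [nat_lit 0, nat_lit 5, nat_lit 5, nat_lit 20], false, nat_lit 0, nat_lit 0, nat_lit 0, nat_lit 0, ⟨nat_lit 1000, nat_lit 0, nat_lit 0, nat_lit 0, nat_lit 0, nat_lit 0, nat_lit 0, nat_lit 0, nat_lit 0, nat_lit 0, nat_lit 0, nat_lit 0, nat_lit 0, nat_lit 0, nat_lit 0, nat_lit 0, false, false⟩,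
 nat_lit 0, nat_lit 10687, nat_lit 0, nat_lit 0, nat_lit 6948, nat_lit 8129, nat_lit 1126, nat_lit 0, nat_lit 0, nat_lit 1923, nat_lit 0, nat_lit 0, nat_lit 0, nat_lit 0, nat_lit 0, nat_lit 0, nat_lit 0, nat_lit 0, [],
 ⟨p015_k51, nat_lit 0, nat_lit 0, nat_lit 494, nat_lit 0, nat_lit 583301, [nat_lit 3282000000, nat_lit 6250000000, nat_lit 9842000000], [], [nat_lit 26678042232, nat_lit 26974004606, nat_lit 27381148230, nat_lit 27079898090], nat_lit 1271250, nat_lit 1271250, nat_lit 490000, nat_lit 1100001, nat_lit 0, nat_lit 0, [nat_lit 780000, nat_lit 1435000, nat_lit 1271250], [nat_lit 8, nat_lit 40, nat_lit 80, nat_lit 80, nat_lit 1, nat_lit 249, nat_lit 40, nat_lit 7]⟩, ⟨p015_k1, nat_lit 0, nat_lit 0, nat_lit 0, nat_lit 0, nat_lit 0, [nat_lit 4688000000, nat_lit 7968000000, nat_lit 11872000000], [], [nat_lit 19705279896, nat_lit 20507603960, nat_lit 20164172496, nat_lit 20950174367], nat_lit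 0, nat_lit 0, nat_lit 0, nat_lit 0, nat_lit 0, nat_lit 0, [], [nat_lit 21, nat_lit 40, nat_lit 80, nat_lit 80]⟩,
 zbF0, []⟩
noncomputable def p015_l67 : Lf2 := ⟨nat_lit 0, nat_lit 10, [nat_lit 0, nat_lit 5, nat_lit 5, nat_lit 20], true, nat_lit 0, nat_lit 0, nat_lit 0, nat_lit 0, ⟨nat_lit 0, nat_lit 0, nat_lit 1000, nat_lit 6, nat_lit 142, nat_lit 0, nat_lit 0, nat_lit 0, nat_lit 0, nat_lit 215, nat_lit 187267, nat_lit 321, nat_lit 59542694, nat_lit 0, nat_lit 0, nat_lit 1746153, false, false⟩,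
 nat_lit 0, nat_lit 100000, nat_lit 0, nat_lit 22064, nat_lit 63636, nat_lit 0, nat_lit 6244, nat_lit 4221, nat_lit 0, nat_lit 0, nat_lit 0, nat_lit 0, nat_lit 0, nat_lit 0, nat_lit 0, nat_lit 1000000, nat_lit 0, nat_lit 0, [(nat_lit 12, [(nat_lit 6, nat_lit 1000)])],
 ⟨p015_k0, nat_lit 0, nat_lit 0, nat_lit 424, nat_lit 0, nat_lit 394972, [nat_lit 51793200001, nat_lit 83292400000, nat_lit 112795200000], [], [nat_lit 129915496950, nat_lit 132009327708, nat_lit 126562452594, nat_lit 128109803527], nat_lit 1271250, nat_lit 1271250, nat_lit 490000, nat_lit 631250, nat_lit 0, nat_lit 0, [nat_lit 780000, nat_lit 1435000, nat_lit 1271250], [nat_lit 8, nat_lit 40, nat_lit 80, nat_lit 80, nat_lit 1, nat_lit 232, nat_lit 25, nat_lit 7]⟩, C1.Rw.none,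
 ⟨nat_lit 5361, nat_lit 5478, ⟨.ofNat (nat_lit 328592), .ofNat (nat_lit 366059), .ofNat (nat_lit 339271), .ofNat (nat_lit 376737), .ofNat (nat_lit 331274), .ofNat (nat_lit 368299), .ofNat (nat_lit 341959), .ofNat (nat_lit 378984)⟩, ⟨.ofNat (nat_lit 0), .ofNat (nat_lit 0), .ofNat (nat_lit 0), .ofNat (nat_lit 0), .ofNat (nat_lit 0), .ofNat (nat_lit 0), .ofNat (nat_lit 0), .ofNat (nat_lit 0)⟩⟩, []⟩
noncomputable def p015_l68 : Lf2 := ⟨nat_lit 0, nat_lit 10, [nat_lit 0, nat_lit 5, nat_lit 5, nat_lit 20], true, nat_lit 0, nat_lit 0, nat_lit 0, nat_lit 0, ⟨nat_lit 0, nat_lit 0, nat_lit 1000, nat_lit 6, nat_lit 153, nat_lit 0, nat_lit 0, nat_lit 0, nat_lit 0, nat_lit 215, nat_lit 220417, nat_lit 330, nat_lit 58402024, nat_lit 0, nat_lit 0, nat_lit 1915977, false, false⟩,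
 nat_lit 0, nat_lit 100000, nat_lit 0, nat_lit 100000, nat_lit 63636, nat_lit 0, nat_lit 35637, nat_lit 20000, nat_lit 0, nat_lit 0, nat_lit 0, nat_lit 0, nat_lit 0, nat_lit 0, nat_lit 0, nat_lit 1000000, nat_lit 0, nat_lit 0, [(nat_lit 12, [(nat_lit 6, nat_lit 1000)])],
 ⟨p015_k0, nat_lit 0, nat_lit 0, nat_lit 373, nat_lit 0, nat_lit 394972, [nat_lit 241141200000, nat_lit 398872400000, nat_lit 554607200000], [], [nat_lit 934571213592, nat_lit 936949418272, nat_lit 933048976263, nat_lit 935372810391], nat_lit 1271250, nat_lit 1271250, nat_lit 631250, nat_lit 719601, nat_lit 0, nat_lit 0, [nat_lit 780000, nat_lit 1435000, nat_lit 1271250], [nat_lit 8, nat_lit 40, nat_lit 80, nat_lit 80, nat_lit 1, nat_lit 238, nat_lit 30, nat_lit 7]⟩, C1.Rw.none,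
 ⟨nat_lit 5361, nat_lit 5478, ⟨.ofNat (nat_lit 366059), .ofNat (nat_lit 388538), .ofNat (nat_lit 376737), .ofNat (nat_lit 399217), .ofNat (nat_lit 368299), .ofNat (nat_lit 390514), .ofNat (nat_lit 378984), .ofNat (nat_lit 401198)⟩, ⟨.ofNat (nat_lit 0), .ofNat (nat_lit 0), .ofNat (nat_lit 0), .ofNat (nat_lit 0), .ofNat (nat_lit 0), .ofNat (nat_lit 0), .ofNat (nat_lit 0), .ofNat (nat_lit 0)⟩⟩, []⟩
noncomputable def p015_l69 : Lf2 := ⟨nat_lit 0, nat_lit 10, [nat_lit 0, nat_lit 5, nat_lit 5, nat_lit 20], false, nat_lit 0, nat_lit 0, nat_lit 0, nat_lit 0, ⟨nat_lit 1000, nat_lit 0, nat_lit 0, nat_lit 0, nat_lit 0, nat_lit 0, nat_lit 0, nat_lit 0, nat_lit 0, nat_lit 0, nat_lit 0, nat_lit 0, nat_lit 0, nat_lit 0, nat_lit 0, nat_lit 0, false, false⟩,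
 nat_lit 0, nat_lit 11897, nat_lit 0, nat_lit 0, nat_lit 7570, nat_lit 14403, nat_lit 968, nat_lit 0, nat_lit 0, nat_lit 2217, nat_lit 0, nat_lit 0, nat_lit 0, nat_lit 0, nat_lit 0, nat_lit 0, nat_lit 0, nat_lit 0, [],
 ⟨p015_k0, nat_lit 0, nat_lit 0, nat_lit 585, nat_lit 0, nat_lit 773912, [nat_lit 3282000000, nat_lit 6250000000, nat_lit 9842000000], [], [nat_lit 30338796872, nat_lit 30561953670, nat_lit 30276660360, nat_lit 30532611795], nat_lit 1271250, nat_lit 1271250, nat_lit 719601, nat_lit 780000, nat_lit 0, nat_lit 0, [nat_lit 780000, nat_lit 1435000, nat_lit 1271250], [nat_lit 8, nat_lit 40, nat_lit 80, nat_lit 80, nat_lit 1, nat_lit 238, nat_lit 30, nat_lit 7]⟩, ⟨p015_k6, nat_lit 0, nat_lit 0, nat_lit 0, nat_lit 0, nat_lit 0, [nat_lit 4688000000, nat_lit 7968000000, nat_lit 9842000000], [], [nat_lit 17255681814, nat_lit 18582046012, nat_lit 17081952375, nat_lit 18466762745], nat_lit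 0, nat_lit 0, nat_lit 0, nat_lit 0, nat_lit 0, nat_lit 0, [], [nat_lit 29, nat_lit 40, nat_lit 80, nat_lit 80]⟩,
 zbF0, []⟩
noncomputable def p015_l70 : Lf2 := ⟨nat_lit 0, nat_lit 10, [nat_lit 0, nat_lit 5, nat_lit 5, nat_lit 20], false, nat_lit 0, nat_lit 0, nat_lit 0, nat_lit 0, ⟨nat_lit 1000, nat_lit 0, nat_lit 0, nat_lit 0, nat_lit 0, nat_lit 0, nat_lit 0, nat_lit 0, nat_lit 0, nat_lit 0, nat_lit 0, nat_lit 0, nat_lit 0, nat_lit 0, nat_lit 0, nat_lit 0, false, false⟩,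
 nat_lit 0, nat_lit 11816, nat_lit 0, nat_lit 0, nat_lit 7519, nat_lit 14455, nat_lit 962, nat_lit 0, nat_lit 0, nat_lit 2199, nat_lit 0, nat_lit 0, nat_lit 0, nat_lit 0, nat_lit 0, nat_lit 0, nat_lit 0, nat_lit 0, [],
 ⟨p015_k0, nat_lit 0, nat_lit 0, nat_lit 582, nat_lit 0, nat_lit 773912, [nat_lit 3282000000, nat_lit 6250000000, nat_lit 9842000000], [], [nat_lit 30458491962, nat_lit 30680102852, nat_lit 30299995024, nat_lit 30550754461], nat_lit 1271250, nat_lit 1271250, nat_lit 780000, nat_lit 1100001, nat_lit 0, nat_lit 0, [nat_lit 780000, nat_lit 1435000, nat_lit 1271250], [nat_lit 8, nat_lit 40, nat_lit 80, nat_lit 80, nat_lit 1, nat_lit 249, nat_lit 40, nat_lit 7]⟩, ⟨p015_k6, nat_lit 0, nat_lit 0, nat_lit 0, nat_lit 0, nat_lit 0, [nat_lit 4688000000, nat_lit 7968000000, nat_lit 9842000000], [], [nat_lit 17158744875, nat_lit 18470064325, nat_lit 16474770610, nat_lit 17889560200], nat_lit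 0, nat_lit 0, nat_lit 0, nat_lit 0, nat_lit 0, nat_lit 0, [], [nat_lit 29, nat_lit 40, nat_lit 80, nat_lit 80]⟩,
 zbF0, []⟩
noncomputable def p015_l71 : Lf2 := ⟨nat_lit 0, nat_lit 8, [nat_lit 50, nat_lit 5, nat_lit 5, nat_lit 20], false, nat_lit 0, nat_lit 0, nat_lit 0, nat_lit 0, ⟨nat_lit 1000, nat_lit 0, nat_lit 0, nat_lit 0, nat_lit 0, nat_lit 0, nat_lit 0, nat_lit 0, nat_lit 0, nat_lit 0, nat_lit 0, nat_lit 0, nat_lit 0, nat_lit 0, nat_lit 0, nat_lit 0, false, false⟩,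
 nat_lit 0, nat_lit 11405, nat_lit 0, nat_lit 0, nat_lit 7415, nat_lit 14716, nat_lit 832, nat_lit 0, nat_lit 0, nat_lit 2381, nat_lit 0, nat_lit 0, nat_lit 0, nat_lit 0, nat_lit 0, nat_lit 0, nat_lit 0, nat_lit 0, [],
 ⟨p015_k44, nat_lit 0, nat_lit 0, nat_lit 496, nat_lit 0, nat_lit 716832, [nat_lit 3282000000, nat_lit 6250000000, nat_lit 7968000000], [], [nat_lit 29541783435, nat_lit 29696502772, nat_lit 29293666993, nat_lit 29443094084], nat_lit 1271250, nat_lit 1271250, nat_lit 490000, nat_lit 1100001, nat_lit 0, nat_lit 0, [nat_lit 780000, nat_lit 1435000, nat_lit 1271250], [nat_lit 18, nat_lit 40, nat_lit 80, nat_lit 80, nat_lit 2, nat_lit 249, nat_lit 40, nat_lit 8]⟩, ⟨p015_k16, nat_lit 0, nat_lit 0, nat_lit 0, nat_lit 0, nat_lit 0, [nat_lit 4688000000, nat_lit 7968000000, nat_lit 9842000000], [], [nat_lit 17295267068, nat_lit 17720672434, nat_lit 16218848272, nat_lit 16649071363], nat_lit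 0, nat_lit 0, nat_lit 0, nat_lit 0, nat_lit 0, nat_lit 0, [], [nat_lit 29, nat_lit 40, nat_lit 80, nat_lit 80]⟩,
 zbF0, []⟩
noncomputable def p015_l72 : Lf2 := ⟨nat_lit 0, nat_lit 8, [nat_lit 50, nat_lit 5, nat_lit 5, nat_lit 20], false, nat_lit 0, nat_lit 0, nat_lit 0, nat_lit 0, ⟨nat_lit 1000, nat_lit 0, nat_lit 0, nat_lit 0, nat_lit 0, nat_lit 0, nat_lit 0, nat_lit 0, nat_lit 0, nat_lit 0, nat_lit 0, nat_lit 0, nat_lit 0, nat_lit 0, nat_lit 0, nat_lit 0, false, false⟩,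
 nat_lit 0, nat_lit 11171, nat_lit 0, nat_lit 0, nat_lit 7263, nat_lit 13930, nat_lit 830, nat_lit 0, nat_lit 0, nat_lit 2325, nat_lit 0, nat_lit 0, nat_lit 0, nat_lit 0, nat_lit 0, nat_lit 0, nat_lit 0, nat_lit 0, [],
 ⟨p015_k44, nat_lit 0, nat_lit 0, nat_lit 502, nat_lit 0, nat_lit 731528, [nat_lit 3282000000, nat_lit 6250000000, nat_lit 7968000000], [], [nat_lit 29968467907, nat_lit 30121411792, nat_lit 29755360309, nat_lit 29903284105], nat_lit 1271250, nat_lit 1271250, nat_lit 490000, nat_lit 1100001, nat_lit 0, nat_lit 0, [nat_lit 780000, nat_lit 1435000, nat_lit 1271250], [nat_lit 18, nat_lit 40, nat_lit 80, nat_lit 80, nat_lit 2, nat_lit 249, nat_lit 40, nat_lit 8]⟩, ⟨p015_k52, nat_lit 0, nat_lit 0, nat_lit 0, nat_lit 0, nat_lit 0, [nat_lit 4688000000, nat_lit 7968000000, nat_lit 9842000000], [], [nat_lit 17386450161, nat_lit 17658650920, nat_lit 16436925878, nat_lit 16712124505], nat_lit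 0, nat_lit 0, nat_lit 0, nat_lit 0, nat_lit 0, nat_lit 0, [], [nat_lit 29, nat_lit 40, nat_lit 80, nat_lit 80]⟩,
 zbF0, []⟩
noncomputable def p015_l73 : Lf2 := ⟨nat_lit 0, nat_lit 10, [nat_lit 0, nat_lit 5, nat_lit 5, nat_lit 20], false, nat_lit 0, nat_lit 0, nat_lit 0, nat_lit 0, ⟨nat_lit 1000, nat_lit 0, nat_lit 0, nat_lit 0, nat_lit 0, nat_lit 0, nat_lit 0, nat_lit 0, nat_lit 0, nat_lit 0, nat_lit 0, nat_lit 0, nat_lit 0, nat_lit 0, nat_lit 0, nat_lit 0, false, false⟩,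
 nat_lit 0, nat_lit 11098, nat_lit 0, nat_lit 0, nat_lit 7215, nat_lit 8022, nat_lit 1138, nat_lit 0, nat_lit 0, nat_lit 1726, nat_lit 0, nat_lit 0, nat_lit 0, nat_lit 0, nat_lit 0, nat_lit 0, nat_lit 0, nat_lit 0, [],
 ⟨p015_k51, nat_lit 0, nat_lit 0, nat_lit 500, nat_lit 0, nat_lit 601445, [nat_lit 3282000000, nat_lit 6250000000, nat_lit 9842000000], [], [nat_lit 26138162208, nat_lit 26308549782, nat_lit 26758612838, nat_lit 26368608622], nat_lit 1271250, nat_lit 1271250, nat_lit 490000, nat_lit 1100001, nat_lit 0, nat_lit 0, [nat_lit 780000, nat_lit 1435000, nat_lit 1271250], [nat_lit 8, nat_lit 40, nat_lit 80, nat_lit 80, nat_lit 1, nat_lit 249, nat_lit 40, nat_lit 7]⟩, ⟨p015_k6, nat_lit 0, nat_lit 0, nat_lit 0, nat_lit 0, nat_lit 0, [nat_lit 4688000000, nat_lit 7968000000, nat_lit 9842000000], [], [nat_lit 19210283288, nat_lit 19654141800, nat_lit 19673175706, nat_lit 20063073695], nat_lit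 0, nat_lit 0, nat_lit 0, nat_lit 0, nat_lit 0, nat_lit 0, [], [nat_lit 29, nat_lit 40, nat_lit 80, nat_lit 80]⟩,
 zbF0, []⟩
noncomputable def p015_l74 : Lf2 := ⟨nat_lit 0, nat_lit 10, [nat_lit 0, nat_lit 5, nat_lit 5, nat_lit 20], false, nat_lit 0, nat_lit 0, nat_lit 0, nat_lit 0, ⟨nat_lit 1000, nat_lit 0, nat_lit 0, nat_lit 0, nat_lit 0, nat_lit 0, nat_lit 0, nat_lit 0, nat_lit 0, nat_lit 0, nat_lit 0, nat_lit 0, nat_lit 0, nat_lit 0, nat_lit 0, nat_lit 0, false, false⟩,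
 nat_lit 0, nat_lit 14830, nat_lit 0, nat_lit 0, nat_lit 9765, nat_lit 8041, nat_lit 2243, nat_lit 0, nat_lit 0, nat_lit 1733, nat_lit 0, nat_lit 0, nat_lit 0, nat_lit 0, nat_lit 0, nat_lit 0, nat_lit 0, nat_lit 0, [],
 ⟨p015_k53, nat_lit 0, nat_lit 0, nat_lit 507, nat_lit 0, nat_lit 742678, [nat_lit 3282000000, nat_lit 6250000000, nat_lit 7968000000], [], [nat_lit 18109615252, nat_lit 18241298095, nat_lit 17977770008, nat_lit 17705130200], nat_lit 1271250, nat_lit 1271250, nat_lit 490000, nat_lit 1100001, nat_lit 0, nat_lit 0, [nat_lit 780000, nat_lit 1435000, nat_lit 1271250], [nat_lit 18, nat_lit 40, nat_lit 80, nat_lit 80, nat_lit 2, nat_lit 249, nat_lit 40, nat_lit 8]⟩, ⟨p015_k6, nat_lit 0, nat_lit 0, nat_lit 0, nat_lit 0, nat_lit 0, [nat_lit 4688000000, nat_lit 7968000000, nat_lit 9842000000], [], [nat_lit 19181843264, nat_lit 19627380823, nat_lit 19641306543, nat_lit 20031755523], nat_lit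 0, nat_lit 0, nat_lit 0, nat_lit 0, nat_lit 0, nat_lit 0, [], [nat_lit 29, nat_lit 40, nat_lit 80, nat_lit 80]⟩,
 zbF0, []⟩
noncomputable def p015_l75 : Lf2 := ⟨nat_lit 0, nat_lit 8, [nat_lit 50, nat_lit 5, nat_lit 5, nat_lit 20], false, nat_lit 0, nat_lit 0, nat_lit 0, nat_lit 0, ⟨nat_lit 1000, nat_lit 0, nat_lit 0, nat_lit 0, nat_lit 0, nat_lit 0, nat_lit 0, nat_lit 0, nat_lit 0, nat_lit 0, nat_lit 0, nat_lit 0, nat_lit 0, nat_lit 0, nat_lit 0, nat_lit 0, false, false⟩,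
 nat_lit 0, nat_lit 11144, nat_lit 0, nat_lit 0, nat_lit 7245, nat_lit 13362, nat_lit 832, nat_lit 0, nat_lit 0, nat_lit 2283, nat_lit 0, nat_lit 0, nat_lit 0, nat_lit 0, nat_lit 0, nat_lit 0, nat_lit 0, nat_lit 0, [],
 ⟨p015_k44, nat_lit 0, nat_lit 0, nat_lit 505, nat_lit 0, nat_lit 738251, [nat_lit 3282000000, nat_lit 6250000000, nat_lit 7968000000], [], [nat_lit 30012637430, nat_lit 30110579266, nat_lit 29805812478, nat_lit 29904309661], nat_lit 1271250, nat_lit 1271250, nat_lit 490000, nat_lit 1100001, nat_lit 0, nat_lit 0, [nat_lit 780000, nat_lit 1435000, nat_lit 1271250], [nat_lit 18, nat_lit 40, nat_lit 80, nat_lit 80, nat_lit 2, nat_lit 249, nat_lit 40, nat_lit 8]⟩, ⟨p015_k54, nat_lit 0, nat_lit 0, nat_lit 0, nat_lit 0, nat_lit 0, [nat_lit 4688000000, nat_lit 7968000000, nat_lit 9842000000], [], [nat_lit 17449402945, nat_lit 17713346713, nat_lit 16580824017, nat_lit 16847627833], nat_lit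 0, nat_lit 0, nat_lit 0, nat_lit 0, nat_lit 0, nat_lit 0, [], [nat_lit 29, nat_lit 40, nat_lit 80, nat_lit 80]⟩,
 zbF0, []⟩
noncomputable def p015_l76 : Lf2 := ⟨nat_lit 0, nat_lit 8, [nat_lit 50, nat_lit 5, nat_lit 5, nat_lit 20], false, nat_lit 0, nat_lit 0, nat_lit 0, nat_lit 0, ⟨nat_lit 1000, nat_lit 0, nat_lit 0, nat_lit 0, nat_lit 0, nat_lit 0, nat_lit 0, nat_lit 0, nat_lit 0, nat_lit 0, nat_lit 0, nat_lit 0, nat_lit 0, nat_lit 0, nat_lit 0, nat_lit 0, false, false⟩,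
 nat_lit 0, nat_lit 11144, nat_lit 0, nat_lit 0, nat_lit 7245, nat_lit 12841, nat_lit 832, nat_lit 0, nat_lit 0, nat_lit 2259, nat_lit 0, nat_lit 0, nat_lit 0, nat_lit 0, nat_lit 0, nat_lit 0, nat_lit 0, nat_lit 0, [],
 ⟨p015_k44, nat_lit 0, nat_lit 0, nat_lit 508, nat_lit 0, nat_lit 745877, [nat_lit 3282000000, nat_lit 6250000000, nat_lit 7968000000], [], [nat_lit 30012637430, nat_lit 30110579266, nat_lit 29805812478, nat_lit 29904309661], nat_lit 1271250, nat_lit 1271250, nat_lit 490000, nat_lit 1100001, nat_lit 0, nat_lit 0, [nat_lit 780000, nat_lit 1435000, nat_lit 1271250], [nat_lit 18, nat_lit 40, nat_lit 80, nat_lit 80, nat_lit 2, nat_lit 249, nat_lit 40, nat_lit 8]⟩, ⟨p015_k55, nat_lit 0, nat_lit 0, nat_lit 0, nat_lit 0, nat_lit 0, [nat_lit 4688000000, nat_lit 7968000000, nat_lit 9842000000], [], [nat_lit 17423759650, nat_lit 17552976881, nat_lit 16651997900, nat_lit 16781549722], nat_lit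 0, nat_lit 0, nat_lit 0, nat_lit 0, nat_lit 0, nat_lit 0, [], [nat_lit 29, nat_lit 40, nat_lit 80, nat_lit 80]⟩,
 zbF0, []⟩
noncomputable def p015_l77 : Lf2 := ⟨nat_lit 0, nat_lit 8, [nat_lit 50, nat_lit 5, nat_lit 5, nat_lit 20], false, nat_lit 0, nat_lit 0, nat_lit 0, nat_lit 0, ⟨nat_lit 1000, nat_lit 0, nat_lit 0, nat_lit 0, nat_lit 0, nat_lit 0, nat_lit 0, nat_lit 0, nat_lit 0, nat_lit 0, nat_lit 0, nat_lit 0, nat_lit 0, nat_lit 0, nat_lit 0, nat_lit 0, false, false⟩,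
 nat_lit 0, nat_lit 11159, nat_lit 0, nat_lit 0, nat_lit 7255, nat_lit 12626, nat_lit 833, nat_lit 0, nat_lit 0, nat_lit 2234, nat_lit 0, nat_lit 0, nat_lit 0, nat_lit 0, nat_lit 0, nat_lit 0, nat_lit 0, nat_lit 0, [],
 ⟨p015_k44, nat_lit 0, nat_lit 0, nat_lit 507, nat_lit 0, nat_lit 745177, [nat_lit 3282000000, nat_lit 6250000000, nat_lit 7968000000], [], [nat_lit 29975825070, nat_lit 30025187770, nat_lit 29773798773, nat_lit 29823080331], nat_lit 1271250, nat_lit 1271250, nat_lit 490000, nat_lit 1100001, nat_lit 0, nat_lit 0, [nat_lit 780000, nat_lit 1435000, nat_lit 1271250], [nat_lit 18, nat_lit 40, nat_lit 80, nat_lit 80, nat_lit 2, nat_lit 249, nat_lit 40, nat_lit 8]⟩, ⟨p015_k56, nat_lit 0, nat_lit 0, nat_lit 0, nat_lit 0, nat_lit 0, [nat_lit 4688000000, nat_lit 7968000000, nat_lit 9842000000], [], [nat_lit 17481968778, nat_lit 17608732636, nat_lit 16737772861, nat_lit 16865735876], nat_lit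 0, nat_lit 0, nat_lit 0, nat_lit 0, nat_lit 0, nat_lit 0, [], [nat_lit 29, nat_lit 40, nat_lit 80, nat_lit 80]⟩,
 zbF0, []⟩
noncomputable def p015_l78 : Lf2 := ⟨nat_lit 0, nat_lit 8, [nat_lit 50, nat_lit 5, nat_lit 5, nat_lit 20], false, nat_lit 0, nat_lit 0, nat_lit 0, nat_lit 0, ⟨nat_lit 1000, nat_lit 0, nat_lit 0, nat_lit 0, nat_lit 0, nat_lit 0, nat_lit 0, nat_lit 0, nat_lit 0, nat_lit 0, nat_lit 0, nat_lit 0, nat_lit 0, nat_lit 0, nat_lit 0, nat_lit 0, false, false⟩,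
 nat_lit 0, nat_lit 11159, nat_lit 0, nat_lit 0, nat_lit 7255, nat_lit 12380, nat_lit 833, nat_lit 0, nat_lit 0, nat_lit 2213, nat_lit 0, nat_lit 0, nat_lit 0, nat_lit 0, nat_lit 0, nat_lit 0, nat_lit 0, nat_lit 0, [],
 ⟨p015_k44, nat_lit 0, nat_lit 0, nat_lit 511, nat_lit 0, nat_lit 752878, [nat_lit 3282000000, nat_lit 6250000000, nat_lit 7968000000], [], [nat_lit 29975825070, nat_lit 30025187770, nat_lit 29773798773, nat_lit 29823080331], nat_lit 1271250, nat_lit 1271250, nat_lit 490000, nat_lit 1100001, nat_lit 0, nat_lit 0, [nat_lit 780000, nat_lit 1435000, nat_lit 1271250], [nat_lit 18, nat_lit 40, nat_lit 80, nat_lit 80, nat_lit 2, nat_lit 249, nat_lit 40, nat_lit 8]⟩, ⟨p015_k57, nat_lit 0, nat_lit 0, nat_lit 0, nat_lit 0, nat_lit 0, [nat_lit 4688000000, nat_lit 7968000000, nat_lit 9842000000], [], [nat_lit 17507906949, nat_lit 17634531080, nat_lit 16800433952, nat_lit 16926579075], nat_lit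 0, nat_lit 0, nat_lit 0, nat_lit 0, nat_lit 0, nat_lit 0, [], [nat_lit 29, nat_lit 40, nat_lit 80, nat_lit 80]⟩,
 zbF0, []⟩
noncomputable def p015_l79 : Lf2 := ⟨nat_lit 0, nat_lit 8, [nat_lit 50, nat_lit 5, nat_lit 5, nat_lit 20], false, nat_lit 0, nat_lit 0, nat_lit 0, nat_lit 0, ⟨nat_lit 1000, nat_lit 0, nat_lit 0, nat_lit 0, nat_lit 0, nat_lit 0, nat_lit 0, nat_lit 0, nat_lit 0, nat_lit 0, nat_lit 0, nat_lit 0, nat_lit 0, nat_lit 0, nat_lit 0, nat_lit 0, false, false⟩,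
 nat_lit 0, nat_lit 11097, nat_lit 0, nat_lit 0, nat_lit 7245, nat_lit 12570, nat_lit 937, nat_lit 0, nat_lit 0, nat_lit 2223, nat_lit 0, nat_lit 0, nat_lit 0, nat_lit 0, nat_lit 0, nat_lit 0, nat_lit 0, nat_lit 0, [],
 ⟨p015_k58, nat_lit 0, nat_lit 0, nat_lit 512, nat_lit 0, nat_lit 756811, [nat_lit 3282000000, nat_lit 6250000000, nat_lit 7968000000], [], [nat_lit 29512045849, nat_lit 29561016766, nat_lit 29305498569, nat_lit 29354747161], nat_lit 1271250, nat_lit 1271250, nat_lit 490000, nat_lit 1100001, nat_lit 0, nat_lit 0, [nat_lit 780000, nat_lit 1435000, nat_lit 1271250], [nat_lit 18, nat_lit 40, nat_lit 80, nat_lit 80, nat_lit 2, nat_lit 249, nat_lit 40, nat_lit 8]⟩, ⟨p015_k56, nat_lit 0, nat_lit 0, nat_lit 0, nat_lit 0, nat_lit 0, [nat_lit 4688000000, nat_lit 7968000000, nat_lit 9842000000], [], [nat_lit 17523786454, nat_lit 17777936620, nat_lit 16773484804, nat_lit 17028583175], nat_lit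 0, nat_lit 0, nat_lit 0, nat_lit 0, nat_lit 0, nat_lit 0, [], [nat_lit 29, nat_lit 40, nat_lit 80, nat_lit 80]⟩,
 zbF0, []⟩
noncomputable def p015_l80 : Lf2 := ⟨nat_lit 0, nat_lit 10, [nat_lit 0, nat_lit 5, nat_lit 5, nat_lit 20], false, nat_lit 0, nat_lit 0, nat_lit 0, nat_lit 0, ⟨nat_lit 1000, nat_lit 0, nat_lit 0, nat_lit 0, nat_lit 0, nat_lit 0, nat_lit 0, nat_lit 0, nat_lit 0, nat_lit 0, nat_lit 0, nat_lit 0, nat_lit 0, nat_lit 0, nat_lit 0, nat_lit 0, false, false⟩,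
 nat_lit 0, nat_lit 11132, nat_lit 0, nat_lit 0, nat_lit 7237, nat_lit 7954, nat_lit 1143, nat_lit 0, nat_lit 0, nat_lit 1749, nat_lit 0, nat_lit 0, nat_lit 0, nat_lit 0, nat_lit 0, nat_lit 0, nat_lit 0, nat_lit 0, [],
 ⟨p015_k51, nat_lit 0, nat_lit 0, nat_lit 508, nat_lit 0, nat_lit 621713, [nat_lit 3282000000, nat_lit 6250000000, nat_lit 9842000000], [], [nat_lit 26056400474, nat_lit 26112967796, nat_lit 26703532183, nat_lit 26535307394], nat_lit 1271250, nat_lit 1271250, nat_lit 490000, nat_lit 1100001, nat_lit 0, nat_lit 0, [nat_lit 780000, nat_lit 1435000, nat_lit 1271250], [nat_lit 8, nat_lit 40, nat_lit 80, nat_lit 80, nat_lit 1, nat_lit 249, nat_lit 40, nat_lit 7]⟩, ⟨p015_k7, nat_lit 0, nat_lit 0, nat_lit 0, nat_lit 0, nat_lit 0, [nat_lit 4688000000, nat_lit 7968000000, nat_lit 9842000000], [], [nat_lit 18997937725, nat_lit 19439767788, nat_lit 19419519490, nat_lit 19807445513], nat_lit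 0, nat_lit 0, nat_lit 0, nat_lit 0, nat_lit 0, nat_lit 0, [], [nat_lit 29, nat_lit 40, nat_lit 80, nat_lit 80]⟩,
 zbF0, []⟩
noncomputable def p015_l81 : Lf2 := ⟨nat_lit 0, nat_lit 10, [nat_lit 0, nat_lit 5, nat_lit 5, nat_lit 20], false, nat_lit 0, nat_lit 0, nat_lit 0, nat_lit 0, ⟨nat_lit 1000, nat_lit 0, nat_lit 0, nat_lit 0, nat_lit 0, nat_lit 0, nat_lit 0, nat_lit 0, nat_lit 0, nat_lit 0, nat_lit 0, nat_lit 0, nat_lit 0, nat_lit 0, nat_lit 0, nat_lit 0, false, false⟩,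
 nat_lit 0, nat_lit 10332, nat_lit 0, nat_lit 0, nat_lit 6746, nat_lit 7954, nat_lit 898, nat_lit 0, nat_lit 0, nat_lit 1749, nat_lit 0, nat_lit 0, nat_lit 0, nat_lit 0, nat_lit 0, nat_lit 0, nat_lit 0, nat_lit 0, [],
 ⟨p015_k59, nat_lit 0, nat_lit 0, nat_lit 440, nat_lit 0, nat_lit 626507, [nat_lit 3282000000, nat_lit 6250000000, nat_lit 7968000000], [], [nat_lit 27340807393, nat_lit 27397520877, nat_lit 27733550641, nat_lit 27576739196], nat_lit 1271250, nat_lit 1271250, nat_lit 490000, nat_lit 1100001, nat_lit 0, nat_lit 0, [nat_lit 780000, nat_lit 1435000, nat_lit 1271250], [nat_lit 18, nat_lit 40, nat_lit 80, nat_lit 80, nat_lit 2, nat_lit 249, nat_lit 40, nat_lit 8]⟩, ⟨p015_k7, nat_lit 0, nat_lit 0, nat_lit 0, nat_lit 0, nat_lit 0, [nat_lit 4688000000, nat_lit 7968000000, nat_lit 9842000000], [], [nat_lit 18997937725, nat_lit 19439767788, nat_lit 19419519490, nat_lit 19807445513], nat_lit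 0, nat_lit 0, nat_lit 0, nat_lit 0, nat_lit 0, nat_lit 0, [], [nat_lit 29, nat_lit 40, nat_lit 80, nat_lit 80]⟩,
 zbF0, []⟩
noncomputable def p015_l82 : Lf2 := ⟨nat_lit 0, nat_lit 10, [nat_lit 0, nat_lit 5, nat_lit 5, nat_lit 20], false, nat_lit 0, nat_lit 0, nat_lit 0, nat_lit 0, ⟨nat_lit 1000, nat_lit 0, nat_lit 0, nat_lit 0, nat_lit 0, nat_lit 0, nat_lit 0, nat_lit 0, nat_lit 0, nat_lit 0, nat_lit 0, nat_lit 0, nat_lit 0, nat_lit 0, nat_lit 0, nat_lit 0, false, false⟩,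
 nat_lit 0, nat_lit 15675, nat_lit 0, nat_lit 0, nat_lit 10278, nat_lit 13300, nat_lit 1985, nat_lit 0, nat_lit 0, nat_lit 2271, nat_lit 0, nat_lit 0, nat_lit 0, nat_lit 0, nat_lit 0, nat_lit 0, nat_lit 0, nat_lit 0, [],
 ⟨p015_k60, nat_lit 0, nat_lit 0, nat_lit 511, nat_lit 0, nat_lit 752695, [nat_lit 3282000000, nat_lit 6250000000, nat_lit 7968000000], [], [nat_lit 18212555069, nat_lit 18280455211, nat_lit 17799742130, nat_lit 17649240628], nat_lit 1271250, nat_lit 1271250, nat_lit 490000, nat_lit 1100001, nat_lit 0, nat_lit 0, [nat_lit 780000, nat_lit 1435000, nat_lit 1271250], [nat_lit 18, nat_lit 40, nat_lit 80, nat_lit 80, nat_lit 2, nat_lit 249, nat_lit 40, nat_lit 8]⟩, ⟨p015_k7, nat_lit 0, nat_lit 0, nat_lit 0, nat_lit 0, nat_lit 0, [nat_lit 4688000000, nat_lit 7968000000, nat_lit 9842000000], [], [nat_lit 17493798750, nat_lit 17888364060, nat_lit 16618471675, nat_lit 17017302896],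 nat_lit 0, nat_lit 0, nat_lit 0, nat_lit 0, nat_lit 0, nat_lit 0, [], [nat_lit 29, nat_lit 40, nat_lit 80, nat_lit 80]⟩,
 zbF0, []⟩
noncomputable def p015_l83 : Lf2 := ⟨nat_lit 0, nat_lit 10, [nat_lit 0, nat_lit 5, nat_lit 5, nat_lit 20], false, nat_lit 0, nat_lit 0, nat_lit 0, nat_lit 0, ⟨nat_lit 1000, nat_lit 0, nat_lit 0, nat_lit 0, nat_lit 0, nat_lit 0, nat_lit 0, nat_lit 0, nat_lit 0, nat_lit 0, nat_lit 0, nat_lit 0, nat_lit 0, nat_lit 0, nat_lit 0, nat_lit 0, false, false⟩,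
 nat_lit 0, nat_lit 11676, nat_lit 0, nat_lit 0, nat_lit 7656, nat_lit 12626, nat_lit 843, nat_lit 0, nat_lit 0, nat_lit 2234, nat_lit 0, nat_lit 0, nat_lit 0, nat_lit 0, nat_lit 0, nat_lit 0, nat_lit 0, nat_lit 0, [],
 ⟨p015_k60, nat_lit 0, nat_lit 0, nat_lit 514, nat_lit 0, nat_lit 760316, [nat_lit 3282000000, nat_lit 6250000000, nat_lit 7968000000], [], [nat_lit 28387822589, nat_lit 28441723201, nat_lit 28079045023, nat_lit 28129648558], nat_lit 1271250, nat_lit 1271250, nat_lit 490000, nat_lit 1100001, nat_lit 0, nat_lit 0, [nat_lit 780000, nat_lit 1435000, nat_lit 1271250], [nat_lit 18, nat_lit 40, nat_lit 80, nat_lit 80, nat_lit 2, nat_lit 249, nat_lit 40, nat_lit 8]⟩, ⟨p015_k61, nat_lit 0, nat_lit 0, nat_lit 0, nat_lit 0, nat_lit 0, [nat_lit 4688000000, nat_lit 7968000000, nat_lit 9842000000], [], [nat_lit 17481968778, nat_lit 17608732636, nat_lit 16737772861, nat_lit 16865735876], nat_lit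 0, nat_lit 0, nat_lit 0, nat_lit 0, nat_lit 0, nat_lit 0, [], [nat_lit 29, nat_lit 40, nat_lit 80, nat_lit 80]⟩,
 zbF0, []⟩
noncomputable def p015_l84 : Lf2 := ⟨nat_lit 0, nat_lit 10, [nat_lit 0, nat_lit 5, nat_lit 5, nat_lit 20], false, nat_lit 0, nat_lit 0, nat_lit 0, nat_lit 0, ⟨nat_lit 1000, nat_lit 0, nat_lit 0, nat_lit 0, nat_lit 0, nat_lit 0, nat_lit 0, nat_lit 0, nat_lit 0, nat_lit 0, nat_lit 0, nat_lit 0, nat_lit 0, nat_lit 0, nat_lit 0, nat_lit 0, false, false⟩,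
 nat_lit 0, nat_lit 11580, nat_lit 0, nat_lit 0, nat_lit 7593, nat_lit 12380, nat_lit 842, nat_lit 0, nat_lit 0, nat_lit 2213, nat_lit 0, nat_lit 0, nat_lit 0, nat_lit 0, nat_lit 0, nat_lit 0, nat_lit 0, nat_lit 0, [],
 ⟨p015_k60, nat_lit 0, nat_lit 0, nat_lit 517, nat_lit 0, nat_lit 767959, [nat_lit 3282000000, nat_lit 6250000000, nat_lit 7968000000], [], [nat_lit 28565795517, nat_lit 28618121803, nat_lit 28270987230, nat_lit 28321383073], nat_lit 1271250, nat_lit 1271250, nat_lit 490000, nat_lit 1100001, nat_lit 0, nat_lit 0, [nat_lit 780000, nat_lit 1435000, nat_lit 1271250], [nat_lit 18, nat_lit 40, nat_lit 80, nat_lit 80, nat_lit 2, nat_lit 249, nat_lit 40, nat_lit 8]⟩, ⟨p015_k62, nat_lit 0, nat_lit 0, nat_lit 0, nat_lit 0, nat_lit 0, [nat_lit 4688000000, nat_lit 7968000000, nat_lit 9842000000], [], [nat_lit 17507906949, nat_lit 17634531080, nat_lit 16800433952, nat_lit 16926579075], nat_lit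 0, nat_lit 0, nat_lit 0, nat_lit 0, nat_lit 0, nat_lit 0, [], [nat_lit 29, nat_lit 40, nat_lit 80, nat_lit 80]⟩,
 zbF0, []⟩
noncomputable def p015_l85 : Lf2 := ⟨nat_lit 0, nat_lit 10, [nat_lit 0, nat_lit 5, nat_lit 5, nat_lit 20], false, nat_lit 0, nat_lit 0, nat_lit 0, nat_lit 0, ⟨nat_lit 1000, nat_lit 0, nat_lit 0, nat_lit 0, nat_lit 0, nat_lit 0, nat_lit 0, nat_lit 0, nat_lit 0, nat_lit 0, nat_lit 0, nat_lit 0, nat_lit 0, nat_lit 0, nat_lit 0, nat_lit 0, false, false⟩,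
 nat_lit 0, nat_lit 14833, nat_lit 0, nat_lit 0, nat_lit 9767, nat_lit 7954, nat_lit 2270, nat_lit 0, nat_lit 0, nat_lit 1749, nat_lit 0, nat_lit 0, nat_lit 0, nat_lit 0, nat_lit 0, nat_lit 0, nat_lit 0, nat_lit 0, [],
 ⟨p015_k53, nat_lit 0, nat_lit 0, nat_lit 519, nat_lit 0, nat_lit 771936, [nat_lit 3282000000, nat_lit 6250000000, nat_lit 7968000000], [], [nat_lit 18023771646, nat_lit 18089621094, nat_lit 17932889683, nat_lit 17705854791], nat_lit 1271250, nat_lit 1271250, nat_lit 490000, nat_lit 1100001, nat_lit 0, nat_lit 0, [nat_lit 780000, nat_lit 1435000, nat_lit 1271250], [nat_lit 18, nat_lit 40, nat_lit 80, nat_lit 80, nat_lit 2, nat_lit 249, nat_lit 40, nat_lit 8]⟩, ⟨p015_k7, nat_lit 0, nat_lit 0, nat_lit 0, nat_lit 0, nat_lit 0, [nat_lit 4688000000, nat_lit 7968000000, nat_lit 9842000000], [], [nat_lit 18997937725, nat_lit 19439767788, nat_lit 19419519490, nat_lit 19807445513], nat_lit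 0, nat_lit 0, nat_lit 0, nat_lit 0, nat_lit 0, nat_lit 0, [], [nat_lit 29, nat_lit 40, nat_lit 80, nat_lit 80]⟩,
 zbF0, []⟩
noncomputable def p015_l86 : Lf2 := ⟨nat_lit 0, nat_lit 10, [nat_lit 0, nat_lit 5, nat_lit 5, nat_lit 20], false, nat_lit 0, nat_lit 0, nat_lit 0, nat_lit 0, ⟨nat_lit 1000, nat_lit 0, nat_lit 0, nat_lit 0, nat_lit 0, nat_lit 0, nat_lit 0, nat_lit 0, nat_lit 0, nat_lit 0, nat_lit 0, nat_lit 0, nat_lit 0, nat_lit 0, nat_lit 0, nat_lit 0, false, false⟩,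
 nat_lit 0, nat_lit 14498, nat_lit 0, nat_lit 0, nat_lit 9587, nat_lit 7954, nat_lit 2167, nat_lit 0, nat_lit 0, nat_lit 1749, nat_lit 0, nat_lit 0, nat_lit 0, nat_lit 0, nat_lit 0, nat_lit 0, nat_lit 0, nat_lit 0, [],
 ⟨p015_k63, nat_lit 0, nat_lit 0, nat_lit 521, nat_lit 0, nat_lit 775857, [nat_lit 3282000000, nat_lit 6250000000, nat_lit 7968000000], [], [nat_lit 18052285812, nat_lit 18117412901, nat_lit 17867999463, nat_lit 17645148689], nat_lit 1271250, nat_lit 1271250, nat_lit 490000, nat_lit 1100001, nat_lit 0, nat_lit 0, [nat_lit 780000, nat_lit 1435000, nat_lit 1271250], [nat_lit 18, nat_lit 40, nat_lit 80, nat_lit 80, nat_lit 2, nat_lit 249, nat_lit 40, nat_lit 8]⟩, ⟨p015_k7, nat_lit 0, nat_lit 0, nat_lit 0, nat_lit 0, nat_lit 0, [nat_lit 4688000000, nat_lit 7968000000, nat_lit 9842000000], [], [nat_lit 18997937725, nat_lit 19439767788, nat_lit 19419519490, nat_lit 19807445513], nat_lit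 0, nat_lit 0, nat_lit 0, nat_lit 0, nat_lit 0, nat_lit 0, [], [nat_lit 29, nat_lit 40, nat_lit 80, nat_lit 80]⟩,
 zbF0, []⟩
noncomputable def b_N_700_600_0_3 : St := ⟨false, nat_lit 1, nat_lit 0, nat_lit 1, nat_lit 40, nat_lit 280, nat_lit 290, nat_lit 240, nat_lit 260, nat_lit 80, nat_lit 160, nat_lit 0, nat_lit 0, nat_lit 0, nat_lit 0, nat_lit 0, nat_lit 0, nat_lit 20, nat_lit 40, nat_lit 600, nat_lit 0, nat_lit 0, nat_lit 800⟩
theorem d_N_700_600_0_3 (h : EB TB.env) : Dead b_N_700_600_0_3 := chkB_sound0 h (T :=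
(.spl (nat_lit 1) (nat_lit 250)
(.spl (nat_lit 6) (nat_lit 32)
(.spl (nat_lit 1) (nat_lit 245)
(.spl (nat_lit 0) (nat_lit 285)
(.leaf p015_l57)
(.leaf p015_l58))
(.spl (nat_lit 0) (nat_lit 285)
(.spl (nat_lit 0) (nat_lit 283)
(.spl (nat_lit 6) (nat_lit 24)
(.leaf p015_l59)
(.leaf p015_l60))
(.spl (nat_lit 0) (nat_lit 284)
(.leaf p015_l61)
(.leaf p015_l62)))
(.spl (nat_lit 0) (nat_lit 288)
(.leaf p015_l63)
(.leaf p015_l64))))
(.spl (nat_lit 0) (nat_lit 285)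
(.leaf p015_l65)
(.leaf p015_l66)))
(.spl (nat_lit 0) (nat_lit 285)
(.spl (nat_lit 2) (nat_lit 120)
(.spl (nat_lit 2) (nat_lit 100)
(.leaf p015_l67)
(.spl (nat_lit 2) (nat_lit 112)
(.leaf p015_l68)
(.leaf p015_l69)))
(.leaf p015_l70))
(.spl (nat_lit 1) (nat_lit 255)
(.spl (nat_lit 0) (nat_lit 288)
(.spl (nat_lit 6) (nat_lit 32)
(.spl (nat_lit 1) (nat_lit 253)
(.leaf p015_l71)
(.leaf p015_l72))
(.leaf p015_l73))
(.leaf p015_l74))
(.spl (nat_lit 0) (nat_lit 288)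
(.spl (nat_lit 0) (nat_lit 287)
(.spl (nat_lit 6) (nat_lit 32)
(.spl (nat_lit 1) (nat_lit 258)
(.spl (nat_lit 1) (nat_lit 257)
(.leaf p015_l75)
(.leaf p015_l76))
(.spl (nat_lit 0) (nat_lit 286)
(.spl (nat_lit 1) (nat_lit 259)
(.leaf p015_l77)
(.leaf p015_l78))
(.leaf p015_l79)))
(.spl (nat_lit 0) (nat_lit 286)
(.leaf p015_l80)
(.leaf p015_l81)))
(.spl (nat_lit 1) (nat_lit 258)
(.leaf p015_l82)
(.spl (nat_lit 1) (nat_lit 259)
(.leaf p015_l83)
(.leaf p015_l84))))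
(.spl (nat_lit 0) (nat_lit 289)
(.leaf p015_l85)
(.leaf p015_l86))))))) (by decide +kernel)
noncomputable def p015_l87 : Lf2 := ⟨nat_lit 0, nat_lit 2, [nat_lit 10, nat_lit 5, nat_lit 5, nat_lit 20], false, nat_lit 0, nat_lit 0, nat_lit 0, nat_lit 0, ⟨nat_lit 1000, nat_lit 0, nat_lit 0, nat_lit 0, nat_lit 0, nat_lit 0, nat_lit 0, nat_lit 0, nat_lit 0, nat_lit 0, nat_lit 0, nat_lit 0, nat_lit 0, nat_lit 0, nat_lit 0, nat_lit 0, false, false⟩,
 nat_lit 0, nat_lit 13506, nat_lit 0, nat_lit 0, nat_lit 8594, nat_lit 6434, nat_lit 2657, nat_lit 0, nat_lit 0, nat_lit 0, nat_lit 0, nat_lit 0, nat_lit 0, nat_lit 0, nat_lit 0, nat_lit 0, nat_lit 0, nat_lit 0, [],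
 ⟨p015_k64, nat_lit 0, nat_lit 0, nat_lit 636, nat_lit 0, nat_lit 1206549, [nat_lit 3282000000, nat_lit 4688000000, nat_lit 6250000000], [], [nat_lit 20319486832, nat_lit 20445002911, nat_lit 20796977762, nat_lit 20199498002], nat_lit 1271250, nat_lit 1271250, nat_lit 490000, nat_lit 1100001, nat_lit 0, nat_lit 0, [nat_lit 780000, nat_lit 1100000, nat_lit 1442500], [nat_lit 59, nat_lit 40, nat_lit 80, nat_lit 80, nat_lit 3, nat_lit 249, nat_lit 40, nat_lit 10]⟩, ⟨p015_k65, nat_lit 0, nat_lit 0, nat_lit 0, nat_lit 0, nat_lit 0, [nat_lit 4688000000, nat_lit 6250000000], [], [nat_lit 13505183460, nat_lit 15742863752, nat_lit 14625637148, nat_lit 16611423200], nat_lit 0, nat_lit 0, nat_lit 0, nat_lit 0, nat_lit 0, nat_lit 0, [], [nat_lit 31, nat_lit 40, nat_lit 80, nat_lit 80]⟩,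
 zbF0, []⟩
noncomputable def p015_l88 : Lf2 := ⟨nat_lit 0, nat_lit 2, [nat_lit 10, nat_lit 5, nat_lit 5, nat_lit 20], false, nat_lit 0, nat_lit 0, nat_lit 0, nat_lit 0, ⟨nat_lit 1000, nat_lit 0, nat_lit 0, nat_lit 0, nat_lit 0, nat_lit 0, nat_lit 0, nat_lit 0, nat_lit 0, nat_lit 0, nat_lit 0, nat_lit 0, nat_lit 0, nat_lit 0, nat_lit 0, nat_lit 0, false, false⟩,
 nat_lit 0, nat_lit 12063, nat_lit 0, nat_lit 0, nat_lit 7776, nat_lit 6434, nat_lit 13237, nat_lit 0, nat_lit 0, nat_lit 0, nat_lit 0, nat_lit 0, nat_lit 0, nat_lit 0, nat_lit 0, nat_lit 0, nat_lit 0, nat_lit 0, [],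
 ⟨p015_k41, nat_lit 0, nat_lit 0, nat_lit 630, nat_lit 0, nat_lit 1200573, [nat_lit 3282000000, nat_lit 6250000000], [], [nat_lit 16122031488, nat_lit 16199664040, nat_lit 20914161184, nat_lit 20557420076], nat_lit 1271250, nat_lit 1271250, nat_lit 490000, nat_lit 1100001, nat_lit 0, nat_lit 0, [nat_lit 780000, nat_lit 1435000], [nat_lit 49, nat_lit 40, nat_lit 80, nat_lit 80, nat_lit 16, nat_lit 249, nat_lit 40, nat_lit 10]⟩, ⟨p015_k65, nat_lit 0, nat_lit 0, nat_lit 0, nat_lit 0, nat_lit 0, [nat_lit 4688000000, nat_lit 6250000000], [], [nat_lit 13505183460, nat_lit 15742863752, nat_lit 14625637148, nat_lit 16611423200], nat_lit 0, nat_lit 0, nat_lit 0, nat_lit 0, nat_lit 0, nat_lit 0, [], [nat_lit 31, nat_lit 40, nat_lit 80, nat_lit 80]⟩,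
 zbF0, []⟩
noncomputable def p015_l89 : Lf2 := ⟨nat_lit 0, nat_lit 2, [nat_lit 10, nat_lit 5, nat_lit 5, nat_lit 20], false, nat_lit 0, nat_lit 0, nat_lit 0, nat_lit 0, ⟨nat_lit 1000, nat_lit 0, nat_lit 0, nat_lit 0, nat_lit 0, nat_lit 0, nat_lit 0, nat_lit 0, nat_lit 0, nat_lit 0, nat_lit 0, nat_lit 0, nat_lit 0, nat_lit 0, nat_lit 0, nat_lit 0, false, false⟩,
 nat_lit 0, nat_lit 12353, nat_lit 0, nat_lit 0, nat_lit 8031, nat_lit 6434, nat_lit 8174, nat_lit 0, nat_lit 0, nat_lit 0, nat_lit 0, nat_lit 0, nat_lit 0, nat_lit 0, nat_lit 0, nat_lit 0, nat_lit 0, nat_lit 0, [],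
 ⟨p015_k27, nat_lit 0, nat_lit 0, nat_lit 639, nat_lit 0, nat_lit 1224734, [nat_lit 3282000000, nat_lit 6250000000], [], [nat_lit 13979695359, nat_lit 14208355307, nat_lit 19482076831, nat_lit 18560977348], nat_lit 1271250, nat_lit 1271250, nat_lit 490000, nat_lit 1100001, nat_lit 0, nat_lit 0, [nat_lit 780000, nat_lit 1435000], [nat_lit 49, nat_lit 40, nat_lit 80, nat_lit 80, nat_lit 16, nat_lit 249, nat_lit 40, nat_lit 10]⟩, ⟨p015_k65, nat_lit 0, nat_lit 0, nat_lit 0, nat_lit 0, nat_lit 0, [nat_lit 4688000000, nat_lit 6250000000], [], [nat_lit 13505183460, nat_lit 15742863752, nat_lit 14625637148, nat_lit 16611423200], nat_lit 0, nat_lit 0, nat_lit 0, nat_lit 0, nat_lit 0, nat_lit 0, [], [nat_lit 31, nat_lit 40, nat_lit 80, nat_lit 80]⟩,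
 zbF0, []⟩
noncomputable def p015_l90 : Lf2 := ⟨nat_lit 0, nat_lit 5, [nat_lit 4, nat_lit 5, nat_lit 5, nat_lit 20], false, nat_lit 0, nat_lit 0, nat_lit 0, nat_lit 0, ⟨nat_lit 1000, nat_lit 0, nat_lit 0, nat_lit 0, nat_lit 0, nat_lit 0, nat_lit 0, nat_lit 0, nat_lit 0, nat_lit 0, nat_lit 0, nat_lit 0, nat_lit 0, nat_lit 0, nat_lit 0, nat_lit 0, false, false⟩,
 nat_lit 0, nat_lit 11472, nat_lit 0, nat_lit 0, nat_lit 7300, nat_lit 6577, nat_lit 1413, nat_lit 0, nat_lit 0, nat_lit 0, nat_lit 0, nat_lit 0, nat_lit 0, nat_lit 0, nat_lit 0, nat_lit 0, nat_lit 0, nat_lit 0, [],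
 ⟨p015_k66, nat_lit 0, nat_lit 0, nat_lit 644, nat_lit 0, nat_lit 1049963, [nat_lit 3282000000, nat_lit 4688000000, nat_lit 7968000000], [], [nat_lit 28459110400, nat_lit 26968660800, nat_lit 26449039200, nat_lit 26843475900], nat_lit 1271250, nat_lit 1271250, nat_lit 490000, nat_lit 1100001, nat_lit 0, nat_lit 0, [nat_lit 780000, nat_lit 1100000, nat_lit 1785000], [nat_lit 36, nat_lit 40, nat_lit 80, nat_lit 80, nat_lit 7, nat_lit 249, nat_lit 40, nat_lit 8]⟩, ⟨p015_k67, nat_lit 0, nat_lit 0, nat_lit 0, nat_lit 0, nat_lit 0, [nat_lit 4688000000, nat_lit 6250000000, nat_lit 7968000000], [], [nat_lit 13437214130, nat_lit 14571980043, nat_lit 14535178494, nat_lit 15541755047], nat_lit 0, nat_lit 0, nat_lit 0, nat_lit 0, nat_lit 0, nat_lit 0, [], [nat_lit 9, nat_lit 40, nat_lit 80, nat_lit 80]⟩,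
 zbF0, []⟩
noncomputable def p015_l91 : Lf2 := ⟨nat_lit 0, nat_lit 5, [nat_lit 4, nat_lit 5, nat_lit 5, nat_lit 20], false, nat_lit 0, nat_lit 0, nat_lit 0, nat_lit 0, ⟨nat_lit 1000, nat_lit 0, nat_lit 0, nat_lit 0, nat_lit 0, nat_lit 0, nat_lit 0, nat_lit 0, nat_lit 0, nat_lit 0, nat_lit 0, nat_lit 0, nat_lit 0, nat_lit 0, nat_lit 0, nat_lit 0, false, false⟩,
 nat_lit 0, nat_lit 11455, nat_lit 0, nat_lit 0, nat_lit 7289, nat_lit 5377, nat_lit 1413, nat_lit 0, nat_lit 0, nat_lit 0, nat_lit 0, nat_lit 0, nat_lit 0, nat_lit 0, nat_lit 0, nat_lit 0, nat_lit 0, nat_lit 0, [],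
 ⟨p015_k66, nat_lit 0, nat_lit 0, nat_lit 677, nat_lit 0, nat_lit 1141956, [nat_lit 3282000000, nat_lit 4688000000, nat_lit 7968000000], [], [nat_lit 28465437512, nat_lit 27022054514, nat_lit 26504732376, nat_lit 26898915097], nat_lit 1271250, nat_lit 1271250, nat_lit 490000, nat_lit 1100001, nat_lit 0, nat_lit 0, [nat_lit 780000, nat_lit 1100000, nat_lit 1785000], [nat_lit 36, nat_lit 40, nat_lit 80, nat_lit 80, nat_lit 7, nat_lit 249, nat_lit 40, nat_lit 8]⟩, ⟨p015_k68, nat_lit 0, nat_lit 0, nat_lit 0, nat_lit 0, nat_lit 0, [nat_lit 3965500000, nat_lit 5449500000, nat_lit 7089500000], [], [nat_lit 13627981323, nat_lit 14663956104, nat_lit 14857381752, nat_lit 15780881868], nat_lit 0, nat_lit 0, nat_lit 0, nat_lit 0, nat_lit 0, nat_lit 0, [], [nat_lit 230, nat_lit 40, nat_lit 20, nat_lit 40]⟩,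
 zbF0, []⟩
noncomputable def p015_l92 : Lf2 := ⟨nat_lit 0, nat_lit 8, [nat_lit 50, nat_lit 5, nat_lit 5, nat_lit 20], false, nat_lit 0, nat_lit 0, nat_lit 0, nat_lit 0, ⟨nat_lit 1000, nat_lit 0, nat_lit 0, nat_lit 0, nat_lit 0, nat_lit 0, nat_lit 0, nat_lit 0, nat_lit 0, nat_lit 0, nat_lit 0, nat_lit 0, nat_lit 0, nat_lit 0, nat_lit 0, nat_lit 0, false, false⟩,
 nat_lit 0, nat_lit 11789, nat_lit 0, nat_lit 0, nat_lit 7502, nat_lit 7061, nat_lit 640, nat_lit 0, nat_lit 0, nat_lit 2861, nat_lit 0, nat_lit 0, nat_lit 0, nat_lit 0, nat_lit 0, nat_lit 0, nat_lit 0, nat_lit 0, [],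
 ⟨p015_k69, nat_lit 0, nat_lit 0, nat_lit 558, nat_lit 0, nat_lit 892972, [nat_lit 3282000000, nat_lit 4688000000, nat_lit 7968000000], [], [nat_lit 28342921616, nat_lit 26747824250, nat_lit 26585650096, nat_lit 26482428262], nat_lit 1271250, nat_lit 1271250, nat_lit 490000, nat_lit 1100001, nat_lit 0, nat_lit 0, [nat_lit 780000, nat_lit 1100000, nat_lit 1785000], [nat_lit 36, nat_lit 40, nat_lit 80, nat_lit 80, nat_lit 7, nat_lit 249, nat_lit 40, nat_lit 8]⟩, ⟨p015_k70, nat_lit 0, nat_lit 0, nat_lit 0, nat_lit 0, nat_lit 0, [nat_lit 3965500000, nat_lit 5449500000, nat_lit 8885500000], [], [nat_lit 15168310995, nat_lit 16090788882, nat_lit 16171736404, nat_lit 17043066460], nat_lit 0, nat_lit 0, nat_lit 0, nat_lit 0, nat_lit 0, nat_lit 0, [], [nat_lit 168, nat_lit 40, nat_lit 20, nat_lit 40]⟩,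
 zbF0, []⟩
noncomputable def p015_l93 : Lf2 := ⟨nat_lit 0, nat_lit 10, [nat_lit 0, nat_lit 5, nat_lit 5, nat_lit 20], false, nat_lit 0, nat_lit 0, nat_lit 0, nat_lit 0, ⟨nat_lit 1000, nat_lit 0, nat_lit 0, nat_lit 0, nat_lit 0, nat_lit 0, nat_lit 0, nat_lit 0, nat_lit 0, nat_lit 0, nat_lit 0, nat_lit 0, nat_lit 0, nat_lit 0, nat_lit 0, nat_lit 0, false, false⟩,
 nat_lit 0, nat_lit 11601, nat_lit 0, nat_lit 0, nat_lit 7382, nat_lit 3939, nat_lit 2360, nat_lit 0, nat_lit 0, nat_lit 2490, nat_lit 0, nat_lit 0, nat_lit 0, nat_lit 0, nat_lit 0, nat_lit 0, nat_lit 0, nat_lit 0, [],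
 ⟨p015_k17, nat_lit 0, nat_lit 0, nat_lit 561, nat_lit 0, nat_lit 671800, [nat_lit 3282000000, nat_lit 4688000000, nat_lit 9842000000], [], [nat_lit 22244265808, nat_lit 21460086526, nat_lit 25148824340, nat_lit 24302007438], nat_lit 1271250, nat_lit 1271250, nat_lit 490000, nat_lit 780000, nat_lit 0, nat_lit 0, [nat_lit 780000, nat_lit 1100000, nat_lit 2127500], [nat_lit 42, nat_lit 40, nat_lit 80, nat_lit 80, nat_lit 13, nat_lit 238, nat_lit 30, nat_lit 7]⟩, ⟨p015_k71, nat_lit 0, nat_lit 0, nat_lit 0, nat_lit 0, nat_lit 0, [nat_lit 2032000000, nat_lit 3965500000, nat_lit 5449500000, nat_lit 9842000000], [], [nat_lit 16600046884, nat_lit 16904279694, nat_lit 17020767798, nat_lit 17387368868], nat_lit 0, nat_lit 0, nat_lit 0, nat_lit 0, nat_lit 0, nat_lit 0, [], [nat_lit 224, nat_lit 40, nat_lit 20, nat_lit 40]⟩,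
 zbF0, []⟩
noncomputable def p015_l94 : Lf2 := ⟨nat_lit 0, nat_lit 10, [nat_lit 0, nat_lit 5, nat_lit 5, nat_lit 20], false, nat_lit 0, nat_lit 0, nat_lit 0, nat_lit 0, ⟨nat_lit 1000, nat_lit 0, nat_lit 0, nat_lit 0, nat_lit 0, nat_lit 0, nat_lit 0, nat_lit 0, nat_lit 0, nat_lit 0, nat_lit 0, nat_lit 0, nat_lit 0, nat_lit 0, nat_lit 0, nat_lit 0, false, false⟩,
 nat_lit 0, nat_lit 8477, nat_lit 0, nat_lit 0, nat_lit 5394, nat_lit 3922, nat_lit 1804, nat_lit 0, nat_lit 0, nat_lit 2479, nat_lit 0, nat_lit 0, nat_lit 0, nat_lit 0, nat_lit 0, nat_lit 0, nat_lit 0, nat_lit 0, [],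
 ⟨p015_k17, nat_lit 0, nat_lit 0, nat_lit 574, nat_lit 0, nat_lit 713803, [nat_lit 3282000000, nat_lit 4688000000, nat_lit 9842000000], [], [nat_lit 28798654836, nat_lit 28356273642, nat_lit 31233397280, nat_lit 30614631313], nat_lit 1271250, nat_lit 1271250, nat_lit 490000, nat_lit 780000, nat_lit 0, nat_lit 0, [nat_lit 780000, nat_lit 1100000, nat_lit 2127500], [nat_lit 42, nat_lit 40, nat_lit 80, nat_lit 80, nat_lit 13, nat_lit 238, nat_lit 30, nat_lit 7]⟩, ⟨p015_k72, nat_lit 0, nat_lit 0, nat_lit 0, nat_lit 0, nat_lit 0, [nat_lit 2032000000, nat_lit 3965500000, nat_lit 5449500000, nat_lit 9842000000], [], [nat_lit 16470212809, nat_lit 16774390143, nat_lit 16875347890, nat_lit 17241160151], nat_lit 0, nat_lit 0, nat_lit 0, nat_lit 0, nat_lit 0, nat_lit 0, [], [nat_lit 224, nat_lit 40, nat_lit 20, nat_lit 40]⟩,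
 zbF0, []⟩
noncomputable def p015_l95 : Lf2 := ⟨nat_lit 0, nat_lit 10, [nat_lit 0, nat_lit 5, nat_lit 5, nat_lit 20], false, nat_lit 0, nat_lit 0, nat_lit 0, nat_lit 0, ⟨nat_lit 1000, nat_lit 0, nat_lit 0, nat_lit 0, nat_lit 0, nat_lit 0, nat_lit 0, nat_lit 0, nat_lit 0, nat_lit 0, nat_lit 0, nat_lit 0, nat_lit 0, nat_lit 0, nat_lit 0, nat_lit 0, false, false⟩,
 nat_lit 0, nat_lit 11369, nat_lit 0, nat_lit 0, nat_lit 7234, nat_lit 11944, nat_lit 958, nat_lit 0, nat_lit 0, nat_lit 2028, nat_lit 0, nat_lit 0, nat_lit 0, nat_lit 0, nat_lit 0, nat_lit 0, nat_lit 0, nat_lit 0, [],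
 ⟨p015_k0, nat_lit 0, nat_lit 0, nat_lit 555, nat_lit 0, nat_lit 713803, [nat_lit 3282000000, nat_lit 6250000000, nat_lit 9842000000], [], [nat_lit 31285713782, nat_lit 31504684004, nat_lit 31171858480, nat_lit 31409351303], nat_lit 1271250, nat_lit 1271250, nat_lit 780000, nat_lit 1100001, nat_lit 0, nat_lit 0, [nat_lit 780000, nat_lit 1435000, nat_lit 1271250], [nat_lit 8, nat_lit 40, nat_lit 80, nat_lit 80, nat_lit 1, nat_lit 249, nat_lit 40, nat_lit 7]⟩, ⟨p015_k5, nat_lit 0, nat_lit 0, nat_lit 0, nat_lit 0, nat_lit 0, [nat_lit 4688000000, nat_lit 7968000000, nat_lit 9842000000], [], [nat_lit 17669705880, nat_lit 18811989940, nat_lit 17189580160, nat_lit 18418811872], nat_lit 0, nat_lit 0, nat_lit 0, nat_lit 0, nat_lit 0, nat_lit 0, [], [nat_lit 29, nat_lit 40, nat_lit 80, nat_lit 80]⟩,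
 zbF0, []⟩
noncomputable def p015_l96 : Lf2 := ⟨nat_lit 0, nat_lit 10, [nat_lit 0, nat_lit 5, nat_lit 5, nat_lit 20], false, nat_lit 0, nat_lit 0, nat_lit 0, nat_lit 0, ⟨nat_lit 1000, nat_lit 0, nat_lit 0, nat_lit 0, nat_lit 0, nat_lit 0, nat_lit 0, nat_lit 0, nat_lit 0, nat_lit 0, nat_lit 0, nat_lit 0, nat_lit 0, nat_lit 0, nat_lit 0, nat_lit 0, false, false⟩,
 nat_lit 0, nat_lit 7927, nat_lit 0, nat_lit 0, nat_lit 5154, nat_lit 6225, nat_lit 1788, nat_lit 0, nat_lit 0, nat_lit 2660, nat_lit 0, nat_lit 0, nat_lit 0, nat_lit 0, nat_lit 0, nat_lit 0, nat_lit 0, nat_lit 0, [],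
 ⟨p015_k73, nat_lit 0, nat_lit 0, nat_lit 581, nat_lit 0, nat_lit 734260, [nat_lit 3282000000, nat_lit 4688000000, nat_lit 9842000000], [], [nat_lit 28194272199, nat_lit 27791006108, nat_lit 28868666354, nat_lit 28491895276], nat_lit 1271250, nat_lit 1271250, nat_lit 490000, nat_lit 1100001, nat_lit 0, nat_lit 0, [nat_lit 780000, nat_lit 1100000, nat_lit 2127500], [nat_lit 42, nat_lit 40, nat_lit 80, nat_lit 80, nat_lit 13, nat_lit 249, nat_lit 40, nat_lit 7]⟩, ⟨p015_k74, nat_lit 0, nat_lit 0, nat_lit 0, nat_lit 0, nat_lit 0, [nat_lit 3965500000, nat_lit 5449500000, nat_lit 9842000000], [], [nat_lit 16470037400, nat_lit 17174945450, nat_lit 17441984900, nat_lit 18250367500], nat_lit 0, nat_lit 0, nat_lit 0, nat_lit 0, nat_lit 0, nat_lit 0, [], [nat_lit 169, nat_lit 40, nat_lit 20, nat_lit 40]⟩,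
 zbF0, []⟩
noncomputable def p015_l97 : Lf2 := ⟨nat_lit 0, nat_lit 10, [nat_lit 0, nat_lit 5, nat_lit 5, nat_lit 20], false, nat_lit 0, nat_lit 0, nat_lit 0, nat_lit 0, ⟨nat_lit 1000, nat_lit 0, nat_lit 0, nat_lit 0, nat_lit 0, nat_lit 0, nat_lit 0, nat_lit 0, nat_lit 0, nat_lit 0, nat_lit 0, nat_lit 0, nat_lit 0, nat_lit 0, nat_lit 0, nat_lit 0, false, false⟩,
 nat_lit 0, nat_lit 25423, nat_lit 0, nat_lit 0, nat_lit 16178, nat_lit 7620, nat_lit 1792, nat_lit 309, nat_lit 0, nat_lit 1747, nat_lit 0, nat_lit 0, nat_lit 0, nat_lit 0, nat_lit 0, nat_lit 0, nat_lit 0, nat_lit 0, [],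
 ⟨p015_k0, nat_lit 0, nat_lit 0, nat_lit 0, nat_lit 0, nat_lit 488433, [nat_lit 6990000001, nat_lit 12430000001, nat_lit 18494000000], [], [nat_lit 28673230650, nat_lit 29675020489, nat_lit 27984724266, nat_lit 29170296558], nat_lit 1271250, nat_lit 1271250, nat_lit 490000, nat_lit 631250, nat_lit 0, nat_lit 0, [nat_lit 780000, nat_lit 1435000, nat_lit 1271250], [nat_lit 8, nat_lit 40, nat_lit 80, nat_lit 80]⟩, ⟨p015_k23, nat_lit 0, nat_lit 0, nat_lit 0, nat_lit 0, nat_lit 0, [nat_lit 4688000000, nat_lit 7968000000, nat_lit 9842000000], [], [nat_lit 18487999060, nat_lit 19347941100, nat_lit 18570129675, nat_lit 19404206300], nat_lit 0, nat_lit 0, nat_lit 0, nat_lit 0, nat_lit 0, nat_lit 0, [], [nat_lit 29, nat_lit 40, nat_lit 80, nat_lit 80]⟩,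
 zbF0, []⟩
noncomputable def p015_l98 : Lf2 := ⟨nat_lit 0, nat_lit 10, [nat_lit 0, nat_lit 5, nat_lit 5, nat_lit 20], true, nat_lit 0, nat_lit 0, nat_lit 0, nat_lit 0, ⟨nat_lit 0, nat_lit 0, nat_lit 1000, nat_lit 6, nat_lit 162, nat_lit 0, nat_lit 0, nat_lit 0, nat_lit 0, nat_lit 215, nat_lit 248067, nat_lit 337, nat_lit 57514095, nat_lit 0, nat_lit 0, nat_lit 2039110, false, false⟩,
 nat_lit 0, nat_lit 10316, nat_lit 0, nat_lit 0, nat_lit 6564, nat_lit 0, nat_lit 176, nat_lit 154, nat_lit 0, nat_lit 0, nat_lit 0, nat_lit 0, nat_lit 0, nat_lit 0, nat_lit 54, nat_lit 1000000, nat_lit 0, nat_lit 0, [(nat_lit 12, [(nat_lit 6, nat_lit 1000)])],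
 ⟨p015_k0, nat_lit 0, nat_lit 0, nat_lit 0, nat_lit 0, nat_lit 488433, [nat_lit 3637200001, nat_lit 3032400001, nat_lit 431200000], [], [nat_lit 16065239144, nat_lit 16449156226, nat_lit 16869824936, nat_lit 16477831500], nat_lit 1271250, nat_lit 1271250, nat_lit 631250, nat_lit 719601, nat_lit 0, nat_lit 0, [nat_lit 780000, nat_lit 1435000, nat_lit 1271250], [nat_lit 8, nat_lit 40, nat_lit 80, nat_lit 80]⟩, C1.Rw.none,
 ⟨nat_lit 5244, nat_lit 5478, ⟨.ofNat (nat_lit 387416), .ofNat (nat_lit 409895), .ofNat (nat_lit 398094), .ofNat (nat_lit 420573), .ofNat (nat_lit 391920), .ofNat (nat_lit 413871), .ofNat (nat_lit 402612), .ofNat (nat_lit 424563)⟩, ⟨.ofNat (nat_lit 0), .ofNat (nat_lit 0), .ofNat (nat_lit 0), .ofNat (nat_lit 0), .ofNat (nat_lit 0), .ofNat (nat_lit 0), .ofNat (nat_lit 0), .ofNat (nat_lit 0)⟩⟩, []⟩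
noncomputable def p015_l99 : Lf2 := ⟨nat_lit 0, nat_lit 10, [nat_lit 0, nat_lit 5, nat_lit 5, nat_lit 20], true, nat_lit 0, nat_lit 0, nat_lit 0, nat_lit 0, ⟨nat_lit 0, nat_lit 0, nat_lit 1000, nat_lit 6, nat_lit 168, nat_lit 0, nat_lit 0, nat_lit 0, nat_lit 0, nat_lit 215, nat_lit 264600, nat_lit 341, nat_lit 56955262, nat_lit 0, nat_lit 0, nat_lit 2112862, false, false⟩,
 nat_lit 0, nat_lit 14936, nat_lit 0, nat_lit 0, nat_lit 9504, nat_lit 0, nat_lit 366, nat_lit 339, nat_lit 0, nat_lit 0, nat_lit 0, nat_lit 0, nat_lit 0, nat_lit 0, nat_lit 0, nat_lit 1000000, nat_lit 0, nat_lit 0, [(nat_lit 12, [(nat_lit 6, nat_lit 1000)])],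
 ⟨p015_k0, nat_lit 0, nat_lit 0, nat_lit 0, nat_lit 0, nat_lit 467919, [nat_lit 5209200001, nat_lit 5652400001, nat_lit 4099200000], [], [nat_lit 21195540088, nat_lit 21348696680, nat_lit 21556250014, nat_lit 21327204216], nat_lit 1271250, nat_lit 1271250, nat_lit 719601, nat_lit 749650, nat_lit 0, nat_lit 0, [nat_lit 780000, nat_lit 1435000, nat_lit 1271250], [nat_lit 8, nat_lit 40, nat_lit 80, nat_lit 80]⟩, C1.Rw.none,
 ⟨nat_lit 5361, nat_lit 5478, ⟨.ofNat (nat_lit 409895), .ofNat (nat_lit 417389), .ofNat (nat_lit 420574), .ofNat (nat_lit 428067), .ofNat (nat_lit 411883), .ofNat (nat_lit 419288), .ofNat (nat_lit 422568), .ofNat (nat_lit 429973)⟩, ⟨.ofNat (nat_lit 0), .ofNat (nat_lit 0), .ofNat (nat_lit 0), .ofNat (nat_lit 0), .ofNat (nat_lit 0), .ofNat (nat_lit 0), .ofNat (nat_lit 0), .ofNat (nat_lit 0)⟩⟩, []⟩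
noncomputable def p015_l100 : Lf2 := ⟨nat_lit 0, nat_lit 10, [nat_lit 0, nat_lit 5, nat_lit 5, nat_lit 20], false, nat_lit 0, nat_lit 0, nat_lit 0, nat_lit 0, ⟨nat_lit 1000, nat_lit 0, nat_lit 0, nat_lit 0, nat_lit 0, nat_lit 0, nat_lit 0, nat_lit 0, nat_lit 0, nat_lit 0, nat_lit 0, nat_lit 0, nat_lit 0, nat_lit 0, nat_lit 0, nat_lit 0, false, false⟩,
 nat_lit 0, nat_lit 10330, nat_lit 0, nat_lit 0, nat_lit 6573, nat_lit 10042, nat_lit 891, nat_lit 0, nat_lit 50, nat_lit 1921, nat_lit 0, nat_lit 0, nat_lit 0, nat_lit 0, nat_lit 0, nat_lit 0, nat_lit 0, nat_lit 0, [],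
 ⟨p015_k0, nat_lit 0, nat_lit 0, nat_lit 0, nat_lit 0, nat_lit 887876, [nat_lit 3282000000, nat_lit 6250000000, nat_lit 9842000000], [], [nat_lit 29194193617, nat_lit 29316775086, nat_lit 29188465180, nat_lit 29315852536], nat_lit 1271250, nat_lit 1271250, nat_lit 749650, nat_lit 780000, nat_lit 0, nat_lit 0, [nat_lit 780000, nat_lit 1435000, nat_lit 1271250], [nat_lit 8, nat_lit 40, nat_lit 80, nat_lit 80]⟩, ⟨p015_k23, nat_lit 0, nat_lit 0, nat_lit 0, nat_lit 0, nat_lit 0, [nat_lit 4688000000, nat_lit 7968000000, nat_lit 9842000000], [], [nat_lit 17740560561, nat_lit 18252438690, nat_lit 17696394805, nat_lit 18231209728], nat_lit 0, nat_lit 0, nat_lit 0, nat_lit 0, nat_lit 0, nat_lit 0, [], [nat_lit 29, nat_lit 40, nat_lit 80, nat_lit 80]⟩,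
 zbF0, []⟩
noncomputable def p015_l101 : Lf2 := ⟨nat_lit 0, nat_lit 10, [nat_lit 0, nat_lit 5, nat_lit 5, nat_lit 20], false, nat_lit 0, nat_lit 0, nat_lit 0, nat_lit 0, ⟨nat_lit 1000, nat_lit 0, nat_lit 0, nat_lit 0, nat_lit 0, nat_lit 0, nat_lit 0, nat_lit 0, nat_lit 0, nat_lit 0, nat_lit 0, nat_lit 0, nat_lit 0, nat_lit 0, nat_lit 0, nat_lit 0, false, false⟩,
 nat_lit 0, nat_lit 10413, nat_lit 0, nat_lit 0, nat_lit 6712, nat_lit 10042, nat_lit 905, nat_lit 0, nat_lit 41, nat_lit 1921, nat_lit 0, nat_lit 0, nat_lit 0, nat_lit 0, nat_lit 0, nat_lit 0, nat_lit 0, nat_lit 0, [],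
 ⟨p015_k75, nat_lit 0, nat_lit 0, nat_lit 0, nat_lit 0, nat_lit 888499, [nat_lit 3282000000, nat_lit 6250000000, nat_lit 9842000000], [], [nat_lit 28701528703, nat_lit 28786881194, nat_lit 28693446906, nat_lit 28783681922], nat_lit 1271250, nat_lit 1271250, nat_lit 749650, nat_lit 780000, nat_lit 0, nat_lit 0, [nat_lit 780000, nat_lit 1435000, nat_lit 1271250], [nat_lit 8, nat_lit 40, nat_lit 80, nat_lit 80]⟩, ⟨p015_k23, nat_lit 0, nat_lit 0, nat_lit 0, nat_lit 0, nat_lit 0, [nat_lit 4688000000, nat_lit 7968000000, nat_lit 9842000000], [], [nat_lit 17740560561, nat_lit 18252438690, nat_lit 17696394805, nat_lit 18231209728], nat_lit 0, nat_lit 0, nat_lit 0, nat_lit 0, nat_lit 0, nat_lit 0, [], [nat_lit 29, nat_lit 40, nat_lit 80, nat_lit 80]⟩,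
 zbF0, []⟩
noncomputable def p015_l102 : Lf2 := ⟨nat_lit 0, nat_lit 10, [nat_lit 0, nat_lit 5, nat_lit 5, nat_lit 20], false, nat_lit 0, nat_lit 0, nat_lit 0, nat_lit 0, ⟨nat_lit 1000, nat_lit 0, nat_lit 0, nat_lit 0, nat_lit 0, nat_lit 0, nat_lit 0, nat_lit 0, nat_lit 0, nat_lit 0, nat_lit 0, nat_lit 0, nat_lit 0, nat_lit 0, nat_lit 0, nat_lit 0, false, false⟩,
 nat_lit 0, nat_lit 13634, nat_lit 0, nat_lit 0, nat_lit 8676, nat_lit 7166, nat_lit 1786, nat_lit 0, nat_lit 0, nat_lit 2705, nat_lit 0, nat_lit 0, nat_lit 0, nat_lit 0, nat_lit 0, nat_lit 0, nat_lit 0, nat_lit 0, [],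
 ⟨p015_k17, nat_lit 0, nat_lit 0, nat_lit 0, nat_lit 0, nat_lit 951376, [nat_lit 3282000000, nat_lit 4688000000, nat_lit 9842000000], [], [nat_lit 19767946399, nat_lit 18774625291, nat_lit 20130445498, nat_lit 19121884357], nat_lit 1271250, nat_lit 1271250, nat_lit 749650, nat_lit 780000, nat_lit 0, nat_lit 0, [nat_lit 780000, nat_lit 1100000, nat_lit 2127500], [nat_lit 42, nat_lit 40, nat_lit 80, nat_lit 80]⟩, ⟨p015_k76, nat_lit 0, nat_lit 0, nat_lit 0, nat_lit 0, nat_lit 0, [nat_lit 4688000000, nat_lit 6250000000, nat_lit 9842000000], [], [nat_lit 16189106519, nat_lit 16536223274, nat_lit 16190166093, nat_lit 16538426928], nat_lit 0, nat_lit 0, nat_lit 0, nat_lit 0, nat_lit 0, nat_lit 0, [], [nat_lit 11, nat_lit 40, nat_lit 80, nat_lit 80]⟩,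
 zbF0, []⟩
noncomputable def p015_l103 : Lf2 := ⟨nat_lit 0, nat_lit 10, [nat_lit 0, nat_lit 5, nat_lit 5, nat_lit 20], false, nat_lit 0, nat_lit 0, nat_lit 0, nat_lit 0, ⟨nat_lit 1000, nat_lit 0, nat_lit 0, nat_lit 0, nat_lit 0, nat_lit 0, nat_lit 0, nat_lit 0, nat_lit 0, nat_lit 0, nat_lit 0, nat_lit 0, nat_lit 0, nat_lit 0, nat_lit 0, nat_lit 0, false, false⟩,
 nat_lit 0, nat_lit 12709, nat_lit 0, nat_lit 0, nat_lit 8263, nat_lit 7159, nat_lit 1772, nat_lit 0, nat_lit 0, nat_lit 2787, nat_lit 0, nat_lit 0, nat_lit 0, nat_lit 0, nat_lit 0, nat_lit 0, nat_lit 0, nat_lit 0, [],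
 ⟨p015_k73, nat_lit 0, nat_lit 0, nat_lit 0, nat_lit 0, nat_lit 964174, [nat_lit 3282000000, nat_lit 4688000000, nat_lit 9842000000], [], [nat_lit 19293433176, nat_lit 18505330409, nat_lit 19264077998, nat_lit 18505504869], nat_lit 1271250, nat_lit 1271250, nat_lit 719601, nat_lit 780000, nat_lit 0, nat_lit 0, [nat_lit 780000, nat_lit 1100000, nat_lit 2127500], [nat_lit 42, nat_lit 40, nat_lit 80, nat_lit 80]⟩, ⟨p015_k77, nat_lit 0, nat_lit 0, nat_lit 0, nat_lit 0, nat_lit 0, [nat_lit 4688000000, nat_lit 6250000000, nat_lit 9842000000], [], [nat_lit 16096300334, nat_lit 16794784746, nat_lit 16102888073, nat_lit 16856425861], nat_lit 0, nat_lit 0, nat_lit 0, nat_lit 0, nat_lit 0, nat_lit 0, [], [nat_lit 11, nat_lit 40, nat_lit 80, nat_lit 80]⟩,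
 zbF0, []⟩
noncomputable def p015_l104 : Lf2 := ⟨nat_lit 0, nat_lit 10, [nat_lit 0, nat_lit 5, nat_lit 5, nat_lit 20], false, nat_lit 0, nat_lit 0, nat_lit 0, nat_lit 0, ⟨nat_lit 1000, nat_lit 0, nat_lit 0, nat_lit 0, nat_lit 0, nat_lit 0, nat_lit 0, nat_lit 0, nat_lit 0, nat_lit 0, nat_lit 0, nat_lit 0, nat_lit 0, nat_lit 0, nat_lit 0, nat_lit 0, false, false⟩,
 nat_lit 0, nat_lit 13730, nat_lit 0, nat_lit 0, nat_lit 8737, nat_lit 7174, nat_lit 1765, nat_lit 0, nat_lit 0, nat_lit 2768, nat_lit 0, nat_lit 0, nat_lit 0, nat_lit 0, nat_lit 0, nat_lit 0, nat_lit 0, nat_lit 0, [],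
 ⟨p015_k17, nat_lit 0, nat_lit 0, nat_lit 0, nat_lit 0, nat_lit 993087, [nat_lit 3282000000, nat_lit 4688000000, nat_lit 9842000000], [], [nat_lit 20112101601, nat_lit 18878748132, nat_lit 24396724953, nat_lit 22392579471], nat_lit 1271250, nat_lit 1271250, nat_lit 780000, nat_lit 1100001, nat_lit 0, nat_lit 0, [nat_lit 780000, nat_lit 1100000, nat_lit 2127500], [nat_lit 42, nat_lit 40, nat_lit 80, nat_lit 80]⟩, ⟨p015_k77, nat_lit 0, nat_lit 0, nat_lit 0, nat_lit 0, nat_lit 0, [nat_lit 4688000000, nat_lit 6250000000, nat_lit 9842000000], [], [nat_lit 16171716735, nat_lit 16862075980, nat_lit 16358437180, nat_lit 17168331504], nat_lit 0, nat_lit 0, nat_lit 0, nat_lit 0, nat_lit 0, nat_lit 0, [], [nat_lit 11, nat_lit 40, nat_lit 80, nat_lit 80]⟩,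
 zbF0, []⟩
noncomputable def p015_l105 : Lf2 := ⟨nat_lit 0, nat_lit 10, [nat_lit 0, nat_lit 5, nat_lit 5, nat_lit 20], false, nat_lit 0, nat_lit 0, nat_lit 0, nat_lit 0, ⟨nat_lit 1000, nat_lit 0, nat_lit 0, nat_lit 0, nat_lit 0, nat_lit 0, nat_lit 0, nat_lit 0, nat_lit 0, nat_lit 0, nat_lit 0, nat_lit 0, nat_lit 0, nat_lit 0, nat_lit 0, nat_lit 0, false, false⟩,
 nat_lit 0, nat_lit 17214, nat_lit 0, nat_lit 0, nat_lit 10954, nat_lit 6835, nat_lit 2243, nat_lit 140, nat_lit 0, nat_lit 2766, nat_lit 0, nat_lit 0, nat_lit 0, nat_lit 0, nat_lit 0, nat_lit 0, nat_lit 0, nat_lit 0, [],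
 ⟨p015_k17, nat_lit 0, nat_lit 0, nat_lit 680, nat_lit 0, nat_lit 951376, [nat_lit 4962000000, nat_lit 6928000001, nat_lit 13762000000], [], [nat_lit 21675797703, nat_lit 21973949095, nat_lit 21151586957, nat_lit 21502049432], nat_lit 1271250, nat_lit 1271250, nat_lit 490000, nat_lit 1100001, nat_lit 0, nat_lit 0, [nat_lit 780000, nat_lit 1100000, nat_lit 2127500], [nat_lit 42, nat_lit 40, nat_lit 80, nat_lit 80, nat_lit 13, nat_lit 249, nat_lit 40, nat_lit 7]⟩, ⟨p015_k78, nat_lit 0, nat_lit 0, nat_lit 0, nat_lit 0, nat_lit 0, [nat_lit 3965500000, nat_lit 5449500000, nat_lit 8885500000], [], [nat_lit 15246226575, nat_lit 16151730210, nat_lit 16167960850, nat_lit 17022274010], nat_lit 0, nat_lit 0, nat_lit 0, nat_lit 0, nat_lit 0, nat_lit 0, [], [nat_lit 168, nat_lit 40, nat_lit 20, nat_lit 40]⟩,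
 zbF0, []⟩
noncomputable def p015_l106 : Lf2 := ⟨nat_lit 0, nat_lit 10, [nat_lit 0, nat_lit 5, nat_lit 5, nat_lit 20], false, nat_lit 0, nat_lit 0, nat_lit 0, nat_lit 0, ⟨nat_lit 1000, nat_lit 0, nat_lit 0, nat_lit 0, nat_lit 0, nat_lit 0, nat_lit 0, nat_lit 0, nat_lit 0, nat_lit 0, nat_lit 0, nat_lit 0, nat_lit 0, nat_lit 0, nat_lit 0, nat_lit 0, false, false⟩,
 nat_lit 0, nat_lit 100000, nat_lit 0, nat_lit 0, nat_lit 65019, nat_lit 7137, nat_lit 10660, nat_lit 3041, nat_lit 0, nat_lit 2879, nat_lit 0, nat_lit 0, nat_lit 0, nat_lit 0, nat_lit 0, nat_lit 0, nat_lit 0, nat_lit 0, [],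
 ⟨p015_k73, nat_lit 0, nat_lit 0, nat_lit 692, nat_lit 0, nat_lit 964174, [nat_lit 39774000000, nat_lit 53344000001, nat_lit 94990000000], [], [nat_lit 51755811307, nat_lit 52906669989, nat_lit 40491167840, nat_lit 41927661002], nat_lit 1271250, nat_lit 1271250, nat_lit 490000, nat_lit 1100001, nat_lit 0, nat_lit 0, [nat_lit 780000, nat_lit 1100000, nat_lit 2127500], [nat_lit 42, nat_lit 40, nat_lit 80, nat_lit 80, nat_lit 13, nat_lit 249, nat_lit 40, nat_lit 7]⟩, ⟨p015_k77, nat_lit 0, nat_lit 0, nat_lit 0, nat_lit 0, nat_lit 0, [nat_lit 4688000000, nat_lit 6250000000, nat_lit 9842000000], [], [nat_lit 15686751361, nat_lit 16458829519, nat_lit 16271831465, nat_lit 17079238427], nat_lit 0, nat_lit 0, nat_lit 0, nat_lit 0, nat_lit 0, nat_lit 0, [], [nat_lit 11, nat_lit 40, nat_lit 80, nat_lit 80]⟩,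
 zbF0, []⟩
noncomputable def b_N_700_600_0_4 : St := ⟨false, nat_lit 1, nat_lit 0, nat_lit 1, nat_lit 40, nat_lit 280, nat_lit 290, nat_lit 260, nat_lit 280, nat_lit 80, nat_lit 160, nat_lit 0, nat_lit 0, nat_lit 0, nat_lit 0, nat_lit 0, nat_lit 0, nat_lit 0, nat_lit 40, nat_lit 600, nat_lit 0, nat_lit 0, nat_lit 800⟩
theorem d_N_700_600_0_4 (h : EB TB.env) : Dead b_N_700_600_0_4 := chkB_sound0 h (T :=
(.spl (nat_lit 6) (nat_lit 20)
(.spl (nat_lit 6) (nat_lit 8)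
(.spl (nat_lit 0) (nat_lit 285)
(.spl (nat_lit 0) (nat_lit 283)
(.leaf p015_l87)
(.leaf p015_l88))
(.leaf p015_l89))
(.spl (nat_lit 1) (nat_lit 270)
(.leaf p015_l90)
(.leaf p015_l91)))
(.spl (nat_lit 1) (nat_lit 270)
(.spl (nat_lit 6) (nat_lit 32)
(.leaf p015_l92)
(.spl (nat_lit 0) (nat_lit 285)
(.spl (nat_lit 2) (nat_lit 120)
(.spl (nat_lit 1) (nat_lit 265)
(.leaf p015_l93)
(.leaf p015_l94))
(.leaf p015_l95))
(.leaf p015_l96)))
(.spl (nat_lit 7) (nat_lit 900)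
(.spl (nat_lit 2) (nat_lit 120)
(.spl (nat_lit 2) (nat_lit 100)
(.leaf p015_l97)
(.spl (nat_lit 2) (nat_lit 112)
(.leaf p015_l98)
(.spl (nat_lit 0) (nat_lit 285)
(.spl (nat_lit 2) (nat_lit 116)
(.leaf p015_l99)
(.spl (nat_lit 1) (nat_lit 275)
(.spl (nat_lit 0) (nat_lit 283)
(.leaf p015_l100)
(.leaf p015_l101))
(.leaf p015_l102)))
(.leaf p015_l103))))
(.leaf p015_l104))
(.spl (nat_lit 0) (nat_lit 285)
(.leaf p015_l105)
(.leaf p015_l106)))))) (by decide +kernel)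
noncomputable def p015_l107 : Lf2 := ⟨nat_lit 0, nat_lit 5, [nat_lit 4, nat_lit 5, nat_lit 5, nat_lit 20], false, nat_lit 0, nat_lit 0, nat_lit 0, nat_lit 0, ⟨nat_lit 1000, nat_lit 0, nat_lit 0, nat_lit 0, nat_lit 0, nat_lit 0, nat_lit 0, nat_lit 0, nat_lit 0, nat_lit 0, nat_lit 0, nat_lit 0, nat_lit 0, nat_lit 0, nat_lit 0, nat_lit 0, false, false⟩,
 nat_lit 0, nat_lit 11539, nat_lit 0, nat_lit 0, nat_lit 7343, nat_lit 15932, nat_lit 667, nat_lit 0, nat_lit 0, nat_lit 2075, nat_lit 0, nat_lit 0, nat_lit 0, nat_lit 0, nat_lit 0, nat_lit 0, nat_lit 0, nat_lit 0, [],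
 ⟨p015_k10, nat_lit 0, nat_lit 0, nat_lit 623, nat_lit 0, nat_lit 1066083, [nat_lit 3282000000, nat_lit 6250000000, nat_lit 7968000000], [], [nat_lit 34229397972, nat_lit 34394681155, nat_lit 35187225032, nat_lit 35344843338], nat_lit 1271250, nat_lit 1271250, nat_lit 1100001, nat_lit 1785000, nat_lit 0, nat_lit 0, [nat_lit 780000, nat_lit 1435000, nat_lit 1271250], [nat_lit 18, nat_lit 40, nat_lit 80, nat_lit 80, nat_lit 2, nat_lit 272, nat_lit 60, nat_lit 9]⟩, ⟨p015_k30, nat_lit 0, nat_lit 0, nat_lit 0, nat_lit 0, nat_lit 0, [nat_lit 4688000000, nat_lit 7968000000, nat_lit 9842000000], [], [nat_lit 16588377852, nat_lit 19214419876, nat_lit 23206425728, nat_lit 26861260408], nat_lit 0, nat_lit 0, nat_lit 0, nat_lit 0, nat_lit 0, nat_lit 0, [], [nat_lit 29, nat_lit 40, nat_lit 80, nat_lit 80]⟩,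
 zbF0, []⟩
noncomputable def p015_l108 : Lf2 := ⟨nat_lit 0, nat_lit 5, [nat_lit 4, nat_lit 5, nat_lit 5, nat_lit 20], false, nat_lit 0, nat_lit 0, nat_lit 0, nat_lit 0, ⟨nat_lit 1000, nat_lit 0, nat_lit 0, nat_lit 0, nat_lit 0, nat_lit 0, nat_lit 0, nat_lit 0, nat_lit 0, nat_lit 0, nat_lit 0, nat_lit 0, nat_lit 0, nat_lit 0, nat_lit 0, nat_lit 0, false, false⟩,
 nat_lit 0, nat_lit 14178, nat_lit 0, nat_lit 0, nat_lit 9218, nat_lit 15092, nat_lit 3418, nat_lit 0, nat_lit 0, nat_lit 2012, nat_lit 0, nat_lit 0, nat_lit 0, nat_lit 0, nat_lit 0, nat_lit 0, nat_lit 0, nat_lit 0, [],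
 ⟨p015_k35, nat_lit 0, nat_lit 0, nat_lit 627, nat_lit 0, nat_lit 1076340, [nat_lit 3282000000, nat_lit 6250000000, nat_lit 7968000000], [], [nat_lit 19053456417, nat_lit 19259855464, nat_lit 20840411426, nat_lit 21150860870], nat_lit 1271250, nat_lit 1271250, nat_lit 1100001, nat_lit 1785000, nat_lit 0, nat_lit 0, [nat_lit 780000, nat_lit 1435000, nat_lit 1271250], [nat_lit 18, nat_lit 40, nat_lit 80, nat_lit 80, nat_lit 2, nat_lit 272, nat_lit 60, nat_lit 9]⟩, ⟨p015_k30, nat_lit 0, nat_lit 0, nat_lit 0, nat_lit 0, nat_lit 0, [nat_lit 4688000000, nat_lit 7968000000, nat_lit 9842000000], [], [nat_lit 16971734112, nat_lit 19494135256, nat_lit 22639002368, nat_lit 26141385448], nat_lit 0, nat_lit 0, nat_lit 0, nat_lit 0, nat_lit 0, nat_lit 0, [], [nat_lit 29, nat_lit 40, nat_lit 80, nat_lit 80]⟩,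
 zbF0, []⟩
noncomputable def p015_l109 : Lf2 := ⟨nat_lit 0, nat_lit 10, [nat_lit 0, nat_lit 5, nat_lit 5, nat_lit 20], false, nat_lit 0, nat_lit 0, nat_lit 0, nat_lit 0, ⟨nat_lit 1000, nat_lit 0, nat_lit 0, nat_lit 0, nat_lit 0, nat_lit 0, nat_lit 0, nat_lit 0, nat_lit 0, nat_lit 0, nat_lit 0, nat_lit 0, nat_lit 0, nat_lit 0, nat_lit 0, nat_lit 0, false, false⟩,
 nat_lit 0, nat_lit 12346, nat_lit 0, nat_lit 0, nat_lit 7856, nat_lit 15491, nat_lit 929, nat_lit 0, nat_lit 0, nat_lit 2399, nat_lit 0, nat_lit 0, nat_lit 0, nat_lit 0, nat_lit 0, nat_lit 0, nat_lit 0, nat_lit 0, [],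
 ⟨p015_k0, nat_lit 0, nat_lit 0, nat_lit 582, nat_lit 0, nat_lit 817605, [nat_lit 3282000000, nat_lit 6250000000, nat_lit 9842000000], [], [nat_lit 29371366965, nat_lit 29791815728, nat_lit 30778899840, nat_lit 31209338640], nat_lit 1271250, nat_lit 1271250, nat_lit 1100001, nat_lit 1785000, nat_lit 0, nat_lit 0, [nat_lit 780000, nat_lit 1435000, nat_lit 1271250], [nat_lit 8, nat_lit 40, nat_lit 80, nat_lit 80, nat_lit 1, nat_lit 272, nat_lit 60, nat_lit 8]⟩, ⟨p015_k1, nat_lit 0, nat_lit 0, nat_lit 0, nat_lit 0, nat_lit 0, [nat_lit 4688000000, nat_lit 7968000000, nat_lit 11872000000], [], [nat_lit 17210851280, nat_lit 19360446240, nat_lit 22908528464, nat_lit 26483326054], nat_lit 0, nat_lit 0, nat_lit 0, nat_lit 0, nat_lit 0, nat_lit 0, [], [nat_lit 21, nat_lit 40, nat_lit 80, nat_lit 80]⟩,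
 zbF0, []⟩
noncomputable def p015_l110 : Lf2 := ⟨nat_lit 0, nat_lit 1, [nat_lit 19, nat_lit 5, nat_lit 5, nat_lit 20], false, nat_lit 0, nat_lit 0, nat_lit 0, nat_lit 0, ⟨nat_lit 1000, nat_lit 0, nat_lit 0, nat_lit 0, nat_lit 0, nat_lit 0, nat_lit 0, nat_lit 0, nat_lit 0, nat_lit 0, nat_lit 0, nat_lit 0, nat_lit 0, nat_lit 0, nat_lit 0, nat_lit 0, false, false⟩,
 nat_lit 0, nat_lit 13029, nat_lit 0, nat_lit 0, nat_lit 8291, nat_lit 6910, nat_lit 0, nat_lit 0, nat_lit 0, nat_lit 0, nat_lit 0, nat_lit 0, nat_lit 0, nat_lit 0, nat_lit 0, nat_lit 0, nat_lit 0, nat_lit 0, [],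
 ⟨p015_k37, nat_lit 0, nat_lit 0, nat_lit 521, nat_lit 0, nat_lit 1212443, [nat_lit 3282000000, nat_lit 4688000000], [], [nat_lit 21431590344, nat_lit 21640249294, nat_lit 22848122820, nat_lit 23050318277], nat_lit 1271250, nat_lit 1271250, nat_lit 1100001, nat_lit 1785000, nat_lit 0, nat_lit 0, [nat_lit 780000, nat_lit 1100000], [nat_lit 40, nat_lit 40, nat_lit 80, nat_lit 80, nat_lit 22, nat_lit 203, nat_lit 0, nat_lit 9]⟩, ⟨p015_k79, nat_lit 0, nat_lit 0, nat_lit 0, nat_lit 0, nat_lit 0, [nat_lit 4688000000, nat_lit 6250000000], [], [nat_lit 14324530020, nat_lit 16401412000, nat_lit 19129460540, nat_lit 21146892440], nat_lit 0, nat_lit 0, nat_lit 0, nat_lit 0, nat_lit 0, nat_lit 0, [], [nat_lit 31, nat_lit 40, nat_lit 80, nat_lit 80]⟩,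
 zbF0, []⟩
noncomputable def p015_l111 : Lf2 := ⟨nat_lit 0, nat_lit 2, [nat_lit 10, nat_lit 5, nat_lit 5, nat_lit 20], false, nat_lit 0, nat_lit 0, nat_lit 0, nat_lit 0, ⟨nat_lit 1000, nat_lit 0, nat_lit 0, nat_lit 0, nat_lit 0, nat_lit 0, nat_lit 0, nat_lit 0, nat_lit 0, nat_lit 0, nat_lit 0, nat_lit 0, nat_lit 0, nat_lit 0, nat_lit 0, nat_lit 0, false, false⟩,
 nat_lit 0, nat_lit 17069, nat_lit 0, nat_lit 0, nat_lit 10862, nat_lit 6910, nat_lit 0, nat_lit 0, nat_lit 0, nat_lit 0, nat_lit 0, nat_lit 0, nat_lit 0, nat_lit 0, nat_lit 0, nat_lit 0, nat_lit 0, nat_lit 0, [],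
 ⟨p015_k25, nat_lit 0, nat_lit 0, nat_lit 561, nat_lit 0, nat_lit 1142050, [nat_lit 3282000000, nat_lit 6250000000], [], [nat_lit 20580612664, nat_lit 20738992882, nat_lit 21866065688, nat_lit 22208010884], nat_lit 1271250, nat_lit 1271250, nat_lit 1100001, nat_lit 1785000, nat_lit 0, nat_lit 0, [nat_lit 780000, nat_lit 1435000], [nat_lit 49, nat_lit 40, nat_lit 80, nat_lit 80, nat_lit 16, nat_lit 272, nat_lit 60, nat_lit 10]⟩, ⟨p015_k65, nat_lit 0, nat_lit 0, nat_lit 0, nat_lit 0, nat_lit 0, [nat_lit 4688000000, nat_lit 6250000000], [], [nat_lit 14324530020, nat_lit 16401412000, nat_lit 19129460540, nat_lit 21146892440], nat_lit 0, nat_lit 0, nat_lit 0, nat_lit 0, nat_lit 0, nat_lit 0, [], [nat_lit 31, nat_lit 40, nat_lit 80, nat_lit 80]⟩,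
 zbF0, []⟩
noncomputable def p015_l112 : Lf2 := ⟨nat_lit 0, nat_lit 5, [nat_lit 4, nat_lit 5, nat_lit 5, nat_lit 20], false, nat_lit 0, nat_lit 0, nat_lit 0, nat_lit 0, ⟨nat_lit 1000, nat_lit 0, nat_lit 0, nat_lit 0, nat_lit 0, nat_lit 0, nat_lit 0, nat_lit 0, nat_lit 0, nat_lit 0, nat_lit 0, nat_lit 0, nat_lit 0, nat_lit 0, nat_lit 0, nat_lit 0, false, false⟩,
 nat_lit 0, nat_lit 11539, nat_lit 0, nat_lit 0, nat_lit 7343, nat_lit 6910, nat_lit 667, nat_lit 0, nat_lit 0, nat_lit 0, nat_lit 0, nat_lit 0, nat_lit 0, nat_lit 0, nat_lit 0, nat_lit 0, nat_lit 0, nat_lit 0, [],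
 ⟨p015_k10, nat_lit 0, nat_lit 0, nat_lit 637, nat_lit 0, nat_lit 1101781, [nat_lit 3282000000, nat_lit 6250000000, nat_lit 7968000000], [], [nat_lit 34229397972, nat_lit 34394681155, nat_lit 35187225032, nat_lit 35344843338], nat_lit 1271250, nat_lit 1271250, nat_lit 1100001, nat_lit 1785000, nat_lit 0, nat_lit 0, [nat_lit 780000, nat_lit 1435000, nat_lit 1271250], [nat_lit 18, nat_lit 40, nat_lit 80, nat_lit 80, nat_lit 2, nat_lit 272, nat_lit 60, nat_lit 9]⟩, ⟨p015_k80, nat_lit 0, nat_lit 0, nat_lit 0, nat_lit 0, nat_lit 0, [nat_lit 4688000000, nat_lit 7968000000], [], [nat_lit 14324530020, nat_lit 16401412000, nat_lit 19129460540, nat_lit 21146892440], nat_lit 0, nat_lit 0, nat_lit 0, nat_lit 0, nat_lit 0, nat_lit 0, [], [nat_lit 39, nat_lit 40, nat_lit 80, nat_lit 80]⟩,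
 zbF0, []⟩
noncomputable def p015_l113 : Lf2 := ⟨nat_lit 0, nat_lit 5, [nat_lit 4, nat_lit 5, nat_lit 5, nat_lit 20], false, nat_lit 0, nat_lit 0, nat_lit 0, nat_lit 0, ⟨nat_lit 1000, nat_lit 0, nat_lit 0, nat_lit 0, nat_lit 0, nat_lit 0, nat_lit 0, nat_lit 0, nat_lit 0, nat_lit 0, nat_lit 0, nat_lit 0, nat_lit 0, nat_lit 0, nat_lit 0, nat_lit 0, false, false⟩,
 nat_lit 0, nat_lit 11589, nat_lit 0, nat_lit 0, nat_lit 7534, nat_lit 6910, nat_lit 7759, nat_lit 0, nat_lit 0, nat_lit 0, nat_lit 0, nat_lit 0, nat_lit 0, nat_lit 0, nat_lit 0, nat_lit 0, nat_lit 0, nat_lit 0, [],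
 ⟨p015_k35, nat_lit 0, nat_lit 0, nat_lit 700, nat_lit 0, nat_lit 1252876, [nat_lit 3282000000, nat_lit 6250000000, nat_lit 7968000000], [], [nat_lit 16828980656, nat_lit 17024216610, nat_lit 18310449616, nat_lit 18531927304], nat_lit 1271250, nat_lit 1271250, nat_lit 1100001, nat_lit 1785000, nat_lit 0, nat_lit 0, [nat_lit 780000, nat_lit 1435000, nat_lit 1271250], [nat_lit 18, nat_lit 40, nat_lit 80, nat_lit 80, nat_lit 2, nat_lit 272, nat_lit 60, nat_lit 9]⟩, ⟨p015_k80, nat_lit 0, nat_lit 0, nat_lit 0, nat_lit 0, nat_lit 0, [nat_lit 4688000000, nat_lit 7968000000], [], [nat_lit 14324530020, nat_lit 16401412000, nat_lit 19129460540, nat_lit 21146892440], nat_lit 0, nat_lit 0, nat_lit 0, nat_lit 0, nat_lit 0, nat_lit 0, [], [nat_lit 39, nat_lit 40, nat_lit 80, nat_lit 80]⟩,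
 zbF0, [⟨nat_lit 13, nat_lit 99, nat_lit 3, nat_lit 100, nat_lit 4140054⟩]⟩
noncomputable def p015_l114 : Lf2 := ⟨nat_lit 0, nat_lit 10, [nat_lit 0, nat_lit 5, nat_lit 5, nat_lit 20], false, nat_lit 0, nat_lit 0, nat_lit 0, nat_lit 0, ⟨nat_lit 1000, nat_lit 0, nat_lit 0, nat_lit 0, nat_lit 0, nat_lit 0, nat_lit 0, nat_lit 0, nat_lit 0, nat_lit 0, nat_lit 0, nat_lit 0, nat_lit 0, nat_lit 0, nat_lit 0, nat_lit 0, false, false⟩,
 nat_lit 0, nat_lit 11516, nat_lit 0, nat_lit 0, nat_lit 7328, nat_lit 12228, nat_lit 923, nat_lit 0, nat_lit 0, nat_lit 1955, nat_lit 0, nat_lit 0, nat_lit 0, nat_lit 0, nat_lit 0, nat_lit 0, nat_lit 0, nat_lit 0, [],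
 ⟨p015_k0, nat_lit 0, nat_lit 0, nat_lit 613, nat_lit 0, nat_lit 901901, [nat_lit 3282000000, nat_lit 6250000000, nat_lit 9842000000], [], [nat_lit 30993923776, nat_lit 31375489551, nat_lit 32393449920, nat_lit 32811058320], nat_lit 1271250, nat_lit 1271250, nat_lit 1100001, nat_lit 1785000, nat_lit 0, nat_lit 0, [nat_lit 780000, nat_lit 1435000, nat_lit 1271250], [nat_lit 8, nat_lit 40, nat_lit 80, nat_lit 80, nat_lit 1, nat_lit 272, nat_lit 60, nat_lit 8]⟩, ⟨p015_k5, nat_lit 0, nat_lit 0, nat_lit 0, nat_lit 0, nat_lit 0, [nat_lit 4688000000, nat_lit 7968000000, nat_lit 9842000000], [], [nat_lit 17381209004, nat_lit 18466142664, nat_lit 23686954632, nat_lit 25178252492], nat_lit 0, nat_lit 0, nat_lit 0, nat_lit 0, nat_lit 0, nat_lit 0, [], [nat_lit 29, nat_lit 40, nat_lit 80, nat_lit 80]⟩,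
 zbF0, []⟩
noncomputable def p015_l115 : Lf2 := ⟨nat_lit 0, nat_lit 10, [nat_lit 0, nat_lit 5, nat_lit 5, nat_lit 20], false, nat_lit 0, nat_lit 0, nat_lit 0, nat_lit 0, ⟨nat_lit 1000, nat_lit 0, nat_lit 0, nat_lit 0, nat_lit 0, nat_lit 0, nat_lit 0, nat_lit 0, nat_lit 0, nat_lit 0, nat_lit 0, nat_lit 0, nat_lit 0, nat_lit 0, nat_lit 0, nat_lit 0, false, false⟩,
 nat_lit 0, nat_lit 15910, nat_lit 0, nat_lit 0, nat_lit 10124, nat_lit 10174, nat_lit 827, nat_lit 0, nat_lit 0, nat_lit 1817, nat_lit 0, nat_lit 0, nat_lit 0, nat_lit 0, nat_lit 0, nat_lit 0, nat_lit 0, nat_lit 0, [],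
 ⟨p015_k0, nat_lit 0, nat_lit 0, nat_lit 632, nat_lit 0, nat_lit 951376, [nat_lit 3282000000, nat_lit 6250000000, nat_lit 9842000000], [], [nat_lit 23433914567, nat_lit 23605216783, nat_lit 25441934039, nat_lit 25792863165], nat_lit 1271250, nat_lit 1271250, nat_lit 1100001, nat_lit 1785000, nat_lit 0, nat_lit 0, [nat_lit 780000, nat_lit 1435000, nat_lit 1271250], [nat_lit 8, nat_lit 40, nat_lit 80, nat_lit 80, nat_lit 1, nat_lit 272, nat_lit 60, nat_lit 8]⟩, ⟨p015_k23, nat_lit 0, nat_lit 0, nat_lit 0, nat_lit 0, nat_lit 0, [nat_lit 4688000000, nat_lit 7968000000, nat_lit 9842000000], [], [nat_lit 17840261441, nat_lit 18799669488, nat_lit 23231596586, nat_lit 24536504216], nat_lit 0, nat_lit 0, nat_lit 0, nat_lit 0, nat_lit 0, nat_lit 0, [], [nat_lit 29, nat_lit 40, nat_lit 80, nat_lit 80]⟩,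
 zbF0, []⟩
noncomputable def p015_l116 : Lf2 := ⟨nat_lit 0, nat_lit 10, [nat_lit 0, nat_lit 5, nat_lit 5, nat_lit 20], false, nat_lit 0, nat_lit 0, nat_lit 0, nat_lit 0, ⟨nat_lit 1000, nat_lit 0, nat_lit 0, nat_lit 0, nat_lit 0, nat_lit 0, nat_lit 0, nat_lit 0, nat_lit 0, nat_lit 0, nat_lit 0, nat_lit 0, nat_lit 0, nat_lit 0, nat_lit 0, nat_lit 0, false, false⟩,
 nat_lit 0, nat_lit 14973, nat_lit 0, nat_lit 0, nat_lit 9735, nat_lit 10174, nat_lit 2461, nat_lit 0, nat_lit 0, nat_lit 1817, nat_lit 0, nat_lit 0, nat_lit 0, nat_lit 0, nat_lit 0, nat_lit 0, nat_lit 0, nat_lit 0, [],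
 ⟨p015_k51, nat_lit 0, nat_lit 0, nat_lit 637, nat_lit 0, nat_lit 964174, [nat_lit 3282000000, nat_lit 6250000000, nat_lit 9842000000], [], [nat_lit 19305357028, nat_lit 19516947530, nat_lit 21626505920, nat_lit 22052661050], nat_lit 1271250, nat_lit 1271250, nat_lit 1100001, nat_lit 1785000, nat_lit 0, nat_lit 0, [nat_lit 780000, nat_lit 1435000, nat_lit 1271250], [nat_lit 8, nat_lit 40, nat_lit 80, nat_lit 80, nat_lit 1, nat_lit 272, nat_lit 60, nat_lit 8]⟩, ⟨p015_k23, nat_lit 0, nat_lit 0, nat_lit 0, nat_lit 0, nat_lit 0, [nat_lit 4688000000, nat_lit 7968000000, nat_lit 9842000000], [], [nat_lit 17840261441, nat_lit 18799669488, nat_lit 23231596586, nat_lit 24536504216], nat_lit 0, nat_lit 0, nat_lit 0, nat_lit 0, nat_lit 0, nat_lit 0, [], [nat_lit 29, nat_lit 40, nat_lit 80, nat_lit 80]⟩,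
 zbF0, []⟩
noncomputable def b_N_700_600_0_5 : St := ⟨false, nat_lit 1, nat_lit 0, nat_lit 1, nat_lit 40, nat_lit 280, nat_lit 290, nat_lit 240, nat_lit 280, nat_lit 160, nat_lit 240, nat_lit 0, nat_lit 0, nat_lit 0, nat_lit 0, nat_lit 0, nat_lit 0, nat_lit 0, nat_lit 40, nat_lit 600, nat_lit 0, nat_lit 0, nat_lit 800⟩
theorem d_N_700_600_0_5 (h : EB TB.env) : Dead b_N_700_600_0_5 := chkB_sound0 h (T :=
(.spl (nat_lit 1) (nat_lit 260)
(.spl (nat_lit 6) (nat_lit 20)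
(.spl (nat_lit 0) (nat_lit 285)
(.leaf p015_l107)
(.leaf p015_l108))
(.leaf p015_l109))
(.spl (nat_lit 6) (nat_lit 20)
(.spl (nat_lit 0) (nat_lit 285)
(.spl (nat_lit 6) (nat_lit 8)
(.spl (nat_lit 6) (nat_lit 4)
(.leaf p015_l110)
(.leaf p015_l111))
(.leaf p015_l112))
(.leaf p015_l113))
(.spl (nat_lit 1) (nat_lit 270)
(.leaf p015_l114)
(.spl (nat_lit 0) (nat_lit 285)
(.leaf p015_l115)
(.leaf p015_l116)))))) (by decide +kernel)
noncomputable def p015_l117 : Lf2 := ⟨nat_lit 0, nat_lit 5, [nat_lit 4, nat_lit 5, nat_lit 5, nat_lit 20], false, nat_lit 0, nat_lit 0, nat_lit 0, nat_lit 0, ⟨nat_lit 1000, nat_lit 0, nat_lit 0, nat_lit 0, nat_lit 0, nat_lit 0, nat_lit 0, nat_lit 0, nat_lit 0, nat_lit 0, nat_lit 0, nat_lit 0, nat_lit 0, nat_lit 0, nat_lit 0, nat_lit 0, false, false⟩,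
 nat_lit 0, nat_lit 9921, nat_lit 0, nat_lit 0, nat_lit 6313, nat_lit 6195, nat_lit 604, nat_lit 0, nat_lit 0, nat_lit 1100, nat_lit 0, nat_lit 0, nat_lit 0, nat_lit 0, nat_lit 0, nat_lit 0, nat_lit 0, nat_lit 0, [],
 ⟨p015_k10, nat_lit 0, nat_lit 0, nat_lit 606, nat_lit 0, nat_lit 1066083, [nat_lit 3282000000, nat_lit 6250000000, nat_lit 7968000000], [], [nat_lit 39849166192, nat_lit 39970398478, nat_lit 43957929756, nat_lit 44037888056], nat_lit 1271250, nat_lit 1271250, nat_lit 1271250, nat_lit 1271250, nat_lit 0, nat_lit 0, [nat_lit 780000, nat_lit 1435000, nat_lit 1271250], [nat_lit 18, nat_lit 40, nat_lit 80, nat_lit 80, nat_lit 2, nat_lit 238, nat_lit 0, nat_lit 7]⟩, ⟨p015_k30, nat_lit 0, nat_lit 0, nat_lit 0, nat_lit 0, nat_lit 0, [nat_lit 4688000000, nat_lit 7968000000, nat_lit 9842000000], [], [nat_lit 26284801640, nat_lit 27287541620, nat_lit 37342913380, nat_lit 38056588900], nat_lit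 0, nat_lit 0, nat_lit 0, nat_lit 0, nat_lit 0, nat_lit 0, [], [nat_lit 29, nat_lit 40, nat_lit 80, nat_lit 80]⟩,
 zbF0, []⟩
noncomputable def p015_l118 : Lf2 := ⟨nat_lit 0, nat_lit 5, [nat_lit 4, nat_lit 5, nat_lit 5, nat_lit 20], false, nat_lit 0, nat_lit 0, nat_lit 0, nat_lit 0, ⟨nat_lit 1000, nat_lit 0, nat_lit 0, nat_lit 0, nat_lit 0, nat_lit 0, nat_lit 0, nat_lit 0, nat_lit 0, nat_lit 0, nat_lit 0, nat_lit 0, nat_lit 0, nat_lit 0, nat_lit 0, nat_lit 0, false, false⟩,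
 nat_lit 0, nat_lit 11047, nat_lit 0, nat_lit 0, nat_lit 7182, nat_lit 5966, nat_lit 3278, nat_lit 0, nat_lit 0, nat_lit 881, nat_lit 0, nat_lit 0, nat_lit 0, nat_lit 0, nat_lit 0, nat_lit 0, nat_lit 0, nat_lit 0, [],
 ⟨p015_k35, nat_lit 0, nat_lit 0, nat_lit 610, nat_lit 0, nat_lit 1076340, [nat_lit 3282000000, nat_lit 6250000000, nat_lit 7968000000], [], [nat_lit 28288296483, nat_lit 28406731416, nat_lit 33476581513, nat_lit 33636961792], nat_lit 1271250, nat_lit 1271250, nat_lit 1271250, nat_lit 1271250, nat_lit 0, nat_lit 0, [nat_lit 780000, nat_lit 1435000, nat_lit 1271250], [nat_lit 18, nat_lit 40, nat_lit 80, nat_lit 80, nat_lit 2, nat_lit 239, nat_lit 0, nat_lit 7]⟩, ⟨p015_k30, nat_lit 0, nat_lit 0, nat_lit 0, nat_lit 0, nat_lit 0, [nat_lit 4688000000, nat_lit 7968000000, nat_lit 9842000000], [], [nat_lit 27331355732, nat_lit 28317275188, nat_lit 37210682796, nat_lit 37835833112], nat_lit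 0, nat_lit 0, nat_lit 0, nat_lit 0, nat_lit 0, nat_lit 0, [], [nat_lit 29, nat_lit 40, nat_lit 80, nat_lit 80]⟩,
 zbF0, []⟩
noncomputable def p015_l119 : Lf2 := ⟨nat_lit 0, nat_lit 10, [nat_lit 0, nat_lit 5, nat_lit 5, nat_lit 20], false, nat_lit 0, nat_lit 0, nat_lit 0, nat_lit 0, ⟨nat_lit 1000, nat_lit 0, nat_lit 0, nat_lit 0, nat_lit 0, nat_lit 0, nat_lit 0, nat_lit 0, nat_lit 0, nat_lit 0, nat_lit 0, nat_lit 0, nat_lit 0, nat_lit 0, nat_lit 0, nat_lit 0, false, false⟩,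
 nat_lit 0, nat_lit 9981, nat_lit 0, nat_lit 0, nat_lit 6351, nat_lit 5760, nat_lit 778, nat_lit 0, nat_lit 0, nat_lit 1249, nat_lit 0, nat_lit 0, nat_lit 0, nat_lit 0, nat_lit 0, nat_lit 0, nat_lit 0, nat_lit 0, [],
 ⟨p015_k0, nat_lit 0, nat_lit 0, nat_lit 564, nat_lit 0, nat_lit 817605, [nat_lit 3282000000, nat_lit 6250000000, nat_lit 9842000000], [], [nat_lit 36497515478, nat_lit 36752722705, nat_lit 41430794444, nat_lit 41671052118], nat_lit 1271250, nat_lit 1271250, nat_lit 1271250, nat_lit 1271250, nat_lit 0, nat_lit 0, [nat_lit 780000, nat_lit 1435000, nat_lit 1271250], [nat_lit 8, nat_lit 40, nat_lit 80, nat_lit 80, nat_lit 1, nat_lit 317, nat_lit 100, nat_lit 9]⟩, ⟨p015_k1, nat_lit 0, nat_lit 0, nat_lit 0, nat_lit 0, nat_lit 0, [nat_lit 4688000000, nat_lit 7968000000, nat_lit 11872000000], [], [nat_lit 26948504060, nat_lit 27800741260, nat_lit 37024390720, nat_lit 37635001440], nat_lit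 0, nat_lit 0, nat_lit 0, nat_lit 0, nat_lit 0, nat_lit 0, [], [nat_lit 21, nat_lit 40, nat_lit 80, nat_lit 80]⟩,
 zbF0, []⟩
noncomputable def p015_l120 : Lf2 := ⟨nat_lit 0, nat_lit 1, [nat_lit 19, nat_lit 5, nat_lit 5, nat_lit 20], false, nat_lit 0, nat_lit 0, nat_lit 0, nat_lit 0, ⟨nat_lit 1000, nat_lit 0, nat_lit 0, nat_lit 0, nat_lit 0, nat_lit 0, nat_lit 0, nat_lit 0, nat_lit 0, nat_lit 0, nat_lit 0, nat_lit 0, nat_lit 0, nat_lit 0, nat_lit 0, nat_lit 0, false, false⟩,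
 nat_lit 0, nat_lit 10879, nat_lit 0, nat_lit 0, nat_lit 6923, nat_lit 5301, nat_lit 0, nat_lit 0, nat_lit 0, nat_lit 2869, nat_lit 0, nat_lit 0, nat_lit 0, nat_lit 0, nat_lit 0, nat_lit 0, nat_lit 0, nat_lit 0, [],
 ⟨p015_k37, nat_lit 0, nat_lit 0, nat_lit 539, nat_lit 0, nat_lit 1212443, [nat_lit 3282000000, nat_lit 4688000000], [], [nat_lit 30340377504, nat_lit 30482831437, nat_lit 34757231632, nat_lit 34843292458], nat_lit 1271250, nat_lit 1271250, nat_lit 1271250, nat_lit 1271250, nat_lit 0, nat_lit 0, [nat_lit 780000, nat_lit 1100000], [nat_lit 40, nat_lit 40, nat_lit 80, nat_lit 80, nat_lit 22, nat_lit 221, nat_lit 0, nat_lit 9]⟩, ⟨p015_k79, nat_lit 0, nat_lit 0, nat_lit 0, nat_lit 0, nat_lit 0, [nat_lit 4688000000, nat_lit 6250000000], [], [nat_lit 22600751905, nat_lit 23749963055, nat_lit 33180103772, nat_lit 33891751444], nat_lit 0, nat_lit 0, nat_lit 0, nat_lit 0, nat_lit 0, nat_lit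 0, [], [nat_lit 31, nat_lit 40, nat_lit 80, nat_lit 80]⟩,
 zbF0, []⟩
noncomputable def p015_l121 : Lf2 := ⟨nat_lit 0, nat_lit 2, [nat_lit 10, nat_lit 5, nat_lit 5, nat_lit 20], false, nat_lit 0, nat_lit 0, nat_lit 0, nat_lit 0, ⟨nat_lit 1000, nat_lit 0, nat_lit 0, nat_lit 0, nat_lit 0, nat_lit 0, nat_lit 0, nat_lit 0, nat_lit 0, nat_lit 0, nat_lit 0, nat_lit 0, nat_lit 0, nat_lit 0, nat_lit 0, nat_lit 0, false, false⟩,
 nat_lit 0, nat_lit 11317, nat_lit 0, nat_lit 0, nat_lit 7201, nat_lit 5301, nat_lit 0, nat_lit 0, nat_lit 0, nat_lit 2399, nat_lit 0, nat_lit 0, nat_lit 0, nat_lit 0, nat_lit 0, nat_lit 0, nat_lit 0, nat_lit 0, [],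
 ⟨p015_k25, nat_lit 0, nat_lit 0, nat_lit 559, nat_lit 0, nat_lit 1126701, [nat_lit 3282000000, nat_lit 6250000000], [], [nat_lit 35802402400, nat_lit 35873496209, nat_lit 40600567960, nat_lit 40654892992], nat_lit 1271250, nat_lit 1271250, nat_lit 1271250, nat_lit 1271250, nat_lit 0, nat_lit 0, [nat_lit 780000, nat_lit 1435000], [nat_lit 49, nat_lit 40, nat_lit 80, nat_lit 80, nat_lit 16, nat_lit 226, nat_lit 0, nat_lit 8]⟩, ⟨p015_k65, nat_lit 0, nat_lit 0, nat_lit 0, nat_lit 0, nat_lit 0, [nat_lit 4688000000, nat_lit 6250000000], [], [nat_lit 22989970655, nat_lit 24139181805, nat_lit 33232288295, nat_lit 33892037389], nat_lit 0, nat_lit 0, nat_lit 0, nat_lit 0, nat_lit 0, nat_lit 0, [], [nat_lit 31, nat_lit 40, nat_lit 80, nat_lit 80]⟩,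
 zbF0, []⟩
noncomputable def p015_l122 : Lf2 := ⟨nat_lit 0, nat_lit 2, [nat_lit 10, nat_lit 5, nat_lit 5, nat_lit 20], false, nat_lit 0, nat_lit 0, nat_lit 0, nat_lit 0, ⟨nat_lit 1000, nat_lit 0, nat_lit 0, nat_lit 0, nat_lit 0, nat_lit 0, nat_lit 0, nat_lit 0, nat_lit 0, nat_lit 0, nat_lit 0, nat_lit 0, nat_lit 0, nat_lit 0, nat_lit 0, nat_lit 0, false, false⟩,
 nat_lit 0, nat_lit 9718, nat_lit 0, nat_lit 0, nat_lit 6264, nat_lit 5765, nat_lit 9847, nat_lit 0, nat_lit 0, nat_lit 796, nat_lit 0, nat_lit 0, nat_lit 0, nat_lit 0, nat_lit 0, nat_lit 0, nat_lit 0, nat_lit 0, [],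
 ⟨p015_k41, nat_lit 0, nat_lit 0, nat_lit 557, nat_lit 0, nat_lit 1122154, [nat_lit 3282000000, nat_lit 6250000000], [], [nat_lit 27420430992, nat_lit 27473924708, nat_lit 31754134746, nat_lit 31793154896], nat_lit 1271250, nat_lit 1271250, nat_lit 1271250, nat_lit 1271250, nat_lit 0, nat_lit 0, [nat_lit 780000, nat_lit 1435000], [nat_lit 49, nat_lit 40, nat_lit 80, nat_lit 80, nat_lit 16, nat_lit 225, nat_lit 0, nat_lit 8]⟩, ⟨p015_k65, nat_lit 0, nat_lit 0, nat_lit 0, nat_lit 0, nat_lit 0, [nat_lit 4688000000, nat_lit 6250000000], [], [nat_lit 23723316950, nat_lit 24919925700, nat_lit 34430395550, nat_lit 35103703240], nat_lit 0, nat_lit 0, nat_lit 0, nat_lit 0, nat_lit 0, nat_lit 0, [], [nat_lit 31, nat_lit 40, nat_lit 80, nat_lit 80]⟩,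
 zbF0, []⟩
noncomputable def p015_l123 : Lf2 := ⟨nat_lit 0, nat_lit 5, [nat_lit 4, nat_lit 5, nat_lit 5, nat_lit 20], false, nat_lit 0, nat_lit 0, nat_lit 0, nat_lit 0, ⟨nat_lit 1000, nat_lit 0, nat_lit 0, nat_lit 0, nat_lit 0, nat_lit 0, nat_lit 0, nat_lit 0, nat_lit 0, nat_lit 0, nat_lit 0, nat_lit 0, nat_lit 0, nat_lit 0, nat_lit 0, nat_lit 0, false, false⟩,
 nat_lit 0, nat_lit 11126, nat_lit 0, nat_lit 0, nat_lit 7080, nat_lit 5301, nat_lit 572, nat_lit 0, nat_lit 0, nat_lit 3283, nat_lit 0, nat_lit 0, nat_lit 0, nat_lit 0, nat_lit 0, nat_lit 0, nat_lit 0, nat_lit 0, [],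
 ⟨p015_k10, nat_lit 0, nat_lit 0, nat_lit 620, nat_lit 0, nat_lit 1101781, [nat_lit 3282000000, nat_lit 6250000000, nat_lit 7968000000], [], [nat_lit 36459505680, nat_lit 36566877020, nat_lit 41056500800, nat_lit 41147136900], nat_lit 1271250, nat_lit 1271250, nat_lit 1271250, nat_lit 1271250, nat_lit 0, nat_lit 0, [nat_lit 780000, nat_lit 1435000, nat_lit 1271250], [nat_lit 18, nat_lit 40, nat_lit 80, nat_lit 80, nat_lit 2, nat_lit 241, nat_lit 0, nat_lit 7]⟩, ⟨p015_k80, nat_lit 0, nat_lit 0, nat_lit 0, nat_lit 0, nat_lit 0, [nat_lit 4688000000, nat_lit 7968000000], [], [nat_lit 22924156316, nat_lit 23970856152, nat_lit 33180103772, nat_lit 33891751444], nat_lit 0, nat_lit 0, nat_lit 0, nat_lit 0, nat_lit 0, nat_lit 0, [], [nat_lit 39, nat_lit 40, nat_lit 80, nat_lit 80]⟩,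
 zbF0, []⟩
noncomputable def p015_l124 : Lf2 := ⟨nat_lit 0, nat_lit 5, [nat_lit 4, nat_lit 5, nat_lit 5, nat_lit 20], false, nat_lit 0, nat_lit 0, nat_lit 0, nat_lit 0, ⟨nat_lit 1000, nat_lit 0, nat_lit 0, nat_lit 0, nat_lit 0, nat_lit 0, nat_lit 0, nat_lit 0, nat_lit 0, nat_lit 0, nat_lit 0, nat_lit 0, nat_lit 0, nat_lit 0, nat_lit 0, nat_lit 0, false, false⟩,
 nat_lit 0, nat_lit 10228, nat_lit 0, nat_lit 0, nat_lit 6650, nat_lit 6557, nat_lit 3981, nat_lit 0, nat_lit 0, nat_lit 0, nat_lit 0, nat_lit 0, nat_lit 0, nat_lit 0, nat_lit 0, nat_lit 0, nat_lit 0, nat_lit 0, [],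
 ⟨p015_k35, nat_lit 0, nat_lit 0, nat_lit 681, nat_lit 0, nat_lit 1252876, [nat_lit 3282000000, nat_lit 6250000000, nat_lit 7968000000], [], [nat_lit 30059284575, nat_lit 30160655625, nat_lit 33375057625, nat_lit 33466121525], nat_lit 1271250, nat_lit 1271250, nat_lit 1271250, nat_lit 1271250, nat_lit 0, nat_lit 0, [nat_lit 780000, nat_lit 1435000, nat_lit 1271250], [nat_lit 18, nat_lit 40, nat_lit 80, nat_lit 80, nat_lit 2, nat_lit 257, nat_lit 0, nat_lit 8]⟩, ⟨p015_k80, nat_lit 0, nat_lit 0, nat_lit 0, nat_lit 0, nat_lit 0, [nat_lit 4688000000, nat_lit 7968000000], [], [nat_lit 26860930412, nat_lit 28016947464, nat_lit 38407663740, nat_lit 39132176092], nat_lit 0, nat_lit 0, nat_lit 0, nat_lit 0, nat_lit 0, nat_lit 0, [], [nat_lit 39, nat_lit 40, nat_lit 80, nat_lit 80]⟩,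
 zbF0, []⟩
noncomputable def p015_l125 : Lf2 := ⟨nat_lit 0, nat_lit 10, [nat_lit 0, nat_lit 5, nat_lit 5, nat_lit 20], false, nat_lit 0, nat_lit 0, nat_lit 0, nat_lit 0, ⟨nat_lit 1000, nat_lit 0, nat_lit 0, nat_lit 0, nat_lit 0, nat_lit 0, nat_lit 0, nat_lit 0, nat_lit 0, nat_lit 0, nat_lit 0, nat_lit 0, nat_lit 0, nat_lit 0, nat_lit 0, nat_lit 0, false, false⟩,
 nat_lit 0, nat_lit 11086, nat_lit 0, nat_lit 0, nat_lit 7054, nat_lit 5895, nat_lit 765, nat_lit 0, nat_lit 0, nat_lit 1176, nat_lit 0, nat_lit 0, nat_lit 0, nat_lit 0, nat_lit 0, nat_lit 0, nat_lit 0, nat_lit 0, [],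
 ⟨p015_k0, nat_lit 0, nat_lit 0, nat_lit 629, nat_lit 0, nat_lit 993087, [nat_lit 3282000000, nat_lit 6250000000, nat_lit 9842000000], [], [nat_lit 36391595273, nat_lit 36646520202, nat_lit 41154469840, nat_lit 41335782600], nat_lit 1271250, nat_lit 1271250, nat_lit 1271250, nat_lit 1271250, nat_lit 0, nat_lit 0, [nat_lit 780000, nat_lit 1435000, nat_lit 1271250], [nat_lit 8, nat_lit 40, nat_lit 80, nat_lit 80, nat_lit 1, nat_lit 317, nat_lit 100, nat_lit 9]⟩, ⟨p015_k5, nat_lit 0, nat_lit 0, nat_lit 0, nat_lit 0, nat_lit 0, [nat_lit 4688000000, nat_lit 7968000000, nat_lit 9842000000], [], [nat_lit 25817263360, nat_lit 26799086040, nat_lit 35825242900, nat_lit 36529937620], nat_lit 0, nat_lit 0, nat_lit 0, nat_lit 0, nat_lit 0, nat_lit 0, [], [nat_lit 29, nat_lit 40, nat_lit 80, nat_lit 80]⟩,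
 zbF0, []⟩
noncomputable def b_N_700_600_0_6 : St := ⟨false, nat_lit 1, nat_lit 0, nat_lit 1, nat_lit 40, nat_lit 280, nat_lit 290, nat_lit 240, nat_lit 280, nat_lit 240, nat_lit 400, nat_lit 0, nat_lit 0, nat_lit 0, nat_lit 0, nat_lit 0, nat_lit 0, nat_lit 0, nat_lit 40, nat_lit 600, nat_lit 0, nat_lit 0, nat_lit 800⟩
theorem d_N_700_600_0_6 (h : EB TB.env) : Dead b_N_700_600_0_6 := chkB_sound0 h (T :=
(.spl (nat_lit 1) (nat_lit 260)
(.spl (nat_lit 6) (nat_lit 20)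
(.spl (nat_lit 0) (nat_lit 285)
(.leaf p015_l117)
(.leaf p015_l118))
(.leaf p015_l119))
(.spl (nat_lit 6) (nat_lit 20)
(.spl (nat_lit 0) (nat_lit 285)
(.spl (nat_lit 6) (nat_lit 8)
(.spl (nat_lit 6) (nat_lit 4)
(.leaf p015_l120)
(.spl (nat_lit 0) (nat_lit 283)
(.leaf p015_l121)
(.leaf p015_l122)))
(.leaf p015_l123))
(.leaf p015_l124))
(.leaf p015_l125)))) (by decide +kernel)
noncomputable def p015_l126 : Lf2 := ⟨nat_lit 0, nat_lit 10, [nat_lit 0, nat_lit 5, nat_lit 5, nat_lit 20], true, nat_lit 0, nat_lit 0, nat_lit 0, nat_lit 0, ⟨nat_lit 0, nat_lit 0, nat_lit 1000, nat_lit 6, nat_lit 120, nat_lit 0, nat_lit 0, nat_lit 0, nat_lit 0, nat_lit 215, nat_lit 135000, nat_lit 305, nat_lit 61452097, nat_lit 0, nat_lit 0, nat_lit 1427826, false, false⟩,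
 nat_lit 0, nat_lit 100000, nat_lit 0, nat_lit 0, nat_lit 66412, nat_lit 0, nat_lit 17369, nat_lit 3547, nat_lit 0, nat_lit 0, nat_lit 0, nat_lit 0, nat_lit 0, nat_lit 0, nat_lit 0, nat_lit 1000000, nat_lit 0, nat_lit 0, [(nat_lit 12, [(nat_lit 6, nat_lit 1000)])],
 ⟨p015_k9, nat_lit 0, nat_lit 0, nat_lit 486, nat_lit 0, nat_lit 604736, [nat_lit 43705200000, nat_lit 69812400000, nat_lit 81240400000], [], [nat_lit 80002630320, nat_lit 84423419834, nat_lit 57744259876, nat_lit 61975507582], nat_lit 1271250, nat_lit 1271250, nat_lit 230001, nat_lit 490000, nat_lit 0, nat_lit 0, [nat_lit 780000, nat_lit 1435000, nat_lit 1271250], [nat_lit 18, nat_lit 40, nat_lit 80, nat_lit 80, nat_lit 2, nat_lit 226, nat_lit 20, nat_lit 8]⟩, C1.Rw.none,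
 ⟨nat_lit 5000, nat_lit 5245, ⟨.ofNat (nat_lit 250085), .ofNat (nat_lit 323256), .ofNat (nat_lit 271470), .ofNat (nat_lit 344641), .ofNat (nat_lit 257141), .ofNat (nat_lit 328570), .ofNat (nat_lit 278570), .ofNat (nat_lit 349999)⟩, ⟨.ofNat (nat_lit 0), .ofNat (nat_lit 0), .ofNat (nat_lit 0), .ofNat (nat_lit 0), .ofNat (nat_lit 0), .ofNat (nat_lit 0), .ofNat (nat_lit 0), .ofNat (nat_lit 0)⟩⟩, [⟨nat_lit 0, nat_lit 100, nat_lit 91, nat_lit 77, nat_lit 3190658993⟩]⟩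
noncomputable def p015_l127 : Lf2 := ⟨nat_lit 0, nat_lit 10, [nat_lit 0, nat_lit 5, nat_lit 5, nat_lit 20], false, nat_lit 0, nat_lit 0, nat_lit 0, nat_lit 0, ⟨nat_lit 1000, nat_lit 0, nat_lit 0, nat_lit 0, nat_lit 0, nat_lit 0, nat_lit 0, nat_lit 0, nat_lit 0, nat_lit 0, nat_lit 0, nat_lit 0, nat_lit 0, nat_lit 0, nat_lit 0, nat_lit 0, false, false⟩,
 nat_lit 0, nat_lit 13353, nat_lit 0, nat_lit 0, nat_lit 8867, nat_lit 6741, nat_lit 2040, nat_lit 0, nat_lit 0, nat_lit 3041, nat_lit 0, nat_lit 0, nat_lit 0, nat_lit 0, nat_lit 0, nat_lit 0, nat_lit 0, nat_lit 0, [],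
 ⟨p015_k81, nat_lit 0, nat_lit 0, nat_lit 701, nat_lit 0, nat_lit 1171462, [nat_lit 3282000000, nat_lit 4688000000, nat_lit 7968000000], [], [nat_lit 14735920970, nat_lit 14480126642, nat_lit 15622674985, nat_lit 14576255966], nat_lit 1271250, nat_lit 1271250, nat_lit 490000, nat_lit 780000, nat_lit 0, nat_lit 0, [nat_lit 780000, nat_lit 1100000, nat_lit 1785000], [nat_lit 36, nat_lit 40, nat_lit 80, nat_lit 80, nat_lit 7, nat_lit 238, nat_lit 30, nat_lit 8]⟩, ⟨p015_k13, nat_lit 0, nat_lit 0, nat_lit 0, nat_lit 0, nat_lit 0, [nat_lit 4688000000, nat_lit 6250000000, nat_lit 11872000000], [], [nat_lit 17504392267, nat_lit 18734251385, nat_lit 17517994444, nat_lit 19184276279], nat_lit 0, nat_lit 0, nat_lit 0, nat_lit 0, nat_lit 0, nat_lit 0, [], [nat_lit 48, nat_lit 40, nat_lit 80, nat_lit 80]⟩,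
 zbF0, []⟩
noncomputable def p015_l128 : Lf2 := ⟨nat_lit 0, nat_lit 10, [nat_lit 0, nat_lit 5, nat_lit 5, nat_lit 20], true, nat_lit 0, nat_lit 0, nat_lit 0, nat_lit 0, ⟨nat_lit 0, nat_lit 0, nat_lit 1000, nat_lit 6, nat_lit 132, nat_lit 0, nat_lit 0, nat_lit 0, nat_lit 0, nat_lit 215, nat_lit 163350, nat_lit 314, nat_lit 60437876, nat_lit 0, nat_lit 0, nat_lit 1602685, false, false⟩,
 nat_lit 0, nat_lit 100000, nat_lit 0, nat_lit 0, nat_lit 66412, nat_lit 0, nat_lit 17356, nat_lit 3579, nat_lit 0, nat_lit 0, nat_lit 0, nat_lit 0, nat_lit 0, nat_lit 0, nat_lit 0, nat_lit 1000000, nat_lit 0, nat_lit 0, [(nat_lit 12, [(nat_lit 6, nat_lit 1000)])],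
 ⟨p015_k9, nat_lit 0, nat_lit 0, nat_lit 457, nat_lit 0, nat_lit 614444, [nat_lit 44089200000, nat_lit 70452400000, nat_lit 82008400000], [], [nat_lit 73052271799, nat_lit 75226666491, nat_lit 60353334876, nat_lit 61819192362], nat_lit 1271250, nat_lit 1271250, nat_lit 330400, nat_lit 490000, nat_lit 0, nat_lit 0, [nat_lit 780000, nat_lit 1435000, nat_lit 1271250], [nat_lit 18, nat_lit 40, nat_lit 80, nat_lit 80, nat_lit 2, nat_lit 226, nat_lit 20, nat_lit 8]⟩, C1.Rw.none,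
 ⟨nat_lit 5123, nat_lit 5245, ⟨.ofNat (nat_lit 300739), .ofNat (nat_lit 344641), .ofNat (nat_lit 311431), .ofNat (nat_lit 355334), .ofNat (nat_lit 303942), .ofNat (nat_lit 347320), .ofNat (nat_lit 314644), .ofNat (nat_lit 358023)⟩, ⟨.ofNat (nat_lit 0), .ofNat (nat_lit 0), .ofNat (nat_lit 0), .ofNat (nat_lit 0), .ofNat (nat_lit 0), .ofNat (nat_lit 0), .ofNat (nat_lit 0), .ofNat (nat_lit 0)⟩⟩, [⟨nat_lit 0, nat_lit 100, nat_lit 94, nat_lit 80, nat_lit 3084575885⟩]⟩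
noncomputable def p015_l129 : Lf2 := ⟨nat_lit 0, nat_lit 10, [nat_lit 0, nat_lit 5, nat_lit 5, nat_lit 20], false, nat_lit 0, nat_lit 0, nat_lit 0, nat_lit 0, ⟨nat_lit 1000, nat_lit 0, nat_lit 0, nat_lit 0, nat_lit 0, nat_lit 0, nat_lit 0, nat_lit 0, nat_lit 0, nat_lit 0, nat_lit 0, nat_lit 0, nat_lit 0, nat_lit 0, nat_lit 0, nat_lit 0, false, false⟩,
 nat_lit 0, nat_lit 13524, nat_lit 0, nat_lit 0, nat_lit 8981, nat_lit 7225, nat_lit 2072, nat_lit 0, nat_lit 0, nat_lit 2501, nat_lit 0, nat_lit 0, nat_lit 0, nat_lit 0, nat_lit 0, nat_lit 0, nat_lit 0, nat_lit 0, [],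
 ⟨p015_k81, nat_lit 0, nat_lit 0, nat_lit 728, nat_lit 0, nat_lit 1212415, [nat_lit 3282000000, nat_lit 4688000000, nat_lit 7968000000], [], [nat_lit 14479254710, nat_lit 13680900004, nat_lit 15205312284, nat_lit 14161295732], nat_lit 1271250, nat_lit 1271250, nat_lit 490000, nat_lit 780000, nat_lit 0, nat_lit 0, [nat_lit 780000, nat_lit 1100000, nat_lit 1785000], [nat_lit 36, nat_lit 40, nat_lit 80, nat_lit 80, nat_lit 7, nat_lit 238, nat_lit 30, nat_lit 8]⟩, ⟨p015_k20, nat_lit 0, nat_lit 0, nat_lit 0, nat_lit 0, nat_lit 0, [nat_lit 4688000000, nat_lit 6250000000, nat_lit 9842000000], [], [nat_lit 17511569075, nat_lit 18247905925, nat_lit 17579774750, nat_lit 18272840438], nat_lit 0, nat_lit 0, nat_lit 0, nat_lit 0, nat_lit 0, nat_lit 0, [], [nat_lit 11, nat_lit 40, nat_lit 80, nat_lit 80]⟩,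
 zbF0, []⟩
noncomputable def p015_l130 : Lf2 := ⟨nat_lit 0, nat_lit 10, [nat_lit 0, nat_lit 5, nat_lit 5, nat_lit 20], false, nat_lit 0, nat_lit 0, nat_lit 0, nat_lit 0, ⟨nat_lit 1000, nat_lit 0, nat_lit 0, nat_lit 0, nat_lit 0, nat_lit 0, nat_lit 0, nat_lit 0, nat_lit 0, nat_lit 0, nat_lit 0, nat_lit 0, nat_lit 0, nat_lit 0, nat_lit 0, nat_lit 0, false, false⟩,
 nat_lit 0, nat_lit 12044, nat_lit 0, nat_lit 0, nat_lit 8167, nat_lit 6940, nat_lit 2041, nat_lit 0, nat_lit 0, nat_lit 1965, nat_lit 0, nat_lit 0, nat_lit 0, nat_lit 0, nat_lit 0, nat_lit 0, nat_lit 0, nat_lit 0, [],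
 ⟨p015_k82, nat_lit 0, nat_lit 0, nat_lit 743, nat_lit 0, nat_lit 1219313, [nat_lit 3282000000, nat_lit 4688000000, nat_lit 7968000000], [], [nat_lit 15199050660, nat_lit 15407899650, nat_lit 14896411244, nat_lit 14550227376], nat_lit 1271250, nat_lit 1271250, nat_lit 356250, nat_lit 780000, nat_lit 0, nat_lit 0, [nat_lit 780000, nat_lit 1100000, nat_lit 1785000], [nat_lit 36, nat_lit 40, nat_lit 80, nat_lit 80, nat_lit 7, nat_lit 239, nat_lit 30, nat_lit 8]⟩, ⟨p015_k20, nat_lit 0, nat_lit 0, nat_lit 0, nat_lit 0, nat_lit 0, [nat_lit 4688000000, nat_lit 6250000000, nat_lit 9842000000], [], [nat_lit 20963530565, nat_lit 21692988230, nat_lit 19986463775, nat_lit 20664405225], nat_lit 0, nat_lit 0, nat_lit 0, nat_lit 0, nat_lit 0, nat_lit 0, [], [nat_lit 11, nat_lit 40, nat_lit 80, nat_lit 80]⟩,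
 zbF0, [⟨nat_lit 0, nat_lit 100, nat_lit 92, nat_lit 82, nat_lit 821446786⟩]⟩
noncomputable def p015_l131 : Lf2 := ⟨nat_lit 0, nat_lit 10, [nat_lit 0, nat_lit 5, nat_lit 5, nat_lit 20], false, nat_lit 0, nat_lit 0, nat_lit 0, nat_lit 0, ⟨nat_lit 1000, nat_lit 0, nat_lit 0, nat_lit 0, nat_lit 0, nat_lit 0, nat_lit 0, nat_lit 0, nat_lit 0, nat_lit 0, nat_lit 0, nat_lit 0, nat_lit 0, nat_lit 0, nat_lit 0, nat_lit 0, false, false⟩,
 nat_lit 0, nat_lit 13330, nat_lit 0, nat_lit 0, nat_lit 8852, nat_lit 6487, nat_lit 2111, nat_lit 0, nat_lit 0, nat_lit 2484, nat_lit 0, nat_lit 0, nat_lit 0, nat_lit 0, nat_lit 0, nat_lit 0, nat_lit 0, nat_lit 0, [],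
 ⟨p015_k81, nat_lit 0, nat_lit 0, nat_lit 772, nat_lit 0, nat_lit 1302723, [nat_lit 3282000000, nat_lit 4688000000, nat_lit 7968000000], [], [nat_lit 14587242468, nat_lit 14820184632, nat_lit 15323396557, nat_lit 14294375900], nat_lit 1271250, nat_lit 1271250, nat_lit 382400, nat_lit 780000, nat_lit 0, nat_lit 0, [nat_lit 780000, nat_lit 1100000, nat_lit 1785000], [nat_lit 36, nat_lit 40, nat_lit 80, nat_lit 80, nat_lit 7, nat_lit 245, nat_lit 30, nat_lit 8]⟩, ⟨p015_k78, nat_lit 0, nat_lit 0, nat_lit 0, nat_lit 0, nat_lit 0, [nat_lit 3965500000, nat_lit 5449500000, nat_lit 8885500000], [], [nat_lit 16681887662, nat_lit 17571329652, nat_lit 16039306614, nat_lit 16764989876], nat_lit 0, nat_lit 0, nat_lit 0, nat_lit 0, nat_lit 0, nat_lit 0, [], [nat_lit 168, nat_lit 40, nat_lit 20, nat_lit 40]⟩,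
 zbF0, [⟨nat_lit 0, nat_lit 100, nat_lit 96, nat_lit 86, nat_lit 692273236⟩]⟩
noncomputable def p015_l132 : Lf2 := ⟨nat_lit 0, nat_lit 10, [nat_lit 0, nat_lit 5, nat_lit 5, nat_lit 20], false, nat_lit 0, nat_lit 0, nat_lit 0, nat_lit 0, ⟨nat_lit 1000, nat_lit 0, nat_lit 0, nat_lit 0, nat_lit 0, nat_lit 0, nat_lit 0, nat_lit 0, nat_lit 0, nat_lit 0, nat_lit 0, nat_lit 0, nat_lit 0, nat_lit 0, nat_lit 0, nat_lit 0, false, false⟩,
 nat_lit 0, nat_lit 12055, nat_lit 0, nat_lit 0, nat_lit 8174, nat_lit 6932, nat_lit 1775, nat_lit 0, nat_lit 0, nat_lit 2740, nat_lit 0, nat_lit 0, nat_lit 0, nat_lit 0, nat_lit 0, nat_lit 0, nat_lit 0, nat_lit 0, [],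
 ⟨p015_k82, nat_lit 0, nat_lit 0, nat_lit 771, nat_lit 0, nat_lit 1306045, [nat_lit 3282000000, nat_lit 4688000000, nat_lit 7968000000], [], [nat_lit 16602680032, nat_lit 16390614791, nat_lit 16315623488, nat_lit 15768271768], nat_lit 1271250, nat_lit 1271250, nat_lit 408851, nat_lit 780000, nat_lit 0, nat_lit 0, [nat_lit 780000, nat_lit 1100000, nat_lit 1785000], [nat_lit 36, nat_lit 40, nat_lit 80, nat_lit 80, nat_lit 7, nat_lit 246, nat_lit 30, nat_lit 8]⟩, ⟨p015_k77, nat_lit 0, nat_lit 0, nat_lit 0, nat_lit 0, nat_lit 0, [nat_lit 4688000000, nat_lit 6250000000, nat_lit 9842000000], [], [nat_lit 17111041380, nat_lit 17836186477, nat_lit 16519637230, nat_lit 17197154140], nat_lit 0, nat_lit 0, nat_lit 0, nat_lit 0, nat_lit 0, nat_lit 0, [], [nat_lit 11, nat_lit 40, nat_lit 80, nat_lit 80]⟩,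
 zbF0, [⟨nat_lit 0, nat_lit 100, nat_lit 94, nat_lit 88, nat_lit 731129308⟩]⟩
noncomputable def p015_l133 : Lf2 := ⟨nat_lit 0, nat_lit 10, [nat_lit 0, nat_lit 5, nat_lit 5, nat_lit 20], false, nat_lit 0, nat_lit 0, nat_lit 0, nat_lit 0, ⟨nat_lit 1000, nat_lit 0, nat_lit 0, nat_lit 0, nat_lit 0, nat_lit 0, nat_lit 0, nat_lit 0, nat_lit 0, nat_lit 0, nat_lit 0, nat_lit 0, nat_lit 0, nat_lit 0, nat_lit 0, nat_lit 0, false, false⟩,
 nat_lit 0, nat_lit 12658, nat_lit 0, nat_lit 0, nat_lit 8406, nat_lit 7741, nat_lit 2447, nat_lit 0, nat_lit 0, nat_lit 1730, nat_lit 0, nat_lit 0, nat_lit 0, nat_lit 0, nat_lit 0, nat_lit 0, nat_lit 0, nat_lit 0, [],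
 ⟨p015_k9, nat_lit 0, nat_lit 0, nat_lit 683, nat_lit 0, nat_lit 1171462, [nat_lit 3282000000, nat_lit 6250000000, nat_lit 7968000000], [], [nat_lit 19304056891, nat_lit 19728766484, nat_lit 29452700536, nat_lit 29801273288], nat_lit 1271250, nat_lit 1271250, nat_lit 780000, nat_lit 3072500, nat_lit 0, nat_lit 0, [nat_lit 780000, nat_lit 1435000, nat_lit 1271250], [nat_lit 18, nat_lit 40, nat_lit 80, nat_lit 80, nat_lit 2, nat_lit 317, nat_lit 100, nat_lit 10]⟩, ⟨p015_k1, nat_lit 0, nat_lit 0, nat_lit 0, nat_lit 0, nat_lit 0, [nat_lit 4688000000, nat_lit 7968000000, nat_lit 11872000000], [], [nat_lit 20568759132, nat_lit 22042141069, nat_lit 38795974044, nat_lit 39555930620], nat_lit 0, nat_lit 0, nat_lit 0, nat_lit 0, nat_lit 0, nat_lit 0, [], [nat_lit 21, nat_lit 40, nat_lit 80, nat_lit 80]⟩,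
 zbF0, []⟩
noncomputable def p015_l134 : Lf2 := ⟨nat_lit 0, nat_lit 10, [nat_lit 0, nat_lit 5, nat_lit 5, nat_lit 20], false, nat_lit 0, nat_lit 0, nat_lit 0, nat_lit 0, ⟨nat_lit 1000, nat_lit 0, nat_lit 0, nat_lit 0, nat_lit 0, nat_lit 0, nat_lit 0, nat_lit 0, nat_lit 0, nat_lit 0, nat_lit 0, nat_lit 0, nat_lit 0, nat_lit 0, nat_lit 0, nat_lit 0, false, false⟩,
 nat_lit 0, nat_lit 11688, nat_lit 0, nat_lit 0, nat_lit 7762, nat_lit 6572, nat_lit 1312, nat_lit 0, nat_lit 0, nat_lit 2677, nat_lit 0, nat_lit 0, nat_lit 0, nat_lit 0, nat_lit 0, nat_lit 0, nat_lit 0, nat_lit 0, [],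
 ⟨p015_k81, nat_lit 0, nat_lit 0, nat_lit 762, nat_lit 0, nat_lit 1343823, [nat_lit 3282000000, nat_lit 4688000000, nat_lit 7968000000], [], [nat_lit 24236577685, nat_lit 22518883344, nat_lit 30640041462, nat_lit 31061443772], nat_lit 1271250, nat_lit 1271250, nat_lit 780000, nat_lit 3072500, nat_lit 0, nat_lit 0, [nat_lit 780000, nat_lit 1100000, nat_lit 1785000], [nat_lit 36, nat_lit 40, nat_lit 80, nat_lit 80, nat_lit 7, nat_lit 317, nat_lit 100, nat_lit 10]⟩, ⟨p015_k20, nat_lit 0, nat_lit 0, nat_lit 0, nat_lit 0, nat_lit 0, [nat_lit 4688000000, nat_lit 6250000000, nat_lit 9842000000], [], [nat_lit 17525921095, nat_lit 18843539463, nat_lit 36242768688, nat_lit 37215312352], nat_lit 0, nat_lit 0, nat_lit 0, nat_lit 0, nat_lit 0, nat_lit 0, [], [nat_lit 11, nat_lit 40, nat_lit 80, nat_lit 80]⟩,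
 zbF0, []⟩
noncomputable def b_N_700_600_0_7 : St := ⟨false, nat_lit 1, nat_lit 0, nat_lit 1, nat_lit 40, nat_lit 290, nat_lit 300, nat_lit 240, nat_lit 280, nat_lit 36, nat_lit 400, nat_lit 0, nat_lit 0, nat_lit 0, nat_lit 0, nat_lit 0, nat_lit 0, nat_lit 0, nat_lit 40, nat_lit 600, nat_lit 0, nat_lit 0, nat_lit 800⟩
theorem d_N_700_600_0_7 (h : EB TB.env) : Dead b_N_700_600_0_7 := chkB_sound0 h (T :=
(.trZ (nat_lit 0) (nat_lit 100) (nat_lit 91) (nat_lit 63) (nat_lit 40) (.spl (nat_lit 2) (nat_lit 120)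
(.spl (nat_lit 1) (nat_lit 260)
(.spl (nat_lit 2) (nat_lit 80)
(.leaf p015_l126)
(.leaf p015_l127))
(.trZ (nat_lit 0) (nat_lit 100) (nat_lit 94) (nat_lit 73) (nat_lit 56) (.spl (nat_lit 1) (nat_lit 270)
(.spl (nat_lit 0) (nat_lit 295)
(.spl (nat_lit 2) (nat_lit 80)
(.leaf p015_l128)
(.leaf p015_l129))
(.trZ (nat_lit 0) (nat_lit 100) (nat_lit 92) (nat_lit 75) (nat_lit 60) (.leaf p015_l130)))
(.trZ (nat_lit 0) (nat_lit 100) (nat_lit 95) (nat_lit 78) (nat_lit 64) (.spl (nat_lit 0) (nat_lit 295)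
(.leaf p015_l131)
(.trZ (nat_lit 0) (nat_lit 100) (nat_lit 94) (nat_lit 80) (nat_lit 68) (.leaf p015_l132)))))))
(.spl (nat_lit 1) (nat_lit 260)
(.leaf p015_l133)
(.leaf p015_l134))))) (by decide +kernel)
noncomputable def p015_l135 : Lf2 := ⟨nat_lit 0, nat_lit 10, [nat_lit 0, nat_lit 5, nat_lit 5, nat_lit 20], true, nat_lit 0, nat_lit 0, nat_lit 0, nat_lit 0, ⟨nat_lit 0, nat_lit 1000, nat_lit 0, nat_lit 6, nat_lit 125, nat_lit 0, nat_lit 0, nat_lit 0, nat_lit 0, nat_lit 0, nat_lit 0, nat_lit 0, nat_lit 60996517, nat_lit 6003483, nat_lit 0, nat_lit 1508102, false, false⟩,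
 nat_lit 0, nat_lit 100000, nat_lit 0, nat_lit 0, nat_lit 69230, nat_lit 0, nat_lit 17361, nat_lit 3804, nat_lit 0, nat_lit 0, nat_lit 0, nat_lit 0, nat_lit 0, nat_lit 0, nat_lit 0, nat_lit 1000000, nat_lit 0, nat_lit 0, [(nat_lit 15, [(nat_lit 2, nat_lit 1000)])],
 ⟨p015_k8, nat_lit 0, nat_lit 0, nat_lit 488, nat_lit 0, nat_lit 621625, [nat_lit 47761600001, nat_lit 77128000000, nat_lit 90598800000], [], [nat_lit 54956871641, nat_lit 61615318356, nat_lit 36785987105, nat_lit 42425130915], nat_lit 1271250, nat_lit 1271250, nat_lit 279600, nat_lit 490000, nat_lit 0, nat_lit 0, [nat_lit 780000, nat_lit 1435000, nat_lit 1271250], [nat_lit 18, nat_lit 40, nat_lit 80, nat_lit 80, nat_lit 2, nat_lit 226, nat_lit 20, nat_lit 8]⟩, C1.Rw.none,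
 ⟨nat_lit 4743, nat_lit 5000, ⟨.ofNat (nat_lit 271427), .ofNat (nat_lit 328569), .ofNat (nat_lit 292854), .ofNat (nat_lit 349996), .ofNat (nat_lit 278116), .ofNat (nat_lit 333875), .ofNat (nat_lit 299602), .ofNat (nat_lit 355361)⟩, ⟨.ofNat (nat_lit 0), .ofNat (nat_lit 0), .ofNat (nat_lit 0), .ofNat (nat_lit 0), .ofNat (nat_lit 0), .ofNat (nat_lit 0), .ofNat (nat_lit 0), .ofNat (nat_lit 0)⟩⟩, [⟨nat_lit 0, nat_lit 100, nat_lit 88, nat_lit 74, nat_lit 11363636364⟩, ⟨nat_lit 0, nat_lit 100, nat_lit 88, nat_lit 81, nat_lit 127694637⟩]⟩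
noncomputable def p015_l136 : Lf2 := ⟨nat_lit 0, nat_lit 10, [nat_lit 0, nat_lit 5, nat_lit 5, nat_lit 20], false, nat_lit 0, nat_lit 0, nat_lit 0, nat_lit 0, ⟨nat_lit 1000, nat_lit 0, nat_lit 0, nat_lit 0, nat_lit 0, nat_lit 0, nat_lit 0, nat_lit 0, nat_lit 0, nat_lit 0, nat_lit 0, nat_lit 0, nat_lit 0, nat_lit 0, nat_lit 0, nat_lit 0, false, false⟩,
 nat_lit 0, nat_lit 11622, nat_lit 0, nat_lit 0, nat_lit 8046, nat_lit 7954, nat_lit 2285, nat_lit 0, nat_lit 0, nat_lit 1864, nat_lit 0, nat_lit 0, nat_lit 0, nat_lit 0, nat_lit 0, nat_lit 0, nat_lit 0, nat_lit 0, [],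
 ⟨p015_k8, nat_lit 0, nat_lit 0, nat_lit 719, nat_lit 0, nat_lit 1191219, [nat_lit 3282000000, nat_lit 6250000000, nat_lit 7968000000], [], [nat_lit 14390304948, nat_lit 15004797317, nat_lit 14496868632, nat_lit 15074060840], nat_lit 1271250, nat_lit 1271250, nat_lit 490000, nat_lit 780000, nat_lit 0, nat_lit 0, [nat_lit 780000, nat_lit 1435000, nat_lit 1271250], [nat_lit 18, nat_lit 40, nat_lit 80, nat_lit 80, nat_lit 2, nat_lit 238, nat_lit 30, nat_lit 8]⟩, ⟨p015_k1, nat_lit 0, nat_lit 0, nat_lit 0, nat_lit 0, nat_lit 0, [nat_lit 4688000000, nat_lit 7968000000, nat_lit 11872000000], [], [nat_lit 20015290696, nat_lit 21599633224, nat_lit 20123497372, nat_lit 21782368186], nat_lit 0, nat_lit 0, nat_lit 0, nat_lit 0, nat_lit 0, nat_lit 0, [], [nat_lit 21, nat_lit 40, nat_lit 80, nat_lit 80]⟩,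
 zbF0, []⟩
noncomputable def p015_l137 : Lf2 := ⟨nat_lit 0, nat_lit 10, [nat_lit 0, nat_lit 5, nat_lit 5, nat_lit 20], false, nat_lit 0, nat_lit 0, nat_lit 0, nat_lit 0, ⟨nat_lit 1000, nat_lit 0, nat_lit 0, nat_lit 0, nat_lit 0, nat_lit 0, nat_lit 0, nat_lit 0, nat_lit 0, nat_lit 0, nat_lit 0, nat_lit 0, nat_lit 0, nat_lit 0, nat_lit 0, nat_lit 0, false, false⟩,
 nat_lit 0, nat_lit 11372, nat_lit 0, nat_lit 0, nat_lit 8198, nat_lit 8008, nat_lit 1696, nat_lit 0, nat_lit 0, nat_lit 1925, nat_lit 0, nat_lit 0, nat_lit 0, nat_lit 0, nat_lit 0, nat_lit 0, nat_lit 0, nat_lit 0, [],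
 ⟨p015_k83, nat_lit 0, nat_lit 0, nat_lit 745, nat_lit 0, nat_lit 1210379, [nat_lit 3282000000, nat_lit 6250000000, nat_lit 7968000000], [], [nat_lit 15702984542, nat_lit 16254305530, nat_lit 14970479219, nat_lit 15475026728], nat_lit 1271250, nat_lit 1271250, nat_lit 330400, nat_lit 780000, nat_lit 0, nat_lit 0, [nat_lit 780000, nat_lit 1435000, nat_lit 1271250], [nat_lit 18, nat_lit 40, nat_lit 80, nat_lit 80, nat_lit 2, nat_lit 242, nat_lit 30, nat_lit 8]⟩, ⟨p015_k1, nat_lit 0, nat_lit 0, nat_lit 0, nat_lit 0, nat_lit 0, [nat_lit 4688000000, nat_lit 7968000000, nat_lit 11872000000], [], [nat_lit 21671347107, nat_lit 23525952650, nat_lit 20050776544, nat_lit 21716510272], nat_lit 0, nat_lit 0, nat_lit 0, nat_lit 0, nat_lit 0, nat_lit 0, [], [nat_lit 21, nat_lit 40, nat_lit 80, nat_lit 80]⟩,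
 zbF0, [⟨nat_lit 0, nat_lit 100, nat_lit 84, nat_lit 85, nat_lit 954251555⟩]⟩
noncomputable def p015_l138 : Lf2 := ⟨nat_lit 0, nat_lit 10, [nat_lit 0, nat_lit 5, nat_lit 5, nat_lit 20], false, nat_lit 0, nat_lit 0, nat_lit 0, nat_lit 0, ⟨nat_lit 1000, nat_lit 0, nat_lit 0, nat_lit 0, nat_lit 0, nat_lit 0, nat_lit 0, nat_lit 0, nat_lit 0, nat_lit 0, nat_lit 0, nat_lit 0, nat_lit 0, nat_lit 0, nat_lit 0, nat_lit 0, false, false⟩,
 nat_lit 0, nat_lit 11380, nat_lit 0, nat_lit 0, nat_lit 7878, nat_lit 6289, nat_lit 1511, nat_lit 0, nat_lit 0, nat_lit 2537, nat_lit 0, nat_lit 0, nat_lit 0, nat_lit 0, nat_lit 0, nat_lit 0, nat_lit 0, nat_lit 0, [],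
 ⟨p015_k14, nat_lit 0, nat_lit 0, nat_lit 842, nat_lit 0, nat_lit 1433028, [nat_lit 3282000000, nat_lit 4688000000, nat_lit 7968000000], [], [nat_lit 17993822501, nat_lit 19113789614, nat_lit 17364157804, nat_lit 18106659876], nat_lit 1271250, nat_lit 1271250, nat_lit 382400, nat_lit 780000, nat_lit 0, nat_lit 0, [nat_lit 780000, nat_lit 1100000, nat_lit 1785000], [nat_lit 36, nat_lit 40, nat_lit 80, nat_lit 80, nat_lit 7, nat_lit 266, nat_lit 30, nat_lit 9]⟩, ⟨p015_k74, nat_lit 0, nat_lit 0, nat_lit 0, nat_lit 0, nat_lit 0, [nat_lit 3965500000, nat_lit 5449500000, nat_lit 9842000000], [], [nat_lit 17324496564, nat_lit 18960607901, nat_lit 16767497899, nat_lit 18109683872], nat_lit 0, nat_lit 0, nat_lit 0, nat_lit 0, nat_lit 0, nat_lit 0, [], [nat_lit 169, nat_lit 40, nat_lit 20, nat_lit 40]⟩,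
 zbF0, [⟨nat_lit 0, nat_lit 100, nat_lit 87, nat_lit 95, nat_lit 855953257⟩]⟩
noncomputable def p015_l139 : Lf2 := ⟨nat_lit 0, nat_lit 10, [nat_lit 0, nat_lit 5, nat_lit 5, nat_lit 20], false, nat_lit 0, nat_lit 0, nat_lit 0, nat_lit 0, ⟨nat_lit 1000, nat_lit 0, nat_lit 0, nat_lit 0, nat_lit 0, nat_lit 0, nat_lit 0, nat_lit 0, nat_lit 0, nat_lit 0, nat_lit 0, nat_lit 0, nat_lit 0, nat_lit 0, nat_lit 0, nat_lit 0, false, false⟩,
 nat_lit 0, nat_lit 10638, nat_lit 0, nat_lit 0, nat_lit 7364, nat_lit 7683, nat_lit 1855, nat_lit 0, nat_lit 0, nat_lit 1692, nat_lit 0, nat_lit 0, nat_lit 0, nat_lit 0, nat_lit 0, nat_lit 0, nat_lit 0, nat_lit 0, [],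
 ⟨p015_k8, nat_lit 0, nat_lit 0, nat_lit 769, nat_lit 0, nat_lit 1349965, [nat_lit 3282000000, nat_lit 6250000000, nat_lit 7968000000], [], [nat_lit 19448772258, nat_lit 19851860591, nat_lit 29487106989, nat_lit 29921837553], nat_lit 1271250, nat_lit 1271250, nat_lit 780000, nat_lit 3072500, nat_lit 0, nat_lit 0, [nat_lit 780000, nat_lit 1435000, nat_lit 1271250], [nat_lit 18, nat_lit 40, nat_lit 80, nat_lit 80, nat_lit 2, nat_lit 317, nat_lit 100, nat_lit 10]⟩, ⟨p015_k1, nat_lit 0, nat_lit 0, nat_lit 0, nat_lit 0, nat_lit 0, [nat_lit 4688000000, nat_lit 7968000000, nat_lit 11872000000], [], [nat_lit 20803162316, nat_lit 23737306500, nat_lit 38741460772, nat_lit 40257901348], nat_lit 0, nat_lit 0, nat_lit 0, nat_lit 0, nat_lit 0, nat_lit 0, [], [nat_lit 21, nat_lit 40, nat_lit 80, nat_lit 80]⟩,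
 zbF0, []⟩
noncomputable def p015_l140 : Lf2 := ⟨nat_lit 0, nat_lit 10, [nat_lit 0, nat_lit 5, nat_lit 5, nat_lit 20], false, nat_lit 0, nat_lit 0, nat_lit 0, nat_lit 0, ⟨nat_lit 1000, nat_lit 0, nat_lit 0, nat_lit 0, nat_lit 0, nat_lit 0, nat_lit 0, nat_lit 0, nat_lit 0, nat_lit 0, nat_lit 0, nat_lit 0, nat_lit 0, nat_lit 0, nat_lit 0, nat_lit 0, false, false⟩,
 nat_lit 0, nat_lit 10702, nat_lit 0, nat_lit 0, nat_lit 7715, nat_lit 7683, nat_lit 1667, nat_lit 0, nat_lit 0, nat_lit 1692, nat_lit 0, nat_lit 0, nat_lit 0, nat_lit 0, nat_lit 0, nat_lit 0, nat_lit 0, nat_lit 0, [],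
 ⟨p015_k83, nat_lit 0, nat_lit 0, nat_lit 771, nat_lit 0, nat_lit 1356796, [nat_lit 3282000000, nat_lit 6250000000, nat_lit 7968000000], [], [nat_lit 18626599555, nat_lit 19049609190, nat_lit 28362715680, nat_lit 28806913520], nat_lit 1271250, nat_lit 1271250, nat_lit 780000, nat_lit 3072500, nat_lit 0, nat_lit 0, [nat_lit 780000, nat_lit 1435000, nat_lit 1271250], [nat_lit 18, nat_lit 40, nat_lit 80, nat_lit 80, nat_lit 2, nat_lit 317, nat_lit 100, nat_lit 10]⟩, ⟨p015_k1, nat_lit 0, nat_lit 0, nat_lit 0, nat_lit 0, nat_lit 0, [nat_lit 4688000000, nat_lit 7968000000, nat_lit 11872000000], [], [nat_lit 20803162316, nat_lit 23737306500, nat_lit 38741460772, nat_lit 40257901348], nat_lit 0, nat_lit 0, nat_lit 0, nat_lit 0, nat_lit 0, nat_lit 0, [], [nat_lit 21, nat_lit 40, nat_lit 80, nat_lit 80]⟩,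
 zbF0, []⟩
noncomputable def b_N_700_600_0_8 : St := ⟨false, nat_lit 1, nat_lit 0, nat_lit 1, nat_lit 40, nat_lit 300, nat_lit 320, nat_lit 240, nat_lit 280, nat_lit 36, nat_lit 400, nat_lit 0, nat_lit 0, nat_lit 0, nat_lit 0, nat_lit 0, nat_lit 0, nat_lit 0, nat_lit 40, nat_lit 600, nat_lit 0, nat_lit 0, nat_lit 800⟩
theorem d_N_700_600_0_8 (h : EB TB.env) : Dead b_N_700_600_0_8 := chkB_sound0 h (T :=
(.trZ (nat_lit 0) (nat_lit 100) (nat_lit 88) (nat_lit 68) (nat_lit 48) (.spl (nat_lit 2) (nat_lit 120)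
(.spl (nat_lit 1) (nat_lit 260)
(.spl (nat_lit 0) (nat_lit 310)
(.spl (nat_lit 2) (nat_lit 80)
(.leaf p015_l135)
(.leaf p015_l136))
(.trZ (nat_lit 0) (nat_lit 100) (nat_lit 85) (nat_lit 72) (nat_lit 56) (.leaf p015_l137)))
(.trZ (nat_lit 0) (nat_lit 100) (nat_lit 91) (nat_lit 77) (nat_lit 64) (.leaf p015_l138)))
(.spl (nat_lit 0) (nat_lit 310)
(.leaf p015_l139)
(.leaf p015_l140))))) (by decide +kernel)
noncomputable def p015_l141 : Lf2 := ⟨nat_lit 0, nat_lit 5, [nat_lit 4, nat_lit 5, nat_lit 5, nat_lit 20], false, nat_lit 0, nat_lit 0, nat_lit 0, nat_lit 0, ⟨nat_lit 131, nat_lit 0, nat_lit 869, nat_lit 6, nat_lit 110, nat_lit 0, nat_lit 0, nat_lit 0, nat_lit 0, nat_lit 215, nat_lit 114817, nat_lit 298, nat_lit 62276827, nat_lit 0, nat_lit 0, nat_lit 1274584, false, false⟩,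
 nat_lit 3480, nat_lit 2753, nat_lit 0, nat_lit 0, nat_lit 3966, nat_lit 1842, nat_lit 0, nat_lit 0, nat_lit 0, nat_lit 261, nat_lit 0, nat_lit 0, nat_lit 0, nat_lit 0, nat_lit 98, nat_lit 869000, nat_lit 0, nat_lit 0, [(nat_lit 12, [(nat_lit 6, nat_lit 869)])],
 ⟨p015_k10, nat_lit 0, nat_lit 0, nat_lit 482, nat_lit 0, nat_lit 586886, [nat_lit 2597644801, nat_lit 1798865601, nat_lit 17483600], [], [nat_lit 16148013764, nat_lit 17635423735, nat_lit 15872697893, nat_lit 16859559083], nat_lit 1271250, nat_lit 1271250, nat_lit 205650, nat_lit 356250, nat_lit 0, nat_lit 0, [nat_lit 780000, nat_lit 1435000, nat_lit 1271250], [nat_lit 18, nat_lit 40, nat_lit 80, nat_lit 80, nat_lit 2, nat_lit 226, nat_lit 20, nat_lit 8]⟩, ⟨p015_k30, nat_lit 0, nat_lit 0, nat_lit 616, nat_lit 0, nat_lit 712889, [nat_lit 614128000, nat_lit 1043808000, nat_lit 1289302000], [], [nat_lit 4132406898, nat_lit 3716180328,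 nat_lit 4227337856, nat_lit 3364095262], nat_lit 1271250, nat_lit 1271250, nat_lit 205650, nat_lit 356250, nat_lit 0, nat_lit 0, [nat_lit 1100000, nat_lit 1785000, nat_lit 1271250], [nat_lit 29, nat_lit 40, nat_lit 80, nat_lit 80, nat_lit 17, nat_lit 317, nat_lit 100, nat_lit 10]⟩,
 ⟨nat_lit 5000, nat_lit 5478, ⟨.ofNat (nat_lit 235487), .ofNat (nat_lit 280447), .ofNat (nat_lit 256844), .ofNat (nat_lit 301804), .ofNat (nat_lit 249999), .ofNat (nat_lit 292856), .ofNat (nat_lit 271427), .ofNat (nat_lit 314284)⟩, ⟨.ofNat (nat_lit 0), .ofNat (nat_lit 0), .ofNat (nat_lit 0), .ofNat (nat_lit 0), .ofNat (nat_lit 0), .ofNat (nat_lit 0), .ofNat (nat_lit 0), .ofNat (nat_lit 0)⟩⟩, [⟨nat_lit 0, nat_lit 100, nat_lit 92, nat_lit 68, nat_lit 332024498⟩]⟩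
noncomputable def p015_l142 : Lf2 := ⟨nat_lit 0, nat_lit 5, [nat_lit 4, nat_lit 5, nat_lit 5, nat_lit 20], false, nat_lit 0, nat_lit 0, nat_lit 0, nat_lit 0, ⟨nat_lit 159, nat_lit 0, nat_lit 841, nat_lit 6, nat_lit 126, nat_lit 0, nat_lit 0, nat_lit 0, nat_lit 0, nat_lit 215, nat_lit 150417, nat_lit 310, nat_lit 60929558, nat_lit 0, nat_lit 0, nat_lit 1519657, false, false⟩,
 nat_lit 5100, nat_lit 1474, nat_lit 0, nat_lit 0, nat_lit 4183, nat_lit 2699, nat_lit 0, nat_lit 0, nat_lit 0, nat_lit 299, nat_lit 0, nat_lit 0, nat_lit 0, nat_lit 0, nat_lit 84, nat_lit 841000, nat_lit 0, nat_lit 0, [(nat_lit 12, [(nat_lit 6, nat_lit 841)])],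
 ⟨p015_k10, nat_lit 0, nat_lit 0, nat_lit 444, nat_lit 0, nat_lit 586886, [nat_lit 2489587201, nat_lit 1725438401, nat_lit 13440400], [], [nat_lit 15883359392, nat_lit 16778045833, nat_lit 15607988765, nat_lit 16503234971], nat_lit 1271250, nat_lit 1271250, nat_lit 356250, nat_lit 490000, nat_lit 0, nat_lit 0, [nat_lit 780000, nat_lit 1435000, nat_lit 1271250], [nat_lit 18, nat_lit 40, nat_lit 80, nat_lit 80, nat_lit 2, nat_lit 226, nat_lit 20, nat_lit 8]⟩, ⟨p015_k30, nat_lit 0, nat_lit 0, nat_lit 596, nat_lit 0, nat_lit 712889, [nat_lit 745392000, nat_lit 1266912000, nat_lit 1564878000], [], [nat_lit 5577704542, nat_lit 4186945827, nat_lit 4941578960, nat_lit 3634296718], nat_lit 1271250, nat_lit 1271250, nat_lit 356250, nat_lit 490000, nat_lit 0, nat_lit 0, [nat_lit 1100000, nat_lit 1785000, nat_lit 1271250], [nat_lit 29, nat_lit 40, nat_lit 80, nat_lit 80, nat_lit 17, nat_lit 317, nat_lit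 100, nat_lit 9]⟩,
 ⟨nat_lit 5000, nat_lit 5478, ⟨.ofNat (nat_lit 280447), .ofNat (nat_lit 317913), .ofNat (nat_lit 301804), .ofNat (nat_lit 339271), .ofNat (nat_lit 292856), .ofNat (nat_lit 328570), .ofNat (nat_lit 314284), .ofNat (nat_lit 349999)⟩, ⟨.ofNat (nat_lit 0), .ofNat (nat_lit 0), .ofNat (nat_lit 0), .ofNat (nat_lit 0), .ofNat (nat_lit 0), .ofNat (nat_lit 0), .ofNat (nat_lit 0), .ofNat (nat_lit 0)⟩⟩, [⟨nat_lit 0, nat_lit 100, nat_lit 91, nat_lit 77, nat_lit 32016615⟩]⟩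
noncomputable def p015_l143 : Lf2 := ⟨nat_lit 0, nat_lit 10, [nat_lit 0, nat_lit 5, nat_lit 5, nat_lit 20], true, nat_lit 0, nat_lit 0, nat_lit 0, nat_lit 0, ⟨nat_lit 0, nat_lit 0, nat_lit 1000, nat_lit 6, nat_lit 115, nat_lit 0, nat_lit 0, nat_lit 0, nat_lit 0, nat_lit 215, nat_lit 126150, nat_lit 302, nat_lit 61857179, nat_lit 0, nat_lit 0, nat_lit 1353897, false, false⟩,
 nat_lit 0, nat_lit 5313, nat_lit 0, nat_lit 0, nat_lit 3380, nat_lit 0, nat_lit 130, nat_lit 0, nat_lit 0, nat_lit 0, nat_lit 0, nat_lit 0, nat_lit 0, nat_lit 0, nat_lit 121, nat_lit 539800, nat_lit 0, nat_lit 0, [(nat_lit 12, [(nat_lit 5, nat_lit 767), (nat_lit 6, nat_lit 233)])],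
 ⟨p015_k0, nat_lit 0, nat_lit 0, nat_lit 475, nat_lit 0, nat_lit 432901, [nat_lit 2669593201, nat_lit 1747179867, nat_lit 246191600], [], [nat_lit 15345516956, nat_lit 16427699007, nat_lit 14941407976, nat_lit 15985381150], nat_lit 1271250, nat_lit 1271250, nat_lit 205650, nat_lit 490000, nat_lit 0, nat_lit 0, [nat_lit 780000, nat_lit 1435000, nat_lit 1271250], [nat_lit 8, nat_lit 40, nat_lit 80, nat_lit 80, nat_lit 1, nat_lit 226, nat_lit 20, nat_lit 7]⟩, C1.Rw.none,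
 ⟨nat_lit 5000, nat_lit 5478, ⟨.ofNat (nat_lit 235487), .ofNat (nat_lit 317913), .ofNat (nat_lit 246166), .ofNat (nat_lit 328592), .ofNat (nat_lit 249999), .ofNat (nat_lit 328570), .ofNat (nat_lit 260713), .ofNat (nat_lit 339284)⟩, ⟨.ofNat (nat_lit 0), .ofNat (nat_lit 0), .ofNat (nat_lit 0), .ofNat (nat_lit 0), .ofNat (nat_lit 0), .ofNat (nat_lit 0), .ofNat (nat_lit 0), .ofNat (nat_lit 0)⟩⟩, [⟨nat_lit 0, nat_lit 100, nat_lit 92, nat_lit 66, nat_lit 158979014⟩]⟩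
noncomputable def p015_l144 : Lf2 := ⟨nat_lit 0, nat_lit 10, [nat_lit 0, nat_lit 5, nat_lit 5, nat_lit 20], false, nat_lit 0, nat_lit 0, nat_lit 0, nat_lit 0, ⟨nat_lit 89, nat_lit 0, nat_lit 911, nat_lit 6, nat_lit 121, nat_lit 0, nat_lit 0, nat_lit 0, nat_lit 0, nat_lit 215, nat_lit 138017, nat_lit 306, nat_lit 61376396, nat_lit 0, nat_lit 0, nat_lit 1441370, false, false⟩,
 nat_lit 2260, nat_lit 3469, nat_lit 0, nat_lit 0, nat_lit 3645, nat_lit 1255, nat_lit 0, nat_lit 0, nat_lit 0, nat_lit 0, nat_lit 0, nat_lit 0, nat_lit 0, nat_lit 0, nat_lit 140, nat_lit 812000, nat_lit 0, nat_lit 0, [(nat_lit 12, [(nat_lit 5, nat_lit 165), (nat_lit 6, nat_lit 746)])],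
 ⟨p015_k0, nat_lit 0, nat_lit 0, nat_lit 483, nat_lit 0, nat_lit 463336, [nat_lit 3028165201, nat_lit 2426840400, nat_lit 367339200], [], [nat_lit 15572058763, nat_lit 16973879260, nat_lit 15093493062, nat_lit 16142265232], nat_lit 1271250, nat_lit 1271250, nat_lit 230001, nat_lit 490000, nat_lit 0, nat_lit 0, [nat_lit 780000, nat_lit 1435000, nat_lit 1271250], [nat_lit 8, nat_lit 40, nat_lit 80, nat_lit 80, nat_lit 1, nat_lit 226, nat_lit 20, nat_lit 7]⟩, ⟨p015_k6, nat_lit 0, nat_lit 0, nat_lit 519, nat_lit 0, nat_lit 538181, [nat_lit 417232000, nat_lit 709152000, nat_lit 875938000], [], [nat_lit 3466718193, nat_lit 3139854698, nat_lit 2663250163, nat_lit 2554837680], nat_lit 1271250, nat_lit 1271250, nat_lit 230001, nat_lit 490000, nat_lit 0, nat_lit 0, [nat_lit 1100000, nat_lit 1785000, nat_lit 1271250], [nat_lit 29, nat_lit 40, nat_lit 80, nat_lit 80, nat_lit 17, nat_lit 317, nat_lit 100,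 nat_lit 10]⟩,
 ⟨nat_lit 5000, nat_lit 5478, ⟨.ofNat (nat_lit 253659), .ofNat (nat_lit 328592), .ofNat (nat_lit 264337), .ofNat (nat_lit 339271), .ofNat (nat_lit 267856), .ofNat (nat_lit 339284), .ofNat (nat_lit 278570), .ofNat (nat_lit 349999)⟩, ⟨.ofNat (nat_lit 0), .ofNat (nat_lit 0), .ofNat (nat_lit 0), .ofNat (nat_lit 0), .ofNat (nat_lit 0), .ofNat (nat_lit 0), .ofNat (nat_lit 0), .ofNat (nat_lit 0)⟩⟩, [⟨nat_lit 0, nat_lit 100, nat_lit 93, nat_lit 71, nat_lit 314995797⟩]⟩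
noncomputable def p015_l145 : Lf2 := ⟨nat_lit 0, nat_lit 10, [nat_lit 0, nat_lit 5, nat_lit 5, nat_lit 20], false, nat_lit 0, nat_lit 0, nat_lit 0, nat_lit 0, ⟨nat_lit 209, nat_lit 0, nat_lit 791, nat_lit 6, nat_lit 127, nat_lit 0, nat_lit 0, nat_lit 0, nat_lit 0, nat_lit 215, nat_lit 150417, nat_lit 310, nat_lit 60891301, nat_lit 0, nat_lit 0, nat_lit 1526232, false, false⟩,
 nat_lit 4675, nat_lit 791, nat_lit 0, nat_lit 0, nat_lit 3783, nat_lit 2474, nat_lit 0, nat_lit 0, nat_lit 0, nat_lit 67, nat_lit 0, nat_lit 0, nat_lit 0, nat_lit 0, nat_lit 104, nat_lit 791000, nat_lit 0, nat_lit 0, [(nat_lit 15, [(nat_lit 6, nat_lit 791)])],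
 ⟨p015_k8, nat_lit 0, nat_lit 0, nat_lit 508, nat_lit 0, nat_lit 666845, [nat_lit 2709118000, nat_lit 1570746801, nat_lit 4765200], [], [nat_lit 17230000117, nat_lit 18833847997, nat_lit 16914959710, nat_lit 18134436112], nat_lit 1271250, nat_lit 1271250, nat_lit 279600, nat_lit 490000, nat_lit 0, nat_lit 0, [nat_lit 780000, nat_lit 1435000, nat_lit 1271250], [nat_lit 18, nat_lit 40, nat_lit 80, nat_lit 80, nat_lit 2, nat_lit 226, nat_lit 20, nat_lit 8]⟩, ⟨p015_k1, nat_lit 0, nat_lit 0, nat_lit 756, nat_lit 0, nat_lit 895981, [nat_lit 979792000, nat_lit 1665312000, nat_lit 2481248000], [], [nat_lit 8164803568, nat_lit 8036638889, nat_lit 7339981260, nat_lit 7181742674], nat_lit 1271250, nat_lit 1271250, nat_lit 279600, nat_lit 490000, nat_lit 0, nat_lit 0, [nat_lit 1100000, nat_lit 1785000, nat_lit 1271250], [nat_lit 21, nat_lit 40, nat_lit 80, nat_lit 80, nat_lit 14, nat_lit 317, nat_lit 100,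 nat_lit 9]⟩,
 ⟨nat_lit 4472, nat_lit 5000, ⟨.ofNat (nat_lit 271418), .ofNat (nat_lit 328559), .ofNat (nat_lit 292837), .ofNat (nat_lit 349976), .ofNat (nat_lit 284805), .ofNat (nat_lit 339186), .ofNat (nat_lit 306362), .ofNat (nat_lit 360741)⟩, ⟨.ofNat (nat_lit 0), .ofNat (nat_lit 0), .ofNat (nat_lit 0), .ofNat (nat_lit 0), .ofNat (nat_lit 0), .ofNat (nat_lit 0), .ofNat (nat_lit 0), .ofNat (nat_lit 0)⟩⟩, [⟨nat_lit 0, nat_lit 100, nat_lit 86, nat_lit 77, nat_lit 83724352⟩, ⟨nat_lit 0, nat_lit 100, nat_lit 88, nat_lit 68, nat_lit 368197547⟩]⟩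
noncomputable def p015_l146 : Lf2 := ⟨nat_lit 0, nat_lit 10, [nat_lit 0, nat_lit 5, nat_lit 5, nat_lit 20], false, nat_lit 0, nat_lit 0, nat_lit 0, nat_lit 0, ⟨nat_lit 659, nat_lit 0, nat_lit 341, nat_lit 6, nat_lit 126, nat_lit 0, nat_lit 0, nat_lit 0, nat_lit 0, nat_lit 215, nat_lit 147267, nat_lit 309, nat_lit 60978310, nat_lit 0, nat_lit 0, nat_lit 1511250, false, false⟩,
 nat_lit 10424, nat_lit 0, nat_lit 0, nat_lit 0, nat_lit 6633, nat_lit 6067, nat_lit 940, nat_lit 0, nat_lit 0, nat_lit 866, nat_lit 0, nat_lit 0, nat_lit 0, nat_lit 0, nat_lit 0, nat_lit 341000, nat_lit 0, nat_lit 0, [(nat_lit 12, [(nat_lit 6, nat_lit 341)]), (nat_lit 15, [(nat_lit 6, nat_lit 341)])],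
 ⟨p015_k17, nat_lit 0, nat_lit 0, nat_lit 621, nat_lit 0, nat_lit 790795, [nat_lit 2497018001, nat_lit 3203968000, nat_lit 4693991200], [], [nat_lit 21127804388, nat_lit 25054171357, nat_lit 20909689504, nat_lit 24181670616], nat_lit 1271250, nat_lit 1271250, nat_lit 279600, nat_lit 356250, nat_lit 0, nat_lit 0, [nat_lit 780000, nat_lit 1100000, nat_lit 2127500], [nat_lit 42, nat_lit 40, nat_lit 80, nat_lit 80, nat_lit 13, nat_lit 226, nat_lit 20, nat_lit 7]⟩, ⟨p015_k20, nat_lit 0, nat_lit 0, nat_lit 659, nat_lit 0, nat_lit 872294, [nat_lit 3089392000, nat_lit 4118750000, nat_lit 6485878000], [], [nat_lit 16873034089, nat_lit 18235844235, nat_lit 16102945603, nat_lit 17457860551], nat_lit 1271250, nat_lit 1271250, nat_lit 279600, nat_lit 356250, nat_lit 0, nat_lit 0, [nat_lit 1100000, nat_lit 1442500, nat_lit 1271250], [nat_lit 11, nat_lit 40, nat_lit 80, nat_lit 80, nat_lit 1, nat_lit 317,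 nat_lit 100, nat_lit 9]⟩,
 ⟨nat_lit 4472, nat_lit 5478, ⟨.ofNat (nat_lit 279289), .ofNat (nat_lit 301764), .ofNat (nat_lit 300612), .ofNat (nat_lit 323087), .ofNat (nat_lit 306346), .ofNat (nat_lit 326734), .ofNat (nat_lit 327879), .ofNat (nat_lit 348267)⟩, ⟨.ofNat (nat_lit 0), .ofNat (nat_lit 0), .ofNat (nat_lit 0), .ofNat (nat_lit 0), .ofNat (nat_lit 0), .ofNat (nat_lit 0), .ofNat (nat_lit 0), .ofNat (nat_lit 0)⟩⟩, [⟨nat_lit 0, nat_lit 100, nat_lit 96, nat_lit 69, nat_lit 931818408⟩]⟩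
noncomputable def p015_l147 : Lf2 := ⟨nat_lit 0, nat_lit 10, [nat_lit 0, nat_lit 5, nat_lit 5, nat_lit 20], false, nat_lit 0, nat_lit 0, nat_lit 0, nat_lit 0, ⟨nat_lit 668, nat_lit 0, nat_lit 332, nat_lit 6, nat_lit 135, nat_lit 0, nat_lit 0, nat_lit 0, nat_lit 0, nat_lit 215, nat_lit 170017, nat_lit 316, nat_lit 60165626, nat_lit 0, nat_lit 0, nat_lit 1647334, false, false⟩,
 nat_lit 10319, nat_lit 0, nat_lit 0, nat_lit 0, nat_lit 6566, nat_lit 6006, nat_lit 1251, nat_lit 0, nat_lit 0, nat_lit 685, nat_lit 0, nat_lit 0, nat_lit 0, nat_lit 0, nat_lit 0, nat_lit 332000, nat_lit 0, nat_lit 0, [(nat_lit 12, [(nat_lit 6, nat_lit 332)])],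
 ⟨p015_k17, nat_lit 0, nat_lit 0, nat_lit 584, nat_lit 0, nat_lit 700802, [nat_lit 2494363200, nat_lit 3266044000, nat_lit 4784046400], [], [nat_lit 19702656381, nat_lit 20746044665, nat_lit 20635247379, nat_lit 19406806639], nat_lit 1271250, nat_lit 1271250, nat_lit 356250, nat_lit 490000, nat_lit 0, nat_lit 0, [nat_lit 780000, nat_lit 1100000, nat_lit 2127500], [nat_lit 42, nat_lit 40, nat_lit 80, nat_lit 80, nat_lit 13, nat_lit 226, nat_lit 20, nat_lit 7]⟩, ⟨p015_k20, nat_lit 0, nat_lit 0, nat_lit 614, nat_lit 0, nat_lit 773026, [nat_lit 3131584000, nat_lit 4175000000, nat_lit 6574456000], [], [nat_lit 17793772532, nat_lit 18374874587, nat_lit 17429161255, nat_lit 17612063520], nat_lit 1271250, nat_lit 1271250, nat_lit 356250, nat_lit 490000, nat_lit 0, nat_lit 0, [nat_lit 1100000, nat_lit 1442500, nat_lit 1271250], [nat_lit 11, nat_lit 40, nat_lit 80, nat_lit 80, nat_lit 1, nat_lit 317,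 nat_lit 100, nat_lit 9]⟩,
 ⟨nat_lit 5000, nat_lit 5478, ⟨.ofNat (nat_lit 301804), .ofNat (nat_lit 339271), .ofNat (nat_lit 323161), .ofNat (nat_lit 360625), .ofNat (nat_lit 314284), .ofNat (nat_lit 349999), .ofNat (nat_lit 335713), .ofNat (nat_lit 371424)⟩, ⟨.ofNat (nat_lit 0), .ofNat (nat_lit 0), .ofNat (nat_lit 0), .ofNat (nat_lit 0), .ofNat (nat_lit 0), .ofNat (nat_lit 0), .ofNat (nat_lit 0), .ofNat (nat_lit 0)⟩⟩, [⟨nat_lit 0, nat_lit 100, nat_lit 95, nat_lit 78, nat_lit 440249169⟩]⟩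
noncomputable def p015_l148 : Lf2 := ⟨nat_lit 0, nat_lit 10, [nat_lit 0, nat_lit 5, nat_lit 5, nat_lit 20], false, nat_lit 0, nat_lit 0, nat_lit 0, nat_lit 0, ⟨nat_lit 458, nat_lit 0, nat_lit 542, nat_lit 6, nat_lit 141, nat_lit 0, nat_lit 0, nat_lit 0, nat_lit 0, nat_lit 215, nat_lit 187267, nat_lit 321, nat_lit 59607601, nat_lit 0, nat_lit 0, nat_lit 1736066, false, false⟩,
 nat_lit 7557, nat_lit 0, nat_lit 0, nat_lit 0, nat_lit 5231, nat_lit 4398, nat_lit 563, nat_lit 0, nat_lit 0, nat_lit 408, nat_lit 0, nat_lit 0, nat_lit 0, nat_lit 0, nat_lit 0, nat_lit 223400, nat_lit 0, nat_lit 0, [(nat_lit 15, [(nat_lit 5, nat_lit 531), (nat_lit 6, nat_lit 11)])],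
 ⟨p015_k14, nat_lit 0, nat_lit 0, nat_lit 512, nat_lit 0, nat_lit 721280, [nat_lit 2212307200, nat_lit 2311364401, nat_lit 2406045733], [], [nat_lit 18245941967, nat_lit 20830084361, nat_lit 17468951432, nat_lit 19665959944], nat_lit 1271250, nat_lit 1271250, nat_lit 382400, nat_lit 490000, nat_lit 0, nat_lit 0, [nat_lit 780000, nat_lit 1100000, nat_lit 1785000], [nat_lit 36, nat_lit 40, nat_lit 80, nat_lit 80, nat_lit 7, nat_lit 226, nat_lit 20, nat_lit 8]⟩, ⟨p015_k20, nat_lit 0, nat_lit 0, nat_lit 648, nat_lit 0, nat_lit 872294, [nat_lit 2147104000, nat_lit 2862500000, nat_lit 4507636000], [], [nat_lit 11869678607, nat_lit 12821259389, nat_lit 11463032844, nat_lit 12064401016], nat_lit 1271250, nat_lit 1271250, nat_lit 382400, nat_lit 490000, nat_lit 0, nat_lit 0, [nat_lit 1100000, nat_lit 1442500, nat_lit 1271250], [nat_lit 11, nat_lit 40, nat_lit 80, nat_lit 80, nat_lit 1, nat_lit 317,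 nat_lit 100, nat_lit 9]⟩,
 ⟨nat_lit 4472, nat_lit 5000, ⟨.ofNat (nat_lit 321407), .ofNat (nat_lit 349976), .ofNat (nat_lit 342823), .ofNat (nat_lit 371392), .ofNat (nat_lit 333552), .ofNat (nat_lit 360741), .ofNat (nat_lit 355106), .ofNat (nat_lit 382295)⟩, ⟨.ofNat (nat_lit 0), .ofNat (nat_lit 0), .ofNat (nat_lit 0), .ofNat (nat_lit 0), .ofNat (nat_lit 0), .ofNat (nat_lit 0), .ofNat (nat_lit 0), .ofNat (nat_lit 0)⟩⟩, [⟨nat_lit 0, nat_lit 100, nat_lit 89, nat_lit 86, nat_lit 457740575⟩, ⟨nat_lit 0, nat_lit 100, nat_lit 91, nat_lit 77, nat_lit 342492322⟩]⟩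
noncomputable def p015_l149 : Lf2 := ⟨nat_lit 0, nat_lit 10, [nat_lit 0, nat_lit 5, nat_lit 5, nat_lit 20], false, nat_lit 0, nat_lit 0, nat_lit 0, nat_lit 0, ⟨nat_lit 233, nat_lit 0, nat_lit 767, nat_lit 6, nat_lit 148, nat_lit 0, nat_lit 0, nat_lit 0, nat_lit 0, nat_lit 215, nat_lit 205350, nat_lit 326, nat_lit 58911942, nat_lit 0, nat_lit 0, nat_lit 1841756, false, false⟩,
 nat_lit 6215, nat_lit 688, nat_lit 0, nat_lit 0, nat_lit 4392, nat_lit 3290, nat_lit 0, nat_lit 0, nat_lit 0, nat_lit 359, nat_lit 0, nat_lit 0, nat_lit 0, nat_lit 0, nat_lit 80, nat_lit 767000, nat_lit 0, nat_lit 0, [(nat_lit 12, [(nat_lit 6, nat_lit 767)])],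
 ⟨p015_k0, nat_lit 0, nat_lit 0, nat_lit 514, nat_lit 0, nat_lit 633650, [nat_lit 2600006401, nat_lit 2191380801, nat_lit 396908400], [], [nat_lit 17072798149, nat_lit 17865393168, nat_lit 18714722821, nat_lit 18096044232], nat_lit 1271250, nat_lit 1271250, nat_lit 490000, nat_lit 780000, nat_lit 0, nat_lit 0, [nat_lit 780000, nat_lit 1435000, nat_lit 1271250], [nat_lit 8, nat_lit 40, nat_lit 80, nat_lit 80, nat_lit 1, nat_lit 238, nat_lit 30, nat_lit 7]⟩, ⟨p015_k1, nat_lit 0, nat_lit 0, nat_lit 686, nat_lit 0, nat_lit 776540, [nat_lit 1092304000, nat_lit 1856544000, nat_lit 2766176000], [], [nat_lit 7764532716, nat_lit 6383230520, nat_lit 8686081376, nat_lit 7114178596], nat_lit 1271250, nat_lit 1271250, nat_lit 490000, nat_lit 780000, nat_lit 0, nat_lit 0, [nat_lit 1100000, nat_lit 1785000, nat_lit 1271250], [nat_lit 21, nat_lit 40, nat_lit 80, nat_lit 80, nat_lit 14, nat_lit 317, nat_lit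 100, nat_lit 8]⟩,
 ⟨nat_lit 5000, nat_lit 5478, ⟨.ofNat (nat_lit 317913), .ofNat (nat_lit 392847), .ofNat (nat_lit 339271), .ofNat (nat_lit 414199), .ofNat (nat_lit 328570), .ofNat (nat_lit 399998), .ofNat (nat_lit 349999), .ofNat (nat_lit 421423)⟩, ⟨.ofNat (nat_lit 0), .ofNat (nat_lit 0), .ofNat (nat_lit 0), .ofNat (nat_lit 0), .ofNat (nat_lit 0), .ofNat (nat_lit 0), .ofNat (nat_lit 0), .ofNat (nat_lit 0)⟩⟩, []⟩
noncomputable def p015_l150 : Lf2 := ⟨nat_lit 0, nat_lit 10, [nat_lit 0, nat_lit 5, nat_lit 5, nat_lit 20], false, nat_lit 0, nat_lit 0, nat_lit 0, nat_lit 0, ⟨nat_lit 263, nat_lit 0, nat_lit 737, nat_lit 6, nat_lit 152, nat_lit 0, nat_lit 0, nat_lit 0, nat_lit 0, nat_lit 215, nat_lit 216600, nat_lit 329, nat_lit 58566752, nat_lit 0, nat_lit 0, nat_lit 1892290, false, false⟩,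
 nat_lit 5971, nat_lit 0, nat_lit 0, nat_lit 0, nat_lit 4133, nat_lit 3161, nat_lit 0, nat_lit 0, nat_lit 0, nat_lit 216, nat_lit 0, nat_lit 0, nat_lit 0, nat_lit 0, nat_lit 75, nat_lit 737000, nat_lit 0, nat_lit 0, [(nat_lit 15, [(nat_lit 6, nat_lit 737)])],
 ⟨p015_k8, nat_lit 0, nat_lit 0, nat_lit 482, nat_lit 0, nat_lit 666845, [nat_lit 2485426000, nat_lit 1452187601, nat_lit 22796400], [], [nat_lit 16791079668, nat_lit 17864690769, nat_lit 17236745334, nat_lit 18298953751], nat_lit 1271250, nat_lit 1271250, nat_lit 490000, nat_lit 780000, nat_lit 0, nat_lit 0, [nat_lit 780000, nat_lit 1435000, nat_lit 1271250], [nat_lit 18, nat_lit 40, nat_lit 80, nat_lit 80, nat_lit 2, nat_lit 238, nat_lit 30, nat_lit 8]⟩, ⟨p015_k1, nat_lit 0, nat_lit 0, nat_lit 732, nat_lit 0, nat_lit 895981, [nat_lit 1232944000, nat_lit 2095584000, nat_lit 3122336000], [], [nat_lit 9198855384, nat_lit 8139350296, nat_lit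 10129667978, nat_lit 8619399076], nat_lit 1271250, nat_lit 1271250, nat_lit 490000, nat_lit 780000, nat_lit 0, nat_lit 0, [nat_lit 1100000, nat_lit 1785000, nat_lit 1271250], [nat_lit 21, nat_lit 40, nat_lit 80, nat_lit 80, nat_lit 14, nat_lit 317, nat_lit 100, nat_lit 8]⟩,
 ⟨nat_lit 4472, nat_lit 5000, ⟨.ofNat (nat_lit 328559), .ofNat (nat_lit 399984), .ofNat (nat_lit 349976), .ofNat (nat_lit 421400), .ofNat (nat_lit 339186), .ofNat (nat_lit 407160), .ofNat (nat_lit 360741), .ofNat (nat_lit 428715)⟩, ⟨.ofNat (nat_lit 0), .ofNat (nat_lit 0), .ofNat (nat_lit 0), .ofNat (nat_lit 0), .ofNat (nat_lit 0), .ofNat (nat_lit 0), .ofNat (nat_lit 0), .ofNat (nat_lit 0)⟩⟩, []⟩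
noncomputable def p015_l151 : Lf2 := ⟨nat_lit 0, nat_lit 10, [nat_lit 0, nat_lit 5, nat_lit 5, nat_lit 20], false, nat_lit 0, nat_lit 0, nat_lit 0, nat_lit 0, ⟨nat_lit 398, nat_lit 0, nat_lit 602, nat_lit 6, nat_lit 159, nat_lit 0, nat_lit 0, nat_lit 0, nat_lit 0, nat_lit 215, nat_lit 236017, nat_lit 334, nat_lit 57901720, nat_lit 0, nat_lit 0, nat_lit 1986281, false, false⟩,
 nat_lit 8064, nat_lit 0, nat_lit 0, nat_lit 0, nat_lit 5131, nat_lit 4693, nat_lit 134, nat_lit 0, nat_lit 0, nat_lit 766, nat_lit 0, nat_lit 0, nat_lit 0, nat_lit 0, nat_lit 0, nat_lit 602000, nat_lit 0, nat_lit 0, [(nat_lit 12, [(nat_lit 6, nat_lit 602)]), (nat_lit 15, [(nat_lit 6, nat_lit 602)])],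
 ⟨p015_k0, nat_lit 0, nat_lit 0, nat_lit 606, nat_lit 0, nat_lit 790795, [nat_lit 1993238401, nat_lit 1808684801, nat_lit 753726400], [], [nat_lit 20204423351, nat_lit 21632158378, nat_lit 20249655466, nat_lit 21662823706], nat_lit 1271250, nat_lit 1271250, nat_lit 490000, nat_lit 780000, nat_lit 0, nat_lit 0, [nat_lit 780000, nat_lit 1435000, nat_lit 1271250], [nat_lit 8, nat_lit 40, nat_lit 80, nat_lit 80, nat_lit 1, nat_lit 238, nat_lit 30, nat_lit 7]⟩, ⟨p015_k5, nat_lit 0, nat_lit 0, nat_lit 646, nat_lit 0, nat_lit 872294, [nat_lit 1865824000, nat_lit 3171264000, nat_lit 3917116000], [], [nat_lit 9191035446, nat_lit 8440325800, nat_lit 10612574736, nat_lit 8370343810], nat_lit 1271250, nat_lit 1271250, nat_lit 490000, nat_lit 780000, nat_lit 0, nat_lit 0, [nat_lit 1100000, nat_lit 1785000, nat_lit 1271250], [nat_lit 29, nat_lit 40, nat_lit 80, nat_lit 80, nat_lit 17, nat_lit 317, nat_lit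 100, nat_lit 9]⟩,
 ⟨nat_lit 4472, nat_lit 5478, ⟨.ofNat (nat_lit 339222), .ofNat (nat_lit 414138), .ofNat (nat_lit 360546), .ofNat (nat_lit 435455), .ofNat (nat_lit 360715), .ofNat (nat_lit 428676), .ofNat (nat_lit 382248), .ofNat (nat_lit 450202)⟩, ⟨.ofNat (nat_lit 0), .ofNat (nat_lit 0), .ofNat (nat_lit 0), .ofNat (nat_lit 0), .ofNat (nat_lit 0), .ofNat (nat_lit 0), .ofNat (nat_lit 0), .ofNat (nat_lit 0)⟩⟩, [⟨nat_lit 0, nat_lit 100, nat_lit 87, nat_lit 95, nat_lit 125299722⟩]⟩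
noncomputable def p015_l152 : Lf2 := ⟨nat_lit 0, nat_lit 10, [nat_lit 0, nat_lit 5, nat_lit 5, nat_lit 20], false, nat_lit 0, nat_lit 0, nat_lit 0, nat_lit 0, ⟨nat_lit 317, nat_lit 0, nat_lit 683, nat_lit 6, nat_lit 211, nat_lit 0, nat_lit 0, nat_lit 0, nat_lit 0, nat_lit 215, nat_lit 49368, nat_lit 200, nat_lit 52412441, nat_lit 0, nat_lit 0, nat_lit 2620064, false, false⟩,
 nat_lit 7074, nat_lit 939, nat_lit 0, nat_lit 0, nat_lit 5099, nat_lit 3745, nat_lit 227, nat_lit 0, nat_lit 0, nat_lit 409, nat_lit 0, nat_lit 0, nat_lit 0, nat_lit 0, nat_lit 34, nat_lit 683000, nat_lit 0, nat_lit 0, [(nat_lit 12, [(nat_lit 6, nat_lit 683)])],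
 ⟨p015_k0, nat_lit 0, nat_lit 0, nat_lit 532, nat_lit 0, nat_lit 700802, [nat_lit 2227833601, nat_lit 1891099200, nat_lit 388631600], [], [nat_lit 17399392625, nat_lit 18193560005, nat_lit 21058679359, nat_lit 21174194718], nat_lit 1271250, nat_lit 1271250, nat_lit 780000, nat_lit 1762500, nat_lit 0, nat_lit 0, [nat_lit 780000, nat_lit 1435000, nat_lit 1271250], [nat_lit 8, nat_lit 40, nat_lit 80, nat_lit 80, nat_lit 1, nat_lit 272, nat_lit 60, nat_lit 8]⟩, ⟨p015_k1, nat_lit 0, nat_lit 0, nat_lit 699, nat_lit 0, nat_lit 858834, [nat_lit 1486096000, nat_lit 2525856000, nat_lit 3763424000], [], [nat_lit 12128299184, nat_lit 9086444268, nat_lit 12455418064, nat_lit 9500026276], nat_lit 1271250, nat_lit 1271250, nat_lit 780000, nat_lit 1762500, nat_lit 0, nat_lit 0, [nat_lit 1100000, nat_lit 1785000, nat_lit 1271250], [nat_lit 21, nat_lit 40, nat_lit 80, nat_lit 80, nat_lit 14, nat_lit 373, nat_lit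 150, nat_lit 10]⟩,
 ⟨nat_lit 5000, nat_lit 5478, ⟨.ofNat (nat_lit 392847), .ofNat (nat_lit 617614), .ofNat (nat_lit 435548), .ofNat (nat_lit 660309), .ofNat (nat_lit 399998), .ofNat (nat_lit 614253), .ofNat (nat_lit 442843), .ofNat (nat_lit 657090)⟩, ⟨.ofNat (nat_lit 0), .ofNat (nat_lit 0), .ofNat (nat_lit 0), .ofNat (nat_lit 0), .ofNat (nat_lit 0), .ofNat (nat_lit 0), .ofNat (nat_lit 0), .ofNat (nat_lit 0)⟩⟩, []⟩
noncomputable def p015_l153 : Lf2 := ⟨nat_lit 0, nat_lit 10, [nat_lit 0, nat_lit 5, nat_lit 5, nat_lit 20], false, nat_lit 0, nat_lit 0, nat_lit 0, nat_lit 0, ⟨nat_lit 285, nat_lit 0, nat_lit 715, nat_lit 6, nat_lit 212, nat_lit 0, nat_lit 0, nat_lit 0, nat_lit 0, nat_lit 215, nat_lit 42926, nat_lit 200, nat_lit 52324053, nat_lit 0, nat_lit 0, nat_lit 2628475, false, false⟩,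
 nat_lit 6203, nat_lit 0, nat_lit 0, nat_lit 0, nat_lit 4294, nat_lit 3283, nat_lit 0, nat_lit 0, nat_lit 0, nat_lit 317, nat_lit 0, nat_lit 0, nat_lit 0, nat_lit 0, nat_lit 54, nat_lit 676600, nat_lit 0, nat_lit 0, [(nat_lit 15, [(nat_lit 5, nat_lit 64), (nat_lit 6, nat_lit 651)])],
 ⟨p015_k8, nat_lit 0, nat_lit 0, nat_lit 488, nat_lit 0, nat_lit 721280, [nat_lit 2305522800, nat_lit 1305404401, nat_lit 3054800], [], [nat_lit 17403842492, nat_lit 18357027374, nat_lit 20161921708, nat_lit 21893625120], nat_lit 1271250, nat_lit 1271250, nat_lit 780000, nat_lit 1762500, nat_lit 0, nat_lit 0, [nat_lit 780000, nat_lit 1435000, nat_lit 1271250], [nat_lit 18, nat_lit 40, nat_lit 80, nat_lit 80, nat_lit 2, nat_lit 272, nat_lit 60, nat_lit 9]⟩, ⟨p015_k1, nat_lit 0, nat_lit 0, nat_lit 742, nat_lit 0, nat_lit 969121, [nat_lit 1336080000, nat_lit 2270880000, nat_lit 3383520000], [], [nat_lit 10864169112,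 nat_lit 8476942410, nat_lit 11213552468, nat_lit 8845550004], nat_lit 1271250, nat_lit 1271250, nat_lit 780000, nat_lit 1762500, nat_lit 0, nat_lit 0, [nat_lit 1100000, nat_lit 1785000, nat_lit 1271250], [nat_lit 21, nat_lit 40, nat_lit 80, nat_lit 80, nat_lit 14, nat_lit 373, nat_lit 150, nat_lit 10]⟩,
 ⟨nat_lit 4472, nat_lit 5000, ⟨.ofNat (nat_lit 399984), .ofNat (nat_lit 614256), .ofNat (nat_lit 442816), .ofNat (nat_lit 657088), .ofNat (nat_lit 407160), .ofNat (nat_lit 611081), .ofNat (nat_lit 450269), .ofNat (nat_lit 654189)⟩, ⟨.ofNat (nat_lit 0), .ofNat (nat_lit 0), .ofNat (nat_lit 0), .ofNat (nat_lit 0), .ofNat (nat_lit 0), .ofNat (nat_lit 0), .ofNat (nat_lit 0), .ofNat (nat_lit 0)⟩⟩, []⟩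
noncomputable def p015_l154 : Lf2 := ⟨nat_lit 0, nat_lit 10, [nat_lit 0, nat_lit 5, nat_lit 5, nat_lit 20], false, nat_lit 0, nat_lit 0, nat_lit 0, nat_lit 0, ⟨nat_lit 1000, nat_lit 0, nat_lit 0, nat_lit 0, nat_lit 0, nat_lit 0, nat_lit 0, nat_lit 0, nat_lit 0, nat_lit 0, nat_lit 0, nat_lit 0, nat_lit 0, nat_lit 0, nat_lit 0, nat_lit 0, false, false⟩,
 nat_lit 16558, nat_lit 0, nat_lit 0, nat_lit 0, nat_lit 7309, nat_lit 8765, nat_lit 959, nat_lit 0, nat_lit 0, nat_lit 903, nat_lit 0, nat_lit 0, nat_lit 0, nat_lit 0, nat_lit 0, nat_lit 0, nat_lit 0, nat_lit 0, [],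
 ⟨p015_k0, nat_lit 0, nat_lit 0, nat_lit 460, nat_lit 0, nat_lit 587667, [nat_lit 3282000000, nat_lit 6250000000, nat_lit 9842000000], [], [nat_lit 29536734159, nat_lit 29986097706, nat_lit 39143758344, nat_lit 39788500409], nat_lit 1271250, nat_lit 1271250, nat_lit 1271250, nat_lit 1271250, nat_lit 0, nat_lit 0, [nat_lit 780000, nat_lit 1435000, nat_lit 1271250], [nat_lit 8, nat_lit 40, nat_lit 80, nat_lit 80, nat_lit 1, nat_lit 317, nat_lit 100, nat_lit 9]⟩, ⟨p015_k1, nat_lit 0, nat_lit 0, nat_lit 573, nat_lit 0, nat_lit 720187, [nat_lit 4688000000, nat_lit 7968000000, nat_lit 11872000000], [], [nat_lit 36460419400, nat_lit 36915967910, nat_lit 41695586060, nat_lit 41862203490], nat_lit 1271250, nat_lit 1271250, nat_lit 1271250, nat_lit 1271250, nat_lit 0, nat_lit 0, [nat_lit 1100000, nat_lit 1785000, nat_lit 1271250], [nat_lit 21, nat_lit 40, nat_lit 80, nat_lit 80, nat_lit 14, nat_lit 401,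 nat_lit 175, nat_lit 10]⟩,
 zbF0, []⟩
noncomputable def p015_l155 : Lf2 := ⟨nat_lit 0, nat_lit 10, [nat_lit 0, nat_lit 5, nat_lit 5, nat_lit 20], false, nat_lit 0, nat_lit 0, nat_lit 0, nat_lit 0, ⟨nat_lit 1000, nat_lit 0, nat_lit 0, nat_lit 0, nat_lit 0, nat_lit 0, nat_lit 0, nat_lit 0, nat_lit 0, nat_lit 0, nat_lit 0, nat_lit 0, nat_lit 0, nat_lit 0, nat_lit 0, nat_lit 0, false, false⟩,
 nat_lit 16493, nat_lit 0, nat_lit 0, nat_lit 0, nat_lit 6280, nat_lit 8731, nat_lit 1883, nat_lit 0, nat_lit 0, nat_lit 882, nat_lit 0, nat_lit 0, nat_lit 0, nat_lit 0, nat_lit 0, nat_lit 0, nat_lit 0, nat_lit 0, [],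
 ⟨p015_k9, nat_lit 0, nat_lit 0, nat_lit 418, nat_lit 0, nat_lit 604736, [nat_lit 3282000000, nat_lit 6250000000, nat_lit 7968000000], [], [nat_lit 27607285450, nat_lit 28005687770, nat_lit 37049404280, nat_lit 37647548080], nat_lit 1271250, nat_lit 1271250, nat_lit 1271250, nat_lit 1271250, nat_lit 0, nat_lit 0, [nat_lit 780000, nat_lit 1435000, nat_lit 1271250], [nat_lit 18, nat_lit 40, nat_lit 80, nat_lit 80, nat_lit 2, nat_lit 203, nat_lit 0, nat_lit 6]⟩, ⟨p015_k1, nat_lit 0, nat_lit 0, nat_lit 594, nat_lit 0, nat_lit 776540, [nat_lit 4688000000, nat_lit 7968000000, nat_lit 11872000000], [], [nat_lit 36704370220, nat_lit 37023146314, nat_lit 41796042324, nat_lit 41963460046], nat_lit 1271250, nat_lit 1271250, nat_lit 1271250, nat_lit 1271250, nat_lit 0, nat_lit 0, [nat_lit 1100000, nat_lit 1785000, nat_lit 1271250], [nat_lit 21, nat_lit 40, nat_lit 80, nat_lit 80, nat_lit 14, nat_lit 401,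 nat_lit 175, nat_lit 10]⟩,
 zbF0, []⟩
noncomputable def p015_l156 : Lf2 := ⟨nat_lit 0, nat_lit 10, [nat_lit 0, nat_lit 5, nat_lit 5, nat_lit 20], false, nat_lit 0, nat_lit 0, nat_lit 0, nat_lit 0, ⟨nat_lit 1000, nat_lit 0, nat_lit 0, nat_lit 0, nat_lit 0, nat_lit 0, nat_lit 0, nat_lit 0, nat_lit 0, nat_lit 0, nat_lit 0, nat_lit 0, nat_lit 0, nat_lit 0, nat_lit 0, nat_lit 0, false, false⟩,
 nat_lit 12204, nat_lit 0, nat_lit 0, nat_lit 0, nat_lit 7766, nat_lit 7103, nat_lit 772, nat_lit 0, nat_lit 0, nat_lit 1159, nat_lit 0, nat_lit 0, nat_lit 0, nat_lit 0, nat_lit 0, nat_lit 0, nat_lit 0, nat_lit 0, [],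
 ⟨p015_k0, nat_lit 0, nat_lit 0, nat_lit 497, nat_lit 0, nat_lit 700802, [nat_lit 3282000000, nat_lit 6250000000, nat_lit 9842000000], [], [nat_lit 31644769516, nat_lit 32343012100, nat_lit 40339551856, nat_lit 41670426476], nat_lit 1271250, nat_lit 1271250, nat_lit 1271250, nat_lit 1271250, nat_lit 0, nat_lit 0, [nat_lit 780000, nat_lit 1435000, nat_lit 1271250], [nat_lit 8, nat_lit 40, nat_lit 80, nat_lit 80, nat_lit 1, nat_lit 317, nat_lit 100, nat_lit 9]⟩, ⟨p015_k5, nat_lit 0, nat_lit 0, nat_lit 535, nat_lit 0, nat_lit 773026, [nat_lit 4688000000, nat_lit 7968000000, nat_lit 9842000000], [], [nat_lit 33237782640, nat_lit 33681106208, nat_lit 38267317422, nat_lit 38610125500], nat_lit 1271250, nat_lit 1271250, nat_lit 1271250, nat_lit 1271250, nat_lit 0, nat_lit 0, [nat_lit 1100000, nat_lit 1785000, nat_lit 1271250], [nat_lit 29, nat_lit 40, nat_lit 80, nat_lit 80, nat_lit 17, nat_lit 401,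 nat_lit 175, nat_lit 11]⟩,
 zbF0, []⟩
noncomputable def p015_l157 : Lf2 := ⟨nat_lit 0, nat_lit 10, [nat_lit 0, nat_lit 5, nat_lit 5, nat_lit 20], false, nat_lit 0, nat_lit 0, nat_lit 0, nat_lit 0, ⟨nat_lit 1000, nat_lit 0, nat_lit 0, nat_lit 0, nat_lit 0, nat_lit 0, nat_lit 0, nat_lit 0, nat_lit 0, nat_lit 0, nat_lit 0, nat_lit 0, nat_lit 0, nat_lit 0, nat_lit 0, nat_lit 0, false, false⟩,
 nat_lit 15048, nat_lit 0, nat_lit 0, nat_lit 0, nat_lit 5596, nat_lit 7966, nat_lit 1641, nat_lit 0, nat_lit 0, nat_lit 858, nat_lit 0, nat_lit 0, nat_lit 0, nat_lit 0, nat_lit 0, nat_lit 0, nat_lit 0, nat_lit 0, [],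
 ⟨p015_k8, nat_lit 0, nat_lit 0, nat_lit 443, nat_lit 0, nat_lit 679472, [nat_lit 3282000000, nat_lit 6250000000, nat_lit 7968000000], [], [nat_lit 26422221089, nat_lit 26803168413, nat_lit 35795832856, nat_lit 36363001716], nat_lit 1271250, nat_lit 1271250, nat_lit 1271250, nat_lit 1271250, nat_lit 0, nat_lit 0, [nat_lit 780000, nat_lit 1435000, nat_lit 1271250], [nat_lit 18, nat_lit 40, nat_lit 80, nat_lit 80, nat_lit 2, nat_lit 203, nat_lit 0, nat_lit 6]⟩, ⟨p015_k1, nat_lit 0, nat_lit 0, nat_lit 678, nat_lit 0, nat_lit 912947, [nat_lit 4688000000, nat_lit 7968000000, nat_lit 11872000000], [], [nat_lit 39242945920, nat_lit 39889414568, nat_lit 44056308264, nat_lit 44427156848], nat_lit 1271250, nat_lit 1271250, nat_lit 1271250, nat_lit 1271250, nat_lit 0, nat_lit 0, [nat_lit 1100000, nat_lit 1785000, nat_lit 1271250], [nat_lit 21, nat_lit 40, nat_lit 80, nat_lit 80, nat_lit 14, nat_lit 401,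 nat_lit 175, nat_lit 10]⟩,
 zbF0, []⟩
noncomputable def p015_l158 : Lf2 := ⟨nat_lit 0, nat_lit 10, [nat_lit 0, nat_lit 5, nat_lit 5, nat_lit 20], false, nat_lit 0, nat_lit 0, nat_lit 0, nat_lit 0, ⟨nat_lit 859, nat_lit 141, nat_lit 0, nat_lit 6, nat_lit 308, nat_lit 0, nat_lit 0, nat_lit 0, nat_lit 0, nat_lit 0, nat_lit 0, nat_lit 0, nat_lit 42017476, nat_lit 24982524, nat_lit 0, nat_lit 3302335, true, true⟩,
 nat_lit 12141, nat_lit 0, nat_lit 0, nat_lit 0, nat_lit 5230, nat_lit 6427, nat_lit 1284, nat_lit 0, nat_lit 0, nat_lit 646, nat_lit 0, nat_lit 0, nat_lit 0, nat_lit 0, nat_lit 0, nat_lit 56400, nat_lit 0, nat_lit 0, [(nat_lit 15, [(nat_lit 1, nat_lit 141)])],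
 ⟨p015_k83, nat_lit 0, nat_lit 0, nat_lit 447, nat_lit 0, nat_lit 690227, [nat_lit 3104086201, nat_lit 5700786200, nat_lit 7171068000], [], [nat_lit 26294858915, nat_lit 26721649025, nat_lit 35355597330, nat_lit 35906191880], nat_lit 1271250, nat_lit 1271250, nat_lit 1271250, nat_lit 1271250, nat_lit 0, nat_lit 0, [nat_lit 780000, nat_lit 1435000, nat_lit 1271250], [nat_lit 18, nat_lit 40, nat_lit 80, nat_lit 80, nat_lit 2, nat_lit 203, nat_lit 0, nat_lit 6]⟩, ⟨p015_k1, nat_lit 0, nat_lit 0, nat_lit 699, nat_lit 0, nat_lit 969121, [nat_lit 4026992000, nat_lit 6844512000, nat_lit 10198048000], [], [nat_lit 35862114028, nat_lit 36177809164, nat_lit 39072872088, nat_lit 39411004940], nat_lit 1271250, nat_lit 1271250, nat_lit 1271250, nat_lit 1271250, nat_lit 0, nat_lit 0, [nat_lit 1100000, nat_lit 1785000, nat_lit 1271250], [nat_lit 21, nat_lit 40, nat_lit 80, nat_lit 80, nat_lit 14, nat_lit 401,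 nat_lit 175, nat_lit 10]⟩,
 ⟨nat_lit 4472, nat_lit 4744, ⟨.ofNat (nat_lit 612668), .ofNat (nat_lit 891465), .ofNat (nat_lit 655638), .ofNat (nat_lit 934435), .ofNat (nat_lit 611103), .ofNat (nat_lit 883014), .ofNat (nat_lit 654230), .ofNat (nat_lit 926140)⟩, ⟨.ofNat (nat_lit 0), .ofNat (nat_lit 0), .ofNat (nat_lit 0), .ofNat (nat_lit 0), .ofNat (nat_lit 0), .ofNat (nat_lit 0), .ofNat (nat_lit 0), .ofNat (nat_lit 0)⟩⟩, []⟩
noncomputable def b_N_700_600_0_9 : St := ⟨false, nat_lit 1, nat_lit 1, nat_lit 1, nat_lit 40, nat_lit 280, nat_lit 320, nat_lit 240, nat_lit 280, nat_lit 36, nat_lit 400, nat_lit 0, nat_lit 0, nat_lit 0, nat_lit 0, nat_lit 0, nat_lit 0, nat_lit 0, nat_lit 40, nat_lit 0, nat_lit 0, nat_lit 0, nat_lit 0⟩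
theorem d_N_700_600_0_9 (h : EB TB.env) : Dead b_N_700_600_0_9 := chkB_sound0 h (T :=
(.spl (nat_lit 2) (nat_lit 240)
(.spl (nat_lit 2) (nat_lit 120)
(.spl (nat_lit 2) (nat_lit 80)
(.spl (nat_lit 1) (nat_lit 260)
(.spl (nat_lit 0) (nat_lit 300)
(.spl (nat_lit 6) (nat_lit 20)
(.spl (nat_lit 2) (nat_lit 60)
(.leaf p015_l141)
(.leaf p015_l142))
(.spl (nat_lit 1) (nat_lit 250)
(.leaf p015_l143)
(.trZ (nat_lit 0) (nat_lit 100) (nat_lit 95) (nat_lit 64) (nat_lit 40) (.leaf p015_l144))))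
(.trZ (nat_lit 0) (nat_lit 100) (nat_lit 88) (nat_lit 68) (nat_lit 48) (.leaf p015_l145)))
(.trZ (nat_lit 0) (nat_lit 100) (nat_lit 96) (nat_lit 69) (nat_lit 48) (.spl (nat_lit 2) (nat_lit 60)
(.leaf p015_l146)
(.spl (nat_lit 0) (nat_lit 300)
(.leaf p015_l147)
(.trZ (nat_lit 0) (nat_lit 100) (nat_lit 91) (nat_lit 77) (nat_lit 64) (.leaf p015_l148))))))
(.spl (nat_lit 1) (nat_lit 260)
(.spl (nat_lit 0) (nat_lit 300)
(.leaf p015_l149)
(.leaf p015_l150))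
(.leaf p015_l151)))
(.spl (nat_lit 0) (nat_lit 300)
(.leaf p015_l152)
(.leaf p015_l153)))
(.spl (nat_lit 0) (nat_lit 300)
(.spl (nat_lit 1) (nat_lit 260)
(.spl (nat_lit 0) (nat_lit 290)
(.leaf p015_l154)
(.leaf p015_l155))
(.leaf p015_l156))
(.spl (nat_lit 0) (nat_lit 310)
(.leaf p015_l157)
(.leaf p015_l158))))) (by decide +kernel)
noncomputable def p015_l159 : Lf2 := ⟨nat_lit 0, nat_lit 5, [nat_lit 4, nat_lit 5, nat_lit 5, nat_lit 20], true, nat_lit 0, nat_lit 0, nat_lit 0, nat_lit 0, ⟨nat_lit 0, nat_lit 1000, nat_lit 0, nat_lit 6, nat_lit 116, nat_lit 0, nat_lit 0, nat_lit 0, nat_lit 0, nat_lit 0, nat_lit 0, nat_lit 0, nat_lit 0, nat_lit 0, nat_lit 0, nat_lit 5000000, false, false⟩,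
 nat_lit 0, nat_lit 8473, nat_lit 0, nat_lit 0, nat_lit 5391, nat_lit 0, nat_lit 0, nat_lit 0, nat_lit 0, nat_lit 0, nat_lit 0, nat_lit 0, nat_lit 0, nat_lit 0, nat_lit 0, nat_lit 1000000, nat_lit 0, nat_lit 0, [(nat_lit 12, [(nat_lit 2, nat_lit 1000)])],
 ⟨p015_k10, nat_lit 0, nat_lit 0, nat_lit 444, nat_lit 0, nat_lit 544297, [nat_lit 2335200001, nat_lit 1946400000, nat_lit 508400000], [], [nat_lit 19422193254, nat_lit 19994913697, nat_lit 18302660221, nat_lit 18854514228], nat_lit 1271250, nat_lit 1271250, nat_lit 205650, nat_lit 490000, nat_lit 0, nat_lit 0, [nat_lit 780000, nat_lit 1435000, nat_lit 1271250], [nat_lit 18, nat_lit 40, nat_lit 80, nat_lit 80, nat_lit 2, nat_lit 226, nat_lit 20, nat_lit 8]⟩, C1.Rw.none,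
 ⟨nat_lit 5244, nat_lit 5478, ⟨.ofNat (nat_lit 235487), .ofNat (nat_lit 317913), .ofNat (nat_lit 256844), .ofNat (nat_lit 339271), .ofNat (nat_lit 242768), .ofNat (nat_lit 323256), .ofNat (nat_lit 264153), .ofNat (nat_lit 344641)⟩, ⟨.ofNat (nat_lit 0), .ofNat (nat_lit 0), .ofNat (nat_lit 0), .ofNat (nat_lit 0), .ofNat (nat_lit 0), .ofNat (nat_lit 0), .ofNat (nat_lit 0), .ofNat (nat_lit 0)⟩⟩, [⟨nat_lit 0, nat_lit 100, nat_lit 94, nat_lit 73, nat_lit 20315043⟩]⟩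
noncomputable def p015_l160 : Lf2 := ⟨nat_lit 0, nat_lit 5, [nat_lit 4, nat_lit 5, nat_lit 5, nat_lit 20], false, nat_lit 0, nat_lit 0, nat_lit 0, nat_lit 0, ⟨nat_lit 1000, nat_lit 0, nat_lit 0, nat_lit 0, nat_lit 0, nat_lit 0, nat_lit 0, nat_lit 0, nat_lit 0, nat_lit 0, nat_lit 0, nat_lit 0, nat_lit 0, nat_lit 0, nat_lit 0, nat_lit 0, false, false⟩,
 nat_lit 0, nat_lit 13611, nat_lit 0, nat_lit 0, nat_lit 8661, nat_lit 10092, nat_lit 1493, nat_lit 0, nat_lit 0, nat_lit 3749, nat_lit 0, nat_lit 0, nat_lit 0, nat_lit 0, nat_lit 0, nat_lit 0, nat_lit 0, nat_lit 0, [],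
 ⟨p015_k66, nat_lit 0, nat_lit 0, nat_lit 665, nat_lit 0, nat_lit 1108110, [nat_lit 3282000000, nat_lit 4688000000, nat_lit 7968000000], [], [nat_lit 20195083412, nat_lit 20554626673, nat_lit 22761074028, nat_lit 20747439164], nat_lit 1271250, nat_lit 1271250, nat_lit 490000, nat_lit 780000, nat_lit 0, nat_lit 0, [nat_lit 780000, nat_lit 1100000, nat_lit 1785000], [nat_lit 36, nat_lit 40, nat_lit 80, nat_lit 80, nat_lit 7, nat_lit 238, nat_lit 30, nat_lit 8]⟩, ⟨p015_k84, nat_lit 0, nat_lit 0, nat_lit 0, nat_lit 0, nat_lit 0, [nat_lit 4688000000, nat_lit 6250000000, nat_lit 9842000000], [], [nat_lit 13743267458, nat_lit 15908017664, nat_lit 13489051410, nat_lit 16029679948], nat_lit 0, nat_lit 0, nat_lit 0, nat_lit 0, nat_lit 0, nat_lit 0, [], [nat_lit 11, nat_lit 40, nat_lit 80, nat_lit 80]⟩,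
 zbF0, []⟩
noncomputable def p015_l161 : Lf2 := ⟨nat_lit 0, nat_lit 10, [nat_lit 0, nat_lit 5, nat_lit 5, nat_lit 20], true, nat_lit 0, nat_lit 0, nat_lit 0, nat_lit 0, ⟨nat_lit 0, nat_lit 1000, nat_lit 0, nat_lit 6, nat_lit 131, nat_lit 0, nat_lit 0, nat_lit 0, nat_lit 0, nat_lit 0, nat_lit 0, nat_lit 0, nat_lit 0, nat_lit 0, nat_lit 0, nat_lit 5000000, false, false⟩,
 nat_lit 0, nat_lit 8918, nat_lit 0, nat_lit 0, nat_lit 5674, nat_lit 0, nat_lit 0, nat_lit 0, nat_lit 0, nat_lit 0, nat_lit 0, nat_lit 0, nat_lit 0, nat_lit 0, nat_lit 12, nat_lit 1000000, nat_lit 0, nat_lit 0, [(nat_lit 12, [(nat_lit 2, nat_lit 1000)])],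
 ⟨p015_k0, nat_lit 0, nat_lit 0, nat_lit 646, nat_lit 0, nat_lit 817605, [nat_lit 2479200001, nat_lit 2186400000, nat_lit 42000000], [], [nat_lit 20504845432, nat_lit 20857322380, nat_lit 19434009637, nat_lit 19754524953], nat_lit 1271250, nat_lit 1271250, nat_lit 205650, nat_lit 780000, nat_lit 0, nat_lit 0, [nat_lit 780000, nat_lit 1435000, nat_lit 1271250], [nat_lit 8, nat_lit 40, nat_lit 80, nat_lit 80, nat_lit 1, nat_lit 238, nat_lit 30, nat_lit 7]⟩, C1.Rw.none,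
 ⟨nat_lit 5244, nat_lit 5478, ⟨.ofNat (nat_lit 235487), .ofNat (nat_lit 392847), .ofNat (nat_lit 256844), .ofNat (nat_lit 414204), .ofNat (nat_lit 242768), .ofNat (nat_lit 396427), .ofNat (nat_lit 264153), .ofNat (nat_lit 417813)⟩, ⟨.ofNat (nat_lit 0), .ofNat (nat_lit 0), .ofNat (nat_lit 0), .ofNat (nat_lit 0), .ofNat (nat_lit 0), .ofNat (nat_lit 0), .ofNat (nat_lit 0), .ofNat (nat_lit 0)⟩⟩, [⟨nat_lit 0, nat_lit 100, nat_lit 94, nat_lit 73, nat_lit 57771058⟩]⟩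
noncomputable def p015_l162 : Lf2 := ⟨nat_lit 0, nat_lit 5, [nat_lit 4, nat_lit 5, nat_lit 5, nat_lit 20], false, nat_lit 0, nat_lit 0, nat_lit 0, nat_lit 0, ⟨nat_lit 1000, nat_lit 0, nat_lit 0, nat_lit 0, nat_lit 0, nat_lit 0, nat_lit 0, nat_lit 0, nat_lit 0, nat_lit 0, nat_lit 0, nat_lit 0, nat_lit 0, nat_lit 0, nat_lit 0, nat_lit 0, false, false⟩,
 nat_lit 0, nat_lit 12096, nat_lit 0, nat_lit 0, nat_lit 7697, nat_lit 10374, nat_lit 989, nat_lit 0, nat_lit 0, nat_lit 3636, nat_lit 0, nat_lit 0, nat_lit 0, nat_lit 0, nat_lit 0, nat_lit 0, nat_lit 0, nat_lit 0, [],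
 ⟨p015_k66, nat_lit 0, nat_lit 0, nat_lit 635, nat_lit 0, nat_lit 1066083, [nat_lit 3282000000, nat_lit 4688000000, nat_lit 7968000000], [], [nat_lit 26884180016, nat_lit 26031629835, nat_lit 28365353280, nat_lit 27482561259], nat_lit 1271250, nat_lit 1271250, nat_lit 780000, nat_lit 1762500, nat_lit 0, nat_lit 0, [nat_lit 780000, nat_lit 1100000, nat_lit 1785000], [nat_lit 36, nat_lit 40, nat_lit 80, nat_lit 80, nat_lit 7, nat_lit 272, nat_lit 60, nat_lit 9]⟩, ⟨p015_k84, nat_lit 0, nat_lit 0, nat_lit 0, nat_lit 0, nat_lit 0, [nat_lit 4688000000, nat_lit 6250000000, nat_lit 9842000000], [], [nat_lit 13832596520, nat_lit 15906338506, nat_lit 19451974496, nat_lit 22098087756], nat_lit 0, nat_lit 0, nat_lit 0, nat_lit 0, nat_lit 0, nat_lit 0, [], [nat_lit 11, nat_lit 40, nat_lit 80, nat_lit 80]⟩,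
 zbF0, []⟩
noncomputable def p015_l163 : Lf2 := ⟨nat_lit 0, nat_lit 10, [nat_lit 0, nat_lit 5, nat_lit 5, nat_lit 20], true, nat_lit 0, nat_lit 0, nat_lit 0, nat_lit 0, ⟨nat_lit 0, nat_lit 1000, nat_lit 0, nat_lit 6, nat_lit 206, nat_lit 0, nat_lit 0, nat_lit 0, nat_lit 0, nat_lit 0, nat_lit 0, nat_lit 0, nat_lit 0, nat_lit 0, nat_lit 0, nat_lit 5000000, false, false⟩,
 nat_lit 0, nat_lit 8571, nat_lit 0, nat_lit 0, nat_lit 5454, nat_lit 0, nat_lit 0, nat_lit 0, nat_lit 0, nat_lit 0, nat_lit 0, nat_lit 0, nat_lit 0, nat_lit 0, nat_lit 12, nat_lit 1000000, nat_lit 0, nat_lit 0, [(nat_lit 12, [(nat_lit 2, nat_lit 1000)])],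
 ⟨p015_k0, nat_lit 0, nat_lit 0, nat_lit 582, nat_lit 0, nat_lit 773912, [nat_lit 2479200001, nat_lit 2186400000, nat_lit 42000000], [], [nat_lit 19568510705, nat_lit 19772343825, nat_lit 21768245025, nat_lit 21217558358], nat_lit 1271250, nat_lit 1271250, nat_lit 780000, nat_lit 1762500, nat_lit 0, nat_lit 0, [nat_lit 780000, nat_lit 1435000, nat_lit 1271250], [nat_lit 8, nat_lit 40, nat_lit 80, nat_lit 80, nat_lit 1, nat_lit 272, nat_lit 60, nat_lit 8]⟩, C1.Rw.none,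
 ⟨nat_lit 5361, nat_lit 5478, ⟨.ofNat (nat_lit 392847), .ofNat (nat_lit 617644), .ofNat (nat_lit 414204), .ofNat (nat_lit 639001), .ofNat (nat_lit 394639), .ofNat (nat_lit 616785), .ofNat (nat_lit 416008), .ofNat (nat_lit 638154)⟩, ⟨.ofNat (nat_lit 0), .ofNat (nat_lit 0), .ofNat (nat_lit 0), .ofNat (nat_lit 0), .ofNat (nat_lit 0), .ofNat (nat_lit 0), .ofNat (nat_lit 0), .ofNat (nat_lit 0)⟩⟩, []⟩
noncomputable def p015_l164 : Lf2 := ⟨nat_lit 0, nat_lit 10, [nat_lit 0, nat_lit 5, nat_lit 5, nat_lit 20], false, nat_lit 0, nat_lit 0, nat_lit 0, nat_lit 0, ⟨nat_lit 282, nat_lit 718, nat_lit 0, nat_lit 6, nat_lit 207, nat_lit 0, nat_lit 0, nat_lit 0, nat_lit 0, nat_lit 0, nat_lit 0, nat_lit 0, nat_lit 0, nat_lit 0, nat_lit 0, nat_lit 5000000, false, false⟩,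
 nat_lit 0, nat_lit 9965, nat_lit 0, nat_lit 0, nat_lit 6479, nat_lit 3861, nat_lit 2019, nat_lit 0, nat_lit 0, nat_lit 664, nat_lit 0, nat_lit 0, nat_lit 0, nat_lit 0, nat_lit 0, nat_lit 718000, nat_lit 0, nat_lit 0, [(nat_lit 12, [(nat_lit 2, nat_lit 718)])],
 ⟨p015_k51, nat_lit 0, nat_lit 0, nat_lit 739, nat_lit 0, nat_lit 1118202, [nat_lit 2602197601, nat_lit 3160015200, nat_lit 2564352000], [], [nat_lit 17680049235, nat_lit 17844508389, nat_lit 20050748257, nat_lit 19923264470], nat_lit 1271250, nat_lit 1271250, nat_lit 780000, nat_lit 1762500, nat_lit 0, nat_lit 0, [nat_lit 780000, nat_lit 1435000, nat_lit 1271250], [nat_lit 8, nat_lit 40, nat_lit 80, nat_lit 80, nat_lit 1, nat_lit 272, nat_lit 60, nat_lit 8]⟩, ⟨p015_k1, nat_lit 0, nat_lit 0, nat_lit 0, nat_lit 0, nat_lit 0, [nat_lit 1322016000, nat_lit 2246976000, nat_lit 3347904000], [], [nat_lit 5169957680, nat_lit 5767972611, nat_lit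 6413469084, nat_lit 7033406058], nat_lit 0, nat_lit 0, nat_lit 0, nat_lit 0, nat_lit 0, nat_lit 0, [], [nat_lit 21, nat_lit 40, nat_lit 80, nat_lit 80]⟩,
 ⟨nat_lit 5244, nat_lit 5362, ⟨.ofNat (nat_lit 394639), .ofNat (nat_lit 616785), .ofNat (nat_lit 416008), .ofNat (nat_lit 638154), .ofNat (nat_lit 396427), .ofNat (nat_lit 615939), .ofNat (nat_lit 417812), .ofNat (nat_lit 637324)⟩, ⟨.ofNat (nat_lit 0), .ofNat (nat_lit 0), .ofNat (nat_lit 0), .ofNat (nat_lit 0), .ofNat (nat_lit 0), .ofNat (nat_lit 0), .ofNat (nat_lit 0), .ofNat (nat_lit 0)⟩⟩, []⟩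
noncomputable def p015_l165 : Lf2 := ⟨nat_lit 0, nat_lit 10, [nat_lit 0, nat_lit 5, nat_lit 5, nat_lit 20], true, nat_lit 0, nat_lit 0, nat_lit 0, nat_lit 0, ⟨nat_lit 0, nat_lit 1000, nat_lit 0, nat_lit 6, nat_lit 129, nat_lit 0, nat_lit 0, nat_lit 0, nat_lit 0, nat_lit 0, nat_lit 0, nat_lit 0, nat_lit 0, nat_lit 0, nat_lit 0, nat_lit 5000000, false, false⟩,
 nat_lit 0, nat_lit 10255, nat_lit 0, nat_lit 0, nat_lit 6525, nat_lit 0, nat_lit 360, nat_lit 0, nat_lit 0, nat_lit 0, nat_lit 0, nat_lit 0, nat_lit 0, nat_lit 0, nat_lit 12, nat_lit 1000000, nat_lit 0, nat_lit 0, [(nat_lit 12, [(nat_lit 2, nat_lit 1000)])],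
 ⟨p015_k0, nat_lit 0, nat_lit 0, nat_lit 580, nat_lit 0, nat_lit 658445, [nat_lit 2479200001, nat_lit 2186400000, nat_lit 42000000], [], [nat_lit 17201489920, nat_lit 17744765916, nat_lit 16085570800, nat_lit 16613960575], nat_lit 1271250, nat_lit 1271250, nat_lit 279600, nat_lit 490000, nat_lit 0, nat_lit 0, [nat_lit 780000, nat_lit 1435000, nat_lit 1271250], [nat_lit 8, nat_lit 40, nat_lit 80, nat_lit 80, nat_lit 1, nat_lit 226, nat_lit 20, nat_lit 7]⟩, C1.Rw.none,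
 ⟨nat_lit 5244, nat_lit 5478, ⟨.ofNat (nat_lit 279324), .ofNat (nat_lit 339271), .ofNat (nat_lit 300681), .ofNat (nat_lit 360628), .ofNat (nat_lit 286104), .ofNat (nat_lit 344641), .ofNat (nat_lit 307490), .ofNat (nat_lit 366027)⟩, ⟨.ofNat (nat_lit 0), .ofNat (nat_lit 0), .ofNat (nat_lit 0), .ofNat (nat_lit 0), .ofNat (nat_lit 0), .ofNat (nat_lit 0), .ofNat (nat_lit 0), .ofNat (nat_lit 0)⟩⟩, [⟨nat_lit 0, nat_lit 100, nat_lit 97, nat_lit 84, nat_lit 175159693⟩]⟩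
noncomputable def p015_l166 : Lf2 := ⟨nat_lit 0, nat_lit 2, [nat_lit 10, nat_lit 5, nat_lit 5, nat_lit 20], false, nat_lit 0, nat_lit 0, nat_lit 0, nat_lit 0, ⟨nat_lit 1000, nat_lit 0, nat_lit 0, nat_lit 0, nat_lit 0, nat_lit 0, nat_lit 0, nat_lit 0, nat_lit 0, nat_lit 0, nat_lit 0, nat_lit 0, nat_lit 0, nat_lit 0, nat_lit 0, nat_lit 0, false, false⟩,
 nat_lit 0, nat_lit 13506, nat_lit 0, nat_lit 0, nat_lit 8594, nat_lit 6434, nat_lit 2657, nat_lit 0, nat_lit 0, nat_lit 0, nat_lit 0, nat_lit 0, nat_lit 0, nat_lit 0, nat_lit 0, nat_lit 0, nat_lit 0, nat_lit 0, [],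
 ⟨p015_k64, nat_lit 0, nat_lit 0, nat_lit 636, nat_lit 0, nat_lit 1206549, [nat_lit 3282000000, nat_lit 4688000000, nat_lit 6250000000], [], [nat_lit 20319486832, nat_lit 20445002911, nat_lit 20796977762, nat_lit 20199498002], nat_lit 1271250, nat_lit 1271250, nat_lit 490000, nat_lit 1100001, nat_lit 0, nat_lit 0, [nat_lit 780000, nat_lit 1100000, nat_lit 1442500], [nat_lit 59, nat_lit 40, nat_lit 80, nat_lit 80, nat_lit 3, nat_lit 249, nat_lit 40, nat_lit 10]⟩, ⟨p015_k65, nat_lit 0, nat_lit 0, nat_lit 0, nat_lit 0, nat_lit 0, [nat_lit 4688000000, nat_lit 6250000000], [], [nat_lit 13505183460, nat_lit 15742863752, nat_lit 14625637148, nat_lit 16611423200], nat_lit 0, nat_lit 0, nat_lit 0, nat_lit 0, nat_lit 0, nat_lit 0, [], [nat_lit 31, nat_lit 40, nat_lit 80, nat_lit 80]⟩,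
 zbF0, []⟩
noncomputable def p015_l167 : Lf2 := ⟨nat_lit 0, nat_lit 2, [nat_lit 10, nat_lit 5, nat_lit 5, nat_lit 20], false, nat_lit 0, nat_lit 0, nat_lit 0, nat_lit 0, ⟨nat_lit 1000, nat_lit 0, nat_lit 0, nat_lit 0, nat_lit 0, nat_lit 0, nat_lit 0, nat_lit 0, nat_lit 0, nat_lit 0, nat_lit 0, nat_lit 0, nat_lit 0, nat_lit 0, nat_lit 0, nat_lit 0, false, false⟩,
 nat_lit 0, nat_lit 12063, nat_lit 0, nat_lit 0, nat_lit 7776, nat_lit 6434, nat_lit 13237, nat_lit 0, nat_lit 0, nat_lit 0, nat_lit 0, nat_lit 0, nat_lit 0, nat_lit 0, nat_lit 0, nat_lit 0, nat_lit 0, nat_lit 0, [],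
 ⟨p015_k41, nat_lit 0, nat_lit 0, nat_lit 630, nat_lit 0, nat_lit 1200573, [nat_lit 3282000000, nat_lit 6250000000], [], [nat_lit 16122031488, nat_lit 16199664040, nat_lit 20914161184, nat_lit 20557420076], nat_lit 1271250, nat_lit 1271250, nat_lit 490000, nat_lit 1100001, nat_lit 0, nat_lit 0, [nat_lit 780000, nat_lit 1435000], [nat_lit 49, nat_lit 40, nat_lit 80, nat_lit 80, nat_lit 16, nat_lit 249, nat_lit 40, nat_lit 10]⟩, ⟨p015_k65, nat_lit 0, nat_lit 0, nat_lit 0, nat_lit 0, nat_lit 0, [nat_lit 4688000000, nat_lit 6250000000], [], [nat_lit 13505183460, nat_lit 15742863752, nat_lit 14625637148, nat_lit 16611423200], nat_lit 0, nat_lit 0, nat_lit 0, nat_lit 0, nat_lit 0, nat_lit 0, [], [nat_lit 31, nat_lit 40, nat_lit 80, nat_lit 80]⟩,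
 zbF0, []⟩
noncomputable def p015_l168 : Lf2 := ⟨nat_lit 0, nat_lit 2, [nat_lit 10, nat_lit 5, nat_lit 5, nat_lit 20], false, nat_lit 0, nat_lit 0, nat_lit 0, nat_lit 0, ⟨nat_lit 1000, nat_lit 0, nat_lit 0, nat_lit 0, nat_lit 0, nat_lit 0, nat_lit 0, nat_lit 0, nat_lit 0, nat_lit 0, nat_lit 0, nat_lit 0, nat_lit 0, nat_lit 0, nat_lit 0, nat_lit 0, false, false⟩,
 nat_lit 0, nat_lit 12353, nat_lit 0, nat_lit 0, nat_lit 8031, nat_lit 6434, nat_lit 8174, nat_lit 0, nat_lit 0, nat_lit 0, nat_lit 0, nat_lit 0, nat_lit 0, nat_lit 0, nat_lit 0, nat_lit 0, nat_lit 0, nat_lit 0, [],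
 ⟨p015_k27, nat_lit 0, nat_lit 0, nat_lit 639, nat_lit 0, nat_lit 1224734, [nat_lit 3282000000, nat_lit 6250000000], [], [nat_lit 13979695359, nat_lit 14208355307, nat_lit 19482076831, nat_lit 18560977348], nat_lit 1271250, nat_lit 1271250, nat_lit 490000, nat_lit 1100001, nat_lit 0, nat_lit 0, [nat_lit 780000, nat_lit 1435000], [nat_lit 49, nat_lit 40, nat_lit 80, nat_lit 80, nat_lit 16, nat_lit 249, nat_lit 40, nat_lit 10]⟩, ⟨p015_k65, nat_lit 0, nat_lit 0, nat_lit 0, nat_lit 0, nat_lit 0, [nat_lit 4688000000, nat_lit 6250000000], [], [nat_lit 13505183460, nat_lit 15742863752, nat_lit 14625637148, nat_lit 16611423200], nat_lit 0, nat_lit 0, nat_lit 0, nat_lit 0, nat_lit 0, nat_lit 0, [], [nat_lit 31, nat_lit 40, nat_lit 80, nat_lit 80]⟩,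
 zbF0, []⟩
noncomputable def p015_l169 : Lf2 := ⟨nat_lit 0, nat_lit 5, [nat_lit 4, nat_lit 5, nat_lit 5, nat_lit 20], false, nat_lit 0, nat_lit 0, nat_lit 0, nat_lit 0, ⟨nat_lit 1000, nat_lit 0, nat_lit 0, nat_lit 0, nat_lit 0, nat_lit 0, nat_lit 0, nat_lit 0, nat_lit 0, nat_lit 0, nat_lit 0, nat_lit 0, nat_lit 0, nat_lit 0, nat_lit 0, nat_lit 0, false, false⟩,
 nat_lit 0, nat_lit 11472, nat_lit 0, nat_lit 0, nat_lit 7300, nat_lit 6577, nat_lit 1413, nat_lit 0, nat_lit 0, nat_lit 0, nat_lit 0, nat_lit 0, nat_lit 0, nat_lit 0, nat_lit 0, nat_lit 0, nat_lit 0, nat_lit 0, [],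
 ⟨p015_k66, nat_lit 0, nat_lit 0, nat_lit 644, nat_lit 0, nat_lit 1049963, [nat_lit 3282000000, nat_lit 4688000000, nat_lit 7968000000], [], [nat_lit 28459110400, nat_lit 26968660800, nat_lit 26449039200, nat_lit 26843475900], nat_lit 1271250, nat_lit 1271250, nat_lit 490000, nat_lit 1100001, nat_lit 0, nat_lit 0, [nat_lit 780000, nat_lit 1100000, nat_lit 1785000], [nat_lit 36, nat_lit 40, nat_lit 80, nat_lit 80, nat_lit 7, nat_lit 249, nat_lit 40, nat_lit 8]⟩, ⟨p015_k67, nat_lit 0, nat_lit 0, nat_lit 0, nat_lit 0, nat_lit 0, [nat_lit 4688000000, nat_lit 6250000000, nat_lit 7968000000], [], [nat_lit 13437214130, nat_lit 14571980043, nat_lit 14535178494, nat_lit 15541755047], nat_lit 0, nat_lit 0, nat_lit 0, nat_lit 0, nat_lit 0, nat_lit 0, [], [nat_lit 9, nat_lit 40, nat_lit 80, nat_lit 80]⟩,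
 zbF0, []⟩
noncomputable def p015_l170 : Lf2 := ⟨nat_lit 0, nat_lit 5, [nat_lit 4, nat_lit 5, nat_lit 5, nat_lit 20], false, nat_lit 0, nat_lit 0, nat_lit 0, nat_lit 0, ⟨nat_lit 1000, nat_lit 0, nat_lit 0, nat_lit 0, nat_lit 0, nat_lit 0, nat_lit 0, nat_lit 0, nat_lit 0, nat_lit 0, nat_lit 0, nat_lit 0, nat_lit 0, nat_lit 0, nat_lit 0, nat_lit 0, false, false⟩,
 nat_lit 0, nat_lit 11455, nat_lit 0, nat_lit 0, nat_lit 7289, nat_lit 5377, nat_lit 1413, nat_lit 0, nat_lit 0, nat_lit 0, nat_lit 0, nat_lit 0, nat_lit 0, nat_lit 0, nat_lit 0, nat_lit 0, nat_lit 0, nat_lit 0, [],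
 ⟨p015_k66, nat_lit 0, nat_lit 0, nat_lit 677, nat_lit 0, nat_lit 1141956, [nat_lit 3282000000, nat_lit 4688000000, nat_lit 7968000000], [], [nat_lit 28465437512, nat_lit 27022054514, nat_lit 26504732376, nat_lit 26898915097], nat_lit 1271250, nat_lit 1271250, nat_lit 490000, nat_lit 1100001, nat_lit 0, nat_lit 0, [nat_lit 780000, nat_lit 1100000, nat_lit 1785000], [nat_lit 36, nat_lit 40, nat_lit 80, nat_lit 80, nat_lit 7, nat_lit 249, nat_lit 40, nat_lit 8]⟩, ⟨p015_k68, nat_lit 0, nat_lit 0, nat_lit 0, nat_lit 0, nat_lit 0, [nat_lit 3965500000, nat_lit 5449500000, nat_lit 7089500000], [], [nat_lit 13627981323, nat_lit 14663956104, nat_lit 14857381752, nat_lit 15780881868], nat_lit 0, nat_lit 0, nat_lit 0, nat_lit 0, nat_lit 0, nat_lit 0, [], [nat_lit 230, nat_lit 40, nat_lit 20, nat_lit 40]⟩,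
 zbF0, []⟩
noncomputable def p015_l171 : Lf2 := ⟨nat_lit 0, nat_lit 8, [nat_lit 50, nat_lit 5, nat_lit 5, nat_lit 20], false, nat_lit 0, nat_lit 0, nat_lit 0, nat_lit 0, ⟨nat_lit 1000, nat_lit 0, nat_lit 0, nat_lit 0, nat_lit 0, nat_lit 0, nat_lit 0, nat_lit 0, nat_lit 0, nat_lit 0, nat_lit 0, nat_lit 0, nat_lit 0, nat_lit 0, nat_lit 0, nat_lit 0, false, false⟩,
 nat_lit 0, nat_lit 11789, nat_lit 0, nat_lit 0, nat_lit 7502, nat_lit 7061, nat_lit 640, nat_lit 0, nat_lit 0, nat_lit 2861, nat_lit 0, nat_lit 0, nat_lit 0, nat_lit 0, nat_lit 0, nat_lit 0, nat_lit 0, nat_lit 0, [],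
 ⟨p015_k69, nat_lit 0, nat_lit 0, nat_lit 558, nat_lit 0, nat_lit 892972, [nat_lit 3282000000, nat_lit 4688000000, nat_lit 7968000000], [], [nat_lit 28342921616, nat_lit 26747824250, nat_lit 26585650096, nat_lit 26482428262], nat_lit 1271250, nat_lit 1271250, nat_lit 490000, nat_lit 1100001, nat_lit 0, nat_lit 0, [nat_lit 780000, nat_lit 1100000, nat_lit 1785000], [nat_lit 36, nat_lit 40, nat_lit 80, nat_lit 80, nat_lit 7, nat_lit 249, nat_lit 40, nat_lit 8]⟩, ⟨p015_k70, nat_lit 0, nat_lit 0, nat_lit 0, nat_lit 0, nat_lit 0, [nat_lit 3965500000, nat_lit 5449500000, nat_lit 8885500000], [], [nat_lit 15168310995, nat_lit 16090788882, nat_lit 16171736404, nat_lit 17043066460], nat_lit 0, nat_lit 0, nat_lit 0, nat_lit 0, nat_lit 0, nat_lit 0, [], [nat_lit 168, nat_lit 40, nat_lit 20, nat_lit 40]⟩,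
 zbF0, []⟩
noncomputable def p015_l172 : Lf2 := ⟨nat_lit 0, nat_lit 10, [nat_lit 0, nat_lit 5, nat_lit 5, nat_lit 20], false, nat_lit 0, nat_lit 0, nat_lit 0, nat_lit 0, ⟨nat_lit 118, nat_lit 882, nat_lit 0, nat_lit 6, nat_lit 169, nat_lit 0, nat_lit 0, nat_lit 0, nat_lit 0, nat_lit 0, nat_lit 0, nat_lit 0, nat_lit 0, nat_lit 0, nat_lit 0, nat_lit 5000000, false, false⟩,
 nat_lit 0, nat_lit 8906, nat_lit 0, nat_lit 0, nat_lit 5667, nat_lit 929, nat_lit 103, nat_lit 0, nat_lit 0, nat_lit 205, nat_lit 0, nat_lit 0, nat_lit 0, nat_lit 0, nat_lit 0, nat_lit 882000, nat_lit 0, nat_lit 0, [(nat_lit 12, [(nat_lit 2, nat_lit 882)])],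
 ⟨p015_k0, nat_lit 0, nat_lit 0, nat_lit 592, nat_lit 0, nat_lit 756197, [nat_lit 2446922401, nat_lit 2454224800, nat_lit 902048000], [], [nat_lit 20928924528, nat_lit 21296516276, nat_lit 23277112152, nat_lit 21977181690], nat_lit 1271250, nat_lit 1271250, nat_lit 490000, nat_lit 1100001, nat_lit 0, nat_lit 0, [nat_lit 780000, nat_lit 1435000, nat_lit 1271250], [nat_lit 8, nat_lit 40, nat_lit 80, nat_lit 80, nat_lit 1, nat_lit 249, nat_lit 40, nat_lit 7]⟩, ⟨p015_k5, nat_lit 0, nat_lit 0, nat_lit 0, nat_lit 0, nat_lit 0, [nat_lit 553184000, nat_lit 940224000, nat_lit 1161356000], [], [nat_lit 2229058578, nat_lit 2337761867, nat_lit 2266372150, nat_lit 2357367525], nat_lit 0, nat_lit 0, nat_lit 0, nat_lit 0, nat_lit 0, nat_lit 0, [], [nat_lit 29, nat_lit 40, nat_lit 80, nat_lit 80]⟩,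
 ⟨nat_lit 5244, nat_lit 5478, ⟨.ofNat (nat_lit 339271), .ofNat (nat_lit 489134), .ofNat (nat_lit 349949), .ofNat (nat_lit 499812), .ofNat (nat_lit 344641), .ofNat (nat_lit 490981), .ofNat (nat_lit 355334), .ofNat (nat_lit 501673)⟩, ⟨.ofNat (nat_lit 0), .ofNat (nat_lit 0), .ofNat (nat_lit 0), .ofNat (nat_lit 0), .ofNat (nat_lit 0), .ofNat (nat_lit 0), .ofNat (nat_lit 0), .ofNat (nat_lit 0)⟩⟩, []⟩
noncomputable def p015_l173 : Lf2 := ⟨nat_lit 0, nat_lit 10, [nat_lit 0, nat_lit 5, nat_lit 5, nat_lit 20], false, nat_lit 0, nat_lit 0, nat_lit 0, nat_lit 0, ⟨nat_lit 360, nat_lit 640, nat_lit 0, nat_lit 6, nat_lit 173, nat_lit 0, nat_lit 0, nat_lit 0, nat_lit 0, nat_lit 0, nat_lit 0, nat_lit 0, nat_lit 0, nat_lit 0, nat_lit 0, nat_lit 5000000, false, false⟩,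
 nat_lit 0, nat_lit 2633, nat_lit 0, nat_lit 0, nat_lit 1675, nat_lit 2743, nat_lit 0, nat_lit 0, nat_lit 289, nat_lit 629, nat_lit 0, nat_lit 0, nat_lit 0, nat_lit 0, nat_lit 0, nat_lit 630400, nat_lit 0, nat_lit 0, [(nat_lit 12, [(nat_lit 1, nat_lit 16), (nat_lit 2, nat_lit 624)])],
 ⟨p015_k0, nat_lit 0, nat_lit 0, nat_lit 0, nat_lit 0, nat_lit 993087, [nat_lit 2671779201, nat_lit 3508092800, nat_lit 3401846400], [], [nat_lit 12751616306, nat_lit 13085822231, nat_lit 15968609304, nat_lit 15584387754], nat_lit 1271250, nat_lit 1271250, nat_lit 490000, nat_lit 1100001, nat_lit 0, nat_lit 0, [nat_lit 780000, nat_lit 1435000, nat_lit 1271250], [nat_lit 8, nat_lit 40, nat_lit 80, nat_lit 80]⟩, ⟨p015_k23, nat_lit 0, nat_lit 0, nat_lit 0, nat_lit 0, nat_lit 0, [nat_lit 1687680000, nat_lit 2868480000, nat_lit 3543120000], [], [nat_lit 6655691604, nat_lit 6965256920, nat_lit 6774000223, nat_lit 7046321560],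 nat_lit 0, nat_lit 0, nat_lit 0, nat_lit 0, nat_lit 0, nat_lit 0, [], [nat_lit 29, nat_lit 40, nat_lit 80, nat_lit 80]⟩,
 ⟨nat_lit 5244, nat_lit 5478, ⟨.ofNat (nat_lit 349949), .ofNat (nat_lit 499812), .ofNat (nat_lit 360628), .ofNat (nat_lit 510489), .ofNat (nat_lit 355334), .ofNat (nat_lit 501673), .ofNat (nat_lit 366027), .ofNat (nat_lit 512365)⟩, ⟨.ofNat (nat_lit 0), .ofNat (nat_lit 0), .ofNat (nat_lit 0), .ofNat (nat_lit 0), .ofNat (nat_lit 0), .ofNat (nat_lit 0), .ofNat (nat_lit 0), .ofNat (nat_lit 0)⟩⟩, []⟩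
noncomputable def p015_l174 : Lf2 := ⟨nat_lit 0, nat_lit 8, [nat_lit 50, nat_lit 5, nat_lit 5, nat_lit 20], false, nat_lit 0, nat_lit 0, nat_lit 0, nat_lit 0, ⟨nat_lit 1000, nat_lit 0, nat_lit 0, nat_lit 0, nat_lit 0, nat_lit 0, nat_lit 0, nat_lit 0, nat_lit 0, nat_lit 0, nat_lit 0, nat_lit 0, nat_lit 0, nat_lit 0, nat_lit 0, nat_lit 0, false, false⟩,
 nat_lit 0, nat_lit 14979, nat_lit 0, nat_lit 0, nat_lit 9532, nat_lit 7219, nat_lit 1671, nat_lit 0, nat_lit 0, nat_lit 2927, nat_lit 0, nat_lit 0, nat_lit 0, nat_lit 0, nat_lit 0, nat_lit 0, nat_lit 0, nat_lit 0, [],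
 ⟨p015_k69, nat_lit 0, nat_lit 0, nat_lit 0, nat_lit 0, nat_lit 937148, [nat_lit 3282000000, nat_lit 4688000000, nat_lit 7968000000], [], [nat_lit 15528017128, nat_lit 16143801552, nat_lit 15256232816, nat_lit 15900028916], nat_lit 1271250, nat_lit 1271250, nat_lit 490000, nat_lit 1100001, nat_lit 0, nat_lit 0, [nat_lit 780000, nat_lit 1100000, nat_lit 1785000], [nat_lit 36, nat_lit 40, nat_lit 80, nat_lit 80]⟩, ⟨p015_k85, nat_lit 0, nat_lit 0, nat_lit 0, nat_lit 0, nat_lit 0, [nat_lit 4688000000, nat_lit 6250000000, nat_lit 9842000000], [], [nat_lit 15410915557, nat_lit 15842799868, nat_lit 16097187205, nat_lit 16503646952], nat_lit 0, nat_lit 0, nat_lit 0, nat_lit 0, nat_lit 0, nat_lit 0, [], [nat_lit 11, nat_lit 40, nat_lit 80, nat_lit 80]⟩,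
 zbF0, []⟩
noncomputable def p015_l175 : Lf2 := ⟨nat_lit 0, nat_lit 10, [nat_lit 0, nat_lit 5, nat_lit 5, nat_lit 20], true, nat_lit 0, nat_lit 0, nat_lit 0, nat_lit 0, ⟨nat_lit 0, nat_lit 1000, nat_lit 0, nat_lit 6, nat_lit 171, nat_lit 0, nat_lit 0, nat_lit 0, nat_lit 0, nat_lit 0, nat_lit 0, nat_lit 0, nat_lit 0, nat_lit 0, nat_lit 0, nat_lit 5000000, false, false⟩,
 nat_lit 0, nat_lit 9072, nat_lit 0, nat_lit 0, nat_lit 5772, nat_lit 0, nat_lit 0, nat_lit 0, nat_lit 0, nat_lit 0, nat_lit 0, nat_lit 0, nat_lit 0, nat_lit 0, nat_lit 12, nat_lit 1000000, nat_lit 0, nat_lit 0, [(nat_lit 12, [(nat_lit 2, nat_lit 1000)])],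
 ⟨p015_k0, nat_lit 0, nat_lit 0, nat_lit 0, nat_lit 0, nat_lit 757445, [nat_lit 2479200001, nat_lit 2186400000, nat_lit 42000000], [], [nat_lit 18540828832, nat_lit 18749088452, nat_lit 18484795841, nat_lit 18681365057], nat_lit 1271250, nat_lit 1271250, nat_lit 490000, nat_lit 1100001, nat_lit 0, nat_lit 0, [nat_lit 780000, nat_lit 1435000, nat_lit 1271250], [nat_lit 8, nat_lit 40, nat_lit 80, nat_lit 80]⟩, C1.Rw.none,
 ⟨nat_lit 5361, nat_lit 5478, ⟨.ofNat (nat_lit 349949), .ofNat (nat_lit 499814), .ofNat (nat_lit 355288), .ofNat (nat_lit 505153), .ofNat (nat_lit 352644), .ofNat (nat_lit 500742), .ofNat (nat_lit 357986), .ofNat (nat_lit 506084)⟩, ⟨.ofNat (nat_lit 0), .ofNat (nat_lit 0), .ofNat (nat_lit 0), .ofNat (nat_lit 0), .ofNat (nat_lit 0), .ofNat (nat_lit 0), .ofNat (nat_lit 0), .ofNat (nat_lit 0)⟩⟩, []⟩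
noncomputable def p015_l176 : Lf2 := ⟨nat_lit 0, nat_lit 10, [nat_lit 0, nat_lit 5, nat_lit 5, nat_lit 20], false, nat_lit 0, nat_lit 0, nat_lit 0, nat_lit 0, ⟨nat_lit 28, nat_lit 972, nat_lit 0, nat_lit 6, nat_lit 172, nat_lit 0, nat_lit 0, nat_lit 0, nat_lit 0, nat_lit 0, nat_lit 0, nat_lit 0, nat_lit 0, nat_lit 0, nat_lit 0, nat_lit 5000000, false, false⟩,
 nat_lit 0, nat_lit 9071, nat_lit 0, nat_lit 0, nat_lit 5897, nat_lit 221, nat_lit 65, nat_lit 0, nat_lit 0, nat_lit 51, nat_lit 0, nat_lit 0, nat_lit 0, nat_lit 0, nat_lit 2, nat_lit 972000, nat_lit 0, nat_lit 0, [(nat_lit 12, [(nat_lit 2, nat_lit 972)])],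
 ⟨p015_k51, nat_lit 0, nat_lit 0, nat_lit 0, nat_lit 0, nat_lit 776252, [nat_lit 2385710401, nat_lit 2106900800, nat_lit 45808000], [], [nat_lit 18528125852, nat_lit 18738644294, nat_lit 18600822157, nat_lit 18806163811], nat_lit 1271250, nat_lit 1271250, nat_lit 490000, nat_lit 1100001, nat_lit 0, nat_lit 0, [nat_lit 780000, nat_lit 1435000, nat_lit 1271250], [nat_lit 8, nat_lit 40, nat_lit 80, nat_lit 80]⟩, ⟨p015_k23, nat_lit 0, nat_lit 0, nat_lit 0, nat_lit 0, nat_lit 0, [nat_lit 131264000, nat_lit 223104000, nat_lit 275576000], [], [nat_lit 507541257, nat_lit 522272873, nat_lit 512072277, nat_lit 524780307], nat_lit 0, nat_lit 0, nat_lit 0, nat_lit 0, nat_lit 0, nat_lit 0, [], [nat_lit 29, nat_lit 40, nat_lit 80, nat_lit 80]⟩,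
 ⟨nat_lit 5244, nat_lit 5362, ⟨.ofNat (nat_lit 352644), .ofNat (nat_lit 500741), .ofNat (nat_lit 357986), .ofNat (nat_lit 506084), .ofNat (nat_lit 355334), .ofNat (nat_lit 501675), .ofNat (nat_lit 360680), .ofNat (nat_lit 507022)⟩, ⟨.ofNat (nat_lit 0), .ofNat (nat_lit 0), .ofNat (nat_lit 0), .ofNat (nat_lit 0), .ofNat (nat_lit 0), .ofNat (nat_lit 0), .ofNat (nat_lit 0), .ofNat (nat_lit 0)⟩⟩, []⟩
noncomputable def p015_l177 : Lf2 := ⟨nat_lit 0, nat_lit 10, [nat_lit 0, nat_lit 5, nat_lit 5, nat_lit 20], true, nat_lit 0, nat_lit 0, nat_lit 0, nat_lit 0, ⟨nat_lit 0, nat_lit 1000, nat_lit 0, nat_lit 6, nat_lit 152, nat_lit 0, nat_lit 0, nat_lit 0, nat_lit 0, nat_lit 0, nat_lit 0, nat_lit 0, nat_lit 0, nat_lit 0, nat_lit 0, nat_lit 5000000, false, false⟩,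
 nat_lit 0, nat_lit 100000, nat_lit 0, nat_lit 0, nat_lit 63636, nat_lit 0, nat_lit 6658, nat_lit 3727, nat_lit 0, nat_lit 0, nat_lit 0, nat_lit 0, nat_lit 0, nat_lit 0, nat_lit 0, nat_lit 1000000, nat_lit 0, nat_lit 0, [(nat_lit 12, [(nat_lit 2, nat_lit 1000)])],
 ⟨p015_k0, nat_lit 0, nat_lit 0, nat_lit 0, nat_lit 0, nat_lit 488433, [nat_lit 47059200001, nat_lit 76486400000, nat_lit 104062000000], [], [nat_lit 129082544026, nat_lit 132177340920, nat_lit 125741382697, nat_lit 129067885418], nat_lit 1271250, nat_lit 1271250, nat_lit 490000, nat_lit 631250, nat_lit 0, nat_lit 0, [nat_lit 780000, nat_lit 1435000, nat_lit 1271250], [nat_lit 8, nat_lit 40, nat_lit 80, nat_lit 80]⟩, C1.Rw.none,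
 ⟨nat_lit 5244, nat_lit 5478, ⟨.ofNat (nat_lit 355288), .ofNat (nat_lit 392755), .ofNat (nat_lit 360628), .ofNat (nat_lit 398094), .ofNat (nat_lit 360680), .ofNat (nat_lit 397266), .ofNat (nat_lit 366027), .ofNat (nat_lit 402612)⟩, ⟨.ofNat (nat_lit 0), .ofNat (nat_lit 0), .ofNat (nat_lit 0), .ofNat (nat_lit 0), .ofNat (nat_lit 0), .ofNat (nat_lit 0), .ofNat (nat_lit 0), .ofNat (nat_lit 0)⟩⟩, [⟨nat_lit 13, nat_lit 98, nat_lit 4, nat_lit 100, nat_lit 661622062⟩]⟩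
noncomputable def p015_l178 : Lf2 := ⟨nat_lit 0, nat_lit 10, [nat_lit 0, nat_lit 5, nat_lit 5, nat_lit 20], true, nat_lit 0, nat_lit 0, nat_lit 0, nat_lit 0, ⟨nat_lit 0, nat_lit 1000, nat_lit 0, nat_lit 6, nat_lit 164, nat_lit 0, nat_lit 0, nat_lit 0, nat_lit 0, nat_lit 0, nat_lit 0, nat_lit 0, nat_lit 0, nat_lit 0, nat_lit 0, nat_lit 5000000, false, false⟩,
 nat_lit 0, nat_lit 100000, nat_lit 0, nat_lit 0, nat_lit 63636, nat_lit 0, nat_lit 6382, nat_lit 3944, nat_lit 0, nat_lit 0, nat_lit 0, nat_lit 0, nat_lit 0, nat_lit 0, nat_lit 0, nat_lit 1000000, nat_lit 0, nat_lit 0, [(nat_lit 12, [(nat_lit 2, nat_lit 1000)])],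
 ⟨p015_k0, nat_lit 0, nat_lit 0, nat_lit 0, nat_lit 0, nat_lit 488433, [nat_lit 49663200001, nat_lit 80826400001, nat_lit 110138000000], [], [nat_lit 142189534093, nat_lit 144694168586, nat_lit 139955232237, nat_lit 142828548176], nat_lit 1271250, nat_lit 1271250, nat_lit 631250, nat_lit 719601, nat_lit 0, nat_lit 0, [nat_lit 780000, nat_lit 1435000, nat_lit 1271250], [nat_lit 8, nat_lit 40, nat_lit 80, nat_lit 80]⟩, C1.Rw.none,
 ⟨nat_lit 5244, nat_lit 5478, ⟨.ofNat (nat_lit 392755), .ofNat (nat_lit 415234), .ofNat (nat_lit 398094), .ofNat (nat_lit 420573), .ofNat (nat_lit 397266), .ofNat (nat_lit 419217), .ofNat (nat_lit 402612), .ofNat (nat_lit 424563)⟩, ⟨.ofNat (nat_lit 0), .ofNat (nat_lit 0), .ofNat (nat_lit 0), .ofNat (nat_lit 0), .ofNat (nat_lit 0), .ofNat (nat_lit 0), .ofNat (nat_lit 0), .ofNat (nat_lit 0)⟩⟩, [⟨nat_lit 13, nat_lit 98, nat_lit 4, nat_lit 100, nat_lit 782256407⟩]⟩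
noncomputable def p015_l179 : Lf2 := ⟨nat_lit 0, nat_lit 10, [nat_lit 0, nat_lit 5, nat_lit 5, nat_lit 20], false, nat_lit 0, nat_lit 0, nat_lit 0, nat_lit 0, ⟨nat_lit 1000, nat_lit 0, nat_lit 0, nat_lit 0, nat_lit 0, nat_lit 0, nat_lit 0, nat_lit 0, nat_lit 0, nat_lit 0, nat_lit 0, nat_lit 0, nat_lit 0, nat_lit 0, nat_lit 0, nat_lit 0, false, false⟩,
 nat_lit 0, nat_lit 14065, nat_lit 0, nat_lit 0, nat_lit 8950, nat_lit 7159, nat_lit 1782, nat_lit 0, nat_lit 0, nat_lit 2709, nat_lit 0, nat_lit 0, nat_lit 0, nat_lit 0, nat_lit 0, nat_lit 0, nat_lit 0, nat_lit 0, [],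
 ⟨p015_k17, nat_lit 0, nat_lit 0, nat_lit 0, nat_lit 0, nat_lit 993087, [nat_lit 3282000000, nat_lit 4688000000, nat_lit 9842000000], [], [nat_lit 17621498911, nat_lit 18126953570, nat_lit 17551656150, nat_lit 18113332525], nat_lit 1271250, nat_lit 1271250, nat_lit 719601, nat_lit 780000, nat_lit 0, nat_lit 0, [nat_lit 780000, nat_lit 1100000, nat_lit 2127500], [nat_lit 42, nat_lit 40, nat_lit 80, nat_lit 80]⟩, ⟨p015_k76, nat_lit 0, nat_lit 0, nat_lit 0, nat_lit 0, nat_lit 0, [nat_lit 4688000000, nat_lit 6250000000, nat_lit 9842000000], [], [nat_lit 16175883646, nat_lit 16524960709, nat_lit 16178175939, nat_lit 16532283672], nat_lit 0, nat_lit 0, nat_lit 0, nat_lit 0, nat_lit 0, nat_lit 0, [], [nat_lit 11, nat_lit 40, nat_lit 80, nat_lit 80]⟩,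
 zbF0, []⟩
noncomputable def p015_l180 : Lf2 := ⟨nat_lit 0, nat_lit 10, [nat_lit 0, nat_lit 5, nat_lit 5, nat_lit 20], false, nat_lit 0, nat_lit 0, nat_lit 0, nat_lit 0, ⟨nat_lit 1000, nat_lit 0, nat_lit 0, nat_lit 0, nat_lit 0, nat_lit 0, nat_lit 0, nat_lit 0, nat_lit 0, nat_lit 0, nat_lit 0, nat_lit 0, nat_lit 0, nat_lit 0, nat_lit 0, nat_lit 0, false, false⟩,
 nat_lit 0, nat_lit 14042, nat_lit 0, nat_lit 0, nat_lit 8935, nat_lit 7174, nat_lit 1769, nat_lit 0, nat_lit 0, nat_lit 2701, nat_lit 0, nat_lit 0, nat_lit 0, nat_lit 0, nat_lit 0, nat_lit 0, nat_lit 0, nat_lit 0, [],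
 ⟨p015_k17, nat_lit 0, nat_lit 0, nat_lit 0, nat_lit 0, nat_lit 993087, [nat_lit 3282000000, nat_lit 4688000000, nat_lit 9842000000], [], [nat_lit 17669238145, nat_lit 18167638275, nat_lit 17483288780, nat_lit 18103100405], nat_lit 1271250, nat_lit 1271250, nat_lit 780000, nat_lit 1100001, nat_lit 0, nat_lit 0, [nat_lit 780000, nat_lit 1100000, nat_lit 2127500], [nat_lit 42, nat_lit 40, nat_lit 80, nat_lit 80]⟩, ⟨p015_k76, nat_lit 0, nat_lit 0, nat_lit 0, nat_lit 0, nat_lit 0, [nat_lit 4688000000, nat_lit 6250000000, nat_lit 9842000000], [], [nat_lit 16201249483, nat_lit 16546429105, nat_lit 16281403092, nat_lit 16686350254], nat_lit 0, nat_lit 0, nat_lit 0, nat_lit 0, nat_lit 0, nat_lit 0, [], [nat_lit 11, nat_lit 40, nat_lit 80, nat_lit 80]⟩,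
 zbF0, []⟩
noncomputable def p015_l181 : Lf2 := ⟨nat_lit 0, nat_lit 10, [nat_lit 0, nat_lit 5, nat_lit 5, nat_lit 20], false, nat_lit 0, nat_lit 0, nat_lit 0, nat_lit 0, ⟨nat_lit 0, nat_lit 1000, nat_lit 0, nat_lit 6, nat_lit 173, nat_lit 0, nat_lit 0, nat_lit 0, nat_lit 0, nat_lit 0, nat_lit 0, nat_lit 0, nat_lit 0, nat_lit 0, nat_lit 0, nat_lit 5000000, false, false⟩,
 nat_lit 0, nat_lit 100000, nat_lit 0, nat_lit 0, nat_lit 63636, nat_lit 100000, nat_lit 5065, nat_lit 2454, nat_lit 0, nat_lit 16435, nat_lit 6837, nat_lit 0, nat_lit 0, nat_lit 0, nat_lit 0, nat_lit 1000000, nat_lit 0, nat_lit 0, [(nat_lit 12, [(nat_lit 2, nat_lit 1000)])],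
 ⟨p015_k0, nat_lit 0, nat_lit 0, nat_lit 0, nat_lit 0, nat_lit 993087, [nat_lit 31783200001, nat_lit 51026400000, nat_lit 68418000000], [], [nat_lit 52985468512, nat_lit 55805779828, nat_lit 39527509824, nat_lit 42984958880], nat_lit 1271250, nat_lit 1271250, nat_lit 490000, nat_lit 1100001, nat_lit 0, nat_lit 0, [nat_lit 780000, nat_lit 1435000, nat_lit 1271250], [nat_lit 8, nat_lit 40, nat_lit 80, nat_lit 80]⟩, ⟨p015_k23, nat_lit 0, nat_lit 0, nat_lit 0, nat_lit 0, nat_lit 0, [nat_lit 109392000000, nat_lit 164088000000, nat_lit 191436000000], [], [nat_lit 127127565625, nat_lit 134035937500, nat_lit 106860037500, nat_lit 112659937500], nat_lit 0, nat_lit 0, nat_lit 0, nat_lit 0, nat_lit 0, nat_lit 0, [], [nat_lit 29, nat_lit 40, nat_lit 80, nat_lit 80]⟩,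
 ⟨nat_lit 5244, nat_lit 5478, ⟨.ofNat (nat_lit 349949), .ofNat (nat_lit 499812), .ofNat (nat_lit 360628), .ofNat (nat_lit 510489), .ofNat (nat_lit 355334), .ofNat (nat_lit 501673), .ofNat (nat_lit 366027), .ofNat (nat_lit 512365)⟩, ⟨.ofNat (nat_lit 0), .ofNat (nat_lit 0), .ofNat (nat_lit 0), .ofNat (nat_lit 0), .ofNat (nat_lit 0), .ofNat (nat_lit 0), .ofNat (nat_lit 0), .ofNat (nat_lit 0)⟩⟩, [⟨nat_lit 13, nat_lit 98, nat_lit 6, nat_lit 100, nat_lit 37566076⟩]⟩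
noncomputable def p015_l182 : Lf2 := ⟨nat_lit 0, nat_lit 10, [nat_lit 0, nat_lit 5, nat_lit 5, nat_lit 20], false, nat_lit 0, nat_lit 0, nat_lit 0, nat_lit 0, ⟨nat_lit 1000, nat_lit 0, nat_lit 0, nat_lit 0, nat_lit 0, nat_lit 0, nat_lit 0, nat_lit 0, nat_lit 0, nat_lit 0, nat_lit 0, nat_lit 0, nat_lit 0, nat_lit 0, nat_lit 0, nat_lit 0, false, false⟩,
 nat_lit 0, nat_lit 17214, nat_lit 0, nat_lit 0, nat_lit 10954, nat_lit 6835, nat_lit 2243, nat_lit 140, nat_lit 0, nat_lit 2766, nat_lit 0, nat_lit 0, nat_lit 0, nat_lit 0, nat_lit 0, nat_lit 0, nat_lit 0, nat_lit 0, [],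
 ⟨p015_k17, nat_lit 0, nat_lit 0, nat_lit 680, nat_lit 0, nat_lit 951376, [nat_lit 4962000000, nat_lit 6928000001, nat_lit 13762000000], [], [nat_lit 21675797703, nat_lit 21973949095, nat_lit 21151586957, nat_lit 21502049432], nat_lit 1271250, nat_lit 1271250, nat_lit 490000, nat_lit 1100001, nat_lit 0, nat_lit 0, [nat_lit 780000, nat_lit 1100000, nat_lit 2127500], [nat_lit 42, nat_lit 40, nat_lit 80, nat_lit 80, nat_lit 13, nat_lit 249, nat_lit 40, nat_lit 7]⟩, ⟨p015_k78, nat_lit 0, nat_lit 0, nat_lit 0, nat_lit 0, nat_lit 0, [nat_lit 3965500000, nat_lit 5449500000, nat_lit 8885500000], [], [nat_lit 15246226575, nat_lit 16151730210, nat_lit 16167960850, nat_lit 17022274010], nat_lit 0, nat_lit 0, nat_lit 0, nat_lit 0, nat_lit 0, nat_lit 0, [], [nat_lit 168, nat_lit 40, nat_lit 20, nat_lit 40]⟩,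
 zbF0, []⟩
noncomputable def p015_l183 : Lf2 := ⟨nat_lit 0, nat_lit 10, [nat_lit 0, nat_lit 5, nat_lit 5, nat_lit 20], false, nat_lit 0, nat_lit 0, nat_lit 0, nat_lit 0, ⟨nat_lit 1000, nat_lit 0, nat_lit 0, nat_lit 0, nat_lit 0, nat_lit 0, nat_lit 0, nat_lit 0, nat_lit 0, nat_lit 0, nat_lit 0, nat_lit 0, nat_lit 0, nat_lit 0, nat_lit 0, nat_lit 0, false, false⟩,
 nat_lit 0, nat_lit 100000, nat_lit 0, nat_lit 0, nat_lit 65019, nat_lit 7137, nat_lit 10660, nat_lit 3041, nat_lit 0, nat_lit 2879, nat_lit 0, nat_lit 0, nat_lit 0, nat_lit 0, nat_lit 0, nat_lit 0, nat_lit 0, nat_lit 0, [],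
 ⟨p015_k73, nat_lit 0, nat_lit 0, nat_lit 692, nat_lit 0, nat_lit 964174, [nat_lit 39774000000, nat_lit 53344000001, nat_lit 94990000000], [], [nat_lit 51755811307, nat_lit 52906669989, nat_lit 40491167840, nat_lit 41927661002], nat_lit 1271250, nat_lit 1271250, nat_lit 490000, nat_lit 1100001, nat_lit 0, nat_lit 0, [nat_lit 780000, nat_lit 1100000, nat_lit 2127500], [nat_lit 42, nat_lit 40, nat_lit 80, nat_lit 80, nat_lit 13, nat_lit 249, nat_lit 40, nat_lit 7]⟩, ⟨p015_k77, nat_lit 0, nat_lit 0, nat_lit 0, nat_lit 0, nat_lit 0, [nat_lit 4688000000, nat_lit 6250000000, nat_lit 9842000000], [], [nat_lit 15686751361, nat_lit 16458829519, nat_lit 16271831465, nat_lit 17079238427], nat_lit 0, nat_lit 0, nat_lit 0, nat_lit 0, nat_lit 0, nat_lit 0, [], [nat_lit 11, nat_lit 40, nat_lit 80, nat_lit 80]⟩,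
 zbF0, []⟩
noncomputable def p015_l184 : Lf2 := ⟨nat_lit 0, nat_lit 5, [nat_lit 4, nat_lit 5, nat_lit 5, nat_lit 20], false, nat_lit 0, nat_lit 0, nat_lit 0, nat_lit 0, ⟨nat_lit 1000, nat_lit 0, nat_lit 0, nat_lit 0, nat_lit 0, nat_lit 0, nat_lit 0, nat_lit 0, nat_lit 0, nat_lit 0, nat_lit 0, nat_lit 0, nat_lit 0, nat_lit 0, nat_lit 0, nat_lit 0, false, false⟩,
 nat_lit 0, nat_lit 13078, nat_lit 0, nat_lit 0, nat_lit 8322, nat_lit 6910, nat_lit 1276, nat_lit 0, nat_lit 0, nat_lit 0, nat_lit 0, nat_lit 0, nat_lit 0, nat_lit 0, nat_lit 0, nat_lit 0, nat_lit 0, nat_lit 0, [],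
 ⟨p015_k66, nat_lit 0, nat_lit 0, nat_lit 727, nat_lit 0, nat_lit 1290163, [nat_lit 3282000000, nat_lit 4688000000, nat_lit 7968000000], [], [nat_lit 22758973744, nat_lit 23084317528, nat_lit 23721673744, nat_lit 24047017528], nat_lit 1271250, nat_lit 1271250, nat_lit 1100001, nat_lit 1785000, nat_lit 0, nat_lit 0, [nat_lit 780000, nat_lit 1100000, nat_lit 1785000], [nat_lit 36, nat_lit 40, nat_lit 80, nat_lit 80, nat_lit 7, nat_lit 272, nat_lit 60, nat_lit 9]⟩, ⟨p015_k67, nat_lit 0, nat_lit 0, nat_lit 0, nat_lit 0, nat_lit 0, [nat_lit 4688000000, nat_lit 6250000000, nat_lit 7968000000], [], [nat_lit 14324530020, nat_lit 16401412000, nat_lit 19129460540, nat_lit 21146892440], nat_lit 0, nat_lit 0, nat_lit 0, nat_lit 0, nat_lit 0, nat_lit 0, [], [nat_lit 9, nat_lit 40, nat_lit 80, nat_lit 80]⟩,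
 zbF0, []⟩
noncomputable def p015_l185 : Lf2 := ⟨nat_lit 0, nat_lit 10, [nat_lit 0, nat_lit 5, nat_lit 5, nat_lit 20], false, nat_lit 0, nat_lit 0, nat_lit 0, nat_lit 0, ⟨nat_lit 1000, nat_lit 0, nat_lit 0, nat_lit 0, nat_lit 0, nat_lit 0, nat_lit 0, nat_lit 0, nat_lit 0, nat_lit 0, nat_lit 0, nat_lit 0, nat_lit 0, nat_lit 0, nat_lit 0, nat_lit 0, false, false⟩,
 nat_lit 0, nat_lit 11516, nat_lit 0, nat_lit 0, nat_lit 7328, nat_lit 12228, nat_lit 923, nat_lit 0, nat_lit 0, nat_lit 1955, nat_lit 0, nat_lit 0, nat_lit 0, nat_lit 0, nat_lit 0, nat_lit 0, nat_lit 0, nat_lit 0, [],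
 ⟨p015_k0, nat_lit 0, nat_lit 0, nat_lit 613, nat_lit 0, nat_lit 901901, [nat_lit 3282000000, nat_lit 6250000000, nat_lit 9842000000], [], [nat_lit 30993923776, nat_lit 31375489551, nat_lit 32393449920, nat_lit 32811058320], nat_lit 1271250, nat_lit 1271250, nat_lit 1100001, nat_lit 1785000, nat_lit 0, nat_lit 0, [nat_lit 780000, nat_lit 1435000, nat_lit 1271250], [nat_lit 8, nat_lit 40, nat_lit 80, nat_lit 80, nat_lit 1, nat_lit 272, nat_lit 60, nat_lit 8]⟩, ⟨p015_k5, nat_lit 0, nat_lit 0, nat_lit 0, nat_lit 0, nat_lit 0, [nat_lit 4688000000, nat_lit 7968000000, nat_lit 9842000000], [], [nat_lit 17381209004, nat_lit 18466142664, nat_lit 23686954632, nat_lit 25178252492], nat_lit 0, nat_lit 0, nat_lit 0, nat_lit 0, nat_lit 0, nat_lit 0, [], [nat_lit 29, nat_lit 40, nat_lit 80, nat_lit 80]⟩,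
 zbF0, []⟩
noncomputable def p015_l186 : Lf2 := ⟨nat_lit 0, nat_lit 10, [nat_lit 0, nat_lit 5, nat_lit 5, nat_lit 20], false, nat_lit 0, nat_lit 0, nat_lit 0, nat_lit 0, ⟨nat_lit 1000, nat_lit 0, nat_lit 0, nat_lit 0, nat_lit 0, nat_lit 0, nat_lit 0, nat_lit 0, nat_lit 0, nat_lit 0, nat_lit 0, nat_lit 0, nat_lit 0, nat_lit 0, nat_lit 0, nat_lit 0, false, false⟩,
 nat_lit 0, nat_lit 15910, nat_lit 0, nat_lit 0, nat_lit 10124, nat_lit 10174, nat_lit 827, nat_lit 0, nat_lit 0, nat_lit 1817, nat_lit 0, nat_lit 0, nat_lit 0, nat_lit 0, nat_lit 0, nat_lit 0, nat_lit 0, nat_lit 0, [],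
 ⟨p015_k0, nat_lit 0, nat_lit 0, nat_lit 632, nat_lit 0, nat_lit 951376, [nat_lit 3282000000, nat_lit 6250000000, nat_lit 9842000000], [], [nat_lit 23433914567, nat_lit 23605216783, nat_lit 25441934039, nat_lit 25792863165], nat_lit 1271250, nat_lit 1271250, nat_lit 1100001, nat_lit 1785000, nat_lit 0, nat_lit 0, [nat_lit 780000, nat_lit 1435000, nat_lit 1271250], [nat_lit 8, nat_lit 40, nat_lit 80, nat_lit 80, nat_lit 1, nat_lit 272, nat_lit 60, nat_lit 8]⟩, ⟨p015_k23, nat_lit 0, nat_lit 0, nat_lit 0, nat_lit 0, nat_lit 0, [nat_lit 4688000000, nat_lit 7968000000, nat_lit 9842000000], [], [nat_lit 17840261441, nat_lit 18799669488, nat_lit 23231596586, nat_lit 24536504216], nat_lit 0, nat_lit 0, nat_lit 0, nat_lit 0, nat_lit 0, nat_lit 0, [], [nat_lit 29, nat_lit 40, nat_lit 80, nat_lit 80]⟩,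
 zbF0, []⟩
noncomputable def p015_l187 : Lf2 := ⟨nat_lit 0, nat_lit 10, [nat_lit 0, nat_lit 5, nat_lit 5, nat_lit 20], false, nat_lit 0, nat_lit 0, nat_lit 0, nat_lit 0, ⟨nat_lit 1000, nat_lit 0, nat_lit 0, nat_lit 0, nat_lit 0, nat_lit 0, nat_lit 0, nat_lit 0, nat_lit 0, nat_lit 0, nat_lit 0, nat_lit 0, nat_lit 0, nat_lit 0, nat_lit 0, nat_lit 0, false, false⟩,
 nat_lit 0, nat_lit 14973, nat_lit 0, nat_lit 0, nat_lit 9735, nat_lit 10174, nat_lit 2461, nat_lit 0, nat_lit 0, nat_lit 1817, nat_lit 0, nat_lit 0, nat_lit 0, nat_lit 0, nat_lit 0, nat_lit 0, nat_lit 0, nat_lit 0, [],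
 ⟨p015_k51, nat_lit 0, nat_lit 0, nat_lit 637, nat_lit 0, nat_lit 964174, [nat_lit 3282000000, nat_lit 6250000000, nat_lit 9842000000], [], [nat_lit 19305357028, nat_lit 19516947530, nat_lit 21626505920, nat_lit 22052661050], nat_lit 1271250, nat_lit 1271250, nat_lit 1100001, nat_lit 1785000, nat_lit 0, nat_lit 0, [nat_lit 780000, nat_lit 1435000, nat_lit 1271250], [nat_lit 8, nat_lit 40, nat_lit 80, nat_lit 80, nat_lit 1, nat_lit 272, nat_lit 60, nat_lit 8]⟩, ⟨p015_k23, nat_lit 0, nat_lit 0, nat_lit 0, nat_lit 0, nat_lit 0, [nat_lit 4688000000, nat_lit 7968000000, nat_lit 9842000000], [], [nat_lit 17840261441, nat_lit 18799669488, nat_lit 23231596586, nat_lit 24536504216], nat_lit 0, nat_lit 0, nat_lit 0, nat_lit 0, nat_lit 0, nat_lit 0, [], [nat_lit 29, nat_lit 40, nat_lit 80, nat_lit 80]⟩,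
 zbF0, []⟩
noncomputable def p015_l188 : Lf2 := ⟨nat_lit 0, nat_lit 5, [nat_lit 4, nat_lit 5, nat_lit 5, nat_lit 20], false, nat_lit 0, nat_lit 0, nat_lit 0, nat_lit 0, ⟨nat_lit 1000, nat_lit 0, nat_lit 0, nat_lit 0, nat_lit 0, nat_lit 0, nat_lit 0, nat_lit 0, nat_lit 0, nat_lit 0, nat_lit 0, nat_lit 0, nat_lit 0, nat_lit 0, nat_lit 0, nat_lit 0, false, false⟩,
 nat_lit 0, nat_lit 10655, nat_lit 0, nat_lit 0, nat_lit 6780, nat_lit 5843, nat_lit 1267, nat_lit 0, nat_lit 0, nat_lit 2338, nat_lit 0, nat_lit 0, nat_lit 0, nat_lit 0, nat_lit 0, nat_lit 0, nat_lit 0, nat_lit 0, [],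
 ⟨p015_k66, nat_lit 0, nat_lit 0, nat_lit 620, nat_lit 0, nat_lit 1108110, [nat_lit 3282000000, nat_lit 4688000000, nat_lit 7968000000], [], [nat_lit 30330594200, nat_lit 30654914240, nat_lit 35351118400, nat_lit 35550171400], nat_lit 1271250, nat_lit 1271250, nat_lit 1271250, nat_lit 1271250, nat_lit 0, nat_lit 0, [nat_lit 780000, nat_lit 1100000, nat_lit 1785000], [nat_lit 36, nat_lit 40, nat_lit 80, nat_lit 80, nat_lit 7, nat_lit 242, nat_lit 0, nat_lit 7]⟩, ⟨p015_k84, nat_lit 0, nat_lit 0, nat_lit 0, nat_lit 0, nat_lit 0, [nat_lit 4688000000, nat_lit 6250000000, nat_lit 9842000000], [], [nat_lit 23203253836, nat_lit 24282627790, nat_lit 34392424668, nat_lit 35067834310], nat_lit 0, nat_lit 0, nat_lit 0, nat_lit 0, nat_lit 0, nat_lit 0, [], [nat_lit 11, nat_lit 40, nat_lit 80, nat_lit 80]⟩,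
 zbF0, [⟨nat_lit 13, nat_lit 93, nat_lit 19, nat_lit 100, nat_lit 31156002⟩]⟩
noncomputable def p015_l189 : Lf2 := ⟨nat_lit 0, nat_lit 10, [nat_lit 0, nat_lit 5, nat_lit 5, nat_lit 20], false, nat_lit 0, nat_lit 0, nat_lit 0, nat_lit 0, ⟨nat_lit 1000, nat_lit 0, nat_lit 0, nat_lit 0, nat_lit 0, nat_lit 0, nat_lit 0, nat_lit 0, nat_lit 0, nat_lit 0, nat_lit 0, nat_lit 0, nat_lit 0, nat_lit 0, nat_lit 0, nat_lit 0, false, false⟩,
 nat_lit 0, nat_lit 9981, nat_lit 0, nat_lit 0, nat_lit 6351, nat_lit 5760, nat_lit 778, nat_lit 0, nat_lit 0, nat_lit 1249, nat_lit 0, nat_lit 0, nat_lit 0, nat_lit 0, nat_lit 0, nat_lit 0, nat_lit 0, nat_lit 0, [],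
 ⟨p015_k0, nat_lit 0, nat_lit 0, nat_lit 564, nat_lit 0, nat_lit 817605, [nat_lit 3282000000, nat_lit 6250000000, nat_lit 9842000000], [], [nat_lit 36497515478, nat_lit 36752722705, nat_lit 41430794444, nat_lit 41671052118], nat_lit 1271250, nat_lit 1271250, nat_lit 1271250, nat_lit 1271250, nat_lit 0, nat_lit 0, [nat_lit 780000, nat_lit 1435000, nat_lit 1271250], [nat_lit 8, nat_lit 40, nat_lit 80, nat_lit 80, nat_lit 1, nat_lit 317, nat_lit 100, nat_lit 9]⟩, ⟨p015_k1, nat_lit 0, nat_lit 0, nat_lit 0, nat_lit 0, nat_lit 0, [nat_lit 4688000000, nat_lit 7968000000, nat_lit 11872000000], [], [nat_lit 26948504060, nat_lit 27800741260, nat_lit 37024390720, nat_lit 37635001440], nat_lit 0, nat_lit 0, nat_lit 0, nat_lit 0, nat_lit 0, nat_lit 0, [], [nat_lit 21, nat_lit 40, nat_lit 80, nat_lit 80]⟩,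
 zbF0, []⟩
noncomputable def p015_l190 : Lf2 := ⟨nat_lit 0, nat_lit 5, [nat_lit 4, nat_lit 5, nat_lit 5, nat_lit 20], false, nat_lit 0, nat_lit 0, nat_lit 0, nat_lit 0, ⟨nat_lit 1000, nat_lit 0, nat_lit 0, nat_lit 0, nat_lit 0, nat_lit 0, nat_lit 0, nat_lit 0, nat_lit 0, nat_lit 0, nat_lit 0, nat_lit 0, nat_lit 0, nat_lit 0, nat_lit 0, nat_lit 0, false, false⟩,
 nat_lit 0, nat_lit 11017, nat_lit 0, nat_lit 0, nat_lit 7010, nat_lit 5301, nat_lit 1163, nat_lit 0, nat_lit 0, nat_lit 3186, nat_lit 0, nat_lit 0, nat_lit 0, nat_lit 0, nat_lit 0, nat_lit 0, nat_lit 0, nat_lit 0, [],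
 ⟨p015_k66, nat_lit 0, nat_lit 0, nat_lit 695, nat_lit 0, nat_lit 1290163, [nat_lit 3282000000, nat_lit 4688000000, nat_lit 7968000000], [], [nat_lit 31235155720, nat_lit 31459167500, nat_lit 35334542280, nat_lit 35493286330], nat_lit 1271250, nat_lit 1271250, nat_lit 1271250, nat_lit 1271250, nat_lit 0, nat_lit 0, [nat_lit 780000, nat_lit 1100000, nat_lit 1785000], [nat_lit 36, nat_lit 40, nat_lit 80, nat_lit 80, nat_lit 7, nat_lit 260, nat_lit 0, nat_lit 8]⟩, ⟨p015_k67, nat_lit 0, nat_lit 0, nat_lit 0, nat_lit 0, nat_lit 0, [nat_lit 4688000000, nat_lit 6250000000, nat_lit 7968000000], [], [nat_lit 22338236280, nat_lit 23487447430, nat_lit 33180103772, nat_lit 33891751444], nat_lit 0, nat_lit 0, nat_lit 0, nat_lit 0, nat_lit 0, nat_lit 0, [], [nat_lit 9, nat_lit 40, nat_lit 80, nat_lit 80]⟩,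
 zbF0, []⟩
noncomputable def p015_l191 : Lf2 := ⟨nat_lit 0, nat_lit 10, [nat_lit 0, nat_lit 5, nat_lit 5, nat_lit 20], false, nat_lit 0, nat_lit 0, nat_lit 0, nat_lit 0, ⟨nat_lit 1000, nat_lit 0, nat_lit 0, nat_lit 0, nat_lit 0, nat_lit 0, nat_lit 0, nat_lit 0, nat_lit 0, nat_lit 0, nat_lit 0, nat_lit 0, nat_lit 0, nat_lit 0, nat_lit 0, nat_lit 0, false, false⟩,
 nat_lit 0, nat_lit 11086, nat_lit 0, nat_lit 0, nat_lit 7054, nat_lit 5895, nat_lit 765, nat_lit 0, nat_lit 0, nat_lit 1176, nat_lit 0, nat_lit 0, nat_lit 0, nat_lit 0, nat_lit 0, nat_lit 0, nat_lit 0, nat_lit 0, [],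
 ⟨p015_k0, nat_lit 0, nat_lit 0, nat_lit 629, nat_lit 0, nat_lit 993087, [nat_lit 3282000000, nat_lit 6250000000, nat_lit 9842000000], [], [nat_lit 36391595273, nat_lit 36646520202, nat_lit 41154469840, nat_lit 41335782600], nat_lit 1271250, nat_lit 1271250, nat_lit 1271250, nat_lit 1271250, nat_lit 0, nat_lit 0, [nat_lit 780000, nat_lit 1435000, nat_lit 1271250], [nat_lit 8, nat_lit 40, nat_lit 80, nat_lit 80, nat_lit 1, nat_lit 317, nat_lit 100, nat_lit 9]⟩, ⟨p015_k5, nat_lit 0, nat_lit 0, nat_lit 0, nat_lit 0, nat_lit 0, [nat_lit 4688000000, nat_lit 7968000000, nat_lit 9842000000], [], [nat_lit 25817263360, nat_lit 26799086040, nat_lit 35825242900, nat_lit 36529937620], nat_lit 0, nat_lit 0, nat_lit 0, nat_lit 0, nat_lit 0, nat_lit 0, [], [nat_lit 29, nat_lit 40, nat_lit 80, nat_lit 80]⟩,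
 zbF0, []⟩
noncomputable def b_N_700_600_0_10 : St := ⟨false, nat_lit 1, nat_lit 0, nat_lit 2, nat_lit 40, nat_lit 280, nat_lit 290, nat_lit 240, nat_lit 280, nat_lit 36, nat_lit 400, nat_lit 0, nat_lit 0, nat_lit 0, nat_lit 0, nat_lit 0, nat_lit 0, nat_lit 0, nat_lit 40, nat_lit 600, nat_lit 0, nat_lit 0, nat_lit 800⟩
theorem d_N_700_600_0_10 (h : EB TB.env) : Dead b_N_700_600_0_10 := chkB_sound0 h (T :=
(.spl (nat_lit 2) (nat_lit 240)
(.spl (nat_lit 1) (nat_lit 260)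
(.spl (nat_lit 2) (nat_lit 120)
(.spl (nat_lit 6) (nat_lit 20)
(.spl (nat_lit 2) (nat_lit 80)
(.leaf p015_l159)
(.leaf p015_l160))
(.leaf p015_l161))
(.spl (nat_lit 0) (nat_lit 285)
(.spl (nat_lit 6) (nat_lit 20)
(.leaf p015_l162)
(.leaf p015_l163))
(.leaf p015_l164)))
(.trZ (nat_lit 0) (nat_lit 100) (nat_lit 96) (nat_lit 69) (nat_lit 48) (.spl (nat_lit 2) (nat_lit 160)
(.spl (nat_lit 2) (nat_lit 80)
(.leaf p015_l165)
(.spl (nat_lit 6) (nat_lit 20)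
(.spl (nat_lit 6) (nat_lit 8)
(.spl (nat_lit 0) (nat_lit 285)
(.spl (nat_lit 0) (nat_lit 283)
(.leaf p015_l166)
(.leaf p015_l167))
(.leaf p015_l168))
(.spl (nat_lit 1) (nat_lit 270)
(.leaf p015_l169)
(.leaf p015_l170)))
(.spl (nat_lit 1) (nat_lit 270)
(.spl (nat_lit 6) (nat_lit 32)
(.leaf p015_l171)
(.leaf p015_l172))
(.spl (nat_lit 7) (nat_lit 900)
(.spl (nat_lit 7) (nat_lit 760)
(.leaf p015_l173)
(.spl (nat_lit 8) (nat_lit 400)
(.spl (nat_lit 1) (nat_lit 275)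
(.spl (nat_lit 6) (nat_lit 32)
(.leaf p015_l174)
(.spl (nat_lit 0) (nat_lit 285)
(.leaf p015_l175)
(.leaf p015_l176)))
(.spl (nat_lit 2) (nat_lit 120)
(.spl (nat_lit 2) (nat_lit 100)
(.leaf p015_l177)
(.spl (nat_lit 2) (nat_lit 112)
(.leaf p015_l178)
(.leaf p015_l179)))
(.leaf p015_l180)))
(.leaf p015_l181)))
(.spl (nat_lit 0) (nat_lit 285)
(.leaf p015_l182)
(.leaf p015_l183))))))
(.spl (nat_lit 6) (nat_lit 20)
(.leaf p015_l184)
(.spl (nat_lit 1) (nat_lit 270)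
(.leaf p015_l185)
(.spl (nat_lit 0) (nat_lit 285)
(.leaf p015_l186)
(.leaf p015_l187)))))))
(.spl (nat_lit 1) (nat_lit 260)
(.spl (nat_lit 6) (nat_lit 20)
(.leaf p015_l188)
(.leaf p015_l189))
(.spl (nat_lit 6) (nat_lit 20)
(.leaf p015_l190)
(.leaf p015_l191))))) (by decide +kernel)
noncomputable def p015_l192 : Lf2 := ⟨nat_lit 0, nat_lit 10, [nat_lit 0, nat_lit 5, nat_lit 5, nat_lit 20], false, nat_lit 0, nat_lit 0, nat_lit 0, nat_lit 0, ⟨nat_lit 117, nat_lit 883, nat_lit 0, nat_lit 6, nat_lit 134, nat_lit 0, nat_lit 0, nat_lit 0, nat_lit 0, nat_lit 0, nat_lit 0, nat_lit 0, nat_lit 0, nat_lit 0, nat_lit 0, nat_lit 5000000, false, false⟩,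
 nat_lit 0, nat_lit 8863, nat_lit 0, nat_lit 0, nat_lit 5886, nat_lit 998, nat_lit 2221, nat_lit 0, nat_lit 0, nat_lit 444, nat_lit 0, nat_lit 0, nat_lit 0, nat_lit 0, nat_lit 0, nat_lit 353200, nat_lit 0, nat_lit 0, [(nat_lit 12, [(nat_lit 1, nat_lit 883)])],
 ⟨p015_k81, nat_lit 0, nat_lit 0, nat_lit 723, nat_lit 0, nat_lit 1128560, [nat_lit 2179486200, nat_lit 2822044400, nat_lit 3317708267], [], [nat_lit 17443098725, nat_lit 16989777925, nat_lit 16231724649, nat_lit 16448238964], nat_lit 1271250, nat_lit 1271250, nat_lit 230001, nat_lit 780000, nat_lit 0, nat_lit 0, [nat_lit 780000, nat_lit 1100000, nat_lit 1785000], [nat_lit 36, nat_lit 40, nat_lit 80, nat_lit 80, nat_lit 7, nat_lit 238, nat_lit 30, nat_lit 8]⟩, ⟨p015_k13, nat_lit 0, nat_lit 0, nat_lit 0, nat_lit 0, nat_lit 0, [nat_lit 548496000, nat_lit 731250000, nat_lit 1389024000], [], [nat_lit 2127518872, nat_lit 2327076377, nat_lit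 1728175384, nat_lit 1955410055], nat_lit 0, nat_lit 0, nat_lit 0, nat_lit 0, nat_lit 0, nat_lit 0, [], [nat_lit 48, nat_lit 40, nat_lit 80, nat_lit 80]⟩,
 ⟨nat_lit 5123, nat_lit 5245, ⟨.ofNat (nat_lit 250085), .ofNat (nat_lit 396427), .ofNat (nat_lit 271470), .ofNat (nat_lit 417812), .ofNat (nat_lit 253618), .ofNat (nat_lit 398213), .ofNat (nat_lit 275023), .ofNat (nat_lit 419618)⟩, ⟨.ofNat (nat_lit 0), .ofNat (nat_lit 0), .ofNat (nat_lit 0), .ofNat (nat_lit 0), .ofNat (nat_lit 0), .ofNat (nat_lit 0), .ofNat (nat_lit 0), .ofNat (nat_lit 0)⟩⟩, [⟨nat_lit 0, nat_lit 100, nat_lit 92, nat_lit 75, nat_lit 130358285⟩]⟩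
noncomputable def p015_l193 : Lf2 := ⟨nat_lit 0, nat_lit 10, [nat_lit 0, nat_lit 5, nat_lit 5, nat_lit 20], true, nat_lit 0, nat_lit 0, nat_lit 0, nat_lit 0, ⟨nat_lit 0, nat_lit 1000, nat_lit 0, nat_lit 6, nat_lit 137, nat_lit 0, nat_lit 0, nat_lit 0, nat_lit 0, nat_lit 0, nat_lit 0, nat_lit 0, nat_lit 0, nat_lit 0, nat_lit 0, nat_lit 5000000, false, false⟩,
 nat_lit 0, nat_lit 9281, nat_lit 0, nat_lit 0, nat_lit 6294, nat_lit 0, nat_lit 2173, nat_lit 0, nat_lit 0, nat_lit 0, nat_lit 0, nat_lit 0, nat_lit 0, nat_lit 0, nat_lit 0, nat_lit 1000000, nat_lit 0, nat_lit 0, [(nat_lit 12, [(nat_lit 2, nat_lit 1000)])],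
 ⟨p015_k82, nat_lit 0, nat_lit 0, nat_lit 724, nat_lit 0, nat_lit 1138769, [nat_lit 1992960000, nat_lit 2763600001, nat_lit 624400000], [], [nat_lit 14138105384, nat_lit 13530851833, nat_lit 12820915592, nat_lit 13074210648], nat_lit 1271250, nat_lit 1271250, nat_lit 254650, nat_lit 780000, nat_lit 0, nat_lit 0, [nat_lit 780000, nat_lit 1100000, nat_lit 1785000], [nat_lit 36, nat_lit 40, nat_lit 80, nat_lit 80, nat_lit 7, nat_lit 238, nat_lit 30, nat_lit 8]⟩, C1.Rw.none,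
 ⟨nat_lit 5000, nat_lit 5124, ⟨.ofNat (nat_lit 260847), .ofNat (nat_lit 398213), .ofNat (nat_lit 282252), .ofNat (nat_lit 419618), .ofNat (nat_lit 264284), .ofNat (nat_lit 399998), .ofNat (nat_lit 285713), .ofNat (nat_lit 421427)⟩, ⟨.ofNat (nat_lit 0), .ofNat (nat_lit 0), .ofNat (nat_lit 0), .ofNat (nat_lit 0), .ofNat (nat_lit 0), .ofNat (nat_lit 0), .ofNat (nat_lit 0), .ofNat (nat_lit 0)⟩⟩, [⟨nat_lit 0, nat_lit 100, nat_lit 91, nat_lit 77, nat_lit 17893765⟩]⟩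
noncomputable def p015_l194 : Lf2 := ⟨nat_lit 0, nat_lit 5, [nat_lit 4, nat_lit 5, nat_lit 5, nat_lit 20], false, nat_lit 0, nat_lit 0, nat_lit 0, nat_lit 0, ⟨nat_lit 252, nat_lit 748, nat_lit 0, nat_lit 6, nat_lit 146, nat_lit 0, nat_lit 0, nat_lit 0, nat_lit 0, nat_lit 0, nat_lit 0, nat_lit 0, nat_lit 0, nat_lit 0, nat_lit 0, nat_lit 5000000, false, false⟩,
 nat_lit 0, nat_lit 9622, nat_lit 0, nat_lit 0, nat_lit 6390, nat_lit 1974, nat_lit 2554, nat_lit 0, nat_lit 0, nat_lit 939, nat_lit 0, nat_lit 0, nat_lit 0, nat_lit 0, nat_lit 0, nat_lit 299200, nat_lit 0, nat_lit 0, [(nat_lit 12, [(nat_lit 1, nat_lit 748)])],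
 ⟨p015_k86, nat_lit 0, nat_lit 0, nat_lit 633, nat_lit 0, nat_lit 1168120, [nat_lit 2374227200, nat_lit 3571145600], [], [nat_lit 15477985430, nat_lit 15719592325, nat_lit 15126784760, nat_lit 15382014120], nat_lit 1271250, nat_lit 1271250, nat_lit 330400, nat_lit 780000, nat_lit 0, nat_lit 0, [nat_lit 780000, nat_lit 1435000], [nat_lit 49, nat_lit 40, nat_lit 80, nat_lit 80, nat_lit 16, nat_lit 238, nat_lit 30, nat_lit 9]⟩, ⟨p015_k80, nat_lit 0, nat_lit 0, nat_lit 0, nat_lit 0, nat_lit 0, [nat_lit 1181376000, nat_lit 2007936000], [], [nat_lit 4371349445, nat_lit 4638651087, nat_lit 3976892106, nat_lit 4183977537], nat_lit 0, nat_lit 0, nat_lit 0, nat_lit 0, nat_lit 0, nat_lit 0, [], [nat_lit 39, nat_lit 40, nat_lit 80, nat_lit 80]⟩,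
 ⟨nat_lit 5123, nat_lit 5245, ⟨.ofNat (nat_lit 300739), .ofNat (nat_lit 417812), .ofNat (nat_lit 311431), .ofNat (nat_lit 428505), .ofNat (nat_lit 303942), .ofNat (nat_lit 419618), .ofNat (nat_lit 314644), .ofNat (nat_lit 430320)⟩, ⟨.ofNat (nat_lit 0), .ofNat (nat_lit 0), .ofNat (nat_lit 0), .ofNat (nat_lit 0), .ofNat (nat_lit 0), .ofNat (nat_lit 0), .ofNat (nat_lit 0), .ofNat (nat_lit 0)⟩⟩, [⟨nat_lit 0, nat_lit 100, nat_lit 94, nat_lit 80, nat_lit 224462897⟩]⟩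
noncomputable def p015_l195 : Lf2 := ⟨nat_lit 0, nat_lit 5, [nat_lit 4, nat_lit 5, nat_lit 5, nat_lit 20], false, nat_lit 0, nat_lit 0, nat_lit 0, nat_lit 0, ⟨nat_lit 1000, nat_lit 0, nat_lit 0, nat_lit 0, nat_lit 0, nat_lit 0, nat_lit 0, nat_lit 0, nat_lit 0, nat_lit 0, nat_lit 0, nat_lit 0, nat_lit 0, nat_lit 0, nat_lit 0, nat_lit 0, false, false⟩,
 nat_lit 0, nat_lit 11618, nat_lit 0, nat_lit 0, nat_lit 7878, nat_lit 7843, nat_lit 2935, nat_lit 0, nat_lit 0, nat_lit 1472, nat_lit 0, nat_lit 0, nat_lit 0, nat_lit 0, nat_lit 0, nat_lit 0, nat_lit 0, nat_lit 0, [],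
 ⟨p015_k87, nat_lit 0, nat_lit 0, nat_lit 634, nat_lit 0, nat_lit 1175023, [nat_lit 3282000000, nat_lit 6250000000], [], [nat_lit 15533428891, nat_lit 15801856043, nat_lit 15064090904, nat_lit 15349301976], nat_lit 1271250, nat_lit 1271250, nat_lit 356250, nat_lit 780000, nat_lit 0, nat_lit 0, [nat_lit 780000, nat_lit 1435000], [nat_lit 49, nat_lit 40, nat_lit 80, nat_lit 80, nat_lit 16, nat_lit 238, nat_lit 30, nat_lit 9]⟩, ⟨p015_k80, nat_lit 0, nat_lit 0, nat_lit 0, nat_lit 0, nat_lit 0, [nat_lit 4688000000, nat_lit 7968000000], [], [nat_lit 20753441363, nat_lit 21812739583, nat_lit 19488942787, nat_lit 20311324644], nat_lit 0, nat_lit 0, nat_lit 0, nat_lit 0, nat_lit 0, nat_lit 0, [], [nat_lit 39, nat_lit 40, nat_lit 80, nat_lit 80]⟩,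
 zbF0, [⟨nat_lit 0, nat_lit 100, nat_lit 92, nat_lit 82, nat_lit 836272267⟩]⟩
noncomputable def p015_l196 : Lf2 := ⟨nat_lit 0, nat_lit 10, [nat_lit 0, nat_lit 5, nat_lit 5, nat_lit 20], false, nat_lit 0, nat_lit 0, nat_lit 0, nat_lit 0, ⟨nat_lit 397, nat_lit 603, nat_lit 0, nat_lit 6, nat_lit 147, nat_lit 0, nat_lit 0, nat_lit 0, nat_lit 0, nat_lit 0, nat_lit 0, nat_lit 0, nat_lit 0, nat_lit 0, nat_lit 0, nat_lit 5000000, false, false⟩,
 nat_lit 0, nat_lit 10792, nat_lit 0, nat_lit 0, nat_lit 7167, nat_lit 2894, nat_lit 1659, nat_lit 0, nat_lit 0, nat_lit 1229, nat_lit 0, nat_lit 0, nat_lit 0, nat_lit 0, nat_lit 0, nat_lit 150750, nat_lit 0, nat_lit 0, [(nat_lit 12, [(nat_lit 0, nat_lit 603)])],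
 ⟨p015_k81, nat_lit 0, nat_lit 0, nat_lit 618, nat_lit 0, nat_lit 934083, [nat_lit 2728446000, nat_lit 3384314001, nat_lit 5107609200], [], [nat_lit 14864999400, nat_lit 15421619035, nat_lit 15372179112, nat_lit 14698784559], nat_lit 1271250, nat_lit 1271250, nat_lit 330400, nat_lit 780000, nat_lit 0, nat_lit 0, [nat_lit 780000, nat_lit 1100000, nat_lit 1785000], [nat_lit 36, nat_lit 40, nat_lit 80, nat_lit 80, nat_lit 7, nat_lit 238, nat_lit 30, nat_lit 8]⟩, ⟨p015_k20, nat_lit 0, nat_lit 0, nat_lit 0, nat_lit 0, nat_lit 0, [nat_lit 1861136000, nat_lit 2481250000, nat_lit 3907274000], [], [nat_lit 6669461970, nat_lit 7025545389, nat_lit 6295883614, nat_lit 6642643470], nat_lit 0, nat_lit 0, nat_lit 0, nat_lit 0, nat_lit 0, nat_lit 0, [], [nat_lit 11, nat_lit 40, nat_lit 80, nat_lit 80]⟩,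
 ⟨nat_lit 5000, nat_lit 5245, ⟨.ofNat (nat_lit 300739), .ofNat (nat_lit 417811), .ofNat (nat_lit 311431), .ofNat (nat_lit 428503), .ofNat (nat_lit 307141), .ofNat (nat_lit 421425), .ofNat (nat_lit 317856), .ofNat (nat_lit 432139)⟩, ⟨.ofNat (nat_lit 0), .ofNat (nat_lit 0), .ofNat (nat_lit 0), .ofNat (nat_lit 0), .ofNat (nat_lit 0), .ofNat (nat_lit 0), .ofNat (nat_lit 0), .ofNat (nat_lit 0)⟩⟩, [⟨nat_lit 0, nat_lit 100, nat_lit 92, nat_lit 82, nat_lit 348017375⟩]⟩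
noncomputable def p015_l197 : Lf2 := ⟨nat_lit 0, nat_lit 10, [nat_lit 0, nat_lit 5, nat_lit 5, nat_lit 20], false, nat_lit 0, nat_lit 0, nat_lit 0, nat_lit 0, ⟨nat_lit 1000, nat_lit 0, nat_lit 0, nat_lit 0, nat_lit 0, nat_lit 0, nat_lit 0, nat_lit 0, nat_lit 0, nat_lit 0, nat_lit 0, nat_lit 0, nat_lit 0, nat_lit 0, nat_lit 0, nat_lit 0, false, false⟩,
 nat_lit 0, nat_lit 13330, nat_lit 0, nat_lit 0, nat_lit 8852, nat_lit 6487, nat_lit 2111, nat_lit 0, nat_lit 0, nat_lit 2484, nat_lit 0, nat_lit 0, nat_lit 0, nat_lit 0, nat_lit 0, nat_lit 0, nat_lit 0, nat_lit 0, [],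
 ⟨p015_k81, nat_lit 0, nat_lit 0, nat_lit 772, nat_lit 0, nat_lit 1302723, [nat_lit 3282000000, nat_lit 4688000000, nat_lit 7968000000], [], [nat_lit 14587242468, nat_lit 14820184632, nat_lit 15323396557, nat_lit 14294375900], nat_lit 1271250, nat_lit 1271250, nat_lit 382400, nat_lit 780000, nat_lit 0, nat_lit 0, [nat_lit 780000, nat_lit 1100000, nat_lit 1785000], [nat_lit 36, nat_lit 40, nat_lit 80, nat_lit 80, nat_lit 7, nat_lit 245, nat_lit 30, nat_lit 8]⟩, ⟨p015_k78, nat_lit 0, nat_lit 0, nat_lit 0, nat_lit 0, nat_lit 0, [nat_lit 3965500000, nat_lit 5449500000, nat_lit 8885500000], [], [nat_lit 16681887662, nat_lit 17571329652, nat_lit 16039306614, nat_lit 16764989876], nat_lit 0, nat_lit 0, nat_lit 0, nat_lit 0, nat_lit 0, nat_lit 0, [], [nat_lit 168, nat_lit 40, nat_lit 20, nat_lit 40]⟩,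
 zbF0, [⟨nat_lit 0, nat_lit 100, nat_lit 96, nat_lit 86, nat_lit 692273236⟩]⟩
noncomputable def p015_l198 : Lf2 := ⟨nat_lit 0, nat_lit 10, [nat_lit 0, nat_lit 5, nat_lit 5, nat_lit 20], false, nat_lit 0, nat_lit 0, nat_lit 0, nat_lit 0, ⟨nat_lit 833, nat_lit 167, nat_lit 0, nat_lit 6, nat_lit 156, nat_lit 0, nat_lit 0, nat_lit 0, nat_lit 0, nat_lit 0, nat_lit 0, nat_lit 0, nat_lit 0, nat_lit 0, nat_lit 0, nat_lit 5000000, false, false⟩,
 nat_lit 0, nat_lit 11661, nat_lit 0, nat_lit 0, nat_lit 7907, nat_lit 5774, nat_lit 1661, nat_lit 0, nat_lit 0, nat_lit 2282, nat_lit 0, nat_lit 0, nat_lit 0, nat_lit 0, nat_lit 0, nat_lit 41750, nat_lit 0, nat_lit 0, [(nat_lit 12, [(nat_lit 0, nat_lit 167)])],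
 ⟨p015_k82, nat_lit 0, nat_lit 0, nat_lit 771, nat_lit 0, nat_lit 1306045, [nat_lit 3128694000, nat_lit 4326946000, nat_lit 7175818800], [], [nat_lit 16209628186, nat_lit 15934618268, nat_lit 15919218419, nat_lit 15359883374], nat_lit 1271250, nat_lit 1271250, nat_lit 408851, nat_lit 780000, nat_lit 0, nat_lit 0, [nat_lit 780000, nat_lit 1100000, nat_lit 1785000], [nat_lit 36, nat_lit 40, nat_lit 80, nat_lit 80, nat_lit 7, nat_lit 246, nat_lit 30, nat_lit 8]⟩, ⟨p015_k77, nat_lit 0, nat_lit 0, nat_lit 0, nat_lit 0, nat_lit 0, [nat_lit 3905104000, nat_lit 5206250000, nat_lit 8198386000], [], [nat_lit 14255574045, nat_lit 14859599106, nat_lit 13763021004, nat_lit 14327373698], nat_lit 0, nat_lit 0, nat_lit 0, nat_lit 0, nat_lit 0, nat_lit 0, [], [nat_lit 11, nat_lit 40, nat_lit 80, nat_lit 80]⟩,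
 ⟨nat_lit 5000, nat_lit 5124, ⟨.ofNat (nat_lit 336333), .ofNat (nat_lit 430320), .ofNat (nat_lit 347036), .ofNat (nat_lit 441022), .ofNat (nat_lit 339284), .ofNat (nat_lit 432141), .ofNat (nat_lit 349998), .ofNat (nat_lit 442855)⟩, ⟨.ofNat (nat_lit 0), .ofNat (nat_lit 0), .ofNat (nat_lit 0), .ofNat (nat_lit 0), .ofNat (nat_lit 0), .ofNat (nat_lit 0), .ofNat (nat_lit 0), .ofNat (nat_lit 0)⟩⟩, [⟨nat_lit 0, nat_lit 100, nat_lit 94, nat_lit 88, nat_lit 612281789⟩]⟩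
noncomputable def p015_l199 : Lf2 := ⟨nat_lit 0, nat_lit 10, [nat_lit 0, nat_lit 5, nat_lit 5, nat_lit 20], false, nat_lit 0, nat_lit 0, nat_lit 0, nat_lit 0, ⟨nat_lit 515, nat_lit 485, nat_lit 0, nat_lit 6, nat_lit 207, nat_lit 0, nat_lit 0, nat_lit 0, nat_lit 0, nat_lit 0, nat_lit 0, nat_lit 0, nat_lit 0, nat_lit 0, nat_lit 0, nat_lit 5000000, false, false⟩,
 nat_lit 0, nat_lit 10277, nat_lit 0, nat_lit 0, nat_lit 6824, nat_lit 4124, nat_lit 2023, nat_lit 0, nat_lit 0, nat_lit 925, nat_lit 0, nat_lit 0, nat_lit 0, nat_lit 0, nat_lit 0, nat_lit 485000, nat_lit 0, nat_lit 0, [(nat_lit 12, [(nat_lit 2, nat_lit 485)])],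
 ⟨p015_k9, nat_lit 0, nat_lit 0, nat_lit 665, nat_lit 0, nat_lit 1128560, [nat_lit 2822802001, nat_lit 4162754000, nat_lit 4350094000], [], [nat_lit 17016680550, nat_lit 17215145022, nat_lit 19008741410, nat_lit 19273326602], nat_lit 1271250, nat_lit 1271250, nat_lit 780000, nat_lit 1762500, nat_lit 0, nat_lit 0, [nat_lit 780000, nat_lit 1435000, nat_lit 1271250], [nat_lit 18, nat_lit 40, nat_lit 80, nat_lit 80, nat_lit 2, nat_lit 272, nat_lit 60, nat_lit 9]⟩, ⟨p015_k1, nat_lit 0, nat_lit 0, nat_lit 0, nat_lit 0, nat_lit 0, [nat_lit 2414320000, nat_lit 4103520000, nat_lit 6114080000], [], [nat_lit 10410517758, nat_lit 11184149141, nat_lit 12449998920, nat_lit 13243694756], nat_lit 0, nat_lit 0, nat_lit 0, nat_lit 0, nat_lit 0, nat_lit 0, [], [nat_lit 21, nat_lit 40, nat_lit 80, nat_lit 80]⟩,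
 ⟨nat_lit 5123, nat_lit 5245, ⟨.ofNat (nat_lit 396427), .ofNat (nat_lit 615939), .ofNat (nat_lit 417812), .ofNat (nat_lit 637324), .ofNat (nat_lit 398213), .ofNat (nat_lit 615105), .ofNat (nat_lit 419618), .ofNat (nat_lit 636510)⟩, ⟨.ofNat (nat_lit 0), .ofNat (nat_lit 0), .ofNat (nat_lit 0), .ofNat (nat_lit 0), .ofNat (nat_lit 0), .ofNat (nat_lit 0), .ofNat (nat_lit 0), .ofNat (nat_lit 0)⟩⟩, []⟩
noncomputable def p015_l200 : Lf2 := ⟨nat_lit 0, nat_lit 10, [nat_lit 0, nat_lit 5, nat_lit 5, nat_lit 20], false, nat_lit 0, nat_lit 0, nat_lit 0, nat_lit 0, ⟨nat_lit 1000, nat_lit 0, nat_lit 0, nat_lit 0, nat_lit 0, nat_lit 0, nat_lit 0, nat_lit 0, nat_lit 0, nat_lit 0, nat_lit 0, nat_lit 0, nat_lit 0, nat_lit 0, nat_lit 0, nat_lit 0, false, false⟩,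
 nat_lit 0, nat_lit 12456, nat_lit 0, nat_lit 0, nat_lit 8272, nat_lit 7683, nat_lit 2647, nat_lit 0, nat_lit 0, nat_lit 1624, nat_lit 0, nat_lit 0, nat_lit 0, nat_lit 0, nat_lit 0, nat_lit 0, nat_lit 0, nat_lit 0, [],
 ⟨p015_k9, nat_lit 0, nat_lit 0, nat_lit 750, nat_lit 0, nat_lit 1302723, [nat_lit 3282000000, nat_lit 6250000000, nat_lit 7968000000], [], [nat_lit 18861416842, nat_lit 19072436610, nat_lit 20474331730, nat_lit 20766657706], nat_lit 1271250, nat_lit 1271250, nat_lit 780000, nat_lit 1762500, nat_lit 0, nat_lit 0, [nat_lit 780000, nat_lit 1435000, nat_lit 1271250], [nat_lit 18, nat_lit 40, nat_lit 80, nat_lit 80, nat_lit 2, nat_lit 272, nat_lit 60, nat_lit 9]⟩, ⟨p015_k5, nat_lit 0, nat_lit 0, nat_lit 0, nat_lit 0, nat_lit 0, [nat_lit 4688000000, nat_lit 7968000000, nat_lit 9842000000], [], [nat_lit 19433277347, nat_lit 21057706500, nat_lit 23081632082, nat_lit 24586287184], nat_lit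 0, nat_lit 0, nat_lit 0, nat_lit 0, nat_lit 0, nat_lit 0, [], [nat_lit 29, nat_lit 40, nat_lit 80, nat_lit 80]⟩,
 zbF0, []⟩
noncomputable def p015_l201 : Lf2 := ⟨nat_lit 0, nat_lit 10, [nat_lit 0, nat_lit 5, nat_lit 5, nat_lit 20], false, nat_lit 0, nat_lit 0, nat_lit 0, nat_lit 0, ⟨nat_lit 1000, nat_lit 0, nat_lit 0, nat_lit 0, nat_lit 0, nat_lit 0, nat_lit 0, nat_lit 0, nat_lit 0, nat_lit 0, nat_lit 0, nat_lit 0, nat_lit 0, nat_lit 0, nat_lit 0, nat_lit 0, false, false⟩,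
 nat_lit 0, nat_lit 11242, nat_lit 0, nat_lit 0, nat_lit 7623, nat_lit 7683, nat_lit 2099, nat_lit 0, nat_lit 0, nat_lit 1692, nat_lit 0, nat_lit 0, nat_lit 0, nat_lit 0, nat_lit 0, nat_lit 0, nat_lit 0, nat_lit 0, [],
 ⟨p015_k88, nat_lit 0, nat_lit 0, nat_lit 751, nat_lit 0, nat_lit 1306045, [nat_lit 3282000000, nat_lit 6250000000, nat_lit 7968000000], [], [nat_lit 18847020513, nat_lit 19028557456, nat_lit 20652807879, nat_lit 20932700313], nat_lit 1271250, nat_lit 1271250, nat_lit 780000, nat_lit 1762500, nat_lit 0, nat_lit 0, [nat_lit 780000, nat_lit 1435000, nat_lit 1271250], [nat_lit 18, nat_lit 40, nat_lit 80, nat_lit 80, nat_lit 2, nat_lit 272, nat_lit 60, nat_lit 9]⟩, ⟨p015_k1, nat_lit 0, nat_lit 0, nat_lit 0, nat_lit 0, nat_lit 0, [nat_lit 4688000000, nat_lit 7968000000, nat_lit 11872000000], [], [nat_lit 20803162316, nat_lit 23737306500, nat_lit 24279937840, nat_lit 27265887184],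 nat_lit 0, nat_lit 0, nat_lit 0, nat_lit 0, nat_lit 0, nat_lit 0, [], [nat_lit 21, nat_lit 40, nat_lit 80, nat_lit 80]⟩,
 zbF0, []⟩
noncomputable def p015_l202 : Lf2 := ⟨nat_lit 0, nat_lit 10, [nat_lit 0, nat_lit 5, nat_lit 5, nat_lit 20], false, nat_lit 0, nat_lit 0, nat_lit 0, nat_lit 0, ⟨nat_lit 1000, nat_lit 0, nat_lit 0, nat_lit 0, nat_lit 0, nat_lit 0, nat_lit 0, nat_lit 0, nat_lit 0, nat_lit 0, nat_lit 0, nat_lit 0, nat_lit 0, nat_lit 0, nat_lit 0, nat_lit 0, false, false⟩,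
 nat_lit 0, nat_lit 10617, nat_lit 0, nat_lit 0, nat_lit 7050, nat_lit 5689, nat_lit 2585, nat_lit 0, nat_lit 0, nat_lit 1006, nat_lit 0, nat_lit 0, nat_lit 0, nat_lit 0, nat_lit 0, nat_lit 0, nat_lit 0, nat_lit 0, [],
 ⟨p015_k9, nat_lit 0, nat_lit 0, nat_lit 729, nat_lit 0, nat_lit 1343823, [nat_lit 3282000000, nat_lit 6250000000, nat_lit 7968000000], [], [nat_lit 24961946750, nat_lit 25165678450, nat_lit 31163135800, nat_lit 31482237250], nat_lit 1271250, nat_lit 1271250, nat_lit 1271250, nat_lit 1271250, nat_lit 0, nat_lit 0, [nat_lit 780000, nat_lit 1435000, nat_lit 1271250], [nat_lit 18, nat_lit 40, nat_lit 80, nat_lit 80, nat_lit 2, nat_lit 270, nat_lit 0, nat_lit 8]⟩, ⟨p015_k1, nat_lit 0, nat_lit 0, nat_lit 0, nat_lit 0, nat_lit 0, [nat_lit 4688000000, nat_lit 7968000000, nat_lit 11872000000], [], [nat_lit 28629264684, nat_lit 30326011444, nat_lit 37193377704, nat_lit 38265235424], nat_lit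 0, nat_lit 0, nat_lit 0, nat_lit 0, nat_lit 0, nat_lit 0, [], [nat_lit 21, nat_lit 40, nat_lit 80, nat_lit 80]⟩,
 zbF0, []⟩
noncomputable def b_N_700_600_0_11 : St := ⟨false, nat_lit 1, nat_lit 0, nat_lit 2, nat_lit 40, nat_lit 290, nat_lit 300, nat_lit 240, nat_lit 280, nat_lit 36, nat_lit 400, nat_lit 0, nat_lit 0, nat_lit 0, nat_lit 0, nat_lit 0, nat_lit 0, nat_lit 0, nat_lit 40, nat_lit 600, nat_lit 0, nat_lit 0, nat_lit 800⟩
theorem d_N_700_600_0_11 (h : EB TB.env) : Dead b_N_700_600_0_11 := chkB_sound0 h (T :=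
(.trZ (nat_lit 0) (nat_lit 100) (nat_lit 91) (nat_lit 63) (nat_lit 40) (.spl (nat_lit 2) (nat_lit 240)
(.spl (nat_lit 2) (nat_lit 120)
(.spl (nat_lit 1) (nat_lit 260)
(.spl (nat_lit 0) (nat_lit 295)
(.leaf p015_l192)
(.trZ (nat_lit 0) (nat_lit 100) (nat_lit 90) (nat_lit 65) (nat_lit 44) (.leaf p015_l193)))
(.trZ (nat_lit 0) (nat_lit 100) (nat_lit 94) (nat_lit 73) (nat_lit 56) (.spl (nat_lit 1) (nat_lit 270)
(.spl (nat_lit 6) (nat_lit 20)
(.spl (nat_lit 0) (nat_lit 295)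
(.leaf p015_l194)
(.trZ (nat_lit 0) (nat_lit 100) (nat_lit 92) (nat_lit 75) (nat_lit 60) (.leaf p015_l195)))
(.leaf p015_l196))
(.trZ (nat_lit 0) (nat_lit 100) (nat_lit 95) (nat_lit 78) (nat_lit 64) (.spl (nat_lit 0) (nat_lit 295)
(.leaf p015_l197)
(.trZ (nat_lit 0) (nat_lit 100) (nat_lit 94) (nat_lit 80) (nat_lit 68) (.leaf p015_l198)))))))
(.spl (nat_lit 0) (nat_lit 295)
(.spl (nat_lit 1) (nat_lit 260)
(.leaf p015_l199)
(.leaf p015_l200))
(.leaf p015_l201)))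
(.leaf p015_l202)))) (by decide +kernel)
noncomputable def p015_l203 : Lf2 := ⟨nat_lit 0, nat_lit 10, [nat_lit 0, nat_lit 5, nat_lit 5, nat_lit 20], false, nat_lit 0, nat_lit 0, nat_lit 0, nat_lit 0, ⟨nat_lit 475, nat_lit 525, nat_lit 0, nat_lit 6, nat_lit 141, nat_lit 0, nat_lit 0, nat_lit 0, nat_lit 0, nat_lit 0, nat_lit 0, nat_lit 0, nat_lit 0, nat_lit 0, nat_lit 0, nat_lit 5000000, false, false⟩,
 nat_lit 0, nat_lit 10010, nat_lit 0, nat_lit 0, nat_lit 6930, nat_lit 4047, nat_lit 1160, nat_lit 0, nat_lit 0, nat_lit 1794, nat_lit 0, nat_lit 0, nat_lit 0, nat_lit 0, nat_lit 0, nat_lit 362400, nat_lit 0, nat_lit 0, [(nat_lit 15, [(nat_lit 1, nat_lit 271), (nat_lit 2, nat_lit 254)])],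
 ⟨p015_k14, nat_lit 0, nat_lit 0, nat_lit 773, nat_lit 0, nat_lit 1277874, [nat_lit 2609709961, nat_lit 3411049600, nat_lit 4235347200], [], [nat_lit 16197850139, nat_lit 17147844457, nat_lit 15545101499, nat_lit 16471661129], nat_lit 1271250, nat_lit 1271250, nat_lit 279600, nat_lit 780000, nat_lit 0, nat_lit 0, [nat_lit 780000, nat_lit 1100000, nat_lit 1785000], [nat_lit 36, nat_lit 40, nat_lit 80, nat_lit 80, nat_lit 7, nat_lit 249, nat_lit 30, nat_lit 8]⟩, ⟨p015_k13, nat_lit 0, nat_lit 0, nat_lit 0, nat_lit 0, nat_lit 0, [nat_lit 2226800000, nat_lit 2968750000, nat_lit 5639200000], [], [nat_lit 8326934451, nat_lit 9120655575, nat_lit 7023328948, nat_lit 7940690368], nat_lit 0, nat_lit 0, nat_lit 0, nat_lit 0, nat_lit 0, nat_lit 0, [], [nat_lit 48, nat_lit 40, nat_lit 80, nat_lit 80]⟩,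
 ⟨nat_lit 4472, nat_lit 5000, ⟨.ofNat (nat_lit 271418), .ofNat (nat_lit 399984), .ofNat (nat_lit 292837), .ofNat (nat_lit 421400), .ofNat (nat_lit 284805), .ofNat (nat_lit 407160), .ofNat (nat_lit 306362), .ofNat (nat_lit 428715)⟩, ⟨.ofNat (nat_lit 0), .ofNat (nat_lit 0), .ofNat (nat_lit 0), .ofNat (nat_lit 0), .ofNat (nat_lit 0), .ofNat (nat_lit 0), .ofNat (nat_lit 0), .ofNat (nat_lit 0)⟩⟩, [⟨nat_lit 0, nat_lit 100, nat_lit 84, nat_lit 85, nat_lit 482560414⟩]⟩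
noncomputable def p015_l204 : Lf2 := ⟨nat_lit 0, nat_lit 10, [nat_lit 0, nat_lit 5, nat_lit 5, nat_lit 20], false, nat_lit 0, nat_lit 0, nat_lit 0, nat_lit 0, ⟨nat_lit 1000, nat_lit 0, nat_lit 0, nat_lit 0, nat_lit 0, nat_lit 0, nat_lit 0, nat_lit 0, nat_lit 0, nat_lit 0, nat_lit 0, nat_lit 0, nat_lit 0, nat_lit 0, nat_lit 0, nat_lit 0, false, false⟩,
 nat_lit 0, nat_lit 11380, nat_lit 0, nat_lit 0, nat_lit 7878, nat_lit 6289, nat_lit 1511, nat_lit 0, nat_lit 0, nat_lit 2537, nat_lit 0, nat_lit 0, nat_lit 0, nat_lit 0, nat_lit 0, nat_lit 0, nat_lit 0, nat_lit 0, [],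
 ⟨p015_k14, nat_lit 0, nat_lit 0, nat_lit 842, nat_lit 0, nat_lit 1433028, [nat_lit 3282000000, nat_lit 4688000000, nat_lit 7968000000], [], [nat_lit 17993822501, nat_lit 19113789614, nat_lit 17364157804, nat_lit 18106659876], nat_lit 1271250, nat_lit 1271250, nat_lit 382400, nat_lit 780000, nat_lit 0, nat_lit 0, [nat_lit 780000, nat_lit 1100000, nat_lit 1785000], [nat_lit 36, nat_lit 40, nat_lit 80, nat_lit 80, nat_lit 7, nat_lit 266, nat_lit 30, nat_lit 9]⟩, ⟨p015_k74, nat_lit 0, nat_lit 0, nat_lit 0, nat_lit 0, nat_lit 0, [nat_lit 3965500000, nat_lit 5449500000, nat_lit 9842000000], [], [nat_lit 17324496564, nat_lit 18960607901, nat_lit 16767497899, nat_lit 18109683872], nat_lit 0, nat_lit 0, nat_lit 0, nat_lit 0, nat_lit 0, nat_lit 0, [], [nat_lit 169, nat_lit 40, nat_lit 20, nat_lit 40]⟩,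
 zbF0, [⟨nat_lit 0, nat_lit 100, nat_lit 87, nat_lit 95, nat_lit 855953257⟩]⟩
noncomputable def p015_l205 : Lf2 := ⟨nat_lit 0, nat_lit 10, [nat_lit 0, nat_lit 5, nat_lit 5, nat_lit 20], false, nat_lit 0, nat_lit 0, nat_lit 0, nat_lit 0, ⟨nat_lit 1000, nat_lit 0, nat_lit 0, nat_lit 0, nat_lit 0, nat_lit 0, nat_lit 0, nat_lit 0, nat_lit 0, nat_lit 0, nat_lit 0, nat_lit 0, nat_lit 0, nat_lit 0, nat_lit 0, nat_lit 0, false, false⟩,
 nat_lit 0, nat_lit 10638, nat_lit 0, nat_lit 0, nat_lit 7364, nat_lit 7683, nat_lit 1855, nat_lit 0, nat_lit 0, nat_lit 1692, nat_lit 0, nat_lit 0, nat_lit 0, nat_lit 0, nat_lit 0, nat_lit 0, nat_lit 0, nat_lit 0, [],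
 ⟨p015_k8, nat_lit 0, nat_lit 0, nat_lit 769, nat_lit 0, nat_lit 1349965, [nat_lit 3282000000, nat_lit 6250000000, nat_lit 7968000000], [], [nat_lit 19448772258, nat_lit 19851860591, nat_lit 29487106989, nat_lit 29921837553], nat_lit 1271250, nat_lit 1271250, nat_lit 780000, nat_lit 3072500, nat_lit 0, nat_lit 0, [nat_lit 780000, nat_lit 1435000, nat_lit 1271250], [nat_lit 18, nat_lit 40, nat_lit 80, nat_lit 80, nat_lit 2, nat_lit 317, nat_lit 100, nat_lit 10]⟩, ⟨p015_k1, nat_lit 0, nat_lit 0, nat_lit 0, nat_lit 0, nat_lit 0, [nat_lit 4688000000, nat_lit 7968000000, nat_lit 11872000000], [], [nat_lit 20803162316, nat_lit 23737306500, nat_lit 38741460772, nat_lit 40257901348], nat_lit 0, nat_lit 0, nat_lit 0, nat_lit 0, nat_lit 0, nat_lit 0, [], [nat_lit 21, nat_lit 40, nat_lit 80, nat_lit 80]⟩,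
 zbF0, []⟩
noncomputable def p015_l206 : Lf2 := ⟨nat_lit 0, nat_lit 10, [nat_lit 0, nat_lit 5, nat_lit 5, nat_lit 20], false, nat_lit 0, nat_lit 0, nat_lit 0, nat_lit 0, ⟨nat_lit 1000, nat_lit 0, nat_lit 0, nat_lit 0, nat_lit 0, nat_lit 0, nat_lit 0, nat_lit 0, nat_lit 0, nat_lit 0, nat_lit 0, nat_lit 0, nat_lit 0, nat_lit 0, nat_lit 0, nat_lit 0, false, false⟩,
 nat_lit 0, nat_lit 10702, nat_lit 0, nat_lit 0, nat_lit 7715, nat_lit 7683, nat_lit 1672, nat_lit 0, nat_lit 0, nat_lit 1692, nat_lit 0, nat_lit 0, nat_lit 0, nat_lit 0, nat_lit 0, nat_lit 0, nat_lit 0, nat_lit 0, [],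
 ⟨p015_k83, nat_lit 0, nat_lit 0, nat_lit 771, nat_lit 0, nat_lit 1356796, [nat_lit 3282000000, nat_lit 6250000000, nat_lit 7968000000], [], [nat_lit 18626599555, nat_lit 19049609190, nat_lit 28348512555, nat_lit 28806913520], nat_lit 1271250, nat_lit 1271250, nat_lit 780000, nat_lit 3072500, nat_lit 0, nat_lit 0, [nat_lit 780000, nat_lit 1435000, nat_lit 1271250], [nat_lit 18, nat_lit 40, nat_lit 80, nat_lit 80, nat_lit 2, nat_lit 317, nat_lit 100, nat_lit 10]⟩, ⟨p015_k1, nat_lit 0, nat_lit 0, nat_lit 0, nat_lit 0, nat_lit 0, [nat_lit 4688000000, nat_lit 7968000000, nat_lit 11872000000], [], [nat_lit 20803162316, nat_lit 23737306500, nat_lit 38741460772, nat_lit 40257901348], nat_lit 0, nat_lit 0, nat_lit 0, nat_lit 0, nat_lit 0, nat_lit 0, [], [nat_lit 21, nat_lit 40, nat_lit 80, nat_lit 80]⟩,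
 zbF0, []⟩
noncomputable def b_N_700_600_0_12 : St := ⟨false, nat_lit 1, nat_lit 0, nat_lit 2, nat_lit 40, nat_lit 300, nat_lit 320, nat_lit 240, nat_lit 280, nat_lit 36, nat_lit 400, nat_lit 0, nat_lit 0, nat_lit 0, nat_lit 0, nat_lit 0, nat_lit 0, nat_lit 0, nat_lit 40, nat_lit 600, nat_lit 0, nat_lit 0, nat_lit 800⟩
theorem d_N_700_600_0_12 (h : EB TB.env) : Dead b_N_700_600_0_12 := chkB_sound0 h (T :=
(.trZ (nat_lit 0) (nat_lit 100) (nat_lit 88) (nat_lit 68) (nat_lit 48) (.spl (nat_lit 2) (nat_lit 120)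
(.spl (nat_lit 1) (nat_lit 260)
(.leaf p015_l203)
(.trZ (nat_lit 0) (nat_lit 100) (nat_lit 91) (nat_lit 77) (nat_lit 64) (.leaf p015_l204)))
(.spl (nat_lit 0) (nat_lit 310)
(.leaf p015_l205)
(.leaf p015_l206))))) (by decide +kernel)
noncomputable def p015_l207 : Lf2 := ⟨nat_lit 0, nat_lit 10, [nat_lit 0, nat_lit 5, nat_lit 5, nat_lit 20], true, nat_lit 0, nat_lit 0, nat_lit 0, nat_lit 0, ⟨nat_lit 0, nat_lit 0, nat_lit 1000, nat_lit 6, nat_lit 124, nat_lit 0, nat_lit 0, nat_lit 0, nat_lit 0, nat_lit 215, nat_lit 144150, nat_lit 308, nat_lit 61102407, nat_lit 0, nat_lit 0, nat_lit 1489704, false, false⟩,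
 nat_lit 0, nat_lit 0, nat_lit 0, nat_lit 0, nat_lit 3640, nat_lit 0, nat_lit 161, nat_lit 0, nat_lit 0, nat_lit 0, nat_lit 0, nat_lit 0, nat_lit 0, nat_lit 0, nat_lit 86, nat_lit 400000, nat_lit 0, nat_lit 0, [(nat_lit 12, [(nat_lit 5, nat_lit 1000)]), (nat_lit 15, [(nat_lit 5, nat_lit 1000)])],
 ⟨p015_k0, nat_lit 0, nat_lit 0, nat_lit 292, nat_lit 0, nat_lit 0, [nat_lit 2347200000, nat_lit 1180400000, nat_lit 174400000], [], [nat_lit 15973961405, nat_lit 19077342488, nat_lit 14678617610, nat_lit 17418295445], nat_lit 0, nat_lit 0, nat_lit 0, nat_lit 0, nat_lit 0, nat_lit 0, [], [nat_lit 8, nat_lit 40, nat_lit 80, nat_lit 80, nat_lit 1, nat_lit 226, nat_lit 20, nat_lit 7]⟩, C1.Rw.none,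
 ⟨nat_lit 4472, nat_lit 5478, ⟨.ofNat (nat_lit 235487), .ofNat (nat_lit 317898), .ofNat (nat_lit 278138), .ofNat (nat_lit 360546), .ofNat (nat_lit 264421), .ofNat (nat_lit 339182), .ofNat (nat_lit 307491), .ofNat (nat_lit 382248)⟩, ⟨.ofNat (nat_lit 0), .ofNat (nat_lit 0), .ofNat (nat_lit 0), .ofNat (nat_lit 0), .ofNat (nat_lit 0), .ofNat (nat_lit 0), .ofNat (nat_lit 0), .ofNat (nat_lit 0)⟩⟩, [⟨nat_lit 0, nat_lit 100, nat_lit 91, nat_lit 77, nat_lit 285103637⟩]⟩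
noncomputable def p015_l208 : Lf2 := ⟨nat_lit 0, nat_lit 10, [nat_lit 0, nat_lit 5, nat_lit 5, nat_lit 20], true, nat_lit 0, nat_lit 0, nat_lit 0, nat_lit 0, ⟨nat_lit 0, nat_lit 0, nat_lit 1000, nat_lit 6, nat_lit 154, nat_lit 0, nat_lit 0, nat_lit 0, nat_lit 0, nat_lit 215, nat_lit 224267, nat_lit 331, nat_lit 58324073, nat_lit 0, nat_lit 0, nat_lit 1927092, false, false⟩,
 nat_lit 0, nat_lit 0, nat_lit 0, nat_lit 0, nat_lit 4451, nat_lit 0, nat_lit 0, nat_lit 0, nat_lit 0, nat_lit 0, nat_lit 0, nat_lit 0, nat_lit 0, nat_lit 0, nat_lit 57, nat_lit 250000, nat_lit 0, nat_lit 0, [(nat_lit 12, [(nat_lit 4, nat_lit 1000)]), (nat_lit 15, [(nat_lit 4, nat_lit 1000)])],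
 ⟨p015_k2, nat_lit 0, nat_lit 0, nat_lit 180, nat_lit 0, nat_lit 0, [nat_lit 3096000001, nat_lit 120400000], [], [nat_lit 16749282617, nat_lit 19779397388, nat_lit 17116864691, nat_lit 19924094232], nat_lit 0, nat_lit 0, nat_lit 0, nat_lit 0, nat_lit 0, nat_lit 0, [], [nat_lit 82, nat_lit 40, nat_lit 80, nat_lit 80, nat_lit 63, nat_lit 238, nat_lit 30, nat_lit 7]⟩, C1.Rw.none,
 ⟨nat_lit 4472, nat_lit 5478, ⟨.ofNat (nat_lit 317898), .ofNat (nat_lit 392815), .ofNat (nat_lit 360546), .ofNat (nat_lit 435455), .ofNat (nat_lit 339182), .ofNat (nat_lit 407143), .ofNat (nat_lit 382248), .ofNat (nat_lit 450202)⟩, ⟨.ofNat (nat_lit 0), .ofNat (nat_lit 0), .ofNat (nat_lit 0), .ofNat (nat_lit 0), .ofNat (nat_lit 0), .ofNat (nat_lit 0), .ofNat (nat_lit 0), .ofNat (nat_lit 0)⟩⟩, []⟩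
noncomputable def p015_l209 : Lf2 := ⟨nat_lit 0, nat_lit 10, [nat_lit 0, nat_lit 5, nat_lit 5, nat_lit 20], true, nat_lit 0, nat_lit 0, nat_lit 0, nat_lit 0, ⟨nat_lit 0, nat_lit 0, nat_lit 1000, nat_lit 6, nat_lit 207, nat_lit 0, nat_lit 0, nat_lit 0, nat_lit 0, nat_lit 215, nat_lit 6420, nat_lit 200, nat_lit 52833029, nat_lit 0, nat_lit 0, nat_lit 2579338, false, false⟩,
 nat_lit 0, nat_lit 0, nat_lit 0, nat_lit 1510, nat_lit 4417, nat_lit 0, nat_lit 0, nat_lit 0, nat_lit 0, nat_lit 0, nat_lit 0, nat_lit 0, nat_lit 0, nat_lit 0, nat_lit 57, nat_lit 250000, nat_lit 0, nat_lit 0, [(nat_lit 12, [(nat_lit 4, nat_lit 1000)]), (nat_lit 15, [(nat_lit 4, nat_lit 1000)])],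
 ⟨p015_k2, nat_lit 0, nat_lit 0, nat_lit 171, nat_lit 0, nat_lit 0, [nat_lit 3096000001, nat_lit 120400000], [], [nat_lit 17144228231, nat_lit 19905807944, nat_lit 19955704241, nat_lit 22278045776], nat_lit 0, nat_lit 0, nat_lit 0, nat_lit 0, nat_lit 0, nat_lit 0, [], [nat_lit 82, nat_lit 40, nat_lit 80, nat_lit 80, nat_lit 63, nat_lit 272, nat_lit 60, nat_lit 8]⟩, C1.Rw.none,
 ⟨nat_lit 4472, nat_lit 5478, ⟨.ofNat (nat_lit 392815), .ofNat (nat_lit 617523), .ofNat (nat_lit 414138), .ofNat (nat_lit 638835), .ofNat (nat_lit 407143), .ofNat (nat_lit 610987), .ofNat (nat_lit 428676), .ofNat (nat_lit 632509)⟩, ⟨.ofNat (nat_lit 0), .ofNat (nat_lit 0), .ofNat (nat_lit 0), .ofNat (nat_lit 0), .ofNat (nat_lit 0), .ofNat (nat_lit 0), .ofNat (nat_lit 0), .ofNat (nat_lit 0)⟩⟩, []⟩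
noncomputable def p015_l210 : Lf2 := ⟨nat_lit 0, nat_lit 10, [nat_lit 0, nat_lit 5, nat_lit 5, nat_lit 20], false, nat_lit 0, nat_lit 0, nat_lit 0, nat_lit 0, ⟨nat_lit 120, nat_lit 0, nat_lit 880, nat_lit 6, nat_lit 215, nat_lit 0, nat_lit 0, nat_lit 0, nat_lit 0, nat_lit 215, nat_lit 49368, nat_lit 200, nat_lit 51949301, nat_lit 0, nat_lit 0, nat_lit 2663573, false, false⟩,
 nat_lit 0, nat_lit 0, nat_lit 1960, nat_lit 0, nat_lit 3404, nat_lit 1140, nat_lit 168, nat_lit 0, nat_lit 0, nat_lit 100, nat_lit 0, nat_lit 0, nat_lit 0, nat_lit 0, nat_lit 43, nat_lit 352000, nat_lit 0, nat_lit 0, [(nat_lit 12, [(nat_lit 5, nat_lit 880)])],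
 ⟨p015_k0, nat_lit 0, nat_lit 0, nat_lit 173, nat_lit 0, nat_lit 0, [nat_lit 2001744000, nat_lit 1139493334, nat_lit 222000000], [], [nat_lit 16452169760, nat_lit 17601058160, nat_lit 19306667880, nat_lit 20254813688], nat_lit 0, nat_lit 0, nat_lit 0, nat_lit 0, nat_lit 0, nat_lit 0, [], [nat_lit 8, nat_lit 40, nat_lit 80, nat_lit 80, nat_lit 1, nat_lit 272, nat_lit 60, nat_lit 8]⟩, ⟨p015_k5, nat_lit 0, nat_lit 0, nat_lit 716, nat_lit 0, nat_lit 1046115, [nat_lit 562560000, nat_lit 956160000, nat_lit 1181040000], [], [nat_lit 3700627080, nat_lit 3688143720, nat_lit 4106686440, nat_lit 3569511600], nat_lit 1271250, nat_lit 1271250, nat_lit 780000, nat_lit 1762500, nat_lit 0, nat_lit 0, [nat_lit 1100000, nat_lit 1785000, nat_lit 1271250], [nat_lit 29, nat_lit 40, nat_lit 80, nat_lit 80, nat_lit 17, nat_lit 373, nat_lit 150, nat_lit 11]⟩,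
 ⟨nat_lit 5000, nat_lit 5478, ⟨.ofNat (nat_lit 414199), .ofNat (nat_lit 638961), .ofNat (nat_lit 435548), .ofNat (nat_lit 660309), .ofNat (nat_lit 421423), .ofNat (nat_lit 635671), .ofNat (nat_lit 442843), .ofNat (nat_lit 657090)⟩, ⟨.ofNat (nat_lit 0), .ofNat (nat_lit 0), .ofNat (nat_lit 0), .ofNat (nat_lit 0), .ofNat (nat_lit 0), .ofNat (nat_lit 0), .ofNat (nat_lit 0), .ofNat (nat_lit 0)⟩⟩, []⟩
noncomputable def p015_l211 : Lf2 := ⟨nat_lit 0, nat_lit 10, [nat_lit 0, nat_lit 5, nat_lit 5, nat_lit 20], true, nat_lit 0, nat_lit 0, nat_lit 0, nat_lit 0, ⟨nat_lit 0, nat_lit 304, nat_lit 696, nat_lit 6, nat_lit 216, nat_lit 0, nat_lit 0, nat_lit 0, nat_lit 0, nat_lit 215, nat_lit 42926, nat_lit 200, nat_lit 51858550, nat_lit 15141450, nat_lit 0, nat_lit 2671937, false, false⟩,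
 nat_lit 0, nat_lit 0, nat_lit 0, nat_lit 0, nat_lit 4408, nat_lit 0, nat_lit 0, nat_lit 0, nat_lit 0, nat_lit 0, nat_lit 0, nat_lit 0, nat_lit 0, nat_lit 0, nat_lit 4, nat_lit 250000, nat_lit 0, nat_lit 0, [(nat_lit 15, [(nat_lit 0, nat_lit 304), (nat_lit 4, nat_lit 696)])],
 ⟨p015_k8, nat_lit 0, nat_lit 0, nat_lit 150, nat_lit 0, nat_lit 0, [nat_lit 2391456000, nat_lit 515516800, nat_lit 50576000], [], [nat_lit 17629631568, nat_lit 19098728016, nat_lit 20621918064, nat_lit 22061943840], nat_lit 0, nat_lit 0, nat_lit 0, nat_lit 0, nat_lit 0, nat_lit 0, [], [nat_lit 18, nat_lit 40, nat_lit 80, nat_lit 80, nat_lit 2, nat_lit 272, nat_lit 60, nat_lit 9]⟩, C1.Rw.none,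
 ⟨nat_lit 4472, nat_lit 5000, ⟨.ofNat (nat_lit 421400), .ofNat (nat_lit 635672), .ofNat (nat_lit 442816), .ofNat (nat_lit 657088), .ofNat (nat_lit 428715), .ofNat (nat_lit 632635), .ofNat (nat_lit 450269), .ofNat (nat_lit 654189)⟩, ⟨.ofNat (nat_lit 0), .ofNat (nat_lit 0), .ofNat (nat_lit 0), .ofNat (nat_lit 0), .ofNat (nat_lit 0), .ofNat (nat_lit 0), .ofNat (nat_lit 0), .ofNat (nat_lit 0)⟩⟩, []⟩
noncomputable def b_N_700_600_0_13 : St := ⟨false, nat_lit 0, nat_lit 1, nat_lit 1, nat_lit 40, nat_lit 280, nat_lit 320, nat_lit 240, nat_lit 280, nat_lit 36, nat_lit 240, nat_lit 0, nat_lit 0, nat_lit 0, nat_lit 0, nat_lit 0, nat_lit 0, nat_lit 40, nat_lit 80, nat_lit 0, nat_lit 0, nat_lit 0, nat_lit 0⟩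
theorem d_N_700_600_0_13 (h : EB TB.env) : Dead b_N_700_600_0_13 := chkB_sound0 h (T :=
(.spl (nat_lit 2) (nat_lit 120)
(.spl (nat_lit 2) (nat_lit 80)
(.leaf p015_l207)
(.leaf p015_l208))
(.spl (nat_lit 1) (nat_lit 260)
(.leaf p015_l209)
(.spl (nat_lit 0) (nat_lit 300)
(.leaf p015_l210)
(.leaf p015_l211))))) (by decide +kernel)
noncomputable def p015_l212 : Lf2 := ⟨nat_lit 0, nat_lit 10, [nat_lit 0, nat_lit 5, nat_lit 5, nat_lit 20], false, nat_lit 0, nat_lit 0, nat_lit 0, nat_lit 0, ⟨nat_lit 168, nat_lit 832, nat_lit 0, nat_lit 6, nat_lit 278, nat_lit 0, nat_lit 0, nat_lit 0, nat_lit 0, nat_lit 0, nat_lit 0, nat_lit 0, nat_lit 45128125, nat_lit 21871875, nat_lit 0, nat_lit 3158164, true, true⟩,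
 nat_lit 0, nat_lit 0, nat_lit 2924, nat_lit 0, nat_lit 3918, nat_lit 1547, nat_lit 485, nat_lit 0, nat_lit 0, nat_lit 135, nat_lit 0, nat_lit 0, nat_lit 0, nat_lit 0, nat_lit 0, nat_lit 332800, nat_lit 0, nat_lit 0, [(nat_lit 12, [(nat_lit 1, nat_lit 832)])],
 ⟨p015_k0, nat_lit 0, nat_lit 0, nat_lit 184, nat_lit 0, nat_lit 0, [nat_lit 2272284800, nat_lit 3314038401, nat_lit 3846940800], [], [nat_lit 22458838185, nat_lit 22959575353, nat_lit 25907588201, nat_lit 26326325785], nat_lit 0, nat_lit 0, nat_lit 0, nat_lit 0, nat_lit 0, nat_lit 0, [], [nat_lit 8, nat_lit 40, nat_lit 80, nat_lit 80, nat_lit 1, nat_lit 317, nat_lit 100, nat_lit 9]⟩, ⟨p015_k1, nat_lit 0, nat_lit 0, nat_lit 589, nat_lit 0, nat_lit 762179, [nat_lit 787584000, nat_lit 1338624000, nat_lit 1994496000], [], [nat_lit 6019324648, nat_lit 6035237692, nat_lit 6262890148, nat_lit 6278803192], nat_lit 1271250, nat_lit 1271250, nat_lit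 1271250, nat_lit 1271250, nat_lit 0, nat_lit 0, [nat_lit 1100000, nat_lit 1785000, nat_lit 1271250], [nat_lit 21, nat_lit 40, nat_lit 80, nat_lit 80, nat_lit 14, nat_lit 373, nat_lit 150, nat_lit 9]⟩,
 ⟨nat_lit 5244, nat_lit 5478, ⟨.ofNat (nat_lit 617638), .ofNat (nat_lit 767497), .ofNat (nat_lit 628316), .ofNat (nat_lit 778175), .ofNat (nat_lit 615933), .ofNat (nat_lit 762268), .ofNat (nat_lit 626625), .ofNat (nat_lit 772960)⟩, ⟨.ofNat (nat_lit 0), .ofNat (nat_lit 0), .ofNat (nat_lit 0), .ofNat (nat_lit 0), .ofNat (nat_lit 0), .ofNat (nat_lit 0), .ofNat (nat_lit 0), .ofNat (nat_lit 0)⟩⟩, []⟩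
noncomputable def p015_l213 : Lf2 := ⟨nat_lit 0, nat_lit 10, [nat_lit 0, nat_lit 5, nat_lit 5, nat_lit 20], false, nat_lit 0, nat_lit 0, nat_lit 0, nat_lit 0, ⟨nat_lit 222, nat_lit 778, nat_lit 0, nat_lit 6, nat_lit 283, nat_lit 0, nat_lit 0, nat_lit 0, nat_lit 0, nat_lit 0, nat_lit 0, nat_lit 0, nat_lit 44677012, nat_lit 22322988, nat_lit 0, nat_lit 3182034, true, true⟩,
 nat_lit 0, nat_lit 0, nat_lit 2967, nat_lit 0, nat_lit 3981, nat_lit 1648, nat_lit 517, nat_lit 0, nat_lit 0, nat_lit 161, nat_lit 0, nat_lit 0, nat_lit 0, nat_lit 0, nat_lit 0, nat_lit 311200, nat_lit 0, nat_lit 0, [(nat_lit 12, [(nat_lit 1, nat_lit 778)])],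
 ⟨p015_k0, nat_lit 0, nat_lit 0, nat_lit 184, nat_lit 0, nat_lit 0, [nat_lit 2337819200, nat_lit 3504593601, nat_lit 4236043200], [], [nat_lit 22655396345, nat_lit 23159401701, nat_lit 26123330617, nat_lit 26542516729], nat_lit 0, nat_lit 0, nat_lit 0, nat_lit 0, nat_lit 0, nat_lit 0, [], [nat_lit 8, nat_lit 40, nat_lit 80, nat_lit 80, nat_lit 1, nat_lit 317, nat_lit 100, nat_lit 9]⟩, ⟨p015_k6, nat_lit 0, nat_lit 0, nat_lit 548, nat_lit 0, nat_lit 796962, [nat_lit 1040736000, nat_lit 1768896000, nat_lit 2184924000], [], [nat_lit 8666937544, nat_lit 8700730112, nat_lit 9002961402, nat_lit 9030948596], nat_lit 1271250, nat_lit 1271250, nat_lit 1271250, nat_lit 1271250, nat_lit 0, nat_lit 0, [nat_lit 1100000, nat_lit 1785000, nat_lit 1271250], [nat_lit 29, nat_lit 40, nat_lit 80, nat_lit 80, nat_lit 17, nat_lit 373, nat_lit 150, nat_lit 10]⟩,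
 ⟨nat_lit 5244, nat_lit 5478, ⟨.ofNat (nat_lit 628316), .ofNat (nat_lit 778175), .ofNat (nat_lit 638993), .ofNat (nat_lit 788852), .ofNat (nat_lit 626625), .ofNat (nat_lit 772960), .ofNat (nat_lit 637316), .ofNat (nat_lit 783652)⟩, ⟨.ofNat (nat_lit 0), .ofNat (nat_lit 0), .ofNat (nat_lit 0), .ofNat (nat_lit 0), .ofNat (nat_lit 0), .ofNat (nat_lit 0), .ofNat (nat_lit 0), .ofNat (nat_lit 0)⟩⟩, []⟩
noncomputable def p015_l214 : Lf2 := ⟨nat_lit 0, nat_lit 10, [nat_lit 0, nat_lit 5, nat_lit 5, nat_lit 20], false, nat_lit 0, nat_lit 0, nat_lit 0, nat_lit 0, ⟨nat_lit 60, nat_lit 940, nat_lit 0, nat_lit 6, nat_lit 279, nat_lit 0, nat_lit 0, nat_lit 0, nat_lit 0, nat_lit 0, nat_lit 0, nat_lit 0, nat_lit 45046552, nat_lit 21953448, nat_lit 0, nat_lit 3162556, true, true⟩,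
 nat_lit 0, nat_lit 0, nat_lit 1041, nat_lit 0, nat_lit 4130, nat_lit 550, nat_lit 0, nat_lit 0, nat_lit 0, nat_lit 48, nat_lit 0, nat_lit 0, nat_lit 0, nat_lit 0, nat_lit 0, nat_lit 235000, nat_lit 0, nat_lit 0, [(nat_lit 12, [(nat_lit 0, nat_lit 940)])],
 ⟨p015_k9, nat_lit 0, nat_lit 0, nat_lit 160, nat_lit 0, nat_lit 0, [nat_lit 2419080000, nat_lit 3077688000, nat_lit 3522844000], [], [nat_lit 23950786370, nat_lit 24511879540, nat_lit 27712582510, nat_lit 28173827900], nat_lit 0, nat_lit 0, nat_lit 0, nat_lit 0, nat_lit 0, nat_lit 0, [], [nat_lit 18, nat_lit 40, nat_lit 80, nat_lit 80, nat_lit 2, nat_lit 203, nat_lit 0, nat_lit 6]⟩, ⟨p015_k1, nat_lit 0, nat_lit 0, nat_lit 712, nat_lit 0, nat_lit 1002799, [nat_lit 281280000, nat_lit 478080000, nat_lit 712320000], [], [nat_lit 2160406400, nat_lit 2172494820, nat_lit 2245966400, nat_lit 2258054820], nat_lit 1271250, nat_lit 1271250, nat_lit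 1271250, nat_lit 1271250, nat_lit 0, nat_lit 0, [nat_lit 1100000, nat_lit 1785000, nat_lit 1271250], [nat_lit 21, nat_lit 40, nat_lit 80, nat_lit 80, nat_lit 14, nat_lit 373, nat_lit 150, nat_lit 9]⟩,
 ⟨nat_lit 5000, nat_lit 5245, ⟨.ofNat (nat_lit 615934), .ofNat (nat_lit 762271), .ofNat (nat_lit 637316), .ofNat (nat_lit 783653), .ofNat (nat_lit 614277), .ofNat (nat_lit 757129), .ofNat (nat_lit 635703), .ofNat (nat_lit 778555)⟩, ⟨.ofNat (nat_lit 0), .ofNat (nat_lit 0), .ofNat (nat_lit 0), .ofNat (nat_lit 0), .ofNat (nat_lit 0), .ofNat (nat_lit 0), .ofNat (nat_lit 0), .ofNat (nat_lit 0)⟩⟩, []⟩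
noncomputable def p015_l215 : Lf2 := ⟨nat_lit 0, nat_lit 10, [nat_lit 0, nat_lit 5, nat_lit 5, nat_lit 20], false, nat_lit 0, nat_lit 0, nat_lit 0, nat_lit 0, ⟨nat_lit 1000, nat_lit 0, nat_lit 0, nat_lit 0, nat_lit 0, nat_lit 0, nat_lit 0, nat_lit 0, nat_lit 0, nat_lit 0, nat_lit 0, nat_lit 0, nat_lit 0, nat_lit 0, nat_lit 0, nat_lit 0, false, false⟩,
 nat_lit 0, nat_lit 0, nat_lit 13023, nat_lit 0, nat_lit 5569, nat_lit 7580, nat_lit 1180, nat_lit 0, nat_lit 0, nat_lit 2075, nat_lit 0, nat_lit 0, nat_lit 0, nat_lit 0, nat_lit 0, nat_lit 0, nat_lit 0, nat_lit 0, [],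
 ⟨p015_k0, nat_lit 0, nat_lit 0, nat_lit 184, nat_lit 0, nat_lit 0, [nat_lit 3282000000, nat_lit 6250000000, nat_lit 9842000000], [], [nat_lit 23905873840, nat_lit 24559393561, nat_lit 29097605032, nat_lit 29726753988], nat_lit 0, nat_lit 0, nat_lit 0, nat_lit 0, nat_lit 0, nat_lit 0, [], [nat_lit 8, nat_lit 40, nat_lit 80, nat_lit 80, nat_lit 1, nat_lit 317, nat_lit 100, nat_lit 9]⟩, ⟨p015_k5, nat_lit 0, nat_lit 0, nat_lit 610, nat_lit 0, nat_lit 923008, [nat_lit 4688000000, nat_lit 7968000000, nat_lit 9842000000], [], [nat_lit 27208050920, nat_lit 27561695040, nat_lit 28982016000, nat_lit 29925245520], nat_lit 1271250, nat_lit 1271250, nat_lit 1271250, nat_lit 1271250, nat_lit 0, nat_lit 0, [nat_lit 1100000, nat_lit 1785000, nat_lit 1271250], [nat_lit 29, nat_lit 40, nat_lit 80, nat_lit 80, nat_lit 17, nat_lit 373, nat_lit 150, nat_lit 10]⟩,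
 zbF0, []⟩
noncomputable def p015_l216 : Lf2 := ⟨nat_lit 0, nat_lit 10, [nat_lit 0, nat_lit 5, nat_lit 5, nat_lit 20], false, nat_lit 0, nat_lit 0, nat_lit 0, nat_lit 0, ⟨nat_lit 295, nat_lit 705, nat_lit 0, nat_lit 6, nat_lit 288, nat_lit 0, nat_lit 0, nat_lit 0, nat_lit 0, nat_lit 0, nat_lit 0, nat_lit 0, nat_lit 44145950, nat_lit 22854050, nat_lit 0, nat_lit 3208828, true, true⟩,
 nat_lit 0, nat_lit 0, nat_lit 3790, nat_lit 0, nat_lit 4137, nat_lit 2206, nat_lit 412, nat_lit 0, nat_lit 0, nat_lit 610, nat_lit 0, nat_lit 0, nat_lit 0, nat_lit 0, nat_lit 0, nat_lit 282000, nat_lit 0, nat_lit 0, [(nat_lit 12, [(nat_lit 1, nat_lit 705)])],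
 ⟨p015_k9, nat_lit 0, nat_lit 0, nat_lit 160, nat_lit 0, nat_lit 0, [nat_lit 2426412000, nat_lit 3762196000, nat_lit 4241370000], [], [nat_lit 22898422713, nat_lit 23459941546, nat_lit 26662660999, nat_lit 27124205310], nat_lit 0, nat_lit 0, nat_lit 0, nat_lit 0, nat_lit 0, nat_lit 0, [], [nat_lit 18, nat_lit 40, nat_lit 80, nat_lit 80, nat_lit 2, nat_lit 203, nat_lit 0, nat_lit 6]⟩, ⟨p015_k5, nat_lit 0, nat_lit 0, nat_lit 661, nat_lit 0, nat_lit 1046115, [nat_lit 1382960000, nat_lit 2350560000, nat_lit 2903390000], [], [nat_lit 8323390796, nat_lit 8403225992, nat_lit 8717092660, nat_lit 8790505288], nat_lit 1271250, nat_lit 1271250, nat_lit 1271250, nat_lit 1271250, nat_lit 0, nat_lit 0, [nat_lit 1100000, nat_lit 1785000, nat_lit 1271250], [nat_lit 29, nat_lit 40, nat_lit 80, nat_lit 80, nat_lit 17, nat_lit 373, nat_lit 150, nat_lit 10]⟩,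
 ⟨nat_lit 5000, nat_lit 5245, ⟨.ofNat (nat_lit 637316), .ofNat (nat_lit 783653), .ofNat (nat_lit 658699), .ofNat (nat_lit 805036), .ofNat (nat_lit 635703), .ofNat (nat_lit 778555), .ofNat (nat_lit 657129), .ofNat (nat_lit 799980)⟩, ⟨.ofNat (nat_lit 0), .ofNat (nat_lit 0), .ofNat (nat_lit 0), .ofNat (nat_lit 0), .ofNat (nat_lit 0), .ofNat (nat_lit 0), .ofNat (nat_lit 0), .ofNat (nat_lit 0)⟩⟩, []⟩
noncomputable def p015_l217 : Lf2 := ⟨nat_lit 0, nat_lit 10, [nat_lit 0, nat_lit 5, nat_lit 5, nat_lit 20], false, nat_lit 0, nat_lit 0, nat_lit 0, nat_lit 0, ⟨nat_lit 73, nat_lit 927, nat_lit 0, nat_lit 6, nat_lit 277, nat_lit 0, nat_lit 0, nat_lit 0, nat_lit 0, nat_lit 0, nat_lit 0, nat_lit 0, nat_lit 45258025, nat_lit 21741975, nat_lit 0, nat_lit 3151100, true, true⟩,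
 nat_lit 0, nat_lit 0, nat_lit 1116, nat_lit 0, nat_lit 4019, nat_lit 590, nat_lit 0, nat_lit 0, nat_lit 0, nat_lit 101, nat_lit 0, nat_lit 0, nat_lit 0, nat_lit 0, nat_lit 0, nat_lit 231750, nat_lit 0, nat_lit 0, [(nat_lit 15, [(nat_lit 0, nat_lit 927)])],
 ⟨p015_k14, nat_lit 0, nat_lit 0, nat_lit 160, nat_lit 0, nat_lit 0, [nat_lit 2388742800, nat_lit 2546630001, nat_lit 3430017600], [], [nat_lit 24486966702, nat_lit 25595653444, nat_lit 28112199370, nat_lit 29025210084], nat_lit 0, nat_lit 0, nat_lit 0, nat_lit 0, nat_lit 0, nat_lit 0, [], [nat_lit 36, nat_lit 40, nat_lit 80, nat_lit 80, nat_lit 7, nat_lit 203, nat_lit 0, nat_lit 6]⟩, ⟨p015_k13, nat_lit 0, nat_lit 0, nat_lit 859, nat_lit 0, nat_lit 1329262, [nat_lit 342224000, nat_lit 456250000, nat_lit 866656000], [], [nat_lit 2519609251, nat_lit 2530405429, nat_lit 2590259203, nat_lit 2603283562], nat_lit 1271250, nat_lit 1271250, nat_lit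 1271250, nat_lit 1271250, nat_lit 0, nat_lit 0, [nat_lit 1100000, nat_lit 1442500, nat_lit 1271250], [nat_lit 48, nat_lit 40, nat_lit 80, nat_lit 80, nat_lit 12, nat_lit 373, nat_lit 150, nat_lit 9]⟩,
 ⟨nat_lit 4472, nat_lit 5000, ⟨.ofNat (nat_lit 614256), .ofNat (nat_lit 757103), .ofNat (nat_lit 635672), .ofNat (nat_lit 778519), .ofNat (nat_lit 611081), .ofNat (nat_lit 747027), .ofNat (nat_lit 632635), .ofNat (nat_lit 768581)⟩, ⟨.ofNat (nat_lit 0), .ofNat (nat_lit 0), .ofNat (nat_lit 0), .ofNat (nat_lit 0), .ofNat (nat_lit 0), .ofNat (nat_lit 0), .ofNat (nat_lit 0), .ofNat (nat_lit 0)⟩⟩, []⟩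
noncomputable def p015_l218 : Lf2 := ⟨nat_lit 0, nat_lit 10, [nat_lit 0, nat_lit 5, nat_lit 5, nat_lit 20], false, nat_lit 0, nat_lit 0, nat_lit 0, nat_lit 0, ⟨nat_lit 143, nat_lit 857, nat_lit 0, nat_lit 6, nat_lit 284, nat_lit 0, nat_lit 0, nat_lit 0, nat_lit 0, nat_lit 0, nat_lit 0, nat_lit 0, nat_lit 44577593, nat_lit 22422407, nat_lit 0, nat_lit 3187157, true, true⟩,
 nat_lit 0, nat_lit 0, nat_lit 1882, nat_lit 0, nat_lit 3841, nat_lit 1095, nat_lit 0, nat_lit 0, nat_lit 0, nat_lit 270, nat_lit 0, nat_lit 0, nat_lit 0, nat_lit 0, nat_lit 0, nat_lit 342800, nat_lit 0, nat_lit 0, [(nat_lit 15, [(nat_lit 1, nat_lit 857)])],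
 ⟨p015_k8, nat_lit 0, nat_lit 0, nat_lit 167, nat_lit 0, nat_lit 0, [nat_lit 2200637400, nat_lit 2911870734, nat_lit 3129228666], [], [nat_lit 24155627644, nat_lit 25242666382, nat_lit 27721982896, nat_lit 28619791342], nat_lit 0, nat_lit 0, nat_lit 0, nat_lit 0, nat_lit 0, nat_lit 0, [], [nat_lit 18, nat_lit 40, nat_lit 80, nat_lit 80, nat_lit 2, nat_lit 203, nat_lit 0, nat_lit 6]⟩, ⟨p015_k5, nat_lit 0, nat_lit 0, nat_lit 752, nat_lit 0, nat_lit 1234766, [nat_lit 670384000, nat_lit 1139424000, nat_lit 1407406000], [], [nat_lit 4160066546, nat_lit 4169819179, nat_lit 4287907030, nat_lit 4300529527], nat_lit 1271250, nat_lit 1271250, nat_lit 1271250, nat_lit 1271250, nat_lit 0, nat_lit 0, [nat_lit 1100000, nat_lit 1785000, nat_lit 1271250], [nat_lit 29, nat_lit 40, nat_lit 80, nat_lit 80, nat_lit 17, nat_lit 373, nat_lit 150, nat_lit 10]⟩,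
 ⟨nat_lit 4472, nat_lit 5000, ⟨.ofNat (nat_lit 635672), .ofNat (nat_lit 778519), .ofNat (nat_lit 646380), .ofNat (nat_lit 789227), .ofNat (nat_lit 632635), .ofNat (nat_lit 768581), .ofNat (nat_lit 643412), .ofNat (nat_lit 779358)⟩, ⟨.ofNat (nat_lit 0), .ofNat (nat_lit 0), .ofNat (nat_lit 0), .ofNat (nat_lit 0), .ofNat (nat_lit 0), .ofNat (nat_lit 0), .ofNat (nat_lit 0), .ofNat (nat_lit 0)⟩⟩, []⟩
noncomputable def p015_l219 : Lf2 := ⟨nat_lit 0, nat_lit 10, [nat_lit 0, nat_lit 5, nat_lit 5, nat_lit 20], false, nat_lit 0, nat_lit 0, nat_lit 0, nat_lit 0, ⟨nat_lit 134, nat_lit 866, nat_lit 0, nat_lit 6, nat_lit 288, nat_lit 0, nat_lit 0, nat_lit 0, nat_lit 0, nat_lit 0, nat_lit 0, nat_lit 0, nat_lit 44126834, nat_lit 22873166, nat_lit 0, nat_lit 3209766, true, true⟩,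
 nat_lit 0, nat_lit 0, nat_lit 1679, nat_lit 0, nat_lit 3831, nat_lit 1022, nat_lit 0, nat_lit 0, nat_lit 0, nat_lit 174, nat_lit 0, nat_lit 0, nat_lit 0, nat_lit 0, nat_lit 0, nat_lit 346400, nat_lit 0, nat_lit 0, [(nat_lit 15, [(nat_lit 1, nat_lit 866)])],
 ⟨p015_k8, nat_lit 0, nat_lit 0, nat_lit 167, nat_lit 0, nat_lit 0, [nat_lit 2189281200, nat_lit 2876814534, nat_lit 3078822666], [], [nat_lit 24102716864, nat_lit 25188539422, nat_lit 27665764396, nat_lit 28562718782], nat_lit 0, nat_lit 0, nat_lit 0, nat_lit 0, nat_lit 0, nat_lit 0, [], [nat_lit 18, nat_lit 40, nat_lit 80, nat_lit 80, nat_lit 2, nat_lit 203, nat_lit 0, nat_lit 6]⟩, ⟨p015_k23, nat_lit 0, nat_lit 0, nat_lit 750, nat_lit 0, nat_lit 1234010, [nat_lit 628192000, nat_lit 1067712000, nat_lit 1318828000], [], [nat_lit 3869036906, nat_lit 3882135680, nat_lit 4006685846, nat_lit 4021131864], nat_lit 1271250, nat_lit 1271250, nat_lit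 1271250, nat_lit 1271250, nat_lit 0, nat_lit 0, [nat_lit 1100000, nat_lit 1785000, nat_lit 1271250], [nat_lit 29, nat_lit 40, nat_lit 80, nat_lit 80, nat_lit 17, nat_lit 373, nat_lit 150, nat_lit 10]⟩,
 ⟨nat_lit 4472, nat_lit 5000, ⟨.ofNat (nat_lit 646380), .ofNat (nat_lit 789227), .ofNat (nat_lit 657088), .ofNat (nat_lit 799935), .ofNat (nat_lit 643412), .ofNat (nat_lit 779358), .ofNat (nat_lit 654189), .ofNat (nat_lit 790136)⟩, ⟨.ofNat (nat_lit 0), .ofNat (nat_lit 0), .ofNat (nat_lit 0), .ofNat (nat_lit 0), .ofNat (nat_lit 0), .ofNat (nat_lit 0), .ofNat (nat_lit 0), .ofNat (nat_lit 0)⟩⟩, []⟩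
noncomputable def b_N_700_600_0_14 : St := ⟨false, nat_lit 0, nat_lit 1, nat_lit 1, nat_lit 40, nat_lit 280, nat_lit 320, nat_lit 240, nat_lit 280, nat_lit 240, nat_lit 320, nat_lit 0, nat_lit 0, nat_lit 0, nat_lit 0, nat_lit 0, nat_lit 0, nat_lit 40, nat_lit 80, nat_lit 0, nat_lit 0, nat_lit 0, nat_lit 0⟩
theorem d_N_700_600_0_14 (h : EB TB.env) : Dead b_N_700_600_0_14 := chkB_sound0 h (T :=
(.spl (nat_lit 0) (nat_lit 300)
(.spl (nat_lit 1) (nat_lit 260)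
(.spl (nat_lit 0) (nat_lit 290)
(.spl (nat_lit 1) (nat_lit 250)
(.leaf p015_l212)
(.leaf p015_l213))
(.leaf p015_l214))
(.spl (nat_lit 0) (nat_lit 290)
(.leaf p015_l215)
(.leaf p015_l216)))
(.spl (nat_lit 1) (nat_lit 260)
(.leaf p015_l217)
(.spl (nat_lit 1) (nat_lit 270)
(.leaf p015_l218)
(.leaf p015_l219))))) (by decide +kernel)
noncomputable def p015_l220 : Lf2 := ⟨nat_lit 0, nat_lit 10, [nat_lit 0, nat_lit 5, nat_lit 5, nat_lit 20], false, nat_lit 0, nat_lit 0, nat_lit 0, nat_lit 0, ⟨nat_lit 1000, nat_lit 0, nat_lit 0, nat_lit 0, nat_lit 0, nat_lit 0, nat_lit 0, nat_lit 0, nat_lit 0, nat_lit 0, nat_lit 0, nat_lit 0, nat_lit 0, nat_lit 0, nat_lit 0, nat_lit 0, false, false⟩,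
 nat_lit 0, nat_lit 0, nat_lit 13830, nat_lit 0, nat_lit 4680, nat_lit 7321, nat_lit 1635, nat_lit 0, nat_lit 0, nat_lit 1566, nat_lit 0, nat_lit 0, nat_lit 0, nat_lit 0, nat_lit 0, nat_lit 0, nat_lit 0, nat_lit 0, [],
 ⟨p015_k17, nat_lit 0, nat_lit 0, nat_lit 191, nat_lit 0, nat_lit 0, [nat_lit 3282000000, nat_lit 4688000000, nat_lit 9842000000], [], [nat_lit 27451804635, nat_lit 27672591915, nat_lit 29711176875, nat_lit 29906640545], nat_lit 0, nat_lit 0, nat_lit 0, nat_lit 0, nat_lit 0, nat_lit 0, [], [nat_lit 42, nat_lit 40, nat_lit 80, nat_lit 80, nat_lit 13, nat_lit 203, nat_lit 0, nat_lit 5]⟩, ⟨p015_k13, nat_lit 0, nat_lit 0, nat_lit 580, nat_lit 0, nat_lit 783884, [nat_lit 4688000000, nat_lit 6250000000, nat_lit 11872000000], [], [nat_lit 35192416710, nat_lit 35466865696, nat_lit 36563005424, nat_lit 36848244233], nat_lit 1271250, nat_lit 1271250, nat_lit 1271250, nat_lit 1271250, nat_lit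 0, nat_lit 0, [nat_lit 1100000, nat_lit 1442500, nat_lit 1271250], [nat_lit 48, nat_lit 40, nat_lit 80, nat_lit 80, nat_lit 12, nat_lit 289, nat_lit 75, nat_lit 7]⟩,
 zbF0, []⟩
noncomputable def p015_l221 : Lf2 := ⟨nat_lit 0, nat_lit 10, [nat_lit 0, nat_lit 5, nat_lit 5, nat_lit 20], false, nat_lit 0, nat_lit 0, nat_lit 0, nat_lit 0, ⟨nat_lit 863, nat_lit 137, nat_lit 0, nat_lit 8, nat_lit 324, nat_lit 0, nat_lit 0, nat_lit 0, nat_lit 0, nat_lit 0, nat_lit 0, nat_lit 0, nat_lit 40413988, nat_lit 26586012, nat_lit 0, nat_lit 3358476, true, true⟩,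
 nat_lit 0, nat_lit 0, nat_lit 11649, nat_lit 0, nat_lit 4507, nat_lit 6167, nat_lit 1485, nat_lit 0, nat_lit 0, nat_lit 1324, nat_lit 0, nat_lit 0, nat_lit 0, nat_lit 0, nat_lit 0, nat_lit 54800, nat_lit 0, nat_lit 0, [(nat_lit 12, [(nat_lit 1, nat_lit 137)])],
 ⟨p015_k73, nat_lit 0, nat_lit 0, nat_lit 192, nat_lit 0, nat_lit 0, [nat_lit 3110941800, nat_lit 4418219600, nat_lit 8854832800], [], [nat_lit 27023349896, nat_lit 27241049818, nat_lit 29218206933, nat_lit 29415400805], nat_lit 0, nat_lit 0, nat_lit 0, nat_lit 0, nat_lit 0, nat_lit 0, [], [nat_lit 42, nat_lit 40, nat_lit 80, nat_lit 80, nat_lit 13, nat_lit 203, nat_lit 0, nat_lit 5]⟩, ⟨p015_k13, nat_lit 0, nat_lit 0, nat_lit 643, nat_lit 0, nat_lit 854433, [nat_lit 4045744000, nat_lit 5393750000, nat_lit 10245536000], [], [nat_lit 31084902024, nat_lit 31323886058, nat_lit 32172874740, nat_lit 32364138355], nat_lit 1271250, nat_lit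 1271250, nat_lit 1271250, nat_lit 1271250, nat_lit 0, nat_lit 0, [nat_lit 1100000, nat_lit 1442500, nat_lit 1271250], [nat_lit 48, nat_lit 40, nat_lit 80, nat_lit 80, nat_lit 12, nat_lit 289, nat_lit 75, nat_lit 7]⟩,
 ⟨nat_lit 5244, nat_lit 5362, ⟨.ofNat (nat_lit 764883), .ofNat (nat_lit 838931), .ofNat (nat_lit 786252), .ofNat (nat_lit 860300), .ofNat (nat_lit 762280), .ofNat (nat_lit 835450), .ofNat (nat_lit 783665), .ofNat (nat_lit 856835)⟩, ⟨.ofNat (nat_lit 0), .ofNat (nat_lit 0), .ofNat (nat_lit 0), .ofNat (nat_lit 0), .ofNat (nat_lit 0), .ofNat (nat_lit 0), .ofNat (nat_lit 0), .ofNat (nat_lit 0)⟩⟩, []⟩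
noncomputable def p015_l222 : Lf2 := ⟨nat_lit 0, nat_lit 10, [nat_lit 0, nat_lit 5, nat_lit 5, nat_lit 20], false, nat_lit 0, nat_lit 0, nat_lit 0, nat_lit 0, ⟨nat_lit 120, nat_lit 880, nat_lit 0, nat_lit 8, nat_lit 320, nat_lit 0, nat_lit 0, nat_lit 0, nat_lit 0, nat_lit 0, nat_lit 0, nat_lit 0, nat_lit 40805875, nat_lit 26194125, nat_lit 0, nat_lit 3345870, true, true⟩,
 nat_lit 0, nat_lit 0, nat_lit 1671, nat_lit 0, nat_lit 3710, nat_lit 884, nat_lit 0, nat_lit 0, nat_lit 0, nat_lit 176, nat_lit 0, nat_lit 0, nat_lit 0, nat_lit 0, nat_lit 0, nat_lit 352000, nat_lit 0, nat_lit 0, [(nat_lit 12, [(nat_lit 1, nat_lit 880)])],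
 ⟨p015_k81, nat_lit 0, nat_lit 0, nat_lit 171, nat_lit 0, nat_lit 0, [nat_lit 2183232000, nat_lit 2828384000, nat_lit 3333242667], [], [nat_lit 27537903837, nat_lit 27981213967, nat_lit 29693364507, nat_lit 30090008837], nat_lit 0, nat_lit 0, nat_lit 0, nat_lit 0, nat_lit 0, nat_lit 0, [], [nat_lit 36, nat_lit 40, nat_lit 80, nat_lit 80, nat_lit 7, nat_lit 203, nat_lit 0, nat_lit 6]⟩, ⟨p015_k13, nat_lit 0, nat_lit 0, nat_lit 664, nat_lit 0, nat_lit 914146, [nat_lit 562560000, nat_lit 750000000, nat_lit 1424640000], [], [nat_lit 4302772560, nat_lit 4315046440, nat_lit 4432734488, nat_lit 4446187854], nat_lit 1271250, nat_lit 1271250, nat_lit 1271250, nat_lit 1271250, nat_lit 0, nat_lit 0, [nat_lit 1100000, nat_lit 1442500, nat_lit 1271250], [nat_lit 48, nat_lit 40, nat_lit 80, nat_lit 80, nat_lit 12, nat_lit 289, nat_lit 75, nat_lit 7]⟩,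
 ⟨nat_lit 5000, nat_lit 5245, ⟨.ofNat (nat_lit 762271), .ofNat (nat_lit 835439), .ofNat (nat_lit 772961), .ofNat (nat_lit 846130), .ofNat (nat_lit 757129), .ofNat (nat_lit 828555), .ofNat (nat_lit 767842), .ofNat (nat_lit 839268)⟩, ⟨.ofNat (nat_lit 0), .ofNat (nat_lit 0), .ofNat (nat_lit 0), .ofNat (nat_lit 0), .ofNat (nat_lit 0), .ofNat (nat_lit 0), .ofNat (nat_lit 0), .ofNat (nat_lit 0)⟩⟩, []⟩
noncomputable def p015_l223 : Lf2 := ⟨nat_lit 0, nat_lit 10, [nat_lit 0, nat_lit 5, nat_lit 5, nat_lit 20], false, nat_lit 0, nat_lit 0, nat_lit 0, nat_lit 0, ⟨nat_lit 1000, nat_lit 0, nat_lit 0, nat_lit 0, nat_lit 0, nat_lit 0, nat_lit 0, nat_lit 0, nat_lit 0, nat_lit 0, nat_lit 0, nat_lit 0, nat_lit 0, nat_lit 0, nat_lit 0, nat_lit 0, false, false⟩,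
 nat_lit 0, nat_lit 0, nat_lit 13702, nat_lit 0, nat_lit 4722, nat_lit 7612, nat_lit 0, nat_lit 0, nat_lit 0, nat_lit 1342, nat_lit 0, nat_lit 0, nat_lit 0, nat_lit 0, nat_lit 0, nat_lit 0, nat_lit 0, nat_lit 0, [],
 ⟨p015_k81, nat_lit 0, nat_lit 0, nat_lit 171, nat_lit 0, nat_lit 0, [nat_lit 3282000000, nat_lit 4688000000, nat_lit 7968000000], [], [nat_lit 32667191294, nat_lit 33153716860, nat_lit 35079777888, nat_lit 35510046900], nat_lit 0, nat_lit 0, nat_lit 0, nat_lit 0, nat_lit 0, nat_lit 0, [], [nat_lit 36, nat_lit 40, nat_lit 80, nat_lit 80, nat_lit 7, nat_lit 203, nat_lit 0, nat_lit 6]⟩, ⟨p015_k19, nat_lit 0, nat_lit 0, nat_lit 605, nat_lit 0, nat_lit 935158, [nat_lit 4688000000, nat_lit 6250000000, nat_lit 9842000000], [], [nat_lit 33431108520, nat_lit 33538654024, nat_lit 34619095394, nat_lit 34738780580], nat_lit 1271250, nat_lit 1271250, nat_lit 1271250, nat_lit 1271250, nat_lit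 0, nat_lit 0, [nat_lit 1100000, nat_lit 1442500, nat_lit 1271250], [nat_lit 11, nat_lit 40, nat_lit 80, nat_lit 80, nat_lit 1, nat_lit 289, nat_lit 75, nat_lit 8]⟩,
 zbF0, []⟩
noncomputable def p015_l224 : Lf2 := ⟨nat_lit 0, nat_lit 10, [nat_lit 0, nat_lit 5, nat_lit 5, nat_lit 20], false, nat_lit 0, nat_lit 0, nat_lit 0, nat_lit 0, ⟨nat_lit 1000, nat_lit 0, nat_lit 0, nat_lit 0, nat_lit 0, nat_lit 0, nat_lit 0, nat_lit 0, nat_lit 0, nat_lit 0, nat_lit 0, nat_lit 0, nat_lit 0, nat_lit 0, nat_lit 0, nat_lit 0, false, false⟩,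
 nat_lit 0, nat_lit 0, nat_lit 12163, nat_lit 0, nat_lit 4711, nat_lit 7079, nat_lit 1635, nat_lit 0, nat_lit 0, nat_lit 1401, nat_lit 0, nat_lit 0, nat_lit 0, nat_lit 0, nat_lit 0, nat_lit 0, nat_lit 0, nat_lit 0, [],
 ⟨p015_k17, nat_lit 0, nat_lit 0, nat_lit 192, nat_lit 0, nat_lit 0, [nat_lit 3282000000, nat_lit 4688000000, nat_lit 9842000000], [], [nat_lit 27434978827, nat_lit 27877659839, nat_lit 29717375403, nat_lit 30144522440], nat_lit 0, nat_lit 0, nat_lit 0, nat_lit 0, nat_lit 0, nat_lit 0, [], [nat_lit 42, nat_lit 40, nat_lit 80, nat_lit 80, nat_lit 13, nat_lit 203, nat_lit 0, nat_lit 5]⟩, ⟨p015_k20, nat_lit 0, nat_lit 0, nat_lit 600, nat_lit 0, nat_lit 923008, [nat_lit 4688000000, nat_lit 6250000000, nat_lit 9842000000], [], [nat_lit 32644734388, nat_lit 32899885784, nat_lit 33870598031, nat_lit 34149884062], nat_lit 1271250, nat_lit 1271250, nat_lit 1271250, nat_lit 1271250, nat_lit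 0, nat_lit 0, [nat_lit 1100000, nat_lit 1442500, nat_lit 1271250], [nat_lit 11, nat_lit 40, nat_lit 80, nat_lit 80, nat_lit 1, nat_lit 289, nat_lit 75, nat_lit 8]⟩,
 zbF0, []⟩
noncomputable def p015_l225 : Lf2 := ⟨nat_lit 0, nat_lit 10, [nat_lit 0, nat_lit 5, nat_lit 5, nat_lit 20], false, nat_lit 0, nat_lit 0, nat_lit 0, nat_lit 0, ⟨nat_lit 1000, nat_lit 0, nat_lit 0, nat_lit 0, nat_lit 0, nat_lit 0, nat_lit 0, nat_lit 0, nat_lit 0, nat_lit 0, nat_lit 0, nat_lit 0, nat_lit 0, nat_lit 0, nat_lit 0, nat_lit 0, false, false⟩,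
 nat_lit 0, nat_lit 0, nat_lit 12258, nat_lit 0, nat_lit 4722, nat_lit 7135, nat_lit 0, nat_lit 0, nat_lit 0, nat_lit 1467, nat_lit 0, nat_lit 0, nat_lit 0, nat_lit 0, nat_lit 0, nat_lit 0, nat_lit 0, nat_lit 0, [],
 ⟨p015_k81, nat_lit 0, nat_lit 0, nat_lit 171, nat_lit 0, nat_lit 0, [nat_lit 3282000000, nat_lit 4688000000, nat_lit 7968000000], [], [nat_lit 32667191294, nat_lit 33153716860, nat_lit 35079777888, nat_lit 35510046900], nat_lit 0, nat_lit 0, nat_lit 0, nat_lit 0, nat_lit 0, nat_lit 0, [], [nat_lit 36, nat_lit 40, nat_lit 80, nat_lit 80, nat_lit 7, nat_lit 203, nat_lit 0, nat_lit 6]⟩, ⟨p015_k20, nat_lit 0, nat_lit 0, nat_lit 643, nat_lit 0, nat_lit 1046115, [nat_lit 4688000000, nat_lit 6250000000, nat_lit 9842000000], [], [nat_lit 32459698395, nat_lit 32761520185, nat_lit 33681191900, nat_lit 33928322585], nat_lit 1271250, nat_lit 1271250, nat_lit 1271250, nat_lit 1271250, nat_lit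 0, nat_lit 0, [nat_lit 1100000, nat_lit 1442500, nat_lit 1271250], [nat_lit 11, nat_lit 40, nat_lit 80, nat_lit 80, nat_lit 1, nat_lit 289, nat_lit 75, nat_lit 8]⟩,
 zbF0, []⟩
noncomputable def p015_l226 : Lf2 := ⟨nat_lit 0, nat_lit 10, [nat_lit 0, nat_lit 5, nat_lit 5, nat_lit 20], true, nat_lit 0, nat_lit 0, nat_lit 0, nat_lit 0, ⟨nat_lit 0, nat_lit 1000, nat_lit 0, nat_lit 8, nat_lit 317, nat_lit 0, nat_lit 0, nat_lit 0, nat_lit 0, nat_lit 0, nat_lit 0, nat_lit 0, nat_lit 41161949, nat_lit 25838051, nat_lit 0, nat_lit 3333794, true, true⟩,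
 nat_lit 0, nat_lit 0, nat_lit 0, nat_lit 0, nat_lit 3559, nat_lit 0, nat_lit 0, nat_lit 0, nat_lit 0, nat_lit 0, nat_lit 0, nat_lit 0, nat_lit 0, nat_lit 0, nat_lit 0, nat_lit 400000, nat_lit 0, nat_lit 0, [(nat_lit 15, [(nat_lit 1, nat_lit 1000)])],
 ⟨p015_k14, nat_lit 0, nat_lit 0, nat_lit 175, nat_lit 0, nat_lit 0, [nat_lit 2020200000, nat_lit 2336800001, nat_lit 2343200000], [], [nat_lit 26911849170, nat_lit 27785573124, nat_lit 28983453550, nat_lit 29832670008], nat_lit 0, nat_lit 0, nat_lit 0, nat_lit 0, nat_lit 0, nat_lit 0, [], [nat_lit 36, nat_lit 40, nat_lit 80, nat_lit 80, nat_lit 7, nat_lit 203, nat_lit 0, nat_lit 6]⟩, C1.Rw.none,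
 ⟨nat_lit 4472, nat_lit 5000, ⟨.ofNat (nat_lit 757103), .ofNat (nat_lit 828527), .ofNat (nat_lit 767811), .ofNat (nat_lit 839235), .ofNat (nat_lit 747027), .ofNat (nat_lit 815001), .ofNat (nat_lit 757805), .ofNat (nat_lit 825778)⟩, ⟨.ofNat (nat_lit 0), .ofNat (nat_lit 0), .ofNat (nat_lit 0), .ofNat (nat_lit 0), .ofNat (nat_lit 0), .ofNat (nat_lit 0), .ofNat (nat_lit 0), .ofNat (nat_lit 0)⟩⟩, []⟩
noncomputable def p015_l227 : Lf2 := ⟨nat_lit 0, nat_lit 10, [nat_lit 0, nat_lit 5, nat_lit 5, nat_lit 20], false, nat_lit 0, nat_lit 0, nat_lit 0, nat_lit 0, ⟨nat_lit 154, nat_lit 846, nat_lit 0, nat_lit 8, nat_lit 317, nat_lit 0, nat_lit 0, nat_lit 0, nat_lit 0, nat_lit 0, nat_lit 0, nat_lit 0, nat_lit 41161949, nat_lit 25838051, nat_lit 0, nat_lit 3333794, true, true⟩,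
 nat_lit 0, nat_lit 0, nat_lit 2092, nat_lit 0, nat_lit 3675, nat_lit 1107, nat_lit 0, nat_lit 0, nat_lit 0, nat_lit 226, nat_lit 0, nat_lit 0, nat_lit 0, nat_lit 0, nat_lit 0, nat_lit 338400, nat_lit 0, nat_lit 0, [(nat_lit 15, [(nat_lit 1, nat_lit 846)])],
 ⟨p015_k14, nat_lit 0, nat_lit 0, nat_lit 175, nat_lit 0, nat_lit 0, [nat_lit 2214517200, nat_lit 2698884801, nat_lit 3197407200], [], [nat_lit 27896066650, nat_lit 28779697700, nat_lit 29996070150, nat_lit 30786572250], nat_lit 0, nat_lit 0, nat_lit 0, nat_lit 0, nat_lit 0, nat_lit 0, [], [nat_lit 36, nat_lit 40, nat_lit 80, nat_lit 80, nat_lit 7, nat_lit 203, nat_lit 0, nat_lit 6]⟩, ⟨p015_k13, nat_lit 0, nat_lit 0, nat_lit 577, nat_lit 0, nat_lit 777137, [nat_lit 721952000, nat_lit 962500000, nat_lit 1828288000], [], [nat_lit 5592283692, nat_lit 5608622802, nat_lit 5768537102, nat_lit 5783448883], nat_lit 1271250, nat_lit 1271250, nat_lit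 1271250, nat_lit 1271250, nat_lit 0, nat_lit 0, [nat_lit 1100000, nat_lit 1442500, nat_lit 1271250], [nat_lit 48, nat_lit 40, nat_lit 80, nat_lit 80, nat_lit 12, nat_lit 289, nat_lit 75, nat_lit 7]⟩,
 ⟨nat_lit 4472, nat_lit 5000, ⟨.ofNat (nat_lit 757103), .ofNat (nat_lit 828527), .ofNat (nat_lit 767811), .ofNat (nat_lit 839235), .ofNat (nat_lit 747027), .ofNat (nat_lit 815001), .ofNat (nat_lit 757805), .ofNat (nat_lit 825778)⟩, ⟨.ofNat (nat_lit 0), .ofNat (nat_lit 0), .ofNat (nat_lit 0), .ofNat (nat_lit 0), .ofNat (nat_lit 0), .ofNat (nat_lit 0), .ofNat (nat_lit 0), .ofNat (nat_lit 0)⟩⟩, []⟩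
noncomputable def p015_l228 : Lf2 := ⟨nat_lit 0, nat_lit 10, [nat_lit 0, nat_lit 5, nat_lit 5, nat_lit 20], false, nat_lit 0, nat_lit 0, nat_lit 0, nat_lit 0, ⟨nat_lit 110, nat_lit 890, nat_lit 0, nat_lit 8, nat_lit 320, nat_lit 0, nat_lit 0, nat_lit 0, nat_lit 0, nat_lit 0, nat_lit 0, nat_lit 0, nat_lit 40839994, nat_lit 26160006, nat_lit 0, nat_lit 3344739, true, true⟩,
 nat_lit 0, nat_lit 0, nat_lit 1535, nat_lit 0, nat_lit 3625, nat_lit 852, nat_lit 0, nat_lit 0, nat_lit 0, nat_lit 133, nat_lit 0, nat_lit 0, nat_lit 0, nat_lit 0, nat_lit 0, nat_lit 356000, nat_lit 0, nat_lit 0, [(nat_lit 15, [(nat_lit 1, nat_lit 890)])],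
 ⟨p015_k14, nat_lit 0, nat_lit 0, nat_lit 175, nat_lit 0, nat_lit 0, [nat_lit 2158998000, nat_lit 2595432001, nat_lit 2953348000], [], [nat_lit 27624206750, nat_lit 28503567500, nat_lit 29711969250, nat_lit 30499126750], nat_lit 0, nat_lit 0, nat_lit 0, nat_lit 0, nat_lit 0, nat_lit 0, [], [nat_lit 36, nat_lit 40, nat_lit 80, nat_lit 80, nat_lit 7, nat_lit 203, nat_lit 0, nat_lit 6]⟩, ⟨p015_k19, nat_lit 0, nat_lit 0, nat_lit 725, nat_lit 0, nat_lit 1200487, [nat_lit 515680000, nat_lit 687500000, nat_lit 1082620000], [], [nat_lit 3804758938, nat_lit 3808096235, nat_lit 3896895430, nat_lit 3903979364], nat_lit 1271250, nat_lit 1271250, nat_lit 1271250, nat_lit 1271250, nat_lit 0, nat_lit 0, [nat_lit 1100000, nat_lit 1442500, nat_lit 1271250], [nat_lit 11, nat_lit 40, nat_lit 80, nat_lit 80, nat_lit 1, nat_lit 289, nat_lit 75, nat_lit 8]⟩,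
 ⟨nat_lit 4472, nat_lit 5000, ⟨.ofNat (nat_lit 767811), .ofNat (nat_lit 839235), .ofNat (nat_lit 773165), .ofNat (nat_lit 844589), .ofNat (nat_lit 757805), .ofNat (nat_lit 825778), .ofNat (nat_lit 763193), .ofNat (nat_lit 831167)⟩, ⟨.ofNat (nat_lit 0), .ofNat (nat_lit 0), .ofNat (nat_lit 0), .ofNat (nat_lit 0), .ofNat (nat_lit 0), .ofNat (nat_lit 0), .ofNat (nat_lit 0), .ofNat (nat_lit 0)⟩⟩, []⟩
noncomputable def p015_l229 : Lf2 := ⟨nat_lit 0, nat_lit 10, [nat_lit 0, nat_lit 5, nat_lit 5, nat_lit 20], false, nat_lit 0, nat_lit 0, nat_lit 0, nat_lit 0, ⟨nat_lit 119, nat_lit 881, nat_lit 0, nat_lit 8, nat_lit 322, nat_lit 0, nat_lit 0, nat_lit 0, nat_lit 0, nat_lit 0, nat_lit 0, nat_lit 0, nat_lit 40626373, nat_lit 26373627, nat_lit 0, nat_lit 3351733, true, true⟩,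
 nat_lit 0, nat_lit 0, nat_lit 1570, nat_lit 0, nat_lit 3635, nat_lit 892, nat_lit 0, nat_lit 0, nat_lit 0, nat_lit 143, nat_lit 0, nat_lit 0, nat_lit 0, nat_lit 0, nat_lit 0, nat_lit 352400, nat_lit 0, nat_lit 0, [(nat_lit 15, [(nat_lit 1, nat_lit 881)])],
 ⟨p015_k14, nat_lit 0, nat_lit 0, nat_lit 175, nat_lit 0, nat_lit 0, [nat_lit 2170354200, nat_lit 2616592800, nat_lit 3003269200], [], [nat_lit 27679940450, nat_lit 28560155260, nat_lit 29770151150, nat_lit 30557977570], nat_lit 0, nat_lit 0, nat_lit 0, nat_lit 0, nat_lit 0, nat_lit 0, [], [nat_lit 36, nat_lit 40, nat_lit 80, nat_lit 80, nat_lit 7, nat_lit 203, nat_lit 0, nat_lit 6]⟩, ⟨p015_k89, nat_lit 0, nat_lit 0, nat_lit 723, nat_lit 0, nat_lit 1197673, [nat_lit 557872000, nat_lit 743750000, nat_lit 1171198000], [], [nat_lit 4122141878, nat_lit 4125951990, nat_lit 4216557907, nat_lit 4219179656], nat_lit 1271250, nat_lit 1271250, nat_lit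 1271250, nat_lit 1271250, nat_lit 0, nat_lit 0, [nat_lit 1100000, nat_lit 1442500, nat_lit 1271250], [nat_lit 11, nat_lit 40, nat_lit 80, nat_lit 80, nat_lit 1, nat_lit 289, nat_lit 75, nat_lit 8]⟩,
 ⟨nat_lit 4472, nat_lit 5000, ⟨.ofNat (nat_lit 773165), .ofNat (nat_lit 844589), .ofNat (nat_lit 778519), .ofNat (nat_lit 849943), .ofNat (nat_lit 763193), .ofNat (nat_lit 831167), .ofNat (nat_lit 768581), .ofNat (nat_lit 836555)⟩, ⟨.ofNat (nat_lit 0), .ofNat (nat_lit 0), .ofNat (nat_lit 0), .ofNat (nat_lit 0), .ofNat (nat_lit 0), .ofNat (nat_lit 0), .ofNat (nat_lit 0), .ofNat (nat_lit 0)⟩⟩, []⟩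
noncomputable def p015_l230 : Lf2 := ⟨nat_lit 0, nat_lit 10, [nat_lit 0, nat_lit 5, nat_lit 5, nat_lit 20], false, nat_lit 0, nat_lit 0, nat_lit 0, nat_lit 0, ⟨nat_lit 131, nat_lit 869, nat_lit 0, nat_lit 8, nat_lit 324, nat_lit 0, nat_lit 0, nat_lit 0, nat_lit 0, nat_lit 0, nat_lit 0, nat_lit 0, nat_lit 40413568, nat_lit 26586432, nat_lit 0, nat_lit 3358489, true, true⟩,
 nat_lit 0, nat_lit 0, nat_lit 1659, nat_lit 0, nat_lit 3649, nat_lit 965, nat_lit 0, nat_lit 0, nat_lit 0, nat_lit 176, nat_lit 0, nat_lit 0, nat_lit 0, nat_lit 0, nat_lit 0, nat_lit 347600, nat_lit 0, nat_lit 0, [(nat_lit 15, [(nat_lit 1, nat_lit 869)])],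
 ⟨p015_k14, nat_lit 0, nat_lit 0, nat_lit 175, nat_lit 0, nat_lit 0, [nat_lit 2185495800, nat_lit 2644807200, nat_lit 3069830800], [], [nat_lit 27753882470, nat_lit 28635292964, nat_lit 29847520650, nat_lit 30636283558], nat_lit 0, nat_lit 0, nat_lit 0, nat_lit 0, nat_lit 0, nat_lit 0, [], [nat_lit 36, nat_lit 40, nat_lit 80, nat_lit 80, nat_lit 7, nat_lit 203, nat_lit 0, nat_lit 6]⟩, ⟨p015_k20, nat_lit 0, nat_lit 0, nat_lit 721, nat_lit 0, nat_lit 1195842, [nat_lit 614128000, nat_lit 818750000, nat_lit 1289302000], [], [nat_lit 4325690514, nat_lit 4332096986, nat_lit 4449049922, nat_lit 4453992195], nat_lit 1271250, nat_lit 1271250, nat_lit 1271250, nat_lit 1271250, nat_lit 0, nat_lit 0, [nat_lit 1100000, nat_lit 1442500, nat_lit 1271250], [nat_lit 11, nat_lit 40, nat_lit 80, nat_lit 80, nat_lit 1, nat_lit 289, nat_lit 75, nat_lit 8]⟩,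
 ⟨nat_lit 4472, nat_lit 5000, ⟨.ofNat (nat_lit 778519), .ofNat (nat_lit 849943), .ofNat (nat_lit 783873), .ofNat (nat_lit 855297), .ofNat (nat_lit 768581), .ofNat (nat_lit 836555), .ofNat (nat_lit 773970), .ofNat (nat_lit 841943)⟩, ⟨.ofNat (nat_lit 0), .ofNat (nat_lit 0), .ofNat (nat_lit 0), .ofNat (nat_lit 0), .ofNat (nat_lit 0), .ofNat (nat_lit 0), .ofNat (nat_lit 0), .ofNat (nat_lit 0)⟩⟩, []⟩
noncomputable def p015_l231 : Lf2 := ⟨nat_lit 0, nat_lit 10, [nat_lit 0, nat_lit 5, nat_lit 5, nat_lit 20], false, nat_lit 0, nat_lit 0, nat_lit 0, nat_lit 0, ⟨nat_lit 142, nat_lit 858, nat_lit 0, nat_lit 8, nat_lit 327, nat_lit 0, nat_lit 0, nat_lit 0, nat_lit 0, nat_lit 0, nat_lit 0, nat_lit 0, nat_lit 40201584, nat_lit 26798416, nat_lit 0, nat_lit 3365009, true, true⟩,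
 nat_lit 0, nat_lit 0, nat_lit 1704, nat_lit 0, nat_lit 3662, nat_lit 1014, nat_lit 0, nat_lit 0, nat_lit 0, nat_lit 190, nat_lit 0, nat_lit 0, nat_lit 0, nat_lit 0, nat_lit 0, nat_lit 343200, nat_lit 0, nat_lit 0, [(nat_lit 15, [(nat_lit 1, nat_lit 858)])],
 ⟨p015_k14, nat_lit 0, nat_lit 0, nat_lit 175, nat_lit 0, nat_lit 0, [nat_lit 2199375601, nat_lit 2670670401, nat_lit 3130845600], [], [nat_lit 27821570261, nat_lit 28704091033, nat_lit 29918391101, nat_lit 30708144944], nat_lit 0, nat_lit 0, nat_lit 0, nat_lit 0, nat_lit 0, nat_lit 0, [], [nat_lit 36, nat_lit 40, nat_lit 80, nat_lit 80, nat_lit 7, nat_lit 203, nat_lit 0, nat_lit 6]⟩, ⟨p015_k90, nat_lit 0, nat_lit 0, nat_lit 720, nat_lit 0, nat_lit 1195074, [nat_lit 665696000, nat_lit 887500000, nat_lit 1397564000], [], [nat_lit 4643585753, nat_lit 4650691206, nat_lit 4774908596, nat_lit 4795512153], nat_lit 1271250, nat_lit 1271250, nat_lit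 1271250, nat_lit 1271250, nat_lit 0, nat_lit 0, [nat_lit 1100000, nat_lit 1442500, nat_lit 1271250], [nat_lit 11, nat_lit 40, nat_lit 80, nat_lit 80, nat_lit 1, nat_lit 289, nat_lit 75, nat_lit 8]⟩,
 ⟨nat_lit 4472, nat_lit 5000, ⟨.ofNat (nat_lit 783873), .ofNat (nat_lit 855297), .ofNat (nat_lit 789227), .ofNat (nat_lit 860651), .ofNat (nat_lit 773970), .ofNat (nat_lit 841943), .ofNat (nat_lit 779358), .ofNat (nat_lit 847332)⟩, ⟨.ofNat (nat_lit 0), .ofNat (nat_lit 0), .ofNat (nat_lit 0), .ofNat (nat_lit 0), .ofNat (nat_lit 0), .ofNat (nat_lit 0), .ofNat (nat_lit 0), .ofNat (nat_lit 0)⟩⟩, []⟩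
noncomputable def p015_l232 : Lf2 := ⟨nat_lit 0, nat_lit 10, [nat_lit 0, nat_lit 5, nat_lit 5, nat_lit 20], false, nat_lit 0, nat_lit 0, nat_lit 0, nat_lit 0, ⟨nat_lit 270, nat_lit 730, nat_lit 0, nat_lit 8, nat_lit 329, nat_lit 0, nat_lit 0, nat_lit 0, nat_lit 0, nat_lit 0, nat_lit 0, nat_lit 0, nat_lit 39990430, nat_lit 27009570, nat_lit 0, nat_lit 3371297, true, true⟩,
 nat_lit 0, nat_lit 0, nat_lit 3133, nat_lit 0, nat_lit 3783, nat_lit 1908, nat_lit 0, nat_lit 0, nat_lit 0, nat_lit 345, nat_lit 0, nat_lit 0, nat_lit 0, nat_lit 0, nat_lit 0, nat_lit 730000, nat_lit 0, nat_lit 0, [(nat_lit 15, [(nat_lit 2, nat_lit 730)])],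
 ⟨p015_k14, nat_lit 0, nat_lit 0, nat_lit 175, nat_lit 0, nat_lit 0, [nat_lit 2332591201, nat_lit 2849276000, nat_lit 1691229334], [], [nat_lit 26448090825, nat_lit 27340945723, nat_lit 28574534885, nat_lit 29372261321], nat_lit 0, nat_lit 0, nat_lit 0, nat_lit 0, nat_lit 0, nat_lit 0, [], [nat_lit 36, nat_lit 40, nat_lit 80, nat_lit 80, nat_lit 7, nat_lit 203, nat_lit 0, nat_lit 6]⟩, ⟨p015_k77, nat_lit 0, nat_lit 0, nat_lit 719, nat_lit 0, nat_lit 1195139, [nat_lit 1265760000, nat_lit 1687500000, nat_lit 2657340000], [], [nat_lit 8859752316, nat_lit 8871685227, nat_lit 9135245961, nat_lit 9158324553], nat_lit 1271250, nat_lit 1271250, nat_lit 1271250, nat_lit 1271250, nat_lit 0, nat_lit 0, [nat_lit 1100000, nat_lit 1442500, nat_lit 1271250], [nat_lit 11, nat_lit 40, nat_lit 80, nat_lit 80, nat_lit 1, nat_lit 289, nat_lit 75, nat_lit 8]⟩,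
 ⟨nat_lit 4472, nat_lit 5000, ⟨.ofNat (nat_lit 789227), .ofNat (nat_lit 860651), .ofNat (nat_lit 794581), .ofNat (nat_lit 866005), .ofNat (nat_lit 779358), .ofNat (nat_lit 847332), .ofNat (nat_lit 784747), .ofNat (nat_lit 852721)⟩, ⟨.ofNat (nat_lit 0), .ofNat (nat_lit 0), .ofNat (nat_lit 0), .ofNat (nat_lit 0), .ofNat (nat_lit 0), .ofNat (nat_lit 0), .ofNat (nat_lit 0), .ofNat (nat_lit 0)⟩⟩, []⟩
noncomputable def p015_l233 : Lf2 := ⟨nat_lit 0, nat_lit 10, [nat_lit 0, nat_lit 5, nat_lit 5, nat_lit 20], false, nat_lit 0, nat_lit 0, nat_lit 0, nat_lit 0, ⟨nat_lit 276, nat_lit 724, nat_lit 0, nat_lit 8, nat_lit 331, nat_lit 0, nat_lit 0, nat_lit 0, nat_lit 0, nat_lit 0, nat_lit 0, nat_lit 0, nat_lit 39780119, nat_lit 27219881, nat_lit 0, nat_lit 3377354, true, true⟩,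
 nat_lit 0, nat_lit 0, nat_lit 3117, nat_lit 0, nat_lit 3790, nat_lit 1940, nat_lit 0, nat_lit 0, nat_lit 0, nat_lit 332, nat_lit 0, nat_lit 0, nat_lit 0, nat_lit 0, nat_lit 0, nat_lit 724000, nat_lit 0, nat_lit 0, [(nat_lit 15, [(nat_lit 2, nat_lit 724)])],
 ⟨p015_k14, nat_lit 0, nat_lit 0, nat_lit 175, nat_lit 0, nat_lit 0, [nat_lit 2340394560, nat_lit 2864388800, nat_lit 1742178134], [], [nat_lit 26502962394, nat_lit 27396415134, nat_lit 28631120194, nat_lit 29429314874], nat_lit 0, nat_lit 0, nat_lit 0, nat_lit 0, nat_lit 0, nat_lit 0, [], [nat_lit 36, nat_lit 40, nat_lit 80, nat_lit 80, nat_lit 7, nat_lit 203, nat_lit 0, nat_lit 6]⟩, ⟨p015_k76, nat_lit 0, nat_lit 0, nat_lit 719, nat_lit 0, nat_lit 1195825, [nat_lit 1293888000, nat_lit 1725000000, nat_lit 2716392000], [], [nat_lit 9157050982, nat_lit 9169309368, nat_lit 9423901934, nat_lit 9439464124], nat_lit 1271250, nat_lit 1271250,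 nat_lit 1271250, nat_lit 1271250, nat_lit 0, nat_lit 0, [nat_lit 1100000, nat_lit 1442500, nat_lit 1271250], [nat_lit 11, nat_lit 40, nat_lit 80, nat_lit 80, nat_lit 1, nat_lit 289, nat_lit 75, nat_lit 8]⟩,
 ⟨nat_lit 4472, nat_lit 5000, ⟨.ofNat (nat_lit 794581), .ofNat (nat_lit 866005), .ofNat (nat_lit 799935), .ofNat (nat_lit 871359), .ofNat (nat_lit 784747), .ofNat (nat_lit 852721), .ofNat (nat_lit 790136), .ofNat (nat_lit 858109)⟩, ⟨.ofNat (nat_lit 0), .ofNat (nat_lit 0), .ofNat (nat_lit 0), .ofNat (nat_lit 0), .ofNat (nat_lit 0), .ofNat (nat_lit 0), .ofNat (nat_lit 0), .ofNat (nat_lit 0)⟩⟩, []⟩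
noncomputable def b_N_700_600_0_15 : St := ⟨false, nat_lit 0, nat_lit 1, nat_lit 1, nat_lit 40, nat_lit 280, nat_lit 320, nat_lit 240, nat_lit 280, nat_lit 320, nat_lit 360, nat_lit 0, nat_lit 0, nat_lit 0, nat_lit 0, nat_lit 0, nat_lit 0, nat_lit 40, nat_lit 80, nat_lit 0, nat_lit 0, nat_lit 0, nat_lit 0⟩
theorem d_N_700_600_0_15 (h : EB TB.env) : Dead b_N_700_600_0_15 := chkB_sound0 h (T :=
(.spl (nat_lit 0) (nat_lit 300)
(.spl (nat_lit 1) (nat_lit 260)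
(.spl (nat_lit 0) (nat_lit 290)
(.spl (nat_lit 0) (nat_lit 285)
(.leaf p015_l220)
(.leaf p015_l221))
(.spl (nat_lit 1) (nat_lit 250)
(.leaf p015_l222)
(.leaf p015_l223)))
(.spl (nat_lit 0) (nat_lit 290)
(.leaf p015_l224)
(.leaf p015_l225)))
(.spl (nat_lit 1) (nat_lit 260)
(.spl (nat_lit 1) (nat_lit 250)
(.spl (nat_lit 6) (nat_lit 60)
(.leaf p015_l226)
(.leaf p015_l227))
(.spl (nat_lit 1) (nat_lit 255)
(.leaf p015_l228)
(.leaf p015_l229)))
(.spl (nat_lit 1) (nat_lit 270)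
(.spl (nat_lit 1) (nat_lit 265)
(.leaf p015_l230)
(.leaf p015_l231))
(.spl (nat_lit 1) (nat_lit 275)
(.leaf p015_l232)
(.leaf p015_l233)))))) (by decide +kernel)

end B2
end Pool.Agent.Lib.MP_6947cd_al
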