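import Pool.Agent.Lib.MP_6947cd_al.ZB.Pre

/-!
Problem MP_6947cd_al (Chollet).  Case B, second entry in [2/5, 17/20]: certificates of the tree, part P016 (generated).
-/

set_option autoImplicit false
set_option linter.all false

namespace Pool.Agent.Lib.MP_6947cd_al
namespace B2

open Ent Fr B1 PkA

noncomputable def p016_k0 : C1.Kn := ⟨[nat_lit 60, nat_lit 100, nat_lit 140], [nat_lit 0, nat_lit 0, nat_lit 2047], [(nat_lit 0, nat_lit 0, nat_lit 0), (nat_lit 0, nat_lit 0, nat_lit 0), (nat_lit 1000, nat_lit 993, nat_lit 781)], (nat_lit 94, nat_lit 100, nat_lit 62)⟩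
noncomputable def p016_k1 : C1.Kn := ⟨[nat_lit 80, nat_lit 120, nat_lit 160], [nat_lit 0, nat_lit 0, nat_lit 2132], [(nat_lit 0, nat_lit 0, nat_lit 0), (nat_lit 0, nat_lit 0, nat_lit 0), (nat_lit 858, nat_lit 1000, nat_lit 713)], (nat_lit 100, nat_lit 92, nat_lit 61)⟩
noncomputable def p016_k2 : C1.Kn := ⟨[nat_lit 60, nat_lit 80, nat_lit 140], [nat_lit 0, nat_lit 0, nat_lit 1595], [(nat_lit 0, nat_lit 0, nat_lit 0), (nat_lit 0, nat_lit 0, nat_lit 0), (nat_lit 1000, nat_lit 917, nat_lit 415)], (nat_lit 94, nat_lit 100, nat_lit 62)⟩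
noncomputable def p016_k3 : C1.Kn := ⟨[nat_lit 80, nat_lit 100, nat_lit 160], [nat_lit 0, nat_lit 0, nat_lit 1533], [(nat_lit 0, nat_lit 0, nat_lit 0), (nat_lit 0, nat_lit 0, nat_lit 0), (nat_lit 1000, nat_lit 1000, nat_lit 399)], (nat_lit 100, nat_lit 92, nat_lit 61)⟩
noncomputable def p016_k4 : C1.Kn := ⟨[nat_lit 60, nat_lit 70, nat_lit 90, nat_lit 130], [nat_lit 0, nat_lit 37, nat_lit 318, nat_lit 1463], [(nat_lit 0, nat_lit 0, nat_lit 0), (nat_lit 1000, nat_lit 977, nat_lit 59), (nat_lit 1000, nat_lit 928, nat_lit 219), (nat_lit 1000, nat_lit 905, nat_lit 447)], (nat_lit 92, nat_lit 100, nat_lit 61)⟩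
noncomputable def p016_k5 : C1.Kn := ⟨[nat_lit 60, nat_lit 70, nat_lit 90, nat_lit 120], [nat_lit 0, nat_lit 75, nat_lit 359, nat_lit 1310], [(nat_lit 0, nat_lit 0, nat_lit 0), (nat_lit 1000, nat_lit 953, nat_lit 118), (nat_lit 1000, nat_lit 922, nat_lit 222), (nat_lit 1000, nat_lit 894, nat_lit 495)], (nat_lit 91, nat_lit 100, nat_lit 61)⟩
noncomputable def p016_k6 : C1.Kn := ⟨[nat_lit 80, nat_lit 100, nat_lit 160], [nat_lit 0, nat_lit 65, nat_lit 1597], [(nat_lit 0, nat_lit 0, nat_lit 0), (nat_lit 1000, nat_lit 990, nat_lit 51), (nat_lit 1000, nat_lit 990, nat_lit 399)], (nat_lit 100, nat_lit 94, nat_lit 62)⟩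
noncomputable def p016_k7 : C1.Kn := ⟨[nat_lit 80, nat_lit 100, nat_lit 140], [nat_lit 0, nat_lit 132, nat_lit 1148], [(nat_lit 0, nat_lit 0, nat_lit 0), (nat_lit 1000, nat_lit 979, nat_lit 103), (nat_lit 1000, nat_lit 979, nat_lit 397)], (nat_lit 100, nat_lit 95, nat_lit 62)⟩
noncomputable def p016_k8 : C1.Kn := ⟨[nat_lit 60, nat_lit 100, nat_lit 120], [nat_lit 0, nat_lit 609, nat_lit 1609], [(nat_lit 0, nat_lit 0, nat_lit 0), (nat_lit 1000, nat_lit 905, nat_lit 238), (nat_lit 1000, nat_lit 882, nat_lit 668)], (nat_lit 87, nat_lit 100, nat_lit 60)⟩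
noncomputable def p016_k9 : C1.Kn := ⟨[nat_lit 80, nat_lit 120, nat_lit 160], [nat_lit 0, nat_lit 130, nat_lit 2242], [(nat_lit 0, nat_lit 0, nat_lit 0), (nat_lit 1000, nat_lit 990, nat_lit 51), (nat_lit 875, nat_lit 1000, nat_lit 719)], (nat_lit 100, nat_lit 94, nat_lit 62)⟩
noncomputable def p016_k10 : C1.Kn := ⟨[nat_lit 50, nat_lit 70, nat_lit 110], [nat_lit 0, nat_lit 83, nat_lit 1204], [(nat_lit 0, nat_lit 0, nat_lit 0), (nat_lit 1000, nat_lit 967, nat_lit 65), (nat_lit 1000, nat_lit 856, nat_lit 438)], (nat_lit 85, nat_lit 100, nat_lit 60)⟩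
noncomputable def p016_k11 : C1.Kn := ⟨[nat_lit 30, nat_lit 50, nat_lit 70, nat_lit 110], [nat_lit 0, nat_lit 0, nat_lit 167, nat_lit 1284], [(nat_lit 0, nat_lit 0, nat_lit 0), (nat_lit 0, nat_lit 0, nat_lit 0), (nat_lit 1000, nat_lit 935, nat_lit 130), (nat_lit 1000, nat_lit 843, nat_lit 436)], (nat_lit 84, nat_lit 100, nat_lit 60)⟩
noncomputable def p016_k12 : C1.Kn := ⟨[nat_lit 80, nat_lit 120, nat_lit 140], [nat_lit 0, nat_lit 264, nat_lit 1360], [(nat_lit 0, nat_lit 0, nat_lit 0), (nat_lit 1000, nat_lit 979, nat_lit 103), (nat_lit 951, nat_lit 1000, nat_lit 628)], (nat_lit 100, nat_lit 95, nat_lit 62)⟩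
noncomputable def p016_k13 : C1.Kn := ⟨[nat_lit 30, nat_lit 50, nat_lit 70, nat_lit 110], [nat_lit 0, nat_lit 0, nat_lit 83, nat_lit 1204], [(nat_lit 0, nat_lit 0, nat_lit 0), (nat_lit 0, nat_lit 0, nat_lit 0), (nat_lit 1000, nat_lit 967, nat_lit 65), (nat_lit 1000, nat_lit 856, nat_lit 438)], (nat_lit 85, nat_lit 100, nat_lit 60)⟩
noncomputable def p016_k14 : C1.Kn := ⟨[nat_lit 80, nat_lit 120, nat_lit 140], [nat_lit 0, nat_lit 395, nat_lit 1464], [(nat_lit 0, nat_lit 0, nat_lit 0), (nat_lit 1000, nat_lit 969, nat_lit 154), (nat_lit 957, nat_lit 1000, nat_lit 654)], (nat_lit 100, nat_lit 97, nat_lit 62)⟩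
noncomputable def p016_k15 : C1.Kn := ⟨[nat_lit 80, nat_lit 100, nat_lit 140], [nat_lit 0, nat_lit 198, nat_lit 1210], [(nat_lit 0, nat_lit 0, nat_lit 0), (nat_lit 1000, nat_lit 969, nat_lit 154), (nat_lit 1000, nat_lit 969, nat_lit 395)], (nat_lit 100, nat_lit 97, nat_lit 62)⟩
noncomputable def p016_k16 : C1.Kn := ⟨[nat_lit 60, nat_lit 70, nat_lit 90, nat_lit 130], [nat_lit 0, nat_lit 0, nat_lit 280, nat_lit 1294], [(nat_lit 0, nat_lit 0, nat_lit 0), (nat_lit 0, nat_lit 0, nat_lit 0), (nat_lit 1000, nat_lit 934, nat_lit 219), (nat_lit 1000, nat_lit 917, nat_lit 396)], (nat_lit 94, nat_lit 100, nat_lit 62)⟩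
noncomputable def p016_k17 : C1.Kn := ⟨[nat_lit 80, nat_lit 100, nat_lit 140], [nat_lit 0, nat_lit 265, nat_lit 1269], [(nat_lit 0, nat_lit 0, nat_lit 0), (nat_lit 1000, nat_lit 959, nat_lit 206), (nat_lit 1000, nat_lit 958, nat_lit 392)], (nat_lit 100, nat_lit 99, nat_lit 63)⟩
noncomputable def p016_k18 : C1.Kn := ⟨[nat_lit 80, nat_lit 120, nat_lit 140], [nat_lit 0, nat_lit 528, nat_lit 1572], [(nat_lit 0, nat_lit 0, nat_lit 0), (nat_lit 1000, nat_lit 959, nat_lit 206), (nat_lit 966, nat_lit 1000, nat_lit 679)], (nat_lit 100, nat_lit 99, nat_lit 63)⟩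
noncomputable def p016_k19 : C1.Kn := ⟨[nat_lit 80, nat_lit 120, nat_lit 140], [nat_lit 0, nat_lit 664, nat_lit 1684], [(nat_lit 0, nat_lit 0, nat_lit 0), (nat_lit 1000, nat_lit 948, nat_lit 259), (nat_lit 975, nat_lit 1000, nat_lit 704)], (nat_lit 99, nat_lit 100, nat_lit 63)⟩
noncomputable def p016_k20 : C1.Kn := ⟨[nat_lit 80, nat_lit 120, nat_lit 140], [nat_lit 0, nat_lit 796, nat_lit 1801], [(nat_lit 0, nat_lit 0, nat_lit 0), (nat_lit 1000, nat_lit 938, nat_lit 310), (nat_lit 982, nat_lit 1000, nat_lit 736)], (nat_lit 98, nat_lit 100, nat_lit 63)⟩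
noncomputable def p016_k21 : C1.Kn := ⟨[nat_lit 80, nat_lit 100, nat_lit 140], [nat_lit 0, nat_lit 399, nat_lit 1395], [(nat_lit 0, nat_lit 0, nat_lit 0), (nat_lit 1000, nat_lit 938, nat_lit 310), (nat_lit 1000, nat_lit 938, nat_lit 389)], (nat_lit 98, nat_lit 100, nat_lit 63)⟩
noncomputable def p016_k22 : C1.Kn := ⟨[nat_lit 30, nat_lit 50, nat_lit 70, nat_lit 110], [nat_lit 0, nat_lit 0, nat_lit 255, nat_lit 1359], [(nat_lit 0, nat_lit 0, nat_lit 0), (nat_lit 0, nat_lit 0, nat_lit 0), (nat_lit 1000, nat_lit 900, nat_lit 199), (nat_lit 1000, nat_lit 831, nat_lit 431)], (nat_lit 82, nat_lit 100, nat_lit 60)⟩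
noncomputable def p016_k23 : C1.Kn := ⟨[nat_lit 60, nat_lit 80, nat_lit 120], [nat_lit 0, nat_lit 304, nat_lit 1346], [(nat_lit 0, nat_lit 0, nat_lit 0), (nat_lit 1000, nat_lit 905, nat_lit 238), (nat_lit 1000, nat_lit 871, nat_lit 407)], (nat_lit 87, nat_lit 100, nat_lit 60)⟩
noncomputable def p016_k24 : C1.Kn := ⟨[nat_lit 60, nat_lit 100, nat_lit 140], [nat_lit 0, nat_lit 84, nat_lit 2124], [(nat_lit 0, nat_lit 0, nat_lit 0), (nat_lit 1000, nat_lit 987, nat_lit 33), (nat_lit 1000, nat_lit 984, nat_lit 790)], (nat_lit 93, nat_lit 100, nat_lit 61)⟩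
noncomputable def p016_k25 : C1.Kn := ⟨[nat_lit 60, nat_lit 100, nat_lit 140], [nat_lit 0, nat_lit 151, nat_lit 2175], [(nat_lit 0, nat_lit 0, nat_lit 0), (nat_lit 1000, nat_lit 977, nat_lit 59), (nat_lit 1000, nat_lit 974, nat_lit 785)], (nat_lit 92, nat_lit 100, nat_lit 61)⟩
noncomputable def p016_k26 : C1.Kn := ⟨[nat_lit 60, nat_lit 80, nat_lit 140], [nat_lit 0, nat_lit 75, nat_lit 1666], [(nat_lit 0, nat_lit 0, nat_lit 0), (nat_lit 1000, nat_lit 977, nat_lit 59), (nat_lit 1000, nat_lit 905, nat_lit 414)], (nat_lit 92, nat_lit 100, nat_lit 61)⟩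
noncomputable def p016_k27 : C1.Kn := ⟨[nat_lit 60, nat_lit 80, nat_lit 120], [nat_lit 0, nat_lit 151, nat_lit 1205], [(nat_lit 0, nat_lit 0, nat_lit 0), (nat_lit 1000, nat_lit 953, nat_lit 118), (nat_lit 1000, nat_lit 894, nat_lit 411)], (nat_lit 91, nat_lit 100, nat_lit 61)⟩
noncomputable def p016_k28 : C1.Kn := ⟨[nat_lit 60, nat_lit 80, nat_lit 120], [nat_lit 0, nat_lit 228, nat_lit 1272], [(nat_lit 0, nat_lit 0, nat_lit 0), (nat_lit 1000, nat_lit 929, nat_lit 178), (nat_lit 1000, nat_lit 883, nat_lit 407)], (nat_lit 89, nat_lit 100, nat_lit 61)⟩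
noncomputable def p016_k29 : C1.Kn := ⟨[nat_lit 60, nat_lit 100, nat_lit 120], [nat_lit 0, nat_lit 302, nat_lit 1376], [(nat_lit 0, nat_lit 0, nat_lit 0), (nat_lit 1000, nat_lit 953, nat_lit 118), (nat_lit 1000, nat_lit 911, nat_lit 628)], (nat_lit 91, nat_lit 100, nat_lit 61)⟩
noncomputable def p016_k30 : C1.Kn := ⟨[nat_lit 60, nat_lit 80, nat_lit 140], [nat_lit 0, nat_lit 42, nat_lit 1644], [(nat_lit 0, nat_lit 0, nat_lit 0), (nat_lit 1000, nat_lit 987, nat_lit 33), (nat_lit 1000, nat_lit 910, nat_lit 417)], (nat_lit 93, nat_lit 100, nat_lit 61)⟩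
noncomputable def p016_k31 : C1.Kn := ⟨[nat_lit 80, nat_lit 100, nat_lit 140], [nat_lit 0, nat_lit 332, nat_lit 1333], [(nat_lit 0, nat_lit 0, nat_lit 0), (nat_lit 1000, nat_lit 948, nat_lit 259), (nat_lit 1000, nat_lit 948, nat_lit 391)], (nat_lit 99, nat_lit 100, nat_lit 63)⟩
noncomputable def p016_k32 : C1.Kn := ⟨[nat_lit 60, nat_lit 80, nat_lit 120], [nat_lit 0, nat_lit 195, nat_lit 1252], [(nat_lit 0, nat_lit 0, nat_lit 0), (nat_lit 1000, nat_lit 939, nat_lit 152), (nat_lit 1000, nat_lit 887, nat_lit 413)], (nat_lit 90, nat_lit 100, nat_lit 61)⟩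
noncomputable def p016_k33 : C1.Kn := ⟨[nat_lit 60, nat_lit 100, nat_lit 120], [nat_lit 0, nat_lit 755, nat_lit 1734], [(nat_lit 0, nat_lit 0, nat_lit 0), (nat_lit 1000, nat_lit 882, nat_lit 294), (nat_lit 1000, nat_lit 866, nat_lit 684)], (nat_lit 85, nat_lit 100, nat_lit 60)⟩
noncomputable def p016_k34 : C1.Kn := ⟨[nat_lit 60, nat_lit 100, nat_lit 120], [nat_lit 0, nat_lit 909, nat_lit 1866], [(nat_lit 0, nat_lit 0, nat_lit 0), (nat_lit 1000, nat_lit 858, nat_lit 354), (nat_lit 1000, nat_lit 849, nat_lit 705)], (nat_lit 84, nat_lit 100, nat_lit 60)⟩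
noncomputable def p016_k35 : C1.Kn := ⟨[nat_lit 60, nat_lit 80, nat_lit 120], [nat_lit 0, nat_lit 456, nat_lit 1495], [(nat_lit 0, nat_lit 0, nat_lit 0), (nat_lit 1000, nat_lit 859, nat_lit 351), (nat_lit 1000, nat_lit 848, nat_lit 406)], (nat_lit 84, nat_lit 100, nat_lit 60)⟩
noncomputable def p016_k36 : C1.Kn := ⟨[nat_lit 80, nat_lit 120, nat_lit 140], [nat_lit 0, nat_lit 929, nat_lit 1922], [(nat_lit 0, nat_lit 0, nat_lit 0), (nat_lit 1000, nat_lit 927, nat_lit 362), (nat_lit 993, nat_lit 1000, nat_lit 764)], (nat_lit 96, nat_lit 100, nat_lit 62)⟩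
noncomputable def p016_k37 : C1.Kn := ⟨[nat_lit 80, nat_lit 100, nat_lit 140], [nat_lit 0, nat_lit 506, nat_lit 1542], [(nat_lit 0, nat_lit 0, nat_lit 0), (nat_lit 1000, nat_lit 921, nat_lit 376), (nat_lit 1000, nat_lit 921, nat_lit 405)], (nat_lit 95, nat_lit 100, nat_lit 62)⟩
noncomputable def p016_k38 : C1.Kn := ⟨[nat_lit 80, nat_lit 100, nat_lit 140], [nat_lit 0, nat_lit 466, nat_lit 1467], [(nat_lit 0, nat_lit 0, nat_lit 0), (nat_lit 1000, nat_lit 927, nat_lit 359), (nat_lit 1000, nat_lit 927, nat_lit 391)], (nat_lit 96, nat_lit 100, nat_lit 62)⟩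
noncomputable def p016_k39 : C1.Kn := ⟨[nat_lit 60, nat_lit 80, nat_lit 120], [nat_lit 0, nat_lit 119, nat_lit 1178], [(nat_lit 0, nat_lit 0, nat_lit 0), (nat_lit 1000, nat_lit 963, nat_lit 93), (nat_lit 1000, nat_lit 898, nat_lit 413)], (nat_lit 91, nat_lit 100, nat_lit 61)⟩
noncomputable def p016_k40 : C1.Kn := ⟨[nat_lit 60, nat_lit 80, nat_lit 120], [nat_lit 0, nat_lit 379, nat_lit 1423], [(nat_lit 0, nat_lit 0, nat_lit 0), (nat_lit 1000, nat_lit 882, nat_lit 294), (nat_lit 1000, nat_lit 859, nat_lit 408)], (nat_lit 85, nat_lit 100, nat_lit 60)⟩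
noncomputable def p016_k41 : C1.Kn := ⟨[nat_lit 60, nat_lit 100, nat_lit 120], [nat_lit 0, nat_lit 1063, nat_lit 2005], [(nat_lit 0, nat_lit 0, nat_lit 0), (nat_lit 1000, nat_lit 834, nat_lit 414), (nat_lit 1000, nat_lit 833, nat_lit 732)], (nat_lit 82, nat_lit 100, nat_lit 60)⟩
noncomputable def p016_k42 : C1.Kn := ⟨[nat_lit 60, nat_lit 120, nat_lit 140], [nat_lit 0, nat_lit 0, nat_lit 2047], [(nat_lit 0, nat_lit 0, nat_lit 0), (nat_lit 0, nat_lit 0, nat_lit 0), (nat_lit 1000, nat_lit 993, nat_lit 781)], (nat_lit 94, nat_lit 100, nat_lit 62)⟩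
noncomputable def p016_k43 : C1.Kn := ⟨[nat_lit 60, nat_lit 140], [nat_lit 0, nat_lit 0], [(nat_lit 0, nat_lit 0, nat_lit 0), (nat_lit 0, nat_lit 0, nat_lit 0)], (nat_lit 94, nat_lit 100, nat_lit 62)⟩
noncomputable def p016_k44 : C1.Kn := ⟨[nat_lit 60, nat_lit 120], [nat_lit 0, nat_lit 913], [(nat_lit 0, nat_lit 0, nat_lit 0), (nat_lit 1000, nat_lit 905, nat_lit 238)], (nat_lit 87, nat_lit 100, nat_lit 60)⟩
noncomputable def p016_k45 : C1.Kn := ⟨[nat_lit 60, nat_lit 100, nat_lit 120], [nat_lit 0, nat_lit 455, nat_lit 1489], [(nat_lit 0, nat_lit 0, nat_lit 0), (nat_lit 1000, nat_lit 929, nat_lit 178), (nat_lit 1000, nat_lit 895, nat_lit 641)], (nat_lit 89, nat_lit 100, nat_lit 61)⟩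
noncomputable def p016_k46 : C1.Kn := ⟨[nat_lit 60, nat_lit 120], [nat_lit 0, nat_lit 453], [(nat_lit 0, nat_lit 0, nat_lit 0), (nat_lit 1000, nat_lit 953, nat_lit 118)], (nat_lit 91, nat_lit 100, nat_lit 61)⟩
noncomputable def p016_k47 : C1.Kn := ⟨[nat_lit 60, nat_lit 100, nat_lit 120], [nat_lit 0, nat_lit 0, nat_lit 1164], [(nat_lit 0, nat_lit 0, nat_lit 0), (nat_lit 0, nat_lit 0, nat_lit 0), (nat_lit 1000, nat_lit 933, nat_lit 572)], (nat_lit 92, nat_lit 100, nat_lit 44)⟩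
noncomputable def p016_k48 : C1.Kn := ⟨[nat_lit 60, nat_lit 100], [nat_lit 0, nat_lit 302], [(nat_lit 0, nat_lit 0, nat_lit 0), (nat_lit 1000, nat_lit 953, nat_lit 118)], (nat_lit 89, nat_lit 100, nat_lit 44)⟩
noncomputable def p016_k49 : C1.Kn := ⟨[nat_lit 60, nat_lit 100, nat_lit 120], [nat_lit 0, nat_lit 302, nat_lit 1376], [(nat_lit 0, nat_lit 0, nat_lit 0), (nat_lit 1000, nat_lit 953, nat_lit 118), (nat_lit 1000, nat_lit 911, nat_lit 628)], (nat_lit 90, nat_lit 100, nat_lit 55)⟩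
noncomputable def p016_k50 : C1.Kn := ⟨[nat_lit 60, nat_lit 100, nat_lit 120], [nat_lit 0, nat_lit 0, nat_lit 1164], [(nat_lit 0, nat_lit 0, nat_lit 0), (nat_lit 0, nat_lit 0, nat_lit 0), (nat_lit 1000, nat_lit 933, nat_lit 572)], (nat_lit 93, nat_lit 100, nat_lit 55)⟩
noncomputable def p016_k51 : C1.Kn := ⟨[nat_lit 60, nat_lit 100, nat_lit 120], [nat_lit 0, nat_lit 455, nat_lit 1489], [(nat_lit 0, nat_lit 0, nat_lit 0), (nat_lit 1000, nat_lit 929, nat_lit 178), (nat_lit 1000, nat_lit 895, nat_lit 641)], (nat_lit 88, nat_lit 100, nat_lit 54)⟩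
noncomputable def p016_k52 : C1.Kn := ⟨[nat_lit 50, nat_lit 70, nat_lit 120], [nat_lit 0, nat_lit 0, nat_lit 1402], [(nat_lit 0, nat_lit 0, nat_lit 0), (nat_lit 0, nat_lit 0, nat_lit 0), (nat_lit 1000, nat_lit 868, nat_lit 437)], (nat_lit 87, nat_lit 100, nat_lit 60)⟩
noncomputable def p016_k53 : C1.Kn := ⟨[nat_lit 50, nat_lit 70, nat_lit 110], [nat_lit 0, nat_lit 167, nat_lit 1284], [(nat_lit 0, nat_lit 0, nat_lit 0), (nat_lit 1000, nat_lit 935, nat_lit 130), (nat_lit 1000, nat_lit 843, nat_lit 436)], (nat_lit 84, nat_lit 100, nat_lit 60)⟩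
noncomputable def p016_k54 : C1.Kn := ⟨[nat_lit 50, nat_lit 60, nat_lit 80, nat_lit 110], [nat_lit 0, nat_lit 127, nat_lit 435, nat_lit 1527], [(nat_lit 0, nat_lit 0, nat_lit 0), (nat_lit 1000, nat_lit 902, nat_lit 195), (nat_lit 1000, nat_lit 884, nat_lit 241), (nat_lit 1000, nat_lit 818, nat_lit 568)], (nat_lit 82, nat_lit 100, nat_lit 60)⟩
noncomputable def p016_k55 : C1.Kn := ⟨[nat_lit 50, nat_lit 70, nat_lit 110, nat_lit 120], [nat_lit 0, nat_lit 0, nat_lit 783, nat_lit 1332], [(nat_lit 0, nat_lit 0, nat_lit 0), (nat_lit 0, nat_lit 0, nat_lit 0), (nat_lit 1000, nat_lit 908, nat_lit 305), (nat_lit 1000, nat_lit 916, nat_lit 621)], (nat_lit 91, nat_lit 100, nat_lit 61)⟩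
noncomputable def p016_k56 : C1.Kn := ⟨[nat_lit 40, nat_lit 60, nat_lit 80, nat_lit 120, nat_lit 130], [nat_lit 0, nat_lit 0, nat_lit 0, nat_lit 1064, nat_lit 1572], [(nat_lit 0, nat_lit 0, nat_lit 0), (nat_lit 0, nat_lit 0, nat_lit 0), (nat_lit 0, nat_lit 0, nat_lit 0), (nat_lit 1000, nat_lit 917, nat_lit 415), (nat_lit 1000, nat_lit 958, nat_lit 677)], (nat_lit 94, nat_lit 100, nat_lit 62)⟩
noncomputable def p016_k57 : C1.Kn := ⟨[nat_lit 60, nat_lit 80, nat_lit 130], [nat_lit 0, nat_lit 0, nat_lit 1330], [(nat_lit 0, nat_lit 0, nat_lit 0), (nat_lit 0, nat_lit 0, nat_lit 0), (nat_lit 1000, nat_lit 917, nat_lit 415)], (nat_lit 94, nat_lit 100, nat_lit 62)⟩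
noncomputable def p016_k58 : C1.Kn := ⟨[nat_lit 60, nat_lit 80, nat_lit 120], [nat_lit 0, nat_lit 0, nat_lit 1064], [(nat_lit 0, nat_lit 0, nat_lit 0), (nat_lit 0, nat_lit 0, nat_lit 0), (nat_lit 1000, nat_lit 917, nat_lit 415)], (nat_lit 92, nat_lit 100, nat_lit 44)⟩
noncomputable def p016_k59 : C1.Kn := ⟨[nat_lit 60, nat_lit 80, nat_lit 110], [nat_lit 0, nat_lit 0, nat_lit 799], [(nat_lit 0, nat_lit 0, nat_lit 0), (nat_lit 0, nat_lit 0, nat_lit 0), (nat_lit 1000, nat_lit 917, nat_lit 415)], (nat_lit 92, nat_lit 100, nat_lit 44)⟩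
noncomputable def p016_k60 : C1.Kn := ⟨[nat_lit 60, nat_lit 80, nat_lit 100], [nat_lit 0, nat_lit 304, nat_lit 825], [(nat_lit 0, nat_lit 0, nat_lit 0), (nat_lit 1000, nat_lit 905, nat_lit 238), (nat_lit 1000, nat_lit 871, nat_lit 407)], (nat_lit 87, nat_lit 100, nat_lit 44)⟩
noncomputable def p016_k61 : C1.Kn := ⟨[nat_lit 60, nat_lit 80, nat_lit 100], [nat_lit 0, nat_lit 379, nat_lit 901], [(nat_lit 0, nat_lit 0, nat_lit 0), (nat_lit 1000, nat_lit 882, nat_lit 294), (nat_lit 1000, nat_lit 859, nat_lit 408)], (nat_lit 86, nat_lit 100, nat_lit 44)⟩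
noncomputable def p016_k62 : C1.Kn := ⟨[nat_lit 60, nat_lit 80, nat_lit 120], [nat_lit 0, nat_lit 426, nat_lit 1462], [(nat_lit 0, nat_lit 0, nat_lit 0), (nat_lit 1000, nat_lit 867, nat_lit 332), (nat_lit 1000, nat_lit 852, nat_lit 405)], (nat_lit 84, nat_lit 100, nat_lit 60)⟩
noncomputable def p016_k63 : C1.Kn := ⟨[nat_lit 60, nat_lit 80, nat_lit 100], [nat_lit 0, nat_lit 456, nat_lit 976], [(nat_lit 0, nat_lit 0, nat_lit 0), (nat_lit 1000, nat_lit 859, nat_lit 351), (nat_lit 1000, nat_lit 848, nat_lit 406)], (nat_lit 84, nat_lit 100, nat_lit 44)⟩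
noncomputable def p016_k64 : C1.Kn := ⟨[nat_lit 60, nat_lit 80, nat_lit 100], [nat_lit 0, nat_lit 533, nat_lit 1067], [(nat_lit 0, nat_lit 0, nat_lit 0), (nat_lit 1000, nat_lit 837, nat_lit 397), (nat_lit 1000, nat_lit 833, nat_lit 417)], (nat_lit 83, nat_lit 100, nat_lit 44)⟩
noncomputable def p016_k65 : C1.Kn := ⟨[nat_lit 60, nat_lit 80, nat_lit 120], [nat_lit 0, nat_lit 533, nat_lit 1600], [(nat_lit 0, nat_lit 0, nat_lit 0), (nat_lit 1000, nat_lit 837, nat_lit 397), (nat_lit 1000, nat_lit 833, nat_lit 417)], (nat_lit 82, nat_lit 100, nat_lit 60)⟩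
noncomputable def p016_l0 : Lf2 := ⟨nat_lit 0, nat_lit 10, [nat_lit 0, nat_lit 5, nat_lit 5, nat_lit 20], false, nat_lit 0, nat_lit 0, nat_lit 0, nat_lit 0, ⟨nat_lit 1000, nat_lit 0, nat_lit 0, nat_lit 0, nat_lit 0, nat_lit 0, nat_lit 0, nat_lit 0, nat_lit 0, nat_lit 0, nat_lit 0, nat_lit 0, nat_lit 0, nat_lit 0, nat_lit 0, nat_lit 0, false, false⟩,
 nat_lit 0, nat_lit 0, nat_lit 1559, nat_lit 0, nat_lit 6730, nat_lit 825, nat_lit 0, nat_lit 0, nat_lit 0, nat_lit 304, nat_lit 0, nat_lit 439, nat_lit 0, nat_lit 0, nat_lit 0, nat_lit 0, nat_lit 0, nat_lit 0, [],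
 ⟨p016_k0, nat_lit 0, nat_lit 0, nat_lit 219, nat_lit 0, nat_lit 0, [nat_lit 3282000000, nat_lit 6250000000, nat_lit 9842000000], [], [nat_lit 40178158300, nat_lit 41728908920, nat_lit 42579607320, nat_lit 44109252000], nat_lit 0, nat_lit 0, nat_lit 0, nat_lit 0, nat_lit 0, nat_lit 0, [], [nat_lit 8, nat_lit 40, nat_lit 80, nat_lit 80, nat_lit 1, nat_lit 203, nat_lit 0, nat_lit 5]⟩, ⟨p016_k1, nat_lit 0, nat_lit 0, nat_lit 0, nat_lit 0, nat_lit 1510677, [nat_lit 4688000000, nat_lit 7968000000, nat_lit 11872000000], [], [nat_lit 21892022950, nat_lit 22681986050, nat_lit 22920275800, nat_lit 23711141500], nat_lit 1271250, nat_lit 1271250, nat_lit 1271250, nat_lit 1271250, nat_lit 0, nat_lit 0, [nat_lit 1100000, nat_lit 1785000, nat_lit 1271250], [nat_lit 21, nat_lit 40, nat_lit 80, nat_lit 80]⟩,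
 zbF0, []⟩
noncomputable def p016_l1 : Lf2 := ⟨nat_lit 0, nat_lit 10, [nat_lit 0, nat_lit 5, nat_lit 5, nat_lit 20], false, nat_lit 0, nat_lit 0, nat_lit 0, nat_lit 0, ⟨nat_lit 1000, nat_lit 0, nat_lit 0, nat_lit 0, nat_lit 0, nat_lit 0, nat_lit 0, nat_lit 0, nat_lit 0, nat_lit 0, nat_lit 0, nat_lit 0, nat_lit 0, nat_lit 0, nat_lit 0, nat_lit 0, false, false⟩,
 nat_lit 0, nat_lit 0, nat_lit 13093, nat_lit 0, nat_lit 5279, nat_lit 6931, nat_lit 1481, nat_lit 0, nat_lit 0, nat_lit 1467, nat_lit 0, nat_lit 0, nat_lit 0, nat_lit 0, nat_lit 0, nat_lit 0, nat_lit 0, nat_lit 0, [],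
 ⟨p016_k2, nat_lit 0, nat_lit 0, nat_lit 0, nat_lit 0, nat_lit 0, [nat_lit 3282000000, nat_lit 4688000000, nat_lit 9842000000], [], [nat_lit 31691570047, nat_lit 31869798443, nat_lit 33944713561, nat_lit 34110768781], nat_lit 0, nat_lit 0, nat_lit 0, nat_lit 0, nat_lit 0, nat_lit 0, [], [nat_lit 42, nat_lit 40, nat_lit 80, nat_lit 80]⟩, ⟨p016_k3, nat_lit 0, nat_lit 0, nat_lit 580, nat_lit 0, nat_lit 783884, [nat_lit 4688000000, nat_lit 6250000000, nat_lit 11872000000], [], [nat_lit 38418421977, nat_lit 38644280888, nat_lit 39666416769, nat_lit 39864733148], nat_lit 1271250, nat_lit 1271250, nat_lit 1271250, nat_lit 1271250, nat_lit 0, nat_lit 0, [nat_lit 1100000, nat_lit 1442500, nat_lit 1271250], [nat_lit 48, nat_lit 40, nat_lit 80, nat_lit 80, nat_lit 12, nat_lit 289, nat_lit 75, nat_lit 7]⟩,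
 zbF0, []⟩
noncomputable def p016_l2 : Lf2 := ⟨nat_lit 0, nat_lit 10, [nat_lit 0, nat_lit 5, nat_lit 5, nat_lit 20], false, nat_lit 0, nat_lit 0, nat_lit 0, nat_lit 0, ⟨nat_lit 1000, nat_lit 0, nat_lit 0, nat_lit 0, nat_lit 0, nat_lit 0, nat_lit 0, nat_lit 0, nat_lit 0, nat_lit 0, nat_lit 0, nat_lit 0, nat_lit 0, nat_lit 0, nat_lit 0, nat_lit 0, false, false⟩,
 nat_lit 0, nat_lit 0, nat_lit 13045, nat_lit 0, nat_lit 4504, nat_lit 6906, nat_lit 1072, nat_lit 0, nat_lit 0, nat_lit 1462, nat_lit 0, nat_lit 0, nat_lit 0, nat_lit 0, nat_lit 0, nat_lit 0, nat_lit 0, nat_lit 0, [],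
 ⟨p016_k4, nat_lit 0, nat_lit 0, nat_lit 0, nat_lit 0, nat_lit 0, [nat_lit 3282000000, nat_lit 3965500000, nat_lit 5449500000, nat_lit 8885500000], [], [nat_lit 31491713108, nat_lit 31694065720, nat_lit 33863776080, nat_lit 34040312592], nat_lit 0, nat_lit 0, nat_lit 0, nat_lit 0, nat_lit 0, nat_lit 0, [], [nat_lit 148, nat_lit 40, nat_lit 20, nat_lit 40]⟩, ⟨p016_k3, nat_lit 0, nat_lit 0, nat_lit 642, nat_lit 0, nat_lit 854433, [nat_lit 4688000000, nat_lit 6250000000, nat_lit 11872000000], [], [nat_lit 38537292802, nat_lit 38763662188, nat_lit 39783811794, nat_lit 39956235970], nat_lit 1271250, nat_lit 1271250, nat_lit 1271250, nat_lit 1271250, nat_lit 0, nat_lit 0, [nat_lit 1100000, nat_lit 1442500, nat_lit 1271250], [nat_lit 48, nat_lit 40, nat_lit 80, nat_lit 80, nat_lit 12, nat_lit 289, nat_lit 75, nat_lit 7]⟩,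
 zbF0, [⟨nat_lit 13, nat_lit 95, nat_lit 14, nat_lit 100, nat_lit 12841596⟩]⟩
noncomputable def p016_l3 : Lf2 := ⟨nat_lit 0, nat_lit 10, [nat_lit 0, nat_lit 5, nat_lit 5, nat_lit 20], false, nat_lit 0, nat_lit 0, nat_lit 0, nat_lit 0, ⟨nat_lit 1000, nat_lit 0, nat_lit 0, nat_lit 0, nat_lit 0, nat_lit 0, nat_lit 0, nat_lit 0, nat_lit 0, nat_lit 0, nat_lit 0, nat_lit 0, nat_lit 0, nat_lit 0, nat_lit 0, nat_lit 0, false, false⟩,
 nat_lit 0, nat_lit 0, nat_lit 13170, nat_lit 0, nat_lit 4528, nat_lit 6972, nat_lit 822, nat_lit 0, nat_lit 0, nat_lit 1487, nat_lit 0, nat_lit 0, nat_lit 0, nat_lit 0, nat_lit 0, nat_lit 0, nat_lit 0, nat_lit 0, [],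
 ⟨p016_k5, nat_lit 0, nat_lit 0, nat_lit 0, nat_lit 0, nat_lit 0, [nat_lit 3282000000, nat_lit 3965500000, nat_lit 5449500000, nat_lit 7968000000], [], [nat_lit 31703345388, nat_lit 32123029748, nat_lit 33896317310, nat_lit 34271057024], nat_lit 0, nat_lit 0, nat_lit 0, nat_lit 0, nat_lit 0, nat_lit 0, [], [nat_lit 166, nat_lit 40, nat_lit 20, nat_lit 40]⟩, ⟨p016_k3, nat_lit 0, nat_lit 0, nat_lit 648, nat_lit 0, nat_lit 872288, [nat_lit 4688000000, nat_lit 6250000000, nat_lit 11872000000], [], [nat_lit 38166944449, nat_lit 38223199882, nat_lit 39292318043, nat_lit 39336342472], nat_lit 1271250, nat_lit 1271250, nat_lit 1271250, nat_lit 1271250, nat_lit 0, nat_lit 0, [nat_lit 1100000, nat_lit 1442500, nat_lit 1271250], [nat_lit 48, nat_lit 40, nat_lit 80, nat_lit 80, nat_lit 12, nat_lit 289, nat_lit 75, nat_lit 7]⟩,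
 zbF0, [⟨nat_lit 13, nat_lit 88, nat_lit 32, nat_lit 100, nat_lit 22347139⟩]⟩
noncomputable def p016_l4 : Lf2 := ⟨nat_lit 0, nat_lit 10, [nat_lit 0, nat_lit 5, nat_lit 5, nat_lit 20], false, nat_lit 0, nat_lit 0, nat_lit 0, nat_lit 0, ⟨nat_lit 1000, nat_lit 0, nat_lit 0, nat_lit 0, nat_lit 0, nat_lit 0, nat_lit 0, nat_lit 0, nat_lit 0, nat_lit 0, nat_lit 0, nat_lit 0, nat_lit 0, nat_lit 0, nat_lit 0, nat_lit 0, false, false⟩,
 nat_lit 0, nat_lit 0, nat_lit 12828, nat_lit 0, nat_lit 4528, nat_lit 6958, nat_lit 822, nat_lit 0, nat_lit 0, nat_lit 1482, nat_lit 0, nat_lit 0, nat_lit 0, nat_lit 0, nat_lit 0, nat_lit 0, nat_lit 0, nat_lit 0, [],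
 ⟨p016_k5, nat_lit 0, nat_lit 0, nat_lit 0, nat_lit 0, nat_lit 0, [nat_lit 3282000000, nat_lit 3965500000, nat_lit 5449500000, nat_lit 7968000000], [], [nat_lit 31703345388, nat_lit 32123029748, nat_lit 33896317310, nat_lit 34271057024], nat_lit 0, nat_lit 0, nat_lit 0, nat_lit 0, nat_lit 0, nat_lit 0, [], [nat_lit 166, nat_lit 40, nat_lit 20, nat_lit 40]⟩, ⟨p016_k6, nat_lit 0, nat_lit 0, nat_lit 650, nat_lit 0, nat_lit 882448, [nat_lit 4688000000, nat_lit 6250000000, nat_lit 11872000000], [], [nat_lit 37100884636, nat_lit 37157211535, nat_lit 38213303220, nat_lit 38257418912], nat_lit 1271250, nat_lit 1271250, nat_lit 1271250, nat_lit 1271250, nat_lit 0, nat_lit 0, [nat_lit 1100000, nat_lit 1442500, nat_lit 1271250], [nat_lit 48, nat_lit 40, nat_lit 80, nat_lit 80, nat_lit 12, nat_lit 289, nat_lit 75, nat_lit 7]⟩,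
 zbF0, [⟨nat_lit 13, nat_lit 91, nat_lit 26, nat_lit 100, nat_lit 22201243⟩]⟩
noncomputable def p016_l5 : Lf2 := ⟨nat_lit 0, nat_lit 10, [nat_lit 0, nat_lit 5, nat_lit 5, nat_lit 20], false, nat_lit 0, nat_lit 0, nat_lit 0, nat_lit 0, ⟨nat_lit 1000, nat_lit 0, nat_lit 0, nat_lit 0, nat_lit 0, nat_lit 0, nat_lit 0, nat_lit 0, nat_lit 0, nat_lit 0, nat_lit 0, nat_lit 0, nat_lit 0, nat_lit 0, nat_lit 0, nat_lit 0, false, false⟩,
 nat_lit 0, nat_lit 0, nat_lit 13576, nat_lit 0, nat_lit 4942, nat_lit 7542, nat_lit 1054, nat_lit 0, nat_lit 0, nat_lit 1304, nat_lit 0, nat_lit 0, nat_lit 0, nat_lit 0, nat_lit 0, nat_lit 0, nat_lit 0, nat_lit 0, [],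
 ⟨p016_k5, nat_lit 0, nat_lit 0, nat_lit 0, nat_lit 0, nat_lit 0, [nat_lit 3282000000, nat_lit 3965500000, nat_lit 5449500000, nat_lit 7968000000], [], [nat_lit 31441534636, nat_lit 31827993790, nat_lit 33689131626, nat_lit 34026662642], nat_lit 0, nat_lit 0, nat_lit 0, nat_lit 0, nat_lit 0, nat_lit 0, [], [nat_lit 166, nat_lit 40, nat_lit 20, nat_lit 40]⟩, ⟨p016_k7, nat_lit 0, nat_lit 0, nat_lit 607, nat_lit 0, nat_lit 935158, [nat_lit 4688000000, nat_lit 6250000000, nat_lit 9842000000], [], [nat_lit 35036701918, nat_lit 35147173030, nat_lit 36300167108, nat_lit 36393772736], nat_lit 1271250, nat_lit 1271250, nat_lit 1271250, nat_lit 1271250, nat_lit 0, nat_lit 0, [nat_lit 1100000, nat_lit 1442500, nat_lit 1271250], [nat_lit 11, nat_lit 40, nat_lit 80, nat_lit 80, nat_lit 1, nat_lit 289, nat_lit 75, nat_lit 8]⟩,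
 zbF0, [⟨nat_lit 13, nat_lit 92, nat_lit 22, nat_lit 100, nat_lit 5261633⟩]⟩
noncomputable def p016_l6 : Lf2 := ⟨nat_lit 0, nat_lit 10, [nat_lit 0, nat_lit 5, nat_lit 5, nat_lit 20], false, nat_lit 0, nat_lit 0, nat_lit 0, nat_lit 0, ⟨nat_lit 67, nat_lit 933, nat_lit 0, nat_lit 9, nat_lit 342, nat_lit 0, nat_lit 0, nat_lit 0, nat_lit 0, nat_lit 0, nat_lit 0, nat_lit 0, nat_lit 38664626, nat_lit 28335374, nat_lit 0, nat_lit 3406078, true, true⟩,
 nat_lit 0, nat_lit 0, nat_lit 1144, nat_lit 0, nat_lit 3466, nat_lit 605, nat_lit 0, nat_lit 0, nat_lit 0, nat_lit 43, nat_lit 0, nat_lit 0, nat_lit 0, nat_lit 0, nat_lit 0, nat_lit 373200, nat_lit 0, nat_lit 0, [(nat_lit 15, [(nat_lit 1, nat_lit 933)])],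
 ⟨p016_k8, nat_lit 0, nat_lit 0, nat_lit 0, nat_lit 0, nat_lit 0, [nat_lit 2104740601, nat_lit 2615840601, nat_lit 2703577999], [], [nat_lit 29457160300, nat_lit 29845421136, nat_lit 31096229196, nat_lit 31448786223], nat_lit 0, nat_lit 0, nat_lit 0, nat_lit 0, nat_lit 0, nat_lit 0, [], [nat_lit 18, nat_lit 40, nat_lit 80, nat_lit 80]⟩, ⟨p016_k1, nat_lit 0, nat_lit 0, nat_lit 696, nat_lit 0, nat_lit 1001405, [nat_lit 314096000, nat_lit 533856000, nat_lit 795424000], [], [nat_lit 2725339568, nat_lit 2725497131, nat_lit 2771081386, nat_lit 2770579372], nat_lit 1271250, nat_lit 1271250, nat_lit 1271250, nat_lit 1271250, nat_lit 0, nat_lit 0, [nat_lit 1100000, nat_lit 1785000, nat_lit 1271250], [nat_lit 21, nat_lit 40, nat_lit 80, nat_lit 80, nat_lit 14, nat_lit 289, nat_lit 75, nat_lit 7]⟩,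
 ⟨nat_lit 4743, nat_lit 5000, ⟨.ofNat (nat_lit 828558), .ofNat (nat_lit 885699), .ofNat (nat_lit 833914), .ofNat (nat_lit 891056), .ofNat (nat_lit 821762), .ofNat (nat_lit 877520), .ofNat (nat_lit 827133), .ofNat (nat_lit 882891)⟩, ⟨.ofNat (nat_lit 0), .ofNat (nat_lit 0), .ofNat (nat_lit 0), .ofNat (nat_lit 0), .ofNat (nat_lit 0), .ofNat (nat_lit 0), .ofNat (nat_lit 0), .ofNat (nat_lit 0)⟩⟩, [⟨nat_lit 13, nat_lit 87, nat_lit 34, nat_lit 100, nat_lit 184993248⟩]⟩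
noncomputable def p016_l7 : Lf2 := ⟨nat_lit 0, nat_lit 10, [nat_lit 0, nat_lit 5, nat_lit 5, nat_lit 20], false, nat_lit 0, nat_lit 0, nat_lit 0, nat_lit 0, ⟨nat_lit 94, nat_lit 906, nat_lit 0, nat_lit 9, nat_lit 347, nat_lit 0, nat_lit 0, nat_lit 0, nat_lit 0, nat_lit 0, nat_lit 0, nat_lit 0, nat_lit 38254403, nat_lit 28745597, nat_lit 0, nat_lit 3415209, true, true⟩,
 nat_lit 0, nat_lit 0, nat_lit 1513, nat_lit 0, nat_lit 3492, nat_lit 820, nat_lit 139, nat_lit 0, nat_lit 0, nat_lit 69, nat_lit 0, nat_lit 0, nat_lit 0, nat_lit 0, nat_lit 0, nat_lit 362400, nat_lit 0, nat_lit 0, [(nat_lit 15, [(nat_lit 1, nat_lit 906)])],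
 ⟨p016_k8, nat_lit 0, nat_lit 0, nat_lit 0, nat_lit 0, nat_lit 0, [nat_lit 2138809201, nat_lit 2721009201, nat_lit 2854795999], [], [nat_lit 28943556912, nat_lit 29134583609, nat_lit 30785170521, nat_lit 30959756765], nat_lit 0, nat_lit 0, nat_lit 0, nat_lit 0, nat_lit 0, nat_lit 0, [], [nat_lit 18, nat_lit 40, nat_lit 80, nat_lit 80]⟩, ⟨p016_k9, nat_lit 0, nat_lit 0, nat_lit 668, nat_lit 0, nat_lit 927047, [nat_lit 440672000, nat_lit 748992000, nat_lit 1115968000], [], [nat_lit 3703385179, nat_lit 3706579017, nat_lit 3809620397, nat_lit 3814524055], nat_lit 1271250, nat_lit 1271250, nat_lit 1271250, nat_lit 1271250, nat_lit 0, nat_lit 0, [nat_lit 1100000, nat_lit 1785000, nat_lit 1271250], [nat_lit 21, nat_lit 40, nat_lit 80, nat_lit 80, nat_lit 14, nat_lit 289, nat_lit 75, nat_lit 7]⟩,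
 ⟨nat_lit 4873, nat_lit 5000, ⟨.ofNat (nat_lit 833924), .ofNat (nat_lit 898210), .ofNat (nat_lit 839281), .ofNat (nat_lit 903567), .ofNat (nat_lit 830523), .ofNat (nat_lit 894030), .ofNat (nat_lit 835887), .ofNat (nat_lit 899394)⟩, ⟨.ofNat (nat_lit 0), .ofNat (nat_lit 0), .ofNat (nat_lit 0), .ofNat (nat_lit 0), .ofNat (nat_lit 0), .ofNat (nat_lit 0), .ofNat (nat_lit 0), .ofNat (nat_lit 0)⟩⟩, [⟨nat_lit 13, nat_lit 88, nat_lit 30, nat_lit 100, nat_lit 178900637⟩]⟩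
noncomputable def p016_l8 : Lf2 := ⟨nat_lit 0, nat_lit 10, [nat_lit 0, nat_lit 5, nat_lit 5, nat_lit 20], false, nat_lit 0, nat_lit 0, nat_lit 0, nat_lit 0, ⟨nat_lit 74, nat_lit 926, nat_lit 0, nat_lit 9, nat_lit 344, nat_lit 0, nat_lit 0, nat_lit 0, nat_lit 0, nat_lit 0, nat_lit 0, nat_lit 0, nat_lit 38530979, nat_lit 28469021, nat_lit 0, nat_lit 3409137, true, true⟩,
 nat_lit 0, nat_lit 0, nat_lit 980, nat_lit 0, nat_lit 3759, nat_lit 531, nat_lit 0, nat_lit 0, nat_lit 0, nat_lit 101, nat_lit 0, nat_lit 0, nat_lit 0, nat_lit 0, nat_lit 0, nat_lit 231500, nat_lit 0, nat_lit 0, [(nat_lit 15, [(nat_lit 0, nat_lit 926)])],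
 ⟨p016_k10, nat_lit 0, nat_lit 0, nat_lit 0, nat_lit 0, nat_lit 0, [nat_lit 1984207000, nat_lit 2296199801, nat_lit 3215486467], [], [nat_lit 29992096078, nat_lit 30180410868, nat_lit 31611580785, nat_lit 31782793475], nat_lit 0, nat_lit 0, nat_lit 0, nat_lit 0, nat_lit 0, nat_lit 0, [], [nat_lit 210, nat_lit 40, nat_lit 20, nat_lit 40]⟩, ⟨p016_k6, nat_lit 0, nat_lit 0, nat_lit 692, nat_lit 0, nat_lit 1003917, [nat_lit 346912000, nat_lit 462500000, nat_lit 878528000], [], [nat_lit 2834331243, nat_lit 2836855238, nat_lit 2891143100, nat_lit 2893008898], nat_lit 1271250, nat_lit 1271250, nat_lit 1271250, nat_lit 1271250, nat_lit 0, nat_lit 0, [nat_lit 1100000, nat_lit 1442500, nat_lit 1271250], [nat_lit 48, nat_lit 40, nat_lit 80, nat_lit 80, nat_lit 12, nat_lit 289, nat_lit 75, nat_lit 7]⟩,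
 ⟨nat_lit 4743, nat_lit 4874, ⟨.ofNat (nat_lit 830524), .ofNat (nat_lit 886974), .ofNat (nat_lit 835888), .ofNat (nat_lit 892338), .ofNat (nat_lit 827143), .ofNat (nat_lit 882903), .ofNat (nat_lit 832515), .ofNat (nat_lit 888275)⟩, ⟨.ofNat (nat_lit 0), .ofNat (nat_lit 0), .ofNat (nat_lit 0), .ofNat (nat_lit 0), .ofNat (nat_lit 0), .ofNat (nat_lit 0), .ofNat (nat_lit 0), .ofNat (nat_lit 0)⟩⟩, [⟨nat_lit 13, nat_lit 87, nat_lit 33, nat_lit 100, nat_lit 183767335⟩]⟩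
noncomputable def p016_l9 : Lf2 := ⟨nat_lit 0, nat_lit 10, [nat_lit 0, nat_lit 5, nat_lit 5, nat_lit 20], false, nat_lit 0, nat_lit 0, nat_lit 0, nat_lit 0, ⟨nat_lit 1000, nat_lit 0, nat_lit 0, nat_lit 0, nat_lit 0, nat_lit 0, nat_lit 0, nat_lit 0, nat_lit 0, nat_lit 0, nat_lit 0, nat_lit 0, nat_lit 0, nat_lit 0, nat_lit 0, nat_lit 0, false, false⟩,
 nat_lit 0, nat_lit 0, nat_lit 12203, nat_lit 0, nat_lit 4499, nat_lit 6460, nat_lit 0, nat_lit 0, nat_lit 0, nat_lit 786, nat_lit 0, nat_lit 0, nat_lit 0, nat_lit 0, nat_lit 0, nat_lit 0, nat_lit 0, nat_lit 0, [],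
 ⟨p016_k8, nat_lit 0, nat_lit 0, nat_lit 0, nat_lit 0, nat_lit 0, [nat_lit 3282000000, nat_lit 6250000000, nat_lit 7968000000], [], [nat_lit 35579076550, nat_lit 36001887104, nat_lit 37650638212, nat_lit 38024675748], nat_lit 0, nat_lit 0, nat_lit 0, nat_lit 0, nat_lit 0, nat_lit 0, [], [nat_lit 18, nat_lit 40, nat_lit 80, nat_lit 80]⟩, ⟨p016_k1, nat_lit 0, nat_lit 0, nat_lit 530, nat_lit 0, nat_lit 613561, [nat_lit 4688000000, nat_lit 7968000000, nat_lit 11872000000], [], [nat_lit 43745201640, nat_lit 43873075390, nat_lit 44943083785, nat_lit 45045615776], nat_lit 1271250, nat_lit 1271250, nat_lit 1271250, nat_lit 1271250, nat_lit 0, nat_lit 0, [nat_lit 1100000, nat_lit 1785000, nat_lit 1271250], [nat_lit 21, nat_lit 40, nat_lit 80, nat_lit 80, nat_lit 14, nat_lit 289, nat_lit 75, nat_lit 7]⟩,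
 zbF0, [⟨nat_lit 13, nat_lit 87, nat_lit 33, nat_lit 100, nat_lit 19926768⟩]⟩
noncomputable def p016_l10 : Lf2 := ⟨nat_lit 0, nat_lit 10, [nat_lit 0, nat_lit 5, nat_lit 5, nat_lit 20], false, nat_lit 0, nat_lit 0, nat_lit 0, nat_lit 0, ⟨nat_lit 78, nat_lit 922, nat_lit 0, nat_lit 9, nat_lit 341, nat_lit 0, nat_lit 0, nat_lit 0, nat_lit 0, nat_lit 0, nat_lit 0, nat_lit 0, nat_lit 38846406, nat_lit 28153594, nat_lit 0, nat_lit 3401786, true, true⟩,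
 nat_lit 0, nat_lit 0, nat_lit 1115, nat_lit 0, nat_lit 3672, nat_lit 590, nat_lit 0, nat_lit 0, nat_lit 0, nat_lit 100, nat_lit 0, nat_lit 0, nat_lit 0, nat_lit 0, nat_lit 0, nat_lit 230500, nat_lit 0, nat_lit 0, [(nat_lit 15, [(nat_lit 0, nat_lit 922)])],
 ⟨p016_k11, nat_lit 0, nat_lit 0, nat_lit 0, nat_lit 0, nat_lit 0, [nat_lit 1183091400, nat_lit 1710060200, nat_lit 2303410601, nat_lit 3231883933], [], [nat_lit 30038076166, nat_lit 30438337766, nat_lit 31747124219, nat_lit 32109770311], nat_lit 0, nat_lit 0, nat_lit 0, nat_lit 0, nat_lit 0, nat_lit 0, [], [nat_lit 165, nat_lit 40, nat_lit 20, nat_lit 40]⟩, ⟨p016_k3, nat_lit 0, nat_lit 0, nat_lit 809, nat_lit 0, nat_lit 1248190, [nat_lit 365664000, nat_lit 487500000, nat_lit 926016000], [], [nat_lit 3083610052, nat_lit 3085687223, nat_lit 3133548839, nat_lit 3137173532], nat_lit 1271250, nat_lit 1271250, nat_lit 1271250, nat_lit 1271250,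 nat_lit 0, nat_lit 0, [nat_lit 1100000, nat_lit 1442500, nat_lit 1271250], [nat_lit 48, nat_lit 40, nat_lit 80, nat_lit 80, nat_lit 12, nat_lit 289, nat_lit 75, nat_lit 7]⟩,
 ⟨nat_lit 4472, nat_lit 4744, ⟨.ofNat (nat_lit 821766), .ofNat (nat_lit 877526), .ofNat (nat_lit 832508), .ofNat (nat_lit 888268), .ofNat (nat_lit 815036), .ofNat (nat_lit 869418), .ofNat (nat_lit 825817), .ofNat (nat_lit 880200)⟩, ⟨.ofNat (nat_lit 0), .ofNat (nat_lit 0), .ofNat (nat_lit 0), .ofNat (nat_lit 0), .ofNat (nat_lit 0), .ofNat (nat_lit 0), .ofNat (nat_lit 0), .ofNat (nat_lit 0)⟩⟩, [⟨nat_lit 13, nat_lit 84, nat_lit 39, nat_lit 100, nat_lit 212586783⟩]⟩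
noncomputable def p016_l11 : Lf2 := ⟨nat_lit 0, nat_lit 10, [nat_lit 0, nat_lit 5, nat_lit 5, nat_lit 20], false, nat_lit 0, nat_lit 0, nat_lit 0, nat_lit 0, ⟨nat_lit 130, nat_lit 870, nat_lit 0, nat_lit 9, nat_lit 349, nat_lit 0, nat_lit 0, nat_lit 0, nat_lit 0, nat_lit 0, nat_lit 0, nat_lit 0, nat_lit 38051876, nat_lit 28948124, nat_lit 0, nat_lit 3419435, true, true⟩,
 nat_lit 0, nat_lit 0, nat_lit 1628, nat_lit 0, nat_lit 3531, nat_lit 904, nat_lit 174, nat_lit 0, nat_lit 0, nat_lit 86, nat_lit 0, nat_lit 0, nat_lit 0, nat_lit 0, nat_lit 0, nat_lit 348000, nat_lit 0, nat_lit 0, [(nat_lit 15, [(nat_lit 1, nat_lit 870)])],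
 ⟨p016_k8, nat_lit 0, nat_lit 0, nat_lit 0, nat_lit 0, nat_lit 0, [nat_lit 2184234000, nat_lit 2861234001, nat_lit 3056419999], [], [nat_lit 29058471538, nat_lit 29250147478, nat_lit 30862443346, nat_lit 31034892901], nat_lit 0, nat_lit 0, nat_lit 0, nat_lit 0, nat_lit 0, nat_lit 0, [], [nat_lit 18, nat_lit 40, nat_lit 80, nat_lit 80]⟩, ⟨p016_k12, nat_lit 0, nat_lit 0, nat_lit 610, nat_lit 0, nat_lit 933998, [nat_lit 609440000, nat_lit 1035840000, nat_lit 1279460000], [], [nat_lit 5697830607, nat_lit 5703874492, nat_lit 5832993101, nat_lit 5838227020], nat_lit 1271250, nat_lit 1271250, nat_lit 1271250, nat_lit 1271250, nat_lit 0, nat_lit 0, [nat_lit 1100000, nat_lit 1785000, nat_lit 1271250], [nat_lit 29, nat_lit 40, nat_lit 80, nat_lit 80, nat_lit 17, nat_lit 289, nat_lit 75, nat_lit 8]⟩,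
 ⟨nat_lit 4873, nat_lit 5000, ⟨.ofNat (nat_lit 839281), .ofNat (nat_lit 903567), .ofNat (nat_lit 844638), .ofNat (nat_lit 908923), .ofNat (nat_lit 835887), .ofNat (nat_lit 899394), .ofNat (nat_lit 841251), .ofNat (nat_lit 904757)⟩, ⟨.ofNat (nat_lit 0), .ofNat (nat_lit 0), .ofNat (nat_lit 0), .ofNat (nat_lit 0), .ofNat (nat_lit 0), .ofNat (nat_lit 0), .ofNat (nat_lit 0), .ofNat (nat_lit 0)⟩⟩, [⟨nat_lit 13, nat_lit 89, nat_lit 28, nat_lit 100, nat_lit 160289120⟩]⟩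
noncomputable def p016_l12 : Lf2 := ⟨nat_lit 0, nat_lit 10, [nat_lit 0, nat_lit 5, nat_lit 5, nat_lit 20], false, nat_lit 0, nat_lit 0, nat_lit 0, nat_lit 0, ⟨nat_lit 72, nat_lit 928, nat_lit 0, nat_lit 9, nat_lit 347, nat_lit 0, nat_lit 0, nat_lit 0, nat_lit 0, nat_lit 0, nat_lit 0, nat_lit 0, nat_lit 38194139, nat_lit 28805861, nat_lit 0, nat_lit 3416486, true, true⟩,
 nat_lit 0, nat_lit 0, nat_lit 972, nat_lit 0, nat_lit 3673, nat_lit 540, nat_lit 0, nat_lit 0, nat_lit 0, nat_lit 93, nat_lit 0, nat_lit 0, nat_lit 0, nat_lit 0, nat_lit 0, nat_lit 232000, nat_lit 0, nat_lit 0, [(nat_lit 15, [(nat_lit 0, nat_lit 928)])],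
 ⟨p016_k13, nat_lit 0, nat_lit 0, nat_lit 0, nat_lit 0, nat_lit 0, [nat_lit 1181253600, nat_lit 1704024801, nat_lit 2292594401, nat_lit 3207287733], [], [nat_lit 29802135997, nat_lit 30002284072, nat_lit 31749968523, nat_lit 31928962272], nat_lit 0, nat_lit 0, nat_lit 0, nat_lit 0, nat_lit 0, nat_lit 0, [], [nat_lit 165, nat_lit 40, nat_lit 20, nat_lit 40]⟩, ⟨p016_k7, nat_lit 0, nat_lit 0, nat_lit 632, nat_lit 0, nat_lit 1007578, [nat_lit 337536000, nat_lit 450000000, nat_lit 708624000], [], [nat_lit 2541861168, nat_lit 2544875034, nat_lit 2620345070, nat_lit 2623763743], nat_lit 1271250, nat_lit 1271250, nat_lit 1271250, nat_lit 1271250, nat_lit 0, nat_lit 0, [nat_lit 1100000, nat_lit 1442500, nat_lit 1271250], [nat_lit 11, nat_lit 40, nat_lit 80, nat_lit 80, nat_lit 1, nat_lit 289, nat_lit 75, nat_lit 8]⟩,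
 ⟨nat_lit 4743, nat_lit 4874, ⟨.ofNat (nat_lit 835888), .ofNat (nat_lit 899394), .ofNat (nat_lit 841252), .ofNat (nat_lit 904758), .ofNat (nat_lit 832515), .ofNat (nat_lit 895245), .ofNat (nat_lit 837887), .ofNat (nat_lit 900617)⟩, ⟨.ofNat (nat_lit 0), .ofNat (nat_lit 0), .ofNat (nat_lit 0), .ofNat (nat_lit 0), .ofNat (nat_lit 0), .ofNat (nat_lit 0), .ofNat (nat_lit 0), .ofNat (nat_lit 0)⟩⟩, [⟨nat_lit 13, nat_lit 87, nat_lit 31, nat_lit 100, nat_lit 206923261⟩]⟩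
noncomputable def p016_l13 : Lf2 := ⟨nat_lit 0, nat_lit 10, [nat_lit 0, nat_lit 5, nat_lit 5, nat_lit 20], false, nat_lit 0, nat_lit 0, nat_lit 0, nat_lit 0, ⟨nat_lit 218, nat_lit 782, nat_lit 0, nat_lit 9, nat_lit 351, nat_lit 0, nat_lit 0, nat_lit 0, nat_lit 0, nat_lit 0, nat_lit 0, nat_lit 0, nat_lit 37850248, nat_lit 29149752, nat_lit 0, nat_lit 3423458, true, true⟩,
 nat_lit 0, nat_lit 0, nat_lit 2702, nat_lit 0, nat_lit 3631, nat_lit 1536, nat_lit 218, nat_lit 0, nat_lit 0, nat_lit 538, nat_lit 0, nat_lit 0, nat_lit 0, nat_lit 0, nat_lit 0, nat_lit 312800, nat_lit 0, nat_lit 0, [(nat_lit 15, [(nat_lit 1, nat_lit 782)])],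
 ⟨p016_k8, nat_lit 0, nat_lit 0, nat_lit 0, nat_lit 0, nat_lit 0, [nat_lit 2295272400, nat_lit 3204005734, nat_lit 3549278666], [], [nat_lit 29412530271, nat_lit 29605870936, nat_lit 31237845489, nat_lit 31411566312], nat_lit 0, nat_lit 0, nat_lit 0, nat_lit 0, nat_lit 0, nat_lit 0, [], [nat_lit 18, nat_lit 40, nat_lit 80, nat_lit 80]⟩, ⟨p016_k14, nat_lit 0, nat_lit 0, nat_lit 612, nat_lit 0, nat_lit 941749, [nat_lit 1021984000, nat_lit 1737024000, nat_lit 2145556000], [], [nat_lit 7392916546, nat_lit 7401036294, nat_lit 7580030207, nat_lit 7585971029], nat_lit 1271250, nat_lit 1271250, nat_lit 1271250, nat_lit 1271250, nat_lit 0, nat_lit 0, [nat_lit 1100000, nat_lit 1785000, nat_lit 1271250], [nat_lit 29, nat_lit 40, nat_lit 80, nat_lit 80, nat_lit 17, nat_lit 289, nat_lit 75, nat_lit 8]⟩,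
 ⟨nat_lit 4873, nat_lit 5000, ⟨.ofNat (nat_lit 844638), .ofNat (nat_lit 908923), .ofNat (nat_lit 849995), .ofNat (nat_lit 914281), .ofNat (nat_lit 841251), .ofNat (nat_lit 904757), .ofNat (nat_lit 846615), .ofNat (nat_lit 910121)⟩, ⟨.ofNat (nat_lit 0), .ofNat (nat_lit 0), .ofNat (nat_lit 0), .ofNat (nat_lit 0), .ofNat (nat_lit 0), .ofNat (nat_lit 0), .ofNat (nat_lit 0), .ofNat (nat_lit 0)⟩⟩, [⟨nat_lit 13, nat_lit 90, nat_lit 25, nat_lit 100, nat_lit 135277149⟩]⟩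
noncomputable def p016_l14 : Lf2 := ⟨nat_lit 0, nat_lit 10, [nat_lit 0, nat_lit 5, nat_lit 5, nat_lit 20], false, nat_lit 0, nat_lit 0, nat_lit 0, nat_lit 0, ⟨nat_lit 1000, nat_lit 0, nat_lit 0, nat_lit 0, nat_lit 0, nat_lit 0, nat_lit 0, nat_lit 0, nat_lit 0, nat_lit 0, nat_lit 0, nat_lit 0, nat_lit 0, nat_lit 0, nat_lit 0, nat_lit 0, false, false⟩,
 nat_lit 0, nat_lit 0, nat_lit 13331, nat_lit 0, nat_lit 5053, nat_lit 7582, nat_lit 0, nat_lit 0, nat_lit 0, nat_lit 1430, nat_lit 0, nat_lit 0, nat_lit 0, nat_lit 0, nat_lit 0, nat_lit 0, nat_lit 0, nat_lit 0, [],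
 ⟨p016_k13, nat_lit 0, nat_lit 0, nat_lit 0, nat_lit 0, nat_lit 0, [nat_lit 1465500000, nat_lit 2637500000, nat_lit 3965500000, nat_lit 7089500000], [], [nat_lit 34809436643, nat_lit 35033424218, nat_lit 37080630493, nat_lit 37277647594], nat_lit 0, nat_lit 0, nat_lit 0, nat_lit 0, nat_lit 0, nat_lit 0, [], [nat_lit 165, nat_lit 40, nat_lit 20, nat_lit 40]⟩, ⟨p016_k15, nat_lit 0, nat_lit 0, nat_lit 632, nat_lit 0, nat_lit 1011903, [nat_lit 4688000000, nat_lit 6250000000, nat_lit 9842000000], [], [nat_lit 33164064520, nat_lit 33224029130, nat_lit 34299216036, nat_lit 34346249270], nat_lit 1271250, nat_lit 1271250, nat_lit 1271250, nat_lit 1271250, nat_lit 0, nat_lit 0, [nat_lit 1100000, nat_lit 1442500, nat_lit 1271250], [nat_lit 11, nat_lit 40, nat_lit 80, nat_lit 80, nat_lit 1, nat_lit 289, nat_lit 75, nat_lit 8]⟩,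
 zbF0, [⟨nat_lit 13, nat_lit 88, nat_lit 28, nat_lit 100, nat_lit 51821013⟩]⟩
noncomputable def p016_l15 : Lf2 := ⟨nat_lit 0, nat_lit 10, [nat_lit 0, nat_lit 5, nat_lit 5, nat_lit 20], false, nat_lit 0, nat_lit 0, nat_lit 0, nat_lit 0, ⟨nat_lit 1000, nat_lit 0, nat_lit 0, nat_lit 0, nat_lit 0, nat_lit 0, nat_lit 0, nat_lit 0, nat_lit 0, nat_lit 0, nat_lit 0, nat_lit 0, nat_lit 0, nat_lit 0, nat_lit 0, nat_lit 0, false, false⟩,
 nat_lit 0, nat_lit 0, nat_lit 12317, nat_lit 0, nat_lit 4499, nat_lit 6842, nat_lit 0, nat_lit 0, nat_lit 0, nat_lit 710, nat_lit 0, nat_lit 0, nat_lit 0, nat_lit 0, nat_lit 0, nat_lit 0, nat_lit 0, nat_lit 0, [],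
 ⟨p016_k8, nat_lit 0, nat_lit 0, nat_lit 0, nat_lit 0, nat_lit 0, [nat_lit 3282000000, nat_lit 6250000000, nat_lit 7968000000], [], [nat_lit 35579076550, nat_lit 36001887104, nat_lit 37650638212, nat_lit 38024675748], nat_lit 0, nat_lit 0, nat_lit 0, nat_lit 0, nat_lit 0, nat_lit 0, [], [nat_lit 18, nat_lit 40, nat_lit 80, nat_lit 80]⟩, ⟨p016_k12, nat_lit 0, nat_lit 0, nat_lit 491, nat_lit 0, nat_lit 651730, [nat_lit 4688000000, nat_lit 7968000000, nat_lit 9842000000], [], [nat_lit 41292189534, nat_lit 41429437376, nat_lit 42500976503, nat_lit 42612926703], nat_lit 1271250, nat_lit 1271250, nat_lit 1271250, nat_lit 1271250, nat_lit 0, nat_lit 0, [nat_lit 1100000, nat_lit 1785000, nat_lit 1271250], [nat_lit 29, nat_lit 40, nat_lit 80, nat_lit 80, nat_lit 17, nat_lit 289, nat_lit 75, nat_lit 8]⟩,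
 zbF0, [⟨nat_lit 13, nat_lit 89, nat_lit 28, nat_lit 100, nat_lit 26111118⟩]⟩
noncomputable def p016_l16 : Lf2 := ⟨nat_lit 0, nat_lit 10, [nat_lit 0, nat_lit 5, nat_lit 5, nat_lit 20], false, nat_lit 0, nat_lit 0, nat_lit 0, nat_lit 0, ⟨nat_lit 82, nat_lit 918, nat_lit 0, nat_lit 9, nat_lit 344, nat_lit 0, nat_lit 0, nat_lit 0, nat_lit 0, nat_lit 0, nat_lit 0, nat_lit 0, nat_lit 38537888, nat_lit 28462112, nat_lit 0, nat_lit 3408981, true, true⟩,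
 nat_lit 0, nat_lit 0, nat_lit 1157, nat_lit 0, nat_lit 3678, nat_lit 642, nat_lit 0, nat_lit 0, nat_lit 0, nat_lit 108, nat_lit 0, nat_lit 0, nat_lit 0, nat_lit 0, nat_lit 0, nat_lit 229500, nat_lit 0, nat_lit 0, [(nat_lit 15, [(nat_lit 0, nat_lit 918)])],
 ⟨p016_k11, nat_lit 0, nat_lit 0, nat_lit 0, nat_lit 0, nat_lit 0, [nat_lit 1184316600, nat_lit 1714083800, nat_lit 2310621401, nat_lit 3248281400], [], [nat_lit 30059406269, nat_lit 30459875169, nat_lit 31769676807, nat_lit 32132485226], nat_lit 0, nat_lit 0, nat_lit 0, nat_lit 0, nat_lit 0, nat_lit 0, [], [nat_lit 165, nat_lit 40, nat_lit 20, nat_lit 40]⟩, ⟨p016_k7, nat_lit 0, nat_lit 0, nat_lit 723, nat_lit 0, nat_lit 1200487, [nat_lit 384416000, nat_lit 512500000, nat_lit 807044000], [], [nat_lit 2844177692, nat_lit 2847033944, nat_lit 2908295560, nat_lit 2911476587], nat_lit 1271250, nat_lit 1271250, nat_lit 1271250, nat_lit 1271250,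 nat_lit 0, nat_lit 0, [nat_lit 1100000, nat_lit 1442500, nat_lit 1271250], [nat_lit 11, nat_lit 40, nat_lit 80, nat_lit 80, nat_lit 1, nat_lit 289, nat_lit 75, nat_lit 8]⟩,
 ⟨nat_lit 4472, nat_lit 4744, ⟨.ofNat (nat_lit 832508), .ofNat (nat_lit 888268), .ofNat (nat_lit 837879), .ofNat (nat_lit 893639), .ofNat (nat_lit 825817), .ofNat (nat_lit 880200), .ofNat (nat_lit 831208), .ofNat (nat_lit 885590)⟩, ⟨.ofNat (nat_lit 0), .ofNat (nat_lit 0), .ofNat (nat_lit 0), .ofNat (nat_lit 0), .ofNat (nat_lit 0), .ofNat (nat_lit 0), .ofNat (nat_lit 0), .ofNat (nat_lit 0)⟩⟩, [⟨nat_lit 13, nat_lit 83, nat_lit 39, nat_lit 100, nat_lit 214784411⟩]⟩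
noncomputable def p016_l17 : Lf2 := ⟨nat_lit 0, nat_lit 10, [nat_lit 0, nat_lit 5, nat_lit 5, nat_lit 20], false, nat_lit 0, nat_lit 0, nat_lit 0, nat_lit 0, ⟨nat_lit 89, nat_lit 911, nat_lit 0, nat_lit 9, nat_lit 347, nat_lit 0, nat_lit 0, nat_lit 0, nat_lit 0, nat_lit 0, nat_lit 0, nat_lit 0, nat_lit 38202946, nat_lit 28797054, nat_lit 0, nat_lit 3416301, true, true⟩,
 nat_lit 0, nat_lit 0, nat_lit 1216, nat_lit 0, nat_lit 3668, nat_lit 691, nat_lit 0, nat_lit 0, nat_lit 0, nat_lit 127, nat_lit 0, nat_lit 0, nat_lit 0, nat_lit 0, nat_lit 0, nat_lit 227750, nat_lit 0, nat_lit 0, [(nat_lit 15, [(nat_lit 0, nat_lit 911)])],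
 ⟨p016_k11, nat_lit 0, nat_lit 0, nat_lit 0, nat_lit 0, nat_lit 0, [nat_lit 1186460700, nat_lit 1721125100, nat_lit 2323240301, nat_lit 3276976967], [], [nat_lit 30104517676, nat_lit 30504641076, nat_lit 32030045350, nat_lit 32388047371], nat_lit 0, nat_lit 0, nat_lit 0, nat_lit 0, nat_lit 0, nat_lit 0, [], [nat_lit 165, nat_lit 40, nat_lit 20, nat_lit 40]⟩, ⟨p016_k15, nat_lit 0, nat_lit 0, nat_lit 721, nat_lit 0, nat_lit 1197673, [nat_lit 417232000, nat_lit 556250000, nat_lit 875938000], [], [nat_lit 2941567489, nat_lit 2944703874, nat_lit 3024506064, nat_lit 3031468149], nat_lit 1271250, nat_lit 1271250, nat_lit 1271250, nat_lit 1271250, nat_lit 0, nat_lit 0, [nat_lit 1100000, nat_lit 1442500, nat_lit 1271250], [nat_lit 11, nat_lit 40, nat_lit 80, nat_lit 80, nat_lit 1, nat_lit 289, nat_lit 75, nat_lit 8]⟩,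
 ⟨nat_lit 4472, nat_lit 4744, ⟨.ofNat (nat_lit 837879), .ofNat (nat_lit 900609), .ofNat (nat_lit 843251), .ofNat (nat_lit 905980), .ofNat (nat_lit 831208), .ofNat (nat_lit 892388), .ofNat (nat_lit 836599), .ofNat (nat_lit 897779)⟩, ⟨.ofNat (nat_lit 0), .ofNat (nat_lit 0), .ofNat (nat_lit 0), .ofNat (nat_lit 0), .ofNat (nat_lit 0), .ofNat (nat_lit 0), .ofNat (nat_lit 0), .ofNat (nat_lit 0)⟩⟩, [⟨nat_lit 13, nat_lit 85, nat_lit 33, nat_lit 100, nat_lit 206883312⟩]⟩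
noncomputable def p016_l18 : Lf2 := ⟨nat_lit 0, nat_lit 10, [nat_lit 0, nat_lit 5, nat_lit 5, nat_lit 20], false, nat_lit 0, nat_lit 0, nat_lit 0, nat_lit 0, ⟨nat_lit 1000, nat_lit 0, nat_lit 0, nat_lit 0, nat_lit 0, nat_lit 0, nat_lit 0, nat_lit 0, nat_lit 0, nat_lit 0, nat_lit 0, nat_lit 0, nat_lit 0, nat_lit 0, nat_lit 0, nat_lit 0, false, false⟩,
 nat_lit 0, nat_lit 0, nat_lit 12593, nat_lit 0, nat_lit 4504, nat_lit 7330, nat_lit 1172, nat_lit 0, nat_lit 0, nat_lit 1528, nat_lit 0, nat_lit 0, nat_lit 0, nat_lit 0, nat_lit 0, nat_lit 0, nat_lit 0, nat_lit 0, [],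
 ⟨p016_k16, nat_lit 0, nat_lit 0, nat_lit 0, nat_lit 0, nat_lit 0, [nat_lit 3282000000, nat_lit 3965500000, nat_lit 5449500000, nat_lit 8885500000], [], [nat_lit 31451135496, nat_lit 31855840720, nat_lit 33849014568, nat_lit 34203154896], nat_lit 0, nat_lit 0, nat_lit 0, nat_lit 0, nat_lit 0, nat_lit 0, [], [nat_lit 148, nat_lit 40, nat_lit 20, nat_lit 40]⟩, ⟨p016_k17, nat_lit 0, nat_lit 0, nat_lit 601, nat_lit 0, nat_lit 923008, [nat_lit 4688000000, nat_lit 6250000000, nat_lit 9842000000], [], [nat_lit 32509279450, nat_lit 32753237680, nat_lit 33741861240, nat_lit 33929914880], nat_lit 1271250, nat_lit 1271250, nat_lit 1271250, nat_lit 1271250, nat_lit 0, nat_lit 0, [nat_lit 1100000, nat_lit 1442500, nat_lit 1271250], [nat_lit 11, nat_lit 40, nat_lit 80, nat_lit 80, nat_lit 1, nat_lit 289, nat_lit 75, nat_lit 8]⟩,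
 zbF0, [⟨nat_lit 13, nat_lit 97, nat_lit 9, nat_lit 100, nat_lit 19867584⟩]⟩
noncomputable def p016_l19 : Lf2 := ⟨nat_lit 0, nat_lit 10, [nat_lit 0, nat_lit 5, nat_lit 5, nat_lit 20], false, nat_lit 0, nat_lit 0, nat_lit 0, nat_lit 0, ⟨nat_lit 1000, nat_lit 0, nat_lit 0, nat_lit 0, nat_lit 0, nat_lit 0, nat_lit 0, nat_lit 0, nat_lit 0, nat_lit 0, nat_lit 0, nat_lit 0, nat_lit 0, nat_lit 0, nat_lit 0, nat_lit 0, false, false⟩,
 nat_lit 0, nat_lit 0, nat_lit 12593, nat_lit 0, nat_lit 4942, nat_lit 7330, nat_lit 1054, nat_lit 0, nat_lit 0, nat_lit 1528, nat_lit 0, nat_lit 0, nat_lit 0, nat_lit 0, nat_lit 0, nat_lit 0, nat_lit 0, nat_lit 0, [],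
 ⟨p016_k5, nat_lit 0, nat_lit 0, nat_lit 0, nat_lit 0, nat_lit 0, [nat_lit 3282000000, nat_lit 3965500000, nat_lit 5449500000, nat_lit 7968000000], [], [nat_lit 31441534636, nat_lit 31827993790, nat_lit 33689131626, nat_lit 34026662642], nat_lit 0, nat_lit 0, nat_lit 0, nat_lit 0, nat_lit 0, nat_lit 0, [], [nat_lit 166, nat_lit 40, nat_lit 20, nat_lit 40]⟩, ⟨p016_k17, nat_lit 0, nat_lit 0, nat_lit 643, nat_lit 0, nat_lit 1046115, [nat_lit 4688000000, nat_lit 6250000000, nat_lit 9842000000], [], [nat_lit 32509279450, nat_lit 32753237680, nat_lit 33741861240, nat_lit 33929914880], nat_lit 1271250, nat_lit 1271250, nat_lit 1271250, nat_lit 1271250, nat_lit 0, nat_lit 0, [nat_lit 1100000, nat_lit 1442500, nat_lit 1271250], [nat_lit 11, nat_lit 40, nat_lit 80, nat_lit 80, nat_lit 1, nat_lit 289, nat_lit 75, nat_lit 8]⟩,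
 zbF0, [⟨nat_lit 13, nat_lit 94, nat_lit 15, nat_lit 100, nat_lit 5548457⟩]⟩
noncomputable def p016_l20 : Lf2 := ⟨nat_lit 0, nat_lit 10, [nat_lit 0, nat_lit 5, nat_lit 5, nat_lit 20], false, nat_lit 0, nat_lit 0, nat_lit 0, nat_lit 0, ⟨nat_lit 1000, nat_lit 0, nat_lit 0, nat_lit 0, nat_lit 0, nat_lit 0, nat_lit 0, nat_lit 0, nat_lit 0, nat_lit 0, nat_lit 0, nat_lit 0, nat_lit 0, nat_lit 0, nat_lit 0, nat_lit 0, false, false⟩,
 nat_lit 0, nat_lit 0, nat_lit 12092, nat_lit 0, nat_lit 4479, nat_lit 7038, nat_lit 604, nat_lit 0, nat_lit 0, nat_lit 1980, nat_lit 0, nat_lit 0, nat_lit 0, nat_lit 0, nat_lit 0, nat_lit 0, nat_lit 0, nat_lit 0, [],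
 ⟨p016_k8, nat_lit 0, nat_lit 0, nat_lit 0, nat_lit 0, nat_lit 0, [nat_lit 3282000000, nat_lit 6250000000, nat_lit 7968000000], [], [nat_lit 32619969983, nat_lit 33034885049, nat_lit 34849200354, nat_lit 35213253361], nat_lit 0, nat_lit 0, nat_lit 0, nat_lit 0, nat_lit 0, nat_lit 0, [], [nat_lit 18, nat_lit 40, nat_lit 80, nat_lit 80]⟩, ⟨p016_k18, nat_lit 0, nat_lit 0, nat_lit 640, nat_lit 0, nat_lit 1016886, [nat_lit 4688000000, nat_lit 7968000000, nat_lit 9842000000], [], [nat_lit 33180280884, nat_lit 33231676361, nat_lit 34351206712, nat_lit 34404412296], nat_lit 1271250, nat_lit 1271250, nat_lit 1271250, nat_lit 1271250, nat_lit 0, nat_lit 0, [nat_lit 1100000, nat_lit 1785000, nat_lit 1271250], [nat_lit 29, nat_lit 40, nat_lit 80, nat_lit 80, nat_lit 17, nat_lit 289, nat_lit 75, nat_lit 8]⟩,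
 zbF0, []⟩
noncomputable def p016_l21 : Lf2 := ⟨nat_lit 0, nat_lit 10, [nat_lit 0, nat_lit 5, nat_lit 5, nat_lit 20], false, nat_lit 0, nat_lit 0, nat_lit 0, nat_lit 0, ⟨nat_lit 1000, nat_lit 0, nat_lit 0, nat_lit 0, nat_lit 0, nat_lit 0, nat_lit 0, nat_lit 0, nat_lit 0, nat_lit 0, nat_lit 0, nat_lit 0, nat_lit 0, nat_lit 0, nat_lit 0, nat_lit 0, false, false⟩,
 nat_lit 0, nat_lit 0, nat_lit 11851, nat_lit 0, nat_lit 4479, nat_lit 7057, nat_lit 604, nat_lit 0, nat_lit 0, nat_lit 1614, nat_lit 0, nat_lit 0, nat_lit 0, nat_lit 0, nat_lit 0, nat_lit 0, nat_lit 0, nat_lit 0, [],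
 ⟨p016_k8, nat_lit 0, nat_lit 0, nat_lit 0, nat_lit 0, nat_lit 0, [nat_lit 3282000000, nat_lit 6250000000, nat_lit 7968000000], [], [nat_lit 32619969983, nat_lit 33034885049, nat_lit 34849200354, nat_lit 35213253361], nat_lit 0, nat_lit 0, nat_lit 0, nat_lit 0, nat_lit 0, nat_lit 0, [], [nat_lit 18, nat_lit 40, nat_lit 80, nat_lit 80]⟩, ⟨p016_k19, nat_lit 0, nat_lit 0, nat_lit 641, nat_lit 0, nat_lit 1022535, [nat_lit 4688000000, nat_lit 7968000000, nat_lit 9842000000], [], [nat_lit 32895810917, nat_lit 32953184523, nat_lit 34155172194, nat_lit 34208588459], nat_lit 1271250, nat_lit 1271250, nat_lit 1271250, nat_lit 1271250, nat_lit 0, nat_lit 0, [nat_lit 1100000, nat_lit 1785000, nat_lit 1271250], [nat_lit 29, nat_lit 40, nat_lit 80, nat_lit 80, nat_lit 17, nat_lit 289, nat_lit 75, nat_lit 8]⟩,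
 zbF0, [⟨nat_lit 13, nat_lit 90, nat_lit 22, nat_lit 100, nat_lit 13849244⟩]⟩
noncomputable def p016_l22 : Lf2 := ⟨nat_lit 0, nat_lit 10, [nat_lit 0, nat_lit 5, nat_lit 5, nat_lit 20], false, nat_lit 0, nat_lit 0, nat_lit 0, nat_lit 0, ⟨nat_lit 1000, nat_lit 0, nat_lit 0, nat_lit 0, nat_lit 0, nat_lit 0, nat_lit 0, nat_lit 0, nat_lit 0, nat_lit 0, nat_lit 0, nat_lit 0, nat_lit 0, nat_lit 0, nat_lit 0, nat_lit 0, false, false⟩,
 nat_lit 0, nat_lit 0, nat_lit 11504, nat_lit 0, nat_lit 4479, nat_lit 7005, nat_lit 604, nat_lit 0, nat_lit 0, nat_lit 1171, nat_lit 0, nat_lit 0, nat_lit 0, nat_lit 0, nat_lit 0, nat_lit 0, nat_lit 0, nat_lit 0, [],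
 ⟨p016_k8, nat_lit 0, nat_lit 0, nat_lit 0, nat_lit 0, nat_lit 0, [nat_lit 3282000000, nat_lit 6250000000, nat_lit 7968000000], [], [nat_lit 32619969983, nat_lit 33034885049, nat_lit 34849200354, nat_lit 35213253361], nat_lit 0, nat_lit 0, nat_lit 0, nat_lit 0, nat_lit 0, nat_lit 0, [], [nat_lit 18, nat_lit 40, nat_lit 80, nat_lit 80]⟩, ⟨p016_k20, nat_lit 0, nat_lit 0, nat_lit 657, nat_lit 0, nat_lit 1067799, [nat_lit 4688000000, nat_lit 7968000000, nat_lit 9842000000], [], [nat_lit 34501480255, nat_lit 34604619920, nat_lit 35675137540, nat_lit 35780635420], nat_lit 1271250, nat_lit 1271250, nat_lit 1271250, nat_lit 1271250, nat_lit 0, nat_lit 0, [nat_lit 1100000, nat_lit 1785000, nat_lit 1271250], [nat_lit 29, nat_lit 40, nat_lit 80, nat_lit 80, nat_lit 17, nat_lit 289, nat_lit 75, nat_lit 8]⟩,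
 zbF0, [⟨nat_lit 13, nat_lit 92, nat_lit 18, nat_lit 100, nat_lit 7694804⟩]⟩
noncomputable def p016_l23 : Lf2 := ⟨nat_lit 0, nat_lit 10, [nat_lit 0, nat_lit 5, nat_lit 5, nat_lit 20], false, nat_lit 0, nat_lit 0, nat_lit 0, nat_lit 0, ⟨nat_lit 81, nat_lit 919, nat_lit 0, nat_lit 9, nat_lit 351, nat_lit 0, nat_lit 0, nat_lit 0, nat_lit 0, nat_lit 0, nat_lit 0, nat_lit 0, nat_lit 37898674, nat_lit 29101326, nat_lit 0, nat_lit 3422508, true, true⟩,
 nat_lit 0, nat_lit 0, nat_lit 1039, nat_lit 0, nat_lit 3655, nat_lit 604, nat_lit 0, nat_lit 0, nat_lit 0, nat_lit 125, nat_lit 0, nat_lit 0, nat_lit 0, nat_lit 0, nat_lit 0, nat_lit 229750, nat_lit 0, nat_lit 0, [(nat_lit 15, [(nat_lit 0, nat_lit 919)])],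
 ⟨p016_k11, nat_lit 0, nat_lit 0, nat_lit 0, nat_lit 0, nat_lit 0, [nat_lit 1184010300, nat_lit 1713077901, nat_lit 2308818701, nat_lit 3244182033], [], [nat_lit 30062237164, nat_lit 30461911414, nat_lit 31984773471, nat_lit 32342290795], nat_lit 0, nat_lit 0, nat_lit 0, nat_lit 0, nat_lit 0, nat_lit 0, [], [nat_lit 165, nat_lit 40, nat_lit 20, nat_lit 40]⟩, ⟨p016_k17, nat_lit 0, nat_lit 0, nat_lit 719, nat_lit 0, nat_lit 1194790, [nat_lit 379728000, nat_lit 506250000, nat_lit 797202000], [], [nat_lit 2629076786, nat_lit 2635097031, nat_lit 2697899138, nat_lit 2702273596], nat_lit 1271250, nat_lit 1271250, nat_lit 1271250, nat_lit 1271250, nat_lit 0, nat_lit 0, [nat_lit 1100000, nat_lit 1442500, nat_lit 1271250], [nat_lit 11, nat_lit 40, nat_lit 80, nat_lit 80, nat_lit 1, nat_lit 289, nat_lit 75, nat_lit 8]⟩,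
 ⟨nat_lit 4472, nat_lit 4744, ⟨.ofNat (nat_lit 843251), .ofNat (nat_lit 905980), .ofNat (nat_lit 853993), .ofNat (nat_lit 916722), .ofNat (nat_lit 836599), .ofNat (nat_lit 897779), .ofNat (nat_lit 847380), .ofNat (nat_lit 908560)⟩, ⟨.ofNat (nat_lit 0), .ofNat (nat_lit 0), .ofNat (nat_lit 0), .ofNat (nat_lit 0), .ofNat (nat_lit 0), .ofNat (nat_lit 0), .ofNat (nat_lit 0), .ofNat (nat_lit 0)⟩⟩, [⟨nat_lit 13, nat_lit 87, nat_lit 29, nat_lit 100, nat_lit 202978642⟩]⟩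
noncomputable def p016_l24 : Lf2 := ⟨nat_lit 0, nat_lit 10, [nat_lit 0, nat_lit 5, nat_lit 5, nat_lit 20], false, nat_lit 0, nat_lit 0, nat_lit 0, nat_lit 0, ⟨nat_lit 1000, nat_lit 0, nat_lit 0, nat_lit 0, nat_lit 0, nat_lit 0, nat_lit 0, nat_lit 0, nat_lit 0, nat_lit 0, nat_lit 0, nat_lit 0, nat_lit 0, nat_lit 0, nat_lit 0, nat_lit 0, false, false⟩,
 nat_lit 0, nat_lit 0, nat_lit 11670, nat_lit 0, nat_lit 4138, nat_lit 7107, nat_lit 1152, nat_lit 0, nat_lit 0, nat_lit 1276, nat_lit 0, nat_lit 0, nat_lit 0, nat_lit 0, nat_lit 0, nat_lit 0, nat_lit 0, nat_lit 0, [],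
 ⟨p016_k11, nat_lit 0, nat_lit 0, nat_lit 0, nat_lit 0, nat_lit 0, [nat_lit 1465500000, nat_lit 2637500000, nat_lit 3965500000, nat_lit 7089500000], [], [nat_lit 30157244228, nat_lit 30365425178, nat_lit 32420604122, nat_lit 32603111025], nat_lit 0, nat_lit 0, nat_lit 0, nat_lit 0, nat_lit 0, nat_lit 0, [], [nat_lit 165, nat_lit 40, nat_lit 20, nat_lit 40]⟩, ⟨p016_k21, nat_lit 0, nat_lit 0, nat_lit 685, nat_lit 0, nat_lit 1130279, [nat_lit 4688000000, nat_lit 6250000000, nat_lit 9842000000], [], [nat_lit 33629877549, nat_lit 33741937812, nat_lit 34737079097, nat_lit 34823846200], nat_lit 1271250, nat_lit 1271250, nat_lit 1271250, nat_lit 1271250, nat_lit 0, nat_lit 0, [nat_lit 1100000, nat_lit 1442500, nat_lit 1271250], [nat_lit 11, nat_lit 40, nat_lit 80, nat_lit 80, nat_lit 1, nat_lit 289, nat_lit 75, nat_lit 8]⟩,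
 zbF0, [⟨nat_lit 13, nat_lit 89, nat_lit 23, nat_lit 100, nat_lit 5233710⟩]⟩
noncomputable def p016_l25 : Lf2 := ⟨nat_lit 0, nat_lit 10, [nat_lit 0, nat_lit 5, nat_lit 5, nat_lit 20], false, nat_lit 0, nat_lit 0, nat_lit 0, nat_lit 0, ⟨nat_lit 265, nat_lit 735, nat_lit 0, nat_lit 9, nat_lit 354, nat_lit 0, nat_lit 0, nat_lit 0, nat_lit 0, nat_lit 0, nat_lit 0, nat_lit 0, nat_lit 37564573, nat_lit 29435427, nat_lit 0, nat_lit 3428841, true, true⟩,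
 nat_lit 0, nat_lit 0, nat_lit 3103, nat_lit 0, nat_lit 3184, nat_lit 1889, nat_lit 715, nat_lit 0, nat_lit 0, nat_lit 340, nat_lit 0, nat_lit 0, nat_lit 0, nat_lit 0, nat_lit 0, nat_lit 183750, nat_lit 0, nat_lit 0, [(nat_lit 15, [(nat_lit 0, nat_lit 735)])],
 ⟨p016_k22, nat_lit 0, nat_lit 0, nat_lit 0, nat_lit 0, nat_lit 0, [nat_lit 1240369500, nat_lit 1898163501, nat_lit 2640515501, nat_lit 4012863500], [], [nat_lit 27982625059, nat_lit 28168694163, nat_lit 29721934026, nat_lit 29901540501], nat_lit 0, nat_lit 0, nat_lit 0, nat_lit 0, nat_lit 0, nat_lit 0, [], [nat_lit 165, nat_lit 40, nat_lit 20, nat_lit 40]⟩, ⟨p016_k21, nat_lit 0, nat_lit 0, nat_lit 717, nat_lit 0, nat_lit 1194486, [nat_lit 1242320000, nat_lit 1656250000, nat_lit 2608130000], [], [nat_lit 8874121533, nat_lit 8903766184, nat_lit 9138418558, nat_lit 9163382626], nat_lit 1271250, nat_lit 1271250, nat_lit 1271250, nat_lit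 1271250, nat_lit 0, nat_lit 0, [nat_lit 1100000, nat_lit 1442500, nat_lit 1271250], [nat_lit 11, nat_lit 40, nat_lit 80, nat_lit 80, nat_lit 1, nat_lit 289, nat_lit 75, nat_lit 8]⟩,
 ⟨nat_lit 4472, nat_lit 4610, ⟨.ofNat (nat_lit 850687), .ofNat (nat_lit 912642), .ofNat (nat_lit 861449), .ofNat (nat_lit 923404), .ofNat (nat_lit 847391), .ofNat (nat_lit 908572), .ofNat (nat_lit 858174), .ofNat (nat_lit 919355)⟩, ⟨.ofNat (nat_lit 0), .ofNat (nat_lit 0), .ofNat (nat_lit 0), .ofNat (nat_lit 0), .ofNat (nat_lit 0), .ofNat (nat_lit 0), .ofNat (nat_lit 0), .ofNat (nat_lit 0)⟩⟩, [⟨nat_lit 13, nat_lit 87, nat_lit 26, nat_lit 100, nat_lit 135864533⟩]⟩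
noncomputable def p016_l26 : Lf2 := ⟨nat_lit 0, nat_lit 10, [nat_lit 0, nat_lit 5, nat_lit 5, nat_lit 20], false, nat_lit 0, nat_lit 0, nat_lit 0, nat_lit 0, ⟨nat_lit 1000, nat_lit 0, nat_lit 0, nat_lit 0, nat_lit 0, nat_lit 0, nat_lit 0, nat_lit 0, nat_lit 0, nat_lit 0, nat_lit 0, nat_lit 0, nat_lit 0, nat_lit 0, nat_lit 0, nat_lit 0, false, false⟩,
 nat_lit 0, nat_lit 0, nat_lit 11950, nat_lit 0, nat_lit 5514, nat_lit 6955, nat_lit 0, nat_lit 0, nat_lit 0, nat_lit 1281, nat_lit 0, nat_lit 0, nat_lit 0, nat_lit 0, nat_lit 0, nat_lit 0, nat_lit 0, nat_lit 0, [],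
 ⟨p016_k23, nat_lit 0, nat_lit 0, nat_lit 0, nat_lit 0, nat_lit 0, [nat_lit 3282000000, nat_lit 4688000000, nat_lit 7968000000], [], [nat_lit 36646397402, nat_lit 37507144920, nat_lit 39055532016, nat_lit 39797461408], nat_lit 0, nat_lit 0, nat_lit 0, nat_lit 0, nat_lit 0, nat_lit 0, [], [nat_lit 36, nat_lit 40, nat_lit 80, nat_lit 80]⟩, ⟨p016_k17, nat_lit 0, nat_lit 0, nat_lit 595, nat_lit 0, nat_lit 907230, [nat_lit 4688000000, nat_lit 6250000000, nat_lit 9842000000], [], [nat_lit 35106902450, nat_lit 35314047560, nat_lit 36204752640, nat_lit 36363571300], nat_lit 1271250, nat_lit 1271250, nat_lit 1271250, nat_lit 1271250, nat_lit 0, nat_lit 0, [nat_lit 1100000, nat_lit 1442500, nat_lit 1271250], [nat_lit 11, nat_lit 40, nat_lit 80, nat_lit 80, nat_lit 1, nat_lit 289, nat_lit 75, nat_lit 8]⟩,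
 zbF0, [⟨nat_lit 13, nat_lit 89, nat_lit 24, nat_lit 100, nat_lit 10238292⟩]⟩
noncomputable def p016_l27 : Lf2 := ⟨nat_lit 2, nat_lit 10, [nat_lit 0, nat_lit 5, nat_lit 5, nat_lit 20], true, nat_lit 0, nat_lit 0, nat_lit 0, nat_lit 0, zbN0,
 nat_lit 0, nat_lit 0, nat_lit 0, nat_lit 0, nat_lit 0, nat_lit 0, nat_lit 0, nat_lit 0, nat_lit 0, nat_lit 0, nat_lit 0, nat_lit 0, nat_lit 0, nat_lit 0, nat_lit 0, nat_lit 0, nat_lit 0, nat_lit 0, [],
 ⟨p016_k2, nat_lit 0, nat_lit 0, nat_lit 209, nat_lit 0, nat_lit 0, [], [], [], nat_lit 0, nat_lit 0, nat_lit 0, nat_lit 0, nat_lit 0, nat_lit 0, [], [nat_lit 42, nat_lit 40, nat_lit 80, nat_lit 80, nat_lit 13, nat_lit 203, nat_lit 0, nat_lit 5]⟩, C1.Rw.none,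
 zbF0, []⟩
noncomputable def b_N_700_600_0_16 : St := ⟨false, nat_lit 0, nat_lit 1, nat_lit 1, nat_lit 40, nat_lit 280, nat_lit 320, nat_lit 240, nat_lit 280, nat_lit 360, nat_lit 400, nat_lit 0, nat_lit 0, nat_lit 0, nat_lit 0, nat_lit 0, nat_lit 0, nat_lit 40, nat_lit 80, nat_lit 0, nat_lit 0, nat_lit 0, nat_lit 0⟩
theorem d_N_700_600_0_16 (h : EB TB.env) : Dead b_N_700_600_0_16 := chkB_sound0 h (T :=
(.spl (nat_lit 8) (nat_lit 800)
(.leaf p016_l0)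
(.spl (nat_lit 7) (nat_lit 600)
(.spl (nat_lit 1) (nat_lit 260)
(.spl (nat_lit 0) (nat_lit 300)
(.spl (nat_lit 0) (nat_lit 290)
(.spl (nat_lit 0) (nat_lit 285)
(.leaf p016_l1)
(.leaf p016_l2))
(.spl (nat_lit 1) (nat_lit 250)
(.trX (nat_lit 13) (nat_lit 92) (nat_lit 22) (nat_lit 100) (nat_lit 396) (.spl (nat_lit 1) (nat_lit 245)
(.leaf p016_l3)
(.leaf p016_l4)))
(.leaf p016_l5)))
(.trX (nat_lit 13) (nat_lit 91) (nat_lit 23) (nat_lit 100) (nat_lit 396) (.spl (nat_lit 1) (nat_lit 250)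
(.spl (nat_lit 0) (nat_lit 310)
(.spl (nat_lit 6) (nat_lit 60)
(.spl (nat_lit 1) (nat_lit 245)
(.trX (nat_lit 13) (nat_lit 89) (nat_lit 30) (nat_lit 100) (nat_lit 392) (.leaf p016_l6))
(.spl (nat_lit 0) (nat_lit 305)
(.leaf p016_l7)
(.trX (nat_lit 13) (nat_lit 88) (nat_lit 31) (nat_lit 100) (nat_lit 392) (.leaf p016_l8))))
(.leaf p016_l9))
(.trX (nat_lit 13) (nat_lit 86) (nat_lit 33) (nat_lit 100) (nat_lit 392) (.leaf p016_l10)))
(.spl (nat_lit 0) (nat_lit 310)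
(.spl (nat_lit 6) (nat_lit 60)
(.spl (nat_lit 1) (nat_lit 255)
(.spl (nat_lit 0) (nat_lit 305)
(.leaf p016_l11)
(.leaf p016_l12))
(.spl (nat_lit 0) (nat_lit 305)
(.leaf p016_l13)
(.leaf p016_l14)))
(.leaf p016_l15))
(.spl (nat_lit 1) (nat_lit 255)
(.trX (nat_lit 13) (nat_lit 87) (nat_lit 31) (nat_lit 100) (nat_lit 392) (.leaf p016_l16))
(.leaf p016_l17))))))
(.spl (nat_lit 0) (nat_lit 300)
(.spl (nat_lit 0) (nat_lit 290)
(.leaf p016_l18)
(.leaf p016_l19))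
(.spl (nat_lit 6) (nat_lit 60)
(.spl (nat_lit 0) (nat_lit 310)
(.spl (nat_lit 1) (nat_lit 270)
(.spl (nat_lit 1) (nat_lit 265)
(.leaf p016_l20)
(.leaf p016_l21))
(.leaf p016_l22))
(.spl (nat_lit 1) (nat_lit 270)
(.trX (nat_lit 13) (nat_lit 89) (nat_lit 24) (nat_lit 100) (nat_lit 396) (.leaf p016_l23))
(.spl (nat_lit 0) (nat_lit 315)
(.leaf p016_l24)
(.trX (nat_lit 13) (nat_lit 89) (nat_lit 22) (nat_lit 100) (nat_lit 396) (.leaf p016_l25)))))
(.leaf p016_l26))))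
(.leaf p016_l27)))) (by decide +kernel)
noncomputable def p016_l28 : Lf2 := ⟨nat_lit 0, nat_lit 10, [nat_lit 0, nat_lit 5, nat_lit 5, nat_lit 20], false, nat_lit 0, nat_lit 0, nat_lit 0, nat_lit 0, ⟨nat_lit 197, nat_lit 0, nat_lit 803, nat_lit 6, nat_lit 117, nat_lit 0, nat_lit 0, nat_lit 0, nat_lit 0, nat_lit 215, nat_lit 129067, nat_lit 303, nat_lit 61679917, nat_lit 0, nat_lit 0, nat_lit 1386555, false, false⟩,
 nat_lit 0, nat_lit 6278, nat_lit 0, nat_lit 0, nat_lit 3994, nat_lit 1223, nat_lit 0, nat_lit 0, nat_lit 0, nat_lit 297, nat_lit 0, nat_lit 0, nat_lit 0, nat_lit 0, nat_lit 100, nat_lit 803000, nat_lit 0, nat_lit 0, [(nat_lit 12, [(nat_lit 6, nat_lit 803)])],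
 ⟨p016_k0, nat_lit 0, nat_lit 0, nat_lit 452, nat_lit 0, nat_lit 367114, [nat_lit 2762937601, nat_lit 2325787200, nat_lit 408455600], [], [nat_lit 17187385780, nat_lit 18632739868, nat_lit 16456636681, nat_lit 17420708957], nat_lit 1271250, nat_lit 1271250, nat_lit 205650, nat_lit 490000, nat_lit 0, nat_lit 0, [nat_lit 780000, nat_lit 1435000, nat_lit 1271250], [nat_lit 8, nat_lit 40, nat_lit 80, nat_lit 80, nat_lit 1, nat_lit 226, nat_lit 20, nat_lit 7]⟩, ⟨p016_k1, nat_lit 0, nat_lit 0, nat_lit 344, nat_lit 0, nat_lit 0, [nat_lit 923536000, nat_lit 1569696000, nat_lit 2338784000], [], [nat_lit 4826329219, nat_lit 5064924283, nat_lit 4408209728, nat_lit 4641397590], nat_lit 0, nat_lit 0, nat_lit 0, nat_lit 0, nat_lit 0, nat_lit 0, [], [nat_lit 21, nat_lit 40, nat_lit 80, nat_lit 80, nat_lit 14, nat_lit 317, nat_lit 100, nat_lit 9]⟩,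
 ⟨nat_lit 5000, nat_lit 5478, ⟨.ofNat (nat_lit 235487), .ofNat (nat_lit 317913), .ofNat (nat_lit 256844), .ofNat (nat_lit 339271), .ofNat (nat_lit 249999), .ofNat (nat_lit 328570), .ofNat (nat_lit 271427), .ofNat (nat_lit 349999)⟩, ⟨.ofNat (nat_lit 0), .ofNat (nat_lit 0), .ofNat (nat_lit 0), .ofNat (nat_lit 0), .ofNat (nat_lit 0), .ofNat (nat_lit 0), .ofNat (nat_lit 0), .ofNat (nat_lit 0)⟩⟩, [⟨nat_lit 0, nat_lit 100, nat_lit 92, nat_lit 68, nat_lit 380144451⟩]⟩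
noncomputable def p016_l29 : Lf2 := ⟨nat_lit 0, nat_lit 10, [nat_lit 0, nat_lit 5, nat_lit 5, nat_lit 20], true, nat_lit 0, nat_lit 0, nat_lit 0, nat_lit 0, ⟨nat_lit 0, nat_lit 0, nat_lit 1000, nat_lit 6, nat_lit 127, nat_lit 0, nat_lit 0, nat_lit 0, nat_lit 0, nat_lit 215, nat_lit 150417, nat_lit 310, nat_lit 60891301, nat_lit 0, nat_lit 0, nat_lit 1526232, false, false⟩,
 nat_lit 0, nat_lit 4984, nat_lit 0, nat_lit 0, nat_lit 3450, nat_lit 0, nat_lit 0, nat_lit 0, nat_lit 0, nat_lit 0, nat_lit 0, nat_lit 0, nat_lit 0, nat_lit 0, nat_lit 102, nat_lit 439000, nat_lit 0, nat_lit 0, [(nat_lit 15, [(nat_lit 5, nat_lit 935), (nat_lit 6, nat_lit 65)])],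
 ⟨p016_k8, nat_lit 0, nat_lit 0, nat_lit 398, nat_lit 0, nat_lit 427829, [nat_lit 2517412000, nat_lit 989846000, nat_lit 106662000], [], [nat_lit 16196876961, nat_lit 18107052320, nat_lit 15855290500, nat_lit 17169802200], nat_lit 1271250, nat_lit 1271250, nat_lit 279600, nat_lit 490000, nat_lit 0, nat_lit 0, [nat_lit 780000, nat_lit 1435000, nat_lit 1271250], [nat_lit 18, nat_lit 40, nat_lit 80, nat_lit 80, nat_lit 2, nat_lit 226, nat_lit 20, nat_lit 8]⟩, C1.Rw.none,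
 ⟨nat_lit 4472, nat_lit 5000, ⟨.ofNat (nat_lit 271418), .ofNat (nat_lit 328559), .ofNat (nat_lit 292837), .ofNat (nat_lit 349976), .ofNat (nat_lit 284805), .ofNat (nat_lit 339186), .ofNat (nat_lit 306362), .ofNat (nat_lit 360741)⟩, ⟨.ofNat (nat_lit 0), .ofNat (nat_lit 0), .ofNat (nat_lit 0), .ofNat (nat_lit 0), .ofNat (nat_lit 0), .ofNat (nat_lit 0), .ofNat (nat_lit 0), .ofNat (nat_lit 0)⟩⟩, [⟨nat_lit 0, nat_lit 100, nat_lit 86, nat_lit 77, nat_lit 274112056⟩]⟩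
noncomputable def p016_l30 : Lf2 := ⟨nat_lit 0, nat_lit 10, [nat_lit 0, nat_lit 5, nat_lit 5, nat_lit 20], true, nat_lit 0, nat_lit 0, nat_lit 0, nat_lit 0, ⟨nat_lit 0, nat_lit 0, nat_lit 1000, nat_lit 6, nat_lit 117, nat_lit 0, nat_lit 0, nat_lit 0, nat_lit 0, nat_lit 215, nat_lit 129067, nat_lit 303, nat_lit 61679917, nat_lit 0, nat_lit 0, nat_lit 1386555, false, false⟩,
 nat_lit 0, nat_lit 5042, nat_lit 0, nat_lit 0, nat_lit 3208, nat_lit 0, nat_lit 194, nat_lit 0, nat_lit 0, nat_lit 0, nat_lit 0, nat_lit 0, nat_lit 0, nat_lit 0, nat_lit 95, nat_lit 400000, nat_lit 0, nat_lit 0, [(nat_lit 12, [(nat_lit 5, nat_lit 1000)])],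
 ⟨p016_k0, nat_lit 0, nat_lit 0, nat_lit 356, nat_lit 0, nat_lit 214774, [nat_lit 2380800000, nat_lit 1365333334, nat_lit 202000000], [], [nat_lit 15318385126, nat_lit 16477506674, nat_lit 14772991978, nat_lit 15836395546], nat_lit 1271250, nat_lit 1271250, nat_lit 205650, nat_lit 490000, nat_lit 0, nat_lit 0, [nat_lit 780000, nat_lit 1435000, nat_lit 1271250], [nat_lit 8, nat_lit 40, nat_lit 80, nat_lit 80, nat_lit 1, nat_lit 226, nat_lit 20, nat_lit 7]⟩, C1.Rw.none,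
 ⟨nat_lit 5000, nat_lit 5478, ⟨.ofNat (nat_lit 235487), .ofNat (nat_lit 317913), .ofNat (nat_lit 256844), .ofNat (nat_lit 339271), .ofNat (nat_lit 249999), .ofNat (nat_lit 328570), .ofNat (nat_lit 271427), .ofNat (nat_lit 349999)⟩, ⟨.ofNat (nat_lit 0), .ofNat (nat_lit 0), .ofNat (nat_lit 0), .ofNat (nat_lit 0), .ofNat (nat_lit 0), .ofNat (nat_lit 0), .ofNat (nat_lit 0), .ofNat (nat_lit 0)⟩⟩, [⟨nat_lit 0, nat_lit 100, nat_lit 92, nat_lit 68, nat_lit 100801407⟩, ⟨nat_lit 0, nat_lit 100, nat_lit 91, nat_lit 77, nat_lit 84444666⟩]⟩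
noncomputable def p016_l31 : Lf2 := ⟨nat_lit 0, nat_lit 10, [nat_lit 0, nat_lit 5, nat_lit 5, nat_lit 20], true, nat_lit 0, nat_lit 0, nat_lit 0, nat_lit 0, ⟨nat_lit 0, nat_lit 0, nat_lit 1000, nat_lit 6, nat_lit 127, nat_lit 0, nat_lit 0, nat_lit 0, nat_lit 0, nat_lit 215, nat_lit 150417, nat_lit 310, nat_lit 60891301, nat_lit 0, nat_lit 0, nat_lit 1526232, false, false⟩,
 nat_lit 0, nat_lit 4526, nat_lit 0, nat_lit 0, nat_lit 3133, nat_lit 0, nat_lit 0, nat_lit 0, nat_lit 0, nat_lit 0, nat_lit 0, nat_lit 0, nat_lit 0, nat_lit 0, nat_lit 94, nat_lit 400000, nat_lit 0, nat_lit 0, [(nat_lit 15, [(nat_lit 5, nat_lit 1000)])],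
 ⟨p016_k8, nat_lit 0, nat_lit 0, nat_lit 326, nat_lit 0, nat_lit 294556, [nat_lit 2443200000, nat_lit 916400001, nat_lit 120399999], [], [nat_lit 16196381317, nat_lit 17415177757, nat_lit 15835028941, nat_lit 16983943987], nat_lit 1271250, nat_lit 1271250, nat_lit 279600, nat_lit 490000, nat_lit 0, nat_lit 0, [nat_lit 780000, nat_lit 1435000, nat_lit 1271250], [nat_lit 18, nat_lit 40, nat_lit 80, nat_lit 80, nat_lit 2, nat_lit 226, nat_lit 20, nat_lit 8]⟩, C1.Rw.none,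
 ⟨nat_lit 4472, nat_lit 5000, ⟨.ofNat (nat_lit 271418), .ofNat (nat_lit 328559), .ofNat (nat_lit 292837), .ofNat (nat_lit 349976), .ofNat (nat_lit 284805), .ofNat (nat_lit 339186), .ofNat (nat_lit 306362), .ofNat (nat_lit 360741)⟩, ⟨.ofNat (nat_lit 0), .ofNat (nat_lit 0), .ofNat (nat_lit 0), .ofNat (nat_lit 0), .ofNat (nat_lit 0), .ofNat (nat_lit 0), .ofNat (nat_lit 0), .ofNat (nat_lit 0)⟩⟩, [⟨nat_lit 0, nat_lit 100, nat_lit 86, nat_lit 77, nat_lit 18474435⟩, ⟨nat_lit 0, nat_lit 100, nat_lit 84, nat_lit 85, nat_lit 167623820⟩]⟩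
noncomputable def p016_l32 : Lf2 := ⟨nat_lit 0, nat_lit 10, [nat_lit 0, nat_lit 5, nat_lit 5, nat_lit 20], false, nat_lit 0, nat_lit 0, nat_lit 0, nat_lit 0, ⟨nat_lit 1000, nat_lit 0, nat_lit 0, nat_lit 0, nat_lit 0, nat_lit 0, nat_lit 0, nat_lit 0, nat_lit 0, nat_lit 0, nat_lit 0, nat_lit 0, nat_lit 0, nat_lit 0, nat_lit 0, nat_lit 0, false, false⟩,
 nat_lit 0, nat_lit 11235, nat_lit 0, nat_lit 0, nat_lit 7149, nat_lit 6892, nat_lit 1737, nat_lit 0, nat_lit 0, nat_lit 0, nat_lit 0, nat_lit 0, nat_lit 0, nat_lit 0, nat_lit 0, nat_lit 0, nat_lit 0, nat_lit 0, [],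
 ⟨p016_k2, nat_lit 0, nat_lit 0, nat_lit 521, nat_lit 0, nat_lit 571481, [nat_lit 3282000000, nat_lit 4688000000, nat_lit 9842000000], [], [nat_lit 24361636346, nat_lit 26755574175, nat_lit 25792920181, nat_lit 24909835781], nat_lit 1271250, nat_lit 1271250, nat_lit 279600, nat_lit 490000, nat_lit 0, nat_lit 0, [nat_lit 780000, nat_lit 1100000, nat_lit 2127500], [nat_lit 42, nat_lit 40, nat_lit 80, nat_lit 80, nat_lit 13, nat_lit 226, nat_lit 20, nat_lit 7]⟩, ⟨p016_k17, nat_lit 0, nat_lit 0, nat_lit 205, nat_lit 0, nat_lit 0, [nat_lit 4688000000, nat_lit 6250000000, nat_lit 9842000000], [], [nat_lit 29429273005, nat_lit 31154582112, nat_lit 27719269904, nat_lit 29153404848], nat_lit 0, nat_lit 0, nat_lit 0, nat_lit 0, nat_lit 0, nat_lit 0, [], [nat_lit 11, nat_lit 40, nat_lit 80, nat_lit 80, nat_lit 1, nat_lit 317, nat_lit 100, nat_lit 9]⟩,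
 zbF0, [⟨nat_lit 0, nat_lit 100, nat_lit 92, nat_lit 82, nat_lit 533099848⟩, ⟨nat_lit 0, nat_lit 100, nat_lit 96, nat_lit 69, nat_lit 224523644⟩]⟩
noncomputable def p016_l33 : Lf2 := ⟨nat_lit 0, nat_lit 10, [nat_lit 0, nat_lit 5, nat_lit 5, nat_lit 20], false, nat_lit 0, nat_lit 0, nat_lit 0, nat_lit 0, ⟨nat_lit 339, nat_lit 0, nat_lit 661, nat_lit 6, nat_lit 159, nat_lit 0, nat_lit 0, nat_lit 0, nat_lit 0, nat_lit 215, nat_lit 70417, nat_lit 280, nat_lit 57809397, nat_lit 0, nat_lit 0, nat_lit 1998991, false, false⟩,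
 nat_lit 0, nat_lit 8137, nat_lit 0, nat_lit 0, nat_lit 5178, nat_lit 2758, nat_lit 256, nat_lit 0, nat_lit 0, nat_lit 653, nat_lit 0, nat_lit 0, nat_lit 0, nat_lit 0, nat_lit 22, nat_lit 661000, nat_lit 0, nat_lit 0, [(nat_lit 12, [(nat_lit 6, nat_lit 661)])],
 ⟨p016_k0, nat_lit 0, nat_lit 0, nat_lit 449, nat_lit 0, nat_lit 464014, [nat_lit 2130931201, nat_lit 1813406400, nat_lit 387797200], [], [nat_lit 16703164648, nat_lit 16860393198, nat_lit 20514145746, nat_lit 20153056363], nat_lit 1271250, nat_lit 1271250, nat_lit 490000, nat_lit 1100001, nat_lit 0, nat_lit 0, [nat_lit 780000, nat_lit 1435000, nat_lit 1271250], [nat_lit 8, nat_lit 40, nat_lit 80, nat_lit 80, nat_lit 1, nat_lit 249, nat_lit 40, nat_lit 7]⟩, ⟨p016_k1, nat_lit 0, nat_lit 0, nat_lit 220, nat_lit 0, nat_lit 0, [nat_lit 1589232000, nat_lit 2701152000, nat_lit 4024608000], [], [nat_lit 6673818296, nat_lit 6950964590, nat_lit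 6832406684, nat_lit 7098992918], nat_lit 0, nat_lit 0, nat_lit 0, nat_lit 0, nat_lit 0, nat_lit 0, [], [nat_lit 21, nat_lit 40, nat_lit 80, nat_lit 80, nat_lit 14, nat_lit 345, nat_lit 125, nat_lit 9]⟩,
 ⟨nat_lit 5408, nat_lit 5478, ⟨.ofNat (nat_lit 317913), .ofNat (nat_lit 467779), .ofNat (nat_lit 328592), .ofNat (nat_lit 478458), .ofNat (nat_lit 319520), .ofNat (nat_lit 468325), .ofNat (nat_lit 330202), .ofNat (nat_lit 479006)⟩, ⟨.ofNat (nat_lit 0), .ofNat (nat_lit 0), .ofNat (nat_lit 0), .ofNat (nat_lit 0), .ofNat (nat_lit 0), .ofNat (nat_lit 0), .ofNat (nat_lit 0), .ofNat (nat_lit 0)⟩⟩, []⟩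
noncomputable def p016_l34 : Lf2 := ⟨nat_lit 0, nat_lit 10, [nat_lit 0, nat_lit 5, nat_lit 5, nat_lit 20], false, nat_lit 0, nat_lit 0, nat_lit 0, nat_lit 0, ⟨nat_lit 1000, nat_lit 0, nat_lit 0, nat_lit 0, nat_lit 0, nat_lit 0, nat_lit 0, nat_lit 0, nat_lit 0, nat_lit 0, nat_lit 0, nat_lit 0, nat_lit 0, nat_lit 0, nat_lit 0, nat_lit 0, false, false⟩,
 nat_lit 0, nat_lit 10864, nat_lit 0, nat_lit 0, nat_lit 7003, nat_lit 8129, nat_lit 1129, nat_lit 0, nat_lit 0, nat_lit 1923, nat_lit 0, nat_lit 0, nat_lit 0, nat_lit 0, nat_lit 0, nat_lit 0, nat_lit 0, nat_lit 0, [],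
 ⟨p016_k24, nat_lit 0, nat_lit 0, nat_lit 453, nat_lit 0, nat_lit 473461, [nat_lit 3282000000, nat_lit 6250000000, nat_lit 9842000000], [], [nat_lit 27095655938, nat_lit 27216314226, nat_lit 28050751839, nat_lit 27725180968], nat_lit 1271250, nat_lit 1271250, nat_lit 490000, nat_lit 1100001, nat_lit 0, nat_lit 0, [nat_lit 780000, nat_lit 1435000, nat_lit 1271250], [nat_lit 8, nat_lit 40, nat_lit 80, nat_lit 80, nat_lit 1, nat_lit 249, nat_lit 40, nat_lit 7]⟩, ⟨p016_k1, nat_lit 0, nat_lit 0, nat_lit 220, nat_lit 0, nat_lit 0, [nat_lit 4688000000, nat_lit 7968000000, nat_lit 11872000000], [], [nat_lit 19705279896, nat_lit 20507603960, nat_lit 20164172496, nat_lit 20950174367], nat_lit 0, nat_lit 0, nat_lit 0, nat_lit 0, nat_lit 0, nat_lit 0, [], [nat_lit 21, nat_lit 40, nat_lit 80, nat_lit 80, nat_lit 14, nat_lit 345, nat_lit 125, nat_lit 9]⟩,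
 zbF0, []⟩
noncomputable def p016_l35 : Lf2 := ⟨nat_lit 0, nat_lit 10, [nat_lit 0, nat_lit 5, nat_lit 5, nat_lit 20], false, nat_lit 0, nat_lit 0, nat_lit 0, nat_lit 0, ⟨nat_lit 1000, nat_lit 0, nat_lit 0, nat_lit 0, nat_lit 0, nat_lit 0, nat_lit 0, nat_lit 0, nat_lit 0, nat_lit 0, nat_lit 0, nat_lit 0, nat_lit 0, nat_lit 0, nat_lit 0, nat_lit 0, false, false⟩,
 nat_lit 0, nat_lit 10687, nat_lit 0, nat_lit 0, nat_lit 6948, nat_lit 8129, nat_lit 1126, nat_lit 0, nat_lit 0, nat_lit 1923, nat_lit 0, nat_lit 0, nat_lit 0, nat_lit 0, nat_lit 0, nat_lit 0, nat_lit 0, nat_lit 0, [],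
 ⟨p016_k25, nat_lit 0, nat_lit 0, nat_lit 468, nat_lit 0, nat_lit 512465, [nat_lit 3282000000, nat_lit 6250000000, nat_lit 9842000000], [], [nat_lit 26678042232, nat_lit 26974004606, nat_lit 27381148230, nat_lit 27079898090], nat_lit 1271250, nat_lit 1271250, nat_lit 490000, nat_lit 1100001, nat_lit 0, nat_lit 0, [nat_lit 780000, nat_lit 1435000, nat_lit 1271250], [nat_lit 8, nat_lit 40, nat_lit 80, nat_lit 80, nat_lit 1, nat_lit 249, nat_lit 40, nat_lit 7]⟩, ⟨p016_k1, nat_lit 0, nat_lit 0, nat_lit 220, nat_lit 0, nat_lit 0, [nat_lit 4688000000, nat_lit 7968000000, nat_lit 11872000000], [], [nat_lit 19705279896, nat_lit 20507603960, nat_lit 20164172496, nat_lit 20950174367], nat_lit 0, nat_lit 0, nat_lit 0, nat_lit 0, nat_lit 0, nat_lit 0, [], [nat_lit 21, nat_lit 40, nat_lit 80, nat_lit 80, nat_lit 14, nat_lit 345, nat_lit 125, nat_lit 9]⟩,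
 zbF0, []⟩
noncomputable def p016_l36 : Lf2 := ⟨nat_lit 0, nat_lit 10, [nat_lit 0, nat_lit 5, nat_lit 5, nat_lit 20], false, nat_lit 0, nat_lit 0, nat_lit 0, nat_lit 0, ⟨nat_lit 1000, nat_lit 0, nat_lit 0, nat_lit 0, nat_lit 0, nat_lit 0, nat_lit 0, nat_lit 0, nat_lit 0, nat_lit 0, nat_lit 0, nat_lit 0, nat_lit 0, nat_lit 0, nat_lit 0, nat_lit 0, false, false⟩,
 nat_lit 0, nat_lit 5223, nat_lit 0, nat_lit 0, nat_lit 3323, nat_lit 7353, nat_lit 1753, nat_lit 0, nat_lit 0, nat_lit 0, nat_lit 0, nat_lit 0, nat_lit 0, nat_lit 0, nat_lit 0, nat_lit 0, nat_lit 0, nat_lit 0, [],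
 ⟨p016_k2, nat_lit 0, nat_lit 0, nat_lit 476, nat_lit 0, nat_lit 557696, [nat_lit 3282000000, nat_lit 4688000000, nat_lit 9842000000], [], [nat_lit 30746648984, nat_lit 30618598325, nat_lit 33512838437, nat_lit 33131713598], nat_lit 1271250, nat_lit 1271250, nat_lit 490000, nat_lit 1100001, nat_lit 0, nat_lit 0, [nat_lit 780000, nat_lit 1100000, nat_lit 2127500], [nat_lit 42, nat_lit 40, nat_lit 80, nat_lit 80, nat_lit 13, nat_lit 249, nat_lit 40, nat_lit 7]⟩, ⟨p016_k7, nat_lit 0, nat_lit 0, nat_lit 160, nat_lit 0, nat_lit 0, [nat_lit 4688000000, nat_lit 6250000000, nat_lit 9842000000], [], [nat_lit 26574507838, nat_lit 27318251536, nat_lit 26768871817, nat_lit 27424844774], nat_lit 0, nat_lit 0, nat_lit 0, nat_lit 0, nat_lit 0, nat_lit 0, [], [nat_lit 11, nat_lit 40, nat_lit 80, nat_lit 80, nat_lit 1, nat_lit 345, nat_lit 125, nat_lit 10]⟩,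
 zbF0, []⟩
noncomputable def p016_l37 : Lf2 := ⟨nat_lit 0, nat_lit 10, [nat_lit 0, nat_lit 5, nat_lit 5, nat_lit 20], false, nat_lit 0, nat_lit 0, nat_lit 0, nat_lit 0, ⟨nat_lit 1000, nat_lit 0, nat_lit 0, nat_lit 0, nat_lit 0, nat_lit 0, nat_lit 0, nat_lit 0, nat_lit 0, nat_lit 0, nat_lit 0, nat_lit 0, nat_lit 0, nat_lit 0, nat_lit 0, nat_lit 0, false, false⟩,
 nat_lit 0, nat_lit 7596, nat_lit 0, nat_lit 0, nat_lit 4938, nat_lit 7353, nat_lit 1631, nat_lit 0, nat_lit 0, nat_lit 0, nat_lit 0, nat_lit 0, nat_lit 0, nat_lit 0, nat_lit 0, nat_lit 0, nat_lit 0, nat_lit 0, [],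
 ⟨p016_k26, nat_lit 0, nat_lit 0, nat_lit 485, nat_lit 0, nat_lit 585049, [nat_lit 3282000000, nat_lit 4688000000, nat_lit 9842000000], [], [nat_lit 28419812553, nat_lit 28009940885, nat_lit 30108933463, nat_lit 29542579429], nat_lit 1271250, nat_lit 1271250, nat_lit 490000, nat_lit 1100001, nat_lit 0, nat_lit 0, [nat_lit 780000, nat_lit 1100000, nat_lit 2127500], [nat_lit 42, nat_lit 40, nat_lit 80, nat_lit 80, nat_lit 13, nat_lit 249, nat_lit 40, nat_lit 7]⟩, ⟨p016_k7, nat_lit 0, nat_lit 0, nat_lit 160, nat_lit 0, nat_lit 0, [nat_lit 4688000000, nat_lit 6250000000, nat_lit 9842000000], [], [nat_lit 26574507838, nat_lit 27318251536, nat_lit 26768871817, nat_lit 27424844774], nat_lit 0, nat_lit 0, nat_lit 0, nat_lit 0, nat_lit 0, nat_lit 0, [], [nat_lit 11, nat_lit 40, nat_lit 80, nat_lit 80, nat_lit 1, nat_lit 345, nat_lit 125, nat_lit 10]⟩,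
 zbF0, []⟩
noncomputable def p016_l38 : Lf2 := ⟨nat_lit 0, nat_lit 10, [nat_lit 0, nat_lit 5, nat_lit 5, nat_lit 20], false, nat_lit 0, nat_lit 0, nat_lit 0, nat_lit 0, ⟨nat_lit 1000, nat_lit 0, nat_lit 0, nat_lit 0, nat_lit 0, nat_lit 0, nat_lit 0, nat_lit 0, nat_lit 0, nat_lit 0, nat_lit 0, nat_lit 0, nat_lit 0, nat_lit 0, nat_lit 0, nat_lit 0, false, false⟩,
 nat_lit 0, nat_lit 10663, nat_lit 0, nat_lit 0, nat_lit 7081, nat_lit 6741, nat_lit 1754, nat_lit 0, nat_lit 0, nat_lit 2113, nat_lit 0, nat_lit 0, nat_lit 0, nat_lit 0, nat_lit 0, nat_lit 0, nat_lit 0, nat_lit 0, [],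
 ⟨p016_k27, nat_lit 0, nat_lit 0, nat_lit 425, nat_lit 0, nat_lit 611553, [nat_lit 3282000000, nat_lit 4688000000, nat_lit 7968000000], [], [nat_lit 18474712734, nat_lit 18773341360, nat_lit 24884414748, nat_lit 24072273615], nat_lit 1271250, nat_lit 1271250, nat_lit 490000, nat_lit 1100001, nat_lit 0, nat_lit 0, [nat_lit 780000, nat_lit 1100000, nat_lit 1785000], [nat_lit 36, nat_lit 40, nat_lit 80, nat_lit 80, nat_lit 7, nat_lit 249, nat_lit 40, nat_lit 8]⟩, ⟨p016_k3, nat_lit 0, nat_lit 0, nat_lit 212, nat_lit 0, nat_lit 0, [nat_lit 4688000000, nat_lit 6250000000, nat_lit 11872000000], [], [nat_lit 21950092267, nat_lit 23179951385, nat_lit 21952660863, nat_lit 23043086917], nat_lit 0, nat_lit 0, nat_lit 0, nat_lit 0, nat_lit 0, nat_lit 0, [], [nat_lit 48, nat_lit 40, nat_lit 80, nat_lit 80, nat_lit 12, nat_lit 345, nat_lit 125, nat_lit 9]⟩,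
 zbF0, []⟩
noncomputable def p016_l39 : Lf2 := ⟨nat_lit 0, nat_lit 10, [nat_lit 0, nat_lit 5, nat_lit 5, nat_lit 20], false, nat_lit 0, nat_lit 0, nat_lit 0, nat_lit 0, ⟨nat_lit 1000, nat_lit 0, nat_lit 0, nat_lit 0, nat_lit 0, nat_lit 0, nat_lit 0, nat_lit 0, nat_lit 0, nat_lit 0, nat_lit 0, nat_lit 0, nat_lit 0, nat_lit 0, nat_lit 0, nat_lit 0, false, false⟩,
 nat_lit 0, nat_lit 10263, nat_lit 0, nat_lit 0, nat_lit 6959, nat_lit 6741, nat_lit 1643, nat_lit 0, nat_lit 0, nat_lit 2037, nat_lit 0, nat_lit 0, nat_lit 0, nat_lit 0, nat_lit 0, nat_lit 0, nat_lit 0, nat_lit 0, [],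
 ⟨p016_k28, nat_lit 0, nat_lit 0, nat_lit 435, nat_lit 0, nat_lit 637147, [nat_lit 3282000000, nat_lit 4688000000, nat_lit 7968000000], [], [nat_lit 19123785724, nat_lit 19400680994, nat_lit 23717351235, nat_lit 22919202648], nat_lit 1271250, nat_lit 1271250, nat_lit 490000, nat_lit 1100001, nat_lit 0, nat_lit 0, [nat_lit 780000, nat_lit 1100000, nat_lit 1785000], [nat_lit 36, nat_lit 40, nat_lit 80, nat_lit 80, nat_lit 7, nat_lit 249, nat_lit 40, nat_lit 8]⟩, ⟨p016_k3, nat_lit 0, nat_lit 0, nat_lit 212, nat_lit 0, nat_lit 0, [nat_lit 4688000000, nat_lit 6250000000, nat_lit 11872000000], [], [nat_lit 22314179767, nat_lit 23544038885, nat_lit 22316748363, nat_lit 23407174417], nat_lit 0, nat_lit 0, nat_lit 0, nat_lit 0, nat_lit 0, nat_lit 0, [], [nat_lit 48, nat_lit 40, nat_lit 80, nat_lit 80, nat_lit 12, nat_lit 345, nat_lit 125, nat_lit 9]⟩,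
 zbF0, []⟩
noncomputable def p016_l40 : Lf2 := ⟨nat_lit 0, nat_lit 10, [nat_lit 0, nat_lit 5, nat_lit 5, nat_lit 20], false, nat_lit 0, nat_lit 0, nat_lit 0, nat_lit 0, ⟨nat_lit 1000, nat_lit 0, nat_lit 0, nat_lit 0, nat_lit 0, nat_lit 0, nat_lit 0, nat_lit 0, nat_lit 0, nat_lit 0, nat_lit 0, nat_lit 0, nat_lit 0, nat_lit 0, nat_lit 0, nat_lit 0, false, false⟩,
 nat_lit 0, nat_lit 9359, nat_lit 0, nat_lit 0, nat_lit 5955, nat_lit 6741, nat_lit 1099, nat_lit 0, nat_lit 0, nat_lit 1275, nat_lit 0, nat_lit 0, nat_lit 0, nat_lit 0, nat_lit 0, nat_lit 0, nat_lit 0, nat_lit 0, [],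
 ⟨p016_k0, nat_lit 0, nat_lit 0, nat_lit 346, nat_lit 0, nat_lit 298592, [nat_lit 3282000000, nat_lit 6250000000, nat_lit 9842000000], [], [nat_lit 25630165670, nat_lit 26205798375, nat_lit 25787050575, nat_lit 26353254015], nat_lit 1271250, nat_lit 1271250, nat_lit 490000, nat_lit 1100001, nat_lit 0, nat_lit 0, [nat_lit 780000, nat_lit 1435000, nat_lit 1271250], [nat_lit 8, nat_lit 40, nat_lit 80, nat_lit 80, nat_lit 1, nat_lit 249, nat_lit 40, nat_lit 7]⟩, ⟨p016_k1, nat_lit 0, nat_lit 0, nat_lit 225, nat_lit 0, nat_lit 0, [nat_lit 4688000000, nat_lit 7968000000, nat_lit 11872000000], [], [nat_lit 23577995392, nat_lit 24807854510, nat_lit 23580563988, nat_lit 24670990042], nat_lit 0, nat_lit 0, nat_lit 0, nat_lit 0, nat_lit 0, nat_lit 0, [], [nat_lit 21, nat_lit 40, nat_lit 80, nat_lit 80, nat_lit 14, nat_lit 345, nat_lit 125, nat_lit 9]⟩,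
 zbF0, []⟩
noncomputable def p016_l41 : Lf2 := ⟨nat_lit 0, nat_lit 10, [nat_lit 0, nat_lit 5, nat_lit 5, nat_lit 20], false, nat_lit 0, nat_lit 0, nat_lit 0, nat_lit 0, ⟨nat_lit 1000, nat_lit 0, nat_lit 0, nat_lit 0, nat_lit 0, nat_lit 0, nat_lit 0, nat_lit 0, nat_lit 0, nat_lit 0, nat_lit 0, nat_lit 0, nat_lit 0, nat_lit 0, nat_lit 0, nat_lit 0, false, false⟩,
 nat_lit 0, nat_lit 9242, nat_lit 0, nat_lit 0, nat_lit 6137, nat_lit 6741, nat_lit 1017, nat_lit 0, nat_lit 0, nat_lit 1296, nat_lit 0, nat_lit 0, nat_lit 0, nat_lit 0, nat_lit 0, nat_lit 0, nat_lit 0, nat_lit 0, [],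
 ⟨p016_k29, nat_lit 0, nat_lit 0, nat_lit 318, nat_lit 0, nat_lit 371745, [nat_lit 3282000000, nat_lit 6250000000, nat_lit 7968000000], [], [nat_lit 23588305317, nat_lit 24289592356, nat_lit 24060445121, nat_lit 24741042894], nat_lit 1271250, nat_lit 1271250, nat_lit 490000, nat_lit 1100001, nat_lit 0, nat_lit 0, [nat_lit 780000, nat_lit 1435000, nat_lit 1271250], [nat_lit 18, nat_lit 40, nat_lit 80, nat_lit 80, nat_lit 2, nat_lit 249, nat_lit 40, nat_lit 8]⟩, ⟨p016_k1, nat_lit 0, nat_lit 0, nat_lit 225, nat_lit 0, nat_lit 0, [nat_lit 4688000000, nat_lit 7968000000, nat_lit 11872000000], [], [nat_lit 23438082892, nat_lit 24667942010, nat_lit 23440651488, nat_lit 24531077542], nat_lit 0, nat_lit 0, nat_lit 0, nat_lit 0, nat_lit 0, nat_lit 0, [], [nat_lit 21, nat_lit 40, nat_lit 80, nat_lit 80, nat_lit 14, nat_lit 345, nat_lit 125, nat_lit 9]⟩,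
 zbF0, []⟩
noncomputable def p016_l42 : Lf2 := ⟨nat_lit 0, nat_lit 10, [nat_lit 0, nat_lit 5, nat_lit 5, nat_lit 20], false, nat_lit 0, nat_lit 0, nat_lit 0, nat_lit 0, ⟨nat_lit 1000, nat_lit 0, nat_lit 0, nat_lit 0, nat_lit 0, nat_lit 0, nat_lit 0, nat_lit 0, nat_lit 0, nat_lit 0, nat_lit 0, nat_lit 0, nat_lit 0, nat_lit 0, nat_lit 0, nat_lit 0, false, false⟩,
 nat_lit 0, nat_lit 10985, nat_lit 0, nat_lit 0, nat_lit 6990, nat_lit 7225, nat_lit 429, nat_lit 0, nat_lit 0, nat_lit 0, nat_lit 0, nat_lit 0, nat_lit 0, nat_lit 0, nat_lit 0, nat_lit 0, nat_lit 0, nat_lit 0, [],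
 ⟨p016_k2, nat_lit 0, nat_lit 0, nat_lit 492, nat_lit 0, nat_lit 610021, [nat_lit 3282000000, nat_lit 4688000000, nat_lit 9842000000], [], [nat_lit 28637419920, nat_lit 28203206259, nat_lit 33978154685, nat_lit 33497132243], nat_lit 1271250, nat_lit 1271250, nat_lit 490000, nat_lit 1100001, nat_lit 0, nat_lit 0, [nat_lit 780000, nat_lit 1100000, nat_lit 2127500], [nat_lit 42, nat_lit 40, nat_lit 80, nat_lit 80, nat_lit 13, nat_lit 249, nat_lit 40, nat_lit 7]⟩, ⟨p016_k17, nat_lit 0, nat_lit 0, nat_lit 166, nat_lit 0, nat_lit 0, [nat_lit 4688000000, nat_lit 6250000000, nat_lit 9842000000], [], [nat_lit 27429597200, nat_lit 28165934050, nat_lit 27566008550, nat_lit 28215803075], nat_lit 0, nat_lit 0, nat_lit 0, nat_lit 0, nat_lit 0, nat_lit 0, [], [nat_lit 11, nat_lit 40, nat_lit 80, nat_lit 80, nat_lit 1, nat_lit 345, nat_lit 125, nat_lit 10]⟩,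
 zbF0, []⟩
noncomputable def p016_l43 : Lf2 := ⟨nat_lit 0, nat_lit 10, [nat_lit 0, nat_lit 5, nat_lit 5, nat_lit 20], false, nat_lit 0, nat_lit 0, nat_lit 0, nat_lit 0, ⟨nat_lit 1000, nat_lit 0, nat_lit 0, nat_lit 0, nat_lit 0, nat_lit 0, nat_lit 0, nat_lit 0, nat_lit 0, nat_lit 0, nat_lit 0, nat_lit 0, nat_lit 0, nat_lit 0, nat_lit 0, nat_lit 0, false, false⟩,
 nat_lit 0, nat_lit 10813, nat_lit 0, nat_lit 0, nat_lit 6970, nat_lit 7225, nat_lit 522, nat_lit 0, nat_lit 0, nat_lit 0, nat_lit 0, nat_lit 0, nat_lit 0, nat_lit 0, nat_lit 0, nat_lit 0, nat_lit 0, nat_lit 0, [],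
 ⟨p016_k30, nat_lit 0, nat_lit 0, nat_lit 494, nat_lit 0, nat_lit 615821, [nat_lit 3282000000, nat_lit 4688000000, nat_lit 9842000000], [], [nat_lit 27975496621, nat_lit 27694235910, nat_lit 32919973054, nat_lit 32600208970], nat_lit 1271250, nat_lit 1271250, nat_lit 490000, nat_lit 1100001, nat_lit 0, nat_lit 0, [nat_lit 780000, nat_lit 1100000, nat_lit 2127500], [nat_lit 42, nat_lit 40, nat_lit 80, nat_lit 80, nat_lit 13, nat_lit 249, nat_lit 40, nat_lit 7]⟩, ⟨p016_k17, nat_lit 0, nat_lit 0, nat_lit 166, nat_lit 0, nat_lit 0, [nat_lit 4688000000, nat_lit 6250000000, nat_lit 9842000000], [], [nat_lit 27429597200, nat_lit 28165934050, nat_lit 27566008550, nat_lit 28215803075], nat_lit 0, nat_lit 0, nat_lit 0, nat_lit 0, nat_lit 0, nat_lit 0, [], [nat_lit 11, nat_lit 40, nat_lit 80, nat_lit 80, nat_lit 1, nat_lit 345, nat_lit 125, nat_lit 10]⟩,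
 zbF0, []⟩
noncomputable def p016_l44 : Lf2 := ⟨nat_lit 0, nat_lit 10, [nat_lit 0, nat_lit 5, nat_lit 5, nat_lit 20], false, nat_lit 0, nat_lit 0, nat_lit 0, nat_lit 0, ⟨nat_lit 1000, nat_lit 0, nat_lit 0, nat_lit 0, nat_lit 0, nat_lit 0, nat_lit 0, nat_lit 0, nat_lit 0, nat_lit 0, nat_lit 0, nat_lit 0, nat_lit 0, nat_lit 0, nat_lit 0, nat_lit 0, false, false⟩,
 nat_lit 0, nat_lit 5550, nat_lit 0, nat_lit 0, nat_lit 3531, nat_lit 7225, nat_lit 1679, nat_lit 0, nat_lit 0, nat_lit 0, nat_lit 0, nat_lit 0, nat_lit 0, nat_lit 0, nat_lit 0, nat_lit 0, nat_lit 0, nat_lit 0, [],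
 ⟨p016_k2, nat_lit 0, nat_lit 0, nat_lit 461, nat_lit 0, nat_lit 512078, [nat_lit 3282000000, nat_lit 4688000000, nat_lit 9842000000], [], [nat_lit 30627009048, nat_lit 30471759377, nat_lit 33533748939, nat_lit 33128767956], nat_lit 1271250, nat_lit 1271250, nat_lit 490000, nat_lit 1100001, nat_lit 0, nat_lit 0, [nat_lit 780000, nat_lit 1100000, nat_lit 2127500], [nat_lit 42, nat_lit 40, nat_lit 80, nat_lit 80, nat_lit 13, nat_lit 249, nat_lit 40, nat_lit 7]⟩, ⟨p016_k17, nat_lit 0, nat_lit 0, nat_lit 166, nat_lit 0, nat_lit 0, [nat_lit 4688000000, nat_lit 6250000000, nat_lit 9842000000], [], [nat_lit 27429597200, nat_lit 28165934050, nat_lit 27566008550, nat_lit 28215803075], nat_lit 0, nat_lit 0, nat_lit 0, nat_lit 0, nat_lit 0, nat_lit 0, [], [nat_lit 11, nat_lit 40, nat_lit 80, nat_lit 80, nat_lit 1, nat_lit 345, nat_lit 125, nat_lit 10]⟩,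
 zbF0, []⟩
noncomputable def p016_l45 : Lf2 := ⟨nat_lit 0, nat_lit 10, [nat_lit 0, nat_lit 5, nat_lit 5, nat_lit 20], false, nat_lit 0, nat_lit 0, nat_lit 0, nat_lit 0, ⟨nat_lit 1000, nat_lit 0, nat_lit 0, nat_lit 0, nat_lit 0, nat_lit 0, nat_lit 0, nat_lit 0, nat_lit 0, nat_lit 0, nat_lit 0, nat_lit 0, nat_lit 0, nat_lit 0, nat_lit 0, nat_lit 0, false, false⟩,
 nat_lit 0, nat_lit 11177, nat_lit 0, nat_lit 0, nat_lit 7112, nat_lit 7100, nat_lit 2024, nat_lit 0, nat_lit 0, nat_lit 0, nat_lit 0, nat_lit 0, nat_lit 0, nat_lit 0, nat_lit 0, nat_lit 0, nat_lit 0, nat_lit 0, [],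
 ⟨p016_k2, nat_lit 0, nat_lit 0, nat_lit 357, nat_lit 0, nat_lit 372253, [nat_lit 3282000000, nat_lit 4688000000, nat_lit 9842000000], [], [nat_lit 20350871496, nat_lit 20184941036, nat_lit 19831225392, nat_lit 20168887394], nat_lit 1271250, nat_lit 1271250, nat_lit 490000, nat_lit 631250, nat_lit 0, nat_lit 0, [nat_lit 780000, nat_lit 1100000, nat_lit 2127500], [nat_lit 42, nat_lit 40, nat_lit 80, nat_lit 80, nat_lit 13, nat_lit 232, nat_lit 25, nat_lit 7]⟩, ⟨p016_k21, nat_lit 0, nat_lit 0, nat_lit 173, nat_lit 0, nat_lit 0, [nat_lit 4688000000, nat_lit 6250000000, nat_lit 9842000000], [], [nat_lit 28267436800, nat_lit 28996540400, nat_lit 28287483775, nat_lit 28995251700], nat_lit 0, nat_lit 0, nat_lit 0, nat_lit 0, nat_lit 0, nat_lit 0, [], [nat_lit 11, nat_lit 40, nat_lit 80, nat_lit 80, nat_lit 1, nat_lit 317, nat_lit 100, nat_lit 9]⟩,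
 zbF0, []⟩
noncomputable def p016_l46 : Lf2 := ⟨nat_lit 0, nat_lit 10, [nat_lit 0, nat_lit 5, nat_lit 5, nat_lit 20], false, nat_lit 0, nat_lit 0, nat_lit 0, nat_lit 0, ⟨nat_lit 1000, nat_lit 0, nat_lit 0, nat_lit 0, nat_lit 0, nat_lit 0, nat_lit 0, nat_lit 0, nat_lit 0, nat_lit 0, nat_lit 0, nat_lit 0, nat_lit 0, nat_lit 0, nat_lit 0, nat_lit 0, false, false⟩,
 nat_lit 0, nat_lit 10516, nat_lit 0, nat_lit 0, nat_lit 6692, nat_lit 7137, nat_lit 1599, nat_lit 0, nat_lit 0, nat_lit 2422, nat_lit 0, nat_lit 0, nat_lit 0, nat_lit 0, nat_lit 0, nat_lit 0, nat_lit 0, nat_lit 0, [],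
 ⟨p016_k2, nat_lit 0, nat_lit 0, nat_lit 567, nat_lit 0, nat_lit 713703, [nat_lit 3282000000, nat_lit 4688000000, nat_lit 9842000000], [], [nat_lit 25400517924, nat_lit 24986425887, nat_lit 25063561191, nat_lit 24965398071], nat_lit 1271250, nat_lit 1271250, nat_lit 631250, nat_lit 780000, nat_lit 0, nat_lit 0, [nat_lit 780000, nat_lit 1100000, nat_lit 2127500], [nat_lit 42, nat_lit 40, nat_lit 80, nat_lit 80, nat_lit 13, nat_lit 238, nat_lit 30, nat_lit 7]⟩, ⟨p016_k21, nat_lit 0, nat_lit 0, nat_lit 166, nat_lit 0, nat_lit 0, [nat_lit 4688000000, nat_lit 6250000000, nat_lit 9842000000], [], [nat_lit 17696789115, nat_lit 18406609309, nat_lit 17714592493, nat_lit 18402988240], nat_lit 0, nat_lit 0, nat_lit 0, nat_lit 0, nat_lit 0, nat_lit 0, [], [nat_lit 11, nat_lit 40, nat_lit 80, nat_lit 80, nat_lit 1, nat_lit 317, nat_lit 100, nat_lit 9]⟩,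
 zbF0, []⟩
noncomputable def p016_l47 : Lf2 := ⟨nat_lit 0, nat_lit 10, [nat_lit 0, nat_lit 5, nat_lit 5, nat_lit 20], false, nat_lit 0, nat_lit 0, nat_lit 0, nat_lit 0, ⟨nat_lit 1000, nat_lit 0, nat_lit 0, nat_lit 0, nat_lit 0, nat_lit 0, nat_lit 0, nat_lit 0, nat_lit 0, nat_lit 0, nat_lit 0, nat_lit 0, nat_lit 0, nat_lit 0, nat_lit 0, nat_lit 0, false, false⟩,
 nat_lit 0, nat_lit 10410, nat_lit 0, nat_lit 0, nat_lit 6710, nat_lit 7137, nat_lit 1593, nat_lit 0, nat_lit 0, nat_lit 2365, nat_lit 0, nat_lit 0, nat_lit 0, nat_lit 0, nat_lit 0, nat_lit 0, nat_lit 0, nat_lit 0, [],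
 ⟨p016_k30, nat_lit 0, nat_lit 0, nat_lit 568, nat_lit 0, nat_lit 717464, [nat_lit 3282000000, nat_lit 4688000000, nat_lit 9842000000], [], [nat_lit 24450158498, nat_lit 24178471372, nat_lit 24136146902, nat_lit 24155477378], nat_lit 1271250, nat_lit 1271250, nat_lit 631250, nat_lit 780000, nat_lit 0, nat_lit 0, [nat_lit 780000, nat_lit 1100000, nat_lit 2127500], [nat_lit 42, nat_lit 40, nat_lit 80, nat_lit 80, nat_lit 13, nat_lit 238, nat_lit 30, nat_lit 7]⟩, ⟨p016_k21, nat_lit 0, nat_lit 0, nat_lit 166, nat_lit 0, nat_lit 0, [nat_lit 4688000000, nat_lit 6250000000, nat_lit 9842000000], [], [nat_lit 17945273490, nat_lit 18655093684, nat_lit 17963076868, nat_lit 18651472615], nat_lit 0, nat_lit 0, nat_lit 0, nat_lit 0, nat_lit 0, nat_lit 0, [], [nat_lit 11, nat_lit 40, nat_lit 80, nat_lit 80, nat_lit 1, nat_lit 317, nat_lit 100, nat_lit 9]⟩,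
 zbF0, []⟩
noncomputable def p016_l48 : Lf2 := ⟨nat_lit 0, nat_lit 10, [nat_lit 0, nat_lit 5, nat_lit 5, nat_lit 20], false, nat_lit 0, nat_lit 0, nat_lit 0, nat_lit 0, ⟨nat_lit 1000, nat_lit 0, nat_lit 0, nat_lit 0, nat_lit 0, nat_lit 0, nat_lit 0, nat_lit 0, nat_lit 0, nat_lit 0, nat_lit 0, nat_lit 0, nat_lit 0, nat_lit 0, nat_lit 0, nat_lit 0, false, false⟩,
 nat_lit 0, nat_lit 11700, nat_lit 0, nat_lit 0, nat_lit 7445, nat_lit 7174, nat_lit 1860, nat_lit 0, nat_lit 0, nat_lit 2652, nat_lit 0, nat_lit 0, nat_lit 0, nat_lit 0, nat_lit 0, nat_lit 0, nat_lit 0, nat_lit 0, [],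
 ⟨p016_k2, nat_lit 0, nat_lit 0, nat_lit 565, nat_lit 0, nat_lit 730433, [nat_lit 3282000000, nat_lit 4688000000, nat_lit 9842000000], [], [nat_lit 22244100360, nat_lit 21404110930, nat_lit 26084410080, nat_lit 25230520695], nat_lit 1271250, nat_lit 1271250, nat_lit 780000, nat_lit 1100001, nat_lit 0, nat_lit 0, [nat_lit 780000, nat_lit 1100000, nat_lit 2127500], [nat_lit 42, nat_lit 40, nat_lit 80, nat_lit 80, nat_lit 13, nat_lit 249, nat_lit 40, nat_lit 7]⟩, ⟨p016_k21, nat_lit 0, nat_lit 0, nat_lit 160, nat_lit 0, nat_lit 0, [nat_lit 4688000000, nat_lit 6250000000, nat_lit 9842000000], [], [nat_lit 16677404235, nat_lit 17367763480, nat_lit 16708523798, nat_lit 17355856604], nat_lit 0, nat_lit 0, nat_lit 0, nat_lit 0, nat_lit 0, nat_lit 0, [], [nat_lit 11, nat_lit 40, nat_lit 80, nat_lit 80, nat_lit 1, nat_lit 345, nat_lit 125, nat_lit 10]⟩,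
 zbF0, []⟩
noncomputable def p016_l49 : Lf2 := ⟨nat_lit 0, nat_lit 10, [nat_lit 0, nat_lit 5, nat_lit 5, nat_lit 20], false, nat_lit 0, nat_lit 0, nat_lit 0, nat_lit 0, ⟨nat_lit 1000, nat_lit 0, nat_lit 0, nat_lit 0, nat_lit 0, nat_lit 0, nat_lit 0, nat_lit 0, nat_lit 0, nat_lit 0, nat_lit 0, nat_lit 0, nat_lit 0, nat_lit 0, nat_lit 0, nat_lit 0, false, false⟩,
 nat_lit 0, nat_lit 11790, nat_lit 0, nat_lit 0, nat_lit 7665, nat_lit 7288, nat_lit 2296, nat_lit 0, nat_lit 0, nat_lit 0, nat_lit 0, nat_lit 0, nat_lit 0, nat_lit 0, nat_lit 0, nat_lit 0, nat_lit 0, nat_lit 0, [],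
 ⟨p016_k26, nat_lit 0, nat_lit 0, nat_lit 498, nat_lit 0, nat_lit 623905, [nat_lit 3282000000, nat_lit 4688000000, nat_lit 9842000000], [], [nat_lit 19548185803, nat_lit 18671145830, nat_lit 22531212157, nat_lit 21651931263], nat_lit 1271250, nat_lit 1271250, nat_lit 490000, nat_lit 780000, nat_lit 0, nat_lit 0, [nat_lit 780000, nat_lit 1100000, nat_lit 2127500], [nat_lit 42, nat_lit 40, nat_lit 80, nat_lit 80, nat_lit 13, nat_lit 238, nat_lit 30, nat_lit 7]⟩, ⟨p016_k17, nat_lit 0, nat_lit 0, nat_lit 163, nat_lit 0, nat_lit 0, [nat_lit 4688000000, nat_lit 6250000000, nat_lit 9842000000], [], [nat_lit 27374794256, nat_lit 27744785460, nat_lit 27435661880, nat_lit 27783866350], nat_lit 0, nat_lit 0, nat_lit 0, nat_lit 0, nat_lit 0, nat_lit 0, [], [nat_lit 11, nat_lit 40, nat_lit 80, nat_lit 80, nat_lit 1, nat_lit 317, nat_lit 100, nat_lit 9]⟩,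
 zbF0, []⟩
noncomputable def p016_l50 : Lf2 := ⟨nat_lit 0, nat_lit 10, [nat_lit 0, nat_lit 5, nat_lit 5, nat_lit 20], false, nat_lit 0, nat_lit 0, nat_lit 0, nat_lit 0, ⟨nat_lit 1000, nat_lit 0, nat_lit 0, nat_lit 0, nat_lit 0, nat_lit 0, nat_lit 0, nat_lit 0, nat_lit 0, nat_lit 0, nat_lit 0, nat_lit 0, nat_lit 0, nat_lit 0, nat_lit 0, nat_lit 0, false, false⟩,
 nat_lit 0, nat_lit 11789, nat_lit 0, nat_lit 0, nat_lit 7664, nat_lit 7225, nat_lit 2299, nat_lit 0, nat_lit 0, nat_lit 2127, nat_lit 0, nat_lit 0, nat_lit 0, nat_lit 0, nat_lit 0, nat_lit 0, nat_lit 0, nat_lit 0, [],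
 ⟨p016_k26, nat_lit 0, nat_lit 0, nat_lit 550, nat_lit 0, nat_lit 664351, [nat_lit 3282000000, nat_lit 4688000000, nat_lit 9842000000], [], [nat_lit 19533179984, nat_lit 18671775628, nat_lit 22515968500, nat_lit 21636802320], nat_lit 1271250, nat_lit 1271250, nat_lit 490000, nat_lit 780000, nat_lit 0, nat_lit 0, [nat_lit 780000, nat_lit 1100000, nat_lit 2127500], [nat_lit 42, nat_lit 40, nat_lit 80, nat_lit 80, nat_lit 13, nat_lit 238, nat_lit 30, nat_lit 7]⟩, ⟨p016_k31, nat_lit 0, nat_lit 0, nat_lit 166, nat_lit 0, nat_lit 0, [nat_lit 4688000000, nat_lit 6250000000, nat_lit 9842000000], [], [nat_lit 18937481250, nat_lit 19305649675, nat_lit 18984051344, nat_lit 19330584188], nat_lit 0, nat_lit 0, nat_lit 0, nat_lit 0, nat_lit 0, nat_lit 0, [], [nat_lit 11, nat_lit 40, nat_lit 80, nat_lit 80, nat_lit 1, nat_lit 317, nat_lit 100, nat_lit 9]⟩,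
 zbF0, []⟩
noncomputable def p016_l51 : Lf2 := ⟨nat_lit 0, nat_lit 10, [nat_lit 0, nat_lit 5, nat_lit 5, nat_lit 20], false, nat_lit 0, nat_lit 0, nat_lit 0, nat_lit 0, ⟨nat_lit 1000, nat_lit 0, nat_lit 0, nat_lit 0, nat_lit 0, nat_lit 0, nat_lit 0, nat_lit 0, nat_lit 0, nat_lit 0, nat_lit 0, nat_lit 0, nat_lit 0, nat_lit 0, nat_lit 0, nat_lit 0, false, false⟩,
 nat_lit 0, nat_lit 11298, nat_lit 0, nat_lit 0, nat_lit 7345, nat_lit 7296, nat_lit 1839, nat_lit 0, nat_lit 0, nat_lit 0, nat_lit 0, nat_lit 0, nat_lit 0, nat_lit 0, nat_lit 0, nat_lit 0, nat_lit 0, nat_lit 0, [],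
 ⟨p016_k26, nat_lit 0, nat_lit 0, nat_lit 497, nat_lit 0, nat_lit 664351, [nat_lit 3282000000, nat_lit 4688000000, nat_lit 9842000000], [], [nat_lit 20857557634, nat_lit 20352830810, nat_lit 24674893720, nat_lit 23832473635], nat_lit 1271250, nat_lit 1271250, nat_lit 780000, nat_lit 1100001, nat_lit 0, nat_lit 0, [nat_lit 780000, nat_lit 1100000, nat_lit 2127500], [nat_lit 42, nat_lit 40, nat_lit 80, nat_lit 80, nat_lit 13, nat_lit 249, nat_lit 40, nat_lit 7]⟩, ⟨p016_k17, nat_lit 0, nat_lit 0, nat_lit 154, nat_lit 0, nat_lit 0, [nat_lit 4688000000, nat_lit 6250000000, nat_lit 9842000000], [], [nat_lit 27427770960, nat_lit 28124604440, nat_lit 27487706768, nat_lit 28140928392], nat_lit 0, nat_lit 0, nat_lit 0, nat_lit 0, nat_lit 0, nat_lit 0, [], [nat_lit 11, nat_lit 40, nat_lit 80, nat_lit 80, nat_lit 1, nat_lit 345, nat_lit 125, nat_lit 10]⟩,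
 zbF0, []⟩
noncomputable def p016_l52 : Lf2 := ⟨nat_lit 0, nat_lit 10, [nat_lit 0, nat_lit 5, nat_lit 5, nat_lit 20], false, nat_lit 0, nat_lit 0, nat_lit 0, nat_lit 0, ⟨nat_lit 1000, nat_lit 0, nat_lit 0, nat_lit 0, nat_lit 0, nat_lit 0, nat_lit 0, nat_lit 0, nat_lit 0, nat_lit 0, nat_lit 0, nat_lit 0, nat_lit 0, nat_lit 0, nat_lit 0, nat_lit 0, false, false⟩,
 nat_lit 0, nat_lit 10735, nat_lit 0, nat_lit 0, nat_lit 6979, nat_lit 7100, nat_lit 1927, nat_lit 0, nat_lit 0, nat_lit 0, nat_lit 0, nat_lit 0, nat_lit 0, nat_lit 0, nat_lit 0, nat_lit 0, nat_lit 0, nat_lit 0, [],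
 ⟨p016_k26, nat_lit 0, nat_lit 0, nat_lit 421, nat_lit 0, nat_lit 384559, [nat_lit 3282000000, nat_lit 4688000000, nat_lit 9842000000], [], [nat_lit 19561507775, nat_lit 19905366965, nat_lit 19673044070, nat_lit 19887688176], nat_lit 1271250, nat_lit 1271250, nat_lit 490000, nat_lit 631250, nat_lit 0, nat_lit 0, [nat_lit 780000, nat_lit 1100000, nat_lit 2127500], [nat_lit 42, nat_lit 40, nat_lit 80, nat_lit 80, nat_lit 13, nat_lit 232, nat_lit 25, nat_lit 7]⟩, ⟨p016_k21, nat_lit 0, nat_lit 0, nat_lit 173, nat_lit 0, nat_lit 0, [nat_lit 4688000000, nat_lit 6250000000, nat_lit 9842000000], [], [nat_lit 28267436800, nat_lit 28996540400, nat_lit 28287483775, nat_lit 28995251700], nat_lit 0, nat_lit 0, nat_lit 0, nat_lit 0, nat_lit 0, nat_lit 0, [], [nat_lit 11, nat_lit 40, nat_lit 80, nat_lit 80, nat_lit 1, nat_lit 317, nat_lit 100, nat_lit 9]⟩,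
 zbF0, []⟩
noncomputable def p016_l53 : Lf2 := ⟨nat_lit 0, nat_lit 10, [nat_lit 0, nat_lit 5, nat_lit 5, nat_lit 20], false, nat_lit 0, nat_lit 0, nat_lit 0, nat_lit 0, ⟨nat_lit 1000, nat_lit 0, nat_lit 0, nat_lit 0, nat_lit 0, nat_lit 0, nat_lit 0, nat_lit 0, nat_lit 0, nat_lit 0, nat_lit 0, nat_lit 0, nat_lit 0, nat_lit 0, nat_lit 0, nat_lit 0, false, false⟩,
 nat_lit 0, nat_lit 10707, nat_lit 0, nat_lit 0, nat_lit 6961, nat_lit 7137, nat_lit 1637, nat_lit 0, nat_lit 0, nat_lit 2429, nat_lit 0, nat_lit 0, nat_lit 0, nat_lit 0, nat_lit 0, nat_lit 0, nat_lit 0, nat_lit 0, [],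
 ⟨p016_k26, nat_lit 0, nat_lit 0, nat_lit 579, nat_lit 0, nat_lit 750514, [nat_lit 3282000000, nat_lit 4688000000, nat_lit 9842000000], [], [nat_lit 23455020426, nat_lit 22718892887, nat_lit 22775597196, nat_lit 22672746636], nat_lit 1271250, nat_lit 1271250, nat_lit 631250, nat_lit 780000, nat_lit 0, nat_lit 0, [nat_lit 780000, nat_lit 1100000, nat_lit 2127500], [nat_lit 42, nat_lit 40, nat_lit 80, nat_lit 80, nat_lit 13, nat_lit 238, nat_lit 30, nat_lit 7]⟩, ⟨p016_k21, nat_lit 0, nat_lit 0, nat_lit 166, nat_lit 0, nat_lit 0, [nat_lit 4688000000, nat_lit 6250000000, nat_lit 9842000000], [], [nat_lit 17666273490, nat_lit 18376093684, nat_lit 17684076868, nat_lit 18372472615], nat_lit 0, nat_lit 0, nat_lit 0, nat_lit 0, nat_lit 0, nat_lit 0, [], [nat_lit 11, nat_lit 40, nat_lit 80, nat_lit 80, nat_lit 1, nat_lit 317, nat_lit 100, nat_lit 9]⟩,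
 zbF0, []⟩
noncomputable def p016_l54 : Lf2 := ⟨nat_lit 0, nat_lit 10, [nat_lit 0, nat_lit 5, nat_lit 5, nat_lit 20], false, nat_lit 0, nat_lit 0, nat_lit 0, nat_lit 0, ⟨nat_lit 1000, nat_lit 0, nat_lit 0, nat_lit 0, nat_lit 0, nat_lit 0, nat_lit 0, nat_lit 0, nat_lit 0, nat_lit 0, nat_lit 0, nat_lit 0, nat_lit 0, nat_lit 0, nat_lit 0, nat_lit 0, false, false⟩,
 nat_lit 0, nat_lit 11298, nat_lit 0, nat_lit 0, nat_lit 7345, nat_lit 7174, nat_lit 1839, nat_lit 0, nat_lit 0, nat_lit 2471, nat_lit 0, nat_lit 0, nat_lit 0, nat_lit 0, nat_lit 0, nat_lit 0, nat_lit 0, nat_lit 0, [],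
 ⟨p016_k26, nat_lit 0, nat_lit 0, nat_lit 572, nat_lit 0, nat_lit 750514, [nat_lit 3282000000, nat_lit 4688000000, nat_lit 9842000000], [], [nat_lit 20857557634, nat_lit 20352830810, nat_lit 24674893720, nat_lit 23832473635], nat_lit 1271250, nat_lit 1271250, nat_lit 780000, nat_lit 1100001, nat_lit 0, nat_lit 0, [nat_lit 780000, nat_lit 1100000, nat_lit 2127500], [nat_lit 42, nat_lit 40, nat_lit 80, nat_lit 80, nat_lit 13, nat_lit 249, nat_lit 40, nat_lit 7]⟩, ⟨p016_k21, nat_lit 0, nat_lit 0, nat_lit 160, nat_lit 0, nat_lit 0, [nat_lit 4688000000, nat_lit 6250000000, nat_lit 9842000000], [], [nat_lit 17466451110, nat_lit 18156810355, nat_lit 17497570673, nat_lit 18144903479], nat_lit 0, nat_lit 0, nat_lit 0, nat_lit 0, nat_lit 0, nat_lit 0, [], [nat_lit 11, nat_lit 40, nat_lit 80, nat_lit 80, nat_lit 1, nat_lit 345, nat_lit 125, nat_lit 10]⟩,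
 zbF0, []⟩
noncomputable def p016_l55 : Lf2 := ⟨nat_lit 0, nat_lit 10, [nat_lit 0, nat_lit 5, nat_lit 5, nat_lit 20], false, nat_lit 0, nat_lit 0, nat_lit 0, nat_lit 0, ⟨nat_lit 1000, nat_lit 0, nat_lit 0, nat_lit 0, nat_lit 0, nat_lit 0, nat_lit 0, nat_lit 0, nat_lit 0, nat_lit 0, nat_lit 0, nat_lit 0, nat_lit 0, nat_lit 0, nat_lit 0, nat_lit 0, false, false⟩,
 nat_lit 0, nat_lit 11099, nat_lit 0, nat_lit 0, nat_lit 7371, nat_lit 7100, nat_lit 1710, nat_lit 0, nat_lit 0, nat_lit 0, nat_lit 0, nat_lit 0, nat_lit 0, nat_lit 0, nat_lit 0, nat_lit 0, nat_lit 0, nat_lit 0, [],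
 ⟨p016_k27, nat_lit 0, nat_lit 0, nat_lit 508, nat_lit 0, nat_lit 753630, [nat_lit 3282000000, nat_lit 4688000000, nat_lit 7968000000], [], [nat_lit 18639441657, nat_lit 18810708096, nat_lit 24513906068, nat_lit 24006664807], nat_lit 1271250, nat_lit 1271250, nat_lit 490000, nat_lit 1100001, nat_lit 0, nat_lit 0, [nat_lit 780000, nat_lit 1100000, nat_lit 1785000], [nat_lit 36, nat_lit 40, nat_lit 80, nat_lit 80, nat_lit 7, nat_lit 249, nat_lit 40, nat_lit 8]⟩, ⟨p016_k17, nat_lit 0, nat_lit 0, nat_lit 173, nat_lit 0, nat_lit 0, [nat_lit 4688000000, nat_lit 6250000000, nat_lit 9842000000], [], [nat_lit 27538333200, nat_lit 28996540400, nat_lit 27703863800, nat_lit 28991385600], nat_lit 0, nat_lit 0, nat_lit 0, nat_lit 0, nat_lit 0, nat_lit 0, [], [nat_lit 11, nat_lit 40, nat_lit 80, nat_lit 80, nat_lit 1, nat_lit 345, nat_lit 125, nat_lit 10]⟩,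
 zbF0, []⟩
noncomputable def p016_l56 : Lf2 := ⟨nat_lit 0, nat_lit 10, [nat_lit 0, nat_lit 5, nat_lit 5, nat_lit 20], false, nat_lit 0, nat_lit 0, nat_lit 0, nat_lit 0, ⟨nat_lit 1000, nat_lit 0, nat_lit 0, nat_lit 0, nat_lit 0, nat_lit 0, nat_lit 0, nat_lit 0, nat_lit 0, nat_lit 0, nat_lit 0, nat_lit 0, nat_lit 0, nat_lit 0, nat_lit 0, nat_lit 0, false, false⟩,
 nat_lit 0, nat_lit 10612, nat_lit 0, nat_lit 0, nat_lit 7136, nat_lit 7100, nat_lit 1695, nat_lit 0, nat_lit 0, nat_lit 0, nat_lit 0, nat_lit 0, nat_lit 0, nat_lit 0, nat_lit 0, nat_lit 0, nat_lit 0, nat_lit 0, [],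
 ⟨p016_k32, nat_lit 0, nat_lit 0, nat_lit 510, nat_lit 0, nat_lit 756918, [nat_lit 3282000000, nat_lit 4688000000, nat_lit 7968000000], [], [nat_lit 18730399297, nat_lit 18844242796, nat_lit 23846552390, nat_lit 23519172690], nat_lit 1271250, nat_lit 1271250, nat_lit 490000, nat_lit 1100001, nat_lit 0, nat_lit 0, [nat_lit 780000, nat_lit 1100000, nat_lit 1785000], [nat_lit 36, nat_lit 40, nat_lit 80, nat_lit 80, nat_lit 7, nat_lit 249, nat_lit 40, nat_lit 8]⟩, ⟨p016_k17, nat_lit 0, nat_lit 0, nat_lit 173, nat_lit 0, nat_lit 0, [nat_lit 4688000000, nat_lit 6250000000, nat_lit 9842000000], [], [nat_lit 27538333200, nat_lit 28996540400, nat_lit 27703863800, nat_lit 28991385600], nat_lit 0, nat_lit 0, nat_lit 0, nat_lit 0, nat_lit 0, nat_lit 0, [], [nat_lit 11, nat_lit 40, nat_lit 80, nat_lit 80, nat_lit 1, nat_lit 345, nat_lit 125, nat_lit 10]⟩,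
 zbF0, []⟩
noncomputable def p016_l57 : Lf2 := ⟨nat_lit 0, nat_lit 10, [nat_lit 0, nat_lit 5, nat_lit 5, nat_lit 20], false, nat_lit 0, nat_lit 0, nat_lit 0, nat_lit 0, ⟨nat_lit 1000, nat_lit 0, nat_lit 0, nat_lit 0, nat_lit 0, nat_lit 0, nat_lit 0, nat_lit 0, nat_lit 0, nat_lit 0, nat_lit 0, nat_lit 0, nat_lit 0, nat_lit 0, nat_lit 0, nat_lit 0, false, false⟩,
 nat_lit 0, nat_lit 10107, nat_lit 0, nat_lit 0, nat_lit 6854, nat_lit 7100, nat_lit 1756, nat_lit 0, nat_lit 0, nat_lit 0, nat_lit 0, nat_lit 0, nat_lit 0, nat_lit 0, nat_lit 0, nat_lit 0, nat_lit 0, nat_lit 0, [],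
 ⟨p016_k28, nat_lit 0, nat_lit 0, nat_lit 522, nat_lit 0, nat_lit 789308, [nat_lit 3282000000, nat_lit 4688000000, nat_lit 7968000000], [], [nat_lit 19001228459, nat_lit 19258609924, nat_lit 23328368910, nat_lit 22542263088], nat_lit 1271250, nat_lit 1271250, nat_lit 490000, nat_lit 1100001, nat_lit 0, nat_lit 0, [nat_lit 780000, nat_lit 1100000, nat_lit 1785000], [nat_lit 36, nat_lit 40, nat_lit 80, nat_lit 80, nat_lit 7, nat_lit 249, nat_lit 40, nat_lit 8]⟩, ⟨p016_k17, nat_lit 0, nat_lit 0, nat_lit 173, nat_lit 0, nat_lit 0, [nat_lit 4688000000, nat_lit 6250000000, nat_lit 9842000000], [], [nat_lit 27538333200, nat_lit 28996540400, nat_lit 27703863800, nat_lit 28991385600], nat_lit 0, nat_lit 0, nat_lit 0, nat_lit 0, nat_lit 0, nat_lit 0, [], [nat_lit 11, nat_lit 40, nat_lit 80, nat_lit 80, nat_lit 1, nat_lit 345, nat_lit 125, nat_lit 10]⟩,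
 zbF0, [⟨nat_lit 0, nat_lit 100, nat_lit 94, nat_lit 88, nat_lit 367733916⟩]⟩
noncomputable def p016_l58 : Lf2 := ⟨nat_lit 0, nat_lit 10, [nat_lit 0, nat_lit 5, nat_lit 5, nat_lit 20], false, nat_lit 0, nat_lit 0, nat_lit 0, nat_lit 0, ⟨nat_lit 1000, nat_lit 0, nat_lit 0, nat_lit 0, nat_lit 0, nat_lit 0, nat_lit 0, nat_lit 0, nat_lit 0, nat_lit 0, nat_lit 0, nat_lit 0, nat_lit 0, nat_lit 0, nat_lit 0, nat_lit 0, false, false⟩,
 nat_lit 0, nat_lit 6573, nat_lit 0, nat_lit 0, nat_lit 4182, nat_lit 7100, nat_lit 1623, nat_lit 0, nat_lit 0, nat_lit 0, nat_lit 0, nat_lit 0, nat_lit 0, nat_lit 0, nat_lit 0, nat_lit 0, nat_lit 0, nat_lit 0, [],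
 ⟨p016_k2, nat_lit 0, nat_lit 0, nat_lit 446, nat_lit 0, nat_lit 463201, [nat_lit 3282000000, nat_lit 4688000000, nat_lit 9842000000], [], [nat_lit 30252559056, nat_lit 29673111794, nat_lit 32723909783, nat_lit 31764617531], nat_lit 1271250, nat_lit 1271250, nat_lit 490000, nat_lit 1100001, nat_lit 0, nat_lit 0, [nat_lit 780000, nat_lit 1100000, nat_lit 2127500], [nat_lit 42, nat_lit 40, nat_lit 80, nat_lit 80, nat_lit 13, nat_lit 249, nat_lit 40, nat_lit 7]⟩, ⟨p016_k17, nat_lit 0, nat_lit 0, nat_lit 173, nat_lit 0, nat_lit 0, [nat_lit 4688000000, nat_lit 6250000000, nat_lit 9842000000], [], [nat_lit 27538333200, nat_lit 28996540400, nat_lit 27703863800, nat_lit 28991385600], nat_lit 0, nat_lit 0, nat_lit 0, nat_lit 0, nat_lit 0, nat_lit 0, [], [nat_lit 11, nat_lit 40, nat_lit 80, nat_lit 80, nat_lit 1, nat_lit 345, nat_lit 125, nat_lit 10]⟩,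
 zbF0, []⟩
noncomputable def p016_l59 : Lf2 := ⟨nat_lit 0, nat_lit 10, [nat_lit 0, nat_lit 5, nat_lit 5, nat_lit 20], false, nat_lit 0, nat_lit 0, nat_lit 0, nat_lit 0, ⟨nat_lit 1000, nat_lit 0, nat_lit 0, nat_lit 0, nat_lit 0, nat_lit 0, nat_lit 0, nat_lit 0, nat_lit 0, nat_lit 0, nat_lit 0, nat_lit 0, nat_lit 0, nat_lit 0, nat_lit 0, nat_lit 0, false, false⟩,
 nat_lit 0, nat_lit 10377, nat_lit 0, nat_lit 0, nat_lit 6891, nat_lit 7100, nat_lit 1753, nat_lit 0, nat_lit 0, nat_lit 0, nat_lit 0, nat_lit 0, nat_lit 0, nat_lit 0, nat_lit 0, nat_lit 0, nat_lit 0, nat_lit 0, [],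
 ⟨p016_k27, nat_lit 0, nat_lit 0, nat_lit 396, nat_lit 0, nat_lit 522571, [nat_lit 3282000000, nat_lit 4688000000, nat_lit 7968000000], [], [nat_lit 18872158648, nat_lit 19309037385, nat_lit 25267631103, nat_lit 23686932177], nat_lit 1271250, nat_lit 1271250, nat_lit 490000, nat_lit 1100001, nat_lit 0, nat_lit 0, [nat_lit 780000, nat_lit 1100000, nat_lit 1785000], [nat_lit 36, nat_lit 40, nat_lit 80, nat_lit 80, nat_lit 7, nat_lit 249, nat_lit 40, nat_lit 8]⟩, ⟨p016_k17, nat_lit 0, nat_lit 0, nat_lit 173, nat_lit 0, nat_lit 0, [nat_lit 4688000000, nat_lit 6250000000, nat_lit 9842000000], [], [nat_lit 27538333200, nat_lit 28996540400, nat_lit 27703863800, nat_lit 28991385600], nat_lit 0, nat_lit 0, nat_lit 0, nat_lit 0, nat_lit 0, nat_lit 0, [], [nat_lit 11, nat_lit 40, nat_lit 80, nat_lit 80, nat_lit 1, nat_lit 345, nat_lit 125, nat_lit 10]⟩,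
 zbF0, [⟨nat_lit 0, nat_lit 100, nat_lit 94, nat_lit 88, nat_lit 288655010⟩]⟩
noncomputable def p016_l60 : Lf2 := ⟨nat_lit 0, nat_lit 10, [nat_lit 0, nat_lit 5, nat_lit 5, nat_lit 20], false, nat_lit 0, nat_lit 0, nat_lit 0, nat_lit 0, ⟨nat_lit 971, nat_lit 0, nat_lit 29, nat_lit 6, nat_lit 165, nat_lit 0, nat_lit 0, nat_lit 0, nat_lit 0, nat_lit 215, nat_lit 47205, nat_lit 267, nat_lit 57293132, nat_lit 0, nat_lit 0, nat_lit 2068606, false, false⟩,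
 nat_lit 0, nat_lit 10098, nat_lit 0, nat_lit 0, nat_lit 6990, nat_lit 6548, nat_lit 1598, nat_lit 0, nat_lit 0, nat_lit 1508, nat_lit 0, nat_lit 0, nat_lit 0, nat_lit 0, nat_lit 0, nat_lit 29000, nat_lit 0, nat_lit 0, [(nat_lit 15, [(nat_lit 6, nat_lit 29)])],
 ⟨p016_k8, nat_lit 0, nat_lit 0, nat_lit 487, nat_lit 0, nat_lit 685570, [nat_lit 3215242001, nat_lit 6002189200, nat_lit 7584538800], [], [nat_lit 19972800201, nat_lit 20221483460, nat_lit 20206898734, nat_lit 19956571165], nat_lit 1271250, nat_lit 1271250, nat_lit 490000, nat_lit 1100001, nat_lit 0, nat_lit 0, [nat_lit 780000, nat_lit 1435000, nat_lit 1271250], [nat_lit 18, nat_lit 40, nat_lit 80, nat_lit 80, nat_lit 2, nat_lit 249, nat_lit 40, nat_lit 8]⟩, ⟨p016_k1, nat_lit 0, nat_lit 0, nat_lit 225, nat_lit 0, nat_lit 0, [nat_lit 4552048000, nat_lit 7736928000, nat_lit 11527712000], [], [nat_lit 21093897312, nat_lit 22292861334,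 nat_lit 21504982940, nat_lit 22875351220], nat_lit 0, nat_lit 0, nat_lit 0, nat_lit 0, nat_lit 0, nat_lit 0, [], [nat_lit 21, nat_lit 40, nat_lit 80, nat_lit 80, nat_lit 14, nat_lit 345, nat_lit 125, nat_lit 9]⟩,
 ⟨nat_lit 4873, nat_lit 5000, ⟨.ofNat (nat_lit 328570), .ofNat (nat_lit 471426), .ofNat (nat_lit 349998), .ofNat (nat_lit 492854), .ofNat (nat_lit 331222), .ofNat (nat_lit 472347), .ofNat (nat_lit 352678), .ofNat (nat_lit 493803)⟩, ⟨.ofNat (nat_lit 0), .ofNat (nat_lit 0), .ofNat (nat_lit 0), .ofNat (nat_lit 0), .ofNat (nat_lit 0), .ofNat (nat_lit 0), .ofNat (nat_lit 0), .ofNat (nat_lit 0)⟩⟩, []⟩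
noncomputable def p016_l61 : Lf2 := ⟨nat_lit 0, nat_lit 10, [nat_lit 0, nat_lit 5, nat_lit 5, nat_lit 20], false, nat_lit 0, nat_lit 0, nat_lit 0, nat_lit 0, ⟨nat_lit 1000, nat_lit 0, nat_lit 0, nat_lit 0, nat_lit 0, nat_lit 0, nat_lit 0, nat_lit 0, nat_lit 0, nat_lit 0, nat_lit 0, nat_lit 0, nat_lit 0, nat_lit 0, nat_lit 0, nat_lit 0, false, false⟩,
 nat_lit 0, nat_lit 9693, nat_lit 0, nat_lit 0, nat_lit 6848, nat_lit 6741, nat_lit 1416, nat_lit 0, nat_lit 0, nat_lit 1552, nat_lit 0, nat_lit 0, nat_lit 0, nat_lit 0, nat_lit 0, nat_lit 0, nat_lit 0, nat_lit 0, [],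
 ⟨p016_k33, nat_lit 0, nat_lit 0, nat_lit 498, nat_lit 0, nat_lit 710352, [nat_lit 3282000000, nat_lit 6250000000, nat_lit 7968000000], [], [nat_lit 20559299316, nat_lit 20797610552, nat_lit 20308201280, nat_lit 20519111424], nat_lit 1271250, nat_lit 1271250, nat_lit 490000, nat_lit 1100001, nat_lit 0, nat_lit 0, [nat_lit 780000, nat_lit 1435000, nat_lit 1271250], [nat_lit 18, nat_lit 40, nat_lit 80, nat_lit 80, nat_lit 2, nat_lit 249, nat_lit 40, nat_lit 8]⟩, ⟨p016_k1, nat_lit 0, nat_lit 0, nat_lit 225, nat_lit 0, nat_lit 0, [nat_lit 4688000000, nat_lit 7968000000, nat_lit 11872000000], [], [nat_lit 21732482892, nat_lit 22962342010, nat_lit 22150922384, nat_lit 23561920902], nat_lit 0, nat_lit 0, nat_lit 0, nat_lit 0, nat_lit 0, nat_lit 0, [], [nat_lit 21, nat_lit 40, nat_lit 80, nat_lit 80, nat_lit 14, nat_lit 345, nat_lit 125, nat_lit 9]⟩,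
 zbF0, []⟩
noncomputable def p016_l62 : Lf2 := ⟨nat_lit 0, nat_lit 10, [nat_lit 0, nat_lit 5, nat_lit 5, nat_lit 20], false, nat_lit 0, nat_lit 0, nat_lit 0, nat_lit 0, ⟨nat_lit 1000, nat_lit 0, nat_lit 0, nat_lit 0, nat_lit 0, nat_lit 0, nat_lit 0, nat_lit 0, nat_lit 0, nat_lit 0, nat_lit 0, nat_lit 0, nat_lit 0, nat_lit 0, nat_lit 0, nat_lit 0, false, false⟩,
 nat_lit 0, nat_lit 9161, nat_lit 0, nat_lit 0, nat_lit 6604, nat_lit 6741, nat_lit 1223, nat_lit 0, nat_lit 0, nat_lit 1552, nat_lit 0, nat_lit 0, nat_lit 0, nat_lit 0, nat_lit 0, nat_lit 0, nat_lit 0, nat_lit 0, [],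
 ⟨p016_k34, nat_lit 0, nat_lit 0, nat_lit 527, nat_lit 0, nat_lit 778178, [nat_lit 3282000000, nat_lit 6250000000, nat_lit 7968000000], [], [nat_lit 21457355235, nat_lit 21931992096, nat_lit 21380076643, nat_lit 21800022043], nat_lit 1271250, nat_lit 1271250, nat_lit 490000, nat_lit 1100001, nat_lit 0, nat_lit 0, [nat_lit 780000, nat_lit 1435000, nat_lit 1271250], [nat_lit 18, nat_lit 40, nat_lit 80, nat_lit 80, nat_lit 2, nat_lit 249, nat_lit 40, nat_lit 8]⟩, ⟨p016_k1, nat_lit 0, nat_lit 0, nat_lit 225, nat_lit 0, nat_lit 0, [nat_lit 4688000000, nat_lit 7968000000, nat_lit 11872000000], [], [nat_lit 21732482892, nat_lit 22962342010, nat_lit 22150922384, nat_lit 23561920902], nat_lit 0, nat_lit 0, nat_lit 0, nat_lit 0, nat_lit 0, nat_lit 0, [], [nat_lit 21, nat_lit 40, nat_lit 80, nat_lit 80, nat_lit 14, nat_lit 345, nat_lit 125, nat_lit 9]⟩,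
 zbF0, [⟨nat_lit 0, nat_lit 100, nat_lit 84, nat_lit 85, nat_lit 641403030⟩]⟩
noncomputable def p016_l63 : Lf2 := ⟨nat_lit 0, nat_lit 10, [nat_lit 0, nat_lit 5, nat_lit 5, nat_lit 20], false, nat_lit 0, nat_lit 0, nat_lit 0, nat_lit 0, ⟨nat_lit 1000, nat_lit 0, nat_lit 0, nat_lit 0, nat_lit 0, nat_lit 0, nat_lit 0, nat_lit 0, nat_lit 0, nat_lit 0, nat_lit 0, nat_lit 0, nat_lit 0, nat_lit 0, nat_lit 0, nat_lit 0, false, false⟩,
 nat_lit 0, nat_lit 9345, nat_lit 0, nat_lit 0, nat_lit 6469, nat_lit 7100, nat_lit 1855, nat_lit 0, nat_lit 0, nat_lit 0, nat_lit 0, nat_lit 0, nat_lit 0, nat_lit 0, nat_lit 0, nat_lit 0, nat_lit 0, nat_lit 0, [],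
 ⟨p016_k23, nat_lit 0, nat_lit 0, nat_lit 555, nat_lit 0, nat_lit 878467, [nat_lit 3282000000, nat_lit 4688000000, nat_lit 7968000000], [], [nat_lit 19711734264, nat_lit 20227188630, nat_lit 21552857618, nat_lit 20499191135], nat_lit 1271250, nat_lit 1271250, nat_lit 490000, nat_lit 1100001, nat_lit 0, nat_lit 0, [nat_lit 780000, nat_lit 1100000, nat_lit 1785000], [nat_lit 36, nat_lit 40, nat_lit 80, nat_lit 80, nat_lit 7, nat_lit 249, nat_lit 40, nat_lit 8]⟩, ⟨p016_k17, nat_lit 0, nat_lit 0, nat_lit 173, nat_lit 0, nat_lit 0, [nat_lit 4688000000, nat_lit 6250000000, nat_lit 9842000000], [], [nat_lit 27538333200, nat_lit 28996540400, nat_lit 27703863800, nat_lit 28991385600], nat_lit 0, nat_lit 0, nat_lit 0, nat_lit 0, nat_lit 0, nat_lit 0, [], [nat_lit 11, nat_lit 40, nat_lit 80, nat_lit 80, nat_lit 1, nat_lit 345, nat_lit 125, nat_lit 10]⟩,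
 zbF0, [⟨nat_lit 0, nat_lit 100, nat_lit 91, nat_lit 91, nat_lit 561355054⟩]⟩
noncomputable def p016_l64 : Lf2 := ⟨nat_lit 0, nat_lit 10, [nat_lit 0, nat_lit 5, nat_lit 5, nat_lit 20], false, nat_lit 0, nat_lit 0, nat_lit 0, nat_lit 0, ⟨nat_lit 1000, nat_lit 0, nat_lit 0, nat_lit 0, nat_lit 0, nat_lit 0, nat_lit 0, nat_lit 0, nat_lit 0, nat_lit 0, nat_lit 0, nat_lit 0, nat_lit 0, nat_lit 0, nat_lit 0, nat_lit 0, false, false⟩,
 nat_lit 0, nat_lit 8717, nat_lit 0, nat_lit 0, nat_lit 6284, nat_lit 7250, nat_lit 1525, nat_lit 0, nat_lit 0, nat_lit 0, nat_lit 0, nat_lit 0, nat_lit 0, nat_lit 0, nat_lit 0, nat_lit 0, nat_lit 0, nat_lit 0, [],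
 ⟨p016_k35, nat_lit 0, nat_lit 0, nat_lit 587, nat_lit 0, nat_lit 914364, [nat_lit 3282000000, nat_lit 4688000000, nat_lit 7968000000], [], [nat_lit 20844427977, nat_lit 21405075201, nat_lit 21110033957, nat_lit 21609195488], nat_lit 1271250, nat_lit 1271250, nat_lit 490000, nat_lit 1100001, nat_lit 0, nat_lit 0, [nat_lit 780000, nat_lit 1100000, nat_lit 1785000], [nat_lit 36, nat_lit 40, nat_lit 80, nat_lit 80, nat_lit 7, nat_lit 249, nat_lit 40, nat_lit 8]⟩, ⟨p016_k17, nat_lit 0, nat_lit 0, nat_lit 173, nat_lit 0, nat_lit 0, [nat_lit 4688000000, nat_lit 6250000000, nat_lit 9842000000], [], [nat_lit 27407850000, nat_lit 29048602000, nat_lit 27538437500, nat_lit 28840440000], nat_lit 0, nat_lit 0, nat_lit 0, nat_lit 0, nat_lit 0, nat_lit 0, [], [nat_lit 11, nat_lit 40, nat_lit 80, nat_lit 80, nat_lit 1, nat_lit 345, nat_lit 125, nat_lit 10]⟩,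
 zbF0, [⟨nat_lit 0, nat_lit 100, nat_lit 87, nat_lit 95, nat_lit 639695322⟩]⟩
noncomputable def p016_l65 : Lf2 := ⟨nat_lit 0, nat_lit 10, [nat_lit 0, nat_lit 5, nat_lit 5, nat_lit 20], false, nat_lit 0, nat_lit 0, nat_lit 0, nat_lit 0, ⟨nat_lit 1000, nat_lit 0, nat_lit 0, nat_lit 0, nat_lit 0, nat_lit 0, nat_lit 0, nat_lit 0, nat_lit 0, nat_lit 0, nat_lit 0, nat_lit 0, nat_lit 0, nat_lit 0, nat_lit 0, nat_lit 0, false, false⟩,
 nat_lit 0, nat_lit 12266, nat_lit 0, nat_lit 0, nat_lit 7805, nat_lit 6736, nat_lit 1856, nat_lit 0, nat_lit 0, nat_lit 2304, nat_lit 0, nat_lit 0, nat_lit 0, nat_lit 0, nat_lit 0, nat_lit 0, nat_lit 0, nat_lit 0, [],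
 ⟨p016_k2, nat_lit 0, nat_lit 0, nat_lit 574, nat_lit 0, nat_lit 800260, [nat_lit 3282000000, nat_lit 4688000000, nat_lit 9842000000], [], [nat_lit 20028611900, nat_lit 20562197585, nat_lit 26131340420, nat_lit 24317060365], nat_lit 1271250, nat_lit 1271250, nat_lit 1100001, nat_lit 1785000, nat_lit 0, nat_lit 0, [nat_lit 780000, nat_lit 1100000, nat_lit 2127500], [nat_lit 42, nat_lit 40, nat_lit 80, nat_lit 80, nat_lit 13, nat_lit 272, nat_lit 60, nat_lit 8]⟩, ⟨p016_k3, nat_lit 0, nat_lit 0, nat_lit 193, nat_lit 0, nat_lit 0, [nat_lit 4688000000, nat_lit 6250000000, nat_lit 11872000000], [], [nat_lit 21042235648, nat_lit 23222322816, nat_lit 23383203616, nat_lit 25509449408], nat_lit 0, nat_lit 0, nat_lit 0, nat_lit 0, nat_lit 0, nat_lit 0, [], [nat_lit 48, nat_lit 40, nat_lit 80, nat_lit 80, nat_lit 12, nat_lit 373, nat_lit 150, nat_lit 10]⟩,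
 zbF0, []⟩
noncomputable def p016_l66 : Lf2 := ⟨nat_lit 0, nat_lit 10, [nat_lit 0, nat_lit 5, nat_lit 5, nat_lit 20], false, nat_lit 0, nat_lit 0, nat_lit 0, nat_lit 0, ⟨nat_lit 1000, nat_lit 0, nat_lit 0, nat_lit 0, nat_lit 0, nat_lit 0, nat_lit 0, nat_lit 0, nat_lit 0, nat_lit 0, nat_lit 0, nat_lit 0, nat_lit 0, nat_lit 0, nat_lit 0, nat_lit 0, false, false⟩,
 nat_lit 0, nat_lit 11030, nat_lit 0, nat_lit 0, nat_lit 7325, nat_lit 6736, nat_lit 1591, nat_lit 0, nat_lit 0, nat_lit 2057, nat_lit 0, nat_lit 0, nat_lit 0, nat_lit 0, nat_lit 0, nat_lit 0, nat_lit 0, nat_lit 0, [],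
 ⟨p016_k27, nat_lit 0, nat_lit 0, nat_lit 513, nat_lit 0, nat_lit 840433, [nat_lit 3282000000, nat_lit 4688000000, nat_lit 7968000000], [], [nat_lit 19358382325, nat_lit 19891846400, nat_lit 22775606475, nat_lit 23973349650], nat_lit 1271250, nat_lit 1271250, nat_lit 1100001, nat_lit 1785000, nat_lit 0, nat_lit 0, [nat_lit 780000, nat_lit 1100000, nat_lit 1785000], [nat_lit 36, nat_lit 40, nat_lit 80, nat_lit 80, nat_lit 7, nat_lit 272, nat_lit 60, nat_lit 9]⟩, ⟨p016_k3, nat_lit 0, nat_lit 0, nat_lit 193, nat_lit 0, nat_lit 0, [nat_lit 4688000000, nat_lit 6250000000, nat_lit 11872000000], [], [nat_lit 22225520023, nat_lit 24405607191, nat_lit 24566487991, nat_lit 26692733783], nat_lit 0, nat_lit 0, nat_lit 0, nat_lit 0, nat_lit 0, nat_lit 0, [], [nat_lit 48, nat_lit 40, nat_lit 80, nat_lit 80, nat_lit 12, nat_lit 373, nat_lit 150, nat_lit 10]⟩,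
 zbF0, []⟩
noncomputable def p016_l67 : Lf2 := ⟨nat_lit 0, nat_lit 10, [nat_lit 0, nat_lit 5, nat_lit 5, nat_lit 20], false, nat_lit 0, nat_lit 0, nat_lit 0, nat_lit 0, ⟨nat_lit 1000, nat_lit 0, nat_lit 0, nat_lit 0, nat_lit 0, nat_lit 0, nat_lit 0, nat_lit 0, nat_lit 0, nat_lit 0, nat_lit 0, nat_lit 0, nat_lit 0, nat_lit 0, nat_lit 0, nat_lit 0, false, false⟩,
 nat_lit 0, nat_lit 9709, nat_lit 0, nat_lit 0, nat_lit 6721, nat_lit 6736, nat_lit 1434, nat_lit 0, nat_lit 0, nat_lit 1699, nat_lit 0, nat_lit 0, nat_lit 0, nat_lit 0, nat_lit 0, nat_lit 0, nat_lit 0, nat_lit 0, [],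
 ⟨p016_k23, nat_lit 0, nat_lit 0, nat_lit 559, nat_lit 0, nat_lit 966433, [nat_lit 3282000000, nat_lit 4688000000, nat_lit 7968000000], [], [nat_lit 20925303590, nat_lit 21747798544, nat_lit 23213830522, nat_lit 25477042080], nat_lit 1271250, nat_lit 1271250, nat_lit 1100001, nat_lit 1785000, nat_lit 0, nat_lit 0, [nat_lit 780000, nat_lit 1100000, nat_lit 1785000], [nat_lit 36, nat_lit 40, nat_lit 80, nat_lit 80, nat_lit 7, nat_lit 272, nat_lit 60, nat_lit 9]⟩, ⟨p016_k3, nat_lit 0, nat_lit 0, nat_lit 193, nat_lit 0, nat_lit 0, [nat_lit 4688000000, nat_lit 6250000000, nat_lit 11872000000], [], [nat_lit 23940563773, nat_lit 26120650941, nat_lit 26281531741, nat_lit 28407777533], nat_lit 0, nat_lit 0, nat_lit 0, nat_lit 0, nat_lit 0, nat_lit 0, [], [nat_lit 48, nat_lit 40, nat_lit 80, nat_lit 80, nat_lit 12, nat_lit 373, nat_lit 150, nat_lit 10]⟩,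
 zbF0, []⟩
noncomputable def b_N_700_600_0_17 : St := ⟨false, nat_lit 1, nat_lit 0, nat_lit 1, nat_lit 40, nat_lit 280, nat_lit 320, nat_lit 240, nat_lit 280, nat_lit 36, nat_lit 240, nat_lit 0, nat_lit 0, nat_lit 0, nat_lit 0, nat_lit 0, nat_lit 0, nat_lit 40, nat_lit 80, nat_lit 0, nat_lit 0, nat_lit 0, nat_lit 0⟩
theorem d_N_700_600_0_17 (h : EB TB.env) : Dead b_N_700_600_0_17 := chkB_sound0 h (T :=
(.spl (nat_lit 2) (nat_lit 160)
(.spl (nat_lit 2) (nat_lit 80)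
(.spl (nat_lit 1) (nat_lit 260)
(.spl (nat_lit 6) (nat_lit 60)
(.spl (nat_lit 0) (nat_lit 300)
(.leaf p016_l28)
(.trZ (nat_lit 0) (nat_lit 100) (nat_lit 88) (nat_lit 68) (nat_lit 48) (.leaf p016_l29)))
(.spl (nat_lit 0) (nat_lit 300)
(.leaf p016_l30)
(.trZ (nat_lit 0) (nat_lit 100) (nat_lit 88) (nat_lit 68) (nat_lit 48) (.leaf p016_l31))))
(.trZ (nat_lit 0) (nat_lit 100) (nat_lit 96) (nat_lit 69) (nat_lit 48) (.leaf p016_l32)))
(.spl (nat_lit 0) (nat_lit 300)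
(.spl (nat_lit 1) (nat_lit 260)
(.spl (nat_lit 6) (nat_lit 60)
(.spl (nat_lit 0) (nat_lit 290)
(.spl (nat_lit 1) (nat_lit 250)
(.spl (nat_lit 0) (nat_lit 285)
(.spl (nat_lit 0) (nat_lit 283)
(.leaf p016_l33)
(.leaf p016_l34))
(.leaf p016_l35))
(.spl (nat_lit 0) (nat_lit 285)
(.leaf p016_l36)
(.leaf p016_l37)))
(.spl (nat_lit 0) (nat_lit 295)
(.leaf p016_l38)
(.leaf p016_l39)))
(.spl (nat_lit 0) (nat_lit 290)
(.leaf p016_l40)
(.leaf p016_l41)))
(.spl (nat_lit 6) (nat_lit 60)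
(.spl (nat_lit 0) (nat_lit 290)
(.spl (nat_lit 0) (nat_lit 285)
(.spl (nat_lit 1) (nat_lit 270)
(.spl (nat_lit 6) (nat_lit 48)
(.spl (nat_lit 0) (nat_lit 283)
(.leaf p016_l42)
(.leaf p016_l43))
(.leaf p016_l44))
(.spl (nat_lit 2) (nat_lit 120)
(.spl (nat_lit 2) (nat_lit 100)
(.leaf p016_l45)
(.spl (nat_lit 0) (nat_lit 283)
(.leaf p016_l46)
(.leaf p016_l47)))
(.leaf p016_l48)))
(.spl (nat_lit 1) (nat_lit 270)
(.spl (nat_lit 2) (nat_lit 120)
(.spl (nat_lit 1) (nat_lit 265)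
(.leaf p016_l49)
(.leaf p016_l50))
(.leaf p016_l51))
(.spl (nat_lit 2) (nat_lit 120)
(.spl (nat_lit 2) (nat_lit 100)
(.leaf p016_l52)
(.leaf p016_l53))
(.leaf p016_l54))))
(.spl (nat_lit 0) (nat_lit 295)
(.spl (nat_lit 0) (nat_lit 293)
(.leaf p016_l55)
(.leaf p016_l56))
(.leaf p016_l57)))
(.spl (nat_lit 0) (nat_lit 290)
(.leaf p016_l58)
(.leaf p016_l59))))
(.spl (nat_lit 1) (nat_lit 260)
(.spl (nat_lit 0) (nat_lit 310)
(.spl (nat_lit 0) (nat_lit 305)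
(.leaf p016_l60)
(.leaf p016_l61))
(.leaf p016_l62))
(.spl (nat_lit 0) (nat_lit 310)
(.leaf p016_l63)
(.leaf p016_l64)))))
(.spl (nat_lit 0) (nat_lit 300)
(.spl (nat_lit 0) (nat_lit 290)
(.leaf p016_l65)
(.leaf p016_l66))
(.leaf p016_l67)))) (by decide +kernel)
noncomputable def p016_l68 : Lf2 := ⟨nat_lit 0, nat_lit 10, [nat_lit 0, nat_lit 5, nat_lit 5, nat_lit 20], true, nat_lit 0, nat_lit 0, nat_lit 0, nat_lit 0, ⟨nat_lit 0, nat_lit 0, nat_lit 1000, nat_lit 6, nat_lit 115, nat_lit 0, nat_lit 0, nat_lit 0, nat_lit 0, nat_lit 215, nat_lit 126150, nat_lit 302, nat_lit 61857179, nat_lit 0, nat_lit 0, nat_lit 1353897, false, false⟩,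
 nat_lit 0, nat_lit 5357, nat_lit 0, nat_lit 0, nat_lit 3409, nat_lit 0, nat_lit 146, nat_lit 0, nat_lit 0, nat_lit 0, nat_lit 0, nat_lit 0, nat_lit 0, nat_lit 0, nat_lit 115, nat_lit 505600, nat_lit 0, nat_lit 0, [(nat_lit 12, [(nat_lit 5, nat_lit 824), (nat_lit 6, nat_lit 176)])],
 ⟨p016_k0, nat_lit 0, nat_lit 0, nat_lit 436, nat_lit 0, nat_lit 320859, [nat_lit 2603270400, nat_lit 1660977067, nat_lit 245475200], [], [nat_lit 15367990246, nat_lit 16487466954, nat_lit 14942835946, nat_lit 15962751091], nat_lit 1271250, nat_lit 1271250, nat_lit 205650, nat_lit 490000, nat_lit 0, nat_lit 0, [nat_lit 780000, nat_lit 1435000, nat_lit 1271250], [nat_lit 8, nat_lit 40, nat_lit 80, nat_lit 80, nat_lit 1, nat_lit 226, nat_lit 20, nat_lit 7]⟩, C1.Rw.none,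
 ⟨nat_lit 5000, nat_lit 5478, ⟨.ofNat (nat_lit 235487), .ofNat (nat_lit 317913), .ofNat (nat_lit 246166), .ofNat (nat_lit 328592), .ofNat (nat_lit 249999), .ofNat (nat_lit 328570), .ofNat (nat_lit 260713), .ofNat (nat_lit 339284)⟩, ⟨.ofNat (nat_lit 0), .ofNat (nat_lit 0), .ofNat (nat_lit 0), .ofNat (nat_lit 0), .ofNat (nat_lit 0), .ofNat (nat_lit 0), .ofNat (nat_lit 0), .ofNat (nat_lit 0)⟩⟩, [⟨nat_lit 0, nat_lit 100, nat_lit 92, nat_lit 66, nat_lit 13883590⟩, ⟨nat_lit 0, nat_lit 100, nat_lit 89, nat_lit 72, nat_lit 159844513⟩]⟩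
noncomputable def p016_l69 : Lf2 := ⟨nat_lit 0, nat_lit 10, [nat_lit 0, nat_lit 5, nat_lit 5, nat_lit 20], true, nat_lit 0, nat_lit 0, nat_lit 0, nat_lit 0, ⟨nat_lit 0, nat_lit 0, nat_lit 1000, nat_lit 6, nat_lit 120, nat_lit 0, nat_lit 0, nat_lit 0, nat_lit 0, nat_lit 215, nat_lit 135000, nat_lit 305, nat_lit 61467154, nat_lit 0, nat_lit 0, nat_lit 1425123, false, false⟩,
 nat_lit 0, nat_lit 5388, nat_lit 0, nat_lit 0, nat_lit 3428, nat_lit 0, nat_lit 144, nat_lit 0, nat_lit 0, nat_lit 0, nat_lit 0, nat_lit 0, nat_lit 0, nat_lit 0, nat_lit 115, nat_lit 505000, nat_lit 0, nat_lit 0, [(nat_lit 12, [(nat_lit 5, nat_lit 825), (nat_lit 6, nat_lit 175)])],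
 ⟨p016_k0, nat_lit 0, nat_lit 0, nat_lit 438, nat_lit 0, nat_lit 336149, [nat_lit 2603370001, nat_lit 1661570001, nat_lit 248410000], [], [nat_lit 15301608947, nat_lit 16410587784, nat_lit 14893431508, nat_lit 15915524396], nat_lit 1271250, nat_lit 1271250, nat_lit 230001, nat_lit 490000, nat_lit 0, nat_lit 0, [nat_lit 780000, nat_lit 1435000, nat_lit 1271250], [nat_lit 8, nat_lit 40, nat_lit 80, nat_lit 80, nat_lit 1, nat_lit 226, nat_lit 20, nat_lit 7]⟩, C1.Rw.none,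
 ⟨nat_lit 5000, nat_lit 5478, ⟨.ofNat (nat_lit 253659), .ofNat (nat_lit 328592), .ofNat (nat_lit 258998), .ofNat (nat_lit 333931), .ofNat (nat_lit 267856), .ofNat (nat_lit 339284), .ofNat (nat_lit 273213), .ofNat (nat_lit 344641)⟩, ⟨.ofNat (nat_lit 0), .ofNat (nat_lit 0), .ofNat (nat_lit 0), .ofNat (nat_lit 0), .ofNat (nat_lit 0), .ofNat (nat_lit 0), .ofNat (nat_lit 0), .ofNat (nat_lit 0)⟩⟩, [⟨nat_lit 0, nat_lit 100, nat_lit 93, nat_lit 69, nat_lit 171726062⟩]⟩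
noncomputable def p016_l70 : Lf2 := ⟨nat_lit 0, nat_lit 10, [nat_lit 0, nat_lit 5, nat_lit 5, nat_lit 20], false, nat_lit 0, nat_lit 0, nat_lit 0, nat_lit 0, ⟨nat_lit 90, nat_lit 0, nat_lit 910, nat_lit 6, nat_lit 124, nat_lit 0, nat_lit 0, nat_lit 0, nat_lit 0, nat_lit 215, nat_lit 144150, nat_lit 308, nat_lit 61159340, nat_lit 0, nat_lit 0, nat_lit 1479748, false, false⟩,
 nat_lit 2116, nat_lit 3652, nat_lit 0, nat_lit 0, nat_lit 3670, nat_lit 1203, nat_lit 0, nat_lit 0, nat_lit 0, nat_lit 0, nat_lit 0, nat_lit 0, nat_lit 0, nat_lit 0, nat_lit 140, nat_lit 812800, nat_lit 0, nat_lit 0, [(nat_lit 12, [(nat_lit 5, nat_lit 162), (nat_lit 6, nat_lit 748)])],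
 ⟨p016_k0, nat_lit 0, nat_lit 0, nat_lit 441, nat_lit 0, nat_lit 351975, [nat_lit 3030007201, nat_lit 2432439201, nat_lit 373769600], [], [nat_lit 15481565170, nat_lit 16883465002, nat_lit 15042214204, nat_lit 16093392184], nat_lit 1271250, nat_lit 1271250, nat_lit 254650, nat_lit 490000, nat_lit 0, nat_lit 0, [nat_lit 780000, nat_lit 1435000, nat_lit 1271250], [nat_lit 8, nat_lit 40, nat_lit 80, nat_lit 80, nat_lit 1, nat_lit 226, nat_lit 20, nat_lit 7]⟩, ⟨p016_k14, nat_lit 0, nat_lit 0, nat_lit 457, nat_lit 0, nat_lit 399062, [nat_lit 421920000, nat_lit 717120000, nat_lit 885780000], [], [nat_lit 3209323221, nat_lit 3052898936, nat_lit 2615497319, nat_lit 2628272568], nat_lit 1271250, nat_lit 1271250, nat_lit 254650, nat_lit 490000, nat_lit 0, nat_lit 0, [nat_lit 1100000, nat_lit 1785000, nat_lit 1271250], [nat_lit 29, nat_lit 40, nat_lit 80, nat_lit 80, nat_lit 17, nat_lit 317, nat_lit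 100, nat_lit 9]⟩,
 ⟨nat_lit 5000, nat_lit 5478, ⟨.ofNat (nat_lit 266492), .ofNat (nat_lit 333931), .ofNat (nat_lit 271831), .ofNat (nat_lit 339271), .ofNat (nat_lit 280356), .ofNat (nat_lit 344641), .ofNat (nat_lit 285713), .ofNat (nat_lit 349999)⟩, ⟨.ofNat (nat_lit 0), .ofNat (nat_lit 0), .ofNat (nat_lit 0), .ofNat (nat_lit 0), .ofNat (nat_lit 0), .ofNat (nat_lit 0), .ofNat (nat_lit 0), .ofNat (nat_lit 0)⟩⟩, [⟨nat_lit 0, nat_lit 100, nat_lit 93, nat_lit 72, nat_lit 187354708⟩, ⟨nat_lit 0, nat_lit 100, nat_lit 95, nat_lit 66, nat_lit 111736742⟩]⟩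
noncomputable def p016_l71 : Lf2 := ⟨nat_lit 0, nat_lit 10, [nat_lit 0, nat_lit 5, nat_lit 5, nat_lit 20], true, nat_lit 0, nat_lit 0, nat_lit 0, nat_lit 0, ⟨nat_lit 0, nat_lit 0, nat_lit 1000, nat_lit 6, nat_lit 116, nat_lit 0, nat_lit 0, nat_lit 0, nat_lit 0, nat_lit 215, nat_lit 126150, nat_lit 302, nat_lit 61784497, nat_lit 0, nat_lit 0, nat_lit 1367346, false, false⟩,
 nat_lit 0, nat_lit 5139, nat_lit 0, nat_lit 0, nat_lit 3270, nat_lit 0, nat_lit 211, nat_lit 0, nat_lit 0, nat_lit 0, nat_lit 0, nat_lit 0, nat_lit 0, nat_lit 0, nat_lit 95, nat_lit 400000, nat_lit 0, nat_lit 0, [(nat_lit 12, [(nat_lit 5, nat_lit 1000)])],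
 ⟨p016_k0, nat_lit 0, nat_lit 0, nat_lit 366, nat_lit 0, nat_lit 251551, [nat_lit 2380800000, nat_lit 1365333334, nat_lit 202000000], [], [nat_lit 15136614613, nat_lit 15767018724, nat_lit 14566676695, nat_lit 15125295218], nat_lit 1271250, nat_lit 1271250, nat_lit 205650, nat_lit 490000, nat_lit 0, nat_lit 0, [nat_lit 780000, nat_lit 1435000, nat_lit 1271250], [nat_lit 8, nat_lit 40, nat_lit 80, nat_lit 80, nat_lit 1, nat_lit 226, nat_lit 20, nat_lit 7]⟩, C1.Rw.none,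
 ⟨nat_lit 5244, nat_lit 5478, ⟨.ofNat (nat_lit 235487), .ofNat (nat_lit 317913), .ofNat (nat_lit 256844), .ofNat (nat_lit 339271), .ofNat (nat_lit 242768), .ofNat (nat_lit 323256), .ofNat (nat_lit 264153), .ofNat (nat_lit 344641)⟩, ⟨.ofNat (nat_lit 0), .ofNat (nat_lit 0), .ofNat (nat_lit 0), .ofNat (nat_lit 0), .ofNat (nat_lit 0), .ofNat (nat_lit 0), .ofNat (nat_lit 0), .ofNat (nat_lit 0)⟩⟩, [⟨nat_lit 0, nat_lit 100, nat_lit 94, nat_lit 73, nat_lit 182568173⟩]⟩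
noncomputable def p016_l72 : Lf2 := ⟨nat_lit 0, nat_lit 10, [nat_lit 0, nat_lit 5, nat_lit 5, nat_lit 20], true, nat_lit 0, nat_lit 0, nat_lit 0, nat_lit 0, ⟨nat_lit 0, nat_lit 0, nat_lit 1000, nat_lit 6, nat_lit 120, nat_lit 0, nat_lit 0, nat_lit 0, nat_lit 0, nat_lit 215, nat_lit 135000, nat_lit 305, nat_lit 61452097, nat_lit 0, nat_lit 0, nat_lit 1427826, false, false⟩,
 nat_lit 0, nat_lit 4970, nat_lit 0, nat_lit 0, nat_lit 3300, nat_lit 0, nat_lit 89, nat_lit 0, nat_lit 0, nat_lit 0, nat_lit 0, nat_lit 0, nat_lit 0, nat_lit 0, nat_lit 72, nat_lit 400000, nat_lit 0, nat_lit 0, [(nat_lit 12, [(nat_lit 5, nat_lit 1000)])],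
 ⟨p016_k29, nat_lit 0, nat_lit 0, nat_lit 320, nat_lit 0, nat_lit 286208, [nat_lit 2104800000, nat_lit 905333334, nat_lit 113066666], [], [nat_lit 15498991750, nat_lit 16103641300, nat_lit 14988068550, nat_lit 15550778866], nat_lit 1271250, nat_lit 1271250, nat_lit 230001, nat_lit 490000, nat_lit 0, nat_lit 0, [nat_lit 780000, nat_lit 1435000, nat_lit 1271250], [nat_lit 18, nat_lit 40, nat_lit 80, nat_lit 80, nat_lit 2, nat_lit 226, nat_lit 20, nat_lit 8]⟩, C1.Rw.none,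
 ⟨nat_lit 5000, nat_lit 5245, ⟨.ofNat (nat_lit 250085), .ofNat (nat_lit 323256), .ofNat (nat_lit 271470), .ofNat (nat_lit 344641), .ofNat (nat_lit 257141), .ofNat (nat_lit 328570), .ofNat (nat_lit 278570), .ofNat (nat_lit 349999)⟩, ⟨.ofNat (nat_lit 0), .ofNat (nat_lit 0), .ofNat (nat_lit 0), .ofNat (nat_lit 0), .ofNat (nat_lit 0), .ofNat (nat_lit 0), .ofNat (nat_lit 0), .ofNat (nat_lit 0)⟩⟩, [⟨nat_lit 0, nat_lit 100, nat_lit 91, nat_lit 70, nat_lit 111154613⟩, ⟨nat_lit 0, nat_lit 100, nat_lit 91, nat_lit 77, nat_lit 72307628⟩]⟩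
noncomputable def p016_l73 : Lf2 := ⟨nat_lit 0, nat_lit 10, [nat_lit 0, nat_lit 5, nat_lit 5, nat_lit 20], true, nat_lit 0, nat_lit 0, nat_lit 0, nat_lit 0, ⟨nat_lit 0, nat_lit 0, nat_lit 1000, nat_lit 6, nat_lit 117, nat_lit 0, nat_lit 0, nat_lit 0, nat_lit 0, nat_lit 215, nat_lit 129067, nat_lit 303, nat_lit 61679917, nat_lit 0, nat_lit 0, nat_lit 1386555, false, false⟩,
 nat_lit 0, nat_lit 5042, nat_lit 0, nat_lit 0, nat_lit 3208, nat_lit 0, nat_lit 194, nat_lit 0, nat_lit 0, nat_lit 0, nat_lit 0, nat_lit 0, nat_lit 0, nat_lit 0, nat_lit 95, nat_lit 400000, nat_lit 0, nat_lit 0, [(nat_lit 12, [(nat_lit 5, nat_lit 1000)])],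
 ⟨p016_k0, nat_lit 0, nat_lit 0, nat_lit 356, nat_lit 0, nat_lit 214774, [nat_lit 2380800000, nat_lit 1365333334, nat_lit 202000000], [], [nat_lit 15318385126, nat_lit 16477506674, nat_lit 14772991978, nat_lit 15836395546], nat_lit 1271250, nat_lit 1271250, nat_lit 205650, nat_lit 490000, nat_lit 0, nat_lit 0, [nat_lit 780000, nat_lit 1435000, nat_lit 1271250], [nat_lit 8, nat_lit 40, nat_lit 80, nat_lit 80, nat_lit 1, nat_lit 226, nat_lit 20, nat_lit 7]⟩, C1.Rw.none,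
 ⟨nat_lit 5000, nat_lit 5478, ⟨.ofNat (nat_lit 235487), .ofNat (nat_lit 317913), .ofNat (nat_lit 256844), .ofNat (nat_lit 339271), .ofNat (nat_lit 249999), .ofNat (nat_lit 328570), .ofNat (nat_lit 271427), .ofNat (nat_lit 349999)⟩, ⟨.ofNat (nat_lit 0), .ofNat (nat_lit 0), .ofNat (nat_lit 0), .ofNat (nat_lit 0), .ofNat (nat_lit 0), .ofNat (nat_lit 0), .ofNat (nat_lit 0), .ofNat (nat_lit 0)⟩⟩, [⟨nat_lit 0, nat_lit 100, nat_lit 92, nat_lit 68, nat_lit 100801407⟩, ⟨nat_lit 0, nat_lit 100, nat_lit 91, nat_lit 77, nat_lit 84444666⟩]⟩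
noncomputable def p016_l74 : Lf2 := ⟨nat_lit 0, nat_lit 10, [nat_lit 0, nat_lit 5, nat_lit 5, nat_lit 20], false, nat_lit 0, nat_lit 0, nat_lit 0, nat_lit 0, ⟨nat_lit 167, nat_lit 0, nat_lit 833, nat_lit 6, nat_lit 148, nat_lit 0, nat_lit 0, nat_lit 0, nat_lit 0, nat_lit 215, nat_lit 205350, nat_lit 326, nat_lit 58911942, nat_lit 0, nat_lit 0, nat_lit 1841756, false, false⟩,
 nat_lit 4623, nat_lit 1612, nat_lit 0, nat_lit 0, nat_lit 3967, nat_lit 2447, nat_lit 0, nat_lit 0, nat_lit 0, nat_lit 306, nat_lit 0, nat_lit 0, nat_lit 0, nat_lit 0, nat_lit 103, nat_lit 763400, nat_lit 0, nat_lit 0, [(nat_lit 12, [(nat_lit 5, nat_lit 116), (nat_lit 6, nat_lit 717)])],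
 ⟨p016_k0, nat_lit 0, nat_lit 0, nat_lit 426, nat_lit 0, nat_lit 392345, [nat_lit 2746267201, nat_lit 2233239467, nat_lit 375848400], [], [nat_lit 16057726925, nat_lit 16982530242, nat_lit 17438411382, nat_lit 17329779991], nat_lit 1271250, nat_lit 1271250, nat_lit 490000, nat_lit 780000, nat_lit 0, nat_lit 0, [nat_lit 780000, nat_lit 1435000, nat_lit 1271250], [nat_lit 8, nat_lit 40, nat_lit 80, nat_lit 80, nat_lit 1, nat_lit 238, nat_lit 30, nat_lit 7]⟩, ⟨p016_k1, nat_lit 0, nat_lit 0, nat_lit 539, nat_lit 0, nat_lit 487663, [nat_lit 782896000, nat_lit 1330656000, nat_lit 1982624000], [], [nat_lit 5495196960, nat_lit 4309972934, nat_lit 6173310398, nat_lit 5004177844], nat_lit 1271250, nat_lit 1271250, nat_lit 490000, nat_lit 780000, nat_lit 0, nat_lit 0, [nat_lit 1100000, nat_lit 1785000, nat_lit 1271250], [nat_lit 21, nat_lit 40, nat_lit 80, nat_lit 80, nat_lit 14, nat_lit 317, nat_lit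 100, nat_lit 8]⟩,
 ⟨nat_lit 5000, nat_lit 5478, ⟨.ofNat (nat_lit 317913), .ofNat (nat_lit 392847), .ofNat (nat_lit 339271), .ofNat (nat_lit 414199), .ofNat (nat_lit 328570), .ofNat (nat_lit 399998), .ofNat (nat_lit 349999), .ofNat (nat_lit 421423)⟩, ⟨.ofNat (nat_lit 0), .ofNat (nat_lit 0), .ofNat (nat_lit 0), .ofNat (nat_lit 0), .ofNat (nat_lit 0), .ofNat (nat_lit 0), .ofNat (nat_lit 0), .ofNat (nat_lit 0)⟩⟩, []⟩
noncomputable def p016_l75 : Lf2 := ⟨nat_lit 0, nat_lit 10, [nat_lit 0, nat_lit 5, nat_lit 5, nat_lit 20], false, nat_lit 0, nat_lit 0, nat_lit 0, nat_lit 0, ⟨nat_lit 139, nat_lit 0, nat_lit 861, nat_lit 6, nat_lit 141, nat_lit 0, nat_lit 0, nat_lit 0, nat_lit 0, nat_lit 215, nat_lit 183750, nat_lit 320, nat_lit 59629119, nat_lit 0, nat_lit 0, nat_lit 1732711, false, false⟩,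
 nat_lit 3372, nat_lit 1664, nat_lit 0, nat_lit 0, nat_lit 3486, nat_lit 1785, nat_lit 0, nat_lit 0, nat_lit 0, nat_lit 170, nat_lit 0, nat_lit 0, nat_lit 0, nat_lit 0, nat_lit 81, nat_lit 566400, nat_lit 0, nat_lit 0, [(nat_lit 15, [(nat_lit 5, nat_lit 491), (nat_lit 6, nat_lit 370)])],
 ⟨p016_k8, nat_lit 0, nat_lit 0, nat_lit 409, nat_lit 0, nat_lit 455999, [nat_lit 2436561200, nat_lit 1166398401, nat_lit 36255399], [], [nat_lit 17065997716, nat_lit 18193383488, nat_lit 17263631613, nat_lit 18397868352], nat_lit 1271250, nat_lit 1271250, nat_lit 279600, nat_lit 780000, nat_lit 0, nat_lit 0, [nat_lit 780000, nat_lit 1435000, nat_lit 1271250], [nat_lit 18, nat_lit 40, nat_lit 80, nat_lit 80, nat_lit 2, nat_lit 238, nat_lit 30, nat_lit 8]⟩, ⟨p016_k1, nat_lit 0, nat_lit 0, nat_lit 654, nat_lit 0, nat_lit 625017, [nat_lit 651632000, nat_lit 1107552000, nat_lit 1650208000], [], [nat_lit 5467096796,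 nat_lit 4655361851, nat_lit 5286403738, nat_lit 4433562868], nat_lit 1271250, nat_lit 1271250, nat_lit 279600, nat_lit 780000, nat_lit 0, nat_lit 0, [nat_lit 1100000, nat_lit 1785000, nat_lit 1271250], [nat_lit 21, nat_lit 40, nat_lit 80, nat_lit 80, nat_lit 14, nat_lit 317, nat_lit 100, nat_lit 9]⟩,
 ⟨nat_lit 4472, nat_lit 5000, ⟨.ofNat (nat_lit 271418), .ofNat (nat_lit 399984), .ofNat (nat_lit 292837), .ofNat (nat_lit 421400), .ofNat (nat_lit 284805), .ofNat (nat_lit 407160), .ofNat (nat_lit 306362), .ofNat (nat_lit 428715)⟩, ⟨.ofNat (nat_lit 0), .ofNat (nat_lit 0), .ofNat (nat_lit 0), .ofNat (nat_lit 0), .ofNat (nat_lit 0), .ofNat (nat_lit 0), .ofNat (nat_lit 0), .ofNat (nat_lit 0)⟩⟩, [⟨nat_lit 0, nat_lit 100, nat_lit 84, nat_lit 85, nat_lit 192657076⟩]⟩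
noncomputable def p016_l76 : Lf2 := ⟨nat_lit 0, nat_lit 10, [nat_lit 0, nat_lit 5, nat_lit 5, nat_lit 20], false, nat_lit 0, nat_lit 0, nat_lit 0, nat_lit 0, ⟨nat_lit 189, nat_lit 0, nat_lit 811, nat_lit 6, nat_lit 120, nat_lit 0, nat_lit 0, nat_lit 0, nat_lit 0, nat_lit 215, nat_lit 135000, nat_lit 305, nat_lit 61476651, nat_lit 0, nat_lit 0, nat_lit 1423415, false, false⟩,
 nat_lit 3927, nat_lit 2395, nat_lit 0, nat_lit 0, nat_lit 4023, nat_lit 2285, nat_lit 0, nat_lit 0, nat_lit 0, nat_lit 127, nat_lit 0, nat_lit 0, nat_lit 0, nat_lit 0, nat_lit 104, nat_lit 811000, nat_lit 0, nat_lit 0, [(nat_lit 12, [(nat_lit 6, nat_lit 811)])],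
 ⟨p016_k0, nat_lit 0, nat_lit 0, nat_lit 443, nat_lit 0, nat_lit 368451, [nat_lit 2793811201, nat_lit 2346766400, nat_lit 398577200], [], [nat_lit 16664511732, nat_lit 18121533884, nat_lit 16482208864, nat_lit 17700926743], nat_lit 1271250, nat_lit 1271250, nat_lit 279600, nat_lit 356250, nat_lit 0, nat_lit 0, [nat_lit 780000, nat_lit 1435000, nat_lit 1271250], [nat_lit 8, nat_lit 40, nat_lit 80, nat_lit 80, nat_lit 1, nat_lit 226, nat_lit 20, nat_lit 7]⟩, ⟨p016_k18, nat_lit 0, nat_lit 0, nat_lit 457, nat_lit 0, nat_lit 407022, [nat_lit 886032000, nat_lit 1505952000, nat_lit 1860138000], [], [nat_lit 5790338746, nat_lit 5644652089, nat_lit 5270568393, nat_lit 5349181832], nat_lit 1271250, nat_lit 1271250, nat_lit 279600, nat_lit 356250, nat_lit 0, nat_lit 0, [nat_lit 1100000, nat_lit 1785000, nat_lit 1271250], [nat_lit 29, nat_lit 40, nat_lit 80, nat_lit 80, nat_lit 17, nat_lit 317, nat_lit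 100, nat_lit 9]⟩,
 ⟨nat_lit 5000, nat_lit 5478, ⟨.ofNat (nat_lit 279324), .ofNat (nat_lit 301804), .ofNat (nat_lit 284663), .ofNat (nat_lit 307143), .ofNat (nat_lit 292856), .ofNat (nat_lit 314284), .ofNat (nat_lit 298213), .ofNat (nat_lit 319641)⟩, ⟨.ofNat (nat_lit 0), .ofNat (nat_lit 0), .ofNat (nat_lit 0), .ofNat (nat_lit 0), .ofNat (nat_lit 0), .ofNat (nat_lit 0), .ofNat (nat_lit 0), .ofNat (nat_lit 0)⟩⟩, [⟨nat_lit 0, nat_lit 100, nat_lit 96, nat_lit 69, nat_lit 433829448⟩]⟩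
noncomputable def p016_l77 : Lf2 := ⟨nat_lit 0, nat_lit 10, [nat_lit 0, nat_lit 5, nat_lit 5, nat_lit 20], false, nat_lit 0, nat_lit 0, nat_lit 0, nat_lit 0, ⟨nat_lit 169, nat_lit 0, nat_lit 831, nat_lit 6, nat_lit 120, nat_lit 0, nat_lit 0, nat_lit 0, nat_lit 0, nat_lit 215, nat_lit 135000, nat_lit 305, nat_lit 61476651, nat_lit 0, nat_lit 0, nat_lit 1423415, false, false⟩,
 nat_lit 3426, nat_lit 2775, nat_lit 0, nat_lit 0, nat_lit 3946, nat_lit 1994, nat_lit 0, nat_lit 0, nat_lit 0, nat_lit 124, nat_lit 0, nat_lit 0, nat_lit 0, nat_lit 0, nat_lit 107, nat_lit 789000, nat_lit 0, nat_lit 0, [(nat_lit 12, [(nat_lit 5, nat_lit 70), (nat_lit 6, nat_lit 761)])],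
 ⟨p016_k0, nat_lit 0, nat_lit 0, nat_lit 425, nat_lit 0, nat_lit 317579, [nat_lit 2793967201, nat_lit 2300719734, nat_lit 383317200], [], [nat_lit 16499425856, nat_lit 17950766048, nat_lit 16325169229, nat_lit 17541703686], nat_lit 1271250, nat_lit 1271250, nat_lit 279600, nat_lit 356250, nat_lit 0, nat_lit 0, [nat_lit 780000, nat_lit 1435000, nat_lit 1271250], [nat_lit 8, nat_lit 40, nat_lit 80, nat_lit 80, nat_lit 1, nat_lit 226, nat_lit 20, nat_lit 7]⟩, ⟨p016_k18, nat_lit 0, nat_lit 0, nat_lit 434, nat_lit 0, nat_lit 351546, [nat_lit 792272000, nat_lit 1346592000, nat_lit 1663298000], [], [nat_lit 5155697084, nat_lit 4964749099, nat_lit 4671044017, nat_lit 4740253807], nat_lit 1271250, nat_lit 1271250, nat_lit 279600, nat_lit 356250, nat_lit 0, nat_lit 0, [nat_lit 1100000, nat_lit 1785000, nat_lit 1271250], [nat_lit 29, nat_lit 40, nat_lit 80, nat_lit 80, nat_lit 17, nat_lit 317, nat_lit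 100, nat_lit 9]⟩,
 ⟨nat_lit 5000, nat_lit 5478, ⟨.ofNat (nat_lit 279324), .ofNat (nat_lit 301804), .ofNat (nat_lit 284663), .ofNat (nat_lit 307143), .ofNat (nat_lit 292856), .ofNat (nat_lit 314284), .ofNat (nat_lit 298213), .ofNat (nat_lit 319641)⟩, ⟨.ofNat (nat_lit 0), .ofNat (nat_lit 0), .ofNat (nat_lit 0), .ofNat (nat_lit 0), .ofNat (nat_lit 0), .ofNat (nat_lit 0), .ofNat (nat_lit 0), .ofNat (nat_lit 0)⟩⟩, [⟨nat_lit 0, nat_lit 100, nat_lit 96, nat_lit 69, nat_lit 383435268⟩]⟩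
noncomputable def p016_l78 : Lf2 := ⟨nat_lit 0, nat_lit 10, [nat_lit 0, nat_lit 5, nat_lit 5, nat_lit 20], false, nat_lit 0, nat_lit 0, nat_lit 0, nat_lit 0, ⟨nat_lit 365, nat_lit 0, nat_lit 635, nat_lit 6, nat_lit 123, nat_lit 0, nat_lit 0, nat_lit 0, nat_lit 0, nat_lit 215, nat_lit 144150, nat_lit 308, nat_lit 61169024, nat_lit 0, nat_lit 0, nat_lit 1478050, false, false⟩,
 nat_lit 7342, nat_lit 774, nat_lit 0, nat_lit 0, nat_lit 5164, nat_lit 4371, nat_lit 300, nat_lit 0, nat_lit 0, nat_lit 600, nat_lit 0, nat_lit 0, nat_lit 0, nat_lit 0, nat_lit 7, nat_lit 635000, nat_lit 0, nat_lit 0, [(nat_lit 12, [(nat_lit 6, nat_lit 635)])],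
 ⟨p016_k0, nat_lit 0, nat_lit 0, nat_lit 452, nat_lit 0, nat_lit 402009, [nat_lit 2006592001, nat_lit 1705224001, nat_lit 363902000], [], [nat_lit 18077304477, nat_lit 19746185712, nat_lit 17836309647, nat_lit 19351732524], nat_lit 1271250, nat_lit 1271250, nat_lit 304850, nat_lit 356250, nat_lit 0, nat_lit 0, [nat_lit 780000, nat_lit 1435000, nat_lit 1271250], [nat_lit 8, nat_lit 40, nat_lit 80, nat_lit 80, nat_lit 1, nat_lit 226, nat_lit 20, nat_lit 7]⟩, ⟨p016_k19, nat_lit 0, nat_lit 0, nat_lit 465, nat_lit 0, nat_lit 433553, [nat_lit 1711120000, nat_lit 2908320000, nat_lit 3592330000], [], [nat_lit 8729454000, nat_lit 8955015427, nat_lit 8475756497, nat_lit 8569449921], nat_lit 1271250, nat_lit 1271250, nat_lit 304850, nat_lit 356250, nat_lit 0, nat_lit 0, [nat_lit 1100000, nat_lit 1785000, nat_lit 1271250], [nat_lit 29, nat_lit 40, nat_lit 80, nat_lit 80, nat_lit 17, nat_lit 317, nat_lit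 100, nat_lit 9]⟩,
 ⟨nat_lit 5000, nat_lit 5478, ⟨.ofNat (nat_lit 292157), .ofNat (nat_lit 307143), .ofNat (nat_lit 297496), .ofNat (nat_lit 312483), .ofNat (nat_lit 305356), .ofNat (nat_lit 319641), .ofNat (nat_lit 310713), .ofNat (nat_lit 324999)⟩, ⟨.ofNat (nat_lit 0), .ofNat (nat_lit 0), .ofNat (nat_lit 0), .ofNat (nat_lit 0), .ofNat (nat_lit 0), .ofNat (nat_lit 0), .ofNat (nat_lit 0), .ofNat (nat_lit 0)⟩⟩, [⟨nat_lit 0, nat_lit 100, nat_lit 97, nat_lit 71, nat_lit 726654280⟩]⟩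
noncomputable def p016_l79 : Lf2 := ⟨nat_lit 0, nat_lit 10, [nat_lit 0, nat_lit 5, nat_lit 5, nat_lit 20], false, nat_lit 0, nat_lit 0, nat_lit 0, nat_lit 0, ⟨nat_lit 307, nat_lit 0, nat_lit 693, nat_lit 6, nat_lit 133, nat_lit 0, nat_lit 0, nat_lit 0, nat_lit 0, nat_lit 215, nat_lit 163350, nat_lit 314, nat_lit 60359449, nat_lit 0, nat_lit 0, nat_lit 1615642, false, false⟩,
 nat_lit 5966, nat_lit 1252, nat_lit 0, nat_lit 0, nat_lit 4593, nat_lit 3472, nat_lit 158, nat_lit 0, nat_lit 0, nat_lit 325, nat_lit 0, nat_lit 0, nat_lit 0, nat_lit 0, nat_lit 39, nat_lit 693000, nat_lit 0, nat_lit 0, [(nat_lit 12, [(nat_lit 6, nat_lit 693)])],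
 ⟨p016_k0, nat_lit 0, nat_lit 0, nat_lit 446, nat_lit 0, nat_lit 402009, [nat_lit 2266425601, nat_lit 1917323200, nat_lit 376283600], [], [nat_lit 17888593834, nat_lit 18931809263, nat_lit 17502496261, nat_lit 18526440983], nat_lit 1271250, nat_lit 1271250, nat_lit 356250, nat_lit 490000, nat_lit 0, nat_lit 0, [nat_lit 780000, nat_lit 1435000, nat_lit 1271250], [nat_lit 8, nat_lit 40, nat_lit 80, nat_lit 80, nat_lit 1, nat_lit 226, nat_lit 20, nat_lit 7]⟩, ⟨p016_k18, nat_lit 0, nat_lit 0, nat_lit 463, nat_lit 0, nat_lit 445006, [nat_lit 1439216000, nat_lit 2446176000, nat_lit 3021494000], [], [nat_lit 8487597220, nat_lit 8159585527, nat_lit 8154954364, nat_lit 7545026290], nat_lit 1271250, nat_lit 1271250, nat_lit 356250, nat_lit 490000, nat_lit 0, nat_lit 0, [nat_lit 1100000, nat_lit 1785000, nat_lit 1271250], [nat_lit 29, nat_lit 40, nat_lit 80, nat_lit 80, nat_lit 17, nat_lit 317, nat_lit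 100, nat_lit 9]⟩,
 ⟨nat_lit 5000, nat_lit 5478, ⟨.ofNat (nat_lit 301804), .ofNat (nat_lit 339271), .ofNat (nat_lit 312483), .ofNat (nat_lit 349949), .ofNat (nat_lit 314284), .ofNat (nat_lit 349999), .ofNat (nat_lit 324999), .ofNat (nat_lit 360713)⟩, ⟨.ofNat (nat_lit 0), .ofNat (nat_lit 0), .ofNat (nat_lit 0), .ofNat (nat_lit 0), .ofNat (nat_lit 0), .ofNat (nat_lit 0), .ofNat (nat_lit 0), .ofNat (nat_lit 0)⟩⟩, [⟨nat_lit 0, nat_lit 100, nat_lit 94, nat_lit 76, nat_lit 284429064⟩]⟩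
noncomputable def p016_l80 : Lf2 := ⟨nat_lit 0, nat_lit 10, [nat_lit 0, nat_lit 5, nat_lit 5, nat_lit 20], false, nat_lit 0, nat_lit 0, nat_lit 0, nat_lit 0, ⟨nat_lit 551, nat_lit 0, nat_lit 449, nat_lit 6, nat_lit 135, nat_lit 0, nat_lit 0, nat_lit 0, nat_lit 0, nat_lit 215, nat_lit 173400, nat_lit 317, nat_lit 60104018, nat_lit 0, nat_lit 0, nat_lit 1657312, false, false⟩,
 nat_lit 9965, nat_lit 0, nat_lit 0, nat_lit 0, nat_lit 6341, nat_lit 6068, nat_lit 561, nat_lit 0, nat_lit 0, nat_lit 872, nat_lit 0, nat_lit 0, nat_lit 0, nat_lit 0, nat_lit 0, nat_lit 449000, nat_lit 0, nat_lit 0, [(nat_lit 12, [(nat_lit 6, nat_lit 449)])],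
 ⟨p016_k0, nat_lit 0, nat_lit 0, nat_lit 462, nat_lit 0, nat_lit 439120, [nat_lit 2320780801, nat_lit 2937457600, nat_lit 3001574800], [], [nat_lit 20072135733, nat_lit 21688449100, nat_lit 19099193564, nat_lit 20454429076], nat_lit 1271250, nat_lit 1271250, nat_lit 330400, nat_lit 490000, nat_lit 0, nat_lit 0, [nat_lit 780000, nat_lit 1435000, nat_lit 1271250], [nat_lit 8, nat_lit 40, nat_lit 80, nat_lit 80, nat_lit 1, nat_lit 226, nat_lit 20, nat_lit 7]⟩, ⟨p016_k20, nat_lit 0, nat_lit 0, nat_lit 474, nat_lit 0, nat_lit 461600, [nat_lit 2583088000, nat_lit 4390368000, nat_lit 5422942000], [], [nat_lit 12781488868, nat_lit 13430528008, nat_lit 13338135608, nat_lit 11908496604], nat_lit 1271250, nat_lit 1271250, nat_lit 330400, nat_lit 490000, nat_lit 0, nat_lit 0, [nat_lit 1100000, nat_lit 1785000, nat_lit 1271250], [nat_lit 29, nat_lit 40, nat_lit 80, nat_lit 80, nat_lit 17, nat_lit 317,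 nat_lit 100, nat_lit 9]⟩,
 ⟨nat_lit 5000, nat_lit 5478, ⟨.ofNat (nat_lit 304989), .ofNat (nat_lit 349949), .ofNat (nat_lit 315668), .ofNat (nat_lit 360625), .ofNat (nat_lit 317856), .ofNat (nat_lit 360713), .ofNat (nat_lit 328570), .ofNat (nat_lit 371424)⟩, ⟨.ofNat (nat_lit 0), .ofNat (nat_lit 0), .ofNat (nat_lit 0), .ofNat (nat_lit 0), .ofNat (nat_lit 0), .ofNat (nat_lit 0), .ofNat (nat_lit 0), .ofNat (nat_lit 0)⟩⟩, [⟨nat_lit 0, nat_lit 100, nat_lit 96, nat_lit 81, nat_lit 614511219⟩]⟩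
noncomputable def p016_l81 : Lf2 := ⟨nat_lit 0, nat_lit 10, [nat_lit 0, nat_lit 5, nat_lit 5, nat_lit 20], false, nat_lit 0, nat_lit 0, nat_lit 0, nat_lit 0, ⟨nat_lit 112, nat_lit 0, nat_lit 888, nat_lit 6, nat_lit 128, nat_lit 0, nat_lit 0, nat_lit 0, nat_lit 0, nat_lit 215, nat_lit 153600, nat_lit 311, nat_lit 60751397, nat_lit 0, nat_lit 0, nat_lit 1550108, false, false⟩,
 nat_lit 2120, nat_lit 3870, nat_lit 0, nat_lit 0, nat_lit 3811, nat_lit 1233, nat_lit 283, nat_lit 0, nat_lit 0, nat_lit 148, nat_lit 0, nat_lit 0, nat_lit 0, nat_lit 0, nat_lit 46, nat_lit 355200, nat_lit 0, nat_lit 0, [(nat_lit 12, [(nat_lit 5, nat_lit 888)])],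
 ⟨p016_k0, nat_lit 0, nat_lit 0, nat_lit 360, nat_lit 0, nat_lit 252129, [nat_lit 2021414400, nat_lit 1145216001, nat_lit 207600000], [], [nat_lit 16121695734, nat_lit 17547362341, nat_lit 15541055640, nat_lit 16552679996], nat_lit 1271250, nat_lit 1271250, nat_lit 279600, nat_lit 490000, nat_lit 0, nat_lit 0, [nat_lit 780000, nat_lit 1435000, nat_lit 1271250], [nat_lit 8, nat_lit 40, nat_lit 80, nat_lit 80, nat_lit 1, nat_lit 226, nat_lit 20, nat_lit 7]⟩, ⟨p016_k18, nat_lit 0, nat_lit 0, nat_lit 378, nat_lit 0, nat_lit 279952, [nat_lit 525056000, nat_lit 892416000, nat_lit 1102304000], [], [nat_lit 3222130301, nat_lit 2975963942, nat_lit 2920740614, nat_lit 2622719874], nat_lit 1271250, nat_lit 1271250, nat_lit 279600, nat_lit 490000, nat_lit 0, nat_lit 0, [nat_lit 1100000, nat_lit 1785000, nat_lit 1271250], [nat_lit 29, nat_lit 40, nat_lit 80, nat_lit 80, nat_lit 17, nat_lit 317, nat_lit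 100, nat_lit 9]⟩,
 ⟨nat_lit 5000, nat_lit 5478, ⟨.ofNat (nat_lit 279324), .ofNat (nat_lit 339271), .ofNat (nat_lit 290003), .ofNat (nat_lit 349949), .ofNat (nat_lit 292856), .ofNat (nat_lit 349999), .ofNat (nat_lit 303570), .ofNat (nat_lit 360713)⟩, ⟨.ofNat (nat_lit 0), .ofNat (nat_lit 0), .ofNat (nat_lit 0), .ofNat (nat_lit 0), .ofNat (nat_lit 0), .ofNat (nat_lit 0), .ofNat (nat_lit 0), .ofNat (nat_lit 0)⟩⟩, [⟨nat_lit 0, nat_lit 100, nat_lit 94, nat_lit 76, nat_lit 338742738⟩]⟩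
noncomputable def p016_l82 : Lf2 := ⟨nat_lit 0, nat_lit 10, [nat_lit 0, nat_lit 5, nat_lit 5, nat_lit 20], false, nat_lit 0, nat_lit 0, nat_lit 0, nat_lit 0, ⟨nat_lit 708, nat_lit 0, nat_lit 292, nat_lit 6, nat_lit 135, nat_lit 0, nat_lit 0, nat_lit 0, nat_lit 0, nat_lit 215, nat_lit 173400, nat_lit 317, nat_lit 60104018, nat_lit 0, nat_lit 0, nat_lit 1657312, false, false⟩,
 nat_lit 12194, nat_lit 0, nat_lit 0, nat_lit 0, nat_lit 7759, nat_lit 7426, nat_lit 906, nat_lit 0, nat_lit 0, nat_lit 697, nat_lit 0, nat_lit 0, nat_lit 0, nat_lit 0, nat_lit 0, nat_lit 70970, nat_lit 0, nat_lit 0, [(nat_lit 12, [(nat_lit 3, nat_lit 29), (nat_lit 4, nat_lit 263)])],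
 ⟨p016_k0, nat_lit 0, nat_lit 0, nat_lit 367, nat_lit 0, nat_lit 291805, [nat_lit 4291687201, nat_lit 4343544000, nat_lit 6473629600], [], [nat_lit 21995834576, nat_lit 24128704716, nat_lit 20735208543, nat_lit 22167197036], nat_lit 1271250, nat_lit 1271250, nat_lit 330400, nat_lit 490000, nat_lit 0, nat_lit 0, [nat_lit 780000, nat_lit 1435000, nat_lit 1271250], [nat_lit 8, nat_lit 40, nat_lit 80, nat_lit 80, nat_lit 1, nat_lit 226, nat_lit 20, nat_lit 7]⟩, ⟨p016_k20, nat_lit 0, nat_lit 0, nat_lit 384, nat_lit 0, nat_lit 307199, [nat_lit 3319104000, nat_lit 5641344000, nat_lit 6968136000], [], [nat_lit 18622407034, nat_lit 19389581647, nat_lit 17070471591, nat_lit 17602261631], nat_lit 1271250, nat_lit 1271250, nat_lit 330400, nat_lit 490000, nat_lit 0, nat_lit 0, [nat_lit 1100000, nat_lit 1785000, nat_lit 1271250], [nat_lit 29, nat_lit 40, nat_lit 80, nat_lit 80, nat_lit 17, nat_lit 317,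 nat_lit 100, nat_lit 9]⟩,
 ⟨nat_lit 5000, nat_lit 5478, ⟨.ofNat (nat_lit 304989), .ofNat (nat_lit 349949), .ofNat (nat_lit 315668), .ofNat (nat_lit 360625), .ofNat (nat_lit 317856), .ofNat (nat_lit 360713), .ofNat (nat_lit 328570), .ofNat (nat_lit 371424)⟩, ⟨.ofNat (nat_lit 0), .ofNat (nat_lit 0), .ofNat (nat_lit 0), .ofNat (nat_lit 0), .ofNat (nat_lit 0), .ofNat (nat_lit 0), .ofNat (nat_lit 0), .ofNat (nat_lit 0)⟩⟩, [⟨nat_lit 0, nat_lit 100, nat_lit 96, nat_lit 81, nat_lit 45445344⟩, ⟨nat_lit 0, nat_lit 100, nat_lit 98, nat_lit 74, nat_lit 1058654419⟩]⟩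
noncomputable def p016_l83 : Lf2 := ⟨nat_lit 0, nat_lit 10, [nat_lit 0, nat_lit 5, nat_lit 5, nat_lit 20], false, nat_lit 0, nat_lit 0, nat_lit 0, nat_lit 0, ⟨nat_lit 515, nat_lit 0, nat_lit 485, nat_lit 6, nat_lit 157, nat_lit 0, nat_lit 0, nat_lit 0, nat_lit 0, nat_lit 215, nat_lit 232067, nat_lit 333, nat_lit 58079130, nat_lit 0, nat_lit 0, nat_lit 1961628, false, false⟩,
 nat_lit 9668, nat_lit 0, nat_lit 0, nat_lit 0, nat_lit 6152, nat_lit 5627, nat_lit 491, nat_lit 0, nat_lit 0, nat_lit 711, nat_lit 0, nat_lit 0, nat_lit 0, nat_lit 0, nat_lit 0, nat_lit 458600, nat_lit 0, nat_lit 0, [(nat_lit 12, [(nat_lit 5, nat_lit 44), (nat_lit 6, nat_lit 441)])],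
 ⟨p016_k0, nat_lit 0, nat_lit 0, nat_lit 454, nat_lit 0, nat_lit 469301, [nat_lit 2248094401, nat_lit 2697953067, nat_lit 2582253200], [], [nat_lit 18973567341, nat_lit 20081778673, nat_lit 18946615629, nat_lit 20188449313], nat_lit 1271250, nat_lit 1271250, nat_lit 490000, nat_lit 780000, nat_lit 0, nat_lit 0, [nat_lit 780000, nat_lit 1435000, nat_lit 1271250], [nat_lit 8, nat_lit 40, nat_lit 80, nat_lit 80, nat_lit 1, nat_lit 238, nat_lit 30, nat_lit 7]⟩, ⟨p016_k18, nat_lit 0, nat_lit 0, nat_lit 477, nat_lit 0, nat_lit 521089, [nat_lit 2414320000, nat_lit 4103520000, nat_lit 5068630000], [], [nat_lit 13383793310, nat_lit 12131621820, nat_lit 15132083620, nat_lit 12443604306], nat_lit 1271250, nat_lit 1271250, nat_lit 490000, nat_lit 780000, nat_lit 0, nat_lit 0, [nat_lit 1100000, nat_lit 1785000, nat_lit 1271250], [nat_lit 29, nat_lit 40, nat_lit 80, nat_lit 80, nat_lit 17, nat_lit 317,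 nat_lit 100, nat_lit 9]⟩,
 ⟨nat_lit 5000, nat_lit 5478, ⟨.ofNat (nat_lit 339271), .ofNat (nat_lit 414199), .ofNat (nat_lit 360625), .ofNat (nat_lit 435548), .ofNat (nat_lit 349999), .ofNat (nat_lit 421423), .ofNat (nat_lit 371424), .ofNat (nat_lit 442843)⟩, ⟨.ofNat (nat_lit 0), .ofNat (nat_lit 0), .ofNat (nat_lit 0), .ofNat (nat_lit 0), .ofNat (nat_lit 0), .ofNat (nat_lit 0), .ofNat (nat_lit 0), .ofNat (nat_lit 0)⟩⟩, [⟨nat_lit 0, nat_lit 100, nat_lit 94, nat_lit 88, nat_lit 74816185⟩]⟩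
noncomputable def p016_l84 : Lf2 := ⟨nat_lit 0, nat_lit 10, [nat_lit 0, nat_lit 5, nat_lit 5, nat_lit 20], false, nat_lit 0, nat_lit 0, nat_lit 0, nat_lit 0, ⟨nat_lit 346, nat_lit 0, nat_lit 654, nat_lit 6, nat_lit 155, nat_lit 0, nat_lit 0, nat_lit 0, nat_lit 0, nat_lit 215, nat_lit 224267, nat_lit 331, nat_lit 58272143, nat_lit 0, nat_lit 0, nat_lit 1934463, false, false⟩,
 nat_lit 6393, nat_lit 0, nat_lit 0, nat_lit 0, nat_lit 4425, nat_lit 3721, nat_lit 0, nat_lit 0, nat_lit 0, nat_lit 465, nat_lit 0, nat_lit 0, nat_lit 0, nat_lit 0, nat_lit 16, nat_lit 593400, nat_lit 0, nat_lit 0, [(nat_lit 15, [(nat_lit 5, nat_lit 101), (nat_lit 6, nat_lit 553)])],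
 ⟨p016_k8, nat_lit 0, nat_lit 0, nat_lit 420, nat_lit 0, nat_lit 518233, [nat_lit 2002347200, nat_lit 1115930801, nat_lit 9430000], [], [nat_lit 18301658533, nat_lit 19285387940, nat_lit 18249365078, nat_lit 19205231453], nat_lit 1271250, nat_lit 1271250, nat_lit 382400, nat_lit 780000, nat_lit 0, nat_lit 0, [nat_lit 780000, nat_lit 1435000, nat_lit 1271250], [nat_lit 18, nat_lit 40, nat_lit 80, nat_lit 80, nat_lit 2, nat_lit 238, nat_lit 30, nat_lit 8]⟩, ⟨p016_k18, nat_lit 0, nat_lit 0, nat_lit 539, nat_lit 0, nat_lit 634545, [nat_lit 1622048000, nat_lit 2756928000, nat_lit 3405332000], [], [nat_lit 9287200461, nat_lit 8842674286, nat_lit 10271670272, nat_lit 8493843450], nat_lit 1271250, nat_lit 1271250, nat_lit 382400, nat_lit 780000, nat_lit 0, nat_lit 0, [nat_lit 1100000, nat_lit 1785000, nat_lit 1271250], [nat_lit 29, nat_lit 40, nat_lit 80, nat_lit 80, nat_lit 17, nat_lit 317, nat_lit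 100, nat_lit 9]⟩,
 ⟨nat_lit 4472, nat_lit 5000, ⟨.ofNat (nat_lit 321407), .ofNat (nat_lit 421400), .ofNat (nat_lit 342823), .ofNat (nat_lit 442816), .ofNat (nat_lit 333552), .ofNat (nat_lit 428715), .ofNat (nat_lit 355106), .ofNat (nat_lit 450269)⟩, ⟨.ofNat (nat_lit 0), .ofNat (nat_lit 0), .ofNat (nat_lit 0), .ofNat (nat_lit 0), .ofNat (nat_lit 0), .ofNat (nat_lit 0), .ofNat (nat_lit 0), .ofNat (nat_lit 0)⟩⟩, [⟨nat_lit 0, nat_lit 100, nat_lit 87, nat_lit 95, nat_lit 217540101⟩]⟩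
noncomputable def p016_l85 : Lf2 := ⟨nat_lit 0, nat_lit 10, [nat_lit 0, nat_lit 5, nat_lit 5, nat_lit 20], false, nat_lit 0, nat_lit 0, nat_lit 0, nat_lit 0, ⟨nat_lit 373, nat_lit 0, nat_lit 627, nat_lit 6, nat_lit 211, nat_lit 0, nat_lit 0, nat_lit 0, nat_lit 0, nat_lit 215, nat_lit 49446, nat_lit 200, nat_lit 52433281, nat_lit 0, nat_lit 0, nat_lit 2618074, false, false⟩,
 nat_lit 8133, nat_lit 585, nat_lit 0, nat_lit 0, nat_lit 5547, nat_lit 4305, nat_lit 609, nat_lit 0, nat_lit 0, nat_lit 483, nat_lit 0, nat_lit 0, nat_lit 0, nat_lit 0, nat_lit 0, nat_lit 334800, nat_lit 0, nat_lit 0, [(nat_lit 12, [(nat_lit 5, nat_lit 487), (nat_lit 6, nat_lit 140)])],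
 ⟨p016_k0, nat_lit 0, nat_lit 0, nat_lit 376, nat_lit 0, nat_lit 421118, [nat_lit 1988223600, nat_lit 1913003334, nat_lit 1719028000], [], [nat_lit 17048576276, nat_lit 17384441440, nat_lit 21196324700, nat_lit 20734492701], nat_lit 1271250, nat_lit 1271250, nat_lit 780000, nat_lit 1762500, nat_lit 0, nat_lit 0, [nat_lit 780000, nat_lit 1435000, nat_lit 1271250], [nat_lit 8, nat_lit 40, nat_lit 80, nat_lit 80, nat_lit 1, nat_lit 272, nat_lit 60, nat_lit 8]⟩, ⟨p016_k1, nat_lit 0, nat_lit 0, nat_lit 535, nat_lit 0, nat_lit 523426, [nat_lit 1748624000, nat_lit 2972064000, nat_lit 4428256000], [], [nat_lit 14222657296, nat_lit 10617885962, nat_lit 14672989556, nat_lit 11126261244], nat_lit 1271250, nat_lit 1271250, nat_lit 780000, nat_lit 1762500, nat_lit 0, nat_lit 0, [nat_lit 1100000, nat_lit 1785000, nat_lit 1271250], [nat_lit 21, nat_lit 40, nat_lit 80, nat_lit 80, nat_lit 14, nat_lit 373,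 nat_lit 150, nat_lit 10]⟩,
 ⟨nat_lit 5244, nat_lit 5478, ⟨.ofNat (nat_lit 392847), .ofNat (nat_lit 617638), .ofNat (nat_lit 435559), .ofNat (nat_lit 660348), .ofNat (nat_lit 396427), .ofNat (nat_lit 615933), .ofNat (nat_lit 439196), .ofNat (nat_lit 658700)⟩, ⟨.ofNat (nat_lit 0), .ofNat (nat_lit 0), .ofNat (nat_lit 0), .ofNat (nat_lit 0), .ofNat (nat_lit 0), .ofNat (nat_lit 0), .ofNat (nat_lit 0), .ofNat (nat_lit 0)⟩⟩, []⟩
noncomputable def p016_l86 : Lf2 := ⟨nat_lit 0, nat_lit 10, [nat_lit 0, nat_lit 5, nat_lit 5, nat_lit 20], false, nat_lit 0, nat_lit 0, nat_lit 0, nat_lit 0, ⟨nat_lit 423, nat_lit 0, nat_lit 577, nat_lit 6, nat_lit 211, nat_lit 0, nat_lit 0, nat_lit 0, nat_lit 0, nat_lit 215, nat_lit 46148, nat_lit 200, nat_lit 52390766, nat_lit 0, nat_lit 0, nat_lit 2622131, false, false⟩,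
 nat_lit 8478, nat_lit 0, nat_lit 0, nat_lit 0, nat_lit 5630, nat_lit 4488, nat_lit 614, nat_lit 0, nat_lit 0, nat_lit 496, nat_lit 0, nat_lit 0, nat_lit 0, nat_lit 0, nat_lit 0, nat_lit 230800, nat_lit 0, nat_lit 0, [(nat_lit 12, [(nat_lit 5, nat_lit 577)])],
 ⟨p016_k29, nat_lit 0, nat_lit 0, nat_lit 334, nat_lit 0, nat_lit 446549, [nat_lit 2104227600, nat_lit 2335247334, nat_lit 2422150466], [], [nat_lit 17187080584, nat_lit 17753717798, nat_lit 20829775290, nat_lit 21841917660], nat_lit 1271250, nat_lit 1271250, nat_lit 780000, nat_lit 1762500, nat_lit 0, nat_lit 0, [nat_lit 780000, nat_lit 1435000, nat_lit 1271250], [nat_lit 18, nat_lit 40, nat_lit 80, nat_lit 80, nat_lit 2, nat_lit 272, nat_lit 60, nat_lit 9]⟩, ⟨p016_k1, nat_lit 0, nat_lit 0, nat_lit 558, nat_lit 0, nat_lit 583314, [nat_lit 1983024000, nat_lit 3370464000, nat_lit 5021856000], [], [nat_lit 15942259188, nat_lit 12875781200,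 nat_lit 16781960604, nat_lit 12988542648], nat_lit 1271250, nat_lit 1271250, nat_lit 780000, nat_lit 1762500, nat_lit 0, nat_lit 0, [nat_lit 1100000, nat_lit 1785000, nat_lit 1271250], [nat_lit 21, nat_lit 40, nat_lit 80, nat_lit 80, nat_lit 14, nat_lit 373, nat_lit 150, nat_lit 10]⟩,
 ⟨nat_lit 5000, nat_lit 5245, ⟨.ofNat (nat_lit 396427), .ofNat (nat_lit 615934), .ofNat (nat_lit 439194), .ofNat (nat_lit 658699), .ofNat (nat_lit 399998), .ofNat (nat_lit 614277), .ofNat (nat_lit 442852), .ofNat (nat_lit 657129)⟩, ⟨.ofNat (nat_lit 0), .ofNat (nat_lit 0), .ofNat (nat_lit 0), .ofNat (nat_lit 0), .ofNat (nat_lit 0), .ofNat (nat_lit 0), .ofNat (nat_lit 0), .ofNat (nat_lit 0)⟩⟩, []⟩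
noncomputable def p016_l87 : Lf2 := ⟨nat_lit 0, nat_lit 10, [nat_lit 0, nat_lit 5, nat_lit 5, nat_lit 20], false, nat_lit 0, nat_lit 0, nat_lit 0, nat_lit 0, ⟨nat_lit 274, nat_lit 0, nat_lit 726, nat_lit 6, nat_lit 212, nat_lit 0, nat_lit 0, nat_lit 0, nat_lit 0, nat_lit 215, nat_lit 42926, nat_lit 200, nat_lit 52324053, nat_lit 0, nat_lit 0, nat_lit 2628475, false, false⟩,
 nat_lit 6102, nat_lit 0, nat_lit 0, nat_lit 0, nat_lit 4224, nat_lit 3230, nat_lit 0, nat_lit 0, nat_lit 0, nat_lit 347, nat_lit 0, nat_lit 0, nat_lit 0, nat_lit 0, nat_lit 41, nat_lit 594600, nat_lit 0, nat_lit 0, [(nat_lit 15, [(nat_lit 5, nat_lit 219), (nat_lit 6, nat_lit 507)])],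
 ⟨p016_k8, nat_lit 0, nat_lit 0, nat_lit 391, nat_lit 0, nat_lit 518233, [nat_lit 2176156800, nat_lit 1157805201, nat_lit 13890000], [], [nat_lit 17296750611, nat_lit 18245231424, nat_lit 20073897968, nat_lit 21790271520], nat_lit 1271250, nat_lit 1271250, nat_lit 780000, nat_lit 1762500, nat_lit 0, nat_lit 0, [nat_lit 780000, nat_lit 1435000, nat_lit 1271250], [nat_lit 18, nat_lit 40, nat_lit 80, nat_lit 80, nat_lit 2, nat_lit 272, nat_lit 60, nat_lit 9]⟩, ⟨p016_k1, nat_lit 0, nat_lit 0, nat_lit 642, nat_lit 0, nat_lit 710319, [nat_lit 1284512000, nat_lit 2183232000, nat_lit 3252928000], [], [nat_lit 10479813808, nat_lit 7885828156, nat_lit 10766557328, nat_lit 8252039492], nat_lit 1271250, nat_lit 1271250, nat_lit 780000, nat_lit 1762500, nat_lit 0, nat_lit 0, [nat_lit 1100000, nat_lit 1785000, nat_lit 1271250], [nat_lit 21, nat_lit 40, nat_lit 80, nat_lit 80, nat_lit 14, nat_lit 373, nat_lit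 150, nat_lit 10]⟩,
 ⟨nat_lit 4472, nat_lit 5000, ⟨.ofNat (nat_lit 399984), .ofNat (nat_lit 614256), .ofNat (nat_lit 442816), .ofNat (nat_lit 657088), .ofNat (nat_lit 407160), .ofNat (nat_lit 611081), .ofNat (nat_lit 450269), .ofNat (nat_lit 654189)⟩, ⟨.ofNat (nat_lit 0), .ofNat (nat_lit 0), .ofNat (nat_lit 0), .ofNat (nat_lit 0), .ofNat (nat_lit 0), .ofNat (nat_lit 0), .ofNat (nat_lit 0), .ofNat (nat_lit 0)⟩⟩, []⟩
noncomputable def p016_l88 : Lf2 := ⟨nat_lit 0, nat_lit 10, [nat_lit 0, nat_lit 5, nat_lit 5, nat_lit 20], false, nat_lit 0, nat_lit 0, nat_lit 0, nat_lit 0, ⟨nat_lit 1000, nat_lit 0, nat_lit 0, nat_lit 0, nat_lit 0, nat_lit 0, nat_lit 0, nat_lit 0, nat_lit 0, nat_lit 0, nat_lit 0, nat_lit 0, nat_lit 0, nat_lit 0, nat_lit 0, nat_lit 0, false, false⟩,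
 nat_lit 13189, nat_lit 0, nat_lit 0, nat_lit 0, nat_lit 8128, nat_lit 6982, nat_lit 592, nat_lit 0, nat_lit 0, nat_lit 1698, nat_lit 0, nat_lit 0, nat_lit 0, nat_lit 0, nat_lit 0, nat_lit 0, nat_lit 0, nat_lit 0, [],
 ⟨p016_k2, nat_lit 0, nat_lit 0, nat_lit 421, nat_lit 0, nat_lit 469301, [nat_lit 3282000000, nat_lit 4688000000, nat_lit 9842000000], [], [nat_lit 33211077568, nat_lit 34214330752, nat_lit 41286766848, nat_lit 42650427808], nat_lit 1271250, nat_lit 1271250, nat_lit 1271250, nat_lit 1271250, nat_lit 0, nat_lit 0, [nat_lit 780000, nat_lit 1100000, nat_lit 2127500], [nat_lit 42, nat_lit 40, nat_lit 80, nat_lit 80, nat_lit 13, nat_lit 317, nat_lit 100, nat_lit 9]⟩, ⟨p016_k3, nat_lit 0, nat_lit 0, nat_lit 516, nat_lit 0, nat_lit 583314, [nat_lit 4688000000, nat_lit 6250000000, nat_lit 11872000000], [], [nat_lit 31680948452, nat_lit 32466448710, nat_lit 37371952718, nat_lit 38288623550],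 nat_lit 1271250, nat_lit 1271250, nat_lit 1271250, nat_lit 1271250, nat_lit 0, nat_lit 0, [nat_lit 1100000, nat_lit 1442500, nat_lit 1271250], [nat_lit 48, nat_lit 40, nat_lit 80, nat_lit 80, nat_lit 12, nat_lit 401, nat_lit 175, nat_lit 10]⟩,
 zbF0, []⟩
noncomputable def p016_l89 : Lf2 := ⟨nat_lit 0, nat_lit 10, [nat_lit 0, nat_lit 5, nat_lit 5, nat_lit 20], false, nat_lit 0, nat_lit 0, nat_lit 0, nat_lit 0, ⟨nat_lit 1000, nat_lit 0, nat_lit 0, nat_lit 0, nat_lit 0, nat_lit 0, nat_lit 0, nat_lit 0, nat_lit 0, nat_lit 0, nat_lit 0, nat_lit 0, nat_lit 0, nat_lit 0, nat_lit 0, nat_lit 0, false, false⟩,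
 nat_lit 13533, nat_lit 0, nat_lit 0, nat_lit 0, nat_lit 6232, nat_lit 7164, nat_lit 847, nat_lit 0, nat_lit 0, nat_lit 1530, nat_lit 0, nat_lit 0, nat_lit 0, nat_lit 0, nat_lit 0, nat_lit 0, nat_lit 0, nat_lit 0, [],
 ⟨p016_k23, nat_lit 0, nat_lit 0, nat_lit 386, nat_lit 0, nat_lit 518233, [nat_lit 3282000000, nat_lit 4688000000, nat_lit 7968000000], [], [nat_lit 28224708628, nat_lit 29074186276, nat_lit 37517603152, nat_lit 38709543392], nat_lit 1271250, nat_lit 1271250, nat_lit 1271250, nat_lit 1271250, nat_lit 0, nat_lit 0, [nat_lit 780000, nat_lit 1100000, nat_lit 1785000], [nat_lit 36, nat_lit 40, nat_lit 80, nat_lit 80, nat_lit 7, nat_lit 203, nat_lit 0, nat_lit 6]⟩, ⟨p016_k3, nat_lit 0, nat_lit 0, nat_lit 560, nat_lit 0, nat_lit 710319, [nat_lit 4688000000, nat_lit 6250000000, nat_lit 11872000000], [], [nat_lit 34508062076, nat_lit 34988840614, nat_lit 38727340848, nat_lit 39304351376],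 nat_lit 1271250, nat_lit 1271250, nat_lit 1271250, nat_lit 1271250, nat_lit 0, nat_lit 0, [nat_lit 1100000, nat_lit 1442500, nat_lit 1271250], [nat_lit 48, nat_lit 40, nat_lit 80, nat_lit 80, nat_lit 12, nat_lit 401, nat_lit 175, nat_lit 10]⟩,
 zbF0, []⟩
noncomputable def b_N_700_600_0_18 : St := ⟨false, nat_lit 1, nat_lit 1, nat_lit 1, nat_lit 40, nat_lit 280, nat_lit 320, nat_lit 240, nat_lit 280, nat_lit 36, nat_lit 400, nat_lit 0, nat_lit 0, nat_lit 0, nat_lit 0, nat_lit 0, nat_lit 0, nat_lit 40, nat_lit 80, nat_lit 0, nat_lit 0, nat_lit 0, nat_lit 0⟩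
theorem d_N_700_600_0_18 (h : EB TB.env) : Dead b_N_700_600_0_18 := chkB_sound0 h (T :=
(.spl (nat_lit 2) (nat_lit 240)
(.spl (nat_lit 2) (nat_lit 120)
(.spl (nat_lit 1) (nat_lit 260)
(.spl (nat_lit 0) (nat_lit 300)
(.spl (nat_lit 2) (nat_lit 80)
(.spl (nat_lit 6) (nat_lit 60)
(.spl (nat_lit 6) (nat_lit 48)
(.spl (nat_lit 1) (nat_lit 250)
(.leaf p016_l68)
(.trZ (nat_lit 0) (nat_lit 100) (nat_lit 95) (nat_lit 64) (nat_lit 40) (.spl (nat_lit 1) (nat_lit 255)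
(.leaf p016_l69)
(.trZ (nat_lit 0) (nat_lit 100) (nat_lit 95) (nat_lit 66) (nat_lit 44) (.leaf p016_l70)))))
(.spl (nat_lit 0) (nat_lit 290)
(.leaf p016_l71)
(.trZ (nat_lit 0) (nat_lit 100) (nat_lit 91) (nat_lit 63) (nat_lit 40) (.leaf p016_l72))))
(.leaf p016_l73))
(.leaf p016_l74))
(.trZ (nat_lit 0) (nat_lit 100) (nat_lit 88) (nat_lit 68) (nat_lit 48) (.leaf p016_l75)))
(.trZ (nat_lit 0) (nat_lit 100) (nat_lit 96) (nat_lit 69) (nat_lit 48) (.spl (nat_lit 0) (nat_lit 300)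
(.spl (nat_lit 2) (nat_lit 80)
(.spl (nat_lit 6) (nat_lit 60)
(.spl (nat_lit 1) (nat_lit 270)
(.spl (nat_lit 2) (nat_lit 60)
(.spl (nat_lit 1) (nat_lit 265)
(.spl (nat_lit 6) (nat_lit 48)
(.leaf p016_l76)
(.leaf p016_l77))
(.trZ (nat_lit 0) (nat_lit 100) (nat_lit 97) (nat_lit 71) (nat_lit 52) (.leaf p016_l78)))
(.leaf p016_l79))
(.trZ (nat_lit 0) (nat_lit 100) (nat_lit 98) (nat_lit 74) (nat_lit 56) (.leaf p016_l80)))
(.spl (nat_lit 1) (nat_lit 270)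
(.leaf p016_l81)
(.trZ (nat_lit 0) (nat_lit 100) (nat_lit 98) (nat_lit 74) (nat_lit 56) (.leaf p016_l82))))
(.leaf p016_l83))
(.trZ (nat_lit 0) (nat_lit 100) (nat_lit 91) (nat_lit 77) (nat_lit 64) (.leaf p016_l84)))))
(.spl (nat_lit 0) (nat_lit 300)
(.spl (nat_lit 0) (nat_lit 290)
(.leaf p016_l85)
(.leaf p016_l86))
(.leaf p016_l87)))
(.spl (nat_lit 0) (nat_lit 300)
(.leaf p016_l88)
(.leaf p016_l89)))) (by decide +kernel)
noncomputable def p016_l90 : Lf2 := ⟨nat_lit 0, nat_lit 10, [nat_lit 0, nat_lit 5, nat_lit 5, nat_lit 20], true, nat_lit 0, nat_lit 0, nat_lit 0, nat_lit 0, ⟨nat_lit 0, nat_lit 1000, nat_lit 0, nat_lit 6, nat_lit 122, nat_lit 0, nat_lit 0, nat_lit 0, nat_lit 0, nat_lit 0, nat_lit 0, nat_lit 0, nat_lit 0, nat_lit 0, nat_lit 0, nat_lit 5000000, false, false⟩,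
 nat_lit 0, nat_lit 8598, nat_lit 0, nat_lit 0, nat_lit 5471, nat_lit 0, nat_lit 123, nat_lit 0, nat_lit 0, nat_lit 0, nat_lit 0, nat_lit 0, nat_lit 0, nat_lit 0, nat_lit 12, nat_lit 1000000, nat_lit 0, nat_lit 0, [(nat_lit 12, [(nat_lit 2, nat_lit 1000)])],
 ⟨p016_k0, nat_lit 0, nat_lit 0, nat_lit 488, nat_lit 0, nat_lit 469301, [nat_lit 2479200001, nat_lit 2186400000, nat_lit 42000000], [], [nat_lit 19930394544, nat_lit 21536568819, nat_lit 18227113113, nat_lit 19200898896], nat_lit 1271250, nat_lit 1271250, nat_lit 205650, nat_lit 490000, nat_lit 0, nat_lit 0, [nat_lit 780000, nat_lit 1435000, nat_lit 1271250], [nat_lit 8, nat_lit 40, nat_lit 80, nat_lit 80, nat_lit 1, nat_lit 226, nat_lit 20, nat_lit 7]⟩, C1.Rw.none,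
 ⟨nat_lit 5000, nat_lit 5478, ⟨.ofNat (nat_lit 235487), .ofNat (nat_lit 317913), .ofNat (nat_lit 278201), .ofNat (nat_lit 360625), .ofNat (nat_lit 249999), .ofNat (nat_lit 328570), .ofNat (nat_lit 292856), .ofNat (nat_lit 371424)⟩, ⟨.ofNat (nat_lit 0), .ofNat (nat_lit 0), .ofNat (nat_lit 0), .ofNat (nat_lit 0), .ofNat (nat_lit 0), .ofNat (nat_lit 0), .ofNat (nat_lit 0), .ofNat (nat_lit 0)⟩⟩, [⟨nat_lit 0, nat_lit 100, nat_lit 94, nat_lit 88, nat_lit 371183995⟩]⟩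
noncomputable def p016_l91 : Lf2 := ⟨nat_lit 0, nat_lit 10, [nat_lit 0, nat_lit 5, nat_lit 5, nat_lit 20], true, nat_lit 0, nat_lit 0, nat_lit 0, nat_lit 0, ⟨nat_lit 0, nat_lit 1000, nat_lit 0, nat_lit 6, nat_lit 162, nat_lit 0, nat_lit 0, nat_lit 0, nat_lit 0, nat_lit 0, nat_lit 0, nat_lit 0, nat_lit 0, nat_lit 0, nat_lit 0, nat_lit 5000000, false, false⟩,
 nat_lit 0, nat_lit 5540, nat_lit 0, nat_lit 0, nat_lit 3525, nat_lit 0, nat_lit 294, nat_lit 0, nat_lit 0, nat_lit 0, nat_lit 0, nat_lit 0, nat_lit 0, nat_lit 0, nat_lit 12, nat_lit 1000000, nat_lit 0, nat_lit 0, [(nat_lit 12, [(nat_lit 2, nat_lit 1000)])],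
 ⟨p016_k2, nat_lit 0, nat_lit 0, nat_lit 491, nat_lit 0, nat_lit 602593, [nat_lit 2136960000, nat_lit 2804400000, nat_lit 42000000], [], [nat_lit 25190220200, nat_lit 24574399975, nat_lit 25657464850, nat_lit 25226494550], nat_lit 1271250, nat_lit 1271250, nat_lit 490000, nat_lit 1100001, nat_lit 0, nat_lit 0, [nat_lit 780000, nat_lit 1100000, nat_lit 2127500], [nat_lit 42, nat_lit 40, nat_lit 80, nat_lit 80, nat_lit 13, nat_lit 249, nat_lit 40, nat_lit 7]⟩, C1.Rw.none,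
 ⟨nat_lit 5244, nat_lit 5478, ⟨.ofNat (nat_lit 317913), .ofNat (nat_lit 467779), .ofNat (nat_lit 339271), .ofNat (nat_lit 489134), .ofNat (nat_lit 323256), .ofNat (nat_lit 469597), .ofNat (nat_lit 344641), .ofNat (nat_lit 490981)⟩, ⟨.ofNat (nat_lit 0), .ofNat (nat_lit 0), .ofNat (nat_lit 0), .ofNat (nat_lit 0), .ofNat (nat_lit 0), .ofNat (nat_lit 0), .ofNat (nat_lit 0), .ofNat (nat_lit 0)⟩⟩, []⟩
noncomputable def p016_l92 : Lf2 := ⟨nat_lit 0, nat_lit 10, [nat_lit 0, nat_lit 5, nat_lit 5, nat_lit 20], false, nat_lit 0, nat_lit 0, nat_lit 0, nat_lit 0, ⟨nat_lit 116, nat_lit 884, nat_lit 0, nat_lit 6, nat_lit 169, nat_lit 0, nat_lit 0, nat_lit 0, nat_lit 0, nat_lit 0, nat_lit 0, nat_lit 0, nat_lit 0, nat_lit 0, nat_lit 0, nat_lit 5000000, false, false⟩,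
 nat_lit 0, nat_lit 6217, nat_lit 0, nat_lit 0, nat_lit 3956, nat_lit 854, nat_lit 313, nat_lit 0, nat_lit 0, nat_lit 0, nat_lit 0, nat_lit 0, nat_lit 0, nat_lit 0, nat_lit 0, nat_lit 884000, nat_lit 0, nat_lit 0, [(nat_lit 12, [(nat_lit 2, nat_lit 884)])],
 ⟨p016_k2, nat_lit 0, nat_lit 0, nat_lit 558, nat_lit 0, nat_lit 669706, [nat_lit 2142488640, nat_lit 2853169600, nat_lit 881776000], [], [nat_lit 25573380288, nat_lit 25115539189, nat_lit 26557406769, nat_lit 26030512104], nat_lit 1271250, nat_lit 1271250, nat_lit 490000, nat_lit 1100001, nat_lit 0, nat_lit 0, [nat_lit 780000, nat_lit 1100000, nat_lit 2127500], [nat_lit 42, nat_lit 40, nat_lit 80, nat_lit 80, nat_lit 13, nat_lit 249, nat_lit 40, nat_lit 7]⟩, ⟨p016_k17, nat_lit 0, nat_lit 0, nat_lit 166, nat_lit 0, nat_lit 0, [nat_lit 543808000, nat_lit 725000000, nat_lit 1141672000], [], [nat_lit 3169081668, nat_lit 3271640730, nat_lit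 3180121804, nat_lit 3256265446], nat_lit 0, nat_lit 0, nat_lit 0, nat_lit 0, nat_lit 0, nat_lit 0, [], [nat_lit 11, nat_lit 40, nat_lit 80, nat_lit 80, nat_lit 1, nat_lit 345, nat_lit 125, nat_lit 10]⟩,
 ⟨nat_lit 5244, nat_lit 5478, ⟨.ofNat (nat_lit 339271), .ofNat (nat_lit 489134), .ofNat (nat_lit 349949), .ofNat (nat_lit 499812), .ofNat (nat_lit 344641), .ofNat (nat_lit 490981), .ofNat (nat_lit 355334), .ofNat (nat_lit 501673)⟩, ⟨.ofNat (nat_lit 0), .ofNat (nat_lit 0), .ofNat (nat_lit 0), .ofNat (nat_lit 0), .ofNat (nat_lit 0), .ofNat (nat_lit 0), .ofNat (nat_lit 0), .ofNat (nat_lit 0)⟩⟩, []⟩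
noncomputable def p016_l93 : Lf2 := ⟨nat_lit 0, nat_lit 10, [nat_lit 0, nat_lit 5, nat_lit 5, nat_lit 20], false, nat_lit 0, nat_lit 0, nat_lit 0, nat_lit 0, ⟨nat_lit 135, nat_lit 865, nat_lit 0, nat_lit 6, nat_lit 171, nat_lit 0, nat_lit 0, nat_lit 0, nat_lit 0, nat_lit 0, nat_lit 0, nat_lit 0, nat_lit 0, nat_lit 0, nat_lit 0, nat_lit 5000000, false, false⟩,
 nat_lit 0, nat_lit 5977, nat_lit 0, nat_lit 0, nat_lit 3803, nat_lit 969, nat_lit 349, nat_lit 0, nat_lit 0, nat_lit 364, nat_lit 0, nat_lit 0, nat_lit 0, nat_lit 0, nat_lit 0, nat_lit 865000, nat_lit 0, nat_lit 0, [(nat_lit 12, [(nat_lit 2, nat_lit 865)])],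
 ⟨p016_k2, nat_lit 0, nat_lit 0, nat_lit 558, nat_lit 0, nat_lit 670031, [nat_lit 2166980400, nat_lit 2892606001, nat_lit 1074360000], [], [nat_lit 25764749226, nat_lit 25578709083, nat_lit 26914904858, nat_lit 26548612569], nat_lit 1271250, nat_lit 1271250, nat_lit 490000, nat_lit 1100001, nat_lit 0, nat_lit 0, [nat_lit 780000, nat_lit 1100000, nat_lit 2127500], [nat_lit 42, nat_lit 40, nat_lit 80, nat_lit 80, nat_lit 13, nat_lit 249, nat_lit 40, nat_lit 7]⟩, ⟨p016_k21, nat_lit 0, nat_lit 0, nat_lit 170, nat_lit 0, nat_lit 0, [nat_lit 632880000, nat_lit 843750000, nat_lit 1328670000], [], [nat_lit 2220765237, nat_lit 2272551642, nat_lit 2229043818, nat_lit 2274429815], nat_lit 0, nat_lit 0, nat_lit 0, nat_lit 0, nat_lit 0, nat_lit 0, [], [nat_lit 11, nat_lit 40, nat_lit 80, nat_lit 80, nat_lit 1, nat_lit 345, nat_lit 125, nat_lit 10]⟩,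
 ⟨nat_lit 5361, nat_lit 5478, ⟨.ofNat (nat_lit 349949), .ofNat (nat_lit 499814), .ofNat (nat_lit 355288), .ofNat (nat_lit 505153), .ofNat (nat_lit 352644), .ofNat (nat_lit 500742), .ofNat (nat_lit 357986), .ofNat (nat_lit 506084)⟩, ⟨.ofNat (nat_lit 0), .ofNat (nat_lit 0), .ofNat (nat_lit 0), .ofNat (nat_lit 0), .ofNat (nat_lit 0), .ofNat (nat_lit 0), .ofNat (nat_lit 0), .ofNat (nat_lit 0)⟩⟩, []⟩
noncomputable def p016_l94 : Lf2 := ⟨nat_lit 0, nat_lit 10, [nat_lit 0, nat_lit 5, nat_lit 5, nat_lit 20], true, nat_lit 0, nat_lit 0, nat_lit 0, nat_lit 0, ⟨nat_lit 0, nat_lit 1000, nat_lit 0, nat_lit 6, nat_lit 158, nat_lit 0, nat_lit 0, nat_lit 0, nat_lit 0, nat_lit 0, nat_lit 0, nat_lit 0, nat_lit 0, nat_lit 0, nat_lit 0, nat_lit 5000000, false, false⟩,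
 nat_lit 0, nat_lit 8991, nat_lit 0, nat_lit 0, nat_lit 5721, nat_lit 0, nat_lit 3, nat_lit 0, nat_lit 0, nat_lit 0, nat_lit 0, nat_lit 0, nat_lit 0, nat_lit 0, nat_lit 12, nat_lit 1000000, nat_lit 0, nat_lit 0, [(nat_lit 12, [(nat_lit 2, nat_lit 1000)])],
 ⟨p016_k0, nat_lit 0, nat_lit 0, nat_lit 569, nat_lit 0, nat_lit 693704, [nat_lit 2479200001, nat_lit 2186400000, nat_lit 42000000], [], [nat_lit 18658019551, nat_lit 18782532847, nat_lit 18934415912, nat_lit 18724889750], nat_lit 1271250, nat_lit 1271250, nat_lit 490000, nat_lit 780000, nat_lit 0, nat_lit 0, [nat_lit 780000, nat_lit 1435000, nat_lit 1271250], [nat_lit 8, nat_lit 40, nat_lit 80, nat_lit 80, nat_lit 1, nat_lit 238, nat_lit 30, nat_lit 7]⟩, C1.Rw.none,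
 ⟨nat_lit 5408, nat_lit 5478, ⟨.ofNat (nat_lit 355288), .ofNat (nat_lit 430221), .ofNat (nat_lit 360628), .ofNat (nat_lit 435560), .ofNat (nat_lit 356907), .ofNat (nat_lit 431310), .ofNat (nat_lit 362248), .ofNat (nat_lit 436651)⟩, ⟨.ofNat (nat_lit 0), .ofNat (nat_lit 0), .ofNat (nat_lit 0), .ofNat (nat_lit 0), .ofNat (nat_lit 0), .ofNat (nat_lit 0), .ofNat (nat_lit 0), .ofNat (nat_lit 0)⟩⟩, []⟩
noncomputable def p016_l95 : Lf2 := ⟨nat_lit 0, nat_lit 10, [nat_lit 0, nat_lit 5, nat_lit 5, nat_lit 20], true, nat_lit 0, nat_lit 0, nat_lit 0, nat_lit 0, ⟨nat_lit 0, nat_lit 1000, nat_lit 0, nat_lit 6, nat_lit 188, nat_lit 0, nat_lit 0, nat_lit 0, nat_lit 0, nat_lit 0, nat_lit 0, nat_lit 0, nat_lit 0, nat_lit 0, nat_lit 0, nat_lit 5000000, false, false⟩,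
 nat_lit 0, nat_lit 8971, nat_lit 0, nat_lit 0, nat_lit 5708, nat_lit 0, nat_lit 0, nat_lit 0, nat_lit 0, nat_lit 0, nat_lit 0, nat_lit 0, nat_lit 0, nat_lit 0, nat_lit 12, nat_lit 1000000, nat_lit 0, nat_lit 0, [(nat_lit 12, [(nat_lit 2, nat_lit 1000)])],
 ⟨p016_k0, nat_lit 0, nat_lit 0, nat_lit 518, nat_lit 0, nat_lit 693704, [nat_lit 2479200001, nat_lit 2186400000, nat_lit 42000000], [], [nat_lit 18659379584, nat_lit 18777085616, nat_lit 18724429761, nat_lit 18841859496], nat_lit 1271250, nat_lit 1271250, nat_lit 780000, nat_lit 1100001, nat_lit 0, nat_lit 0, [nat_lit 780000, nat_lit 1435000, nat_lit 1271250], [nat_lit 8, nat_lit 40, nat_lit 80, nat_lit 80, nat_lit 1, nat_lit 249, nat_lit 40, nat_lit 7]⟩, C1.Rw.none,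
 ⟨nat_lit 5408, nat_lit 5478, ⟨.ofNat (nat_lit 430221), .ofNat (nat_lit 505154), .ofNat (nat_lit 435560), .ofNat (nat_lit 510493), .ofNat (nat_lit 431310), .ofNat (nat_lit 505711), .ofNat (nat_lit 436651), .ofNat (nat_lit 511052)⟩, ⟨.ofNat (nat_lit 0), .ofNat (nat_lit 0), .ofNat (nat_lit 0), .ofNat (nat_lit 0), .ofNat (nat_lit 0), .ofNat (nat_lit 0), .ofNat (nat_lit 0), .ofNat (nat_lit 0)⟩⟩, []⟩
noncomputable def p016_l96 : Lf2 := ⟨nat_lit 0, nat_lit 10, [nat_lit 0, nat_lit 5, nat_lit 5, nat_lit 20], false, nat_lit 0, nat_lit 0, nat_lit 0, nat_lit 0, ⟨nat_lit 111, nat_lit 889, nat_lit 0, nat_lit 6, nat_lit 173, nat_lit 0, nat_lit 0, nat_lit 0, nat_lit 0, nat_lit 0, nat_lit 0, nat_lit 0, nat_lit 0, nat_lit 0, nat_lit 0, nat_lit 5000000, false, false⟩,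
 nat_lit 0, nat_lit 8961, nat_lit 0, nat_lit 0, nat_lit 5702, nat_lit 863, nat_lit 0, nat_lit 0, nat_lit 0, nat_lit 198, nat_lit 0, nat_lit 0, nat_lit 0, nat_lit 0, nat_lit 0, nat_lit 889000, nat_lit 0, nat_lit 0, [(nat_lit 12, [(nat_lit 2, nat_lit 889)])],
 ⟨p016_k0, nat_lit 0, nat_lit 0, nat_lit 512, nat_lit 0, nat_lit 634572, [nat_lit 2440294801, nat_lit 2424099600, nat_lit 831096000], [], [nat_lit 21299921913, nat_lit 21410562164, nat_lit 22623632498, nat_lit 22226001818], nat_lit 1271250, nat_lit 1271250, nat_lit 490000, nat_lit 1100001, nat_lit 0, nat_lit 0, [nat_lit 780000, nat_lit 1435000, nat_lit 1271250], [nat_lit 8, nat_lit 40, nat_lit 80, nat_lit 80, nat_lit 1, nat_lit 249, nat_lit 40, nat_lit 7]⟩, ⟨p016_k36, nat_lit 0, nat_lit 0, nat_lit 182, nat_lit 0, nat_lit 0, [nat_lit 520368000, nat_lit 884448000, nat_lit 1092462000], [], [nat_lit 2004866313, nat_lit 2056146370, nat_lit 2017064778,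 nat_lit 2062492770], nat_lit 0, nat_lit 0, nat_lit 0, nat_lit 0, nat_lit 0, nat_lit 0, [], [nat_lit 29, nat_lit 40, nat_lit 80, nat_lit 80, nat_lit 17, nat_lit 345, nat_lit 125, nat_lit 10]⟩,
 ⟨nat_lit 5408, nat_lit 5478, ⟨.ofNat (nat_lit 355288), .ofNat (nat_lit 505154), .ofNat (nat_lit 360628), .ofNat (nat_lit 510493), .ofNat (nat_lit 356907), .ofNat (nat_lit 505711), .ofNat (nat_lit 362248), .ofNat (nat_lit 511052)⟩, ⟨.ofNat (nat_lit 0), .ofNat (nat_lit 0), .ofNat (nat_lit 0), .ofNat (nat_lit 0), .ofNat (nat_lit 0), .ofNat (nat_lit 0), .ofNat (nat_lit 0), .ofNat (nat_lit 0)⟩⟩, []⟩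
noncomputable def p016_l97 : Lf2 := ⟨nat_lit 0, nat_lit 10, [nat_lit 0, nat_lit 5, nat_lit 5, nat_lit 20], false, nat_lit 0, nat_lit 0, nat_lit 0, nat_lit 0, ⟨nat_lit 181, nat_lit 819, nat_lit 0, nat_lit 6, nat_lit 173, nat_lit 0, nat_lit 0, nat_lit 0, nat_lit 0, nat_lit 0, nat_lit 0, nat_lit 0, nat_lit 0, nat_lit 0, nat_lit 0, nat_lit 5000000, false, false⟩,
 nat_lit 0, nat_lit 9601, nat_lit 0, nat_lit 0, nat_lit 6189, nat_lit 1406, nat_lit 222, nat_lit 0, nat_lit 0, nat_lit 324, nat_lit 0, nat_lit 0, nat_lit 0, nat_lit 0, nat_lit 0, nat_lit 819000, nat_lit 0, nat_lit 0, [(nat_lit 12, [(nat_lit 2, nat_lit 819)])],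
 ⟨p016_k24, nat_lit 0, nat_lit 0, nat_lit 565, nat_lit 0, nat_lit 684662, [nat_lit 2506570801, nat_lit 2725351600, nat_lit 1540616000], [], [nat_lit 20077405249, nat_lit 20163979847, nat_lit 21944017934, nat_lit 21660083943], nat_lit 1271250, nat_lit 1271250, nat_lit 490000, nat_lit 1100001, nat_lit 0, nat_lit 0, [nat_lit 780000, nat_lit 1435000, nat_lit 1271250], [nat_lit 8, nat_lit 40, nat_lit 80, nat_lit 80, nat_lit 1, nat_lit 249, nat_lit 40, nat_lit 7]⟩, ⟨p016_k36, nat_lit 0, nat_lit 0, nat_lit 181, nat_lit 0, nat_lit 0, [nat_lit 848528000, nat_lit 1442208000, nat_lit 1781402000], [], [nat_lit 3261990200, nat_lit 3311745223, nat_lit 3287308279, nat_lit 3328851128], nat_lit 0, nat_lit 0, nat_lit 0, nat_lit 0, nat_lit 0, nat_lit 0, [], [nat_lit 29, nat_lit 40, nat_lit 80, nat_lit 80, nat_lit 17, nat_lit 345, nat_lit 125, nat_lit 10]⟩,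
 ⟨nat_lit 5361, nat_lit 5409, ⟨.ofNat (nat_lit 356907), .ofNat (nat_lit 505712), .ofNat (nat_lit 360112), .ofNat (nat_lit 508916), .ofNat (nat_lit 357986), .ofNat (nat_lit 506085), .ofNat (nat_lit 361191), .ofNat (nat_lit 509290)⟩, ⟨.ofNat (nat_lit 0), .ofNat (nat_lit 0), .ofNat (nat_lit 0), .ofNat (nat_lit 0), .ofNat (nat_lit 0), .ofNat (nat_lit 0), .ofNat (nat_lit 0), .ofNat (nat_lit 0)⟩⟩, []⟩
noncomputable def p016_l98 : Lf2 := ⟨nat_lit 0, nat_lit 10, [nat_lit 0, nat_lit 5, nat_lit 5, nat_lit 20], true, nat_lit 0, nat_lit 0, nat_lit 0, nat_lit 0, ⟨nat_lit 0, nat_lit 1000, nat_lit 0, nat_lit 6, nat_lit 160, nat_lit 0, nat_lit 0, nat_lit 0, nat_lit 0, nat_lit 0, nat_lit 0, nat_lit 0, nat_lit 0, nat_lit 0, nat_lit 0, nat_lit 5000000, false, false⟩,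
 nat_lit 0, nat_lit 8836, nat_lit 0, nat_lit 0, nat_lit 5696, nat_lit 0, nat_lit 0, nat_lit 0, nat_lit 0, nat_lit 0, nat_lit 0, nat_lit 0, nat_lit 0, nat_lit 0, nat_lit 12, nat_lit 1000000, nat_lit 0, nat_lit 0, [(nat_lit 12, [(nat_lit 2, nat_lit 1000)])],
 ⟨p016_k24, nat_lit 0, nat_lit 0, nat_lit 572, nat_lit 0, nat_lit 702437, [nat_lit 2479200001, nat_lit 2186400000, nat_lit 42000000], [], [nat_lit 18868360172, nat_lit 18951224436, nat_lit 18815331775, nat_lit 18898307827], nat_lit 1271250, nat_lit 1271250, nat_lit 490000, nat_lit 780000, nat_lit 0, nat_lit 0, [nat_lit 780000, nat_lit 1435000, nat_lit 1271250], [nat_lit 8, nat_lit 40, nat_lit 80, nat_lit 80, nat_lit 1, nat_lit 238, nat_lit 30, nat_lit 7]⟩, C1.Rw.none,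
 ⟨nat_lit 5361, nat_lit 5409, ⟨.ofNat (nat_lit 360112), .ofNat (nat_lit 434514), .ofNat (nat_lit 362248), .ofNat (nat_lit 436651), .ofNat (nat_lit 361191), .ofNat (nat_lit 435241), .ofNat (nat_lit 363328), .ofNat (nat_lit 437378)⟩, ⟨.ofNat (nat_lit 0), .ofNat (nat_lit 0), .ofNat (nat_lit 0), .ofNat (nat_lit 0), .ofNat (nat_lit 0), .ofNat (nat_lit 0), .ofNat (nat_lit 0), .ofNat (nat_lit 0)⟩⟩, []⟩
noncomputable def p016_l99 : Lf2 := ⟨nat_lit 0, nat_lit 10, [nat_lit 0, nat_lit 5, nat_lit 5, nat_lit 20], false, nat_lit 0, nat_lit 0, nat_lit 0, nat_lit 0, ⟨nat_lit 1000, nat_lit 0, nat_lit 0, nat_lit 0, nat_lit 0, nat_lit 0, nat_lit 0, nat_lit 0, nat_lit 0, nat_lit 0, nat_lit 0, nat_lit 0, nat_lit 0, nat_lit 0, nat_lit 0, nat_lit 0, false, false⟩,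
 nat_lit 0, nat_lit 10701, nat_lit 0, nat_lit 0, nat_lit 6898, nat_lit 7174, nat_lit 1793, nat_lit 0, nat_lit 0, nat_lit 2570, nat_lit 0, nat_lit 0, nat_lit 0, nat_lit 0, nat_lit 0, nat_lit 0, nat_lit 0, nat_lit 0, [],
 ⟨p016_k30, nat_lit 0, nat_lit 0, nat_lit 540, nat_lit 0, nat_lit 702437, [nat_lit 3282000000, nat_lit 4688000000, nat_lit 9842000000], [], [nat_lit 22690153636, nat_lit 22408697952, nat_lit 26348784974, nat_lit 26032324048], nat_lit 1271250, nat_lit 1271250, nat_lit 780000, nat_lit 1100001, nat_lit 0, nat_lit 0, [nat_lit 780000, nat_lit 1100000, nat_lit 2127500], [nat_lit 42, nat_lit 40, nat_lit 80, nat_lit 80, nat_lit 13, nat_lit 249, nat_lit 40, nat_lit 7]⟩, ⟨p016_k37, nat_lit 0, nat_lit 0, nat_lit 160, nat_lit 0, nat_lit 0, [nat_lit 4688000000, nat_lit 6250000000, nat_lit 9842000000], [], [nat_lit 16406566632, nat_lit 16545447792, nat_lit 16403265043, nat_lit 16594333488],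 nat_lit 0, nat_lit 0, nat_lit 0, nat_lit 0, nat_lit 0, nat_lit 0, [], [nat_lit 11, nat_lit 40, nat_lit 80, nat_lit 80, nat_lit 1, nat_lit 345, nat_lit 125, nat_lit 10]⟩,
 zbF0, []⟩
noncomputable def p016_l100 : Lf2 := ⟨nat_lit 0, nat_lit 10, [nat_lit 0, nat_lit 5, nat_lit 5, nat_lit 20], false, nat_lit 0, nat_lit 0, nat_lit 0, nat_lit 0, ⟨nat_lit 142, nat_lit 858, nat_lit 0, nat_lit 6, nat_lit 172, nat_lit 0, nat_lit 0, nat_lit 0, nat_lit 0, nat_lit 0, nat_lit 0, nat_lit 0, nat_lit 0, nat_lit 0, nat_lit 0, nat_lit 5000000, false, false⟩,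
 nat_lit 0, nat_lit 6066, nat_lit 0, nat_lit 0, nat_lit 3944, nat_lit 1020, nat_lit 853, nat_lit 0, nat_lit 0, nat_lit 413, nat_lit 0, nat_lit 0, nat_lit 0, nat_lit 0, nat_lit 0, nat_lit 343200, nat_lit 0, nat_lit 0, [(nat_lit 12, [(nat_lit 1, nat_lit 858)])],
 ⟨p016_k26, nat_lit 0, nat_lit 0, nat_lit 562, nat_lit 0, nat_lit 675249, [nat_lit 2210701200, nat_lit 2998426401, nat_lit 3659595200], [], [nat_lit 25033289816, nat_lit 24904656834, nat_lit 26103888020, nat_lit 25834868994], nat_lit 1271250, nat_lit 1271250, nat_lit 490000, nat_lit 1100001, nat_lit 0, nat_lit 0, [nat_lit 780000, nat_lit 1100000, nat_lit 2127500], [nat_lit 42, nat_lit 40, nat_lit 80, nat_lit 80, nat_lit 13, nat_lit 249, nat_lit 40, nat_lit 7]⟩, ⟨p016_k21, nat_lit 0, nat_lit 0, nat_lit 170, nat_lit 0, nat_lit 0, [nat_lit 665696000, nat_lit 887500000, nat_lit 1397564000], [], [nat_lit 2203972291, nat_lit 2259295158, nat_lit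 2296221695, nat_lit 2353767620], nat_lit 0, nat_lit 0, nat_lit 0, nat_lit 0, nat_lit 0, nat_lit 0, [], [nat_lit 11, nat_lit 40, nat_lit 80, nat_lit 80, nat_lit 1, nat_lit 345, nat_lit 125, nat_lit 10]⟩,
 ⟨nat_lit 5291, nat_lit 5362, ⟨.ofNat (nat_lit 352644), .ofNat (nat_lit 500742), .ofNat (nat_lit 357986), .ofNat (nat_lit 506084), .ofNat (nat_lit 354258), .ofNat (nat_lit 501302), .ofNat (nat_lit 359603), .ofNat (nat_lit 506646)⟩, ⟨.ofNat (nat_lit 0), .ofNat (nat_lit 0), .ofNat (nat_lit 0), .ofNat (nat_lit 0), .ofNat (nat_lit 0), .ofNat (nat_lit 0), .ofNat (nat_lit 0), .ofNat (nat_lit 0)⟩⟩, []⟩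
noncomputable def p016_l101 : Lf2 := ⟨nat_lit 0, nat_lit 10, [nat_lit 0, nat_lit 5, nat_lit 5, nat_lit 20], false, nat_lit 0, nat_lit 0, nat_lit 0, nat_lit 0, ⟨nat_lit 137, nat_lit 863, nat_lit 0, nat_lit 6, nat_lit 174, nat_lit 0, nat_lit 0, nat_lit 0, nat_lit 0, nat_lit 0, nat_lit 0, nat_lit 0, nat_lit 0, nat_lit 0, nat_lit 0, nat_lit 5000000, false, false⟩,
 nat_lit 0, nat_lit 6053, nat_lit 0, nat_lit 0, nat_lit 3935, nat_lit 978, nat_lit 847, nat_lit 0, nat_lit 0, nat_lit 379, nat_lit 0, nat_lit 0, nat_lit 0, nat_lit 0, nat_lit 0, nat_lit 345200, nat_lit 0, nat_lit 0, [(nat_lit 12, [(nat_lit 1, nat_lit 863)])],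
 ⟨p016_k26, nat_lit 0, nat_lit 0, nat_lit 570, nat_lit 0, nat_lit 701110, [nat_lit 2204458200, nat_lit 2988580400, nat_lit 3623567200], [], [nat_lit 25016498423, nat_lit 24895731304, nat_lit 26094258810, nat_lit 25827560404], nat_lit 1271250, nat_lit 1271250, nat_lit 490000, nat_lit 1100001, nat_lit 0, nat_lit 0, [nat_lit 780000, nat_lit 1100000, nat_lit 2127500], [nat_lit 42, nat_lit 40, nat_lit 80, nat_lit 80, nat_lit 13, nat_lit 249, nat_lit 40, nat_lit 7]⟩, ⟨p016_k38, nat_lit 0, nat_lit 0, nat_lit 171, nat_lit 0, nat_lit 0, [nat_lit 642256000, nat_lit 856250000, nat_lit 1348354000], [], [nat_lit 2180953942, nat_lit 2216980718, nat_lit 2224110097, nat_lit 2257299182], nat_lit 0, nat_lit 0, nat_lit 0, nat_lit 0, nat_lit 0, nat_lit 0, [], [nat_lit 11, nat_lit 40, nat_lit 80, nat_lit 80, nat_lit 1, nat_lit 345, nat_lit 125, nat_lit 10]⟩,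
 ⟨nat_lit 5291, nat_lit 5362, ⟨.ofNat (nat_lit 357986), .ofNat (nat_lit 506084), .ofNat (nat_lit 361191), .ofNat (nat_lit 509290), .ofNat (nat_lit 359603), .ofNat (nat_lit 506646), .ofNat (nat_lit 362810), .ofNat (nat_lit 509853)⟩, ⟨.ofNat (nat_lit 0), .ofNat (nat_lit 0), .ofNat (nat_lit 0), .ofNat (nat_lit 0), .ofNat (nat_lit 0), .ofNat (nat_lit 0), .ofNat (nat_lit 0), .ofNat (nat_lit 0)⟩⟩, []⟩
noncomputable def p016_l102 : Lf2 := ⟨nat_lit 0, nat_lit 10, [nat_lit 0, nat_lit 5, nat_lit 5, nat_lit 20], false, nat_lit 0, nat_lit 0, nat_lit 0, nat_lit 0, ⟨nat_lit 415, nat_lit 585, nat_lit 0, nat_lit 6, nat_lit 175, nat_lit 0, nat_lit 0, nat_lit 0, nat_lit 0, nat_lit 0, nat_lit 0, nat_lit 0, nat_lit 0, nat_lit 0, nat_lit 0, nat_lit 5000000, false, false⟩,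
 nat_lit 0, nat_lit 6603, nat_lit 0, nat_lit 0, nat_lit 4293, nat_lit 2946, nat_lit 1150, nat_lit 0, nat_lit 0, nat_lit 1083, nat_lit 0, nat_lit 0, nat_lit 0, nat_lit 0, nat_lit 0, nat_lit 234000, nat_lit 0, nat_lit 0, [(nat_lit 12, [(nat_lit 1, nat_lit 585)])],
 ⟨p016_k26, nat_lit 0, nat_lit 0, nat_lit 576, nat_lit 0, nat_lit 718482, [nat_lit 2551569000, nat_lit 3536018000, nat_lit 5626724000], [], [nat_lit 26064615746, nat_lit 25912376912, nat_lit 27050658693, nat_lit 26779887732], nat_lit 1271250, nat_lit 1271250, nat_lit 490000, nat_lit 1100001, nat_lit 0, nat_lit 0, [nat_lit 780000, nat_lit 1100000, nat_lit 2127500], [nat_lit 42, nat_lit 40, nat_lit 80, nat_lit 80, nat_lit 13, nat_lit 249, nat_lit 40, nat_lit 7]⟩, ⟨p016_k37, nat_lit 0, nat_lit 0, nat_lit 173, nat_lit 0, nat_lit 0, [nat_lit 1945520000, nat_lit 2593750000, nat_lit 4084430000], [], [nat_lit 6754725282, nat_lit 6815235094,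 nat_lit 6819466162, nat_lit 6886267766], nat_lit 0, nat_lit 0, nat_lit 0, nat_lit 0, nat_lit 0, nat_lit 0, [], [nat_lit 11, nat_lit 40, nat_lit 80, nat_lit 80, nat_lit 1, nat_lit 345, nat_lit 125, nat_lit 10]⟩,
 ⟨nat_lit 5291, nat_lit 5362, ⟨.ofNat (nat_lit 361191), .ofNat (nat_lit 509290), .ofNat (nat_lit 363328), .ofNat (nat_lit 511427), .ofNat (nat_lit 362810), .ofNat (nat_lit 509853), .ofNat (nat_lit 364948), .ofNat (nat_lit 511991)⟩, ⟨.ofNat (nat_lit 0), .ofNat (nat_lit 0), .ofNat (nat_lit 0), .ofNat (nat_lit 0), .ofNat (nat_lit 0), .ofNat (nat_lit 0), .ofNat (nat_lit 0), .ofNat (nat_lit 0)⟩⟩, []⟩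
noncomputable def p016_l103 : Lf2 := ⟨nat_lit 0, nat_lit 10, [nat_lit 0, nat_lit 5, nat_lit 5, nat_lit 20], true, nat_lit 0, nat_lit 0, nat_lit 0, nat_lit 0, ⟨nat_lit 0, nat_lit 1000, nat_lit 0, nat_lit 6, nat_lit 173, nat_lit 0, nat_lit 0, nat_lit 0, nat_lit 0, nat_lit 0, nat_lit 0, nat_lit 0, nat_lit 0, nat_lit 0, nat_lit 0, nat_lit 5000000, false, false⟩,
 nat_lit 0, nat_lit 6502, nat_lit 0, nat_lit 0, nat_lit 4281, nat_lit 0, nat_lit 530, nat_lit 0, nat_lit 0, nat_lit 0, nat_lit 0, nat_lit 0, nat_lit 0, nat_lit 0, nat_lit 0, nat_lit 400000, nat_lit 0, nat_lit 0, [(nat_lit 12, [(nat_lit 1, nat_lit 1000)])],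
 ⟨p016_k39, nat_lit 0, nat_lit 0, nat_lit 496, nat_lit 0, nat_lit 722066, [nat_lit 2033400000, nat_lit 2574800000, nat_lit 2711866667], [], [nat_lit 23447867029, nat_lit 23228226899, nat_lit 23083707902, nat_lit 23154385068], nat_lit 1271250, nat_lit 1271250, nat_lit 490000, nat_lit 1100001, nat_lit 0, nat_lit 0, [nat_lit 780000, nat_lit 1100000, nat_lit 1785000], [nat_lit 36, nat_lit 40, nat_lit 80, nat_lit 80, nat_lit 7, nat_lit 249, nat_lit 40, nat_lit 8]⟩, C1.Rw.none,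
 ⟨nat_lit 5244, nat_lit 5292, ⟨.ofNat (nat_lit 354258), .ofNat (nat_lit 501302), .ofNat (nat_lit 364948), .ofNat (nat_lit 511991), .ofNat (nat_lit 355334), .ofNat (nat_lit 501676), .ofNat (nat_lit 366027), .ofNat (nat_lit 512369)⟩, ⟨.ofNat (nat_lit 0), .ofNat (nat_lit 0), .ofNat (nat_lit 0), .ofNat (nat_lit 0), .ofNat (nat_lit 0), .ofNat (nat_lit 0), .ofNat (nat_lit 0), .ofNat (nat_lit 0)⟩⟩, []⟩
noncomputable def p016_l104 : Lf2 := ⟨nat_lit 0, nat_lit 10, [nat_lit 0, nat_lit 5, nat_lit 5, nat_lit 20], true, nat_lit 0, nat_lit 0, nat_lit 0, nat_lit 0, ⟨nat_lit 0, nat_lit 1000, nat_lit 0, nat_lit 6, nat_lit 171, nat_lit 0, nat_lit 0, nat_lit 0, nat_lit 0, nat_lit 0, nat_lit 0, nat_lit 0, nat_lit 0, nat_lit 0, nat_lit 0, nat_lit 5000000, false, false⟩,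
 nat_lit 0, nat_lit 9160, nat_lit 0, nat_lit 0, nat_lit 5828, nat_lit 0, nat_lit 0, nat_lit 0, nat_lit 0, nat_lit 0, nat_lit 0, nat_lit 0, nat_lit 0, nat_lit 0, nat_lit 0, nat_lit 799600, nat_lit 0, nat_lit 0, [(nat_lit 12, [(nat_lit 1, nat_lit 334), (nat_lit 2, nat_lit 666)])],
 ⟨p016_k0, nat_lit 0, nat_lit 0, nat_lit 516, nat_lit 0, nat_lit 642401, [nat_lit 2246088801, nat_lit 2205183200, nat_lit 684753600], [], [nat_lit 20146179968, nat_lit 20564318728, nat_lit 21523595746, nat_lit 20380532876], nat_lit 1271250, nat_lit 1271250, nat_lit 490000, nat_lit 1100001, nat_lit 0, nat_lit 0, [nat_lit 780000, nat_lit 1435000, nat_lit 1271250], [nat_lit 8, nat_lit 40, nat_lit 80, nat_lit 80, nat_lit 1, nat_lit 249, nat_lit 40, nat_lit 7]⟩, C1.Rw.none,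
 ⟨nat_lit 5244, nat_lit 5478, ⟨.ofNat (nat_lit 339271), .ofNat (nat_lit 489134), .ofNat (nat_lit 360628), .ofNat (nat_lit 510489), .ofNat (nat_lit 344641), .ofNat (nat_lit 490981), .ofNat (nat_lit 366027), .ofNat (nat_lit 512365)⟩, ⟨.ofNat (nat_lit 0), .ofNat (nat_lit 0), .ofNat (nat_lit 0), .ofNat (nat_lit 0), .ofNat (nat_lit 0), .ofNat (nat_lit 0), .ofNat (nat_lit 0), .ofNat (nat_lit 0)⟩⟩, []⟩
noncomputable def p016_l105 : Lf2 := ⟨nat_lit 0, nat_lit 10, [nat_lit 0, nat_lit 5, nat_lit 5, nat_lit 20], false, nat_lit 0, nat_lit 0, nat_lit 0, nat_lit 0, ⟨nat_lit 42, nat_lit 958, nat_lit 0, nat_lit 6, nat_lit 153, nat_lit 0, nat_lit 0, nat_lit 0, nat_lit 0, nat_lit 0, nat_lit 0, nat_lit 0, nat_lit 0, nat_lit 0, nat_lit 0, nat_lit 5000000, false, false⟩,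
 nat_lit 0, nat_lit 8543, nat_lit 0, nat_lit 0, nat_lit 5673, nat_lit 279, nat_lit 754, nat_lit 0, nat_lit 0, nat_lit 119, nat_lit 0, nat_lit 0, nat_lit 0, nat_lit 0, nat_lit 0, nat_lit 383200, nat_lit 0, nat_lit 0, [(nat_lit 12, [(nat_lit 1, nat_lit 958)])],
 ⟨p016_k27, nat_lit 0, nat_lit 0, nat_lit 530, nat_lit 0, nat_lit 812298, [nat_lit 2085841200, nat_lit 2663554400, nat_lit 2929348267], [], [nat_lit 17279824261, nat_lit 17721744071, nat_lit 18866463423, nat_lit 17819362158], nat_lit 1271250, nat_lit 1271250, nat_lit 490000, nat_lit 780000, nat_lit 0, nat_lit 0, [nat_lit 780000, nat_lit 1100000, nat_lit 1785000], [nat_lit 36, nat_lit 40, nat_lit 80, nat_lit 80, nat_lit 7, nat_lit 238, nat_lit 30, nat_lit 8]⟩, ⟨p016_k3, nat_lit 0, nat_lit 0, nat_lit 220, nat_lit 0, nat_lit 0, [nat_lit 196896000, nat_lit 262500000, nat_lit 498624000], [], [nat_lit 779664045, nat_lit 886315005, nat_lit 780259707,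 nat_lit 880842330], nat_lit 0, nat_lit 0, nat_lit 0, nat_lit 0, nat_lit 0, nat_lit 0, [], [nat_lit 48, nat_lit 40, nat_lit 80, nat_lit 80, nat_lit 12, nat_lit 317, nat_lit 100, nat_lit 8]⟩,
 ⟨nat_lit 5000, nat_lit 5245, ⟨.ofNat (nat_lit 323256), .ofNat (nat_lit 396427), .ofNat (nat_lit 366025), .ofNat (nat_lit 439194), .ofNat (nat_lit 328570), .ofNat (nat_lit 399998), .ofNat (nat_lit 371426), .ofNat (nat_lit 442852)⟩, ⟨.ofNat (nat_lit 0), .ofNat (nat_lit 0), .ofNat (nat_lit 0), .ofNat (nat_lit 0), .ofNat (nat_lit 0), .ofNat (nat_lit 0), .ofNat (nat_lit 0), .ofNat (nat_lit 0)⟩⟩, []⟩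
noncomputable def p016_l106 : Lf2 := ⟨nat_lit 0, nat_lit 10, [nat_lit 0, nat_lit 5, nat_lit 5, nat_lit 20], false, nat_lit 0, nat_lit 0, nat_lit 0, nat_lit 0, ⟨nat_lit 884, nat_lit 116, nat_lit 0, nat_lit 6, nat_lit 182, nat_lit 0, nat_lit 0, nat_lit 0, nat_lit 0, nat_lit 0, nat_lit 0, nat_lit 0, nat_lit 0, nat_lit 0, nat_lit 0, nat_lit 5000000, false, false⟩,
 nat_lit 0, nat_lit 10700, nat_lit 0, nat_lit 0, nat_lit 7106, nat_lit 5876, nat_lit 1542, nat_lit 0, nat_lit 0, nat_lit 2489, nat_lit 0, nat_lit 0, nat_lit 0, nat_lit 0, nat_lit 0, nat_lit 29000, nat_lit 0, nat_lit 0, [(nat_lit 12, [(nat_lit 0, nat_lit 116)])],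
 ⟨p016_k27, nat_lit 0, nat_lit 0, nat_lit 516, nat_lit 0, nat_lit 812298, [nat_lit 3175512001, nat_lit 4437208000, nat_lit 7417742400], [], [nat_lit 18992608215, nat_lit 19523504677, nat_lit 20350331684, nat_lit 19658528833], nat_lit 1271250, nat_lit 1271250, nat_lit 780000, nat_lit 1100001, nat_lit 0, nat_lit 0, [nat_lit 780000, nat_lit 1100000, nat_lit 1785000], [nat_lit 36, nat_lit 40, nat_lit 80, nat_lit 80, nat_lit 7, nat_lit 249, nat_lit 40, nat_lit 8]⟩, ⟨p016_k3, nat_lit 0, nat_lit 0, nat_lit 206, nat_lit 0, nat_lit 0, [nat_lit 4144192000, nat_lit 5525000000, nat_lit 10494848000], [], [nat_lit 16494744959, nat_lit 18535021232, nat_lit 16506794087, nat_lit 18848593296], nat_lit 0, nat_lit 0, nat_lit 0, nat_lit 0, nat_lit 0, nat_lit 0, [], [nat_lit 48, nat_lit 40, nat_lit 80, nat_lit 80, nat_lit 12, nat_lit 345, nat_lit 125, nat_lit 9]⟩,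
 ⟨nat_lit 5000, nat_lit 5245, ⟨.ofNat (nat_lit 396427), .ofNat (nat_lit 469596), .ofNat (nat_lit 439194), .ofNat (nat_lit 512362), .ofNat (nat_lit 399998), .ofNat (nat_lit 471425), .ofNat (nat_lit 442852), .ofNat (nat_lit 514278)⟩, ⟨.ofNat (nat_lit 0), .ofNat (nat_lit 0), .ofNat (nat_lit 0), .ofNat (nat_lit 0), .ofNat (nat_lit 0), .ofNat (nat_lit 0), .ofNat (nat_lit 0), .ofNat (nat_lit 0)⟩⟩, []⟩
noncomputable def p016_l107 : Lf2 := ⟨nat_lit 0, nat_lit 10, [nat_lit 0, nat_lit 5, nat_lit 5, nat_lit 20], true, nat_lit 0, nat_lit 0, nat_lit 0, nat_lit 0, ⟨nat_lit 0, nat_lit 1000, nat_lit 0, nat_lit 6, nat_lit 167, nat_lit 0, nat_lit 0, nat_lit 0, nat_lit 0, nat_lit 0, nat_lit 0, nat_lit 0, nat_lit 0, nat_lit 0, nat_lit 0, nat_lit 5000000, false, false⟩,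
 nat_lit 0, nat_lit 8402, nat_lit 0, nat_lit 0, nat_lit 5346, nat_lit 0, nat_lit 96, nat_lit 0, nat_lit 0, nat_lit 0, nat_lit 0, nat_lit 0, nat_lit 0, nat_lit 0, nat_lit 0, nat_lit 922000, nat_lit 0, nat_lit 0, [(nat_lit 12, [(nat_lit 1, nat_lit 130), (nat_lit 2, nat_lit 870)])],
 ⟨p016_k0, nat_lit 0, nat_lit 0, nat_lit 485, nat_lit 0, nat_lit 554523, [nat_lit 2300516001, nat_lit 2047124000, nat_lit 86952000], [], [nat_lit 19323208738, nat_lit 20361118396, nat_lit 22363694610, nat_lit 20186305666], nat_lit 1271250, nat_lit 1271250, nat_lit 490000, nat_lit 1100001, nat_lit 0, nat_lit 0, [nat_lit 780000, nat_lit 1435000, nat_lit 1271250], [nat_lit 8, nat_lit 40, nat_lit 80, nat_lit 80, nat_lit 1, nat_lit 249, nat_lit 40, nat_lit 7]⟩, C1.Rw.none,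
 ⟨nat_lit 5000, nat_lit 5478, ⟨.ofNat (nat_lit 317913), .ofNat (nat_lit 467773), .ofNat (nat_lit 360625), .ofNat (nat_lit 510468), .ofNat (nat_lit 328570), .ofNat (nat_lit 471421), .ofNat (nat_lit 371424), .ofNat (nat_lit 514258)⟩, ⟨.ofNat (nat_lit 0), .ofNat (nat_lit 0), .ofNat (nat_lit 0), .ofNat (nat_lit 0), .ofNat (nat_lit 0), .ofNat (nat_lit 0), .ofNat (nat_lit 0), .ofNat (nat_lit 0)⟩⟩, []⟩
noncomputable def p016_l108 : Lf2 := ⟨nat_lit 0, nat_lit 10, [nat_lit 0, nat_lit 5, nat_lit 5, nat_lit 20], false, nat_lit 0, nat_lit 0, nat_lit 0, nat_lit 0, ⟨nat_lit 1000, nat_lit 0, nat_lit 0, nat_lit 0, nat_lit 0, nat_lit 0, nat_lit 0, nat_lit 0, nat_lit 0, nat_lit 0, nat_lit 0, nat_lit 0, nat_lit 0, nat_lit 0, nat_lit 0, nat_lit 0, false, false⟩,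
 nat_lit 0, nat_lit 12266, nat_lit 0, nat_lit 0, nat_lit 7805, nat_lit 6736, nat_lit 1856, nat_lit 0, nat_lit 0, nat_lit 2304, nat_lit 0, nat_lit 0, nat_lit 0, nat_lit 0, nat_lit 0, nat_lit 0, nat_lit 0, nat_lit 0, [],
 ⟨p016_k2, nat_lit 0, nat_lit 0, nat_lit 574, nat_lit 0, nat_lit 800260, [nat_lit 3282000000, nat_lit 4688000000, nat_lit 9842000000], [], [nat_lit 20028611900, nat_lit 20562197585, nat_lit 26131340420, nat_lit 24317060365], nat_lit 1271250, nat_lit 1271250, nat_lit 1100001, nat_lit 1785000, nat_lit 0, nat_lit 0, [nat_lit 780000, nat_lit 1100000, nat_lit 2127500], [nat_lit 42, nat_lit 40, nat_lit 80, nat_lit 80, nat_lit 13, nat_lit 272, nat_lit 60, nat_lit 8]⟩, ⟨p016_k3, nat_lit 0, nat_lit 0, nat_lit 193, nat_lit 0, nat_lit 0, [nat_lit 4688000000, nat_lit 6250000000, nat_lit 11872000000], [], [nat_lit 21042235648, nat_lit 23222322816, nat_lit 23383203616, nat_lit 25509449408],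 nat_lit 0, nat_lit 0, nat_lit 0, nat_lit 0, nat_lit 0, nat_lit 0, [], [nat_lit 48, nat_lit 40, nat_lit 80, nat_lit 80, nat_lit 12, nat_lit 373, nat_lit 150, nat_lit 10]⟩,
 zbF0, []⟩
noncomputable def p016_l109 : Lf2 := ⟨nat_lit 0, nat_lit 10, [nat_lit 0, nat_lit 5, nat_lit 5, nat_lit 20], false, nat_lit 0, nat_lit 0, nat_lit 0, nat_lit 0, ⟨nat_lit 1000, nat_lit 0, nat_lit 0, nat_lit 0, nat_lit 0, nat_lit 0, nat_lit 0, nat_lit 0, nat_lit 0, nat_lit 0, nat_lit 0, nat_lit 0, nat_lit 0, nat_lit 0, nat_lit 0, nat_lit 0, false, false⟩,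
 nat_lit 0, nat_lit 11030, nat_lit 0, nat_lit 0, nat_lit 7325, nat_lit 6736, nat_lit 1591, nat_lit 0, nat_lit 0, nat_lit 2057, nat_lit 0, nat_lit 0, nat_lit 0, nat_lit 0, nat_lit 0, nat_lit 0, nat_lit 0, nat_lit 0, [],
 ⟨p016_k27, nat_lit 0, nat_lit 0, nat_lit 513, nat_lit 0, nat_lit 840433, [nat_lit 3282000000, nat_lit 4688000000, nat_lit 7968000000], [], [nat_lit 19358382325, nat_lit 19891846400, nat_lit 22775606475, nat_lit 23973349650], nat_lit 1271250, nat_lit 1271250, nat_lit 1100001, nat_lit 1785000, nat_lit 0, nat_lit 0, [nat_lit 780000, nat_lit 1100000, nat_lit 1785000], [nat_lit 36, nat_lit 40, nat_lit 80, nat_lit 80, nat_lit 7, nat_lit 272, nat_lit 60, nat_lit 9]⟩, ⟨p016_k3, nat_lit 0, nat_lit 0, nat_lit 193, nat_lit 0, nat_lit 0, [nat_lit 4688000000, nat_lit 6250000000, nat_lit 11872000000], [], [nat_lit 22225520023, nat_lit 24405607191, nat_lit 24566487991, nat_lit 26692733783],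 nat_lit 0, nat_lit 0, nat_lit 0, nat_lit 0, nat_lit 0, nat_lit 0, [], [nat_lit 48, nat_lit 40, nat_lit 80, nat_lit 80, nat_lit 12, nat_lit 373, nat_lit 150, nat_lit 10]⟩,
 zbF0, []⟩
noncomputable def p016_l110 : Lf2 := ⟨nat_lit 0, nat_lit 10, [nat_lit 0, nat_lit 5, nat_lit 5, nat_lit 20], true, nat_lit 0, nat_lit 0, nat_lit 0, nat_lit 0, ⟨nat_lit 0, nat_lit 1000, nat_lit 0, nat_lit 6, nat_lit 158, nat_lit 0, nat_lit 0, nat_lit 0, nat_lit 0, nat_lit 0, nat_lit 0, nat_lit 0, nat_lit 0, nat_lit 0, nat_lit 0, nat_lit 5000000, false, false⟩,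
 nat_lit 0, nat_lit 6786, nat_lit 0, nat_lit 0, nat_lit 4697, nat_lit 0, nat_lit 865, nat_lit 0, nat_lit 0, nat_lit 0, nat_lit 0, nat_lit 0, nat_lit 0, nat_lit 0, nat_lit 0, nat_lit 400000, nat_lit 0, nat_lit 0, [(nat_lit 15, [(nat_lit 1, nat_lit 1000)])],
 ⟨p016_k23, nat_lit 0, nat_lit 0, nat_lit 560, nat_lit 0, nat_lit 835608, [nat_lit 2020200000, nat_lit 2336800001, nat_lit 2343200000], [], [nat_lit 19141929058, nat_lit 19372124707, nat_lit 19945592736, nat_lit 19556484706], nat_lit 1271250, nat_lit 1271250, nat_lit 279600, nat_lit 1100001, nat_lit 0, nat_lit 0, [nat_lit 780000, nat_lit 1100000, nat_lit 1785000], [nat_lit 36, nat_lit 40, nat_lit 80, nat_lit 80, nat_lit 7, nat_lit 249, nat_lit 40, nat_lit 8]⟩, C1.Rw.none,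
 ⟨nat_lit 4873, nat_lit 5000, ⟨.ofNat (nat_lit 271427), .ofNat (nat_lit 471426), .ofNat (nat_lit 314284), .ofNat (nat_lit 514282), .ofNat (nat_lit 274772), .ofNat (nat_lit 472347), .ofNat (nat_lit 317684), .ofNat (nat_lit 515259)⟩, ⟨.ofNat (nat_lit 0), .ofNat (nat_lit 0), .ofNat (nat_lit 0), .ofNat (nat_lit 0), .ofNat (nat_lit 0), .ofNat (nat_lit 0), .ofNat (nat_lit 0), .ofNat (nat_lit 0)⟩⟩, []⟩
noncomputable def p016_l111 : Lf2 := ⟨nat_lit 0, nat_lit 10, [nat_lit 0, nat_lit 5, nat_lit 5, nat_lit 20], true, nat_lit 0, nat_lit 0, nat_lit 0, nat_lit 0, ⟨nat_lit 0, nat_lit 1000, nat_lit 0, nat_lit 6, nat_lit 160, nat_lit 0, nat_lit 0, nat_lit 0, nat_lit 0, nat_lit 0, nat_lit 0, nat_lit 0, nat_lit 0, nat_lit 0, nat_lit 0, nat_lit 5000000, false, false⟩,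
 nat_lit 0, nat_lit 6844, nat_lit 0, nat_lit 0, nat_lit 4835, nat_lit 0, nat_lit 692, nat_lit 0, nat_lit 0, nat_lit 0, nat_lit 0, nat_lit 0, nat_lit 0, nat_lit 0, nat_lit 0, nat_lit 400000, nat_lit 0, nat_lit 0, [(nat_lit 15, [(nat_lit 1, nat_lit 1000)])],
 ⟨p016_k40, nat_lit 0, nat_lit 0, nat_lit 574, nat_lit 0, nat_lit 854278, [nat_lit 2020200000, nat_lit 2336800001, nat_lit 2343200000], [], [nat_lit 19004760109, nat_lit 19624913846, nat_lit 19649974967, nat_lit 19239286987], nat_lit 1271250, nat_lit 1271250, nat_lit 304850, nat_lit 1100001, nat_lit 0, nat_lit 0, [nat_lit 780000, nat_lit 1100000, nat_lit 1785000], [nat_lit 36, nat_lit 40, nat_lit 80, nat_lit 80, nat_lit 7, nat_lit 249, nat_lit 40, nat_lit 8]⟩, C1.Rw.none,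
 ⟨nat_lit 4743, nat_lit 4874, ⟨.ofNat (nat_lit 281828), .ofNat (nat_lit 472347), .ofNat (nat_lit 324740), .ofNat (nat_lit 515258), .ofNat (nat_lit 285086), .ofNat (nat_lit 473274), .ofNat (nat_lit 328061), .ofNat (nat_lit 516249)⟩, ⟨.ofNat (nat_lit 0), .ofNat (nat_lit 0), .ofNat (nat_lit 0), .ofNat (nat_lit 0), .ofNat (nat_lit 0), .ofNat (nat_lit 0), .ofNat (nat_lit 0), .ofNat (nat_lit 0)⟩⟩, []⟩
noncomputable def p016_l112 : Lf2 := ⟨nat_lit 0, nat_lit 10, [nat_lit 0, nat_lit 5, nat_lit 5, nat_lit 20], true, nat_lit 0, nat_lit 0, nat_lit 0, nat_lit 0, ⟨nat_lit 0, nat_lit 1000, nat_lit 0, nat_lit 6, nat_lit 162, nat_lit 0, nat_lit 0, nat_lit 0, nat_lit 0, nat_lit 0, nat_lit 0, nat_lit 0, nat_lit 0, nat_lit 0, nat_lit 0, nat_lit 5000000, false, false⟩,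
 nat_lit 0, nat_lit 6724, nat_lit 0, nat_lit 0, nat_lit 4847, nat_lit 0, nat_lit 532, nat_lit 0, nat_lit 0, nat_lit 0, nat_lit 0, nat_lit 0, nat_lit 0, nat_lit 0, nat_lit 0, nat_lit 400000, nat_lit 0, nat_lit 0, [(nat_lit 15, [(nat_lit 1, nat_lit 1000)])],
 ⟨p016_k34, nat_lit 0, nat_lit 0, nat_lit 584, nat_lit 0, nat_lit 872432, [nat_lit 2020200000, nat_lit 2354866667, nat_lit 2328333333], [], [nat_lit 19385028345, nat_lit 20005077083, nat_lit 19388532930, nat_lit 19600271276], nat_lit 1271250, nat_lit 1271250, nat_lit 330400, nat_lit 1100001, nat_lit 0, nat_lit 0, [nat_lit 780000, nat_lit 1435000, nat_lit 1271250], [nat_lit 18, nat_lit 40, nat_lit 80, nat_lit 80, nat_lit 2, nat_lit 249, nat_lit 40, nat_lit 8]⟩, C1.Rw.none,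
 ⟨nat_lit 4609, nat_lit 4744, ⟨.ofNat (nat_lit 292055), .ofNat (nat_lit 473274), .ofNat (nat_lit 335030), .ofNat (nat_lit 516249), .ofNat (nat_lit 295229), .ofNat (nat_lit 474209), .ofNat (nat_lit 338277), .ofNat (nat_lit 517257)⟩, ⟨.ofNat (nat_lit 0), .ofNat (nat_lit 0), .ofNat (nat_lit 0), .ofNat (nat_lit 0), .ofNat (nat_lit 0), .ofNat (nat_lit 0), .ofNat (nat_lit 0), .ofNat (nat_lit 0)⟩⟩, []⟩
noncomputable def p016_l113 : Lf2 := ⟨nat_lit 0, nat_lit 10, [nat_lit 0, nat_lit 5, nat_lit 5, nat_lit 20], true, nat_lit 0, nat_lit 0, nat_lit 0, nat_lit 0, ⟨nat_lit 0, nat_lit 1000, nat_lit 0, nat_lit 6, nat_lit 164, nat_lit 0, nat_lit 0, nat_lit 0, nat_lit 0, nat_lit 0, nat_lit 0, nat_lit 0, nat_lit 0, nat_lit 0, nat_lit 0, nat_lit 5000000, false, false⟩,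
 nat_lit 0, nat_lit 6576, nat_lit 0, nat_lit 0, nat_lit 4836, nat_lit 0, nat_lit 446, nat_lit 0, nat_lit 0, nat_lit 0, nat_lit 0, nat_lit 0, nat_lit 0, nat_lit 0, nat_lit 0, nat_lit 400000, nat_lit 0, nat_lit 0, [(nat_lit 15, [(nat_lit 1, nat_lit 1000)])],
 ⟨p016_k41, nat_lit 0, nat_lit 0, nat_lit 601, nat_lit 0, nat_lit 889991, [nat_lit 2020200000, nat_lit 2354866667, nat_lit 2328333333], [], [nat_lit 19719711928, nat_lit 20337824540, nat_lit 19703170642, nat_lit 19913561602], nat_lit 1271250, nat_lit 1271250, nat_lit 356250, nat_lit 1100001, nat_lit 0, nat_lit 0, [nat_lit 780000, nat_lit 1435000, nat_lit 1271250], [nat_lit 18, nat_lit 40, nat_lit 80, nat_lit 80, nat_lit 2, nat_lit 249, nat_lit 40, nat_lit 8]⟩, C1.Rw.none,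
 ⟨nat_lit 4472, nat_lit 4610, ⟨.ofNat (nat_lit 302112), .ofNat (nat_lit 474208), .ofNat (nat_lit 345160), .ofNat (nat_lit 517257), .ofNat (nat_lit 305207), .ofNat (nat_lit 475152), .ofNat (nat_lit 348338), .ofNat (nat_lit 518284)⟩, ⟨.ofNat (nat_lit 0), .ofNat (nat_lit 0), .ofNat (nat_lit 0), .ofNat (nat_lit 0), .ofNat (nat_lit 0), .ofNat (nat_lit 0), .ofNat (nat_lit 0), .ofNat (nat_lit 0)⟩⟩, []⟩
noncomputable def p016_l114 : Lf2 := ⟨nat_lit 0, nat_lit 10, [nat_lit 0, nat_lit 5, nat_lit 5, nat_lit 20], false, nat_lit 0, nat_lit 0, nat_lit 0, nat_lit 0, ⟨nat_lit 1000, nat_lit 0, nat_lit 0, nat_lit 0, nat_lit 0, nat_lit 0, nat_lit 0, nat_lit 0, nat_lit 0, nat_lit 0, nat_lit 0, nat_lit 0, nat_lit 0, nat_lit 0, nat_lit 0, nat_lit 0, false, false⟩,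
 nat_lit 0, nat_lit 9739, nat_lit 0, nat_lit 0, nat_lit 6742, nat_lit 6736, nat_lit 1751, nat_lit 0, nat_lit 0, nat_lit 1393, nat_lit 0, nat_lit 0, nat_lit 0, nat_lit 0, nat_lit 0, nat_lit 0, nat_lit 0, nat_lit 0, [],
 ⟨p016_k8, nat_lit 0, nat_lit 0, nat_lit 570, nat_lit 0, nat_lit 966433, [nat_lit 3282000000, nat_lit 6250000000, nat_lit 7968000000], [], [nat_lit 20989984356, nat_lit 21725290548, nat_lit 23240237644, nat_lit 25508048160], nat_lit 1271250, nat_lit 1271250, nat_lit 1100001, nat_lit 1785000, nat_lit 0, nat_lit 0, [nat_lit 780000, nat_lit 1435000, nat_lit 1271250], [nat_lit 18, nat_lit 40, nat_lit 80, nat_lit 80, nat_lit 2, nat_lit 272, nat_lit 60, nat_lit 9]⟩, ⟨p016_k1, nat_lit 0, nat_lit 0, nat_lit 200, nat_lit 0, nat_lit 0, [nat_lit 4688000000, nat_lit 7968000000, nat_lit 11872000000], [], [nat_lit 22798973148, nat_lit 24979060316, nat_lit 25478385280, nat_lit 27821578272],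 nat_lit 0, nat_lit 0, nat_lit 0, nat_lit 0, nat_lit 0, nat_lit 0, [], [nat_lit 21, nat_lit 40, nat_lit 80, nat_lit 80, nat_lit 14, nat_lit 373, nat_lit 150, nat_lit 10]⟩,
 zbF0, []⟩
noncomputable def p016_l115 : Lf2 := ⟨nat_lit 0, nat_lit 10, [nat_lit 0, nat_lit 5, nat_lit 5, nat_lit 20], false, nat_lit 0, nat_lit 0, nat_lit 0, nat_lit 0, ⟨nat_lit 1000, nat_lit 0, nat_lit 0, nat_lit 0, nat_lit 0, nat_lit 0, nat_lit 0, nat_lit 0, nat_lit 0, nat_lit 0, nat_lit 0, nat_lit 0, nat_lit 0, nat_lit 0, nat_lit 0, nat_lit 0, false, false⟩,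
 nat_lit 0, nat_lit 9639, nat_lit 0, nat_lit 0, nat_lit 6133, nat_lit 6448, nat_lit 1319, nat_lit 0, nat_lit 0, nat_lit 1864, nat_lit 0, nat_lit 0, nat_lit 0, nat_lit 0, nat_lit 0, nat_lit 0, nat_lit 0, nat_lit 0, [],
 ⟨p016_k2, nat_lit 0, nat_lit 0, nat_lit 588, nat_lit 0, nat_lit 891822, [nat_lit 3282000000, nat_lit 4688000000, nat_lit 9842000000], [], [nat_lit 31906560218, nat_lit 32365022693, nat_lit 36772572596, nat_lit 37254491936], nat_lit 1271250, nat_lit 1271250, nat_lit 1271250, nat_lit 1271250, nat_lit 0, nat_lit 0, [nat_lit 780000, nat_lit 1100000, nat_lit 2127500], [nat_lit 42, nat_lit 40, nat_lit 80, nat_lit 80, nat_lit 13, nat_lit 317, nat_lit 100, nat_lit 9]⟩, ⟨p016_k3, nat_lit 0, nat_lit 0, nat_lit 239, nat_lit 0, nat_lit 0, [nat_lit 4688000000, nat_lit 6250000000, nat_lit 11872000000], [], [nat_lit 25741651288, nat_lit 27521007608, nat_lit 35809479928, nat_lit 36891882200],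 nat_lit 0, nat_lit 0, nat_lit 0, nat_lit 0, nat_lit 0, nat_lit 0, [], [nat_lit 48, nat_lit 40, nat_lit 80, nat_lit 80, nat_lit 12, nat_lit 401, nat_lit 175, nat_lit 10]⟩,
 zbF0, []⟩
noncomputable def p016_l116 : Lf2 := ⟨nat_lit 0, nat_lit 10, [nat_lit 0, nat_lit 5, nat_lit 5, nat_lit 20], false, nat_lit 0, nat_lit 0, nat_lit 0, nat_lit 0, ⟨nat_lit 1000, nat_lit 0, nat_lit 0, nat_lit 0, nat_lit 0, nat_lit 0, nat_lit 0, nat_lit 0, nat_lit 0, nat_lit 0, nat_lit 0, nat_lit 0, nat_lit 0, nat_lit 0, nat_lit 0, nat_lit 0, false, false⟩,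
 nat_lit 0, nat_lit 7617, nat_lit 0, nat_lit 0, nat_lit 5273, nat_lit 6463, nat_lit 1309, nat_lit 0, nat_lit 0, nat_lit 1071, nat_lit 0, nat_lit 0, nat_lit 0, nat_lit 0, nat_lit 0, nat_lit 0, nat_lit 0, nat_lit 0, [],
 ⟨p016_k23, nat_lit 0, nat_lit 0, nat_lit 549, nat_lit 0, nat_lit 966433, [nat_lit 3282000000, nat_lit 4688000000, nat_lit 7968000000], [], [nat_lit 30925229226, nat_lit 31478140412, nat_lit 35551959662, nat_lit 36026495388], nat_lit 1271250, nat_lit 1271250, nat_lit 1271250, nat_lit 1271250, nat_lit 0, nat_lit 0, [nat_lit 780000, nat_lit 1100000, nat_lit 1785000], [nat_lit 36, nat_lit 40, nat_lit 80, nat_lit 80, nat_lit 7, nat_lit 228, nat_lit 0, nat_lit 7]⟩, ⟨p016_k3, nat_lit 0, nat_lit 0, nat_lit 239, nat_lit 0, nat_lit 0, [nat_lit 4688000000, nat_lit 6250000000, nat_lit 11872000000], [], [nat_lit 29527566253, nat_lit 31308555173, nat_lit 39625112593, nat_lit 40707743825],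 nat_lit 0, nat_lit 0, nat_lit 0, nat_lit 0, nat_lit 0, nat_lit 0, [], [nat_lit 48, nat_lit 40, nat_lit 80, nat_lit 80, nat_lit 12, nat_lit 401, nat_lit 175, nat_lit 10]⟩,
 zbF0, []⟩
noncomputable def p016_l117 : Lf2 := ⟨nat_lit 0, nat_lit 10, [nat_lit 0, nat_lit 5, nat_lit 5, nat_lit 20], false, nat_lit 0, nat_lit 0, nat_lit 0, nat_lit 0, ⟨nat_lit 0, nat_lit 1000, nat_lit 0, nat_lit 6, nat_lit 153, nat_lit 0, nat_lit 0, nat_lit 0, nat_lit 0, nat_lit 0, nat_lit 0, nat_lit 0, nat_lit 0, nat_lit 0, nat_lit 0, nat_lit 5000000, false, false⟩,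
 nat_lit 0, nat_lit 7746, nat_lit 0, nat_lit 0, nat_lit 4929, nat_lit 0, nat_lit 0, nat_lit 0, nat_lit 0, nat_lit 0, nat_lit 0, nat_lit 0, nat_lit 0, nat_lit 0, nat_lit 5, nat_lit 962800, nat_lit 0, nat_lit 0, [(nat_lit 12, [(nat_lit 1, nat_lit 62), (nat_lit 2, nat_lit 938)]), (nat_lit 15, [(nat_lit 1, nat_lit 62), (nat_lit 2, nat_lit 938)])],
 ⟨p016_k0, nat_lit 0, nat_lit 0, nat_lit 552, nat_lit 0, nat_lit 571481, [nat_lit 2378658401, nat_lit 2094437600, nat_lit 27684800], [], [nat_lit 22547487606, nat_lit 24068616358, nat_lit 24225102880, nat_lit 23299502377], nat_lit 1271250, nat_lit 1271250, nat_lit 205650, nat_lit 1100001, nat_lit 0, nat_lit 0, [nat_lit 780000, nat_lit 1435000, nat_lit 1271250], [nat_lit 8, nat_lit 40, nat_lit 80, nat_lit 80, nat_lit 1, nat_lit 249, nat_lit 40, nat_lit 7]⟩, ⟨p016_k1, nat_lit 0, nat_lit 0, nat_lit 695, nat_lit 0, nat_lit 710319, [nat_lit 0, nat_lit 0,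 nat_lit 0], [], [nat_lit 0, nat_lit 0, nat_lit 0, nat_lit 0], nat_lit 1271250, nat_lit 1271250, nat_lit 205650, nat_lit 1100001, nat_lit 0, nat_lit 0, [nat_lit 1100000, nat_lit 1785000, nat_lit 1271250], [nat_lit 21, nat_lit 40, nat_lit 80, nat_lit 80, nat_lit 14, nat_lit 345, nat_lit 125, nat_lit 9]⟩,
 ⟨nat_lit 4472, nat_lit 5478, ⟨.ofNat (nat_lit 235487), .ofNat (nat_lit 467727), .ofNat (nat_lit 278138), .ofNat (nat_lit 510352), .ofNat (nat_lit 264421), .ofNat (nat_lit 475101), .ofNat (nat_lit 307491), .ofNat (nat_lit 518145)⟩, ⟨.ofNat (nat_lit 0), .ofNat (nat_lit 0), .ofNat (nat_lit 0), .ofNat (nat_lit 0), .ofNat (nat_lit 0), .ofNat (nat_lit 0), .ofNat (nat_lit 0), .ofNat (nat_lit 0)⟩⟩, []⟩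
noncomputable def p016_l118 : Lf2 := ⟨nat_lit 0, nat_lit 10, [nat_lit 0, nat_lit 5, nat_lit 5, nat_lit 20], false, nat_lit 0, nat_lit 0, nat_lit 0, nat_lit 0, ⟨nat_lit 311, nat_lit 689, nat_lit 0, nat_lit 6, nat_lit 226, nat_lit 0, nat_lit 0, nat_lit 0, nat_lit 0, nat_lit 0, nat_lit 0, nat_lit 0, nat_lit 0, nat_lit 0, nat_lit 0, nat_lit 5000000, false, false⟩,
 nat_lit 7427, nat_lit 1330, nat_lit 0, nat_lit 0, nat_lit 5572, nat_lit 3931, nat_lit 270, nat_lit 0, nat_lit 0, nat_lit 497, nat_lit 0, nat_lit 0, nat_lit 0, nat_lit 0, nat_lit 0, nat_lit 689000, nat_lit 0, nat_lit 0, [(nat_lit 12, [(nat_lit 2, nat_lit 689)]), (nat_lit 15, [(nat_lit 2, nat_lit 689)])],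
 ⟨p016_k0, nat_lit 0, nat_lit 0, nat_lit 462, nat_lit 0, nat_lit 571481, [nat_lit 2629654801, nat_lit 3284819600, nat_lit 2858296000], [], [nat_lit 23182035916, nat_lit 24823578550, nat_lit 25139725171, nat_lit 26167807526], nat_lit 1271250, nat_lit 1271250, nat_lit 1100001, nat_lit 1785000, nat_lit 0, nat_lit 0, [nat_lit 780000, nat_lit 1435000, nat_lit 1271250], [nat_lit 8, nat_lit 40, nat_lit 80, nat_lit 80, nat_lit 1, nat_lit 272, nat_lit 60, nat_lit 8]⟩, ⟨p016_k1, nat_lit 0, nat_lit 0, nat_lit 589, nat_lit 0, nat_lit 710319, [nat_lit 1457968000, nat_lit 2478048000, nat_lit 3692192000], [], [nat_lit 8433216888, nat_lit 8020666020, nat_lit 12492674268, nat_lit 8788052696], nat_lit 1271250, nat_lit 1271250, nat_lit 1100001, nat_lit 1785000, nat_lit 0, nat_lit 0, [nat_lit 1100000, nat_lit 1785000, nat_lit 1271250], [nat_lit 21, nat_lit 40, nat_lit 80, nat_lit 80, nat_lit 14, nat_lit 373,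 nat_lit 150, nat_lit 10]⟩,
 ⟨nat_lit 4472, nat_lit 5478, ⟨.ofNat (nat_lit 467727), .ofNat (nat_lit 617523), .ofNat (nat_lit 510352), .ofNat (nat_lit 660148), .ofNat (nat_lit 475101), .ofNat (nat_lit 610987), .ofNat (nat_lit 518145), .ofNat (nat_lit 654031)⟩, ⟨.ofNat (nat_lit 0), .ofNat (nat_lit 0), .ofNat (nat_lit 0), .ofNat (nat_lit 0), .ofNat (nat_lit 0), .ofNat (nat_lit 0), .ofNat (nat_lit 0), .ofNat (nat_lit 0)⟩⟩, []⟩
noncomputable def p016_l119 : Lf2 := ⟨nat_lit 0, nat_lit 10, [nat_lit 0, nat_lit 5, nat_lit 5, nat_lit 20], false, nat_lit 0, nat_lit 0, nat_lit 0, nat_lit 0, ⟨nat_lit 519, nat_lit 481, nat_lit 0, nat_lit 6, nat_lit 311, nat_lit 0, nat_lit 0, nat_lit 0, nat_lit 0, nat_lit 0, nat_lit 0, nat_lit 0, nat_lit 0, nat_lit 0, nat_lit 0, nat_lit 5000000, true, true⟩,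
 nat_lit 8247, nat_lit 0, nat_lit 0, nat_lit 0, nat_lit 5248, nat_lit 4366, nat_lit 302, nat_lit 0, nat_lit 0, nat_lit 384, nat_lit 0, nat_lit 0, nat_lit 0, nat_lit 0, nat_lit 0, nat_lit 481000, nat_lit 0, nat_lit 0, [(nat_lit 12, [(nat_lit 2, nat_lit 481)]), (nat_lit 15, [(nat_lit 2, nat_lit 481)])],
 ⟨p016_k0, nat_lit 0, nat_lit 0, nat_lit 455, nat_lit 0, nat_lit 571481, [nat_lit 2826589201, nat_lit 4179968400, nat_lit 4966584000], [], [nat_lit 30384802174, nat_lit 31444714558, nat_lit 34957176070, nat_lit 35956551488], nat_lit 1271250, nat_lit 1271250, nat_lit 1271250, nat_lit 1271250, nat_lit 0, nat_lit 0, [nat_lit 780000, nat_lit 1435000, nat_lit 1271250], [nat_lit 8, nat_lit 40, nat_lit 80, nat_lit 80, nat_lit 1, nat_lit 317, nat_lit 100, nat_lit 9]⟩, ⟨p016_k1, nat_lit 0, nat_lit 0, nat_lit 569, nat_lit 0, nat_lit 710319, [nat_lit 2433072000, nat_lit 4135392000, nat_lit 6161568000],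 [], [nat_lit 20323520144, nat_lit 20536916252, nat_lit 22180803644, nat_lit 22371365420], nat_lit 1271250, nat_lit 1271250, nat_lit 1271250, nat_lit 1271250, nat_lit 0, nat_lit 0, [nat_lit 1100000, nat_lit 1785000, nat_lit 1271250], [nat_lit 21, nat_lit 40, nat_lit 80, nat_lit 80, nat_lit 14, nat_lit 401, nat_lit 175, nat_lit 10]⟩,
 ⟨nat_lit 4472, nat_lit 5478, ⟨.ofNat (nat_lit 617523), .ofNat (nat_lit 917115), .ofNat (nat_lit 660148), .ofNat (nat_lit 959740), .ofNat (nat_lit 610987), .ofNat (nat_lit 882759), .ofNat (nat_lit 654031), .ofNat (nat_lit 925804)⟩, ⟨.ofNat (nat_lit 0), .ofNat (nat_lit 0), .ofNat (nat_lit 0), .ofNat (nat_lit 0), .ofNat (nat_lit 0), .ofNat (nat_lit 0), .ofNat (nat_lit 0), .ofNat (nat_lit 0)⟩⟩, []⟩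
noncomputable def b_N_700_600_0_19 : St := ⟨false, nat_lit 1, nat_lit 2, nat_lit 2, nat_lit 40, nat_lit 280, nat_lit 320, nat_lit 240, nat_lit 280, nat_lit 36, nat_lit 400, nat_lit 0, nat_lit 0, nat_lit 0, nat_lit 0, nat_lit 0, nat_lit 0, nat_lit 40, nat_lit 80, nat_lit 0, nat_lit 0, nat_lit 0, nat_lit 0⟩
theorem d_N_700_600_0_19 (h : EB TB.env) : Dead b_N_700_600_0_19 := chkB_sound0 h (T :=
(.st (nat_lit 1)
(.spl (nat_lit 2) (nat_lit 240)
(.spl (nat_lit 0) (nat_lit 300)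
(.spl (nat_lit 2) (nat_lit 160)
(.spl (nat_lit 2) (nat_lit 80)
(.leaf p016_l90)
(.spl (nat_lit 6) (nat_lit 60)
(.spl (nat_lit 0) (nat_lit 290)
(.spl (nat_lit 1) (nat_lit 260)
(.leaf p016_l91)
(.spl (nat_lit 6) (nat_lit 48)
(.spl (nat_lit 1) (nat_lit 270)
(.leaf p016_l92)
(.spl (nat_lit 0) (nat_lit 285)
(.spl (nat_lit 1) (nat_lit 275)
(.leaf p016_l93)
(.spl (nat_lit 0) (nat_lit 283)
(.spl (nat_lit 6) (nat_lit 44)
(.spl (nat_lit 2) (nat_lit 120)
(.leaf p016_l94)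
(.leaf p016_l95))
(.leaf p016_l96))
(.spl (nat_lit 1) (nat_lit 278)
(.leaf p016_l97)
(.spl (nat_lit 2) (nat_lit 120)
(.leaf p016_l98)
(.leaf p016_l99)))))
(.spl (nat_lit 0) (nat_lit 288)
(.spl (nat_lit 1) (nat_lit 275)
(.leaf p016_l100)
(.spl (nat_lit 1) (nat_lit 278)
(.leaf p016_l101)
(.leaf p016_l102)))
(.leaf p016_l103))))
(.leaf p016_l104)))
(.spl (nat_lit 2) (nat_lit 120)
(.leaf p016_l105)
(.leaf p016_l106)))
(.leaf p016_l107)))
(.spl (nat_lit 0) (nat_lit 290)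
(.leaf p016_l108)
(.leaf p016_l109)))
(.trZ (nat_lit 0) (nat_lit 100) (nat_lit 88) (nat_lit 68) (nat_lit 48) (.spl (nat_lit 2) (nat_lit 160)
(.spl (nat_lit 0) (nat_lit 310)
(.spl (nat_lit 0) (nat_lit 305)
(.leaf p016_l110)
(.trZ (nat_lit 0) (nat_lit 100) (nat_lit 87) (nat_lit 70) (nat_lit 52) (.leaf p016_l111)))
(.trZ (nat_lit 0) (nat_lit 100) (nat_lit 85) (nat_lit 72) (nat_lit 56) (.spl (nat_lit 0) (nat_lit 315)
(.leaf p016_l112)
(.trZ (nat_lit 0) (nat_lit 100) (nat_lit 84) (nat_lit 74) (nat_lit 60) (.leaf p016_l113)))))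
(.leaf p016_l114))))
(.spl (nat_lit 0) (nat_lit 300)
(.leaf p016_l115)
(.leaf p016_l116)))
(.spl (nat_lit 2) (nat_lit 240)
(.spl (nat_lit 2) (nat_lit 160)
(.leaf p016_l117)
(.leaf p016_l118))
(.leaf p016_l119)))) (by decide +kernel)
noncomputable def p016_l120 : Lf2 := ⟨nat_lit 0, nat_lit 10, [nat_lit 0, nat_lit 5, nat_lit 5, nat_lit 20], true, nat_lit 0, nat_lit 0, nat_lit 0, nat_lit 0, ⟨nat_lit 0, nat_lit 0, nat_lit 1000, nat_lit 6, nat_lit 134, nat_lit 0, nat_lit 0, nat_lit 0, nat_lit 0, nat_lit 215, nat_lit 170017, nat_lit 316, nat_lit 60214869, nat_lit 0, nat_lit 0, nat_lit 1639326, false, false⟩,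
 nat_lit 0, nat_lit 0, nat_lit 0, nat_lit 5099, nat_lit 3552, nat_lit 0, nat_lit 128, nat_lit 0, nat_lit 0, nat_lit 0, nat_lit 0, nat_lit 0, nat_lit 0, nat_lit 0, nat_lit 86, nat_lit 400000, nat_lit 0, nat_lit 0, [(nat_lit 12, [(nat_lit 5, nat_lit 1000)]), (nat_lit 15, [(nat_lit 5, nat_lit 1000)])],
 ⟨p016_k0, nat_lit 0, nat_lit 0, nat_lit 292, nat_lit 0, nat_lit 0, [nat_lit 2347200000, nat_lit 1180400000, nat_lit 174400000], [], [nat_lit 16109631128, nat_lit 18884021978, nat_lit 15513304624, nat_lit 17863783264], nat_lit 0, nat_lit 0, nat_lit 0, nat_lit 0, nat_lit 0, nat_lit 0, [], [nat_lit 8, nat_lit 40, nat_lit 80, nat_lit 80, nat_lit 1, nat_lit 238, nat_lit 30, nat_lit 7]⟩, C1.Rw.none,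
 ⟨nat_lit 4472, nat_lit 5478, ⟨.ofNat (nat_lit 235487), .ofNat (nat_lit 392815), .ofNat (nat_lit 256814), .ofNat (nat_lit 414138), .ofNat (nat_lit 264421), .ofNat (nat_lit 407143), .ofNat (nat_lit 285957), .ofNat (nat_lit 428676)⟩, ⟨.ofNat (nat_lit 0), .ofNat (nat_lit 0), .ofNat (nat_lit 0), .ofNat (nat_lit 0), .ofNat (nat_lit 0), .ofNat (nat_lit 0), .ofNat (nat_lit 0), .ofNat (nat_lit 0)⟩⟩, [⟨nat_lit 0, nat_lit 100, nat_lit 89, nat_lit 72, nat_lit 164549040⟩]⟩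
noncomputable def p016_l121 : Lf2 := ⟨nat_lit 0, nat_lit 10, [nat_lit 0, nat_lit 5, nat_lit 5, nat_lit 20], false, nat_lit 0, nat_lit 0, nat_lit 0, nat_lit 0, ⟨nat_lit 1000, nat_lit 0, nat_lit 0, nat_lit 0, nat_lit 0, nat_lit 0, nat_lit 0, nat_lit 0, nat_lit 0, nat_lit 0, nat_lit 0, nat_lit 0, nat_lit 0, nat_lit 0, nat_lit 0, nat_lit 0, false, false⟩,
 nat_lit 0, nat_lit 0, nat_lit 0, nat_lit 12148, nat_lit 8610, nat_lit 6892, nat_lit 1222, nat_lit 0, nat_lit 0, nat_lit 0, nat_lit 0, nat_lit 0, nat_lit 0, nat_lit 0, nat_lit 0, nat_lit 0, nat_lit 0, nat_lit 0, [],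
 ⟨p016_k0, nat_lit 0, nat_lit 0, nat_lit 281, nat_lit 0, nat_lit 0, [nat_lit 3282000000, nat_lit 6250000000, nat_lit 9842000000], [], [nat_lit 25052603340, nat_lit 29369111456, nat_lit 22466153250, nat_lit 25731533510], nat_lit 0, nat_lit 0, nat_lit 0, nat_lit 0, nat_lit 0, nat_lit 0, [], [nat_lit 8, nat_lit 40, nat_lit 80, nat_lit 80, nat_lit 1, nat_lit 238, nat_lit 30, nat_lit 7]⟩, ⟨p016_k18, nat_lit 0, nat_lit 0, nat_lit 224, nat_lit 0, nat_lit 0, [nat_lit 4688000000, nat_lit 7968000000, nat_lit 9842000000], [], [nat_lit 29429273005, nat_lit 31154582112, nat_lit 27826262420, nat_lit 29177050840], nat_lit 0, nat_lit 0, nat_lit 0, nat_lit 0, nat_lit 0, nat_lit 0, [], [nat_lit 29, nat_lit 40, nat_lit 80, nat_lit 80, nat_lit 17, nat_lit 317, nat_lit 100, nat_lit 9]⟩,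
 zbF0, [⟨nat_lit 0, nat_lit 100, nat_lit 96, nat_lit 69, nat_lit 971375445⟩]⟩
noncomputable def p016_l122 : Lf2 := ⟨nat_lit 0, nat_lit 10, [nat_lit 0, nat_lit 5, nat_lit 5, nat_lit 20], false, nat_lit 0, nat_lit 0, nat_lit 0, nat_lit 0, ⟨nat_lit 950, nat_lit 0, nat_lit 50, nat_lit 6, nat_lit 269, nat_lit 0, nat_lit 0, nat_lit 0, nat_lit 0, nat_lit 215, nat_lit 648230, nat_lit 200, nat_lit 46183011, nat_lit 0, nat_lit 0, nat_lit 3098302, false, true⟩,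
 nat_lit 0, nat_lit 0, nat_lit 0, nat_lit 0, nat_lit 8482, nat_lit 4248, nat_lit 0, nat_lit 0, nat_lit 0, nat_lit 0, nat_lit 0, nat_lit 0, nat_lit 0, nat_lit 0, nat_lit 0, nat_lit 9000, nat_lit 0, nat_lit 0, [(nat_lit 12, [(nat_lit 3, nat_lit 50)]), (nat_lit 15, [(nat_lit 3, nat_lit 50)])],
 ⟨p016_k0, nat_lit 0, nat_lit 0, nat_lit 219, nat_lit 0, nat_lit 0, [nat_lit 5417340001, nat_lit 5928740000, nat_lit 9293580000], [], [nat_lit 29542133225, nat_lit 32861275024, nat_lit 43729332256, nat_lit 45534284800], nat_lit 0, nat_lit 0, nat_lit 0, nat_lit 0, nat_lit 0, nat_lit 0, [], [nat_lit 8, nat_lit 40, nat_lit 80, nat_lit 80, nat_lit 1, nat_lit 317, nat_lit 100, nat_lit 9]⟩, ⟨p016_k1, nat_lit 0, nat_lit 0, nat_lit 251, nat_lit 0, nat_lit 0, [nat_lit 4453600000, nat_lit 7569600000, nat_lit 11278400000], [], [nat_lit 32163573520, nat_lit 34003290536, nat_lit 41705860456, nat_lit 42594950952], nat_lit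 0, nat_lit 0, nat_lit 0, nat_lit 0, nat_lit 0, nat_lit 0, [], [nat_lit 21, nat_lit 40, nat_lit 80, nat_lit 80, nat_lit 14, nat_lit 401, nat_lit 175, nat_lit 10]⟩,
 ⟨nat_lit 4472, nat_lit 5478, ⟨.ofNat (nat_lit 392815), .ofNat (nat_lit 917115), .ofNat (nat_lit 435455), .ofNat (nat_lit 959740), .ofNat (nat_lit 407143), .ofNat (nat_lit 882759), .ofNat (nat_lit 450202), .ofNat (nat_lit 925804)⟩, ⟨.ofNat (nat_lit 0), .ofNat (nat_lit 0), .ofNat (nat_lit 0), .ofNat (nat_lit 0), .ofNat (nat_lit 0), .ofNat (nat_lit 0), .ofNat (nat_lit 0), .ofNat (nat_lit 0)⟩⟩, []⟩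
noncomputable def p016_l123 : Lf2 := ⟨nat_lit 0, nat_lit 10, [nat_lit 0, nat_lit 5, nat_lit 5, nat_lit 20], true, nat_lit 0, nat_lit 0, nat_lit 0, nat_lit 0, ⟨nat_lit 0, nat_lit 0, nat_lit 1000, nat_lit 6, nat_lit 120, nat_lit 0, nat_lit 0, nat_lit 0, nat_lit 0, nat_lit 215, nat_lit 135000, nat_lit 305, nat_lit 61426304, nat_lit 0, nat_lit 0, nat_lit 1432451, false, false⟩,
 nat_lit 0, nat_lit 0, nat_lit 0, nat_lit 3590, nat_lit 3318, nat_lit 0, nat_lit 0, nat_lit 0, nat_lit 0, nat_lit 0, nat_lit 0, nat_lit 0, nat_lit 0, nat_lit 0, nat_lit 95, nat_lit 400000, nat_lit 0, nat_lit 0, [(nat_lit 12, [(nat_lit 5, nat_lit 1000)])],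
 ⟨p016_k0, nat_lit 0, nat_lit 0, nat_lit 222, nat_lit 0, nat_lit 0, [nat_lit 2380800000, nat_lit 1365333334, nat_lit 202000000], [], [nat_lit 16491125956, nat_lit 17164136487, nat_lit 15369050288, nat_lit 16025640066], nat_lit 0, nat_lit 0, nat_lit 0, nat_lit 0, nat_lit 0, nat_lit 0, [], [nat_lit 8, nat_lit 40, nat_lit 80, nat_lit 80, nat_lit 1, nat_lit 226, nat_lit 20, nat_lit 7]⟩, C1.Rw.none,
 ⟨nat_lit 5244, nat_lit 5478, ⟨.ofNat (nat_lit 235487), .ofNat (nat_lit 317913), .ofNat (nat_lit 278201), .ofNat (nat_lit 360628), .ofNat (nat_lit 242768), .ofNat (nat_lit 323256), .ofNat (nat_lit 285539), .ofNat (nat_lit 366027)⟩, ⟨.ofNat (nat_lit 0), .ofNat (nat_lit 0), .ofNat (nat_lit 0), .ofNat (nat_lit 0), .ofNat (nat_lit 0), .ofNat (nat_lit 0), .ofNat (nat_lit 0), .ofNat (nat_lit 0)⟩⟩, [⟨nat_lit 0, nat_lit 100, nat_lit 97, nat_lit 84, nat_lit 244297254⟩]⟩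
noncomputable def p016_l124 : Lf2 := ⟨nat_lit 0, nat_lit 10, [nat_lit 0, nat_lit 5, nat_lit 5, nat_lit 20], true, nat_lit 0, nat_lit 0, nat_lit 0, nat_lit 0, ⟨nat_lit 0, nat_lit 0, nat_lit 1000, nat_lit 6, nat_lit 124, nat_lit 0, nat_lit 0, nat_lit 0, nat_lit 0, nat_lit 215, nat_lit 144150, nat_lit 308, nat_lit 61085316, nat_lit 0, nat_lit 0, nat_lit 1492684, false, false⟩,
 nat_lit 0, nat_lit 0, nat_lit 0, nat_lit 2555, nat_lit 4607, nat_lit 0, nat_lit 0, nat_lit 0, nat_lit 0, nat_lit 0, nat_lit 0, nat_lit 0, nat_lit 0, nat_lit 0, nat_lit 49, nat_lit 250000, nat_lit 0, nat_lit 0, [(nat_lit 12, [(nat_lit 4, nat_lit 1000)])],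
 ⟨p016_k29, nat_lit 0, nat_lit 0, nat_lit 187, nat_lit 0, nat_lit 0, [nat_lit 3000000001, nat_lit 689600001, nat_lit 74399999], [], [nat_lit 17500975385, nat_lit 18711094537, nat_lit 15299726196, nat_lit 16257025248], nat_lit 0, nat_lit 0, nat_lit 0, nat_lit 0, nat_lit 0, nat_lit 0, [], [nat_lit 18, nat_lit 40, nat_lit 80, nat_lit 80, nat_lit 2, nat_lit 226, nat_lit 20, nat_lit 8]⟩, C1.Rw.none,
 ⟨nat_lit 5000, nat_lit 5245, ⟨.ofNat (nat_lit 250085), .ofNat (nat_lit 323256), .ofNat (nat_lit 292856), .ofNat (nat_lit 366025), .ofNat (nat_lit 257141), .ofNat (nat_lit 328570), .ofNat (nat_lit 299999), .ofNat (nat_lit 371426)⟩, ⟨.ofNat (nat_lit 0), .ofNat (nat_lit 0), .ofNat (nat_lit 0), .ofNat (nat_lit 0), .ofNat (nat_lit 0), .ofNat (nat_lit 0), .ofNat (nat_lit 0), .ofNat (nat_lit 0)⟩⟩, [⟨nat_lit 0, nat_lit 100, nat_lit 94, nat_lit 88, nat_lit 405380446⟩]⟩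
noncomputable def p016_l125 : Lf2 := ⟨nat_lit 1, nat_lit 10, [nat_lit 0, nat_lit 5, nat_lit 5, nat_lit 20], false, nat_lit 0, nat_lit 0, nat_lit 0, nat_lit 0, zbN0,
 nat_lit 0, nat_lit 0, nat_lit 0, nat_lit 0, nat_lit 0, nat_lit 0, nat_lit 0, nat_lit 0, nat_lit 0, nat_lit 0, nat_lit 0, nat_lit 0, nat_lit 0, nat_lit 0, nat_lit 0, nat_lit 0, nat_lit 0, nat_lit 0, [],
 C1.Rw.none, C1.Rw.none,
 zbF0, []⟩
noncomputable def p016_l126 : Lf2 := ⟨nat_lit 0, nat_lit 10, [nat_lit 0, nat_lit 5, nat_lit 5, nat_lit 20], true, nat_lit 0, nat_lit 0, nat_lit 0, nat_lit 0, ⟨nat_lit 0, nat_lit 0, nat_lit 1000, nat_lit 6, nat_lit 131, nat_lit 0, nat_lit 0, nat_lit 0, nat_lit 0, nat_lit 215, nat_lit 160067, nat_lit 313, nat_lit 60510719, nat_lit 0, nat_lit 0, nat_lit 1590582, false, false⟩,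
 nat_lit 0, nat_lit 0, nat_lit 0, nat_lit 2910, nat_lit 4342, nat_lit 0, nat_lit 0, nat_lit 0, nat_lit 0, nat_lit 0, nat_lit 0, nat_lit 0, nat_lit 0, nat_lit 0, nat_lit 62, nat_lit 250000, nat_lit 0, nat_lit 0, [(nat_lit 15, [(nat_lit 4, nat_lit 1000)])],
 ⟨p016_k8, nat_lit 0, nat_lit 0, nat_lit 194, nat_lit 0, nat_lit 0, [nat_lit 3098400000, nat_lit 675600000, nat_lit 76400000], [], [nat_lit 17726573596, nat_lit 20053904404, nat_lit 15904136520, nat_lit 18198733008], nat_lit 0, nat_lit 0, nat_lit 0, nat_lit 0, nat_lit 0, nat_lit 0, [], [nat_lit 18, nat_lit 40, nat_lit 80, nat_lit 80, nat_lit 2, nat_lit 226, nat_lit 20, nat_lit 8]⟩, C1.Rw.none,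
 ⟨nat_lit 4472, nat_lit 5000, ⟨.ofNat (nat_lit 271418), .ofNat (nat_lit 328559), .ofNat (nat_lit 314253), .ofNat (nat_lit 371392), .ofNat (nat_lit 284805), .ofNat (nat_lit 339186), .ofNat (nat_lit 327916), .ofNat (nat_lit 382295)⟩, ⟨.ofNat (nat_lit 0), .ofNat (nat_lit 0), .ofNat (nat_lit 0), .ofNat (nat_lit 0), .ofNat (nat_lit 0), .ofNat (nat_lit 0), .ofNat (nat_lit 0), .ofNat (nat_lit 0)⟩⟩, [⟨nat_lit 0, nat_lit 100, nat_lit 88, nat_lit 81, nat_lit 504619202⟩]⟩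
noncomputable def p016_l127 : Lf2 := ⟨nat_lit 0, nat_lit 10, [nat_lit 0, nat_lit 5, nat_lit 5, nat_lit 20], true, nat_lit 0, nat_lit 0, nat_lit 0, nat_lit 0, ⟨nat_lit 0, nat_lit 0, nat_lit 1000, nat_lit 6, nat_lit 154, nat_lit 0, nat_lit 0, nat_lit 0, nat_lit 0, nat_lit 215, nat_lit 224267, nat_lit 331, nat_lit 58324073, nat_lit 0, nat_lit 0, nat_lit 1927092, false, false⟩,
 nat_lit 0, nat_lit 0, nat_lit 0, nat_lit 2867, nat_lit 4224, nat_lit 0, nat_lit 0, nat_lit 0, nat_lit 0, nat_lit 0, nat_lit 0, nat_lit 0, nat_lit 0, nat_lit 0, nat_lit 57, nat_lit 250000, nat_lit 0, nat_lit 0, [(nat_lit 12, [(nat_lit 4, nat_lit 1000)]), (nat_lit 15, [(nat_lit 4, nat_lit 1000)])],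
 ⟨p016_k0, nat_lit 0, nat_lit 0, nat_lit 200, nat_lit 0, nat_lit 0, [nat_lit 3096000001, nat_lit 849600001, nat_lit 120400000], [], [nat_lit 16904229185, nat_lit 19618956512, nat_lit 17299556561, nat_lit 19834067361], nat_lit 0, nat_lit 0, nat_lit 0, nat_lit 0, nat_lit 0, nat_lit 0, [], [nat_lit 8, nat_lit 40, nat_lit 80, nat_lit 80, nat_lit 1, nat_lit 238, nat_lit 30, nat_lit 7]⟩, C1.Rw.none,
 ⟨nat_lit 4472, nat_lit 5478, ⟨.ofNat (nat_lit 317898), .ofNat (nat_lit 392815), .ofNat (nat_lit 360546), .ofNat (nat_lit 435455), .ofNat (nat_lit 339182), .ofNat (nat_lit 407143), .ofNat (nat_lit 382248), .ofNat (nat_lit 450202)⟩, ⟨.ofNat (nat_lit 0), .ofNat (nat_lit 0), .ofNat (nat_lit 0), .ofNat (nat_lit 0), .ofNat (nat_lit 0), .ofNat (nat_lit 0), .ofNat (nat_lit 0), .ofNat (nat_lit 0)⟩⟩, []⟩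
noncomputable def p016_l128 : Lf2 := ⟨nat_lit 0, nat_lit 10, [nat_lit 0, nat_lit 5, nat_lit 5, nat_lit 20], false, nat_lit 0, nat_lit 0, nat_lit 0, nat_lit 0, ⟨nat_lit 127, nat_lit 0, nat_lit 873, nat_lit 6, nat_lit 211, nat_lit 0, nat_lit 0, nat_lit 0, nat_lit 0, nat_lit 215, nat_lit 49368, nat_lit 200, nat_lit 52412441, nat_lit 0, nat_lit 0, nat_lit 2620064, false, false⟩,
 nat_lit 0, nat_lit 0, nat_lit 2386, nat_lit 0, nat_lit 4491, nat_lit 1263, nat_lit 0, nat_lit 0, nat_lit 0, nat_lit 132, nat_lit 0, nat_lit 0, nat_lit 0, nat_lit 0, nat_lit 15, nat_lit 218250, nat_lit 0, nat_lit 0, [(nat_lit 12, [(nat_lit 4, nat_lit 873)])],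
 ⟨p016_k0, nat_lit 0, nat_lit 0, nat_lit 173, nat_lit 0, nat_lit 0, [nat_lit 2702490000, nat_lit 840230800, nat_lit 161739200], [], [nat_lit 18412501490, nat_lit 19718298340, nat_lit 21220834720, nat_lit 22354269854], nat_lit 0, nat_lit 0, nat_lit 0, nat_lit 0, nat_lit 0, nat_lit 0, [], [nat_lit 8, nat_lit 40, nat_lit 80, nat_lit 80, nat_lit 1, nat_lit 272, nat_lit 60, nat_lit 8]⟩, ⟨p016_k1, nat_lit 0, nat_lit 0, nat_lit 500, nat_lit 0, nat_lit 434937, [nat_lit 595376000, nat_lit 1011936000, nat_lit 1507744000], [], [nat_lit 4746384736, nat_lit 4122253268, nat_lit 5069007452, nat_lit 4076436244], nat_lit 1271250, nat_lit 1271250, nat_lit 780000, nat_lit 1762500, nat_lit 0, nat_lit 0, [nat_lit 1100000, nat_lit 1785000, nat_lit 1271250], [nat_lit 21, nat_lit 40, nat_lit 80, nat_lit 80, nat_lit 14, nat_lit 373, nat_lit 150, nat_lit 10]⟩,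
 ⟨nat_lit 5000, nat_lit 5478, ⟨.ofNat (nat_lit 392847), .ofNat (nat_lit 617614), .ofNat (nat_lit 435548), .ofNat (nat_lit 660309), .ofNat (nat_lit 399998), .ofNat (nat_lit 614253), .ofNat (nat_lit 442843), .ofNat (nat_lit 657090)⟩, ⟨.ofNat (nat_lit 0), .ofNat (nat_lit 0), .ofNat (nat_lit 0), .ofNat (nat_lit 0), .ofNat (nat_lit 0), .ofNat (nat_lit 0), .ofNat (nat_lit 0), .ofNat (nat_lit 0)⟩⟩, []⟩
noncomputable def p016_l129 : Lf2 := ⟨nat_lit 1, nat_lit 10, [nat_lit 0, nat_lit 5, nat_lit 5, nat_lit 20], false, nat_lit 0, nat_lit 0, nat_lit 0, nat_lit 0, zbN0,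
 nat_lit 0, nat_lit 0, nat_lit 0, nat_lit 0, nat_lit 0, nat_lit 0, nat_lit 0, nat_lit 0, nat_lit 0, nat_lit 0, nat_lit 0, nat_lit 0, nat_lit 0, nat_lit 0, nat_lit 0, nat_lit 0, nat_lit 0, nat_lit 0, [],
 C1.Rw.none, C1.Rw.none,
 zbF0, []⟩
noncomputable def p016_l130 : Lf2 := ⟨nat_lit 0, nat_lit 10, [nat_lit 0, nat_lit 5, nat_lit 5, nat_lit 20], false, nat_lit 0, nat_lit 0, nat_lit 0, nat_lit 0, ⟨nat_lit 66, nat_lit 186, nat_lit 748, nat_lit 6, nat_lit 212, nat_lit 0, nat_lit 0, nat_lit 0, nat_lit 0, nat_lit 215, nat_lit 42926, nat_lit 200, nat_lit 52324053, nat_lit 14675947, nat_lit 0, nat_lit 2628475, false, false⟩,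
 nat_lit 0, nat_lit 0, nat_lit 1186, nat_lit 0, nat_lit 4351, nat_lit 627, nat_lit 0, nat_lit 0, nat_lit 0, nat_lit 51, nat_lit 0, nat_lit 0, nat_lit 0, nat_lit 0, nat_lit 1, nat_lit 233500, nat_lit 0, nat_lit 0, [(nat_lit 15, [(nat_lit 0, nat_lit 186), (nat_lit 4, nat_lit 748)])],
 ⟨p016_k8, nat_lit 0, nat_lit 0, nat_lit 150, nat_lit 0, nat_lit 0, [nat_lit 2420925600, nat_lit 517141600, nat_lit 64763600], [], [nat_lit 17830984446, nat_lit 19249223742, nat_lit 20824028358, nat_lit 21977784480], nat_lit 0, nat_lit 0, nat_lit 0, nat_lit 0, nat_lit 0, nat_lit 0, [], [nat_lit 18, nat_lit 40, nat_lit 80, nat_lit 80, nat_lit 2, nat_lit 272, nat_lit 60, nat_lit 9]⟩, ⟨p016_k1, nat_lit 0, nat_lit 0, nat_lit 655, nat_lit 0, nat_lit 744142, [nat_lit 309408000, nat_lit 525888000, nat_lit 783552000], [], [nat_lit 2452697940, nat_lit 2457882774, nat_lit 2644873704, nat_lit 2357622108], nat_lit 1271250,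 nat_lit 1271250, nat_lit 780000, nat_lit 1762500, nat_lit 0, nat_lit 0, [nat_lit 1100000, nat_lit 1785000, nat_lit 1271250], [nat_lit 21, nat_lit 40, nat_lit 80, nat_lit 80, nat_lit 14, nat_lit 373, nat_lit 150, nat_lit 10]⟩,
 ⟨nat_lit 4472, nat_lit 5000, ⟨.ofNat (nat_lit 399984), .ofNat (nat_lit 614256), .ofNat (nat_lit 442816), .ofNat (nat_lit 657088), .ofNat (nat_lit 407160), .ofNat (nat_lit 611081), .ofNat (nat_lit 450269), .ofNat (nat_lit 654189)⟩, ⟨.ofNat (nat_lit 0), .ofNat (nat_lit 0), .ofNat (nat_lit 0), .ofNat (nat_lit 0), .ofNat (nat_lit 0), .ofNat (nat_lit 0), .ofNat (nat_lit 0), .ofNat (nat_lit 0)⟩⟩, []⟩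
noncomputable def p016_l131 : Lf2 := ⟨nat_lit 0, nat_lit 10, [nat_lit 0, nat_lit 5, nat_lit 5, nat_lit 20], false, nat_lit 0, nat_lit 0, nat_lit 0, nat_lit 0, ⟨nat_lit 1000, nat_lit 0, nat_lit 0, nat_lit 0, nat_lit 0, nat_lit 0, nat_lit 0, nat_lit 0, nat_lit 0, nat_lit 0, nat_lit 0, nat_lit 0, nat_lit 0, nat_lit 0, nat_lit 0, nat_lit 0, false, false⟩,
 nat_lit 0, nat_lit 0, nat_lit 12368, nat_lit 0, nat_lit 5941, nat_lit 6547, nat_lit 0, nat_lit 0, nat_lit 0, nat_lit 1607, nat_lit 0, nat_lit 0, nat_lit 0, nat_lit 0, nat_lit 0, nat_lit 0, nat_lit 0, nat_lit 0, [],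
 ⟨p016_k2, nat_lit 0, nat_lit 0, nat_lit 207, nat_lit 0, nat_lit 0, [nat_lit 3282000000, nat_lit 4688000000, nat_lit 9842000000], [], [nat_lit 32543394624, nat_lit 33669115290, nat_lit 41639665728, nat_lit 42430094064], nat_lit 0, nat_lit 0, nat_lit 0, nat_lit 0, nat_lit 0, nat_lit 0, [], [nat_lit 42, nat_lit 40, nat_lit 80, nat_lit 80, nat_lit 13, nat_lit 317, nat_lit 100, nat_lit 9]⟩, ⟨p016_k3, nat_lit 0, nat_lit 0, nat_lit 363, nat_lit 0, nat_lit 233331, [nat_lit 4688000000, nat_lit 6250000000, nat_lit 11872000000], [], [nat_lit 31558586498, nat_lit 32032238968, nat_lit 37586420858, nat_lit 37855157184], nat_lit 1271250, nat_lit 1271250, nat_lit 1271250, nat_lit 1271250, nat_lit 0, nat_lit 0, [nat_lit 1100000, nat_lit 1442500, nat_lit 1271250], [nat_lit 48, nat_lit 40, nat_lit 80, nat_lit 80, nat_lit 12, nat_lit 401, nat_lit 175, nat_lit 10]⟩,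
 zbF0, []⟩
noncomputable def p016_l132 : Lf2 := ⟨nat_lit 0, nat_lit 10, [nat_lit 0, nat_lit 5, nat_lit 5, nat_lit 20], false, nat_lit 0, nat_lit 0, nat_lit 0, nat_lit 0, ⟨nat_lit 1000, nat_lit 0, nat_lit 0, nat_lit 0, nat_lit 0, nat_lit 0, nat_lit 0, nat_lit 0, nat_lit 0, nat_lit 0, nat_lit 0, nat_lit 0, nat_lit 0, nat_lit 0, nat_lit 0, nat_lit 0, false, false⟩,
 nat_lit 0, nat_lit 0, nat_lit 13178, nat_lit 0, nat_lit 5991, nat_lit 6976, nat_lit 0, nat_lit 0, nat_lit 0, nat_lit 1609, nat_lit 0, nat_lit 0, nat_lit 0, nat_lit 0, nat_lit 0, nat_lit 0, nat_lit 0, nat_lit 0, [],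
 ⟨p016_k23, nat_lit 0, nat_lit 0, nat_lit 187, nat_lit 0, nat_lit 0, [nat_lit 3282000000, nat_lit 4688000000, nat_lit 7968000000], [], [nat_lit 29938322346, nat_lit 31164986396, nat_lit 39151575624, nat_lit 40047800758], nat_lit 0, nat_lit 0, nat_lit 0, nat_lit 0, nat_lit 0, nat_lit 0, [], [nat_lit 36, nat_lit 40, nat_lit 80, nat_lit 80, nat_lit 7, nat_lit 203, nat_lit 0, nat_lit 6]⟩, ⟨p016_k3, nat_lit 0, nat_lit 0, nat_lit 503, nat_lit 0, nat_lit 541417, [nat_lit 4688000000, nat_lit 6250000000, nat_lit 11872000000], [], [nat_lit 32630328133, nat_lit 32900648021, nat_lit 37617042852, nat_lit 37945047554], nat_lit 1271250, nat_lit 1271250, nat_lit 1271250, nat_lit 1271250, nat_lit 0, nat_lit 0, [nat_lit 1100000, nat_lit 1442500, nat_lit 1271250], [nat_lit 48, nat_lit 40, nat_lit 80, nat_lit 80, nat_lit 12, nat_lit 401, nat_lit 175, nat_lit 10]⟩,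
 zbF0, []⟩
noncomputable def p016_l133 : Lf2 := ⟨nat_lit 1, nat_lit 10, [nat_lit 0, nat_lit 5, nat_lit 5, nat_lit 20], false, nat_lit 0, nat_lit 0, nat_lit 0, nat_lit 0, zbN0,
 nat_lit 0, nat_lit 0, nat_lit 0, nat_lit 0, nat_lit 0, nat_lit 0, nat_lit 0, nat_lit 0, nat_lit 0, nat_lit 0, nat_lit 0, nat_lit 0, nat_lit 0, nat_lit 0, nat_lit 0, nat_lit 0, nat_lit 0, nat_lit 0, [],
 C1.Rw.none, C1.Rw.none,
 zbF0, []⟩
noncomputable def p016_l134 : Lf2 := ⟨nat_lit 0, nat_lit 10, [nat_lit 0, nat_lit 5, nat_lit 5, nat_lit 20], false, nat_lit 0, nat_lit 0, nat_lit 0, nat_lit 0, ⟨nat_lit 1000, nat_lit 0, nat_lit 0, nat_lit 0, nat_lit 0, nat_lit 0, nat_lit 0, nat_lit 0, nat_lit 0, nat_lit 0, nat_lit 0, nat_lit 0, nat_lit 0, nat_lit 0, nat_lit 0, nat_lit 0, false, false⟩,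
 nat_lit 0, nat_lit 0, nat_lit 11565, nat_lit 0, nat_lit 6463, nat_lit 6731, nat_lit 0, nat_lit 0, nat_lit 0, nat_lit 1245, nat_lit 0, nat_lit 0, nat_lit 0, nat_lit 0, nat_lit 0, nat_lit 0, nat_lit 0, nat_lit 0, [],
 ⟨p016_k2, nat_lit 0, nat_lit 0, nat_lit 209, nat_lit 0, nat_lit 0, [nat_lit 3282000000, nat_lit 4688000000, nat_lit 9842000000], [], [nat_lit 32035972392, nat_lit 34409314548, nat_lit 42181610304, nat_lit 43808503200], nat_lit 0, nat_lit 0, nat_lit 0, nat_lit 0, nat_lit 0, nat_lit 0, [], [nat_lit 42, nat_lit 40, nat_lit 80, nat_lit 80, nat_lit 13, nat_lit 317, nat_lit 100, nat_lit 9]⟩, ⟨p016_k17, nat_lit 0, nat_lit 0, nat_lit 482, nat_lit 0, nat_lit 647600, [nat_lit 4688000000, nat_lit 6250000000, nat_lit 9842000000], [], [nat_lit 32721095291, nat_lit 33092629133, nat_lit 37131506478, nat_lit 37631354296], nat_lit 1271250, nat_lit 1271250, nat_lit 1271250, nat_lit 1271250, nat_lit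 0, nat_lit 0, [nat_lit 1100000, nat_lit 1442500, nat_lit 1271250], [nat_lit 11, nat_lit 40, nat_lit 80, nat_lit 80, nat_lit 1, nat_lit 401, nat_lit 175, nat_lit 11]⟩,
 zbF0, []⟩
noncomputable def p016_l135 : Lf2 := ⟨nat_lit 0, nat_lit 10, [nat_lit 0, nat_lit 5, nat_lit 5, nat_lit 20], true, nat_lit 0, nat_lit 0, nat_lit 0, nat_lit 0, ⟨nat_lit 0, nat_lit 1000, nat_lit 0, nat_lit 6, nat_lit 181, nat_lit 0, nat_lit 0, nat_lit 0, nat_lit 0, nat_lit 0, nat_lit 0, nat_lit 0, nat_lit 0, nat_lit 0, nat_lit 0, nat_lit 5000000, false, false⟩,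
 nat_lit 0, nat_lit 0, nat_lit 0, nat_lit 5879, nat_lit 5655, nat_lit 0, nat_lit 404, nat_lit 0, nat_lit 0, nat_lit 0, nat_lit 0, nat_lit 0, nat_lit 0, nat_lit 0, nat_lit 0, nat_lit 250000, nat_lit 0, nat_lit 0, [(nat_lit 12, [(nat_lit 0, nat_lit 1000)]), (nat_lit 15, [(nat_lit 0, nat_lit 1000)])],
 ⟨p016_k0, nat_lit 0, nat_lit 0, nat_lit 292, nat_lit 0, nat_lit 0, [nat_lit 2364000000, nat_lit 2954000000, nat_lit 3510800000], [], [nat_lit 23933214170, nat_lit 26242382856, nat_lit 23456862180, nat_lit 25172000340], nat_lit 0, nat_lit 0, nat_lit 0, nat_lit 0, nat_lit 0, nat_lit 0, [], [nat_lit 8, nat_lit 40, nat_lit 80, nat_lit 80, nat_lit 1, nat_lit 272, nat_lit 60, nat_lit 8]⟩, C1.Rw.none,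
 ⟨nat_lit 4472, nat_lit 5478, ⟨.ofNat (nat_lit 235487), .ofNat (nat_lit 617523), .ofNat (nat_lit 278138), .ofNat (nat_lit 660148), .ofNat (nat_lit 264421), .ofNat (nat_lit 610987), .ofNat (nat_lit 307491), .ofNat (nat_lit 654031)⟩, ⟨.ofNat (nat_lit 0), .ofNat (nat_lit 0), .ofNat (nat_lit 0), .ofNat (nat_lit 0), .ofNat (nat_lit 0), .ofNat (nat_lit 0), .ofNat (nat_lit 0), .ofNat (nat_lit 0)⟩⟩, []⟩
noncomputable def p016_l136 : Lf2 := ⟨nat_lit 0, nat_lit 10, [nat_lit 0, nat_lit 5, nat_lit 5, nat_lit 20], true, nat_lit 0, nat_lit 0, nat_lit 0, nat_lit 0, ⟨nat_lit 0, nat_lit 1000, nat_lit 0, nat_lit 6, nat_lit 311, nat_lit 0, nat_lit 0, nat_lit 0, nat_lit 0, nat_lit 0, nat_lit 0, nat_lit 0, nat_lit 0, nat_lit 0, nat_lit 0, nat_lit 5000000, true, true⟩,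
 nat_lit 0, nat_lit 0, nat_lit 0, nat_lit 2950, nat_lit 3632, nat_lit 0, nat_lit 0, nat_lit 0, nat_lit 0, nat_lit 0, nat_lit 0, nat_lit 0, nat_lit 0, nat_lit 0, nat_lit 0, nat_lit 250000, nat_lit 0, nat_lit 0, [(nat_lit 12, [(nat_lit 0, nat_lit 1000)]), (nat_lit 15, [(nat_lit 0, nat_lit 1000)])],
 ⟨p016_k42, nat_lit 0, nat_lit 0, nat_lit 230, nat_lit 0, nat_lit 0, [nat_lit 2364000000, nat_lit 3371600001, nat_lit 3371600000], [], [nat_lit 25420019040, nat_lit 27363621568, nat_lit 32816838176, nat_lit 34149264800], nat_lit 0, nat_lit 0, nat_lit 0, nat_lit 0, nat_lit 0, nat_lit 0, [], [nat_lit 99, nat_lit 40, nat_lit 80, nat_lit 80, nat_lit 17, nat_lit 317, nat_lit 100, nat_lit 9]⟩, C1.Rw.none,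
 ⟨nat_lit 4472, nat_lit 5478, ⟨.ofNat (nat_lit 617523), .ofNat (nat_lit 917115), .ofNat (nat_lit 660148), .ofNat (nat_lit 959740), .ofNat (nat_lit 610987), .ofNat (nat_lit 882759), .ofNat (nat_lit 654031), .ofNat (nat_lit 925804)⟩, ⟨.ofNat (nat_lit 0), .ofNat (nat_lit 0), .ofNat (nat_lit 0), .ofNat (nat_lit 0), .ofNat (nat_lit 0), .ofNat (nat_lit 0), .ofNat (nat_lit 0), .ofNat (nat_lit 0)⟩⟩, []⟩
noncomputable def p016_l137 : Lf2 := ⟨nat_lit 0, nat_lit 10, [nat_lit 0, nat_lit 5, nat_lit 5, nat_lit 20], true, nat_lit 0, nat_lit 0, nat_lit 0, nat_lit 0, ⟨nat_lit 0, nat_lit 1000, nat_lit 0, nat_lit 6, nat_lit 181, nat_lit 0, nat_lit 0, nat_lit 0, nat_lit 0, nat_lit 0, nat_lit 0, nat_lit 0, nat_lit 0, nat_lit 0, nat_lit 0, nat_lit 5000000, false, false⟩,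
 nat_lit 0, nat_lit 0, nat_lit 0, nat_lit 5879, nat_lit 5655, nat_lit 0, nat_lit 404, nat_lit 0, nat_lit 0, nat_lit 0, nat_lit 0, nat_lit 0, nat_lit 0, nat_lit 0, nat_lit 0, nat_lit 250000, nat_lit 0, nat_lit 0, [(nat_lit 12, [(nat_lit 0, nat_lit 1000)]), (nat_lit 15, [(nat_lit 0, nat_lit 1000)])],
 ⟨p016_k0, nat_lit 0, nat_lit 0, nat_lit 292, nat_lit 0, nat_lit 0, [nat_lit 2364000000, nat_lit 2954000000, nat_lit 3510800000], [], [nat_lit 23933214170, nat_lit 26242382856, nat_lit 23456862180, nat_lit 25172000340], nat_lit 0, nat_lit 0, nat_lit 0, nat_lit 0, nat_lit 0, nat_lit 0, [], [nat_lit 8, nat_lit 40, nat_lit 80, nat_lit 80, nat_lit 1, nat_lit 272, nat_lit 60, nat_lit 8]⟩, C1.Rw.none,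
 ⟨nat_lit 4472, nat_lit 5478, ⟨.ofNat (nat_lit 235487), .ofNat (nat_lit 617523), .ofNat (nat_lit 278138), .ofNat (nat_lit 660148), .ofNat (nat_lit 264421), .ofNat (nat_lit 610987), .ofNat (nat_lit 307491), .ofNat (nat_lit 654031)⟩, ⟨.ofNat (nat_lit 0), .ofNat (nat_lit 0), .ofNat (nat_lit 0), .ofNat (nat_lit 0), .ofNat (nat_lit 0), .ofNat (nat_lit 0), .ofNat (nat_lit 0), .ofNat (nat_lit 0)⟩⟩, []⟩
noncomputable def p016_l138 : Lf2 := ⟨nat_lit 0, nat_lit 10, [nat_lit 0, nat_lit 5, nat_lit 5, nat_lit 20], false, nat_lit 0, nat_lit 0, nat_lit 0, nat_lit 0, ⟨nat_lit 116, nat_lit 884, nat_lit 0, nat_lit 6, nat_lit 311, nat_lit 0, nat_lit 0, nat_lit 0, nat_lit 0, nat_lit 0, nat_lit 0, nat_lit 0, nat_lit 0, nat_lit 0, nat_lit 0, nat_lit 5000000, true, true⟩,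
 nat_lit 0, nat_lit 0, nat_lit 1823, nat_lit 0, nat_lit 4555, nat_lit 965, nat_lit 0, nat_lit 0, nat_lit 0, nat_lit 82, nat_lit 0, nat_lit 0, nat_lit 0, nat_lit 0, nat_lit 0, nat_lit 221000, nat_lit 0, nat_lit 0, [(nat_lit 12, [(nat_lit 0, nat_lit 884)]), (nat_lit 15, [(nat_lit 0, nat_lit 884)])],
 ⟨p016_k0, nat_lit 0, nat_lit 0, nat_lit 219, nat_lit 0, nat_lit 0, [nat_lit 2470488000, nat_lit 3336336001, nat_lit 4236171200], [], [nat_lit 28045739141, nat_lit 29742049701, nat_lit 34852936821, nat_lit 36053503200], nat_lit 0, nat_lit 0, nat_lit 0, nat_lit 0, nat_lit 0, nat_lit 0, [], [nat_lit 8, nat_lit 40, nat_lit 80, nat_lit 80, nat_lit 1, nat_lit 317, nat_lit 100, nat_lit 9]⟩, ⟨p016_k1, nat_lit 0, nat_lit 0, nat_lit 582, nat_lit 0, nat_lit 744142, [nat_lit 543808000, nat_lit 924288000, nat_lit 1377152000], [], [nat_lit 4627190480, nat_lit 4675325232, nat_lit 5007723940, nat_lit 5031831708],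 nat_lit 1271250, nat_lit 1271250, nat_lit 1271250, nat_lit 1271250, nat_lit 0, nat_lit 0, [nat_lit 1100000, nat_lit 1785000, nat_lit 1271250], [nat_lit 21, nat_lit 40, nat_lit 80, nat_lit 80, nat_lit 14, nat_lit 401, nat_lit 175, nat_lit 10]⟩,
 ⟨nat_lit 4472, nat_lit 5478, ⟨.ofNat (nat_lit 617523), .ofNat (nat_lit 917115), .ofNat (nat_lit 660148), .ofNat (nat_lit 959740), .ofNat (nat_lit 610987), .ofNat (nat_lit 882759), .ofNat (nat_lit 654031), .ofNat (nat_lit 925804)⟩, ⟨.ofNat (nat_lit 0), .ofNat (nat_lit 0), .ofNat (nat_lit 0), .ofNat (nat_lit 0), .ofNat (nat_lit 0), .ofNat (nat_lit 0), .ofNat (nat_lit 0), .ofNat (nat_lit 0)⟩⟩, [⟨nat_lit 13, nat_lit 91, nat_lit 23, nat_lit 100, nat_lit 224571225⟩]⟩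
noncomputable def b_N_700_600_0_20 : St := ⟨false, nat_lit 0, nat_lit 2, nat_lit 0, nat_lit 40, nat_lit 280, nat_lit 320, nat_lit 240, nat_lit 280, nat_lit 36, nat_lit 400, nat_lit 0, nat_lit 0, nat_lit 0, nat_lit 0, nat_lit 0, nat_lit 0, nat_lit 80, nat_lit 120, nat_lit 0, nat_lit 0, nat_lit 0, nat_lit 0⟩
theorem d_N_700_600_0_20 (h : EB TB.env) : Dead b_N_700_600_0_20 := chkB_sound0 h (T :=
(.gv
(.st (nat_lit 1)
(.spl (nat_lit 2) (nat_lit 120)
(.spl (nat_lit 1) (nat_lit 260)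
(.leaf p016_l120)
(.trZ (nat_lit 0) (nat_lit 100) (nat_lit 96) (nat_lit 69) (nat_lit 48) (.leaf p016_l121)))
(.leaf p016_l122))
(.spl (nat_lit 2) (nat_lit 240)
(.spl (nat_lit 2) (nat_lit 120)
(.spl (nat_lit 2) (nat_lit 80)
(.spl (nat_lit 0) (nat_lit 300)
(.spl (nat_lit 6) (nat_lit 104)
(.spl (nat_lit 0) (nat_lit 290)
(.leaf p016_l123)
(.trZ (nat_lit 0) (nat_lit 100) (nat_lit 91) (nat_lit 63) (nat_lit 40) (.leaf p016_l124)))
(.leaf p016_l125))
(.trZ (nat_lit 0) (nat_lit 100) (nat_lit 88) (nat_lit 68) (nat_lit 48) (.leaf p016_l126)))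
(.leaf p016_l127))
(.spl (nat_lit 0) (nat_lit 300)
(.spl (nat_lit 6) (nat_lit 104)
(.leaf p016_l128)
(.leaf p016_l129))
(.leaf p016_l130)))
(.spl (nat_lit 1) (nat_lit 260)
(.spl (nat_lit 6) (nat_lit 108)
(.spl (nat_lit 0) (nat_lit 300)
(.leaf p016_l131)
(.trX (nat_lit 13) (nat_lit 91) (nat_lit 23) (nat_lit 100) (nat_lit 396) (.leaf p016_l132)))
(.leaf p016_l133))
(.leaf p016_l134))))
(.st (nat_lit 1)
(.spl (nat_lit 2) (nat_lit 240)
(.leaf p016_l135)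
(.leaf p016_l136))
(.spl (nat_lit 2) (nat_lit 240)
(.leaf p016_l137)
(.leaf p016_l138))))) (by decide +kernel)
noncomputable def p016_l139 : Lf2 := ⟨nat_lit 0, nat_lit 10, [nat_lit 0, nat_lit 5, nat_lit 5, nat_lit 20], true, nat_lit 0, nat_lit 0, nat_lit 0, nat_lit 0, ⟨nat_lit 0, nat_lit 0, nat_lit 1000, nat_lit 6, nat_lit 131, nat_lit 0, nat_lit 0, nat_lit 0, nat_lit 0, nat_lit 215, nat_lit 160067, nat_lit 313, nat_lit 60507502, nat_lit 0, nat_lit 0, nat_lit 1591118, false, false⟩,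
 nat_lit 0, nat_lit 5080, nat_lit 0, nat_lit 0, nat_lit 3232, nat_lit 0, nat_lit 116, nat_lit 0, nat_lit 0, nat_lit 0, nat_lit 0, nat_lit 0, nat_lit 0, nat_lit 0, nat_lit 95, nat_lit 400000, nat_lit 0, nat_lit 0, [(nat_lit 12, [(nat_lit 5, nat_lit 1000)])],
 ⟨p016_k0, nat_lit 0, nat_lit 0, nat_lit 302, nat_lit 0, nat_lit 66939, [nat_lit 2380800000, nat_lit 1365333334, nat_lit 202000000], [], [nat_lit 15870599180, nat_lit 16339302804, nat_lit 15755823284, nat_lit 16263872516], nat_lit 1271250, nat_lit 1271250, nat_lit 205650, nat_lit 780000, nat_lit 0, nat_lit 0, [nat_lit 780000, nat_lit 1435000, nat_lit 1271250], [nat_lit 8, nat_lit 40, nat_lit 80, nat_lit 80, nat_lit 1, nat_lit 238, nat_lit 30, nat_lit 7]⟩, C1.Rw.none,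
 ⟨nat_lit 5244, nat_lit 5478, ⟨.ofNat (nat_lit 235487), .ofNat (nat_lit 392847), .ofNat (nat_lit 256844), .ofNat (nat_lit 414204), .ofNat (nat_lit 242768), .ofNat (nat_lit 396427), .ofNat (nat_lit 264153), .ofNat (nat_lit 417813)⟩, ⟨.ofNat (nat_lit 0), .ofNat (nat_lit 0), .ofNat (nat_lit 0), .ofNat (nat_lit 0), .ofNat (nat_lit 0), .ofNat (nat_lit 0), .ofNat (nat_lit 0), .ofNat (nat_lit 0)⟩⟩, [⟨nat_lit 0, nat_lit 100, nat_lit 94, nat_lit 73, nat_lit 114544794⟩]⟩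
noncomputable def p016_l140 : Lf2 := ⟨nat_lit 0, nat_lit 10, [nat_lit 0, nat_lit 5, nat_lit 5, nat_lit 20], true, nat_lit 0, nat_lit 0, nat_lit 0, nat_lit 0, ⟨nat_lit 0, nat_lit 0, nat_lit 1000, nat_lit 6, nat_lit 135, nat_lit 0, nat_lit 0, nat_lit 0, nat_lit 0, nat_lit 215, nat_lit 170017, nat_lit 316, nat_lit 60180889, nat_lit 0, nat_lit 0, nat_lit 1644855, false, false⟩,
 nat_lit 0, nat_lit 5247, nat_lit 0, nat_lit 0, nat_lit 3484, nat_lit 0, nat_lit 7, nat_lit 0, nat_lit 0, nat_lit 0, nat_lit 0, nat_lit 0, nat_lit 0, nat_lit 0, nat_lit 72, nat_lit 400000, nat_lit 0, nat_lit 0, [(nat_lit 12, [(nat_lit 5, nat_lit 1000)])],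
 ⟨p016_k29, nat_lit 0, nat_lit 0, nat_lit 271, nat_lit 0, nat_lit 153917, [nat_lit 2104800000, nat_lit 905333334, nat_lit 113066666], [], [nat_lit 15964565442, nat_lit 16472125672, nat_lit 15760060626, nat_lit 16229902288], nat_lit 1271250, nat_lit 1271250, nat_lit 230001, nat_lit 780000, nat_lit 0, nat_lit 0, [nat_lit 780000, nat_lit 1435000, nat_lit 1271250], [nat_lit 18, nat_lit 40, nat_lit 80, nat_lit 80, nat_lit 2, nat_lit 238, nat_lit 30, nat_lit 8]⟩, C1.Rw.none,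
 ⟨nat_lit 5000, nat_lit 5245, ⟨.ofNat (nat_lit 250085), .ofNat (nat_lit 396427), .ofNat (nat_lit 271470), .ofNat (nat_lit 417811), .ofNat (nat_lit 257141), .ofNat (nat_lit 399998), .ofNat (nat_lit 278570), .ofNat (nat_lit 421425)⟩, ⟨.ofNat (nat_lit 0), .ofNat (nat_lit 0), .ofNat (nat_lit 0), .ofNat (nat_lit 0), .ofNat (nat_lit 0), .ofNat (nat_lit 0), .ofNat (nat_lit 0), .ofNat (nat_lit 0)⟩⟩, [⟨nat_lit 0, nat_lit 100, nat_lit 91, nat_lit 77, nat_lit 125616984⟩]⟩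
noncomputable def p016_l141 : Lf2 := ⟨nat_lit 1, nat_lit 10, [nat_lit 0, nat_lit 5, nat_lit 5, nat_lit 20], false, nat_lit 0, nat_lit 0, nat_lit 0, nat_lit 0, zbN0,
 nat_lit 0, nat_lit 0, nat_lit 0, nat_lit 0, nat_lit 0, nat_lit 0, nat_lit 0, nat_lit 0, nat_lit 0, nat_lit 0, nat_lit 0, nat_lit 0, nat_lit 0, nat_lit 0, nat_lit 0, nat_lit 0, nat_lit 0, nat_lit 0, [],
 C1.Rw.none, C1.Rw.none,
 zbF0, []⟩
noncomputable def p016_l142 : Lf2 := ⟨nat_lit 0, nat_lit 10, [nat_lit 0, nat_lit 5, nat_lit 5, nat_lit 20], false, nat_lit 0, nat_lit 0, nat_lit 0, nat_lit 0, ⟨nat_lit 1000, nat_lit 0, nat_lit 0, nat_lit 0, nat_lit 0, nat_lit 0, nat_lit 0, nat_lit 0, nat_lit 0, nat_lit 0, nat_lit 0, nat_lit 0, nat_lit 0, nat_lit 0, nat_lit 0, nat_lit 0, false, false⟩,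
 nat_lit 0, nat_lit 9422, nat_lit 0, nat_lit 0, nat_lit 5995, nat_lit 6670, nat_lit 1109, nat_lit 0, nat_lit 0, nat_lit 0, nat_lit 0, nat_lit 0, nat_lit 0, nat_lit 0, nat_lit 0, nat_lit 0, nat_lit 0, nat_lit 0, [],
 ⟨p016_k0, nat_lit 0, nat_lit 0, nat_lit 348, nat_lit 0, nat_lit 229310, [nat_lit 3282000000, nat_lit 6250000000, nat_lit 9842000000], [], [nat_lit 26989017530, nat_lit 27578552145, nat_lit 25549679965, nat_lit 26141028030], nat_lit 1271250, nat_lit 1271250, nat_lit 279600, nat_lit 780000, nat_lit 0, nat_lit 0, [nat_lit 780000, nat_lit 1435000, nat_lit 1271250], [nat_lit 8, nat_lit 40, nat_lit 80, nat_lit 80, nat_lit 1, nat_lit 238, nat_lit 30, nat_lit 7]⟩, ⟨p016_k18, nat_lit 0, nat_lit 0, nat_lit 224, nat_lit 0, nat_lit 0, [nat_lit 4688000000, nat_lit 7968000000, nat_lit 9842000000], [], [nat_lit 29550486249, nat_lit 30988862888, nat_lit 28045235450, nat_lit 29372461900], nat_lit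 0, nat_lit 0, nat_lit 0, nat_lit 0, nat_lit 0, nat_lit 0, [], [nat_lit 29, nat_lit 40, nat_lit 80, nat_lit 80, nat_lit 17, nat_lit 317, nat_lit 100, nat_lit 9]⟩,
 zbF0, [⟨nat_lit 0, nat_lit 100, nat_lit 97, nat_lit 76, nat_lit 358086723⟩, ⟨nat_lit 0, nat_lit 100, nat_lit 97, nat_lit 84, nat_lit 491656738⟩]⟩
noncomputable def p016_l143 : Lf2 := ⟨nat_lit 0, nat_lit 10, [nat_lit 0, nat_lit 5, nat_lit 5, nat_lit 20], false, nat_lit 0, nat_lit 0, nat_lit 0, nat_lit 0, ⟨nat_lit 1000, nat_lit 0, nat_lit 0, nat_lit 0, nat_lit 0, nat_lit 0, nat_lit 0, nat_lit 0, nat_lit 0, nat_lit 0, nat_lit 0, nat_lit 0, nat_lit 0, nat_lit 0, nat_lit 0, nat_lit 0, false, false⟩,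
 nat_lit 0, nat_lit 8675, nat_lit 0, nat_lit 0, nat_lit 5761, nat_lit 6772, nat_lit 933, nat_lit 0, nat_lit 0, nat_lit 0, nat_lit 0, nat_lit 0, nat_lit 0, nat_lit 0, nat_lit 0, nat_lit 0, nat_lit 0, nat_lit 0, [],
 ⟨p016_k29, nat_lit 0, nat_lit 0, nat_lit 313, nat_lit 0, nat_lit 304472, [nat_lit 3282000000, nat_lit 6250000000, nat_lit 7968000000], [], [nat_lit 25679758913, nat_lit 26312425604, nat_lit 24949678314, nat_lit 25536797999], nat_lit 1271250, nat_lit 1271250, nat_lit 330400, nat_lit 780000, nat_lit 0, nat_lit 0, [nat_lit 780000, nat_lit 1435000, nat_lit 1271250], [nat_lit 18, nat_lit 40, nat_lit 80, nat_lit 80, nat_lit 2, nat_lit 238, nat_lit 30, nat_lit 8]⟩, ⟨p016_k18, nat_lit 0, nat_lit 0, nat_lit 214, nat_lit 0, nat_lit 0, [nat_lit 4688000000, nat_lit 7968000000, nat_lit 9842000000], [], [nat_lit 29077009374, nat_lit 30519941218, nat_lit 27944626220, nat_lit 29282678440], nat_lit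 0, nat_lit 0, nat_lit 0, nat_lit 0, nat_lit 0, nat_lit 0, [], [nat_lit 29, nat_lit 40, nat_lit 80, nat_lit 80, nat_lit 17, nat_lit 317, nat_lit 100, nat_lit 9]⟩,
 zbF0, [⟨nat_lit 0, nat_lit 100, nat_lit 94, nat_lit 88, nat_lit 804836876⟩]⟩
noncomputable def p016_l144 : Lf2 := ⟨nat_lit 1, nat_lit 10, [nat_lit 0, nat_lit 5, nat_lit 5, nat_lit 20], false, nat_lit 0, nat_lit 0, nat_lit 0, nat_lit 0, zbN0,
 nat_lit 0, nat_lit 0, nat_lit 0, nat_lit 0, nat_lit 0, nat_lit 0, nat_lit 0, nat_lit 0, nat_lit 0, nat_lit 0, nat_lit 0, nat_lit 0, nat_lit 0, nat_lit 0, nat_lit 0, nat_lit 0, nat_lit 0, nat_lit 0, [],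
 C1.Rw.none, C1.Rw.none,
 zbF0, []⟩
noncomputable def p016_l145 : Lf2 := ⟨nat_lit 0, nat_lit 10, [nat_lit 0, nat_lit 5, nat_lit 5, nat_lit 20], true, nat_lit 0, nat_lit 0, nat_lit 0, nat_lit 0, ⟨nat_lit 0, nat_lit 0, nat_lit 1000, nat_lit 6, nat_lit 131, nat_lit 0, nat_lit 0, nat_lit 0, nat_lit 0, nat_lit 215, nat_lit 160067, nat_lit 313, nat_lit 60510719, nat_lit 0, nat_lit 0, nat_lit 1590582, false, false⟩,
 nat_lit 0, nat_lit 5277, nat_lit 0, nat_lit 0, nat_lit 3653, nat_lit 0, nat_lit 0, nat_lit 0, nat_lit 0, nat_lit 0, nat_lit 0, nat_lit 0, nat_lit 0, nat_lit 0, nat_lit 94, nat_lit 400000, nat_lit 0, nat_lit 0, [(nat_lit 15, [(nat_lit 5, nat_lit 1000)])],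
 ⟨p016_k8, nat_lit 0, nat_lit 0, nat_lit 317, nat_lit 0, nat_lit 269001, [nat_lit 2443200000, nat_lit 916400001, nat_lit 120399999], [], [nat_lit 16442935177, nat_lit 18550113949, nat_lit 14983671421, nat_lit 17061590872], nat_lit 1271250, nat_lit 1271250, nat_lit 279600, nat_lit 490000, nat_lit 0, nat_lit 0, [nat_lit 780000, nat_lit 1435000, nat_lit 1271250], [nat_lit 18, nat_lit 40, nat_lit 80, nat_lit 80, nat_lit 2, nat_lit 226, nat_lit 20, nat_lit 8]⟩, C1.Rw.none,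
 ⟨nat_lit 4472, nat_lit 5000, ⟨.ofNat (nat_lit 271418), .ofNat (nat_lit 328559), .ofNat (nat_lit 314253), .ofNat (nat_lit 371392), .ofNat (nat_lit 284805), .ofNat (nat_lit 339186), .ofNat (nat_lit 327916), .ofNat (nat_lit 382295)⟩, ⟨.ofNat (nat_lit 0), .ofNat (nat_lit 0), .ofNat (nat_lit 0), .ofNat (nat_lit 0), .ofNat (nat_lit 0), .ofNat (nat_lit 0), .ofNat (nat_lit 0), .ofNat (nat_lit 0)⟩⟩, [⟨nat_lit 0, nat_lit 100, nat_lit 88, nat_lit 81, nat_lit 744371145⟩]⟩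
noncomputable def p016_l146 : Lf2 := ⟨nat_lit 0, nat_lit 10, [nat_lit 0, nat_lit 5, nat_lit 5, nat_lit 20], false, nat_lit 0, nat_lit 0, nat_lit 0, nat_lit 0, ⟨nat_lit 907, nat_lit 0, nat_lit 93, nat_lit 6, nat_lit 156, nat_lit 0, nat_lit 0, nat_lit 0, nat_lit 0, nat_lit 215, nat_lit 228150, nat_lit 332, nat_lit 58146498, nat_lit 0, nat_lit 0, nat_lit 1952188, false, false⟩,
 nat_lit 0, nat_lit 8609, nat_lit 0, nat_lit 0, nat_lit 5960, nat_lit 5951, nat_lit 1291, nat_lit 0, nat_lit 0, nat_lit 0, nat_lit 0, nat_lit 0, nat_lit 0, nat_lit 0, nat_lit 0, nat_lit 93000, nat_lit 0, nat_lit 0, [(nat_lit 15, [(nat_lit 6, nat_lit 93)])],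
 ⟨p016_k23, nat_lit 0, nat_lit 0, nat_lit 386, nat_lit 0, nat_lit 476066, [nat_lit 3067914001, nat_lit 4265222000, nat_lit 6738279600], [], [nat_lit 20201715351, nat_lit 21255618180, nat_lit 20471500491, nat_lit 21217652341], nat_lit 1271250, nat_lit 1271250, nat_lit 490000, nat_lit 780000, nat_lit 0, nat_lit 0, [nat_lit 780000, nat_lit 1100000, nat_lit 1785000], [nat_lit 36, nat_lit 40, nat_lit 80, nat_lit 80, nat_lit 7, nat_lit 238, nat_lit 30, nat_lit 8]⟩, ⟨p016_k3, nat_lit 0, nat_lit 0, nat_lit 220, nat_lit 0, nat_lit 0, [nat_lit 4252016000, nat_lit 5668750000, nat_lit 10767904000], [], [nat_lit 29196580324, nat_lit 31398938576, nat_lit 29219178402, nat_lit 31296100346], nat_lit 0, nat_lit 0, nat_lit 0, nat_lit 0, nat_lit 0, nat_lit 0, [], [nat_lit 48, nat_lit 40, nat_lit 80, nat_lit 80, nat_lit 12, nat_lit 317, nat_lit 100, nat_lit 8]⟩,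
 ⟨nat_lit 4472, nat_lit 5000, ⟨.ofNat (nat_lit 328559), .ofNat (nat_lit 399984), .ofNat (nat_lit 371392), .ofNat (nat_lit 442816), .ofNat (nat_lit 339186), .ofNat (nat_lit 407160), .ofNat (nat_lit 382295), .ofNat (nat_lit 450269)⟩, ⟨.ofNat (nat_lit 0), .ofNat (nat_lit 0), .ofNat (nat_lit 0), .ofNat (nat_lit 0), .ofNat (nat_lit 0), .ofNat (nat_lit 0), .ofNat (nat_lit 0), .ofNat (nat_lit 0)⟩⟩, [⟨nat_lit 0, nat_lit 100, nat_lit 87, nat_lit 95, nat_lit 625682582⟩]⟩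
noncomputable def p016_l147 : Lf2 := ⟨nat_lit 0, nat_lit 10, [nat_lit 0, nat_lit 5, nat_lit 5, nat_lit 20], false, nat_lit 0, nat_lit 0, nat_lit 0, nat_lit 0, ⟨nat_lit 1000, nat_lit 0, nat_lit 0, nat_lit 0, nat_lit 0, nat_lit 0, nat_lit 0, nat_lit 0, nat_lit 0, nat_lit 0, nat_lit 0, nat_lit 0, nat_lit 0, nat_lit 0, nat_lit 0, nat_lit 0, false, false⟩,
 nat_lit 0, nat_lit 9758, nat_lit 0, nat_lit 0, nat_lit 6209, nat_lit 6646, nat_lit 1565, nat_lit 0, nat_lit 0, nat_lit 0, nat_lit 0, nat_lit 0, nat_lit 0, nat_lit 0, nat_lit 0, nat_lit 0, nat_lit 0, nat_lit 0, [],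
 ⟨p016_k2, nat_lit 0, nat_lit 0, nat_lit 342, nat_lit 0, nat_lit 331634, [nat_lit 3282000000, nat_lit 4688000000, nat_lit 9842000000], [], [nat_lit 27728578352, nat_lit 25792254959, nat_lit 43856381845, nat_lit 41116064531], nat_lit 1271250, nat_lit 1271250, nat_lit 780000, nat_lit 3072500, nat_lit 0, nat_lit 0, [nat_lit 780000, nat_lit 1100000, nat_lit 2127500], [nat_lit 42, nat_lit 40, nat_lit 80, nat_lit 80, nat_lit 13, nat_lit 317, nat_lit 100, nat_lit 9]⟩, ⟨p016_k3, nat_lit 0, nat_lit 0, nat_lit 239, nat_lit 0, nat_lit 0, [nat_lit 4688000000, nat_lit 6250000000, nat_lit 11872000000], [], [nat_lit 32148581140, nat_lit 34452802572, nat_lit 44959209856, nat_lit 46044634400], nat_lit 0, nat_lit 0, nat_lit 0, nat_lit 0, nat_lit 0, nat_lit 0, [], [nat_lit 48, nat_lit 40, nat_lit 80, nat_lit 80, nat_lit 12, nat_lit 401, nat_lit 175, nat_lit 10]⟩,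
 zbF0, []⟩
noncomputable def p016_l148 : Lf2 := ⟨nat_lit 0, nat_lit 10, [nat_lit 0, nat_lit 5, nat_lit 5, nat_lit 20], false, nat_lit 0, nat_lit 0, nat_lit 0, nat_lit 0, ⟨nat_lit 1000, nat_lit 0, nat_lit 0, nat_lit 0, nat_lit 0, nat_lit 0, nat_lit 0, nat_lit 0, nat_lit 0, nat_lit 0, nat_lit 0, nat_lit 0, nat_lit 0, nat_lit 0, nat_lit 0, nat_lit 0, false, false⟩,
 nat_lit 0, nat_lit 8555, nat_lit 0, nat_lit 0, nat_lit 5922, nat_lit 6646, nat_lit 1433, nat_lit 0, nat_lit 0, nat_lit 0, nat_lit 0, nat_lit 0, nat_lit 0, nat_lit 0, nat_lit 0, nat_lit 0, nat_lit 0, nat_lit 0, [],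
 ⟨p016_k23, nat_lit 0, nat_lit 0, nat_lit 374, nat_lit 0, nat_lit 476066, [nat_lit 3282000000, nat_lit 4688000000, nat_lit 7968000000], [], [nat_lit 24946644522, nat_lit 23160724590, nat_lit 36678375492, nat_lit 37842239032], nat_lit 1271250, nat_lit 1271250, nat_lit 780000, nat_lit 3072500, nat_lit 0, nat_lit 0, [nat_lit 780000, nat_lit 1100000, nat_lit 1785000], [nat_lit 36, nat_lit 40, nat_lit 80, nat_lit 80, nat_lit 7, nat_lit 317, nat_lit 100, nat_lit 10]⟩, ⟨p016_k3, nat_lit 0, nat_lit 0, nat_lit 239, nat_lit 0, nat_lit 0, [nat_lit 4688000000, nat_lit 6250000000, nat_lit 11872000000], [], [nat_lit 32148581140, nat_lit 34452802572, nat_lit 44959209856, nat_lit 46044634400], nat_lit 0, nat_lit 0, nat_lit 0, nat_lit 0, nat_lit 0, nat_lit 0, [], [nat_lit 48, nat_lit 40, nat_lit 80, nat_lit 80, nat_lit 12, nat_lit 401, nat_lit 175, nat_lit 10]⟩,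
 zbF0, []⟩
noncomputable def p016_l149 : Lf2 := ⟨nat_lit 0, nat_lit 10, [nat_lit 0, nat_lit 5, nat_lit 5, nat_lit 20], true, nat_lit 0, nat_lit 0, nat_lit 0, nat_lit 0, ⟨nat_lit 0, nat_lit 0, nat_lit 1000, nat_lit 6, nat_lit 117, nat_lit 0, nat_lit 0, nat_lit 0, nat_lit 0, nat_lit 215, nat_lit 129067, nat_lit 303, nat_lit 61679917, nat_lit 0, nat_lit 0, nat_lit 1386555, false, false⟩,
 nat_lit 0, nat_lit 5139, nat_lit 0, nat_lit 0, nat_lit 3270, nat_lit 0, nat_lit 117, nat_lit 0, nat_lit 0, nat_lit 0, nat_lit 0, nat_lit 0, nat_lit 0, nat_lit 0, nat_lit 95, nat_lit 400000, nat_lit 0, nat_lit 0, [(nat_lit 12, [(nat_lit 5, nat_lit 1000)])],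
 ⟨p016_k0, nat_lit 0, nat_lit 0, nat_lit 315, nat_lit 0, nat_lit 93837, [nat_lit 2380800000, nat_lit 1365333334, nat_lit 202000000], [], [nat_lit 15819550030, nat_lit 17036939583, nat_lit 15167982945, nat_lit 16239712865], nat_lit 1271250, nat_lit 1271250, nat_lit 205650, nat_lit 490000, nat_lit 0, nat_lit 0, [nat_lit 780000, nat_lit 1435000, nat_lit 1271250], [nat_lit 8, nat_lit 40, nat_lit 80, nat_lit 80, nat_lit 1, nat_lit 226, nat_lit 20, nat_lit 7]⟩, C1.Rw.none,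
 ⟨nat_lit 5000, nat_lit 5478, ⟨.ofNat (nat_lit 235487), .ofNat (nat_lit 317913), .ofNat (nat_lit 256844), .ofNat (nat_lit 339271), .ofNat (nat_lit 249999), .ofNat (nat_lit 328570), .ofNat (nat_lit 271427), .ofNat (nat_lit 349999)⟩, ⟨.ofNat (nat_lit 0), .ofNat (nat_lit 0), .ofNat (nat_lit 0), .ofNat (nat_lit 0), .ofNat (nat_lit 0), .ofNat (nat_lit 0), .ofNat (nat_lit 0), .ofNat (nat_lit 0)⟩⟩, [⟨nat_lit 0, nat_lit 100, nat_lit 92, nat_lit 68, nat_lit 197729609⟩]⟩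
noncomputable def p016_l150 : Lf2 := ⟨nat_lit 0, nat_lit 10, [nat_lit 0, nat_lit 5, nat_lit 5, nat_lit 20], true, nat_lit 0, nat_lit 0, nat_lit 0, nat_lit 0, ⟨nat_lit 0, nat_lit 0, nat_lit 1000, nat_lit 6, nat_lit 128, nat_lit 0, nat_lit 0, nat_lit 0, nat_lit 0, nat_lit 215, nat_lit 153600, nat_lit 311, nat_lit 60751397, nat_lit 0, nat_lit 0, nat_lit 1550108, false, false⟩,
 nat_lit 0, nat_lit 5196, nat_lit 0, nat_lit 0, nat_lit 3306, nat_lit 0, nat_lit 117, nat_lit 0, nat_lit 0, nat_lit 0, nat_lit 0, nat_lit 0, nat_lit 0, nat_lit 0, nat_lit 95, nat_lit 400000, nat_lit 0, nat_lit 0, [(nat_lit 12, [(nat_lit 5, nat_lit 1000)])],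
 ⟨p016_k0, nat_lit 0, nat_lit 0, nat_lit 319, nat_lit 0, nat_lit 133735, [nat_lit 2380800000, nat_lit 1365333334, nat_lit 202000000], [], [nat_lit 15598546479, nat_lit 16762663625, nat_lit 15113635346, nat_lit 16187894897], nat_lit 1271250, nat_lit 1271250, nat_lit 279600, nat_lit 490000, nat_lit 0, nat_lit 0, [nat_lit 780000, nat_lit 1435000, nat_lit 1271250], [nat_lit 8, nat_lit 40, nat_lit 80, nat_lit 80, nat_lit 1, nat_lit 226, nat_lit 20, nat_lit 7]⟩, C1.Rw.none,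
 ⟨nat_lit 5000, nat_lit 5478, ⟨.ofNat (nat_lit 279324), .ofNat (nat_lit 339271), .ofNat (nat_lit 290003), .ofNat (nat_lit 349949), .ofNat (nat_lit 292856), .ofNat (nat_lit 349999), .ofNat (nat_lit 303570), .ofNat (nat_lit 360713)⟩, ⟨.ofNat (nat_lit 0), .ofNat (nat_lit 0), .ofNat (nat_lit 0), .ofNat (nat_lit 0), .ofNat (nat_lit 0), .ofNat (nat_lit 0), .ofNat (nat_lit 0), .ofNat (nat_lit 0)⟩⟩, [⟨nat_lit 0, nat_lit 100, nat_lit 94, nat_lit 76, nat_lit 200127121⟩]⟩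
noncomputable def p016_l151 : Lf2 := ⟨nat_lit 0, nat_lit 10, [nat_lit 0, nat_lit 5, nat_lit 5, nat_lit 20], false, nat_lit 0, nat_lit 0, nat_lit 0, nat_lit 0, ⟨nat_lit 668, nat_lit 0, nat_lit 332, nat_lit 6, nat_lit 135, nat_lit 0, nat_lit 0, nat_lit 0, nat_lit 0, nat_lit 215, nat_lit 173400, nat_lit 317, nat_lit 60104018, nat_lit 0, nat_lit 0, nat_lit 1657312, false, false⟩,
 nat_lit 11358, nat_lit 0, nat_lit 0, nat_lit 2689, nat_lit 7227, nat_lit 6917, nat_lit 911, nat_lit 0, nat_lit 0, nat_lit 851, nat_lit 0, nat_lit 0, nat_lit 0, nat_lit 0, nat_lit 0, nat_lit 80830, nat_lit 0, nat_lit 0, [(nat_lit 12, [(nat_lit 3, nat_lit 31), (nat_lit 4, nat_lit 301)])],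
 ⟨p016_k0, nat_lit 0, nat_lit 0, nat_lit 327, nat_lit 0, nat_lit 176066, [nat_lit 4344040800, nat_lit 4082158401, nat_lit 6011532000], [], [nat_lit 21155715839, nat_lit 23193744552, nat_lit 19770439324, nat_lit 21391764733], nat_lit 1271250, nat_lit 1271250, nat_lit 330400, nat_lit 490000, nat_lit 0, nat_lit 0, [nat_lit 780000, nat_lit 1435000, nat_lit 1271250], [nat_lit 8, nat_lit 40, nat_lit 80, nat_lit 80, nat_lit 1, nat_lit 226, nat_lit 20, nat_lit 7]⟩, ⟨p016_k20, nat_lit 0, nat_lit 0, nat_lit 331, nat_lit 0, nat_lit 185640, [nat_lit 3131584000, nat_lit 5322624000, nat_lit 6574456000], [], [nat_lit 16448185909, nat_lit 17147807713, nat_lit 14979510103, nat_lit 15411820650], nat_lit 1271250, nat_lit 1271250, nat_lit 330400, nat_lit 490000, nat_lit 0, nat_lit 0, [nat_lit 1100000, nat_lit 1785000, nat_lit 1271250], [nat_lit 29, nat_lit 40, nat_lit 80, nat_lit 80, nat_lit 17, nat_lit 317,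 nat_lit 100, nat_lit 9]⟩,
 ⟨nat_lit 5000, nat_lit 5478, ⟨.ofNat (nat_lit 304989), .ofNat (nat_lit 349949), .ofNat (nat_lit 315668), .ofNat (nat_lit 360625), .ofNat (nat_lit 317856), .ofNat (nat_lit 360713), .ofNat (nat_lit 328570), .ofNat (nat_lit 371424)⟩, ⟨.ofNat (nat_lit 0), .ofNat (nat_lit 0), .ofNat (nat_lit 0), .ofNat (nat_lit 0), .ofNat (nat_lit 0), .ofNat (nat_lit 0), .ofNat (nat_lit 0), .ofNat (nat_lit 0)⟩⟩, [⟨nat_lit 0, nat_lit 100, nat_lit 96, nat_lit 81, nat_lit 1110773632⟩]⟩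
noncomputable def p016_l152 : Lf2 := ⟨nat_lit 0, nat_lit 10, [nat_lit 0, nat_lit 5, nat_lit 5, nat_lit 20], true, nat_lit 0, nat_lit 0, nat_lit 0, nat_lit 0, ⟨nat_lit 0, nat_lit 0, nat_lit 1000, nat_lit 6, nat_lit 163, nat_lit 0, nat_lit 0, nat_lit 0, nat_lit 0, nat_lit 215, nat_lit 45067, nat_lit 267, nat_lit 57474153, nat_lit 0, nat_lit 0, nat_lit 2044475, false, false⟩,
 nat_lit 0, nat_lit 5403, nat_lit 0, nat_lit 0, nat_lit 3438, nat_lit 0, nat_lit 88, nat_lit 0, nat_lit 0, nat_lit 0, nat_lit 0, nat_lit 0, nat_lit 0, nat_lit 0, nat_lit 95, nat_lit 400000, nat_lit 0, nat_lit 0, [(nat_lit 12, [(nat_lit 5, nat_lit 1000)])],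
 ⟨p016_k0, nat_lit 0, nat_lit 0, nat_lit 302, nat_lit 0, nat_lit 166665, [nat_lit 2380800000, nat_lit 1365333334, nat_lit 202000000], [], [nat_lit 15293678608, nat_lit 16183405056, nat_lit 16086852104, nat_lit 17075846208], nat_lit 1271250, nat_lit 1271250, nat_lit 490000, nat_lit 1100001, nat_lit 0, nat_lit 0, [nat_lit 780000, nat_lit 1435000, nat_lit 1271250], [nat_lit 8, nat_lit 40, nat_lit 80, nat_lit 80, nat_lit 1, nat_lit 249, nat_lit 40, nat_lit 7]⟩, C1.Rw.none,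
 ⟨nat_lit 5000, nat_lit 5478, ⟨.ofNat (nat_lit 317913), .ofNat (nat_lit 467773), .ofNat (nat_lit 339271), .ofNat (nat_lit 489121), .ofNat (nat_lit 328570), .ofNat (nat_lit 471421), .ofNat (nat_lit 349999), .ofNat (nat_lit 492840)⟩, ⟨.ofNat (nat_lit 0), .ofNat (nat_lit 0), .ofNat (nat_lit 0), .ofNat (nat_lit 0), .ofNat (nat_lit 0), .ofNat (nat_lit 0), .ofNat (nat_lit 0), .ofNat (nat_lit 0)⟩⟩, []⟩
noncomputable def p016_l153 : Lf2 := ⟨nat_lit 0, nat_lit 10, [nat_lit 0, nat_lit 5, nat_lit 5, nat_lit 20], false, nat_lit 0, nat_lit 0, nat_lit 0, nat_lit 0, ⟨nat_lit 531, nat_lit 0, nat_lit 469, nat_lit 6, nat_lit 171, nat_lit 0, nat_lit 0, nat_lit 0, nat_lit 0, nat_lit 215, nat_lit 24681, nat_lit 252, nat_lit 56606345, nat_lit 0, nat_lit 0, nat_lit 2157518, false, false⟩,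
 nat_lit 10026, nat_lit 0, nat_lit 0, nat_lit 0, nat_lit 6380, nat_lit 5836, nat_lit 725, nat_lit 0, nat_lit 0, nat_lit 725, nat_lit 0, nat_lit 0, nat_lit 0, nat_lit 0, nat_lit 0, nat_lit 115990, nat_lit 0, nat_lit 0, [(nat_lit 12, [(nat_lit 3, nat_lit 18), (nat_lit 4, nat_lit 451)])],
 ⟨p016_k0, nat_lit 0, nat_lit 0, nat_lit 306, nat_lit 0, nat_lit 176066, [nat_lit 3658352400, nat_lit 3184626001, nat_lit 4422035200], [], [nat_lit 19354958770, nat_lit 20546940986, nat_lit 19271682426, nat_lit 20422849962], nat_lit 1271250, nat_lit 1271250, nat_lit 490000, nat_lit 1100001, nat_lit 0, nat_lit 0, [nat_lit 780000, nat_lit 1435000, nat_lit 1271250], [nat_lit 8, nat_lit 40, nat_lit 80, nat_lit 80, nat_lit 1, nat_lit 249, nat_lit 40, nat_lit 7]⟩, ⟨p016_k18, nat_lit 0, nat_lit 0, nat_lit 310, nat_lit 0, nat_lit 196118, [nat_lit 2489328000, nat_lit 4231008000, nat_lit 5226102000], [], [nat_lit 13782858212,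 nat_lit 12567515428, nat_lit 18166117840, nat_lit 15416159624], nat_lit 1271250, nat_lit 1271250, nat_lit 490000, nat_lit 1100001, nat_lit 0, nat_lit 0, [nat_lit 1100000, nat_lit 1785000, nat_lit 1271250], [nat_lit 29, nat_lit 40, nat_lit 80, nat_lit 80, nat_lit 17, nat_lit 345, nat_lit 125, nat_lit 10]⟩,
 ⟨nat_lit 5000, nat_lit 5478, ⟨.ofNat (nat_lit 339271), .ofNat (nat_lit 489121), .ofNat (nat_lit 360625), .ofNat (nat_lit 510468), .ofNat (nat_lit 349999), .ofNat (nat_lit 492840), .ofNat (nat_lit 371424), .ofNat (nat_lit 514258)⟩, ⟨.ofNat (nat_lit 0), .ofNat (nat_lit 0), .ofNat (nat_lit 0), .ofNat (nat_lit 0), .ofNat (nat_lit 0), .ofNat (nat_lit 0), .ofNat (nat_lit 0), .ofNat (nat_lit 0)⟩⟩, [⟨nat_lit 0, nat_lit 100, nat_lit 94, nat_lit 88, nat_lit 86549681⟩]⟩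
noncomputable def p016_l154 : Lf2 := ⟨nat_lit 1, nat_lit 10, [nat_lit 0, nat_lit 5, nat_lit 5, nat_lit 20], false, nat_lit 0, nat_lit 0, nat_lit 0, nat_lit 0, zbN0,
 nat_lit 0, nat_lit 0, nat_lit 0, nat_lit 0, nat_lit 0, nat_lit 0, nat_lit 0, nat_lit 0, nat_lit 0, nat_lit 0, nat_lit 0, nat_lit 0, nat_lit 0, nat_lit 0, nat_lit 0, nat_lit 0, nat_lit 0, nat_lit 0, [],
 C1.Rw.none, C1.Rw.none,
 zbF0, []⟩
noncomputable def p016_l155 : Lf2 := ⟨nat_lit 0, nat_lit 10, [nat_lit 0, nat_lit 5, nat_lit 5, nat_lit 20], false, nat_lit 0, nat_lit 0, nat_lit 0, nat_lit 0, ⟨nat_lit 19, nat_lit 0, nat_lit 981, nat_lit 6, nat_lit 155, nat_lit 0, nat_lit 0, nat_lit 0, nat_lit 0, nat_lit 215, nat_lit 40017, nat_lit 264, nat_lit 58294750, nat_lit 0, nat_lit 0, nat_lit 1931257, false, false⟩,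
 nat_lit 437, nat_lit 4181, nat_lit 0, nat_lit 0, nat_lit 3197, nat_lit 231, nat_lit 0, nat_lit 0, nat_lit 0, nat_lit 24, nat_lit 0, nat_lit 0, nat_lit 0, nat_lit 0, nat_lit 85, nat_lit 392400, nat_lit 0, nat_lit 0, [(nat_lit 15, [(nat_lit 5, nat_lit 981)])],
 ⟨p016_k8, nat_lit 0, nat_lit 0, nat_lit 291, nat_lit 0, nat_lit 199434, [nat_lit 2372569200, nat_lit 873458401, nat_lit 95627399], [], [nat_lit 16375873261, nat_lit 17562841986, nat_lit 17119867937, nat_lit 18166059247], nat_lit 1271250, nat_lit 1271250, nat_lit 279600, nat_lit 1100001, nat_lit 0, nat_lit 0, [nat_lit 780000, nat_lit 1435000, nat_lit 1271250], [nat_lit 18, nat_lit 40, nat_lit 80, nat_lit 80, nat_lit 2, nat_lit 249, nat_lit 40, nat_lit 8]⟩, ⟨p016_k1, nat_lit 0, nat_lit 0, nat_lit 486, nat_lit 0, nat_lit 277562, [nat_lit 89072000, nat_lit 151392000, nat_lit 225568000], [], [nat_lit 743865433, nat_lit 624535750, nat_lit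 828016564, nat_lit 719167978], nat_lit 1271250, nat_lit 1271250, nat_lit 279600, nat_lit 1100001, nat_lit 0, nat_lit 0, [nat_lit 1100000, nat_lit 1785000, nat_lit 1271250], [nat_lit 21, nat_lit 40, nat_lit 80, nat_lit 80, nat_lit 14, nat_lit 345, nat_lit 125, nat_lit 9]⟩,
 ⟨nat_lit 4472, nat_lit 5000, ⟨.ofNat (nat_lit 271418), .ofNat (nat_lit 471408), .ofNat (nat_lit 292837), .ofNat (nat_lit 492824), .ofNat (nat_lit 284805), .ofNat (nat_lit 475134), .ofNat (nat_lit 306362), .ofNat (nat_lit 496688)⟩, ⟨.ofNat (nat_lit 0), .ofNat (nat_lit 0), .ofNat (nat_lit 0), .ofNat (nat_lit 0), .ofNat (nat_lit 0), .ofNat (nat_lit 0), .ofNat (nat_lit 0), .ofNat (nat_lit 0)⟩⟩, [⟨nat_lit 0, nat_lit 100, nat_lit 84, nat_lit 85, nat_lit 55162723⟩]⟩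
noncomputable def p016_l156 : Lf2 := ⟨nat_lit 0, nat_lit 10, [nat_lit 0, nat_lit 5, nat_lit 5, nat_lit 20], false, nat_lit 0, nat_lit 0, nat_lit 0, nat_lit 0, ⟨nat_lit 190, nat_lit 0, nat_lit 810, nat_lit 6, nat_lit 169, nat_lit 0, nat_lit 0, nat_lit 0, nat_lit 0, nat_lit 215, nat_lit 19267, nat_lit 249, nat_lit 56877699, nat_lit 0, nat_lit 0, nat_lit 2122880, false, false⟩,
 nat_lit 5599, nat_lit 0, nat_lit 0, nat_lit 0, nat_lit 3876, nat_lit 3259, nat_lit 0, nat_lit 0, nat_lit 0, nat_lit 33, nat_lit 0, nat_lit 0, nat_lit 0, nat_lit 0, nat_lit 44, nat_lit 474600, nat_lit 0, nat_lit 0, [(nat_lit 15, [(nat_lit 5, nat_lit 559), (nat_lit 6, nat_lit 251)])],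
 ⟨p016_k8, nat_lit 0, nat_lit 0, nat_lit 303, nat_lit 0, nat_lit 269001, [nat_lit 2132756801, nat_lit 952752401, nat_lit 38208799], [], [nat_lit 17147165051, nat_lit 18233231197, nat_lit 17498308055, nat_lit 18434421185], nat_lit 1271250, nat_lit 1271250, nat_lit 382400, nat_lit 1100001, nat_lit 0, nat_lit 0, [nat_lit 780000, nat_lit 1435000, nat_lit 1271250], [nat_lit 18, nat_lit 40, nat_lit 80, nat_lit 80, nat_lit 2, nat_lit 249, nat_lit 40, nat_lit 8]⟩, ⟨p016_k18, nat_lit 0, nat_lit 0, nat_lit 387, nat_lit 0, nat_lit 332538, [nat_lit 890720000, nat_lit 1513920000, nat_lit 1869980000], [], [nat_lit 6266789883, nat_lit 6615401316, nat_lit 6378862826, nat_lit 5436316980], nat_lit 1271250, nat_lit 1271250, nat_lit 382400, nat_lit 1100001, nat_lit 0, nat_lit 0, [nat_lit 1100000, nat_lit 1785000, nat_lit 1271250], [nat_lit 29, nat_lit 40, nat_lit 80, nat_lit 80, nat_lit 17, nat_lit 345, nat_lit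 125, nat_lit 10]⟩,
 ⟨nat_lit 4472, nat_lit 5000, ⟨.ofNat (nat_lit 321407), .ofNat (nat_lit 492824), .ofNat (nat_lit 342823), .ofNat (nat_lit 514240), .ofNat (nat_lit 333552), .ofNat (nat_lit 496688), .ofNat (nat_lit 355106), .ofNat (nat_lit 518242)⟩, ⟨.ofNat (nat_lit 0), .ofNat (nat_lit 0), .ofNat (nat_lit 0), .ofNat (nat_lit 0), .ofNat (nat_lit 0), .ofNat (nat_lit 0), .ofNat (nat_lit 0), .ofNat (nat_lit 0)⟩⟩, [⟨nat_lit 0, nat_lit 100, nat_lit 89, nat_lit 86, nat_lit 48639702⟩, ⟨nat_lit 0, nat_lit 100, nat_lit 87, nat_lit 95, nat_lit 189392273⟩]⟩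
noncomputable def p016_l157 : Lf2 := ⟨nat_lit 0, nat_lit 10, [nat_lit 0, nat_lit 5, nat_lit 5, nat_lit 20], false, nat_lit 0, nat_lit 0, nat_lit 0, nat_lit 0, ⟨nat_lit 1000, nat_lit 0, nat_lit 0, nat_lit 0, nat_lit 0, nat_lit 0, nat_lit 0, nat_lit 0, nat_lit 0, nat_lit 0, nat_lit 0, nat_lit 0, nat_lit 0, nat_lit 0, nat_lit 0, nat_lit 0, false, false⟩,
 nat_lit 12524, nat_lit 0, nat_lit 0, nat_lit 0, nat_lit 5319, nat_lit 6630, nat_lit 0, nat_lit 0, nat_lit 0, nat_lit 1027, nat_lit 0, nat_lit 0, nat_lit 0, nat_lit 0, nat_lit 0, nat_lit 0, nat_lit 0, nat_lit 0, [],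
 ⟨p016_k0, nat_lit 0, nat_lit 0, nat_lit 227, nat_lit 0, nat_lit 184475, [nat_lit 3282000000, nat_lit 6250000000, nat_lit 9842000000], [], [nat_lit 28867379516, nat_lit 30212536408, nat_lit 31414721340, nat_lit 32684378486], nat_lit 1271250, nat_lit 1271250, nat_lit 1100001, nat_lit 1785000, nat_lit 0, nat_lit 0, [nat_lit 780000, nat_lit 1435000, nat_lit 1271250], [nat_lit 8, nat_lit 40, nat_lit 80, nat_lit 80, nat_lit 1, nat_lit 272, nat_lit 60, nat_lit 8]⟩, ⟨p016_k1, nat_lit 0, nat_lit 0, nat_lit 358, nat_lit 0, nat_lit 231776, [nat_lit 4688000000, nat_lit 7968000000, nat_lit 11872000000], [], [nat_lit 33645865760, nat_lit 33325375600, nat_lit 41795305280, nat_lit 35547113720], nat_lit 1271250, nat_lit 1271250, nat_lit 1100001, nat_lit 1785000, nat_lit 0, nat_lit 0, [nat_lit 1100000, nat_lit 1785000, nat_lit 1271250], [nat_lit 21, nat_lit 40, nat_lit 80, nat_lit 80, nat_lit 14, nat_lit 373,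 nat_lit 150, nat_lit 10]⟩,
 zbF0, []⟩
noncomputable def p016_l158 : Lf2 := ⟨nat_lit 0, nat_lit 10, [nat_lit 0, nat_lit 5, nat_lit 5, nat_lit 20], false, nat_lit 0, nat_lit 0, nat_lit 0, nat_lit 0, ⟨nat_lit 1000, nat_lit 0, nat_lit 0, nat_lit 0, nat_lit 0, nat_lit 0, nat_lit 0, nat_lit 0, nat_lit 0, nat_lit 0, nat_lit 0, nat_lit 0, nat_lit 0, nat_lit 0, nat_lit 0, nat_lit 0, false, false⟩,
 nat_lit 12524, nat_lit 0, nat_lit 0, nat_lit 0, nat_lit 8670, nat_lit 6630, nat_lit 551, nat_lit 0, nat_lit 0, nat_lit 1024, nat_lit 0, nat_lit 0, nat_lit 0, nat_lit 0, nat_lit 0, nat_lit 0, nat_lit 0, nat_lit 0, [],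
 ⟨p016_k8, nat_lit 0, nat_lit 0, nat_lit 260, nat_lit 0, nat_lit 269001, [nat_lit 3282000000, nat_lit 6250000000, nat_lit 7968000000], [], [nat_lit 25011434430, nat_lit 26573144770, nat_lit 27055507790, nat_lit 28358298210], nat_lit 1271250, nat_lit 1271250, nat_lit 1100001, nat_lit 1785000, nat_lit 0, nat_lit 0, [nat_lit 780000, nat_lit 1435000, nat_lit 1271250], [nat_lit 18, nat_lit 40, nat_lit 80, nat_lit 80, nat_lit 2, nat_lit 272, nat_lit 60, nat_lit 9]⟩, ⟨p016_k1, nat_lit 0, nat_lit 0, nat_lit 413, nat_lit 0, nat_lit 374382, [nat_lit 4688000000, nat_lit 7968000000, nat_lit 11872000000], [], [nat_lit 33645865760, nat_lit 33365350600, nat_lit 41795305280, nat_lit 35547113720], nat_lit 1271250, nat_lit 1271250, nat_lit 1100001, nat_lit 1785000, nat_lit 0, nat_lit 0, [nat_lit 1100000, nat_lit 1785000, nat_lit 1271250], [nat_lit 21, nat_lit 40, nat_lit 80, nat_lit 80, nat_lit 14, nat_lit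 373, nat_lit 150, nat_lit 10]⟩,
 zbF0, []⟩
noncomputable def p016_l159 : Lf2 := ⟨nat_lit 0, nat_lit 10, [nat_lit 0, nat_lit 5, nat_lit 5, nat_lit 20], false, nat_lit 0, nat_lit 0, nat_lit 0, nat_lit 0, ⟨nat_lit 1000, nat_lit 0, nat_lit 0, nat_lit 0, nat_lit 0, nat_lit 0, nat_lit 0, nat_lit 0, nat_lit 0, nat_lit 0, nat_lit 0, nat_lit 0, nat_lit 0, nat_lit 0, nat_lit 0, nat_lit 0, false, false⟩,
 nat_lit 12383, nat_lit 0, nat_lit 0, nat_lit 0, nat_lit 6346, nat_lit 6555, nat_lit 916, nat_lit 0, nat_lit 0, nat_lit 846, nat_lit 0, nat_lit 0, nat_lit 0, nat_lit 0, nat_lit 0, nat_lit 0, nat_lit 0, nat_lit 0, [],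
 ⟨p016_k0, nat_lit 0, nat_lit 0, nat_lit 339, nat_lit 0, nat_lit 297978, [nat_lit 3282000000, nat_lit 6250000000, nat_lit 9842000000], [], [nat_lit 28961028176, nat_lit 30759764988, nat_lit 37453452144, nat_lit 39030438744], nat_lit 1271250, nat_lit 1271250, nat_lit 1271250, nat_lit 1271250, nat_lit 0, nat_lit 0, [nat_lit 780000, nat_lit 1435000, nat_lit 1271250], [nat_lit 8, nat_lit 40, nat_lit 80, nat_lit 80, nat_lit 1, nat_lit 317, nat_lit 100, nat_lit 9]⟩, ⟨p016_k1, nat_lit 0, nat_lit 0, nat_lit 416, nat_lit 0, nat_lit 374382, [nat_lit 4688000000, nat_lit 7968000000, nat_lit 11872000000], [], [nat_lit 35700251540, nat_lit 36720523500, nat_lit 41707626520, nat_lit 42398905620], nat_lit 1271250, nat_lit 1271250, nat_lit 1271250, nat_lit 1271250, nat_lit 0, nat_lit 0, [nat_lit 1100000, nat_lit 1785000, nat_lit 1271250], [nat_lit 21, nat_lit 40, nat_lit 80, nat_lit 80, nat_lit 14, nat_lit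 401, nat_lit 175, nat_lit 10]⟩,
 zbF0, []⟩
noncomputable def p016_l160 : Lf2 := ⟨nat_lit 0, nat_lit 10, [nat_lit 0, nat_lit 5, nat_lit 5, nat_lit 20], true, nat_lit 0, nat_lit 0, nat_lit 0, nat_lit 0, ⟨nat_lit 0, nat_lit 1000, nat_lit 0, nat_lit 6, nat_lit 180, nat_lit 0, nat_lit 0, nat_lit 0, nat_lit 0, nat_lit 0, nat_lit 0, nat_lit 0, nat_lit 0, nat_lit 0, nat_lit 0, nat_lit 5000000, false, false⟩,
 nat_lit 0, nat_lit 8349, nat_lit 0, nat_lit 0, nat_lit 5312, nat_lit 0, nat_lit 109, nat_lit 0, nat_lit 0, nat_lit 0, nat_lit 0, nat_lit 0, nat_lit 0, nat_lit 0, nat_lit 0, nat_lit 400000, nat_lit 0, nat_lit 0, [(nat_lit 12, [(nat_lit 1, nat_lit 1000)])],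
 ⟨p016_k0, nat_lit 0, nat_lit 0, nat_lit 440, nat_lit 0, nat_lit 331634, [nat_lit 2068400000, nat_lit 2721200001, nat_lit 2642799999], [], [nat_lit 26338177125, nat_lit 27226494890, nat_lit 29042189154, nat_lit 26636873058], nat_lit 1271250, nat_lit 1271250, nat_lit 205650, nat_lit 1715250, nat_lit 0, nat_lit 0, [nat_lit 780000, nat_lit 1435000, nat_lit 1271250], [nat_lit 8, nat_lit 40, nat_lit 80, nat_lit 80, nat_lit 1, nat_lit 272, nat_lit 60, nat_lit 8]⟩, C1.Rw.none,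
 ⟨nat_lit 5000, nat_lit 5478, ⟨.ofNat (nat_lit 235487), .ofNat (nat_lit 617614), .ofNat (nat_lit 278201), .ofNat (nat_lit 660309), .ofNat (nat_lit 249999), .ofNat (nat_lit 614253), .ofNat (nat_lit 292856), .ofNat (nat_lit 657090)⟩, ⟨.ofNat (nat_lit 0), .ofNat (nat_lit 0), .ofNat (nat_lit 0), .ofNat (nat_lit 0), .ofNat (nat_lit 0), .ofNat (nat_lit 0), .ofNat (nat_lit 0), .ofNat (nat_lit 0)⟩⟩, []⟩
noncomputable def p016_l161 : Lf2 := ⟨nat_lit 0, nat_lit 10, [nat_lit 0, nat_lit 5, nat_lit 5, nat_lit 20], true, nat_lit 0, nat_lit 0, nat_lit 0, nat_lit 0, ⟨nat_lit 0, nat_lit 1000, nat_lit 0, nat_lit 6, nat_lit 187, nat_lit 0, nat_lit 0, nat_lit 0, nat_lit 0, nat_lit 0, nat_lit 0, nat_lit 0, nat_lit 0, nat_lit 0, nat_lit 0, nat_lit 5000000, false, false⟩,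
 nat_lit 0, nat_lit 7180, nat_lit 0, nat_lit 0, nat_lit 4970, nat_lit 0, nat_lit 0, nat_lit 0, nat_lit 0, nat_lit 0, nat_lit 0, nat_lit 0, nat_lit 0, nat_lit 0, nat_lit 0, nat_lit 626200, nat_lit 0, nat_lit 0, [(nat_lit 15, [(nat_lit 1, nat_lit 623), (nat_lit 2, nat_lit 377)])],
 ⟨p016_k8, nat_lit 0, nat_lit 0, nat_lit 417, nat_lit 0, nat_lit 476066, [nat_lit 2055411801, nat_lit 1862177934, nat_lit 1180023600], [], [nat_lit 22372092904, nat_lit 23326252425, nat_lit 25742184830, nat_lit 23595663560], nat_lit 1271250, nat_lit 1271250, nat_lit 279600, nat_lit 1722000, nat_lit 0, nat_lit 0, [nat_lit 780000, nat_lit 1435000, nat_lit 1271250], [nat_lit 18, nat_lit 40, nat_lit 80, nat_lit 80, nat_lit 2, nat_lit 272, nat_lit 60, nat_lit 9]⟩, C1.Rw.none,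
 ⟨nat_lit 4472, nat_lit 5000, ⟨.ofNat (nat_lit 271418), .ofNat (nat_lit 614256), .ofNat (nat_lit 314253), .ofNat (nat_lit 657088), .ofNat (nat_lit 284805), .ofNat (nat_lit 611081), .ofNat (nat_lit 327916), .ofNat (nat_lit 654189)⟩, ⟨.ofNat (nat_lit 0), .ofNat (nat_lit 0), .ofNat (nat_lit 0), .ofNat (nat_lit 0), .ofNat (nat_lit 0), .ofNat (nat_lit 0), .ofNat (nat_lit 0), .ofNat (nat_lit 0)⟩⟩, []⟩
noncomputable def p016_l162 : Lf2 := ⟨nat_lit 0, nat_lit 10, [nat_lit 0, nat_lit 5, nat_lit 5, nat_lit 20], false, nat_lit 0, nat_lit 0, nat_lit 0, nat_lit 0, ⟨nat_lit 1000, nat_lit 0, nat_lit 0, nat_lit 0, nat_lit 0, nat_lit 0, nat_lit 0, nat_lit 0, nat_lit 0, nat_lit 0, nat_lit 0, nat_lit 0, nat_lit 0, nat_lit 0, nat_lit 0, nat_lit 0, false, false⟩,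
 nat_lit 0, nat_lit 9197, nat_lit 0, nat_lit 0, nat_lit 5852, nat_lit 6209, nat_lit 731, nat_lit 0, nat_lit 0, nat_lit 0, nat_lit 0, nat_lit 0, nat_lit 0, nat_lit 0, nat_lit 0, nat_lit 0, nat_lit 0, nat_lit 0, [],
 ⟨p016_k0, nat_lit 0, nat_lit 0, nat_lit 443, nat_lit 0, nat_lit 535681, [nat_lit 3282000000, nat_lit 6250000000, nat_lit 9842000000], [], [nat_lit 35006500990, nat_lit 36225497326, nat_lit 40246436855, nat_lit 41251322119], nat_lit 1271250, nat_lit 1271250, nat_lit 1271250, nat_lit 1271250, nat_lit 0, nat_lit 0, [nat_lit 780000, nat_lit 1435000, nat_lit 1271250], [nat_lit 8, nat_lit 40, nat_lit 80, nat_lit 80, nat_lit 1, nat_lit 317, nat_lit 100, nat_lit 9]⟩, ⟨p016_k1, nat_lit 0, nat_lit 0, nat_lit 251, nat_lit 0, nat_lit 0, [nat_lit 4688000000, nat_lit 7968000000, nat_lit 11872000000], [], [nat_lit 34879316804, nat_lit 36632660364, nat_lit 44473643424, nat_lit 45552397600], nat_lit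 0, nat_lit 0, nat_lit 0, nat_lit 0, nat_lit 0, nat_lit 0, [], [nat_lit 21, nat_lit 40, nat_lit 80, nat_lit 80, nat_lit 14, nat_lit 401, nat_lit 175, nat_lit 10]⟩,
 zbF0, []⟩
noncomputable def p016_l163 : Lf2 := ⟨nat_lit 0, nat_lit 10, [nat_lit 0, nat_lit 5, nat_lit 5, nat_lit 20], false, nat_lit 0, nat_lit 0, nat_lit 0, nat_lit 0, ⟨nat_lit 0, nat_lit 1000, nat_lit 0, nat_lit 6, nat_lit 181, nat_lit 0, nat_lit 0, nat_lit 0, nat_lit 0, nat_lit 0, nat_lit 0, nat_lit 0, nat_lit 0, nat_lit 0, nat_lit 0, nat_lit 5000000, false, false⟩,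
 nat_lit 0, nat_lit 8887, nat_lit 0, nat_lit 0, nat_lit 5655, nat_lit 0, nat_lit 158, nat_lit 0, nat_lit 0, nat_lit 0, nat_lit 0, nat_lit 0, nat_lit 0, nat_lit 0, nat_lit 0, nat_lit 400000, nat_lit 0, nat_lit 0, [(nat_lit 12, [(nat_lit 1, nat_lit 1000)]), (nat_lit 15, [(nat_lit 1, nat_lit 1000)])],
 ⟨p016_k0, nat_lit 0, nat_lit 0, nat_lit 432, nat_lit 0, nat_lit 297978, [nat_lit 2068400000, nat_lit 2721200001, nat_lit 2642799999], [], [nat_lit 25344476668, nat_lit 27653645354, nat_lit 28507347882, nat_lit 26582925858], nat_lit 1271250, nat_lit 1271250, nat_lit 205650, nat_lit 1715250, nat_lit 0, nat_lit 0, [nat_lit 780000, nat_lit 1435000, nat_lit 1271250], [nat_lit 8, nat_lit 40, nat_lit 80, nat_lit 80, nat_lit 1, nat_lit 272, nat_lit 60, nat_lit 8]⟩, ⟨p016_k1, nat_lit 0, nat_lit 0, nat_lit 533, nat_lit 0, nat_lit 374382, [nat_lit 0, nat_lit 0, nat_lit 0], [], [nat_lit 0, nat_lit 0, nat_lit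 0, nat_lit 0], nat_lit 1271250, nat_lit 1271250, nat_lit 205650, nat_lit 1715250, nat_lit 0, nat_lit 0, [nat_lit 1100000, nat_lit 1785000, nat_lit 1271250], [nat_lit 21, nat_lit 40, nat_lit 80, nat_lit 80, nat_lit 14, nat_lit 373, nat_lit 150, nat_lit 10]⟩,
 ⟨nat_lit 4472, nat_lit 5478, ⟨.ofNat (nat_lit 235487), .ofNat (nat_lit 617523), .ofNat (nat_lit 278138), .ofNat (nat_lit 660148), .ofNat (nat_lit 264421), .ofNat (nat_lit 610987), .ofNat (nat_lit 307491), .ofNat (nat_lit 654031)⟩, ⟨.ofNat (nat_lit 0), .ofNat (nat_lit 0), .ofNat (nat_lit 0), .ofNat (nat_lit 0), .ofNat (nat_lit 0), .ofNat (nat_lit 0), .ofNat (nat_lit 0), .ofNat (nat_lit 0)⟩⟩, []⟩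
noncomputable def p016_l164 : Lf2 := ⟨nat_lit 0, nat_lit 10, [nat_lit 0, nat_lit 5, nat_lit 5, nat_lit 20], false, nat_lit 0, nat_lit 0, nat_lit 0, nat_lit 0, ⟨nat_lit 768, nat_lit 232, nat_lit 0, nat_lit 6, nat_lit 311, nat_lit 0, nat_lit 0, nat_lit 0, nat_lit 0, nat_lit 0, nat_lit 0, nat_lit 0, nat_lit 0, nat_lit 0, nat_lit 0, nat_lit 5000000, true, true⟩,
 nat_lit 9186, nat_lit 0, nat_lit 0, nat_lit 0, nat_lit 5845, nat_lit 4862, nat_lit 674, nat_lit 0, nat_lit 0, nat_lit 633, nat_lit 0, nat_lit 0, nat_lit 0, nat_lit 0, nat_lit 0, nat_lit 58000, nat_lit 0, nat_lit 0, [(nat_lit 12, [(nat_lit 0, nat_lit 232)]), (nat_lit 15, [(nat_lit 0, nat_lit 232)])],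
 ⟨p016_k0, nat_lit 0, nat_lit 0, nat_lit 339, nat_lit 0, nat_lit 297978, [nat_lit 3069024000, nat_lit 5485328000, nat_lit 8340867200], [], [nat_lit 29495551720, nat_lit 31232764540, nat_lit 36324905430, nat_lit 37627765580], nat_lit 1271250, nat_lit 1271250, nat_lit 1271250, nat_lit 1271250, nat_lit 0, nat_lit 0, [nat_lit 780000, nat_lit 1435000, nat_lit 1271250], [nat_lit 8, nat_lit 40, nat_lit 80, nat_lit 80, nat_lit 1, nat_lit 317, nat_lit 100, nat_lit 9]⟩, ⟨p016_k1, nat_lit 0, nat_lit 0, nat_lit 416, nat_lit 0, nat_lit 374382, [nat_lit 3600384000, nat_lit 6119424000, nat_lit 9117696000], [], [nat_lit 28021672820, nat_lit 28801371108, nat_lit 32317076552, nat_lit 32740142196], nat_lit 1271250, nat_lit 1271250, nat_lit 1271250, nat_lit 1271250, nat_lit 0, nat_lit 0, [nat_lit 1100000, nat_lit 1785000, nat_lit 1271250], [nat_lit 21, nat_lit 40, nat_lit 80, nat_lit 80, nat_lit 14, nat_lit 401,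 nat_lit 175, nat_lit 10]⟩,
 ⟨nat_lit 4472, nat_lit 5478, ⟨.ofNat (nat_lit 617523), .ofNat (nat_lit 917115), .ofNat (nat_lit 660148), .ofNat (nat_lit 959740), .ofNat (nat_lit 610987), .ofNat (nat_lit 882759), .ofNat (nat_lit 654031), .ofNat (nat_lit 925804)⟩, ⟨.ofNat (nat_lit 0), .ofNat (nat_lit 0), .ofNat (nat_lit 0), .ofNat (nat_lit 0), .ofNat (nat_lit 0), .ofNat (nat_lit 0), .ofNat (nat_lit 0), .ofNat (nat_lit 0)⟩⟩, []⟩
noncomputable def b_N_700_600_0_21 : St := ⟨false, nat_lit 1, nat_lit 2, nat_lit 0, nat_lit 40, nat_lit 280, nat_lit 320, nat_lit 240, nat_lit 280, nat_lit 36, nat_lit 400, nat_lit 0, nat_lit 0, nat_lit 0, nat_lit 0, nat_lit 0, nat_lit 0, nat_lit 80, nat_lit 120, nat_lit 0, nat_lit 0, nat_lit 0, nat_lit 0⟩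
theorem d_N_700_600_0_21 (h : EB TB.env) : Dead b_N_700_600_0_21 := chkB_sound0 h (T :=
(.gv
(.st (nat_lit 1)
(.spl (nat_lit 2) (nat_lit 120)
(.spl (nat_lit 0) (nat_lit 300)
(.spl (nat_lit 6) (nat_lit 104)
(.spl (nat_lit 1) (nat_lit 260)
(.spl (nat_lit 6) (nat_lit 92)
(.spl (nat_lit 0) (nat_lit 290)
(.leaf p016_l139)
(.trZ (nat_lit 0) (nat_lit 100) (nat_lit 91) (nat_lit 63) (nat_lit 40) (.leaf p016_l140)))
(.leaf p016_l141))
(.trZ (nat_lit 0) (nat_lit 100) (nat_lit 96) (nat_lit 69) (nat_lit 48) (.spl (nat_lit 0) (nat_lit 290)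
(.leaf p016_l142)
(.trZ (nat_lit 0) (nat_lit 100) (nat_lit 94) (nat_lit 73) (nat_lit 56) (.leaf p016_l143)))))
(.leaf p016_l144))
(.trZ (nat_lit 0) (nat_lit 100) (nat_lit 88) (nat_lit 68) (nat_lit 48) (.spl (nat_lit 2) (nat_lit 80)
(.leaf p016_l145)
(.leaf p016_l146))))
(.spl (nat_lit 0) (nat_lit 300)
(.leaf p016_l147)
(.leaf p016_l148)))
(.spl (nat_lit 2) (nat_lit 240)
(.spl (nat_lit 2) (nat_lit 160)
(.spl (nat_lit 0) (nat_lit 300)
(.spl (nat_lit 6) (nat_lit 104)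
(.spl (nat_lit 2) (nat_lit 80)
(.spl (nat_lit 1) (nat_lit 260)
(.leaf p016_l149)
(.trZ (nat_lit 0) (nat_lit 100) (nat_lit 96) (nat_lit 69) (nat_lit 48) (.spl (nat_lit 1) (nat_lit 270)
(.leaf p016_l150)
(.trZ (nat_lit 0) (nat_lit 100) (nat_lit 98) (nat_lit 74) (nat_lit 56) (.leaf p016_l151)))))
(.spl (nat_lit 1) (nat_lit 260)
(.leaf p016_l152)
(.leaf p016_l153)))
(.leaf p016_l154))
(.trZ (nat_lit 0) (nat_lit 100) (nat_lit 88) (nat_lit 68) (nat_lit 48) (.spl (nat_lit 1) (nat_lit 260)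
(.leaf p016_l155)
(.trZ (nat_lit 0) (nat_lit 100) (nat_lit 91) (nat_lit 77) (nat_lit 64) (.leaf p016_l156)))))
(.spl (nat_lit 0) (nat_lit 300)
(.leaf p016_l157)
(.leaf p016_l158)))
(.leaf p016_l159)))
(.st (nat_lit 1)
(.spl (nat_lit 2) (nat_lit 240)
(.spl (nat_lit 0) (nat_lit 300)
(.leaf p016_l160)
(.trZ (nat_lit 0) (nat_lit 100) (nat_lit 88) (nat_lit 68) (nat_lit 48) (.leaf p016_l161)))
(.leaf p016_l162))
(.spl (nat_lit 2) (nat_lit 240)
(.leaf p016_l163)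
(.leaf p016_l164))))) (by decide +kernel)
noncomputable def p016_l165 : Lf2 := ⟨nat_lit 0, nat_lit 10, [nat_lit 0, nat_lit 5, nat_lit 5, nat_lit 20], false, nat_lit 0, nat_lit 0, nat_lit 0, nat_lit 0, ⟨nat_lit 1000, nat_lit 0, nat_lit 0, nat_lit 0, nat_lit 0, nat_lit 0, nat_lit 0, nat_lit 0, nat_lit 0, nat_lit 0, nat_lit 0, nat_lit 0, nat_lit 0, nat_lit 0, nat_lit 0, nat_lit 0, false, false⟩,
 nat_lit 0, nat_lit 0, nat_lit 0, nat_lit 0, nat_lit 5521, nat_lit 1715, nat_lit 0, nat_lit 0, nat_lit 0, nat_lit 0, nat_lit 0, nat_lit 0, nat_lit 0, nat_lit 0, nat_lit 0, nat_lit 0, nat_lit 0, nat_lit 0, [],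
 ⟨p016_k43, nat_lit 0, nat_lit 0, nat_lit 200, nat_lit 0, nat_lit 0, [nat_lit 3282000000, nat_lit 9842000000], [], [nat_lit 29287753346, nat_lit 32729472984, nat_lit 41203618368, nat_lit 42747434400], nat_lit 0, nat_lit 0, nat_lit 0, nat_lit 0, nat_lit 0, nat_lit 0, [], [nat_lit 82, nat_lit 40, nat_lit 80, nat_lit 80, nat_lit 63, nat_lit 317, nat_lit 100, nat_lit 9]⟩, ⟨p016_k43, nat_lit 0, nat_lit 0, nat_lit 200, nat_lit 0, nat_lit 0, [nat_lit 3282000000, nat_lit 9842000000], [], [nat_lit 34729292024, nat_lit 36472993888, nat_lit 43678259440, nat_lit 44741697160], nat_lit 0, nat_lit 0, nat_lit 0, nat_lit 0, nat_lit 0, nat_lit 0, [], [nat_lit 82, nat_lit 40, nat_lit 80, nat_lit 80, nat_lit 63, nat_lit 317, nat_lit 100, nat_lit 9]⟩,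
 zbF0, [⟨nat_lit 0, nat_lit 100, nat_lit 100, nat_lit 100, nat_lit 202314431⟩]⟩
noncomputable def p016_l166 : Lf2 := ⟨nat_lit 0, nat_lit 10, [nat_lit 0, nat_lit 5, nat_lit 5, nat_lit 20], true, nat_lit 0, nat_lit 0, nat_lit 0, nat_lit 0, ⟨nat_lit 0, nat_lit 0, nat_lit 1000, nat_lit 7, nat_lit 203, nat_lit 0, nat_lit 0, nat_lit 0, nat_lit 0, nat_lit 215, nat_lit 92060, nat_lit 200, nat_lit 53238394, nat_lit 0, nat_lit 0, nat_lit 2538968, false, false⟩,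
 nat_lit 0, nat_lit 0, nat_lit 0, nat_lit 0, nat_lit 3522, nat_lit 0, nat_lit 0, nat_lit 0, nat_lit 0, nat_lit 0, nat_lit 0, nat_lit 0, nat_lit 0, nat_lit 5671141910226, nat_lit 122, nat_lit 542200, nat_lit 0, nat_lit 0, [(nat_lit 12, [(nat_lit 5, nat_lit 763), (nat_lit 6, nat_lit 237)])],
 ⟨p016_k43, nat_lit 0, nat_lit 0, nat_lit 181, nat_lit 0, nat_lit 0, [nat_lit 3070035600, nat_lit 262452400], [], [nat_lit 15224853122, nat_lit 16555489000, nat_lit 18230107840, nat_lit 19191145604], nat_lit 0, nat_lit 0, nat_lit 0, nat_lit 0, nat_lit 0, nat_lit 0, [], [nat_lit 82, nat_lit 40, nat_lit 80, nat_lit 80, nat_lit 63, nat_lit 272, nat_lit 60, nat_lit 8]⟩, C1.Rw.none,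
 ⟨nat_lit 5000, nat_lit 5478, ⟨.ofNat (nat_lit 330654), .ofNat (nat_lit 660309), .ofNat (nat_lit 352005), .ofNat (nat_lit 681655), .ofNat (nat_lit 342856), .ofNat (nat_lit 657090), .ofNat (nat_lit 364277), .ofNat (nat_lit 678509)⟩, ⟨.ofNat (nat_lit 0), .ofNat (nat_lit 0), .ofNat (nat_lit 0), .ofNat (nat_lit 0), .ofNat (nat_lit 0), .ofNat (nat_lit 0), .ofNat (nat_lit 0), .ofNat (nat_lit 0)⟩⟩, []⟩
noncomputable def p016_l167 : Lf2 := ⟨nat_lit 0, nat_lit 10, [nat_lit 0, nat_lit 5, nat_lit 5, nat_lit 20], true, nat_lit 0, nat_lit 0, nat_lit 0, nat_lit 0, ⟨nat_lit 0, nat_lit 233, nat_lit 767, nat_lit 7, nat_lit 215, nat_lit 0, nat_lit 0, nat_lit 0, nat_lit 0, nat_lit 215, nat_lit 128590, nat_lit 200, nat_lit 51972255, nat_lit 15027745, nat_lit 0, nat_lit 2661449, false, false⟩,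
 nat_lit 0, nat_lit 0, nat_lit 0, nat_lit 0, nat_lit 3458, nat_lit 0, nat_lit 0, nat_lit 0, nat_lit 0, nat_lit 0, nat_lit 0, nat_lit 0, nat_lit 0, nat_lit 11495621888947, nat_lit 49, nat_lit 400000, nat_lit 0, nat_lit 0, [(nat_lit 15, [(nat_lit 1, nat_lit 233), (nat_lit 5, nat_lit 767)])],
 ⟨p016_k44, nat_lit 0, nat_lit 0, nat_lit 148, nat_lit 0, nat_lit 0, [nat_lit 2088994200, nat_lit 129957900], [], [nat_lit 16085423580, nat_lit 17420453292, nat_lit 19619723064, nat_lit 20660182108], nat_lit 0, nat_lit 0, nat_lit 0, nat_lit 0, nat_lit 0, nat_lit 0, [], [nat_lit 74, nat_lit 40, nat_lit 80, nat_lit 80, nat_lit 43, nat_lit 272, nat_lit 60, nat_lit 9]⟩, C1.Rw.none,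
 ⟨nat_lit 4472, nat_lit 5000, ⟨.ofNat (nat_lit 371392), .ofNat (nat_lit 657088), .ofNat (nat_lit 414225), .ofNat (nat_lit 699920), .ofNat (nat_lit 382295), .ofNat (nat_lit 654189), .ofNat (nat_lit 425403), .ofNat (nat_lit 697297)⟩, ⟨.ofNat (nat_lit 0), .ofNat (nat_lit 0), .ofNat (nat_lit 0), .ofNat (nat_lit 0), .ofNat (nat_lit 0), .ofNat (nat_lit 0), .ofNat (nat_lit 0), .ofNat (nat_lit 0)⟩⟩, []⟩
noncomputable def p016_l168 : Lf2 := ⟨nat_lit 0, nat_lit 10, [nat_lit 0, nat_lit 5, nat_lit 5, nat_lit 20], true, nat_lit 0, nat_lit 0, nat_lit 0, nat_lit 0, ⟨nat_lit 0, nat_lit 1000, nat_lit 0, nat_lit 7, nat_lit 282, nat_lit 0, nat_lit 0, nat_lit 0, nat_lit 0, nat_lit 0, nat_lit 0, nat_lit 0, nat_lit 44714352, nat_lit 22285648, nat_lit 0, nat_lit 3180097, true, false⟩,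
 nat_lit 0, nat_lit 0, nat_lit 0, nat_lit 0, nat_lit 4064, nat_lit 0, nat_lit 480, nat_lit 0, nat_lit 0, nat_lit 0, nat_lit 0, nat_lit 0, nat_lit 0, nat_lit 3536141743690, nat_lit 0, nat_lit 400000, nat_lit 0, nat_lit 0, [(nat_lit 12, [(nat_lit 1, nat_lit 1000)])],
 ⟨p016_k0, nat_lit 0, nat_lit 0, nat_lit 176, nat_lit 0, nat_lit 0, [nat_lit 2068400000, nat_lit 2721200001, nat_lit 2642799999], [], [nat_lit 20959094079, nat_lit 22066298015, nat_lit 22859481985, nat_lit 23967128569], nat_lit 0, nat_lit 0, nat_lit 0, nat_lit 0, nat_lit 0, nat_lit 0, [], [nat_lit 8, nat_lit 40, nat_lit 80, nat_lit 80, nat_lit 1, nat_lit 289, nat_lit 75, nat_lit 8]⟩, C1.Rw.none,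
 ⟨nat_lit 5000, nat_lit 5478, ⟨.ofNat (nat_lit 660309), .ofNat (nat_lit 735229), .ofNat (nat_lit 681655), .ofNat (nat_lit 756576), .ofNat (nat_lit 657090), .ofNat (nat_lit 728506), .ofNat (nat_lit 678509), .ofNat (nat_lit 749924)⟩, ⟨.ofNat (nat_lit 0), .ofNat (nat_lit 0), .ofNat (nat_lit 0), .ofNat (nat_lit 0), .ofNat (nat_lit 0), .ofNat (nat_lit 0), .ofNat (nat_lit 0), .ofNat (nat_lit 0)⟩⟩, []⟩
noncomputable def p016_l169 : Lf2 := ⟨nat_lit 0, nat_lit 10, [nat_lit 0, nat_lit 5, nat_lit 5, nat_lit 20], true, nat_lit 0, nat_lit 0, nat_lit 0, nat_lit 0, ⟨nat_lit 0, nat_lit 1000, nat_lit 0, nat_lit 7, nat_lit 285, nat_lit 0, nat_lit 0, nat_lit 0, nat_lit 0, nat_lit 0, nat_lit 0, nat_lit 0, nat_lit 44461993, nat_lit 22538007, nat_lit 0, nat_lit 3193052, true, false⟩,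
 nat_lit 0, nat_lit 0, nat_lit 0, nat_lit 0, nat_lit 4297, nat_lit 0, nat_lit 0, nat_lit 0, nat_lit 0, nat_lit 0, nat_lit 0, nat_lit 0, nat_lit 0, nat_lit 6476832279993, nat_lit 0, nat_lit 802000, nat_lit 0, nat_lit 0, [(nat_lit 15, [(nat_lit 1, nat_lit 330), (nat_lit 2, nat_lit 670)])],
 ⟨p016_k44, nat_lit 0, nat_lit 0, nat_lit 145, nat_lit 0, nat_lit 0, [nat_lit 2519424001, nat_lit 631536000], [], [nat_lit 21573096827, nat_lit 22715593373, nat_lit 23431690469, nat_lit 24471315533], nat_lit 0, nat_lit 0, nat_lit 0, nat_lit 0, nat_lit 0, nat_lit 0, [], [nat_lit 74, nat_lit 40, nat_lit 80, nat_lit 80, nat_lit 43, nat_lit 203, nat_lit 0, nat_lit 6]⟩, C1.Rw.none,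
 ⟨nat_lit 4472, nat_lit 5000, ⟨.ofNat (nat_lit 657088), .ofNat (nat_lit 728511), .ofNat (nat_lit 699920), .ofNat (nat_lit 771344), .ofNat (nat_lit 654189), .ofNat (nat_lit 722162), .ofNat (nat_lit 697297), .ofNat (nat_lit 765270)⟩, ⟨.ofNat (nat_lit 0), .ofNat (nat_lit 0), .ofNat (nat_lit 0), .ofNat (nat_lit 0), .ofNat (nat_lit 0), .ofNat (nat_lit 0), .ofNat (nat_lit 0), .ofNat (nat_lit 0)⟩⟩, []⟩
noncomputable def p016_l170 : Lf2 := ⟨nat_lit 0, nat_lit 10, [nat_lit 0, nat_lit 5, nat_lit 5, nat_lit 20], false, nat_lit 0, nat_lit 0, nat_lit 0, nat_lit 0, ⟨nat_lit 225, nat_lit 775, nat_lit 0, nat_lit 7, nat_lit 310, nat_lit 0, nat_lit 0, nat_lit 0, nat_lit 0, nat_lit 0, nat_lit 0, nat_lit 0, nat_lit 41820624, nat_lit 25179376, nat_lit 0, nat_lit 3309881, true, true⟩,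
 nat_lit 0, nat_lit 0, nat_lit 3036, nat_lit 0, nat_lit 4178, nat_lit 1932, nat_lit 555, nat_lit 0, nat_lit 0, nat_lit 128, nat_lit 0, nat_lit 0, nat_lit 0, nat_lit 0, nat_lit 0, nat_lit 310000, nat_lit 0, nat_lit 0, [(nat_lit 12, [(nat_lit 1, nat_lit 775)])],
 ⟨p016_k0, nat_lit 0, nat_lit 0, nat_lit 184, nat_lit 0, nat_lit 0, [nat_lit 2341460000, nat_lit 3515180000, nat_lit 4257660000], [], [nat_lit 24034620103, nat_lit 24546724238, nat_lit 25964184839, nat_lit 26431981464], nat_lit 0, nat_lit 0, nat_lit 0, nat_lit 0, nat_lit 0, nat_lit 0, [], [nat_lit 8, nat_lit 40, nat_lit 80, nat_lit 80, nat_lit 1, nat_lit 203, nat_lit 0, nat_lit 5]⟩, ⟨p016_k0, nat_lit 0, nat_lit 0, nat_lit 833, nat_lit 0, nat_lit 1442883, [nat_lit 738450000, nat_lit 1406250000, nat_lit 2214450000], [], [nat_lit 7620534674, nat_lit 7644218429, nat_lit 7693412636, nat_lit 7730042555], nat_lit 1271250, nat_lit 1271250, nat_lit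 1271250, nat_lit 1271250, nat_lit 0, nat_lit 0, [nat_lit 780000, nat_lit 1435000, nat_lit 1271250], [nat_lit 8, nat_lit 40, nat_lit 80, nat_lit 80, nat_lit 1, nat_lit 285, nat_lit 0, nat_lit 8]⟩,
 ⟨nat_lit 5244, nat_lit 5478, ⟨.ofNat (nat_lit 735277), .ofNat (nat_lit 810206), .ofNat (nat_lit 745954), .ofNat (nat_lit 820884), .ofNat (nat_lit 731867), .ofNat (nat_lit 805035), .ofNat (nat_lit 742558), .ofNat (nat_lit 815726)⟩, ⟨.ofNat (nat_lit 0), .ofNat (nat_lit 0), .ofNat (nat_lit 0), .ofNat (nat_lit 0), .ofNat (nat_lit 0), .ofNat (nat_lit 0), .ofNat (nat_lit 0), .ofNat (nat_lit 0)⟩⟩, []⟩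
noncomputable def p016_l171 : Lf2 := ⟨nat_lit 0, nat_lit 10, [nat_lit 0, nat_lit 5, nat_lit 5, nat_lit 20], true, nat_lit 0, nat_lit 0, nat_lit 0, nat_lit 0, ⟨nat_lit 0, nat_lit 1000, nat_lit 0, nat_lit 7, nat_lit 309, nat_lit 0, nat_lit 0, nat_lit 0, nat_lit 0, nat_lit 0, nat_lit 0, nat_lit 0, nat_lit 41992114, nat_lit 25007886, nat_lit 0, nat_lit 3303318, true, true⟩,
 nat_lit 0, nat_lit 0, nat_lit 0, nat_lit 0, nat_lit 3836, nat_lit 0, nat_lit 332, nat_lit 0, nat_lit 0, nat_lit 0, nat_lit 0, nat_lit 0, nat_lit 0, nat_lit 0, nat_lit 0, nat_lit 400000, nat_lit 0, nat_lit 0, [(nat_lit 12, [(nat_lit 1, nat_lit 1000)])],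
 ⟨p016_k29, nat_lit 0, nat_lit 0, nat_lit 160, nat_lit 0, nat_lit 0, [nat_lit 2068400000, nat_lit 2721200001, nat_lit 2682000000], [], [nat_lit 23439384968, nat_lit 23935337984, nat_lit 25268997972, nat_lit 25759011488], nat_lit 0, nat_lit 0, nat_lit 0, nat_lit 0, nat_lit 0, nat_lit 0, [], [nat_lit 18, nat_lit 40, nat_lit 80, nat_lit 80, nat_lit 2, nat_lit 203, nat_lit 0, nat_lit 6]⟩, C1.Rw.none,
 ⟨nat_lit 5000, nat_lit 5245, ⟨.ofNat (nat_lit 731868), .ofNat (nat_lit 805036), .ofNat (nat_lit 742559), .ofNat (nat_lit 815727), .ofNat (nat_lit 728555), .ofNat (nat_lit 799980), .ofNat (nat_lit 739268), .ofNat (nat_lit 810694)⟩, ⟨.ofNat (nat_lit 0), .ofNat (nat_lit 0), .ofNat (nat_lit 0), .ofNat (nat_lit 0), .ofNat (nat_lit 0), .ofNat (nat_lit 0), .ofNat (nat_lit 0), .ofNat (nat_lit 0)⟩⟩, []⟩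
noncomputable def p016_l172 : Lf2 := ⟨nat_lit 0, nat_lit 10, [nat_lit 0, nat_lit 5, nat_lit 5, nat_lit 20], true, nat_lit 0, nat_lit 0, nat_lit 0, nat_lit 0, ⟨nat_lit 0, nat_lit 1000, nat_lit 0, nat_lit 7, nat_lit 306, nat_lit 0, nat_lit 0, nat_lit 0, nat_lit 0, nat_lit 0, nat_lit 0, nat_lit 0, nat_lit 42242571, nat_lit 24757429, nat_lit 0, nat_lit 3293481, true, true⟩,
 nat_lit 0, nat_lit 0, nat_lit 0, nat_lit 0, nat_lit 3807, nat_lit 0, nat_lit 0, nat_lit 0, nat_lit 0, nat_lit 0, nat_lit 0, nat_lit 0, nat_lit 0, nat_lit 0, nat_lit 0, nat_lit 781000, nat_lit 0, nat_lit 0, [(nat_lit 15, [(nat_lit 1, nat_lit 365), (nat_lit 2, nat_lit 635)])],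
 ⟨p016_k8, nat_lit 0, nat_lit 0, nat_lit 167, nat_lit 0, nat_lit 0, [nat_lit 2079509001, nat_lit 1525006334, nat_lit 402618000], [], [nat_lit 23115537909, nat_lit 24104442093, nat_lit 24897469335, nat_lit 26049705652], nat_lit 0, nat_lit 0, nat_lit 0, nat_lit 0, nat_lit 0, nat_lit 0, [], [nat_lit 18, nat_lit 40, nat_lit 80, nat_lit 80, nat_lit 2, nat_lit 203, nat_lit 0, nat_lit 6]⟩, C1.Rw.none,
 ⟨nat_lit 4472, nat_lit 5000, ⟨.ofNat (nat_lit 728511), .ofNat (nat_lit 799935), .ofNat (nat_lit 739219), .ofNat (nat_lit 810643), .ofNat (nat_lit 722162), .ofNat (nat_lit 790136), .ofNat (nat_lit 732939), .ofNat (nat_lit 800912)⟩, ⟨.ofNat (nat_lit 0), .ofNat (nat_lit 0), .ofNat (nat_lit 0), .ofNat (nat_lit 0), .ofNat (nat_lit 0), .ofNat (nat_lit 0), .ofNat (nat_lit 0), .ofNat (nat_lit 0)⟩⟩, []⟩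
noncomputable def p016_l173 : Lf2 := ⟨nat_lit 0, nat_lit 10, [nat_lit 0, nat_lit 5, nat_lit 5, nat_lit 20], false, nat_lit 0, nat_lit 0, nat_lit 0, nat_lit 0, ⟨nat_lit 92, nat_lit 908, nat_lit 0, nat_lit 7, nat_lit 311, nat_lit 0, nat_lit 0, nat_lit 0, nat_lit 0, nat_lit 0, nat_lit 0, nat_lit 0, nat_lit 41725715, nat_lit 25274285, nat_lit 0, nat_lit 3313453, true, true⟩,
 nat_lit 0, nat_lit 0, nat_lit 1000, nat_lit 0, nat_lit 3823, nat_lit 664, nat_lit 349, nat_lit 0, nat_lit 0, nat_lit 141, nat_lit 0, nat_lit 0, nat_lit 0, nat_lit 0, nat_lit 0, nat_lit 363200, nat_lit 0, nat_lit 0, [(nat_lit 12, [(nat_lit 1, nat_lit 908)]), (nat_lit 15, [(nat_lit 1, nat_lit 908)])],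
 ⟨p016_k29, nat_lit 0, nat_lit 0, nat_lit 167, nat_lit 0, nat_lit 0, [nat_lit 2180051201, nat_lit 3045849600, nat_lit 3168312000], [], [nat_lit 23974277825, nat_lit 25460118389, nat_lit 25801623122, nat_lit 27147027603], nat_lit 0, nat_lit 0, nat_lit 0, nat_lit 0, nat_lit 0, nat_lit 0, [], [nat_lit 18, nat_lit 40, nat_lit 80, nat_lit 80, nat_lit 2, nat_lit 203, nat_lit 0, nat_lit 6]⟩, ⟨p016_k29, nat_lit 0, nat_lit 0, nat_lit 905, nat_lit 0, nat_lit 1764708, [nat_lit 301944000, nat_lit 575000000, nat_lit 733056000], [], [nat_lit 2801574578, nat_lit 2811466514, nat_lit 2833097466, nat_lit 2864036576], nat_lit 1271250, nat_lit 1271250, nat_lit 1271250, nat_lit 1271250, nat_lit 0, nat_lit 0, [nat_lit 780000, nat_lit 1435000, nat_lit 1271250], [nat_lit 18, nat_lit 40, nat_lit 80, nat_lit 80, nat_lit 2, nat_lit 304, nat_lit 0, nat_lit 9]⟩,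
 ⟨nat_lit 4472, nat_lit 5245, ⟨.ofNat (nat_lit 742427), .ofNat (nat_lit 815582), .ofNat (nat_lit 753106), .ofNat (nat_lit 826262), .ofNat (nat_lit 732855), .ofNat (nat_lit 800818), .ofNat (nat_lit 743626), .ofNat (nat_lit 811588)⟩, ⟨.ofNat (nat_lit 0), .ofNat (nat_lit 0), .ofNat (nat_lit 0), .ofNat (nat_lit 0), .ofNat (nat_lit 0), .ofNat (nat_lit 0), .ofNat (nat_lit 0), .ofNat (nat_lit 0)⟩⟩, []⟩
noncomputable def p016_l174 : Lf2 := ⟨nat_lit 0, nat_lit 10, [nat_lit 0, nat_lit 5, nat_lit 5, nat_lit 20], false, nat_lit 0, nat_lit 0, nat_lit 0, nat_lit 0, ⟨nat_lit 468, nat_lit 532, nat_lit 0, nat_lit 7, nat_lit 317, nat_lit 0, nat_lit 0, nat_lit 0, nat_lit 0, nat_lit 0, nat_lit 0, nat_lit 0, nat_lit 41156835, nat_lit 25843165, nat_lit 0, nat_lit 3333971, true, false⟩,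
 nat_lit 0, nat_lit 0, nat_lit 4411, nat_lit 0, nat_lit 4339, nat_lit 3053, nat_lit 320, nat_lit 0, nat_lit 0, nat_lit 664, nat_lit 0, nat_lit 0, nat_lit 0, nat_lit 16001592495151, nat_lit 0, nat_lit 532000, nat_lit 0, nat_lit 0, [(nat_lit 15, [(nat_lit 2, nat_lit 532)])],
 ⟨p016_k8, nat_lit 0, nat_lit 0, nat_lit 167, nat_lit 0, nat_lit 0, [nat_lit 2660411200, nat_lit 3482536001, nat_lit 3358113600], [], [nat_lit 24660025516, nat_lit 25703998084, nat_lit 26525565370, nat_lit 27534465232], nat_lit 0, nat_lit 0, nat_lit 0, nat_lit 0, nat_lit 0, nat_lit 0, [], [nat_lit 18, nat_lit 40, nat_lit 80, nat_lit 80, nat_lit 2, nat_lit 203, nat_lit 0, nat_lit 6]⟩, ⟨p016_k8, nat_lit 0, nat_lit 0, nat_lit 923, nat_lit 0, nat_lit 1811977, [nat_lit 1535976000, nat_lit 2925000000, nat_lit 3729024000], [], [nat_lit 14422225605, nat_lit 14555183618, nat_lit 14655301072, nat_lit 14787773780], nat_lit 1271250,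 nat_lit 1271250, nat_lit 1271250, nat_lit 1271250, nat_lit 0, nat_lit 0, [nat_lit 780000, nat_lit 1435000, nat_lit 1271250], [nat_lit 18, nat_lit 40, nat_lit 80, nat_lit 80, nat_lit 2, nat_lit 311, nat_lit 0, nat_lit 9]⟩,
 ⟨nat_lit 4472, nat_lit 5000, ⟨.ofNat (nat_lit 749927), .ofNat (nat_lit 821351), .ofNat (nat_lit 771344), .ofNat (nat_lit 842767), .ofNat (nat_lit 743716), .ofNat (nat_lit 811690), .ofNat (nat_lit 765270), .ofNat (nat_lit 833243)⟩, ⟨.ofNat (nat_lit 0), .ofNat (nat_lit 0), .ofNat (nat_lit 0), .ofNat (nat_lit 0), .ofNat (nat_lit 0), .ofNat (nat_lit 0), .ofNat (nat_lit 0), .ofNat (nat_lit 0)⟩⟩, []⟩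
noncomputable def p016_l175 : Lf2 := ⟨nat_lit 0, nat_lit 10, [nat_lit 0, nat_lit 5, nat_lit 5, nat_lit 20], false, nat_lit 0, nat_lit 0, nat_lit 0, nat_lit 0, ⟨nat_lit 276, nat_lit 724, nat_lit 0, nat_lit 8, nat_lit 340, nat_lit 0, nat_lit 0, nat_lit 0, nat_lit 0, nat_lit 0, nat_lit 0, nat_lit 0, nat_lit 38941643, nat_lit 28058357, nat_lit 0, nat_lit 3399477, true, true⟩,
 nat_lit 0, nat_lit 0, nat_lit 3505, nat_lit 0, nat_lit 4050, nat_lit 2230, nat_lit 257, nat_lit 0, nat_lit 0, nat_lit 166, nat_lit 0, nat_lit 0, nat_lit 0, nat_lit 0, nat_lit 0, nat_lit 724000, nat_lit 0, nat_lit 0, [(nat_lit 12, [(nat_lit 2, nat_lit 724)])],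
 ⟨p016_k0, nat_lit 0, nat_lit 0, nat_lit 200, nat_lit 0, nat_lit 0, [nat_lit 2596516801, nat_lit 3134193600, nat_lit 2503536000], [], [nat_lit 26275257526, nat_lit 26484801826, nat_lit 28389277426, nat_lit 28576129626], nat_lit 0, nat_lit 0, nat_lit 0, nat_lit 0, nat_lit 0, nat_lit 0, [], [nat_lit 8, nat_lit 40, nat_lit 80, nat_lit 80, nat_lit 1, nat_lit 203, nat_lit 0, nat_lit 5]⟩, ⟨p016_k0, nat_lit 0, nat_lit 0, nat_lit 775, nat_lit 0, nat_lit 1348930, [nat_lit 905832000, nat_lit 1725000000, nat_lit 2716392000], [], [nat_lit 9922603422, nat_lit 9941832836, nat_lit 10179037454, nat_lit 10194928424], nat_lit 1271250, nat_lit 1271250, nat_lit 1271250, nat_lit 1271250, nat_lit 0, nat_lit 0, [nat_lit 780000, nat_lit 1435000, nat_lit 1271250], [nat_lit 8, nat_lit 40, nat_lit 80, nat_lit 80, nat_lit 1, nat_lit 275, nat_lit 0, nat_lit 7]⟩,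
 ⟨nat_lit 5361, nat_lit 5478, ⟨.ofNat (nat_lit 810221), .ofNat (nat_lit 885154), .ofNat (nat_lit 815561), .ofNat (nat_lit 890492), .ofNat (nat_lit 807620), .ofNat (nat_lit 881669), .ofNat (nat_lit 812963), .ofNat (nat_lit 887011)⟩, ⟨.ofNat (nat_lit 0), .ofNat (nat_lit 0), .ofNat (nat_lit 0), .ofNat (nat_lit 0), .ofNat (nat_lit 0), .ofNat (nat_lit 0), .ofNat (nat_lit 0), .ofNat (nat_lit 0)⟩⟩, []⟩
noncomputable def p016_l176 : Lf2 := ⟨nat_lit 0, nat_lit 10, [nat_lit 0, nat_lit 5, nat_lit 5, nat_lit 20], false, nat_lit 0, nat_lit 0, nat_lit 0, nat_lit 0, ⟨nat_lit 217, nat_lit 783, nat_lit 0, nat_lit 8, nat_lit 339, nat_lit 0, nat_lit 0, nat_lit 0, nat_lit 0, nat_lit 0, nat_lit 0, nat_lit 0, nat_lit 38955185, nat_lit 28044815, nat_lit 0, nat_lit 3399145, true, true⟩,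
 nat_lit 0, nat_lit 0, nat_lit 2785, nat_lit 0, nat_lit 3793, nat_lit 1772, nat_lit 465, nat_lit 0, nat_lit 0, nat_lit 120, nat_lit 0, nat_lit 0, nat_lit 0, nat_lit 8842850112500, nat_lit 0, nat_lit 313200, nat_lit 0, nat_lit 0, [(nat_lit 12, [(nat_lit 1, nat_lit 783)])],
 ⟨p016_k25, nat_lit 0, nat_lit 0, nat_lit 201, nat_lit 0, nat_lit 0, [nat_lit 2331751200, nat_lit 3486949600, nat_lit 4200015200], [], [nat_lit 26534870379, nat_lit 26739828257, nat_lit 28567977142, nat_lit 28754128288], nat_lit 0, nat_lit 0, nat_lit 0, nat_lit 0, nat_lit 0, nat_lit 0, [], [nat_lit 8, nat_lit 40, nat_lit 80, nat_lit 80, nat_lit 1, nat_lit 203, nat_lit 0, nat_lit 5]⟩, ⟨p016_k0, nat_lit 0, nat_lit 0, nat_lit 819, nat_lit 0, nat_lit 1442883, [nat_lit 712194000, nat_lit 1356250000, nat_lit 2135714000], [], [nat_lit 7986342804, nat_lit 8005597296, nat_lit 8134443954, nat_lit 8149917891], nat_lit 1271250, nat_lit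 1271250, nat_lit 1271250, nat_lit 1271250, nat_lit 0, nat_lit 0, [nat_lit 780000, nat_lit 1435000, nat_lit 1271250], [nat_lit 8, nat_lit 40, nat_lit 80, nat_lit 80, nat_lit 1, nat_lit 286, nat_lit 0, nat_lit 8]⟩,
 ⟨nat_lit 5244, nat_lit 5362, ⟨.ofNat (nat_lit 807621), .ofNat (nat_lit 881669), .ofNat (nat_lit 818305), .ofNat (nat_lit 892353), .ofNat (nat_lit 805050), .ofNat (nat_lit 878220), .ofNat (nat_lit 815742), .ofNat (nat_lit 888912)⟩, ⟨.ofNat (nat_lit 0), .ofNat (nat_lit 0), .ofNat (nat_lit 0), .ofNat (nat_lit 0), .ofNat (nat_lit 0), .ofNat (nat_lit 0), .ofNat (nat_lit 0), .ofNat (nat_lit 0)⟩⟩, []⟩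
noncomputable def p016_l177 : Lf2 := ⟨nat_lit 0, nat_lit 10, [nat_lit 0, nat_lit 5, nat_lit 5, nat_lit 20], false, nat_lit 0, nat_lit 0, nat_lit 0, nat_lit 0, ⟨nat_lit 197, nat_lit 803, nat_lit 0, nat_lit 8, nat_lit 338, nat_lit 0, nat_lit 0, nat_lit 0, nat_lit 0, nat_lit 0, nat_lit 0, nat_lit 0, nat_lit 39070218, nat_lit 27929782, nat_lit 0, nat_lit 3396294, true, true⟩,
 nat_lit 0, nat_lit 0, nat_lit 2524, nat_lit 0, nat_lit 3840, nat_lit 1606, nat_lit 383, nat_lit 0, nat_lit 0, nat_lit 109, nat_lit 0, nat_lit 0, nat_lit 0, nat_lit 0, nat_lit 0, nat_lit 321200, nat_lit 0, nat_lit 0, [(nat_lit 12, [(nat_lit 1, nat_lit 803)])],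
 ⟨p016_k29, nat_lit 0, nat_lit 0, nat_lit 178, nat_lit 0, nat_lit 0, [nat_lit 2307479200, nat_lit 3416373601, nat_lit 3723342000], [], [nat_lit 26327730880, nat_lit 26552161640, nat_lit 28516221560, nat_lit 28716703671], nat_lit 0, nat_lit 0, nat_lit 0, nat_lit 0, nat_lit 0, nat_lit 0, [], [nat_lit 18, nat_lit 40, nat_lit 80, nat_lit 80, nat_lit 2, nat_lit 203, nat_lit 0, nat_lit 6]⟩, ⟨p016_k0, nat_lit 0, nat_lit 0, nat_lit 850, nat_lit 0, nat_lit 1497488, [nat_lit 646554000, nat_lit 1231250000, nat_lit 1938874000], [], [nat_lit 7265882581, nat_lit 7283387647, nat_lit 7400337739, nat_lit 7414372330], nat_lit 1271250, nat_lit 1271250, nat_lit 1271250, nat_lit 1271250, nat_lit 0, nat_lit 0, [nat_lit 780000, nat_lit 1435000, nat_lit 1271250], [nat_lit 8, nat_lit 40, nat_lit 80, nat_lit 80, nat_lit 1, nat_lit 294, nat_lit 0, nat_lit 8]⟩,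
 ⟨nat_lit 5123, nat_lit 5245, ⟨.ofNat (nat_lit 805050), .ofNat (nat_lit 878220), .ofNat (nat_lit 815742), .ofNat (nat_lit 888913), .ofNat (nat_lit 802509), .ofNat (nat_lit 874805), .ofNat (nat_lit 813210), .ofNat (nat_lit 885508)⟩, ⟨.ofNat (nat_lit 0), .ofNat (nat_lit 0), .ofNat (nat_lit 0), .ofNat (nat_lit 0), .ofNat (nat_lit 0), .ofNat (nat_lit 0), .ofNat (nat_lit 0), .ofNat (nat_lit 0)⟩⟩, []⟩
noncomputable def p016_l178 : Lf2 := ⟨nat_lit 0, nat_lit 10, [nat_lit 0, nat_lit 5, nat_lit 5, nat_lit 20], false, nat_lit 0, nat_lit 0, nat_lit 0, nat_lit 0, ⟨nat_lit 197, nat_lit 803, nat_lit 0, nat_lit 8, nat_lit 337, nat_lit 0, nat_lit 0, nat_lit 0, nat_lit 0, nat_lit 0, nat_lit 0, nat_lit 0, nat_lit 39184288, nat_lit 27815712, nat_lit 0, nat_lit 3393407, true, true⟩,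
 nat_lit 0, nat_lit 0, nat_lit 2525, nat_lit 0, nat_lit 3823, nat_lit 1606, nat_lit 393, nat_lit 0, nat_lit 0, nat_lit 109, nat_lit 0, nat_lit 0, nat_lit 0, nat_lit 0, nat_lit 0, nat_lit 321200, nat_lit 0, nat_lit 0, [(nat_lit 12, [(nat_lit 1, nat_lit 803)])],
 ⟨p016_k45, nat_lit 0, nat_lit 0, nat_lit 179, nat_lit 0, nat_lit 0, [nat_lit 2307479200, nat_lit 3416373601, nat_lit 3723342000], [], [nat_lit 26380170781, nat_lit 26604238565, nat_lit 28540374896, nat_lit 28740480879], nat_lit 0, nat_lit 0, nat_lit 0, nat_lit 0, nat_lit 0, nat_lit 0, [], [nat_lit 18, nat_lit 40, nat_lit 80, nat_lit 80, nat_lit 2, nat_lit 203, nat_lit 0, nat_lit 6]⟩, ⟨p016_k0, nat_lit 0, nat_lit 0, nat_lit 872, nat_lit 0, nat_lit 1553894, [nat_lit 646554000, nat_lit 1231250000, nat_lit 1938874000], [], [nat_lit 7265882581, nat_lit 7283387647, nat_lit 7400337739, nat_lit 7414372330], nat_lit 1271250, nat_lit 1271250,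 nat_lit 1271250, nat_lit 1271250, nat_lit 0, nat_lit 0, [nat_lit 780000, nat_lit 1435000, nat_lit 1271250], [nat_lit 8, nat_lit 40, nat_lit 80, nat_lit 80, nat_lit 1, nat_lit 300, nat_lit 0, nat_lit 8]⟩,
 ⟨nat_lit 5000, nat_lit 5124, ⟨.ofNat (nat_lit 802509), .ofNat (nat_lit 874806), .ofNat (nat_lit 813211), .ofNat (nat_lit 885508), .ofNat (nat_lit 799995), .ofNat (nat_lit 871423), .ofNat (nat_lit 810709), .ofNat (nat_lit 882137)⟩, ⟨.ofNat (nat_lit 0), .ofNat (nat_lit 0), .ofNat (nat_lit 0), .ofNat (nat_lit 0), .ofNat (nat_lit 0), .ofNat (nat_lit 0), .ofNat (nat_lit 0), .ofNat (nat_lit 0)⟩⟩, []⟩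
noncomputable def p016_l179 : Lf2 := ⟨nat_lit 0, nat_lit 10, [nat_lit 0, nat_lit 5, nat_lit 5, nat_lit 20], false, nat_lit 0, nat_lit 0, nat_lit 0, nat_lit 0, ⟨nat_lit 906, nat_lit 94, nat_lit 0, nat_lit 8, nat_lit 342, nat_lit 0, nat_lit 0, nat_lit 0, nat_lit 0, nat_lit 0, nat_lit 0, nat_lit 0, nat_lit 38716471, nat_lit 28283529, nat_lit 0, nat_lit 3404869, true, true⟩,
 nat_lit 0, nat_lit 0, nat_lit 8556, nat_lit 0, nat_lit 4694, nat_lit 5682, nat_lit 215, nat_lit 0, nat_lit 0, nat_lit 2660, nat_lit 0, nat_lit 0, nat_lit 0, nat_lit 0, nat_lit 0, nat_lit 94000, nat_lit 0, nat_lit 0, [(nat_lit 12, [(nat_lit 2, nat_lit 94)])],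
 ⟨p016_k46, nat_lit 0, nat_lit 0, nat_lit 163, nat_lit 0, nat_lit 0, [nat_lit 3251450000, nat_lit 7266797600], [], [nat_lit 31647797563, nat_lit 32133127445, nat_lit 34053270001, nat_lit 34482602525], nat_lit 0, nat_lit 0, nat_lit 0, nat_lit 0, nat_lit 0, nat_lit 0, [], [nat_lit 74, nat_lit 40, nat_lit 80, nat_lit 80, nat_lit 43, nat_lit 203, nat_lit 0, nat_lit 6]⟩, ⟨p016_k46, nat_lit 0, nat_lit 0, nat_lit 790, nat_lit 0, nat_lit 1541566, [nat_lit 2973492000, nat_lit 7219008000], [], [nat_lit 29385520980, nat_lit 29497783488, nat_lit 30208176147, nat_lit 30349016874], nat_lit 1271250, nat_lit 1271250, nat_lit 1271250, nat_lit 1271250, nat_lit 0, nat_lit 0, [nat_lit 780000, nat_lit 1762500], [nat_lit 74, nat_lit 40, nat_lit 80, nat_lit 80, nat_lit 43, nat_lit 280, nat_lit 0, nat_lit 8]⟩,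
 ⟨nat_lit 5000, nat_lit 5245, ⟨.ofNat (nat_lit 815727), .ofNat (nat_lit 888896), .ofNat (nat_lit 826419), .ofNat (nat_lit 899587), .ofNat (nat_lit 810694), .ofNat (nat_lit 882119), .ofNat (nat_lit 821407), .ofNat (nat_lit 892833)⟩, ⟨.ofNat (nat_lit 0), .ofNat (nat_lit 0), .ofNat (nat_lit 0), .ofNat (nat_lit 0), .ofNat (nat_lit 0), .ofNat (nat_lit 0), .ofNat (nat_lit 0), .ofNat (nat_lit 0)⟩⟩, []⟩
noncomputable def p016_l180 : Lf2 := ⟨nat_lit 0, nat_lit 10, [nat_lit 0, nat_lit 5, nat_lit 5, nat_lit 20], true, nat_lit 0, nat_lit 0, nat_lit 0, nat_lit 0, ⟨nat_lit 0, nat_lit 1000, nat_lit 0, nat_lit 8, nat_lit 336, nat_lit 0, nat_lit 0, nat_lit 0, nat_lit 0, nat_lit 0, nat_lit 0, nat_lit 0, nat_lit 39258100, nat_lit 27741900, nat_lit 0, nat_lit 3391507, true, true⟩,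
 nat_lit 0, nat_lit 0, nat_lit 0, nat_lit 0, nat_lit 3559, nat_lit 0, nat_lit 300, nat_lit 0, nat_lit 0, nat_lit 0, nat_lit 0, nat_lit 0, nat_lit 0, nat_lit 0, nat_lit 0, nat_lit 400000, nat_lit 0, nat_lit 0, [(nat_lit 15, [(nat_lit 1, nat_lit 1000)])],
 ⟨p016_k8, nat_lit 0, nat_lit 0, nat_lit 184, nat_lit 0, nat_lit 0, [nat_lit 2020200000, nat_lit 2354866667, nat_lit 2328333333], [], [nat_lit 25388545003, nat_lit 26262268957, nat_lit 27461312016, nat_lit 28389219964], nat_lit 0, nat_lit 0, nat_lit 0, nat_lit 0, nat_lit 0, nat_lit 0, [], [nat_lit 18, nat_lit 40, nat_lit 80, nat_lit 80, nat_lit 2, nat_lit 203, nat_lit 0, nat_lit 6]⟩, C1.Rw.none,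
 ⟨nat_lit 4472, nat_lit 5000, ⟨.ofNat (nat_lit 799935), .ofNat (nat_lit 871359), .ofNat (nat_lit 821351), .ofNat (nat_lit 892775), .ofNat (nat_lit 790136), .ofNat (nat_lit 858109), .ofNat (nat_lit 811690), .ofNat (nat_lit 879663)⟩, ⟨.ofNat (nat_lit 0), .ofNat (nat_lit 0), .ofNat (nat_lit 0), .ofNat (nat_lit 0), .ofNat (nat_lit 0), .ofNat (nat_lit 0), .ofNat (nat_lit 0), .ofNat (nat_lit 0)⟩⟩, []⟩
noncomputable def p016_l181 : Lf2 := ⟨nat_lit 0, nat_lit 10, [nat_lit 0, nat_lit 5, nat_lit 5, nat_lit 20], false, nat_lit 0, nat_lit 0, nat_lit 0, nat_lit 0, ⟨nat_lit 469, nat_lit 531, nat_lit 0, nat_lit 8, nat_lit 345, nat_lit 0, nat_lit 0, nat_lit 0, nat_lit 0, nat_lit 0, nat_lit 0, nat_lit 0, nat_lit 38434234, nat_lit 28565766, nat_lit 0, nat_lit 3411301, true, true⟩,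
 nat_lit 0, nat_lit 0, nat_lit 4208, nat_lit 0, nat_lit 4083, nat_lit 2913, nat_lit 248, nat_lit 0, nat_lit 0, nat_lit 657, nat_lit 0, nat_lit 0, nat_lit 0, nat_lit 0, nat_lit 0, nat_lit 531000, nat_lit 0, nat_lit 0, [(nat_lit 15, [(nat_lit 2, nat_lit 531)])],
 ⟨p016_k8, nat_lit 0, nat_lit 0, nat_lit 184, nat_lit 0, nat_lit 0, [nat_lit 2661579601, nat_lit 3487738000, nat_lit 3366778800], [], [nat_lit 27039342691, nat_lit 27957819389, nat_lit 29239232751, nat_lit 30057026787], nat_lit 0, nat_lit 0, nat_lit 0, nat_lit 0, nat_lit 0, nat_lit 0, [], [nat_lit 18, nat_lit 40, nat_lit 80, nat_lit 80, nat_lit 2, nat_lit 203, nat_lit 0, nat_lit 6]⟩, ⟨p016_k8, nat_lit 0, nat_lit 0, nat_lit 915, nat_lit 0, nat_lit 1811977, [nat_lit 1539258000, nat_lit 2931250000, nat_lit 3736992000], [], [nat_lit 15883571435, nat_lit 15997147617, nat_lit 16227467681, nat_lit 16344555572], nat_lit 1271250, nat_lit 1271250,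 nat_lit 1271250, nat_lit 1271250, nat_lit 0, nat_lit 0, [nat_lit 780000, nat_lit 1435000, nat_lit 1271250], [nat_lit 18, nat_lit 40, nat_lit 80, nat_lit 80, nat_lit 2, nat_lit 314, nat_lit 0, nat_lit 9]⟩,
 ⟨nat_lit 4472, nat_lit 5000, ⟨.ofNat (nat_lit 821351), .ofNat (nat_lit 892775), .ofNat (nat_lit 842767), .ofNat (nat_lit 914192), .ofNat (nat_lit 811690), .ofNat (nat_lit 879663), .ofNat (nat_lit 833243), .ofNat (nat_lit 901217)⟩, ⟨.ofNat (nat_lit 0), .ofNat (nat_lit 0), .ofNat (nat_lit 0), .ofNat (nat_lit 0), .ofNat (nat_lit 0), .ofNat (nat_lit 0), .ofNat (nat_lit 0), .ofNat (nat_lit 0)⟩⟩, []⟩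
noncomputable def p016_l182 : Lf2 := ⟨nat_lit 0, nat_lit 10, [nat_lit 0, nat_lit 5, nat_lit 5, nat_lit 20], false, nat_lit 0, nat_lit 0, nat_lit 0, nat_lit 0, ⟨nat_lit 1000, nat_lit 0, nat_lit 0, nat_lit 0, nat_lit 0, nat_lit 0, nat_lit 0, nat_lit 0, nat_lit 0, nat_lit 0, nat_lit 0, nat_lit 0, nat_lit 0, nat_lit 0, nat_lit 0, nat_lit 0, false, false⟩,
 nat_lit 0, nat_lit 0, nat_lit 0, nat_lit 0, nat_lit 6413, nat_lit 0, nat_lit 840, nat_lit 0, nat_lit 0, nat_lit 229, nat_lit 0, nat_lit 464, nat_lit 0, nat_lit 0, nat_lit 0, nat_lit 0, nat_lit 0, nat_lit 0, [],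
 ⟨p016_k0, nat_lit 0, nat_lit 0, nat_lit 219, nat_lit 0, nat_lit 0, [nat_lit 3282000000, nat_lit 6250000000, nat_lit 9842000000], [], [nat_lit 34980937030, nat_lit 36510074968, nat_lit 37430609432, nat_lit 39215937228], nat_lit 0, nat_lit 0, nat_lit 0, nat_lit 0, nat_lit 0, nat_lit 0, [], [nat_lit 8, nat_lit 40, nat_lit 80, nat_lit 80, nat_lit 1, nat_lit 203, nat_lit 0, nat_lit 5]⟩, ⟨p016_k0, nat_lit 0, nat_lit 0, nat_lit 0, nat_lit 0, nat_lit 1872612, [nat_lit 3282000000, nat_lit 6250000000, nat_lit 9842000000], [], [nat_lit 20471610000, nat_lit 20906371000, nat_lit 21426460000, nat_lit 21856129625], nat_lit 1271250, nat_lit 1271250, nat_lit 1271250, nat_lit 1271250, nat_lit 0, nat_lit 0, [nat_lit 780000, nat_lit 1435000, nat_lit 1271250], [nat_lit 8, nat_lit 40, nat_lit 80, nat_lit 80]⟩,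
 zbF0, []⟩
noncomputable def p016_l183 : Lf2 := ⟨nat_lit 0, nat_lit 5, [nat_lit 4, nat_lit 5, nat_lit 5, nat_lit 20], false, nat_lit 0, nat_lit 0, nat_lit 0, nat_lit 0, ⟨nat_lit 167, nat_lit 833, nat_lit 0, nat_lit 9, nat_lit 370, nat_lit 0, nat_lit 0, nat_lit 0, nat_lit 0, nat_lit 0, nat_lit 0, nat_lit 0, nat_lit 36141172, nat_lit 30858828, nat_lit 0, nat_lit 3450179, true, true⟩,
 nat_lit 0, nat_lit 0, nat_lit 2238, nat_lit 0, nat_lit 4006, nat_lit 1424, nat_lit 0, nat_lit 0, nat_lit 0, nat_lit 68, nat_lit 0, nat_lit 0, nat_lit 0, nat_lit 0, nat_lit 0, nat_lit 765200, nat_lit 0, nat_lit 0, [(nat_lit 12, [(nat_lit 1, nat_lit 113), (nat_lit 2, nat_lit 720)])],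
 ⟨p016_k47, nat_lit 0, nat_lit 0, nat_lit 0, nat_lit 0, nat_lit 0, [nat_lit 2463167201, nat_lit 2752653600, nat_lit 1999770000], [], [nat_lit 28437069330, nat_lit 28836236097, nat_lit 30647885146, nat_lit 31000173452], nat_lit 0, nat_lit 0, nat_lit 0, nat_lit 0, nat_lit 0, nat_lit 0, [], [nat_lit 18, nat_lit 40, nat_lit 80, nat_lit 80]⟩, ⟨p016_k47, nat_lit 0, nat_lit 0, nat_lit 738, nat_lit 0, nat_lit 1391443, [nat_lit 548094000, nat_lit 1043750000, nat_lit 1330656000], [], [nat_lit 5920279008, nat_lit 5933739886, nat_lit 6048218304, nat_lit 6058599963], nat_lit 1271250, nat_lit 1271250, nat_lit 1271250, nat_lit 1271250, nat_lit 0, nat_lit 0, [nat_lit 780000, nat_lit 1435000, nat_lit 1271250], [nat_lit 18, nat_lit 40, nat_lit 80, nat_lit 80, nat_lit 2, nat_lit 271, nat_lit 0, nat_lit 8]⟩,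
 ⟨nat_lit 5244, nat_lit 5478, ⟨.ofNat (nat_lit 885136), .ofNat (nat_lit 960065), .ofNat (nat_lit 895813), .ofNat (nat_lit 970743), .ofNat (nat_lit 878202), .ofNat (nat_lit 951369), .ofNat (nat_lit 888894), .ofNat (nat_lit 962061)⟩, ⟨.ofNat (nat_lit 0), .ofNat (nat_lit 0), .ofNat (nat_lit 0), .ofNat (nat_lit 0), .ofNat (nat_lit 0), .ofNat (nat_lit 0), .ofNat (nat_lit 0), .ofNat (nat_lit 0)⟩⟩, []⟩
noncomputable def p016_l184 : Lf2 := ⟨nat_lit 0, nat_lit 5, [nat_lit 4, nat_lit 5, nat_lit 5, nat_lit 20], true, nat_lit 0, nat_lit 0, nat_lit 0, nat_lit 0, ⟨nat_lit 0, nat_lit 1000, nat_lit 0, nat_lit 9, nat_lit 367, nat_lit 0, nat_lit 0, nat_lit 0, nat_lit 0, nat_lit 0, nat_lit 0, nat_lit 0, nat_lit 36420672, nat_lit 30579328, nat_lit 0, nat_lit 3446708, true, true⟩,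
 nat_lit 0, nat_lit 0, nat_lit 0, nat_lit 0, nat_lit 3686, nat_lit 0, nat_lit 0, nat_lit 0, nat_lit 0, nat_lit 0, nat_lit 0, nat_lit 0, nat_lit 0, nat_lit 0, nat_lit 0, nat_lit 400000, nat_lit 0, nat_lit 0, [(nat_lit 12, [(nat_lit 1, nat_lit 1000)])],
 ⟨p016_k48, nat_lit 0, nat_lit 0, nat_lit 0, nat_lit 0, nat_lit 0, [nat_lit 2068400000, nat_lit 2721200000], [], [nat_lit 28432469695, nat_lit 28820982222, nat_lit 30517721450, nat_lit 30922129616], nat_lit 0, nat_lit 0, nat_lit 0, nat_lit 0, nat_lit 0, nat_lit 0, [], [nat_lit 49, nat_lit 40, nat_lit 80, nat_lit 80]⟩, C1.Rw.none,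
 ⟨nat_lit 5000, nat_lit 5245, ⟨.ofNat (nat_lit 878204), .ofNat (nat_lit 951373), .ofNat (nat_lit 888896), .ofNat (nat_lit 962064), .ofNat (nat_lit 871406), .ofNat (nat_lit 942832), .ofNat (nat_lit 882119), .ofNat (nat_lit 953545)⟩, ⟨.ofNat (nat_lit 0), .ofNat (nat_lit 0), .ofNat (nat_lit 0), .ofNat (nat_lit 0), .ofNat (nat_lit 0), .ofNat (nat_lit 0), .ofNat (nat_lit 0), .ofNat (nat_lit 0)⟩⟩, []⟩
noncomputable def p016_l185 : Lf2 := ⟨nat_lit 0, nat_lit 10, [nat_lit 0, nat_lit 5, nat_lit 5, nat_lit 20], false, nat_lit 0, nat_lit 0, nat_lit 0, nat_lit 0, ⟨nat_lit 1000, nat_lit 0, nat_lit 0, nat_lit 0, nat_lit 0, nat_lit 0, nat_lit 0, nat_lit 0, nat_lit 0, nat_lit 0, nat_lit 0, nat_lit 0, nat_lit 0, nat_lit 0, nat_lit 0, nat_lit 0, false, false⟩,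
 nat_lit 0, nat_lit 0, nat_lit 10107, nat_lit 0, nat_lit 4835, nat_lit 6431, nat_lit 876, nat_lit 0, nat_lit 0, nat_lit 648, nat_lit 0, nat_lit 0, nat_lit 0, nat_lit 0, nat_lit 0, nat_lit 0, nat_lit 0, nat_lit 0, [],
 ⟨p016_k0, nat_lit 0, nat_lit 0, nat_lit 0, nat_lit 0, nat_lit 0, [nat_lit 3282000000, nat_lit 6250000000, nat_lit 9842000000], [], [nat_lit 32463615480, nat_lit 32890383388, nat_lit 34887745180, nat_lit 35258574260], nat_lit 0, nat_lit 0, nat_lit 0, nat_lit 0, nat_lit 0, nat_lit 0, [], [nat_lit 8, nat_lit 40, nat_lit 80, nat_lit 80]⟩, ⟨p016_k0, nat_lit 0, nat_lit 0, nat_lit 656, nat_lit 0, nat_lit 1091130, [nat_lit 3282000000, nat_lit 6250000000, nat_lit 9842000000], [], [nat_lit 42484321294, nat_lit 42646667342, nat_lit 43547142516, nat_lit 43685299495], nat_lit 1271250, nat_lit 1271250, nat_lit 1271250, nat_lit 1271250, nat_lit 0, nat_lit 0, [nat_lit 780000, nat_lit 1435000,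 nat_lit 1271250], [nat_lit 8, nat_lit 40, nat_lit 80, nat_lit 80, nat_lit 1, nat_lit 251, nat_lit 0, nat_lit 6]⟩,
 zbF0, []⟩
noncomputable def p016_l186 : Lf2 := ⟨nat_lit 0, nat_lit 8, [nat_lit 50, nat_lit 5, nat_lit 5, nat_lit 20], false, nat_lit 0, nat_lit 0, nat_lit 0, nat_lit 0, ⟨nat_lit 1000, nat_lit 0, nat_lit 0, nat_lit 0, nat_lit 0, nat_lit 0, nat_lit 0, nat_lit 0, nat_lit 0, nat_lit 0, nat_lit 0, nat_lit 0, nat_lit 0, nat_lit 0, nat_lit 0, nat_lit 0, false, false⟩,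
 nat_lit 0, nat_lit 0, nat_lit 10130, nat_lit 0, nat_lit 4819, nat_lit 6446, nat_lit 758, nat_lit 0, nat_lit 0, nat_lit 522, nat_lit 0, nat_lit 0, nat_lit 0, nat_lit 0, nat_lit 0, nat_lit 0, nat_lit 0, nat_lit 0, [],
 ⟨p016_k49, nat_lit 0, nat_lit 0, nat_lit 0, nat_lit 0, nat_lit 0, [nat_lit 3282000000, nat_lit 6250000000, nat_lit 7968000000], [], [nat_lit 32195881968, nat_lit 32408999566, nat_lit 34559729925, nat_lit 34746661747], nat_lit 0, nat_lit 0, nat_lit 0, nat_lit 0, nat_lit 0, nat_lit 0, [], [nat_lit 18, nat_lit 40, nat_lit 80, nat_lit 80]⟩, ⟨p016_k50, nat_lit 0, nat_lit 0, nat_lit 615, nat_lit 0, nat_lit 1091737, [nat_lit 3282000000, nat_lit 6250000000, nat_lit 7968000000], [], [nat_lit 42404843404, nat_lit 42485994738, nat_lit 43468318056, nat_lit 43537352363], nat_lit 1271250, nat_lit 1271250, nat_lit 1271250, nat_lit 1271250, nat_lit 0, nat_lit 0, [nat_lit 780000, nat_lit 1435000,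 nat_lit 1271250], [nat_lit 18, nat_lit 40, nat_lit 80, nat_lit 80, nat_lit 2, nat_lit 240, nat_lit 0, nat_lit 7]⟩,
 zbF0, [⟨nat_lit 13, nat_lit 97, nat_lit 6, nat_lit 100, nat_lit 7020552⟩]⟩
noncomputable def p016_l187 : Lf2 := ⟨nat_lit 0, nat_lit 8, [nat_lit 50, nat_lit 5, nat_lit 5, nat_lit 20], false, nat_lit 0, nat_lit 0, nat_lit 0, nat_lit 0, ⟨nat_lit 204, nat_lit 796, nat_lit 0, nat_lit 9, nat_lit 365, nat_lit 0, nat_lit 0, nat_lit 0, nat_lit 0, nat_lit 0, nat_lit 0, nat_lit 0, nat_lit 36587263, nat_lit 30412737, nat_lit 0, nat_lit 3444472, true, true⟩,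
 nat_lit 0, nat_lit 0, nat_lit 2721, nat_lit 0, nat_lit 3891, nat_lit 1731, nat_lit 358, nat_lit 0, nat_lit 0, nat_lit 90, nat_lit 0, nat_lit 0, nat_lit 0, nat_lit 0, nat_lit 0, nat_lit 318400, nat_lit 0, nat_lit 0, [(nat_lit 12, [(nat_lit 1, nat_lit 796)])],
 ⟨p016_k51, nat_lit 0, nat_lit 0, nat_lit 0, nat_lit 0, nat_lit 0, [nat_lit 2315974400, nat_lit 3441075200, nat_lit 3760344000], [], [nat_lit 29068848808, nat_lit 29266517757, nat_lit 31181572046, nat_lit 31356953636], nat_lit 0, nat_lit 0, nat_lit 0, nat_lit 0, nat_lit 0, nat_lit 0, [], [nat_lit 18, nat_lit 40, nat_lit 80, nat_lit 80]⟩, ⟨p016_k50, nat_lit 0, nat_lit 0, nat_lit 635, nat_lit 0, nat_lit 1145170, [nat_lit 669528000, nat_lit 1275000000, nat_lit 1625472000], [], [nat_lit 7140723252, nat_lit 7154129138, nat_lit 7353275040, nat_lit 7364546196], nat_lit 1271250, nat_lit 1271250, nat_lit 1271250, nat_lit 1271250, nat_lit 0, nat_lit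 0, [nat_lit 780000, nat_lit 1435000, nat_lit 1271250], [nat_lit 18, nat_lit 40, nat_lit 80, nat_lit 80, nat_lit 2, nat_lit 245, nat_lit 0, nat_lit 7]⟩,
 ⟨nat_lit 5000, nat_lit 5124, ⟨.ofNat (nat_lit 874806), .ofNat (nat_lit 947103), .ofNat (nat_lit 880157), .ofNat (nat_lit 952454), .ofNat (nat_lit 871423), .ofNat (nat_lit 942851), .ofNat (nat_lit 876780), .ofNat (nat_lit 948208)⟩, ⟨.ofNat (nat_lit 0), .ofNat (nat_lit 0), .ofNat (nat_lit 0), .ofNat (nat_lit 0), .ofNat (nat_lit 0), .ofNat (nat_lit 0), .ofNat (nat_lit 0), .ofNat (nat_lit 0)⟩⟩, [⟨nat_lit 13, nat_lit 96, nat_lit 9, nat_lit 100, nat_lit 137601746⟩]⟩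
noncomputable def p016_l188 : Lf2 := ⟨nat_lit 0, nat_lit 10, [nat_lit 0, nat_lit 5, nat_lit 5, nat_lit 20], false, nat_lit 0, nat_lit 0, nat_lit 0, nat_lit 0, ⟨nat_lit 1000, nat_lit 0, nat_lit 0, nat_lit 0, nat_lit 0, nat_lit 0, nat_lit 0, nat_lit 0, nat_lit 0, nat_lit 0, nat_lit 0, nat_lit 0, nat_lit 0, nat_lit 0, nat_lit 0, nat_lit 0, false, false⟩,
 nat_lit 0, nat_lit 0, nat_lit 9921, nat_lit 0, nat_lit 4506, nat_lit 6313, nat_lit 569, nat_lit 0, nat_lit 0, nat_lit 653, nat_lit 0, nat_lit 0, nat_lit 0, nat_lit 0, nat_lit 0, nat_lit 0, nat_lit 0, nat_lit 0, [],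
 ⟨p016_k29, nat_lit 0, nat_lit 0, nat_lit 0, nat_lit 0, nat_lit 0, [nat_lit 3282000000, nat_lit 6250000000, nat_lit 7968000000], [], [nat_lit 32782345595, nat_lit 33198159612, nat_lit 35069229200, nat_lit 35433793006], nat_lit 0, nat_lit 0, nat_lit 0, nat_lit 0, nat_lit 0, nat_lit 0, [], [nat_lit 18, nat_lit 40, nat_lit 80, nat_lit 80]⟩, ⟨p016_k0, nat_lit 0, nat_lit 0, nat_lit 624, nat_lit 0, nat_lit 1001940, [nat_lit 3282000000, nat_lit 6250000000, nat_lit 9842000000], [], [nat_lit 42854133105, nat_lit 42929583070, nat_lit 43965887213, nat_lit 44039051699], nat_lit 1271250, nat_lit 1271250, nat_lit 1271250, nat_lit 1271250, nat_lit 0, nat_lit 0, [nat_lit 780000, nat_lit 1435000, nat_lit 1271250], [nat_lit 8, nat_lit 40, nat_lit 80, nat_lit 80, nat_lit 1, nat_lit 242, nat_lit 0, nat_lit 6]⟩,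
 zbF0, [⟨nat_lit 13, nat_lit 97, nat_lit 8, nat_lit 100, nat_lit 3712732⟩]⟩
noncomputable def p016_l189 : Lf2 := ⟨nat_lit 0, nat_lit 10, [nat_lit 0, nat_lit 5, nat_lit 5, nat_lit 20], false, nat_lit 0, nat_lit 0, nat_lit 0, nat_lit 0, ⟨nat_lit 1000, nat_lit 0, nat_lit 0, nat_lit 0, nat_lit 0, nat_lit 0, nat_lit 0, nat_lit 0, nat_lit 0, nat_lit 0, nat_lit 0, nat_lit 0, nat_lit 0, nat_lit 0, nat_lit 0, nat_lit 0, false, false⟩,
 nat_lit 0, nat_lit 0, nat_lit 11208, nat_lit 0, nat_lit 4506, nat_lit 7287, nat_lit 569, nat_lit 0, nat_lit 0, nat_lit 2687, nat_lit 0, nat_lit 0, nat_lit 0, nat_lit 0, nat_lit 0, nat_lit 0, nat_lit 0, nat_lit 0, [],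
 ⟨p016_k29, nat_lit 0, nat_lit 0, nat_lit 0, nat_lit 0, nat_lit 0, [nat_lit 3282000000, nat_lit 6250000000, nat_lit 7968000000], [], [nat_lit 32782345595, nat_lit 33198159612, nat_lit 35069229200, nat_lit 35433793006], nat_lit 0, nat_lit 0, nat_lit 0, nat_lit 0, nat_lit 0, nat_lit 0, [], [nat_lit 18, nat_lit 40, nat_lit 80, nat_lit 80]⟩, ⟨p016_k25, nat_lit 0, nat_lit 0, nat_lit 702, nat_lit 0, nat_lit 1161102, [nat_lit 3282000000, nat_lit 6250000000, nat_lit 9842000000], [], [nat_lit 33168129539, nat_lit 33245902838, nat_lit 34246133990, nat_lit 34310896672], nat_lit 1271250, nat_lit 1271250, nat_lit 1271250, nat_lit 1271250, nat_lit 0, nat_lit 0, [nat_lit 780000, nat_lit 1435000, nat_lit 1271250], [nat_lit 8, nat_lit 40, nat_lit 80, nat_lit 80, nat_lit 1, nat_lit 262, nat_lit 0, nat_lit 7]⟩,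
 zbF0, []⟩
noncomputable def p016_l190 : Lf2 := ⟨nat_lit 0, nat_lit 10, [nat_lit 0, nat_lit 5, nat_lit 5, nat_lit 20], false, nat_lit 0, nat_lit 0, nat_lit 0, nat_lit 0, ⟨nat_lit 1000, nat_lit 0, nat_lit 0, nat_lit 0, nat_lit 0, nat_lit 0, nat_lit 0, nat_lit 0, nat_lit 0, nat_lit 0, nat_lit 0, nat_lit 0, nat_lit 0, nat_lit 0, nat_lit 0, nat_lit 0, false, false⟩,
 nat_lit 0, nat_lit 0, nat_lit 9943, nat_lit 0, nat_lit 4764, nat_lit 6603, nat_lit 156, nat_lit 0, nat_lit 0, nat_lit 3325, nat_lit 0, nat_lit 0, nat_lit 0, nat_lit 0, nat_lit 0, nat_lit 0, nat_lit 0, nat_lit 0, [],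
 ⟨p016_k46, nat_lit 0, nat_lit 0, nat_lit 0, nat_lit 0, nat_lit 0, [nat_lit 3282000000, nat_lit 7968000000], [], [nat_lit 35403601232, nat_lit 35795804092, nat_lit 37588815692, nat_lit 37931894580], nat_lit 0, nat_lit 0, nat_lit 0, nat_lit 0, nat_lit 0, nat_lit 0, [], [nat_lit 74, nat_lit 40, nat_lit 80, nat_lit 80]⟩, ⟨p016_k46, nat_lit 0, nat_lit 0, nat_lit 787, nat_lit 0, nat_lit 1541566, [nat_lit 3282000000, nat_lit 7968000000], [], [nat_lit 30461736065, nat_lit 30616307180, nat_lit 31573043383, nat_lit 31745985474], nat_lit 1271250, nat_lit 1271250, nat_lit 1271250, nat_lit 1271250, nat_lit 0, nat_lit 0, [nat_lit 780000, nat_lit 1762500], [nat_lit 74, nat_lit 40, nat_lit 80, nat_lit 80, nat_lit 43, nat_lit 285, nat_lit 0, nat_lit 8]⟩,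
 zbF0, []⟩
noncomputable def p016_l191 : Lf2 := ⟨nat_lit 0, nat_lit 10, [nat_lit 0, nat_lit 5, nat_lit 5, nat_lit 20], false, nat_lit 0, nat_lit 0, nat_lit 0, nat_lit 0, ⟨nat_lit 282, nat_lit 718, nat_lit 0, nat_lit 9, nat_lit 363, nat_lit 0, nat_lit 0, nat_lit 0, nat_lit 0, nat_lit 0, nat_lit 0, nat_lit 0, nat_lit 36696960, nat_lit 30303040, nat_lit 0, nat_lit 3442932, true, true⟩,
 nat_lit 0, nat_lit 0, nat_lit 3378, nat_lit 0, nat_lit 3703, nat_lit 2149, nat_lit 600, nat_lit 0, nat_lit 0, nat_lit 276, nat_lit 0, nat_lit 0, nat_lit 0, nat_lit 0, nat_lit 0, nat_lit 287200, nat_lit 0, nat_lit 0, [(nat_lit 15, [(nat_lit 1, nat_lit 718)])],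
 ⟨p016_k52, nat_lit 0, nat_lit 0, nat_lit 0, nat_lit 0, nat_lit 0, [nat_lit 1952528000, nat_lit 2727548334, nat_lit 3918747667], [], [nat_lit 28824309363, nat_lit 29185666246, nat_lit 30796528735, nat_lit 31156901698], nat_lit 0, nat_lit 0, nat_lit 0, nat_lit 0, nat_lit 0, nat_lit 0, [], [nat_lit 215, nat_lit 40, nat_lit 20, nat_lit 40]⟩, ⟨p016_k2, nat_lit 0, nat_lit 0, nat_lit 907, nat_lit 0, nat_lit 1671735, [nat_lit 925524000, nat_lit 1322016000, nat_lit 2775444000], [], [nat_lit 9253595800, nat_lit 9278186336, nat_lit 9457916184, nat_lit 9476910571], nat_lit 1271250, nat_lit 1271250, nat_lit 1271250, nat_lit 1271250, nat_lit 0, nat_lit 0, [nat_lit 780000, nat_lit 1100000, nat_lit 2127500], [nat_lit 42, nat_lit 40, nat_lit 80, nat_lit 80, nat_lit 13, nat_lit 313, nat_lit 0, nat_lit 8]⟩,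
 ⟨nat_lit 4743, nat_lit 5000, ⟨.ofNat (nat_lit 871409), .ofNat (nat_lit 942836), .ofNat (nat_lit 882122), .ofNat (nat_lit 953549), .ofNat (nat_lit 864732), .ofNat (nat_lit 934430), .ofNat (nat_lit 875475), .ofNat (nat_lit 945173)⟩, ⟨.ofNat (nat_lit 0), .ofNat (nat_lit 0), .ofNat (nat_lit 0), .ofNat (nat_lit 0), .ofNat (nat_lit 0), .ofNat (nat_lit 0), .ofNat (nat_lit 0), .ofNat (nat_lit 0)⟩⟩, [⟨nat_lit 13, nat_lit 94, nat_lit 13, nat_lit 100, nat_lit 100791345⟩]⟩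
noncomputable def p016_l192 : Lf2 := ⟨nat_lit 0, nat_lit 10, [nat_lit 0, nat_lit 5, nat_lit 5, nat_lit 20], false, nat_lit 0, nat_lit 0, nat_lit 0, nat_lit 0, ⟨nat_lit 271, nat_lit 729, nat_lit 0, nat_lit 9, nat_lit 361, nat_lit 0, nat_lit 0, nat_lit 0, nat_lit 0, nat_lit 0, nat_lit 0, nat_lit 0, nat_lit 36902287, nat_lit 30097713, nat_lit 0, nat_lit 3439904, true, true⟩,
 nat_lit 0, nat_lit 0, nat_lit 3248, nat_lit 0, nat_lit 3494, nat_lit 2066, nat_lit 569, nat_lit 0, nat_lit 0, nat_lit 266, nat_lit 0, nat_lit 0, nat_lit 0, nat_lit 0, nat_lit 0, nat_lit 291600, nat_lit 0, nat_lit 0, [(nat_lit 15, [(nat_lit 1, nat_lit 729)])],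
 ⟨p016_k53, nat_lit 0, nat_lit 0, nat_lit 0, nat_lit 0, nat_lit 0, [nat_lit 1942034001, nat_lit 2679033701, nat_lit 3628280900], [], [nat_lit 28684155827, nat_lit 28868413467, nat_lit 30633580171, nat_lit 30815038099], nat_lit 0, nat_lit 0, nat_lit 0, nat_lit 0, nat_lit 0, nat_lit 0, [], [nat_lit 210, nat_lit 40, nat_lit 20, nat_lit 40]⟩, ⟨p016_k2, nat_lit 0, nat_lit 0, nat_lit 935, nat_lit 0, nat_lit 1733336, [nat_lit 889422000, nat_lit 1270448000, nat_lit 2667182000], [], [nat_lit 8883131050, nat_lit 8906754462, nat_lit 9079485522, nat_lit 9097969069], nat_lit 1271250, nat_lit 1271250, nat_lit 1271250, nat_lit 1271250, nat_lit 0, nat_lit 0, [nat_lit 780000, nat_lit 1100000, nat_lit 2127500], [nat_lit 42, nat_lit 40, nat_lit 80, nat_lit 80, nat_lit 13, nat_lit 320, nat_lit 0, nat_lit 8]⟩,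
 ⟨nat_lit 4609, nat_lit 4744, ⟨.ofNat (nat_lit 864747), .ofNat (nat_lit 934447), .ofNat (nat_lit 875491), .ofNat (nat_lit 945190), .ofNat (nat_lit 861449), .ofNat (nat_lit 930287), .ofNat (nat_lit 872211), .ofNat (nat_lit 941049)⟩, ⟨.ofNat (nat_lit 0), .ofNat (nat_lit 0), .ofNat (nat_lit 0), .ofNat (nat_lit 0), .ofNat (nat_lit 0), .ofNat (nat_lit 0), .ofNat (nat_lit 0), .ofNat (nat_lit 0)⟩⟩, [⟨nat_lit 13, nat_lit 91, nat_lit 17, nat_lit 100, nat_lit 111823047⟩]⟩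
noncomputable def p016_l193 : Lf2 := ⟨nat_lit 0, nat_lit 10, [nat_lit 0, nat_lit 5, nat_lit 5, nat_lit 20], false, nat_lit 0, nat_lit 0, nat_lit 0, nat_lit 0, ⟨nat_lit 235, nat_lit 765, nat_lit 0, nat_lit 9, nat_lit 360, nat_lit 0, nat_lit 0, nat_lit 0, nat_lit 0, nat_lit 0, nat_lit 0, nat_lit 0, nat_lit 37038599, nat_lit 29961401, nat_lit 0, nat_lit 3437789, true, true⟩,
 nat_lit 0, nat_lit 0, nat_lit 2814, nat_lit 0, nat_lit 3467, nat_lit 1790, nat_lit 435, nat_lit 0, nat_lit 0, nat_lit 230, nat_lit 0, nat_lit 0, nat_lit 0, nat_lit 0, nat_lit 0, nat_lit 306000, nat_lit 0, nat_lit 0, [(nat_lit 15, [(nat_lit 1, nat_lit 765)])],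
 ⟨p016_k54, nat_lit 0, nat_lit 0, nat_lit 0, nat_lit 0, nat_lit 0, [nat_lit 1907690001, nat_lit 2199984001, nat_lit 2812220001, nat_lit 3466559000], [], [nat_lit 28933019233, nat_lit 29112077236, nat_lit 30807984423, nat_lit 30978977897], nat_lit 0, nat_lit 0, nat_lit 0, nat_lit 0, nat_lit 0, nat_lit 0, [], [nat_lit 270, nat_lit 40, nat_lit 20, nat_lit 40]⟩, ⟨p016_k2, nat_lit 0, nat_lit 0, nat_lit 974, nat_lit 0, nat_lit 1796533, [nat_lit 771270000, nat_lit 1101680000, nat_lit 2312870000], [], [nat_lit 7717069750, nat_lit 7737569850, nat_lit 7887332670, nat_lit 7903171075], nat_lit 1271250, nat_lit 1271250, nat_lit 1271250, nat_lit 1271250, nat_lit 0, nat_lit 0, [nat_lit 780000, nat_lit 1100000, nat_lit 2127500], [nat_lit 42, nat_lit 40, nat_lit 80, nat_lit 80, nat_lit 13, nat_lit 330, nat_lit 0, nat_lit 9]⟩,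
 ⟨nat_lit 4472, nat_lit 4610, ⟨.ofNat (nat_lit 861449), .ofNat (nat_lit 930287), .ofNat (nat_lit 872211), .ofNat (nat_lit 941050), .ofNat (nat_lit 858174), .ofNat (nat_lit 926152), .ofNat (nat_lit 868957), .ofNat (nat_lit 936935)⟩, ⟨.ofNat (nat_lit 0), .ofNat (nat_lit 0), .ofNat (nat_lit 0), .ofNat (nat_lit 0), .ofNat (nat_lit 0), .ofNat (nat_lit 0), .ofNat (nat_lit 0), .ofNat (nat_lit 0)⟩⟩, [⟨nat_lit 13, nat_lit 89, nat_lit 21, nat_lit 100, nat_lit 118786276⟩]⟩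
noncomputable def p016_l194 : Lf2 := ⟨nat_lit 0, nat_lit 10, [nat_lit 0, nat_lit 5, nat_lit 5, nat_lit 20], false, nat_lit 0, nat_lit 0, nat_lit 0, nat_lit 0, ⟨nat_lit 1000, nat_lit 0, nat_lit 0, nat_lit 0, nat_lit 0, nat_lit 0, nat_lit 0, nat_lit 0, nat_lit 0, nat_lit 0, nat_lit 0, nat_lit 0, nat_lit 0, nat_lit 0, nat_lit 0, nat_lit 0, false, false⟩,
 nat_lit 0, nat_lit 0, nat_lit 10282, nat_lit 0, nat_lit 4770, nat_lit 6828, nat_lit 934, nat_lit 0, nat_lit 0, nat_lit 2752, nat_lit 0, nat_lit 0, nat_lit 0, nat_lit 0, nat_lit 0, nat_lit 0, nat_lit 0, nat_lit 0, [],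
 ⟨p016_k8, nat_lit 0, nat_lit 0, nat_lit 0, nat_lit 0, nat_lit 0, [nat_lit 3282000000, nat_lit 6250000000, nat_lit 7968000000], [], [nat_lit 31622216540, nat_lit 32046820305, nat_lit 33920457270, nat_lit 34291502540], nat_lit 0, nat_lit 0, nat_lit 0, nat_lit 0, nat_lit 0, nat_lit 0, [], [nat_lit 18, nat_lit 40, nat_lit 80, nat_lit 80]⟩, ⟨p016_k29, nat_lit 0, nat_lit 0, nat_lit 847, nat_lit 0, nat_lit 1650027, [nat_lit 3282000000, nat_lit 6250000000, nat_lit 7968000000], [], [nat_lit 29135731520, nat_lit 29279510504, nat_lit 30121161608, nat_lit 30267300128], nat_lit 1271250, nat_lit 1271250, nat_lit 1271250, nat_lit 1271250, nat_lit 0, nat_lit 0, [nat_lit 780000, nat_lit 1435000, nat_lit 1271250], [nat_lit 18, nat_lit 40, nat_lit 80, nat_lit 80, nat_lit 2, nat_lit 300, nat_lit 0, nat_lit 9]⟩,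
 zbF0, []⟩
noncomputable def p016_l195 : Lf2 := ⟨nat_lit 0, nat_lit 10, [nat_lit 0, nat_lit 5, nat_lit 5, nat_lit 20], false, nat_lit 0, nat_lit 0, nat_lit 0, nat_lit 0, ⟨nat_lit 1000, nat_lit 0, nat_lit 0, nat_lit 0, nat_lit 0, nat_lit 0, nat_lit 0, nat_lit 0, nat_lit 0, nat_lit 0, nat_lit 0, nat_lit 0, nat_lit 0, nat_lit 0, nat_lit 0, nat_lit 0, false, false⟩,
 nat_lit 0, nat_lit 0, nat_lit 10238, nat_lit 0, nat_lit 4334, nat_lit 6799, nat_lit 1274, nat_lit 0, nat_lit 0, nat_lit 2433, nat_lit 0, nat_lit 0, nat_lit 0, nat_lit 0, nat_lit 0, nat_lit 0, nat_lit 0, nat_lit 0, [],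
 ⟨p016_k34, nat_lit 0, nat_lit 0, nat_lit 0, nat_lit 0, nat_lit 0, [nat_lit 3282000000, nat_lit 6250000000, nat_lit 7968000000], [], [nat_lit 30792991732, nat_lit 30974813806, nat_lit 32943684146, nat_lit 33146288245], nat_lit 0, nat_lit 0, nat_lit 0, nat_lit 0, nat_lit 0, nat_lit 0, [], [nat_lit 18, nat_lit 40, nat_lit 80, nat_lit 80]⟩, ⟨p016_k29, nat_lit 0, nat_lit 0, nat_lit 870, nat_lit 0, nat_lit 1706553, [nat_lit 3282000000, nat_lit 6250000000, nat_lit 7968000000], [], [nat_lit 30380176396, nat_lit 30479457086, nat_lit 31281275582, nat_lit 31523672008], nat_lit 1271250, nat_lit 1271250, nat_lit 1271250, nat_lit 1271250, nat_lit 0, nat_lit 0, [nat_lit 780000, nat_lit 1435000, nat_lit 1271250], [nat_lit 18, nat_lit 40, nat_lit 80, nat_lit 80, nat_lit 2, nat_lit 305, nat_lit 0, nat_lit 9]⟩,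
 zbF0, []⟩
noncomputable def p016_l196 : Lf2 := ⟨nat_lit 0, nat_lit 10, [nat_lit 0, nat_lit 5, nat_lit 5, nat_lit 20], false, nat_lit 0, nat_lit 0, nat_lit 0, nat_lit 0, ⟨nat_lit 745, nat_lit 255, nat_lit 0, nat_lit 9, nat_lit 364, nat_lit 0, nat_lit 0, nat_lit 0, nat_lit 0, nat_lit 0, nat_lit 0, nat_lit 0, nat_lit 36643707, nat_lit 30356293, nat_lit 0, nat_lit 3443687, true, true⟩,
 nat_lit 0, nat_lit 0, nat_lit 7614, nat_lit 0, nat_lit 4047, nat_lit 5056, nat_lit 879, nat_lit 0, nat_lit 0, nat_lit 1774, nat_lit 0, nat_lit 0, nat_lit 0, nat_lit 0, nat_lit 0, nat_lit 102000, nat_lit 0, nat_lit 0, [(nat_lit 15, [(nat_lit 1, nat_lit 255)])],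
 ⟨p016_k41, nat_lit 0, nat_lit 0, nat_lit 0, nat_lit 0, nat_lit 0, [nat_lit 2960241000, nat_lit 5256741000, nat_lit 6526740000], [], [nat_lit 30476808573, nat_lit 30654939540, nat_lit 32418342643, nat_lit 32596446532], nat_lit 0, nat_lit 0, nat_lit 0, nat_lit 0, nat_lit 0, nat_lit 0, [], [nat_lit 18, nat_lit 40, nat_lit 80, nat_lit 80]⟩, ⟨p016_k29, nat_lit 0, nat_lit 0, nat_lit 894, nat_lit 0, nat_lit 1764708, [nat_lit 2445090000, nat_lit 4656250000, nat_lit 5936160000], [], [nat_lit 22973495700, nat_lit 23063911789, nat_lit 23575814521, nat_lit 23655647472], nat_lit 1271250, nat_lit 1271250, nat_lit 1271250, nat_lit 1271250, nat_lit 0, nat_lit 0, [nat_lit 780000, nat_lit 1435000, nat_lit 1271250], [nat_lit 18, nat_lit 40, nat_lit 80, nat_lit 80, nat_lit 2, nat_lit 311, nat_lit 0, nat_lit 9]⟩,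
 ⟨nat_lit 4472, nat_lit 4610, ⟨.ofNat (nat_lit 872211), .ofNat (nat_lit 941050), .ofNat (nat_lit 882973), .ofNat (nat_lit 951812), .ofNat (nat_lit 868957), .ofNat (nat_lit 936935), .ofNat (nat_lit 879740), .ofNat (nat_lit 947718)⟩, ⟨.ofNat (nat_lit 0), .ofNat (nat_lit 0), .ofNat (nat_lit 0), .ofNat (nat_lit 0), .ofNat (nat_lit 0), .ofNat (nat_lit 0), .ofNat (nat_lit 0), .ofNat (nat_lit 0)⟩⟩, []⟩
noncomputable def p016_l197 : Lf2 := ⟨nat_lit 2, nat_lit 10, [nat_lit 0, nat_lit 5, nat_lit 5, nat_lit 20], true, nat_lit 0, nat_lit 0, nat_lit 0, nat_lit 0, zbN0,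
 nat_lit 0, nat_lit 0, nat_lit 0, nat_lit 0, nat_lit 0, nat_lit 0, nat_lit 0, nat_lit 0, nat_lit 0, nat_lit 0, nat_lit 0, nat_lit 0, nat_lit 0, nat_lit 0, nat_lit 0, nat_lit 0, nat_lit 0, nat_lit 0, [],
 ⟨p016_k2, nat_lit 0, nat_lit 0, nat_lit 209, nat_lit 0, nat_lit 0, [], [], [], nat_lit 0, nat_lit 0, nat_lit 0, nat_lit 0, nat_lit 0, nat_lit 0, [], [nat_lit 42, nat_lit 40, nat_lit 80, nat_lit 80, nat_lit 13, nat_lit 203, nat_lit 0, nat_lit 5]⟩, C1.Rw.none,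
 zbF0, []⟩
noncomputable def p016_l198 : Lf2 := ⟨nat_lit 0, nat_lit 10, [nat_lit 0, nat_lit 5, nat_lit 5, nat_lit 20], false, nat_lit 0, nat_lit 0, nat_lit 0, nat_lit 0, ⟨nat_lit 1000, nat_lit 0, nat_lit 0, nat_lit 0, nat_lit 0, nat_lit 0, nat_lit 0, nat_lit 0, nat_lit 0, nat_lit 0, nat_lit 0, nat_lit 0, nat_lit 0, nat_lit 0, nat_lit 0, nat_lit 0, false, false⟩,
 nat_lit 0, nat_lit 0, nat_lit 8449, nat_lit 0, nat_lit 4826, nat_lit 5849, nat_lit 1298, nat_lit 0, nat_lit 0, nat_lit 1621, nat_lit 0, nat_lit 0, nat_lit 0, nat_lit 0, nat_lit 0, nat_lit 0, nat_lit 0, nat_lit 0, [],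
 ⟨p016_k44, nat_lit 0, nat_lit 0, nat_lit 178, nat_lit 0, nat_lit 0, [nat_lit 3282000000, nat_lit 7968000000], [], [nat_lit 32234162678, nat_lit 32628116418, nat_lit 34513914146, nat_lit 34921750116], nat_lit 0, nat_lit 0, nat_lit 0, nat_lit 0, nat_lit 0, nat_lit 0, [], [nat_lit 74, nat_lit 40, nat_lit 80, nat_lit 80, nat_lit 43, nat_lit 203, nat_lit 0, nat_lit 6]⟩, ⟨p016_k44, nat_lit 0, nat_lit 0, nat_lit 837, nat_lit 0, nat_lit 1632028, [nat_lit 3282000000, nat_lit 7968000000], [], [nat_lit 36035261574, nat_lit 36157446779, nat_lit 36925729385, nat_lit 37062270272], nat_lit 1271250, nat_lit 1271250, nat_lit 1271250, nat_lit 1271250, nat_lit 0, nat_lit 0, [nat_lit 780000, nat_lit 1762500], [nat_lit 74, nat_lit 40, nat_lit 80, nat_lit 80, nat_lit 43, nat_lit 298, nat_lit 0, nat_lit 9]⟩,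
 zbF0, []⟩
noncomputable def p016_l199 : Lf2 := ⟨nat_lit 0, nat_lit 10, [nat_lit 0, nat_lit 5, nat_lit 5, nat_lit 20], false, nat_lit 0, nat_lit 0, nat_lit 0, nat_lit 0, ⟨nat_lit 694, nat_lit 306, nat_lit 0, nat_lit 9, nat_lit 371, nat_lit 0, nat_lit 0, nat_lit 0, nat_lit 0, nat_lit 0, nat_lit 0, nat_lit 0, nat_lit 35993071, nat_lit 31006929, nat_lit 0, nat_lit 3451876, true, true⟩,
 nat_lit 0, nat_lit 0, nat_lit 5943, nat_lit 0, nat_lit 3992, nat_lit 4114, nat_lit 985, nat_lit 0, nat_lit 0, nat_lit 961, nat_lit 0, nat_lit 0, nat_lit 0, nat_lit 0, nat_lit 0, nat_lit 122400, nat_lit 0, nat_lit 0, [(nat_lit 15, [(nat_lit 1, nat_lit 306)])],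
 ⟨p016_k34, nat_lit 0, nat_lit 0, nat_lit 199, nat_lit 0, nat_lit 0, [nat_lit 2895889201, nat_lit 5058089200, nat_lit 6238488000], [], [nat_lit 30160550567, nat_lit 30515397791, nat_lit 32091737561, nat_lit 32444147475], nat_lit 0, nat_lit 0, nat_lit 0, nat_lit 0, nat_lit 0, nat_lit 0, [], [nat_lit 18, nat_lit 40, nat_lit 80, nat_lit 80, nat_lit 2, nat_lit 203, nat_lit 0, nat_lit 5]⟩, ⟨p016_k8, nat_lit 0, nat_lit 0, nat_lit 911, nat_lit 0, nat_lit 1811977, [nat_lit 2277708000, nat_lit 4337500000, nat_lit 5529792000], [], [nat_lit 25617956439, nat_lit 25766819213, nat_lit 26123386434, nat_lit 26276051667], nat_lit 1271250, nat_lit 1271250, nat_lit 1271250, nat_lit 1271250, nat_lit 0, nat_lit 0, [nat_lit 780000, nat_lit 1435000, nat_lit 1271250], [nat_lit 18, nat_lit 40, nat_lit 80, nat_lit 80, nat_lit 2, nat_lit 318, nat_lit 0, nat_lit 9]⟩,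
 ⟨nat_lit 4472, nat_lit 4744, ⟨.ofNat (nat_lit 886220), .ofNat (nat_lit 955919), .ofNat (nat_lit 907705), .ofNat (nat_lit 977404), .ofNat (nat_lit 879725), .ofNat (nat_lit 947703), .ofNat (nat_lit 901288), .ofNat (nat_lit 969266)⟩, ⟨.ofNat (nat_lit 0), .ofNat (nat_lit 0), .ofNat (nat_lit 0), .ofNat (nat_lit 0), .ofNat (nat_lit 0), .ofNat (nat_lit 0), .ofNat (nat_lit 0), .ofNat (nat_lit 0)⟩⟩, []⟩
noncomputable def p016_l200 : Lf2 := ⟨nat_lit 0, nat_lit 10, [nat_lit 0, nat_lit 5, nat_lit 5, nat_lit 20], false, nat_lit 0, nat_lit 0, nat_lit 0, nat_lit 0, ⟨nat_lit 509, nat_lit 491, nat_lit 0, nat_lit 7, nat_lit 266, nat_lit 0, nat_lit 0, nat_lit 0, nat_lit 0, nat_lit 0, nat_lit 0, nat_lit 0, nat_lit 0, nat_lit 0, nat_lit 0, nat_lit 5000000, false, false⟩,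
 nat_lit 0, nat_lit 0, nat_lit 0, nat_lit 0, nat_lit 4471, nat_lit 0, nat_lit 0, nat_lit 0, nat_lit 0, nat_lit 0, nat_lit 0, nat_lit 0, nat_lit 0, nat_lit 0, nat_lit 0, nat_lit 122750, nat_lit 0, nat_lit 0, [(nat_lit 12, [(nat_lit 0, nat_lit 491)]), (nat_lit 15, [(nat_lit 0, nat_lit 491)])],
 ⟨p016_k43, nat_lit 0, nat_lit 0, nat_lit 200, nat_lit 0, nat_lit 0, [nat_lit 2838528801, nat_lit 6665033600], [], [nat_lit 26725057268, nat_lit 29221173590, nat_lit 36936533568, nat_lit 38387748000], nat_lit 0, nat_lit 0, nat_lit 0, nat_lit 0, nat_lit 0, nat_lit 0, [], [nat_lit 82, nat_lit 40, nat_lit 80, nat_lit 80, nat_lit 63, nat_lit 317, nat_lit 100, nat_lit 9]⟩, ⟨p016_k43, nat_lit 0, nat_lit 0, nat_lit 200, nat_lit 0, nat_lit 0, [nat_lit 1670538000, nat_lit 5009578000], [], [nat_lit 18925267856, nat_lit 19574492469, nat_lit 23177084932, nat_lit 23663896604], nat_lit 0, nat_lit 0, nat_lit 0, nat_lit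 0, nat_lit 0, nat_lit 0, [], [nat_lit 82, nat_lit 40, nat_lit 80, nat_lit 80, nat_lit 63, nat_lit 317, nat_lit 100, nat_lit 9]⟩,
 ⟨nat_lit 4472, nat_lit 5478, ⟨.ofNat (nat_lit 330579), .ofNat (nat_lit 959740), .ofNat (nat_lit 373223), .ofNat (nat_lit 1002365), .ofNat (nat_lit 355064), .ofNat (nat_lit 925804), .ofNat (nat_lit 398126), .ofNat (nat_lit 968848)⟩, ⟨.ofNat (nat_lit 0), .ofNat (nat_lit 0), .ofNat (nat_lit 0), .ofNat (nat_lit 0), .ofNat (nat_lit 0), .ofNat (nat_lit 0), .ofNat (nat_lit 0), .ofNat (nat_lit 0)⟩⟩, []⟩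
noncomputable def p016_l201 : Lf2 := ⟨nat_lit 0, nat_lit 10, [nat_lit 0, nat_lit 5, nat_lit 5, nat_lit 20], true, nat_lit 0, nat_lit 0, nat_lit 0, nat_lit 0, ⟨nat_lit 0, nat_lit 1000, nat_lit 0, nat_lit 7, nat_lit 209, nat_lit 0, nat_lit 0, nat_lit 0, nat_lit 0, nat_lit 0, nat_lit 0, nat_lit 0, nat_lit 0, nat_lit 0, nat_lit 0, nat_lit 5000000, false, false⟩,
 nat_lit 0, nat_lit 0, nat_lit 0, nat_lit 0, nat_lit 3527, nat_lit 0, nat_lit 0, nat_lit 0, nat_lit 0, nat_lit 0, nat_lit 0, nat_lit 0, nat_lit 0, nat_lit 13540909754847, nat_lit 0, nat_lit 250000, nat_lit 0, nat_lit 0, [(nat_lit 12, [(nat_lit 0, nat_lit 1000)]), (nat_lit 15, [(nat_lit 0, nat_lit 1000)])],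
 ⟨p016_k43, nat_lit 0, nat_lit 0, nat_lit 190, nat_lit 0, nat_lit 0, [nat_lit 2378800001, nat_lit 3513428572], [], [nat_lit 22662011859, nat_lit 25140589210, nat_lit 25665612013, nat_lit 27587426621], nat_lit 0, nat_lit 0, nat_lit 0, nat_lit 0, nat_lit 0, nat_lit 0, [], [nat_lit 82, nat_lit 40, nat_lit 80, nat_lit 80, nat_lit 63, nat_lit 272, nat_lit 60, nat_lit 8]⟩, C1.Rw.none,
 ⟨nat_lit 4472, nat_lit 5478, ⟨.ofNat (nat_lit 330579), .ofNat (nat_lit 660148), .ofNat (nat_lit 373223), .ofNat (nat_lit 702774), .ofNat (nat_lit 355064), .ofNat (nat_lit 654031), .ofNat (nat_lit 398126), .ofNat (nat_lit 697075)⟩, ⟨.ofNat (nat_lit 0), .ofNat (nat_lit 0), .ofNat (nat_lit 0), .ofNat (nat_lit 0), .ofNat (nat_lit 0), .ofNat (nat_lit 0), .ofNat (nat_lit 0), .ofNat (nat_lit 0)⟩⟩, []⟩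
noncomputable def p016_l202 : Lf2 := ⟨nat_lit 0, nat_lit 10, [nat_lit 0, nat_lit 5, nat_lit 5, nat_lit 20], true, nat_lit 0, nat_lit 0, nat_lit 0, nat_lit 0, ⟨nat_lit 0, nat_lit 1000, nat_lit 0, nat_lit 7, nat_lit 329, nat_lit 0, nat_lit 0, nat_lit 0, nat_lit 0, nat_lit 0, nat_lit 0, nat_lit 0, nat_lit 0, nat_lit 0, nat_lit 0, nat_lit 5000000, true, true⟩,
 nat_lit 0, nat_lit 0, nat_lit 0, nat_lit 0, nat_lit 3852, nat_lit 0, nat_lit 70, nat_lit 0, nat_lit 0, nat_lit 0, nat_lit 0, nat_lit 0, nat_lit 0, nat_lit 10753680160554, nat_lit 0, nat_lit 652600, nat_lit 0, nat_lit 0, [(nat_lit 12, [(nat_lit 1, nat_lit 579), (nat_lit 2, nat_lit 421)]), (nat_lit 15, [(nat_lit 1, nat_lit 579), (nat_lit 2, nat_lit 421)])],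
 ⟨p016_k0, nat_lit 0, nat_lit 0, nat_lit 219, nat_lit 0, nat_lit 0, [nat_lit 2180722800, nat_lit 2395009200, nat_lit 1402701600], [], [nat_lit 24847649166, nat_lit 26445404750, nat_lit 30977760942, nat_lit 32051701712], nat_lit 0, nat_lit 0, nat_lit 0, nat_lit 0, nat_lit 0, nat_lit 0, [], [nat_lit 8, nat_lit 40, nat_lit 80, nat_lit 80, nat_lit 1, nat_lit 317, nat_lit 100, nat_lit 9]⟩, C1.Rw.none,
 ⟨nat_lit 4472, nat_lit 5478, ⟨.ofNat (nat_lit 660148), .ofNat (nat_lit 959740), .ofNat (nat_lit 702774), .ofNat (nat_lit 1002365), .ofNat (nat_lit 654031), .ofNat (nat_lit 925804), .ofNat (nat_lit 697075), .ofNat (nat_lit 968848)⟩, ⟨.ofNat (nat_lit 0), .ofNat (nat_lit 0), .ofNat (nat_lit 0), .ofNat (nat_lit 0), .ofNat (nat_lit 0), .ofNat (nat_lit 0), .ofNat (nat_lit 0), .ofNat (nat_lit 0)⟩⟩, []⟩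
noncomputable def b_N_700_700_0_0 : St := ⟨false, nat_lit 0, nat_lit 2, nat_lit 0, nat_lit 40, nat_lit 280, nat_lit 320, nat_lit 280, nat_lit 320, nat_lit 64, nat_lit 400, nat_lit 0, nat_lit 0, nat_lit 0, nat_lit 0, nat_lit 0, nat_lit 0, nat_lit 0, nat_lit 40, nat_lit 0, nat_lit 0, nat_lit 0, nat_lit 0⟩
theorem d_N_700_700_0_0 (h : EB TB.env) : Dead b_N_700_700_0_0 := chkB_sound0 h (T :=
(.gv
(.st (nat_lit 1)
(.leaf p016_l165)
(.spl (nat_lit 2) (nat_lit 240)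
(.spl (nat_lit 0) (nat_lit 300)
(.ord (.leaf p016_l166))
(.trZ (nat_lit 0) (nat_lit 100) (nat_lit 94) (nat_lit 88) (nat_lit 80) (.leaf p016_l167)))
(.spl (nat_lit 2) (nat_lit 320)
(.spl (nat_lit 2) (nat_lit 280)
(.spl (nat_lit 0) (nat_lit 300)
(.ord (.leaf p016_l168))
(.leaf p016_l169))
(.spl (nat_lit 1) (nat_lit 300)
(.spl (nat_lit 1) (nat_lit 290)
(.spl (nat_lit 0) (nat_lit 300)
(.spl (nat_lit 0) (nat_lit 290)
(.leaf p016_l170)
(.leaf p016_l171))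
(.leaf p016_l172))
(.ord (.leaf p016_l173)))
(.ord (.leaf p016_l174))))
(.spl (nat_lit 2) (nat_lit 360)
(.spl (nat_lit 1) (nat_lit 300)
(.spl (nat_lit 0) (nat_lit 300)
(.spl (nat_lit 0) (nat_lit 290)
(.ord (.spl (nat_lit 0) (nat_lit 285)
(.ord (.leaf p016_l175))
(.leaf p016_l176)))
(.spl (nat_lit 1) (nat_lit 290)
(.spl (nat_lit 0) (nat_lit 295)
(.leaf p016_l177)
(.leaf p016_l178))
(.leaf p016_l179)))
(.leaf p016_l180))
(.ord (.leaf p016_l181)))
(.spl (nat_lit 1) (nat_lit 300)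
(.spl (nat_lit 8) (nat_lit 800)
(.leaf p016_l182)
(.spl (nat_lit 7) (nat_lit 600)
(.spl (nat_lit 0) (nat_lit 300)
(.spl (nat_lit 1) (nat_lit 290)
(.spl (nat_lit 6) (nat_lit 20)
(.spl (nat_lit 0) (nat_lit 290)
(.leaf p016_l183)
(.leaf p016_l184))
(.spl (nat_lit 0) (nat_lit 290)
(.leaf p016_l185)
(.spl (nat_lit 1) (nat_lit 285)
(.spl (nat_lit 6) (nat_lit 32)
(.spl (nat_lit 0) (nat_lit 295)
(.leaf p016_l186)
(.leaf p016_l187))
(.leaf p016_l188))
(.leaf p016_l189))))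
(.ord (.leaf p016_l190)))
(.spl (nat_lit 1) (nat_lit 290)
(.spl (nat_lit 0) (nat_lit 310)
(.leaf p016_l191)
(.spl (nat_lit 0) (nat_lit 315)
(.leaf p016_l192)
(.leaf p016_l193)))
(.spl (nat_lit 0) (nat_lit 310)
(.leaf p016_l194)
(.spl (nat_lit 0) (nat_lit 315)
(.leaf p016_l195)
(.leaf p016_l196)))))
(.leaf p016_l197)))
(.ord (.spl (nat_lit 0) (nat_lit 310)
(.ord (.leaf p016_l198))
(.leaf p016_l199))))))))
(.st (nat_lit 1)
(.leaf p016_l200)
(.spl (nat_lit 2) (nat_lit 240)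
(.leaf p016_l201)
(.leaf p016_l202))))) (by decide +kernel)
noncomputable def p016_l203 : Lf2 := ⟨nat_lit 0, nat_lit 10, [nat_lit 0, nat_lit 5, nat_lit 5, nat_lit 20], false, nat_lit 0, nat_lit 0, nat_lit 0, nat_lit 0, ⟨nat_lit 1000, nat_lit 0, nat_lit 0, nat_lit 0, nat_lit 0, nat_lit 0, nat_lit 0, nat_lit 0, nat_lit 0, nat_lit 0, nat_lit 0, nat_lit 0, nat_lit 0, nat_lit 0, nat_lit 0, nat_lit 0, false, false⟩,
 nat_lit 0, nat_lit 0, nat_lit 0, nat_lit 0, nat_lit 0, nat_lit 5521, nat_lit 0, nat_lit 0, nat_lit 438, nat_lit 0, nat_lit 0, nat_lit 0, nat_lit 0, nat_lit 11551808442802, nat_lit 0, nat_lit 0, nat_lit 0, nat_lit 0, [],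
 ⟨p016_k43, nat_lit 0, nat_lit 0, nat_lit 0, nat_lit 0, nat_lit 2036148, [nat_lit 3282000000, nat_lit 9842000000], [], [nat_lit 18011628000, nat_lit 19191260800, nat_lit 26869012000, nat_lit 26869012000], nat_lit 1271250, nat_lit 1271250, nat_lit 382400, nat_lit 2957000, nat_lit 0, nat_lit 0, [nat_lit 780000, nat_lit 2090000], [nat_lit 82, nat_lit 40, nat_lit 80, nat_lit 80]⟩, ⟨p016_k43, nat_lit 0, nat_lit 0, nat_lit 200, nat_lit 0, nat_lit 0, [nat_lit 3282000000, nat_lit 9842000000], [], [nat_lit 29287753346, nat_lit 32729472984, nat_lit 41203618368, nat_lit 42747434400], nat_lit 0, nat_lit 0, nat_lit 0, nat_lit 0, nat_lit 0, nat_lit 0, [], [nat_lit 82, nat_lit 40, nat_lit 80, nat_lit 80, nat_lit 63, nat_lit 317, nat_lit 100, nat_lit 9]⟩,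
 zbF0, []⟩
noncomputable def p016_l204 : Lf2 := ⟨nat_lit 0, nat_lit 10, [nat_lit 0, nat_lit 5, nat_lit 5, nat_lit 20], false, nat_lit 0, nat_lit 0, nat_lit 0, nat_lit 0, ⟨nat_lit 1000, nat_lit 0, nat_lit 0, nat_lit 0, nat_lit 0, nat_lit 0, nat_lit 0, nat_lit 0, nat_lit 0, nat_lit 0, nat_lit 0, nat_lit 0, nat_lit 0, nat_lit 0, nat_lit 0, nat_lit 0, false, false⟩,
 nat_lit 0, nat_lit 18450, nat_lit 0, nat_lit 0, nat_lit 11740, nat_lit 5758, nat_lit 1560, nat_lit 0, nat_lit 0, nat_lit 1443, nat_lit 0, nat_lit 0, nat_lit 0, nat_lit 399866050946, nat_lit 0, nat_lit 0, nat_lit 0, nat_lit 0, [],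
 ⟨p016_k0, nat_lit 0, nat_lit 0, nat_lit 0, nat_lit 0, nat_lit 657482, [nat_lit 3282000000, nat_lit 6250000000, nat_lit 9842000000], [], [nat_lit 19943467617, nat_lit 20466306841, nat_lit 18742778080, nat_lit 19111614550], nat_lit 1271250, nat_lit 1271250, nat_lit 382400, nat_lit 490000, nat_lit 0, nat_lit 0, [nat_lit 780000, nat_lit 1435000, nat_lit 1271250], [nat_lit 8, nat_lit 40, nat_lit 80, nat_lit 80]⟩, ⟨p016_k0, nat_lit 0, nat_lit 0, nat_lit 0, nat_lit 0, nat_lit 0, [nat_lit 3282000000, nat_lit 6250000000, nat_lit 9842000000], [], [nat_lit 20189113724, nat_lit 20732165852, nat_lit 19342953504, nat_lit 19869178732], nat_lit 0, nat_lit 0, nat_lit 0, nat_lit 0, nat_lit 0, nat_lit 0, [], [nat_lit 8, nat_lit 40, nat_lit 80, nat_lit 80]⟩,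
 zbF0, [⟨nat_lit 0, nat_lit 100, nat_lit 100, nat_lit 80, nat_lit 1272977898⟩]⟩
noncomputable def p016_l205 : Lf2 := ⟨nat_lit 0, nat_lit 10, [nat_lit 0, nat_lit 5, nat_lit 5, nat_lit 20], false, nat_lit 0, nat_lit 0, nat_lit 0, nat_lit 0, ⟨nat_lit 1000, nat_lit 0, nat_lit 0, nat_lit 0, nat_lit 0, nat_lit 0, nat_lit 0, nat_lit 0, nat_lit 0, nat_lit 0, nat_lit 0, nat_lit 0, nat_lit 0, nat_lit 0, nat_lit 0, nat_lit 0, false, false⟩,
 nat_lit 0, nat_lit 13786, nat_lit 0, nat_lit 0, nat_lit 8772, nat_lit 5738, nat_lit 2261, nat_lit 0, nat_lit 0, nat_lit 2628, nat_lit 0, nat_lit 0, nat_lit 0, nat_lit 0, nat_lit 0, nat_lit 0, nat_lit 0, nat_lit 0, [],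
 ⟨p016_k16, nat_lit 0, nat_lit 0, nat_lit 0, nat_lit 0, nat_lit 1348930, [nat_lit 3282000000, nat_lit 3965500000, nat_lit 5449500000, nat_lit 8885500000], [], [nat_lit 15314486832, nat_lit 14390890808, nat_lit 13757352288, nat_lit 14042352632], nat_lit 1271250, nat_lit 1271250, nat_lit 490000, nat_lit 780000, nat_lit 0, nat_lit 0, [nat_lit 780000, nat_lit 936250, nat_lit 1271250, nat_lit 1271250], [nat_lit 148, nat_lit 40, nat_lit 20, nat_lit 40]⟩, ⟨p016_k16, nat_lit 0, nat_lit 0, nat_lit 0, nat_lit 0, nat_lit 0, [nat_lit 3282000000, nat_lit 3965500000, nat_lit 5449500000, nat_lit 8885500000], [], [nat_lit 15342878560, nat_lit 15805147744, nat_lit 15491870200, nat_lit 15965210309], nat_lit 0, nat_lit 0, nat_lit 0, nat_lit 0, nat_lit 0, nat_lit 0, [], [nat_lit 148, nat_lit 40, nat_lit 20, nat_lit 40]⟩,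
 zbF0, []⟩
noncomputable def p016_l206 : Lf2 := ⟨nat_lit 0, nat_lit 10, [nat_lit 0, nat_lit 5, nat_lit 5, nat_lit 20], false, nat_lit 0, nat_lit 0, nat_lit 0, nat_lit 0, ⟨nat_lit 1000, nat_lit 0, nat_lit 0, nat_lit 0, nat_lit 0, nat_lit 0, nat_lit 0, nat_lit 0, nat_lit 0, nat_lit 0, nat_lit 0, nat_lit 0, nat_lit 0, nat_lit 0, nat_lit 0, nat_lit 0, false, false⟩,
 nat_lit 0, nat_lit 12905, nat_lit 0, nat_lit 0, nat_lit 8390, nat_lit 5334, nat_lit 2058, nat_lit 0, nat_lit 0, nat_lit 2486, nat_lit 0, nat_lit 0, nat_lit 0, nat_lit 28504188703943, nat_lit 0, nat_lit 0, nat_lit 0, nat_lit 0, [],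
 ⟨p016_k4, nat_lit 0, nat_lit 0, nat_lit 0, nat_lit 0, nat_lit 1364187, [nat_lit 3282000000, nat_lit 3965500000, nat_lit 5449500000, nat_lit 8885500000], [], [nat_lit 15320772024, nat_lit 15482233944, nat_lit 15450785465, nat_lit 14867138455], nat_lit 1271250, nat_lit 1271250, nat_lit 408851, nat_lit 780000, nat_lit 0, nat_lit 0, [nat_lit 780000, nat_lit 936250, nat_lit 1271250, nat_lit 1271250], [nat_lit 148, nat_lit 40, nat_lit 20, nat_lit 40]⟩, ⟨p016_k16, nat_lit 0, nat_lit 0, nat_lit 0, nat_lit 0, nat_lit 0, [nat_lit 3282000000, nat_lit 3965500000, nat_lit 5449500000, nat_lit 8885500000], [], [nat_lit 16105880433, nat_lit 16799827053, nat_lit 16148632600, nat_lit 16873346180], nat_lit 0, nat_lit 0, nat_lit 0, nat_lit 0, nat_lit 0, nat_lit 0, [], [nat_lit 148, nat_lit 40, nat_lit 20, nat_lit 40]⟩,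
 zbF0, [⟨nat_lit 0, nat_lit 100, nat_lit 100, nat_lit 88, nat_lit 649415623⟩]⟩
noncomputable def p016_l207 : Lf2 := ⟨nat_lit 0, nat_lit 10, [nat_lit 0, nat_lit 5, nat_lit 5, nat_lit 20], false, nat_lit 0, nat_lit 0, nat_lit 0, nat_lit 0, ⟨nat_lit 1000, nat_lit 0, nat_lit 0, nat_lit 0, nat_lit 0, nat_lit 0, nat_lit 0, nat_lit 0, nat_lit 0, nat_lit 0, nat_lit 0, nat_lit 0, nat_lit 0, nat_lit 0, nat_lit 0, nat_lit 0, false, false⟩,
 nat_lit 0, nat_lit 11031, nat_lit 0, nat_lit 0, nat_lit 7264, nat_lit 4101, nat_lit 1790, nat_lit 0, nat_lit 20, nat_lit 2039, nat_lit 0, nat_lit 0, nat_lit 0, nat_lit 21086859424344, nat_lit 0, nat_lit 0, nat_lit 0, nat_lit 0, [],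
 ⟨p016_k55, nat_lit 0, nat_lit 0, nat_lit 0, nat_lit 0, nat_lit 1376381, [nat_lit 2637500000, nat_lit 3965500000, nat_lit 7089500001, nat_lit 7968000000], [], [nat_lit 19321424804, nat_lit 19412749271, nat_lit 19797193512, nat_lit 19457860110], nat_lit 1271250, nat_lit 1271250, nat_lit 408851, nat_lit 780000, nat_lit 0, nat_lit 0, [nat_lit 631250, nat_lit 936250, nat_lit 1606250, nat_lit 1271250], [nat_lit 272, nat_lit 10, nat_lit 4, nat_lit 20]⟩, ⟨p016_k56, nat_lit 0, nat_lit 0, nat_lit 0, nat_lit 0, nat_lit 0, [nat_lit 2032000000, nat_lit 3282000000, nat_lit 4688000000, nat_lit 7968000000, nat_lit 8885500000], [], [nat_lit 16794364628, nat_lit 17581528836, nat_lit 16912758796, nat_lit 17616586296], nat_lit 0, nat_lit 0, nat_lit 0, nat_lit 0, nat_lit 0, nat_lit 0, [], [nat_lit 223, nat_lit 10, nat_lit 4, nat_lit 20]⟩,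
 zbF0, [⟨nat_lit 0, nat_lit 100, nat_lit 100, nat_lit 90, nat_lit 582518251⟩]⟩
noncomputable def p016_l208 : Lf2 := ⟨nat_lit 0, nat_lit 10, [nat_lit 0, nat_lit 5, nat_lit 5, nat_lit 20], false, nat_lit 0, nat_lit 0, nat_lit 0, nat_lit 0, ⟨nat_lit 1000, nat_lit 0, nat_lit 0, nat_lit 0, nat_lit 0, nat_lit 0, nat_lit 0, nat_lit 0, nat_lit 0, nat_lit 0, nat_lit 0, nat_lit 0, nat_lit 0, nat_lit 0, nat_lit 0, nat_lit 0, false, false⟩,
 nat_lit 0, nat_lit 7394, nat_lit 0, nat_lit 0, nat_lit 4705, nat_lit 7369, nat_lit 1022, nat_lit 0, nat_lit 168, nat_lit 1464, nat_lit 0, nat_lit 0, nat_lit 0, nat_lit 10081712845794, nat_lit 0, nat_lit 0, nat_lit 0, nat_lit 0, [],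
 ⟨p016_k57, nat_lit 0, nat_lit 0, nat_lit 0, nat_lit 0, nat_lit 1442883, [nat_lit 3282000000, nat_lit 4688000000, nat_lit 8885500000], [], [nat_lit 21825733640, nat_lit 20618764695, nat_lit 27952118680, nat_lit 28305487455], nat_lit 1271250, nat_lit 1271250, nat_lit 780000, nat_lit 3072500, nat_lit 0, nat_lit 0, [nat_lit 780000, nat_lit 1100000, nat_lit 1956250], [nat_lit 160, nat_lit 40, nat_lit 20, nat_lit 40]⟩, ⟨p016_k57, nat_lit 0, nat_lit 0, nat_lit 0, nat_lit 0, nat_lit 0, [nat_lit 3282000000, nat_lit 4688000000, nat_lit 8885500000], [], [nat_lit 19865135628, nat_lit 20721425038, nat_lit 39300755304, nat_lit 39948214469], nat_lit 0, nat_lit 0, nat_lit 0, nat_lit 0, nat_lit 0, nat_lit 0, [], [nat_lit 160, nat_lit 40, nat_lit 20, nat_lit 40]⟩,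
 zbF0, []⟩
noncomputable def p016_l209 : Lf2 := ⟨nat_lit 2, nat_lit 10, [nat_lit 0, nat_lit 5, nat_lit 5, nat_lit 20], true, nat_lit 0, nat_lit 0, nat_lit 0, nat_lit 0, zbN0,
 nat_lit 0, nat_lit 0, nat_lit 0, nat_lit 0, nat_lit 0, nat_lit 0, nat_lit 0, nat_lit 0, nat_lit 0, nat_lit 0, nat_lit 0, nat_lit 0, nat_lit 0, nat_lit 0, nat_lit 0, nat_lit 0, nat_lit 0, nat_lit 0, [],
 ⟨p016_k2, nat_lit 0, nat_lit 0, nat_lit 567, nat_lit 0, nat_lit 657482, [], [], [], nat_lit 1271250, nat_lit 1271250, nat_lit 382400, nat_lit 490000, nat_lit 0, nat_lit 0, [nat_lit 780000, nat_lit 1100000, nat_lit 2127500], [nat_lit 42, nat_lit 40, nat_lit 80, nat_lit 80, nat_lit 13, nat_lit 226, nat_lit 20, nat_lit 7]⟩, C1.Rw.none,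
 zbF0, []⟩
noncomputable def p016_l210 : Lf2 := ⟨nat_lit 2, nat_lit 10, [nat_lit 0, nat_lit 5, nat_lit 5, nat_lit 20], true, nat_lit 0, nat_lit 0, nat_lit 0, nat_lit 0, zbN0,
 nat_lit 0, nat_lit 0, nat_lit 0, nat_lit 0, nat_lit 0, nat_lit 0, nat_lit 0, nat_lit 0, nat_lit 0, nat_lit 0, nat_lit 0, nat_lit 0, nat_lit 0, nat_lit 0, nat_lit 0, nat_lit 0, nat_lit 0, nat_lit 0, [],
 ⟨p016_k2, nat_lit 0, nat_lit 0, nat_lit 537, nat_lit 0, nat_lit 657482, [], [], [], nat_lit 1271250, nat_lit 1271250, nat_lit 490000, nat_lit 631250, nat_lit 0, nat_lit 0, [nat_lit 780000, nat_lit 1100000, nat_lit 2127500], [nat_lit 42, nat_lit 40, nat_lit 80, nat_lit 80, nat_lit 13, nat_lit 232, nat_lit 25, nat_lit 7]⟩, C1.Rw.none,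
 zbF0, []⟩
noncomputable def p016_l211 : Lf2 := ⟨nat_lit 0, nat_lit 5, [nat_lit 4, nat_lit 5, nat_lit 5, nat_lit 20], false, nat_lit 0, nat_lit 0, nat_lit 0, nat_lit 0, ⟨nat_lit 1000, nat_lit 0, nat_lit 0, nat_lit 0, nat_lit 0, nat_lit 0, nat_lit 0, nat_lit 0, nat_lit 0, nat_lit 0, nat_lit 0, nat_lit 0, nat_lit 0, nat_lit 0, nat_lit 0, nat_lit 0, false, false⟩,
 nat_lit 0, nat_lit 13349, nat_lit 0, nat_lit 0, nat_lit 8494, nat_lit 4616, nat_lit 1346, nat_lit 0, nat_lit 0, nat_lit 0, nat_lit 0, nat_lit 0, nat_lit 0, nat_lit 0, nat_lit 0, nat_lit 0, nat_lit 0, nat_lit 0, [],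
 ⟨p016_k58, nat_lit 0, nat_lit 0, nat_lit 754, nat_lit 0, nat_lit 1300408, [nat_lit 3282000000, nat_lit 4688000000, nat_lit 7968000000], [], [nat_lit 22158687894, nat_lit 22346121361, nat_lit 22025472748, nat_lit 22232073453], nat_lit 1271250, nat_lit 1271250, nat_lit 631250, nat_lit 780000, nat_lit 0, nat_lit 0, [nat_lit 780000, nat_lit 1100000, nat_lit 1785000], [nat_lit 36, nat_lit 40, nat_lit 80, nat_lit 80, nat_lit 7, nat_lit 240, nat_lit 30, nat_lit 8]⟩, ⟨p016_k59, nat_lit 0, nat_lit 0, nat_lit 0, nat_lit 0, nat_lit 0, [nat_lit 3282000000, nat_lit 4688000000, nat_lit 7089500000], [], [nat_lit 13758717792, nat_lit 14287682908, nat_lit 13989851616, nat_lit 14504853216], nat_lit 0, nat_lit 0, nat_lit 0, nat_lit 0, nat_lit 0, nat_lit 0, [], [nat_lit 252, nat_lit 40, nat_lit 20, nat_lit 40]⟩,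
 zbF0, []⟩
noncomputable def p016_l212 : Lf2 := ⟨nat_lit 0, nat_lit 10, [nat_lit 0, nat_lit 5, nat_lit 5, nat_lit 20], false, nat_lit 0, nat_lit 0, nat_lit 0, nat_lit 0, ⟨nat_lit 1000, nat_lit 0, nat_lit 0, nat_lit 0, nat_lit 0, nat_lit 0, nat_lit 0, nat_lit 0, nat_lit 0, nat_lit 0, nat_lit 0, nat_lit 0, nat_lit 0, nat_lit 0, nat_lit 0, nat_lit 0, false, false⟩,
 nat_lit 0, nat_lit 15350, nat_lit 0, nat_lit 0, nat_lit 9768, nat_lit 6562, nat_lit 2029, nat_lit 79, nat_lit 0, nat_lit 2448, nat_lit 0, nat_lit 0, nat_lit 0, nat_lit 0, nat_lit 0, nat_lit 0, nat_lit 0, nat_lit 0, [],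
 ⟨p016_k2, nat_lit 0, nat_lit 0, nat_lit 703, nat_lit 0, nat_lit 1000155, [nat_lit 4230000000, nat_lit 5952000001, nat_lit 12054000000], [], [nat_lit 20934538961, nat_lit 21204546004, nat_lit 20810742005, nat_lit 21143862099], nat_lit 1271250, nat_lit 1271250, nat_lit 631250, nat_lit 780000, nat_lit 0, nat_lit 0, [nat_lit 780000, nat_lit 1100000, nat_lit 2127500], [nat_lit 42, nat_lit 40, nat_lit 80, nat_lit 80, nat_lit 13, nat_lit 238, nat_lit 30, nat_lit 7]⟩, ⟨p016_k57, nat_lit 0, nat_lit 0, nat_lit 0, nat_lit 0, nat_lit 0, [nat_lit 3282000000, nat_lit 4688000000, nat_lit 8885500000], [], [nat_lit 15653515528, nat_lit 16145272416, nat_lit 15625367352, nat_lit 16227261050], nat_lit 0, nat_lit 0, nat_lit 0, nat_lit 0, nat_lit 0, nat_lit 0, [], [nat_lit 160, nat_lit 40, nat_lit 20, nat_lit 40]⟩,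
 zbF0, []⟩
noncomputable def p016_l213 : Lf2 := ⟨nat_lit 0, nat_lit 10, [nat_lit 0, nat_lit 5, nat_lit 5, nat_lit 20], false, nat_lit 0, nat_lit 0, nat_lit 0, nat_lit 0, ⟨nat_lit 1000, nat_lit 0, nat_lit 0, nat_lit 0, nat_lit 0, nat_lit 0, nat_lit 0, nat_lit 0, nat_lit 0, nat_lit 0, nat_lit 0, nat_lit 0, nat_lit 0, nat_lit 0, nat_lit 0, nat_lit 0, false, false⟩,
 nat_lit 0, nat_lit 13018, nat_lit 0, nat_lit 0, nat_lit 8284, nat_lit 6483, nat_lit 1442, nat_lit 0, nat_lit 0, nat_lit 3133, nat_lit 0, nat_lit 0, nat_lit 0, nat_lit 0, nat_lit 0, nat_lit 0, nat_lit 0, nat_lit 0, [],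
 ⟨p016_k2, nat_lit 0, nat_lit 0, nat_lit 831, nat_lit 0, nat_lit 1311994, [nat_lit 3282000000, nat_lit 4688000000, nat_lit 9842000000], [], [nat_lit 23223275450, nat_lit 23317308910, nat_lit 29461773184, nat_lit 29549402997], nat_lit 1271250, nat_lit 1271250, nat_lit 780000, nat_lit 3072500, nat_lit 0, nat_lit 0, [nat_lit 780000, nat_lit 1100000, nat_lit 2127500], [nat_lit 42, nat_lit 40, nat_lit 80, nat_lit 80, nat_lit 13, nat_lit 317, nat_lit 100, nat_lit 9]⟩, ⟨p016_k57, nat_lit 0, nat_lit 0, nat_lit 0, nat_lit 0, nat_lit 0, [nat_lit 3282000000, nat_lit 4688000000, nat_lit 8885500000], [], [nat_lit 15736119984, nat_lit 16017526217, nat_lit 36982433528, nat_lit 37164634525], nat_lit 0, nat_lit 0, nat_lit 0, nat_lit 0, nat_lit 0, nat_lit 0, [], [nat_lit 160, nat_lit 40, nat_lit 20, nat_lit 40]⟩,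
 zbF0, []⟩
noncomputable def p016_l214 : Lf2 := ⟨nat_lit 0, nat_lit 10, [nat_lit 0, nat_lit 5, nat_lit 5, nat_lit 20], false, nat_lit 0, nat_lit 0, nat_lit 0, nat_lit 0, ⟨nat_lit 1000, nat_lit 0, nat_lit 0, nat_lit 0, nat_lit 0, nat_lit 0, nat_lit 0, nat_lit 0, nat_lit 0, nat_lit 0, nat_lit 0, nat_lit 0, nat_lit 0, nat_lit 0, nat_lit 0, nat_lit 0, false, false⟩,
 nat_lit 0, nat_lit 12162, nat_lit 0, nat_lit 0, nat_lit 7840, nat_lit 6662, nat_lit 1744, nat_lit 0, nat_lit 0, nat_lit 2504, nat_lit 0, nat_lit 0, nat_lit 0, nat_lit 0, nat_lit 0, nat_lit 0, nat_lit 0, nat_lit 0, [],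
 ⟨p016_k30, nat_lit 0, nat_lit 0, nat_lit 841, nat_lit 0, nat_lit 1325100, [nat_lit 3282000000, nat_lit 4688000000, nat_lit 9842000000], [], [nat_lit 24216370600, nat_lit 24286583480, nat_lit 29848886368, nat_lit 29906474720], nat_lit 1271250, nat_lit 1271250, nat_lit 780000, nat_lit 3072500, nat_lit 0, nat_lit 0, [nat_lit 780000, nat_lit 1100000, nat_lit 2127500], [nat_lit 42, nat_lit 40, nat_lit 80, nat_lit 80, nat_lit 13, nat_lit 317, nat_lit 100, nat_lit 9]⟩, ⟨p016_k16, nat_lit 0, nat_lit 0, nat_lit 0, nat_lit 0, nat_lit 0, [nat_lit 3282000000, nat_lit 3965500000, nat_lit 5449500000, nat_lit 8885500000], [], [nat_lit 15687286224, nat_lit 16132171453, nat_lit 37450807792, nat_lit 37758529127], nat_lit 0, nat_lit 0, nat_lit 0, nat_lit 0, nat_lit 0, nat_lit 0, [], [nat_lit 148, nat_lit 40, nat_lit 20, nat_lit 40]⟩,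
 zbF0, []⟩
noncomputable def p016_l215 : Lf2 := ⟨nat_lit 2, nat_lit 10, [nat_lit 0, nat_lit 5, nat_lit 5, nat_lit 20], true, nat_lit 0, nat_lit 0, nat_lit 0, nat_lit 0, zbN0,
 nat_lit 0, nat_lit 0, nat_lit 0, nat_lit 0, nat_lit 0, nat_lit 0, nat_lit 0, nat_lit 0, nat_lit 0, nat_lit 0, nat_lit 0, nat_lit 0, nat_lit 0, nat_lit 0, nat_lit 0, nat_lit 0, nat_lit 0, nat_lit 0, [],
 ⟨p016_k26, nat_lit 0, nat_lit 0, nat_lit 572, nat_lit 0, nat_lit 680795, [], [], [], nat_lit 1271250, nat_lit 1271250, nat_lit 408851, nat_lit 631250, nat_lit 0, nat_lit 0, [nat_lit 780000, nat_lit 1100000, nat_lit 2127500], [nat_lit 42, nat_lit 40, nat_lit 80, nat_lit 80, nat_lit 13, nat_lit 232, nat_lit 25, nat_lit 7]⟩, C1.Rw.none,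
 zbF0, []⟩
noncomputable def p016_l216 : Lf2 := ⟨nat_lit 0, nat_lit 10, [nat_lit 0, nat_lit 5, nat_lit 5, nat_lit 20], false, nat_lit 0, nat_lit 0, nat_lit 0, nat_lit 0, ⟨nat_lit 1000, nat_lit 0, nat_lit 0, nat_lit 0, nat_lit 0, nat_lit 0, nat_lit 0, nat_lit 0, nat_lit 0, nat_lit 0, nat_lit 0, nat_lit 0, nat_lit 0, nat_lit 0, nat_lit 0, nat_lit 0, false, false⟩,
 nat_lit 0, nat_lit 14689, nat_lit 0, nat_lit 0, nat_lit 9550, nat_lit 6508, nat_lit 2798, nat_lit 0, nat_lit 0, nat_lit 2424, nat_lit 0, nat_lit 0, nat_lit 0, nat_lit 0, nat_lit 0, nat_lit 0, nat_lit 0, nat_lit 0, [],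
 ⟨p016_k26, nat_lit 0, nat_lit 0, nat_lit 863, nat_lit 0, nat_lit 1364187, [nat_lit 3282000000, nat_lit 4688000000, nat_lit 9842000000], [], [nat_lit 12502867057, nat_lit 12640958441, nat_lit 12354528588, nat_lit 12540260270], nat_lit 1271250, nat_lit 1271250, nat_lit 631250, nat_lit 780000, nat_lit 0, nat_lit 0, [nat_lit 780000, nat_lit 1100000, nat_lit 2127500], [nat_lit 42, nat_lit 40, nat_lit 80, nat_lit 80, nat_lit 13, nat_lit 267, nat_lit 30, nat_lit 8]⟩, ⟨p016_k57, nat_lit 0, nat_lit 0, nat_lit 0, nat_lit 0, nat_lit 0, [nat_lit 3282000000, nat_lit 4688000000, nat_lit 8885500000], [], [nat_lit 15748759552, nat_lit 16530417120, nat_lit 15701363728, nat_lit 16605549700], nat_lit 0, nat_lit 0, nat_lit 0, nat_lit 0, nat_lit 0, nat_lit 0, [], [nat_lit 160, nat_lit 40, nat_lit 20, nat_lit 40]⟩,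
 zbF0, []⟩
noncomputable def p016_l217 : Lf2 := ⟨nat_lit 0, nat_lit 10, [nat_lit 0, nat_lit 5, nat_lit 5, nat_lit 20], false, nat_lit 0, nat_lit 0, nat_lit 0, nat_lit 0, ⟨nat_lit 1000, nat_lit 0, nat_lit 0, nat_lit 0, nat_lit 0, nat_lit 0, nat_lit 0, nat_lit 0, nat_lit 0, nat_lit 0, nat_lit 0, nat_lit 0, nat_lit 0, nat_lit 0, nat_lit 0, nat_lit 0, false, false⟩,
 nat_lit 0, nat_lit 14049, nat_lit 0, nat_lit 0, nat_lit 9251, nat_lit 5896, nat_lit 2378, nat_lit 0, nat_lit 0, nat_lit 2596, nat_lit 0, nat_lit 0, nat_lit 0, nat_lit 57874915492347, nat_lit 0, nat_lit 0, nat_lit 0, nat_lit 0, [],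
 ⟨p016_k39, nat_lit 0, nat_lit 0, nat_lit 782, nat_lit 0, nat_lit 1376381, [nat_lit 3282000000, nat_lit 4688000000, nat_lit 7968000000], [], [nat_lit 12544978945, nat_lit 12657878572, nat_lit 12474675301, nat_lit 12610095125], nat_lit 1271250, nat_lit 1271250, nat_lit 631250, nat_lit 780000, nat_lit 0, nat_lit 0, [nat_lit 780000, nat_lit 1100000, nat_lit 1785000], [nat_lit 36, nat_lit 40, nat_lit 80, nat_lit 80, nat_lit 7, nat_lit 247, nat_lit 30, nat_lit 8]⟩, ⟨p016_k16, nat_lit 0, nat_lit 0, nat_lit 0, nat_lit 0, nat_lit 0, [nat_lit 3282000000, nat_lit 3965500000, nat_lit 5449500000, nat_lit 8885500000], [], [nat_lit 15274866824, nat_lit 16192145736, nat_lit 15311610400, nat_lit 16285874496], nat_lit 0, nat_lit 0, nat_lit 0, nat_lit 0, nat_lit 0, nat_lit 0, [], [nat_lit 148, nat_lit 40, nat_lit 20, nat_lit 40]⟩,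
 zbF0, []⟩
noncomputable def p016_l218 : Lf2 := ⟨nat_lit 0, nat_lit 10, [nat_lit 0, nat_lit 5, nat_lit 5, nat_lit 20], false, nat_lit 0, nat_lit 0, nat_lit 0, nat_lit 0, ⟨nat_lit 1000, nat_lit 0, nat_lit 0, nat_lit 0, nat_lit 0, nat_lit 0, nat_lit 0, nat_lit 0, nat_lit 0, nat_lit 0, nat_lit 0, nat_lit 0, nat_lit 0, nat_lit 0, nat_lit 0, nat_lit 0, false, false⟩,
 nat_lit 0, nat_lit 13039, nat_lit 0, nat_lit 0, nat_lit 8477, nat_lit 6228, nat_lit 2394, nat_lit 0, nat_lit 0, nat_lit 2221, nat_lit 0, nat_lit 0, nat_lit 0, nat_lit 53496458096512, nat_lit 0, nat_lit 0, nat_lit 0, nat_lit 0, [],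
 ⟨p016_k26, nat_lit 0, nat_lit 0, nat_lit 868, nat_lit 0, nat_lit 1400729, [nat_lit 3282000000, nat_lit 4688000000, nat_lit 9842000000], [], [nat_lit 18445617759, nat_lit 18600974461, nat_lit 26175038116, nat_lit 26321991430], nat_lit 1271250, nat_lit 1271250, nat_lit 780000, nat_lit 3072500, nat_lit 0, nat_lit 0, [nat_lit 780000, nat_lit 1100000, nat_lit 2127500], [nat_lit 42, nat_lit 40, nat_lit 80, nat_lit 80, nat_lit 13, nat_lit 317, nat_lit 100, nat_lit 9]⟩, ⟨p016_k16, nat_lit 0, nat_lit 0, nat_lit 0, nat_lit 0, nat_lit 0, [nat_lit 3282000000, nat_lit 3965500000, nat_lit 5449500000, nat_lit 8885500000], [], [nat_lit 16864994056, nat_lit 17718155420, nat_lit 36315196448, nat_lit 36910985428], nat_lit 0, nat_lit 0, nat_lit 0, nat_lit 0, nat_lit 0, nat_lit 0, [], [nat_lit 148, nat_lit 40, nat_lit 20, nat_lit 40]⟩,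
 zbF0, []⟩
noncomputable def p016_l219 : Lf2 := ⟨nat_lit 0, nat_lit 10, [nat_lit 0, nat_lit 5, nat_lit 5, nat_lit 20], false, nat_lit 0, nat_lit 0, nat_lit 0, nat_lit 0, ⟨nat_lit 1000, nat_lit 0, nat_lit 0, nat_lit 0, nat_lit 0, nat_lit 0, nat_lit 0, nat_lit 0, nat_lit 0, nat_lit 0, nat_lit 0, nat_lit 0, nat_lit 0, nat_lit 0, nat_lit 0, nat_lit 0, false, false⟩,
 nat_lit 0, nat_lit 8882, nat_lit 0, nat_lit 0, nat_lit 5651, nat_lit 100000, nat_lit 1183, nat_lit 0, nat_lit 0, nat_lit 17992, nat_lit 7660, nat_lit 0, nat_lit 0, nat_lit 0, nat_lit 0, nat_lit 0, nat_lit 0, nat_lit 0, [],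
 ⟨p016_k2, nat_lit 0, nat_lit 0, nat_lit 909, nat_lit 0, nat_lit 1442883, [nat_lit 3282000000, nat_lit 4688000000, nat_lit 9842000000], [], [nat_lit 42558874241, nat_lit 42776952036, nat_lit 46675427679, nat_lit 45462535802], nat_lit 1271250, nat_lit 1271250, nat_lit 382400, nat_lit 2957000, nat_lit 0, nat_lit 0, [nat_lit 780000, nat_lit 1100000, nat_lit 2127500], [nat_lit 42, nat_lit 40, nat_lit 80, nat_lit 80, nat_lit 13, nat_lit 317, nat_lit 100, nat_lit 9]⟩, ⟨p016_k2, nat_lit 0, nat_lit 0, nat_lit 0, nat_lit 0, nat_lit 0, [nat_lit 95202000000, nat_lit 127248000000, nat_lit 224322000000], [], [nat_lit 229125501801, nat_lit 235667230600, nat_lit 264683881000, nat_lit 266565791000], nat_lit 0, nat_lit 0, nat_lit 0, nat_lit 0, nat_lit 0, nat_lit 0, [], [nat_lit 42, nat_lit 40, nat_lit 80, nat_lit 80]⟩,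
 zbF0, []⟩
noncomputable def p016_l220 : Lf2 := ⟨nat_lit 0, nat_lit 10, [nat_lit 0, nat_lit 5, nat_lit 5, nat_lit 20], false, nat_lit 0, nat_lit 0, nat_lit 0, nat_lit 0, ⟨nat_lit 1000, nat_lit 0, nat_lit 0, nat_lit 0, nat_lit 0, nat_lit 0, nat_lit 0, nat_lit 0, nat_lit 0, nat_lit 0, nat_lit 0, nat_lit 0, nat_lit 0, nat_lit 0, nat_lit 0, nat_lit 0, false, false⟩,
 nat_lit 0, nat_lit 12715, nat_lit 0, nat_lit 0, nat_lit 8444, nat_lit 4245, nat_lit 2316, nat_lit 0, nat_lit 0, nat_lit 2099, nat_lit 0, nat_lit 0, nat_lit 0, nat_lit 0, nat_lit 0, nat_lit 0, nat_lit 0, nat_lit 0, [],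
 ⟨p016_k27, nat_lit 0, nat_lit 0, nat_lit 800, nat_lit 0, nat_lit 1390848, [nat_lit 3282000000, nat_lit 4688000000, nat_lit 7968000000], [], [nat_lit 16869007426, nat_lit 16206883392, nat_lit 15312346454, nat_lit 15567251944], nat_lit 1271250, nat_lit 1271250, nat_lit 435600, nat_lit 780000, nat_lit 0, nat_lit 0, [nat_lit 780000, nat_lit 1100000, nat_lit 1785000], [nat_lit 36, nat_lit 40, nat_lit 80, nat_lit 80, nat_lit 7, nat_lit 253, nat_lit 30, nat_lit 8]⟩, ⟨p016_k56, nat_lit 0, nat_lit 0, nat_lit 0, nat_lit 0, nat_lit 0, [nat_lit 2032000000, nat_lit 3282000000, nat_lit 4688000000, nat_lit 7968000000, nat_lit 8885500000], [], [nat_lit 16571419100, nat_lit 16970829090, nat_lit 16655579640, nat_lit 17034635970], nat_lit 0, nat_lit 0, nat_lit 0, nat_lit 0, nat_lit 0, nat_lit 0, [], [nat_lit 223, nat_lit 10, nat_lit 4, nat_lit 20]⟩,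
 zbF0, [⟨nat_lit 0, nat_lit 100, nat_lit 97, nat_lit 87, nat_lit 667803935⟩]⟩
noncomputable def p016_l221 : Lf2 := ⟨nat_lit 0, nat_lit 10, [nat_lit 0, nat_lit 5, nat_lit 5, nat_lit 20], false, nat_lit 0, nat_lit 0, nat_lit 0, nat_lit 0, ⟨nat_lit 1000, nat_lit 0, nat_lit 0, nat_lit 0, nat_lit 0, nat_lit 0, nat_lit 0, nat_lit 0, nat_lit 0, nat_lit 0, nat_lit 0, nat_lit 0, nat_lit 0, nat_lit 0, nat_lit 0, nat_lit 0, false, false⟩,
 nat_lit 0, nat_lit 12972, nat_lit 0, nat_lit 0, nat_lit 8614, nat_lit 5866, nat_lit 2298, nat_lit 0, nat_lit 0, nat_lit 2259, nat_lit 0, nat_lit 0, nat_lit 0, nat_lit 0, nat_lit 0, nat_lit 0, nat_lit 0, nat_lit 0, [],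
 ⟨p016_k27, nat_lit 0, nat_lit 0, nat_lit 834, nat_lit 0, nat_lit 1439539, [nat_lit 3282000000, nat_lit 4688000000, nat_lit 7968000000], [], [nat_lit 15727044486, nat_lit 15186429681, nat_lit 14999460299, nat_lit 14716240922], nat_lit 1271250, nat_lit 1271250, nat_lit 462650, nat_lit 780000, nat_lit 0, nat_lit 0, [nat_lit 780000, nat_lit 1100000, nat_lit 1785000], [nat_lit 36, nat_lit 40, nat_lit 80, nat_lit 80, nat_lit 7, nat_lit 261, nat_lit 30, nat_lit 9]⟩, ⟨p016_k4, nat_lit 0, nat_lit 0, nat_lit 0, nat_lit 0, nat_lit 0, [nat_lit 3282000000, nat_lit 3965500000, nat_lit 5449500000, nat_lit 8885500000], [], [nat_lit 16234857857, nat_lit 16706532030, nat_lit 15890587954, nat_lit 16337375376], nat_lit 0, nat_lit 0, nat_lit 0, nat_lit 0, nat_lit 0, nat_lit 0, [], [nat_lit 148, nat_lit 40, nat_lit 20, nat_lit 40]⟩,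
 zbF0, [⟨nat_lit 0, nat_lit 100, nat_lit 97, nat_lit 94, nat_lit 697637958⟩]⟩
noncomputable def p016_l222 : Lf2 := ⟨nat_lit 0, nat_lit 10, [nat_lit 0, nat_lit 5, nat_lit 5, nat_lit 20], false, nat_lit 0, nat_lit 0, nat_lit 0, nat_lit 0, ⟨nat_lit 1000, nat_lit 0, nat_lit 0, nat_lit 0, nat_lit 0, nat_lit 0, nat_lit 0, nat_lit 0, nat_lit 0, nat_lit 0, nat_lit 0, nat_lit 0, nat_lit 0, nat_lit 0, nat_lit 0, nat_lit 0, false, false⟩,
 nat_lit 0, nat_lit 11108, nat_lit 0, nat_lit 0, nat_lit 7377, nat_lit 6766, nat_lit 1669, nat_lit 0, nat_lit 0, nat_lit 2178, nat_lit 0, nat_lit 0, nat_lit 0, nat_lit 0, nat_lit 0, nat_lit 0, nat_lit 0, nat_lit 0, [],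
 ⟨p016_k27, nat_lit 0, nat_lit 0, nat_lit 778, nat_lit 0, nat_lit 1383884, [nat_lit 3282000000, nat_lit 4688000000, nat_lit 7968000000], [], [nat_lit 24385380448, nat_lit 23933359358, nat_lit 30622323202, nat_lit 30746173443], nat_lit 1271250, nat_lit 1271250, nat_lit 780000, nat_lit 3072500, nat_lit 0, nat_lit 0, [nat_lit 780000, nat_lit 1100000, nat_lit 1785000], [nat_lit 36, nat_lit 40, nat_lit 80, nat_lit 80, nat_lit 7, nat_lit 317, nat_lit 100, nat_lit 10]⟩, ⟨p016_k57, nat_lit 0, nat_lit 0, nat_lit 0, nat_lit 0, nat_lit 0, [nat_lit 3282000000, nat_lit 4688000000, nat_lit 8885500000], [], [nat_lit 17525409492, nat_lit 18338349232, nat_lit 37722935856, nat_lit 38343088166], nat_lit 0, nat_lit 0, nat_lit 0, nat_lit 0, nat_lit 0, nat_lit 0, [], [nat_lit 160, nat_lit 40, nat_lit 20, nat_lit 40]⟩,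
 zbF0, []⟩
noncomputable def p016_l223 : Lf2 := ⟨nat_lit 0, nat_lit 10, [nat_lit 0, nat_lit 5, nat_lit 5, nat_lit 20], false, nat_lit 0, nat_lit 0, nat_lit 0, nat_lit 0, ⟨nat_lit 1000, nat_lit 0, nat_lit 0, nat_lit 0, nat_lit 0, nat_lit 0, nat_lit 0, nat_lit 0, nat_lit 0, nat_lit 0, nat_lit 0, nat_lit 0, nat_lit 0, nat_lit 0, nat_lit 0, nat_lit 0, false, false⟩,
 nat_lit 0, nat_lit 10729, nat_lit 0, nat_lit 0, nat_lit 7215, nat_lit 6698, nat_lit 1526, nat_lit 0, nat_lit 0, nat_lit 2160, nat_lit 0, nat_lit 0, nat_lit 0, nat_lit 0, nat_lit 0, nat_lit 0, nat_lit 0, nat_lit 0, [],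
 ⟨p016_k32, nat_lit 0, nat_lit 0, nat_lit 774, nat_lit 0, nat_lit 1375633, [nat_lit 3282000000, nat_lit 4688000000, nat_lit 7968000000], [], [nat_lit 23821151573, nat_lit 23539258909, nat_lit 30523248363, nat_lit 30605094128], nat_lit 1271250, nat_lit 1271250, nat_lit 780000, nat_lit 3072500, nat_lit 0, nat_lit 0, [nat_lit 780000, nat_lit 1100000, nat_lit 1785000], [nat_lit 36, nat_lit 40, nat_lit 80, nat_lit 80, nat_lit 7, nat_lit 317, nat_lit 100, nat_lit 10]⟩, ⟨p016_k57, nat_lit 0, nat_lit 0, nat_lit 0, nat_lit 0, nat_lit 0, [nat_lit 3282000000, nat_lit 4688000000, nat_lit 8885500000], [], [nat_lit 17671022776, nat_lit 18479107896, nat_lit 37545005968, nat_lit 38162078898], nat_lit 0, nat_lit 0, nat_lit 0, nat_lit 0, nat_lit 0, nat_lit 0, [], [nat_lit 160, nat_lit 40, nat_lit 20, nat_lit 40]⟩,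
 zbF0, []⟩
noncomputable def p016_l224 : Lf2 := ⟨nat_lit 0, nat_lit 10, [nat_lit 0, nat_lit 5, nat_lit 5, nat_lit 20], false, nat_lit 0, nat_lit 0, nat_lit 0, nat_lit 0, ⟨nat_lit 1000, nat_lit 0, nat_lit 0, nat_lit 0, nat_lit 0, nat_lit 0, nat_lit 0, nat_lit 0, nat_lit 0, nat_lit 0, nat_lit 0, nat_lit 0, nat_lit 0, nat_lit 0, nat_lit 0, nat_lit 0, false, false⟩,
 nat_lit 0, nat_lit 10676, nat_lit 0, nat_lit 0, nat_lit 7240, nat_lit 6521, nat_lit 1544, nat_lit 0, nat_lit 0, nat_lit 2113, nat_lit 0, nat_lit 0, nat_lit 0, nat_lit 0, nat_lit 0, nat_lit 0, nat_lit 0, nat_lit 0, [],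
 ⟨p016_k28, nat_lit 0, nat_lit 0, nat_lit 783, nat_lit 0, nat_lit 1398931, [nat_lit 3282000000, nat_lit 4688000000, nat_lit 7968000000], [], [nat_lit 23256896190, nat_lit 22523471360, nat_lit 30063124840, nat_lit 30271276960], nat_lit 1271250, nat_lit 1271250, nat_lit 780000, nat_lit 3072500, nat_lit 0, nat_lit 0, [nat_lit 780000, nat_lit 1100000, nat_lit 1785000], [nat_lit 36, nat_lit 40, nat_lit 80, nat_lit 80, nat_lit 7, nat_lit 317, nat_lit 100, nat_lit 10]⟩, ⟨p016_k57, nat_lit 0, nat_lit 0, nat_lit 0, nat_lit 0, nat_lit 0, [nat_lit 3282000000, nat_lit 4688000000, nat_lit 8885500000], [], [nat_lit 18050656802, nat_lit 18847754292, nat_lit 37081864936, nat_lit 37690922421], nat_lit 0, nat_lit 0, nat_lit 0, nat_lit 0, nat_lit 0, nat_lit 0, [], [nat_lit 160, nat_lit 40, nat_lit 20, nat_lit 40]⟩,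
 zbF0, []⟩
noncomputable def p016_l225 : Lf2 := ⟨nat_lit 0, nat_lit 10, [nat_lit 0, nat_lit 5, nat_lit 5, nat_lit 20], false, nat_lit 0, nat_lit 0, nat_lit 0, nat_lit 0, ⟨nat_lit 1000, nat_lit 0, nat_lit 0, nat_lit 0, nat_lit 0, nat_lit 0, nat_lit 0, nat_lit 0, nat_lit 0, nat_lit 0, nat_lit 0, nat_lit 0, nat_lit 0, nat_lit 0, nat_lit 0, nat_lit 0, false, false⟩,
 nat_lit 0, nat_lit 13048, nat_lit 0, nat_lit 0, nat_lit 8665, nat_lit 5654, nat_lit 2492, nat_lit 0, nat_lit 0, nat_lit 2137, nat_lit 0, nat_lit 0, nat_lit 0, nat_lit 34590103758622, nat_lit 0, nat_lit 0, nat_lit 0, nat_lit 0, [],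
 ⟨p016_k27, nat_lit 0, nat_lit 0, nat_lit 838, nat_lit 0, nat_lit 1450387, [nat_lit 3282000000, nat_lit 4688000000, nat_lit 7968000000], [], [nat_lit 14470584650, nat_lit 13840240000, nat_lit 13966545078, nat_lit 13848387503], nat_lit 1271250, nat_lit 1271250, nat_lit 490000, nat_lit 780000, nat_lit 0, nat_lit 0, [nat_lit 780000, nat_lit 1100000, nat_lit 1785000], [nat_lit 36, nat_lit 40, nat_lit 80, nat_lit 80, nat_lit 7, nat_lit 262, nat_lit 30, nat_lit 9]⟩, ⟨p016_k27, nat_lit 0, nat_lit 0, nat_lit 0, nat_lit 0, nat_lit 0, [nat_lit 3282000000, nat_lit 4688000000, nat_lit 7968000000], [], [nat_lit 16492963771, nat_lit 16977785996, nat_lit 16727799417, nat_lit 17186141590], nat_lit 0, nat_lit 0, nat_lit 0, nat_lit 0, nat_lit 0, nat_lit 0, [], [nat_lit 36, nat_lit 40, nat_lit 80, nat_lit 80]⟩,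
 zbF0, [⟨nat_lit 0, nat_lit 100, nat_lit 100, nat_lit 95, nat_lit 552553349⟩]⟩
noncomputable def p016_l226 : Lf2 := ⟨nat_lit 0, nat_lit 10, [nat_lit 0, nat_lit 5, nat_lit 5, nat_lit 20], false, nat_lit 0, nat_lit 0, nat_lit 0, nat_lit 0, ⟨nat_lit 1000, nat_lit 0, nat_lit 0, nat_lit 0, nat_lit 0, nat_lit 0, nat_lit 0, nat_lit 0, nat_lit 0, nat_lit 0, nat_lit 0, nat_lit 0, nat_lit 0, nat_lit 0, nat_lit 0, nat_lit 0, false, false⟩,
 nat_lit 0, nat_lit 12471, nat_lit 0, nat_lit 0, nat_lit 8457, nat_lit 5446, nat_lit 2176, nat_lit 0, nat_lit 0, nat_lit 2243, nat_lit 0, nat_lit 0, nat_lit 0, nat_lit 32917633705866, nat_lit 0, nat_lit 0, nat_lit 0, nat_lit 0, [],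
 ⟨p016_k28, nat_lit 0, nat_lit 0, nat_lit 855, nat_lit 0, nat_lit 1497936, [nat_lit 3282000000, nat_lit 4688000000, nat_lit 7968000000], [], [nat_lit 13494323560, nat_lit 13712844129, nat_lit 13455347057, nat_lit 13632935216], nat_lit 1271250, nat_lit 1271250, nat_lit 517650, nat_lit 780000, nat_lit 0, nat_lit 0, [nat_lit 780000, nat_lit 1100000, nat_lit 1785000], [nat_lit 36, nat_lit 40, nat_lit 80, nat_lit 80, nat_lit 7, nat_lit 267, nat_lit 30, nat_lit 9]⟩, ⟨p016_k27, nat_lit 0, nat_lit 0, nat_lit 0, nat_lit 0, nat_lit 0, [nat_lit 3282000000, nat_lit 4688000000, nat_lit 7968000000], [], [nat_lit 16395745972, nat_lit 17394739927, nat_lit 16898700229, nat_lit 17846944091], nat_lit 0, nat_lit 0, nat_lit 0, nat_lit 0, nat_lit 0, nat_lit 0, [], [nat_lit 36, nat_lit 40, nat_lit 80, nat_lit 80]⟩,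
 zbF0, [⟨nat_lit 0, nat_lit 100, nat_lit 100, nat_lit 100, nat_lit 518228234⟩]⟩
noncomputable def p016_l227 : Lf2 := ⟨nat_lit 0, nat_lit 10, [nat_lit 0, nat_lit 5, nat_lit 5, nat_lit 20], false, nat_lit 0, nat_lit 0, nat_lit 0, nat_lit 0, ⟨nat_lit 1000, nat_lit 0, nat_lit 0, nat_lit 0, nat_lit 0, nat_lit 0, nat_lit 0, nat_lit 0, nat_lit 0, nat_lit 0, nat_lit 0, nat_lit 0, nat_lit 0, nat_lit 0, nat_lit 0, nat_lit 0, false, false⟩,
 nat_lit 0, nat_lit 11163, nat_lit 0, nat_lit 0, nat_lit 7413, nat_lit 6358, nat_lit 1943, nat_lit 0, nat_lit 0, nat_lit 1966, nat_lit 0, nat_lit 0, nat_lit 0, nat_lit 45403520965249, nat_lit 0, nat_lit 0, nat_lit 0, nat_lit 0, [],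
 ⟨p016_k27, nat_lit 0, nat_lit 0, nat_lit 805, nat_lit 0, nat_lit 1450387, [nat_lit 3282000000, nat_lit 4688000000, nat_lit 7968000000], [], [nat_lit 24226420628, nat_lit 23278640657, nat_lit 30188842588, nat_lit 30395660246], nat_lit 1271250, nat_lit 1271250, nat_lit 780000, nat_lit 3072500, nat_lit 0, nat_lit 0, [nat_lit 780000, nat_lit 1100000, nat_lit 1785000], [nat_lit 36, nat_lit 40, nat_lit 80, nat_lit 80, nat_lit 7, nat_lit 317, nat_lit 100, nat_lit 10]⟩, ⟨p016_k27, nat_lit 0, nat_lit 0, nat_lit 0, nat_lit 0, nat_lit 0, [nat_lit 3282000000, nat_lit 4688000000, nat_lit 7968000000], [], [nat_lit 17700761537, nat_lit 18086562830, nat_lit 37257032558, nat_lit 37557870573], nat_lit 0, nat_lit 0, nat_lit 0, nat_lit 0, nat_lit 0, nat_lit 0, [], [nat_lit 36, nat_lit 40, nat_lit 80, nat_lit 80]⟩,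
 zbF0, []⟩
noncomputable def p016_l228 : Lf2 := ⟨nat_lit 0, nat_lit 10, [nat_lit 0, nat_lit 5, nat_lit 5, nat_lit 20], false, nat_lit 0, nat_lit 0, nat_lit 0, nat_lit 0, ⟨nat_lit 1000, nat_lit 0, nat_lit 0, nat_lit 0, nat_lit 0, nat_lit 0, nat_lit 0, nat_lit 0, nat_lit 0, nat_lit 0, nat_lit 0, nat_lit 0, nat_lit 0, nat_lit 0, nat_lit 0, nat_lit 0, false, false⟩,
 nat_lit 0, nat_lit 10565, nat_lit 0, nat_lit 0, nat_lit 7164, nat_lit 6280, nat_lit 1754, nat_lit 0, nat_lit 0, nat_lit 1936, nat_lit 0, nat_lit 0, nat_lit 0, nat_lit 41688390884392, nat_lit 0, nat_lit 0, nat_lit 0, nat_lit 0, [],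
 ⟨p016_k28, nat_lit 0, nat_lit 0, nat_lit 841, nat_lit 0, nat_lit 1497936, [nat_lit 3282000000, nat_lit 4688000000, nat_lit 7968000000], [], [nat_lit 23179649809, nat_lit 22846919432, nat_lit 29938566334, nat_lit 30170863504], nat_lit 1271250, nat_lit 1271250, nat_lit 780000, nat_lit 3072500, nat_lit 0, nat_lit 0, [nat_lit 780000, nat_lit 1100000, nat_lit 1785000], [nat_lit 36, nat_lit 40, nat_lit 80, nat_lit 80, nat_lit 7, nat_lit 317, nat_lit 100, nat_lit 10]⟩, ⟨p016_k27, nat_lit 0, nat_lit 0, nat_lit 0, nat_lit 0, nat_lit 0, [nat_lit 3282000000, nat_lit 4688000000, nat_lit 7968000000], [], [nat_lit 17973687920, nat_lit 18699009920, nat_lit 37049404280, nat_lit 37647548080], nat_lit 0, nat_lit 0, nat_lit 0, nat_lit 0, nat_lit 0, nat_lit 0, [], [nat_lit 36, nat_lit 40, nat_lit 80, nat_lit 80]⟩,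
 zbF0, []⟩
noncomputable def p016_l229 : Lf2 := ⟨nat_lit 0, nat_lit 5, [nat_lit 4, nat_lit 5, nat_lit 5, nat_lit 20], false, nat_lit 0, nat_lit 0, nat_lit 0, nat_lit 0, ⟨nat_lit 1000, nat_lit 0, nat_lit 0, nat_lit 0, nat_lit 0, nat_lit 0, nat_lit 0, nat_lit 0, nat_lit 0, nat_lit 0, nat_lit 0, nat_lit 0, nat_lit 0, nat_lit 0, nat_lit 0, nat_lit 0, false, false⟩,
 nat_lit 0, nat_lit 10977, nat_lit 0, nat_lit 0, nat_lit 7599, nat_lit 5546, nat_lit 2245, nat_lit 0, nat_lit 0, nat_lit 2149, nat_lit 0, nat_lit 0, nat_lit 0, nat_lit 28904571716370, nat_lit 0, nat_lit 0, nat_lit 0, nat_lit 0, [],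
 ⟨p016_k60, nat_lit 0, nat_lit 0, nat_lit 766, nat_lit 0, nat_lit 1491154, [nat_lit 3282000000, nat_lit 4688000000, nat_lit 6250000000], [], [nat_lit 20122900250, nat_lit 19150197365, nat_lit 20080628924, nat_lit 20247362585], nat_lit 1271250, nat_lit 1271250, nat_lit 490000, nat_lit 1740000, nat_lit 0, nat_lit 0, [nat_lit 780000, nat_lit 1100000, nat_lit 1442500], [nat_lit 59, nat_lit 40, nat_lit 80, nat_lit 80, nat_lit 3, nat_lit 272, nat_lit 60, nat_lit 10]⟩, ⟨p016_k58, nat_lit 0, nat_lit 0, nat_lit 0, nat_lit 0, nat_lit 0, [nat_lit 3282000000, nat_lit 4688000000, nat_lit 7968000000], [], [nat_lit 16441882016, nat_lit 18811245921, nat_lit 21074280384, nat_lit 23016932696], nat_lit 0, nat_lit 0, nat_lit 0, nat_lit 0, nat_lit 0, nat_lit 0, [], [nat_lit 36, nat_lit 40, nat_lit 80, nat_lit 80]⟩,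
 zbF0, [⟨nat_lit 0, nat_lit 95, nat_lit 95, nat_lit 100, nat_lit 394047485⟩]⟩
noncomputable def p016_l230 : Lf2 := ⟨nat_lit 0, nat_lit 5, [nat_lit 4, nat_lit 5, nat_lit 5, nat_lit 20], false, nat_lit 0, nat_lit 0, nat_lit 0, nat_lit 0, ⟨nat_lit 1000, nat_lit 0, nat_lit 0, nat_lit 0, nat_lit 0, nat_lit 0, nat_lit 0, nat_lit 0, nat_lit 0, nat_lit 0, nat_lit 0, nat_lit 0, nat_lit 0, nat_lit 0, nat_lit 0, nat_lit 0, false, false⟩,
 nat_lit 0, nat_lit 11668, nat_lit 0, nat_lit 0, nat_lit 8244, nat_lit 6117, nat_lit 2397, nat_lit 0, nat_lit 0, nat_lit 2215, nat_lit 0, nat_lit 0, nat_lit 0, nat_lit 0, nat_lit 0, nat_lit 0, nat_lit 0, nat_lit 0, [],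
 ⟨p016_k61, nat_lit 0, nat_lit 0, nat_lit 744, nat_lit 0, nat_lit 1439465, [nat_lit 3282000000, nat_lit 4688000000, nat_lit 6250000000], [], [nat_lit 15238111995, nat_lit 15469192713, nat_lit 16190902760, nat_lit 16362950576], nat_lit 1271250, nat_lit 1271250, nat_lit 517650, nat_lit 1742250, nat_lit 0, nat_lit 0, [nat_lit 780000, nat_lit 1100000, nat_lit 1442500], [nat_lit 59, nat_lit 40, nat_lit 80, nat_lit 80, nat_lit 3, nat_lit 272, nat_lit 60, nat_lit 10]⟩, ⟨p016_k58, nat_lit 0, nat_lit 0, nat_lit 0, nat_lit 0, nat_lit 0, [nat_lit 3282000000, nat_lit 4688000000, nat_lit 7968000000], [], [nat_lit 16260269194, nat_lit 18278879021, nat_lit 20783871012, nat_lit 22588147436], nat_lit 0, nat_lit 0, nat_lit 0, nat_lit 0, nat_lit 0, nat_lit 0, [], [nat_lit 36, nat_lit 40, nat_lit 80, nat_lit 80]⟩,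
 zbF0, [⟨nat_lit 0, nat_lit 97, nat_lit 93, nat_lit 100, nat_lit 391470456⟩]⟩
noncomputable def p016_l231 : Lf2 := ⟨nat_lit 0, nat_lit 5, [nat_lit 4, nat_lit 5, nat_lit 5, nat_lit 20], false, nat_lit 0, nat_lit 0, nat_lit 0, nat_lit 0, ⟨nat_lit 1000, nat_lit 0, nat_lit 0, nat_lit 0, nat_lit 0, nat_lit 0, nat_lit 0, nat_lit 0, nat_lit 0, nat_lit 0, nat_lit 0, nat_lit 0, nat_lit 0, nat_lit 0, nat_lit 0, nat_lit 0, false, false⟩,
 nat_lit 0, nat_lit 11762, nat_lit 0, nat_lit 0, nat_lit 8310, nat_lit 4863, nat_lit 2336, nat_lit 0, nat_lit 0, nat_lit 2401, nat_lit 0, nat_lit 0, nat_lit 0, nat_lit 34316513382681, nat_lit 0, nat_lit 0, nat_lit 0, nat_lit 0, [],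
 ⟨p016_k61, nat_lit 0, nat_lit 0, nat_lit 775, nat_lit 0, nat_lit 1534041, [nat_lit 3282000000, nat_lit 4688000000, nat_lit 6250000000], [], [nat_lit 15495710202, nat_lit 15689204344, nat_lit 16129623255, nat_lit 16277408290], nat_lit 1271250, nat_lit 1271250, nat_lit 660400, nat_lit 1753500, nat_lit 0, nat_lit 0, [nat_lit 780000, nat_lit 1100000, nat_lit 1442500], [nat_lit 59, nat_lit 40, nat_lit 80, nat_lit 80, nat_lit 3, nat_lit 272, nat_lit 60, nat_lit 10]⟩, ⟨p016_k60, nat_lit 0, nat_lit 0, nat_lit 0, nat_lit 0, nat_lit 0, [nat_lit 3282000000, nat_lit 4688000000, nat_lit 6250000000], [], [nat_lit 17035455792, nat_lit 17942890264, nat_lit 21212470302, nat_lit 21967608557], nat_lit 0, nat_lit 0, nat_lit 0, nat_lit 0, nat_lit 0, nat_lit 0, [], [nat_lit 59, nat_lit 40, nat_lit 80, nat_lit 80]⟩,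
 zbF0, [⟨nat_lit 0, nat_lit 91, nat_lit 91, nat_lit 100, nat_lit 406583025⟩]⟩
noncomputable def p016_l232 : Lf2 := ⟨nat_lit 0, nat_lit 10, [nat_lit 0, nat_lit 5, nat_lit 5, nat_lit 20], false, nat_lit 0, nat_lit 0, nat_lit 0, nat_lit 0, ⟨nat_lit 1000, nat_lit 0, nat_lit 0, nat_lit 0, nat_lit 0, nat_lit 0, nat_lit 0, nat_lit 0, nat_lit 0, nat_lit 0, nat_lit 0, nat_lit 0, nat_lit 0, nat_lit 0, nat_lit 0, nat_lit 0, false, false⟩,
 nat_lit 0, nat_lit 9343, nat_lit 0, nat_lit 0, nat_lit 6468, nat_lit 5654, nat_lit 2004, nat_lit 0, nat_lit 0, nat_lit 1398, nat_lit 0, nat_lit 0, nat_lit 0, nat_lit 0, nat_lit 0, nat_lit 0, nat_lit 0, nat_lit 0, [],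
 ⟨p016_k8, nat_lit 0, nat_lit 0, nat_lit 664, nat_lit 0, nat_lit 1085659, [nat_lit 3282000000, nat_lit 6250000000, nat_lit 7968000000], [], [nat_lit 21961348500, nat_lit 21735811496, nat_lit 23196046164, nat_lit 23401678546], nat_lit 1271250, nat_lit 1271250, nat_lit 490000, nat_lit 1740000, nat_lit 0, nat_lit 0, [nat_lit 780000, nat_lit 1435000, nat_lit 1271250], [nat_lit 18, nat_lit 40, nat_lit 80, nat_lit 80, nat_lit 2, nat_lit 272, nat_lit 60, nat_lit 9]⟩, ⟨p016_k0, nat_lit 0, nat_lit 0, nat_lit 0, nat_lit 0, nat_lit 0, [nat_lit 3282000000, nat_lit 6250000000, nat_lit 9842000000], [], [nat_lit 19545702430, nat_lit 20410384848, nat_lit 23756935144, nat_lit 24553339930], nat_lit 0, nat_lit 0, nat_lit 0, nat_lit 0, nat_lit 0, nat_lit 0, [], [nat_lit 8, nat_lit 40, nat_lit 80, nat_lit 80]⟩,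
 zbF0, [⟨nat_lit 0, nat_lit 100, nat_lit 95, nat_lit 95, nat_lit 368655135⟩]⟩
noncomputable def p016_l233 : Lf2 := ⟨nat_lit 0, nat_lit 10, [nat_lit 0, nat_lit 5, nat_lit 5, nat_lit 20], false, nat_lit 0, nat_lit 0, nat_lit 0, nat_lit 0, ⟨nat_lit 1000, nat_lit 0, nat_lit 0, nat_lit 0, nat_lit 0, nat_lit 0, nat_lit 0, nat_lit 0, nat_lit 0, nat_lit 0, nat_lit 0, nat_lit 0, nat_lit 0, nat_lit 0, nat_lit 0, nat_lit 0, false, false⟩,
 nat_lit 0, nat_lit 10480, nat_lit 0, nat_lit 0, nat_lit 7255, nat_lit 5343, nat_lit 1641, nat_lit 0, nat_lit 0, nat_lit 1352, nat_lit 0, nat_lit 0, nat_lit 0, nat_lit 32045218576843, nat_lit 0, nat_lit 0, nat_lit 0, nat_lit 0, [],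
 ⟨p016_k23, nat_lit 0, nat_lit 0, nat_lit 729, nat_lit 0, nat_lit 1222693, [nat_lit 3282000000, nat_lit 4688000000, nat_lit 7968000000], [], [nat_lit 20177554814, nat_lit 19250652830, nat_lit 25367868190, nat_lit 24546587680], nat_lit 1271250, nat_lit 1271250, nat_lit 545600, nat_lit 1744500, nat_lit 0, nat_lit 0, [nat_lit 780000, nat_lit 1100000, nat_lit 1785000], [nat_lit 36, nat_lit 40, nat_lit 80, nat_lit 80, nat_lit 7, nat_lit 272, nat_lit 60, nat_lit 9]⟩, ⟨p016_k27, nat_lit 0, nat_lit 0, nat_lit 0, nat_lit 0, nat_lit 0, [nat_lit 3282000000, nat_lit 4688000000, nat_lit 7968000000], [], [nat_lit 19596227167, nat_lit 20839491237, nat_lit 23020298807, nat_lit 24002419292], nat_lit 0, nat_lit 0, nat_lit 0, nat_lit 0, nat_lit 0, nat_lit 0, [], [nat_lit 36, nat_lit 40, nat_lit 80, nat_lit 80]⟩,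
 zbF0, [⟨nat_lit 0, nat_lit 95, nat_lit 95, nat_lit 100, nat_lit 266128942⟩]⟩
noncomputable def p016_l234 : Lf2 := ⟨nat_lit 0, nat_lit 10, [nat_lit 0, nat_lit 5, nat_lit 5, nat_lit 20], false, nat_lit 0, nat_lit 0, nat_lit 0, nat_lit 0, ⟨nat_lit 1000, nat_lit 0, nat_lit 0, nat_lit 0, nat_lit 0, nat_lit 0, nat_lit 0, nat_lit 0, nat_lit 0, nat_lit 0, nat_lit 0, nat_lit 0, nat_lit 0, nat_lit 0, nat_lit 0, nat_lit 0, false, false⟩,
 nat_lit 0, nat_lit 10241, nat_lit 0, nat_lit 0, nat_lit 7235, nat_lit 5086, nat_lit 1544, nat_lit 0, nat_lit 0, nat_lit 1909, nat_lit 0, nat_lit 0, nat_lit 0, nat_lit 25745784953619, nat_lit 0, nat_lit 0, nat_lit 0, nat_lit 0, [],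
 ⟨p016_k40, nat_lit 0, nat_lit 0, nat_lit 736, nat_lit 0, nat_lit 1239283, [nat_lit 3282000000, nat_lit 4688000000, nat_lit 7968000000], [], [nat_lit 19468886290, nat_lit 18916884910, nat_lit 24278195210, nat_lit 23786785328], nat_lit 1271250, nat_lit 1271250, nat_lit 517650, nat_lit 1742250, nat_lit 0, nat_lit 0, [nat_lit 780000, nat_lit 1100000, nat_lit 1785000], [nat_lit 36, nat_lit 40, nat_lit 80, nat_lit 80, nat_lit 7, nat_lit 272, nat_lit 60, nat_lit 9]⟩, ⟨p016_k2, nat_lit 0, nat_lit 0, nat_lit 0, nat_lit 0, nat_lit 0, [nat_lit 3282000000, nat_lit 4688000000, nat_lit 9842000000], [], [nat_lit 19017266758, nat_lit 21063258827, nat_lit 22061302045, nat_lit 23634198116], nat_lit 0, nat_lit 0, nat_lit 0, nat_lit 0, nat_lit 0, nat_lit 0, [], [nat_lit 42, nat_lit 40, nat_lit 80, nat_lit 80]⟩,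
 zbF0, [⟨nat_lit 0, nat_lit 93, nat_lit 93, nat_lit 100, nat_lit 320665224⟩]⟩
noncomputable def p016_l235 : Lf2 := ⟨nat_lit 0, nat_lit 10, [nat_lit 0, nat_lit 5, nat_lit 5, nat_lit 20], false, nat_lit 0, nat_lit 0, nat_lit 0, nat_lit 0, ⟨nat_lit 1000, nat_lit 0, nat_lit 0, nat_lit 0, nat_lit 0, nat_lit 0, nat_lit 0, nat_lit 0, nat_lit 0, nat_lit 0, nat_lit 0, nat_lit 0, nat_lit 0, nat_lit 0, nat_lit 0, nat_lit 0, false, false⟩,
 nat_lit 0, nat_lit 10759, nat_lit 0, nat_lit 0, nat_lit 7694, nat_lit 5080, nat_lit 1270, nat_lit 0, nat_lit 0, nat_lit 1902, nat_lit 0, nat_lit 0, nat_lit 0, nat_lit 29404855262170, nat_lit 0, nat_lit 0, nat_lit 0, nat_lit 0, [],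
 ⟨p016_k62, nat_lit 0, nat_lit 0, nat_lit 739, nat_lit 0, nat_lit 1251791, [nat_lit 3282000000, nat_lit 4688000000, nat_lit 7968000000], [], [nat_lit 17773110474, nat_lit 17767156151, nat_lit 24137098372, nat_lit 23788707896], nat_lit 1271250, nat_lit 1271250, nat_lit 545600, nat_lit 1744500, nat_lit 0, nat_lit 0, [nat_lit 780000, nat_lit 1100000, nat_lit 1785000], [nat_lit 36, nat_lit 40, nat_lit 80, nat_lit 80, nat_lit 7, nat_lit 272, nat_lit 60, nat_lit 9]⟩, ⟨p016_k2, nat_lit 0, nat_lit 0, nat_lit 0, nat_lit 0, nat_lit 0, [nat_lit 3282000000, nat_lit 4688000000, nat_lit 9842000000], [], [nat_lit 19085396414, nat_lit 21264525987, nat_lit 22101276350, nat_lit 23785006680], nat_lit 0, nat_lit 0, nat_lit 0, nat_lit 0, nat_lit 0, nat_lit 0, [], [nat_lit 42, nat_lit 40, nat_lit 80, nat_lit 80]⟩,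
 zbF0, [⟨nat_lit 0, nat_lit 91, nat_lit 91, nat_lit 100, nat_lit 278616857⟩]⟩
noncomputable def p016_l236 : Lf2 := ⟨nat_lit 0, nat_lit 10, [nat_lit 0, nat_lit 5, nat_lit 5, nat_lit 20], false, nat_lit 0, nat_lit 0, nat_lit 0, nat_lit 0, ⟨nat_lit 1000, nat_lit 0, nat_lit 0, nat_lit 0, nat_lit 0, nat_lit 0, nat_lit 0, nat_lit 0, nat_lit 0, nat_lit 0, nat_lit 0, nat_lit 0, nat_lit 0, nat_lit 0, nat_lit 0, nat_lit 0, false, false⟩,
 nat_lit 0, nat_lit 11654, nat_lit 0, nat_lit 0, nat_lit 8401, nat_lit 5627, nat_lit 1636, nat_lit 0, nat_lit 0, nat_lit 2386, nat_lit 0, nat_lit 0, nat_lit 0, nat_lit 0, nat_lit 0, nat_lit 0, nat_lit 0, nat_lit 0, [],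
 ⟨p016_k35, nat_lit 0, nat_lit 0, nat_lit 863, nat_lit 0, nat_lit 1524962, [nat_lit 3282000000, nat_lit 4688000000, nat_lit 7968000000], [], [nat_lit 15158586089, nat_lit 15557541668, nat_lit 19849728584, nat_lit 17947708580], nat_lit 1271250, nat_lit 1271250, nat_lit 545600, nat_lit 1744500, nat_lit 0, nat_lit 0, [nat_lit 780000, nat_lit 1100000, nat_lit 1785000], [nat_lit 36, nat_lit 40, nat_lit 80, nat_lit 80, nat_lit 7, nat_lit 286, nat_lit 60, nat_lit 9]⟩, ⟨p016_k2, nat_lit 0, nat_lit 0, nat_lit 0, nat_lit 0, nat_lit 0, [nat_lit 3282000000, nat_lit 4688000000, nat_lit 9842000000], [], [nat_lit 16612134046, nat_lit 18319808611, nat_lit 20981835408, nat_lit 22590838516], nat_lit 0, nat_lit 0, nat_lit 0, nat_lit 0, nat_lit 0, nat_lit 0, [], [nat_lit 42, nat_lit 40, nat_lit 80, nat_lit 80]⟩,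
 zbF0, [⟨nat_lit 0, nat_lit 94, nat_lit 87, nat_lit 100, nat_lit 333227131⟩]⟩
noncomputable def p016_l237 : Lf2 := ⟨nat_lit 0, nat_lit 5, [nat_lit 4, nat_lit 5, nat_lit 5, nat_lit 20], false, nat_lit 0, nat_lit 0, nat_lit 0, nat_lit 0, ⟨nat_lit 1000, nat_lit 0, nat_lit 0, nat_lit 0, nat_lit 0, nat_lit 0, nat_lit 0, nat_lit 0, nat_lit 0, nat_lit 0, nat_lit 0, nat_lit 0, nat_lit 0, nat_lit 0, nat_lit 0, nat_lit 0, false, false⟩,
 nat_lit 0, nat_lit 11470, nat_lit 0, nat_lit 0, nat_lit 8269, nat_lit 4830, nat_lit 2250, nat_lit 0, nat_lit 0, nat_lit 2367, nat_lit 0, nat_lit 0, nat_lit 0, nat_lit 0, nat_lit 0, nat_lit 0, nat_lit 0, nat_lit 0, [],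
 ⟨p016_k63, nat_lit 0, nat_lit 0, nat_lit 800, nat_lit 0, nat_lit 1575047, [nat_lit 3282000000, nat_lit 4688000000, nat_lit 6250000000], [], [nat_lit 15944146831, nat_lit 16135970773, nat_lit 16557874571, nat_lit 16705417768], nat_lit 1271250, nat_lit 1271250, nat_lit 689850, nat_lit 1755750, nat_lit 0, nat_lit 0, [nat_lit 780000, nat_lit 1100000, nat_lit 1442500], [nat_lit 59, nat_lit 40, nat_lit 80, nat_lit 80, nat_lit 3, nat_lit 272, nat_lit 60, nat_lit 10]⟩, ⟨p016_k60, nat_lit 0, nat_lit 0, nat_lit 0, nat_lit 0, nat_lit 0, [nat_lit 3282000000, nat_lit 4688000000, nat_lit 6250000000], [], [nat_lit 17158105612, nat_lit 18506518189, nat_lit 21242897820, nat_lit 22371428145], nat_lit 0, nat_lit 0, nat_lit 0, nat_lit 0, nat_lit 0, nat_lit 0, [], [nat_lit 59, nat_lit 40, nat_lit 80, nat_lit 80]⟩,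
 zbF0, [⟨nat_lit 0, nat_lit 87, nat_lit 87, nat_lit 100, nat_lit 436870798⟩]⟩
noncomputable def p016_l238 : Lf2 := ⟨nat_lit 0, nat_lit 5, [nat_lit 4, nat_lit 5, nat_lit 5, nat_lit 20], false, nat_lit 0, nat_lit 0, nat_lit 0, nat_lit 0, ⟨nat_lit 1000, nat_lit 0, nat_lit 0, nat_lit 0, nat_lit 0, nat_lit 0, nat_lit 0, nat_lit 0, nat_lit 0, nat_lit 0, nat_lit 0, nat_lit 0, nat_lit 0, nat_lit 0, nat_lit 0, nat_lit 0, false, false⟩,
 nat_lit 0, nat_lit 11165, nat_lit 0, nat_lit 0, nat_lit 8210, nat_lit 4798, nat_lit 2158, nat_lit 0, nat_lit 0, nat_lit 2332, nat_lit 0, nat_lit 0, nat_lit 0, nat_lit 20236468703198, nat_lit 0, nat_lit 0, nat_lit 0, nat_lit 0, [],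
 ⟨p016_k64, nat_lit 0, nat_lit 0, nat_lit 815, nat_lit 0, nat_lit 1614210, [nat_lit 3282000000, nat_lit 4688000000, nat_lit 6250000000], [], [nat_lit 16509559679, nat_lit 16699540024, nat_lit 17108667575, nat_lit 17255862760], nat_lit 1271250, nat_lit 1271250, nat_lit 719601, nat_lit 1758000, nat_lit 0, nat_lit 0, [nat_lit 780000, nat_lit 1100000, nat_lit 1442500], [nat_lit 59, nat_lit 40, nat_lit 80, nat_lit 80, nat_lit 3, nat_lit 274, nat_lit 60, nat_lit 10]⟩, ⟨p016_k60, nat_lit 0, nat_lit 0, nat_lit 0, nat_lit 0, nat_lit 0, [nat_lit 3282000000, nat_lit 4688000000, nat_lit 6250000000], [], [nat_lit 17281223121, nat_lit 19061507092, nat_lit 21272403292, nat_lit 22771709752], nat_lit 0, nat_lit 0, nat_lit 0, nat_lit 0, nat_lit 0, nat_lit 0, [], [nat_lit 59, nat_lit 40, nat_lit 80, nat_lit 80]⟩,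
 zbF0, [⟨nat_lit 0, nat_lit 83, nat_lit 83, nat_lit 100, nat_lit 471088252⟩]⟩
noncomputable def p016_l239 : Lf2 := ⟨nat_lit 0, nat_lit 10, [nat_lit 0, nat_lit 5, nat_lit 5, nat_lit 20], false, nat_lit 0, nat_lit 0, nat_lit 0, nat_lit 0, ⟨nat_lit 1000, nat_lit 0, nat_lit 0, nat_lit 0, nat_lit 0, nat_lit 0, nat_lit 0, nat_lit 0, nat_lit 0, nat_lit 0, nat_lit 0, nat_lit 0, nat_lit 0, nat_lit 0, nat_lit 0, nat_lit 0, false, false⟩,
 nat_lit 0, nat_lit 9971, nat_lit 0, nat_lit 0, nat_lit 7188, nat_lit 5253, nat_lit 1271, nat_lit 0, nat_lit 0, nat_lit 1630, nat_lit 0, nat_lit 0, nat_lit 0, nat_lit 23986187714750, nat_lit 0, nat_lit 0, nat_lit 0, nat_lit 0, [],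
 ⟨p016_k35, nat_lit 0, nat_lit 0, nat_lit 789, nat_lit 0, nat_lit 1403592, [nat_lit 3282000000, nat_lit 4688000000, nat_lit 7968000000], [], [nat_lit 21940975725, nat_lit 22275057405, nat_lit 24944166867, nat_lit 23322218816], nat_lit 1271250, nat_lit 1271250, nat_lit 689850, nat_lit 1755750, nat_lit 0, nat_lit 0, [nat_lit 780000, nat_lit 1100000, nat_lit 1785000], [nat_lit 36, nat_lit 40, nat_lit 80, nat_lit 80, nat_lit 7, nat_lit 272, nat_lit 60, nat_lit 9]⟩, ⟨p016_k23, nat_lit 0, nat_lit 0, nat_lit 0, nat_lit 0, nat_lit 0, [nat_lit 3282000000, nat_lit 4688000000, nat_lit 7968000000], [], [nat_lit 18891759811, nat_lit 20488314750, nat_lit 21969753574, nat_lit 23309569440], nat_lit 0, nat_lit 0, nat_lit 0, nat_lit 0, nat_lit 0, nat_lit 0, [], [nat_lit 36, nat_lit 40, nat_lit 80, nat_lit 80]⟩,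
 zbF0, [⟨nat_lit 0, nat_lit 83, nat_lit 83, nat_lit 100, nat_lit 502265797⟩]⟩
noncomputable def p016_l240 : Lf2 := ⟨nat_lit 0, nat_lit 10, [nat_lit 0, nat_lit 5, nat_lit 5, nat_lit 20], false, nat_lit 0, nat_lit 0, nat_lit 0, nat_lit 0, ⟨nat_lit 1000, nat_lit 0, nat_lit 0, nat_lit 0, nat_lit 0, nat_lit 0, nat_lit 0, nat_lit 0, nat_lit 0, nat_lit 0, nat_lit 0, nat_lit 0, nat_lit 0, nat_lit 0, nat_lit 0, nat_lit 0, false, false⟩,
 nat_lit 0, nat_lit 10024, nat_lit 0, nat_lit 0, nat_lit 6939, nat_lit 5272, nat_lit 2217, nat_lit 0, nat_lit 0, nat_lit 987, nat_lit 0, nat_lit 0, nat_lit 0, nat_lit 39290813381758, nat_lit 0, nat_lit 0, nat_lit 0, nat_lit 0, [],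
 ⟨p016_k8, nat_lit 0, nat_lit 0, nat_lit 856, nat_lit 0, nat_lit 1632028, [nat_lit 3282000000, nat_lit 6250000000, nat_lit 7968000000], [], [nat_lit 25376530718, nat_lit 25655927101, nat_lit 29494636962, nat_lit 29667342845], nat_lit 1271250, nat_lit 1271250, nat_lit 1271250, nat_lit 1271250, nat_lit 0, nat_lit 0, [nat_lit 780000, nat_lit 1435000, nat_lit 1271250], [nat_lit 18, nat_lit 40, nat_lit 80, nat_lit 80, nat_lit 2, nat_lit 303, nat_lit 0, nat_lit 9]⟩, ⟨p016_k0, nat_lit 0, nat_lit 0, nat_lit 0, nat_lit 0, nat_lit 0, [nat_lit 3282000000, nat_lit 6250000000, nat_lit 9842000000], [], [nat_lit 25153061824, nat_lit 26993731816, nat_lit 35259812736, nat_lit 36630691080], nat_lit 0, nat_lit 0, nat_lit 0, nat_lit 0, nat_lit 0, nat_lit 0, [], [nat_lit 8, nat_lit 40, nat_lit 80, nat_lit 80]⟩,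
 zbF0, []⟩
noncomputable def p016_l241 : Lf2 := ⟨nat_lit 0, nat_lit 10, [nat_lit 0, nat_lit 5, nat_lit 5, nat_lit 20], false, nat_lit 0, nat_lit 0, nat_lit 0, nat_lit 0, ⟨nat_lit 1000, nat_lit 0, nat_lit 0, nat_lit 0, nat_lit 0, nat_lit 0, nat_lit 0, nat_lit 0, nat_lit 0, nat_lit 0, nat_lit 0, nat_lit 0, nat_lit 0, nat_lit 0, nat_lit 0, nat_lit 0, false, false⟩,
 nat_lit 0, nat_lit 9542, nat_lit 0, nat_lit 0, nat_lit 6879, nat_lit 5375, nat_lit 1558, nat_lit 0, nat_lit 0, nat_lit 1766, nat_lit 0, nat_lit 0, nat_lit 0, nat_lit 34097431270959, nat_lit 0, nat_lit 0, nat_lit 0, nat_lit 0, [],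
 ⟨p016_k35, nat_lit 0, nat_lit 0, nat_lit 852, nat_lit 0, nat_lit 1628900, [nat_lit 3282000000, nat_lit 4688000000, nat_lit 7968000000], [], [nat_lit 26066365561, nat_lit 26205709843, nat_lit 30069411545, nat_lit 30155871042], nat_lit 1271250, nat_lit 1271250, nat_lit 1271250, nat_lit 1271250, nat_lit 0, nat_lit 0, [nat_lit 780000, nat_lit 1100000, nat_lit 1785000], [nat_lit 36, nat_lit 40, nat_lit 80, nat_lit 80, nat_lit 7, nat_lit 303, nat_lit 0, nat_lit 9]⟩, ⟨p016_k2, nat_lit 0, nat_lit 0, nat_lit 0, nat_lit 0, nat_lit 0, [nat_lit 3282000000, nat_lit 4688000000, nat_lit 9842000000], [], [nat_lit 24778769750, nat_lit 26481764000, nat_lit 34083223000, nat_lit 36033286063], nat_lit 0, nat_lit 0, nat_lit 0, nat_lit 0, nat_lit 0, nat_lit 0, [], [nat_lit 42, nat_lit 40, nat_lit 80, nat_lit 80]⟩,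
 zbF0, []⟩
noncomputable def p016_l242 : Lf2 := ⟨nat_lit 0, nat_lit 10, [nat_lit 0, nat_lit 5, nat_lit 5, nat_lit 20], false, nat_lit 0, nat_lit 0, nat_lit 0, nat_lit 0, ⟨nat_lit 1000, nat_lit 0, nat_lit 0, nat_lit 0, nat_lit 0, nat_lit 0, nat_lit 0, nat_lit 0, nat_lit 0, nat_lit 0, nat_lit 0, nat_lit 0, nat_lit 0, nat_lit 0, nat_lit 0, nat_lit 0, false, false⟩,
 nat_lit 0, nat_lit 9365, nat_lit 0, nat_lit 0, nat_lit 6887, nat_lit 5363, nat_lit 1447, nat_lit 0, nat_lit 0, nat_lit 1752, nat_lit 0, nat_lit 0, nat_lit 0, nat_lit 33342531931426, nat_lit 0, nat_lit 0, nat_lit 0, nat_lit 0, [],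
 ⟨p016_k65, nat_lit 0, nat_lit 0, nat_lit 867, nat_lit 0, nat_lit 1668654, [nat_lit 3282000000, nat_lit 4688000000, nat_lit 7968000000], [], [nat_lit 26151031903, nat_lit 26290423372, nat_lit 30102173605, nat_lit 30188544824], nat_lit 1271250, nat_lit 1271250, nat_lit 1271250, nat_lit 1271250, nat_lit 0, nat_lit 0, [nat_lit 780000, nat_lit 1100000, nat_lit 1785000], [nat_lit 36, nat_lit 40, nat_lit 80, nat_lit 80, nat_lit 7, nat_lit 307, nat_lit 0, nat_lit 9]⟩, ⟨p016_k2, nat_lit 0, nat_lit 0, nat_lit 0, nat_lit 0, nat_lit 0, [nat_lit 3282000000, nat_lit 4688000000, nat_lit 9842000000], [], [nat_lit 24870553432, nat_lit 26816498464, nat_lit 34051823608, nat_lit 36278293428], nat_lit 0, nat_lit 0, nat_lit 0, nat_lit 0, nat_lit 0, nat_lit 0, [], [nat_lit 42, nat_lit 40, nat_lit 80, nat_lit 80]⟩,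
 zbF0, []⟩
noncomputable def p016_l243 : Lf2 := ⟨nat_lit 3, nat_lit 10, [nat_lit 0, nat_lit 5, nat_lit 5, nat_lit 20], false, nat_lit 0, nat_lit 0, nat_lit 0, nat_lit 0, zbN0,
 nat_lit 0, nat_lit 0, nat_lit 0, nat_lit 0, nat_lit 0, nat_lit 0, nat_lit 0, nat_lit 0, nat_lit 0, nat_lit 0, nat_lit 0, nat_lit 0, nat_lit 0, nat_lit 0, nat_lit 0, nat_lit 0, nat_lit 0, nat_lit 0, [],
 C1.Rw.none, ⟨p016_k0, nat_lit 0, nat_lit 0, nat_lit 219, nat_lit 0, nat_lit 0, [], [], [], nat_lit 0, nat_lit 0, nat_lit 0, nat_lit 0, nat_lit 0, nat_lit 0, [], [nat_lit 8, nat_lit 40, nat_lit 80, nat_lit 80, nat_lit 1, nat_lit 317, nat_lit 100, nat_lit 9]⟩,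
 zbF0, []⟩
noncomputable def b_N_700_700_0_1 : St := ⟨false, nat_lit 1, nat_lit 0, nat_lit 1, nat_lit 40, nat_lit 280, nat_lit 320, nat_lit 280, nat_lit 320, nat_lit 64, nat_lit 400, nat_lit 0, nat_lit 0, nat_lit 0, nat_lit 0, nat_lit 0, nat_lit 0, nat_lit 0, nat_lit 40, nat_lit 0, nat_lit 0, nat_lit 0, nat_lit 0⟩
theorem d_N_700_700_0_1 (h : EB TB.env) : Dead b_N_700_700_0_1 := chkB_sound0 h (T :=
(.spl (nat_lit 7) (nat_lit 600)
(.leaf p016_l203)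
(.spl (nat_lit 8) (nat_lit 800)
(.spl (nat_lit 0) (nat_lit 300)
(.ord (.spl (nat_lit 1) (nat_lit 290)
(.spl (nat_lit 0) (nat_lit 290)
(.spl (nat_lit 8) (nat_lit 400)
(.spl (nat_lit 7) (nat_lit 900)
(.spl (nat_lit 2) (nat_lit 120)
(.spl (nat_lit 0) (nat_lit 285)
(.ord (.spl (nat_lit 2) (nat_lit 80)
(.leaf p016_l204)
(.leaf p016_l205)))
(.trZ (nat_lit 0) (nat_lit 100) (nat_lit 99) (nat_lit 82) (nat_lit 68) (.spl (nat_lit 0) (nat_lit 288)
(.ord (.leaf p016_l206))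
(.leaf p016_l207))))
(.leaf p016_l208))
(.spl (nat_lit 0) (nat_lit 285)
(.ord (.spl (nat_lit 2) (nat_lit 120)
(.spl (nat_lit 2) (nat_lit 80)
(.leaf p016_l209)
(.spl (nat_lit 2) (nat_lit 100)
(.leaf p016_l210)
(.spl (nat_lit 6) (nat_lit 20)
(.leaf p016_l211)
(.leaf p016_l212))))
(.spl (nat_lit 0) (nat_lit 283)
(.ord (.leaf p016_l213))
(.leaf p016_l214))))
(.trZ (nat_lit 0) (nat_lit 100) (nat_lit 99) (nat_lit 82) (nat_lit 68) (.spl (nat_lit 2) (nat_lit 120)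
(.spl (nat_lit 2) (nat_lit 100)
(.leaf p016_l215)
(.spl (nat_lit 0) (nat_lit 288)
(.ord (.leaf p016_l216))
(.leaf p016_l217)))
(.leaf p016_l218)))))
(.leaf p016_l219))
(.trZ (nat_lit 0) (nat_lit 100) (nat_lit 97) (nat_lit 84) (nat_lit 72) (.spl (nat_lit 2) (nat_lit 120)
(.spl (nat_lit 1) (nat_lit 285)
(.leaf p016_l220)
(.trZ (nat_lit 0) (nat_lit 100) (nat_lit 99) (nat_lit 87) (nat_lit 76) (.leaf p016_l221)))
(.spl (nat_lit 0) (nat_lit 295)
(.spl (nat_lit 0) (nat_lit 293)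
(.leaf p016_l222)
(.leaf p016_l223))
(.leaf p016_l224)))))
(.ord (.trZ (nat_lit 0) (nat_lit 100) (nat_lit 100) (nat_lit 90) (nat_lit 80) (.spl (nat_lit 2) (nat_lit 120)
(.spl (nat_lit 0) (nat_lit 295)
(.ord (.leaf p016_l225))
(.trZ (nat_lit 0) (nat_lit 100) (nat_lit 99) (nat_lit 92) (nat_lit 84) (.leaf p016_l226)))
(.spl (nat_lit 0) (nat_lit 295)
(.ord (.leaf p016_l227))
(.leaf p016_l228)))))))
(.trZ (nat_lit 0) (nat_lit 100) (nat_lit 94) (nat_lit 88) (nat_lit 80) (.spl (nat_lit 2) (nat_lit 240)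
(.spl (nat_lit 0) (nat_lit 310)
(.ord (.spl (nat_lit 6) (nat_lit 20)
(.spl (nat_lit 0) (nat_lit 305)
(.ord (.leaf p016_l229))
(.trZ (nat_lit 0) (nat_lit 100) (nat_lit 93) (nat_lit 90) (nat_lit 84) (.spl (nat_lit 1) (nat_lit 300)
(.leaf p016_l230)
(.trZ (nat_lit 0) (nat_lit 98) (nat_lit 97) (nat_lit 100) (nat_lit 104) (.leaf p016_l231)))))
(.spl (nat_lit 0) (nat_lit 305)
(.ord (.spl (nat_lit 1) (nat_lit 290)
(.leaf p016_l232)
(.trZ (nat_lit 0) (nat_lit 100) (nat_lit 97) (nat_lit 94) (nat_lit 88) (.leaf p016_l233))))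
(.trZ (nat_lit 0) (nat_lit 100) (nat_lit 93) (nat_lit 90) (nat_lit 84) (.spl (nat_lit 0) (nat_lit 308)
(.ord (.leaf p016_l234))
(.trZ (nat_lit 0) (nat_lit 100) (nat_lit 92) (nat_lit 91) (nat_lit 88) (.leaf p016_l235)))))))
(.trZ (nat_lit 0) (nat_lit 100) (nat_lit 91) (nat_lit 91) (nat_lit 88) (.spl (nat_lit 1) (nat_lit 300)
(.leaf p016_l236)
(.trZ (nat_lit 0) (nat_lit 97) (nat_lit 93) (nat_lit 100) (nat_lit 108) (.spl (nat_lit 6) (nat_lit 20)
(.spl (nat_lit 0) (nat_lit 315)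
(.ord (.leaf p016_l237))
(.trZ (nat_lit 0) (nat_lit 95) (nat_lit 90) (nat_lit 100) (nat_lit 112) (.leaf p016_l238)))
(.leaf p016_l239))))))
(.spl (nat_lit 0) (nat_lit 310)
(.ord (.leaf p016_l240))
(.spl (nat_lit 0) (nat_lit 315)
(.ord (.leaf p016_l241))
(.leaf p016_l242))))))
(.leaf p016_l243)))) (by decide +kernel)
noncomputable def p016_l244 : Lf2 := ⟨nat_lit 0, nat_lit 10, [nat_lit 0, nat_lit 5, nat_lit 5, nat_lit 20], false, nat_lit 0, nat_lit 0, nat_lit 0, nat_lit 0, ⟨nat_lit 1000, nat_lit 0, nat_lit 0, nat_lit 0, nat_lit 0, nat_lit 0, nat_lit 0, nat_lit 0, nat_lit 0, nat_lit 0, nat_lit 0, nat_lit 0, nat_lit 0, nat_lit 0, nat_lit 0, nat_lit 0, false, false⟩,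
 nat_lit 11921, nat_lit 0, nat_lit 0, nat_lit 0, nat_lit 7586, nat_lit 7586, nat_lit 1605, nat_lit 0, nat_lit 0, nat_lit 1605, nat_lit 0, nat_lit 0, nat_lit 0, nat_lit 0, nat_lit 0, nat_lit 0, nat_lit 0, nat_lit 0, [],
 ⟨p016_k2, nat_lit 0, nat_lit 0, nat_lit 606, nat_lit 0, nat_lit 776080, [nat_lit 3282000000, nat_lit 4688000000, nat_lit 9842000000], [], [nat_lit 25053561471, nat_lit 24512809995, nat_lit 28572034945, nat_lit 25091160915], nat_lit 1271250, nat_lit 1271250, nat_lit 382400, nat_lit 780000, nat_lit 0, nat_lit 0, [nat_lit 780000, nat_lit 1100000, nat_lit 2127500], [nat_lit 42, nat_lit 40, nat_lit 80, nat_lit 80, nat_lit 13, nat_lit 238, nat_lit 30, nat_lit 7]⟩, ⟨p016_k2, nat_lit 0, nat_lit 0, nat_lit 606, nat_lit 0, nat_lit 776080, [nat_lit 3282000000, nat_lit 4688000000, nat_lit 9842000000], [], [nat_lit 25053561471, nat_lit 24512809995, nat_lit 28572034945, nat_lit 25091160915],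 nat_lit 1271250, nat_lit 1271250, nat_lit 382400, nat_lit 780000, nat_lit 0, nat_lit 0, [nat_lit 780000, nat_lit 1100000, nat_lit 2127500], [nat_lit 42, nat_lit 40, nat_lit 80, nat_lit 80, nat_lit 13, nat_lit 238, nat_lit 30, nat_lit 7]⟩,
 zbF0, []⟩
noncomputable def p016_l245 : Lf2 := ⟨nat_lit 0, nat_lit 10, [nat_lit 0, nat_lit 5, nat_lit 5, nat_lit 20], false, nat_lit 0, nat_lit 0, nat_lit 0, nat_lit 0, ⟨nat_lit 729, nat_lit 0, nat_lit 271, nat_lit 7, nat_lit 173, nat_lit 0, nat_lit 0, nat_lit 0, nat_lit 0, nat_lit 215, nat_lit 46064, nat_lit 267, nat_lit 56414251, nat_lit 0, nat_lit 0, nat_lit 2181659, false, false⟩,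
 nat_lit 8779, nat_lit 0, nat_lit 0, nat_lit 0, nat_lit 6077, nat_lit 5586, nat_lit 733, nat_lit 0, nat_lit 0, nat_lit 1261, nat_lit 0, nat_lit 0, nat_lit 0, nat_lit 0, nat_lit 0, nat_lit 271000, nat_lit 0, nat_lit 0, [(nat_lit 15, [(nat_lit 6, nat_lit 271)])],
 ⟨p016_k23, nat_lit 0, nat_lit 0, nat_lit 547, nat_lit 0, nat_lit 851592, [nat_lit 2658158000, nat_lit 3456034001, nat_lit 4384621200], [], [nat_lit 20176024936, nat_lit 21062218648, nat_lit 20183157110, nat_lit 20991190710], nat_lit 1271250, nat_lit 1271250, nat_lit 490000, nat_lit 780000, nat_lit 0, nat_lit 0, [nat_lit 780000, nat_lit 1100000, nat_lit 1785000], [nat_lit 36, nat_lit 40, nat_lit 80, nat_lit 80, nat_lit 7, nat_lit 238, nat_lit 30, nat_lit 8]⟩, ⟨p016_k2, nat_lit 0, nat_lit 0, nat_lit 662, nat_lit 0, nat_lit 933666, [nat_lit 2392578000, nat_lit 3417552000, nat_lit 7174818000], [], [nat_lit 18116894657, nat_lit 18046477992,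 nat_lit 20282651693, nat_lit 17978113638], nat_lit 1271250, nat_lit 1271250, nat_lit 490000, nat_lit 780000, nat_lit 0, nat_lit 0, [nat_lit 780000, nat_lit 1100000, nat_lit 2127500], [nat_lit 42, nat_lit 40, nat_lit 80, nat_lit 80, nat_lit 13, nat_lit 238, nat_lit 30, nat_lit 7]⟩,
 ⟨nat_lit 4472, nat_lit 5000, ⟨.ofNat (nat_lit 371392), .ofNat (nat_lit 442816), .ofNat (nat_lit 414225), .ofNat (nat_lit 485648), .ofNat (nat_lit 382295), .ofNat (nat_lit 450269), .ofNat (nat_lit 425403), .ofNat (nat_lit 493376)⟩, ⟨.ofNat (nat_lit 0), .ofNat (nat_lit 0), .ofNat (nat_lit 0), .ofNat (nat_lit 0), .ofNat (nat_lit 0), .ofNat (nat_lit 0), .ofNat (nat_lit 0), .ofNat (nat_lit 0)⟩⟩, [⟨nat_lit 0, nat_lit 97, nat_lit 93, nat_lit 100, nat_lit 190199025⟩]⟩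
noncomputable def p016_l246 : Lf2 := ⟨nat_lit 0, nat_lit 10, [nat_lit 0, nat_lit 5, nat_lit 5, nat_lit 20], false, nat_lit 0, nat_lit 0, nat_lit 0, nat_lit 0, ⟨nat_lit 1000, nat_lit 0, nat_lit 0, nat_lit 0, nat_lit 0, nat_lit 0, nat_lit 0, nat_lit 0, nat_lit 0, nat_lit 0, nat_lit 0, nat_lit 0, nat_lit 0, nat_lit 0, nat_lit 0, nat_lit 0, false, false⟩,
 nat_lit 11979, nat_lit 0, nat_lit 0, nat_lit 0, nat_lit 7622, nat_lit 7622, nat_lit 945, nat_lit 0, nat_lit 0, nat_lit 945, nat_lit 0, nat_lit 0, nat_lit 0, nat_lit 0, nat_lit 0, nat_lit 0, nat_lit 0, nat_lit 0, [],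
 ⟨p016_k2, nat_lit 0, nat_lit 0, nat_lit 633, nat_lit 0, nat_lit 933666, [nat_lit 3282000000, nat_lit 4688000000, nat_lit 9842000000], [], [nat_lit 26926740416, nat_lit 28240749673, nat_lit 30101626993, nat_lit 30158847641], nat_lit 1271250, nat_lit 1271250, nat_lit 780000, nat_lit 1762500, nat_lit 0, nat_lit 0, [nat_lit 780000, nat_lit 1100000, nat_lit 2127500], [nat_lit 42, nat_lit 40, nat_lit 80, nat_lit 80, nat_lit 13, nat_lit 272, nat_lit 60, nat_lit 8]⟩, ⟨p016_k2, nat_lit 0, nat_lit 0, nat_lit 633, nat_lit 0, nat_lit 933666, [nat_lit 3282000000, nat_lit 4688000000, nat_lit 9842000000], [], [nat_lit 26926740416, nat_lit 28240749673, nat_lit 30101626993, nat_lit 30158847641], nat_lit 1271250, nat_lit 1271250, nat_lit 780000, nat_lit 1762500, nat_lit 0, nat_lit 0, [nat_lit 780000, nat_lit 1100000, nat_lit 2127500], [nat_lit 42, nat_lit 40, nat_lit 80, nat_lit 80, nat_lit 13, nat_lit 272,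 nat_lit 60, nat_lit 8]⟩,
 zbF0, [⟨nat_lit 0, nat_lit 100, nat_lit 100, nat_lit 100, nat_lit 113099598⟩, ⟨nat_lit 0, nat_lit 83, nat_lit 83, nat_lit 100, nat_lit 273428446⟩]⟩
noncomputable def p016_l247 : Lf2 := ⟨nat_lit 0, nat_lit 10, [nat_lit 0, nat_lit 5, nat_lit 5, nat_lit 20], false, nat_lit 0, nat_lit 0, nat_lit 0, nat_lit 0, ⟨nat_lit 1000, nat_lit 0, nat_lit 0, nat_lit 0, nat_lit 0, nat_lit 0, nat_lit 0, nat_lit 0, nat_lit 0, nat_lit 0, nat_lit 0, nat_lit 0, nat_lit 0, nat_lit 0, nat_lit 0, nat_lit 0, false, false⟩,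
 nat_lit 11846, nat_lit 0, nat_lit 0, nat_lit 0, nat_lit 7538, nat_lit 7538, nat_lit 734, nat_lit 0, nat_lit 0, nat_lit 772, nat_lit 0, nat_lit 0, nat_lit 0, nat_lit 16380932527681, nat_lit 0, nat_lit 0, nat_lit 0, nat_lit 0, [],
 ⟨p016_k0, nat_lit 0, nat_lit 0, nat_lit 607, nat_lit 0, nat_lit 933666, [nat_lit 3282000000, nat_lit 6250000000, nat_lit 9842000000], [], [nat_lit 34652936206, nat_lit 35684624838, nat_lit 39742963408, nat_lit 42363412728], nat_lit 1271250, nat_lit 1271250, nat_lit 1271250, nat_lit 1271250, nat_lit 0, nat_lit 0, [nat_lit 780000, nat_lit 1435000, nat_lit 1271250], [nat_lit 8, nat_lit 40, nat_lit 80, nat_lit 80, nat_lit 1, nat_lit 317, nat_lit 100, nat_lit 9]⟩, ⟨p016_k0, nat_lit 0, nat_lit 0, nat_lit 607, nat_lit 0, nat_lit 933666, [nat_lit 3282000000, nat_lit 6250000000, nat_lit 9842000000], [], [nat_lit 34413001712, nat_lit 35684460216, nat_lit 39742963408, nat_lit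 42363412728], nat_lit 1271250, nat_lit 1271250, nat_lit 1271250, nat_lit 1271250, nat_lit 0, nat_lit 0, [nat_lit 780000, nat_lit 1435000, nat_lit 1271250], [nat_lit 8, nat_lit 40, nat_lit 80, nat_lit 80, nat_lit 1, nat_lit 317, nat_lit 100, nat_lit 9]⟩,
 zbF0, []⟩
noncomputable def b_N_700_700_0_2 : St := ⟨false, nat_lit 1, nat_lit 1, nat_lit 1, nat_lit 40, nat_lit 280, nat_lit 320, nat_lit 280, nat_lit 320, nat_lit 64, nat_lit 400, nat_lit 0, nat_lit 0, nat_lit 0, nat_lit 0, nat_lit 0, nat_lit 0, nat_lit 0, nat_lit 40, nat_lit 0, nat_lit 0, nat_lit 0, nat_lit 0⟩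
theorem d_N_700_700_0_2 (h : EB TB.env) : Dead b_N_700_700_0_2 := chkB_sound0 h (T :=
(.spl (nat_lit 2) (nat_lit 240)
(.spl (nat_lit 2) (nat_lit 120)
(.spl (nat_lit 0) (nat_lit 300)
(.ord (.leaf p016_l244))
(.trZ (nat_lit 0) (nat_lit 100) (nat_lit 94) (nat_lit 88) (nat_lit 80) (.leaf p016_l245)))
(.leaf p016_l246))
(.leaf p016_l247))) (by decide +kernel)

end B2
end Pool.Agent.Lib.MP_6947cd_al
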