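import Pool.Agent.Lib.MP_6947cd_al.ZB.Pre

/-!
Problem MP_6947cd_al (Chollet).  Case B, second entry in [2/5, 17/20]: certificates of the tree, part P017 (generated).
-/

set_option autoImplicit false
set_option linter.all false

namespace Pool.Agent.Lib.MP_6947cd_al
namespace B2

open Ent Fr B1 PkA

noncomputable def p017_k0 : C1.Kn := ⟨[nat_lit 60, nat_lit 100, nat_lit 140], [nat_lit 0, nat_lit 0, nat_lit 2047], [(nat_lit 0, nat_lit 0, nat_lit 0), (nat_lit 0, nat_lit 0, nat_lit 0), (nat_lit 1000, nat_lit 993, nat_lit 781)], (nat_lit 94, nat_lit 100, nat_lit 62)⟩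
noncomputable def p017_k1 : C1.Kn := ⟨[nat_lit 60, nat_lit 80, nat_lit 140], [nat_lit 0, nat_lit 0, nat_lit 1595], [(nat_lit 0, nat_lit 0, nat_lit 0), (nat_lit 0, nat_lit 0, nat_lit 0), (nat_lit 1000, nat_lit 917, nat_lit 415)], (nat_lit 94, nat_lit 100, nat_lit 62)⟩
noncomputable def p017_k2 : C1.Kn := ⟨[nat_lit 60, nat_lit 80, nat_lit 130], [nat_lit 0, nat_lit 0, nat_lit 1330], [(nat_lit 0, nat_lit 0, nat_lit 0), (nat_lit 0, nat_lit 0, nat_lit 0), (nat_lit 1000, nat_lit 917, nat_lit 415)], (nat_lit 94, nat_lit 100, nat_lit 62)⟩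
noncomputable def p017_k3 : C1.Kn := ⟨[nat_lit 60, nat_lit 80, nat_lit 120], [nat_lit 0, nat_lit 151, nat_lit 1205], [(nat_lit 0, nat_lit 0, nat_lit 0), (nat_lit 1000, nat_lit 953, nat_lit 118), (nat_lit 1000, nat_lit 894, nat_lit 411)], (nat_lit 91, nat_lit 100, nat_lit 61)⟩
noncomputable def p017_k4 : C1.Kn := ⟨[nat_lit 60, nat_lit 80, nat_lit 120], [nat_lit 0, nat_lit 304, nat_lit 1346], [(nat_lit 0, nat_lit 0, nat_lit 0), (nat_lit 1000, nat_lit 905, nat_lit 238), (nat_lit 1000, nat_lit 871, nat_lit 407)], (nat_lit 87, nat_lit 100, nat_lit 60)⟩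
noncomputable def p017_k5 : C1.Kn := ⟨[nat_lit 60, nat_lit 70, nat_lit 90, nat_lit 130], [nat_lit 0, nat_lit 0, nat_lit 280, nat_lit 1294], [(nat_lit 0, nat_lit 0, nat_lit 0), (nat_lit 0, nat_lit 0, nat_lit 0), (nat_lit 1000, nat_lit 934, nat_lit 219), (nat_lit 1000, nat_lit 917, nat_lit 396)], (nat_lit 94, nat_lit 100, nat_lit 62)⟩
noncomputable def p017_k6 : C1.Kn := ⟨[nat_lit 60, nat_lit 80, nat_lit 120], [nat_lit 0, nat_lit 0, nat_lit 1064], [(nat_lit 0, nat_lit 0, nat_lit 0), (nat_lit 0, nat_lit 0, nat_lit 0), (nat_lit 1000, nat_lit 917, nat_lit 415)], (nat_lit 92, nat_lit 100, nat_lit 44)⟩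
noncomputable def p017_k7 : C1.Kn := ⟨[nat_lit 60, nat_lit 70, nat_lit 90, nat_lit 110], [nat_lit 0, nat_lit 0, nat_lit 280, nat_lit 787], [(nat_lit 0, nat_lit 0, nat_lit 0), (nat_lit 0, nat_lit 0, nat_lit 0), (nat_lit 1000, nat_lit 934, nat_lit 219), (nat_lit 1000, nat_lit 917, nat_lit 396)], (nat_lit 92, nat_lit 100, nat_lit 44)⟩
noncomputable def p017_k8 : C1.Kn := ⟨[nat_lit 60, nat_lit 80, nat_lit 140], [nat_lit 0, nat_lit 42, nat_lit 1644], [(nat_lit 0, nat_lit 0, nat_lit 0), (nat_lit 1000, nat_lit 987, nat_lit 33), (nat_lit 1000, nat_lit 910, nat_lit 417)], (nat_lit 93, nat_lit 100, nat_lit 61)⟩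
noncomputable def p017_k9 : C1.Kn := ⟨[nat_lit 60, nat_lit 80, nat_lit 140], [nat_lit 0, nat_lit 75, nat_lit 1666], [(nat_lit 0, nat_lit 0, nat_lit 0), (nat_lit 1000, nat_lit 977, nat_lit 59), (nat_lit 1000, nat_lit 905, nat_lit 414)], (nat_lit 92, nat_lit 100, nat_lit 61)⟩
noncomputable def p017_k10 : C1.Kn := ⟨[nat_lit 60, nat_lit 80, nat_lit 120], [nat_lit 0, nat_lit 119, nat_lit 1178], [(nat_lit 0, nat_lit 0, nat_lit 0), (nat_lit 1000, nat_lit 963, nat_lit 93), (nat_lit 1000, nat_lit 898, nat_lit 413)], (nat_lit 91, nat_lit 100, nat_lit 61)⟩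
noncomputable def p017_k11 : C1.Kn := ⟨[nat_lit 40, nat_lit 60, nat_lit 80, nat_lit 120, nat_lit 130], [nat_lit 0, nat_lit 0, nat_lit 0, nat_lit 1064, nat_lit 1572], [(nat_lit 0, nat_lit 0, nat_lit 0), (nat_lit 0, nat_lit 0, nat_lit 0), (nat_lit 0, nat_lit 0, nat_lit 0), (nat_lit 1000, nat_lit 917, nat_lit 415), (nat_lit 1000, nat_lit 958, nat_lit 677)], (nat_lit 94, nat_lit 100, nat_lit 62)⟩
noncomputable def p017_k12 : C1.Kn := ⟨[nat_lit 60, nat_lit 80, nat_lit 120], [nat_lit 0, nat_lit 228, nat_lit 1272], [(nat_lit 0, nat_lit 0, nat_lit 0), (nat_lit 1000, nat_lit 929, nat_lit 178), (nat_lit 1000, nat_lit 883, nat_lit 407)], (nat_lit 89, nat_lit 100, nat_lit 61)⟩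
noncomputable def p017_k13 : C1.Kn := ⟨[nat_lit 60, nat_lit 80, nat_lit 120], [nat_lit 0, nat_lit 379, nat_lit 1423], [(nat_lit 0, nat_lit 0, nat_lit 0), (nat_lit 1000, nat_lit 882, nat_lit 294), (nat_lit 1000, nat_lit 859, nat_lit 408)], (nat_lit 85, nat_lit 100, nat_lit 60)⟩
noncomputable def p017_k14 : C1.Kn := ⟨[nat_lit 60, nat_lit 80, nat_lit 120], [nat_lit 0, nat_lit 456, nat_lit 1495], [(nat_lit 0, nat_lit 0, nat_lit 0), (nat_lit 1000, nat_lit 859, nat_lit 351), (nat_lit 1000, nat_lit 848, nat_lit 406)], (nat_lit 84, nat_lit 100, nat_lit 60)⟩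
noncomputable def p017_k15 : C1.Kn := ⟨[nat_lit 60, nat_lit 80, nat_lit 100], [nat_lit 0, nat_lit 456, nat_lit 976], [(nat_lit 0, nat_lit 0, nat_lit 0), (nat_lit 1000, nat_lit 859, nat_lit 351), (nat_lit 1000, nat_lit 848, nat_lit 406)], (nat_lit 84, nat_lit 100, nat_lit 44)⟩
noncomputable def p017_k16 : C1.Kn := ⟨[nat_lit 60, nat_lit 80, nat_lit 100], [nat_lit 0, nat_lit 304, nat_lit 825], [(nat_lit 0, nat_lit 0, nat_lit 0), (nat_lit 1000, nat_lit 905, nat_lit 238), (nat_lit 1000, nat_lit 871, nat_lit 407)], (nat_lit 87, nat_lit 100, nat_lit 44)⟩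
noncomputable def p017_k17 : C1.Kn := ⟨[nat_lit 60, nat_lit 80, nat_lit 100], [nat_lit 0, nat_lit 533, nat_lit 1067], [(nat_lit 0, nat_lit 0, nat_lit 0), (nat_lit 1000, nat_lit 837, nat_lit 397), (nat_lit 1000, nat_lit 833, nat_lit 417)], (nat_lit 83, nat_lit 100, nat_lit 44)⟩
noncomputable def p017_k18 : C1.Kn := ⟨[nat_lit 60, nat_lit 100, nat_lit 120], [nat_lit 0, nat_lit 609, nat_lit 1609], [(nat_lit 0, nat_lit 0, nat_lit 0), (nat_lit 1000, nat_lit 905, nat_lit 238), (nat_lit 1000, nat_lit 882, nat_lit 668)], (nat_lit 87, nat_lit 100, nat_lit 60)⟩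
noncomputable def p017_k19 : C1.Kn := ⟨[nat_lit 60, nat_lit 140], [nat_lit 0, nat_lit 0], [(nat_lit 0, nat_lit 0, nat_lit 0), (nat_lit 0, nat_lit 0, nat_lit 0)], (nat_lit 94, nat_lit 100, nat_lit 62)⟩
noncomputable def p017_k20 : C1.Kn := ⟨[nat_lit 60, nat_lit 120], [nat_lit 0, nat_lit 453], [(nat_lit 0, nat_lit 0, nat_lit 0), (nat_lit 1000, nat_lit 953, nat_lit 118)], (nat_lit 91, nat_lit 100, nat_lit 61)⟩
noncomputable def p017_k21 : C1.Kn := ⟨[nat_lit 60, nat_lit 80, nat_lit 120], [nat_lit 0, nat_lit 272, nat_lit 1322], [(nat_lit 0, nat_lit 0, nat_lit 0), (nat_lit 1000, nat_lit 915, nat_lit 212), (nat_lit 1000, nat_lit 875, nat_lit 410)], (nat_lit 88, nat_lit 100, nat_lit 61)⟩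
noncomputable def p017_k22 : C1.Kn := ⟨[nat_lit 60, nat_lit 100, nat_lit 120], [nat_lit 0, nat_lit 755, nat_lit 1734], [(nat_lit 0, nat_lit 0, nat_lit 0), (nat_lit 1000, nat_lit 882, nat_lit 294), (nat_lit 1000, nat_lit 866, nat_lit 684)], (nat_lit 85, nat_lit 100, nat_lit 60)⟩
noncomputable def p017_k23 : C1.Kn := ⟨[nat_lit 60, nat_lit 100, nat_lit 120], [nat_lit 0, nat_lit 909, nat_lit 1866], [(nat_lit 0, nat_lit 0, nat_lit 0), (nat_lit 1000, nat_lit 858, nat_lit 354), (nat_lit 1000, nat_lit 849, nat_lit 705)], (nat_lit 84, nat_lit 100, nat_lit 60)⟩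
noncomputable def p017_k24 : C1.Kn := ⟨[nat_lit 60, nat_lit 100, nat_lit 120], [nat_lit 0, nat_lit 1063, nat_lit 2005], [(nat_lit 0, nat_lit 0, nat_lit 0), (nat_lit 1000, nat_lit 834, nat_lit 414), (nat_lit 1000, nat_lit 833, nat_lit 732)], (nat_lit 82, nat_lit 100, nat_lit 60)⟩
noncomputable def p017_k25 : C1.Kn := ⟨[nat_lit 60, nat_lit 100, nat_lit 140], [nat_lit 0, nat_lit 20, nat_lit 2073], [(nat_lit 0, nat_lit 0, nat_lit 0), (nat_lit 1000, nat_lit 997, nat_lit 8), (nat_lit 1000, nat_lit 992, nat_lit 791)], (nat_lit 94, nat_lit 100, nat_lit 62)⟩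
noncomputable def p017_k26 : C1.Kn := ⟨[nat_lit 60, nat_lit 100, nat_lit 140], [nat_lit 0, nat_lit 53, nat_lit 2099], [(nat_lit 0, nat_lit 0, nat_lit 0), (nat_lit 1000, nat_lit 992, nat_lit 21), (nat_lit 1000, nat_lit 991, nat_lit 797)], (nat_lit 93, nat_lit 100, nat_lit 61)⟩
noncomputable def p017_k27 : C1.Kn := ⟨[nat_lit 60, nat_lit 80, nat_lit 140], [nat_lit 0, nat_lit 27, nat_lit 1624], [(nat_lit 0, nat_lit 0, nat_lit 0), (nat_lit 1000, nat_lit 992, nat_lit 21), (nat_lit 1000, nat_lit 912, nat_lit 415)], (nat_lit 93, nat_lit 100, nat_lit 61)⟩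
noncomputable def p017_k28 : C1.Kn := ⟨[nat_lit 60, nat_lit 100, nat_lit 140], [nat_lit 0, nat_lit 84, nat_lit 2124], [(nat_lit 0, nat_lit 0, nat_lit 0), (nat_lit 1000, nat_lit 987, nat_lit 33), (nat_lit 1000, nat_lit 984, nat_lit 790)], (nat_lit 93, nat_lit 100, nat_lit 61)⟩
noncomputable def p017_k29 : C1.Kn := ⟨[nat_lit 60, nat_lit 100, nat_lit 140], [nat_lit 0, nat_lit 151, nat_lit 2175], [(nat_lit 0, nat_lit 0, nat_lit 0), (nat_lit 1000, nat_lit 977, nat_lit 59), (nat_lit 1000, nat_lit 974, nat_lit 785)], (nat_lit 92, nat_lit 100, nat_lit 61)⟩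
noncomputable def p017_k30 : C1.Kn := ⟨[nat_lit 60, nat_lit 80, nat_lit 120], [nat_lit 0, nat_lit 135, nat_lit 1192], [(nat_lit 0, nat_lit 0, nat_lit 0), (nat_lit 1000, nat_lit 958, nat_lit 105), (nat_lit 1000, nat_lit 896, nat_lit 412)], (nat_lit 91, nat_lit 100, nat_lit 61)⟩
noncomputable def p017_k31 : C1.Kn := ⟨[nat_lit 60, nat_lit 100, nat_lit 120], [nat_lit 0, nat_lit 302, nat_lit 1376], [(nat_lit 0, nat_lit 0, nat_lit 0), (nat_lit 1000, nat_lit 953, nat_lit 118), (nat_lit 1000, nat_lit 911, nat_lit 628)], (nat_lit 91, nat_lit 100, nat_lit 61)⟩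
noncomputable def p017_k32 : C1.Kn := ⟨[nat_lit 60, nat_lit 100, nat_lit 120], [nat_lit 0, nat_lit 455, nat_lit 1489], [(nat_lit 0, nat_lit 0, nat_lit 0), (nat_lit 1000, nat_lit 929, nat_lit 178), (nat_lit 1000, nat_lit 895, nat_lit 641)], (nat_lit 89, nat_lit 100, nat_lit 61)⟩
noncomputable def p017_k33 : C1.Kn := ⟨[nat_lit 40, nat_lit 80, nat_lit 100], [nat_lit 0, nat_lit 0, nat_lit 1280], [(nat_lit 0, nat_lit 0, nat_lit 0), (nat_lit 0, nat_lit 0, nat_lit 0), (nat_lit 1000, nat_lit 800, nat_lit 600)], (nat_lit 80, nat_lit 100, nat_lit 60)⟩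
noncomputable def p017_k34 : C1.Kn := ⟨[nat_lit 40, nat_lit 100], [nat_lit 0, nat_lit 0], [(nat_lit 0, nat_lit 0, nat_lit 0), (nat_lit 0, nat_lit 0, nat_lit 0)], (nat_lit 80, nat_lit 100, nat_lit 60)⟩
noncomputable def p017_k35 : C1.Kn := ⟨[nat_lit 40, nat_lit 80, nat_lit 100], [nat_lit 0, nat_lit 395, nat_lit 1536], [(nat_lit 0, nat_lit 0, nat_lit 0), (nat_lit 1000, nat_lit 908, nat_lit 154), (nat_lit 1000, nat_lit 760, nat_lit 642)], (nat_lit 76, nat_lit 100, nat_lit 60)⟩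
noncomputable def p017_k36 : C1.Kn := ⟨[nat_lit 120, nat_lit 160, nat_lit 180], [nat_lit 0, nat_lit 533, nat_lit 2066], [(nat_lit 0, nat_lit 0, nat_lit 0), (nat_lit 960, nat_lit 1000, nat_lit 200), (nat_lit 615, nat_lit 1000, nat_lit 729)], (nat_lit 100, nat_lit 74, nat_lit 60)⟩
noncomputable def p017_k37 : C1.Kn := ⟨[nat_lit 40, nat_lit 100], [nat_lit 0, nat_lit 1192], [(nat_lit 0, nat_lit 0, nat_lit 0), (nat_lit 1000, nat_lit 814, nat_lit 310)], (nat_lit 72, nat_lit 100, nat_lit 61)⟩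
noncomputable def p017_k38 : C1.Kn := ⟨[nat_lit 40, nat_lit 60, nat_lit 80], [nat_lit 0, nat_lit 398, nat_lit 992], [(nat_lit 0, nat_lit 0, nat_lit 0), (nat_lit 1000, nat_lit 814, nat_lit 310), (nat_lit 1000, nat_lit 752, nat_lit 464)], (nat_lit 75, nat_lit 100, nat_lit 46)⟩
noncomputable def p017_k39 : C1.Kn := ⟨[nat_lit 120, nat_lit 140, nat_lit 180], [nat_lit 0, nat_lit 0, nat_lit 1219], [(nat_lit 0, nat_lit 0, nat_lit 0), (nat_lit 0, nat_lit 0, nat_lit 0), (nat_lit 840, nat_lit 1000, nat_lit 400)], (nat_lit 100, nat_lit 81, nat_lit 44)⟩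
noncomputable def p017_k40 : C1.Kn := ⟨[nat_lit 40, nat_lit 80, nat_lit 100], [nat_lit 0, nat_lit 795, nat_lit 1829], [(nat_lit 0, nat_lit 0, nat_lit 0), (nat_lit 1000, nat_lit 814, nat_lit 310), (nat_lit 1000, nat_lit 714, nat_lit 692)], (nat_lit 72, nat_lit 100, nat_lit 61)⟩
noncomputable def p017_k41 : C1.Kn := ⟨[nat_lit 120, nat_lit 160, nat_lit 180], [nat_lit 0, nat_lit 0, nat_lit 1613], [(nat_lit 0, nat_lit 0, nat_lit 0), (nat_lit 0, nat_lit 0, nat_lit 0), (nat_lit 620, nat_lit 1000, nat_lit 670)], (nat_lit 100, nat_lit 68, nat_lit 61)⟩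
noncomputable def p017_k42 : C1.Kn := ⟨[nat_lit 40, nat_lit 80, nat_lit 100], [nat_lit 0, nat_lit 192, nat_lit 1404], [(nat_lit 0, nat_lit 0, nat_lit 0), (nat_lit 1000, nat_lit 955, nat_lit 75), (nat_lit 1000, nat_lit 781, nat_lit 625)], (nat_lit 78, nat_lit 100, nat_lit 60)⟩
noncomputable def p017_k43 : C1.Kn := ⟨[nat_lit 120, nat_lit 180], [nat_lit 0, nat_lit 0], [(nat_lit 0, nat_lit 0, nat_lit 0), (nat_lit 0, nat_lit 0, nat_lit 0)], (nat_lit 100, nat_lit 68, nat_lit 61)⟩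
noncomputable def p017_k44 : C1.Kn := ⟨[nat_lit 40, nat_lit 80, nat_lit 100], [nat_lit 0, nat_lit 0, nat_lit 1280], [(nat_lit 0, nat_lit 0, nat_lit 0), (nat_lit 0, nat_lit 0, nat_lit 0), (nat_lit 1000, nat_lit 800, nat_lit 600)], (nat_lit 82, nat_lit 100, nat_lit 44)⟩
noncomputable def p017_k45 : C1.Kn := ⟨[nat_lit 120, nat_lit 160, nat_lit 180], [nat_lit 0, nat_lit 0, nat_lit 1613], [(nat_lit 0, nat_lit 0, nat_lit 0), (nat_lit 0, nat_lit 0, nat_lit 0), (nat_lit 620, nat_lit 1000, nat_lit 670)], (nat_lit 100, nat_lit 81, nat_lit 44)⟩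
noncomputable def p017_k46 : C1.Kn := ⟨[nat_lit 40, nat_lit 80], [nat_lit 0, nat_lit 395], [(nat_lit 0, nat_lit 0, nat_lit 0), (nat_lit 1000, nat_lit 908, nat_lit 154)], (nat_lit 79, nat_lit 100, nat_lit 45)⟩
noncomputable def p017_k47 : C1.Kn := ⟨[nat_lit 120, nat_lit 160, nat_lit 180], [nat_lit 0, nat_lit 797, nat_lit 2300], [(nat_lit 0, nat_lit 0, nat_lit 0), (nat_lit 942, nat_lit 1000, nat_lit 293), (nat_lit 634, nat_lit 1000, nat_lit 743)], (nat_lit 100, nat_lit 77, nat_lit 60)⟩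
noncomputable def p017_k48 : C1.Kn := ⟨[nat_lit 40, nat_lit 80], [nat_lit 0, nat_lit 1195], [(nat_lit 0, nat_lit 0, nat_lit 0), (nat_lit 1000, nat_lit 720, nat_lit 465)], (nat_lit 68, nat_lit 100, nat_lit 61)⟩
noncomputable def p017_l0 : Lf2 := ⟨nat_lit 0, nat_lit 10, [nat_lit 0, nat_lit 5, nat_lit 5, nat_lit 20], false, nat_lit 0, nat_lit 0, nat_lit 0, nat_lit 0, ⟨nat_lit 710, nat_lit 290, nat_lit 0, nat_lit 7, nat_lit 266, nat_lit 0, nat_lit 0, nat_lit 0, nat_lit 0, nat_lit 0, nat_lit 0, nat_lit 0, nat_lit 0, nat_lit 0, nat_lit 0, nat_lit 5000000, false, false⟩,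
 nat_lit 0, nat_lit 0, nat_lit 0, nat_lit 0, nat_lit 0, nat_lit 6172, nat_lit 69, nat_lit 0, nat_lit 416, nat_lit 1005, nat_lit 0, nat_lit 0, nat_lit 0, nat_lit 8809927362039, nat_lit 0, nat_lit 290000, nat_lit 0, nat_lit 0, [(nat_lit 12, [(nat_lit 2, nat_lit 290)]), (nat_lit 15, [(nat_lit 2, nat_lit 290)])],
 ⟨p017_k0, nat_lit 0, nat_lit 0, nat_lit 0, nat_lit 0, nat_lit 2036148, [nat_lit 3007428001, nat_lit 5001956000, nat_lit 6902560000], [], [nat_lit 12718028426, nat_lit 13845551625, nat_lit 20972352001, nat_lit 21499755625], nat_lit 1271250, nat_lit 1271250, nat_lit 382400, nat_lit 2957000, nat_lit 0, nat_lit 0, [nat_lit 780000, nat_lit 1435000, nat_lit 1271250], [nat_lit 8, nat_lit 40, nat_lit 80, nat_lit 80]⟩, ⟨p017_k0, nat_lit 0, nat_lit 0, nat_lit 219, nat_lit 0, nat_lit 0, [nat_lit 2330220000, nat_lit 4437500000, nat_lit 6987820000], [], [nat_lit 16056112421, nat_lit 19500089866, nat_lit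 30363181472, nat_lit 32372238912], nat_lit 0, nat_lit 0, nat_lit 0, nat_lit 0, nat_lit 0, nat_lit 0, [], [nat_lit 8, nat_lit 40, nat_lit 80, nat_lit 80, nat_lit 1, nat_lit 317, nat_lit 100, nat_lit 9]⟩,
 ⟨nat_lit 4472, nat_lit 5478, ⟨.ofNat (nat_lit 330579), .ofNat (nat_lit 959740), .ofNat (nat_lit 373223), .ofNat (nat_lit 1002365), .ofNat (nat_lit 355064), .ofNat (nat_lit 925804), .ofNat (nat_lit 398126), .ofNat (nat_lit 968848)⟩, ⟨.ofNat (nat_lit 0), .ofNat (nat_lit 0), .ofNat (nat_lit 0), .ofNat (nat_lit 0), .ofNat (nat_lit 0), .ofNat (nat_lit 0), .ofNat (nat_lit 0), .ofNat (nat_lit 0)⟩⟩, []⟩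
noncomputable def p017_l1 : Lf2 := ⟨nat_lit 0, nat_lit 10, [nat_lit 0, nat_lit 5, nat_lit 5, nat_lit 20], true, nat_lit 0, nat_lit 0, nat_lit 0, nat_lit 0, ⟨nat_lit 0, nat_lit 1000, nat_lit 0, nat_lit 7, nat_lit 151, nat_lit 0, nat_lit 0, nat_lit 0, nat_lit 0, nat_lit 0, nat_lit 0, nat_lit 0, nat_lit 0, nat_lit 0, nat_lit 0, nat_lit 5000000, false, false⟩,
 nat_lit 0, nat_lit 9637, nat_lit 0, nat_lit 0, nat_lit 6132, nat_lit 0, nat_lit 245, nat_lit 0, nat_lit 0, nat_lit 0, nat_lit 0, nat_lit 0, nat_lit 0, nat_lit 10622071813150, nat_lit 12, nat_lit 1000000, nat_lit 0, nat_lit 0, [(nat_lit 12, [(nat_lit 2, nat_lit 1000)]), (nat_lit 15, [(nat_lit 2, nat_lit 1000)])],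
 ⟨p017_k0, nat_lit 0, nat_lit 0, nat_lit 0, nat_lit 0, nat_lit 933666, [nat_lit 2479200001, nat_lit 2186400000, nat_lit 42000000], [], [nat_lit 17692117869, nat_lit 20011838867, nat_lit 17183101698, nat_lit 19233067312], nat_lit 1271250, nat_lit 1271250, nat_lit 382400, nat_lit 490000, nat_lit 0, nat_lit 0, [nat_lit 780000, nat_lit 1435000, nat_lit 1271250], [nat_lit 8, nat_lit 40, nat_lit 80, nat_lit 80]⟩, C1.Rw.none,
 ⟨nat_lit 4472, nat_lit 5478, ⟨.ofNat (nat_lit 330579), .ofNat (nat_lit 360546), .ofNat (nat_lit 373223), .ofNat (nat_lit 403182), .ofNat (nat_lit 355064), .ofNat (nat_lit 382248), .ofNat (nat_lit 398126), .ofNat (nat_lit 425304)⟩, ⟨.ofNat (nat_lit 0), .ofNat (nat_lit 0), .ofNat (nat_lit 0), .ofNat (nat_lit 0), .ofNat (nat_lit 0), .ofNat (nat_lit 0), .ofNat (nat_lit 0), .ofNat (nat_lit 0)⟩⟩, [⟨nat_lit 0, nat_lit 100, nat_lit 100, nat_lit 100, nat_lit 628379424⟩]⟩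
noncomputable def p017_l2 : Lf2 := ⟨nat_lit 0, nat_lit 10, [nat_lit 0, nat_lit 5, nat_lit 5, nat_lit 20], true, nat_lit 0, nat_lit 0, nat_lit 0, nat_lit 0, ⟨nat_lit 0, nat_lit 1000, nat_lit 0, nat_lit 7, nat_lit 164, nat_lit 0, nat_lit 0, nat_lit 0, nat_lit 0, nat_lit 0, nat_lit 0, nat_lit 0, nat_lit 0, nat_lit 0, nat_lit 0, nat_lit 5000000, false, false⟩,
 nat_lit 0, nat_lit 10873, nat_lit 0, nat_lit 0, nat_lit 6919, nat_lit 0, nat_lit 908, nat_lit 0, nat_lit 0, nat_lit 0, nat_lit 0, nat_lit 0, nat_lit 0, nat_lit 13900891894555, nat_lit 12, nat_lit 1000000, nat_lit 0, nat_lit 0, [(nat_lit 12, [(nat_lit 2, nat_lit 1000)]), (nat_lit 15, [(nat_lit 2, nat_lit 1000)])],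
 ⟨p017_k1, nat_lit 0, nat_lit 0, nat_lit 0, nat_lit 0, nat_lit 933666, [nat_lit 2136960000, nat_lit 2804400000, nat_lit 42000000], [], [nat_lit 16757761948, nat_lit 16729901096, nat_lit 16065191733, nat_lit 16742694490], nat_lit 1271250, nat_lit 1271250, nat_lit 490000, nat_lit 631250, nat_lit 0, nat_lit 0, [nat_lit 780000, nat_lit 1100000, nat_lit 2127500], [nat_lit 42, nat_lit 40, nat_lit 80, nat_lit 80]⟩, C1.Rw.none,
 ⟨nat_lit 4472, nat_lit 5478, ⟨.ofNat (nat_lit 360546), .ofNat (nat_lit 398004), .ofNat (nat_lit 403182), .ofNat (nat_lit 440631), .ofNat (nat_lit 382248), .ofNat (nat_lit 416229), .ofNat (nat_lit 425304), .ofNat (nat_lit 459275)⟩, ⟨.ofNat (nat_lit 0), .ofNat (nat_lit 0), .ofNat (nat_lit 0), .ofNat (nat_lit 0), .ofNat (nat_lit 0), .ofNat (nat_lit 0), .ofNat (nat_lit 0), .ofNat (nat_lit 0)⟩⟩, [⟨nat_lit 0, nat_lit 100, nat_lit 100, nat_lit 100, nat_lit 497081295⟩]⟩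
noncomputable def p017_l3 : Lf2 := ⟨nat_lit 0, nat_lit 10, [nat_lit 0, nat_lit 5, nat_lit 5, nat_lit 20], false, nat_lit 0, nat_lit 0, nat_lit 0, nat_lit 0, ⟨nat_lit 1000, nat_lit 0, nat_lit 0, nat_lit 0, nat_lit 0, nat_lit 0, nat_lit 0, nat_lit 0, nat_lit 0, nat_lit 0, nat_lit 0, nat_lit 0, nat_lit 0, nat_lit 0, nat_lit 0, nat_lit 0, false, false⟩,
 nat_lit 0, nat_lit 13103, nat_lit 0, nat_lit 0, nat_lit 8338, nat_lit 5336, nat_lit 1065, nat_lit 0, nat_lit 0, nat_lit 2187, nat_lit 0, nat_lit 0, nat_lit 0, nat_lit 3672698071808, nat_lit 0, nat_lit 0, nat_lit 0, nat_lit 0, [],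
 ⟨p017_k1, nat_lit 0, nat_lit 0, nat_lit 0, nat_lit 0, nat_lit 933666, [nat_lit 3282000000, nat_lit 4688000000, nat_lit 9842000000], [], [nat_lit 23615425986, nat_lit 25404378197, nat_lit 23710838502, nat_lit 25301425667], nat_lit 1271250, nat_lit 1271250, nat_lit 631250, nat_lit 719601, nat_lit 0, nat_lit 0, [nat_lit 780000, nat_lit 1100000, nat_lit 2127500], [nat_lit 42, nat_lit 40, nat_lit 80, nat_lit 80]⟩, ⟨p017_k1, nat_lit 0, nat_lit 0, nat_lit 0, nat_lit 0, nat_lit 0, [nat_lit 3282000000, nat_lit 4688000000, nat_lit 9842000000], [], [nat_lit 17561673683, nat_lit 20819262035, nat_lit 17639497303, nat_lit 20817813271], nat_lit 0, nat_lit 0, nat_lit 0, nat_lit 0, nat_lit 0, nat_lit 0, [], [nat_lit 42, nat_lit 40, nat_lit 80, nat_lit 80]⟩,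
 zbF0, [⟨nat_lit 0, nat_lit 100, nat_lit 100, nat_lit 100, nat_lit 527266987⟩]⟩
noncomputable def p017_l4 : Lf2 := ⟨nat_lit 0, nat_lit 10, [nat_lit 0, nat_lit 5, nat_lit 5, nat_lit 20], false, nat_lit 0, nat_lit 0, nat_lit 0, nat_lit 0, ⟨nat_lit 1000, nat_lit 0, nat_lit 0, nat_lit 0, nat_lit 0, nat_lit 0, nat_lit 0, nat_lit 0, nat_lit 0, nat_lit 0, nat_lit 0, nat_lit 0, nat_lit 0, nat_lit 0, nat_lit 0, nat_lit 0, false, false⟩,
 nat_lit 0, nat_lit 13088, nat_lit 0, nat_lit 0, nat_lit 8328, nat_lit 5362, nat_lit 1663, nat_lit 0, nat_lit 0, nat_lit 2195, nat_lit 0, nat_lit 0, nat_lit 0, nat_lit 4901509354769, nat_lit 0, nat_lit 0, nat_lit 0, nat_lit 0, [],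
 ⟨p017_k1, nat_lit 0, nat_lit 0, nat_lit 0, nat_lit 0, nat_lit 933666, [nat_lit 3282000000, nat_lit 4688000000, nat_lit 9842000000], [], [nat_lit 21081345812, nat_lit 22337656280, nat_lit 21092490062, nat_lit 22302884604], nat_lit 1271250, nat_lit 1271250, nat_lit 719601, nat_lit 749650, nat_lit 0, nat_lit 0, [nat_lit 780000, nat_lit 1100000, nat_lit 2127500], [nat_lit 42, nat_lit 40, nat_lit 80, nat_lit 80]⟩, ⟨p017_k1, nat_lit 0, nat_lit 0, nat_lit 0, nat_lit 0, nat_lit 0, [nat_lit 3282000000, nat_lit 4688000000, nat_lit 9842000000], [], [nat_lit 17579332818, nat_lit 20795597613, nat_lit 17604956237, nat_lit 20835445647], nat_lit 0, nat_lit 0, nat_lit 0, nat_lit 0, nat_lit 0, nat_lit 0, [], [nat_lit 42, nat_lit 40, nat_lit 80, nat_lit 80]⟩,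
 zbF0, [⟨nat_lit 0, nat_lit 100, nat_lit 100, nat_lit 100, nat_lit 499459538⟩]⟩
noncomputable def p017_l5 : Lf2 := ⟨nat_lit 0, nat_lit 10, [nat_lit 0, nat_lit 5, nat_lit 5, nat_lit 20], false, nat_lit 0, nat_lit 0, nat_lit 0, nat_lit 0, ⟨nat_lit 1000, nat_lit 0, nat_lit 0, nat_lit 0, nat_lit 0, nat_lit 0, nat_lit 0, nat_lit 0, nat_lit 0, nat_lit 0, nat_lit 0, nat_lit 0, nat_lit 0, nat_lit 0, nat_lit 0, nat_lit 0, false, false⟩,
 nat_lit 0, nat_lit 10833, nat_lit 0, nat_lit 0, nat_lit 6893, nat_lit 5902, nat_lit 1481, nat_lit 0, nat_lit 77, nat_lit 2327, nat_lit 0, nat_lit 0, nat_lit 0, nat_lit 0, nat_lit 0, nat_lit 0, nat_lit 0, nat_lit 0, [],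
 ⟨p017_k2, nat_lit 0, nat_lit 0, nat_lit 0, nat_lit 0, nat_lit 1442883, [nat_lit 3282000000, nat_lit 4688000000, nat_lit 8885500000], [], [nat_lit 18936980392, nat_lit 19112314058, nat_lit 18667264840, nat_lit 19112520542], nat_lit 1271250, nat_lit 1271250, nat_lit 749650, nat_lit 780000, nat_lit 0, nat_lit 0, [nat_lit 780000, nat_lit 1100000, nat_lit 1956250], [nat_lit 160, nat_lit 40, nat_lit 20, nat_lit 40]⟩, ⟨p017_k2, nat_lit 0, nat_lit 0, nat_lit 0, nat_lit 0, nat_lit 0, [nat_lit 3282000000, nat_lit 4688000000, nat_lit 8885500000], [], [nat_lit 16101841814, nat_lit 17001757213, nat_lit 16101965082, nat_lit 17037270156], nat_lit 0, nat_lit 0, nat_lit 0, nat_lit 0, nat_lit 0, nat_lit 0, [], [nat_lit 160, nat_lit 40, nat_lit 20, nat_lit 40]⟩,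
 zbF0, []⟩
noncomputable def p017_l6 : Lf2 := ⟨nat_lit 0, nat_lit 10, [nat_lit 0, nat_lit 5, nat_lit 5, nat_lit 20], false, nat_lit 0, nat_lit 0, nat_lit 0, nat_lit 0, ⟨nat_lit 1000, nat_lit 0, nat_lit 0, nat_lit 0, nat_lit 0, nat_lit 0, nat_lit 0, nat_lit 0, nat_lit 0, nat_lit 0, nat_lit 0, nat_lit 0, nat_lit 0, nat_lit 0, nat_lit 0, nat_lit 0, false, false⟩,
 nat_lit 0, nat_lit 10256, nat_lit 0, nat_lit 0, nat_lit 6811, nat_lit 5217, nat_lit 1399, nat_lit 0, nat_lit 74, nat_lit 2202, nat_lit 0, nat_lit 0, nat_lit 0, nat_lit 39166427109830, nat_lit 0, nat_lit 0, nat_lit 0, nat_lit 0, [],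
 ⟨p017_k3, nat_lit 0, nat_lit 0, nat_lit 0, nat_lit 0, nat_lit 1541566, [nat_lit 3282000000, nat_lit 4688000000, nat_lit 7968000000], [], [nat_lit 16697709324, nat_lit 17137987550, nat_lit 16701358552, nat_lit 17148204570], nat_lit 1271250, nat_lit 1271250, nat_lit 749650, nat_lit 780000, nat_lit 0, nat_lit 0, [nat_lit 780000, nat_lit 1100000, nat_lit 1785000], [nat_lit 36, nat_lit 40, nat_lit 80, nat_lit 80]⟩, ⟨p017_k1, nat_lit 0, nat_lit 0, nat_lit 0, nat_lit 0, nat_lit 0, [nat_lit 3282000000, nat_lit 4688000000, nat_lit 9842000000], [], [nat_lit 17684990785, nat_lit 19103484794, nat_lit 17712386480, nat_lit 19153882882], nat_lit 0, nat_lit 0, nat_lit 0, nat_lit 0, nat_lit 0, nat_lit 0, [], [nat_lit 42, nat_lit 40, nat_lit 80, nat_lit 80]⟩,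
 zbF0, []⟩
noncomputable def p017_l7 : Lf2 := ⟨nat_lit 0, nat_lit 10, [nat_lit 0, nat_lit 5, nat_lit 5, nat_lit 20], false, nat_lit 0, nat_lit 0, nat_lit 0, nat_lit 0, ⟨nat_lit 1000, nat_lit 0, nat_lit 0, nat_lit 0, nat_lit 0, nat_lit 0, nat_lit 0, nat_lit 0, nat_lit 0, nat_lit 0, nat_lit 0, nat_lit 0, nat_lit 0, nat_lit 0, nat_lit 0, nat_lit 0, false, false⟩,
 nat_lit 0, nat_lit 908, nat_lit 0, nat_lit 0, nat_lit 628, nat_lit 5371, nat_lit 557, nat_lit 0, nat_lit 402, nat_lit 2189, nat_lit 0, nat_lit 0, nat_lit 0, nat_lit 4665035269913, nat_lit 0, nat_lit 0, nat_lit 0, nat_lit 0, [],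
 ⟨p017_k4, nat_lit 0, nat_lit 0, nat_lit 0, nat_lit 0, nat_lit 1811977, [nat_lit 3282000000, nat_lit 4688000000, nat_lit 7968000000], [], [nat_lit 13495617919, nat_lit 14095339060, nat_lit 13564096248, nat_lit 14166482102], nat_lit 1271250, nat_lit 1271250, nat_lit 749650, nat_lit 780000, nat_lit 0, nat_lit 0, [nat_lit 780000, nat_lit 1100000, nat_lit 1785000], [nat_lit 36, nat_lit 40, nat_lit 80, nat_lit 80]⟩, ⟨p017_k1, nat_lit 0, nat_lit 0, nat_lit 0, nat_lit 0, nat_lit 0, [nat_lit 3282000000, nat_lit 4688000000, nat_lit 9842000000], [], [nat_lit 17627729200, nat_lit 20827670792, nat_lit 17653242615, nat_lit 20867424440], nat_lit 0, nat_lit 0, nat_lit 0, nat_lit 0, nat_lit 0, nat_lit 0, [], [nat_lit 42, nat_lit 40, nat_lit 80, nat_lit 80]⟩,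
 zbF0, []⟩
noncomputable def p017_l8 : Lf2 := ⟨nat_lit 0, nat_lit 10, [nat_lit 0, nat_lit 5, nat_lit 5, nat_lit 20], false, nat_lit 0, nat_lit 0, nat_lit 0, nat_lit 0, ⟨nat_lit 1000, nat_lit 0, nat_lit 0, nat_lit 0, nat_lit 0, nat_lit 0, nat_lit 0, nat_lit 0, nat_lit 0, nat_lit 0, nat_lit 0, nat_lit 0, nat_lit 0, nat_lit 0, nat_lit 0, nat_lit 0, false, false⟩,
 nat_lit 0, nat_lit 828, nat_lit 0, nat_lit 0, nat_lit 526, nat_lit 6487, nat_lit 658, nat_lit 0, nat_lit 422, nat_lit 2093, nat_lit 0, nat_lit 0, nat_lit 0, nat_lit 6726109136300, nat_lit 0, nat_lit 0, nat_lit 0, nat_lit 0, [],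
 ⟨p017_k5, nat_lit 0, nat_lit 0, nat_lit 0, nat_lit 0, nat_lit 1635209, [nat_lit 3282000000, nat_lit 3965500000, nat_lit 5449500000, nat_lit 8885500000], [], [nat_lit 13140382024, nat_lit 13655141632, nat_lit 20394487432, nat_lit 20922434180], nat_lit 1271250, nat_lit 1271250, nat_lit 780000, nat_lit 3072500, nat_lit 0, nat_lit 0, [nat_lit 780000, nat_lit 936250, nat_lit 1271250, nat_lit 1271250], [nat_lit 148, nat_lit 40, nat_lit 20, nat_lit 40]⟩, ⟨p017_k5, nat_lit 0, nat_lit 0, nat_lit 0, nat_lit 0, nat_lit 0, [nat_lit 3282000000, nat_lit 3965500000, nat_lit 5449500000, nat_lit 8885500000], [], [nat_lit 17312987662, nat_lit 19204709436, nat_lit 36992899992, nat_lit 38207935582], nat_lit 0, nat_lit 0, nat_lit 0, nat_lit 0, nat_lit 0, nat_lit 0, [], [nat_lit 148, nat_lit 40, nat_lit 20, nat_lit 40]⟩,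
 zbF0, []⟩
noncomputable def p017_l9 : Lf2 := ⟨nat_lit 0, nat_lit 10, [nat_lit 0, nat_lit 5, nat_lit 5, nat_lit 20], false, nat_lit 0, nat_lit 0, nat_lit 0, nat_lit 0, ⟨nat_lit 1000, nat_lit 0, nat_lit 0, nat_lit 0, nat_lit 0, nat_lit 0, nat_lit 0, nat_lit 0, nat_lit 0, nat_lit 0, nat_lit 0, nat_lit 0, nat_lit 0, nat_lit 0, nat_lit 0, nat_lit 0, false, false⟩,
 nat_lit 0, nat_lit 1000, nat_lit 0, nat_lit 0, nat_lit 692, nat_lit 6646, nat_lit 545, nat_lit 0, nat_lit 392, nat_lit 2130, nat_lit 0, nat_lit 0, nat_lit 0, nat_lit 4325611202906, nat_lit 0, nat_lit 0, nat_lit 0, nat_lit 0, [],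
 ⟨p017_k4, nat_lit 0, nat_lit 0, nat_lit 0, nat_lit 0, nat_lit 1811977, [nat_lit 3282000000, nat_lit 4688000000, nat_lit 7968000000], [], [nat_lit 14306457044, nat_lit 14854344510, nat_lit 21380109990, nat_lit 21931160752], nat_lit 1271250, nat_lit 1271250, nat_lit 780000, nat_lit 3072500, nat_lit 0, nat_lit 0, [nat_lit 780000, nat_lit 1100000, nat_lit 1785000], [nat_lit 36, nat_lit 40, nat_lit 80, nat_lit 80]⟩, ⟨p017_k1, nat_lit 0, nat_lit 0, nat_lit 0, nat_lit 0, nat_lit 0, [nat_lit 3282000000, nat_lit 4688000000, nat_lit 9842000000], [], [nat_lit 18776868670, nat_lit 21806083822, nat_lit 37408941936, nat_lit 39867814376], nat_lit 0, nat_lit 0, nat_lit 0, nat_lit 0, nat_lit 0, nat_lit 0, [], [nat_lit 42, nat_lit 40, nat_lit 80, nat_lit 80]⟩,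
 zbF0, []⟩
noncomputable def p017_l10 : Lf2 := ⟨nat_lit 2, nat_lit 10, [nat_lit 0, nat_lit 5, nat_lit 5, nat_lit 20], true, nat_lit 0, nat_lit 0, nat_lit 0, nat_lit 0, zbN0,
 nat_lit 0, nat_lit 0, nat_lit 0, nat_lit 0, nat_lit 0, nat_lit 0, nat_lit 0, nat_lit 0, nat_lit 0, nat_lit 0, nat_lit 0, nat_lit 0, nat_lit 0, nat_lit 0, nat_lit 0, nat_lit 0, nat_lit 0, nat_lit 0, [],
 ⟨p017_k1, nat_lit 0, nat_lit 0, nat_lit 567, nat_lit 0, nat_lit 657482, [], [], [], nat_lit 1271250, nat_lit 1271250, nat_lit 382400, nat_lit 490000, nat_lit 0, nat_lit 0, [nat_lit 780000, nat_lit 1100000, nat_lit 2127500], [nat_lit 42, nat_lit 40, nat_lit 80, nat_lit 80, nat_lit 13, nat_lit 226, nat_lit 20, nat_lit 7]⟩, C1.Rw.none,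
 zbF0, []⟩
noncomputable def p017_l11 : Lf2 := ⟨nat_lit 2, nat_lit 10, [nat_lit 0, nat_lit 5, nat_lit 5, nat_lit 20], true, nat_lit 0, nat_lit 0, nat_lit 0, nat_lit 0, zbN0,
 nat_lit 0, nat_lit 0, nat_lit 0, nat_lit 0, nat_lit 0, nat_lit 0, nat_lit 0, nat_lit 0, nat_lit 0, nat_lit 0, nat_lit 0, nat_lit 0, nat_lit 0, nat_lit 0, nat_lit 0, nat_lit 0, nat_lit 0, nat_lit 0, [],
 ⟨p017_k1, nat_lit 0, nat_lit 0, nat_lit 537, nat_lit 0, nat_lit 657482, [], [], [], nat_lit 1271250, nat_lit 1271250, nat_lit 490000, nat_lit 631250, nat_lit 0, nat_lit 0, [nat_lit 780000, nat_lit 1100000, nat_lit 2127500], [nat_lit 42, nat_lit 40, nat_lit 80, nat_lit 80, nat_lit 13, nat_lit 232, nat_lit 25, nat_lit 7]⟩, C1.Rw.none,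
 zbF0, []⟩
noncomputable def p017_l12 : Lf2 := ⟨nat_lit 0, nat_lit 5, [nat_lit 4, nat_lit 5, nat_lit 5, nat_lit 20], false, nat_lit 0, nat_lit 0, nat_lit 0, nat_lit 0, ⟨nat_lit 1000, nat_lit 0, nat_lit 0, nat_lit 0, nat_lit 0, nat_lit 0, nat_lit 0, nat_lit 0, nat_lit 0, nat_lit 0, nat_lit 0, nat_lit 0, nat_lit 0, nat_lit 0, nat_lit 0, nat_lit 0, false, false⟩,
 nat_lit 0, nat_lit 13349, nat_lit 0, nat_lit 0, nat_lit 8494, nat_lit 4616, nat_lit 1344, nat_lit 0, nat_lit 0, nat_lit 0, nat_lit 0, nat_lit 0, nat_lit 0, nat_lit 0, nat_lit 0, nat_lit 0, nat_lit 0, nat_lit 0, [],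
 ⟨p017_k6, nat_lit 0, nat_lit 0, nat_lit 754, nat_lit 0, nat_lit 1300408, [nat_lit 3282000000, nat_lit 4688000000, nat_lit 7968000000], [], [nat_lit 22165071414, nat_lit 22347046098, nat_lit 22025472748, nat_lit 22232073453], nat_lit 1271250, nat_lit 1271250, nat_lit 631250, nat_lit 780000, nat_lit 0, nat_lit 0, [nat_lit 780000, nat_lit 1100000, nat_lit 1785000], [nat_lit 36, nat_lit 40, nat_lit 80, nat_lit 80, nat_lit 7, nat_lit 240, nat_lit 30, nat_lit 8]⟩, ⟨p017_k7, nat_lit 0, nat_lit 0, nat_lit 0, nat_lit 0, nat_lit 0, [nat_lit 3282000000, nat_lit 3965500000, nat_lit 5449500000, nat_lit 7089500000], [], [nat_lit 13758717792, nat_lit 14287682908, nat_lit 13989851616, nat_lit 14504853216], nat_lit 0, nat_lit 0, nat_lit 0, nat_lit 0, nat_lit 0, nat_lit 0, [], [nat_lit 195, nat_lit 40, nat_lit 20, nat_lit 40]⟩,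
 zbF0, []⟩
noncomputable def p017_l13 : Lf2 := ⟨nat_lit 0, nat_lit 10, [nat_lit 0, nat_lit 5, nat_lit 5, nat_lit 20], false, nat_lit 0, nat_lit 0, nat_lit 0, nat_lit 0, ⟨nat_lit 1000, nat_lit 0, nat_lit 0, nat_lit 0, nat_lit 0, nat_lit 0, nat_lit 0, nat_lit 0, nat_lit 0, nat_lit 0, nat_lit 0, nat_lit 0, nat_lit 0, nat_lit 0, nat_lit 0, nat_lit 0, false, false⟩,
 nat_lit 0, nat_lit 16209, nat_lit 0, nat_lit 0, nat_lit 10314, nat_lit 5972, nat_lit 2113, nat_lit 108, nat_lit 0, nat_lit 2636, nat_lit 0, nat_lit 0, nat_lit 0, nat_lit 0, nat_lit 0, nat_lit 0, nat_lit 0, nat_lit 0, [],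
 ⟨p017_k1, nat_lit 0, nat_lit 0, nat_lit 703, nat_lit 0, nat_lit 1000155, [nat_lit 4578000000, nat_lit 6416000001, nat_lit 12866000000], [], [nat_lit 21295823865, nat_lit 21576269151, nat_lit 21144592005, nat_lit 21489731805], nat_lit 1271250, nat_lit 1271250, nat_lit 631250, nat_lit 780000, nat_lit 0, nat_lit 0, [nat_lit 780000, nat_lit 1100000, nat_lit 2127500], [nat_lit 42, nat_lit 40, nat_lit 80, nat_lit 80, nat_lit 13, nat_lit 238, nat_lit 30, nat_lit 7]⟩, ⟨p017_k5, nat_lit 0, nat_lit 0, nat_lit 0, nat_lit 0, nat_lit 0, [nat_lit 3282000000, nat_lit 3965500000, nat_lit 5449500000, nat_lit 8885500000], [], [nat_lit 15119458568, nat_lit 15581649960, nat_lit 15176434800, nat_lit 15686394576], nat_lit 0, nat_lit 0, nat_lit 0, nat_lit 0, nat_lit 0, nat_lit 0, [], [nat_lit 148, nat_lit 40, nat_lit 20, nat_lit 40]⟩,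
 zbF0, []⟩
noncomputable def p017_l14 : Lf2 := ⟨nat_lit 0, nat_lit 10, [nat_lit 0, nat_lit 5, nat_lit 5, nat_lit 20], false, nat_lit 0, nat_lit 0, nat_lit 0, nat_lit 0, ⟨nat_lit 1000, nat_lit 0, nat_lit 0, nat_lit 0, nat_lit 0, nat_lit 0, nat_lit 0, nat_lit 0, nat_lit 0, nat_lit 0, nat_lit 0, nat_lit 0, nat_lit 0, nat_lit 0, nat_lit 0, nat_lit 0, false, false⟩,
 nat_lit 0, nat_lit 12742, nat_lit 0, nat_lit 0, nat_lit 8108, nat_lit 6537, nat_lit 1422, nat_lit 0, nat_lit 0, nat_lit 3050, nat_lit 0, nat_lit 0, nat_lit 0, nat_lit 0, nat_lit 0, nat_lit 0, nat_lit 0, nat_lit 0, [],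
 ⟨p017_k1, nat_lit 0, nat_lit 0, nat_lit 831, nat_lit 0, nat_lit 1311994, [nat_lit 3282000000, nat_lit 4688000000, nat_lit 9842000000], [], [nat_lit 24214394150, nat_lit 24308839670, nat_lit 30034657408, nat_lit 30121792802], nat_lit 1271250, nat_lit 1271250, nat_lit 780000, nat_lit 3072500, nat_lit 0, nat_lit 0, [nat_lit 780000, nat_lit 1100000, nat_lit 2127500], [nat_lit 42, nat_lit 40, nat_lit 80, nat_lit 80, nat_lit 13, nat_lit 317, nat_lit 100, nat_lit 9]⟩, ⟨p017_k5, nat_lit 0, nat_lit 0, nat_lit 0, nat_lit 0, nat_lit 0, [nat_lit 3282000000, nat_lit 3965500000, nat_lit 5449500000, nat_lit 8885500000], [], [nat_lit 15477417224, nat_lit 15741065574, nat_lit 37123730792, nat_lit 37306665406], nat_lit 0, nat_lit 0, nat_lit 0, nat_lit 0, nat_lit 0, nat_lit 0, [], [nat_lit 148, nat_lit 40, nat_lit 20, nat_lit 40]⟩,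
 zbF0, []⟩
noncomputable def p017_l15 : Lf2 := ⟨nat_lit 0, nat_lit 10, [nat_lit 0, nat_lit 5, nat_lit 5, nat_lit 20], false, nat_lit 0, nat_lit 0, nat_lit 0, nat_lit 0, ⟨nat_lit 1000, nat_lit 0, nat_lit 0, nat_lit 0, nat_lit 0, nat_lit 0, nat_lit 0, nat_lit 0, nat_lit 0, nat_lit 0, nat_lit 0, nat_lit 0, nat_lit 0, nat_lit 0, nat_lit 0, nat_lit 0, false, false⟩,
 nat_lit 0, nat_lit 12162, nat_lit 0, nat_lit 0, nat_lit 7840, nat_lit 6662, nat_lit 1744, nat_lit 0, nat_lit 0, nat_lit 2504, nat_lit 0, nat_lit 0, nat_lit 0, nat_lit 50706783193611, nat_lit 0, nat_lit 0, nat_lit 0, nat_lit 0, [],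
 ⟨p017_k8, nat_lit 0, nat_lit 0, nat_lit 841, nat_lit 0, nat_lit 1325100, [nat_lit 3282000000, nat_lit 4688000000, nat_lit 9842000000], [], [nat_lit 24216370600, nat_lit 24286583480, nat_lit 29848886368, nat_lit 29906474720], nat_lit 1271250, nat_lit 1271250, nat_lit 780000, nat_lit 3072500, nat_lit 0, nat_lit 0, [nat_lit 780000, nat_lit 1100000, nat_lit 2127500], [nat_lit 42, nat_lit 40, nat_lit 80, nat_lit 80, nat_lit 13, nat_lit 317, nat_lit 100, nat_lit 9]⟩, ⟨p017_k5, nat_lit 0, nat_lit 0, nat_lit 0, nat_lit 0, nat_lit 0, [nat_lit 3282000000, nat_lit 3965500000, nat_lit 5449500000, nat_lit 8885500000], [], [nat_lit 15687286224, nat_lit 16132171453, nat_lit 37450807792, nat_lit 37758529127], nat_lit 0, nat_lit 0, nat_lit 0, nat_lit 0, nat_lit 0, nat_lit 0, [], [nat_lit 148, nat_lit 40, nat_lit 20, nat_lit 40]⟩,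
 zbF0, []⟩
noncomputable def p017_l16 : Lf2 := ⟨nat_lit 2, nat_lit 10, [nat_lit 0, nat_lit 5, nat_lit 5, nat_lit 20], true, nat_lit 0, nat_lit 0, nat_lit 0, nat_lit 0, zbN0,
 nat_lit 0, nat_lit 0, nat_lit 0, nat_lit 0, nat_lit 0, nat_lit 0, nat_lit 0, nat_lit 0, nat_lit 0, nat_lit 0, nat_lit 0, nat_lit 0, nat_lit 0, nat_lit 0, nat_lit 0, nat_lit 0, nat_lit 0, nat_lit 0, [],
 ⟨p017_k9, nat_lit 0, nat_lit 0, nat_lit 572, nat_lit 0, nat_lit 680795, [], [], [], nat_lit 1271250, nat_lit 1271250, nat_lit 408851, nat_lit 631250, nat_lit 0, nat_lit 0, [nat_lit 780000, nat_lit 1100000, nat_lit 2127500], [nat_lit 42, nat_lit 40, nat_lit 80, nat_lit 80, nat_lit 13, nat_lit 232, nat_lit 25, nat_lit 7]⟩, C1.Rw.none,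
 zbF0, []⟩
noncomputable def p017_l17 : Lf2 := ⟨nat_lit 0, nat_lit 10, [nat_lit 0, nat_lit 5, nat_lit 5, nat_lit 20], false, nat_lit 0, nat_lit 0, nat_lit 0, nat_lit 0, ⟨nat_lit 1000, nat_lit 0, nat_lit 0, nat_lit 0, nat_lit 0, nat_lit 0, nat_lit 0, nat_lit 0, nat_lit 0, nat_lit 0, nat_lit 0, nat_lit 0, nat_lit 0, nat_lit 0, nat_lit 0, nat_lit 0, false, false⟩,
 nat_lit 0, nat_lit 14770, nat_lit 0, nat_lit 0, nat_lit 9603, nat_lit 5926, nat_lit 2640, nat_lit 0, nat_lit 0, nat_lit 2612, nat_lit 0, nat_lit 0, nat_lit 0, nat_lit 61111929380049, nat_lit 0, nat_lit 0, nat_lit 0, nat_lit 0, [],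
 ⟨p017_k9, nat_lit 0, nat_lit 0, nat_lit 863, nat_lit 0, nat_lit 1364187, [nat_lit 3282000000, nat_lit 4688000000, nat_lit 9842000000], [], [nat_lit 12498472148, nat_lit 12636949818, nat_lit 12347333373, nat_lit 12534491992], nat_lit 1271250, nat_lit 1271250, nat_lit 631250, nat_lit 780000, nat_lit 0, nat_lit 0, [nat_lit 780000, nat_lit 1100000, nat_lit 2127500], [nat_lit 42, nat_lit 40, nat_lit 80, nat_lit 80, nat_lit 13, nat_lit 267, nat_lit 30, nat_lit 8]⟩, ⟨p017_k5, nat_lit 0, nat_lit 0, nat_lit 0, nat_lit 0, nat_lit 0, [nat_lit 3282000000, nat_lit 3965500000, nat_lit 5449500000, nat_lit 8885500000], [], [nat_lit 15212670144, nat_lit 15948736602, nat_lit 15258067400, nat_lit 16047256189], nat_lit 0, nat_lit 0, nat_lit 0, nat_lit 0, nat_lit 0, nat_lit 0, [], [nat_lit 148, nat_lit 40, nat_lit 20, nat_lit 40]⟩,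
 zbF0, []⟩
noncomputable def p017_l18 : Lf2 := ⟨nat_lit 0, nat_lit 10, [nat_lit 0, nat_lit 5, nat_lit 5, nat_lit 20], false, nat_lit 0, nat_lit 0, nat_lit 0, nat_lit 0, ⟨nat_lit 1000, nat_lit 0, nat_lit 0, nat_lit 0, nat_lit 0, nat_lit 0, nat_lit 0, nat_lit 0, nat_lit 0, nat_lit 0, nat_lit 0, nat_lit 0, nat_lit 0, nat_lit 0, nat_lit 0, nat_lit 0, false, false⟩,
 nat_lit 0, nat_lit 14049, nat_lit 0, nat_lit 0, nat_lit 9251, nat_lit 5896, nat_lit 2378, nat_lit 0, nat_lit 0, nat_lit 2596, nat_lit 0, nat_lit 0, nat_lit 0, nat_lit 0, nat_lit 0, nat_lit 0, nat_lit 0, nat_lit 0, [],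
 ⟨p017_k10, nat_lit 0, nat_lit 0, nat_lit 782, nat_lit 0, nat_lit 1376381, [nat_lit 3282000000, nat_lit 4688000000, nat_lit 7968000000], [], [nat_lit 12544978945, nat_lit 12657878572, nat_lit 12474675301, nat_lit 12610095125], nat_lit 1271250, nat_lit 1271250, nat_lit 631250, nat_lit 780000, nat_lit 0, nat_lit 0, [nat_lit 780000, nat_lit 1100000, nat_lit 1785000], [nat_lit 36, nat_lit 40, nat_lit 80, nat_lit 80, nat_lit 7, nat_lit 247, nat_lit 30, nat_lit 8]⟩, ⟨p017_k5, nat_lit 0, nat_lit 0, nat_lit 0, nat_lit 0, nat_lit 0, [nat_lit 3282000000, nat_lit 3965500000, nat_lit 5449500000, nat_lit 8885500000], [], [nat_lit 15274866824, nat_lit 16192145736, nat_lit 15311610400, nat_lit 16285874496], nat_lit 0, nat_lit 0, nat_lit 0, nat_lit 0, nat_lit 0, nat_lit 0, [], [nat_lit 148, nat_lit 40, nat_lit 20, nat_lit 40]⟩,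
 zbF0, []⟩
noncomputable def p017_l19 : Lf2 := ⟨nat_lit 0, nat_lit 10, [nat_lit 0, nat_lit 5, nat_lit 5, nat_lit 20], false, nat_lit 0, nat_lit 0, nat_lit 0, nat_lit 0, ⟨nat_lit 1000, nat_lit 0, nat_lit 0, nat_lit 0, nat_lit 0, nat_lit 0, nat_lit 0, nat_lit 0, nat_lit 0, nat_lit 0, nat_lit 0, nat_lit 0, nat_lit 0, nat_lit 0, nat_lit 0, nat_lit 0, false, false⟩,
 nat_lit 0, nat_lit 13039, nat_lit 0, nat_lit 0, nat_lit 8477, nat_lit 6228, nat_lit 2394, nat_lit 0, nat_lit 0, nat_lit 2221, nat_lit 0, nat_lit 0, nat_lit 0, nat_lit 0, nat_lit 0, nat_lit 0, nat_lit 0, nat_lit 0, [],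
 ⟨p017_k9, nat_lit 0, nat_lit 0, nat_lit 868, nat_lit 0, nat_lit 1400729, [nat_lit 3282000000, nat_lit 4688000000, nat_lit 9842000000], [], [nat_lit 18445617759, nat_lit 18600974461, nat_lit 26175038116, nat_lit 26321991430], nat_lit 1271250, nat_lit 1271250, nat_lit 780000, nat_lit 3072500, nat_lit 0, nat_lit 0, [nat_lit 780000, nat_lit 1100000, nat_lit 2127500], [nat_lit 42, nat_lit 40, nat_lit 80, nat_lit 80, nat_lit 13, nat_lit 317, nat_lit 100, nat_lit 9]⟩, ⟨p017_k5, nat_lit 0, nat_lit 0, nat_lit 0, nat_lit 0, nat_lit 0, [nat_lit 3282000000, nat_lit 3965500000, nat_lit 5449500000, nat_lit 8885500000], [], [nat_lit 16864994056, nat_lit 17718155420, nat_lit 36315196448, nat_lit 36910985428], nat_lit 0, nat_lit 0, nat_lit 0, nat_lit 0, nat_lit 0, nat_lit 0, [], [nat_lit 148, nat_lit 40, nat_lit 20, nat_lit 40]⟩,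
 zbF0, []⟩
noncomputable def p017_l20 : Lf2 := ⟨nat_lit 0, nat_lit 10, [nat_lit 0, nat_lit 5, nat_lit 5, nat_lit 20], false, nat_lit 0, nat_lit 0, nat_lit 0, nat_lit 0, ⟨nat_lit 1000, nat_lit 0, nat_lit 0, nat_lit 0, nat_lit 0, nat_lit 0, nat_lit 0, nat_lit 0, nat_lit 0, nat_lit 0, nat_lit 0, nat_lit 0, nat_lit 0, nat_lit 0, nat_lit 0, nat_lit 0, false, false⟩,
 nat_lit 0, nat_lit 57233, nat_lit 0, nat_lit 0, nat_lit 36421, nat_lit 100000, nat_lit 3442, nat_lit 1362, nat_lit 0, nat_lit 18178, nat_lit 7623, nat_lit 0, nat_lit 0, nat_lit 398820763065864, nat_lit 0, nat_lit 0, nat_lit 0, nat_lit 0, [],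
 ⟨p017_k1, nat_lit 0, nat_lit 0, nat_lit 909, nat_lit 0, nat_lit 1442883, [nat_lit 19626000001, nat_lit 26480000000, nat_lit 47978000000], [], [nat_lit 48832121878, nat_lit 49347874336, nat_lit 47142449454, nat_lit 47390737140], nat_lit 1271250, nat_lit 1271250, nat_lit 382400, nat_lit 2957000, nat_lit 0, nat_lit 0, [nat_lit 780000, nat_lit 1100000, nat_lit 2127500], [nat_lit 42, nat_lit 40, nat_lit 80, nat_lit 80, nat_lit 13, nat_lit 317, nat_lit 100, nat_lit 9]⟩, ⟨p017_k1, nat_lit 0, nat_lit 0, nat_lit 0, nat_lit 0, nat_lit 0, [nat_lit 94758000000, nat_lit 126656000000, nat_lit 223286000000], [], [nat_lit 226126408051, nat_lit 232668136850, nat_lit 262130824000, nat_lit 265381791000], nat_lit 0, nat_lit 0, nat_lit 0, nat_lit 0, nat_lit 0, nat_lit 0, [], [nat_lit 42, nat_lit 40, nat_lit 80, nat_lit 80]⟩,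
 zbF0, []⟩
noncomputable def p017_l21 : Lf2 := ⟨nat_lit 0, nat_lit 10, [nat_lit 0, nat_lit 5, nat_lit 5, nat_lit 20], false, nat_lit 0, nat_lit 0, nat_lit 0, nat_lit 0, ⟨nat_lit 1000, nat_lit 0, nat_lit 0, nat_lit 0, nat_lit 0, nat_lit 0, nat_lit 0, nat_lit 0, nat_lit 0, nat_lit 0, nat_lit 0, nat_lit 0, nat_lit 0, nat_lit 0, nat_lit 0, nat_lit 0, false, false⟩,
 nat_lit 0, nat_lit 13129, nat_lit 0, nat_lit 0, nat_lit 8719, nat_lit 4215, nat_lit 2537, nat_lit 0, nat_lit 0, nat_lit 2076, nat_lit 0, nat_lit 0, nat_lit 0, nat_lit 0, nat_lit 0, nat_lit 0, nat_lit 0, nat_lit 0, [],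
 ⟨p017_k3, nat_lit 0, nat_lit 0, nat_lit 807, nat_lit 0, nat_lit 1399539, [nat_lit 3282000000, nat_lit 4688000000, nat_lit 7968000000], [], [nat_lit 13509682122, nat_lit 13738885829, nat_lit 12967341496, nat_lit 13284477023], nat_lit 1271250, nat_lit 1271250, nat_lit 435600, nat_lit 780000, nat_lit 0, nat_lit 0, [nat_lit 780000, nat_lit 1100000, nat_lit 1785000], [nat_lit 36, nat_lit 40, nat_lit 80, nat_lit 80, nat_lit 7, nat_lit 254, nat_lit 30, nat_lit 8]⟩, ⟨p017_k11, nat_lit 0, nat_lit 0, nat_lit 0, nat_lit 0, nat_lit 0, [nat_lit 2032000000, nat_lit 3282000000, nat_lit 4688000000, nat_lit 7968000000, nat_lit 8885500000], [], [nat_lit 16644444700, nat_lit 17440294560, nat_lit 16735742480, nat_lit 17489441640], nat_lit 0, nat_lit 0, nat_lit 0, nat_lit 0, nat_lit 0, nat_lit 0, [], [nat_lit 223, nat_lit 10, nat_lit 4, nat_lit 20]⟩,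
 zbF0, [⟨nat_lit 0, nat_lit 100, nat_lit 99, nat_lit 92, nat_lit 636304443⟩]⟩
noncomputable def p017_l22 : Lf2 := ⟨nat_lit 0, nat_lit 10, [nat_lit 0, nat_lit 5, nat_lit 5, nat_lit 20], false, nat_lit 0, nat_lit 0, nat_lit 0, nat_lit 0, ⟨nat_lit 1000, nat_lit 0, nat_lit 0, nat_lit 0, nat_lit 0, nat_lit 0, nat_lit 0, nat_lit 0, nat_lit 0, nat_lit 0, nat_lit 0, nat_lit 0, nat_lit 0, nat_lit 0, nat_lit 0, nat_lit 0, false, false⟩,
 nat_lit 0, nat_lit 13347, nat_lit 0, nat_lit 0, nat_lit 9051, nat_lit 5834, nat_lit 2179, nat_lit 17, nat_lit 0, nat_lit 2482, nat_lit 0, nat_lit 0, nat_lit 0, nat_lit 0, nat_lit 0, nat_lit 0, nat_lit 0, nat_lit 0, [],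
 ⟨p017_k12, nat_lit 0, nat_lit 0, nat_lit 801, nat_lit 0, nat_lit 1398931, [nat_lit 3486000000, nat_lit 4960000000, nat_lit 8376000000], [], [nat_lit 12093208684, nat_lit 12324298657, nat_lit 11785215619, nat_lit 12015951495], nat_lit 1271250, nat_lit 1271250, nat_lit 462650, nat_lit 780000, nat_lit 0, nat_lit 0, [nat_lit 780000, nat_lit 1100000, nat_lit 1785000], [nat_lit 36, nat_lit 40, nat_lit 80, nat_lit 80, nat_lit 7, nat_lit 253, nat_lit 30, nat_lit 8]⟩, ⟨p017_k1, nat_lit 0, nat_lit 0, nat_lit 0, nat_lit 0, nat_lit 0, [nat_lit 3282000000, nat_lit 4688000000, nat_lit 9842000000], [], [nat_lit 16407058598, nat_lit 17292438109, nat_lit 16505966568, nat_lit 17495123866], nat_lit 0, nat_lit 0, nat_lit 0, nat_lit 0, nat_lit 0, nat_lit 0, [], [nat_lit 42, nat_lit 40, nat_lit 80, nat_lit 80]⟩,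
 zbF0, [⟨nat_lit 0, nat_lit 100, nat_lit 97, nat_lit 94, nat_lit 612061105⟩]⟩
noncomputable def p017_l23 : Lf2 := ⟨nat_lit 0, nat_lit 10, [nat_lit 0, nat_lit 5, nat_lit 5, nat_lit 20], false, nat_lit 0, nat_lit 0, nat_lit 0, nat_lit 0, ⟨nat_lit 1000, nat_lit 0, nat_lit 0, nat_lit 0, nat_lit 0, nat_lit 0, nat_lit 0, nat_lit 0, nat_lit 0, nat_lit 0, nat_lit 0, nat_lit 0, nat_lit 0, nat_lit 0, nat_lit 0, nat_lit 0, false, false⟩,
 nat_lit 0, nat_lit 12800, nat_lit 0, nat_lit 0, nat_lit 8500, nat_lit 5777, nat_lit 2577, nat_lit 0, nat_lit 0, nat_lit 1914, nat_lit 0, nat_lit 0, nat_lit 0, nat_lit 0, nat_lit 0, nat_lit 0, nat_lit 0, nat_lit 0, [],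
 ⟨p017_k3, nat_lit 0, nat_lit 0, nat_lit 799, nat_lit 0, nat_lit 1439539, [nat_lit 3282000000, nat_lit 4688000000, nat_lit 7968000000], [], [nat_lit 13925936500, nat_lit 14320903375, nat_lit 23747732750, nat_lit 24115767250], nat_lit 1271250, nat_lit 1271250, nat_lit 780000, nat_lit 3072500, nat_lit 0, nat_lit 0, [nat_lit 780000, nat_lit 1100000, nat_lit 1785000], [nat_lit 36, nat_lit 40, nat_lit 80, nat_lit 80, nat_lit 7, nat_lit 317, nat_lit 100, nat_lit 10]⟩, ⟨p017_k5, nat_lit 0, nat_lit 0, nat_lit 0, nat_lit 0, nat_lit 0, [nat_lit 3282000000, nat_lit 3965500000, nat_lit 5449500000, nat_lit 8885500000], [], [nat_lit 18100133704, nat_lit 18915833655, nat_lit 35135102632, nat_lit 35710468077], nat_lit 0, nat_lit 0, nat_lit 0, nat_lit 0, nat_lit 0, nat_lit 0, [], [nat_lit 148, nat_lit 40, nat_lit 20, nat_lit 40]⟩,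
 zbF0, []⟩
noncomputable def p017_l24 : Lf2 := ⟨nat_lit 0, nat_lit 10, [nat_lit 0, nat_lit 5, nat_lit 5, nat_lit 20], false, nat_lit 0, nat_lit 0, nat_lit 0, nat_lit 0, ⟨nat_lit 1000, nat_lit 0, nat_lit 0, nat_lit 0, nat_lit 0, nat_lit 0, nat_lit 0, nat_lit 0, nat_lit 0, nat_lit 0, nat_lit 0, nat_lit 0, nat_lit 0, nat_lit 0, nat_lit 0, nat_lit 0, false, false⟩,
 nat_lit 0, nat_lit 13167, nat_lit 0, nat_lit 0, nat_lit 8744, nat_lit 5654, nat_lit 2538, nat_lit 0, nat_lit 0, nat_lit 2137, nat_lit 0, nat_lit 0, nat_lit 0, nat_lit 0, nat_lit 0, nat_lit 0, nat_lit 0, nat_lit 0, [],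
 ⟨p017_k3, nat_lit 0, nat_lit 0, nat_lit 838, nat_lit 0, nat_lit 1450387, [nat_lit 3282000000, nat_lit 4688000000, nat_lit 7968000000], [], [nat_lit 13073820590, nat_lit 13301359646, nat_lit 12865499878, nat_lit 13192833204], nat_lit 1271250, nat_lit 1271250, nat_lit 490000, nat_lit 780000, nat_lit 0, nat_lit 0, [nat_lit 780000, nat_lit 1100000, nat_lit 1785000], [nat_lit 36, nat_lit 40, nat_lit 80, nat_lit 80, nat_lit 7, nat_lit 262, nat_lit 30, nat_lit 9]⟩, ⟨p017_k3, nat_lit 0, nat_lit 0, nat_lit 0, nat_lit 0, nat_lit 0, [nat_lit 3282000000, nat_lit 4688000000, nat_lit 7968000000], [], [nat_lit 16492963771, nat_lit 16977785996, nat_lit 16727799417, nat_lit 17186141590], nat_lit 0, nat_lit 0, nat_lit 0, nat_lit 0, nat_lit 0, nat_lit 0, [], [nat_lit 36, nat_lit 40, nat_lit 80, nat_lit 80]⟩,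
 zbF0, [⟨nat_lit 0, nat_lit 100, nat_lit 100, nat_lit 95, nat_lit 567285418⟩]⟩
noncomputable def p017_l25 : Lf2 := ⟨nat_lit 0, nat_lit 10, [nat_lit 0, nat_lit 5, nat_lit 5, nat_lit 20], false, nat_lit 0, nat_lit 0, nat_lit 0, nat_lit 0, ⟨nat_lit 1000, nat_lit 0, nat_lit 0, nat_lit 0, nat_lit 0, nat_lit 0, nat_lit 0, nat_lit 0, nat_lit 0, nat_lit 0, nat_lit 0, nat_lit 0, nat_lit 0, nat_lit 0, nat_lit 0, nat_lit 0, false, false⟩,
 nat_lit 0, nat_lit 13423, nat_lit 0, nat_lit 0, nat_lit 9102, nat_lit 5424, nat_lit 2433, nat_lit 0, nat_lit 0, nat_lit 2350, nat_lit 0, nat_lit 0, nat_lit 0, nat_lit 36401050077005, nat_lit 0, nat_lit 0, nat_lit 0, nat_lit 0, [],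
 ⟨p017_k12, nat_lit 0, nat_lit 0, nat_lit 855, nat_lit 0, nat_lit 1497936, [nat_lit 3282000000, nat_lit 4688000000, nat_lit 7968000000], [], [nat_lit 9550591777, nat_lit 9793826709, nat_lit 9430402487, nat_lit 9659791976], nat_lit 1271250, nat_lit 1271250, nat_lit 517650, nat_lit 780000, nat_lit 0, nat_lit 0, [nat_lit 780000, nat_lit 1100000, nat_lit 1785000], [nat_lit 36, nat_lit 40, nat_lit 80, nat_lit 80, nat_lit 7, nat_lit 267, nat_lit 30, nat_lit 9]⟩, ⟨p017_k3, nat_lit 0, nat_lit 0, nat_lit 0, nat_lit 0, nat_lit 0, [nat_lit 3282000000, nat_lit 4688000000, nat_lit 7968000000], [], [nat_lit 16369855562, nat_lit 17366369263, nat_lit 16874405026, nat_lit 17820329054], nat_lit 0, nat_lit 0, nat_lit 0, nat_lit 0, nat_lit 0, nat_lit 0, [], [nat_lit 36, nat_lit 40, nat_lit 80, nat_lit 80]⟩,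
 zbF0, [⟨nat_lit 0, nat_lit 100, nat_lit 100, nat_lit 100, nat_lit 525516423⟩]⟩
noncomputable def p017_l26 : Lf2 := ⟨nat_lit 0, nat_lit 10, [nat_lit 0, nat_lit 5, nat_lit 5, nat_lit 20], false, nat_lit 0, nat_lit 0, nat_lit 0, nat_lit 0, ⟨nat_lit 1000, nat_lit 0, nat_lit 0, nat_lit 0, nat_lit 0, nat_lit 0, nat_lit 0, nat_lit 0, nat_lit 0, nat_lit 0, nat_lit 0, nat_lit 0, nat_lit 0, nat_lit 0, nat_lit 0, nat_lit 0, false, false⟩,
 nat_lit 0, nat_lit 12756, nat_lit 0, nat_lit 0, nat_lit 8471, nat_lit 5797, nat_lit 2585, nat_lit 0, nat_lit 0, nat_lit 1932, nat_lit 0, nat_lit 0, nat_lit 0, nat_lit 50284928730364, nat_lit 0, nat_lit 0, nat_lit 0, nat_lit 0, [],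
 ⟨p017_k3, nat_lit 0, nat_lit 0, nat_lit 805, nat_lit 0, nat_lit 1450387, [nat_lit 3282000000, nat_lit 4688000000, nat_lit 7968000000], [], [nat_lit 14061469209, nat_lit 14229674778, nat_lit 23822527815, nat_lit 24006307860], nat_lit 1271250, nat_lit 1271250, nat_lit 780000, nat_lit 3072500, nat_lit 0, nat_lit 0, [nat_lit 780000, nat_lit 1100000, nat_lit 1785000], [nat_lit 36, nat_lit 40, nat_lit 80, nat_lit 80, nat_lit 7, nat_lit 317, nat_lit 100, nat_lit 10]⟩, ⟨p017_k3, nat_lit 0, nat_lit 0, nat_lit 0, nat_lit 0, nat_lit 0, [nat_lit 3282000000, nat_lit 4688000000, nat_lit 7968000000], [], [nat_lit 18893484946, nat_lit 19239703949, nat_lit 35763706097, nat_lit 36051841670], nat_lit 0, nat_lit 0, nat_lit 0, nat_lit 0, nat_lit 0, nat_lit 0, [], [nat_lit 36, nat_lit 40, nat_lit 80, nat_lit 80]⟩,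
 zbF0, []⟩
noncomputable def p017_l27 : Lf2 := ⟨nat_lit 0, nat_lit 10, [nat_lit 0, nat_lit 5, nat_lit 5, nat_lit 20], false, nat_lit 0, nat_lit 0, nat_lit 0, nat_lit 0, ⟨nat_lit 1000, nat_lit 0, nat_lit 0, nat_lit 0, nat_lit 0, nat_lit 0, nat_lit 0, nat_lit 0, nat_lit 0, nat_lit 0, nat_lit 0, nat_lit 0, nat_lit 0, nat_lit 0, nat_lit 0, nat_lit 0, false, false⟩,
 nat_lit 0, nat_lit 11305, nat_lit 0, nat_lit 0, nat_lit 7666, nat_lit 6280, nat_lit 2037, nat_lit 0, nat_lit 0, nat_lit 1936, nat_lit 0, nat_lit 0, nat_lit 0, nat_lit 44656388977386, nat_lit 0, nat_lit 0, nat_lit 0, nat_lit 0, [],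
 ⟨p017_k12, nat_lit 0, nat_lit 0, nat_lit 841, nat_lit 0, nat_lit 1497936, [nat_lit 3282000000, nat_lit 4688000000, nat_lit 7968000000], [], [nat_lit 18500525814, nat_lit 18672156488, nat_lit 25822377537, nat_lit 25999573084], nat_lit 1271250, nat_lit 1271250, nat_lit 780000, nat_lit 3072500, nat_lit 0, nat_lit 0, [nat_lit 780000, nat_lit 1100000, nat_lit 1785000], [nat_lit 36, nat_lit 40, nat_lit 80, nat_lit 80, nat_lit 7, nat_lit 317, nat_lit 100, nat_lit 10]⟩, ⟨p017_k3, nat_lit 0, nat_lit 0, nat_lit 0, nat_lit 0, nat_lit 0, [nat_lit 3282000000, nat_lit 4688000000, nat_lit 7968000000], [], [nat_lit 17973687920, nat_lit 18699009920, nat_lit 37049404280, nat_lit 37647548080], nat_lit 0, nat_lit 0, nat_lit 0, nat_lit 0, nat_lit 0, nat_lit 0, [], [nat_lit 36, nat_lit 40, nat_lit 80, nat_lit 80]⟩,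
 zbF0, []⟩
noncomputable def p017_l28 : Lf2 := ⟨nat_lit 0, nat_lit 10, [nat_lit 0, nat_lit 5, nat_lit 5, nat_lit 20], false, nat_lit 0, nat_lit 0, nat_lit 0, nat_lit 0, ⟨nat_lit 1000, nat_lit 0, nat_lit 0, nat_lit 0, nat_lit 0, nat_lit 0, nat_lit 0, nat_lit 0, nat_lit 0, nat_lit 0, nat_lit 0, nat_lit 0, nat_lit 0, nat_lit 0, nat_lit 0, nat_lit 0, false, false⟩,
 nat_lit 0, nat_lit 12509, nat_lit 0, nat_lit 0, nat_lit 8660, nat_lit 5607, nat_lit 2003, nat_lit 0, nat_lit 0, nat_lit 2398, nat_lit 0, nat_lit 0, nat_lit 0, nat_lit 0, nat_lit 0, nat_lit 0, nat_lit 0, nat_lit 0, [],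
 ⟨p017_k4, nat_lit 0, nat_lit 0, nat_lit 855, nat_lit 0, nat_lit 1493854, [nat_lit 3282000000, nat_lit 4688000000, nat_lit 7968000000], [], [nat_lit 12490188480, nat_lit 12728638100, nat_lit 13399168160, nat_lit 13574643400], nat_lit 1271250, nat_lit 1271250, nat_lit 490000, nat_lit 1740000, nat_lit 0, nat_lit 0, [nat_lit 780000, nat_lit 1100000, nat_lit 1785000], [nat_lit 36, nat_lit 40, nat_lit 80, nat_lit 80, nat_lit 7, nat_lit 282, nat_lit 60, nat_lit 9]⟩, ⟨p017_k1, nat_lit 0, nat_lit 0, nat_lit 0, nat_lit 0, nat_lit 0, [nat_lit 3282000000, nat_lit 4688000000, nat_lit 9842000000], [], [nat_lit 16519509190, nat_lit 18242460298, nat_lit 21004661328, nat_lit 22590948356], nat_lit 0, nat_lit 0, nat_lit 0, nat_lit 0, nat_lit 0, nat_lit 0, [], [nat_lit 42, nat_lit 40, nat_lit 80, nat_lit 80]⟩,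
 zbF0, [⟨nat_lit 0, nat_lit 98, nat_lit 97, nat_lit 100, nat_lit 381298915⟩]⟩
noncomputable def p017_l29 : Lf2 := ⟨nat_lit 0, nat_lit 10, [nat_lit 0, nat_lit 5, nat_lit 5, nat_lit 20], false, nat_lit 0, nat_lit 0, nat_lit 0, nat_lit 0, ⟨nat_lit 1000, nat_lit 0, nat_lit 0, nat_lit 0, nat_lit 0, nat_lit 0, nat_lit 0, nat_lit 0, nat_lit 0, nat_lit 0, nat_lit 0, nat_lit 0, nat_lit 0, nat_lit 0, nat_lit 0, nat_lit 0, false, false⟩,
 nat_lit 0, nat_lit 12259, nat_lit 0, nat_lit 0, nat_lit 8661, nat_lit 6117, nat_lit 1743, nat_lit 0, nat_lit 0, nat_lit 2531, nat_lit 0, nat_lit 0, nat_lit 0, nat_lit 0, nat_lit 0, nat_lit 0, nat_lit 0, nat_lit 0, [],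
 ⟨p017_k13, nat_lit 0, nat_lit 0, nat_lit 852, nat_lit 0, nat_lit 1490252, [nat_lit 3282000000, nat_lit 4688000000, nat_lit 7968000000], [], [nat_lit 12710328780, nat_lit 12947316616, nat_lit 13568354315, nat_lit 13743837794], nat_lit 1271250, nat_lit 1271250, nat_lit 517650, nat_lit 1742250, nat_lit 0, nat_lit 0, [nat_lit 780000, nat_lit 1100000, nat_lit 1785000], [nat_lit 36, nat_lit 40, nat_lit 80, nat_lit 80, nat_lit 7, nat_lit 282, nat_lit 60, nat_lit 9]⟩, ⟨p017_k1, nat_lit 0, nat_lit 0, nat_lit 0, nat_lit 0, nat_lit 0, [nat_lit 3282000000, nat_lit 4688000000, nat_lit 9842000000], [], [nat_lit 16041404354, nat_lit 18278879021, nat_lit 20783871012, nat_lit 22588147436], nat_lit 0, nat_lit 0, nat_lit 0, nat_lit 0, nat_lit 0, nat_lit 0, [], [nat_lit 42, nat_lit 40, nat_lit 80, nat_lit 80]⟩,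
 zbF0, [⟨nat_lit 0, nat_lit 97, nat_lit 93, nat_lit 100, nat_lit 394930243⟩]⟩
noncomputable def p017_l30 : Lf2 := ⟨nat_lit 0, nat_lit 10, [nat_lit 0, nat_lit 5, nat_lit 5, nat_lit 20], false, nat_lit 0, nat_lit 0, nat_lit 0, nat_lit 0, ⟨nat_lit 1000, nat_lit 0, nat_lit 0, nat_lit 0, nat_lit 0, nat_lit 0, nat_lit 0, nat_lit 0, nat_lit 0, nat_lit 0, nat_lit 0, nat_lit 0, nat_lit 0, nat_lit 0, nat_lit 0, nat_lit 0, false, false⟩,
 nat_lit 0, nat_lit 13797, nat_lit 0, nat_lit 0, nat_lit 9551, nat_lit 4896, nat_lit 2500, nat_lit 0, nat_lit 0, nat_lit 2437, nat_lit 0, nat_lit 0, nat_lit 0, nat_lit 0, nat_lit 0, nat_lit 0, nat_lit 0, nat_lit 0, [],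
 ⟨p017_k4, nat_lit 0, nat_lit 0, nat_lit 866, nat_lit 0, nat_lit 1543590, [nat_lit 3282000000, nat_lit 4688000000, nat_lit 7968000000], [], [nat_lit 7077994897, nat_lit 7285842508, nat_lit 9286222514, nat_lit 9620677747], nat_lit 1271250, nat_lit 1271250, nat_lit 631250, nat_lit 1751250, nat_lit 0, nat_lit 0, [nat_lit 780000, nat_lit 1100000, nat_lit 1785000], [nat_lit 36, nat_lit 40, nat_lit 80, nat_lit 80, nat_lit 7, nat_lit 285, nat_lit 60, nat_lit 9]⟩, ⟨p017_k4, nat_lit 0, nat_lit 0, nat_lit 0, nat_lit 0, nat_lit 0, [nat_lit 3282000000, nat_lit 4688000000, nat_lit 7968000000], [], [nat_lit 16911491180, nat_lit 17369598409, nat_lit 21182042784, nat_lit 21561004264], nat_lit 0, nat_lit 0, nat_lit 0, nat_lit 0, nat_lit 0, nat_lit 0, [], [nat_lit 36, nat_lit 40, nat_lit 80, nat_lit 80]⟩,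
 zbF0, [⟨nat_lit 0, nat_lit 95, nat_lit 95, nat_lit 100, nat_lit 311465689⟩]⟩
noncomputable def p017_l31 : Lf2 := ⟨nat_lit 0, nat_lit 10, [nat_lit 0, nat_lit 5, nat_lit 5, nat_lit 20], false, nat_lit 0, nat_lit 0, nat_lit 0, nat_lit 0, ⟨nat_lit 1000, nat_lit 0, nat_lit 0, nat_lit 0, nat_lit 0, nat_lit 0, nat_lit 0, nat_lit 0, nat_lit 0, nat_lit 0, nat_lit 0, nat_lit 0, nat_lit 0, nat_lit 0, nat_lit 0, nat_lit 0, false, false⟩,
 nat_lit 0, nat_lit 13385, nat_lit 0, nat_lit 0, nat_lit 9457, nat_lit 4863, nat_lit 2056, nat_lit 0, nat_lit 0, nat_lit 2726, nat_lit 0, nat_lit 0, nat_lit 0, nat_lit 0, nat_lit 0, nat_lit 0, nat_lit 0, nat_lit 0, [],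
 ⟨p017_k13, nat_lit 0, nat_lit 0, nat_lit 881, nat_lit 0, nat_lit 1587227, [nat_lit 3282000000, nat_lit 4688000000, nat_lit 7968000000], [], [nat_lit 7881539040, nat_lit 8087005797, nat_lit 9863159954, nat_lit 10151193700], nat_lit 1271250, nat_lit 1271250, nat_lit 660400, nat_lit 1753500, nat_lit 0, nat_lit 0, [nat_lit 780000, nat_lit 1100000, nat_lit 1785000], [nat_lit 36, nat_lit 40, nat_lit 80, nat_lit 80, nat_lit 7, nat_lit 289, nat_lit 60, nat_lit 9]⟩, ⟨p017_k4, nat_lit 0, nat_lit 0, nat_lit 0, nat_lit 0, nat_lit 0, [nat_lit 3282000000, nat_lit 4688000000, nat_lit 7968000000], [], [nat_lit 16974553822, nat_lit 17942457313, nat_lit 21212470302, nat_lit 21967608557], nat_lit 0, nat_lit 0, nat_lit 0, nat_lit 0, nat_lit 0, nat_lit 0, [], [nat_lit 36, nat_lit 40, nat_lit 80, nat_lit 80]⟩,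
 zbF0, [⟨nat_lit 0, nat_lit 91, nat_lit 91, nat_lit 100, nat_lit 340991072⟩]⟩
noncomputable def p017_l32 : Lf2 := ⟨nat_lit 0, nat_lit 10, [nat_lit 0, nat_lit 5, nat_lit 5, nat_lit 20], false, nat_lit 0, nat_lit 0, nat_lit 0, nat_lit 0, ⟨nat_lit 1000, nat_lit 0, nat_lit 0, nat_lit 0, nat_lit 0, nat_lit 0, nat_lit 0, nat_lit 0, nat_lit 0, nat_lit 0, nat_lit 0, nat_lit 0, nat_lit 0, nat_lit 0, nat_lit 0, nat_lit 0, false, false⟩,
 nat_lit 0, nat_lit 12979, nat_lit 0, nat_lit 0, nat_lit 9356, nat_lit 6138, nat_lit 2073, nat_lit 0, nat_lit 0, nat_lit 2439, nat_lit 0, nat_lit 0, nat_lit 0, nat_lit 0, nat_lit 0, nat_lit 0, nat_lit 0, nat_lit 0, [],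
 ⟨p017_k14, nat_lit 0, nat_lit 0, nat_lit 863, nat_lit 0, nat_lit 1524962, [nat_lit 3282000000, nat_lit 4688000000, nat_lit 7968000000], [], [nat_lit 8867398293, nat_lit 9287229026, nat_lit 10606895600, nat_lit 11179452736], nat_lit 1271250, nat_lit 1271250, nat_lit 545600, nat_lit 1744500, nat_lit 0, nat_lit 0, [nat_lit 780000, nat_lit 1100000, nat_lit 1785000], [nat_lit 36, nat_lit 40, nat_lit 80, nat_lit 80, nat_lit 7, nat_lit 286, nat_lit 60, nat_lit 9]⟩, ⟨p017_k1, nat_lit 0, nat_lit 0, nat_lit 0, nat_lit 0, nat_lit 0, [nat_lit 3282000000, nat_lit 4688000000, nat_lit 9842000000], [], [nat_lit 16512579799, nat_lit 18311354218, nat_lit 20780016168, nat_lit 22588032104], nat_lit 0, nat_lit 0, nat_lit 0, nat_lit 0, nat_lit 0, nat_lit 0, [], [nat_lit 42, nat_lit 40, nat_lit 80, nat_lit 80]⟩,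
 zbF0, [⟨nat_lit 0, nat_lit 94, nat_lit 87, nat_lit 100, nat_lit 377616288⟩]⟩
noncomputable def p017_l33 : Lf2 := ⟨nat_lit 0, nat_lit 5, [nat_lit 4, nat_lit 5, nat_lit 5, nat_lit 20], false, nat_lit 0, nat_lit 0, nat_lit 0, nat_lit 0, ⟨nat_lit 1000, nat_lit 0, nat_lit 0, nat_lit 0, nat_lit 0, nat_lit 0, nat_lit 0, nat_lit 0, nat_lit 0, nat_lit 0, nat_lit 0, nat_lit 0, nat_lit 0, nat_lit 0, nat_lit 0, nat_lit 0, false, false⟩,
 nat_lit 0, nat_lit 12019, nat_lit 0, nat_lit 0, nat_lit 8664, nat_lit 4830, nat_lit 1308, nat_lit 0, nat_lit 0, nat_lit 2400, nat_lit 0, nat_lit 0, nat_lit 0, nat_lit 0, nat_lit 0, nat_lit 0, nat_lit 0, nat_lit 0, [],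
 ⟨p017_k15, nat_lit 0, nat_lit 0, nat_lit 800, nat_lit 0, nat_lit 1575047, [nat_lit 3282000000, nat_lit 4688000000, nat_lit 6250000000], [], [nat_lit 13322150972, nat_lit 13518049497, nat_lit 13855821376, nat_lit 14005694480], nat_lit 1271250, nat_lit 1271250, nat_lit 689850, nat_lit 1755750, nat_lit 0, nat_lit 0, [nat_lit 780000, nat_lit 1100000, nat_lit 1442500], [nat_lit 59, nat_lit 40, nat_lit 80, nat_lit 80, nat_lit 3, nat_lit 272, nat_lit 60, nat_lit 10]⟩, ⟨p017_k16, nat_lit 0, nat_lit 0, nat_lit 0, nat_lit 0, nat_lit 0, [nat_lit 3282000000, nat_lit 4688000000, nat_lit 6250000000], [], [nat_lit 17126755612, nat_lit 18506518189, nat_lit 21242897820, nat_lit 22371428145], nat_lit 0, nat_lit 0, nat_lit 0, nat_lit 0, nat_lit 0, nat_lit 0, [], [nat_lit 59, nat_lit 40, nat_lit 80, nat_lit 80]⟩,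
 zbF0, [⟨nat_lit 0, nat_lit 87, nat_lit 87, nat_lit 100, nat_lit 440971940⟩]⟩
noncomputable def p017_l34 : Lf2 := ⟨nat_lit 0, nat_lit 5, [nat_lit 4, nat_lit 5, nat_lit 5, nat_lit 20], false, nat_lit 0, nat_lit 0, nat_lit 0, nat_lit 0, ⟨nat_lit 1000, nat_lit 0, nat_lit 0, nat_lit 0, nat_lit 0, nat_lit 0, nat_lit 0, nat_lit 0, nat_lit 0, nat_lit 0, nat_lit 0, nat_lit 0, nat_lit 0, nat_lit 0, nat_lit 0, nat_lit 0, false, false⟩,
 nat_lit 0, nat_lit 11711, nat_lit 0, nat_lit 0, nat_lit 8612, nat_lit 4798, nat_lit 1187, nat_lit 0, nat_lit 0, nat_lit 2332, nat_lit 0, nat_lit 0, nat_lit 0, nat_lit 32254873535183, nat_lit 0, nat_lit 0, nat_lit 0, nat_lit 0, [],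
 ⟨p017_k17, nat_lit 0, nat_lit 0, nat_lit 815, nat_lit 0, nat_lit 1614210, [nat_lit 3282000000, nat_lit 4688000000, nat_lit 6250000000], [], [nat_lit 13841148722, nat_lit 14035226493, nat_lit 14361101090, nat_lit 14510667472], nat_lit 1271250, nat_lit 1271250, nat_lit 719601, nat_lit 1758000, nat_lit 0, nat_lit 0, [nat_lit 780000, nat_lit 1100000, nat_lit 1442500], [nat_lit 59, nat_lit 40, nat_lit 80, nat_lit 80, nat_lit 3, nat_lit 274, nat_lit 60, nat_lit 10]⟩, ⟨p017_k16, nat_lit 0, nat_lit 0, nat_lit 0, nat_lit 0, nat_lit 0, [nat_lit 3282000000, nat_lit 4688000000, nat_lit 6250000000], [], [nat_lit 17281223121, nat_lit 19061507092, nat_lit 21272403292, nat_lit 22771709752], nat_lit 0, nat_lit 0, nat_lit 0, nat_lit 0, nat_lit 0, nat_lit 0, [], [nat_lit 59, nat_lit 40, nat_lit 80, nat_lit 80]⟩,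
 zbF0, [⟨nat_lit 0, nat_lit 83, nat_lit 83, nat_lit 100, nat_lit 475664130⟩]⟩
noncomputable def p017_l35 : Lf2 := ⟨nat_lit 0, nat_lit 10, [nat_lit 0, nat_lit 5, nat_lit 5, nat_lit 20], false, nat_lit 0, nat_lit 0, nat_lit 0, nat_lit 0, ⟨nat_lit 1000, nat_lit 0, nat_lit 0, nat_lit 0, nat_lit 0, nat_lit 0, nat_lit 0, nat_lit 0, nat_lit 0, nat_lit 0, nat_lit 0, nat_lit 0, nat_lit 0, nat_lit 0, nat_lit 0, nat_lit 0, false, false⟩,
 nat_lit 0, nat_lit 11289, nat_lit 0, nat_lit 0, nat_lit 8138, nat_lit 4927, nat_lit 1244, nat_lit 0, nat_lit 0, nat_lit 1977, nat_lit 0, nat_lit 0, nat_lit 0, nat_lit 30243917351538, nat_lit 0, nat_lit 0, nat_lit 0, nat_lit 0, [],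
 ⟨p017_k14, nat_lit 0, nat_lit 0, nat_lit 789, nat_lit 0, nat_lit 1403592, [nat_lit 3282000000, nat_lit 4688000000, nat_lit 7968000000], [], [nat_lit 16150325590, nat_lit 16500323755, nat_lit 17028720252, nat_lit 17371069216], nat_lit 1271250, nat_lit 1271250, nat_lit 689850, nat_lit 1755750, nat_lit 0, nat_lit 0, [nat_lit 780000, nat_lit 1100000, nat_lit 1785000], [nat_lit 36, nat_lit 40, nat_lit 80, nat_lit 80, nat_lit 7, nat_lit 272, nat_lit 60, nat_lit 9]⟩, ⟨p017_k4, nat_lit 0, nat_lit 0, nat_lit 0, nat_lit 0, nat_lit 0, [nat_lit 3282000000, nat_lit 4688000000, nat_lit 7968000000], [], [nat_lit 17705176876, nat_lit 19245775089, nat_lit 21331538064, nat_lit 22828236960], nat_lit 0, nat_lit 0, nat_lit 0, nat_lit 0, nat_lit 0, nat_lit 0, [], [nat_lit 36, nat_lit 40, nat_lit 80, nat_lit 80]⟩,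
 zbF0, [⟨nat_lit 0, nat_lit 83, nat_lit 83, nat_lit 100, nat_lit 469903050⟩]⟩
noncomputable def p017_l36 : Lf2 := ⟨nat_lit 0, nat_lit 10, [nat_lit 0, nat_lit 5, nat_lit 5, nat_lit 20], false, nat_lit 0, nat_lit 0, nat_lit 0, nat_lit 0, ⟨nat_lit 1000, nat_lit 0, nat_lit 0, nat_lit 0, nat_lit 0, nat_lit 0, nat_lit 0, nat_lit 0, nat_lit 0, nat_lit 0, nat_lit 0, nat_lit 0, nat_lit 0, nat_lit 0, nat_lit 0, nat_lit 0, false, false⟩,
 nat_lit 0, nat_lit 10516, nat_lit 0, nat_lit 0, nat_lit 7280, nat_lit 5256, nat_lit 2733, nat_lit 0, nat_lit 0, nat_lit 981, nat_lit 0, nat_lit 0, nat_lit 0, nat_lit 0, nat_lit 0, nat_lit 0, nat_lit 0, nat_lit 0, [],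
 ⟨p017_k18, nat_lit 0, nat_lit 0, nat_lit 856, nat_lit 0, nat_lit 1632028, [nat_lit 3282000000, nat_lit 6250000000, nat_lit 7968000000], [], [nat_lit 23039849360, nat_lit 23323268520, nat_lit 27209786240, nat_lit 27382252400], nat_lit 1271250, nat_lit 1271250, nat_lit 1271250, nat_lit 1271250, nat_lit 0, nat_lit 0, [nat_lit 780000, nat_lit 1435000, nat_lit 1271250], [nat_lit 18, nat_lit 40, nat_lit 80, nat_lit 80, nat_lit 2, nat_lit 303, nat_lit 0, nat_lit 9]⟩, ⟨p017_k0, nat_lit 0, nat_lit 0, nat_lit 0, nat_lit 0, nat_lit 0, [nat_lit 3282000000, nat_lit 6250000000, nat_lit 9842000000], [], [nat_lit 25184317952, nat_lit 27022612641, nat_lit 35243492928, nat_lit 36612780840], nat_lit 0, nat_lit 0, nat_lit 0, nat_lit 0, nat_lit 0, nat_lit 0, [], [nat_lit 8, nat_lit 40, nat_lit 80, nat_lit 80]⟩,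
 zbF0, []⟩
noncomputable def p017_l37 : Lf2 := ⟨nat_lit 0, nat_lit 10, [nat_lit 0, nat_lit 5, nat_lit 5, nat_lit 20], false, nat_lit 0, nat_lit 0, nat_lit 0, nat_lit 0, ⟨nat_lit 1000, nat_lit 0, nat_lit 0, nat_lit 0, nat_lit 0, nat_lit 0, nat_lit 0, nat_lit 0, nat_lit 0, nat_lit 0, nat_lit 0, nat_lit 0, nat_lit 0, nat_lit 0, nat_lit 0, nat_lit 0, false, false⟩,
 nat_lit 0, nat_lit 10245, nat_lit 0, nat_lit 0, nat_lit 7385, nat_lit 5030, nat_lit 1149, nat_lit 0, nat_lit 0, nat_lit 2484, nat_lit 0, nat_lit 0, nat_lit 0, nat_lit 39024489134067, nat_lit 0, nat_lit 0, nat_lit 0, nat_lit 0, [],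
 ⟨p017_k14, nat_lit 0, nat_lit 0, nat_lit 885, nat_lit 0, nat_lit 1714352, [nat_lit 3282000000, nat_lit 4688000000, nat_lit 7968000000], [], [nat_lit 23470529195, nat_lit 23715024380, nat_lit 26977704280, nat_lit 27123261940], nat_lit 1271250, nat_lit 1271250, nat_lit 1271250, nat_lit 1271250, nat_lit 0, nat_lit 0, [nat_lit 780000, nat_lit 1100000, nat_lit 1785000], [nat_lit 36, nat_lit 40, nat_lit 80, nat_lit 80, nat_lit 7, nat_lit 312, nat_lit 0, nat_lit 10]⟩, ⟨p017_k5, nat_lit 0, nat_lit 0, nat_lit 0, nat_lit 0, nat_lit 0, [nat_lit 3282000000, nat_lit 3965500000, nat_lit 5449500000, nat_lit 8885500000], [], [nat_lit 22975585080, nat_lit 25391838760, nat_lit 33180490480, nat_lit 35346640680], nat_lit 0, nat_lit 0, nat_lit 0, nat_lit 0, nat_lit 0, nat_lit 0, [], [nat_lit 148, nat_lit 40, nat_lit 20, nat_lit 40]⟩,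
 zbF0, []⟩
noncomputable def p017_l38 : Lf2 := ⟨nat_lit 3, nat_lit 10, [nat_lit 0, nat_lit 5, nat_lit 5, nat_lit 20], false, nat_lit 0, nat_lit 0, nat_lit 0, nat_lit 0, zbN0,
 nat_lit 0, nat_lit 0, nat_lit 0, nat_lit 0, nat_lit 0, nat_lit 0, nat_lit 0, nat_lit 0, nat_lit 0, nat_lit 0, nat_lit 0, nat_lit 0, nat_lit 0, nat_lit 0, nat_lit 0, nat_lit 0, nat_lit 0, nat_lit 0, [],
 C1.Rw.none, ⟨p017_k0, nat_lit 0, nat_lit 0, nat_lit 219, nat_lit 0, nat_lit 0, [], [], [], nat_lit 0, nat_lit 0, nat_lit 0, nat_lit 0, nat_lit 0, nat_lit 0, [], [nat_lit 8, nat_lit 40, nat_lit 80, nat_lit 80, nat_lit 1, nat_lit 317, nat_lit 100, nat_lit 9]⟩,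
 zbF0, []⟩
noncomputable def p017_l39 : Lf2 := ⟨nat_lit 0, nat_lit 10, [nat_lit 0, nat_lit 5, nat_lit 5, nat_lit 20], false, nat_lit 0, nat_lit 0, nat_lit 0, nat_lit 0, ⟨nat_lit 400, nat_lit 600, nat_lit 0, nat_lit 7, nat_lit 166, nat_lit 0, nat_lit 0, nat_lit 0, nat_lit 0, nat_lit 0, nat_lit 0, nat_lit 0, nat_lit 0, nat_lit 0, nat_lit 0, nat_lit 5000000, false, false⟩,
 nat_lit 9773, nat_lit 0, nat_lit 0, nat_lit 0, nat_lit 6219, nat_lit 4273, nat_lit 664, nat_lit 0, nat_lit 0, nat_lit 493, nat_lit 0, nat_lit 0, nat_lit 0, nat_lit 18881871278941, nat_lit 0, nat_lit 600000, nat_lit 0, nat_lit 0, [(nat_lit 12, [(nat_lit 2, nat_lit 600)]), (nat_lit 15, [(nat_lit 2, nat_lit 600)])],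
 ⟨p017_k1, nat_lit 0, nat_lit 0, nat_lit 693, nat_lit 0, nat_lit 933666, [nat_lit 2508576000, nat_lit 3442640000, nat_lit 3760400000], [], [nat_lit 22941167982, nat_lit 23972825124, nat_lit 26194871030, nat_lit 23622872206], nat_lit 1271250, nat_lit 1271250, nat_lit 382400, nat_lit 780000, nat_lit 0, nat_lit 0, [nat_lit 780000, nat_lit 1100000, nat_lit 2127500], [nat_lit 42, nat_lit 40, nat_lit 80, nat_lit 80, nat_lit 13, nat_lit 238, nat_lit 30, nat_lit 7]⟩, ⟨p017_k1, nat_lit 0, nat_lit 0, nat_lit 693, nat_lit 0, nat_lit 933666, [nat_lit 1312800000, nat_lit 1875200000, nat_lit 3936800000], [], [nat_lit 10390498710, nat_lit 12511146667, nat_lit 10107197935, nat_lit 11379980861], nat_lit 1271250, nat_lit 1271250, nat_lit 382400, nat_lit 780000, nat_lit 0, nat_lit 0, [nat_lit 780000, nat_lit 1100000, nat_lit 2127500], [nat_lit 42, nat_lit 40, nat_lit 80, nat_lit 80, nat_lit 13, nat_lit 238, nat_lit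 30, nat_lit 7]⟩,
 ⟨nat_lit 4472, nat_lit 5478, ⟨.ofNat (nat_lit 330579), .ofNat (nat_lit 435455), .ofNat (nat_lit 373223), .ofNat (nat_lit 478080), .ofNat (nat_lit 355064), .ofNat (nat_lit 450202), .ofNat (nat_lit 398126), .ofNat (nat_lit 493246)⟩, ⟨.ofNat (nat_lit 0), .ofNat (nat_lit 0), .ofNat (nat_lit 0), .ofNat (nat_lit 0), .ofNat (nat_lit 0), .ofNat (nat_lit 0), .ofNat (nat_lit 0), .ofNat (nat_lit 0)⟩⟩, [⟨nat_lit 0, nat_lit 100, nat_lit 100, nat_lit 100, nat_lit 279396386⟩]⟩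
noncomputable def p017_l40 : Lf2 := ⟨nat_lit 0, nat_lit 10, [nat_lit 0, nat_lit 5, nat_lit 5, nat_lit 20], false, nat_lit 0, nat_lit 0, nat_lit 0, nat_lit 0, ⟨nat_lit 1000, nat_lit 0, nat_lit 0, nat_lit 0, nat_lit 0, nat_lit 0, nat_lit 0, nat_lit 0, nat_lit 0, nat_lit 0, nat_lit 0, nat_lit 0, nat_lit 0, nat_lit 0, nat_lit 0, nat_lit 0, false, false⟩,
 nat_lit 9842, nat_lit 0, nat_lit 0, nat_lit 0, nat_lit 6262, nat_lit 6262, nat_lit 1604, nat_lit 0, nat_lit 0, nat_lit 1604, nat_lit 0, nat_lit 0, nat_lit 0, nat_lit 0, nat_lit 0, nat_lit 0, nat_lit 0, nat_lit 0, [],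
 ⟨p017_k1, nat_lit 0, nat_lit 0, nat_lit 581, nat_lit 0, nat_lit 776080, [nat_lit 3282000000, nat_lit 4688000000, nat_lit 9842000000], [], [nat_lit 28744352944, nat_lit 29488654950, nat_lit 43682135460, nat_lit 40918426808], nat_lit 1271250, nat_lit 1271250, nat_lit 780000, nat_lit 3072500, nat_lit 0, nat_lit 0, [nat_lit 780000, nat_lit 1100000, nat_lit 2127500], [nat_lit 42, nat_lit 40, nat_lit 80, nat_lit 80, nat_lit 13, nat_lit 317, nat_lit 100, nat_lit 9]⟩, ⟨p017_k1, nat_lit 0, nat_lit 0, nat_lit 581, nat_lit 0, nat_lit 776080, [nat_lit 3282000000, nat_lit 4688000000, nat_lit 9842000000], [], [nat_lit 28744352944, nat_lit 29488654950, nat_lit 43682135460, nat_lit 40918426808], nat_lit 1271250, nat_lit 1271250, nat_lit 780000, nat_lit 3072500, nat_lit 0, nat_lit 0, [nat_lit 780000, nat_lit 1100000, nat_lit 2127500], [nat_lit 42, nat_lit 40, nat_lit 80, nat_lit 80, nat_lit 13, nat_lit 317,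 nat_lit 100, nat_lit 9]⟩,
 zbF0, []⟩
noncomputable def p017_l41 : Lf2 := ⟨nat_lit 0, nat_lit 10, [nat_lit 0, nat_lit 5, nat_lit 5, nat_lit 20], false, nat_lit 0, nat_lit 0, nat_lit 0, nat_lit 0, ⟨nat_lit 1000, nat_lit 0, nat_lit 0, nat_lit 0, nat_lit 0, nat_lit 0, nat_lit 0, nat_lit 0, nat_lit 0, nat_lit 0, nat_lit 0, nat_lit 0, nat_lit 0, nat_lit 0, nat_lit 0, nat_lit 0, false, false⟩,
 nat_lit 10595, nat_lit 0, nat_lit 0, nat_lit 0, nat_lit 7335, nat_lit 6742, nat_lit 68, nat_lit 0, nat_lit 0, nat_lit 1563, nat_lit 0, nat_lit 0, nat_lit 0, nat_lit 0, nat_lit 0, nat_lit 0, nat_lit 0, nat_lit 0, [],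
 ⟨p017_k4, nat_lit 0, nat_lit 0, nat_lit 533, nat_lit 0, nat_lit 851592, [nat_lit 3282000000, nat_lit 4688000000, nat_lit 7968000000], [], [nat_lit 29344995380, nat_lit 30221967380, nat_lit 41720068800, nat_lit 41795468260], nat_lit 1271250, nat_lit 1271250, nat_lit 780000, nat_lit 3072500, nat_lit 0, nat_lit 0, [nat_lit 780000, nat_lit 1100000, nat_lit 1785000], [nat_lit 36, nat_lit 40, nat_lit 80, nat_lit 80, nat_lit 7, nat_lit 317, nat_lit 100, nat_lit 10]⟩, ⟨p017_k1, nat_lit 0, nat_lit 0, nat_lit 633, nat_lit 0, nat_lit 933666, [nat_lit 3282000000, nat_lit 4688000000, nat_lit 9842000000], [], [nat_lit 27426115776, nat_lit 28463144908, nat_lit 44068933235, nat_lit 40136398952], nat_lit 1271250, nat_lit 1271250, nat_lit 780000, nat_lit 3072500, nat_lit 0, nat_lit 0, [nat_lit 780000, nat_lit 1100000, nat_lit 2127500], [nat_lit 42, nat_lit 40, nat_lit 80, nat_lit 80, nat_lit 13, nat_lit 317,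 nat_lit 100, nat_lit 9]⟩,
 zbF0, []⟩
noncomputable def b_N_700_700_0_3 : St := ⟨false, nat_lit 1, nat_lit 2, nat_lit 2, nat_lit 40, nat_lit 280, nat_lit 320, nat_lit 280, nat_lit 320, nat_lit 64, nat_lit 400, nat_lit 0, nat_lit 0, nat_lit 0, nat_lit 0, nat_lit 0, nat_lit 0, nat_lit 0, nat_lit 40, nat_lit 0, nat_lit 0, nat_lit 0, nat_lit 0⟩
theorem d_N_700_700_0_3 (h : EB TB.env) : Dead b_N_700_700_0_3 := chkB_sound0 h (T :=
(.st (nat_lit 1)
(.spl (nat_lit 7) (nat_lit 600)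
(.leaf p017_l0)
(.spl (nat_lit 8) (nat_lit 800)
(.spl (nat_lit 7) (nat_lit 900)
(.spl (nat_lit 2) (nat_lit 120)
(.spl (nat_lit 2) (nat_lit 80)
(.leaf p017_l1)
(.spl (nat_lit 2) (nat_lit 100)
(.leaf p017_l2)
(.spl (nat_lit 2) (nat_lit 112)
(.leaf p017_l3)
(.spl (nat_lit 2) (nat_lit 116)
(.leaf p017_l4)
(.spl (nat_lit 0) (nat_lit 300)
(.ord (.spl (nat_lit 0) (nat_lit 290)
(.ord (.leaf p017_l5))
(.leaf p017_l6)))
(.leaf p017_l7))))))
(.spl (nat_lit 0) (nat_lit 300)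
(.ord (.leaf p017_l8))
(.leaf p017_l9)))
(.spl (nat_lit 0) (nat_lit 300)
(.ord (.spl (nat_lit 1) (nat_lit 290)
(.spl (nat_lit 0) (nat_lit 290)
(.spl (nat_lit 8) (nat_lit 400)
(.spl (nat_lit 0) (nat_lit 285)
(.ord (.spl (nat_lit 2) (nat_lit 120)
(.spl (nat_lit 2) (nat_lit 80)
(.leaf p017_l10)
(.spl (nat_lit 2) (nat_lit 100)
(.leaf p017_l11)
(.spl (nat_lit 6) (nat_lit 20)
(.leaf p017_l12)
(.leaf p017_l13))))
(.spl (nat_lit 0) (nat_lit 283)
(.ord (.leaf p017_l14))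
(.leaf p017_l15))))
(.trZ (nat_lit 0) (nat_lit 100) (nat_lit 99) (nat_lit 82) (nat_lit 68) (.spl (nat_lit 2) (nat_lit 120)
(.spl (nat_lit 2) (nat_lit 100)
(.leaf p017_l16)
(.spl (nat_lit 0) (nat_lit 288)
(.ord (.leaf p017_l17))
(.leaf p017_l18)))
(.leaf p017_l19))))
(.leaf p017_l20))
(.trZ (nat_lit 0) (nat_lit 100) (nat_lit 97) (nat_lit 84) (nat_lit 72) (.spl (nat_lit 2) (nat_lit 120)
(.spl (nat_lit 0) (nat_lit 295)
(.leaf p017_l21)
(.trZ (nat_lit 0) (nat_lit 100) (nat_lit 96) (nat_lit 86) (nat_lit 76) (.leaf p017_l22)))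
(.leaf p017_l23))))
(.ord (.trZ (nat_lit 0) (nat_lit 100) (nat_lit 100) (nat_lit 90) (nat_lit 80) (.spl (nat_lit 2) (nat_lit 120)
(.spl (nat_lit 0) (nat_lit 295)
(.ord (.leaf p017_l24))
(.trZ (nat_lit 0) (nat_lit 100) (nat_lit 99) (nat_lit 92) (nat_lit 84) (.leaf p017_l25)))
(.spl (nat_lit 0) (nat_lit 295)
(.ord (.leaf p017_l26))
(.leaf p017_l27)))))))
(.trZ (nat_lit 0) (nat_lit 100) (nat_lit 94) (nat_lit 88) (nat_lit 80) (.spl (nat_lit 2) (nat_lit 240)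
(.spl (nat_lit 0) (nat_lit 310)
(.ord (.spl (nat_lit 1) (nat_lit 300)
(.spl (nat_lit 0) (nat_lit 305)
(.leaf p017_l28)
(.trZ (nat_lit 0) (nat_lit 100) (nat_lit 93) (nat_lit 90) (nat_lit 84) (.leaf p017_l29)))
(.trZ (nat_lit 0) (nat_lit 100) (nat_lit 100) (nat_lit 100) (nat_lit 100) (.spl (nat_lit 0) (nat_lit 305)
(.ord (.leaf p017_l30))
(.trZ (nat_lit 0) (nat_lit 98) (nat_lit 97) (nat_lit 100) (nat_lit 104) (.leaf p017_l31))))))
(.trZ (nat_lit 0) (nat_lit 100) (nat_lit 91) (nat_lit 91) (nat_lit 88) (.spl (nat_lit 1) (nat_lit 300)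
(.leaf p017_l32)
(.trZ (nat_lit 0) (nat_lit 97) (nat_lit 93) (nat_lit 100) (nat_lit 108) (.spl (nat_lit 6) (nat_lit 20)
(.spl (nat_lit 0) (nat_lit 315)
(.ord (.leaf p017_l33))
(.trZ (nat_lit 0) (nat_lit 95) (nat_lit 90) (nat_lit 100) (nat_lit 112) (.leaf p017_l34)))
(.leaf p017_l35))))))
(.spl (nat_lit 0) (nat_lit 310)
(.ord (.leaf p017_l36))
(.leaf p017_l37))))))
(.leaf p017_l38)))
(.spl (nat_lit 2) (nat_lit 120)
(.leaf p017_l39)
(.spl (nat_lit 0) (nat_lit 300)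
(.ord (.leaf p017_l40))
(.leaf p017_l41))))) (by decide +kernel)
noncomputable def p017_l42 : Lf2 := ⟨nat_lit 0, nat_lit 10, [nat_lit 0, nat_lit 5, nat_lit 5, nat_lit 20], false, nat_lit 0, nat_lit 0, nat_lit 0, nat_lit 0, ⟨nat_lit 1000, nat_lit 0, nat_lit 0, nat_lit 0, nat_lit 0, nat_lit 0, nat_lit 0, nat_lit 0, nat_lit 0, nat_lit 0, nat_lit 0, nat_lit 0, nat_lit 0, nat_lit 0, nat_lit 0, nat_lit 0, false, false⟩,
 nat_lit 0, nat_lit 0, nat_lit 0, nat_lit 0, nat_lit 8895, nat_lit 9038, nat_lit 0, nat_lit 0, nat_lit 0, nat_lit 0, nat_lit 0, nat_lit 0, nat_lit 0, nat_lit 0, nat_lit 0, nat_lit 0, nat_lit 0, nat_lit 0, [],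
 ⟨p017_k0, nat_lit 0, nat_lit 0, nat_lit 219, nat_lit 0, nat_lit 0, [nat_lit 3282000000, nat_lit 6250000000, nat_lit 9842000000], [], [nat_lit 31552021312, nat_lit 35795086685, nat_lit 44706532160, nat_lit 46547908000], nat_lit 0, nat_lit 0, nat_lit 0, nat_lit 0, nat_lit 0, nat_lit 0, [], [nat_lit 8, nat_lit 40, nat_lit 80, nat_lit 80, nat_lit 1, nat_lit 317, nat_lit 100, nat_lit 9]⟩, ⟨p017_k0, nat_lit 0, nat_lit 0, nat_lit 219, nat_lit 0, nat_lit 0, [nat_lit 3282000000, nat_lit 6250000000, nat_lit 9842000000], [], [nat_lit 31469245133, nat_lit 35925016370, nat_lit 44854995904, nat_lit 46708983200], nat_lit 0, nat_lit 0, nat_lit 0, nat_lit 0, nat_lit 0, nat_lit 0, [], [nat_lit 8, nat_lit 40, nat_lit 80, nat_lit 80, nat_lit 1, nat_lit 317, nat_lit 100, nat_lit 9]⟩,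
 zbF0, [⟨nat_lit 0, nat_lit 100, nat_lit 100, nat_lit 100, nat_lit 117865533⟩]⟩
noncomputable def p017_l43 : Lf2 := ⟨nat_lit 0, nat_lit 10, [nat_lit 0, nat_lit 5, nat_lit 5, nat_lit 20], true, nat_lit 0, nat_lit 0, nat_lit 0, nat_lit 0, ⟨nat_lit 0, nat_lit 0, nat_lit 1000, nat_lit 7, nat_lit 174, nat_lit 0, nat_lit 0, nat_lit 0, nat_lit 0, nat_lit 215, nat_lit 13992, nat_lit 243, nat_lit 56384910, nat_lit 0, nat_lit 0, nat_lit 2185319, false, false⟩,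
 nat_lit 0, nat_lit 0, nat_lit 0, nat_lit 0, nat_lit 3278, nat_lit 0, nat_lit 0, nat_lit 0, nat_lit 0, nat_lit 0, nat_lit 0, nat_lit 0, nat_lit 0, nat_lit 7369160215861, nat_lit 86, nat_lit 400000, nat_lit 0, nat_lit 0, [(nat_lit 12, [(nat_lit 5, nat_lit 1000)]), (nat_lit 15, [(nat_lit 5, nat_lit 1000)])],
 ⟨p017_k19, nat_lit 0, nat_lit 0, nat_lit 190, nat_lit 0, nat_lit 0, [nat_lit 2347200000, nat_lit 174400000], [], [nat_lit 15979958719, nat_lit 18615884978, nat_lit 16717059992, nat_lit 18878099528], nat_lit 0, nat_lit 0, nat_lit 0, nat_lit 0, nat_lit 0, nat_lit 0, [], [nat_lit 82, nat_lit 40, nat_lit 80, nat_lit 80, nat_lit 63, nat_lit 249, nat_lit 40, nat_lit 7]⟩, C1.Rw.none,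
 ⟨nat_lit 4472, nat_lit 5478, ⟨.ofNat (nat_lit 330579), .ofNat (nat_lit 510352), .ofNat (nat_lit 341241), .ofNat (nat_lit 521009), .ofNat (nat_lit 355064), .ofNat (nat_lit 518145), .ofNat (nat_lit 365830), .ofNat (nat_lit 528906)⟩, ⟨.ofNat (nat_lit 0), .ofNat (nat_lit 0), .ofNat (nat_lit 0), .ofNat (nat_lit 0), .ofNat (nat_lit 0), .ofNat (nat_lit 0), .ofNat (nat_lit 0), .ofNat (nat_lit 0)⟩⟩, [⟨nat_lit 0, nat_lit 100, nat_lit 96, nat_lit 91, nat_lit 49153005⟩]⟩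
noncomputable def p017_l44 : Lf2 := ⟨nat_lit 0, nat_lit 10, [nat_lit 0, nat_lit 5, nat_lit 5, nat_lit 20], false, nat_lit 0, nat_lit 0, nat_lit 0, nat_lit 0, ⟨nat_lit 252, nat_lit 0, nat_lit 748, nat_lit 7, nat_lit 236, nat_lit 0, nat_lit 0, nat_lit 0, nat_lit 0, nat_lit 215, nat_lit 70714, nat_lit 200, nat_lit 49661421, nat_lit 0, nat_lit 0, nat_lit 2858909, false, false⟩,
 nat_lit 0, nat_lit 0, nat_lit 2796, nat_lit 0, nat_lit 3685, nat_lit 1779, nat_lit 0, nat_lit 0, nat_lit 0, nat_lit 359, nat_lit 0, nat_lit 0, nat_lit 0, nat_lit 0, nat_lit 27, nat_lit 523600, nat_lit 0, nat_lit 0, [(nat_lit 12, [(nat_lit 5, nat_lit 374), (nat_lit 6, nat_lit 374)])],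
 ⟨p017_k1, nat_lit 0, nat_lit 0, nat_lit 160, nat_lit 0, nat_lit 0, [nat_lit 1955313601, nat_lit 1921776400, nat_lit 299984800], [], [nat_lit 18433454741, nat_lit 19561505321, nat_lit 20858762900, nat_lit 21932774690], nat_lit 0, nat_lit 0, nat_lit 0, nat_lit 0, nat_lit 0, nat_lit 0, [], [nat_lit 42, nat_lit 40, nat_lit 80, nat_lit 80, nat_lit 13, nat_lit 272, nat_lit 60, nat_lit 8]⟩, ⟨p017_k1, nat_lit 0, nat_lit 0, nat_lit 646, nat_lit 0, nat_lit 1004307, [nat_lit 827064000, nat_lit 1181376000, nat_lit 2480184000], [], [nat_lit 6599419742, nat_lit 6679589597, nat_lit 7337917675, nat_lit 6924387346], nat_lit 1271250, nat_lit 1271250, nat_lit 1100001, nat_lit 1785000, nat_lit 0, nat_lit 0, [nat_lit 780000, nat_lit 1100000, nat_lit 2127500], [nat_lit 42, nat_lit 40, nat_lit 80, nat_lit 80, nat_lit 13, nat_lit 272, nat_lit 60, nat_lit 8]⟩,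
 ⟨nat_lit 5000, nat_lit 5478, ⟨.ofNat (nat_lit 510468), .ofNat (nat_lit 660309), .ofNat (nat_lit 521142), .ofNat (nat_lit 670982), .ofNat (nat_lit 514258), .ofNat (nat_lit 657090), .ofNat (nat_lit 524968), .ofNat (nat_lit 667800)⟩, ⟨.ofNat (nat_lit 0), .ofNat (nat_lit 0), .ofNat (nat_lit 0), .ofNat (nat_lit 0), .ofNat (nat_lit 0), .ofNat (nat_lit 0), .ofNat (nat_lit 0), .ofNat (nat_lit 0)⟩⟩, []⟩
noncomputable def p017_l45 : Lf2 := ⟨nat_lit 0, nat_lit 10, [nat_lit 0, nat_lit 5, nat_lit 5, nat_lit 20], true, nat_lit 0, nat_lit 0, nat_lit 0, nat_lit 0, ⟨nat_lit 0, nat_lit 306, nat_lit 694, nat_lit 7, nat_lit 237, nat_lit 0, nat_lit 0, nat_lit 0, nat_lit 0, nat_lit 215, nat_lit 64342, nat_lit 200, nat_lit 49642548, nat_lit 17357452, nat_lit 0, nat_lit 2860390, false, false⟩,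
 nat_lit 0, nat_lit 0, nat_lit 0, nat_lit 0, nat_lit 4408, nat_lit 0, nat_lit 0, nat_lit 0, nat_lit 0, nat_lit 0, nat_lit 0, nat_lit 0, nat_lit 0, nat_lit 0, nat_lit 4, nat_lit 250000, nat_lit 0, nat_lit 0, [(nat_lit 15, [(nat_lit 0, nat_lit 306), (nat_lit 4, nat_lit 694)])],
 ⟨p017_k4, nat_lit 0, nat_lit 0, nat_lit 139, nat_lit 0, nat_lit 0, [nat_lit 2391384000, nat_lit 1032347201, nat_lit 43657067], [], [nat_lit 18042861723, nat_lit 19391607147, nat_lit 20614927131, nat_lit 22061943840], nat_lit 0, nat_lit 0, nat_lit 0, nat_lit 0, nat_lit 0, nat_lit 0, [], [nat_lit 36, nat_lit 40, nat_lit 80, nat_lit 80, nat_lit 7, nat_lit 272, nat_lit 60, nat_lit 9]⟩, C1.Rw.none,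
 ⟨nat_lit 4472, nat_lit 5000, ⟨.ofNat (nat_lit 514240), .ofNat (nat_lit 657088), .ofNat (nat_lit 524948), .ofNat (nat_lit 667796), .ofNat (nat_lit 518242), .ofNat (nat_lit 654189), .ofNat (nat_lit 529019), .ofNat (nat_lit 664966)⟩, ⟨.ofNat (nat_lit 0), .ofNat (nat_lit 0), .ofNat (nat_lit 0), .ofNat (nat_lit 0), .ofNat (nat_lit 0), .ofNat (nat_lit 0), .ofNat (nat_lit 0), .ofNat (nat_lit 0)⟩⟩, []⟩
noncomputable def p017_l46 : Lf2 := ⟨nat_lit 0, nat_lit 10, [nat_lit 0, nat_lit 5, nat_lit 5, nat_lit 20], false, nat_lit 0, nat_lit 0, nat_lit 0, nat_lit 0, ⟨nat_lit 59, nat_lit 166, nat_lit 775, nat_lit 7, nat_lit 213, nat_lit 0, nat_lit 0, nat_lit 0, nat_lit 0, nat_lit 215, nat_lit 88650, nat_lit 200, nat_lit 52249582, nat_lit 14750418, nat_lit 0, nat_lit 2635522, false, false⟩,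
 nat_lit 0, nat_lit 0, nat_lit 956, nat_lit 0, nat_lit 4396, nat_lit 634, nat_lit 0, nat_lit 0, nat_lit 0, nat_lit 0, nat_lit 0, nat_lit 0, nat_lit 0, nat_lit 0, nat_lit 0, nat_lit 235250, nat_lit 0, nat_lit 0, [(nat_lit 12, [(nat_lit 0, nat_lit 166), (nat_lit 4, nat_lit 775)]), (nat_lit 15, [(nat_lit 0, nat_lit 166), (nat_lit 4, nat_lit 775)])],
 ⟨p017_k20, nat_lit 0, nat_lit 0, nat_lit 148, nat_lit 0, nat_lit 0, [nat_lit 2455362000, nat_lit 97682400], [], [nat_lit 16721166088, nat_lit 18978186304, nat_lit 20310283804, nat_lit 22044226080], nat_lit 0, nat_lit 0, nat_lit 0, nat_lit 0, nat_lit 0, nat_lit 0, [], [nat_lit 74, nat_lit 40, nat_lit 80, nat_lit 80, nat_lit 43, nat_lit 272, nat_lit 60, nat_lit 9]⟩, ⟨p017_k20, nat_lit 0, nat_lit 0, nat_lit 737, nat_lit 0, nat_lit 1240307, [nat_lit 193638000, nat_lit 470112000], [], [nat_lit 2037610722, nat_lit 2047681912, nat_lit 1940677144, nat_lit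 1874659128], nat_lit 1271250, nat_lit 1271250, nat_lit 490000, nat_lit 1740000, nat_lit 0, nat_lit 0, [nat_lit 780000, nat_lit 1762500], [nat_lit 74, nat_lit 40, nat_lit 80, nat_lit 80, nat_lit 43, nat_lit 272, nat_lit 60, nat_lit 9]⟩,
 ⟨nat_lit 4472, nat_lit 5245, ⟨.ofNat (nat_lit 376648), .ofNat (nat_lit 669271), .ofNat (nat_lit 387328), .ofNat (nat_lit 679950), .ofNat (nat_lit 393041), .ofNat (nat_lit 664893), .ofNat (nat_lit 403812), .ofNat (nat_lit 675662)⟩, ⟨.ofNat (nat_lit 0), .ofNat (nat_lit 0), .ofNat (nat_lit 0), .ofNat (nat_lit 0), .ofNat (nat_lit 0), .ofNat (nat_lit 0), .ofNat (nat_lit 0), .ofNat (nat_lit 0)⟩⟩, []⟩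
noncomputable def p017_l47 : Lf2 := ⟨nat_lit 0, nat_lit 10, [nat_lit 0, nat_lit 5, nat_lit 5, nat_lit 20], false, nat_lit 0, nat_lit 0, nat_lit 0, nat_lit 0, ⟨nat_lit 188, nat_lit 0, nat_lit 812, nat_lit 7, nat_lit 226, nat_lit 0, nat_lit 0, nat_lit 0, nat_lit 0, nat_lit 215, nat_lit 128590, nat_lit 200, nat_lit 50748545, nat_lit 0, nat_lit 0, nat_lit 2770057, false, false⟩,
 nat_lit 0, nat_lit 0, nat_lit 1857, nat_lit 0, nat_lit 3697, nat_lit 1285, nat_lit 0, nat_lit 0, nat_lit 0, nat_lit 226, nat_lit 0, nat_lit 0, nat_lit 0, nat_lit 8828413705596, nat_lit 14, nat_lit 324800, nat_lit 0, nat_lit 0, [(nat_lit 15, [(nat_lit 5, nat_lit 812)])],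
 ⟨p017_k4, nat_lit 0, nat_lit 0, nat_lit 149, nat_lit 0, nat_lit 0, [nat_lit 1852958401, nat_lit 1354140801, nat_lit 58687467], [], [nat_lit 17108171159, nat_lit 18451582319, nat_lit 20360867894, nat_lit 21489219759], nat_lit 0, nat_lit 0, nat_lit 0, nat_lit 0, nat_lit 0, nat_lit 0, [], [nat_lit 36, nat_lit 40, nat_lit 80, nat_lit 80, nat_lit 7, nat_lit 272, nat_lit 60, nat_lit 9]⟩, ⟨p017_k4, nat_lit 0, nat_lit 0, nat_lit 762, nat_lit 0, nat_lit 1324611, [nat_lit 617016000, nat_lit 881344000, nat_lit 1497984000], [], [nat_lit 4684509903, nat_lit 4777437643, nat_lit 5379225836, nat_lit 4832006068], nat_lit 1271250, nat_lit 1271250, nat_lit 631250, nat_lit 1751250, nat_lit 0, nat_lit 0, [nat_lit 780000, nat_lit 1100000, nat_lit 1785000], [nat_lit 36, nat_lit 40, nat_lit 80, nat_lit 80, nat_lit 7, nat_lit 272, nat_lit 60, nat_lit 9]⟩,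
 ⟨nat_lit 4472, nat_lit 5000, ⟨.ofNat (nat_lit 428520), .ofNat (nat_lit 678503), .ofNat (nat_lit 449936), .ofNat (nat_lit 699920), .ofNat (nat_lit 437835), .ofNat (nat_lit 675743), .ofNat (nat_lit 459390), .ofNat (nat_lit 697297)⟩, ⟨.ofNat (nat_lit 0), .ofNat (nat_lit 0), .ofNat (nat_lit 0), .ofNat (nat_lit 0), .ofNat (nat_lit 0), .ofNat (nat_lit 0), .ofNat (nat_lit 0), .ofNat (nat_lit 0)⟩⟩, [⟨nat_lit 0, nat_lit 83, nat_lit 83, nat_lit 100, nat_lit 27357771⟩]⟩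
noncomputable def p017_l48 : Lf2 := ⟨nat_lit 0, nat_lit 10, [nat_lit 0, nat_lit 5, nat_lit 5, nat_lit 20], false, nat_lit 0, nat_lit 0, nat_lit 0, nat_lit 0, ⟨nat_lit 1000, nat_lit 0, nat_lit 0, nat_lit 0, nat_lit 0, nat_lit 0, nat_lit 0, nat_lit 0, nat_lit 0, nat_lit 0, nat_lit 0, nat_lit 0, nat_lit 0, nat_lit 0, nat_lit 0, nat_lit 0, false, false⟩,
 nat_lit 0, nat_lit 0, nat_lit 9721, nat_lit 0, nat_lit 6093, nat_lit 6186, nat_lit 1132, nat_lit 0, nat_lit 0, nat_lit 1331, nat_lit 0, nat_lit 0, nat_lit 0, nat_lit 0, nat_lit 0, nat_lit 0, nat_lit 0, nat_lit 0, [],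
 ⟨p017_k1, nat_lit 0, nat_lit 0, nat_lit 206, nat_lit 0, nat_lit 0, [nat_lit 3282000000, nat_lit 4688000000, nat_lit 9842000000], [], [nat_lit 26744943812, nat_lit 27320869741, nat_lit 36155160844, nat_lit 36553726308], nat_lit 0, nat_lit 0, nat_lit 0, nat_lit 0, nat_lit 0, nat_lit 0, [], [nat_lit 42, nat_lit 40, nat_lit 80, nat_lit 80, nat_lit 13, nat_lit 317, nat_lit 100, nat_lit 9]⟩, ⟨p017_k1, nat_lit 0, nat_lit 0, nat_lit 591, nat_lit 0, nat_lit 898800, [nat_lit 3282000000, nat_lit 4688000000, nat_lit 9842000000], [], [nat_lit 31547481006, nat_lit 31776087944, nat_lit 36559884232, nat_lit 36801161372], nat_lit 1271250, nat_lit 1271250, nat_lit 1271250, nat_lit 1271250, nat_lit 0, nat_lit 0, [nat_lit 780000, nat_lit 1100000, nat_lit 2127500], [nat_lit 42, nat_lit 40, nat_lit 80, nat_lit 80, nat_lit 13, nat_lit 317, nat_lit 100, nat_lit 9]⟩,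
 zbF0, []⟩
noncomputable def p017_l49 : Lf2 := ⟨nat_lit 0, nat_lit 10, [nat_lit 0, nat_lit 5, nat_lit 5, nat_lit 20], false, nat_lit 0, nat_lit 0, nat_lit 0, nat_lit 0, ⟨nat_lit 1000, nat_lit 0, nat_lit 0, nat_lit 0, nat_lit 0, nat_lit 0, nat_lit 0, nat_lit 0, nat_lit 0, nat_lit 0, nat_lit 0, nat_lit 0, nat_lit 0, nat_lit 0, nat_lit 0, nat_lit 0, false, false⟩,
 nat_lit 0, nat_lit 0, nat_lit 9979, nat_lit 0, nat_lit 6034, nat_lit 6350, nat_lit 501, nat_lit 0, nat_lit 0, nat_lit 1240, nat_lit 0, nat_lit 0, nat_lit 0, nat_lit 0, nat_lit 0, nat_lit 0, nat_lit 0, nat_lit 0, [],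
 ⟨p017_k3, nat_lit 0, nat_lit 0, nat_lit 186, nat_lit 0, nat_lit 0, [nat_lit 3282000000, nat_lit 4688000000, nat_lit 7968000000], [], [nat_lit 27169222134, nat_lit 27735458304, nat_lit 37164198309, nat_lit 37605671039], nat_lit 0, nat_lit 0, nat_lit 0, nat_lit 0, nat_lit 0, nat_lit 0, [], [nat_lit 36, nat_lit 40, nat_lit 80, nat_lit 80, nat_lit 7, nat_lit 203, nat_lit 0, nat_lit 6]⟩, ⟨p017_k1, nat_lit 0, nat_lit 0, nat_lit 677, nat_lit 0, nat_lit 1090731, [nat_lit 3282000000, nat_lit 4688000000, nat_lit 9842000000], [], [nat_lit 33389227000, nat_lit 33763661500, nat_lit 37443292000, nat_lit 37840366000], nat_lit 1271250, nat_lit 1271250, nat_lit 1271250, nat_lit 1271250, nat_lit 0, nat_lit 0, [nat_lit 780000, nat_lit 1100000, nat_lit 2127500], [nat_lit 42, nat_lit 40, nat_lit 80, nat_lit 80, nat_lit 13, nat_lit 317, nat_lit 100, nat_lit 9]⟩,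
 zbF0, []⟩
noncomputable def p017_l50 : Lf2 := ⟨nat_lit 0, nat_lit 10, [nat_lit 0, nat_lit 5, nat_lit 5, nat_lit 20], false, nat_lit 0, nat_lit 0, nat_lit 0, nat_lit 0, ⟨nat_lit 320, nat_lit 680, nat_lit 0, nat_lit 7, nat_lit 292, nat_lit 0, nat_lit 0, nat_lit 0, nat_lit 0, nat_lit 0, nat_lit 0, nat_lit 0, nat_lit 43678531, nat_lit 23321469, nat_lit 0, nat_lit 3231254, true, false⟩,
 nat_lit 0, nat_lit 0, nat_lit 3498, nat_lit 0, nat_lit 4027, nat_lit 2226, nat_lit 296, nat_lit 0, nat_lit 0, nat_lit 401, nat_lit 0, nat_lit 0, nat_lit 0, nat_lit 0, nat_lit 0, nat_lit 680000, nat_lit 0, nat_lit 0, [(nat_lit 15, [(nat_lit 2, nat_lit 680)])],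
 ⟨p017_k4, nat_lit 0, nat_lit 0, nat_lit 160, nat_lit 0, nat_lit 0, [nat_lit 2397619200, nat_lit 2975216000, nat_lit 2115802667], [], [nat_lit 21929497033, nat_lit 23039156719, nat_lit 25557375877, nat_lit 26495389572], nat_lit 0, nat_lit 0, nat_lit 0, nat_lit 0, nat_lit 0, nat_lit 0, [], [nat_lit 36, nat_lit 40, nat_lit 80, nat_lit 80, nat_lit 7, nat_lit 203, nat_lit 0, nat_lit 6]⟩, ⟨p017_k1, nat_lit 0, nat_lit 0, nat_lit 728, nat_lit 0, nat_lit 1196985, [nat_lit 1050240000, nat_lit 1500160000, nat_lit 3149440000], [], [nat_lit 9619601609, nat_lit 9699613327, nat_lit 10133969665, nat_lit 10197566887], nat_lit 1271250, nat_lit 1271250, nat_lit 1271250, nat_lit 1271250, nat_lit 0, nat_lit 0, [nat_lit 780000, nat_lit 1100000, nat_lit 2127500], [nat_lit 42, nat_lit 40, nat_lit 80, nat_lit 80, nat_lit 13, nat_lit 317, nat_lit 100, nat_lit 9]⟩,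
 ⟨nat_lit 4472, nat_lit 5000, ⟨.ofNat (nat_lit 657088), .ofNat (nat_lit 799935), .ofNat (nat_lit 667796), .ofNat (nat_lit 810643), .ofNat (nat_lit 654189), .ofNat (nat_lit 790136), .ofNat (nat_lit 664966), .ofNat (nat_lit 800912)⟩, ⟨.ofNat (nat_lit 0), .ofNat (nat_lit 0), .ofNat (nat_lit 0), .ofNat (nat_lit 0), .ofNat (nat_lit 0), .ofNat (nat_lit 0), .ofNat (nat_lit 0), .ofNat (nat_lit 0)⟩⟩, []⟩
noncomputable def p017_l51 : Lf2 := ⟨nat_lit 0, nat_lit 10, [nat_lit 0, nat_lit 5, nat_lit 5, nat_lit 20], false, nat_lit 0, nat_lit 0, nat_lit 0, nat_lit 0, ⟨nat_lit 1000, nat_lit 0, nat_lit 0, nat_lit 0, nat_lit 0, nat_lit 0, nat_lit 0, nat_lit 0, nat_lit 0, nat_lit 0, nat_lit 0, nat_lit 0, nat_lit 0, nat_lit 0, nat_lit 0, nat_lit 0, false, false⟩,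
 nat_lit 0, nat_lit 0, nat_lit 10106, nat_lit 0, nat_lit 5135, nat_lit 6430, nat_lit 919, nat_lit 0, nat_lit 0, nat_lit 1163, nat_lit 0, nat_lit 0, nat_lit 0, nat_lit 0, nat_lit 0, nat_lit 0, nat_lit 0, nat_lit 0, [],
 ⟨p017_k4, nat_lit 0, nat_lit 0, nat_lit 187, nat_lit 0, nat_lit 0, [nat_lit 3282000000, nat_lit 4688000000, nat_lit 7968000000], [], [nat_lit 30173324200, nat_lit 30601944325, nat_lit 34677859460, nat_lit 35094299535], nat_lit 0, nat_lit 0, nat_lit 0, nat_lit 0, nat_lit 0, nat_lit 0, [], [nat_lit 36, nat_lit 40, nat_lit 80, nat_lit 80, nat_lit 7, nat_lit 203, nat_lit 0, nat_lit 6]⟩, ⟨p017_k1, nat_lit 0, nat_lit 0, nat_lit 632, nat_lit 0, nat_lit 1041829, [nat_lit 3282000000, nat_lit 4688000000, nat_lit 9842000000], [], [nat_lit 34843162875, nat_lit 34942168580, nat_lit 37080303515, nat_lit 37154008015], nat_lit 1271250, nat_lit 1271250, nat_lit 1271250, nat_lit 1271250, nat_lit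 0, nat_lit 0, [nat_lit 780000, nat_lit 1100000, nat_lit 2127500], [nat_lit 42, nat_lit 40, nat_lit 80, nat_lit 80, nat_lit 13, nat_lit 244, nat_lit 0, nat_lit 6]⟩,
 zbF0, []⟩
noncomputable def p017_l52 : Lf2 := ⟨nat_lit 0, nat_lit 10, [nat_lit 0, nat_lit 5, nat_lit 5, nat_lit 20], false, nat_lit 0, nat_lit 0, nat_lit 0, nat_lit 0, ⟨nat_lit 1000, nat_lit 0, nat_lit 0, nat_lit 0, nat_lit 0, nat_lit 0, nat_lit 0, nat_lit 0, nat_lit 0, nat_lit 0, nat_lit 0, nat_lit 0, nat_lit 0, nat_lit 0, nat_lit 0, nat_lit 0, false, false⟩,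
 nat_lit 0, nat_lit 0, nat_lit 10106, nat_lit 0, nat_lit 4969, nat_lit 6430, nat_lit 859, nat_lit 0, nat_lit 0, nat_lit 1169, nat_lit 0, nat_lit 0, nat_lit 0, nat_lit 0, nat_lit 0, nat_lit 0, nat_lit 0, nat_lit 0, [],
 ⟨p017_k14, nat_lit 0, nat_lit 0, nat_lit 189, nat_lit 0, nat_lit 0, [nat_lit 3282000000, nat_lit 4688000000, nat_lit 7968000000], [], [nat_lit 30365063780, nat_lit 30788293055, nat_lit 34766876354, nat_lit 35178694159], nat_lit 0, nat_lit 0, nat_lit 0, nat_lit 0, nat_lit 0, nat_lit 0, [], [nat_lit 36, nat_lit 40, nat_lit 80, nat_lit 80, nat_lit 7, nat_lit 203, nat_lit 0, nat_lit 6]⟩, ⟨p017_k1, nat_lit 0, nat_lit 0, nat_lit 704, nat_lit 0, nat_lit 1159388, [nat_lit 3282000000, nat_lit 4688000000, nat_lit 9842000000], [], [nat_lit 34840773450, nat_lit 34914298025, nat_lit 37054050400, nat_lit 37153366900], nat_lit 1271250, nat_lit 1271250, nat_lit 1271250, nat_lit 1271250, nat_lit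 0, nat_lit 0, [nat_lit 780000, nat_lit 1100000, nat_lit 2127500], [nat_lit 42, nat_lit 40, nat_lit 80, nat_lit 80, nat_lit 13, nat_lit 262, nat_lit 0, nat_lit 7]⟩,
 zbF0, []⟩
noncomputable def p017_l53 : Lf2 := ⟨nat_lit 0, nat_lit 10, [nat_lit 0, nat_lit 5, nat_lit 5, nat_lit 20], false, nat_lit 0, nat_lit 0, nat_lit 0, nat_lit 0, ⟨nat_lit 1000, nat_lit 0, nat_lit 0, nat_lit 0, nat_lit 0, nat_lit 0, nat_lit 0, nat_lit 0, nat_lit 0, nat_lit 0, nat_lit 0, nat_lit 0, nat_lit 0, nat_lit 0, nat_lit 0, nat_lit 0, false, false⟩,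
 nat_lit 0, nat_lit 0, nat_lit 9513, nat_lit 0, nat_lit 5129, nat_lit 6185, nat_lit 890, nat_lit 0, nat_lit 0, nat_lit 1172, nat_lit 0, nat_lit 0, nat_lit 0, nat_lit 0, nat_lit 0, nat_lit 0, nat_lit 0, nat_lit 0, [],
 ⟨p017_k4, nat_lit 0, nat_lit 0, nat_lit 189, nat_lit 0, nat_lit 0, [nat_lit 3282000000, nat_lit 4688000000, nat_lit 7968000000], [], [nat_lit 30332510830, nat_lit 31189361380, nat_lit 34793508034, nat_lit 35626054044], nat_lit 0, nat_lit 0, nat_lit 0, nat_lit 0, nat_lit 0, nat_lit 0, [], [nat_lit 36, nat_lit 40, nat_lit 80, nat_lit 80, nat_lit 7, nat_lit 203, nat_lit 0, nat_lit 6]⟩, ⟨p017_k9, nat_lit 0, nat_lit 0, nat_lit 704, nat_lit 0, nat_lit 1161470, [nat_lit 3282000000, nat_lit 4688000000, nat_lit 9842000000], [], [nat_lit 34532445798, nat_lit 34631281595, nat_lit 36720543630, nat_lit 36796523685], nat_lit 1271250, nat_lit 1271250, nat_lit 1271250, nat_lit 1271250, nat_lit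 0, nat_lit 0, [nat_lit 780000, nat_lit 1100000, nat_lit 2127500], [nat_lit 42, nat_lit 40, nat_lit 80, nat_lit 80, nat_lit 13, nat_lit 263, nat_lit 0, nat_lit 7]⟩,
 zbF0, []⟩
noncomputable def p017_l54 : Lf2 := ⟨nat_lit 0, nat_lit 10, [nat_lit 0, nat_lit 5, nat_lit 5, nat_lit 20], false, nat_lit 0, nat_lit 0, nat_lit 0, nat_lit 0, ⟨nat_lit 1000, nat_lit 0, nat_lit 0, nat_lit 0, nat_lit 0, nat_lit 0, nat_lit 0, nat_lit 0, nat_lit 0, nat_lit 0, nat_lit 0, nat_lit 0, nat_lit 0, nat_lit 0, nat_lit 0, nat_lit 0, false, false⟩,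
 nat_lit 0, nat_lit 0, nat_lit 9721, nat_lit 0, nat_lit 6328, nat_lit 6186, nat_lit 0, nat_lit 0, nat_lit 0, nat_lit 1225, nat_lit 0, nat_lit 0, nat_lit 0, nat_lit 0, nat_lit 0, nat_lit 0, nat_lit 0, nat_lit 0, [],
 ⟨p017_k4, nat_lit 0, nat_lit 0, nat_lit 189, nat_lit 0, nat_lit 0, [nat_lit 3282000000, nat_lit 4688000000, nat_lit 7968000000], [], [nat_lit 29569335312, nat_lit 30871781568, nat_lit 39802550288, nat_lit 40701868608], nat_lit 0, nat_lit 0, nat_lit 0, nat_lit 0, nat_lit 0, nat_lit 0, [], [nat_lit 36, nat_lit 40, nat_lit 80, nat_lit 80, nat_lit 7, nat_lit 203, nat_lit 0, nat_lit 6]⟩, ⟨p017_k1, nat_lit 0, nat_lit 0, nat_lit 583, nat_lit 0, nat_lit 875746, [nat_lit 3282000000, nat_lit 4688000000, nat_lit 9842000000], [], [nat_lit 32604168506, nat_lit 32832775444, nat_lit 36617086297, nat_lit 36801161372], nat_lit 1271250, nat_lit 1271250, nat_lit 1271250, nat_lit 1271250, nat_lit 0,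 nat_lit 0, [nat_lit 780000, nat_lit 1100000, nat_lit 2127500], [nat_lit 42, nat_lit 40, nat_lit 80, nat_lit 80, nat_lit 13, nat_lit 317, nat_lit 100, nat_lit 9]⟩,
 zbF0, []⟩
noncomputable def p017_l55 : Lf2 := ⟨nat_lit 0, nat_lit 10, [nat_lit 0, nat_lit 5, nat_lit 5, nat_lit 20], false, nat_lit 0, nat_lit 0, nat_lit 0, nat_lit 0, ⟨nat_lit 1000, nat_lit 0, nat_lit 0, nat_lit 0, nat_lit 0, nat_lit 0, nat_lit 0, nat_lit 0, nat_lit 0, nat_lit 0, nat_lit 0, nat_lit 0, nat_lit 0, nat_lit 0, nat_lit 0, nat_lit 0, false, false⟩,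
 nat_lit 0, nat_lit 0, nat_lit 9046, nat_lit 0, nat_lit 5952, nat_lit 6007, nat_lit 560, nat_lit 0, nat_lit 0, nat_lit 1229, nat_lit 0, nat_lit 0, nat_lit 0, nat_lit 0, nat_lit 0, nat_lit 0, nat_lit 0, nat_lit 0, [],
 ⟨p017_k4, nat_lit 0, nat_lit 0, nat_lit 189, nat_lit 0, nat_lit 0, [nat_lit 3282000000, nat_lit 4688000000, nat_lit 7968000000], [], [nat_lit 27123268512, nat_lit 28311418112, nat_lit 37050202592, nat_lit 37928581472], nat_lit 0, nat_lit 0, nat_lit 0, nat_lit 0, nat_lit 0, nat_lit 0, [], [nat_lit 36, nat_lit 40, nat_lit 80, nat_lit 80, nat_lit 7, nat_lit 203, nat_lit 0, nat_lit 6]⟩, ⟨p017_k3, nat_lit 0, nat_lit 0, nat_lit 654, nat_lit 0, nat_lit 1201699, [nat_lit 3282000000, nat_lit 4688000000, nat_lit 7968000000], [], [nat_lit 32402914844, nat_lit 32520017070, nat_lit 36536012906, nat_lit 36622749740], nat_lit 1271250, nat_lit 1271250, nat_lit 1271250, nat_lit 1271250, nat_lit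 0, nat_lit 0, [nat_lit 780000, nat_lit 1100000, nat_lit 1785000], [nat_lit 36, nat_lit 40, nat_lit 80, nat_lit 80, nat_lit 7, nat_lit 251, nat_lit 0, nat_lit 8]⟩,
 zbF0, []⟩
noncomputable def p017_l56 : Lf2 := ⟨nat_lit 0, nat_lit 10, [nat_lit 0, nat_lit 5, nat_lit 5, nat_lit 20], false, nat_lit 0, nat_lit 0, nat_lit 0, nat_lit 0, ⟨nat_lit 1000, nat_lit 0, nat_lit 0, nat_lit 0, nat_lit 0, nat_lit 0, nat_lit 0, nat_lit 0, nat_lit 0, nat_lit 0, nat_lit 0, nat_lit 0, nat_lit 0, nat_lit 0, nat_lit 0, nat_lit 0, false, false⟩,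
 nat_lit 0, nat_lit 0, nat_lit 8495, nat_lit 0, nat_lit 5961, nat_lit 5760, nat_lit 557, nat_lit 0, nat_lit 0, nat_lit 1243, nat_lit 0, nat_lit 0, nat_lit 0, nat_lit 0, nat_lit 0, nat_lit 0, nat_lit 0, nat_lit 0, [],
 ⟨p017_k4, nat_lit 0, nat_lit 0, nat_lit 189, nat_lit 0, nat_lit 0, [nat_lit 3282000000, nat_lit 4688000000, nat_lit 7968000000], [], [nat_lit 27122018916, nat_lit 28319056466, nat_lit 37072320356, nat_lit 37951351516], nat_lit 0, nat_lit 0, nat_lit 0, nat_lit 0, nat_lit 0, nat_lit 0, [], [nat_lit 36, nat_lit 40, nat_lit 80, nat_lit 80, nat_lit 7, nat_lit 203, nat_lit 0, nat_lit 6]⟩, ⟨p017_k12, nat_lit 0, nat_lit 0, nat_lit 655, nat_lit 0, nat_lit 1204583, [nat_lit 3282000000, nat_lit 4688000000, nat_lit 7968000000], [], [nat_lit 32115326100, nat_lit 32231608780, nat_lit 36160228200, nat_lit 36247147320], nat_lit 1271250, nat_lit 1271250, nat_lit 1271250, nat_lit 1271250, nat_lit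 0, nat_lit 0, [nat_lit 780000, nat_lit 1100000, nat_lit 1785000], [nat_lit 36, nat_lit 40, nat_lit 80, nat_lit 80, nat_lit 7, nat_lit 252, nat_lit 0, nat_lit 8]⟩,
 zbF0, []⟩
noncomputable def p017_l57 : Lf2 := ⟨nat_lit 0, nat_lit 10, [nat_lit 0, nat_lit 5, nat_lit 5, nat_lit 20], false, nat_lit 0, nat_lit 0, nat_lit 0, nat_lit 0, ⟨nat_lit 1000, nat_lit 0, nat_lit 0, nat_lit 0, nat_lit 0, nat_lit 0, nat_lit 0, nat_lit 0, nat_lit 0, nat_lit 0, nat_lit 0, nat_lit 0, nat_lit 0, nat_lit 0, nat_lit 0, nat_lit 0, false, false⟩,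
 nat_lit 0, nat_lit 0, nat_lit 7984, nat_lit 0, nat_lit 6033, nat_lit 5527, nat_lit 528, nat_lit 0, nat_lit 0, nat_lit 1343, nat_lit 0, nat_lit 0, nat_lit 0, nat_lit 0, nat_lit 0, nat_lit 0, nat_lit 0, nat_lit 0, [],
 ⟨p017_k4, nat_lit 0, nat_lit 0, nat_lit 189, nat_lit 0, nat_lit 0, [nat_lit 3282000000, nat_lit 4688000000, nat_lit 7968000000], [], [nat_lit 27137803398, nat_lit 28405944548, nat_lit 37270293718, nat_lit 38153183488], nat_lit 0, nat_lit 0, nat_lit 0, nat_lit 0, nat_lit 0, nat_lit 0, [], [nat_lit 36, nat_lit 40, nat_lit 80, nat_lit 80, nat_lit 7, nat_lit 203, nat_lit 0, nat_lit 6]⟩, ⟨p017_k4, nat_lit 0, nat_lit 0, nat_lit 720, nat_lit 0, nat_lit 1324611, [nat_lit 3282000000, nat_lit 4688000000, nat_lit 7968000000], [], [nat_lit 32621461904, nat_lit 33123680460, nat_lit 36370601158, nat_lit 36739612136], nat_lit 1271250, nat_lit 1271250, nat_lit 1271250, nat_lit 1271250, nat_lit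 0, nat_lit 0, [nat_lit 780000, nat_lit 1100000, nat_lit 1785000], [nat_lit 36, nat_lit 40, nat_lit 80, nat_lit 80, nat_lit 7, nat_lit 270, nat_lit 0, nat_lit 8]⟩,
 zbF0, []⟩
noncomputable def p017_l58 : Lf2 := ⟨nat_lit 0, nat_lit 10, [nat_lit 0, nat_lit 5, nat_lit 5, nat_lit 20], false, nat_lit 0, nat_lit 0, nat_lit 0, nat_lit 0, ⟨nat_lit 532, nat_lit 468, nat_lit 0, nat_lit 7, nat_lit 266, nat_lit 0, nat_lit 0, nat_lit 0, nat_lit 0, nat_lit 0, nat_lit 0, nat_lit 0, nat_lit 0, nat_lit 0, nat_lit 0, nat_lit 5000000, false, false⟩,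
 nat_lit 0, nat_lit 0, nat_lit 0, nat_lit 0, nat_lit 3316, nat_lit 2768, nat_lit 0, nat_lit 0, nat_lit 0, nat_lit 0, nat_lit 0, nat_lit 0, nat_lit 0, nat_lit 0, nat_lit 0, nat_lit 117000, nat_lit 0, nat_lit 0, [(nat_lit 12, [(nat_lit 0, nat_lit 468)]), (nat_lit 15, [(nat_lit 0, nat_lit 468)])],
 ⟨p017_k19, nat_lit 0, nat_lit 0, nat_lit 200, nat_lit 0, nat_lit 0, [nat_lit 2859302401, nat_lit 6813852800], [], [nat_lit 28566757660, nat_lit 30747547894, nat_lit 38071820258, nat_lit 39235173186], nat_lit 0, nat_lit 0, nat_lit 0, nat_lit 0, nat_lit 0, nat_lit 0, [], [nat_lit 82, nat_lit 40, nat_lit 80, nat_lit 80, nat_lit 63, nat_lit 317, nat_lit 100, nat_lit 9]⟩, ⟨p017_k19, nat_lit 0, nat_lit 0, nat_lit 200, nat_lit 0, nat_lit 0, [nat_lit 1746024000, nat_lit 5235944000], [], [nat_lit 15822954455, nat_lit 17258370084, nat_lit 21744689248, nat_lit 22551079760], nat_lit 0, nat_lit 0, nat_lit 0, nat_lit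 0, nat_lit 0, nat_lit 0, [], [nat_lit 82, nat_lit 40, nat_lit 80, nat_lit 80, nat_lit 63, nat_lit 317, nat_lit 100, nat_lit 9]⟩,
 ⟨nat_lit 4472, nat_lit 5478, ⟨.ofNat (nat_lit 330579), .ofNat (nat_lit 959740), .ofNat (nat_lit 373223), .ofNat (nat_lit 1002365), .ofNat (nat_lit 355064), .ofNat (nat_lit 925804), .ofNat (nat_lit 398126), .ofNat (nat_lit 968848)⟩, ⟨.ofNat (nat_lit 0), .ofNat (nat_lit 0), .ofNat (nat_lit 0), .ofNat (nat_lit 0), .ofNat (nat_lit 0), .ofNat (nat_lit 0), .ofNat (nat_lit 0), .ofNat (nat_lit 0)⟩⟩, []⟩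
noncomputable def p017_l59 : Lf2 := ⟨nat_lit 0, nat_lit 10, [nat_lit 0, nat_lit 5, nat_lit 5, nat_lit 20], true, nat_lit 0, nat_lit 0, nat_lit 0, nat_lit 0, ⟨nat_lit 0, nat_lit 1000, nat_lit 0, nat_lit 7, nat_lit 209, nat_lit 0, nat_lit 0, nat_lit 0, nat_lit 0, nat_lit 0, nat_lit 0, nat_lit 0, nat_lit 0, nat_lit 0, nat_lit 0, nat_lit 5000000, false, false⟩,
 nat_lit 0, nat_lit 0, nat_lit 0, nat_lit 0, nat_lit 4176, nat_lit 0, nat_lit 0, nat_lit 0, nat_lit 0, nat_lit 0, nat_lit 0, nat_lit 0, nat_lit 0, nat_lit 13439369754847, nat_lit 0, nat_lit 250000, nat_lit 0, nat_lit 0, [(nat_lit 12, [(nat_lit 0, nat_lit 1000)]), (nat_lit 15, [(nat_lit 0, nat_lit 1000)])],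
 ⟨p017_k19, nat_lit 0, nat_lit 0, nat_lit 190, nat_lit 0, nat_lit 0, [nat_lit 2378800001, nat_lit 3513428572], [], [nat_lit 22326889546, nat_lit 25178835632, nat_lit 25115727293, nat_lit 27172211997], nat_lit 0, nat_lit 0, nat_lit 0, nat_lit 0, nat_lit 0, nat_lit 0, [], [nat_lit 82, nat_lit 40, nat_lit 80, nat_lit 80, nat_lit 63, nat_lit 272, nat_lit 60, nat_lit 8]⟩, C1.Rw.none,
 ⟨nat_lit 4472, nat_lit 5478, ⟨.ofNat (nat_lit 330579), .ofNat (nat_lit 660148), .ofNat (nat_lit 373223), .ofNat (nat_lit 702774), .ofNat (nat_lit 355064), .ofNat (nat_lit 654031), .ofNat (nat_lit 398126), .ofNat (nat_lit 697075)⟩, ⟨.ofNat (nat_lit 0), .ofNat (nat_lit 0), .ofNat (nat_lit 0), .ofNat (nat_lit 0), .ofNat (nat_lit 0), .ofNat (nat_lit 0), .ofNat (nat_lit 0), .ofNat (nat_lit 0)⟩⟩, []⟩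
noncomputable def p017_l60 : Lf2 := ⟨nat_lit 0, nat_lit 10, [nat_lit 0, nat_lit 5, nat_lit 5, nat_lit 20], true, nat_lit 0, nat_lit 0, nat_lit 0, nat_lit 0, ⟨nat_lit 0, nat_lit 1000, nat_lit 0, nat_lit 7, nat_lit 329, nat_lit 0, nat_lit 0, nat_lit 0, nat_lit 0, nat_lit 0, nat_lit 0, nat_lit 0, nat_lit 0, nat_lit 0, nat_lit 0, nat_lit 5000000, true, true⟩,
 nat_lit 0, nat_lit 0, nat_lit 0, nat_lit 0, nat_lit 3981, nat_lit 0, nat_lit 0, nat_lit 0, nat_lit 0, nat_lit 0, nat_lit 0, nat_lit 0, nat_lit 0, nat_lit 6652601550471, nat_lit 0, nat_lit 250000, nat_lit 0, nat_lit 0, [(nat_lit 12, [(nat_lit 0, nat_lit 1000)]), (nat_lit 15, [(nat_lit 0, nat_lit 1000)])],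
 ⟨p017_k1, nat_lit 0, nat_lit 0, nat_lit 209, nat_lit 0, nat_lit 0, [nat_lit 2364000000, nat_lit 2745200001, nat_lit 3496880000], [], [nat_lit 26931205185, nat_lit 28654761421, nat_lit 33524251369, nat_lit 34669163133], nat_lit 0, nat_lit 0, nat_lit 0, nat_lit 0, nat_lit 0, nat_lit 0, [], [nat_lit 42, nat_lit 40, nat_lit 80, nat_lit 80, nat_lit 13, nat_lit 317, nat_lit 100, nat_lit 9]⟩, C1.Rw.none,
 ⟨nat_lit 4472, nat_lit 5478, ⟨.ofNat (nat_lit 660148), .ofNat (nat_lit 959740), .ofNat (nat_lit 702774), .ofNat (nat_lit 1002365), .ofNat (nat_lit 654031), .ofNat (nat_lit 925804), .ofNat (nat_lit 697075), .ofNat (nat_lit 968848)⟩, ⟨.ofNat (nat_lit 0), .ofNat (nat_lit 0), .ofNat (nat_lit 0), .ofNat (nat_lit 0), .ofNat (nat_lit 0), .ofNat (nat_lit 0), .ofNat (nat_lit 0), .ofNat (nat_lit 0)⟩⟩, []⟩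
noncomputable def b_N_700_700_0_4 : St := ⟨false, nat_lit 0, nat_lit 2, nat_lit 0, nat_lit 40, nat_lit 280, nat_lit 320, nat_lit 280, nat_lit 320, nat_lit 64, nat_lit 400, nat_lit 0, nat_lit 0, nat_lit 0, nat_lit 0, nat_lit 0, nat_lit 0, nat_lit 40, nat_lit 80, nat_lit 0, nat_lit 0, nat_lit 0, nat_lit 0⟩
theorem d_N_700_700_0_4 (h : EB TB.env) : Dead b_N_700_700_0_4 := chkB_sound0 h (T :=
(.gv
(.st (nat_lit 1)
(.leaf p017_l42)
(.spl (nat_lit 2) (nat_lit 240)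
(.spl (nat_lit 1) (nat_lit 300)
(.spl (nat_lit 1) (nat_lit 290)
(.spl (nat_lit 2) (nat_lit 160)
(.leaf p017_l43)
(.spl (nat_lit 0) (nat_lit 300)
(.leaf p017_l44)
(.leaf p017_l45)))
(.ord (.trZ (nat_lit 0) (nat_lit 100) (nat_lit 100) (nat_lit 90) (nat_lit 80) (.leaf p017_l46))))
(.ord (.trZ (nat_lit 0) (nat_lit 100) (nat_lit 100) (nat_lit 100) (nat_lit 100) (.leaf p017_l47))))
(.spl (nat_lit 1) (nat_lit 300)
(.spl (nat_lit 0) (nat_lit 300)
(.spl (nat_lit 0) (nat_lit 290)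
(.ord (.leaf p017_l48))
(.leaf p017_l49))
(.spl (nat_lit 1) (nat_lit 290)
(.spl (nat_lit 6) (nat_lit 60)
(.spl (nat_lit 2) (nat_lit 320)
(.leaf p017_l50)
(.spl (nat_lit 1) (nat_lit 285)
(.spl (nat_lit 0) (nat_lit 310)
(.leaf p017_l51)
(.leaf p017_l52))
(.leaf p017_l53)))
(.leaf p017_l54))
(.spl (nat_lit 1) (nat_lit 295)
(.leaf p017_l55)
(.leaf p017_l56))))
(.ord (.leaf p017_l57)))))
(.st (nat_lit 1)
(.leaf p017_l58)
(.spl (nat_lit 2) (nat_lit 240)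
(.leaf p017_l59)
(.leaf p017_l60))))) (by decide +kernel)
noncomputable def p017_l61 : Lf2 := ⟨nat_lit 0, nat_lit 10, [nat_lit 0, nat_lit 5, nat_lit 5, nat_lit 20], false, nat_lit 0, nat_lit 0, nat_lit 0, nat_lit 0, ⟨nat_lit 1000, nat_lit 0, nat_lit 0, nat_lit 0, nat_lit 0, nat_lit 0, nat_lit 0, nat_lit 0, nat_lit 0, nat_lit 0, nat_lit 0, nat_lit 0, nat_lit 0, nat_lit 0, nat_lit 0, nat_lit 0, false, false⟩,
 nat_lit 0, nat_lit 12562, nat_lit 0, nat_lit 0, nat_lit 7993, nat_lit 5214, nat_lit 2037, nat_lit 0, nat_lit 0, nat_lit 282, nat_lit 0, nat_lit 0, nat_lit 0, nat_lit 3679955054632, nat_lit 0, nat_lit 0, nat_lit 0, nat_lit 0, [],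
 ⟨p017_k1, nat_lit 0, nat_lit 0, nat_lit 464, nat_lit 0, nat_lit 478320, [nat_lit 3282000000, nat_lit 4688000000, nat_lit 9842000000], [], [nat_lit 21854729514, nat_lit 22656166780, nat_lit 22691512817, nat_lit 21301716147], nat_lit 1271250, nat_lit 1271250, nat_lit 382400, nat_lit 490000, nat_lit 0, nat_lit 0, [nat_lit 780000, nat_lit 1100000, nat_lit 2127500], [nat_lit 42, nat_lit 40, nat_lit 80, nat_lit 80, nat_lit 13, nat_lit 226, nat_lit 20, nat_lit 7]⟩, ⟨p017_k1, nat_lit 0, nat_lit 0, nat_lit 185, nat_lit 0, nat_lit 0, [nat_lit 3282000000, nat_lit 4688000000, nat_lit 9842000000], [], [nat_lit 27712082443, nat_lit 28545296652, nat_lit 27010477274, nat_lit 27755036298], nat_lit 0, nat_lit 0, nat_lit 0, nat_lit 0, nat_lit 0, nat_lit 0, [], [nat_lit 42, nat_lit 40, nat_lit 80, nat_lit 80, nat_lit 13, nat_lit 226, nat_lit 20, nat_lit 7]⟩,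
 zbF0, [⟨nat_lit 0, nat_lit 100, nat_lit 99, nat_lit 87, nat_lit 615041325⟩]⟩
noncomputable def p017_l62 : Lf2 := ⟨nat_lit 0, nat_lit 10, [nat_lit 0, nat_lit 5, nat_lit 5, nat_lit 20], false, nat_lit 0, nat_lit 0, nat_lit 0, nat_lit 0, ⟨nat_lit 1000, nat_lit 0, nat_lit 0, nat_lit 0, nat_lit 0, nat_lit 0, nat_lit 0, nat_lit 0, nat_lit 0, nat_lit 0, nat_lit 0, nat_lit 0, nat_lit 0, nat_lit 0, nat_lit 0, nat_lit 0, false, false⟩,
 nat_lit 0, nat_lit 11417, nat_lit 0, nat_lit 0, nat_lit 7265, nat_lit 5255, nat_lit 2078, nat_lit 0, nat_lit 0, nat_lit 0, nat_lit 0, nat_lit 0, nat_lit 0, nat_lit 23275479348601, nat_lit 0, nat_lit 0, nat_lit 0, nat_lit 0, [],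
 ⟨p017_k1, nat_lit 0, nat_lit 0, nat_lit 453, nat_lit 0, nat_lit 478320, [nat_lit 3282000000, nat_lit 4688000000, nat_lit 9842000000], [], [nat_lit 23872505410, nat_lit 20713728860, nat_lit 25186984605, nat_lit 21831437303], nat_lit 1271250, nat_lit 1271250, nat_lit 490000, nat_lit 631250, nat_lit 0, nat_lit 0, [nat_lit 780000, nat_lit 1100000, nat_lit 2127500], [nat_lit 42, nat_lit 40, nat_lit 80, nat_lit 80, nat_lit 13, nat_lit 232, nat_lit 25, nat_lit 7]⟩, ⟨p017_k1, nat_lit 0, nat_lit 0, nat_lit 172, nat_lit 0, nat_lit 0, [nat_lit 3282000000, nat_lit 4688000000, nat_lit 9842000000], [], [nat_lit 28388085080, nat_lit 29177701185, nat_lit 28522741265, nat_lit 29250638118], nat_lit 0, nat_lit 0, nat_lit 0, nat_lit 0, nat_lit 0, nat_lit 0, [], [nat_lit 42, nat_lit 40, nat_lit 80, nat_lit 80, nat_lit 13, nat_lit 232, nat_lit 25, nat_lit 7]⟩,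
 zbF0, []⟩
noncomputable def p017_l63 : Lf2 := ⟨nat_lit 0, nat_lit 10, [nat_lit 0, nat_lit 5, nat_lit 5, nat_lit 20], false, nat_lit 0, nat_lit 0, nat_lit 0, nat_lit 0, ⟨nat_lit 1000, nat_lit 0, nat_lit 0, nat_lit 0, nat_lit 0, nat_lit 0, nat_lit 0, nat_lit 0, nat_lit 0, nat_lit 0, nat_lit 0, nat_lit 0, nat_lit 0, nat_lit 0, nat_lit 0, nat_lit 0, false, false⟩,
 nat_lit 0, nat_lit 10441, nat_lit 0, nat_lit 0, nat_lit 6644, nat_lit 5297, nat_lit 1726, nat_lit 0, nat_lit 0, nat_lit 2305, nat_lit 0, nat_lit 0, nat_lit 0, nat_lit 41629536451186, nat_lit 0, nat_lit 0, nat_lit 0, nat_lit 0, [],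
 ⟨p017_k1, nat_lit 0, nat_lit 0, nat_lit 588, nat_lit 0, nat_lit 777978, [nat_lit 3282000000, nat_lit 4688000000, nat_lit 9842000000], [], [nat_lit 25452574068, nat_lit 24608017664, nat_lit 24527344862, nat_lit 24588969191], nat_lit 1271250, nat_lit 1271250, nat_lit 631250, nat_lit 780000, nat_lit 0, nat_lit 0, [nat_lit 780000, nat_lit 1100000, nat_lit 2127500], [nat_lit 42, nat_lit 40, nat_lit 80, nat_lit 80, nat_lit 13, nat_lit 238, nat_lit 30, nat_lit 7]⟩, ⟨p017_k1, nat_lit 0, nat_lit 0, nat_lit 164, nat_lit 0, nat_lit 0, [nat_lit 3282000000, nat_lit 4688000000, nat_lit 9842000000], [], [nat_lit 17002521616, nat_lit 17369047526, nat_lit 17201998044, nat_lit 17668264174], nat_lit 0, nat_lit 0, nat_lit 0, nat_lit 0, nat_lit 0, nat_lit 0, [], [nat_lit 42, nat_lit 40, nat_lit 80, nat_lit 80, nat_lit 13, nat_lit 238, nat_lit 30, nat_lit 7]⟩,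
 zbF0, []⟩
noncomputable def p017_l64 : Lf2 := ⟨nat_lit 0, nat_lit 10, [nat_lit 0, nat_lit 5, nat_lit 5, nat_lit 20], false, nat_lit 0, nat_lit 0, nat_lit 0, nat_lit 0, ⟨nat_lit 1000, nat_lit 0, nat_lit 0, nat_lit 0, nat_lit 0, nat_lit 0, nat_lit 0, nat_lit 0, nat_lit 0, nat_lit 0, nat_lit 0, nat_lit 0, nat_lit 0, nat_lit 0, nat_lit 0, nat_lit 0, false, false⟩,
 nat_lit 0, nat_lit 10451, nat_lit 0, nat_lit 0, nat_lit 6795, nat_lit 5297, nat_lit 1695, nat_lit 0, nat_lit 0, nat_lit 2305, nat_lit 0, nat_lit 0, nat_lit 0, nat_lit 0, nat_lit 0, nat_lit 0, nat_lit 0, nat_lit 0, [],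
 ⟨p017_k9, nat_lit 0, nat_lit 0, nat_lit 595, nat_lit 0, nat_lit 796053, [nat_lit 3282000000, nat_lit 4688000000, nat_lit 9842000000], [], [nat_lit 23628999072, nat_lit 22929002527, nat_lit 22814102222, nat_lit 22893866623], nat_lit 1271250, nat_lit 1271250, nat_lit 631250, nat_lit 780000, nat_lit 0, nat_lit 0, [nat_lit 780000, nat_lit 1100000, nat_lit 2127500], [nat_lit 42, nat_lit 40, nat_lit 80, nat_lit 80, nat_lit 13, nat_lit 238, nat_lit 30, nat_lit 7]⟩, ⟨p017_k1, nat_lit 0, nat_lit 0, nat_lit 164, nat_lit 0, nat_lit 0, [nat_lit 3282000000, nat_lit 4688000000, nat_lit 9842000000], [], [nat_lit 17002521616, nat_lit 17369047526, nat_lit 17201998044, nat_lit 17668264174], nat_lit 0, nat_lit 0, nat_lit 0, nat_lit 0, nat_lit 0, nat_lit 0, [], [nat_lit 42, nat_lit 40, nat_lit 80, nat_lit 80, nat_lit 13, nat_lit 238, nat_lit 30, nat_lit 7]⟩,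
 zbF0, []⟩
noncomputable def p017_l65 : Lf2 := ⟨nat_lit 0, nat_lit 10, [nat_lit 0, nat_lit 5, nat_lit 5, nat_lit 20], false, nat_lit 0, nat_lit 0, nat_lit 0, nat_lit 0, ⟨nat_lit 1000, nat_lit 0, nat_lit 0, nat_lit 0, nat_lit 0, nat_lit 0, nat_lit 0, nat_lit 0, nat_lit 0, nat_lit 0, nat_lit 0, nat_lit 0, nat_lit 0, nat_lit 0, nat_lit 0, nat_lit 0, false, false⟩,
 nat_lit 0, nat_lit 10463, nat_lit 0, nat_lit 0, nat_lit 6802, nat_lit 5273, nat_lit 1732, nat_lit 0, nat_lit 0, nat_lit 2294, nat_lit 0, nat_lit 0, nat_lit 0, nat_lit 42105549116574, nat_lit 0, nat_lit 0, nat_lit 0, nat_lit 0, [],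
 ⟨p017_k9, nat_lit 0, nat_lit 0, nat_lit 599, nat_lit 0, nat_lit 807972, [nat_lit 3282000000, nat_lit 4688000000, nat_lit 9842000000], [], [nat_lit 23603172412, nat_lit 23086742472, nat_lit 22917150217, nat_lit 23040347440], nat_lit 1271250, nat_lit 1271250, nat_lit 631250, nat_lit 780000, nat_lit 0, nat_lit 0, [nat_lit 780000, nat_lit 1100000, nat_lit 2127500], [nat_lit 42, nat_lit 40, nat_lit 80, nat_lit 80, nat_lit 13, nat_lit 238, nat_lit 30, nat_lit 7]⟩, ⟨p017_k9, nat_lit 0, nat_lit 0, nat_lit 166, nat_lit 0, nat_lit 0, [nat_lit 3282000000, nat_lit 4688000000, nat_lit 9842000000], [], [nat_lit 16930841055, nat_lit 17149615357, nat_lit 17160450112, nat_lit 17439450571], nat_lit 0, nat_lit 0, nat_lit 0, nat_lit 0, nat_lit 0, nat_lit 0, [], [nat_lit 42, nat_lit 40, nat_lit 80, nat_lit 80, nat_lit 13, nat_lit 238, nat_lit 30, nat_lit 7]⟩,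
 zbF0, []⟩
noncomputable def p017_l66 : Lf2 := ⟨nat_lit 0, nat_lit 10, [nat_lit 0, nat_lit 5, nat_lit 5, nat_lit 20], false, nat_lit 0, nat_lit 0, nat_lit 0, nat_lit 0, ⟨nat_lit 1000, nat_lit 0, nat_lit 0, nat_lit 0, nat_lit 0, nat_lit 0, nat_lit 0, nat_lit 0, nat_lit 0, nat_lit 0, nat_lit 0, nat_lit 0, nat_lit 0, nat_lit 0, nat_lit 0, nat_lit 0, false, false⟩,
 nat_lit 0, nat_lit 10676, nat_lit 0, nat_lit 0, nat_lit 7030, nat_lit 5749, nat_lit 1678, nat_lit 0, nat_lit 0, nat_lit 2433, nat_lit 0, nat_lit 0, nat_lit 0, nat_lit 45070946236254, nat_lit 0, nat_lit 0, nat_lit 0, nat_lit 0, [],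
 ⟨p017_k10, nat_lit 0, nat_lit 0, nat_lit 528, nat_lit 0, nat_lit 828583, [nat_lit 3282000000, nat_lit 4688000000, nat_lit 7968000000], [], [nat_lit 20932377890, nat_lit 20603915790, nat_lit 22428549372, nat_lit 22101662105], nat_lit 1271250, nat_lit 1271250, nat_lit 631250, nat_lit 780000, nat_lit 0, nat_lit 0, [nat_lit 780000, nat_lit 1100000, nat_lit 1785000], [nat_lit 36, nat_lit 40, nat_lit 80, nat_lit 80, nat_lit 7, nat_lit 238, nat_lit 30, nat_lit 8]⟩, ⟨p017_k9, nat_lit 0, nat_lit 0, nat_lit 167, nat_lit 0, nat_lit 0, [nat_lit 3282000000, nat_lit 4688000000, nat_lit 9842000000], [], [nat_lit 16335714720, nat_lit 16760655180, nat_lit 16536001925, nat_lit 17026099076], nat_lit 0, nat_lit 0, nat_lit 0, nat_lit 0, nat_lit 0, nat_lit 0, [], [nat_lit 42, nat_lit 40, nat_lit 80, nat_lit 80, nat_lit 13, nat_lit 238, nat_lit 30, nat_lit 7]⟩,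
 zbF0, []⟩
noncomputable def p017_l67 : Lf2 := ⟨nat_lit 0, nat_lit 10, [nat_lit 0, nat_lit 5, nat_lit 5, nat_lit 20], false, nat_lit 0, nat_lit 0, nat_lit 0, nat_lit 0, ⟨nat_lit 1000, nat_lit 0, nat_lit 0, nat_lit 0, nat_lit 0, nat_lit 0, nat_lit 0, nat_lit 0, nat_lit 0, nat_lit 0, nat_lit 0, nat_lit 0, nat_lit 0, nat_lit 0, nat_lit 0, nat_lit 0, false, false⟩,
 nat_lit 0, nat_lit 11352, nat_lit 0, nat_lit 0, nat_lit 7539, nat_lit 5258, nat_lit 1513, nat_lit 0, nat_lit 0, nat_lit 2278, nat_lit 0, nat_lit 0, nat_lit 0, nat_lit 0, nat_lit 0, nat_lit 0, nat_lit 0, nat_lit 0, [],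
 ⟨p017_k3, nat_lit 0, nat_lit 0, nat_lit 554, nat_lit 0, nat_lit 900134, [nat_lit 3282000000, nat_lit 4688000000, nat_lit 7968000000], [], [nat_lit 20101600184, nat_lit 20559704358, nat_lit 21210902162, nat_lit 20551921068], nat_lit 1271250, nat_lit 1271250, nat_lit 631250, nat_lit 780000, nat_lit 0, nat_lit 0, [nat_lit 780000, nat_lit 1100000, nat_lit 1785000], [nat_lit 36, nat_lit 40, nat_lit 80, nat_lit 80, nat_lit 7, nat_lit 238, nat_lit 30, nat_lit 8]⟩, ⟨p017_k1, nat_lit 0, nat_lit 0, nat_lit 167, nat_lit 0, nat_lit 0, [nat_lit 3282000000, nat_lit 4688000000, nat_lit 9842000000], [], [nat_lit 17166103924, nat_lit 17894225913, nat_lit 17300576770, nat_lit 18180967642], nat_lit 0, nat_lit 0, nat_lit 0, nat_lit 0, nat_lit 0, nat_lit 0, [], [nat_lit 42, nat_lit 40, nat_lit 80, nat_lit 80, nat_lit 13, nat_lit 238, nat_lit 30, nat_lit 7]⟩,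
 zbF0, []⟩
noncomputable def p017_l68 : Lf2 := ⟨nat_lit 0, nat_lit 10, [nat_lit 0, nat_lit 5, nat_lit 5, nat_lit 20], false, nat_lit 0, nat_lit 0, nat_lit 0, nat_lit 0, ⟨nat_lit 1000, nat_lit 0, nat_lit 0, nat_lit 0, nat_lit 0, nat_lit 0, nat_lit 0, nat_lit 0, nat_lit 0, nat_lit 0, nat_lit 0, nat_lit 0, nat_lit 0, nat_lit 0, nat_lit 0, nat_lit 0, false, false⟩,
 nat_lit 0, nat_lit 10810, nat_lit 0, nat_lit 0, nat_lit 6878, nat_lit 5124, nat_lit 2022, nat_lit 0, nat_lit 0, nat_lit 0, nat_lit 0, nat_lit 0, nat_lit 0, nat_lit 0, nat_lit 0, nat_lit 0, nat_lit 0, nat_lit 0, [],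
 ⟨p017_k1, nat_lit 0, nat_lit 0, nat_lit 344, nat_lit 0, nat_lit 287675, [nat_lit 3282000000, nat_lit 4688000000, nat_lit 9842000000], [], [nat_lit 19955183052, nat_lit 20935523563, nat_lit 19472957868, nat_lit 19904110180], nat_lit 1271250, nat_lit 1271250, nat_lit 382400, nat_lit 490000, nat_lit 0, nat_lit 0, [nat_lit 780000, nat_lit 1100000, nat_lit 2127500], [nat_lit 42, nat_lit 40, nat_lit 80, nat_lit 80, nat_lit 13, nat_lit 226, nat_lit 20, nat_lit 7]⟩, ⟨p017_k1, nat_lit 0, nat_lit 0, nat_lit 185, nat_lit 0, nat_lit 0, [nat_lit 3282000000, nat_lit 4688000000, nat_lit 9842000000], [], [nat_lit 29069144868, nat_lit 29893394280, nat_lit 28477503584, nat_lit 29215050168], nat_lit 0, nat_lit 0, nat_lit 0, nat_lit 0, nat_lit 0, nat_lit 0, [], [nat_lit 42, nat_lit 40, nat_lit 80, nat_lit 80, nat_lit 13, nat_lit 226, nat_lit 20, nat_lit 7]⟩,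
 zbF0, [⟨nat_lit 0, nat_lit 100, nat_lit 100, nat_lit 80, nat_lit 826436140⟩]⟩
noncomputable def p017_l69 : Lf2 := ⟨nat_lit 0, nat_lit 10, [nat_lit 0, nat_lit 5, nat_lit 5, nat_lit 20], false, nat_lit 0, nat_lit 0, nat_lit 0, nat_lit 0, ⟨nat_lit 1000, nat_lit 0, nat_lit 0, nat_lit 0, nat_lit 0, nat_lit 0, nat_lit 0, nat_lit 0, nat_lit 0, nat_lit 0, nat_lit 0, nat_lit 0, nat_lit 0, nat_lit 0, nat_lit 0, nat_lit 0, false, false⟩,
 nat_lit 0, nat_lit 9497, nat_lit 0, nat_lit 0, nat_lit 6043, nat_lit 5214, nat_lit 1941, nat_lit 0, nat_lit 0, nat_lit 0, nat_lit 0, nat_lit 0, nat_lit 0, nat_lit 12461683239152, nat_lit 0, nat_lit 0, nat_lit 0, nat_lit 0, [],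
 ⟨p017_k1, nat_lit 0, nat_lit 0, nat_lit 332, nat_lit 0, nat_lit 287675, [nat_lit 3282000000, nat_lit 4688000000, nat_lit 9842000000], [], [nat_lit 21379454869, nat_lit 20878640393, nat_lit 20282589705, nat_lit 20941308201], nat_lit 1271250, nat_lit 1271250, nat_lit 490000, nat_lit 631250, nat_lit 0, nat_lit 0, [nat_lit 780000, nat_lit 1100000, nat_lit 2127500], [nat_lit 42, nat_lit 40, nat_lit 80, nat_lit 80, nat_lit 13, nat_lit 232, nat_lit 25, nat_lit 7]⟩, ⟨p017_k1, nat_lit 0, nat_lit 0, nat_lit 172, nat_lit 0, nat_lit 0, [nat_lit 3282000000, nat_lit 4688000000, nat_lit 9842000000], [], [nat_lit 28416071024, nat_lit 29160630048, nat_lit 28553232842, nat_lit 29278052829], nat_lit 0, nat_lit 0, nat_lit 0, nat_lit 0, nat_lit 0, nat_lit 0, [], [nat_lit 42, nat_lit 40, nat_lit 80, nat_lit 80, nat_lit 13, nat_lit 232, nat_lit 25, nat_lit 7]⟩,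
 zbF0, [⟨nat_lit 0, nat_lit 100, nat_lit 100, nat_lit 90, nat_lit 169994714⟩]⟩
noncomputable def p017_l70 : Lf2 := ⟨nat_lit 0, nat_lit 10, [nat_lit 0, nat_lit 5, nat_lit 5, nat_lit 20], false, nat_lit 0, nat_lit 0, nat_lit 0, nat_lit 0, ⟨nat_lit 1000, nat_lit 0, nat_lit 0, nat_lit 0, nat_lit 0, nat_lit 0, nat_lit 0, nat_lit 0, nat_lit 0, nat_lit 0, nat_lit 0, nat_lit 0, nat_lit 0, nat_lit 0, nat_lit 0, nat_lit 0, false, false⟩,
 nat_lit 0, nat_lit 9392, nat_lit 0, nat_lit 0, nat_lit 5976, nat_lit 5258, nat_lit 1695, nat_lit 0, nat_lit 0, nat_lit 0, nat_lit 0, nat_lit 0, nat_lit 0, nat_lit 6389833479534, nat_lit 0, nat_lit 0, nat_lit 0, nat_lit 0, [],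
 ⟨p017_k1, nat_lit 0, nat_lit 0, nat_lit 469, nat_lit 0, nat_lit 555925, [nat_lit 3282000000, nat_lit 4688000000, nat_lit 9842000000], [], [nat_lit 26177022072, nat_lit 24655293521, nat_lit 26028984023, nat_lit 24699863123], nat_lit 1271250, nat_lit 1271250, nat_lit 631250, nat_lit 780000, nat_lit 0, nat_lit 0, [nat_lit 780000, nat_lit 1100000, nat_lit 2127500], [nat_lit 42, nat_lit 40, nat_lit 80, nat_lit 80, nat_lit 13, nat_lit 238, nat_lit 30, nat_lit 7]⟩, ⟨p017_k1, nat_lit 0, nat_lit 0, nat_lit 167, nat_lit 0, nat_lit 0, [nat_lit 3282000000, nat_lit 4688000000, nat_lit 9842000000], [], [nat_lit 28520510174, nat_lit 29248632163, nat_lit 28654983020, nat_lit 29363239670], nat_lit 0, nat_lit 0, nat_lit 0, nat_lit 0, nat_lit 0, nat_lit 0, [], [nat_lit 42, nat_lit 40, nat_lit 80, nat_lit 80, nat_lit 13, nat_lit 238, nat_lit 30, nat_lit 7]⟩,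
 zbF0, []⟩
noncomputable def p017_l71 : Lf2 := ⟨nat_lit 0, nat_lit 10, [nat_lit 0, nat_lit 5, nat_lit 5, nat_lit 20], false, nat_lit 0, nat_lit 0, nat_lit 0, nat_lit 0, ⟨nat_lit 1000, nat_lit 0, nat_lit 0, nat_lit 0, nat_lit 0, nat_lit 0, nat_lit 0, nat_lit 0, nat_lit 0, nat_lit 0, nat_lit 0, nat_lit 0, nat_lit 0, nat_lit 0, nat_lit 0, nat_lit 0, false, false⟩,
 nat_lit 0, nat_lit 10134, nat_lit 0, nat_lit 0, nat_lit 6730, nat_lit 5131, nat_lit 1587, nat_lit 0, nat_lit 0, nat_lit 0, nat_lit 0, nat_lit 0, nat_lit 0, nat_lit 0, nat_lit 0, nat_lit 0, nat_lit 0, nat_lit 0, [],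
 ⟨p017_k3, nat_lit 0, nat_lit 0, nat_lit 430, nat_lit 0, nat_lit 607715, [nat_lit 3282000000, nat_lit 4688000000, nat_lit 7968000000], [], [nat_lit 20765009194, nat_lit 21262672531, nat_lit 22754777930, nat_lit 21190089945], nat_lit 1271250, nat_lit 1271250, nat_lit 435600, nat_lit 780000, nat_lit 0, nat_lit 0, [nat_lit 780000, nat_lit 1100000, nat_lit 1785000], [nat_lit 36, nat_lit 40, nat_lit 80, nat_lit 80, nat_lit 7, nat_lit 238, nat_lit 30, nat_lit 8]⟩, ⟨p017_k1, nat_lit 0, nat_lit 0, nat_lit 178, nat_lit 0, nat_lit 0, [nat_lit 3282000000, nat_lit 4688000000, nat_lit 9842000000], [], [nat_lit 28769127897, nat_lit 29511355187, nat_lit 28757193890, nat_lit 29456284315], nat_lit 0, nat_lit 0, nat_lit 0, nat_lit 0, nat_lit 0, nat_lit 0, [], [nat_lit 42, nat_lit 40, nat_lit 80, nat_lit 80, nat_lit 13, nat_lit 238, nat_lit 30, nat_lit 7]⟩,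
 zbF0, [⟨nat_lit 0, nat_lit 100, nat_lit 97, nat_lit 94, nat_lit 504690660⟩]⟩
noncomputable def p017_l72 : Lf2 := ⟨nat_lit 0, nat_lit 10, [nat_lit 0, nat_lit 5, nat_lit 5, nat_lit 20], false, nat_lit 0, nat_lit 0, nat_lit 0, nat_lit 0, ⟨nat_lit 1000, nat_lit 0, nat_lit 0, nat_lit 0, nat_lit 0, nat_lit 0, nat_lit 0, nat_lit 0, nat_lit 0, nat_lit 0, nat_lit 0, nat_lit 0, nat_lit 0, nat_lit 0, nat_lit 0, nat_lit 0, false, false⟩,
 nat_lit 0, nat_lit 9725, nat_lit 0, nat_lit 0, nat_lit 6188, nat_lit 5341, nat_lit 1565, nat_lit 0, nat_lit 0, nat_lit 1687, nat_lit 0, nat_lit 0, nat_lit 0, nat_lit 6241029174106, nat_lit 0, nat_lit 0, nat_lit 0, nat_lit 0, [],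
 ⟨p017_k1, nat_lit 0, nat_lit 0, nat_lit 590, nat_lit 0, nat_lit 804991, [nat_lit 3282000000, nat_lit 4688000000, nat_lit 9842000000], [], [nat_lit 27740495264, nat_lit 26947669732, nat_lit 28750693397, nat_lit 28340294983], nat_lit 1271250, nat_lit 1271250, nat_lit 780000, nat_lit 1762500, nat_lit 0, nat_lit 0, [nat_lit 780000, nat_lit 1100000, nat_lit 2127500], [nat_lit 42, nat_lit 40, nat_lit 80, nat_lit 80, nat_lit 13, nat_lit 272, nat_lit 60, nat_lit 8]⟩, ⟨p017_k1, nat_lit 0, nat_lit 0, nat_lit 159, nat_lit 0, nat_lit 0, [nat_lit 3282000000, nat_lit 4688000000, nat_lit 9842000000], [], [nat_lit 20179543165, nat_lit 20536666753, nat_lit 23009553635, nat_lit 23327626459], nat_lit 0, nat_lit 0, nat_lit 0, nat_lit 0, nat_lit 0, nat_lit 0, [], [nat_lit 42, nat_lit 40, nat_lit 80, nat_lit 80, nat_lit 13, nat_lit 272, nat_lit 60, nat_lit 8]⟩,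
 zbF0, []⟩
noncomputable def p017_l73 : Lf2 := ⟨nat_lit 0, nat_lit 10, [nat_lit 0, nat_lit 5, nat_lit 5, nat_lit 20], false, nat_lit 0, nat_lit 0, nat_lit 0, nat_lit 0, ⟨nat_lit 1000, nat_lit 0, nat_lit 0, nat_lit 0, nat_lit 0, nat_lit 0, nat_lit 0, nat_lit 0, nat_lit 0, nat_lit 0, nat_lit 0, nat_lit 0, nat_lit 0, nat_lit 0, nat_lit 0, nat_lit 0, false, false⟩,
 nat_lit 0, nat_lit 10743, nat_lit 0, nat_lit 0, nat_lit 6984, nat_lit 5302, nat_lit 1454, nat_lit 0, nat_lit 0, nat_lit 2186, nat_lit 0, nat_lit 0, nat_lit 0, nat_lit 5536038566528, nat_lit 0, nat_lit 0, nat_lit 0, nat_lit 0, [],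
 ⟨p017_k9, nat_lit 0, nat_lit 0, nat_lit 613, nat_lit 0, nat_lit 872209, [nat_lit 3282000000, nat_lit 4688000000, nat_lit 9842000000], [], [nat_lit 26052009736, nat_lit 25158171904, nat_lit 30889918596, nat_lit 30099315828], nat_lit 1271250, nat_lit 1271250, nat_lit 780000, nat_lit 1762500, nat_lit 0, nat_lit 0, [nat_lit 780000, nat_lit 1100000, nat_lit 2127500], [nat_lit 42, nat_lit 40, nat_lit 80, nat_lit 80, nat_lit 13, nat_lit 272, nat_lit 60, nat_lit 8]⟩, ⟨p017_k1, nat_lit 0, nat_lit 0, nat_lit 161, nat_lit 0, nat_lit 0, [nat_lit 3282000000, nat_lit 4688000000, nat_lit 9842000000], [], [nat_lit 17723727630, nat_lit 18435159980, nat_lit 21352756608, nat_lit 22096203336], nat_lit 0, nat_lit 0, nat_lit 0, nat_lit 0, nat_lit 0, nat_lit 0, [], [nat_lit 42, nat_lit 40, nat_lit 80, nat_lit 80, nat_lit 13, nat_lit 272, nat_lit 60, nat_lit 8]⟩,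
 zbF0, []⟩
noncomputable def p017_l74 : Lf2 := ⟨nat_lit 0, nat_lit 10, [nat_lit 0, nat_lit 5, nat_lit 5, nat_lit 20], false, nat_lit 0, nat_lit 0, nat_lit 0, nat_lit 0, ⟨nat_lit 1000, nat_lit 0, nat_lit 0, nat_lit 0, nat_lit 0, nat_lit 0, nat_lit 0, nat_lit 0, nat_lit 0, nat_lit 0, nat_lit 0, nat_lit 0, nat_lit 0, nat_lit 0, nat_lit 0, nat_lit 0, false, false⟩,
 nat_lit 0, nat_lit 10681, nat_lit 0, nat_lit 0, nat_lit 7093, nat_lit 5302, nat_lit 1372, nat_lit 0, nat_lit 0, nat_lit 2211, nat_lit 0, nat_lit 0, nat_lit 0, nat_lit 0, nat_lit 0, nat_lit 0, nat_lit 0, nat_lit 0, [],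
 ⟨p017_k3, nat_lit 0, nat_lit 0, nat_lit 559, nat_lit 0, nat_lit 930780, [nat_lit 3282000000, nat_lit 4688000000, nat_lit 7968000000], [], [nat_lit 24759559653, nat_lit 23153518081, nat_lit 25870652922, nat_lit 24278923470], nat_lit 1271250, nat_lit 1271250, nat_lit 780000, nat_lit 1762500, nat_lit 0, nat_lit 0, [nat_lit 780000, nat_lit 1100000, nat_lit 1785000], [nat_lit 36, nat_lit 40, nat_lit 80, nat_lit 80, nat_lit 7, nat_lit 272, nat_lit 60, nat_lit 9]⟩, ⟨p017_k1, nat_lit 0, nat_lit 0, nat_lit 161, nat_lit 0, nat_lit 0, [nat_lit 3282000000, nat_lit 4688000000, nat_lit 9842000000], [], [nat_lit 17599118255, nat_lit 18310550605, nat_lit 21352756608, nat_lit 22096203336], nat_lit 0, nat_lit 0, nat_lit 0, nat_lit 0, nat_lit 0, nat_lit 0, [], [nat_lit 42, nat_lit 40, nat_lit 80, nat_lit 80, nat_lit 13, nat_lit 272, nat_lit 60, nat_lit 8]⟩,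
 zbF0, []⟩
noncomputable def p017_l75 : Lf2 := ⟨nat_lit 0, nat_lit 10, [nat_lit 0, nat_lit 5, nat_lit 5, nat_lit 20], false, nat_lit 0, nat_lit 0, nat_lit 0, nat_lit 0, ⟨nat_lit 1000, nat_lit 0, nat_lit 0, nat_lit 0, nat_lit 0, nat_lit 0, nat_lit 0, nat_lit 0, nat_lit 0, nat_lit 0, nat_lit 0, nat_lit 0, nat_lit 0, nat_lit 0, nat_lit 0, nat_lit 0, false, false⟩,
 nat_lit 0, nat_lit 11386, nat_lit 0, nat_lit 0, nat_lit 7561, nat_lit 5507, nat_lit 1549, nat_lit 0, nat_lit 0, nat_lit 0, nat_lit 0, nat_lit 0, nat_lit 0, nat_lit 22015011047910, nat_lit 0, nat_lit 0, nat_lit 0, nat_lit 0, [],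
 ⟨p017_k3, nat_lit 0, nat_lit 0, nat_lit 602, nat_lit 0, nat_lit 936542, [nat_lit 3282000000, nat_lit 4688000000, nat_lit 7968000000], [], [nat_lit 19875839750, nat_lit 20112240426, nat_lit 20989903439, nat_lit 20111645818], nat_lit 1271250, nat_lit 1271250, nat_lit 490000, nat_lit 780000, nat_lit 0, nat_lit 0, [nat_lit 780000, nat_lit 1100000, nat_lit 1785000], [nat_lit 36, nat_lit 40, nat_lit 80, nat_lit 80, nat_lit 7, nat_lit 238, nat_lit 30, nat_lit 8]⟩, ⟨p017_k3, nat_lit 0, nat_lit 0, nat_lit 137, nat_lit 0, nat_lit 0, [nat_lit 3282000000, nat_lit 4688000000, nat_lit 7968000000], [], [nat_lit 24515985518, nat_lit 24991411443, nat_lit 24817384086, nat_lit 25220408054], nat_lit 0, nat_lit 0, nat_lit 0, nat_lit 0, nat_lit 0, nat_lit 0, [], [nat_lit 36, nat_lit 40, nat_lit 80, nat_lit 80, nat_lit 7, nat_lit 238, nat_lit 30, nat_lit 8]⟩,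
 zbF0, [⟨nat_lit 0, nat_lit 100, nat_lit 100, nat_lit 95, nat_lit 551402099⟩]⟩
noncomputable def p017_l76 : Lf2 := ⟨nat_lit 0, nat_lit 10, [nat_lit 0, nat_lit 5, nat_lit 5, nat_lit 20], false, nat_lit 0, nat_lit 0, nat_lit 0, nat_lit 0, ⟨nat_lit 1000, nat_lit 0, nat_lit 0, nat_lit 0, nat_lit 0, nat_lit 0, nat_lit 0, nat_lit 0, nat_lit 0, nat_lit 0, nat_lit 0, nat_lit 0, nat_lit 0, nat_lit 0, nat_lit 0, nat_lit 0, false, false⟩,
 nat_lit 0, nat_lit 9946, nat_lit 0, nat_lit 0, nat_lit 6605, nat_lit 5507, nat_lit 1504, nat_lit 0, nat_lit 0, nat_lit 0, nat_lit 0, nat_lit 0, nat_lit 0, nat_lit 6058272406169, nat_lit 0, nat_lit 0, nat_lit 0, nat_lit 0, [],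
 ⟨p017_k3, nat_lit 0, nat_lit 0, nat_lit 560, nat_lit 0, nat_lit 936542, [nat_lit 3282000000, nat_lit 4688000000, nat_lit 7968000000], [], [nat_lit 25099412213, nat_lit 24252708664, nat_lit 26301837670, nat_lit 25883286228], nat_lit 1271250, nat_lit 1271250, nat_lit 780000, nat_lit 1762500, nat_lit 0, nat_lit 0, [nat_lit 780000, nat_lit 1100000, nat_lit 1785000], [nat_lit 36, nat_lit 40, nat_lit 80, nat_lit 80, nat_lit 7, nat_lit 272, nat_lit 60, nat_lit 9]⟩, ⟨p017_k3, nat_lit 0, nat_lit 0, nat_lit 127, nat_lit 0, nat_lit 0, [nat_lit 3282000000, nat_lit 4688000000, nat_lit 7968000000], [], [nat_lit 24817384086, nat_lit 25220408054, nat_lit 28042130815, nat_lit 28400711255], nat_lit 0, nat_lit 0, nat_lit 0, nat_lit 0, nat_lit 0, nat_lit 0, [], [nat_lit 36, nat_lit 40, nat_lit 80, nat_lit 80, nat_lit 7, nat_lit 272, nat_lit 60, nat_lit 9]⟩,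
 zbF0, []⟩
noncomputable def p017_l77 : Lf2 := ⟨nat_lit 0, nat_lit 10, [nat_lit 0, nat_lit 5, nat_lit 5, nat_lit 20], false, nat_lit 0, nat_lit 0, nat_lit 0, nat_lit 0, ⟨nat_lit 1000, nat_lit 0, nat_lit 0, nat_lit 0, nat_lit 0, nat_lit 0, nat_lit 0, nat_lit 0, nat_lit 0, nat_lit 0, nat_lit 0, nat_lit 0, nat_lit 0, nat_lit 0, nat_lit 0, nat_lit 0, false, false⟩,
 nat_lit 0, nat_lit 9452, nat_lit 0, nat_lit 0, nat_lit 6409, nat_lit 5400, nat_lit 1549, nat_lit 0, nat_lit 0, nat_lit 0, nat_lit 0, nat_lit 0, nat_lit 0, nat_lit 30899340544763, nat_lit 0, nat_lit 0, nat_lit 0, nat_lit 0, [],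
 ⟨p017_k12, nat_lit 0, nat_lit 0, nat_lit 611, nat_lit 0, nat_lit 962814, [nat_lit 3282000000, nat_lit 4688000000, nat_lit 7968000000], [], [nat_lit 23648855357, nat_lit 23158811934, nat_lit 28779672310, nat_lit 28344365340], nat_lit 1271250, nat_lit 1271250, nat_lit 517650, nat_lit 1742250, nat_lit 0, nat_lit 0, [nat_lit 780000, nat_lit 1100000, nat_lit 1785000], [nat_lit 36, nat_lit 40, nat_lit 80, nat_lit 80, nat_lit 7, nat_lit 272, nat_lit 60, nat_lit 9]⟩, ⟨p017_k3, nat_lit 0, nat_lit 0, nat_lit 138, nat_lit 0, nat_lit 0, [nat_lit 3282000000, nat_lit 4688000000, nat_lit 7968000000], [], [nat_lit 24602588600, nat_lit 25273411033, nat_lit 28057504600, nat_lit 28605244841], nat_lit 0, nat_lit 0, nat_lit 0, nat_lit 0, nat_lit 0, nat_lit 0, [], [nat_lit 36, nat_lit 40, nat_lit 80, nat_lit 80, nat_lit 7, nat_lit 272, nat_lit 60, nat_lit 9]⟩,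
 zbF0, [⟨nat_lit 0, nat_lit 100, nat_lit 100, nat_lit 98, nat_lit 256504485⟩]⟩
noncomputable def p017_l78 : Lf2 := ⟨nat_lit 0, nat_lit 10, [nat_lit 0, nat_lit 5, nat_lit 5, nat_lit 20], false, nat_lit 0, nat_lit 0, nat_lit 0, nat_lit 0, ⟨nat_lit 1000, nat_lit 0, nat_lit 0, nat_lit 0, nat_lit 0, nat_lit 0, nat_lit 0, nat_lit 0, nat_lit 0, nat_lit 0, nat_lit 0, nat_lit 0, nat_lit 0, nat_lit 0, nat_lit 0, nat_lit 0, false, false⟩,
 nat_lit 0, nat_lit 9706, nat_lit 0, nat_lit 0, nat_lit 6664, nat_lit 5390, nat_lit 1546, nat_lit 0, nat_lit 0, nat_lit 0, nat_lit 0, nat_lit 0, nat_lit 0, nat_lit 32750304055671, nat_lit 0, nat_lit 0, nat_lit 0, nat_lit 0, [],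
 ⟨p017_k21, nat_lit 0, nat_lit 0, nat_lit 616, nat_lit 0, nat_lit 981065, [nat_lit 3282000000, nat_lit 4688000000, nat_lit 7968000000], [], [nat_lit 21770856105, nat_lit 21431594146, nat_lit 27514564384, nat_lit 27212813132], nat_lit 1271250, nat_lit 1271250, nat_lit 545600, nat_lit 1744500, nat_lit 0, nat_lit 0, [nat_lit 780000, nat_lit 1100000, nat_lit 1785000], [nat_lit 36, nat_lit 40, nat_lit 80, nat_lit 80, nat_lit 7, nat_lit 272, nat_lit 60, nat_lit 9]⟩, ⟨p017_k3, nat_lit 0, nat_lit 0, nat_lit 138, nat_lit 0, nat_lit 0, [nat_lit 3282000000, nat_lit 4688000000, nat_lit 7968000000], [], [nat_lit 24646507380, nat_lit 25479538508, nat_lit 28066964110, nat_lit 28746042380], nat_lit 0, nat_lit 0, nat_lit 0, nat_lit 0, nat_lit 0, nat_lit 0, [], [nat_lit 36, nat_lit 40, nat_lit 80, nat_lit 80, nat_lit 7, nat_lit 272, nat_lit 60, nat_lit 9]⟩,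
 zbF0, [⟨nat_lit 0, nat_lit 100, nat_lit 100, nat_lit 100, nat_lit 227574417⟩]⟩
noncomputable def p017_l79 : Lf2 := ⟨nat_lit 0, nat_lit 10, [nat_lit 0, nat_lit 5, nat_lit 5, nat_lit 20], false, nat_lit 0, nat_lit 0, nat_lit 0, nat_lit 0, ⟨nat_lit 1000, nat_lit 0, nat_lit 0, nat_lit 0, nat_lit 0, nat_lit 0, nat_lit 0, nat_lit 0, nat_lit 0, nat_lit 0, nat_lit 0, nat_lit 0, nat_lit 0, nat_lit 0, nat_lit 0, nat_lit 0, false, false⟩,
 nat_lit 0, nat_lit 9721, nat_lit 0, nat_lit 0, nat_lit 6186, nat_lit 6093, nat_lit 1331, nat_lit 0, nat_lit 0, nat_lit 1132, nat_lit 0, nat_lit 0, nat_lit 0, nat_lit 0, nat_lit 0, nat_lit 0, nat_lit 0, nat_lit 0, [],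
 ⟨p017_k1, nat_lit 0, nat_lit 0, nat_lit 591, nat_lit 0, nat_lit 898800, [nat_lit 3282000000, nat_lit 4688000000, nat_lit 9842000000], [], [nat_lit 31547481006, nat_lit 31776087944, nat_lit 36559884232, nat_lit 36801161372], nat_lit 1271250, nat_lit 1271250, nat_lit 1271250, nat_lit 1271250, nat_lit 0, nat_lit 0, [nat_lit 780000, nat_lit 1100000, nat_lit 2127500], [nat_lit 42, nat_lit 40, nat_lit 80, nat_lit 80, nat_lit 13, nat_lit 317, nat_lit 100, nat_lit 9]⟩, ⟨p017_k1, nat_lit 0, nat_lit 0, nat_lit 206, nat_lit 0, nat_lit 0, [nat_lit 3282000000, nat_lit 4688000000, nat_lit 9842000000], [], [nat_lit 26744943812, nat_lit 27320869741, nat_lit 36155160844, nat_lit 36553726308], nat_lit 0, nat_lit 0, nat_lit 0, nat_lit 0, nat_lit 0, nat_lit 0, [], [nat_lit 42, nat_lit 40, nat_lit 80, nat_lit 80, nat_lit 13, nat_lit 317, nat_lit 100, nat_lit 9]⟩,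
 zbF0, []⟩
noncomputable def p017_l80 : Lf2 := ⟨nat_lit 0, nat_lit 10, [nat_lit 0, nat_lit 5, nat_lit 5, nat_lit 20], false, nat_lit 0, nat_lit 0, nat_lit 0, nat_lit 0, ⟨nat_lit 1000, nat_lit 0, nat_lit 0, nat_lit 0, nat_lit 0, nat_lit 0, nat_lit 0, nat_lit 0, nat_lit 0, nat_lit 0, nat_lit 0, nat_lit 0, nat_lit 0, nat_lit 0, nat_lit 0, nat_lit 0, false, false⟩,
 nat_lit 0, nat_lit 8844, nat_lit 0, nat_lit 0, nat_lit 5873, nat_lit 6257, nat_lit 1275, nat_lit 0, nat_lit 0, nat_lit 1041, nat_lit 0, nat_lit 0, nat_lit 0, nat_lit 0, nat_lit 0, nat_lit 0, nat_lit 0, nat_lit 0, [],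
 ⟨p017_k3, nat_lit 0, nat_lit 0, nat_lit 580, nat_lit 0, nat_lit 1027518, [nat_lit 3282000000, nat_lit 4688000000, nat_lit 7968000000], [], [nat_lit 31709629114, nat_lit 31975521408, nat_lit 36352265890, nat_lit 36550230490], nat_lit 1271250, nat_lit 1271250, nat_lit 1271250, nat_lit 1271250, nat_lit 0, nat_lit 0, [nat_lit 780000, nat_lit 1100000, nat_lit 1785000], [nat_lit 36, nat_lit 40, nat_lit 80, nat_lit 80, nat_lit 7, nat_lit 233, nat_lit 0, nat_lit 7]⟩, ⟨p017_k1, nat_lit 0, nat_lit 0, nat_lit 207, nat_lit 0, nat_lit 0, [nat_lit 3282000000, nat_lit 4688000000, nat_lit 9842000000], [], [nat_lit 27042817713, nat_lit 28210102955, nat_lit 36779005081, nat_lit 37585282802], nat_lit 0, nat_lit 0, nat_lit 0, nat_lit 0, nat_lit 0, nat_lit 0, [], [nat_lit 42, nat_lit 40, nat_lit 80, nat_lit 80, nat_lit 13, nat_lit 317, nat_lit 100, nat_lit 9]⟩,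
 zbF0, []⟩
noncomputable def p017_l81 : Lf2 := ⟨nat_lit 0, nat_lit 10, [nat_lit 0, nat_lit 5, nat_lit 5, nat_lit 20], false, nat_lit 0, nat_lit 0, nat_lit 0, nat_lit 0, ⟨nat_lit 1000, nat_lit 0, nat_lit 0, nat_lit 0, nat_lit 0, nat_lit 0, nat_lit 0, nat_lit 0, nat_lit 0, nat_lit 0, nat_lit 0, nat_lit 0, nat_lit 0, nat_lit 0, nat_lit 0, nat_lit 0, false, false⟩,
 nat_lit 0, nat_lit 9920, nat_lit 0, nat_lit 0, nat_lit 6867, nat_lit 5226, nat_lit 1597, nat_lit 0, nat_lit 0, nat_lit 2197, nat_lit 0, nat_lit 0, nat_lit 0, nat_lit 0, nat_lit 0, nat_lit 0, nat_lit 0, nat_lit 0, [],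
 ⟨p017_k4, nat_lit 0, nat_lit 0, nat_lit 633, nat_lit 0, nat_lit 1016753, [nat_lit 3282000000, nat_lit 4688000000, nat_lit 7968000000], [], [nat_lit 20390176248, nat_lit 20824870804, nat_lit 20348739851, nat_lit 20758306711], nat_lit 1271250, nat_lit 1271250, nat_lit 490000, nat_lit 780000, nat_lit 0, nat_lit 0, [nat_lit 780000, nat_lit 1100000, nat_lit 1785000], [nat_lit 36, nat_lit 40, nat_lit 80, nat_lit 80, nat_lit 7, nat_lit 238, nat_lit 30, nat_lit 8]⟩, ⟨p017_k1, nat_lit 0, nat_lit 0, nat_lit 178, nat_lit 0, nat_lit 0, [nat_lit 3282000000, nat_lit 4688000000, nat_lit 9842000000], [], [nat_lit 17457208141, nat_lit 19040877129, nat_lit 17730065065, nat_lit 19144115596], nat_lit 0, nat_lit 0, nat_lit 0, nat_lit 0, nat_lit 0, nat_lit 0, [], [nat_lit 42, nat_lit 40, nat_lit 80, nat_lit 80, nat_lit 13, nat_lit 238, nat_lit 30, nat_lit 7]⟩,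
 zbF0, [⟨nat_lit 0, nat_lit 97, nat_lit 93, nat_lit 100, nat_lit 620053466⟩]⟩
noncomputable def p017_l82 : Lf2 := ⟨nat_lit 0, nat_lit 10, [nat_lit 0, nat_lit 5, nat_lit 5, nat_lit 20], false, nat_lit 0, nat_lit 0, nat_lit 0, nat_lit 0, ⟨nat_lit 1000, nat_lit 0, nat_lit 0, nat_lit 0, nat_lit 0, nat_lit 0, nat_lit 0, nat_lit 0, nat_lit 0, nat_lit 0, nat_lit 0, nat_lit 0, nat_lit 0, nat_lit 0, nat_lit 0, nat_lit 0, false, false⟩,
 nat_lit 0, nat_lit 9305, nat_lit 0, nat_lit 0, nat_lit 6707, nat_lit 5226, nat_lit 1288, nat_lit 0, nat_lit 0, nat_lit 2197, nat_lit 0, nat_lit 0, nat_lit 0, nat_lit 0, nat_lit 0, nat_lit 0, nat_lit 0, nat_lit 0, [],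
 ⟨p017_k14, nat_lit 0, nat_lit 0, nat_lit 638, nat_lit 0, nat_lit 1038603, [nat_lit 3282000000, nat_lit 4688000000, nat_lit 7968000000], [], [nat_lit 21383734225, nat_lit 22059731101, nat_lit 21418321287, nat_lit 21897443458], nat_lit 1271250, nat_lit 1271250, nat_lit 545600, nat_lit 780000, nat_lit 0, nat_lit 0, [nat_lit 780000, nat_lit 1100000, nat_lit 1785000], [nat_lit 36, nat_lit 40, nat_lit 80, nat_lit 80, nat_lit 7, nat_lit 238, nat_lit 30, nat_lit 8]⟩, ⟨p017_k1, nat_lit 0, nat_lit 0, nat_lit 176, nat_lit 0, nat_lit 0, [nat_lit 3282000000, nat_lit 4688000000, nat_lit 9842000000], [], [nat_lit 17511779526, nat_lit 19060918488, nat_lit 17730065065, nat_lit 19144115596], nat_lit 0, nat_lit 0, nat_lit 0, nat_lit 0, nat_lit 0, nat_lit 0, [], [nat_lit 42, nat_lit 40, nat_lit 80, nat_lit 80, nat_lit 13, nat_lit 238, nat_lit 30, nat_lit 7]⟩,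
 zbF0, [⟨nat_lit 0, nat_lit 94, nat_lit 87, nat_lit 100, nat_lit 932258474⟩]⟩
noncomputable def p017_l83 : Lf2 := ⟨nat_lit 0, nat_lit 10, [nat_lit 0, nat_lit 5, nat_lit 5, nat_lit 20], false, nat_lit 0, nat_lit 0, nat_lit 0, nat_lit 0, ⟨nat_lit 1000, nat_lit 0, nat_lit 0, nat_lit 0, nat_lit 0, nat_lit 0, nat_lit 0, nat_lit 0, nat_lit 0, nat_lit 0, nat_lit 0, nat_lit 0, nat_lit 0, nat_lit 0, nat_lit 0, nat_lit 0, false, false⟩,
 nat_lit 0, nat_lit 9626, nat_lit 0, nat_lit 0, nat_lit 6663, nat_lit 5226, nat_lit 1465, nat_lit 0, nat_lit 0, nat_lit 0, nat_lit 0, nat_lit 0, nat_lit 0, nat_lit 0, nat_lit 0, nat_lit 0, nat_lit 0, nat_lit 0, [],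
 ⟨p017_k4, nat_lit 0, nat_lit 0, nat_lit 537, nat_lit 0, nat_lit 823731, [nat_lit 3282000000, nat_lit 4688000000, nat_lit 7968000000], [], [nat_lit 21051899608, nat_lit 22029367112, nat_lit 20990037314, nat_lit 21830659062], nat_lit 1271250, nat_lit 1271250, nat_lit 490000, nat_lit 780000, nat_lit 0, nat_lit 0, [nat_lit 780000, nat_lit 1100000, nat_lit 1785000], [nat_lit 36, nat_lit 40, nat_lit 80, nat_lit 80, nat_lit 7, nat_lit 238, nat_lit 30, nat_lit 8]⟩, ⟨p017_k1, nat_lit 0, nat_lit 0, nat_lit 178, nat_lit 0, nat_lit 0, [nat_lit 3282000000, nat_lit 4688000000, nat_lit 9842000000], [], [nat_lit 28407880016, nat_lit 29991549004, nat_lit 28680736940, nat_lit 30092631040], nat_lit 0, nat_lit 0, nat_lit 0, nat_lit 0, nat_lit 0, nat_lit 0, [], [nat_lit 42, nat_lit 40, nat_lit 80, nat_lit 80, nat_lit 13, nat_lit 238, nat_lit 30, nat_lit 7]⟩,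
 zbF0, [⟨nat_lit 0, nat_lit 94, nat_lit 87, nat_lit 100, nat_lit 992716433⟩]⟩
noncomputable def p017_l84 : Lf2 := ⟨nat_lit 0, nat_lit 10, [nat_lit 0, nat_lit 5, nat_lit 5, nat_lit 20], false, nat_lit 0, nat_lit 0, nat_lit 0, nat_lit 0, ⟨nat_lit 1000, nat_lit 0, nat_lit 0, nat_lit 0, nat_lit 0, nat_lit 0, nat_lit 0, nat_lit 0, nat_lit 0, nat_lit 0, nat_lit 0, nat_lit 0, nat_lit 0, nat_lit 0, nat_lit 0, nat_lit 0, false, false⟩,
 nat_lit 0, nat_lit 8833, nat_lit 0, nat_lit 0, nat_lit 6115, nat_lit 5226, nat_lit 1859, nat_lit 0, nat_lit 0, nat_lit 1062, nat_lit 0, nat_lit 0, nat_lit 0, nat_lit 0, nat_lit 0, nat_lit 0, nat_lit 0, nat_lit 0, [],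
 ⟨p017_k18, nat_lit 0, nat_lit 0, nat_lit 617, nat_lit 0, nat_lit 1009829, [nat_lit 3282000000, nat_lit 6250000000, nat_lit 7968000000], [], [nat_lit 24028213525, nat_lit 24194539620, nat_lit 37200862390, nat_lit 37496198278], nat_lit 1271250, nat_lit 1271250, nat_lit 780000, nat_lit 3072500, nat_lit 0, nat_lit 0, [nat_lit 780000, nat_lit 1435000, nat_lit 1271250], [nat_lit 18, nat_lit 40, nat_lit 80, nat_lit 80, nat_lit 2, nat_lit 317, nat_lit 100, nat_lit 10]⟩, ⟨p017_k0, nat_lit 0, nat_lit 0, nat_lit 217, nat_lit 0, nat_lit 0, [nat_lit 3282000000, nat_lit 6250000000, nat_lit 9842000000], [], [nat_lit 21887255690, nat_lit 23302369108, nat_lit 35212893288, nat_lit 36123763856], nat_lit 0, nat_lit 0, nat_lit 0, nat_lit 0, nat_lit 0, nat_lit 0, [], [nat_lit 8, nat_lit 40, nat_lit 80, nat_lit 80, nat_lit 1, nat_lit 317, nat_lit 100, nat_lit 9]⟩,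
 zbF0, []⟩
noncomputable def p017_l85 : Lf2 := ⟨nat_lit 0, nat_lit 10, [nat_lit 0, nat_lit 5, nat_lit 5, nat_lit 20], false, nat_lit 0, nat_lit 0, nat_lit 0, nat_lit 0, ⟨nat_lit 1000, nat_lit 0, nat_lit 0, nat_lit 0, nat_lit 0, nat_lit 0, nat_lit 0, nat_lit 0, nat_lit 0, nat_lit 0, nat_lit 0, nat_lit 0, nat_lit 0, nat_lit 0, nat_lit 0, nat_lit 0, false, false⟩,
 nat_lit 0, nat_lit 8402, nat_lit 0, nat_lit 0, nat_lit 5936, nat_lit 6046, nat_lit 1358, nat_lit 0, nat_lit 0, nat_lit 1348, nat_lit 0, nat_lit 0, nat_lit 0, nat_lit 0, nat_lit 0, nat_lit 0, nat_lit 0, nat_lit 0, [],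
 ⟨p017_k22, nat_lit 0, nat_lit 0, nat_lit 622, nat_lit 0, nat_lit 1021342, [nat_lit 3282000000, nat_lit 6250000000, nat_lit 7968000000], [], [nat_lit 26406577524, nat_lit 26572799170, nat_lit 37007558976, nat_lit 37298841856], nat_lit 1271250, nat_lit 1271250, nat_lit 780000, nat_lit 3072500, nat_lit 0, nat_lit 0, [nat_lit 780000, nat_lit 1435000, nat_lit 1271250], [nat_lit 18, nat_lit 40, nat_lit 80, nat_lit 80, nat_lit 2, nat_lit 317, nat_lit 100, nat_lit 10]⟩, ⟨p017_k0, nat_lit 0, nat_lit 0, nat_lit 217, nat_lit 0, nat_lit 0, [nat_lit 3282000000, nat_lit 6250000000, nat_lit 9842000000], [], [nat_lit 20117974320, nat_lit 21774174016, nat_lit 36049283448, nat_lit 37014493776], nat_lit 0, nat_lit 0, nat_lit 0, nat_lit 0, nat_lit 0, nat_lit 0, [], [nat_lit 8, nat_lit 40, nat_lit 80, nat_lit 80, nat_lit 1, nat_lit 317, nat_lit 100, nat_lit 9]⟩,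
 zbF0, []⟩
noncomputable def p017_l86 : Lf2 := ⟨nat_lit 0, nat_lit 10, [nat_lit 0, nat_lit 5, nat_lit 5, nat_lit 20], false, nat_lit 0, nat_lit 0, nat_lit 0, nat_lit 0, ⟨nat_lit 1000, nat_lit 0, nat_lit 0, nat_lit 0, nat_lit 0, nat_lit 0, nat_lit 0, nat_lit 0, nat_lit 0, nat_lit 0, nat_lit 0, nat_lit 0, nat_lit 0, nat_lit 0, nat_lit 0, nat_lit 0, false, false⟩,
 nat_lit 0, nat_lit 8133, nat_lit 0, nat_lit 0, nat_lit 5863, nat_lit 5892, nat_lit 1332, nat_lit 0, nat_lit 0, nat_lit 1295, nat_lit 0, nat_lit 0, nat_lit 0, nat_lit 0, nat_lit 0, nat_lit 0, nat_lit 0, nat_lit 0, [],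
 ⟨p017_k23, nat_lit 0, nat_lit 0, nat_lit 643, nat_lit 0, nat_lit 1072659, [nat_lit 3282000000, nat_lit 6250000000, nat_lit 7968000000], [], [nat_lit 26420058762, nat_lit 26795008802, nat_lit 37097911473, nat_lit 37677171428], nat_lit 1271250, nat_lit 1271250, nat_lit 780000, nat_lit 3072500, nat_lit 0, nat_lit 0, [nat_lit 780000, nat_lit 1435000, nat_lit 1271250], [nat_lit 18, nat_lit 40, nat_lit 80, nat_lit 80, nat_lit 2, nat_lit 317, nat_lit 100, nat_lit 10]⟩, ⟨p017_k0, nat_lit 0, nat_lit 0, nat_lit 217, nat_lit 0, nat_lit 0, [nat_lit 3282000000, nat_lit 6250000000, nat_lit 9842000000], [], [nat_lit 20430298640, nat_lit 22060317736, nat_lit 35892205296, nat_lit 36847210352], nat_lit 0, nat_lit 0, nat_lit 0, nat_lit 0, nat_lit 0, nat_lit 0, [], [nat_lit 8, nat_lit 40, nat_lit 80, nat_lit 80, nat_lit 1, nat_lit 317, nat_lit 100, nat_lit 9]⟩,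
 zbF0, []⟩
noncomputable def p017_l87 : Lf2 := ⟨nat_lit 0, nat_lit 10, [nat_lit 0, nat_lit 5, nat_lit 5, nat_lit 20], false, nat_lit 0, nat_lit 0, nat_lit 0, nat_lit 0, ⟨nat_lit 1000, nat_lit 0, nat_lit 0, nat_lit 0, nat_lit 0, nat_lit 0, nat_lit 0, nat_lit 0, nat_lit 0, nat_lit 0, nat_lit 0, nat_lit 0, nat_lit 0, nat_lit 0, nat_lit 0, nat_lit 0, false, false⟩,
 nat_lit 0, nat_lit 9879, nat_lit 0, nat_lit 0, nat_lit 6839, nat_lit 5370, nat_lit 1740, nat_lit 0, nat_lit 0, nat_lit 1603, nat_lit 0, nat_lit 0, nat_lit 0, nat_lit 33782791661657, nat_lit 0, nat_lit 0, nat_lit 0, nat_lit 0, [],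
 ⟨p017_k4, nat_lit 0, nat_lit 0, nat_lit 640, nat_lit 0, nat_lit 1057085, [nat_lit 3282000000, nat_lit 4688000000, nat_lit 7968000000], [], [nat_lit 19802809589, nat_lit 19955548083, nat_lit 25832459032, nat_lit 25058270554], nat_lit 1271250, nat_lit 1271250, nat_lit 631250, nat_lit 1751250, nat_lit 0, nat_lit 0, [nat_lit 780000, nat_lit 1100000, nat_lit 1785000], [nat_lit 36, nat_lit 40, nat_lit 80, nat_lit 80, nat_lit 7, nat_lit 272, nat_lit 60, nat_lit 9]⟩, ⟨p017_k4, nat_lit 0, nat_lit 0, nat_lit 139, nat_lit 0, nat_lit 0, [nat_lit 3282000000, nat_lit 4688000000, nat_lit 7968000000], [], [nat_lit 18845420360, nat_lit 19254165760, nat_lit 22001158790, nat_lit 22354930735], nat_lit 0, nat_lit 0, nat_lit 0, nat_lit 0, nat_lit 0, nat_lit 0, [], [nat_lit 36, nat_lit 40, nat_lit 80, nat_lit 80, nat_lit 7, nat_lit 272, nat_lit 60, nat_lit 9]⟩,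
 zbF0, [⟨nat_lit 0, nat_lit 95, nat_lit 95, nat_lit 100, nat_lit 245028476⟩]⟩
noncomputable def p017_l88 : Lf2 := ⟨nat_lit 0, nat_lit 10, [nat_lit 0, nat_lit 5, nat_lit 5, nat_lit 20], false, nat_lit 0, nat_lit 0, nat_lit 0, nat_lit 0, ⟨nat_lit 1000, nat_lit 0, nat_lit 0, nat_lit 0, nat_lit 0, nat_lit 0, nat_lit 0, nat_lit 0, nat_lit 0, nat_lit 0, nat_lit 0, nat_lit 0, nat_lit 0, nat_lit 0, nat_lit 0, nat_lit 0, false, false⟩,
 nat_lit 0, nat_lit 9766, nat_lit 0, nat_lit 0, nat_lit 6900, nat_lit 5333, nat_lit 1520, nat_lit 0, nat_lit 0, nat_lit 1663, nat_lit 0, nat_lit 0, nat_lit 0, nat_lit 31748356318248, nat_lit 0, nat_lit 0, nat_lit 0, nat_lit 0, [],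
 ⟨p017_k13, nat_lit 0, nat_lit 0, nat_lit 659, nat_lit 0, nat_lit 1113465, [nat_lit 3282000000, nat_lit 4688000000, nat_lit 7968000000], [], [nat_lit 20560043156, nat_lit 20777273171, nat_lit 25424545400, nat_lit 24643451600], nat_lit 1271250, nat_lit 1271250, nat_lit 660400, nat_lit 1753500, nat_lit 0, nat_lit 0, [nat_lit 780000, nat_lit 1100000, nat_lit 1785000], [nat_lit 36, nat_lit 40, nat_lit 80, nat_lit 80, nat_lit 7, nat_lit 272, nat_lit 60, nat_lit 9]⟩, ⟨p017_k4, nat_lit 0, nat_lit 0, nat_lit 141, nat_lit 0, nat_lit 0, [nat_lit 3282000000, nat_lit 4688000000, nat_lit 7968000000], [], [nat_lit 18654570613, nat_lit 19464275586, nat_lit 21760135964, nat_lit 22449540437], nat_lit 0, nat_lit 0, nat_lit 0, nat_lit 0, nat_lit 0, nat_lit 0, [], [nat_lit 36, nat_lit 40, nat_lit 80, nat_lit 80, nat_lit 7, nat_lit 272, nat_lit 60, nat_lit 9]⟩,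
 zbF0, [⟨nat_lit 0, nat_lit 91, nat_lit 91, nat_lit 100, nat_lit 307141826⟩]⟩
noncomputable def p017_l89 : Lf2 := ⟨nat_lit 0, nat_lit 10, [nat_lit 0, nat_lit 5, nat_lit 5, nat_lit 20], false, nat_lit 0, nat_lit 0, nat_lit 0, nat_lit 0, ⟨nat_lit 1000, nat_lit 0, nat_lit 0, nat_lit 0, nat_lit 0, nat_lit 0, nat_lit 0, nat_lit 0, nat_lit 0, nat_lit 0, nat_lit 0, nat_lit 0, nat_lit 0, nat_lit 0, nat_lit 0, nat_lit 0, false, false⟩,
 nat_lit 0, nat_lit 9085, nat_lit 0, nat_lit 0, nat_lit 6549, nat_lit 5365, nat_lit 1324, nat_lit 0, nat_lit 0, nat_lit 1180, nat_lit 0, nat_lit 0, nat_lit 0, nat_lit 26211721402686, nat_lit 0, nat_lit 0, nat_lit 0, nat_lit 0, [],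
 ⟨p017_k23, nat_lit 0, nat_lit 0, nat_lit 686, nat_lit 0, nat_lit 1167307, [nat_lit 3282000000, nat_lit 6250000000, nat_lit 7968000000], [], [nat_lit 22885490858, nat_lit 23085109981, nat_lit 24461152316, nat_lit 24668906984], nat_lit 1271250, nat_lit 1271250, nat_lit 689850, nat_lit 1755750, nat_lit 0, nat_lit 0, [nat_lit 780000, nat_lit 1435000, nat_lit 1271250], [nat_lit 18, nat_lit 40, nat_lit 80, nat_lit 80, nat_lit 2, nat_lit 272, nat_lit 60, nat_lit 9]⟩, ⟨p017_k18, nat_lit 0, nat_lit 0, nat_lit 150, nat_lit 0, nat_lit 0, [nat_lit 3282000000, nat_lit 6250000000, nat_lit 7968000000], [], [nat_lit 19720973273, nat_lit 21003143781, nat_lit 23219795730, nat_lit 24260925548], nat_lit 0, nat_lit 0, nat_lit 0, nat_lit 0, nat_lit 0, nat_lit 0, [], [nat_lit 18, nat_lit 40, nat_lit 80, nat_lit 80, nat_lit 2, nat_lit 272, nat_lit 60, nat_lit 9]⟩,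
 zbF0, [⟨nat_lit 0, nat_lit 87, nat_lit 87, nat_lit 100, nat_lit 416466500⟩]⟩
noncomputable def p017_l90 : Lf2 := ⟨nat_lit 0, nat_lit 10, [nat_lit 0, nat_lit 5, nat_lit 5, nat_lit 20], false, nat_lit 0, nat_lit 0, nat_lit 0, nat_lit 0, ⟨nat_lit 1000, nat_lit 0, nat_lit 0, nat_lit 0, nat_lit 0, nat_lit 0, nat_lit 0, nat_lit 0, nat_lit 0, nat_lit 0, nat_lit 0, nat_lit 0, nat_lit 0, nat_lit 0, nat_lit 0, nat_lit 0, false, false⟩,
 nat_lit 0, nat_lit 8834, nat_lit 0, nat_lit 0, nat_lit 6496, nat_lit 5325, nat_lit 1122, nat_lit 0, nat_lit 0, nat_lit 1161, nat_lit 0, nat_lit 0, nat_lit 0, nat_lit 0, nat_lit 0, nat_lit 0, nat_lit 0, nat_lit 0, [],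
 ⟨p017_k24, nat_lit 0, nat_lit 0, nat_lit 713, nat_lit 0, nat_lit 1218696, [nat_lit 3282000000, nat_lit 6250000000, nat_lit 7968000000], [], [nat_lit 23424971369, nat_lit 23622730382, nat_lit 24939534736, nat_lit 25146551008], nat_lit 1271250, nat_lit 1271250, nat_lit 719601, nat_lit 1758000, nat_lit 0, nat_lit 0, [nat_lit 780000, nat_lit 1435000, nat_lit 1271250], [nat_lit 18, nat_lit 40, nat_lit 80, nat_lit 80, nat_lit 2, nat_lit 272, nat_lit 60, nat_lit 9]⟩, ⟨p017_k18, nat_lit 0, nat_lit 0, nat_lit 152, nat_lit 0, nat_lit 0, [nat_lit 3282000000, nat_lit 6250000000, nat_lit 7968000000], [], [nat_lit 19881487336, nat_lit 21546009295, nat_lit 23294751025, nat_lit 24677377475], nat_lit 0, nat_lit 0, nat_lit 0, nat_lit 0, nat_lit 0, nat_lit 0, [], [nat_lit 18, nat_lit 40, nat_lit 80, nat_lit 80, nat_lit 2, nat_lit 272, nat_lit 60, nat_lit 9]⟩,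
 zbF0, [⟨nat_lit 0, nat_lit 83, nat_lit 83, nat_lit 100, nat_lit 448958208⟩]⟩
noncomputable def p017_l91 : Lf2 := ⟨nat_lit 0, nat_lit 10, [nat_lit 0, nat_lit 5, nat_lit 5, nat_lit 20], false, nat_lit 0, nat_lit 0, nat_lit 0, nat_lit 0, ⟨nat_lit 1000, nat_lit 0, nat_lit 0, nat_lit 0, nat_lit 0, nat_lit 0, nat_lit 0, nat_lit 0, nat_lit 0, nat_lit 0, nat_lit 0, nat_lit 0, nat_lit 0, nat_lit 0, nat_lit 0, nat_lit 0, false, false⟩,
 nat_lit 0, nat_lit 7984, nat_lit 0, nat_lit 0, nat_lit 5527, nat_lit 6033, nat_lit 1343, nat_lit 0, nat_lit 0, nat_lit 528, nat_lit 0, nat_lit 0, nat_lit 0, nat_lit 0, nat_lit 0, nat_lit 0, nat_lit 0, nat_lit 0, [],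
 ⟨p017_k4, nat_lit 0, nat_lit 0, nat_lit 720, nat_lit 0, nat_lit 1324611, [nat_lit 3282000000, nat_lit 4688000000, nat_lit 7968000000], [], [nat_lit 32621461904, nat_lit 33123680460, nat_lit 36370601158, nat_lit 36739612136], nat_lit 1271250, nat_lit 1271250, nat_lit 1271250, nat_lit 1271250, nat_lit 0, nat_lit 0, [nat_lit 780000, nat_lit 1100000, nat_lit 1785000], [nat_lit 36, nat_lit 40, nat_lit 80, nat_lit 80, nat_lit 7, nat_lit 270, nat_lit 0, nat_lit 8]⟩, ⟨p017_k4, nat_lit 0, nat_lit 0, nat_lit 189, nat_lit 0, nat_lit 0, [nat_lit 3282000000, nat_lit 4688000000, nat_lit 7968000000], [], [nat_lit 27137803398, nat_lit 28405944548, nat_lit 37270293718, nat_lit 38153183488], nat_lit 0, nat_lit 0, nat_lit 0, nat_lit 0, nat_lit 0, nat_lit 0, [], [nat_lit 36, nat_lit 40, nat_lit 80, nat_lit 80, nat_lit 7, nat_lit 203, nat_lit 0, nat_lit 6]⟩,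
 zbF0, []⟩
noncomputable def p017_l92 : Lf2 := ⟨nat_lit 0, nat_lit 10, [nat_lit 0, nat_lit 5, nat_lit 5, nat_lit 20], false, nat_lit 0, nat_lit 0, nat_lit 0, nat_lit 0, ⟨nat_lit 1000, nat_lit 0, nat_lit 0, nat_lit 0, nat_lit 0, nat_lit 0, nat_lit 0, nat_lit 0, nat_lit 0, nat_lit 0, nat_lit 0, nat_lit 0, nat_lit 0, nat_lit 0, nat_lit 0, nat_lit 0, false, false⟩,
 nat_lit 14428, nat_lit 0, nat_lit 0, nat_lit 0, nat_lit 9181, nat_lit 9181, nat_lit 1166, nat_lit 0, nat_lit 0, nat_lit 1166, nat_lit 0, nat_lit 0, nat_lit 0, nat_lit 0, nat_lit 0, nat_lit 0, nat_lit 0, nat_lit 0, [],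
 ⟨p017_k0, nat_lit 0, nat_lit 0, nat_lit 497, nat_lit 0, nat_lit 555184, [nat_lit 3282000000, nat_lit 6250000000, nat_lit 9842000000], [], [nat_lit 24827152437, nat_lit 26217389057, nat_lit 24399143688, nat_lit 24689336356], nat_lit 1271250, nat_lit 1271250, nat_lit 382400, nat_lit 1100001, nat_lit 0, nat_lit 0, [nat_lit 780000, nat_lit 1435000, nat_lit 1271250], [nat_lit 8, nat_lit 40, nat_lit 80, nat_lit 80, nat_lit 1, nat_lit 249, nat_lit 40, nat_lit 7]⟩, ⟨p017_k0, nat_lit 0, nat_lit 0, nat_lit 497, nat_lit 0, nat_lit 555184, [nat_lit 3282000000, nat_lit 6250000000, nat_lit 9842000000], [], [nat_lit 24827152437, nat_lit 26217389057, nat_lit 24399143688, nat_lit 24689336356], nat_lit 1271250, nat_lit 1271250, nat_lit 382400, nat_lit 1100001, nat_lit 0, nat_lit 0, [nat_lit 780000, nat_lit 1435000, nat_lit 1271250], [nat_lit 8, nat_lit 40, nat_lit 80, nat_lit 80, nat_lit 1, nat_lit 249, nat_lit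 40, nat_lit 7]⟩,
 zbF0, [⟨nat_lit 0, nat_lit 100, nat_lit 100, nat_lit 90, nat_lit 688574224⟩]⟩
noncomputable def p017_l93 : Lf2 := ⟨nat_lit 0, nat_lit 10, [nat_lit 0, nat_lit 5, nat_lit 5, nat_lit 20], false, nat_lit 0, nat_lit 0, nat_lit 0, nat_lit 0, ⟨nat_lit 673, nat_lit 0, nat_lit 327, nat_lit 7, nat_lit 187, nat_lit 0, nat_lit 0, nat_lit 0, nat_lit 0, nat_lit 215, nat_lit 3013, nat_lit 227, nat_lit 54960852, nat_lit 0, nat_lit 0, nat_lit 2354604, false, false⟩,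
 nat_lit 9438, nat_lit 0, nat_lit 0, nat_lit 0, nat_lit 6533, nat_lit 6005, nat_lit 391, nat_lit 0, nat_lit 0, nat_lit 613, nat_lit 0, nat_lit 0, nat_lit 0, nat_lit 61752789233, nat_lit 0, nat_lit 327000, nat_lit 0, nat_lit 0, [(nat_lit 15, [(nat_lit 6, nat_lit 327)])],
 ⟨p017_k18, nat_lit 0, nat_lit 0, nat_lit 482, nat_lit 0, nat_lit 666164, [nat_lit 2529246000, nat_lit 3455719601, nat_lit 3644144400], [], [nat_lit 20249016315, nat_lit 21814811992, nat_lit 20071109294, nat_lit 21455687624], nat_lit 1271250, nat_lit 1271250, nat_lit 490000, nat_lit 1100001, nat_lit 0, nat_lit 0, [nat_lit 780000, nat_lit 1435000, nat_lit 1271250], [nat_lit 18, nat_lit 40, nat_lit 80, nat_lit 80, nat_lit 2, nat_lit 249, nat_lit 40, nat_lit 8]⟩, ⟨p017_k0, nat_lit 0, nat_lit 0, nat_lit 585, nat_lit 0, nat_lit 734612, [nat_lit 2208786000, nat_lit 4206250000, nat_lit 6623666000], [], [nat_lit 18398114566, nat_lit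 19763379985, nat_lit 17726263829, nat_lit 19004928944], nat_lit 1271250, nat_lit 1271250, nat_lit 490000, nat_lit 1100001, nat_lit 0, nat_lit 0, [nat_lit 780000, nat_lit 1435000, nat_lit 1271250], [nat_lit 8, nat_lit 40, nat_lit 80, nat_lit 80, nat_lit 1, nat_lit 249, nat_lit 40, nat_lit 7]⟩,
 ⟨nat_lit 4472, nat_lit 5000, ⟨.ofNat (nat_lit 371392), .ofNat (nat_lit 514240), .ofNat (nat_lit 414225), .ofNat (nat_lit 557072), .ofNat (nat_lit 382295), .ofNat (nat_lit 518242), .ofNat (nat_lit 425403), .ofNat (nat_lit 561349)⟩, ⟨.ofNat (nat_lit 0), .ofNat (nat_lit 0), .ofNat (nat_lit 0), .ofNat (nat_lit 0), .ofNat (nat_lit 0), .ofNat (nat_lit 0), .ofNat (nat_lit 0), .ofNat (nat_lit 0)⟩⟩, [⟨nat_lit 0, nat_lit 97, nat_lit 93, nat_lit 100, nat_lit 286544375⟩, ⟨nat_lit 0, nat_lit 83, nat_lit 83, nat_lit 100, nat_lit 271823538⟩]⟩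
noncomputable def p017_l94 : Lf2 := ⟨nat_lit 0, nat_lit 10, [nat_lit 0, nat_lit 5, nat_lit 5, nat_lit 20], false, nat_lit 0, nat_lit 0, nat_lit 0, nat_lit 0, ⟨nat_lit 1000, nat_lit 0, nat_lit 0, nat_lit 0, nat_lit 0, nat_lit 0, nat_lit 0, nat_lit 0, nat_lit 0, nat_lit 0, nat_lit 0, nat_lit 0, nat_lit 0, nat_lit 0, nat_lit 0, nat_lit 0, false, false⟩,
 nat_lit 14621, nat_lit 0, nat_lit 0, nat_lit 0, nat_lit 9304, nat_lit 9304, nat_lit 945, nat_lit 0, nat_lit 0, nat_lit 945, nat_lit 0, nat_lit 0, nat_lit 0, nat_lit 0, nat_lit 0, nat_lit 0, nat_lit 0, nat_lit 0, [],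
 ⟨p017_k0, nat_lit 0, nat_lit 0, nat_lit 521, nat_lit 0, nat_lit 734612, [nat_lit 3282000000, nat_lit 6250000000, nat_lit 9842000000], [], [nat_lit 24995447685, nat_lit 27134504256, nat_lit 26351118560, nat_lit 29492340837], nat_lit 1271250, nat_lit 1271250, nat_lit 1100001, nat_lit 1785000, nat_lit 0, nat_lit 0, [nat_lit 780000, nat_lit 1435000, nat_lit 1271250], [nat_lit 8, nat_lit 40, nat_lit 80, nat_lit 80, nat_lit 1, nat_lit 272, nat_lit 60, nat_lit 8]⟩, ⟨p017_k0, nat_lit 0, nat_lit 0, nat_lit 521, nat_lit 0, nat_lit 734612, [nat_lit 3282000000, nat_lit 6250000000, nat_lit 9842000000], [], [nat_lit 24995447685, nat_lit 27134504256, nat_lit 26351118560, nat_lit 29492340837], nat_lit 1271250, nat_lit 1271250, nat_lit 1100001, nat_lit 1785000, nat_lit 0, nat_lit 0, [nat_lit 780000, nat_lit 1435000, nat_lit 1271250], [nat_lit 8, nat_lit 40, nat_lit 80, nat_lit 80, nat_lit 1, nat_lit 272, nat_lit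 60, nat_lit 8]⟩,
 zbF0, []⟩
noncomputable def p017_l95 : Lf2 := ⟨nat_lit 0, nat_lit 10, [nat_lit 0, nat_lit 5, nat_lit 5, nat_lit 20], false, nat_lit 0, nat_lit 0, nat_lit 0, nat_lit 0, ⟨nat_lit 1000, nat_lit 0, nat_lit 0, nat_lit 0, nat_lit 0, nat_lit 0, nat_lit 0, nat_lit 0, nat_lit 0, nat_lit 0, nat_lit 0, nat_lit 0, nat_lit 0, nat_lit 0, nat_lit 0, nat_lit 0, false, false⟩,
 nat_lit 11234, nat_lit 0, nat_lit 0, nat_lit 0, nat_lit 7148, nat_lit 7148, nat_lit 816, nat_lit 0, nat_lit 0, nat_lit 816, nat_lit 0, nat_lit 0, nat_lit 0, nat_lit 0, nat_lit 0, nat_lit 0, nat_lit 0, nat_lit 0, [],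
 ⟨p017_k0, nat_lit 0, nat_lit 0, nat_lit 508, nat_lit 0, nat_lit 734612, [nat_lit 3282000000, nat_lit 6250000000, nat_lit 9842000000], [], [nat_lit 33237159648, nat_lit 34596802320, nat_lit 39282914512, nat_lit 41272287888], nat_lit 1271250, nat_lit 1271250, nat_lit 1271250, nat_lit 1271250, nat_lit 0, nat_lit 0, [nat_lit 780000, nat_lit 1435000, nat_lit 1271250], [nat_lit 8, nat_lit 40, nat_lit 80, nat_lit 80, nat_lit 1, nat_lit 317, nat_lit 100, nat_lit 9]⟩, ⟨p017_k0, nat_lit 0, nat_lit 0, nat_lit 508, nat_lit 0, nat_lit 734612, [nat_lit 3282000000, nat_lit 6250000000, nat_lit 9842000000], [], [nat_lit 33237159648, nat_lit 34596802320, nat_lit 39282914512, nat_lit 41272287888], nat_lit 1271250, nat_lit 1271250, nat_lit 1271250, nat_lit 1271250, nat_lit 0, nat_lit 0, [nat_lit 780000, nat_lit 1435000, nat_lit 1271250], [nat_lit 8, nat_lit 40, nat_lit 80, nat_lit 80, nat_lit 1, nat_lit 317,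 nat_lit 100, nat_lit 9]⟩,
 zbF0, []⟩
noncomputable def b_N_700_700_0_5 : St := ⟨false, nat_lit 1, nat_lit 2, nat_lit 1, nat_lit 40, nat_lit 280, nat_lit 320, nat_lit 280, nat_lit 320, nat_lit 64, nat_lit 400, nat_lit 0, nat_lit 0, nat_lit 0, nat_lit 0, nat_lit 0, nat_lit 0, nat_lit 40, nat_lit 80, nat_lit 0, nat_lit 0, nat_lit 0, nat_lit 0⟩
theorem d_N_700_700_0_5 (h : EB TB.env) : Dead b_N_700_700_0_5 := chkB_sound0 h (T :=
(.st (nat_lit 1)
(.spl (nat_lit 1) (nat_lit 300)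
(.spl (nat_lit 0) (nat_lit 300)
(.spl (nat_lit 2) (nat_lit 240)
(.spl (nat_lit 1) (nat_lit 290)
(.spl (nat_lit 2) (nat_lit 120)
(.spl (nat_lit 6) (nat_lit 60)
(.spl (nat_lit 2) (nat_lit 80)
(.leaf p017_l61)
(.spl (nat_lit 2) (nat_lit 100)
(.leaf p017_l62)
(.spl (nat_lit 0) (nat_lit 290)
(.spl (nat_lit 1) (nat_lit 285)
(.spl (nat_lit 0) (nat_lit 285)
(.leaf p017_l63)
(.leaf p017_l64))
(.ord (.spl (nat_lit 0) (nat_lit 288)
(.ord (.leaf p017_l65))
(.leaf p017_l66))))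
(.leaf p017_l67))))
(.spl (nat_lit 0) (nat_lit 290)
(.spl (nat_lit 2) (nat_lit 80)
(.leaf p017_l68)
(.spl (nat_lit 2) (nat_lit 100)
(.leaf p017_l69)
(.leaf p017_l70)))
(.trZ (nat_lit 0) (nat_lit 100) (nat_lit 97) (nat_lit 84) (nat_lit 72) (.leaf p017_l71))))
(.spl (nat_lit 0) (nat_lit 290)
(.spl (nat_lit 0) (nat_lit 285)
(.ord (.leaf p017_l72))
(.leaf p017_l73))
(.leaf p017_l74)))
(.ord (.trZ (nat_lit 0) (nat_lit 100) (nat_lit 100) (nat_lit 90) (nat_lit 80) (.spl (nat_lit 0) (nat_lit 295)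
(.ord (.spl (nat_lit 2) (nat_lit 120)
(.leaf p017_l75)
(.leaf p017_l76)))
(.trZ (nat_lit 0) (nat_lit 100) (nat_lit 99) (nat_lit 92) (nat_lit 84) (.spl (nat_lit 0) (nat_lit 298)
(.ord (.leaf p017_l77))
(.trZ (nat_lit 0) (nat_lit 100) (nat_lit 98) (nat_lit 93) (nat_lit 88) (.leaf p017_l78))))))))
(.spl (nat_lit 0) (nat_lit 290)
(.ord (.leaf p017_l79))
(.leaf p017_l80)))
(.trZ (nat_lit 0) (nat_lit 100) (nat_lit 94) (nat_lit 88) (nat_lit 80) (.spl (nat_lit 2) (nat_lit 120)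
(.spl (nat_lit 6) (nat_lit 60)
(.spl (nat_lit 0) (nat_lit 310)
(.leaf p017_l81)
(.trZ (nat_lit 0) (nat_lit 100) (nat_lit 91) (nat_lit 91) (nat_lit 88) (.leaf p017_l82)))
(.leaf p017_l83))
(.spl (nat_lit 0) (nat_lit 310)
(.spl (nat_lit 0) (nat_lit 305)
(.leaf p017_l84)
(.leaf p017_l85))
(.leaf p017_l86)))))
(.ord (.trZ (nat_lit 0) (nat_lit 100) (nat_lit 100) (nat_lit 100) (nat_lit 100) (.spl (nat_lit 2) (nat_lit 240)
(.spl (nat_lit 0) (nat_lit 310)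
(.ord (.spl (nat_lit 0) (nat_lit 305)
(.ord (.leaf p017_l87))
(.trZ (nat_lit 0) (nat_lit 98) (nat_lit 97) (nat_lit 100) (nat_lit 104) (.leaf p017_l88))))
(.trZ (nat_lit 0) (nat_lit 97) (nat_lit 93) (nat_lit 100) (nat_lit 108) (.spl (nat_lit 0) (nat_lit 315)
(.ord (.leaf p017_l89))
(.trZ (nat_lit 0) (nat_lit 95) (nat_lit 90) (nat_lit 100) (nat_lit 112) (.leaf p017_l90)))))
(.leaf p017_l91)))))
(.spl (nat_lit 2) (nat_lit 240)
(.spl (nat_lit 2) (nat_lit 160)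
(.spl (nat_lit 0) (nat_lit 300)
(.ord (.leaf p017_l92))
(.trZ (nat_lit 0) (nat_lit 100) (nat_lit 94) (nat_lit 88) (nat_lit 80) (.leaf p017_l93)))
(.leaf p017_l94))
(.leaf p017_l95)))) (by decide +kernel)
noncomputable def p017_l96 : Lf2 := ⟨nat_lit 0, nat_lit 10, [nat_lit 0, nat_lit 5, nat_lit 5, nat_lit 20], true, nat_lit 0, nat_lit 0, nat_lit 0, nat_lit 0, ⟨nat_lit 0, nat_lit 1000, nat_lit 0, nat_lit 7, nat_lit 140, nat_lit 0, nat_lit 0, nat_lit 0, nat_lit 0, nat_lit 0, nat_lit 0, nat_lit 0, nat_lit 0, nat_lit 0, nat_lit 0, nat_lit 5000000, false, false⟩,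
 nat_lit 0, nat_lit 8710, nat_lit 0, nat_lit 0, nat_lit 5542, nat_lit 0, nat_lit 138, nat_lit 0, nat_lit 0, nat_lit 0, nat_lit 0, nat_lit 0, nat_lit 0, nat_lit 0, nat_lit 12, nat_lit 1000000, nat_lit 0, nat_lit 0, [(nat_lit 12, [(nat_lit 2, nat_lit 1000)])],
 ⟨p017_k0, nat_lit 0, nat_lit 0, nat_lit 431, nat_lit 0, nat_lit 376833, [nat_lit 2479200001, nat_lit 2186400000, nat_lit 42000000], [], [nat_lit 18445606415, nat_lit 18711227151, nat_lit 17908144122, nat_lit 18172911908], nat_lit 1271250, nat_lit 1271250, nat_lit 382400, nat_lit 490000, nat_lit 0, nat_lit 0, [nat_lit 780000, nat_lit 1435000, nat_lit 1271250], [nat_lit 8, nat_lit 40, nat_lit 80, nat_lit 80, nat_lit 1, nat_lit 226, nat_lit 20, nat_lit 7]⟩, C1.Rw.none,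
 ⟨nat_lit 5361, nat_lit 5478, ⟨.ofNat (nat_lit 330654), .ofNat (nat_lit 360628), .ofNat (nat_lit 335994), .ofNat (nat_lit 365967), .ofNat (nat_lit 333709), .ofNat (nat_lit 363328), .ofNat (nat_lit 339051), .ofNat (nat_lit 368671)⟩, ⟨.ofNat (nat_lit 0), .ofNat (nat_lit 0), .ofNat (nat_lit 0), .ofNat (nat_lit 0), .ofNat (nat_lit 0), .ofNat (nat_lit 0), .ofNat (nat_lit 0), .ofNat (nat_lit 0)⟩⟩, [⟨nat_lit 0, nat_lit 100, nat_lit 100, nat_lit 85, nat_lit 164620179⟩]⟩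
noncomputable def p017_l97 : Lf2 := ⟨nat_lit 0, nat_lit 10, [nat_lit 0, nat_lit 5, nat_lit 5, nat_lit 20], true, nat_lit 0, nat_lit 0, nat_lit 0, nat_lit 0, ⟨nat_lit 0, nat_lit 1000, nat_lit 0, nat_lit 7, nat_lit 160, nat_lit 0, nat_lit 0, nat_lit 0, nat_lit 0, nat_lit 0, nat_lit 0, nat_lit 0, nat_lit 0, nat_lit 0, nat_lit 0, nat_lit 5000000, false, false⟩,
 nat_lit 0, nat_lit 9068, nat_lit 0, nat_lit 0, nat_lit 5770, nat_lit 0, nat_lit 0, nat_lit 0, nat_lit 0, nat_lit 0, nat_lit 0, nat_lit 0, nat_lit 0, nat_lit 51276723672281, nat_lit 9, nat_lit 987400, nat_lit 0, nat_lit 0, [(nat_lit 12, [(nat_lit 1, nat_lit 21), (nat_lit 2, nat_lit 979)])],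
 ⟨p017_k0, nat_lit 0, nat_lit 0, nat_lit 566, nat_lit 0, nat_lit 686762, [nat_lit 2437597201, nat_lit 2142670800, nat_lit 19538400], [], [nat_lit 18656527920, nat_lit 18698174061, nat_lit 18783889564, nat_lit 18649740238], nat_lit 1271250, nat_lit 1271250, nat_lit 490000, nat_lit 780000, nat_lit 0, nat_lit 0, [nat_lit 780000, nat_lit 1435000, nat_lit 1271250], [nat_lit 8, nat_lit 40, nat_lit 80, nat_lit 80, nat_lit 1, nat_lit 238, nat_lit 30, nat_lit 7]⟩, C1.Rw.none,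
 ⟨nat_lit 5454, nat_lit 5478, ⟨.ofNat (nat_lit 360628), .ofNat (nat_lit 435561), .ofNat (nat_lit 361695), .ofNat (nat_lit 436628), .ofNat (nat_lit 361168), .ofNat (nat_lit 435924), .ofNat (nat_lit 362236), .ofNat (nat_lit 436992)⟩, ⟨.ofNat (nat_lit 0), .ofNat (nat_lit 0), .ofNat (nat_lit 0), .ofNat (nat_lit 0), .ofNat (nat_lit 0), .ofNat (nat_lit 0), .ofNat (nat_lit 0), .ofNat (nat_lit 0)⟩⟩, []⟩
noncomputable def p017_l98 : Lf2 := ⟨nat_lit 0, nat_lit 10, [nat_lit 0, nat_lit 5, nat_lit 5, nat_lit 20], true, nat_lit 0, nat_lit 0, nat_lit 0, nat_lit 0, ⟨nat_lit 0, nat_lit 1000, nat_lit 0, nat_lit 7, nat_lit 160, nat_lit 0, nat_lit 0, nat_lit 0, nat_lit 0, nat_lit 0, nat_lit 0, nat_lit 0, nat_lit 0, nat_lit 0, nat_lit 0, nat_lit 5000000, false, false⟩,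
 nat_lit 0, nat_lit 8978, nat_lit 0, nat_lit 0, nat_lit 5738, nat_lit 0, nat_lit 6, nat_lit 0, nat_lit 0, nat_lit 0, nat_lit 0, nat_lit 0, nat_lit 0, nat_lit 50695009362441, nat_lit 12, nat_lit 1000000, nat_lit 0, nat_lit 0, [(nat_lit 12, [(nat_lit 2, nat_lit 1000)])],
 ⟨p017_k25, nat_lit 0, nat_lit 0, nat_lit 571, nat_lit 0, nat_lit 699988, [nat_lit 2479200001, nat_lit 2186400000, nat_lit 42000000], [], [nat_lit 18633309574, nat_lit 18674863170, nat_lit 18750542484, nat_lit 18621287117], nat_lit 1271250, nat_lit 1271250, nat_lit 490000, nat_lit 780000, nat_lit 0, nat_lit 0, [nat_lit 780000, nat_lit 1435000, nat_lit 1271250], [nat_lit 8, nat_lit 40, nat_lit 80, nat_lit 80, nat_lit 1, nat_lit 238, nat_lit 30, nat_lit 7]⟩, C1.Rw.none,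
 ⟨nat_lit 5431, nat_lit 5455, ⟨.ofNat (nat_lit 361168), .ofNat (nat_lit 435924), .ofNat (nat_lit 363304), .ofNat (nat_lit 438060), .ofNat (nat_lit 361708), .ofNat (nat_lit 436287), .ofNat (nat_lit 363844), .ofNat (nat_lit 438423)⟩, ⟨.ofNat (nat_lit 0), .ofNat (nat_lit 0), .ofNat (nat_lit 0), .ofNat (nat_lit 0), .ofNat (nat_lit 0), .ofNat (nat_lit 0), .ofNat (nat_lit 0), .ofNat (nat_lit 0)⟩⟩, []⟩
noncomputable def p017_l99 : Lf2 := ⟨nat_lit 0, nat_lit 10, [nat_lit 0, nat_lit 5, nat_lit 5, nat_lit 20], true, nat_lit 0, nat_lit 0, nat_lit 0, nat_lit 0, ⟨nat_lit 0, nat_lit 1000, nat_lit 0, nat_lit 7, nat_lit 153, nat_lit 0, nat_lit 0, nat_lit 0, nat_lit 0, nat_lit 0, nat_lit 0, nat_lit 0, nat_lit 0, nat_lit 0, nat_lit 0, nat_lit 5000000, false, false⟩,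
 nat_lit 0, nat_lit 7738, nat_lit 0, nat_lit 0, nat_lit 4966, nat_lit 0, nat_lit 210, nat_lit 0, nat_lit 0, nat_lit 0, nat_lit 0, nat_lit 0, nat_lit 0, nat_lit 0, nat_lit 12, nat_lit 1000000, nat_lit 0, nat_lit 0, [(nat_lit 12, [(nat_lit 2, nat_lit 1000)])],
 ⟨p017_k26, nat_lit 0, nat_lit 0, nat_lit 363, nat_lit 0, nat_lit 352232, [nat_lit 2479200001, nat_lit 2186400000, nat_lit 42000000], [], [nat_lit 17544287196, nat_lit 17607709613, nat_lit 17650372320, nat_lit 17705802506], nat_lit 1271250, nat_lit 1271250, nat_lit 490000, nat_lit 631250, nat_lit 0, nat_lit 0, [nat_lit 780000, nat_lit 1435000, nat_lit 1271250], [nat_lit 8, nat_lit 40, nat_lit 80, nat_lit 80, nat_lit 1, nat_lit 232, nat_lit 25, nat_lit 7]⟩, C1.Rw.none,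
 ⟨nat_lit 5408, nat_lit 5432, ⟨.ofNat (nat_lit 361708), .ofNat (nat_lit 398998), .ofNat (nat_lit 364913), .ofNat (nat_lit 402202), .ofNat (nat_lit 362248), .ofNat (nat_lit 399450), .ofNat (nat_lit 365453), .ofNat (nat_lit 402654)⟩, ⟨.ofNat (nat_lit 0), .ofNat (nat_lit 0), .ofNat (nat_lit 0), .ofNat (nat_lit 0), .ofNat (nat_lit 0), .ofNat (nat_lit 0), .ofNat (nat_lit 0), .ofNat (nat_lit 0)⟩⟩, []⟩
noncomputable def p017_l100 : Lf2 := ⟨nat_lit 0, nat_lit 10, [nat_lit 0, nat_lit 5, nat_lit 5, nat_lit 20], false, nat_lit 0, nat_lit 0, nat_lit 0, nat_lit 0, ⟨nat_lit 1000, nat_lit 0, nat_lit 0, nat_lit 0, nat_lit 0, nat_lit 0, nat_lit 0, nat_lit 0, nat_lit 0, nat_lit 0, nat_lit 0, nat_lit 0, nat_lit 0, nat_lit 0, nat_lit 0, nat_lit 0, false, false⟩,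
 nat_lit 0, nat_lit 10389, nat_lit 0, nat_lit 0, nat_lit 6668, nat_lit 5312, nat_lit 1573, nat_lit 0, nat_lit 0, nat_lit 2316, nat_lit 0, nat_lit 0, nat_lit 0, nat_lit 40182210275543, nat_lit 0, nat_lit 0, nat_lit 0, nat_lit 0, [],
 ⟨p017_k27, nat_lit 0, nat_lit 0, nat_lit 567, nat_lit 0, nat_lit 713009, [nat_lit 3282000000, nat_lit 4688000000, nat_lit 9842000000], [], [nat_lit 24821457665, nat_lit 24654033215, nat_lit 24656224924, nat_lit 24636332644], nat_lit 1271250, nat_lit 1271250, nat_lit 631250, nat_lit 780000, nat_lit 0, nat_lit 0, [nat_lit 780000, nat_lit 1100000, nat_lit 2127500], [nat_lit 42, nat_lit 40, nat_lit 80, nat_lit 80, nat_lit 13, nat_lit 238, nat_lit 30, nat_lit 7]⟩, ⟨p017_k1, nat_lit 0, nat_lit 0, nat_lit 163, nat_lit 0, nat_lit 0, [nat_lit 3282000000, nat_lit 4688000000, nat_lit 9842000000], [], [nat_lit 16936538036, nat_lit 17158616896, nat_lit 17182555824, nat_lit 17462790014],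 nat_lit 0, nat_lit 0, nat_lit 0, nat_lit 0, nat_lit 0, nat_lit 0, [], [nat_lit 42, nat_lit 40, nat_lit 80, nat_lit 80, nat_lit 13, nat_lit 238, nat_lit 30, nat_lit 7]⟩,
 zbF0, []⟩
noncomputable def p017_l101 : Lf2 := ⟨nat_lit 0, nat_lit 10, [nat_lit 0, nat_lit 5, nat_lit 5, nat_lit 20], true, nat_lit 0, nat_lit 0, nat_lit 0, nat_lit 0, ⟨nat_lit 0, nat_lit 1000, nat_lit 0, nat_lit 7, nat_lit 160, nat_lit 0, nat_lit 0, nat_lit 0, nat_lit 0, nat_lit 0, nat_lit 0, nat_lit 0, nat_lit 0, nat_lit 0, nat_lit 0, nat_lit 5000000, false, false⟩,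
 nat_lit 0, nat_lit 8994, nat_lit 0, nat_lit 0, nat_lit 5723, nat_lit 0, nat_lit 4, nat_lit 0, nat_lit 0, nat_lit 0, nat_lit 0, nat_lit 0, nat_lit 0, nat_lit 0, nat_lit 12, nat_lit 1000000, nat_lit 0, nat_lit 0, [(nat_lit 12, [(nat_lit 2, nat_lit 1000)])],
 ⟨p017_k0, nat_lit 0, nat_lit 0, nat_lit 534, nat_lit 0, nat_lit 662290, [nat_lit 2479200001, nat_lit 2186400000, nat_lit 42000000], [], [nat_lit 18646274388, nat_lit 18770805036, nat_lit 18592948849, nat_lit 18717654388], nat_lit 1271250, nat_lit 1271250, nat_lit 490000, nat_lit 780000, nat_lit 0, nat_lit 0, [nat_lit 780000, nat_lit 1435000, nat_lit 1271250], [nat_lit 8, nat_lit 40, nat_lit 80, nat_lit 80, nat_lit 1, nat_lit 238, nat_lit 30, nat_lit 7]⟩, C1.Rw.none,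
 ⟨nat_lit 5408, nat_lit 5478, ⟨.ofNat (nat_lit 360628), .ofNat (nat_lit 435560), .ofNat (nat_lit 363831), .ofNat (nat_lit 438764), .ofNat (nat_lit 362248), .ofNat (nat_lit 436651), .ofNat (nat_lit 365453), .ofNat (nat_lit 439855)⟩, ⟨.ofNat (nat_lit 0), .ofNat (nat_lit 0), .ofNat (nat_lit 0), .ofNat (nat_lit 0), .ofNat (nat_lit 0), .ofNat (nat_lit 0), .ofNat (nat_lit 0), .ofNat (nat_lit 0)⟩⟩, []⟩
noncomputable def p017_l102 : Lf2 := ⟨nat_lit 0, nat_lit 10, [nat_lit 0, nat_lit 5, nat_lit 5, nat_lit 20], true, nat_lit 0, nat_lit 0, nat_lit 0, nat_lit 0, ⟨nat_lit 0, nat_lit 1000, nat_lit 0, nat_lit 7, nat_lit 154, nat_lit 0, nat_lit 0, nat_lit 0, nat_lit 0, nat_lit 0, nat_lit 0, nat_lit 0, nat_lit 0, nat_lit 0, nat_lit 0, nat_lit 5000000, false, false⟩,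
 nat_lit 0, nat_lit 7287, nat_lit 0, nat_lit 0, nat_lit 4697, nat_lit 0, nat_lit 1016, nat_lit 0, nat_lit 0, nat_lit 0, nat_lit 0, nat_lit 0, nat_lit 0, nat_lit 0, nat_lit 0, nat_lit 400000, nat_lit 0, nat_lit 0, [(nat_lit 12, [(nat_lit 1, nat_lit 1000)])],
 ⟨p017_k8, nat_lit 0, nat_lit 0, nat_lit 357, nat_lit 0, nat_lit 371457, [nat_lit 2033400000, nat_lit 2718800000, nat_lit 2663600000], [], [nat_lit 16511577954, nat_lit 16639606607, nat_lit 16665926467, nat_lit 16782677871], nat_lit 1271250, nat_lit 1271250, nat_lit 490000, nat_lit 631250, nat_lit 0, nat_lit 0, [nat_lit 780000, nat_lit 1100000, nat_lit 2127500], [nat_lit 42, nat_lit 40, nat_lit 80, nat_lit 80, nat_lit 13, nat_lit 232, nat_lit 25, nat_lit 7]⟩, C1.Rw.none,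
 ⟨nat_lit 5361, nat_lit 5409, ⟨.ofNat (nat_lit 362248), .ofNat (nat_lit 399450), .ofNat (nat_lit 367589), .ofNat (nat_lit 404791), .ofNat (nat_lit 363328), .ofNat (nat_lit 400353), .ofNat (nat_lit 368671), .ofNat (nat_lit 405695)⟩, ⟨.ofNat (nat_lit 0), .ofNat (nat_lit 0), .ofNat (nat_lit 0), .ofNat (nat_lit 0), .ofNat (nat_lit 0), .ofNat (nat_lit 0), .ofNat (nat_lit 0), .ofNat (nat_lit 0)⟩⟩, []⟩
noncomputable def p017_l103 : Lf2 := ⟨nat_lit 0, nat_lit 10, [nat_lit 0, nat_lit 5, nat_lit 5, nat_lit 20], false, nat_lit 0, nat_lit 0, nat_lit 0, nat_lit 0, ⟨nat_lit 1000, nat_lit 0, nat_lit 0, nat_lit 0, nat_lit 0, nat_lit 0, nat_lit 0, nat_lit 0, nat_lit 0, nat_lit 0, nat_lit 0, nat_lit 0, nat_lit 0, nat_lit 0, nat_lit 0, nat_lit 0, false, false⟩,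
 nat_lit 0, nat_lit 10383, nat_lit 0, nat_lit 0, nat_lit 6693, nat_lit 5297, nat_lit 1613, nat_lit 0, nat_lit 0, nat_lit 2305, nat_lit 0, nat_lit 0, nat_lit 0, nat_lit 40262998865458, nat_lit 0, nat_lit 0, nat_lit 0, nat_lit 0, [],
 ⟨p017_k8, nat_lit 0, nat_lit 0, nat_lit 579, nat_lit 0, nat_lit 748276, [nat_lit 3282000000, nat_lit 4688000000, nat_lit 9842000000], [], [nat_lit 24464643930, nat_lit 24124846932, nat_lit 24066240708, nat_lit 24102869209], nat_lit 1271250, nat_lit 1271250, nat_lit 631250, nat_lit 780000, nat_lit 0, nat_lit 0, [nat_lit 780000, nat_lit 1100000, nat_lit 2127500], [nat_lit 42, nat_lit 40, nat_lit 80, nat_lit 80, nat_lit 13, nat_lit 238, nat_lit 30, nat_lit 7]⟩, ⟨p017_k1, nat_lit 0, nat_lit 0, nat_lit 164, nat_lit 0, nat_lit 0, [nat_lit 3282000000, nat_lit 4688000000, nat_lit 9842000000], [], [nat_lit 17002521616, nat_lit 17369047526, nat_lit 17201998044, nat_lit 17668264174],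 nat_lit 0, nat_lit 0, nat_lit 0, nat_lit 0, nat_lit 0, nat_lit 0, [], [nat_lit 42, nat_lit 40, nat_lit 80, nat_lit 80, nat_lit 13, nat_lit 238, nat_lit 30, nat_lit 7]⟩,
 zbF0, []⟩
noncomputable def p017_l104 : Lf2 := ⟨nat_lit 0, nat_lit 10, [nat_lit 0, nat_lit 5, nat_lit 5, nat_lit 20], true, nat_lit 0, nat_lit 0, nat_lit 0, nat_lit 0, ⟨nat_lit 0, nat_lit 1000, nat_lit 0, nat_lit 7, nat_lit 154, nat_lit 0, nat_lit 0, nat_lit 0, nat_lit 0, nat_lit 0, nat_lit 0, nat_lit 0, nat_lit 0, nat_lit 0, nat_lit 0, nat_lit 5000000, false, false⟩,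
 nat_lit 0, nat_lit 8875, nat_lit 0, nat_lit 0, nat_lit 5647, nat_lit 0, nat_lit 26, nat_lit 0, nat_lit 0, nat_lit 0, nat_lit 0, nat_lit 0, nat_lit 0, nat_lit 0, nat_lit 12, nat_lit 1000000, nat_lit 0, nat_lit 0, [(nat_lit 12, [(nat_lit 2, nat_lit 1000)])],
 ⟨p017_k0, nat_lit 0, nat_lit 0, nat_lit 515, nat_lit 0, nat_lit 610794, [nat_lit 2479200001, nat_lit 2186400000, nat_lit 42000000], [], [nat_lit 19190955336, nat_lit 19316475162, nat_lit 18868572273, nat_lit 18992598144], nat_lit 1271250, nat_lit 1271250, nat_lit 382400, nat_lit 780000, nat_lit 0, nat_lit 0, [nat_lit 780000, nat_lit 1435000, nat_lit 1271250], [nat_lit 8, nat_lit 40, nat_lit 80, nat_lit 80, nat_lit 1, nat_lit 238, nat_lit 30, nat_lit 7]⟩, C1.Rw.none,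
 ⟨nat_lit 5408, nat_lit 5478, ⟨.ofNat (nat_lit 330654), .ofNat (nat_lit 435560), .ofNat (nat_lit 333858), .ofNat (nat_lit 438764), .ofNat (nat_lit 332488), .ofNat (nat_lit 436651), .ofNat (nat_lit 335692), .ofNat (nat_lit 439855)⟩, ⟨.ofNat (nat_lit 0), .ofNat (nat_lit 0), .ofNat (nat_lit 0), .ofNat (nat_lit 0), .ofNat (nat_lit 0), .ofNat (nat_lit 0), .ofNat (nat_lit 0), .ofNat (nat_lit 0)⟩⟩, [⟨nat_lit 0, nat_lit 100, nat_lit 100, nat_lit 83, nat_lit 22768913⟩]⟩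
noncomputable def p017_l105 : Lf2 := ⟨nat_lit 0, nat_lit 10, [nat_lit 0, nat_lit 5, nat_lit 5, nat_lit 20], true, nat_lit 0, nat_lit 0, nat_lit 0, nat_lit 0, ⟨nat_lit 0, nat_lit 1000, nat_lit 0, nat_lit 7, nat_lit 155, nat_lit 0, nat_lit 0, nat_lit 0, nat_lit 0, nat_lit 0, nat_lit 0, nat_lit 0, nat_lit 0, nat_lit 0, nat_lit 0, nat_lit 5000000, false, false⟩,
 nat_lit 0, nat_lit 8708, nat_lit 0, nat_lit 0, nat_lit 5613, nat_lit 0, nat_lit 21, nat_lit 0, nat_lit 0, nat_lit 0, nat_lit 0, nat_lit 0, nat_lit 0, nat_lit 49447776983917, nat_lit 12, nat_lit 1000000, nat_lit 0, nat_lit 0, [(nat_lit 12, [(nat_lit 2, nat_lit 1000)])],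
 ⟨p017_k28, nat_lit 0, nat_lit 0, nat_lit 549, nat_lit 0, nat_lit 634576, [nat_lit 2479200001, nat_lit 2186400000, nat_lit 42000000], [], [nat_lit 19413136536, nat_lit 19497943622, nat_lit 19093549298, nat_lit 19176030504], nat_lit 1271250, nat_lit 1271250, nat_lit 382400, nat_lit 780000, nat_lit 0, nat_lit 0, [nat_lit 780000, nat_lit 1435000, nat_lit 1271250], [nat_lit 8, nat_lit 40, nat_lit 80, nat_lit 80, nat_lit 1, nat_lit 238, nat_lit 30, nat_lit 7]⟩, C1.Rw.none,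
 ⟨nat_lit 5361, nat_lit 5409, ⟨.ofNat (nat_lit 332488), .ofNat (nat_lit 436651), .ofNat (nat_lit 337829), .ofNat (nat_lit 441992), .ofNat (nat_lit 333709), .ofNat (nat_lit 437378), .ofNat (nat_lit 339051), .ofNat (nat_lit 442720)⟩, ⟨.ofNat (nat_lit 0), .ofNat (nat_lit 0), .ofNat (nat_lit 0), .ofNat (nat_lit 0), .ofNat (nat_lit 0), .ofNat (nat_lit 0), .ofNat (nat_lit 0), .ofNat (nat_lit 0)⟩⟩, [⟨nat_lit 0, nat_lit 100, nat_lit 100, nat_lit 85, nat_lit 22304495⟩]⟩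
noncomputable def p017_l106 : Lf2 := ⟨nat_lit 0, nat_lit 10, [nat_lit 0, nat_lit 5, nat_lit 5, nat_lit 20], false, nat_lit 0, nat_lit 0, nat_lit 0, nat_lit 0, ⟨nat_lit 1000, nat_lit 0, nat_lit 0, nat_lit 0, nat_lit 0, nat_lit 0, nat_lit 0, nat_lit 0, nat_lit 0, nat_lit 0, nat_lit 0, nat_lit 0, nat_lit 0, nat_lit 0, nat_lit 0, nat_lit 0, false, false⟩,
 nat_lit 0, nat_lit 11237, nat_lit 0, nat_lit 0, nat_lit 7150, nat_lit 5897, nat_lit 1808, nat_lit 0, nat_lit 0, nat_lit 2440, nat_lit 0, nat_lit 0, nat_lit 0, nat_lit 0, nat_lit 0, nat_lit 0, nat_lit 0, nat_lit 0, [],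
 ⟨p017_k1, nat_lit 0, nat_lit 0, nat_lit 581, nat_lit 0, nat_lit 777978, [nat_lit 3282000000, nat_lit 4688000000, nat_lit 9842000000], [], [nat_lit 23098200200, nat_lit 22453551600, nat_lit 26837060600, nat_lit 26017005650], nat_lit 1271250, nat_lit 1271250, nat_lit 780000, nat_lit 1100001, nat_lit 0, nat_lit 0, [nat_lit 780000, nat_lit 1100000, nat_lit 2127500], [nat_lit 42, nat_lit 40, nat_lit 80, nat_lit 80, nat_lit 13, nat_lit 249, nat_lit 40, nat_lit 7]⟩, ⟨p017_k1, nat_lit 0, nat_lit 0, nat_lit 159, nat_lit 0, nat_lit 0, [nat_lit 3282000000, nat_lit 4688000000, nat_lit 9842000000], [], [nat_lit 16502059820, nat_lit 16922209474, nat_lit 17006855036, nat_lit 17474733769], nat_lit 0, nat_lit 0, nat_lit 0, nat_lit 0, nat_lit 0, nat_lit 0, [], [nat_lit 42, nat_lit 40, nat_lit 80, nat_lit 80, nat_lit 13, nat_lit 249, nat_lit 40, nat_lit 7]⟩,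
 zbF0, []⟩
noncomputable def p017_l107 : Lf2 := ⟨nat_lit 0, nat_lit 10, [nat_lit 0, nat_lit 5, nat_lit 5, nat_lit 20], true, nat_lit 0, nat_lit 0, nat_lit 0, nat_lit 0, ⟨nat_lit 0, nat_lit 1000, nat_lit 0, nat_lit 7, nat_lit 151, nat_lit 0, nat_lit 0, nat_lit 0, nat_lit 0, nat_lit 0, nat_lit 0, nat_lit 0, nat_lit 0, nat_lit 0, nat_lit 0, nat_lit 5000000, false, false⟩,
 nat_lit 0, nat_lit 8372, nat_lit 0, nat_lit 0, nat_lit 5443, nat_lit 0, nat_lit 134, nat_lit 0, nat_lit 0, nat_lit 0, nat_lit 0, nat_lit 0, nat_lit 0, nat_lit 0, nat_lit 12, nat_lit 1000000, nat_lit 0, nat_lit 0, [(nat_lit 12, [(nat_lit 2, nat_lit 1000)])],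
 ⟨p017_k29, nat_lit 0, nat_lit 0, nat_lit 439, nat_lit 0, nat_lit 407404, [nat_lit 2479200001, nat_lit 2186400000, nat_lit 42000000], [], [nat_lit 18580257827, nat_lit 18842859941, nat_lit 18361535608, nat_lit 18631290116], nat_lit 1271250, nat_lit 1271250, nat_lit 408851, nat_lit 631250, nat_lit 0, nat_lit 0, [nat_lit 780000, nat_lit 1435000, nat_lit 1271250], [nat_lit 8, nat_lit 40, nat_lit 80, nat_lit 80, nat_lit 1, nat_lit 232, nat_lit 25, nat_lit 7]⟩, C1.Rw.none,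
 ⟨nat_lit 5244, nat_lit 5362, ⟨.ofNat (nat_lit 341114), .ofNat (nat_lit 400353), .ofNat (nat_lit 351798), .ofNat (nat_lit 411037), .ofNat (nat_lit 344076), .ofNat (nat_lit 402612), .ofNat (nat_lit 354768), .ofNat (nat_lit 413305)⟩, ⟨.ofNat (nat_lit 0), .ofNat (nat_lit 0), .ofNat (nat_lit 0), .ofNat (nat_lit 0), .ofNat (nat_lit 0), .ofNat (nat_lit 0), .ofNat (nat_lit 0), .ofNat (nat_lit 0)⟩⟩, [⟨nat_lit 0, nat_lit 100, nat_lit 100, nat_lit 90, nat_lit 26504168⟩]⟩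
noncomputable def p017_l108 : Lf2 := ⟨nat_lit 0, nat_lit 10, [nat_lit 0, nat_lit 5, nat_lit 5, nat_lit 20], false, nat_lit 0, nat_lit 0, nat_lit 0, nat_lit 0, ⟨nat_lit 1000, nat_lit 0, nat_lit 0, nat_lit 0, nat_lit 0, nat_lit 0, nat_lit 0, nat_lit 0, nat_lit 0, nat_lit 0, nat_lit 0, nat_lit 0, nat_lit 0, nat_lit 0, nat_lit 0, nat_lit 0, false, false⟩,
 nat_lit 0, nat_lit 10758, nat_lit 0, nat_lit 0, nat_lit 6994, nat_lit 5258, nat_lit 1716, nat_lit 0, nat_lit 0, nat_lit 2278, nat_lit 0, nat_lit 0, nat_lit 0, nat_lit 41787817431970, nat_lit 0, nat_lit 0, nat_lit 0, nat_lit 0, [],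
 ⟨p017_k9, nat_lit 0, nat_lit 0, nat_lit 605, nat_lit 0, nat_lit 826017, [nat_lit 3282000000, nat_lit 4688000000, nat_lit 9842000000], [], [nat_lit 23377998316, nat_lit 22492758430, nat_lit 22284629904, nat_lit 22554534868], nat_lit 1271250, nat_lit 1271250, nat_lit 631250, nat_lit 780000, nat_lit 0, nat_lit 0, [nat_lit 780000, nat_lit 1100000, nat_lit 2127500], [nat_lit 42, nat_lit 40, nat_lit 80, nat_lit 80, nat_lit 13, nat_lit 238, nat_lit 30, nat_lit 7]⟩, ⟨p017_k1, nat_lit 0, nat_lit 0, nat_lit 167, nat_lit 0, nat_lit 0, [nat_lit 3282000000, nat_lit 4688000000, nat_lit 9842000000], [], [nat_lit 17166103924, nat_lit 17894225913, nat_lit 17300576770, nat_lit 18180967642], nat_lit 0, nat_lit 0, nat_lit 0, nat_lit 0, nat_lit 0, nat_lit 0, [], [nat_lit 42, nat_lit 40, nat_lit 80, nat_lit 80, nat_lit 13, nat_lit 238, nat_lit 30, nat_lit 7]⟩,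
 zbF0, []⟩
noncomputable def p017_l109 : Lf2 := ⟨nat_lit 0, nat_lit 10, [nat_lit 0, nat_lit 5, nat_lit 5, nat_lit 20], false, nat_lit 0, nat_lit 0, nat_lit 0, nat_lit 0, ⟨nat_lit 1000, nat_lit 0, nat_lit 0, nat_lit 0, nat_lit 0, nat_lit 0, nat_lit 0, nat_lit 0, nat_lit 0, nat_lit 0, nat_lit 0, nat_lit 0, nat_lit 0, nat_lit 0, nat_lit 0, nat_lit 0, false, false⟩,
 nat_lit 0, nat_lit 10930, nat_lit 0, nat_lit 0, nat_lit 7106, nat_lit 5719, nat_lit 1797, nat_lit 0, nat_lit 0, nat_lit 2371, nat_lit 0, nat_lit 0, nat_lit 0, nat_lit 45068832973561, nat_lit 0, nat_lit 0, nat_lit 0, nat_lit 0, [],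
 ⟨p017_k9, nat_lit 0, nat_lit 0, nat_lit 597, nat_lit 0, nat_lit 826017, [nat_lit 3282000000, nat_lit 4688000000, nat_lit 9842000000], [], [nat_lit 21595826805, nat_lit 21236593288, nat_lit 25330600281, nat_lit 24515591823], nat_lit 1271250, nat_lit 1271250, nat_lit 780000, nat_lit 1100001, nat_lit 0, nat_lit 0, [nat_lit 780000, nat_lit 1100000, nat_lit 2127500], [nat_lit 42, nat_lit 40, nat_lit 80, nat_lit 80, nat_lit 13, nat_lit 249, nat_lit 40, nat_lit 7]⟩, ⟨p017_k1, nat_lit 0, nat_lit 0, nat_lit 161, nat_lit 0, nat_lit 0, [nat_lit 3282000000, nat_lit 4688000000, nat_lit 9842000000], [], [nat_lit 16809125015, nat_lit 17633271782, nat_lit 17250467972, nat_lit 18168898027], nat_lit 0, nat_lit 0, nat_lit 0, nat_lit 0, nat_lit 0, nat_lit 0, [], [nat_lit 42, nat_lit 40, nat_lit 80, nat_lit 80, nat_lit 13, nat_lit 249, nat_lit 40, nat_lit 7]⟩,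
 zbF0, []⟩
noncomputable def p017_l110 : Lf2 := ⟨nat_lit 0, nat_lit 10, [nat_lit 0, nat_lit 5, nat_lit 5, nat_lit 20], true, nat_lit 0, nat_lit 0, nat_lit 0, nat_lit 0, ⟨nat_lit 0, nat_lit 1000, nat_lit 0, nat_lit 7, nat_lit 150, nat_lit 0, nat_lit 0, nat_lit 0, nat_lit 0, nat_lit 0, nat_lit 0, nat_lit 0, nat_lit 0, nat_lit 0, nat_lit 0, nat_lit 5000000, false, false⟩,
 nat_lit 0, nat_lit 6987, nat_lit 0, nat_lit 0, nat_lit 4542, nat_lit 0, nat_lit 547, nat_lit 0, nat_lit 0, nat_lit 0, nat_lit 0, nat_lit 0, nat_lit 0, nat_lit 28579838532619, nat_lit 0, nat_lit 400000, nat_lit 0, nat_lit 0, [(nat_lit 12, [(nat_lit 1, nat_lit 1000)])],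
 ⟨p017_k29, nat_lit 0, nat_lit 0, nat_lit 372, nat_lit 0, nat_lit 343269, [nat_lit 2068400000, nat_lit 2721200001, nat_lit 2642799999], [], [nat_lit 19570700873, nat_lit 19735932777, nat_lit 19493399836, nat_lit 19683603412], nat_lit 1271250, nat_lit 1271250, nat_lit 408851, nat_lit 631250, nat_lit 0, nat_lit 0, [nat_lit 780000, nat_lit 1435000, nat_lit 1271250], [nat_lit 8, nat_lit 40, nat_lit 80, nat_lit 80, nat_lit 1, nat_lit 232, nat_lit 25, nat_lit 7]⟩, C1.Rw.none,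
 ⟨nat_lit 5291, nat_lit 5362, ⟨.ofNat (nat_lit 341114), .ofNat (nat_lit 400353), .ofNat (nat_lit 349661), .ofNat (nat_lit 408901), .ofNat (nat_lit 342891), .ofNat (nat_lit 401708), .ofNat (nat_lit 351442), .ofNat (nat_lit 410260)⟩, ⟨.ofNat (nat_lit 0), .ofNat (nat_lit 0), .ofNat (nat_lit 0), .ofNat (nat_lit 0), .ofNat (nat_lit 0), .ofNat (nat_lit 0), .ofNat (nat_lit 0), .ofNat (nat_lit 0)⟩⟩, [⟨nat_lit 0, nat_lit 100, nat_lit 100, nat_lit 88, nat_lit 1633576⟩]⟩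
noncomputable def p017_l111 : Lf2 := ⟨nat_lit 0, nat_lit 10, [nat_lit 0, nat_lit 5, nat_lit 5, nat_lit 20], false, nat_lit 0, nat_lit 0, nat_lit 0, nat_lit 0, ⟨nat_lit 1000, nat_lit 0, nat_lit 0, nat_lit 0, nat_lit 0, nat_lit 0, nat_lit 0, nat_lit 0, nat_lit 0, nat_lit 0, nat_lit 0, nat_lit 0, nat_lit 0, nat_lit 0, nat_lit 0, nat_lit 0, false, false⟩,
 nat_lit 0, nat_lit 10539, nat_lit 0, nat_lit 0, nat_lit 6852, nat_lit 5273, nat_lit 1623, nat_lit 0, nat_lit 0, nat_lit 2289, nat_lit 0, nat_lit 0, nat_lit 0, nat_lit 41794091245631, nat_lit 0, nat_lit 0, nat_lit 0, nat_lit 0, [],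
 ⟨p017_k9, nat_lit 0, nat_lit 0, nat_lit 538, nat_lit 0, nat_lit 679263, [nat_lit 3282000000, nat_lit 4688000000, nat_lit 9842000000], [], [nat_lit 23593673949, nat_lit 23070148602, nat_lit 23084251964, nat_lit 23031928188], nat_lit 1271250, nat_lit 1271250, nat_lit 631250, nat_lit 780000, nat_lit 0, nat_lit 0, [nat_lit 780000, nat_lit 1100000, nat_lit 2127500], [nat_lit 42, nat_lit 40, nat_lit 80, nat_lit 80, nat_lit 13, nat_lit 238, nat_lit 30, nat_lit 7]⟩, ⟨p017_k1, nat_lit 0, nat_lit 0, nat_lit 166, nat_lit 0, nat_lit 0, [nat_lit 3282000000, nat_lit 4688000000, nat_lit 9842000000], [], [nat_lit 17100120344, nat_lit 17685220096, nat_lit 17233676495, nat_lit 17977106821], nat_lit 0, nat_lit 0, nat_lit 0, nat_lit 0, nat_lit 0, nat_lit 0, [], [nat_lit 42, nat_lit 40, nat_lit 80, nat_lit 80, nat_lit 13, nat_lit 238, nat_lit 30, nat_lit 7]⟩,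
 zbF0, []⟩
noncomputable def p017_l112 : Lf2 := ⟨nat_lit 0, nat_lit 10, [nat_lit 0, nat_lit 5, nat_lit 5, nat_lit 20], false, nat_lit 0, nat_lit 0, nat_lit 0, nat_lit 0, ⟨nat_lit 1000, nat_lit 0, nat_lit 0, nat_lit 0, nat_lit 0, nat_lit 0, nat_lit 0, nat_lit 0, nat_lit 0, nat_lit 0, nat_lit 0, nat_lit 0, nat_lit 0, nat_lit 0, nat_lit 0, nat_lit 0, false, false⟩,
 nat_lit 0, nat_lit 14463, nat_lit 0, nat_lit 0, nat_lit 9403, nat_lit 5767, nat_lit 995, nat_lit 0, nat_lit 0, nat_lit 1368, nat_lit 0, nat_lit 0, nat_lit 0, nat_lit 0, nat_lit 0, nat_lit 0, nat_lit 0, nat_lit 0, [],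
 ⟨p017_k29, nat_lit 0, nat_lit 0, nat_lit 513, nat_lit 0, nat_lit 679263, [nat_lit 3282000000, nat_lit 6250000000, nat_lit 9842000000], [], [nat_lit 23385832392, nat_lit 23534674530, nat_lit 22996914939, nat_lit 23166003549], nat_lit 1271250, nat_lit 1271250, nat_lit 780000, nat_lit 1100001, nat_lit 0, nat_lit 0, [nat_lit 780000, nat_lit 1435000, nat_lit 1271250], [nat_lit 8, nat_lit 40, nat_lit 80, nat_lit 80, nat_lit 1, nat_lit 249, nat_lit 40, nat_lit 7]⟩, ⟨p017_k0, nat_lit 0, nat_lit 0, nat_lit 165, nat_lit 0, nat_lit 0, [nat_lit 3282000000, nat_lit 6250000000, nat_lit 9842000000], [], [nat_lit 19886092020, nat_lit 20550859767, nat_lit 20316864380, nat_lit 20999666793], nat_lit 0, nat_lit 0, nat_lit 0, nat_lit 0, nat_lit 0, nat_lit 0, [], [nat_lit 8, nat_lit 40, nat_lit 80, nat_lit 80, nat_lit 1, nat_lit 249, nat_lit 40, nat_lit 7]⟩,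
 zbF0, []⟩
noncomputable def p017_l113 : Lf2 := ⟨nat_lit 0, nat_lit 10, [nat_lit 0, nat_lit 5, nat_lit 5, nat_lit 20], false, nat_lit 0, nat_lit 0, nat_lit 0, nat_lit 0, ⟨nat_lit 455, nat_lit 545, nat_lit 0, nat_lit 7, nat_lit 172, nat_lit 0, nat_lit 0, nat_lit 0, nat_lit 0, nat_lit 0, nat_lit 0, nat_lit 0, nat_lit 0, nat_lit 0, nat_lit 0, nat_lit 5000000, false, false⟩,
 nat_lit 0, nat_lit 9393, nat_lit 0, nat_lit 0, nat_lit 6185, nat_lit 2334, nat_lit 1130, nat_lit 0, nat_lit 0, nat_lit 994, nat_lit 0, nat_lit 0, nat_lit 0, nat_lit 0, nat_lit 0, nat_lit 136250, nat_lit 0, nat_lit 0, [(nat_lit 12, [(nat_lit 0, nat_lit 545)])],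
 ⟨p017_k10, nat_lit 0, nat_lit 0, nat_lit 481, nat_lit 0, nat_lit 656338, [nat_lit 2781690000, nat_lit 3509710001, nat_lit 5382738000], [], [nat_lit 20026267220, nat_lit 19801135417, nat_lit 24770966214, nat_lit 24487215732], nat_lit 1271250, nat_lit 1271250, nat_lit 408851, nat_lit 1100001, nat_lit 0, nat_lit 0, [nat_lit 780000, nat_lit 1100000, nat_lit 1785000], [nat_lit 36, nat_lit 40, nat_lit 80, nat_lit 80, nat_lit 7, nat_lit 249, nat_lit 40, nat_lit 8]⟩, ⟨p017_k1, nat_lit 0, nat_lit 0, nat_lit 179, nat_lit 0, nat_lit 0, [nat_lit 1493310000, nat_lit 2133040000, nat_lit 4478110000], [], [nat_lit 8203253532, nat_lit 8373181511, nat_lit 8260048446, nat_lit 8411840942], nat_lit 0, nat_lit 0, nat_lit 0, nat_lit 0, nat_lit 0, nat_lit 0, [], [nat_lit 42, nat_lit 40, nat_lit 80, nat_lit 80, nat_lit 13, nat_lit 249, nat_lit 40, nat_lit 7]⟩,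
 ⟨nat_lit 5244, nat_lit 5292, ⟨.ofNat (nat_lit 342891), .ofNat (nat_lit 511991), .ofNat (nat_lit 348236), .ofNat (nat_lit 517336), .ofNat (nat_lit 344076), .ofNat (nat_lit 512369), .ofNat (nat_lit 349422), .ofNat (nat_lit 517715)⟩, ⟨.ofNat (nat_lit 0), .ofNat (nat_lit 0), .ofNat (nat_lit 0), .ofNat (nat_lit 0), .ofNat (nat_lit 0), .ofNat (nat_lit 0), .ofNat (nat_lit 0), .ofNat (nat_lit 0)⟩⟩, []⟩
noncomputable def p017_l114 : Lf2 := ⟨nat_lit 0, nat_lit 10, [nat_lit 0, nat_lit 5, nat_lit 5, nat_lit 20], false, nat_lit 0, nat_lit 0, nat_lit 0, nat_lit 0, ⟨nat_lit 540, nat_lit 460, nat_lit 0, nat_lit 7, nat_lit 176, nat_lit 0, nat_lit 0, nat_lit 0, nat_lit 0, nat_lit 0, nat_lit 0, nat_lit 0, nat_lit 0, nat_lit 0, nat_lit 0, nat_lit 5000000, false, false⟩,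
 nat_lit 0, nat_lit 9915, nat_lit 0, nat_lit 0, nat_lit 6529, nat_lit 2776, nat_lit 1213, nat_lit 0, nat_lit 0, nat_lit 1174, nat_lit 0, nat_lit 0, nat_lit 0, nat_lit 46459486890389, nat_lit 0, nat_lit 115000, nat_lit 0, nat_lit 0, [(nat_lit 12, [(nat_lit 0, nat_lit 460)])],
 ⟨p017_k10, nat_lit 0, nat_lit 0, nat_lit 489, nat_lit 0, nat_lit 684555, [nat_lit 2859720000, nat_lit 3693480000, nat_lit 5785944000], [], [nat_lit 19297937762, nat_lit 19132399733, nat_lit 24582952121, nat_lit 24433186002], nat_lit 1271250, nat_lit 1271250, nat_lit 435600, nat_lit 1100001, nat_lit 0, nat_lit 0, [nat_lit 780000, nat_lit 1100000, nat_lit 1785000], [nat_lit 36, nat_lit 40, nat_lit 80, nat_lit 80, nat_lit 7, nat_lit 249, nat_lit 40, nat_lit 8]⟩, ⟨p017_k9, nat_lit 0, nat_lit 0, nat_lit 178, nat_lit 0, nat_lit 0, [nat_lit 1772280000, nat_lit 2531520000, nat_lit 5314680000], [], [nat_lit 9620646037, nat_lit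 9781942898, nat_lit 9743882636, nat_lit 9886601606], nat_lit 0, nat_lit 0, nat_lit 0, nat_lit 0, nat_lit 0, nat_lit 0, [], [nat_lit 42, nat_lit 40, nat_lit 80, nat_lit 80, nat_lit 13, nat_lit 249, nat_lit 40, nat_lit 7]⟩,
 ⟨nat_lit 5267, nat_lit 5292, ⟨.ofNat (nat_lit 355588), .ofNat (nat_lit 517336), .ofNat (nat_lit 359864), .ofNat (nat_lit 521612), .ofNat (nat_lit 356163), .ofNat (nat_lit 517525), .ofNat (nat_lit 360440), .ofNat (nat_lit 521802)⟩, ⟨.ofNat (nat_lit 0), .ofNat (nat_lit 0), .ofNat (nat_lit 0), .ofNat (nat_lit 0), .ofNat (nat_lit 0), .ofNat (nat_lit 0), .ofNat (nat_lit 0), .ofNat (nat_lit 0)⟩⟩, []⟩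
noncomputable def p017_l115 : Lf2 := ⟨nat_lit 0, nat_lit 10, [nat_lit 0, nat_lit 5, nat_lit 5, nat_lit 20], false, nat_lit 0, nat_lit 0, nat_lit 0, nat_lit 0, ⟨nat_lit 1000, nat_lit 0, nat_lit 0, nat_lit 0, nat_lit 0, nat_lit 0, nat_lit 0, nat_lit 0, nat_lit 0, nat_lit 0, nat_lit 0, nat_lit 0, nat_lit 0, nat_lit 0, nat_lit 0, nat_lit 0, false, false⟩,
 nat_lit 0, nat_lit 11014, nat_lit 0, nat_lit 0, nat_lit 7283, nat_lit 5131, nat_lit 1617, nat_lit 0, nat_lit 0, nat_lit 2169, nat_lit 0, nat_lit 0, nat_lit 0, nat_lit 34016448505517, nat_lit 0, nat_lit 0, nat_lit 0, nat_lit 0, [],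
 ⟨p017_k30, nat_lit 0, nat_lit 0, nat_lit 493, nat_lit 0, nat_lit 697598, [nat_lit 3282000000, nat_lit 4688000000, nat_lit 7968000000], [], [nat_lit 20199159393, nat_lit 20015853754, nat_lit 25521638888, nat_lit 25354577064], nat_lit 1271250, nat_lit 1271250, nat_lit 435600, nat_lit 1100001, nat_lit 0, nat_lit 0, [nat_lit 780000, nat_lit 1100000, nat_lit 1785000], [nat_lit 36, nat_lit 40, nat_lit 80, nat_lit 80, nat_lit 7, nat_lit 249, nat_lit 40, nat_lit 8]⟩, ⟨p017_k9, nat_lit 0, nat_lit 0, nat_lit 178, nat_lit 0, nat_lit 0, [nat_lit 3282000000, nat_lit 4688000000, nat_lit 9842000000], [], [nat_lit 17847885292, nat_lit 18218998937, nat_lit 18079350461, nat_lit 18409394888], nat_lit 0, nat_lit 0, nat_lit 0, nat_lit 0, nat_lit 0, nat_lit 0, [], [nat_lit 42, nat_lit 40, nat_lit 80, nat_lit 80, nat_lit 13, nat_lit 249, nat_lit 40, nat_lit 7]⟩,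
 zbF0, [⟨nat_lit 0, nat_lit 100, nat_lit 100, nat_lit 90, nat_lit 261272197⟩]⟩
noncomputable def p017_l116 : Lf2 := ⟨nat_lit 0, nat_lit 10, [nat_lit 0, nat_lit 5, nat_lit 5, nat_lit 20], true, nat_lit 0, nat_lit 0, nat_lit 0, nat_lit 0, ⟨nat_lit 0, nat_lit 1000, nat_lit 0, nat_lit 7, nat_lit 154, nat_lit 0, nat_lit 0, nat_lit 0, nat_lit 0, nat_lit 0, nat_lit 0, nat_lit 0, nat_lit 0, nat_lit 0, nat_lit 0, nat_lit 5000000, false, false⟩,
 nat_lit 0, nat_lit 8143, nat_lit 0, nat_lit 0, nat_lit 5407, nat_lit 0, nat_lit 721, nat_lit 0, nat_lit 0, nat_lit 0, nat_lit 0, nat_lit 0, nat_lit 0, nat_lit 0, nat_lit 0, nat_lit 400000, nat_lit 0, nat_lit 0, [(nat_lit 12, [(nat_lit 1, nat_lit 1000)])],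
 ⟨p017_k3, nat_lit 0, nat_lit 0, nat_lit 379, nat_lit 0, nat_lit 455765, [nat_lit 2033400000, nat_lit 2574800000, nat_lit 2711866667], [], [nat_lit 17246191943, nat_lit 17921946974, nat_lit 17906853315, nat_lit 17656392795], nat_lit 1271250, nat_lit 1271250, nat_lit 435600, nat_lit 631250, nat_lit 0, nat_lit 0, [nat_lit 780000, nat_lit 1100000, nat_lit 1785000], [nat_lit 36, nat_lit 40, nat_lit 80, nat_lit 80, nat_lit 7, nat_lit 232, nat_lit 25, nat_lit 8]⟩, C1.Rw.none,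
 ⟨nat_lit 5000, nat_lit 5245, ⟨.ofNat (nat_lit 351391), .ofNat (nat_lit 402610), .ofNat (nat_lit 362083), .ofNat (nat_lit 413302), .ofNat (nat_lit 357140), .ofNat (nat_lit 407139), .ofNat (nat_lit 367854), .ofNat (nat_lit 417852)⟩, ⟨.ofNat (nat_lit 0), .ofNat (nat_lit 0), .ofNat (nat_lit 0), .ofNat (nat_lit 0), .ofNat (nat_lit 0), .ofNat (nat_lit 0), .ofNat (nat_lit 0), .ofNat (nat_lit 0)⟩⟩, []⟩
noncomputable def p017_l117 : Lf2 := ⟨nat_lit 0, nat_lit 10, [nat_lit 0, nat_lit 5, nat_lit 5, nat_lit 20], false, nat_lit 0, nat_lit 0, nat_lit 0, nat_lit 0, ⟨nat_lit 1000, nat_lit 0, nat_lit 0, nat_lit 0, nat_lit 0, nat_lit 0, nat_lit 0, nat_lit 0, nat_lit 0, nat_lit 0, nat_lit 0, nat_lit 0, nat_lit 0, nat_lit 0, nat_lit 0, nat_lit 0, false, false⟩,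
 nat_lit 0, nat_lit 11352, nat_lit 0, nat_lit 0, nat_lit 7539, nat_lit 5258, nat_lit 1513, nat_lit 0, nat_lit 0, nat_lit 2278, nat_lit 0, nat_lit 0, nat_lit 0, nat_lit 0, nat_lit 0, nat_lit 0, nat_lit 0, nat_lit 0, [],
 ⟨p017_k3, nat_lit 0, nat_lit 0, nat_lit 554, nat_lit 0, nat_lit 900134, [nat_lit 3282000000, nat_lit 4688000000, nat_lit 7968000000], [], [nat_lit 20101600184, nat_lit 20559704358, nat_lit 21210902162, nat_lit 20551921068], nat_lit 1271250, nat_lit 1271250, nat_lit 631250, nat_lit 780000, nat_lit 0, nat_lit 0, [nat_lit 780000, nat_lit 1100000, nat_lit 1785000], [nat_lit 36, nat_lit 40, nat_lit 80, nat_lit 80, nat_lit 7, nat_lit 238, nat_lit 30, nat_lit 8]⟩, ⟨p017_k1, nat_lit 0, nat_lit 0, nat_lit 167, nat_lit 0, nat_lit 0, [nat_lit 3282000000, nat_lit 4688000000, nat_lit 9842000000], [], [nat_lit 17166103924, nat_lit 17894225913, nat_lit 17300576770, nat_lit 18180967642], nat_lit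 0, nat_lit 0, nat_lit 0, nat_lit 0, nat_lit 0, nat_lit 0, [], [nat_lit 42, nat_lit 40, nat_lit 80, nat_lit 80, nat_lit 13, nat_lit 238, nat_lit 30, nat_lit 7]⟩,
 zbF0, []⟩
noncomputable def p017_l118 : Lf2 := ⟨nat_lit 0, nat_lit 10, [nat_lit 0, nat_lit 5, nat_lit 5, nat_lit 20], false, nat_lit 0, nat_lit 0, nat_lit 0, nat_lit 0, ⟨nat_lit 1000, nat_lit 0, nat_lit 0, nat_lit 0, nat_lit 0, nat_lit 0, nat_lit 0, nat_lit 0, nat_lit 0, nat_lit 0, nat_lit 0, nat_lit 0, nat_lit 0, nat_lit 0, nat_lit 0, nat_lit 0, false, false⟩,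
 nat_lit 0, nat_lit 11340, nat_lit 0, nat_lit 0, nat_lit 7530, nat_lit 5834, nat_lit 1490, nat_lit 0, nat_lit 0, nat_lit 2406, nat_lit 0, nat_lit 0, nat_lit 0, nat_lit 0, nat_lit 0, nat_lit 0, nat_lit 0, nat_lit 0, [],
 ⟨p017_k3, nat_lit 0, nat_lit 0, nat_lit 548, nat_lit 0, nat_lit 900134, [nat_lit 3282000000, nat_lit 4688000000, nat_lit 7968000000], [], [nat_lit 20201295590, nat_lit 20645124590, nat_lit 20590256410, nat_lit 20630542790], nat_lit 1271250, nat_lit 1271250, nat_lit 780000, nat_lit 1100001, nat_lit 0, nat_lit 0, [nat_lit 780000, nat_lit 1100000, nat_lit 1785000], [nat_lit 36, nat_lit 40, nat_lit 80, nat_lit 80, nat_lit 7, nat_lit 249, nat_lit 40, nat_lit 8]⟩, ⟨p017_k1, nat_lit 0, nat_lit 0, nat_lit 161, nat_lit 0, nat_lit 0, [nat_lit 3282000000, nat_lit 4688000000, nat_lit 9842000000], [], [nat_lit 16658483790, nat_lit 17495123866, nat_lit 17093077592, nat_lit 18022702322], nat_lit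 0, nat_lit 0, nat_lit 0, nat_lit 0, nat_lit 0, nat_lit 0, [], [nat_lit 42, nat_lit 40, nat_lit 80, nat_lit 80, nat_lit 13, nat_lit 249, nat_lit 40, nat_lit 7]⟩,
 zbF0, []⟩
noncomputable def p017_l119 : Lf2 := ⟨nat_lit 0, nat_lit 10, [nat_lit 0, nat_lit 5, nat_lit 5, nat_lit 20], false, nat_lit 0, nat_lit 0, nat_lit 0, nat_lit 0, ⟨nat_lit 1000, nat_lit 0, nat_lit 0, nat_lit 0, nat_lit 0, nat_lit 0, nat_lit 0, nat_lit 0, nat_lit 0, nat_lit 0, nat_lit 0, nat_lit 0, nat_lit 0, nat_lit 0, nat_lit 0, nat_lit 0, false, false⟩,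
 nat_lit 0, nat_lit 11473, nat_lit 0, nat_lit 0, nat_lit 7300, nat_lit 5943, nat_lit 1566, nat_lit 0, nat_lit 0, nat_lit 2341, nat_lit 0, nat_lit 0, nat_lit 0, nat_lit 0, nat_lit 0, nat_lit 0, nat_lit 0, nat_lit 0, [],
 ⟨p017_k1, nat_lit 0, nat_lit 0, nat_lit 626, nat_lit 0, nat_lit 954996, [nat_lit 3282000000, nat_lit 4688000000, nat_lit 9842000000], [], [nat_lit 24393402350, nat_lit 25136157400, nat_lit 28143901950, nat_lit 26619943000], nat_lit 1271250, nat_lit 1271250, nat_lit 1100001, nat_lit 1785000, nat_lit 0, nat_lit 0, [nat_lit 780000, nat_lit 1100000, nat_lit 2127500], [nat_lit 42, nat_lit 40, nat_lit 80, nat_lit 80, nat_lit 13, nat_lit 272, nat_lit 60, nat_lit 8]⟩, ⟨p017_k1, nat_lit 0, nat_lit 0, nat_lit 156, nat_lit 0, nat_lit 0, [nat_lit 3282000000, nat_lit 4688000000, nat_lit 9842000000], [], [nat_lit 17088547725, nat_lit 17884134219, nat_lit 20815811148, nat_lit 21702457096],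 nat_lit 0, nat_lit 0, nat_lit 0, nat_lit 0, nat_lit 0, nat_lit 0, [], [nat_lit 42, nat_lit 40, nat_lit 80, nat_lit 80, nat_lit 13, nat_lit 272, nat_lit 60, nat_lit 8]⟩,
 zbF0, []⟩
noncomputable def p017_l120 : Lf2 := ⟨nat_lit 0, nat_lit 10, [nat_lit 0, nat_lit 5, nat_lit 5, nat_lit 20], false, nat_lit 0, nat_lit 0, nat_lit 0, nat_lit 0, ⟨nat_lit 149, nat_lit 851, nat_lit 0, nat_lit 7, nat_lit 200, nat_lit 0, nat_lit 0, nat_lit 0, nat_lit 0, nat_lit 0, nat_lit 0, nat_lit 0, nat_lit 0, nat_lit 0, nat_lit 0, nat_lit 5000000, false, false⟩,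
 nat_lit 0, nat_lit 5369, nat_lit 0, nat_lit 0, nat_lit 3416, nat_lit 757, nat_lit 127, nat_lit 0, nat_lit 0, nat_lit 166, nat_lit 0, nat_lit 0, nat_lit 0, nat_lit 0, nat_lit 0, nat_lit 851000, nat_lit 0, nat_lit 0, [(nat_lit 12, [(nat_lit 2, nat_lit 851)])],
 ⟨p017_k0, nat_lit 0, nat_lit 0, nat_lit 479, nat_lit 0, nat_lit 508742, [nat_lit 2476273201, nat_lit 2587636400, nat_lit 1216264000], [], [nat_lit 27009397593, nat_lit 26743007307, nat_lit 28485164001, nat_lit 28845462089], nat_lit 1271250, nat_lit 1271250, nat_lit 382400, nat_lit 1731000, nat_lit 0, nat_lit 0, [nat_lit 780000, nat_lit 1435000, nat_lit 1271250], [nat_lit 8, nat_lit 40, nat_lit 80, nat_lit 80, nat_lit 1, nat_lit 272, nat_lit 60, nat_lit 8]⟩, ⟨p017_k0, nat_lit 0, nat_lit 0, nat_lit 193, nat_lit 0, nat_lit 0, [nat_lit 489018000, nat_lit 931250000, nat_lit 1466458000], [], [nat_lit 3272765330, nat_lit 3328072336, nat_lit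 3643703050, nat_lit 3685500898], nat_lit 0, nat_lit 0, nat_lit 0, nat_lit 0, nat_lit 0, nat_lit 0, [], [nat_lit 8, nat_lit 40, nat_lit 80, nat_lit 80, nat_lit 1, nat_lit 272, nat_lit 60, nat_lit 8]⟩,
 ⟨nat_lit 5244, nat_lit 5478, ⟨.ofNat (nat_lit 330654), .ofNat (nat_lit 660348), .ofNat (nat_lit 335994), .ofNat (nat_lit 665686), .ofNat (nat_lit 336758), .ofNat (nat_lit 658700), .ofNat (nat_lit 342105), .ofNat (nat_lit 664045)⟩, ⟨.ofNat (nat_lit 0), .ofNat (nat_lit 0), .ofNat (nat_lit 0), .ofNat (nat_lit 0), .ofNat (nat_lit 0), .ofNat (nat_lit 0), .ofNat (nat_lit 0), .ofNat (nat_lit 0)⟩⟩, []⟩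
noncomputable def p017_l121 : Lf2 := ⟨nat_lit 0, nat_lit 10, [nat_lit 0, nat_lit 5, nat_lit 5, nat_lit 20], false, nat_lit 0, nat_lit 0, nat_lit 0, nat_lit 0, ⟨nat_lit 138, nat_lit 862, nat_lit 0, nat_lit 7, nat_lit 205, nat_lit 0, nat_lit 0, nat_lit 0, nat_lit 0, nat_lit 0, nat_lit 0, nat_lit 0, nat_lit 0, nat_lit 0, nat_lit 0, nat_lit 5000000, false, false⟩,
 nat_lit 0, nat_lit 7128, nat_lit 0, nat_lit 0, nat_lit 4634, nat_lit 706, nat_lit 428, nat_lit 0, nat_lit 0, nat_lit 154, nat_lit 0, nat_lit 0, nat_lit 0, nat_lit 42201870730490, nat_lit 0, nat_lit 344800, nat_lit 0, nat_lit 0, [(nat_lit 12, [(nat_lit 1, nat_lit 862)])],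
 ⟨p017_k29, nat_lit 0, nat_lit 0, nat_lit 484, nat_lit 0, nat_lit 539478, [nat_lit 2235876800, nat_lit 3208174400, nat_lit 3630772800], [], [nat_lit 25189034980, nat_lit 24592840759, nat_lit 26153204306, nat_lit 26352608712], nat_lit 1271250, nat_lit 1271250, nat_lit 435600, nat_lit 1735500, nat_lit 0, nat_lit 0, [nat_lit 780000, nat_lit 1435000, nat_lit 1271250], [nat_lit 8, nat_lit 40, nat_lit 80, nat_lit 80, nat_lit 1, nat_lit 272, nat_lit 60, nat_lit 8]⟩, ⟨p017_k29, nat_lit 0, nat_lit 0, nat_lit 188, nat_lit 0, nat_lit 0, [nat_lit 452916000, nat_lit 862500000, nat_lit 1358196000], [], [nat_lit 2975798775, nat_lit 3026930939, nat_lit 3346172521, nat_lit 3385011352], nat_lit 0, nat_lit 0, nat_lit 0, nat_lit 0, nat_lit 0, nat_lit 0, [], [nat_lit 8, nat_lit 40, nat_lit 80, nat_lit 80, nat_lit 1, nat_lit 272, nat_lit 60, nat_lit 8]⟩,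
 ⟨nat_lit 5244, nat_lit 5362, ⟨.ofNat (nat_lit 353861), .ofNat (nat_lit 664866), .ofNat (nat_lit 359203), .ofNat (nat_lit 670208), .ofNat (nat_lit 356739), .ofNat (nat_lit 664055), .ofNat (nat_lit 362085), .ofNat (nat_lit 669401)⟩, ⟨.ofNat (nat_lit 0), .ofNat (nat_lit 0), .ofNat (nat_lit 0), .ofNat (nat_lit 0), .ofNat (nat_lit 0), .ofNat (nat_lit 0), .ofNat (nat_lit 0), .ofNat (nat_lit 0)⟩⟩, []⟩
noncomputable def p017_l122 : Lf2 := ⟨nat_lit 0, nat_lit 10, [nat_lit 0, nat_lit 5, nat_lit 5, nat_lit 20], false, nat_lit 0, nat_lit 0, nat_lit 0, nat_lit 0, ⟨nat_lit 302, nat_lit 698, nat_lit 0, nat_lit 7, nat_lit 205, nat_lit 0, nat_lit 0, nat_lit 0, nat_lit 0, nat_lit 0, nat_lit 0, nat_lit 0, nat_lit 0, nat_lit 0, nat_lit 0, nat_lit 5000000, false, false⟩,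
 nat_lit 0, nat_lit 8384, nat_lit 0, nat_lit 0, nat_lit 5567, nat_lit 1548, nat_lit 386, nat_lit 0, nat_lit 0, nat_lit 0, nat_lit 0, nat_lit 0, nat_lit 0, nat_lit 0, nat_lit 0, nat_lit 279200, nat_lit 0, nat_lit 0, [(nat_lit 12, [(nat_lit 1, nat_lit 698)])],
 ⟨p017_k3, nat_lit 0, nat_lit 0, nat_lit 430, nat_lit 0, nat_lit 607715, [nat_lit 2410477200, nat_lit 3212986400, nat_lit 4278372000], [], [nat_lit 25006150280, nat_lit 23976802930, nat_lit 29407560364, nat_lit 28147169296], nat_lit 1271250, nat_lit 1271250, nat_lit 435600, nat_lit 1735500, nat_lit 0, nat_lit 0, [nat_lit 780000, nat_lit 1100000, nat_lit 1785000], [nat_lit 36, nat_lit 40, nat_lit 80, nat_lit 80, nat_lit 7, nat_lit 272, nat_lit 60, nat_lit 9]⟩, ⟨p017_k1, nat_lit 0, nat_lit 0, nat_lit 178, nat_lit 0, nat_lit 0, [nat_lit 991164000, nat_lit 1415776000, nat_lit 2972284000], [], [nat_lit 8689213006, nat_lit 8913243095, nat_lit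 9525904040, nat_lit 9696049162], nat_lit 0, nat_lit 0, nat_lit 0, nat_lit 0, nat_lit 0, nat_lit 0, [], [nat_lit 42, nat_lit 40, nat_lit 80, nat_lit 80, nat_lit 13, nat_lit 272, nat_lit 60, nat_lit 8]⟩,
 ⟨nat_lit 5000, nat_lit 5245, ⟨.ofNat (nat_lit 351391), .ofNat (nat_lit 658699), .ofNat (nat_lit 362083), .ofNat (nat_lit 669390), .ofNat (nat_lit 357140), .ofNat (nat_lit 657129), .ofNat (nat_lit 367854), .ofNat (nat_lit 667842)⟩, ⟨.ofNat (nat_lit 0), .ofNat (nat_lit 0), .ofNat (nat_lit 0), .ofNat (nat_lit 0), .ofNat (nat_lit 0), .ofNat (nat_lit 0), .ofNat (nat_lit 0), .ofNat (nat_lit 0)⟩⟩, []⟩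
noncomputable def p017_l123 : Lf2 := ⟨nat_lit 0, nat_lit 10, [nat_lit 0, nat_lit 5, nat_lit 5, nat_lit 20], false, nat_lit 0, nat_lit 0, nat_lit 0, nat_lit 0, ⟨nat_lit 1000, nat_lit 0, nat_lit 0, nat_lit 0, nat_lit 0, nat_lit 0, nat_lit 0, nat_lit 0, nat_lit 0, nat_lit 0, nat_lit 0, nat_lit 0, nat_lit 0, nat_lit 0, nat_lit 0, nat_lit 0, false, false⟩,
 nat_lit 0, nat_lit 11386, nat_lit 0, nat_lit 0, nat_lit 7561, nat_lit 5507, nat_lit 1549, nat_lit 0, nat_lit 0, nat_lit 0, nat_lit 0, nat_lit 0, nat_lit 0, nat_lit 22015011047910, nat_lit 0, nat_lit 0, nat_lit 0, nat_lit 0, [],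
 ⟨p017_k3, nat_lit 0, nat_lit 0, nat_lit 602, nat_lit 0, nat_lit 936542, [nat_lit 3282000000, nat_lit 4688000000, nat_lit 7968000000], [], [nat_lit 19875839750, nat_lit 20112240426, nat_lit 20989903439, nat_lit 20111645818], nat_lit 1271250, nat_lit 1271250, nat_lit 490000, nat_lit 780000, nat_lit 0, nat_lit 0, [nat_lit 780000, nat_lit 1100000, nat_lit 1785000], [nat_lit 36, nat_lit 40, nat_lit 80, nat_lit 80, nat_lit 7, nat_lit 238, nat_lit 30, nat_lit 8]⟩, ⟨p017_k3, nat_lit 0, nat_lit 0, nat_lit 137, nat_lit 0, nat_lit 0, [nat_lit 3282000000, nat_lit 4688000000, nat_lit 7968000000], [], [nat_lit 24515985518, nat_lit 24991411443, nat_lit 24817384086, nat_lit 25220408054], nat_lit 0, nat_lit 0, nat_lit 0, nat_lit 0, nat_lit 0, nat_lit 0, [], [nat_lit 36, nat_lit 40, nat_lit 80, nat_lit 80, nat_lit 7, nat_lit 238, nat_lit 30, nat_lit 8]⟩,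
 zbF0, [⟨nat_lit 0, nat_lit 100, nat_lit 100, nat_lit 95, nat_lit 551402099⟩]⟩
noncomputable def p017_l124 : Lf2 := ⟨nat_lit 0, nat_lit 10, [nat_lit 0, nat_lit 5, nat_lit 5, nat_lit 20], false, nat_lit 0, nat_lit 0, nat_lit 0, nat_lit 0, ⟨nat_lit 1000, nat_lit 0, nat_lit 0, nat_lit 0, nat_lit 0, nat_lit 0, nat_lit 0, nat_lit 0, nat_lit 0, nat_lit 0, nat_lit 0, nat_lit 0, nat_lit 0, nat_lit 0, nat_lit 0, nat_lit 0, false, false⟩,
 nat_lit 0, nat_lit 9946, nat_lit 0, nat_lit 0, nat_lit 6605, nat_lit 5507, nat_lit 1504, nat_lit 0, nat_lit 0, nat_lit 0, nat_lit 0, nat_lit 0, nat_lit 0, nat_lit 6058272406169, nat_lit 0, nat_lit 0, nat_lit 0, nat_lit 0, [],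
 ⟨p017_k3, nat_lit 0, nat_lit 0, nat_lit 560, nat_lit 0, nat_lit 936542, [nat_lit 3282000000, nat_lit 4688000000, nat_lit 7968000000], [], [nat_lit 25099412213, nat_lit 24252708664, nat_lit 26301837670, nat_lit 25883286228], nat_lit 1271250, nat_lit 1271250, nat_lit 780000, nat_lit 1762500, nat_lit 0, nat_lit 0, [nat_lit 780000, nat_lit 1100000, nat_lit 1785000], [nat_lit 36, nat_lit 40, nat_lit 80, nat_lit 80, nat_lit 7, nat_lit 272, nat_lit 60, nat_lit 9]⟩, ⟨p017_k3, nat_lit 0, nat_lit 0, nat_lit 127, nat_lit 0, nat_lit 0, [nat_lit 3282000000, nat_lit 4688000000, nat_lit 7968000000], [], [nat_lit 24817384086, nat_lit 25220408054, nat_lit 28042130815, nat_lit 28400711255], nat_lit 0, nat_lit 0, nat_lit 0, nat_lit 0, nat_lit 0, nat_lit 0, [], [nat_lit 36, nat_lit 40, nat_lit 80, nat_lit 80, nat_lit 7, nat_lit 272, nat_lit 60, nat_lit 9]⟩,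
 zbF0, []⟩
noncomputable def p017_l125 : Lf2 := ⟨nat_lit 0, nat_lit 10, [nat_lit 0, nat_lit 5, nat_lit 5, nat_lit 20], false, nat_lit 0, nat_lit 0, nat_lit 0, nat_lit 0, ⟨nat_lit 1000, nat_lit 0, nat_lit 0, nat_lit 0, nat_lit 0, nat_lit 0, nat_lit 0, nat_lit 0, nat_lit 0, nat_lit 0, nat_lit 0, nat_lit 0, nat_lit 0, nat_lit 0, nat_lit 0, nat_lit 0, false, false⟩,
 nat_lit 0, nat_lit 9452, nat_lit 0, nat_lit 0, nat_lit 6409, nat_lit 5400, nat_lit 1549, nat_lit 0, nat_lit 0, nat_lit 0, nat_lit 0, nat_lit 0, nat_lit 0, nat_lit 30935256553411, nat_lit 0, nat_lit 0, nat_lit 0, nat_lit 0, [],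
 ⟨p017_k12, nat_lit 0, nat_lit 0, nat_lit 611, nat_lit 0, nat_lit 962814, [nat_lit 3282000000, nat_lit 4688000000, nat_lit 7968000000], [], [nat_lit 23648855357, nat_lit 23158811934, nat_lit 28779672310, nat_lit 28344365340], nat_lit 1271250, nat_lit 1271250, nat_lit 517650, nat_lit 1742250, nat_lit 0, nat_lit 0, [nat_lit 780000, nat_lit 1100000, nat_lit 1785000], [nat_lit 36, nat_lit 40, nat_lit 80, nat_lit 80, nat_lit 7, nat_lit 272, nat_lit 60, nat_lit 9]⟩, ⟨p017_k3, nat_lit 0, nat_lit 0, nat_lit 138, nat_lit 0, nat_lit 0, [nat_lit 3282000000, nat_lit 4688000000, nat_lit 7968000000], [], [nat_lit 24602588600, nat_lit 25273411033, nat_lit 28057504600, nat_lit 28605244841], nat_lit 0, nat_lit 0, nat_lit 0, nat_lit 0, nat_lit 0, nat_lit 0, [], [nat_lit 36, nat_lit 40, nat_lit 80, nat_lit 80, nat_lit 7, nat_lit 272, nat_lit 60, nat_lit 9]⟩,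
 zbF0, [⟨nat_lit 0, nat_lit 100, nat_lit 100, nat_lit 98, nat_lit 256504485⟩]⟩
noncomputable def p017_l126 : Lf2 := ⟨nat_lit 0, nat_lit 10, [nat_lit 0, nat_lit 5, nat_lit 5, nat_lit 20], false, nat_lit 0, nat_lit 0, nat_lit 0, nat_lit 0, ⟨nat_lit 1000, nat_lit 0, nat_lit 0, nat_lit 0, nat_lit 0, nat_lit 0, nat_lit 0, nat_lit 0, nat_lit 0, nat_lit 0, nat_lit 0, nat_lit 0, nat_lit 0, nat_lit 0, nat_lit 0, nat_lit 0, false, false⟩,
 nat_lit 0, nat_lit 9706, nat_lit 0, nat_lit 0, nat_lit 6664, nat_lit 5390, nat_lit 1546, nat_lit 0, nat_lit 0, nat_lit 0, nat_lit 0, nat_lit 0, nat_lit 0, nat_lit 32750304055671, nat_lit 0, nat_lit 0, nat_lit 0, nat_lit 0, [],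
 ⟨p017_k21, nat_lit 0, nat_lit 0, nat_lit 616, nat_lit 0, nat_lit 981065, [nat_lit 3282000000, nat_lit 4688000000, nat_lit 7968000000], [], [nat_lit 21770856105, nat_lit 21431594146, nat_lit 27514564384, nat_lit 27212813132], nat_lit 1271250, nat_lit 1271250, nat_lit 545600, nat_lit 1744500, nat_lit 0, nat_lit 0, [nat_lit 780000, nat_lit 1100000, nat_lit 1785000], [nat_lit 36, nat_lit 40, nat_lit 80, nat_lit 80, nat_lit 7, nat_lit 272, nat_lit 60, nat_lit 9]⟩, ⟨p017_k3, nat_lit 0, nat_lit 0, nat_lit 138, nat_lit 0, nat_lit 0, [nat_lit 3282000000, nat_lit 4688000000, nat_lit 7968000000], [], [nat_lit 24646507380, nat_lit 25479538508, nat_lit 28066964110, nat_lit 28746042380], nat_lit 0, nat_lit 0, nat_lit 0, nat_lit 0, nat_lit 0, nat_lit 0, [], [nat_lit 36, nat_lit 40, nat_lit 80, nat_lit 80, nat_lit 7, nat_lit 272, nat_lit 60, nat_lit 9]⟩,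
 zbF0, [⟨nat_lit 0, nat_lit 100, nat_lit 100, nat_lit 100, nat_lit 227574417⟩]⟩
noncomputable def p017_l127 : Lf2 := ⟨nat_lit 0, nat_lit 10, [nat_lit 0, nat_lit 5, nat_lit 5, nat_lit 20], false, nat_lit 0, nat_lit 0, nat_lit 0, nat_lit 0, ⟨nat_lit 1000, nat_lit 0, nat_lit 0, nat_lit 0, nat_lit 0, nat_lit 0, nat_lit 0, nat_lit 0, nat_lit 0, nat_lit 0, nat_lit 0, nat_lit 0, nat_lit 0, nat_lit 0, nat_lit 0, nat_lit 0, false, false⟩,
 nat_lit 0, nat_lit 9721, nat_lit 0, nat_lit 0, nat_lit 6186, nat_lit 6093, nat_lit 1331, nat_lit 0, nat_lit 0, nat_lit 1132, nat_lit 0, nat_lit 0, nat_lit 0, nat_lit 0, nat_lit 0, nat_lit 0, nat_lit 0, nat_lit 0, [],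
 ⟨p017_k1, nat_lit 0, nat_lit 0, nat_lit 591, nat_lit 0, nat_lit 898800, [nat_lit 3282000000, nat_lit 4688000000, nat_lit 9842000000], [], [nat_lit 31547481006, nat_lit 31776087944, nat_lit 36559884232, nat_lit 36801161372], nat_lit 1271250, nat_lit 1271250, nat_lit 1271250, nat_lit 1271250, nat_lit 0, nat_lit 0, [nat_lit 780000, nat_lit 1100000, nat_lit 2127500], [nat_lit 42, nat_lit 40, nat_lit 80, nat_lit 80, nat_lit 13, nat_lit 317, nat_lit 100, nat_lit 9]⟩, ⟨p017_k1, nat_lit 0, nat_lit 0, nat_lit 206, nat_lit 0, nat_lit 0, [nat_lit 3282000000, nat_lit 4688000000, nat_lit 9842000000], [], [nat_lit 26744943812, nat_lit 27320869741, nat_lit 36155160844, nat_lit 36553726308], nat_lit 0, nat_lit 0, nat_lit 0, nat_lit 0, nat_lit 0, nat_lit 0, [], [nat_lit 42, nat_lit 40, nat_lit 80, nat_lit 80, nat_lit 13, nat_lit 317, nat_lit 100, nat_lit 9]⟩,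
 zbF0, []⟩
noncomputable def p017_l128 : Lf2 := ⟨nat_lit 0, nat_lit 10, [nat_lit 0, nat_lit 5, nat_lit 5, nat_lit 20], false, nat_lit 0, nat_lit 0, nat_lit 0, nat_lit 0, ⟨nat_lit 1000, nat_lit 0, nat_lit 0, nat_lit 0, nat_lit 0, nat_lit 0, nat_lit 0, nat_lit 0, nat_lit 0, nat_lit 0, nat_lit 0, nat_lit 0, nat_lit 0, nat_lit 0, nat_lit 0, nat_lit 0, false, false⟩,
 nat_lit 0, nat_lit 8844, nat_lit 0, nat_lit 0, nat_lit 5873, nat_lit 6257, nat_lit 1275, nat_lit 0, nat_lit 0, nat_lit 1041, nat_lit 0, nat_lit 0, nat_lit 0, nat_lit 0, nat_lit 0, nat_lit 0, nat_lit 0, nat_lit 0, [],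
 ⟨p017_k3, nat_lit 0, nat_lit 0, nat_lit 580, nat_lit 0, nat_lit 1027518, [nat_lit 3282000000, nat_lit 4688000000, nat_lit 7968000000], [], [nat_lit 31709629114, nat_lit 31975521408, nat_lit 36352265890, nat_lit 36550230490], nat_lit 1271250, nat_lit 1271250, nat_lit 1271250, nat_lit 1271250, nat_lit 0, nat_lit 0, [nat_lit 780000, nat_lit 1100000, nat_lit 1785000], [nat_lit 36, nat_lit 40, nat_lit 80, nat_lit 80, nat_lit 7, nat_lit 233, nat_lit 0, nat_lit 7]⟩, ⟨p017_k1, nat_lit 0, nat_lit 0, nat_lit 207, nat_lit 0, nat_lit 0, [nat_lit 3282000000, nat_lit 4688000000, nat_lit 9842000000], [], [nat_lit 27042817713, nat_lit 28210102955, nat_lit 36779005081, nat_lit 37585282802], nat_lit 0, nat_lit 0, nat_lit 0, nat_lit 0, nat_lit 0, nat_lit 0, [], [nat_lit 42, nat_lit 40, nat_lit 80, nat_lit 80, nat_lit 13, nat_lit 317, nat_lit 100, nat_lit 9]⟩,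
 zbF0, []⟩
noncomputable def p017_l129 : Lf2 := ⟨nat_lit 0, nat_lit 10, [nat_lit 0, nat_lit 5, nat_lit 5, nat_lit 20], false, nat_lit 0, nat_lit 0, nat_lit 0, nat_lit 0, ⟨nat_lit 1000, nat_lit 0, nat_lit 0, nat_lit 0, nat_lit 0, nat_lit 0, nat_lit 0, nat_lit 0, nat_lit 0, nat_lit 0, nat_lit 0, nat_lit 0, nat_lit 0, nat_lit 0, nat_lit 0, nat_lit 0, false, false⟩,
 nat_lit 0, nat_lit 9920, nat_lit 0, nat_lit 0, nat_lit 6867, nat_lit 5226, nat_lit 1597, nat_lit 0, nat_lit 0, nat_lit 2197, nat_lit 0, nat_lit 0, nat_lit 0, nat_lit 0, nat_lit 0, nat_lit 0, nat_lit 0, nat_lit 0, [],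
 ⟨p017_k4, nat_lit 0, nat_lit 0, nat_lit 633, nat_lit 0, nat_lit 1016753, [nat_lit 3282000000, nat_lit 4688000000, nat_lit 7968000000], [], [nat_lit 20390176248, nat_lit 20824870804, nat_lit 20348739851, nat_lit 20758306711], nat_lit 1271250, nat_lit 1271250, nat_lit 490000, nat_lit 780000, nat_lit 0, nat_lit 0, [nat_lit 780000, nat_lit 1100000, nat_lit 1785000], [nat_lit 36, nat_lit 40, nat_lit 80, nat_lit 80, nat_lit 7, nat_lit 238, nat_lit 30, nat_lit 8]⟩, ⟨p017_k1, nat_lit 0, nat_lit 0, nat_lit 178, nat_lit 0, nat_lit 0, [nat_lit 3282000000, nat_lit 4688000000, nat_lit 9842000000], [], [nat_lit 17457208141, nat_lit 19040877129, nat_lit 17730065065, nat_lit 19144115596], nat_lit 0, nat_lit 0, nat_lit 0, nat_lit 0, nat_lit 0, nat_lit 0, [], [nat_lit 42, nat_lit 40, nat_lit 80, nat_lit 80, nat_lit 13, nat_lit 238, nat_lit 30, nat_lit 7]⟩,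
 zbF0, [⟨nat_lit 0, nat_lit 97, nat_lit 93, nat_lit 100, nat_lit 620053466⟩]⟩
noncomputable def p017_l130 : Lf2 := ⟨nat_lit 0, nat_lit 10, [nat_lit 0, nat_lit 5, nat_lit 5, nat_lit 20], false, nat_lit 0, nat_lit 0, nat_lit 0, nat_lit 0, ⟨nat_lit 1000, nat_lit 0, nat_lit 0, nat_lit 0, nat_lit 0, nat_lit 0, nat_lit 0, nat_lit 0, nat_lit 0, nat_lit 0, nat_lit 0, nat_lit 0, nat_lit 0, nat_lit 0, nat_lit 0, nat_lit 0, false, false⟩,
 nat_lit 0, nat_lit 9305, nat_lit 0, nat_lit 0, nat_lit 6707, nat_lit 5226, nat_lit 1288, nat_lit 0, nat_lit 0, nat_lit 2197, nat_lit 0, nat_lit 0, nat_lit 0, nat_lit 0, nat_lit 0, nat_lit 0, nat_lit 0, nat_lit 0, [],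
 ⟨p017_k14, nat_lit 0, nat_lit 0, nat_lit 638, nat_lit 0, nat_lit 1038603, [nat_lit 3282000000, nat_lit 4688000000, nat_lit 7968000000], [], [nat_lit 21383734225, nat_lit 22059731101, nat_lit 21418321287, nat_lit 21897443458], nat_lit 1271250, nat_lit 1271250, nat_lit 545600, nat_lit 780000, nat_lit 0, nat_lit 0, [nat_lit 780000, nat_lit 1100000, nat_lit 1785000], [nat_lit 36, nat_lit 40, nat_lit 80, nat_lit 80, nat_lit 7, nat_lit 238, nat_lit 30, nat_lit 8]⟩, ⟨p017_k1, nat_lit 0, nat_lit 0, nat_lit 176, nat_lit 0, nat_lit 0, [nat_lit 3282000000, nat_lit 4688000000, nat_lit 9842000000], [], [nat_lit 17511779526, nat_lit 19060918488, nat_lit 17730065065, nat_lit 19144115596], nat_lit 0, nat_lit 0, nat_lit 0, nat_lit 0, nat_lit 0, nat_lit 0, [], [nat_lit 42, nat_lit 40, nat_lit 80, nat_lit 80, nat_lit 13, nat_lit 238, nat_lit 30, nat_lit 7]⟩,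
 zbF0, [⟨nat_lit 0, nat_lit 94, nat_lit 87, nat_lit 100, nat_lit 932258474⟩]⟩
noncomputable def p017_l131 : Lf2 := ⟨nat_lit 0, nat_lit 10, [nat_lit 0, nat_lit 5, nat_lit 5, nat_lit 20], false, nat_lit 0, nat_lit 0, nat_lit 0, nat_lit 0, ⟨nat_lit 1000, nat_lit 0, nat_lit 0, nat_lit 0, nat_lit 0, nat_lit 0, nat_lit 0, nat_lit 0, nat_lit 0, nat_lit 0, nat_lit 0, nat_lit 0, nat_lit 0, nat_lit 0, nat_lit 0, nat_lit 0, false, false⟩,
 nat_lit 0, nat_lit 9626, nat_lit 0, nat_lit 0, nat_lit 6663, nat_lit 5226, nat_lit 1465, nat_lit 0, nat_lit 0, nat_lit 0, nat_lit 0, nat_lit 0, nat_lit 0, nat_lit 0, nat_lit 0, nat_lit 0, nat_lit 0, nat_lit 0, [],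
 ⟨p017_k4, nat_lit 0, nat_lit 0, nat_lit 537, nat_lit 0, nat_lit 823731, [nat_lit 3282000000, nat_lit 4688000000, nat_lit 7968000000], [], [nat_lit 21051899608, nat_lit 22029367112, nat_lit 20990037314, nat_lit 21830659062], nat_lit 1271250, nat_lit 1271250, nat_lit 490000, nat_lit 780000, nat_lit 0, nat_lit 0, [nat_lit 780000, nat_lit 1100000, nat_lit 1785000], [nat_lit 36, nat_lit 40, nat_lit 80, nat_lit 80, nat_lit 7, nat_lit 238, nat_lit 30, nat_lit 8]⟩, ⟨p017_k1, nat_lit 0, nat_lit 0, nat_lit 178, nat_lit 0, nat_lit 0, [nat_lit 3282000000, nat_lit 4688000000, nat_lit 9842000000], [], [nat_lit 28407880016, nat_lit 29991549004, nat_lit 28680736940, nat_lit 30092631040], nat_lit 0, nat_lit 0, nat_lit 0, nat_lit 0, nat_lit 0, nat_lit 0, [], [nat_lit 42, nat_lit 40, nat_lit 80, nat_lit 80, nat_lit 13, nat_lit 238, nat_lit 30, nat_lit 7]⟩,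
 zbF0, [⟨nat_lit 0, nat_lit 94, nat_lit 87, nat_lit 100, nat_lit 992716433⟩]⟩
noncomputable def p017_l132 : Lf2 := ⟨nat_lit 0, nat_lit 10, [nat_lit 0, nat_lit 5, nat_lit 5, nat_lit 20], false, nat_lit 0, nat_lit 0, nat_lit 0, nat_lit 0, ⟨nat_lit 1000, nat_lit 0, nat_lit 0, nat_lit 0, nat_lit 0, nat_lit 0, nat_lit 0, nat_lit 0, nat_lit 0, nat_lit 0, nat_lit 0, nat_lit 0, nat_lit 0, nat_lit 0, nat_lit 0, nat_lit 0, false, false⟩,
 nat_lit 0, nat_lit 8833, nat_lit 0, nat_lit 0, nat_lit 6115, nat_lit 5226, nat_lit 1859, nat_lit 0, nat_lit 0, nat_lit 1062, nat_lit 0, nat_lit 0, nat_lit 0, nat_lit 0, nat_lit 0, nat_lit 0, nat_lit 0, nat_lit 0, [],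
 ⟨p017_k18, nat_lit 0, nat_lit 0, nat_lit 617, nat_lit 0, nat_lit 1009829, [nat_lit 3282000000, nat_lit 6250000000, nat_lit 7968000000], [], [nat_lit 24028213525, nat_lit 24194539620, nat_lit 37200862390, nat_lit 37496198278], nat_lit 1271250, nat_lit 1271250, nat_lit 780000, nat_lit 3072500, nat_lit 0, nat_lit 0, [nat_lit 780000, nat_lit 1435000, nat_lit 1271250], [nat_lit 18, nat_lit 40, nat_lit 80, nat_lit 80, nat_lit 2, nat_lit 317, nat_lit 100, nat_lit 10]⟩, ⟨p017_k0, nat_lit 0, nat_lit 0, nat_lit 217, nat_lit 0, nat_lit 0, [nat_lit 3282000000, nat_lit 6250000000, nat_lit 9842000000], [], [nat_lit 21887255690, nat_lit 23302369108, nat_lit 35212893288, nat_lit 36123763856], nat_lit 0, nat_lit 0, nat_lit 0, nat_lit 0, nat_lit 0, nat_lit 0, [], [nat_lit 8, nat_lit 40, nat_lit 80, nat_lit 80, nat_lit 1, nat_lit 317, nat_lit 100, nat_lit 9]⟩,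
 zbF0, []⟩
noncomputable def p017_l133 : Lf2 := ⟨nat_lit 0, nat_lit 10, [nat_lit 0, nat_lit 5, nat_lit 5, nat_lit 20], false, nat_lit 0, nat_lit 0, nat_lit 0, nat_lit 0, ⟨nat_lit 1000, nat_lit 0, nat_lit 0, nat_lit 0, nat_lit 0, nat_lit 0, nat_lit 0, nat_lit 0, nat_lit 0, nat_lit 0, nat_lit 0, nat_lit 0, nat_lit 0, nat_lit 0, nat_lit 0, nat_lit 0, false, false⟩,
 nat_lit 0, nat_lit 8402, nat_lit 0, nat_lit 0, nat_lit 5936, nat_lit 6046, nat_lit 1358, nat_lit 0, nat_lit 0, nat_lit 1348, nat_lit 0, nat_lit 0, nat_lit 0, nat_lit 0, nat_lit 0, nat_lit 0, nat_lit 0, nat_lit 0, [],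
 ⟨p017_k22, nat_lit 0, nat_lit 0, nat_lit 622, nat_lit 0, nat_lit 1021342, [nat_lit 3282000000, nat_lit 6250000000, nat_lit 7968000000], [], [nat_lit 26406577524, nat_lit 26572799170, nat_lit 37007558976, nat_lit 37298841856], nat_lit 1271250, nat_lit 1271250, nat_lit 780000, nat_lit 3072500, nat_lit 0, nat_lit 0, [nat_lit 780000, nat_lit 1435000, nat_lit 1271250], [nat_lit 18, nat_lit 40, nat_lit 80, nat_lit 80, nat_lit 2, nat_lit 317, nat_lit 100, nat_lit 10]⟩, ⟨p017_k0, nat_lit 0, nat_lit 0, nat_lit 217, nat_lit 0, nat_lit 0, [nat_lit 3282000000, nat_lit 6250000000, nat_lit 9842000000], [], [nat_lit 20117974320, nat_lit 21774174016, nat_lit 36049283448, nat_lit 37014493776], nat_lit 0, nat_lit 0, nat_lit 0, nat_lit 0, nat_lit 0, nat_lit 0, [], [nat_lit 8, nat_lit 40, nat_lit 80, nat_lit 80, nat_lit 1, nat_lit 317, nat_lit 100, nat_lit 9]⟩,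
 zbF0, []⟩
noncomputable def p017_l134 : Lf2 := ⟨nat_lit 0, nat_lit 10, [nat_lit 0, nat_lit 5, nat_lit 5, nat_lit 20], false, nat_lit 0, nat_lit 0, nat_lit 0, nat_lit 0, ⟨nat_lit 1000, nat_lit 0, nat_lit 0, nat_lit 0, nat_lit 0, nat_lit 0, nat_lit 0, nat_lit 0, nat_lit 0, nat_lit 0, nat_lit 0, nat_lit 0, nat_lit 0, nat_lit 0, nat_lit 0, nat_lit 0, false, false⟩,
 nat_lit 0, nat_lit 8133, nat_lit 0, nat_lit 0, nat_lit 5863, nat_lit 5892, nat_lit 1332, nat_lit 0, nat_lit 0, nat_lit 1295, nat_lit 0, nat_lit 0, nat_lit 0, nat_lit 0, nat_lit 0, nat_lit 0, nat_lit 0, nat_lit 0, [],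
 ⟨p017_k23, nat_lit 0, nat_lit 0, nat_lit 643, nat_lit 0, nat_lit 1072659, [nat_lit 3282000000, nat_lit 6250000000, nat_lit 7968000000], [], [nat_lit 26420058762, nat_lit 26795008802, nat_lit 37097911473, nat_lit 37677171428], nat_lit 1271250, nat_lit 1271250, nat_lit 780000, nat_lit 3072500, nat_lit 0, nat_lit 0, [nat_lit 780000, nat_lit 1435000, nat_lit 1271250], [nat_lit 18, nat_lit 40, nat_lit 80, nat_lit 80, nat_lit 2, nat_lit 317, nat_lit 100, nat_lit 10]⟩, ⟨p017_k0, nat_lit 0, nat_lit 0, nat_lit 217, nat_lit 0, nat_lit 0, [nat_lit 3282000000, nat_lit 6250000000, nat_lit 9842000000], [], [nat_lit 20430298640, nat_lit 22060317736, nat_lit 35892205296, nat_lit 36847210352], nat_lit 0, nat_lit 0, nat_lit 0, nat_lit 0, nat_lit 0, nat_lit 0, [], [nat_lit 8, nat_lit 40, nat_lit 80, nat_lit 80, nat_lit 1, nat_lit 317, nat_lit 100, nat_lit 9]⟩,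
 zbF0, []⟩
noncomputable def b_N_700_700_0_6 : St := ⟨false, nat_lit 1, nat_lit 0, nat_lit 2, nat_lit 40, nat_lit 280, nat_lit 320, nat_lit 280, nat_lit 300, nat_lit 64, nat_lit 400, nat_lit 0, nat_lit 0, nat_lit 0, nat_lit 0, nat_lit 0, nat_lit 0, nat_lit 40, nat_lit 80, nat_lit 0, nat_lit 0, nat_lit 0, nat_lit 0⟩
theorem d_N_700_700_0_6 (h : EB TB.env) : Dead b_N_700_700_0_6 := chkB_sound0 h (T :=
(.spl (nat_lit 0) (nat_lit 300)
(.spl (nat_lit 2) (nat_lit 240)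
(.spl (nat_lit 1) (nat_lit 290)
(.spl (nat_lit 6) (nat_lit 60)
(.spl (nat_lit 2) (nat_lit 160)
(.spl (nat_lit 0) (nat_lit 290)
(.spl (nat_lit 0) (nat_lit 285)
(.ord (.spl (nat_lit 2) (nat_lit 120)
(.spl (nat_lit 6) (nat_lit 48)
(.spl (nat_lit 2) (nat_lit 80)
(.leaf p017_l96)
(.spl (nat_lit 0) (nat_lit 283)
(.ord (.spl (nat_lit 6) (nat_lit 44)
(.spl (nat_lit 0) (nat_lit 282)
(.ord (.spl (nat_lit 0) (nat_lit 281)
(.ord (.leaf p017_l97))
(.leaf p017_l98)))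
(.spl (nat_lit 2) (nat_lit 100)
(.leaf p017_l99)
(.leaf p017_l100)))
(.leaf p017_l101)))
(.spl (nat_lit 2) (nat_lit 100)
(.leaf p017_l102)
(.leaf p017_l103))))
(.spl (nat_lit 0) (nat_lit 283)
(.ord (.leaf p017_l104))
(.leaf p017_l105)))
(.leaf p017_l106)))
(.trZ (nat_lit 0) (nat_lit 100) (nat_lit 99) (nat_lit 82) (nat_lit 68) (.spl (nat_lit 6) (nat_lit 48)
(.spl (nat_lit 2) (nat_lit 120)
(.spl (nat_lit 2) (nat_lit 100)
(.leaf p017_l107)
(.leaf p017_l108))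
(.leaf p017_l109))
(.spl (nat_lit 0) (nat_lit 288)
(.ord (.spl (nat_lit 2) (nat_lit 120)
(.spl (nat_lit 2) (nat_lit 100)
(.leaf p017_l110)
(.leaf p017_l111))
(.leaf p017_l112)))
(.spl (nat_lit 1) (nat_lit 285)
(.leaf p017_l113)
(.trZ (nat_lit 0) (nat_lit 100) (nat_lit 99) (nat_lit 86) (nat_lit 72) (.spl (nat_lit 0) (nat_lit 289)
(.ord (.leaf p017_l114))
(.leaf p017_l115))))))))
(.trZ (nat_lit 0) (nat_lit 100) (nat_lit 97) (nat_lit 84) (nat_lit 72) (.spl (nat_lit 2) (nat_lit 120)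
(.spl (nat_lit 2) (nat_lit 100)
(.leaf p017_l116)
(.leaf p017_l117))
(.leaf p017_l118))))
(.leaf p017_l119))
(.spl (nat_lit 0) (nat_lit 290)
(.spl (nat_lit 1) (nat_lit 285)
(.leaf p017_l120)
(.ord (.trZ (nat_lit 0) (nat_lit 100) (nat_lit 100) (nat_lit 85) (nat_lit 72) (.leaf p017_l121))))
(.trZ (nat_lit 0) (nat_lit 100) (nat_lit 97) (nat_lit 84) (nat_lit 72) (.leaf p017_l122))))
(.ord (.trZ (nat_lit 0) (nat_lit 100) (nat_lit 100) (nat_lit 90) (nat_lit 80) (.spl (nat_lit 0) (nat_lit 295)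
(.ord (.spl (nat_lit 2) (nat_lit 120)
(.leaf p017_l123)
(.leaf p017_l124)))
(.trZ (nat_lit 0) (nat_lit 100) (nat_lit 99) (nat_lit 92) (nat_lit 84) (.spl (nat_lit 0) (nat_lit 298)
(.ord (.leaf p017_l125))
(.trZ (nat_lit 0) (nat_lit 100) (nat_lit 98) (nat_lit 93) (nat_lit 88) (.leaf p017_l126))))))))
(.spl (nat_lit 0) (nat_lit 290)
(.ord (.leaf p017_l127))
(.leaf p017_l128)))
(.trZ (nat_lit 0) (nat_lit 100) (nat_lit 94) (nat_lit 88) (nat_lit 80) (.spl (nat_lit 2) (nat_lit 120)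
(.spl (nat_lit 6) (nat_lit 60)
(.spl (nat_lit 0) (nat_lit 310)
(.leaf p017_l129)
(.trZ (nat_lit 0) (nat_lit 100) (nat_lit 91) (nat_lit 91) (nat_lit 88) (.leaf p017_l130)))
(.leaf p017_l131))
(.spl (nat_lit 0) (nat_lit 310)
(.spl (nat_lit 0) (nat_lit 305)
(.leaf p017_l132)
(.leaf p017_l133))
(.leaf p017_l134)))))) (by decide +kernel)
noncomputable def p017_l135 : Lf2 := ⟨nat_lit 0, nat_lit 10, [nat_lit 0, nat_lit 5, nat_lit 5, nat_lit 20], false, nat_lit 0, nat_lit 0, nat_lit 0, nat_lit 0, ⟨nat_lit 1000, nat_lit 0, nat_lit 0, nat_lit 0, nat_lit 0, nat_lit 0, nat_lit 0, nat_lit 0, nat_lit 0, nat_lit 0, nat_lit 0, nat_lit 0, nat_lit 0, nat_lit 0, nat_lit 0, nat_lit 0, false, false⟩,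
 nat_lit 0, nat_lit 9879, nat_lit 0, nat_lit 0, nat_lit 6839, nat_lit 5370, nat_lit 1740, nat_lit 0, nat_lit 0, nat_lit 1603, nat_lit 0, nat_lit 0, nat_lit 0, nat_lit 9802243922938, nat_lit 0, nat_lit 0, nat_lit 0, nat_lit 0, [],
 ⟨p017_k4, nat_lit 0, nat_lit 0, nat_lit 640, nat_lit 0, nat_lit 1057085, [nat_lit 3282000000, nat_lit 4688000000, nat_lit 7968000000], [], [nat_lit 19802809589, nat_lit 19955548083, nat_lit 25832459032, nat_lit 25058270554], nat_lit 1271250, nat_lit 1271250, nat_lit 631250, nat_lit 1751250, nat_lit 0, nat_lit 0, [nat_lit 780000, nat_lit 1100000, nat_lit 1785000], [nat_lit 36, nat_lit 40, nat_lit 80, nat_lit 80, nat_lit 7, nat_lit 272, nat_lit 60, nat_lit 9]⟩, ⟨p017_k4, nat_lit 0, nat_lit 0, nat_lit 139, nat_lit 0, nat_lit 0, [nat_lit 3282000000, nat_lit 4688000000, nat_lit 7968000000], [], [nat_lit 18845420360, nat_lit 19254165760, nat_lit 22001158790, nat_lit 22354930735],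 nat_lit 0, nat_lit 0, nat_lit 0, nat_lit 0, nat_lit 0, nat_lit 0, [], [nat_lit 36, nat_lit 40, nat_lit 80, nat_lit 80, nat_lit 7, nat_lit 272, nat_lit 60, nat_lit 9]⟩,
 zbF0, [⟨nat_lit 0, nat_lit 95, nat_lit 95, nat_lit 100, nat_lit 245028476⟩]⟩
noncomputable def p017_l136 : Lf2 := ⟨nat_lit 0, nat_lit 10, [nat_lit 0, nat_lit 5, nat_lit 5, nat_lit 20], false, nat_lit 0, nat_lit 0, nat_lit 0, nat_lit 0, ⟨nat_lit 1000, nat_lit 0, nat_lit 0, nat_lit 0, nat_lit 0, nat_lit 0, nat_lit 0, nat_lit 0, nat_lit 0, nat_lit 0, nat_lit 0, nat_lit 0, nat_lit 0, nat_lit 0, nat_lit 0, nat_lit 0, false, false⟩,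
 nat_lit 0, nat_lit 9766, nat_lit 0, nat_lit 0, nat_lit 6900, nat_lit 5333, nat_lit 1520, nat_lit 0, nat_lit 0, nat_lit 1663, nat_lit 0, nat_lit 0, nat_lit 0, nat_lit 31748356318248, nat_lit 0, nat_lit 0, nat_lit 0, nat_lit 0, [],
 ⟨p017_k13, nat_lit 0, nat_lit 0, nat_lit 659, nat_lit 0, nat_lit 1113465, [nat_lit 3282000000, nat_lit 4688000000, nat_lit 7968000000], [], [nat_lit 20560043156, nat_lit 20777273171, nat_lit 25424545400, nat_lit 24643451600], nat_lit 1271250, nat_lit 1271250, nat_lit 660400, nat_lit 1753500, nat_lit 0, nat_lit 0, [nat_lit 780000, nat_lit 1100000, nat_lit 1785000], [nat_lit 36, nat_lit 40, nat_lit 80, nat_lit 80, nat_lit 7, nat_lit 272, nat_lit 60, nat_lit 9]⟩, ⟨p017_k4, nat_lit 0, nat_lit 0, nat_lit 141, nat_lit 0, nat_lit 0, [nat_lit 3282000000, nat_lit 4688000000, nat_lit 7968000000], [], [nat_lit 18654570613, nat_lit 19464275586, nat_lit 21760135964, nat_lit 22449540437],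 nat_lit 0, nat_lit 0, nat_lit 0, nat_lit 0, nat_lit 0, nat_lit 0, [], [nat_lit 36, nat_lit 40, nat_lit 80, nat_lit 80, nat_lit 7, nat_lit 272, nat_lit 60, nat_lit 9]⟩,
 zbF0, [⟨nat_lit 0, nat_lit 91, nat_lit 91, nat_lit 100, nat_lit 307141826⟩]⟩
noncomputable def p017_l137 : Lf2 := ⟨nat_lit 0, nat_lit 10, [nat_lit 0, nat_lit 5, nat_lit 5, nat_lit 20], false, nat_lit 0, nat_lit 0, nat_lit 0, nat_lit 0, ⟨nat_lit 1000, nat_lit 0, nat_lit 0, nat_lit 0, nat_lit 0, nat_lit 0, nat_lit 0, nat_lit 0, nat_lit 0, nat_lit 0, nat_lit 0, nat_lit 0, nat_lit 0, nat_lit 0, nat_lit 0, nat_lit 0, false, false⟩,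
 nat_lit 0, nat_lit 9085, nat_lit 0, nat_lit 0, nat_lit 6549, nat_lit 5365, nat_lit 1324, nat_lit 0, nat_lit 0, nat_lit 1180, nat_lit 0, nat_lit 0, nat_lit 0, nat_lit 26211721402686, nat_lit 0, nat_lit 0, nat_lit 0, nat_lit 0, [],
 ⟨p017_k23, nat_lit 0, nat_lit 0, nat_lit 686, nat_lit 0, nat_lit 1167307, [nat_lit 3282000000, nat_lit 6250000000, nat_lit 7968000000], [], [nat_lit 22885490858, nat_lit 23085109981, nat_lit 24461152316, nat_lit 24668906984], nat_lit 1271250, nat_lit 1271250, nat_lit 689850, nat_lit 1755750, nat_lit 0, nat_lit 0, [nat_lit 780000, nat_lit 1435000, nat_lit 1271250], [nat_lit 18, nat_lit 40, nat_lit 80, nat_lit 80, nat_lit 2, nat_lit 272, nat_lit 60, nat_lit 9]⟩, ⟨p017_k18, nat_lit 0, nat_lit 0, nat_lit 150, nat_lit 0, nat_lit 0, [nat_lit 3282000000, nat_lit 6250000000, nat_lit 7968000000], [], [nat_lit 19720973273, nat_lit 21003143781, nat_lit 23219795730, nat_lit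 24260925548], nat_lit 0, nat_lit 0, nat_lit 0, nat_lit 0, nat_lit 0, nat_lit 0, [], [nat_lit 18, nat_lit 40, nat_lit 80, nat_lit 80, nat_lit 2, nat_lit 272, nat_lit 60, nat_lit 9]⟩,
 zbF0, [⟨nat_lit 0, nat_lit 87, nat_lit 87, nat_lit 100, nat_lit 416466500⟩]⟩
noncomputable def p017_l138 : Lf2 := ⟨nat_lit 0, nat_lit 10, [nat_lit 0, nat_lit 5, nat_lit 5, nat_lit 20], false, nat_lit 0, nat_lit 0, nat_lit 0, nat_lit 0, ⟨nat_lit 1000, nat_lit 0, nat_lit 0, nat_lit 0, nat_lit 0, nat_lit 0, nat_lit 0, nat_lit 0, nat_lit 0, nat_lit 0, nat_lit 0, nat_lit 0, nat_lit 0, nat_lit 0, nat_lit 0, nat_lit 0, false, false⟩,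
 nat_lit 0, nat_lit 8834, nat_lit 0, nat_lit 0, nat_lit 6496, nat_lit 5325, nat_lit 1122, nat_lit 0, nat_lit 0, nat_lit 1161, nat_lit 0, nat_lit 0, nat_lit 0, nat_lit 0, nat_lit 0, nat_lit 0, nat_lit 0, nat_lit 0, [],
 ⟨p017_k24, nat_lit 0, nat_lit 0, nat_lit 713, nat_lit 0, nat_lit 1218696, [nat_lit 3282000000, nat_lit 6250000000, nat_lit 7968000000], [], [nat_lit 23424971369, nat_lit 23622730382, nat_lit 24939534736, nat_lit 25146551008], nat_lit 1271250, nat_lit 1271250, nat_lit 719601, nat_lit 1758000, nat_lit 0, nat_lit 0, [nat_lit 780000, nat_lit 1435000, nat_lit 1271250], [nat_lit 18, nat_lit 40, nat_lit 80, nat_lit 80, nat_lit 2, nat_lit 272, nat_lit 60, nat_lit 9]⟩, ⟨p017_k18, nat_lit 0, nat_lit 0, nat_lit 152, nat_lit 0, nat_lit 0, [nat_lit 3282000000, nat_lit 6250000000, nat_lit 7968000000], [], [nat_lit 19881487336, nat_lit 21546009295, nat_lit 23294751025, nat_lit 24677377475],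 nat_lit 0, nat_lit 0, nat_lit 0, nat_lit 0, nat_lit 0, nat_lit 0, [], [nat_lit 18, nat_lit 40, nat_lit 80, nat_lit 80, nat_lit 2, nat_lit 272, nat_lit 60, nat_lit 9]⟩,
 zbF0, [⟨nat_lit 0, nat_lit 83, nat_lit 83, nat_lit 100, nat_lit 448958208⟩]⟩
noncomputable def p017_l139 : Lf2 := ⟨nat_lit 0, nat_lit 10, [nat_lit 0, nat_lit 5, nat_lit 5, nat_lit 20], false, nat_lit 0, nat_lit 0, nat_lit 0, nat_lit 0, ⟨nat_lit 1000, nat_lit 0, nat_lit 0, nat_lit 0, nat_lit 0, nat_lit 0, nat_lit 0, nat_lit 0, nat_lit 0, nat_lit 0, nat_lit 0, nat_lit 0, nat_lit 0, nat_lit 0, nat_lit 0, nat_lit 0, false, false⟩,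
 nat_lit 0, nat_lit 7984, nat_lit 0, nat_lit 0, nat_lit 5527, nat_lit 6033, nat_lit 1343, nat_lit 0, nat_lit 0, nat_lit 528, nat_lit 0, nat_lit 0, nat_lit 0, nat_lit 0, nat_lit 0, nat_lit 0, nat_lit 0, nat_lit 0, [],
 ⟨p017_k4, nat_lit 0, nat_lit 0, nat_lit 720, nat_lit 0, nat_lit 1324611, [nat_lit 3282000000, nat_lit 4688000000, nat_lit 7968000000], [], [nat_lit 32621461904, nat_lit 33123680460, nat_lit 36370601158, nat_lit 36739612136], nat_lit 1271250, nat_lit 1271250, nat_lit 1271250, nat_lit 1271250, nat_lit 0, nat_lit 0, [nat_lit 780000, nat_lit 1100000, nat_lit 1785000], [nat_lit 36, nat_lit 40, nat_lit 80, nat_lit 80, nat_lit 7, nat_lit 270, nat_lit 0, nat_lit 8]⟩, ⟨p017_k4, nat_lit 0, nat_lit 0, nat_lit 189, nat_lit 0, nat_lit 0, [nat_lit 3282000000, nat_lit 4688000000, nat_lit 7968000000], [], [nat_lit 27137803398, nat_lit 28405944548, nat_lit 37270293718, nat_lit 38153183488], nat_lit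 0, nat_lit 0, nat_lit 0, nat_lit 0, nat_lit 0, nat_lit 0, [], [nat_lit 36, nat_lit 40, nat_lit 80, nat_lit 80, nat_lit 7, nat_lit 203, nat_lit 0, nat_lit 6]⟩,
 zbF0, []⟩
noncomputable def b_N_700_700_0_7 : St := ⟨false, nat_lit 1, nat_lit 0, nat_lit 2, nat_lit 40, nat_lit 280, nat_lit 320, nat_lit 300, nat_lit 320, nat_lit 64, nat_lit 400, nat_lit 0, nat_lit 0, nat_lit 0, nat_lit 0, nat_lit 0, nat_lit 0, nat_lit 40, nat_lit 80, nat_lit 0, nat_lit 0, nat_lit 0, nat_lit 0⟩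
theorem d_N_700_700_0_7 (h : EB TB.env) : Dead b_N_700_700_0_7 := chkB_sound0 h (T :=
(.ord (.trZ (nat_lit 0) (nat_lit 100) (nat_lit 100) (nat_lit 100) (nat_lit 100) (.spl (nat_lit 2) (nat_lit 240)
(.spl (nat_lit 0) (nat_lit 310)
(.ord (.spl (nat_lit 0) (nat_lit 305)
(.ord (.leaf p017_l135))
(.trZ (nat_lit 0) (nat_lit 98) (nat_lit 97) (nat_lit 100) (nat_lit 104) (.leaf p017_l136))))
(.trZ (nat_lit 0) (nat_lit 97) (nat_lit 93) (nat_lit 100) (nat_lit 108) (.spl (nat_lit 0) (nat_lit 315)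
(.ord (.leaf p017_l137))
(.trZ (nat_lit 0) (nat_lit 95) (nat_lit 90) (nat_lit 100) (nat_lit 112) (.leaf p017_l138)))))
(.leaf p017_l139))))) (by decide +kernel)
noncomputable def p017_l140 : Lf2 := ⟨nat_lit 0, nat_lit 10, [nat_lit 0, nat_lit 5, nat_lit 5, nat_lit 20], false, nat_lit 0, nat_lit 0, nat_lit 0, nat_lit 0, ⟨nat_lit 70, nat_lit 930, nat_lit 0, nat_lit 7, nat_lit 203, nat_lit 0, nat_lit 0, nat_lit 0, nat_lit 0, nat_lit 0, nat_lit 0, nat_lit 0, nat_lit 0, nat_lit 0, nat_lit 0, nat_lit 5000000, false, false⟩,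
 nat_lit 7668, nat_lit 0, nat_lit 0, nat_lit 0, nat_lit 4879, nat_lit 645, nat_lit 0, nat_lit 0, nat_lit 0, nat_lit 77, nat_lit 0, nat_lit 0, nat_lit 0, nat_lit 25633890067350, nat_lit 0, nat_lit 924000, nat_lit 0, nat_lit 0, [(nat_lit 12, [(nat_lit 1, nat_lit 10), (nat_lit 2, nat_lit 920)])],
 ⟨p017_k0, nat_lit 0, nat_lit 0, nat_lit 497, nat_lit 0, nat_lit 555184, [nat_lit 2398808001, nat_lit 2255400000, nat_lit 444824000], [], [nat_lit 26294901660, nat_lit 23776391134, nat_lit 23997285726, nat_lit 24613908188], nat_lit 1271250, nat_lit 1271250, nat_lit 382400, nat_lit 1731000, nat_lit 0, nat_lit 0, [nat_lit 780000, nat_lit 1435000, nat_lit 1271250], [nat_lit 8, nat_lit 40, nat_lit 80, nat_lit 80, nat_lit 1, nat_lit 272, nat_lit 60, nat_lit 8]⟩, ⟨p017_k0, nat_lit 0, nat_lit 0, nat_lit 497, nat_lit 0, nat_lit 555184, [nat_lit 229740000, nat_lit 437500000, nat_lit 688940000], [], [nat_lit 2196757128,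 nat_lit 1868396459, nat_lit 1776353700, nat_lit 1871038675], nat_lit 1271250, nat_lit 1271250, nat_lit 382400, nat_lit 1731000, nat_lit 0, nat_lit 0, [nat_lit 780000, nat_lit 1435000, nat_lit 1271250], [nat_lit 8, nat_lit 40, nat_lit 80, nat_lit 80, nat_lit 1, nat_lit 272, nat_lit 60, nat_lit 8]⟩,
 ⟨nat_lit 5000, nat_lit 5478, ⟨.ofNat (nat_lit 330654), .ofNat (nat_lit 660309), .ofNat (nat_lit 352005), .ofNat (nat_lit 681655), .ofNat (nat_lit 342856), .ofNat (nat_lit 657090), .ofNat (nat_lit 364277), .ofNat (nat_lit 678509)⟩, ⟨.ofNat (nat_lit 0), .ofNat (nat_lit 0), .ofNat (nat_lit 0), .ofNat (nat_lit 0), .ofNat (nat_lit 0), .ofNat (nat_lit 0), .ofNat (nat_lit 0), .ofNat (nat_lit 0)⟩⟩, []⟩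
noncomputable def p017_l141 : Lf2 := ⟨nat_lit 0, nat_lit 10, [nat_lit 0, nat_lit 5, nat_lit 5, nat_lit 20], false, nat_lit 0, nat_lit 0, nat_lit 0, nat_lit 0, ⟨nat_lit 1000, nat_lit 0, nat_lit 0, nat_lit 0, nat_lit 0, nat_lit 0, nat_lit 0, nat_lit 0, nat_lit 0, nat_lit 0, nat_lit 0, nat_lit 0, nat_lit 0, nat_lit 0, nat_lit 0, nat_lit 0, false, false⟩,
 nat_lit 10734, nat_lit 0, nat_lit 0, nat_lit 0, nat_lit 6830, nat_lit 6830, nat_lit 853, nat_lit 0, nat_lit 0, nat_lit 808, nat_lit 0, nat_lit 0, nat_lit 0, nat_lit 0, nat_lit 0, nat_lit 0, nat_lit 0, nat_lit 0, [],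
 ⟨p017_k0, nat_lit 0, nat_lit 0, nat_lit 449, nat_lit 0, nat_lit 555184, [nat_lit 3282000000, nat_lit 6250000000, nat_lit 9842000000], [], [nat_lit 31344076490, nat_lit 32061031150, nat_lit 38506474960, nat_lit 39139147500], nat_lit 1271250, nat_lit 1271250, nat_lit 1271250, nat_lit 1271250, nat_lit 0, nat_lit 0, [nat_lit 780000, nat_lit 1435000, nat_lit 1271250], [nat_lit 8, nat_lit 40, nat_lit 80, nat_lit 80, nat_lit 1, nat_lit 317, nat_lit 100, nat_lit 9]⟩, ⟨p017_k0, nat_lit 0, nat_lit 0, nat_lit 449, nat_lit 0, nat_lit 555184, [nat_lit 3282000000, nat_lit 6250000000, nat_lit 9842000000], [], [nat_lit 31919795240, nat_lit 32636749900, nat_lit 38506474960, nat_lit 39139147500], nat_lit 1271250, nat_lit 1271250, nat_lit 1271250, nat_lit 1271250, nat_lit 0, nat_lit 0, [nat_lit 780000, nat_lit 1435000, nat_lit 1271250], [nat_lit 8, nat_lit 40, nat_lit 80, nat_lit 80, nat_lit 1, nat_lit 317,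 nat_lit 100, nat_lit 9]⟩,
 zbF0, []⟩
noncomputable def p017_l142 : Lf2 := ⟨nat_lit 0, nat_lit 10, [nat_lit 0, nat_lit 5, nat_lit 5, nat_lit 20], false, nat_lit 0, nat_lit 0, nat_lit 0, nat_lit 0, ⟨nat_lit 735, nat_lit 265, nat_lit 0, nat_lit 7, nat_lit 269, nat_lit 0, nat_lit 0, nat_lit 0, nat_lit 0, nat_lit 0, nat_lit 0, nat_lit 0, nat_lit 0, nat_lit 0, nat_lit 0, nat_lit 5000000, false, false⟩,
 nat_lit 8949, nat_lit 0, nat_lit 0, nat_lit 0, nat_lit 6195, nat_lit 5694, nat_lit 559, nat_lit 0, nat_lit 0, nat_lit 633, nat_lit 0, nat_lit 0, nat_lit 0, nat_lit 15932709445426, nat_lit 0, nat_lit 265000, nat_lit 0, nat_lit 0, [(nat_lit 15, [(nat_lit 2, nat_lit 265)])],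
 ⟨p017_k18, nat_lit 0, nat_lit 0, nat_lit 430, nat_lit 0, nat_lit 585059, [nat_lit 2972374001, nat_lit 4871470000, nat_lit 5671722000], [], [nat_lit 24318081187, nat_lit 24759126332, nat_lit 37417437270, nat_lit 38011731845], nat_lit 1271250, nat_lit 1271250, nat_lit 490000, nat_lit 2990000, nat_lit 0, nat_lit 0, [nat_lit 780000, nat_lit 1435000, nat_lit 1271250], [nat_lit 18, nat_lit 40, nat_lit 80, nat_lit 80, nat_lit 2, nat_lit 317, nat_lit 100, nat_lit 10]⟩, ⟨p017_k0, nat_lit 0, nat_lit 0, nat_lit 519, nat_lit 0, nat_lit 645174, [nat_lit 2412270000, nat_lit 4593750000, nat_lit 7233870000], [], [nat_lit 22828688106, nat_lit 23681602401, nat_lit 30680825340, nat_lit 31078297764], nat_lit 1271250, nat_lit 1271250, nat_lit 490000, nat_lit 2990000, nat_lit 0, nat_lit 0, [nat_lit 780000, nat_lit 1435000, nat_lit 1271250], [nat_lit 8, nat_lit 40, nat_lit 80, nat_lit 80, nat_lit 1, nat_lit 317,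 nat_lit 100, nat_lit 9]⟩,
 ⟨nat_lit 4743, nat_lit 5000, ⟨.ofNat (nat_lit 371422), .ofNat (nat_lit 942836), .ofNat (nat_lit 403560), .ofNat (nat_lit 974975), .ofNat (nat_lit 376847), .ofNat (nat_lit 934430), .ofNat (nat_lit 409074), .ofNat (nat_lit 966658)⟩, ⟨.ofNat (nat_lit 0), .ofNat (nat_lit 0), .ofNat (nat_lit 0), .ofNat (nat_lit 0), .ofNat (nat_lit 0), .ofNat (nat_lit 0), .ofNat (nat_lit 0), .ofNat (nat_lit 0)⟩⟩, []⟩
noncomputable def p017_l143 : Lf2 := ⟨nat_lit 0, nat_lit 10, [nat_lit 0, nat_lit 5, nat_lit 5, nat_lit 20], false, nat_lit 0, nat_lit 0, nat_lit 0, nat_lit 0, ⟨nat_lit 769, nat_lit 231, nat_lit 0, nat_lit 7, nat_lit 273, nat_lit 0, nat_lit 0, nat_lit 0, nat_lit 0, nat_lit 0, nat_lit 0, nat_lit 0, nat_lit 0, nat_lit 0, nat_lit 0, nat_lit 5000000, false, false⟩,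
 nat_lit 8746, nat_lit 0, nat_lit 0, nat_lit 0, nat_lit 6305, nat_lit 5565, nat_lit 678, nat_lit 0, nat_lit 0, nat_lit 648, nat_lit 0, nat_lit 0, nat_lit 0, nat_lit 8880311672192, nat_lit 0, nat_lit 92400, nat_lit 0, nat_lit 0, [(nat_lit 15, [(nat_lit 1, nat_lit 231)])],
 ⟨p017_k23, nat_lit 0, nat_lit 0, nat_lit 450, nat_lit 0, nat_lit 635802, [nat_lit 2990524200, nat_lit 5350224200, nat_lit 6662388000], [], [nat_lit 23473319843, nat_lit 23951867371, nat_lit 38314503655, nat_lit 38913779580], nat_lit 1271250, nat_lit 1271250, nat_lit 545600, nat_lit 3006500, nat_lit 0, nat_lit 0, [nat_lit 780000, nat_lit 1435000, nat_lit 1271250], [nat_lit 18, nat_lit 40, nat_lit 80, nat_lit 80, nat_lit 2, nat_lit 317, nat_lit 100, nat_lit 10]⟩, ⟨p017_k0, nat_lit 0, nat_lit 0, nat_lit 582, nat_lit 0, nat_lit 734612, [nat_lit 2523858000, nat_lit 4806250000, nat_lit 7568498000], [], [nat_lit 25033614971, nat_lit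 26178898213, nat_lit 32708791428, nat_lit 31929162772], nat_lit 1271250, nat_lit 1271250, nat_lit 545600, nat_lit 3006500, nat_lit 0, nat_lit 0, [nat_lit 780000, nat_lit 1435000, nat_lit 1271250], [nat_lit 8, nat_lit 40, nat_lit 80, nat_lit 80, nat_lit 1, nat_lit 317, nat_lit 100, nat_lit 9]⟩,
 ⟨nat_lit 4472, nat_lit 4744, ⟨.ofNat (nat_lit 390781), .ofNat (nat_lit 934435), .ofNat (nat_lit 433750), .ofNat (nat_lit 977404), .ofNat (nat_lit 395915), .ofNat (nat_lit 926140), .ofNat (nat_lit 439041), .ofNat (nat_lit 969266)⟩, ⟨.ofNat (nat_lit 0), .ofNat (nat_lit 0), .ofNat (nat_lit 0), .ofNat (nat_lit 0), .ofNat (nat_lit 0), .ofNat (nat_lit 0), .ofNat (nat_lit 0), .ofNat (nat_lit 0)⟩⟩, []⟩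
noncomputable def b_N_700_700_0_8 : St := ⟨false, nat_lit 1, nat_lit 1, nat_lit 2, nat_lit 40, nat_lit 280, nat_lit 320, nat_lit 280, nat_lit 320, nat_lit 64, nat_lit 400, nat_lit 0, nat_lit 0, nat_lit 0, nat_lit 0, nat_lit 0, nat_lit 0, nat_lit 40, nat_lit 80, nat_lit 0, nat_lit 0, nat_lit 0, nat_lit 0⟩
theorem d_N_700_700_0_8 (h : EB TB.env) : Dead b_N_700_700_0_8 := chkB_sound0 h (T :=
(.spl (nat_lit 0) (nat_lit 300)
(.ord (.spl (nat_lit 2) (nat_lit 240)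
(.leaf p017_l140)
(.leaf p017_l141)))
(.trZ (nat_lit 0) (nat_lit 100) (nat_lit 94) (nat_lit 88) (nat_lit 80) (.spl (nat_lit 0) (nat_lit 310)
(.ord (.leaf p017_l142))
(.trZ (nat_lit 0) (nat_lit 100) (nat_lit 91) (nat_lit 91) (nat_lit 88) (.leaf p017_l143)))))) (by decide +kernel)
noncomputable def p017_l144 : Lf2 := ⟨nat_lit 0, nat_lit 10, [nat_lit 0, nat_lit 5, nat_lit 5, nat_lit 20], false, nat_lit 0, nat_lit 0, nat_lit 0, nat_lit 0, ⟨nat_lit 1000, nat_lit 0, nat_lit 0, nat_lit 0, nat_lit 0, nat_lit 0, nat_lit 0, nat_lit 0, nat_lit 0, nat_lit 0, nat_lit 0, nat_lit 0, nat_lit 0, nat_lit 0, nat_lit 0, nat_lit 0, false, false⟩,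
 nat_lit 0, nat_lit 0, nat_lit 0, nat_lit 2833, nat_lit 8445, nat_lit 8473, nat_lit 0, nat_lit 0, nat_lit 0, nat_lit 0, nat_lit 0, nat_lit 0, nat_lit 0, nat_lit 0, nat_lit 0, nat_lit 0, nat_lit 0, nat_lit 0, [],
 ⟨p017_k0, nat_lit 0, nat_lit 0, nat_lit 219, nat_lit 0, nat_lit 0, [nat_lit 3282000000, nat_lit 6250000000, nat_lit 9842000000], [], [nat_lit 31812505792, nat_lit 35386217045, nat_lit 44239338560, nat_lit 46041028000], nat_lit 0, nat_lit 0, nat_lit 0, nat_lit 0, nat_lit 0, nat_lit 0, [], [nat_lit 8, nat_lit 40, nat_lit 80, nat_lit 80, nat_lit 1, nat_lit 317, nat_lit 100, nat_lit 9]⟩, ⟨p017_k0, nat_lit 0, nat_lit 0, nat_lit 219, nat_lit 0, nat_lit 0, [nat_lit 3282000000, nat_lit 6250000000, nat_lit 9842000000], [], [nat_lit 31796297869, nat_lit 35411657822, nat_lit 44268408384, nat_lit 46072567200], nat_lit 0, nat_lit 0, nat_lit 0, nat_lit 0, nat_lit 0, nat_lit 0, [], [nat_lit 8, nat_lit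 40, nat_lit 80, nat_lit 80, nat_lit 1, nat_lit 317, nat_lit 100, nat_lit 9]⟩,
 zbF0, [⟨nat_lit 0, nat_lit 100, nat_lit 100, nat_lit 100, nat_lit 142290650⟩]⟩
noncomputable def p017_l145 : Lf2 := ⟨nat_lit 0, nat_lit 10, [nat_lit 0, nat_lit 5, nat_lit 5, nat_lit 20], false, nat_lit 0, nat_lit 0, nat_lit 0, nat_lit 0, ⟨nat_lit 142, nat_lit 0, nat_lit 858, nat_lit 7, nat_lit 159, nat_lit 0, nat_lit 0, nat_lit 0, nat_lit 0, nat_lit 215, nat_lit 121536, nat_lit 300, nat_lit 57811659, nat_lit 0, nat_lit 0, nat_lit 1998680, false, false⟩,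
 nat_lit 0, nat_lit 0, nat_lit 1933, nat_lit 0, nat_lit 4390, nat_lit 1230, nat_lit 0, nat_lit 0, nat_lit 0, nat_lit 143, nat_lit 0, nat_lit 0, nat_lit 0, nat_lit 5030674701282, nat_lit 9, nat_lit 214500, nat_lit 0, nat_lit 0, [(nat_lit 12, [(nat_lit 4, nat_lit 858)])],
 ⟨p017_k0, nat_lit 0, nat_lit 0, nat_lit 202, nat_lit 0, nat_lit 0, [nat_lit 2643540001, nat_lit 818336800, nat_lit 167283200], [], [nat_lit 18774981593, nat_lit 20256886604, nat_lit 18680381301, nat_lit 19971598801], nat_lit 0, nat_lit 0, nat_lit 0, nat_lit 0, nat_lit 0, nat_lit 0, [], [nat_lit 8, nat_lit 40, nat_lit 80, nat_lit 80, nat_lit 1, nat_lit 238, nat_lit 30, nat_lit 7]⟩, ⟨p017_k0, nat_lit 0, nat_lit 0, nat_lit 485, nat_lit 0, nat_lit 519804, [nat_lit 466044000, nat_lit 887500000, nat_lit 1397564000], [], [nat_lit 3827222709, nat_lit 3981829017, nat_lit 3600498510, nat_lit 3773360341], nat_lit 1271250, nat_lit 1271250,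 nat_lit 382400, nat_lit 780000, nat_lit 0, nat_lit 0, [nat_lit 780000, nat_lit 1435000, nat_lit 1271250], [nat_lit 8, nat_lit 40, nat_lit 80, nat_lit 80, nat_lit 1, nat_lit 238, nat_lit 30, nat_lit 7]⟩,
 ⟨nat_lit 5000, nat_lit 5478, ⟨.ofNat (nat_lit 330654), .ofNat (nat_lit 435548), .ofNat (nat_lit 352005), .ofNat (nat_lit 456895), .ofNat (nat_lit 342856), .ofNat (nat_lit 442843), .ofNat (nat_lit 364277), .ofNat (nat_lit 464262)⟩, ⟨.ofNat (nat_lit 0), .ofNat (nat_lit 0), .ofNat (nat_lit 0), .ofNat (nat_lit 0), .ofNat (nat_lit 0), .ofNat (nat_lit 0), .ofNat (nat_lit 0), .ofNat (nat_lit 0)⟩⟩, [⟨nat_lit 0, nat_lit 100, nat_lit 100, nat_lit 90, nat_lit 209303140⟩]⟩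
noncomputable def p017_l146 : Lf2 := ⟨nat_lit 0, nat_lit 10, [nat_lit 0, nat_lit 5, nat_lit 5, nat_lit 20], false, nat_lit 0, nat_lit 0, nat_lit 0, nat_lit 0, ⟨nat_lit 1000, nat_lit 0, nat_lit 0, nat_lit 0, nat_lit 0, nat_lit 0, nat_lit 0, nat_lit 0, nat_lit 0, nat_lit 0, nat_lit 0, nat_lit 0, nat_lit 0, nat_lit 0, nat_lit 0, nat_lit 0, false, false⟩,
 nat_lit 0, nat_lit 0, nat_lit 10033, nat_lit 0, nat_lit 5226, nat_lit 6384, nat_lit 0, nat_lit 0, nat_lit 0, nat_lit 945, nat_lit 0, nat_lit 0, nat_lit 0, nat_lit 0, nat_lit 0, nat_lit 0, nat_lit 0, nat_lit 0, [],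
 ⟨p017_k0, nat_lit 0, nat_lit 0, nat_lit 173, nat_lit 0, nat_lit 0, [nat_lit 3282000000, nat_lit 6250000000, nat_lit 9842000000], [], [nat_lit 28680736940, nat_lit 30092631040, nat_lit 31457854720, nat_lit 32658562244], nat_lit 0, nat_lit 0, nat_lit 0, nat_lit 0, nat_lit 0, nat_lit 0, [], [nat_lit 8, nat_lit 40, nat_lit 80, nat_lit 80, nat_lit 1, nat_lit 272, nat_lit 60, nat_lit 8]⟩, ⟨p017_k0, nat_lit 0, nat_lit 0, nat_lit 457, nat_lit 0, nat_lit 519804, [nat_lit 3282000000, nat_lit 6250000000, nat_lit 9842000000], [], [nat_lit 30155968922, nat_lit 31035744645, nat_lit 31635462400, nat_lit 32543743024], nat_lit 1271250, nat_lit 1271250, nat_lit 780000, nat_lit 1762500, nat_lit 0, nat_lit 0, [nat_lit 780000, nat_lit 1435000, nat_lit 1271250], [nat_lit 8, nat_lit 40, nat_lit 80, nat_lit 80, nat_lit 1, nat_lit 272, nat_lit 60, nat_lit 8]⟩,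
 zbF0, []⟩
noncomputable def p017_l147 : Lf2 := ⟨nat_lit 0, nat_lit 10, [nat_lit 0, nat_lit 5, nat_lit 5, nat_lit 20], false, nat_lit 0, nat_lit 0, nat_lit 0, nat_lit 0, ⟨nat_lit 168, nat_lit 0, nat_lit 832, nat_lit 7, nat_lit 211, nat_lit 0, nat_lit 0, nat_lit 0, nat_lit 0, nat_lit 215, nat_lit 85756, nat_lit 200, nat_lit 52437503, nat_lit 0, nat_lit 0, nat_lit 2617670, false, false⟩,
 nat_lit 0, nat_lit 0, nat_lit 1572, nat_lit 0, nat_lit 4439, nat_lit 1000, nat_lit 0, nat_lit 0, nat_lit 0, nat_lit 236, nat_lit 0, nat_lit 0, nat_lit 0, nat_lit 0, nat_lit 0, nat_lit 208000, nat_lit 0, nat_lit 0, [(nat_lit 15, [(nat_lit 4, nat_lit 832)])],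
 ⟨p017_k4, nat_lit 0, nat_lit 0, nat_lit 154, nat_lit 0, nat_lit 0, [nat_lit 2510236800, nat_lit 1076121601, nat_lit 133319467], [], [nat_lit 17531469607, nat_lit 19043926903, nat_lit 20940002929, nat_lit 22107714720], nat_lit 0, nat_lit 0, nat_lit 0, nat_lit 0, nat_lit 0, nat_lit 0, [], [nat_lit 36, nat_lit 40, nat_lit 80, nat_lit 80, nat_lit 7, nat_lit 272, nat_lit 60, nat_lit 9]⟩, ⟨p017_k1, nat_lit 0, nat_lit 0, nat_lit 582, nat_lit 0, nat_lit 735574, [nat_lit 551376000, nat_lit 787584000, nat_lit 1653456000], [], [nat_lit 4953161060, nat_lit 5047411396, nat_lit 6349761516, nat_lit 5902761516], nat_lit 1271250, nat_lit 1271250, nat_lit 490000, nat_lit 1740000, nat_lit 0, nat_lit 0, [nat_lit 780000, nat_lit 1100000, nat_lit 2127500], [nat_lit 42, nat_lit 40, nat_lit 80, nat_lit 80, nat_lit 13, nat_lit 272, nat_lit 60, nat_lit 8]⟩,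
 ⟨nat_lit 4472, nat_lit 5000, ⟨.ofNat (nat_lit 371392), .ofNat (nat_lit 657088), .ofNat (nat_lit 392808), .ofNat (nat_lit 678503), .ofNat (nat_lit 382295), .ofNat (nat_lit 654189), .ofNat (nat_lit 403849), .ofNat (nat_lit 675743)⟩, ⟨.ofNat (nat_lit 0), .ofNat (nat_lit 0), .ofNat (nat_lit 0), .ofNat (nat_lit 0), .ofNat (nat_lit 0), .ofNat (nat_lit 0), .ofNat (nat_lit 0), .ofNat (nat_lit 0)⟩⟩, []⟩
noncomputable def p017_l148 : Lf2 := ⟨nat_lit 0, nat_lit 10, [nat_lit 0, nat_lit 5, nat_lit 5, nat_lit 20], false, nat_lit 0, nat_lit 0, nat_lit 0, nat_lit 0, ⟨nat_lit 1000, nat_lit 0, nat_lit 0, nat_lit 0, nat_lit 0, nat_lit 0, nat_lit 0, nat_lit 0, nat_lit 0, nat_lit 0, nat_lit 0, nat_lit 0, nat_lit 0, nat_lit 0, nat_lit 0, nat_lit 0, false, false⟩,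
 nat_lit 0, nat_lit 0, nat_lit 9581, nat_lit 0, nat_lit 5234, nat_lit 6633, nat_lit 0, nat_lit 0, nat_lit 0, nat_lit 1413, nat_lit 0, nat_lit 0, nat_lit 0, nat_lit 0, nat_lit 0, nat_lit 0, nat_lit 0, nat_lit 0, [],
 ⟨p017_k4, nat_lit 0, nat_lit 0, nat_lit 149, nat_lit 0, nat_lit 0, [nat_lit 3282000000, nat_lit 4688000000, nat_lit 7968000000], [], [nat_lit 25698797102, nat_lit 27310076622, nat_lit 28842758772, nat_lit 30124370824], nat_lit 0, nat_lit 0, nat_lit 0, nat_lit 0, nat_lit 0, nat_lit 0, [], [nat_lit 36, nat_lit 40, nat_lit 80, nat_lit 80, nat_lit 7, nat_lit 272, nat_lit 60, nat_lit 9]⟩, ⟨p017_k4, nat_lit 0, nat_lit 0, nat_lit 527, nat_lit 0, nat_lit 814629, [nat_lit 3282000000, nat_lit 4688000000, nat_lit 7968000000], [], [nat_lit 21605814210, nat_lit 22229191796, nat_lit 27891023854, nat_lit 25347111840], nat_lit 1271250, nat_lit 1271250, nat_lit 631250, nat_lit 1751250, nat_lit 0,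 nat_lit 0, [nat_lit 780000, nat_lit 1100000, nat_lit 1785000], [nat_lit 36, nat_lit 40, nat_lit 80, nat_lit 80, nat_lit 7, nat_lit 272, nat_lit 60, nat_lit 9]⟩,
 zbF0, [⟨nat_lit 0, nat_lit 83, nat_lit 83, nat_lit 100, nat_lit 377186291⟩]⟩
noncomputable def p017_l149 : Lf2 := ⟨nat_lit 0, nat_lit 10, [nat_lit 0, nat_lit 5, nat_lit 5, nat_lit 20], false, nat_lit 0, nat_lit 0, nat_lit 0, nat_lit 0, ⟨nat_lit 1000, nat_lit 0, nat_lit 0, nat_lit 0, nat_lit 0, nat_lit 0, nat_lit 0, nat_lit 0, nat_lit 0, nat_lit 0, nat_lit 0, nat_lit 0, nat_lit 0, nat_lit 0, nat_lit 0, nat_lit 0, false, false⟩,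
 nat_lit 0, nat_lit 0, nat_lit 8879, nat_lit 0, nat_lit 5821, nat_lit 5650, nat_lit 0, nat_lit 0, nat_lit 0, nat_lit 1331, nat_lit 0, nat_lit 0, nat_lit 0, nat_lit 0, nat_lit 0, nat_lit 0, nat_lit 0, nat_lit 0, [],
 ⟨p017_k1, nat_lit 0, nat_lit 0, nat_lit 207, nat_lit 0, nat_lit 0, [nat_lit 3282000000, nat_lit 4688000000, nat_lit 9842000000], [], [nat_lit 32763418944, nat_lit 33771804582, nat_lit 41515080768, nat_lit 42300217584], nat_lit 0, nat_lit 0, nat_lit 0, nat_lit 0, nat_lit 0, nat_lit 0, [], [nat_lit 42, nat_lit 40, nat_lit 80, nat_lit 80, nat_lit 13, nat_lit 317, nat_lit 100, nat_lit 9]⟩, ⟨p017_k1, nat_lit 0, nat_lit 0, nat_lit 436, nat_lit 0, nat_lit 519804, [nat_lit 3282000000, nat_lit 4688000000, nat_lit 9842000000], [], [nat_lit 30018108225, nat_lit 30521310125, nat_lit 35406886675, nat_lit 35944575100], nat_lit 1271250, nat_lit 1271250, nat_lit 1271250, nat_lit 1271250, nat_lit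 0, nat_lit 0, [nat_lit 780000, nat_lit 1100000, nat_lit 2127500], [nat_lit 42, nat_lit 40, nat_lit 80, nat_lit 80, nat_lit 13, nat_lit 317, nat_lit 100, nat_lit 9]⟩,
 zbF0, []⟩
noncomputable def p017_l150 : Lf2 := ⟨nat_lit 0, nat_lit 10, [nat_lit 0, nat_lit 5, nat_lit 5, nat_lit 20], false, nat_lit 0, nat_lit 0, nat_lit 0, nat_lit 0, ⟨nat_lit 1000, nat_lit 0, nat_lit 0, nat_lit 0, nat_lit 0, nat_lit 0, nat_lit 0, nat_lit 0, nat_lit 0, nat_lit 0, nat_lit 0, nat_lit 0, nat_lit 0, nat_lit 0, nat_lit 0, nat_lit 0, false, false⟩,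
 nat_lit 0, nat_lit 0, nat_lit 9485, nat_lit 0, nat_lit 6292, nat_lit 6035, nat_lit 0, nat_lit 0, nat_lit 0, nat_lit 1189, nat_lit 0, nat_lit 0, nat_lit 0, nat_lit 0, nat_lit 0, nat_lit 0, nat_lit 0, nat_lit 0, [],
 ⟨p017_k4, nat_lit 0, nat_lit 0, nat_lit 189, nat_lit 0, nat_lit 0, [nat_lit 3282000000, nat_lit 4688000000, nat_lit 7968000000], [], [nat_lit 29604642168, nat_lit 30903103152, nat_lit 39764554232, nat_lit 40661867712], nat_lit 0, nat_lit 0, nat_lit 0, nat_lit 0, nat_lit 0, nat_lit 0, [], [nat_lit 36, nat_lit 40, nat_lit 80, nat_lit 80, nat_lit 7, nat_lit 203, nat_lit 0, nat_lit 6]⟩, ⟨p017_k1, nat_lit 0, nat_lit 0, nat_lit 597, nat_lit 0, nat_lit 917723, [nat_lit 3282000000, nat_lit 4688000000, nat_lit 9842000000], [], [nat_lit 33862393295, nat_lit 34556770730, nat_lit 37430715945, nat_lit 38163055045], nat_lit 1271250, nat_lit 1271250, nat_lit 1271250, nat_lit 1271250, nat_lit 0,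 nat_lit 0, [nat_lit 780000, nat_lit 1100000, nat_lit 2127500], [nat_lit 42, nat_lit 40, nat_lit 80, nat_lit 80, nat_lit 13, nat_lit 317, nat_lit 100, nat_lit 9]⟩,
 zbF0, []⟩
noncomputable def p017_l151 : Lf2 := ⟨nat_lit 0, nat_lit 10, [nat_lit 0, nat_lit 5, nat_lit 5, nat_lit 20], false, nat_lit 0, nat_lit 0, nat_lit 0, nat_lit 0, ⟨nat_lit 1000, nat_lit 0, nat_lit 0, nat_lit 0, nat_lit 0, nat_lit 0, nat_lit 0, nat_lit 0, nat_lit 0, nat_lit 0, nat_lit 0, nat_lit 0, nat_lit 0, nat_lit 0, nat_lit 0, nat_lit 0, false, false⟩,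
 nat_lit 0, nat_lit 0, nat_lit 0, nat_lit 0, nat_lit 5662, nat_lit 6878, nat_lit 0, nat_lit 0, nat_lit 0, nat_lit 0, nat_lit 0, nat_lit 0, nat_lit 0, nat_lit 0, nat_lit 0, nat_lit 0, nat_lit 0, nat_lit 0, [],
 ⟨p017_k1, nat_lit 0, nat_lit 0, nat_lit 209, nat_lit 0, nat_lit 0, [nat_lit 3282000000, nat_lit 4688000000, nat_lit 9842000000], [], [nat_lit 31047910322, nat_lit 33710802140, nat_lit 41350005696, nat_lit 42906256800], nat_lit 0, nat_lit 0, nat_lit 0, nat_lit 0, nat_lit 0, nat_lit 0, [], [nat_lit 42, nat_lit 40, nat_lit 80, nat_lit 80, nat_lit 13, nat_lit 317, nat_lit 100, nat_lit 9]⟩, ⟨p017_k1, nat_lit 0, nat_lit 0, nat_lit 209, nat_lit 0, nat_lit 0, [nat_lit 3282000000, nat_lit 4688000000, nat_lit 9842000000], [], [nat_lit 30031982746, nat_lit 33962442098, nat_lit 42612466624, nat_lit 44275959200], nat_lit 0, nat_lit 0, nat_lit 0, nat_lit 0, nat_lit 0, nat_lit 0, [], [nat_lit 42, nat_lit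 40, nat_lit 80, nat_lit 80, nat_lit 13, nat_lit 317, nat_lit 100, nat_lit 9]⟩,
 zbF0, [⟨nat_lit 0, nat_lit 100, nat_lit 100, nat_lit 100, nat_lit 159900766⟩]⟩
noncomputable def p017_l152 : Lf2 := ⟨nat_lit 0, nat_lit 10, [nat_lit 0, nat_lit 5, nat_lit 5, nat_lit 20], true, nat_lit 0, nat_lit 0, nat_lit 0, nat_lit 0, ⟨nat_lit 0, nat_lit 1000, nat_lit 0, nat_lit 7, nat_lit 209, nat_lit 0, nat_lit 0, nat_lit 0, nat_lit 0, nat_lit 0, nat_lit 0, nat_lit 0, nat_lit 0, nat_lit 0, nat_lit 0, nat_lit 5000000, false, false⟩,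
 nat_lit 0, nat_lit 0, nat_lit 0, nat_lit 0, nat_lit 4162, nat_lit 0, nat_lit 0, nat_lit 0, nat_lit 0, nat_lit 0, nat_lit 0, nat_lit 0, nat_lit 0, nat_lit 5329194160342, nat_lit 0, nat_lit 250000, nat_lit 0, nat_lit 0, [(nat_lit 12, [(nat_lit 0, nat_lit 1000)]), (nat_lit 15, [(nat_lit 0, nat_lit 1000)])],
 ⟨p017_k1, nat_lit 0, nat_lit 0, nat_lit 201, nat_lit 0, nat_lit 0, [nat_lit 2364000000, nat_lit 2745200001, nat_lit 3496880000], [], [nat_lit 22302770114, nat_lit 25149566671, nat_lit 25096240640, nat_lit 27149820288], nat_lit 0, nat_lit 0, nat_lit 0, nat_lit 0, nat_lit 0, nat_lit 0, [], [nat_lit 42, nat_lit 40, nat_lit 80, nat_lit 80, nat_lit 13, nat_lit 272, nat_lit 60, nat_lit 8]⟩, C1.Rw.none,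
 ⟨nat_lit 4472, nat_lit 5478, ⟨.ofNat (nat_lit 330579), .ofNat (nat_lit 660148), .ofNat (nat_lit 373223), .ofNat (nat_lit 702774), .ofNat (nat_lit 355064), .ofNat (nat_lit 654031), .ofNat (nat_lit 398126), .ofNat (nat_lit 697075)⟩, ⟨.ofNat (nat_lit 0), .ofNat (nat_lit 0), .ofNat (nat_lit 0), .ofNat (nat_lit 0), .ofNat (nat_lit 0), .ofNat (nat_lit 0), .ofNat (nat_lit 0), .ofNat (nat_lit 0)⟩⟩, []⟩
noncomputable def p017_l153 : Lf2 := ⟨nat_lit 0, nat_lit 10, [nat_lit 0, nat_lit 5, nat_lit 5, nat_lit 20], false, nat_lit 0, nat_lit 0, nat_lit 0, nat_lit 0, ⟨nat_lit 1000, nat_lit 0, nat_lit 0, nat_lit 0, nat_lit 0, nat_lit 0, nat_lit 0, nat_lit 0, nat_lit 0, nat_lit 0, nat_lit 0, nat_lit 0, nat_lit 0, nat_lit 0, nat_lit 0, nat_lit 0, false, false⟩,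
 nat_lit 0, nat_lit 0, nat_lit 8879, nat_lit 0, nat_lit 5821, nat_lit 5650, nat_lit 0, nat_lit 0, nat_lit 0, nat_lit 1331, nat_lit 0, nat_lit 0, nat_lit 0, nat_lit 0, nat_lit 0, nat_lit 0, nat_lit 0, nat_lit 0, [],
 ⟨p017_k1, nat_lit 0, nat_lit 0, nat_lit 207, nat_lit 0, nat_lit 0, [nat_lit 3282000000, nat_lit 4688000000, nat_lit 9842000000], [], [nat_lit 32763418944, nat_lit 33771804582, nat_lit 41515080768, nat_lit 42300217584], nat_lit 0, nat_lit 0, nat_lit 0, nat_lit 0, nat_lit 0, nat_lit 0, [], [nat_lit 42, nat_lit 40, nat_lit 80, nat_lit 80, nat_lit 13, nat_lit 317, nat_lit 100, nat_lit 9]⟩, ⟨p017_k1, nat_lit 0, nat_lit 0, nat_lit 436, nat_lit 0, nat_lit 519804, [nat_lit 3282000000, nat_lit 4688000000, nat_lit 9842000000], [], [nat_lit 30018108225, nat_lit 30521310125, nat_lit 35406886675, nat_lit 35944575100], nat_lit 1271250, nat_lit 1271250, nat_lit 1271250, nat_lit 1271250, nat_lit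 0, nat_lit 0, [nat_lit 780000, nat_lit 1100000, nat_lit 2127500], [nat_lit 42, nat_lit 40, nat_lit 80, nat_lit 80, nat_lit 13, nat_lit 317, nat_lit 100, nat_lit 9]⟩,
 zbF0, []⟩
noncomputable def p017_l154 : Lf2 := ⟨nat_lit 0, nat_lit 10, [nat_lit 0, nat_lit 5, nat_lit 5, nat_lit 20], true, nat_lit 0, nat_lit 0, nat_lit 0, nat_lit 0, ⟨nat_lit 0, nat_lit 1000, nat_lit 0, nat_lit 7, nat_lit 327, nat_lit 0, nat_lit 0, nat_lit 0, nat_lit 0, nat_lit 0, nat_lit 0, nat_lit 0, nat_lit 0, nat_lit 0, nat_lit 0, nat_lit 5000000, true, true⟩,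
 nat_lit 0, nat_lit 0, nat_lit 0, nat_lit 0, nat_lit 3878, nat_lit 0, nat_lit 0, nat_lit 0, nat_lit 0, nat_lit 0, nat_lit 0, nat_lit 0, nat_lit 0, nat_lit 10555914371100, nat_lit 0, nat_lit 250000, nat_lit 0, nat_lit 0, [(nat_lit 15, [(nat_lit 0, nat_lit 1000)])],
 ⟨p017_k4, nat_lit 0, nat_lit 0, nat_lit 189, nat_lit 0, nat_lit 0, [nat_lit 2318400000, nat_lit 2378000001, nat_lit 3078800000], [], [nat_lit 25700618469, nat_lit 26630405249, nat_lit 32474606221, nat_lit 33092658169], nat_lit 0, nat_lit 0, nat_lit 0, nat_lit 0, nat_lit 0, nat_lit 0, [], [nat_lit 36, nat_lit 40, nat_lit 80, nat_lit 80, nat_lit 7, nat_lit 203, nat_lit 0, nat_lit 6]⟩, C1.Rw.none,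
 ⟨nat_lit 4472, nat_lit 5000, ⟨.ofNat (nat_lit 657088), .ofNat (nat_lit 942783), .ofNat (nat_lit 699920), .ofNat (nat_lit 985615), .ofNat (nat_lit 654189), .ofNat (nat_lit 926083), .ofNat (nat_lit 697297), .ofNat (nat_lit 969191)⟩, ⟨.ofNat (nat_lit 0), .ofNat (nat_lit 0), .ofNat (nat_lit 0), .ofNat (nat_lit 0), .ofNat (nat_lit 0), .ofNat (nat_lit 0), .ofNat (nat_lit 0), .ofNat (nat_lit 0)⟩⟩, []⟩
noncomputable def p017_l155 : Lf2 := ⟨nat_lit 0, nat_lit 10, [nat_lit 0, nat_lit 5, nat_lit 5, nat_lit 20], false, nat_lit 0, nat_lit 0, nat_lit 0, nat_lit 0, ⟨nat_lit 1000, nat_lit 0, nat_lit 0, nat_lit 0, nat_lit 0, nat_lit 0, nat_lit 0, nat_lit 0, nat_lit 0, nat_lit 0, nat_lit 0, nat_lit 0, nat_lit 0, nat_lit 0, nat_lit 0, nat_lit 0, false, false⟩,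
 nat_lit 0, nat_lit 8666, nat_lit 0, nat_lit 0, nat_lit 5514, nat_lit 5087, nat_lit 753, nat_lit 0, nat_lit 0, nat_lit 0, nat_lit 0, nat_lit 0, nat_lit 0, nat_lit 28731084230556, nat_lit 0, nat_lit 0, nat_lit 0, nat_lit 0, [],
 ⟨p017_k0, nat_lit 0, nat_lit 0, nat_lit 333, nat_lit 0, nat_lit 227654, [nat_lit 3282000000, nat_lit 6250000000, nat_lit 9842000000], [], [nat_lit 31957215802, nat_lit 31245642373, nat_lit 41967801120, nat_lit 41351611620], nat_lit 1271250, nat_lit 1271250, nat_lit 382400, nat_lit 2957000, nat_lit 0, nat_lit 0, [nat_lit 780000, nat_lit 1435000, nat_lit 1271250], [nat_lit 8, nat_lit 40, nat_lit 80, nat_lit 80, nat_lit 1, nat_lit 317, nat_lit 100, nat_lit 9]⟩, ⟨p017_k0, nat_lit 0, nat_lit 0, nat_lit 215, nat_lit 0, nat_lit 0, [nat_lit 3282000000, nat_lit 6250000000, nat_lit 9842000000], [], [nat_lit 29088250454, nat_lit 29459693715, nat_lit 40753036096, nat_lit 40941228684],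 nat_lit 0, nat_lit 0, nat_lit 0, nat_lit 0, nat_lit 0, nat_lit 0, [], [nat_lit 8, nat_lit 40, nat_lit 80, nat_lit 80, nat_lit 1, nat_lit 317, nat_lit 100, nat_lit 9]⟩,
 zbF0, [⟨nat_lit 0, nat_lit 100, nat_lit 100, nat_lit 85, nat_lit 184989096⟩]⟩
noncomputable def p017_l156 : Lf2 := ⟨nat_lit 0, nat_lit 10, [nat_lit 0, nat_lit 5, nat_lit 5, nat_lit 20], false, nat_lit 0, nat_lit 0, nat_lit 0, nat_lit 0, ⟨nat_lit 1000, nat_lit 0, nat_lit 0, nat_lit 0, nat_lit 0, nat_lit 0, nat_lit 0, nat_lit 0, nat_lit 0, nat_lit 0, nat_lit 0, nat_lit 0, nat_lit 0, nat_lit 0, nat_lit 0, nat_lit 0, false, false⟩,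
 nat_lit 0, nat_lit 7889, nat_lit 0, nat_lit 0, nat_lit 5129, nat_lit 5091, nat_lit 863, nat_lit 0, nat_lit 0, nat_lit 0, nat_lit 0, nat_lit 0, nat_lit 0, nat_lit 22980232703383, nat_lit 0, nat_lit 0, nat_lit 0, nat_lit 0, [],
 ⟨p017_k29, nat_lit 0, nat_lit 0, nat_lit 360, nat_lit 0, nat_lit 308843, [nat_lit 3282000000, nat_lit 6250000000, nat_lit 9842000000], [], [nat_lit 30410629904, nat_lit 29751660803, nat_lit 41020335320, nat_lit 40447169570], nat_lit 1271250, nat_lit 1271250, nat_lit 408851, nat_lit 2965250, nat_lit 0, nat_lit 0, [nat_lit 780000, nat_lit 1435000, nat_lit 1271250], [nat_lit 8, nat_lit 40, nat_lit 80, nat_lit 80, nat_lit 1, nat_lit 317, nat_lit 100, nat_lit 9]⟩, ⟨p017_k0, nat_lit 0, nat_lit 0, nat_lit 216, nat_lit 0, nat_lit 0, [nat_lit 3282000000, nat_lit 6250000000, nat_lit 9842000000], [], [nat_lit 28939645953, nat_lit 29680791688, nat_lit 40757188928, nat_lit 41133662296],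 nat_lit 0, nat_lit 0, nat_lit 0, nat_lit 0, nat_lit 0, nat_lit 0, [], [nat_lit 8, nat_lit 40, nat_lit 80, nat_lit 80, nat_lit 1, nat_lit 317, nat_lit 100, nat_lit 9]⟩,
 zbF0, [⟨nat_lit 0, nat_lit 100, nat_lit 100, nat_lit 90, nat_lit 164797872⟩]⟩
noncomputable def p017_l157 : Lf2 := ⟨nat_lit 1, nat_lit 10, [nat_lit 0, nat_lit 5, nat_lit 5, nat_lit 20], false, nat_lit 0, nat_lit 0, nat_lit 0, nat_lit 0, zbN0,
 nat_lit 0, nat_lit 0, nat_lit 0, nat_lit 0, nat_lit 0, nat_lit 0, nat_lit 0, nat_lit 0, nat_lit 0, nat_lit 0, nat_lit 0, nat_lit 0, nat_lit 0, nat_lit 0, nat_lit 0, nat_lit 0, nat_lit 0, nat_lit 0, [],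
 C1.Rw.none, C1.Rw.none,
 zbF0, []⟩
noncomputable def p017_l158 : Lf2 := ⟨nat_lit 0, nat_lit 10, [nat_lit 0, nat_lit 5, nat_lit 5, nat_lit 20], false, nat_lit 0, nat_lit 0, nat_lit 0, nat_lit 0, ⟨nat_lit 1000, nat_lit 0, nat_lit 0, nat_lit 0, nat_lit 0, nat_lit 0, nat_lit 0, nat_lit 0, nat_lit 0, nat_lit 0, nat_lit 0, nat_lit 0, nat_lit 0, nat_lit 0, nat_lit 0, nat_lit 0, false, false⟩,
 nat_lit 0, nat_lit 9953, nat_lit 0, nat_lit 0, nat_lit 6610, nat_lit 5094, nat_lit 915, nat_lit 0, nat_lit 0, nat_lit 0, nat_lit 0, nat_lit 0, nat_lit 0, nat_lit 36055716489891, nat_lit 0, nat_lit 0, nat_lit 0, nat_lit 0, [],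
 ⟨p017_k31, nat_lit 0, nat_lit 0, nat_lit 335, nat_lit 0, nat_lit 398742, [nat_lit 3282000000, nat_lit 6250000000, nat_lit 7968000000], [], [nat_lit 27835082852, nat_lit 27468581884, nat_lit 38588423300, nat_lit 38234375535], nat_lit 1271250, nat_lit 1271250, nat_lit 435600, nat_lit 2973500, nat_lit 0, nat_lit 0, [nat_lit 780000, nat_lit 1435000, nat_lit 1271250], [nat_lit 18, nat_lit 40, nat_lit 80, nat_lit 80, nat_lit 2, nat_lit 317, nat_lit 100, nat_lit 11]⟩, ⟨p017_k0, nat_lit 0, nat_lit 0, nat_lit 216, nat_lit 0, nat_lit 0, [nat_lit 3282000000, nat_lit 6250000000, nat_lit 9842000000], [], [nat_lit 28791308494, nat_lit 29900294971, nat_lit 40760303552, nat_lit 41325112820], nat_lit 0, nat_lit 0, nat_lit 0, nat_lit 0, nat_lit 0, nat_lit 0, [], [nat_lit 8, nat_lit 40, nat_lit 80, nat_lit 80, nat_lit 1, nat_lit 317, nat_lit 100, nat_lit 9]⟩,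
 zbF0, [⟨nat_lit 0, nat_lit 100, nat_lit 100, nat_lit 95, nat_lit 152487382⟩]⟩
noncomputable def p017_l159 : Lf2 := ⟨nat_lit 0, nat_lit 10, [nat_lit 0, nat_lit 5, nat_lit 5, nat_lit 20], false, nat_lit 0, nat_lit 0, nat_lit 0, nat_lit 0, ⟨nat_lit 1000, nat_lit 0, nat_lit 0, nat_lit 0, nat_lit 0, nat_lit 0, nat_lit 0, nat_lit 0, nat_lit 0, nat_lit 0, nat_lit 0, nat_lit 0, nat_lit 0, nat_lit 0, nat_lit 0, nat_lit 0, false, false⟩,
 nat_lit 0, nat_lit 9461, nat_lit 0, nat_lit 0, nat_lit 6416, nat_lit 5097, nat_lit 894, nat_lit 0, nat_lit 0, nat_lit 0, nat_lit 0, nat_lit 0, nat_lit 0, nat_lit 33914333046691, nat_lit 0, nat_lit 0, nat_lit 0, nat_lit 0, [],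
 ⟨p017_k32, nat_lit 0, nat_lit 0, nat_lit 386, nat_lit 0, nat_lit 475199, [nat_lit 3282000000, nat_lit 6250000000, nat_lit 7968000000], [], [nat_lit 26797260922, nat_lit 27052131425, nat_lit 37713574096, nat_lit 38015725376], nat_lit 1271250, nat_lit 1271250, nat_lit 462650, nat_lit 2981750, nat_lit 0, nat_lit 0, [nat_lit 780000, nat_lit 1435000, nat_lit 1271250], [nat_lit 18, nat_lit 40, nat_lit 80, nat_lit 80, nat_lit 2, nat_lit 317, nat_lit 100, nat_lit 11]⟩, ⟨p017_k0, nat_lit 0, nat_lit 0, nat_lit 217, nat_lit 0, nat_lit 0, [nat_lit 3282000000, nat_lit 6250000000, nat_lit 9842000000], [], [nat_lit 28642721710, nat_lit 30117724256, nat_lit 40763418176, nat_lit 41516629488], nat_lit 0, nat_lit 0, nat_lit 0, nat_lit 0, nat_lit 0, nat_lit 0, [], [nat_lit 8, nat_lit 40, nat_lit 80, nat_lit 80, nat_lit 1, nat_lit 317, nat_lit 100, nat_lit 9]⟩,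
 zbF0, [⟨nat_lit 0, nat_lit 100, nat_lit 100, nat_lit 100, nat_lit 138299011⟩]⟩
noncomputable def p017_l160 : Lf2 := ⟨nat_lit 0, nat_lit 10, [nat_lit 0, nat_lit 5, nat_lit 5, nat_lit 20], false, nat_lit 0, nat_lit 0, nat_lit 0, nat_lit 0, ⟨nat_lit 1000, nat_lit 0, nat_lit 0, nat_lit 0, nat_lit 0, nat_lit 0, nat_lit 0, nat_lit 0, nat_lit 0, nat_lit 0, nat_lit 0, nat_lit 0, nat_lit 0, nat_lit 0, nat_lit 0, nat_lit 0, false, false⟩,
 nat_lit 0, nat_lit 9463, nat_lit 0, nat_lit 0, nat_lit 6551, nat_lit 5063, nat_lit 1481, nat_lit 0, nat_lit 0, nat_lit 0, nat_lit 0, nat_lit 0, nat_lit 0, nat_lit 26764083759235, nat_lit 0, nat_lit 0, nat_lit 0, nat_lit 0, [],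
 ⟨p017_k4, nat_lit 0, nat_lit 0, nat_lit 437, nat_lit 0, nat_lit 636198, [nat_lit 3282000000, nat_lit 4688000000, nat_lit 7968000000], [], [nat_lit 22714986250, nat_lit 21034464771, nat_lit 27348869038, nat_lit 25865696434], nat_lit 1271250, nat_lit 1271250, nat_lit 490000, nat_lit 1740000, nat_lit 0, nat_lit 0, [nat_lit 780000, nat_lit 1100000, nat_lit 1785000], [nat_lit 36, nat_lit 40, nat_lit 80, nat_lit 80, nat_lit 7, nat_lit 272, nat_lit 60, nat_lit 9]⟩, ⟨p017_k1, nat_lit 0, nat_lit 0, nat_lit 183, nat_lit 0, nat_lit 0, [nat_lit 3282000000, nat_lit 4688000000, nat_lit 9842000000], [], [nat_lit 28519141208, nat_lit 30717522332, nat_lit 31595961360, nat_lit 33276366924], nat_lit 0, nat_lit 0, nat_lit 0, nat_lit 0, nat_lit 0, nat_lit 0, [], [nat_lit 42, nat_lit 40, nat_lit 80, nat_lit 80, nat_lit 13, nat_lit 272, nat_lit 60, nat_lit 8]⟩,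
 zbF0, [⟨nat_lit 0, nat_lit 91, nat_lit 91, nat_lit 100, nat_lit 342562437⟩]⟩
noncomputable def p017_l161 : Lf2 := ⟨nat_lit 0, nat_lit 10, [nat_lit 0, nat_lit 5, nat_lit 5, nat_lit 20], false, nat_lit 0, nat_lit 0, nat_lit 0, nat_lit 0, ⟨nat_lit 1000, nat_lit 0, nat_lit 0, nat_lit 0, nat_lit 0, nat_lit 0, nat_lit 0, nat_lit 0, nat_lit 0, nat_lit 0, nat_lit 0, nat_lit 0, nat_lit 0, nat_lit 0, nat_lit 0, nat_lit 0, false, false⟩,
 nat_lit 0, nat_lit 8512, nat_lit 0, nat_lit 0, nat_lit 6136, nat_lit 5007, nat_lit 1293, nat_lit 0, nat_lit 0, nat_lit 0, nat_lit 0, nat_lit 0, nat_lit 0, nat_lit 17677578637373, nat_lit 0, nat_lit 0, nat_lit 0, nat_lit 0, [],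
 ⟨p017_k14, nat_lit 0, nat_lit 0, nat_lit 515, nat_lit 0, nat_lit 769824, [nat_lit 3282000000, nat_lit 4688000000, nat_lit 7968000000], [], [nat_lit 22664995380, nat_lit 23064173404, nat_lit 26610290449, nat_lit 25221075505], nat_lit 1271250, nat_lit 1271250, nat_lit 545600, nat_lit 1744500, nat_lit 0, nat_lit 0, [nat_lit 780000, nat_lit 1100000, nat_lit 1785000], [nat_lit 36, nat_lit 40, nat_lit 80, nat_lit 80, nat_lit 7, nat_lit 272, nat_lit 60, nat_lit 9]⟩, ⟨p017_k1, nat_lit 0, nat_lit 0, nat_lit 186, nat_lit 0, nat_lit 0, [nat_lit 3282000000, nat_lit 4688000000, nat_lit 9842000000], [], [nat_lit 28617290796, nat_lit 31500380694, nat_lit 31643409040, nat_lit 33872329568], nat_lit 0, nat_lit 0, nat_lit 0, nat_lit 0, nat_lit 0, nat_lit 0, [], [nat_lit 42, nat_lit 40, nat_lit 80, nat_lit 80, nat_lit 13, nat_lit 272, nat_lit 60, nat_lit 8]⟩,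
 zbF0, [⟨nat_lit 0, nat_lit 83, nat_lit 83, nat_lit 100, nat_lit 507909026⟩]⟩
noncomputable def p017_l162 : Lf2 := ⟨nat_lit 0, nat_lit 10, [nat_lit 0, nat_lit 5, nat_lit 5, nat_lit 20], false, nat_lit 0, nat_lit 0, nat_lit 0, nat_lit 0, ⟨nat_lit 1000, nat_lit 0, nat_lit 0, nat_lit 0, nat_lit 0, nat_lit 0, nat_lit 0, nat_lit 0, nat_lit 0, nat_lit 0, nat_lit 0, nat_lit 0, nat_lit 0, nat_lit 0, nat_lit 0, nat_lit 0, false, false⟩,
 nat_lit 0, nat_lit 7542, nat_lit 0, nat_lit 0, nat_lit 5221, nat_lit 6463, nat_lit 1156, nat_lit 0, nat_lit 0, nat_lit 0, nat_lit 0, nat_lit 0, nat_lit 0, nat_lit 31606589229384, nat_lit 0, nat_lit 0, nat_lit 0, nat_lit 0, [],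
 ⟨p017_k4, nat_lit 0, nat_lit 0, nat_lit 500, nat_lit 0, nat_lit 814629, [nat_lit 3282000000, nat_lit 4688000000, nat_lit 7968000000], [], [nat_lit 31384473432, nat_lit 31920314716, nat_lit 35470890846, nat_lit 35883404812], nat_lit 1271250, nat_lit 1271250, nat_lit 1271250, nat_lit 1271250, nat_lit 0, nat_lit 0, [nat_lit 780000, nat_lit 1100000, nat_lit 1785000], [nat_lit 36, nat_lit 40, nat_lit 80, nat_lit 80, nat_lit 7, nat_lit 215, nat_lit 0, nat_lit 6]⟩, ⟨p017_k1, nat_lit 0, nat_lit 0, nat_lit 209, nat_lit 0, nat_lit 0, [nat_lit 3282000000, nat_lit 4688000000, nat_lit 9842000000], [], [nat_lit 32035972392, nat_lit 34409314548, nat_lit 42181610304, nat_lit 43808503200], nat_lit 0, nat_lit 0, nat_lit 0, nat_lit 0, nat_lit 0, nat_lit 0, [], [nat_lit 42, nat_lit 40, nat_lit 80, nat_lit 80, nat_lit 13, nat_lit 317, nat_lit 100, nat_lit 9]⟩,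
 zbF0, []⟩
noncomputable def p017_l163 : Lf2 := ⟨nat_lit 0, nat_lit 10, [nat_lit 0, nat_lit 5, nat_lit 5, nat_lit 20], false, nat_lit 0, nat_lit 0, nat_lit 0, nat_lit 0, ⟨nat_lit 1000, nat_lit 0, nat_lit 0, nat_lit 0, nat_lit 0, nat_lit 0, nat_lit 0, nat_lit 0, nat_lit 0, nat_lit 0, nat_lit 0, nat_lit 0, nat_lit 0, nat_lit 0, nat_lit 0, nat_lit 0, false, false⟩,
 nat_lit 14314, nat_lit 0, nat_lit 0, nat_lit 2627, nat_lit 9108, nat_lit 9108, nat_lit 1134, nat_lit 0, nat_lit 0, nat_lit 1134, nat_lit 0, nat_lit 0, nat_lit 0, nat_lit 0, nat_lit 0, nat_lit 0, nat_lit 0, nat_lit 0, [],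
 ⟨p017_k0, nat_lit 0, nat_lit 0, nat_lit 356, nat_lit 0, nat_lit 280263, [nat_lit 3282000000, nat_lit 6250000000, nat_lit 9842000000], [], [nat_lit 24817103372, nat_lit 26367853819, nat_lit 22918099276, nat_lit 24284524914], nat_lit 1271250, nat_lit 1271250, nat_lit 382400, nat_lit 780000, nat_lit 0, nat_lit 0, [nat_lit 780000, nat_lit 1435000, nat_lit 1271250], [nat_lit 8, nat_lit 40, nat_lit 80, nat_lit 80, nat_lit 1, nat_lit 238, nat_lit 30, nat_lit 7]⟩, ⟨p017_k0, nat_lit 0, nat_lit 0, nat_lit 356, nat_lit 0, nat_lit 280263, [nat_lit 3282000000, nat_lit 6250000000, nat_lit 9842000000], [], [nat_lit 24817103372, nat_lit 26367853819, nat_lit 22918099276, nat_lit 24284524914], nat_lit 1271250, nat_lit 1271250, nat_lit 382400, nat_lit 780000, nat_lit 0, nat_lit 0, [nat_lit 780000, nat_lit 1435000, nat_lit 1271250], [nat_lit 8, nat_lit 40, nat_lit 80, nat_lit 80, nat_lit 1, nat_lit 238, nat_lit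 30, nat_lit 7]⟩,
 zbF0, [⟨nat_lit 0, nat_lit 100, nat_lit 100, nat_lit 90, nat_lit 950605996⟩]⟩
noncomputable def p017_l164 : Lf2 := ⟨nat_lit 0, nat_lit 10, [nat_lit 0, nat_lit 5, nat_lit 5, nat_lit 20], false, nat_lit 0, nat_lit 0, nat_lit 0, nat_lit 0, ⟨nat_lit 1000, nat_lit 0, nat_lit 0, nat_lit 0, nat_lit 0, nat_lit 0, nat_lit 0, nat_lit 0, nat_lit 0, nat_lit 0, nat_lit 0, nat_lit 0, nat_lit 0, nat_lit 0, nat_lit 0, nat_lit 0, false, false⟩,
 nat_lit 14141, nat_lit 0, nat_lit 0, nat_lit 0, nat_lit 9789, nat_lit 8998, nat_lit 532, nat_lit 0, nat_lit 0, nat_lit 1020, nat_lit 0, nat_lit 0, nat_lit 0, nat_lit 0, nat_lit 0, nat_lit 0, nat_lit 0, nat_lit 0, [],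
 ⟨p017_k18, nat_lit 0, nat_lit 0, nat_lit 373, nat_lit 0, nat_lit 433377, [nat_lit 3282000000, nat_lit 6250000000, nat_lit 7968000000], [], [nat_lit 25666363996, nat_lit 27188592536, nat_lit 24988524465, nat_lit 26415630864], nat_lit 1271250, nat_lit 1271250, nat_lit 490000, nat_lit 780000, nat_lit 0, nat_lit 0, [nat_lit 780000, nat_lit 1435000, nat_lit 1271250], [nat_lit 18, nat_lit 40, nat_lit 80, nat_lit 80, nat_lit 2, nat_lit 238, nat_lit 30, nat_lit 8]⟩, ⟨p017_k0, nat_lit 0, nat_lit 0, nat_lit 461, nat_lit 0, nat_lit 480061, [nat_lit 3282000000, nat_lit 6250000000, nat_lit 9842000000], [], [nat_lit 25234235224, nat_lit 27944775344, nat_lit 24617182580, nat_lit 27163537240], nat_lit 1271250, nat_lit 1271250, nat_lit 490000, nat_lit 780000, nat_lit 0, nat_lit 0, [nat_lit 780000, nat_lit 1435000, nat_lit 1271250], [nat_lit 8, nat_lit 40, nat_lit 80, nat_lit 80, nat_lit 1, nat_lit 238, nat_lit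 30, nat_lit 7]⟩,
 zbF0, [⟨nat_lit 0, nat_lit 97, nat_lit 93, nat_lit 100, nat_lit 827132222⟩]⟩
noncomputable def p017_l165 : Lf2 := ⟨nat_lit 0, nat_lit 10, [nat_lit 0, nat_lit 5, nat_lit 5, nat_lit 20], false, nat_lit 0, nat_lit 0, nat_lit 0, nat_lit 0, ⟨nat_lit 1000, nat_lit 0, nat_lit 0, nat_lit 0, nat_lit 0, nat_lit 0, nat_lit 0, nat_lit 0, nat_lit 0, nat_lit 0, nat_lit 0, nat_lit 0, nat_lit 0, nat_lit 0, nat_lit 0, nat_lit 0, false, false⟩,
 nat_lit 12679, nat_lit 0, nat_lit 0, nat_lit 0, nat_lit 8068, nat_lit 8068, nat_lit 563, nat_lit 0, nat_lit 0, nat_lit 1008, nat_lit 0, nat_lit 0, nat_lit 0, nat_lit 0, nat_lit 0, nat_lit 0, nat_lit 0, nat_lit 0, [],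
 ⟨p017_k0, nat_lit 0, nat_lit 0, nat_lit 334, nat_lit 0, nat_lit 280263, [nat_lit 3282000000, nat_lit 6250000000, nat_lit 9842000000], [], [nat_lit 30927335646, nat_lit 32201477426, nat_lit 44579049440, nat_lit 42487996648], nat_lit 1271250, nat_lit 1271250, nat_lit 780000, nat_lit 3072500, nat_lit 0, nat_lit 0, [nat_lit 780000, nat_lit 1435000, nat_lit 1271250], [nat_lit 8, nat_lit 40, nat_lit 80, nat_lit 80, nat_lit 1, nat_lit 317, nat_lit 100, nat_lit 9]⟩, ⟨p017_k0, nat_lit 0, nat_lit 0, nat_lit 334, nat_lit 0, nat_lit 280263, [nat_lit 3282000000, nat_lit 6250000000, nat_lit 9842000000], [], [nat_lit 27921647904, nat_lit 26508258676, nat_lit 44579049440, nat_lit 42487996648], nat_lit 1271250, nat_lit 1271250, nat_lit 780000, nat_lit 3072500, nat_lit 0, nat_lit 0, [nat_lit 780000, nat_lit 1435000, nat_lit 1271250], [nat_lit 8, nat_lit 40, nat_lit 80, nat_lit 80, nat_lit 1, nat_lit 317, nat_lit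 100, nat_lit 9]⟩,
 zbF0, []⟩
noncomputable def p017_l166 : Lf2 := ⟨nat_lit 0, nat_lit 10, [nat_lit 0, nat_lit 5, nat_lit 5, nat_lit 20], false, nat_lit 0, nat_lit 0, nat_lit 0, nat_lit 0, ⟨nat_lit 1000, nat_lit 0, nat_lit 0, nat_lit 0, nat_lit 0, nat_lit 0, nat_lit 0, nat_lit 0, nat_lit 0, nat_lit 0, nat_lit 0, nat_lit 0, nat_lit 0, nat_lit 0, nat_lit 0, nat_lit 0, false, false⟩,
 nat_lit 10610, nat_lit 0, nat_lit 0, nat_lit 0, nat_lit 7345, nat_lit 6751, nat_lit 873, nat_lit 0, nat_lit 0, nat_lit 814, nat_lit 0, nat_lit 0, nat_lit 0, nat_lit 0, nat_lit 0, nat_lit 0, nat_lit 0, nat_lit 0, [],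
 ⟨p017_k18, nat_lit 0, nat_lit 0, nat_lit 361, nat_lit 0, nat_lit 433377, [nat_lit 3282000000, nat_lit 6250000000, nat_lit 7968000000], [], [nat_lit 24314376450, nat_lit 25368240765, nat_lit 40530701170, nat_lit 41823445820], nat_lit 1271250, nat_lit 1271250, nat_lit 780000, nat_lit 3072500, nat_lit 0, nat_lit 0, [nat_lit 780000, nat_lit 1435000, nat_lit 1271250], [nat_lit 18, nat_lit 40, nat_lit 80, nat_lit 80, nat_lit 2, nat_lit 317, nat_lit 100, nat_lit 10]⟩, ⟨p017_k0, nat_lit 0, nat_lit 0, nat_lit 445, nat_lit 0, nat_lit 480061, [nat_lit 3282000000, nat_lit 6250000000, nat_lit 9842000000], [], [nat_lit 31186455158, nat_lit 32986010470, nat_lit 44784396080, nat_lit 40161578756], nat_lit 1271250, nat_lit 1271250, nat_lit 780000, nat_lit 3072500, nat_lit 0, nat_lit 0, [nat_lit 780000, nat_lit 1435000, nat_lit 1271250], [nat_lit 8, nat_lit 40, nat_lit 80, nat_lit 80, nat_lit 1, nat_lit 317,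 nat_lit 100, nat_lit 9]⟩,
 zbF0, []⟩
noncomputable def p017_l167 : Lf2 := ⟨nat_lit 0, nat_lit 10, [nat_lit 0, nat_lit 5, nat_lit 5, nat_lit 20], false, nat_lit 0, nat_lit 0, nat_lit 0, nat_lit 0, ⟨nat_lit 537, nat_lit 463, nat_lit 0, nat_lit 7, nat_lit 259, nat_lit 0, nat_lit 0, nat_lit 0, nat_lit 0, nat_lit 0, nat_lit 0, nat_lit 0, nat_lit 0, nat_lit 0, nat_lit 0, nat_lit 5000000, false, false⟩,
 nat_lit 0, nat_lit 7738, nat_lit 0, nat_lit 0, nat_lit 4923, nat_lit 2731, nat_lit 449, nat_lit 0, nat_lit 0, nat_lit 0, nat_lit 0, nat_lit 0, nat_lit 0, nat_lit 9544887625035, nat_lit 0, nat_lit 185200, nat_lit 0, nat_lit 0, [(nat_lit 12, [(nat_lit 1, nat_lit 463)])],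
 ⟨p017_k0, nat_lit 0, nat_lit 0, nat_lit 333, nat_lit 0, nat_lit 227654, [nat_lit 2720103201, nat_lit 4616165601, nat_lit 6505807200], [], [nat_lit 29291420695, nat_lit 28656114929, nat_lit 38503426243, nat_lit 37953280993], nat_lit 1271250, nat_lit 1271250, nat_lit 382400, nat_lit 2957000, nat_lit 0, nat_lit 0, [nat_lit 780000, nat_lit 1435000, nat_lit 1271250], [nat_lit 8, nat_lit 40, nat_lit 80, nat_lit 80, nat_lit 1, nat_lit 317, nat_lit 100, nat_lit 9]⟩, ⟨p017_k0, nat_lit 0, nat_lit 0, nat_lit 215, nat_lit 0, nat_lit 0, [nat_lit 1762434000, nat_lit 3356250000, nat_lit 5285154000], [], [nat_lit 15620761762, nat_lit 15820198392, nat_lit 21883633912, nat_lit 21984685406], nat_lit 0, nat_lit 0, nat_lit 0, nat_lit 0, nat_lit 0, nat_lit 0, [], [nat_lit 8, nat_lit 40, nat_lit 80, nat_lit 80, nat_lit 1, nat_lit 317, nat_lit 100, nat_lit 9]⟩,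
 ⟨nat_lit 5361, nat_lit 5478, ⟨.ofNat (nat_lit 330654), .ofNat (nat_lit 960085), .ofNat (nat_lit 335994), .ofNat (nat_lit 965425), .ofNat (nat_lit 333709), .ofNat (nat_lit 955717), .ofNat (nat_lit 339051), .ofNat (nat_lit 961059)⟩, ⟨.ofNat (nat_lit 0), .ofNat (nat_lit 0), .ofNat (nat_lit 0), .ofNat (nat_lit 0), .ofNat (nat_lit 0), .ofNat (nat_lit 0), .ofNat (nat_lit 0), .ofNat (nat_lit 0)⟩⟩, []⟩
noncomputable def p017_l168 : Lf2 := ⟨nat_lit 0, nat_lit 10, [nat_lit 0, nat_lit 5, nat_lit 5, nat_lit 20], false, nat_lit 0, nat_lit 0, nat_lit 0, nat_lit 0, ⟨nat_lit 580, nat_lit 420, nat_lit 0, nat_lit 7, nat_lit 261, nat_lit 0, nat_lit 0, nat_lit 0, nat_lit 0, nat_lit 0, nat_lit 0, nat_lit 0, nat_lit 0, nat_lit 0, nat_lit 0, nat_lit 5000000, false, false⟩,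
 nat_lit 0, nat_lit 6853, nat_lit 0, nat_lit 0, nat_lit 4455, nat_lit 2953, nat_lit 594, nat_lit 0, nat_lit 0, nat_lit 0, nat_lit 0, nat_lit 0, nat_lit 0, nat_lit 31962156960007, nat_lit 0, nat_lit 168000, nat_lit 0, nat_lit 0, [(nat_lit 12, [(nat_lit 1, nat_lit 420)])],
 ⟨p017_k29, nat_lit 0, nat_lit 0, nat_lit 360, nat_lit 0, nat_lit 308843, [nat_lit 2772288000, nat_lit 4767904000, nat_lit 6815648000], [], [nat_lit 28298358137, nat_lit 27724320249, nat_lit 38269855650, nat_lit 37772009400], nat_lit 1271250, nat_lit 1271250, nat_lit 408851, nat_lit 2965250, nat_lit 0, nat_lit 0, [nat_lit 780000, nat_lit 1435000, nat_lit 1271250], [nat_lit 8, nat_lit 40, nat_lit 80, nat_lit 80, nat_lit 1, nat_lit 317, nat_lit 100, nat_lit 9]⟩, ⟨p017_k0, nat_lit 0, nat_lit 0, nat_lit 216, nat_lit 0, nat_lit 0, [nat_lit 1903560000, nat_lit 3625000000, nat_lit 5708360000], [], [nat_lit 16784871910, nat_lit 17214891643,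 nat_lit 23639397984, nat_lit 23857757388], nat_lit 0, nat_lit 0, nat_lit 0, nat_lit 0, nat_lit 0, nat_lit 0, [], [nat_lit 8, nat_lit 40, nat_lit 80, nat_lit 80, nat_lit 1, nat_lit 317, nat_lit 100, nat_lit 9]⟩,
 ⟨nat_lit 5244, nat_lit 5362, ⟨.ofNat (nat_lit 341114), .ofNat (nat_lit 955717), .ofNat (nat_lit 351798), .ofNat (nat_lit 966402), .ofNat (nat_lit 344076), .ofNat (nat_lit 951390), .ofNat (nat_lit 354768), .ofNat (nat_lit 962082)⟩, ⟨.ofNat (nat_lit 0), .ofNat (nat_lit 0), .ofNat (nat_lit 0), .ofNat (nat_lit 0), .ofNat (nat_lit 0), .ofNat (nat_lit 0), .ofNat (nat_lit 0), .ofNat (nat_lit 0)⟩⟩, []⟩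
noncomputable def p017_l169 : Lf2 := ⟨nat_lit 1, nat_lit 10, [nat_lit 0, nat_lit 5, nat_lit 5, nat_lit 20], false, nat_lit 0, nat_lit 0, nat_lit 0, nat_lit 0, zbN0,
 nat_lit 0, nat_lit 0, nat_lit 0, nat_lit 0, nat_lit 0, nat_lit 0, nat_lit 0, nat_lit 0, nat_lit 0, nat_lit 0, nat_lit 0, nat_lit 0, nat_lit 0, nat_lit 0, nat_lit 0, nat_lit 0, nat_lit 0, nat_lit 0, [],
 C1.Rw.none, C1.Rw.none,
 zbF0, []⟩
noncomputable def p017_l170 : Lf2 := ⟨nat_lit 0, nat_lit 10, [nat_lit 0, nat_lit 5, nat_lit 5, nat_lit 20], false, nat_lit 0, nat_lit 0, nat_lit 0, nat_lit 0, ⟨nat_lit 1000, nat_lit 0, nat_lit 0, nat_lit 0, nat_lit 0, nat_lit 0, nat_lit 0, nat_lit 0, nat_lit 0, nat_lit 0, nat_lit 0, nat_lit 0, nat_lit 0, nat_lit 0, nat_lit 0, nat_lit 0, false, false⟩,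
 nat_lit 0, nat_lit 9953, nat_lit 0, nat_lit 0, nat_lit 6610, nat_lit 5094, nat_lit 915, nat_lit 0, nat_lit 0, nat_lit 0, nat_lit 0, nat_lit 0, nat_lit 0, nat_lit 36055716489891, nat_lit 0, nat_lit 0, nat_lit 0, nat_lit 0, [],
 ⟨p017_k31, nat_lit 0, nat_lit 0, nat_lit 335, nat_lit 0, nat_lit 398742, [nat_lit 3282000000, nat_lit 6250000000, nat_lit 7968000000], [], [nat_lit 27835082852, nat_lit 27468581884, nat_lit 38588423300, nat_lit 38234375535], nat_lit 1271250, nat_lit 1271250, nat_lit 435600, nat_lit 2973500, nat_lit 0, nat_lit 0, [nat_lit 780000, nat_lit 1435000, nat_lit 1271250], [nat_lit 18, nat_lit 40, nat_lit 80, nat_lit 80, nat_lit 2, nat_lit 317, nat_lit 100, nat_lit 11]⟩, ⟨p017_k0, nat_lit 0, nat_lit 0, nat_lit 216, nat_lit 0, nat_lit 0, [nat_lit 3282000000, nat_lit 6250000000, nat_lit 9842000000], [], [nat_lit 28791308494, nat_lit 29900294971, nat_lit 40760303552, nat_lit 41325112820],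 nat_lit 0, nat_lit 0, nat_lit 0, nat_lit 0, nat_lit 0, nat_lit 0, [], [nat_lit 8, nat_lit 40, nat_lit 80, nat_lit 80, nat_lit 1, nat_lit 317, nat_lit 100, nat_lit 9]⟩,
 zbF0, [⟨nat_lit 0, nat_lit 100, nat_lit 100, nat_lit 95, nat_lit 152487382⟩]⟩
noncomputable def p017_l171 : Lf2 := ⟨nat_lit 0, nat_lit 10, [nat_lit 0, nat_lit 5, nat_lit 5, nat_lit 20], false, nat_lit 0, nat_lit 0, nat_lit 0, nat_lit 0, ⟨nat_lit 1000, nat_lit 0, nat_lit 0, nat_lit 0, nat_lit 0, nat_lit 0, nat_lit 0, nat_lit 0, nat_lit 0, nat_lit 0, nat_lit 0, nat_lit 0, nat_lit 0, nat_lit 0, nat_lit 0, nat_lit 0, false, false⟩,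
 nat_lit 0, nat_lit 9461, nat_lit 0, nat_lit 0, nat_lit 6416, nat_lit 5097, nat_lit 894, nat_lit 0, nat_lit 0, nat_lit 0, nat_lit 0, nat_lit 0, nat_lit 0, nat_lit 0, nat_lit 0, nat_lit 0, nat_lit 0, nat_lit 0, [],
 ⟨p017_k32, nat_lit 0, nat_lit 0, nat_lit 386, nat_lit 0, nat_lit 475199, [nat_lit 3282000000, nat_lit 6250000000, nat_lit 7968000000], [], [nat_lit 26797260922, nat_lit 27052131425, nat_lit 37713574096, nat_lit 38015725376], nat_lit 1271250, nat_lit 1271250, nat_lit 462650, nat_lit 2981750, nat_lit 0, nat_lit 0, [nat_lit 780000, nat_lit 1435000, nat_lit 1271250], [nat_lit 18, nat_lit 40, nat_lit 80, nat_lit 80, nat_lit 2, nat_lit 317, nat_lit 100, nat_lit 11]⟩, ⟨p017_k0, nat_lit 0, nat_lit 0, nat_lit 217, nat_lit 0, nat_lit 0, [nat_lit 3282000000, nat_lit 6250000000, nat_lit 9842000000], [], [nat_lit 28642721710, nat_lit 30117724256, nat_lit 40763418176, nat_lit 41516629488], nat_lit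 0, nat_lit 0, nat_lit 0, nat_lit 0, nat_lit 0, nat_lit 0, [], [nat_lit 8, nat_lit 40, nat_lit 80, nat_lit 80, nat_lit 1, nat_lit 317, nat_lit 100, nat_lit 9]⟩,
 zbF0, [⟨nat_lit 0, nat_lit 100, nat_lit 100, nat_lit 100, nat_lit 138299011⟩]⟩
noncomputable def p017_l172 : Lf2 := ⟨nat_lit 0, nat_lit 10, [nat_lit 0, nat_lit 5, nat_lit 5, nat_lit 20], false, nat_lit 0, nat_lit 0, nat_lit 0, nat_lit 0, ⟨nat_lit 679, nat_lit 321, nat_lit 0, nat_lit 7, nat_lit 264, nat_lit 0, nat_lit 0, nat_lit 0, nat_lit 0, nat_lit 0, nat_lit 0, nat_lit 0, nat_lit 0, nat_lit 0, nat_lit 0, nat_lit 5000000, false, false⟩,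
 nat_lit 0, nat_lit 7391, nat_lit 0, nat_lit 0, nat_lit 5116, nat_lit 4724, nat_lit 626, nat_lit 0, nat_lit 0, nat_lit 0, nat_lit 0, nat_lit 0, nat_lit 0, nat_lit 0, nat_lit 0, nat_lit 321000, nat_lit 0, nat_lit 0, [(nat_lit 15, [(nat_lit 2, nat_lit 321)])],
 ⟨p017_k4, nat_lit 0, nat_lit 0, nat_lit 411, nat_lit 0, nat_lit 552053, [nat_lit 2864520241, nat_lit 3879465200, nat_lit 5186470800], [], [nat_lit 28735435658, nat_lit 26724927658, nat_lit 38687040359, nat_lit 36457272687], nat_lit 1271250, nat_lit 1271250, nat_lit 490000, nat_lit 2990000, nat_lit 0, nat_lit 0, [nat_lit 780000, nat_lit 1100000, nat_lit 1785000], [nat_lit 36, nat_lit 40, nat_lit 80, nat_lit 80, nat_lit 7, nat_lit 317, nat_lit 100, nat_lit 10]⟩, ⟨p017_k1, nat_lit 0, nat_lit 0, nat_lit 206, nat_lit 0, nat_lit 0, [nat_lit 2228478000, nat_lit 3183152000, nat_lit 6682718000], [], [nat_lit 19761728648, nat_lit 20321367262, nat_lit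 28989759880, nat_lit 29273324765], nat_lit 0, nat_lit 0, nat_lit 0, nat_lit 0, nat_lit 0, nat_lit 0, [], [nat_lit 42, nat_lit 40, nat_lit 80, nat_lit 80, nat_lit 13, nat_lit 317, nat_lit 100, nat_lit 9]⟩,
 ⟨nat_lit 4472, nat_lit 5000, ⟨.ofNat (nat_lit 371392), .ofNat (nat_lit 942783), .ofNat (nat_lit 382100), .ofNat (nat_lit 953491), .ofNat (nat_lit 382295), .ofNat (nat_lit 926083), .ofNat (nat_lit 393072), .ofNat (nat_lit 936859)⟩, ⟨.ofNat (nat_lit 0), .ofNat (nat_lit 0), .ofNat (nat_lit 0), .ofNat (nat_lit 0), .ofNat (nat_lit 0), .ofNat (nat_lit 0), .ofNat (nat_lit 0), .ofNat (nat_lit 0)⟩⟩, []⟩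
noncomputable def p017_l173 : Lf2 := ⟨nat_lit 0, nat_lit 10, [nat_lit 0, nat_lit 5, nat_lit 5, nat_lit 20], false, nat_lit 0, nat_lit 0, nat_lit 0, nat_lit 0, ⟨nat_lit 1000, nat_lit 0, nat_lit 0, nat_lit 0, nat_lit 0, nat_lit 0, nat_lit 0, nat_lit 0, nat_lit 0, nat_lit 0, nat_lit 0, nat_lit 0, nat_lit 0, nat_lit 0, nat_lit 0, nat_lit 0, false, false⟩,
 nat_lit 0, nat_lit 7413, nat_lit 0, nat_lit 0, nat_lit 5131, nat_lit 7277, nat_lit 1407, nat_lit 0, nat_lit 0, nat_lit 0, nat_lit 0, nat_lit 0, nat_lit 0, nat_lit 0, nat_lit 0, nat_lit 0, nat_lit 0, nat_lit 0, [],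
 ⟨p017_k4, nat_lit 0, nat_lit 0, nat_lit 436, nat_lit 0, nat_lit 633843, [nat_lit 3282000000, nat_lit 4688000000, nat_lit 7968000000], [], [nat_lit 28583047567, nat_lit 26904382245, nat_lit 39828596776, nat_lit 37592291474], nat_lit 1271250, nat_lit 1271250, nat_lit 545600, nat_lit 3006500, nat_lit 0, nat_lit 0, [nat_lit 780000, nat_lit 1100000, nat_lit 1785000], [nat_lit 36, nat_lit 40, nat_lit 80, nat_lit 80, nat_lit 7, nat_lit 317, nat_lit 100, nat_lit 10]⟩, ⟨p017_k3, nat_lit 0, nat_lit 0, nat_lit 186, nat_lit 0, nat_lit 0, [nat_lit 3282000000, nat_lit 4688000000, nat_lit 7968000000], [], [nat_lit 24997210418, nat_lit 25932911527, nat_lit 40328084477, nat_lit 40804168542], nat_lit 0, nat_lit 0, nat_lit 0, nat_lit 0, nat_lit 0, nat_lit 0, [], [nat_lit 36, nat_lit 40, nat_lit 80, nat_lit 80, nat_lit 7, nat_lit 317, nat_lit 100, nat_lit 10]⟩,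
 zbF0, [⟨nat_lit 0, nat_lit 94, nat_lit 87, nat_lit 100, nat_lit 71390407⟩]⟩
noncomputable def p017_l174 : Lf2 := ⟨nat_lit 0, nat_lit 10, [nat_lit 0, nat_lit 5, nat_lit 5, nat_lit 20], false, nat_lit 0, nat_lit 0, nat_lit 0, nat_lit 0, ⟨nat_lit 1000, nat_lit 0, nat_lit 0, nat_lit 0, nat_lit 0, nat_lit 0, nat_lit 0, nat_lit 0, nat_lit 0, nat_lit 0, nat_lit 0, nat_lit 0, nat_lit 0, nat_lit 0, nat_lit 0, nat_lit 0, false, false⟩,
 nat_lit 0, nat_lit 7793, nat_lit 0, nat_lit 0, nat_lit 5395, nat_lit 7132, nat_lit 1424, nat_lit 0, nat_lit 0, nat_lit 0, nat_lit 0, nat_lit 0, nat_lit 0, nat_lit 33573945361014, nat_lit 0, nat_lit 0, nat_lit 0, nat_lit 0, [],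
 ⟨p017_k4, nat_lit 0, nat_lit 0, nat_lit 431, nat_lit 0, nat_lit 636198, [nat_lit 3282000000, nat_lit 4688000000, nat_lit 7968000000], [], [nat_lit 26837395743, nat_lit 25447197372, nat_lit 37002656930, nat_lit 35812126095], nat_lit 1271250, nat_lit 1271250, nat_lit 631250, nat_lit 3031250, nat_lit 0, nat_lit 0, [nat_lit 780000, nat_lit 1100000, nat_lit 1785000], [nat_lit 36, nat_lit 40, nat_lit 80, nat_lit 80, nat_lit 7, nat_lit 317, nat_lit 100, nat_lit 10]⟩, ⟨p017_k4, nat_lit 0, nat_lit 0, nat_lit 187, nat_lit 0, nat_lit 0, [nat_lit 3282000000, nat_lit 4688000000, nat_lit 7968000000], [], [nat_lit 26072426406, nat_lit 26980174569, nat_lit 40651128872, nat_lit 41123175412], nat_lit 0, nat_lit 0, nat_lit 0, nat_lit 0, nat_lit 0, nat_lit 0, [], [nat_lit 36, nat_lit 40, nat_lit 80, nat_lit 80, nat_lit 7, nat_lit 317, nat_lit 100, nat_lit 10]⟩,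
 zbF0, [⟨nat_lit 0, nat_lit 91, nat_lit 91, nat_lit 100, nat_lit 67454257⟩]⟩
noncomputable def p017_l175 : Lf2 := ⟨nat_lit 0, nat_lit 10, [nat_lit 0, nat_lit 5, nat_lit 5, nat_lit 20], false, nat_lit 0, nat_lit 0, nat_lit 0, nat_lit 0, ⟨nat_lit 1000, nat_lit 0, nat_lit 0, nat_lit 0, nat_lit 0, nat_lit 0, nat_lit 0, nat_lit 0, nat_lit 0, nat_lit 0, nat_lit 0, nat_lit 0, nat_lit 0, nat_lit 0, nat_lit 0, nat_lit 0, false, false⟩,
 nat_lit 0, nat_lit 6937, nat_lit 0, nat_lit 0, nat_lit 5001, nat_lit 6988, nat_lit 1435, nat_lit 0, nat_lit 0, nat_lit 0, nat_lit 0, nat_lit 0, nat_lit 0, nat_lit 0, nat_lit 0, nat_lit 0, nat_lit 0, nat_lit 0, [],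
 ⟨p017_k14, nat_lit 0, nat_lit 0, nat_lit 508, nat_lit 0, nat_lit 769824, [nat_lit 3282000000, nat_lit 4688000000, nat_lit 7968000000], [], [nat_lit 26345148821, nat_lit 26739723688, nat_lit 35390196061, nat_lit 35266870520], nat_lit 1271250, nat_lit 1271250, nat_lit 689850, nat_lit 3047750, nat_lit 0, nat_lit 0, [nat_lit 780000, nat_lit 1100000, nat_lit 1785000], [nat_lit 36, nat_lit 40, nat_lit 80, nat_lit 80, nat_lit 7, nat_lit 317, nat_lit 100, nat_lit 10]⟩, ⟨p017_k4, nat_lit 0, nat_lit 0, nat_lit 189, nat_lit 0, nat_lit 0, [nat_lit 3282000000, nat_lit 4688000000, nat_lit 7968000000], [], [nat_lit 26213947217, nat_lit 27985324001, nat_lit 40499144648, nat_lit 41435218368], nat_lit 0, nat_lit 0, nat_lit 0, nat_lit 0, nat_lit 0, nat_lit 0, [], [nat_lit 36, nat_lit 40, nat_lit 80, nat_lit 80, nat_lit 7, nat_lit 317, nat_lit 100, nat_lit 10]⟩,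
 zbF0, [⟨nat_lit 0, nat_lit 83, nat_lit 83, nat_lit 100, nat_lit 109086793⟩]⟩
noncomputable def p017_l176 : Lf2 := ⟨nat_lit 0, nat_lit 10, [nat_lit 0, nat_lit 5, nat_lit 5, nat_lit 20], false, nat_lit 0, nat_lit 0, nat_lit 0, nat_lit 0, ⟨nat_lit 438, nat_lit 562, nat_lit 0, nat_lit 7, nat_lit 260, nat_lit 0, nat_lit 0, nat_lit 0, nat_lit 0, nat_lit 0, nat_lit 0, nat_lit 0, nat_lit 0, nat_lit 0, nat_lit 0, nat_lit 5000000, false, false⟩,
 nat_lit 7498, nat_lit 0, nat_lit 0, nat_lit 0, nat_lit 4771, nat_lit 3302, nat_lit 390, nat_lit 0, nat_lit 0, nat_lit 237, nat_lit 0, nat_lit 0, nat_lit 0, nat_lit 15814811596197, nat_lit 0, nat_lit 224800, nat_lit 0, nat_lit 0, [(nat_lit 12, [(nat_lit 1, nat_lit 562)])],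
 ⟨p017_k0, nat_lit 0, nat_lit 0, nat_lit 317, nat_lit 0, nat_lit 179917, [nat_lit 2599956800, nat_lit 4266814400, nat_lit 5792452800], [], [nat_lit 28725395303, nat_lit 28291813106, nat_lit 37778501280, nat_lit 36712182780], nat_lit 1271250, nat_lit 1271250, nat_lit 382400, nat_lit 2957000, nat_lit 0, nat_lit 0, [nat_lit 780000, nat_lit 1435000, nat_lit 1271250], [nat_lit 8, nat_lit 40, nat_lit 80, nat_lit 80, nat_lit 1, nat_lit 317, nat_lit 100, nat_lit 9]⟩, ⟨p017_k0, nat_lit 0, nat_lit 0, nat_lit 317, nat_lit 0, nat_lit 179917, [nat_lit 1437516000, nat_lit 2737500000, nat_lit 4310796000], [], [nat_lit 14434817650, nat_lit 14722932408, nat_lit 17833883416, nat_lit 17695304810], nat_lit 1271250, nat_lit 1271250, nat_lit 382400, nat_lit 2957000, nat_lit 0, nat_lit 0, [nat_lit 780000, nat_lit 1435000, nat_lit 1271250], [nat_lit 8, nat_lit 40, nat_lit 80, nat_lit 80, nat_lit 1, nat_lit 317, nat_lit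 100, nat_lit 9]⟩,
 ⟨nat_lit 5244, nat_lit 5478, ⟨.ofNat (nat_lit 330654), .ofNat (nat_lit 960065), .ofNat (nat_lit 341333), .ofNat (nat_lit 970743), .ofNat (nat_lit 336758), .ofNat (nat_lit 951369), .ofNat (nat_lit 347451), .ofNat (nat_lit 962061)⟩, ⟨.ofNat (nat_lit 0), .ofNat (nat_lit 0), .ofNat (nat_lit 0), .ofNat (nat_lit 0), .ofNat (nat_lit 0), .ofNat (nat_lit 0), .ofNat (nat_lit 0), .ofNat (nat_lit 0)⟩⟩, []⟩
noncomputable def p017_l177 : Lf2 := ⟨nat_lit 0, nat_lit 10, [nat_lit 0, nat_lit 5, nat_lit 5, nat_lit 20], false, nat_lit 0, nat_lit 0, nat_lit 0, nat_lit 0, ⟨nat_lit 571, nat_lit 429, nat_lit 0, nat_lit 7, nat_lit 265, nat_lit 0, nat_lit 0, nat_lit 0, nat_lit 0, nat_lit 0, nat_lit 0, nat_lit 0, nat_lit 0, nat_lit 0, nat_lit 0, nat_lit 5000000, false, false⟩,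
 nat_lit 5999, nat_lit 2217, nat_lit 0, nat_lit 0, nat_lit 5456, nat_lit 3817, nat_lit 237, nat_lit 0, nat_lit 0, nat_lit 596, nat_lit 0, nat_lit 0, nat_lit 0, nat_lit 0, nat_lit 0, nat_lit 107250, nat_lit 0, nat_lit 0, [(nat_lit 12, [(nat_lit 0, nat_lit 429)])],
 ⟨p017_k31, nat_lit 0, nat_lit 0, nat_lit 293, nat_lit 0, nat_lit 266060, [nat_lit 2888178000, nat_lit 4802210801, nat_lit 5932995600], [], [nat_lit 27119132457, nat_lit 27726683410, nat_lit 37473582582, nat_lit 37033729280], nat_lit 1271250, nat_lit 1271250, nat_lit 435600, nat_lit 2973500, nat_lit 0, nat_lit 0, [nat_lit 780000, nat_lit 1435000, nat_lit 1271250], [nat_lit 18, nat_lit 40, nat_lit 80, nat_lit 80, nat_lit 2, nat_lit 317, nat_lit 100, nat_lit 11]⟩, ⟨p017_k0, nat_lit 0, nat_lit 0, nat_lit 350, nat_lit 0, nat_lit 280263, [nat_lit 1874022000, nat_lit 3568750000, nat_lit 5619782000], [], [nat_lit 17342493503, nat_lit 15770684133,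 nat_lit 23840139212, nat_lit 22133940212], nat_lit 1271250, nat_lit 1271250, nat_lit 435600, nat_lit 2973500, nat_lit 0, nat_lit 0, [nat_lit 780000, nat_lit 1435000, nat_lit 1271250], [nat_lit 8, nat_lit 40, nat_lit 80, nat_lit 80, nat_lit 1, nat_lit 317, nat_lit 100, nat_lit 9]⟩,
 ⟨nat_lit 5000, nat_lit 5245, ⟨.ofNat (nat_lit 351391), .ofNat (nat_lit 951373), .ofNat (nat_lit 372775), .ofNat (nat_lit 972755), .ofNat (nat_lit 357140), .ofNat (nat_lit 942832), .ofNat (nat_lit 378567), .ofNat (nat_lit 964258)⟩, ⟨.ofNat (nat_lit 0), .ofNat (nat_lit 0), .ofNat (nat_lit 0), .ofNat (nat_lit 0), .ofNat (nat_lit 0), .ofNat (nat_lit 0), .ofNat (nat_lit 0), .ofNat (nat_lit 0)⟩⟩, []⟩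
noncomputable def p017_l178 : Lf2 := ⟨nat_lit 0, nat_lit 10, [nat_lit 0, nat_lit 5, nat_lit 5, nat_lit 20], false, nat_lit 0, nat_lit 0, nat_lit 0, nat_lit 0, ⟨nat_lit 580, nat_lit 420, nat_lit 0, nat_lit 7, nat_lit 269, nat_lit 0, nat_lit 0, nat_lit 0, nat_lit 0, nat_lit 0, nat_lit 0, nat_lit 0, nat_lit 0, nat_lit 0, nat_lit 0, nat_lit 5000000, false, false⟩,
 nat_lit 7260, nat_lit 0, nat_lit 0, nat_lit 0, nat_lit 5025, nat_lit 4619, nat_lit 230, nat_lit 0, nat_lit 0, nat_lit 566, nat_lit 0, nat_lit 0, nat_lit 0, nat_lit 11377410485013, nat_lit 0, nat_lit 420000, nat_lit 0, nat_lit 0, [(nat_lit 15, [(nat_lit 2, nat_lit 420)])],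
 ⟨p017_k18, nat_lit 0, nat_lit 0, nat_lit 318, nat_lit 0, nat_lit 343476, [nat_lit 2791272000, nat_lit 4065160000, nat_lit 4328616000], [], [nat_lit 27305150900, nat_lit 27759281825, nat_lit 35586907600, nat_lit 34791340775], nat_lit 1271250, nat_lit 1271250, nat_lit 490000, nat_lit 2990000, nat_lit 0, nat_lit 0, [nat_lit 780000, nat_lit 1435000, nat_lit 1271250], [nat_lit 18, nat_lit 40, nat_lit 80, nat_lit 80, nat_lit 2, nat_lit 317, nat_lit 100, nat_lit 10]⟩, ⟨p017_k0, nat_lit 0, nat_lit 0, nat_lit 424, nat_lit 0, nat_lit 380476, [nat_lit 1903560000, nat_lit 3625000000, nat_lit 5708360000], [], [nat_lit 16375315112, nat_lit 16822200524, nat_lit 24149602480, nat_lit 24870564469], nat_lit 1271250, nat_lit 1271250, nat_lit 490000, nat_lit 2990000, nat_lit 0, nat_lit 0, [nat_lit 780000, nat_lit 1435000, nat_lit 1271250], [nat_lit 8, nat_lit 40, nat_lit 80, nat_lit 80, nat_lit 1, nat_lit 317,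 nat_lit 100, nat_lit 9]⟩,
 ⟨nat_lit 4743, nat_lit 5000, ⟨.ofNat (nat_lit 371422), .ofNat (nat_lit 942836), .ofNat (nat_lit 403560), .ofNat (nat_lit 974975), .ofNat (nat_lit 376847), .ofNat (nat_lit 934430), .ofNat (nat_lit 409074), .ofNat (nat_lit 966658)⟩, ⟨.ofNat (nat_lit 0), .ofNat (nat_lit 0), .ofNat (nat_lit 0), .ofNat (nat_lit 0), .ofNat (nat_lit 0), .ofNat (nat_lit 0), .ofNat (nat_lit 0), .ofNat (nat_lit 0)⟩⟩, []⟩
noncomputable def p017_l179 : Lf2 := ⟨nat_lit 0, nat_lit 10, [nat_lit 0, nat_lit 5, nat_lit 5, nat_lit 20], false, nat_lit 0, nat_lit 0, nat_lit 0, nat_lit 0, ⟨nat_lit 730, nat_lit 270, nat_lit 0, nat_lit 7, nat_lit 273, nat_lit 0, nat_lit 0, nat_lit 0, nat_lit 0, nat_lit 0, nat_lit 0, nat_lit 0, nat_lit 0, nat_lit 0, nat_lit 0, nat_lit 5000000, false, false⟩,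
 nat_lit 8154, nat_lit 0, nat_lit 0, nat_lit 0, nat_lit 5878, nat_lit 5188, nat_lit 768, nat_lit 0, nat_lit 0, nat_lit 500, nat_lit 0, nat_lit 0, nat_lit 0, nat_lit 7044226540205, nat_lit 0, nat_lit 108000, nat_lit 0, nat_lit 0, [(nat_lit 15, [(nat_lit 1, nat_lit 270)])],
 ⟨p017_k23, nat_lit 0, nat_lit 0, nat_lit 362, nat_lit 0, nat_lit 412772, [nat_lit 2941314001, nat_lit 5198314000, nat_lit 6441960000], [], [nat_lit 22749537147, nat_lit 23235152218, nat_lit 37139198538, nat_lit 37719137768], nat_lit 1271250, nat_lit 1271250, nat_lit 545600, nat_lit 3006500, nat_lit 0, nat_lit 0, [nat_lit 780000, nat_lit 1435000, nat_lit 1271250], [nat_lit 18, nat_lit 40, nat_lit 80, nat_lit 80, nat_lit 2, nat_lit 317, nat_lit 100, nat_lit 10]⟩, ⟨p017_k0, nat_lit 0, nat_lit 0, nat_lit 458, nat_lit 0, nat_lit 480061, [nat_lit 2395860000, nat_lit 4562500000, nat_lit 7184660000], [], [nat_lit 23714835996, nat_lit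 25123441377, nat_lit 31089753800, nat_lit 30044725568], nat_lit 1271250, nat_lit 1271250, nat_lit 545600, nat_lit 3006500, nat_lit 0, nat_lit 0, [nat_lit 780000, nat_lit 1435000, nat_lit 1271250], [nat_lit 8, nat_lit 40, nat_lit 80, nat_lit 80, nat_lit 1, nat_lit 317, nat_lit 100, nat_lit 9]⟩,
 ⟨nat_lit 4472, nat_lit 4744, ⟨.ofNat (nat_lit 390781), .ofNat (nat_lit 934435), .ofNat (nat_lit 433750), .ofNat (nat_lit 977404), .ofNat (nat_lit 395915), .ofNat (nat_lit 926140), .ofNat (nat_lit 439041), .ofNat (nat_lit 969266)⟩, ⟨.ofNat (nat_lit 0), .ofNat (nat_lit 0), .ofNat (nat_lit 0), .ofNat (nat_lit 0), .ofNat (nat_lit 0), .ofNat (nat_lit 0), .ofNat (nat_lit 0), .ofNat (nat_lit 0)⟩⟩, []⟩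
noncomputable def b_N_700_700_0_9 : St := ⟨false, nat_lit 2, nat_lit 2, nat_lit 0, nat_lit 40, nat_lit 280, nat_lit 320, nat_lit 280, nat_lit 320, nat_lit 64, nat_lit 400, nat_lit 0, nat_lit 0, nat_lit 0, nat_lit 0, nat_lit 0, nat_lit 0, nat_lit 80, nat_lit 120, nat_lit 0, nat_lit 0, nat_lit 0, nat_lit 0⟩
theorem d_N_700_700_0_9 (h : EB TB.env) : Dead b_N_700_700_0_9 := chkB_sound0 h (T :=
(.st (nat_lit 0)
(.gv
(.st (nat_lit 1)
(.leaf p017_l144)
(.spl (nat_lit 2) (nat_lit 240)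
(.spl (nat_lit 0) (nat_lit 300)
(.ord (.spl (nat_lit 2) (nat_lit 120)
(.leaf p017_l145)
(.leaf p017_l146)))
(.trZ (nat_lit 0) (nat_lit 100) (nat_lit 94) (nat_lit 88) (nat_lit 80) (.spl (nat_lit 1) (nat_lit 300)
(.leaf p017_l147)
(.trZ (nat_lit 0) (nat_lit 100) (nat_lit 100) (nat_lit 100) (nat_lit 100) (.leaf p017_l148)))))
(.spl (nat_lit 0) (nat_lit 300)
(.ord (.leaf p017_l149))
(.leaf p017_l150))))
(.st (nat_lit 1)
(.leaf p017_l151)
(.spl (nat_lit 2) (nat_lit 240)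
(.leaf p017_l152)
(.spl (nat_lit 0) (nat_lit 300)
(.ord (.leaf p017_l153))
(.leaf p017_l154)))))
(.gv
(.st (nat_lit 1)
(.spl (nat_lit 0) (nat_lit 300)
(.ord (.spl (nat_lit 0) (nat_lit 290)
(.ord (.spl (nat_lit 6) (nat_lit 100)
(.spl (nat_lit 0) (nat_lit 285)
(.ord (.leaf p017_l155))
(.trZ (nat_lit 0) (nat_lit 100) (nat_lit 99) (nat_lit 82) (nat_lit 68) (.leaf p017_l156)))
(.leaf p017_l157)))
(.trZ (nat_lit 0) (nat_lit 100) (nat_lit 97) (nat_lit 84) (nat_lit 72) (.spl (nat_lit 0) (nat_lit 295)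
(.ord (.leaf p017_l158))
(.trZ (nat_lit 0) (nat_lit 100) (nat_lit 96) (nat_lit 86) (nat_lit 76) (.leaf p017_l159))))))
(.trZ (nat_lit 0) (nat_lit 100) (nat_lit 94) (nat_lit 88) (nat_lit 80) (.spl (nat_lit 2) (nat_lit 240)
(.spl (nat_lit 0) (nat_lit 310)
(.ord (.leaf p017_l160))
(.trZ (nat_lit 0) (nat_lit 100) (nat_lit 91) (nat_lit 91) (nat_lit 88) (.leaf p017_l161)))
(.leaf p017_l162))))
(.spl (nat_lit 2) (nat_lit 120)
(.spl (nat_lit 0) (nat_lit 300)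
(.ord (.leaf p017_l163))
(.trZ (nat_lit 0) (nat_lit 100) (nat_lit 94) (nat_lit 88) (nat_lit 80) (.leaf p017_l164)))
(.spl (nat_lit 0) (nat_lit 300)
(.ord (.leaf p017_l165))
(.leaf p017_l166))))
(.st (nat_lit 1)
(.spl (nat_lit 1) (nat_lit 300)
(.spl (nat_lit 0) (nat_lit 300)
(.spl (nat_lit 0) (nat_lit 290)
(.ord (.spl (nat_lit 6) (nat_lit 100)
(.spl (nat_lit 0) (nat_lit 285)
(.ord (.leaf p017_l167))
(.trZ (nat_lit 0) (nat_lit 100) (nat_lit 99) (nat_lit 82) (nat_lit 68) (.leaf p017_l168)))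
(.leaf p017_l169)))
(.trZ (nat_lit 0) (nat_lit 100) (nat_lit 97) (nat_lit 84) (nat_lit 72) (.spl (nat_lit 0) (nat_lit 295)
(.ord (.leaf p017_l170))
(.trZ (nat_lit 0) (nat_lit 100) (nat_lit 96) (nat_lit 86) (nat_lit 76) (.leaf p017_l171)))))
(.trZ (nat_lit 0) (nat_lit 100) (nat_lit 94) (nat_lit 88) (nat_lit 80) (.spl (nat_lit 1) (nat_lit 290)
(.leaf p017_l172)
(.trZ (nat_lit 0) (nat_lit 100) (nat_lit 97) (nat_lit 94) (nat_lit 88) (.leaf p017_l173)))))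
(.ord (.trZ (nat_lit 0) (nat_lit 100) (nat_lit 100) (nat_lit 100) (nat_lit 100) (.spl (nat_lit 0) (nat_lit 310)
(.ord (.leaf p017_l174))
(.trZ (nat_lit 0) (nat_lit 97) (nat_lit 93) (nat_lit 100) (nat_lit 108) (.leaf p017_l175))))))
(.spl (nat_lit 0) (nat_lit 300)
(.ord (.spl (nat_lit 0) (nat_lit 290)
(.ord (.leaf p017_l176))
(.trZ (nat_lit 0) (nat_lit 100) (nat_lit 97) (nat_lit 84) (nat_lit 72) (.leaf p017_l177))))
(.trZ (nat_lit 0) (nat_lit 100) (nat_lit 94) (nat_lit 88) (nat_lit 80) (.spl (nat_lit 0) (nat_lit 310)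
(.ord (.leaf p017_l178))
(.trZ (nat_lit 0) (nat_lit 100) (nat_lit 91) (nat_lit 91) (nat_lit 88) (.leaf p017_l179))))))))) (by decide +kernel)
noncomputable def p017_l180 : Lf2 := ⟨nat_lit 0, nat_lit 10, [nat_lit 0, nat_lit 5, nat_lit 5, nat_lit 20], false, nat_lit 0, nat_lit 0, nat_lit 0, nat_lit 0, ⟨nat_lit 1000, nat_lit 0, nat_lit 0, nat_lit 0, nat_lit 0, nat_lit 0, nat_lit 0, nat_lit 0, nat_lit 0, nat_lit 0, nat_lit 0, nat_lit 0, nat_lit 0, nat_lit 0, nat_lit 0, nat_lit 0, false, false⟩,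
 nat_lit 0, nat_lit 0, nat_lit 0, nat_lit 0, nat_lit 6623, nat_lit 6390, nat_lit 0, nat_lit 0, nat_lit 0, nat_lit 0, nat_lit 0, nat_lit 0, nat_lit 0, nat_lit 0, nat_lit 0, nat_lit 0, nat_lit 0, nat_lit 0, [],
 ⟨p017_k1, nat_lit 0, nat_lit 0, nat_lit 209, nat_lit 0, nat_lit 0, [nat_lit 3282000000, nat_lit 4688000000, nat_lit 9842000000], [], [nat_lit 30182607370, nat_lit 33730749302, nat_lit 42347723584, nat_lit 43988727200], nat_lit 0, nat_lit 0, nat_lit 0, nat_lit 0, nat_lit 0, nat_lit 0, [], [nat_lit 42, nat_lit 40, nat_lit 80, nat_lit 80, nat_lit 13, nat_lit 317, nat_lit 100, nat_lit 9]⟩, ⟨p017_k1, nat_lit 0, nat_lit 0, nat_lit 209, nat_lit 0, nat_lit 0, [nat_lit 3282000000, nat_lit 4688000000, nat_lit 9842000000], [], [nat_lit 30320236928, nat_lit 33519045688, nat_lit 42105821120, nat_lit 43726276000], nat_lit 0, nat_lit 0, nat_lit 0, nat_lit 0, nat_lit 0, nat_lit 0, [], [nat_lit 42, nat_lit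 40, nat_lit 80, nat_lit 80, nat_lit 13, nat_lit 317, nat_lit 100, nat_lit 9]⟩,
 zbF0, []⟩
noncomputable def p017_l181 : Lf2 := ⟨nat_lit 1, nat_lit 10, [nat_lit 0, nat_lit 5, nat_lit 5, nat_lit 20], false, nat_lit 0, nat_lit 0, nat_lit 0, nat_lit 0, zbN0,
 nat_lit 0, nat_lit 0, nat_lit 0, nat_lit 0, nat_lit 0, nat_lit 0, nat_lit 0, nat_lit 0, nat_lit 0, nat_lit 0, nat_lit 0, nat_lit 0, nat_lit 0, nat_lit 0, nat_lit 0, nat_lit 0, nat_lit 0, nat_lit 0, [],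
 C1.Rw.none, C1.Rw.none,
 zbF0, []⟩
noncomputable def p017_l182 : Lf2 := ⟨nat_lit 0, nat_lit 10, [nat_lit 0, nat_lit 5, nat_lit 5, nat_lit 20], false, nat_lit 0, nat_lit 0, nat_lit 0, nat_lit 0, ⟨nat_lit 1000, nat_lit 0, nat_lit 0, nat_lit 0, nat_lit 0, nat_lit 0, nat_lit 0, nat_lit 0, nat_lit 0, nat_lit 0, nat_lit 0, nat_lit 0, nat_lit 0, nat_lit 0, nat_lit 0, nat_lit 0, false, false⟩,
 nat_lit 0, nat_lit 0, nat_lit 9390, nat_lit 0, nat_lit 6930, nat_lit 5975, nat_lit 0, nat_lit 0, nat_lit 0, nat_lit 0, nat_lit 0, nat_lit 0, nat_lit 0, nat_lit 0, nat_lit 0, nat_lit 0, nat_lit 0, nat_lit 0, [],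
 ⟨p017_k4, nat_lit 0, nat_lit 0, nat_lit 189, nat_lit 0, nat_lit 0, [nat_lit 3282000000, nat_lit 4688000000, nat_lit 7968000000], [], [nat_lit 26209380280, nat_lit 28045079160, nat_lit 40437928780, nat_lit 41370772480], nat_lit 0, nat_lit 0, nat_lit 0, nat_lit 0, nat_lit 0, nat_lit 0, [], [nat_lit 36, nat_lit 40, nat_lit 80, nat_lit 80, nat_lit 7, nat_lit 317, nat_lit 100, nat_lit 10]⟩, ⟨p017_k1, nat_lit 0, nat_lit 0, nat_lit 348, nat_lit 0, nat_lit 309141, [nat_lit 3282000000, nat_lit 4688000000, nat_lit 9842000000], [], [nat_lit 41184163700, nat_lit 42922138700, nat_lit 49266240000, nat_lit 48773288300], nat_lit 1271250, nat_lit 1271250, nat_lit 490000, nat_lit 2990000, nat_lit 0, nat_lit 0, [nat_lit 780000, nat_lit 1100000, nat_lit 2127500], [nat_lit 42, nat_lit 40, nat_lit 80, nat_lit 80, nat_lit 13, nat_lit 317, nat_lit 100, nat_lit 9]⟩,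
 zbF0, [⟨nat_lit 0, nat_lit 83, nat_lit 83, nat_lit 100, nat_lit 232229943⟩]⟩
noncomputable def p017_l183 : Lf2 := ⟨nat_lit 0, nat_lit 10, [nat_lit 0, nat_lit 5, nat_lit 5, nat_lit 20], false, nat_lit 0, nat_lit 0, nat_lit 0, nat_lit 0, ⟨nat_lit 471, nat_lit 529, nat_lit 0, nat_lit 7, nat_lit 266, nat_lit 0, nat_lit 0, nat_lit 0, nat_lit 0, nat_lit 0, nat_lit 0, nat_lit 0, nat_lit 0, nat_lit 0, nat_lit 0, nat_lit 5000000, false, false⟩,
 nat_lit 0, nat_lit 0, nat_lit 4349, nat_lit 0, nat_lit 5133, nat_lit 2767, nat_lit 0, nat_lit 0, nat_lit 0, nat_lit 0, nat_lit 0, nat_lit 0, nat_lit 0, nat_lit 0, nat_lit 0, nat_lit 132250, nat_lit 0, nat_lit 0, [(nat_lit 12, [(nat_lit 0, nat_lit 529)]), (nat_lit 15, [(nat_lit 0, nat_lit 529)])],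
 ⟨p017_k1, nat_lit 0, nat_lit 0, nat_lit 209, nat_lit 0, nat_lit 0, [nat_lit 2796378001, nat_lit 3660258801, nat_lit 6430324520], [], [nat_lit 26914669957, nat_lit 29431773312, nat_lit 37389118184, nat_lit 38898715720], nat_lit 0, nat_lit 0, nat_lit 0, nat_lit 0, nat_lit 0, nat_lit 0, [], [nat_lit 42, nat_lit 40, nat_lit 80, nat_lit 80, nat_lit 13, nat_lit 317, nat_lit 100, nat_lit 9]⟩, ⟨p017_k1, nat_lit 0, nat_lit 0, nat_lit 359, nat_lit 0, nat_lit 309141, [nat_lit 1545822000, nat_lit 2208048000, nat_lit 4635582000], [], [nat_lit 19760684011, nat_lit 20583915483, nat_lit 24761775620, nat_lit 22991965984], nat_lit 1271250, nat_lit 1271250, nat_lit 382400, nat_lit 2957000, nat_lit 0, nat_lit 0, [nat_lit 780000, nat_lit 1100000, nat_lit 2127500], [nat_lit 42, nat_lit 40, nat_lit 80, nat_lit 80, nat_lit 13, nat_lit 317, nat_lit 100, nat_lit 9]⟩,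
 ⟨nat_lit 4472, nat_lit 5478, ⟨.ofNat (nat_lit 330579), .ofNat (nat_lit 959740), .ofNat (nat_lit 373223), .ofNat (nat_lit 1002365), .ofNat (nat_lit 355064), .ofNat (nat_lit 925804), .ofNat (nat_lit 398126), .ofNat (nat_lit 968848)⟩, ⟨.ofNat (nat_lit 0), .ofNat (nat_lit 0), .ofNat (nat_lit 0), .ofNat (nat_lit 0), .ofNat (nat_lit 0), .ofNat (nat_lit 0), .ofNat (nat_lit 0), .ofNat (nat_lit 0)⟩⟩, []⟩
noncomputable def p017_l184 : Lf2 := ⟨nat_lit 1, nat_lit 10, [nat_lit 0, nat_lit 5, nat_lit 5, nat_lit 20], false, nat_lit 0, nat_lit 0, nat_lit 0, nat_lit 0, zbN0,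
 nat_lit 0, nat_lit 0, nat_lit 0, nat_lit 0, nat_lit 0, nat_lit 0, nat_lit 0, nat_lit 0, nat_lit 0, nat_lit 0, nat_lit 0, nat_lit 0, nat_lit 0, nat_lit 0, nat_lit 0, nat_lit 0, nat_lit 0, nat_lit 0, [],
 C1.Rw.none, C1.Rw.none,
 zbF0, []⟩
noncomputable def p017_l185 : Lf2 := ⟨nat_lit 0, nat_lit 10, [nat_lit 0, nat_lit 5, nat_lit 5, nat_lit 20], false, nat_lit 0, nat_lit 0, nat_lit 0, nat_lit 0, ⟨nat_lit 1000, nat_lit 0, nat_lit 0, nat_lit 0, nat_lit 0, nat_lit 0, nat_lit 0, nat_lit 0, nat_lit 0, nat_lit 0, nat_lit 0, nat_lit 0, nat_lit 0, nat_lit 0, nat_lit 0, nat_lit 0, false, false⟩,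
 nat_lit 0, nat_lit 8366, nat_lit 0, nat_lit 0, nat_lit 5791, nat_lit 6559, nat_lit 0, nat_lit 0, nat_lit 0, nat_lit 0, nat_lit 0, nat_lit 0, nat_lit 0, nat_lit 0, nat_lit 0, nat_lit 0, nat_lit 0, nat_lit 0, [],
 ⟨p017_k4, nat_lit 0, nat_lit 0, nat_lit 291, nat_lit 0, nat_lit 274265, [nat_lit 3282000000, nat_lit 4688000000, nat_lit 7968000000], [], [nat_lit 33427624392, nat_lit 34672655884, nat_lit 44815164886, nat_lit 43651565468], nat_lit 1271250, nat_lit 1271250, nat_lit 490000, nat_lit 2990000, nat_lit 0, nat_lit 0, [nat_lit 780000, nat_lit 1100000, nat_lit 1785000], [nat_lit 36, nat_lit 40, nat_lit 80, nat_lit 80, nat_lit 7, nat_lit 317, nat_lit 100, nat_lit 10]⟩, ⟨p017_k1, nat_lit 0, nat_lit 0, nat_lit 209, nat_lit 0, nat_lit 0, [nat_lit 3282000000, nat_lit 4688000000, nat_lit 9842000000], [], [nat_lit 29404538796, nat_lit 32587721272, nat_lit 42281278272, nat_lit 43916637600], nat_lit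 0, nat_lit 0, nat_lit 0, nat_lit 0, nat_lit 0, nat_lit 0, [], [nat_lit 42, nat_lit 40, nat_lit 80, nat_lit 80, nat_lit 13, nat_lit 317, nat_lit 100, nat_lit 9]⟩,
 zbF0, [⟨nat_lit 0, nat_lit 83, nat_lit 83, nat_lit 100, nat_lit 206586756⟩]⟩
noncomputable def p017_l186 : Lf2 := ⟨nat_lit 1, nat_lit 10, [nat_lit 0, nat_lit 5, nat_lit 5, nat_lit 20], false, nat_lit 0, nat_lit 0, nat_lit 0, nat_lit 0, zbN0,
 nat_lit 0, nat_lit 0, nat_lit 0, nat_lit 0, nat_lit 0, nat_lit 0, nat_lit 0, nat_lit 0, nat_lit 0, nat_lit 0, nat_lit 0, nat_lit 0, nat_lit 0, nat_lit 0, nat_lit 0, nat_lit 0, nat_lit 0, nat_lit 0, [],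
 C1.Rw.none, C1.Rw.none,
 zbF0, []⟩
noncomputable def p017_l187 : Lf2 := ⟨nat_lit 0, nat_lit 10, [nat_lit 0, nat_lit 5, nat_lit 5, nat_lit 20], false, nat_lit 0, nat_lit 0, nat_lit 0, nat_lit 0, ⟨nat_lit 1000, nat_lit 0, nat_lit 0, nat_lit 0, nat_lit 0, nat_lit 0, nat_lit 0, nat_lit 0, nat_lit 0, nat_lit 0, nat_lit 0, nat_lit 0, nat_lit 0, nat_lit 0, nat_lit 0, nat_lit 0, false, false⟩,
 nat_lit 11183, nat_lit 0, nat_lit 0, nat_lit 0, nat_lit 7742, nat_lit 7116, nat_lit 0, nat_lit 0, nat_lit 0, nat_lit 556, nat_lit 0, nat_lit 0, nat_lit 0, nat_lit 0, nat_lit 0, nat_lit 0, nat_lit 0, nat_lit 0, [],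
 ⟨p017_k18, nat_lit 0, nat_lit 0, nat_lit 258, nat_lit 0, nat_lit 149555, [nat_lit 3282000000, nat_lit 6250000000, nat_lit 7968000000], [], [nat_lit 31909024732, nat_lit 33558409496, nat_lit 42238236560, nat_lit 42934666616], nat_lit 1271250, nat_lit 1271250, nat_lit 490000, nat_lit 2990000, nat_lit 0, nat_lit 0, [nat_lit 780000, nat_lit 1435000, nat_lit 1271250], [nat_lit 18, nat_lit 40, nat_lit 80, nat_lit 80, nat_lit 2, nat_lit 317, nat_lit 100, nat_lit 10]⟩, ⟨p017_k0, nat_lit 0, nat_lit 0, nat_lit 310, nat_lit 0, nat_lit 165979, [nat_lit 3282000000, nat_lit 6250000000, nat_lit 9842000000], [], [nat_lit 31975801784, nat_lit 34498695048, nat_lit 42049205280, nat_lit 41185841288], nat_lit 1271250, nat_lit 1271250, nat_lit 490000, nat_lit 2990000, nat_lit 0, nat_lit 0, [nat_lit 780000, nat_lit 1435000, nat_lit 1271250], [nat_lit 8, nat_lit 40, nat_lit 80, nat_lit 80, nat_lit 1, nat_lit 317,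 nat_lit 100, nat_lit 9]⟩,
 zbF0, [⟨nat_lit 0, nat_lit 83, nat_lit 83, nat_lit 100, nat_lit 302896663⟩]⟩
noncomputable def p017_l188 : Lf2 := ⟨nat_lit 1, nat_lit 10, [nat_lit 0, nat_lit 5, nat_lit 5, nat_lit 20], false, nat_lit 0, nat_lit 0, nat_lit 0, nat_lit 0, zbN0,
 nat_lit 0, nat_lit 0, nat_lit 0, nat_lit 0, nat_lit 0, nat_lit 0, nat_lit 0, nat_lit 0, nat_lit 0, nat_lit 0, nat_lit 0, nat_lit 0, nat_lit 0, nat_lit 0, nat_lit 0, nat_lit 0, nat_lit 0, nat_lit 0, [],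
 C1.Rw.none, C1.Rw.none,
 zbF0, []⟩
noncomputable def p017_l189 : Lf2 := ⟨nat_lit 0, nat_lit 10, [nat_lit 0, nat_lit 5, nat_lit 5, nat_lit 20], false, nat_lit 0, nat_lit 0, nat_lit 0, nat_lit 0, ⟨nat_lit 1000, nat_lit 0, nat_lit 0, nat_lit 0, nat_lit 0, nat_lit 0, nat_lit 0, nat_lit 0, nat_lit 0, nat_lit 0, nat_lit 0, nat_lit 0, nat_lit 0, nat_lit 0, nat_lit 0, nat_lit 0, false, false⟩,
 nat_lit 0, nat_lit 8366, nat_lit 0, nat_lit 0, nat_lit 5791, nat_lit 6559, nat_lit 0, nat_lit 0, nat_lit 0, nat_lit 0, nat_lit 0, nat_lit 0, nat_lit 0, nat_lit 0, nat_lit 0, nat_lit 0, nat_lit 0, nat_lit 0, [],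
 ⟨p017_k4, nat_lit 0, nat_lit 0, nat_lit 291, nat_lit 0, nat_lit 274265, [nat_lit 3282000000, nat_lit 4688000000, nat_lit 7968000000], [], [nat_lit 33427624392, nat_lit 34672655884, nat_lit 44815164886, nat_lit 43651565468], nat_lit 1271250, nat_lit 1271250, nat_lit 490000, nat_lit 2990000, nat_lit 0, nat_lit 0, [nat_lit 780000, nat_lit 1100000, nat_lit 1785000], [nat_lit 36, nat_lit 40, nat_lit 80, nat_lit 80, nat_lit 7, nat_lit 317, nat_lit 100, nat_lit 10]⟩, ⟨p017_k1, nat_lit 0, nat_lit 0, nat_lit 209, nat_lit 0, nat_lit 0, [nat_lit 3282000000, nat_lit 4688000000, nat_lit 9842000000], [], [nat_lit 29404538796, nat_lit 32587721272, nat_lit 42281278272, nat_lit 43916637600], nat_lit 0, nat_lit 0, nat_lit 0, nat_lit 0, nat_lit 0, nat_lit 0, [], [nat_lit 42, nat_lit 40, nat_lit 80, nat_lit 80, nat_lit 13, nat_lit 317, nat_lit 100, nat_lit 9]⟩,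
 zbF0, [⟨nat_lit 0, nat_lit 83, nat_lit 83, nat_lit 100, nat_lit 206586756⟩]⟩
noncomputable def p017_l190 : Lf2 := ⟨nat_lit 1, nat_lit 10, [nat_lit 0, nat_lit 5, nat_lit 5, nat_lit 20], false, nat_lit 0, nat_lit 0, nat_lit 0, nat_lit 0, zbN0,
 nat_lit 0, nat_lit 0, nat_lit 0, nat_lit 0, nat_lit 0, nat_lit 0, nat_lit 0, nat_lit 0, nat_lit 0, nat_lit 0, nat_lit 0, nat_lit 0, nat_lit 0, nat_lit 0, nat_lit 0, nat_lit 0, nat_lit 0, nat_lit 0, [],
 C1.Rw.none, C1.Rw.none,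
 zbF0, []⟩
noncomputable def p017_l191 : Lf2 := ⟨nat_lit 0, nat_lit 10, [nat_lit 0, nat_lit 5, nat_lit 5, nat_lit 20], false, nat_lit 0, nat_lit 0, nat_lit 0, nat_lit 0, ⟨nat_lit 503, nat_lit 497, nat_lit 0, nat_lit 7, nat_lit 271, nat_lit 0, nat_lit 0, nat_lit 0, nat_lit 0, nat_lit 0, nat_lit 0, nat_lit 0, nat_lit 0, nat_lit 0, nat_lit 0, nat_lit 5000000, false, false⟩,
 nat_lit 7374, nat_lit 237, nat_lit 0, nat_lit 0, nat_lit 5269, nat_lit 4692, nat_lit 0, nat_lit 0, nat_lit 0, nat_lit 0, nat_lit 0, nat_lit 0, nat_lit 0, nat_lit 15826482503567, nat_lit 0, nat_lit 124250, nat_lit 0, nat_lit 0, [(nat_lit 15, [(nat_lit 0, nat_lit 497)])],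
 ⟨p017_k18, nat_lit 0, nat_lit 0, nat_lit 258, nat_lit 0, nat_lit 149555, [nat_lit 2803090800, nat_lit 4497975600, nat_lit 5534489200], [], [nat_lit 28916939528, nat_lit 30103500756, nat_lit 38348841320, nat_lit 38976353812], nat_lit 1271250, nat_lit 1271250, nat_lit 490000, nat_lit 2990000, nat_lit 0, nat_lit 0, [nat_lit 780000, nat_lit 1435000, nat_lit 1271250], [nat_lit 18, nat_lit 40, nat_lit 80, nat_lit 80, nat_lit 2, nat_lit 317, nat_lit 100, nat_lit 10]⟩, ⟨p017_k0, nat_lit 0, nat_lit 0, nat_lit 310, nat_lit 0, nat_lit 165979, [nat_lit 1650846000, nat_lit 3143750000, nat_lit 4950526000], [], [nat_lit 19085503740, nat_lit 20565704852, nat_lit 23266061556, nat_lit 23832138132], nat_lit 1271250, nat_lit 1271250, nat_lit 490000, nat_lit 2990000, nat_lit 0, nat_lit 0, [nat_lit 780000, nat_lit 1435000, nat_lit 1271250], [nat_lit 8, nat_lit 40, nat_lit 80, nat_lit 80, nat_lit 1, nat_lit 317,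 nat_lit 100, nat_lit 9]⟩,
 ⟨nat_lit 4472, nat_lit 5000, ⟨.ofNat (nat_lit 371392), .ofNat (nat_lit 942783), .ofNat (nat_lit 414225), .ofNat (nat_lit 985615), .ofNat (nat_lit 382295), .ofNat (nat_lit 926083), .ofNat (nat_lit 425403), .ofNat (nat_lit 969191)⟩, ⟨.ofNat (nat_lit 0), .ofNat (nat_lit 0), .ofNat (nat_lit 0), .ofNat (nat_lit 0), .ofNat (nat_lit 0), .ofNat (nat_lit 0), .ofNat (nat_lit 0), .ofNat (nat_lit 0)⟩⟩, []⟩
noncomputable def b_N_700_700_0_10 : St := ⟨false, nat_lit 2, nat_lit 2, nat_lit 0, nat_lit 40, nat_lit 280, nat_lit 320, nat_lit 280, nat_lit 320, nat_lit 64, nat_lit 400, nat_lit 0, nat_lit 0, nat_lit 0, nat_lit 0, nat_lit 0, nat_lit 0, nat_lit 120, nat_lit 140, nat_lit 0, nat_lit 0, nat_lit 0, nat_lit 0⟩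
theorem d_N_700_700_0_10 (h : EB TB.env) : Dead b_N_700_700_0_10 := chkB_sound0 h (T :=
(.st (nat_lit 0)
(.gv
(.st (nat_lit 1)
(.leaf p017_l180)
(.spl (nat_lit 0) (nat_lit 300)
(.ord (.leaf p017_l181))
(.trZ (nat_lit 0) (nat_lit 100) (nat_lit 94) (nat_lit 88) (nat_lit 80) (.leaf p017_l182))))
(.leaf p017_l183))
(.gv
(.st (nat_lit 1)
(.spl (nat_lit 0) (nat_lit 300)
(.ord (.leaf p017_l184))
(.trZ (nat_lit 0) (nat_lit 100) (nat_lit 94) (nat_lit 88) (nat_lit 80) (.leaf p017_l185)))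
(.spl (nat_lit 0) (nat_lit 300)
(.ord (.leaf p017_l186))
(.trZ (nat_lit 0) (nat_lit 100) (nat_lit 94) (nat_lit 88) (nat_lit 80) (.leaf p017_l187))))
(.st (nat_lit 1)
(.spl (nat_lit 0) (nat_lit 300)
(.ord (.leaf p017_l188))
(.trZ (nat_lit 0) (nat_lit 100) (nat_lit 94) (nat_lit 88) (nat_lit 80) (.leaf p017_l189)))
(.spl (nat_lit 0) (nat_lit 300)
(.ord (.leaf p017_l190))
(.trZ (nat_lit 0) (nat_lit 100) (nat_lit 94) (nat_lit 88) (nat_lit 80) (.leaf p017_l191))))))) (by decide +kernel)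
noncomputable def p017_l192 : Lf2 := ⟨nat_lit 0, nat_lit 10, [nat_lit 0, nat_lit 5, nat_lit 5, nat_lit 20], true, nat_lit 0, nat_lit 0, nat_lit 0, nat_lit 0, ⟨nat_lit 0, nat_lit 591, nat_lit 409, nat_lit 4, nat_lit 183, nat_lit 0, nat_lit 0, nat_lit 0, nat_lit 0, nat_lit 215, nat_lit 272572, nat_lit 200, nat_lit 55354999, nat_lit 11645001, nat_lit 0, nat_lit 2309349, false, true⟩,
 nat_lit 0, nat_lit 0, nat_lit 0, nat_lit 0, nat_lit 2809, nat_lit 0, nat_lit 0, nat_lit 0, nat_lit 0, nat_lit 0, nat_lit 0, nat_lit 0, nat_lit 0, nat_lit 0, nat_lit 0, nat_lit 452200, nat_lit 0, nat_lit 0, [(nat_lit 18, [(nat_lit 1, nat_lit 591), (nat_lit 5, nat_lit 322), (nat_lit 6, nat_lit 87)]), (nat_lit 21, [(nat_lit 1, nat_lit 591), (nat_lit 5, nat_lit 322), (nat_lit 6, nat_lit 87)])],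
 ⟨p017_k33, nat_lit 0, nat_lit 0, nat_lit 223, nat_lit 0, nat_lit 0, [nat_lit 1233280800, nat_lit 921135200, nat_lit 334788800], [], [nat_lit 19480792366, nat_lit 21932315114, nat_lit 26582867024, nat_lit 28800250164], nat_lit 0, nat_lit 0, nat_lit 0, nat_lit 0, nat_lit 0, nat_lit 0, [], [nat_lit 6, nat_lit 40, nat_lit 80, nat_lit 80, nat_lit 3, nat_lit 317, nat_lit 100, nat_lit 12]⟩, C1.Rw.none,
 ⟨nat_lit 3162, nat_lit 4473, ⟨.ofNat (nat_lit 143971), .ofNat (nat_lit 728778), .ofNat (nat_lit 186943), .ofNat (nat_lit 771911), .ofNat (nat_lit 175109), .ofNat (nat_lit 699502), .ofNat (nat_lit 219258), .ofNat (nat_lit 743812)⟩, ⟨.ofNat (nat_lit 0), .ofNat (nat_lit 0), .ofNat (nat_lit 0), .ofNat (nat_lit 0), .ofNat (nat_lit 0), .ofNat (nat_lit 0), .ofNat (nat_lit 0), .ofNat (nat_lit 0)⟩⟩, [⟨nat_lit 13, nat_lit 80, nat_lit 60, nat_lit 100, nat_lit 52709183⟩]⟩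
noncomputable def p017_l193 : Lf2 := ⟨nat_lit 0, nat_lit 10, [nat_lit 0, nat_lit 5, nat_lit 5, nat_lit 20], true, nat_lit 0, nat_lit 0, nat_lit 0, nat_lit 0, ⟨nat_lit 0, nat_lit 1000, nat_lit 0, nat_lit 4, nat_lit 183, nat_lit 0, nat_lit 0, nat_lit 0, nat_lit 0, nat_lit 0, nat_lit 0, nat_lit 0, nat_lit 0, nat_lit 0, nat_lit 0, nat_lit 5000000, false, true⟩,
 nat_lit 0, nat_lit 0, nat_lit 0, nat_lit 0, nat_lit 1499, nat_lit 0, nat_lit 279, nat_lit 0, nat_lit 0, nat_lit 0, nat_lit 0, nat_lit 0, nat_lit 0, nat_lit 0, nat_lit 0, nat_lit 250000, nat_lit 0, nat_lit 0, [(nat_lit 18, [(nat_lit 0, nat_lit 1000)]), (nat_lit 21, [(nat_lit 0, nat_lit 1000)])],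
 ⟨p017_k33, nat_lit 0, nat_lit 0, nat_lit 223, nat_lit 0, nat_lit 0, [nat_lit 1558400000, nat_lit 2168000000, nat_lit 2562000000], [], [nat_lit 23199292662, nat_lit 25158554090, nat_lit 30718776560, nat_lit 32125687158], nat_lit 0, nat_lit 0, nat_lit 0, nat_lit 0, nat_lit 0, nat_lit 0, [], [nat_lit 6, nat_lit 40, nat_lit 80, nat_lit 80, nat_lit 3, nat_lit 317, nat_lit 100, nat_lit 12]⟩, C1.Rw.none,
 ⟨nat_lit 3162, nat_lit 4473, ⟨.ofNat (nat_lit 143971), .ofNat (nat_lit 728778), .ofNat (nat_lit 186943), .ofNat (nat_lit 771911), .ofNat (nat_lit 175109), .ofNat (nat_lit 699502), .ofNat (nat_lit 219258), .ofNat (nat_lit 743812)⟩, ⟨.ofNat (nat_lit 0), .ofNat (nat_lit 0), .ofNat (nat_lit 0), .ofNat (nat_lit 0), .ofNat (nat_lit 0), .ofNat (nat_lit 0), .ofNat (nat_lit 0), .ofNat (nat_lit 0)⟩⟩, [⟨nat_lit 13, nat_lit 80, nat_lit 60, nat_lit 100, nat_lit 200965975⟩]⟩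
noncomputable def p017_l194 : Lf2 := ⟨nat_lit 0, nat_lit 10, [nat_lit 0, nat_lit 5, nat_lit 5, nat_lit 20], true, nat_lit 0, nat_lit 0, nat_lit 0, nat_lit 0, ⟨nat_lit 0, nat_lit 0, nat_lit 1000, nat_lit 4, nat_lit 91, nat_lit 0, nat_lit 0, nat_lit 0, nat_lit 0, nat_lit 215, nat_lit 77067, nat_lit 283, nat_lit 63729031, nat_lit 0, nat_lit 0, nat_lit 975127, false, false⟩,
 nat_lit 0, nat_lit 3772, nat_lit 0, nat_lit 0, nat_lit 2828, nat_lit 0, nat_lit 0, nat_lit 0, nat_lit 0, nat_lit 0, nat_lit 0, nat_lit 0, nat_lit 0, nat_lit 0, nat_lit 76, nat_lit 400000, nat_lit 0, nat_lit 0, [(nat_lit 18, [(nat_lit 5, nat_lit 1000)])],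
 ⟨p017_k34, nat_lit 0, nat_lit 0, nat_lit 428, nat_lit 0, nat_lit 615667, [nat_lit 1693000001, nat_lit 251500000], [], [nat_lit 18681451776, nat_lit 19804627758, nat_lit 18598034726, nat_lit 19662608238], nat_lit 1271250, nat_lit 1271250, nat_lit 88400, nat_lit 490000, nat_lit 0, nat_lit 0, [nat_lit 490000, nat_lit 1427500], [nat_lit 69, nat_lit 40, nat_lit 80, nat_lit 80, nat_lit 64, nat_lit 226, nat_lit 20, nat_lit 9]⟩, C1.Rw.none,
 ⟨nat_lit 3872, nat_lit 4473, ⟨.ofNat (nat_lit 144159), .ofNat (nat_lit 252931), .ofNat (nat_lit 187264), .ofNat (nat_lit 296041), .ofNat (nat_lit 159606), .ofNat (nat_lit 262847), .ofNat (nat_lit 203164), .ofNat (nat_lit 306411)⟩, ⟨.ofNat (nat_lit 0), .ofNat (nat_lit 0), .ofNat (nat_lit 0), .ofNat (nat_lit 0), .ofNat (nat_lit 0), .ofNat (nat_lit 0), .ofNat (nat_lit 0), .ofNat (nat_lit 0)⟩⟩, [⟨nat_lit 0, nat_lit 100, nat_lit 71, nat_lit 70, nat_lit 105539147⟩]⟩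
noncomputable def p017_l195 : Lf2 := ⟨nat_lit 0, nat_lit 10, [nat_lit 0, nat_lit 5, nat_lit 5, nat_lit 20], true, nat_lit 0, nat_lit 0, nat_lit 0, nat_lit 0, ⟨nat_lit 0, nat_lit 0, nat_lit 1000, nat_lit 4, nat_lit 133, nat_lit 0, nat_lit 0, nat_lit 0, nat_lit 0, nat_lit 215, nat_lit 166667, nat_lit 315, nat_lit 60299768, nat_lit 0, nat_lit 0, nat_lit 1625450, false, false⟩,
 nat_lit 0, nat_lit 4618, nat_lit 0, nat_lit 0, nat_lit 3463, nat_lit 0, nat_lit 0, nat_lit 0, nat_lit 0, nat_lit 0, nat_lit 0, nat_lit 0, nat_lit 0, nat_lit 0, nat_lit 76, nat_lit 400000, nat_lit 0, nat_lit 0, [(nat_lit 18, [(nat_lit 5, nat_lit 1000)])],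
 ⟨p017_k34, nat_lit 0, nat_lit 0, nat_lit 504, nat_lit 0, nat_lit 888697, [nat_lit 1693000001, nat_lit 251500000], [], [nat_lit 17002325703, nat_lit 17827500996, nat_lit 18278756232, nat_lit 18856216065], nat_lit 1271250, nat_lit 1271250, nat_lit 490000, nat_lit 1100001, nat_lit 0, nat_lit 0, [nat_lit 490000, nat_lit 1427500], [nat_lit 69, nat_lit 40, nat_lit 80, nat_lit 80, nat_lit 64, nat_lit 249, nat_lit 40, nat_lit 9]⟩, C1.Rw.none,
 ⟨nat_lit 4183, nat_lit 4473, ⟨.ofNat (nat_lit 252931), .ofNat (nat_lit 388887), .ofNat (nat_lit 274498), .ofNat (nat_lit 410454), .ofNat (nat_lit 257898), .ofNat (nat_lit 390409), .ofNat (nat_lit 279565), .ofNat (nat_lit 412076)⟩, ⟨.ofNat (nat_lit 0), .ofNat (nat_lit 0), .ofNat (nat_lit 0), .ofNat (nat_lit 0), .ofNat (nat_lit 0), .ofNat (nat_lit 0), .ofNat (nat_lit 0), .ofNat (nat_lit 0)⟩⟩, []⟩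
noncomputable def p017_l196 : Lf2 := ⟨nat_lit 0, nat_lit 10, [nat_lit 0, nat_lit 5, nat_lit 5, nat_lit 20], true, nat_lit 0, nat_lit 0, nat_lit 0, nat_lit 0, ⟨nat_lit 0, nat_lit 0, nat_lit 1000, nat_lit 4, nat_lit 135, nat_lit 0, nat_lit 0, nat_lit 0, nat_lit 0, nat_lit 215, nat_lit 170017, nat_lit 316, nat_lit 60180543, nat_lit 0, nat_lit 0, nat_lit 1644912, false, false⟩,
 nat_lit 0, nat_lit 4088, nat_lit 0, nat_lit 0, nat_lit 3186, nat_lit 0, nat_lit 0, nat_lit 0, nat_lit 0, nat_lit 0, nat_lit 0, nat_lit 0, nat_lit 0, nat_lit 0, nat_lit 76, nat_lit 400000, nat_lit 0, nat_lit 0, [(nat_lit 18, [(nat_lit 5, nat_lit 1000)])],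
 ⟨p017_k35, nat_lit 0, nat_lit 0, nat_lit 527, nat_lit 0, nat_lit 935337, [nat_lit 1536800000, nat_lit 802000001, nat_lit 14800000], [], [nat_lit 17408369255, nat_lit 18353168960, nat_lit 18751169254, nat_lit 19307025580], nat_lit 1271250, nat_lit 1271250, nat_lit 490000, nat_lit 1100001, nat_lit 0, nat_lit 0, [nat_lit 490000, nat_lit 1100000, nat_lit 1442500], [nat_lit 6, nat_lit 40, nat_lit 80, nat_lit 80, nat_lit 3, nat_lit 249, nat_lit 40, nat_lit 9]⟩, C1.Rw.none,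
 ⟨nat_lit 3872, nat_lit 4184, ⟨.ofNat (nat_lit 257898), .ofNat (nat_lit 390409), .ofNat (nat_lit 279562), .ofNat (nat_lit 412076), .ofNat (nat_lit 262847), .ofNat (nat_lit 391890), .ofNat (nat_lit 284637), .ofNat (nat_lit 413684)⟩, ⟨.ofNat (nat_lit 0), .ofNat (nat_lit 0), .ofNat (nat_lit 0), .ofNat (nat_lit 0), .ofNat (nat_lit 0), .ofNat (nat_lit 0), .ofNat (nat_lit 0), .ofNat (nat_lit 0)⟩⟩, []⟩
noncomputable def p017_l197 : Lf2 := ⟨nat_lit 0, nat_lit 10, [nat_lit 0, nat_lit 5, nat_lit 5, nat_lit 20], false, nat_lit 0, nat_lit 0, nat_lit 0, nat_lit 0, ⟨nat_lit 111, nat_lit 0, nat_lit 889, nat_lit 4, nat_lit 143, nat_lit 0, nat_lit 0, nat_lit 0, nat_lit 0, nat_lit 215, nat_lit 190817, nat_lit 322, nat_lit 59439388, nat_lit 0, nat_lit 0, nat_lit 1762109, false, false⟩,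
 nat_lit 0, nat_lit 4670, nat_lit 0, nat_lit 0, nat_lit 3502, nat_lit 1537, nat_lit 0, nat_lit 0, nat_lit 0, nat_lit 936, nat_lit 0, nat_lit 0, nat_lit 0, nat_lit 0, nat_lit 37, nat_lit 378400, nat_lit 0, nat_lit 0, [(nat_lit 18, [(nat_lit 5, nat_lit 851), (nat_lit 6, nat_lit 38)])],
 ⟨p017_k33, nat_lit 0, nat_lit 0, nat_lit 563, nat_lit 0, nat_lit 1031657, [nat_lit 1352230667, nat_lit 712944134, nat_lit 4594400], [], [nat_lit 18058214243, nat_lit 18984966720, nat_lit 19021304921, nat_lit 19917386134], nat_lit 1271250, nat_lit 1271250, nat_lit 490000, nat_lit 1100001, nat_lit 0, nat_lit 0, [nat_lit 490000, nat_lit 1100000, nat_lit 1442500], [nat_lit 6, nat_lit 40, nat_lit 80, nat_lit 80, nat_lit 3, nat_lit 249, nat_lit 40, nat_lit 9]⟩, ⟨p017_k36, nat_lit 0, nat_lit 0, nat_lit 390, nat_lit 0, nat_lit 0, [nat_lit 884448000, nat_lit 1317792000, nat_lit 1560438000], [], [nat_lit 1911582674, nat_lit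 1977398448, nat_lit 1790960378, nat_lit 1888084760], nat_lit 0, nat_lit 0, nat_lit 0, nat_lit 0, nat_lit 0, nat_lit 0, [], [nat_lit 62, nat_lit 40, nat_lit 80, nat_lit 80, nat_lit 58, nat_lit 317, nat_lit 100, nat_lit 8]⟩,
 ⟨nat_lit 3872, nat_lit 4473, ⟨.ofNat (nat_lit 274489), .ofNat (nat_lit 410454), .ofNat (nat_lit 296041), .ofNat (nat_lit 432013), .ofNat (nat_lit 284632), .ofNat (nat_lit 413684), .ofNat (nat_lit 306411), .ofNat (nat_lit 435470)⟩, ⟨.ofNat (nat_lit 0), .ofNat (nat_lit 0), .ofNat (nat_lit 0), .ofNat (nat_lit 0), .ofNat (nat_lit 0), .ofNat (nat_lit 0), .ofNat (nat_lit 0), .ofNat (nat_lit 0)⟩⟩, []⟩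
noncomputable def p017_l198 : Lf2 := ⟨nat_lit 0, nat_lit 10, [nat_lit 0, nat_lit 5, nat_lit 5, nat_lit 20], true, nat_lit 0, nat_lit 0, nat_lit 0, nat_lit 0, ⟨nat_lit 0, nat_lit 0, nat_lit 1000, nat_lit 4, nat_lit 101, nat_lit 0, nat_lit 0, nat_lit 0, nat_lit 0, nat_lit 215, nat_lit 96267, nat_lit 291, nat_lit 62996815, nat_lit 0, nat_lit 0, nat_lit 1131375, false, false⟩,
 nat_lit 0, nat_lit 3374, nat_lit 0, nat_lit 0, nat_lit 2731, nat_lit 0, nat_lit 0, nat_lit 0, nat_lit 0, nat_lit 0, nat_lit 0, nat_lit 0, nat_lit 0, nat_lit 0, nat_lit 116, nat_lit 512800, nat_lit 0, nat_lit 0, [(nat_lit 21, [(nat_lit 5, nat_lit 812), (nat_lit 6, nat_lit 188)])],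
 ⟨p017_k37, nat_lit 0, nat_lit 0, nat_lit 442, nat_lit 0, nat_lit 673123, [nat_lit 1864240001, nat_lit 233587200], [], [nat_lit 18986116551, nat_lit 20935505907, nat_lit 18877540967, nat_lit 20108636231], nat_lit 1271250, nat_lit 1271250, nat_lit 181601, nat_lit 490000, nat_lit 0, nat_lit 0, [nat_lit 490000, nat_lit 1427500], [nat_lit 69, nat_lit 40, nat_lit 80, nat_lit 80, nat_lit 64, nat_lit 226, nat_lit 20, nat_lit 9]⟩, C1.Rw.none,
 ⟨nat_lit 3162, nat_lit 3873, ⟨.ofNat (nat_lit 185344), .ofNat (nat_lit 262809), .ofNat (nat_lit 228873), .ofNat (nat_lit 306338), .ofNat (nat_lit 199607), .ofNat (nat_lit 272790), .ofNat (nat_lit 243860), .ofNat (nat_lit 317043)⟩, ⟨.ofNat (nat_lit 0), .ofNat (nat_lit 0), .ofNat (nat_lit 0), .ofNat (nat_lit 0), .ofNat (nat_lit 0), .ofNat (nat_lit 0), .ofNat (nat_lit 0), .ofNat (nat_lit 0)⟩⟩, [⟨nat_lit 0, nat_lit 100, nat_lit 60, nat_lit 80, nat_lit 236858502⟩]⟩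
noncomputable def p017_l199 : Lf2 := ⟨nat_lit 0, nat_lit 5, [nat_lit 4, nat_lit 5, nat_lit 5, nat_lit 20], false, nat_lit 0, nat_lit 0, nat_lit 0, nat_lit 0, ⟨nat_lit 326, nat_lit 0, nat_lit 674, nat_lit 4, nat_lit 141, nat_lit 0, nat_lit 0, nat_lit 0, nat_lit 0, nat_lit 215, nat_lit 187267, nat_lit 321, nat_lit 59594651, nat_lit 0, nat_lit 0, nat_lit 1738082, false, false⟩,
 nat_lit 0, nat_lit 4426, nat_lit 0, nat_lit 0, nat_lit 3582, nat_lit 5576, nat_lit 0, nat_lit 0, nat_lit 0, nat_lit 2087, nat_lit 0, nat_lit 0, nat_lit 0, nat_lit 0, nat_lit 30, nat_lit 674000, nat_lit 0, nat_lit 0, [(nat_lit 21, [(nat_lit 6, nat_lit 674)])],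
 ⟨p017_k38, nat_lit 0, nat_lit 0, nat_lit 511, nat_lit 0, nat_lit 1066826, [nat_lit 1413054400, nat_lit 773995201, nat_lit 102712399], [], [nat_lit 20233791208, nat_lit 21359587016, nat_lit 21369126092, nat_lit 22386524696], nat_lit 1271250, nat_lit 1271250, nat_lit 490000, nat_lit 1100001, nat_lit 0, nat_lit 0, [nat_lit 490000, nat_lit 780000, nat_lit 1100000], [nat_lit 78, nat_lit 40, nat_lit 80, nat_lit 80, nat_lit 22, nat_lit 249, nat_lit 40, nat_lit 11]⟩, ⟨p017_k39, nat_lit 0, nat_lit 0, nat_lit 391, nat_lit 0, nat_lit 0, [nat_lit 2597568000, nat_lit 3208492000, nat_lit 4582908000], [], [nat_lit 6557086999, nat_lit 6933447976, nat_lit 5769349560, nat_lit 6417614432], nat_lit 0, nat_lit 0, nat_lit 0, nat_lit 0, nat_lit 0, nat_lit 0, [], [nat_lit 92, nat_lit 40, nat_lit 80, nat_lit 80, nat_lit 32, nat_lit 317, nat_lit 100, nat_lit 8]⟩,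
 ⟨nat_lit 3162, nat_lit 3873, ⟨.ofNat (nat_lit 262809), .ofNat (nat_lit 391890), .ofNat (nat_lit 306338), .ofNat (nat_lit 435446), .ofNat (nat_lit 272790), .ofNat (nat_lit 394735), .ofNat (nat_lit 317043), .ofNat (nat_lit 439014)⟩, ⟨.ofNat (nat_lit 0), .ofNat (nat_lit 0), .ofNat (nat_lit 0), .ofNat (nat_lit 0), .ofNat (nat_lit 0), .ofNat (nat_lit 0), .ofNat (nat_lit 0), .ofNat (nat_lit 0)⟩⟩, []⟩
noncomputable def p017_l200 : Lf2 := ⟨nat_lit 0, nat_lit 10, [nat_lit 0, nat_lit 5, nat_lit 5, nat_lit 20], true, nat_lit 0, nat_lit 0, nat_lit 0, nat_lit 0, ⟨nat_lit 0, nat_lit 0, nat_lit 1000, nat_lit 4, nat_lit 141, nat_lit 0, nat_lit 0, nat_lit 0, nat_lit 0, nat_lit 215, nat_lit 187267, nat_lit 321, nat_lit 59594651, nat_lit 0, nat_lit 0, nat_lit 1738082, false, false⟩,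
 nat_lit 0, nat_lit 3621, nat_lit 0, nat_lit 0, nat_lit 2931, nat_lit 0, nat_lit 0, nat_lit 0, nat_lit 0, nat_lit 0, nat_lit 0, nat_lit 0, nat_lit 0, nat_lit 0, nat_lit 186, nat_lit 799000, nat_lit 0, nat_lit 0, [(nat_lit 21, [(nat_lit 5, nat_lit 335), (nat_lit 6, nat_lit 665)])],
 ⟨p017_k40, nat_lit 0, nat_lit 0, nat_lit 514, nat_lit 0, nat_lit 885589, [nat_lit 2319300001, nat_lit 820998001, nat_lit 381176000], [], [nat_lit 18231345010, nat_lit 19816679576, nat_lit 19560787938, nat_lit 20632725180], nat_lit 1271250, nat_lit 1271250, nat_lit 490000, nat_lit 1100001, nat_lit 0, nat_lit 0, [nat_lit 490000, nat_lit 1100000, nat_lit 1442500], [nat_lit 6, nat_lit 40, nat_lit 80, nat_lit 80, nat_lit 3, nat_lit 249, nat_lit 40, nat_lit 9]⟩, C1.Rw.none,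
 ⟨nat_lit 3162, nat_lit 3873, ⟨.ofNat (nat_lit 262809), .ofNat (nat_lit 391890), .ofNat (nat_lit 306338), .ofNat (nat_lit 435446), .ofNat (nat_lit 272790), .ofNat (nat_lit 394735), .ofNat (nat_lit 317043), .ofNat (nat_lit 439014)⟩, ⟨.ofNat (nat_lit 0), .ofNat (nat_lit 0), .ofNat (nat_lit 0), .ofNat (nat_lit 0), .ofNat (nat_lit 0), .ofNat (nat_lit 0), .ofNat (nat_lit 0), .ofNat (nat_lit 0)⟩⟩, []⟩
noncomputable def p017_l201 : Lf2 := ⟨nat_lit 0, nat_lit 10, [nat_lit 0, nat_lit 5, nat_lit 5, nat_lit 20], false, nat_lit 0, nat_lit 0, nat_lit 0, nat_lit 0, ⟨nat_lit 481, nat_lit 0, nat_lit 519, nat_lit 4, nat_lit 232, nat_lit 0, nat_lit 0, nat_lit 0, nat_lit 0, nat_lit 215, nat_lit 272572, nat_lit 200, nat_lit 50146429, nat_lit 0, nat_lit 0, nat_lit 2820134, false, true⟩,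
 nat_lit 0, nat_lit 5080, nat_lit 0, nat_lit 0, nat_lit 3809, nat_lit 4664, nat_lit 1, nat_lit 0, nat_lit 0, nat_lit 633, nat_lit 0, nat_lit 0, nat_lit 0, nat_lit 0, nat_lit 0, nat_lit 519000, nat_lit 0, nat_lit 0, [(nat_lit 18, [(nat_lit 6, nat_lit 519)])],
 ⟨p017_k33, nat_lit 0, nat_lit 0, nat_lit 470, nat_lit 0, nat_lit 899415, [nat_lit 1527393601, nat_lit 1611506401, nat_lit 981734800], [], [nat_lit 24399701838, nat_lit 24585017874, nat_lit 29167162188, nat_lit 29322860495], nat_lit 1271250, nat_lit 1271250, nat_lit 1100001, nat_lit 2812500, nat_lit 0, nat_lit 0, [nat_lit 490000, nat_lit 1100000, nat_lit 1442500], [nat_lit 6, nat_lit 40, nat_lit 80, nat_lit 80, nat_lit 3, nat_lit 317, nat_lit 100, nat_lit 12]⟩, ⟨p017_k41, nat_lit 0, nat_lit 0, nat_lit 319, nat_lit 0, nat_lit 0, [nat_lit 3832608000, nat_lit 5710432000, nat_lit 6761898000], [], [nat_lit 15706233235, nat_lit 16138598240, nat_lit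 20942757076, nat_lit 21021976500], nat_lit 0, nat_lit 0, nat_lit 0, nat_lit 0, nat_lit 0, nat_lit 0, [], [nat_lit 62, nat_lit 40, nat_lit 80, nat_lit 80, nat_lit 58, nat_lit 373, nat_lit 150, nat_lit 9]⟩,
 ⟨nat_lit 4330, nat_lit 4473, ⟨.ofNat (nat_lit 388887), .ofNat (nat_lit 728778), .ofNat (nat_lit 432020), .ofNat (nat_lit 771911), .ofNat (nat_lit 389654), .ofNat (nat_lit 725242), .ofNat (nat_lit 432881), .ofNat (nat_lit 768469)⟩, ⟨.ofNat (nat_lit 0), .ofNat (nat_lit 0), .ofNat (nat_lit 0), .ofNat (nat_lit 0), .ofNat (nat_lit 0), .ofNat (nat_lit 0), .ofNat (nat_lit 0), .ofNat (nat_lit 0)⟩⟩, []⟩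
noncomputable def p017_l202 : Lf2 := ⟨nat_lit 0, nat_lit 10, [nat_lit 0, nat_lit 5, nat_lit 5, nat_lit 20], false, nat_lit 0, nat_lit 0, nat_lit 0, nat_lit 0, ⟨nat_lit 490, nat_lit 0, nat_lit 510, nat_lit 4, nat_lit 231, nat_lit 0, nat_lit 0, nat_lit 0, nat_lit 0, nat_lit 215, nat_lit 265688, nat_lit 200, nat_lit 50204824, nat_lit 0, nat_lit 0, nat_lit 2815372, false, true⟩,
 nat_lit 0, nat_lit 4937, nat_lit 0, nat_lit 0, nat_lit 3775, nat_lit 4713, nat_lit 167, nat_lit 0, nat_lit 0, nat_lit 644, nat_lit 0, nat_lit 0, nat_lit 0, nat_lit 0, nat_lit 0, nat_lit 510000, nat_lit 0, nat_lit 0, [(nat_lit 18, [(nat_lit 6, nat_lit 510)])],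
 ⟨p017_k42, nat_lit 0, nat_lit 0, nat_lit 477, nat_lit 0, nat_lit 919676, [nat_lit 1536144001, nat_lit 1664856001, nat_lit 1073092000], [], [nat_lit 24521348670, nat_lit 24716983632, nat_lit 29375363846, nat_lit 29537780400], nat_lit 1271250, nat_lit 1271250, nat_lit 1100001, nat_lit 2812500, nat_lit 0, nat_lit 0, [nat_lit 490000, nat_lit 1100000, nat_lit 1442500], [nat_lit 6, nat_lit 40, nat_lit 80, nat_lit 80, nat_lit 3, nat_lit 317, nat_lit 100, nat_lit 12]⟩, ⟨p017_k41, nat_lit 0, nat_lit 0, nat_lit 319, nat_lit 0, nat_lit 0, [nat_lit 3904320000, nat_lit 5817280000, nat_lit 6888420000], [], [nat_lit 16031422624, nat_lit 16475975268, nat_lit 21298575418, nat_lit 21382306122], nat_lit 0, nat_lit 0, nat_lit 0, nat_lit 0, nat_lit 0, nat_lit 0, [], [nat_lit 62, nat_lit 40, nat_lit 80, nat_lit 80, nat_lit 58, nat_lit 373, nat_lit 150, nat_lit 9]⟩,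
 ⟨nat_lit 4183, nat_lit 4331, ⟨.ofNat (nat_lit 389654), .ofNat (nat_lit 725242), .ofNat (nat_lit 432881), .ofNat (nat_lit 768469), .ofNat (nat_lit 390409), .ofNat (nat_lit 721688), .ofNat (nat_lit 433743), .ofNat (nat_lit 765021)⟩, ⟨.ofNat (nat_lit 0), .ofNat (nat_lit 0), .ofNat (nat_lit 0), .ofNat (nat_lit 0), .ofNat (nat_lit 0), .ofNat (nat_lit 0), .ofNat (nat_lit 0), .ofNat (nat_lit 0)⟩⟩, []⟩
noncomputable def p017_l203 : Lf2 := ⟨nat_lit 0, nat_lit 10, [nat_lit 0, nat_lit 5, nat_lit 5, nat_lit 20], false, nat_lit 0, nat_lit 0, nat_lit 0, nat_lit 0, ⟨nat_lit 1000, nat_lit 0, nat_lit 0, nat_lit 0, nat_lit 0, nat_lit 0, nat_lit 0, nat_lit 0, nat_lit 0, nat_lit 0, nat_lit 0, nat_lit 0, nat_lit 0, nat_lit 0, nat_lit 0, nat_lit 0, false, false⟩,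
 nat_lit 0, nat_lit 7347, nat_lit 0, nat_lit 0, nat_lit 5727, nat_lit 11897, nat_lit 597, nat_lit 0, nat_lit 0, nat_lit 1363, nat_lit 0, nat_lit 0, nat_lit 0, nat_lit 0, nat_lit 0, nat_lit 0, nat_lit 0, nat_lit 0, [],
 ⟨p017_k35, nat_lit 0, nat_lit 0, nat_lit 517, nat_lit 0, nat_lit 981693, [nat_lit 2032000001, nat_lit 4688000000, nat_lit 6250000000], [], [nat_lit 27073425681, nat_lit 27526060734, nat_lit 33679107905, nat_lit 34475958701], nat_lit 1271250, nat_lit 1271250, nat_lit 1100001, nat_lit 2744000, nat_lit 0, nat_lit 0, [nat_lit 490000, nat_lit 1100000, nat_lit 1442500], [nat_lit 6, nat_lit 40, nat_lit 80, nat_lit 80, nat_lit 3, nat_lit 317, nat_lit 100, nat_lit 12]⟩, ⟨p017_k41, nat_lit 0, nat_lit 0, nat_lit 315, nat_lit 0, nat_lit 0, [nat_lit 7968000000, nat_lit 11872000000, nat_lit 14058000000], [], [nat_lit 31110433389, nat_lit 32102756345, nat_lit 44586214433, nat_lit 44654667488],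 nat_lit 0, nat_lit 0, nat_lit 0, nat_lit 0, nat_lit 0, nat_lit 0, [], [nat_lit 62, nat_lit 40, nat_lit 80, nat_lit 80, nat_lit 58, nat_lit 373, nat_lit 150, nat_lit 9]⟩,
 zbF0, []⟩
noncomputable def p017_l204 : Lf2 := ⟨nat_lit 0, nat_lit 10, [nat_lit 0, nat_lit 5, nat_lit 5, nat_lit 20], false, nat_lit 0, nat_lit 0, nat_lit 0, nat_lit 0, ⟨nat_lit 1000, nat_lit 0, nat_lit 0, nat_lit 0, nat_lit 0, nat_lit 0, nat_lit 0, nat_lit 0, nat_lit 0, nat_lit 0, nat_lit 0, nat_lit 0, nat_lit 0, nat_lit 0, nat_lit 0, nat_lit 0, false, false⟩,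
 nat_lit 0, nat_lit 6264, nat_lit 0, nat_lit 0, nat_lit 5070, nat_lit 11897, nat_lit 677, nat_lit 0, nat_lit 0, nat_lit 1325, nat_lit 0, nat_lit 0, nat_lit 0, nat_lit 0, nat_lit 0, nat_lit 0, nat_lit 0, nat_lit 0, [],
 ⟨p017_k40, nat_lit 0, nat_lit 0, nat_lit 570, nat_lit 0, nat_lit 1110571, [nat_lit 2032000001, nat_lit 4688000000, nat_lit 6250000000], [], [nat_lit 25922293468, nat_lit 26836627898, nat_lit 32194741136, nat_lit 33726081433], nat_lit 1271250, nat_lit 1271250, nat_lit 1100001, nat_lit 2675500, nat_lit 0, nat_lit 0, [nat_lit 490000, nat_lit 1100000, nat_lit 1442500], [nat_lit 6, nat_lit 40, nat_lit 80, nat_lit 80, nat_lit 3, nat_lit 317, nat_lit 100, nat_lit 12]⟩, ⟨p017_k41, nat_lit 0, nat_lit 0, nat_lit 312, nat_lit 0, nat_lit 0, [nat_lit 7968000000, nat_lit 11872000000, nat_lit 14058000000], [], [nat_lit 31301977139, nat_lit 32294300095, nat_lit 43562102639, nat_lit 43706258398],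 nat_lit 0, nat_lit 0, nat_lit 0, nat_lit 0, nat_lit 0, nat_lit 0, [], [nat_lit 62, nat_lit 40, nat_lit 80, nat_lit 80, nat_lit 58, nat_lit 373, nat_lit 150, nat_lit 9]⟩,
 zbF0, []⟩
noncomputable def p017_l205 : Lf2 := ⟨nat_lit 0, nat_lit 10, [nat_lit 0, nat_lit 5, nat_lit 5, nat_lit 20], false, nat_lit 0, nat_lit 0, nat_lit 0, nat_lit 0, ⟨nat_lit 0, nat_lit 0, nat_lit 1000, nat_lit 4, nat_lit 119, nat_lit 0, nat_lit 0, nat_lit 0, nat_lit 0, nat_lit 215, nat_lit 132017, nat_lit 304, nat_lit 61553016, nat_lit 0, nat_lit 0, nat_lit 1409640, false, false⟩,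
 nat_lit 0, nat_lit 3792, nat_lit 0, nat_lit 0, nat_lit 2843, nat_lit 0, nat_lit 0, nat_lit 0, nat_lit 0, nat_lit 0, nat_lit 0, nat_lit 0, nat_lit 0, nat_lit 0, nat_lit 76, nat_lit 400000, nat_lit 0, nat_lit 0, [(nat_lit 18, [(nat_lit 5, nat_lit 1000)]), (nat_lit 21, [(nat_lit 5, nat_lit 1000)])],
 ⟨p017_k34, nat_lit 0, nat_lit 0, nat_lit 500, nat_lit 0, nat_lit 730880, [nat_lit 1693000001, nat_lit 251500000], [], [nat_lit 19620289595, nat_lit 21854570559, nat_lit 20888926472, nat_lit 23005348124], nat_lit 1271250, nat_lit 1271250, nat_lit 88400, nat_lit 1100001, nat_lit 0, nat_lit 0, [nat_lit 490000, nat_lit 1427500], [nat_lit 69, nat_lit 40, nat_lit 80, nat_lit 80, nat_lit 64, nat_lit 249, nat_lit 40, nat_lit 10]⟩, ⟨p017_k43, nat_lit 0, nat_lit 0, nat_lit 1314, nat_lit 0, nat_lit 1817322, [nat_lit 0, nat_lit 0], [], [nat_lit 0, nat_lit 0, nat_lit 0, nat_lit 0], nat_lit 1100001, nat_lit 1442500,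 nat_lit 88400, nat_lit 1100001, nat_lit 0, nat_lit 0, [nat_lit 1695000, nat_lit 1271250], [nat_lit 121, nat_lit 40, nat_lit 80, nat_lit 80, nat_lit 28, nat_lit 374, nat_lit 100, nat_lit 9]⟩,
 ⟨nat_lit 3162, nat_lit 4473, ⟨.ofNat (nat_lit 143971), .ofNat (nat_lit 388887), .ofNat (nat_lit 186943), .ofNat (nat_lit 431944), .ofNat (nat_lit 175109), .ofNat (nat_lit 394735), .ofNat (nat_lit 219258), .ofNat (nat_lit 438969)⟩, ⟨.ofNat (nat_lit 0), .ofNat (nat_lit 0), .ofNat (nat_lit 0), .ofNat (nat_lit 0), .ofNat (nat_lit 0), .ofNat (nat_lit 0), .ofNat (nat_lit 0), .ofNat (nat_lit 0)⟩⟩, [⟨nat_lit 0, nat_lit 100, nat_lit 60, nat_lit 80, nat_lit 20376243⟩]⟩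
noncomputable def p017_l206 : Lf2 := ⟨nat_lit 0, nat_lit 10, [nat_lit 0, nat_lit 5, nat_lit 5, nat_lit 20], false, nat_lit 0, nat_lit 0, nat_lit 0, nat_lit 0, ⟨nat_lit 0, nat_lit 0, nat_lit 1000, nat_lit 4, nat_lit 191, nat_lit 0, nat_lit 0, nat_lit 0, nat_lit 0, nat_lit 215, nat_lit 1350, nat_lit 224, nat_lit 54533725, nat_lit 0, nat_lit 0, nat_lit 2402322, false, true⟩,
 nat_lit 0, nat_lit 3960, nat_lit 0, nat_lit 0, nat_lit 2969, nat_lit 0, nat_lit 0, nat_lit 0, nat_lit 0, nat_lit 0, nat_lit 0, nat_lit 0, nat_lit 0, nat_lit 0, nat_lit 76, nat_lit 400000, nat_lit 0, nat_lit 0, [(nat_lit 18, [(nat_lit 5, nat_lit 1000)]), (nat_lit 21, [(nat_lit 5, nat_lit 1000)])],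
 ⟨p017_k33, nat_lit 0, nat_lit 0, nat_lit 417, nat_lit 0, nat_lit 730880, [nat_lit 1585600001, nat_lit 802000001, nat_lit 14800000], [], [nat_lit 18563292443, nat_lit 20872675671, nat_lit 20994867551, nat_lit 23027097263], nat_lit 1271250, nat_lit 1271250, nat_lit 1100001, nat_lit 1785000, nat_lit 0, nat_lit 0, [nat_lit 490000, nat_lit 1100000, nat_lit 1442500], [nat_lit 6, nat_lit 40, nat_lit 80, nat_lit 80, nat_lit 3, nat_lit 272, nat_lit 60, nat_lit 10]⟩, ⟨p017_k41, nat_lit 0, nat_lit 0, nat_lit 1222, nat_lit 0, nat_lit 1817322, [nat_lit 0, nat_lit 0, nat_lit 0], [], [nat_lit 0, nat_lit 0, nat_lit 0, nat_lit 0], nat_lit 1100001, nat_lit 1442500, nat_lit 1100001, nat_lit 1785000, nat_lit 0, nat_lit 0, [nat_lit 1695000, nat_lit 1271250, nat_lit 1271250], [nat_lit 62, nat_lit 40, nat_lit 80, nat_lit 80, nat_lit 58, nat_lit 361, nat_lit 125, nat_lit 9]⟩,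
 ⟨nat_lit 3162, nat_lit 4473, ⟨.ofNat (nat_lit 388887), .ofNat (nat_lit 524844), .ofNat (nat_lit 431944), .ofNat (nat_lit 567977), .ofNat (nat_lit 394735), .ofNat (nat_lit 516642), .ofNat (nat_lit 438969), .ofNat (nat_lit 560952)⟩, ⟨.ofNat (nat_lit 0), .ofNat (nat_lit 0), .ofNat (nat_lit 0), .ofNat (nat_lit 0), .ofNat (nat_lit 0), .ofNat (nat_lit 0), .ofNat (nat_lit 0), .ofNat (nat_lit 0)⟩⟩, []⟩
noncomputable def p017_l207 : Lf2 := ⟨nat_lit 0, nat_lit 5, [nat_lit 4, nat_lit 5, nat_lit 5, nat_lit 20], false, nat_lit 0, nat_lit 0, nat_lit 0, nat_lit 0, ⟨nat_lit 127, nat_lit 873, nat_lit 0, nat_lit 6, nat_lit 250, nat_lit 0, nat_lit 0, nat_lit 0, nat_lit 0, nat_lit 0, nat_lit 0, nat_lit 0, nat_lit 48166854, nat_lit 18833146, nat_lit 0, nat_lit 2969906, false, true⟩,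
 nat_lit 4879, nat_lit 0, nat_lit 0, nat_lit 0, nat_lit 3659, nat_lit 1626, nat_lit 0, nat_lit 0, nat_lit 0, nat_lit 116, nat_lit 0, nat_lit 0, nat_lit 0, nat_lit 0, nat_lit 0, nat_lit 788400, nat_lit 0, nat_lit 0, [(nat_lit 18, [(nat_lit 1, nat_lit 141), (nat_lit 2, nat_lit 732)])],
 ⟨p017_k44, nat_lit 0, nat_lit 0, nat_lit 331, nat_lit 0, nat_lit 515295, [nat_lit 1700967200, nat_lit 1637860001, nat_lit 745800400], [], [nat_lit 24074526579, nat_lit 24545363571, nat_lit 28027499616, nat_lit 28408838071], nat_lit 1271250, nat_lit 1271250, nat_lit 1271250, nat_lit 1271250, nat_lit 0, nat_lit 0, [nat_lit 490000, nat_lit 1100000, nat_lit 1442500], [nat_lit 6, nat_lit 40, nat_lit 80, nat_lit 80, nat_lit 3, nat_lit 203, nat_lit 0, nat_lit 7]⟩, ⟨p017_k45, nat_lit 0, nat_lit 0, nat_lit 926, nat_lit 0, nat_lit 1224758, [nat_lit 1011936000, nat_lit 1507744000, nat_lit 1785366000], [], [nat_lit 5845503624,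 nat_lit 5775449720, nat_lit 6123813340, nat_lit 6061401859], nat_lit 1100001, nat_lit 1271250, nat_lit 1271250, nat_lit 1271250, nat_lit 0, nat_lit 0, [nat_lit 1695000, nat_lit 1271250, nat_lit 1271250], [nat_lit 62, nat_lit 40, nat_lit 80, nat_lit 80, nat_lit 58, nat_lit 373, nat_lit 150, nat_lit 9]⟩,
 ⟨nat_lit 4183, nat_lit 4473, ⟨.ofNat (nat_lit 524844), .ofNat (nat_lit 708385), .ofNat (nat_lit 546410), .ofNat (nat_lit 729951), .ofNat (nat_lit 522921), .ofNat (nat_lit 701811), .ofNat (nat_lit 544587), .ofNat (nat_lit 723478)⟩, ⟨.ofNat (nat_lit 0), .ofNat (nat_lit 0), .ofNat (nat_lit 0), .ofNat (nat_lit 0), .ofNat (nat_lit 0), .ofNat (nat_lit 0), .ofNat (nat_lit 0), .ofNat (nat_lit 0)⟩⟩, [⟨nat_lit 13, nat_lit 79, nat_lit 74, nat_lit 100, nat_lit 107874597⟩]⟩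
noncomputable def p017_l208 : Lf2 := ⟨nat_lit 0, nat_lit 10, [nat_lit 0, nat_lit 5, nat_lit 5, nat_lit 20], false, nat_lit 0, nat_lit 0, nat_lit 0, nat_lit 0, ⟨nat_lit 100, nat_lit 263, nat_lit 637, nat_lit 6, nat_lit 250, nat_lit 0, nat_lit 0, nat_lit 0, nat_lit 0, nat_lit 215, nat_lit 188652, nat_lit 200, nat_lit 48166854, nat_lit 18833146, nat_lit 0, nat_lit 2969906, false, true⟩,
 nat_lit 3823, nat_lit 0, nat_lit 0, nat_lit 0, nat_lit 2867, nat_lit 1274, nat_lit 0, nat_lit 0, nat_lit 0, nat_lit 91, nat_lit 0, nat_lit 0, nat_lit 0, nat_lit 0, nat_lit 0, nat_lit 394200, nat_lit 0, nat_lit 0, [(nat_lit 18, [(nat_lit 1, nat_lit 263), (nat_lit 5, nat_lit 580), (nat_lit 6, nat_lit 57)])],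
 ⟨p017_k33, nat_lit 0, nat_lit 0, nat_lit 289, nat_lit 0, nat_lit 405830, [nat_lit 1170017867, nat_lit 675248534, nat_lit 45328800], [], [nat_lit 22358661859, nat_lit 22802998378, nat_lit 26169618200, nat_lit 26531082797], nat_lit 1271250, nat_lit 1271250, nat_lit 1271250, nat_lit 1271250, nat_lit 0, nat_lit 0, [nat_lit 490000, nat_lit 1100000, nat_lit 1442500], [nat_lit 6, nat_lit 40, nat_lit 80, nat_lit 80, nat_lit 3, nat_lit 203, nat_lit 0, nat_lit 7]⟩, ⟨p017_k41, nat_lit 0, nat_lit 0, nat_lit 822, nat_lit 0, nat_lit 1009091, [nat_lit 796800000, nat_lit 1187200000, nat_lit 1405800000], [], [nat_lit 4621842368, nat_lit 4567111572, nat_lit 4832599355, nat_lit 4779263081], nat_lit 1100001, nat_lit 1271250, nat_lit 1271250, nat_lit 1271250, nat_lit 0, nat_lit 0, [nat_lit 1695000, nat_lit 1271250, nat_lit 1271250], [nat_lit 62, nat_lit 40, nat_lit 80, nat_lit 80, nat_lit 58, nat_lit 373, nat_lit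 150, nat_lit 9]⟩,
 ⟨nat_lit 4183, nat_lit 4473, ⟨.ofNat (nat_lit 524844), .ofNat (nat_lit 708385), .ofNat (nat_lit 546410), .ofNat (nat_lit 729951), .ofNat (nat_lit 522921), .ofNat (nat_lit 701811), .ofNat (nat_lit 544587), .ofNat (nat_lit 723478)⟩, ⟨.ofNat (nat_lit 0), .ofNat (nat_lit 0), .ofNat (nat_lit 0), .ofNat (nat_lit 0), .ofNat (nat_lit 0), .ofNat (nat_lit 0), .ofNat (nat_lit 0), .ofNat (nat_lit 0)⟩⟩, [⟨nat_lit 13, nat_lit 79, nat_lit 74, nat_lit 100, nat_lit 178140534⟩]⟩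
noncomputable def p017_l209 : Lf2 := ⟨nat_lit 0, nat_lit 5, [nat_lit 4, nat_lit 5, nat_lit 5, nat_lit 20], false, nat_lit 0, nat_lit 0, nat_lit 0, nat_lit 0, ⟨nat_lit 97, nat_lit 339, nat_lit 564, nat_lit 6, nat_lit 246, nat_lit 0, nat_lit 0, nat_lit 0, nat_lit 0, nat_lit 215, nat_lit 149202, nat_lit 200, nat_lit 48633736, nat_lit 18366264, nat_lit 0, nat_lit 2936584, false, true⟩,
 nat_lit 3786, nat_lit 0, nat_lit 0, nat_lit 0, nat_lit 2951, nat_lit 1262, nat_lit 246, nat_lit 0, nat_lit 0, nat_lit 91, nat_lit 0, nat_lit 0, nat_lit 0, nat_lit 0, nat_lit 0, nat_lit 361200, nat_lit 0, nat_lit 0, [(nat_lit 18, [(nat_lit 1, nat_lit 339), (nat_lit 5, nat_lit 564)])],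
 ⟨p017_k46, nat_lit 0, nat_lit 0, nat_lit 292, nat_lit 0, nat_lit 547181, [nat_lit 1194914401, nat_lit 858683333], [], [nat_lit 22966879540, nat_lit 23413919218, nat_lit 26413698890, nat_lit 26818154682], nat_lit 1271250, nat_lit 1271250, nat_lit 1271250, nat_lit 1271250, nat_lit 0, nat_lit 0, [nat_lit 490000, nat_lit 1100000], [nat_lit 24, nat_lit 40, nat_lit 80, nat_lit 80, nat_lit 33, nat_lit 203, nat_lit 0, nat_lit 8]⟩, ⟨p017_k45, nat_lit 0, nat_lit 0, nat_lit 981, nat_lit 0, nat_lit 1353971, [nat_lit 772896000, nat_lit 1151584000, nat_lit 1363626000], [], [nat_lit 4403951096, nat_lit 4349077848, nat_lit 4611824556, nat_lit 4564398148], nat_lit 1100001, nat_lit 1271250, nat_lit 1271250, nat_lit 1271250, nat_lit 0, nat_lit 0, [nat_lit 1695000, nat_lit 1271250, nat_lit 1271250], [nat_lit 62, nat_lit 40, nat_lit 80, nat_lit 80, nat_lit 58, nat_lit 373, nat_lit 150, nat_lit 9]⟩,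
 ⟨nat_lit 3872, nat_lit 4184, ⟨.ofNat (nat_lit 522921), .ofNat (nat_lit 688560), .ofNat (nat_lit 544587), .ofNat (nat_lit 710226), .ofNat (nat_lit 520934), .ofNat (nat_lit 682237), .ofNat (nat_lit 542727), .ofNat (nat_lit 704031)⟩, ⟨.ofNat (nat_lit 0), .ofNat (nat_lit 0), .ofNat (nat_lit 0), .ofNat (nat_lit 0), .ofNat (nat_lit 0), .ofNat (nat_lit 0), .ofNat (nat_lit 0), .ofNat (nat_lit 0)⟩⟩, [⟨nat_lit 13, nat_lit 75, nat_lit 79, nat_lit 100, nat_lit 184282909⟩]⟩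
noncomputable def p017_l210 : Lf2 := ⟨nat_lit 0, nat_lit 10, [nat_lit 0, nat_lit 5, nat_lit 5, nat_lit 20], false, nat_lit 0, nat_lit 0, nat_lit 0, nat_lit 0, ⟨nat_lit 95, nat_lit 148, nat_lit 757, nat_lit 6, nat_lit 246, nat_lit 0, nat_lit 0, nat_lit 0, nat_lit 0, nat_lit 215, nat_lit 149202, nat_lit 200, nat_lit 48633736, nat_lit 18366264, nat_lit 0, nat_lit 2936584, false, true⟩,
 nat_lit 3480, nat_lit 0, nat_lit 0, nat_lit 0, nat_lit 2712, nat_lit 1159, nat_lit 4, nat_lit 0, nat_lit 0, nat_lit 68, nat_lit 0, nat_lit 0, nat_lit 0, nat_lit 0, nat_lit 13, nat_lit 362000, nat_lit 0, nat_lit 0, [(nat_lit 18, [(nat_lit 1, nat_lit 148), (nat_lit 5, nat_lit 757)])],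
 ⟨p017_k35, nat_lit 0, nat_lit 0, nat_lit 309, nat_lit 0, nat_lit 444311, [nat_lit 1207065334, nat_lit 631028667, nat_lit 4512000], [], [nat_lit 22658525362, nat_lit 23056802714, nat_lit 25870872522, nat_lit 26252147868], nat_lit 1271250, nat_lit 1271250, nat_lit 1271250, nat_lit 1271250, nat_lit 0, nat_lit 0, [nat_lit 490000, nat_lit 1100000, nat_lit 1442500], [nat_lit 6, nat_lit 40, nat_lit 80, nat_lit 80, nat_lit 3, nat_lit 203, nat_lit 0, nat_lit 7]⟩, ⟨p017_k41, nat_lit 0, nat_lit 0, nat_lit 886, nat_lit 0, nat_lit 1151794, [nat_lit 756960000, nat_lit 1127840000, nat_lit 1335510000], [], [nat_lit 4545777208, nat_lit 4497274122, nat_lit 4648027266, nat_lit 4602234340], nat_lit 1100001, nat_lit 1271250, nat_lit 1271250, nat_lit 1271250, nat_lit 0, nat_lit 0, [nat_lit 1695000, nat_lit 1271250, nat_lit 1271250], [nat_lit 62, nat_lit 40, nat_lit 80, nat_lit 80, nat_lit 58, nat_lit 373, nat_lit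 150, nat_lit 9]⟩,
 ⟨nat_lit 3872, nat_lit 4184, ⟨.ofNat (nat_lit 522921), .ofNat (nat_lit 688560), .ofNat (nat_lit 544587), .ofNat (nat_lit 710226), .ofNat (nat_lit 520934), .ofNat (nat_lit 682237), .ofNat (nat_lit 542727), .ofNat (nat_lit 704031)⟩, ⟨.ofNat (nat_lit 0), .ofNat (nat_lit 0), .ofNat (nat_lit 0), .ofNat (nat_lit 0), .ofNat (nat_lit 0), .ofNat (nat_lit 0), .ofNat (nat_lit 0), .ofNat (nat_lit 0)⟩⟩, [⟨nat_lit 13, nat_lit 75, nat_lit 79, nat_lit 100, nat_lit 187674813⟩]⟩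
noncomputable def p017_l211 : Lf2 := ⟨nat_lit 0, nat_lit 10, [nat_lit 0, nat_lit 5, nat_lit 5, nat_lit 20], false, nat_lit 0, nat_lit 0, nat_lit 0, nat_lit 0, ⟨nat_lit 168, nat_lit 245, nat_lit 587, nat_lit 6, nat_lit 259, nat_lit 0, nat_lit 0, nat_lit 0, nat_lit 0, nat_lit 215, nat_lit 237410, nat_lit 200, nat_lit 47176712, nat_lit 19823288, nat_lit 0, nat_lit 3036620, true, true⟩,
 nat_lit 4198, nat_lit 0, nat_lit 0, nat_lit 0, nat_lit 3148, nat_lit 1596, nat_lit 0, nat_lit 0, nat_lit 0, nat_lit 418, nat_lit 0, nat_lit 0, nat_lit 0, nat_lit 0, nat_lit 0, nat_lit 332800, nat_lit 0, nat_lit 0, [(nat_lit 18, [(nat_lit 1, nat_lit 245), (nat_lit 5, nat_lit 587)])],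
 ⟨p017_k33, nat_lit 0, nat_lit 0, nat_lit 346, nat_lit 0, nat_lit 555890, [nat_lit 1229124267, nat_lit 1026399334, nat_lit 646843600], [], [nat_lit 24083196119, nat_lit 24445251819, nat_lit 27430391184, nat_lit 27722241935], nat_lit 1271250, nat_lit 1271250, nat_lit 1271250, nat_lit 1271250, nat_lit 0, nat_lit 0, [nat_lit 490000, nat_lit 1100000, nat_lit 1442500], [nat_lit 6, nat_lit 40, nat_lit 80, nat_lit 80, nat_lit 3, nat_lit 203, nat_lit 0, nat_lit 7]⟩, ⟨p017_k36, nat_lit 0, nat_lit 0, nat_lit 901, nat_lit 0, nat_lit 1185601, [nat_lit 1338624000, nat_lit 1994496000, nat_lit 2361744000], [], [nat_lit 6499273996, nat_lit 6472996948, nat_lit 6945868206, nat_lit 6918823625], nat_lit 1271250, nat_lit 1271250, nat_lit 1271250, nat_lit 1271250, nat_lit 0, nat_lit 0, [nat_lit 1695000, nat_lit 1271250, nat_lit 1271250], [nat_lit 62, nat_lit 40, nat_lit 80, nat_lit 80, nat_lit 58, nat_lit 373, nat_lit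 150, nat_lit 9]⟩,
 ⟨nat_lit 4183, nat_lit 4473, ⟨.ofNat (nat_lit 546410), .ofNat (nat_lit 743547), .ofNat (nat_lit 557193), .ofNat (nat_lit 754330), .ofNat (nat_lit 544587), .ofNat (nat_lit 736729), .ofNat (nat_lit 555421), .ofNat (nat_lit 747562)⟩, ⟨.ofNat (nat_lit 0), .ofNat (nat_lit 0), .ofNat (nat_lit 0), .ofNat (nat_lit 0), .ofNat (nat_lit 0), .ofNat (nat_lit 0), .ofNat (nat_lit 0), .ofNat (nat_lit 0)⟩⟩, [⟨nat_lit 13, nat_lit 78, nat_lit 68, nat_lit 100, nat_lit 107591487⟩]⟩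
noncomputable def p017_l212 : Lf2 := ⟨nat_lit 0, nat_lit 10, [nat_lit 0, nat_lit 5, nat_lit 5, nat_lit 20], false, nat_lit 0, nat_lit 0, nat_lit 0, nat_lit 0, ⟨nat_lit 237, nat_lit 763, nat_lit 0, nat_lit 6, nat_lit 265, nat_lit 0, nat_lit 0, nat_lit 0, nat_lit 0, nat_lit 0, nat_lit 0, nat_lit 0, nat_lit 46568006, nat_lit 20431994, nat_lit 0, nat_lit 3075021, true, true⟩,
 nat_lit 5313, nat_lit 0, nat_lit 0, nat_lit 0, nat_lit 3984, nat_lit 2147, nat_lit 0, nat_lit 0, nat_lit 0, nat_lit 394, nat_lit 0, nat_lit 0, nat_lit 0, nat_lit 0, nat_lit 0, nat_lit 619000, nat_lit 0, nat_lit 0, [(nat_lit 18, [(nat_lit 1, nat_lit 240), (nat_lit 2, nat_lit 523)])],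
 ⟨p017_k33, nat_lit 0, nat_lit 0, nat_lit 349, nat_lit 0, nat_lit 562738, [nat_lit 1707212267, nat_lit 2129765334, nat_lit 1720048400], [], [nat_lit 26049962007, nat_lit 26442134607, nat_lit 29740933181, nat_lit 30065350229], nat_lit 1271250, nat_lit 1271250, nat_lit 1271250, nat_lit 1271250, nat_lit 0, nat_lit 0, [nat_lit 490000, nat_lit 1100000, nat_lit 1442500], [nat_lit 6, nat_lit 40, nat_lit 80, nat_lit 80, nat_lit 3, nat_lit 203, nat_lit 0, nat_lit 7]⟩, ⟨p017_k47, nat_lit 0, nat_lit 0, nat_lit 856, nat_lit 0, nat_lit 1118651, [nat_lit 1888416000, nat_lit 2813664000, nat_lit 3331746000], [], [nat_lit 9686292845, nat_lit 9652554480, nat_lit 9889679584, nat_lit 9851988850], nat_lit 1271250, nat_lit 1271250, nat_lit 1271250, nat_lit 1271250, nat_lit 0, nat_lit 0, [nat_lit 1695000, nat_lit 1271250, nat_lit 1271250], [nat_lit 62, nat_lit 40, nat_lit 80, nat_lit 80, nat_lit 58, nat_lit 373,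 nat_lit 150, nat_lit 9]⟩,
 ⟨nat_lit 4183, nat_lit 4473, ⟨.ofNat (nat_lit 557193), .ofNat (nat_lit 761128), .ofNat (nat_lit 567977), .ofNat (nat_lit 771911), .ofNat (nat_lit 555421), .ofNat (nat_lit 754188), .ofNat (nat_lit 566254), .ofNat (nat_lit 765021)⟩, ⟨.ofNat (nat_lit 0), .ofNat (nat_lit 0), .ofNat (nat_lit 0), .ofNat (nat_lit 0), .ofNat (nat_lit 0), .ofNat (nat_lit 0), .ofNat (nat_lit 0), .ofNat (nat_lit 0)⟩⟩, [⟨nat_lit 13, nat_lit 78, nat_lit 64, nat_lit 100, nat_lit 3027269⟩]⟩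
noncomputable def p017_l213 : Lf2 := ⟨nat_lit 0, nat_lit 10, [nat_lit 0, nat_lit 5, nat_lit 5, nat_lit 20], false, nat_lit 0, nat_lit 0, nat_lit 0, nat_lit 0, ⟨nat_lit 160, nat_lit 285, nat_lit 555, nat_lit 6, nat_lit 255, nat_lit 0, nat_lit 0, nat_lit 0, nat_lit 0, nat_lit 215, nat_lit 197372, nat_lit 200, nat_lit 47645014, nat_lit 19354986, nat_lit 0, nat_lit 3005729, true, true⟩,
 nat_lit 4074, nat_lit 0, nat_lit 0, nat_lit 0, nat_lit 3175, nat_lit 1549, nat_lit 0, nat_lit 0, nat_lit 0, nat_lit 398, nat_lit 0, nat_lit 0, nat_lit 0, nat_lit 0, nat_lit 0, nat_lit 336000, nat_lit 0, nat_lit 0, [(nat_lit 18, [(nat_lit 1, nat_lit 285), (nat_lit 5, nat_lit 555)])],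
 ⟨p017_k35, nat_lit 0, nat_lit 0, nat_lit 355, nat_lit 0, nat_lit 585320, [nat_lit 1239072001, nat_lit 1080810000, nat_lit 723442000], [], [nat_lit 24344070626, nat_lit 24727640451, nat_lit 27543364763, nat_lit 27862704830], nat_lit 1271250, nat_lit 1271250, nat_lit 1271250, nat_lit 1271250, nat_lit 0, nat_lit 0, [nat_lit 490000, nat_lit 1100000, nat_lit 1442500], [nat_lit 6, nat_lit 40, nat_lit 80, nat_lit 80, nat_lit 3, nat_lit 203, nat_lit 0, nat_lit 7]⟩, ⟨p017_k36, nat_lit 0, nat_lit 0, nat_lit 950, nat_lit 0, nat_lit 1301506, [nat_lit 1274880000, nat_lit 1899520000, nat_lit 2249280000], [], [nat_lit 6124798578, nat_lit 6106860949, nat_lit 6520894204, nat_lit 6497095127], nat_lit 1271250, nat_lit 1271250, nat_lit 1271250, nat_lit 1271250, nat_lit 0, nat_lit 0, [nat_lit 1695000, nat_lit 1271250, nat_lit 1271250], [nat_lit 62, nat_lit 40, nat_lit 80, nat_lit 80, nat_lit 58, nat_lit 373, nat_lit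 150, nat_lit 9]⟩,
 ⟨nat_lit 3872, nat_lit 4184, ⟨.ofNat (nat_lit 544587), .ofNat (nat_lit 723478), .ofNat (nat_lit 555421), .ofNat (nat_lit 734311), .ofNat (nat_lit 542727), .ofNat (nat_lit 716935), .ofNat (nat_lit 553623), .ofNat (nat_lit 727832)⟩, ⟨.ofNat (nat_lit 0), .ofNat (nat_lit 0), .ofNat (nat_lit 0), .ofNat (nat_lit 0), .ofNat (nat_lit 0), .ofNat (nat_lit 0), .ofNat (nat_lit 0), .ofNat (nat_lit 0)⟩⟩, [⟨nat_lit 13, nat_lit 74, nat_lit 73, nat_lit 100, nat_lit 124986373⟩]⟩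
noncomputable def p017_l214 : Lf2 := ⟨nat_lit 0, nat_lit 10, [nat_lit 0, nat_lit 5, nat_lit 5, nat_lit 20], false, nat_lit 0, nat_lit 0, nat_lit 0, nat_lit 0, ⟨nat_lit 178, nat_lit 289, nat_lit 533, nat_lit 6, nat_lit 261, nat_lit 0, nat_lit 0, nat_lit 0, nat_lit 0, nat_lit 215, nat_lit 232290, nat_lit 200, nat_lit 47035688, nat_lit 19964312, nat_lit 0, nat_lit 3045692, true, true⟩,
 nat_lit 4059, nat_lit 0, nat_lit 0, nat_lit 0, nat_lit 3164, nat_lit 1640, nat_lit 49, nat_lit 0, nat_lit 0, nat_lit 309, nat_lit 0, nat_lit 0, nat_lit 0, nat_lit 0, nat_lit 0, nat_lit 328800, nat_lit 0, nat_lit 0, [(nat_lit 18, [(nat_lit 1, nat_lit 289), (nat_lit 5, nat_lit 533)])],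
 ⟨p017_k35, nat_lit 0, nat_lit 0, nat_lit 358, nat_lit 0, nat_lit 590531, [nat_lit 1260806934, nat_lit 1182168667, nat_lit 876899600], [], [nat_lit 24443402110, nat_lit 24826528426, nat_lit 27774961740, nat_lit 28090422586], nat_lit 1271250, nat_lit 1271250, nat_lit 1271250, nat_lit 1271250, nat_lit 0, nat_lit 0, [nat_lit 490000, nat_lit 1100000, nat_lit 1442500], [nat_lit 6, nat_lit 40, nat_lit 80, nat_lit 80, nat_lit 3, nat_lit 203, nat_lit 0, nat_lit 7]⟩, ⟨p017_k47, nat_lit 0, nat_lit 0, nat_lit 913, nat_lit 0, nat_lit 1223866, [nat_lit 1418304000, nat_lit 2113216000, nat_lit 2502324000], [], [nat_lit 7064315272, nat_lit 7038597483, nat_lit 7250034855, nat_lit 7229144922], nat_lit 1271250, nat_lit 1271250, nat_lit 1271250, nat_lit 1271250, nat_lit 0, nat_lit 0, [nat_lit 1695000, nat_lit 1271250, nat_lit 1271250], [nat_lit 62, nat_lit 40, nat_lit 80, nat_lit 80, nat_lit 58, nat_lit 373, nat_lit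 150, nat_lit 9]⟩,
 ⟨nat_lit 3872, nat_lit 4184, ⟨.ofNat (nat_lit 555421), .ofNat (nat_lit 740936), .ofNat (nat_lit 566254), .ofNat (nat_lit 751770), .ofNat (nat_lit 553623), .ofNat (nat_lit 734284), .ofNat (nat_lit 564520), .ofNat (nat_lit 745180)⟩, ⟨.ofNat (nat_lit 0), .ofNat (nat_lit 0), .ofNat (nat_lit 0), .ofNat (nat_lit 0), .ofNat (nat_lit 0), .ofNat (nat_lit 0), .ofNat (nat_lit 0), .ofNat (nat_lit 0)⟩⟩, [⟨nat_lit 13, nat_lit 74, nat_lit 69, nat_lit 100, nat_lit 99822057⟩]⟩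
noncomputable def p017_l215 : Lf2 := ⟨nat_lit 0, nat_lit 10, [nat_lit 0, nat_lit 5, nat_lit 5, nat_lit 20], false, nat_lit 0, nat_lit 0, nat_lit 0, nat_lit 0, ⟨nat_lit 99, nat_lit 681, nat_lit 220, nat_lit 6, nat_lit 242, nat_lit 0, nat_lit 0, nat_lit 0, nat_lit 0, nat_lit 215, nat_lit 111002, nat_lit 200, nat_lit 49090068, nat_lit 17909932, nat_lit 0, nat_lit 2902835, false, true⟩,
 nat_lit 3923, nat_lit 0, nat_lit 0, nat_lit 0, nat_lit 3175, nat_lit 1307, nat_lit 88, nat_lit 0, nat_lit 0, nat_lit 95, nat_lit 0, nat_lit 0, nat_lit 0, nat_lit 0, nat_lit 0, nat_lit 492400, nat_lit 0, nat_lit 0, [(nat_lit 21, [(nat_lit 1, nat_lit 681), (nat_lit 6, nat_lit 220)])],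
 ⟨p017_k40, nat_lit 0, nat_lit 0, nat_lit 364, nat_lit 0, nat_lit 617416, [nat_lit 1290731201, nat_lit 885828801, nat_lit 706754000], [], [nat_lit 23847406207, nat_lit 24321690107, nat_lit 27080397900, nat_lit 27477718811], nat_lit 1271250, nat_lit 1271250, nat_lit 1271250, nat_lit 1271250, nat_lit 0, nat_lit 0, [nat_lit 490000, nat_lit 1100000, nat_lit 1442500], [nat_lit 6, nat_lit 40, nat_lit 80, nat_lit 80, nat_lit 3, nat_lit 203, nat_lit 0, nat_lit 7]⟩, ⟨p017_k41, nat_lit 0, nat_lit 0, nat_lit 1124, nat_lit 0, nat_lit 1666921, [nat_lit 788832000, nat_lit 1175328000, nat_lit 1391742000], [], [nat_lit 4437399128, nat_lit 4395759768, nat_lit 4642308406, nat_lit 4591830195], nat_lit 1100001, nat_lit 1271250, nat_lit 1271250, nat_lit 1271250, nat_lit 0, nat_lit 0, [nat_lit 1695000, nat_lit 1271250, nat_lit 1271250], [nat_lit 62, nat_lit 40, nat_lit 80, nat_lit 80, nat_lit 58, nat_lit 373, nat_lit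 150, nat_lit 9]⟩,
 ⟨nat_lit 3535, nat_lit 3873, ⟨.ofNat (nat_lit 520934), .ofNat (nat_lit 669333), .ofNat (nat_lit 542727), .ofNat (nat_lit 691126), .ofNat (nat_lit 518855), .ofNat (nat_lit 663206), .ofNat (nat_lit 540807), .ofNat (nat_lit 685159)⟩, ⟨.ofNat (nat_lit 0), .ofNat (nat_lit 0), .ofNat (nat_lit 0), .ofNat (nat_lit 0), .ofNat (nat_lit 0), .ofNat (nat_lit 0), .ofNat (nat_lit 0), .ofNat (nat_lit 0)⟩⟩, [⟨nat_lit 13, nat_lit 70, nat_lit 83, nat_lit 100, nat_lit 172789921⟩]⟩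
noncomputable def p017_l216 : Lf2 := ⟨nat_lit 0, nat_lit 10, [nat_lit 0, nat_lit 5, nat_lit 5, nat_lit 20], false, nat_lit 0, nat_lit 0, nat_lit 0, nat_lit 0, ⟨nat_lit 95, nat_lit 745, nat_lit 160, nat_lit 6, nat_lit 236, nat_lit 0, nat_lit 0, nat_lit 0, nat_lit 0, nat_lit 215, nat_lit 61410, nat_lit 200, nat_lit 49672052, nat_lit 17327948, nat_lit 0, nat_lit 2858073, false, true⟩,
 nat_lit 3835, nat_lit 0, nat_lit 0, nat_lit 0, nat_lit 3221, nat_lit 1278, nat_lit 111, nat_lit 0, nat_lit 0, nat_lit 93, nat_lit 0, nat_lit 0, nat_lit 0, nat_lit 0, nat_lit 0, nat_lit 458000, nat_lit 0, nat_lit 0, [(nat_lit 21, [(nat_lit 1, nat_lit 745), (nat_lit 6, nat_lit 160)])],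
 ⟨p017_k48, nat_lit 0, nat_lit 0, nat_lit 331, nat_lit 0, nat_lit 646948, [nat_lit 1323880000, nat_lit 1106310000], [], [nat_lit 24380219867, nat_lit 24857266895, nat_lit 27072931447, nat_lit 27498447216], nat_lit 1271250, nat_lit 1271250, nat_lit 1271250, nat_lit 1271250, nat_lit 0, nat_lit 0, [nat_lit 490000, nat_lit 1100000], [nat_lit 24, nat_lit 40, nat_lit 80, nat_lit 80, nat_lit 33, nat_lit 203, nat_lit 0, nat_lit 8]⟩, ⟨p017_k41, nat_lit 0, nat_lit 0, nat_lit 1188, nat_lit 0, nat_lit 1817322, [nat_lit 756960000, nat_lit 1127840000, nat_lit 1335510000], [], [nat_lit 4213269348, nat_lit 4175640318, nat_lit 4367062920, nat_lit 4316870088], nat_lit 1100001, nat_lit 1271250, nat_lit 1271250, nat_lit 1271250, nat_lit 0, nat_lit 0, [nat_lit 1695000, nat_lit 1271250, nat_lit 1271250], [nat_lit 62, nat_lit 40, nat_lit 80, nat_lit 80, nat_lit 58, nat_lit 360, nat_lit 125, nat_lit 8]⟩,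
 ⟨nat_lit 3162, nat_lit 3536, ⟨.ofNat (nat_lit 518855), .ofNat (nat_lit 644378), .ofNat (nat_lit 540807), .ofNat (nat_lit 666330), .ofNat (nat_lit 516642), .ofNat (nat_lit 638549), .ofNat (nat_lit 538797), .ofNat (nat_lit 660704)⟩, ⟨.ofNat (nat_lit 0), .ofNat (nat_lit 0), .ofNat (nat_lit 0), .ofNat (nat_lit 0), .ofNat (nat_lit 0), .ofNat (nat_lit 0), .ofNat (nat_lit 0), .ofNat (nat_lit 0)⟩⟩, [⟨nat_lit 13, nat_lit 64, nat_lit 87, nat_lit 100, nat_lit 182372663⟩]⟩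
noncomputable def p017_l217 : Lf2 := ⟨nat_lit 0, nat_lit 10, [nat_lit 0, nat_lit 5, nat_lit 5, nat_lit 20], false, nat_lit 0, nat_lit 0, nat_lit 0, nat_lit 0, ⟨nat_lit 168, nat_lit 832, nat_lit 0, nat_lit 6, nat_lit 254, nat_lit 0, nat_lit 0, nat_lit 0, nat_lit 0, nat_lit 0, nat_lit 0, nat_lit 0, nat_lit 47728249, nat_lit 19271751, nat_lit 0, nat_lit 3000115, true, true⟩,
 nat_lit 4276, nat_lit 0, nat_lit 0, nat_lit 0, nat_lit 3461, nat_lit 1626, nat_lit 207, nat_lit 0, nat_lit 0, nat_lit 420, nat_lit 0, nat_lit 0, nat_lit 0, nat_lit 0, nat_lit 0, nat_lit 332800, nat_lit 0, nat_lit 0, [(nat_lit 21, [(nat_lit 1, nat_lit 832)])],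
 ⟨p017_k40, nat_lit 0, nat_lit 0, nat_lit 366, nat_lit 0, nat_lit 616797, [nat_lit 1468902400, nat_lit 2029593601, nat_lit 2291344000], [], [nat_lit 25097238741, nat_lit 25545931295, nat_lit 28569397393, nat_lit 28935560781], nat_lit 1271250, nat_lit 1271250, nat_lit 1271250, nat_lit 1271250, nat_lit 0, nat_lit 0, [nat_lit 490000, nat_lit 1100000, nat_lit 1442500], [nat_lit 6, nat_lit 40, nat_lit 80, nat_lit 80, nat_lit 3, nat_lit 203, nat_lit 0, nat_lit 7]⟩, ⟨p017_k36, nat_lit 0, nat_lit 0, nat_lit 1003, nat_lit 0, nat_lit 1428380, [nat_lit 1338624000, nat_lit 1994496000, nat_lit 2361744000], [], [nat_lit 6432335544, nat_lit 6387271212, nat_lit 6814212073, nat_lit 6763009347], nat_lit 1271250, nat_lit 1271250, nat_lit 1271250, nat_lit 1271250, nat_lit 0, nat_lit 0, [nat_lit 1695000, nat_lit 1271250, nat_lit 1271250], [nat_lit 62, nat_lit 40, nat_lit 80, nat_lit 80, nat_lit 58, nat_lit 373,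 nat_lit 150, nat_lit 9]⟩,
 ⟨nat_lit 3535, nat_lit 3873, ⟨.ofNat (nat_lit 542727), .ofNat (nat_lit 710483), .ofNat (nat_lit 564520), .ofNat (nat_lit 732276), .ofNat (nat_lit 540807), .ofNat (nat_lit 703987), .ofNat (nat_lit 562760), .ofNat (nat_lit 725940)⟩, ⟨.ofNat (nat_lit 0), .ofNat (nat_lit 0), .ofNat (nat_lit 0), .ofNat (nat_lit 0), .ofNat (nat_lit 0), .ofNat (nat_lit 0), .ofNat (nat_lit 0), .ofNat (nat_lit 0)⟩⟩, [⟨nat_lit 13, nat_lit 69, nat_lit 76, nat_lit 100, nat_lit 102697209⟩]⟩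
noncomputable def p017_l218 : Lf2 := ⟨nat_lit 0, nat_lit 10, [nat_lit 0, nat_lit 5, nat_lit 5, nat_lit 20], false, nat_lit 0, nat_lit 0, nat_lit 0, nat_lit 0, ⟨nat_lit 159, nat_lit 841, nat_lit 0, nat_lit 6, nat_lit 250, nat_lit 0, nat_lit 0, nat_lit 0, nat_lit 0, nat_lit 0, nat_lit 0, nat_lit 0, nat_lit 48177269, nat_lit 18822731, nat_lit 0, nat_lit 2969176, true, true⟩,
 nat_lit 4127, nat_lit 0, nat_lit 0, nat_lit 0, nat_lit 3466, nat_lit 1569, nat_lit 98, nat_lit 0, nat_lit 0, nat_lit 396, nat_lit 0, nat_lit 0, nat_lit 0, nat_lit 0, nat_lit 0, nat_lit 336400, nat_lit 0, nat_lit 0, [(nat_lit 21, [(nat_lit 1, nat_lit 841)])],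
 ⟨p017_k48, nat_lit 0, nat_lit 0, nat_lit 333, nat_lit 0, nat_lit 641563, [nat_lit 1462811201, nat_lit 1993436000], [], [nat_lit 25394625820, nat_lit 25870803168, nat_lit 28673392632, nat_lit 29081003535], nat_lit 1271250, nat_lit 1271250, nat_lit 1271250, nat_lit 1271250, nat_lit 0, nat_lit 0, [nat_lit 490000, nat_lit 1100000], [nat_lit 24, nat_lit 40, nat_lit 80, nat_lit 80, nat_lit 33, nat_lit 203, nat_lit 0, nat_lit 8]⟩, ⟨p017_k36, nat_lit 0, nat_lit 0, nat_lit 1053, nat_lit 0, nat_lit 1545845, [nat_lit 1266912000, nat_lit 1887648000, nat_lit 2235222000], [], [nat_lit 6033961890, nat_lit 5997119352, nat_lit 6359528828, nat_lit 6315888977], nat_lit 1271250, nat_lit 1271250, nat_lit 1271250, nat_lit 1271250, nat_lit 0, nat_lit 0, [nat_lit 1695000, nat_lit 1271250, nat_lit 1271250], [nat_lit 62, nat_lit 40, nat_lit 80, nat_lit 80, nat_lit 58, nat_lit 373, nat_lit 150, nat_lit 9]⟩,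
 ⟨nat_lit 3162, nat_lit 3536, ⟨.ofNat (nat_lit 540807), .ofNat (nat_lit 691435), .ofNat (nat_lit 562760), .ofNat (nat_lit 713387), .ofNat (nat_lit 538797), .ofNat (nat_lit 685085), .ofNat (nat_lit 560952), .ofNat (nat_lit 707240)⟩, ⟨.ofNat (nat_lit 0), .ofNat (nat_lit 0), .ofNat (nat_lit 0), .ofNat (nat_lit 0), .ofNat (nat_lit 0), .ofNat (nat_lit 0), .ofNat (nat_lit 0), .ofNat (nat_lit 0)⟩⟩, [⟨nat_lit 13, nat_lit 63, nat_lit 81, nat_lit 100, nat_lit 133831270⟩]⟩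
noncomputable def p017_l219 : Lf2 := ⟨nat_lit 0, nat_lit 10, [nat_lit 0, nat_lit 5, nat_lit 5, nat_lit 20], false, nat_lit 0, nat_lit 0, nat_lit 0, nat_lit 0, ⟨nat_lit 181, nat_lit 819, nat_lit 0, nat_lit 4, nat_lit 183, nat_lit 0, nat_lit 0, nat_lit 0, nat_lit 0, nat_lit 0, nat_lit 0, nat_lit 0, nat_lit 0, nat_lit 0, nat_lit 0, nat_lit 5000000, false, true⟩,
 nat_lit 0, nat_lit 5451, nat_lit 0, nat_lit 0, nat_lit 4088, nat_lit 2576, nat_lit 137, nat_lit 0, nat_lit 0, nat_lit 277, nat_lit 0, nat_lit 0, nat_lit 0, nat_lit 0, nat_lit 0, nat_lit 819000, nat_lit 0, nat_lit 0, [(nat_lit 18, [(nat_lit 2, nat_lit 819)])],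
 ⟨p017_k33, nat_lit 0, nat_lit 0, nat_lit 569, nat_lit 0, nat_lit 942966, [nat_lit 1761620801, nat_lit 1704656001, nat_lit 768269200], [], [nat_lit 25031096597, nat_lit 25470506610, nat_lit 31177282645, nat_lit 30318673749], nat_lit 1271250, nat_lit 1271250, nat_lit 88400, nat_lit 2569500, nat_lit 0, nat_lit 0, [nat_lit 490000, nat_lit 1100000, nat_lit 1442500], [nat_lit 6, nat_lit 40, nat_lit 80, nat_lit 80, nat_lit 3, nat_lit 317, nat_lit 100, nat_lit 12]⟩, ⟨p017_k41, nat_lit 0, nat_lit 0, nat_lit 478, nat_lit 0, nat_lit 0, [nat_lit 1442208000, nat_lit 2148832000, nat_lit 2544498000], [], [nat_lit 9344214789, nat_lit 9392926711, nat_lit 8784625834, nat_lit 8622836530], nat_lit 0, nat_lit 0, nat_lit 0, nat_lit 0, nat_lit 0, nat_lit 0, [], [nat_lit 62, nat_lit 40, nat_lit 80, nat_lit 80, nat_lit 58, nat_lit 373, nat_lit 150, nat_lit 9]⟩,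
 ⟨nat_lit 4183, nat_lit 4473, ⟨.ofNat (nat_lit 144166), .ofNat (nat_lit 728778), .ofNat (nat_lit 187296), .ofNat (nat_lit 771911), .ofNat (nat_lit 151889), .ofNat (nat_lit 721688), .ofNat (nat_lit 195219), .ofNat (nat_lit 765021)⟩, ⟨.ofNat (nat_lit 0), .ofNat (nat_lit 0), .ofNat (nat_lit 0), .ofNat (nat_lit 0), .ofNat (nat_lit 0), .ofNat (nat_lit 0), .ofNat (nat_lit 0), .ofNat (nat_lit 0)⟩⟩, []⟩
noncomputable def p017_l220 : Lf2 := ⟨nat_lit 0, nat_lit 10, [nat_lit 0, nat_lit 5, nat_lit 5, nat_lit 20], true, nat_lit 0, nat_lit 0, nat_lit 0, nat_lit 0, ⟨nat_lit 0, nat_lit 1000, nat_lit 0, nat_lit 4, nat_lit 183, nat_lit 0, nat_lit 0, nat_lit 0, nat_lit 0, nat_lit 0, nat_lit 0, nat_lit 0, nat_lit 0, nat_lit 0, nat_lit 0, nat_lit 5000000, false, true⟩,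
 nat_lit 0, nat_lit 4508, nat_lit 0, nat_lit 0, nat_lit 3514, nat_lit 0, nat_lit 874, nat_lit 0, nat_lit 0, nat_lit 0, nat_lit 0, nat_lit 0, nat_lit 0, nat_lit 0, nat_lit 0, nat_lit 400000, nat_lit 0, nat_lit 0, [(nat_lit 18, [(nat_lit 1, nat_lit 1000)])],
 ⟨p017_k35, nat_lit 0, nat_lit 0, nat_lit 582, nat_lit 0, nat_lit 981693, [nat_lit 1398133334, nat_lit 1966666667, nat_lit 1960800000], [], [nat_lit 23084322905, nat_lit 23550594533, nat_lit 28587013658, nat_lit 28963522872], nat_lit 1271250, nat_lit 1271250, nat_lit 134400, nat_lit 2524700, nat_lit 0, nat_lit 0, [nat_lit 490000, nat_lit 1100000, nat_lit 1442500], [nat_lit 6, nat_lit 40, nat_lit 80, nat_lit 80, nat_lit 3, nat_lit 317, nat_lit 100, nat_lit 12]⟩, C1.Rw.none,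
 ⟨nat_lit 3872, nat_lit 4184, ⟨.ofNat (nat_lit 165138), .ofNat (nat_lit 708436), .ofNat (nat_lit 208462), .ofNat (nat_lit 751770), .ofNat (nat_lit 172514), .ofNat (nat_lit 701594), .ofNat (nat_lit 216092), .ofNat (nat_lit 745180)⟩, ⟨.ofNat (nat_lit 0), .ofNat (nat_lit 0), .ofNat (nat_lit 0), .ofNat (nat_lit 0), .ofNat (nat_lit 0), .ofNat (nat_lit 0), .ofNat (nat_lit 0), .ofNat (nat_lit 0)⟩⟩, [⟨nat_lit 13, nat_lit 74, nat_lit 75, nat_lit 100, nat_lit 183921465⟩]⟩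
noncomputable def p017_l221 : Lf2 := ⟨nat_lit 0, nat_lit 10, [nat_lit 0, nat_lit 5, nat_lit 5, nat_lit 20], true, nat_lit 0, nat_lit 0, nat_lit 0, nat_lit 0, ⟨nat_lit 0, nat_lit 1000, nat_lit 0, nat_lit 4, nat_lit 184, nat_lit 0, nat_lit 0, nat_lit 0, nat_lit 0, nat_lit 0, nat_lit 0, nat_lit 0, nat_lit 0, nat_lit 0, nat_lit 0, nat_lit 5000000, false, true⟩,
 nat_lit 0, nat_lit 4467, nat_lit 0, nat_lit 0, nat_lit 3616, nat_lit 0, nat_lit 861, nat_lit 0, nat_lit 0, nat_lit 0, nat_lit 0, nat_lit 0, nat_lit 0, nat_lit 0, nat_lit 0, nat_lit 400000, nat_lit 0, nat_lit 0, [(nat_lit 21, [(nat_lit 1, nat_lit 1000)])],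
 ⟨p017_k40, nat_lit 0, nat_lit 0, nat_lit 641, nat_lit 0, nat_lit 1110571, [nat_lit 1355200000, nat_lit 1492800001, nat_lit 1492000000], [], [nat_lit 23166216096, nat_lit 24265273652, nat_lit 29278130432, nat_lit 29970119825], nat_lit 1271250, nat_lit 1271250, nat_lit 181601, nat_lit 2478700, nat_lit 0, nat_lit 0, [nat_lit 490000, nat_lit 1100000, nat_lit 1442500], [nat_lit 6, nat_lit 40, nat_lit 80, nat_lit 80, nat_lit 3, nat_lit 317, nat_lit 100, nat_lit 12]⟩, C1.Rw.none,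
 ⟨nat_lit 3162, nat_lit 3873, ⟨.ofNat (nat_lit 185344), .ofNat (nat_lit 688690), .ofNat (nat_lit 228873), .ofNat (nat_lit 732276), .ofNat (nat_lit 199607), .ofNat (nat_lit 675121), .ofNat (nat_lit 243860), .ofNat (nat_lit 719431)⟩, ⟨.ofNat (nat_lit 0), .ofNat (nat_lit 0), .ofNat (nat_lit 0), .ofNat (nat_lit 0), .ofNat (nat_lit 0), .ofNat (nat_lit 0), .ofNat (nat_lit 0), .ofNat (nat_lit 0)⟩⟩, [⟨nat_lit 13, nat_lit 66, nat_lit 82, nat_lit 100, nat_lit 222669909⟩]⟩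
noncomputable def p017_l222 : Lf2 := ⟨nat_lit 0, nat_lit 10, [nat_lit 0, nat_lit 5, nat_lit 5, nat_lit 20], false, nat_lit 0, nat_lit 0, nat_lit 0, nat_lit 0, ⟨nat_lit 0, nat_lit 1000, nat_lit 0, nat_lit 4, nat_lit 183, nat_lit 0, nat_lit 0, nat_lit 0, nat_lit 0, nat_lit 0, nat_lit 0, nat_lit 0, nat_lit 0, nat_lit 0, nat_lit 0, nat_lit 5000000, false, true⟩,
 nat_lit 0, nat_lit 5115, nat_lit 0, nat_lit 0, nat_lit 3836, nat_lit 0, nat_lit 0, nat_lit 0, nat_lit 0, nat_lit 0, nat_lit 0, nat_lit 0, nat_lit 0, nat_lit 0, nat_lit 0, nat_lit 541000, nat_lit 0, nat_lit 0, [(nat_lit 18, [(nat_lit 1, nat_lit 765), (nat_lit 2, nat_lit 235)]), (nat_lit 21, [(nat_lit 1, nat_lit 765), (nat_lit 2, nat_lit 235)])],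
 ⟨p017_k34, nat_lit 0, nat_lit 0, nat_lit 500, nat_lit 0, nat_lit 730880, [nat_lit 1716818001, nat_lit 1576041999], [], [nat_lit 26886580950, nat_lit 28340902847, nat_lit 32041413285, nat_lit 31587493079], nat_lit 1271250, nat_lit 1271250, nat_lit 88400, nat_lit 2569500, nat_lit 0, nat_lit 0, [nat_lit 490000, nat_lit 1427500], [nat_lit 69, nat_lit 40, nat_lit 80, nat_lit 80, nat_lit 64, nat_lit 317, nat_lit 100, nat_lit 12]⟩, ⟨p017_k43, nat_lit 0, nat_lit 0, nat_lit 1314, nat_lit 0, nat_lit 1817322, [nat_lit 0, nat_lit 0], [], [nat_lit 0, nat_lit 0, nat_lit 0, nat_lit 0], nat_lit 1100001, nat_lit 1442500, nat_lit 88400, nat_lit 2569500, nat_lit 0, nat_lit 0, [nat_lit 1695000, nat_lit 1271250], [nat_lit 121, nat_lit 40, nat_lit 80, nat_lit 80, nat_lit 28, nat_lit 399, nat_lit 150, nat_lit 10]⟩,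
 ⟨nat_lit 3162, nat_lit 4473, ⟨.ofNat (nat_lit 143971), .ofNat (nat_lit 728778), .ofNat (nat_lit 186943), .ofNat (nat_lit 771911), .ofNat (nat_lit 175109), .ofNat (nat_lit 699502), .ofNat (nat_lit 219258), .ofNat (nat_lit 743812)⟩, ⟨.ofNat (nat_lit 0), .ofNat (nat_lit 0), .ofNat (nat_lit 0), .ofNat (nat_lit 0), .ofNat (nat_lit 0), .ofNat (nat_lit 0), .ofNat (nat_lit 0), .ofNat (nat_lit 0)⟩⟩, [⟨nat_lit 13, nat_lit 72, nat_lit 77, nat_lit 100, nat_lit 7062722⟩, ⟨nat_lit 13, nat_lit 80, nat_lit 60, nat_lit 100, nat_lit 125030016⟩]⟩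
noncomputable def b_N_800_400_0_0 : St := ⟨false, nat_lit 2, nat_lit 2, nat_lit 0, nat_lit 40, nat_lit 320, nat_lit 360, nat_lit 160, nat_lit 200, nat_lit 16, nat_lit 360, nat_lit 0, nat_lit 0, nat_lit 0, nat_lit 0, nat_lit 0, nat_lit 0, nat_lit 0, nat_lit 40, nat_lit 0, nat_lit 0, nat_lit 0, nat_lit 0⟩
theorem d_N_800_400_0_0 (h : EB TB.env) : Dead b_N_800_400_0_0 := chkB_sound0 h (T :=
(.st (nat_lit 0)
(.gv
(.leaf p017_l192)
(.leaf p017_l193))
(.gv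
(.st (nat_lit 1)
(.spl (nat_lit 2) (nat_lit 160)
(.spl (nat_lit 0) (nat_lit 340)
(.spl (nat_lit 2) (nat_lit 80)
(.leaf p017_l194)
(.spl (nat_lit 1) (nat_lit 180)
(.spl (nat_lit 0) (nat_lit 330)
(.leaf p017_l195)
(.leaf p017_l196))
(.leaf p017_l197)))
(.trZ (nat_lit 0) (nat_lit 100) (nat_lit 73) (nat_lit 55) (nat_lit 32) (.spl (nat_lit 2) (nat_lit 80)
(.leaf p017_l198)
(.spl (nat_lit 6) (nat_lit 20)
(.leaf p017_l199)
(.leaf p017_l200)))))
(.spl (nat_lit 0) (nat_lit 340)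
(.spl (nat_lit 0) (nat_lit 330)
(.spl (nat_lit 0) (nat_lit 325)
(.leaf p017_l201)
(.leaf p017_l202))
(.trX (nat_lit 13) (nat_lit 76) (nat_lit 65) (nat_lit 100) (nat_lit 352) (.leaf p017_l203)))
(.trX (nat_lit 13) (nat_lit 71) (nat_lit 70) (nat_lit 100) (nat_lit 344) (.leaf p017_l204))))
(.spl (nat_lit 2) (nat_lit 160)
(.leaf p017_l205)
(.spl (nat_lit 2) (nat_lit 240)
(.leaf p017_l206)
(.spl (nat_lit 0) (nat_lit 340)
(.spl (nat_lit 1) (nat_lit 180)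
(.trX (nat_lit 13) (nat_lit 80) (nat_lit 68) (nat_lit 100) (nat_lit 348) (.spl (nat_lit 0) (nat_lit 330)
(.spl (nat_lit 6) (nat_lit 20)
(.leaf p017_l207)
(.leaf p017_l208))
(.trX (nat_lit 13) (nat_lit 76) (nat_lit 73) (nat_lit 100) (nat_lit 340) (.spl (nat_lit 6) (nat_lit 20)
(.leaf p017_l209)
(.leaf p017_l210)))))
(.spl (nat_lit 0) (nat_lit 330)
(.spl (nat_lit 1) (nat_lit 190)
(.trX (nat_lit 13) (nat_lit 80) (nat_lit 64) (nat_lit 100) (nat_lit 356) (.leaf p017_l211))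
(.leaf p017_l212))
(.trX (nat_lit 13) (nat_lit 76) (nat_lit 65) (nat_lit 100) (nat_lit 352) (.spl (nat_lit 1) (nat_lit 190)
(.trX (nat_lit 13) (nat_lit 76) (nat_lit 69) (nat_lit 100) (nat_lit 348) (.leaf p017_l213))
(.leaf p017_l214)))))
(.trX (nat_lit 13) (nat_lit 71) (nat_lit 70) (nat_lit 100) (nat_lit 344) (.spl (nat_lit 1) (nat_lit 180)
(.trX (nat_lit 13) (nat_lit 72) (nat_lit 77) (nat_lit 100) (nat_lit 332) (.spl (nat_lit 0) (nat_lit 350)
(.leaf p017_l215)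
(.trX (nat_lit 13) (nat_lit 66) (nat_lit 82) (nat_lit 100) (nat_lit 320) (.leaf p017_l216))))
(.spl (nat_lit 0) (nat_lit 350)
(.leaf p017_l217)
(.trX (nat_lit 13) (nat_lit 66) (nat_lit 75) (nat_lit 100) (nat_lit 336) (.leaf p017_l218)))))))))
(.st (nat_lit 1)
(.spl (nat_lit 0) (nat_lit 340)
(.spl (nat_lit 0) (nat_lit 330)
(.leaf p017_l219)
(.trZ (nat_lit 0) (nat_lit 100) (nat_lit 78) (nat_lit 49) (nat_lit 24) (.trX (nat_lit 13) (nat_lit 76) (nat_lit 65) (nat_lit 100) (nat_lit 352) (.leaf p017_l220))))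
(.trZ (nat_lit 0) (nat_lit 100) (nat_lit 73) (nat_lit 55) (nat_lit 32) (.trX (nat_lit 13) (nat_lit 71) (nat_lit 70) (nat_lit 100) (nat_lit 344) (.leaf p017_l221))))
(.leaf p017_l222))))) (by decide +kernel)

end B2
end Pool.Agent.Lib.MP_6947cd_al
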