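import Pool.Agent.Lib.MP_6947cd_al.ZB.P008
import Pool.Agent.Lib.MP_6947cd_al.ZB.P009
import Pool.Agent.Lib.MP_6947cd_al.ZB.P010
import Pool.Agent.Lib.MP_6947cd_al.ZB.P011
import Pool.Agent.Lib.MP_6947cd_al.ZB.P012
import Pool.Agent.Lib.MP_6947cd_al.ZB.P013
import Pool.Agent.Lib.MP_6947cd_al.ZB.P014
import Pool.Agent.Lib.MP_6947cd_al.ZB.P015
import Pool.Agent.Lib.MP_6947cd_al.ZB.P016
import Pool.Agent.Lib.MP_6947cd_al.ZB.P017

/-!
Problem MP_6947cd_al (Chollet).  Case B, second entry in [2/5, 17/20]: certificates of the tree, part T02 (generated).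
-/

set_option autoImplicit false
set_option linter.all false

namespace Pool.Agent.Lib.MP_6947cd_al
namespace B2

open Ent Fr B1 PkA

noncomputable def t02_k0 : C1.Kn := ⟨[nat_lit 40, nat_lit 80, nat_lit 90, nat_lit 110], [nat_lit 0, nat_lit 0, nat_lit 0, nat_lit 257], [(nat_lit 0, nat_lit 0, nat_lit 0), (nat_lit 0, nat_lit 0, nat_lit 0), (nat_lit 0, nat_lit 0, nat_lit 0), (nat_lit 1000, nat_lit 980, nat_lit 201)], (nat_lit 98, nat_lit 100, nat_lit 28)⟩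
noncomputable def t02_k1 : C1.Kn := ⟨[nat_lit 40, nat_lit 80, nat_lit 90, nat_lit 110, nat_lit 120], [nat_lit 0, nat_lit 0, nat_lit 0, nat_lit 129, nat_lit 392], [(nat_lit 0, nat_lit 0, nat_lit 0), (nat_lit 0, nat_lit 0, nat_lit 0), (nat_lit 0, nat_lit 0, nat_lit 0), (nat_lit 1000, nat_lit 990, nat_lit 101), (nat_lit 993, nat_lit 1000, nat_lit 341)], (nat_lit 100, nat_lit 100, nat_lit 28)⟩
noncomputable def t02_k2 : C1.Kn := ⟨[nat_lit 80, nat_lit 100, nat_lit 120], [nat_lit 0, nat_lit 0, nat_lit 511], [(nat_lit 0, nat_lit 0, nat_lit 0), (nat_lit 0, nat_lit 0, nat_lit 0), (nat_lit 1000, nat_lit 997, nat_lit 383)], (nat_lit 98, nat_lit 100, nat_lit 28)⟩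
noncomputable def t02_k3 : C1.Kn := ⟨[nat_lit 80, nat_lit 100, nat_lit 120], [nat_lit 0, nat_lit 24, nat_lit 537], [(nat_lit 0, nat_lit 0, nat_lit 0), (nat_lit 1000, nat_lit 996, nat_lit 19), (nat_lit 1000, nat_lit 995, nat_lit 395)], (nat_lit 98, nat_lit 100, nat_lit 28)⟩
noncomputable def t02_k4 : C1.Kn := ⟨[nat_lit 80, nat_lit 100, nat_lit 120], [nat_lit 0, nat_lit 36, nat_lit 550], [(nat_lit 0, nat_lit 0, nat_lit 0), (nat_lit 1000, nat_lit 994, nat_lit 28), (nat_lit 1000, nat_lit 993, nat_lit 397)], (nat_lit 98, nat_lit 100, nat_lit 28)⟩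
noncomputable def t02_k5 : C1.Kn := ⟨[nat_lit 80, nat_lit 100, nat_lit 120], [nat_lit 0, nat_lit 52, nat_lit 563], [(nat_lit 0, nat_lit 0, nat_lit 0), (nat_lit 1000, nat_lit 992, nat_lit 41), (nat_lit 1000, nat_lit 992, nat_lit 398)], (nat_lit 98, nat_lit 100, nat_lit 28)⟩
noncomputable def t02_k6 : C1.Kn := ⟨[nat_lit 50, nat_lit 90, nat_lit 110, nat_lit 120], [nat_lit 0, nat_lit 0, nat_lit 192, nat_lit 450], [(nat_lit 0, nat_lit 0, nat_lit 0), (nat_lit 0, nat_lit 0, nat_lit 0), (nat_lit 1000, nat_lit 985, nat_lit 150), (nat_lit 996, nat_lit 1000, nat_lit 372)], (nat_lit 99, nat_lit 100, nat_lit 28)⟩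
noncomputable def t02_k7 : C1.Kn := ⟨[nat_lit 50, nat_lit 90, nat_lit 110, nat_lit 120], [nat_lit 0, nat_lit 0, nat_lit 129, nat_lit 392], [(nat_lit 0, nat_lit 0, nat_lit 0), (nat_lit 0, nat_lit 0, nat_lit 0), (nat_lit 1000, nat_lit 990, nat_lit 101), (nat_lit 993, nat_lit 1000, nat_lit 341)], (nat_lit 100, nat_lit 100, nat_lit 28)⟩
noncomputable def t02_k8 : C1.Kn := ⟨[nat_lit 50, nat_lit 90, nat_lit 110, nat_lit 140], [nat_lit 0, nat_lit 0, nat_lit 0, nat_lit 774], [(nat_lit 0, nat_lit 0, nat_lit 0), (nat_lit 0, nat_lit 0, nat_lit 0), (nat_lit 0, nat_lit 0, nat_lit 0), (nat_lit 962, nat_lit 1000, nat_lit 387)], (nat_lit 100, nat_lit 94, nat_lit 44)⟩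
noncomputable def t02_k9 : C1.Kn := ⟨[nat_lit 100, nat_lit 140], [nat_lit 0, nat_lit 508], [(nat_lit 0, nat_lit 0, nat_lit 0), (nat_lit 1000, nat_lit 1000, nat_lit 198)], (nat_lit 100, nat_lit 94, nat_lit 44)⟩
noncomputable def t02_k10 : C1.Kn := ⟨[nat_lit 80, nat_lit 100, nat_lit 140], [nat_lit 0, nat_lit 0, nat_lit 1022], [(nat_lit 0, nat_lit 0, nat_lit 0), (nat_lit 0, nat_lit 0, nat_lit 0), (nat_lit 1000, nat_lit 1000, nat_lit 399)], (nat_lit 100, nat_lit 99, nat_lit 44)⟩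
noncomputable def t02_k11 : C1.Kn := ⟨[nat_lit 50, nat_lit 90, nat_lit 110, nat_lit 130], [nat_lit 0, nat_lit 0, nat_lit 192, nat_lit 703], [(nat_lit 0, nat_lit 0, nat_lit 0), (nat_lit 0, nat_lit 0, nat_lit 0), (nat_lit 1000, nat_lit 985, nat_lit 150), (nat_lit 990, nat_lit 1000, nat_lit 395)], (nat_lit 100, nat_lit 98, nat_lit 44)⟩
noncomputable def t02_k12 : C1.Kn := ⟨[nat_lit 100, nat_lit 120, nat_lit 140], [nat_lit 0, nat_lit 448, nat_lit 962], [(nat_lit 0, nat_lit 0, nat_lit 0), (nat_lit 1000, nat_lit 1000, nat_lit 350), (nat_lit 990, nat_lit 1000, nat_lit 398)], (nat_lit 100, nat_lit 98, nat_lit 44)⟩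
noncomputable def t02_k13 : C1.Kn := ⟨[nat_lit 100, nat_lit 140], [nat_lit 0, nat_lit 896], [(nat_lit 0, nat_lit 0, nat_lit 0), (nat_lit 1000, nat_lit 1000, nat_lit 350)], (nat_lit 100, nat_lit 98, nat_lit 44)⟩
noncomputable def t02_k14 : C1.Kn := ⟨[nat_lit 80, nat_lit 100, nat_lit 120], [nat_lit 0, nat_lit 132, nat_lit 640], [(nat_lit 0, nat_lit 0, nat_lit 0), (nat_lit 1000, nat_lit 979, nat_lit 103), (nat_lit 1000, nat_lit 979, nat_lit 397)], (nat_lit 99, nat_lit 100, nat_lit 44)⟩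
noncomputable def t02_k15 : C1.Kn := ⟨[nat_lit 100, nat_lit 120, nat_lit 140], [nat_lit 0, nat_lit 254, nat_lit 778], [(nat_lit 0, nat_lit 0, nat_lit 0), (nat_lit 1000, nat_lit 1000, nat_lit 198), (nat_lit 960, nat_lit 1000, nat_lit 392)], (nat_lit 100, nat_lit 94, nat_lit 44)⟩
noncomputable def t02_k16 : C1.Kn := ⟨[nat_lit 80, nat_lit 100, nat_lit 140], [nat_lit 0, nat_lit 65, nat_lit 1086], [(nat_lit 0, nat_lit 0, nat_lit 0), (nat_lit 1000, nat_lit 990, nat_lit 51), (nat_lit 1000, nat_lit 990, nat_lit 399)], (nat_lit 100, nat_lit 100, nat_lit 45)⟩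
noncomputable def t02_k17 : C1.Kn := ⟨[nat_lit 80, nat_lit 120], [nat_lit 0, nat_lit 264], [(nat_lit 0, nat_lit 0, nat_lit 0), (nat_lit 1000, nat_lit 979, nat_lit 103)], (nat_lit 99, nat_lit 100, nat_lit 44)⟩
noncomputable def t02_k18 : C1.Kn := ⟨[nat_lit 80, nat_lit 100], [nat_lit 0, nat_lit 0], [(nat_lit 0, nat_lit 0, nat_lit 0), (nat_lit 0, nat_lit 0, nat_lit 0)], (nat_lit 98, nat_lit 100, nat_lit 20)⟩
noncomputable def t02_k19 : C1.Kn := ⟨[nat_lit 50, nat_lit 90, nat_lit 110], [nat_lit 0, nat_lit 0, nat_lit 129], [(nat_lit 0, nat_lit 0, nat_lit 0), (nat_lit 0, nat_lit 0, nat_lit 0), (nat_lit 1000, nat_lit 990, nat_lit 101)], (nat_lit 99, nat_lit 100, nat_lit 20)⟩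
noncomputable def t02_k20 : C1.Kn := ⟨[nat_lit 50, nat_lit 90, nat_lit 110], [nat_lit 0, nat_lit 0, nat_lit 192], [(nat_lit 0, nat_lit 0, nat_lit 0), (nat_lit 0, nat_lit 0, nat_lit 0), (nat_lit 1000, nat_lit 985, nat_lit 150)], (nat_lit 98, nat_lit 100, nat_lit 20)⟩
noncomputable def t02_k21 : C1.Kn := ⟨[nat_lit 80, nat_lit 100, nat_lit 130], [nat_lit 0, nat_lit 24, nat_lit 792], [(nat_lit 0, nat_lit 0, nat_lit 0), (nat_lit 1000, nat_lit 996, nat_lit 19), (nat_lit 1000, nat_lit 996, nat_lit 398)], (nat_lit 100, nat_lit 99, nat_lit 45)⟩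
noncomputable def t02_k22 : C1.Kn := ⟨[nat_lit 90, nat_lit 110, nat_lit 130], [nat_lit 0, nat_lit 230, nat_lit 742], [(nat_lit 0, nat_lit 0, nat_lit 0), (nat_lit 1000, nat_lit 982, nat_lit 179), (nat_lit 996, nat_lit 1000, nat_lit 398)], (nat_lit 100, nat_lit 98, nat_lit 44)⟩
noncomputable def t02_k23 : C1.Kn := ⟨[nat_lit 80, nat_lit 100, nat_lit 130], [nat_lit 0, nat_lit 36, nat_lit 806], [(nat_lit 0, nat_lit 0, nat_lit 0), (nat_lit 1000, nat_lit 994, nat_lit 28), (nat_lit 1000, nat_lit 994, nat_lit 400)], (nat_lit 100, nat_lit 100, nat_lit 45)⟩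
noncomputable def t02_k24 : C1.Kn := ⟨[nat_lit 90, nat_lit 110, nat_lit 130], [nat_lit 0, nat_lit 192, nat_lit 703], [(nat_lit 0, nat_lit 0, nat_lit 0), (nat_lit 1000, nat_lit 985, nat_lit 150), (nat_lit 990, nat_lit 1000, nat_lit 395)], (nat_lit 100, nat_lit 98, nat_lit 44)⟩
noncomputable def t02_k25 : C1.Kn := ⟨[nat_lit 80, nat_lit 100, nat_lit 130], [nat_lit 0, nat_lit 0, nat_lit 767], [(nat_lit 0, nat_lit 0, nat_lit 0), (nat_lit 0, nat_lit 0, nat_lit 0), (nat_lit 1000, nat_lit 1000, nat_lit 399)], (nat_lit 100, nat_lit 99, nat_lit 44)⟩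
noncomputable def t02_k26 : C1.Kn := ⟨[nat_lit 80, nat_lit 100, nat_lit 120, nat_lit 140], [nat_lit 0, nat_lit 0, nat_lit 511, nat_lit 1045], [(nat_lit 0, nat_lit 0, nat_lit 0), (nat_lit 0, nat_lit 0, nat_lit 0), (nat_lit 1000, nat_lit 997, nat_lit 383), (nat_lit 996, nat_lit 1000, nat_lit 416)], (nat_lit 100, nat_lit 99, nat_lit 44)⟩
noncomputable def t02_k27 : C1.Kn := ⟨[nat_lit 80, nat_lit 120, nat_lit 140], [nat_lit 0, nat_lit 0, nat_lit 1164], [(nat_lit 0, nat_lit 0, nat_lit 0), (nat_lit 0, nat_lit 0, nat_lit 0), (nat_lit 941, nat_lit 1000, nat_lit 576)], (nat_lit 100, nat_lit 99, nat_lit 44)⟩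
noncomputable def t02_k28 : C1.Kn := ⟨[nat_lit 40, nat_lit 80, nat_lit 100, nat_lit 130], [nat_lit 0, nat_lit 0, nat_lit 0, nat_lit 767], [(nat_lit 0, nat_lit 0, nat_lit 0), (nat_lit 0, nat_lit 0, nat_lit 0), (nat_lit 0, nat_lit 0, nat_lit 0), (nat_lit 1000, nat_lit 1000, nat_lit 399)], (nat_lit 100, nat_lit 99, nat_lit 44)⟩
noncomputable def t02_k29 : C1.Kn := ⟨[nat_lit 80, nat_lit 100, nat_lit 140], [nat_lit 0, nat_lit 36, nat_lit 1062], [(nat_lit 0, nat_lit 0, nat_lit 0), (nat_lit 1000, nat_lit 994, nat_lit 28), (nat_lit 1000, nat_lit 994, nat_lit 400)], (nat_lit 100, nat_lit 100, nat_lit 45)⟩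
noncomputable def t02_k30 : C1.Kn := ⟨[nat_lit 80, nat_lit 120], [nat_lit 0, nat_lit 528], [(nat_lit 0, nat_lit 0, nat_lit 0), (nat_lit 1000, nat_lit 959, nat_lit 206)], (nat_lit 96, nat_lit 100, nat_lit 44)⟩
noncomputable def t02_k31 : C1.Kn := ⟨[nat_lit 80, nat_lit 120], [nat_lit 0, nat_lit 796], [(nat_lit 0, nat_lit 0, nat_lit 0), (nat_lit 1000, nat_lit 938, nat_lit 310)], (nat_lit 94, nat_lit 100, nat_lit 44)⟩
noncomputable def t02_k32 : C1.Kn := ⟨[nat_lit 80, nat_lit 100, nat_lit 120], [nat_lit 0, nat_lit 265, nat_lit 768], [(nat_lit 0, nat_lit 0, nat_lit 0), (nat_lit 1000, nat_lit 959, nat_lit 206), (nat_lit 1000, nat_lit 958, nat_lit 392)], (nat_lit 96, nat_lit 100, nat_lit 44)⟩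
noncomputable def t02_k33 : C1.Kn := ⟨[nat_lit 60, nat_lit 100, nat_lit 140], [nat_lit 0, nat_lit 0, nat_lit 2047], [(nat_lit 0, nat_lit 0, nat_lit 0), (nat_lit 0, nat_lit 0, nat_lit 0), (nat_lit 1000, nat_lit 993, nat_lit 781)], (nat_lit 94, nat_lit 100, nat_lit 62)⟩
noncomputable def t02_k34 : C1.Kn := ⟨[nat_lit 80, nat_lit 120, nat_lit 160], [nat_lit 0, nat_lit 0, nat_lit 2132], [(nat_lit 0, nat_lit 0, nat_lit 0), (nat_lit 0, nat_lit 0, nat_lit 0), (nat_lit 858, nat_lit 1000, nat_lit 713)], (nat_lit 100, nat_lit 92, nat_lit 61)⟩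
noncomputable def t02_k35 : C1.Kn := ⟨[nat_lit 80, nat_lit 120, nat_lit 140], [nat_lit 0, nat_lit 528, nat_lit 1572], [(nat_lit 0, nat_lit 0, nat_lit 0), (nat_lit 1000, nat_lit 959, nat_lit 206), (nat_lit 966, nat_lit 1000, nat_lit 679)], (nat_lit 100, nat_lit 99, nat_lit 63)⟩
noncomputable def t02_k36 : C1.Kn := ⟨[nat_lit 60, nat_lit 80, nat_lit 140], [nat_lit 0, nat_lit 0, nat_lit 1595], [(nat_lit 0, nat_lit 0, nat_lit 0), (nat_lit 0, nat_lit 0, nat_lit 0), (nat_lit 1000, nat_lit 917, nat_lit 415)], (nat_lit 94, nat_lit 100, nat_lit 62)⟩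
noncomputable def t02_k37 : C1.Kn := ⟨[nat_lit 80, nat_lit 100, nat_lit 160], [nat_lit 0, nat_lit 0, nat_lit 1533], [(nat_lit 0, nat_lit 0, nat_lit 0), (nat_lit 0, nat_lit 0, nat_lit 0), (nat_lit 1000, nat_lit 1000, nat_lit 399)], (nat_lit 100, nat_lit 92, nat_lit 61)⟩
noncomputable def t02_k38 : C1.Kn := ⟨[nat_lit 60, nat_lit 140], [nat_lit 0, nat_lit 0], [(nat_lit 0, nat_lit 0, nat_lit 0), (nat_lit 0, nat_lit 0, nat_lit 0)], (nat_lit 94, nat_lit 100, nat_lit 62)⟩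
noncomputable def t02_k39 : C1.Kn := ⟨[nat_lit 60, nat_lit 80, nat_lit 120], [nat_lit 0, nat_lit 304, nat_lit 1346], [(nat_lit 0, nat_lit 0, nat_lit 0), (nat_lit 1000, nat_lit 905, nat_lit 238), (nat_lit 1000, nat_lit 871, nat_lit 407)], (nat_lit 87, nat_lit 100, nat_lit 60)⟩
theorem t_NL_600_550_0 (h : EB TB.env) : RC.Tail ⟨false, 20, 240, 260, 220, 240, 0, 0, [56]⟩ := RC.tail_chk h (b := ⟨nat_lit 20, nat_lit 28, nat_lit 5, nat_lit 5, nat_lit 20, nat_lit 203, nat_lit 0, nat_lit 31, nat_lit 0⟩) (by decide +kernel)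
noncomputable def t02_l0 : Lf2 := ⟨nat_lit 0, nat_lit 2, [nat_lit 10, nat_lit 5, nat_lit 5, nat_lit 20], false, nat_lit 0, nat_lit 0, nat_lit 0, nat_lit 0, ⟨nat_lit 1000, nat_lit 0, nat_lit 0, nat_lit 0, nat_lit 0, nat_lit 0, nat_lit 0, nat_lit 0, nat_lit 0, nat_lit 0, nat_lit 0, nat_lit 0, nat_lit 0, nat_lit 0, nat_lit 0, nat_lit 0, false, false⟩,
 nat_lit 0, nat_lit 16328, nat_lit 0, nat_lit 0, nat_lit 8644, nat_lit 3718, nat_lit 690, nat_lit 0, nat_lit 0, nat_lit 2667, nat_lit 0, nat_lit 0, nat_lit 0, nat_lit 0, nat_lit 0, nat_lit 0, nat_lit 0, nat_lit 0, [],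
 ⟨t02_k0, nat_lit 0, nat_lit 0, nat_lit 0, nat_lit 0, nat_lit 372027, [nat_lit 2032000001, nat_lit 4688000000, nat_lit 5449500000, nat_lit 7089500000], [], [nat_lit 21566161453, nat_lit 22389491484, nat_lit 20968213793, nat_lit 20408714730], nat_lit 1271250, nat_lit 1271250, nat_lit 65850, nat_lit 230001, nat_lit 0, nat_lit 0, [nat_lit 490000, nat_lit 1100000, nat_lit 1271250, nat_lit 1271250], [nat_lit 213, nat_lit 40, nat_lit 20, nat_lit 40]⟩, ⟨t02_k1, nat_lit 0, nat_lit 0, nat_lit 0, nat_lit 0, nat_lit 0, [nat_lit 2032000000, nat_lit 4688000000, nat_lit 5449500000, nat_lit 7089500000, nat_lit 7968000000], [], [nat_lit 18343444582, nat_lit 18985446609, nat_lit 17509691801, nat_lit 18127996257], nat_lit 0, nat_lit 0, nat_lit 0, nat_lit 0, nat_lit 0, nat_lit 0, [], [nat_lit 266, nat_lit 40, nat_lit 20, nat_lit 40]⟩,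
 zbF0, [⟨nat_lit 0, nat_lit 100, nat_lit 99, nat_lit 40, nat_lit 1099444777⟩]⟩
noncomputable def t02_l1 : Lf2 := ⟨nat_lit 0, nat_lit 2, [nat_lit 10, nat_lit 5, nat_lit 5, nat_lit 20], true, nat_lit 0, nat_lit 0, nat_lit 0, nat_lit 0, ⟨nat_lit 0, nat_lit 0, nat_lit 1000, nat_lit 5, nat_lit 71, nat_lit 0, nat_lit 0, nat_lit 0, nat_lit 0, nat_lit 215, nat_lit 46817, nat_lit 268, nat_lit 64949224, nat_lit 0, nat_lit 0, nat_lit 684233, false, false⟩,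
 nat_lit 0, nat_lit 100000, nat_lit 0, nat_lit 0, nat_lit 52941, nat_lit 0, nat_lit 0, nat_lit 3109, nat_lit 0, nat_lit 0, nat_lit 0, nat_lit 0, nat_lit 0, nat_lit 0, nat_lit 0, nat_lit 1000000, nat_lit 0, nat_lit 0, [(nat_lit 6, [(nat_lit 6, nat_lit 1000)])],
 ⟨t02_k2, nat_lit 0, nat_lit 0, nat_lit 310, nat_lit 0, nat_lit 275051, [nat_lit 50721066667, nat_lit 61988000001, nat_lit 72907199999], [], [nat_lit 147890754691, nat_lit 146734027896, nat_lit 133603040988, nat_lit 133996328666], nat_lit 1271250, nat_lit 1271250, nat_lit 65850, nat_lit 230001, nat_lit 0, nat_lit 0, [nat_lit 1100000, nat_lit 1442500, nat_lit 1271250], [nat_lit 9, nat_lit 40, nat_lit 20, nat_lit 80, nat_lit 2, nat_lit 215, nat_lit 10, nat_lit 8]⟩, C1.Rw.none,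
 ⟨nat_lit 6284, nat_lit 6325, ⟨.ofNat (nat_lit 145408), .ofNat (nat_lit 202993), .ofNat (nat_lit 150750), .ofNat (nat_lit 208335), .ofNat (nat_lit 147186), .ofNat (nat_lit 204505), .ofNat (nat_lit 152527), .ofNat (nat_lit 209846)⟩, ⟨.ofNat (nat_lit 0), .ofNat (nat_lit 0), .ofNat (nat_lit 0), .ofNat (nat_lit 0), .ofNat (nat_lit 0), .ofNat (nat_lit 0), .ofNat (nat_lit 0), .ofNat (nat_lit 0)⟩⟩, [⟨nat_lit 0, nat_lit 100, nat_lit 99, nat_lit 37, nat_lit 2407514872⟩]⟩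
noncomputable def t02_l2 : Lf2 := ⟨nat_lit 0, nat_lit 2, [nat_lit 10, nat_lit 5, nat_lit 5, nat_lit 20], true, nat_lit 0, nat_lit 0, nat_lit 0, nat_lit 0, ⟨nat_lit 0, nat_lit 0, nat_lit 1000, nat_lit 5, nat_lit 72, nat_lit 0, nat_lit 0, nat_lit 0, nat_lit 0, nat_lit 215, nat_lit 48600, nat_lit 269, nat_lit 64921568, nat_lit 0, nat_lit 0, nat_lit 691351, false, false⟩,
 nat_lit 0, nat_lit 100000, nat_lit 0, nat_lit 0, nat_lit 53460, nat_lit 0, nat_lit 12076, nat_lit 3888, nat_lit 0, nat_lit 0, nat_lit 0, nat_lit 0, nat_lit 0, nat_lit 0, nat_lit 0, nat_lit 1000000, nat_lit 0, nat_lit 0, [(nat_lit 6, [(nat_lit 6, nat_lit 1000)])],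
 ⟨t02_k3, nat_lit 0, nat_lit 0, nat_lit 311, nat_lit 0, nat_lit 276358, [nat_lit 63185066667, nat_lit 77568000001, nat_lit 91603199999], [], [nat_lit 186513792580, nat_lit 185952193873, nat_lit 172882160800, nat_lit 173080473017], nat_lit 1271250, nat_lit 1271250, nat_lit 65850, nat_lit 230001, nat_lit 0, nat_lit 0, [nat_lit 1100000, nat_lit 1442500, nat_lit 1271250], [nat_lit 9, nat_lit 40, nat_lit 20, nat_lit 80, nat_lit 2, nat_lit 215, nat_lit 10, nat_lit 8]⟩, C1.Rw.none,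
 ⟨nat_lit 6264, nat_lit 6285, ⟨.ofNat (nat_lit 147186), .ofNat (nat_lit 204505), .ofNat (nat_lit 152527), .ofNat (nat_lit 209846), .ofNat (nat_lit 148073), .ofNat (nat_lit 205259), .ofNat (nat_lit 153413), .ofNat (nat_lit 210599)⟩, ⟨.ofNat (nat_lit 0), .ofNat (nat_lit 0), .ofNat (nat_lit 0), .ofNat (nat_lit 0), .ofNat (nat_lit 0), .ofNat (nat_lit 0), .ofNat (nat_lit 0), .ofNat (nat_lit 0)⟩⟩, [⟨nat_lit 0, nat_lit 100, nat_lit 99, nat_lit 39, nat_lit 2432009667⟩]⟩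
noncomputable def t02_l3 : Lf2 := ⟨nat_lit 0, nat_lit 2, [nat_lit 10, nat_lit 5, nat_lit 5, nat_lit 20], true, nat_lit 0, nat_lit 0, nat_lit 0, nat_lit 0, ⟨nat_lit 0, nat_lit 0, nat_lit 1000, nat_lit 5, nat_lit 72, nat_lit 0, nat_lit 0, nat_lit 0, nat_lit 0, nat_lit 215, nat_lit 48600, nat_lit 269, nat_lit 64893849, nat_lit 0, nat_lit 0, nat_lit 698457, false, false⟩,
 nat_lit 0, nat_lit 100000, nat_lit 0, nat_lit 0, nat_lit 53721, nat_lit 0, nat_lit 11826, nat_lit 3808, nat_lit 0, nat_lit 0, nat_lit 0, nat_lit 0, nat_lit 0, nat_lit 0, nat_lit 0, nat_lit 1000000, nat_lit 0, nat_lit 0, [(nat_lit 6, [(nat_lit 6, nat_lit 1000)])],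
 ⟨t02_k4, nat_lit 0, nat_lit 0, nat_lit 314, nat_lit 0, nat_lit 283045, [nat_lit 61905066667, nat_lit 75968000001, nat_lit 89683199999], [], [nat_lit 179568237771, nat_lit 178433345146, nat_lit 165088172768, nat_lit 165487287796], nat_lit 1271250, nat_lit 1271250, nat_lit 65850, nat_lit 230001, nat_lit 0, nat_lit 0, [nat_lit 1100000, nat_lit 1442500, nat_lit 1271250], [nat_lit 9, nat_lit 40, nat_lit 20, nat_lit 80, nat_lit 2, nat_lit 215, nat_lit 10, nat_lit 8]⟩, C1.Rw.none,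
 ⟨nat_lit 6224, nat_lit 6265, ⟨.ofNat (nat_lit 148073), .ofNat (nat_lit 205259), .ofNat (nat_lit 153413), .ofNat (nat_lit 210599), .ofNat (nat_lit 149840), .ofNat (nat_lit 206763), .ofNat (nat_lit 155180), .ofNat (nat_lit 212102)⟩, ⟨.ofNat (nat_lit 0), .ofNat (nat_lit 0), .ofNat (nat_lit 0), .ofNat (nat_lit 0), .ofNat (nat_lit 0), .ofNat (nat_lit 0), .ofNat (nat_lit 0), .ofNat (nat_lit 0)⟩⟩, [⟨nat_lit 0, nat_lit 100, nat_lit 99, nat_lit 40, nat_lit 2444485444⟩]⟩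
noncomputable def t02_l4 : Lf2 := ⟨nat_lit 0, nat_lit 2, [nat_lit 10, nat_lit 5, nat_lit 5, nat_lit 20], true, nat_lit 0, nat_lit 0, nat_lit 0, nat_lit 0, ⟨nat_lit 0, nat_lit 0, nat_lit 1000, nat_lit 5, nat_lit 74, nat_lit 0, nat_lit 0, nat_lit 0, nat_lit 0, nat_lit 215, nat_lit 50417, nat_lit 270, nat_lit 64796108, nat_lit 0, nat_lit 0, nat_lit 723290, false, false⟩,
 nat_lit 0, nat_lit 100000, nat_lit 0, nat_lit 0, nat_lit 53721, nat_lit 0, nat_lit 11830, nat_lit 3810, nat_lit 0, nat_lit 0, nat_lit 0, nat_lit 0, nat_lit 0, nat_lit 0, nat_lit 0, nat_lit 1000000, nat_lit 0, nat_lit 0, [(nat_lit 6, [(nat_lit 6, nat_lit 1000)])],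
 ⟨t02_k4, nat_lit 0, nat_lit 0, nat_lit 319, nat_lit 0, nat_lit 294104, [nat_lit 61937066667, nat_lit 76008000000, nat_lit 89731200000], [], [nat_lit 179679337769, nat_lit 178585570145, nat_lit 165240397767, nat_lit 165638700220], nat_lit 1271250, nat_lit 1271250, nat_lit 65850, nat_lit 230001, nat_lit 0, nat_lit 0, [nat_lit 1100000, nat_lit 1442500, nat_lit 1271250], [nat_lit 9, nat_lit 40, nat_lit 20, nat_lit 80, nat_lit 2, nat_lit 215, nat_lit 10, nat_lit 8]⟩, C1.Rw.none,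
 ⟨nat_lit 6224, nat_lit 6265, ⟨.ofNat (nat_lit 153413), .ofNat (nat_lit 210599), .ofNat (nat_lit 156617), .ofNat (nat_lit 213804), .ofNat (nat_lit 155180), .ofNat (nat_lit 212102), .ofNat (nat_lit 158383), .ofNat (nat_lit 215305)⟩, ⟨.ofNat (nat_lit 0), .ofNat (nat_lit 0), .ofNat (nat_lit 0), .ofNat (nat_lit 0), .ofNat (nat_lit 0), .ofNat (nat_lit 0), .ofNat (nat_lit 0), .ofNat (nat_lit 0)⟩⟩, [⟨nat_lit 0, nat_lit 100, nat_lit 99, nat_lit 40, nat_lit 2445696987⟩]⟩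
noncomputable def t02_l5 : Lf2 := ⟨nat_lit 0, nat_lit 2, [nat_lit 10, nat_lit 5, nat_lit 5, nat_lit 20], true, nat_lit 0, nat_lit 0, nat_lit 0, nat_lit 0, ⟨nat_lit 0, nat_lit 0, nat_lit 1000, nat_lit 5, nat_lit 76, nat_lit 0, nat_lit 0, nat_lit 0, nat_lit 0, nat_lit 215, nat_lit 54150, nat_lit 272, nat_lit 64647345, nat_lit 0, nat_lit 0, nat_lit 760448, false, false⟩,
 nat_lit 0, nat_lit 100000, nat_lit 0, nat_lit 0, nat_lit 53721, nat_lit 0, nat_lit 11650, nat_lit 3697, nat_lit 0, nat_lit 0, nat_lit 0, nat_lit 0, nat_lit 0, nat_lit 0, nat_lit 0, nat_lit 1000000, nat_lit 0, nat_lit 0, [(nat_lit 6, [(nat_lit 6, nat_lit 1000)])],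
 ⟨t02_k4, nat_lit 0, nat_lit 0, nat_lit 314, nat_lit 0, nat_lit 297560, [nat_lit 60129066667, nat_lit 73748000000, nat_lit 87019200000], [], [nat_lit 167865903388, nat_lit 167331022423, nat_lit 156646242959, nat_lit 156878465376], nat_lit 1271250, nat_lit 1271250, nat_lit 88400, nat_lit 230001, nat_lit 0, nat_lit 0, [nat_lit 1100000, nat_lit 1442500, nat_lit 1271250], [nat_lit 9, nat_lit 40, nat_lit 20, nat_lit 80, nat_lit 2, nat_lit 215, nat_lit 10, nat_lit 8]⟩, C1.Rw.none,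
 ⟨nat_lit 6244, nat_lit 6265, ⟨.ofNat (nat_lit 164787), .ofNat (nat_lit 213804), .ofNat (nat_lit 166923), .ofNat (nat_lit 215940), .ofNat (nat_lit 165651), .ofNat (nat_lit 214555), .ofNat (nat_lit 167787), .ofNat (nat_lit 216691)⟩, ⟨.ofNat (nat_lit 0), .ofNat (nat_lit 0), .ofNat (nat_lit 0), .ofNat (nat_lit 0), .ofNat (nat_lit 0), .ofNat (nat_lit 0), .ofNat (nat_lit 0), .ofNat (nat_lit 0)⟩⟩, [⟨nat_lit 0, nat_lit 100, nat_lit 100, nat_lit 42, nat_lit 2287919404⟩]⟩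
noncomputable def t02_l6 : Lf2 := ⟨nat_lit 0, nat_lit 2, [nat_lit 10, nat_lit 5, nat_lit 5, nat_lit 20], true, nat_lit 0, nat_lit 0, nat_lit 0, nat_lit 0, ⟨nat_lit 0, nat_lit 0, nat_lit 1000, nat_lit 5, nat_lit 77, nat_lit 0, nat_lit 0, nat_lit 0, nat_lit 0, nat_lit 215, nat_lit 54150, nat_lit 272, nat_lit 64628098, nat_lit 0, nat_lit 0, nat_lit 765201, false, false⟩,
 nat_lit 0, nat_lit 100000, nat_lit 0, nat_lit 0, nat_lit 53982, nat_lit 0, nat_lit 11627, nat_lit 3663, nat_lit 0, nat_lit 0, nat_lit 0, nat_lit 0, nat_lit 0, nat_lit 0, nat_lit 0, nat_lit 1000000, nat_lit 0, nat_lit 0, [(nat_lit 6, [(nat_lit 6, nat_lit 1000)])],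
 ⟨t02_k5, nat_lit 0, nat_lit 0, nat_lit 316, nat_lit 0, nat_lit 300029, [nat_lit 59585066667, nat_lit 73068000001, nat_lit 86203199999], [], [nat_lit 163150131755, nat_lit 162598322131, nat_lit 151856216500, nat_lit 152089434162], nat_lit 1271250, nat_lit 1271250, nat_lit 88400, nat_lit 230001, nat_lit 0, nat_lit 0, [nat_lit 1100000, nat_lit 1442500, nat_lit 1271250], [nat_lit 9, nat_lit 40, nat_lit 20, nat_lit 80, nat_lit 2, nat_lit 215, nat_lit 10, nat_lit 8]⟩, C1.Rw.none,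
 ⟨nat_lit 6224, nat_lit 6245, ⟨.ofNat (nat_lit 165651), .ofNat (nat_lit 214555), .ofNat (nat_lit 167787), .ofNat (nat_lit 216691), .ofNat (nat_lit 166515), .ofNat (nat_lit 215305), .ofNat (nat_lit 168651), .ofNat (nat_lit 217441)⟩, ⟨.ofNat (nat_lit 0), .ofNat (nat_lit 0), .ofNat (nat_lit 0), .ofNat (nat_lit 0), .ofNat (nat_lit 0), .ofNat (nat_lit 0), .ofNat (nat_lit 0), .ofNat (nat_lit 0)⟩⟩, [⟨nat_lit 0, nat_lit 100, nat_lit 99, nat_lit 42, nat_lit 2323125879⟩]⟩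
noncomputable def t02_l7 : Lf2 := ⟨nat_lit 0, nat_lit 2, [nat_lit 10, nat_lit 5, nat_lit 5, nat_lit 20], false, nat_lit 0, nat_lit 0, nat_lit 0, nat_lit 0, ⟨nat_lit 1000, nat_lit 0, nat_lit 0, nat_lit 0, nat_lit 0, nat_lit 0, nat_lit 0, nat_lit 0, nat_lit 0, nat_lit 0, nat_lit 0, nat_lit 0, nat_lit 0, nat_lit 0, nat_lit 0, nat_lit 0, false, false⟩,
 nat_lit 0, nat_lit 10431, nat_lit 0, nat_lit 0, nat_lit 5522, nat_lit 100000, nat_lit 0, nat_lit 0, nat_lit 0, nat_lit 44379, nat_lit 9718, nat_lit 0, nat_lit 0, nat_lit 0, nat_lit 0, nat_lit 0, nat_lit 0, nat_lit 0, [],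
 ⟨t02_k2, nat_lit 0, nat_lit 0, nat_lit 324, nat_lit 0, nat_lit 306085, [nat_lit 4688000000, nat_lit 6250000000, nat_lit 7968000000], [], [nat_lit 36469921484, nat_lit 36695015107, nat_lit 35510153440, nat_lit 35731207046], nat_lit 1271250, nat_lit 1271250, nat_lit 65850, nat_lit 230001, nat_lit 0, nat_lit 0, [nat_lit 1100000, nat_lit 1442500, nat_lit 1271250], [nat_lit 9, nat_lit 40, nat_lit 20, nat_lit 80, nat_lit 2, nat_lit 215, nat_lit 10, nat_lit 8]⟩, ⟨t02_k6, nat_lit 0, nat_lit 0, nat_lit 0, nat_lit 0, nat_lit 0, [nat_lit 99817500000, nat_lit 180373500000, nat_lit 220885500000, nat_lit 241200000000], [], [nat_lit 233051094851, nat_lit 236579335200, nat_lit 199482231500, nat_lit 203096796000], nat_lit 0, nat_lit 0, nat_lit 0, nat_lit 0, nat_lit 0, nat_lit 0, [], [nat_lit 139, nat_lit 40, nat_lit 20, nat_lit 40]⟩,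
 zbF0, [⟨nat_lit 0, nat_lit 100, nat_lit 99, nat_lit 40, nat_lit 7011245567⟩]⟩
noncomputable def t02_l8 : Lf2 := ⟨nat_lit 0, nat_lit 2, [nat_lit 10, nat_lit 5, nat_lit 5, nat_lit 20], false, nat_lit 0, nat_lit 0, nat_lit 0, nat_lit 0, ⟨nat_lit 1000, nat_lit 0, nat_lit 0, nat_lit 0, nat_lit 0, nat_lit 0, nat_lit 0, nat_lit 0, nat_lit 0, nat_lit 0, nat_lit 0, nat_lit 0, nat_lit 0, nat_lit 0, nat_lit 0, nat_lit 0, false, false⟩,
 nat_lit 0, nat_lit 100000, nat_lit 0, nat_lit 0, nat_lit 52941, nat_lit 100000, nat_lit 0, nat_lit 4044, nat_lit 0, nat_lit 31215, nat_lit 9812, nat_lit 0, nat_lit 0, nat_lit 0, nat_lit 0, nat_lit 0, nat_lit 0, nat_lit 0, [],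
 ⟨t02_k2, nat_lit 0, nat_lit 0, nat_lit 380, nat_lit 0, nat_lit 372027, [nat_lit 69392000000, nat_lit 87130000001, nat_lit 105024000000], [], [nat_lit 254001829748, nat_lit 249419578344, nat_lit 234674774322, nat_lit 236641212708], nat_lit 1271250, nat_lit 1271250, nat_lit 65850, nat_lit 230001, nat_lit 0, nat_lit 0, [nat_lit 1100000, nat_lit 1442500, nat_lit 1271250], [nat_lit 9, nat_lit 40, nat_lit 20, nat_lit 80, nat_lit 2, nat_lit 215, nat_lit 10, nat_lit 8]⟩, ⟨t02_k7, nat_lit 0, nat_lit 0, nat_lit 0, nat_lit 0, nat_lit 0, [nat_lit 100757500000, nat_lit 182065500000, nat_lit 222953500000, nat_lit 243456000000], [], [nat_lit 256321986600, nat_lit 263006088200, nat_lit 222758577000, nat_lit 229396413000], nat_lit 0, nat_lit 0, nat_lit 0, nat_lit 0, nat_lit 0, nat_lit 0, [], [nat_lit 139, nat_lit 40, nat_lit 20, nat_lit 40]⟩,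
 zbF0, [⟨nat_lit 0, nat_lit 100, nat_lit 99, nat_lit 40, nat_lit 10101010101⟩]⟩
noncomputable def t02_l9 : Lf2 := ⟨nat_lit 3, nat_lit 5, [nat_lit 4, nat_lit 5, nat_lit 5, nat_lit 20], false, nat_lit 0, nat_lit 0, nat_lit 0, nat_lit 0, zbN0,
 nat_lit 0, nat_lit 0, nat_lit 0, nat_lit 0, nat_lit 0, nat_lit 0, nat_lit 0, nat_lit 0, nat_lit 0, nat_lit 0, nat_lit 0, nat_lit 0, nat_lit 0, nat_lit 0, nat_lit 0, nat_lit 0, nat_lit 0, nat_lit 0, [],
 C1.Rw.none, ⟨t02_k8, nat_lit 0, nat_lit 0, nat_lit 0, nat_lit 0, nat_lit 0, [], [], [], nat_lit 0, nat_lit 0, nat_lit 0, nat_lit 0, nat_lit 0, nat_lit 0, [], [nat_lit 91, nat_lit 40, nat_lit 20, nat_lit 40]⟩,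
 zbF0, []⟩
noncomputable def t02_l10 : Lf2 := ⟨nat_lit 3, nat_lit 5, [nat_lit 4, nat_lit 5, nat_lit 5, nat_lit 20], false, nat_lit 0, nat_lit 0, nat_lit 0, nat_lit 0, zbN0,
 nat_lit 0, nat_lit 0, nat_lit 0, nat_lit 0, nat_lit 0, nat_lit 0, nat_lit 0, nat_lit 0, nat_lit 0, nat_lit 0, nat_lit 0, nat_lit 0, nat_lit 0, nat_lit 0, nat_lit 0, nat_lit 0, nat_lit 0, nat_lit 0, [],
 C1.Rw.none, ⟨t02_k9, nat_lit 0, nat_lit 0, nat_lit 284, nat_lit 0, nat_lit 0, [], [], [], nat_lit 0, nat_lit 0, nat_lit 0, nat_lit 0, nat_lit 0, nat_lit 0, [], [nat_lit 51, nat_lit 40, nat_lit 20, nat_lit 80, nat_lit 1, nat_lit 289, nat_lit 75, nat_lit 9]⟩,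
 zbF0, []⟩
noncomputable def t02_l11 : Lf2 := ⟨nat_lit 0, nat_lit 5, [nat_lit 4, nat_lit 5, nat_lit 5, nat_lit 20], true, nat_lit 0, nat_lit 0, nat_lit 0, nat_lit 0, ⟨nat_lit 0, nat_lit 0, nat_lit 1000, nat_lit 5, nat_lit 59, nat_lit 0, nat_lit 0, nat_lit 0, nat_lit 0, nat_lit 215, nat_lit 33750, nat_lit 260, nat_lit 65553493, nat_lit 0, nat_lit 0, nat_lit 520768, false, false⟩,
 nat_lit 0, nat_lit 7449, nat_lit 0, nat_lit 0, nat_lit 3943, nat_lit 0, nat_lit 0, nat_lit 0, nat_lit 0, nat_lit 0, nat_lit 0, nat_lit 0, nat_lit 0, nat_lit 0, nat_lit 118, nat_lit 776200, nat_lit 0, nat_lit 0, [(nat_lit 6, [(nat_lit 5, nat_lit 373), (nat_lit 6, nat_lit 627)])],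
 ⟨t02_k10, nat_lit 0, nat_lit 0, nat_lit 347, nat_lit 0, nat_lit 170775, [nat_lit 3029385600, nat_lit 2454044801, nat_lit 76388799], [], [nat_lit 14687504302, nat_lit 14994473239, nat_lit 14806987306, nat_lit 14475441295], nat_lit 1271250, nat_lit 1271250, nat_lit 43600, nat_lit 111251, nat_lit 0, nat_lit 0, [nat_lit 1100000, nat_lit 1442500, nat_lit 1271250], [nat_lit 11, nat_lit 40, nat_lit 20, nat_lit 80, nat_lit 1, nat_lit 289, nat_lit 75, nat_lit 9]⟩, C1.Rw.none,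
 ⟨nat_lit 6123, nat_lit 6325, ⟨.ofNat (nat_lit 126498), .ofNat (nat_lit 151177), .ofNat (nat_lit 137182), .ofNat (nat_lit 161861), .ofNat (nat_lit 135519), .ofNat (nat_lit 159634), .ofNat (nat_lit 146193), .ofNat (nat_lit 170308)⟩, ⟨.ofNat (nat_lit 0), .ofNat (nat_lit 0), .ofNat (nat_lit 0), .ofNat (nat_lit 0), .ofNat (nat_lit 0), .ofNat (nat_lit 0), .ofNat (nat_lit 0), .ofNat (nat_lit 0)⟩⟩, [⟨nat_lit 0, nat_lit 100, nat_lit 98, nat_lit 35, nat_lit 57666394⟩]⟩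
noncomputable def t02_l12 : Lf2 := ⟨nat_lit 0, nat_lit 5, [nat_lit 4, nat_lit 5, nat_lit 5, nat_lit 20], false, nat_lit 0, nat_lit 0, nat_lit 0, nat_lit 0, ⟨nat_lit 1000, nat_lit 0, nat_lit 0, nat_lit 0, nat_lit 0, nat_lit 0, nat_lit 0, nat_lit 0, nat_lit 0, nat_lit 0, nat_lit 0, nat_lit 0, nat_lit 0, nat_lit 0, nat_lit 0, nat_lit 0, false, false⟩,
 nat_lit 0, nat_lit 17361, nat_lit 0, nat_lit 0, nat_lit 9191, nat_lit 4285, nat_lit 2559, nat_lit 0, nat_lit 0, nat_lit 915, nat_lit 0, nat_lit 0, nat_lit 0, nat_lit 0, nat_lit 0, nat_lit 0, nat_lit 0, nat_lit 0, [],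
 ⟨t02_k10, nat_lit 0, nat_lit 0, nat_lit 345, nat_lit 0, nat_lit 181520, [nat_lit 4688000000, nat_lit 6250000000, nat_lit 9842000000], [], [nat_lit 23382129631, nat_lit 23791083116, nat_lit 22583214248, nat_lit 22771918441], nat_lit 1271250, nat_lit 1271250, nat_lit 65850, nat_lit 111251, nat_lit 0, nat_lit 0, [nat_lit 1100000, nat_lit 1442500, nat_lit 1271250], [nat_lit 11, nat_lit 40, nat_lit 20, nat_lit 80, nat_lit 1, nat_lit 289, nat_lit 75, nat_lit 9]⟩, ⟨t02_k11, nat_lit 0, nat_lit 0, nat_lit 0, nat_lit 0, nat_lit 0, [nat_lit 2637500000, nat_lit 5449500000, nat_lit 7089500000, nat_lit 8885500000], [], [nat_lit 22566166512, nat_lit 22870887207, nat_lit 22122979513, nat_lit 22414069115], nat_lit 0, nat_lit 0, nat_lit 0, nat_lit 0, nat_lit 0, nat_lit 0, [], [nat_lit 117, nat_lit 40, nat_lit 20, nat_lit 40]⟩,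
 zbF0, [⟨nat_lit 0, nat_lit 100, nat_lit 100, nat_lit 37, nat_lit 1591248439⟩]⟩
noncomputable def t02_l13 : Lf2 := ⟨nat_lit 0, nat_lit 5, [nat_lit 4, nat_lit 5, nat_lit 5, nat_lit 20], false, nat_lit 0, nat_lit 0, nat_lit 0, nat_lit 0, ⟨nat_lit 0, nat_lit 0, nat_lit 1000, nat_lit 5, nat_lit 66, nat_lit 0, nat_lit 0, nat_lit 0, nat_lit 0, nat_lit 215, nat_lit 40017, nat_lit 264, nat_lit 65249035, nat_lit 0, nat_lit 0, nat_lit 605141, false, false⟩,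
 nat_lit 0, nat_lit 8004, nat_lit 0, nat_lit 0, nat_lit 4237, nat_lit 100000, nat_lit 0, nat_lit 0, nat_lit 0, nat_lit 30363, nat_lit 5687, nat_lit 0, nat_lit 0, nat_lit 0, nat_lit 146, nat_lit 990280, nat_lit 0, nat_lit 0, [(nat_lit 6, [(nat_lit 3, nat_lit 12), (nat_lit 6, nat_lit 988)])],
 ⟨t02_k10, nat_lit 0, nat_lit 0, nat_lit 345, nat_lit 0, nat_lit 181520, [nat_lit 3726161067, nat_lit 3022515201, nat_lit 180003199], [], [nat_lit 14541487661, nat_lit 14000429540, nat_lit 14619922405, nat_lit 14080463328], nat_lit 1271250, nat_lit 1271250, nat_lit 65850, nat_lit 111251, nat_lit 0, nat_lit 0, [nat_lit 1100000, nat_lit 1442500, nat_lit 1271250], [nat_lit 11, nat_lit 40, nat_lit 20, nat_lit 80, nat_lit 1, nat_lit 289, nat_lit 75, nat_lit 9]⟩, ⟨t02_k12, nat_lit 0, nat_lit 0, nat_lit 0, nat_lit 0, nat_lit 0, [nat_lit 113740000000, nat_lit 136488000000, nat_lit 159236000000], [], [nat_lit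 147141301250, nat_lit 149549471251, nat_lit 135052581250, nat_lit 137433600000], nat_lit 0, nat_lit 0, nat_lit 0, nat_lit 0, nat_lit 0, nat_lit 0, [], [nat_lit 25, nat_lit 40, nat_lit 20, nat_lit 80]⟩,
 ⟨nat_lit 6224, nat_lit 6325, ⟨.ofNat (nat_lit 150750), .ofNat (nat_lit 167203), .ofNat (nat_lit 156092), .ofNat (nat_lit 172545), .ofNat (nat_lit 155180), .ofNat (nat_lit 171443), .ofNat (nat_lit 160519), .ofNat (nat_lit 176782)⟩, ⟨.ofNat (nat_lit 0), .ofNat (nat_lit 0), .ofNat (nat_lit 0), .ofNat (nat_lit 0), .ofNat (nat_lit 0), .ofNat (nat_lit 0), .ofNat (nat_lit 0), .ofNat (nat_lit 0)⟩⟩, [⟨nat_lit 0, nat_lit 100, nat_lit 99, nat_lit 40, nat_lit 7693357965⟩]⟩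
noncomputable def t02_l14 : Lf2 := ⟨nat_lit 3, nat_lit 5, [nat_lit 4, nat_lit 5, nat_lit 5, nat_lit 20], false, nat_lit 0, nat_lit 0, nat_lit 0, nat_lit 0, zbN0,
 nat_lit 0, nat_lit 0, nat_lit 0, nat_lit 0, nat_lit 0, nat_lit 0, nat_lit 0, nat_lit 0, nat_lit 0, nat_lit 0, nat_lit 0, nat_lit 0, nat_lit 0, nat_lit 0, nat_lit 0, nat_lit 0, nat_lit 0, nat_lit 0, [],
 C1.Rw.none, ⟨t02_k13, nat_lit 0, nat_lit 0, nat_lit 212, nat_lit 0, nat_lit 0, [], [], [], nat_lit 0, nat_lit 0, nat_lit 0, nat_lit 0, nat_lit 0, nat_lit 0, [], [nat_lit 51, nat_lit 40, nat_lit 20, nat_lit 80, nat_lit 1, nat_lit 289, nat_lit 75, nat_lit 9]⟩,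
 zbF0, []⟩
noncomputable def t02_l15 : Lf2 := ⟨nat_lit 0, nat_lit 5, [nat_lit 4, nat_lit 5, nat_lit 5, nat_lit 20], true, nat_lit 0, nat_lit 0, nat_lit 0, nat_lit 0, ⟨nat_lit 0, nat_lit 0, nat_lit 1000, nat_lit 5, nat_lit 67, nat_lit 0, nat_lit 0, nat_lit 0, nat_lit 0, nat_lit 215, nat_lit 41667, nat_lit 265, nat_lit 65192474, nat_lit 0, nat_lit 0, nat_lit 620345, false, false⟩,
 nat_lit 0, nat_lit 7700, nat_lit 0, nat_lit 0, nat_lit 4277, nat_lit 0, nat_lit 127, nat_lit 0, nat_lit 0, nat_lit 0, nat_lit 0, nat_lit 0, nat_lit 0, nat_lit 0, nat_lit 76, nat_lit 934000, nat_lit 0, nat_lit 0, [(nat_lit 6, [(nat_lit 5, nat_lit 110), (nat_lit 6, nat_lit 890)])],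
 ⟨t02_k14, nat_lit 0, nat_lit 0, nat_lit 306, nat_lit 0, nat_lit 246061, [nat_lit 2241525334, nat_lit 1352772001, nat_lit 206851999], [], [nat_lit 13680964790, nat_lit 14715071386, nat_lit 12910695332, nat_lit 13943982032], nat_lit 1271250, nat_lit 1271250, nat_lit 65850, nat_lit 111251, nat_lit 0, nat_lit 0, [nat_lit 1100000, nat_lit 1442500, nat_lit 1271250], [nat_lit 9, nat_lit 40, nat_lit 20, nat_lit 80, nat_lit 2, nat_lit 215, nat_lit 10, nat_lit 8]⟩, C1.Rw.none,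
 ⟨nat_lit 5916, nat_lit 6124, ⟨.ofNat (nat_lit 143557), .ofNat (nat_lit 159634), .ofNat (nat_lit 164905), .ofNat (nat_lit 180982), .ofNat (nat_lit 152230), .ofNat (nat_lit 167937), .ofNat (nat_lit 173569), .ofNat (nat_lit 189276)⟩, ⟨.ofNat (nat_lit 0), .ofNat (nat_lit 0), .ofNat (nat_lit 0), .ofNat (nat_lit 0), .ofNat (nat_lit 0), .ofNat (nat_lit 0), .ofNat (nat_lit 0), .ofNat (nat_lit 0)⟩⟩, [⟨nat_lit 0, nat_lit 100, nat_lit 97, nat_lit 42, nat_lit 1464337333⟩]⟩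
noncomputable def t02_l16 : Lf2 := ⟨nat_lit 0, nat_lit 5, [nat_lit 4, nat_lit 5, nat_lit 5, nat_lit 20], true, nat_lit 0, nat_lit 0, nat_lit 0, nat_lit 0, ⟨nat_lit 0, nat_lit 0, nat_lit 1000, nat_lit 5, nat_lit 63, nat_lit 0, nat_lit 0, nat_lit 0, nat_lit 0, nat_lit 215, nat_lit 36817, nat_lit 262, nat_lit 65364641, nat_lit 0, nat_lit 0, nat_lit 573624, false, false⟩,
 nat_lit 0, nat_lit 8143, nat_lit 0, nat_lit 0, nat_lit 4311, nat_lit 0, nat_lit 0, nat_lit 0, nat_lit 0, nat_lit 0, nat_lit 0, nat_lit 0, nat_lit 0, nat_lit 0, nat_lit 112, nat_lit 730000, nat_lit 0, nat_lit 0, [(nat_lit 6, [(nat_lit 5, nat_lit 450), (nat_lit 6, nat_lit 550)])],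
 ⟨t02_k10, nat_lit 0, nat_lit 0, nat_lit 339, nat_lit 0, nat_lit 141091, [nat_lit 2967306667, nat_lit 2332320001, nat_lit 55119999], [], [nat_lit 14821075388, nat_lit 16184516883, nat_lit 14270712277, nat_lit 15347473895], nat_lit 1271250, nat_lit 1271250, nat_lit 43600, nat_lit 111251, nat_lit 0, nat_lit 0, [nat_lit 1100000, nat_lit 1442500, nat_lit 1271250], [nat_lit 11, nat_lit 40, nat_lit 20, nat_lit 80, nat_lit 1, nat_lit 289, nat_lit 75, nat_lit 9]⟩, C1.Rw.none,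
 ⟨nat_lit 5916, nat_lit 6325, ⟨.ofNat (nat_lit 126498), .ofNat (nat_lit 151177), .ofNat (nat_lit 147866), .ofNat (nat_lit 172545), .ofNat (nat_lit 144377), .ofNat (nat_lit 167937), .ofNat (nat_lit 165716), .ofNat (nat_lit 189276)⟩, ⟨.ofNat (nat_lit 0), .ofNat (nat_lit 0), .ofNat (nat_lit 0), .ofNat (nat_lit 0), .ofNat (nat_lit 0), .ofNat (nat_lit 0), .ofNat (nat_lit 0), .ofNat (nat_lit 0)⟩⟩, [⟨nat_lit 0, nat_lit 100, nat_lit 98, nat_lit 40, nat_lit 456574009⟩]⟩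
noncomputable def t02_l17 : Lf2 := ⟨nat_lit 0, nat_lit 5, [nat_lit 4, nat_lit 5, nat_lit 5, nat_lit 20], false, nat_lit 0, nat_lit 0, nat_lit 0, nat_lit 0, ⟨nat_lit 1000, nat_lit 0, nat_lit 0, nat_lit 0, nat_lit 0, nat_lit 0, nat_lit 0, nat_lit 0, nat_lit 0, nat_lit 0, nat_lit 0, nat_lit 0, nat_lit 0, nat_lit 0, nat_lit 0, nat_lit 0, false, false⟩,
 nat_lit 0, nat_lit 17839, nat_lit 0, nat_lit 0, nat_lit 9444, nat_lit 10552, nat_lit 1505, nat_lit 0, nat_lit 0, nat_lit 1933, nat_lit 0, nat_lit 0, nat_lit 0, nat_lit 0, nat_lit 0, nat_lit 0, nat_lit 0, nat_lit 0, [],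
 ⟨t02_k10, nat_lit 0, nat_lit 0, nat_lit 452, nat_lit 0, nat_lit 478039, [nat_lit 4688000000, nat_lit 6250000000, nat_lit 9842000000], [], [nat_lit 28631898752, nat_lit 27035458796, nat_lit 25551080916, nat_lit 26443818356], nat_lit 1271250, nat_lit 1271250, nat_lit 490000, nat_lit 631250, nat_lit 0, nat_lit 0, [nat_lit 1100000, nat_lit 1442500, nat_lit 1271250], [nat_lit 11, nat_lit 40, nat_lit 20, nat_lit 80, nat_lit 1, nat_lit 317, nat_lit 100, nat_lit 9]⟩, ⟨t02_k15, nat_lit 0, nat_lit 0, nat_lit 149, nat_lit 0, nat_lit 0, [nat_lit 6250000000, nat_lit 7968000000, nat_lit 9842000000], [], [nat_lit 19711119846, nat_lit 21045597622, nat_lit 19170617654, nat_lit 20467893462], nat_lit 0, nat_lit 0, nat_lit 0, nat_lit 0, nat_lit 0, nat_lit 0, [], [nat_lit 25, nat_lit 40, nat_lit 20, nat_lit 80, nat_lit 17, nat_lit 317, nat_lit 100, nat_lit 9]⟩,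
 zbF0, []⟩
noncomputable def t02_l18 : Lf2 := ⟨nat_lit 0, nat_lit 5, [nat_lit 4, nat_lit 5, nat_lit 5, nat_lit 20], false, nat_lit 0, nat_lit 0, nat_lit 0, nat_lit 0, ⟨nat_lit 1000, nat_lit 0, nat_lit 0, nat_lit 0, nat_lit 0, nat_lit 0, nat_lit 0, nat_lit 0, nat_lit 0, nat_lit 0, nat_lit 0, nat_lit 0, nat_lit 0, nat_lit 0, nat_lit 0, nat_lit 0, false, false⟩,
 nat_lit 0, nat_lit 17745, nat_lit 0, nat_lit 0, nat_lit 9394, nat_lit 11266, nat_lit 1811, nat_lit 0, nat_lit 0, nat_lit 0, nat_lit 0, nat_lit 0, nat_lit 0, nat_lit 0, nat_lit 0, nat_lit 0, nat_lit 0, nat_lit 0, [],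
 ⟨t02_k10, nat_lit 0, nat_lit 0, nat_lit 657, nat_lit 0, nat_lit 948242, [nat_lit 4688000000, nat_lit 6250000000, nat_lit 9842000000], [], [nat_lit 25385677302, nat_lit 25978755234, nat_lit 26411640848, nat_lit 25705187480], nat_lit 1271250, nat_lit 1271250, nat_lit 631250, nat_lit 780000, nat_lit 0, nat_lit 0, [nat_lit 1100000, nat_lit 1442500, nat_lit 1271250], [nat_lit 11, nat_lit 40, nat_lit 20, nat_lit 80, nat_lit 1, nat_lit 317, nat_lit 100, nat_lit 9]⟩, ⟨t02_k15, nat_lit 0, nat_lit 0, nat_lit 58, nat_lit 0, nat_lit 0, [nat_lit 6250000000, nat_lit 7968000000, nat_lit 9842000000], [], [nat_lit 9527232236, nat_lit 11937636192, nat_lit 9515719436, nat_lit 11856583848], nat_lit 0, nat_lit 0, nat_lit 0, nat_lit 0, nat_lit 0, nat_lit 0, [], [nat_lit 25, nat_lit 40, nat_lit 20, nat_lit 80, nat_lit 17, nat_lit 317, nat_lit 100, nat_lit 9]⟩,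
 zbF0, []⟩
noncomputable def t02_l19 : Lf2 := ⟨nat_lit 0, nat_lit 5, [nat_lit 4, nat_lit 5, nat_lit 5, nat_lit 20], false, nat_lit 0, nat_lit 0, nat_lit 0, nat_lit 0, ⟨nat_lit 1000, nat_lit 0, nat_lit 0, nat_lit 0, nat_lit 0, nat_lit 0, nat_lit 0, nat_lit 0, nat_lit 0, nat_lit 0, nat_lit 0, nat_lit 0, nat_lit 0, nat_lit 0, nat_lit 0, nat_lit 0, false, false⟩,
 nat_lit 0, nat_lit 14512, nat_lit 0, nat_lit 0, nat_lit 7682, nat_lit 11512, nat_lit 1866, nat_lit 0, nat_lit 0, nat_lit 0, nat_lit 0, nat_lit 0, nat_lit 0, nat_lit 0, nat_lit 0, nat_lit 0, nat_lit 0, nat_lit 0, [],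
 ⟨t02_k10, nat_lit 0, nat_lit 0, nat_lit 592, nat_lit 0, nat_lit 802304, [nat_lit 4688000000, nat_lit 6250000000, nat_lit 9842000000], [], [nat_lit 29434151876, nat_lit 29583962450, nat_lit 32346922464, nat_lit 31416712925], nat_lit 1271250, nat_lit 1271250, nat_lit 780000, nat_lit 1100001, nat_lit 0, nat_lit 0, [nat_lit 1100000, nat_lit 1442500, nat_lit 1271250], [nat_lit 11, nat_lit 40, nat_lit 20, nat_lit 80, nat_lit 1, nat_lit 345, nat_lit 125, nat_lit 10]⟩, ⟨t02_k15, nat_lit 0, nat_lit 0, nat_lit 47, nat_lit 0, nat_lit 0, [nat_lit 6250000000, nat_lit 7968000000, nat_lit 9842000000], [], [nat_lit 9310369952, nat_lit 11686703136, nat_lit 10512719152, nat_lit 12741339712], nat_lit 0, nat_lit 0, nat_lit 0, nat_lit 0, nat_lit 0, nat_lit 0, [], [nat_lit 25, nat_lit 40, nat_lit 20, nat_lit 80, nat_lit 17, nat_lit 317, nat_lit 100, nat_lit 9]⟩,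
 zbF0, []⟩
noncomputable def t02_l20 : Lf2 := ⟨nat_lit 0, nat_lit 5, [nat_lit 4, nat_lit 5, nat_lit 5, nat_lit 20], false, nat_lit 0, nat_lit 0, nat_lit 0, nat_lit 0, ⟨nat_lit 1000, nat_lit 0, nat_lit 0, nat_lit 0, nat_lit 0, nat_lit 0, nat_lit 0, nat_lit 0, nat_lit 0, nat_lit 0, nat_lit 0, nat_lit 0, nat_lit 0, nat_lit 0, nat_lit 0, nat_lit 0, false, false⟩,
 nat_lit 0, nat_lit 7281, nat_lit 0, nat_lit 0, nat_lit 3949, nat_lit 11512, nat_lit 2741, nat_lit 0, nat_lit 0, nat_lit 0, nat_lit 0, nat_lit 0, nat_lit 0, nat_lit 0, nat_lit 0, nat_lit 0, nat_lit 0, nat_lit 0, [],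
 ⟨t02_k16, nat_lit 0, nat_lit 0, nat_lit 599, nat_lit 0, nat_lit 820897, [nat_lit 4688000000, nat_lit 6250000000, nat_lit 9842000000], [], [nat_lit 41575814490, nat_lit 41729377531, nat_lit 42014925638, nat_lit 42159968512], nat_lit 1271250, nat_lit 1271250, nat_lit 780000, nat_lit 1100001, nat_lit 0, nat_lit 0, [nat_lit 1100000, nat_lit 1442500, nat_lit 1271250], [nat_lit 11, nat_lit 40, nat_lit 20, nat_lit 80, nat_lit 1, nat_lit 345, nat_lit 125, nat_lit 10]⟩, ⟨t02_k15, nat_lit 0, nat_lit 0, nat_lit 47, nat_lit 0, nat_lit 0, [nat_lit 6250000000, nat_lit 7968000000, nat_lit 9842000000], [], [nat_lit 9310369952, nat_lit 11686703136, nat_lit 10512719152, nat_lit 12741339712], nat_lit 0, nat_lit 0, nat_lit 0, nat_lit 0, nat_lit 0, nat_lit 0, [], [nat_lit 25, nat_lit 40, nat_lit 20, nat_lit 80, nat_lit 17, nat_lit 317, nat_lit 100, nat_lit 9]⟩,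
 zbF0, []⟩
noncomputable def t02_l21 : Lf2 := ⟨nat_lit 0, nat_lit 5, [nat_lit 4, nat_lit 5, nat_lit 5, nat_lit 20], false, nat_lit 0, nat_lit 0, nat_lit 0, nat_lit 0, ⟨nat_lit 1000, nat_lit 0, nat_lit 0, nat_lit 0, nat_lit 0, nat_lit 0, nat_lit 0, nat_lit 0, nat_lit 0, nat_lit 0, nat_lit 0, nat_lit 0, nat_lit 0, nat_lit 0, nat_lit 0, nat_lit 0, false, false⟩,
 nat_lit 0, nat_lit 11446, nat_lit 0, nat_lit 0, nat_lit 6358, nat_lit 7808, nat_lit 4462, nat_lit 0, nat_lit 0, nat_lit 0, nat_lit 0, nat_lit 0, nat_lit 0, nat_lit 0, nat_lit 0, nat_lit 0, nat_lit 0, nat_lit 0, [],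
 ⟨t02_k17, nat_lit 0, nat_lit 0, nat_lit 537, nat_lit 0, nat_lit 886426, [nat_lit 4688000000, nat_lit 7968000000], [], [nat_lit 30287357942, nat_lit 30524639612, nat_lit 30231539616, nat_lit 30451467040], nat_lit 1271250, nat_lit 1271250, nat_lit 780000, nat_lit 1100001, nat_lit 0, nat_lit 0, [nat_lit 1100000, nat_lit 1785000], [nat_lit 39, nat_lit 40, nat_lit 20, nat_lit 80, nat_lit 7, nat_lit 249, nat_lit 40, nat_lit 8]⟩, ⟨t02_k9, nat_lit 0, nat_lit 0, nat_lit 29, nat_lit 0, nat_lit 0, [nat_lit 6250000000, nat_lit 9842000000], [], [nat_lit 12402298768, nat_lit 14244581824, nat_lit 13584831568, nat_lit 15299436256], nat_lit 0, nat_lit 0, nat_lit 0, nat_lit 0, nat_lit 0, nat_lit 0, [], [nat_lit 51, nat_lit 40, nat_lit 20, nat_lit 80, nat_lit 1, nat_lit 317, nat_lit 100, nat_lit 9]⟩,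
 zbF0, []⟩
noncomputable def t02_l22 : Lf2 := ⟨nat_lit 0, nat_lit 5, [nat_lit 4, nat_lit 5, nat_lit 5, nat_lit 20], false, nat_lit 0, nat_lit 0, nat_lit 0, nat_lit 0, ⟨nat_lit 1000, nat_lit 0, nat_lit 0, nat_lit 0, nat_lit 0, nat_lit 0, nat_lit 0, nat_lit 0, nat_lit 0, nat_lit 0, nat_lit 0, nat_lit 0, nat_lit 0, nat_lit 0, nat_lit 0, nat_lit 0, false, false⟩,
 nat_lit 0, nat_lit 14947, nat_lit 0, nat_lit 0, nat_lit 7913, nat_lit 11481, nat_lit 1628, nat_lit 0, nat_lit 0, nat_lit 0, nat_lit 0, nat_lit 0, nat_lit 0, nat_lit 0, nat_lit 0, nat_lit 0, nat_lit 0, nat_lit 0, [],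
 ⟨t02_k10, nat_lit 0, nat_lit 0, nat_lit 634, nat_lit 0, nat_lit 948242, [nat_lit 4688000000, nat_lit 6250000000, nat_lit 9842000000], [], [nat_lit 34628350332, nat_lit 30509149198, nat_lit 35079277616, nat_lit 31384008494], nat_lit 1271250, nat_lit 1271250, nat_lit 1100001, nat_lit 1785000, nat_lit 0, nat_lit 0, [nat_lit 1100000, nat_lit 1442500, nat_lit 1271250], [nat_lit 11, nat_lit 40, nat_lit 20, nat_lit 80, nat_lit 1, nat_lit 345, nat_lit 125, nat_lit 10]⟩, ⟨t02_k15, nat_lit 0, nat_lit 0, nat_lit 88, nat_lit 0, nat_lit 0, [nat_lit 6250000000, nat_lit 7968000000, nat_lit 9842000000], [], [nat_lit 10538430676, nat_lit 12733228692, nat_lit 17951597180, nat_lit 20199757424], nat_lit 0, nat_lit 0, nat_lit 0, nat_lit 0, nat_lit 0, nat_lit 0, [], [nat_lit 25, nat_lit 40, nat_lit 20, nat_lit 80, nat_lit 17, nat_lit 345, nat_lit 125, nat_lit 10]⟩,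
 zbF0, []⟩
noncomputable def t02_l23 : Lf2 := ⟨nat_lit 0, nat_lit 5, [nat_lit 4, nat_lit 5, nat_lit 5, nat_lit 20], false, nat_lit 0, nat_lit 0, nat_lit 0, nat_lit 0, ⟨nat_lit 1000, nat_lit 0, nat_lit 0, nat_lit 0, nat_lit 0, nat_lit 0, nat_lit 0, nat_lit 0, nat_lit 0, nat_lit 0, nat_lit 0, nat_lit 0, nat_lit 0, nat_lit 0, nat_lit 0, nat_lit 0, false, false⟩,
 nat_lit 0, nat_lit 13929, nat_lit 0, nat_lit 0, nat_lit 7373, nat_lit 6858, nat_lit 1665, nat_lit 0, nat_lit 0, nat_lit 3152, nat_lit 0, nat_lit 0, nat_lit 0, nat_lit 0, nat_lit 0, nat_lit 0, nat_lit 0, nat_lit 0, [],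
 ⟨t02_k10, nat_lit 0, nat_lit 0, nat_lit 562, nat_lit 0, nat_lit 802304, [nat_lit 4688000000, nat_lit 6250000000, nat_lit 9842000000], [], [nat_lit 32152683106, nat_lit 32264628661, nat_lit 37968656636, nat_lit 38040091998], nat_lit 1271250, nat_lit 1271250, nat_lit 1271250, nat_lit 1271250, nat_lit 0, nat_lit 0, [nat_lit 1100000, nat_lit 1442500, nat_lit 1271250], [nat_lit 11, nat_lit 40, nat_lit 20, nat_lit 80, nat_lit 1, nat_lit 401, nat_lit 175, nat_lit 11]⟩, ⟨t02_k15, nat_lit 0, nat_lit 0, nat_lit 226, nat_lit 0, nat_lit 0, [nat_lit 6250000000, nat_lit 7968000000, nat_lit 9842000000], [], [nat_lit 24586964188, nat_lit 25464713008, nat_lit 35595620208, nat_lit 35987649000], nat_lit 0, nat_lit 0, nat_lit 0, nat_lit 0, nat_lit 0, nat_lit 0, [], [nat_lit 25, nat_lit 40, nat_lit 20, nat_lit 80, nat_lit 17, nat_lit 401, nat_lit 175, nat_lit 11]⟩,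
 zbF0, []⟩
noncomputable def t02_l24 : Lf2 := ⟨nat_lit 0, nat_lit 5, [nat_lit 4, nat_lit 5, nat_lit 5, nat_lit 20], false, nat_lit 0, nat_lit 0, nat_lit 0, nat_lit 0, ⟨nat_lit 1000, nat_lit 0, nat_lit 0, nat_lit 0, nat_lit 0, nat_lit 0, nat_lit 0, nat_lit 0, nat_lit 0, nat_lit 0, nat_lit 0, nat_lit 0, nat_lit 0, nat_lit 0, nat_lit 0, nat_lit 0, false, false⟩,
 nat_lit 0, nat_lit 12972, nat_lit 0, nat_lit 0, nat_lit 7036, nat_lit 7121, nat_lit 2956, nat_lit 0, nat_lit 0, nat_lit 2190, nat_lit 0, nat_lit 0, nat_lit 0, nat_lit 0, nat_lit 0, nat_lit 0, nat_lit 0, nat_lit 0, [],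
 ⟨t02_k16, nat_lit 0, nat_lit 0, nat_lit 568, nat_lit 0, nat_lit 820897, [nat_lit 4688000000, nat_lit 6250000000, nat_lit 9842000000], [], [nat_lit 31188589986, nat_lit 31328245636, nat_lit 36862789036, nat_lit 36935338520], nat_lit 1271250, nat_lit 1271250, nat_lit 1271250, nat_lit 1271250, nat_lit 0, nat_lit 0, [nat_lit 1100000, nat_lit 1442500, nat_lit 1271250], [nat_lit 11, nat_lit 40, nat_lit 20, nat_lit 80, nat_lit 1, nat_lit 401, nat_lit 175, nat_lit 11]⟩, ⟨t02_k15, nat_lit 0, nat_lit 0, nat_lit 226, nat_lit 0, nat_lit 0, [nat_lit 6250000000, nat_lit 7968000000, nat_lit 9842000000], [], [nat_lit 25626171468, nat_lit 26397113192, nat_lit 36255211196, nat_lit 36644806832], nat_lit 0, nat_lit 0, nat_lit 0, nat_lit 0, nat_lit 0, nat_lit 0, [], [nat_lit 25, nat_lit 40, nat_lit 20, nat_lit 80, nat_lit 17, nat_lit 401, nat_lit 175, nat_lit 11]⟩,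
 zbF0, []⟩
noncomputable def t02_l25 : Lf2 := ⟨nat_lit 0, nat_lit 5, [nat_lit 4, nat_lit 5, nat_lit 5, nat_lit 20], false, nat_lit 0, nat_lit 0, nat_lit 0, nat_lit 0, ⟨nat_lit 1000, nat_lit 0, nat_lit 0, nat_lit 0, nat_lit 0, nat_lit 0, nat_lit 0, nat_lit 0, nat_lit 0, nat_lit 0, nat_lit 0, nat_lit 0, nat_lit 0, nat_lit 0, nat_lit 0, nat_lit 0, false, false⟩,
 nat_lit 0, nat_lit 11922, nat_lit 0, nat_lit 0, nat_lit 6623, nat_lit 7824, nat_lit 3858, nat_lit 0, nat_lit 0, nat_lit 803, nat_lit 0, nat_lit 0, nat_lit 0, nat_lit 0, nat_lit 0, nat_lit 0, nat_lit 0, nat_lit 0, [],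
 ⟨t02_k17, nat_lit 0, nat_lit 0, nat_lit 528, nat_lit 0, nat_lit 886426, [nat_lit 4688000000, nat_lit 7968000000], [], [nat_lit 31866045879, nat_lit 32045475422, nat_lit 36266283024, nat_lit 36376995252], nat_lit 1271250, nat_lit 1271250, nat_lit 1271250, nat_lit 1271250, nat_lit 0, nat_lit 0, [nat_lit 1100000, nat_lit 1785000], [nat_lit 39, nat_lit 40, nat_lit 20, nat_lit 80, nat_lit 7, nat_lit 215, nat_lit 0, nat_lit 7]⟩, ⟨t02_k9, nat_lit 0, nat_lit 0, nat_lit 214, nat_lit 0, nat_lit 0, [nat_lit 6250000000, nat_lit 9842000000], [], [nat_lit 28875838092, nat_lit 29670993948, nat_lit 40589082028, nat_lit 40998104444], nat_lit 0, nat_lit 0, nat_lit 0, nat_lit 0, nat_lit 0, nat_lit 0, [], [nat_lit 51, nat_lit 40, nat_lit 20, nat_lit 80, nat_lit 1, nat_lit 401, nat_lit 175, nat_lit 11]⟩,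
 zbF0, []⟩
noncomputable def t02_l26 : Lf2 := ⟨nat_lit 0, nat_lit 1, [nat_lit 19, nat_lit 5, nat_lit 5, nat_lit 20], false, nat_lit 0, nat_lit 0, nat_lit 0, nat_lit 0, ⟨nat_lit 1000, nat_lit 0, nat_lit 0, nat_lit 0, nat_lit 0, nat_lit 0, nat_lit 0, nat_lit 0, nat_lit 0, nat_lit 0, nat_lit 0, nat_lit 0, nat_lit 0, nat_lit 0, nat_lit 0, nat_lit 0, false, false⟩,
 nat_lit 19177, nat_lit 0, nat_lit 0, nat_lit 0, nat_lit 10152, nat_lit 9658, nat_lit 0, nat_lit 0, nat_lit 0, nat_lit 5878, nat_lit 0, nat_lit 0, nat_lit 0, nat_lit 0, nat_lit 0, nat_lit 0, nat_lit 0, nat_lit 0, [],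
 ⟨t02_k18, nat_lit 0, nat_lit 0, nat_lit 279, nat_lit 0, nat_lit 326385, [nat_lit 4688000000, nat_lit 6250000000], [], [nat_lit 31893811936, nat_lit 30587778456, nat_lit 29786662816, nat_lit 28484521612], nat_lit 1271250, nat_lit 1271250, nat_lit 181601, nat_lit 230001, nat_lit 0, nat_lit 0, [nat_lit 1100000, nat_lit 1442500], [nat_lit 31, nat_lit 40, nat_lit 20, nat_lit 80, nat_lit 3, nat_lit 215, nat_lit 10, nat_lit 9]⟩, ⟨t02_k19, nat_lit 0, nat_lit 0, nat_lit 0, nat_lit 0, nat_lit 343317, [nat_lit 2637500000, nat_lit 5449500000, nat_lit 7089500000], [], [nat_lit 15878114460, nat_lit 16315122194, nat_lit 15222302238, nat_lit 15657532532], nat_lit 1271250, nat_lit 1271250, nat_lit 181601, nat_lit 230001, nat_lit 0, nat_lit 0, [nat_lit 631250, nat_lit 1271250, nat_lit 1271250], [nat_lit 90, nat_lit 40, nat_lit 20, nat_lit 40]⟩,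
 zbF0, []⟩
noncomputable def t02_l27 : Lf2 := ⟨nat_lit 0, nat_lit 1, [nat_lit 19, nat_lit 5, nat_lit 5, nat_lit 20], false, nat_lit 0, nat_lit 0, nat_lit 0, nat_lit 0, ⟨nat_lit 1000, nat_lit 0, nat_lit 0, nat_lit 0, nat_lit 0, nat_lit 0, nat_lit 0, nat_lit 0, nat_lit 0, nat_lit 0, nat_lit 0, nat_lit 0, nat_lit 0, nat_lit 0, nat_lit 0, nat_lit 0, false, false⟩,
 nat_lit 16676, nat_lit 0, nat_lit 0, nat_lit 0, nat_lit 8828, nat_lit 8612, nat_lit 0, nat_lit 0, nat_lit 0, nat_lit 7175, nat_lit 0, nat_lit 0, nat_lit 0, nat_lit 0, nat_lit 0, nat_lit 0, nat_lit 0, nat_lit 0, [],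
 ⟨t02_k18, nat_lit 0, nat_lit 0, nat_lit 280, nat_lit 0, nat_lit 344792, [nat_lit 4688000000, nat_lit 6250000000], [], [nat_lit 32380556704, nat_lit 31244853043, nat_lit 30548217024, nat_lit 29415898018], nat_lit 1271250, nat_lit 1271250, nat_lit 181601, nat_lit 230001, nat_lit 0, nat_lit 0, [nat_lit 1100000, nat_lit 1442500], [nat_lit 31, nat_lit 40, nat_lit 20, nat_lit 80, nat_lit 3, nat_lit 215, nat_lit 10, nat_lit 9]⟩, ⟨t02_k20, nat_lit 0, nat_lit 0, nat_lit 0, nat_lit 0, nat_lit 353542, [nat_lit 2637500000, nat_lit 5449500000, nat_lit 7089500000], [], [nat_lit 15449685765, nat_lit 15857228516, nat_lit 14878005548, nat_lit 15291285968], nat_lit 1271250, nat_lit 1271250, nat_lit 181601, nat_lit 230001, nat_lit 0, nat_lit 0, [nat_lit 631250, nat_lit 1271250, nat_lit 1271250], [nat_lit 90, nat_lit 40, nat_lit 20, nat_lit 40]⟩,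
 zbF0, []⟩
noncomputable def t02_l28 : Lf2 := ⟨nat_lit 0, nat_lit 5, [nat_lit 4, nat_lit 5, nat_lit 5, nat_lit 20], false, nat_lit 0, nat_lit 0, nat_lit 0, nat_lit 0, ⟨nat_lit 0, nat_lit 0, nat_lit 1000, nat_lit 5, nat_lit 71, nat_lit 0, nat_lit 0, nat_lit 0, nat_lit 0, nat_lit 215, nat_lit 46817, nat_lit 268, nat_lit 64936230, nat_lit 0, nat_lit 0, nat_lit 687581, false, false⟩,
 nat_lit 100000, nat_lit 0, nat_lit 100000, nat_lit 0, nat_lit 7020, nat_lit 95652, nat_lit 0, nat_lit 0, nat_lit 0, nat_lit 56150, nat_lit 3947, nat_lit 0, nat_lit 0, nat_lit 0, nat_lit 147, nat_lit 1000000, nat_lit 0, nat_lit 0, [(nat_lit 6, [(nat_lit 6, nat_lit 1000)])],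
 ⟨t02_k10, nat_lit 0, nat_lit 0, nat_lit 492, nat_lit 0, nat_lit 438856, [nat_lit 3329066667, nat_lit 3042400001, nat_lit 177599999], [], [nat_lit 23862802567, nat_lit 20217852895, nat_lit 18018697495, nat_lit 16052048800], nat_lit 1271250, nat_lit 1271250, nat_lit 43600, nat_lit 230001, nat_lit 0, nat_lit 0, [nat_lit 1100000, nat_lit 1442500, nat_lit 1271250], [nat_lit 11, nat_lit 40, nat_lit 20, nat_lit 80, nat_lit 1, nat_lit 289, nat_lit 75, nat_lit 9]⟩, ⟨t02_k15, nat_lit 0, nat_lit 0, nat_lit 525, nat_lit 0, nat_lit 489050, [nat_lit 78940000000, nat_lit 94728000000, nat_lit 110516000000], [], [nat_lit 113171233512, nat_lit 86101614084, nat_lit 54162684328, nat_lit 58274763808], nat_lit 1271250, nat_lit 1271250, nat_lit 43600, nat_lit 230001, nat_lit 0, nat_lit 0, [nat_lit 1412500, nat_lit 1271250, nat_lit 1271250], [nat_lit 25, nat_lit 40, nat_lit 20, nat_lit 80, nat_lit 17, nat_lit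 289, nat_lit 75, nat_lit 9]⟩,
 ⟨nat_lit 5916, nat_lit 6325, ⟨.ofNat (nat_lit 126498), .ofNat (nat_lit 192309), .ofNat (nat_lit 147866), .ofNat (nat_lit 213677), .ofNat (nat_lit 144377), .ofNat (nat_lit 207203), .ofNat (nat_lit 165716), .ofNat (nat_lit 228543)⟩, ⟨.ofNat (nat_lit 0), .ofNat (nat_lit 0), .ofNat (nat_lit 0), .ofNat (nat_lit 0), .ofNat (nat_lit 0), .ofNat (nat_lit 0), .ofNat (nat_lit 0), .ofNat (nat_lit 0)⟩⟩, []⟩
noncomputable def t02_l29 : Lf2 := ⟨nat_lit 0, nat_lit 5, [nat_lit 4, nat_lit 5, nat_lit 5, nat_lit 20], true, nat_lit 0, nat_lit 0, nat_lit 0, nat_lit 0, ⟨nat_lit 0, nat_lit 0, nat_lit 1000, nat_lit 5, nat_lit 59, nat_lit 0, nat_lit 0, nat_lit 0, nat_lit 0, nat_lit 215, nat_lit 33750, nat_lit 260, nat_lit 65553493, nat_lit 0, nat_lit 0, nat_lit 520768, false, false⟩,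
 nat_lit 0, nat_lit 7449, nat_lit 0, nat_lit 0, nat_lit 3943, nat_lit 0, nat_lit 0, nat_lit 0, nat_lit 0, nat_lit 0, nat_lit 0, nat_lit 0, nat_lit 0, nat_lit 0, nat_lit 118, nat_lit 776200, nat_lit 0, nat_lit 0, [(nat_lit 6, [(nat_lit 5, nat_lit 373), (nat_lit 6, nat_lit 627)])],
 ⟨t02_k10, nat_lit 0, nat_lit 0, nat_lit 347, nat_lit 0, nat_lit 170775, [nat_lit 3029385600, nat_lit 2454044801, nat_lit 76388799], [], [nat_lit 14687504302, nat_lit 14994473239, nat_lit 14806987306, nat_lit 14475441295], nat_lit 1271250, nat_lit 1271250, nat_lit 43600, nat_lit 111251, nat_lit 0, nat_lit 0, [nat_lit 1100000, nat_lit 1442500, nat_lit 1271250], [nat_lit 11, nat_lit 40, nat_lit 20, nat_lit 80, nat_lit 1, nat_lit 289, nat_lit 75, nat_lit 9]⟩, C1.Rw.none,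
 ⟨nat_lit 6123, nat_lit 6325, ⟨.ofNat (nat_lit 126498), .ofNat (nat_lit 151177), .ofNat (nat_lit 137182), .ofNat (nat_lit 161861), .ofNat (nat_lit 135519), .ofNat (nat_lit 159634), .ofNat (nat_lit 146193), .ofNat (nat_lit 170308)⟩, ⟨.ofNat (nat_lit 0), .ofNat (nat_lit 0), .ofNat (nat_lit 0), .ofNat (nat_lit 0), .ofNat (nat_lit 0), .ofNat (nat_lit 0), .ofNat (nat_lit 0), .ofNat (nat_lit 0)⟩⟩, [⟨nat_lit 0, nat_lit 100, nat_lit 98, nat_lit 35, nat_lit 57666394⟩]⟩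
noncomputable def t02_l30 : Lf2 := ⟨nat_lit 0, nat_lit 5, [nat_lit 4, nat_lit 5, nat_lit 5, nat_lit 20], true, nat_lit 0, nat_lit 0, nat_lit 0, nat_lit 0, ⟨nat_lit 0, nat_lit 0, nat_lit 1000, nat_lit 5, nat_lit 65, nat_lit 0, nat_lit 0, nat_lit 0, nat_lit 0, nat_lit 215, nat_lit 40017, nat_lit 264, nat_lit 65271104, nat_lit 0, nat_lit 0, nat_lit 599171, false, false⟩,
 nat_lit 0, nat_lit 8311, nat_lit 0, nat_lit 0, nat_lit 4443, nat_lit 0, nat_lit 0, nat_lit 0, nat_lit 0, nat_lit 0, nat_lit 0, nat_lit 0, nat_lit 0, nat_lit 0, nat_lit 67, nat_lit 427000, nat_lit 0, nat_lit 0, [(nat_lit 6, [(nat_lit 5, nat_lit 955), (nat_lit 6, nat_lit 45)])],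
 ⟨t02_k21, nat_lit 0, nat_lit 0, nat_lit 0, nat_lit 0, nat_lit 162984, [nat_lit 2469776001, nat_lit 1537195001, nat_lit 115244500], [], [nat_lit 14633043469, nat_lit 14689820320, nat_lit 14273640837, nat_lit 14323845492], nat_lit 1271250, nat_lit 1271250, nat_lit 65850, nat_lit 111251, nat_lit 0, nat_lit 0, [nat_lit 1100000, nat_lit 1442500, nat_lit 1271250], [nat_lit 123, nat_lit 40, nat_lit 20, nat_lit 40]⟩, C1.Rw.none,
 ⟨nat_lit 6264, nat_lit 6285, ⟨.ofNat (nat_lit 152527), .ofNat (nat_lit 168904), .ofNat (nat_lit 155732), .ofNat (nat_lit 172108), .ofNat (nat_lit 153413), .ofNat (nat_lit 169752), .ofNat (nat_lit 156617), .ofNat (nat_lit 172956)⟩, ⟨.ofNat (nat_lit 0), .ofNat (nat_lit 0), .ofNat (nat_lit 0), .ofNat (nat_lit 0), .ofNat (nat_lit 0), .ofNat (nat_lit 0), .ofNat (nat_lit 0), .ofNat (nat_lit 0)⟩⟩, [⟨nat_lit 0, nat_lit 100, nat_lit 99, nat_lit 40, nat_lit 336543615⟩]⟩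
noncomputable def t02_l31 : Lf2 := ⟨nat_lit 0, nat_lit 5, [nat_lit 4, nat_lit 5, nat_lit 5, nat_lit 20], false, nat_lit 0, nat_lit 0, nat_lit 0, nat_lit 0, ⟨nat_lit 350, nat_lit 0, nat_lit 650, nat_lit 5, nat_lit 68, nat_lit 0, nat_lit 0, nat_lit 0, nat_lit 0, nat_lit 215, nat_lit 43350, nat_lit 266, nat_lit 65128599, nat_lit 0, nat_lit 0, nat_lit 637353, false, false⟩,
 nat_lit 6577, nat_lit 5042, nat_lit 0, nat_lit 0, nat_lit 6211, nat_lit 3447, nat_lit 562, nat_lit 0, nat_lit 0, nat_lit 1150, nat_lit 0, nat_lit 0, nat_lit 0, nat_lit 0, nat_lit 0, nat_lit 650000, nat_lit 0, nat_lit 0, [(nat_lit 6, [(nat_lit 6, nat_lit 650)])],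
 ⟨t02_k21, nat_lit 0, nat_lit 0, nat_lit 0, nat_lit 0, nat_lit 171083, [nat_lit 2275893334, nat_lit 2285260001, nat_lit 1170520000], [], [nat_lit 16736762446, nat_lit 16822723703, nat_lit 16430425852, nat_lit 16478003245], nat_lit 1271250, nat_lit 1271250, nat_lit 88400, nat_lit 111251, nat_lit 0, nat_lit 0, [nat_lit 1100000, nat_lit 1442500, nat_lit 1271250], [nat_lit 123, nat_lit 40, nat_lit 20, nat_lit 40]⟩, ⟨t02_k22, nat_lit 0, nat_lit 0, nat_lit 0, nat_lit 0, nat_lit 174723, [nat_lit 1907325000, nat_lit 2481325000, nat_lit 3109925000], [], [nat_lit 6967239323, nat_lit 7019340780, nat_lit 6808374853, nat_lit 6851804140], nat_lit 1271250, nat_lit 1271250, nat_lit 88400, nat_lit 111251, nat_lit 0, nat_lit 0, [nat_lit 1271250, nat_lit 1271250, nat_lit 1271250], [nat_lit 96, nat_lit 40, nat_lit 20, nat_lit 40]⟩,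
 ⟨nat_lit 6264, nat_lit 6285, ⟨.ofNat (nat_lit 163920), .ofNat (nat_lit 172108), .ofNat (nat_lit 166056), .ofNat (nat_lit 174245), .ofNat (nat_lit 164787), .ofNat (nat_lit 172956), .ofNat (nat_lit 166923), .ofNat (nat_lit 175092)⟩, ⟨.ofNat (nat_lit 0), .ofNat (nat_lit 0), .ofNat (nat_lit 0), .ofNat (nat_lit 0), .ofNat (nat_lit 0), .ofNat (nat_lit 0), .ofNat (nat_lit 0), .ofNat (nat_lit 0)⟩⟩, [⟨nat_lit 0, nat_lit 100, nat_lit 100, nat_lit 41, nat_lit 960906960⟩]⟩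
noncomputable def t02_l32 : Lf2 := ⟨nat_lit 0, nat_lit 5, [nat_lit 4, nat_lit 5, nat_lit 5, nat_lit 20], false, nat_lit 0, nat_lit 0, nat_lit 0, nat_lit 0, ⟨nat_lit 365, nat_lit 0, nat_lit 635, nat_lit 5, nat_lit 66, nat_lit 0, nat_lit 0, nat_lit 0, nat_lit 0, nat_lit 215, nat_lit 41667, nat_lit 265, nat_lit 65221822, nat_lit 0, nat_lit 0, nat_lit 612474, false, false⟩,
 nat_lit 7126, nat_lit 4362, nat_lit 0, nat_lit 0, nat_lit 6171, nat_lit 3680, nat_lit 887, nat_lit 0, nat_lit 0, nat_lit 1188, nat_lit 0, nat_lit 0, nat_lit 0, nat_lit 0, nat_lit 0, nat_lit 254000, nat_lit 0, nat_lit 0, [(nat_lit 6, [(nat_lit 5, nat_lit 635)])],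
 ⟨t02_k23, nat_lit 0, nat_lit 0, nat_lit 0, nat_lit 0, nat_lit 178693, [nat_lit 2611296000, nat_lit 2407869001, nat_lit 2228524500], [], [nat_lit 17432730688, nat_lit 17608807140, nat_lit 16802271956, nat_lit 16919477750], nat_lit 1271250, nat_lit 1271250, nat_lit 65850, nat_lit 111251, nat_lit 0, nat_lit 0, [nat_lit 1100000, nat_lit 1442500, nat_lit 1271250], [nat_lit 123, nat_lit 40, nat_lit 20, nat_lit 40]⟩, ⟨t02_k24, nat_lit 0, nat_lit 0, nat_lit 0, nat_lit 0, nat_lit 186408, [nat_lit 1989067500, nat_lit 2587667500, nat_lit 3243207500], [], [nat_lit 7615993706, nat_lit 7790860956, nat_lit 7190435663, nat_lit 7317596340], nat_lit 1271250, nat_lit 1271250, nat_lit 65850, nat_lit 111251, nat_lit 0, nat_lit 0, [nat_lit 1271250, nat_lit 1271250, nat_lit 1271250], [nat_lit 96, nat_lit 40, nat_lit 20, nat_lit 40]⟩,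
 ⟨nat_lit 6224, nat_lit 6265, ⟨.ofNat (nat_lit 153413), .ofNat (nat_lit 169752), .ofNat (nat_lit 158753), .ofNat (nat_lit 175092), .ofNat (nat_lit 155180), .ofNat (nat_lit 171443), .ofNat (nat_lit 160519), .ofNat (nat_lit 176782)⟩, ⟨.ofNat (nat_lit 0), .ofNat (nat_lit 0), .ofNat (nat_lit 0), .ofNat (nat_lit 0), .ofNat (nat_lit 0), .ofNat (nat_lit 0), .ofNat (nat_lit 0), .ofNat (nat_lit 0)⟩⟩, [⟨nat_lit 0, nat_lit 100, nat_lit 99, nat_lit 41, nat_lit 1077237855⟩]⟩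
noncomputable def t02_l33 : Lf2 := ⟨nat_lit 0, nat_lit 5, [nat_lit 4, nat_lit 5, nat_lit 5, nat_lit 20], true, nat_lit 0, nat_lit 0, nat_lit 0, nat_lit 0, ⟨nat_lit 0, nat_lit 0, nat_lit 1000, nat_lit 5, nat_lit 64, nat_lit 0, nat_lit 0, nat_lit 0, nat_lit 0, nat_lit 215, nat_lit 38400, nat_lit 263, nat_lit 65333217, nat_lit 0, nat_lit 0, nat_lit 582251, false, false⟩,
 nat_lit 0, nat_lit 9011, nat_lit 0, nat_lit 0, nat_lit 4770, nat_lit 0, nat_lit 0, nat_lit 0, nat_lit 0, nat_lit 0, nat_lit 0, nat_lit 0, nat_lit 0, nat_lit 0, nat_lit 94, nat_lit 709600, nat_lit 0, nat_lit 0, [(nat_lit 6, [(nat_lit 5, nat_lit 484), (nat_lit 6, nat_lit 516)])],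
 ⟨t02_k25, nat_lit 0, nat_lit 0, nat_lit 0, nat_lit 0, nat_lit 145327, [nat_lit 2694284801, nat_lit 2054116001, nat_lit 163543600], [], [nat_lit 14017437504, nat_lit 14402005005, nat_lit 13706187619, nat_lit 14089095438], nat_lit 1271250, nat_lit 1271250, nat_lit 65850, nat_lit 88400, nat_lit 0, nat_lit 0, [nat_lit 1100000, nat_lit 1442500, nat_lit 1271250], [nat_lit 123, nat_lit 40, nat_lit 20, nat_lit 40]⟩, C1.Rw.none,
 ⟨nat_lit 6224, nat_lit 6325, ⟨.ofNat (nat_lit 150750), .ofNat (nat_lit 158977), .ofNat (nat_lit 156092), .ofNat (nat_lit 164319), .ofNat (nat_lit 155180), .ofNat (nat_lit 163311), .ofNat (nat_lit 160519), .ofNat (nat_lit 168651)⟩, ⟨.ofNat (nat_lit 0), .ofNat (nat_lit 0), .ofNat (nat_lit 0), .ofNat (nat_lit 0), .ofNat (nat_lit 0), .ofNat (nat_lit 0), .ofNat (nat_lit 0), .ofNat (nat_lit 0)⟩⟩, [⟨nat_lit 0, nat_lit 100, nat_lit 99, nat_lit 40, nat_lit 703551288⟩]⟩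
noncomputable def t02_l34 : Lf2 := ⟨nat_lit 0, nat_lit 5, [nat_lit 4, nat_lit 5, nat_lit 5, nat_lit 20], true, nat_lit 0, nat_lit 0, nat_lit 0, nat_lit 0, ⟨nat_lit 0, nat_lit 0, nat_lit 1000, nat_lit 5, nat_lit 67, nat_lit 0, nat_lit 0, nat_lit 0, nat_lit 0, nat_lit 215, nat_lit 41667, nat_lit 265, nat_lit 65162945, nat_lit 0, nat_lit 0, nat_lit 628229, false, false⟩,
 nat_lit 0, nat_lit 7713, nat_lit 0, nat_lit 0, nat_lit 4083, nat_lit 0, nat_lit 53, nat_lit 0, nat_lit 0, nat_lit 0, nat_lit 0, nat_lit 0, nat_lit 0, nat_lit 0, nat_lit 147, nat_lit 1000000, nat_lit 0, nat_lit 0, [(nat_lit 6, [(nat_lit 6, nat_lit 1000)])],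
 ⟨t02_k26, nat_lit 0, nat_lit 0, nat_lit 0, nat_lit 0, nat_lit 145327, [nat_lit 3329066667, nat_lit 2748000001, nat_lit 1819200001, nat_lit 7200000], [], [nat_lit 12926429529, nat_lit 13215812156, nat_lit 12766384482, nat_lit 13020962599], nat_lit 1271250, nat_lit 1271250, nat_lit 88400, nat_lit 111251, nat_lit 0, nat_lit 0, [nat_lit 1100000, nat_lit 1442500, nat_lit 1271250, nat_lit 1271250], [nat_lit 199, nat_lit 40, nat_lit 20, nat_lit 80]⟩, C1.Rw.none,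
 ⟨nat_lit 6224, nat_lit 6325, ⟨.ofNat (nat_lit 158977), .ofNat (nat_lit 167203), .ofNat (nat_lit 164319), .ofNat (nat_lit 172545), .ofNat (nat_lit 163311), .ofNat (nat_lit 171443), .ofNat (nat_lit 168651), .ofNat (nat_lit 176782)⟩, ⟨.ofNat (nat_lit 0), .ofNat (nat_lit 0), .ofNat (nat_lit 0), .ofNat (nat_lit 0), .ofNat (nat_lit 0), .ofNat (nat_lit 0), .ofNat (nat_lit 0), .ofNat (nat_lit 0)⟩⟩, [⟨nat_lit 0, nat_lit 100, nat_lit 99, nat_lit 40, nat_lit 312886435⟩]⟩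
noncomputable def t02_l35 : Lf2 := ⟨nat_lit 0, nat_lit 5, [nat_lit 4, nat_lit 5, nat_lit 5, nat_lit 20], true, nat_lit 0, nat_lit 0, nat_lit 0, nat_lit 0, ⟨nat_lit 0, nat_lit 0, nat_lit 1000, nat_lit 5, nat_lit 66, nat_lit 0, nat_lit 0, nat_lit 0, nat_lit 0, nat_lit 215, nat_lit 40017, nat_lit 264, nat_lit 65249035, nat_lit 0, nat_lit 0, nat_lit 605141, false, false⟩,
 nat_lit 0, nat_lit 100000, nat_lit 0, nat_lit 0, nat_lit 52941, nat_lit 0, nat_lit 10690, nat_lit 3337, nat_lit 0, nat_lit 0, nat_lit 0, nat_lit 0, nat_lit 0, nat_lit 0, nat_lit 0, nat_lit 1000000, nat_lit 0, nat_lit 0, [(nat_lit 6, [(nat_lit 6, nat_lit 1000)])],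
 ⟨t02_k10, nat_lit 0, nat_lit 0, nat_lit 347, nat_lit 0, nat_lit 187890, [nat_lit 54369066667, nat_lit 66842400001, nat_lit 89497599999], [], [nat_lit 130412785081, nat_lit 131554371456, nat_lit 126070930917, nat_lit 125933474647], nat_lit 1271250, nat_lit 1271250, nat_lit 65850, nat_lit 111251, nat_lit 0, nat_lit 0, [nat_lit 1100000, nat_lit 1442500, nat_lit 1271250], [nat_lit 11, nat_lit 40, nat_lit 20, nat_lit 80, nat_lit 1, nat_lit 289, nat_lit 75, nat_lit 9]⟩, C1.Rw.none,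
 ⟨nat_lit 6224, nat_lit 6325, ⟨.ofNat (nat_lit 150750), .ofNat (nat_lit 167203), .ofNat (nat_lit 156092), .ofNat (nat_lit 172545), .ofNat (nat_lit 155180), .ofNat (nat_lit 171443), .ofNat (nat_lit 160519), .ofNat (nat_lit 176782)⟩, ⟨.ofNat (nat_lit 0), .ofNat (nat_lit 0), .ofNat (nat_lit 0), .ofNat (nat_lit 0), .ofNat (nat_lit 0), .ofNat (nat_lit 0), .ofNat (nat_lit 0), .ofNat (nat_lit 0)⟩⟩, [⟨nat_lit 0, nat_lit 100, nat_lit 99, nat_lit 40, nat_lit 10101010101⟩, ⟨nat_lit 13, nat_lit 99, nat_lit 3, nat_lit 100, nat_lit 208150569⟩]⟩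
noncomputable def t02_l36 : Lf2 := ⟨nat_lit 3, nat_lit 5, [nat_lit 4, nat_lit 5, nat_lit 5, nat_lit 20], false, nat_lit 0, nat_lit 0, nat_lit 0, nat_lit 0, zbN0,
 nat_lit 0, nat_lit 0, nat_lit 0, nat_lit 0, nat_lit 0, nat_lit 0, nat_lit 0, nat_lit 0, nat_lit 0, nat_lit 0, nat_lit 0, nat_lit 0, nat_lit 0, nat_lit 0, nat_lit 0, nat_lit 0, nat_lit 0, nat_lit 0, [],
 C1.Rw.none, ⟨t02_k13, nat_lit 0, nat_lit 0, nat_lit 348, nat_lit 0, nat_lit 193051, [], [], [], nat_lit 1271250, nat_lit 1271250, nat_lit 65850, nat_lit 111251, nat_lit 0, nat_lit 0, [nat_lit 1412500, nat_lit 1271250], [nat_lit 51, nat_lit 40, nat_lit 20, nat_lit 80, nat_lit 1, nat_lit 289, nat_lit 75, nat_lit 9]⟩,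
 zbF0, []⟩
noncomputable def t02_l37 : Lf2 := ⟨nat_lit 0, nat_lit 5, [nat_lit 4, nat_lit 5, nat_lit 5, nat_lit 20], true, nat_lit 0, nat_lit 0, nat_lit 0, nat_lit 0, ⟨nat_lit 0, nat_lit 0, nat_lit 1000, nat_lit 5, nat_lit 67, nat_lit 0, nat_lit 0, nat_lit 0, nat_lit 0, nat_lit 215, nat_lit 41667, nat_lit 265, nat_lit 65192474, nat_lit 0, nat_lit 0, nat_lit 620345, false, false⟩,
 nat_lit 0, nat_lit 7700, nat_lit 0, nat_lit 0, nat_lit 4277, nat_lit 0, nat_lit 127, nat_lit 0, nat_lit 0, nat_lit 0, nat_lit 0, nat_lit 0, nat_lit 0, nat_lit 0, nat_lit 76, nat_lit 934000, nat_lit 0, nat_lit 0, [(nat_lit 6, [(nat_lit 5, nat_lit 110), (nat_lit 6, nat_lit 890)])],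
 ⟨t02_k14, nat_lit 0, nat_lit 0, nat_lit 306, nat_lit 0, nat_lit 246061, [nat_lit 2241525334, nat_lit 1352772001, nat_lit 206851999], [], [nat_lit 13680964790, nat_lit 14715071386, nat_lit 12910695332, nat_lit 13943982032], nat_lit 1271250, nat_lit 1271250, nat_lit 65850, nat_lit 111251, nat_lit 0, nat_lit 0, [nat_lit 1100000, nat_lit 1442500, nat_lit 1271250], [nat_lit 9, nat_lit 40, nat_lit 20, nat_lit 80, nat_lit 2, nat_lit 215, nat_lit 10, nat_lit 8]⟩, C1.Rw.none,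
 ⟨nat_lit 5916, nat_lit 6124, ⟨.ofNat (nat_lit 143557), .ofNat (nat_lit 159634), .ofNat (nat_lit 164905), .ofNat (nat_lit 180982), .ofNat (nat_lit 152230), .ofNat (nat_lit 167937), .ofNat (nat_lit 173569), .ofNat (nat_lit 189276)⟩, ⟨.ofNat (nat_lit 0), .ofNat (nat_lit 0), .ofNat (nat_lit 0), .ofNat (nat_lit 0), .ofNat (nat_lit 0), .ofNat (nat_lit 0), .ofNat (nat_lit 0), .ofNat (nat_lit 0)⟩⟩, [⟨nat_lit 0, nat_lit 100, nat_lit 97, nat_lit 42, nat_lit 1464337333⟩]⟩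
noncomputable def t02_l38 : Lf2 := ⟨nat_lit 0, nat_lit 5, [nat_lit 4, nat_lit 5, nat_lit 5, nat_lit 20], true, nat_lit 0, nat_lit 0, nat_lit 0, nat_lit 0, ⟨nat_lit 0, nat_lit 0, nat_lit 1000, nat_lit 5, nat_lit 63, nat_lit 0, nat_lit 0, nat_lit 0, nat_lit 0, nat_lit 215, nat_lit 36817, nat_lit 262, nat_lit 65364641, nat_lit 0, nat_lit 0, nat_lit 573624, false, false⟩,
 nat_lit 0, nat_lit 8143, nat_lit 0, nat_lit 0, nat_lit 4311, nat_lit 0, nat_lit 0, nat_lit 0, nat_lit 0, nat_lit 0, nat_lit 0, nat_lit 0, nat_lit 0, nat_lit 0, nat_lit 112, nat_lit 730000, nat_lit 0, nat_lit 0, [(nat_lit 6, [(nat_lit 5, nat_lit 450), (nat_lit 6, nat_lit 550)])],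
 ⟨t02_k10, nat_lit 0, nat_lit 0, nat_lit 339, nat_lit 0, nat_lit 141091, [nat_lit 2967306667, nat_lit 2332320001, nat_lit 55119999], [], [nat_lit 14821075388, nat_lit 16184516883, nat_lit 14270712277, nat_lit 15347473895], nat_lit 1271250, nat_lit 1271250, nat_lit 43600, nat_lit 111251, nat_lit 0, nat_lit 0, [nat_lit 1100000, nat_lit 1442500, nat_lit 1271250], [nat_lit 11, nat_lit 40, nat_lit 20, nat_lit 80, nat_lit 1, nat_lit 289, nat_lit 75, nat_lit 9]⟩, C1.Rw.none,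
 ⟨nat_lit 5916, nat_lit 6325, ⟨.ofNat (nat_lit 126498), .ofNat (nat_lit 151177), .ofNat (nat_lit 147866), .ofNat (nat_lit 172545), .ofNat (nat_lit 144377), .ofNat (nat_lit 167937), .ofNat (nat_lit 165716), .ofNat (nat_lit 189276)⟩, ⟨.ofNat (nat_lit 0), .ofNat (nat_lit 0), .ofNat (nat_lit 0), .ofNat (nat_lit 0), .ofNat (nat_lit 0), .ofNat (nat_lit 0), .ofNat (nat_lit 0), .ofNat (nat_lit 0)⟩⟩, [⟨nat_lit 0, nat_lit 100, nat_lit 98, nat_lit 40, nat_lit 456574009⟩]⟩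
noncomputable def t02_l39 : Lf2 := ⟨nat_lit 0, nat_lit 5, [nat_lit 4, nat_lit 5, nat_lit 5, nat_lit 20], true, nat_lit 0, nat_lit 0, nat_lit 0, nat_lit 0, ⟨nat_lit 0, nat_lit 0, nat_lit 1000, nat_lit 5, nat_lit 75, nat_lit 0, nat_lit 0, nat_lit 0, nat_lit 0, nat_lit 215, nat_lit 52267, nat_lit 271, nat_lit 64749905, nat_lit 0, nat_lit 0, nat_lit 734911, false, false⟩,
 nat_lit 0, nat_lit 7519, nat_lit 0, nat_lit 0, nat_lit 3980, nat_lit 0, nat_lit 0, nat_lit 0, nat_lit 0, nat_lit 0, nat_lit 0, nat_lit 0, nat_lit 0, nat_lit 0, nat_lit 147, nat_lit 1000000, nat_lit 0, nat_lit 0, [(nat_lit 6, [(nat_lit 6, nat_lit 1000)])],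
 ⟨t02_k10, nat_lit 0, nat_lit 0, nat_lit 304, nat_lit 0, nat_lit 90866, [nat_lit 3329066667, nat_lit 3042400001, nat_lit 177599999], [], [nat_lit 13100390107, nat_lit 13557098367, nat_lit 12694777307, nat_lit 13145838207], nat_lit 1271250, nat_lit 1271250, nat_lit 111251, nat_lit 230001, nat_lit 0, nat_lit 0, [nat_lit 1100000, nat_lit 1442500, nat_lit 1271250], [nat_lit 11, nat_lit 40, nat_lit 20, nat_lit 80, nat_lit 1, nat_lit 289, nat_lit 75, nat_lit 9]⟩, C1.Rw.none,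
 ⟨nat_lit 6123, nat_lit 6325, ⟨.ofNat (nat_lit 151177), .ofNat (nat_lit 192309), .ofNat (nat_lit 172545), .ofNat (nat_lit 213677), .ofNat (nat_lit 159634), .ofNat (nat_lit 199824), .ofNat (nat_lit 180982), .ofNat (nat_lit 221172)⟩, ⟨.ofNat (nat_lit 0), .ofNat (nat_lit 0), .ofNat (nat_lit 0), .ofNat (nat_lit 0), .ofNat (nat_lit 0), .ofNat (nat_lit 0), .ofNat (nat_lit 0), .ofNat (nat_lit 0)⟩⟩, [⟨nat_lit 0, nat_lit 100, nat_lit 99, nat_lit 45, nat_lit 167239812⟩]⟩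
noncomputable def t02_l40 : Lf2 := ⟨nat_lit 0, nat_lit 5, [nat_lit 4, nat_lit 5, nat_lit 5, nat_lit 20], true, nat_lit 0, nat_lit 0, nat_lit 0, nat_lit 0, ⟨nat_lit 0, nat_lit 0, nat_lit 1000, nat_lit 5, nat_lit 78, nat_lit 0, nat_lit 0, nat_lit 0, nat_lit 0, nat_lit 215, nat_lit 56067, nat_lit 273, nat_lit 64562084, nat_lit 0, nat_lit 0, nat_lit 781413, false, false⟩,
 nat_lit 0, nat_lit 7453, nat_lit 0, nat_lit 0, nat_lit 4140, nat_lit 0, nat_lit 51, nat_lit 0, nat_lit 0, nat_lit 0, nat_lit 0, nat_lit 0, nat_lit 0, nat_lit 0, nat_lit 79, nat_lit 971800, nat_lit 0, nat_lit 0, [(nat_lit 6, [(nat_lit 5, nat_lit 47), (nat_lit 6, nat_lit 953)])],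
 ⟨t02_k14, nat_lit 0, nat_lit 0, nat_lit 299, nat_lit 0, nat_lit 254164, [nat_lit 2261771734, nat_lit 1398584400, nat_lit 226360400], [], [nat_lit 13217027794, nat_lit 13729287028, nat_lit 13045465494, nat_lit 13316821268], nat_lit 1271250, nat_lit 1271250, nat_lit 111251, nat_lit 230001, nat_lit 0, nat_lit 0, [nat_lit 1100000, nat_lit 1442500, nat_lit 1271250], [nat_lit 9, nat_lit 40, nat_lit 20, nat_lit 80, nat_lit 2, nat_lit 215, nat_lit 10, nat_lit 8]⟩, C1.Rw.none,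
 ⟨nat_lit 5916, nat_lit 6124, ⟨.ofNat (nat_lit 159634), .ofNat (nat_lit 199824), .ofNat (nat_lit 180982), .ofNat (nat_lit 221172), .ofNat (nat_lit 167937), .ofNat (nat_lit 207203), .ofNat (nat_lit 189276), .ofNat (nat_lit 228543)⟩, ⟨.ofNat (nat_lit 0), .ofNat (nat_lit 0), .ofNat (nat_lit 0), .ofNat (nat_lit 0), .ofNat (nat_lit 0), .ofNat (nat_lit 0), .ofNat (nat_lit 0), .ofNat (nat_lit 0)⟩⟩, [⟨nat_lit 0, nat_lit 100, nat_lit 97, nat_lit 49, nat_lit 179190357⟩]⟩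
noncomputable def t02_l41 : Lf2 := ⟨nat_lit 0, nat_lit 5, [nat_lit 4, nat_lit 5, nat_lit 5, nat_lit 20], false, nat_lit 0, nat_lit 0, nat_lit 0, nat_lit 0, ⟨nat_lit 280, nat_lit 0, nat_lit 720, nat_lit 5, nat_lit 91, nat_lit 0, nat_lit 0, nat_lit 0, nat_lit 0, nat_lit 215, nat_lit 77067, nat_lit 283, nat_lit 63714646, nat_lit 0, nat_lit 0, nat_lit 978312, false, false⟩,
 nat_lit 6828, nat_lit 4702, nat_lit 0, nat_lit 0, nat_lit 6103, nat_lit 3265, nat_lit 539, nat_lit 0, nat_lit 0, nat_lit 886, nat_lit 0, nat_lit 0, nat_lit 0, nat_lit 0, nat_lit 8, nat_lit 720000, nat_lit 0, nat_lit 0, [(nat_lit 6, [(nat_lit 6, nat_lit 720)])],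
 ⟨t02_k10, nat_lit 0, nat_lit 0, nat_lit 332, nat_lit 0, nat_lit 218136, [nat_lit 2144128001, nat_lit 1983728001, nat_lit 100431999], [], [nat_lit 16068416691, nat_lit 15941220193, nat_lit 16559131671, nat_lit 15202405902], nat_lit 1271250, nat_lit 1271250, nat_lit 230001, nat_lit 356250, nat_lit 0, nat_lit 0, [nat_lit 1100000, nat_lit 1442500, nat_lit 1271250], [nat_lit 11, nat_lit 40, nat_lit 20, nat_lit 80, nat_lit 1, nat_lit 317, nat_lit 100, nat_lit 10]⟩, ⟨t02_k15, nat_lit 0, nat_lit 0, nat_lit 352, nat_lit 0, nat_lit 244439, [nat_lit 1750000000, nat_lit 2231040000, nat_lit 2755760000], [], [nat_lit 7640155460, nat_lit 5989552800, nat_lit 7785877200, nat_lit 6147173700], nat_lit 1271250, nat_lit 1271250, nat_lit 230001, nat_lit 356250, nat_lit 0, nat_lit 0, [nat_lit 1412500, nat_lit 1271250, nat_lit 1271250], [nat_lit 25, nat_lit 40, nat_lit 20, nat_lit 80, nat_lit 17, nat_lit 289,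 nat_lit 75, nat_lit 9]⟩,
 ⟨nat_lit 6123, nat_lit 6325, ⟨.ofNat (nat_lit 192309), .ofNat (nat_lit 233442), .ofNat (nat_lit 213677), .ofNat (nat_lit 254809), .ofNat (nat_lit 199824), .ofNat (nat_lit 240014), .ofNat (nat_lit 221172), .ofNat (nat_lit 261362)⟩, ⟨.ofNat (nat_lit 0), .ofNat (nat_lit 0), .ofNat (nat_lit 0), .ofNat (nat_lit 0), .ofNat (nat_lit 0), .ofNat (nat_lit 0), .ofNat (nat_lit 0), .ofNat (nat_lit 0)⟩⟩, []⟩
noncomputable def t02_l42 : Lf2 := ⟨nat_lit 0, nat_lit 5, [nat_lit 4, nat_lit 5, nat_lit 5, nat_lit 20], true, nat_lit 0, nat_lit 0, nat_lit 0, nat_lit 0, ⟨nat_lit 0, nat_lit 0, nat_lit 1000, nat_lit 5, nat_lit 94, nat_lit 0, nat_lit 0, nat_lit 0, nat_lit 0, nat_lit 215, nat_lit 81667, nat_lit 285, nat_lit 63520398, nat_lit 0, nat_lit 0, nat_lit 1020851, false, false⟩,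
 nat_lit 0, nat_lit 7849, nat_lit 0, nat_lit 0, nat_lit 4360, nat_lit 0, nat_lit 99, nat_lit 0, nat_lit 0, nat_lit 0, nat_lit 0, nat_lit 0, nat_lit 0, nat_lit 0, nat_lit 78, nat_lit 959800, nat_lit 0, nat_lit 0, [(nat_lit 6, [(nat_lit 5, nat_lit 67), (nat_lit 6, nat_lit 933)])],
 ⟨t02_k14, nat_lit 0, nat_lit 0, nat_lit 278, nat_lit 0, nat_lit 254164, [nat_lit 2254582401, nat_lit 1383088401, nat_lit 219024399], [], [nat_lit 12621285243, nat_lit 12869294801, nat_lit 13124066363, nat_lit 12639375761], nat_lit 1271250, nat_lit 1271250, nat_lit 230001, nat_lit 356250, nat_lit 0, nat_lit 0, [nat_lit 1100000, nat_lit 1442500, nat_lit 1271250], [nat_lit 9, nat_lit 40, nat_lit 20, nat_lit 80, nat_lit 2, nat_lit 226, nat_lit 20, nat_lit 8]⟩, C1.Rw.none,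
 ⟨nat_lit 5916, nat_lit 6124, ⟨.ofNat (nat_lit 199824), .ofNat (nat_lit 240014), .ofNat (nat_lit 221172), .ofNat (nat_lit 261362), .ofNat (nat_lit 207203), .ofNat (nat_lit 246470), .ofNat (nat_lit 228543), .ofNat (nat_lit 267810)⟩, ⟨.ofNat (nat_lit 0), .ofNat (nat_lit 0), .ofNat (nat_lit 0), .ofNat (nat_lit 0), .ofNat (nat_lit 0), .ofNat (nat_lit 0), .ofNat (nat_lit 0), .ofNat (nat_lit 0)⟩⟩, []⟩
noncomputable def t02_l43 : Lf2 := ⟨nat_lit 0, nat_lit 5, [nat_lit 4, nat_lit 5, nat_lit 5, nat_lit 20], false, nat_lit 0, nat_lit 0, nat_lit 0, nat_lit 0, ⟨nat_lit 800, nat_lit 0, nat_lit 200, nat_lit 5, nat_lit 107, nat_lit 0, nat_lit 0, nat_lit 0, nat_lit 0, nat_lit 215, nat_lit 106667, nat_lit 295, nat_lit 62518462, nat_lit 0, nat_lit 0, nat_lit 1227571, false, false⟩,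
 nat_lit 25510, nat_lit 0, nat_lit 0, nat_lit 0, nat_lit 13505, nat_lit 12200, nat_lit 2404, nat_lit 0, nat_lit 0, nat_lit 2421, nat_lit 0, nat_lit 0, nat_lit 0, nat_lit 0, nat_lit 0, nat_lit 200000, nat_lit 0, nat_lit 0, [(nat_lit 6, [(nat_lit 6, nat_lit 200)])],
 ⟨t02_k10, nat_lit 0, nat_lit 0, nat_lit 444, nat_lit 0, nat_lit 428182, [nat_lit 3945813334, nat_lit 5020480001, nat_lit 7051840000], [], [nat_lit 19925012843, nat_lit 18445469400, nat_lit 21165838163, nat_lit 17940249943], nat_lit 1271250, nat_lit 1271250, nat_lit 356250, nat_lit 490000, nat_lit 0, nat_lit 0, [nat_lit 1100000, nat_lit 1442500, nat_lit 1271250], [nat_lit 11, nat_lit 40, nat_lit 20, nat_lit 80, nat_lit 1, nat_lit 317, nat_lit 100, nat_lit 9]⟩, ⟨t02_k15, nat_lit 0, nat_lit 0, nat_lit 470, nat_lit 0, nat_lit 479812, [nat_lit 5000000000, nat_lit 6374400000, nat_lit 7873600000], [], [nat_lit 19171372800, nat_lit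 16427830150, nat_lit 20024201200, nat_lit 14936998950], nat_lit 1271250, nat_lit 1271250, nat_lit 356250, nat_lit 490000, nat_lit 0, nat_lit 0, [nat_lit 1412500, nat_lit 1271250, nat_lit 1271250], [nat_lit 25, nat_lit 40, nat_lit 20, nat_lit 80, nat_lit 17, nat_lit 317, nat_lit 100, nat_lit 10]⟩,
 ⟨nat_lit 6123, nat_lit 6325, ⟨.ofNat (nat_lit 233442), .ofNat (nat_lit 274574), .ofNat (nat_lit 254809), .ofNat (nat_lit 295942), .ofNat (nat_lit 240014), .ofNat (nat_lit 280205), .ofNat (nat_lit 261362), .ofNat (nat_lit 301553)⟩, ⟨.ofNat (nat_lit 0), .ofNat (nat_lit 0), .ofNat (nat_lit 0), .ofNat (nat_lit 0), .ofNat (nat_lit 0), .ofNat (nat_lit 0), .ofNat (nat_lit 0), .ofNat (nat_lit 0)⟩⟩, []⟩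
noncomputable def t02_l44 : Lf2 := ⟨nat_lit 0, nat_lit 5, [nat_lit 4, nat_lit 5, nat_lit 5, nat_lit 20], false, nat_lit 0, nat_lit 0, nat_lit 0, nat_lit 0, ⟨nat_lit 504, nat_lit 0, nat_lit 496, nat_lit 5, nat_lit 110, nat_lit 0, nat_lit 0, nat_lit 0, nat_lit 0, nat_lit 215, nat_lit 112067, nat_lit 297, nat_lit 62328214, nat_lit 0, nat_lit 0, nat_lit 1264670, false, false⟩,
 nat_lit 17275, nat_lit 0, nat_lit 0, nat_lit 0, nat_lit 9597, nat_lit 8261, nat_lit 858, nat_lit 0, nat_lit 0, nat_lit 2072, nat_lit 0, nat_lit 0, nat_lit 0, nat_lit 0, nat_lit 0, nat_lit 496000, nat_lit 0, nat_lit 0, [(nat_lit 6, [(nat_lit 6, nat_lit 496)])],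
 ⟨t02_k14, nat_lit 0, nat_lit 0, nat_lit 372, nat_lit 0, nat_lit 453087, [nat_lit 2847377067, nat_lit 3054768000, nat_lit 3148651200], [], [nat_lit 17932112797, nat_lit 16993733052, nat_lit 18984583037, nat_lit 16692397169], nat_lit 1271250, nat_lit 1271250, nat_lit 356250, nat_lit 490000, nat_lit 0, nat_lit 0, [nat_lit 1100000, nat_lit 1442500, nat_lit 1271250], [nat_lit 9, nat_lit 40, nat_lit 20, nat_lit 80, nat_lit 2, nat_lit 226, nat_lit 20, nat_lit 8]⟩, ⟨t02_k15, nat_lit 0, nat_lit 0, nat_lit 495, nat_lit 0, nat_lit 535681, [nat_lit 3150000000, nat_lit 4015872000, nat_lit 4960368000], [], [nat_lit 11462402064, nat_lit 9146365588, nat_lit 12019706606, nat_lit 8115776076], nat_lit 1271250, nat_lit 1271250, nat_lit 356250, nat_lit 490000, nat_lit 0, nat_lit 0, [nat_lit 1412500, nat_lit 1271250, nat_lit 1271250], [nat_lit 25, nat_lit 40, nat_lit 20, nat_lit 80, nat_lit 17, nat_lit 317,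 nat_lit 100, nat_lit 10]⟩,
 ⟨nat_lit 5916, nat_lit 6124, ⟨.ofNat (nat_lit 240014), .ofNat (nat_lit 280205), .ofNat (nat_lit 261362), .ofNat (nat_lit 301553), .ofNat (nat_lit 246470), .ofNat (nat_lit 285737), .ofNat (nat_lit 267810), .ofNat (nat_lit 307076)⟩, ⟨.ofNat (nat_lit 0), .ofNat (nat_lit 0), .ofNat (nat_lit 0), .ofNat (nat_lit 0), .ofNat (nat_lit 0), .ofNat (nat_lit 0), .ofNat (nat_lit 0), .ofNat (nat_lit 0)⟩⟩, []⟩
noncomputable def t02_l45 : Lf2 := ⟨nat_lit 0, nat_lit 5, [nat_lit 4, nat_lit 5, nat_lit 5, nat_lit 20], false, nat_lit 0, nat_lit 0, nat_lit 0, nat_lit 0, ⟨nat_lit 679, nat_lit 0, nat_lit 321, nat_lit 5, nat_lit 132, nat_lit 0, nat_lit 0, nat_lit 0, nat_lit 0, nat_lit 215, nat_lit 163350, nat_lit 314, nat_lit 60383098, nat_lit 0, nat_lit 0, nat_lit 1611743, false, false⟩,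
 nat_lit 26739, nat_lit 0, nat_lit 0, nat_lit 0, nat_lit 14155, nat_lit 12788, nat_lit 1665, nat_lit 0, nat_lit 0, nat_lit 2688, nat_lit 0, nat_lit 0, nat_lit 0, nat_lit 0, nat_lit 0, nat_lit 321000, nat_lit 0, nat_lit 0, [(nat_lit 6, [(nat_lit 6, nat_lit 321)])],
 ⟨t02_k10, nat_lit 0, nat_lit 0, nat_lit 437, nat_lit 0, nat_lit 438856, [nat_lit 3496790400, nat_lit 4276620401, nat_lit 5363793200], [], [nat_lit 22348540440, nat_lit 18974240730, nat_lit 14684409962, nat_lit 17096875280], nat_lit 1271250, nat_lit 1271250, nat_lit 490000, nat_lit 780000, nat_lit 0, nat_lit 0, [nat_lit 1100000, nat_lit 1442500, nat_lit 1271250], [nat_lit 11, nat_lit 40, nat_lit 20, nat_lit 80, nat_lit 1, nat_lit 317, nat_lit 100, nat_lit 9]⟩, ⟨t02_k15, nat_lit 0, nat_lit 0, nat_lit 460, nat_lit 0, nat_lit 489050, [nat_lit 4243750000, nat_lit 5410272000, nat_lit 6682718000], [], [nat_lit 14475370212, nat_lit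 11285638124, nat_lit 17443261908, nat_lit 11161514972], nat_lit 1271250, nat_lit 1271250, nat_lit 490000, nat_lit 780000, nat_lit 0, nat_lit 0, [nat_lit 1412500, nat_lit 1271250, nat_lit 1271250], [nat_lit 25, nat_lit 40, nat_lit 20, nat_lit 80, nat_lit 17, nat_lit 317, nat_lit 100, nat_lit 9]⟩,
 ⟨nat_lit 5916, nat_lit 6325, ⟨.ofNat (nat_lit 274574), .ofNat (nat_lit 356838), .ofNat (nat_lit 295942), .ofNat (nat_lit 378206), .ofNat (nat_lit 285737), .ofNat (nat_lit 364271), .ofNat (nat_lit 307076), .ofNat (nat_lit 385610)⟩, ⟨.ofNat (nat_lit 0), .ofNat (nat_lit 0), .ofNat (nat_lit 0), .ofNat (nat_lit 0), .ofNat (nat_lit 0), .ofNat (nat_lit 0), .ofNat (nat_lit 0), .ofNat (nat_lit 0)⟩⟩, []⟩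
noncomputable def t02_l46 : Lf2 := ⟨nat_lit 0, nat_lit 5, [nat_lit 4, nat_lit 5, nat_lit 5, nat_lit 20], false, nat_lit 0, nat_lit 0, nat_lit 0, nat_lit 0, ⟨nat_lit 480, nat_lit 0, nat_lit 520, nat_lit 5, nat_lit 132, nat_lit 0, nat_lit 0, nat_lit 0, nat_lit 0, nat_lit 215, nat_lit 163350, nat_lit 314, nat_lit 60383098, nat_lit 0, nat_lit 0, nat_lit 1611743, false, false⟩,
 nat_lit 15474, nat_lit 0, nat_lit 0, nat_lit 0, nat_lit 8192, nat_lit 7400, nat_lit 1077, nat_lit 0, nat_lit 0, nat_lit 1073, nat_lit 0, nat_lit 0, nat_lit 0, nat_lit 0, nat_lit 0, nat_lit 520000, nat_lit 0, nat_lit 0, [(nat_lit 6, [(nat_lit 6, nat_lit 520)])],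
 ⟨t02_k10, nat_lit 0, nat_lit 0, nat_lit 326, nat_lit 0, nat_lit 268161, [nat_lit 2758314667, nat_lit 3053248000, nat_lit 2601312000], [], [nat_lit 17253226955, nat_lit 16810047874, nat_lit 19752029131, nat_lit 16136076162], nat_lit 1271250, nat_lit 1271250, nat_lit 490000, nat_lit 780000, nat_lit 0, nat_lit 0, [nat_lit 1100000, nat_lit 1442500, nat_lit 1271250], [nat_lit 11, nat_lit 40, nat_lit 20, nat_lit 80, nat_lit 1, nat_lit 317, nat_lit 100, nat_lit 9]⟩, ⟨t02_k15, nat_lit 0, nat_lit 0, nat_lit 345, nat_lit 0, nat_lit 300496, [nat_lit 3000000000, nat_lit 3824640000, nat_lit 4724160000], [], [nat_lit 11931662960, nat_lit 9891975580, nat_lit 13750103760, nat_lit 10115060960], nat_lit 1271250, nat_lit 1271250, nat_lit 490000, nat_lit 780000, nat_lit 0, nat_lit 0, [nat_lit 1412500, nat_lit 1271250, nat_lit 1271250], [nat_lit 25, nat_lit 40, nat_lit 20, nat_lit 80, nat_lit 17, nat_lit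 317, nat_lit 100, nat_lit 9]⟩,
 ⟨nat_lit 5916, nat_lit 6325, ⟨.ofNat (nat_lit 274574), .ofNat (nat_lit 356838), .ofNat (nat_lit 295942), .ofNat (nat_lit 378206), .ofNat (nat_lit 285737), .ofNat (nat_lit 364271), .ofNat (nat_lit 307076), .ofNat (nat_lit 385610)⟩, ⟨.ofNat (nat_lit 0), .ofNat (nat_lit 0), .ofNat (nat_lit 0), .ofNat (nat_lit 0), .ofNat (nat_lit 0), .ofNat (nat_lit 0), .ofNat (nat_lit 0), .ofNat (nat_lit 0)⟩⟩, []⟩
noncomputable def t02_l47 : Lf2 := ⟨nat_lit 0, nat_lit 5, [nat_lit 4, nat_lit 5, nat_lit 5, nat_lit 20], false, nat_lit 0, nat_lit 0, nat_lit 0, nat_lit 0, ⟨nat_lit 1000, nat_lit 0, nat_lit 0, nat_lit 0, nat_lit 0, nat_lit 0, nat_lit 0, nat_lit 0, nat_lit 0, nat_lit 0, nat_lit 0, nat_lit 0, nat_lit 0, nat_lit 0, nat_lit 0, nat_lit 0, false, false⟩,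
 nat_lit 30038, nat_lit 0, nat_lit 0, nat_lit 0, nat_lit 15902, nat_lit 14365, nat_lit 2853, nat_lit 0, nat_lit 0, nat_lit 510, nat_lit 0, nat_lit 0, nat_lit 0, nat_lit 0, nat_lit 0, nat_lit 0, nat_lit 0, nat_lit 0, [],
 ⟨t02_k10, nat_lit 0, nat_lit 0, nat_lit 434, nat_lit 0, nat_lit 478039, [nat_lit 4688000000, nat_lit 6250000000, nat_lit 9842000000], [], [nat_lit 17404516784, nat_lit 17803244222, nat_lit 23416319904, nat_lit 18465170188], nat_lit 1271250, nat_lit 1271250, nat_lit 780000, nat_lit 1100001, nat_lit 0, nat_lit 0, [nat_lit 1100000, nat_lit 1442500, nat_lit 1271250], [nat_lit 11, nat_lit 40, nat_lit 20, nat_lit 80, nat_lit 1, nat_lit 345, nat_lit 125, nat_lit 10]⟩, ⟨t02_k15, nat_lit 0, nat_lit 0, nat_lit 460, nat_lit 0, nat_lit 535681, [nat_lit 6250000000, nat_lit 7968000000, nat_lit 9842000000], [], [nat_lit 29555983050, nat_lit 27794687800, nat_lit 35209037810, nat_lit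 28251235140], nat_lit 1271250, nat_lit 1271250, nat_lit 780000, nat_lit 1100001, nat_lit 0, nat_lit 0, [nat_lit 1412500, nat_lit 1271250, nat_lit 1271250], [nat_lit 25, nat_lit 40, nat_lit 20, nat_lit 80, nat_lit 17, nat_lit 317, nat_lit 100, nat_lit 9]⟩,
 zbF0, []⟩
noncomputable def t02_l48 : Lf2 := ⟨nat_lit 0, nat_lit 5, [nat_lit 4, nat_lit 5, nat_lit 5, nat_lit 20], false, nat_lit 0, nat_lit 0, nat_lit 0, nat_lit 0, ⟨nat_lit 1000, nat_lit 0, nat_lit 0, nat_lit 0, nat_lit 0, nat_lit 0, nat_lit 0, nat_lit 0, nat_lit 0, nat_lit 0, nat_lit 0, nat_lit 0, nat_lit 0, nat_lit 0, nat_lit 0, nat_lit 0, false, false⟩,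
 nat_lit 16738, nat_lit 0, nat_lit 0, nat_lit 0, nat_lit 7291, nat_lit 8004, nat_lit 1202, nat_lit 0, nat_lit 0, nat_lit 1921, nat_lit 0, nat_lit 0, nat_lit 0, nat_lit 0, nat_lit 0, nat_lit 0, nat_lit 0, nat_lit 0, [],
 ⟨t02_k10, nat_lit 0, nat_lit 0, nat_lit 421, nat_lit 0, nat_lit 478039, [nat_lit 4688000000, nat_lit 6250000000, nat_lit 9842000000], [], [nat_lit 34338271924, nat_lit 32364004434, nat_lit 35505452112, nat_lit 33260600958], nat_lit 1271250, nat_lit 1271250, nat_lit 1100001, nat_lit 1785000, nat_lit 0, nat_lit 0, [nat_lit 1100000, nat_lit 1442500, nat_lit 1271250], [nat_lit 11, nat_lit 40, nat_lit 20, nat_lit 80, nat_lit 1, nat_lit 345, nat_lit 125, nat_lit 10]⟩, ⟨t02_k15, nat_lit 0, nat_lit 0, nat_lit 446, nat_lit 0, nat_lit 535681, [nat_lit 6250000000, nat_lit 7968000000, nat_lit 9842000000], [], [nat_lit 32064482344, nat_lit 30905126942, nat_lit 31612693886, nat_lit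 31968683118], nat_lit 1271250, nat_lit 1271250, nat_lit 1100001, nat_lit 1785000, nat_lit 0, nat_lit 0, [nat_lit 1412500, nat_lit 1271250, nat_lit 1271250], [nat_lit 25, nat_lit 40, nat_lit 20, nat_lit 80, nat_lit 17, nat_lit 345, nat_lit 125, nat_lit 10]⟩,
 zbF0, []⟩
noncomputable def t02_l49 : Lf2 := ⟨nat_lit 0, nat_lit 5, [nat_lit 4, nat_lit 5, nat_lit 5, nat_lit 20], false, nat_lit 0, nat_lit 0, nat_lit 0, nat_lit 0, ⟨nat_lit 1000, nat_lit 0, nat_lit 0, nat_lit 0, nat_lit 0, nat_lit 0, nat_lit 0, nat_lit 0, nat_lit 0, nat_lit 0, nat_lit 0, nat_lit 0, nat_lit 0, nat_lit 0, nat_lit 0, nat_lit 0, false, false⟩,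
 nat_lit 16991, nat_lit 0, nat_lit 0, nat_lit 0, nat_lit 8995, nat_lit 8126, nat_lit 840, nat_lit 0, nat_lit 0, nat_lit 2530, nat_lit 0, nat_lit 0, nat_lit 0, nat_lit 0, nat_lit 0, nat_lit 0, nat_lit 0, nat_lit 0, [],
 ⟨t02_k27, nat_lit 0, nat_lit 0, nat_lit 429, nat_lit 0, nat_lit 478039, [nat_lit 4688000000, nat_lit 7968000001, nat_lit 9842000000], [], [nat_lit 32993656621, nat_lit 33540223231, nat_lit 41336913040, nat_lit 42446142980], nat_lit 1271250, nat_lit 1271250, nat_lit 1271250, nat_lit 1271250, nat_lit 0, nat_lit 0, [nat_lit 1100000, nat_lit 1785000, nat_lit 1271250], [nat_lit 29, nat_lit 40, nat_lit 20, nat_lit 80, nat_lit 17, nat_lit 401, nat_lit 175, nat_lit 11]⟩, ⟨t02_k9, nat_lit 0, nat_lit 0, nat_lit 451, nat_lit 0, nat_lit 535681, [nat_lit 6250000000, nat_lit 9842000000], [], [nat_lit 32233943740, nat_lit 32409642280, nat_lit 38472496552, nat_lit 39161117792], nat_lit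 1271250, nat_lit 1271250, nat_lit 1271250, nat_lit 1271250, nat_lit 0, nat_lit 0, [nat_lit 1412500, nat_lit 1271250], [nat_lit 51, nat_lit 40, nat_lit 20, nat_lit 80, nat_lit 1, nat_lit 401, nat_lit 175, nat_lit 11]⟩,
 zbF0, []⟩
noncomputable def t02_l50 : Lf2 := ⟨nat_lit 1, nat_lit 5, [nat_lit 4, nat_lit 5, nat_lit 5, nat_lit 20], false, nat_lit 0, nat_lit 0, nat_lit 0, nat_lit 0, zbN0,
 nat_lit 0, nat_lit 0, nat_lit 0, nat_lit 0, nat_lit 0, nat_lit 0, nat_lit 0, nat_lit 0, nat_lit 0, nat_lit 0, nat_lit 0, nat_lit 0, nat_lit 0, nat_lit 0, nat_lit 0, nat_lit 0, nat_lit 0, nat_lit 0, [],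
 C1.Rw.none, C1.Rw.none,
 zbF0, []⟩
theorem r_NL_600_550_0 (h : EB TB.env) : Dead (RC.box ⟨false, 20, 240, 260, 220, 240, 0, 0, [56]⟩ 0 56) := chkB_sound h (refs := [b_NL_600_550_0_0, b_NL_600_550_0_1, b_NL_600_550_0_2, b_NL_600_550_0_3, b_NL_600_550_0_4, b_NL_600_550_0_5, b_NL_600_550_0_6, b_NL_600_550_0_7, b_NL_600_550_0_8, b_NL_600_550_0_9, b_NL_600_550_0_10, b_NL_600_550_0_11, b_NL_600_550_0_12, b_NL_600_550_0_13, b_NL_600_550_0_14, b_NL_600_550_0_15, b_NL_600_550_0_16, b_NL_600_550_0_17, b_NL_600_550_0_18, b_NL_600_550_0_19, b_NL_600_550_0_20, b_NL_600_550_0_21, b_NL_600_550_0_22, b_NL_600_550_0_23, b_NL_600_550_0_24, b_NL_600_550_0_25, b_NL_600_550_0_26, b_NL_600_550_0_27, b_NL_600_550_0_28, b_NL_600_550_0_29, b_NL_600_550_0_30, b_NL_600_550_0_31]) (refs_cons (d_NL_600_550_0_0 h) (refs_cons (d_NL_600_550_0_1 h) (refs_cons (d_NL_600_550_0_2 h) (refs_cons (d_NL_600_550_0_3 h) (refs_cons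 (d_NL_600_550_0_4 h) (refs_cons (d_NL_600_550_0_5 h) (refs_cons (d_NL_600_550_0_6 h) (refs_cons (d_NL_600_550_0_7 h) (refs_cons (d_NL_600_550_0_8 h) (refs_cons (d_NL_600_550_0_9 h) (refs_cons (d_NL_600_550_0_10 h) (refs_cons (d_NL_600_550_0_11 h) (refs_cons (d_NL_600_550_0_12 h) (refs_cons (d_NL_600_550_0_13 h) (refs_cons (d_NL_600_550_0_14 h) (refs_cons (d_NL_600_550_0_15 h) (refs_cons (d_NL_600_550_0_16 h) (refs_cons (d_NL_600_550_0_17 h) (refs_cons (d_NL_600_550_0_18 h) (refs_cons (d_NL_600_550_0_19 h) (refs_cons (d_NL_600_550_0_20 h) (refs_cons (d_NL_600_550_0_21 h) (refs_cons (d_NL_600_550_0_22 h) (refs_cons (d_NL_600_550_0_23 h) (refs_cons (d_NL_600_550_0_24 h) (refs_cons (d_NL_600_550_0_25 h) (refs_cons (d_NL_600_550_0_26 h) (refs_cons (d_NL_600_550_0_27 h) (refs_cons (d_NL_600_550_0_28 h) (refs_cons (d_NL_600_550_0_29 h) (refs_cons (d_NL_600_550_0_30 h) (refs_cons (d_NL_600_550_0_31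 h) (refs_nil))))))))))))))))))))))))))))))))) (T :=
(.trZ (nat_lit 0) (nat_lit 100) (nat_lit 98) (nat_lit 30) (nat_lit 8) (.spl (nat_lit 6) (nat_lit 48)
(.spl (nat_lit 6) (nat_lit 40)
(.st (nat_lit 0)
(.ref (nat_lit 0))
(.gv
(.st (nat_lit 1)
(.spl (nat_lit 2) (nat_lit 240)
(.spl (nat_lit 2) (nat_lit 160)
(.spl (nat_lit 2) (nat_lit 120)
(.spl (nat_lit 2) (nat_lit 80)
(.spl (nat_lit 2) (nat_lit 40)
(.spl (nat_lit 6) (nat_lit 20)
(.spl (nat_lit 8) (nat_lit 800)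
(.spl (nat_lit 8) (nat_lit 400)
(.spl (nat_lit 8) (nat_lit 200)
(.ref (nat_lit 1))
(.spl (nat_lit 0) (nat_lit 250)
(.spl (nat_lit 6) (nat_lit 8)
(.spl (nat_lit 1) (nat_lit 230)
(.ref (nat_lit 2))
(.trZ (nat_lit 0) (nat_lit 100) (nat_lit 99) (nat_lit 35) (nat_lit 12) (.spl (nat_lit 7) (nat_lit 600)
(.leaf t02_l0)
(.spl (nat_lit 8) (nat_lit 300)
(.spl (nat_lit 6) (nat_lit 4)
(.ref (nat_lit 3))
(.spl (nat_lit 0) (nat_lit 245)
(.spl (nat_lit 1) (nat_lit 235)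
(.spl (nat_lit 0) (nat_lit 243)
(.spl (nat_lit 0) (nat_lit 242)
(.leaf t02_l1)
(.leaf t02_l2))
(.leaf t02_l3))
(.spl (nat_lit 8) (nat_lit 260)
(.spl (nat_lit 0) (nat_lit 243)
(.spl (nat_lit 1) (nat_lit 238)
(.ref (nat_lit 4))
(.ref (nat_lit 5)))
(.spl (nat_lit 1) (nat_lit 238)
(.leaf t02_l4)
(.trZ (nat_lit 0) (nat_lit 100) (nat_lit 99) (nat_lit 40) (nat_lit 16) (.spl (nat_lit 0) (nat_lit 244)
(.leaf t02_l5)
(.leaf t02_l6)))))
(.leaf t02_l7)))
(.ref (nat_lit 6))))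
(.leaf t02_l8)))))
(.ref (nat_lit 7)))
(.ref (nat_lit 8))))
(.leaf t02_l9))
(.leaf t02_l10))
(.spl (nat_lit 2) (nat_lit 20)
(.spl (nat_lit 6) (nat_lit 32)
(.spl (nat_lit 0) (nat_lit 250)
(.spl (nat_lit 1) (nat_lit 230)
(.leaf t02_l11)
(.trZ (nat_lit 0) (nat_lit 100) (nat_lit 99) (nat_lit 35) (nat_lit 12) (.spl (nat_lit 0) (nat_lit 245)
(.spl (nat_lit 1) (nat_lit 235)
(.ref (nat_lit 9))
(.spl (nat_lit 6) (nat_lit 24)
(.spl (nat_lit 8) (nat_lit 800)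
(.spl (nat_lit 8) (nat_lit 400)
(.leaf t02_l12)
(.leaf t02_l13))
(.leaf t02_l14))
(.ref (nat_lit 10))))
(.ref (nat_lit 11)))))
(.trZ (nat_lit 0) (nat_lit 100) (nat_lit 97) (nat_lit 35) (nat_lit 12) (.leaf t02_l15)))
(.leaf t02_l16))
(.ref (nat_lit 12))))
(.ref (nat_lit 13)))
(.spl (nat_lit 2) (nat_lit 100)
(.leaf t02_l17)
(.leaf t02_l18)))
(.spl (nat_lit 0) (nat_lit 250)
(.spl (nat_lit 0) (nat_lit 245)
(.leaf t02_l19)
(.leaf t02_l20))
(.leaf t02_l21)))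
(.leaf t02_l22))
(.spl (nat_lit 0) (nat_lit 250)
(.spl (nat_lit 0) (nat_lit 245)
(.leaf t02_l23)
(.leaf t02_l24))
(.leaf t02_l25)))
(.spl (nat_lit 2) (nat_lit 240)
(.spl (nat_lit 2) (nat_lit 120)
(.spl (nat_lit 2) (nat_lit 80)
(.spl (nat_lit 2) (nat_lit 40)
(.spl (nat_lit 6) (nat_lit 20)
(.spl (nat_lit 8) (nat_lit 800)
(.spl (nat_lit 0) (nat_lit 250)
(.spl (nat_lit 6) (nat_lit 8)
(.spl (nat_lit 1) (nat_lit 230)
(.ref (nat_lit 14))
(.trZ (nat_lit 0) (nat_lit 100) (nat_lit 99) (nat_lit 35) (nat_lit 12) (.spl (nat_lit 0) (nat_lit 245)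
(.spl (nat_lit 6) (nat_lit 4)
(.spl (nat_lit 2) (nat_lit 20)
(.ref (nat_lit 15))
(.spl (nat_lit 2) (nat_lit 32)
(.spl (nat_lit 0) (nat_lit 243)
(.spl (nat_lit 1) (nat_lit 235)
(.ref (nat_lit 16))
(.ref (nat_lit 17)))
(.ref (nat_lit 18)))
(.spl (nat_lit 1) (nat_lit 235)
(.leaf t02_l26)
(.leaf t02_l27))))
(.ref (nat_lit 19)))
(.ref (nat_lit 20)))))
(.spl (nat_lit 6) (nat_lit 16)
(.ref (nat_lit 21))
(.ref (nat_lit 22))))
(.ref (nat_lit 23)))
(.leaf t02_l28))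
(.spl (nat_lit 2) (nat_lit 20)
(.spl (nat_lit 6) (nat_lit 32)
(.spl (nat_lit 0) (nat_lit 250)
(.spl (nat_lit 1) (nat_lit 230)
(.leaf t02_l29)
(.trZ (nat_lit 0) (nat_lit 100) (nat_lit 99) (nat_lit 35) (nat_lit 12) (.spl (nat_lit 0) (nat_lit 245)
(.spl (nat_lit 1) (nat_lit 235)
(.ref (nat_lit 24))
(.spl (nat_lit 8) (nat_lit 800)
(.spl (nat_lit 7) (nat_lit 600)
(.spl (nat_lit 6) (nat_lit 24)
(.spl (nat_lit 0) (nat_lit 243)
(.spl (nat_lit 0) (nat_lit 242)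
(.ref (nat_lit 25))
(.spl (nat_lit 1) (nat_lit 238)
(.leaf t02_l30)
(.trZ (nat_lit 0) (nat_lit 100) (nat_lit 100) (nat_lit 40) (nat_lit 16) (.leaf t02_l31))))
(.leaf t02_l32))
(.spl (nat_lit 2) (nat_lit 16)
(.leaf t02_l33)
(.leaf t02_l34)))
(.leaf t02_l35))
(.leaf t02_l36)))
(.ref (nat_lit 26)))))
(.trZ (nat_lit 0) (nat_lit 100) (nat_lit 97) (nat_lit 35) (nat_lit 12) (.leaf t02_l37)))
(.leaf t02_l38))
(.spl (nat_lit 0) (nat_lit 250)
(.spl (nat_lit 6) (nat_lit 32)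
(.ref (nat_lit 27))
(.leaf t02_l39))
(.leaf t02_l40))))
(.spl (nat_lit 2) (nat_lit 60)
(.spl (nat_lit 6) (nat_lit 20)
(.spl (nat_lit 1) (nat_lit 230)
(.ref (nat_lit 28))
(.ref (nat_lit 29)))
(.spl (nat_lit 0) (nat_lit 250)
(.leaf t02_l41)
(.leaf t02_l42)))
(.spl (nat_lit 0) (nat_lit 250)
(.leaf t02_l43)
(.leaf t02_l44))))
(.spl (nat_lit 6) (nat_lit 20)
(.leaf t02_l45)
(.leaf t02_l46)))
(.spl (nat_lit 2) (nat_lit 160)
(.leaf t02_l47)
(.leaf t02_l48)))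
(.leaf t02_l49)))
(.ref (nat_lit 30))))
(.ref (nat_lit 31)))
(.leaf t02_l50)))) (by decide +kernel)
theorem done_NL_600_550_0 (h : EB TB.env) : RC.Done ⟨false, 20, 240, 260, 220, 240, 0, 0, [56]⟩ := RC.done1 (r_NL_600_550_0 h) (t_NL_600_550_0 h)
theorem t_NL_600_600_0 (h : EB TB.env) : RC.Tail ⟨false, 20, 240, 260, 240, 260, 0, 0, [64]⟩ := RC.tail_chk h (b := ⟨nat_lit 20, nat_lit 32, nat_lit 5, nat_lit 5, nat_lit 20, nat_lit 203, nat_lit 0, nat_lit 30, nat_lit 0⟩) (by decide +kernel)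
noncomputable def t02_l51 : Lf2 := ⟨nat_lit 0, nat_lit 5, [nat_lit 4, nat_lit 5, nat_lit 5, nat_lit 20], false, nat_lit 0, nat_lit 0, nat_lit 0, nat_lit 0, ⟨nat_lit 1000, nat_lit 0, nat_lit 0, nat_lit 0, nat_lit 0, nat_lit 0, nat_lit 0, nat_lit 0, nat_lit 0, nat_lit 0, nat_lit 0, nat_lit 0, nat_lit 0, nat_lit 0, nat_lit 0, nat_lit 0, false, false⟩,
 nat_lit 0, nat_lit 16577, nat_lit 0, nat_lit 0, nat_lit 8775, nat_lit 3908, nat_lit 373, nat_lit 0, nat_lit 0, nat_lit 2681, nat_lit 0, nat_lit 0, nat_lit 0, nat_lit 19793633972966, nat_lit 0, nat_lit 0, nat_lit 0, nat_lit 0, [],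
 ⟨t02_k10, nat_lit 0, nat_lit 0, nat_lit 467, nat_lit 0, nat_lit 434038, [nat_lit 4688000000, nat_lit 6250000000, nat_lit 9842000000], [], [nat_lit 32400041200, nat_lit 31116584691, nat_lit 30578702200, nat_lit 30601026650], nat_lit 1271250, nat_lit 1271250, nat_lit 181601, nat_lit 230001, nat_lit 0, nat_lit 0, [nat_lit 1100000, nat_lit 1442500, nat_lit 1271250], [nat_lit 11, nat_lit 40, nat_lit 20, nat_lit 80, nat_lit 1, nat_lit 289, nat_lit 75, nat_lit 9]⟩, ⟨t02_k28, nat_lit 0, nat_lit 0, nat_lit 0, nat_lit 0, nat_lit 0, [nat_lit 2032000000, nat_lit 4688000000, nat_lit 6250000000, nat_lit 8885500000], [], [nat_lit 17306033309, nat_lit 17999557400, nat_lit 17033233616, nat_lit 17796700952], nat_lit 0, nat_lit 0, nat_lit 0, nat_lit 0, nat_lit 0, nat_lit 0, [], [nat_lit 128, nat_lit 40, nat_lit 20, nat_lit 40]⟩,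
 zbF0, []⟩
noncomputable def t02_l52 : Lf2 := ⟨nat_lit 0, nat_lit 5, [nat_lit 4, nat_lit 5, nat_lit 5, nat_lit 20], false, nat_lit 0, nat_lit 0, nat_lit 0, nat_lit 0, ⟨nat_lit 1000, nat_lit 0, nat_lit 0, nat_lit 0, nat_lit 0, nat_lit 0, nat_lit 0, nat_lit 0, nat_lit 0, nat_lit 0, nat_lit 0, nat_lit 0, nat_lit 0, nat_lit 0, nat_lit 0, nat_lit 0, false, false⟩,
 nat_lit 0, nat_lit 19216, nat_lit 0, nat_lit 0, nat_lit 10173, nat_lit 8144, nat_lit 591, nat_lit 0, nat_lit 0, nat_lit 3566, nat_lit 0, nat_lit 0, nat_lit 0, nat_lit 30423287078955, nat_lit 0, nat_lit 0, nat_lit 0, nat_lit 0, [],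
 ⟨t02_k10, nat_lit 0, nat_lit 0, nat_lit 460, nat_lit 0, nat_lit 434038, [nat_lit 4688000000, nat_lit 6250000000, nat_lit 9842000000], [], [nat_lit 29774583784, nat_lit 27704695038, nat_lit 29503857936, nat_lit 27074097924], nat_lit 1271250, nat_lit 1271250, nat_lit 230001, nat_lit 490000, nat_lit 0, nat_lit 0, [nat_lit 1100000, nat_lit 1442500, nat_lit 1271250], [nat_lit 11, nat_lit 40, nat_lit 20, nat_lit 80, nat_lit 1, nat_lit 317, nat_lit 100, nat_lit 10]⟩, ⟨t02_k10, nat_lit 0, nat_lit 0, nat_lit 0, nat_lit 0, nat_lit 0, [nat_lit 4688000000, nat_lit 6250000000, nat_lit 9842000000], [], [nat_lit 16252018380, nat_lit 17224354072, nat_lit 14900225344, nat_lit 15897553440], nat_lit 0, nat_lit 0, nat_lit 0, nat_lit 0, nat_lit 0, nat_lit 0, [], [nat_lit 11, nat_lit 40, nat_lit 20, nat_lit 80]⟩,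
 zbF0, []⟩
noncomputable def t02_l53 : Lf2 := ⟨nat_lit 0, nat_lit 5, [nat_lit 4, nat_lit 5, nat_lit 5, nat_lit 20], false, nat_lit 0, nat_lit 0, nat_lit 0, nat_lit 0, ⟨nat_lit 1000, nat_lit 0, nat_lit 0, nat_lit 0, nat_lit 0, nat_lit 0, nat_lit 0, nat_lit 0, nat_lit 0, nat_lit 0, nat_lit 0, nat_lit 0, nat_lit 0, nat_lit 0, nat_lit 0, nat_lit 0, false, false⟩,
 nat_lit 0, nat_lit 16808, nat_lit 0, nat_lit 0, nat_lit 8898, nat_lit 3627, nat_lit 2697, nat_lit 0, nat_lit 0, nat_lit 335, nat_lit 0, nat_lit 0, nat_lit 0, nat_lit 8467460561565, nat_lit 0, nat_lit 0, nat_lit 0, nat_lit 0, [],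
 ⟨t02_k10, nat_lit 0, nat_lit 0, nat_lit 353, nat_lit 0, nat_lit 216826, [nat_lit 4688000000, nat_lit 6250000000, nat_lit 9842000000], [], [nat_lit 23046026119, nat_lit 22947190326, nat_lit 24483926472, nat_lit 23375489265], nat_lit 1271250, nat_lit 1271250, nat_lit 88400, nat_lit 490000, nat_lit 0, nat_lit 0, [nat_lit 1100000, nat_lit 1442500, nat_lit 1271250], [nat_lit 11, nat_lit 40, nat_lit 20, nat_lit 80, nat_lit 1, nat_lit 317, nat_lit 100, nat_lit 10]⟩, ⟨t02_k28, nat_lit 0, nat_lit 0, nat_lit 0, nat_lit 0, nat_lit 0, [nat_lit 2032000000, nat_lit 4688000000, nat_lit 6250000000, nat_lit 8885500000], [], [nat_lit 23454274442, nat_lit 23777400401, nat_lit 22563291079, nat_lit 22872350818], nat_lit 0, nat_lit 0, nat_lit 0, nat_lit 0, nat_lit 0, nat_lit 0, [], [nat_lit 128, nat_lit 40, nat_lit 20, nat_lit 40]⟩,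
 zbF0, [⟨nat_lit 0, nat_lit 100, nat_lit 100, nat_lit 43, nat_lit 709780010⟩]⟩
noncomputable def t02_l54 : Lf2 := ⟨nat_lit 0, nat_lit 5, [nat_lit 4, nat_lit 5, nat_lit 5, nat_lit 20], false, nat_lit 0, nat_lit 0, nat_lit 0, nat_lit 0, ⟨nat_lit 1000, nat_lit 0, nat_lit 0, nat_lit 0, nat_lit 0, nat_lit 0, nat_lit 0, nat_lit 0, nat_lit 0, nat_lit 0, nat_lit 0, nat_lit 0, nat_lit 0, nat_lit 0, nat_lit 0, nat_lit 0, false, false⟩,
 nat_lit 0, nat_lit 15016, nat_lit 0, nat_lit 0, nat_lit 8145, nat_lit 3613, nat_lit 2781, nat_lit 0, nat_lit 0, nat_lit 0, nat_lit 0, nat_lit 0, nat_lit 0, nat_lit 1493078258527, nat_lit 0, nat_lit 0, nat_lit 0, nat_lit 0, [],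
 ⟨t02_k16, nat_lit 0, nat_lit 0, nat_lit 368, nat_lit 0, nat_lit 255973, [nat_lit 4688000000, nat_lit 6250000000, nat_lit 9842000000], [], [nat_lit 22028638260, nat_lit 22208400944, nat_lit 23504729663, nat_lit 22490094795], nat_lit 1271250, nat_lit 1271250, nat_lit 88400, nat_lit 490000, nat_lit 0, nat_lit 0, [nat_lit 1100000, nat_lit 1442500, nat_lit 1271250], [nat_lit 11, nat_lit 40, nat_lit 20, nat_lit 80, nat_lit 1, nat_lit 317, nat_lit 100, nat_lit 10]⟩, ⟨t02_k28, nat_lit 0, nat_lit 0, nat_lit 0, nat_lit 0, nat_lit 0, [nat_lit 2032000000, nat_lit 4688000000, nat_lit 6250000000, nat_lit 8885500000], [], [nat_lit 24262526802, nat_lit 24907662973, nat_lit 23379588276, nat_lit 23996656158], nat_lit 0, nat_lit 0, nat_lit 0, nat_lit 0, nat_lit 0, nat_lit 0, [], [nat_lit 128, nat_lit 40, nat_lit 20, nat_lit 40]⟩,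
 zbF0, [⟨nat_lit 0, nat_lit 100, nat_lit 100, nat_lit 50, nat_lit 693362005⟩]⟩
noncomputable def t02_l55 : Lf2 := ⟨nat_lit 0, nat_lit 5, [nat_lit 4, nat_lit 5, nat_lit 5, nat_lit 20], false, nat_lit 0, nat_lit 0, nat_lit 0, nat_lit 0, ⟨nat_lit 1000, nat_lit 0, nat_lit 0, nat_lit 0, nat_lit 0, nat_lit 0, nat_lit 0, nat_lit 0, nat_lit 0, nat_lit 0, nat_lit 0, nat_lit 0, nat_lit 0, nat_lit 0, nat_lit 0, nat_lit 0, false, false⟩,
 nat_lit 0, nat_lit 15317, nat_lit 0, nat_lit 0, nat_lit 8108, nat_lit 10648, nat_lit 1931, nat_lit 0, nat_lit 0, nat_lit 4049, nat_lit 0, nat_lit 0, nat_lit 0, nat_lit 4163078225131, nat_lit 0, nat_lit 0, nat_lit 0, nat_lit 0, [],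
 ⟨t02_k10, nat_lit 0, nat_lit 0, nat_lit 631, nat_lit 0, nat_lit 855451, [nat_lit 4688000000, nat_lit 6250000000, nat_lit 9842000000], [], [nat_lit 29400355264, nat_lit 28363224792, nat_lit 28191475136, nat_lit 27960145934], nat_lit 1271250, nat_lit 1271250, nat_lit 490000, nat_lit 780000, nat_lit 0, nat_lit 0, [nat_lit 1100000, nat_lit 1442500, nat_lit 1271250], [nat_lit 11, nat_lit 40, nat_lit 20, nat_lit 80, nat_lit 1, nat_lit 317, nat_lit 100, nat_lit 9]⟩, ⟨t02_k10, nat_lit 0, nat_lit 0, nat_lit 0, nat_lit 0, nat_lit 0, [nat_lit 4688000000, nat_lit 6250000000, nat_lit 9842000000], [], [nat_lit 12818855456, nat_lit 13542939696, nat_lit 12283357344, nat_lit 12968229220], nat_lit 0, nat_lit 0, nat_lit 0, nat_lit 0, nat_lit 0, nat_lit 0, [], [nat_lit 11, nat_lit 40, nat_lit 20, nat_lit 80]⟩,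
 zbF0, []⟩
noncomputable def t02_l56 : Lf2 := ⟨nat_lit 0, nat_lit 5, [nat_lit 4, nat_lit 5, nat_lit 5, nat_lit 20], false, nat_lit 0, nat_lit 0, nat_lit 0, nat_lit 0, ⟨nat_lit 1000, nat_lit 0, nat_lit 0, nat_lit 0, nat_lit 0, nat_lit 0, nat_lit 0, nat_lit 0, nat_lit 0, nat_lit 0, nat_lit 0, nat_lit 0, nat_lit 0, nat_lit 0, nat_lit 0, nat_lit 0, false, false⟩,
 nat_lit 0, nat_lit 14238, nat_lit 0, nat_lit 0, nat_lit 7723, nat_lit 6878, nat_lit 5809, nat_lit 0, nat_lit 0, nat_lit 0, nat_lit 0, nat_lit 0, nat_lit 0, nat_lit 56401355861260, nat_lit 0, nat_lit 0, nat_lit 0, nat_lit 0, [],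
 ⟨t02_k16, nat_lit 0, nat_lit 0, nat_lit 657, nat_lit 0, nat_lit 925016, [nat_lit 4688000000, nat_lit 6250000000, nat_lit 9842000000], [], [nat_lit 28631217451, nat_lit 27640798164, nat_lit 27037419499, nat_lit 27174478123], nat_lit 1271250, nat_lit 1271250, nat_lit 490000, nat_lit 780000, nat_lit 0, nat_lit 0, [nat_lit 1100000, nat_lit 1442500, nat_lit 1271250], [nat_lit 11, nat_lit 40, nat_lit 20, nat_lit 80, nat_lit 1, nat_lit 317, nat_lit 100, nat_lit 9]⟩, ⟨t02_k25, nat_lit 0, nat_lit 0, nat_lit 0, nat_lit 0, nat_lit 0, [nat_lit 4688000000, nat_lit 6250000000, nat_lit 8885500000], [], [nat_lit 10957569856, nat_lit 12125857838, nat_lit 11056597424, nat_lit 12165988790], nat_lit 0, nat_lit 0, nat_lit 0, nat_lit 0, nat_lit 0, nat_lit 0, [], [nat_lit 123, nat_lit 40, nat_lit 20, nat_lit 40]⟩,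
 zbF0, []⟩
noncomputable def t02_l57 : Lf2 := ⟨nat_lit 0, nat_lit 5, [nat_lit 4, nat_lit 5, nat_lit 5, nat_lit 20], false, nat_lit 0, nat_lit 0, nat_lit 0, nat_lit 0, ⟨nat_lit 1000, nat_lit 0, nat_lit 0, nat_lit 0, nat_lit 0, nat_lit 0, nat_lit 0, nat_lit 0, nat_lit 0, nat_lit 0, nat_lit 0, nat_lit 0, nat_lit 0, nat_lit 0, nat_lit 0, nat_lit 0, false, false⟩,
 nat_lit 0, nat_lit 15887, nat_lit 0, nat_lit 0, nat_lit 8410, nat_lit 7430, nat_lit 1756, nat_lit 0, nat_lit 0, nat_lit 0, nat_lit 0, nat_lit 0, nat_lit 0, nat_lit 0, nat_lit 0, nat_lit 0, nat_lit 0, nat_lit 0, [],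
 ⟨t02_k10, nat_lit 0, nat_lit 0, nat_lit 598, nat_lit 0, nat_lit 815954, [nat_lit 4688000000, nat_lit 6250000000, nat_lit 9842000000], [], [nat_lit 27773504720, nat_lit 27156168378, nat_lit 31555988320, nat_lit 30944970703], nat_lit 1271250, nat_lit 1271250, nat_lit 780000, nat_lit 1100001, nat_lit 0, nat_lit 0, [nat_lit 1100000, nat_lit 1442500, nat_lit 1271250], [nat_lit 11, nat_lit 40, nat_lit 20, nat_lit 80, nat_lit 1, nat_lit 345, nat_lit 125, nat_lit 10]⟩, ⟨t02_k10, nat_lit 0, nat_lit 0, nat_lit 0, nat_lit 0, nat_lit 0, [nat_lit 4688000000, nat_lit 6250000000, nat_lit 9842000000], [], [nat_lit 10596675440, nat_lit 10946797553, nat_lit 11819190920, nat_lit 12145650702], nat_lit 0, nat_lit 0, nat_lit 0, nat_lit 0, nat_lit 0, nat_lit 0, [], [nat_lit 11, nat_lit 40, nat_lit 20, nat_lit 80]⟩,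
 zbF0, [⟨nat_lit 13, nat_lit 100, nat_lit 2, nat_lit 100, nat_lit 8340686⟩]⟩
noncomputable def t02_l58 : Lf2 := ⟨nat_lit 0, nat_lit 5, [nat_lit 4, nat_lit 5, nat_lit 5, nat_lit 20], false, nat_lit 0, nat_lit 0, nat_lit 0, nat_lit 0, ⟨nat_lit 1000, nat_lit 0, nat_lit 0, nat_lit 0, nat_lit 0, nat_lit 0, nat_lit 0, nat_lit 0, nat_lit 0, nat_lit 0, nat_lit 0, nat_lit 0, nat_lit 0, nat_lit 0, nat_lit 0, nat_lit 0, false, false⟩,
 nat_lit 0, nat_lit 14647, nat_lit 0, nat_lit 0, nat_lit 7868, nat_lit 4127, nat_lit 5848, nat_lit 0, nat_lit 0, nat_lit 0, nat_lit 0, nat_lit 0, nat_lit 0, nat_lit 0, nat_lit 0, nat_lit 0, nat_lit 0, nat_lit 0, [],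
 ⟨t02_k29, nat_lit 0, nat_lit 0, nat_lit 606, nat_lit 0, nat_lit 838033, [nat_lit 4688000000, nat_lit 6250000000, nat_lit 9842000000], [], [nat_lit 26628096852, nat_lit 26242769414, nat_lit 30257403825, nat_lit 29876310950], nat_lit 1271250, nat_lit 1271250, nat_lit 780000, nat_lit 1100001, nat_lit 0, nat_lit 0, [nat_lit 1100000, nat_lit 1442500, nat_lit 1271250], [nat_lit 11, nat_lit 40, nat_lit 20, nat_lit 80, nat_lit 1, nat_lit 345, nat_lit 125, nat_lit 10]⟩, ⟨t02_k10, nat_lit 0, nat_lit 0, nat_lit 0, nat_lit 0, nat_lit 0, [nat_lit 4688000000, nat_lit 6250000000, nat_lit 9842000000], [], [nat_lit 13348708616, nat_lit 13759668676, nat_lit 14540717588, nat_lit 14926786840], nat_lit 0, nat_lit 0, nat_lit 0, nat_lit 0, nat_lit 0, nat_lit 0, [], [nat_lit 11, nat_lit 40, nat_lit 20, nat_lit 80]⟩,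
 zbF0, []⟩
noncomputable def t02_l59 : Lf2 := ⟨nat_lit 0, nat_lit 5, [nat_lit 4, nat_lit 5, nat_lit 5, nat_lit 20], false, nat_lit 0, nat_lit 0, nat_lit 0, nat_lit 0, ⟨nat_lit 1000, nat_lit 0, nat_lit 0, nat_lit 0, nat_lit 0, nat_lit 0, nat_lit 0, nat_lit 0, nat_lit 0, nat_lit 0, nat_lit 0, nat_lit 0, nat_lit 0, nat_lit 0, nat_lit 0, nat_lit 0, false, false⟩,
 nat_lit 0, nat_lit 15337, nat_lit 0, nat_lit 0, nat_lit 8319, nat_lit 5412, nat_lit 6284, nat_lit 0, nat_lit 0, nat_lit 0, nat_lit 0, nat_lit 0, nat_lit 0, nat_lit 0, nat_lit 0, nat_lit 0, nat_lit 0, nat_lit 0, [],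
 ⟨t02_k16, nat_lit 0, nat_lit 0, nat_lit 639, nat_lit 0, nat_lit 925016, [nat_lit 4688000000, nat_lit 6250000000, nat_lit 9842000000], [], [nat_lit 24324955494, nat_lit 23305082505, nat_lit 28094636538, nat_lit 27087292987], nat_lit 1271250, nat_lit 1271250, nat_lit 780000, nat_lit 1100001, nat_lit 0, nat_lit 0, [nat_lit 1100000, nat_lit 1442500, nat_lit 1271250], [nat_lit 11, nat_lit 40, nat_lit 20, nat_lit 80, nat_lit 1, nat_lit 345, nat_lit 125, nat_lit 10]⟩, ⟨t02_k10, nat_lit 0, nat_lit 0, nat_lit 0, nat_lit 0, nat_lit 0, [nat_lit 4688000000, nat_lit 6250000000, nat_lit 9842000000], [], [nat_lit 12278056896, nat_lit 13234255660, nat_lit 13481934128, nat_lit 14377032996], nat_lit 0, nat_lit 0, nat_lit 0, nat_lit 0, nat_lit 0, nat_lit 0, [], [nat_lit 11, nat_lit 40, nat_lit 20, nat_lit 80]⟩,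
 zbF0, []⟩
noncomputable def t02_l60 : Lf2 := ⟨nat_lit 0, nat_lit 5, [nat_lit 4, nat_lit 5, nat_lit 5, nat_lit 20], false, nat_lit 0, nat_lit 0, nat_lit 0, nat_lit 0, ⟨nat_lit 1000, nat_lit 0, nat_lit 0, nat_lit 0, nat_lit 0, nat_lit 0, nat_lit 0, nat_lit 0, nat_lit 0, nat_lit 0, nat_lit 0, nat_lit 0, nat_lit 0, nat_lit 0, nat_lit 0, nat_lit 0, false, false⟩,
 nat_lit 0, nat_lit 14037, nat_lit 0, nat_lit 0, nat_lit 7431, nat_lit 11066, nat_lit 2109, nat_lit 0, nat_lit 0, nat_lit 3667, nat_lit 0, nat_lit 0, nat_lit 0, nat_lit 2025982341825, nat_lit 0, nat_lit 0, nat_lit 0, nat_lit 0, [],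
 ⟨t02_k10, nat_lit 0, nat_lit 0, nat_lit 638, nat_lit 0, nat_lit 957208, [nat_lit 4688000000, nat_lit 6250000000, nat_lit 9842000000], [], [nat_lit 34403562884, nat_lit 32469069747, nat_lit 35409528592, nat_lit 33634678828], nat_lit 1271250, nat_lit 1271250, nat_lit 1100001, nat_lit 1785000, nat_lit 0, nat_lit 0, [nat_lit 1100000, nat_lit 1442500, nat_lit 1271250], [nat_lit 11, nat_lit 40, nat_lit 20, nat_lit 80, nat_lit 1, nat_lit 345, nat_lit 125, nat_lit 10]⟩, ⟨t02_k10, nat_lit 0, nat_lit 0, nat_lit 0, nat_lit 0, nat_lit 0, [nat_lit 4688000000, nat_lit 6250000000, nat_lit 9842000000], [], [nat_lit 13317931526, nat_lit 14330764132, nat_lit 19919423264, nat_lit 21305275434], nat_lit 0, nat_lit 0, nat_lit 0, nat_lit 0, nat_lit 0, nat_lit 0, [], [nat_lit 11, nat_lit 40, nat_lit 20, nat_lit 80]⟩,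
 zbF0, []⟩
noncomputable def t02_l61 : Lf2 := ⟨nat_lit 0, nat_lit 5, [nat_lit 4, nat_lit 5, nat_lit 5, nat_lit 20], false, nat_lit 0, nat_lit 0, nat_lit 0, nat_lit 0, ⟨nat_lit 1000, nat_lit 0, nat_lit 0, nat_lit 0, nat_lit 0, nat_lit 0, nat_lit 0, nat_lit 0, nat_lit 0, nat_lit 0, nat_lit 0, nat_lit 0, nat_lit 0, nat_lit 0, nat_lit 0, nat_lit 0, false, false⟩,
 nat_lit 0, nat_lit 14465, nat_lit 0, nat_lit 0, nat_lit 7657, nat_lit 5955, nat_lit 1483, nat_lit 0, nat_lit 0, nat_lit 4480, nat_lit 0, nat_lit 0, nat_lit 0, nat_lit 0, nat_lit 0, nat_lit 0, nat_lit 0, nat_lit 0, [],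
 ⟨t02_k10, nat_lit 0, nat_lit 0, nat_lit 620, nat_lit 0, nat_lit 957208, [nat_lit 4688000000, nat_lit 6250000000, nat_lit 9842000000], [], [nat_lit 33953522394, nat_lit 34107888497, nat_lit 38387092496, nat_lit 38510904802], nat_lit 1271250, nat_lit 1271250, nat_lit 1271250, nat_lit 1271250, nat_lit 0, nat_lit 0, [nat_lit 1100000, nat_lit 1442500, nat_lit 1271250], [nat_lit 11, nat_lit 40, nat_lit 20, nat_lit 80, nat_lit 1, nat_lit 401, nat_lit 175, nat_lit 11]⟩, ⟨t02_k10, nat_lit 0, nat_lit 0, nat_lit 0, nat_lit 0, nat_lit 0, [nat_lit 4688000000, nat_lit 6250000000, nat_lit 9842000000], [], [nat_lit 22923197900, nat_lit 23531206525, nat_lit 34396447940, nat_lit 34786452090], nat_lit 0, nat_lit 0, nat_lit 0, nat_lit 0, nat_lit 0, nat_lit 0, [], [nat_lit 11, nat_lit 40, nat_lit 20, nat_lit 80]⟩,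
 zbF0, []⟩
noncomputable def t02_l62 : Lf2 := ⟨nat_lit 3, nat_lit 5, [nat_lit 4, nat_lit 5, nat_lit 5, nat_lit 20], false, nat_lit 0, nat_lit 0, nat_lit 0, nat_lit 0, zbN0,
 nat_lit 0, nat_lit 0, nat_lit 0, nat_lit 0, nat_lit 0, nat_lit 0, nat_lit 0, nat_lit 0, nat_lit 0, nat_lit 0, nat_lit 0, nat_lit 0, nat_lit 0, nat_lit 0, nat_lit 0, nat_lit 0, nat_lit 0, nat_lit 0, [],
 C1.Rw.none, ⟨t02_k27, nat_lit 0, nat_lit 0, nat_lit 241, nat_lit 0, nat_lit 0, [], [], [], nat_lit 0, nat_lit 0, nat_lit 0, nat_lit 0, nat_lit 0, nat_lit 0, [], [nat_lit 29, nat_lit 40, nat_lit 20, nat_lit 80, nat_lit 17, nat_lit 401, nat_lit 175, nat_lit 12]⟩,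
 zbF0, []⟩
noncomputable def t02_l63 : Lf2 := ⟨nat_lit 0, nat_lit 5, [nat_lit 4, nat_lit 5, nat_lit 5, nat_lit 20], false, nat_lit 0, nat_lit 0, nat_lit 0, nat_lit 0, ⟨nat_lit 0, nat_lit 0, nat_lit 1000, nat_lit 6, nat_lit 96, nat_lit 0, nat_lit 0, nat_lit 0, nat_lit 0, nat_lit 215, nat_lit 86400, nat_lit 287, nat_lit 63378861, nat_lit 0, nat_lit 0, nat_lit 1051306, false, false⟩,
 nat_lit 88889, nat_lit 40542, nat_lit 100000, nat_lit 100000, nat_lit 2238, nat_lit 100000, nat_lit 0, nat_lit 0, nat_lit 0, nat_lit 60000, nat_lit 20000, nat_lit 0, nat_lit 0, nat_lit 400000000000000, nat_lit 147, nat_lit 1000000, nat_lit 0, nat_lit 0, [(nat_lit 6, [(nat_lit 6, nat_lit 1000)])],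
 ⟨t02_k10, nat_lit 0, nat_lit 0, nat_lit 495, nat_lit 0, nat_lit 472791, [nat_lit 3329066667, nat_lit 3042400001, nat_lit 177599999], [], [nat_lit 22164504665, nat_lit 21585681455, nat_lit 23849566018, nat_lit 23315033146], nat_lit 1271250, nat_lit 1271250, nat_lit 88400, nat_lit 490000, nat_lit 0, nat_lit 0, [nat_lit 1100000, nat_lit 1442500, nat_lit 1271250], [nat_lit 11, nat_lit 40, nat_lit 20, nat_lit 80, nat_lit 1, nat_lit 317, nat_lit 100, nat_lit 10]⟩, ⟨t02_k10, nat_lit 0, nat_lit 0, nat_lit 495, nat_lit 0, nat_lit 472791, [nat_lit 320000000000, nat_lit 400000000000, nat_lit 560000000000], [], [nat_lit 1269626720000, nat_lit 1273538160001, nat_lit 1227757600000, nat_lit 1231311700000], nat_lit 1271250, nat_lit 1271250, nat_lit 88400, nat_lit 490000, nat_lit 0, nat_lit 0, [nat_lit 1100000, nat_lit 1442500, nat_lit 1271250], [nat_lit 11, nat_lit 40, nat_lit 20, nat_lit 80, nat_lit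 1, nat_lit 317, nat_lit 100, nat_lit 10]⟩,
 ⟨nat_lit 6123, nat_lit 6325, ⟨.ofNat (nat_lit 164319), .ofNat (nat_lit 295942), .ofNat (nat_lit 175003), .ofNat (nat_lit 306625), .ofNat (nat_lit 172944), .ofNat (nat_lit 301553), .ofNat (nat_lit 183618), .ofNat (nat_lit 312227)⟩, ⟨.ofNat (nat_lit 0), .ofNat (nat_lit 0), .ofNat (nat_lit 0), .ofNat (nat_lit 0), .ofNat (nat_lit 0), .ofNat (nat_lit 0), .ofNat (nat_lit 0), .ofNat (nat_lit 0)⟩⟩, []⟩
noncomputable def t02_l64 : Lf2 := ⟨nat_lit 0, nat_lit 5, [nat_lit 4, nat_lit 5, nat_lit 5, nat_lit 20], false, nat_lit 0, nat_lit 0, nat_lit 0, nat_lit 0, ⟨nat_lit 1000, nat_lit 0, nat_lit 0, nat_lit 0, nat_lit 0, nat_lit 0, nat_lit 0, nat_lit 0, nat_lit 0, nat_lit 0, nat_lit 0, nat_lit 0, nat_lit 0, nat_lit 0, nat_lit 0, nat_lit 0, false, false⟩,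
 nat_lit 12435, nat_lit 0, nat_lit 0, nat_lit 0, nat_lit 6583, nat_lit 6583, nat_lit 1105, nat_lit 0, nat_lit 0, nat_lit 1105, nat_lit 0, nat_lit 0, nat_lit 0, nat_lit 0, nat_lit 0, nat_lit 0, nat_lit 0, nat_lit 0, [],
 ⟨t02_k10, nat_lit 0, nat_lit 0, nat_lit 435, nat_lit 0, nat_lit 434038, [nat_lit 4688000000, nat_lit 6250000000, nat_lit 9842000000], [], [nat_lit 30277523064, nat_lit 30189028627, nat_lit 30302087336, nat_lit 29971190905], nat_lit 1271250, nat_lit 1271250, nat_lit 490000, nat_lit 780000, nat_lit 0, nat_lit 0, [nat_lit 1100000, nat_lit 1442500, nat_lit 1271250], [nat_lit 11, nat_lit 40, nat_lit 20, nat_lit 80, nat_lit 1, nat_lit 317, nat_lit 100, nat_lit 9]⟩, ⟨t02_k10, nat_lit 0, nat_lit 0, nat_lit 435, nat_lit 0, nat_lit 434038, [nat_lit 4688000000, nat_lit 6250000000, nat_lit 9842000000], [], [nat_lit 30277523064, nat_lit 30189028627, nat_lit 30302087336, nat_lit 29971190905],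 nat_lit 1271250, nat_lit 1271250, nat_lit 490000, nat_lit 780000, nat_lit 0, nat_lit 0, [nat_lit 1100000, nat_lit 1442500, nat_lit 1271250], [nat_lit 11, nat_lit 40, nat_lit 20, nat_lit 80, nat_lit 1, nat_lit 317, nat_lit 100, nat_lit 9]⟩,
 zbF0, []⟩
noncomputable def t02_l65 : Lf2 := ⟨nat_lit 0, nat_lit 5, [nat_lit 4, nat_lit 5, nat_lit 5, nat_lit 20], false, nat_lit 0, nat_lit 0, nat_lit 0, nat_lit 0, ⟨nat_lit 1000, nat_lit 0, nat_lit 0, nat_lit 0, nat_lit 0, nat_lit 0, nat_lit 0, nat_lit 0, nat_lit 0, nat_lit 0, nat_lit 0, nat_lit 0, nat_lit 0, nat_lit 0, nat_lit 0, nat_lit 0, false, false⟩,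
 nat_lit 22194, nat_lit 0, nat_lit 0, nat_lit 0, nat_lit 11749, nat_lit 11749, nat_lit 2371, nat_lit 0, nat_lit 0, nat_lit 2371, nat_lit 0, nat_lit 0, nat_lit 0, nat_lit 0, nat_lit 0, nat_lit 0, nat_lit 0, nat_lit 0, [],
 ⟨t02_k10, nat_lit 0, nat_lit 0, nat_lit 321, nat_lit 0, nat_lit 262994, [nat_lit 4688000000, nat_lit 6250000000, nat_lit 9842000000], [], [nat_lit 20072186436, nat_lit 19448792738, nat_lit 23152302008, nat_lit 20266618369], nat_lit 1271250, nat_lit 1271250, nat_lit 490000, nat_lit 780000, nat_lit 0, nat_lit 0, [nat_lit 1100000, nat_lit 1442500, nat_lit 1271250], [nat_lit 11, nat_lit 40, nat_lit 20, nat_lit 80, nat_lit 1, nat_lit 317, nat_lit 100, nat_lit 9]⟩, ⟨t02_k10, nat_lit 0, nat_lit 0, nat_lit 321, nat_lit 0, nat_lit 262994, [nat_lit 4688000000, nat_lit 6250000000, nat_lit 9842000000], [], [nat_lit 20072186436, nat_lit 19448792738, nat_lit 23152302008, nat_lit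 20266618369], nat_lit 1271250, nat_lit 1271250, nat_lit 490000, nat_lit 780000, nat_lit 0, nat_lit 0, [nat_lit 1100000, nat_lit 1442500, nat_lit 1271250], [nat_lit 11, nat_lit 40, nat_lit 20, nat_lit 80, nat_lit 1, nat_lit 317, nat_lit 100, nat_lit 9]⟩,
 zbF0, []⟩
noncomputable def t02_l66 : Lf2 := ⟨nat_lit 0, nat_lit 5, [nat_lit 4, nat_lit 5, nat_lit 5, nat_lit 20], false, nat_lit 0, nat_lit 0, nat_lit 0, nat_lit 0, ⟨nat_lit 0, nat_lit 0, nat_lit 1000, nat_lit 6, nat_lit 102, nat_lit 0, nat_lit 0, nat_lit 0, nat_lit 0, nat_lit 215, nat_lit 98817, nat_lit 292, nat_lit 62897457, nat_lit 0, nat_lit 0, nat_lit 1151713, false, false⟩,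
 nat_lit 88889, nat_lit 0, nat_lit 100000, nat_lit 0, nat_lit 899, nat_lit 100000, nat_lit 0, nat_lit 0, nat_lit 0, nat_lit 39468, nat_lit 7103, nat_lit 0, nat_lit 0, nat_lit 0, nat_lit 80, nat_lit 1000000, nat_lit 0, nat_lit 0, [(nat_lit 6, [(nat_lit 6, nat_lit 1000)])],
 ⟨t02_k14, nat_lit 0, nat_lit 0, nat_lit 440, nat_lit 0, nat_lit 536625, [nat_lit 2257066667, nat_lit 1408000000, nat_lit 211200000], [], [nat_lit 23731780680, nat_lit 23512529863, nat_lit 25302305213, nat_lit 25087584457], nat_lit 1271250, nat_lit 1271250, nat_lit 111251, nat_lit 490000, nat_lit 0, nat_lit 0, [nat_lit 1100000, nat_lit 1442500, nat_lit 1271250], [nat_lit 9, nat_lit 40, nat_lit 20, nat_lit 80, nat_lit 2, nat_lit 226, nat_lit 20, nat_lit 8]⟩, ⟨t02_k10, nat_lit 0, nat_lit 0, nat_lit 562, nat_lit 0, nat_lit 566178, [nat_lit 113648000000, nat_lit 142060000000, nat_lit 198884000000], [], [nat_lit 363726800000,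 nat_lit 327345800000, nat_lit 286830400000, nat_lit 291838200000], nat_lit 1271250, nat_lit 1271250, nat_lit 111251, nat_lit 490000, nat_lit 0, nat_lit 0, [nat_lit 1100000, nat_lit 1442500, nat_lit 1271250], [nat_lit 11, nat_lit 40, nat_lit 20, nat_lit 80, nat_lit 1, nat_lit 317, nat_lit 100, nat_lit 10]⟩,
 ⟨nat_lit 5916, nat_lit 6124, ⟨.ofNat (nat_lit 180982), .ofNat (nat_lit 301553), .ofNat (nat_lit 202330), .ofNat (nat_lit 322901), .ofNat (nat_lit 189276), .ofNat (nat_lit 307076), .ofNat (nat_lit 210615), .ofNat (nat_lit 328416)⟩, ⟨.ofNat (nat_lit 0), .ofNat (nat_lit 0), .ofNat (nat_lit 0), .ofNat (nat_lit 0), .ofNat (nat_lit 0), .ofNat (nat_lit 0), .ofNat (nat_lit 0), .ofNat (nat_lit 0)⟩⟩, []⟩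
noncomputable def t02_l67 : Lf2 := ⟨nat_lit 0, nat_lit 5, [nat_lit 4, nat_lit 5, nat_lit 5, nat_lit 20], false, nat_lit 0, nat_lit 0, nat_lit 0, nat_lit 0, ⟨nat_lit 1000, nat_lit 0, nat_lit 0, nat_lit 0, nat_lit 0, nat_lit 0, nat_lit 0, nat_lit 0, nat_lit 0, nat_lit 0, nat_lit 0, nat_lit 0, nat_lit 0, nat_lit 0, nat_lit 0, nat_lit 0, false, false⟩,
 nat_lit 14570, nat_lit 0, nat_lit 0, nat_lit 0, nat_lit 8094, nat_lit 7713, nat_lit 1107, nat_lit 0, nat_lit 0, nat_lit 1697, nat_lit 0, nat_lit 0, nat_lit 0, nat_lit 0, nat_lit 0, nat_lit 0, nat_lit 0, nat_lit 0, [],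
 ⟨t02_k14, nat_lit 0, nat_lit 0, nat_lit 396, nat_lit 0, nat_lit 536625, [nat_lit 4688000000, nat_lit 6250000000, nat_lit 7968000000], [], [nat_lit 27332062226, nat_lit 26804936188, nat_lit 25869687354, nat_lit 26293082568], nat_lit 1271250, nat_lit 1271250, nat_lit 490000, nat_lit 780000, nat_lit 0, nat_lit 0, [nat_lit 1100000, nat_lit 1442500, nat_lit 1271250], [nat_lit 9, nat_lit 40, nat_lit 20, nat_lit 80, nat_lit 2, nat_lit 238, nat_lit 30, nat_lit 8]⟩, ⟨t02_k10, nat_lit 0, nat_lit 0, nat_lit 485, nat_lit 0, nat_lit 566178, [nat_lit 4688000000, nat_lit 6250000000, nat_lit 9842000000], [], [nat_lit 29627556104, nat_lit 28778610052, nat_lit 28738158296, nat_lit 28137191856], nat_lit 1271250, nat_lit 1271250, nat_lit 490000, nat_lit 780000, nat_lit 0, nat_lit 0, [nat_lit 1100000, nat_lit 1442500, nat_lit 1271250], [nat_lit 11, nat_lit 40, nat_lit 20, nat_lit 80, nat_lit 1, nat_lit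 317, nat_lit 100, nat_lit 9]⟩,
 zbF0, []⟩
noncomputable def t02_l68 : Lf2 := ⟨nat_lit 0, nat_lit 5, [nat_lit 4, nat_lit 5, nat_lit 5, nat_lit 20], false, nat_lit 0, nat_lit 0, nat_lit 0, nat_lit 0, ⟨nat_lit 1000, nat_lit 0, nat_lit 0, nat_lit 0, nat_lit 0, nat_lit 0, nat_lit 0, nat_lit 0, nat_lit 0, nat_lit 0, nat_lit 0, nat_lit 0, nat_lit 0, nat_lit 0, nat_lit 0, nat_lit 0, false, false⟩,
 nat_lit 26542, nat_lit 0, nat_lit 0, nat_lit 0, nat_lit 14745, nat_lit 14051, nat_lit 425, nat_lit 0, nat_lit 0, nat_lit 3156, nat_lit 0, nat_lit 0, nat_lit 0, nat_lit 0, nat_lit 0, nat_lit 0, nat_lit 0, nat_lit 0, [],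
 ⟨t02_k14, nat_lit 0, nat_lit 0, nat_lit 378, nat_lit 0, nat_lit 536625, [nat_lit 4688000000, nat_lit 6250000000, nat_lit 7968000000], [], [nat_lit 17947862770, nat_lit 18964245780, nat_lit 20751785885, nat_lit 18791503420], nat_lit 1271250, nat_lit 1271250, nat_lit 780000, nat_lit 1100001, nat_lit 0, nat_lit 0, [nat_lit 1100000, nat_lit 1442500, nat_lit 1271250], [nat_lit 9, nat_lit 40, nat_lit 20, nat_lit 80, nat_lit 2, nat_lit 249, nat_lit 40, nat_lit 8]⟩, ⟨t02_k10, nat_lit 0, nat_lit 0, nat_lit 467, nat_lit 0, nat_lit 566178, [nat_lit 4688000000, nat_lit 6250000000, nat_lit 9842000000], [], [nat_lit 19966315592, nat_lit 16812430932, nat_lit 25427335152, nat_lit 18621620894], nat_lit 1271250, nat_lit 1271250, nat_lit 780000, nat_lit 1100001, nat_lit 0, nat_lit 0, [nat_lit 1100000, nat_lit 1442500, nat_lit 1271250], [nat_lit 11, nat_lit 40, nat_lit 20, nat_lit 80, nat_lit 1, nat_lit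 345, nat_lit 125, nat_lit 10]⟩,
 zbF0, [⟨nat_lit 13, nat_lit 99, nat_lit 3, nat_lit 100, nat_lit 25885643⟩]⟩
noncomputable def t02_l69 : Lf2 := ⟨nat_lit 0, nat_lit 5, [nat_lit 4, nat_lit 5, nat_lit 5, nat_lit 20], false, nat_lit 0, nat_lit 0, nat_lit 0, nat_lit 0, ⟨nat_lit 1000, nat_lit 0, nat_lit 0, nat_lit 0, nat_lit 0, nat_lit 0, nat_lit 0, nat_lit 0, nat_lit 0, nat_lit 0, nat_lit 0, nat_lit 0, nat_lit 0, nat_lit 0, nat_lit 0, nat_lit 0, false, false⟩,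
 nat_lit 12159, nat_lit 0, nat_lit 0, nat_lit 0, nat_lit 6754, nat_lit 6436, nat_lit 833, nat_lit 0, nat_lit 0, nat_lit 1451, nat_lit 0, nat_lit 0, nat_lit 0, nat_lit 0, nat_lit 0, nat_lit 0, nat_lit 0, nat_lit 0, [],
 ⟨t02_k14, nat_lit 0, nat_lit 0, nat_lit 367, nat_lit 0, nat_lit 536625, [nat_lit 4688000000, nat_lit 6250000000, nat_lit 7968000000], [], [nat_lit 31985554650, nat_lit 31545690012, nat_lit 33916622452, nat_lit 32953571876], nat_lit 1271250, nat_lit 1271250, nat_lit 1100001, nat_lit 1785000, nat_lit 0, nat_lit 0, [nat_lit 1100000, nat_lit 1442500, nat_lit 1271250], [nat_lit 9, nat_lit 40, nat_lit 20, nat_lit 80, nat_lit 2, nat_lit 272, nat_lit 60, nat_lit 9]⟩, ⟨t02_k10, nat_lit 0, nat_lit 0, nat_lit 454, nat_lit 0, nat_lit 566178, [nat_lit 4688000000, nat_lit 6250000000, nat_lit 9842000000], [], [nat_lit 33939530704, nat_lit 33235084164, nat_lit 36091270752, nat_lit 34214646468],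 nat_lit 1271250, nat_lit 1271250, nat_lit 1100001, nat_lit 1785000, nat_lit 0, nat_lit 0, [nat_lit 1100000, nat_lit 1442500, nat_lit 1271250], [nat_lit 11, nat_lit 40, nat_lit 20, nat_lit 80, nat_lit 1, nat_lit 345, nat_lit 125, nat_lit 10]⟩,
 zbF0, []⟩
noncomputable def t02_l70 : Lf2 := ⟨nat_lit 0, nat_lit 5, [nat_lit 4, nat_lit 5, nat_lit 5, nat_lit 20], false, nat_lit 0, nat_lit 0, nat_lit 0, nat_lit 0, ⟨nat_lit 1000, nat_lit 0, nat_lit 0, nat_lit 0, nat_lit 0, nat_lit 0, nat_lit 0, nat_lit 0, nat_lit 0, nat_lit 0, nat_lit 0, nat_lit 0, nat_lit 0, nat_lit 0, nat_lit 0, nat_lit 0, false, false⟩,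
 nat_lit 14087, nat_lit 0, nat_lit 0, nat_lit 0, nat_lit 7457, nat_lit 7457, nat_lit 672, nat_lit 0, nat_lit 0, nat_lit 1894, nat_lit 0, nat_lit 0, nat_lit 0, nat_lit 0, nat_lit 0, nat_lit 0, nat_lit 0, nat_lit 0, [],
 ⟨t02_k10, nat_lit 0, nat_lit 0, nat_lit 458, nat_lit 0, nat_lit 566178, [nat_lit 4688000000, nat_lit 6250000000, nat_lit 9842000000], [], [nat_lit 35671568912, nat_lit 36151949666, nat_lit 42016831656, nat_lit 42400235016], nat_lit 1271250, nat_lit 1271250, nat_lit 1271250, nat_lit 1271250, nat_lit 0, nat_lit 0, [nat_lit 1100000, nat_lit 1442500, nat_lit 1271250], [nat_lit 11, nat_lit 40, nat_lit 20, nat_lit 80, nat_lit 1, nat_lit 401, nat_lit 175, nat_lit 11]⟩, ⟨t02_k10, nat_lit 0, nat_lit 0, nat_lit 458, nat_lit 0, nat_lit 566178, [nat_lit 4688000000, nat_lit 6250000000, nat_lit 9842000000], [], [nat_lit 28430409472, nat_lit 29201151476, nat_lit 37486080944, nat_lit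 38508549228], nat_lit 1271250, nat_lit 1271250, nat_lit 1271250, nat_lit 1271250, nat_lit 0, nat_lit 0, [nat_lit 1100000, nat_lit 1442500, nat_lit 1271250], [nat_lit 11, nat_lit 40, nat_lit 20, nat_lit 80, nat_lit 1, nat_lit 401, nat_lit 175, nat_lit 11]⟩,
 zbF0, []⟩
theorem r_NL_600_600_0 (h : EB TB.env) : Dead (RC.box ⟨false, 20, 240, 260, 240, 260, 0, 0, [64]⟩ 0 64) := chkB_sound h (refs := [b_NL_600_600_0_0, b_NL_600_600_0_1, b_NL_600_600_0_2, b_NL_600_600_0_3, b_NL_600_600_0_4, b_NL_600_600_0_5, b_NL_600_600_0_6, b_NL_600_600_0_7, b_NL_600_600_0_8, b_NL_600_600_0_9, b_NL_600_600_0_10]) (refs_cons (d_NL_600_600_0_0 h) (refs_cons (d_NL_600_600_0_1 h) (refs_cons (d_NL_600_600_0_2 h) (refs_cons (d_NL_600_600_0_3 h) (refs_cons (d_NL_600_600_0_4 h) (refs_cons (d_NL_600_600_0_5 h) (refs_cons (d_NL_600_600_0_6 h) (refs_cons (d_NL_600_600_0_7 h) (refs_cons (d_NL_600_600_0_8 h) (refs_cons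 (d_NL_600_600_0_9 h) (refs_cons (d_NL_600_600_0_10 h) (refs_nil)))))))))))) (T :=
(.trZ (nat_lit 0) (nat_lit 100) (nat_lit 100) (nat_lit 40) (nat_lit 16) (.spl (nat_lit 6) (nat_lit 40)
(.st (nat_lit 0)
(.ref (nat_lit 0))
(.gv
(.st (nat_lit 1)
(.spl (nat_lit 8) (nat_lit 800)
(.spl (nat_lit 0) (nat_lit 250)
(.ord (.spl (nat_lit 2) (nat_lit 240)
(.spl (nat_lit 2) (nat_lit 160)
(.spl (nat_lit 2) (nat_lit 120)
(.spl (nat_lit 2) (nat_lit 80)
(.spl (nat_lit 6) (nat_lit 20)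
(.spl (nat_lit 2) (nat_lit 40)
(.spl (nat_lit 2) (nat_lit 32)
(.spl (nat_lit 6) (nat_lit 8)
(.ref (nat_lit 1))
(.ref (nat_lit 2)))
(.leaf t02_l51))
(.leaf t02_l52))
(.spl (nat_lit 0) (nat_lit 245)
(.ord (.leaf t02_l53))
(.leaf t02_l54)))
(.spl (nat_lit 0) (nat_lit 245)
(.ord (.leaf t02_l55))
(.leaf t02_l56)))
(.spl (nat_lit 0) (nat_lit 245)
(.ord (.spl (nat_lit 0) (nat_lit 243)
(.ord (.leaf t02_l57))
(.leaf t02_l58)))
(.leaf t02_l59)))
(.leaf t02_l60))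
(.leaf t02_l61)))
(.ref (nat_lit 3)))
(.leaf t02_l62))
(.spl (nat_lit 2) (nat_lit 240)
(.spl (nat_lit 0) (nat_lit 250)
(.ord (.spl (nat_lit 2) (nat_lit 120)
(.spl (nat_lit 2) (nat_lit 80)
(.spl (nat_lit 8) (nat_lit 800)
(.spl (nat_lit 6) (nat_lit 20)
(.spl (nat_lit 6) (nat_lit 8)
(.ref (nat_lit 4))
(.ref (nat_lit 5)))
(.ref (nat_lit 6)))
(.leaf t02_l63))
(.spl (nat_lit 6) (nat_lit 20)
(.leaf t02_l64)
(.leaf t02_l65)))
(.ref (nat_lit 7))))
(.trZ (nat_lit 0) (nat_lit 100) (nat_lit 99) (nat_lit 45) (nat_lit 20) (.spl (nat_lit 2) (nat_lit 120)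
(.spl (nat_lit 2) (nat_lit 80)
(.spl (nat_lit 8) (nat_lit 800)
(.ref (nat_lit 8))
(.leaf t02_l66))
(.leaf t02_l67))
(.spl (nat_lit 2) (nat_lit 160)
(.leaf t02_l68)
(.leaf t02_l69)))))
(.leaf t02_l70)))
(.ref (nat_lit 9))))
(.ref (nat_lit 10))))) (by decide +kernel)
theorem done_NL_600_600_0 (h : EB TB.env) : RC.Done ⟨false, 20, 240, 260, 240, 260, 0, 0, [64]⟩ := RC.done1 (r_NL_600_600_0 h) (t_NL_600_600_0 h)
theorem t_NL_650_400_0 (h : EB TB.env) : RC.Tail ⟨false, 20, 260, 280, 160, 180, 0, 0, [48]⟩ := RC.tail_chk h (b := ⟨nat_lit 20, nat_lit 24, nat_lit 5, nat_lit 5, nat_lit 20, nat_lit 203, nat_lit 0, nat_lit 32, nat_lit 0⟩) (by decide +kernel)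
theorem r_NL_650_400_0 (h : EB TB.env) : Dead (RC.box ⟨false, 20, 260, 280, 160, 180, 0, 0, [48]⟩ 0 48) := chkB_sound h (refs := [b_NL_650_400_0_0]) (refs_cons (d_NL_650_400_0_0 h) (refs_nil)) (T :=
(.ref (nat_lit 0))) (by decide +kernel)
theorem done_NL_650_400_0 (h : EB TB.env) : RC.Done ⟨false, 20, 260, 280, 160, 180, 0, 0, [48]⟩ := RC.done1 (r_NL_650_400_0 h) (t_NL_650_400_0 h)
theorem t_NL_650_450_0 (h : EB TB.env) : RC.Tail ⟨false, 20, 260, 280, 180, 200, 0, 0, [52]⟩ := RC.tail_chk h (b := ⟨nat_lit 20, nat_lit 26, nat_lit 5, nat_lit 5, nat_lit 20, nat_lit 203, nat_lit 0, nat_lit 31, nat_lit 0⟩) (by decide +kernel)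
theorem r_NL_650_450_0 (h : EB TB.env) : Dead (RC.box ⟨false, 20, 260, 280, 180, 200, 0, 0, [52]⟩ 0 52) := chkB_sound h (refs := [b_NL_650_450_0_0]) (refs_cons (d_NL_650_450_0_0 h) (refs_nil)) (T :=
(.ref (nat_lit 0))) (by decide +kernel)
theorem done_NL_650_450_0 (h : EB TB.env) : RC.Done ⟨false, 20, 260, 280, 180, 200, 0, 0, [52]⟩ := RC.done1 (r_NL_650_450_0 h) (t_NL_650_450_0 h)
theorem t_NL_650_500_0 (h : EB TB.env) : RC.Tail ⟨false, 20, 260, 280, 200, 220, 0, 0, [60]⟩ := RC.tail_chk h (b := ⟨nat_lit 20, nat_lit 30, nat_lit 5, nat_lit 5, nat_lit 20, nat_lit 203, nat_lit 0, nat_lit 31, nat_lit 0⟩) (by decide +kernel)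
noncomputable def t02_l71 : Lf2 := ⟨nat_lit 1, nat_lit 5, [nat_lit 4, nat_lit 5, nat_lit 5, nat_lit 20], false, nat_lit 0, nat_lit 0, nat_lit 0, nat_lit 0, zbN0,
 nat_lit 0, nat_lit 0, nat_lit 0, nat_lit 0, nat_lit 0, nat_lit 0, nat_lit 0, nat_lit 0, nat_lit 0, nat_lit 0, nat_lit 0, nat_lit 0, nat_lit 0, nat_lit 0, nat_lit 0, nat_lit 0, nat_lit 0, nat_lit 0, [],
 C1.Rw.none, C1.Rw.none,
 zbF0, []⟩
theorem r_NL_650_500_0 (h : EB TB.env) : Dead (RC.box ⟨false, 20, 260, 280, 200, 220, 0, 0, [60]⟩ 0 60) := chkB_sound h (refs := [b_NL_650_500_0_0, b_NL_650_500_0_1]) (refs_cons (d_NL_650_500_0_0 h) (refs_cons (d_NL_650_500_0_1 h) (refs_nil))) (T :=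
(.trZ (nat_lit 0) (nat_lit 100) (nat_lit 95) (nat_lit 30) (nat_lit 8) (.trX (nat_lit 13) (nat_lit 96) (nat_lit 20) (nat_lit 100) (nat_lit 396) (.spl (nat_lit 6) (nat_lit 52)
(.spl (nat_lit 6) (nat_lit 40)
(.ref (nat_lit 0))
(.ref (nat_lit 1)))
(.leaf t02_l71))))) (by decide +kernel)
theorem done_NL_650_500_0 (h : EB TB.env) : RC.Done ⟨false, 20, 260, 280, 200, 220, 0, 0, [60]⟩ := RC.done1 (r_NL_650_500_0 h) (t_NL_650_500_0 h)
theorem t_NL_650_550_0 (h : EB TB.env) : RC.Tail ⟨false, 20, 260, 280, 220, 240, 0, 0, [68]⟩ := RC.tail_chk h (b := ⟨nat_lit 20, nat_lit 34, nat_lit 5, nat_lit 5, nat_lit 20, nat_lit 203, nat_lit 0, nat_lit 30, nat_lit 0⟩) (by decide +kernel)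
noncomputable def t02_l72 : Lf2 := ⟨nat_lit 1, nat_lit 5, [nat_lit 4, nat_lit 5, nat_lit 5, nat_lit 20], false, nat_lit 0, nat_lit 0, nat_lit 0, nat_lit 0, zbN0,
 nat_lit 0, nat_lit 0, nat_lit 0, nat_lit 0, nat_lit 0, nat_lit 0, nat_lit 0, nat_lit 0, nat_lit 0, nat_lit 0, nat_lit 0, nat_lit 0, nat_lit 0, nat_lit 0, nat_lit 0, nat_lit 0, nat_lit 0, nat_lit 0, [],
 C1.Rw.none, C1.Rw.none,
 zbF0, []⟩
theorem r_NL_650_550_0 (h : EB TB.env) : Dead (RC.box ⟨false, 20, 260, 280, 220, 240, 0, 0, [68]⟩ 0 68) := chkB_sound h (refs := [b_NL_650_550_0_0, b_NL_650_550_0_1, b_NL_650_550_0_2]) (refs_cons (d_NL_650_550_0_0 h) (refs_cons (d_NL_650_550_0_1 h) (refs_cons (d_NL_650_550_0_2 h) (refs_nil)))) (T :=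
(.trZ (nat_lit 0) (nat_lit 100) (nat_lit 96) (nat_lit 40) (nat_lit 16) (.spl (nat_lit 6) (nat_lit 60)
(.spl (nat_lit 6) (nat_lit 40)
(.st (nat_lit 0)
(.ref (nat_lit 0))
(.ref (nat_lit 1)))
(.ref (nat_lit 2)))
(.leaf t02_l72)))) (by decide +kernel)
theorem done_NL_650_550_0 (h : EB TB.env) : RC.Done ⟨false, 20, 260, 280, 220, 240, 0, 0, [68]⟩ := RC.done1 (r_NL_650_550_0 h) (t_NL_650_550_0 h)
theorem t_NL_650_600_0 (h : EB TB.env) : RC.Tail ⟨false, 20, 260, 280, 240, 260, 0, 0, [80]⟩ := RC.tail_chk h (b := ⟨nat_lit 20, nat_lit 40, nat_lit 5, nat_lit 5, nat_lit 20, nat_lit 203, nat_lit 0, nat_lit 30, nat_lit 0⟩) (by decide +kernel)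
noncomputable def t02_l73 : Lf2 := ⟨nat_lit 1, nat_lit 5, [nat_lit 4, nat_lit 5, nat_lit 5, nat_lit 20], false, nat_lit 0, nat_lit 0, nat_lit 0, nat_lit 0, zbN0,
 nat_lit 0, nat_lit 0, nat_lit 0, nat_lit 0, nat_lit 0, nat_lit 0, nat_lit 0, nat_lit 0, nat_lit 0, nat_lit 0, nat_lit 0, nat_lit 0, nat_lit 0, nat_lit 0, nat_lit 0, nat_lit 0, nat_lit 0, nat_lit 0, [],
 C1.Rw.none, C1.Rw.none,
 zbF0, []⟩
theorem r_NL_650_600_0 (h : EB TB.env) : Dead (RC.box ⟨false, 20, 260, 280, 240, 260, 0, 0, [80]⟩ 0 80) := chkB_sound h (refs := [b_NL_650_600_0_0, b_NL_650_600_0_1, b_NL_650_600_0_2, b_NL_650_600_0_3, b_NL_650_600_0_4]) (refs_cons (d_NL_650_600_0_0 h) (refs_cons (d_NL_650_600_0_1 h) (refs_cons (d_NL_650_600_0_2 h) (refs_cons (d_NL_650_600_0_3 h) (refs_cons (d_NL_650_600_0_4 h) (refs_nil)))))) (T :=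
(.trZ (nat_lit 0) (nat_lit 100) (nat_lit 97) (nat_lit 49) (nat_lit 24) (.spl (nat_lit 6) (nat_lit 68)
(.spl (nat_lit 6) (nat_lit 40)
(.st (nat_lit 0)
(.ref (nat_lit 0))
(.gv
(.st (nat_lit 1)
(.ref (nat_lit 1))
(.ref (nat_lit 2)))
(.ref (nat_lit 3))))
(.ref (nat_lit 4)))
(.leaf t02_l73)))) (by decide +kernel)
theorem done_NL_650_600_0 (h : EB TB.env) : RC.Done ⟨false, 20, 260, 280, 240, 260, 0, 0, [80]⟩ := RC.done1 (r_NL_650_600_0 h) (t_NL_650_600_0 h)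
theorem t_NL_650_650_0 (h : EB TB.env) : RC.Tail ⟨false, 20, 260, 280, 260, 280, 0, 0, [92]⟩ := RC.tail_chk h (b := ⟨nat_lit 20, nat_lit 46, nat_lit 5, nat_lit 5, nat_lit 20, nat_lit 203, nat_lit 0, nat_lit 29, nat_lit 0⟩) (by decide +kernel)
noncomputable def t02_l74 : Lf2 := ⟨nat_lit 0, nat_lit 5, [nat_lit 4, nat_lit 5, nat_lit 5, nat_lit 20], false, nat_lit 0, nat_lit 0, nat_lit 0, nat_lit 0, ⟨nat_lit 1000, nat_lit 0, nat_lit 0, nat_lit 0, nat_lit 0, nat_lit 0, nat_lit 0, nat_lit 0, nat_lit 0, nat_lit 0, nat_lit 0, nat_lit 0, nat_lit 0, nat_lit 0, nat_lit 0, nat_lit 0, false, false⟩,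
 nat_lit 0, nat_lit 11433, nat_lit 0, nat_lit 0, nat_lit 6655, nat_lit 5855, nat_lit 2364, nat_lit 0, nat_lit 0, nat_lit 2275, nat_lit 0, nat_lit 0, nat_lit 0, nat_lit 0, nat_lit 0, nat_lit 0, nat_lit 0, nat_lit 0, [],
 ⟨t02_k30, nat_lit 0, nat_lit 0, nat_lit 662, nat_lit 0, nat_lit 1218726, [nat_lit 4688000000, nat_lit 7968000000], [], [nat_lit 32242692850, nat_lit 32413463725, nat_lit 36804983980, nat_lit 36944223910], nat_lit 1271250, nat_lit 1271250, nat_lit 1271250, nat_lit 1271250, nat_lit 0, nat_lit 0, [nat_lit 1100000, nat_lit 1785000], [nat_lit 39, nat_lit 40, nat_lit 20, nat_lit 80, nat_lit 7, nat_lit 250, nat_lit 0, nat_lit 8]⟩, ⟨t02_k30, nat_lit 0, nat_lit 0, nat_lit 182, nat_lit 0, nat_lit 0, [nat_lit 4688000000, nat_lit 7968000000], [], [nat_lit 23934476180, nat_lit 24481935070, nat_lit 34407102420, nat_lit 34873150550], nat_lit 0, nat_lit 0, nat_lit 0, nat_lit 0, nat_lit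 0, nat_lit 0, [], [nat_lit 39, nat_lit 40, nat_lit 20, nat_lit 80, nat_lit 7, nat_lit 203, nat_lit 0, nat_lit 6]⟩,
 zbF0, []⟩
noncomputable def t02_l75 : Lf2 := ⟨nat_lit 0, nat_lit 5, [nat_lit 4, nat_lit 5, nat_lit 5, nat_lit 20], false, nat_lit 0, nat_lit 0, nat_lit 0, nat_lit 0, ⟨nat_lit 1000, nat_lit 0, nat_lit 0, nat_lit 0, nat_lit 0, nat_lit 0, nat_lit 0, nat_lit 0, nat_lit 0, nat_lit 0, nat_lit 0, nat_lit 0, nat_lit 0, nat_lit 0, nat_lit 0, nat_lit 0, false, false⟩,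
 nat_lit 0, nat_lit 11123, nat_lit 0, nat_lit 0, nat_lit 6774, nat_lit 5667, nat_lit 1545, nat_lit 0, nat_lit 0, nat_lit 2961, nat_lit 0, nat_lit 0, nat_lit 0, nat_lit 41391871024099, nat_lit 0, nat_lit 0, nat_lit 0, nat_lit 0, [],
 ⟨t02_k31, nat_lit 0, nat_lit 0, nat_lit 727, nat_lit 0, nat_lit 1335265, [nat_lit 4688000000, nat_lit 7968000000], [], [nat_lit 33741987614, nat_lit 33906465724, nat_lit 37641531826, nat_lit 37746820960], nat_lit 1271250, nat_lit 1271250, nat_lit 1271250, nat_lit 1271250, nat_lit 0, nat_lit 0, [nat_lit 1100000, nat_lit 1785000], [nat_lit 39, nat_lit 40, nat_lit 20, nat_lit 80, nat_lit 7, nat_lit 267, nat_lit 0, nat_lit 8]⟩, ⟨t02_k30, nat_lit 0, nat_lit 0, nat_lit 183, nat_lit 0, nat_lit 0, [nat_lit 4688000000, nat_lit 7968000000], [], [nat_lit 23024131172, nat_lit 24102686184, nat_lit 33925784068, nat_lit 34847274872], nat_lit 0, nat_lit 0, nat_lit 0, nat_lit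 0, nat_lit 0, nat_lit 0, [], [nat_lit 39, nat_lit 40, nat_lit 20, nat_lit 80, nat_lit 7, nat_lit 203, nat_lit 0, nat_lit 6]⟩,
 zbF0, []⟩
noncomputable def t02_l76 : Lf2 := ⟨nat_lit 0, nat_lit 5, [nat_lit 4, nat_lit 5, nat_lit 5, nat_lit 20], false, nat_lit 0, nat_lit 0, nat_lit 0, nat_lit 0, ⟨nat_lit 73, nat_lit 927, nat_lit 0, nat_lit 6, nat_lit 182, nat_lit 0, nat_lit 0, nat_lit 0, nat_lit 0, nat_lit 0, nat_lit 0, nat_lit 0, nat_lit 0, nat_lit 0, nat_lit 0, nat_lit 5000000, false, false⟩,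
 nat_lit 6951, nat_lit 0, nat_lit 0, nat_lit 0, nat_lit 4045, nat_lit 872, nat_lit 404, nat_lit 0, nat_lit 0, nat_lit 23, nat_lit 0, nat_lit 0, nat_lit 0, nat_lit 21241124983811, nat_lit 0, nat_lit 927000, nat_lit 0, nat_lit 0, [(nat_lit 9, [(nat_lit 2, nat_lit 927)])],
 ⟨t02_k32, nat_lit 0, nat_lit 0, nat_lit 509, nat_lit 0, nat_lit 681709, [nat_lit 2811257600, nat_lit 2615418401, nat_lit 2105400599], [], [nat_lit 28636665820, nat_lit 26943046276, nat_lit 29210047652, nat_lit 28492643503], nat_lit 1271250, nat_lit 1271250, nat_lit 205650, nat_lit 1715250, nat_lit 0, nat_lit 0, [nat_lit 1100000, nat_lit 1442500, nat_lit 1271250], [nat_lit 9, nat_lit 40, nat_lit 20, nat_lit 80, nat_lit 2, nat_lit 272, nat_lit 60, nat_lit 9]⟩, ⟨t02_k32, nat_lit 0, nat_lit 0, nat_lit 509, nat_lit 0, nat_lit 681709, [nat_lit 342224000, nat_lit 456250000, nat_lit 581664000], [], [nat_lit 2530408908, nat_lit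 2077897705, nat_lit 2222055126, nat_lit 1926761664], nat_lit 1271250, nat_lit 1271250, nat_lit 205650, nat_lit 1715250, nat_lit 0, nat_lit 0, [nat_lit 1100000, nat_lit 1442500, nat_lit 1271250], [nat_lit 9, nat_lit 40, nat_lit 20, nat_lit 80, nat_lit 2, nat_lit 272, nat_lit 60, nat_lit 9]⟩,
 ⟨nat_lit 5477, nat_lit 5917, ⟨.ofNat (nat_lit 242029), .ofNat (nat_lit 642507), .ofNat (nat_lit 263368), .ofNat (nat_lit 663838), .ofNat (nat_lit 256844), .ofNat (nat_lit 638960), .ofNat (nat_lit 278201), .ofNat (nat_lit 660309)⟩, ⟨.ofNat (nat_lit 0), .ofNat (nat_lit 0), .ofNat (nat_lit 0), .ofNat (nat_lit 0), .ofNat (nat_lit 0), .ofNat (nat_lit 0), .ofNat (nat_lit 0), .ofNat (nat_lit 0)⟩⟩, []⟩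
noncomputable def t02_l77 : Lf2 := ⟨nat_lit 0, nat_lit 5, [nat_lit 4, nat_lit 5, nat_lit 5, nat_lit 20], false, nat_lit 0, nat_lit 0, nat_lit 0, nat_lit 0, ⟨nat_lit 1000, nat_lit 0, nat_lit 0, nat_lit 0, nat_lit 0, nat_lit 0, nat_lit 0, nat_lit 0, nat_lit 0, nat_lit 0, nat_lit 0, nat_lit 0, nat_lit 0, nat_lit 0, nat_lit 0, nat_lit 0, false, false⟩,
 nat_lit 12583, nat_lit 0, nat_lit 0, nat_lit 0, nat_lit 7324, nat_lit 7324, nat_lit 617, nat_lit 0, nat_lit 0, nat_lit 1726, nat_lit 0, nat_lit 0, nat_lit 0, nat_lit 0, nat_lit 0, nat_lit 0, nat_lit 0, nat_lit 0, [],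
 ⟨t02_k30, nat_lit 0, nat_lit 0, nat_lit 437, nat_lit 0, nat_lit 681709, [nat_lit 4688000000, nat_lit 7968000000], [], [nat_lit 35054115120, nat_lit 35498467664, nat_lit 40567152376, nat_lit 40907712000], nat_lit 1271250, nat_lit 1271250, nat_lit 1271250, nat_lit 1271250, nat_lit 0, nat_lit 0, [nat_lit 1100000, nat_lit 1785000], [nat_lit 39, nat_lit 40, nat_lit 20, nat_lit 80, nat_lit 7, nat_lit 203, nat_lit 0, nat_lit 6]⟩, ⟨t02_k30, nat_lit 0, nat_lit 0, nat_lit 437, nat_lit 0, nat_lit 681709, [nat_lit 4688000000, nat_lit 7968000000], [], [nat_lit 29564565120, nat_lit 30008917664, nat_lit 38168042096, nat_lit 39183007584], nat_lit 1271250, nat_lit 1271250, nat_lit 1271250, nat_lit 1271250, nat_lit 0, nat_lit 0, [nat_lit 1100000, nat_lit 1785000], [nat_lit 39, nat_lit 40, nat_lit 20, nat_lit 80, nat_lit 7, nat_lit 203, nat_lit 0, nat_lit 6]⟩,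
 zbF0, []⟩
noncomputable def t02_l78 : Lf2 := ⟨nat_lit 1, nat_lit 5, [nat_lit 4, nat_lit 5, nat_lit 5, nat_lit 20], false, nat_lit 0, nat_lit 0, nat_lit 0, nat_lit 0, zbN0,
 nat_lit 0, nat_lit 0, nat_lit 0, nat_lit 0, nat_lit 0, nat_lit 0, nat_lit 0, nat_lit 0, nat_lit 0, nat_lit 0, nat_lit 0, nat_lit 0, nat_lit 0, nat_lit 0, nat_lit 0, nat_lit 0, nat_lit 0, nat_lit 0, [],
 C1.Rw.none, C1.Rw.none,
 zbF0, []⟩
theorem r_NL_650_650_0 (h : EB TB.env) : Dead (RC.box ⟨false, 20, 260, 280, 260, 280, 0, 0, [92]⟩ 0 92) := chkB_sound h (refs := [b_NL_650_650_0_0, b_NL_650_650_0_1, b_NL_650_650_0_2, b_NL_650_650_0_3, b_NL_650_650_0_4]) (refs_cons (d_NL_650_650_0_0 h) (refs_cons (d_NL_650_650_0_1 h) (refs_cons (d_NL_650_650_0_2 h) (refs_cons (d_NL_650_650_0_3 h) (refs_cons (d_NL_650_650_0_4 h) (refs_nil)))))) (T :=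
(.trZ (nat_lit 0) (nat_lit 100) (nat_lit 100) (nat_lit 60) (nat_lit 36) (.spl (nat_lit 6) (nat_lit 80)
(.spl (nat_lit 6) (nat_lit 40)
(.st (nat_lit 0)
(.ref (nat_lit 0))
(.gv
(.st (nat_lit 1)
(.spl (nat_lit 2) (nat_lit 240)
(.ref (nat_lit 1))
(.spl (nat_lit 0) (nat_lit 270)
(.ord (.leaf t02_l74))
(.leaf t02_l75)))
(.ref (nat_lit 2)))
(.st (nat_lit 1)
(.ref (nat_lit 3))
(.spl (nat_lit 2) (nat_lit 240)
(.leaf t02_l76)
(.leaf t02_l77)))))
(.ref (nat_lit 4)))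
(.leaf t02_l78)))) (by decide +kernel)
theorem done_NL_650_650_0 (h : EB TB.env) : RC.Done ⟨false, 20, 260, 280, 260, 280, 0, 0, [92]⟩ := RC.done1 (r_NL_650_650_0 h) (t_NL_650_650_0 h)
theorem t_N_700_400_0 (h : EB TB.env) : RC.Tail ⟨false, 40, 280, 320, 160, 200, 0, 0, [88]⟩ := RC.tail_chk h (b := ⟨nat_lit 20, nat_lit 44, nat_lit 5, nat_lit 5, nat_lit 20, nat_lit 203, nat_lit 0, nat_lit 31, nat_lit 0⟩) (by decide +kernel)
theorem r_N_700_400_0 (h : EB TB.env) : Dead (RC.box ⟨false, 40, 280, 320, 160, 200, 0, 0, [88]⟩ 0 88) := chkB_sound h (refs := [b_N_700_400_0_0, b_N_700_400_0_1, b_N_700_400_0_2, b_N_700_400_0_3, b_N_700_400_0_4]) (refs_cons (d_N_700_400_0_0 h) (refs_cons (d_N_700_400_0_1 h) (refs_cons (d_N_700_400_0_2 h) (refs_cons (d_N_700_400_0_3 h) (refs_cons (d_N_700_400_0_4 h) (refs_nil)))))) (T :=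
(.trZ (nat_lit 0) (nat_lit 100) (nat_lit 94) (nat_lit 21) (nat_lit 4) (.trX (nat_lit 13) (nat_lit 92) (nat_lit 40) (nat_lit 100) (nat_lit 384) (.spl (nat_lit 6) (nat_lit 40)
(.st (nat_lit 0)
(.ref (nat_lit 0))
(.ref (nat_lit 1)))
(.spl (nat_lit 6) (nat_lit 80)
(.st (nat_lit 0)
(.ref (nat_lit 2))
(.ref (nat_lit 3)))
(.ref (nat_lit 4))))))) (by decide +kernel)
theorem done_N_700_400_0 (h : EB TB.env) : RC.Done ⟨false, 40, 280, 320, 160, 200, 0, 0, [88]⟩ := RC.done1 (r_N_700_400_0 h) (t_N_700_400_0 h)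
theorem t_N_700_500_0 (h : EB TB.env) : RC.Tail ⟨false, 40, 280, 320, 200, 240, 0, 0, [100]⟩ := RC.tail_chk h (b := ⟨nat_lit 20, nat_lit 50, nat_lit 5, nat_lit 5, nat_lit 20, nat_lit 203, nat_lit 0, nat_lit 30, nat_lit 0⟩) (by decide +kernel)
theorem r_N_700_500_0 (h : EB TB.env) : Dead (RC.box ⟨false, 40, 280, 320, 200, 240, 0, 0, [100]⟩ 0 100) := chkB_sound h (refs := [b_N_700_500_0_0, b_N_700_500_0_1, b_N_700_500_0_2, b_N_700_500_0_3, b_N_700_500_0_4, b_N_700_500_0_5, b_N_700_500_0_6]) (refs_cons (d_N_700_500_0_0 h) (refs_cons (d_N_700_500_0_1 h) (refs_cons (d_N_700_500_0_2 h) (refs_cons (d_N_700_500_0_3 h) (refs_cons (d_N_700_500_0_4 h) (refs_cons (d_N_700_500_0_5 h) (refs_cons (d_N_700_500_0_6 h) (refs_nil)))))))) (T :=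
(.trZ (nat_lit 0) (nat_lit 100) (nat_lit 92) (nat_lit 40) (nat_lit 16) (.trX (nat_lit 13) (nat_lit 94) (nat_lit 21) (nat_lit 100) (nat_lit 396) (.spl (nat_lit 6) (nat_lit 40)
(.st (nat_lit 0)
(.ref (nat_lit 0))
(.gv
(.st (nat_lit 1)
(.ref (nat_lit 1))
(.ref (nat_lit 2)))
(.ref (nat_lit 3))))
(.spl (nat_lit 6) (nat_lit 80)
(.st (nat_lit 0)
(.ref (nat_lit 4))
(.ref (nat_lit 5)))
(.ref (nat_lit 6))))))) (by decide +kernel)
theorem done_N_700_500_0 (h : EB TB.env) : RC.Done ⟨false, 40, 280, 320, 200, 240, 0, 0, [100]⟩ := RC.done1 (r_N_700_500_0 h) (t_N_700_500_0 h)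
theorem t_N_700_600_0 (h : EB TB.env) : RC.Tail ⟨false, 40, 280, 320, 240, 280, 0, 0, [120]⟩ := RC.tail_chk h (b := ⟨nat_lit 20, nat_lit 60, nat_lit 5, nat_lit 5, nat_lit 20, nat_lit 203, nat_lit 0, nat_lit 29, nat_lit 0⟩) (by decide +kernel)
noncomputable def t02_l79 : Lf2 := ⟨nat_lit 0, nat_lit 10, [nat_lit 0, nat_lit 5, nat_lit 5, nat_lit 20], false, nat_lit 0, nat_lit 0, nat_lit 0, nat_lit 0, ⟨nat_lit 177, nat_lit 0, nat_lit 823, nat_lit 6, nat_lit 116, nat_lit 0, nat_lit 0, nat_lit 0, nat_lit 0, nat_lit 215, nat_lit 126150, nat_lit 302, nat_lit 61784497, nat_lit 0, nat_lit 0, nat_lit 1367346, false, false⟩,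
 nat_lit 0, nat_lit 8403, nat_lit 0, nat_lit 0, nat_lit 5347, nat_lit 1279, nat_lit 247, nat_lit 29, nat_lit 0, nat_lit 322, nat_lit 0, nat_lit 0, nat_lit 0, nat_lit 0, nat_lit 82, nat_lit 823000, nat_lit 0, nat_lit 0, [(nat_lit 12, [(nat_lit 6, nat_lit 823)])],
 ⟨t02_k33, nat_lit 0, nat_lit 0, nat_lit 563, nat_lit 0, nat_lit 587667, [nat_lit 2852121601, nat_lit 2398235200, nat_lit 411759600], [], [nat_lit 15891067829, nat_lit 16573178484, nat_lit 14622834836, nat_lit 15117088440], nat_lit 1271250, nat_lit 1271250, nat_lit 205650, nat_lit 490000, nat_lit 0, nat_lit 0, [nat_lit 780000, nat_lit 1435000, nat_lit 1271250], [nat_lit 8, nat_lit 40, nat_lit 80, nat_lit 80, nat_lit 1, nat_lit 226, nat_lit 20, nat_lit 7]⟩, ⟨t02_k34, nat_lit 0, nat_lit 0, nat_lit 0, nat_lit 0, nat_lit 0, [nat_lit 829776000, nat_lit 1410336000, nat_lit 2101344000], [], [nat_lit 4119044859, nat_lit 4393203218, nat_lit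 3672939916, nat_lit 3967722446], nat_lit 0, nat_lit 0, nat_lit 0, nat_lit 0, nat_lit 0, nat_lit 0, [], [nat_lit 21, nat_lit 40, nat_lit 80, nat_lit 80]⟩,
 ⟨nat_lit 5244, nat_lit 5478, ⟨.ofNat (nat_lit 235487), .ofNat (nat_lit 317913), .ofNat (nat_lit 256844), .ofNat (nat_lit 339271), .ofNat (nat_lit 242768), .ofNat (nat_lit 323256), .ofNat (nat_lit 264153), .ofNat (nat_lit 344641)⟩, ⟨.ofNat (nat_lit 0), .ofNat (nat_lit 0), .ofNat (nat_lit 0), .ofNat (nat_lit 0), .ofNat (nat_lit 0), .ofNat (nat_lit 0), .ofNat (nat_lit 0), .ofNat (nat_lit 0)⟩⟩, [⟨nat_lit 0, nat_lit 100, nat_lit 94, nat_lit 73, nat_lit 424761905⟩]⟩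
noncomputable def t02_l80 : Lf2 := ⟨nat_lit 0, nat_lit 10, [nat_lit 0, nat_lit 5, nat_lit 5, nat_lit 20], false, nat_lit 0, nat_lit 0, nat_lit 0, nat_lit 0, ⟨nat_lit 1000, nat_lit 0, nat_lit 0, nat_lit 0, nat_lit 0, nat_lit 0, nat_lit 0, nat_lit 0, nat_lit 0, nat_lit 0, nat_lit 0, nat_lit 0, nat_lit 0, nat_lit 0, nat_lit 0, nat_lit 0, false, false⟩,
 nat_lit 0, nat_lit 20649, nat_lit 0, nat_lit 0, nat_lit 13140, nat_lit 7380, nat_lit 1727, nat_lit 85, nat_lit 0, nat_lit 1741, nat_lit 0, nat_lit 0, nat_lit 0, nat_lit 0, nat_lit 0, nat_lit 0, nat_lit 0, nat_lit 0, [],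
 ⟨t02_k33, nat_lit 0, nat_lit 0, nat_lit 580, nat_lit 0, nat_lit 658445, [nat_lit 4302000000, nat_lit 7950000000, nat_lit 12222000000], [], [nat_lit 24381275872, nat_lit 25200978165, nat_lit 21634806880, nat_lit 22428663220], nat_lit 1271250, nat_lit 1271250, nat_lit 279600, nat_lit 490000, nat_lit 0, nat_lit 0, [nat_lit 780000, nat_lit 1435000, nat_lit 1271250], [nat_lit 8, nat_lit 40, nat_lit 80, nat_lit 80, nat_lit 1, nat_lit 226, nat_lit 20, nat_lit 7]⟩, ⟨t02_k35, nat_lit 0, nat_lit 0, nat_lit 0, nat_lit 0, nat_lit 0, [nat_lit 4688000000, nat_lit 7968000000, nat_lit 9842000000], [], [nat_lit 21168025460, nat_lit 23175639040, nat_lit 19370782480, nat_lit 21057502400], nat_lit 0, nat_lit 0, nat_lit 0, nat_lit 0, nat_lit 0, nat_lit 0, [], [nat_lit 29, nat_lit 40, nat_lit 80, nat_lit 80]⟩,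
 zbF0, [⟨nat_lit 0, nat_lit 100, nat_lit 97, nat_lit 76, nat_lit 1407843664⟩]⟩
noncomputable def t02_l81 : Lf2 := ⟨nat_lit 3, nat_lit 10, [nat_lit 0, nat_lit 5, nat_lit 5, nat_lit 20], false, nat_lit 0, nat_lit 0, nat_lit 0, nat_lit 0, zbN0,
 nat_lit 0, nat_lit 0, nat_lit 0, nat_lit 0, nat_lit 0, nat_lit 0, nat_lit 0, nat_lit 0, nat_lit 0, nat_lit 0, nat_lit 0, nat_lit 0, nat_lit 0, nat_lit 0, nat_lit 0, nat_lit 0, nat_lit 0, nat_lit 0, [],
 C1.Rw.none, ⟨t02_k34, nat_lit 0, nat_lit 0, nat_lit 348, nat_lit 0, nat_lit 0, [], [], [], nat_lit 0, nat_lit 0, nat_lit 0, nat_lit 0, nat_lit 0, nat_lit 0, [], [nat_lit 21, nat_lit 40, nat_lit 80, nat_lit 80, nat_lit 14, nat_lit 401, nat_lit 175, nat_lit 11]⟩,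
 zbF0, []⟩
noncomputable def t02_l82 : Lf2 := ⟨nat_lit 0, nat_lit 10, [nat_lit 0, nat_lit 5, nat_lit 5, nat_lit 20], false, nat_lit 0, nat_lit 0, nat_lit 0, nat_lit 0, ⟨nat_lit 433, nat_lit 567, nat_lit 0, nat_lit 6, nat_lit 239, nat_lit 0, nat_lit 0, nat_lit 0, nat_lit 0, nat_lit 0, nat_lit 0, nat_lit 0, nat_lit 0, nat_lit 0, nat_lit 0, nat_lit 5000000, false, false⟩,
 nat_lit 0, nat_lit 0, nat_lit 0, nat_lit 0, nat_lit 0, nat_lit 2345, nat_lit 0, nat_lit 0, nat_lit 374, nat_lit 796, nat_lit 0, nat_lit 0, nat_lit 0, nat_lit 0, nat_lit 0, nat_lit 226800, nat_lit 0, nat_lit 0, [(nat_lit 12, [(nat_lit 1, nat_lit 567)]), (nat_lit 15, [(nat_lit 1, nat_lit 567)])],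
 ⟨t02_k36, nat_lit 0, nat_lit 0, nat_lit 0, nat_lit 0, nat_lit 1607852, [nat_lit 2574043800, nat_lit 3571463600, nat_lit 5756424800], [], [nat_lit 13260983000, nat_lit 14299757601, nat_lit 22955988000, nat_lit 22955988000], nat_lit 1271250, nat_lit 1271250, nat_lit 205650, nat_lit 2899250, nat_lit 0, nat_lit 0, [nat_lit 780000, nat_lit 1100000, nat_lit 2127500], [nat_lit 42, nat_lit 40, nat_lit 80, nat_lit 80]⟩, ⟨t02_k37, nat_lit 0, nat_lit 0, nat_lit 0, nat_lit 0, nat_lit 0, [nat_lit 2029904000, nat_lit 2706250000, nat_lit 5140576000], [], [nat_lit 11212455945, nat_lit 12195666735, nat_lit 15117538592, nat_lit 15524147000], nat_lit 0, nat_lit 0, nat_lit 0, nat_lit 0, nat_lit 0, nat_lit 0, [], [nat_lit 48, nat_lit 40, nat_lit 80, nat_lit 80]⟩,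
 ⟨nat_lit 4472, nat_lit 5478, ⟨.ofNat (nat_lit 235487), .ofNat (nat_lit 917115), .ofNat (nat_lit 278138), .ofNat (nat_lit 959740), .ofNat (nat_lit 264421), .ofNat (nat_lit 882759), .ofNat (nat_lit 307491), .ofNat (nat_lit 925804)⟩, ⟨.ofNat (nat_lit 0), .ofNat (nat_lit 0), .ofNat (nat_lit 0), .ofNat (nat_lit 0), .ofNat (nat_lit 0), .ofNat (nat_lit 0), .ofNat (nat_lit 0), .ofNat (nat_lit 0)⟩⟩, []⟩
noncomputable def t02_l83 : Lf2 := ⟨nat_lit 3, nat_lit 10, [nat_lit 0, nat_lit 5, nat_lit 5, nat_lit 20], false, nat_lit 0, nat_lit 0, nat_lit 0, nat_lit 0, zbN0,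
 nat_lit 0, nat_lit 0, nat_lit 0, nat_lit 0, nat_lit 0, nat_lit 0, nat_lit 0, nat_lit 0, nat_lit 0, nat_lit 0, nat_lit 0, nat_lit 0, nat_lit 0, nat_lit 0, nat_lit 0, nat_lit 0, nat_lit 0, nat_lit 0, [],
 C1.Rw.none, ⟨t02_k34, nat_lit 0, nat_lit 0, nat_lit 348, nat_lit 0, nat_lit 0, [], [], [], nat_lit 0, nat_lit 0, nat_lit 0, nat_lit 0, nat_lit 0, nat_lit 0, [], [nat_lit 21, nat_lit 40, nat_lit 80, nat_lit 80, nat_lit 14, nat_lit 401, nat_lit 175, nat_lit 11]⟩,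
 zbF0, []⟩
noncomputable def t02_l84 : Lf2 := ⟨nat_lit 0, nat_lit 10, [nat_lit 0, nat_lit 5, nat_lit 5, nat_lit 20], false, nat_lit 0, nat_lit 0, nat_lit 0, nat_lit 0, ⟨nat_lit 0, nat_lit 1000, nat_lit 0, nat_lit 6, nat_lit 153, nat_lit 0, nat_lit 0, nat_lit 0, nat_lit 0, nat_lit 0, nat_lit 0, nat_lit 0, nat_lit 0, nat_lit 0, nat_lit 0, nat_lit 5000000, false, false⟩,
 nat_lit 0, nat_lit 8417, nat_lit 0, nat_lit 0, nat_lit 5356, nat_lit 0, nat_lit 118, nat_lit 0, nat_lit 0, nat_lit 0, nat_lit 0, nat_lit 0, nat_lit 0, nat_lit 0, nat_lit 12, nat_lit 1000000, nat_lit 0, nat_lit 0, [(nat_lit 12, [(nat_lit 2, nat_lit 1000)]), (nat_lit 15, [(nat_lit 2, nat_lit 1000)])],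
 ⟨t02_k33, nat_lit 0, nat_lit 0, nat_lit 637, nat_lit 0, nat_lit 790795, [nat_lit 2479200001, nat_lit 2186400000, nat_lit 42000000], [], [nat_lit 21785846422, nat_lit 23168192582, nat_lit 23131854868, nat_lit 22045660753], nat_lit 1271250, nat_lit 1271250, nat_lit 205650, nat_lit 1100001, nat_lit 0, nat_lit 0, [nat_lit 780000, nat_lit 1435000, nat_lit 1271250], [nat_lit 8, nat_lit 40, nat_lit 80, nat_lit 80, nat_lit 1, nat_lit 249, nat_lit 40, nat_lit 7]⟩, ⟨t02_k34, nat_lit 0, nat_lit 0, nat_lit 821, nat_lit 0, nat_lit 969121, [nat_lit 0, nat_lit 0, nat_lit 0], [], [nat_lit 0, nat_lit 0, nat_lit 0, nat_lit 0], nat_lit 1271250, nat_lit 1271250, nat_lit 205650, nat_lit 1100001, nat_lit 0, nat_lit 0, [nat_lit 1100000, nat_lit 1785000, nat_lit 1271250], [nat_lit 21, nat_lit 40, nat_lit 80, nat_lit 80, nat_lit 14, nat_lit 345, nat_lit 125, nat_lit 9]⟩,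
 ⟨nat_lit 4472, nat_lit 5478, ⟨.ofNat (nat_lit 235487), .ofNat (nat_lit 467727), .ofNat (nat_lit 278138), .ofNat (nat_lit 510352), .ofNat (nat_lit 264421), .ofNat (nat_lit 475101), .ofNat (nat_lit 307491), .ofNat (nat_lit 518145)⟩, ⟨.ofNat (nat_lit 0), .ofNat (nat_lit 0), .ofNat (nat_lit 0), .ofNat (nat_lit 0), .ofNat (nat_lit 0), .ofNat (nat_lit 0), .ofNat (nat_lit 0), .ofNat (nat_lit 0)⟩⟩, [⟨nat_lit 0, nat_lit 100, nat_lit 87, nat_lit 95, nat_lit 1496717⟩]⟩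
noncomputable def t02_l85 : Lf2 := ⟨nat_lit 0, nat_lit 10, [nat_lit 0, nat_lit 5, nat_lit 5, nat_lit 20], false, nat_lit 0, nat_lit 0, nat_lit 0, nat_lit 0, ⟨nat_lit 298, nat_lit 702, nat_lit 0, nat_lit 6, nat_lit 226, nat_lit 0, nat_lit 0, nat_lit 0, nat_lit 0, nat_lit 0, nat_lit 0, nat_lit 0, nat_lit 0, nat_lit 0, nat_lit 0, nat_lit 5000000, false, false⟩,
 nat_lit 7416, nat_lit 2546, nat_lit 0, nat_lit 0, nat_lit 6339, nat_lit 3926, nat_lit 365, nat_lit 0, nat_lit 0, nat_lit 551, nat_lit 0, nat_lit 0, nat_lit 0, nat_lit 0, nat_lit 0, nat_lit 702000, nat_lit 0, nat_lit 0, [(nat_lit 12, [(nat_lit 2, nat_lit 702)]), (nat_lit 15, [(nat_lit 2, nat_lit 702)])],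
 ⟨t02_k33, nat_lit 0, nat_lit 0, nat_lit 572, nat_lit 0, nat_lit 790795, [nat_lit 2617346401, nat_lit 3228872800, nat_lit 2726528000], [], [nat_lit 21789828944, nat_lit 23640300196, nat_lit 23770865585, nat_lit 24913026720], nat_lit 1271250, nat_lit 1271250, nat_lit 1100001, nat_lit 1785000, nat_lit 0, nat_lit 0, [nat_lit 780000, nat_lit 1435000, nat_lit 1271250], [nat_lit 8, nat_lit 40, nat_lit 80, nat_lit 80, nat_lit 1, nat_lit 272, nat_lit 60, nat_lit 8]⟩, ⟨t02_k34, nat_lit 0, nat_lit 0, nat_lit 723, nat_lit 0, nat_lit 969121, [nat_lit 1397024000, nat_lit 2374464000, nat_lit 3537856000], [], [nat_lit 7907611920, nat_lit 7245977828, nat_lit 11927369832, nat_lit 8240436648], nat_lit 1271250, nat_lit 1271250, nat_lit 1100001, nat_lit 1785000, nat_lit 0, nat_lit 0, [nat_lit 1100000, nat_lit 1785000, nat_lit 1271250], [nat_lit 21, nat_lit 40, nat_lit 80, nat_lit 80, nat_lit 14, nat_lit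 373, nat_lit 150, nat_lit 10]⟩,
 ⟨nat_lit 4472, nat_lit 5478, ⟨.ofNat (nat_lit 467727), .ofNat (nat_lit 617523), .ofNat (nat_lit 510352), .ofNat (nat_lit 660148), .ofNat (nat_lit 475101), .ofNat (nat_lit 610987), .ofNat (nat_lit 518145), .ofNat (nat_lit 654031)⟩, ⟨.ofNat (nat_lit 0), .ofNat (nat_lit 0), .ofNat (nat_lit 0), .ofNat (nat_lit 0), .ofNat (nat_lit 0), .ofNat (nat_lit 0), .ofNat (nat_lit 0), .ofNat (nat_lit 0)⟩⟩, []⟩
noncomputable def t02_l86 : Lf2 := ⟨nat_lit 0, nat_lit 10, [nat_lit 0, nat_lit 5, nat_lit 5, nat_lit 20], false, nat_lit 0, nat_lit 0, nat_lit 0, nat_lit 0, ⟨nat_lit 531, nat_lit 469, nat_lit 0, nat_lit 6, nat_lit 311, nat_lit 0, nat_lit 0, nat_lit 0, nat_lit 0, nat_lit 0, nat_lit 0, nat_lit 0, nat_lit 0, nat_lit 0, nat_lit 0, nat_lit 5000000, true, true⟩,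
 nat_lit 8623, nat_lit 0, nat_lit 0, nat_lit 0, nat_lit 5487, nat_lit 4565, nat_lit 360, nat_lit 0, nat_lit 0, nat_lit 457, nat_lit 0, nat_lit 0, nat_lit 0, nat_lit 0, nat_lit 0, nat_lit 469000, nat_lit 0, nat_lit 0, [(nat_lit 12, [(nat_lit 2, nat_lit 469)]), (nat_lit 15, [(nat_lit 2, nat_lit 469)])],
 ⟨t02_k33, nat_lit 0, nat_lit 0, nat_lit 537, nat_lit 0, nat_lit 790795, [nat_lit 2837950801, nat_lit 4231611601, nat_lit 5088216000], [], [nat_lit 30783181224, nat_lit 31898016720, nat_lit 35688951713, nat_lit 36630214584], nat_lit 1271250, nat_lit 1271250, nat_lit 1271250, nat_lit 1271250, nat_lit 0, nat_lit 0, [nat_lit 780000, nat_lit 1435000, nat_lit 1271250], [nat_lit 8, nat_lit 40, nat_lit 80, nat_lit 80, nat_lit 1, nat_lit 317, nat_lit 100, nat_lit 9]⟩, ⟨t02_k34, nat_lit 0, nat_lit 0, nat_lit 699, nat_lit 0, nat_lit 969121, [nat_lit 2489328000, nat_lit 4231008000, nat_lit 6304032000],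 [], [nat_lit 19786853252, nat_lit 20125139384, nat_lit 22403950480, nat_lit 22585098076], nat_lit 1271250, nat_lit 1271250, nat_lit 1271250, nat_lit 1271250, nat_lit 0, nat_lit 0, [nat_lit 1100000, nat_lit 1785000, nat_lit 1271250], [nat_lit 21, nat_lit 40, nat_lit 80, nat_lit 80, nat_lit 14, nat_lit 401, nat_lit 175, nat_lit 10]⟩,
 ⟨nat_lit 4472, nat_lit 5478, ⟨.ofNat (nat_lit 617523), .ofNat (nat_lit 917115), .ofNat (nat_lit 660148), .ofNat (nat_lit 959740), .ofNat (nat_lit 610987), .ofNat (nat_lit 882759), .ofNat (nat_lit 654031), .ofNat (nat_lit 925804)⟩, ⟨.ofNat (nat_lit 0), .ofNat (nat_lit 0), .ofNat (nat_lit 0), .ofNat (nat_lit 0), .ofNat (nat_lit 0), .ofNat (nat_lit 0), .ofNat (nat_lit 0), .ofNat (nat_lit 0)⟩⟩, [⟨nat_lit 13, nat_lit 91, nat_lit 23, nat_lit 100, nat_lit 23794905⟩]⟩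
noncomputable def t02_l87 : Lf2 := ⟨nat_lit 0, nat_lit 10, [nat_lit 0, nat_lit 5, nat_lit 5, nat_lit 20], true, nat_lit 0, nat_lit 0, nat_lit 0, nat_lit 0, ⟨nat_lit 0, nat_lit 0, nat_lit 1000, nat_lit 6, nat_lit 134, nat_lit 0, nat_lit 0, nat_lit 0, nat_lit 0, nat_lit 215, nat_lit 170017, nat_lit 316, nat_lit 60214869, nat_lit 0, nat_lit 0, nat_lit 1639326, false, false⟩,
 nat_lit 0, nat_lit 0, nat_lit 0, nat_lit 4758, nat_lit 3360, nat_lit 0, nat_lit 157, nat_lit 0, nat_lit 0, nat_lit 0, nat_lit 0, nat_lit 0, nat_lit 0, nat_lit 0, nat_lit 86, nat_lit 400000, nat_lit 0, nat_lit 0, [(nat_lit 12, [(nat_lit 5, nat_lit 1000)]), (nat_lit 15, [(nat_lit 5, nat_lit 1000)])],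
 ⟨t02_k33, nat_lit 0, nat_lit 0, nat_lit 292, nat_lit 0, nat_lit 0, [nat_lit 2347200000, nat_lit 1180400000, nat_lit 174400000], [], [nat_lit 15750859290, nat_lit 18456252993, nat_lit 15651168945, nat_lit 17715110385], nat_lit 0, nat_lit 0, nat_lit 0, nat_lit 0, nat_lit 0, nat_lit 0, [], [nat_lit 8, nat_lit 40, nat_lit 80, nat_lit 80, nat_lit 1, nat_lit 238, nat_lit 30, nat_lit 7]⟩, C1.Rw.none,
 ⟨nat_lit 4472, nat_lit 5478, ⟨.ofNat (nat_lit 235487), .ofNat (nat_lit 392815), .ofNat (nat_lit 256814), .ofNat (nat_lit 414138), .ofNat (nat_lit 264421), .ofNat (nat_lit 407143), .ofNat (nat_lit 285957), .ofNat (nat_lit 428676)⟩, ⟨.ofNat (nat_lit 0), .ofNat (nat_lit 0), .ofNat (nat_lit 0), .ofNat (nat_lit 0), .ofNat (nat_lit 0), .ofNat (nat_lit 0), .ofNat (nat_lit 0), .ofNat (nat_lit 0)⟩⟩, [⟨nat_lit 0, nat_lit 100, nat_lit 89, nat_lit 72, nat_lit 131388050⟩]⟩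
noncomputable def t02_l88 : Lf2 := ⟨nat_lit 0, nat_lit 10, [nat_lit 0, nat_lit 5, nat_lit 5, nat_lit 20], false, nat_lit 0, nat_lit 0, nat_lit 0, nat_lit 0, ⟨nat_lit 1000, nat_lit 0, nat_lit 0, nat_lit 0, nat_lit 0, nat_lit 0, nat_lit 0, nat_lit 0, nat_lit 0, nat_lit 0, nat_lit 0, nat_lit 0, nat_lit 0, nat_lit 0, nat_lit 0, nat_lit 0, false, false⟩,
 nat_lit 0, nat_lit 0, nat_lit 0, nat_lit 9686, nat_lit 8978, nat_lit 6892, nat_lit 1236, nat_lit 0, nat_lit 0, nat_lit 0, nat_lit 0, nat_lit 0, nat_lit 0, nat_lit 0, nat_lit 0, nat_lit 0, nat_lit 0, nat_lit 0, [],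
 ⟨t02_k33, nat_lit 0, nat_lit 0, nat_lit 281, nat_lit 0, nat_lit 0, [nat_lit 3282000000, nat_lit 6250000000, nat_lit 9842000000], [], [nat_lit 24807181414, nat_lit 30172297069, nat_lit 22054394600, nat_lit 25769922196], nat_lit 0, nat_lit 0, nat_lit 0, nat_lit 0, nat_lit 0, nat_lit 0, [], [nat_lit 8, nat_lit 40, nat_lit 80, nat_lit 80, nat_lit 1, nat_lit 238, nat_lit 30, nat_lit 7]⟩, ⟨t02_k35, nat_lit 0, nat_lit 0, nat_lit 224, nat_lit 0, nat_lit 0, [nat_lit 4688000000, nat_lit 7968000000, nat_lit 9842000000], [], [nat_lit 29429273005, nat_lit 31154582112, nat_lit 27826262420, nat_lit 29177050840], nat_lit 0, nat_lit 0, nat_lit 0, nat_lit 0, nat_lit 0, nat_lit 0, [], [nat_lit 29, nat_lit 40, nat_lit 80, nat_lit 80, nat_lit 17, nat_lit 317, nat_lit 100, nat_lit 9]⟩,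
 zbF0, [⟨nat_lit 0, nat_lit 100, nat_lit 96, nat_lit 69, nat_lit 983625565⟩]⟩
noncomputable def t02_l89 : Lf2 := ⟨nat_lit 0, nat_lit 10, [nat_lit 0, nat_lit 5, nat_lit 5, nat_lit 20], false, nat_lit 0, nat_lit 0, nat_lit 0, nat_lit 0, ⟨nat_lit 1000, nat_lit 0, nat_lit 0, nat_lit 0, nat_lit 0, nat_lit 0, nat_lit 0, nat_lit 0, nat_lit 0, nat_lit 0, nat_lit 0, nat_lit 0, nat_lit 0, nat_lit 0, nat_lit 0, nat_lit 0, false, false⟩,
 nat_lit 0, nat_lit 0, nat_lit 0, nat_lit 0, nat_lit 8695, nat_lit 1829, nat_lit 0, nat_lit 0, nat_lit 0, nat_lit 0, nat_lit 0, nat_lit 0, nat_lit 0, nat_lit 0, nat_lit 0, nat_lit 0, nat_lit 0, nat_lit 0, [],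
 ⟨t02_k33, nat_lit 0, nat_lit 0, nat_lit 219, nat_lit 0, nat_lit 0, [nat_lit 3282000000, nat_lit 6250000000, nat_lit 9842000000], [], [nat_lit 30208712750, nat_lit 33524253240, nat_lit 44498890560, nat_lit 46322628000], nat_lit 0, nat_lit 0, nat_lit 0, nat_lit 0, nat_lit 0, nat_lit 0, [], [nat_lit 8, nat_lit 40, nat_lit 80, nat_lit 80, nat_lit 1, nat_lit 317, nat_lit 100, nat_lit 9]⟩, ⟨t02_k34, nat_lit 0, nat_lit 0, nat_lit 251, nat_lit 0, nat_lit 0, [nat_lit 4688000000, nat_lit 7968000000, nat_lit 11872000000], [], [nat_lit 35931901110, nat_lit 37421606378, nat_lit 44406505088, nat_lit 45333531896], nat_lit 0, nat_lit 0, nat_lit 0, nat_lit 0, nat_lit 0, nat_lit 0, [], [nat_lit 21, nat_lit 40, nat_lit 80, nat_lit 80, nat_lit 14, nat_lit 401, nat_lit 175, nat_lit 10]⟩,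
 zbF0, []⟩
noncomputable def t02_l90 : Lf2 := ⟨nat_lit 0, nat_lit 10, [nat_lit 0, nat_lit 5, nat_lit 5, nat_lit 20], false, nat_lit 0, nat_lit 0, nat_lit 0, nat_lit 0, ⟨nat_lit 309, nat_lit 691, nat_lit 0, nat_lit 6, nat_lit 239, nat_lit 0, nat_lit 0, nat_lit 0, nat_lit 0, nat_lit 0, nat_lit 0, nat_lit 0, nat_lit 0, nat_lit 0, nat_lit 0, nat_lit 5000000, false, false⟩,
 nat_lit 0, nat_lit 0, nat_lit 0, nat_lit 0, nat_lit 4977, nat_lit 2452, nat_lit 432, nat_lit 0, nat_lit 0, nat_lit 280, nat_lit 0, nat_lit 0, nat_lit 0, nat_lit 0, nat_lit 0, nat_lit 276400, nat_lit 0, nat_lit 0, [(nat_lit 12, [(nat_lit 1, nat_lit 691)]), (nat_lit 15, [(nat_lit 1, nat_lit 691)])],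
 ⟨t02_k33, nat_lit 0, nat_lit 0, nat_lit 292, nat_lit 0, nat_lit 0, [nat_lit 2443402400, nat_lit 3811599200, nat_lit 4862930400], [], [nat_lit 26322496878, nat_lit 28498108378, nat_lit 33043391928, nat_lit 35198359612], nat_lit 0, nat_lit 0, nat_lit 0, nat_lit 0, nat_lit 0, nat_lit 0, [], [nat_lit 8, nat_lit 40, nat_lit 80, nat_lit 80, nat_lit 1, nat_lit 317, nat_lit 100, nat_lit 9]⟩, ⟨t02_k34, nat_lit 0, nat_lit 0, nat_lit 348, nat_lit 0, nat_lit 0, [nat_lit 1448592000, nat_lit 2462112000, nat_lit 3668448000], [], [nat_lit 11459208978, nat_lit 11983153554, nat_lit 12585703016, nat_lit 12813178712], nat_lit 0, nat_lit 0, nat_lit 0, nat_lit 0, nat_lit 0, nat_lit 0, [], [nat_lit 21, nat_lit 40, nat_lit 80, nat_lit 80, nat_lit 14, nat_lit 401, nat_lit 175, nat_lit 11]⟩,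
 ⟨nat_lit 4472, nat_lit 5478, ⟨.ofNat (nat_lit 235487), .ofNat (nat_lit 917115), .ofNat (nat_lit 278138), .ofNat (nat_lit 959740), .ofNat (nat_lit 264421), .ofNat (nat_lit 882759), .ofNat (nat_lit 307491), .ofNat (nat_lit 925804)⟩, ⟨.ofNat (nat_lit 0), .ofNat (nat_lit 0), .ofNat (nat_lit 0), .ofNat (nat_lit 0), .ofNat (nat_lit 0), .ofNat (nat_lit 0), .ofNat (nat_lit 0), .ofNat (nat_lit 0)⟩⟩, []⟩
noncomputable def t02_l91 : Lf2 := ⟨nat_lit 0, nat_lit 10, [nat_lit 0, nat_lit 5, nat_lit 5, nat_lit 20], true, nat_lit 0, nat_lit 0, nat_lit 0, nat_lit 0, ⟨nat_lit 0, nat_lit 1000, nat_lit 0, nat_lit 6, nat_lit 181, nat_lit 0, nat_lit 0, nat_lit 0, nat_lit 0, nat_lit 0, nat_lit 0, nat_lit 0, nat_lit 0, nat_lit 0, nat_lit 0, nat_lit 5000000, false, false⟩,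
 nat_lit 0, nat_lit 0, nat_lit 0, nat_lit 0, nat_lit 5776, nat_lit 0, nat_lit 0, nat_lit 0, nat_lit 0, nat_lit 0, nat_lit 0, nat_lit 0, nat_lit 0, nat_lit 0, nat_lit 0, nat_lit 925600, nat_lit 0, nat_lit 0, [(nat_lit 12, [(nat_lit 1, nat_lit 124), (nat_lit 2, nat_lit 876)]), (nat_lit 15, [(nat_lit 1, nat_lit 124), (nat_lit 2, nat_lit 876)])],
 ⟨t02_k38, nat_lit 0, nat_lit 0, nat_lit 288, nat_lit 0, nat_lit 0, [nat_lit 3448745601, nat_lit 86723200], [], [nat_lit 22246017464, nat_lit 24829318989, nat_lit 21732514594, nat_lit 24380337728], nat_lit 0, nat_lit 0, nat_lit 0, nat_lit 0, nat_lit 0, nat_lit 0, [], [nat_lit 82, nat_lit 40, nat_lit 80, nat_lit 80, nat_lit 63, nat_lit 272, nat_lit 60, nat_lit 8]⟩, C1.Rw.none,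
 ⟨nat_lit 4472, nat_lit 5478, ⟨.ofNat (nat_lit 235487), .ofNat (nat_lit 617523), .ofNat (nat_lit 278138), .ofNat (nat_lit 660148), .ofNat (nat_lit 264421), .ofNat (nat_lit 610987), .ofNat (nat_lit 307491), .ofNat (nat_lit 654031)⟩, ⟨.ofNat (nat_lit 0), .ofNat (nat_lit 0), .ofNat (nat_lit 0), .ofNat (nat_lit 0), .ofNat (nat_lit 0), .ofNat (nat_lit 0), .ofNat (nat_lit 0), .ofNat (nat_lit 0)⟩⟩, []⟩
noncomputable def t02_l92 : Lf2 := ⟨nat_lit 0, nat_lit 10, [nat_lit 0, nat_lit 5, nat_lit 5, nat_lit 20], true, nat_lit 0, nat_lit 0, nat_lit 0, nat_lit 0, ⟨nat_lit 0, nat_lit 1000, nat_lit 0, nat_lit 6, nat_lit 311, nat_lit 0, nat_lit 0, nat_lit 0, nat_lit 0, nat_lit 0, nat_lit 0, nat_lit 0, nat_lit 0, nat_lit 0, nat_lit 0, nat_lit 5000000, true, true⟩,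
 nat_lit 0, nat_lit 0, nat_lit 0, nat_lit 0, nat_lit 4097, nat_lit 0, nat_lit 0, nat_lit 0, nat_lit 0, nat_lit 0, nat_lit 0, nat_lit 0, nat_lit 0, nat_lit 0, nat_lit 0, nat_lit 250000, nat_lit 0, nat_lit 0, [(nat_lit 12, [(nat_lit 0, nat_lit 1000)]), (nat_lit 15, [(nat_lit 0, nat_lit 1000)])],
 ⟨t02_k36, nat_lit 0, nat_lit 0, nat_lit 209, nat_lit 0, nat_lit 0, [nat_lit 2364000000, nat_lit 2745200001, nat_lit 3496880000], [], [nat_lit 26718515009, nat_lit 28460556541, nat_lit 33380171017, nat_lit 34798320800], nat_lit 0, nat_lit 0, nat_lit 0, nat_lit 0, nat_lit 0, nat_lit 0, [], [nat_lit 42, nat_lit 40, nat_lit 80, nat_lit 80, nat_lit 13, nat_lit 317, nat_lit 100, nat_lit 9]⟩, C1.Rw.none,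
 ⟨nat_lit 4472, nat_lit 5478, ⟨.ofNat (nat_lit 617523), .ofNat (nat_lit 917115), .ofNat (nat_lit 660148), .ofNat (nat_lit 959740), .ofNat (nat_lit 610987), .ofNat (nat_lit 882759), .ofNat (nat_lit 654031), .ofNat (nat_lit 925804)⟩, ⟨.ofNat (nat_lit 0), .ofNat (nat_lit 0), .ofNat (nat_lit 0), .ofNat (nat_lit 0), .ofNat (nat_lit 0), .ofNat (nat_lit 0), .ofNat (nat_lit 0), .ofNat (nat_lit 0)⟩⟩, []⟩
noncomputable def t02_l93 : Lf2 := ⟨nat_lit 0, nat_lit 10, [nat_lit 0, nat_lit 5, nat_lit 5, nat_lit 20], false, nat_lit 0, nat_lit 0, nat_lit 0, nat_lit 0, ⟨nat_lit 1000, nat_lit 0, nat_lit 0, nat_lit 0, nat_lit 0, nat_lit 0, nat_lit 0, nat_lit 0, nat_lit 0, nat_lit 0, nat_lit 0, nat_lit 0, nat_lit 0, nat_lit 0, nat_lit 0, nat_lit 0, false, false⟩,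
 nat_lit 0, nat_lit 9639, nat_lit 0, nat_lit 0, nat_lit 6133, nat_lit 6448, nat_lit 1319, nat_lit 0, nat_lit 0, nat_lit 1864, nat_lit 0, nat_lit 0, nat_lit 0, nat_lit 0, nat_lit 0, nat_lit 0, nat_lit 0, nat_lit 0, [],
 ⟨t02_k36, nat_lit 0, nat_lit 0, nat_lit 588, nat_lit 0, nat_lit 891822, [nat_lit 3282000000, nat_lit 4688000000, nat_lit 9842000000], [], [nat_lit 31906560218, nat_lit 32365022693, nat_lit 36772572596, nat_lit 37254491936], nat_lit 1271250, nat_lit 1271250, nat_lit 1271250, nat_lit 1271250, nat_lit 0, nat_lit 0, [nat_lit 780000, nat_lit 1100000, nat_lit 2127500], [nat_lit 42, nat_lit 40, nat_lit 80, nat_lit 80, nat_lit 13, nat_lit 317, nat_lit 100, nat_lit 9]⟩, ⟨t02_k37, nat_lit 0, nat_lit 0, nat_lit 239, nat_lit 0, nat_lit 0, [nat_lit 4688000000, nat_lit 6250000000, nat_lit 11872000000], [], [nat_lit 25741651288, nat_lit 27521007608, nat_lit 35809479928, nat_lit 36891882200],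 nat_lit 0, nat_lit 0, nat_lit 0, nat_lit 0, nat_lit 0, nat_lit 0, [], [nat_lit 48, nat_lit 40, nat_lit 80, nat_lit 80, nat_lit 12, nat_lit 401, nat_lit 175, nat_lit 10]⟩,
 zbF0, []⟩
noncomputable def t02_l94 : Lf2 := ⟨nat_lit 0, nat_lit 10, [nat_lit 0, nat_lit 5, nat_lit 5, nat_lit 20], false, nat_lit 0, nat_lit 0, nat_lit 0, nat_lit 0, ⟨nat_lit 1000, nat_lit 0, nat_lit 0, nat_lit 0, nat_lit 0, nat_lit 0, nat_lit 0, nat_lit 0, nat_lit 0, nat_lit 0, nat_lit 0, nat_lit 0, nat_lit 0, nat_lit 0, nat_lit 0, nat_lit 0, false, false⟩,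
 nat_lit 0, nat_lit 7617, nat_lit 0, nat_lit 0, nat_lit 5273, nat_lit 6463, nat_lit 1309, nat_lit 0, nat_lit 0, nat_lit 1071, nat_lit 0, nat_lit 0, nat_lit 0, nat_lit 0, nat_lit 0, nat_lit 0, nat_lit 0, nat_lit 0, [],
 ⟨t02_k39, nat_lit 0, nat_lit 0, nat_lit 549, nat_lit 0, nat_lit 966433, [nat_lit 3282000000, nat_lit 4688000000, nat_lit 7968000000], [], [nat_lit 30925229226, nat_lit 31478140412, nat_lit 35551959662, nat_lit 36026495388], nat_lit 1271250, nat_lit 1271250, nat_lit 1271250, nat_lit 1271250, nat_lit 0, nat_lit 0, [nat_lit 780000, nat_lit 1100000, nat_lit 1785000], [nat_lit 36, nat_lit 40, nat_lit 80, nat_lit 80, nat_lit 7, nat_lit 228, nat_lit 0, nat_lit 7]⟩, ⟨t02_k37, nat_lit 0, nat_lit 0, nat_lit 239, nat_lit 0, nat_lit 0, [nat_lit 4688000000, nat_lit 6250000000, nat_lit 11872000000], [], [nat_lit 29527566253, nat_lit 31308555173, nat_lit 39625112593, nat_lit 40707743825],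 nat_lit 0, nat_lit 0, nat_lit 0, nat_lit 0, nat_lit 0, nat_lit 0, [], [nat_lit 48, nat_lit 40, nat_lit 80, nat_lit 80, nat_lit 12, nat_lit 401, nat_lit 175, nat_lit 10]⟩,
 zbF0, []⟩
theorem r_N_700_600_0 (h : EB TB.env) : Dead (RC.box ⟨false, 40, 280, 320, 240, 280, 0, 0, [120]⟩ 0 120) := chkB_sound h (refs := [b_N_700_600_0_0, b_N_700_600_0_1, b_N_700_600_0_2, b_N_700_600_0_3, b_N_700_600_0_4, b_N_700_600_0_5, b_N_700_600_0_6, b_N_700_600_0_7, b_N_700_600_0_8, b_N_700_600_0_9, b_N_700_600_0_10, b_N_700_600_0_11, b_N_700_600_0_12, b_N_700_600_0_13, b_N_700_600_0_14, b_N_700_600_0_15, b_N_700_600_0_16, b_N_700_600_0_17, b_N_700_600_0_18, b_N_700_600_0_19, b_N_700_600_0_20, b_N_700_600_0_21]) (refs_cons (d_N_700_600_0_0 h) (refs_cons (d_N_700_600_0_1 h) (refs_cons (d_N_700_600_0_2 h) (refs_cons (d_N_700_600_0_3 h) (refs_cons (d_N_700_600_0_4 h) (refs_cons (d_N_700_600_0_5 h) (refs_cons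 (d_N_700_600_0_6 h) (refs_cons (d_N_700_600_0_7 h) (refs_cons (d_N_700_600_0_8 h) (refs_cons (d_N_700_600_0_9 h) (refs_cons (d_N_700_600_0_10 h) (refs_cons (d_N_700_600_0_11 h) (refs_cons (d_N_700_600_0_12 h) (refs_cons (d_N_700_600_0_13 h) (refs_cons (d_N_700_600_0_14 h) (refs_cons (d_N_700_600_0_15 h) (refs_cons (d_N_700_600_0_16 h) (refs_cons (d_N_700_600_0_17 h) (refs_cons (d_N_700_600_0_18 h) (refs_cons (d_N_700_600_0_19 h) (refs_cons (d_N_700_600_0_20 h) (refs_cons (d_N_700_600_0_21 h) (refs_nil))))))))))))))))))))))) (T :=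
(.trZ (nat_lit 0) (nat_lit 100) (nat_lit 94) (nat_lit 59) (nat_lit 36) (.spl (nat_lit 6) (nat_lit 40)
(.st (nat_lit 0)
(.ref (nat_lit 0))
(.gv
(.st (nat_lit 1)
(.spl (nat_lit 8) (nat_lit 800)
(.spl (nat_lit 7) (nat_lit 600)
(.ref (nat_lit 1))
(.spl (nat_lit 0) (nat_lit 300)
(.spl (nat_lit 0) (nat_lit 290)
(.spl (nat_lit 2) (nat_lit 240)
(.spl (nat_lit 2) (nat_lit 160)
(.spl (nat_lit 2) (nat_lit 80)
(.spl (nat_lit 1) (nat_lit 260)
(.leaf t02_l79)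
(.trZ (nat_lit 0) (nat_lit 100) (nat_lit 96) (nat_lit 69) (nat_lit 48) (.leaf t02_l80)))
(.spl (nat_lit 1) (nat_lit 260)
(.spl (nat_lit 6) (nat_lit 20)
(.ref (nat_lit 2))
(.ref (nat_lit 3)))
(.ref (nat_lit 4))))
(.ref (nat_lit 5)))
(.ref (nat_lit 6)))
(.ref (nat_lit 7)))
(.ref (nat_lit 8))))
(.leaf t02_l81))
(.ref (nat_lit 9)))
(.st (nat_lit 1)
(.spl (nat_lit 8) (nat_lit 800)
(.spl (nat_lit 7) (nat_lit 600)
(.leaf t02_l82)
(.spl (nat_lit 0) (nat_lit 300)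
(.spl (nat_lit 0) (nat_lit 290)
(.ref (nat_lit 10))
(.ref (nat_lit 11)))
(.ref (nat_lit 12))))
(.leaf t02_l83))
(.spl (nat_lit 2) (nat_lit 240)
(.spl (nat_lit 2) (nat_lit 160)
(.leaf t02_l84)
(.leaf t02_l85))
(.leaf t02_l86)))))
(.spl (nat_lit 6) (nat_lit 80)
(.st (nat_lit 0)
(.gv
(.st (nat_lit 1)
(.spl (nat_lit 2) (nat_lit 120)
(.spl (nat_lit 1) (nat_lit 260)
(.leaf t02_l87)
(.trZ (nat_lit 0) (nat_lit 100) (nat_lit 96) (nat_lit 69) (nat_lit 48) (.leaf t02_l88)))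
(.leaf t02_l89))
(.spl (nat_lit 2) (nat_lit 240)
(.ref (nat_lit 13))
(.spl (nat_lit 2) (nat_lit 320)
(.ref (nat_lit 14))
(.spl (nat_lit 2) (nat_lit 360)
(.ref (nat_lit 15))
(.ref (nat_lit 16))))))
(.st (nat_lit 1)
(.leaf t02_l90)
(.spl (nat_lit 2) (nat_lit 240)
(.leaf t02_l91)
(.leaf t02_l92))))
(.gv
(.st (nat_lit 1)
(.spl (nat_lit 2) (nat_lit 240)
(.ref (nat_lit 17))
(.spl (nat_lit 0) (nat_lit 300)
(.leaf t02_l93)
(.leaf t02_l94)))
(.ref (nat_lit 18)))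
(.ref (nat_lit 19))))
(.st (nat_lit 0)
(.ref (nat_lit 20))
(.ref (nat_lit 21))))))) (by decide +kernel)
theorem done_N_700_600_0 (h : EB TB.env) : RC.Done ⟨false, 40, 280, 320, 240, 280, 0, 0, [120]⟩ := RC.done1 (r_N_700_600_0 h) (t_N_700_600_0 h)
theorem t_N_700_700_0 (h : EB TB.env) : RC.Tail ⟨false, 40, 280, 320, 280, 320, 0, 0, [140]⟩ := RC.tail_chk h (b := ⟨nat_lit 20, nat_lit 70, nat_lit 5, nat_lit 5, nat_lit 20, nat_lit 203, nat_lit 0, nat_lit 28, nat_lit 0⟩) (by decide +kernel)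
theorem r_N_700_700_0 (h : EB TB.env) : Dead (RC.box ⟨false, 40, 280, 320, 280, 320, 0, 0, [140]⟩ 0 140) := chkB_sound h (refs := [b_N_700_700_0_0, b_N_700_700_0_1, b_N_700_700_0_2, b_N_700_700_0_3, b_N_700_700_0_4, b_N_700_700_0_5, b_N_700_700_0_6, b_N_700_700_0_7, b_N_700_700_0_8, b_N_700_700_0_9, b_N_700_700_0_10]) (refs_cons (d_N_700_700_0_0 h) (refs_cons (d_N_700_700_0_1 h) (refs_cons (d_N_700_700_0_2 h) (refs_cons (d_N_700_700_0_3 h) (refs_cons (d_N_700_700_0_4 h) (refs_cons (d_N_700_700_0_5 h) (refs_cons (d_N_700_700_0_6 h) (refs_cons (d_N_700_700_0_7 h) (refs_cons (d_N_700_700_0_8 h) (refs_cons (d_N_700_700_0_9 h) (refs_cons (d_N_700_700_0_10 h) (refs_nil)))))))))))) (T :=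
(.trZ (nat_lit 0) (nat_lit 100) (nat_lit 100) (nat_lit 80) (nat_lit 64) (.spl (nat_lit 6) (nat_lit 40)
(.st (nat_lit 0)
(.ref (nat_lit 0))
(.gv
(.st (nat_lit 1)
(.ref (nat_lit 1))
(.ref (nat_lit 2)))
(.ref (nat_lit 3))))
(.spl (nat_lit 6) (nat_lit 80)
(.st (nat_lit 0)
(.ref (nat_lit 4))
(.gv
(.ref (nat_lit 5))
(.st (nat_lit 1)
(.spl (nat_lit 1) (nat_lit 300)
(.ref (nat_lit 6))
(.ref (nat_lit 7)))
(.ref (nat_lit 8)))))
(.spl (nat_lit 6) (nat_lit 120)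
(.ref (nat_lit 9))
(.ref (nat_lit 10))))))) (by decide +kernel)
theorem done_N_700_700_0 (h : EB TB.env) : RC.Done ⟨false, 40, 280, 320, 280, 320, 0, 0, [140]⟩ := RC.done1 (r_N_700_700_0 h) (t_N_700_700_0 h)

end B2
end Pool.Agent.Lib.MP_6947cd_al
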