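import Pool.Agent.Lib.MP_6947cd_al.ZB.Pre

/-!
Problem MP_6947cd_al (Chollet).  Case B, second entry in [2/5, 17/20]: certificates of the tree, part P018 (generated).
-/

set_option autoImplicit false
set_option linter.all false

namespace Pool.Agent.Lib.MP_6947cd_al
namespace B2

open Ent Fr B1 PkA

noncomputable def p018_k0 : C1.Kn := ⟨[nat_lit 40, nat_lit 80, nat_lit 100], [nat_lit 0, nat_lit 0, nat_lit 1280], [(nat_lit 0, nat_lit 0, nat_lit 0), (nat_lit 0, nat_lit 0, nat_lit 0), (nat_lit 1000, nat_lit 800, nat_lit 600)], (nat_lit 80, nat_lit 100, nat_lit 60)⟩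
noncomputable def p018_k1 : C1.Kn := ⟨[nat_lit 120, nat_lit 160, nat_lit 180], [nat_lit 0, nat_lit 0, nat_lit 1613], [(nat_lit 0, nat_lit 0, nat_lit 0), (nat_lit 0, nat_lit 0, nat_lit 0), (nat_lit 620, nat_lit 1000, nat_lit 670)], (nat_lit 100, nat_lit 68, nat_lit 61)⟩
noncomputable def p018_k2 : C1.Kn := ⟨[nat_lit 120, nat_lit 160, nat_lit 180], [nat_lit 0, nat_lit 533, nat_lit 2066], [(nat_lit 0, nat_lit 0, nat_lit 0), (nat_lit 960, nat_lit 1000, nat_lit 200), (nat_lit 615, nat_lit 1000, nat_lit 729)], (nat_lit 100, nat_lit 74, nat_lit 60)⟩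
noncomputable def p018_k3 : C1.Kn := ⟨[nat_lit 40, nat_lit 60, nat_lit 100], [nat_lit 0, nat_lit 0, nat_lit 1216], [(nat_lit 0, nat_lit 0, nat_lit 0), (nat_lit 0, nat_lit 0, nat_lit 0), (nat_lit 1000, nat_lit 810, nat_lit 474)], (nat_lit 80, nat_lit 100, nat_lit 60)⟩
noncomputable def p018_k4 : C1.Kn := ⟨[nat_lit 40, nat_lit 100], [nat_lit 0, nat_lit 1192], [(nat_lit 0, nat_lit 0, nat_lit 0), (nat_lit 1000, nat_lit 814, nat_lit 310)], (nat_lit 72, nat_lit 100, nat_lit 61)⟩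
noncomputable def p018_k5 : C1.Kn := ⟨[nat_lit 40, nat_lit 80], [nat_lit 0, nat_lit 1195], [(nat_lit 0, nat_lit 0, nat_lit 0), (nat_lit 1000, nat_lit 720, nat_lit 465)], (nat_lit 68, nat_lit 100, nat_lit 61)⟩
noncomputable def p018_k6 : C1.Kn := ⟨[nat_lit 40, nat_lit 80, nat_lit 100], [nat_lit 0, nat_lit 395, nat_lit 1536], [(nat_lit 0, nat_lit 0, nat_lit 0), (nat_lit 1000, nat_lit 908, nat_lit 154), (nat_lit 1000, nat_lit 760, nat_lit 642)], (nat_lit 76, nat_lit 100, nat_lit 60)⟩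
noncomputable def p018_k7 : C1.Kn := ⟨[nat_lit 40, nat_lit 80, nat_lit 100], [nat_lit 0, nat_lit 795, nat_lit 1829], [(nat_lit 0, nat_lit 0, nat_lit 0), (nat_lit 1000, nat_lit 814, nat_lit 310), (nat_lit 1000, nat_lit 714, nat_lit 692)], (nat_lit 72, nat_lit 100, nat_lit 61)⟩
noncomputable def p018_k8 : C1.Kn := ⟨[nat_lit 40, nat_lit 100], [nat_lit 0, nat_lit 0], [(nat_lit 0, nat_lit 0, nat_lit 0), (nat_lit 0, nat_lit 0, nat_lit 0)], (nat_lit 80, nat_lit 100, nat_lit 60)⟩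
noncomputable def p018_k9 : C1.Kn := ⟨[nat_lit 120, nat_lit 180], [nat_lit 0, nat_lit 0], [(nat_lit 0, nat_lit 0, nat_lit 0), (nat_lit 0, nat_lit 0, nat_lit 0)], (nat_lit 100, nat_lit 68, nat_lit 61)⟩
noncomputable def p018_k10 : C1.Kn := ⟨[nat_lit 40, nat_lit 80, nat_lit 100], [nat_lit 0, nat_lit 192, nat_lit 1404], [(nat_lit 0, nat_lit 0, nat_lit 0), (nat_lit 1000, nat_lit 955, nat_lit 75), (nat_lit 1000, nat_lit 781, nat_lit 625)], (nat_lit 78, nat_lit 100, nat_lit 60)⟩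
noncomputable def p018_k11 : C1.Kn := ⟨[nat_lit 40, nat_lit 80, nat_lit 100], [nat_lit 0, nat_lit 593, nat_lit 1677], [(nat_lit 0, nat_lit 0, nat_lit 0), (nat_lit 1000, nat_lit 861, nat_lit 231), (nat_lit 1000, nat_lit 738, nat_lit 662)], (nat_lit 74, nat_lit 100, nat_lit 60)⟩
noncomputable def p018_k12 : C1.Kn := ⟨[nat_lit 120, nat_lit 140, nat_lit 180], [nat_lit 0, nat_lit 266, nat_lit 1456], [(nat_lit 0, nat_lit 0, nat_lit 0), (nat_lit 960, nat_lit 1000, nat_lit 200), (nat_lit 874, nat_lit 1000, nat_lit 406)], (nat_lit 100, nat_lit 74, nat_lit 60)⟩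
noncomputable def p018_k13 : C1.Kn := ⟨[nat_lit 40, nat_lit 60, nat_lit 100], [nat_lit 0, nat_lit 197, nat_lit 1403], [(nat_lit 0, nat_lit 0, nat_lit 0), (nat_lit 1000, nat_lit 908, nat_lit 154), (nat_lit 1000, nat_lit 781, nat_lit 471)], (nat_lit 76, nat_lit 100, nat_lit 60)⟩
noncomputable def p018_k14 : C1.Kn := ⟨[nat_lit 40, nat_lit 80, nat_lit 100], [nat_lit 0, nat_lit 994, nat_lit 1992], [(nat_lit 0, nat_lit 0, nat_lit 0), (nat_lit 1000, nat_lit 767, nat_lit 387), (nat_lit 1000, nat_lit 689, nat_lit 725)], (nat_lit 70, nat_lit 100, nat_lit 61)⟩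
noncomputable def p018_k15 : C1.Kn := ⟨[nat_lit 40, nat_lit 60, nat_lit 100], [nat_lit 0, nat_lit 398, nat_lit 1586], [(nat_lit 0, nat_lit 0, nat_lit 0), (nat_lit 1000, nat_lit 814, nat_lit 310), (nat_lit 1000, nat_lit 752, nat_lit 464)], (nat_lit 72, nat_lit 100, nat_lit 61)⟩
noncomputable def p018_k16 : C1.Kn := ⟨[nat_lit 100, nat_lit 160], [nat_lit 0, nat_lit 0], [(nat_lit 0, nat_lit 0, nat_lit 0), (nat_lit 0, nat_lit 0, nat_lit 0)], (nat_lit 100, nat_lit 80, nat_lit 60)⟩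
noncomputable def p018_k17 : C1.Kn := ⟨[nat_lit 40, nat_lit 80, nat_lit 100], [nat_lit 0, nat_lit 0, nat_lit 1280], [(nat_lit 0, nat_lit 0, nat_lit 0), (nat_lit 0, nat_lit 0, nat_lit 0), (nat_lit 1000, nat_lit 800, nat_lit 600)], (nat_lit 82, nat_lit 100, nat_lit 44)⟩
noncomputable def p018_k18 : C1.Kn := ⟨[nat_lit 100, nat_lit 140, nat_lit 160], [nat_lit 0, nat_lit 0, nat_lit 1280], [(nat_lit 0, nat_lit 0, nat_lit 0), (nat_lit 0, nat_lit 0, nat_lit 0), (nat_lit 800, nat_lit 1000, nat_lit 600)], (nat_lit 100, nat_lit 90, nat_lit 44)⟩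
noncomputable def p018_k19 : C1.Kn := ⟨[nat_lit 100, nat_lit 140], [nat_lit 0, nat_lit 508], [(nat_lit 0, nat_lit 0, nat_lit 0), (nat_lit 1000, nat_lit 1000, nat_lit 198)], (nat_lit 100, nat_lit 94, nat_lit 44)⟩
noncomputable def p018_k20 : C1.Kn := ⟨[nat_lit 100, nat_lit 140, nat_lit 160], [nat_lit 0, nat_lit 0, nat_lit 1280], [(nat_lit 0, nat_lit 0, nat_lit 0), (nat_lit 0, nat_lit 0, nat_lit 0), (nat_lit 800, nat_lit 1000, nat_lit 600)], (nat_lit 100, nat_lit 80, nat_lit 60)⟩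
noncomputable def p018_k21 : C1.Kn := ⟨[nat_lit 100, nat_lit 140, nat_lit 160], [nat_lit 0, nat_lit 508, nat_lit 1689], [(nat_lit 0, nat_lit 0, nat_lit 0), (nat_lit 1000, nat_lit 1000, nat_lit 198), (nat_lit 811, nat_lit 1000, nat_lit 671)], (nat_lit 100, nat_lit 86, nat_lit 60)⟩
noncomputable def p018_k22 : C1.Kn := ⟨[nat_lit 100, nat_lit 140, nat_lit 160], [nat_lit 0, nat_lit 256, nat_lit 1478], [(nat_lit 0, nat_lit 0, nat_lit 0), (nat_lit 1000, nat_lit 1000, nat_lit 100), (nat_lit 806, nat_lit 1000, nat_lit 633)], (nat_lit 100, nat_lit 83, nat_lit 60)⟩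
noncomputable def p018_k23 : C1.Kn := ⟨[nat_lit 40, nat_lit 80], [nat_lit 0, nat_lit 1399], [(nat_lit 0, nat_lit 0, nat_lit 0), (nat_lit 1000, nat_lit 672, nat_lit 546)], (nat_lit 65, nat_lit 100, nat_lit 62)⟩
noncomputable def p018_k24 : C1.Kn := ⟨[nat_lit 100, nat_lit 160], [nat_lit 0, nat_lit 761], [(nat_lit 0, nat_lit 0, nat_lit 0), (nat_lit 1000, nat_lit 1000, nat_lit 198)], (nat_lit 100, nat_lit 86, nat_lit 60)⟩
noncomputable def p018_k25 : C1.Kn := ⟨[nat_lit 80, nat_lit 160], [nat_lit 0, nat_lit 0], [(nat_lit 0, nat_lit 0, nat_lit 0), (nat_lit 0, nat_lit 0, nat_lit 0)], (nat_lit 100, nat_lit 92, nat_lit 61)⟩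
noncomputable def p018_k26 : C1.Kn := ⟨[nat_lit 80, nat_lit 120, nat_lit 160], [nat_lit 0, nat_lit 0, nat_lit 2132], [(nat_lit 0, nat_lit 0, nat_lit 0), (nat_lit 0, nat_lit 0, nat_lit 0), (nat_lit 858, nat_lit 1000, nat_lit 713)], (nat_lit 100, nat_lit 92, nat_lit 61)⟩
noncomputable def p018_k27 : C1.Kn := ⟨[nat_lit 80, nat_lit 120, nat_lit 140], [nat_lit 0, nat_lit 264, nat_lit 1360], [(nat_lit 0, nat_lit 0, nat_lit 0), (nat_lit 1000, nat_lit 979, nat_lit 103), (nat_lit 951, nat_lit 1000, nat_lit 628)], (nat_lit 100, nat_lit 95, nat_lit 62)⟩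
noncomputable def p018_k28 : C1.Kn := ⟨[nat_lit 80, nat_lit 120], [nat_lit 0, nat_lit 528], [(nat_lit 0, nat_lit 0, nat_lit 0), (nat_lit 1000, nat_lit 959, nat_lit 206)], (nat_lit 96, nat_lit 100, nat_lit 44)⟩
noncomputable def p018_k29 : C1.Kn := ⟨[nat_lit 80, nat_lit 120, nat_lit 140], [nat_lit 0, nat_lit 528, nat_lit 1572], [(nat_lit 0, nat_lit 0, nat_lit 0), (nat_lit 1000, nat_lit 959, nat_lit 206), (nat_lit 966, nat_lit 1000, nat_lit 679)], (nat_lit 100, nat_lit 99, nat_lit 63)⟩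
noncomputable def p018_k30 : C1.Kn := ⟨[nat_lit 80, nat_lit 120], [nat_lit 0, nat_lit 796], [(nat_lit 0, nat_lit 0, nat_lit 0), (nat_lit 1000, nat_lit 938, nat_lit 310)], (nat_lit 94, nat_lit 100, nat_lit 44)⟩
noncomputable def p018_k31 : C1.Kn := ⟨[nat_lit 80, nat_lit 120, nat_lit 140], [nat_lit 0, nat_lit 796, nat_lit 1801], [(nat_lit 0, nat_lit 0, nat_lit 0), (nat_lit 1000, nat_lit 938, nat_lit 310), (nat_lit 982, nat_lit 1000, nat_lit 736)], (nat_lit 98, nat_lit 100, nat_lit 63)⟩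
noncomputable def p018_k32 : C1.Kn := ⟨[nat_lit 80, nat_lit 120, nat_lit 140], [nat_lit 0, nat_lit 608, nat_lit 1639], [(nat_lit 0, nat_lit 0, nat_lit 0), (nat_lit 1000, nat_lit 952, nat_lit 237), (nat_lit 969, nat_lit 1000, nat_lit 697)], (nat_lit 100, nat_lit 100, nat_lit 63)⟩
noncomputable def p018_k33 : C1.Kn := ⟨[nat_lit 80, nat_lit 120, nat_lit 140], [nat_lit 0, nat_lit 664, nat_lit 1684], [(nat_lit 0, nat_lit 0, nat_lit 0), (nat_lit 1000, nat_lit 948, nat_lit 259), (nat_lit 975, nat_lit 1000, nat_lit 704)], (nat_lit 99, nat_lit 100, nat_lit 63)⟩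
noncomputable def p018_k34 : C1.Kn := ⟨[nat_lit 80, nat_lit 120, nat_lit 140], [nat_lit 0, nat_lit 745, nat_lit 1754], [(nat_lit 0, nat_lit 0, nat_lit 0), (nat_lit 1000, nat_lit 942, nat_lit 291), (nat_lit 977, nat_lit 1000, nat_lit 726)], (nat_lit 98, nat_lit 100, nat_lit 63)⟩
noncomputable def p018_k35 : C1.Kn := ⟨[nat_lit 80, nat_lit 120, nat_lit 140], [nat_lit 0, nat_lit 929, nat_lit 1922], [(nat_lit 0, nat_lit 0, nat_lit 0), (nat_lit 1000, nat_lit 927, nat_lit 362), (nat_lit 993, nat_lit 1000, nat_lit 764)], (nat_lit 96, nat_lit 100, nat_lit 62)⟩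
noncomputable def p018_l0 : Lf2 := ⟨nat_lit 0, nat_lit 10, [nat_lit 0, nat_lit 5, nat_lit 5, nat_lit 20], false, nat_lit 0, nat_lit 0, nat_lit 0, nat_lit 0, ⟨nat_lit 150, nat_lit 0, nat_lit 850, nat_lit 4, nat_lit 175, nat_lit 0, nat_lit 0, nat_lit 0, nat_lit 0, nat_lit 215, nat_lit 188652, nat_lit 200, nat_lit 56211981, nat_lit 0, nat_lit 0, nat_lit 2206746, false, true⟩,
 nat_lit 0, nat_lit 0, nat_lit 0, nat_lit 0, nat_lit 2608, nat_lit 1314, nat_lit 0, nat_lit 0, nat_lit 0, nat_lit 116, nat_lit 0, nat_lit 0, nat_lit 0, nat_lit 0, nat_lit 16, nat_lit 330550, nat_lit 0, nat_lit 0, [(nat_lit 18, [(nat_lit 4, nat_lit 63), (nat_lit 5, nat_lit 787)]), (nat_lit 21, [(nat_lit 4, nat_lit 63), (nat_lit 5, nat_lit 787)])],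
 ⟨p018_k0, nat_lit 0, nat_lit 0, nat_lit 223, nat_lit 0, nat_lit 0, [nat_lit 1296016000, nat_lit 623226400, nat_lit 16232800], [], [nat_lit 18318081748, nat_lit 21042320538, nat_lit 25565674090, nat_lit 27587111818], nat_lit 0, nat_lit 0, nat_lit 0, nat_lit 0, nat_lit 0, nat_lit 0, [], [nat_lit 6, nat_lit 40, nat_lit 80, nat_lit 80, nat_lit 3, nat_lit 317, nat_lit 100, nat_lit 12]⟩, ⟨p018_k1, nat_lit 0, nat_lit 0, nat_lit 478, nat_lit 0, nat_lit 0, [nat_lit 1195200000, nat_lit 1780800000, nat_lit 2108700000], [], [nat_lit 7955294197, nat_lit 7955664419, nat_lit 7477586503, nat_lit 7440899025], nat_lit 0, nat_lit 0, nat_lit 0, nat_lit 0, nat_lit 0, nat_lit 0, [], [nat_lit 62, nat_lit 40, nat_lit 80, nat_lit 80, nat_lit 58, nat_lit 373, nat_lit 150, nat_lit 9]⟩,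
 ⟨nat_lit 3162, nat_lit 4473, ⟨.ofNat (nat_lit 143971), .ofNat (nat_lit 708385), .ofNat (nat_lit 165468), .ofNat (nat_lit 729951), .ofNat (nat_lit 175109), .ofNat (nat_lit 681216), .ofNat (nat_lit 197193), .ofNat (nat_lit 703371)⟩, ⟨.ofNat (nat_lit 0), .ofNat (nat_lit 0), .ofNat (nat_lit 0), .ofNat (nat_lit 0), .ofNat (nat_lit 0), .ofNat (nat_lit 0), .ofNat (nat_lit 0), .ofNat (nat_lit 0)⟩⟩, []⟩
noncomputable def p018_l1 : Lf2 := ⟨nat_lit 0, nat_lit 10, [nat_lit 0, nat_lit 5, nat_lit 5, nat_lit 20], false, nat_lit 0, nat_lit 0, nat_lit 0, nat_lit 0, ⟨nat_lit 165, nat_lit 0, nat_lit 835, nat_lit 4, nat_lit 192, nat_lit 0, nat_lit 0, nat_lit 0, nat_lit 0, nat_lit 215, nat_lit 272572, nat_lit 200, nat_lit 54485488, nat_lit 0, nat_lit 0, nat_lit 2407626, false, true⟩,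
 nat_lit 0, nat_lit 0, nat_lit 0, nat_lit 0, nat_lit 2462, nat_lit 1557, nat_lit 0, nat_lit 0, nat_lit 0, nat_lit 140, nat_lit 0, nat_lit 0, nat_lit 0, nat_lit 0, nat_lit 12, nat_lit 334000, nat_lit 0, nat_lit 0, [(nat_lit 18, [(nat_lit 5, nat_lit 835)]), (nat_lit 21, [(nat_lit 5, nat_lit 835)])],
 ⟨p018_k0, nat_lit 0, nat_lit 0, nat_lit 214, nat_lit 0, nat_lit 0, [nat_lit 1247576000, nat_lit 619830000, nat_lit 14408000], [], [nat_lit 18515352897, nat_lit 20816835671, nat_lit 25870639608, nat_lit 27858979352], nat_lit 0, nat_lit 0, nat_lit 0, nat_lit 0, nat_lit 0, nat_lit 0, [], [nat_lit 6, nat_lit 40, nat_lit 80, nat_lit 80, nat_lit 3, nat_lit 317, nat_lit 100, nat_lit 12]⟩, ⟨p018_k2, nat_lit 0, nat_lit 0, nat_lit 457, nat_lit 0, nat_lit 0, [nat_lit 1314720000, nat_lit 1958880000, nat_lit 2319570000], [], [nat_lit 7922334347, nat_lit 7920772013, nat_lit 7762652753, nat_lit 7722496382],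 nat_lit 0, nat_lit 0, nat_lit 0, nat_lit 0, nat_lit 0, nat_lit 0, [], [nat_lit 62, nat_lit 40, nat_lit 80, nat_lit 80, nat_lit 58, nat_lit 373, nat_lit 150, nat_lit 9]⟩,
 ⟨nat_lit 3162, nat_lit 4473, ⟨.ofNat (nat_lit 185884), .ofNat (nat_lit 750345), .ofNat (nat_lit 207360), .ofNat (nat_lit 771911), .ofNat (nat_lit 215503), .ofNat (nat_lit 721657), .ofNat (nat_lit 237567), .ofNat (nat_lit 743812)⟩, ⟨.ofNat (nat_lit 0), .ofNat (nat_lit 0), .ofNat (nat_lit 0), .ofNat (nat_lit 0), .ofNat (nat_lit 0), .ofNat (nat_lit 0), .ofNat (nat_lit 0), .ofNat (nat_lit 0)⟩⟩, []⟩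
noncomputable def p018_l2 : Lf2 := ⟨nat_lit 0, nat_lit 10, [nat_lit 0, nat_lit 5, nat_lit 5, nat_lit 20], true, nat_lit 0, nat_lit 0, nat_lit 0, nat_lit 0, ⟨nat_lit 0, nat_lit 0, nat_lit 1000, nat_lit 4, nat_lit 119, nat_lit 0, nat_lit 0, nat_lit 0, nat_lit 0, nat_lit 215, nat_lit 132017, nat_lit 304, nat_lit 61553016, nat_lit 0, nat_lit 0, nat_lit 1409640, false, false⟩,
 nat_lit 0, nat_lit 0, nat_lit 0, nat_lit 0, nat_lit 2469, nat_lit 0, nat_lit 0, nat_lit 0, nat_lit 0, nat_lit 0, nat_lit 0, nat_lit 0, nat_lit 0, nat_lit 0, nat_lit 65, nat_lit 344800, nat_lit 0, nat_lit 0, [(nat_lit 18, [(nat_lit 4, nat_lit 368), (nat_lit 5, nat_lit 632)]), (nat_lit 21, [(nat_lit 4, nat_lit 368), (nat_lit 5, nat_lit 632)])],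
 ⟨p018_k0, nat_lit 0, nat_lit 0, nat_lit 223, nat_lit 0, nat_lit 0, [nat_lit 1686016001, nat_lit 719030401, nat_lit 17660800], [], [nat_lit 16856055457, nat_lit 20564657157, nat_lit 18143933660, nat_lit 20747023688], nat_lit 0, nat_lit 0, nat_lit 0, nat_lit 0, nat_lit 0, nat_lit 0, [], [nat_lit 6, nat_lit 40, nat_lit 80, nat_lit 80, nat_lit 3, nat_lit 249, nat_lit 40, nat_lit 10]⟩, C1.Rw.none,
 ⟨nat_lit 3162, nat_lit 4473, ⟨.ofNat (nat_lit 143971), .ofNat (nat_lit 388887), .ofNat (nat_lit 186943), .ofNat (nat_lit 431944), .ofNat (nat_lit 175109), .ofNat (nat_lit 394735), .ofNat (nat_lit 219258), .ofNat (nat_lit 438969)⟩, ⟨.ofNat (nat_lit 0), .ofNat (nat_lit 0), .ofNat (nat_lit 0), .ofNat (nat_lit 0), .ofNat (nat_lit 0), .ofNat (nat_lit 0), .ofNat (nat_lit 0), .ofNat (nat_lit 0)⟩⟩, [⟨nat_lit 0, nat_lit 100, nat_lit 72, nat_lit 63, nat_lit 41349394⟩]⟩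
noncomputable def p018_l3 : Lf2 := ⟨nat_lit 0, nat_lit 10, [nat_lit 0, nat_lit 5, nat_lit 5, nat_lit 20], true, nat_lit 0, nat_lit 0, nat_lit 0, nat_lit 0, ⟨nat_lit 0, nat_lit 1000, nat_lit 0, nat_lit 4, nat_lit 230, nat_lit 0, nat_lit 0, nat_lit 0, nat_lit 0, nat_lit 0, nat_lit 0, nat_lit 0, nat_lit 50360231, nat_lit 16639769, nat_lit 0, nat_lit 2802601, false, true⟩,
 nat_lit 0, nat_lit 0, nat_lit 0, nat_lit 0, nat_lit 3400, nat_lit 0, nat_lit 0, nat_lit 0, nat_lit 0, nat_lit 0, nat_lit 0, nat_lit 0, nat_lit 0, nat_lit 0, nat_lit 0, nat_lit 250000, nat_lit 0, nat_lit 0, [(nat_lit 18, [(nat_lit 0, nat_lit 1000)]), (nat_lit 21, [(nat_lit 0, nat_lit 1000)])],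
 ⟨p018_k3, nat_lit 0, nat_lit 0, nat_lit 159, nat_lit 0, nat_lit 0, [nat_lit 1558400000, nat_lit 1774266667, nat_lit 2562000000], [], [nat_lit 21226135467, nat_lit 23818341067, nat_lit 28964564267, nat_lit 30947882400], nat_lit 0, nat_lit 0, nat_lit 0, nat_lit 0, nat_lit 0, nat_lit 0, [], [nat_lit 85, nat_lit 40, nat_lit 80, nat_lit 80, nat_lit 16, nat_lit 317, nat_lit 100, nat_lit 12]⟩, C1.Rw.none,
 ⟨nat_lit 3162, nat_lit 4473, ⟨.ofNat (nat_lit 388887), .ofNat (nat_lit 728778), .ofNat (nat_lit 431944), .ofNat (nat_lit 771911), .ofNat (nat_lit 394735), .ofNat (nat_lit 699502), .ofNat (nat_lit 438969), .ofNat (nat_lit 743812)⟩, ⟨.ofNat (nat_lit 0), .ofNat (nat_lit 0), .ofNat (nat_lit 0), .ofNat (nat_lit 0), .ofNat (nat_lit 0), .ofNat (nat_lit 0), .ofNat (nat_lit 0), .ofNat (nat_lit 0)⟩⟩, [⟨nat_lit 13, nat_lit 80, nat_lit 60, nat_lit 100, nat_lit 157683721⟩]⟩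
noncomputable def p018_l4 : Lf2 := ⟨nat_lit 0, nat_lit 10, [nat_lit 0, nat_lit 5, nat_lit 5, nat_lit 20], true, nat_lit 0, nat_lit 0, nat_lit 0, nat_lit 0, ⟨nat_lit 0, nat_lit 1000, nat_lit 0, nat_lit 4, nat_lit 183, nat_lit 0, nat_lit 0, nat_lit 0, nat_lit 0, nat_lit 0, nat_lit 0, nat_lit 0, nat_lit 0, nat_lit 0, nat_lit 0, nat_lit 5000000, false, true⟩,
 nat_lit 0, nat_lit 0, nat_lit 0, nat_lit 0, nat_lit 3917, nat_lit 0, nat_lit 0, nat_lit 0, nat_lit 0, nat_lit 0, nat_lit 0, nat_lit 0, nat_lit 0, nat_lit 0, nat_lit 0, nat_lit 250000, nat_lit 0, nat_lit 0, [(nat_lit 18, [(nat_lit 0, nat_lit 1000)]), (nat_lit 21, [(nat_lit 0, nat_lit 1000)])],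
 ⟨p018_k0, nat_lit 0, nat_lit 0, nat_lit 223, nat_lit 0, nat_lit 0, [nat_lit 1558400000, nat_lit 2168000000, nat_lit 2562000000], [], [nat_lit 23559479716, nat_lit 26600597549, nat_lit 30292877912, nat_lit 32012368768], nat_lit 0, nat_lit 0, nat_lit 0, nat_lit 0, nat_lit 0, nat_lit 0, [], [nat_lit 6, nat_lit 40, nat_lit 80, nat_lit 80, nat_lit 3, nat_lit 317, nat_lit 100, nat_lit 12]⟩, C1.Rw.none,
 ⟨nat_lit 3162, nat_lit 4473, ⟨.ofNat (nat_lit 143971), .ofNat (nat_lit 728778), .ofNat (nat_lit 186943), .ofNat (nat_lit 771911), .ofNat (nat_lit 175109), .ofNat (nat_lit 699502), .ofNat (nat_lit 219258), .ofNat (nat_lit 743812)⟩, ⟨.ofNat (nat_lit 0), .ofNat (nat_lit 0), .ofNat (nat_lit 0), .ofNat (nat_lit 0), .ofNat (nat_lit 0), .ofNat (nat_lit 0), .ofNat (nat_lit 0), .ofNat (nat_lit 0)⟩⟩, [⟨nat_lit 13, nat_lit 80, nat_lit 60, nat_lit 100, nat_lit 186704216⟩]⟩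
noncomputable def p018_l5 : Lf2 := ⟨nat_lit 0, nat_lit 10, [nat_lit 0, nat_lit 5, nat_lit 5, nat_lit 20], true, nat_lit 0, nat_lit 0, nat_lit 0, nat_lit 0, ⟨nat_lit 0, nat_lit 0, nat_lit 1000, nat_lit 4, nat_lit 117, nat_lit 0, nat_lit 0, nat_lit 0, nat_lit 0, nat_lit 215, nat_lit 129067, nat_lit 303, nat_lit 61709308, nat_lit 0, nat_lit 0, nat_lit 1381173, false, false⟩,
 nat_lit 0, nat_lit 3521, nat_lit 0, nat_lit 0, nat_lit 2640, nat_lit 0, nat_lit 0, nat_lit 0, nat_lit 0, nat_lit 0, nat_lit 0, nat_lit 0, nat_lit 0, nat_lit 0, nat_lit 76, nat_lit 400000, nat_lit 0, nat_lit 0, [(nat_lit 18, [(nat_lit 5, nat_lit 1000)])],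
 ⟨p018_k0, nat_lit 0, nat_lit 0, nat_lit 456, nat_lit 0, nat_lit 663553, [nat_lit 1536800000, nat_lit 802000001, nat_lit 14800000], [], [nat_lit 18139475778, nat_lit 19226028417, nat_lit 19488265921, nat_lit 20546160000], nat_lit 1271250, nat_lit 1271250, nat_lit 88400, nat_lit 1100001, nat_lit 0, nat_lit 0, [nat_lit 490000, nat_lit 1100000, nat_lit 1442500], [nat_lit 6, nat_lit 40, nat_lit 80, nat_lit 80, nat_lit 3, nat_lit 249, nat_lit 40, nat_lit 10]⟩, C1.Rw.none,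
 ⟨nat_lit 3872, nat_lit 4473, ⟨.ofNat (nat_lit 144159), .ofNat (nat_lit 388887), .ofNat (nat_lit 187264), .ofNat (nat_lit 432013), .ofNat (nat_lit 159606), .ofNat (nat_lit 391890), .ofNat (nat_lit 203164), .ofNat (nat_lit 435470)⟩, ⟨.ofNat (nat_lit 0), .ofNat (nat_lit 0), .ofNat (nat_lit 0), .ofNat (nat_lit 0), .ofNat (nat_lit 0), .ofNat (nat_lit 0), .ofNat (nat_lit 0), .ofNat (nat_lit 0)⟩⟩, [⟨nat_lit 0, nat_lit 100, nat_lit 71, nat_lit 70, nat_lit 23241570⟩]⟩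
noncomputable def p018_l6 : Lf2 := ⟨nat_lit 0, nat_lit 10, [nat_lit 0, nat_lit 5, nat_lit 5, nat_lit 20], true, nat_lit 0, nat_lit 0, nat_lit 0, nat_lit 0, ⟨nat_lit 0, nat_lit 0, nat_lit 1000, nat_lit 4, nat_lit 125, nat_lit 0, nat_lit 0, nat_lit 0, nat_lit 0, nat_lit 215, nat_lit 147267, nat_lit 309, nat_lit 61034014, nat_lit 0, nat_lit 0, nat_lit 1501605, false, false⟩,
 nat_lit 0, nat_lit 3348, nat_lit 0, nat_lit 0, nat_lit 2710, nat_lit 0, nat_lit 0, nat_lit 0, nat_lit 0, nat_lit 0, nat_lit 0, nat_lit 0, nat_lit 0, nat_lit 0, nat_lit 89, nat_lit 400000, nat_lit 0, nat_lit 0, [(nat_lit 21, [(nat_lit 5, nat_lit 1000)])],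
 ⟨p018_k4, nat_lit 0, nat_lit 0, nat_lit 445, nat_lit 0, nat_lit 687816, [nat_lit 1689600000, nat_lit 187200000], [], [nat_lit 19261413216, nat_lit 19901204244, nat_lit 20638871500, nat_lit 21193916630], nat_lit 1271250, nat_lit 1271250, nat_lit 181601, nat_lit 1100001, nat_lit 0, nat_lit 0, [nat_lit 490000, nat_lit 1427500], [nat_lit 69, nat_lit 40, nat_lit 80, nat_lit 80, nat_lit 64, nat_lit 249, nat_lit 40, nat_lit 10]⟩, C1.Rw.none,
 ⟨nat_lit 3535, nat_lit 3873, ⟨.ofNat (nat_lit 185410), .ofNat (nat_lit 391890), .ofNat (nat_lit 228984), .ofNat (nat_lit 435472), .ofNat (nat_lit 192484), .ofNat (nat_lit 393332), .ofNat (nat_lit 236377), .ofNat (nat_lit 437232)⟩, ⟨.ofNat (nat_lit 0), .ofNat (nat_lit 0), .ofNat (nat_lit 0), .ofNat (nat_lit 0), .ofNat (nat_lit 0), .ofNat (nat_lit 0), .ofNat (nat_lit 0), .ofNat (nat_lit 0)⟩⟩, [⟨nat_lit 0, nat_lit 100, nat_lit 66, nat_lit 75, nat_lit 11305957⟩]⟩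
noncomputable def p018_l7 : Lf2 := ⟨nat_lit 0, nat_lit 10, [nat_lit 0, nat_lit 5, nat_lit 5, nat_lit 20], true, nat_lit 0, nat_lit 0, nat_lit 0, nat_lit 0, ⟨nat_lit 0, nat_lit 0, nat_lit 1000, nat_lit 4, nat_lit 129, nat_lit 0, nat_lit 0, nat_lit 0, nat_lit 0, nat_lit 215, nat_lit 156817, nat_lit 312, nat_lit 60660292, nat_lit 0, nat_lit 0, nat_lit 1565517, false, false⟩,
 nat_lit 0, nat_lit 3376, nat_lit 0, nat_lit 0, nat_lit 2835, nat_lit 0, nat_lit 0, nat_lit 0, nat_lit 0, nat_lit 0, nat_lit 0, nat_lit 0, nat_lit 0, nat_lit 0, nat_lit 67, nat_lit 400000, nat_lit 0, nat_lit 0, [(nat_lit 21, [(nat_lit 5, nat_lit 1000)])],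
 ⟨p018_k5, nat_lit 0, nat_lit 0, nat_lit 410, nat_lit 0, nat_lit 742404, [nat_lit 1513600001, nat_lit 6800000], [], [nat_lit 20388388031, nat_lit 20993185968, nat_lit 21648850543, nat_lit 22177332028], nat_lit 1271250, nat_lit 1271250, nat_lit 230001, nat_lit 1100001, nat_lit 0, nat_lit 0, [nat_lit 490000, nat_lit 1100000], [nat_lit 24, nat_lit 40, nat_lit 80, nat_lit 80, nat_lit 33, nat_lit 249, nat_lit 40, nat_lit 12]⟩, C1.Rw.none,
 ⟨nat_lit 3162, nat_lit 3536, ⟨.ofNat (nat_lit 205023), .ofNat (nat_lit 393332), .ofNat (nat_lit 248912), .ofNat (nat_lit 437228), .ofNat (nat_lit 211851), .ofNat (nat_lit 394735), .ofNat (nat_lit 256144), .ofNat (nat_lit 439036)⟩, ⟨.ofNat (nat_lit 0), .ofNat (nat_lit 0), .ofNat (nat_lit 0), .ofNat (nat_lit 0), .ofNat (nat_lit 0), .ofNat (nat_lit 0), .ofNat (nat_lit 0), .ofNat (nat_lit 0)⟩⟩, [⟨nat_lit 0, nat_lit 100, nat_lit 60, nat_lit 80, nat_lit 5543751⟩]⟩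
noncomputable def p018_l8 : Lf2 := ⟨nat_lit 0, nat_lit 10, [nat_lit 0, nat_lit 5, nat_lit 5, nat_lit 20], false, nat_lit 0, nat_lit 0, nat_lit 0, nat_lit 0, ⟨nat_lit 467, nat_lit 0, nat_lit 533, nat_lit 4, nat_lit 232, nat_lit 0, nat_lit 0, nat_lit 0, nat_lit 0, nat_lit 215, nat_lit 272572, nat_lit 200, nat_lit 50175727, nat_lit 0, nat_lit 0, nat_lit 2817747, false, true⟩,
 nat_lit 0, nat_lit 4684, nat_lit 0, nat_lit 0, nat_lit 3513, nat_lit 4141, nat_lit 0, nat_lit 0, nat_lit 0, nat_lit 465, nat_lit 0, nat_lit 0, nat_lit 0, nat_lit 0, nat_lit 0, nat_lit 533000, nat_lit 0, nat_lit 0, [(nat_lit 18, [(nat_lit 6, nat_lit 533)])],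
 ⟨p018_k0, nat_lit 0, nat_lit 0, nat_lit 351, nat_lit 0, nat_lit 569253, [nat_lit 1513781867, nat_lit 1528518134, nat_lit 839623600], [], [nat_lit 22932296049, nat_lit 23339966707, nat_lit 28546886379, nat_lit 28886187448], nat_lit 1271250, nat_lit 1271250, nat_lit 1100001, nat_lit 2812500, nat_lit 0, nat_lit 0, [nat_lit 490000, nat_lit 1100000, nat_lit 1442500], [nat_lit 6, nat_lit 40, nat_lit 80, nat_lit 80, nat_lit 3, nat_lit 317, nat_lit 100, nat_lit 12]⟩, ⟨p018_k1, nat_lit 0, nat_lit 0, nat_lit 319, nat_lit 0, nat_lit 0, [nat_lit 3721056000, nat_lit 5544224000, nat_lit 6565086000], [], [nat_lit 16232871011, nat_lit 16512310567, nat_lit 20265486181, nat_lit 20253384475], nat_lit 0, nat_lit 0, nat_lit 0, nat_lit 0, nat_lit 0, nat_lit 0, [], [nat_lit 62, nat_lit 40, nat_lit 80, nat_lit 80, nat_lit 58, nat_lit 373, nat_lit 150, nat_lit 9]⟩,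
 ⟨nat_lit 4183, nat_lit 4473, ⟨.ofNat (nat_lit 388887), .ofNat (nat_lit 728778), .ofNat (nat_lit 432020), .ofNat (nat_lit 771911), .ofNat (nat_lit 390409), .ofNat (nat_lit 721688), .ofNat (nat_lit 433742), .ofNat (nat_lit 765021)⟩, ⟨.ofNat (nat_lit 0), .ofNat (nat_lit 0), .ofNat (nat_lit 0), .ofNat (nat_lit 0), .ofNat (nat_lit 0), .ofNat (nat_lit 0), .ofNat (nat_lit 0), .ofNat (nat_lit 0)⟩⟩, []⟩
noncomputable def p018_l9 : Lf2 := ⟨nat_lit 0, nat_lit 10, [nat_lit 0, nat_lit 5, nat_lit 5, nat_lit 20], false, nat_lit 0, nat_lit 0, nat_lit 0, nat_lit 0, ⟨nat_lit 515, nat_lit 0, nat_lit 485, nat_lit 4, nat_lit 228, nat_lit 0, nat_lit 0, nat_lit 0, nat_lit 0, nat_lit 215, nat_lit 232290, nat_lit 200, nat_lit 50578040, nat_lit 0, nat_lit 0, nat_lit 2784459, false, true⟩,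
 nat_lit 0, nat_lit 4707, nat_lit 0, nat_lit 0, nat_lit 3668, nat_lit 4888, nat_lit 77, nat_lit 0, nat_lit 0, nat_lit 605, nat_lit 0, nat_lit 0, nat_lit 0, nat_lit 0, nat_lit 0, nat_lit 485000, nat_lit 0, nat_lit 0, [(nat_lit 18, [(nat_lit 6, nat_lit 485)])],
 ⟨p018_k6, nat_lit 0, nat_lit 0, nat_lit 370, nat_lit 0, nat_lit 630859, [nat_lit 1560450667, nat_lit 1813049334, nat_lit 1326862000], [], [nat_lit 23512023936, nat_lit 23969313188, nat_lit 29002693785, nat_lit 29355767810], nat_lit 1271250, nat_lit 1271250, nat_lit 1100001, nat_lit 2744000, nat_lit 0, nat_lit 0, [nat_lit 490000, nat_lit 1100000, nat_lit 1442500], [nat_lit 6, nat_lit 40, nat_lit 80, nat_lit 80, nat_lit 3, nat_lit 317, nat_lit 100, nat_lit 12]⟩, ⟨p018_k1, nat_lit 0, nat_lit 0, nat_lit 315, nat_lit 0, nat_lit 0, [nat_lit 4103520000, nat_lit 6114080000, nat_lit 7239870000], [], [nat_lit 17245841511, nat_lit 17541493799,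 nat_lit 21877154081, nat_lit 22000161712], nat_lit 0, nat_lit 0, nat_lit 0, nat_lit 0, nat_lit 0, nat_lit 0, [], [nat_lit 62, nat_lit 40, nat_lit 80, nat_lit 80, nat_lit 58, nat_lit 373, nat_lit 150, nat_lit 9]⟩,
 ⟨nat_lit 3872, nat_lit 4184, ⟨.ofNat (nat_lit 390409), .ofNat (nat_lit 708436), .ofNat (nat_lit 433741), .ofNat (nat_lit 751770), .ofNat (nat_lit 391890), .ofNat (nat_lit 701594), .ofNat (nat_lit 435475), .ofNat (nat_lit 745180)⟩, ⟨.ofNat (nat_lit 0), .ofNat (nat_lit 0), .ofNat (nat_lit 0), .ofNat (nat_lit 0), .ofNat (nat_lit 0), .ofNat (nat_lit 0), .ofNat (nat_lit 0), .ofNat (nat_lit 0)⟩⟩, []⟩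
noncomputable def p018_l10 : Lf2 := ⟨nat_lit 0, nat_lit 10, [nat_lit 0, nat_lit 5, nat_lit 5, nat_lit 20], false, nat_lit 0, nat_lit 0, nat_lit 0, nat_lit 0, ⟨nat_lit 681, nat_lit 0, nat_lit 319, nat_lit 4, nat_lit 224, nat_lit 0, nat_lit 0, nat_lit 0, nat_lit 0, nat_lit 215, nat_lit 193302, nat_lit 200, nat_lit 51023338, nat_lit 0, nat_lit 0, nat_lit 2746476, false, true⟩,
 nat_lit 0, nat_lit 4540, nat_lit 0, nat_lit 0, nat_lit 3674, nat_lit 7447, nat_lit 400, nat_lit 0, nat_lit 0, nat_lit 399, nat_lit 0, nat_lit 0, nat_lit 0, nat_lit 0, nat_lit 0, nat_lit 319000, nat_lit 0, nat_lit 0, [(nat_lit 21, [(nat_lit 6, nat_lit 319)])],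
 ⟨p018_k7, nat_lit 0, nat_lit 0, nat_lit 435, nat_lit 0, nat_lit 778632, [nat_lit 1625466401, nat_lit 2329952001, nat_lit 2910580400], [], [nat_lit 23879674250, nat_lit 24765668942, nat_lit 29357528750, nat_lit 30124098344], nat_lit 1271250, nat_lit 1271250, nat_lit 1100001, nat_lit 2675500, nat_lit 0, nat_lit 0, [nat_lit 490000, nat_lit 1100000, nat_lit 1442500], [nat_lit 6, nat_lit 40, nat_lit 80, nat_lit 80, nat_lit 3, nat_lit 317, nat_lit 100, nat_lit 12]⟩, ⟨p018_k1, nat_lit 0, nat_lit 0, nat_lit 312, nat_lit 0, nat_lit 0, [nat_lit 5426208000, nat_lit 8084832000, nat_lit 9573498000], [], [nat_lit 24242368781, nat_lit 24595038873, nat_lit 31493052662, nat_lit 31414232359], nat_lit 0, nat_lit 0, nat_lit 0, nat_lit 0, nat_lit 0, nat_lit 0, [], [nat_lit 62, nat_lit 40, nat_lit 80, nat_lit 80, nat_lit 58, nat_lit 373, nat_lit 150, nat_lit 9]⟩,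
 ⟨nat_lit 3162, nat_lit 3873, ⟨.ofNat (nat_lit 391890), .ofNat (nat_lit 688690), .ofNat (nat_lit 435446), .ofNat (nat_lit 732276), .ofNat (nat_lit 394735), .ofNat (nat_lit 675121), .ofNat (nat_lit 439014), .ofNat (nat_lit 719431)⟩, ⟨.ofNat (nat_lit 0), .ofNat (nat_lit 0), .ofNat (nat_lit 0), .ofNat (nat_lit 0), .ofNat (nat_lit 0), .ofNat (nat_lit 0), .ofNat (nat_lit 0), .ofNat (nat_lit 0)⟩⟩, []⟩
noncomputable def p018_l11 : Lf2 := ⟨nat_lit 0, nat_lit 10, [nat_lit 0, nat_lit 5, nat_lit 5, nat_lit 20], false, nat_lit 0, nat_lit 0, nat_lit 0, nat_lit 0, ⟨nat_lit 0, nat_lit 0, nat_lit 1000, nat_lit 4, nat_lit 119, nat_lit 0, nat_lit 0, nat_lit 0, nat_lit 0, nat_lit 215, nat_lit 132017, nat_lit 304, nat_lit 61553016, nat_lit 0, nat_lit 0, nat_lit 1409640, false, false⟩,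
 nat_lit 0, nat_lit 3397, nat_lit 0, nat_lit 0, nat_lit 2547, nat_lit 0, nat_lit 0, nat_lit 0, nat_lit 0, nat_lit 0, nat_lit 0, nat_lit 0, nat_lit 0, nat_lit 0, nat_lit 76, nat_lit 400000, nat_lit 0, nat_lit 0, [(nat_lit 18, [(nat_lit 5, nat_lit 1000)]), (nat_lit 21, [(nat_lit 5, nat_lit 1000)])],
 ⟨p018_k8, nat_lit 0, nat_lit 0, nat_lit 415, nat_lit 0, nat_lit 539196, [nat_lit 1693000001, nat_lit 251500000], [], [nat_lit 18567999739, nat_lit 20839045126, nat_lit 19840669709, nat_lit 22020734478], nat_lit 1271250, nat_lit 1271250, nat_lit 88400, nat_lit 1100001, nat_lit 0, nat_lit 0, [nat_lit 490000, nat_lit 1427500], [nat_lit 69, nat_lit 40, nat_lit 80, nat_lit 80, nat_lit 64, nat_lit 249, nat_lit 40, nat_lit 10]⟩, ⟨p018_k9, nat_lit 0, nat_lit 0, nat_lit 1143, nat_lit 0, nat_lit 1437856, [nat_lit 0, nat_lit 0], [], [nat_lit 0, nat_lit 0, nat_lit 0, nat_lit 0], nat_lit 1100001, nat_lit 1442500,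 nat_lit 88400, nat_lit 1100001, nat_lit 0, nat_lit 0, [nat_lit 1695000, nat_lit 1271250], [nat_lit 121, nat_lit 40, nat_lit 80, nat_lit 80, nat_lit 28, nat_lit 331, nat_lit 100, nat_lit 8]⟩,
 ⟨nat_lit 3162, nat_lit 4473, ⟨.ofNat (nat_lit 143971), .ofNat (nat_lit 388887), .ofNat (nat_lit 186943), .ofNat (nat_lit 431944), .ofNat (nat_lit 175109), .ofNat (nat_lit 394735), .ofNat (nat_lit 219258), .ofNat (nat_lit 438969)⟩, ⟨.ofNat (nat_lit 0), .ofNat (nat_lit 0), .ofNat (nat_lit 0), .ofNat (nat_lit 0), .ofNat (nat_lit 0), .ofNat (nat_lit 0), .ofNat (nat_lit 0), .ofNat (nat_lit 0)⟩⟩, [⟨nat_lit 0, nat_lit 100, nat_lit 60, nat_lit 80, nat_lit 18595705⟩]⟩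
noncomputable def p018_l12 : Lf2 := ⟨nat_lit 0, nat_lit 10, [nat_lit 0, nat_lit 5, nat_lit 5, nat_lit 20], false, nat_lit 0, nat_lit 0, nat_lit 0, nat_lit 0, ⟨nat_lit 0, nat_lit 0, nat_lit 1000, nat_lit 4, nat_lit 191, nat_lit 0, nat_lit 0, nat_lit 0, nat_lit 0, nat_lit 215, nat_lit 1350, nat_lit 224, nat_lit 54533725, nat_lit 0, nat_lit 0, nat_lit 2402322, false, true⟩,
 nat_lit 0, nat_lit 3793, nat_lit 0, nat_lit 0, nat_lit 2844, nat_lit 0, nat_lit 0, nat_lit 0, nat_lit 0, nat_lit 0, nat_lit 0, nat_lit 0, nat_lit 0, nat_lit 0, nat_lit 76, nat_lit 400000, nat_lit 0, nat_lit 0, [(nat_lit 18, [(nat_lit 5, nat_lit 1000)]), (nat_lit 21, [(nat_lit 5, nat_lit 1000)])],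
 ⟨p018_k0, nat_lit 0, nat_lit 0, nat_lit 337, nat_lit 0, nat_lit 539196, [nat_lit 1585600001, nat_lit 802000001, nat_lit 14800000], [], [nat_lit 18112601910, nat_lit 20534866950, nat_lit 20651635910, nat_lit 22782305190], nat_lit 1271250, nat_lit 1271250, nat_lit 1100001, nat_lit 1785000, nat_lit 0, nat_lit 0, [nat_lit 490000, nat_lit 1100000, nat_lit 1442500], [nat_lit 6, nat_lit 40, nat_lit 80, nat_lit 80, nat_lit 3, nat_lit 272, nat_lit 60, nat_lit 10]⟩, ⟨p018_k1, nat_lit 0, nat_lit 0, nat_lit 1049, nat_lit 0, nat_lit 1437856, [nat_lit 0, nat_lit 0, nat_lit 0], [], [nat_lit 0, nat_lit 0, nat_lit 0, nat_lit 0], nat_lit 1100001, nat_lit 1442500, nat_lit 1100001, nat_lit 1785000, nat_lit 0, nat_lit 0, [nat_lit 1695000, nat_lit 1271250, nat_lit 1271250], [nat_lit 62, nat_lit 40, nat_lit 80, nat_lit 80, nat_lit 58, nat_lit 345, nat_lit 125, nat_lit 8]⟩,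
 ⟨nat_lit 3162, nat_lit 4473, ⟨.ofNat (nat_lit 388887), .ofNat (nat_lit 524844), .ofNat (nat_lit 431944), .ofNat (nat_lit 567977), .ofNat (nat_lit 394735), .ofNat (nat_lit 516642), .ofNat (nat_lit 438969), .ofNat (nat_lit 560952)⟩, ⟨.ofNat (nat_lit 0), .ofNat (nat_lit 0), .ofNat (nat_lit 0), .ofNat (nat_lit 0), .ofNat (nat_lit 0), .ofNat (nat_lit 0), .ofNat (nat_lit 0), .ofNat (nat_lit 0)⟩⟩, []⟩
noncomputable def p018_l13 : Lf2 := ⟨nat_lit 0, nat_lit 10, [nat_lit 0, nat_lit 5, nat_lit 5, nat_lit 20], false, nat_lit 0, nat_lit 0, nat_lit 0, nat_lit 0, ⟨nat_lit 94, nat_lit 162, nat_lit 744, nat_lit 6, nat_lit 251, nat_lit 0, nat_lit 0, nat_lit 0, nat_lit 0, nat_lit 215, nat_lit 188652, nat_lit 200, nat_lit 48121280, nat_lit 18878720, nat_lit 0, nat_lit 2973094, false, true⟩,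
 nat_lit 3516, nat_lit 0, nat_lit 0, nat_lit 0, nat_lit 2637, nat_lit 1172, nat_lit 0, nat_lit 0, nat_lit 0, nat_lit 78, nat_lit 0, nat_lit 0, nat_lit 0, nat_lit 0, nat_lit 11, nat_lit 362400, nat_lit 0, nat_lit 0, [(nat_lit 18, [(nat_lit 1, nat_lit 162), (nat_lit 5, nat_lit 744)])],
 ⟨p018_k0, nat_lit 0, nat_lit 0, nat_lit 249, nat_lit 0, nat_lit 293170, [nat_lit 1196532801, nat_lit 627256000, nat_lit 5280800], [], [nat_lit 21876885733, nat_lit 22085857217, nat_lit 25519878882, nat_lit 25705800765], nat_lit 1271250, nat_lit 1271250, nat_lit 1271250, nat_lit 1271250, nat_lit 0, nat_lit 0, [nat_lit 490000, nat_lit 1100000, nat_lit 1442500], [nat_lit 6, nat_lit 40, nat_lit 80, nat_lit 80, nat_lit 3, nat_lit 203, nat_lit 0, nat_lit 7]⟩, ⟨p018_k1, nat_lit 0, nat_lit 0, nat_lit 699, nat_lit 0, nat_lit 757046, [nat_lit 748992000, nat_lit 1115968000, nat_lit 1321452000], [], [nat_lit 4421773328,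 nat_lit 4372065840, nat_lit 4585956798, nat_lit 4538406860], nat_lit 1100001, nat_lit 1271250, nat_lit 1271250, nat_lit 1271250, nat_lit 0, nat_lit 0, [nat_lit 1695000, nat_lit 1271250, nat_lit 1271250], [nat_lit 62, nat_lit 40, nat_lit 80, nat_lit 80, nat_lit 58, nat_lit 373, nat_lit 150, nat_lit 9]⟩,
 ⟨nat_lit 4330, nat_lit 4473, ⟨.ofNat (nat_lit 524844), .ofNat (nat_lit 708385), .ofNat (nat_lit 546410), .ofNat (nat_lit 729951), .ofNat (nat_lit 523889), .ofNat (nat_lit 705106), .ofNat (nat_lit 545502), .ofNat (nat_lit 726720)⟩, ⟨.ofNat (nat_lit 0), .ofNat (nat_lit 0), .ofNat (nat_lit 0), .ofNat (nat_lit 0), .ofNat (nat_lit 0), .ofNat (nat_lit 0), .ofNat (nat_lit 0), .ofNat (nat_lit 0)⟩⟩, [⟨nat_lit 13, nat_lit 80, nat_lit 68, nat_lit 100, nat_lit 177328390⟩]⟩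
noncomputable def p018_l14 : Lf2 := ⟨nat_lit 0, nat_lit 10, [nat_lit 0, nat_lit 5, nat_lit 5, nat_lit 20], false, nat_lit 0, nat_lit 0, nat_lit 0, nat_lit 0, ⟨nat_lit 99, nat_lit 271, nat_lit 630, nat_lit 6, nat_lit 248, nat_lit 0, nat_lit 0, nat_lit 0, nat_lit 0, nat_lit 215, nat_lit 168766, nat_lit 200, nat_lit 48356654, nat_lit 18643346, nat_lit 0, nat_lit 2956506, false, true⟩,
 nat_lit 3739, nat_lit 0, nat_lit 0, nat_lit 0, nat_lit 2859, nat_lit 1246, nat_lit 0, nat_lit 0, nat_lit 0, nat_lit 84, nat_lit 0, nat_lit 0, nat_lit 0, nat_lit 0, nat_lit 0, nat_lit 360400, nat_lit 0, nat_lit 0, [(nat_lit 18, [(nat_lit 1, nat_lit 271), (nat_lit 5, nat_lit 630)])],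
 ⟨p018_k10, nat_lit 0, nat_lit 0, nat_lit 256, nat_lit 0, nat_lit 315051, [nat_lit 1165206134, nat_lit 736258667, nat_lit 201850800], [], [nat_lit 22798419705, nat_lit 23001628005, nat_lit 26096614776, nat_lit 26264003062], nat_lit 1271250, nat_lit 1271250, nat_lit 1271250, nat_lit 1271250, nat_lit 0, nat_lit 0, [nat_lit 490000, nat_lit 1100000, nat_lit 1442500], [nat_lit 6, nat_lit 40, nat_lit 80, nat_lit 80, nat_lit 3, nat_lit 203, nat_lit 0, nat_lit 7]⟩, ⟨p018_k1, nat_lit 0, nat_lit 0, nat_lit 748, nat_lit 0, nat_lit 831319, [nat_lit 788832000, nat_lit 1175328000, nat_lit 1391742000], [], [nat_lit 4621739176, nat_lit 4568594192, nat_lit 4794354676, nat_lit 4743322801], nat_lit 1100001, nat_lit 1271250, nat_lit 1271250, nat_lit 1271250, nat_lit 0, nat_lit 0, [nat_lit 1695000, nat_lit 1271250, nat_lit 1271250], [nat_lit 62, nat_lit 40, nat_lit 80, nat_lit 80, nat_lit 58, nat_lit 373, nat_lit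 150, nat_lit 9]⟩,
 ⟨nat_lit 4183, nat_lit 4331, ⟨.ofNat (nat_lit 523889), .ofNat (nat_lit 698395), .ofNat (nat_lit 545502), .ofNat (nat_lit 720008), .ofNat (nat_lit 522921), .ofNat (nat_lit 695185), .ofNat (nat_lit 544587), .ofNat (nat_lit 716852)⟩, ⟨.ofNat (nat_lit 0), .ofNat (nat_lit 0), .ofNat (nat_lit 0), .ofNat (nat_lit 0), .ofNat (nat_lit 0), .ofNat (nat_lit 0), .ofNat (nat_lit 0), .ofNat (nat_lit 0)⟩⟩, [⟨nat_lit 13, nat_lit 78, nat_lit 75, nat_lit 100, nat_lit 157924476⟩]⟩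
noncomputable def p018_l15 : Lf2 := ⟨nat_lit 0, nat_lit 10, [nat_lit 0, nat_lit 5, nat_lit 5, nat_lit 20], false, nat_lit 0, nat_lit 0, nat_lit 0, nat_lit 0, ⟨nat_lit 96, nat_lit 284, nat_lit 620, nat_lit 6, nat_lit 246, nat_lit 0, nat_lit 0, nat_lit 0, nat_lit 0, nat_lit 215, nat_lit 149202, nat_lit 200, nat_lit 48589132, nat_lit 18410868, nat_lit 0, nat_lit 2939820, false, true⟩,
 nat_lit 3674, nat_lit 0, nat_lit 0, nat_lit 0, nat_lit 2863, nat_lit 1224, nat_lit 0, nat_lit 0, nat_lit 0, nat_lit 82, nat_lit 0, nat_lit 0, nat_lit 0, nat_lit 0, nat_lit 0, nat_lit 361600, nat_lit 0, nat_lit 0, [(nat_lit 18, [(nat_lit 1, nat_lit 284), (nat_lit 5, nat_lit 620)])],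
 ⟨p018_k6, nat_lit 0, nat_lit 0, nat_lit 262, nat_lit 0, nat_lit 336268, [nat_lit 1167997867, nat_lit 751901334, nat_lit 223643200], [], [nat_lit 22832630635, nat_lit 23047553151, nat_lit 26130785848, nat_lit 26313003856], nat_lit 1271250, nat_lit 1271250, nat_lit 1271250, nat_lit 1271250, nat_lit 0, nat_lit 0, [nat_lit 490000, nat_lit 1100000, nat_lit 1442500], [nat_lit 6, nat_lit 40, nat_lit 80, nat_lit 80, nat_lit 3, nat_lit 203, nat_lit 0, nat_lit 7]⟩, ⟨p018_k1, nat_lit 0, nat_lit 0, nat_lit 779, nat_lit 0, nat_lit 906425, [nat_lit 764928000, nat_lit 1139712000, nat_lit 1349568000], [], [nat_lit 4434067584, nat_lit 4381460688, nat_lit 4613150140, nat_lit 4564484668], nat_lit 1100001, nat_lit 1271250, nat_lit 1271250, nat_lit 1271250, nat_lit 0, nat_lit 0, [nat_lit 1695000, nat_lit 1271250, nat_lit 1271250], [nat_lit 62, nat_lit 40, nat_lit 80, nat_lit 80, nat_lit 58, nat_lit 373, nat_lit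 150, nat_lit 9]⟩,
 ⟨nat_lit 4031, nat_lit 4184, ⟨.ofNat (nat_lit 522921), .ofNat (nat_lit 688560), .ofNat (nat_lit 544587), .ofNat (nat_lit 710226), .ofNat (nat_lit 521937), .ofNat (nat_lit 685414), .ofNat (nat_lit 543663), .ofNat (nat_lit 707140)⟩, ⟨.ofNat (nat_lit 0), .ofNat (nat_lit 0), .ofNat (nat_lit 0), .ofNat (nat_lit 0), .ofNat (nat_lit 0), .ofNat (nat_lit 0), .ofNat (nat_lit 0), .ofNat (nat_lit 0)⟩⟩, [⟨nat_lit 13, nat_lit 76, nat_lit 73, nat_lit 100, nat_lit 174427986⟩]⟩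
noncomputable def p018_l16 : Lf2 := ⟨nat_lit 0, nat_lit 10, [nat_lit 0, nat_lit 5, nat_lit 5, nat_lit 20], false, nat_lit 0, nat_lit 0, nat_lit 0, nat_lit 0, ⟨nat_lit 94, nat_lit 291, nat_lit 615, nat_lit 6, nat_lit 244, nat_lit 0, nat_lit 0, nat_lit 0, nat_lit 0, nat_lit 215, nat_lit 129952, nat_lit 200, nat_lit 48818858, nat_lit 18181142, nat_lit 0, nat_lit 2923034, false, true⟩,
 nat_lit 3602, nat_lit 0, nat_lit 0, nat_lit 0, nat_lit 2861, nat_lit 1200, nat_lit 0, nat_lit 0, nat_lit 0, nat_lit 81, nat_lit 0, nat_lit 0, nat_lit 0, nat_lit 0, nat_lit 0, nat_lit 362400, nat_lit 0, nat_lit 0, [(nat_lit 18, [(nat_lit 1, nat_lit 291), (nat_lit 5, nat_lit 615)])],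
 ⟨p018_k11, nat_lit 0, nat_lit 0, nat_lit 268, nat_lit 0, nat_lit 357616, [nat_lit 1169076801, nat_lit 758362000, nat_lit 232394800], [], [nat_lit 23075219753, nat_lit 23290089605, nat_lit 26187293792, nat_lit 26366687495], nat_lit 1271250, nat_lit 1271250, nat_lit 1271250, nat_lit 1271250, nat_lit 0, nat_lit 0, [nat_lit 490000, nat_lit 1100000, nat_lit 1442500], [nat_lit 6, nat_lit 40, nat_lit 80, nat_lit 80, nat_lit 3, nat_lit 203, nat_lit 0, nat_lit 7]⟩, ⟨p018_k1, nat_lit 0, nat_lit 0, nat_lit 812, nat_lit 0, nat_lit 984466, [nat_lit 748992000, nat_lit 1115968000, nat_lit 1321452000], [], [nat_lit 4337158224, nat_lit 4285545224, nat_lit 4493293706, nat_lit 4445069775], nat_lit 1100001, nat_lit 1271250, nat_lit 1271250, nat_lit 1271250, nat_lit 0, nat_lit 0, [nat_lit 1695000, nat_lit 1271250, nat_lit 1271250], [nat_lit 62, nat_lit 40, nat_lit 80, nat_lit 80, nat_lit 58, nat_lit 373, nat_lit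 150, nat_lit 9]⟩,
 ⟨nat_lit 3872, nat_lit 4032, ⟨.ofNat (nat_lit 521937), .ofNat (nat_lit 678875), .ofNat (nat_lit 543663), .ofNat (nat_lit 700601), .ofNat (nat_lit 520934), .ofNat (nat_lit 675785), .ofNat (nat_lit 542727), .ofNat (nat_lit 697579)⟩, ⟨.ofNat (nat_lit 0), .ofNat (nat_lit 0), .ofNat (nat_lit 0), .ofNat (nat_lit 0), .ofNat (nat_lit 0), .ofNat (nat_lit 0), .ofNat (nat_lit 0), .ofNat (nat_lit 0)⟩⟩, [⟨nat_lit 13, nat_lit 73, nat_lit 80, nat_lit 100, nat_lit 182881726⟩]⟩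
noncomputable def p018_l17 : Lf2 := ⟨nat_lit 0, nat_lit 10, [nat_lit 0, nat_lit 5, nat_lit 5, nat_lit 20], false, nat_lit 0, nat_lit 0, nat_lit 0, nat_lit 0, ⟨nat_lit 94, nat_lit 183, nat_lit 723, nat_lit 6, nat_lit 249, nat_lit 0, nat_lit 0, nat_lit 0, nat_lit 0, nat_lit 215, nat_lit 188652, nat_lit 200, nat_lit 48259216, nat_lit 18740784, nat_lit 0, nat_lit 2963410, false, true⟩,
 nat_lit 3536, nat_lit 0, nat_lit 0, nat_lit 0, nat_lit 2651, nat_lit 1178, nat_lit 0, nat_lit 0, nat_lit 0, nat_lit 79, nat_lit 0, nat_lit 0, nat_lit 0, nat_lit 0, nat_lit 2, nat_lit 334950, nat_lit 0, nat_lit 0, [(nat_lit 18, [(nat_lit 0, nat_lit 183), (nat_lit 5, nat_lit 723)])],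
 ⟨p018_k0, nat_lit 0, nat_lit 0, nat_lit 242, nat_lit 0, nat_lit 253652, [nat_lit 1159032800, nat_lit 570094001, nat_lit 8086400], [], [nat_lit 21896200257, nat_lit 22812628729, nat_lit 25832081823, nat_lit 26577206671], nat_lit 1271250, nat_lit 1271250, nat_lit 1271250, nat_lit 1271250, nat_lit 0, nat_lit 0, [nat_lit 490000, nat_lit 1100000, nat_lit 1442500], [nat_lit 6, nat_lit 40, nat_lit 80, nat_lit 80, nat_lit 3, nat_lit 203, nat_lit 0, nat_lit 7]⟩, ⟨p018_k1, nat_lit 0, nat_lit 0, nat_lit 665, nat_lit 0, nat_lit 676403, [nat_lit 748992000, nat_lit 1115968000, nat_lit 1321452000], [], [nat_lit 4318544312, nat_lit 4286229864, nat_lit 4575782814, nat_lit 4528317793], nat_lit 1100001, nat_lit 1271250, nat_lit 1271250, nat_lit 1271250, nat_lit 0, nat_lit 0, [nat_lit 1695000, nat_lit 1271250, nat_lit 1271250], [nat_lit 62, nat_lit 40, nat_lit 80, nat_lit 80, nat_lit 58, nat_lit 373, nat_lit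 150, nat_lit 9]⟩,
 ⟨nat_lit 3872, nat_lit 4473, ⟨.ofNat (nat_lit 524844), .ofNat (nat_lit 708385), .ofNat (nat_lit 546410), .ofNat (nat_lit 729951), .ofNat (nat_lit 520934), .ofNat (nat_lit 695142), .ofNat (nat_lit 542727), .ofNat (nat_lit 716935)⟩, ⟨.ofNat (nat_lit 0), .ofNat (nat_lit 0), .ofNat (nat_lit 0), .ofNat (nat_lit 0), .ofNat (nat_lit 0), .ofNat (nat_lit 0), .ofNat (nat_lit 0), .ofNat (nat_lit 0)⟩⟩, [⟨nat_lit 13, nat_lit 77, nat_lit 77, nat_lit 100, nat_lit 207156036⟩]⟩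
noncomputable def p018_l18 : Lf2 := ⟨nat_lit 0, nat_lit 10, [nat_lit 0, nat_lit 5, nat_lit 5, nat_lit 20], false, nat_lit 0, nat_lit 0, nat_lit 0, nat_lit 0, ⟨nat_lit 138, nat_lit 67, nat_lit 795, nat_lit 6, nat_lit 249, nat_lit 0, nat_lit 0, nat_lit 0, nat_lit 0, nat_lit 215, nat_lit 136616, nat_lit 200, nat_lit 48324545, nat_lit 18675455, nat_lit 0, nat_lit 2958787, true, true⟩,
 nat_lit 3764, nat_lit 0, nat_lit 0, nat_lit 0, nat_lit 2823, nat_lit 1431, nat_lit 0, nat_lit 0, nat_lit 0, nat_lit 324, nat_lit 0, nat_lit 0, nat_lit 0, nat_lit 0, nat_lit 11, nat_lit 344800, nat_lit 0, nat_lit 0, [(nat_lit 18, [(nat_lit 1, nat_lit 67), (nat_lit 5, nat_lit 795)])],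
 ⟨p018_k0, nat_lit 0, nat_lit 0, nat_lit 282, nat_lit 0, nat_lit 415959, [nat_lit 1200486934, nat_lit 625580667, nat_lit 17239600], [], [nat_lit 21839490825, nat_lit 22723204447, nat_lit 24534285213, nat_lit 25299494864], nat_lit 1271250, nat_lit 1271250, nat_lit 1271250, nat_lit 1271250, nat_lit 0, nat_lit 0, [nat_lit 490000, nat_lit 1100000, nat_lit 1442500], [nat_lit 6, nat_lit 40, nat_lit 80, nat_lit 80, nat_lit 3, nat_lit 203, nat_lit 0, nat_lit 7]⟩, ⟨p018_k2, nat_lit 0, nat_lit 0, nat_lit 784, nat_lit 0, nat_lit 938047, [nat_lit 1099584000, nat_lit 1638336000, nat_lit 1940004000], [], [nat_lit 5206409478, nat_lit 5175927432, nat_lit 5417278272, nat_lit 5377821420], nat_lit 1271250, nat_lit 1271250, nat_lit 1271250, nat_lit 1271250, nat_lit 0, nat_lit 0, [nat_lit 1695000, nat_lit 1271250, nat_lit 1271250], [nat_lit 62, nat_lit 40, nat_lit 80, nat_lit 80, nat_lit 58, nat_lit 373, nat_lit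 150, nat_lit 9]⟩,
 ⟨nat_lit 3872, nat_lit 4473, ⟨.ofNat (nat_lit 546410), .ofNat (nat_lit 682366), .ofNat (nat_lit 567977), .ofNat (nat_lit 703933), .ofNat (nat_lit 542727), .ofNat (nat_lit 671770), .ofNat (nat_lit 564520), .ofNat (nat_lit 693563)⟩, ⟨.ofNat (nat_lit 0), .ofNat (nat_lit 0), .ofNat (nat_lit 0), .ofNat (nat_lit 0), .ofNat (nat_lit 0), .ofNat (nat_lit 0), .ofNat (nat_lit 0), .ofNat (nat_lit 0)⟩⟩, []⟩
noncomputable def p018_l19 : Lf2 := ⟨nat_lit 0, nat_lit 10, [nat_lit 0, nat_lit 5, nat_lit 5, nat_lit 20], false, nat_lit 0, nat_lit 0, nat_lit 0, nat_lit 0, ⟨nat_lit 159, nat_lit 278, nat_lit 563, nat_lit 8, nat_lit 290, nat_lit 0, nat_lit 0, nat_lit 0, nat_lit 0, nat_lit 215, nat_lit 272572, nat_lit 200, nat_lit 43954033, nat_lit 23045967, nat_lit 0, nat_lit 3218166, true, true⟩,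
 nat_lit 3964, nat_lit 0, nat_lit 0, nat_lit 0, nat_lit 2972, nat_lit 1507, nat_lit 73, nat_lit 0, nat_lit 0, nat_lit 293, nat_lit 0, nat_lit 0, nat_lit 0, nat_lit 0, nat_lit 0, nat_lit 336400, nat_lit 0, nat_lit 0, [(nat_lit 18, [(nat_lit 1, nat_lit 278), (nat_lit 5, nat_lit 563)])],
 ⟨p018_k3, nat_lit 0, nat_lit 0, nat_lit 267, nat_lit 0, nat_lit 356846, [nat_lit 1222970401, nat_lit 1220292001, nat_lit 772122399], [], [nat_lit 25769968350, nat_lit 26107043478, nat_lit 27165399766, nat_lit 27540722612], nat_lit 1271250, nat_lit 1271250, nat_lit 1271250, nat_lit 1271250, nat_lit 0, nat_lit 0, [nat_lit 490000, nat_lit 780000, nat_lit 1435000], [nat_lit 85, nat_lit 40, nat_lit 80, nat_lit 80, nat_lit 16, nat_lit 203, nat_lit 0, nat_lit 6]⟩, ⟨p018_k12, nat_lit 0, nat_lit 0, nat_lit 684, nat_lit 0, nat_lit 804738, [nat_lit 1266912000, nat_lit 1564878000, nat_lit 2235222000], [], [nat_lit 6366055452,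 nat_lit 6317890348, nat_lit 6530144854, nat_lit 6484420256], nat_lit 1271250, nat_lit 1271250, nat_lit 1271250, nat_lit 1271250, nat_lit 0, nat_lit 0, [nat_lit 1695000, nat_lit 1271250, nat_lit 1271250], [nat_lit 92, nat_lit 40, nat_lit 80, nat_lit 80, nat_lit 32, nat_lit 373, nat_lit 150, nat_lit 8]⟩,
 ⟨nat_lit 4183, nat_lit 4473, ⟨.ofNat (nat_lit 682366), .ofNat (nat_lit 750345), .ofNat (nat_lit 703933), .ofNat (nat_lit 771911), .ofNat (nat_lit 677099), .ofNat (nat_lit 743354), .ofNat (nat_lit 698765), .ofNat (nat_lit 765021)⟩, ⟨.ofNat (nat_lit 0), .ofNat (nat_lit 0), .ofNat (nat_lit 0), .ofNat (nat_lit 0), .ofNat (nat_lit 0), .ofNat (nat_lit 0), .ofNat (nat_lit 0), .ofNat (nat_lit 0)⟩⟩, [⟨nat_lit 13, nat_lit 78, nat_lit 66, nat_lit 100, nat_lit 166825278⟩]⟩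
noncomputable def p018_l20 : Lf2 := ⟨nat_lit 0, nat_lit 10, [nat_lit 0, nat_lit 5, nat_lit 5, nat_lit 20], false, nat_lit 0, nat_lit 0, nat_lit 0, nat_lit 0, ⟨nat_lit 165, nat_lit 486, nat_lit 349, nat_lit 8, nat_lit 285, nat_lit 0, nat_lit 0, nat_lit 0, nat_lit 0, nat_lit 215, nat_lit 232290, nat_lit 200, nat_lit 44483759, nat_lit 22516241, nat_lit 0, nat_lit 3191947, true, true⟩,
 nat_lit 4169, nat_lit 0, nat_lit 0, nat_lit 0, nat_lit 3249, nat_lit 1585, nat_lit 180, nat_lit 0, nat_lit 0, nat_lit 311, nat_lit 0, nat_lit 0, nat_lit 0, nat_lit 0, nat_lit 0, nat_lit 261100, nat_lit 0, nat_lit 0, [(nat_lit 18, [(nat_lit 0, nat_lit 486), (nat_lit 5, nat_lit 349)])],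
 ⟨p018_k13, nat_lit 0, nat_lit 0, nat_lit 294, nat_lit 0, nat_lit 398043, [nat_lit 1404372001, nat_lit 1535373334, nat_lit 1781130666], [], [nat_lit 26658845681, nat_lit 27041889967, nat_lit 27907858526, nat_lit 28302194170], nat_lit 1271250, nat_lit 1271250, nat_lit 1271250, nat_lit 1271250, nat_lit 0, nat_lit 0, [nat_lit 490000, nat_lit 780000, nat_lit 1435000], [nat_lit 85, nat_lit 40, nat_lit 80, nat_lit 80, nat_lit 16, nat_lit 203, nat_lit 0, nat_lit 6]⟩, ⟨p018_k12, nat_lit 0, nat_lit 0, nat_lit 762, nat_lit 0, nat_lit 938047, [nat_lit 1314720000, nat_lit 1623930000, nat_lit 2319570000], [], [nat_lit 6492749940, nat_lit 6448222420, nat_lit 6648778706, nat_lit 6601697605], nat_lit 1271250, nat_lit 1271250, nat_lit 1271250, nat_lit 1271250, nat_lit 0, nat_lit 0, [nat_lit 1695000, nat_lit 1271250, nat_lit 1271250], [nat_lit 92, nat_lit 40, nat_lit 80, nat_lit 80, nat_lit 32, nat_lit 373,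 nat_lit 150, nat_lit 8]⟩,
 ⟨nat_lit 3872, nat_lit 4184, ⟨.ofNat (nat_lit 677099), .ofNat (nat_lit 730103), .ofNat (nat_lit 698765), .ofNat (nat_lit 751770), .ofNat (nat_lit 671770), .ofNat (nat_lit 723387), .ofNat (nat_lit 693563), .ofNat (nat_lit 745180)⟩, ⟨.ofNat (nat_lit 0), .ofNat (nat_lit 0), .ofNat (nat_lit 0), .ofNat (nat_lit 0), .ofNat (nat_lit 0), .ofNat (nat_lit 0), .ofNat (nat_lit 0), .ofNat (nat_lit 0)⟩⟩, [⟨nat_lit 13, nat_lit 74, nat_lit 71, nat_lit 100, nat_lit 184805049⟩]⟩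
noncomputable def p018_l21 : Lf2 := ⟨nat_lit 0, nat_lit 10, [nat_lit 0, nat_lit 5, nat_lit 5, nat_lit 20], false, nat_lit 0, nat_lit 0, nat_lit 0, nat_lit 0, ⟨nat_lit 93, nat_lit 738, nat_lit 169, nat_lit 6, nat_lit 242, nat_lit 0, nat_lit 0, nat_lit 0, nat_lit 0, nat_lit 215, nat_lit 111002, nat_lit 200, nat_lit 49090068, nat_lit 17909932, nat_lit 0, nat_lit 2902835, false, true⟩,
 nat_lit 3638, nat_lit 0, nat_lit 0, nat_lit 0, nat_lit 2945, nat_lit 1212, nat_lit 174, nat_lit 0, nat_lit 0, nat_lit 86, nat_lit 0, nat_lit 0, nat_lit 0, nat_lit 0, nat_lit 0, nat_lit 464200, nat_lit 0, nat_lit 0, [(nat_lit 21, [(nat_lit 1, nat_lit 738), (nat_lit 6, nat_lit 169)])],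
 ⟨p018_k7, nat_lit 0, nat_lit 0, nat_lit 292, nat_lit 0, nat_lit 407592, [nat_lit 1317148000, nat_lit 1080694401, nat_lit 969436400], [], [nat_lit 23374817071, nat_lit 23823549436, nat_lit 26516534923, nat_lit 26928103973], nat_lit 1271250, nat_lit 1271250, nat_lit 1271250, nat_lit 1271250, nat_lit 0, nat_lit 0, [nat_lit 490000, nat_lit 1100000, nat_lit 1442500], [nat_lit 6, nat_lit 40, nat_lit 80, nat_lit 80, nat_lit 3, nat_lit 203, nat_lit 0, nat_lit 7]⟩, ⟨p018_k1, nat_lit 0, nat_lit 0, nat_lit 880, nat_lit 0, nat_lit 1145593, [nat_lit 741024000, nat_lit 1104096000, nat_lit 1307394000], [], [nat_lit 4216176312, nat_lit 4163426964, nat_lit 4388061764, nat_lit 4339382772], nat_lit 1100001, nat_lit 1271250, nat_lit 1271250, nat_lit 1271250, nat_lit 0, nat_lit 0, [nat_lit 1695000, nat_lit 1271250, nat_lit 1271250], [nat_lit 62, nat_lit 40, nat_lit 80, nat_lit 80, nat_lit 58, nat_lit 373, nat_lit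 150, nat_lit 9]⟩,
 ⟨nat_lit 3535, nat_lit 3873, ⟨.ofNat (nat_lit 520934), .ofNat (nat_lit 669333), .ofNat (nat_lit 542727), .ofNat (nat_lit 691126), .ofNat (nat_lit 518855), .ofNat (nat_lit 663206), .ofNat (nat_lit 540807), .ofNat (nat_lit 685159)⟩, ⟨.ofNat (nat_lit 0), .ofNat (nat_lit 0), .ofNat (nat_lit 0), .ofNat (nat_lit 0), .ofNat (nat_lit 0), .ofNat (nat_lit 0), .ofNat (nat_lit 0), .ofNat (nat_lit 0)⟩⟩, [⟨nat_lit 13, nat_lit 70, nat_lit 83, nat_lit 100, nat_lit 166742530⟩]⟩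
noncomputable def p018_l22 : Lf2 := ⟨nat_lit 0, nat_lit 10, [nat_lit 0, nat_lit 5, nat_lit 5, nat_lit 20], false, nat_lit 0, nat_lit 0, nat_lit 0, nat_lit 0, ⟨nat_lit 86, nat_lit 429, nat_lit 485, nat_lit 6, nat_lit 236, nat_lit 0, nat_lit 0, nat_lit 0, nat_lit 0, nat_lit 215, nat_lit 61410, nat_lit 200, nat_lit 49672052, nat_lit 17327948, nat_lit 0, nat_lit 2858073, false, true⟩,
 nat_lit 3387, nat_lit 0, nat_lit 0, nat_lit 0, nat_lit 2845, nat_lit 1129, nat_lit 0, nat_lit 0, nat_lit 0, nat_lit 77, nat_lit 0, nat_lit 0, nat_lit 0, nat_lit 0, nat_lit 0, nat_lit 365600, nat_lit 0, nat_lit 0, [(nat_lit 21, [(nat_lit 1, nat_lit 429), (nat_lit 5, nat_lit 485)])],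
 ⟨p018_k5, nat_lit 0, nat_lit 0, nat_lit 262, nat_lit 0, nat_lit 447287, [nat_lit 1230268800, nat_lit 523182000], [], [nat_lit 23464578965, nat_lit 23933566140, nat_lit 26154501505, nat_lit 26597646900], nat_lit 1271250, nat_lit 1271250, nat_lit 1271250, nat_lit 1271250, nat_lit 0, nat_lit 0, [nat_lit 490000, nat_lit 1100000], [nat_lit 24, nat_lit 40, nat_lit 80, nat_lit 80, nat_lit 33, nat_lit 203, nat_lit 0, nat_lit 8]⟩, ⟨p018_k1, nat_lit 0, nat_lit 0, nat_lit 962, nat_lit 0, nat_lit 1309476, [nat_lit 685248000, nat_lit 1020992000, nat_lit 1208988000], [], [nat_lit 3873971584, nat_lit 3829920078, nat_lit 4001759816, nat_lit 3958145236], nat_lit 1100001, nat_lit 1271250, nat_lit 1271250, nat_lit 1271250, nat_lit 0, nat_lit 0, [nat_lit 1695000, nat_lit 1271250, nat_lit 1271250], [nat_lit 62, nat_lit 40, nat_lit 80, nat_lit 80, nat_lit 58, nat_lit 345, nat_lit 125, nat_lit 8]⟩,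
 ⟨nat_lit 3162, nat_lit 3536, ⟨.ofNat (nat_lit 518855), .ofNat (nat_lit 644378), .ofNat (nat_lit 540807), .ofNat (nat_lit 666330), .ofNat (nat_lit 516642), .ofNat (nat_lit 638549), .ofNat (nat_lit 538797), .ofNat (nat_lit 660704)⟩, ⟨.ofNat (nat_lit 0), .ofNat (nat_lit 0), .ofNat (nat_lit 0), .ofNat (nat_lit 0), .ofNat (nat_lit 0), .ofNat (nat_lit 0), .ofNat (nat_lit 0), .ofNat (nat_lit 0)⟩⟩, [⟨nat_lit 13, nat_lit 64, nat_lit 87, nat_lit 100, nat_lit 227090942⟩]⟩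
noncomputable def p018_l23 : Lf2 := ⟨nat_lit 0, nat_lit 10, [nat_lit 0, nat_lit 5, nat_lit 5, nat_lit 20], false, nat_lit 0, nat_lit 0, nat_lit 0, nat_lit 0, ⟨nat_lit 89, nat_lit 401, nat_lit 510, nat_lit 6, nat_lit 242, nat_lit 0, nat_lit 0, nat_lit 0, nat_lit 0, nat_lit 215, nat_lit 111002, nat_lit 200, nat_lit 49090068, nat_lit 17909932, nat_lit 0, nat_lit 2902835, false, true⟩,
 nat_lit 3501, nat_lit 0, nat_lit 0, nat_lit 0, nat_lit 2833, nat_lit 1166, nat_lit 0, nat_lit 0, nat_lit 0, nat_lit 78, nat_lit 0, nat_lit 0, nat_lit 0, nat_lit 0, nat_lit 0, nat_lit 364400, nat_lit 0, nat_lit 0, [(nat_lit 21, [(nat_lit 1, nat_lit 401), (nat_lit 5, nat_lit 510)])],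
 ⟨p018_k7, nat_lit 0, nat_lit 0, nat_lit 251, nat_lit 0, nat_lit 292469, [nat_lit 1222859201, nat_lit 472592800, nat_lit 342214000], [], [nat_lit 22950221813, nat_lit 23378486925, nat_lit 26227099376, nat_lit 26656547939], nat_lit 1271250, nat_lit 1271250, nat_lit 1271250, nat_lit 1271250, nat_lit 0, nat_lit 0, [nat_lit 490000, nat_lit 1100000, nat_lit 1442500], [nat_lit 6, nat_lit 40, nat_lit 80, nat_lit 80, nat_lit 3, nat_lit 203, nat_lit 0, nat_lit 7]⟩, ⟨p018_k1, nat_lit 0, nat_lit 0, nat_lit 756, nat_lit 0, nat_lit 850703, [nat_lit 709152000, nat_lit 1056608000, nat_lit 1251162000], [], [nat_lit 4016313656, nat_lit 3967778442, nat_lit 4211389391, nat_lit 4166103980], nat_lit 1100001, nat_lit 1271250, nat_lit 1271250, nat_lit 1271250, nat_lit 0, nat_lit 0, [nat_lit 1695000, nat_lit 1271250, nat_lit 1271250], [nat_lit 62, nat_lit 40, nat_lit 80, nat_lit 80, nat_lit 58, nat_lit 373, nat_lit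 150, nat_lit 9]⟩,
 ⟨nat_lit 3535, nat_lit 3873, ⟨.ofNat (nat_lit 520934), .ofNat (nat_lit 669333), .ofNat (nat_lit 542727), .ofNat (nat_lit 691126), .ofNat (nat_lit 518855), .ofNat (nat_lit 663206), .ofNat (nat_lit 540807), .ofNat (nat_lit 685159)⟩, ⟨.ofNat (nat_lit 0), .ofNat (nat_lit 0), .ofNat (nat_lit 0), .ofNat (nat_lit 0), .ofNat (nat_lit 0), .ofNat (nat_lit 0), .ofNat (nat_lit 0), .ofNat (nat_lit 0)⟩⟩, [⟨nat_lit 13, nat_lit 70, nat_lit 83, nat_lit 100, nat_lit 220020182⟩]⟩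
noncomputable def p018_l24 : Lf2 := ⟨nat_lit 0, nat_lit 10, [nat_lit 0, nat_lit 5, nat_lit 5, nat_lit 20], false, nat_lit 0, nat_lit 0, nat_lit 0, nat_lit 0, ⟨nat_lit 88, nat_lit 525, nat_lit 387, nat_lit 6, nat_lit 236, nat_lit 0, nat_lit 0, nat_lit 0, nat_lit 0, nat_lit 215, nat_lit 61410, nat_lit 200, nat_lit 49672052, nat_lit 17327948, nat_lit 0, nat_lit 2858073, false, true⟩,
 nat_lit 3496, nat_lit 0, nat_lit 0, nat_lit 0, nat_lit 2936, nat_lit 1165, nat_lit 0, nat_lit 0, nat_lit 0, nat_lit 79, nat_lit 0, nat_lit 0, nat_lit 0, nat_lit 0, nat_lit 0, nat_lit 364800, nat_lit 0, nat_lit 0, [(nat_lit 21, [(nat_lit 1, nat_lit 525), (nat_lit 5, nat_lit 387)])],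
 ⟨p018_k5, nat_lit 0, nat_lit 0, nat_lit 233, nat_lit 0, nat_lit 339509, [nat_lit 1268627201, nat_lit 779411600], [], [nat_lit 23482659649, nat_lit 23951482132, nat_lit 26366173188, nat_lit 26812878400], nat_lit 1271250, nat_lit 1271250, nat_lit 1271250, nat_lit 1271250, nat_lit 0, nat_lit 0, [nat_lit 490000, nat_lit 1100000], [nat_lit 24, nat_lit 40, nat_lit 80, nat_lit 80, nat_lit 33, nat_lit 203, nat_lit 0, nat_lit 8]⟩, ⟨p018_k1, nat_lit 0, nat_lit 0, nat_lit 831, nat_lit 0, nat_lit 1029633, [nat_lit 701184000, nat_lit 1044736000, nat_lit 1237104000], [], [nat_lit 3935374408, nat_lit 3901588242, nat_lit 4082418286, nat_lit 4039103900], nat_lit 1100001, nat_lit 1271250, nat_lit 1271250, nat_lit 1271250, nat_lit 0, nat_lit 0, [nat_lit 1695000, nat_lit 1271250, nat_lit 1271250], [nat_lit 62, nat_lit 40, nat_lit 80, nat_lit 80, nat_lit 58, nat_lit 345, nat_lit 125, nat_lit 8]⟩,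
 ⟨nat_lit 3162, nat_lit 3536, ⟨.ofNat (nat_lit 518855), .ofNat (nat_lit 644378), .ofNat (nat_lit 540807), .ofNat (nat_lit 666330), .ofNat (nat_lit 516642), .ofNat (nat_lit 638549), .ofNat (nat_lit 538797), .ofNat (nat_lit 660704)⟩, ⟨.ofNat (nat_lit 0), .ofNat (nat_lit 0), .ofNat (nat_lit 0), .ofNat (nat_lit 0), .ofNat (nat_lit 0), .ofNat (nat_lit 0), .ofNat (nat_lit 0), .ofNat (nat_lit 0)⟩⟩, [⟨nat_lit 13, nat_lit 64, nat_lit 87, nat_lit 100, nat_lit 234277213⟩]⟩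
noncomputable def p018_l25 : Lf2 := ⟨nat_lit 0, nat_lit 10, [nat_lit 0, nat_lit 5, nat_lit 5, nat_lit 20], false, nat_lit 0, nat_lit 0, nat_lit 0, nat_lit 0, ⟨nat_lit 104, nat_lit 338, nat_lit 558, nat_lit 6, nat_lit 233, nat_lit 0, nat_lit 0, nat_lit 0, nat_lit 0, nat_lit 215, nat_lit 5706, nat_lit 203, nat_lit 49999024, nat_lit 17000976, nat_lit 0, nat_lit 2832064, true, true⟩,
 nat_lit 3510, nat_lit 0, nat_lit 0, nat_lit 0, nat_lit 2841, nat_lit 1334, nat_lit 0, nat_lit 0, nat_lit 0, nat_lit 111, nat_lit 0, nat_lit 0, nat_lit 0, nat_lit 0, nat_lit 30, nat_lit 520400, nat_lit 0, nat_lit 0, [(nat_lit 21, [(nat_lit 1, nat_lit 338), (nat_lit 5, nat_lit 288), (nat_lit 6, nat_lit 270)])],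
 ⟨p018_k7, nat_lit 0, nat_lit 0, nat_lit 320, nat_lit 0, nat_lit 493027, [nat_lit 1395486400, nat_lit 435260801, nat_lit 156601600], [], [nat_lit 22370159198, nat_lit 23342142336, nat_lit 23779027052, nat_lit 24682086020], nat_lit 1271250, nat_lit 1271250, nat_lit 1271250, nat_lit 1271250, nat_lit 0, nat_lit 0, [nat_lit 490000, nat_lit 1100000, nat_lit 1442500], [nat_lit 6, nat_lit 40, nat_lit 80, nat_lit 80, nat_lit 3, nat_lit 203, nat_lit 0, nat_lit 7]⟩, ⟨p018_k2, nat_lit 0, nat_lit 0, nat_lit 912, nat_lit 0, nat_lit 1212761, [nat_lit 828672000, nat_lit 1234688000, nat_lit 1462032000], [], [nat_lit 4132773255, nat_lit 4095277507, nat_lit 4210514941, nat_lit 4168273487], nat_lit 1271250, nat_lit 1271250, nat_lit 1271250, nat_lit 1271250, nat_lit 0, nat_lit 0, [nat_lit 1695000, nat_lit 1271250, nat_lit 1271250], [nat_lit 62, nat_lit 40, nat_lit 80, nat_lit 80, nat_lit 58, nat_lit 345, nat_lit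 125, nat_lit 8]⟩,
 ⟨nat_lit 3162, nat_lit 3873, ⟨.ofNat (nat_lit 542727), .ofNat (nat_lit 607248), .ofNat (nat_lit 564520), .ofNat (nat_lit 629042), .ofNat (nat_lit 538797), .ofNat (nat_lit 599750), .ofNat (nat_lit 560952), .ofNat (nat_lit 621905)⟩, ⟨.ofNat (nat_lit 0), .ofNat (nat_lit 0), .ofNat (nat_lit 0), .ofNat (nat_lit 0), .ofNat (nat_lit 0), .ofNat (nat_lit 0), .ofNat (nat_lit 0), .ofNat (nat_lit 0)⟩⟩, []⟩
noncomputable def p018_l26 : Lf2 := ⟨nat_lit 0, nat_lit 10, [nat_lit 0, nat_lit 5, nat_lit 5, nat_lit 20], false, nat_lit 0, nat_lit 0, nat_lit 0, nat_lit 0, ⟨nat_lit 121, nat_lit 735, nat_lit 144, nat_lit 7, nat_lit 267, nat_lit 0, nat_lit 0, nat_lit 0, nat_lit 0, nat_lit 215, nat_lit 193302, nat_lit 200, nat_lit 46359288, nat_lit 20640712, nat_lit 0, nat_lit 3087739, true, true⟩,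
 nat_lit 3674, nat_lit 0, nat_lit 0, nat_lit 0, nat_lit 2974, nat_lit 1397, nat_lit 183, nat_lit 0, nat_lit 0, nat_lit 111, nat_lit 0, nat_lit 0, nat_lit 0, nat_lit 0, nat_lit 0, nat_lit 438000, nat_lit 0, nat_lit 0, [(nat_lit 21, [(nat_lit 1, nat_lit 735), (nat_lit 6, nat_lit 144)])],
 ⟨p018_k7, nat_lit 0, nat_lit 0, nat_lit 302, nat_lit 0, nat_lit 411560, [nat_lit 1351038400, nat_lit 1275080001, nat_lit 1245420400], [], [nat_lit 25094830185, nat_lit 25513821927, nat_lit 27327866814, nat_lit 27716862205], nat_lit 1271250, nat_lit 1271250, nat_lit 1271250, nat_lit 1271250, nat_lit 0, nat_lit 0, [nat_lit 490000, nat_lit 1100000, nat_lit 1442500], [nat_lit 6, nat_lit 40, nat_lit 80, nat_lit 80, nat_lit 3, nat_lit 203, nat_lit 0, nat_lit 7]⟩, ⟨p018_k2, nat_lit 0, nat_lit 0, nat_lit 794, nat_lit 0, nat_lit 984536, [nat_lit 964128000, nat_lit 1436512000, nat_lit 1701018000], [], [nat_lit 5267357245,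 nat_lit 5225518613, nat_lit 5465336280, nat_lit 5411560940], nat_lit 1271250, nat_lit 1271250, nat_lit 1271250, nat_lit 1271250, nat_lit 0, nat_lit 0, [nat_lit 1695000, nat_lit 1271250, nat_lit 1271250], [nat_lit 62, nat_lit 40, nat_lit 80, nat_lit 80, nat_lit 58, nat_lit 373, nat_lit 150, nat_lit 9]⟩,
 ⟨nat_lit 3535, nat_lit 3873, ⟨.ofNat (nat_lit 607248), .ofNat (nat_lit 710483), .ofNat (nat_lit 629042), .ofNat (nat_lit 732276), .ofNat (nat_lit 603569), .ofNat (nat_lit 703987), .ofNat (nat_lit 625521), .ofNat (nat_lit 725940)⟩, ⟨.ofNat (nat_lit 0), .ofNat (nat_lit 0), .ofNat (nat_lit 0), .ofNat (nat_lit 0), .ofNat (nat_lit 0), .ofNat (nat_lit 0), .ofNat (nat_lit 0), .ofNat (nat_lit 0)⟩⟩, [⟨nat_lit 13, nat_lit 69, nat_lit 76, nat_lit 100, nat_lit 164133842⟩]⟩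
noncomputable def p018_l27 : Lf2 := ⟨nat_lit 0, nat_lit 10, [nat_lit 0, nat_lit 5, nat_lit 5, nat_lit 20], false, nat_lit 0, nat_lit 0, nat_lit 0, nat_lit 0, ⟨nat_lit 150, nat_lit 850, nat_lit 0, nat_lit 7, nat_lit 262, nat_lit 0, nat_lit 0, nat_lit 0, nat_lit 0, nat_lit 0, nat_lit 0, nat_lit 0, nat_lit 46842721, nat_lit 20157279, nat_lit 0, nat_lit 3057933, true, true⟩,
 nat_lit 3968, nat_lit 0, nat_lit 0, nat_lit 0, nat_lit 3332, nat_lit 1508, nat_lit 111, nat_lit 0, nat_lit 0, nat_lit 347, nat_lit 0, nat_lit 0, nat_lit 0, nat_lit 0, nat_lit 0, nat_lit 340000, nat_lit 0, nat_lit 0, [(nat_lit 21, [(nat_lit 1, nat_lit 850)])],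
 ⟨p018_k5, nat_lit 0, nat_lit 0, nat_lit 266, nat_lit 0, nat_lit 446108, [nat_lit 1456720000, nat_lit 1964600000], [], [nat_lit 26272692342, nat_lit 26735445942, nat_lit 28317859726, nat_lit 28743380029], nat_lit 1271250, nat_lit 1271250, nat_lit 1271250, nat_lit 1271250, nat_lit 0, nat_lit 0, [nat_lit 490000, nat_lit 1100000], [nat_lit 24, nat_lit 40, nat_lit 80, nat_lit 80, nat_lit 33, nat_lit 203, nat_lit 0, nat_lit 8]⟩, ⟨p018_k2, nat_lit 0, nat_lit 0, nat_lit 846, nat_lit 0, nat_lit 1111592, [nat_lit 1195200000, nat_lit 1780800000, nat_lit 2108700000], [], [nat_lit 5884617373, nat_lit 5846416967, nat_lit 6082934937, nat_lit 6033360913], nat_lit 1271250, nat_lit 1271250, nat_lit 1271250, nat_lit 1271250, nat_lit 0, nat_lit 0, [nat_lit 1695000, nat_lit 1271250, nat_lit 1271250], [nat_lit 62, nat_lit 40, nat_lit 80, nat_lit 80, nat_lit 58, nat_lit 373, nat_lit 150, nat_lit 9]⟩,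
 ⟨nat_lit 3162, nat_lit 3536, ⟨.ofNat (nat_lit 603569), .ofNat (nat_lit 691435), .ofNat (nat_lit 625521), .ofNat (nat_lit 713387), .ofNat (nat_lit 599750), .ofNat (nat_lit 685085), .ofNat (nat_lit 621905), .ofNat (nat_lit 707240)⟩, ⟨.ofNat (nat_lit 0), .ofNat (nat_lit 0), .ofNat (nat_lit 0), .ofNat (nat_lit 0), .ofNat (nat_lit 0), .ofNat (nat_lit 0), .ofNat (nat_lit 0), .ofNat (nat_lit 0)⟩⟩, [⟨nat_lit 13, nat_lit 63, nat_lit 81, nat_lit 100, nat_lit 167062384⟩]⟩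
noncomputable def p018_l28 : Lf2 := ⟨nat_lit 0, nat_lit 10, [nat_lit 0, nat_lit 5, nat_lit 5, nat_lit 20], false, nat_lit 0, nat_lit 0, nat_lit 0, nat_lit 0, ⟨nat_lit 118, nat_lit 492, nat_lit 390, nat_lit 7, nat_lit 267, nat_lit 0, nat_lit 0, nat_lit 0, nat_lit 0, nat_lit 215, nat_lit 193302, nat_lit 200, nat_lit 46359288, nat_lit 20640712, nat_lit 0, nat_lit 3087739, true, true⟩,
 nat_lit 3600, nat_lit 0, nat_lit 0, nat_lit 0, nat_lit 2914, nat_lit 1368, nat_lit 33, nat_lit 0, nat_lit 0, nat_lit 109, nat_lit 0, nat_lit 0, nat_lit 0, nat_lit 0, nat_lit 0, nat_lit 352800, nat_lit 0, nat_lit 0, [(nat_lit 21, [(nat_lit 1, nat_lit 492), (nat_lit 5, nat_lit 390)])],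
 ⟨p018_k7, nat_lit 0, nat_lit 0, nat_lit 256, nat_lit 0, nat_lit 299132, [nat_lit 1287798400, nat_lit 872213601, nat_lit 850372000], [], [nat_lit 25022041273, nat_lit 25424709854, nat_lit 27175850067, nat_lit 27565471457], nat_lit 1271250, nat_lit 1271250, nat_lit 1271250, nat_lit 1271250, nat_lit 0, nat_lit 0, [nat_lit 490000, nat_lit 1100000, nat_lit 1442500], [nat_lit 6, nat_lit 40, nat_lit 80, nat_lit 80, nat_lit 3, nat_lit 203, nat_lit 0, nat_lit 7]⟩, ⟨p018_k2, nat_lit 0, nat_lit 0, nat_lit 674, nat_lit 0, nat_lit 735811, [nat_lit 940224000, nat_lit 1400896000, nat_lit 1658844000], [], [nat_lit 5122901187, nat_lit 5081755737, nat_lit 5316107959, nat_lit 5263928273], nat_lit 1271250, nat_lit 1271250, nat_lit 1271250, nat_lit 1271250, nat_lit 0, nat_lit 0, [nat_lit 1695000, nat_lit 1271250, nat_lit 1271250], [nat_lit 62, nat_lit 40, nat_lit 80, nat_lit 80, nat_lit 58, nat_lit 373, nat_lit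 150, nat_lit 9]⟩,
 ⟨nat_lit 3535, nat_lit 3873, ⟨.ofNat (nat_lit 607248), .ofNat (nat_lit 710483), .ofNat (nat_lit 629042), .ofNat (nat_lit 732276), .ofNat (nat_lit 603569), .ofNat (nat_lit 703987), .ofNat (nat_lit 625521), .ofNat (nat_lit 725940)⟩, ⟨.ofNat (nat_lit 0), .ofNat (nat_lit 0), .ofNat (nat_lit 0), .ofNat (nat_lit 0), .ofNat (nat_lit 0), .ofNat (nat_lit 0), .ofNat (nat_lit 0), .ofNat (nat_lit 0)⟩⟩, [⟨nat_lit 13, nat_lit 69, nat_lit 76, nat_lit 100, nat_lit 186517456⟩]⟩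
noncomputable def p018_l29 : Lf2 := ⟨nat_lit 0, nat_lit 10, [nat_lit 0, nat_lit 5, nat_lit 5, nat_lit 20], false, nat_lit 0, nat_lit 0, nat_lit 0, nat_lit 0, ⟨nat_lit 115, nat_lit 573, nat_lit 312, nat_lit 7, nat_lit 262, nat_lit 0, nat_lit 0, nat_lit 0, nat_lit 0, nat_lit 215, nat_lit 155524, nat_lit 200, nat_lit 46842721, nat_lit 20157279, nat_lit 0, nat_lit 3057933, true, true⟩,
 nat_lit 3549, nat_lit 0, nat_lit 0, nat_lit 0, nat_lit 2981, nat_lit 1349, nat_lit 0, nat_lit 0, nat_lit 0, nat_lit 108, nat_lit 0, nat_lit 0, nat_lit 0, nat_lit 0, nat_lit 0, nat_lit 354000, nat_lit 0, nat_lit 0, [(nat_lit 21, [(nat_lit 1, nat_lit 573), (nat_lit 5, nat_lit 312)])],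
 ⟨p018_k5, nat_lit 0, nat_lit 0, nat_lit 241, nat_lit 0, nat_lit 340662, [nat_lit 1315220801, nat_lit 1057109600], [], [nat_lit 25553905417, nat_lit 25982997241, nat_lit 27465396968, nat_lit 27859008011], nat_lit 1271250, nat_lit 1271250, nat_lit 1271250, nat_lit 1271250, nat_lit 0, nat_lit 0, [nat_lit 490000, nat_lit 1100000], [nat_lit 24, nat_lit 40, nat_lit 80, nat_lit 80, nat_lit 33, nat_lit 203, nat_lit 0, nat_lit 8]⟩, ⟨p018_k2, nat_lit 0, nat_lit 0, nat_lit 748, nat_lit 0, nat_lit 873695, [nat_lit 916320000, nat_lit 1365280000, nat_lit 1616670000], [], [nat_lit 4955524564, nat_lit 4914461726, nat_lit 5110245829, nat_lit 5059261465], nat_lit 1271250, nat_lit 1271250, nat_lit 1271250, nat_lit 1271250, nat_lit 0, nat_lit 0, [nat_lit 1695000, nat_lit 1271250, nat_lit 1271250], [nat_lit 62, nat_lit 40, nat_lit 80, nat_lit 80, nat_lit 58, nat_lit 373, nat_lit 150, nat_lit 9]⟩,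
 ⟨nat_lit 3162, nat_lit 3536, ⟨.ofNat (nat_lit 603569), .ofNat (nat_lit 691435), .ofNat (nat_lit 625521), .ofNat (nat_lit 713387), .ofNat (nat_lit 599750), .ofNat (nat_lit 685085), .ofNat (nat_lit 621905), .ofNat (nat_lit 707240)⟩, ⟨.ofNat (nat_lit 0), .ofNat (nat_lit 0), .ofNat (nat_lit 0), .ofNat (nat_lit 0), .ofNat (nat_lit 0), .ofNat (nat_lit 0), .ofNat (nat_lit 0), .ofNat (nat_lit 0)⟩⟩, [⟨nat_lit 13, nat_lit 63, nat_lit 81, nat_lit 100, nat_lit 205562376⟩]⟩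
noncomputable def p018_l30 : Lf2 := ⟨nat_lit 0, nat_lit 10, [nat_lit 0, nat_lit 5, nat_lit 5, nat_lit 20], true, nat_lit 0, nat_lit 0, nat_lit 0, nat_lit 0, ⟨nat_lit 0, nat_lit 1000, nat_lit 0, nat_lit 4, nat_lit 183, nat_lit 0, nat_lit 0, nat_lit 0, nat_lit 0, nat_lit 0, nat_lit 0, nat_lit 0, nat_lit 0, nat_lit 0, nat_lit 0, nat_lit 5000000, false, true⟩,
 nat_lit 0, nat_lit 5192, nat_lit 0, nat_lit 0, nat_lit 3894, nat_lit 0, nat_lit 0, nat_lit 0, nat_lit 0, nat_lit 0, nat_lit 0, nat_lit 0, nat_lit 0, nat_lit 0, nat_lit 0, nat_lit 525400, nat_lit 0, nat_lit 0, [(nat_lit 18, [(nat_lit 1, nat_lit 791), (nat_lit 2, nat_lit 209)])],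
 ⟨p018_k8, nat_lit 0, nat_lit 0, nat_lit 440, nat_lit 0, nat_lit 663553, [nat_lit 1697609201, nat_lit 1629674799], [], [nat_lit 25943515954, nat_lit 26796294755, nat_lit 31817276125, nat_lit 30473591836], nat_lit 1271250, nat_lit 1271250, nat_lit 88400, nat_lit 2569500, nat_lit 0, nat_lit 0, [nat_lit 490000, nat_lit 1427500], [nat_lit 69, nat_lit 40, nat_lit 80, nat_lit 80, nat_lit 64, nat_lit 317, nat_lit 100, nat_lit 12]⟩, C1.Rw.none,
 ⟨nat_lit 3872, nat_lit 4473, ⟨.ofNat (nat_lit 144159), .ofNat (nat_lit 728778), .ofNat (nat_lit 187264), .ofNat (nat_lit 771911), .ofNat (nat_lit 159606), .ofNat (nat_lit 714498), .ofNat (nat_lit 203164), .ofNat (nat_lit 758085)⟩, ⟨.ofNat (nat_lit 0), .ofNat (nat_lit 0), .ofNat (nat_lit 0), .ofNat (nat_lit 0), .ofNat (nat_lit 0), .ofNat (nat_lit 0), .ofNat (nat_lit 0), .ofNat (nat_lit 0)⟩⟩, [⟨nat_lit 13, nat_lit 76, nat_lit 73, nat_lit 100, nat_lit 142246610⟩]⟩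
noncomputable def p018_l31 : Lf2 := ⟨nat_lit 0, nat_lit 10, [nat_lit 0, nat_lit 5, nat_lit 5, nat_lit 20], true, nat_lit 0, nat_lit 0, nat_lit 0, nat_lit 0, ⟨nat_lit 0, nat_lit 1000, nat_lit 0, nat_lit 4, nat_lit 184, nat_lit 0, nat_lit 0, nat_lit 0, nat_lit 0, nat_lit 0, nat_lit 0, nat_lit 0, nat_lit 0, nat_lit 0, nat_lit 0, nat_lit 5000000, false, true⟩,
 nat_lit 0, nat_lit 4120, nat_lit 0, nat_lit 0, nat_lit 3335, nat_lit 0, nat_lit 277, nat_lit 0, nat_lit 0, nat_lit 0, nat_lit 0, nat_lit 0, nat_lit 0, nat_lit 0, nat_lit 0, nat_lit 400000, nat_lit 0, nat_lit 0, [(nat_lit 21, [(nat_lit 1, nat_lit 1000)])],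
 ⟨p018_k4, nat_lit 0, nat_lit 0, nat_lit 505, nat_lit 0, nat_lit 778632, [nat_lit 1355200000, nat_lit 1561600000], [], [nat_lit 23605834571, nat_lit 24555897565, nat_lit 28637061033, nat_lit 29246903013], nat_lit 1271250, nat_lit 1271250, nat_lit 181601, nat_lit 2478700, nat_lit 0, nat_lit 0, [nat_lit 490000, nat_lit 1427500], [nat_lit 69, nat_lit 40, nat_lit 80, nat_lit 80, nat_lit 64, nat_lit 317, nat_lit 100, nat_lit 12]⟩, C1.Rw.none,
 ⟨nat_lit 3162, nat_lit 3873, ⟨.ofNat (nat_lit 185344), .ofNat (nat_lit 688690), .ofNat (nat_lit 228873), .ofNat (nat_lit 732276), .ofNat (nat_lit 199607), .ofNat (nat_lit 675121), .ofNat (nat_lit 243860), .ofNat (nat_lit 719431)⟩, ⟨.ofNat (nat_lit 0), .ofNat (nat_lit 0), .ofNat (nat_lit 0), .ofNat (nat_lit 0), .ofNat (nat_lit 0), .ofNat (nat_lit 0), .ofNat (nat_lit 0), .ofNat (nat_lit 0)⟩⟩, [⟨nat_lit 13, nat_lit 66, nat_lit 82, nat_lit 100, nat_lit 198051472⟩]⟩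
noncomputable def p018_l32 : Lf2 := ⟨nat_lit 0, nat_lit 10, [nat_lit 0, nat_lit 5, nat_lit 5, nat_lit 20], false, nat_lit 0, nat_lit 0, nat_lit 0, nat_lit 0, ⟨nat_lit 0, nat_lit 1000, nat_lit 0, nat_lit 4, nat_lit 183, nat_lit 0, nat_lit 0, nat_lit 0, nat_lit 0, nat_lit 0, nat_lit 0, nat_lit 0, nat_lit 0, nat_lit 0, nat_lit 0, nat_lit 5000000, false, true⟩,
 nat_lit 0, nat_lit 4881, nat_lit 0, nat_lit 0, nat_lit 3660, nat_lit 0, nat_lit 0, nat_lit 0, nat_lit 0, nat_lit 0, nat_lit 0, nat_lit 0, nat_lit 0, nat_lit 0, nat_lit 0, nat_lit 609400, nat_lit 0, nat_lit 0, [(nat_lit 18, [(nat_lit 1, nat_lit 651), (nat_lit 2, nat_lit 349)]), (nat_lit 21, [(nat_lit 1, nat_lit 651), (nat_lit 2, nat_lit 349)])],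
 ⟨p018_k8, nat_lit 0, nat_lit 0, nat_lit 415, nat_lit 0, nat_lit 539196, [nat_lit 1801041201, nat_lit 1340882799], [], [nat_lit 24921267037, nat_lit 26752907840, nat_lit 31101897401, nat_lit 31115045120], nat_lit 1271250, nat_lit 1271250, nat_lit 88400, nat_lit 2569500, nat_lit 0, nat_lit 0, [nat_lit 490000, nat_lit 1427500], [nat_lit 69, nat_lit 40, nat_lit 80, nat_lit 80, nat_lit 64, nat_lit 317, nat_lit 100, nat_lit 12]⟩, ⟨p018_k9, nat_lit 0, nat_lit 0, nat_lit 1143, nat_lit 0, nat_lit 1437856, [nat_lit 0, nat_lit 0], [], [nat_lit 0, nat_lit 0, nat_lit 0, nat_lit 0], nat_lit 1100001, nat_lit 1442500, nat_lit 88400, nat_lit 2569500, nat_lit 0, nat_lit 0, [nat_lit 1695000, nat_lit 1271250], [nat_lit 121, nat_lit 40, nat_lit 80, nat_lit 80, nat_lit 28, nat_lit 373, nat_lit 150, nat_lit 9]⟩,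
 ⟨nat_lit 3162, nat_lit 4473, ⟨.ofNat (nat_lit 143971), .ofNat (nat_lit 728778), .ofNat (nat_lit 186943), .ofNat (nat_lit 771911), .ofNat (nat_lit 175109), .ofNat (nat_lit 699502), .ofNat (nat_lit 219258), .ofNat (nat_lit 743812)⟩, ⟨.ofNat (nat_lit 0), .ofNat (nat_lit 0), .ofNat (nat_lit 0), .ofNat (nat_lit 0), .ofNat (nat_lit 0), .ofNat (nat_lit 0), .ofNat (nat_lit 0), .ofNat (nat_lit 0)⟩⟩, [⟨nat_lit 13, nat_lit 72, nat_lit 77, nat_lit 100, nat_lit 168499599⟩]⟩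
noncomputable def b_N_800_400_0_1 : St := ⟨false, nat_lit 2, nat_lit 2, nat_lit 0, nat_lit 40, nat_lit 320, nat_lit 360, nat_lit 160, nat_lit 200, nat_lit 16, nat_lit 360, nat_lit 0, nat_lit 0, nat_lit 0, nat_lit 0, nat_lit 0, nat_lit 0, nat_lit 40, nat_lit 80, nat_lit 0, nat_lit 0, nat_lit 0, nat_lit 0⟩
theorem d_N_800_400_0_1 (h : EB TB.env) : Dead b_N_800_400_0_1 := chkB_sound0 h (T :=
(.st (nat_lit 0)
(.gv
(.st (nat_lit 1)
(.spl (nat_lit 1) (nat_lit 180)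
(.trX (nat_lit 13) (nat_lit 80) (nat_lit 68) (nat_lit 100) (nat_lit 348) (.leaf p018_l0))
(.trZ (nat_lit 0) (nat_lit 100) (nat_lit 80) (nat_lit 52) (nat_lit 28) (.leaf p018_l1)))
(.spl (nat_lit 2) (nat_lit 160)
(.leaf p018_l2)
(.leaf p018_l3)))
(.leaf p018_l4))
(.gv
(.st (nat_lit 1)
(.spl (nat_lit 2) (nat_lit 160)
(.spl (nat_lit 0) (nat_lit 340)
(.leaf p018_l5)
(.trZ (nat_lit 0) (nat_lit 100) (nat_lit 73) (nat_lit 55) (nat_lit 32) (.spl (nat_lit 0) (nat_lit 350)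
(.leaf p018_l6)
(.trZ (nat_lit 0) (nat_lit 100) (nat_lit 68) (nat_lit 61) (nat_lit 40) (.leaf p018_l7)))))
(.spl (nat_lit 0) (nat_lit 340)
(.spl (nat_lit 0) (nat_lit 330)
(.leaf p018_l8)
(.trX (nat_lit 13) (nat_lit 76) (nat_lit 65) (nat_lit 100) (nat_lit 352) (.leaf p018_l9)))
(.trX (nat_lit 13) (nat_lit 71) (nat_lit 70) (nat_lit 100) (nat_lit 344) (.leaf p018_l10))))
(.spl (nat_lit 2) (nat_lit 160)
(.leaf p018_l11)
(.spl (nat_lit 2) (nat_lit 240)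
(.leaf p018_l12)
(.spl (nat_lit 0) (nat_lit 340)
(.spl (nat_lit 1) (nat_lit 180)
(.trX (nat_lit 13) (nat_lit 80) (nat_lit 68) (nat_lit 100) (nat_lit 348) (.spl (nat_lit 6) (nat_lit 60)
(.spl (nat_lit 0) (nat_lit 330)
(.spl (nat_lit 0) (nat_lit 325)
(.leaf p018_l13)
(.trX (nat_lit 13) (nat_lit 78) (nat_lit 70) (nat_lit 100) (nat_lit 344) (.leaf p018_l14)))
(.trX (nat_lit 13) (nat_lit 76) (nat_lit 73) (nat_lit 100) (nat_lit 340) (.spl (nat_lit 0) (nat_lit 335)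
(.leaf p018_l15)
(.trX (nat_lit 13) (nat_lit 74) (nat_lit 75) (nat_lit 100) (nat_lit 336) (.leaf p018_l16)))))
(.leaf p018_l17)))
(.spl (nat_lit 2) (nat_lit 320)
(.leaf p018_l18)
(.spl (nat_lit 0) (nat_lit 330)
(.leaf p018_l19)
(.trX (nat_lit 13) (nat_lit 76) (nat_lit 65) (nat_lit 100) (nat_lit 352) (.leaf p018_l20)))))
(.trX (nat_lit 13) (nat_lit 71) (nat_lit 70) (nat_lit 100) (nat_lit 344) (.spl (nat_lit 1) (nat_lit 180)
(.trX (nat_lit 13) (nat_lit 72) (nat_lit 77) (nat_lit 100) (nat_lit 332) (.spl (nat_lit 6) (nat_lit 60)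
(.spl (nat_lit 0) (nat_lit 350)
(.leaf p018_l21)
(.trX (nat_lit 13) (nat_lit 66) (nat_lit 82) (nat_lit 100) (nat_lit 320) (.leaf p018_l22)))
(.spl (nat_lit 0) (nat_lit 350)
(.leaf p018_l23)
(.trX (nat_lit 13) (nat_lit 66) (nat_lit 82) (nat_lit 100) (nat_lit 320) (.leaf p018_l24)))))
(.spl (nat_lit 2) (nat_lit 280)
(.leaf p018_l25)
(.spl (nat_lit 6) (nat_lit 60)
(.spl (nat_lit 0) (nat_lit 350)
(.leaf p018_l26)
(.trX (nat_lit 13) (nat_lit 66) (nat_lit 75) (nat_lit 100) (nat_lit 336) (.leaf p018_l27)))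
(.spl (nat_lit 0) (nat_lit 350)
(.leaf p018_l28)
(.trX (nat_lit 13) (nat_lit 66) (nat_lit 75) (nat_lit 100) (nat_lit 336) (.leaf p018_l29)))))))))))
(.st (nat_lit 1)
(.spl (nat_lit 0) (nat_lit 340)
(.leaf p018_l30)
(.trZ (nat_lit 0) (nat_lit 100) (nat_lit 73) (nat_lit 55) (nat_lit 32) (.trX (nat_lit 13) (nat_lit 71) (nat_lit 70) (nat_lit 100) (nat_lit 344) (.leaf p018_l31))))
(.leaf p018_l32))))) (by decide +kernel)
noncomputable def p018_l33 : Lf2 := ⟨nat_lit 0, nat_lit 10, [nat_lit 0, nat_lit 5, nat_lit 5, nat_lit 20], true, nat_lit 0, nat_lit 0, nat_lit 0, nat_lit 0, ⟨nat_lit 0, nat_lit 42, nat_lit 958, nat_lit 4, nat_lit 119, nat_lit 0, nat_lit 0, nat_lit 0, nat_lit 0, nat_lit 215, nat_lit 132017, nat_lit 304, nat_lit 61553016, nat_lit 5446984, nat_lit 0, nat_lit 1409640, false, false⟩,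
 nat_lit 0, nat_lit 0, nat_lit 0, nat_lit 1285, nat_lit 2597, nat_lit 0, nat_lit 0, nat_lit 0, nat_lit 0, nat_lit 0, nat_lit 0, nat_lit 0, nat_lit 0, nat_lit 0, nat_lit 38, nat_lit 250000, nat_lit 0, nat_lit 0, [(nat_lit 18, [(nat_lit 0, nat_lit 42), (nat_lit 4, nat_lit 958)]), (nat_lit 21, [(nat_lit 0, nat_lit 42), (nat_lit 4, nat_lit 958)])],
 ⟨p018_k0, nat_lit 0, nat_lit 0, nat_lit 223, nat_lit 0, nat_lit 0, [nat_lit 1796489601, nat_lit 544626401, nat_lit 5787200], [], [nat_lit 17901029374, nat_lit 21008343415, nat_lit 19187988096, nat_lit 21849300296], nat_lit 0, nat_lit 0, nat_lit 0, nat_lit 0, nat_lit 0, nat_lit 0, [], [nat_lit 6, nat_lit 40, nat_lit 80, nat_lit 80, nat_lit 3, nat_lit 249, nat_lit 40, nat_lit 10]⟩, C1.Rw.none,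
 ⟨nat_lit 3162, nat_lit 4473, ⟨.ofNat (nat_lit 143971), .ofNat (nat_lit 388887), .ofNat (nat_lit 186943), .ofNat (nat_lit 431944), .ofNat (nat_lit 175109), .ofNat (nat_lit 394735), .ofNat (nat_lit 219258), .ofNat (nat_lit 438969)⟩, ⟨.ofNat (nat_lit 0), .ofNat (nat_lit 0), .ofNat (nat_lit 0), .ofNat (nat_lit 0), .ofNat (nat_lit 0), .ofNat (nat_lit 0), .ofNat (nat_lit 0), .ofNat (nat_lit 0)⟩⟩, [⟨nat_lit 0, nat_lit 100, nat_lit 60, nat_lit 80, nat_lit 37312843⟩]⟩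
noncomputable def p018_l34 : Lf2 := ⟨nat_lit 0, nat_lit 10, [nat_lit 0, nat_lit 5, nat_lit 5, nat_lit 20], false, nat_lit 0, nat_lit 0, nat_lit 0, nat_lit 0, ⟨nat_lit 872, nat_lit 0, nat_lit 128, nat_lit 4, nat_lit 230, nat_lit 0, nat_lit 0, nat_lit 0, nat_lit 0, nat_lit 215, nat_lit 272572, nat_lit 200, nat_lit 50360231, nat_lit 0, nat_lit 0, nat_lit 2802601, false, true⟩,
 nat_lit 0, nat_lit 0, nat_lit 0, nat_lit 0, nat_lit 6142, nat_lit 7612, nat_lit 0, nat_lit 0, nat_lit 0, nat_lit 0, nat_lit 0, nat_lit 0, nat_lit 0, nat_lit 0, nat_lit 0, nat_lit 32000, nat_lit 0, nat_lit 0, [(nat_lit 18, [(nat_lit 4, nat_lit 128)]), (nat_lit 21, [(nat_lit 4, nat_lit 128)])],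
 ⟨p018_k0, nat_lit 0, nat_lit 0, nat_lit 168, nat_lit 0, nat_lit 0, [nat_lit 1962572800, nat_lit 4067302400, nat_lit 5334851200], [], [nat_lit 23777797928, nat_lit 27377643816, nat_lit 34618889032, nat_lit 37841332632], nat_lit 0, nat_lit 0, nat_lit 0, nat_lit 0, nat_lit 0, nat_lit 0, [], [nat_lit 6, nat_lit 40, nat_lit 80, nat_lit 80, nat_lit 3, nat_lit 317, nat_lit 100, nat_lit 12]⟩, ⟨p018_k1, nat_lit 0, nat_lit 0, nat_lit 319, nat_lit 0, nat_lit 0, [nat_lit 6948096000, nat_lit 10352384000, nat_lit 12258576000], [], [nat_lit 34758585248, nat_lit 35285045200, nat_lit 42073896808, nat_lit 42063761536], nat_lit 0, nat_lit 0, nat_lit 0, nat_lit 0, nat_lit 0, nat_lit 0, [], [nat_lit 62, nat_lit 40, nat_lit 80, nat_lit 80, nat_lit 58, nat_lit 373, nat_lit 150, nat_lit 9]⟩,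
 ⟨nat_lit 3162, nat_lit 4473, ⟨.ofNat (nat_lit 388887), .ofNat (nat_lit 728778), .ofNat (nat_lit 431944), .ofNat (nat_lit 771911), .ofNat (nat_lit 394735), .ofNat (nat_lit 699502), .ofNat (nat_lit 438969), .ofNat (nat_lit 743812)⟩, ⟨.ofNat (nat_lit 0), .ofNat (nat_lit 0), .ofNat (nat_lit 0), .ofNat (nat_lit 0), .ofNat (nat_lit 0), .ofNat (nat_lit 0), .ofNat (nat_lit 0), .ofNat (nat_lit 0)⟩⟩, []⟩
noncomputable def p018_l35 : Lf2 := ⟨nat_lit 0, nat_lit 10, [nat_lit 0, nat_lit 5, nat_lit 5, nat_lit 20], true, nat_lit 0, nat_lit 0, nat_lit 0, nat_lit 0, ⟨nat_lit 0, nat_lit 0, nat_lit 1000, nat_lit 4, nat_lit 119, nat_lit 0, nat_lit 0, nat_lit 0, nat_lit 0, nat_lit 215, nat_lit 132017, nat_lit 304, nat_lit 61553016, nat_lit 0, nat_lit 0, nat_lit 1409640, false, false⟩,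
 nat_lit 0, nat_lit 0, nat_lit 0, nat_lit 2148, nat_lit 2595, nat_lit 0, nat_lit 0, nat_lit 0, nat_lit 0, nat_lit 0, nat_lit 0, nat_lit 0, nat_lit 0, nat_lit 0, nat_lit 45, nat_lit 250000, nat_lit 0, nat_lit 0, [(nat_lit 18, [(nat_lit 4, nat_lit 1000)]), (nat_lit 21, [(nat_lit 4, nat_lit 1000)])],
 ⟨p018_k8, nat_lit 0, nat_lit 0, nat_lit 216, nat_lit 0, nat_lit 0, [nat_lit 1849600001, nat_lit 400000], [], [nat_lit 18339985044, nat_lit 20998336408, nat_lit 19403442923, nat_lit 21840923424], nat_lit 0, nat_lit 0, nat_lit 0, nat_lit 0, nat_lit 0, nat_lit 0, [], [nat_lit 69, nat_lit 40, nat_lit 80, nat_lit 80, nat_lit 64, nat_lit 249, nat_lit 40, nat_lit 10]⟩, C1.Rw.none,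
 ⟨nat_lit 3162, nat_lit 4473, ⟨.ofNat (nat_lit 143971), .ofNat (nat_lit 388887), .ofNat (nat_lit 186943), .ofNat (nat_lit 431944), .ofNat (nat_lit 175109), .ofNat (nat_lit 394735), .ofNat (nat_lit 219258), .ofNat (nat_lit 438969)⟩, ⟨.ofNat (nat_lit 0), .ofNat (nat_lit 0), .ofNat (nat_lit 0), .ofNat (nat_lit 0), .ofNat (nat_lit 0), .ofNat (nat_lit 0), .ofNat (nat_lit 0), .ofNat (nat_lit 0)⟩⟩, [⟨nat_lit 0, nat_lit 100, nat_lit 60, nat_lit 80, nat_lit 38195921⟩]⟩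
noncomputable def p018_l36 : Lf2 := ⟨nat_lit 0, nat_lit 10, [nat_lit 0, nat_lit 5, nat_lit 5, nat_lit 20], true, nat_lit 0, nat_lit 0, nat_lit 0, nat_lit 0, ⟨nat_lit 0, nat_lit 186, nat_lit 814, nat_lit 4, nat_lit 191, nat_lit 0, nat_lit 0, nat_lit 0, nat_lit 0, nat_lit 215, nat_lit 1350, nat_lit 224, nat_lit 54533725, nat_lit 12466275, nat_lit 0, nat_lit 2402322, false, true⟩,
 nat_lit 0, nat_lit 0, nat_lit 0, nat_lit 562, nat_lit 2994, nat_lit 0, nat_lit 0, nat_lit 0, nat_lit 0, nat_lit 0, nat_lit 0, nat_lit 0, nat_lit 0, nat_lit 0, nat_lit 13, nat_lit 250000, nat_lit 0, nat_lit 0, [(nat_lit 18, [(nat_lit 0, nat_lit 186), (nat_lit 4, nat_lit 814)]), (nat_lit 21, [(nat_lit 0, nat_lit 186), (nat_lit 4, nat_lit 814)])],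
 ⟨p018_k8, nat_lit 0, nat_lit 0, nat_lit 126, nat_lit 0, nat_lit 0, [nat_lit 1606396800, nat_lit 4257600], [], [nat_lit 18340088168, nat_lit 20900888168, nat_lit 20833410640, nat_lit 23073405896], nat_lit 0, nat_lit 0, nat_lit 0, nat_lit 0, nat_lit 0, nat_lit 0, [], [nat_lit 69, nat_lit 40, nat_lit 80, nat_lit 80, nat_lit 64, nat_lit 272, nat_lit 60, nat_lit 10]⟩, C1.Rw.none,
 ⟨nat_lit 3162, nat_lit 4473, ⟨.ofNat (nat_lit 388887), .ofNat (nat_lit 524844), .ofNat (nat_lit 431944), .ofNat (nat_lit 567977), .ofNat (nat_lit 394735), .ofNat (nat_lit 516642), .ofNat (nat_lit 438969), .ofNat (nat_lit 560952)⟩, ⟨.ofNat (nat_lit 0), .ofNat (nat_lit 0), .ofNat (nat_lit 0), .ofNat (nat_lit 0), .ofNat (nat_lit 0), .ofNat (nat_lit 0), .ofNat (nat_lit 0), .ofNat (nat_lit 0)⟩⟩, []⟩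
noncomputable def p018_l37 : Lf2 := ⟨nat_lit 0, nat_lit 10, [nat_lit 0, nat_lit 5, nat_lit 5, nat_lit 20], true, nat_lit 0, nat_lit 0, nat_lit 0, nat_lit 0, ⟨nat_lit 0, nat_lit 1000, nat_lit 0, nat_lit 6, nat_lit 258, nat_lit 0, nat_lit 0, nat_lit 0, nat_lit 0, nat_lit 0, nat_lit 0, nat_lit 0, nat_lit 47361101, nat_lit 19638899, nat_lit 0, nat_lit 3024598, false, true⟩,
 nat_lit 0, nat_lit 0, nat_lit 0, nat_lit 2869, nat_lit 3775, nat_lit 0, nat_lit 0, nat_lit 0, nat_lit 0, nat_lit 0, nat_lit 0, nat_lit 0, nat_lit 0, nat_lit 0, nat_lit 0, nat_lit 250000, nat_lit 0, nat_lit 0, [(nat_lit 18, [(nat_lit 0, nat_lit 1000)])],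
 ⟨p018_k0, nat_lit 0, nat_lit 0, nat_lit 162, nat_lit 0, nat_lit 0, [nat_lit 1532800000, nat_lit 2168000000, nat_lit 2562000000], [], [nat_lit 24005846600, nat_lit 25128035450, nat_lit 29421775850, nat_lit 30322171450], nat_lit 0, nat_lit 0, nat_lit 0, nat_lit 0, nat_lit 0, nat_lit 0, [], [nat_lit 6, nat_lit 40, nat_lit 80, nat_lit 80, nat_lit 3, nat_lit 203, nat_lit 0, nat_lit 7]⟩, C1.Rw.none,
 ⟨nat_lit 3872, nat_lit 4473, ⟨.ofNat (nat_lit 524844), .ofNat (nat_lit 728778), .ofNat (nat_lit 567977), .ofNat (nat_lit 771911), .ofNat (nat_lit 520934), .ofNat (nat_lit 714498), .ofNat (nat_lit 564520), .ofNat (nat_lit 758085)⟩, ⟨.ofNat (nat_lit 0), .ofNat (nat_lit 0), .ofNat (nat_lit 0), .ofNat (nat_lit 0), .ofNat (nat_lit 0), .ofNat (nat_lit 0), .ofNat (nat_lit 0), .ofNat (nat_lit 0)⟩⟩, [⟨nat_lit 13, nat_lit 76, nat_lit 73, nat_lit 100, nat_lit 227727517⟩]⟩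
noncomputable def p018_l38 : Lf2 := ⟨nat_lit 0, nat_lit 10, [nat_lit 0, nat_lit 5, nat_lit 5, nat_lit 20], true, nat_lit 0, nat_lit 0, nat_lit 0, nat_lit 0, ⟨nat_lit 0, nat_lit 1000, nat_lit 0, nat_lit 6, nat_lit 249, nat_lit 0, nat_lit 0, nat_lit 0, nat_lit 0, nat_lit 0, nat_lit 0, nat_lit 0, nat_lit 48295838, nat_lit 18704162, nat_lit 0, nat_lit 2960821, false, true⟩,
 nat_lit 0, nat_lit 0, nat_lit 0, nat_lit 2807, nat_lit 3654, nat_lit 0, nat_lit 0, nat_lit 0, nat_lit 0, nat_lit 0, nat_lit 0, nat_lit 0, nat_lit 0, nat_lit 0, nat_lit 0, nat_lit 250000, nat_lit 0, nat_lit 0, [(nat_lit 21, [(nat_lit 0, nat_lit 1000)])],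
 ⟨p018_k7, nat_lit 0, nat_lit 0, nat_lit 163, nat_lit 0, nat_lit 0, [nat_lit 1558400000, nat_lit 2146000001, nat_lit 2146000000], [], [nat_lit 24897392213, nat_lit 26003249209, nat_lit 29142499073, nat_lit 30069959898], nat_lit 0, nat_lit 0, nat_lit 0, nat_lit 0, nat_lit 0, nat_lit 0, [], [nat_lit 6, nat_lit 40, nat_lit 80, nat_lit 80, nat_lit 3, nat_lit 203, nat_lit 0, nat_lit 7]⟩, C1.Rw.none,
 ⟨nat_lit 3162, nat_lit 3873, ⟨.ofNat (nat_lit 520934), .ofNat (nat_lit 688690), .ofNat (nat_lit 564520), .ofNat (nat_lit 732276), .ofNat (nat_lit 516642), .ofNat (nat_lit 675121), .ofNat (nat_lit 560952), .ofNat (nat_lit 719431)⟩, ⟨.ofNat (nat_lit 0), .ofNat (nat_lit 0), .ofNat (nat_lit 0), .ofNat (nat_lit 0), .ofNat (nat_lit 0), .ofNat (nat_lit 0), .ofNat (nat_lit 0), .ofNat (nat_lit 0)⟩⟩, [⟨nat_lit 13, nat_lit 66, nat_lit 82, nat_lit 100, nat_lit 185484247⟩, ⟨nat_lit 13, nat_lit 71, nat_lit 70,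 nat_lit 100, nat_lit 62268522⟩]⟩
noncomputable def p018_l39 : Lf2 := ⟨nat_lit 0, nat_lit 10, [nat_lit 0, nat_lit 5, nat_lit 5, nat_lit 20], true, nat_lit 0, nat_lit 0, nat_lit 0, nat_lit 0, ⟨nat_lit 0, nat_lit 1000, nat_lit 0, nat_lit 4, nat_lit 183, nat_lit 0, nat_lit 0, nat_lit 0, nat_lit 0, nat_lit 0, nat_lit 0, nat_lit 0, nat_lit 0, nat_lit 0, nat_lit 0, nat_lit 5000000, false, true⟩,
 nat_lit 0, nat_lit 0, nat_lit 0, nat_lit 2931, nat_lit 3985, nat_lit 0, nat_lit 0, nat_lit 0, nat_lit 0, nat_lit 0, nat_lit 0, nat_lit 0, nat_lit 0, nat_lit 0, nat_lit 0, nat_lit 250000, nat_lit 0, nat_lit 0, [(nat_lit 18, [(nat_lit 0, nat_lit 1000)]), (nat_lit 21, [(nat_lit 0, nat_lit 1000)])],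
 ⟨p018_k8, nat_lit 0, nat_lit 0, nat_lit 216, nat_lit 0, nat_lit 0, [nat_lit 1558400000, nat_lit 2562000000], [], [nat_lit 23553111216, nat_lit 26621748705, nat_lit 30261307960, nat_lit 31991717440], nat_lit 0, nat_lit 0, nat_lit 0, nat_lit 0, nat_lit 0, nat_lit 0, [], [nat_lit 69, nat_lit 40, nat_lit 80, nat_lit 80, nat_lit 64, nat_lit 317, nat_lit 100, nat_lit 12]⟩, C1.Rw.none,
 ⟨nat_lit 3162, nat_lit 4473, ⟨.ofNat (nat_lit 143971), .ofNat (nat_lit 728778), .ofNat (nat_lit 186943), .ofNat (nat_lit 771911), .ofNat (nat_lit 175109), .ofNat (nat_lit 699502), .ofNat (nat_lit 219258), .ofNat (nat_lit 743812)⟩, ⟨.ofNat (nat_lit 0), .ofNat (nat_lit 0), .ofNat (nat_lit 0), .ofNat (nat_lit 0), .ofNat (nat_lit 0), .ofNat (nat_lit 0), .ofNat (nat_lit 0), .ofNat (nat_lit 0)⟩⟩, [⟨nat_lit 13, nat_lit 72, nat_lit 77, nat_lit 100, nat_lit 130481920⟩, ⟨nat_lit 13, nat_lit 80, nat_lit 60, nat_lit 100, nat_lit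 52531599⟩]⟩
noncomputable def p018_l40 : Lf2 := ⟨nat_lit 0, nat_lit 10, [nat_lit 0, nat_lit 5, nat_lit 5, nat_lit 20], true, nat_lit 0, nat_lit 0, nat_lit 0, nat_lit 0, ⟨nat_lit 0, nat_lit 0, nat_lit 1000, nat_lit 4, nat_lit 119, nat_lit 0, nat_lit 0, nat_lit 0, nat_lit 0, nat_lit 215, nat_lit 132017, nat_lit 304, nat_lit 61553016, nat_lit 0, nat_lit 0, nat_lit 1409640, false, false⟩,
 nat_lit 0, nat_lit 3238, nat_lit 0, nat_lit 0, nat_lit 2428, nat_lit 0, nat_lit 0, nat_lit 0, nat_lit 0, nat_lit 0, nat_lit 0, nat_lit 0, nat_lit 0, nat_lit 0, nat_lit 76, nat_lit 400000, nat_lit 0, nat_lit 0, [(nat_lit 18, [(nat_lit 5, nat_lit 1000)]), (nat_lit 21, [(nat_lit 5, nat_lit 1000)])],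
 ⟨p018_k0, nat_lit 0, nat_lit 0, nat_lit 394, nat_lit 0, nat_lit 475077, [nat_lit 1585600001, nat_lit 802000001, nat_lit 14800000], [], [nat_lit 18092476412, nat_lit 20428518032, nat_lit 19506153654, nat_lit 21713488134], nat_lit 1271250, nat_lit 1271250, nat_lit 88400, nat_lit 1100001, nat_lit 0, nat_lit 0, [nat_lit 490000, nat_lit 1100000, nat_lit 1442500], [nat_lit 6, nat_lit 40, nat_lit 80, nat_lit 80, nat_lit 3, nat_lit 249, nat_lit 40, nat_lit 10]⟩, C1.Rw.none,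
 ⟨nat_lit 3162, nat_lit 4473, ⟨.ofNat (nat_lit 143971), .ofNat (nat_lit 388887), .ofNat (nat_lit 186943), .ofNat (nat_lit 431944), .ofNat (nat_lit 175109), .ofNat (nat_lit 394735), .ofNat (nat_lit 219258), .ofNat (nat_lit 438969)⟩, ⟨.ofNat (nat_lit 0), .ofNat (nat_lit 0), .ofNat (nat_lit 0), .ofNat (nat_lit 0), .ofNat (nat_lit 0), .ofNat (nat_lit 0), .ofNat (nat_lit 0), .ofNat (nat_lit 0)⟩⟩, [⟨nat_lit 0, nat_lit 100, nat_lit 60, nat_lit 80, nat_lit 12619857⟩]⟩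
noncomputable def p018_l41 : Lf2 := ⟨nat_lit 0, nat_lit 10, [nat_lit 0, nat_lit 5, nat_lit 5, nat_lit 20], false, nat_lit 0, nat_lit 0, nat_lit 0, nat_lit 0, ⟨nat_lit 476, nat_lit 0, nat_lit 524, nat_lit 4, nat_lit 230, nat_lit 0, nat_lit 0, nat_lit 0, nat_lit 0, nat_lit 215, nat_lit 272572, nat_lit 200, nat_lit 50360231, nat_lit 0, nat_lit 0, nat_lit 2802601, false, true⟩,
 nat_lit 0, nat_lit 4764, nat_lit 0, nat_lit 0, nat_lit 3573, nat_lit 4091, nat_lit 0, nat_lit 0, nat_lit 0, nat_lit 0, nat_lit 0, nat_lit 0, nat_lit 0, nat_lit 0, nat_lit 0, nat_lit 344000, nat_lit 0, nat_lit 0, [(nat_lit 18, [(nat_lit 5, nat_lit 300), (nat_lit 6, nat_lit 224)]), (nat_lit 21, [(nat_lit 5, nat_lit 300), (nat_lit 6, nat_lit 224)])],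
 ⟨p018_k0, nat_lit 0, nat_lit 0, nat_lit 327, nat_lit 0, nat_lit 475077, [nat_lit 1497892267, nat_lit 1829587734, nat_lit 1649660800], [], [nat_lit 23871611000, nat_lit 25751202252, nat_lit 29565027874, nat_lit 30872673508], nat_lit 1271250, nat_lit 1271250, nat_lit 1100001, nat_lit 2812500, nat_lit 0, nat_lit 0, [nat_lit 490000, nat_lit 1100000, nat_lit 1442500], [nat_lit 6, nat_lit 40, nat_lit 80, nat_lit 80, nat_lit 3, nat_lit 317, nat_lit 100, nat_lit 12]⟩, ⟨p018_k1, nat_lit 0, nat_lit 0, nat_lit 319, nat_lit 0, nat_lit 0, [nat_lit 3792768000, nat_lit 5651072000, nat_lit 6691608000], [], [nat_lit 19011809824, nat_lit 19301687260, nat_lit 22890518354, nat_lit 22891637208], nat_lit 0, nat_lit 0, nat_lit 0, nat_lit 0, nat_lit 0, nat_lit 0, [], [nat_lit 62, nat_lit 40, nat_lit 80, nat_lit 80, nat_lit 58, nat_lit 373, nat_lit 150, nat_lit 9]⟩,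
 ⟨nat_lit 3162, nat_lit 4473, ⟨.ofNat (nat_lit 388887), .ofNat (nat_lit 728778), .ofNat (nat_lit 431944), .ofNat (nat_lit 771911), .ofNat (nat_lit 394735), .ofNat (nat_lit 699502), .ofNat (nat_lit 438969), .ofNat (nat_lit 743812)⟩, ⟨.ofNat (nat_lit 0), .ofNat (nat_lit 0), .ofNat (nat_lit 0), .ofNat (nat_lit 0), .ofNat (nat_lit 0), .ofNat (nat_lit 0), .ofNat (nat_lit 0), .ofNat (nat_lit 0)⟩⟩, []⟩
noncomputable def p018_l42 : Lf2 := ⟨nat_lit 0, nat_lit 10, [nat_lit 0, nat_lit 5, nat_lit 5, nat_lit 20], true, nat_lit 0, nat_lit 0, nat_lit 0, nat_lit 0, ⟨nat_lit 0, nat_lit 0, nat_lit 1000, nat_lit 4, nat_lit 119, nat_lit 0, nat_lit 0, nat_lit 0, nat_lit 0, nat_lit 215, nat_lit 132017, nat_lit 304, nat_lit 61553016, nat_lit 0, nat_lit 0, nat_lit 1409640, false, false⟩,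
 nat_lit 0, nat_lit 3397, nat_lit 0, nat_lit 0, nat_lit 2547, nat_lit 0, nat_lit 0, nat_lit 0, nat_lit 0, nat_lit 0, nat_lit 0, nat_lit 0, nat_lit 0, nat_lit 0, nat_lit 76, nat_lit 400000, nat_lit 0, nat_lit 0, [(nat_lit 18, [(nat_lit 5, nat_lit 1000)]), (nat_lit 21, [(nat_lit 5, nat_lit 1000)])],
 ⟨p018_k8, nat_lit 0, nat_lit 0, nat_lit 398, nat_lit 0, nat_lit 475077, [nat_lit 1693000001, nat_lit 251500000], [], [nat_lit 18567999739, nat_lit 20839045126, nat_lit 19840669709, nat_lit 22020734478], nat_lit 1271250, nat_lit 1271250, nat_lit 88400, nat_lit 1100001, nat_lit 0, nat_lit 0, [nat_lit 490000, nat_lit 1427500], [nat_lit 69, nat_lit 40, nat_lit 80, nat_lit 80, nat_lit 64, nat_lit 249, nat_lit 40, nat_lit 10]⟩, C1.Rw.none,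
 ⟨nat_lit 3162, nat_lit 4473, ⟨.ofNat (nat_lit 143971), .ofNat (nat_lit 388887), .ofNat (nat_lit 186943), .ofNat (nat_lit 431944), .ofNat (nat_lit 175109), .ofNat (nat_lit 394735), .ofNat (nat_lit 219258), .ofNat (nat_lit 438969)⟩, ⟨.ofNat (nat_lit 0), .ofNat (nat_lit 0), .ofNat (nat_lit 0), .ofNat (nat_lit 0), .ofNat (nat_lit 0), .ofNat (nat_lit 0), .ofNat (nat_lit 0), .ofNat (nat_lit 0)⟩⟩, [⟨nat_lit 0, nat_lit 100, nat_lit 60, nat_lit 80, nat_lit 18595705⟩]⟩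
noncomputable def p018_l43 : Lf2 := ⟨nat_lit 0, nat_lit 10, [nat_lit 0, nat_lit 5, nat_lit 5, nat_lit 20], true, nat_lit 0, nat_lit 0, nat_lit 0, nat_lit 0, ⟨nat_lit 0, nat_lit 193, nat_lit 807, nat_lit 4, nat_lit 191, nat_lit 0, nat_lit 0, nat_lit 0, nat_lit 0, nat_lit 215, nat_lit 1350, nat_lit 224, nat_lit 54533725, nat_lit 12466275, nat_lit 0, nat_lit 2402322, false, true⟩,
 nat_lit 0, nat_lit 3798, nat_lit 0, nat_lit 0, nat_lit 2848, nat_lit 0, nat_lit 0, nat_lit 0, nat_lit 0, nat_lit 0, nat_lit 0, nat_lit 0, nat_lit 0, nat_lit 0, nat_lit 37, nat_lit 371050, nat_lit 0, nat_lit 0, [(nat_lit 18, [(nat_lit 0, nat_lit 193), (nat_lit 5, nat_lit 807)]), (nat_lit 21, [(nat_lit 0, nat_lit 193), (nat_lit 5, nat_lit 807)])],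
 ⟨p018_k0, nat_lit 0, nat_lit 0, nat_lit 315, nat_lit 0, nat_lit 475077, [nat_lit 1385694401, nat_lit 676326000, nat_lit 19769600], [], [nat_lit 18745549683, nat_lit 20771724900, nat_lit 20839517284, nat_lit 22786137861], nat_lit 1271250, nat_lit 1271250, nat_lit 1100001, nat_lit 1785000, nat_lit 0, nat_lit 0, [nat_lit 490000, nat_lit 1100000, nat_lit 1442500], [nat_lit 6, nat_lit 40, nat_lit 80, nat_lit 80, nat_lit 3, nat_lit 272, nat_lit 60, nat_lit 10]⟩, C1.Rw.none,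
 ⟨nat_lit 3162, nat_lit 4473, ⟨.ofNat (nat_lit 388887), .ofNat (nat_lit 524844), .ofNat (nat_lit 431944), .ofNat (nat_lit 567977), .ofNat (nat_lit 394735), .ofNat (nat_lit 516642), .ofNat (nat_lit 438969), .ofNat (nat_lit 560952)⟩, ⟨.ofNat (nat_lit 0), .ofNat (nat_lit 0), .ofNat (nat_lit 0), .ofNat (nat_lit 0), .ofNat (nat_lit 0), .ofNat (nat_lit 0), .ofNat (nat_lit 0), .ofNat (nat_lit 0)⟩⟩, []⟩
noncomputable def p018_l44 : Lf2 := ⟨nat_lit 0, nat_lit 10, [nat_lit 0, nat_lit 5, nat_lit 5, nat_lit 20], false, nat_lit 0, nat_lit 0, nat_lit 0, nat_lit 0, ⟨nat_lit 98, nat_lit 231, nat_lit 671, nat_lit 6, nat_lit 249, nat_lit 0, nat_lit 0, nat_lit 0, nat_lit 0, nat_lit 215, nat_lit 188652, nat_lit 200, nat_lit 48259216, nat_lit 18740784, nat_lit 0, nat_lit 2963410, false, true⟩,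
 nat_lit 3576, nat_lit 0, nat_lit 0, nat_lit 0, nat_lit 2681, nat_lit 1191, nat_lit 0, nat_lit 0, nat_lit 0, nat_lit 77, nat_lit 0, nat_lit 0, nat_lit 0, nat_lit 0, nat_lit 0, nat_lit 326150, nat_lit 0, nat_lit 0, [(nat_lit 18, [(nat_lit 0, nat_lit 231), (nat_lit 5, nat_lit 671)])],
 ⟨p018_k0, nat_lit 0, nat_lit 0, nat_lit 214, nat_lit 0, nat_lit 156562, [nat_lit 1176437601, nat_lit 682438000, nat_lit 194332800], [], [nat_lit 21980034833, nat_lit 22900367005, nat_lit 25908744048, nat_lit 26654278775], nat_lit 1271250, nat_lit 1271250, nat_lit 1271250, nat_lit 1271250, nat_lit 0, nat_lit 0, [nat_lit 490000, nat_lit 1100000, nat_lit 1442500], [nat_lit 6, nat_lit 40, nat_lit 80, nat_lit 80, nat_lit 3, nat_lit 203, nat_lit 0, nat_lit 7]⟩, ⟨p018_k1, nat_lit 0, nat_lit 0, nat_lit 559, nat_lit 0, nat_lit 433556, [nat_lit 780864000, nat_lit 1163456000, nat_lit 1377684000], [], [nat_lit 4573643715,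 nat_lit 4534919778, nat_lit 4833400306, nat_lit 4785087615], nat_lit 1100001, nat_lit 1271250, nat_lit 1271250, nat_lit 1271250, nat_lit 0, nat_lit 0, [nat_lit 1695000, nat_lit 1271250, nat_lit 1271250], [nat_lit 62, nat_lit 40, nat_lit 80, nat_lit 80, nat_lit 58, nat_lit 373, nat_lit 150, nat_lit 9]⟩,
 ⟨nat_lit 3872, nat_lit 4473, ⟨.ofNat (nat_lit 524844), .ofNat (nat_lit 708385), .ofNat (nat_lit 546410), .ofNat (nat_lit 729951), .ofNat (nat_lit 520934), .ofNat (nat_lit 695142), .ofNat (nat_lit 542727), .ofNat (nat_lit 716935)⟩, ⟨.ofNat (nat_lit 0), .ofNat (nat_lit 0), .ofNat (nat_lit 0), .ofNat (nat_lit 0), .ofNat (nat_lit 0), .ofNat (nat_lit 0), .ofNat (nat_lit 0), .ofNat (nat_lit 0)⟩⟩, [⟨nat_lit 13, nat_lit 77, nat_lit 77, nat_lit 100, nat_lit 199504161⟩]⟩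
noncomputable def p018_l45 : Lf2 := ⟨nat_lit 0, nat_lit 10, [nat_lit 0, nat_lit 5, nat_lit 5, nat_lit 20], false, nat_lit 0, nat_lit 0, nat_lit 0, nat_lit 0, ⟨nat_lit 188, nat_lit 295, nat_lit 517, nat_lit 6, nat_lit 262, nat_lit 0, nat_lit 0, nat_lit 0, nat_lit 0, nat_lit 215, nat_lit 272572, nat_lit 200, nat_lit 46894425, nat_lit 20105575, nat_lit 0, nat_lit 3054673, true, true⟩,
 nat_lit 4228, nat_lit 0, nat_lit 0, nat_lit 0, nat_lit 3170, nat_lit 1607, nat_lit 0, nat_lit 0, nat_lit 0, nat_lit 147, nat_lit 0, nat_lit 0, nat_lit 0, nat_lit 0, nat_lit 0, nat_lit 280550, nat_lit 0, nat_lit 0, [(nat_lit 18, [(nat_lit 0, nat_lit 295), (nat_lit 5, nat_lit 517)])],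
 ⟨p018_k0, nat_lit 0, nat_lit 0, nat_lit 222, nat_lit 0, nat_lit 171019, [nat_lit 1314381600, nat_lit 1306866001, nat_lit 1152601600], [], [nat_lit 23224083040, nat_lit 24204079080, nat_lit 27859283980, nat_lit 28621508920], nat_lit 1271250, nat_lit 1271250, nat_lit 1271250, nat_lit 1271250, nat_lit 0, nat_lit 0, [nat_lit 490000, nat_lit 1100000, nat_lit 1442500], [nat_lit 6, nat_lit 40, nat_lit 80, nat_lit 80, nat_lit 3, nat_lit 203, nat_lit 0, nat_lit 7]⟩, ⟨p018_k2, nat_lit 0, nat_lit 0, nat_lit 512, nat_lit 0, nat_lit 397582, [nat_lit 1497984000, nat_lit 2231936000, nat_lit 2642904000], [], [nat_lit 8362599334, nat_lit 8334993148, nat_lit 9001204462, nat_lit 8959545208], nat_lit 1271250, nat_lit 1271250, nat_lit 1271250, nat_lit 1271250, nat_lit 0, nat_lit 0, [nat_lit 1695000, nat_lit 1271250, nat_lit 1271250], [nat_lit 62, nat_lit 40, nat_lit 80, nat_lit 80, nat_lit 58, nat_lit 373,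 nat_lit 150, nat_lit 9]⟩,
 ⟨nat_lit 3872, nat_lit 4473, ⟨.ofNat (nat_lit 546410), .ofNat (nat_lit 750345), .ofNat (nat_lit 567977), .ofNat (nat_lit 771911), .ofNat (nat_lit 542727), .ofNat (nat_lit 736292), .ofNat (nat_lit 564520), .ofNat (nat_lit 758085)⟩, ⟨.ofNat (nat_lit 0), .ofNat (nat_lit 0), .ofNat (nat_lit 0), .ofNat (nat_lit 0), .ofNat (nat_lit 0), .ofNat (nat_lit 0), .ofNat (nat_lit 0), .ofNat (nat_lit 0)⟩⟩, [⟨nat_lit 13, nat_lit 76, nat_lit 69, nat_lit 100, nat_lit 166479558⟩]⟩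
noncomputable def p018_l46 : Lf2 := ⟨nat_lit 1, nat_lit 10, [nat_lit 0, nat_lit 5, nat_lit 5, nat_lit 20], false, nat_lit 0, nat_lit 0, nat_lit 0, nat_lit 0, zbN0,
 nat_lit 0, nat_lit 0, nat_lit 0, nat_lit 0, nat_lit 0, nat_lit 0, nat_lit 0, nat_lit 0, nat_lit 0, nat_lit 0, nat_lit 0, nat_lit 0, nat_lit 0, nat_lit 0, nat_lit 0, nat_lit 0, nat_lit 0, nat_lit 0, [],
 C1.Rw.none, C1.Rw.none,
 zbF0, []⟩
noncomputable def p018_l47 : Lf2 := ⟨nat_lit 0, nat_lit 10, [nat_lit 0, nat_lit 5, nat_lit 5, nat_lit 20], false, nat_lit 0, nat_lit 0, nat_lit 0, nat_lit 0, ⟨nat_lit 0, nat_lit 578, nat_lit 422, nat_lit 6, nat_lit 242, nat_lit 0, nat_lit 0, nat_lit 0, nat_lit 0, nat_lit 215, nat_lit 111002, nat_lit 200, nat_lit 49090068, nat_lit 17909932, nat_lit 0, nat_lit 2902835, false, true⟩,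
 nat_lit 0, nat_lit 3657, nat_lit 0, nat_lit 0, nat_lit 2960, nat_lit 0, nat_lit 0, nat_lit 0, nat_lit 0, nat_lit 0, nat_lit 0, nat_lit 0, nat_lit 0, nat_lit 0, nat_lit 0, nat_lit 313300, nat_lit 0, nat_lit 0, [(nat_lit 21, [(nat_lit 0, nat_lit 578), (nat_lit 5, nat_lit 422)])],
 ⟨p018_k7, nat_lit 0, nat_lit 0, nat_lit 228, nat_lit 0, nat_lit 212490, [nat_lit 1313302400, nat_lit 790873601, nat_lit 568226400], [], [nat_lit 23356665840, nat_lit 23833852600, nat_lit 26564434362, nat_lit 26963153670], nat_lit 1271250, nat_lit 1271250, nat_lit 1271250, nat_lit 1271250, nat_lit 0, nat_lit 0, [nat_lit 490000, nat_lit 1100000, nat_lit 1442500], [nat_lit 6, nat_lit 40, nat_lit 80, nat_lit 80, nat_lit 3, nat_lit 203, nat_lit 0, nat_lit 7]⟩, ⟨p018_k1, nat_lit 0, nat_lit 0, nat_lit 655, nat_lit 0, nat_lit 653292, [nat_lit 0, nat_lit 0, nat_lit 0], [], [nat_lit 0, nat_lit 0, nat_lit 0, nat_lit 0], nat_lit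 1100001, nat_lit 1271250, nat_lit 1271250, nat_lit 1271250, nat_lit 0, nat_lit 0, [nat_lit 1695000, nat_lit 1271250, nat_lit 1271250], [nat_lit 62, nat_lit 40, nat_lit 80, nat_lit 80, nat_lit 58, nat_lit 373, nat_lit 150, nat_lit 9]⟩,
 ⟨nat_lit 3535, nat_lit 3873, ⟨.ofNat (nat_lit 520934), .ofNat (nat_lit 669333), .ofNat (nat_lit 542727), .ofNat (nat_lit 691126), .ofNat (nat_lit 518855), .ofNat (nat_lit 663206), .ofNat (nat_lit 540807), .ofNat (nat_lit 685159)⟩, ⟨.ofNat (nat_lit 0), .ofNat (nat_lit 0), .ofNat (nat_lit 0), .ofNat (nat_lit 0), .ofNat (nat_lit 0), .ofNat (nat_lit 0), .ofNat (nat_lit 0), .ofNat (nat_lit 0)⟩⟩, [⟨nat_lit 13, nat_lit 70, nat_lit 83, nat_lit 100, nat_lit 242222515⟩]⟩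
noncomputable def p018_l48 : Lf2 := ⟨nat_lit 0, nat_lit 10, [nat_lit 0, nat_lit 5, nat_lit 5, nat_lit 20], false, nat_lit 0, nat_lit 0, nat_lit 0, nat_lit 0, ⟨nat_lit 0, nat_lit 576, nat_lit 424, nat_lit 6, nat_lit 236, nat_lit 0, nat_lit 0, nat_lit 0, nat_lit 0, nat_lit 215, nat_lit 61410, nat_lit 200, nat_lit 49672052, nat_lit 17327948, nat_lit 0, nat_lit 2858073, false, true⟩,
 nat_lit 0, nat_lit 3349, nat_lit 0, nat_lit 0, nat_lit 2813, nat_lit 0, nat_lit 0, nat_lit 0, nat_lit 0, nat_lit 0, nat_lit 0, nat_lit 0, nat_lit 0, nat_lit 0, nat_lit 0, nat_lit 313600, nat_lit 0, nat_lit 0, [(nat_lit 21, [(nat_lit 0, nat_lit 576), (nat_lit 5, nat_lit 424)])],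
 ⟨p018_k5, nat_lit 0, nat_lit 0, nat_lit 200, nat_lit 0, nat_lit 268101, [nat_lit 1312140800, nat_lit 679388800], [], [nat_lit 23297635874, nat_lit 23793750660, nat_lit 26094068075, nat_lit 26519504116], nat_lit 1271250, nat_lit 1271250, nat_lit 1271250, nat_lit 1271250, nat_lit 0, nat_lit 0, [nat_lit 490000, nat_lit 1100000], [nat_lit 24, nat_lit 40, nat_lit 80, nat_lit 80, nat_lit 33, nat_lit 203, nat_lit 0, nat_lit 8]⟩, ⟨p018_k1, nat_lit 0, nat_lit 0, nat_lit 760, nat_lit 0, nat_lit 860838, [nat_lit 0, nat_lit 0, nat_lit 0], [], [nat_lit 0, nat_lit 0, nat_lit 0, nat_lit 0], nat_lit 1100001, nat_lit 1271250, nat_lit 1271250, nat_lit 1271250, nat_lit 0, nat_lit 0, [nat_lit 1695000, nat_lit 1271250, nat_lit 1271250], [nat_lit 62, nat_lit 40, nat_lit 80, nat_lit 80, nat_lit 58, nat_lit 345, nat_lit 125, nat_lit 8]⟩,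
 ⟨nat_lit 3162, nat_lit 3536, ⟨.ofNat (nat_lit 518855), .ofNat (nat_lit 644378), .ofNat (nat_lit 540807), .ofNat (nat_lit 666330), .ofNat (nat_lit 516642), .ofNat (nat_lit 638549), .ofNat (nat_lit 538797), .ofNat (nat_lit 660704)⟩, ⟨.ofNat (nat_lit 0), .ofNat (nat_lit 0), .ofNat (nat_lit 0), .ofNat (nat_lit 0), .ofNat (nat_lit 0), .ofNat (nat_lit 0), .ofNat (nat_lit 0), .ofNat (nat_lit 0)⟩⟩, [⟨nat_lit 13, nat_lit 64, nat_lit 87, nat_lit 100, nat_lit 276339275⟩]⟩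
noncomputable def p018_l49 : Lf2 := ⟨nat_lit 0, nat_lit 10, [nat_lit 0, nat_lit 5, nat_lit 5, nat_lit 20], false, nat_lit 0, nat_lit 0, nat_lit 0, nat_lit 0, ⟨nat_lit 145, nat_lit 855, nat_lit 0, nat_lit 6, nat_lit 255, nat_lit 0, nat_lit 0, nat_lit 0, nat_lit 0, nat_lit 0, nat_lit 0, nat_lit 0, nat_lit 47683397, nat_lit 19316603, nat_lit 0, nat_lit 3003145, true, true⟩,
 nat_lit 4360, nat_lit 0, nat_lit 0, nat_lit 0, nat_lit 3529, nat_lit 1657, nat_lit 169, nat_lit 0, nat_lit 0, nat_lit 123, nat_lit 0, nat_lit 0, nat_lit 0, nat_lit 0, nat_lit 0, nat_lit 263550, nat_lit 0, nat_lit 0, [(nat_lit 21, [(nat_lit 0, nat_lit 523), (nat_lit 1, nat_lit 332)])],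
 ⟨p018_k7, nat_lit 0, nat_lit 0, nat_lit 224, nat_lit 0, nat_lit 191412, [nat_lit 1559609600, nat_lit 2297727601, nat_lit 2523952000], [], [nat_lit 24708948186, nat_lit 24964897773, nat_lit 28581350563, nat_lit 28786461227], nat_lit 1271250, nat_lit 1271250, nat_lit 1271250, nat_lit 1271250, nat_lit 0, nat_lit 0, [nat_lit 490000, nat_lit 1100000, nat_lit 1442500], [nat_lit 6, nat_lit 40, nat_lit 80, nat_lit 80, nat_lit 3, nat_lit 203, nat_lit 0, nat_lit 7]⟩, ⟨p018_k2, nat_lit 0, nat_lit 0, nat_lit 577, nat_lit 0, nat_lit 492719, [nat_lit 1155360000, nat_lit 1721440000, nat_lit 2038410000], [], [nat_lit 6283054527, nat_lit 6242307827, nat_lit 6629641157, nat_lit 6566366773], nat_lit 1271250, nat_lit 1271250, nat_lit 1271250, nat_lit 1271250, nat_lit 0, nat_lit 0, [nat_lit 1695000, nat_lit 1271250, nat_lit 1271250], [nat_lit 62, nat_lit 40, nat_lit 80, nat_lit 80, nat_lit 58, nat_lit 373,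 nat_lit 150, nat_lit 9]⟩,
 ⟨nat_lit 3708, nat_lit 3873, ⟨.ofNat (nat_lit 542727), .ofNat (nat_lit 710483), .ofNat (nat_lit 564520), .ofNat (nat_lit 732276), .ofNat (nat_lit 541776), .ofNat (nat_lit 707255), .ofNat (nat_lit 563644), .ofNat (nat_lit 729124)⟩, ⟨.ofNat (nat_lit 0), .ofNat (nat_lit 0), .ofNat (nat_lit 0), .ofNat (nat_lit 0), .ofNat (nat_lit 0), .ofNat (nat_lit 0), .ofNat (nat_lit 0), .ofNat (nat_lit 0)⟩⟩, [⟨nat_lit 13, nat_lit 70, nat_lit 75, nat_lit 100, nat_lit 136317580⟩]⟩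
noncomputable def p018_l50 : Lf2 := ⟨nat_lit 0, nat_lit 10, [nat_lit 0, nat_lit 5, nat_lit 5, nat_lit 20], false, nat_lit 0, nat_lit 0, nat_lit 0, nat_lit 0, ⟨nat_lit 131, nat_lit 869, nat_lit 0, nat_lit 6, nat_lit 253, nat_lit 0, nat_lit 0, nat_lit 0, nat_lit 0, nat_lit 0, nat_lit 0, nat_lit 0, nat_lit 47909217, nat_lit 19090783, nat_lit 0, nat_lit 2987778, true, true⟩,
 nat_lit 3967, nat_lit 0, nat_lit 0, nat_lit 0, nat_lit 3271, nat_lit 1508, nat_lit 154, nat_lit 0, nat_lit 0, nat_lit 112, nat_lit 0, nat_lit 0, nat_lit 0, nat_lit 0, nat_lit 0, nat_lit 347600, nat_lit 0, nat_lit 0, [(nat_lit 21, [(nat_lit 1, nat_lit 869)])],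
 ⟨p018_k14, nat_lit 0, nat_lit 0, nat_lit 232, nat_lit 0, nat_lit 216986, [nat_lit 1443860800, nat_lit 1911371201, nat_lit 2115298000], [], [nat_lit 24434663977, nat_lit 24682743790, nat_lit 28009887783, nat_lit 28211667470], nat_lit 1271250, nat_lit 1271250, nat_lit 1271250, nat_lit 1271250, nat_lit 0, nat_lit 0, [nat_lit 490000, nat_lit 1100000, nat_lit 1442500], [nat_lit 6, nat_lit 40, nat_lit 80, nat_lit 80, nat_lit 3, nat_lit 203, nat_lit 0, nat_lit 7]⟩, ⟨p018_k2, nat_lit 0, nat_lit 0, nat_lit 611, nat_lit 0, nat_lit 570890, [nat_lit 1043808000, nat_lit 1555232000, nat_lit 1841598000], [], [nat_lit 5652420642, nat_lit 5614983760, nat_lit 5946548457, nat_lit 5891363846], nat_lit 1271250, nat_lit 1271250, nat_lit 1271250, nat_lit 1271250, nat_lit 0, nat_lit 0, [nat_lit 1695000, nat_lit 1271250, nat_lit 1271250], [nat_lit 62, nat_lit 40, nat_lit 80, nat_lit 80, nat_lit 58, nat_lit 373,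 nat_lit 150, nat_lit 9]⟩,
 ⟨nat_lit 3535, nat_lit 3709, ⟨.ofNat (nat_lit 541776), .ofNat (nat_lit 700891), .ofNat (nat_lit 563644), .ofNat (nat_lit 722759), .ofNat (nat_lit 540807), .ofNat (nat_lit 697711), .ofNat (nat_lit 562760), .ofNat (nat_lit 719663)⟩, ⟨.ofNat (nat_lit 0), .ofNat (nat_lit 0), .ofNat (nat_lit 0), .ofNat (nat_lit 0), .ofNat (nat_lit 0), .ofNat (nat_lit 0), .ofNat (nat_lit 0), .ofNat (nat_lit 0)⟩⟩, [⟨nat_lit 13, nat_lit 68, nat_lit 77, nat_lit 100, nat_lit 141657803⟩]⟩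
noncomputable def p018_l51 : Lf2 := ⟨nat_lit 0, nat_lit 10, [nat_lit 0, nat_lit 5, nat_lit 5, nat_lit 20], false, nat_lit 0, nat_lit 0, nat_lit 0, nat_lit 0, ⟨nat_lit 121, nat_lit 517, nat_lit 362, nat_lit 6, nat_lit 250, nat_lit 0, nat_lit 0, nat_lit 0, nat_lit 0, nat_lit 215, nat_lit 155524, nat_lit 200, nat_lit 48177269, nat_lit 18822731, nat_lit 0, nat_lit 2969176, true, true⟩,
 nat_lit 3679, nat_lit 0, nat_lit 0, nat_lit 0, nat_lit 3090, nat_lit 1399, nat_lit 0, nat_lit 0, nat_lit 0, nat_lit 105, nat_lit 0, nat_lit 0, nat_lit 0, nat_lit 0, nat_lit 0, nat_lit 274050, nat_lit 0, nat_lit 0, [(nat_lit 21, [(nat_lit 0, nat_lit 517), (nat_lit 5, nat_lit 362)])],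
 ⟨p018_k5, nat_lit 0, nat_lit 0, nat_lit 210, nat_lit 0, nat_lit 271258, [nat_lit 1405456001, nat_lit 1196826800], [], [nat_lit 24511769521, nat_lit 24979864281, nat_lit 27748773031, nat_lit 28136439857], nat_lit 1271250, nat_lit 1271250, nat_lit 1271250, nat_lit 1271250, nat_lit 0, nat_lit 0, [nat_lit 490000, nat_lit 1100000], [nat_lit 24, nat_lit 40, nat_lit 80, nat_lit 80, nat_lit 33, nat_lit 203, nat_lit 0, nat_lit 8]⟩, ⟨p018_k2, nat_lit 0, nat_lit 0, nat_lit 679, nat_lit 0, nat_lit 729234, [nat_lit 964128000, nat_lit 1436512000, nat_lit 1701018000], [], [nat_lit 5202276513, nat_lit 5167349921, nat_lit 5456264440, nat_lit 5403991527], nat_lit 1271250, nat_lit 1271250, nat_lit 1271250, nat_lit 1271250, nat_lit 0, nat_lit 0, [nat_lit 1695000, nat_lit 1271250, nat_lit 1271250], [nat_lit 62, nat_lit 40, nat_lit 80, nat_lit 80, nat_lit 58, nat_lit 373, nat_lit 150, nat_lit 9]⟩,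
 ⟨nat_lit 3162, nat_lit 3536, ⟨.ofNat (nat_lit 540807), .ofNat (nat_lit 691435), .ofNat (nat_lit 562760), .ofNat (nat_lit 713387), .ofNat (nat_lit 538797), .ofNat (nat_lit 685085), .ofNat (nat_lit 560952), .ofNat (nat_lit 707240)⟩, ⟨.ofNat (nat_lit 0), .ofNat (nat_lit 0), .ofNat (nat_lit 0), .ofNat (nat_lit 0), .ofNat (nat_lit 0), .ofNat (nat_lit 0), .ofNat (nat_lit 0), .ofNat (nat_lit 0)⟩⟩, [⟨nat_lit 13, nat_lit 63, nat_lit 81, nat_lit 100, nat_lit 194491771⟩]⟩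
noncomputable def p018_l52 : Lf2 := ⟨nat_lit 0, nat_lit 10, [nat_lit 0, nat_lit 5, nat_lit 5, nat_lit 20], true, nat_lit 0, nat_lit 0, nat_lit 0, nat_lit 0, ⟨nat_lit 0, nat_lit 1000, nat_lit 0, nat_lit 4, nat_lit 183, nat_lit 0, nat_lit 0, nat_lit 0, nat_lit 0, nat_lit 0, nat_lit 0, nat_lit 0, nat_lit 0, nat_lit 0, nat_lit 0, nat_lit 5000000, false, true⟩,
 nat_lit 0, nat_lit 4915, nat_lit 0, nat_lit 0, nat_lit 3686, nat_lit 0, nat_lit 0, nat_lit 0, nat_lit 0, nat_lit 0, nat_lit 0, nat_lit 0, nat_lit 0, nat_lit 0, nat_lit 0, nat_lit 533800, nat_lit 0, nat_lit 0, [(nat_lit 18, [(nat_lit 1, nat_lit 777), (nat_lit 2, nat_lit 223)]), (nat_lit 21, [(nat_lit 1, nat_lit 777), (nat_lit 2, nat_lit 223)])],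
 ⟨p018_k8, nat_lit 0, nat_lit 0, nat_lit 398, nat_lit 0, nat_lit 475077, [nat_lit 1707952401, nat_lit 1600795599], [], [nat_lit 25796359701, nat_lit 27571786676, nat_lit 31287572421, nat_lit 31182406778], nat_lit 1271250, nat_lit 1271250, nat_lit 88400, nat_lit 2569500, nat_lit 0, nat_lit 0, [nat_lit 490000, nat_lit 1427500], [nat_lit 69, nat_lit 40, nat_lit 80, nat_lit 80, nat_lit 64, nat_lit 317, nat_lit 100, nat_lit 12]⟩, C1.Rw.none,
 ⟨nat_lit 3162, nat_lit 4473, ⟨.ofNat (nat_lit 143971), .ofNat (nat_lit 728778), .ofNat (nat_lit 186943), .ofNat (nat_lit 771911), .ofNat (nat_lit 175109), .ofNat (nat_lit 699502), .ofNat (nat_lit 219258), .ofNat (nat_lit 743812)⟩, ⟨.ofNat (nat_lit 0), .ofNat (nat_lit 0), .ofNat (nat_lit 0), .ofNat (nat_lit 0), .ofNat (nat_lit 0), .ofNat (nat_lit 0), .ofNat (nat_lit 0), .ofNat (nat_lit 0)⟩⟩, [⟨nat_lit 13, nat_lit 72, nat_lit 77, nat_lit 100, nat_lit 153298316⟩]⟩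
noncomputable def p018_l53 : Lf2 := ⟨nat_lit 0, nat_lit 10, [nat_lit 0, nat_lit 5, nat_lit 5, nat_lit 20], true, nat_lit 0, nat_lit 0, nat_lit 0, nat_lit 0, ⟨nat_lit 0, nat_lit 160, nat_lit 840, nat_lit 4, nat_lit 119, nat_lit 0, nat_lit 0, nat_lit 0, nat_lit 0, nat_lit 215, nat_lit 132017, nat_lit 304, nat_lit 61553016, nat_lit 5446984, nat_lit 0, nat_lit 1409640, false, false⟩,
 nat_lit 0, nat_lit 0, nat_lit 0, nat_lit 2538, nat_lit 2605, nat_lit 0, nat_lit 0, nat_lit 0, nat_lit 0, nat_lit 0, nat_lit 0, nat_lit 0, nat_lit 0, nat_lit 0, nat_lit 18, nat_lit 250000, nat_lit 0, nat_lit 0, [(nat_lit 18, [(nat_lit 0, nat_lit 160), (nat_lit 4, nat_lit 840)]), (nat_lit 21, [(nat_lit 0, nat_lit 160), (nat_lit 4, nat_lit 840)])],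
 ⟨p018_k0, nat_lit 0, nat_lit 0, nat_lit 223, nat_lit 0, nat_lit 0, [nat_lit 1644608001, nat_lit 499472001, nat_lit 14256000], [], [nat_lit 18569401734, nat_lit 21034611440, nat_lit 19380410524, nat_lit 21869047784], nat_lit 0, nat_lit 0, nat_lit 0, nat_lit 0, nat_lit 0, nat_lit 0, [], [nat_lit 6, nat_lit 40, nat_lit 80, nat_lit 80, nat_lit 3, nat_lit 249, nat_lit 40, nat_lit 10]⟩, C1.Rw.none,
 ⟨nat_lit 3162, nat_lit 4473, ⟨.ofNat (nat_lit 143971), .ofNat (nat_lit 388887), .ofNat (nat_lit 186943), .ofNat (nat_lit 431944), .ofNat (nat_lit 175109), .ofNat (nat_lit 394735), .ofNat (nat_lit 219258), .ofNat (nat_lit 438969)⟩, ⟨.ofNat (nat_lit 0), .ofNat (nat_lit 0), .ofNat (nat_lit 0), .ofNat (nat_lit 0), .ofNat (nat_lit 0), .ofNat (nat_lit 0), .ofNat (nat_lit 0), .ofNat (nat_lit 0)⟩⟩, [⟨nat_lit 0, nat_lit 100, nat_lit 60, nat_lit 80, nat_lit 34850635⟩]⟩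
noncomputable def p018_l54 : Lf2 := ⟨nat_lit 0, nat_lit 10, [nat_lit 0, nat_lit 5, nat_lit 5, nat_lit 20], false, nat_lit 0, nat_lit 0, nat_lit 0, nat_lit 0, ⟨nat_lit 1000, nat_lit 0, nat_lit 0, nat_lit 0, nat_lit 0, nat_lit 0, nat_lit 0, nat_lit 0, nat_lit 0, nat_lit 0, nat_lit 0, nat_lit 0, nat_lit 0, nat_lit 0, nat_lit 0, nat_lit 0, false, false⟩,
 nat_lit 0, nat_lit 0, nat_lit 0, nat_lit 0, nat_lit 4561, nat_lit 11477, nat_lit 0, nat_lit 0, nat_lit 0, nat_lit 0, nat_lit 0, nat_lit 0, nat_lit 0, nat_lit 0, nat_lit 0, nat_lit 0, nat_lit 0, nat_lit 0, [],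
 ⟨p018_k0, nat_lit 0, nat_lit 0, nat_lit 168, nat_lit 0, nat_lit 0, [nat_lit 2032000001, nat_lit 4688000000, nat_lit 6250000000], [], [nat_lit 27030627293, nat_lit 29939957628, nat_lit 35330635254, nat_lit 37272692662], nat_lit 0, nat_lit 0, nat_lit 0, nat_lit 0, nat_lit 0, nat_lit 0, [], [nat_lit 6, nat_lit 40, nat_lit 80, nat_lit 80, nat_lit 3, nat_lit 317, nat_lit 100, nat_lit 12]⟩, ⟨p018_k1, nat_lit 0, nat_lit 0, nat_lit 319, nat_lit 0, nat_lit 0, [nat_lit 7968000000, nat_lit 11872000000, nat_lit 14058000000], [], [nat_lit 38230070224, nat_lit 38763439020, nat_lit 51522054254, nat_lit 51225649112], nat_lit 0, nat_lit 0, nat_lit 0, nat_lit 0, nat_lit 0, nat_lit 0, [], [nat_lit 62, nat_lit 40, nat_lit 80, nat_lit 80, nat_lit 58, nat_lit 373, nat_lit 150, nat_lit 9]⟩,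
 zbF0, []⟩
noncomputable def p018_l55 : Lf2 := ⟨nat_lit 0, nat_lit 10, [nat_lit 0, nat_lit 5, nat_lit 5, nat_lit 20], true, nat_lit 0, nat_lit 0, nat_lit 0, nat_lit 0, ⟨nat_lit 0, nat_lit 160, nat_lit 840, nat_lit 4, nat_lit 119, nat_lit 0, nat_lit 0, nat_lit 0, nat_lit 0, nat_lit 215, nat_lit 132017, nat_lit 304, nat_lit 61553016, nat_lit 5446984, nat_lit 0, nat_lit 1409640, false, false⟩,
 nat_lit 0, nat_lit 0, nat_lit 0, nat_lit 2538, nat_lit 2605, nat_lit 0, nat_lit 0, nat_lit 0, nat_lit 0, nat_lit 0, nat_lit 0, nat_lit 0, nat_lit 0, nat_lit 0, nat_lit 18, nat_lit 250000, nat_lit 0, nat_lit 0, [(nat_lit 18, [(nat_lit 0, nat_lit 160), (nat_lit 4, nat_lit 840)]), (nat_lit 21, [(nat_lit 0, nat_lit 160), (nat_lit 4, nat_lit 840)])],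
 ⟨p018_k0, nat_lit 0, nat_lit 0, nat_lit 223, nat_lit 0, nat_lit 0, [nat_lit 1644608001, nat_lit 499472001, nat_lit 14256000], [], [nat_lit 18569401734, nat_lit 21034611440, nat_lit 19380410524, nat_lit 21869047784], nat_lit 0, nat_lit 0, nat_lit 0, nat_lit 0, nat_lit 0, nat_lit 0, [], [nat_lit 6, nat_lit 40, nat_lit 80, nat_lit 80, nat_lit 3, nat_lit 249, nat_lit 40, nat_lit 10]⟩, C1.Rw.none,
 ⟨nat_lit 3162, nat_lit 4473, ⟨.ofNat (nat_lit 143971), .ofNat (nat_lit 388887), .ofNat (nat_lit 186943), .ofNat (nat_lit 431944), .ofNat (nat_lit 175109), .ofNat (nat_lit 394735), .ofNat (nat_lit 219258), .ofNat (nat_lit 438969)⟩, ⟨.ofNat (nat_lit 0), .ofNat (nat_lit 0), .ofNat (nat_lit 0), .ofNat (nat_lit 0), .ofNat (nat_lit 0), .ofNat (nat_lit 0), .ofNat (nat_lit 0), .ofNat (nat_lit 0)⟩⟩, [⟨nat_lit 0, nat_lit 100, nat_lit 60, nat_lit 80, nat_lit 34850635⟩]⟩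
noncomputable def p018_l56 : Lf2 := ⟨nat_lit 1, nat_lit 10, [nat_lit 0, nat_lit 5, nat_lit 5, nat_lit 20], false, nat_lit 0, nat_lit 0, nat_lit 0, nat_lit 0, zbN0,
 nat_lit 0, nat_lit 0, nat_lit 0, nat_lit 0, nat_lit 0, nat_lit 0, nat_lit 0, nat_lit 0, nat_lit 0, nat_lit 0, nat_lit 0, nat_lit 0, nat_lit 0, nat_lit 0, nat_lit 0, nat_lit 0, nat_lit 0, nat_lit 0, [],
 C1.Rw.none, C1.Rw.none,
 zbF0, []⟩
noncomputable def p018_l57 : Lf2 := ⟨nat_lit 0, nat_lit 10, [nat_lit 0, nat_lit 5, nat_lit 5, nat_lit 20], true, nat_lit 0, nat_lit 0, nat_lit 0, nat_lit 0, ⟨nat_lit 0, nat_lit 1000, nat_lit 0, nat_lit 4, nat_lit 224, nat_lit 0, nat_lit 0, nat_lit 0, nat_lit 0, nat_lit 0, nat_lit 0, nat_lit 0, nat_lit 51023338, nat_lit 15976662, nat_lit 0, nat_lit 2746476, false, true⟩,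
 nat_lit 0, nat_lit 0, nat_lit 0, nat_lit 2538, nat_lit 3262, nat_lit 0, nat_lit 0, nat_lit 0, nat_lit 0, nat_lit 0, nat_lit 0, nat_lit 0, nat_lit 0, nat_lit 0, nat_lit 0, nat_lit 250000, nat_lit 0, nat_lit 0, [(nat_lit 21, [(nat_lit 0, nat_lit 1000)])],
 ⟨p018_k15, nat_lit 0, nat_lit 0, nat_lit 154, nat_lit 0, nat_lit 0, [nat_lit 1558400000, nat_lit 1661200000, nat_lit 2307600000], [], [nat_lit 22358107148, nat_lit 23629187512, nat_lit 28846954690, nat_lit 29735054942], nat_lit 0, nat_lit 0, nat_lit 0, nat_lit 0, nat_lit 0, nat_lit 0, [], [nat_lit 85, nat_lit 40, nat_lit 80, nat_lit 80, nat_lit 16, nat_lit 317, nat_lit 100, nat_lit 12]⟩, C1.Rw.none,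
 ⟨nat_lit 3162, nat_lit 3873, ⟨.ofNat (nat_lit 391890), .ofNat (nat_lit 688690), .ofNat (nat_lit 435446), .ofNat (nat_lit 732276), .ofNat (nat_lit 394735), .ofNat (nat_lit 675121), .ofNat (nat_lit 439014), .ofNat (nat_lit 719431)⟩, ⟨.ofNat (nat_lit 0), .ofNat (nat_lit 0), .ofNat (nat_lit 0), .ofNat (nat_lit 0), .ofNat (nat_lit 0), .ofNat (nat_lit 0), .ofNat (nat_lit 0), .ofNat (nat_lit 0)⟩⟩, [⟨nat_lit 13, nat_lit 66, nat_lit 82, nat_lit 100, nat_lit 183997809⟩]⟩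
noncomputable def p018_l58 : Lf2 := ⟨nat_lit 0, nat_lit 10, [nat_lit 0, nat_lit 5, nat_lit 5, nat_lit 20], true, nat_lit 0, nat_lit 0, nat_lit 0, nat_lit 0, ⟨nat_lit 0, nat_lit 1000, nat_lit 0, nat_lit 4, nat_lit 183, nat_lit 0, nat_lit 0, nat_lit 0, nat_lit 0, nat_lit 0, nat_lit 0, nat_lit 0, nat_lit 0, nat_lit 0, nat_lit 0, nat_lit 5000000, false, true⟩,
 nat_lit 0, nat_lit 0, nat_lit 0, nat_lit 3267, nat_lit 3985, nat_lit 0, nat_lit 0, nat_lit 0, nat_lit 0, nat_lit 0, nat_lit 0, nat_lit 0, nat_lit 0, nat_lit 0, nat_lit 0, nat_lit 250000, nat_lit 0, nat_lit 0, [(nat_lit 18, [(nat_lit 0, nat_lit 1000)]), (nat_lit 21, [(nat_lit 0, nat_lit 1000)])],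
 ⟨p018_k0, nat_lit 0, nat_lit 0, nat_lit 223, nat_lit 0, nat_lit 0, [nat_lit 1558400000, nat_lit 2168000000, nat_lit 2562000000], [], [nat_lit 23553111216, nat_lit 26621748705, nat_lit 30261307960, nat_lit 31991717440], nat_lit 0, nat_lit 0, nat_lit 0, nat_lit 0, nat_lit 0, nat_lit 0, [], [nat_lit 6, nat_lit 40, nat_lit 80, nat_lit 80, nat_lit 3, nat_lit 317, nat_lit 100, nat_lit 12]⟩, C1.Rw.none,
 ⟨nat_lit 3162, nat_lit 4473, ⟨.ofNat (nat_lit 143971), .ofNat (nat_lit 728778), .ofNat (nat_lit 186943), .ofNat (nat_lit 771911), .ofNat (nat_lit 175109), .ofNat (nat_lit 699502), .ofNat (nat_lit 219258), .ofNat (nat_lit 743812)⟩, ⟨.ofNat (nat_lit 0), .ofNat (nat_lit 0), .ofNat (nat_lit 0), .ofNat (nat_lit 0), .ofNat (nat_lit 0), .ofNat (nat_lit 0), .ofNat (nat_lit 0), .ofNat (nat_lit 0)⟩⟩, [⟨nat_lit 13, nat_lit 72, nat_lit 77, nat_lit 100, nat_lit 188850363⟩]⟩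
noncomputable def p018_l59 : Lf2 := ⟨nat_lit 0, nat_lit 10, [nat_lit 0, nat_lit 5, nat_lit 5, nat_lit 20], true, nat_lit 0, nat_lit 0, nat_lit 0, nat_lit 0, ⟨nat_lit 0, nat_lit 10, nat_lit 990, nat_lit 4, nat_lit 119, nat_lit 0, nat_lit 0, nat_lit 0, nat_lit 0, nat_lit 215, nat_lit 132017, nat_lit 304, nat_lit 61553016, nat_lit 5446984, nat_lit 0, nat_lit 1409640, false, false⟩,
 nat_lit 0, nat_lit 3461, nat_lit 0, nat_lit 0, nat_lit 2595, nat_lit 0, nat_lit 0, nat_lit 0, nat_lit 0, nat_lit 0, nat_lit 0, nat_lit 0, nat_lit 0, nat_lit 0, nat_lit 44, nat_lit 250000, nat_lit 0, nat_lit 0, [(nat_lit 18, [(nat_lit 0, nat_lit 10), (nat_lit 4, nat_lit 990)]), (nat_lit 21, [(nat_lit 0, nat_lit 10), (nat_lit 4, nat_lit 990)])],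
 ⟨p018_k0, nat_lit 0, nat_lit 0, nat_lit 241, nat_lit 0, nat_lit 64043, [nat_lit 1842288000, nat_lit 566092001, nat_lit 15016000], [], [nat_lit 18376665041, nat_lit 21002572068, nat_lit 19440122920, nat_lit 21843675420], nat_lit 1271250, nat_lit 1271250, nat_lit 88400, nat_lit 1100001, nat_lit 0, nat_lit 0, [nat_lit 490000, nat_lit 1100000, nat_lit 1442500], [nat_lit 6, nat_lit 40, nat_lit 80, nat_lit 80, nat_lit 3, nat_lit 249, nat_lit 40, nat_lit 10]⟩, C1.Rw.none,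
 ⟨nat_lit 3162, nat_lit 4473, ⟨.ofNat (nat_lit 143971), .ofNat (nat_lit 388887), .ofNat (nat_lit 186943), .ofNat (nat_lit 431944), .ofNat (nat_lit 175109), .ofNat (nat_lit 394735), .ofNat (nat_lit 219258), .ofNat (nat_lit 438969)⟩, ⟨.ofNat (nat_lit 0), .ofNat (nat_lit 0), .ofNat (nat_lit 0), .ofNat (nat_lit 0), .ofNat (nat_lit 0), .ofNat (nat_lit 0), .ofNat (nat_lit 0), .ofNat (nat_lit 0)⟩⟩, [⟨nat_lit 0, nat_lit 100, nat_lit 60, nat_lit 80, nat_lit 37995058⟩]⟩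
noncomputable def p018_l60 : Lf2 := ⟨nat_lit 0, nat_lit 10, [nat_lit 0, nat_lit 5, nat_lit 5, nat_lit 20], false, nat_lit 0, nat_lit 0, nat_lit 0, nat_lit 0, ⟨nat_lit 1000, nat_lit 0, nat_lit 0, nat_lit 0, nat_lit 0, nat_lit 0, nat_lit 0, nat_lit 0, nat_lit 0, nat_lit 0, nat_lit 0, nat_lit 0, nat_lit 0, nat_lit 0, nat_lit 0, nat_lit 0, false, false⟩,
 nat_lit 0, nat_lit 8574, nat_lit 0, nat_lit 0, nat_lit 6430, nat_lit 11374, nat_lit 0, nat_lit 0, nat_lit 0, nat_lit 0, nat_lit 0, nat_lit 0, nat_lit 0, nat_lit 0, nat_lit 0, nat_lit 0, nat_lit 0, nat_lit 0, [],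
 ⟨p018_k0, nat_lit 0, nat_lit 0, nat_lit 191, nat_lit 0, nat_lit 64043, [nat_lit 2032000001, nat_lit 4688000000, nat_lit 6250000000], [], [nat_lit 27670322240, nat_lit 31108927200, nat_lit 36502182480, nat_lit 38625180720], nat_lit 1271250, nat_lit 1271250, nat_lit 1100001, nat_lit 2812500, nat_lit 0, nat_lit 0, [nat_lit 490000, nat_lit 1100000, nat_lit 1442500], [nat_lit 6, nat_lit 40, nat_lit 80, nat_lit 80, nat_lit 3, nat_lit 317, nat_lit 100, nat_lit 12]⟩, ⟨p018_k1, nat_lit 0, nat_lit 0, nat_lit 319, nat_lit 0, nat_lit 0, [nat_lit 7968000000, nat_lit 11872000000, nat_lit 14058000000], [], [nat_lit 38291199488, nat_lit 38791997912, nat_lit 51399391348, nat_lit 51113661744], nat_lit 0, nat_lit 0, nat_lit 0, nat_lit 0, nat_lit 0, nat_lit 0, [], [nat_lit 62, nat_lit 40, nat_lit 80, nat_lit 80, nat_lit 58, nat_lit 373, nat_lit 150, nat_lit 9]⟩,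
 zbF0, []⟩
noncomputable def p018_l61 : Lf2 := ⟨nat_lit 0, nat_lit 10, [nat_lit 0, nat_lit 5, nat_lit 5, nat_lit 20], true, nat_lit 0, nat_lit 0, nat_lit 0, nat_lit 0, ⟨nat_lit 0, nat_lit 10, nat_lit 990, nat_lit 4, nat_lit 119, nat_lit 0, nat_lit 0, nat_lit 0, nat_lit 0, nat_lit 215, nat_lit 132017, nat_lit 304, nat_lit 61553016, nat_lit 5446984, nat_lit 0, nat_lit 1409640, false, false⟩,
 nat_lit 0, nat_lit 3461, nat_lit 0, nat_lit 0, nat_lit 2595, nat_lit 0, nat_lit 0, nat_lit 0, nat_lit 0, nat_lit 0, nat_lit 0, nat_lit 0, nat_lit 0, nat_lit 0, nat_lit 44, nat_lit 250000, nat_lit 0, nat_lit 0, [(nat_lit 18, [(nat_lit 0, nat_lit 10), (nat_lit 4, nat_lit 990)]), (nat_lit 21, [(nat_lit 0, nat_lit 10), (nat_lit 4, nat_lit 990)])],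
 ⟨p018_k0, nat_lit 0, nat_lit 0, nat_lit 241, nat_lit 0, nat_lit 64043, [nat_lit 1842288000, nat_lit 566092001, nat_lit 15016000], [], [nat_lit 18376665041, nat_lit 21002572068, nat_lit 19440122920, nat_lit 21843675420], nat_lit 1271250, nat_lit 1271250, nat_lit 88400, nat_lit 1100001, nat_lit 0, nat_lit 0, [nat_lit 490000, nat_lit 1100000, nat_lit 1442500], [nat_lit 6, nat_lit 40, nat_lit 80, nat_lit 80, nat_lit 3, nat_lit 249, nat_lit 40, nat_lit 10]⟩, C1.Rw.none,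
 ⟨nat_lit 3162, nat_lit 4473, ⟨.ofNat (nat_lit 143971), .ofNat (nat_lit 388887), .ofNat (nat_lit 186943), .ofNat (nat_lit 431944), .ofNat (nat_lit 175109), .ofNat (nat_lit 394735), .ofNat (nat_lit 219258), .ofNat (nat_lit 438969)⟩, ⟨.ofNat (nat_lit 0), .ofNat (nat_lit 0), .ofNat (nat_lit 0), .ofNat (nat_lit 0), .ofNat (nat_lit 0), .ofNat (nat_lit 0), .ofNat (nat_lit 0), .ofNat (nat_lit 0)⟩⟩, [⟨nat_lit 0, nat_lit 100, nat_lit 60, nat_lit 80, nat_lit 37995058⟩]⟩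
noncomputable def p018_l62 : Lf2 := ⟨nat_lit 1, nat_lit 10, [nat_lit 0, nat_lit 5, nat_lit 5, nat_lit 20], false, nat_lit 0, nat_lit 0, nat_lit 0, nat_lit 0, zbN0,
 nat_lit 0, nat_lit 0, nat_lit 0, nat_lit 0, nat_lit 0, nat_lit 0, nat_lit 0, nat_lit 0, nat_lit 0, nat_lit 0, nat_lit 0, nat_lit 0, nat_lit 0, nat_lit 0, nat_lit 0, nat_lit 0, nat_lit 0, nat_lit 0, [],
 C1.Rw.none, C1.Rw.none,
 zbF0, []⟩
noncomputable def p018_l63 : Lf2 := ⟨nat_lit 0, nat_lit 10, [nat_lit 0, nat_lit 5, nat_lit 5, nat_lit 20], false, nat_lit 0, nat_lit 0, nat_lit 0, nat_lit 0, ⟨nat_lit 398, nat_lit 0, nat_lit 602, nat_lit 4, nat_lit 224, nat_lit 0, nat_lit 0, nat_lit 0, nat_lit 0, nat_lit 215, nat_lit 193302, nat_lit 200, nat_lit 51023338, nat_lit 0, nat_lit 0, nat_lit 2746476, false, true⟩,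
 nat_lit 8747, nat_lit 0, nat_lit 0, nat_lit 0, nat_lit 3396, nat_lit 2915, nat_lit 0, nat_lit 0, nat_lit 0, nat_lit 0, nat_lit 0, nat_lit 0, nat_lit 0, nat_lit 0, nat_lit 0, nat_lit 150500, nat_lit 0, nat_lit 0, [(nat_lit 21, [(nat_lit 4, nat_lit 602)])],
 ⟨p018_k7, nat_lit 0, nat_lit 0, nat_lit 173, nat_lit 0, nat_lit 38443, [nat_lit 1689100801, nat_lit 1513774400, nat_lit 1921860800], [], [nat_lit 22410958201, nat_lit 23636215489, nat_lit 28626437202, nat_lit 29483974355], nat_lit 1271250, nat_lit 1271250, nat_lit 1100001, nat_lit 2675500, nat_lit 0, nat_lit 0, [nat_lit 490000, nat_lit 1100000, nat_lit 1442500], [nat_lit 6, nat_lit 40, nat_lit 80, nat_lit 80, nat_lit 3, nat_lit 317, nat_lit 100, nat_lit 12]⟩, ⟨p018_k1, nat_lit 0, nat_lit 0, nat_lit 406, nat_lit 0, nat_lit 119312, [nat_lit 3171264000, nat_lit 4725056000, nat_lit 5595084000], [], [nat_lit 22433659736, nat_lit 22420533128,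 nat_lit 23460320218, nat_lit 23319185982], nat_lit 1100001, nat_lit 1442500, nat_lit 1100001, nat_lit 2675500, nat_lit 0, nat_lit 0, [nat_lit 1695000, nat_lit 1271250, nat_lit 1271250], [nat_lit 62, nat_lit 40, nat_lit 80, nat_lit 80, nat_lit 58, nat_lit 373, nat_lit 150, nat_lit 9]⟩,
 ⟨nat_lit 3162, nat_lit 3873, ⟨.ofNat (nat_lit 391890), .ofNat (nat_lit 688690), .ofNat (nat_lit 435446), .ofNat (nat_lit 732276), .ofNat (nat_lit 394735), .ofNat (nat_lit 675121), .ofNat (nat_lit 439014), .ofNat (nat_lit 719431)⟩, ⟨.ofNat (nat_lit 0), .ofNat (nat_lit 0), .ofNat (nat_lit 0), .ofNat (nat_lit 0), .ofNat (nat_lit 0), .ofNat (nat_lit 0), .ofNat (nat_lit 0), .ofNat (nat_lit 0)⟩⟩, [⟨nat_lit 13, nat_lit 66, nat_lit 82, nat_lit 100, nat_lit 1800197⟩]⟩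
noncomputable def p018_l64 : Lf2 := ⟨nat_lit 0, nat_lit 10, [nat_lit 0, nat_lit 5, nat_lit 5, nat_lit 20], true, nat_lit 0, nat_lit 0, nat_lit 0, nat_lit 0, ⟨nat_lit 0, nat_lit 1000, nat_lit 0, nat_lit 4, nat_lit 183, nat_lit 0, nat_lit 0, nat_lit 0, nat_lit 0, nat_lit 0, nat_lit 0, nat_lit 0, nat_lit 0, nat_lit 0, nat_lit 0, nat_lit 5000000, false, true⟩,
 nat_lit 0, nat_lit 4590, nat_lit 0, nat_lit 0, nat_lit 3442, nat_lit 0, nat_lit 0, nat_lit 0, nat_lit 0, nat_lit 0, nat_lit 0, nat_lit 0, nat_lit 0, nat_lit 0, nat_lit 0, nat_lit 250000, nat_lit 0, nat_lit 0, [(nat_lit 18, [(nat_lit 0, nat_lit 1000)]), (nat_lit 21, [(nat_lit 0, nat_lit 1000)])],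
 ⟨p018_k0, nat_lit 0, nat_lit 0, nat_lit 241, nat_lit 0, nat_lit 64043, [nat_lit 1558400000, nat_lit 2168000000, nat_lit 2562000000], [], [nat_lit 23694519573, nat_lit 26452850509, nat_lit 30592069068, nat_lit 32156873956], nat_lit 1271250, nat_lit 1271250, nat_lit 88400, nat_lit 2569500, nat_lit 0, nat_lit 0, [nat_lit 490000, nat_lit 1100000, nat_lit 1442500], [nat_lit 6, nat_lit 40, nat_lit 80, nat_lit 80, nat_lit 3, nat_lit 317, nat_lit 100, nat_lit 12]⟩, C1.Rw.none,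
 ⟨nat_lit 3162, nat_lit 4473, ⟨.ofNat (nat_lit 143971), .ofNat (nat_lit 728778), .ofNat (nat_lit 186943), .ofNat (nat_lit 771911), .ofNat (nat_lit 175109), .ofNat (nat_lit 699502), .ofNat (nat_lit 219258), .ofNat (nat_lit 743812)⟩, ⟨.ofNat (nat_lit 0), .ofNat (nat_lit 0), .ofNat (nat_lit 0), .ofNat (nat_lit 0), .ofNat (nat_lit 0), .ofNat (nat_lit 0), .ofNat (nat_lit 0), .ofNat (nat_lit 0)⟩⟩, [⟨nat_lit 13, nat_lit 72, nat_lit 77, nat_lit 100, nat_lit 195590915⟩]⟩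
noncomputable def b_N_800_400_0_2 : St := ⟨false, nat_lit 2, nat_lit 2, nat_lit 0, nat_lit 40, nat_lit 320, nat_lit 360, nat_lit 160, nat_lit 200, nat_lit 16, nat_lit 360, nat_lit 0, nat_lit 0, nat_lit 0, nat_lit 0, nat_lit 0, nat_lit 0, nat_lit 80, nat_lit 128, nat_lit 0, nat_lit 0, nat_lit 0, nat_lit 0⟩
theorem d_N_800_400_0_2 (h : EB TB.env) : Dead b_N_800_400_0_2 := chkB_sound0 h (T :=
(.spl (nat_lit 6) (nat_lit 120)
(.st (nat_lit 0)
(.gv
(.st (nat_lit 1)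
(.spl (nat_lit 2) (nat_lit 160)
(.leaf p018_l33)
(.leaf p018_l34))
(.spl (nat_lit 2) (nat_lit 160)
(.leaf p018_l35)
(.spl (nat_lit 2) (nat_lit 240)
(.leaf p018_l36)
(.spl (nat_lit 0) (nat_lit 340)
(.leaf p018_l37)
(.trX (nat_lit 13) (nat_lit 71) (nat_lit 70) (nat_lit 100) (nat_lit 344) (.leaf p018_l38))))))
(.leaf p018_l39))
(.gv
(.st (nat_lit 1)
(.spl (nat_lit 2) (nat_lit 160)
(.leaf p018_l40)
(.leaf p018_l41))
(.spl (nat_lit 2) (nat_lit 160)
(.leaf p018_l42)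
(.spl (nat_lit 2) (nat_lit 240)
(.leaf p018_l43)
(.spl (nat_lit 0) (nat_lit 340)
(.spl (nat_lit 6) (nat_lit 108)
(.spl (nat_lit 1) (nat_lit 180)
(.trX (nat_lit 13) (nat_lit 80) (nat_lit 68) (nat_lit 100) (nat_lit 348) (.leaf p018_l44))
(.leaf p018_l45))
(.leaf p018_l46))
(.trX (nat_lit 13) (nat_lit 71) (nat_lit 70) (nat_lit 100) (nat_lit 344) (.spl (nat_lit 1) (nat_lit 180)
(.trX (nat_lit 13) (nat_lit 72) (nat_lit 77) (nat_lit 100) (nat_lit 332) (.spl (nat_lit 0) (nat_lit 350)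
(.leaf p018_l47)
(.trX (nat_lit 13) (nat_lit 66) (nat_lit 82) (nat_lit 100) (nat_lit 320) (.leaf p018_l48))))
(.spl (nat_lit 0) (nat_lit 350)
(.spl (nat_lit 0) (nat_lit 345)
(.leaf p018_l49)
(.trX (nat_lit 13) (nat_lit 69) (nat_lit 72) (nat_lit 100) (nat_lit 340) (.leaf p018_l50)))
(.trX (nat_lit 13) (nat_lit 66) (nat_lit 75) (nat_lit 100) (nat_lit 336) (.leaf p018_l51)))))))))
(.leaf p018_l52)))
(.st (nat_lit 0)
(.gv
(.st (nat_lit 1)
(.spl (nat_lit 2) (nat_lit 160)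
(.leaf p018_l53)
(.leaf p018_l54))
(.spl (nat_lit 2) (nat_lit 160)
(.leaf p018_l55)
(.spl (nat_lit 0) (nat_lit 340)
(.leaf p018_l56)
(.trX (nat_lit 13) (nat_lit 71) (nat_lit 70) (nat_lit 100) (nat_lit 344) (.leaf p018_l57)))))
(.leaf p018_l58))
(.gv
(.st (nat_lit 1)
(.spl (nat_lit 2) (nat_lit 160)
(.leaf p018_l59)
(.leaf p018_l60))
(.spl (nat_lit 2) (nat_lit 160)
(.leaf p018_l61)
(.spl (nat_lit 0) (nat_lit 340)
(.leaf p018_l62)
(.trX (nat_lit 13) (nat_lit 71) (nat_lit 70) (nat_lit 100) (nat_lit 344) (.leaf p018_l63)))))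
(.leaf p018_l64))))) (by decide +kernel)
noncomputable def p018_l65 : Lf2 := ⟨nat_lit 0, nat_lit 10, [nat_lit 0, nat_lit 5, nat_lit 5, nat_lit 20], false, nat_lit 0, nat_lit 0, nat_lit 0, nat_lit 0, ⟨nat_lit 207, nat_lit 0, nat_lit 793, nat_lit 5, nat_lit 216, nat_lit 0, nat_lit 0, nat_lit 0, nat_lit 0, nat_lit 215, nat_lit 440412, nat_lit 200, nat_lit 51830304, nat_lit 0, nat_lit 0, nat_lit 2674529, false, true⟩,
 nat_lit 0, nat_lit 0, nat_lit 0, nat_lit 0, nat_lit 2716, nat_lit 2606, nat_lit 0, nat_lit 0, nat_lit 0, nat_lit 0, nat_lit 0, nat_lit 0, nat_lit 0, nat_lit 0, nat_lit 0, nat_lit 317200, nat_lit 0, nat_lit 0, [(nat_lit 18, [(nat_lit 5, nat_lit 793)]), (nat_lit 21, [(nat_lit 5, nat_lit 793)])],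
 ⟨p018_k8, nat_lit 0, nat_lit 0, nat_lit 203, nat_lit 0, nat_lit 0, [nat_lit 1281029001, nat_lit 239391500], [], [nat_lit 19219015737, nat_lit 21594064849, nat_lit 27957715572, nat_lit 29904637738], nat_lit 0, nat_lit 0, nat_lit 0, nat_lit 0, nat_lit 0, nat_lit 0, [], [nat_lit 69, nat_lit 40, nat_lit 80, nat_lit 80, nat_lit 64, nat_lit 317, nat_lit 100, nat_lit 12]⟩, ⟨p018_k16, nat_lit 0, nat_lit 0, nat_lit 335, nat_lit 0, nat_lit 0, [nat_lit 1293750000, nat_lit 2457504000], [], [nat_lit 10015614956, nat_lit 10283768146, nat_lit 10344037346, nat_lit 10305458640], nat_lit 0, nat_lit 0, nat_lit 0, nat_lit 0, nat_lit 0, nat_lit 0, [], [nat_lit 107, nat_lit 40, nat_lit 80, nat_lit 80, nat_lit 12, nat_lit 401, nat_lit 175, nat_lit 11]⟩,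
 ⟨nat_lit 3162, nat_lit 4473, ⟨.ofNat (nat_lit 227776), .ofNat (nat_lit 812698), .ofNat (nat_lit 270729), .ofNat (nat_lit 855831), .ofNat (nat_lit 255876), .ofNat (nat_lit 780384), .ofNat (nat_lit 300005), .ofNat (nat_lit 824694)⟩, ⟨.ofNat (nat_lit 0), .ofNat (nat_lit 0), .ofNat (nat_lit 0), .ofNat (nat_lit 0), .ofNat (nat_lit 0), .ofNat (nat_lit 0), .ofNat (nat_lit 0), .ofNat (nat_lit 0)⟩⟩, []⟩
noncomputable def p018_l66 : Lf2 := ⟨nat_lit 0, nat_lit 10, [nat_lit 0, nat_lit 5, nat_lit 5, nat_lit 20], true, nat_lit 0, nat_lit 0, nat_lit 0, nat_lit 0, ⟨nat_lit 0, nat_lit 65, nat_lit 935, nat_lit 5, nat_lit 170, nat_lit 0, nat_lit 0, nat_lit 0, nat_lit 0, nat_lit 215, nat_lit 817, nat_lit 208, nat_lit 56752254, nat_lit 10247746, nat_lit 0, nat_lit 2138971, false, false⟩,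
 nat_lit 0, nat_lit 0, nat_lit 0, nat_lit 0, nat_lit 2515, nat_lit 0, nat_lit 0, nat_lit 0, nat_lit 0, nat_lit 0, nat_lit 0, nat_lit 0, nat_lit 0, nat_lit 0, nat_lit 63, nat_lit 390250, nat_lit 0, nat_lit 0, [(nat_lit 18, [(nat_lit 0, nat_lit 65), (nat_lit 5, nat_lit 935)]), (nat_lit 21, [(nat_lit 0, nat_lit 65), (nat_lit 5, nat_lit 935)])],
 ⟨p018_k0, nat_lit 0, nat_lit 0, nat_lit 205, nat_lit 0, nat_lit 0, [nat_lit 1519352001, nat_lit 761830000, nat_lit 19168000], [], [nat_lit 16287085090, nat_lit 20016628670, nat_lit 19536803402, nat_lit 22128936620], nat_lit 0, nat_lit 0, nat_lit 0, nat_lit 0, nat_lit 0, nat_lit 0, [], [nat_lit 6, nat_lit 40, nat_lit 80, nat_lit 80, nat_lit 3, nat_lit 272, nat_lit 60, nat_lit 11]⟩, C1.Rw.none,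
 ⟨nat_lit 3162, nat_lit 4473, ⟨.ofNat (nat_lit 227776), .ofNat (nat_lit 567977), .ofNat (nat_lit 270729), .ofNat (nat_lit 611007), .ofNat (nat_lit 255876), .ofNat (nat_lit 560952), .ofNat (nat_lit 300005), .ofNat (nat_lit 605159)⟩, ⟨.ofNat (nat_lit 0), .ofNat (nat_lit 0), .ofNat (nat_lit 0), .ofNat (nat_lit 0), .ofNat (nat_lit 0), .ofNat (nat_lit 0), .ofNat (nat_lit 0), .ofNat (nat_lit 0)⟩⟩, []⟩
noncomputable def p018_l67 : Lf2 := ⟨nat_lit 0, nat_lit 10, [nat_lit 0, nat_lit 5, nat_lit 5, nat_lit 20], true, nat_lit 0, nat_lit 0, nat_lit 0, nat_lit 0, ⟨nat_lit 0, nat_lit 1000, nat_lit 0, nat_lit 6, nat_lit 281, nat_lit 0, nat_lit 0, nat_lit 0, nat_lit 0, nat_lit 0, nat_lit 0, nat_lit 0, nat_lit 44867724, nat_lit 22132276, nat_lit 0, nat_lit 3172068, true, true⟩,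
 nat_lit 0, nat_lit 0, nat_lit 0, nat_lit 0, nat_lit 3319, nat_lit 0, nat_lit 0, nat_lit 0, nat_lit 0, nat_lit 0, nat_lit 0, nat_lit 0, nat_lit 0, nat_lit 0, nat_lit 0, nat_lit 491200, nat_lit 0, nat_lit 0, [(nat_lit 18, [(nat_lit 1, nat_lit 848), (nat_lit 2, nat_lit 152)]), (nat_lit 21, [(nat_lit 1, nat_lit 848), (nat_lit 2, nat_lit 152)])],
 ⟨p018_k0, nat_lit 0, nat_lit 0, nat_lit 175, nat_lit 0, nat_lit 0, [nat_lit 1444300801, nat_lit 1826624001, nat_lit 1595392000], [], [nat_lit 23355879178, nat_lit 25477160590, nat_lit 29462725695, nat_lit 31656722739], nat_lit 0, nat_lit 0, nat_lit 0, nat_lit 0, nat_lit 0, nat_lit 0, [], [nat_lit 6, nat_lit 40, nat_lit 80, nat_lit 80, nat_lit 3, nat_lit 203, nat_lit 0, nat_lit 7]⟩, C1.Rw.none,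
 ⟨nat_lit 3162, nat_lit 4473, ⟨.ofNat (nat_lit 567977), .ofNat (nat_lit 812698), .ofNat (nat_lit 611007), .ofNat (nat_lit 855831), .ofNat (nat_lit 560952), .ofNat (nat_lit 780384), .ofNat (nat_lit 605159), .ofNat (nat_lit 824694)⟩, ⟨.ofNat (nat_lit 0), .ofNat (nat_lit 0), .ofNat (nat_lit 0), .ofNat (nat_lit 0), .ofNat (nat_lit 0), .ofNat (nat_lit 0), .ofNat (nat_lit 0), .ofNat (nat_lit 0)⟩⟩, [⟨nat_lit 13, nat_lit 82, nat_lit 44, nat_lit 100, nat_lit 178240550⟩]⟩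
noncomputable def p018_l68 : Lf2 := ⟨nat_lit 0, nat_lit 10, [nat_lit 0, nat_lit 5, nat_lit 5, nat_lit 20], true, nat_lit 0, nat_lit 0, nat_lit 0, nat_lit 0, ⟨nat_lit 0, nat_lit 1000, nat_lit 0, nat_lit 5, nat_lit 216, nat_lit 0, nat_lit 0, nat_lit 0, nat_lit 0, nat_lit 0, nat_lit 0, nat_lit 0, nat_lit 0, nat_lit 0, nat_lit 0, nat_lit 5000000, false, true⟩,
 nat_lit 0, nat_lit 0, nat_lit 0, nat_lit 0, nat_lit 3152, nat_lit 0, nat_lit 0, nat_lit 0, nat_lit 0, nat_lit 0, nat_lit 0, nat_lit 0, nat_lit 0, nat_lit 0, nat_lit 0, nat_lit 612400, nat_lit 0, nat_lit 0, [(nat_lit 18, [(nat_lit 1, nat_lit 646), (nat_lit 2, nat_lit 354)]), (nat_lit 21, [(nat_lit 1, nat_lit 646), (nat_lit 2, nat_lit 354)])],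
 ⟨p018_k0, nat_lit 0, nat_lit 0, nat_lit 205, nat_lit 0, nat_lit 0, [nat_lit 1505654934, nat_lit 1640514667, nat_lit 1109784000], [], [nat_lit 20699309526, nat_lit 23234362790, nat_lit 29020784784, nat_lit 31171485268], nat_lit 0, nat_lit 0, nat_lit 0, nat_lit 0, nat_lit 0, nat_lit 0, [], [nat_lit 6, nat_lit 40, nat_lit 80, nat_lit 80, nat_lit 3, nat_lit 317, nat_lit 100, nat_lit 12]⟩, C1.Rw.none,
 ⟨nat_lit 3162, nat_lit 4473, ⟨.ofNat (nat_lit 227776), .ofNat (nat_lit 812698), .ofNat (nat_lit 270729), .ofNat (nat_lit 855831), .ofNat (nat_lit 255876), .ofNat (nat_lit 780384), .ofNat (nat_lit 300005), .ofNat (nat_lit 824694)⟩, ⟨.ofNat (nat_lit 0), .ofNat (nat_lit 0), .ofNat (nat_lit 0), .ofNat (nat_lit 0), .ofNat (nat_lit 0), .ofNat (nat_lit 0), .ofNat (nat_lit 0), .ofNat (nat_lit 0)⟩⟩, [⟨nat_lit 13, nat_lit 82, nat_lit 44, nat_lit 100, nat_lit 203324765⟩]⟩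
noncomputable def p018_l69 : Lf2 := ⟨nat_lit 0, nat_lit 10, [nat_lit 0, nat_lit 5, nat_lit 5, nat_lit 20], true, nat_lit 0, nat_lit 0, nat_lit 0, nat_lit 0, ⟨nat_lit 0, nat_lit 0, nat_lit 1000, nat_lit 5, nat_lit 116, nat_lit 0, nat_lit 0, nat_lit 0, nat_lit 0, nat_lit 215, nat_lit 126150, nat_lit 302, nat_lit 61810354, nat_lit 0, nat_lit 0, nat_lit 1362571, false, false⟩,
 nat_lit 0, nat_lit 4043, nat_lit 0, nat_lit 0, nat_lit 3032, nat_lit 0, nat_lit 0, nat_lit 0, nat_lit 0, nat_lit 0, nat_lit 0, nat_lit 0, nat_lit 0, nat_lit 0, nat_lit 76, nat_lit 400000, nat_lit 0, nat_lit 0, [(nat_lit 18, [(nat_lit 5, nat_lit 1000)])],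
 ⟨p018_k8, nat_lit 0, nat_lit 0, nat_lit 429, nat_lit 0, nat_lit 661976, [nat_lit 1693000001, nat_lit 251500000], [], [nat_lit 17952029750, nat_lit 19533276744, nat_lit 17846547686, nat_lit 18943078614], nat_lit 1271250, nat_lit 1271250, nat_lit 230001, nat_lit 490000, nat_lit 0, nat_lit 0, [nat_lit 490000, nat_lit 1427500], [nat_lit 69, nat_lit 40, nat_lit 80, nat_lit 80, nat_lit 64, nat_lit 226, nat_lit 20, nat_lit 9]⟩, C1.Rw.none,
 ⟨nat_lit 3872, nat_lit 4473, ⟨.ofNat (nat_lit 228056), .ofNat (nat_lit 296041), .ofNat (nat_lit 271153), .ofNat (nat_lit 339140), .ofNat (nat_lit 241882), .ofNat (nat_lit 306411), .ofNat (nat_lit 285433), .ofNat (nat_lit 349963)⟩, ⟨.ofNat (nat_lit 0), .ofNat (nat_lit 0), .ofNat (nat_lit 0), .ofNat (nat_lit 0), .ofNat (nat_lit 0), .ofNat (nat_lit 0), .ofNat (nat_lit 0), .ofNat (nat_lit 0)⟩⟩, [⟨nat_lit 0, nat_lit 100, nat_lit 76, nat_lit 73, nat_lit 193567424⟩]⟩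
noncomputable def p018_l70 : Lf2 := ⟨nat_lit 0, nat_lit 5, [nat_lit 4, nat_lit 5, nat_lit 5, nat_lit 20], false, nat_lit 0, nat_lit 0, nat_lit 0, nat_lit 0, ⟨nat_lit 405, nat_lit 0, nat_lit 595, nat_lit 5, nat_lit 138, nat_lit 0, nat_lit 0, nat_lit 0, nat_lit 0, nat_lit 215, nat_lit 180267, nat_lit 319, nat_lit 59866669, nat_lit 0, nat_lit 0, nat_lit 1695326, false, false⟩,
 nat_lit 0, nat_lit 5739, nat_lit 0, nat_lit 0, nat_lit 4304, nat_lit 8430, nat_lit 0, nat_lit 0, nat_lit 0, nat_lit 1295, nat_lit 0, nat_lit 0, nat_lit 0, nat_lit 0, nat_lit 0, nat_lit 595000, nat_lit 0, nat_lit 0, [(nat_lit 18, [(nat_lit 6, nat_lit 595)])],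
 ⟨p018_k17, nat_lit 0, nat_lit 0, nat_lit 575, nat_lit 0, nat_lit 1062575, [nat_lit 1453501334, nat_lit 1160998667, nat_lit 210274000], [], [nat_lit 19727742713, nat_lit 20588453440, nat_lit 19994262153, nat_lit 20906460925], nat_lit 1271250, nat_lit 1271250, nat_lit 490000, nat_lit 780000, nat_lit 0, nat_lit 0, [nat_lit 490000, nat_lit 1100000, nat_lit 1442500], [nat_lit 6, nat_lit 40, nat_lit 80, nat_lit 80, nat_lit 3, nat_lit 238, nat_lit 30, nat_lit 9]⟩, ⟨p018_k18, nat_lit 0, nat_lit 0, nat_lit 225, nat_lit 0, nat_lit 0, [nat_lit 2531250000, nat_lit 3986010000, nat_lit 4808160000], [], [nat_lit 8632559200, nat_lit 9532019940, nat_lit 7910959590, nat_lit 8978037195], nat_lit 0, nat_lit 0, nat_lit 0, nat_lit 0, nat_lit 0, nat_lit 0, [], [nat_lit 46, nat_lit 40, nat_lit 80, nat_lit 80, nat_lit 41, nat_lit 317, nat_lit 100, nat_lit 9]⟩,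
 ⟨nat_lit 3872, nat_lit 4473, ⟨.ofNat (nat_lit 296041), .ofNat (nat_lit 364028), .ofNat (nat_lit 317591), .ofNat (nat_lit 385576), .ofNat (nat_lit 306411), .ofNat (nat_lit 370941), .ofNat (nat_lit 328187), .ofNat (nat_lit 392716)⟩, ⟨.ofNat (nat_lit 0), .ofNat (nat_lit 0), .ofNat (nat_lit 0), .ofNat (nat_lit 0), .ofNat (nat_lit 0), .ofNat (nat_lit 0), .ofNat (nat_lit 0), .ofNat (nat_lit 0)⟩⟩, []⟩
noncomputable def p018_l71 : Lf2 := ⟨nat_lit 0, nat_lit 5, [nat_lit 4, nat_lit 5, nat_lit 5, nat_lit 20], false, nat_lit 0, nat_lit 0, nat_lit 0, nat_lit 0, ⟨nat_lit 447, nat_lit 0, nat_lit 553, nat_lit 5, nat_lit 147, nat_lit 0, nat_lit 0, nat_lit 0, nat_lit 0, nat_lit 215, nat_lit 201667, nat_lit 325, nat_lit 59052793, nat_lit 0, nat_lit 0, nat_lit 1820780, false, false⟩,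
 nat_lit 0, nat_lit 6108, nat_lit 0, nat_lit 0, nat_lit 4580, nat_lit 4721, nat_lit 0, nat_lit 0, nat_lit 0, nat_lit 1540, nat_lit 0, nat_lit 0, nat_lit 0, nat_lit 0, nat_lit 0, nat_lit 553000, nat_lit 0, nat_lit 0, [(nat_lit 18, [(nat_lit 6, nat_lit 553)])],
 ⟨p018_k17, nat_lit 0, nat_lit 0, nat_lit 623, nat_lit 0, nat_lit 1153985, [nat_lit 1494336534, nat_lit 1409963467, nat_lit 636607600], [], [nat_lit 20415344643, nat_lit 21140276800, nat_lit 20542727923, nat_lit 21311257671], nat_lit 1271250, nat_lit 1271250, nat_lit 490000, nat_lit 780000, nat_lit 0, nat_lit 0, [nat_lit 490000, nat_lit 1100000, nat_lit 1442500], [nat_lit 6, nat_lit 40, nat_lit 80, nat_lit 80, nat_lit 3, nat_lit 238, nat_lit 30, nat_lit 9]⟩, ⟨p018_k19, nat_lit 0, nat_lit 0, nat_lit 147, nat_lit 0, nat_lit 0, [nat_lit 2793750000, nat_lit 4399374000], [], [nat_lit 8462520886, nat_lit 9063288920, nat_lit 8357493969, nat_lit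 8924040240], nat_lit 0, nat_lit 0, nat_lit 0, nat_lit 0, nat_lit 0, nat_lit 0, [], [nat_lit 51, nat_lit 40, nat_lit 80, nat_lit 80, nat_lit 1, nat_lit 317, nat_lit 100, nat_lit 9]⟩,
 ⟨nat_lit 3872, nat_lit 4473, ⟨.ofNat (nat_lit 317591), .ofNat (nat_lit 385576), .ofNat (nat_lit 339140), .ofNat (nat_lit 407125), .ofNat (nat_lit 328187), .ofNat (nat_lit 392716), .ofNat (nat_lit 349963), .ofNat (nat_lit 414492)⟩, ⟨.ofNat (nat_lit 0), .ofNat (nat_lit 0), .ofNat (nat_lit 0), .ofNat (nat_lit 0), .ofNat (nat_lit 0), .ofNat (nat_lit 0), .ofNat (nat_lit 0), .ofNat (nat_lit 0)⟩⟩, [⟨nat_lit 0, nat_lit 100, nat_lit 73, nat_lit 85, nat_lit 410947025⟩]⟩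
noncomputable def p018_l72 : Lf2 := ⟨nat_lit 0, nat_lit 10, [nat_lit 0, nat_lit 5, nat_lit 5, nat_lit 20], false, nat_lit 0, nat_lit 0, nat_lit 0, nat_lit 0, ⟨nat_lit 367, nat_lit 0, nat_lit 633, nat_lit 5, nat_lit 142, nat_lit 0, nat_lit 0, nat_lit 0, nat_lit 0, nat_lit 215, nat_lit 187267, nat_lit 321, nat_lit 59545672, nat_lit 0, nat_lit 0, nat_lit 1745691, false, false⟩,
 nat_lit 0, nat_lit 5407, nat_lit 0, nat_lit 0, nat_lit 4054, nat_lit 3636, nat_lit 0, nat_lit 0, nat_lit 0, nat_lit 643, nat_lit 0, nat_lit 0, nat_lit 0, nat_lit 0, nat_lit 9, nat_lit 633000, nat_lit 0, nat_lit 0, [(nat_lit 18, [(nat_lit 6, nat_lit 633)])],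
 ⟨p018_k0, nat_lit 0, nat_lit 0, nat_lit 478, nat_lit 0, nat_lit 854332, [nat_lit 1488555201, nat_lit 1079744801, nat_lit 4543600], [], [nat_lit 18442068622, nat_lit 18916646904, nat_lit 18812275895, nat_lit 19329188700], nat_lit 1271250, nat_lit 1271250, nat_lit 490000, nat_lit 780000, nat_lit 0, nat_lit 0, [nat_lit 490000, nat_lit 1100000, nat_lit 1442500], [nat_lit 6, nat_lit 40, nat_lit 80, nat_lit 80, nat_lit 3, nat_lit 238, nat_lit 30, nat_lit 9]⟩, ⟨p018_k20, nat_lit 0, nat_lit 0, nat_lit 234, nat_lit 0, nat_lit 0, [nat_lit 2293750000, nat_lit 3612014000, nat_lit 4357024000], [], [nat_lit 8725993796, nat_lit 9672171476, nat_lit 8698138382, nat_lit 9579944466], nat_lit 0, nat_lit 0, nat_lit 0, nat_lit 0, nat_lit 0, nat_lit 0, [], [nat_lit 46, nat_lit 40, nat_lit 80, nat_lit 80, nat_lit 41, nat_lit 317, nat_lit 100, nat_lit 9]⟩,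
 ⟨nat_lit 4183, nat_lit 4473, ⟨.ofNat (nat_lit 296062), .ofNat (nat_lit 364041), .ofNat (nat_lit 339187), .ofNat (nat_lit 407167), .ofNat (nat_lit 301229), .ofNat (nat_lit 367486), .ofNat (nat_lit 344555), .ofNat (nat_lit 410812)⟩, ⟨.ofNat (nat_lit 0), .ofNat (nat_lit 0), .ofNat (nat_lit 0), .ofNat (nat_lit 0), .ofNat (nat_lit 0), .ofNat (nat_lit 0), .ofNat (nat_lit 0), .ofNat (nat_lit 0)⟩⟩, []⟩
noncomputable def p018_l73 : Lf2 := ⟨nat_lit 0, nat_lit 10, [nat_lit 0, nat_lit 5, nat_lit 5, nat_lit 20], false, nat_lit 0, nat_lit 0, nat_lit 0, nat_lit 0, ⟨nat_lit 398, nat_lit 0, nat_lit 602, nat_lit 5, nat_lit 143, nat_lit 0, nat_lit 0, nat_lit 0, nat_lit 0, nat_lit 215, nat_lit 190817, nat_lit 322, nat_lit 59379274, nat_lit 0, nat_lit 0, nat_lit 1771339, false, false⟩,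
 nat_lit 0, nat_lit 5261, nat_lit 0, nat_lit 0, nat_lit 4101, nat_lit 3693, nat_lit 396, nat_lit 0, nat_lit 0, nat_lit 584, nat_lit 0, nat_lit 0, nat_lit 0, nat_lit 0, nat_lit 0, nat_lit 240800, nat_lit 0, nat_lit 0, [(nat_lit 18, [(nat_lit 5, nat_lit 602)])],
 ⟨p018_k6, nat_lit 0, nat_lit 0, nat_lit 511, nat_lit 0, nat_lit 893058, [nat_lit 1367873600, nat_lit 1616596001, nat_lit 1581369600], [], [nat_lit 19689861293, nat_lit 20182914930, nat_lit 20034164827, nat_lit 20503612505], nat_lit 1271250, nat_lit 1271250, nat_lit 490000, nat_lit 780000, nat_lit 0, nat_lit 0, [nat_lit 490000, nat_lit 1100000, nat_lit 1442500], [nat_lit 6, nat_lit 40, nat_lit 80, nat_lit 80, nat_lit 3, nat_lit 238, nat_lit 30, nat_lit 9]⟩, ⟨p018_k20, nat_lit 0, nat_lit 0, nat_lit 234, nat_lit 0, nat_lit 0, [nat_lit 2487500000, nat_lit 3917116000, nat_lit 4725056000], [], [nat_lit 10005419192, nat_lit 10824942496,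 nat_lit 9892026492, nat_lit 10656357626], nat_lit 0, nat_lit 0, nat_lit 0, nat_lit 0, nat_lit 0, nat_lit 0, [], [nat_lit 46, nat_lit 40, nat_lit 80, nat_lit 80, nat_lit 41, nat_lit 317, nat_lit 100, nat_lit 9]⟩,
 ⟨nat_lit 3872, nat_lit 4184, ⟨.ofNat (nat_lit 301224), .ofNat (nat_lit 367482), .ofNat (nat_lit 344547), .ofNat (nat_lit 410806), .ofNat (nat_lit 306426), .ofNat (nat_lit 370950), .ofNat (nat_lit 350002), .ofNat (nat_lit 414527)⟩, ⟨.ofNat (nat_lit 0), .ofNat (nat_lit 0), .ofNat (nat_lit 0), .ofNat (nat_lit 0), .ofNat (nat_lit 0), .ofNat (nat_lit 0), .ofNat (nat_lit 0), .ofNat (nat_lit 0)⟩⟩, [⟨nat_lit 0, nat_lit 100, nat_lit 73, nat_lit 85, nat_lit 355131428⟩]⟩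
noncomputable def p018_l74 : Lf2 := ⟨nat_lit 0, nat_lit 10, [nat_lit 0, nat_lit 5, nat_lit 5, nat_lit 20], false, nat_lit 0, nat_lit 0, nat_lit 0, nat_lit 0, ⟨nat_lit 468, nat_lit 0, nat_lit 532, nat_lit 5, nat_lit 195, nat_lit 0, nat_lit 0, nat_lit 0, nat_lit 0, nat_lit 215, nat_lit 817, nat_lit 208, nat_lit 54110998, nat_lit 0, nat_lit 0, nat_lit 2448228, false, false⟩,
 nat_lit 0, nat_lit 6331, nat_lit 0, nat_lit 0, nat_lit 4748, nat_lit 9791, nat_lit 0, nat_lit 0, nat_lit 0, nat_lit 1353, nat_lit 0, nat_lit 0, nat_lit 0, nat_lit 0, nat_lit 0, nat_lit 532000, nat_lit 0, nat_lit 0, [(nat_lit 18, [(nat_lit 6, nat_lit 532)])],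
 ⟨p018_k0, nat_lit 0, nat_lit 0, nat_lit 579, nat_lit 0, nat_lit 1113475, [nat_lit 1514754134, nat_lit 1534445867, nat_lit 849774400], [], [nat_lit 19848907864, nat_lit 20256761974, nat_lit 22563947040, nat_lit 23555118876], nat_lit 1271250, nat_lit 1271250, nat_lit 780000, nat_lit 1762500, nat_lit 0, nat_lit 0, [nat_lit 490000, nat_lit 1100000, nat_lit 1442500], [nat_lit 6, nat_lit 40, nat_lit 80, nat_lit 80, nat_lit 3, nat_lit 272, nat_lit 60, nat_lit 10]⟩, ⟨p018_k20, nat_lit 0, nat_lit 0, nat_lit 210, nat_lit 0, nat_lit 0, [nat_lit 2925000000, nat_lit 4606056000, nat_lit 5556096000], [], [nat_lit 9667864016, nat_lit 11604759924, nat_lit 11758086124, nat_lit 13469250896], nat_lit 0, nat_lit 0, nat_lit 0, nat_lit 0, nat_lit 0, nat_lit 0, [], [nat_lit 46, nat_lit 40, nat_lit 80, nat_lit 80, nat_lit 41, nat_lit 345, nat_lit 125, nat_lit 9]⟩,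
 ⟨nat_lit 4183, nat_lit 4473, ⟨.ofNat (nat_lit 364041), .ofNat (nat_lit 567977), .ofNat (nat_lit 407167), .ofNat (nat_lit 611104), .ofNat (nat_lit 367486), .ofNat (nat_lit 566254), .ofNat (nat_lit 410812), .ofNat (nat_lit 609582)⟩, ⟨.ofNat (nat_lit 0), .ofNat (nat_lit 0), .ofNat (nat_lit 0), .ofNat (nat_lit 0), .ofNat (nat_lit 0), .ofNat (nat_lit 0), .ofNat (nat_lit 0), .ofNat (nat_lit 0)⟩⟩, []⟩
noncomputable def p018_l75 : Lf2 := ⟨nat_lit 0, nat_lit 10, [nat_lit 0, nat_lit 5, nat_lit 5, nat_lit 20], false, nat_lit 0, nat_lit 0, nat_lit 0, nat_lit 0, ⟨nat_lit 1000, nat_lit 0, nat_lit 0, nat_lit 0, nat_lit 0, nat_lit 0, nat_lit 0, nat_lit 0, nat_lit 0, nat_lit 0, nat_lit 0, nat_lit 0, nat_lit 0, nat_lit 0, nat_lit 0, nat_lit 0, false, false⟩,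
 nat_lit 0, nat_lit 7988, nat_lit 0, nat_lit 0, nat_lit 6226, nat_lit 9325, nat_lit 839, nat_lit 0, nat_lit 0, nat_lit 1452, nat_lit 0, nat_lit 0, nat_lit 0, nat_lit 0, nat_lit 0, nat_lit 0, nat_lit 0, nat_lit 0, [],
 ⟨p018_k6, nat_lit 0, nat_lit 0, nat_lit 603, nat_lit 0, nat_lit 1139650, [nat_lit 2032000001, nat_lit 4688000000, nat_lit 6250000000], [], [nat_lit 23655606869, nat_lit 24149898677, nat_lit 25919825762, nat_lit 27093467044], nat_lit 1271250, nat_lit 1271250, nat_lit 780000, nat_lit 1762500, nat_lit 0, nat_lit 0, [nat_lit 490000, nat_lit 1100000, nat_lit 1442500], [nat_lit 6, nat_lit 40, nat_lit 80, nat_lit 80, nat_lit 3, nat_lit 272, nat_lit 60, nat_lit 10]⟩, ⟨p018_k20, nat_lit 0, nat_lit 0, nat_lit 210, nat_lit 0, nat_lit 0, [nat_lit 6250000000, nat_lit 9842000000, nat_lit 11872000000], [], [nat_lit 24875350800, nat_lit 26799858450, nat_lit 27595618300, nat_lit 29289330900],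 nat_lit 0, nat_lit 0, nat_lit 0, nat_lit 0, nat_lit 0, nat_lit 0, [], [nat_lit 46, nat_lit 40, nat_lit 80, nat_lit 80, nat_lit 41, nat_lit 345, nat_lit 125, nat_lit 9]⟩,
 zbF0, []⟩
noncomputable def p018_l76 : Lf2 := ⟨nat_lit 0, nat_lit 10, [nat_lit 0, nat_lit 5, nat_lit 5, nat_lit 20], false, nat_lit 0, nat_lit 0, nat_lit 0, nat_lit 0, ⟨nat_lit 509, nat_lit 0, nat_lit 491, nat_lit 5, nat_lit 172, nat_lit 0, nat_lit 0, nat_lit 0, nat_lit 0, nat_lit 215, nat_lit 1050, nat_lit 217, nat_lit 56571032, nat_lit 0, nat_lit 0, nat_lit 2161979, false, false⟩,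
 nat_lit 0, nat_lit 2939, nat_lit 0, nat_lit 0, nat_lit 2379, nat_lit 4770, nat_lit 0, nat_lit 0, nat_lit 109, nat_lit 721, nat_lit 0, nat_lit 0, nat_lit 0, nat_lit 0, nat_lit 0, nat_lit 491000, nat_lit 0, nat_lit 0, [(nat_lit 21, [(nat_lit 6, nat_lit 491)])],
 ⟨p018_k7, nat_lit 0, nat_lit 0, nat_lit 0, nat_lit 0, nat_lit 1164843, [nat_lit 1406269600, nat_lit 1058528001, nat_lit 1110015600], [], [nat_lit 18149908325, nat_lit 19171029631, nat_lit 21542449884, nat_lit 22419042428], nat_lit 1271250, nat_lit 1271250, nat_lit 330400, nat_lit 1726500, nat_lit 0, nat_lit 0, [nat_lit 490000, nat_lit 1100000, nat_lit 1442500], [nat_lit 6, nat_lit 40, nat_lit 80, nat_lit 80]⟩, ⟨p018_k20, nat_lit 0, nat_lit 0, nat_lit 268, nat_lit 0, nat_lit 0, [nat_lit 3181250000, nat_lit 5009578000, nat_lit 6042848000], [], [nat_lit 13841326748, nat_lit 14527047363, nat_lit 14021625648, nat_lit 14496098464], nat_lit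 0, nat_lit 0, nat_lit 0, nat_lit 0, nat_lit 0, nat_lit 0, [], [nat_lit 46, nat_lit 40, nat_lit 80, nat_lit 80, nat_lit 41, nat_lit 345, nat_lit 125, nat_lit 9]⟩,
 ⟨nat_lit 3162, nat_lit 3873, ⟨.ofNat (nat_lit 267606), .ofNat (nat_lit 564520), .ofNat (nat_lit 289370), .ofNat (nat_lit 586313), .ofNat (nat_lit 280451), .ofNat (nat_lit 560952), .ofNat (nat_lit 302577), .ofNat (nat_lit 583107)⟩, ⟨.ofNat (nat_lit 0), .ofNat (nat_lit 0), .ofNat (nat_lit 0), .ofNat (nat_lit 0), .ofNat (nat_lit 0), .ofNat (nat_lit 0), .ofNat (nat_lit 0), .ofNat (nat_lit 0)⟩⟩, [⟨nat_lit 0, nat_lit 100, nat_lit 66, nat_lit 78, nat_lit 293409036⟩]⟩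
noncomputable def p018_l77 : Lf2 := ⟨nat_lit 0, nat_lit 10, [nat_lit 0, nat_lit 5, nat_lit 5, nat_lit 20], false, nat_lit 0, nat_lit 0, nat_lit 0, nat_lit 0, ⟨nat_lit 1000, nat_lit 0, nat_lit 0, nat_lit 0, nat_lit 0, nat_lit 0, nat_lit 0, nat_lit 0, nat_lit 0, nat_lit 0, nat_lit 0, nat_lit 0, nat_lit 0, nat_lit 0, nat_lit 0, nat_lit 0, false, false⟩,
 nat_lit 0, nat_lit 3829, nat_lit 0, nat_lit 0, nat_lit 3099, nat_lit 9328, nat_lit 819, nat_lit 0, nat_lit 137, nat_lit 1732, nat_lit 0, nat_lit 0, nat_lit 0, nat_lit 0, nat_lit 0, nat_lit 0, nat_lit 0, nat_lit 0, [],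
 ⟨p018_k7, nat_lit 0, nat_lit 0, nat_lit 0, nat_lit 0, nat_lit 1244779, [nat_lit 2032000001, nat_lit 4688000000, nat_lit 6250000000], [], [nat_lit 19270104089, nat_lit 20683395740, nat_lit 22392153518, nat_lit 23279596492], nat_lit 1271250, nat_lit 1271250, nat_lit 408851, nat_lit 1733250, nat_lit 0, nat_lit 0, [nat_lit 490000, nat_lit 1100000, nat_lit 1442500], [nat_lit 6, nat_lit 40, nat_lit 80, nat_lit 80]⟩, ⟨p018_k21, nat_lit 0, nat_lit 0, nat_lit 254, nat_lit 0, nat_lit 0, [nat_lit 6250000000, nat_lit 9842000000, nat_lit 11872000000], [], [nat_lit 23820698055, nat_lit 25161513568, nat_lit 25689510624, nat_lit 26536470256], nat_lit 0, nat_lit 0, nat_lit 0, nat_lit 0, nat_lit 0, nat_lit 0, [], [nat_lit 46, nat_lit 40, nat_lit 80, nat_lit 80, nat_lit 41, nat_lit 345, nat_lit 125, nat_lit 9]⟩,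
 zbF0, [⟨nat_lit 0, nat_lit 100, nat_lit 72, nat_lit 77, nat_lit 580124906⟩]⟩
noncomputable def p018_l78 : Lf2 := ⟨nat_lit 0, nat_lit 10, [nat_lit 0, nat_lit 5, nat_lit 5, nat_lit 20], false, nat_lit 0, nat_lit 0, nat_lit 0, nat_lit 0, ⟨nat_lit 626, nat_lit 0, nat_lit 374, nat_lit 5, nat_lit 171, nat_lit 0, nat_lit 0, nat_lit 0, nat_lit 0, nat_lit 215, nat_lit 1050, nat_lit 217, nat_lit 56619111, nat_lit 0, nat_lit 0, nat_lit 2155902, false, false⟩,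
 nat_lit 0, nat_lit 6936, nat_lit 0, nat_lit 0, nat_lit 5614, nat_lit 5860, nat_lit 533, nat_lit 20, nat_lit 0, nat_lit 1043, nat_lit 0, nat_lit 0, nat_lit 0, nat_lit 0, nat_lit 0, nat_lit 374000, nat_lit 0, nat_lit 0, [(nat_lit 21, [(nat_lit 6, nat_lit 374)])],
 ⟨p018_k7, nat_lit 0, nat_lit 0, nat_lit 613, nat_lit 0, nat_lit 1082363, [nat_lit 1715374401, nat_lit 2243392001, nat_lit 2734818400], [], [nat_lit 16251049977, nat_lit 16917774680, nat_lit 18774933466, nat_lit 19351552369], nat_lit 1271250, nat_lit 1271250, nat_lit 330400, nat_lit 1726500, nat_lit 0, nat_lit 0, [nat_lit 490000, nat_lit 1100000, nat_lit 1442500], [nat_lit 6, nat_lit 40, nat_lit 80, nat_lit 80, nat_lit 3, nat_lit 272, nat_lit 60, nat_lit 10]⟩, ⟨p018_k20, nat_lit 0, nat_lit 0, nat_lit 268, nat_lit 0, nat_lit 0, [nat_lit 3912500000, nat_lit 6161092000, nat_lit 7431872000], [], [nat_lit 16398255581, nat_lit 17236687459,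 nat_lit 17248418624, nat_lit 17779327380], nat_lit 0, nat_lit 0, nat_lit 0, nat_lit 0, nat_lit 0, nat_lit 0, [], [nat_lit 46, nat_lit 40, nat_lit 80, nat_lit 80, nat_lit 41, nat_lit 345, nat_lit 125, nat_lit 9]⟩,
 ⟨nat_lit 3535, nat_lit 3873, ⟨.ofNat (nat_lit 267701), .ofNat (nat_lit 564520), .ofNat (nat_lit 289488), .ofNat (nat_lit 586313), .ofNat (nat_lit 274037), .ofNat (nat_lit 562760), .ofNat (nat_lit 295983), .ofNat (nat_lit 584712)⟩, ⟨.ofNat (nat_lit 0), .ofNat (nat_lit 0), .ofNat (nat_lit 0), .ofNat (nat_lit 0), .ofNat (nat_lit 0), .ofNat (nat_lit 0), .ofNat (nat_lit 0), .ofNat (nat_lit 0)⟩⟩, [⟨nat_lit 0, nat_lit 100, nat_lit 69, nat_lit 76, nat_lit 393331315⟩]⟩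
noncomputable def p018_l79 : Lf2 := ⟨nat_lit 0, nat_lit 10, [nat_lit 0, nat_lit 5, nat_lit 5, nat_lit 20], false, nat_lit 0, nat_lit 0, nat_lit 0, nat_lit 0, ⟨nat_lit 1000, nat_lit 0, nat_lit 0, nat_lit 0, nat_lit 0, nat_lit 0, nat_lit 0, nat_lit 0, nat_lit 0, nat_lit 0, nat_lit 0, nat_lit 0, nat_lit 0, nat_lit 0, nat_lit 0, nat_lit 0, false, false⟩,
 nat_lit 0, nat_lit 7730, nat_lit 0, nat_lit 0, nat_lit 6257, nat_lit 9328, nat_lit 1271, nat_lit 0, nat_lit 0, nat_lit 1732, nat_lit 0, nat_lit 0, nat_lit 0, nat_lit 0, nat_lit 0, nat_lit 0, nat_lit 0, nat_lit 0, [],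
 ⟨p018_k7, nat_lit 0, nat_lit 0, nat_lit 637, nat_lit 0, nat_lit 1164107, [nat_lit 2032000001, nat_lit 4688000000, nat_lit 6250000000], [], [nat_lit 16452772143, nat_lit 17065911696, nat_lit 18922734918, nat_lit 19742861398], nat_lit 1271250, nat_lit 1271250, nat_lit 408851, nat_lit 1733250, nat_lit 0, nat_lit 0, [nat_lit 490000, nat_lit 1100000, nat_lit 1442500], [nat_lit 6, nat_lit 40, nat_lit 80, nat_lit 80, nat_lit 3, nat_lit 272, nat_lit 60, nat_lit 10]⟩, ⟨p018_k21, nat_lit 0, nat_lit 0, nat_lit 254, nat_lit 0, nat_lit 0, [nat_lit 6250000000, nat_lit 9842000000, nat_lit 11872000000], [], [nat_lit 23820698055, nat_lit 25161513568, nat_lit 25689510624, nat_lit 26536470256], nat_lit 0, nat_lit 0, nat_lit 0, nat_lit 0, nat_lit 0, nat_lit 0, [], [nat_lit 46, nat_lit 40, nat_lit 80, nat_lit 80, nat_lit 41, nat_lit 345, nat_lit 125, nat_lit 9]⟩,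
 zbF0, [⟨nat_lit 0, nat_lit 100, nat_lit 70, nat_lit 83, nat_lit 604081927⟩]⟩
noncomputable def p018_l80 : Lf2 := ⟨nat_lit 0, nat_lit 10, [nat_lit 0, nat_lit 5, nat_lit 5, nat_lit 20], false, nat_lit 0, nat_lit 0, nat_lit 0, nat_lit 0, ⟨nat_lit 1000, nat_lit 0, nat_lit 0, nat_lit 0, nat_lit 0, nat_lit 0, nat_lit 0, nat_lit 0, nat_lit 0, nat_lit 0, nat_lit 0, nat_lit 0, nat_lit 0, nat_lit 0, nat_lit 0, nat_lit 0, false, false⟩,
 nat_lit 0, nat_lit 7752, nat_lit 0, nat_lit 0, nat_lit 6511, nat_lit 9525, nat_lit 821, nat_lit 0, nat_lit 0, nat_lit 1470, nat_lit 0, nat_lit 0, nat_lit 0, nat_lit 0, nat_lit 0, nat_lit 0, nat_lit 0, nat_lit 0, [],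
 ⟨p018_k5, nat_lit 0, nat_lit 0, nat_lit 573, nat_lit 0, nat_lit 1186862, [nat_lit 2032000001, nat_lit 4688000000], [], [nat_lit 16463643079, nat_lit 17115201255, nat_lit 18563342657, nat_lit 19345746457], nat_lit 1271250, nat_lit 1271250, nat_lit 382400, nat_lit 1731000, nat_lit 0, nat_lit 0, [nat_lit 490000, nat_lit 1100000], [nat_lit 24, nat_lit 40, nat_lit 80, nat_lit 80, nat_lit 33, nat_lit 272, nat_lit 60, nat_lit 13]⟩, ⟨p018_k20, nat_lit 0, nat_lit 0, nat_lit 261, nat_lit 0, nat_lit 0, [nat_lit 6250000000, nat_lit 9842000000, nat_lit 11872000000], [], [nat_lit 26246444460, nat_lit 28961804081, nat_lit 27361131100, nat_lit 29236722900], nat_lit 0, nat_lit 0, nat_lit 0, nat_lit 0, nat_lit 0, nat_lit 0, [], [nat_lit 46, nat_lit 40, nat_lit 80, nat_lit 80, nat_lit 41, nat_lit 345, nat_lit 125, nat_lit 9]⟩,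
 zbF0, [⟨nat_lit 0, nat_lit 100, nat_lit 64, nat_lit 84, nat_lit 733742637⟩]⟩
noncomputable def p018_l81 : Lf2 := ⟨nat_lit 0, nat_lit 10, [nat_lit 0, nat_lit 5, nat_lit 5, nat_lit 20], false, nat_lit 0, nat_lit 0, nat_lit 0, nat_lit 0, ⟨nat_lit 1000, nat_lit 0, nat_lit 0, nat_lit 0, nat_lit 0, nat_lit 0, nat_lit 0, nat_lit 0, nat_lit 0, nat_lit 0, nat_lit 0, nat_lit 0, nat_lit 0, nat_lit 0, nat_lit 0, nat_lit 0, false, false⟩,
 nat_lit 0, nat_lit 8275, nat_lit 0, nat_lit 0, nat_lit 6206, nat_lit 7278, nat_lit 473, nat_lit 0, nat_lit 0, nat_lit 1937, nat_lit 0, nat_lit 0, nat_lit 0, nat_lit 0, nat_lit 0, nat_lit 0, nat_lit 0, nat_lit 0, [],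
 ⟨p018_k0, nat_lit 0, nat_lit 0, nat_lit 558, nat_lit 0, nat_lit 1113475, [nat_lit 2032000001, nat_lit 4688000000, nat_lit 6250000000], [], [nat_lit 33659957858, nat_lit 34009210630, nat_lit 38036535797, nat_lit 38318260417], nat_lit 1271250, nat_lit 1271250, nat_lit 1271250, nat_lit 1271250, nat_lit 0, nat_lit 0, [nat_lit 490000, nat_lit 1100000, nat_lit 1442500], [nat_lit 6, nat_lit 40, nat_lit 80, nat_lit 80, nat_lit 3, nat_lit 229, nat_lit 0, nat_lit 8]⟩, ⟨p018_k20, nat_lit 0, nat_lit 0, nat_lit 263, nat_lit 0, nat_lit 0, [nat_lit 6250000000, nat_lit 9842000000, nat_lit 11872000000], [], [nat_lit 29995594792, nat_lit 31548293656, nat_lit 39532534031, nat_lit 40328080372], nat_lit 0, nat_lit 0, nat_lit 0, nat_lit 0, nat_lit 0, nat_lit 0, [], [nat_lit 46, nat_lit 40, nat_lit 80, nat_lit 80, nat_lit 41, nat_lit 401, nat_lit 175, nat_lit 10]⟩,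
 zbF0, []⟩
noncomputable def p018_l82 : Lf2 := ⟨nat_lit 0, nat_lit 10, [nat_lit 0, nat_lit 5, nat_lit 5, nat_lit 20], false, nat_lit 0, nat_lit 0, nat_lit 0, nat_lit 0, ⟨nat_lit 1000, nat_lit 0, nat_lit 0, nat_lit 0, nat_lit 0, nat_lit 0, nat_lit 0, nat_lit 0, nat_lit 0, nat_lit 0, nat_lit 0, nat_lit 0, nat_lit 0, nat_lit 0, nat_lit 0, nat_lit 0, false, false⟩,
 nat_lit 0, nat_lit 6680, nat_lit 0, nat_lit 0, nat_lit 5207, nat_lit 7576, nat_lit 739, nat_lit 0, nat_lit 0, nat_lit 1129, nat_lit 0, nat_lit 0, nat_lit 0, nat_lit 0, nat_lit 0, nat_lit 0, nat_lit 0, nat_lit 0, [],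
 ⟨p018_k6, nat_lit 0, nat_lit 0, nat_lit 567, nat_lit 0, nat_lit 1139650, [nat_lit 2032000001, nat_lit 4688000000, nat_lit 6250000000], [], [nat_lit 30978774228, nat_lit 31354757087, nat_lit 34869301876, nat_lit 35147542882], nat_lit 1271250, nat_lit 1271250, nat_lit 1271250, nat_lit 1271250, nat_lit 0, nat_lit 0, [nat_lit 490000, nat_lit 1100000, nat_lit 1442500], [nat_lit 6, nat_lit 40, nat_lit 80, nat_lit 80, nat_lit 3, nat_lit 232, nat_lit 0, nat_lit 8]⟩, ⟨p018_k20, nat_lit 0, nat_lit 0, nat_lit 259, nat_lit 0, nat_lit 0, [nat_lit 6250000000, nat_lit 9842000000, nat_lit 11872000000], [], [nat_lit 30081377728, nat_lit 31391624352, nat_lit 38856470320, nat_lit 39872690698], nat_lit 0, nat_lit 0, nat_lit 0, nat_lit 0, nat_lit 0, nat_lit 0, [], [nat_lit 46, nat_lit 40, nat_lit 80, nat_lit 80, nat_lit 41, nat_lit 401, nat_lit 175, nat_lit 10]⟩,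
 zbF0, []⟩
noncomputable def p018_l83 : Lf2 := ⟨nat_lit 0, nat_lit 10, [nat_lit 0, nat_lit 5, nat_lit 5, nat_lit 20], false, nat_lit 0, nat_lit 0, nat_lit 0, nat_lit 0, ⟨nat_lit 997, nat_lit 0, nat_lit 3, nat_lit 6, nat_lit 274, nat_lit 0, nat_lit 0, nat_lit 0, nat_lit 0, nat_lit 215, nat_lit 357902, nat_lit 200, nat_lit 45598707, nat_lit 0, nat_lit 0, nat_lit 3132165, true, true⟩,
 nat_lit 0, nat_lit 6011, nat_lit 0, nat_lit 0, nat_lit 4865, nat_lit 7080, nat_lit 717, nat_lit 0, nat_lit 0, nat_lit 932, nat_lit 0, nat_lit 0, nat_lit 0, nat_lit 0, nat_lit 0, nat_lit 750, nat_lit 0, nat_lit 0, [(nat_lit 21, [(nat_lit 0, nat_lit 3)])],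
 ⟨p018_k7, nat_lit 0, nat_lit 0, nat_lit 617, nat_lit 0, nat_lit 1244779, [nat_lit 2030579201, nat_lit 4680374001, nat_lit 6237688000], [], [nat_lit 29311330311, nat_lit 30090417181, nat_lit 33588027384, nat_lit 34967832148], nat_lit 1271250, nat_lit 1271250, nat_lit 1271250, nat_lit 1271250, nat_lit 0, nat_lit 0, [nat_lit 490000, nat_lit 1100000, nat_lit 1442500], [nat_lit 6, nat_lit 40, nat_lit 80, nat_lit 80, nat_lit 3, nat_lit 246, nat_lit 0, nat_lit 8]⟩, ⟨p018_k20, nat_lit 0, nat_lit 0, nat_lit 255, nat_lit 0, nat_lit 0, [nat_lit 6231250000, nat_lit 9812474000, nat_lit 11836384000], [], [nat_lit 31213476964, nat_lit 32500945264, nat_lit 38487283407, nat_lit 39143712963], nat_lit 0, nat_lit 0, nat_lit 0, nat_lit 0, nat_lit 0, nat_lit 0, [], [nat_lit 46, nat_lit 40, nat_lit 80, nat_lit 80, nat_lit 41, nat_lit 401, nat_lit 175, nat_lit 10]⟩,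
 ⟨nat_lit 3162, nat_lit 3873, ⟨.ofNat (nat_lit 564520), .ofNat (nat_lit 770989), .ofNat (nat_lit 608082), .ofNat (nat_lit 814576), .ofNat (nat_lit 560952), .ofNat (nat_lit 756003), .ofNat (nat_lit 605237), .ofNat (nat_lit 800312)⟩, ⟨.ofNat (nat_lit 0), .ofNat (nat_lit 0), .ofNat (nat_lit 0), .ofNat (nat_lit 0), .ofNat (nat_lit 0), .ofNat (nat_lit 0), .ofNat (nat_lit 0), .ofNat (nat_lit 0)⟩⟩, []⟩
noncomputable def p018_l84 : Lf2 := ⟨nat_lit 0, nat_lit 10, [nat_lit 0, nat_lit 5, nat_lit 5, nat_lit 20], false, nat_lit 0, nat_lit 0, nat_lit 0, nat_lit 0, ⟨nat_lit 95, nat_lit 0, nat_lit 905, nat_lit 5, nat_lit 169, nat_lit 0, nat_lit 0, nat_lit 0, nat_lit 0, nat_lit 215, nat_lit 817, nat_lit 208, nat_lit 56860881, nat_lit 0, nat_lit 0, nat_lit 2125045, false, false⟩,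
 nat_lit 3053, nat_lit 878, nat_lit 0, nat_lit 0, nat_lit 2948, nat_lit 1308, nat_lit 0, nat_lit 0, nat_lit 0, nat_lit 123, nat_lit 0, nat_lit 0, nat_lit 0, nat_lit 0, nat_lit 46, nat_lit 398600, nat_lit 0, nat_lit 0, [(nat_lit 18, [(nat_lit 5, nat_lit 844), (nat_lit 6, nat_lit 61)])],
 ⟨p018_k0, nat_lit 0, nat_lit 0, nat_lit 439, nat_lit 0, nat_lit 661976, [nat_lit 1409590934, nat_lit 756320267, nat_lit 5412400], [], [nat_lit 18123626367, nat_lit 19315530503, nat_lit 22296464243, nat_lit 22533326703], nat_lit 1271250, nat_lit 1271250, nat_lit 230001, nat_lit 1717500, nat_lit 0, nat_lit 0, [nat_lit 490000, nat_lit 1100000, nat_lit 1442500], [nat_lit 6, nat_lit 40, nat_lit 80, nat_lit 80, nat_lit 3, nat_lit 272, nat_lit 60, nat_lit 11]⟩, ⟨p018_k20, nat_lit 0, nat_lit 0, nat_lit 940, nat_lit 0, nat_lit 1230917, [nat_lit 593750000, nat_lit 934990000, nat_lit 1127840000], [], [nat_lit 3705715274,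 nat_lit 3761738888, nat_lit 4958874588, nat_lit 3726199692], nat_lit 1271250, nat_lit 1271250, nat_lit 230001, nat_lit 1717500, nat_lit 0, nat_lit 0, [nat_lit 1412500, nat_lit 1271250, nat_lit 1271250], [nat_lit 46, nat_lit 40, nat_lit 80, nat_lit 80, nat_lit 41, nat_lit 345, nat_lit 125, nat_lit 9]⟩,
 ⟨nat_lit 3872, nat_lit 4473, ⟨.ofNat (nat_lit 228056), .ofNat (nat_lit 567977), .ofNat (nat_lit 271153), .ofNat (nat_lit 611083), .ofNat (nat_lit 241882), .ofNat (nat_lit 564520), .ofNat (nat_lit 285433), .ofNat (nat_lit 608080)⟩, ⟨.ofNat (nat_lit 0), .ofNat (nat_lit 0), .ofNat (nat_lit 0), .ofNat (nat_lit 0), .ofNat (nat_lit 0), .ofNat (nat_lit 0), .ofNat (nat_lit 0), .ofNat (nat_lit 0)⟩⟩, []⟩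
noncomputable def p018_l85 : Lf2 := ⟨nat_lit 0, nat_lit 10, [nat_lit 0, nat_lit 5, nat_lit 5, nat_lit 20], false, nat_lit 0, nat_lit 0, nat_lit 0, nat_lit 0, ⟨nat_lit 76, nat_lit 0, nat_lit 924, nat_lit 5, nat_lit 176, nat_lit 0, nat_lit 0, nat_lit 0, nat_lit 0, nat_lit 215, nat_lit 600, nat_lit 209, nat_lit 56168995, nat_lit 0, nat_lit 0, nat_lit 2212033, false, false⟩,
 nat_lit 1924, nat_lit 1633, nat_lit 0, nat_lit 0, nat_lit 2879, nat_lit 824, nat_lit 0, nat_lit 0, nat_lit 0, nat_lit 43, nat_lit 0, nat_lit 0, nat_lit 0, nat_lit 0, nat_lit 92, nat_lit 502800, nat_lit 0, nat_lit 0, [(nat_lit 21, [(nat_lit 5, nat_lit 702), (nat_lit 6, nat_lit 222)])],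
 ⟨p018_k7, nat_lit 0, nat_lit 0, nat_lit 429, nat_lit 0, nat_lit 654047, [nat_lit 1744894401, nat_lit 480229601, nat_lit 260369600], [], [nat_lit 18918938927, nat_lit 19562974539, nat_lit 22540219207, nat_lit 23041957555], nat_lit 1271250, nat_lit 1271250, nat_lit 330400, nat_lit 1726500, nat_lit 0, nat_lit 0, [nat_lit 490000, nat_lit 1100000, nat_lit 1442500], [nat_lit 6, nat_lit 40, nat_lit 80, nat_lit 80, nat_lit 3, nat_lit 272, nat_lit 60, nat_lit 10]⟩, ⟨p018_k20, nat_lit 0, nat_lit 0, nat_lit 978, nat_lit 0, nat_lit 1320525, [nat_lit 475000000, nat_lit 747992000, nat_lit 902272000], [], [nat_lit 5154109719, nat_lit 4260749024, nat_lit 3895092656, nat_lit 3139821328], nat_lit 1271250, nat_lit 1271250, nat_lit 330400, nat_lit 1726500, nat_lit 0, nat_lit 0, [nat_lit 1412500, nat_lit 1271250, nat_lit 1271250], [nat_lit 46, nat_lit 40, nat_lit 80, nat_lit 80, nat_lit 41, nat_lit 345, nat_lit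 125, nat_lit 9]⟩,
 ⟨nat_lit 3535, nat_lit 3873, ⟨.ofNat (nat_lit 267701), .ofNat (nat_lit 564520), .ofNat (nat_lit 311275), .ofNat (nat_lit 608101), .ofNat (nat_lit 274037), .ofNat (nat_lit 562760), .ofNat (nat_lit 317930), .ofNat (nat_lit 606659)⟩, ⟨.ofNat (nat_lit 0), .ofNat (nat_lit 0), .ofNat (nat_lit 0), .ofNat (nat_lit 0), .ofNat (nat_lit 0), .ofNat (nat_lit 0), .ofNat (nat_lit 0), .ofNat (nat_lit 0)⟩⟩, []⟩
noncomputable def p018_l86 : Lf2 := ⟨nat_lit 0, nat_lit 10, [nat_lit 0, nat_lit 5, nat_lit 5, nat_lit 20], false, nat_lit 0, nat_lit 0, nat_lit 0, nat_lit 0, ⟨nat_lit 89, nat_lit 0, nat_lit 911, nat_lit 5, nat_lit 179, nat_lit 0, nat_lit 0, nat_lit 0, nat_lit 0, nat_lit 215, nat_lit 2736, nat_lit 210, nat_lit 55808893, nat_lit 0, nat_lit 0, nat_lit 2255737, false, false⟩,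
 nat_lit 2242, nat_lit 1198, nat_lit 0, nat_lit 0, nat_lit 2889, nat_lit 960, nat_lit 0, nat_lit 0, nat_lit 0, nat_lit 49, nat_lit 0, nat_lit 0, nat_lit 0, nat_lit 0, nat_lit 58, nat_lit 479000, nat_lit 0, nat_lit 0, [(nat_lit 21, [(nat_lit 5, nat_lit 720), (nat_lit 6, nat_lit 191)])],
 ⟨p018_k5, nat_lit 0, nat_lit 0, nat_lit 355, nat_lit 0, nat_lit 672176, [nat_lit 1493421600, nat_lit 10177600], [], [nat_lit 19657141866, nat_lit 20297639006, nat_lit 23151886068, nat_lit 23654326536], nat_lit 1271250, nat_lit 1271250, nat_lit 382400, nat_lit 1731000, nat_lit 0, nat_lit 0, [nat_lit 490000, nat_lit 1100000], [nat_lit 24, nat_lit 40, nat_lit 80, nat_lit 80, nat_lit 33, nat_lit 272, nat_lit 60, nat_lit 13]⟩, ⟨p018_k20, nat_lit 0, nat_lit 0, nat_lit 1011, nat_lit 0, nat_lit 1412037, [nat_lit 556250000, nat_lit 875938000, nat_lit 1056608000], [], [nat_lit 5808514892, nat_lit 4771002188, nat_lit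 4577739828, nat_lit 3704795308], nat_lit 1271250, nat_lit 1271250, nat_lit 382400, nat_lit 1731000, nat_lit 0, nat_lit 0, [nat_lit 1412500, nat_lit 1271250, nat_lit 1271250], [nat_lit 46, nat_lit 40, nat_lit 80, nat_lit 80, nat_lit 41, nat_lit 345, nat_lit 125, nat_lit 9]⟩,
 ⟨nat_lit 3162, nat_lit 3536, ⟨.ofNat (nat_lit 286575), .ofNat (nat_lit 562760), .ofNat (nat_lit 330464), .ofNat (nat_lit 606660), .ofNat (nat_lit 292723), .ofNat (nat_lit 560952), .ofNat (nat_lit 337016), .ofNat (nat_lit 605256)⟩, ⟨.ofNat (nat_lit 0), .ofNat (nat_lit 0), .ofNat (nat_lit 0), .ofNat (nat_lit 0), .ofNat (nat_lit 0), .ofNat (nat_lit 0), .ofNat (nat_lit 0), .ofNat (nat_lit 0)⟩⟩, []⟩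
noncomputable def p018_l87 : Lf2 := ⟨nat_lit 0, nat_lit 10, [nat_lit 0, nat_lit 5, nat_lit 5, nat_lit 20], false, nat_lit 0, nat_lit 0, nat_lit 0, nat_lit 0, ⟨nat_lit 202, nat_lit 798, nat_lit 0, nat_lit 6, nat_lit 272, nat_lit 0, nat_lit 0, nat_lit 0, nat_lit 0, nat_lit 0, nat_lit 0, nat_lit 0, nat_lit 45819088, nat_lit 21180912, nat_lit 0, nat_lit 3119600, true, true⟩,
 nat_lit 5103, nat_lit 0, nat_lit 0, nat_lit 0, nat_lit 3827, nat_lit 2187, nat_lit 0, nat_lit 0, nat_lit 0, nat_lit 169, nat_lit 0, nat_lit 0, nat_lit 0, nat_lit 0, nat_lit 0, nat_lit 667200, nat_lit 0, nat_lit 0, [(nat_lit 18, [(nat_lit 1, nat_lit 218), (nat_lit 2, nat_lit 580)])],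
 ⟨p018_k0, nat_lit 0, nat_lit 0, nat_lit 354, nat_lit 0, nat_lit 572187, [nat_lit 1702339734, nat_lit 1982002667, nat_lit 1432898400], [], [nat_lit 25713207684, nat_lit 26099724359, nat_lit 29908419944, nat_lit 30241420972], nat_lit 1271250, nat_lit 1271250, nat_lit 1271250, nat_lit 1271250, nat_lit 0, nat_lit 0, [nat_lit 490000, nat_lit 1100000, nat_lit 1442500], [nat_lit 6, nat_lit 40, nat_lit 80, nat_lit 80, nat_lit 3, nat_lit 203, nat_lit 0, nat_lit 7]⟩, ⟨p018_k20, nat_lit 0, nat_lit 0, nat_lit 756, nat_lit 0, nat_lit 1063958, [nat_lit 1262500000, nat_lit 1988084000, nat_lit 2398144000], [], [nat_lit 8379357532, nat_lit 8361280204, nat_lit 8674094969, nat_lit 8659786224], nat_lit 1271250, nat_lit 1271250, nat_lit 1271250, nat_lit 1271250, nat_lit 0, nat_lit 0, [nat_lit 1412500, nat_lit 1271250, nat_lit 1271250], [nat_lit 46, nat_lit 40, nat_lit 80, nat_lit 80, nat_lit 41, nat_lit 373,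 nat_lit 150, nat_lit 9]⟩,
 ⟨nat_lit 4183, nat_lit 4473, ⟨.ofNat (nat_lit 567977), .ofNat (nat_lit 785507), .ofNat (nat_lit 578759), .ofNat (nat_lit 796290), .ofNat (nat_lit 566254), .ofNat (nat_lit 778272), .ofNat (nat_lit 577087), .ofNat (nat_lit 789105)⟩, ⟨.ofNat (nat_lit 0), .ofNat (nat_lit 0), .ofNat (nat_lit 0), .ofNat (nat_lit 0), .ofNat (nat_lit 0), .ofNat (nat_lit 0), .ofNat (nat_lit 0), .ofNat (nat_lit 0)⟩⟩, [⟨nat_lit 13, nat_lit 78, nat_lit 61, nat_lit 100, nat_lit 39668822⟩]⟩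
noncomputable def p018_l88 : Lf2 := ⟨nat_lit 0, nat_lit 10, [nat_lit 0, nat_lit 5, nat_lit 5, nat_lit 20], false, nat_lit 0, nat_lit 0, nat_lit 0, nat_lit 0, ⟨nat_lit 229, nat_lit 771, nat_lit 0, nat_lit 6, nat_lit 278, nat_lit 0, nat_lit 0, nat_lit 0, nat_lit 0, nat_lit 0, nat_lit 0, nat_lit 0, nat_lit 45217318, nat_lit 21782682, nat_lit 0, nat_lit 3153323, true, true⟩,
 nat_lit 5162, nat_lit 0, nat_lit 0, nat_lit 0, nat_lit 3871, nat_lit 2339, nat_lit 0, nat_lit 0, nat_lit 0, nat_lit 188, nat_lit 0, nat_lit 0, nat_lit 0, nat_lit 0, nat_lit 0, nat_lit 645000, nat_lit 0, nat_lit 0, [(nat_lit 18, [(nat_lit 1, nat_lit 210), (nat_lit 2, nat_lit 561)])],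
 ⟨p018_k0, nat_lit 0, nat_lit 0, nat_lit 358, nat_lit 0, nat_lit 584104, [nat_lit 1713683201, nat_lit 2072984001, nat_lit 1594382800], [], [nat_lit 26078721371, nat_lit 26466823146, nat_lit 30306809015, nat_lit 30640508069], nat_lit 1271250, nat_lit 1271250, nat_lit 1271250, nat_lit 1271250, nat_lit 0, nat_lit 0, [nat_lit 490000, nat_lit 1100000, nat_lit 1442500], [nat_lit 6, nat_lit 40, nat_lit 80, nat_lit 80, nat_lit 3, nat_lit 203, nat_lit 0, nat_lit 7]⟩, ⟨p018_k22, nat_lit 0, nat_lit 0, nat_lit 735, nat_lit 0, nat_lit 1019220, [nat_lit 1431250000, nat_lit 2253818000, nat_lit 2718688000], [], [nat_lit 9055618272, nat_lit 9057270544, nat_lit 9676513018, nat_lit 9661054773], nat_lit 1271250, nat_lit 1271250, nat_lit 1271250, nat_lit 1271250, nat_lit 0, nat_lit 0, [nat_lit 1412500, nat_lit 1271250, nat_lit 1271250], [nat_lit 46, nat_lit 40, nat_lit 80, nat_lit 80, nat_lit 41, nat_lit 373,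 nat_lit 150, nat_lit 9]⟩,
 ⟨nat_lit 4183, nat_lit 4473, ⟨.ofNat (nat_lit 578759), .ofNat (nat_lit 803088), .ofNat (nat_lit 589541), .ofNat (nat_lit 813871), .ofNat (nat_lit 577087), .ofNat (nat_lit 795731), .ofNat (nat_lit 587919), .ofNat (nat_lit 806564)⟩, ⟨.ofNat (nat_lit 0), .ofNat (nat_lit 0), .ofNat (nat_lit 0), .ofNat (nat_lit 0), .ofNat (nat_lit 0), .ofNat (nat_lit 0), .ofNat (nat_lit 0), .ofNat (nat_lit 0)⟩⟩, [⟨nat_lit 13, nat_lit 78, nat_lit 57, nat_lit 100, nat_lit 34530205⟩]⟩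
noncomputable def p018_l89 : Lf2 := ⟨nat_lit 0, nat_lit 10, [nat_lit 0, nat_lit 5, nat_lit 5, nat_lit 20], false, nat_lit 0, nat_lit 0, nat_lit 0, nat_lit 0, ⟨nat_lit 157, nat_lit 375, nat_lit 468, nat_lit 6, nat_lit 257, nat_lit 0, nat_lit 0, nat_lit 0, nat_lit 0, nat_lit 215, nat_lit 169614, nat_lit 200, nat_lit 47460440, nat_lit 19539560, nat_lit 0, nat_lit 3018045, true, true⟩,
 nat_lit 4204, nat_lit 0, nat_lit 0, nat_lit 0, nat_lit 3276, nat_lit 1801, nat_lit 197, nat_lit 0, nat_lit 0, nat_lit 138, nat_lit 0, nat_lit 0, nat_lit 0, nat_lit 0, nat_lit 0, nat_lit 337200, nat_lit 0, nat_lit 0, [(nat_lit 18, [(nat_lit 1, nat_lit 375), (nat_lit 5, nat_lit 468)])],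
 ⟨p018_k6, nat_lit 0, nat_lit 0, nat_lit 356, nat_lit 0, nat_lit 608229, [nat_lit 1278002401, nat_lit 1279764000, nat_lit 1012116400], [], [nat_lit 23544955769, nat_lit 23955070141, nat_lit 25950481197, nat_lit 26304510150], nat_lit 1271250, nat_lit 1271250, nat_lit 1271250, nat_lit 1271250, nat_lit 0, nat_lit 0, [nat_lit 490000, nat_lit 1100000, nat_lit 1442500], [nat_lit 6, nat_lit 40, nat_lit 80, nat_lit 80, nat_lit 3, nat_lit 203, nat_lit 0, nat_lit 7]⟩, ⟨p018_k20, nat_lit 0, nat_lit 0, nat_lit 819, nat_lit 0, nat_lit 1179115, [nat_lit 981250000, nat_lit 1545194000, nat_lit 1863904000], [], [nat_lit 6075976132, nat_lit 6043165340, nat_lit 6194843244, nat_lit 6171744178], nat_lit 1271250, nat_lit 1271250, nat_lit 1271250, nat_lit 1271250, nat_lit 0, nat_lit 0, [nat_lit 1412500, nat_lit 1271250, nat_lit 1271250], [nat_lit 46, nat_lit 40, nat_lit 80, nat_lit 80, nat_lit 41, nat_lit 373,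 nat_lit 150, nat_lit 9]⟩,
 ⟨nat_lit 3872, nat_lit 4184, ⟨.ofNat (nat_lit 566254), .ofNat (nat_lit 698765), .ofNat (nat_lit 587919), .ofNat (nat_lit 720432), .ofNat (nat_lit 564520), .ofNat (nat_lit 693563), .ofNat (nat_lit 586312), .ofNat (nat_lit 715356)⟩, ⟨.ofNat (nat_lit 0), .ofNat (nat_lit 0), .ofNat (nat_lit 0), .ofNat (nat_lit 0), .ofNat (nat_lit 0), .ofNat (nat_lit 0), .ofNat (nat_lit 0), .ofNat (nat_lit 0)⟩⟩, []⟩
noncomputable def p018_l90 : Lf2 := ⟨nat_lit 0, nat_lit 10, [nat_lit 0, nat_lit 5, nat_lit 5, nat_lit 20], false, nat_lit 0, nat_lit 0, nat_lit 0, nat_lit 0, ⟨nat_lit 195, nat_lit 805, nat_lit 0, nat_lit 8, nat_lit 299, nat_lit 0, nat_lit 0, nat_lit 0, nat_lit 0, nat_lit 0, nat_lit 0, nat_lit 0, nat_lit 42970198, nat_lit 24029802, nat_lit 0, nat_lit 3263197, true, true⟩,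
 nat_lit 4903, nat_lit 0, nat_lit 0, nat_lit 0, nat_lit 3822, nat_lit 2101, nat_lit 8, nat_lit 0, nat_lit 0, nat_lit 162, nat_lit 0, nat_lit 0, nat_lit 0, nat_lit 0, nat_lit 0, nat_lit 629200, nat_lit 0, nat_lit 0, [(nat_lit 18, [(nat_lit 1, nat_lit 293), (nat_lit 2, nat_lit 512)])],
 ⟨p018_k6, nat_lit 0, nat_lit 0, nat_lit 358, nat_lit 0, nat_lit 584120, [nat_lit 1677248801, nat_lit 2025604001, nat_lit 1566346000], [], [nat_lit 28572781388, nat_lit 28748133292, nat_lit 30366082351, nat_lit 30534438361], nat_lit 1271250, nat_lit 1271250, nat_lit 1271250, nat_lit 1271250, nat_lit 0, nat_lit 0, [nat_lit 490000, nat_lit 1100000, nat_lit 1442500], [nat_lit 6, nat_lit 40, nat_lit 80, nat_lit 80, nat_lit 3, nat_lit 203, nat_lit 0, nat_lit 6]⟩, ⟨p018_k20, nat_lit 0, nat_lit 0, nat_lit 769, nat_lit 0, nat_lit 1132378, [nat_lit 1218750000, nat_lit 1919190000, nat_lit 2315040000], [], [nat_lit 8195186916,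 nat_lit 8145463026, nat_lit 8405312485, nat_lit 8375226944], nat_lit 1271250, nat_lit 1271250, nat_lit 1271250, nat_lit 1271250, nat_lit 0, nat_lit 0, [nat_lit 1412500, nat_lit 1271250, nat_lit 1271250], [nat_lit 46, nat_lit 40, nat_lit 80, nat_lit 80, nat_lit 41, nat_lit 272, nat_lit 60, nat_lit 7]⟩,
 ⟨nat_lit 4031, nat_lit 4184, ⟨.ofNat (nat_lit 698765), .ofNat (nat_lit 778272), .ofNat (nat_lit 720432), .ofNat (nat_lit 799939), .ofNat (nat_lit 696171), .ofNat (nat_lit 774640), .ofNat (nat_lit 717897), .ofNat (nat_lit 796366)⟩, ⟨.ofNat (nat_lit 0), .ofNat (nat_lit 0), .ofNat (nat_lit 0), .ofNat (nat_lit 0), .ofNat (nat_lit 0), .ofNat (nat_lit 0), .ofNat (nat_lit 0), .ofNat (nat_lit 0)⟩⟩, [⟨nat_lit 13, nat_lit 75, nat_lit 62, nat_lit 100, nat_lit 113442203⟩]⟩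
noncomputable def p018_l91 : Lf2 := ⟨nat_lit 0, nat_lit 10, [nat_lit 0, nat_lit 5, nat_lit 5, nat_lit 20], false, nat_lit 0, nat_lit 0, nat_lit 0, nat_lit 0, ⟨nat_lit 185, nat_lit 815, nat_lit 0, nat_lit 8, nat_lit 297, nat_lit 0, nat_lit 0, nat_lit 0, nat_lit 0, nat_lit 0, nat_lit 0, nat_lit 0, nat_lit 43231891, nat_lit 23768109, nat_lit 0, nat_lit 3251680, true, true⟩,
 nat_lit 4665, nat_lit 0, nat_lit 0, nat_lit 0, nat_lit 3706, nat_lit 1999, nat_lit 277, nat_lit 0, nat_lit 0, nat_lit 154, nat_lit 0, nat_lit 0, nat_lit 0, nat_lit 0, nat_lit 0, nat_lit 326000, nat_lit 0, nat_lit 0, [(nat_lit 18, [(nat_lit 1, nat_lit 815)])],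
 ⟨p018_k11, nat_lit 0, nat_lit 0, nat_lit 362, nat_lit 0, nat_lit 595920, [nat_lit 1515398667, nat_lit 2470113334, nat_lit 2754302000], [], [nat_lit 28414217040, nat_lit 28604295840, nat_lit 30093277328, nat_lit 30265533484], nat_lit 1271250, nat_lit 1271250, nat_lit 1271250, nat_lit 1271250, nat_lit 0, nat_lit 0, [nat_lit 490000, nat_lit 1100000, nat_lit 1442500], [nat_lit 6, nat_lit 40, nat_lit 80, nat_lit 80, nat_lit 3, nat_lit 203, nat_lit 0, nat_lit 6]⟩, ⟨p018_k20, nat_lit 0, nat_lit 0, nat_lit 801, nat_lit 0, nat_lit 1179115, [nat_lit 1156250000, nat_lit 1820770000, nat_lit 2196320000], [], [nat_lit 7749571564, nat_lit 7702095734, nat_lit 7934073347, nat_lit 7899435057], nat_lit 1271250, nat_lit 1271250, nat_lit 1271250, nat_lit 1271250, nat_lit 0, nat_lit 0, [nat_lit 1412500, nat_lit 1271250, nat_lit 1271250], [nat_lit 46, nat_lit 40, nat_lit 80, nat_lit 80, nat_lit 41, nat_lit 274,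 nat_lit 60, nat_lit 7]⟩,
 ⟨nat_lit 3872, nat_lit 4032, ⟨.ofNat (nat_lit 696171), .ofNat (nat_lit 768101), .ofNat (nat_lit 717897), .ofNat (nat_lit 789827), .ofNat (nat_lit 693563), .ofNat (nat_lit 764537), .ofNat (nat_lit 715356), .ofNat (nat_lit 786330)⟩, ⟨.ofNat (nat_lit 0), .ofNat (nat_lit 0), .ofNat (nat_lit 0), .ofNat (nat_lit 0), .ofNat (nat_lit 0), .ofNat (nat_lit 0), .ofNat (nat_lit 0), .ofNat (nat_lit 0)⟩⟩, [⟨nat_lit 13, nat_lit 73, nat_lit 65, nat_lit 100, nat_lit 131393955⟩]⟩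
noncomputable def p018_l92 : Lf2 := ⟨nat_lit 0, nat_lit 10, [nat_lit 0, nat_lit 5, nat_lit 5, nat_lit 20], false, nat_lit 0, nat_lit 0, nat_lit 0, nat_lit 0, ⟨nat_lit 372, nat_lit 628, nat_lit 0, nat_lit 6, nat_lit 288, nat_lit 0, nat_lit 0, nat_lit 0, nat_lit 0, nat_lit 0, nat_lit 0, nat_lit 0, nat_lit 44110834, nat_lit 22889166, nat_lit 0, nat_lit 3210550, true, true⟩,
 nat_lit 6757, nat_lit 0, nat_lit 0, nat_lit 0, nat_lit 4050, nat_lit 3231, nat_lit 0, nat_lit 0, nat_lit 0, nat_lit 641, nat_lit 0, nat_lit 0, nat_lit 0, nat_lit 0, nat_lit 0, nat_lit 628000, nat_lit 0, nat_lit 0, [(nat_lit 18, [(nat_lit 2, nat_lit 628)])],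
 ⟨p018_k0, nat_lit 0, nat_lit 0, nat_lit 370, nat_lit 0, nat_lit 614904, [nat_lit 1824676267, nat_lit 2400405334, nat_lit 2046670400], [], [nat_lit 27135808135, nat_lit 27530358385, nat_lit 31684325869, nat_lit 31991709423], nat_lit 1271250, nat_lit 1271250, nat_lit 1271250, nat_lit 1271250, nat_lit 0, nat_lit 0, [nat_lit 490000, nat_lit 1100000, nat_lit 1442500], [nat_lit 6, nat_lit 40, nat_lit 80, nat_lit 80, nat_lit 3, nat_lit 203, nat_lit 0, nat_lit 7]⟩, ⟨p018_k21, nat_lit 0, nat_lit 0, nat_lit 728, nat_lit 0, nat_lit 1009778, [nat_lit 2325000000, nat_lit 3661224000, nat_lit 4416384000], [], [nat_lit 13057973460, nat_lit 13050381972, nat_lit 14610454254, nat_lit 14619109687], nat_lit 1271250, nat_lit 1271250, nat_lit 1271250, nat_lit 1271250, nat_lit 0, nat_lit 0, [nat_lit 1412500, nat_lit 1271250, nat_lit 1271250], [nat_lit 46, nat_lit 40, nat_lit 80, nat_lit 80, nat_lit 41, nat_lit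 401, nat_lit 175, nat_lit 10]⟩,
 ⟨nat_lit 4183, nat_lit 4473, ⟨.ofNat (nat_lit 589541), .ofNat (nat_lit 834264), .ofNat (nat_lit 611104), .ofNat (nat_lit 855828), .ofNat (nat_lit 587919), .ofNat (nat_lit 826441), .ofNat (nat_lit 609582), .ofNat (nat_lit 848105)⟩, ⟨.ofNat (nat_lit 0), .ofNat (nat_lit 0), .ofNat (nat_lit 0), .ofNat (nat_lit 0), .ofNat (nat_lit 0), .ofNat (nat_lit 0), .ofNat (nat_lit 0), .ofNat (nat_lit 0)⟩⟩, []⟩
noncomputable def p018_l93 : Lf2 := ⟨nat_lit 0, nat_lit 10, [nat_lit 0, nat_lit 5, nat_lit 5, nat_lit 20], false, nat_lit 0, nat_lit 0, nat_lit 0, nat_lit 0, ⟨nat_lit 323, nat_lit 677, nat_lit 0, nat_lit 6, nat_lit 284, nat_lit 0, nat_lit 0, nat_lit 0, nat_lit 0, nat_lit 0, nat_lit 0, nat_lit 0, nat_lit 44581043, nat_lit 22418957, nat_lit 0, nat_lit 3186980, true, true⟩,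
 nat_lit 5457, nat_lit 0, nat_lit 0, nat_lit 0, nat_lit 4222, nat_lit 2609, nat_lit 168, nat_lit 0, nat_lit 0, nat_lit 756, nat_lit 0, nat_lit 0, nat_lit 0, nat_lit 0, nat_lit 0, nat_lit 270800, nat_lit 0, nat_lit 0, [(nat_lit 18, [(nat_lit 1, nat_lit 677)])],
 ⟨p018_k6, nat_lit 0, nat_lit 0, nat_lit 376, nat_lit 0, nat_lit 634950, [nat_lit 1602872267, nat_lit 2845657334, nat_lit 3346211600], [], [nat_lit 27701954719, nat_lit 28127738537, nat_lit 32163473713, nat_lit 32480518192], nat_lit 1271250, nat_lit 1271250, nat_lit 1271250, nat_lit 1271250, nat_lit 0, nat_lit 0, [nat_lit 490000, nat_lit 1100000, nat_lit 1442500], [nat_lit 6, nat_lit 40, nat_lit 80, nat_lit 80, nat_lit 3, nat_lit 203, nat_lit 0, nat_lit 7]⟩, ⟨p018_k21, nat_lit 0, nat_lit 0, nat_lit 760, nat_lit 0, nat_lit 1087077, [nat_lit 2018750000, nat_lit 3178966000, nat_lit 3834656000], [], [nat_lit 11389601780, nat_lit 11390879268,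 nat_lit 12018035942, nat_lit 12010585958], nat_lit 1271250, nat_lit 1271250, nat_lit 1271250, nat_lit 1271250, nat_lit 0, nat_lit 0, [nat_lit 1412500, nat_lit 1271250, nat_lit 1271250], [nat_lit 46, nat_lit 40, nat_lit 80, nat_lit 80, nat_lit 41, nat_lit 401, nat_lit 175, nat_lit 10]⟩,
 ⟨nat_lit 3872, nat_lit 4184, ⟨.ofNat (nat_lit 587919), .ofNat (nat_lit 813190), .ofNat (nat_lit 609582), .ofNat (nat_lit 834857), .ofNat (nat_lit 586312), .ofNat (nat_lit 805687), .ofNat (nat_lit 608101), .ofNat (nat_lit 827480)⟩, ⟨.ofNat (nat_lit 0), .ofNat (nat_lit 0), .ofNat (nat_lit 0), .ofNat (nat_lit 0), .ofNat (nat_lit 0), .ofNat (nat_lit 0), .ofNat (nat_lit 0), .ofNat (nat_lit 0)⟩⟩, []⟩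
noncomputable def p018_l94 : Lf2 := ⟨nat_lit 0, nat_lit 10, [nat_lit 0, nat_lit 5, nat_lit 5, nat_lit 20], false, nat_lit 0, nat_lit 0, nat_lit 0, nat_lit 0, ⟨nat_lit 165, nat_lit 835, nat_lit 0, nat_lit 6, nat_lit 268, nat_lit 0, nat_lit 0, nat_lit 0, nat_lit 0, nat_lit 0, nat_lit 0, nat_lit 0, nat_lit 46240325, nat_lit 20759675, nat_lit 0, nat_lit 3094885, true, true⟩,
 nat_lit 4194, nat_lit 0, nat_lit 0, nat_lit 0, nat_lit 3395, nat_lit 1797, nat_lit 201, nat_lit 0, nat_lit 0, nat_lit 138, nat_lit 0, nat_lit 0, nat_lit 0, nat_lit 0, nat_lit 0, nat_lit 334000, nat_lit 0, nat_lit 0, [(nat_lit 21, [(nat_lit 1, nat_lit 835)])],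
 ⟨p018_k7, nat_lit 0, nat_lit 0, nat_lit 373, nat_lit 0, nat_lit 631165, [nat_lit 1466872001, nat_lit 2020008001, nat_lit 2277070000], [], [nat_lit 25335614305, nat_lit 25780933335, nat_lit 29408324527, nat_lit 29790794920], nat_lit 1271250, nat_lit 1271250, nat_lit 1271250, nat_lit 1271250, nat_lit 0, nat_lit 0, [nat_lit 490000, nat_lit 1100000, nat_lit 1442500], [nat_lit 6, nat_lit 40, nat_lit 80, nat_lit 80, nat_lit 3, nat_lit 203, nat_lit 0, nat_lit 7]⟩, ⟨p018_k20, nat_lit 0, nat_lit 0, nat_lit 859, nat_lit 0, nat_lit 1274327, [nat_lit 1031250000, nat_lit 1623930000, nat_lit 1958880000], [], [nat_lit 6798832500, nat_lit 6768807372, nat_lit 7012399512, nat_lit 6991765401], nat_lit 1271250, nat_lit 1271250, nat_lit 1271250, nat_lit 1271250, nat_lit 0, nat_lit 0, [nat_lit 1412500, nat_lit 1271250, nat_lit 1271250], [nat_lit 46, nat_lit 40, nat_lit 80, nat_lit 80, nat_lit 41, nat_lit 373,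 nat_lit 150, nat_lit 9]⟩,
 ⟨nat_lit 3535, nat_lit 3873, ⟨.ofNat (nat_lit 564520), .ofNat (nat_lit 758085), .ofNat (nat_lit 586313), .ofNat (nat_lit 779878), .ofNat (nat_lit 562760), .ofNat (nat_lit 751044), .ofNat (nat_lit 584712), .ofNat (nat_lit 772997)⟩, ⟨.ofNat (nat_lit 0), .ofNat (nat_lit 0), .ofNat (nat_lit 0), .ofNat (nat_lit 0), .ofNat (nat_lit 0), .ofNat (nat_lit 0), .ofNat (nat_lit 0), .ofNat (nat_lit 0)⟩⟩, [⟨nat_lit 13, nat_lit 69, nat_lit 69, nat_lit 100, nat_lit 96022359⟩]⟩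
noncomputable def p018_l95 : Lf2 := ⟨nat_lit 0, nat_lit 10, [nat_lit 0, nat_lit 5, nat_lit 5, nat_lit 20], false, nat_lit 0, nat_lit 0, nat_lit 0, nat_lit 0, ⟨nat_lit 155, nat_lit 845, nat_lit 0, nat_lit 6, nat_lit 263, nat_lit 0, nat_lit 0, nat_lit 0, nat_lit 0, nat_lit 0, nat_lit 0, nat_lit 0, nat_lit 46825368, nat_lit 20174632, nat_lit 0, nat_lit 3059025, true, true⟩,
 nat_lit 4008, nat_lit 0, nat_lit 0, nat_lit 0, nat_lit 3366, nat_lit 1717, nat_lit 173, nat_lit 0, nat_lit 0, nat_lit 132, nat_lit 0, nat_lit 0, nat_lit 0, nat_lit 0, nat_lit 0, nat_lit 338000, nat_lit 0, nat_lit 0, [(nat_lit 21, [(nat_lit 1, nat_lit 845)])],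
 ⟨p018_k5, nat_lit 0, nat_lit 0, nat_lit 339, nat_lit 0, nat_lit 652848, [nat_lit 1460104001, nat_lit 1980620000], [], [nat_lit 25320380163, nat_lit 25806137051, nat_lit 29172979744, nat_lit 29570105916], nat_lit 1271250, nat_lit 1271250, nat_lit 1271250, nat_lit 1271250, nat_lit 0, nat_lit 0, [nat_lit 490000, nat_lit 1100000], [nat_lit 24, nat_lit 40, nat_lit 80, nat_lit 80, nat_lit 33, nat_lit 203, nat_lit 0, nat_lit 8]⟩, ⟨p018_k20, nat_lit 0, nat_lit 0, nat_lit 900, nat_lit 0, nat_lit 1371435, [nat_lit 968750000, nat_lit 1525510000, nat_lit 1840160000], [], [nat_lit 6294420044, nat_lit 6246160016, nat_lit 6440633055, nat_lit 6423098466], nat_lit 1271250, nat_lit 1271250, nat_lit 1271250, nat_lit 1271250, nat_lit 0, nat_lit 0, [nat_lit 1412500, nat_lit 1271250, nat_lit 1271250], [nat_lit 46, nat_lit 40, nat_lit 80, nat_lit 80, nat_lit 41, nat_lit 373, nat_lit 150, nat_lit 9]⟩,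
 ⟨nat_lit 3162, nat_lit 3536, ⟨.ofNat (nat_lit 562760), .ofNat (nat_lit 732216), .ofNat (nat_lit 584713), .ofNat (nat_lit 754168), .ofNat (nat_lit 560952), .ofNat (nat_lit 725526), .ofNat (nat_lit 583107), .ofNat (nat_lit 747681)⟩, ⟨.ofNat (nat_lit 0), .ofNat (nat_lit 0), .ofNat (nat_lit 0), .ofNat (nat_lit 0), .ofNat (nat_lit 0), .ofNat (nat_lit 0), .ofNat (nat_lit 0), .ofNat (nat_lit 0)⟩⟩, [⟨nat_lit 13, nat_lit 63, nat_lit 74, nat_lit 100, nat_lit 132593769⟩]⟩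
noncomputable def p018_l96 : Lf2 := ⟨nat_lit 0, nat_lit 10, [nat_lit 0, nat_lit 5, nat_lit 5, nat_lit 20], false, nat_lit 0, nat_lit 0, nat_lit 0, nat_lit 0, ⟨nat_lit 248, nat_lit 752, nat_lit 0, nat_lit 6, nat_lit 278, nat_lit 0, nat_lit 0, nat_lit 0, nat_lit 0, nat_lit 0, nat_lit 0, nat_lit 0, nat_lit 45132596, nat_lit 21867404, nat_lit 0, nat_lit 3157922, true, true⟩,
 nat_lit 4296, nat_lit 0, nat_lit 0, nat_lit 0, nat_lit 3477, nat_lit 2054, nat_lit 259, nat_lit 0, nat_lit 0, nat_lit 565, nat_lit 0, nat_lit 0, nat_lit 0, nat_lit 0, nat_lit 0, nat_lit 300800, nat_lit 0, nat_lit 0, [(nat_lit 21, [(nat_lit 1, nat_lit 752)])],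
 ⟨p018_k7, nat_lit 0, nat_lit 0, nat_lit 409, nat_lit 0, nat_lit 699372, [nat_lit 1523046401, nat_lit 2285209600, nat_lit 2671984000], [], [nat_lit 26318778673, nat_lit 27162356417, nat_lit 30464234830, nat_lit 31118851015], nat_lit 1271250, nat_lit 1271250, nat_lit 1271250, nat_lit 1271250, nat_lit 0, nat_lit 0, [nat_lit 490000, nat_lit 1100000, nat_lit 1442500], [nat_lit 6, nat_lit 40, nat_lit 80, nat_lit 80, nat_lit 3, nat_lit 203, nat_lit 0, nat_lit 7]⟩, ⟨p018_k21, nat_lit 0, nat_lit 0, nat_lit 841, nat_lit 0, nat_lit 1247033, [nat_lit 1550000000, nat_lit 2440816000, nat_lit 2944256000], [], [nat_lit 8776806756, nat_lit 8759635860, nat_lit 9140133558, nat_lit 9122706400], nat_lit 1271250, nat_lit 1271250, nat_lit 1271250, nat_lit 1271250, nat_lit 0, nat_lit 0, [nat_lit 1412500, nat_lit 1271250, nat_lit 1271250], [nat_lit 46, nat_lit 40, nat_lit 80, nat_lit 80, nat_lit 41, nat_lit 401,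 nat_lit 175, nat_lit 10]⟩,
 ⟨nat_lit 3162, nat_lit 3873, ⟨.ofNat (nat_lit 586313), .ofNat (nat_lit 792782), .ofNat (nat_lit 608082), .ofNat (nat_lit 814576), .ofNat (nat_lit 583107), .ofNat (nat_lit 778158), .ofNat (nat_lit 605237), .ofNat (nat_lit 800312)⟩, ⟨.ofNat (nat_lit 0), .ofNat (nat_lit 0), .ofNat (nat_lit 0), .ofNat (nat_lit 0), .ofNat (nat_lit 0), .ofNat (nat_lit 0), .ofNat (nat_lit 0), .ofNat (nat_lit 0)⟩⟩, [⟨nat_lit 13, nat_lit 67, nat_lit 65, nat_lit 100, nat_lit 47436934⟩]⟩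
noncomputable def p018_l97 : Lf2 := ⟨nat_lit 0, nat_lit 10, [nat_lit 0, nat_lit 5, nat_lit 5, nat_lit 20], false, nat_lit 0, nat_lit 0, nat_lit 0, nat_lit 0, ⟨nat_lit 131, nat_lit 869, nat_lit 0, nat_lit 5, nat_lit 169, nat_lit 0, nat_lit 0, nat_lit 0, nat_lit 0, nat_lit 0, nat_lit 0, nat_lit 0, nat_lit 0, nat_lit 0, nat_lit 0, nat_lit 5000000, false, false⟩,
 nat_lit 0, nat_lit 6137, nat_lit 0, nat_lit 0, nat_lit 4602, nat_lit 1273, nat_lit 0, nat_lit 0, nat_lit 0, nat_lit 471, nat_lit 0, nat_lit 0, nat_lit 0, nat_lit 0, nat_lit 0, nat_lit 839000, nat_lit 0, nat_lit 0, [(nat_lit 18, [(nat_lit 1, nat_lit 50), (nat_lit 2, nat_lit 819)])],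
 ⟨p018_k0, nat_lit 0, nat_lit 0, nat_lit 666, nat_lit 0, nat_lit 1198713, [nat_lit 1729927467, nat_lit 1568589334, nat_lit 553809200], [], [nat_lit 22869704652, nat_lit 23732274447, nat_lit 24699741095, nat_lit 25461670371], nat_lit 1271250, nat_lit 1271250, nat_lit 230001, nat_lit 1717500, nat_lit 0, nat_lit 0, [nat_lit 490000, nat_lit 1100000, nat_lit 1442500], [nat_lit 6, nat_lit 40, nat_lit 80, nat_lit 80, nat_lit 3, nat_lit 272, nat_lit 60, nat_lit 11]⟩, ⟨p018_k20, nat_lit 0, nat_lit 0, nat_lit 340, nat_lit 0, nat_lit 0, [nat_lit 818750000, nat_lit 1289302000, nat_lit 1555232000], [], [nat_lit 3691137870, nat_lit 3903699730, nat_lit 3554733476, nat_lit 3810088480], nat_lit 0, nat_lit 0, nat_lit 0, nat_lit 0, nat_lit 0, nat_lit 0, [], [nat_lit 46, nat_lit 40, nat_lit 80, nat_lit 80, nat_lit 41, nat_lit 345, nat_lit 125, nat_lit 9]⟩,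
 ⟨nat_lit 3872, nat_lit 4473, ⟨.ofNat (nat_lit 228056), .ofNat (nat_lit 567977), .ofNat (nat_lit 271153), .ofNat (nat_lit 611083), .ofNat (nat_lit 241882), .ofNat (nat_lit 564520), .ofNat (nat_lit 285433), .ofNat (nat_lit 608080)⟩, ⟨.ofNat (nat_lit 0), .ofNat (nat_lit 0), .ofNat (nat_lit 0), .ofNat (nat_lit 0), .ofNat (nat_lit 0), .ofNat (nat_lit 0), .ofNat (nat_lit 0), .ofNat (nat_lit 0)⟩⟩, []⟩
noncomputable def p018_l98 : Lf2 := ⟨nat_lit 0, nat_lit 10, [nat_lit 0, nat_lit 5, nat_lit 5, nat_lit 20], true, nat_lit 0, nat_lit 0, nat_lit 0, nat_lit 0, ⟨nat_lit 0, nat_lit 1000, nat_lit 0, nat_lit 5, nat_lit 176, nat_lit 0, nat_lit 0, nat_lit 0, nat_lit 0, nat_lit 0, nat_lit 0, nat_lit 0, nat_lit 0, nat_lit 0, nat_lit 0, nat_lit 5000000, false, false⟩,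
 nat_lit 0, nat_lit 4896, nat_lit 0, nat_lit 0, nat_lit 3963, nat_lit 0, nat_lit 295, nat_lit 0, nat_lit 0, nat_lit 0, nat_lit 0, nat_lit 0, nat_lit 0, nat_lit 0, nat_lit 0, nat_lit 400000, nat_lit 0, nat_lit 0, [(nat_lit 21, [(nat_lit 1, nat_lit 1000)])],
 ⟨p018_k7, nat_lit 0, nat_lit 0, nat_lit 677, nat_lit 0, nat_lit 1244779, [nat_lit 1355200000, nat_lit 1492800001, nat_lit 1492000000], [], [nat_lit 22066426713, nat_lit 23537080428, nat_lit 24188662290, nat_lit 24982191100], nat_lit 1271250, nat_lit 1271250, nat_lit 330400, nat_lit 1726500, nat_lit 0, nat_lit 0, [nat_lit 490000, nat_lit 1100000, nat_lit 1442500], [nat_lit 6, nat_lit 40, nat_lit 80, nat_lit 80, nat_lit 3, nat_lit 272, nat_lit 60, nat_lit 10]⟩, C1.Rw.none,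
 ⟨nat_lit 3162, nat_lit 3873, ⟨.ofNat (nat_lit 267606), .ofNat (nat_lit 564520), .ofNat (nat_lit 311135), .ofNat (nat_lit 608082), .ofNat (nat_lit 280451), .ofNat (nat_lit 560952), .ofNat (nat_lit 324704), .ofNat (nat_lit 605237)⟩, ⟨.ofNat (nat_lit 0), .ofNat (nat_lit 0), .ofNat (nat_lit 0), .ofNat (nat_lit 0), .ofNat (nat_lit 0), .ofNat (nat_lit 0), .ofNat (nat_lit 0), .ofNat (nat_lit 0)⟩⟩, []⟩
noncomputable def p018_l99 : Lf2 := ⟨nat_lit 0, nat_lit 10, [nat_lit 0, nat_lit 5, nat_lit 5, nat_lit 20], false, nat_lit 0, nat_lit 0, nat_lit 0, nat_lit 0, ⟨nat_lit 1000, nat_lit 0, nat_lit 0, nat_lit 0, nat_lit 0, nat_lit 0, nat_lit 0, nat_lit 0, nat_lit 0, nat_lit 0, nat_lit 0, nat_lit 0, nat_lit 0, nat_lit 0, nat_lit 0, nat_lit 0, false, false⟩,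
 nat_lit 0, nat_lit 8275, nat_lit 0, nat_lit 0, nat_lit 6206, nat_lit 7278, nat_lit 1253, nat_lit 0, nat_lit 0, nat_lit 1157, nat_lit 0, nat_lit 0, nat_lit 0, nat_lit 0, nat_lit 0, nat_lit 0, nat_lit 0, nat_lit 0, [],
 ⟨p018_k0, nat_lit 0, nat_lit 0, nat_lit 558, nat_lit 0, nat_lit 1113475, [nat_lit 2032000001, nat_lit 4688000000, nat_lit 6250000000], [], [nat_lit 33659957858, nat_lit 34009210630, nat_lit 38036535797, nat_lit 38318260417], nat_lit 1271250, nat_lit 1271250, nat_lit 1271250, nat_lit 1271250, nat_lit 0, nat_lit 0, [nat_lit 490000, nat_lit 1100000, nat_lit 1442500], [nat_lit 6, nat_lit 40, nat_lit 80, nat_lit 80, nat_lit 3, nat_lit 229, nat_lit 0, nat_lit 8]⟩, ⟨p018_k20, nat_lit 0, nat_lit 0, nat_lit 263, nat_lit 0, nat_lit 0, [nat_lit 6250000000, nat_lit 9842000000, nat_lit 11872000000], [], [nat_lit 30251396584, nat_lit 31549775656, nat_lit 39532534031, nat_lit 40328080372],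 nat_lit 0, nat_lit 0, nat_lit 0, nat_lit 0, nat_lit 0, nat_lit 0, [], [nat_lit 46, nat_lit 40, nat_lit 80, nat_lit 80, nat_lit 41, nat_lit 401, nat_lit 175, nat_lit 10]⟩,
 zbF0, []⟩
noncomputable def p018_l100 : Lf2 := ⟨nat_lit 0, nat_lit 10, [nat_lit 0, nat_lit 5, nat_lit 5, nat_lit 20], false, nat_lit 0, nat_lit 0, nat_lit 0, nat_lit 0, ⟨nat_lit 1000, nat_lit 0, nat_lit 0, nat_lit 0, nat_lit 0, nat_lit 0, nat_lit 0, nat_lit 0, nat_lit 0, nat_lit 0, nat_lit 0, nat_lit 0, nat_lit 0, nat_lit 0, nat_lit 0, nat_lit 0, false, false⟩,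
 nat_lit 0, nat_lit 6679, nat_lit 0, nat_lit 0, nat_lit 5206, nat_lit 7630, nat_lit 740, nat_lit 0, nat_lit 0, nat_lit 1106, nat_lit 0, nat_lit 0, nat_lit 0, nat_lit 0, nat_lit 0, nat_lit 0, nat_lit 0, nat_lit 0, [],
 ⟨p018_k6, nat_lit 0, nat_lit 0, nat_lit 567, nat_lit 0, nat_lit 1139650, [nat_lit 2032000001, nat_lit 4688000000, nat_lit 6250000000], [], [nat_lit 30979178739, nat_lit 31355132961, nat_lit 34869506463, nat_lit 35147733408], nat_lit 1271250, nat_lit 1271250, nat_lit 1271250, nat_lit 1271250, nat_lit 0, nat_lit 0, [nat_lit 490000, nat_lit 1100000, nat_lit 1442500], [nat_lit 6, nat_lit 40, nat_lit 80, nat_lit 80, nat_lit 3, nat_lit 232, nat_lit 0, nat_lit 8]⟩, ⟨p018_k20, nat_lit 0, nat_lit 0, nat_lit 259, nat_lit 0, nat_lit 0, [nat_lit 6250000000, nat_lit 9842000000, nat_lit 11872000000], [], [nat_lit 30122273640, nat_lit 31434670760, nat_lit 38900629901, nat_lit 39916918189],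 nat_lit 0, nat_lit 0, nat_lit 0, nat_lit 0, nat_lit 0, nat_lit 0, [], [nat_lit 46, nat_lit 40, nat_lit 80, nat_lit 80, nat_lit 41, nat_lit 401, nat_lit 175, nat_lit 10]⟩,
 zbF0, []⟩
noncomputable def p018_l101 : Lf2 := ⟨nat_lit 0, nat_lit 10, [nat_lit 0, nat_lit 5, nat_lit 5, nat_lit 20], false, nat_lit 0, nat_lit 0, nat_lit 0, nat_lit 0, ⟨nat_lit 1000, nat_lit 0, nat_lit 0, nat_lit 0, nat_lit 0, nat_lit 0, nat_lit 0, nat_lit 0, nat_lit 0, nat_lit 0, nat_lit 0, nat_lit 0, nat_lit 0, nat_lit 0, nat_lit 0, nat_lit 0, false, false⟩,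
 nat_lit 0, nat_lit 5716, nat_lit 0, nat_lit 0, nat_lit 4626, nat_lit 7722, nat_lit 1005, nat_lit 0, nat_lit 0, nat_lit 546, nat_lit 0, nat_lit 0, nat_lit 0, nat_lit 0, nat_lit 0, nat_lit 0, nat_lit 0, nat_lit 0, [],
 ⟨p018_k7, nat_lit 0, nat_lit 0, nat_lit 617, nat_lit 0, nat_lit 1244779, [nat_lit 2032000001, nat_lit 4688000000, nat_lit 6250000000], [], [nat_lit 29901496460, nat_lit 30687450440, nat_lit 33706135077, nat_lit 34311052064], nat_lit 1271250, nat_lit 1271250, nat_lit 1271250, nat_lit 1271250, nat_lit 0, nat_lit 0, [nat_lit 490000, nat_lit 1100000, nat_lit 1442500], [nat_lit 6, nat_lit 40, nat_lit 80, nat_lit 80, nat_lit 3, nat_lit 246, nat_lit 0, nat_lit 8]⟩, ⟨p018_k20, nat_lit 0, nat_lit 0, nat_lit 255, nat_lit 0, nat_lit 0, [nat_lit 6250000000, nat_lit 9842000000, nat_lit 11872000000], [], [nat_lit 32275207416, nat_lit 33591268344, nat_lit 40523796968, nat_lit 41376006490],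 nat_lit 0, nat_lit 0, nat_lit 0, nat_lit 0, nat_lit 0, nat_lit 0, [], [nat_lit 46, nat_lit 40, nat_lit 80, nat_lit 80, nat_lit 41, nat_lit 401, nat_lit 175, nat_lit 10]⟩,
 zbF0, []⟩
noncomputable def p018_l102 : Lf2 := ⟨nat_lit 0, nat_lit 10, [nat_lit 0, nat_lit 5, nat_lit 5, nat_lit 20], false, nat_lit 0, nat_lit 0, nat_lit 0, nat_lit 0, ⟨nat_lit 50, nat_lit 950, nat_lit 0, nat_lit 5, nat_lit 216, nat_lit 0, nat_lit 0, nat_lit 0, nat_lit 0, nat_lit 0, nat_lit 0, nat_lit 0, nat_lit 0, nat_lit 0, nat_lit 0, nat_lit 5000000, false, true⟩,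
 nat_lit 994, nat_lit 3699, nat_lit 0, nat_lit 0, nat_lit 3519, nat_lit 426, nat_lit 19, nat_lit 0, nat_lit 0, nat_lit 29, nat_lit 0, nat_lit 0, nat_lit 0, nat_lit 0, nat_lit 0, nat_lit 693200, nat_lit 0, nat_lit 0, [(nat_lit 18, [(nat_lit 1, nat_lit 428), (nat_lit 2, nat_lit 522)]), (nat_lit 21, [(nat_lit 1, nat_lit 428), (nat_lit 2, nat_lit 522)])],
 ⟨p018_k0, nat_lit 0, nat_lit 0, nat_lit 482, nat_lit 0, nat_lit 759381, [nat_lit 1588375467, nat_lit 1621797334, nat_lit 920372000], [], [nat_lit 24612170085, nat_lit 26445428861, nat_lit 32058706041, nat_lit 32246122452], nat_lit 1271250, nat_lit 1271250, nat_lit 230001, nat_lit 2788500, nat_lit 0, nat_lit 0, [nat_lit 490000, nat_lit 1100000, nat_lit 1442500], [nat_lit 6, nat_lit 40, nat_lit 80, nat_lit 80, nat_lit 3, nat_lit 317, nat_lit 100, nat_lit 12]⟩, ⟨p018_k20, nat_lit 0, nat_lit 0, nat_lit 1028, nat_lit 0, nat_lit 1412037, [nat_lit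 312500000, nat_lit 492100000, nat_lit 593600000], [], [nat_lit 2981395240, nat_lit 2963812212, nat_lit 3107025912, nat_lit 2738357989], nat_lit 1271250, nat_lit 1271250, nat_lit 230001, nat_lit 2788500, nat_lit 0, nat_lit 0, [nat_lit 1412500, nat_lit 1271250, nat_lit 1271250], [nat_lit 46, nat_lit 40, nat_lit 80, nat_lit 80, nat_lit 41, nat_lit 401, nat_lit 175, nat_lit 11]⟩,
 ⟨nat_lit 3162, nat_lit 4473, ⟨.ofNat (nat_lit 227776), .ofNat (nat_lit 812698), .ofNat (nat_lit 270729), .ofNat (nat_lit 855831), .ofNat (nat_lit 255876), .ofNat (nat_lit 780384), .ofNat (nat_lit 300005), .ofNat (nat_lit 824694)⟩, ⟨.ofNat (nat_lit 0), .ofNat (nat_lit 0), .ofNat (nat_lit 0), .ofNat (nat_lit 0), .ofNat (nat_lit 0), .ofNat (nat_lit 0), .ofNat (nat_lit 0), .ofNat (nat_lit 0)⟩⟩, [⟨nat_lit 13, nat_lit 72, nat_lit 63, nat_lit 100, nat_lit 148536033⟩]⟩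
noncomputable def b_N_800_500_0_0 : St := ⟨false, nat_lit 2, nat_lit 2, nat_lit 0, nat_lit 40, nat_lit 320, nat_lit 360, nat_lit 200, nat_lit 240, nat_lit 40, nat_lit 384, nat_lit 0, nat_lit 0, nat_lit 0, nat_lit 0, nat_lit 0, nat_lit 0, nat_lit 0, nat_lit 40, nat_lit 0, nat_lit 0, nat_lit 0, nat_lit 0⟩
theorem d_N_800_500_0_0 (h : EB TB.env) : Dead b_N_800_500_0_0 := chkB_sound0 h (T :=
(.st (nat_lit 0)
(.gv
(.st (nat_lit 1)
(.leaf p018_l65)
(.spl (nat_lit 2) (nat_lit 240)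
(.leaf p018_l66)
(.leaf p018_l67)))
(.leaf p018_l68))
(.gv
(.st (nat_lit 1)
(.spl (nat_lit 2) (nat_lit 240)
(.spl (nat_lit 0) (nat_lit 340)
(.spl (nat_lit 2) (nat_lit 120)
(.spl (nat_lit 2) (nat_lit 80)
(.leaf p018_l69)
(.spl (nat_lit 6) (nat_lit 20)
(.spl (nat_lit 1) (nat_lit 220)
(.leaf p018_l70)
(.leaf p018_l71))
(.spl (nat_lit 0) (nat_lit 330)
(.leaf p018_l72)
(.leaf p018_l73))))
(.spl (nat_lit 0) (nat_lit 330)
(.leaf p018_l74)
(.leaf p018_l75)))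
(.trZ (nat_lit 0) (nat_lit 100) (nat_lit 71) (nat_lit 70) (nat_lit 56) (.spl (nat_lit 7) (nat_lit 600)
(.spl (nat_lit 1) (nat_lit 220)
(.leaf p018_l76)
(.trZ (nat_lit 0) (nat_lit 100) (nat_lit 72) (nat_lit 77) (nat_lit 68) (.leaf p018_l77)))
(.spl (nat_lit 0) (nat_lit 350)
(.spl (nat_lit 1) (nat_lit 220)
(.leaf p018_l78)
(.trZ (nat_lit 0) (nat_lit 100) (nat_lit 72) (nat_lit 77) (nat_lit 68) (.leaf p018_l79)))
(.trZ (nat_lit 0) (nat_lit 100) (nat_lit 66) (nat_lit 75) (nat_lit 64) (.leaf p018_l80))))))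
(.spl (nat_lit 0) (nat_lit 340)
(.spl (nat_lit 0) (nat_lit 330)
(.leaf p018_l81)
(.trX (nat_lit 13) (nat_lit 78) (nat_lit 49) (nat_lit 100) (nat_lit 376) (.leaf p018_l82)))
(.trX (nat_lit 13) (nat_lit 73) (nat_lit 55) (nat_lit 100) (nat_lit 368) (.leaf p018_l83))))
(.spl (nat_lit 2) (nat_lit 240)
(.spl (nat_lit 0) (nat_lit 340)
(.leaf p018_l84)
(.trZ (nat_lit 0) (nat_lit 100) (nat_lit 71) (nat_lit 70) (nat_lit 56) (.spl (nat_lit 0) (nat_lit 350)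
(.leaf p018_l85)
(.trZ (nat_lit 0) (nat_lit 100) (nat_lit 66) (nat_lit 75) (nat_lit 64) (.leaf p018_l86)))))
(.spl (nat_lit 0) (nat_lit 340)
(.spl (nat_lit 1) (nat_lit 220)
(.trX (nat_lit 13) (nat_lit 80) (nat_lit 52) (nat_lit 100) (nat_lit 372) (.spl (nat_lit 0) (nat_lit 330)
(.spl (nat_lit 1) (nat_lit 210)
(.trX (nat_lit 13) (nat_lit 80) (nat_lit 56) (nat_lit 100) (nat_lit 368) (.leaf p018_l87))
(.leaf p018_l88))
(.trX (nat_lit 13) (nat_lit 76) (nat_lit 57) (nat_lit 100) (nat_lit 368) (.spl (nat_lit 2) (nat_lit 320)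
(.leaf p018_l89)
(.spl (nat_lit 0) (nat_lit 335)
(.leaf p018_l90)
(.trX (nat_lit 13) (nat_lit 74) (nat_lit 60) (nat_lit 100) (nat_lit 364) (.leaf p018_l91)))))))
(.spl (nat_lit 0) (nat_lit 330)
(.leaf p018_l92)
(.trX (nat_lit 13) (nat_lit 78) (nat_lit 49) (nat_lit 100) (nat_lit 376) (.leaf p018_l93))))
(.trX (nat_lit 13) (nat_lit 73) (nat_lit 55) (nat_lit 100) (nat_lit 368) (.spl (nat_lit 1) (nat_lit 220)
(.trX (nat_lit 13) (nat_lit 72) (nat_lit 63) (nat_lit 100) (nat_lit 360) (.spl (nat_lit 0) (nat_lit 350)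
(.leaf p018_l94)
(.trX (nat_lit 13) (nat_lit 66) (nat_lit 68) (nat_lit 100) (nat_lit 348) (.leaf p018_l95))))
(.leaf p018_l96))))))
(.st (nat_lit 1)
(.spl (nat_lit 2) (nat_lit 240)
(.spl (nat_lit 0) (nat_lit 340)
(.leaf p018_l97)
(.trZ (nat_lit 0) (nat_lit 100) (nat_lit 71) (nat_lit 70) (nat_lit 56) (.leaf p018_l98)))
(.spl (nat_lit 0) (nat_lit 340)
(.spl (nat_lit 0) (nat_lit 330)
(.leaf p018_l99)
(.trX (nat_lit 13) (nat_lit 78) (nat_lit 49) (nat_lit 100) (nat_lit 376) (.leaf p018_l100)))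
(.trX (nat_lit 13) (nat_lit 73) (nat_lit 55) (nat_lit 100) (nat_lit 368) (.leaf p018_l101))))
(.leaf p018_l102))))) (by decide +kernel)
noncomputable def p018_l103 : Lf2 := ⟨nat_lit 0, nat_lit 10, [nat_lit 0, nat_lit 5, nat_lit 5, nat_lit 20], false, nat_lit 0, nat_lit 0, nat_lit 0, nat_lit 0, ⟨nat_lit 293, nat_lit 0, nat_lit 707, nat_lit 5, nat_lit 217, nat_lit 0, nat_lit 0, nat_lit 0, nat_lit 0, nat_lit 215, nat_lit 440398, nat_lit 200, nat_lit 51807370, nat_lit 0, nat_lit 0, nat_lit 2676630, false, true⟩,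
 nat_lit 0, nat_lit 0, nat_lit 0, nat_lit 0, nat_lit 3600, nat_lit 2361, nat_lit 0, nat_lit 0, nat_lit 0, nat_lit 0, nat_lit 0, nat_lit 0, nat_lit 0, nat_lit 0, nat_lit 0, nat_lit 176750, nat_lit 0, nat_lit 0, [(nat_lit 18, [(nat_lit 4, nat_lit 707)])],
 ⟨p018_k0, nat_lit 0, nat_lit 0, nat_lit 171, nat_lit 0, nat_lit 0, [nat_lit 1648523200, nat_lit 1259615600, nat_lit 1195232800], [], [nat_lit 19427122400, nat_lit 21050968200, nat_lit 30202751200, nat_lit 31337975681], nat_lit 0, nat_lit 0, nat_lit 0, nat_lit 0, nat_lit 0, nat_lit 0, [], [nat_lit 6, nat_lit 40, nat_lit 80, nat_lit 80, nat_lit 3, nat_lit 317, nat_lit 100, nat_lit 12]⟩, ⟨p018_k20, nat_lit 0, nat_lit 0, nat_lit 340, nat_lit 0, nat_lit 0, [nat_lit 1831250000, nat_lit 2883706000, nat_lit 3478496000], [], [nat_lit 14065373740, nat_lit 14328210840, nat_lit 15082951971, nat_lit 15133241088], nat_lit 0, nat_lit 0, nat_lit 0, nat_lit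 0, nat_lit 0, nat_lit 0, [], [nat_lit 46, nat_lit 40, nat_lit 80, nat_lit 80, nat_lit 41, nat_lit 401, nat_lit 175, nat_lit 11]⟩,
 ⟨nat_lit 3872, nat_lit 4473, ⟨.ofNat (nat_lit 228056), .ofNat (nat_lit 812698), .ofNat (nat_lit 271153), .ofNat (nat_lit 855824), .ofNat (nat_lit 241882), .ofNat (nat_lit 796798), .ofNat (nat_lit 285433), .ofNat (nat_lit 840378)⟩, ⟨.ofNat (nat_lit 0), .ofNat (nat_lit 0), .ofNat (nat_lit 0), .ofNat (nat_lit 0), .ofNat (nat_lit 0), .ofNat (nat_lit 0), .ofNat (nat_lit 0), .ofNat (nat_lit 0)⟩⟩, []⟩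
noncomputable def p018_l104 : Lf2 := ⟨nat_lit 0, nat_lit 10, [nat_lit 0, nat_lit 5, nat_lit 5, nat_lit 20], false, nat_lit 0, nat_lit 0, nat_lit 0, nat_lit 0, ⟨nat_lit 278, nat_lit 0, nat_lit 722, nat_lit 5, nat_lit 216, nat_lit 0, nat_lit 0, nat_lit 0, nat_lit 0, nat_lit 215, nat_lit 357902, nat_lit 200, nat_lit 51842326, nat_lit 0, nat_lit 0, nat_lit 2673426, false, true⟩,
 nat_lit 0, nat_lit 0, nat_lit 0, nat_lit 0, nat_lit 3348, nat_lit 3667, nat_lit 0, nat_lit 0, nat_lit 0, nat_lit 0, nat_lit 0, nat_lit 0, nat_lit 0, nat_lit 0, nat_lit 0, nat_lit 180500, nat_lit 0, nat_lit 0, [(nat_lit 21, [(nat_lit 4, nat_lit 722)])],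
 ⟨p018_k7, nat_lit 0, nat_lit 0, nat_lit 174, nat_lit 0, nat_lit 0, [nat_lit 1620748801, nat_lit 881038401, nat_lit 1059108800], [], [nat_lit 20325579639, nat_lit 21841928130, nat_lit 29593824637, nat_lit 30755221450], nat_lit 0, nat_lit 0, nat_lit 0, nat_lit 0, nat_lit 0, nat_lit 0, [], [nat_lit 6, nat_lit 40, nat_lit 80, nat_lit 80, nat_lit 3, nat_lit 317, nat_lit 100, nat_lit 12]⟩, ⟨p018_k20, nat_lit 0, nat_lit 0, nat_lit 321, nat_lit 0, nat_lit 0, [nat_lit 1737500000, nat_lit 2736076000, nat_lit 3300416000], [], [nat_lit 12920027094, nat_lit 13283042028, nat_lit 13521360157, nat_lit 13485933066], nat_lit 0, nat_lit 0, nat_lit 0, nat_lit 0, nat_lit 0, nat_lit 0, [], [nat_lit 46, nat_lit 40, nat_lit 80, nat_lit 80, nat_lit 41, nat_lit 401, nat_lit 175, nat_lit 11]⟩,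
 ⟨nat_lit 3162, nat_lit 3873, ⟨.ofNat (nat_lit 267606), .ofNat (nat_lit 770989), .ofNat (nat_lit 311135), .ofNat (nat_lit 814576), .ofNat (nat_lit 280451), .ofNat (nat_lit 756003), .ofNat (nat_lit 324704), .ofNat (nat_lit 800312)⟩, ⟨.ofNat (nat_lit 0), .ofNat (nat_lit 0), .ofNat (nat_lit 0), .ofNat (nat_lit 0), .ofNat (nat_lit 0), .ofNat (nat_lit 0), .ofNat (nat_lit 0), .ofNat (nat_lit 0)⟩⟩, []⟩
noncomputable def p018_l105 : Lf2 := ⟨nat_lit 0, nat_lit 10, [nat_lit 0, nat_lit 5, nat_lit 5, nat_lit 20], true, nat_lit 0, nat_lit 0, nat_lit 0, nat_lit 0, ⟨nat_lit 0, nat_lit 179, nat_lit 821, nat_lit 5, nat_lit 170, nat_lit 0, nat_lit 0, nat_lit 0, nat_lit 0, nat_lit 215, nat_lit 817, nat_lit 208, nat_lit 56752254, nat_lit 10247746, nat_lit 0, nat_lit 2138971, false, false⟩,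
 nat_lit 0, nat_lit 0, nat_lit 0, nat_lit 0, nat_lit 3099, nat_lit 0, nat_lit 0, nat_lit 0, nat_lit 0, nat_lit 0, nat_lit 0, nat_lit 0, nat_lit 0, nat_lit 0, nat_lit 14, nat_lit 250000, nat_lit 0, nat_lit 0, [(nat_lit 18, [(nat_lit 0, nat_lit 179), (nat_lit 4, nat_lit 821)]), (nat_lit 21, [(nat_lit 0, nat_lit 179), (nat_lit 4, nat_lit 821)])],
 ⟨p018_k8, nat_lit 0, nat_lit 0, nat_lit 203, nat_lit 0, nat_lit 0, [nat_lit 1613915200, nat_lit 26400], [], [nat_lit 17975025254, nat_lit 21785201422, nat_lit 20664136528, nat_lit 23279596492], nat_lit 0, nat_lit 0, nat_lit 0, nat_lit 0, nat_lit 0, nat_lit 0, [], [nat_lit 69, nat_lit 40, nat_lit 80, nat_lit 80, nat_lit 64, nat_lit 272, nat_lit 60, nat_lit 11]⟩, C1.Rw.none,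
 ⟨nat_lit 3162, nat_lit 4473, ⟨.ofNat (nat_lit 227776), .ofNat (nat_lit 567977), .ofNat (nat_lit 270729), .ofNat (nat_lit 611007), .ofNat (nat_lit 255876), .ofNat (nat_lit 560952), .ofNat (nat_lit 300005), .ofNat (nat_lit 605159)⟩, ⟨.ofNat (nat_lit 0), .ofNat (nat_lit 0), .ofNat (nat_lit 0), .ofNat (nat_lit 0), .ofNat (nat_lit 0), .ofNat (nat_lit 0), .ofNat (nat_lit 0), .ofNat (nat_lit 0)⟩⟩, []⟩
noncomputable def p018_l106 : Lf2 := ⟨nat_lit 0, nat_lit 10, [nat_lit 0, nat_lit 5, nat_lit 5, nat_lit 20], true, nat_lit 0, nat_lit 0, nat_lit 0, nat_lit 0, ⟨nat_lit 0, nat_lit 1000, nat_lit 0, nat_lit 6, nat_lit 260, nat_lit 0, nat_lit 0, nat_lit 0, nat_lit 0, nat_lit 0, nat_lit 0, nat_lit 0, nat_lit 47067364, nat_lit 19932636, nat_lit 0, nat_lit 3043663, true, true⟩,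
 nat_lit 0, nat_lit 0, nat_lit 0, nat_lit 0, nat_lit 3321, nat_lit 0, nat_lit 0, nat_lit 0, nat_lit 0, nat_lit 0, nat_lit 0, nat_lit 0, nat_lit 0, nat_lit 0, nat_lit 0, nat_lit 250000, nat_lit 0, nat_lit 0, [(nat_lit 18, [(nat_lit 0, nat_lit 1000)]), (nat_lit 21, [(nat_lit 0, nat_lit 1000)])],
 ⟨p018_k8, nat_lit 0, nat_lit 0, nat_lit 140, nat_lit 0, nat_lit 0, [nat_lit 1558400000, nat_lit 2562000000], [], [nat_lit 23310839960, nat_lit 25652722412, nat_lit 26760903008, nat_lit 28824310280], nat_lit 0, nat_lit 0, nat_lit 0, nat_lit 0, nat_lit 0, nat_lit 0, [], [nat_lit 69, nat_lit 40, nat_lit 80, nat_lit 80, nat_lit 64, nat_lit 203, nat_lit 0, nat_lit 7]⟩, C1.Rw.none,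
 ⟨nat_lit 3162, nat_lit 4473, ⟨.ofNat (nat_lit 567977), .ofNat (nat_lit 703933), .ofNat (nat_lit 611007), .ofNat (nat_lit 747055), .ofNat (nat_lit 560952), .ofNat (nat_lit 682859), .ofNat (nat_lit 605159), .ofNat (nat_lit 727157)⟩, ⟨.ofNat (nat_lit 0), .ofNat (nat_lit 0), .ofNat (nat_lit 0), .ofNat (nat_lit 0), .ofNat (nat_lit 0), .ofNat (nat_lit 0), .ofNat (nat_lit 0), .ofNat (nat_lit 0)⟩⟩, []⟩
noncomputable def p018_l107 : Lf2 := ⟨nat_lit 0, nat_lit 10, [nat_lit 0, nat_lit 5, nat_lit 5, nat_lit 20], true, nat_lit 0, nat_lit 0, nat_lit 0, nat_lit 0, ⟨nat_lit 0, nat_lit 1000, nat_lit 0, nat_lit 8, nat_lit 298, nat_lit 0, nat_lit 0, nat_lit 0, nat_lit 0, nat_lit 0, nat_lit 0, nat_lit 0, nat_lit 43035409, nat_lit 23964591, nat_lit 0, nat_lit 3260358, true, true⟩,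
 nat_lit 0, nat_lit 0, nat_lit 0, nat_lit 0, nat_lit 4169, nat_lit 0, nat_lit 0, nat_lit 0, nat_lit 0, nat_lit 0, nat_lit 0, nat_lit 0, nat_lit 0, nat_lit 0, nat_lit 0, nat_lit 250000, nat_lit 0, nat_lit 0, [(nat_lit 18, [(nat_lit 0, nat_lit 1000)]), (nat_lit 21, [(nat_lit 0, nat_lit 1000)])],
 ⟨p018_k8, nat_lit 0, nat_lit 0, nat_lit 172, nat_lit 0, nat_lit 0, [nat_lit 1558400000, nat_lit 2562000000], [], [nat_lit 28146904052, nat_lit 30100910028, nat_lit 30784577184, nat_lit 33307937512], nat_lit 0, nat_lit 0, nat_lit 0, nat_lit 0, nat_lit 0, nat_lit 0, [], [nat_lit 69, nat_lit 40, nat_lit 80, nat_lit 80, nat_lit 64, nat_lit 203, nat_lit 0, nat_lit 6]⟩, C1.Rw.none,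
 ⟨nat_lit 3162, nat_lit 4473, ⟨.ofNat (nat_lit 703933), .ofNat (nat_lit 792305), .ofNat (nat_lit 725499), .ofNat (nat_lit 813871), .ofNat (nat_lit 682859), .ofNat (nat_lit 762098), .ofNat (nat_lit 705013), .ofNat (nat_lit 784253)⟩, ⟨.ofNat (nat_lit 0), .ofNat (nat_lit 0), .ofNat (nat_lit 0), .ofNat (nat_lit 0), .ofNat (nat_lit 0), .ofNat (nat_lit 0), .ofNat (nat_lit 0), .ofNat (nat_lit 0)⟩⟩, [⟨nat_lit 13, nat_lit 80, nat_lit 52, nat_lit 100, nat_lit 249810219⟩]⟩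
noncomputable def p018_l108 : Lf2 := ⟨nat_lit 0, nat_lit 10, [nat_lit 0, nat_lit 5, nat_lit 5, nat_lit 20], false, nat_lit 0, nat_lit 0, nat_lit 0, nat_lit 0, ⟨nat_lit 21, nat_lit 979, nat_lit 0, nat_lit 8, nat_lit 311, nat_lit 0, nat_lit 0, nat_lit 0, nat_lit 0, nat_lit 0, nat_lit 0, nat_lit 0, nat_lit 41747015, nat_lit 25252985, nat_lit 0, nat_lit 3312655, true, true⟩,
 nat_lit 0, nat_lit 0, nat_lit 412, nat_lit 0, nat_lit 3619, nat_lit 196, nat_lit 0, nat_lit 0, nat_lit 0, nat_lit 18, nat_lit 0, nat_lit 0, nat_lit 0, nat_lit 0, nat_lit 0, nat_lit 244750, nat_lit 0, nat_lit 0, [(nat_lit 18, [(nat_lit 0, nat_lit 979)]), (nat_lit 21, [(nat_lit 0, nat_lit 979)])],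
 ⟨p018_k0, nat_lit 0, nat_lit 0, nat_lit 175, nat_lit 0, nat_lit 0, [nat_lit 1568345600, nat_lit 2220920000, nat_lit 2639448000], [], [nat_lit 27646689740, nat_lit 29543843840, nat_lit 30828788358, nat_lit 32529419391], nat_lit 0, nat_lit 0, nat_lit 0, nat_lit 0, nat_lit 0, nat_lit 0, [], [nat_lit 6, nat_lit 40, nat_lit 80, nat_lit 80, nat_lit 3, nat_lit 203, nat_lit 0, nat_lit 6]⟩, ⟨p018_k21, nat_lit 0, nat_lit 0, nat_lit 1294, nat_lit 0, nat_lit 2300618, [nat_lit 131250000, nat_lit 206682000, nat_lit 249312000], [], [nat_lit 875736392, nat_lit 870137204, nat_lit 891803538, nat_lit 888795072], nat_lit 1271250, nat_lit 1271250, nat_lit 1271250, nat_lit 1271250, nat_lit 0, nat_lit 0, [nat_lit 1412500, nat_lit 1271250, nat_lit 1271250], [nat_lit 46, nat_lit 40, nat_lit 80, nat_lit 80, nat_lit 41, nat_lit 402, nat_lit 60, nat_lit 10]⟩,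
 ⟨nat_lit 3162, nat_lit 4473, ⟨.ofNat (nat_lit 725499), .ofNat (nat_lit 834264), .ofNat (nat_lit 747055), .ofNat (nat_lit 855831), .ofNat (nat_lit 705013), .ofNat (nat_lit 802539), .ofNat (nat_lit 727157), .ofNat (nat_lit 824694)⟩, ⟨.ofNat (nat_lit 0), .ofNat (nat_lit 0), .ofNat (nat_lit 0), .ofNat (nat_lit 0), .ofNat (nat_lit 0), .ofNat (nat_lit 0), .ofNat (nat_lit 0), .ofNat (nat_lit 0)⟩⟩, [⟨nat_lit 13, nat_lit 82, nat_lit 44, nat_lit 100, nat_lit 225924742⟩]⟩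
noncomputable def p018_l109 : Lf2 := ⟨nat_lit 0, nat_lit 10, [nat_lit 0, nat_lit 5, nat_lit 5, nat_lit 20], true, nat_lit 0, nat_lit 0, nat_lit 0, nat_lit 0, ⟨nat_lit 0, nat_lit 1000, nat_lit 0, nat_lit 5, nat_lit 216, nat_lit 0, nat_lit 0, nat_lit 0, nat_lit 0, nat_lit 0, nat_lit 0, nat_lit 0, nat_lit 0, nat_lit 0, nat_lit 0, nat_lit 5000000, false, true⟩,
 nat_lit 0, nat_lit 0, nat_lit 0, nat_lit 0, nat_lit 4063, nat_lit 0, nat_lit 0, nat_lit 0, nat_lit 0, nat_lit 0, nat_lit 0, nat_lit 0, nat_lit 0, nat_lit 0, nat_lit 0, nat_lit 250000, nat_lit 0, nat_lit 0, [(nat_lit 18, [(nat_lit 0, nat_lit 1000)]), (nat_lit 21, [(nat_lit 0, nat_lit 1000)])],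
 ⟨p018_k8, nat_lit 0, nat_lit 0, nat_lit 203, nat_lit 0, nat_lit 0, [nat_lit 1558400000, nat_lit 2562000000], [], [nat_lit 22933158858, nat_lit 25980156008, nat_lit 31429036147, nat_lit 33818499257], nat_lit 0, nat_lit 0, nat_lit 0, nat_lit 0, nat_lit 0, nat_lit 0, [], [nat_lit 69, nat_lit 40, nat_lit 80, nat_lit 80, nat_lit 64, nat_lit 317, nat_lit 100, nat_lit 12]⟩, C1.Rw.none,
 ⟨nat_lit 3162, nat_lit 4473, ⟨.ofNat (nat_lit 227776), .ofNat (nat_lit 812698), .ofNat (nat_lit 270729), .ofNat (nat_lit 855831), .ofNat (nat_lit 255876), .ofNat (nat_lit 780384), .ofNat (nat_lit 300005), .ofNat (nat_lit 824694)⟩, ⟨.ofNat (nat_lit 0), .ofNat (nat_lit 0), .ofNat (nat_lit 0), .ofNat (nat_lit 0), .ofNat (nat_lit 0), .ofNat (nat_lit 0), .ofNat (nat_lit 0), .ofNat (nat_lit 0)⟩⟩, [⟨nat_lit 13, nat_lit 82, nat_lit 44, nat_lit 100, nat_lit 206416116⟩]⟩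
noncomputable def p018_l110 : Lf2 := ⟨nat_lit 0, nat_lit 10, [nat_lit 0, nat_lit 5, nat_lit 5, nat_lit 20], true, nat_lit 0, nat_lit 0, nat_lit 0, nat_lit 0, ⟨nat_lit 0, nat_lit 0, nat_lit 1000, nat_lit 5, nat_lit 116, nat_lit 0, nat_lit 0, nat_lit 0, nat_lit 0, nat_lit 215, nat_lit 126150, nat_lit 302, nat_lit 61810354, nat_lit 0, nat_lit 0, nat_lit 1362571, false, false⟩,
 nat_lit 0, nat_lit 3727, nat_lit 0, nat_lit 0, nat_lit 2795, nat_lit 0, nat_lit 0, nat_lit 0, nat_lit 0, nat_lit 0, nat_lit 0, nat_lit 0, nat_lit 0, nat_lit 0, nat_lit 76, nat_lit 400000, nat_lit 0, nat_lit 0, [(nat_lit 18, [(nat_lit 5, nat_lit 1000)])],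
 ⟨p018_k8, nat_lit 0, nat_lit 0, nat_lit 339, nat_lit 0, nat_lit 471322, [nat_lit 1693000001, nat_lit 251500000], [], [nat_lit 17012370333, nat_lit 18900014640, nat_lit 16826375703, nat_lit 18033313694], nat_lit 1271250, nat_lit 1271250, nat_lit 230001, nat_lit 490000, nat_lit 0, nat_lit 0, [nat_lit 490000, nat_lit 1427500], [nat_lit 69, nat_lit 40, nat_lit 80, nat_lit 80, nat_lit 64, nat_lit 226, nat_lit 20, nat_lit 9]⟩, C1.Rw.none,
 ⟨nat_lit 3872, nat_lit 4473, ⟨.ofNat (nat_lit 228056), .ofNat (nat_lit 296041), .ofNat (nat_lit 271153), .ofNat (nat_lit 339140), .ofNat (nat_lit 241882), .ofNat (nat_lit 306411), .ofNat (nat_lit 285433), .ofNat (nat_lit 349963)⟩, ⟨.ofNat (nat_lit 0), .ofNat (nat_lit 0), .ofNat (nat_lit 0), .ofNat (nat_lit 0), .ofNat (nat_lit 0), .ofNat (nat_lit 0), .ofNat (nat_lit 0), .ofNat (nat_lit 0)⟩⟩, [⟨nat_lit 0, nat_lit 100, nat_lit 76, nat_lit 73, nat_lit 239153070⟩]⟩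
noncomputable def p018_l111 : Lf2 := ⟨nat_lit 0, nat_lit 10, [nat_lit 0, nat_lit 5, nat_lit 5, nat_lit 20], true, nat_lit 0, nat_lit 0, nat_lit 0, nat_lit 0, ⟨nat_lit 0, nat_lit 0, nat_lit 1000, nat_lit 5, nat_lit 142, nat_lit 0, nat_lit 0, nat_lit 0, nat_lit 0, nat_lit 215, nat_lit 187267, nat_lit 321, nat_lit 59545672, nat_lit 0, nat_lit 0, nat_lit 1745691, false, false⟩,
 nat_lit 0, nat_lit 3907, nat_lit 0, nat_lit 0, nat_lit 2930, nat_lit 0, nat_lit 0, nat_lit 0, nat_lit 0, nat_lit 0, nat_lit 0, nat_lit 0, nat_lit 0, nat_lit 0, nat_lit 76, nat_lit 400000, nat_lit 0, nat_lit 0, [(nat_lit 18, [(nat_lit 5, nat_lit 1000)])],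
 ⟨p018_k0, nat_lit 0, nat_lit 0, nat_lit 427, nat_lit 0, nat_lit 717739, [nat_lit 1536800000, nat_lit 802000001, nat_lit 14800000], [], [nat_lit 16277208920, nat_lit 16854917170, nat_lit 16914430340, nat_lit 17473999426], nat_lit 1271250, nat_lit 1271250, nat_lit 490000, nat_lit 780000, nat_lit 0, nat_lit 0, [nat_lit 490000, nat_lit 1100000, nat_lit 1442500], [nat_lit 6, nat_lit 40, nat_lit 80, nat_lit 80, nat_lit 3, nat_lit 238, nat_lit 30, nat_lit 9]⟩, C1.Rw.none,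
 ⟨nat_lit 4183, nat_lit 4473, ⟨.ofNat (nat_lit 296062), .ofNat (nat_lit 364041), .ofNat (nat_lit 339187), .ofNat (nat_lit 407167), .ofNat (nat_lit 301229), .ofNat (nat_lit 367486), .ofNat (nat_lit 344555), .ofNat (nat_lit 410812)⟩, ⟨.ofNat (nat_lit 0), .ofNat (nat_lit 0), .ofNat (nat_lit 0), .ofNat (nat_lit 0), .ofNat (nat_lit 0), .ofNat (nat_lit 0), .ofNat (nat_lit 0), .ofNat (nat_lit 0)⟩⟩, []⟩
noncomputable def p018_l112 : Lf2 := ⟨nat_lit 0, nat_lit 10, [nat_lit 0, nat_lit 5, nat_lit 5, nat_lit 20], false, nat_lit 0, nat_lit 0, nat_lit 0, nat_lit 0, ⟨nat_lit 191, nat_lit 0, nat_lit 809, nat_lit 5, nat_lit 143, nat_lit 0, nat_lit 0, nat_lit 0, nat_lit 0, nat_lit 215, nat_lit 190817, nat_lit 322, nat_lit 59379274, nat_lit 0, nat_lit 0, nat_lit 1771339, false, false⟩,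
 nat_lit 0, nat_lit 4425, nat_lit 0, nat_lit 0, nat_lit 3449, nat_lit 1771, nat_lit 104, nat_lit 0, nat_lit 0, nat_lit 0, nat_lit 0, nat_lit 0, nat_lit 0, nat_lit 0, nat_lit 2, nat_lit 323600, nat_lit 0, nat_lit 0, [(nat_lit 18, [(nat_lit 5, nat_lit 809)])],
 ⟨p018_k6, nat_lit 0, nat_lit 0, nat_lit 450, nat_lit 0, nat_lit 767585, [nat_lit 1155511201, nat_lit 592482001, nat_lit 16043200], [], [nat_lit 18441838769, nat_lit 18885693336, nat_lit 18860865721, nat_lit 19392516794], nat_lit 1271250, nat_lit 1271250, nat_lit 490000, nat_lit 780000, nat_lit 0, nat_lit 0, [nat_lit 490000, nat_lit 1100000, nat_lit 1442500], [nat_lit 6, nat_lit 40, nat_lit 80, nat_lit 80, nat_lit 3, nat_lit 238, nat_lit 30, nat_lit 9]⟩, ⟨p018_k20, nat_lit 0, nat_lit 0, nat_lit 234, nat_lit 0, nat_lit 0, [nat_lit 1193750000, nat_lit 1879822000, nat_lit 2267552000], [], [nat_lit 5923589964, nat_lit 6316751272, nat_lit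 5869333774, nat_lit 6236023682], nat_lit 0, nat_lit 0, nat_lit 0, nat_lit 0, nat_lit 0, nat_lit 0, [], [nat_lit 46, nat_lit 40, nat_lit 80, nat_lit 80, nat_lit 41, nat_lit 317, nat_lit 100, nat_lit 9]⟩,
 ⟨nat_lit 3872, nat_lit 4184, ⟨.ofNat (nat_lit 301224), .ofNat (nat_lit 367482), .ofNat (nat_lit 344547), .ofNat (nat_lit 410806), .ofNat (nat_lit 306426), .ofNat (nat_lit 370950), .ofNat (nat_lit 350002), .ofNat (nat_lit 414527)⟩, ⟨.ofNat (nat_lit 0), .ofNat (nat_lit 0), .ofNat (nat_lit 0), .ofNat (nat_lit 0), .ofNat (nat_lit 0), .ofNat (nat_lit 0), .ofNat (nat_lit 0), .ofNat (nat_lit 0)⟩⟩, [⟨nat_lit 0, nat_lit 100, nat_lit 73, nat_lit 85, nat_lit 161667499⟩]⟩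
noncomputable def p018_l113 : Lf2 := ⟨nat_lit 0, nat_lit 10, [nat_lit 0, nat_lit 5, nat_lit 5, nat_lit 20], false, nat_lit 0, nat_lit 0, nat_lit 0, nat_lit 0, ⟨nat_lit 352, nat_lit 0, nat_lit 648, nat_lit 5, nat_lit 195, nat_lit 0, nat_lit 0, nat_lit 0, nat_lit 0, nat_lit 215, nat_lit 817, nat_lit 208, nat_lit 54090611, nat_lit 0, nat_lit 0, nat_lit 2450409, false, false⟩,
 nat_lit 0, nat_lit 5166, nat_lit 0, nat_lit 0, nat_lit 3874, nat_lit 3284, nat_lit 0, nat_lit 0, nat_lit 0, nat_lit 0, nat_lit 0, nat_lit 0, nat_lit 0, nat_lit 0, nat_lit 17, nat_lit 648000, nat_lit 0, nat_lit 0, [(nat_lit 18, [(nat_lit 6, nat_lit 648)])],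
 ⟨p018_k0, nat_lit 0, nat_lit 0, nat_lit 452, nat_lit 0, nat_lit 807980, [nat_lit 1537971200, nat_lit 1118828801, nat_lit 12281600], [], [nat_lit 19027775537, nat_lit 19917799664, nat_lit 21375105178, nat_lit 23040044356], nat_lit 1271250, nat_lit 1271250, nat_lit 780000, nat_lit 1762500, nat_lit 0, nat_lit 0, [nat_lit 490000, nat_lit 1100000, nat_lit 1442500], [nat_lit 6, nat_lit 40, nat_lit 80, nat_lit 80, nat_lit 3, nat_lit 272, nat_lit 60, nat_lit 10]⟩, ⟨p018_k20, nat_lit 0, nat_lit 0, nat_lit 210, nat_lit 0, nat_lit 0, [nat_lit 2200000000, nat_lit 3464384000, nat_lit 4178944000], [], [nat_lit 10799139776, nat_lit 11478375056, nat_lit 11688557440, nat_lit 12343636304], nat_lit 0, nat_lit 0, nat_lit 0, nat_lit 0, nat_lit 0, nat_lit 0, [], [nat_lit 46, nat_lit 40, nat_lit 80, nat_lit 80, nat_lit 41, nat_lit 345, nat_lit 125, nat_lit 9]⟩,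
 ⟨nat_lit 3872, nat_lit 4473, ⟨.ofNat (nat_lit 364028), .ofNat (nat_lit 567977), .ofNat (nat_lit 407125), .ofNat (nat_lit 611083), .ofNat (nat_lit 370941), .ofNat (nat_lit 564520), .ofNat (nat_lit 414492), .ofNat (nat_lit 608080)⟩, ⟨.ofNat (nat_lit 0), .ofNat (nat_lit 0), .ofNat (nat_lit 0), .ofNat (nat_lit 0), .ofNat (nat_lit 0), .ofNat (nat_lit 0), .ofNat (nat_lit 0), .ofNat (nat_lit 0)⟩⟩, []⟩
noncomputable def p018_l114 : Lf2 := ⟨nat_lit 0, nat_lit 10, [nat_lit 0, nat_lit 5, nat_lit 5, nat_lit 20], false, nat_lit 0, nat_lit 0, nat_lit 0, nat_lit 0, ⟨nat_lit 481, nat_lit 0, nat_lit 519, nat_lit 5, nat_lit 171, nat_lit 0, nat_lit 0, nat_lit 0, nat_lit 0, nat_lit 215, nat_lit 1050, nat_lit 217, nat_lit 56619111, nat_lit 0, nat_lit 0, nat_lit 2155902, false, false⟩,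
 nat_lit 0, nat_lit 4104, nat_lit 0, nat_lit 0, nat_lit 3321, nat_lit 4510, nat_lit 305, nat_lit 0, nat_lit 0, nat_lit 0, nat_lit 0, nat_lit 0, nat_lit 0, nat_lit 0, nat_lit 0, nat_lit 519000, nat_lit 0, nat_lit 0, [(nat_lit 21, [(nat_lit 6, nat_lit 519)])],
 ⟨p018_k7, nat_lit 0, nat_lit 0, nat_lit 461, nat_lit 0, nat_lit 742037, [nat_lit 1370586400, nat_lit 851552001, nat_lit 816900400], [], [nat_lit 20112343989, nat_lit 20701265109, nat_lit 23548754400, nat_lit 24081526452], nat_lit 1271250, nat_lit 1271250, nat_lit 330400, nat_lit 1726500, nat_lit 0, nat_lit 0, [nat_lit 490000, nat_lit 1100000, nat_lit 1442500], [nat_lit 6, nat_lit 40, nat_lit 80, nat_lit 80, nat_lit 3, nat_lit 272, nat_lit 60, nat_lit 10]⟩, ⟨p018_k20, nat_lit 0, nat_lit 0, nat_lit 268, nat_lit 0, nat_lit 0, [nat_lit 3006250000, nat_lit 4734002000, nat_lit 5710432000], [], [nat_lit 15806763601, nat_lit 16454944868, nat_lit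 15976067952, nat_lit 16424535176], nat_lit 0, nat_lit 0, nat_lit 0, nat_lit 0, nat_lit 0, nat_lit 0, [], [nat_lit 46, nat_lit 40, nat_lit 80, nat_lit 80, nat_lit 41, nat_lit 345, nat_lit 125, nat_lit 9]⟩,
 ⟨nat_lit 3535, nat_lit 3873, ⟨.ofNat (nat_lit 267701), .ofNat (nat_lit 564520), .ofNat (nat_lit 289488), .ofNat (nat_lit 586313), .ofNat (nat_lit 274037), .ofNat (nat_lit 562760), .ofNat (nat_lit 295983), .ofNat (nat_lit 584712)⟩, ⟨.ofNat (nat_lit 0), .ofNat (nat_lit 0), .ofNat (nat_lit 0), .ofNat (nat_lit 0), .ofNat (nat_lit 0), .ofNat (nat_lit 0), .ofNat (nat_lit 0), .ofNat (nat_lit 0)⟩⟩, [⟨nat_lit 0, nat_lit 100, nat_lit 69, nat_lit 76, nat_lit 262349698⟩]⟩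
noncomputable def p018_l115 : Lf2 := ⟨nat_lit 0, nat_lit 10, [nat_lit 0, nat_lit 5, nat_lit 5, nat_lit 20], false, nat_lit 0, nat_lit 0, nat_lit 0, nat_lit 0, ⟨nat_lit 609, nat_lit 0, nat_lit 391, nat_lit 5, nat_lit 184, nat_lit 0, nat_lit 0, nat_lit 0, nat_lit 0, nat_lit 215, nat_lit 600, nat_lit 209, nat_lit 55315373, nat_lit 0, nat_lit 0, nat_lit 2313952, false, false⟩,
 nat_lit 0, nat_lit 4778, nat_lit 0, nat_lit 0, nat_lit 3867, nat_lit 5679, nat_lit 344, nat_lit 0, nat_lit 0, nat_lit 540, nat_lit 0, nat_lit 0, nat_lit 0, nat_lit 0, nat_lit 0, nat_lit 391000, nat_lit 0, nat_lit 0, [(nat_lit 21, [(nat_lit 6, nat_lit 391)])],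
 ⟨p018_k7, nat_lit 0, nat_lit 0, nat_lit 478, nat_lit 0, nat_lit 813786, [nat_lit 1533709600, nat_lit 1797728001, nat_lit 2156855600], [], [nat_lit 21029796709, nat_lit 21498129446, nat_lit 23864401589, nat_lit 24346337871], nat_lit 1271250, nat_lit 1271250, nat_lit 408851, nat_lit 1733250, nat_lit 0, nat_lit 0, [nat_lit 490000, nat_lit 1100000, nat_lit 1442500], [nat_lit 6, nat_lit 40, nat_lit 80, nat_lit 80, nat_lit 3, nat_lit 272, nat_lit 60, nat_lit 10]⟩, ⟨p018_k21, nat_lit 0, nat_lit 0, nat_lit 254, nat_lit 0, nat_lit 0, [nat_lit 3806250000, nat_lit 5993778000, nat_lit 7230048000], [], [nat_lit 17224384661, nat_lit 18039382197, nat_lit 17938449294, nat_lit 18505022904], nat_lit 0, nat_lit 0, nat_lit 0, nat_lit 0, nat_lit 0, nat_lit 0, [], [nat_lit 46, nat_lit 40, nat_lit 80, nat_lit 80, nat_lit 41, nat_lit 345, nat_lit 125, nat_lit 9]⟩,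
 ⟨nat_lit 3535, nat_lit 3873, ⟨.ofNat (nat_lit 308846), .ofNat (nat_lit 586313), .ofNat (nat_lit 330633), .ofNat (nat_lit 608101), .ofNat (nat_lit 314814), .ofNat (nat_lit 584712), .ofNat (nat_lit 336760), .ofNat (nat_lit 606659)⟩, ⟨.ofNat (nat_lit 0), .ofNat (nat_lit 0), .ofNat (nat_lit 0), .ofNat (nat_lit 0), .ofNat (nat_lit 0), .ofNat (nat_lit 0), .ofNat (nat_lit 0), .ofNat (nat_lit 0)⟩⟩, [⟨nat_lit 0, nat_lit 100, nat_lit 70, nat_lit 83, nat_lit 340303278⟩]⟩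
noncomputable def p018_l116 : Lf2 := ⟨nat_lit 0, nat_lit 10, [nat_lit 0, nat_lit 5, nat_lit 5, nat_lit 20], false, nat_lit 0, nat_lit 0, nat_lit 0, nat_lit 0, ⟨nat_lit 1000, nat_lit 0, nat_lit 0, nat_lit 0, nat_lit 0, nat_lit 0, nat_lit 0, nat_lit 0, nat_lit 0, nat_lit 0, nat_lit 0, nat_lit 0, nat_lit 0, nat_lit 0, nat_lit 0, nat_lit 0, false, false⟩,
 nat_lit 0, nat_lit 5164, nat_lit 0, nat_lit 0, nat_lit 4337, nat_lit 9525, nat_lit 939, nat_lit 0, nat_lit 0, nat_lit 0, nat_lit 0, nat_lit 0, nat_lit 0, nat_lit 0, nat_lit 0, nat_lit 0, nat_lit 0, nat_lit 0, [],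
 ⟨p018_k5, nat_lit 0, nat_lit 0, nat_lit 430, nat_lit 0, nat_lit 856566, [nat_lit 2032000001, nat_lit 4688000000], [], [nat_lit 23496893413, nat_lit 24087037332, nat_lit 26328276876, nat_lit 26891039292], nat_lit 1271250, nat_lit 1271250, nat_lit 382400, nat_lit 1731000, nat_lit 0, nat_lit 0, [nat_lit 490000, nat_lit 1100000], [nat_lit 24, nat_lit 40, nat_lit 80, nat_lit 80, nat_lit 33, nat_lit 272, nat_lit 60, nat_lit 13]⟩, ⟨p018_k20, nat_lit 0, nat_lit 0, nat_lit 261, nat_lit 0, nat_lit 0, [nat_lit 6250000000, nat_lit 9842000000, nat_lit 11872000000], [], [nat_lit 32126444460, nat_lit 34841804081, nat_lit 33240197600, nat_lit 35116722900], nat_lit 0, nat_lit 0, nat_lit 0, nat_lit 0, nat_lit 0, nat_lit 0, [], [nat_lit 46, nat_lit 40, nat_lit 80, nat_lit 80, nat_lit 41, nat_lit 345, nat_lit 125, nat_lit 9]⟩,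
 zbF0, [⟨nat_lit 0, nat_lit 100, nat_lit 64, nat_lit 84, nat_lit 708445300⟩]⟩
noncomputable def p018_l117 : Lf2 := ⟨nat_lit 0, nat_lit 10, [nat_lit 0, nat_lit 5, nat_lit 5, nat_lit 20], false, nat_lit 0, nat_lit 0, nat_lit 0, nat_lit 0, ⟨nat_lit 1000, nat_lit 0, nat_lit 0, nat_lit 0, nat_lit 0, nat_lit 0, nat_lit 0, nat_lit 0, nat_lit 0, nat_lit 0, nat_lit 0, nat_lit 0, nat_lit 0, nat_lit 0, nat_lit 0, nat_lit 0, false, false⟩,
 nat_lit 0, nat_lit 7995, nat_lit 0, nat_lit 0, nat_lit 5996, nat_lit 7171, nat_lit 483, nat_lit 0, nat_lit 0, nat_lit 0, nat_lit 0, nat_lit 0, nat_lit 0, nat_lit 0, nat_lit 0, nat_lit 0, nat_lit 0, nat_lit 0, [],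
 ⟨p018_k0, nat_lit 0, nat_lit 0, nat_lit 445, nat_lit 0, nat_lit 807980, [nat_lit 2032000001, nat_lit 4688000000, nat_lit 6250000000], [], [nat_lit 32242786320, nat_lit 33075445624, nat_lit 37324169693, nat_lit 37988958994], nat_lit 1271250, nat_lit 1271250, nat_lit 1271250, nat_lit 1271250, nat_lit 0, nat_lit 0, [nat_lit 490000, nat_lit 1100000, nat_lit 1442500], [nat_lit 6, nat_lit 40, nat_lit 80, nat_lit 80, nat_lit 3, nat_lit 203, nat_lit 0, nat_lit 7]⟩, ⟨p018_k20, nat_lit 0, nat_lit 0, nat_lit 263, nat_lit 0, nat_lit 0, [nat_lit 6250000000, nat_lit 9842000000, nat_lit 11872000000], [], [nat_lit 34980658388, nat_lit 36274776292, nat_lit 43549407864, nat_lit 44302120055], nat_lit 0, nat_lit 0, nat_lit 0, nat_lit 0, nat_lit 0, nat_lit 0, [], [nat_lit 46, nat_lit 40, nat_lit 80, nat_lit 80, nat_lit 41, nat_lit 401, nat_lit 175, nat_lit 10]⟩,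
 zbF0, []⟩
noncomputable def p018_l118 : Lf2 := ⟨nat_lit 0, nat_lit 10, [nat_lit 0, nat_lit 5, nat_lit 5, nat_lit 20], false, nat_lit 0, nat_lit 0, nat_lit 0, nat_lit 0, ⟨nat_lit 994, nat_lit 0, nat_lit 6, nat_lit 6, nat_lit 274, nat_lit 0, nat_lit 0, nat_lit 0, nat_lit 0, nat_lit 215, nat_lit 357902, nat_lit 200, nat_lit 45598707, nat_lit 0, nat_lit 0, nat_lit 3132165, true, true⟩,
 nat_lit 0, nat_lit 5496, nat_lit 0, nat_lit 0, nat_lit 4448, nat_lit 6333, nat_lit 976, nat_lit 0, nat_lit 0, nat_lit 0, nat_lit 0, nat_lit 0, nat_lit 0, nat_lit 0, nat_lit 0, nat_lit 1020, nat_lit 0, nat_lit 0, [(nat_lit 21, [(nat_lit 3, nat_lit 6)])],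
 ⟨p018_k7, nat_lit 0, nat_lit 0, nat_lit 474, nat_lit 0, nat_lit 898994, [nat_lit 2100534400, nat_lit 4657904000, nat_lit 6208981600], [], [nat_lit 27997261600, nat_lit 28834999376, nat_lit 32490082397, nat_lit 33809850170], nat_lit 1271250, nat_lit 1271250, nat_lit 1271250, nat_lit 1271250, nat_lit 0, nat_lit 0, [nat_lit 490000, nat_lit 1100000, nat_lit 1442500], [nat_lit 6, nat_lit 40, nat_lit 80, nat_lit 80, nat_lit 3, nat_lit 210, nat_lit 0, nat_lit 7]⟩, ⟨p018_k20, nat_lit 0, nat_lit 0, nat_lit 255, nat_lit 0, nat_lit 0, [nat_lit 6212500000, nat_lit 9782948000, nat_lit 11800768000], [], [nat_lit 35523115572, nat_lit 36777809724, nat_lit 42394484550, nat_lit 43073043032], nat_lit 0, nat_lit 0, nat_lit 0, nat_lit 0, nat_lit 0, nat_lit 0, [], [nat_lit 46, nat_lit 40, nat_lit 80, nat_lit 80, nat_lit 41, nat_lit 401, nat_lit 175, nat_lit 10]⟩,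
 ⟨nat_lit 3162, nat_lit 3873, ⟨.ofNat (nat_lit 564520), .ofNat (nat_lit 770989), .ofNat (nat_lit 608082), .ofNat (nat_lit 814576), .ofNat (nat_lit 560952), .ofNat (nat_lit 756003), .ofNat (nat_lit 605237), .ofNat (nat_lit 800312)⟩, ⟨.ofNat (nat_lit 0), .ofNat (nat_lit 0), .ofNat (nat_lit 0), .ofNat (nat_lit 0), .ofNat (nat_lit 0), .ofNat (nat_lit 0), .ofNat (nat_lit 0), .ofNat (nat_lit 0)⟩⟩, []⟩
noncomputable def p018_l119 : Lf2 := ⟨nat_lit 0, nat_lit 10, [nat_lit 0, nat_lit 5, nat_lit 5, nat_lit 20], false, nat_lit 0, nat_lit 0, nat_lit 0, nat_lit 0, ⟨nat_lit 0, nat_lit 0, nat_lit 1000, nat_lit 5, nat_lit 144, nat_lit 0, nat_lit 0, nat_lit 0, nat_lit 0, nat_lit 215, nat_lit 62098, nat_lit 276, nat_lit 59297469, nat_lit 0, nat_lit 0, nat_lit 1783836, false, false⟩,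
 nat_lit 71, nat_lit 3491, nat_lit 0, nat_lit 0, nat_lit 2671, nat_lit 30, nat_lit 0, nat_lit 0, nat_lit 0, nat_lit 0, nat_lit 0, nat_lit 0, nat_lit 0, nat_lit 0, nat_lit 76, nat_lit 400000, nat_lit 0, nat_lit 0, [(nat_lit 18, [(nat_lit 5, nat_lit 1000)]), (nat_lit 21, [(nat_lit 5, nat_lit 1000)])],
 ⟨p018_k8, nat_lit 0, nat_lit 0, nat_lit 414, nat_lit 0, nat_lit 580178, [nat_lit 1693000001, nat_lit 251500000], [], [nat_lit 18172371767, nat_lit 20489055638, nat_lit 19429068077, nat_lit 21669414702], nat_lit 1271250, nat_lit 1271250, nat_lit 230001, nat_lit 1100001, nat_lit 0, nat_lit 0, [nat_lit 490000, nat_lit 1427500], [nat_lit 69, nat_lit 40, nat_lit 80, nat_lit 80, nat_lit 64, nat_lit 249, nat_lit 40, nat_lit 10]⟩, ⟨p018_k16, nat_lit 0, nat_lit 0, nat_lit 882, nat_lit 0, nat_lit 1127202, [nat_lit 0, nat_lit 0], [], [nat_lit 24723360, nat_lit 34199940, nat_lit 1410000, nat_lit 8054280],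 nat_lit 1271250, nat_lit 1271250, nat_lit 230001, nat_lit 1100001, nat_lit 0, nat_lit 0, [nat_lit 1412500, nat_lit 1271250], [nat_lit 107, nat_lit 40, nat_lit 80, nat_lit 80, nat_lit 12, nat_lit 317, nat_lit 100, nat_lit 9]⟩,
 ⟨nat_lit 3162, nat_lit 4473, ⟨.ofNat (nat_lit 227776), .ofNat (nat_lit 431944), .ofNat (nat_lit 270729), .ofNat (nat_lit 474896), .ofNat (nat_lit 255876), .ofNat (nat_lit 438969), .ofNat (nat_lit 300005), .ofNat (nat_lit 483097)⟩, ⟨.ofNat (nat_lit 0), .ofNat (nat_lit 0), .ofNat (nat_lit 0), .ofNat (nat_lit 0), .ofNat (nat_lit 0), .ofNat (nat_lit 0), .ofNat (nat_lit 0), .ofNat (nat_lit 0)⟩⟩, []⟩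
noncomputable def p018_l120 : Lf2 := ⟨nat_lit 0, nat_lit 10, [nat_lit 0, nat_lit 5, nat_lit 5, nat_lit 20], false, nat_lit 0, nat_lit 0, nat_lit 0, nat_lit 0, ⟨nat_lit 140, nat_lit 0, nat_lit 860, nat_lit 5, nat_lit 209, nat_lit 0, nat_lit 0, nat_lit 0, nat_lit 0, nat_lit 215, nat_lit 5755, nat_lit 209, nat_lit 52663715, nat_lit 0, nat_lit 0, nat_lit 2595874, false, false⟩,
 nat_lit 4072, nat_lit 0, nat_lit 0, nat_lit 0, nat_lit 3053, nat_lit 1745, nat_lit 0, nat_lit 0, nat_lit 0, nat_lit 135, nat_lit 0, nat_lit 0, nat_lit 0, nat_lit 0, nat_lit 21, nat_lit 344000, nat_lit 0, nat_lit 0, [(nat_lit 18, [(nat_lit 5, nat_lit 860)]), (nat_lit 21, [(nat_lit 5, nat_lit 860)])],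
 ⟨p018_k0, nat_lit 0, nat_lit 0, nat_lit 351, nat_lit 0, nat_lit 580178, [nat_lit 1293216000, nat_lit 636280001, nat_lit 528000], [], [nat_lit 19114553426, nat_lit 21128364029, nat_lit 21199061725, nat_lit 23190796633], nat_lit 1271250, nat_lit 1271250, nat_lit 1100001, nat_lit 1785000, nat_lit 0, nat_lit 0, [nat_lit 490000, nat_lit 1100000, nat_lit 1442500], [nat_lit 6, nat_lit 40, nat_lit 80, nat_lit 80, nat_lit 3, nat_lit 272, nat_lit 60, nat_lit 10]⟩, ⟨p018_k20, nat_lit 0, nat_lit 0, nat_lit 825, nat_lit 0, nat_lit 1127202, [nat_lit 875000000, nat_lit 1377880000, nat_lit 1662080000], [], [nat_lit 5363806860, nat_lit 5001606260, nat_lit 4917512040, nat_lit 4902929440], nat_lit 1271250, nat_lit 1271250, nat_lit 1100001, nat_lit 1785000, nat_lit 0, nat_lit 0, [nat_lit 1412500, nat_lit 1271250, nat_lit 1271250], [nat_lit 46, nat_lit 40, nat_lit 80, nat_lit 80, nat_lit 41, nat_lit 345, nat_lit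 125, nat_lit 9]⟩,
 ⟨nat_lit 3162, nat_lit 4473, ⟨.ofNat (nat_lit 431944), .ofNat (nat_lit 567977), .ofNat (nat_lit 474896), .ofNat (nat_lit 611007), .ofNat (nat_lit 438969), .ofNat (nat_lit 560952), .ofNat (nat_lit 483097), .ofNat (nat_lit 605159)⟩, ⟨.ofNat (nat_lit 0), .ofNat (nat_lit 0), .ofNat (nat_lit 0), .ofNat (nat_lit 0), .ofNat (nat_lit 0), .ofNat (nat_lit 0), .ofNat (nat_lit 0), .ofNat (nat_lit 0)⟩⟩, []⟩
noncomputable def p018_l121 : Lf2 := ⟨nat_lit 0, nat_lit 10, [nat_lit 0, nat_lit 5, nat_lit 5, nat_lit 20], false, nat_lit 0, nat_lit 0, nat_lit 0, nat_lit 0, ⟨nat_lit 154, nat_lit 211, nat_lit 635, nat_lit 6, nat_lit 257, nat_lit 0, nat_lit 0, nat_lit 0, nat_lit 0, nat_lit 215, nat_lit 179748, nat_lit 200, nat_lit 47387302, nat_lit 19612698, nat_lit 0, nat_lit 3022875, true, true⟩,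
 nat_lit 4127, nat_lit 0, nat_lit 0, nat_lit 0, nat_lit 3095, nat_lit 1768, nat_lit 0, nat_lit 0, nat_lit 0, nat_lit 136, nat_lit 0, nat_lit 0, nat_lit 0, nat_lit 0, nat_lit 0, nat_lit 338400, nat_lit 0, nat_lit 0, [(nat_lit 18, [(nat_lit 1, nat_lit 211), (nat_lit 5, nat_lit 635)])],
 ⟨p018_k0, nat_lit 0, nat_lit 0, nat_lit 301, nat_lit 0, nat_lit 438559, [nat_lit 1197722134, nat_lit 874028667, nat_lit 420426800], [], [nat_lit 22854952614, nat_lit 23644611124, nat_lit 25218468054, nat_lit 25900519739], nat_lit 1271250, nat_lit 1271250, nat_lit 1271250, nat_lit 1271250, nat_lit 0, nat_lit 0, [nat_lit 490000, nat_lit 1100000, nat_lit 1442500], [nat_lit 6, nat_lit 40, nat_lit 80, nat_lit 80, nat_lit 3, nat_lit 203, nat_lit 0, nat_lit 7]⟩, ⟨p018_k20, nat_lit 0, nat_lit 0, nat_lit 667, nat_lit 0, nat_lit 852057, [nat_lit 962500000, nat_lit 1515668000, nat_lit 1828288000], [], [nat_lit 5883154032,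 nat_lit 5878652996, nat_lit 6072005664, nat_lit 6049286848], nat_lit 1271250, nat_lit 1271250, nat_lit 1271250, nat_lit 1271250, nat_lit 0, nat_lit 0, [nat_lit 1412500, nat_lit 1271250, nat_lit 1271250], [nat_lit 46, nat_lit 40, nat_lit 80, nat_lit 80, nat_lit 41, nat_lit 373, nat_lit 150, nat_lit 9]⟩,
 ⟨nat_lit 3872, nat_lit 4473, ⟨.ofNat (nat_lit 567977), .ofNat (nat_lit 703933), .ofNat (nat_lit 589534), .ofNat (nat_lit 725499), .ofNat (nat_lit 564520), .ofNat (nat_lit 693563), .ofNat (nat_lit 586304), .ofNat (nat_lit 715356)⟩, ⟨.ofNat (nat_lit 0), .ofNat (nat_lit 0), .ofNat (nat_lit 0), .ofNat (nat_lit 0), .ofNat (nat_lit 0), .ofNat (nat_lit 0), .ofNat (nat_lit 0), .ofNat (nat_lit 0)⟩⟩, []⟩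
noncomputable def p018_l122 : Lf2 := ⟨nat_lit 0, nat_lit 10, [nat_lit 0, nat_lit 5, nat_lit 5, nat_lit 20], false, nat_lit 0, nat_lit 0, nat_lit 0, nat_lit 0, ⟨nat_lit 205, nat_lit 795, nat_lit 0, nat_lit 8, nat_lit 302, nat_lit 0, nat_lit 0, nat_lit 0, nat_lit 0, nat_lit 0, nat_lit 0, nat_lit 0, nat_lit 42642340, nat_lit 24357660, nat_lit 0, nat_lit 3277158, true, true⟩,
 nat_lit 4878, nat_lit 0, nat_lit 0, nat_lit 0, nat_lit 3658, nat_lit 2090, nat_lit 0, nat_lit 0, nat_lit 0, nat_lit 134, nat_lit 0, nat_lit 0, nat_lit 0, nat_lit 0, nat_lit 0, nat_lit 639000, nat_lit 0, nat_lit 0, [(nat_lit 18, [(nat_lit 1, nat_lit 260), (nat_lit 2, nat_lit 535)])],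
 ⟨p018_k0, nat_lit 0, nat_lit 0, nat_lit 289, nat_lit 0, nat_lit 382673, [nat_lit 1690573334, nat_lit 2031626667, nat_lit 1553946000], [], [nat_lit 27723302662, nat_lit 28081420154, nat_lit 29736409092, nat_lit 30091974155], nat_lit 1271250, nat_lit 1271250, nat_lit 1271250, nat_lit 1271250, nat_lit 0, nat_lit 0, [nat_lit 490000, nat_lit 1100000, nat_lit 1442500], [nat_lit 6, nat_lit 40, nat_lit 80, nat_lit 80, nat_lit 3, nat_lit 203, nat_lit 0, nat_lit 6]⟩, ⟨p018_k20, nat_lit 0, nat_lit 0, nat_lit 596, nat_lit 0, nat_lit 743479, [nat_lit 1281250000, nat_lit 2017610000, nat_lit 2433760000], [], [nat_lit 8927053140, nat_lit 8897796430, nat_lit 9230417009, nat_lit 9195679237], nat_lit 1271250, nat_lit 1271250, nat_lit 1271250, nat_lit 1271250, nat_lit 0, nat_lit 0, [nat_lit 1412500, nat_lit 1271250, nat_lit 1271250], [nat_lit 46, nat_lit 40, nat_lit 80, nat_lit 80, nat_lit 41, nat_lit 272,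 nat_lit 60, nat_lit 7]⟩,
 ⟨nat_lit 4183, nat_lit 4473, ⟨.ofNat (nat_lit 703933), .ofNat (nat_lit 792305), .ofNat (nat_lit 725499), .ofNat (nat_lit 813871), .ofNat (nat_lit 698765), .ofNat (nat_lit 784898), .ofNat (nat_lit 720431), .ofNat (nat_lit 806564)⟩, ⟨.ofNat (nat_lit 0), .ofNat (nat_lit 0), .ofNat (nat_lit 0), .ofNat (nat_lit 0), .ofNat (nat_lit 0), .ofNat (nat_lit 0), .ofNat (nat_lit 0), .ofNat (nat_lit 0)⟩⟩, [⟨nat_lit 13, nat_lit 78, nat_lit 59, nat_lit 100, nat_lit 116111016⟩]⟩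
noncomputable def p018_l123 : Lf2 := ⟨nat_lit 0, nat_lit 10, [nat_lit 0, nat_lit 5, nat_lit 5, nat_lit 20], false, nat_lit 0, nat_lit 0, nat_lit 0, nat_lit 0, ⟨nat_lit 157, nat_lit 438, nat_lit 405, nat_lit 8, nat_lit 294, nat_lit 0, nat_lit 0, nat_lit 0, nat_lit 0, nat_lit 215, nat_lit 280458, nat_lit 200, nat_lit 43529579, nat_lit 23470421, nat_lit 0, nat_lit 3238174, true, true⟩,
 nat_lit 3996, nat_lit 0, nat_lit 0, nat_lit 0, nat_lit 3114, nat_lit 1712, nat_lit 104, nat_lit 0, nat_lit 0, nat_lit 132, nat_lit 0, nat_lit 0, nat_lit 0, nat_lit 0, nat_lit 0, nat_lit 337200, nat_lit 0, nat_lit 0, [(nat_lit 18, [(nat_lit 1, nat_lit 438), (nat_lit 5, nat_lit 405)])],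
 ⟨p018_k6, nat_lit 0, nat_lit 0, nat_lit 302, nat_lit 0, nat_lit 407598, [nat_lit 1307570401, nat_lit 1429746000, nat_lit 1230474400], [], [nat_lit 26574071579, nat_lit 26934423373, nat_lit 28117819265, nat_lit 28481798387], nat_lit 1271250, nat_lit 1271250, nat_lit 1271250, nat_lit 1271250, nat_lit 0, nat_lit 0, [nat_lit 490000, nat_lit 1100000, nat_lit 1442500], [nat_lit 6, nat_lit 40, nat_lit 80, nat_lit 80, nat_lit 3, nat_lit 203, nat_lit 0, nat_lit 6]⟩, ⟨p018_k20, nat_lit 0, nat_lit 0, nat_lit 645, nat_lit 0, nat_lit 827548, [nat_lit 981250000, nat_lit 1545194000, nat_lit 1863904000], [], [nat_lit 6475862880, nat_lit 6466237260, nat_lit 6665764264, nat_lit 6651183446], nat_lit 1271250, nat_lit 1271250, nat_lit 1271250, nat_lit 1271250, nat_lit 0, nat_lit 0, [nat_lit 1412500, nat_lit 1271250, nat_lit 1271250], [nat_lit 46, nat_lit 40, nat_lit 80, nat_lit 80, nat_lit 41, nat_lit 272,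 nat_lit 60, nat_lit 7]⟩,
 ⟨nat_lit 3872, nat_lit 4184, ⟨.ofNat (nat_lit 698765), .ofNat (nat_lit 765021), .ofNat (nat_lit 709599), .ofNat (nat_lit 775854), .ofNat (nat_lit 693563), .ofNat (nat_lit 758085), .ofNat (nat_lit 704460), .ofNat (nat_lit 768981)⟩, ⟨.ofNat (nat_lit 0), .ofNat (nat_lit 0), .ofNat (nat_lit 0), .ofNat (nat_lit 0), .ofNat (nat_lit 0), .ofNat (nat_lit 0), .ofNat (nat_lit 0), .ofNat (nat_lit 0)⟩⟩, [⟨nat_lit 13, nat_lit 74, nat_lit 66, nat_lit 100, nat_lit 198844609⟩]⟩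
noncomputable def p018_l124 : Lf2 := ⟨nat_lit 0, nat_lit 10, [nat_lit 0, nat_lit 5, nat_lit 5, nat_lit 20], false, nat_lit 0, nat_lit 0, nat_lit 0, nat_lit 0, ⟨nat_lit 216, nat_lit 784, nat_lit 0, nat_lit 8, nat_lit 301, nat_lit 0, nat_lit 0, nat_lit 0, nat_lit 0, nat_lit 0, nat_lit 0, nat_lit 0, nat_lit 42810266, nat_lit 24189734, nat_lit 0, nat_lit 3270072, true, true⟩,
 nat_lit 4885, nat_lit 0, nat_lit 0, nat_lit 0, nat_lit 3807, nat_lit 2214, nat_lit 217, nat_lit 0, nat_lit 0, nat_lit 186, nat_lit 0, nat_lit 0, nat_lit 0, nat_lit 0, nat_lit 0, nat_lit 313600, nat_lit 0, nat_lit 0, [(nat_lit 18, [(nat_lit 1, nat_lit 784)])],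
 ⟨p018_k6, nat_lit 0, nat_lit 0, nat_lit 308, nat_lit 0, nat_lit 419670, [nat_lit 1535048534, nat_lit 2554474667, nat_lit 2887267200], [], [nat_lit 28588140138, nat_lit 28972671064, nat_lit 30462479024, nat_lit 30806677128], nat_lit 1271250, nat_lit 1271250, nat_lit 1271250, nat_lit 1271250, nat_lit 0, nat_lit 0, [nat_lit 490000, nat_lit 1100000, nat_lit 1442500], [nat_lit 6, nat_lit 40, nat_lit 80, nat_lit 80, nat_lit 3, nat_lit 203, nat_lit 0, nat_lit 6]⟩, ⟨p018_k22, nat_lit 0, nat_lit 0, nat_lit 613, nat_lit 0, nat_lit 795383, [nat_lit 1350000000, nat_lit 2125872000, nat_lit 2564352000], [], [nat_lit 8750437602, nat_lit 8740250556, nat_lit 9050071085, nat_lit 9042463191], nat_lit 1271250, nat_lit 1271250, nat_lit 1271250, nat_lit 1271250, nat_lit 0, nat_lit 0, [nat_lit 1412500, nat_lit 1271250, nat_lit 1271250], [nat_lit 46, nat_lit 40, nat_lit 80, nat_lit 80, nat_lit 41, nat_lit 272,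 nat_lit 60, nat_lit 7]⟩,
 ⟨nat_lit 3872, nat_lit 4184, ⟨.ofNat (nat_lit 709599), .ofNat (nat_lit 789105), .ofNat (nat_lit 720432), .ofNat (nat_lit 799939), .ofNat (nat_lit 704460), .ofNat (nat_lit 781886), .ofNat (nat_lit 715356), .ofNat (nat_lit 792782)⟩, ⟨.ofNat (nat_lit 0), .ofNat (nat_lit 0), .ofNat (nat_lit 0), .ofNat (nat_lit 0), .ofNat (nat_lit 0), .ofNat (nat_lit 0), .ofNat (nat_lit 0), .ofNat (nat_lit 0)⟩⟩, [⟨nat_lit 13, nat_lit 74, nat_lit 62, nat_lit 100, nat_lit 123917271⟩]⟩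
noncomputable def p018_l125 : Lf2 := ⟨nat_lit 0, nat_lit 10, [nat_lit 0, nat_lit 5, nat_lit 5, nat_lit 20], false, nat_lit 0, nat_lit 0, nat_lit 0, nat_lit 0, ⟨nat_lit 387, nat_lit 613, nat_lit 0, nat_lit 6, nat_lit 288, nat_lit 0, nat_lit 0, nat_lit 0, nat_lit 0, nat_lit 0, nat_lit 0, nat_lit 0, nat_lit 44110834, nat_lit 22889166, nat_lit 0, nat_lit 3210550, true, true⟩,
 nat_lit 6184, nat_lit 0, nat_lit 0, nat_lit 0, nat_lit 4033, nat_lit 2957, nat_lit 0, nat_lit 0, nat_lit 0, nat_lit 487, nat_lit 0, nat_lit 0, nat_lit 0, nat_lit 0, nat_lit 0, nat_lit 573400, nat_lit 0, nat_lit 0, [(nat_lit 18, [(nat_lit 1, nat_lit 66), (nat_lit 2, nat_lit 547)])],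
 ⟨p018_k0, nat_lit 0, nat_lit 0, nat_lit 310, nat_lit 0, nat_lit 418681, [nat_lit 1809581867, nat_lit 2515853334, nat_lit 2305732400], [], [nat_lit 26669731579, nat_lit 27104453036, nat_lit 31636133154, nat_lit 31952517021], nat_lit 1271250, nat_lit 1271250, nat_lit 1271250, nat_lit 1271250, nat_lit 0, nat_lit 0, [nat_lit 490000, nat_lit 1100000, nat_lit 1442500], [nat_lit 6, nat_lit 40, nat_lit 80, nat_lit 80, nat_lit 3, nat_lit 203, nat_lit 0, nat_lit 7]⟩, ⟨p018_k21, nat_lit 0, nat_lit 0, nat_lit 584, nat_lit 0, nat_lit 711148, [nat_lit 2418750000, nat_lit 3808854000, nat_lit 4594464000], [], [nat_lit 15397269988, nat_lit 15470092684, nat_lit 16815073721, nat_lit 16816280091], nat_lit 1271250, nat_lit 1271250, nat_lit 1271250, nat_lit 1271250, nat_lit 0, nat_lit 0, [nat_lit 1412500, nat_lit 1271250, nat_lit 1271250], [nat_lit 46, nat_lit 40, nat_lit 80, nat_lit 80, nat_lit 41, nat_lit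 401, nat_lit 175, nat_lit 10]⟩,
 ⟨nat_lit 4183, nat_lit 4473, ⟨.ofNat (nat_lit 589541), .ofNat (nat_lit 834264), .ofNat (nat_lit 611104), .ofNat (nat_lit 855828), .ofNat (nat_lit 587919), .ofNat (nat_lit 826441), .ofNat (nat_lit 609582), .ofNat (nat_lit 848105)⟩, ⟨.ofNat (nat_lit 0), .ofNat (nat_lit 0), .ofNat (nat_lit 0), .ofNat (nat_lit 0), .ofNat (nat_lit 0), .ofNat (nat_lit 0), .ofNat (nat_lit 0), .ofNat (nat_lit 0)⟩⟩, []⟩
noncomputable def p018_l126 : Lf2 := ⟨nat_lit 0, nat_lit 10, [nat_lit 0, nat_lit 5, nat_lit 5, nat_lit 20], false, nat_lit 0, nat_lit 0, nat_lit 0, nat_lit 0, ⟨nat_lit 272, nat_lit 728, nat_lit 0, nat_lit 6, nat_lit 265, nat_lit 0, nat_lit 0, nat_lit 0, nat_lit 0, nat_lit 0, nat_lit 0, nat_lit 0, nat_lit 46525906, nat_lit 20474094, nat_lit 0, nat_lit 3077605, true, true⟩,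
 nat_lit 5382, nat_lit 0, nat_lit 0, nat_lit 0, nat_lit 4195, nat_lit 2573, nat_lit 341, nat_lit 0, nat_lit 0, nat_lit 404, nat_lit 0, nat_lit 0, nat_lit 0, nat_lit 0, nat_lit 0, nat_lit 182000, nat_lit 0, nat_lit 0, [(nat_lit 18, [(nat_lit 0, nat_lit 728)])],
 ⟨p018_k6, nat_lit 0, nat_lit 0, nat_lit 305, nat_lit 0, nat_lit 451021, [nat_lit 1668582400, nat_lit 2853440001, nat_lit 3565136000], [], [nat_lit 25282912946, nat_lit 25752655946, nat_lit 27910790541, nat_lit 28329375760], nat_lit 1271250, nat_lit 1271250, nat_lit 1271250, nat_lit 1271250, nat_lit 0, nat_lit 0, [nat_lit 490000, nat_lit 1100000, nat_lit 1442500], [nat_lit 6, nat_lit 40, nat_lit 80, nat_lit 80, nat_lit 3, nat_lit 203, nat_lit 0, nat_lit 7]⟩, ⟨p018_k21, nat_lit 0, nat_lit 0, nat_lit 635, nat_lit 0, nat_lit 800561, [nat_lit 1700000000, nat_lit 2677024000, nat_lit 3229184000], [], [nat_lit 9556084890, nat_lit 9567083212,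 nat_lit 9878515522, nat_lit 9864626872], nat_lit 1271250, nat_lit 1271250, nat_lit 1271250, nat_lit 1271250, nat_lit 0, nat_lit 0, [nat_lit 1412500, nat_lit 1271250, nat_lit 1271250], [nat_lit 46, nat_lit 40, nat_lit 80, nat_lit 80, nat_lit 41, nat_lit 373, nat_lit 150, nat_lit 9]⟩,
 ⟨nat_lit 3872, nat_lit 4184, ⟨.ofNat (nat_lit 587919), .ofNat (nat_lit 720432), .ofNat (nat_lit 609582), .ofNat (nat_lit 742098), .ofNat (nat_lit 586312), .ofNat (nat_lit 715356), .ofNat (nat_lit 608101), .ofNat (nat_lit 737149)⟩, ⟨.ofNat (nat_lit 0), .ofNat (nat_lit 0), .ofNat (nat_lit 0), .ofNat (nat_lit 0), .ofNat (nat_lit 0), .ofNat (nat_lit 0), .ofNat (nat_lit 0), .ofNat (nat_lit 0)⟩⟩, []⟩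
noncomputable def p018_l127 : Lf2 := ⟨nat_lit 0, nat_lit 10, [nat_lit 0, nat_lit 5, nat_lit 5, nat_lit 20], false, nat_lit 0, nat_lit 0, nat_lit 0, nat_lit 0, ⟨nat_lit 261, nat_lit 739, nat_lit 0, nat_lit 8, nat_lit 310, nat_lit 0, nat_lit 0, nat_lit 0, nat_lit 0, nat_lit 0, nat_lit 0, nat_lit 0, nat_lit 41877658, nat_lit 25122342, nat_lit 0, nat_lit 3307714, true, true⟩,
 nat_lit 4937, nat_lit 0, nat_lit 0, nat_lit 0, nat_lit 3848, nat_lit 2360, nat_lit 220, nat_lit 0, nat_lit 0, nat_lit 321, nat_lit 0, nat_lit 0, nat_lit 0, nat_lit 0, nat_lit 0, nat_lit 295600, nat_lit 0, nat_lit 0, [(nat_lit 18, [(nat_lit 1, nat_lit 739)])],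
 ⟨p018_k6, nat_lit 0, nat_lit 0, nat_lit 320, nat_lit 0, nat_lit 451021, [nat_lit 1563572534, nat_lit 2676934667, nat_lit 3080281200], [], [nat_lit 29082456627, nat_lit 29446706675, nat_lit 31157582570, nat_lit 31477487203], nat_lit 1271250, nat_lit 1271250, nat_lit 1271250, nat_lit 1271250, nat_lit 0, nat_lit 0, [nat_lit 490000, nat_lit 1100000, nat_lit 1442500], [nat_lit 6, nat_lit 40, nat_lit 80, nat_lit 80, nat_lit 3, nat_lit 203, nat_lit 0, nat_lit 6]⟩, ⟨p018_k21, nat_lit 0, nat_lit 0, nat_lit 612, nat_lit 0, nat_lit 800561, [nat_lit 1631250000, nat_lit 2568762000, nat_lit 3098592000], [], [nat_lit 10251025048, nat_lit 10240035872, nat_lit 10648733368, nat_lit 10618043866], nat_lit 1271250, nat_lit 1271250, nat_lit 1271250, nat_lit 1271250, nat_lit 0, nat_lit 0, [nat_lit 1412500, nat_lit 1271250, nat_lit 1271250], [nat_lit 46, nat_lit 40, nat_lit 80, nat_lit 80, nat_lit 41, nat_lit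 272, nat_lit 60, nat_lit 7]⟩,
 ⟨nat_lit 3872, nat_lit 4184, ⟨.ofNat (nat_lit 720432), .ofNat (nat_lit 813190), .ofNat (nat_lit 742098), .ofNat (nat_lit 834857), .ofNat (nat_lit 715356), .ofNat (nat_lit 805687), .ofNat (nat_lit 737149), .ofNat (nat_lit 827480)⟩, ⟨.ofNat (nat_lit 0), .ofNat (nat_lit 0), .ofNat (nat_lit 0), .ofNat (nat_lit 0), .ofNat (nat_lit 0), .ofNat (nat_lit 0), .ofNat (nat_lit 0), .ofNat (nat_lit 0)⟩⟩, [⟨nat_lit 13, nat_lit 75, nat_lit 56, nat_lit 100, nat_lit 93012438⟩]⟩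
noncomputable def p018_l128 : Lf2 := ⟨nat_lit 0, nat_lit 10, [nat_lit 0, nat_lit 5, nat_lit 5, nat_lit 20], false, nat_lit 0, nat_lit 0, nat_lit 0, nat_lit 0, ⟨nat_lit 166, nat_lit 818, nat_lit 16, nat_lit 6, nat_lit 260, nat_lit 0, nat_lit 0, nat_lit 0, nat_lit 0, nat_lit 215, nat_lit 203050, nat_lit 200, nat_lit 47136639, nat_lit 19863361, nat_lit 0, nat_lit 3039208, true, true⟩,
 nat_lit 4185, nat_lit 0, nat_lit 0, nat_lit 0, nat_lit 3387, nat_lit 1793, nat_lit 214, nat_lit 0, nat_lit 0, nat_lit 114, nat_lit 0, nat_lit 0, nat_lit 0, nat_lit 0, nat_lit 0, nat_lit 402000, nat_lit 0, nat_lit 0, [(nat_lit 21, [(nat_lit 1, nat_lit 720), (nat_lit 2, nat_lit 98), (nat_lit 6, nat_lit 16)])],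
 ⟨p018_k7, nat_lit 0, nat_lit 0, nat_lit 318, nat_lit 0, nat_lit 481487, [nat_lit 1462495200, nat_lit 1795608800, nat_lit 1933231200], [], [nat_lit 24405139462, nat_lit 24835712864, nat_lit 26852934442, nat_lit 27222673808], nat_lit 1271250, nat_lit 1271250, nat_lit 1271250, nat_lit 1271250, nat_lit 0, nat_lit 0, [nat_lit 490000, nat_lit 1100000, nat_lit 1442500], [nat_lit 6, nat_lit 40, nat_lit 80, nat_lit 80, nat_lit 3, nat_lit 203, nat_lit 0, nat_lit 7]⟩, ⟨p018_k20, nat_lit 0, nat_lit 0, nat_lit 738, nat_lit 0, nat_lit 1020365, [nat_lit 1037500000, nat_lit 1633772000, nat_lit 1970752000], [], [nat_lit 6738380980, nat_lit 6707012468, nat_lit 6908034144, nat_lit 6867653380], nat_lit 1271250, nat_lit 1271250, nat_lit 1271250, nat_lit 1271250, nat_lit 0, nat_lit 0, [nat_lit 1412500, nat_lit 1271250, nat_lit 1271250], [nat_lit 46, nat_lit 40, nat_lit 80, nat_lit 80, nat_lit 41, nat_lit 373,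 nat_lit 150, nat_lit 9]⟩,
 ⟨nat_lit 3535, nat_lit 3873, ⟨.ofNat (nat_lit 564520), .ofNat (nat_lit 693563), .ofNat (nat_lit 608101), .ofNat (nat_lit 737150), .ofNat (nat_lit 562760), .ofNat (nat_lit 688283), .ofNat (nat_lit 606659), .ofNat (nat_lit 732188)⟩, ⟨.ofNat (nat_lit 0), .ofNat (nat_lit 0), .ofNat (nat_lit 0), .ofNat (nat_lit 0), .ofNat (nat_lit 0), .ofNat (nat_lit 0), .ofNat (nat_lit 0), .ofNat (nat_lit 0)⟩⟩, []⟩
noncomputable def p018_l129 : Lf2 := ⟨nat_lit 0, nat_lit 10, [nat_lit 0, nat_lit 5, nat_lit 5, nat_lit 20], false, nat_lit 0, nat_lit 0, nat_lit 0, nat_lit 0, ⟨nat_lit 158, nat_lit 842, nat_lit 0, nat_lit 6, nat_lit 259, nat_lit 0, nat_lit 0, nat_lit 0, nat_lit 0, nat_lit 0, nat_lit 0, nat_lit 0, nat_lit 47245520, nat_lit 19754480, nat_lit 0, nat_lit 3032155, true, true⟩,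
 nat_lit 4009, nat_lit 0, nat_lit 0, nat_lit 0, nat_lit 3367, nat_lit 1718, nat_lit 193, nat_lit 0, nat_lit 0, nat_lit 112, nat_lit 0, nat_lit 0, nat_lit 0, nat_lit 0, nat_lit 0, nat_lit 336800, nat_lit 0, nat_lit 0, [(nat_lit 21, [(nat_lit 1, nat_lit 842)])],
 ⟨p018_k5, nat_lit 0, nat_lit 0, nat_lit 270, nat_lit 0, nat_lit 485874, [nat_lit 1462134400, nat_lit 1990232000], [], [nat_lit 24763545051, nat_lit 24991212699, nat_lit 27293310444, nat_lit 27507728989], nat_lit 1271250, nat_lit 1271250, nat_lit 1271250, nat_lit 1271250, nat_lit 0, nat_lit 0, [nat_lit 490000, nat_lit 1100000], [nat_lit 24, nat_lit 40, nat_lit 80, nat_lit 80, nat_lit 33, nat_lit 203, nat_lit 0, nat_lit 8]⟩, ⟨p018_k20, nat_lit 0, nat_lit 0, nat_lit 760, nat_lit 0, nat_lit 1073562, [nat_lit 987500000, nat_lit 1555036000, nat_lit 1875776000], [], [nat_lit 6522322328, nat_lit 6465076920, nat_lit 6571125736, nat_lit 6501876008],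 nat_lit 1271250, nat_lit 1271250, nat_lit 1271250, nat_lit 1271250, nat_lit 0, nat_lit 0, [nat_lit 1412500, nat_lit 1271250, nat_lit 1271250], [nat_lit 46, nat_lit 40, nat_lit 80, nat_lit 80, nat_lit 41, nat_lit 373, nat_lit 150, nat_lit 9]⟩,
 ⟨nat_lit 3354, nat_lit 3536, ⟨.ofNat (nat_lit 562760), .ofNat (nat_lit 688283), .ofNat (nat_lit 606664), .ofNat (nat_lit 732188), .ofNat (nat_lit 561864), .ofNat (nat_lit 685594), .ofNat (nat_lit 605958), .ofNat (nat_lit 729689)⟩, ⟨.ofNat (nat_lit 0), .ofNat (nat_lit 0), .ofNat (nat_lit 0), .ofNat (nat_lit 0), .ofNat (nat_lit 0), .ofNat (nat_lit 0), .ofNat (nat_lit 0), .ofNat (nat_lit 0)⟩⟩, []⟩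
noncomputable def p018_l130 : Lf2 := ⟨nat_lit 0, nat_lit 10, [nat_lit 0, nat_lit 5, nat_lit 5, nat_lit 20], false, nat_lit 0, nat_lit 0, nat_lit 0, nat_lit 0, ⟨nat_lit 157, nat_lit 843, nat_lit 0, nat_lit 6, nat_lit 258, nat_lit 0, nat_lit 0, nat_lit 0, nat_lit 0, nat_lit 0, nat_lit 0, nat_lit 0, nat_lit 47319078, nat_lit 19680922, nat_lit 0, nat_lit 3027354, true, true⟩,
 nat_lit 3967, nat_lit 0, nat_lit 0, nat_lit 0, nat_lit 3393, nat_lit 1700, nat_lit 106, nat_lit 0, nat_lit 0, nat_lit 111, nat_lit 0, nat_lit 0, nat_lit 0, nat_lit 0, nat_lit 0, nat_lit 337200, nat_lit 0, nat_lit 0, [(nat_lit 21, [(nat_lit 1, nat_lit 843)])],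
 ⟨p018_k23, nat_lit 0, nat_lit 0, nat_lit 275, nat_lit 0, nat_lit 499806, [nat_lit 1461457601, nat_lit 1987028000], [], [nat_lit 24935667962, nat_lit 25187235859, nat_lit 27683569811, nat_lit 27905519700], nat_lit 1271250, nat_lit 1271250, nat_lit 1271250, nat_lit 1271250, nat_lit 0, nat_lit 0, [nat_lit 490000, nat_lit 1100000], [nat_lit 24, nat_lit 40, nat_lit 80, nat_lit 80, nat_lit 33, nat_lit 203, nat_lit 0, nat_lit 8]⟩, ⟨p018_k20, nat_lit 0, nat_lit 0, nat_lit 789, nat_lit 0, nat_lit 1127202, [nat_lit 981250000, nat_lit 1545194000, nat_lit 1863904000], [], [nat_lit 6511793152, nat_lit 6455573456, nat_lit 6560989532, nat_lit 6480035616], nat_lit 1271250, nat_lit 1271250, nat_lit 1271250, nat_lit 1271250, nat_lit 0, nat_lit 0, [nat_lit 1412500, nat_lit 1271250, nat_lit 1271250], [nat_lit 46, nat_lit 40, nat_lit 80, nat_lit 80, nat_lit 41, nat_lit 373, nat_lit 150, nat_lit 9]⟩,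
 ⟨nat_lit 3162, nat_lit 3355, ⟨.ofNat (nat_lit 561864), .ofNat (nat_lit 685594), .ofNat (nat_lit 605958), .ofNat (nat_lit 729689), .ofNat (nat_lit 560952), .ofNat (nat_lit 682859), .ofNat (nat_lit 605261), .ofNat (nat_lit 727168)⟩, ⟨.ofNat (nat_lit 0), .ofNat (nat_lit 0), .ofNat (nat_lit 0), .ofNat (nat_lit 0), .ofNat (nat_lit 0), .ofNat (nat_lit 0), .ofNat (nat_lit 0), .ofNat (nat_lit 0)⟩⟩, []⟩
noncomputable def p018_l131 : Lf2 := ⟨nat_lit 0, nat_lit 10, [nat_lit 0, nat_lit 5, nat_lit 5, nat_lit 20], false, nat_lit 0, nat_lit 0, nat_lit 0, nat_lit 0, ⟨nat_lit 167, nat_lit 833, nat_lit 0, nat_lit 8, nat_lit 293, nat_lit 0, nat_lit 0, nat_lit 0, nat_lit 0, nat_lit 0, nat_lit 0, nat_lit 0, nat_lit 43554955, nat_lit 23445045, nat_lit 0, nat_lit 3237003, true, true⟩,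
 nat_lit 4034, nat_lit 0, nat_lit 0, nat_lit 0, nat_lit 3265, nat_lit 1728, nat_lit 254, nat_lit 0, nat_lit 0, nat_lit 110, nat_lit 0, nat_lit 0, nat_lit 0, nat_lit 0, nat_lit 0, nat_lit 335600, nat_lit 0, nat_lit 0, [(nat_lit 21, [(nat_lit 1, nat_lit 829), (nat_lit 2, nat_lit 4)])],
 ⟨p018_k7, nat_lit 0, nat_lit 0, nat_lit 319, nat_lit 0, nat_lit 454502, [nat_lit 1468409601, nat_lit 2019849601, nat_lit 2276086800], [], [nat_lit 27579119694, nat_lit 27945995110, nat_lit 29091426810, nat_lit 29447933440], nat_lit 1271250, nat_lit 1271250, nat_lit 1271250, nat_lit 1271250, nat_lit 0, nat_lit 0, [nat_lit 490000, nat_lit 1100000, nat_lit 1442500], [nat_lit 6, nat_lit 40, nat_lit 80, nat_lit 80, nat_lit 3, nat_lit 203, nat_lit 0, nat_lit 6]⟩, ⟨p018_k20, nat_lit 0, nat_lit 0, nat_lit 700, nat_lit 0, nat_lit 963177, [nat_lit 1043750000, nat_lit 1643614000, nat_lit 1982624000], [], [nat_lit 7188360708,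 nat_lit 7165673992, nat_lit 7380766840, nat_lit 7354595377], nat_lit 1271250, nat_lit 1271250, nat_lit 1271250, nat_lit 1271250, nat_lit 0, nat_lit 0, [nat_lit 1412500, nat_lit 1271250, nat_lit 1271250], [nat_lit 46, nat_lit 40, nat_lit 80, nat_lit 80, nat_lit 41, nat_lit 272, nat_lit 60, nat_lit 7]⟩,
 ⟨nat_lit 3535, nat_lit 3873, ⟨.ofNat (nat_lit 693563), .ofNat (nat_lit 758085), .ofNat (nat_lit 715356), .ofNat (nat_lit 779878), .ofNat (nat_lit 688283), .ofNat (nat_lit 751044), .ofNat (nat_lit 710235), .ofNat (nat_lit 772997)⟩, ⟨.ofNat (nat_lit 0), .ofNat (nat_lit 0), .ofNat (nat_lit 0), .ofNat (nat_lit 0), .ofNat (nat_lit 0), .ofNat (nat_lit 0), .ofNat (nat_lit 0), .ofNat (nat_lit 0)⟩⟩, [⟨nat_lit 13, nat_lit 69, nat_lit 69, nat_lit 100, nat_lit 160627350⟩]⟩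
noncomputable def p018_l132 : Lf2 := ⟨nat_lit 0, nat_lit 10, [nat_lit 0, nat_lit 5, nat_lit 5, nat_lit 20], false, nat_lit 0, nat_lit 0, nat_lit 0, nat_lit 0, ⟨nat_lit 151, nat_lit 849, nat_lit 0, nat_lit 8, nat_lit 287, nat_lit 0, nat_lit 0, nat_lit 0, nat_lit 0, nat_lit 0, nat_lit 0, nat_lit 0, nat_lit 44198759, nat_lit 22801241, nat_lit 0, nat_lit 3206226, true, true⟩,
 nat_lit 3851, nat_lit 0, nat_lit 0, nat_lit 0, nat_lit 3234, nat_lit 1650, nat_lit 185, nat_lit 0, nat_lit 0, nat_lit 123, nat_lit 0, nat_lit 0, nat_lit 0, nat_lit 0, nat_lit 0, nat_lit 339600, nat_lit 0, nat_lit 0, [(nat_lit 21, [(nat_lit 1, nat_lit 849)])],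
 ⟨p018_k5, nat_lit 0, nat_lit 0, nat_lit 278, nat_lit 0, nat_lit 487193, [nat_lit 1457396800, nat_lit 1967804000], [], [nat_lit 27674106513, nat_lit 28071494289, nat_lit 28814411689, nat_lit 29224782405], nat_lit 1271250, nat_lit 1271250, nat_lit 1271250, nat_lit 1271250, nat_lit 0, nat_lit 0, [nat_lit 490000, nat_lit 1100000], [nat_lit 24, nat_lit 40, nat_lit 80, nat_lit 80, nat_lit 33, nat_lit 203, nat_lit 0, nat_lit 7]⟩, ⟨p018_k20, nat_lit 0, nat_lit 0, nat_lit 746, nat_lit 0, nat_lit 1076476, [nat_lit 943750000, nat_lit 1486142000, nat_lit 1792672000], [], [nat_lit 6244189076, nat_lit 6204472282, nat_lit 6345495023, nat_lit 6320147326], nat_lit 1271250, nat_lit 1271250, nat_lit 1271250, nat_lit 1271250, nat_lit 0, nat_lit 0, [nat_lit 1412500, nat_lit 1271250, nat_lit 1271250], [nat_lit 46, nat_lit 40, nat_lit 80, nat_lit 80, nat_lit 41, nat_lit 272, nat_lit 60, nat_lit 7]⟩,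
 ⟨nat_lit 3162, nat_lit 3536, ⟨.ofNat (nat_lit 688283), .ofNat (nat_lit 732216), .ofNat (nat_lit 710235), .ofNat (nat_lit 754168), .ofNat (nat_lit 682859), .ofNat (nat_lit 725526), .ofNat (nat_lit 705013), .ofNat (nat_lit 747681)⟩, ⟨.ofNat (nat_lit 0), .ofNat (nat_lit 0), .ofNat (nat_lit 0), .ofNat (nat_lit 0), .ofNat (nat_lit 0), .ofNat (nat_lit 0), .ofNat (nat_lit 0), .ofNat (nat_lit 0)⟩⟩, [⟨nat_lit 13, nat_lit 63, nat_lit 74, nat_lit 100, nat_lit 224916375⟩]⟩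
noncomputable def p018_l133 : Lf2 := ⟨nat_lit 0, nat_lit 10, [nat_lit 0, nat_lit 5, nat_lit 5, nat_lit 20], false, nat_lit 0, nat_lit 0, nat_lit 0, nat_lit 0, ⟨nat_lit 210, nat_lit 790, nat_lit 0, nat_lit 8, nat_lit 305, nat_lit 0, nat_lit 0, nat_lit 0, nat_lit 0, nat_lit 0, nat_lit 0, nat_lit 0, nat_lit 42391168, nat_lit 24608832, nat_lit 0, nat_lit 3287503, true, true⟩,
 nat_lit 4212, nat_lit 0, nat_lit 0, nat_lit 0, nat_lit 3409, nat_lit 2014, nat_lit 206, nat_lit 0, nat_lit 0, nat_lit 182, nat_lit 0, nat_lit 0, nat_lit 0, nat_lit 0, nat_lit 0, nat_lit 316000, nat_lit 0, nat_lit 0, [(nat_lit 21, [(nat_lit 1, nat_lit 790)])],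
 ⟨p018_k7, nat_lit 0, nat_lit 0, nat_lit 329, nat_lit 0, nat_lit 481487, [nat_lit 1497328000, nat_lit 2163792000, nat_lit 2491180000], [], [nat_lit 28239204394, nat_lit 28609718556, nat_lit 30005869813, nat_lit 30339524896], nat_lit 1271250, nat_lit 1271250, nat_lit 1271250, nat_lit 1271250, nat_lit 0, nat_lit 0, [nat_lit 490000, nat_lit 1100000, nat_lit 1442500], [nat_lit 6, nat_lit 40, nat_lit 80, nat_lit 80, nat_lit 3, nat_lit 203, nat_lit 0, nat_lit 6]⟩, ⟨p018_k21, nat_lit 0, nat_lit 0, nat_lit 665, nat_lit 0, nat_lit 892055, [nat_lit 1312500000, nat_lit 2066820000, nat_lit 2493120000], [], [nat_lit 8363737468, nat_lit 8349917232, nat_lit 8642324045, nat_lit 8614234080], nat_lit 1271250, nat_lit 1271250, nat_lit 1271250, nat_lit 1271250, nat_lit 0, nat_lit 0, [nat_lit 1412500, nat_lit 1271250, nat_lit 1271250], [nat_lit 46, nat_lit 40, nat_lit 80, nat_lit 80, nat_lit 41, nat_lit 272,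 nat_lit 60, nat_lit 7]⟩,
 ⟨nat_lit 3535, nat_lit 3873, ⟨.ofNat (nat_lit 715356), .ofNat (nat_lit 792782), .ofNat (nat_lit 737150), .ofNat (nat_lit 814576), .ofNat (nat_lit 710235), .ofNat (nat_lit 785549), .ofNat (nat_lit 732188), .ofNat (nat_lit 807502)⟩, ⟨.ofNat (nat_lit 0), .ofNat (nat_lit 0), .ofNat (nat_lit 0), .ofNat (nat_lit 0), .ofNat (nat_lit 0), .ofNat (nat_lit 0), .ofNat (nat_lit 0), .ofNat (nat_lit 0)⟩⟩, [⟨nat_lit 13, nat_lit 70, nat_lit 62, nat_lit 100, nat_lit 128227806⟩]⟩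
noncomputable def p018_l134 : Lf2 := ⟨nat_lit 0, nat_lit 10, [nat_lit 0, nat_lit 5, nat_lit 5, nat_lit 20], false, nat_lit 0, nat_lit 0, nat_lit 0, nat_lit 0, ⟨nat_lit 206, nat_lit 794, nat_lit 0, nat_lit 8, nat_lit 300, nat_lit 0, nat_lit 0, nat_lit 0, nat_lit 0, nat_lit 0, nat_lit 0, nat_lit 0, nat_lit 42897296, nat_lit 24102704, nat_lit 0, nat_lit 3266346, true, true⟩,
 nat_lit 4046, nat_lit 0, nat_lit 0, nat_lit 0, nat_lit 3398, nat_lit 1935, nat_lit 128, nat_lit 0, nat_lit 0, nat_lit 230, nat_lit 0, nat_lit 0, nat_lit 0, nat_lit 0, nat_lit 0, nat_lit 317600, nat_lit 0, nat_lit 0, [(nat_lit 21, [(nat_lit 1, nat_lit 794)])],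
 ⟨p018_k5, nat_lit 0, nat_lit 0, nat_lit 292, nat_lit 0, nat_lit 510151, [nat_lit 1494620801, nat_lit 2144024000], [], [nat_lit 28462104188, nat_lit 28859292204, nat_lit 30022938580, nat_lit 30397969208], nat_lit 1271250, nat_lit 1271250, nat_lit 1271250, nat_lit 1271250, nat_lit 0, nat_lit 0, [nat_lit 490000, nat_lit 1100000], [nat_lit 24, nat_lit 40, nat_lit 80, nat_lit 80, nat_lit 33, nat_lit 203, nat_lit 0, nat_lit 7]⟩, ⟨p018_k21, nat_lit 0, nat_lit 0, nat_lit 703, nat_lit 0, nat_lit 985457, [nat_lit 1287500000, nat_lit 2027452000, nat_lit 2445632000], [], [nat_lit 8007687558, nat_lit 7995887512, nat_lit 8234154949, nat_lit 8210890922], nat_lit 1271250, nat_lit 1271250, nat_lit 1271250, nat_lit 1271250, nat_lit 0, nat_lit 0, [nat_lit 1412500, nat_lit 1271250, nat_lit 1271250], [nat_lit 46, nat_lit 40, nat_lit 80, nat_lit 80, nat_lit 41, nat_lit 272, nat_lit 60, nat_lit 7]⟩,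
 ⟨nat_lit 3162, nat_lit 3536, ⟨.ofNat (nat_lit 710235), .ofNat (nat_lit 772997), .ofNat (nat_lit 732188), .ofNat (nat_lit 794949), .ofNat (nat_lit 705013), .ofNat (nat_lit 765967), .ofNat (nat_lit 727168), .ofNat (nat_lit 788122)⟩, ⟨.ofNat (nat_lit 0), .ofNat (nat_lit 0), .ofNat (nat_lit 0), .ofNat (nat_lit 0), .ofNat (nat_lit 0), .ofNat (nat_lit 0), .ofNat (nat_lit 0), .ofNat (nat_lit 0)⟩⟩, [⟨nat_lit 13, nat_lit 64, nat_lit 68, nat_lit 100, nat_lit 172142833⟩]⟩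
noncomputable def p018_l135 : Lf2 := ⟨nat_lit 0, nat_lit 10, [nat_lit 0, nat_lit 5, nat_lit 5, nat_lit 20], true, nat_lit 0, nat_lit 0, nat_lit 0, nat_lit 0, ⟨nat_lit 0, nat_lit 1000, nat_lit 0, nat_lit 5, nat_lit 170, nat_lit 0, nat_lit 0, nat_lit 0, nat_lit 0, nat_lit 0, nat_lit 0, nat_lit 0, nat_lit 0, nat_lit 0, nat_lit 0, nat_lit 5000000, false, false⟩,
 nat_lit 0, nat_lit 5639, nat_lit 0, nat_lit 0, nat_lit 4229, nat_lit 0, nat_lit 0, nat_lit 0, nat_lit 0, nat_lit 0, nat_lit 0, nat_lit 0, nat_lit 0, nat_lit 0, nat_lit 0, nat_lit 695800, nat_lit 0, nat_lit 0, [(nat_lit 18, [(nat_lit 1, nat_lit 507), (nat_lit 2, nat_lit 493)]), (nat_lit 21, [(nat_lit 1, nat_lit 507), (nat_lit 2, nat_lit 493)])],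
 ⟨p018_k0, nat_lit 0, nat_lit 0, nat_lit 580, nat_lit 0, nat_lit 994590, [nat_lit 1547873867, nat_lit 1512449334, nat_lit 775628000], [], [nat_lit 23078861202, nat_lit 25207268562, nat_lit 24279058442, nat_lit 25507237408], nat_lit 1271250, nat_lit 1271250, nat_lit 230001, nat_lit 1717500, nat_lit 0, nat_lit 0, [nat_lit 490000, nat_lit 1100000, nat_lit 1442500], [nat_lit 6, nat_lit 40, nat_lit 80, nat_lit 80, nat_lit 3, nat_lit 272, nat_lit 60, nat_lit 11]⟩, C1.Rw.none,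
 ⟨nat_lit 3162, nat_lit 4473, ⟨.ofNat (nat_lit 227776), .ofNat (nat_lit 567977), .ofNat (nat_lit 270729), .ofNat (nat_lit 611007), .ofNat (nat_lit 255876), .ofNat (nat_lit 560952), .ofNat (nat_lit 300005), .ofNat (nat_lit 605159)⟩, ⟨.ofNat (nat_lit 0), .ofNat (nat_lit 0), .ofNat (nat_lit 0), .ofNat (nat_lit 0), .ofNat (nat_lit 0), .ofNat (nat_lit 0), .ofNat (nat_lit 0), .ofNat (nat_lit 0)⟩⟩, []⟩
noncomputable def p018_l136 : Lf2 := ⟨nat_lit 0, nat_lit 10, [nat_lit 0, nat_lit 5, nat_lit 5, nat_lit 20], false, nat_lit 0, nat_lit 0, nat_lit 0, nat_lit 0, ⟨nat_lit 1000, nat_lit 0, nat_lit 0, nat_lit 0, nat_lit 0, nat_lit 0, nat_lit 0, nat_lit 0, nat_lit 0, nat_lit 0, nat_lit 0, nat_lit 0, nat_lit 0, nat_lit 0, nat_lit 0, nat_lit 0, false, false⟩,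
 nat_lit 0, nat_lit 7995, nat_lit 0, nat_lit 0, nat_lit 5996, nat_lit 7171, nat_lit 483, nat_lit 0, nat_lit 0, nat_lit 0, nat_lit 0, nat_lit 0, nat_lit 0, nat_lit 0, nat_lit 0, nat_lit 0, nat_lit 0, nat_lit 0, [],
 ⟨p018_k0, nat_lit 0, nat_lit 0, nat_lit 445, nat_lit 0, nat_lit 807980, [nat_lit 2032000001, nat_lit 4688000000, nat_lit 6250000000], [], [nat_lit 32242786320, nat_lit 33075445624, nat_lit 37324169693, nat_lit 37988958994], nat_lit 1271250, nat_lit 1271250, nat_lit 1271250, nat_lit 1271250, nat_lit 0, nat_lit 0, [nat_lit 490000, nat_lit 1100000, nat_lit 1442500], [nat_lit 6, nat_lit 40, nat_lit 80, nat_lit 80, nat_lit 3, nat_lit 203, nat_lit 0, nat_lit 7]⟩, ⟨p018_k20, nat_lit 0, nat_lit 0, nat_lit 263, nat_lit 0, nat_lit 0, [nat_lit 6250000000, nat_lit 9842000000, nat_lit 11872000000], [], [nat_lit 34980658388, nat_lit 36274776292, nat_lit 43549407864, nat_lit 44302120055], nat_lit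 0, nat_lit 0, nat_lit 0, nat_lit 0, nat_lit 0, nat_lit 0, [], [nat_lit 46, nat_lit 40, nat_lit 80, nat_lit 80, nat_lit 41, nat_lit 401, nat_lit 175, nat_lit 10]⟩,
 zbF0, []⟩
noncomputable def p018_l137 : Lf2 := ⟨nat_lit 0, nat_lit 10, [nat_lit 0, nat_lit 5, nat_lit 5, nat_lit 20], false, nat_lit 0, nat_lit 0, nat_lit 0, nat_lit 0, ⟨nat_lit 1000, nat_lit 0, nat_lit 0, nat_lit 0, nat_lit 0, nat_lit 0, nat_lit 0, nat_lit 0, nat_lit 0, nat_lit 0, nat_lit 0, nat_lit 0, nat_lit 0, nat_lit 0, nat_lit 0, nat_lit 0, false, false⟩,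
 nat_lit 0, nat_lit 5886, nat_lit 0, nat_lit 0, nat_lit 4764, nat_lit 7254, nat_lit 639, nat_lit 0, nat_lit 0, nat_lit 0, nat_lit 0, nat_lit 0, nat_lit 0, nat_lit 0, nat_lit 0, nat_lit 0, nat_lit 0, nat_lit 0, [],
 ⟨p018_k7, nat_lit 0, nat_lit 0, nat_lit 474, nat_lit 0, nat_lit 898994, [nat_lit 2032000001, nat_lit 4688000000, nat_lit 6250000000], [], [nat_lit 29380868345, nat_lit 30198431823, nat_lit 33322098263, nat_lit 34687361693], nat_lit 1271250, nat_lit 1271250, nat_lit 1271250, nat_lit 1271250, nat_lit 0, nat_lit 0, [nat_lit 490000, nat_lit 1100000, nat_lit 1442500], [nat_lit 6, nat_lit 40, nat_lit 80, nat_lit 80, nat_lit 3, nat_lit 210, nat_lit 0, nat_lit 7]⟩, ⟨p018_k20, nat_lit 0, nat_lit 0, nat_lit 255, nat_lit 0, nat_lit 0, [nat_lit 6250000000, nat_lit 9842000000, nat_lit 11872000000], [], [nat_lit 34902109512, nat_lit 36199532808, nat_lit 42277875887, nat_lit 43136748788], nat_lit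 0, nat_lit 0, nat_lit 0, nat_lit 0, nat_lit 0, nat_lit 0, [], [nat_lit 46, nat_lit 40, nat_lit 80, nat_lit 80, nat_lit 41, nat_lit 401, nat_lit 175, nat_lit 10]⟩,
 zbF0, []⟩
noncomputable def p018_l138 : Lf2 := ⟨nat_lit 0, nat_lit 10, [nat_lit 0, nat_lit 5, nat_lit 5, nat_lit 20], false, nat_lit 0, nat_lit 0, nat_lit 0, nat_lit 0, ⟨nat_lit 0, nat_lit 1000, nat_lit 0, nat_lit 5, nat_lit 216, nat_lit 0, nat_lit 0, nat_lit 0, nat_lit 0, nat_lit 0, nat_lit 0, nat_lit 0, nat_lit 0, nat_lit 0, nat_lit 0, nat_lit 5000000, false, true⟩,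
 nat_lit 0, nat_lit 4637, nat_lit 0, nat_lit 0, nat_lit 3477, nat_lit 0, nat_lit 0, nat_lit 0, nat_lit 0, nat_lit 0, nat_lit 0, nat_lit 0, nat_lit 0, nat_lit 0, nat_lit 0, nat_lit 498400, nat_lit 0, nat_lit 0, [(nat_lit 18, [(nat_lit 1, nat_lit 836), (nat_lit 2, nat_lit 164)]), (nat_lit 21, [(nat_lit 1, nat_lit 836), (nat_lit 2, nat_lit 164)])],
 ⟨p018_k0, nat_lit 0, nat_lit 0, nat_lit 419, nat_lit 0, nat_lit 580178, [nat_lit 1447945601, nat_lit 1815568000, nat_lit 1566544000], [], [nat_lit 25216756301, nat_lit 27024818219, nat_lit 31985946183, nat_lit 32122213743], nat_lit 1271250, nat_lit 1271250, nat_lit 230001, nat_lit 2788500, nat_lit 0, nat_lit 0, [nat_lit 490000, nat_lit 1100000, nat_lit 1442500], [nat_lit 6, nat_lit 40, nat_lit 80, nat_lit 80, nat_lit 3, nat_lit 317, nat_lit 100, nat_lit 12]⟩, ⟨p018_k20, nat_lit 0, nat_lit 0, nat_lit 897, nat_lit 0, nat_lit 1127202, [nat_lit 0, nat_lit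 0, nat_lit 0], [], [nat_lit 0, nat_lit 0, nat_lit 0, nat_lit 0], nat_lit 1271250, nat_lit 1271250, nat_lit 230001, nat_lit 2788500, nat_lit 0, nat_lit 0, [nat_lit 1412500, nat_lit 1271250, nat_lit 1271250], [nat_lit 46, nat_lit 40, nat_lit 80, nat_lit 80, nat_lit 41, nat_lit 401, nat_lit 175, nat_lit 11]⟩,
 ⟨nat_lit 3162, nat_lit 4473, ⟨.ofNat (nat_lit 227776), .ofNat (nat_lit 812698), .ofNat (nat_lit 270729), .ofNat (nat_lit 855831), .ofNat (nat_lit 255876), .ofNat (nat_lit 780384), .ofNat (nat_lit 300005), .ofNat (nat_lit 824694)⟩, ⟨.ofNat (nat_lit 0), .ofNat (nat_lit 0), .ofNat (nat_lit 0), .ofNat (nat_lit 0), .ofNat (nat_lit 0), .ofNat (nat_lit 0), .ofNat (nat_lit 0), .ofNat (nat_lit 0)⟩⟩, [⟨nat_lit 13, nat_lit 72, nat_lit 63, nat_lit 100, nat_lit 177173381⟩]⟩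
noncomputable def b_N_800_500_0_1 : St := ⟨false, nat_lit 2, nat_lit 2, nat_lit 0, nat_lit 40, nat_lit 320, nat_lit 360, nat_lit 200, nat_lit 240, nat_lit 40, nat_lit 384, nat_lit 0, nat_lit 0, nat_lit 0, nat_lit 0, nat_lit 0, nat_lit 0, nat_lit 40, nat_lit 80, nat_lit 0, nat_lit 0, nat_lit 0, nat_lit 0⟩
theorem d_N_800_500_0_1 (h : EB TB.env) : Dead b_N_800_500_0_1 := chkB_sound0 h (T :=
(.st (nat_lit 0)
(.gv
(.st (nat_lit 1)
(.spl (nat_lit 0) (nat_lit 340)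
(.leaf p018_l103)
(.trZ (nat_lit 0) (nat_lit 100) (nat_lit 71) (nat_lit 70) (nat_lit 56) (.trX (nat_lit 13) (nat_lit 73) (nat_lit 55) (nat_lit 100) (nat_lit 368) (.leaf p018_l104))))
(.spl (nat_lit 2) (nat_lit 240)
(.leaf p018_l105)
(.spl (nat_lit 2) (nat_lit 320)
(.leaf p018_l106)
(.spl (nat_lit 1) (nat_lit 220)
(.trX (nat_lit 13) (nat_lit 80) (nat_lit 52) (nat_lit 100) (nat_lit 372) (.leaf p018_l107))
(.leaf p018_l108)))))
(.leaf p018_l109))
(.gv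
(.st (nat_lit 1)
(.spl (nat_lit 2) (nat_lit 240)
(.spl (nat_lit 0) (nat_lit 340)
(.spl (nat_lit 2) (nat_lit 120)
(.spl (nat_lit 2) (nat_lit 80)
(.leaf p018_l110)
(.spl (nat_lit 0) (nat_lit 330)
(.leaf p018_l111)
(.leaf p018_l112)))
(.leaf p018_l113))
(.trZ (nat_lit 0) (nat_lit 100) (nat_lit 71) (nat_lit 70) (nat_lit 56) (.spl (nat_lit 0) (nat_lit 350)
(.spl (nat_lit 1) (nat_lit 220)
(.leaf p018_l114)
(.trZ (nat_lit 0) (nat_lit 100) (nat_lit 72) (nat_lit 77) (nat_lit 68) (.leaf p018_l115)))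
(.trZ (nat_lit 0) (nat_lit 100) (nat_lit 66) (nat_lit 75) (nat_lit 64) (.leaf p018_l116)))))
(.spl (nat_lit 0) (nat_lit 340)
(.leaf p018_l117)
(.trX (nat_lit 13) (nat_lit 73) (nat_lit 55) (nat_lit 100) (nat_lit 368) (.leaf p018_l118))))
(.spl (nat_lit 2) (nat_lit 240)
(.spl (nat_lit 2) (nat_lit 160)
(.leaf p018_l119)
(.leaf p018_l120))
(.spl (nat_lit 0) (nat_lit 340)
(.spl (nat_lit 1) (nat_lit 220)
(.trX (nat_lit 13) (nat_lit 80) (nat_lit 52) (nat_lit 100) (nat_lit 372) (.spl (nat_lit 2) (nat_lit 320)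
(.leaf p018_l121)
(.spl (nat_lit 0) (nat_lit 330)
(.leaf p018_l122)
(.trX (nat_lit 13) (nat_lit 76) (nat_lit 57) (nat_lit 100) (nat_lit 368) (.spl (nat_lit 1) (nat_lit 210)
(.trX (nat_lit 13) (nat_lit 76) (nat_lit 61) (nat_lit 100) (nat_lit 360) (.leaf p018_l123))
(.leaf p018_l124))))))
(.spl (nat_lit 0) (nat_lit 330)
(.leaf p018_l125)
(.trX (nat_lit 13) (nat_lit 78) (nat_lit 49) (nat_lit 100) (nat_lit 376) (.spl (nat_lit 2) (nat_lit 320)
(.leaf p018_l126)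
(.leaf p018_l127)))))
(.trX (nat_lit 13) (nat_lit 73) (nat_lit 55) (nat_lit 100) (nat_lit 368) (.spl (nat_lit 2) (nat_lit 320)
(.spl (nat_lit 0) (nat_lit 350)
(.leaf p018_l128)
(.spl (nat_lit 0) (nat_lit 355)
(.leaf p018_l129)
(.leaf p018_l130)))
(.spl (nat_lit 1) (nat_lit 220)
(.trX (nat_lit 13) (nat_lit 72) (nat_lit 63) (nat_lit 100) (nat_lit 360) (.spl (nat_lit 0) (nat_lit 350)
(.leaf p018_l131)
(.trX (nat_lit 13) (nat_lit 66) (nat_lit 68) (nat_lit 100) (nat_lit 348) (.leaf p018_l132))))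
(.spl (nat_lit 0) (nat_lit 350)
(.leaf p018_l133)
(.trX (nat_lit 13) (nat_lit 68) (nat_lit 61) (nat_lit 100) (nat_lit 360) (.leaf p018_l134)))))))))
(.st (nat_lit 1)
(.spl (nat_lit 2) (nat_lit 240)
(.leaf p018_l135)
(.spl (nat_lit 0) (nat_lit 340)
(.leaf p018_l136)
(.trX (nat_lit 13) (nat_lit 73) (nat_lit 55) (nat_lit 100) (nat_lit 368) (.leaf p018_l137))))
(.leaf p018_l138))))) (by decide +kernel)
noncomputable def p018_l139 : Lf2 := ⟨nat_lit 0, nat_lit 10, [nat_lit 0, nat_lit 5, nat_lit 5, nat_lit 20], true, nat_lit 0, nat_lit 0, nat_lit 0, nat_lit 0, ⟨nat_lit 0, nat_lit 170, nat_lit 830, nat_lit 5, nat_lit 170, nat_lit 0, nat_lit 0, nat_lit 0, nat_lit 0, nat_lit 215, nat_lit 817, nat_lit 208, nat_lit 56752254, nat_lit 10247746, nat_lit 0, nat_lit 2138971, false, false⟩,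
 nat_lit 0, nat_lit 0, nat_lit 0, nat_lit 757, nat_lit 2993, nat_lit 0, nat_lit 0, nat_lit 0, nat_lit 0, nat_lit 0, nat_lit 0, nat_lit 0, nat_lit 0, nat_lit 0, nat_lit 16, nat_lit 250000, nat_lit 0, nat_lit 0, [(nat_lit 18, [(nat_lit 0, nat_lit 170), (nat_lit 4, nat_lit 830)]), (nat_lit 21, [(nat_lit 0, nat_lit 170), (nat_lit 4, nat_lit 830)])],
 ⟨p018_k0, nat_lit 0, nat_lit 0, nat_lit 205, nat_lit 0, nat_lit 0, [nat_lit 1629296000, nat_lit 490764001, nat_lit 8872000], [], [nat_lit 18030038578, nat_lit 21464193354, nat_lit 20777206680, nat_lit 23070863412], nat_lit 0, nat_lit 0, nat_lit 0, nat_lit 0, nat_lit 0, nat_lit 0, [], [nat_lit 6, nat_lit 40, nat_lit 80, nat_lit 80, nat_lit 3, nat_lit 272, nat_lit 60, nat_lit 11]⟩, C1.Rw.none,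
 ⟨nat_lit 3162, nat_lit 4473, ⟨.ofNat (nat_lit 227776), .ofNat (nat_lit 567977), .ofNat (nat_lit 270729), .ofNat (nat_lit 611007), .ofNat (nat_lit 255876), .ofNat (nat_lit 560952), .ofNat (nat_lit 300005), .ofNat (nat_lit 605159)⟩, ⟨.ofNat (nat_lit 0), .ofNat (nat_lit 0), .ofNat (nat_lit 0), .ofNat (nat_lit 0), .ofNat (nat_lit 0), .ofNat (nat_lit 0), .ofNat (nat_lit 0), .ofNat (nat_lit 0)⟩⟩, []⟩
noncomputable def p018_l140 : Lf2 := ⟨nat_lit 0, nat_lit 10, [nat_lit 0, nat_lit 5, nat_lit 5, nat_lit 20], false, nat_lit 0, nat_lit 0, nat_lit 0, nat_lit 0, ⟨nat_lit 1000, nat_lit 0, nat_lit 0, nat_lit 0, nat_lit 0, nat_lit 0, nat_lit 0, nat_lit 0, nat_lit 0, nat_lit 0, nat_lit 0, nat_lit 0, nat_lit 0, nat_lit 0, nat_lit 0, nat_lit 0, false, false⟩,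
 nat_lit 0, nat_lit 0, nat_lit 0, nat_lit 14323, nat_lit 5777, nat_lit 0, nat_lit 0, nat_lit 0, nat_lit 0, nat_lit 0, nat_lit 0, nat_lit 0, nat_lit 0, nat_lit 0, nat_lit 0, nat_lit 0, nat_lit 0, nat_lit 0, [],
 ⟨p018_k0, nat_lit 0, nat_lit 0, nat_lit 175, nat_lit 0, nat_lit 0, [nat_lit 2032000001, nat_lit 4688000000, nat_lit 6250000000], [], [nat_lit 28276641412, nat_lit 31243607876, nat_lit 36482409768, nat_lit 38800357244], nat_lit 0, nat_lit 0, nat_lit 0, nat_lit 0, nat_lit 0, nat_lit 0, [], [nat_lit 6, nat_lit 40, nat_lit 80, nat_lit 80, nat_lit 3, nat_lit 203, nat_lit 0, nat_lit 7]⟩, ⟨p018_k20, nat_lit 0, nat_lit 0, nat_lit 263, nat_lit 0, nat_lit 0, [nat_lit 6250000000, nat_lit 9842000000, nat_lit 11872000000], [], [nat_lit 41767092000, nat_lit 42775632000, nat_lit 45797921600, nat_lit 46677625600], nat_lit 0, nat_lit 0, nat_lit 0, nat_lit 0, nat_lit 0, nat_lit 0, [], [nat_lit 46,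 nat_lit 40, nat_lit 80, nat_lit 80, nat_lit 41, nat_lit 401, nat_lit 175, nat_lit 10]⟩,
 zbF0, []⟩
noncomputable def p018_l141 : Lf2 := ⟨nat_lit 0, nat_lit 10, [nat_lit 0, nat_lit 5, nat_lit 5, nat_lit 20], true, nat_lit 0, nat_lit 0, nat_lit 0, nat_lit 0, ⟨nat_lit 0, nat_lit 170, nat_lit 830, nat_lit 5, nat_lit 170, nat_lit 0, nat_lit 0, nat_lit 0, nat_lit 0, nat_lit 215, nat_lit 817, nat_lit 208, nat_lit 56752254, nat_lit 10247746, nat_lit 0, nat_lit 2138971, false, false⟩,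
 nat_lit 0, nat_lit 0, nat_lit 0, nat_lit 757, nat_lit 2993, nat_lit 0, nat_lit 0, nat_lit 0, nat_lit 0, nat_lit 0, nat_lit 0, nat_lit 0, nat_lit 0, nat_lit 0, nat_lit 16, nat_lit 250000, nat_lit 0, nat_lit 0, [(nat_lit 18, [(nat_lit 0, nat_lit 170), (nat_lit 4, nat_lit 830)]), (nat_lit 21, [(nat_lit 0, nat_lit 170), (nat_lit 4, nat_lit 830)])],
 ⟨p018_k8, nat_lit 0, nat_lit 0, nat_lit 203, nat_lit 0, nat_lit 0, [nat_lit 1629296000, nat_lit 8872000], [], [nat_lit 18030038578, nat_lit 21464193354, nat_lit 20777206680, nat_lit 23070863412], nat_lit 0, nat_lit 0, nat_lit 0, nat_lit 0, nat_lit 0, nat_lit 0, [], [nat_lit 69, nat_lit 40, nat_lit 80, nat_lit 80, nat_lit 64, nat_lit 272, nat_lit 60, nat_lit 11]⟩, C1.Rw.none,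
 ⟨nat_lit 3162, nat_lit 4473, ⟨.ofNat (nat_lit 227776), .ofNat (nat_lit 567977), .ofNat (nat_lit 270729), .ofNat (nat_lit 611007), .ofNat (nat_lit 255876), .ofNat (nat_lit 560952), .ofNat (nat_lit 300005), .ofNat (nat_lit 605159)⟩, ⟨.ofNat (nat_lit 0), .ofNat (nat_lit 0), .ofNat (nat_lit 0), .ofNat (nat_lit 0), .ofNat (nat_lit 0), .ofNat (nat_lit 0), .ofNat (nat_lit 0), .ofNat (nat_lit 0)⟩⟩, []⟩
noncomputable def p018_l142 : Lf2 := ⟨nat_lit 0, nat_lit 10, [nat_lit 0, nat_lit 5, nat_lit 5, nat_lit 20], true, nat_lit 0, nat_lit 0, nat_lit 0, nat_lit 0, ⟨nat_lit 0, nat_lit 1000, nat_lit 0, nat_lit 6, nat_lit 260, nat_lit 0, nat_lit 0, nat_lit 0, nat_lit 0, nat_lit 0, nat_lit 0, nat_lit 0, nat_lit 47067364, nat_lit 19932636, nat_lit 0, nat_lit 3043663, true, true⟩,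
 nat_lit 0, nat_lit 0, nat_lit 0, nat_lit 153, nat_lit 3890, nat_lit 0, nat_lit 0, nat_lit 0, nat_lit 0, nat_lit 0, nat_lit 0, nat_lit 0, nat_lit 0, nat_lit 0, nat_lit 0, nat_lit 250000, nat_lit 0, nat_lit 0, [(nat_lit 18, [(nat_lit 0, nat_lit 1000)]), (nat_lit 21, [(nat_lit 0, nat_lit 1000)])],
 ⟨p018_k0, nat_lit 0, nat_lit 0, nat_lit 155, nat_lit 0, nat_lit 0, [nat_lit 1558400000, nat_lit 2168000000, nat_lit 2562000000], [], [nat_lit 23843180560, nat_lit 26228969320, nat_lit 27285861800, nat_lit 29305986400], nat_lit 0, nat_lit 0, nat_lit 0, nat_lit 0, nat_lit 0, nat_lit 0, [], [nat_lit 6, nat_lit 40, nat_lit 80, nat_lit 80, nat_lit 3, nat_lit 203, nat_lit 0, nat_lit 7]⟩, C1.Rw.none,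
 ⟨nat_lit 3162, nat_lit 4473, ⟨.ofNat (nat_lit 567977), .ofNat (nat_lit 703933), .ofNat (nat_lit 611007), .ofNat (nat_lit 747055), .ofNat (nat_lit 560952), .ofNat (nat_lit 682859), .ofNat (nat_lit 605159), .ofNat (nat_lit 727157)⟩, ⟨.ofNat (nat_lit 0), .ofNat (nat_lit 0), .ofNat (nat_lit 0), .ofNat (nat_lit 0), .ofNat (nat_lit 0), .ofNat (nat_lit 0), .ofNat (nat_lit 0), .ofNat (nat_lit 0)⟩⟩, []⟩
noncomputable def p018_l143 : Lf2 := ⟨nat_lit 0, nat_lit 10, [nat_lit 0, nat_lit 5, nat_lit 5, nat_lit 20], true, nat_lit 0, nat_lit 0, nat_lit 0, nat_lit 0, ⟨nat_lit 0, nat_lit 1000, nat_lit 0, nat_lit 8, nat_lit 298, nat_lit 0, nat_lit 0, nat_lit 0, nat_lit 0, nat_lit 0, nat_lit 0, nat_lit 0, nat_lit 43035409, nat_lit 23964591, nat_lit 0, nat_lit 3260358, true, true⟩,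
 nat_lit 0, nat_lit 0, nat_lit 0, nat_lit 2808, nat_lit 3609, nat_lit 0, nat_lit 0, nat_lit 0, nat_lit 0, nat_lit 0, nat_lit 0, nat_lit 0, nat_lit 0, nat_lit 0, nat_lit 0, nat_lit 250000, nat_lit 0, nat_lit 0, [(nat_lit 18, [(nat_lit 0, nat_lit 1000)]), (nat_lit 21, [(nat_lit 0, nat_lit 1000)])],
 ⟨p018_k0, nat_lit 0, nat_lit 0, nat_lit 172, nat_lit 0, nat_lit 0, [nat_lit 1558400000, nat_lit 2168000000, nat_lit 2562000000], [], [nat_lit 27519885540, nat_lit 29417442240, nat_lit 30092888290, nat_lit 31807449650], nat_lit 0, nat_lit 0, nat_lit 0, nat_lit 0, nat_lit 0, nat_lit 0, [], [nat_lit 6, nat_lit 40, nat_lit 80, nat_lit 80, nat_lit 3, nat_lit 203, nat_lit 0, nat_lit 6]⟩, C1.Rw.none,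
 ⟨nat_lit 3162, nat_lit 4473, ⟨.ofNat (nat_lit 703933), .ofNat (nat_lit 792305), .ofNat (nat_lit 725499), .ofNat (nat_lit 813871), .ofNat (nat_lit 682859), .ofNat (nat_lit 762098), .ofNat (nat_lit 705013), .ofNat (nat_lit 784253)⟩, ⟨.ofNat (nat_lit 0), .ofNat (nat_lit 0), .ofNat (nat_lit 0), .ofNat (nat_lit 0), .ofNat (nat_lit 0), .ofNat (nat_lit 0), .ofNat (nat_lit 0), .ofNat (nat_lit 0)⟩⟩, [⟨nat_lit 13, nat_lit 72, nat_lit 66, nat_lit 100, nat_lit 273799067⟩]⟩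
noncomputable def p018_l144 : Lf2 := ⟨nat_lit 0, nat_lit 10, [nat_lit 0, nat_lit 5, nat_lit 5, nat_lit 20], false, nat_lit 0, nat_lit 0, nat_lit 0, nat_lit 0, ⟨nat_lit 52, nat_lit 948, nat_lit 0, nat_lit 8, nat_lit 306, nat_lit 0, nat_lit 0, nat_lit 0, nat_lit 0, nat_lit 0, nat_lit 0, nat_lit 0, nat_lit 42290294, nat_lit 24709706, nat_lit 0, nat_lit 3291573, true, true⟩,
 nat_lit 0, nat_lit 0, nat_lit 1028, nat_lit 0, nat_lit 3880, nat_lit 491, nat_lit 0, nat_lit 0, nat_lit 0, nat_lit 35, nat_lit 0, nat_lit 0, nat_lit 0, nat_lit 0, nat_lit 0, nat_lit 237000, nat_lit 0, nat_lit 0, [(nat_lit 18, [(nat_lit 0, nat_lit 948)])],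
 ⟨p018_k0, nat_lit 0, nat_lit 0, nat_lit 162, nat_lit 0, nat_lit 0, [nat_lit 1558758401, nat_lit 2299040001, nat_lit 2753776000], [], [nat_lit 27614821601, nat_lit 28623795201, nat_lit 29704630321, nat_lit 30615168200], nat_lit 0, nat_lit 0, nat_lit 0, nat_lit 0, nat_lit 0, nat_lit 0, [], [nat_lit 6, nat_lit 40, nat_lit 80, nat_lit 80, nat_lit 3, nat_lit 203, nat_lit 0, nat_lit 6]⟩, ⟨p018_k21, nat_lit 0, nat_lit 0, nat_lit 660, nat_lit 0, nat_lit 880464, [nat_lit 325000000, nat_lit 511784000, nat_lit 617344000], [], [nat_lit 2169149364, nat_lit 2161925353, nat_lit 2220185408, nat_lit 2220415700], nat_lit 1271250, nat_lit 1271250, nat_lit 1271250, nat_lit 1271250, nat_lit 0, nat_lit 0, [nat_lit 1412500, nat_lit 1271250, nat_lit 1271250], [nat_lit 46, nat_lit 40, nat_lit 80, nat_lit 80, nat_lit 41, nat_lit 272, nat_lit 60, nat_lit 7]⟩,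
 ⟨nat_lit 3872, nat_lit 4473, ⟨.ofNat (nat_lit 725499), .ofNat (nat_lit 793478), .ofNat (nat_lit 747053), .ofNat (nat_lit 815035), .ofNat (nat_lit 715356), .ofNat (nat_lit 779878), .ofNat (nat_lit 737137), .ofNat (nat_lit 801662)⟩, ⟨.ofNat (nat_lit 0), .ofNat (nat_lit 0), .ofNat (nat_lit 0), .ofNat (nat_lit 0), .ofNat (nat_lit 0), .ofNat (nat_lit 0), .ofNat (nat_lit 0), .ofNat (nat_lit 0)⟩⟩, []⟩
noncomputable def p018_l145 : Lf2 := ⟨nat_lit 0, nat_lit 10, [nat_lit 0, nat_lit 5, nat_lit 5, nat_lit 20], false, nat_lit 0, nat_lit 0, nat_lit 0, nat_lit 0, ⟨nat_lit 62, nat_lit 938, nat_lit 0, nat_lit 9, nat_lit 327, nat_lit 0, nat_lit 0, nat_lit 0, nat_lit 0, nat_lit 0, nat_lit 0, nat_lit 0, nat_lit 40164871, nat_lit 26835129, nat_lit 0, nat_lit 3366117, true, true⟩,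
 nat_lit 0, nat_lit 0, nat_lit 1184, nat_lit 0, nat_lit 3757, nat_lit 566, nat_lit 0, nat_lit 0, nat_lit 0, nat_lit 41, nat_lit 0, nat_lit 0, nat_lit 0, nat_lit 0, nat_lit 0, nat_lit 234500, nat_lit 0, nat_lit 0, [(nat_lit 18, [(nat_lit 0, nat_lit 938)])],
 ⟨p018_k0, nat_lit 0, nat_lit 0, nat_lit 171, nat_lit 0, nat_lit 0, [nat_lit 1563750401, nat_lit 2324240000, nat_lit 2790656000], [], [nat_lit 29813522398, nat_lit 30712300446, nat_lit 31050153633, nat_lit 31890848956], nat_lit 0, nat_lit 0, nat_lit 0, nat_lit 0, nat_lit 0, nat_lit 0, [], [nat_lit 6, nat_lit 40, nat_lit 80, nat_lit 80, nat_lit 3, nat_lit 203, nat_lit 0, nat_lit 6]⟩, ⟨p018_k21, nat_lit 0, nat_lit 0, nat_lit 659, nat_lit 0, nat_lit 880464, [nat_lit 387500000, nat_lit 610204000, nat_lit 736064000], [], [nat_lit 2713577331, nat_lit 2704755655, nat_lit 2749962448, nat_lit 2742127582], nat_lit 1271250, nat_lit 1271250, nat_lit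 1271250, nat_lit 1271250, nat_lit 0, nat_lit 0, [nat_lit 1412500, nat_lit 1271250, nat_lit 1271250], [nat_lit 46, nat_lit 40, nat_lit 80, nat_lit 80, nat_lit 41, nat_lit 272, nat_lit 60, nat_lit 6]⟩,
 ⟨nat_lit 3872, nat_lit 4473, ⟨.ofNat (nat_lit 793478), .ofNat (nat_lit 834264), .ofNat (nat_lit 815035), .ofNat (nat_lit 855824), .ofNat (nat_lit 779878), .ofNat (nat_lit 818591), .ofNat (nat_lit 801662), .ofNat (nat_lit 840378)⟩, ⟨.ofNat (nat_lit 0), .ofNat (nat_lit 0), .ofNat (nat_lit 0), .ofNat (nat_lit 0), .ofNat (nat_lit 0), .ofNat (nat_lit 0), .ofNat (nat_lit 0), .ofNat (nat_lit 0)⟩⟩, [⟨nat_lit 13, nat_lit 77, nat_lit 53, nat_lit 100, nat_lit 245797551⟩]⟩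
noncomputable def p018_l146 : Lf2 := ⟨nat_lit 0, nat_lit 10, [nat_lit 0, nat_lit 5, nat_lit 5, nat_lit 20], false, nat_lit 0, nat_lit 0, nat_lit 0, nat_lit 0, ⟨nat_lit 43, nat_lit 957, nat_lit 0, nat_lit 8, nat_lit 304, nat_lit 0, nat_lit 0, nat_lit 0, nat_lit 0, nat_lit 0, nat_lit 0, nat_lit 0, nat_lit 42518106, nat_lit 24481894, nat_lit 0, nat_lit 3282313, true, true⟩,
 nat_lit 0, nat_lit 0, nat_lit 848, nat_lit 0, nat_lit 3606, nat_lit 405, nat_lit 0, nat_lit 0, nat_lit 0, nat_lit 26, nat_lit 0, nat_lit 0, nat_lit 0, nat_lit 0, nat_lit 0, nat_lit 239250, nat_lit 0, nat_lit 0, [(nat_lit 21, [(nat_lit 0, nat_lit 957)])],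
 ⟨p018_k7, nat_lit 0, nat_lit 0, nat_lit 171, nat_lit 0, nat_lit 0, [nat_lit 1578764801, nat_lit 2255306001, nat_lit 2322472000], [], [nat_lit 28320337550, nat_lit 29266410161, nat_lit 30605444375, nat_lit 31471866032], nat_lit 0, nat_lit 0, nat_lit 0, nat_lit 0, nat_lit 0, nat_lit 0, [], [nat_lit 6, nat_lit 40, nat_lit 80, nat_lit 80, nat_lit 3, nat_lit 203, nat_lit 0, nat_lit 6]⟩, ⟨p018_k21, nat_lit 0, nat_lit 0, nat_lit 868, nat_lit 0, nat_lit 1357508, [nat_lit 268750000, nat_lit 423206000, nat_lit 510496000], [], [nat_lit 1850913690, nat_lit 1842263464, nat_lit 1885625389, nat_lit 1885904432], nat_lit 1271250, nat_lit 1271250, nat_lit 1271250, nat_lit 1271250, nat_lit 0, nat_lit 0, [nat_lit 1412500, nat_lit 1271250, nat_lit 1271250], [nat_lit 46, nat_lit 40, nat_lit 80, nat_lit 80, nat_lit 41, nat_lit 293, nat_lit 60, nat_lit 7]⟩,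
 ⟨nat_lit 3162, nat_lit 3873, ⟨.ofNat (nat_lit 715356), .ofNat (nat_lit 792782), .ofNat (nat_lit 737150), .ofNat (nat_lit 814576), .ofNat (nat_lit 705013), .ofNat (nat_lit 778158), .ofNat (nat_lit 727168), .ofNat (nat_lit 800312)⟩, ⟨.ofNat (nat_lit 0), .ofNat (nat_lit 0), .ofNat (nat_lit 0), .ofNat (nat_lit 0), .ofNat (nat_lit 0), .ofNat (nat_lit 0), .ofNat (nat_lit 0), .ofNat (nat_lit 0)⟩⟩, [⟨nat_lit 13, nat_lit 67, nat_lit 65, nat_lit 100, nat_lit 46188520⟩, ⟨nat_lit 13, nat_lit 73, nat_lit 55, nat_lit 100, nat_lit 207547899⟩]⟩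
noncomputable def p018_l147 : Lf2 := ⟨nat_lit 0, nat_lit 10, [nat_lit 0, nat_lit 5, nat_lit 5, nat_lit 20], true, nat_lit 0, nat_lit 0, nat_lit 0, nat_lit 0, ⟨nat_lit 0, nat_lit 1000, nat_lit 0, nat_lit 5, nat_lit 216, nat_lit 0, nat_lit 0, nat_lit 0, nat_lit 0, nat_lit 0, nat_lit 0, nat_lit 0, nat_lit 0, nat_lit 0, nat_lit 0, nat_lit 5000000, false, true⟩,
 nat_lit 0, nat_lit 0, nat_lit 0, nat_lit 2833, nat_lit 3817, nat_lit 0, nat_lit 0, nat_lit 0, nat_lit 0, nat_lit 0, nat_lit 0, nat_lit 0, nat_lit 0, nat_lit 0, nat_lit 0, nat_lit 250000, nat_lit 0, nat_lit 0, [(nat_lit 18, [(nat_lit 0, nat_lit 1000)]), (nat_lit 21, [(nat_lit 0, nat_lit 1000)])],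
 ⟨p018_k8, nat_lit 0, nat_lit 0, nat_lit 203, nat_lit 0, nat_lit 0, [nat_lit 1558400000, nat_lit 2562000000], [], [nat_lit 23016561222, nat_lit 25966130072, nat_lit 31512038318, nat_lit 33106461907], nat_lit 0, nat_lit 0, nat_lit 0, nat_lit 0, nat_lit 0, nat_lit 0, [], [nat_lit 69, nat_lit 40, nat_lit 80, nat_lit 80, nat_lit 64, nat_lit 317, nat_lit 100, nat_lit 12]⟩, C1.Rw.none,
 ⟨nat_lit 3162, nat_lit 4473, ⟨.ofNat (nat_lit 227776), .ofNat (nat_lit 812698), .ofNat (nat_lit 270729), .ofNat (nat_lit 855831), .ofNat (nat_lit 255876), .ofNat (nat_lit 780384), .ofNat (nat_lit 300005), .ofNat (nat_lit 824694)⟩, ⟨.ofNat (nat_lit 0), .ofNat (nat_lit 0), .ofNat (nat_lit 0), .ofNat (nat_lit 0), .ofNat (nat_lit 0), .ofNat (nat_lit 0), .ofNat (nat_lit 0), .ofNat (nat_lit 0)⟩⟩, [⟨nat_lit 13, nat_lit 82, nat_lit 44, nat_lit 100, nat_lit 191780271⟩]⟩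
noncomputable def p018_l148 : Lf2 := ⟨nat_lit 0, nat_lit 10, [nat_lit 0, nat_lit 5, nat_lit 5, nat_lit 20], false, nat_lit 0, nat_lit 0, nat_lit 0, nat_lit 0, ⟨nat_lit 146, nat_lit 0, nat_lit 854, nat_lit 5, nat_lit 131, nat_lit 0, nat_lit 0, nat_lit 0, nat_lit 0, nat_lit 215, nat_lit 160067, nat_lit 313, nat_lit 60487018, nat_lit 0, nat_lit 0, nat_lit 1594528, false, false⟩,
 nat_lit 0, nat_lit 4055, nat_lit 0, nat_lit 0, nat_lit 3041, nat_lit 3743, nat_lit 0, nat_lit 0, nat_lit 0, nat_lit 0, nat_lit 0, nat_lit 0, nat_lit 0, nat_lit 0, nat_lit 19, nat_lit 341600, nat_lit 0, nat_lit 0, [(nat_lit 18, [(nat_lit 5, nat_lit 854)]), (nat_lit 21, [(nat_lit 5, nat_lit 854)])],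
 ⟨p018_k0, nat_lit 0, nat_lit 0, nat_lit 422, nat_lit 0, nat_lit 590141, [nat_lit 1283542400, nat_lit 634892000, nat_lit 7059200], [], [nat_lit 19259097732, nat_lit 21609555498, nat_lit 19511482372, nat_lit 21459685172], nat_lit 1271250, nat_lit 1271250, nat_lit 230001, nat_lit 780000, nat_lit 0, nat_lit 0, [nat_lit 490000, nat_lit 1100000, nat_lit 1442500], [nat_lit 6, nat_lit 40, nat_lit 80, nat_lit 80, nat_lit 3, nat_lit 238, nat_lit 30, nat_lit 9]⟩, ⟨p018_k20, nat_lit 0, nat_lit 0, nat_lit 340, nat_lit 0, nat_lit 0, [nat_lit 912500000, nat_lit 1436932000, nat_lit 1733312000], [], [nat_lit 7349481018, nat_lit 7745799774, nat_lit 5329959620, nat_lit 5531495560], nat_lit 0, nat_lit 0, nat_lit 0, nat_lit 0, nat_lit 0, nat_lit 0, [], [nat_lit 46, nat_lit 40, nat_lit 80, nat_lit 80, nat_lit 41, nat_lit 317, nat_lit 100, nat_lit 9]⟩,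
 ⟨nat_lit 3162, nat_lit 4473, ⟨.ofNat (nat_lit 227776), .ofNat (nat_lit 363888), .ofNat (nat_lit 270729), .ofNat (nat_lit 406840), .ofNat (nat_lit 255876), .ofNat (nat_lit 377938), .ofNat (nat_lit 300005), .ofNat (nat_lit 422066)⟩, ⟨.ofNat (nat_lit 0), .ofNat (nat_lit 0), .ofNat (nat_lit 0), .ofNat (nat_lit 0), .ofNat (nat_lit 0), .ofNat (nat_lit 0), .ofNat (nat_lit 0), .ofNat (nat_lit 0)⟩⟩, [⟨nat_lit 0, nat_lit 100, nat_lit 61, nat_lit 92, nat_lit 470766014⟩]⟩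
noncomputable def p018_l149 : Lf2 := ⟨nat_lit 0, nat_lit 10, [nat_lit 0, nat_lit 5, nat_lit 5, nat_lit 20], false, nat_lit 0, nat_lit 0, nat_lit 0, nat_lit 0, ⟨nat_lit 1000, nat_lit 0, nat_lit 0, nat_lit 0, nat_lit 0, nat_lit 0, nat_lit 0, nat_lit 0, nat_lit 0, nat_lit 0, nat_lit 0, nat_lit 0, nat_lit 0, nat_lit 0, nat_lit 0, nat_lit 0, false, false⟩,
 nat_lit 0, nat_lit 8550, nat_lit 0, nat_lit 0, nat_lit 6412, nat_lit 9325, nat_lit 523, nat_lit 0, nat_lit 0, nat_lit 0, nat_lit 0, nat_lit 0, nat_lit 0, nat_lit 0, nat_lit 0, nat_lit 0, nat_lit 0, nat_lit 0, [],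
 ⟨p018_k0, nat_lit 0, nat_lit 0, nat_lit 367, nat_lit 0, nat_lit 590141, [nat_lit 2032000001, nat_lit 4688000000, nat_lit 6250000000], [], [nat_lit 27160944672, nat_lit 29520730288, nat_lit 37635913264, nat_lit 40643785604], nat_lit 1271250, nat_lit 1271250, nat_lit 780000, nat_lit 2941500, nat_lit 0, nat_lit 0, [nat_lit 490000, nat_lit 1100000, nat_lit 1442500], [nat_lit 6, nat_lit 40, nat_lit 80, nat_lit 80, nat_lit 3, nat_lit 317, nat_lit 100, nat_lit 12]⟩, ⟨p018_k20, nat_lit 0, nat_lit 0, nat_lit 263, nat_lit 0, nat_lit 0, [nat_lit 6250000000, nat_lit 9842000000, nat_lit 11872000000], [], [nat_lit 30683350800, nat_lit 32607858450, nat_lit 45782209800, nat_lit 46472848880], nat_lit 0, nat_lit 0, nat_lit 0, nat_lit 0, nat_lit 0, nat_lit 0, [], [nat_lit 46, nat_lit 40, nat_lit 80, nat_lit 80, nat_lit 41, nat_lit 401, nat_lit 175, nat_lit 11]⟩,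
 zbF0, []⟩
noncomputable def p018_l150 : Lf2 := ⟨nat_lit 0, nat_lit 10, [nat_lit 0, nat_lit 5, nat_lit 5, nat_lit 20], false, nat_lit 0, nat_lit 0, nat_lit 0, nat_lit 0, ⟨nat_lit 75, nat_lit 0, nat_lit 925, nat_lit 5, nat_lit 170, nat_lit 0, nat_lit 0, nat_lit 0, nat_lit 0, nat_lit 215, nat_lit 817, nat_lit 208, nat_lit 56752254, nat_lit 0, nat_lit 0, nat_lit 2138971, false, false⟩,
 nat_lit 2595, nat_lit 833, nat_lit 0, nat_lit 0, nat_lit 2570, nat_lit 1111, nat_lit 0, nat_lit 0, nat_lit 0, nat_lit 22, nat_lit 0, nat_lit 0, nat_lit 0, nat_lit 0, nat_lit 47, nat_lit 370000, nat_lit 0, nat_lit 0, [(nat_lit 18, [(nat_lit 5, nat_lit 925)]), (nat_lit 21, [(nat_lit 5, nat_lit 925)])],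
 ⟨p018_k0, nat_lit 0, nat_lit 0, nat_lit 330, nat_lit 0, nat_lit 360216, [nat_lit 1432680000, nat_lit 720650000, nat_lit 16440000], [], [nat_lit 18006191680, nat_lit 20191757680, nat_lit 21264107600, nat_lit 23215104040], nat_lit 1271250, nat_lit 1271250, nat_lit 230001, nat_lit 1717500, nat_lit 0, nat_lit 0, [nat_lit 490000, nat_lit 1100000, nat_lit 1442500], [nat_lit 6, nat_lit 40, nat_lit 80, nat_lit 80, nat_lit 3, nat_lit 272, nat_lit 60, nat_lit 11]⟩, ⟨p018_k20, nat_lit 0, nat_lit 0, nat_lit 713, nat_lit 0, nat_lit 723498, [nat_lit 468750000, nat_lit 738150000, nat_lit 890400000], [], [nat_lit 3577080844, nat_lit 3585342886, nat_lit 3951691516, nat_lit 2905713332], nat_lit 1271250, nat_lit 1271250, nat_lit 230001, nat_lit 1717500, nat_lit 0, nat_lit 0, [nat_lit 1412500, nat_lit 1271250, nat_lit 1271250], [nat_lit 46, nat_lit 40, nat_lit 80, nat_lit 80, nat_lit 41, nat_lit 345, nat_lit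 125, nat_lit 9]⟩,
 ⟨nat_lit 3162, nat_lit 4473, ⟨.ofNat (nat_lit 227776), .ofNat (nat_lit 567977), .ofNat (nat_lit 270729), .ofNat (nat_lit 611007), .ofNat (nat_lit 255876), .ofNat (nat_lit 560952), .ofNat (nat_lit 300005), .ofNat (nat_lit 605159)⟩, ⟨.ofNat (nat_lit 0), .ofNat (nat_lit 0), .ofNat (nat_lit 0), .ofNat (nat_lit 0), .ofNat (nat_lit 0), .ofNat (nat_lit 0), .ofNat (nat_lit 0), .ofNat (nat_lit 0)⟩⟩, []⟩
noncomputable def p018_l151 : Lf2 := ⟨nat_lit 0, nat_lit 10, [nat_lit 0, nat_lit 5, nat_lit 5, nat_lit 20], false, nat_lit 0, nat_lit 0, nat_lit 0, nat_lit 0, ⟨nat_lit 802, nat_lit 0, nat_lit 198, nat_lit 6, nat_lit 275, nat_lit 0, nat_lit 0, nat_lit 0, nat_lit 0, nat_lit 215, nat_lit 356492, nat_lit 200, nat_lit 45542828, nat_lit 0, nat_lit 0, nat_lit 3135311, true, true⟩,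
 nat_lit 13444, nat_lit 0, nat_lit 0, nat_lit 0, nat_lit 5563, nat_lit 5761, nat_lit 0, nat_lit 0, nat_lit 0, nat_lit 0, nat_lit 0, nat_lit 0, nat_lit 0, nat_lit 0, nat_lit 0, nat_lit 44025, nat_lit 0, nat_lit 0, [(nat_lit 18, [(nat_lit 3, nat_lit 73), (nat_lit 4, nat_lit 125)])],
 ⟨p018_k0, nat_lit 0, nat_lit 0, nat_lit 235, nat_lit 0, nat_lit 203338, [nat_lit 2818592001, nat_lit 3737698801, nat_lit 4855958000], [], [nat_lit 28169020337, nat_lit 29445652890, nat_lit 34813728358, nat_lit 35769166515], nat_lit 1271250, nat_lit 1271250, nat_lit 1271250, nat_lit 1271250, nat_lit 0, nat_lit 0, [nat_lit 490000, nat_lit 1100000, nat_lit 1442500], [nat_lit 6, nat_lit 40, nat_lit 80, nat_lit 80, nat_lit 3, nat_lit 203, nat_lit 0, nat_lit 7]⟩, ⟨p018_k20, nat_lit 0, nat_lit 0, nat_lit 445, nat_lit 0, nat_lit 408406, [nat_lit 5012500000, nat_lit 7893284000, nat_lit 9521344000], [], [nat_lit 37647649788,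 nat_lit 37869203446, nat_lit 41087419484, nat_lit 41152197565], nat_lit 1271250, nat_lit 1271250, nat_lit 1271250, nat_lit 1271250, nat_lit 0, nat_lit 0, [nat_lit 1412500, nat_lit 1271250, nat_lit 1271250], [nat_lit 46, nat_lit 40, nat_lit 80, nat_lit 80, nat_lit 41, nat_lit 373, nat_lit 150, nat_lit 9]⟩,
 ⟨nat_lit 3872, nat_lit 4473, ⟨.ofNat (nat_lit 567977), .ofNat (nat_lit 792305), .ofNat (nat_lit 589534), .ofNat (nat_lit 813871), .ofNat (nat_lit 564520), .ofNat (nat_lit 777441), .ofNat (nat_lit 586304), .ofNat (nat_lit 799235)⟩, ⟨.ofNat (nat_lit 0), .ofNat (nat_lit 0), .ofNat (nat_lit 0), .ofNat (nat_lit 0), .ofNat (nat_lit 0), .ofNat (nat_lit 0), .ofNat (nat_lit 0), .ofNat (nat_lit 0)⟩⟩, []⟩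
noncomputable def p018_l152 : Lf2 := ⟨nat_lit 0, nat_lit 10, [nat_lit 0, nat_lit 5, nat_lit 5, nat_lit 20], false, nat_lit 0, nat_lit 0, nat_lit 0, nat_lit 0, ⟨nat_lit 1000, nat_lit 0, nat_lit 0, nat_lit 0, nat_lit 0, nat_lit 0, nat_lit 0, nat_lit 0, nat_lit 0, nat_lit 0, nat_lit 0, nat_lit 0, nat_lit 0, nat_lit 0, nat_lit 0, nat_lit 0, false, false⟩,
 nat_lit 19153, nat_lit 0, nat_lit 0, nat_lit 0, nat_lit 6854, nat_lit 9159, nat_lit 0, nat_lit 0, nat_lit 0, nat_lit 930, nat_lit 0, nat_lit 0, nat_lit 0, nat_lit 0, nat_lit 0, nat_lit 0, nat_lit 0, nat_lit 0, [],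
 ⟨p018_k0, nat_lit 0, nat_lit 0, nat_lit 249, nat_lit 0, nat_lit 240824, [nat_lit 2032000001, nat_lit 4688000000, nat_lit 6250000000], [], [nat_lit 30390659904, nat_lit 31665242592, nat_lit 38804283688, nat_lit 40366175252], nat_lit 1271250, nat_lit 1271250, nat_lit 1271250, nat_lit 1271250, nat_lit 0, nat_lit 0, [nat_lit 490000, nat_lit 1100000, nat_lit 1442500], [nat_lit 6, nat_lit 40, nat_lit 80, nat_lit 80, nat_lit 3, nat_lit 203, nat_lit 0, nat_lit 7]⟩, ⟨p018_k21, nat_lit 0, nat_lit 0, nat_lit 447, nat_lit 0, nat_lit 419736, [nat_lit 6250000000, nat_lit 9842000000, nat_lit 11872000000], [], [nat_lit 37152506218, nat_lit 37345464798, nat_lit 41637364061, nat_lit 41584630268], nat_lit 1271250, nat_lit 1271250, nat_lit 1271250, nat_lit 1271250, nat_lit 0, nat_lit 0, [nat_lit 1412500, nat_lit 1271250, nat_lit 1271250], [nat_lit 46, nat_lit 40, nat_lit 80, nat_lit 80, nat_lit 41, nat_lit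 401, nat_lit 175, nat_lit 10]⟩,
 zbF0, []⟩
noncomputable def p018_l153 : Lf2 := ⟨nat_lit 0, nat_lit 10, [nat_lit 0, nat_lit 5, nat_lit 5, nat_lit 20], false, nat_lit 0, nat_lit 0, nat_lit 0, nat_lit 0, ⟨nat_lit 185, nat_lit 815, nat_lit 0, nat_lit 6, nat_lit 260, nat_lit 0, nat_lit 0, nat_lit 0, nat_lit 0, nat_lit 0, nat_lit 0, nat_lit 0, nat_lit 47136639, nat_lit 19863361, nat_lit 0, nat_lit 3039208, true, true⟩,
 nat_lit 4632, nat_lit 0, nat_lit 0, nat_lit 0, nat_lit 3749, nat_lit 1985, nat_lit 216, nat_lit 0, nat_lit 0, nat_lit 137, nat_lit 0, nat_lit 0, nat_lit 0, nat_lit 0, nat_lit 0, nat_lit 203750, nat_lit 0, nat_lit 0, [(nat_lit 21, [(nat_lit 0, nat_lit 815)])],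
 ⟨p018_k7, nat_lit 0, nat_lit 0, nat_lit 242, nat_lit 0, nat_lit 273967, [nat_lit 1646016001, nat_lit 2616270001, nat_lit 2905240000], [], [nat_lit 24686134475, nat_lit 25212244639, nat_lit 27608339595, nat_lit 28053786471], nat_lit 1271250, nat_lit 1271250, nat_lit 1271250, nat_lit 1271250, nat_lit 0, nat_lit 0, [nat_lit 490000, nat_lit 1100000, nat_lit 1442500], [nat_lit 6, nat_lit 40, nat_lit 80, nat_lit 80, nat_lit 3, nat_lit 203, nat_lit 0, nat_lit 7]⟩, ⟨p018_k20, nat_lit 0, nat_lit 0, nat_lit 542, nat_lit 0, nat_lit 602374, [nat_lit 1156250000, nat_lit 1820770000, nat_lit 2196320000], [], [nat_lit 7342359580, nat_lit 7340906720, nat_lit 7611267120, nat_lit 7588150240], nat_lit 1271250, nat_lit 1271250, nat_lit 1271250, nat_lit 1271250, nat_lit 0, nat_lit 0, [nat_lit 1412500, nat_lit 1271250, nat_lit 1271250], [nat_lit 46, nat_lit 40, nat_lit 80, nat_lit 80, nat_lit 41, nat_lit 373,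 nat_lit 150, nat_lit 9]⟩,
 ⟨nat_lit 3535, nat_lit 3873, ⟨.ofNat (nat_lit 564520), .ofNat (nat_lit 693563), .ofNat (nat_lit 608101), .ofNat (nat_lit 737150), .ofNat (nat_lit 562760), .ofNat (nat_lit 688283), .ofNat (nat_lit 606659), .ofNat (nat_lit 732188)⟩, ⟨.ofNat (nat_lit 0), .ofNat (nat_lit 0), .ofNat (nat_lit 0), .ofNat (nat_lit 0), .ofNat (nat_lit 0), .ofNat (nat_lit 0), .ofNat (nat_lit 0), .ofNat (nat_lit 0)⟩⟩, []⟩
noncomputable def p018_l154 : Lf2 := ⟨nat_lit 0, nat_lit 10, [nat_lit 0, nat_lit 5, nat_lit 5, nat_lit 20], false, nat_lit 0, nat_lit 0, nat_lit 0, nat_lit 0, ⟨nat_lit 148, nat_lit 446, nat_lit 406, nat_lit 6, nat_lit 258, nat_lit 0, nat_lit 0, nat_lit 0, nat_lit 0, nat_lit 215, nat_lit 193126, nat_lit 200, nat_lit 47282545, nat_lit 19717455, nat_lit 0, nat_lit 3029742, true, true⟩,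
 nat_lit 3721, nat_lit 0, nat_lit 0, nat_lit 0, nat_lit 3125, nat_lit 1594, nat_lit 0, nat_lit 0, nat_lit 0, nat_lit 110, nat_lit 0, nat_lit 0, nat_lit 0, nat_lit 0, nat_lit 0, nat_lit 273900, nat_lit 0, nat_lit 0, [(nat_lit 21, [(nat_lit 0, nat_lit 446), (nat_lit 5, nat_lit 406)])],
 ⟨p018_k5, nat_lit 0, nat_lit 0, nat_lit 222, nat_lit 0, nat_lit 315076, [nat_lit 1392688001, nat_lit 1137118400], [], [nat_lit 24238066201, nat_lit 24708203701, nat_lit 26860054201, nat_lit 27265298904], nat_lit 1271250, nat_lit 1271250, nat_lit 1271250, nat_lit 1271250, nat_lit 0, nat_lit 0, [nat_lit 490000, nat_lit 1100000], [nat_lit 24, nat_lit 40, nat_lit 80, nat_lit 80, nat_lit 33, nat_lit 203, nat_lit 0, nat_lit 8]⟩, ⟨p018_k20, nat_lit 0, nat_lit 0, nat_lit 595, nat_lit 0, nat_lit 723498, [nat_lit 925000000, nat_lit 1456616000, nat_lit 1757056000], [], [nat_lit 5858032760, nat_lit 5856436624, nat_lit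 6074595664, nat_lit 6058826920], nat_lit 1271250, nat_lit 1271250, nat_lit 1271250, nat_lit 1271250, nat_lit 0, nat_lit 0, [nat_lit 1412500, nat_lit 1271250, nat_lit 1271250], [nat_lit 46, nat_lit 40, nat_lit 80, nat_lit 80, nat_lit 41, nat_lit 373, nat_lit 150, nat_lit 9]⟩,
 ⟨nat_lit 3162, nat_lit 3536, ⟨.ofNat (nat_lit 562760), .ofNat (nat_lit 688283), .ofNat (nat_lit 606660), .ofNat (nat_lit 732188), .ofNat (nat_lit 560952), .ofNat (nat_lit 682859), .ofNat (nat_lit 605256), .ofNat (nat_lit 727168)⟩, ⟨.ofNat (nat_lit 0), .ofNat (nat_lit 0), .ofNat (nat_lit 0), .ofNat (nat_lit 0), .ofNat (nat_lit 0), .ofNat (nat_lit 0), .ofNat (nat_lit 0), .ofNat (nat_lit 0)⟩⟩, []⟩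
noncomputable def p018_l155 : Lf2 := ⟨nat_lit 0, nat_lit 10, [nat_lit 0, nat_lit 5, nat_lit 5, nat_lit 20], false, nat_lit 0, nat_lit 0, nat_lit 0, nat_lit 0, ⟨nat_lit 183, nat_lit 817, nat_lit 0, nat_lit 8, nat_lit 293, nat_lit 0, nat_lit 0, nat_lit 0, nat_lit 0, nat_lit 0, nat_lit 0, nat_lit 0, nat_lit 43554955, nat_lit 23445045, nat_lit 0, nat_lit 3237003, true, true⟩,
 nat_lit 4392, nat_lit 0, nat_lit 0, nat_lit 0, nat_lit 3555, nat_lit 1882, nat_lit 96, nat_lit 0, nat_lit 0, nat_lit 130, nat_lit 0, nat_lit 0, nat_lit 0, nat_lit 0, nat_lit 0, nat_lit 326800, nat_lit 0, nat_lit 0, [(nat_lit 21, [(nat_lit 1, nat_lit 817)])],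
 ⟨p018_k7, nat_lit 0, nat_lit 0, nat_lit 245, nat_lit 0, nat_lit 243024, [nat_lit 1479054400, nat_lit 2077521601, nat_lit 2362714000], [], [nat_lit 28270069872, nat_lit 28667791167, nat_lit 29848344367, nat_lit 30212778280], nat_lit 1271250, nat_lit 1271250, nat_lit 1271250, nat_lit 1271250, nat_lit 0, nat_lit 0, [nat_lit 490000, nat_lit 1100000, nat_lit 1442500], [nat_lit 6, nat_lit 40, nat_lit 80, nat_lit 80, nat_lit 3, nat_lit 203, nat_lit 0, nat_lit 6]⟩, ⟨p018_k20, nat_lit 0, nat_lit 0, nat_lit 512, nat_lit 0, nat_lit 534338, [nat_lit 1143750000, nat_lit 1801086000, nat_lit 2172576000], [], [nat_lit 7739987208, nat_lit 7720653042, nat_lit 8004876512, nat_lit 7988719853], nat_lit 1271250, nat_lit 1271250, nat_lit 1271250, nat_lit 1271250, nat_lit 0, nat_lit 0, [nat_lit 1412500, nat_lit 1271250, nat_lit 1271250], [nat_lit 46, nat_lit 40, nat_lit 80, nat_lit 80, nat_lit 41, nat_lit 272,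 nat_lit 60, nat_lit 7]⟩,
 ⟨nat_lit 3535, nat_lit 3873, ⟨.ofNat (nat_lit 693563), .ofNat (nat_lit 758085), .ofNat (nat_lit 715356), .ofNat (nat_lit 779878), .ofNat (nat_lit 688283), .ofNat (nat_lit 751044), .ofNat (nat_lit 710235), .ofNat (nat_lit 772997)⟩, ⟨.ofNat (nat_lit 0), .ofNat (nat_lit 0), .ofNat (nat_lit 0), .ofNat (nat_lit 0), .ofNat (nat_lit 0), .ofNat (nat_lit 0), .ofNat (nat_lit 0), .ofNat (nat_lit 0)⟩⟩, [⟨nat_lit 13, nat_lit 69, nat_lit 69, nat_lit 100, nat_lit 172325199⟩]⟩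
noncomputable def p018_l156 : Lf2 := ⟨nat_lit 0, nat_lit 10, [nat_lit 0, nat_lit 5, nat_lit 5, nat_lit 20], false, nat_lit 0, nat_lit 0, nat_lit 0, nat_lit 0, ⟨nat_lit 192, nat_lit 808, nat_lit 0, nat_lit 8, nat_lit 287, nat_lit 0, nat_lit 0, nat_lit 0, nat_lit 0, nat_lit 0, nat_lit 0, nat_lit 0, nat_lit 44198759, nat_lit 22801241, nat_lit 0, nat_lit 3206226, true, true⟩,
 nat_lit 4676, nat_lit 0, nat_lit 0, nat_lit 0, nat_lit 3927, nat_lit 2003, nat_lit 0, nat_lit 0, nat_lit 0, nat_lit 139, nat_lit 0, nat_lit 0, nat_lit 0, nat_lit 0, nat_lit 0, nat_lit 202000, nat_lit 0, nat_lit 0, [(nat_lit 21, [(nat_lit 0, nat_lit 808)])],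
 ⟨p018_k5, nat_lit 0, nat_lit 0, nat_lit 224, nat_lit 0, nat_lit 288600, [nat_lit 1649331201, nat_lit 2486684800], [], [nat_lit 29449520809, nat_lit 29887069397, nat_lit 30634599426, nat_lit 31044047529], nat_lit 1271250, nat_lit 1271250, nat_lit 1271250, nat_lit 1271250, nat_lit 0, nat_lit 0, [nat_lit 490000, nat_lit 1100000], [nat_lit 24, nat_lit 40, nat_lit 80, nat_lit 80, nat_lit 33, nat_lit 203, nat_lit 0, nat_lit 7]⟩, ⟨p018_k20, nat_lit 0, nat_lit 0, nat_lit 563, nat_lit 0, nat_lit 662702, [nat_lit 1200000000, nat_lit 1889664000, nat_lit 2279424000], [], [nat_lit 8036336112, nat_lit 8021834482, nat_lit 8237857346, nat_lit 8218711024], nat_lit 1271250, nat_lit 1271250, nat_lit 1271250, nat_lit 1271250, nat_lit 0, nat_lit 0, [nat_lit 1412500, nat_lit 1271250, nat_lit 1271250], [nat_lit 46, nat_lit 40, nat_lit 80, nat_lit 80, nat_lit 41, nat_lit 272, nat_lit 60, nat_lit 7]⟩,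
 ⟨nat_lit 3162, nat_lit 3536, ⟨.ofNat (nat_lit 688283), .ofNat (nat_lit 732216), .ofNat (nat_lit 710235), .ofNat (nat_lit 754168), .ofNat (nat_lit 682859), .ofNat (nat_lit 725526), .ofNat (nat_lit 705013), .ofNat (nat_lit 747681)⟩, ⟨.ofNat (nat_lit 0), .ofNat (nat_lit 0), .ofNat (nat_lit 0), .ofNat (nat_lit 0), .ofNat (nat_lit 0), .ofNat (nat_lit 0), .ofNat (nat_lit 0), .ofNat (nat_lit 0)⟩⟩, [⟨nat_lit 13, nat_lit 63, nat_lit 74, nat_lit 100, nat_lit 220511218⟩]⟩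
noncomputable def p018_l157 : Lf2 := ⟨nat_lit 0, nat_lit 10, [nat_lit 0, nat_lit 5, nat_lit 5, nat_lit 20], false, nat_lit 0, nat_lit 0, nat_lit 0, nat_lit 0, ⟨nat_lit 289, nat_lit 711, nat_lit 0, nat_lit 8, nat_lit 305, nat_lit 0, nat_lit 0, nat_lit 0, nat_lit 0, nat_lit 0, nat_lit 0, nat_lit 0, nat_lit 42391168, nat_lit 24608832, nat_lit 0, nat_lit 3287503, true, true⟩,
 nat_lit 4703, nat_lit 0, nat_lit 0, nat_lit 0, nat_lit 3806, nat_lit 2249, nat_lit 123, nat_lit 0, nat_lit 0, nat_lit 220, nat_lit 0, nat_lit 0, nat_lit 0, nat_lit 0, nat_lit 0, nat_lit 284400, nat_lit 0, nat_lit 0, [(nat_lit 21, [(nat_lit 1, nat_lit 711)])],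
 ⟨p018_k7, nat_lit 0, nat_lit 0, nat_lit 256, nat_lit 0, nat_lit 273967, [nat_lit 1550795200, nat_lit 2416212800, nat_lit 2867062000], [], [nat_lit 29244303113, nat_lit 29628612639, nat_lit 31078252129, nat_lit 31421628480], nat_lit 1271250, nat_lit 1271250, nat_lit 1271250, nat_lit 1271250, nat_lit 0, nat_lit 0, [nat_lit 490000, nat_lit 1100000, nat_lit 1442500], [nat_lit 6, nat_lit 40, nat_lit 80, nat_lit 80, nat_lit 3, nat_lit 203, nat_lit 0, nat_lit 6]⟩, ⟨p018_k21, nat_lit 0, nat_lit 0, nat_lit 503, nat_lit 0, nat_lit 522721, [nat_lit 1806250000, nat_lit 2844338000, nat_lit 3431008000], [], [nat_lit 12545359022, nat_lit 12557603904, nat_lit 12995666939, nat_lit 13005929305], nat_lit 1271250, nat_lit 1271250, nat_lit 1271250, nat_lit 1271250, nat_lit 0, nat_lit 0, [nat_lit 1412500, nat_lit 1271250, nat_lit 1271250], [nat_lit 46, nat_lit 40, nat_lit 80, nat_lit 80, nat_lit 41, nat_lit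 272, nat_lit 60, nat_lit 7]⟩,
 ⟨nat_lit 3535, nat_lit 3873, ⟨.ofNat (nat_lit 715356), .ofNat (nat_lit 792782), .ofNat (nat_lit 737150), .ofNat (nat_lit 814576), .ofNat (nat_lit 710235), .ofNat (nat_lit 785549), .ofNat (nat_lit 732188), .ofNat (nat_lit 807502)⟩, ⟨.ofNat (nat_lit 0), .ofNat (nat_lit 0), .ofNat (nat_lit 0), .ofNat (nat_lit 0), .ofNat (nat_lit 0), .ofNat (nat_lit 0), .ofNat (nat_lit 0), .ofNat (nat_lit 0)⟩⟩, [⟨nat_lit 13, nat_lit 70, nat_lit 62, nat_lit 100, nat_lit 120578101⟩]⟩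
noncomputable def p018_l158 : Lf2 := ⟨nat_lit 0, nat_lit 10, [nat_lit 0, nat_lit 5, nat_lit 5, nat_lit 20], false, nat_lit 0, nat_lit 0, nat_lit 0, nat_lit 0, ⟨nat_lit 289, nat_lit 711, nat_lit 0, nat_lit 8, nat_lit 300, nat_lit 0, nat_lit 0, nat_lit 0, nat_lit 0, nat_lit 0, nat_lit 0, nat_lit 0, nat_lit 42897296, nat_lit 24102704, nat_lit 0, nat_lit 3266346, true, true⟩,
 nat_lit 4818, nat_lit 0, nat_lit 0, nat_lit 0, nat_lit 4047, nat_lit 2304, nat_lit 0, nat_lit 0, nat_lit 0, nat_lit 229, nat_lit 0, nat_lit 0, nat_lit 0, nat_lit 0, nat_lit 0, nat_lit 177750, nat_lit 0, nat_lit 0, [(nat_lit 21, [(nat_lit 0, nat_lit 711)])],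
 ⟨p018_k5, nat_lit 0, nat_lit 0, nat_lit 241, nat_lit 0, nat_lit 315076, [nat_lit 1695270400, nat_lit 2750951600], [], [nat_lit 30031520888, nat_lit 30474282756, nat_lit 31744291241, nat_lit 32160705678], nat_lit 1271250, nat_lit 1271250, nat_lit 1271250, nat_lit 1271250, nat_lit 0, nat_lit 0, [nat_lit 490000, nat_lit 1100000], [nat_lit 24, nat_lit 40, nat_lit 80, nat_lit 80, nat_lit 33, nat_lit 203, nat_lit 0, nat_lit 7]⟩, ⟨p018_k21, nat_lit 0, nat_lit 0, nat_lit 544, nat_lit 0, nat_lit 627829, [nat_lit 1806250000, nat_lit 2844338000, nat_lit 3431008000], [], [nat_lit 12325565812, nat_lit 12343304204, nat_lit 12732878450, nat_lit 12745249542], nat_lit 1271250, nat_lit 1271250, nat_lit 1271250, nat_lit 1271250, nat_lit 0, nat_lit 0, [nat_lit 1412500, nat_lit 1271250, nat_lit 1271250], [nat_lit 46, nat_lit 40, nat_lit 80, nat_lit 80, nat_lit 41, nat_lit 272, nat_lit 60, nat_lit 7]⟩,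
 ⟨nat_lit 3162, nat_lit 3536, ⟨.ofNat (nat_lit 710235), .ofNat (nat_lit 772997), .ofNat (nat_lit 732188), .ofNat (nat_lit 794949), .ofNat (nat_lit 705013), .ofNat (nat_lit 765967), .ofNat (nat_lit 727168), .ofNat (nat_lit 788122)⟩, ⟨.ofNat (nat_lit 0), .ofNat (nat_lit 0), .ofNat (nat_lit 0), .ofNat (nat_lit 0), .ofNat (nat_lit 0), .ofNat (nat_lit 0), .ofNat (nat_lit 0), .ofNat (nat_lit 0)⟩⟩, [⟨nat_lit 13, nat_lit 64, nat_lit 68, nat_lit 100, nat_lit 187069401⟩]⟩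
noncomputable def p018_l159 : Lf2 := ⟨nat_lit 0, nat_lit 10, [nat_lit 0, nat_lit 5, nat_lit 5, nat_lit 20], true, nat_lit 0, nat_lit 0, nat_lit 0, nat_lit 0, ⟨nat_lit 0, nat_lit 1000, nat_lit 0, nat_lit 5, nat_lit 217, nat_lit 0, nat_lit 0, nat_lit 0, nat_lit 0, nat_lit 0, nat_lit 0, nat_lit 0, nat_lit 0, nat_lit 0, nat_lit 0, nat_lit 5000000, false, true⟩,
 nat_lit 0, nat_lit 4608, nat_lit 0, nat_lit 0, nat_lit 3456, nat_lit 0, nat_lit 0, nat_lit 0, nat_lit 0, nat_lit 0, nat_lit 0, nat_lit 0, nat_lit 0, nat_lit 0, nat_lit 0, nat_lit 500800, nat_lit 0, nat_lit 0, [(nat_lit 18, [(nat_lit 1, nat_lit 832), (nat_lit 2, nat_lit 168)])],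
 ⟨p018_k0, nat_lit 0, nat_lit 0, nat_lit 331, nat_lit 0, nat_lit 394540, [nat_lit 1449160534, nat_lit 1811882667, nat_lit 1556928000], [], [nat_lit 23565336294, nat_lit 24621940262, nat_lit 31743907584, nat_lit 30938448717], nat_lit 1271250, nat_lit 1271250, nat_lit 230001, nat_lit 2788500, nat_lit 0, nat_lit 0, [nat_lit 490000, nat_lit 1100000, nat_lit 1442500], [nat_lit 6, nat_lit 40, nat_lit 80, nat_lit 80, nat_lit 3, nat_lit 317, nat_lit 100, nat_lit 12]⟩, C1.Rw.none,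
 ⟨nat_lit 3872, nat_lit 4473, ⟨.ofNat (nat_lit 228056), .ofNat (nat_lit 812698), .ofNat (nat_lit 271153), .ofNat (nat_lit 855824), .ofNat (nat_lit 241882), .ofNat (nat_lit 796798), .ofNat (nat_lit 285433), .ofNat (nat_lit 840378)⟩, ⟨.ofNat (nat_lit 0), .ofNat (nat_lit 0), .ofNat (nat_lit 0), .ofNat (nat_lit 0), .ofNat (nat_lit 0), .ofNat (nat_lit 0), .ofNat (nat_lit 0), .ofNat (nat_lit 0)⟩⟩, [⟨nat_lit 13, nat_lit 76, nat_lit 57, nat_lit 100, nat_lit 185785396⟩]⟩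
noncomputable def p018_l160 : Lf2 := ⟨nat_lit 0, nat_lit 10, [nat_lit 0, nat_lit 5, nat_lit 5, nat_lit 20], true, nat_lit 0, nat_lit 0, nat_lit 0, nat_lit 0, ⟨nat_lit 0, nat_lit 1000, nat_lit 0, nat_lit 5, nat_lit 216, nat_lit 0, nat_lit 0, nat_lit 0, nat_lit 0, nat_lit 0, nat_lit 0, nat_lit 0, nat_lit 0, nat_lit 0, nat_lit 0, nat_lit 5000000, false, true⟩,
 nat_lit 0, nat_lit 3909, nat_lit 0, nat_lit 0, nat_lit 3164, nat_lit 0, nat_lit 86, nat_lit 0, nat_lit 0, nat_lit 0, nat_lit 0, nat_lit 0, nat_lit 0, nat_lit 0, nat_lit 0, nat_lit 400000, nat_lit 0, nat_lit 0, [(nat_lit 21, [(nat_lit 1, nat_lit 1000)])],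
 ⟨p018_k7, nat_lit 0, nat_lit 0, nat_lit 376, nat_lit 0, nat_lit 532726, [nat_lit 1355200000, nat_lit 1492800001, nat_lit 1492000000], [], [nat_lit 24051000544, nat_lit 24963682012, nat_lit 29678525611, nat_lit 30248175585], nat_lit 1271250, nat_lit 1271250, nat_lit 330400, nat_lit 2697700, nat_lit 0, nat_lit 0, [nat_lit 490000, nat_lit 1100000, nat_lit 1442500], [nat_lit 6, nat_lit 40, nat_lit 80, nat_lit 80, nat_lit 3, nat_lit 317, nat_lit 100, nat_lit 12]⟩, C1.Rw.none,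
 ⟨nat_lit 3162, nat_lit 3873, ⟨.ofNat (nat_lit 267606), .ofNat (nat_lit 770989), .ofNat (nat_lit 311135), .ofNat (nat_lit 814576), .ofNat (nat_lit 280451), .ofNat (nat_lit 756003), .ofNat (nat_lit 324704), .ofNat (nat_lit 800312)⟩, ⟨.ofNat (nat_lit 0), .ofNat (nat_lit 0), .ofNat (nat_lit 0), .ofNat (nat_lit 0), .ofNat (nat_lit 0), .ofNat (nat_lit 0), .ofNat (nat_lit 0), .ofNat (nat_lit 0)⟩⟩, [⟨nat_lit 13, nat_lit 66, nat_lit 68, nat_lit 100, nat_lit 205129658⟩]⟩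
noncomputable def p018_l161 : Lf2 := ⟨nat_lit 0, nat_lit 10, [nat_lit 0, nat_lit 5, nat_lit 5, nat_lit 20], false, nat_lit 0, nat_lit 0, nat_lit 0, nat_lit 0, ⟨nat_lit 0, nat_lit 1000, nat_lit 0, nat_lit 5, nat_lit 216, nat_lit 0, nat_lit 0, nat_lit 0, nat_lit 0, nat_lit 0, nat_lit 0, nat_lit 0, nat_lit 0, nat_lit 0, nat_lit 0, nat_lit 5000000, false, true⟩,
 nat_lit 0, nat_lit 4584, nat_lit 0, nat_lit 0, nat_lit 3437, nat_lit 0, nat_lit 0, nat_lit 0, nat_lit 0, nat_lit 0, nat_lit 0, nat_lit 0, nat_lit 0, nat_lit 0, nat_lit 0, nat_lit 464800, nat_lit 0, nat_lit 0, [(nat_lit 18, [(nat_lit 1, nat_lit 892), (nat_lit 2, nat_lit 108)]), (nat_lit 21, [(nat_lit 1, nat_lit 892), (nat_lit 2, nat_lit 108)])],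
 ⟨p018_k0, nat_lit 0, nat_lit 0, nat_lit 330, nat_lit 0, nat_lit 360216, [nat_lit 1430936534, nat_lit 1867162667, nat_lit 1701168000], [], [nat_lit 24018479054, nat_lit 26126695576, nat_lit 32012012579, nat_lit 31999855090], nat_lit 1271250, nat_lit 1271250, nat_lit 230001, nat_lit 2788500, nat_lit 0, nat_lit 0, [nat_lit 490000, nat_lit 1100000, nat_lit 1442500], [nat_lit 6, nat_lit 40, nat_lit 80, nat_lit 80, nat_lit 3, nat_lit 317, nat_lit 100, nat_lit 12]⟩, ⟨p018_k20, nat_lit 0, nat_lit 0, nat_lit 713, nat_lit 0, nat_lit 723498, [nat_lit 0, nat_lit 0, nat_lit 0], [], [nat_lit 0, nat_lit 0, nat_lit 0, nat_lit 0], nat_lit 1271250, nat_lit 1271250, nat_lit 230001, nat_lit 2788500, nat_lit 0, nat_lit 0, [nat_lit 1412500, nat_lit 1271250, nat_lit 1271250], [nat_lit 46, nat_lit 40, nat_lit 80, nat_lit 80, nat_lit 41, nat_lit 401, nat_lit 175, nat_lit 11]⟩,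
 ⟨nat_lit 3162, nat_lit 4473, ⟨.ofNat (nat_lit 227776), .ofNat (nat_lit 812698), .ofNat (nat_lit 270729), .ofNat (nat_lit 855831), .ofNat (nat_lit 255876), .ofNat (nat_lit 780384), .ofNat (nat_lit 300005), .ofNat (nat_lit 824694)⟩, ⟨.ofNat (nat_lit 0), .ofNat (nat_lit 0), .ofNat (nat_lit 0), .ofNat (nat_lit 0), .ofNat (nat_lit 0), .ofNat (nat_lit 0), .ofNat (nat_lit 0), .ofNat (nat_lit 0)⟩⟩, [⟨nat_lit 13, nat_lit 72, nat_lit 63, nat_lit 100, nat_lit 192834447⟩]⟩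
noncomputable def p018_l162 : Lf2 := ⟨nat_lit 1, nat_lit 10, [nat_lit 0, nat_lit 5, nat_lit 5, nat_lit 20], false, nat_lit 0, nat_lit 0, nat_lit 0, nat_lit 0, zbN0,
 nat_lit 0, nat_lit 0, nat_lit 0, nat_lit 0, nat_lit 0, nat_lit 0, nat_lit 0, nat_lit 0, nat_lit 0, nat_lit 0, nat_lit 0, nat_lit 0, nat_lit 0, nat_lit 0, nat_lit 0, nat_lit 0, nat_lit 0, nat_lit 0, [],
 C1.Rw.none, C1.Rw.none,
 zbF0, []⟩
noncomputable def p018_l163 : Lf2 := ⟨nat_lit 0, nat_lit 10, [nat_lit 0, nat_lit 5, nat_lit 5, nat_lit 20], false, nat_lit 0, nat_lit 0, nat_lit 0, nat_lit 0, ⟨nat_lit 278, nat_lit 0, nat_lit 722, nat_lit 5, nat_lit 216, nat_lit 0, nat_lit 0, nat_lit 0, nat_lit 0, nat_lit 215, nat_lit 357902, nat_lit 200, nat_lit 51842326, nat_lit 0, nat_lit 0, nat_lit 2673426, false, true⟩,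
 nat_lit 0, nat_lit 0, nat_lit 0, nat_lit 2493, nat_lit 3309, nat_lit 3667, nat_lit 0, nat_lit 0, nat_lit 0, nat_lit 0, nat_lit 0, nat_lit 0, nat_lit 0, nat_lit 0, nat_lit 0, nat_lit 180500, nat_lit 0, nat_lit 0, [(nat_lit 21, [(nat_lit 4, nat_lit 722)])],
 ⟨p018_k7, nat_lit 0, nat_lit 0, nat_lit 174, nat_lit 0, nat_lit 0, [nat_lit 1620748801, nat_lit 881038401, nat_lit 1059108800], [], [nat_lit 20367974315, nat_lit 21734961816, nat_lit 29491139135, nat_lit 30646920977], nat_lit 0, nat_lit 0, nat_lit 0, nat_lit 0, nat_lit 0, nat_lit 0, [], [nat_lit 6, nat_lit 40, nat_lit 80, nat_lit 80, nat_lit 3, nat_lit 317, nat_lit 100, nat_lit 12]⟩, ⟨p018_k20, nat_lit 0, nat_lit 0, nat_lit 321, nat_lit 0, nat_lit 0, [nat_lit 1737500000, nat_lit 2736076000, nat_lit 3300416000], [], [nat_lit 12920027094, nat_lit 13283042028, nat_lit 13521360157, nat_lit 13485933066], nat_lit 0, nat_lit 0, nat_lit 0, nat_lit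 0, nat_lit 0, nat_lit 0, [], [nat_lit 46, nat_lit 40, nat_lit 80, nat_lit 80, nat_lit 41, nat_lit 401, nat_lit 175, nat_lit 11]⟩,
 ⟨nat_lit 3162, nat_lit 3873, ⟨.ofNat (nat_lit 267606), .ofNat (nat_lit 770989), .ofNat (nat_lit 311135), .ofNat (nat_lit 814576), .ofNat (nat_lit 280451), .ofNat (nat_lit 756003), .ofNat (nat_lit 324704), .ofNat (nat_lit 800312)⟩, ⟨.ofNat (nat_lit 0), .ofNat (nat_lit 0), .ofNat (nat_lit 0), .ofNat (nat_lit 0), .ofNat (nat_lit 0), .ofNat (nat_lit 0), .ofNat (nat_lit 0), .ofNat (nat_lit 0)⟩⟩, []⟩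
noncomputable def p018_l164 : Lf2 := ⟨nat_lit 0, nat_lit 10, [nat_lit 0, nat_lit 5, nat_lit 5, nat_lit 20], true, nat_lit 0, nat_lit 0, nat_lit 0, nat_lit 0, ⟨nat_lit 0, nat_lit 276, nat_lit 724, nat_lit 5, nat_lit 170, nat_lit 0, nat_lit 0, nat_lit 0, nat_lit 0, nat_lit 215, nat_lit 817, nat_lit 208, nat_lit 56752254, nat_lit 10247746, nat_lit 0, nat_lit 2138971, false, false⟩,
 nat_lit 0, nat_lit 0, nat_lit 0, nat_lit 2545, nat_lit 3100, nat_lit 0, nat_lit 0, nat_lit 0, nat_lit 0, nat_lit 0, nat_lit 0, nat_lit 0, nat_lit 0, nat_lit 0, nat_lit 0, nat_lit 250000, nat_lit 0, nat_lit 0, [(nat_lit 18, [(nat_lit 0, nat_lit 276), (nat_lit 4, nat_lit 724)]), (nat_lit 21, [(nat_lit 0, nat_lit 276), (nat_lit 4, nat_lit 724)])],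
 ⟨p018_k8, nat_lit 0, nat_lit 0, nat_lit 203, nat_lit 0, nat_lit 0, [nat_lit 1508588800, nat_lit 55801600], [], [nat_lit 18652136600, nat_lit 21788229800, nat_lit 21340703200, nat_lit 23283613600], nat_lit 0, nat_lit 0, nat_lit 0, nat_lit 0, nat_lit 0, nat_lit 0, [], [nat_lit 69, nat_lit 40, nat_lit 80, nat_lit 80, nat_lit 64, nat_lit 272, nat_lit 60, nat_lit 11]⟩, C1.Rw.none,
 ⟨nat_lit 3162, nat_lit 4473, ⟨.ofNat (nat_lit 227776), .ofNat (nat_lit 567977), .ofNat (nat_lit 270729), .ofNat (nat_lit 611007), .ofNat (nat_lit 255876), .ofNat (nat_lit 560952), .ofNat (nat_lit 300005), .ofNat (nat_lit 605159)⟩, ⟨.ofNat (nat_lit 0), .ofNat (nat_lit 0), .ofNat (nat_lit 0), .ofNat (nat_lit 0), .ofNat (nat_lit 0), .ofNat (nat_lit 0), .ofNat (nat_lit 0), .ofNat (nat_lit 0)⟩⟩, []⟩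
noncomputable def p018_l165 : Lf2 := ⟨nat_lit 0, nat_lit 10, [nat_lit 0, nat_lit 5, nat_lit 5, nat_lit 20], false, nat_lit 0, nat_lit 0, nat_lit 0, nat_lit 0, ⟨nat_lit 1000, nat_lit 0, nat_lit 0, nat_lit 0, nat_lit 0, nat_lit 0, nat_lit 0, nat_lit 0, nat_lit 0, nat_lit 0, nat_lit 0, nat_lit 0, nat_lit 0, nat_lit 0, nat_lit 0, nat_lit 0, false, false⟩,
 nat_lit 0, nat_lit 0, nat_lit 19141, nat_lit 0, nat_lit 6347, nat_lit 8203, nat_lit 0, nat_lit 0, nat_lit 0, nat_lit 0, nat_lit 0, nat_lit 0, nat_lit 0, nat_lit 0, nat_lit 0, nat_lit 0, nat_lit 0, nat_lit 0, [],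
 ⟨p018_k8, nat_lit 0, nat_lit 0, nat_lit 172, nat_lit 0, nat_lit 0, [nat_lit 2032000001, nat_lit 6250000000], [], [nat_lit 30138468916, nat_lit 33052699904, nat_lit 37287557247, nat_lit 39426167766], nat_lit 0, nat_lit 0, nat_lit 0, nat_lit 0, nat_lit 0, nat_lit 0, [], [nat_lit 69, nat_lit 40, nat_lit 80, nat_lit 80, nat_lit 64, nat_lit 203, nat_lit 0, nat_lit 7]⟩, ⟨p018_k16, nat_lit 0, nat_lit 0, nat_lit 380, nat_lit 0, nat_lit 284446, [nat_lit 6250000000, nat_lit 11872000000], [], [nat_lit 45068166540, nat_lit 45324531634, nat_lit 50783338019, nat_lit 50889918565], nat_lit 1271250, nat_lit 1271250, nat_lit 1271250, nat_lit 1271250, nat_lit 0, nat_lit 0, [nat_lit 1412500, nat_lit 1271250], [nat_lit 107, nat_lit 40, nat_lit 80, nat_lit 80, nat_lit 12, nat_lit 373, nat_lit 150, nat_lit 9]⟩,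
 zbF0, []⟩
noncomputable def p018_l166 : Lf2 := ⟨nat_lit 0, nat_lit 10, [nat_lit 0, nat_lit 5, nat_lit 5, nat_lit 20], false, nat_lit 0, nat_lit 0, nat_lit 0, nat_lit 0, ⟨nat_lit 1000, nat_lit 0, nat_lit 0, nat_lit 0, nat_lit 0, nat_lit 0, nat_lit 0, nat_lit 0, nat_lit 0, nat_lit 0, nat_lit 0, nat_lit 0, nat_lit 0, nat_lit 0, nat_lit 0, nat_lit 0, false, false⟩,
 nat_lit 0, nat_lit 0, nat_lit 16858, nat_lit 0, nat_lit 6194, nat_lit 8062, nat_lit 0, nat_lit 0, nat_lit 0, nat_lit 0, nat_lit 0, nat_lit 0, nat_lit 0, nat_lit 0, nat_lit 0, nat_lit 0, nat_lit 0, nat_lit 0, [],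
 ⟨p018_k8, nat_lit 0, nat_lit 0, nat_lit 179, nat_lit 0, nat_lit 0, [nat_lit 2032000001, nat_lit 6250000000], [], [nat_lit 30283263832, nat_lit 33156979808, nat_lit 38086021404, nat_lit 40012004165], nat_lit 0, nat_lit 0, nat_lit 0, nat_lit 0, nat_lit 0, nat_lit 0, [], [nat_lit 69, nat_lit 40, nat_lit 80, nat_lit 80, nat_lit 64, nat_lit 203, nat_lit 0, nat_lit 7]⟩, ⟨p018_k24, nat_lit 0, nat_lit 0, nat_lit 402, nat_lit 0, nat_lit 359651, [nat_lit 6250000000, nat_lit 11872000000], [], [nat_lit 45586414036, nat_lit 45845528912, nat_lit 51561989178, nat_lit 51647649580], nat_lit 1271250, nat_lit 1271250, nat_lit 1271250, nat_lit 1271250, nat_lit 0, nat_lit 0, [nat_lit 1412500, nat_lit 1271250], [nat_lit 107, nat_lit 40, nat_lit 80, nat_lit 80, nat_lit 12, nat_lit 401, nat_lit 175, nat_lit 10]⟩,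
 zbF0, []⟩
noncomputable def p018_l167 : Lf2 := ⟨nat_lit 0, nat_lit 10, [nat_lit 0, nat_lit 5, nat_lit 5, nat_lit 20], true, nat_lit 0, nat_lit 0, nat_lit 0, nat_lit 0, ⟨nat_lit 0, nat_lit 1000, nat_lit 0, nat_lit 5, nat_lit 216, nat_lit 0, nat_lit 0, nat_lit 0, nat_lit 0, nat_lit 0, nat_lit 0, nat_lit 0, nat_lit 0, nat_lit 0, nat_lit 0, nat_lit 5000000, false, true⟩,
 nat_lit 0, nat_lit 0, nat_lit 0, nat_lit 3782, nat_lit 3817, nat_lit 0, nat_lit 0, nat_lit 0, nat_lit 0, nat_lit 0, nat_lit 0, nat_lit 0, nat_lit 0, nat_lit 0, nat_lit 0, nat_lit 250000, nat_lit 0, nat_lit 0, [(nat_lit 18, [(nat_lit 0, nat_lit 1000)]), (nat_lit 21, [(nat_lit 0, nat_lit 1000)])],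
 ⟨p018_k8, nat_lit 0, nat_lit 0, nat_lit 203, nat_lit 0, nat_lit 0, [nat_lit 1558400000, nat_lit 2562000000], [], [nat_lit 23016561222, nat_lit 25966130072, nat_lit 31512038318, nat_lit 33106461907], nat_lit 0, nat_lit 0, nat_lit 0, nat_lit 0, nat_lit 0, nat_lit 0, [], [nat_lit 69, nat_lit 40, nat_lit 80, nat_lit 80, nat_lit 64, nat_lit 317, nat_lit 100, nat_lit 12]⟩, C1.Rw.none,
 ⟨nat_lit 3162, nat_lit 4473, ⟨.ofNat (nat_lit 227776), .ofNat (nat_lit 812698), .ofNat (nat_lit 270729), .ofNat (nat_lit 855831), .ofNat (nat_lit 255876), .ofNat (nat_lit 780384), .ofNat (nat_lit 300005), .ofNat (nat_lit 824694)⟩, ⟨.ofNat (nat_lit 0), .ofNat (nat_lit 0), .ofNat (nat_lit 0), .ofNat (nat_lit 0), .ofNat (nat_lit 0), .ofNat (nat_lit 0), .ofNat (nat_lit 0), .ofNat (nat_lit 0)⟩⟩, [⟨nat_lit 13, nat_lit 72, nat_lit 63, nat_lit 100, nat_lit 218416420⟩]⟩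
noncomputable def p018_l168 : Lf2 := ⟨nat_lit 1, nat_lit 10, [nat_lit 0, nat_lit 5, nat_lit 5, nat_lit 20], false, nat_lit 0, nat_lit 0, nat_lit 0, nat_lit 0, zbN0,
 nat_lit 0, nat_lit 0, nat_lit 0, nat_lit 0, nat_lit 0, nat_lit 0, nat_lit 0, nat_lit 0, nat_lit 0, nat_lit 0, nat_lit 0, nat_lit 0, nat_lit 0, nat_lit 0, nat_lit 0, nat_lit 0, nat_lit 0, nat_lit 0, [],
 C1.Rw.none, C1.Rw.none,
 zbF0, []⟩
noncomputable def p018_l169 : Lf2 := ⟨nat_lit 0, nat_lit 10, [nat_lit 0, nat_lit 5, nat_lit 5, nat_lit 20], false, nat_lit 0, nat_lit 0, nat_lit 0, nat_lit 0, ⟨nat_lit 668, nat_lit 0, nat_lit 332, nat_lit 5, nat_lit 209, nat_lit 0, nat_lit 0, nat_lit 0, nat_lit 0, nat_lit 215, nat_lit 288506, nat_lit 200, nat_lit 52589482, nat_lit 0, nat_lit 0, nat_lit 2603064, false, true⟩,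
 nat_lit 0, nat_lit 4852, nat_lit 0, nat_lit 0, nat_lit 3927, nat_lit 6258, nat_lit 0, nat_lit 0, nat_lit 0, nat_lit 0, nat_lit 0, nat_lit 0, nat_lit 0, nat_lit 0, nat_lit 0, nat_lit 83000, nat_lit 0, nat_lit 0, [(nat_lit 21, [(nat_lit 4, nat_lit 332)])],
 ⟨p018_k7, nat_lit 0, nat_lit 0, nat_lit 219, nat_lit 0, nat_lit 91494, [nat_lit 1842892801, nat_lit 2937430401, nat_lit 3863052800], [], [nat_lit 26761908487, nat_lit 28154250134, nat_lit 33750889140, nat_lit 34611437408], nat_lit 1271250, nat_lit 1271250, nat_lit 330400, nat_lit 2637000, nat_lit 0, nat_lit 0, [nat_lit 490000, nat_lit 1100000, nat_lit 1442500], [nat_lit 6, nat_lit 40, nat_lit 80, nat_lit 80, nat_lit 3, nat_lit 317, nat_lit 100, nat_lit 12]⟩, ⟨p018_k20, nat_lit 0, nat_lit 0, nat_lit 268, nat_lit 0, nat_lit 0, [nat_lit 4175000000, nat_lit 6574456000, nat_lit 7930496000], [], [nat_lit 21948666431, nat_lit 22848435670, nat_lit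 29005629684, nat_lit 29304057802], nat_lit 0, nat_lit 0, nat_lit 0, nat_lit 0, nat_lit 0, nat_lit 0, [], [nat_lit 46, nat_lit 40, nat_lit 80, nat_lit 80, nat_lit 41, nat_lit 373, nat_lit 150, nat_lit 10]⟩,
 ⟨nat_lit 3162, nat_lit 3873, ⟨.ofNat (nat_lit 267606), .ofNat (nat_lit 758085), .ofNat (nat_lit 289370), .ofNat (nat_lit 779878), .ofNat (nat_lit 280451), .ofNat (nat_lit 743812), .ofNat (nat_lit 302577), .ofNat (nat_lit 765967)⟩, ⟨.ofNat (nat_lit 0), .ofNat (nat_lit 0), .ofNat (nat_lit 0), .ofNat (nat_lit 0), .ofNat (nat_lit 0), .ofNat (nat_lit 0), .ofNat (nat_lit 0), .ofNat (nat_lit 0)⟩⟩, [⟨nat_lit 0, nat_lit 100, nat_lit 60, nat_lit 86, nat_lit 217042441⟩]⟩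
noncomputable def p018_l170 : Lf2 := ⟨nat_lit 0, nat_lit 10, [nat_lit 0, nat_lit 5, nat_lit 5, nat_lit 20], false, nat_lit 0, nat_lit 0, nat_lit 0, nat_lit 0, ⟨nat_lit 1000, nat_lit 0, nat_lit 0, nat_lit 0, nat_lit 0, nat_lit 0, nat_lit 0, nat_lit 0, nat_lit 0, nat_lit 0, nat_lit 0, nat_lit 0, nat_lit 0, nat_lit 0, nat_lit 0, nat_lit 0, false, false⟩,
 nat_lit 0, nat_lit 5245, nat_lit 0, nat_lit 0, nat_lit 4245, nat_lit 9328, nat_lit 0, nat_lit 0, nat_lit 0, nat_lit 0, nat_lit 0, nat_lit 0, nat_lit 0, nat_lit 0, nat_lit 0, nat_lit 0, nat_lit 0, nat_lit 0, [],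
 ⟨p018_k7, nat_lit 0, nat_lit 0, nat_lit 225, nat_lit 0, nat_lit 141358, [nat_lit 2032000001, nat_lit 4688000000, nat_lit 6250000000], [], [nat_lit 31100182368, nat_lit 32536200725, nat_lit 38792015240, nat_lit 39658421588], nat_lit 1271250, nat_lit 1271250, nat_lit 408851, nat_lit 2718850, nat_lit 0, nat_lit 0, [nat_lit 490000, nat_lit 1100000, nat_lit 1442500], [nat_lit 6, nat_lit 40, nat_lit 80, nat_lit 80, nat_lit 3, nat_lit 317, nat_lit 100, nat_lit 12]⟩, ⟨p018_k21, nat_lit 0, nat_lit 0, nat_lit 254, nat_lit 0, nat_lit 0, [nat_lit 6250000000, nat_lit 9842000000, nat_lit 11872000000], [], [nat_lit 32961519149, nat_lit 34303226068, nat_lit 44599409492, nat_lit 45012467751], nat_lit 0, nat_lit 0, nat_lit 0, nat_lit 0, nat_lit 0, nat_lit 0, [], [nat_lit 46, nat_lit 40, nat_lit 80, nat_lit 80, nat_lit 41, nat_lit 401, nat_lit 175, nat_lit 11]⟩,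
 zbF0, [⟨nat_lit 0, nat_lit 100, nat_lit 61, nat_lit 92, nat_lit 318996268⟩]⟩
noncomputable def p018_l171 : Lf2 := ⟨nat_lit 0, nat_lit 10, [nat_lit 0, nat_lit 5, nat_lit 5, nat_lit 20], true, nat_lit 0, nat_lit 0, nat_lit 0, nat_lit 0, ⟨nat_lit 0, nat_lit 195, nat_lit 805, nat_lit 5, nat_lit 170, nat_lit 0, nat_lit 0, nat_lit 0, nat_lit 0, nat_lit 215, nat_lit 817, nat_lit 208, nat_lit 56752254, nat_lit 10247746, nat_lit 0, nat_lit 2138971, false, false⟩,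
 nat_lit 0, nat_lit 4238, nat_lit 0, nat_lit 0, nat_lit 3178, nat_lit 0, nat_lit 0, nat_lit 0, nat_lit 0, nat_lit 0, nat_lit 0, nat_lit 0, nat_lit 0, nat_lit 0, nat_lit 12, nat_lit 250000, nat_lit 0, nat_lit 0, [(nat_lit 18, [(nat_lit 0, nat_lit 195), (nat_lit 4, nat_lit 805)]), (nat_lit 21, [(nat_lit 0, nat_lit 195), (nat_lit 4, nat_lit 805)])],
 ⟨p018_k0, nat_lit 0, nat_lit 0, nat_lit 250, nat_lit 0, nat_lit 156667, [nat_lit 1599016001, nat_lit 484994001, nat_lit 15412000], [], [nat_lit 18018217215, nat_lit 22024443284, nat_lit 21274057923, nat_lit 23437109220], nat_lit 1271250, nat_lit 1271250, nat_lit 230001, nat_lit 1717500, nat_lit 0, nat_lit 0, [nat_lit 490000, nat_lit 1100000, nat_lit 1442500], [nat_lit 6, nat_lit 40, nat_lit 80, nat_lit 80, nat_lit 3, nat_lit 272, nat_lit 60, nat_lit 11]⟩, C1.Rw.none,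
 ⟨nat_lit 3162, nat_lit 4473, ⟨.ofNat (nat_lit 227776), .ofNat (nat_lit 567977), .ofNat (nat_lit 270729), .ofNat (nat_lit 611007), .ofNat (nat_lit 255876), .ofNat (nat_lit 560952), .ofNat (nat_lit 300005), .ofNat (nat_lit 605159)⟩, ⟨.ofNat (nat_lit 0), .ofNat (nat_lit 0), .ofNat (nat_lit 0), .ofNat (nat_lit 0), .ofNat (nat_lit 0), .ofNat (nat_lit 0), .ofNat (nat_lit 0), .ofNat (nat_lit 0)⟩⟩, []⟩
noncomputable def p018_l172 : Lf2 := ⟨nat_lit 0, nat_lit 10, [nat_lit 0, nat_lit 5, nat_lit 5, nat_lit 20], false, nat_lit 0, nat_lit 0, nat_lit 0, nat_lit 0, ⟨nat_lit 1000, nat_lit 0, nat_lit 0, nat_lit 0, nat_lit 0, nat_lit 0, nat_lit 0, nat_lit 0, nat_lit 0, nat_lit 0, nat_lit 0, nat_lit 0, nat_lit 0, nat_lit 0, nat_lit 0, nat_lit 0, false, false⟩,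
 nat_lit 18812, nat_lit 0, nat_lit 0, nat_lit 0, nat_lit 6194, nat_lit 8062, nat_lit 0, nat_lit 0, nat_lit 0, nat_lit 0, nat_lit 0, nat_lit 0, nat_lit 0, nat_lit 0, nat_lit 0, nat_lit 0, nat_lit 0, nat_lit 0, [],
 ⟨p018_k0, nat_lit 0, nat_lit 0, nat_lit 214, nat_lit 0, nat_lit 97174, [nat_lit 2032000001, nat_lit 4688000000, nat_lit 6250000000], [], [nat_lit 30283263832, nat_lit 33156979808, nat_lit 38086021404, nat_lit 40012004165], nat_lit 1271250, nat_lit 1271250, nat_lit 1271250, nat_lit 1271250, nat_lit 0, nat_lit 0, [nat_lit 490000, nat_lit 1100000, nat_lit 1442500], [nat_lit 6, nat_lit 40, nat_lit 80, nat_lit 80, nat_lit 3, nat_lit 203, nat_lit 0, nat_lit 7]⟩, ⟨p018_k20, nat_lit 0, nat_lit 0, nat_lit 365, nat_lit 0, nat_lit 197361, [nat_lit 6250000000, nat_lit 9842000000, nat_lit 11872000000], [], [nat_lit 45327299160, nat_lit 45845528912, nat_lit 51476328776, nat_lit 51647649580],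 nat_lit 1271250, nat_lit 1271250, nat_lit 1271250, nat_lit 1271250, nat_lit 0, nat_lit 0, [nat_lit 1412500, nat_lit 1271250, nat_lit 1271250], [nat_lit 46, nat_lit 40, nat_lit 80, nat_lit 80, nat_lit 41, nat_lit 401, nat_lit 175, nat_lit 10]⟩,
 zbF0, []⟩
noncomputable def p018_l173 : Lf2 := ⟨nat_lit 0, nat_lit 10, [nat_lit 0, nat_lit 5, nat_lit 5, nat_lit 20], true, nat_lit 0, nat_lit 0, nat_lit 0, nat_lit 0, ⟨nat_lit 0, nat_lit 1000, nat_lit 0, nat_lit 5, nat_lit 216, nat_lit 0, nat_lit 0, nat_lit 0, nat_lit 0, nat_lit 0, nat_lit 0, nat_lit 0, nat_lit 0, nat_lit 0, nat_lit 0, nat_lit 5000000, false, true⟩,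
 nat_lit 0, nat_lit 4689, nat_lit 0, nat_lit 0, nat_lit 3516, nat_lit 0, nat_lit 0, nat_lit 0, nat_lit 0, nat_lit 0, nat_lit 0, nat_lit 0, nat_lit 0, nat_lit 0, nat_lit 0, nat_lit 250000, nat_lit 0, nat_lit 0, [(nat_lit 18, [(nat_lit 0, nat_lit 1000)]), (nat_lit 21, [(nat_lit 0, nat_lit 1000)])],
 ⟨p018_k8, nat_lit 0, nat_lit 0, nat_lit 235, nat_lit 0, nat_lit 156667, [nat_lit 1558400000, nat_lit 2562000000], [], [nat_lit 23680944040, nat_lit 26189463152, nat_lit 31757891405, nat_lit 33167034989], nat_lit 1271250, nat_lit 1271250, nat_lit 230001, nat_lit 2788500, nat_lit 0, nat_lit 0, [nat_lit 490000, nat_lit 1427500], [nat_lit 69, nat_lit 40, nat_lit 80, nat_lit 80, nat_lit 64, nat_lit 317, nat_lit 100, nat_lit 12]⟩, C1.Rw.none,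
 ⟨nat_lit 3162, nat_lit 4473, ⟨.ofNat (nat_lit 227776), .ofNat (nat_lit 812698), .ofNat (nat_lit 270729), .ofNat (nat_lit 855831), .ofNat (nat_lit 255876), .ofNat (nat_lit 780384), .ofNat (nat_lit 300005), .ofNat (nat_lit 824694)⟩, ⟨.ofNat (nat_lit 0), .ofNat (nat_lit 0), .ofNat (nat_lit 0), .ofNat (nat_lit 0), .ofNat (nat_lit 0), .ofNat (nat_lit 0), .ofNat (nat_lit 0), .ofNat (nat_lit 0)⟩⟩, [⟨nat_lit 13, nat_lit 72, nat_lit 63, nat_lit 100, nat_lit 215132426⟩]⟩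
noncomputable def b_N_800_500_0_2 : St := ⟨false, nat_lit 2, nat_lit 2, nat_lit 0, nat_lit 40, nat_lit 320, nat_lit 360, nat_lit 200, nat_lit 240, nat_lit 40, nat_lit 384, nat_lit 0, nat_lit 0, nat_lit 0, nat_lit 0, nat_lit 0, nat_lit 0, nat_lit 80, nat_lit 136, nat_lit 0, nat_lit 0, nat_lit 0, nat_lit 0⟩
theorem d_N_800_500_0_2 (h : EB TB.env) : Dead b_N_800_500_0_2 := chkB_sound0 h (T :=
(.spl (nat_lit 6) (nat_lit 120)
(.st (nat_lit 0)
(.gv
(.st (nat_lit 1)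
(.spl (nat_lit 2) (nat_lit 240)
(.leaf p018_l139)
(.leaf p018_l140))
(.spl (nat_lit 2) (nat_lit 240)
(.leaf p018_l141)
(.spl (nat_lit 2) (nat_lit 320)
(.leaf p018_l142)
(.spl (nat_lit 1) (nat_lit 220)
(.trX (nat_lit 13) (nat_lit 80) (nat_lit 52) (nat_lit 100) (nat_lit 372) (.leaf p018_l143))
(.spl (nat_lit 0) (nat_lit 340)
(.spl (nat_lit 2) (nat_lit 360)
(.leaf p018_l144)
(.leaf p018_l145))
(.trX (nat_lit 13) (nat_lit 73) (nat_lit 55) (nat_lit 100) (nat_lit 368) (.leaf p018_l146)))))))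
(.leaf p018_l147))
(.gv
(.st (nat_lit 1)
(.spl (nat_lit 2) (nat_lit 120)
(.leaf p018_l148)
(.leaf p018_l149))
(.spl (nat_lit 2) (nat_lit 240)
(.leaf p018_l150)
(.spl (nat_lit 0) (nat_lit 340)
(.spl (nat_lit 1) (nat_lit 220)
(.trX (nat_lit 13) (nat_lit 80) (nat_lit 52) (nat_lit 100) (nat_lit 372) (.leaf p018_l151))
(.leaf p018_l152))
(.trX (nat_lit 13) (nat_lit 73) (nat_lit 55) (nat_lit 100) (nat_lit 368) (.spl (nat_lit 2) (nat_lit 320)
(.spl (nat_lit 0) (nat_lit 350)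
(.leaf p018_l153)
(.leaf p018_l154))
(.spl (nat_lit 1) (nat_lit 220)
(.trX (nat_lit 13) (nat_lit 72) (nat_lit 63) (nat_lit 100) (nat_lit 360) (.spl (nat_lit 0) (nat_lit 350)
(.leaf p018_l155)
(.trX (nat_lit 13) (nat_lit 66) (nat_lit 68) (nat_lit 100) (nat_lit 348) (.leaf p018_l156))))
(.spl (nat_lit 0) (nat_lit 350)
(.leaf p018_l157)
(.trX (nat_lit 13) (nat_lit 68) (nat_lit 61) (nat_lit 100) (nat_lit 360) (.leaf p018_l158)))))))))
(.st (nat_lit 1)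
(.spl (nat_lit 0) (nat_lit 340)
(.leaf p018_l159)
(.trZ (nat_lit 0) (nat_lit 100) (nat_lit 71) (nat_lit 70) (nat_lit 56) (.trX (nat_lit 13) (nat_lit 73) (nat_lit 55) (nat_lit 100) (nat_lit 368) (.leaf p018_l160))))
(.leaf p018_l161))))
(.st (nat_lit 0)
(.gv
(.st (nat_lit 1)
(.spl (nat_lit 0) (nat_lit 340)
(.leaf p018_l162)
(.trZ (nat_lit 0) (nat_lit 100) (nat_lit 71) (nat_lit 70) (nat_lit 56) (.trX (nat_lit 13) (nat_lit 73) (nat_lit 55) (nat_lit 100) (nat_lit 368) (.leaf p018_l163))))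
(.spl (nat_lit 2) (nat_lit 240)
(.leaf p018_l164)
(.spl (nat_lit 1) (nat_lit 220)
(.trX (nat_lit 13) (nat_lit 80) (nat_lit 52) (nat_lit 100) (nat_lit 372) (.leaf p018_l165))
(.leaf p018_l166))))
(.leaf p018_l167))
(.gv
(.st (nat_lit 1)
(.spl (nat_lit 0) (nat_lit 340)
(.leaf p018_l168)
(.trZ (nat_lit 0) (nat_lit 100) (nat_lit 71) (nat_lit 70) (nat_lit 56) (.trX (nat_lit 13) (nat_lit 73) (nat_lit 55) (nat_lit 100) (nat_lit 368) (.spl (nat_lit 1) (nat_lit 220)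
(.trX (nat_lit 13) (nat_lit 72) (nat_lit 63) (nat_lit 100) (nat_lit 360) (.leaf p018_l169))
(.trZ (nat_lit 0) (nat_lit 100) (nat_lit 72) (nat_lit 77) (nat_lit 68) (.leaf p018_l170))))))
(.spl (nat_lit 2) (nat_lit 240)
(.leaf p018_l171)
(.leaf p018_l172)))
(.leaf p018_l173))))) (by decide +kernel)
noncomputable def p018_l174 : Lf2 := ⟨nat_lit 0, nat_lit 10, [nat_lit 0, nat_lit 5, nat_lit 5, nat_lit 20], false, nat_lit 0, nat_lit 0, nat_lit 0, nat_lit 0, ⟨nat_lit 1000, nat_lit 0, nat_lit 0, nat_lit 0, nat_lit 0, nat_lit 0, nat_lit 0, nat_lit 0, nat_lit 0, nat_lit 0, nat_lit 0, nat_lit 0, nat_lit 0, nat_lit 0, nat_lit 0, nat_lit 0, false, false⟩,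
 nat_lit 0, nat_lit 0, nat_lit 0, nat_lit 0, nat_lit 7346, nat_lit 0, nat_lit 0, nat_lit 0, nat_lit 0, nat_lit 0, nat_lit 0, nat_lit 0, nat_lit 0, nat_lit 0, nat_lit 0, nat_lit 0, nat_lit 0, nat_lit 0, [],
 ⟨p018_k8, nat_lit 0, nat_lit 0, nat_lit 185, nat_lit 0, nat_lit 0, [nat_lit 2032000001, nat_lit 6250000000], [], [nat_lit 27777881695, nat_lit 32043503418, nat_lit 41395888360, nat_lit 44482793951], nat_lit 0, nat_lit 0, nat_lit 0, nat_lit 0, nat_lit 0, nat_lit 0, [], [nat_lit 69, nat_lit 40, nat_lit 80, nat_lit 80, nat_lit 64, nat_lit 317, nat_lit 100, nat_lit 12]⟩, ⟨p018_k25, nat_lit 0, nat_lit 0, nat_lit 228, nat_lit 0, nat_lit 0, [nat_lit 4688000000, nat_lit 11872000000], [], [nat_lit 36226723200, nat_lit 37446527200, nat_lit 44642044000, nat_lit 45566898400], nat_lit 0, nat_lit 0, nat_lit 0, nat_lit 0, nat_lit 0, nat_lit 0, [], [nat_lit 116, nat_lit 40, nat_lit 80, nat_lit 80, nat_lit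 65, nat_lit 401, nat_lit 175, nat_lit 11]⟩,
 zbF0, [⟨nat_lit 0, nat_lit 100, nat_lit 75, nat_lit 92, nat_lit 232561575⟩]⟩
noncomputable def p018_l175 : Lf2 := ⟨nat_lit 0, nat_lit 10, [nat_lit 0, nat_lit 5, nat_lit 5, nat_lit 20], true, nat_lit 0, nat_lit 0, nat_lit 0, nat_lit 0, ⟨nat_lit 0, nat_lit 144, nat_lit 856, nat_lit 6, nat_lit 195, nat_lit 0, nat_lit 0, nat_lit 0, nat_lit 0, nat_lit 215, nat_lit 36668, nat_lit 200, nat_lit 54119310, nat_lit 12880690, nat_lit 0, nat_lit 2447337, false, false⟩,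
 nat_lit 0, nat_lit 0, nat_lit 0, nat_lit 0, nat_lit 2784, nat_lit 0, nat_lit 0, nat_lit 0, nat_lit 0, nat_lit 0, nat_lit 0, nat_lit 0, nat_lit 0, nat_lit 0, nat_lit 46, nat_lit 378400, nat_lit 0, nat_lit 0, [(nat_lit 18, [(nat_lit 0, nat_lit 144), (nat_lit 5, nat_lit 856)]), (nat_lit 21, [(nat_lit 0, nat_lit 144), (nat_lit 5, nat_lit 856)])],
 ⟨p018_k8, nat_lit 0, nat_lit 0, nat_lit 164, nat_lit 0, nat_lit 0, [nat_lit 1521169601, nat_lit 190247200], [], [nat_lit 16860470024, nat_lit 20015392980, nat_lit 19951426242, nat_lit 22658949472], nat_lit 0, nat_lit 0, nat_lit 0, nat_lit 0, nat_lit 0, nat_lit 0, [], [nat_lit 69, nat_lit 40, nat_lit 80, nat_lit 80, nat_lit 64, nat_lit 272, nat_lit 60, nat_lit 10]⟩, C1.Rw.none,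
 ⟨nat_lit 3162, nat_lit 4473, ⟨.ofNat (nat_lit 311562), .ofNat (nat_lit 611007), .ofNat (nat_lit 354514), .ofNat (nat_lit 653959), .ofNat (nat_lit 336623), .ofNat (nat_lit 605159), .ofNat (nat_lit 380752), .ofNat (nat_lit 649288)⟩, ⟨.ofNat (nat_lit 0), .ofNat (nat_lit 0), .ofNat (nat_lit 0), .ofNat (nat_lit 0), .ofNat (nat_lit 0), .ofNat (nat_lit 0), .ofNat (nat_lit 0), .ofNat (nat_lit 0)⟩⟩, []⟩
noncomputable def p018_l176 : Lf2 := ⟨nat_lit 0, nat_lit 10, [nat_lit 0, nat_lit 5, nat_lit 5, nat_lit 20], true, nat_lit 0, nat_lit 0, nat_lit 0, nat_lit 0, ⟨nat_lit 0, nat_lit 1000, nat_lit 0, nat_lit 6, nat_lit 278, nat_lit 0, nat_lit 0, nat_lit 0, nat_lit 0, nat_lit 0, nat_lit 0, nat_lit 0, nat_lit 45204335, nat_lit 21795665, nat_lit 0, nat_lit 3154030, true, true⟩,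
 nat_lit 0, nat_lit 0, nat_lit 0, nat_lit 0, nat_lit 3358, nat_lit 0, nat_lit 0, nat_lit 0, nat_lit 0, nat_lit 0, nat_lit 0, nat_lit 0, nat_lit 0, nat_lit 0, nat_lit 0, nat_lit 250000, nat_lit 0, nat_lit 0, [(nat_lit 18, [(nat_lit 0, nat_lit 1000)]), (nat_lit 21, [(nat_lit 0, nat_lit 1000)])],
 ⟨p018_k8, nat_lit 0, nat_lit 0, nat_lit 140, nat_lit 0, nat_lit 0, [nat_lit 1558400000, nat_lit 2562000000], [], [nat_lit 23259660080, nat_lit 25613183176, nat_lit 26722557984, nat_lit 28855563440], nat_lit 0, nat_lit 0, nat_lit 0, nat_lit 0, nat_lit 0, nat_lit 0, [], [nat_lit 69, nat_lit 40, nat_lit 80, nat_lit 80, nat_lit 64, nat_lit 203, nat_lit 0, nat_lit 7]⟩, C1.Rw.none,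
 ⟨nat_lit 3162, nat_lit 4473, ⟨.ofNat (nat_lit 611007), .ofNat (nat_lit 747055), .ofNat (nat_lit 653959), .ofNat (nat_lit 790054), .ofNat (nat_lit 605159), .ofNat (nat_lit 727157), .ofNat (nat_lit 649288), .ofNat (nat_lit 771333)⟩, ⟨.ofNat (nat_lit 0), .ofNat (nat_lit 0), .ofNat (nat_lit 0), .ofNat (nat_lit 0), .ofNat (nat_lit 0), .ofNat (nat_lit 0), .ofNat (nat_lit 0), .ofNat (nat_lit 0)⟩⟩, []⟩
noncomputable def p018_l177 : Lf2 := ⟨nat_lit 0, nat_lit 10, [nat_lit 0, nat_lit 5, nat_lit 5, nat_lit 20], true, nat_lit 0, nat_lit 0, nat_lit 0, nat_lit 0, ⟨nat_lit 0, nat_lit 1000, nat_lit 0, nat_lit 8, nat_lit 328, nat_lit 0, nat_lit 0, nat_lit 0, nat_lit 0, nat_lit 0, nat_lit 0, nat_lit 0, nat_lit 40055729, nat_lit 26944271, nat_lit 0, nat_lit 3369374, true, true⟩,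
 nat_lit 0, nat_lit 0, nat_lit 0, nat_lit 0, nat_lit 3256, nat_lit 0, nat_lit 0, nat_lit 0, nat_lit 0, nat_lit 0, nat_lit 0, nat_lit 0, nat_lit 0, nat_lit 0, nat_lit 0, nat_lit 455200, nat_lit 0, nat_lit 0, [(nat_lit 18, [(nat_lit 1, nat_lit 908), (nat_lit 2, nat_lit 92)]), (nat_lit 21, [(nat_lit 1, nat_lit 908), (nat_lit 2, nat_lit 92)])],
 ⟨p018_k0, nat_lit 0, nat_lit 0, nat_lit 179, nat_lit 0, nat_lit 0, [nat_lit 1426076801, nat_lit 1881904001, nat_lit 1739632000], [], [nat_lit 26755980162, nat_lit 28542074338, nat_lit 30260695994, nat_lit 32204113335], nat_lit 0, nat_lit 0, nat_lit 0, nat_lit 0, nat_lit 0, nat_lit 0, [], [nat_lit 6, nat_lit 40, nat_lit 80, nat_lit 80, nat_lit 3, nat_lit 203, nat_lit 0, nat_lit 6]⟩, C1.Rw.none,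
 ⟨nat_lit 3162, nat_lit 4473, ⟨.ofNat (nat_lit 747055), .ofNat (nat_lit 876224), .ofNat (nat_lit 790054), .ofNat (nat_lit 919290), .ofNat (nat_lit 727157), .ofNat (nat_lit 842980), .ofNat (nat_lit 771333), .ofNat (nat_lit 887222)⟩, ⟨.ofNat (nat_lit 0), .ofNat (nat_lit 0), .ofNat (nat_lit 0), .ofNat (nat_lit 0), .ofNat (nat_lit 0), .ofNat (nat_lit 0), .ofNat (nat_lit 0), .ofNat (nat_lit 0)⟩⟩, [⟨nat_lit 13, nat_lit 87, nat_lit 25, nat_lit 100, nat_lit 195854833⟩]⟩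
noncomputable def p018_l178 : Lf2 := ⟨nat_lit 0, nat_lit 10, [nat_lit 0, nat_lit 5, nat_lit 5, nat_lit 20], true, nat_lit 0, nat_lit 0, nat_lit 0, nat_lit 0, ⟨nat_lit 0, nat_lit 1000, nat_lit 0, nat_lit 6, nat_lit 245, nat_lit 0, nat_lit 0, nat_lit 0, nat_lit 0, nat_lit 0, nat_lit 0, nat_lit 0, nat_lit 0, nat_lit 0, nat_lit 0, nat_lit 5000000, false, false⟩,
 nat_lit 0, nat_lit 0, nat_lit 0, nat_lit 0, nat_lit 3338, nat_lit 0, nat_lit 0, nat_lit 0, nat_lit 0, nat_lit 0, nat_lit 0, nat_lit 0, nat_lit 0, nat_lit 0, nat_lit 0, nat_lit 567400, nat_lit 0, nat_lit 0, [(nat_lit 18, [(nat_lit 1, nat_lit 721), (nat_lit 2, nat_lit 279)]), (nat_lit 21, [(nat_lit 1, nat_lit 721), (nat_lit 2, nat_lit 279)])],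
 ⟨p018_k8, nat_lit 0, nat_lit 0, nat_lit 185, nat_lit 0, nat_lit 0, [nat_lit 1749325201, nat_lit 1485278799], [], [nat_lit 21149067516, nat_lit 23705385212, nat_lit 30340735706, nat_lit 32450287372], nat_lit 0, nat_lit 0, nat_lit 0, nat_lit 0, nat_lit 0, nat_lit 0, [], [nat_lit 69, nat_lit 40, nat_lit 80, nat_lit 80, nat_lit 64, nat_lit 317, nat_lit 100, nat_lit 12]⟩, C1.Rw.none,
 ⟨nat_lit 3162, nat_lit 4473, ⟨.ofNat (nat_lit 311562), .ofNat (nat_lit 876224), .ofNat (nat_lit 354514), .ofNat (nat_lit 919290), .ofNat (nat_lit 336623), .ofNat (nat_lit 842980), .ofNat (nat_lit 380752), .ofNat (nat_lit 887222)⟩, ⟨.ofNat (nat_lit 0), .ofNat (nat_lit 0), .ofNat (nat_lit 0), .ofNat (nat_lit 0), .ofNat (nat_lit 0), .ofNat (nat_lit 0), .ofNat (nat_lit 0), .ofNat (nat_lit 0)⟩⟩, [⟨nat_lit 13, nat_lit 87, nat_lit 25, nat_lit 100, nat_lit 272186572⟩]⟩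
noncomputable def b_N_800_600_0_0 : St := ⟨false, nat_lit 0, nat_lit 2, nat_lit 0, nat_lit 40, nat_lit 320, nat_lit 360, nat_lit 240, nat_lit 280, nat_lit 64, nat_lit 396, nat_lit 0, nat_lit 0, nat_lit 0, nat_lit 0, nat_lit 0, nat_lit 0, nat_lit 0, nat_lit 40, nat_lit 0, nat_lit 0, nat_lit 0, nat_lit 0⟩
theorem d_N_800_600_0_0 (h : EB TB.env) : Dead b_N_800_600_0_0 := chkB_sound0 h (T :=
(.gv
(.st (nat_lit 1)
(.leaf p018_l174)
(.spl (nat_lit 2) (nat_lit 240)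
(.leaf p018_l175)
(.spl (nat_lit 2) (nat_lit 320)
(.leaf p018_l176)
(.leaf p018_l177))))
(.leaf p018_l178))) (by decide +kernel)
noncomputable def p018_l179 : Lf2 := ⟨nat_lit 0, nat_lit 10, [nat_lit 0, nat_lit 5, nat_lit 5, nat_lit 20], false, nat_lit 0, nat_lit 0, nat_lit 0, nat_lit 0, ⟨nat_lit 637, nat_lit 0, nat_lit 363, nat_lit 6, nat_lit 154, nat_lit 0, nat_lit 0, nat_lit 0, nat_lit 0, nat_lit 215, nat_lit 153600, nat_lit 311, nat_lit 58308227, nat_lit 0, nat_lit 0, nat_lit 1929344, false, false⟩,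
 nat_lit 0, nat_lit 0, nat_lit 0, nat_lit 0, nat_lit 0, nat_lit 4276, nat_lit 0, nat_lit 0, nat_lit 377, nat_lit 0, nat_lit 0, nat_lit 0, nat_lit 0, nat_lit 0, nat_lit 0, nat_lit 145200, nat_lit 0, nat_lit 0, [(nat_lit 18, [(nat_lit 5, nat_lit 363)])],
 ⟨p018_k8, nat_lit 0, nat_lit 0, nat_lit 0, nat_lit 0, nat_lit 1443767, [nat_lit 1688239001, nat_lit 3434862400], [], [nat_lit 11504601608, nat_lit 12163671608, nat_lit 12674318008, nat_lit 13308051008], nat_lit 1271250, nat_lit 1271250, nat_lit 382400, nat_lit 780000, nat_lit 0, nat_lit 0, [nat_lit 490000, nat_lit 1427500], [nat_lit 69, nat_lit 40, nat_lit 80, nat_lit 80]⟩, ⟨p018_k25, nat_lit 0, nat_lit 0, nat_lit 221, nat_lit 0, nat_lit 0, [nat_lit 2986256000, nat_lit 7562464000], [], [nat_lit 20986850944, nat_lit 22831522841, nat_lit 20445267832, nat_lit 21968930780], nat_lit 0, nat_lit 0, nat_lit 0, nat_lit 0, nat_lit 0, nat_lit 0, [],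 [nat_lit 116, nat_lit 40, nat_lit 80, nat_lit 80, nat_lit 65, nat_lit 317, nat_lit 100, nat_lit 8]⟩,
 ⟨nat_lit 3872, nat_lit 4473, ⟨.ofNat (nat_lit 311945), .ofNat (nat_lit 407125), .ofNat (nat_lit 355043), .ofNat (nat_lit 450223), .ofNat (nat_lit 324151), .ofNat (nat_lit 414492), .ofNat (nat_lit 367703), .ofNat (nat_lit 458043)⟩, ⟨.ofNat (nat_lit 0), .ofNat (nat_lit 0), .ofNat (nat_lit 0), .ofNat (nat_lit 0), .ofNat (nat_lit 0), .ofNat (nat_lit 0), .ofNat (nat_lit 0), .ofNat (nat_lit 0)⟩⟩, [⟨nat_lit 0, nat_lit 100, nat_lit 82, nat_lit 76, nat_lit 449604103⟩]⟩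
noncomputable def p018_l180 : Lf2 := ⟨nat_lit 0, nat_lit 10, [nat_lit 0, nat_lit 5, nat_lit 5, nat_lit 20], false, nat_lit 0, nat_lit 0, nat_lit 0, nat_lit 0, ⟨nat_lit 410, nat_lit 0, nat_lit 590, nat_lit 6, nat_lit 146, nat_lit 0, nat_lit 0, nat_lit 0, nat_lit 0, nat_lit 215, nat_lit 201667, nat_lit 325, nat_lit 59077746, nat_lit 0, nat_lit 0, nat_lit 1817041, false, false⟩,
 nat_lit 0, nat_lit 6861, nat_lit 0, nat_lit 0, nat_lit 5145, nat_lit 6581, nat_lit 50, nat_lit 0, nat_lit 0, nat_lit 1155, nat_lit 0, nat_lit 0, nat_lit 0, nat_lit 0, nat_lit 0, nat_lit 590000, nat_lit 0, nat_lit 0, [(nat_lit 18, [(nat_lit 6, nat_lit 590)])],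
 ⟨p018_k0, nat_lit 0, nat_lit 0, nat_lit 621, nat_lit 0, nat_lit 1127431, [nat_lit 1458362667, nat_lit 1190637334, nat_lit 261028000], [], [nat_lit 16140818935, nat_lit 16353008455, nat_lit 16107755041, nat_lit 16333276621], nat_lit 1271250, nat_lit 1271250, nat_lit 382400, nat_lit 780000, nat_lit 0, nat_lit 0, [nat_lit 490000, nat_lit 1100000, nat_lit 1442500], [nat_lit 6, nat_lit 40, nat_lit 80, nat_lit 80, nat_lit 3, nat_lit 238, nat_lit 30, nat_lit 9]⟩, ⟨p018_k26, nat_lit 0, nat_lit 0, nat_lit 240, nat_lit 0, nat_lit 0, [nat_lit 1922080000, nat_lit 3266880000, nat_lit 4867520000], [], [nat_lit 8396284640, nat_lit 8924426794, nat_lit 6821447510, nat_lit 7496321053], nat_lit 0, nat_lit 0, nat_lit 0, nat_lit 0, nat_lit 0, nat_lit 0, [], [nat_lit 21, nat_lit 40, nat_lit 80, nat_lit 80, nat_lit 14, nat_lit 317, nat_lit 100, nat_lit 8]⟩,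
 ⟨nat_lit 4330, nat_lit 4473, ⟨.ofNat (nat_lit 312004), .ofNat (nat_lit 407174), .ofNat (nat_lit 322787), .ofNat (nat_lit 417956), .ofNat (nat_lit 315024), .ofNat (nat_lit 408989), .ofNat (nat_lit 325831), .ofNat (nat_lit 419795)⟩, ⟨.ofNat (nat_lit 0), .ofNat (nat_lit 0), .ofNat (nat_lit 0), .ofNat (nat_lit 0), .ofNat (nat_lit 0), .ofNat (nat_lit 0), .ofNat (nat_lit 0), .ofNat (nat_lit 0)⟩⟩, [⟨nat_lit 0, nat_lit 100, nat_lit 81, nat_lit 83, nat_lit 526488621⟩]⟩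
noncomputable def p018_l181 : Lf2 := ⟨nat_lit 0, nat_lit 10, [nat_lit 0, nat_lit 5, nat_lit 5, nat_lit 20], false, nat_lit 0, nat_lit 0, nat_lit 0, nat_lit 0, ⟨nat_lit 515, nat_lit 0, nat_lit 485, nat_lit 6, nat_lit 150, nat_lit 0, nat_lit 0, nat_lit 0, nat_lit 0, nat_lit 215, nat_lit 212817, nat_lit 328, nat_lit 58728084, nat_lit 0, nat_lit 0, nat_lit 1868824, false, false⟩,
 nat_lit 0, nat_lit 7028, nat_lit 0, nat_lit 0, nat_lit 5374, nat_lit 4209, nat_lit 653, nat_lit 0, nat_lit 0, nat_lit 996, nat_lit 0, nat_lit 0, nat_lit 0, nat_lit 0, nat_lit 0, nat_lit 485000, nat_lit 0, nat_lit 0, [(nat_lit 18, [(nat_lit 6, nat_lit 485)])],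
 ⟨p018_k10, nat_lit 0, nat_lit 0, nat_lit 621, nat_lit 0, nat_lit 1139146, [nat_lit 1560450667, nat_lit 1813049334, nat_lit 1326862000], [], [nat_lit 16680560414, nat_lit 16871486796, nat_lit 16594059236, nat_lit 16895735155], nat_lit 1271250, nat_lit 1271250, nat_lit 435600, nat_lit 780000, nat_lit 0, nat_lit 0, [nat_lit 490000, nat_lit 1100000, nat_lit 1442500], [nat_lit 6, nat_lit 40, nat_lit 80, nat_lit 80, nat_lit 3, nat_lit 238, nat_lit 30, nat_lit 9]⟩, ⟨p018_k26, nat_lit 0, nat_lit 0, nat_lit 230, nat_lit 0, nat_lit 0, [nat_lit 2414320000, nat_lit 4103520000, nat_lit 6114080000], [], [nat_lit 10479414233, nat_lit 10895237904, nat_lit 10211843552, nat_lit 10646163729], nat_lit 0, nat_lit 0, nat_lit 0, nat_lit 0, nat_lit 0, nat_lit 0, [], [nat_lit 21, nat_lit 40, nat_lit 80, nat_lit 80, nat_lit 14, nat_lit 317, nat_lit 100, nat_lit 8]⟩,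
 ⟨nat_lit 4183, nat_lit 4331, ⟨.ofNat (nat_lit 328447), .ofNat (nat_lit 408988), .ofNat (nat_lit 339253), .ofNat (nat_lit 419795), .ofNat (nat_lit 331312), .ofNat (nat_lit 410819), .ofNat (nat_lit 342145), .ofNat (nat_lit 421652)⟩, ⟨.ofNat (nat_lit 0), .ofNat (nat_lit 0), .ofNat (nat_lit 0), .ofNat (nat_lit 0), .ofNat (nat_lit 0), .ofNat (nat_lit 0), .ofNat (nat_lit 0), .ofNat (nat_lit 0)⟩⟩, [⟨nat_lit 0, nat_lit 100, nat_lit 78, nat_lit 85, nat_lit 472287933⟩]⟩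
noncomputable def p018_l182 : Lf2 := ⟨nat_lit 0, nat_lit 10, [nat_lit 0, nat_lit 5, nat_lit 5, nat_lit 20], false, nat_lit 0, nat_lit 0, nat_lit 0, nat_lit 0, ⟨nat_lit 436, nat_lit 0, nat_lit 564, nat_lit 6, nat_lit 153, nat_lit 0, nat_lit 0, nat_lit 0, nat_lit 0, nat_lit 215, nat_lit 220417, nat_lit 330, nat_lit 58400027, nat_lit 0, nat_lit 0, nat_lit 1916263, false, false⟩,
 nat_lit 0, nat_lit 7083, nat_lit 0, nat_lit 0, nat_lit 5312, nat_lit 5394, nat_lit 59, nat_lit 0, nat_lit 0, nat_lit 1602, nat_lit 0, nat_lit 0, nat_lit 0, nat_lit 0, nat_lit 0, nat_lit 564000, nat_lit 0, nat_lit 0, [(nat_lit 18, [(nat_lit 6, nat_lit 564)])],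
 ⟨p018_k0, nat_lit 0, nat_lit 0, nat_lit 639, nat_lit 0, nat_lit 1188278, [nat_lit 1483641601, nat_lit 1344758401, nat_lit 524948800], [], [nat_lit 16203568972, nat_lit 16393604538, nat_lit 16185417625, nat_lit 16391278291], nat_lit 1271250, nat_lit 1271250, nat_lit 435600, nat_lit 780000, nat_lit 0, nat_lit 0, [nat_lit 490000, nat_lit 1100000, nat_lit 1442500], [nat_lit 6, nat_lit 40, nat_lit 80, nat_lit 80, nat_lit 3, nat_lit 238, nat_lit 30, nat_lit 9]⟩, ⟨p018_k27, nat_lit 0, nat_lit 0, nat_lit 178, nat_lit 0, nat_lit 0, [nat_lit 2043968000, nat_lit 3474048000, nat_lit 4291112000], [], [nat_lit 7712615347, nat_lit 8343422362, nat_lit 7135145277, nat_lit 7724015918], nat_lit 0, nat_lit 0, nat_lit 0, nat_lit 0, nat_lit 0, nat_lit 0, [], [nat_lit 29, nat_lit 40, nat_lit 80, nat_lit 80, nat_lit 17, nat_lit 317, nat_lit 100, nat_lit 9]⟩,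
 ⟨nat_lit 4330, nat_lit 4473, ⟨.ofNat (nat_lit 336383), .ofNat (nat_lit 417956), .ofNat (nat_lit 347165), .ofNat (nat_lit 428739), .ofNat (nat_lit 339254), .ofNat (nat_lit 419795), .ofNat (nat_lit 350061), .ofNat (nat_lit 430602)⟩, ⟨.ofNat (nat_lit 0), .ofNat (nat_lit 0), .ofNat (nat_lit 0), .ofNat (nat_lit 0), .ofNat (nat_lit 0), .ofNat (nat_lit 0), .ofNat (nat_lit 0), .ofNat (nat_lit 0)⟩⟩, [⟨nat_lit 0, nat_lit 100, nat_lit 82, nat_lit 87, nat_lit 452248609⟩]⟩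
noncomputable def p018_l183 : Lf2 := ⟨nat_lit 0, nat_lit 10, [nat_lit 0, nat_lit 5, nat_lit 5, nat_lit 20], false, nat_lit 0, nat_lit 0, nat_lit 0, nat_lit 0, ⟨nat_lit 1000, nat_lit 0, nat_lit 0, nat_lit 0, nat_lit 0, nat_lit 0, nat_lit 0, nat_lit 0, nat_lit 0, nat_lit 0, nat_lit 0, nat_lit 0, nat_lit 0, nat_lit 0, nat_lit 0, nat_lit 0, false, false⟩,
 nat_lit 0, nat_lit 10768, nat_lit 0, nat_lit 0, nat_lit 8234, nat_lit 8008, nat_lit 1704, nat_lit 0, nat_lit 0, nat_lit 1644, nat_lit 0, nat_lit 0, nat_lit 0, nat_lit 0, nat_lit 0, nat_lit 0, nat_lit 0, nat_lit 0, [],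
 ⟨p018_k10, nat_lit 0, nat_lit 0, nat_lit 639, nat_lit 0, nat_lit 1197658, [nat_lit 2032000001, nat_lit 4688000000, nat_lit 6250000000], [], [nat_lit 18377840752, nat_lit 18627205368, nat_lit 18078711994, nat_lit 18596358323], nat_lit 1271250, nat_lit 1271250, nat_lit 490000, nat_lit 780000, nat_lit 0, nat_lit 0, [nat_lit 490000, nat_lit 1100000, nat_lit 1442500], [nat_lit 6, nat_lit 40, nat_lit 80, nat_lit 80, nat_lit 3, nat_lit 238, nat_lit 30, nat_lit 9]⟩, ⟨p018_k27, nat_lit 0, nat_lit 0, nat_lit 166, nat_lit 0, nat_lit 0, [nat_lit 4688000000, nat_lit 7968000000, nat_lit 9842000000], [], [nat_lit 19534527984, nat_lit 20465551776, nat_lit 19527343408, nat_lit 20360210272], nat_lit 0, nat_lit 0, nat_lit 0, nat_lit 0, nat_lit 0, nat_lit 0, [], [nat_lit 29, nat_lit 40, nat_lit 80, nat_lit 80, nat_lit 17, nat_lit 317, nat_lit 100, nat_lit 9]⟩,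
 zbF0, [⟨nat_lit 0, nat_lit 100, nat_lit 80, nat_lit 89, nat_lit 746013817⟩]⟩
noncomputable def p018_l184 : Lf2 := ⟨nat_lit 0, nat_lit 5, [nat_lit 4, nat_lit 5, nat_lit 5, nat_lit 20], false, nat_lit 0, nat_lit 0, nat_lit 0, nat_lit 0, ⟨nat_lit 530, nat_lit 0, nat_lit 470, nat_lit 6, nat_lit 163, nat_lit 0, nat_lit 0, nat_lit 0, nat_lit 0, nat_lit 215, nat_lit 191072, nat_lit 322, nat_lit 57444621, nat_lit 0, nat_lit 0, nat_lit 2048432, false, false⟩,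
 nat_lit 0, nat_lit 7531, nat_lit 0, nat_lit 0, nat_lit 5647, nat_lit 3934, nat_lit 2, nat_lit 0, nat_lit 0, nat_lit 2330, nat_lit 0, nat_lit 0, nat_lit 0, nat_lit 0, nat_lit 0, nat_lit 470000, nat_lit 0, nat_lit 0, [(nat_lit 18, [(nat_lit 6, nat_lit 470)])],
 ⟨p018_k17, nat_lit 0, nat_lit 0, nat_lit 692, nat_lit 0, nat_lit 1316768, [nat_lit 1575034667, nat_lit 1901965334, nat_lit 1479124000], [], [nat_lit 18358460476, nat_lit 18717974069, nat_lit 18344510484, nat_lit 18685755309], nat_lit 1271250, nat_lit 1271250, nat_lit 490000, nat_lit 780000, nat_lit 0, nat_lit 0, [nat_lit 490000, nat_lit 1100000, nat_lit 1442500], [nat_lit 6, nat_lit 40, nat_lit 80, nat_lit 80, nat_lit 3, nat_lit 238, nat_lit 30, nat_lit 9]⟩, ⟨p018_k28, nat_lit 0, nat_lit 0, nat_lit 125, nat_lit 0, nat_lit 0, [nat_lit 2484640000, nat_lit 4223040000], [], [nat_lit 7919121244, nat_lit 8877607216, nat_lit 8043616356, nat_lit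 8887026520], nat_lit 0, nat_lit 0, nat_lit 0, nat_lit 0, nat_lit 0, nat_lit 0, [], [nat_lit 39, nat_lit 40, nat_lit 80, nat_lit 80, nat_lit 7, nat_lit 238, nat_lit 30, nat_lit 8]⟩,
 ⟨nat_lit 4183, nat_lit 4473, ⟨.ofNat (nat_lit 360749), .ofNat (nat_lit 428729), .ofNat (nat_lit 382312), .ofNat (nat_lit 450291), .ofNat (nat_lit 366218), .ofNat (nat_lit 432475), .ofNat (nat_lit 387880), .ofNat (nat_lit 454137)⟩, ⟨.ofNat (nat_lit 0), .ofNat (nat_lit 0), .ofNat (nat_lit 0), .ofNat (nat_lit 0), .ofNat (nat_lit 0), .ofNat (nat_lit 0), .ofNat (nat_lit 0), .ofNat (nat_lit 0)⟩⟩, [⟨nat_lit 0, nat_lit 100, nat_lit 83, nat_lit 98, nat_lit 412095961⟩]⟩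
noncomputable def p018_l185 : Lf2 := ⟨nat_lit 0, nat_lit 10, [nat_lit 0, nat_lit 5, nat_lit 5, nat_lit 20], false, nat_lit 0, nat_lit 0, nat_lit 0, nat_lit 0, ⟨nat_lit 525, nat_lit 0, nat_lit 475, nat_lit 6, nat_lit 163, nat_lit 0, nat_lit 0, nat_lit 0, nat_lit 0, nat_lit 215, nat_lit 191072, nat_lit 322, nat_lit 57444621, nat_lit 0, nat_lit 0, nat_lit 2048432, false, false⟩,
 nat_lit 0, nat_lit 7325, nat_lit 0, nat_lit 0, nat_lit 5493, nat_lit 5878, nat_lit 26, nat_lit 0, nat_lit 0, nat_lit 1049, nat_lit 0, nat_lit 0, nat_lit 0, nat_lit 0, nat_lit 0, nat_lit 475000, nat_lit 0, nat_lit 0, [(nat_lit 18, [(nat_lit 6, nat_lit 475)])],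
 ⟨p018_k0, nat_lit 0, nat_lit 0, nat_lit 586, nat_lit 0, nat_lit 1087690, [nat_lit 1570173334, nat_lit 1872326667, nat_lit 1428370000], [], [nat_lit 18428179304, nat_lit 18874960611, nat_lit 18501465828, nat_lit 18907079393], nat_lit 1271250, nat_lit 1271250, nat_lit 490000, nat_lit 780000, nat_lit 0, nat_lit 0, [nat_lit 490000, nat_lit 1100000, nat_lit 1442500], [nat_lit 6, nat_lit 40, nat_lit 80, nat_lit 80, nat_lit 3, nat_lit 238, nat_lit 30, nat_lit 9]⟩, ⟨p018_k29, nat_lit 0, nat_lit 0, nat_lit 182, nat_lit 0, nat_lit 0, [nat_lit 2461200000, nat_lit 4183200000, nat_lit 5167050000], [], [nat_lit 9603714666, nat_lit 10824322060, nat_lit 9325152335, nat_lit 10617407440], nat_lit 0, nat_lit 0, nat_lit 0, nat_lit 0, nat_lit 0, nat_lit 0, [], [nat_lit 29, nat_lit 40, nat_lit 80, nat_lit 80, nat_lit 17, nat_lit 317, nat_lit 100, nat_lit 9]⟩,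
 ⟨nat_lit 4183, nat_lit 4473, ⟨.ofNat (nat_lit 360749), .ofNat (nat_lit 428729), .ofNat (nat_lit 382312), .ofNat (nat_lit 450291), .ofNat (nat_lit 366218), .ofNat (nat_lit 432475), .ofNat (nat_lit 387880), .ofNat (nat_lit 454137)⟩, ⟨.ofNat (nat_lit 0), .ofNat (nat_lit 0), .ofNat (nat_lit 0), .ofNat (nat_lit 0), .ofNat (nat_lit 0), .ofNat (nat_lit 0), .ofNat (nat_lit 0), .ofNat (nat_lit 0)⟩⟩, [⟨nat_lit 0, nat_lit 100, nat_lit 83, nat_lit 98, nat_lit 431175500⟩]⟩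
noncomputable def p018_l186 : Lf2 := ⟨nat_lit 0, nat_lit 10, [nat_lit 0, nat_lit 5, nat_lit 5, nat_lit 20], false, nat_lit 0, nat_lit 0, nat_lit 0, nat_lit 0, ⟨nat_lit 1000, nat_lit 0, nat_lit 0, nat_lit 0, nat_lit 0, nat_lit 0, nat_lit 0, nat_lit 0, nat_lit 0, nat_lit 0, nat_lit 0, nat_lit 0, nat_lit 0, nat_lit 0, nat_lit 0, nat_lit 0, false, false⟩,
 nat_lit 0, nat_lit 8150, nat_lit 0, nat_lit 0, nat_lit 6353, nat_lit 8355, nat_lit 2066, nat_lit 0, nat_lit 0, nat_lit 1930, nat_lit 0, nat_lit 0, nat_lit 0, nat_lit 0, nat_lit 0, nat_lit 0, nat_lit 0, nat_lit 0, [],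
 ⟨p018_k6, nat_lit 0, nat_lit 0, nat_lit 723, nat_lit 0, nat_lit 1371586, [nat_lit 2032000001, nat_lit 4688000000, nat_lit 6250000000], [], [nat_lit 17781908373, nat_lit 18235085264, nat_lit 17734294023, nat_lit 18198769887], nat_lit 1271250, nat_lit 1271250, nat_lit 462650, nat_lit 780000, nat_lit 0, nat_lit 0, [nat_lit 490000, nat_lit 1100000, nat_lit 1442500], [nat_lit 6, nat_lit 40, nat_lit 80, nat_lit 80, nat_lit 3, nat_lit 239, nat_lit 30, nat_lit 9]⟩, ⟨p018_k26, nat_lit 0, nat_lit 0, nat_lit 239, nat_lit 0, nat_lit 0, [nat_lit 4688000000, nat_lit 7968000000, nat_lit 11872000000], [], [nat_lit 20122782789, nat_lit 24081405810, nat_lit 19583477890, nat_lit 23695280400], nat_lit 0, nat_lit 0, nat_lit 0, nat_lit 0, nat_lit 0, nat_lit 0, [], [nat_lit 21, nat_lit 40, nat_lit 80, nat_lit 80, nat_lit 14, nat_lit 317, nat_lit 100, nat_lit 8]⟩,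
 zbF0, [⟨nat_lit 0, nat_lit 100, nat_lit 77, nat_lit 91, nat_lit 851890794⟩]⟩
noncomputable def p018_l187 : Lf2 := ⟨nat_lit 0, nat_lit 10, [nat_lit 0, nat_lit 5, nat_lit 5, nat_lit 20], false, nat_lit 0, nat_lit 0, nat_lit 0, nat_lit 0, ⟨nat_lit 452, nat_lit 0, nat_lit 548, nat_lit 6, nat_lit 208, nat_lit 0, nat_lit 0, nat_lit 0, nat_lit 0, nat_lit 215, nat_lit 6736, nat_lit 202, nat_lit 52718899, nat_lit 0, nat_lit 0, nat_lit 2590505, false, false⟩,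
 nat_lit 0, nat_lit 6182, nat_lit 0, nat_lit 0, nat_lit 4636, nat_lit 7491, nat_lit 0, nat_lit 0, nat_lit 0, nat_lit 1256, nat_lit 0, nat_lit 0, nat_lit 0, nat_lit 0, nat_lit 0, nat_lit 548000, nat_lit 0, nat_lit 0, [(nat_lit 18, [(nat_lit 6, nat_lit 548)])],
 ⟨p018_k0, nat_lit 0, nat_lit 0, nat_lit 637, nat_lit 0, nat_lit 1228781, [nat_lit 1499197867, nat_lit 1439602134, nat_lit 687361600], [], [nat_lit 20451123509, nat_lit 20792206879, nat_lit 22398581280, nat_lit 23375925932], nat_lit 1271250, nat_lit 1271250, nat_lit 780000, nat_lit 1762500, nat_lit 0, nat_lit 0, [nat_lit 490000, nat_lit 1100000, nat_lit 1442500], [nat_lit 6, nat_lit 40, nat_lit 80, nat_lit 80, nat_lit 3, nat_lit 272, nat_lit 60, nat_lit 10]⟩, ⟨p018_k26, nat_lit 0, nat_lit 0, nat_lit 208, nat_lit 0, nat_lit 0, [nat_lit 2118976000, nat_lit 3601536000, nat_lit 5366144000], [], [nat_lit 7430828420, nat_lit 8955865321, nat_lit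 10685022256, nat_lit 12389591718], nat_lit 0, nat_lit 0, nat_lit 0, nat_lit 0, nat_lit 0, nat_lit 0, [], [nat_lit 21, nat_lit 40, nat_lit 80, nat_lit 80, nat_lit 14, nat_lit 345, nat_lit 125, nat_lit 9]⟩,
 ⟨nat_lit 4183, nat_lit 4473, ⟨.ofNat (nat_lit 407167), .ofNat (nat_lit 611104), .ofNat (nat_lit 428729), .ofNat (nat_lit 632666), .ofNat (nat_lit 410812), .ofNat (nat_lit 609582), .ofNat (nat_lit 432475), .ofNat (nat_lit 631244)⟩, ⟨.ofNat (nat_lit 0), .ofNat (nat_lit 0), .ofNat (nat_lit 0), .ofNat (nat_lit 0), .ofNat (nat_lit 0), .ofNat (nat_lit 0), .ofNat (nat_lit 0), .ofNat (nat_lit 0)⟩⟩, []⟩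
noncomputable def p018_l188 : Lf2 := ⟨nat_lit 0, nat_lit 10, [nat_lit 0, nat_lit 5, nat_lit 5, nat_lit 20], false, nat_lit 0, nat_lit 0, nat_lit 0, nat_lit 0, ⟨nat_lit 1000, nat_lit 0, nat_lit 0, nat_lit 0, nat_lit 0, nat_lit 0, nat_lit 0, nat_lit 0, nat_lit 0, nat_lit 0, nat_lit 0, nat_lit 0, nat_lit 0, nat_lit 0, nat_lit 0, nat_lit 0, false, false⟩,
 nat_lit 0, nat_lit 8148, nat_lit 0, nat_lit 0, nat_lit 6351, nat_lit 8008, nat_lit 730, nat_lit 0, nat_lit 0, nat_lit 1796, nat_lit 0, nat_lit 0, nat_lit 0, nat_lit 0, nat_lit 0, nat_lit 0, nat_lit 0, nat_lit 0, [],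
 ⟨p018_k6, nat_lit 0, nat_lit 0, nat_lit 645, nat_lit 0, nat_lit 1246298, [nat_lit 2032000001, nat_lit 4688000000, nat_lit 6250000000], [], [nat_lit 23906942415, nat_lit 24369102058, nat_lit 26119817887, nat_lit 27308891294], nat_lit 1271250, nat_lit 1271250, nat_lit 780000, nat_lit 1762500, nat_lit 0, nat_lit 0, [nat_lit 490000, nat_lit 1100000, nat_lit 1442500], [nat_lit 6, nat_lit 40, nat_lit 80, nat_lit 80, nat_lit 3, nat_lit 272, nat_lit 60, nat_lit 10]⟩, ⟨p018_k26, nat_lit 0, nat_lit 0, nat_lit 208, nat_lit 0, nat_lit 0, [nat_lit 4688000000, nat_lit 7968000000, nat_lit 11872000000], [], [nat_lit 20215449216, nat_lit 21717180936, nat_lit 24174696480, nat_lit 25715879632], nat_lit 0, nat_lit 0, nat_lit 0, nat_lit 0, nat_lit 0, nat_lit 0, [], [nat_lit 21, nat_lit 40, nat_lit 80, nat_lit 80, nat_lit 14, nat_lit 345, nat_lit 125, nat_lit 9]⟩,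
 zbF0, []⟩
noncomputable def p018_l189 : Lf2 := ⟨nat_lit 0, nat_lit 10, [nat_lit 0, nat_lit 5, nat_lit 5, nat_lit 20], false, nat_lit 0, nat_lit 0, nat_lit 0, nat_lit 0, ⟨nat_lit 1000, nat_lit 0, nat_lit 0, nat_lit 0, nat_lit 0, nat_lit 0, nat_lit 0, nat_lit 0, nat_lit 0, nat_lit 0, nat_lit 0, nat_lit 0, nat_lit 0, nat_lit 0, nat_lit 0, nat_lit 0, false, false⟩,
 nat_lit 0, nat_lit 8444, nat_lit 0, nat_lit 0, nat_lit 6332, nat_lit 5965, nat_lit 433, nat_lit 0, nat_lit 0, nat_lit 2129, nat_lit 0, nat_lit 0, nat_lit 0, nat_lit 0, nat_lit 0, nat_lit 0, nat_lit 0, nat_lit 0, [],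
 ⟨p018_k0, nat_lit 0, nat_lit 0, nat_lit 640, nat_lit 0, nat_lit 1311405, [nat_lit 2032000001, nat_lit 4688000000, nat_lit 6250000000], [], [nat_lit 35396778242, nat_lit 35977930586, nat_lit 39198621380, nat_lit 39657858699], nat_lit 1271250, nat_lit 1271250, nat_lit 1271250, nat_lit 1271250, nat_lit 0, nat_lit 0, [nat_lit 490000, nat_lit 1100000, nat_lit 1442500], [nat_lit 6, nat_lit 40, nat_lit 80, nat_lit 80, nat_lit 3, nat_lit 252, nat_lit 0, nat_lit 9]⟩, ⟨p018_k26, nat_lit 0, nat_lit 0, nat_lit 248, nat_lit 0, nat_lit 0, [nat_lit 4688000000, nat_lit 7968000000, nat_lit 11872000000], [], [nat_lit 26454101200, nat_lit 27558592940, nat_lit 36445043928, nat_lit 37182501683], nat_lit 0, nat_lit 0, nat_lit 0, nat_lit 0, nat_lit 0, nat_lit 0, [], [nat_lit 21, nat_lit 40, nat_lit 80, nat_lit 80, nat_lit 14, nat_lit 401, nat_lit 175, nat_lit 10]⟩,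
 zbF0, []⟩
noncomputable def p018_l190 : Lf2 := ⟨nat_lit 0, nat_lit 5, [nat_lit 4, nat_lit 5, nat_lit 5, nat_lit 20], false, nat_lit 0, nat_lit 0, nat_lit 0, nat_lit 0, ⟨nat_lit 1000, nat_lit 0, nat_lit 0, nat_lit 0, nat_lit 0, nat_lit 0, nat_lit 0, nat_lit 0, nat_lit 0, nat_lit 0, nat_lit 0, nat_lit 0, nat_lit 0, nat_lit 0, nat_lit 0, nat_lit 0, false, false⟩,
 nat_lit 0, nat_lit 8620, nat_lit 0, nat_lit 0, nat_lit 6465, nat_lit 7843, nat_lit 477, nat_lit 0, nat_lit 0, nat_lit 2597, nat_lit 0, nat_lit 0, nat_lit 0, nat_lit 0, nat_lit 0, nat_lit 0, nat_lit 0, nat_lit 0, [],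
 ⟨p018_k17, nat_lit 0, nat_lit 0, nat_lit 644, nat_lit 0, nat_lit 1248185, [nat_lit 2032000001, nat_lit 4688000000, nat_lit 6250000000], [], [nat_lit 33803419761, nat_lit 34185148148, nat_lit 38568716260, nat_lit 39299339809], nat_lit 1271250, nat_lit 1271250, nat_lit 780000, nat_lit 3007000, nat_lit 0, nat_lit 0, [nat_lit 490000, nat_lit 1100000, nat_lit 1442500], [nat_lit 6, nat_lit 40, nat_lit 80, nat_lit 80, nat_lit 3, nat_lit 317, nat_lit 100, nat_lit 12]⟩, ⟨p018_k28, nat_lit 0, nat_lit 0, nat_lit 179, nat_lit 0, nat_lit 0, [nat_lit 4688000000, nat_lit 7968000000], [], [nat_lit 17632692787, nat_lit 18455074644, nat_lit 38422617432, nat_lit 38973598420], nat_lit 0, nat_lit 0, nat_lit 0, nat_lit 0, nat_lit 0, nat_lit 0, [], [nat_lit 39, nat_lit 40, nat_lit 80, nat_lit 80, nat_lit 7, nat_lit 317, nat_lit 100, nat_lit 10]⟩,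
 zbF0, []⟩
noncomputable def p018_l191 : Lf2 := ⟨nat_lit 0, nat_lit 5, [nat_lit 4, nat_lit 5, nat_lit 5, nat_lit 20], false, nat_lit 0, nat_lit 0, nat_lit 0, nat_lit 0, ⟨nat_lit 1000, nat_lit 0, nat_lit 0, nat_lit 0, nat_lit 0, nat_lit 0, nat_lit 0, nat_lit 0, nat_lit 0, nat_lit 0, nat_lit 0, nat_lit 0, nat_lit 0, nat_lit 0, nat_lit 0, nat_lit 0, false, false⟩,
 nat_lit 0, nat_lit 8483, nat_lit 0, nat_lit 0, nat_lit 6362, nat_lit 7350, nat_lit 464, nat_lit 0, nat_lit 0, nat_lit 2614, nat_lit 0, nat_lit 0, nat_lit 0, nat_lit 0, nat_lit 0, nat_lit 0, nat_lit 0, nat_lit 0, [],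
 ⟨p018_k17, nat_lit 0, nat_lit 0, nat_lit 671, nat_lit 0, nat_lit 1316768, [nat_lit 2032000001, nat_lit 4688000000, nat_lit 6250000000], [], [nat_lit 34574339126, nat_lit 34908303887, nat_lit 39168303950, nat_lit 39395165581], nat_lit 1271250, nat_lit 1271250, nat_lit 780000, nat_lit 3039750, nat_lit 0, nat_lit 0, [nat_lit 490000, nat_lit 1100000, nat_lit 1442500], [nat_lit 6, nat_lit 40, nat_lit 80, nat_lit 80, nat_lit 3, nat_lit 317, nat_lit 100, nat_lit 12]⟩, ⟨p018_k30, nat_lit 0, nat_lit 0, nat_lit 182, nat_lit 0, nat_lit 0, [nat_lit 4688000000, nat_lit 7968000000], [], [nat_lit 16807730075, nat_lit 17598784000, nat_lit 38243151728, nat_lit 38765017691], nat_lit 0, nat_lit 0, nat_lit 0, nat_lit 0, nat_lit 0, nat_lit 0, [], [nat_lit 39, nat_lit 40, nat_lit 80, nat_lit 80, nat_lit 7, nat_lit 317, nat_lit 100, nat_lit 10]⟩,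
 zbF0, []⟩
noncomputable def p018_l192 : Lf2 := ⟨nat_lit 0, nat_lit 10, [nat_lit 0, nat_lit 5, nat_lit 5, nat_lit 20], false, nat_lit 0, nat_lit 0, nat_lit 0, nat_lit 0, ⟨nat_lit 1000, nat_lit 0, nat_lit 0, nat_lit 0, nat_lit 0, nat_lit 0, nat_lit 0, nat_lit 0, nat_lit 0, nat_lit 0, nat_lit 0, nat_lit 0, nat_lit 0, nat_lit 0, nat_lit 0, nat_lit 0, false, false⟩,
 nat_lit 0, nat_lit 8410, nat_lit 0, nat_lit 0, nat_lit 6307, nat_lit 7772, nat_lit 519, nat_lit 0, nat_lit 0, nat_lit 1631, nat_lit 0, nat_lit 0, nat_lit 0, nat_lit 0, nat_lit 0, nat_lit 0, nat_lit 0, nat_lit 0, [],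
 ⟨p018_k0, nat_lit 0, nat_lit 0, nat_lit 569, nat_lit 0, nat_lit 1087690, [nat_lit 2032000001, nat_lit 4688000000, nat_lit 6250000000], [], [nat_lit 31935654966, nat_lit 32400977742, nat_lit 38529121120, nat_lit 39237738035], nat_lit 1271250, nat_lit 1271250, nat_lit 780000, nat_lit 3039750, nat_lit 0, nat_lit 0, [nat_lit 490000, nat_lit 1100000, nat_lit 1442500], [nat_lit 6, nat_lit 40, nat_lit 80, nat_lit 80, nat_lit 3, nat_lit 317, nat_lit 100, nat_lit 12]⟩, ⟨p018_k29, nat_lit 0, nat_lit 0, nat_lit 224, nat_lit 0, nat_lit 0, [nat_lit 4688000000, nat_lit 7968000000, nat_lit 9842000000], [], [nat_lit 19316371940, nat_lit 21039996560, nat_lit 38781350567, nat_lit 39850223353], nat_lit 0, nat_lit 0, nat_lit 0, nat_lit 0, nat_lit 0, nat_lit 0, [], [nat_lit 29, nat_lit 40, nat_lit 80, nat_lit 80, nat_lit 17, nat_lit 401, nat_lit 175, nat_lit 12]⟩,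
 zbF0, []⟩
noncomputable def p018_l193 : Lf2 := ⟨nat_lit 0, nat_lit 10, [nat_lit 0, nat_lit 5, nat_lit 5, nat_lit 20], false, nat_lit 0, nat_lit 0, nat_lit 0, nat_lit 0, ⟨nat_lit 1000, nat_lit 0, nat_lit 0, nat_lit 0, nat_lit 0, nat_lit 0, nat_lit 0, nat_lit 0, nat_lit 0, nat_lit 0, nat_lit 0, nat_lit 0, nat_lit 0, nat_lit 0, nat_lit 0, nat_lit 0, false, false⟩,
 nat_lit 0, nat_lit 7261, nat_lit 0, nat_lit 0, nat_lit 5659, nat_lit 7174, nat_lit 1316, nat_lit 0, nat_lit 0, nat_lit 907, nat_lit 0, nat_lit 0, nat_lit 0, nat_lit 0, nat_lit 0, nat_lit 0, nat_lit 0, nat_lit 0, [],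
 ⟨p018_k6, nat_lit 0, nat_lit 0, nat_lit 705, nat_lit 0, nat_lit 1371586, [nat_lit 2032000001, nat_lit 4688000000, nat_lit 6250000000], [], [nat_lit 25656409154, nat_lit 26062152734, nat_lit 37056313381, nat_lit 37736685086], nat_lit 1271250, nat_lit 1271250, nat_lit 780000, nat_lit 3007000, nat_lit 0, nat_lit 0, [nat_lit 490000, nat_lit 1100000, nat_lit 1442500], [nat_lit 6, nat_lit 40, nat_lit 80, nat_lit 80, nat_lit 3, nat_lit 317, nat_lit 100, nat_lit 12]⟩, ⟨p018_k29, nat_lit 0, nat_lit 0, nat_lit 222, nat_lit 0, nat_lit 0, [nat_lit 4688000000, nat_lit 7968000000, nat_lit 9842000000], [], [nat_lit 23092469990, nat_lit 24473188480, nat_lit 37154617821, nat_lit 37835042245], nat_lit 0, nat_lit 0, nat_lit 0, nat_lit 0, nat_lit 0, nat_lit 0, [], [nat_lit 29, nat_lit 40, nat_lit 80, nat_lit 80, nat_lit 17, nat_lit 401, nat_lit 175, nat_lit 12]⟩,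
 zbF0, []⟩
noncomputable def p018_l194 : Lf2 := ⟨nat_lit 0, nat_lit 10, [nat_lit 0, nat_lit 5, nat_lit 5, nat_lit 20], false, nat_lit 0, nat_lit 0, nat_lit 0, nat_lit 0, ⟨nat_lit 1000, nat_lit 0, nat_lit 0, nat_lit 0, nat_lit 0, nat_lit 0, nat_lit 0, nat_lit 0, nat_lit 0, nat_lit 0, nat_lit 0, nat_lit 0, nat_lit 0, nat_lit 0, nat_lit 0, nat_lit 0, false, false⟩,
 nat_lit 0, nat_lit 6962, nat_lit 0, nat_lit 0, nat_lit 5635, nat_lit 6576, nat_lit 650, nat_lit 0, nat_lit 0, nat_lit 1474, nat_lit 0, nat_lit 0, nat_lit 0, nat_lit 0, nat_lit 0, nat_lit 0, nat_lit 0, nat_lit 0, [],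
 ⟨p018_k7, nat_lit 0, nat_lit 0, nat_lit 752, nat_lit 0, nat_lit 1454735, [nat_lit 2032000001, nat_lit 4688000000, nat_lit 6250000000], [], [nat_lit 25269000376, nat_lit 26111598169, nat_lit 37326233706, nat_lit 38706136732], nat_lit 1271250, nat_lit 1271250, nat_lit 545600, nat_lit 2911850, nat_lit 0, nat_lit 0, [nat_lit 490000, nat_lit 1100000, nat_lit 1442500], [nat_lit 6, nat_lit 40, nat_lit 80, nat_lit 80, nat_lit 3, nat_lit 317, nat_lit 100, nat_lit 12]⟩, ⟨p018_k26, nat_lit 0, nat_lit 0, nat_lit 246, nat_lit 0, nat_lit 0, [nat_lit 4688000000, nat_lit 7968000000, nat_lit 11872000000], [], [nat_lit 22364659698, nat_lit 24767413504, nat_lit 36615570357, nat_lit 38165417277], nat_lit 0, nat_lit 0, nat_lit 0, nat_lit 0, nat_lit 0, nat_lit 0, [], [nat_lit 21, nat_lit 40, nat_lit 80, nat_lit 80, nat_lit 14, nat_lit 401, nat_lit 175, nat_lit 10]⟩,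
 zbF0, [⟨nat_lit 0, nat_lit 94, nat_lit 62, nat_lit 100, nat_lit 45769696⟩]⟩
noncomputable def p018_l195 : Lf2 := ⟨nat_lit 0, nat_lit 10, [nat_lit 0, nat_lit 5, nat_lit 5, nat_lit 20], false, nat_lit 0, nat_lit 0, nat_lit 0, nat_lit 0, ⟨nat_lit 204, nat_lit 0, nat_lit 796, nat_lit 6, nat_lit 169, nat_lit 0, nat_lit 0, nat_lit 0, nat_lit 0, nat_lit 215, nat_lit 15182, nat_lit 244, nat_lit 56818410, nat_lit 0, nat_lit 0, nat_lit 2130502, false, false⟩,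
 nat_lit 4497, nat_lit 0, nat_lit 0, nat_lit 0, nat_lit 3372, nat_lit 2380, nat_lit 0, nat_lit 0, nat_lit 0, nat_lit 267, nat_lit 0, nat_lit 0, nat_lit 0, nat_lit 0, nat_lit 20, nat_lit 435400, nat_lit 0, nat_lit 0, [(nat_lit 18, [(nat_lit 5, nat_lit 601), (nat_lit 6, nat_lit 195)]), (nat_lit 21, [(nat_lit 5, nat_lit 601), (nat_lit 6, nat_lit 195)])],
 ⟨p018_k0, nat_lit 0, nat_lit 0, nat_lit 503, nat_lit 0, nat_lit 827068, [nat_lit 1368713601, nat_lit 785790001, nat_lit 9718800], [], [nat_lit 19578305348, nat_lit 21556146314, nat_lit 20502465703, nat_lit 22361683560], nat_lit 1271250, nat_lit 1271250, nat_lit 382400, nat_lit 1100001, nat_lit 0, nat_lit 0, [nat_lit 490000, nat_lit 1100000, nat_lit 1442500], [nat_lit 6, nat_lit 40, nat_lit 80, nat_lit 80, nat_lit 3, nat_lit 249, nat_lit 40, nat_lit 10]⟩, ⟨p018_k26, nat_lit 0, nat_lit 0, nat_lit 894, nat_lit 0, nat_lit 1212039, [nat_lit 956352000,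 nat_lit 1625472000, nat_lit 2421888000], [], [nat_lit 7021620704, nat_lit 6451170344, nat_lit 8917394064, nat_lit 6674453504], nat_lit 1271250, nat_lit 1271250, nat_lit 382400, nat_lit 1100001, nat_lit 0, nat_lit 0, [nat_lit 1100000, nat_lit 1785000, nat_lit 1271250], [nat_lit 21, nat_lit 40, nat_lit 80, nat_lit 80, nat_lit 14, nat_lit 345, nat_lit 125, nat_lit 9]⟩,
 ⟨nat_lit 3162, nat_lit 4473, ⟨.ofNat (nat_lit 311562), .ofNat (nat_lit 474896), .ofNat (nat_lit 354514), .ofNat (nat_lit 517847), .ofNat (nat_lit 336623), .ofNat (nat_lit 483097), .ofNat (nat_lit 380752), .ofNat (nat_lit 527226)⟩, ⟨.ofNat (nat_lit 0), .ofNat (nat_lit 0), .ofNat (nat_lit 0), .ofNat (nat_lit 0), .ofNat (nat_lit 0), .ofNat (nat_lit 0), .ofNat (nat_lit 0), .ofNat (nat_lit 0)⟩⟩, [⟨nat_lit 0, nat_lit 94, nat_lit 62, nat_lit 100, nat_lit 89056830⟩]⟩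
noncomputable def p018_l196 : Lf2 := ⟨nat_lit 0, nat_lit 10, [nat_lit 0, nat_lit 5, nat_lit 5, nat_lit 20], false, nat_lit 0, nat_lit 0, nat_lit 0, nat_lit 0, ⟨nat_lit 231, nat_lit 0, nat_lit 769, nat_lit 6, nat_lit 226, nat_lit 0, nat_lit 0, nat_lit 0, nat_lit 0, nat_lit 215, nat_lit 36668, nat_lit 200, nat_lit 50773914, nat_lit 0, nat_lit 0, nat_lit 2767900, false, false⟩,
 nat_lit 4620, nat_lit 0, nat_lit 0, nat_lit 0, nat_lit 3464, nat_lit 2445, nat_lit 0, nat_lit 0, nat_lit 0, nat_lit 195, nat_lit 0, nat_lit 0, nat_lit 0, nat_lit 0, nat_lit 29, nat_lit 523600, nat_lit 0, nat_lit 0, [(nat_lit 18, [(nat_lit 5, nat_lit 409), (nat_lit 6, nat_lit 360)]), (nat_lit 21, [(nat_lit 5, nat_lit 409), (nat_lit 6, nat_lit 360)])],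
 ⟨p018_k0, nat_lit 0, nat_lit 0, nat_lit 452, nat_lit 0, nat_lit 827068, [nat_lit 1482734400, nat_lit 931298001, nat_lit 3835200], [], [nat_lit 20040004913, nat_lit 22127714225, nat_lit 22163389009, nat_lit 24003689585], nat_lit 1271250, nat_lit 1271250, nat_lit 1100001, nat_lit 1785000, nat_lit 0, nat_lit 0, [nat_lit 490000, nat_lit 1100000, nat_lit 1442500], [nat_lit 6, nat_lit 40, nat_lit 80, nat_lit 80, nat_lit 3, nat_lit 272, nat_lit 60, nat_lit 10]⟩, ⟨p018_k26, nat_lit 0, nat_lit 0, nat_lit 845, nat_lit 0, nat_lit 1212039, [nat_lit 1082928000, nat_lit 1840608000, nat_lit 2742432000], [], [nat_lit 7318942368, nat_lit 7475360364, nat_lit 9407581692, nat_lit 7496399148], nat_lit 1271250, nat_lit 1271250, nat_lit 1100001, nat_lit 1785000, nat_lit 0, nat_lit 0, [nat_lit 1100000, nat_lit 1785000, nat_lit 1271250], [nat_lit 21, nat_lit 40, nat_lit 80, nat_lit 80, nat_lit 14, nat_lit 373,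 nat_lit 150, nat_lit 10]⟩,
 ⟨nat_lit 3162, nat_lit 4473, ⟨.ofNat (nat_lit 474896), .ofNat (nat_lit 611007), .ofNat (nat_lit 517847), .ofNat (nat_lit 653959), .ofNat (nat_lit 483097), .ofNat (nat_lit 605159), .ofNat (nat_lit 527226), .ofNat (nat_lit 649288)⟩, ⟨.ofNat (nat_lit 0), .ofNat (nat_lit 0), .ofNat (nat_lit 0), .ofNat (nat_lit 0), .ofNat (nat_lit 0), .ofNat (nat_lit 0), .ofNat (nat_lit 0), .ofNat (nat_lit 0)⟩⟩, []⟩
noncomputable def p018_l197 : Lf2 := ⟨nat_lit 0, nat_lit 10, [nat_lit 0, nat_lit 5, nat_lit 5, nat_lit 20], false, nat_lit 0, nat_lit 0, nat_lit 0, nat_lit 0, ⟨nat_lit 366, nat_lit 634, nat_lit 0, nat_lit 6, nat_lit 299, nat_lit 0, nat_lit 0, nat_lit 0, nat_lit 0, nat_lit 0, nat_lit 0, nat_lit 0, nat_lit 42934657, nat_lit 24065343, nat_lit 0, nat_lit 3264736, true, true⟩,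
 nat_lit 6097, nat_lit 0, nat_lit 0, nat_lit 0, nat_lit 4065, nat_lit 3227, nat_lit 0, nat_lit 0, nat_lit 0, nat_lit 323, nat_lit 0, nat_lit 0, nat_lit 0, nat_lit 0, nat_lit 0, nat_lit 634000, nat_lit 0, nat_lit 0, [(nat_lit 18, [(nat_lit 2, nat_lit 634)])],
 ⟨p018_k0, nat_lit 0, nat_lit 0, nat_lit 389, nat_lit 0, nat_lit 654172, [nat_lit 1822695467, nat_lit 2378549334, nat_lit 2006511200], [], [nat_lit 27467058396, nat_lit 27860770036, nat_lit 32317350417, nat_lit 32620352929], nat_lit 1271250, nat_lit 1271250, nat_lit 1271250, nat_lit 1271250, nat_lit 0, nat_lit 0, [nat_lit 490000, nat_lit 1100000, nat_lit 1442500], [nat_lit 6, nat_lit 40, nat_lit 80, nat_lit 80, nat_lit 3, nat_lit 203, nat_lit 0, nat_lit 7]⟩, ⟨p018_k26, nat_lit 0, nat_lit 0, nat_lit 695, nat_lit 0, nat_lit 958666, [nat_lit 1715808000, nat_lit 2916288000, nat_lit 4345152000], [], [nat_lit 13334744512, nat_lit 13451318918,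 nat_lit 15089762667, nat_lit 15155788020], nat_lit 1271250, nat_lit 1271250, nat_lit 1271250, nat_lit 1271250, nat_lit 0, nat_lit 0, [nat_lit 1100000, nat_lit 1785000, nat_lit 1271250], [nat_lit 21, nat_lit 40, nat_lit 80, nat_lit 80, nat_lit 14, nat_lit 401, nat_lit 175, nat_lit 10]⟩,
 ⟨nat_lit 4183, nat_lit 4473, ⟨.ofNat (nat_lit 611104), .ofNat (nat_lit 869424), .ofNat (nat_lit 632666), .ofNat (nat_lit 890987), .ofNat (nat_lit 609582), .ofNat (nat_lit 861356), .ofNat (nat_lit 631244), .ofNat (nat_lit 883019)⟩, ⟨.ofNat (nat_lit 0), .ofNat (nat_lit 0), .ofNat (nat_lit 0), .ofNat (nat_lit 0), .ofNat (nat_lit 0), .ofNat (nat_lit 0), .ofNat (nat_lit 0), .ofNat (nat_lit 0)⟩⟩, []⟩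
noncomputable def p018_l198 : Lf2 := ⟨nat_lit 0, nat_lit 10, [nat_lit 0, nat_lit 5, nat_lit 5, nat_lit 20], false, nat_lit 0, nat_lit 0, nat_lit 0, nat_lit 0, ⟨nat_lit 309, nat_lit 691, nat_lit 0, nat_lit 6, nat_lit 295, nat_lit 0, nat_lit 0, nat_lit 0, nat_lit 0, nat_lit 0, nat_lit 0, nat_lit 0, nat_lit 43400258, nat_lit 23599742, nat_lit 0, nat_lit 3244095, true, true⟩,
 nat_lit 5169, nat_lit 0, nat_lit 0, nat_lit 0, nat_lit 4029, nat_lit 2736, nat_lit 295, nat_lit 0, nat_lit 0, nat_lit 219, nat_lit 0, nat_lit 0, nat_lit 0, nat_lit 0, nat_lit 0, nat_lit 283000, nat_lit 0, nat_lit 0, [(nat_lit 18, [(nat_lit 1, nat_lit 680), (nat_lit 2, nat_lit 11)])],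
 ⟨p018_k6, nat_lit 0, nat_lit 0, nat_lit 399, nat_lit 0, nat_lit 669655, [nat_lit 1597339201, nat_lit 2797424000, nat_lit 3259718800], [], [nat_lit 27551541067, nat_lit 27943947491, nat_lit 32222477557, nat_lit 32529332480], nat_lit 1271250, nat_lit 1271250, nat_lit 1271250, nat_lit 1271250, nat_lit 0, nat_lit 0, [nat_lit 490000, nat_lit 1100000, nat_lit 1442500], [nat_lit 6, nat_lit 40, nat_lit 80, nat_lit 80, nat_lit 3, nat_lit 203, nat_lit 0, nat_lit 7]⟩, ⟨p018_k26, nat_lit 0, nat_lit 0, nat_lit 720, nat_lit 0, nat_lit 1023126, [nat_lit 1448592000, nat_lit 2462112000, nat_lit 3668448000], [], [nat_lit 12137417616, nat_lit 12184615542, nat_lit 12923907123, nat_lit 12948376036], nat_lit 1271250, nat_lit 1271250, nat_lit 1271250, nat_lit 1271250, nat_lit 0, nat_lit 0, [nat_lit 1100000, nat_lit 1785000, nat_lit 1271250], [nat_lit 21, nat_lit 40, nat_lit 80, nat_lit 80, nat_lit 14, nat_lit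 401, nat_lit 175, nat_lit 10]⟩,
 ⟨nat_lit 3872, nat_lit 4184, ⟨.ofNat (nat_lit 609582), .ofNat (nat_lit 848108), .ofNat (nat_lit 631244), .ofNat (nat_lit 869774), .ofNat (nat_lit 608101), .ofNat (nat_lit 840384), .ofNat (nat_lit 629889), .ofNat (nat_lit 862177)⟩, ⟨.ofNat (nat_lit 0), .ofNat (nat_lit 0), .ofNat (nat_lit 0), .ofNat (nat_lit 0), .ofNat (nat_lit 0), .ofNat (nat_lit 0), .ofNat (nat_lit 0), .ofNat (nat_lit 0)⟩⟩, []⟩
noncomputable def p018_l199 : Lf2 := ⟨nat_lit 0, nat_lit 10, [nat_lit 0, nat_lit 5, nat_lit 5, nat_lit 20], false, nat_lit 0, nat_lit 0, nat_lit 0, nat_lit 0, ⟨nat_lit 1000, nat_lit 0, nat_lit 0, nat_lit 0, nat_lit 0, nat_lit 0, nat_lit 0, nat_lit 0, nat_lit 0, nat_lit 0, nat_lit 0, nat_lit 0, nat_lit 0, nat_lit 0, nat_lit 0, nat_lit 0, false, false⟩,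
 nat_lit 11434, nat_lit 0, nat_lit 0, nat_lit 0, nat_lit 7198, nat_lit 6655, nat_lit 0, nat_lit 0, nat_lit 0, nat_lit 1809, nat_lit 0, nat_lit 0, nat_lit 0, nat_lit 0, nat_lit 0, nat_lit 0, nat_lit 0, nat_lit 0, [],
 ⟨p018_k0, nat_lit 0, nat_lit 0, nat_lit 425, nat_lit 0, nat_lit 741936, [nat_lit 2032000001, nat_lit 4688000000, nat_lit 6250000000], [], [nat_lit 31662295160, nat_lit 32566682612, nat_lit 40987532680, nat_lit 42513006258], nat_lit 1271250, nat_lit 1271250, nat_lit 1271250, nat_lit 1271250, nat_lit 0, nat_lit 0, [nat_lit 490000, nat_lit 1100000, nat_lit 1442500], [nat_lit 6, nat_lit 40, nat_lit 80, nat_lit 80, nat_lit 3, nat_lit 203, nat_lit 0, nat_lit 7]⟩, ⟨p018_k29, nat_lit 0, nat_lit 0, nat_lit 633, nat_lit 0, nat_lit 978648, [nat_lit 4688000000, nat_lit 7968000000, nat_lit 9842000000], [], [nat_lit 33243899640, nat_lit 33595215840, nat_lit 36809814577, nat_lit 36980420893],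 nat_lit 1271250, nat_lit 1271250, nat_lit 1271250, nat_lit 1271250, nat_lit 0, nat_lit 0, [nat_lit 1100000, nat_lit 1785000, nat_lit 1271250], [nat_lit 29, nat_lit 40, nat_lit 80, nat_lit 80, nat_lit 17, nat_lit 401, nat_lit 175, nat_lit 11]⟩,
 zbF0, []⟩
noncomputable def p018_l200 : Lf2 := ⟨nat_lit 0, nat_lit 10, [nat_lit 0, nat_lit 5, nat_lit 5, nat_lit 20], false, nat_lit 0, nat_lit 0, nat_lit 0, nat_lit 0, ⟨nat_lit 262, nat_lit 738, nat_lit 0, nat_lit 6, nat_lit 291, nat_lit 0, nat_lit 0, nat_lit 0, nat_lit 0, nat_lit 0, nat_lit 0, nat_lit 0, nat_lit 43814555, nat_lit 23185445, nat_lit 0, nat_lit 3224839, true, true⟩,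
 nat_lit 4361, nat_lit 0, nat_lit 0, nat_lit 0, nat_lit 3530, nat_lit 2308, nat_lit 196, nat_lit 0, nat_lit 0, nat_lit 170, nat_lit 0, nat_lit 0, nat_lit 0, nat_lit 0, nat_lit 0, nat_lit 295200, nat_lit 0, nat_lit 0, [(nat_lit 21, [(nat_lit 1, nat_lit 738)])],
 ⟨p018_k7, nat_lit 0, nat_lit 0, nat_lit 420, nat_lit 0, nat_lit 727150, [nat_lit 1532521600, nat_lit 2329942400, nat_lit 2738596000], [], [nat_lit 26787880920, nat_lit 27636349080, nat_lit 31385569535, nat_lit 32024954960], nat_lit 1271250, nat_lit 1271250, nat_lit 1271250, nat_lit 1271250, nat_lit 0, nat_lit 0, [nat_lit 490000, nat_lit 1100000, nat_lit 1442500], [nat_lit 6, nat_lit 40, nat_lit 80, nat_lit 80, nat_lit 3, nat_lit 203, nat_lit 0, nat_lit 7]⟩, ⟨p018_k26, nat_lit 0, nat_lit 0, nat_lit 790, nat_lit 0, nat_lit 1157047, [nat_lit 1228256000, nat_lit 2087616000, nat_lit 3110464000], [], [nat_lit 10445729808, nat_lit 10486021236,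 nat_lit 11003371198, nat_lit 11001583927], nat_lit 1271250, nat_lit 1271250, nat_lit 1271250, nat_lit 1271250, nat_lit 0, nat_lit 0, [nat_lit 1100000, nat_lit 1785000, nat_lit 1271250], [nat_lit 21, nat_lit 40, nat_lit 80, nat_lit 80, nat_lit 14, nat_lit 401, nat_lit 175, nat_lit 10]⟩,
 ⟨nat_lit 3162, nat_lit 3873, ⟨.ofNat (nat_lit 608082), .ofNat (nat_lit 833932), .ofNat (nat_lit 629847), .ofNat (nat_lit 855725), .ofNat (nat_lit 605237), .ofNat (nat_lit 818598), .ofNat (nat_lit 627364), .ofNat (nat_lit 840753)⟩, ⟨.ofNat (nat_lit 0), .ofNat (nat_lit 0), .ofNat (nat_lit 0), .ofNat (nat_lit 0), .ofNat (nat_lit 0), .ofNat (nat_lit 0), .ofNat (nat_lit 0), .ofNat (nat_lit 0)⟩⟩, [⟨nat_lit 13, nat_lit 68, nat_lit 58, nat_lit 100, nat_lit 34027125⟩]⟩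
noncomputable def p018_l201 : Lf2 := ⟨nat_lit 0, nat_lit 10, [nat_lit 0, nat_lit 5, nat_lit 5, nat_lit 20], false, nat_lit 0, nat_lit 0, nat_lit 0, nat_lit 0, ⟨nat_lit 1000, nat_lit 0, nat_lit 0, nat_lit 0, nat_lit 0, nat_lit 0, nat_lit 0, nat_lit 0, nat_lit 0, nat_lit 0, nat_lit 0, nat_lit 0, nat_lit 0, nat_lit 0, nat_lit 0, nat_lit 0, false, false⟩,
 nat_lit 12025, nat_lit 0, nat_lit 0, nat_lit 0, nat_lit 5145, nat_lit 6999, nat_lit 483, nat_lit 0, nat_lit 0, nat_lit 1451, nat_lit 0, nat_lit 0, nat_lit 0, nat_lit 0, nat_lit 0, nat_lit 0, nat_lit 0, nat_lit 0, [],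
 ⟨p018_k7, nat_lit 0, nat_lit 0, nat_lit 432, nat_lit 0, nat_lit 761710, [nat_lit 2032000001, nat_lit 4688000000, nat_lit 6250000000], [], [nat_lit 27101400716, nat_lit 28030885186, nat_lit 35949394662, nat_lit 37266622964], nat_lit 1271250, nat_lit 1271250, nat_lit 1271250, nat_lit 1271250, nat_lit 0, nat_lit 0, [nat_lit 490000, nat_lit 1100000, nat_lit 1442500], [nat_lit 6, nat_lit 40, nat_lit 80, nat_lit 80, nat_lit 3, nat_lit 203, nat_lit 0, nat_lit 7]⟩, ⟨p018_k29, nat_lit 0, nat_lit 0, nat_lit 679, nat_lit 0, nat_lit 1090941, [nat_lit 4688000000, nat_lit 7968000000, nat_lit 9842000000], [], [nat_lit 33390380130, nat_lit 33730219080, nat_lit 36752896115, nat_lit 36924423161], nat_lit 1271250, nat_lit 1271250, nat_lit 1271250, nat_lit 1271250, nat_lit 0, nat_lit 0, [nat_lit 1100000, nat_lit 1785000, nat_lit 1271250], [nat_lit 29, nat_lit 40, nat_lit 80, nat_lit 80, nat_lit 17, nat_lit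 401, nat_lit 175, nat_lit 11]⟩,
 zbF0, []⟩
noncomputable def p018_l202 : Lf2 := ⟨nat_lit 0, nat_lit 10, [nat_lit 0, nat_lit 5, nat_lit 5, nat_lit 20], true, nat_lit 0, nat_lit 0, nat_lit 0, nat_lit 0, ⟨nat_lit 0, nat_lit 1000, nat_lit 0, nat_lit 6, nat_lit 149, nat_lit 0, nat_lit 0, nat_lit 0, nat_lit 0, nat_lit 0, nat_lit 0, nat_lit 0, nat_lit 0, nat_lit 0, nat_lit 0, nat_lit 5000000, false, false⟩,
 nat_lit 0, nat_lit 6247, nat_lit 0, nat_lit 0, nat_lit 4685, nat_lit 0, nat_lit 0, nat_lit 0, nat_lit 0, nat_lit 0, nat_lit 0, nat_lit 0, nat_lit 0, nat_lit 0, nat_lit 0, nat_lit 848800, nat_lit 0, nat_lit 0, [(nat_lit 18, [(nat_lit 1, nat_lit 252), (nat_lit 2, nat_lit 748)])],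
 ⟨p018_k0, nat_lit 0, nat_lit 0, nat_lit 661, nat_lit 0, nat_lit 1228781, [nat_lit 1625325867, nat_lit 1277509334, nat_lit 162608000], [], [nat_lit 20360457694, nat_lit 21086917339, nat_lit 20432252748, nat_lit 20835114453], nat_lit 1271250, nat_lit 1271250, nat_lit 382400, nat_lit 780000, nat_lit 0, nat_lit 0, [nat_lit 490000, nat_lit 1100000, nat_lit 1442500], [nat_lit 6, nat_lit 40, nat_lit 80, nat_lit 80, nat_lit 3, nat_lit 238, nat_lit 30, nat_lit 9]⟩, C1.Rw.none,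
 ⟨nat_lit 4183, nat_lit 4473, ⟨.ofNat (nat_lit 311996), .ofNat (nat_lit 407167), .ofNat (nat_lit 333558), .ofNat (nat_lit 428729), .ofNat (nat_lit 318053), .ofNat (nat_lit 410812), .ofNat (nat_lit 339715), .ofNat (nat_lit 432475)⟩, ⟨.ofNat (nat_lit 0), .ofNat (nat_lit 0), .ofNat (nat_lit 0), .ofNat (nat_lit 0), .ofNat (nat_lit 0), .ofNat (nat_lit 0), .ofNat (nat_lit 0), .ofNat (nat_lit 0)⟩⟩, []⟩
noncomputable def p018_l203 : Lf2 := ⟨nat_lit 0, nat_lit 5, [nat_lit 4, nat_lit 5, nat_lit 5, nat_lit 20], false, nat_lit 0, nat_lit 0, nat_lit 0, nat_lit 0, ⟨nat_lit 521, nat_lit 479, nat_lit 0, nat_lit 6, nat_lit 163, nat_lit 0, nat_lit 0, nat_lit 0, nat_lit 0, nat_lit 0, nat_lit 0, nat_lit 0, nat_lit 0, nat_lit 0, nat_lit 0, nat_lit 5000000, false, false⟩,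
 nat_lit 0, nat_lit 8372, nat_lit 0, nat_lit 0, nat_lit 6278, nat_lit 3866, nat_lit 125, nat_lit 0, nat_lit 0, nat_lit 2537, nat_lit 0, nat_lit 0, nat_lit 0, nat_lit 0, nat_lit 0, nat_lit 479000, nat_lit 0, nat_lit 0, [(nat_lit 18, [(nat_lit 2, nat_lit 479)])],
 ⟨p018_k17, nat_lit 0, nat_lit 0, nat_lit 692, nat_lit 0, nat_lit 1316768, [nat_lit 1873866134, nat_lit 2943162667, nat_lit 3043957200], [], [nat_lit 22603213233, nat_lit 22978450715, nat_lit 22514719425, nat_lit 22870151338], nat_lit 1271250, nat_lit 1271250, nat_lit 490000, nat_lit 780000, nat_lit 0, nat_lit 0, [nat_lit 490000, nat_lit 1100000, nat_lit 1442500], [nat_lit 6, nat_lit 40, nat_lit 80, nat_lit 80, nat_lit 3, nat_lit 238, nat_lit 30, nat_lit 9]⟩, ⟨p018_k28, nat_lit 0, nat_lit 0, nat_lit 125, nat_lit 0, nat_lit 0, [nat_lit 2442448000, nat_lit 4151328000], [], [nat_lit 7460255650, nat_lit 8725635120, nat_lit 7733239212,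 nat_lit 8737435904], nat_lit 0, nat_lit 0, nat_lit 0, nat_lit 0, nat_lit 0, nat_lit 0, [], [nat_lit 39, nat_lit 40, nat_lit 80, nat_lit 80, nat_lit 7, nat_lit 238, nat_lit 30, nat_lit 8]⟩,
 ⟨nat_lit 4183, nat_lit 4473, ⟨.ofNat (nat_lit 360749), .ofNat (nat_lit 428729), .ofNat (nat_lit 382312), .ofNat (nat_lit 450291), .ofNat (nat_lit 366218), .ofNat (nat_lit 432475), .ofNat (nat_lit 387880), .ofNat (nat_lit 454137)⟩, ⟨.ofNat (nat_lit 0), .ofNat (nat_lit 0), .ofNat (nat_lit 0), .ofNat (nat_lit 0), .ofNat (nat_lit 0), .ofNat (nat_lit 0), .ofNat (nat_lit 0), .ofNat (nat_lit 0)⟩⟩, [⟨nat_lit 0, nat_lit 100, nat_lit 83, nat_lit 98, nat_lit 356634618⟩]⟩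
noncomputable def p018_l204 : Lf2 := ⟨nat_lit 0, nat_lit 10, [nat_lit 0, nat_lit 5, nat_lit 5, nat_lit 20], true, nat_lit 0, nat_lit 0, nat_lit 0, nat_lit 0, ⟨nat_lit 0, nat_lit 1000, nat_lit 0, nat_lit 6, nat_lit 163, nat_lit 0, nat_lit 0, nat_lit 0, nat_lit 0, nat_lit 0, nat_lit 0, nat_lit 0, nat_lit 0, nat_lit 0, nat_lit 0, nat_lit 5000000, false, false⟩,
 nat_lit 0, nat_lit 6215, nat_lit 0, nat_lit 0, nat_lit 4661, nat_lit 0, nat_lit 0, nat_lit 0, nat_lit 0, nat_lit 0, nat_lit 0, nat_lit 0, nat_lit 0, nat_lit 0, nat_lit 0, nat_lit 804400, nat_lit 0, nat_lit 0, [(nat_lit 18, [(nat_lit 1, nat_lit 326), (nat_lit 2, nat_lit 674)])],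
 ⟨p018_k0, nat_lit 0, nat_lit 0, nat_lit 586, nat_lit 0, nat_lit 1087690, [nat_lit 1602849601, nat_lit 1345688001, nat_lit 340504000], [], [nat_lit 19560039212, nat_lit 20013721612, nat_lit 19730552574, nat_lit 20109050335], nat_lit 1271250, nat_lit 1271250, nat_lit 490000, nat_lit 780000, nat_lit 0, nat_lit 0, [nat_lit 490000, nat_lit 1100000, nat_lit 1442500], [nat_lit 6, nat_lit 40, nat_lit 80, nat_lit 80, nat_lit 3, nat_lit 238, nat_lit 30, nat_lit 9]⟩, C1.Rw.none,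
 ⟨nat_lit 4183, nat_lit 4473, ⟨.ofNat (nat_lit 360749), .ofNat (nat_lit 428729), .ofNat (nat_lit 382312), .ofNat (nat_lit 450291), .ofNat (nat_lit 366218), .ofNat (nat_lit 432475), .ofNat (nat_lit 387880), .ofNat (nat_lit 454137)⟩, ⟨.ofNat (nat_lit 0), .ofNat (nat_lit 0), .ofNat (nat_lit 0), .ofNat (nat_lit 0), .ofNat (nat_lit 0), .ofNat (nat_lit 0), .ofNat (nat_lit 0), .ofNat (nat_lit 0)⟩⟩, []⟩
noncomputable def p018_l205 : Lf2 := ⟨nat_lit 0, nat_lit 10, [nat_lit 0, nat_lit 5, nat_lit 5, nat_lit 20], false, nat_lit 0, nat_lit 0, nat_lit 0, nat_lit 0, ⟨nat_lit 809, nat_lit 191, nat_lit 0, nat_lit 6, nat_lit 159, nat_lit 0, nat_lit 0, nat_lit 0, nat_lit 0, nat_lit 0, nat_lit 0, nat_lit 0, nat_lit 0, nat_lit 0, nat_lit 0, nat_lit 5000000, false, false⟩,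
 nat_lit 0, nat_lit 7498, nat_lit 0, nat_lit 0, nat_lit 5844, nat_lit 6213, nat_lit 913, nat_lit 0, nat_lit 0, nat_lit 1368, nat_lit 0, nat_lit 0, nat_lit 0, nat_lit 0, nat_lit 0, nat_lit 76400, nat_lit 0, nat_lit 0, [(nat_lit 18, [(nat_lit 1, nat_lit 191)])],
 ⟨p018_k6, nat_lit 0, nat_lit 0, nat_lit 723, nat_lit 0, nat_lit 1371586, [nat_lit 1910931467, nat_lit 4168225334, nat_lit 5430762800], [], [nat_lit 23579301671, nat_lit 24014846268, nat_lit 23594984499, nat_lit 24006553637], nat_lit 1271250, nat_lit 1271250, nat_lit 462650, nat_lit 780000, nat_lit 0, nat_lit 0, [nat_lit 490000, nat_lit 1100000, nat_lit 1442500], [nat_lit 6, nat_lit 40, nat_lit 80, nat_lit 80, nat_lit 3, nat_lit 239, nat_lit 30, nat_lit 9]⟩, ⟨p018_k26, nat_lit 0, nat_lit 0, nat_lit 239, nat_lit 0, nat_lit 0, [nat_lit 3792592000, nat_lit 6446112000, nat_lit 9604448000], [], [nat_lit 17281009321, nat_lit 19797001136,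 nat_lit 16834450522, nat_lit 19207393652], nat_lit 0, nat_lit 0, nat_lit 0, nat_lit 0, nat_lit 0, nat_lit 0, [], [nat_lit 21, nat_lit 40, nat_lit 80, nat_lit 80, nat_lit 14, nat_lit 317, nat_lit 100, nat_lit 8]⟩,
 ⟨nat_lit 3872, nat_lit 4184, ⟨.ofNat (nat_lit 337921), .ofNat (nat_lit 410806), .ofNat (nat_lit 381245), .ofNat (nat_lit 454130), .ofNat (nat_lit 343550), .ofNat (nat_lit 414527), .ofNat (nat_lit 387127), .ofNat (nat_lit 458104)⟩, ⟨.ofNat (nat_lit 0), .ofNat (nat_lit 0), .ofNat (nat_lit 0), .ofNat (nat_lit 0), .ofNat (nat_lit 0), .ofNat (nat_lit 0), .ofNat (nat_lit 0), .ofNat (nat_lit 0)⟩⟩, [⟨nat_lit 0, nat_lit 100, nat_lit 77, nat_lit 91, nat_lit 680872789⟩]⟩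
noncomputable def p018_l206 : Lf2 := ⟨nat_lit 0, nat_lit 10, [nat_lit 0, nat_lit 5, nat_lit 5, nat_lit 20], false, nat_lit 0, nat_lit 0, nat_lit 0, nat_lit 0, ⟨nat_lit 250, nat_lit 750, nat_lit 0, nat_lit 6, nat_lit 208, nat_lit 0, nat_lit 0, nat_lit 0, nat_lit 0, nat_lit 0, nat_lit 0, nat_lit 0, nat_lit 0, nat_lit 0, nat_lit 0, nat_lit 5000000, false, false⟩,
 nat_lit 0, nat_lit 6641, nat_lit 0, nat_lit 0, nat_lit 4980, nat_lit 3412, nat_lit 0, nat_lit 0, nat_lit 0, nat_lit 587, nat_lit 0, nat_lit 0, nat_lit 0, nat_lit 0, nat_lit 0, nat_lit 750000, nat_lit 0, nat_lit 0, [(nat_lit 18, [(nat_lit 2, nat_lit 750)])],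
 ⟨p018_k0, nat_lit 0, nat_lit 0, nat_lit 670, nat_lit 0, nat_lit 1311405, [nat_lit 1784400001, nat_lit 1956000001, nat_lit 1230100000], [], [nat_lit 23069316089, nat_lit 23721812749, nat_lit 24245359371, nat_lit 24955459291], nat_lit 1271250, nat_lit 1271250, nat_lit 780000, nat_lit 1762500, nat_lit 0, nat_lit 0, [nat_lit 490000, nat_lit 1100000, nat_lit 1442500], [nat_lit 6, nat_lit 40, nat_lit 80, nat_lit 80, nat_lit 3, nat_lit 272, nat_lit 60, nat_lit 10]⟩, ⟨p018_k26, nat_lit 0, nat_lit 0, nat_lit 208, nat_lit 0, nat_lit 0, [nat_lit 1172000000, nat_lit 1992000000, nat_lit 2968000000], [], [nat_lit 4590786624, nat_lit 5117216454, nat_lit 5688438720, nat_lit 6232210048], nat_lit 0, nat_lit 0, nat_lit 0, nat_lit 0, nat_lit 0, nat_lit 0, [], [nat_lit 21, nat_lit 40, nat_lit 80, nat_lit 80, nat_lit 14, nat_lit 345, nat_lit 125, nat_lit 9]⟩,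
 ⟨nat_lit 3872, nat_lit 4473, ⟨.ofNat (nat_lit 407125), .ofNat (nat_lit 611083), .ofNat (nat_lit 428674), .ofNat (nat_lit 632632), .ofNat (nat_lit 414492), .ofNat (nat_lit 608080), .ofNat (nat_lit 436268), .ofNat (nat_lit 629856)⟩, ⟨.ofNat (nat_lit 0), .ofNat (nat_lit 0), .ofNat (nat_lit 0), .ofNat (nat_lit 0), .ofNat (nat_lit 0), .ofNat (nat_lit 0), .ofNat (nat_lit 0), .ofNat (nat_lit 0)⟩⟩, []⟩
noncomputable def p018_l207 : Lf2 := ⟨nat_lit 0, nat_lit 10, [nat_lit 0, nat_lit 5, nat_lit 5, nat_lit 20], false, nat_lit 0, nat_lit 0, nat_lit 0, nat_lit 0, ⟨nat_lit 1000, nat_lit 0, nat_lit 0, nat_lit 0, nat_lit 0, nat_lit 0, nat_lit 0, nat_lit 0, nat_lit 0, nat_lit 0, nat_lit 0, nat_lit 0, nat_lit 0, nat_lit 0, nat_lit 0, nat_lit 0, false, false⟩,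
 nat_lit 0, nat_lit 8444, nat_lit 0, nat_lit 0, nat_lit 6332, nat_lit 5965, nat_lit 433, nat_lit 0, nat_lit 0, nat_lit 1260, nat_lit 0, nat_lit 0, nat_lit 0, nat_lit 0, nat_lit 0, nat_lit 0, nat_lit 0, nat_lit 0, [],
 ⟨p018_k0, nat_lit 0, nat_lit 0, nat_lit 640, nat_lit 0, nat_lit 1311405, [nat_lit 2032000001, nat_lit 4688000000, nat_lit 6250000000], [], [nat_lit 35396778242, nat_lit 35977930586, nat_lit 39198621380, nat_lit 39657858699], nat_lit 1271250, nat_lit 1271250, nat_lit 1271250, nat_lit 1271250, nat_lit 0, nat_lit 0, [nat_lit 490000, nat_lit 1100000, nat_lit 1442500], [nat_lit 6, nat_lit 40, nat_lit 80, nat_lit 80, nat_lit 3, nat_lit 252, nat_lit 0, nat_lit 9]⟩, ⟨p018_k26, nat_lit 0, nat_lit 0, nat_lit 248, nat_lit 0, nat_lit 0, [nat_lit 4688000000, nat_lit 7968000000, nat_lit 11872000000], [], [nat_lit 26696857540, nat_lit 27560250840, nat_lit 36445043928, nat_lit 37182501683],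 nat_lit 0, nat_lit 0, nat_lit 0, nat_lit 0, nat_lit 0, nat_lit 0, [], [nat_lit 21, nat_lit 40, nat_lit 80, nat_lit 80, nat_lit 14, nat_lit 401, nat_lit 175, nat_lit 10]⟩,
 zbF0, []⟩
noncomputable def p018_l208 : Lf2 := ⟨nat_lit 0, nat_lit 10, [nat_lit 0, nat_lit 5, nat_lit 5, nat_lit 20], false, nat_lit 0, nat_lit 0, nat_lit 0, nat_lit 0, ⟨nat_lit 504, nat_lit 496, nat_lit 0, nat_lit 6, nat_lit 217, nat_lit 0, nat_lit 0, nat_lit 0, nat_lit 0, nat_lit 0, nat_lit 0, nat_lit 0, nat_lit 0, nat_lit 0, nat_lit 0, nat_lit 5000000, false, false⟩,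
 nat_lit 0, nat_lit 8397, nat_lit 0, nat_lit 0, nat_lit 6297, nat_lit 3786, nat_lit 110, nat_lit 0, nat_lit 0, nat_lit 2162, nat_lit 0, nat_lit 0, nat_lit 0, nat_lit 0, nat_lit 0, nat_lit 496000, nat_lit 0, nat_lit 0, [(nat_lit 18, [(nat_lit 2, nat_lit 496)])],
 ⟨p018_k0, nat_lit 0, nat_lit 0, nat_lit 674, nat_lit 0, nat_lit 1325226, [nat_lit 1868253867, nat_lit 2881237334, nat_lit 2930172800], [], [nat_lit 21958130284, nat_lit 22136059834, nat_lit 24851014560, nat_lit 25442217925], nat_lit 1271250, nat_lit 1271250, nat_lit 780000, nat_lit 1762500, nat_lit 0, nat_lit 0, [nat_lit 490000, nat_lit 1100000, nat_lit 1442500], [nat_lit 6, nat_lit 40, nat_lit 80, nat_lit 80, nat_lit 3, nat_lit 272, nat_lit 60, nat_lit 10]⟩, ⟨p018_k29, nat_lit 0, nat_lit 0, nat_lit 165, nat_lit 0, nat_lit 0, [nat_lit 2362752000, nat_lit 4015872000, nat_lit 4960368000], [], [nat_lit 7682757954, nat_lit 8490510936,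 nat_lit 9901225812, nat_lit 10973068296], nat_lit 0, nat_lit 0, nat_lit 0, nat_lit 0, nat_lit 0, nat_lit 0, [], [nat_lit 29, nat_lit 40, nat_lit 80, nat_lit 80, nat_lit 17, nat_lit 373, nat_lit 150, nat_lit 11]⟩,
 ⟨nat_lit 4330, nat_lit 4473, ⟨.ofNat (nat_lit 428739), .ofNat (nat_lit 632674), .ofNat (nat_lit 450305), .ofNat (nat_lit 654240), .ofNat (nat_lit 430602), .ofNat (nat_lit 631955), .ofNat (nat_lit 452215), .ofNat (nat_lit 653568)⟩, ⟨.ofNat (nat_lit 0), .ofNat (nat_lit 0), .ofNat (nat_lit 0), .ofNat (nat_lit 0), .ofNat (nat_lit 0), .ofNat (nat_lit 0), .ofNat (nat_lit 0), .ofNat (nat_lit 0)⟩⟩, []⟩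
noncomputable def p018_l209 : Lf2 := ⟨nat_lit 0, nat_lit 10, [nat_lit 0, nat_lit 5, nat_lit 5, nat_lit 20], false, nat_lit 0, nat_lit 0, nat_lit 0, nat_lit 0, ⟨nat_lit 762, nat_lit 238, nat_lit 0, nat_lit 6, nat_lit 217, nat_lit 0, nat_lit 0, nat_lit 0, nat_lit 0, nat_lit 0, nat_lit 0, nat_lit 0, nat_lit 0, nat_lit 0, nat_lit 0, nat_lit 5000000, false, false⟩,
 nat_lit 0, nat_lit 8431, nat_lit 0, nat_lit 0, nat_lit 6447, nat_lit 5855, nat_lit 1229, nat_lit 0, nat_lit 0, nat_lit 1237, nat_lit 0, nat_lit 0, nat_lit 0, nat_lit 0, nat_lit 0, nat_lit 238000, nat_lit 0, nat_lit 0, [(nat_lit 18, [(nat_lit 2, nat_lit 238)])],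
 ⟨p018_k10, nat_lit 0, nat_lit 0, nat_lit 676, nat_lit 0, nat_lit 1329336, [nat_lit 1953428267, nat_lit 3821045334, nat_lit 4657018400], [], [nat_lit 22841630297, nat_lit 23022735658, nat_lit 25672949200, nat_lit 26273411839], nat_lit 1271250, nat_lit 1271250, nat_lit 780000, nat_lit 1762500, nat_lit 0, nat_lit 0, [nat_lit 490000, nat_lit 1100000, nat_lit 1442500], [nat_lit 6, nat_lit 40, nat_lit 80, nat_lit 80, nat_lit 3, nat_lit 272, nat_lit 60, nat_lit 10]⟩, ⟨p018_k29, nat_lit 0, nat_lit 0, nat_lit 165, nat_lit 0, nat_lit 0, [nat_lit 3572256000, nat_lit 6071616000, nat_lit 7499604000], [], [nat_lit 14808286885, nat_lit 16047065124, nat_lit 17588931538, nat_lit 18735540992], nat_lit 0, nat_lit 0, nat_lit 0, nat_lit 0, nat_lit 0, nat_lit 0, [], [nat_lit 29, nat_lit 40, nat_lit 80, nat_lit 80, nat_lit 17, nat_lit 373, nat_lit 150, nat_lit 11]⟩,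
 ⟨nat_lit 4183, nat_lit 4331, ⟨.ofNat (nat_lit 430601), .ofNat (nat_lit 631955), .ofNat (nat_lit 452214), .ofNat (nat_lit 653568), .ofNat (nat_lit 432485), .ofNat (nat_lit 631252), .ofNat (nat_lit 454150), .ofNat (nat_lit 652918)⟩, ⟨.ofNat (nat_lit 0), .ofNat (nat_lit 0), .ofNat (nat_lit 0), .ofNat (nat_lit 0), .ofNat (nat_lit 0), .ofNat (nat_lit 0), .ofNat (nat_lit 0), .ofNat (nat_lit 0)⟩⟩, []⟩
noncomputable def p018_l210 : Lf2 := ⟨nat_lit 0, nat_lit 10, [nat_lit 0, nat_lit 5, nat_lit 5, nat_lit 20], false, nat_lit 0, nat_lit 0, nat_lit 0, nat_lit 0, ⟨nat_lit 1000, nat_lit 0, nat_lit 0, nat_lit 0, nat_lit 0, nat_lit 0, nat_lit 0, nat_lit 0, nat_lit 0, nat_lit 0, nat_lit 0, nat_lit 0, nat_lit 0, nat_lit 0, nat_lit 0, nat_lit 0, false, false⟩,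
 nat_lit 0, nat_lit 8483, nat_lit 0, nat_lit 0, nat_lit 6362, nat_lit 5782, nat_lit 433, nat_lit 0, nat_lit 0, nat_lit 2253, nat_lit 0, nat_lit 0, nat_lit 0, nat_lit 0, nat_lit 0, nat_lit 0, nat_lit 0, nat_lit 0, [],
 ⟨p018_k0, nat_lit 0, nat_lit 0, nat_lit 660, nat_lit 0, nat_lit 1364134, [nat_lit 2032000001, nat_lit 4688000000, nat_lit 6250000000], [], [nat_lit 35211452610, nat_lit 35504452582, nat_lit 39168303950, nat_lit 39395165581], nat_lit 1271250, nat_lit 1271250, nat_lit 1271250, nat_lit 1271250, nat_lit 0, nat_lit 0, [nat_lit 490000, nat_lit 1100000, nat_lit 1442500], [nat_lit 6, nat_lit 40, nat_lit 80, nat_lit 80, nat_lit 3, nat_lit 256, nat_lit 0, nat_lit 9]⟩, ⟨p018_k29, nat_lit 0, nat_lit 0, nat_lit 224, nat_lit 0, nat_lit 0, [nat_lit 4688000000, nat_lit 7968000000, nat_lit 9842000000], [], [nat_lit 24056805512, nat_lit 25145369664, nat_lit 33782466786, nat_lit 34732784327],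 nat_lit 0, nat_lit 0, nat_lit 0, nat_lit 0, nat_lit 0, nat_lit 0, [], [nat_lit 29, nat_lit 40, nat_lit 80, nat_lit 80, nat_lit 17, nat_lit 401, nat_lit 175, nat_lit 11]⟩,
 zbF0, []⟩
noncomputable def p018_l211 : Lf2 := ⟨nat_lit 0, nat_lit 10, [nat_lit 0, nat_lit 5, nat_lit 5, nat_lit 20], false, nat_lit 0, nat_lit 0, nat_lit 0, nat_lit 0, ⟨nat_lit 1000, nat_lit 0, nat_lit 0, nat_lit 0, nat_lit 0, nat_lit 0, nat_lit 0, nat_lit 0, nat_lit 0, nat_lit 0, nat_lit 0, nat_lit 0, nat_lit 0, nat_lit 0, nat_lit 0, nat_lit 0, false, false⟩,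
 nat_lit 0, nat_lit 7261, nat_lit 0, nat_lit 0, nat_lit 5659, nat_lit 7174, nat_lit 1316, nat_lit 0, nat_lit 0, nat_lit 907, nat_lit 0, nat_lit 0, nat_lit 0, nat_lit 0, nat_lit 0, nat_lit 0, nat_lit 0, nat_lit 0, [],
 ⟨p018_k6, nat_lit 0, nat_lit 0, nat_lit 705, nat_lit 0, nat_lit 1371586, [nat_lit 2032000001, nat_lit 4688000000, nat_lit 6250000000], [], [nat_lit 25656409154, nat_lit 26062152734, nat_lit 37056313381, nat_lit 37736685086], nat_lit 1271250, nat_lit 1271250, nat_lit 780000, nat_lit 3007000, nat_lit 0, nat_lit 0, [nat_lit 490000, nat_lit 1100000, nat_lit 1442500], [nat_lit 6, nat_lit 40, nat_lit 80, nat_lit 80, nat_lit 3, nat_lit 317, nat_lit 100, nat_lit 12]⟩, ⟨p018_k29, nat_lit 0, nat_lit 0, nat_lit 222, nat_lit 0, nat_lit 0, [nat_lit 4688000000, nat_lit 7968000000, nat_lit 9842000000], [], [nat_lit 23092469990, nat_lit 24473188480, nat_lit 37154617821, nat_lit 37835042245],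 nat_lit 0, nat_lit 0, nat_lit 0, nat_lit 0, nat_lit 0, nat_lit 0, [], [nat_lit 29, nat_lit 40, nat_lit 80, nat_lit 80, nat_lit 17, nat_lit 401, nat_lit 175, nat_lit 12]⟩,
 zbF0, []⟩
noncomputable def p018_l212 : Lf2 := ⟨nat_lit 0, nat_lit 10, [nat_lit 0, nat_lit 5, nat_lit 5, nat_lit 20], false, nat_lit 0, nat_lit 0, nat_lit 0, nat_lit 0, ⟨nat_lit 1000, nat_lit 0, nat_lit 0, nat_lit 0, nat_lit 0, nat_lit 0, nat_lit 0, nat_lit 0, nat_lit 0, nat_lit 0, nat_lit 0, nat_lit 0, nat_lit 0, nat_lit 0, nat_lit 0, nat_lit 0, false, false⟩,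
 nat_lit 0, nat_lit 6962, nat_lit 0, nat_lit 0, nat_lit 5635, nat_lit 6576, nat_lit 650, nat_lit 0, nat_lit 0, nat_lit 1474, nat_lit 0, nat_lit 0, nat_lit 0, nat_lit 0, nat_lit 0, nat_lit 0, nat_lit 0, nat_lit 0, [],
 ⟨p018_k7, nat_lit 0, nat_lit 0, nat_lit 752, nat_lit 0, nat_lit 1454735, [nat_lit 2032000001, nat_lit 4688000000, nat_lit 6250000000], [], [nat_lit 25269000376, nat_lit 26111598169, nat_lit 37326233706, nat_lit 38706136732], nat_lit 1271250, nat_lit 1271250, nat_lit 545600, nat_lit 2911850, nat_lit 0, nat_lit 0, [nat_lit 490000, nat_lit 1100000, nat_lit 1442500], [nat_lit 6, nat_lit 40, nat_lit 80, nat_lit 80, nat_lit 3, nat_lit 317, nat_lit 100, nat_lit 12]⟩, ⟨p018_k26, nat_lit 0, nat_lit 0, nat_lit 246, nat_lit 0, nat_lit 0, [nat_lit 4688000000, nat_lit 7968000000, nat_lit 11872000000], [], [nat_lit 22364659698, nat_lit 24767413504, nat_lit 36615570357, nat_lit 38165417277],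 nat_lit 0, nat_lit 0, nat_lit 0, nat_lit 0, nat_lit 0, nat_lit 0, [], [nat_lit 21, nat_lit 40, nat_lit 80, nat_lit 80, nat_lit 14, nat_lit 401, nat_lit 175, nat_lit 10]⟩,
 zbF0, [⟨nat_lit 0, nat_lit 94, nat_lit 62, nat_lit 100, nat_lit 45769696⟩]⟩
noncomputable def p018_l213 : Lf2 := ⟨nat_lit 0, nat_lit 10, [nat_lit 0, nat_lit 5, nat_lit 5, nat_lit 20], false, nat_lit 0, nat_lit 0, nat_lit 0, nat_lit 0, ⟨nat_lit 349, nat_lit 651, nat_lit 0, nat_lit 6, nat_lit 246, nat_lit 0, nat_lit 0, nat_lit 0, nat_lit 0, nat_lit 0, nat_lit 0, nat_lit 0, nat_lit 0, nat_lit 0, nat_lit 0, nat_lit 5000000, false, false⟩,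
 nat_lit 5378, nat_lit 0, nat_lit 0, nat_lit 0, nat_lit 4033, nat_lit 2846, nat_lit 115, nat_lit 0, nat_lit 0, nat_lit 53, nat_lit 0, nat_lit 0, nat_lit 0, nat_lit 0, nat_lit 0, nat_lit 651000, nat_lit 0, nat_lit 0, [(nat_lit 18, [(nat_lit 2, nat_lit 651)])],
 ⟨p018_k0, nat_lit 0, nat_lit 0, nat_lit 452, nat_lit 0, nat_lit 741936, [nat_lit 1817083201, nat_lit 2316624001, nat_lit 1892726800], [], [nat_lit 26011171247, nat_lit 26971237409, nat_lit 33753512356, nat_lit 33395776860], nat_lit 1271250, nat_lit 1271250, nat_lit 382400, nat_lit 2926350, nat_lit 0, nat_lit 0, [nat_lit 490000, nat_lit 1100000, nat_lit 1442500], [nat_lit 6, nat_lit 40, nat_lit 80, nat_lit 80, nat_lit 3, nat_lit 317, nat_lit 100, nat_lit 12]⟩, ⟨p018_k26, nat_lit 0, nat_lit 0, nat_lit 846, nat_lit 0, nat_lit 1087281, [nat_lit 1636112000, nat_lit 2780832000, nat_lit 4143328000], [], [nat_lit 16965921300, nat_lit 17047638449,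 nat_lit 18771445536, nat_lit 16904595997], nat_lit 1271250, nat_lit 1271250, nat_lit 382400, nat_lit 2926350, nat_lit 0, nat_lit 0, [nat_lit 1100000, nat_lit 1785000, nat_lit 1271250], [nat_lit 21, nat_lit 40, nat_lit 80, nat_lit 80, nat_lit 14, nat_lit 401, nat_lit 175, nat_lit 11]⟩,
 ⟨nat_lit 3872, nat_lit 4473, ⟨.ofNat (nat_lit 311945), .ofNat (nat_lit 876219), .ofNat (nat_lit 355043), .ofNat (nat_lit 919326), .ofNat (nat_lit 324151), .ofNat (nat_lit 859735), .ofNat (nat_lit 367703), .ofNat (nat_lit 903295)⟩, ⟨.ofNat (nat_lit 0), .ofNat (nat_lit 0), .ofNat (nat_lit 0), .ofNat (nat_lit 0), .ofNat (nat_lit 0), .ofNat (nat_lit 0), .ofNat (nat_lit 0), .ofNat (nat_lit 0)⟩⟩, []⟩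
noncomputable def p018_l214 : Lf2 := ⟨nat_lit 0, nat_lit 10, [nat_lit 0, nat_lit 5, nat_lit 5, nat_lit 20], false, nat_lit 0, nat_lit 0, nat_lit 0, nat_lit 0, ⟨nat_lit 266, nat_lit 734, nat_lit 0, nat_lit 6, nat_lit 250, nat_lit 0, nat_lit 0, nat_lit 0, nat_lit 0, nat_lit 0, nat_lit 0, nat_lit 0, nat_lit 0, nat_lit 0, nat_lit 0, nat_lit 5000000, false, false⟩,
 nat_lit 4267, nat_lit 0, nat_lit 0, nat_lit 0, nat_lit 3454, nat_lit 2259, nat_lit 350, nat_lit 0, nat_lit 0, nat_lit 0, nat_lit 0, nat_lit 0, nat_lit 0, nat_lit 0, nat_lit 0, nat_lit 293600, nat_lit 0, nat_lit 0, [(nat_lit 21, [(nat_lit 1, nat_lit 734)])],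
 ⟨p018_k7, nat_lit 0, nat_lit 0, nat_lit 452, nat_lit 0, nat_lit 761710, [nat_lit 1535228800, nat_lit 2342723201, nat_lit 2757628000], [], [nat_lit 24339777998, nat_lit 25312579508, nat_lit 31683761866, nat_lit 32305379388], nat_lit 1271250, nat_lit 1271250, nat_lit 545600, nat_lit 2911850, nat_lit 0, nat_lit 0, [nat_lit 490000, nat_lit 1100000, nat_lit 1442500], [nat_lit 6, nat_lit 40, nat_lit 80, nat_lit 80, nat_lit 3, nat_lit 317, nat_lit 100, nat_lit 12]⟩, ⟨p018_k26, nat_lit 0, nat_lit 0, nat_lit 879, nat_lit 0, nat_lit 1212039, [nat_lit 1247008000, nat_lit 2119488000, nat_lit 3157952000], [], [nat_lit 13177207115, nat_lit 13249929740, nat_lit 14634626678, nat_lit 12932015912], nat_lit 1271250, nat_lit 1271250, nat_lit 545600, nat_lit 2911850, nat_lit 0, nat_lit 0, [nat_lit 1100000, nat_lit 1785000, nat_lit 1271250], [nat_lit 21, nat_lit 40, nat_lit 80, nat_lit 80, nat_lit 14, nat_lit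 401, nat_lit 175, nat_lit 10]⟩,
 ⟨nat_lit 3162, nat_lit 3873, ⟨.ofNat (nat_lit 362778), .ofNat (nat_lit 846836), .ofNat (nat_lit 406307), .ofNat (nat_lit 890423), .ofNat (nat_lit 373492), .ofNat (nat_lit 830789), .ofNat (nat_lit 417744), .ofNat (nat_lit 875099)⟩, ⟨.ofNat (nat_lit 0), .ofNat (nat_lit 0), .ofNat (nat_lit 0), .ofNat (nat_lit 0), .ofNat (nat_lit 0), .ofNat (nat_lit 0), .ofNat (nat_lit 0), .ofNat (nat_lit 0)⟩⟩, [⟨nat_lit 13, nat_lit 61, nat_lit 68, nat_lit 100, nat_lit 113968634⟩]⟩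
noncomputable def b_N_800_600_0_1 : St := ⟨false, nat_lit 1, nat_lit 2, nat_lit 0, nat_lit 40, nat_lit 320, nat_lit 360, nat_lit 240, nat_lit 280, nat_lit 64, nat_lit 396, nat_lit 0, nat_lit 0, nat_lit 0, nat_lit 0, nat_lit 0, nat_lit 0, nat_lit 0, nat_lit 40, nat_lit 0, nat_lit 0, nat_lit 0, nat_lit 0⟩
theorem d_N_800_600_0_1 (h : EB TB.env) : Dead b_N_800_600_0_1 := chkB_sound0 h (T :=
(.gv
(.st (nat_lit 1)
(.spl (nat_lit 0) (nat_lit 340)
(.spl (nat_lit 2) (nat_lit 120)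
(.spl (nat_lit 7) (nat_lit 600)
(.leaf p018_l179)
(.spl (nat_lit 0) (nat_lit 330)
(.spl (nat_lit 1) (nat_lit 260)
(.spl (nat_lit 1) (nat_lit 250)
(.spl (nat_lit 0) (nat_lit 325)
(.leaf p018_l180)
(.trZ (nat_lit 0) (nat_lit 100) (nat_lit 80) (nat_lit 78) (nat_lit 72) (.leaf p018_l181)))
(.trZ (nat_lit 0) (nat_lit 100) (nat_lit 83) (nat_lit 81) (nat_lit 72) (.spl (nat_lit 0) (nat_lit 325)
(.leaf p018_l182)
(.trZ (nat_lit 0) (nat_lit 100) (nat_lit 81) (nat_lit 83) (nat_lit 80) (.leaf p018_l183)))))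
(.trZ (nat_lit 0) (nat_lit 100) (nat_lit 84) (nat_lit 85) (nat_lit 80) (.spl (nat_lit 6) (nat_lit 20)
(.leaf p018_l184)
(.leaf p018_l185))))
(.trZ (nat_lit 0) (nat_lit 100) (nat_lit 78) (nat_lit 81) (nat_lit 76) (.leaf p018_l186))))
(.spl (nat_lit 1) (nat_lit 260)
(.trX (nat_lit 13) (nat_lit 84) (nat_lit 35) (nat_lit 100) (nat_lit 392) (.spl (nat_lit 2) (nat_lit 240)
(.spl (nat_lit 0) (nat_lit 330)
(.leaf p018_l187)
(.leaf p018_l188))
(.leaf p018_l189)))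
(.spl (nat_lit 0) (nat_lit 330)
(.spl (nat_lit 6) (nat_lit 20)
(.spl (nat_lit 1) (nat_lit 270)
(.trX (nat_lit 13) (nat_lit 85) (nat_lit 30) (nat_lit 100) (nat_lit 392) (.leaf p018_l190))
(.leaf p018_l191))
(.leaf p018_l192))
(.trX (nat_lit 13) (nat_lit 83) (nat_lit 32) (nat_lit 100) (nat_lit 392) (.leaf p018_l193)))))
(.trZ (nat_lit 0) (nat_lit 100) (nat_lit 73) (nat_lit 85) (nat_lit 88) (.trX (nat_lit 13) (nat_lit 78) (nat_lit 39) (nat_lit 100) (nat_lit 388) (.leaf p018_l194))))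
(.spl (nat_lit 2) (nat_lit 240)
(.spl (nat_lit 2) (nat_lit 160)
(.leaf p018_l195)
(.leaf p018_l196))
(.spl (nat_lit 0) (nat_lit 340)
(.spl (nat_lit 1) (nat_lit 260)
(.trX (nat_lit 13) (nat_lit 84) (nat_lit 35) (nat_lit 100) (nat_lit 392) (.spl (nat_lit 0) (nat_lit 330)
(.leaf p018_l197)
(.trX (nat_lit 13) (nat_lit 80) (nat_lit 41) (nat_lit 100) (nat_lit 384) (.leaf p018_l198))))
(.leaf p018_l199))
(.trX (nat_lit 13) (nat_lit 78) (nat_lit 39) (nat_lit 100) (nat_lit 388) (.spl (nat_lit 1) (nat_lit 260)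
(.trX (nat_lit 13) (nat_lit 75) (nat_lit 48) (nat_lit 100) (nat_lit 380) (.leaf p018_l200))
(.leaf p018_l201))))))
(.st (nat_lit 1)
(.spl (nat_lit 0) (nat_lit 340)
(.spl (nat_lit 2) (nat_lit 120)
(.spl (nat_lit 0) (nat_lit 330)
(.spl (nat_lit 1) (nat_lit 260)
(.leaf p018_l202)
(.trZ (nat_lit 0) (nat_lit 100) (nat_lit 84) (nat_lit 85) (nat_lit 80) (.spl (nat_lit 6) (nat_lit 20)
(.leaf p018_l203)
(.leaf p018_l204))))
(.trZ (nat_lit 0) (nat_lit 100) (nat_lit 78) (nat_lit 81) (nat_lit 76) (.leaf p018_l205)))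
(.spl (nat_lit 1) (nat_lit 260)
(.trX (nat_lit 13) (nat_lit 84) (nat_lit 35) (nat_lit 100) (nat_lit 392) (.spl (nat_lit 2) (nat_lit 240)
(.leaf p018_l206)
(.leaf p018_l207)))
(.spl (nat_lit 0) (nat_lit 330)
(.spl (nat_lit 2) (nat_lit 240)
(.spl (nat_lit 0) (nat_lit 325)
(.leaf p018_l208)
(.leaf p018_l209))
(.leaf p018_l210))
(.trX (nat_lit 13) (nat_lit 83) (nat_lit 32) (nat_lit 100) (nat_lit 392) (.leaf p018_l211)))))
(.trZ (nat_lit 0) (nat_lit 100) (nat_lit 73) (nat_lit 85) (nat_lit 88) (.trX (nat_lit 13) (nat_lit 78) (nat_lit 39) (nat_lit 100) (nat_lit 388) (.leaf p018_l212))))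
(.spl (nat_lit 0) (nat_lit 340)
(.leaf p018_l213)
(.trZ (nat_lit 0) (nat_lit 100) (nat_lit 73) (nat_lit 85) (nat_lit 88) (.trX (nat_lit 13) (nat_lit 78) (nat_lit 39) (nat_lit 100) (nat_lit 388) (.leaf p018_l214))))))) (by decide +kernel)
noncomputable def p018_l215 : Lf2 := ⟨nat_lit 0, nat_lit 10, [nat_lit 0, nat_lit 5, nat_lit 5, nat_lit 20], false, nat_lit 0, nat_lit 0, nat_lit 0, nat_lit 0, ⟨nat_lit 1000, nat_lit 0, nat_lit 0, nat_lit 0, nat_lit 0, nat_lit 0, nat_lit 0, nat_lit 0, nat_lit 0, nat_lit 0, nat_lit 0, nat_lit 0, nat_lit 0, nat_lit 0, nat_lit 0, nat_lit 0, false, false⟩,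
 nat_lit 0, nat_lit 0, nat_lit 0, nat_lit 0, nat_lit 4808, nat_lit 0, nat_lit 0, nat_lit 0, nat_lit 0, nat_lit 0, nat_lit 0, nat_lit 0, nat_lit 0, nat_lit 0, nat_lit 0, nat_lit 0, nat_lit 0, nat_lit 0, [],
 ⟨p018_k0, nat_lit 0, nat_lit 0, nat_lit 179, nat_lit 0, nat_lit 0, [nat_lit 2032000001, nat_lit 4688000000, nat_lit 6250000000], [], [nat_lit 26498752602, nat_lit 30025259937, nat_lit 37312723109, nat_lit 39088969607], nat_lit 0, nat_lit 0, nat_lit 0, nat_lit 0, nat_lit 0, nat_lit 0, [], [nat_lit 6, nat_lit 40, nat_lit 80, nat_lit 80, nat_lit 3, nat_lit 317, nat_lit 100, nat_lit 12]⟩, ⟨p018_k26, nat_lit 0, nat_lit 0, nat_lit 253, nat_lit 0, nat_lit 0, [nat_lit 4688000000, nat_lit 7968000000, nat_lit 11872000000], [], [nat_lit 36226723200, nat_lit 37446527200, nat_lit 44642044000, nat_lit 45566898400], nat_lit 0, nat_lit 0, nat_lit 0, nat_lit 0, nat_lit 0, nat_lit 0, [], [nat_lit 21, nat_lit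 40, nat_lit 80, nat_lit 80, nat_lit 14, nat_lit 401, nat_lit 175, nat_lit 11]⟩,
 zbF0, [⟨nat_lit 0, nat_lit 100, nat_lit 82, nat_lit 76, nat_lit 273640848⟩]⟩
noncomputable def p018_l216 : Lf2 := ⟨nat_lit 0, nat_lit 10, [nat_lit 0, nat_lit 5, nat_lit 5, nat_lit 20], true, nat_lit 0, nat_lit 0, nat_lit 0, nat_lit 0, ⟨nat_lit 0, nat_lit 181, nat_lit 819, nat_lit 6, nat_lit 195, nat_lit 0, nat_lit 0, nat_lit 0, nat_lit 0, nat_lit 215, nat_lit 36668, nat_lit 200, nat_lit 54119310, nat_lit 12880690, nat_lit 0, nat_lit 2447337, false, false⟩,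
 nat_lit 0, nat_lit 0, nat_lit 0, nat_lit 0, nat_lit 3131, nat_lit 0, nat_lit 0, nat_lit 0, nat_lit 0, nat_lit 0, nat_lit 0, nat_lit 0, nat_lit 0, nat_lit 0, nat_lit 14, nat_lit 250000, nat_lit 0, nat_lit 0, [(nat_lit 18, [(nat_lit 0, nat_lit 181), (nat_lit 4, nat_lit 819)]), (nat_lit 21, [(nat_lit 0, nat_lit 181), (nat_lit 4, nat_lit 819)])],
 ⟨p018_k8, nat_lit 0, nat_lit 0, nat_lit 164, nat_lit 0, nat_lit 0, [nat_lit 1614052801, nat_lit 6949600], [], [nat_lit 17660746123, nat_lit 20924647073, nat_lit 20625910762, nat_lit 23342646348], nat_lit 0, nat_lit 0, nat_lit 0, nat_lit 0, nat_lit 0, nat_lit 0, [], [nat_lit 69, nat_lit 40, nat_lit 80, nat_lit 80, nat_lit 64, nat_lit 272, nat_lit 60, nat_lit 10]⟩, C1.Rw.none,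
 ⟨nat_lit 3162, nat_lit 4473, ⟨.ofNat (nat_lit 311562), .ofNat (nat_lit 611007), .ofNat (nat_lit 354514), .ofNat (nat_lit 653959), .ofNat (nat_lit 336623), .ofNat (nat_lit 605159), .ofNat (nat_lit 380752), .ofNat (nat_lit 649288)⟩, ⟨.ofNat (nat_lit 0), .ofNat (nat_lit 0), .ofNat (nat_lit 0), .ofNat (nat_lit 0), .ofNat (nat_lit 0), .ofNat (nat_lit 0), .ofNat (nat_lit 0), .ofNat (nat_lit 0)⟩⟩, []⟩
noncomputable def p018_l217 : Lf2 := ⟨nat_lit 0, nat_lit 10, [nat_lit 0, nat_lit 5, nat_lit 5, nat_lit 20], true, nat_lit 0, nat_lit 0, nat_lit 0, nat_lit 0, ⟨nat_lit 0, nat_lit 1000, nat_lit 0, nat_lit 6, nat_lit 278, nat_lit 0, nat_lit 0, nat_lit 0, nat_lit 0, nat_lit 0, nat_lit 0, nat_lit 0, nat_lit 45204335, nat_lit 21795665, nat_lit 0, nat_lit 3154030, true, true⟩,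
 nat_lit 0, nat_lit 0, nat_lit 0, nat_lit 0, nat_lit 3371, nat_lit 0, nat_lit 0, nat_lit 0, nat_lit 0, nat_lit 0, nat_lit 0, nat_lit 0, nat_lit 0, nat_lit 0, nat_lit 0, nat_lit 250000, nat_lit 0, nat_lit 0, [(nat_lit 18, [(nat_lit 0, nat_lit 1000)]), (nat_lit 21, [(nat_lit 0, nat_lit 1000)])],
 ⟨p018_k8, nat_lit 0, nat_lit 0, nat_lit 140, nat_lit 0, nat_lit 0, [nat_lit 1558400000, nat_lit 2562000000], [], [nat_lit 23241677960, nat_lit 25599291012, nat_lit 26709085408, nat_lit 28866544280], nat_lit 0, nat_lit 0, nat_lit 0, nat_lit 0, nat_lit 0, nat_lit 0, [], [nat_lit 69, nat_lit 40, nat_lit 80, nat_lit 80, nat_lit 64, nat_lit 203, nat_lit 0, nat_lit 7]⟩, C1.Rw.none,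
 ⟨nat_lit 3162, nat_lit 4473, ⟨.ofNat (nat_lit 611007), .ofNat (nat_lit 747055), .ofNat (nat_lit 653959), .ofNat (nat_lit 790054), .ofNat (nat_lit 605159), .ofNat (nat_lit 727157), .ofNat (nat_lit 649288), .ofNat (nat_lit 771333)⟩, ⟨.ofNat (nat_lit 0), .ofNat (nat_lit 0), .ofNat (nat_lit 0), .ofNat (nat_lit 0), .ofNat (nat_lit 0), .ofNat (nat_lit 0), .ofNat (nat_lit 0), .ofNat (nat_lit 0)⟩⟩, []⟩
noncomputable def p018_l218 : Lf2 := ⟨nat_lit 0, nat_lit 10, [nat_lit 0, nat_lit 5, nat_lit 5, nat_lit 20], true, nat_lit 0, nat_lit 0, nat_lit 0, nat_lit 0, ⟨nat_lit 0, nat_lit 1000, nat_lit 0, nat_lit 8, nat_lit 314, nat_lit 0, nat_lit 0, nat_lit 0, nat_lit 0, nat_lit 0, nat_lit 0, nat_lit 0, nat_lit 41412165, nat_lit 25587835, nat_lit 0, nat_lit 3324951, true, true⟩,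
 nat_lit 0, nat_lit 0, nat_lit 0, nat_lit 0, nat_lit 3786, nat_lit 0, nat_lit 0, nat_lit 0, nat_lit 0, nat_lit 0, nat_lit 0, nat_lit 0, nat_lit 0, nat_lit 0, nat_lit 0, nat_lit 250000, nat_lit 0, nat_lit 0, [(nat_lit 18, [(nat_lit 0, nat_lit 1000)])],
 ⟨p018_k0, nat_lit 0, nat_lit 0, nat_lit 162, nat_lit 0, nat_lit 0, [nat_lit 1532800000, nat_lit 2168000000, nat_lit 2562000000], [], [nat_lit 27349757320, nat_lit 28348497140, nat_lit 29417589404, nat_lit 30331745490], nat_lit 0, nat_lit 0, nat_lit 0, nat_lit 0, nat_lit 0, nat_lit 0, [], [nat_lit 6, nat_lit 40, nat_lit 80, nat_lit 80, nat_lit 3, nat_lit 203, nat_lit 0, nat_lit 6]⟩, C1.Rw.none,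
 ⟨nat_lit 3872, nat_lit 4473, ⟨.ofNat (nat_lit 747053), .ofNat (nat_lit 815035), .ofNat (nat_lit 768604), .ofNat (nat_lit 836589), .ofNat (nat_lit 737137), .ofNat (nat_lit 801662), .ofNat (nat_lit 758915), .ofNat (nat_lit 823443)⟩, ⟨.ofNat (nat_lit 0), .ofNat (nat_lit 0), .ofNat (nat_lit 0), .ofNat (nat_lit 0), .ofNat (nat_lit 0), .ofNat (nat_lit 0), .ofNat (nat_lit 0), .ofNat (nat_lit 0)⟩⟩, []⟩
noncomputable def p018_l219 : Lf2 := ⟨nat_lit 0, nat_lit 10, [nat_lit 0, nat_lit 5, nat_lit 5, nat_lit 20], true, nat_lit 0, nat_lit 0, nat_lit 0, nat_lit 0, ⟨nat_lit 0, nat_lit 1000, nat_lit 0, nat_lit 8, nat_lit 321, nat_lit 0, nat_lit 0, nat_lit 0, nat_lit 0, nat_lit 0, nat_lit 0, nat_lit 0, nat_lit 40761927, nat_lit 26238073, nat_lit 0, nat_lit 3347320, true, true⟩,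
 nat_lit 0, nat_lit 0, nat_lit 0, nat_lit 0, nat_lit 3791, nat_lit 0, nat_lit 0, nat_lit 0, nat_lit 0, nat_lit 0, nat_lit 0, nat_lit 0, nat_lit 0, nat_lit 0, nat_lit 0, nat_lit 250000, nat_lit 0, nat_lit 0, [(nat_lit 18, [(nat_lit 0, nat_lit 1000)])],
 ⟨p018_k0, nat_lit 0, nat_lit 0, nat_lit 162, nat_lit 0, nat_lit 0, [nat_lit 1532800000, nat_lit 2168000000, nat_lit 2562000000], [], [nat_lit 27346685420, nat_lit 28345969590, nat_lit 29415686474, nat_lit 30336620315], nat_lit 0, nat_lit 0, nat_lit 0, nat_lit 0, nat_lit 0, nat_lit 0, [], [nat_lit 6, nat_lit 40, nat_lit 80, nat_lit 80, nat_lit 3, nat_lit 203, nat_lit 0, nat_lit 6]⟩, C1.Rw.none,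
 ⟨nat_lit 3872, nat_lit 4473, ⟨.ofNat (nat_lit 768604), .ofNat (nat_lit 836589), .ofNat (nat_lit 779378), .ofNat (nat_lit 847364), .ofNat (nat_lit 758915), .ofNat (nat_lit 823443), .ofNat (nat_lit 769802), .ofNat (nat_lit 834332)⟩, ⟨.ofNat (nat_lit 0), .ofNat (nat_lit 0), .ofNat (nat_lit 0), .ofNat (nat_lit 0), .ofNat (nat_lit 0), .ofNat (nat_lit 0), .ofNat (nat_lit 0), .ofNat (nat_lit 0)⟩⟩, []⟩
noncomputable def p018_l220 : Lf2 := ⟨nat_lit 0, nat_lit 10, [nat_lit 0, nat_lit 5, nat_lit 5, nat_lit 20], false, nat_lit 0, nat_lit 0, nat_lit 0, nat_lit 0, ⟨nat_lit 89, nat_lit 911, nat_lit 0, nat_lit 8, nat_lit 325, nat_lit 0, nat_lit 0, nat_lit 0, nat_lit 0, nat_lit 0, nat_lit 0, nat_lit 0, nat_lit 40332573, nat_lit 26667427, nat_lit 0, nat_lit 3361005, true, true⟩,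
 nat_lit 0, nat_lit 0, nat_lit 1097, nat_lit 0, nat_lit 3953, nat_lit 667, nat_lit 0, nat_lit 0, nat_lit 0, nat_lit 87, nat_lit 0, nat_lit 0, nat_lit 0, nat_lit 0, nat_lit 0, nat_lit 227750, nat_lit 0, nat_lit 0, [(nat_lit 18, [(nat_lit 0, nat_lit 911)])],
 ⟨p018_k0, nat_lit 0, nat_lit 0, nat_lit 162, nat_lit 0, nat_lit 0, [nat_lit 1577228800, nat_lit 2392280001, nat_lit 2890232000], [], [nat_lit 27799667861, nat_lit 28816588971, nat_lit 29906543543, nat_lit 30822934935], nat_lit 0, nat_lit 0, nat_lit 0, nat_lit 0, nat_lit 0, nat_lit 0, [], [nat_lit 6, nat_lit 40, nat_lit 80, nat_lit 80, nat_lit 3, nat_lit 203, nat_lit 0, nat_lit 6]⟩, ⟨p018_k31, nat_lit 0, nat_lit 0, nat_lit 861, nat_lit 0, nat_lit 1517068, [nat_lit 417232000, nat_lit 709152000, nat_lit 875938000], [], [nat_lit 3042176220, nat_lit 3045414780, nat_lit 3095949448, nat_lit 3097674668], nat_lit 1271250, nat_lit 1271250, nat_lit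 1271250, nat_lit 1271250, nat_lit 0, nat_lit 0, [nat_lit 1100000, nat_lit 1785000, nat_lit 1271250], [nat_lit 29, nat_lit 40, nat_lit 80, nat_lit 80, nat_lit 17, nat_lit 296, nat_lit 75, nat_lit 8]⟩,
 ⟨nat_lit 3872, nat_lit 4473, ⟨.ofNat (nat_lit 779378), .ofNat (nat_lit 847364), .ofNat (nat_lit 790153), .ofNat (nat_lit 858139), .ofNat (nat_lit 769802), .ofNat (nat_lit 834332), .ofNat (nat_lit 780691), .ofNat (nat_lit 845220)⟩, ⟨.ofNat (nat_lit 0), .ofNat (nat_lit 0), .ofNat (nat_lit 0), .ofNat (nat_lit 0), .ofNat (nat_lit 0), .ofNat (nat_lit 0), .ofNat (nat_lit 0), .ofNat (nat_lit 0)⟩⟩, []⟩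
noncomputable def p018_l221 : Lf2 := ⟨nat_lit 0, nat_lit 10, [nat_lit 0, nat_lit 5, nat_lit 5, nat_lit 20], true, nat_lit 0, nat_lit 0, nat_lit 0, nat_lit 0, ⟨nat_lit 0, nat_lit 1000, nat_lit 0, nat_lit 8, nat_lit 314, nat_lit 0, nat_lit 0, nat_lit 0, nat_lit 0, nat_lit 0, nat_lit 0, nat_lit 0, nat_lit 41434609, nat_lit 25565391, nat_lit 0, nat_lit 3324143, true, true⟩,
 nat_lit 0, nat_lit 0, nat_lit 0, nat_lit 0, nat_lit 3557, nat_lit 0, nat_lit 0, nat_lit 0, nat_lit 0, nat_lit 0, nat_lit 0, nat_lit 0, nat_lit 0, nat_lit 0, nat_lit 0, nat_lit 250000, nat_lit 0, nat_lit 0, [(nat_lit 21, [(nat_lit 0, nat_lit 1000)])],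
 ⟨p018_k7, nat_lit 0, nat_lit 0, nat_lit 168, nat_lit 0, nat_lit 0, [nat_lit 1558400000, nat_lit 2146000001, nat_lit 2146000000], [], [nat_lit 28075461507, nat_lit 29000067521, nat_lit 29947548847, nat_lit 30829271972], nat_lit 0, nat_lit 0, nat_lit 0, nat_lit 0, nat_lit 0, nat_lit 0, [], [nat_lit 6, nat_lit 40, nat_lit 80, nat_lit 80, nat_lit 3, nat_lit 203, nat_lit 0, nat_lit 6]⟩, C1.Rw.none,
 ⟨nat_lit 3162, nat_lit 3873, ⟨.ofNat (nat_lit 737150), .ofNat (nat_lit 801671), .ofNat (nat_lit 780717), .ofNat (nat_lit 845258), .ofNat (nat_lit 727168), .ofNat (nat_lit 788122), .ofNat (nat_lit 771459), .ofNat (nat_lit 832432)⟩, ⟨.ofNat (nat_lit 0), .ofNat (nat_lit 0), .ofNat (nat_lit 0), .ofNat (nat_lit 0), .ofNat (nat_lit 0), .ofNat (nat_lit 0), .ofNat (nat_lit 0), .ofNat (nat_lit 0)⟩⟩, []⟩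
noncomputable def p018_l222 : Lf2 := ⟨nat_lit 0, nat_lit 10, [nat_lit 0, nat_lit 5, nat_lit 5, nat_lit 20], true, nat_lit 0, nat_lit 0, nat_lit 0, nat_lit 0, ⟨nat_lit 0, nat_lit 1000, nat_lit 0, nat_lit 9, nat_lit 332, nat_lit 0, nat_lit 0, nat_lit 0, nat_lit 0, nat_lit 0, nat_lit 0, nat_lit 0, nat_lit 39685986, nat_lit 27314014, nat_lit 0, nat_lit 3379999, true, true⟩,
 nat_lit 0, nat_lit 0, nat_lit 0, nat_lit 0, nat_lit 3704, nat_lit 0, nat_lit 0, nat_lit 0, nat_lit 0, nat_lit 0, nat_lit 0, nat_lit 0, nat_lit 0, nat_lit 0, nat_lit 0, nat_lit 250000, nat_lit 0, nat_lit 0, [(nat_lit 18, [(nat_lit 0, nat_lit 1000)]), (nat_lit 21, [(nat_lit 0, nat_lit 1000)])],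
 ⟨p018_k0, nat_lit 0, nat_lit 0, nat_lit 177, nat_lit 0, nat_lit 0, [nat_lit 1558400000, nat_lit 2168000000, nat_lit 2562000000], [], [nat_lit 29448797456, nat_lit 31278408224, nat_lit 30882860140, nat_lit 33033277373], nat_lit 0, nat_lit 0, nat_lit 0, nat_lit 0, nat_lit 0, nat_lit 0, [], [nat_lit 6, nat_lit 40, nat_lit 80, nat_lit 80, nat_lit 3, nat_lit 203, nat_lit 0, nat_lit 6]⟩, C1.Rw.none,
 ⟨nat_lit 3162, nat_lit 4473, ⟨.ofNat (nat_lit 815044), .ofNat (nat_lit 862629), .ofNat (nat_lit 825824), .ofNat (nat_lit 873412), .ofNat (nat_lit 788122), .ofNat (nat_lit 830789), .ofNat (nat_lit 799196), .ofNat (nat_lit 841867)⟩, ⟨.ofNat (nat_lit 0), .ofNat (nat_lit 0), .ofNat (nat_lit 0), .ofNat (nat_lit 0), .ofNat (nat_lit 0), .ofNat (nat_lit 0), .ofNat (nat_lit 0), .ofNat (nat_lit 0)⟩⟩, [⟨nat_lit 13, nat_lit 83, nat_lit 39, nat_lit 100, nat_lit 240560121⟩]⟩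
noncomputable def p018_l223 : Lf2 := ⟨nat_lit 0, nat_lit 10, [nat_lit 0, nat_lit 5, nat_lit 5, nat_lit 20], false, nat_lit 0, nat_lit 0, nat_lit 0, nat_lit 0, ⟨nat_lit 61, nat_lit 939, nat_lit 0, nat_lit 9, nat_lit 342, nat_lit 0, nat_lit 0, nat_lit 0, nat_lit 0, nat_lit 0, nat_lit 0, nat_lit 0, nat_lit 38714851, nat_lit 28285149, nat_lit 0, nat_lit 3404907, true, true⟩,
 nat_lit 0, nat_lit 0, nat_lit 956, nat_lit 0, nat_lit 3754, nat_lit 531, nat_lit 0, nat_lit 0, nat_lit 0, nat_lit 33, nat_lit 0, nat_lit 0, nat_lit 0, nat_lit 0, nat_lit 0, nat_lit 234750, nat_lit 0, nat_lit 0, [(nat_lit 18, [(nat_lit 0, nat_lit 939)])],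
 ⟨p018_k0, nat_lit 0, nat_lit 0, nat_lit 171, nat_lit 0, nat_lit 0, [nat_lit 1563251200, nat_lit 2321720001, nat_lit 2786968000], [], [nat_lit 29808456157, nat_lit 30257710385, nat_lit 31456736698, nat_lit 31867291917], nat_lit 0, nat_lit 0, nat_lit 0, nat_lit 0, nat_lit 0, nat_lit 0, [], [nat_lit 6, nat_lit 40, nat_lit 80, nat_lit 80, nat_lit 3, nat_lit 203, nat_lit 0, nat_lit 6]⟩, ⟨p018_k27, nat_lit 0, nat_lit 0, nat_lit 806, nat_lit 0, nat_lit 1404461, [nat_lit 285968000, nat_lit 486048000, nat_lit 600362000], [], [nat_lit 2470011678, nat_lit 2469803928, nat_lit 2503645370, nat_lit 2505250037], nat_lit 1271250, nat_lit 1271250, nat_lit 1271250, nat_lit 1271250, nat_lit 0, nat_lit 0, [nat_lit 1100000, nat_lit 1785000, nat_lit 1271250], [nat_lit 29, nat_lit 40, nat_lit 80, nat_lit 80, nat_lit 17, nat_lit 289, nat_lit 75, nat_lit 8]⟩,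
 ⟨nat_lit 4183, nat_lit 4473, ⟨.ofNat (nat_lit 825822), .ofNat (nat_lit 880206), .ofNat (nat_lit 836603), .ofNat (nat_lit 890987), .ofNat (nat_lit 819182), .ofNat (nat_lit 872188), .ofNat (nat_lit 830014), .ofNat (nat_lit 883019)⟩, ⟨.ofNat (nat_lit 0), .ofNat (nat_lit 0), .ofNat (nat_lit 0), .ofNat (nat_lit 0), .ofNat (nat_lit 0), .ofNat (nat_lit 0), .ofNat (nat_lit 0), .ofNat (nat_lit 0)⟩⟩, [⟨nat_lit 13, nat_lit 81, nat_lit 40, nat_lit 100, nat_lit 222709974⟩]⟩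
noncomputable def p018_l224 : Lf2 := ⟨nat_lit 0, nat_lit 10, [nat_lit 0, nat_lit 5, nat_lit 5, nat_lit 20], false, nat_lit 0, nat_lit 0, nat_lit 0, nat_lit 0, ⟨nat_lit 38, nat_lit 962, nat_lit 0, nat_lit 9, nat_lit 336, nat_lit 0, nat_lit 0, nat_lit 0, nat_lit 0, nat_lit 0, nat_lit 0, nat_lit 0, nat_lit 39246538, nat_lit 27753462, nat_lit 0, nat_lit 3391806, true, true⟩,
 nat_lit 0, nat_lit 0, nat_lit 609, nat_lit 0, nat_lit 3711, nat_lit 338, nat_lit 0, nat_lit 0, nat_lit 0, nat_lit 18, nat_lit 0, nat_lit 0, nat_lit 0, nat_lit 0, nat_lit 0, nat_lit 240500, nat_lit 0, nat_lit 0, [(nat_lit 18, [(nat_lit 0, nat_lit 962)])],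
 ⟨p018_k6, nat_lit 0, nat_lit 0, nat_lit 171, nat_lit 0, nat_lit 0, [nat_lit 1551769600, nat_lit 2263760000, nat_lit 2702144000], [], [nat_lit 30129359506, nat_lit 30576681658, nat_lit 31330758947, nat_lit 31749302019], nat_lit 0, nat_lit 0, nat_lit 0, nat_lit 0, nat_lit 0, nat_lit 0, [], [nat_lit 6, nat_lit 40, nat_lit 80, nat_lit 80, nat_lit 3, nat_lit 203, nat_lit 0, nat_lit 6]⟩, ⟨p018_k27, nat_lit 0, nat_lit 0, nat_lit 887, nat_lit 0, nat_lit 1578562, [nat_lit 178144000, nat_lit 302784000, nat_lit 373996000], [], [nat_lit 1539170555, nat_lit 1536865078, nat_lit 1552341438, nat_lit 1560347207], nat_lit 1271250, nat_lit 1271250, nat_lit 1271250, nat_lit 1271250, nat_lit 0, nat_lit 0, [nat_lit 1100000, nat_lit 1785000, nat_lit 1271250], [nat_lit 29, nat_lit 40, nat_lit 80, nat_lit 80, nat_lit 17, nat_lit 303, nat_lit 75, nat_lit 8]⟩,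
 ⟨nat_lit 3872, nat_lit 4184, ⟨.ofNat (nat_lit 819187), .ofNat (nat_lit 858941), .ofNat (nat_lit 830019), .ofNat (nat_lit 869774), .ofNat (nat_lit 812568), .ofNat (nat_lit 851281), .ofNat (nat_lit 823463), .ofNat (nat_lit 862177)⟩, ⟨.ofNat (nat_lit 0), .ofNat (nat_lit 0), .ofNat (nat_lit 0), .ofNat (nat_lit 0), .ofNat (nat_lit 0), .ofNat (nat_lit 0), .ofNat (nat_lit 0), .ofNat (nat_lit 0)⟩⟩, [⟨nat_lit 13, nat_lit 77, nat_lit 46, nat_lit 100, nat_lit 240988438⟩]⟩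
noncomputable def p018_l225 : Lf2 := ⟨nat_lit 0, nat_lit 10, [nat_lit 0, nat_lit 5, nat_lit 5, nat_lit 20], true, nat_lit 0, nat_lit 0, nat_lit 0, nat_lit 0, ⟨nat_lit 0, nat_lit 1000, nat_lit 0, nat_lit 9, nat_lit 331, nat_lit 0, nat_lit 0, nat_lit 0, nat_lit 0, nat_lit 0, nat_lit 0, nat_lit 0, nat_lit 39785497, nat_lit 27214503, nat_lit 0, nat_lit 3377201, true, true⟩,
 nat_lit 0, nat_lit 0, nat_lit 0, nat_lit 0, nat_lit 3271, nat_lit 0, nat_lit 0, nat_lit 0, nat_lit 0, nat_lit 0, nat_lit 0, nat_lit 0, nat_lit 0, nat_lit 0, nat_lit 0, nat_lit 341050, nat_lit 0, nat_lit 0, [(nat_lit 21, [(nat_lit 0, nat_lit 393), (nat_lit 1, nat_lit 607)])],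
 ⟨p018_k7, nat_lit 0, nat_lit 0, nat_lit 174, nat_lit 0, nat_lit 0, [nat_lit 1435057600, nat_lit 1749507601, nat_lit 1749022000], [], [nat_lit 29283601782, nat_lit 30097680123, nat_lit 30167279414, nat_lit 31273289324], nat_lit 0, nat_lit 0, nat_lit 0, nat_lit 0, nat_lit 0, nat_lit 0, [], [nat_lit 6, nat_lit 40, nat_lit 80, nat_lit 80, nat_lit 3, nat_lit 203, nat_lit 0, nat_lit 6]⟩, C1.Rw.none,
 ⟨nat_lit 3162, nat_lit 3873, ⟨.ofNat (nat_lit 812568), .ofNat (nat_lit 844829), .ofNat (nat_lit 823465), .ofNat (nat_lit 855725), .ofNat (nat_lit 799199), .ofNat (nat_lit 829676), .ofNat (nat_lit 810277), .ofNat (nat_lit 840753)⟩, ⟨.ofNat (nat_lit 0), .ofNat (nat_lit 0), .ofNat (nat_lit 0), .ofNat (nat_lit 0), .ofNat (nat_lit 0), .ofNat (nat_lit 0), .ofNat (nat_lit 0), .ofNat (nat_lit 0)⟩⟩, [⟨nat_lit 13, nat_lit 75, nat_lit 48, nat_lit 100, nat_lit 238984601⟩]⟩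
noncomputable def p018_l226 : Lf2 := ⟨nat_lit 0, nat_lit 10, [nat_lit 0, nat_lit 5, nat_lit 5, nat_lit 20], false, nat_lit 0, nat_lit 0, nat_lit 0, nat_lit 0, ⟨nat_lit 70, nat_lit 930, nat_lit 0, nat_lit 9, nat_lit 343, nat_lit 0, nat_lit 0, nat_lit 0, nat_lit 0, nat_lit 0, nat_lit 0, nat_lit 0, nat_lit 38585399, nat_lit 28414601, nat_lit 0, nat_lit 3407901, true, true⟩,
 nat_lit 0, nat_lit 0, nat_lit 985, nat_lit 0, nat_lit 3727, nat_lit 573, nat_lit 0, nat_lit 0, nat_lit 0, nat_lit 47, nat_lit 0, nat_lit 0, nat_lit 0, nat_lit 0, nat_lit 0, nat_lit 232500, nat_lit 0, nat_lit 0, [(nat_lit 18, [(nat_lit 0, nat_lit 930)])],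
 ⟨p018_k0, nat_lit 0, nat_lit 0, nat_lit 173, nat_lit 0, nat_lit 0, [nat_lit 1567744000, nat_lit 2344400001, nat_lit 2820160000], [], [nat_lit 29874603979, nat_lit 30770686107, nat_lit 31517834570, nat_lit 32336929208], nat_lit 0, nat_lit 0, nat_lit 0, nat_lit 0, nat_lit 0, nat_lit 0, [], [nat_lit 6, nat_lit 40, nat_lit 80, nat_lit 80, nat_lit 3, nat_lit 203, nat_lit 0, nat_lit 6]⟩, ⟨p018_k29, nat_lit 0, nat_lit 0, nat_lit 851, nat_lit 0, nat_lit 1495585, [nat_lit 328160000, nat_lit 557760000, nat_lit 688940000], [], [nat_lit 2698498770, nat_lit 2699713077, nat_lit 2754781911, nat_lit 2760486145], nat_lit 1271250, nat_lit 1271250, nat_lit 1271250, nat_lit 1271250, nat_lit 0, nat_lit 0, [nat_lit 1100000, nat_lit 1785000, nat_lit 1271250], [nat_lit 29, nat_lit 40, nat_lit 80, nat_lit 80, nat_lit 17, nat_lit 295, nat_lit 75, nat_lit 8]⟩,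
 ⟨nat_lit 3872, nat_lit 4473, ⟨.ofNat (nat_lit 836589), .ofNat (nat_lit 890974), .ofNat (nat_lit 839822), .ofNat (nat_lit 894207), .ofNat (nat_lit 823443), .ofNat (nat_lit 875063), .ofNat (nat_lit 826710), .ofNat (nat_lit 878330)⟩, ⟨.ofNat (nat_lit 0), .ofNat (nat_lit 0), .ofNat (nat_lit 0), .ofNat (nat_lit 0), .ofNat (nat_lit 0), .ofNat (nat_lit 0), .ofNat (nat_lit 0), .ofNat (nat_lit 0)⟩⟩, [⟨nat_lit 13, nat_lit 75, nat_lit 48, nat_lit 100, nat_lit 241503097⟩]⟩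
noncomputable def p018_l227 : Lf2 := ⟨nat_lit 0, nat_lit 10, [nat_lit 0, nat_lit 5, nat_lit 5, nat_lit 20], false, nat_lit 0, nat_lit 0, nat_lit 0, nat_lit 0, ⟨nat_lit 84, nat_lit 916, nat_lit 0, nat_lit 9, nat_lit 344, nat_lit 0, nat_lit 0, nat_lit 0, nat_lit 0, nat_lit 0, nat_lit 0, nat_lit 0, nat_lit 38482220, nat_lit 28517780, nat_lit 0, nat_lit 3410233, true, true⟩,
 nat_lit 0, nat_lit 0, nat_lit 1079, nat_lit 0, nat_lit 3754, nat_lit 636, nat_lit 0, nat_lit 0, nat_lit 0, nat_lit 84, nat_lit 0, nat_lit 0, nat_lit 0, nat_lit 0, nat_lit 0, nat_lit 229000, nat_lit 0, nat_lit 0, [(nat_lit 18, [(nat_lit 0, nat_lit 916)])],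
 ⟨p018_k0, nat_lit 0, nat_lit 0, nat_lit 173, nat_lit 0, nat_lit 0, [nat_lit 1574732800, nat_lit 2379680001, nat_lit 2871792000], [], [nat_lit 29951240157, nat_lit 30849748613, nat_lit 31599520698, nat_lit 32420631135], nat_lit 0, nat_lit 0, nat_lit 0, nat_lit 0, nat_lit 0, nat_lit 0, [], [nat_lit 6, nat_lit 40, nat_lit 80, nat_lit 80, nat_lit 3, nat_lit 203, nat_lit 0, nat_lit 6]⟩, ⟨p018_k32, nat_lit 0, nat_lit 0, nat_lit 843, nat_lit 0, nat_lit 1479594, [nat_lit 393792000, nat_lit 669312000, nat_lit 826728000], [], [nat_lit 3124433315, nat_lit 3125550705, nat_lit 3190334503, nat_lit 3194079065], nat_lit 1271250, nat_lit 1271250, nat_lit 1271250, nat_lit 1271250, nat_lit 0, nat_lit 0, [nat_lit 1100000, nat_lit 1785000, nat_lit 1271250], [nat_lit 29, nat_lit 40, nat_lit 80, nat_lit 80, nat_lit 17, nat_lit 293, nat_lit 75, nat_lit 8]⟩,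
 ⟨nat_lit 3872, nat_lit 4473, ⟨.ofNat (nat_lit 839822), .ofNat (nat_lit 894207), .ofNat (nat_lit 841977), .ofNat (nat_lit 896363), .ofNat (nat_lit 826710), .ofNat (nat_lit 878330), .ofNat (nat_lit 828888), .ofNat (nat_lit 880508)⟩, ⟨.ofNat (nat_lit 0), .ofNat (nat_lit 0), .ofNat (nat_lit 0), .ofNat (nat_lit 0), .ofNat (nat_lit 0), .ofNat (nat_lit 0), .ofNat (nat_lit 0), .ofNat (nat_lit 0)⟩⟩, [⟨nat_lit 13, nat_lit 75, nat_lit 46, nat_lit 100, nat_lit 237214397⟩]⟩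
noncomputable def p018_l228 : Lf2 := ⟨nat_lit 0, nat_lit 10, [nat_lit 0, nat_lit 5, nat_lit 5, nat_lit 20], false, nat_lit 0, nat_lit 0, nat_lit 0, nat_lit 0, ⟨nat_lit 83, nat_lit 917, nat_lit 0, nat_lit 9, nat_lit 345, nat_lit 0, nat_lit 0, nat_lit 0, nat_lit 0, nat_lit 0, nat_lit 0, nat_lit 0, nat_lit 38379278, nat_lit 28620722, nat_lit 0, nat_lit 3412511, true, true⟩,
 nat_lit 0, nat_lit 0, nat_lit 1054, nat_lit 0, nat_lit 3752, nat_lit 627, nat_lit 0, nat_lit 0, nat_lit 0, nat_lit 72, nat_lit 0, nat_lit 0, nat_lit 0, nat_lit 0, nat_lit 0, nat_lit 229250, nat_lit 0, nat_lit 0, [(nat_lit 18, [(nat_lit 0, nat_lit 917)])],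
 ⟨p018_k0, nat_lit 0, nat_lit 0, nat_lit 173, nat_lit 0, nat_lit 0, [nat_lit 1574233601, nat_lit 2377160001, nat_lit 2868104000], [], [nat_lit 29945793329, nat_lit 30844122057, nat_lit 31593699800, nat_lit 32414660918], nat_lit 0, nat_lit 0, nat_lit 0, nat_lit 0, nat_lit 0, nat_lit 0, [], [nat_lit 6, nat_lit 40, nat_lit 80, nat_lit 80, nat_lit 3, nat_lit 203, nat_lit 0, nat_lit 6]⟩, ⟨p018_k33, nat_lit 0, nat_lit 0, nat_lit 843, nat_lit 0, nat_lit 1480724, [nat_lit 389104000, nat_lit 661344000, nat_lit 816886000], [], [nat_lit 3065247664, nat_lit 3068497947, nat_lit 3157288846, nat_lit 3166006051], nat_lit 1271250, nat_lit 1271250, nat_lit 1271250, nat_lit 1271250, nat_lit 0, nat_lit 0, [nat_lit 1100000, nat_lit 1785000, nat_lit 1271250], [nat_lit 29, nat_lit 40, nat_lit 80, nat_lit 80, nat_lit 17, nat_lit 294, nat_lit 75, nat_lit 8]⟩,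
 ⟨nat_lit 3872, nat_lit 4473, ⟨.ofNat (nat_lit 841977), .ofNat (nat_lit 896363), .ofNat (nat_lit 845209), .ofNat (nat_lit 899596), .ofNat (nat_lit 828888), .ofNat (nat_lit 880508), .ofNat (nat_lit 832154), .ofNat (nat_lit 883775)⟩, ⟨.ofNat (nat_lit 0), .ofNat (nat_lit 0), .ofNat (nat_lit 0), .ofNat (nat_lit 0), .ofNat (nat_lit 0), .ofNat (nat_lit 0), .ofNat (nat_lit 0), .ofNat (nat_lit 0)⟩⟩, [⟨nat_lit 13, nat_lit 76, nat_lit 45, nat_lit 100, nat_lit 239586624⟩]⟩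
noncomputable def p018_l229 : Lf2 := ⟨nat_lit 0, nat_lit 10, [nat_lit 0, nat_lit 5, nat_lit 5, nat_lit 20], false, nat_lit 0, nat_lit 0, nat_lit 0, nat_lit 0, ⟨nat_lit 88, nat_lit 912, nat_lit 0, nat_lit 9, nat_lit 347, nat_lit 0, nat_lit 0, nat_lit 0, nat_lit 0, nat_lit 0, nat_lit 0, nat_lit 0, nat_lit 38276570, nat_lit 28723430, nat_lit 0, nat_lit 3414735, true, true⟩,
 nat_lit 0, nat_lit 0, nat_lit 1068, nat_lit 0, nat_lit 3761, nat_lit 644, nat_lit 0, nat_lit 0, nat_lit 0, nat_lit 76, nat_lit 0, nat_lit 0, nat_lit 0, nat_lit 0, nat_lit 0, nat_lit 228000, nat_lit 0, nat_lit 0, [(nat_lit 18, [(nat_lit 0, nat_lit 912)])],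
 ⟨p018_k0, nat_lit 0, nat_lit 0, nat_lit 173, nat_lit 0, nat_lit 0, [nat_lit 1576729600, nat_lit 2389760000, nat_lit 2886544000], [], [nat_lit 29973408054, nat_lit 30872545558, nat_lit 31622997842, nat_lit 32444630893], nat_lit 0, nat_lit 0, nat_lit 0, nat_lit 0, nat_lit 0, nat_lit 0, [], [nat_lit 6, nat_lit 40, nat_lit 80, nat_lit 80, nat_lit 3, nat_lit 203, nat_lit 0, nat_lit 6]⟩, ⟨p018_k34, nat_lit 0, nat_lit 0, nat_lit 832, nat_lit 0, nat_lit 1465775, [nat_lit 412544000, nat_lit 701184000, nat_lit 866096000], [], [nat_lit 3311793368, nat_lit 3312189456, nat_lit 3354670764, nat_lit 3354831933], nat_lit 1271250, nat_lit 1271250, nat_lit 1271250, nat_lit 1271250, nat_lit 0, nat_lit 0, [nat_lit 1100000, nat_lit 1785000, nat_lit 1271250], [nat_lit 29, nat_lit 40, nat_lit 80, nat_lit 80, nat_lit 17, nat_lit 291, nat_lit 75, nat_lit 8]⟩,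
 ⟨nat_lit 3872, nat_lit 4473, ⟨.ofNat (nat_lit 845209), .ofNat (nat_lit 899596), .ofNat (nat_lit 847364), .ofNat (nat_lit 901751), .ofNat (nat_lit 832154), .ofNat (nat_lit 883775), .ofNat (nat_lit 834332), .ofNat (nat_lit 885953)⟩, ⟨.ofNat (nat_lit 0), .ofNat (nat_lit 0), .ofNat (nat_lit 0), .ofNat (nat_lit 0), .ofNat (nat_lit 0), .ofNat (nat_lit 0), .ofNat (nat_lit 0), .ofNat (nat_lit 0)⟩⟩, [⟨nat_lit 13, nat_lit 76, nat_lit 44, nat_lit 100, nat_lit 226872363⟩]⟩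
noncomputable def p018_l230 : Lf2 := ⟨nat_lit 0, nat_lit 10, [nat_lit 0, nat_lit 5, nat_lit 5, nat_lit 20], false, nat_lit 0, nat_lit 0, nat_lit 0, nat_lit 0, ⟨nat_lit 41, nat_lit 959, nat_lit 0, nat_lit 9, nat_lit 350, nat_lit 0, nat_lit 0, nat_lit 0, nat_lit 0, nat_lit 0, nat_lit 0, nat_lit 0, nat_lit 37906348, nat_lit 29093652, nat_lit 0, nat_lit 3422357, true, true⟩,
 nat_lit 0, nat_lit 0, nat_lit 487, nat_lit 0, nat_lit 3649, nat_lit 296, nat_lit 0, nat_lit 0, nat_lit 0, nat_lit 31, nat_lit 0, nat_lit 0, nat_lit 0, nat_lit 0, nat_lit 0, nat_lit 239750, nat_lit 0, nat_lit 0, [(nat_lit 18, [(nat_lit 0, nat_lit 959)])],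
 ⟨p018_k0, nat_lit 0, nat_lit 0, nat_lit 175, nat_lit 0, nat_lit 0, [nat_lit 1553267201, nat_lit 2271320001, nat_lit 2713208000], [], [nat_lit 29724257687, nat_lit 30613330423, nat_lit 31556479763, nat_lit 32360275794], nat_lit 0, nat_lit 0, nat_lit 0, nat_lit 0, nat_lit 0, nat_lit 0, [], [nat_lit 6, nat_lit 40, nat_lit 80, nat_lit 80, nat_lit 3, nat_lit 203, nat_lit 0, nat_lit 6]⟩, ⟨p018_k31, nat_lit 0, nat_lit 0, nat_lit 835, nat_lit 0, nat_lit 1469986, [nat_lit 192208000, nat_lit 326688000, nat_lit 403522000], [], [nat_lit 1550152867, nat_lit 1552021674, nat_lit 1576844469, nat_lit 1578034276], nat_lit 1271250, nat_lit 1271250, nat_lit 1271250, nat_lit 1271250, nat_lit 0, nat_lit 0, [nat_lit 1100000, nat_lit 1785000, nat_lit 1271250], [nat_lit 29, nat_lit 40, nat_lit 80, nat_lit 80, nat_lit 17, nat_lit 294, nat_lit 75, nat_lit 8]⟩,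
 ⟨nat_lit 3872, nat_lit 4473, ⟨.ofNat (nat_lit 847364), .ofNat (nat_lit 908549), .ofNat (nat_lit 858139), .ofNat (nat_lit 919326), .ofNat (nat_lit 834332), .ofNat (nat_lit 892405), .ofNat (nat_lit 845220), .ofNat (nat_lit 903295)⟩, ⟨.ofNat (nat_lit 0), .ofNat (nat_lit 0), .ofNat (nat_lit 0), .ofNat (nat_lit 0), .ofNat (nat_lit 0), .ofNat (nat_lit 0), .ofNat (nat_lit 0), .ofNat (nat_lit 0)⟩⟩, [⟨nat_lit 13, nat_lit 82, nat_lit 34, nat_lit 100, nat_lit 220069481⟩]⟩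
noncomputable def p018_l231 : Lf2 := ⟨nat_lit 0, nat_lit 10, [nat_lit 0, nat_lit 5, nat_lit 5, nat_lit 20], false, nat_lit 0, nat_lit 0, nat_lit 0, nat_lit 0, ⟨nat_lit 136, nat_lit 864, nat_lit 0, nat_lit 9, nat_lit 349, nat_lit 0, nat_lit 0, nat_lit 0, nat_lit 0, nat_lit 0, nat_lit 0, nat_lit 0, nat_lit 38008218, nat_lit 28991782, nat_lit 0, nat_lit 3420322, true, true⟩,
 nat_lit 0, nat_lit 0, nat_lit 1530, nat_lit 0, nat_lit 3832, nat_lit 931, nat_lit 0, nat_lit 0, nat_lit 0, nat_lit 149, nat_lit 0, nat_lit 0, nat_lit 0, nat_lit 0, nat_lit 0, nat_lit 216000, nat_lit 0, nat_lit 0, [(nat_lit 18, [(nat_lit 0, nat_lit 864)])],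
 ⟨p018_k0, nat_lit 0, nat_lit 0, nat_lit 175, nat_lit 0, nat_lit 0, [nat_lit 1600691200, nat_lit 2510720000, nat_lit 3063568000], [], [nat_lit 30244370448, nat_lit 31149888296, nat_lit 32115098396, nat_lit 32932880075], nat_lit 0, nat_lit 0, nat_lit 0, nat_lit 0, nat_lit 0, nat_lit 0, [], [nat_lit 6, nat_lit 40, nat_lit 80, nat_lit 80, nat_lit 3, nat_lit 203, nat_lit 0, nat_lit 6]⟩, ⟨p018_k31, nat_lit 0, nat_lit 0, nat_lit 664, nat_lit 0, nat_lit 1084415, [nat_lit 637568000, nat_lit 1083648000, nat_lit 1338512000], [], [nat_lit 4936105748, nat_lit 4941356365, nat_lit 5048189544, nat_lit 5061167031], nat_lit 1271250, nat_lit 1271250, nat_lit 1271250, nat_lit 1271250, nat_lit 0, nat_lit 0, [nat_lit 1100000, nat_lit 1785000, nat_lit 1271250], [nat_lit 29, nat_lit 40, nat_lit 80, nat_lit 80, nat_lit 17, nat_lit 289, nat_lit 75, nat_lit 8]⟩,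
 ⟨nat_lit 3872, nat_lit 4473, ⟨.ofNat (nat_lit 847364), .ofNat (nat_lit 908549), .ofNat (nat_lit 852752), .ofNat (nat_lit 913938), .ofNat (nat_lit 834332), .ofNat (nat_lit 892405), .ofNat (nat_lit 839776), .ofNat (nat_lit 897851)⟩, ⟨.ofNat (nat_lit 0), .ofNat (nat_lit 0), .ofNat (nat_lit 0), .ofNat (nat_lit 0), .ofNat (nat_lit 0), .ofNat (nat_lit 0), .ofNat (nat_lit 0), .ofNat (nat_lit 0)⟩⟩, [⟨nat_lit 13, nat_lit 76, nat_lit 43, nat_lit 100, nat_lit 219044085⟩]⟩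
noncomputable def p018_l232 : Lf2 := ⟨nat_lit 0, nat_lit 10, [nat_lit 0, nat_lit 5, nat_lit 5, nat_lit 20], false, nat_lit 0, nat_lit 0, nat_lit 0, nat_lit 0, ⟨nat_lit 129, nat_lit 871, nat_lit 0, nat_lit 9, nat_lit 352, nat_lit 0, nat_lit 0, nat_lit 0, nat_lit 0, nat_lit 0, nat_lit 0, nat_lit 0, nat_lit 37804691, nat_lit 29195309, nat_lit 0, nat_lit 3424341, true, true⟩,
 nat_lit 0, nat_lit 0, nat_lit 1425, nat_lit 0, nat_lit 3817, nat_lit 887, nat_lit 0, nat_lit 0, nat_lit 0, nat_lit 108, nat_lit 0, nat_lit 0, nat_lit 0, nat_lit 0, nat_lit 0, nat_lit 217750, nat_lit 0, nat_lit 0, [(nat_lit 18, [(nat_lit 0, nat_lit 871)])],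
 ⟨p018_k0, nat_lit 0, nat_lit 0, nat_lit 175, nat_lit 0, nat_lit 0, [nat_lit 1597196800, nat_lit 2493080001, nat_lit 3037752000], [], [nat_lit 30206623239, nat_lit 31110793127, nat_lit 32074194968, nat_lit 32890214444], nat_lit 0, nat_lit 0, nat_lit 0, nat_lit 0, nat_lit 0, nat_lit 0, [], [nat_lit 6, nat_lit 40, nat_lit 80, nat_lit 80, nat_lit 3, nat_lit 203, nat_lit 0, nat_lit 6]⟩, ⟨p018_k35, nat_lit 0, nat_lit 0, nat_lit 663, nat_lit 0, nat_lit 1085254, [nat_lit 604752000, nat_lit 1027872000, nat_lit 1269618000], [], [nat_lit 4727908452, nat_lit 4734540110, nat_lit 4846219513, nat_lit 4851492974], nat_lit 1271250, nat_lit 1271250, nat_lit 1271250, nat_lit 1271250, nat_lit 0, nat_lit 0, [nat_lit 1100000, nat_lit 1785000, nat_lit 1271250], [nat_lit 29, nat_lit 40, nat_lit 80, nat_lit 80, nat_lit 17, nat_lit 289, nat_lit 75, nat_lit 7]⟩,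
 ⟨nat_lit 3872, nat_lit 4473, ⟨.ofNat (nat_lit 852752), .ofNat (nat_lit 913938), .ofNat (nat_lit 858139), .ofNat (nat_lit 919326), .ofNat (nat_lit 839776), .ofNat (nat_lit 897851), .ofNat (nat_lit 845220), .ofNat (nat_lit 903295)⟩, ⟨.ofNat (nat_lit 0), .ofNat (nat_lit 0), .ofNat (nat_lit 0), .ofNat (nat_lit 0), .ofNat (nat_lit 0), .ofNat (nat_lit 0), .ofNat (nat_lit 0), .ofNat (nat_lit 0)⟩⟩, [⟨nat_lit 13, nat_lit 77, nat_lit 41, nat_lit 100, nat_lit 219331851⟩]⟩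
noncomputable def p018_l233 : Lf2 := ⟨nat_lit 0, nat_lit 10, [nat_lit 0, nat_lit 5, nat_lit 5, nat_lit 20], true, nat_lit 0, nat_lit 0, nat_lit 0, nat_lit 0, ⟨nat_lit 0, nat_lit 1000, nat_lit 0, nat_lit 9, nat_lit 336, nat_lit 0, nat_lit 0, nat_lit 0, nat_lit 0, nat_lit 0, nat_lit 0, nat_lit 0, nat_lit 39236515, nat_lit 27763485, nat_lit 0, nat_lit 3392065, true, true⟩,
 nat_lit 0, nat_lit 0, nat_lit 0, nat_lit 0, nat_lit 3277, nat_lit 0, nat_lit 0, nat_lit 0, nat_lit 0, nat_lit 0, nat_lit 0, nat_lit 0, nat_lit 0, nat_lit 0, nat_lit 0, nat_lit 330550, nat_lit 0, nat_lit 0, [(nat_lit 21, [(nat_lit 0, nat_lit 463), (nat_lit 1, nat_lit 537)])],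
 ⟨p018_k7, nat_lit 0, nat_lit 0, nat_lit 175, nat_lit 0, nat_lit 0, [nat_lit 1449281601, nat_lit 1795231601, nat_lit 1794802000], [], [nat_lit 29383021449, nat_lit 30197598816, nat_lit 30444150838, nat_lit 31534686968], nat_lit 0, nat_lit 0, nat_lit 0, nat_lit 0, nat_lit 0, nat_lit 0, [], [nat_lit 6, nat_lit 40, nat_lit 80, nat_lit 80, nat_lit 3, nat_lit 203, nat_lit 0, nat_lit 6]⟩, C1.Rw.none,
 ⟨nat_lit 3162, nat_lit 3873, ⟨.ofNat (nat_lit 823465), .ofNat (nat_lit 862178), .ofNat (nat_lit 834361), .ofNat (nat_lit 873074), .ofNat (nat_lit 810277), .ofNat (nat_lit 846849), .ofNat (nat_lit 821354), .ofNat (nat_lit 857926)⟩, ⟨.ofNat (nat_lit 0), .ofNat (nat_lit 0), .ofNat (nat_lit 0), .ofNat (nat_lit 0), .ofNat (nat_lit 0), .ofNat (nat_lit 0), .ofNat (nat_lit 0), .ofNat (nat_lit 0)⟩⟩, [⟨nat_lit 13, nat_lit 76, nat_lit 43, nat_lit 100, nat_lit 234566461⟩]⟩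
noncomputable def p018_l234 : Lf2 := ⟨nat_lit 0, nat_lit 10, [nat_lit 0, nat_lit 5, nat_lit 5, nat_lit 20], false, nat_lit 0, nat_lit 0, nat_lit 0, nat_lit 0, ⟨nat_lit 51, nat_lit 949, nat_lit 0, nat_lit 9, nat_lit 341, nat_lit 0, nat_lit 0, nat_lit 0, nat_lit 0, nat_lit 0, nat_lit 0, nat_lit 0, nat_lit 38798681, nat_lit 28201319, nat_lit 0, nat_lit 3402927, true, true⟩,
 nat_lit 0, nat_lit 0, nat_lit 622, nat_lit 0, nat_lit 3335, nat_lit 378, nat_lit 0, nat_lit 0, nat_lit 0, nat_lit 39, nat_lit 0, nat_lit 0, nat_lit 0, nat_lit 0, nat_lit 0, nat_lit 295450, nat_lit 0, nat_lit 0, [(nat_lit 21, [(nat_lit 0, nat_lit 561), (nat_lit 1, nat_lit 388)])],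
 ⟨p018_k7, nat_lit 0, nat_lit 0, nat_lit 177, nat_lit 0, nat_lit 0, [nat_lit 1503712001, nat_lit 2022200401, nat_lit 2101552000], [], [nat_lit 29910190087, nat_lit 30729591372, nat_lit 31156251866, nat_lit 31954073050], nat_lit 0, nat_lit 0, nat_lit 0, nat_lit 0, nat_lit 0, nat_lit 0, [], [nat_lit 6, nat_lit 40, nat_lit 80, nat_lit 80, nat_lit 3, nat_lit 203, nat_lit 0, nat_lit 6]⟩, ⟨p018_k31, nat_lit 0, nat_lit 0, nat_lit 979, nat_lit 0, nat_lit 1797102, [nat_lit 239088000, nat_lit 406368000, nat_lit 501942000], [], [nat_lit 1937442501, nat_lit 1937465087, nat_lit 1954375864, nat_lit 1954139770], nat_lit 1271250, nat_lit 1271250, nat_lit 1271250, nat_lit 1271250, nat_lit 0, nat_lit 0, [nat_lit 1100000, nat_lit 1785000, nat_lit 1271250], [nat_lit 29, nat_lit 40, nat_lit 80, nat_lit 80, nat_lit 17, nat_lit 328, nat_lit 75, nat_lit 9]⟩,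
 ⟨nat_lit 3162, nat_lit 3873, ⟨.ofNat (nat_lit 834361), .ofNat (nat_lit 879526), .ofNat (nat_lit 839810), .ofNat (nat_lit 884975), .ofNat (nat_lit 821354), .ofNat (nat_lit 864021), .ofNat (nat_lit 826893), .ofNat (nat_lit 869560)⟩, ⟨.ofNat (nat_lit 0), .ofNat (nat_lit 0), .ofNat (nat_lit 0), .ofNat (nat_lit 0), .ofNat (nat_lit 0), .ofNat (nat_lit 0), .ofNat (nat_lit 0), .ofNat (nat_lit 0)⟩⟩, [⟨nat_lit 13, nat_lit 71, nat_lit 49, nat_lit 100, nat_lit 229491291⟩]⟩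
noncomputable def p018_l235 : Lf2 := ⟨nat_lit 0, nat_lit 10, [nat_lit 0, nat_lit 5, nat_lit 5, nat_lit 20], false, nat_lit 0, nat_lit 0, nat_lit 0, nat_lit 0, ⟨nat_lit 116, nat_lit 884, nat_lit 0, nat_lit 9, nat_lit 345, nat_lit 0, nat_lit 0, nat_lit 0, nat_lit 0, nat_lit 0, nat_lit 0, nat_lit 0, nat_lit 38453845, nat_lit 28546155, nat_lit 0, nat_lit 3410865, true, true⟩,
 nat_lit 0, nat_lit 0, nat_lit 1367, nat_lit 0, nat_lit 3312, nat_lit 851, nat_lit 0, nat_lit 0, nat_lit 0, nat_lit 76, nat_lit 0, nat_lit 0, nat_lit 0, nat_lit 0, nat_lit 0, nat_lit 353600, nat_lit 0, nat_lit 0, [(nat_lit 21, [(nat_lit 1, nat_lit 884)])],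
 ⟨p018_k7, nat_lit 0, nat_lit 0, nat_lit 174, nat_lit 0, nat_lit 0, [nat_lit 1433708800, nat_lit 1863443201, nat_lit 2043928000], [], [nat_lit 29647987633, nat_lit 30063541221, nat_lit 30942213737, nat_lit 31340686616], nat_lit 0, nat_lit 0, nat_lit 0, nat_lit 0, nat_lit 0, nat_lit 0, [], [nat_lit 6, nat_lit 40, nat_lit 80, nat_lit 80, nat_lit 3, nat_lit 203, nat_lit 0, nat_lit 6]⟩, ⟨p018_k35, nat_lit 0, nat_lit 0, nat_lit 896, nat_lit 0, nat_lit 1617408, [nat_lit 543808000, nat_lit 924288000, nat_lit 1141672000], [], [nat_lit 4374146936, nat_lit 4375366326, nat_lit 4420408687, nat_lit 4430802306], nat_lit 1271250, nat_lit 1271250, nat_lit 1271250, nat_lit 1271250, nat_lit 0, nat_lit 0, [nat_lit 1100000, nat_lit 1785000, nat_lit 1271250], [nat_lit 29, nat_lit 40, nat_lit 80, nat_lit 80, nat_lit 17, nat_lit 308, nat_lit 75, nat_lit 8]⟩,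
 ⟨nat_lit 3535, nat_lit 3873, ⟨.ofNat (nat_lit 839809), .ofNat (nat_lit 884975), .ofNat (nat_lit 845257), .ofNat (nat_lit 890423), .ofNat (nat_lit 833366), .ofNat (nat_lit 877300), .ofNat (nat_lit 838854), .ofNat (nat_lit 882788)⟩, ⟨.ofNat (nat_lit 0), .ofNat (nat_lit 0), .ofNat (nat_lit 0), .ofNat (nat_lit 0), .ofNat (nat_lit 0), .ofNat (nat_lit 0), .ofNat (nat_lit 0), .ofNat (nat_lit 0)⟩⟩, [⟨nat_lit 13, nat_lit 71, nat_lit 48, nat_lit 100, nat_lit 219538528⟩]⟩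
noncomputable def p018_l236 : Lf2 := ⟨nat_lit 0, nat_lit 10, [nat_lit 0, nat_lit 5, nat_lit 5, nat_lit 20], true, nat_lit 0, nat_lit 0, nat_lit 0, nat_lit 0, ⟨nat_lit 0, nat_lit 1000, nat_lit 0, nat_lit 9, nat_lit 341, nat_lit 0, nat_lit 0, nat_lit 0, nat_lit 0, nat_lit 0, nat_lit 0, nat_lit 0, nat_lit 38841555, nat_lit 28158445, nat_lit 0, nat_lit 3401902, true, true⟩,
 nat_lit 0, nat_lit 0, nat_lit 0, nat_lit 0, nat_lit 3219, nat_lit 0, nat_lit 0, nat_lit 0, nat_lit 0, nat_lit 0, nat_lit 0, nat_lit 0, nat_lit 0, nat_lit 0, nat_lit 0, nat_lit 250000, nat_lit 0, nat_lit 0, [(nat_lit 21, [(nat_lit 0, nat_lit 1000)])],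
 ⟨p018_k5, nat_lit 0, nat_lit 0, nat_lit 162, nat_lit 0, nat_lit 0, [nat_lit 1558400000, nat_lit 1963600000], [], [nat_lit 29736191098, nat_lit 30164563220, nat_lit 30825415206, nat_lit 31366161379], nat_lit 0, nat_lit 0, nat_lit 0, nat_lit 0, nat_lit 0, nat_lit 0, [], [nat_lit 24, nat_lit 40, nat_lit 80, nat_lit 80, nat_lit 33, nat_lit 203, nat_lit 0, nat_lit 7]⟩, C1.Rw.none,
 ⟨nat_lit 3162, nat_lit 3536, ⟨.ofNat (nat_lit 833367), .ofNat (nat_lit 871023), .ofNat (nat_lit 838855), .ofNat (nat_lit 876512), .ofNat (nat_lit 826893), .ofNat (nat_lit 863465), .ofNat (nat_lit 832432), .ofNat (nat_lit 869004)⟩, ⟨.ofNat (nat_lit 0), .ofNat (nat_lit 0), .ofNat (nat_lit 0), .ofNat (nat_lit 0), .ofNat (nat_lit 0), .ofNat (nat_lit 0), .ofNat (nat_lit 0), .ofNat (nat_lit 0)⟩⟩, [⟨nat_lit 13, nat_lit 72, nat_lit 46, nat_lit 100, nat_lit 264150651⟩]⟩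
noncomputable def p018_l237 : Lf2 := ⟨nat_lit 0, nat_lit 10, [nat_lit 0, nat_lit 5, nat_lit 5, nat_lit 20], true, nat_lit 0, nat_lit 0, nat_lit 0, nat_lit 0, ⟨nat_lit 0, nat_lit 1000, nat_lit 0, nat_lit 6, nat_lit 245, nat_lit 0, nat_lit 0, nat_lit 0, nat_lit 0, nat_lit 0, nat_lit 0, nat_lit 0, nat_lit 0, nat_lit 0, nat_lit 0, nat_lit 5000000, false, false⟩,
 nat_lit 0, nat_lit 0, nat_lit 0, nat_lit 0, nat_lit 3961, nat_lit 0, nat_lit 0, nat_lit 0, nat_lit 0, nat_lit 0, nat_lit 0, nat_lit 0, nat_lit 0, nat_lit 0, nat_lit 0, nat_lit 250000, nat_lit 0, nat_lit 0, [(nat_lit 18, [(nat_lit 0, nat_lit 1000)]), (nat_lit 21, [(nat_lit 0, nat_lit 1000)])],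
 ⟨p018_k8, nat_lit 0, nat_lit 0, nat_lit 185, nat_lit 0, nat_lit 0, [nat_lit 1558400000, nat_lit 2562000000], [], [nat_lit 22380121731, nat_lit 25334397162, nat_lit 32058952374, nat_lit 34320609627], nat_lit 0, nat_lit 0, nat_lit 0, nat_lit 0, nat_lit 0, nat_lit 0, [], [nat_lit 69, nat_lit 40, nat_lit 80, nat_lit 80, nat_lit 64, nat_lit 317, nat_lit 100, nat_lit 12]⟩, C1.Rw.none,
 ⟨nat_lit 3162, nat_lit 4473, ⟨.ofNat (nat_lit 311562), .ofNat (nat_lit 876224), .ofNat (nat_lit 354514), .ofNat (nat_lit 919290), .ofNat (nat_lit 336623), .ofNat (nat_lit 842980), .ofNat (nat_lit 380752), .ofNat (nat_lit 887222)⟩, ⟨.ofNat (nat_lit 0), .ofNat (nat_lit 0), .ofNat (nat_lit 0), .ofNat (nat_lit 0), .ofNat (nat_lit 0), .ofNat (nat_lit 0), .ofNat (nat_lit 0), .ofNat (nat_lit 0)⟩⟩, [⟨nat_lit 13, nat_lit 87, nat_lit 25, nat_lit 100, nat_lit 280641570⟩]⟩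
noncomputable def b_N_800_600_0_2 : St := ⟨false, nat_lit 0, nat_lit 2, nat_lit 0, nat_lit 40, nat_lit 320, nat_lit 360, nat_lit 240, nat_lit 280, nat_lit 64, nat_lit 396, nat_lit 0, nat_lit 0, nat_lit 0, nat_lit 0, nat_lit 0, nat_lit 0, nat_lit 40, nat_lit 80, nat_lit 0, nat_lit 0, nat_lit 0, nat_lit 0⟩
theorem d_N_800_600_0_2 (h : EB TB.env) : Dead b_N_800_600_0_2 := chkB_sound0 h (T :=
(.gv
(.st (nat_lit 1)
(.leaf p018_l215)
(.spl (nat_lit 2) (nat_lit 240)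
(.leaf p018_l216)
(.spl (nat_lit 2) (nat_lit 320)
(.leaf p018_l217)
(.spl (nat_lit 2) (nat_lit 360)
(.spl (nat_lit 0) (nat_lit 340)
(.spl (nat_lit 1) (nat_lit 260)
(.leaf p018_l218)
(.spl (nat_lit 1) (nat_lit 270)
(.leaf p018_l219)
(.leaf p018_l220)))
(.leaf p018_l221))
(.spl (nat_lit 1) (nat_lit 260)
(.trX (nat_lit 13) (nat_lit 84) (nat_lit 35) (nat_lit 100) (nat_lit 392) (.spl (nat_lit 1) (nat_lit 250)
(.trX (nat_lit 13) (nat_lit 83) (nat_lit 39) (nat_lit 100) (nat_lit 388) (.leaf p018_l222))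
(.spl (nat_lit 0) (nat_lit 340)
(.spl (nat_lit 0) (nat_lit 330)
(.leaf p018_l223)
(.trX (nat_lit 13) (nat_lit 80) (nat_lit 41) (nat_lit 100) (nat_lit 384) (.leaf p018_l224)))
(.trX (nat_lit 13) (nat_lit 75) (nat_lit 48) (nat_lit 100) (nat_lit 380) (.leaf p018_l225)))))
(.spl (nat_lit 0) (nat_lit 340)
(.spl (nat_lit 1) (nat_lit 270)
(.trX (nat_lit 13) (nat_lit 85) (nat_lit 30) (nat_lit 100) (nat_lit 392) (.spl (nat_lit 1) (nat_lit 265)
(.spl (nat_lit 1) (nat_lit 263)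
(.leaf p018_l226)
(.leaf p018_l227))
(.spl (nat_lit 1) (nat_lit 268)
(.leaf p018_l228)
(.leaf p018_l229))))
(.spl (nat_lit 6) (nat_lit 60)
(.leaf p018_l230)
(.spl (nat_lit 1) (nat_lit 275)
(.leaf p018_l231)
(.leaf p018_l232))))
(.trX (nat_lit 13) (nat_lit 78) (nat_lit 39) (nat_lit 100) (nat_lit 388) (.spl (nat_lit 1) (nat_lit 270)
(.trX (nat_lit 13) (nat_lit 76) (nat_lit 43) (nat_lit 100) (nat_lit 384) (.leaf p018_l233))
(.spl (nat_lit 1) (nat_lit 275)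
(.leaf p018_l234)
(.spl (nat_lit 0) (nat_lit 350)
(.leaf p018_l235)
(.trX (nat_lit 13) (nat_lit 72) (nat_lit 46) (nat_lit 100) (nat_lit 384) (.leaf p018_l236))))))))))))
(.leaf p018_l237))) (by decide +kernel)

end B2
end Pool.Agent.Lib.MP_6947cd_al
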