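import Pool.Agent.Lib.MP_6947cd_al.ZB.Pre

/-!
Problem MP_6947cd_al (Chollet).  Case B, second entry in [2/5, 17/20]: certificates of the tree, part P019 (generated).
-/

set_option autoImplicit false
set_option linter.all false

namespace Pool.Agent.Lib.MP_6947cd_al
namespace B2

open Ent Fr B1 PkA

noncomputable def p019_k0 : C1.Kn := ⟨[nat_lit 40, nat_lit 80, nat_lit 100], [nat_lit 0, nat_lit 0, nat_lit 1280], [(nat_lit 0, nat_lit 0, nat_lit 0), (nat_lit 0, nat_lit 0, nat_lit 0), (nat_lit 1000, nat_lit 800, nat_lit 600)], (nat_lit 80, nat_lit 100, nat_lit 60)⟩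
noncomputable def p019_k1 : C1.Kn := ⟨[nat_lit 80, nat_lit 120, nat_lit 160], [nat_lit 0, nat_lit 0, nat_lit 2132], [(nat_lit 0, nat_lit 0, nat_lit 0), (nat_lit 0, nat_lit 0, nat_lit 0), (nat_lit 858, nat_lit 1000, nat_lit 713)], (nat_lit 100, nat_lit 92, nat_lit 61)⟩
noncomputable def p019_k2 : C1.Kn := ⟨[nat_lit 40, nat_lit 80, nat_lit 100], [nat_lit 0, nat_lit 395, nat_lit 1536], [(nat_lit 0, nat_lit 0, nat_lit 0), (nat_lit 1000, nat_lit 908, nat_lit 154), (nat_lit 1000, nat_lit 760, nat_lit 642)], (nat_lit 76, nat_lit 100, nat_lit 60)⟩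
noncomputable def p019_k3 : C1.Kn := ⟨[nat_lit 80, nat_lit 120, nat_lit 140], [nat_lit 0, nat_lit 528, nat_lit 1572], [(nat_lit 0, nat_lit 0, nat_lit 0), (nat_lit 1000, nat_lit 959, nat_lit 206), (nat_lit 966, nat_lit 1000, nat_lit 679)], (nat_lit 100, nat_lit 99, nat_lit 63)⟩
noncomputable def p019_k4 : C1.Kn := ⟨[nat_lit 40, nat_lit 80, nat_lit 100], [nat_lit 0, nat_lit 795, nat_lit 1829], [(nat_lit 0, nat_lit 0, nat_lit 0), (nat_lit 1000, nat_lit 814, nat_lit 310), (nat_lit 1000, nat_lit 714, nat_lit 692)], (nat_lit 72, nat_lit 100, nat_lit 61)⟩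
noncomputable def p019_k5 : C1.Kn := ⟨[nat_lit 40, nat_lit 80], [nat_lit 0, nat_lit 1195], [(nat_lit 0, nat_lit 0, nat_lit 0), (nat_lit 1000, nat_lit 720, nat_lit 465)], (nat_lit 68, nat_lit 100, nat_lit 61)⟩
noncomputable def p019_k6 : C1.Kn := ⟨[nat_lit 40, nat_lit 100], [nat_lit 0, nat_lit 0], [(nat_lit 0, nat_lit 0, nat_lit 0), (nat_lit 0, nat_lit 0, nat_lit 0)], (nat_lit 80, nat_lit 100, nat_lit 60)⟩
noncomputable def p019_k7 : C1.Kn := ⟨[nat_lit 80, nat_lit 140, nat_lit 160], [nat_lit 0, nat_lit 0, nat_lit 2151], [(nat_lit 0, nat_lit 0, nat_lit 0), (nat_lit 0, nat_lit 0, nat_lit 0), (nat_lit 823, nat_lit 1000, nat_lit 757)], (nat_lit 100, nat_lit 92, nat_lit 61)⟩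
noncomputable def p019_k8 : C1.Kn := ⟨[nat_lit 80, nat_lit 120, nat_lit 140], [nat_lit 0, nat_lit 264, nat_lit 1360], [(nat_lit 0, nat_lit 0, nat_lit 0), (nat_lit 1000, nat_lit 979, nat_lit 103), (nat_lit 951, nat_lit 1000, nat_lit 628)], (nat_lit 100, nat_lit 95, nat_lit 62)⟩
noncomputable def p019_k9 : C1.Kn := ⟨[nat_lit 80, nat_lit 120, nat_lit 140], [nat_lit 0, nat_lit 395, nat_lit 1464], [(nat_lit 0, nat_lit 0, nat_lit 0), (nat_lit 1000, nat_lit 969, nat_lit 154), (nat_lit 957, nat_lit 1000, nat_lit 654)], (nat_lit 100, nat_lit 97, nat_lit 62)⟩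
noncomputable def p019_k10 : C1.Kn := ⟨[nat_lit 40, nat_lit 60, nat_lit 100], [nat_lit 0, nat_lit 0, nat_lit 1216], [(nat_lit 0, nat_lit 0, nat_lit 0), (nat_lit 0, nat_lit 0, nat_lit 0), (nat_lit 1000, nat_lit 810, nat_lit 474)], (nat_lit 80, nat_lit 100, nat_lit 60)⟩
noncomputable def p019_k11 : C1.Kn := ⟨[nat_lit 80, nat_lit 100, nat_lit 140], [nat_lit 0, nat_lit 265, nat_lit 1269], [(nat_lit 0, nat_lit 0, nat_lit 0), (nat_lit 1000, nat_lit 959, nat_lit 206), (nat_lit 1000, nat_lit 958, nat_lit 392)], (nat_lit 100, nat_lit 99, nat_lit 63)⟩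
noncomputable def p019_k12 : C1.Kn := ⟨[nat_lit 40, nat_lit 60, nat_lit 100], [nat_lit 0, nat_lit 398, nat_lit 1586], [(nat_lit 0, nat_lit 0, nat_lit 0), (nat_lit 1000, nat_lit 814, nat_lit 310), (nat_lit 1000, nat_lit 752, nat_lit 464)], (nat_lit 72, nat_lit 100, nat_lit 61)⟩
noncomputable def p019_k13 : C1.Kn := ⟨[nat_lit 80, nat_lit 120, nat_lit 140], [nat_lit 0, nat_lit 664, nat_lit 1684], [(nat_lit 0, nat_lit 0, nat_lit 0), (nat_lit 1000, nat_lit 948, nat_lit 259), (nat_lit 975, nat_lit 1000, nat_lit 704)], (nat_lit 99, nat_lit 100, nat_lit 63)⟩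
noncomputable def p019_k14 : C1.Kn := ⟨[nat_lit 80, nat_lit 120, nat_lit 140], [nat_lit 0, nat_lit 796, nat_lit 1801], [(nat_lit 0, nat_lit 0, nat_lit 0), (nat_lit 1000, nat_lit 938, nat_lit 310), (nat_lit 982, nat_lit 1000, nat_lit 736)], (nat_lit 98, nat_lit 100, nat_lit 63)⟩
noncomputable def p019_k15 : C1.Kn := ⟨[nat_lit 80, nat_lit 120, nat_lit 140], [nat_lit 0, nat_lit 878, nat_lit 1873], [(nat_lit 0, nat_lit 0, nat_lit 0), (nat_lit 1000, nat_lit 931, nat_lit 343), (nat_lit 988, nat_lit 1000, nat_lit 753)], (nat_lit 97, nat_lit 100, nat_lit 62)⟩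
noncomputable def p019_k16 : C1.Kn := ⟨[nat_lit 80, nat_lit 120, nat_lit 140], [nat_lit 0, nat_lit 929, nat_lit 1922], [(nat_lit 0, nat_lit 0, nat_lit 0), (nat_lit 1000, nat_lit 927, nat_lit 362), (nat_lit 993, nat_lit 1000, nat_lit 764)], (nat_lit 96, nat_lit 100, nat_lit 62)⟩
noncomputable def p019_k17 : C1.Kn := ⟨[nat_lit 40, nat_lit 80, nat_lit 100], [nat_lit 0, nat_lit 994, nat_lit 1992], [(nat_lit 0, nat_lit 0, nat_lit 0), (nat_lit 1000, nat_lit 767, nat_lit 387), (nat_lit 1000, nat_lit 689, nat_lit 725)], (nat_lit 70, nat_lit 100, nat_lit 61)⟩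
noncomputable def p019_k18 : C1.Kn := ⟨[nat_lit 40, nat_lit 60, nat_lit 80], [nat_lit 0, nat_lit 709, nat_lit 1350], [(nat_lit 0, nat_lit 0, nat_lit 0), (nat_lit 1000, nat_lit 692, nat_lit 494), (nat_lit 1000, nat_lit 689, nat_lit 501)], (nat_lit 65, nat_lit 100, nat_lit 62)⟩
noncomputable def p019_k19 : C1.Kn := ⟨[nat_lit 60, nat_lit 140], [nat_lit 0, nat_lit 0], [(nat_lit 0, nat_lit 0, nat_lit 0), (nat_lit 0, nat_lit 0, nat_lit 0)], (nat_lit 94, nat_lit 100, nat_lit 62)⟩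
noncomputable def p019_k20 : C1.Kn := ⟨[nat_lit 60, nat_lit 100, nat_lit 120], [nat_lit 0, nat_lit 609, nat_lit 1609], [(nat_lit 0, nat_lit 0, nat_lit 0), (nat_lit 1000, nat_lit 905, nat_lit 238), (nat_lit 1000, nat_lit 882, nat_lit 668)], (nat_lit 87, nat_lit 100, nat_lit 60)⟩
noncomputable def p019_k21 : C1.Kn := ⟨[nat_lit 60, nat_lit 100, nat_lit 120], [nat_lit 0, nat_lit 909, nat_lit 1866], [(nat_lit 0, nat_lit 0, nat_lit 0), (nat_lit 1000, nat_lit 858, nat_lit 354), (nat_lit 1000, nat_lit 849, nat_lit 705)], (nat_lit 84, nat_lit 100, nat_lit 60)⟩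
noncomputable def p019_k22 : C1.Kn := ⟨[nat_lit 40, nat_lit 100], [nat_lit 0, nat_lit 1192], [(nat_lit 0, nat_lit 0, nat_lit 0), (nat_lit 1000, nat_lit 814, nat_lit 310)], (nat_lit 72, nat_lit 100, nat_lit 61)⟩
noncomputable def p019_k23 : C1.Kn := ⟨[nat_lit 40, nat_lit 80], [nat_lit 0, nat_lit 0], [(nat_lit 0, nat_lit 0, nat_lit 0), (nat_lit 0, nat_lit 0, nat_lit 0)], (nat_lit 85, nat_lit 100, nat_lit 30)⟩
noncomputable def p019_k24 : C1.Kn := ⟨[nat_lit 60, nat_lit 100], [nat_lit 0, nat_lit 0], [(nat_lit 0, nat_lit 0, nat_lit 0), (nat_lit 0, nat_lit 0, nat_lit 0)], (nat_lit 92, nat_lit 100, nat_lit 28)⟩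
noncomputable def p019_k25 : C1.Kn := ⟨[nat_lit 40, nat_lit 60], [nat_lit 0, nat_lit 197], [(nat_lit 0, nat_lit 0, nat_lit 0), (nat_lit 1000, nat_lit 908, nat_lit 154)], (nat_lit 83, nat_lit 100, nat_lit 31)⟩
noncomputable def p019_k26 : C1.Kn := ⟨[nat_lit 40, nat_lit 80], [nat_lit 0, nat_lit 0], [(nat_lit 0, nat_lit 0, nat_lit 0), (nat_lit 0, nat_lit 0, nat_lit 0)], (nat_lit 82, nat_lit 100, nat_lit 40)⟩
noncomputable def p019_k27 : C1.Kn := ⟨[nat_lit 60, nat_lit 100], [nat_lit 0, nat_lit 0], [(nat_lit 0, nat_lit 0, nat_lit 0), (nat_lit 0, nat_lit 0, nat_lit 0)], (nat_lit 92, nat_lit 100, nat_lit 39)⟩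
noncomputable def p019_k28 : C1.Kn := ⟨[nat_lit 40, nat_lit 80, nat_lit 100], [nat_lit 0, nat_lit 0, nat_lit 1280], [(nat_lit 0, nat_lit 0, nat_lit 0), (nat_lit 0, nat_lit 0, nat_lit 0), (nat_lit 1000, nat_lit 800, nat_lit 600)], (nat_lit 82, nat_lit 100, nat_lit 44)⟩
noncomputable def p019_k29 : C1.Kn := ⟨[nat_lit 60, nat_lit 100, nat_lit 120], [nat_lit 0, nat_lit 0, nat_lit 1164], [(nat_lit 0, nat_lit 0, nat_lit 0), (nat_lit 0, nat_lit 0, nat_lit 0), (nat_lit 1000, nat_lit 933, nat_lit 572)], (nat_lit 92, nat_lit 100, nat_lit 44)⟩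
noncomputable def p019_k30 : C1.Kn := ⟨[nat_lit 40, nat_lit 80], [nat_lit 0, nat_lit 192], [(nat_lit 0, nat_lit 0, nat_lit 0), (nat_lit 1000, nat_lit 955, nat_lit 75)], (nat_lit 80, nat_lit 100, nat_lit 45)⟩
noncomputable def p019_k31 : C1.Kn := ⟨[nat_lit 40, nat_lit 80], [nat_lit 0, nat_lit 395], [(nat_lit 0, nat_lit 0, nat_lit 0), (nat_lit 1000, nat_lit 908, nat_lit 154)], (nat_lit 79, nat_lit 100, nat_lit 45)⟩
noncomputable def p019_k32 : C1.Kn := ⟨[nat_lit 40, nat_lit 60], [nat_lit 0, nat_lit 0], [(nat_lit 0, nat_lit 0, nat_lit 0), (nat_lit 0, nat_lit 0, nat_lit 0)], (nat_lit 89, nat_lit 100, nat_lit 22)⟩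
noncomputable def p019_k33 : C1.Kn := ⟨[nat_lit 60, nat_lit 80], [nat_lit 0, nat_lit 151], [(nat_lit 0, nat_lit 0, nat_lit 0), (nat_lit 1000, nat_lit 953, nat_lit 118)], (nat_lit 93, nat_lit 100, nat_lit 21)⟩
noncomputable def p019_k34 : C1.Kn := ⟨[nat_lit 60, nat_lit 100], [nat_lit 0, nat_lit 302], [(nat_lit 0, nat_lit 0, nat_lit 0), (nat_lit 1000, nat_lit 953, nat_lit 118)], (nat_lit 91, nat_lit 100, nat_lit 28)⟩
noncomputable def p019_k35 : C1.Kn := ⟨[nat_lit 60, nat_lit 100], [nat_lit 0, nat_lit 302], [(nat_lit 0, nat_lit 0, nat_lit 0), (nat_lit 1000, nat_lit 953, nat_lit 118)], (nat_lit 89, nat_lit 100, nat_lit 44)⟩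
noncomputable def p019_k36 : C1.Kn := ⟨[nat_lit 60, nat_lit 80], [nat_lit 0, nat_lit 228], [(nat_lit 0, nat_lit 0, nat_lit 0), (nat_lit 1000, nat_lit 929, nat_lit 178)], (nat_lit 92, nat_lit 100, nat_lit 21)⟩
noncomputable def p019_k37 : C1.Kn := ⟨[nat_lit 60, nat_lit 80], [nat_lit 0, nat_lit 228], [(nat_lit 0, nat_lit 0, nat_lit 0), (nat_lit 1000, nat_lit 929, nat_lit 178)], (nat_lit 90, nat_lit 100, nat_lit 29)⟩
noncomputable def p019_k38 : C1.Kn := ⟨[nat_lit 60, nat_lit 100], [nat_lit 0, nat_lit 455], [(nat_lit 0, nat_lit 0, nat_lit 0), (nat_lit 1000, nat_lit 929, nat_lit 178)], (nat_lit 88, nat_lit 100, nat_lit 44)⟩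
noncomputable def p019_k39 : C1.Kn := ⟨[nat_lit 60, nat_lit 80], [nat_lit 0, nat_lit 304], [(nat_lit 0, nat_lit 0, nat_lit 0), (nat_lit 1000, nat_lit 905, nat_lit 238)], (nat_lit 89, nat_lit 100, nat_lit 29)⟩
noncomputable def p019_k40 : C1.Kn := ⟨[nat_lit 60, nat_lit 80], [nat_lit 0, nat_lit 379], [(nat_lit 0, nat_lit 0, nat_lit 0), (nat_lit 1000, nat_lit 882, nat_lit 294)], (nat_lit 88, nat_lit 100, nat_lit 29)⟩
noncomputable def p019_k41 : C1.Kn := ⟨[nat_lit 40, nat_lit 50, nat_lit 70], [nat_lit 0, nat_lit 0, nat_lit 339], [(nat_lit 0, nat_lit 0, nat_lit 0), (nat_lit 0, nat_lit 0, nat_lit 0), (nat_lit 1000, nat_lit 868, nat_lit 263)], (nat_lit 85, nat_lit 100, nat_lit 30)⟩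
noncomputable def p019_k42 : C1.Kn := ⟨[nat_lit 60, nat_lit 80], [nat_lit 0, nat_lit 426], [(nat_lit 0, nat_lit 0, nat_lit 0), (nat_lit 1000, nat_lit 867, nat_lit 332)], (nat_lit 88, nat_lit 100, nat_lit 29)⟩
noncomputable def p019_k43 : C1.Kn := ⟨[nat_lit 60, nat_lit 80], [nat_lit 0, nat_lit 441], [(nat_lit 0, nat_lit 0, nat_lit 0), (nat_lit 1000, nat_lit 862, nat_lit 345)], (nat_lit 88, nat_lit 100, nat_lit 29)⟩
noncomputable def p019_k44 : C1.Kn := ⟨[nat_lit 40, nat_lit 60, nat_lit 80], [nat_lit 0, nat_lit 0, nat_lit 615], [(nat_lit 0, nat_lit 0, nat_lit 0), (nat_lit 0, nat_lit 0, nat_lit 0), (nat_lit 1000, nat_lit 819, nat_lit 426)], (nat_lit 85, nat_lit 100, nat_lit 30)⟩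
noncomputable def p019_k45 : C1.Kn := ⟨[nat_lit 40, nat_lit 80], [nat_lit 0, nat_lit 33], [(nat_lit 0, nat_lit 0, nat_lit 0), (nat_lit 1000, nat_lit 992, nat_lit 13)], (nat_lit 85, nat_lit 100, nat_lit 30)⟩
noncomputable def p019_k46 : C1.Kn := ⟨[nat_lit 40, nat_lit 80], [nat_lit 0, nat_lit 79], [(nat_lit 0, nat_lit 0, nat_lit 0), (nat_lit 1000, nat_lit 981, nat_lit 31)], (nat_lit 85, nat_lit 100, nat_lit 30)⟩
noncomputable def p019_k47 : C1.Kn := ⟨[nat_lit 60, nat_lit 80], [nat_lit 0, nat_lit 456], [(nat_lit 0, nat_lit 0, nat_lit 0), (nat_lit 1000, nat_lit 859, nat_lit 351)], (nat_lit 87, nat_lit 100, nat_lit 29)⟩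
noncomputable def p019_k48 : C1.Kn := ⟨[nat_lit 60, nat_lit 80], [nat_lit 0, nat_lit 502], [(nat_lit 0, nat_lit 0, nat_lit 0), (nat_lit 1000, nat_lit 845, nat_lit 382)], (nat_lit 87, nat_lit 100, nat_lit 29)⟩
noncomputable def p019_k49 : C1.Kn := ⟨[nat_lit 60, nat_lit 80], [nat_lit 0, nat_lit 518], [(nat_lit 0, nat_lit 0, nat_lit 0), (nat_lit 1000, nat_lit 839, nat_lit 398)], (nat_lit 87, nat_lit 100, nat_lit 30)⟩
noncomputable def p019_k50 : C1.Kn := ⟨[nat_lit 60, nat_lit 80], [nat_lit 0, nat_lit 533], [(nat_lit 0, nat_lit 0, nat_lit 0), (nat_lit 1000, nat_lit 837, nat_lit 397)], (nat_lit 86, nat_lit 100, nat_lit 30)⟩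
noncomputable def p019_k51 : C1.Kn := ⟨[nat_lit 60, nat_lit 80], [nat_lit 0, nat_lit 581], [(nat_lit 0, nat_lit 0, nat_lit 0), (nat_lit 1000, nat_lit 827, nat_lit 411)], (nat_lit 86, nat_lit 100, nat_lit 30)⟩
noncomputable def p019_k52 : C1.Kn := ⟨[nat_lit 60, nat_lit 80], [nat_lit 0, nat_lit 598], [(nat_lit 0, nat_lit 0, nat_lit 0), (nat_lit 1000, nat_lit 822, nat_lit 420)], (nat_lit 86, nat_lit 100, nat_lit 30)⟩
noncomputable def p019_k53 : C1.Kn := ⟨[nat_lit 50, nat_lit 60, nat_lit 80], [nat_lit 0, nat_lit 84, nat_lit 390], [(nat_lit 0, nat_lit 0, nat_lit 0), (nat_lit 1000, nat_lit 935, nat_lit 130), (nat_lit 1000, nat_lit 891, nat_lit 239)], (nat_lit 87, nat_lit 100, nat_lit 29)⟩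
noncomputable def p019_k54 : C1.Kn := ⟨[nat_lit 40, nat_lit 60, nat_lit 80], [nat_lit 0, nat_lit 16, nat_lit 632], [(nat_lit 0, nat_lit 0, nat_lit 0), (nat_lit 1000, nat_lit 992, nat_lit 13), (nat_lit 1000, nat_lit 815, nat_lit 429)], (nat_lit 85, nat_lit 100, nat_lit 30)⟩
noncomputable def p019_k55 : C1.Kn := ⟨[nat_lit 40, nat_lit 50, nat_lit 70], [nat_lit 0, nat_lit 8, nat_lit 352], [(nat_lit 0, nat_lit 0, nat_lit 0), (nat_lit 1000, nat_lit 992, nat_lit 13), (nat_lit 1000, nat_lit 864, nat_lit 269)], (nat_lit 85, nat_lit 100, nat_lit 30)⟩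
noncomputable def p019_k56 : C1.Kn := ⟨[nat_lit 60, nat_lit 100], [nat_lit 0, nat_lit 609], [(nat_lit 0, nat_lit 0, nat_lit 0), (nat_lit 1000, nat_lit 905, nat_lit 238)], (nat_lit 87, nat_lit 100, nat_lit 39)⟩
noncomputable def p019_k57 : C1.Kn := ⟨[nat_lit 40, nat_lit 80], [nat_lit 0, nat_lit 0], [(nat_lit 0, nat_lit 0, nat_lit 0), (nat_lit 0, nat_lit 0, nat_lit 0)], (nat_lit 84, nat_lit 100, nat_lit 36)⟩
noncomputable def p019_k58 : C1.Kn := ⟨[nat_lit 60, nat_lit 80], [nat_lit 0, nat_lit 379], [(nat_lit 0, nat_lit 0, nat_lit 0), (nat_lit 1000, nat_lit 882, nat_lit 294)], (nat_lit 87, nat_lit 100, nat_lit 35)⟩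
noncomputable def p019_k59 : C1.Kn := ⟨[nat_lit 40, nat_lit 80], [nat_lit 0, nat_lit 79], [(nat_lit 0, nat_lit 0, nat_lit 0), (nat_lit 1000, nat_lit 981, nat_lit 31)], (nat_lit 83, nat_lit 100, nat_lit 36)⟩
noncomputable def p019_k60 : C1.Kn := ⟨[nat_lit 40, nat_lit 80], [nat_lit 0, nat_lit 112], [(nat_lit 0, nat_lit 0, nat_lit 0), (nat_lit 1000, nat_lit 974, nat_lit 44)], (nat_lit 83, nat_lit 100, nat_lit 36)⟩
noncomputable def p019_k61 : C1.Kn := ⟨[nat_lit 60, nat_lit 100], [nat_lit 0, nat_lit 755], [(nat_lit 0, nat_lit 0, nat_lit 0), (nat_lit 1000, nat_lit 882, nat_lit 294)], (nat_lit 86, nat_lit 100, nat_lit 40)⟩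
noncomputable def p019_k62 : C1.Kn := ⟨[nat_lit 60, nat_lit 100], [nat_lit 0, nat_lit 609], [(nat_lit 0, nat_lit 0, nat_lit 0), (nat_lit 1000, nat_lit 905, nat_lit 238)], (nat_lit 87, nat_lit 100, nat_lit 44)⟩
noncomputable def p019_k63 : C1.Kn := ⟨[nat_lit 40, nat_lit 80], [nat_lit 0, nat_lit 112], [(nat_lit 0, nat_lit 0, nat_lit 0), (nat_lit 1000, nat_lit 974, nat_lit 44)], (nat_lit 81, nat_lit 100, nat_lit 45)⟩
noncomputable def p019_k64 : C1.Kn := ⟨[nat_lit 60, nat_lit 100], [nat_lit 0, nat_lit 755], [(nat_lit 0, nat_lit 0, nat_lit 0), (nat_lit 1000, nat_lit 882, nat_lit 294)], (nat_lit 86, nat_lit 100, nat_lit 44)⟩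
noncomputable def p019_k65 : C1.Kn := ⟨[nat_lit 60, nat_lit 100], [nat_lit 0, nat_lit 851], [(nat_lit 0, nat_lit 0, nat_lit 0), (nat_lit 1000, nat_lit 867, nat_lit 332)], (nat_lit 85, nat_lit 100, nat_lit 44)⟩
noncomputable def p019_k66 : C1.Kn := ⟨[nat_lit 60, nat_lit 80], [nat_lit 0, nat_lit 456], [(nat_lit 0, nat_lit 0, nat_lit 0), (nat_lit 1000, nat_lit 859, nat_lit 351)], (nat_lit 86, nat_lit 100, nat_lit 35)⟩
noncomputable def p019_k67 : C1.Kn := ⟨[nat_lit 60, nat_lit 80], [nat_lit 0, nat_lit 487], [(nat_lit 0, nat_lit 0, nat_lit 0), (nat_lit 1000, nat_lit 849, nat_lit 376)], (nat_lit 85, nat_lit 100, nat_lit 35)⟩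
noncomputable def p019_k68 : C1.Kn := ⟨[nat_lit 40, nat_lit 50, nat_lit 70, nat_lit 80], [nat_lit 0, nat_lit 0, nat_lit 339, nat_lit 615], [(nat_lit 0, nat_lit 0, nat_lit 0), (nat_lit 0, nat_lit 0, nat_lit 0), (nat_lit 1000, nat_lit 868, nat_lit 263), (nat_lit 1000, nat_lit 819, nat_lit 426)], (nat_lit 84, nat_lit 100, nat_lit 36)⟩
noncomputable def p019_k69 : C1.Kn := ⟨[nat_lit 40, nat_lit 80], [nat_lit 0, nat_lit 33], [(nat_lit 0, nat_lit 0, nat_lit 0), (nat_lit 1000, nat_lit 992, nat_lit 13)], (nat_lit 83, nat_lit 100, nat_lit 36)⟩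
noncomputable def p019_k70 : C1.Kn := ⟨[nat_lit 60, nat_lit 80], [nat_lit 0, nat_lit 502], [(nat_lit 0, nat_lit 0, nat_lit 0), (nat_lit 1000, nat_lit 845, nat_lit 382)], (nat_lit 85, nat_lit 100, nat_lit 35)⟩
noncomputable def p019_k71 : C1.Kn := ⟨[nat_lit 60, nat_lit 80], [nat_lit 0, nat_lit 518], [(nat_lit 0, nat_lit 0, nat_lit 0), (nat_lit 1000, nat_lit 839, nat_lit 398)], (nat_lit 85, nat_lit 100, nat_lit 35)⟩
noncomputable def p019_k72 : C1.Kn := ⟨[nat_lit 60, nat_lit 80], [nat_lit 0, nat_lit 533], [(nat_lit 0, nat_lit 0, nat_lit 0), (nat_lit 1000, nat_lit 837, nat_lit 397)], (nat_lit 85, nat_lit 100, nat_lit 35)⟩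
noncomputable def p019_k73 : C1.Kn := ⟨[nat_lit 40, nat_lit 60, nat_lit 80], [nat_lit 0, nat_lit 0, nat_lit 615], [(nat_lit 0, nat_lit 0, nat_lit 0), (nat_lit 0, nat_lit 0, nat_lit 0), (nat_lit 1000, nat_lit 819, nat_lit 426)], (nat_lit 84, nat_lit 100, nat_lit 36)⟩
noncomputable def p019_k74 : C1.Kn := ⟨[nat_lit 40, nat_lit 50, nat_lit 70, nat_lit 80], [nat_lit 0, nat_lit 8, nat_lit 352, nat_lit 632], [(nat_lit 0, nat_lit 0, nat_lit 0), (nat_lit 1000, nat_lit 992, nat_lit 13), (nat_lit 1000, nat_lit 864, nat_lit 269), (nat_lit 1000, nat_lit 815, nat_lit 429)], (nat_lit 83, nat_lit 100, nat_lit 36)⟩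
noncomputable def p019_l0 : Lf2 := ⟨nat_lit 0, nat_lit 10, [nat_lit 0, nat_lit 5, nat_lit 5, nat_lit 20], false, nat_lit 0, nat_lit 0, nat_lit 0, nat_lit 0, ⟨nat_lit 455, nat_lit 0, nat_lit 545, nat_lit 6, nat_lit 149, nat_lit 0, nat_lit 0, nat_lit 0, nat_lit 0, nat_lit 215, nat_lit 209067, nat_lit 327, nat_lit 58824065, nat_lit 0, nat_lit 0, nat_lit 1854737, false, false⟩,
 nat_lit 0, nat_lit 5872, nat_lit 0, nat_lit 0, nat_lit 4403, nat_lit 3643, nat_lit 0, nat_lit 0, nat_lit 0, nat_lit 817, nat_lit 0, nat_lit 0, nat_lit 0, nat_lit 0, nat_lit 0, nat_lit 545000, nat_lit 0, nat_lit 0, [(nat_lit 18, [(nat_lit 6, nat_lit 545)])],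
 ⟨p019_k0, nat_lit 0, nat_lit 0, nat_lit 477, nat_lit 0, nat_lit 822789, [nat_lit 1502114667, nat_lit 1457385334, nat_lit 717814000], [], [nat_lit 20031996574, nat_lit 20500949645, nat_lit 20068361291, nat_lit 20536756237], nat_lit 1271250, nat_lit 1271250, nat_lit 382400, nat_lit 780000, nat_lit 0, nat_lit 0, [nat_lit 490000, nat_lit 1100000, nat_lit 1442500], [nat_lit 6, nat_lit 40, nat_lit 80, nat_lit 80, nat_lit 3, nat_lit 238, nat_lit 30, nat_lit 9]⟩, ⟨p019_k1, nat_lit 0, nat_lit 0, nat_lit 245, nat_lit 0, nat_lit 0, [nat_lit 2133040000, nat_lit 3625440000, nat_lit 5401760000], [], [nat_lit 9943365778, nat_lit 10671619604, nat_lit 9199021506, nat_lit 9882240901], nat_lit 0, nat_lit 0, nat_lit 0, nat_lit 0, nat_lit 0, nat_lit 0, [], [nat_lit 21, nat_lit 40, nat_lit 80, nat_lit 80, nat_lit 14, nat_lit 317, nat_lit 100, nat_lit 8]⟩,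
 ⟨nat_lit 4183, nat_lit 4473, ⟨.ofNat (nat_lit 311996), .ofNat (nat_lit 407167), .ofNat (nat_lit 333558), .ofNat (nat_lit 428729), .ofNat (nat_lit 318053), .ofNat (nat_lit 410812), .ofNat (nat_lit 339715), .ofNat (nat_lit 432475)⟩, ⟨.ofNat (nat_lit 0), .ofNat (nat_lit 0), .ofNat (nat_lit 0), .ofNat (nat_lit 0), .ofNat (nat_lit 0), .ofNat (nat_lit 0), .ofNat (nat_lit 0), .ofNat (nat_lit 0)⟩⟩, [⟨nat_lit 0, nat_lit 100, nat_lit 80, nat_lit 89, nat_lit 476274019⟩]⟩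
noncomputable def p019_l1 : Lf2 := ⟨nat_lit 0, nat_lit 10, [nat_lit 0, nat_lit 5, nat_lit 5, nat_lit 20], false, nat_lit 0, nat_lit 0, nat_lit 0, nat_lit 0, ⟨nat_lit 828, nat_lit 0, nat_lit 172, nat_lit 6, nat_lit 155, nat_lit 0, nat_lit 0, nat_lit 0, nat_lit 0, nat_lit 215, nat_lit 224267, nat_lit 331, nat_lit 58250452, nat_lit 0, nat_lit 0, nat_lit 1937534, false, false⟩,
 nat_lit 0, nat_lit 7238, nat_lit 0, nat_lit 0, nat_lit 5642, nat_lit 5693, nat_lit 648, nat_lit 0, nat_lit 0, nat_lit 1292, nat_lit 0, nat_lit 0, nat_lit 0, nat_lit 0, nat_lit 0, nat_lit 172000, nat_lit 0, nat_lit 0, [(nat_lit 18, [(nat_lit 6, nat_lit 172)])],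
 ⟨p019_k2, nat_lit 0, nat_lit 0, nat_lit 502, nat_lit 0, nat_lit 864329, [nat_lit 1864770134, nat_lit 3668429867, nat_lit 4504062400], [], [nat_lit 23028971648, nat_lit 23587954995, nat_lit 23065876062, nat_lit 23592316299], nat_lit 1271250, nat_lit 1271250, nat_lit 462650, nat_lit 780000, nat_lit 0, nat_lit 0, [nat_lit 490000, nat_lit 1100000, nat_lit 1442500], [nat_lit 6, nat_lit 40, nat_lit 80, nat_lit 80, nat_lit 3, nat_lit 238, nat_lit 30, nat_lit 9]⟩, ⟨p019_k1, nat_lit 0, nat_lit 0, nat_lit 230, nat_lit 0, nat_lit 0, [nat_lit 3881664000, nat_lit 6597504000, nat_lit 9830016000], [], [nat_lit 18057945736, nat_lit 19267944380, nat_lit 17864724342, nat_lit 19124788297], nat_lit 0, nat_lit 0, nat_lit 0, nat_lit 0, nat_lit 0, nat_lit 0, [], [nat_lit 21, nat_lit 40, nat_lit 80, nat_lit 80, nat_lit 14, nat_lit 317, nat_lit 100, nat_lit 8]⟩,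
 ⟨nat_lit 3872, nat_lit 4184, ⟨.ofNat (nat_lit 337921), .ofNat (nat_lit 410806), .ofNat (nat_lit 359583), .ofNat (nat_lit 432468), .ofNat (nat_lit 343550), .ofNat (nat_lit 414527), .ofNat (nat_lit 365339), .ofNat (nat_lit 436316)⟩, ⟨.ofNat (nat_lit 0), .ofNat (nat_lit 0), .ofNat (nat_lit 0), .ofNat (nat_lit 0), .ofNat (nat_lit 0), .ofNat (nat_lit 0), .ofNat (nat_lit 0), .ofNat (nat_lit 0)⟩⟩, [⟨nat_lit 0, nat_lit 100, nat_lit 76, nat_lit 87, nat_lit 689759168⟩]⟩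
noncomputable def p019_l2 : Lf2 := ⟨nat_lit 0, nat_lit 10, [nat_lit 0, nat_lit 5, nat_lit 5, nat_lit 20], false, nat_lit 0, nat_lit 0, nat_lit 0, nat_lit 0, ⟨nat_lit 606, nat_lit 0, nat_lit 394, nat_lit 6, nat_lit 163, nat_lit 0, nat_lit 0, nat_lit 0, nat_lit 0, nat_lit 215, nat_lit 191072, nat_lit 322, nat_lit 57444621, nat_lit 0, nat_lit 0, nat_lit 2048432, false, false⟩,
 nat_lit 0, nat_lit 7176, nat_lit 0, nat_lit 0, nat_lit 5382, nat_lit 4653, nat_lit 131, nat_lit 0, nat_lit 0, nat_lit 983, nat_lit 0, nat_lit 0, nat_lit 0, nat_lit 0, nat_lit 0, nat_lit 394000, nat_lit 0, nat_lit 0, [(nat_lit 18, [(nat_lit 6, nat_lit 394)])],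
 ⟨p019_k0, nat_lit 0, nat_lit 0, nat_lit 529, nat_lit 0, nat_lit 948286, [nat_lit 1648926934, nat_lit 2352473067, nat_lit 2250584800], [], [nat_lit 20841597206, nat_lit 21340543809, nat_lit 20935279524, nat_lit 21401273584], nat_lit 1271250, nat_lit 1271250, nat_lit 490000, nat_lit 780000, nat_lit 0, nat_lit 0, [nat_lit 490000, nat_lit 1100000, nat_lit 1442500], [nat_lit 6, nat_lit 40, nat_lit 80, nat_lit 80, nat_lit 3, nat_lit 238, nat_lit 30, nat_lit 9]⟩, ⟨p019_k3, nat_lit 0, nat_lit 0, nat_lit 182, nat_lit 0, nat_lit 0, [nat_lit 2840928000, nat_lit 4828608000, nat_lit 5964252000], [], [nat_lit 11766145746, nat_lit 12865529052, nat_lit 11781988047, nat_lit 12766023804], nat_lit 0, nat_lit 0, nat_lit 0, nat_lit 0, nat_lit 0, nat_lit 0, [], [nat_lit 29, nat_lit 40, nat_lit 80, nat_lit 80, nat_lit 17, nat_lit 317, nat_lit 100, nat_lit 9]⟩,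
 ⟨nat_lit 4183, nat_lit 4473, ⟨.ofNat (nat_lit 360749), .ofNat (nat_lit 428729), .ofNat (nat_lit 382312), .ofNat (nat_lit 450291), .ofNat (nat_lit 366218), .ofNat (nat_lit 432475), .ofNat (nat_lit 387880), .ofNat (nat_lit 454137)⟩, ⟨.ofNat (nat_lit 0), .ofNat (nat_lit 0), .ofNat (nat_lit 0), .ofNat (nat_lit 0), .ofNat (nat_lit 0), .ofNat (nat_lit 0), .ofNat (nat_lit 0), .ofNat (nat_lit 0)⟩⟩, [⟨nat_lit 0, nat_lit 100, nat_lit 83, nat_lit 98, nat_lit 458163307⟩]⟩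
noncomputable def p019_l3 : Lf2 := ⟨nat_lit 0, nat_lit 10, [nat_lit 0, nat_lit 5, nat_lit 5, nat_lit 20], false, nat_lit 0, nat_lit 0, nat_lit 0, nat_lit 0, ⟨nat_lit 1000, nat_lit 0, nat_lit 0, nat_lit 0, nat_lit 0, nat_lit 0, nat_lit 0, nat_lit 0, nat_lit 0, nat_lit 0, nat_lit 0, nat_lit 0, nat_lit 0, nat_lit 0, nat_lit 0, nat_lit 0, false, false⟩,
 nat_lit 0, nat_lit 6817, nat_lit 0, nat_lit 0, nat_lit 5314, nat_lit 7422, nat_lit 2005, nat_lit 0, nat_lit 0, nat_lit 0, nat_lit 0, nat_lit 0, nat_lit 0, nat_lit 0, nat_lit 0, nat_lit 0, nat_lit 0, nat_lit 0, [],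
 ⟨p019_k2, nat_lit 0, nat_lit 0, nat_lit 540, nat_lit 0, nat_lit 980101, [nat_lit 2032000001, nat_lit 4688000000, nat_lit 6250000000], [], [nat_lit 22133495512, nat_lit 22577167915, nat_lit 22196351710, nat_lit 22624161565], nat_lit 1271250, nat_lit 1271250, nat_lit 573850, nat_lit 780000, nat_lit 0, nat_lit 0, [nat_lit 490000, nat_lit 1100000, nat_lit 1442500], [nat_lit 6, nat_lit 40, nat_lit 80, nat_lit 80, nat_lit 3, nat_lit 238, nat_lit 30, nat_lit 9]⟩, ⟨p019_k3, nat_lit 0, nat_lit 0, nat_lit 177, nat_lit 0, nat_lit 0, [nat_lit 4688000000, nat_lit 7968000000, nat_lit 9842000000], [], [nat_lit 27323356061, nat_lit 29070182564, nat_lit 27303488970, nat_lit 28979701320], nat_lit 0, nat_lit 0, nat_lit 0, nat_lit 0, nat_lit 0, nat_lit 0, [], [nat_lit 29, nat_lit 40, nat_lit 80, nat_lit 80, nat_lit 17, nat_lit 317, nat_lit 100, nat_lit 9]⟩,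
 zbF0, [⟨nat_lit 0, nat_lit 100, nat_lit 79, nat_lit 95, nat_lit 711217296⟩]⟩
noncomputable def p019_l4 : Lf2 := ⟨nat_lit 0, nat_lit 10, [nat_lit 0, nat_lit 5, nat_lit 5, nat_lit 20], false, nat_lit 0, nat_lit 0, nat_lit 0, nat_lit 0, ⟨nat_lit 1000, nat_lit 0, nat_lit 0, nat_lit 0, nat_lit 0, nat_lit 0, nat_lit 0, nat_lit 0, nat_lit 0, nat_lit 0, nat_lit 0, nat_lit 0, nat_lit 0, nat_lit 0, nat_lit 0, nat_lit 0, false, false⟩,
 nat_lit 0, nat_lit 8345, nat_lit 0, nat_lit 0, nat_lit 6258, nat_lit 8008, nat_lit 539, nat_lit 0, nat_lit 0, nat_lit 1796, nat_lit 0, nat_lit 0, nat_lit 0, nat_lit 0, nat_lit 0, nat_lit 0, nat_lit 0, nat_lit 0, [],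
 ⟨p019_k0, nat_lit 0, nat_lit 0, nat_lit 454, nat_lit 0, nat_lit 822789, [nat_lit 2032000001, nat_lit 4688000000, nat_lit 6250000000], [], [nat_lit 29576609252, nat_lit 30098529516, nat_lit 38005559512, nat_lit 38723277190], nat_lit 1271250, nat_lit 1271250, nat_lit 780000, nat_lit 3007000, nat_lit 0, nat_lit 0, [nat_lit 490000, nat_lit 1100000, nat_lit 1442500], [nat_lit 6, nat_lit 40, nat_lit 80, nat_lit 80, nat_lit 3, nat_lit 317, nat_lit 100, nat_lit 12]⟩, ⟨p019_k1, nat_lit 0, nat_lit 0, nat_lit 248, nat_lit 0, nat_lit 0, [nat_lit 4688000000, nat_lit 7968000000, nat_lit 11872000000], [], [nat_lit 20215449216, nat_lit 21717180936, nat_lit 38225026474, nat_lit 39032205690], nat_lit 0, nat_lit 0, nat_lit 0, nat_lit 0, nat_lit 0, nat_lit 0, [], [nat_lit 21, nat_lit 40, nat_lit 80, nat_lit 80, nat_lit 14, nat_lit 401, nat_lit 175, nat_lit 10]⟩,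
 zbF0, []⟩
noncomputable def p019_l5 : Lf2 := ⟨nat_lit 0, nat_lit 10, [nat_lit 0, nat_lit 5, nat_lit 5, nat_lit 20], false, nat_lit 0, nat_lit 0, nat_lit 0, nat_lit 0, ⟨nat_lit 1000, nat_lit 0, nat_lit 0, nat_lit 0, nat_lit 0, nat_lit 0, nat_lit 0, nat_lit 0, nat_lit 0, nat_lit 0, nat_lit 0, nat_lit 0, nat_lit 0, nat_lit 0, nat_lit 0, nat_lit 0, false, false⟩,
 nat_lit 0, nat_lit 8105, nat_lit 0, nat_lit 0, nat_lit 6078, nat_lit 7506, nat_lit 536, nat_lit 0, nat_lit 0, nat_lit 1553, nat_lit 0, nat_lit 0, nat_lit 0, nat_lit 0, nat_lit 0, nat_lit 0, nat_lit 0, nat_lit 0, [],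
 ⟨p019_k0, nat_lit 0, nat_lit 0, nat_lit 515, nat_lit 0, nat_lit 948286, [nat_lit 2032000001, nat_lit 4688000000, nat_lit 6250000000], [], [nat_lit 30270649054, nat_lit 30746241286, nat_lit 37897273480, nat_lit 38591980797], nat_lit 1271250, nat_lit 1271250, nat_lit 780000, nat_lit 3039750, nat_lit 0, nat_lit 0, [nat_lit 490000, nat_lit 1100000, nat_lit 1442500], [nat_lit 6, nat_lit 40, nat_lit 80, nat_lit 80, nat_lit 3, nat_lit 317, nat_lit 100, nat_lit 12]⟩, ⟨p019_k3, nat_lit 0, nat_lit 0, nat_lit 224, nat_lit 0, nat_lit 0, [nat_lit 4688000000, nat_lit 7968000000, nat_lit 9842000000], [], [nat_lit 19766294954, nat_lit 21368229000, nat_lit 38113158062, nat_lit 39166183765], nat_lit 0, nat_lit 0, nat_lit 0, nat_lit 0, nat_lit 0, nat_lit 0, [], [nat_lit 29, nat_lit 40, nat_lit 80, nat_lit 80, nat_lit 17, nat_lit 401, nat_lit 175, nat_lit 12]⟩,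
 zbF0, []⟩
noncomputable def p019_l6 : Lf2 := ⟨nat_lit 0, nat_lit 10, [nat_lit 0, nat_lit 5, nat_lit 5, nat_lit 20], false, nat_lit 0, nat_lit 0, nat_lit 0, nat_lit 0, ⟨nat_lit 1000, nat_lit 0, nat_lit 0, nat_lit 0, nat_lit 0, nat_lit 0, nat_lit 0, nat_lit 0, nat_lit 0, nat_lit 0, nat_lit 0, nat_lit 0, nat_lit 0, nat_lit 0, nat_lit 0, nat_lit 0, false, false⟩,
 nat_lit 0, nat_lit 7716, nat_lit 0, nat_lit 0, nat_lit 6014, nat_lit 6646, nat_lit 1277, nat_lit 0, nat_lit 0, nat_lit 1042, nat_lit 0, nat_lit 0, nat_lit 0, nat_lit 0, nat_lit 0, nat_lit 0, nat_lit 0, nat_lit 0, [],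
 ⟨p019_k2, nat_lit 0, nat_lit 0, nat_lit 530, nat_lit 0, nat_lit 980101, [nat_lit 2032000001, nat_lit 4688000000, nat_lit 6250000000], [], [nat_lit 24311397160, nat_lit 24763887265, nat_lit 38044246857, nat_lit 38746751818], nat_lit 1271250, nat_lit 1271250, nat_lit 780000, nat_lit 3007000, nat_lit 0, nat_lit 0, [nat_lit 490000, nat_lit 1100000, nat_lit 1442500], [nat_lit 6, nat_lit 40, nat_lit 80, nat_lit 80, nat_lit 3, nat_lit 317, nat_lit 100, nat_lit 12]⟩, ⟨p019_k1, nat_lit 0, nat_lit 0, nat_lit 248, nat_lit 0, nat_lit 0, [nat_lit 4688000000, nat_lit 7968000000, nat_lit 11872000000], [], [nat_lit 25206256140, nat_lit 27510477572, nat_lit 37423801276, nat_lit 38562585122], nat_lit 0, nat_lit 0, nat_lit 0, nat_lit 0, nat_lit 0, nat_lit 0, [], [nat_lit 21, nat_lit 40, nat_lit 80, nat_lit 80, nat_lit 14, nat_lit 401, nat_lit 175, nat_lit 10]⟩,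
 zbF0, []⟩
noncomputable def p019_l7 : Lf2 := ⟨nat_lit 0, nat_lit 10, [nat_lit 0, nat_lit 5, nat_lit 5, nat_lit 20], false, nat_lit 0, nat_lit 0, nat_lit 0, nat_lit 0, ⟨nat_lit 1000, nat_lit 0, nat_lit 0, nat_lit 0, nat_lit 0, nat_lit 0, nat_lit 0, nat_lit 0, nat_lit 0, nat_lit 0, nat_lit 0, nat_lit 0, nat_lit 0, nat_lit 0, nat_lit 0, nat_lit 0, false, false⟩,
 nat_lit 0, nat_lit 6209, nat_lit 0, nat_lit 0, nat_lit 5026, nat_lit 6576, nat_lit 1062, nat_lit 0, nat_lit 0, nat_lit 725, nat_lit 0, nat_lit 0, nat_lit 0, nat_lit 0, nat_lit 0, nat_lit 0, nat_lit 0, nat_lit 0, [],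
 ⟨p019_k4, nat_lit 0, nat_lit 0, nat_lit 597, nat_lit 0, nat_lit 1089699, [nat_lit 2032000001, nat_lit 4688000000, nat_lit 6250000000], [], [nat_lit 23776293950, nat_lit 24706157960, nat_lit 35615019466, nat_lit 36917026764], nat_lit 1271250, nat_lit 1271250, nat_lit 545600, nat_lit 2911850, nat_lit 0, nat_lit 0, [nat_lit 490000, nat_lit 1100000, nat_lit 1442500], [nat_lit 6, nat_lit 40, nat_lit 80, nat_lit 80, nat_lit 3, nat_lit 317, nat_lit 100, nat_lit 12]⟩, ⟨p019_k1, nat_lit 0, nat_lit 0, nat_lit 246, nat_lit 0, nat_lit 0, [nat_lit 4688000000, nat_lit 7968000000, nat_lit 11872000000], [], [nat_lit 27354872198, nat_lit 29756677913, nat_lit 39166919369, nat_lit 40330619875], nat_lit 0, nat_lit 0, nat_lit 0, nat_lit 0, nat_lit 0, nat_lit 0, [], [nat_lit 21, nat_lit 40, nat_lit 80, nat_lit 80, nat_lit 14, nat_lit 401, nat_lit 175, nat_lit 10]⟩,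
 zbF0, [⟨nat_lit 0, nat_lit 94, nat_lit 62, nat_lit 100, nat_lit 137602201⟩]⟩
noncomputable def p019_l8 : Lf2 := ⟨nat_lit 0, nat_lit 10, [nat_lit 0, nat_lit 5, nat_lit 5, nat_lit 20], false, nat_lit 0, nat_lit 0, nat_lit 0, nat_lit 0, ⟨nat_lit 169, nat_lit 0, nat_lit 831, nat_lit 6, nat_lit 168, nat_lit 0, nat_lit 0, nat_lit 0, nat_lit 0, nat_lit 215, nat_lit 19503, nat_lit 247, nat_lit 56985151, nat_lit 0, nat_lit 0, nat_lit 2108988, false, false⟩,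
 nat_lit 3693, nat_lit 540, nat_lit 0, nat_lit 0, nat_lit 3174, nat_lit 1955, nat_lit 0, nat_lit 0, nat_lit 0, nat_lit 218, nat_lit 0, nat_lit 0, nat_lit 0, nat_lit 0, nat_lit 24, nat_lit 399600, nat_lit 0, nat_lit 0, [(nat_lit 18, [(nat_lit 5, nat_lit 719), (nat_lit 6, nat_lit 112)])],
 ⟨p019_k0, nat_lit 0, nat_lit 0, nat_lit 371, nat_lit 0, nat_lit 563108, [nat_lit 1321905334, nat_lit 739755867, nat_lit 17121600], [], [nat_lit 18047996339, nat_lit 18968524282, nat_lit 18781111055, nat_lit 19689907241], nat_lit 1271250, nat_lit 1271250, nat_lit 382400, nat_lit 1100001, nat_lit 0, nat_lit 0, [nat_lit 490000, nat_lit 1100000, nat_lit 1442500], [nat_lit 6, nat_lit 40, nat_lit 80, nat_lit 80, nat_lit 3, nat_lit 249, nat_lit 40, nat_lit 10]⟩, ⟨p019_k1, nat_lit 0, nat_lit 0, nat_lit 725, nat_lit 0, nat_lit 846151, [nat_lit 792272000, nat_lit 1346592000, nat_lit 2006368000], [], [nat_lit 5830615024,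 nat_lit 5354171513, nat_lit 7391958004, nat_lit 5549542544], nat_lit 1271250, nat_lit 1271250, nat_lit 382400, nat_lit 1100001, nat_lit 0, nat_lit 0, [nat_lit 1100000, nat_lit 1785000, nat_lit 1271250], [nat_lit 21, nat_lit 40, nat_lit 80, nat_lit 80, nat_lit 14, nat_lit 345, nat_lit 125, nat_lit 9]⟩,
 ⟨nat_lit 3872, nat_lit 4473, ⟨.ofNat (nat_lit 311945), .ofNat (nat_lit 475111), .ofNat (nat_lit 355043), .ofNat (nat_lit 518209), .ofNat (nat_lit 324151), .ofNat (nat_lit 479021), .ofNat (nat_lit 367703), .ofNat (nat_lit 522572)⟩, ⟨.ofNat (nat_lit 0), .ofNat (nat_lit 0), .ofNat (nat_lit 0), .ofNat (nat_lit 0), .ofNat (nat_lit 0), .ofNat (nat_lit 0), .ofNat (nat_lit 0), .ofNat (nat_lit 0)⟩⟩, [⟨nat_lit 0, nat_lit 100, nat_lit 80, nat_lit 89, nat_lit 101716681⟩, ⟨nat_lit 0, nat_lit 99, nat_lit 77, nat_lit 100, nat_lit 8835909⟩]⟩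
noncomputable def p019_l9 : Lf2 := ⟨nat_lit 0, nat_lit 10, [nat_lit 0, nat_lit 5, nat_lit 5, nat_lit 20], false, nat_lit 0, nat_lit 0, nat_lit 0, nat_lit 0, ⟨nat_lit 200, nat_lit 0, nat_lit 800, nat_lit 6, nat_lit 179, nat_lit 0, nat_lit 0, nat_lit 0, nat_lit 0, nat_lit 215, nat_lit 15897, nat_lit 244, nat_lit 55859975, nat_lit 0, nat_lit 0, nat_lit 2249601, false, false⟩,
 nat_lit 3748, nat_lit 53, nat_lit 0, nat_lit 0, nat_lit 3077, nat_lit 1984, nat_lit 0, nat_lit 0, nat_lit 0, nat_lit 146, nat_lit 0, nat_lit 0, nat_lit 0, nat_lit 0, nat_lit 44, nat_lit 456200, nat_lit 0, nat_lit 0, [(nat_lit 21, [(nat_lit 5, nat_lit 573), (nat_lit 6, nat_lit 227)])],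
 ⟨p019_k4, nat_lit 0, nat_lit 0, nat_lit 381, nat_lit 0, nat_lit 603653, [nat_lit 1490540001, nat_lit 417432401, nat_lit 259748800], [], [nat_lit 19040896575, nat_lit 20210453868, nat_lit 20066026553, nat_lit 21134699637], nat_lit 1271250, nat_lit 1271250, nat_lit 545600, nat_lit 1100001, nat_lit 0, nat_lit 0, [nat_lit 490000, nat_lit 1100000, nat_lit 1442500], [nat_lit 6, nat_lit 40, nat_lit 80, nat_lit 80, nat_lit 3, nat_lit 249, nat_lit 40, nat_lit 9]⟩, ⟨p019_k1, nat_lit 0, nat_lit 0, nat_lit 774, nat_lit 0, nat_lit 989404, [nat_lit 937600000, nat_lit 1593600000, nat_lit 2374400000], [], [nat_lit 9138053012, nat_lit 7517364090, nat_lit 7046546384, nat_lit 7098165720], nat_lit 1271250, nat_lit 1271250, nat_lit 545600, nat_lit 1100001, nat_lit 0, nat_lit 0, [nat_lit 1100000, nat_lit 1785000, nat_lit 1271250], [nat_lit 21, nat_lit 40, nat_lit 80, nat_lit 80, nat_lit 14, nat_lit 345, nat_lit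 125, nat_lit 9]⟩,
 ⟨nat_lit 3162, nat_lit 3873, ⟨.ofNat (nat_lit 362778), .ofNat (nat_lit 478975), .ofNat (nat_lit 406307), .ofNat (nat_lit 522504), .ofNat (nat_lit 373492), .ofNat (nat_lit 483267), .ofNat (nat_lit 417744), .ofNat (nat_lit 527519)⟩, ⟨.ofNat (nat_lit 0), .ofNat (nat_lit 0), .ofNat (nat_lit 0), .ofNat (nat_lit 0), .ofNat (nat_lit 0), .ofNat (nat_lit 0), .ofNat (nat_lit 0), .ofNat (nat_lit 0)⟩⟩, [⟨nat_lit 0, nat_lit 100, nat_lit 69, nat_lit 96, nat_lit 228172209⟩]⟩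
noncomputable def p019_l10 : Lf2 := ⟨nat_lit 0, nat_lit 10, [nat_lit 0, nat_lit 5, nat_lit 5, nat_lit 20], false, nat_lit 0, nat_lit 0, nat_lit 0, nat_lit 0, ⟨nat_lit 207, nat_lit 0, nat_lit 793, nat_lit 6, nat_lit 226, nat_lit 0, nat_lit 0, nat_lit 0, nat_lit 0, nat_lit 215, nat_lit 36668, nat_lit 200, nat_lit 50773914, nat_lit 0, nat_lit 0, nat_lit 2767900, false, false⟩,
 nat_lit 4316, nat_lit 0, nat_lit 0, nat_lit 0, nat_lit 3237, nat_lit 2284, nat_lit 0, nat_lit 0, nat_lit 0, nat_lit 218, nat_lit 0, nat_lit 0, nat_lit 0, nat_lit 0, nat_lit 4, nat_lit 360400, nat_lit 0, nat_lit 0, [(nat_lit 18, [(nat_lit 5, nat_lit 721), (nat_lit 6, nat_lit 72)]), (nat_lit 21, [(nat_lit 5, nat_lit 721), (nat_lit 6, nat_lit 72)])],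
 ⟨p019_k0, nat_lit 0, nat_lit 0, nat_lit 377, nat_lit 0, nat_lit 658441, [nat_lit 1233774401, nat_lit 646661201, nat_lit 7643200], [], [nat_lit 20151454689, nat_lit 21949660701, nat_lit 21949031141, nat_lit 23551498996], nat_lit 1271250, nat_lit 1271250, nat_lit 1100001, nat_lit 1785000, nat_lit 0, nat_lit 0, [nat_lit 490000, nat_lit 1100000, nat_lit 1442500], [nat_lit 6, nat_lit 40, nat_lit 80, nat_lit 80, nat_lit 3, nat_lit 272, nat_lit 60, nat_lit 10]⟩, ⟨p019_k1, nat_lit 0, nat_lit 0, nat_lit 731, nat_lit 0, nat_lit 989404, [nat_lit 970416000, nat_lit 1649376000, nat_lit 2457504000], [], [nat_lit 6182463364, nat_lit 6325252516, nat_lit 8405002988, nat_lit 6466296288], nat_lit 1271250, nat_lit 1271250, nat_lit 1100001, nat_lit 1785000, nat_lit 0, nat_lit 0, [nat_lit 1100000, nat_lit 1785000, nat_lit 1271250], [nat_lit 21, nat_lit 40, nat_lit 80, nat_lit 80, nat_lit 14, nat_lit 373, nat_lit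 150, nat_lit 10]⟩,
 ⟨nat_lit 3162, nat_lit 4473, ⟨.ofNat (nat_lit 474896), .ofNat (nat_lit 611007), .ofNat (nat_lit 517847), .ofNat (nat_lit 653959), .ofNat (nat_lit 483097), .ofNat (nat_lit 605159), .ofNat (nat_lit 527226), .ofNat (nat_lit 649288)⟩, ⟨.ofNat (nat_lit 0), .ofNat (nat_lit 0), .ofNat (nat_lit 0), .ofNat (nat_lit 0), .ofNat (nat_lit 0), .ofNat (nat_lit 0), .ofNat (nat_lit 0), .ofNat (nat_lit 0)⟩⟩, []⟩
noncomputable def p019_l11 : Lf2 := ⟨nat_lit 0, nat_lit 10, [nat_lit 0, nat_lit 5, nat_lit 5, nat_lit 20], false, nat_lit 0, nat_lit 0, nat_lit 0, nat_lit 0, ⟨nat_lit 307, nat_lit 693, nat_lit 0, nat_lit 6, nat_lit 275, nat_lit 0, nat_lit 0, nat_lit 0, nat_lit 0, nat_lit 0, nat_lit 0, nat_lit 0, nat_lit 45531285, nat_lit 21468715, nat_lit 0, nat_lit 3135959, true, true⟩,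
 nat_lit 5587, nat_lit 0, nat_lit 0, nat_lit 0, nat_lit 4190, nat_lit 2957, nat_lit 0, nat_lit 0, nat_lit 0, nat_lit 272, nat_lit 0, nat_lit 0, nat_lit 0, nat_lit 0, nat_lit 0, nat_lit 666600, nat_lit 0, nat_lit 0, [(nat_lit 18, [(nat_lit 1, nat_lit 44), (nat_lit 2, nat_lit 649)])],
 ⟨p019_k0, nat_lit 0, nat_lit 0, nat_lit 325, nat_lit 0, nat_lit 513092, [nat_lit 1789853334, nat_lit 2204170667, nat_lit 1717388400], [], [nat_lit 24781028415, nat_lit 25663127375, nat_lit 27327020455, nat_lit 28318333920], nat_lit 1271250, nat_lit 1271250, nat_lit 1271250, nat_lit 1271250, nat_lit 0, nat_lit 0, [nat_lit 490000, nat_lit 1100000, nat_lit 1442500], [nat_lit 6, nat_lit 40, nat_lit 80, nat_lit 80, nat_lit 3, nat_lit 203, nat_lit 0, nat_lit 7]⟩, ⟨p019_k1, nat_lit 0, nat_lit 0, nat_lit 592, nat_lit 0, nat_lit 770995, [nat_lit 1439216000, nat_lit 2446176000, nat_lit 3644704000], [], [nat_lit 10400071784,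 nat_lit 10494606652, nat_lit 11013743784, nat_lit 11108278652], nat_lit 1271250, nat_lit 1271250, nat_lit 1271250, nat_lit 1271250, nat_lit 0, nat_lit 0, [nat_lit 1100000, nat_lit 1785000, nat_lit 1271250], [nat_lit 21, nat_lit 40, nat_lit 80, nat_lit 80, nat_lit 14, nat_lit 373, nat_lit 150, nat_lit 9]⟩,
 ⟨nat_lit 3872, nat_lit 4473, ⟨.ofNat (nat_lit 611083), .ofNat (nat_lit 747053), .ofNat (nat_lit 632632), .ofNat (nat_lit 768604), .ofNat (nat_lit 608080), .ofNat (nat_lit 737137), .ofNat (nat_lit 629856), .ofNat (nat_lit 758915)⟩, ⟨.ofNat (nat_lit 0), .ofNat (nat_lit 0), .ofNat (nat_lit 0), .ofNat (nat_lit 0), .ofNat (nat_lit 0), .ofNat (nat_lit 0), .ofNat (nat_lit 0), .ofNat (nat_lit 0)⟩⟩, []⟩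
noncomputable def p019_l12 : Lf2 := ⟨nat_lit 0, nat_lit 10, [nat_lit 0, nat_lit 5, nat_lit 5, nat_lit 20], false, nat_lit 0, nat_lit 0, nat_lit 0, nat_lit 0, ⟨nat_lit 752, nat_lit 248, nat_lit 0, nat_lit 8, nat_lit 326, nat_lit 0, nat_lit 0, nat_lit 0, nat_lit 0, nat_lit 0, nat_lit 0, nat_lit 0, nat_lit 40227818, nat_lit 26772182, nat_lit 0, nat_lit 3364214, true, true⟩,
 nat_lit 12016, nat_lit 0, nat_lit 0, nat_lit 0, nat_lit 4784, nat_lit 6361, nat_lit 283, nat_lit 0, nat_lit 0, nat_lit 544, nat_lit 0, nat_lit 0, nat_lit 0, nat_lit 0, nat_lit 0, nat_lit 248000, nat_lit 0, nat_lit 0, [(nat_lit 18, [(nat_lit 2, nat_lit 248)])],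
 ⟨p019_k0, nat_lit 0, nat_lit 0, nat_lit 326, nat_lit 0, nat_lit 463854, [nat_lit 1950126934, nat_lit 3784618667, nat_lit 4590086400], [], [nat_lit 31011608768, nat_lit 31427636368, nat_lit 34228229482, nat_lit 34621266081], nat_lit 1271250, nat_lit 1271250, nat_lit 1271250, nat_lit 1271250, nat_lit 0, nat_lit 0, [nat_lit 490000, nat_lit 1100000, nat_lit 1442500], [nat_lit 6, nat_lit 40, nat_lit 80, nat_lit 80, nat_lit 3, nat_lit 203, nat_lit 0, nat_lit 6]⟩, ⟨p019_k1, nat_lit 0, nat_lit 0, nat_lit 559, nat_lit 0, nat_lit 697008, [nat_lit 3525376000, nat_lit 5991936000, nat_lit 8927744000], [], [nat_lit 30192433184, nat_lit 30346323976, nat_lit 31876467835, nat_lit 31954013321], nat_lit 1271250, nat_lit 1271250, nat_lit 1271250, nat_lit 1271250, nat_lit 0, nat_lit 0, [nat_lit 1100000, nat_lit 1785000, nat_lit 1271250], [nat_lit 21, nat_lit 40, nat_lit 80, nat_lit 80, nat_lit 14, nat_lit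 289, nat_lit 75, nat_lit 7]⟩,
 ⟨nat_lit 4183, nat_lit 4473, ⟨.ofNat (nat_lit 747062), .ofNat (nat_lit 869424), .ofNat (nat_lit 768624), .ofNat (nat_lit 890987), .ofNat (nat_lit 742095), .ofNat (nat_lit 861356), .ofNat (nat_lit 763757), .ofNat (nat_lit 883019)⟩, ⟨.ofNat (nat_lit 0), .ofNat (nat_lit 0), .ofNat (nat_lit 0), .ofNat (nat_lit 0), .ofNat (nat_lit 0), .ofNat (nat_lit 0), .ofNat (nat_lit 0), .ofNat (nat_lit 0)⟩⟩, []⟩
noncomputable def p019_l13 : Lf2 := ⟨nat_lit 0, nat_lit 10, [nat_lit 0, nat_lit 5, nat_lit 5, nat_lit 20], false, nat_lit 0, nat_lit 0, nat_lit 0, nat_lit 0, ⟨nat_lit 325, nat_lit 675, nat_lit 0, nat_lit 8, nat_lit 321, nat_lit 0, nat_lit 0, nat_lit 0, nat_lit 0, nat_lit 0, nat_lit 0, nat_lit 0, nat_lit 40742218, nat_lit 26257782, nat_lit 0, nat_lit 3347967, true, true⟩,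
 nat_lit 5229, nat_lit 0, nat_lit 0, nat_lit 0, nat_lit 4076, nat_lit 2768, nat_lit 234, nat_lit 0, nat_lit 0, nat_lit 237, nat_lit 0, nat_lit 0, nat_lit 0, nat_lit 0, nat_lit 0, nat_lit 270000, nat_lit 0, nat_lit 0, [(nat_lit 18, [(nat_lit 1, nat_lit 675)])],
 ⟨p019_k2, nat_lit 0, nat_lit 0, nat_lit 334, nat_lit 0, nat_lit 490992, [nat_lit 1604140001, nat_lit 2851100000, nat_lit 3354790000], [], [nat_lit 30028516423, nat_lit 30386627887, nat_lit 32363162692, nat_lit 32670812649], nat_lit 1271250, nat_lit 1271250, nat_lit 1271250, nat_lit 1271250, nat_lit 0, nat_lit 0, [nat_lit 490000, nat_lit 1100000, nat_lit 1442500], [nat_lit 6, nat_lit 40, nat_lit 80, nat_lit 80, nat_lit 3, nat_lit 203, nat_lit 0, nat_lit 6]⟩, ⟨p019_k1, nat_lit 0, nat_lit 0, nat_lit 585, nat_lit 0, nat_lit 770995, [nat_lit 1523600000, nat_lit 2589600000, nat_lit 3858400000], [], [nat_lit 13015002336, nat_lit 13049525260,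 nat_lit 13625469753, nat_lit 13659295776], nat_lit 1271250, nat_lit 1271250, nat_lit 1271250, nat_lit 1271250, nat_lit 0, nat_lit 0, [nat_lit 1100000, nat_lit 1785000, nat_lit 1271250], [nat_lit 21, nat_lit 40, nat_lit 80, nat_lit 80, nat_lit 14, nat_lit 289, nat_lit 75, nat_lit 7]⟩,
 ⟨nat_lit 3872, nat_lit 4184, ⟨.ofNat (nat_lit 742098), .ofNat (nat_lit 848108), .ofNat (nat_lit 763761), .ofNat (nat_lit 869774), .ofNat (nat_lit 737149), .ofNat (nat_lit 840384), .ofNat (nat_lit 758939), .ofNat (nat_lit 862177)⟩, ⟨.ofNat (nat_lit 0), .ofNat (nat_lit 0), .ofNat (nat_lit 0), .ofNat (nat_lit 0), .ofNat (nat_lit 0), .ofNat (nat_lit 0), .ofNat (nat_lit 0), .ofNat (nat_lit 0)⟩⟩, [⟨nat_lit 13, nat_lit 76, nat_lit 48, nat_lit 100, nat_lit 76315393⟩]⟩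
noncomputable def p019_l14 : Lf2 := ⟨nat_lit 0, nat_lit 10, [nat_lit 0, nat_lit 5, nat_lit 5, nat_lit 20], false, nat_lit 0, nat_lit 0, nat_lit 0, nat_lit 0, ⟨nat_lit 1000, nat_lit 0, nat_lit 0, nat_lit 0, nat_lit 0, nat_lit 0, nat_lit 0, nat_lit 0, nat_lit 0, nat_lit 0, nat_lit 0, nat_lit 0, nat_lit 0, nat_lit 0, nat_lit 0, nat_lit 0, false, false⟩,
 nat_lit 11827, nat_lit 0, nat_lit 0, nat_lit 0, nat_lit 6323, nat_lit 6884, nat_lit 490, nat_lit 0, nat_lit 0, nat_lit 1516, nat_lit 0, nat_lit 0, nat_lit 0, nat_lit 0, nat_lit 0, nat_lit 0, nat_lit 0, nat_lit 0, [],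
 ⟨p019_k0, nat_lit 0, nat_lit 0, nat_lit 359, nat_lit 0, nat_lit 563108, [nat_lit 2032000001, nat_lit 4688000000, nat_lit 6250000000], [], [nat_lit 29200819480, nat_lit 30152649142, nat_lit 38573267680, nat_lit 39992445208], nat_lit 1271250, nat_lit 1271250, nat_lit 1271250, nat_lit 1271250, nat_lit 0, nat_lit 0, [nat_lit 490000, nat_lit 1100000, nat_lit 1442500], [nat_lit 6, nat_lit 40, nat_lit 80, nat_lit 80, nat_lit 3, nat_lit 203, nat_lit 0, nat_lit 7]⟩, ⟨p019_k3, nat_lit 0, nat_lit 0, nat_lit 528, nat_lit 0, nat_lit 755887, [nat_lit 4688000000, nat_lit 7968000000, nat_lit 9842000000], [], [nat_lit 33714598616, nat_lit 34071660384, nat_lit 37404009384, nat_lit 37566974486], nat_lit 1271250, nat_lit 1271250, nat_lit 1271250, nat_lit 1271250, nat_lit 0, nat_lit 0, [nat_lit 1100000, nat_lit 1785000, nat_lit 1271250], [nat_lit 29, nat_lit 40, nat_lit 80, nat_lit 80, nat_lit 17, nat_lit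 401, nat_lit 175, nat_lit 11]⟩,
 zbF0, []⟩
noncomputable def p019_l15 : Lf2 := ⟨nat_lit 0, nat_lit 10, [nat_lit 0, nat_lit 5, nat_lit 5, nat_lit 20], false, nat_lit 0, nat_lit 0, nat_lit 0, nat_lit 0, ⟨nat_lit 307, nat_lit 693, nat_lit 0, nat_lit 6, nat_lit 292, nat_lit 0, nat_lit 0, nat_lit 0, nat_lit 0, nat_lit 0, nat_lit 0, nat_lit 0, nat_lit 43720890, nat_lit 23279110, nat_lit 0, nat_lit 3229266, true, true⟩,
 nat_lit 4963, nat_lit 0, nat_lit 0, nat_lit 0, nat_lit 3418, nat_lit 2627, nat_lit 221, nat_lit 0, nat_lit 0, nat_lit 225, nat_lit 0, nat_lit 0, nat_lit 0, nat_lit 0, nat_lit 0, nat_lit 370800, nat_lit 0, nat_lit 0, [(nat_lit 21, [(nat_lit 1, nat_lit 537), (nat_lit 2, nat_lit 156)])],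
 ⟨p019_k4, nat_lit 0, nat_lit 0, nat_lit 342, nat_lit 0, nat_lit 516738, [nat_lit 1570153600, nat_lit 2218323201, nat_lit 2543237200], [], [nat_lit 26579469145, nat_lit 26972836487, nat_lit 30838005578, nat_lit 31136269243], nat_lit 1271250, nat_lit 1271250, nat_lit 1271250, nat_lit 1271250, nat_lit 0, nat_lit 0, [nat_lit 490000, nat_lit 1100000, nat_lit 1442500], [nat_lit 6, nat_lit 40, nat_lit 80, nat_lit 80, nat_lit 3, nat_lit 203, nat_lit 0, nat_lit 7]⟩, ⟨p019_k1, nat_lit 0, nat_lit 0, nat_lit 653, nat_lit 0, nat_lit 846948, [nat_lit 1439216000, nat_lit 2446176000, nat_lit 3644704000], [], [nat_lit 11911953448, nat_lit 11974166990, nat_lit 12787581816, nat_lit 12821079751], nat_lit 1271250, nat_lit 1271250, nat_lit 1271250, nat_lit 1271250, nat_lit 0, nat_lit 0, [nat_lit 1100000, nat_lit 1785000, nat_lit 1271250], [nat_lit 21, nat_lit 40, nat_lit 80, nat_lit 80, nat_lit 14, nat_lit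 401, nat_lit 175, nat_lit 10]⟩,
 ⟨nat_lit 3535, nat_lit 3873, ⟨.ofNat (nat_lit 608101), .ofNat (nat_lit 833932), .ofNat (nat_lit 629888), .ofNat (nat_lit 855725), .ofNat (nat_lit 606659), .ofNat (nat_lit 826330), .ofNat (nat_lit 628606), .ofNat (nat_lit 848283)⟩, ⟨.ofNat (nat_lit 0), .ofNat (nat_lit 0), .ofNat (nat_lit 0), .ofNat (nat_lit 0), .ofNat (nat_lit 0), .ofNat (nat_lit 0), .ofNat (nat_lit 0), .ofNat (nat_lit 0)⟩⟩, [⟨nat_lit 13, nat_lit 71, nat_lit 55, nat_lit 100, nat_lit 2876270⟩]⟩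
noncomputable def p019_l16 : Lf2 := ⟨nat_lit 0, nat_lit 10, [nat_lit 0, nat_lit 5, nat_lit 5, nat_lit 20], false, nat_lit 0, nat_lit 0, nat_lit 0, nat_lit 0, ⟨nat_lit 281, nat_lit 719, nat_lit 0, nat_lit 6, nat_lit 288, nat_lit 0, nat_lit 0, nat_lit 0, nat_lit 0, nat_lit 0, nat_lit 0, nat_lit 0, nat_lit 44165149, nat_lit 22834851, nat_lit 0, nat_lit 3207884, true, true⟩,
 nat_lit 4094, nat_lit 0, nat_lit 0, nat_lit 0, nat_lit 3438, nat_lit 2167, nat_lit 152, nat_lit 0, nat_lit 0, nat_lit 211, nat_lit 0, nat_lit 0, nat_lit 0, nat_lit 0, nat_lit 0, nat_lit 287600, nat_lit 0, nat_lit 0, [(nat_lit 21, [(nat_lit 1, nat_lit 719)])],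
 ⟨p019_k5, nat_lit 0, nat_lit 0, nat_lit 311, nat_lit 0, nat_lit 541046, [nat_lit 1545380800, nat_lit 2384324000], [], [nat_lit 26362712264, nat_lit 26821816808, nat_lit 30888009882, nat_lit 31254481903], nat_lit 1271250, nat_lit 1271250, nat_lit 1271250, nat_lit 1271250, nat_lit 0, nat_lit 0, [nat_lit 490000, nat_lit 1100000], [nat_lit 24, nat_lit 40, nat_lit 80, nat_lit 80, nat_lit 33, nat_lit 203, nat_lit 0, nat_lit 8]⟩, ⟨p019_k1, nat_lit 0, nat_lit 0, nat_lit 682, nat_lit 0, nat_lit 924598, [nat_lit 1317328000, nat_lit 2239008000, nat_lit 3336032000], [], [nat_lit 11576079288, nat_lit 11637840794, nat_lit 12326174084, nat_lit 12367030358], nat_lit 1271250, nat_lit 1271250, nat_lit 1271250, nat_lit 1271250, nat_lit 0, nat_lit 0, [nat_lit 1100000, nat_lit 1785000, nat_lit 1271250], [nat_lit 21, nat_lit 40, nat_lit 80, nat_lit 80, nat_lit 14, nat_lit 401, nat_lit 175, nat_lit 10]⟩,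
 ⟨nat_lit 3162, nat_lit 3536, ⟨.ofNat (nat_lit 606660), .ofNat (nat_lit 813778), .ofNat (nat_lit 628604), .ofNat (nat_lit 835730), .ofNat (nat_lit 605256), .ofNat (nat_lit 806408), .ofNat (nat_lit 627403), .ofNat (nat_lit 828563)⟩, ⟨.ofNat (nat_lit 0), .ofNat (nat_lit 0), .ofNat (nat_lit 0), .ofNat (nat_lit 0), .ofNat (nat_lit 0), .ofNat (nat_lit 0), .ofNat (nat_lit 0), .ofNat (nat_lit 0)⟩⟩, [⟨nat_lit 13, nat_lit 65, nat_lit 61, nat_lit 100, nat_lit 52727991⟩]⟩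
noncomputable def p019_l17 : Lf2 := ⟨nat_lit 0, nat_lit 10, [nat_lit 0, nat_lit 5, nat_lit 5, nat_lit 20], false, nat_lit 0, nat_lit 0, nat_lit 0, nat_lit 0, ⟨nat_lit 1000, nat_lit 0, nat_lit 0, nat_lit 0, nat_lit 0, nat_lit 0, nat_lit 0, nat_lit 0, nat_lit 0, nat_lit 0, nat_lit 0, nat_lit 0, nat_lit 0, nat_lit 0, nat_lit 0, nat_lit 0, false, false⟩,
 nat_lit 6278, nat_lit 0, nat_lit 5883, nat_lit 0, nat_lit 5082, nat_lit 7078, nat_lit 641, nat_lit 0, nat_lit 0, nat_lit 1451, nat_lit 0, nat_lit 0, nat_lit 0, nat_lit 0, nat_lit 0, nat_lit 0, nat_lit 0, nat_lit 0, [],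
 ⟨p019_k4, nat_lit 0, nat_lit 0, nat_lit 372, nat_lit 0, nat_lit 603653, [nat_lit 2032000001, nat_lit 4688000000, nat_lit 6250000000], [], [nat_lit 27139183759, nat_lit 28060100075, nat_lit 35772372500, nat_lit 37081542623], nat_lit 1271250, nat_lit 1271250, nat_lit 1271250, nat_lit 1271250, nat_lit 0, nat_lit 0, [nat_lit 490000, nat_lit 1100000, nat_lit 1442500], [nat_lit 6, nat_lit 40, nat_lit 80, nat_lit 80, nat_lit 3, nat_lit 203, nat_lit 0, nat_lit 7]⟩, ⟨p019_k3, nat_lit 0, nat_lit 0, nat_lit 594, nat_lit 0, nat_lit 883859, [nat_lit 4688000000, nat_lit 7968000000, nat_lit 9842000000], [], [nat_lit 33358359172, nat_lit 33714451328, nat_lit 36898951994, nat_lit 37124037848], nat_lit 1271250, nat_lit 1271250, nat_lit 1271250, nat_lit 1271250, nat_lit 0, nat_lit 0, [nat_lit 1100000, nat_lit 1785000, nat_lit 1271250], [nat_lit 29, nat_lit 40, nat_lit 80, nat_lit 80, nat_lit 17, nat_lit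 401, nat_lit 175, nat_lit 11]⟩,
 zbF0, []⟩
noncomputable def p019_l18 : Lf2 := ⟨nat_lit 0, nat_lit 10, [nat_lit 0, nat_lit 5, nat_lit 5, nat_lit 20], false, nat_lit 0, nat_lit 0, nat_lit 0, nat_lit 0, ⟨nat_lit 146, nat_lit 854, nat_lit 0, nat_lit 6, nat_lit 194, nat_lit 0, nat_lit 0, nat_lit 0, nat_lit 0, nat_lit 0, nat_lit 0, nat_lit 0, nat_lit 0, nat_lit 0, nat_lit 0, nat_lit 5000000, false, false⟩,
 nat_lit 0, nat_lit 6097, nat_lit 0, nat_lit 0, nat_lit 4572, nat_lit 941, nat_lit 0, nat_lit 0, nat_lit 0, nat_lit 182, nat_lit 0, nat_lit 0, nat_lit 0, nat_lit 0, nat_lit 0, nat_lit 854000, nat_lit 0, nat_lit 0, [(nat_lit 18, [(nat_lit 2, nat_lit 854)])],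
 ⟨p019_k0, nat_lit 0, nat_lit 0, nat_lit 540, nat_lit 0, nat_lit 948286, [nat_lit 1750066134, nat_lit 1577162667, nat_lit 534007200], [], [nat_lit 21197121874, nat_lit 21625012535, nat_lit 22859866607, nat_lit 23283544339], nat_lit 1271250, nat_lit 1271250, nat_lit 382400, nat_lit 1731000, nat_lit 0, nat_lit 0, [nat_lit 490000, nat_lit 1100000, nat_lit 1442500], [nat_lit 6, nat_lit 40, nat_lit 80, nat_lit 80, nat_lit 3, nat_lit 272, nat_lit 60, nat_lit 10]⟩, ⟨p019_k1, nat_lit 0, nat_lit 0, nat_lit 253, nat_lit 0, nat_lit 0, [nat_lit 684448000, nat_lit 1163328000, nat_lit 1733312000], [], [nat_lit 3616683977, nat_lit 3984908980, nat_lit 3849800916, nat_lit 4109542532], nat_lit 0, nat_lit 0, nat_lit 0, nat_lit 0, nat_lit 0, nat_lit 0, [], [nat_lit 21, nat_lit 40, nat_lit 80, nat_lit 80, nat_lit 14, nat_lit 373, nat_lit 150, nat_lit 10]⟩,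
 ⟨nat_lit 4183, nat_lit 4473, ⟨.ofNat (nat_lit 311996), .ofNat (nat_lit 611104), .ofNat (nat_lit 355120), .ofNat (nat_lit 654228), .ofNat (nat_lit 318053), .ofNat (nat_lit 609582), .ofNat (nat_lit 361378), .ofNat (nat_lit 652907)⟩, ⟨.ofNat (nat_lit 0), .ofNat (nat_lit 0), .ofNat (nat_lit 0), .ofNat (nat_lit 0), .ofNat (nat_lit 0), .ofNat (nat_lit 0), .ofNat (nat_lit 0), .ofNat (nat_lit 0)⟩⟩, []⟩
noncomputable def p019_l19 : Lf2 := ⟨nat_lit 0, nat_lit 10, [nat_lit 0, nat_lit 5, nat_lit 5, nat_lit 20], false, nat_lit 0, nat_lit 0, nat_lit 0, nat_lit 0, ⟨nat_lit 245, nat_lit 755, nat_lit 0, nat_lit 6, nat_lit 199, nat_lit 0, nat_lit 0, nat_lit 0, nat_lit 0, nat_lit 0, nat_lit 0, nat_lit 0, nat_lit 0, nat_lit 0, nat_lit 0, nat_lit 5000000, false, false⟩,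
 nat_lit 0, nat_lit 5450, nat_lit 0, nat_lit 0, nat_lit 4248, nat_lit 1592, nat_lit 1046, nat_lit 0, nat_lit 0, nat_lit 362, nat_lit 0, nat_lit 0, nat_lit 0, nat_lit 0, nat_lit 0, nat_lit 302000, nat_lit 0, nat_lit 0, [(nat_lit 18, [(nat_lit 1, nat_lit 755)])],
 ⟨p019_k2, nat_lit 0, nat_lit 0, nat_lit 546, nat_lit 0, nat_lit 980101, [nat_lit 1553430667, nat_lit 2633393334, nat_lit 3011654000], [], [nat_lit 21318049158, nat_lit 21728932567, nat_lit 23318728972, nat_lit 23691331260], nat_lit 1271250, nat_lit 1271250, nat_lit 462650, nat_lit 1737750, nat_lit 0, nat_lit 0, [nat_lit 490000, nat_lit 1100000, nat_lit 1442500], [nat_lit 6, nat_lit 40, nat_lit 80, nat_lit 80, nat_lit 3, nat_lit 272, nat_lit 60, nat_lit 10]⟩, ⟨p019_k1, nat_lit 0, nat_lit 0, nat_lit 239, nat_lit 0, nat_lit 0, [nat_lit 1148560000, nat_lit 1952160000, nat_lit 2908640000], [], [nat_lit 5535131153, nat_lit 6128138320,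 nat_lit 6316009520, nat_lit 6879939924], nat_lit 0, nat_lit 0, nat_lit 0, nat_lit 0, nat_lit 0, nat_lit 0, [], [nat_lit 21, nat_lit 40, nat_lit 80, nat_lit 80, nat_lit 14, nat_lit 373, nat_lit 150, nat_lit 10]⟩,
 ⟨nat_lit 3872, nat_lit 4184, ⟨.ofNat (nat_lit 337921), .ofNat (nat_lit 609582), .ofNat (nat_lit 381245), .ofNat (nat_lit 652906), .ofNat (nat_lit 343550), .ofNat (nat_lit 608101), .ofNat (nat_lit 387127), .ofNat (nat_lit 651678)⟩, ⟨.ofNat (nat_lit 0), .ofNat (nat_lit 0), .ofNat (nat_lit 0), .ofNat (nat_lit 0), .ofNat (nat_lit 0), .ofNat (nat_lit 0), .ofNat (nat_lit 0), .ofNat (nat_lit 0)⟩⟩, [⟨nat_lit 0, nat_lit 99, nat_lit 77, nat_lit 100, nat_lit 22436452⟩]⟩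
noncomputable def p019_l20 : Lf2 := ⟨nat_lit 0, nat_lit 10, [nat_lit 0, nat_lit 5, nat_lit 5, nat_lit 20], false, nat_lit 0, nat_lit 0, nat_lit 0, nat_lit 0, ⟨nat_lit 769, nat_lit 231, nat_lit 0, nat_lit 6, nat_lit 204, nat_lit 0, nat_lit 0, nat_lit 0, nat_lit 0, nat_lit 0, nat_lit 0, nat_lit 0, nat_lit 0, nat_lit 0, nat_lit 0, nat_lit 5000000, false, false⟩,
 nat_lit 0, nat_lit 5811, nat_lit 0, nat_lit 0, nat_lit 4703, nat_lit 5054, nat_lit 680, nat_lit 0, nat_lit 0, nat_lit 793, nat_lit 0, nat_lit 0, nat_lit 0, nat_lit 0, nat_lit 0, nat_lit 231000, nat_lit 0, nat_lit 0, [(nat_lit 21, [(nat_lit 2, nat_lit 231)])],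
 ⟨p019_k4, nat_lit 0, nat_lit 0, nat_lit 597, nat_lit 0, nat_lit 1089699, [nat_lit 1886285201, nat_lit 3571715601, nat_lit 4544573200], [], [nat_lit 24017423694, nat_lit 24919648723, nat_lit 25730298487, nat_lit 26453398109], nat_lit 1271250, nat_lit 1271250, nat_lit 545600, nat_lit 1744500, nat_lit 0, nat_lit 0, [nat_lit 490000, nat_lit 1100000, nat_lit 1442500], [nat_lit 6, nat_lit 40, nat_lit 80, nat_lit 80, nat_lit 3, nat_lit 272, nat_lit 60, nat_lit 10]⟩, ⟨p019_k1, nat_lit 0, nat_lit 0, nat_lit 231, nat_lit 0, nat_lit 0, [nat_lit 3605072000, nat_lit 6127392000, nat_lit 9129568000], [], [nat_lit 19469047255, nat_lit 21315500115, nat_lit 21295847104, nat_lit 22771261524], nat_lit 0, nat_lit 0, nat_lit 0, nat_lit 0, nat_lit 0, nat_lit 0, [], [nat_lit 21, nat_lit 40, nat_lit 80, nat_lit 80, nat_lit 14, nat_lit 373, nat_lit 150, nat_lit 10]⟩,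
 ⟨nat_lit 3162, nat_lit 3873, ⟨.ofNat (nat_lit 362778), .ofNat (nat_lit 608082), .ofNat (nat_lit 406307), .ofNat (nat_lit 651611), .ofNat (nat_lit 373492), .ofNat (nat_lit 605237), .ofNat (nat_lit 417744), .ofNat (nat_lit 649490)⟩, ⟨.ofNat (nat_lit 0), .ofNat (nat_lit 0), .ofNat (nat_lit 0), .ofNat (nat_lit 0), .ofNat (nat_lit 0), .ofNat (nat_lit 0), .ofNat (nat_lit 0), .ofNat (nat_lit 0)⟩⟩, [⟨nat_lit 0, nat_lit 94, nat_lit 62, nat_lit 100, nat_lit 472223215⟩]⟩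
noncomputable def p019_l21 : Lf2 := ⟨nat_lit 0, nat_lit 10, [nat_lit 0, nat_lit 5, nat_lit 5, nat_lit 20], false, nat_lit 0, nat_lit 0, nat_lit 0, nat_lit 0, ⟨nat_lit 1000, nat_lit 0, nat_lit 0, nat_lit 0, nat_lit 0, nat_lit 0, nat_lit 0, nat_lit 0, nat_lit 0, nat_lit 0, nat_lit 0, nat_lit 0, nat_lit 0, nat_lit 0, nat_lit 0, nat_lit 0, false, false⟩,
 nat_lit 0, nat_lit 8151, nat_lit 0, nat_lit 0, nat_lit 6113, nat_lit 6292, nat_lit 455, nat_lit 0, nat_lit 0, nat_lit 1026, nat_lit 0, nat_lit 0, nat_lit 0, nat_lit 0, nat_lit 0, nat_lit 0, nat_lit 0, nat_lit 0, [],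
 ⟨p019_k0, nat_lit 0, nat_lit 0, nat_lit 531, nat_lit 0, nat_lit 1032364, [nat_lit 2032000001, nat_lit 4688000000, nat_lit 6250000000], [], [nat_lit 34164595028, nat_lit 34867482762, nat_lit 38848606810, nat_lit 39389352478], nat_lit 1271250, nat_lit 1271250, nat_lit 1271250, nat_lit 1271250, nat_lit 0, nat_lit 0, [nat_lit 490000, nat_lit 1100000, nat_lit 1442500], [nat_lit 6, nat_lit 40, nat_lit 80, nat_lit 80, nat_lit 3, nat_lit 225, nat_lit 0, nat_lit 8]⟩, ⟨p019_k1, nat_lit 0, nat_lit 0, nat_lit 249, nat_lit 0, nat_lit 0, [nat_lit 4688000000, nat_lit 7968000000, nat_lit 11872000000], [], [nat_lit 27971378152, nat_lit 29733755432, nat_lit 37442749132, nat_lit 38548279122], nat_lit 0, nat_lit 0, nat_lit 0, nat_lit 0, nat_lit 0, nat_lit 0, [], [nat_lit 21, nat_lit 40, nat_lit 80, nat_lit 80, nat_lit 14, nat_lit 401, nat_lit 175, nat_lit 10]⟩,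
 zbF0, []⟩
noncomputable def p019_l22 : Lf2 := ⟨nat_lit 0, nat_lit 10, [nat_lit 0, nat_lit 5, nat_lit 5, nat_lit 20], false, nat_lit 0, nat_lit 0, nat_lit 0, nat_lit 0, ⟨nat_lit 1000, nat_lit 0, nat_lit 0, nat_lit 0, nat_lit 0, nat_lit 0, nat_lit 0, nat_lit 0, nat_lit 0, nat_lit 0, nat_lit 0, nat_lit 0, nat_lit 0, nat_lit 0, nat_lit 0, nat_lit 0, false, false⟩,
 nat_lit 0, nat_lit 5461, nat_lit 0, nat_lit 0, nat_lit 4420, nat_lit 6463, nat_lit 864, nat_lit 0, nat_lit 0, nat_lit 665, nat_lit 0, nat_lit 0, nat_lit 0, nat_lit 0, nat_lit 0, nat_lit 0, nat_lit 0, nat_lit 0, [],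
 ⟨p019_k4, nat_lit 0, nat_lit 0, nat_lit 551, nat_lit 0, nat_lit 1089699, [nat_lit 2032000001, nat_lit 4688000000, nat_lit 6250000000], [], [nat_lit 30599194925, nat_lit 31306086005, nat_lit 34610410383, nat_lit 35140367713], nat_lit 1271250, nat_lit 1271250, nat_lit 1271250, nat_lit 1271250, nat_lit 0, nat_lit 0, [nat_lit 490000, nat_lit 1100000, nat_lit 1442500], [nat_lit 6, nat_lit 40, nat_lit 80, nat_lit 80, nat_lit 3, nat_lit 232, nat_lit 0, nat_lit 8]⟩, ⟨p019_k1, nat_lit 0, nat_lit 0, nat_lit 246, nat_lit 0, nat_lit 0, [nat_lit 4688000000, nat_lit 7968000000, nat_lit 11872000000], [], [nat_lit 30227763128, nat_lit 32008752048, nat_lit 39449871575, nat_lit 40610726108], nat_lit 0, nat_lit 0, nat_lit 0, nat_lit 0, nat_lit 0, nat_lit 0, [], [nat_lit 21, nat_lit 40, nat_lit 80, nat_lit 80, nat_lit 14, nat_lit 401, nat_lit 175, nat_lit 10]⟩,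
 zbF0, []⟩
noncomputable def p019_l23 : Lf2 := ⟨nat_lit 0, nat_lit 10, [nat_lit 0, nat_lit 5, nat_lit 5, nat_lit 20], false, nat_lit 0, nat_lit 0, nat_lit 0, nat_lit 0, ⟨nat_lit 264, nat_lit 736, nat_lit 0, nat_lit 6, nat_lit 240, nat_lit 0, nat_lit 0, nat_lit 0, nat_lit 0, nat_lit 0, nat_lit 0, nat_lit 0, nat_lit 0, nat_lit 0, nat_lit 0, nat_lit 5000000, false, true⟩,
 nat_lit 4457, nat_lit 497, nat_lit 0, nat_lit 0, nat_lit 3715, nat_lit 2359, nat_lit 6, nat_lit 0, nat_lit 0, nat_lit 40, nat_lit 0, nat_lit 0, nat_lit 0, nat_lit 0, nat_lit 0, nat_lit 604600, nat_lit 0, nat_lit 0, [(nat_lit 18, [(nat_lit 1, nat_lit 219), (nat_lit 2, nat_lit 517)]), (nat_lit 21, [(nat_lit 1, nat_lit 219), (nat_lit 2, nat_lit 517)])],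
 ⟨p019_k0, nat_lit 0, nat_lit 0, nat_lit 414, nat_lit 0, nat_lit 615314, [nat_lit 1722504267, nat_lit 2208769334, nat_lit 1850280800], [], [nat_lit 25684110842, nat_lit 27506115645, nat_lit 34020628779, nat_lit 33331931271], nat_lit 1271250, nat_lit 1271250, nat_lit 382400, nat_lit 2895700, nat_lit 0, nat_lit 0, [nat_lit 490000, nat_lit 1100000, nat_lit 1442500], [nat_lit 6, nat_lit 40, nat_lit 80, nat_lit 80, nat_lit 3, nat_lit 317, nat_lit 100, nat_lit 12]⟩, ⟨p019_k1, nat_lit 0, nat_lit 0, nat_lit 755, nat_lit 0, nat_lit 924598, [nat_lit 1237632000, nat_lit 2103552000, nat_lit 3134208000], [], [nat_lit 13237212316, nat_lit 13189170957, nat_lit 14235441732, nat_lit 13178325122], nat_lit 1271250, nat_lit 1271250, nat_lit 382400, nat_lit 2895700, nat_lit 0, nat_lit 0, [nat_lit 1100000, nat_lit 1785000, nat_lit 1271250], [nat_lit 21, nat_lit 40, nat_lit 80, nat_lit 80, nat_lit 14, nat_lit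 401, nat_lit 175, nat_lit 11]⟩,
 ⟨nat_lit 3162, nat_lit 4473, ⟨.ofNat (nat_lit 311562), .ofNat (nat_lit 869427), .ofNat (nat_lit 333038), .ofNat (nat_lit 890989), .ofNat (nat_lit 336623), .ofNat (nat_lit 836884), .ofNat (nat_lit 358687), .ofNat (nat_lit 859035)⟩, ⟨.ofNat (nat_lit 0), .ofNat (nat_lit 0), .ofNat (nat_lit 0), .ofNat (nat_lit 0), .ofNat (nat_lit 0), .ofNat (nat_lit 0), .ofNat (nat_lit 0), .ofNat (nat_lit 0)⟩⟩, []⟩
noncomputable def p019_l24 : Lf2 := ⟨nat_lit 0, nat_lit 10, [nat_lit 0, nat_lit 5, nat_lit 5, nat_lit 20], false, nat_lit 0, nat_lit 0, nat_lit 0, nat_lit 0, ⟨nat_lit 435, nat_lit 565, nat_lit 0, nat_lit 6, nat_lit 256, nat_lit 0, nat_lit 0, nat_lit 0, nat_lit 0, nat_lit 0, nat_lit 0, nat_lit 0, nat_lit 0, nat_lit 0, nat_lit 0, nat_lit 5000000, false, false⟩,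
 nat_lit 5460, nat_lit 0, nat_lit 0, nat_lit 0, nat_lit 4094, nat_lit 3178, nat_lit 142, nat_lit 0, nat_lit 0, nat_lit 0, nat_lit 0, nat_lit 0, nat_lit 0, nat_lit 0, nat_lit 0, nat_lit 565000, nat_lit 0, nat_lit 0, [(nat_lit 18, [(nat_lit 2, nat_lit 565)])],
 ⟨p019_k0, nat_lit 0, nat_lit 0, nat_lit 360, nat_lit 0, nat_lit 563108, [nat_lit 1845474667, nat_lit 2629893334, nat_lit 2468342000], [], [nat_lit 25048581841, nat_lit 26000922859, nat_lit 34068534279, nat_lit 33582606204], nat_lit 1271250, nat_lit 1271250, nat_lit 490000, nat_lit 2958750, nat_lit 0, nat_lit 0, [nat_lit 490000, nat_lit 1100000, nat_lit 1442500], [nat_lit 6, nat_lit 40, nat_lit 80, nat_lit 80, nat_lit 3, nat_lit 317, nat_lit 100, nat_lit 12]⟩, ⟨p019_k3, nat_lit 0, nat_lit 0, nat_lit 596, nat_lit 0, nat_lit 755887, [nat_lit 2039280000, nat_lit 3466080000, nat_lit 4281270000], [], [nat_lit 19605379104, nat_lit 19802471508,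 nat_lit 22187825014, nat_lit 21159627264], nat_lit 1271250, nat_lit 1271250, nat_lit 490000, nat_lit 2958750, nat_lit 0, nat_lit 0, [nat_lit 1100000, nat_lit 1785000, nat_lit 1271250], [nat_lit 29, nat_lit 40, nat_lit 80, nat_lit 80, nat_lit 17, nat_lit 401, nat_lit 175, nat_lit 12]⟩,
 ⟨nat_lit 3872, nat_lit 4473, ⟨.ofNat (nat_lit 360688), .ofNat (nat_lit 897773), .ofNat (nat_lit 382237), .ofNat (nat_lit 919326), .ofNat (nat_lit 371739), .ofNat (nat_lit 881516), .ofNat (nat_lit 393514), .ofNat (nat_lit 903295)⟩, ⟨.ofNat (nat_lit 0), .ofNat (nat_lit 0), .ofNat (nat_lit 0), .ofNat (nat_lit 0), .ofNat (nat_lit 0), .ofNat (nat_lit 0), .ofNat (nat_lit 0), .ofNat (nat_lit 0)⟩⟩, []⟩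
noncomputable def p019_l25 : Lf2 := ⟨nat_lit 0, nat_lit 10, [nat_lit 0, nat_lit 5, nat_lit 5, nat_lit 20], false, nat_lit 0, nat_lit 0, nat_lit 0, nat_lit 0, ⟨nat_lit 423, nat_lit 577, nat_lit 0, nat_lit 6, nat_lit 260, nat_lit 0, nat_lit 0, nat_lit 0, nat_lit 0, nat_lit 0, nat_lit 0, nat_lit 0, nat_lit 0, nat_lit 0, nat_lit 0, nat_lit 5000000, false, false⟩,
 nat_lit 4473, nat_lit 0, nat_lit 0, nat_lit 0, nat_lit 3620, nat_lit 2603, nat_lit 315, nat_lit 0, nat_lit 0, nat_lit 134, nat_lit 0, nat_lit 0, nat_lit 0, nat_lit 0, nat_lit 0, nat_lit 230800, nat_lit 0, nat_lit 0, [(nat_lit 21, [(nat_lit 1, nat_lit 577)])],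
 ⟨p019_k4, nat_lit 0, nat_lit 0, nat_lit 376, nat_lit 0, nat_lit 603653, [nat_lit 1641486401, nat_lit 2844369600, nat_lit 3504634000], [], [nat_lit 25495493471, nat_lit 26471001408, nat_lit 32180578937, nat_lit 32792098679], nat_lit 1271250, nat_lit 1271250, nat_lit 660400, nat_lit 2943050, nat_lit 0, nat_lit 0, [nat_lit 490000, nat_lit 1100000, nat_lit 1442500], [nat_lit 6, nat_lit 40, nat_lit 80, nat_lit 80, nat_lit 3, nat_lit 317, nat_lit 100, nat_lit 12]⟩, ⟨p019_k3, nat_lit 0, nat_lit 0, nat_lit 639, nat_lit 0, nat_lit 883859, [nat_lit 1983024000, nat_lit 3370464000, nat_lit 4163166000], [], [nat_lit 19433878179, nat_lit 19615723061, nat_lit 21454514961, nat_lit 20874849958], nat_lit 1271250, nat_lit 1271250, nat_lit 660400, nat_lit 2943050, nat_lit 0, nat_lit 0, [nat_lit 1100000, nat_lit 1785000, nat_lit 1271250], [nat_lit 29, nat_lit 40, nat_lit 80, nat_lit 80, nat_lit 17, nat_lit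 401, nat_lit 175, nat_lit 12]⟩,
 ⟨nat_lit 3162, nat_lit 3873, ⟨.ofNat (nat_lit 410364), .ofNat (nat_lit 868630), .ofNat (nat_lit 432129), .ofNat (nat_lit 890423), .ofNat (nat_lit 420013), .ofNat (nat_lit 852944), .ofNat (nat_lit 442139), .ofNat (nat_lit 875099)⟩, ⟨.ofNat (nat_lit 0), .ofNat (nat_lit 0), .ofNat (nat_lit 0), .ofNat (nat_lit 0), .ofNat (nat_lit 0), .ofNat (nat_lit 0), .ofNat (nat_lit 0), .ofNat (nat_lit 0)⟩⟩, [⟨nat_lit 13, nat_lit 63, nat_lit 61, nat_lit 100, nat_lit 10967420⟩]⟩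
noncomputable def b_N_800_600_0_3 : St := ⟨false, nat_lit 1, nat_lit 2, nat_lit 0, nat_lit 40, nat_lit 320, nat_lit 360, nat_lit 240, nat_lit 280, nat_lit 64, nat_lit 396, nat_lit 0, nat_lit 0, nat_lit 0, nat_lit 0, nat_lit 0, nat_lit 0, nat_lit 40, nat_lit 80, nat_lit 0, nat_lit 0, nat_lit 0, nat_lit 0⟩
theorem d_N_800_600_0_3 (h : EB TB.env) : Dead b_N_800_600_0_3 := chkB_sound0 h (T :=
(.gv
(.st (nat_lit 1)
(.spl (nat_lit 0) (nat_lit 340)
(.spl (nat_lit 2) (nat_lit 120)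
(.spl (nat_lit 1) (nat_lit 260)
(.spl (nat_lit 0) (nat_lit 330)
(.leaf p019_l0)
(.trZ (nat_lit 0) (nat_lit 100) (nat_lit 78) (nat_lit 81) (nat_lit 76) (.leaf p019_l1)))
(.trZ (nat_lit 0) (nat_lit 100) (nat_lit 84) (nat_lit 85) (nat_lit 80) (.spl (nat_lit 0) (nat_lit 330)
(.leaf p019_l2)
(.trZ (nat_lit 0) (nat_lit 100) (nat_lit 80) (nat_lit 89) (nat_lit 92) (.leaf p019_l3)))))
(.spl (nat_lit 0) (nat_lit 330)
(.spl (nat_lit 1) (nat_lit 260)
(.trX (nat_lit 13) (nat_lit 84) (nat_lit 35) (nat_lit 100) (nat_lit 392) (.leaf p019_l4))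
(.leaf p019_l5))
(.trX (nat_lit 13) (nat_lit 83) (nat_lit 32) (nat_lit 100) (nat_lit 392) (.leaf p019_l6))))
(.trZ (nat_lit 0) (nat_lit 100) (nat_lit 73) (nat_lit 85) (nat_lit 88) (.trX (nat_lit 13) (nat_lit 78) (nat_lit 39) (nat_lit 100) (nat_lit 388) (.leaf p019_l7))))
(.spl (nat_lit 2) (nat_lit 240)
(.spl (nat_lit 2) (nat_lit 160)
(.spl (nat_lit 0) (nat_lit 340)
(.leaf p019_l8)
(.trZ (nat_lit 0) (nat_lit 100) (nat_lit 73) (nat_lit 85) (nat_lit 88) (.leaf p019_l9)))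
(.leaf p019_l10))
(.spl (nat_lit 0) (nat_lit 340)
(.spl (nat_lit 1) (nat_lit 260)
(.trX (nat_lit 13) (nat_lit 84) (nat_lit 35) (nat_lit 100) (nat_lit 392) (.spl (nat_lit 2) (nat_lit 320)
(.leaf p019_l11)
(.spl (nat_lit 0) (nat_lit 330)
(.leaf p019_l12)
(.trX (nat_lit 13) (nat_lit 80) (nat_lit 41) (nat_lit 100) (nat_lit 384) (.leaf p019_l13)))))
(.leaf p019_l14))
(.trX (nat_lit 13) (nat_lit 78) (nat_lit 39) (nat_lit 100) (nat_lit 388) (.spl (nat_lit 1) (nat_lit 260)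
(.trX (nat_lit 13) (nat_lit 75) (nat_lit 48) (nat_lit 100) (nat_lit 380) (.spl (nat_lit 0) (nat_lit 350)
(.leaf p019_l15)
(.trX (nat_lit 13) (nat_lit 69) (nat_lit 54) (nat_lit 100) (nat_lit 372) (.leaf p019_l16))))
(.leaf p019_l17))))))
(.st (nat_lit 1)
(.spl (nat_lit 2) (nat_lit 240)
(.spl (nat_lit 0) (nat_lit 340)
(.spl (nat_lit 0) (nat_lit 330)
(.leaf p019_l18)
(.trZ (nat_lit 0) (nat_lit 100) (nat_lit 78) (nat_lit 81) (nat_lit 76) (.leaf p019_l19)))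
(.trZ (nat_lit 0) (nat_lit 100) (nat_lit 73) (nat_lit 85) (nat_lit 88) (.leaf p019_l20)))
(.spl (nat_lit 0) (nat_lit 340)
(.leaf p019_l21)
(.trX (nat_lit 13) (nat_lit 78) (nat_lit 39) (nat_lit 100) (nat_lit 388) (.leaf p019_l22))))
(.spl (nat_lit 1) (nat_lit 260)
(.trX (nat_lit 13) (nat_lit 84) (nat_lit 35) (nat_lit 100) (nat_lit 392) (.leaf p019_l23))
(.trZ (nat_lit 0) (nat_lit 100) (nat_lit 84) (nat_lit 85) (nat_lit 80) (.spl (nat_lit 0) (nat_lit 340)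
(.leaf p019_l24)
(.trZ (nat_lit 0) (nat_lit 100) (nat_lit 75) (nat_lit 92) (nat_lit 104) (.trX (nat_lit 13) (nat_lit 78) (nat_lit 39) (nat_lit 100) (nat_lit 388) (.leaf p019_l25))))))))) (by decide +kernel)
noncomputable def p019_l26 : Lf2 := ⟨nat_lit 0, nat_lit 10, [nat_lit 0, nat_lit 5, nat_lit 5, nat_lit 20], false, nat_lit 0, nat_lit 0, nat_lit 0, nat_lit 0, ⟨nat_lit 1000, nat_lit 0, nat_lit 0, nat_lit 0, nat_lit 0, nat_lit 0, nat_lit 0, nat_lit 0, nat_lit 0, nat_lit 0, nat_lit 0, nat_lit 0, nat_lit 0, nat_lit 0, nat_lit 0, nat_lit 0, false, false⟩,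
 nat_lit 0, nat_lit 0, nat_lit 0, nat_lit 0, nat_lit 6609, nat_lit 875, nat_lit 0, nat_lit 0, nat_lit 0, nat_lit 0, nat_lit 0, nat_lit 0, nat_lit 0, nat_lit 0, nat_lit 0, nat_lit 0, nat_lit 0, nat_lit 0, [],
 ⟨p019_k0, nat_lit 0, nat_lit 0, nat_lit 179, nat_lit 0, nat_lit 0, [nat_lit 2032000001, nat_lit 4688000000, nat_lit 6250000000], [], [nat_lit 25398981317, nat_lit 30114387143, nat_lit 39362387440, nat_lit 42270229742], nat_lit 0, nat_lit 0, nat_lit 0, nat_lit 0, nat_lit 0, nat_lit 0, [], [nat_lit 6, nat_lit 40, nat_lit 80, nat_lit 80, nat_lit 3, nat_lit 317, nat_lit 100, nat_lit 12]⟩, ⟨p019_k1, nat_lit 0, nat_lit 0, nat_lit 253, nat_lit 0, nat_lit 0, [nat_lit 4688000000, nat_lit 7968000000, nat_lit 11872000000], [], [nat_lit 35799133100, nat_lit 37182926100, nat_lit 44456441450, nat_lit 45386604475], nat_lit 0, nat_lit 0, nat_lit 0, nat_lit 0, nat_lit 0, nat_lit 0, [], [nat_lit 21,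 nat_lit 40, nat_lit 80, nat_lit 80, nat_lit 14, nat_lit 401, nat_lit 175, nat_lit 11]⟩,
 zbF0, [⟨nat_lit 0, nat_lit 100, nat_lit 82, nat_lit 76, nat_lit 211341516⟩]⟩
noncomputable def p019_l27 : Lf2 := ⟨nat_lit 0, nat_lit 10, [nat_lit 0, nat_lit 5, nat_lit 5, nat_lit 20], true, nat_lit 0, nat_lit 0, nat_lit 0, nat_lit 0, ⟨nat_lit 0, nat_lit 650, nat_lit 350, nat_lit 6, nat_lit 195, nat_lit 0, nat_lit 0, nat_lit 0, nat_lit 0, nat_lit 215, nat_lit 36668, nat_lit 200, nat_lit 54119310, nat_lit 12880690, nat_lit 0, nat_lit 2447337, false, false⟩,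
 nat_lit 0, nat_lit 0, nat_lit 0, nat_lit 0, nat_lit 3803, nat_lit 0, nat_lit 0, nat_lit 0, nat_lit 0, nat_lit 0, nat_lit 0, nat_lit 0, nat_lit 0, nat_lit 0, nat_lit 0, nat_lit 250000, nat_lit 0, nat_lit 0, [(nat_lit 18, [(nat_lit 0, nat_lit 650), (nat_lit 4, nat_lit 350)]), (nat_lit 21, [(nat_lit 0, nat_lit 650), (nat_lit 4, nat_lit 350)])],
 ⟨p019_k0, nat_lit 0, nat_lit 0, nat_lit 169, nat_lit 0, nat_lit 0, [nat_lit 1534320001, nat_lit 1352780000, nat_lit 1350440000], [], [nat_lit 18898655701, nat_lit 22685508027, nat_lit 21934747913, nat_lit 24666693324], nat_lit 0, nat_lit 0, nat_lit 0, nat_lit 0, nat_lit 0, nat_lit 0, [], [nat_lit 6, nat_lit 40, nat_lit 80, nat_lit 80, nat_lit 3, nat_lit 272, nat_lit 60, nat_lit 10]⟩, C1.Rw.none,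
 ⟨nat_lit 3162, nat_lit 4473, ⟨.ofNat (nat_lit 311562), .ofNat (nat_lit 611007), .ofNat (nat_lit 354514), .ofNat (nat_lit 653959), .ofNat (nat_lit 336623), .ofNat (nat_lit 605159), .ofNat (nat_lit 380752), .ofNat (nat_lit 649288)⟩, ⟨.ofNat (nat_lit 0), .ofNat (nat_lit 0), .ofNat (nat_lit 0), .ofNat (nat_lit 0), .ofNat (nat_lit 0), .ofNat (nat_lit 0), .ofNat (nat_lit 0), .ofNat (nat_lit 0)⟩⟩, []⟩
noncomputable def p019_l28 : Lf2 := ⟨nat_lit 0, nat_lit 10, [nat_lit 0, nat_lit 5, nat_lit 5, nat_lit 20], true, nat_lit 0, nat_lit 0, nat_lit 0, nat_lit 0, ⟨nat_lit 0, nat_lit 1000, nat_lit 0, nat_lit 6, nat_lit 265, nat_lit 0, nat_lit 0, nat_lit 0, nat_lit 0, nat_lit 0, nat_lit 0, nat_lit 0, nat_lit 46579514, nat_lit 20420486, nat_lit 0, nat_lit 3074313, true, false⟩,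
 nat_lit 0, nat_lit 0, nat_lit 0, nat_lit 636, nat_lit 3312, nat_lit 0, nat_lit 0, nat_lit 0, nat_lit 0, nat_lit 0, nat_lit 0, nat_lit 0, nat_lit 0, nat_lit 0, nat_lit 0, nat_lit 250000, nat_lit 0, nat_lit 0, [(nat_lit 18, [(nat_lit 0, nat_lit 1000)]), (nat_lit 21, [(nat_lit 0, nat_lit 1000)])],
 ⟨p019_k0, nat_lit 0, nat_lit 0, nat_lit 146, nat_lit 0, nat_lit 0, [nat_lit 1558400000, nat_lit 2168000000, nat_lit 2562000000], [], [nat_lit 22929682752, nat_lit 25466063456, nat_lit 24740402816, nat_lit 27141385808], nat_lit 0, nat_lit 0, nat_lit 0, nat_lit 0, nat_lit 0, nat_lit 0, [], [nat_lit 6, nat_lit 40, nat_lit 80, nat_lit 80, nat_lit 3, nat_lit 203, nat_lit 0, nat_lit 7]⟩, C1.Rw.none,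
 ⟨nat_lit 3162, nat_lit 4473, ⟨.ofNat (nat_lit 611007), .ofNat (nat_lit 679036), .ofNat (nat_lit 653959), .ofNat (nat_lit 722015), .ofNat (nat_lit 605159), .ofNat (nat_lit 666163), .ofNat (nat_lit 649288), .ofNat (nat_lit 710319)⟩, ⟨.ofNat (nat_lit 0), .ofNat (nat_lit 0), .ofNat (nat_lit 0), .ofNat (nat_lit 0), .ofNat (nat_lit 0), .ofNat (nat_lit 0), .ofNat (nat_lit 0), .ofNat (nat_lit 0)⟩⟩, []⟩
noncomputable def p019_l29 : Lf2 := ⟨nat_lit 0, nat_lit 10, [nat_lit 0, nat_lit 5, nat_lit 5, nat_lit 20], false, nat_lit 0, nat_lit 0, nat_lit 0, nat_lit 0, ⟨nat_lit 8, nat_lit 992, nat_lit 0, nat_lit 7, nat_lit 291, nat_lit 0, nat_lit 0, nat_lit 0, nat_lit 0, nat_lit 0, nat_lit 0, nat_lit 0, nat_lit 43847942, nat_lit 23152058, nat_lit 0, nat_lit 3223250, true, true⟩,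
 nat_lit 0, nat_lit 0, nat_lit 160, nat_lit 0, nat_lit 3271, nat_lit 84, nat_lit 0, nat_lit 0, nat_lit 0, nat_lit 3, nat_lit 0, nat_lit 0, nat_lit 0, nat_lit 0, nat_lit 0, nat_lit 248000, nat_lit 0, nat_lit 0, [(nat_lit 18, [(nat_lit 0, nat_lit 992)]), (nat_lit 21, [(nat_lit 0, nat_lit 992)])],
 ⟨p019_k6, nat_lit 0, nat_lit 0, nat_lit 140, nat_lit 0, nat_lit 0, [nat_lit 1562188800, nat_lit 2591504000], [], [nat_lit 25133442884, nat_lit 27277860214, nat_lit 26849802208, nat_lit 28812485016], nat_lit 0, nat_lit 0, nat_lit 0, nat_lit 0, nat_lit 0, nat_lit 0, [], [nat_lit 69, nat_lit 40, nat_lit 80, nat_lit 80, nat_lit 64, nat_lit 203, nat_lit 0, nat_lit 7]⟩, ⟨p019_k7, nat_lit 0, nat_lit 0, nat_lit 909, nat_lit 0, nat_lit 1450619, [nat_lit 37504000, nat_lit 78736000, nat_lit 94976000], [], [nat_lit 344334960, nat_lit 341356168, nat_lit 342728768, nat_lit 342620990], nat_lit 1271250, nat_lit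 1271250, nat_lit 1271250, nat_lit 1271250, nat_lit 0, nat_lit 0, [nat_lit 1100000, nat_lit 2127500, nat_lit 1271250], [nat_lit 125, nat_lit 40, nat_lit 80, nat_lit 80, nat_lit 41, nat_lit 373, nat_lit 150, nat_lit 9]⟩,
 ⟨nat_lit 3162, nat_lit 4473, ⟨.ofNat (nat_lit 679036), .ofNat (nat_lit 747055), .ofNat (nat_lit 722015), .ofNat (nat_lit 790054), .ofNat (nat_lit 666163), .ofNat (nat_lit 727157), .ofNat (nat_lit 710319), .ofNat (nat_lit 771333)⟩, ⟨.ofNat (nat_lit 0), .ofNat (nat_lit 0), .ofNat (nat_lit 0), .ofNat (nat_lit 0), .ofNat (nat_lit 0), .ofNat (nat_lit 0), .ofNat (nat_lit 0), .ofNat (nat_lit 0)⟩⟩, []⟩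
noncomputable def p019_l30 : Lf2 := ⟨nat_lit 0, nat_lit 10, [nat_lit 0, nat_lit 5, nat_lit 5, nat_lit 20], false, nat_lit 0, nat_lit 0, nat_lit 0, nat_lit 0, ⟨nat_lit 63, nat_lit 937, nat_lit 0, nat_lit 8, nat_lit 312, nat_lit 0, nat_lit 0, nat_lit 0, nat_lit 0, nat_lit 0, nat_lit 0, nat_lit 0, nat_lit 41630518, nat_lit 25369482, nat_lit 0, nat_lit 3316993, true, true⟩,
 nat_lit 0, nat_lit 0, nat_lit 1030, nat_lit 0, nat_lit 3901, nat_lit 545, nat_lit 0, nat_lit 0, nat_lit 0, nat_lit 44, nat_lit 0, nat_lit 0, nat_lit 0, nat_lit 0, nat_lit 0, nat_lit 234250, nat_lit 0, nat_lit 0, [(nat_lit 18, [(nat_lit 0, nat_lit 937)])],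
 ⟨p019_k0, nat_lit 0, nat_lit 0, nat_lit 162, nat_lit 0, nat_lit 0, [nat_lit 1564249600, nat_lit 2326760000, nat_lit 2794344000], [], [nat_lit 27670207620, nat_lit 28681467490, nat_lit 29764926014, nat_lit 30676644478], nat_lit 0, nat_lit 0, nat_lit 0, nat_lit 0, nat_lit 0, nat_lit 0, [], [nat_lit 6, nat_lit 40, nat_lit 80, nat_lit 80, nat_lit 3, nat_lit 203, nat_lit 0, nat_lit 6]⟩, ⟨p019_k1, nat_lit 0, nat_lit 0, nat_lit 615, nat_lit 0, nat_lit 826396, [nat_lit 295344000, nat_lit 501984000, nat_lit 747936000], [], [nat_lit 2522043448, nat_lit 2525264771, nat_lit 2584841876, nat_lit 2586361391], nat_lit 1271250, nat_lit 1271250, nat_lit 1271250, nat_lit 1271250, nat_lit 0, nat_lit 0, [nat_lit 1100000, nat_lit 1785000, nat_lit 1271250], [nat_lit 21, nat_lit 40, nat_lit 80, nat_lit 80, nat_lit 14, nat_lit 289, nat_lit 75, nat_lit 7]⟩,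
 ⟨nat_lit 3872, nat_lit 4473, ⟨.ofNat (nat_lit 747053), .ofNat (nat_lit 815035), .ofNat (nat_lit 757829), .ofNat (nat_lit 825812), .ofNat (nat_lit 737137), .ofNat (nat_lit 801662), .ofNat (nat_lit 748027), .ofNat (nat_lit 812552)⟩, ⟨.ofNat (nat_lit 0), .ofNat (nat_lit 0), .ofNat (nat_lit 0), .ofNat (nat_lit 0), .ofNat (nat_lit 0), .ofNat (nat_lit 0), .ofNat (nat_lit 0), .ofNat (nat_lit 0)⟩⟩, []⟩
noncomputable def p019_l31 : Lf2 := ⟨nat_lit 0, nat_lit 10, [nat_lit 0, nat_lit 5, nat_lit 5, nat_lit 20], false, nat_lit 0, nat_lit 0, nat_lit 0, nat_lit 0, ⟨nat_lit 63, nat_lit 937, nat_lit 0, nat_lit 8, nat_lit 317, nat_lit 0, nat_lit 0, nat_lit 0, nat_lit 0, nat_lit 0, nat_lit 0, nat_lit 0, nat_lit 41194596, nat_lit 25805404, nat_lit 0, nat_lit 3332657, true, true⟩,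
 nat_lit 0, nat_lit 0, nat_lit 986, nat_lit 0, nat_lit 3900, nat_lit 547, nat_lit 0, nat_lit 0, nat_lit 0, nat_lit 40, nat_lit 0, nat_lit 0, nat_lit 0, nat_lit 0, nat_lit 0, nat_lit 234250, nat_lit 0, nat_lit 0, [(nat_lit 18, [(nat_lit 0, nat_lit 937)])],
 ⟨p019_k0, nat_lit 0, nat_lit 0, nat_lit 162, nat_lit 0, nat_lit 0, [nat_lit 1564249600, nat_lit 2326760000, nat_lit 2794344000], [], [nat_lit 27670822000, nat_lit 28681973000, nat_lit 29765306600, nat_lit 30676935200], nat_lit 0, nat_lit 0, nat_lit 0, nat_lit 0, nat_lit 0, nat_lit 0, [], [nat_lit 6, nat_lit 40, nat_lit 80, nat_lit 80, nat_lit 3, nat_lit 203, nat_lit 0, nat_lit 6]⟩, ⟨p019_k8, nat_lit 0, nat_lit 0, nat_lit 573, nat_lit 0, nat_lit 841716, [nat_lit 295344000, nat_lit 501984000, nat_lit 620046000], [], [nat_lit 2361132121, nat_lit 2366147918, nat_lit 2433485035, nat_lit 2438019350], nat_lit 1271250, nat_lit 1271250, nat_lit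 1271250, nat_lit 1271250, nat_lit 0, nat_lit 0, [nat_lit 1100000, nat_lit 1785000, nat_lit 1271250], [nat_lit 29, nat_lit 40, nat_lit 80, nat_lit 80, nat_lit 17, nat_lit 289, nat_lit 75, nat_lit 8]⟩,
 ⟨nat_lit 3872, nat_lit 4473, ⟨.ofNat (nat_lit 757829), .ofNat (nat_lit 825812), .ofNat (nat_lit 768604), .ofNat (nat_lit 836589), .ofNat (nat_lit 748027), .ofNat (nat_lit 812552), .ofNat (nat_lit 758915), .ofNat (nat_lit 823443)⟩, ⟨.ofNat (nat_lit 0), .ofNat (nat_lit 0), .ofNat (nat_lit 0), .ofNat (nat_lit 0), .ofNat (nat_lit 0), .ofNat (nat_lit 0), .ofNat (nat_lit 0), .ofNat (nat_lit 0)⟩⟩, []⟩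
noncomputable def p019_l32 : Lf2 := ⟨nat_lit 0, nat_lit 10, [nat_lit 0, nat_lit 5, nat_lit 5, nat_lit 20], false, nat_lit 0, nat_lit 0, nat_lit 0, nat_lit 0, ⟨nat_lit 72, nat_lit 928, nat_lit 0, nat_lit 9, nat_lit 335, nat_lit 0, nat_lit 0, nat_lit 0, nat_lit 0, nat_lit 0, nat_lit 0, nat_lit 0, nat_lit 39400352, nat_lit 27599648, nat_lit 0, nat_lit 3387774, true, true⟩,
 nat_lit 0, nat_lit 0, nat_lit 1153, nat_lit 0, nat_lit 3754, nat_lit 610, nat_lit 0, nat_lit 0, nat_lit 0, nat_lit 51, nat_lit 0, nat_lit 0, nat_lit 0, nat_lit 0, nat_lit 0, nat_lit 232000, nat_lit 0, nat_lit 0, [(nat_lit 18, [(nat_lit 0, nat_lit 928)])],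
 ⟨p019_k0, nat_lit 0, nat_lit 0, nat_lit 172, nat_lit 0, nat_lit 0, [nat_lit 1568742401, nat_lit 2349440001, nat_lit 2827536000], [], [nat_lit 29876744157, nat_lit 30775252613, nat_lit 31318989631, nat_lit 32149774820], nat_lit 0, nat_lit 0, nat_lit 0, nat_lit 0, nat_lit 0, nat_lit 0, [], [nat_lit 6, nat_lit 40, nat_lit 80, nat_lit 80, nat_lit 3, nat_lit 203, nat_lit 0, nat_lit 6]⟩, ⟨p019_k1, nat_lit 0, nat_lit 0, nat_lit 613, nat_lit 0, nat_lit 826396, [nat_lit 337536000, nat_lit 573696000, nat_lit 854784000], [], [nat_lit 2985044484, nat_lit 2989730871, nat_lit 3047335978, nat_lit 3050908488], nat_lit 1271250, nat_lit 1271250, nat_lit 1271250, nat_lit 1271250, nat_lit 0, nat_lit 0, [nat_lit 1100000, nat_lit 1785000, nat_lit 1271250], [nat_lit 21, nat_lit 40, nat_lit 80, nat_lit 80, nat_lit 14, nat_lit 289, nat_lit 75, nat_lit 7]⟩,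
 ⟨nat_lit 3872, nat_lit 4473, ⟨.ofNat (nat_lit 815035), .ofNat (nat_lit 862623), .ofNat (nat_lit 825812), .ofNat (nat_lit 873399), .ofNat (nat_lit 801662), .ofNat (nat_lit 846831), .ofNat (nat_lit 812552), .ofNat (nat_lit 857720)⟩, ⟨.ofNat (nat_lit 0), .ofNat (nat_lit 0), .ofNat (nat_lit 0), .ofNat (nat_lit 0), .ofNat (nat_lit 0), .ofNat (nat_lit 0), .ofNat (nat_lit 0), .ofNat (nat_lit 0)⟩⟩, [⟨nat_lit 13, nat_lit 78, nat_lit 47, nat_lit 100, nat_lit 237879425⟩]⟩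
noncomputable def p019_l33 : Lf2 := ⟨nat_lit 0, nat_lit 10, [nat_lit 0, nat_lit 5, nat_lit 5, nat_lit 20], false, nat_lit 0, nat_lit 0, nat_lit 0, nat_lit 0, ⟨nat_lit 77, nat_lit 923, nat_lit 0, nat_lit 9, nat_lit 338, nat_lit 0, nat_lit 0, nat_lit 0, nat_lit 0, nat_lit 0, nat_lit 0, nat_lit 0, nat_lit 39086219, nat_lit 27913781, nat_lit 0, nat_lit 3395893, true, true⟩,
 nat_lit 0, nat_lit 0, nat_lit 1177, nat_lit 0, nat_lit 3763, nat_lit 653, nat_lit 0, nat_lit 0, nat_lit 0, nat_lit 48, nat_lit 0, nat_lit 0, nat_lit 0, nat_lit 0, nat_lit 0, nat_lit 230750, nat_lit 0, nat_lit 0, [(nat_lit 18, [(nat_lit 0, nat_lit 923)])],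
 ⟨p019_k0, nat_lit 0, nat_lit 0, nat_lit 172, nat_lit 0, nat_lit 0, [nat_lit 1571238401, nat_lit 2362040001, nat_lit 2845976000], [], [nat_lit 29904358883, nat_lit 30803676115, nat_lit 31348077259, nat_lit 32179551486], nat_lit 0, nat_lit 0, nat_lit 0, nat_lit 0, nat_lit 0, nat_lit 0, [], [nat_lit 6, nat_lit 40, nat_lit 80, nat_lit 80, nat_lit 3, nat_lit 203, nat_lit 0, nat_lit 6]⟩, ⟨p019_k8, nat_lit 0, nat_lit 0, nat_lit 561, nat_lit 0, nat_lit 804891, [nat_lit 360976000, nat_lit 613536000, nat_lit 757834000], [], [nat_lit 3033019457, nat_lit 3035061476, nat_lit 3098078178, nat_lit 3100108038], nat_lit 1271250, nat_lit 1271250, nat_lit 1271250, nat_lit 1271250, nat_lit 0, nat_lit 0, [nat_lit 1100000, nat_lit 1785000, nat_lit 1271250], [nat_lit 29, nat_lit 40, nat_lit 80, nat_lit 80, nat_lit 17, nat_lit 289, nat_lit 75, nat_lit 8]⟩,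
 ⟨nat_lit 3872, nat_lit 4473, ⟨.ofNat (nat_lit 825812), .ofNat (nat_lit 873399), .ofNat (nat_lit 831200), .ofNat (nat_lit 878788), .ofNat (nat_lit 812552), .ofNat (nat_lit 857720), .ofNat (nat_lit 817998), .ofNat (nat_lit 863166)⟩, ⟨.ofNat (nat_lit 0), .ofNat (nat_lit 0), .ofNat (nat_lit 0), .ofNat (nat_lit 0), .ofNat (nat_lit 0), .ofNat (nat_lit 0), .ofNat (nat_lit 0), .ofNat (nat_lit 0)⟩⟩, [⟨nat_lit 13, nat_lit 74, nat_lit 52, nat_lit 100, nat_lit 248323031⟩]⟩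
noncomputable def p019_l34 : Lf2 := ⟨nat_lit 0, nat_lit 10, [nat_lit 0, nat_lit 5, nat_lit 5, nat_lit 20], false, nat_lit 0, nat_lit 0, nat_lit 0, nat_lit 0, ⟨nat_lit 1000, nat_lit 0, nat_lit 0, nat_lit 0, nat_lit 0, nat_lit 0, nat_lit 0, nat_lit 0, nat_lit 0, nat_lit 0, nat_lit 0, nat_lit 0, nat_lit 0, nat_lit 0, nat_lit 0, nat_lit 0, false, false⟩,
 nat_lit 0, nat_lit 0, nat_lit 11558, nat_lit 0, nat_lit 5577, nat_lit 6573, nat_lit 0, nat_lit 0, nat_lit 0, nat_lit 725, nat_lit 0, nat_lit 0, nat_lit 0, nat_lit 0, nat_lit 0, nat_lit 0, nat_lit 0, nat_lit 0, [],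
 ⟨p019_k0, nat_lit 0, nat_lit 0, nat_lit 171, nat_lit 0, nat_lit 0, [nat_lit 2032000001, nat_lit 4688000000, nat_lit 6250000000], [], [nat_lit 34943959878, nat_lit 35475125142, nat_lit 36933205589, nat_lit 37411812668], nat_lit 0, nat_lit 0, nat_lit 0, nat_lit 0, nat_lit 0, nat_lit 0, [], [nat_lit 6, nat_lit 40, nat_lit 80, nat_lit 80, nat_lit 3, nat_lit 203, nat_lit 0, nat_lit 6]⟩, ⟨p019_k9, nat_lit 0, nat_lit 0, nat_lit 490, nat_lit 0, nat_lit 650628, [nat_lit 4688000000, nat_lit 7968000000, nat_lit 9842000000], [], [nat_lit 40854885454, nat_lit 40919815159, nat_lit 41973946503, nat_lit 42037261199], nat_lit 1271250, nat_lit 1271250, nat_lit 1271250, nat_lit 1271250, nat_lit 0, nat_lit 0, [nat_lit 1100000, nat_lit 1785000, nat_lit 1271250], [nat_lit 29, nat_lit 40, nat_lit 80, nat_lit 80, nat_lit 17, nat_lit 289, nat_lit 75, nat_lit 8]⟩,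
 zbF0, [⟨nat_lit 13, nat_lit 79, nat_lit 43, nat_lit 100, nat_lit 80141335⟩]⟩
noncomputable def p019_l35 : Lf2 := ⟨nat_lit 0, nat_lit 10, [nat_lit 0, nat_lit 5, nat_lit 5, nat_lit 20], false, nat_lit 0, nat_lit 0, nat_lit 0, nat_lit 0, ⟨nat_lit 72, nat_lit 928, nat_lit 0, nat_lit 9, nat_lit 337, nat_lit 0, nat_lit 0, nat_lit 0, nat_lit 0, nat_lit 0, nat_lit 0, nat_lit 0, nat_lit 39141636, nat_lit 27858364, nat_lit 0, nat_lit 3394493, true, true⟩,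
 nat_lit 0, nat_lit 0, nat_lit 1059, nat_lit 0, nat_lit 3777, nat_lit 602, nat_lit 0, nat_lit 0, nat_lit 0, nat_lit 48, nat_lit 0, nat_lit 0, nat_lit 0, nat_lit 0, nat_lit 0, nat_lit 232000, nat_lit 0, nat_lit 0, [(nat_lit 18, [(nat_lit 0, nat_lit 928)])],
 ⟨p019_k2, nat_lit 0, nat_lit 0, nat_lit 171, nat_lit 0, nat_lit 0, [nat_lit 1568742401, nat_lit 2349440001, nat_lit 2827536000], [], [nat_lit 30318278343, nat_lit 30768566007, nat_lit 31528559708, nat_lit 31949691973], nat_lit 0, nat_lit 0, nat_lit 0, nat_lit 0, nat_lit 0, nat_lit 0, [], [nat_lit 6, nat_lit 40, nat_lit 80, nat_lit 80, nat_lit 3, nat_lit 203, nat_lit 0, nat_lit 6]⟩, ⟨p019_k9, nat_lit 0, nat_lit 0, nat_lit 563, nat_lit 0, nat_lit 813157, [nat_lit 337536000, nat_lit 573696000, nat_lit 708624000], [], [nat_lit 2762368595, nat_lit 2765304782, nat_lit 2819527466, nat_lit 2826135938], nat_lit 1271250, nat_lit 1271250, nat_lit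 1271250, nat_lit 1271250, nat_lit 0, nat_lit 0, [nat_lit 1100000, nat_lit 1785000, nat_lit 1271250], [nat_lit 29, nat_lit 40, nat_lit 80, nat_lit 80, nat_lit 17, nat_lit 289, nat_lit 75, nat_lit 8]⟩,
 ⟨nat_lit 3872, nat_lit 4184, ⟨.ofNat (nat_lit 824603), .ofNat (nat_lit 864358), .ofNat (nat_lit 830019), .ofNat (nat_lit 869774), .ofNat (nat_lit 818015), .ofNat (nat_lit 856729), .ofNat (nat_lit 823463), .ofNat (nat_lit 862177)⟩, ⟨.ofNat (nat_lit 0), .ofNat (nat_lit 0), .ofNat (nat_lit 0), .ofNat (nat_lit 0), .ofNat (nat_lit 0), .ofNat (nat_lit 0), .ofNat (nat_lit 0), .ofNat (nat_lit 0)⟩⟩, [⟨nat_lit 13, nat_lit 77, nat_lit 45, nat_lit 100, nat_lit 241402063⟩]⟩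
noncomputable def p019_l36 : Lf2 := ⟨nat_lit 0, nat_lit 10, [nat_lit 0, nat_lit 5, nat_lit 5, nat_lit 20], false, nat_lit 0, nat_lit 0, nat_lit 0, nat_lit 0, ⟨nat_lit 45, nat_lit 955, nat_lit 0, nat_lit 8, nat_lit 313, nat_lit 0, nat_lit 0, nat_lit 0, nat_lit 0, nat_lit 0, nat_lit 0, nat_lit 0, nat_lit 41592950, nat_lit 25407050, nat_lit 0, nat_lit 3318378, true, true⟩,
 nat_lit 0, nat_lit 0, nat_lit 742, nat_lit 0, nat_lit 3563, nat_lit 392, nat_lit 0, nat_lit 0, nat_lit 0, nat_lit 30, nat_lit 0, nat_lit 0, nat_lit 0, nat_lit 0, nat_lit 0, nat_lit 238750, nat_lit 0, nat_lit 0, [(nat_lit 21, [(nat_lit 0, nat_lit 955)])],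
 ⟨p019_k4, nat_lit 0, nat_lit 0, nat_lit 173, nat_lit 0, nat_lit 0, [nat_lit 1579712001, nat_lit 2260390001, nat_lit 2330680000], [], [nat_lit 28388341456, nat_lit 29312272130, nat_lit 31013905973, nat_lit 31858977488], nat_lit 0, nat_lit 0, nat_lit 0, nat_lit 0, nat_lit 0, nat_lit 0, [], [nat_lit 6, nat_lit 40, nat_lit 80, nat_lit 80, nat_lit 3, nat_lit 203, nat_lit 0, nat_lit 6]⟩, ⟨p019_k1, nat_lit 0, nat_lit 0, nat_lit 782, nat_lit 0, nat_lit 1189988, [nat_lit 210960000, nat_lit 358560000, nat_lit 534240000], [], [nat_lit 1846011344, nat_lit 1847554192, nat_lit 1899546250, nat_lit 1901052480], nat_lit 1271250, nat_lit 1271250, nat_lit 1271250, nat_lit 1271250, nat_lit 0, nat_lit 0, [nat_lit 1100000, nat_lit 1785000, nat_lit 1271250], [nat_lit 21, nat_lit 40, nat_lit 80, nat_lit 80, nat_lit 14, nat_lit 289, nat_lit 75, nat_lit 7]⟩,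
 ⟨nat_lit 3162, nat_lit 3873, ⟨.ofNat (nat_lit 737150), .ofNat (nat_lit 827480), .ofNat (nat_lit 748046), .ofNat (nat_lit 838377), .ofNat (nat_lit 727168), .ofNat (nat_lit 812503), .ofNat (nat_lit 738246), .ofNat (nat_lit 823581)⟩, ⟨.ofNat (nat_lit 0), .ofNat (nat_lit 0), .ofNat (nat_lit 0), .ofNat (nat_lit 0), .ofNat (nat_lit 0), .ofNat (nat_lit 0), .ofNat (nat_lit 0), .ofNat (nat_lit 0)⟩⟩, [⟨nat_lit 13, nat_lit 68, nat_lit 60, nat_lit 100, nat_lit 259987080⟩]⟩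
noncomputable def p019_l37 : Lf2 := ⟨nat_lit 0, nat_lit 10, [nat_lit 0, nat_lit 5, nat_lit 5, nat_lit 20], false, nat_lit 0, nat_lit 0, nat_lit 0, nat_lit 0, ⟨nat_lit 1000, nat_lit 0, nat_lit 0, nat_lit 0, nat_lit 0, nat_lit 0, nat_lit 0, nat_lit 0, nat_lit 0, nat_lit 0, nat_lit 0, nat_lit 0, nat_lit 0, nat_lit 0, nat_lit 0, nat_lit 0, false, false⟩,
 nat_lit 0, nat_lit 0, nat_lit 12417, nat_lit 0, nat_lit 5578, nat_lit 6573, nat_lit 0, nat_lit 0, nat_lit 0, nat_lit 787, nat_lit 0, nat_lit 0, nat_lit 0, nat_lit 0, nat_lit 0, nat_lit 0, nat_lit 0, nat_lit 0, [],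
 ⟨p019_k4, nat_lit 0, nat_lit 0, nat_lit 170, nat_lit 0, nat_lit 0, [nat_lit 2032000001, nat_lit 4688000000, nat_lit 6250000000], [], [nat_lit 33650623220, nat_lit 34247540650, nat_lit 36948150270, nat_lit 37453077572], nat_lit 0, nat_lit 0, nat_lit 0, nat_lit 0, nat_lit 0, nat_lit 0, [], [nat_lit 6, nat_lit 40, nat_lit 80, nat_lit 80, nat_lit 3, nat_lit 203, nat_lit 0, nat_lit 6]⟩, ⟨p019_k1, nat_lit 0, nat_lit 0, nat_lit 501, nat_lit 0, nat_lit 534997, [nat_lit 4688000000, nat_lit 7968000000, nat_lit 11872000000], [], [nat_lit 42192686932, nat_lit 42303073132, nat_lit 43969346688, nat_lit 44067958627], nat_lit 1271250, nat_lit 1271250, nat_lit 1271250, nat_lit 1271250, nat_lit 0, nat_lit 0, [nat_lit 1100000, nat_lit 1785000, nat_lit 1271250], [nat_lit 21, nat_lit 40, nat_lit 80, nat_lit 80, nat_lit 14, nat_lit 289, nat_lit 75, nat_lit 7]⟩,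
 zbF0, [⟨nat_lit 13, nat_lit 71, nat_lit 57, nat_lit 100, nat_lit 30734158⟩]⟩
noncomputable def p019_l38 : Lf2 := ⟨nat_lit 0, nat_lit 10, [nat_lit 0, nat_lit 5, nat_lit 5, nat_lit 20], false, nat_lit 0, nat_lit 0, nat_lit 0, nat_lit 0, ⟨nat_lit 71, nat_lit 929, nat_lit 0, nat_lit 8, nat_lit 309, nat_lit 0, nat_lit 0, nat_lit 0, nat_lit 0, nat_lit 0, nat_lit 0, nat_lit 0, nat_lit 41967944, nat_lit 25032056, nat_lit 0, nat_lit 3304251, true, true⟩,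
 nat_lit 0, nat_lit 0, nat_lit 1153, nat_lit 0, nat_lit 3369, nat_lit 610, nat_lit 0, nat_lit 0, nat_lit 0, nat_lit 49, nat_lit 0, nat_lit 0, nat_lit 0, nat_lit 0, nat_lit 0, nat_lit 232250, nat_lit 0, nat_lit 0, [(nat_lit 21, [(nat_lit 0, nat_lit 929)])],
 ⟨p019_k5, nat_lit 0, nat_lit 0, nat_lit 155, nat_lit 0, nat_lit 0, [nat_lit 1592025601, nat_lit 2157032400], [], [nat_lit 28171108385, nat_lit 28650728773, nat_lit 30387467572, nat_lit 30813946991], nat_lit 0, nat_lit 0, nat_lit 0, nat_lit 0, nat_lit 0, nat_lit 0, [], [nat_lit 24, nat_lit 40, nat_lit 80, nat_lit 80, nat_lit 33, nat_lit 203, nat_lit 0, nat_lit 7]⟩, ⟨p019_k1, nat_lit 0, nat_lit 0, nat_lit 571, nat_lit 0, nat_lit 730796, [nat_lit 332848000, nat_lit 565728000, nat_lit 842912000], [], [nat_lit 2863463056, nat_lit 2867155652, nat_lit 2948272512, nat_lit 2951817531], nat_lit 1271250, nat_lit 1271250, nat_lit 1271250, nat_lit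 1271250, nat_lit 0, nat_lit 0, [nat_lit 1100000, nat_lit 1785000, nat_lit 1271250], [nat_lit 21, nat_lit 40, nat_lit 80, nat_lit 80, nat_lit 14, nat_lit 289, nat_lit 75, nat_lit 7]⟩,
 ⟨nat_lit 3162, nat_lit 3536, ⟨.ofNat (nat_lit 732188), .ofNat (nat_lit 807502), .ofNat (nat_lit 743164), .ofNat (nat_lit 818478), .ofNat (nat_lit 727168), .ofNat (nat_lit 800312), .ofNat (nat_lit 738246), .ofNat (nat_lit 811390)⟩, ⟨.ofNat (nat_lit 0), .ofNat (nat_lit 0), .ofNat (nat_lit 0), .ofNat (nat_lit 0), .ofNat (nat_lit 0), .ofNat (nat_lit 0), .ofNat (nat_lit 0), .ofNat (nat_lit 0)⟩⟩, [⟨nat_lit 13, nat_lit 65, nat_lit 63, nat_lit 100, nat_lit 272294583⟩]⟩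
noncomputable def p019_l39 : Lf2 := ⟨nat_lit 0, nat_lit 10, [nat_lit 0, nat_lit 5, nat_lit 5, nat_lit 20], false, nat_lit 0, nat_lit 0, nat_lit 0, nat_lit 0, ⟨nat_lit 60, nat_lit 940, nat_lit 0, nat_lit 8, nat_lit 313, nat_lit 0, nat_lit 0, nat_lit 0, nat_lit 0, nat_lit 0, nat_lit 0, nat_lit 0, nat_lit 41539485, nat_lit 25460515, nat_lit 0, nat_lit 3320338, true, true⟩,
 nat_lit 0, nat_lit 0, nat_lit 951, nat_lit 0, nat_lit 3753, nat_lit 528, nat_lit 0, nat_lit 0, nat_lit 0, nat_lit 35, nat_lit 0, nat_lit 0, nat_lit 0, nat_lit 0, nat_lit 0, nat_lit 235000, nat_lit 0, nat_lit 0, [(nat_lit 21, [(nat_lit 0, nat_lit 940)])],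
 ⟨p019_k4, nat_lit 0, nat_lit 0, nat_lit 165, nat_lit 0, nat_lit 0, [nat_lit 1586816001, nat_lit 2298520001, nat_lit 2392240000], [], [nat_lit 28325938971, nat_lit 28823512526, nat_lit 30289327335, nat_lit 30738536631], nat_lit 0, nat_lit 0, nat_lit 0, nat_lit 0, nat_lit 0, nat_lit 0, [], [nat_lit 6, nat_lit 40, nat_lit 80, nat_lit 80, nat_lit 3, nat_lit 203, nat_lit 0, nat_lit 6]⟩, ⟨p019_k8, nat_lit 0, nat_lit 0, nat_lit 642, nat_lit 0, nat_lit 1018902, [nat_lit 281280000, nat_lit 478080000, nat_lit 590520000], [], [nat_lit 2294319904, nat_lit 2296459672, nat_lit 2346033314, nat_lit 2347808900], nat_lit 1271250, nat_lit 1271250, nat_lit 1271250, nat_lit 1271250, nat_lit 0, nat_lit 0, [nat_lit 1100000, nat_lit 1785000, nat_lit 1271250], [nat_lit 29, nat_lit 40, nat_lit 80, nat_lit 80, nat_lit 17, nat_lit 289, nat_lit 75, nat_lit 8]⟩,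
 ⟨nat_lit 3535, nat_lit 3873, ⟨.ofNat (nat_lit 748046), .ofNat (nat_lit 812568), .ofNat (nat_lit 758942), .ofNat (nat_lit 823465), .ofNat (nat_lit 743164), .ofNat (nat_lit 805926), .ofNat (nat_lit 754140), .ofNat (nat_lit 816902)⟩, ⟨.ofNat (nat_lit 0), .ofNat (nat_lit 0), .ofNat (nat_lit 0), .ofNat (nat_lit 0), .ofNat (nat_lit 0), .ofNat (nat_lit 0), .ofNat (nat_lit 0), .ofNat (nat_lit 0)⟩⟩, []⟩
noncomputable def p019_l40 : Lf2 := ⟨nat_lit 0, nat_lit 10, [nat_lit 0, nat_lit 5, nat_lit 5, nat_lit 20], false, nat_lit 0, nat_lit 0, nat_lit 0, nat_lit 0, ⟨nat_lit 58, nat_lit 942, nat_lit 0, nat_lit 8, nat_lit 311, nat_lit 0, nat_lit 0, nat_lit 0, nat_lit 0, nat_lit 0, nat_lit 0, nat_lit 0, nat_lit 41771671, nat_lit 25228329, nat_lit 0, nat_lit 3311729, true, true⟩,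
 nat_lit 0, nat_lit 0, nat_lit 927, nat_lit 0, nat_lit 3385, nat_lit 515, nat_lit 0, nat_lit 0, nat_lit 0, nat_lit 35, nat_lit 0, nat_lit 0, nat_lit 0, nat_lit 0, nat_lit 0, nat_lit 235500, nat_lit 0, nat_lit 0, [(nat_lit 21, [(nat_lit 0, nat_lit 942)])],
 ⟨p019_k5, nat_lit 0, nat_lit 0, nat_lit 150, nat_lit 0, nat_lit 0, [nat_lit 1585868801, nat_lit 2121615200], [], [nat_lit 28075962561, nat_lit 28556476581, nat_lit 29926298414, nat_lit 30362705460], nat_lit 0, nat_lit 0, nat_lit 0, nat_lit 0, nat_lit 0, nat_lit 0, [], [nat_lit 24, nat_lit 40, nat_lit 80, nat_lit 80, nat_lit 33, nat_lit 203, nat_lit 0, nat_lit 7]⟩, ⟨p019_k8, nat_lit 0, nat_lit 0, nat_lit 729, nat_lit 0, nat_lit 1204621, [nat_lit 271904000, nat_lit 462144000, nat_lit 570836000], [], [nat_lit 2185118742, nat_lit 2187981366, nat_lit 2240637679, nat_lit 2244070055], nat_lit 1271250, nat_lit 1271250, nat_lit 1271250, nat_lit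 1271250, nat_lit 0, nat_lit 0, [nat_lit 1100000, nat_lit 1785000, nat_lit 1271250], [nat_lit 29, nat_lit 40, nat_lit 80, nat_lit 80, nat_lit 17, nat_lit 289, nat_lit 75, nat_lit 8]⟩,
 ⟨nat_lit 3162, nat_lit 3536, ⟨.ofNat (nat_lit 743164), .ofNat (nat_lit 805926), .ofNat (nat_lit 754141), .ofNat (nat_lit 816902), .ofNat (nat_lit 738246), .ofNat (nat_lit 799199), .ofNat (nat_lit 749323), .ofNat (nat_lit 810277)⟩, ⟨.ofNat (nat_lit 0), .ofNat (nat_lit 0), .ofNat (nat_lit 0), .ofNat (nat_lit 0), .ofNat (nat_lit 0), .ofNat (nat_lit 0), .ofNat (nat_lit 0), .ofNat (nat_lit 0)⟩⟩, []⟩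
noncomputable def p019_l41 : Lf2 := ⟨nat_lit 0, nat_lit 10, [nat_lit 0, nat_lit 5, nat_lit 5, nat_lit 20], false, nat_lit 0, nat_lit 0, nat_lit 0, nat_lit 0, ⟨nat_lit 58, nat_lit 942, nat_lit 0, nat_lit 9, nat_lit 331, nat_lit 0, nat_lit 0, nat_lit 0, nat_lit 0, nat_lit 0, nat_lit 0, nat_lit 0, nat_lit 39785497, nat_lit 27214503, nat_lit 0, nat_lit 3377201, true, true⟩,
 nat_lit 0, nat_lit 0, nat_lit 925, nat_lit 0, nat_lit 3569, nat_lit 513, nat_lit 0, nat_lit 0, nat_lit 0, nat_lit 34, nat_lit 0, nat_lit 0, nat_lit 0, nat_lit 0, nat_lit 0, nat_lit 235500, nat_lit 0, nat_lit 0, [(nat_lit 21, [(nat_lit 0, nat_lit 942)])],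
 ⟨p019_k4, nat_lit 0, nat_lit 0, nat_lit 174, nat_lit 0, nat_lit 0, [nat_lit 1585868801, nat_lit 2293436001, nat_lit 2384032000], [], [nat_lit 30329528183, nat_lit 31211411799, nat_lit 31291461869, nat_lit 32129575636], nat_lit 0, nat_lit 0, nat_lit 0, nat_lit 0, nat_lit 0, nat_lit 0, [], [nat_lit 6, nat_lit 40, nat_lit 80, nat_lit 80, nat_lit 3, nat_lit 203, nat_lit 0, nat_lit 6]⟩, ⟨p019_k8, nat_lit 0, nat_lit 0, nat_lit 727, nat_lit 0, nat_lit 1204621, [nat_lit 271904000, nat_lit 462144000, nat_lit 570836000], [], [nat_lit 2255511756, nat_lit 2260658885, nat_lit 2300739974, nat_lit 2313315247], nat_lit 1271250, nat_lit 1271250, nat_lit 1271250, nat_lit 1271250, nat_lit 0, nat_lit 0, [nat_lit 1100000, nat_lit 1785000, nat_lit 1271250], [nat_lit 29, nat_lit 40, nat_lit 80, nat_lit 80, nat_lit 17, nat_lit 289, nat_lit 75, nat_lit 8]⟩,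
 ⟨nat_lit 3162, nat_lit 3873, ⟨.ofNat (nat_lit 812568), .ofNat (nat_lit 844829), .ofNat (nat_lit 823465), .ofNat (nat_lit 855725), .ofNat (nat_lit 799199), .ofNat (nat_lit 829676), .ofNat (nat_lit 810277), .ofNat (nat_lit 840753)⟩, ⟨.ofNat (nat_lit 0), .ofNat (nat_lit 0), .ofNat (nat_lit 0), .ofNat (nat_lit 0), .ofNat (nat_lit 0), .ofNat (nat_lit 0), .ofNat (nat_lit 0), .ofNat (nat_lit 0)⟩⟩, [⟨nat_lit 13, nat_lit 69, nat_lit 56, nat_lit 100, nat_lit 125502127⟩, ⟨nat_lit 13, nat_lit 62, nat_lit 65, nat_lit 100, nat_lit 170387666⟩]⟩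
noncomputable def p019_l42 : Lf2 := ⟨nat_lit 0, nat_lit 10, [nat_lit 0, nat_lit 5, nat_lit 5, nat_lit 20], false, nat_lit 0, nat_lit 0, nat_lit 0, nat_lit 0, ⟨nat_lit 98, nat_lit 902, nat_lit 0, nat_lit 8, nat_lit 323, nat_lit 0, nat_lit 0, nat_lit 0, nat_lit 0, nat_lit 0, nat_lit 0, nat_lit 0, nat_lit 40546828, nat_lit 26453172, nat_lit 0, nat_lit 3354283, true, true⟩,
 nat_lit 0, nat_lit 0, nat_lit 1193, nat_lit 0, nat_lit 3424, nat_lit 694, nat_lit 0, nat_lit 0, nat_lit 0, nat_lit 122, nat_lit 0, nat_lit 0, nat_lit 0, nat_lit 0, nat_lit 0, nat_lit 225500, nat_lit 0, nat_lit 0, [(nat_lit 18, [(nat_lit 0, nat_lit 902)])],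
 ⟨p019_k10, nat_lit 0, nat_lit 0, nat_lit 153, nat_lit 0, nat_lit 0, [nat_lit 1581721600, nat_lit 1922024534, nat_lit 2923424000], [], [nat_lit 27495861942, nat_lit 28453256694, nat_lit 29473167190, nat_lit 30341717894], nat_lit 0, nat_lit 0, nat_lit 0, nat_lit 0, nat_lit 0, nat_lit 0, [], [nat_lit 85, nat_lit 40, nat_lit 80, nat_lit 80, nat_lit 16, nat_lit 203, nat_lit 0, nat_lit 6]⟩, ⟨p019_k11, nat_lit 0, nat_lit 0, nat_lit 605, nat_lit 0, nat_lit 938731, [nat_lit 459424000, nat_lit 612500000, nat_lit 964516000], [], [nat_lit 3340501246, nat_lit 3362547750, nat_lit 3441013266, nat_lit 3458654676], nat_lit 1271250, nat_lit 1271250, nat_lit 1271250, nat_lit 1271250, nat_lit 0, nat_lit 0, [nat_lit 1100000, nat_lit 1442500, nat_lit 1271250], [nat_lit 11, nat_lit 40, nat_lit 80, nat_lit 80, nat_lit 1, nat_lit 289, nat_lit 75, nat_lit 8]⟩,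
 ⟨nat_lit 3872, nat_lit 4473, ⟨.ofNat (nat_lit 768604), .ofNat (nat_lit 836589), .ofNat (nat_lit 790153), .ofNat (nat_lit 858139), .ofNat (nat_lit 758915), .ofNat (nat_lit 823443), .ofNat (nat_lit 780691), .ofNat (nat_lit 845220)⟩, ⟨.ofNat (nat_lit 0), .ofNat (nat_lit 0), .ofNat (nat_lit 0), .ofNat (nat_lit 0), .ofNat (nat_lit 0), .ofNat (nat_lit 0), .ofNat (nat_lit 0), .ofNat (nat_lit 0)⟩⟩, []⟩
noncomputable def p019_l43 : Lf2 := ⟨nat_lit 0, nat_lit 10, [nat_lit 0, nat_lit 5, nat_lit 5, nat_lit 20], false, nat_lit 0, nat_lit 0, nat_lit 0, nat_lit 0, ⟨nat_lit 95, nat_lit 905, nat_lit 0, nat_lit 8, nat_lit 320, nat_lit 0, nat_lit 0, nat_lit 0, nat_lit 0, nat_lit 0, nat_lit 0, nat_lit 0, nat_lit 40881680, nat_lit 26118320, nat_lit 0, nat_lit 3343349, true, true⟩,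
 nat_lit 0, nat_lit 0, nat_lit 1159, nat_lit 0, nat_lit 3346, nat_lit 674, nat_lit 0, nat_lit 0, nat_lit 0, nat_lit 119, nat_lit 0, nat_lit 0, nat_lit 0, nat_lit 0, nat_lit 0, nat_lit 226250, nat_lit 0, nat_lit 0, [(nat_lit 21, [(nat_lit 0, nat_lit 905)])],
 ⟨p019_k12, nat_lit 0, nat_lit 0, nat_lit 156, nat_lit 0, nat_lit 0, [nat_lit 1603392001, nat_lit 1815176000, nat_lit 2674718000], [], [nat_lit 28206834741, nat_lit 28681246095, nat_lit 30078395291, nat_lit 30509113024], nat_lit 0, nat_lit 0, nat_lit 0, nat_lit 0, nat_lit 0, nat_lit 0, [], [nat_lit 85, nat_lit 40, nat_lit 80, nat_lit 80, nat_lit 16, nat_lit 203, nat_lit 0, nat_lit 6]⟩, ⟨p019_k11, nat_lit 0, nat_lit 0, nat_lit 662, nat_lit 0, nat_lit 1095982, [nat_lit 445360000, nat_lit 593750000, nat_lit 934990000], [], [nat_lit 3241769701, nat_lit 3256719197, nat_lit 3324316851, nat_lit 3346222898], nat_lit 1271250, nat_lit 1271250,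 nat_lit 1271250, nat_lit 1271250, nat_lit 0, nat_lit 0, [nat_lit 1100000, nat_lit 1442500, nat_lit 1271250], [nat_lit 11, nat_lit 40, nat_lit 80, nat_lit 80, nat_lit 1, nat_lit 289, nat_lit 75, nat_lit 8]⟩,
 ⟨nat_lit 3535, nat_lit 3873, ⟨.ofNat (nat_lit 758942), .ofNat (nat_lit 823465), .ofNat (nat_lit 780730), .ofNat (nat_lit 845257), .ofNat (nat_lit 754140), .ofNat (nat_lit 816902), .ofNat (nat_lit 776087), .ofNat (nat_lit 838854)⟩, ⟨.ofNat (nat_lit 0), .ofNat (nat_lit 0), .ofNat (nat_lit 0), .ofNat (nat_lit 0), .ofNat (nat_lit 0), .ofNat (nat_lit 0), .ofNat (nat_lit 0), .ofNat (nat_lit 0)⟩⟩, []⟩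
noncomputable def p019_l44 : Lf2 := ⟨nat_lit 0, nat_lit 10, [nat_lit 0, nat_lit 5, nat_lit 5, nat_lit 20], false, nat_lit 0, nat_lit 0, nat_lit 0, nat_lit 0, ⟨nat_lit 67, nat_lit 933, nat_lit 0, nat_lit 8, nat_lit 317, nat_lit 0, nat_lit 0, nat_lit 0, nat_lit 0, nat_lit 0, nat_lit 0, nat_lit 0, nat_lit 41105816, nat_lit 25894184, nat_lit 0, nat_lit 3335737, true, true⟩,
 nat_lit 0, nat_lit 0, nat_lit 962, nat_lit 0, nat_lit 3399, nat_lit 559, nat_lit 0, nat_lit 0, nat_lit 0, nat_lit 43, nat_lit 0, nat_lit 0, nat_lit 0, nat_lit 0, nat_lit 0, nat_lit 233250, nat_lit 0, nat_lit 0, [(nat_lit 21, [(nat_lit 0, nat_lit 933)])],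
 ⟨p019_k5, nat_lit 0, nat_lit 0, nat_lit 150, nat_lit 0, nat_lit 0, [nat_lit 1590131200, nat_lit 2146134800], [], [nat_lit 28113378864, nat_lit 28594674812, nat_lit 29966663348, nat_lit 30403392420], nat_lit 0, nat_lit 0, nat_lit 0, nat_lit 0, nat_lit 0, nat_lit 0, [], [nat_lit 24, nat_lit 40, nat_lit 80, nat_lit 80, nat_lit 33, nat_lit 203, nat_lit 0, nat_lit 7]⟩, ⟨p019_k3, nat_lit 0, nat_lit 0, nat_lit 749, nat_lit 0, nat_lit 1260877, [nat_lit 314096000, nat_lit 533856000, nat_lit 659414000], [], [nat_lit 2491713816, nat_lit 2499985704, nat_lit 2554780749, nat_lit 2562230584], nat_lit 1271250, nat_lit 1271250, nat_lit 1271250, nat_lit 1271250, nat_lit 0, nat_lit 0, [nat_lit 1100000, nat_lit 1785000, nat_lit 1271250], [nat_lit 29, nat_lit 40, nat_lit 80, nat_lit 80, nat_lit 17, nat_lit 289, nat_lit 75, nat_lit 8]⟩,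
 ⟨nat_lit 3162, nat_lit 3536, ⟨.ofNat (nat_lit 754141), .ofNat (nat_lit 816902), .ofNat (nat_lit 776092), .ofNat (nat_lit 838855), .ofNat (nat_lit 749323), .ofNat (nat_lit 810277), .ofNat (nat_lit 771477), .ofNat (nat_lit 832432)⟩, ⟨.ofNat (nat_lit 0), .ofNat (nat_lit 0), .ofNat (nat_lit 0), .ofNat (nat_lit 0), .ofNat (nat_lit 0), .ofNat (nat_lit 0), .ofNat (nat_lit 0), .ofNat (nat_lit 0)⟩⟩, []⟩
noncomputable def p019_l45 : Lf2 := ⟨nat_lit 0, nat_lit 10, [nat_lit 0, nat_lit 5, nat_lit 5, nat_lit 20], false, nat_lit 0, nat_lit 0, nat_lit 0, nat_lit 0, ⟨nat_lit 1000, nat_lit 0, nat_lit 0, nat_lit 0, nat_lit 0, nat_lit 0, nat_lit 0, nat_lit 0, nat_lit 0, nat_lit 0, nat_lit 0, nat_lit 0, nat_lit 0, nat_lit 0, nat_lit 0, nat_lit 0, false, false⟩,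
 nat_lit 0, nat_lit 0, nat_lit 11540, nat_lit 0, nat_lit 6276, nat_lit 6717, nat_lit 0, nat_lit 0, nat_lit 0, nat_lit 1302, nat_lit 0, nat_lit 0, nat_lit 0, nat_lit 0, nat_lit 0, nat_lit 0, nat_lit 0, nat_lit 0, [],
 ⟨p019_k10, nat_lit 0, nat_lit 0, nat_lit 168, nat_lit 0, nat_lit 0, [nat_lit 2032000001, nat_lit 3282000000, nat_lit 6250000000], [], [nat_lit 36573679136, nat_lit 37622814520, nat_lit 38553245639, nat_lit 39495147609], nat_lit 0, nat_lit 0, nat_lit 0, nat_lit 0, nat_lit 0, nat_lit 0, [], [nat_lit 85, nat_lit 40, nat_lit 80, nat_lit 80, nat_lit 16, nat_lit 203, nat_lit 0, nat_lit 6]⟩, ⟨p019_k11, nat_lit 0, nat_lit 0, nat_lit 565, nat_lit 0, nat_lit 822212, [nat_lit 4688000000, nat_lit 6250000000, nat_lit 9842000000], [], [nat_lit 35440309969, nat_lit 35491092958, nat_lit 36322530354, nat_lit 36364561530], nat_lit 1271250, nat_lit 1271250, nat_lit 1271250, nat_lit 1271250, nat_lit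 0, nat_lit 0, [nat_lit 1100000, nat_lit 1442500, nat_lit 1271250], [nat_lit 11, nat_lit 40, nat_lit 80, nat_lit 80, nat_lit 1, nat_lit 289, nat_lit 75, nat_lit 8]⟩,
 zbF0, [⟨nat_lit 13, nat_lit 75, nat_lit 48, nat_lit 100, nat_lit 28110653⟩]⟩
noncomputable def p019_l46 : Lf2 := ⟨nat_lit 0, nat_lit 10, [nat_lit 0, nat_lit 5, nat_lit 5, nat_lit 20], false, nat_lit 0, nat_lit 0, nat_lit 0, nat_lit 0, ⟨nat_lit 1000, nat_lit 0, nat_lit 0, nat_lit 0, nat_lit 0, nat_lit 0, nat_lit 0, nat_lit 0, nat_lit 0, nat_lit 0, nat_lit 0, nat_lit 0, nat_lit 0, nat_lit 0, nat_lit 0, nat_lit 0, false, false⟩,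
 nat_lit 0, nat_lit 0, nat_lit 11690, nat_lit 0, nat_lit 5520, nat_lit 6961, nat_lit 0, nat_lit 0, nat_lit 0, nat_lit 1241, nat_lit 0, nat_lit 0, nat_lit 0, nat_lit 0, nat_lit 0, nat_lit 0, nat_lit 0, nat_lit 0, [],
 ⟨p019_k0, nat_lit 0, nat_lit 0, nat_lit 173, nat_lit 0, nat_lit 0, [nat_lit 2032000001, nat_lit 4688000000, nat_lit 6250000000], [], [nat_lit 34965653280, nat_lit 36022861560, nat_lit 36944237984, nat_lit 37897196569], nat_lit 0, nat_lit 0, nat_lit 0, nat_lit 0, nat_lit 0, nat_lit 0, [], [nat_lit 6, nat_lit 40, nat_lit 80, nat_lit 80, nat_lit 3, nat_lit 203, nat_lit 0, nat_lit 6]⟩, ⟨p019_k13, nat_lit 0, nat_lit 0, nat_lit 568, nat_lit 0, nat_lit 831598, [nat_lit 4688000000, nat_lit 7968000000, nat_lit 9842000000], [], [nat_lit 35833930055, nat_lit 35885834079, nat_lit 36732067015, nat_lit 36773577878], nat_lit 1271250, nat_lit 1271250, nat_lit 1271250, nat_lit 1271250, nat_lit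 0, nat_lit 0, [nat_lit 1100000, nat_lit 1785000, nat_lit 1271250], [nat_lit 29, nat_lit 40, nat_lit 80, nat_lit 80, nat_lit 17, nat_lit 289, nat_lit 75, nat_lit 8]⟩,
 zbF0, [⟨nat_lit 13, nat_lit 76, nat_lit 45, nat_lit 100, nat_lit 34056070⟩]⟩
noncomputable def p019_l47 : Lf2 := ⟨nat_lit 0, nat_lit 10, [nat_lit 0, nat_lit 5, nat_lit 5, nat_lit 20], false, nat_lit 0, nat_lit 0, nat_lit 0, nat_lit 0, ⟨nat_lit 1000, nat_lit 0, nat_lit 0, nat_lit 0, nat_lit 0, nat_lit 0, nat_lit 0, nat_lit 0, nat_lit 0, nat_lit 0, nat_lit 0, nat_lit 0, nat_lit 0, nat_lit 0, nat_lit 0, nat_lit 0, false, false⟩,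
 nat_lit 0, nat_lit 0, nat_lit 10913, nat_lit 0, nat_lit 5491, nat_lit 6646, nat_lit 0, nat_lit 0, nat_lit 0, nat_lit 1162, nat_lit 0, nat_lit 0, nat_lit 0, nat_lit 0, nat_lit 0, nat_lit 0, nat_lit 0, nat_lit 0, [],
 ⟨p019_k0, nat_lit 0, nat_lit 0, nat_lit 175, nat_lit 0, nat_lit 0, [nat_lit 2032000001, nat_lit 4688000000, nat_lit 6250000000], [], [nat_lit 34976690274, nat_lit 36031292498, nat_lit 37196496043, nat_lit 38134313416], nat_lit 0, nat_lit 0, nat_lit 0, nat_lit 0, nat_lit 0, nat_lit 0, [], [nat_lit 6, nat_lit 40, nat_lit 80, nat_lit 80, nat_lit 3, nat_lit 203, nat_lit 0, nat_lit 6]⟩, ⟨p019_k14, nat_lit 0, nat_lit 0, nat_lit 586, nat_lit 0, nat_lit 879072, [nat_lit 4688000000, nat_lit 7968000000, nat_lit 9842000000], [], [nat_lit 35889331251, nat_lit 35996620836, nat_lit 36875770735, nat_lit 36960526917], nat_lit 1271250, nat_lit 1271250, nat_lit 1271250, nat_lit 1271250, nat_lit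 0, nat_lit 0, [nat_lit 1100000, nat_lit 1785000, nat_lit 1271250], [nat_lit 29, nat_lit 40, nat_lit 80, nat_lit 80, nat_lit 17, nat_lit 289, nat_lit 75, nat_lit 8]⟩,
 zbF0, [⟨nat_lit 13, nat_lit 76, nat_lit 43, nat_lit 100, nat_lit 33053354⟩]⟩
noncomputable def p019_l48 : Lf2 := ⟨nat_lit 0, nat_lit 10, [nat_lit 0, nat_lit 5, nat_lit 5, nat_lit 20], false, nat_lit 0, nat_lit 0, nat_lit 0, nat_lit 0, ⟨nat_lit 72, nat_lit 928, nat_lit 0, nat_lit 9, nat_lit 337, nat_lit 0, nat_lit 0, nat_lit 0, nat_lit 0, nat_lit 0, nat_lit 0, nat_lit 0, nat_lit 39204653, nat_lit 27795347, nat_lit 0, nat_lit 3392885, true, true⟩,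
 nat_lit 0, nat_lit 0, nat_lit 1004, nat_lit 0, nat_lit 3627, nat_lit 584, nat_lit 0, nat_lit 0, nat_lit 0, nat_lit 50, nat_lit 0, nat_lit 0, nat_lit 0, nat_lit 0, nat_lit 0, nat_lit 232000, nat_lit 0, nat_lit 0, [(nat_lit 21, [(nat_lit 0, nat_lit 928)])],
 ⟨p019_k4, nat_lit 0, nat_lit 0, nat_lit 173, nat_lit 0, nat_lit 0, [nat_lit 1592499201, nat_lit 2329024001, nat_lit 2441488000], [], [nat_lit 30405710307, nat_lit 30849258171, nat_lit 31567505353, nat_lit 31982753089], nat_lit 0, nat_lit 0, nat_lit 0, nat_lit 0, nat_lit 0, nat_lit 0, [], [nat_lit 6, nat_lit 40, nat_lit 80, nat_lit 80, nat_lit 3, nat_lit 203, nat_lit 0, nat_lit 6]⟩, ⟨p019_k3, nat_lit 0, nat_lit 0, nat_lit 628, nat_lit 0, nat_lit 985403, [nat_lit 337536000, nat_lit 573696000, nat_lit 708624000], [], [nat_lit 2725076000, nat_lit 2728738310, nat_lit 2782984432, nat_lit 2790608757], nat_lit 1271250, nat_lit 1271250, nat_lit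 1271250, nat_lit 1271250, nat_lit 0, nat_lit 0, [nat_lit 1100000, nat_lit 1785000, nat_lit 1271250], [nat_lit 29, nat_lit 40, nat_lit 80, nat_lit 80, nat_lit 17, nat_lit 289, nat_lit 75, nat_lit 8]⟩,
 ⟨nat_lit 3535, nat_lit 3873, ⟨.ofNat (nat_lit 823465), .ofNat (nat_lit 862178), .ofNat (nat_lit 828913), .ofNat (nat_lit 867626), .ofNat (nat_lit 816902), .ofNat (nat_lit 854559), .ofNat (nat_lit 822390), .ofNat (nat_lit 860047)⟩, ⟨.ofNat (nat_lit 0), .ofNat (nat_lit 0), .ofNat (nat_lit 0), .ofNat (nat_lit 0), .ofNat (nat_lit 0), .ofNat (nat_lit 0), .ofNat (nat_lit 0), .ofNat (nat_lit 0)⟩⟩, [⟨nat_lit 13, nat_lit 69, nat_lit 54, nat_lit 100, nat_lit 267590736⟩]⟩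
noncomputable def p019_l49 : Lf2 := ⟨nat_lit 0, nat_lit 10, [nat_lit 0, nat_lit 5, nat_lit 5, nat_lit 20], false, nat_lit 0, nat_lit 0, nat_lit 0, nat_lit 0, ⟨nat_lit 85, nat_lit 915, nat_lit 0, nat_lit 9, nat_lit 339, nat_lit 0, nat_lit 0, nat_lit 0, nat_lit 0, nat_lit 0, nat_lit 0, nat_lit 0, nat_lit 38993866, nat_lit 28006134, nat_lit 0, nat_lit 3398193, true, true⟩,
 nat_lit 0, nat_lit 0, nat_lit 1038, nat_lit 0, nat_lit 3656, nat_lit 618, nat_lit 0, nat_lit 0, nat_lit 0, nat_lit 61, nat_lit 0, nat_lit 0, nat_lit 0, nat_lit 0, nat_lit 0, nat_lit 228750, nat_lit 0, nat_lit 0, [(nat_lit 21, [(nat_lit 0, nat_lit 915)])],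
 ⟨p019_k4, nat_lit 0, nat_lit 0, nat_lit 173, nat_lit 0, nat_lit 0, [nat_lit 1598656001, nat_lit 2362070001, nat_lit 2494840000], [], [nat_lit 30483677369, nat_lit 30928528261, nat_lit 31649209726, nat_lit 32065595137], nat_lit 0, nat_lit 0, nat_lit 0, nat_lit 0, nat_lit 0, nat_lit 0, [], [nat_lit 6, nat_lit 40, nat_lit 80, nat_lit 80, nat_lit 3, nat_lit 203, nat_lit 0, nat_lit 6]⟩, ⟨p019_k13, nat_lit 0, nat_lit 0, nat_lit 627, nat_lit 0, nat_lit 987540, [nat_lit 398480000, nat_lit 677280000, nat_lit 836570000], [], [nat_lit 3324372794, nat_lit 3328402091, nat_lit 3388103166, nat_lit 3392934540], nat_lit 1271250, nat_lit 1271250, nat_lit 1271250, nat_lit 1271250, nat_lit 0, nat_lit 0, [nat_lit 1100000, nat_lit 1785000, nat_lit 1271250], [nat_lit 29, nat_lit 40, nat_lit 80, nat_lit 80, nat_lit 17, nat_lit 289, nat_lit 75, nat_lit 8]⟩,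
 ⟨nat_lit 3535, nat_lit 3873, ⟨.ofNat (nat_lit 828913), .ofNat (nat_lit 867626), .ofNat (nat_lit 834361), .ofNat (nat_lit 873074), .ofNat (nat_lit 822390), .ofNat (nat_lit 860047), .ofNat (nat_lit 827878), .ofNat (nat_lit 865535)⟩, ⟨.ofNat (nat_lit 0), .ofNat (nat_lit 0), .ofNat (nat_lit 0), .ofNat (nat_lit 0), .ofNat (nat_lit 0), .ofNat (nat_lit 0), .ofNat (nat_lit 0), .ofNat (nat_lit 0)⟩⟩, [⟨nat_lit 13, nat_lit 70, nat_lit 52, nat_lit 100, nat_lit 259323120⟩]⟩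
noncomputable def p019_l50 : Lf2 := ⟨nat_lit 0, nat_lit 10, [nat_lit 0, nat_lit 5, nat_lit 5, nat_lit 20], false, nat_lit 0, nat_lit 0, nat_lit 0, nat_lit 0, ⟨nat_lit 96, nat_lit 904, nat_lit 0, nat_lit 9, nat_lit 342, nat_lit 0, nat_lit 0, nat_lit 0, nat_lit 0, nat_lit 0, nat_lit 0, nat_lit 0, nat_lit 38704072, nat_lit 28295928, nat_lit 0, nat_lit 3405159, true, true⟩,
 nat_lit 0, nat_lit 0, nat_lit 1124, nat_lit 0, nat_lit 3655, nat_lit 684, nat_lit 0, nat_lit 0, nat_lit 0, nat_lit 93, nat_lit 0, nat_lit 0, nat_lit 0, nat_lit 0, nat_lit 0, nat_lit 226000, nat_lit 0, nat_lit 0, [(nat_lit 21, [(nat_lit 0, nat_lit 904)])],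
 ⟨p019_k4, nat_lit 0, nat_lit 0, nat_lit 174, nat_lit 0, nat_lit 0, [nat_lit 1603865600, nat_lit 2390032001, nat_lit 2539984000], [], [nat_lit 30557074091, nat_lit 31001880051, nat_lit 31916711489, nat_lit 32328314374], nat_lit 0, nat_lit 0, nat_lit 0, nat_lit 0, nat_lit 0, nat_lit 0, [], [nat_lit 6, nat_lit 40, nat_lit 80, nat_lit 80, nat_lit 3, nat_lit 203, nat_lit 0, nat_lit 6]⟩, ⟨p019_k14, nat_lit 0, nat_lit 0, nat_lit 622, nat_lit 0, nat_lit 976494, [nat_lit 450048000, nat_lit 764928000, nat_lit 944832000], [], [nat_lit 3473333760, nat_lit 3475448192, nat_lit 3535306289, nat_lit 3538119376], nat_lit 1271250, nat_lit 1271250, nat_lit 1271250, nat_lit 1271250, nat_lit 0, nat_lit 0, [nat_lit 1100000, nat_lit 1785000, nat_lit 1271250], [nat_lit 29, nat_lit 40, nat_lit 80, nat_lit 80, nat_lit 17, nat_lit 289, nat_lit 75, nat_lit 8]⟩,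
 ⟨nat_lit 3535, nat_lit 3873, ⟨.ofNat (nat_lit 834361), .ofNat (nat_lit 879526), .ofNat (nat_lit 837630), .ofNat (nat_lit 882795), .ofNat (nat_lit 827878), .ofNat (nat_lit 871811), .ofNat (nat_lit 831171), .ofNat (nat_lit 875104)⟩, ⟨.ofNat (nat_lit 0), .ofNat (nat_lit 0), .ofNat (nat_lit 0), .ofNat (nat_lit 0), .ofNat (nat_lit 0), .ofNat (nat_lit 0), .ofNat (nat_lit 0), .ofNat (nat_lit 0)⟩⟩, [⟨nat_lit 13, nat_lit 71, nat_lit 50, nat_lit 100, nat_lit 246890822⟩]⟩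
noncomputable def p019_l51 : Lf2 := ⟨nat_lit 0, nat_lit 10, [nat_lit 0, nat_lit 5, nat_lit 5, nat_lit 20], false, nat_lit 0, nat_lit 0, nat_lit 0, nat_lit 0, ⟨nat_lit 148, nat_lit 852, nat_lit 0, nat_lit 9, nat_lit 343, nat_lit 0, nat_lit 0, nat_lit 0, nat_lit 0, nat_lit 0, nat_lit 0, nat_lit 0, nat_lit 38599646, nat_lit 28400354, nat_lit 0, nat_lit 3407575, true, true⟩,
 nat_lit 0, nat_lit 0, nat_lit 1613, nat_lit 0, nat_lit 3397, nat_lit 995, nat_lit 0, nat_lit 0, nat_lit 0, nat_lit 167, nat_lit 0, nat_lit 0, nat_lit 0, nat_lit 0, nat_lit 0, nat_lit 340800, nat_lit 0, nat_lit 0, [(nat_lit 21, [(nat_lit 1, nat_lit 852)])],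
 ⟨p019_k4, nat_lit 0, nat_lit 0, nat_lit 174, nat_lit 0, nat_lit 0, [nat_lit 1455366400, nat_lit 1965689601, nat_lit 2196184000], [], [nat_lit 29863937967, nat_lit 30297151471, nat_lit 31184784653, nat_lit 31586511323], nat_lit 0, nat_lit 0, nat_lit 0, nat_lit 0, nat_lit 0, nat_lit 0, [], [nat_lit 6, nat_lit 40, nat_lit 80, nat_lit 80, nat_lit 3, nat_lit 203, nat_lit 0, nat_lit 6]⟩, ⟨p019_k15, nat_lit 0, nat_lit 0, nat_lit 620, nat_lit 0, nat_lit 971457, [nat_lit 693824000, nat_lit 1179264000, nat_lit 1456616000], [], [nat_lit 5245077032, nat_lit 5247411918, nat_lit 5338985155, nat_lit 5340876710], nat_lit 1271250, nat_lit 1271250, nat_lit 1271250, nat_lit 1271250, nat_lit 0, nat_lit 0, [nat_lit 1100000, nat_lit 1785000, nat_lit 1271250], [nat_lit 29, nat_lit 40, nat_lit 80, nat_lit 80, nat_lit 17, nat_lit 289, nat_lit 75, nat_lit 7]⟩,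
 ⟨nat_lit 3535, nat_lit 3873, ⟨.ofNat (nat_lit 837630), .ofNat (nat_lit 882795), .ofNat (nat_lit 839809), .ofNat (nat_lit 884975), .ofNat (nat_lit 831171), .ofNat (nat_lit 875104), .ofNat (nat_lit 833366), .ofNat (nat_lit 877300)⟩, ⟨.ofNat (nat_lit 0), .ofNat (nat_lit 0), .ofNat (nat_lit 0), .ofNat (nat_lit 0), .ofNat (nat_lit 0), .ofNat (nat_lit 0), .ofNat (nat_lit 0), .ofNat (nat_lit 0)⟩⟩, [⟨nat_lit 13, nat_lit 71, nat_lit 49, nat_lit 100, nat_lit 218609762⟩]⟩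
noncomputable def p019_l52 : Lf2 := ⟨nat_lit 0, nat_lit 10, [nat_lit 0, nat_lit 5, nat_lit 5, nat_lit 20], false, nat_lit 0, nat_lit 0, nat_lit 0, nat_lit 0, ⟨nat_lit 1000, nat_lit 0, nat_lit 0, nat_lit 0, nat_lit 0, nat_lit 0, nat_lit 0, nat_lit 0, nat_lit 0, nat_lit 0, nat_lit 0, nat_lit 0, nat_lit 0, nat_lit 0, nat_lit 0, nat_lit 0, false, false⟩,
 nat_lit 0, nat_lit 0, nat_lit 11037, nat_lit 0, nat_lit 5521, nat_lit 6872, nat_lit 0, nat_lit 0, nat_lit 0, nat_lit 930, nat_lit 0, nat_lit 0, nat_lit 0, nat_lit 0, nat_lit 0, nat_lit 0, nat_lit 0, nat_lit 0, [],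
 ⟨p019_k4, nat_lit 0, nat_lit 0, nat_lit 173, nat_lit 0, nat_lit 0, [nat_lit 2032000001, nat_lit 4688000000, nat_lit 6250000000], [], [nat_lit 36022570838, nat_lit 36286895374, nat_lit 37662764322, nat_lit 37904280911], nat_lit 0, nat_lit 0, nat_lit 0, nat_lit 0, nat_lit 0, nat_lit 0, [], [nat_lit 6, nat_lit 40, nat_lit 80, nat_lit 80, nat_lit 3, nat_lit 203, nat_lit 0, nat_lit 6]⟩, ⟨p019_k16, nat_lit 0, nat_lit 0, nat_lit 601, nat_lit 0, nat_lit 921773, [nat_lit 4688000000, nat_lit 7968000000, nat_lit 9842000000], [], [nat_lit 35821332360, nat_lit 35873604898, nat_lit 36561791673, nat_lit 36606816775], nat_lit 1271250, nat_lit 1271250, nat_lit 1271250, nat_lit 1271250, nat_lit 0, nat_lit 0, [nat_lit 1100000, nat_lit 1785000, nat_lit 1271250], [nat_lit 29, nat_lit 40, nat_lit 80, nat_lit 80, nat_lit 17, nat_lit 289, nat_lit 75, nat_lit 7]⟩,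
 zbF0, [⟨nat_lit 13, nat_lit 76, nat_lit 42, nat_lit 100, nat_lit 25127320⟩]⟩
noncomputable def p019_l53 : Lf2 := ⟨nat_lit 0, nat_lit 10, [nat_lit 0, nat_lit 5, nat_lit 5, nat_lit 20], false, nat_lit 0, nat_lit 0, nat_lit 0, nat_lit 0, ⟨nat_lit 903, nat_lit 97, nat_lit 0, nat_lit 9, nat_lit 344, nat_lit 0, nat_lit 0, nat_lit 0, nat_lit 0, nat_lit 0, nat_lit 0, nat_lit 0, nat_lit 38520785, nat_lit 28479215, nat_lit 0, nat_lit 3409367, true, true⟩,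
 nat_lit 0, nat_lit 0, nat_lit 9657, nat_lit 0, nat_lit 4026, nat_lit 6012, nat_lit 457, nat_lit 0, nat_lit 0, nat_lit 999, nat_lit 0, nat_lit 0, nat_lit 0, nat_lit 0, nat_lit 0, nat_lit 24250, nat_lit 0, nat_lit 0, [(nat_lit 21, [(nat_lit 0, nat_lit 97)])],
 ⟨p019_k17, nat_lit 0, nat_lit 0, nat_lit 174, nat_lit 0, nat_lit 0, [nat_lit 1986060801, nat_lit 4441426000, nat_lit 5851912000], [], [nat_lit 31790451549, nat_lit 32009669660, nat_lit 33176477184, nat_lit 33392193715], nat_lit 0, nat_lit 0, nat_lit 0, nat_lit 0, nat_lit 0, nat_lit 0, [], [nat_lit 6, nat_lit 40, nat_lit 80, nat_lit 80, nat_lit 3, nat_lit 203, nat_lit 0, nat_lit 6]⟩, ⟨p019_k16, nat_lit 0, nat_lit 0, nat_lit 628, nat_lit 0, nat_lit 993904, [nat_lit 4233264000, nat_lit 7195104000, nat_lit 8887326000], [], [nat_lit 31888392498, nat_lit 31924407252, nat_lit 32538676235, nat_lit 32579335349], nat_lit 1271250, nat_lit 1271250,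 nat_lit 1271250, nat_lit 1271250, nat_lit 0, nat_lit 0, [nat_lit 1100000, nat_lit 1785000, nat_lit 1271250], [nat_lit 29, nat_lit 40, nat_lit 80, nat_lit 80, nat_lit 17, nat_lit 289, nat_lit 75, nat_lit 7]⟩,
 ⟨nat_lit 3535, nat_lit 3709, ⟨.ofNat (nat_lit 836588), .ofNat (nat_lit 881140), .ofNat (nat_lit 842055), .ofNat (nat_lit 886608), .ofNat (nat_lit 833367), .ofNat (nat_lit 877300), .ofNat (nat_lit 838855), .ofNat (nat_lit 882788)⟩, ⟨.ofNat (nat_lit 0), .ofNat (nat_lit 0), .ofNat (nat_lit 0), .ofNat (nat_lit 0), .ofNat (nat_lit 0), .ofNat (nat_lit 0), .ofNat (nat_lit 0), .ofNat (nat_lit 0)⟩⟩, []⟩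
noncomputable def p019_l54 : Lf2 := ⟨nat_lit 0, nat_lit 10, [nat_lit 0, nat_lit 5, nat_lit 5, nat_lit 20], false, nat_lit 0, nat_lit 0, nat_lit 0, nat_lit 0, ⟨nat_lit 69, nat_lit 931, nat_lit 0, nat_lit 9, nat_lit 338, nat_lit 0, nat_lit 0, nat_lit 0, nat_lit 0, nat_lit 0, nat_lit 0, nat_lit 0, nat_lit 39091359, nat_lit 27908641, nat_lit 0, nat_lit 3395763, true, true⟩,
 nat_lit 0, nat_lit 0, nat_lit 971, nat_lit 0, nat_lit 3312, nat_lit 565, nat_lit 0, nat_lit 0, nat_lit 0, nat_lit 43, nat_lit 0, nat_lit 0, nat_lit 0, nat_lit 0, nat_lit 0, nat_lit 232750, nat_lit 0, nat_lit 0, [(nat_lit 21, [(nat_lit 0, nat_lit 931)])],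
 ⟨p019_k5, nat_lit 0, nat_lit 0, nat_lit 161, nat_lit 0, nat_lit 0, [nat_lit 1591078400, nat_lit 2151583600], [], [nat_lit 30058900280, nat_lit 30275245220, nat_lit 31159876789, nat_lit 31363097646], nat_lit 0, nat_lit 0, nat_lit 0, nat_lit 0, nat_lit 0, nat_lit 0, [], [nat_lit 24, nat_lit 40, nat_lit 80, nat_lit 80, nat_lit 33, nat_lit 203, nat_lit 0, nat_lit 7]⟩, ⟨p019_k3, nat_lit 0, nat_lit 0, nat_lit 714, nat_lit 0, nat_lit 1177540, [nat_lit 323472000, nat_lit 549792000, nat_lit 679098000], [], [nat_lit 2689049344, nat_lit 2694602040, nat_lit 2728239969, nat_lit 2741907894], nat_lit 1271250, nat_lit 1271250, nat_lit 1271250, nat_lit 1271250, nat_lit 0, nat_lit 0, [nat_lit 1100000, nat_lit 1785000, nat_lit 1271250], [nat_lit 29, nat_lit 40, nat_lit 80, nat_lit 80, nat_lit 17, nat_lit 289, nat_lit 75, nat_lit 8]⟩,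
 ⟨nat_lit 3354, nat_lit 3536, ⟨.ofNat (nat_lit 816902), .ofNat (nat_lit 854559), .ofNat (nat_lit 838855), .ofNat (nat_lit 876512), .ofNat (nat_lit 813602), .ofNat (nat_lit 850721), .ofNat (nat_lit 835649), .ofNat (nat_lit 872768)⟩, ⟨.ofNat (nat_lit 0), .ofNat (nat_lit 0), .ofNat (nat_lit 0), .ofNat (nat_lit 0), .ofNat (nat_lit 0), .ofNat (nat_lit 0), .ofNat (nat_lit 0), .ofNat (nat_lit 0)⟩⟩, [⟨nat_lit 13, nat_lit 69, nat_lit 52, nat_lit 100, nat_lit 258797080⟩]⟩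
noncomputable def p019_l55 : Lf2 := ⟨nat_lit 0, nat_lit 10, [nat_lit 0, nat_lit 5, nat_lit 5, nat_lit 20], false, nat_lit 0, nat_lit 0, nat_lit 0, nat_lit 0, ⟨nat_lit 90, nat_lit 910, nat_lit 0, nat_lit 9, nat_lit 335, nat_lit 0, nat_lit 0, nat_lit 0, nat_lit 0, nat_lit 0, nat_lit 0, nat_lit 0, nat_lit 39346553, nat_lit 27653447, nat_lit 0, nat_lit 3389197, true, true⟩,
 nat_lit 0, nat_lit 0, nat_lit 1097, nat_lit 0, nat_lit 3347, nat_lit 638, nat_lit 0, nat_lit 0, nat_lit 0, nat_lit 103, nat_lit 0, nat_lit 0, nat_lit 0, nat_lit 0, nat_lit 0, nat_lit 227500, nat_lit 0, nat_lit 0, [(nat_lit 21, [(nat_lit 0, nat_lit 910)])],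
 ⟨p019_k18, nat_lit 0, nat_lit 0, nat_lit 161, nat_lit 0, nat_lit 0, [nat_lit 1601024000, nat_lit 1747376001, nat_lit 2210381999], [], [nat_lit 30371258437, nat_lit 30588415858, nat_lit 31281405450, nat_lit 31491671068], nat_lit 0, nat_lit 0, nat_lit 0, nat_lit 0, nat_lit 0, nat_lit 0, [], [nat_lit 78, nat_lit 40, nat_lit 80, nat_lit 80, nat_lit 22, nat_lit 203, nat_lit 0, nat_lit 7]⟩, ⟨p019_k11, nat_lit 0, nat_lit 0, nat_lit 744, nat_lit 0, nat_lit 1260877, [nat_lit 421920000, nat_lit 562500000, nat_lit 885780000], [], [nat_lit 3319505044, nat_lit 3324069638, nat_lit 3348450329, nat_lit 3354770610], nat_lit 1271250, nat_lit 1271250, nat_lit 1271250, nat_lit 1271250, nat_lit 0, nat_lit 0, [nat_lit 1100000, nat_lit 1442500, nat_lit 1271250], [nat_lit 11, nat_lit 40, nat_lit 80, nat_lit 80, nat_lit 1, nat_lit 289, nat_lit 75, nat_lit 8]⟩,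
 ⟨nat_lit 3162, nat_lit 3355, ⟨.ofNat (nat_lit 813602), .ofNat (nat_lit 844534), .ofNat (nat_lit 835649), .ofNat (nat_lit 866582), .ofNat (nat_lit 810277), .ofNat (nat_lit 840753), .ofNat (nat_lit 832432), .ofNat (nat_lit 862908)⟩, ⟨.ofNat (nat_lit 0), .ofNat (nat_lit 0), .ofNat (nat_lit 0), .ofNat (nat_lit 0), .ofNat (nat_lit 0), .ofNat (nat_lit 0), .ofNat (nat_lit 0), .ofNat (nat_lit 0)⟩⟩, [⟨nat_lit 13, nat_lit 66, nat_lit 56, nat_lit 100, nat_lit 263142935⟩]⟩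
noncomputable def p019_l56 : Lf2 := ⟨nat_lit 0, nat_lit 10, [nat_lit 0, nat_lit 5, nat_lit 5, nat_lit 20], false, nat_lit 0, nat_lit 0, nat_lit 0, nat_lit 0, ⟨nat_lit 63, nat_lit 937, nat_lit 0, nat_lit 6, nat_lit 245, nat_lit 0, nat_lit 0, nat_lit 0, nat_lit 0, nat_lit 0, nat_lit 0, nat_lit 0, nat_lit 0, nat_lit 0, nat_lit 0, nat_lit 5000000, false, false⟩,
 nat_lit 0, nat_lit 0, nat_lit 1020, nat_lit 0, nat_lit 3683, nat_lit 540, nat_lit 0, nat_lit 0, nat_lit 0, nat_lit 29, nat_lit 0, nat_lit 0, nat_lit 0, nat_lit 0, nat_lit 0, nat_lit 234250, nat_lit 0, nat_lit 0, [(nat_lit 18, [(nat_lit 0, nat_lit 937)]), (nat_lit 21, [(nat_lit 0, nat_lit 937)])],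
 ⟨p019_k0, nat_lit 0, nat_lit 0, nat_lit 179, nat_lit 0, nat_lit 0, [nat_lit 1588236801, nat_lit 2326760000, nat_lit 2794344000], [], [nat_lit 21533521333, nat_lit 24415260437, nat_lit 31687269934, nat_lit 33486019600], nat_lit 0, nat_lit 0, nat_lit 0, nat_lit 0, nat_lit 0, nat_lit 0, [], [nat_lit 6, nat_lit 40, nat_lit 80, nat_lit 80, nat_lit 3, nat_lit 317, nat_lit 100, nat_lit 12]⟩, ⟨p019_k1, nat_lit 0, nat_lit 0, nat_lit 1010, nat_lit 0, nat_lit 1450619, [nat_lit 295344000, nat_lit 501984000, nat_lit 747936000], [], [nat_lit 3163983445, nat_lit 3159545250, nat_lit 3406672476, nat_lit 2923276788], nat_lit 1271250, nat_lit 1271250, nat_lit 382400, nat_lit 2926350, nat_lit 0, nat_lit 0, [nat_lit 1100000, nat_lit 1785000, nat_lit 1271250], [nat_lit 21, nat_lit 40, nat_lit 80, nat_lit 80, nat_lit 14, nat_lit 401, nat_lit 175, nat_lit 11]⟩,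
 ⟨nat_lit 3162, nat_lit 4473, ⟨.ofNat (nat_lit 311562), .ofNat (nat_lit 876224), .ofNat (nat_lit 354514), .ofNat (nat_lit 919290), .ofNat (nat_lit 336623), .ofNat (nat_lit 842980), .ofNat (nat_lit 380752), .ofNat (nat_lit 887222)⟩, ⟨.ofNat (nat_lit 0), .ofNat (nat_lit 0), .ofNat (nat_lit 0), .ofNat (nat_lit 0), .ofNat (nat_lit 0), .ofNat (nat_lit 0), .ofNat (nat_lit 0), .ofNat (nat_lit 0)⟩⟩, [⟨nat_lit 13, nat_lit 87, nat_lit 25, nat_lit 100, nat_lit 232666012⟩]⟩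
noncomputable def b_N_800_600_0_4 : St := ⟨false, nat_lit 0, nat_lit 2, nat_lit 0, nat_lit 40, nat_lit 320, nat_lit 360, nat_lit 240, nat_lit 280, nat_lit 64, nat_lit 396, nat_lit 0, nat_lit 0, nat_lit 0, nat_lit 0, nat_lit 0, nat_lit 0, nat_lit 80, nat_lit 120, nat_lit 0, nat_lit 0, nat_lit 0, nat_lit 0⟩
theorem d_N_800_600_0_4 (h : EB TB.env) : Dead b_N_800_600_0_4 := chkB_sound0 h (T :=
(.gv
(.st (nat_lit 1)
(.leaf p019_l26)
(.spl (nat_lit 2) (nat_lit 240)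
(.leaf p019_l27)
(.spl (nat_lit 2) (nat_lit 320)
(.spl (nat_lit 2) (nat_lit 280)
(.leaf p019_l28)
(.leaf p019_l29))
(.spl (nat_lit 1) (nat_lit 260)
(.trX (nat_lit 13) (nat_lit 84) (nat_lit 35) (nat_lit 100) (nat_lit 392) (.spl (nat_lit 0) (nat_lit 340)
(.spl (nat_lit 2) (nat_lit 360)
(.spl (nat_lit 1) (nat_lit 250)
(.leaf p019_l30)
(.leaf p019_l31))
(.spl (nat_lit 1) (nat_lit 250)
(.trX (nat_lit 13) (nat_lit 83) (nat_lit 39) (nat_lit 100) (nat_lit 388) (.leaf p019_l32))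
(.spl (nat_lit 1) (nat_lit 255)
(.trX (nat_lit 13) (nat_lit 83) (nat_lit 37) (nat_lit 100) (nat_lit 388) (.leaf p019_l33))
(.spl (nat_lit 0) (nat_lit 330)
(.leaf p019_l34)
(.trX (nat_lit 13) (nat_lit 80) (nat_lit 41) (nat_lit 100) (nat_lit 384) (.leaf p019_l35))))))
(.trX (nat_lit 13) (nat_lit 75) (nat_lit 48) (nat_lit 100) (nat_lit 380) (.spl (nat_lit 1) (nat_lit 250)
(.trX (nat_lit 13) (nat_lit 74) (nat_lit 52) (nat_lit 100) (nat_lit 376) (.spl (nat_lit 6) (nat_lit 100)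
(.leaf p019_l36)
(.spl (nat_lit 0) (nat_lit 350)
(.leaf p019_l37)
(.trX (nat_lit 13) (nat_lit 68) (nat_lit 58) (nat_lit 100) (nat_lit 368) (.leaf p019_l38)))))
(.spl (nat_lit 2) (nat_lit 360)
(.spl (nat_lit 0) (nat_lit 350)
(.leaf p019_l39)
(.leaf p019_l40))
(.leaf p019_l41))))))
(.spl (nat_lit 2) (nat_lit 360)
(.spl (nat_lit 0) (nat_lit 340)
(.leaf p019_l42)
(.spl (nat_lit 0) (nat_lit 350)
(.leaf p019_l43)
(.leaf p019_l44)))
(.spl (nat_lit 0) (nat_lit 340)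
(.spl (nat_lit 1) (nat_lit 270)
(.trX (nat_lit 13) (nat_lit 85) (nat_lit 30) (nat_lit 100) (nat_lit 392) (.spl (nat_lit 1) (nat_lit 265)
(.leaf p019_l45)
(.leaf p019_l46)))
(.leaf p019_l47))
(.trX (nat_lit 13) (nat_lit 78) (nat_lit 39) (nat_lit 100) (nat_lit 388) (.spl (nat_lit 0) (nat_lit 350)
(.spl (nat_lit 1) (nat_lit 270)
(.trX (nat_lit 13) (nat_lit 76) (nat_lit 43) (nat_lit 100) (nat_lit 384) (.spl (nat_lit 1) (nat_lit 265)
(.leaf p019_l48)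
(.leaf p019_l49)))
(.spl (nat_lit 1) (nat_lit 275)
(.spl (nat_lit 1) (nat_lit 273)
(.leaf p019_l50)
(.leaf p019_l51))
(.spl (nat_lit 0) (nat_lit 345)
(.leaf p019_l52)
(.leaf p019_l53))))
(.trX (nat_lit 13) (nat_lit 72) (nat_lit 46) (nat_lit 100) (nat_lit 384) (.spl (nat_lit 0) (nat_lit 355)
(.leaf p019_l54)
(.trX (nat_lit 13) (nat_lit 69) (nat_lit 50) (nat_lit 100) (nat_lit 380) (.leaf p019_l55))))))))))))
(.leaf p019_l56))) (by decide +kernel)
noncomputable def p019_l57 : Lf2 := ⟨nat_lit 0, nat_lit 10, [nat_lit 0, nat_lit 5, nat_lit 5, nat_lit 20], false, nat_lit 0, nat_lit 0, nat_lit 0, nat_lit 0, ⟨nat_lit 501, nat_lit 0, nat_lit 499, nat_lit 6, nat_lit 156, nat_lit 0, nat_lit 0, nat_lit 0, nat_lit 0, nat_lit 215, nat_lit 109350, nat_lit 296, nat_lit 58113583, nat_lit 0, nat_lit 0, nat_lit 1956806, false, false⟩,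
 nat_lit 0, nat_lit 5911, nat_lit 0, nat_lit 0, nat_lit 4433, nat_lit 3513, nat_lit 0, nat_lit 0, nat_lit 0, nat_lit 0, nat_lit 0, nat_lit 0, nat_lit 0, nat_lit 0, nat_lit 0, nat_lit 499000, nat_lit 0, nat_lit 0, [(nat_lit 18, [(nat_lit 6, nat_lit 499)]), (nat_lit 21, [(nat_lit 6, nat_lit 499)])],
 ⟨p019_k0, nat_lit 0, nat_lit 0, nat_lit 473, nat_lit 0, nat_lit 782571, [nat_lit 1546838934, nat_lit 1730061067, nat_lit 1184750800], [], [nat_lit 21811124847, nat_lit 24336315171, nat_lit 21676754470, nat_lit 23290681507], nat_lit 1271250, nat_lit 1271250, nat_lit 382400, nat_lit 780000, nat_lit 0, nat_lit 0, [nat_lit 490000, nat_lit 1100000, nat_lit 1442500], [nat_lit 6, nat_lit 40, nat_lit 80, nat_lit 80, nat_lit 3, nat_lit 238, nat_lit 30, nat_lit 9]⟩, ⟨p019_k1, nat_lit 0, nat_lit 0, nat_lit 253, nat_lit 0, nat_lit 0, [nat_lit 2348688000, nat_lit 3991968000, nat_lit 5947872000], [], [nat_lit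 16605807291, nat_lit 18093200487, nat_lit 15962431086, nat_lit 17359183620], nat_lit 0, nat_lit 0, nat_lit 0, nat_lit 0, nat_lit 0, nat_lit 0, [], [nat_lit 21, nat_lit 40, nat_lit 80, nat_lit 80, nat_lit 14, nat_lit 317, nat_lit 100, nat_lit 8]⟩,
 ⟨nat_lit 3162, nat_lit 4473, ⟨.ofNat (nat_lit 311562), .ofNat (nat_lit 406840), .ofNat (nat_lit 354514), .ofNat (nat_lit 449792), .ofNat (nat_lit 336623), .ofNat (nat_lit 422066), .ofNat (nat_lit 380752), .ofNat (nat_lit 466195)⟩, ⟨.ofNat (nat_lit 0), .ofNat (nat_lit 0), .ofNat (nat_lit 0), .ofNat (nat_lit 0), .ofNat (nat_lit 0), .ofNat (nat_lit 0), .ofNat (nat_lit 0), .ofNat (nat_lit 0)⟩⟩, [⟨nat_lit 0, nat_lit 100, nat_lit 75, nat_lit 92, nat_lit 528036412⟩, ⟨nat_lit 0, nat_lit 94, nat_lit 62, nat_lit 100, nat_lit 131932696⟩]⟩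
noncomputable def p019_l58 : Lf2 := ⟨nat_lit 0, nat_lit 10, [nat_lit 0, nat_lit 5, nat_lit 5, nat_lit 20], false, nat_lit 0, nat_lit 0, nat_lit 0, nat_lit 0, ⟨nat_lit 1000, nat_lit 0, nat_lit 0, nat_lit 0, nat_lit 0, nat_lit 0, nat_lit 0, nat_lit 0, nat_lit 0, nat_lit 0, nat_lit 0, nat_lit 0, nat_lit 0, nat_lit 0, nat_lit 0, nat_lit 0, false, false⟩,
 nat_lit 0, nat_lit 9012, nat_lit 0, nat_lit 0, nat_lit 6759, nat_lit 6646, nat_lit 541, nat_lit 0, nat_lit 0, nat_lit 0, nat_lit 0, nat_lit 0, nat_lit 0, nat_lit 0, nat_lit 0, nat_lit 0, nat_lit 0, nat_lit 0, [],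
 ⟨p019_k0, nat_lit 0, nat_lit 0, nat_lit 370, nat_lit 0, nat_lit 599822, [nat_lit 2032000001, nat_lit 4688000000, nat_lit 6250000000], [], [nat_lit 25998972704, nat_lit 27213048249, nat_lit 39776261440, nat_lit 41248404771], nat_lit 1271250, nat_lit 1271250, nat_lit 780000, nat_lit 3039750, nat_lit 0, nat_lit 0, [nat_lit 490000, nat_lit 1100000, nat_lit 1442500], [nat_lit 6, nat_lit 40, nat_lit 80, nat_lit 80, nat_lit 3, nat_lit 317, nat_lit 100, nat_lit 12]⟩, ⟨p019_k1, nat_lit 0, nat_lit 0, nat_lit 249, nat_lit 0, nat_lit 0, [nat_lit 4688000000, nat_lit 7968000000, nat_lit 11872000000], [], [nat_lit 32148581140, nat_lit 34452802572, nat_lit 44662668066, nat_lit 45774772261], nat_lit 0, nat_lit 0, nat_lit 0, nat_lit 0, nat_lit 0, nat_lit 0, [], [nat_lit 21, nat_lit 40, nat_lit 80, nat_lit 80, nat_lit 14, nat_lit 401, nat_lit 175, nat_lit 10]⟩,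
 zbF0, []⟩
noncomputable def p019_l59 : Lf2 := ⟨nat_lit 0, nat_lit 10, [nat_lit 0, nat_lit 5, nat_lit 5, nat_lit 20], false, nat_lit 0, nat_lit 0, nat_lit 0, nat_lit 0, ⟨nat_lit 1000, nat_lit 0, nat_lit 0, nat_lit 0, nat_lit 0, nat_lit 0, nat_lit 0, nat_lit 0, nat_lit 0, nat_lit 0, nat_lit 0, nat_lit 0, nat_lit 0, nat_lit 0, nat_lit 0, nat_lit 0, false, false⟩,
 nat_lit 0, nat_lit 6006, nat_lit 0, nat_lit 0, nat_lit 4862, nat_lit 6646, nat_lit 975, nat_lit 0, nat_lit 0, nat_lit 0, nat_lit 0, nat_lit 0, nat_lit 0, nat_lit 0, nat_lit 0, nat_lit 0, nat_lit 0, nat_lit 0, [],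
 ⟨p019_k4, nat_lit 0, nat_lit 0, nat_lit 422, nat_lit 0, nat_lit 705628, [nat_lit 2032000001, nat_lit 4688000000, nat_lit 6250000000], [], [nat_lit 23113449394, nat_lit 24202609670, nat_lit 35154199868, nat_lit 36435230319], nat_lit 1271250, nat_lit 1271250, nat_lit 780000, nat_lit 2974250, nat_lit 0, nat_lit 0, [nat_lit 490000, nat_lit 1100000, nat_lit 1442500], [nat_lit 6, nat_lit 40, nat_lit 80, nat_lit 80, nat_lit 3, nat_lit 317, nat_lit 100, nat_lit 12]⟩, ⟨p019_k1, nat_lit 0, nat_lit 0, nat_lit 246, nat_lit 0, nat_lit 0, [nat_lit 4688000000, nat_lit 7968000000, nat_lit 11872000000], [], [nat_lit 32148581140, nat_lit 34452802572, nat_lit 44069584485, nat_lit 45235047983], nat_lit 0, nat_lit 0, nat_lit 0, nat_lit 0, nat_lit 0, nat_lit 0, [], [nat_lit 21, nat_lit 40, nat_lit 80, nat_lit 80, nat_lit 14, nat_lit 401, nat_lit 175, nat_lit 10]⟩,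
 zbF0, [⟨nat_lit 0, nat_lit 94, nat_lit 62, nat_lit 100, nat_lit 36683498⟩]⟩
noncomputable def p019_l60 : Lf2 := ⟨nat_lit 0, nat_lit 10, [nat_lit 0, nat_lit 5, nat_lit 5, nat_lit 20], false, nat_lit 0, nat_lit 0, nat_lit 0, nat_lit 0, ⟨nat_lit 124, nat_lit 0, nat_lit 876, nat_lit 6, nat_lit 169, nat_lit 0, nat_lit 0, nat_lit 0, nat_lit 0, nat_lit 215, nat_lit 15182, nat_lit 244, nat_lit 56818410, nat_lit 0, nat_lit 0, nat_lit 2130502, false, false⟩,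
 nat_lit 3173, nat_lit 767, nat_lit 0, nat_lit 0, nat_lit 2955, nat_lit 1679, nat_lit 0, nat_lit 0, nat_lit 0, nat_lit 119, nat_lit 0, nat_lit 0, nat_lit 0, nat_lit 0, nat_lit 28, nat_lit 350400, nat_lit 0, nat_lit 0, [(nat_lit 18, [(nat_lit 5, nat_lit 876)]), (nat_lit 21, [(nat_lit 5, nat_lit 876)])],
 ⟨p019_k0, nat_lit 0, nat_lit 0, nat_lit 342, nat_lit 0, nat_lit 448547, [nat_lit 1332345600, nat_lit 666648001, nat_lit 16444800], [], [nat_lit 18184224526, nat_lit 20463469204, nat_lit 19049828021, nat_lit 20896382400], nat_lit 1271250, nat_lit 1271250, nat_lit 382400, nat_lit 1100001, nat_lit 0, nat_lit 0, [nat_lit 490000, nat_lit 1100000, nat_lit 1442500], [nat_lit 6, nat_lit 40, nat_lit 80, nat_lit 80, nat_lit 3, nat_lit 249, nat_lit 40, nat_lit 10]⟩, ⟨p019_k1, nat_lit 0, nat_lit 0, nat_lit 665, nat_lit 0, nat_lit 687135, [nat_lit 581312000, nat_lit 988032000, nat_lit 1472128000], [],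 [nat_lit 4211429660, nat_lit 4473342610, nat_lit 5357521324, nat_lit 3775211576], nat_lit 1271250, nat_lit 1271250, nat_lit 382400, nat_lit 1100001, nat_lit 0, nat_lit 0, [nat_lit 1100000, nat_lit 1785000, nat_lit 1271250], [nat_lit 21, nat_lit 40, nat_lit 80, nat_lit 80, nat_lit 14, nat_lit 345, nat_lit 125, nat_lit 9]⟩,
 ⟨nat_lit 3162, nat_lit 4473, ⟨.ofNat (nat_lit 311562), .ofNat (nat_lit 474896), .ofNat (nat_lit 354514), .ofNat (nat_lit 517847), .ofNat (nat_lit 336623), .ofNat (nat_lit 483097), .ofNat (nat_lit 380752), .ofNat (nat_lit 527226)⟩, ⟨.ofNat (nat_lit 0), .ofNat (nat_lit 0), .ofNat (nat_lit 0), .ofNat (nat_lit 0), .ofNat (nat_lit 0), .ofNat (nat_lit 0), .ofNat (nat_lit 0), .ofNat (nat_lit 0)⟩⟩, [⟨nat_lit 0, nat_lit 100, nat_lit 75, nat_lit 92, nat_lit 38735569⟩, ⟨nat_lit 0, nat_lit 94, nat_lit 62, nat_lit 100, nat_lit 149215760⟩]⟩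
noncomputable def p019_l61 : Lf2 := ⟨nat_lit 0, nat_lit 10, [nat_lit 0, nat_lit 5, nat_lit 5, nat_lit 20], false, nat_lit 0, nat_lit 0, nat_lit 0, nat_lit 0, ⟨nat_lit 224, nat_lit 0, nat_lit 776, nat_lit 6, nat_lit 226, nat_lit 0, nat_lit 0, nat_lit 0, nat_lit 0, nat_lit 215, nat_lit 36668, nat_lit 200, nat_lit 50773914, nat_lit 0, nat_lit 0, nat_lit 2767900, false, false⟩,
 nat_lit 4275, nat_lit 0, nat_lit 0, nat_lit 0, nat_lit 3206, nat_lit 2263, nat_lit 27, nat_lit 0, nat_lit 0, nat_lit 233, nat_lit 0, nat_lit 0, nat_lit 0, nat_lit 0, nat_lit 0, nat_lit 310400, nat_lit 0, nat_lit 0, [(nat_lit 18, [(nat_lit 5, nat_lit 776)]), (nat_lit 21, [(nat_lit 5, nat_lit 776)])],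
 ⟨p019_k0, nat_lit 0, nat_lit 0, nat_lit 306, nat_lit 0, nat_lit 448547, [nat_lit 1213785601, nat_lit 728848001, nat_lit 231964800], [], [nat_lit 19958929041, nat_lit 21764410329, nat_lit 21691349985, nat_lit 23496111604], nat_lit 1271250, nat_lit 1271250, nat_lit 1100001, nat_lit 1785000, nat_lit 0, nat_lit 0, [nat_lit 490000, nat_lit 1100000, nat_lit 1442500], [nat_lit 6, nat_lit 40, nat_lit 80, nat_lit 80, nat_lit 3, nat_lit 272, nat_lit 60, nat_lit 10]⟩, ⟨p019_k1, nat_lit 0, nat_lit 0, nat_lit 580, nat_lit 0, nat_lit 687135, [nat_lit 1050112000, nat_lit 1784832000, nat_lit 2659328000], [], [nat_lit 6727142984, nat_lit 7001760796, nat_lit 9151697616, nat_lit 7115943772], nat_lit 1271250, nat_lit 1271250, nat_lit 1100001, nat_lit 1785000, nat_lit 0, nat_lit 0, [nat_lit 1100000, nat_lit 1785000, nat_lit 1271250], [nat_lit 21, nat_lit 40, nat_lit 80, nat_lit 80, nat_lit 14, nat_lit 373,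 nat_lit 150, nat_lit 10]⟩,
 ⟨nat_lit 3162, nat_lit 4473, ⟨.ofNat (nat_lit 474896), .ofNat (nat_lit 611007), .ofNat (nat_lit 517847), .ofNat (nat_lit 653959), .ofNat (nat_lit 483097), .ofNat (nat_lit 605159), .ofNat (nat_lit 527226), .ofNat (nat_lit 649288)⟩, ⟨.ofNat (nat_lit 0), .ofNat (nat_lit 0), .ofNat (nat_lit 0), .ofNat (nat_lit 0), .ofNat (nat_lit 0), .ofNat (nat_lit 0), .ofNat (nat_lit 0), .ofNat (nat_lit 0)⟩⟩, []⟩
noncomputable def p019_l62 : Lf2 := ⟨nat_lit 0, nat_lit 10, [nat_lit 0, nat_lit 5, nat_lit 5, nat_lit 20], false, nat_lit 0, nat_lit 0, nat_lit 0, nat_lit 0, ⟨nat_lit 1000, nat_lit 0, nat_lit 0, nat_lit 0, nat_lit 0, nat_lit 0, nat_lit 0, nat_lit 0, nat_lit 0, nat_lit 0, nat_lit 0, nat_lit 0, nat_lit 0, nat_lit 0, nat_lit 0, nat_lit 0, false, false⟩,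
 nat_lit 12839, nat_lit 0, nat_lit 0, nat_lit 0, nat_lit 7029, nat_lit 6797, nat_lit 0, nat_lit 0, nat_lit 0, nat_lit 838, nat_lit 0, nat_lit 0, nat_lit 0, nat_lit 0, nat_lit 0, nat_lit 0, nat_lit 0, nat_lit 0, [],
 ⟨p019_k0, nat_lit 0, nat_lit 0, nat_lit 281, nat_lit 0, nat_lit 343801, [nat_lit 2032000001, nat_lit 4688000000, nat_lit 6250000000], [], [nat_lit 32180280852, nat_lit 33382483596, nat_lit 40521234640, nat_lit 42026177895], nat_lit 1271250, nat_lit 1271250, nat_lit 1271250, nat_lit 1271250, nat_lit 0, nat_lit 0, [nat_lit 490000, nat_lit 1100000, nat_lit 1442500], [nat_lit 6, nat_lit 40, nat_lit 80, nat_lit 80, nat_lit 3, nat_lit 203, nat_lit 0, nat_lit 7]⟩, ⟨p019_k1, nat_lit 0, nat_lit 0, nat_lit 500, nat_lit 0, nat_lit 526673, [nat_lit 4688000000, nat_lit 7968000000, nat_lit 11872000000], [], [nat_lit 39398958236, nat_lit 40014632664, nat_lit 43994365512, nat_lit 44702831927],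 nat_lit 1271250, nat_lit 1271250, nat_lit 1271250, nat_lit 1271250, nat_lit 0, nat_lit 0, [nat_lit 1100000, nat_lit 1785000, nat_lit 1271250], [nat_lit 21, nat_lit 40, nat_lit 80, nat_lit 80, nat_lit 14, nat_lit 401, nat_lit 175, nat_lit 10]⟩,
 zbF0, []⟩
noncomputable def p019_l63 : Lf2 := ⟨nat_lit 0, nat_lit 10, [nat_lit 0, nat_lit 5, nat_lit 5, nat_lit 20], false, nat_lit 0, nat_lit 0, nat_lit 0, nat_lit 0, ⟨nat_lit 1000, nat_lit 0, nat_lit 0, nat_lit 0, nat_lit 0, nat_lit 0, nat_lit 0, nat_lit 0, nat_lit 0, nat_lit 0, nat_lit 0, nat_lit 0, nat_lit 0, nat_lit 0, nat_lit 0, nat_lit 0, false, false⟩,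
 nat_lit 6046, nat_lit 0, nat_lit 6793, nat_lit 0, nat_lit 4894, nat_lit 6797, nat_lit 607, nat_lit 0, nat_lit 0, nat_lit 814, nat_lit 0, nat_lit 0, nat_lit 0, nat_lit 0, nat_lit 0, nat_lit 0, nat_lit 0, nat_lit 0, [],
 ⟨p019_k4, nat_lit 0, nat_lit 0, nat_lit 293, nat_lit 0, nat_lit 361338, [nat_lit 2032000001, nat_lit 4688000000, nat_lit 6250000000], [], [nat_lit 26837344290, nat_lit 27340219890, nat_lit 35244115887, nat_lit 35886677634], nat_lit 1271250, nat_lit 1271250, nat_lit 1271250, nat_lit 1271250, nat_lit 0, nat_lit 0, [nat_lit 490000, nat_lit 1100000, nat_lit 1442500], [nat_lit 6, nat_lit 40, nat_lit 80, nat_lit 80, nat_lit 3, nat_lit 203, nat_lit 0, nat_lit 7]⟩, ⟨p019_k1, nat_lit 0, nat_lit 0, nat_lit 529, nat_lit 0, nat_lit 605958, [nat_lit 4688000000, nat_lit 7968000000, nat_lit 11872000000], [], [nat_lit 39718758236, nat_lit 40334432664, nat_lit 43822287505, nat_lit 44349529616],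 nat_lit 1271250, nat_lit 1271250, nat_lit 1271250, nat_lit 1271250, nat_lit 0, nat_lit 0, [nat_lit 1100000, nat_lit 1785000, nat_lit 1271250], [nat_lit 21, nat_lit 40, nat_lit 80, nat_lit 80, nat_lit 14, nat_lit 401, nat_lit 175, nat_lit 10]⟩,
 zbF0, []⟩
noncomputable def p019_l64 : Lf2 := ⟨nat_lit 0, nat_lit 10, [nat_lit 0, nat_lit 5, nat_lit 5, nat_lit 20], false, nat_lit 0, nat_lit 0, nat_lit 0, nat_lit 0, ⟨nat_lit 1000, nat_lit 0, nat_lit 0, nat_lit 0, nat_lit 0, nat_lit 0, nat_lit 0, nat_lit 0, nat_lit 0, nat_lit 0, nat_lit 0, nat_lit 0, nat_lit 0, nat_lit 0, nat_lit 0, nat_lit 0, false, false⟩,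
 nat_lit 13375, nat_lit 0, nat_lit 0, nat_lit 0, nat_lit 5759, nat_lit 7080, nat_lit 0, nat_lit 0, nat_lit 0, nat_lit 818, nat_lit 0, nat_lit 0, nat_lit 0, nat_lit 0, nat_lit 0, nat_lit 0, nat_lit 0, nat_lit 0, [],
 ⟨p019_k5, nat_lit 0, nat_lit 0, nat_lit 265, nat_lit 0, nat_lit 392337, [nat_lit 2032000001, nat_lit 4688000000], [], [nat_lit 29890528784, nat_lit 30557518200, nat_lit 38037262779, nat_lit 38746419923], nat_lit 1271250, nat_lit 1271250, nat_lit 1271250, nat_lit 1271250, nat_lit 0, nat_lit 0, [nat_lit 490000, nat_lit 1100000], [nat_lit 24, nat_lit 40, nat_lit 80, nat_lit 80, nat_lit 33, nat_lit 203, nat_lit 0, nat_lit 8]⟩, ⟨p019_k1, nat_lit 0, nat_lit 0, nat_lit 560, nat_lit 0, nat_lit 687135, [nat_lit 4688000000, nat_lit 7968000000, nat_lit 11872000000], [], [nat_lit 39071011000, nat_lit 39732689360, nat_lit 43134122841, nat_lit 43664663257], nat_lit 1271250, nat_lit 1271250,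 nat_lit 1271250, nat_lit 1271250, nat_lit 0, nat_lit 0, [nat_lit 1100000, nat_lit 1785000, nat_lit 1271250], [nat_lit 21, nat_lit 40, nat_lit 80, nat_lit 80, nat_lit 14, nat_lit 401, nat_lit 175, nat_lit 10]⟩,
 zbF0, []⟩
noncomputable def p019_l65 : Lf2 := ⟨nat_lit 0, nat_lit 10, [nat_lit 0, nat_lit 5, nat_lit 5, nat_lit 20], false, nat_lit 0, nat_lit 0, nat_lit 0, nat_lit 0, ⟨nat_lit 467, nat_lit 533, nat_lit 0, nat_lit 6, nat_lit 246, nat_lit 0, nat_lit 0, nat_lit 0, nat_lit 0, nat_lit 0, nat_lit 0, nat_lit 0, nat_lit 0, nat_lit 0, nat_lit 0, nat_lit 5000000, false, false⟩,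
 nat_lit 0, nat_lit 5571, nat_lit 0, nat_lit 0, nat_lit 4178, nat_lit 2540, nat_lit 148, nat_lit 0, nat_lit 0, nat_lit 0, nat_lit 0, nat_lit 0, nat_lit 0, nat_lit 0, nat_lit 0, nat_lit 533000, nat_lit 0, nat_lit 0, [(nat_lit 18, [(nat_lit 2, nat_lit 533)])],
 ⟨p019_k0, nat_lit 0, nat_lit 0, nat_lit 397, nat_lit 0, nat_lit 599822, [nat_lit 1856038934, nat_lit 2746458667, nat_lit 2682524400], [], [nat_lit 25784682958, nat_lit 26684327621, nat_lit 35111114327, nat_lit 33819920637], nat_lit 1271250, nat_lit 1271250, nat_lit 382400, nat_lit 2926350, nat_lit 0, nat_lit 0, [nat_lit 490000, nat_lit 1100000, nat_lit 1442500], [nat_lit 6, nat_lit 40, nat_lit 80, nat_lit 80, nat_lit 3, nat_lit 317, nat_lit 100, nat_lit 12]⟩, ⟨p019_k1, nat_lit 0, nat_lit 0, nat_lit 253, nat_lit 0, nat_lit 0, [nat_lit 2189296000, nat_lit 3721056000, nat_lit 5544224000], [], [nat_lit 15676646759, nat_lit 16722331867,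 nat_lit 20309056860, nat_lit 20756374045], nat_lit 0, nat_lit 0, nat_lit 0, nat_lit 0, nat_lit 0, nat_lit 0, [], [nat_lit 21, nat_lit 40, nat_lit 80, nat_lit 80, nat_lit 14, nat_lit 401, nat_lit 175, nat_lit 11]⟩,
 ⟨nat_lit 3872, nat_lit 4473, ⟨.ofNat (nat_lit 311945), .ofNat (nat_lit 876219), .ofNat (nat_lit 355043), .ofNat (nat_lit 919326), .ofNat (nat_lit 324151), .ofNat (nat_lit 859735), .ofNat (nat_lit 367703), .ofNat (nat_lit 903295)⟩, ⟨.ofNat (nat_lit 0), .ofNat (nat_lit 0), .ofNat (nat_lit 0), .ofNat (nat_lit 0), .ofNat (nat_lit 0), .ofNat (nat_lit 0), .ofNat (nat_lit 0), .ofNat (nat_lit 0)⟩⟩, []⟩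
noncomputable def p019_l66 : Lf2 := ⟨nat_lit 0, nat_lit 10, [nat_lit 0, nat_lit 5, nat_lit 5, nat_lit 20], false, nat_lit 0, nat_lit 0, nat_lit 0, nat_lit 0, ⟨nat_lit 569, nat_lit 431, nat_lit 0, nat_lit 6, nat_lit 250, nat_lit 0, nat_lit 0, nat_lit 0, nat_lit 0, nat_lit 0, nat_lit 0, nat_lit 0, nat_lit 0, nat_lit 0, nat_lit 0, nat_lit 5000000, false, false⟩,
 nat_lit 0, nat_lit 4617, nat_lit 0, nat_lit 0, nat_lit 3737, nat_lit 3739, nat_lit 509, nat_lit 0, nat_lit 0, nat_lit 0, nat_lit 0, nat_lit 0, nat_lit 0, nat_lit 0, nat_lit 0, nat_lit 191000, nat_lit 0, nat_lit 0, [(nat_lit 21, [(nat_lit 1, nat_lit 400), (nat_lit 2, nat_lit 31)])],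
 ⟨p019_k4, nat_lit 0, nat_lit 0, nat_lit 432, nat_lit 0, nat_lit 705628, [nat_lit 1741725200, nat_lit 3260115601, nat_lit 4117933200], [], [nat_lit 25317969653, nat_lit 26293861041, nat_lit 32521534010, nat_lit 33137159984], nat_lit 1271250, nat_lit 1271250, nat_lit 545600, nat_lit 2911850, nat_lit 0, nat_lit 0, [nat_lit 490000, nat_lit 1100000, nat_lit 1442500], [nat_lit 6, nat_lit 40, nat_lit 80, nat_lit 80, nat_lit 3, nat_lit 317, nat_lit 100, nat_lit 12]⟩, ⟨p019_k1, nat_lit 0, nat_lit 0, nat_lit 246, nat_lit 0, nat_lit 0, [nat_lit 2667472000, nat_lit 4533792000, nat_lit 6755168000], [], [nat_lit 18315236761, nat_lit 19681364873, nat_lit 25031588711, nat_lit 25693665190], nat_lit 0, nat_lit 0, nat_lit 0, nat_lit 0, nat_lit 0, nat_lit 0, [], [nat_lit 21, nat_lit 40, nat_lit 80, nat_lit 80, nat_lit 14, nat_lit 401, nat_lit 175, nat_lit 10]⟩,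
 ⟨nat_lit 3162, nat_lit 3873, ⟨.ofNat (nat_lit 362778), .ofNat (nat_lit 846836), .ofNat (nat_lit 406307), .ofNat (nat_lit 890423), .ofNat (nat_lit 373492), .ofNat (nat_lit 830789), .ofNat (nat_lit 417744), .ofNat (nat_lit 875099)⟩, ⟨.ofNat (nat_lit 0), .ofNat (nat_lit 0), .ofNat (nat_lit 0), .ofNat (nat_lit 0), .ofNat (nat_lit 0), .ofNat (nat_lit 0), .ofNat (nat_lit 0), .ofNat (nat_lit 0)⟩⟩, []⟩
noncomputable def p019_l67 : Lf2 := ⟨nat_lit 0, nat_lit 10, [nat_lit 0, nat_lit 5, nat_lit 5, nat_lit 20], false, nat_lit 0, nat_lit 0, nat_lit 0, nat_lit 0, ⟨nat_lit 391, nat_lit 609, nat_lit 0, nat_lit 6, nat_lit 246, nat_lit 0, nat_lit 0, nat_lit 0, nat_lit 0, nat_lit 0, nat_lit 0, nat_lit 0, nat_lit 0, nat_lit 0, nat_lit 0, nat_lit 5000000, false, false⟩,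
 nat_lit 6087, nat_lit 0, nat_lit 0, nat_lit 0, nat_lit 4565, nat_lit 3222, nat_lit 0, nat_lit 0, nat_lit 0, nat_lit 143, nat_lit 0, nat_lit 0, nat_lit 0, nat_lit 0, nat_lit 0, nat_lit 321000, nat_lit 0, nat_lit 0, [(nat_lit 18, [(nat_lit 1, nat_lit 480), (nat_lit 2, nat_lit 129)])],
 ⟨p019_k0, nat_lit 0, nat_lit 0, nat_lit 281, nat_lit 0, nat_lit 343801, [nat_lit 1685156800, nat_lit 2911856000, nat_lit 3327761200], [], [nat_lit 26415019628, nat_lit 27671567205, nat_lit 35977618082, nat_lit 34928277978], nat_lit 1271250, nat_lit 1271250, nat_lit 382400, nat_lit 2926350, nat_lit 0, nat_lit 0, [nat_lit 490000, nat_lit 1100000, nat_lit 1442500], [nat_lit 6, nat_lit 40, nat_lit 80, nat_lit 80, nat_lit 3, nat_lit 317, nat_lit 100, nat_lit 12]⟩, ⟨p019_k1, nat_lit 0, nat_lit 0, nat_lit 568, nat_lit 0, nat_lit 526673, [nat_lit 1833008000, nat_lit 3115488000, nat_lit 4641952000], [], [nat_lit 19073220076,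 nat_lit 17960971133, nat_lit 21053610728, nat_lit 18680634835], nat_lit 1271250, nat_lit 1271250, nat_lit 382400, nat_lit 2926350, nat_lit 0, nat_lit 0, [nat_lit 1100000, nat_lit 1785000, nat_lit 1271250], [nat_lit 21, nat_lit 40, nat_lit 80, nat_lit 80, nat_lit 14, nat_lit 401, nat_lit 175, nat_lit 11]⟩,
 ⟨nat_lit 3872, nat_lit 4473, ⟨.ofNat (nat_lit 311945), .ofNat (nat_lit 876219), .ofNat (nat_lit 355043), .ofNat (nat_lit 919326), .ofNat (nat_lit 324151), .ofNat (nat_lit 859735), .ofNat (nat_lit 367703), .ofNat (nat_lit 903295)⟩, ⟨.ofNat (nat_lit 0), .ofNat (nat_lit 0), .ofNat (nat_lit 0), .ofNat (nat_lit 0), .ofNat (nat_lit 0), .ofNat (nat_lit 0), .ofNat (nat_lit 0), .ofNat (nat_lit 0)⟩⟩, []⟩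
noncomputable def p019_l68 : Lf2 := ⟨nat_lit 0, nat_lit 10, [nat_lit 0, nat_lit 5, nat_lit 5, nat_lit 20], false, nat_lit 0, nat_lit 0, nat_lit 0, nat_lit 0, ⟨nat_lit 262, nat_lit 738, nat_lit 0, nat_lit 6, nat_lit 250, nat_lit 0, nat_lit 0, nat_lit 0, nat_lit 0, nat_lit 0, nat_lit 0, nat_lit 0, nat_lit 0, nat_lit 0, nat_lit 0, nat_lit 5000000, false, false⟩,
 nat_lit 4090, nat_lit 0, nat_lit 0, nat_lit 0, nat_lit 3310, nat_lit 2165, nat_lit 243, nat_lit 0, nat_lit 0, nat_lit 93, nat_lit 0, nat_lit 0, nat_lit 0, nat_lit 0, nat_lit 0, nat_lit 295200, nat_lit 0, nat_lit 0, [(nat_lit 21, [(nat_lit 1, nat_lit 738)])],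
 ⟨p019_k4, nat_lit 0, nat_lit 0, nat_lit 315, nat_lit 0, nat_lit 409745, [nat_lit 1532521600, nat_lit 2329942400, nat_lit 2738596000], [], [nat_lit 24268754780, nat_lit 25263364374, nat_lit 31366964609, nat_lit 31889982017], nat_lit 1271250, nat_lit 1271250, nat_lit 545600, nat_lit 2911850, nat_lit 0, nat_lit 0, [nat_lit 490000, nat_lit 1100000, nat_lit 1442500], [nat_lit 6, nat_lit 40, nat_lit 80, nat_lit 80, nat_lit 3, nat_lit 317, nat_lit 100, nat_lit 12]⟩, ⟨p019_k1, nat_lit 0, nat_lit 0, nat_lit 648, nat_lit 0, nat_lit 687135, [nat_lit 1228256000, nat_lit 2087616000, nat_lit 3110464000], [], [nat_lit 12116319380, nat_lit 12296443238, nat_lit 14365635354, nat_lit 12462513761], nat_lit 1271250, nat_lit 1271250, nat_lit 545600, nat_lit 2911850, nat_lit 0, nat_lit 0, [nat_lit 1100000, nat_lit 1785000, nat_lit 1271250], [nat_lit 21, nat_lit 40, nat_lit 80, nat_lit 80, nat_lit 14, nat_lit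 401, nat_lit 175, nat_lit 10]⟩,
 ⟨nat_lit 3162, nat_lit 3873, ⟨.ofNat (nat_lit 362778), .ofNat (nat_lit 846836), .ofNat (nat_lit 406307), .ofNat (nat_lit 890423), .ofNat (nat_lit 373492), .ofNat (nat_lit 830789), .ofNat (nat_lit 417744), .ofNat (nat_lit 875099)⟩, ⟨.ofNat (nat_lit 0), .ofNat (nat_lit 0), .ofNat (nat_lit 0), .ofNat (nat_lit 0), .ofNat (nat_lit 0), .ofNat (nat_lit 0), .ofNat (nat_lit 0), .ofNat (nat_lit 0)⟩⟩, [⟨nat_lit 13, nat_lit 69, nat_lit 54, nat_lit 100, nat_lit 106797953⟩]⟩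
noncomputable def b_N_800_600_0_5 : St := ⟨false, nat_lit 1, nat_lit 2, nat_lit 0, nat_lit 40, nat_lit 320, nat_lit 360, nat_lit 240, nat_lit 280, nat_lit 64, nat_lit 396, nat_lit 0, nat_lit 0, nat_lit 0, nat_lit 0, nat_lit 0, nat_lit 0, nat_lit 80, nat_lit 120, nat_lit 0, nat_lit 0, nat_lit 0, nat_lit 0⟩
theorem d_N_800_600_0_5 (h : EB TB.env) : Dead b_N_800_600_0_5 := chkB_sound0 h (T :=
(.gv
(.st (nat_lit 1)
(.spl (nat_lit 2) (nat_lit 120)
(.leaf p019_l57)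
(.spl (nat_lit 0) (nat_lit 340)
(.leaf p019_l58)
(.trX (nat_lit 13) (nat_lit 78) (nat_lit 39) (nat_lit 100) (nat_lit 388) (.leaf p019_l59))))
(.spl (nat_lit 2) (nat_lit 240)
(.spl (nat_lit 2) (nat_lit 160)
(.leaf p019_l60)
(.leaf p019_l61))
(.spl (nat_lit 0) (nat_lit 340)
(.leaf p019_l62)
(.trX (nat_lit 13) (nat_lit 78) (nat_lit 39) (nat_lit 100) (nat_lit 388) (.spl (nat_lit 0) (nat_lit 350)
(.leaf p019_l63)
(.trX (nat_lit 13) (nat_lit 72) (nat_lit 46) (nat_lit 100) (nat_lit 384) (.leaf p019_l64)))))))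
(.st (nat_lit 1)
(.spl (nat_lit 0) (nat_lit 340)
(.leaf p019_l65)
(.trZ (nat_lit 0) (nat_lit 100) (nat_lit 73) (nat_lit 85) (nat_lit 88) (.trX (nat_lit 13) (nat_lit 78) (nat_lit 39) (nat_lit 100) (nat_lit 388) (.leaf p019_l66))))
(.spl (nat_lit 0) (nat_lit 340)
(.leaf p019_l67)
(.trZ (nat_lit 0) (nat_lit 100) (nat_lit 73) (nat_lit 85) (nat_lit 88) (.trX (nat_lit 13) (nat_lit 78) (nat_lit 39) (nat_lit 100) (nat_lit 388) (.leaf p019_l68))))))) (by decide +kernel)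
noncomputable def p019_l69 : Lf2 := ⟨nat_lit 0, nat_lit 10, [nat_lit 0, nat_lit 5, nat_lit 5, nat_lit 20], false, nat_lit 0, nat_lit 0, nat_lit 0, nat_lit 0, ⟨nat_lit 1000, nat_lit 0, nat_lit 0, nat_lit 0, nat_lit 0, nat_lit 0, nat_lit 0, nat_lit 0, nat_lit 0, nat_lit 0, nat_lit 0, nat_lit 0, nat_lit 0, nat_lit 0, nat_lit 0, nat_lit 0, false, false⟩,
 nat_lit 0, nat_lit 0, nat_lit 0, nat_lit 3562, nat_lit 5669, nat_lit 384, nat_lit 0, nat_lit 0, nat_lit 0, nat_lit 0, nat_lit 0, nat_lit 0, nat_lit 0, nat_lit 0, nat_lit 0, nat_lit 0, nat_lit 0, nat_lit 0, [],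
 ⟨p019_k0, nat_lit 0, nat_lit 0, nat_lit 179, nat_lit 0, nat_lit 0, [nat_lit 2032000001, nat_lit 4688000000, nat_lit 6250000000], [], [nat_lit 25972987429, nat_lit 29866915148, nat_lit 37251516591, nat_lit 39449388874], nat_lit 0, nat_lit 0, nat_lit 0, nat_lit 0, nat_lit 0, nat_lit 0, [], [nat_lit 6, nat_lit 40, nat_lit 80, nat_lit 80, nat_lit 3, nat_lit 317, nat_lit 100, nat_lit 12]⟩, ⟨p019_k1, nat_lit 0, nat_lit 0, nat_lit 253, nat_lit 0, nat_lit 0, [nat_lit 4688000000, nat_lit 7968000000, nat_lit 11872000000], [], [nat_lit 36039072231, nat_lit 37330843975, nat_lit 44560590996, nat_lit 45487775124], nat_lit 0, nat_lit 0, nat_lit 0, nat_lit 0, nat_lit 0, nat_lit 0, [], [nat_lit 21, nat_lit 40, nat_lit 80, nat_lit 80, nat_lit 14, nat_lit 401, nat_lit 175, nat_lit 11]⟩,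
 zbF0, [⟨nat_lit 0, nat_lit 100, nat_lit 75, nat_lit 92, nat_lit 287790978⟩]⟩
noncomputable def p019_l70 : Lf2 := ⟨nat_lit 0, nat_lit 10, [nat_lit 0, nat_lit 5, nat_lit 5, nat_lit 20], false, nat_lit 0, nat_lit 0, nat_lit 0, nat_lit 0, ⟨nat_lit 57, nat_lit 224, nat_lit 719, nat_lit 6, nat_lit 195, nat_lit 0, nat_lit 0, nat_lit 0, nat_lit 0, nat_lit 215, nat_lit 36668, nat_lit 200, nat_lit 54119310, nat_lit 12880690, nat_lit 0, nat_lit 2447337, false, false⟩,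
 nat_lit 0, nat_lit 0, nat_lit 999, nat_lit 0, nat_lit 3193, nat_lit 528, nat_lit 0, nat_lit 0, nat_lit 0, nat_lit 44, nat_lit 0, nat_lit 0, nat_lit 0, nat_lit 0, nat_lit 0, nat_lit 235750, nat_lit 0, nat_lit 0, [(nat_lit 18, [(nat_lit 0, nat_lit 224), (nat_lit 4, nat_lit 719)]), (nat_lit 21, [(nat_lit 0, nat_lit 224), (nat_lit 4, nat_lit 719)])],
 ⟨p019_k0, nat_lit 0, nat_lit 0, nat_lit 169, nat_lit 0, nat_lit 0, [nat_lit 1535928000, nat_lit 636945201, nat_lit 283325600], [], [nat_lit 17946227397, nat_lit 21087107459, nat_lit 21164276280, nat_lit 23465888396], nat_lit 0, nat_lit 0, nat_lit 0, nat_lit 0, nat_lit 0, nat_lit 0, [], [nat_lit 6, nat_lit 40, nat_lit 80, nat_lit 80, nat_lit 3, nat_lit 272, nat_lit 60, nat_lit 10]⟩, ⟨p019_k1, nat_lit 0, nat_lit 0, nat_lit 600, nat_lit 0, nat_lit 611299, [nat_lit 267216000, nat_lit 454176000, nat_lit 676704000], [], [nat_lit 2894568300, nat_lit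 2332703648, nat_lit 2215366452, nat_lit 2078032676], nat_lit 1271250, nat_lit 1271250, nat_lit 382400, nat_lit 1731000, nat_lit 0, nat_lit 0, [nat_lit 1100000, nat_lit 1785000, nat_lit 1271250], [nat_lit 21, nat_lit 40, nat_lit 80, nat_lit 80, nat_lit 14, nat_lit 373, nat_lit 150, nat_lit 10]⟩,
 ⟨nat_lit 3162, nat_lit 4473, ⟨.ofNat (nat_lit 311562), .ofNat (nat_lit 611007), .ofNat (nat_lit 354514), .ofNat (nat_lit 653959), .ofNat (nat_lit 336623), .ofNat (nat_lit 605159), .ofNat (nat_lit 380752), .ofNat (nat_lit 649288)⟩, ⟨.ofNat (nat_lit 0), .ofNat (nat_lit 0), .ofNat (nat_lit 0), .ofNat (nat_lit 0), .ofNat (nat_lit 0), .ofNat (nat_lit 0), .ofNat (nat_lit 0), .ofNat (nat_lit 0)⟩⟩, []⟩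
noncomputable def p019_l71 : Lf2 := ⟨nat_lit 0, nat_lit 10, [nat_lit 0, nat_lit 5, nat_lit 5, nat_lit 20], false, nat_lit 0, nat_lit 0, nat_lit 0, nat_lit 0, ⟨nat_lit 1000, nat_lit 0, nat_lit 0, nat_lit 0, nat_lit 0, nat_lit 0, nat_lit 0, nat_lit 0, nat_lit 0, nat_lit 0, nat_lit 0, nat_lit 0, nat_lit 0, nat_lit 0, nat_lit 0, nat_lit 0, false, false⟩,
 nat_lit 0, nat_lit 0, nat_lit 15875, nat_lit 0, nat_lit 5835, nat_lit 8404, nat_lit 0, nat_lit 0, nat_lit 0, nat_lit 823, nat_lit 0, nat_lit 0, nat_lit 0, nat_lit 0, nat_lit 0, nat_lit 0, nat_lit 0, nat_lit 0, [],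
 ⟨p019_k0, nat_lit 0, nat_lit 0, nat_lit 178, nat_lit 0, nat_lit 0, [nat_lit 2032000001, nat_lit 4688000000, nat_lit 6250000000], [], [nat_lit 28222977260, nat_lit 31206927980, nat_lit 37139526590, nat_lit 39620140189], nat_lit 0, nat_lit 0, nat_lit 0, nat_lit 0, nat_lit 0, nat_lit 0, [], [nat_lit 6, nat_lit 40, nat_lit 80, nat_lit 80, nat_lit 3, nat_lit 203, nat_lit 0, nat_lit 7]⟩, ⟨p019_k1, nat_lit 0, nat_lit 0, nat_lit 440, nat_lit 0, nat_lit 448811, [nat_lit 4688000000, nat_lit 7968000000, nat_lit 11872000000], [], [nat_lit 36355148024, nat_lit 36728373096, nat_lit 41111074269, nat_lit 41335729867], nat_lit 1271250, nat_lit 1271250, nat_lit 1271250, nat_lit 1271250, nat_lit 0, nat_lit 0, [nat_lit 1100000, nat_lit 1785000, nat_lit 1271250], [nat_lit 21, nat_lit 40, nat_lit 80, nat_lit 80, nat_lit 14, nat_lit 401, nat_lit 175, nat_lit 10]⟩,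
 zbF0, []⟩
noncomputable def p019_l72 : Lf2 := ⟨nat_lit 0, nat_lit 10, [nat_lit 0, nat_lit 5, nat_lit 5, nat_lit 20], false, nat_lit 0, nat_lit 0, nat_lit 0, nat_lit 0, ⟨nat_lit 1000, nat_lit 0, nat_lit 0, nat_lit 0, nat_lit 0, nat_lit 0, nat_lit 0, nat_lit 0, nat_lit 0, nat_lit 0, nat_lit 0, nat_lit 0, nat_lit 0, nat_lit 0, nat_lit 0, nat_lit 0, false, false⟩,
 nat_lit 0, nat_lit 0, nat_lit 12107, nat_lit 0, nat_lit 5669, nat_lit 7047, nat_lit 0, nat_lit 0, nat_lit 0, nat_lit 777, nat_lit 0, nat_lit 0, nat_lit 0, nat_lit 0, nat_lit 0, nat_lit 0, nat_lit 0, nat_lit 0, [],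
 ⟨p019_k0, nat_lit 0, nat_lit 0, nat_lit 179, nat_lit 0, nat_lit 0, [nat_lit 2032000001, nat_lit 4688000000, nat_lit 6250000000], [], [nat_lit 28376567764, nat_lit 31311908372, nat_lit 37251516591, nat_lit 39449388874], nat_lit 0, nat_lit 0, nat_lit 0, nat_lit 0, nat_lit 0, nat_lit 0, [], [nat_lit 6, nat_lit 40, nat_lit 80, nat_lit 80, nat_lit 3, nat_lit 203, nat_lit 0, nat_lit 7]⟩, ⟨p019_k3, nat_lit 0, nat_lit 0, nat_lit 445, nat_lit 0, nat_lit 530929, [nat_lit 4688000000, nat_lit 7968000000, nat_lit 9842000000], [], [nat_lit 35127943142, nat_lit 35497891296, nat_lit 40065908795, nat_lit 40417848027], nat_lit 1271250, nat_lit 1271250, nat_lit 1271250, nat_lit 1271250, nat_lit 0, nat_lit 0, [nat_lit 1100000, nat_lit 1785000, nat_lit 1271250], [nat_lit 29, nat_lit 40, nat_lit 80, nat_lit 80, nat_lit 17, nat_lit 401, nat_lit 175, nat_lit 11]⟩,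
 zbF0, []⟩
noncomputable def p019_l73 : Lf2 := ⟨nat_lit 0, nat_lit 10, [nat_lit 0, nat_lit 5, nat_lit 5, nat_lit 20], true, nat_lit 0, nat_lit 0, nat_lit 0, nat_lit 0, ⟨nat_lit 0, nat_lit 1000, nat_lit 0, nat_lit 6, nat_lit 245, nat_lit 0, nat_lit 0, nat_lit 0, nat_lit 0, nat_lit 0, nat_lit 0, nat_lit 0, nat_lit 0, nat_lit 0, nat_lit 0, nat_lit 5000000, false, false⟩,
 nat_lit 0, nat_lit 0, nat_lit 0, nat_lit 4436, nat_lit 3495, nat_lit 0, nat_lit 0, nat_lit 0, nat_lit 0, nat_lit 0, nat_lit 0, nat_lit 0, nat_lit 0, nat_lit 0, nat_lit 0, nat_lit 250000, nat_lit 0, nat_lit 0, [(nat_lit 18, [(nat_lit 0, nat_lit 1000)]), (nat_lit 21, [(nat_lit 0, nat_lit 1000)])],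
 ⟨p019_k0, nat_lit 0, nat_lit 0, nat_lit 179, nat_lit 0, nat_lit 0, [nat_lit 1558400000, nat_lit 2168000000, nat_lit 2562000000], [], [nat_lit 21368048768, nat_lit 24158410413, nat_lit 31328158157, nat_lit 32923070129], nat_lit 0, nat_lit 0, nat_lit 0, nat_lit 0, nat_lit 0, nat_lit 0, [], [nat_lit 6, nat_lit 40, nat_lit 80, nat_lit 80, nat_lit 3, nat_lit 317, nat_lit 100, nat_lit 12]⟩, C1.Rw.none,
 ⟨nat_lit 3162, nat_lit 4473, ⟨.ofNat (nat_lit 311562), .ofNat (nat_lit 876224), .ofNat (nat_lit 354514), .ofNat (nat_lit 919290), .ofNat (nat_lit 336623), .ofNat (nat_lit 842980), .ofNat (nat_lit 380752), .ofNat (nat_lit 887222)⟩, ⟨.ofNat (nat_lit 0), .ofNat (nat_lit 0), .ofNat (nat_lit 0), .ofNat (nat_lit 0), .ofNat (nat_lit 0), .ofNat (nat_lit 0), .ofNat (nat_lit 0), .ofNat (nat_lit 0)⟩⟩, [⟨nat_lit 13, nat_lit 87, nat_lit 25, nat_lit 100, nat_lit 273091209⟩]⟩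
noncomputable def p019_l74 : Lf2 := ⟨nat_lit 0, nat_lit 10, [nat_lit 0, nat_lit 5, nat_lit 5, nat_lit 20], false, nat_lit 0, nat_lit 0, nat_lit 0, nat_lit 0, ⟨nat_lit 1000, nat_lit 0, nat_lit 0, nat_lit 0, nat_lit 0, nat_lit 0, nat_lit 0, nat_lit 0, nat_lit 0, nat_lit 0, nat_lit 0, nat_lit 0, nat_lit 0, nat_lit 0, nat_lit 0, nat_lit 0, false, false⟩,
 nat_lit 0, nat_lit 8554, nat_lit 0, nat_lit 0, nat_lit 6415, nat_lit 5441, nat_lit 0, nat_lit 0, nat_lit 0, nat_lit 0, nat_lit 0, nat_lit 0, nat_lit 0, nat_lit 0, nat_lit 0, nat_lit 0, nat_lit 0, nat_lit 0, [],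
 ⟨p019_k0, nat_lit 0, nat_lit 0, nat_lit 303, nat_lit 0, nat_lit 330333, [nat_lit 2032000001, nat_lit 4688000000, nat_lit 6250000000], [], [nat_lit 32276849748, nat_lit 35305985380, nat_lit 40262310263, nat_lit 41691531875], nat_lit 1271250, nat_lit 1271250, nat_lit 382400, nat_lit 2926350, nat_lit 0, nat_lit 0, [nat_lit 490000, nat_lit 1100000, nat_lit 1442500], [nat_lit 6, nat_lit 40, nat_lit 80, nat_lit 80, nat_lit 3, nat_lit 317, nat_lit 100, nat_lit 12]⟩, ⟨p019_k1, nat_lit 0, nat_lit 0, nat_lit 253, nat_lit 0, nat_lit 0, [nat_lit 4688000000, nat_lit 7968000000, nat_lit 11872000000], [], [nat_lit 33567845790, nat_lit 35807380246, nat_lit 43487914315, nat_lit 44445779262], nat_lit 0, nat_lit 0, nat_lit 0, nat_lit 0, nat_lit 0, nat_lit 0, [], [nat_lit 21, nat_lit 40, nat_lit 80, nat_lit 80, nat_lit 14, nat_lit 401, nat_lit 175, nat_lit 11]⟩,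
 zbF0, [⟨nat_lit 0, nat_lit 94, nat_lit 62, nat_lit 100, nat_lit 410451547⟩]⟩
noncomputable def p019_l75 : Lf2 := ⟨nat_lit 0, nat_lit 10, [nat_lit 0, nat_lit 5, nat_lit 5, nat_lit 20], false, nat_lit 0, nat_lit 0, nat_lit 0, nat_lit 0, ⟨nat_lit 186, nat_lit 0, nat_lit 814, nat_lit 6, nat_lit 195, nat_lit 0, nat_lit 0, nat_lit 0, nat_lit 0, nat_lit 215, nat_lit 36668, nat_lit 200, nat_lit 54119310, nat_lit 0, nat_lit 0, nat_lit 2447337, false, false⟩,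
 nat_lit 4442, nat_lit 0, nat_lit 0, nat_lit 0, nat_lit 3331, nat_lit 2351, nat_lit 0, nat_lit 0, nat_lit 0, nat_lit 38, nat_lit 0, nat_lit 0, nat_lit 0, nat_lit 0, nat_lit 0, nat_lit 203500, nat_lit 0, nat_lit 0, [(nat_lit 18, [(nat_lit 4, nat_lit 814)]), (nat_lit 21, [(nat_lit 4, nat_lit 814)])],
 ⟨p019_k0, nat_lit 0, nat_lit 0, nat_lit 244, nat_lit 0, nat_lit 195109, [nat_lit 1590486401, nat_lit 740751201, nat_lit 430225600], [], [nat_lit 18889442443, nat_lit 21448712833, nat_lit 21899965939, nat_lit 24084269079], nat_lit 1271250, nat_lit 1271250, nat_lit 382400, nat_lit 1731000, nat_lit 0, nat_lit 0, [nat_lit 490000, nat_lit 1100000, nat_lit 1442500], [nat_lit 6, nat_lit 40, nat_lit 80, nat_lit 80, nat_lit 3, nat_lit 272, nat_lit 60, nat_lit 10]⟩, ⟨p019_k1, nat_lit 0, nat_lit 0, nat_lit 482, nat_lit 0, nat_lit 302215, [nat_lit 871968000, nat_lit 1482048000, nat_lit 2208192000], [],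 [nat_lit 10674389204, nat_lit 8856346934, nat_lit 7593680112, nat_lit 7661956244], nat_lit 1271250, nat_lit 1271250, nat_lit 382400, nat_lit 1731000, nat_lit 0, nat_lit 0, [nat_lit 1100000, nat_lit 1785000, nat_lit 1271250], [nat_lit 21, nat_lit 40, nat_lit 80, nat_lit 80, nat_lit 14, nat_lit 373, nat_lit 150, nat_lit 10]⟩,
 ⟨nat_lit 3162, nat_lit 4473, ⟨.ofNat (nat_lit 311562), .ofNat (nat_lit 611007), .ofNat (nat_lit 354514), .ofNat (nat_lit 653959), .ofNat (nat_lit 336623), .ofNat (nat_lit 605159), .ofNat (nat_lit 380752), .ofNat (nat_lit 649288)⟩, ⟨.ofNat (nat_lit 0), .ofNat (nat_lit 0), .ofNat (nat_lit 0), .ofNat (nat_lit 0), .ofNat (nat_lit 0), .ofNat (nat_lit 0), .ofNat (nat_lit 0), .ofNat (nat_lit 0)⟩⟩, [⟨nat_lit 0, nat_lit 94, nat_lit 62, nat_lit 100, nat_lit 120266387⟩]⟩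
noncomputable def p019_l76 : Lf2 := ⟨nat_lit 0, nat_lit 10, [nat_lit 0, nat_lit 5, nat_lit 5, nat_lit 20], false, nat_lit 0, nat_lit 0, nat_lit 0, nat_lit 0, ⟨nat_lit 1000, nat_lit 0, nat_lit 0, nat_lit 0, nat_lit 0, nat_lit 0, nat_lit 0, nat_lit 0, nat_lit 0, nat_lit 0, nat_lit 0, nat_lit 0, nat_lit 0, nat_lit 0, nat_lit 0, nat_lit 0, false, false⟩,
 nat_lit 12208, nat_lit 0, nat_lit 0, nat_lit 0, nat_lit 6081, nat_lit 6463, nat_lit 0, nat_lit 0, nat_lit 0, nat_lit 868, nat_lit 0, nat_lit 0, nat_lit 0, nat_lit 0, nat_lit 0, nat_lit 0, nat_lit 0, nat_lit 0, [],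
 ⟨p019_k0, nat_lit 0, nat_lit 0, nat_lit 244, nat_lit 0, nat_lit 195109, [nat_lit 2032000001, nat_lit 4688000000, nat_lit 6250000000], [], [nat_lit 30390203868, nat_lit 33233996992, nat_lit 38854117318, nat_lit 40685968511], nat_lit 1271250, nat_lit 1271250, nat_lit 1271250, nat_lit 1271250, nat_lit 0, nat_lit 0, [nat_lit 490000, nat_lit 1100000, nat_lit 1442500], [nat_lit 6, nat_lit 40, nat_lit 80, nat_lit 80, nat_lit 3, nat_lit 203, nat_lit 0, nat_lit 7]⟩, ⟨p019_k1, nat_lit 0, nat_lit 0, nat_lit 391, nat_lit 0, nat_lit 302215, [nat_lit 4688000000, nat_lit 7968000000, nat_lit 11872000000], [], [nat_lit 35539412592, nat_lit 36485875852, nat_lit 41310978271, nat_lit 42091611854], nat_lit 1271250, nat_lit 1271250, nat_lit 1271250, nat_lit 1271250, nat_lit 0, nat_lit 0, [nat_lit 1100000, nat_lit 1785000, nat_lit 1271250], [nat_lit 21, nat_lit 40, nat_lit 80, nat_lit 80, nat_lit 14, nat_lit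 401, nat_lit 175, nat_lit 10]⟩,
 zbF0, []⟩
noncomputable def p019_l77 : Lf2 := ⟨nat_lit 0, nat_lit 10, [nat_lit 0, nat_lit 5, nat_lit 5, nat_lit 20], false, nat_lit 0, nat_lit 0, nat_lit 0, nat_lit 0, ⟨nat_lit 464, nat_lit 536, nat_lit 0, nat_lit 6, nat_lit 245, nat_lit 0, nat_lit 0, nat_lit 0, nat_lit 0, nat_lit 0, nat_lit 0, nat_lit 0, nat_lit 0, nat_lit 0, nat_lit 0, nat_lit 5000000, false, false⟩,
 nat_lit 0, nat_lit 6776, nat_lit 0, nat_lit 0, nat_lit 5082, nat_lit 2526, nat_lit 0, nat_lit 0, nat_lit 0, nat_lit 0, nat_lit 0, nat_lit 0, nat_lit 0, nat_lit 0, nat_lit 0, nat_lit 134000, nat_lit 0, nat_lit 0, [(nat_lit 18, [(nat_lit 0, nat_lit 536)]), (nat_lit 21, [(nat_lit 0, nat_lit 536)])],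
 ⟨p019_k0, nat_lit 0, nat_lit 0, nat_lit 303, nat_lit 0, nat_lit 330333, [nat_lit 1778150401, nat_lit 3337280001, nat_lit 4273232000], [], [nat_lit 28439634079, nat_lit 31096941624, nat_lit 37158031873, nat_lit 37685988837], nat_lit 1271250, nat_lit 1271250, nat_lit 382400, nat_lit 2926350, nat_lit 0, nat_lit 0, [nat_lit 490000, nat_lit 1100000, nat_lit 1442500], [nat_lit 6, nat_lit 40, nat_lit 80, nat_lit 80, nat_lit 3, nat_lit 317, nat_lit 100, nat_lit 12]⟩, ⟨p019_k1, nat_lit 0, nat_lit 0, nat_lit 253, nat_lit 0, nat_lit 0, [nat_lit 2175232000, nat_lit 3697152000, nat_lit 5508608000], [], [nat_lit 15574808031, nat_lit 16614209903, nat_lit 20178100369, nat_lit 20623820360], nat_lit 0, nat_lit 0, nat_lit 0, nat_lit 0, nat_lit 0, nat_lit 0, [], [nat_lit 21, nat_lit 40, nat_lit 80, nat_lit 80, nat_lit 14, nat_lit 401, nat_lit 175, nat_lit 11]⟩,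
 ⟨nat_lit 3162, nat_lit 4473, ⟨.ofNat (nat_lit 311562), .ofNat (nat_lit 876224), .ofNat (nat_lit 354514), .ofNat (nat_lit 919290), .ofNat (nat_lit 336623), .ofNat (nat_lit 842980), .ofNat (nat_lit 380752), .ofNat (nat_lit 887222)⟩, ⟨.ofNat (nat_lit 0), .ofNat (nat_lit 0), .ofNat (nat_lit 0), .ofNat (nat_lit 0), .ofNat (nat_lit 0), .ofNat (nat_lit 0), .ofNat (nat_lit 0), .ofNat (nat_lit 0)⟩⟩, []⟩
noncomputable def p019_l78 : Lf2 := ⟨nat_lit 0, nat_lit 10, [nat_lit 0, nat_lit 5, nat_lit 5, nat_lit 20], false, nat_lit 0, nat_lit 0, nat_lit 0, nat_lit 0, ⟨nat_lit 403, nat_lit 597, nat_lit 0, nat_lit 6, nat_lit 245, nat_lit 0, nat_lit 0, nat_lit 0, nat_lit 0, nat_lit 0, nat_lit 0, nat_lit 0, nat_lit 0, nat_lit 0, nat_lit 0, nat_lit 5000000, false, false⟩,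
 nat_lit 6242, nat_lit 0, nat_lit 0, nat_lit 0, nat_lit 4681, nat_lit 3304, nat_lit 0, nat_lit 0, nat_lit 0, nat_lit 158, nat_lit 0, nat_lit 0, nat_lit 0, nat_lit 0, nat_lit 0, nat_lit 149250, nat_lit 0, nat_lit 0, [(nat_lit 18, [(nat_lit 0, nat_lit 597)]), (nat_lit 21, [(nat_lit 0, nat_lit 597)])],
 ⟨p019_k0, nat_lit 0, nat_lit 0, nat_lit 244, nat_lit 0, nat_lit 195109, [nat_lit 1749260800, nat_lit 3183560000, nat_lit 4048264000], [], [nat_lit 24931871939, nat_lit 28165074794, nat_lit 37146576327, nat_lit 36485542991], nat_lit 1271250, nat_lit 1271250, nat_lit 382400, nat_lit 2926350, nat_lit 0, nat_lit 0, [nat_lit 490000, nat_lit 1100000, nat_lit 1442500], [nat_lit 6, nat_lit 40, nat_lit 80, nat_lit 80, nat_lit 3, nat_lit 317, nat_lit 100, nat_lit 12]⟩, ⟨p019_k1, nat_lit 0, nat_lit 0, nat_lit 482, nat_lit 0, nat_lit 302215, [nat_lit 1889264000, nat_lit 3211104000, nat_lit 4784416000],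 [], [nat_lit 19625547524, nat_lit 19831834700, nat_lit 21688095988, nat_lit 19773460476], nat_lit 1271250, nat_lit 1271250, nat_lit 382400, nat_lit 2926350, nat_lit 0, nat_lit 0, [nat_lit 1100000, nat_lit 1785000, nat_lit 1271250], [nat_lit 21, nat_lit 40, nat_lit 80, nat_lit 80, nat_lit 14, nat_lit 401, nat_lit 175, nat_lit 11]⟩,
 ⟨nat_lit 3162, nat_lit 4473, ⟨.ofNat (nat_lit 311562), .ofNat (nat_lit 876224), .ofNat (nat_lit 354514), .ofNat (nat_lit 919290), .ofNat (nat_lit 336623), .ofNat (nat_lit 842980), .ofNat (nat_lit 380752), .ofNat (nat_lit 887222)⟩, ⟨.ofNat (nat_lit 0), .ofNat (nat_lit 0), .ofNat (nat_lit 0), .ofNat (nat_lit 0), .ofNat (nat_lit 0), .ofNat (nat_lit 0), .ofNat (nat_lit 0), .ofNat (nat_lit 0)⟩⟩, []⟩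
noncomputable def b_N_800_600_0_6 : St := ⟨false, nat_lit 2, nat_lit 2, nat_lit 0, nat_lit 40, nat_lit 320, nat_lit 360, nat_lit 240, nat_lit 280, nat_lit 64, nat_lit 396, nat_lit 0, nat_lit 0, nat_lit 0, nat_lit 0, nat_lit 0, nat_lit 0, nat_lit 120, nat_lit 148, nat_lit 0, nat_lit 0, nat_lit 0, nat_lit 0⟩
theorem d_N_800_600_0_6 (h : EB TB.env) : Dead b_N_800_600_0_6 := chkB_sound0 h (T :=
(.st (nat_lit 0)
(.gv
(.st (nat_lit 1)
(.leaf p019_l69)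
(.spl (nat_lit 2) (nat_lit 240)
(.leaf p019_l70)
(.spl (nat_lit 1) (nat_lit 260)
(.trX (nat_lit 13) (nat_lit 84) (nat_lit 35) (nat_lit 100) (nat_lit 392) (.leaf p019_l71))
(.leaf p019_l72))))
(.leaf p019_l73))
(.gv
(.st (nat_lit 1)
(.leaf p019_l74)
(.spl (nat_lit 2) (nat_lit 240)
(.leaf p019_l75)
(.leaf p019_l76)))
(.st (nat_lit 1)
(.leaf p019_l77)
(.leaf p019_l78))))) (by decide +kernel)
noncomputable def p019_l79 : Lf2 := ⟨nat_lit 0, nat_lit 10, [nat_lit 0, nat_lit 5, nat_lit 5, nat_lit 20], false, nat_lit 0, nat_lit 0, nat_lit 0, nat_lit 0, ⟨nat_lit 1000, nat_lit 0, nat_lit 0, nat_lit 0, nat_lit 0, nat_lit 0, nat_lit 0, nat_lit 0, nat_lit 0, nat_lit 0, nat_lit 0, nat_lit 0, nat_lit 0, nat_lit 0, nat_lit 0, nat_lit 0, false, false⟩,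
 nat_lit 0, nat_lit 0, nat_lit 0, nat_lit 0, nat_lit 0, nat_lit 1287, nat_lit 0, nat_lit 0, nat_lit 0, nat_lit 0, nat_lit 0, nat_lit 0, nat_lit 0, nat_lit 0, nat_lit 0, nat_lit 0, nat_lit 0, nat_lit 0, [],
 ⟨p019_k6, nat_lit 0, nat_lit 0, nat_lit 187, nat_lit 0, nat_lit 0, [nat_lit 2032000001, nat_lit 6250000000], [], [nat_lit 36104394001, nat_lit 37433958001, nat_lit 43725104001, nat_lit 44735196001], nat_lit 0, nat_lit 0, nat_lit 0, nat_lit 0, nat_lit 0, nat_lit 0, [], [nat_lit 69, nat_lit 40, nat_lit 80, nat_lit 80, nat_lit 64, nat_lit 317, nat_lit 100, nat_lit 12]⟩, ⟨p019_k19, nat_lit 0, nat_lit 0, nat_lit 200, nat_lit 0, nat_lit 0, [nat_lit 3282000000, nat_lit 9842000000], [], [nat_lit 35787768193, nat_lit 37368103719, nat_lit 44141519792, nat_lit 45178246888], nat_lit 0, nat_lit 0, nat_lit 0, nat_lit 0, nat_lit 0, nat_lit 0, [], [nat_lit 82, nat_lit 40, nat_lit 80, nat_lit 80, nat_lit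 63, nat_lit 317, nat_lit 100, nat_lit 9]⟩,
 zbF0, []⟩
noncomputable def p019_l80 : Lf2 := ⟨nat_lit 0, nat_lit 10, [nat_lit 0, nat_lit 5, nat_lit 5, nat_lit 20], true, nat_lit 0, nat_lit 0, nat_lit 0, nat_lit 0, ⟨nat_lit 0, nat_lit 1000, nat_lit 0, nat_lit 7, nat_lit 224, nat_lit 0, nat_lit 0, nat_lit 0, nat_lit 0, nat_lit 0, nat_lit 0, nat_lit 0, nat_lit 50985618, nat_lit 16014382, nat_lit 0, nat_lit 2749741, false, false⟩,
 nat_lit 0, nat_lit 0, nat_lit 0, nat_lit 0, nat_lit 3617, nat_lit 0, nat_lit 0, nat_lit 0, nat_lit 0, nat_lit 0, nat_lit 0, nat_lit 0, nat_lit 0, nat_lit 0, nat_lit 0, nat_lit 250000, nat_lit 0, nat_lit 0, [(nat_lit 18, [(nat_lit 0, nat_lit 1000)]), (nat_lit 21, [(nat_lit 0, nat_lit 1000)])],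
 ⟨p019_k6, nat_lit 0, nat_lit 0, nat_lit 135, nat_lit 0, nat_lit 0, [nat_lit 1558400000, nat_lit 2562000000], [], [nat_lit 19485166012, nat_lit 22913675067, nat_lit 22901400920, nat_lit 25630790296], nat_lit 0, nat_lit 0, nat_lit 0, nat_lit 0, nat_lit 0, nat_lit 0, [], [nat_lit 69, nat_lit 40, nat_lit 80, nat_lit 80, nat_lit 64, nat_lit 272, nat_lit 60, nat_lit 10]⟩, C1.Rw.none,
 ⟨nat_lit 3162, nat_lit 4473, ⟨.ofNat (nat_lit 415764), .ofNat (nat_lit 653959), .ofNat (nat_lit 458716), .ofNat (nat_lit 696911), .ofNat (nat_lit 435680), .ofNat (nat_lit 649288), .ofNat (nat_lit 479808), .ofNat (nat_lit 693416)⟩, ⟨.ofNat (nat_lit 0), .ofNat (nat_lit 0), .ofNat (nat_lit 0), .ofNat (nat_lit 0), .ofNat (nat_lit 0), .ofNat (nat_lit 0), .ofNat (nat_lit 0), .ofNat (nat_lit 0)⟩⟩, []⟩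
noncomputable def p019_l81 : Lf2 := ⟨nat_lit 0, nat_lit 10, [nat_lit 0, nat_lit 5, nat_lit 5, nat_lit 20], true, nat_lit 0, nat_lit 0, nat_lit 0, nat_lit 0, ⟨nat_lit 0, nat_lit 1000, nat_lit 0, nat_lit 7, nat_lit 295, nat_lit 0, nat_lit 0, nat_lit 0, nat_lit 0, nat_lit 0, nat_lit 0, nat_lit 0, nat_lit 43378483, nat_lit 23621517, nat_lit 0, nat_lit 3245084, true, false⟩,
 nat_lit 0, nat_lit 0, nat_lit 0, nat_lit 0, nat_lit 3397, nat_lit 0, nat_lit 0, nat_lit 0, nat_lit 0, nat_lit 0, nat_lit 0, nat_lit 0, nat_lit 0, nat_lit 0, nat_lit 0, nat_lit 250000, nat_lit 0, nat_lit 0, [(nat_lit 18, [(nat_lit 0, nat_lit 1000)]), (nat_lit 21, [(nat_lit 0, nat_lit 1000)])],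
 ⟨p019_k6, nat_lit 0, nat_lit 0, nat_lit 140, nat_lit 0, nat_lit 0, [nat_lit 1558400000, nat_lit 2562000000], [], [nat_lit 23205713720, nat_lit 25571506684, nat_lit 26682140256, nat_lit 28888505960], nat_lit 0, nat_lit 0, nat_lit 0, nat_lit 0, nat_lit 0, nat_lit 0, [], [nat_lit 69, nat_lit 40, nat_lit 80, nat_lit 80, nat_lit 64, nat_lit 203, nat_lit 0, nat_lit 7]⟩, C1.Rw.none,
 ⟨nat_lit 3162, nat_lit 4473, ⟨.ofNat (nat_lit 653959), .ofNat (nat_lit 790054), .ofNat (nat_lit 696911), .ofNat (nat_lit 833022), .ofNat (nat_lit 649288), .ofNat (nat_lit 771333), .ofNat (nat_lit 693416), .ofNat (nat_lit 815478)⟩, ⟨.ofNat (nat_lit 0), .ofNat (nat_lit 0), .ofNat (nat_lit 0), .ofNat (nat_lit 0), .ofNat (nat_lit 0), .ofNat (nat_lit 0), .ofNat (nat_lit 0), .ofNat (nat_lit 0)⟩⟩, []⟩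
noncomputable def p019_l82 : Lf2 := ⟨nat_lit 0, nat_lit 10, [nat_lit 0, nat_lit 5, nat_lit 5, nat_lit 20], true, nat_lit 0, nat_lit 0, nat_lit 0, nat_lit 0, ⟨nat_lit 0, nat_lit 1000, nat_lit 0, nat_lit 8, nat_lit 334, nat_lit 0, nat_lit 0, nat_lit 0, nat_lit 0, nat_lit 0, nat_lit 0, nat_lit 0, nat_lit 39486591, nat_lit 27513409, nat_lit 0, nat_lit 3385466, true, true⟩,
 nat_lit 0, nat_lit 0, nat_lit 0, nat_lit 0, nat_lit 3378, nat_lit 0, nat_lit 0, nat_lit 0, nat_lit 0, nat_lit 0, nat_lit 0, nat_lit 0, nat_lit 0, nat_lit 0, nat_lit 0, nat_lit 460000, nat_lit 0, nat_lit 0, [(nat_lit 18, [(nat_lit 1, nat_lit 900), (nat_lit 2, nat_lit 100)]), (nat_lit 21, [(nat_lit 1, nat_lit 900), (nat_lit 2, nat_lit 100)])],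
 ⟨p019_k0, nat_lit 0, nat_lit 0, nat_lit 168, nat_lit 0, nat_lit 0, [nat_lit 1428506667, nat_lit 1874533334, nat_lit 1720400000], [], [nat_lit 26566992681, nat_lit 28377632769, nat_lit 28437978321, nat_lit 30343717288], nat_lit 0, nat_lit 0, nat_lit 0, nat_lit 0, nat_lit 0, nat_lit 0, [], [nat_lit 6, nat_lit 40, nat_lit 80, nat_lit 80, nat_lit 3, nat_lit 203, nat_lit 0, nat_lit 6]⟩, C1.Rw.none,
 ⟨nat_lit 3162, nat_lit 4473, ⟨.ofNat (nat_lit 790054), .ofNat (nat_lit 858073), .ofNat (nat_lit 833022), .ofNat (nat_lit 901071), .ofNat (nat_lit 771333), .ofNat (nat_lit 832328), .ofNat (nat_lit 815478), .ofNat (nat_lit 876502)⟩, ⟨.ofNat (nat_lit 0), .ofNat (nat_lit 0), .ofNat (nat_lit 0), .ofNat (nat_lit 0), .ofNat (nat_lit 0), .ofNat (nat_lit 0), .ofNat (nat_lit 0), .ofNat (nat_lit 0)⟩⟩, []⟩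
noncomputable def p019_l83 : Lf2 := ⟨nat_lit 0, nat_lit 10, [nat_lit 0, nat_lit 5, nat_lit 5, nat_lit 20], true, nat_lit 0, nat_lit 0, nat_lit 0, nat_lit 0, ⟨nat_lit 0, nat_lit 1000, nat_lit 0, nat_lit 9, nat_lit 358, nat_lit 0, nat_lit 0, nat_lit 0, nat_lit 0, nat_lit 0, nat_lit 0, nat_lit 0, nat_lit 37177414, nat_lit 29822586, nat_lit 0, nat_lit 3435548, true, true⟩,
 nat_lit 0, nat_lit 0, nat_lit 0, nat_lit 0, nat_lit 3240, nat_lit 0, nat_lit 0, nat_lit 0, nat_lit 0, nat_lit 0, nat_lit 0, nat_lit 0, nat_lit 0, nat_lit 0, nat_lit 0, nat_lit 450400, nat_lit 0, nat_lit 0, [(nat_lit 18, [(nat_lit 1, nat_lit 916), (nat_lit 2, nat_lit 84)])],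
 ⟨p019_k0, nat_lit 0, nat_lit 0, nat_lit 176, nat_lit 0, nat_lit 0, [nat_lit 1423646934, nat_lit 1889274667, nat_lit 1758864000], [], [nat_lit 28642893201, nat_lit 29454393241, nat_lit 30484018401, nat_lit 31368851760], nat_lit 0, nat_lit 0, nat_lit 0, nat_lit 0, nat_lit 0, nat_lit 0, [], [nat_lit 6, nat_lit 40, nat_lit 80, nat_lit 80, nat_lit 3, nat_lit 203, nat_lit 0, nat_lit 6]⟩, C1.Rw.none,
 ⟨nat_lit 3872, nat_lit 4473, ⟨.ofNat (nat_lit 858139), .ofNat (nat_lit 926124), .ofNat (nat_lit 879688), .ofNat (nat_lit 947674), .ofNat (nat_lit 845220), .ofNat (nat_lit 909748), .ofNat (nat_lit 866995), .ofNat (nat_lit 931525)⟩, ⟨.ofNat (nat_lit 0), .ofNat (nat_lit 0), .ofNat (nat_lit 0), .ofNat (nat_lit 0), .ofNat (nat_lit 0), .ofNat (nat_lit 0), .ofNat (nat_lit 0), .ofNat (nat_lit 0)⟩⟩, [⟨nat_lit 13, nat_lit 92, nat_lit 14, nat_lit 100, nat_lit 179880613⟩]⟩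
noncomputable def p019_l84 : Lf2 := ⟨nat_lit 0, nat_lit 10, [nat_lit 0, nat_lit 5, nat_lit 5, nat_lit 20], false, nat_lit 0, nat_lit 0, nat_lit 0, nat_lit 0, ⟨nat_lit 343, nat_lit 657, nat_lit 0, nat_lit 9, nat_lit 366, nat_lit 0, nat_lit 0, nat_lit 0, nat_lit 0, nat_lit 0, nat_lit 0, nat_lit 0, nat_lit 36450030, nat_lit 30549970, nat_lit 0, nat_lit 3446323, true, true⟩,
 nat_lit 0, nat_lit 0, nat_lit 3037, nat_lit 0, nat_lit 3476, nat_lit 2102, nat_lit 0, nat_lit 0, nat_lit 0, nat_lit 367, nat_lit 0, nat_lit 0, nat_lit 0, nat_lit 0, nat_lit 0, nat_lit 657000, nat_lit 0, nat_lit 0, [(nat_lit 18, [(nat_lit 2, nat_lit 657)])],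
 ⟨p019_k0, nat_lit 0, nat_lit 0, nat_lit 174, nat_lit 0, nat_lit 0, [nat_lit 1815102401, nat_lit 2294768001, nat_lit 1852567600], [], [nat_lit 29265789442, nat_lit 29681353640, nat_lit 31157980322, nat_lit 31531519394], nat_lit 0, nat_lit 0, nat_lit 0, nat_lit 0, nat_lit 0, nat_lit 0, [], [nat_lit 6, nat_lit 40, nat_lit 80, nat_lit 80, nat_lit 3, nat_lit 203, nat_lit 0, nat_lit 6]⟩, ⟨p019_k20, nat_lit 0, nat_lit 0, nat_lit 926, nat_lit 0, nat_lit 1848823, [nat_lit 1125726000, nat_lit 2143750000, nat_lit 2733024000], [], [nat_lit 12726848677, nat_lit 12763061387, nat_lit 12961579309, nat_lit 12992293690], nat_lit 1271250, nat_lit 1271250, nat_lit 1271250, nat_lit 1271250, nat_lit 0, nat_lit 0, [nat_lit 780000, nat_lit 1435000, nat_lit 1271250], [nat_lit 18, nat_lit 40, nat_lit 80, nat_lit 80, nat_lit 2, nat_lit 321, nat_lit 0, nat_lit 9]⟩,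
 ⟨nat_lit 4183, nat_lit 4473, ⟨.ofNat (nat_lit 879728), .ofNat (nat_lit 947707), .ofNat (nat_lit 890510), .ofNat (nat_lit 958489), .ofNat (nat_lit 873339), .ofNat (nat_lit 939596), .ofNat (nat_lit 884171), .ofNat (nat_lit 950428)⟩, ⟨.ofNat (nat_lit 0), .ofNat (nat_lit 0), .ofNat (nat_lit 0), .ofNat (nat_lit 0), .ofNat (nat_lit 0), .ofNat (nat_lit 0), .ofNat (nat_lit 0), .ofNat (nat_lit 0)⟩⟩, [⟨nat_lit 13, nat_lit 92, nat_lit 14, nat_lit 100, nat_lit 92477888⟩]⟩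
noncomputable def p019_l85 : Lf2 := ⟨nat_lit 0, nat_lit 10, [nat_lit 0, nat_lit 5, nat_lit 5, nat_lit 20], true, nat_lit 0, nat_lit 0, nat_lit 0, nat_lit 0, ⟨nat_lit 0, nat_lit 1000, nat_lit 0, nat_lit 9, nat_lit 363, nat_lit 0, nat_lit 0, nat_lit 0, nat_lit 0, nat_lit 0, nat_lit 0, nat_lit 0, nat_lit 36711469, nat_lit 30288531, nat_lit 0, nat_lit 3442724, true, true⟩,
 nat_lit 0, nat_lit 0, nat_lit 0, nat_lit 0, nat_lit 3059, nat_lit 0, nat_lit 143, nat_lit 0, nat_lit 0, nat_lit 0, nat_lit 0, nat_lit 0, nat_lit 0, nat_lit 0, nat_lit 0, nat_lit 400000, nat_lit 0, nat_lit 0, [(nat_lit 18, [(nat_lit 1, nat_lit 1000)])],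
 ⟨p019_k2, nat_lit 0, nat_lit 0, nat_lit 176, nat_lit 0, nat_lit 0, [nat_lit 1398133334, nat_lit 1966666667, nat_lit 1960800000], [], [nat_lit 28637370381, nat_lit 29035593425, nat_lit 30400939204, nat_lit 30841051416], nat_lit 0, nat_lit 0, nat_lit 0, nat_lit 0, nat_lit 0, nat_lit 0, [], [nat_lit 6, nat_lit 40, nat_lit 80, nat_lit 80, nat_lit 3, nat_lit 203, nat_lit 0, nat_lit 6]⟩, C1.Rw.none,
 ⟨nat_lit 3872, nat_lit 4184, ⟨.ofNat (nat_lit 873343), .ofNat (nat_lit 939602), .ofNat (nat_lit 884174), .ofNat (nat_lit 950433), .ofNat (nat_lit 867040), .ofNat (nat_lit 931565), .ofNat (nat_lit 877934), .ofNat (nat_lit 942458)⟩, ⟨.ofNat (nat_lit 0), .ofNat (nat_lit 0), .ofNat (nat_lit 0), .ofNat (nat_lit 0), .ofNat (nat_lit 0), .ofNat (nat_lit 0), .ofNat (nat_lit 0), .ofNat (nat_lit 0)⟩⟩, [⟨nat_lit 13, nat_lit 91, nat_lit 15, nat_lit 100, nat_lit 177349553⟩]⟩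
noncomputable def p019_l86 : Lf2 := ⟨nat_lit 0, nat_lit 10, [nat_lit 0, nat_lit 5, nat_lit 5, nat_lit 20], false, nat_lit 0, nat_lit 0, nat_lit 0, nat_lit 0, ⟨nat_lit 343, nat_lit 657, nat_lit 0, nat_lit 9, nat_lit 369, nat_lit 0, nat_lit 0, nat_lit 0, nat_lit 0, nat_lit 0, nat_lit 0, nat_lit 0, nat_lit 36188691, nat_lit 30811309, nat_lit 0, nat_lit 3449613, true, true⟩,
 nat_lit 0, nat_lit 0, nat_lit 2877, nat_lit 0, nat_lit 3436, nat_lit 2074, nat_lit 0, nat_lit 0, nat_lit 0, nat_lit 309, nat_lit 0, nat_lit 0, nat_lit 0, nat_lit 0, nat_lit 0, nat_lit 657000, nat_lit 0, nat_lit 0, [(nat_lit 18, [(nat_lit 2, nat_lit 657)])],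
 ⟨p019_k0, nat_lit 0, nat_lit 0, nat_lit 176, nat_lit 0, nat_lit 0, [nat_lit 1815102401, nat_lit 2294768001, nat_lit 1852567600], [], [nat_lit 29311171842, nat_lit 30138973398, nat_lit 31194707522, nat_lit 31940392464], nat_lit 0, nat_lit 0, nat_lit 0, nat_lit 0, nat_lit 0, nat_lit 0, [], [nat_lit 6, nat_lit 40, nat_lit 80, nat_lit 80, nat_lit 3, nat_lit 203, nat_lit 0, nat_lit 6]⟩, ⟨p019_k21, nat_lit 0, nat_lit 0, nat_lit 962, nat_lit 0, nat_lit 1924927, [nat_lit 1125726000, nat_lit 2143750000, nat_lit 2733024000], [], [nat_lit 12816882164, nat_lit 12853549056, nat_lit 13045290273, nat_lit 13099503248], nat_lit 1271250, nat_lit 1271250, nat_lit 1271250, nat_lit 1271250, nat_lit 0, nat_lit 0, [nat_lit 780000, nat_lit 1435000, nat_lit 1271250], [nat_lit 18, nat_lit 40, nat_lit 80, nat_lit 80, nat_lit 2, nat_lit 331, nat_lit 0, nat_lit 10]⟩,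
 ⟨nat_lit 3872, nat_lit 4473, ⟨.ofNat (nat_lit 890462), .ofNat (nat_lit 958448), .ofNat (nat_lit 901237), .ofNat (nat_lit 969223), .ofNat (nat_lit 877883), .ofNat (nat_lit 942413), .ofNat (nat_lit 888771), .ofNat (nat_lit 953301)⟩, ⟨.ofNat (nat_lit 0), .ofNat (nat_lit 0), .ofNat (nat_lit 0), .ofNat (nat_lit 0), .ofNat (nat_lit 0), .ofNat (nat_lit 0), .ofNat (nat_lit 0), .ofNat (nat_lit 0)⟩⟩, [⟨nat_lit 13, nat_lit 93, nat_lit 12, nat_lit 100, nat_lit 91940226⟩]⟩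
noncomputable def p019_l87 : Lf2 := ⟨nat_lit 0, nat_lit 10, [nat_lit 0, nat_lit 5, nat_lit 5, nat_lit 20], true, nat_lit 0, nat_lit 0, nat_lit 0, nat_lit 0, ⟨nat_lit 0, nat_lit 1000, nat_lit 0, nat_lit 9, nat_lit 357, nat_lit 0, nat_lit 0, nat_lit 0, nat_lit 0, nat_lit 0, nat_lit 0, nat_lit 0, nat_lit 37305718, nat_lit 29694282, nat_lit 0, nat_lit 3433401, true, true⟩,
 nat_lit 0, nat_lit 0, nat_lit 0, nat_lit 0, nat_lit 2837, nat_lit 0, nat_lit 0, nat_lit 0, nat_lit 0, nat_lit 0, nat_lit 0, nat_lit 0, nat_lit 0, nat_lit 0, nat_lit 0, nat_lit 532000, nat_lit 0, nat_lit 0, [(nat_lit 21, [(nat_lit 1, nat_lit 780), (nat_lit 2, nat_lit 220)])],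
 ⟨p019_k22, nat_lit 0, nat_lit 0, nat_lit 187, nat_lit 0, nat_lit 0, [nat_lit 1389036001, nat_lit 958051999], [], [nat_lit 28686405731, nat_lit 29423928065, nat_lit 30291561450, nat_lit 31176226404], nat_lit 0, nat_lit 0, nat_lit 0, nat_lit 0, nat_lit 0, nat_lit 0, [], [nat_lit 69, nat_lit 40, nat_lit 80, nat_lit 80, nat_lit 64, nat_lit 203, nat_lit 0, nat_lit 6]⟩, C1.Rw.none,
 ⟨nat_lit 3162, nat_lit 3873, ⟨.ofNat (nat_lit 845258), .ofNat (nat_lit 909779), .ofNat (nat_lit 888802), .ofNat (nat_lit 953347), .ofNat (nat_lit 832432), .ofNat (nat_lit 893385), .ofNat (nat_lit 876699), .ofNat (nat_lit 937676)⟩, ⟨.ofNat (nat_lit 0), .ofNat (nat_lit 0), .ofNat (nat_lit 0), .ofNat (nat_lit 0), .ofNat (nat_lit 0), .ofNat (nat_lit 0), .ofNat (nat_lit 0), .ofNat (nat_lit 0)⟩⟩, [⟨nat_lit 13, nat_lit 89, nat_lit 16, nat_lit 100, nat_lit 174094831⟩]⟩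
noncomputable def p019_l88 : Lf2 := ⟨nat_lit 0, nat_lit 10, [nat_lit 0, nat_lit 5, nat_lit 5, nat_lit 20], true, nat_lit 0, nat_lit 0, nat_lit 0, nat_lit 0, ⟨nat_lit 0, nat_lit 1000, nat_lit 0, nat_lit 7, nat_lit 276, nat_lit 0, nat_lit 0, nat_lit 0, nat_lit 0, nat_lit 0, nat_lit 0, nat_lit 0, nat_lit 0, nat_lit 0, nat_lit 0, nat_lit 5000000, false, false⟩,
 nat_lit 0, nat_lit 0, nat_lit 0, nat_lit 0, nat_lit 3318, nat_lit 0, nat_lit 0, nat_lit 0, nat_lit 0, nat_lit 0, nat_lit 0, nat_lit 0, nat_lit 0, nat_lit 0, nat_lit 0, nat_lit 563200, nat_lit 0, nat_lit 0, [(nat_lit 18, [(nat_lit 1, nat_lit 728), (nat_lit 2, nat_lit 272)]), (nat_lit 21, [(nat_lit 1, nat_lit 728), (nat_lit 2, nat_lit 272)])],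
 ⟨p019_k6, nat_lit 0, nat_lit 0, nat_lit 187, nat_lit 0, nat_lit 0, [nat_lit 1744153601, nat_lit 1499718399], [], [nat_lit 21223491455, nat_lit 23681029463, nat_lit 30559541095, nat_lit 32635720856], nat_lit 0, nat_lit 0, nat_lit 0, nat_lit 0, nat_lit 0, nat_lit 0, [], [nat_lit 69, nat_lit 40, nat_lit 80, nat_lit 80, nat_lit 64, nat_lit 317, nat_lit 100, nat_lit 12]⟩, C1.Rw.none,
 ⟨nat_lit 3162, nat_lit 4473, ⟨.ofNat (nat_lit 415764), .ofNat (nat_lit 926092), .ofNat (nat_lit 458716), .ofNat (nat_lit 969090), .ofNat (nat_lit 435680), .ofNat (nat_lit 893321), .ofNat (nat_lit 479808), .ofNat (nat_lit 937496)⟩, ⟨.ofNat (nat_lit 0), .ofNat (nat_lit 0), .ofNat (nat_lit 0), .ofNat (nat_lit 0), .ofNat (nat_lit 0), .ofNat (nat_lit 0), .ofNat (nat_lit 0), .ofNat (nat_lit 0)⟩⟩, []⟩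
noncomputable def b_N_800_700_0_0 : St := ⟨false, nat_lit 0, nat_lit 2, nat_lit 0, nat_lit 40, nat_lit 320, nat_lit 360, nat_lit 280, nat_lit 320, nat_lit 100, nat_lit 400, nat_lit 0, nat_lit 0, nat_lit 0, nat_lit 0, nat_lit 0, nat_lit 0, nat_lit 0, nat_lit 40, nat_lit 0, nat_lit 0, nat_lit 0, nat_lit 0⟩
theorem d_N_800_700_0_0 (h : EB TB.env) : Dead b_N_800_700_0_0 := chkB_sound0 h (T :=
(.gv
(.st (nat_lit 1)
(.leaf p019_l79)
(.spl (nat_lit 2) (nat_lit 240)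
(.leaf p019_l80)
(.spl (nat_lit 2) (nat_lit 320)
(.leaf p019_l81)
(.spl (nat_lit 2) (nat_lit 360)
(.leaf p019_l82)
(.spl (nat_lit 0) (nat_lit 340)
(.spl (nat_lit 1) (nat_lit 300)
(.leaf p019_l83)
(.spl (nat_lit 1) (nat_lit 310)
(.spl (nat_lit 0) (nat_lit 330)
(.leaf p019_l84)
(.leaf p019_l85))
(.leaf p019_l86)))
(.leaf p019_l87))))))
(.leaf p019_l88))) (by decide +kernel)
noncomputable def p019_l89 : Lf2 := ⟨nat_lit 0, nat_lit 2, [nat_lit 10, nat_lit 5, nat_lit 5, nat_lit 20], false, nat_lit 0, nat_lit 0, nat_lit 0, nat_lit 0, ⟨nat_lit 1000, nat_lit 0, nat_lit 0, nat_lit 0, nat_lit 0, nat_lit 0, nat_lit 0, nat_lit 0, nat_lit 0, nat_lit 0, nat_lit 0, nat_lit 0, nat_lit 0, nat_lit 0, nat_lit 0, nat_lit 0, false, false⟩,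
 nat_lit 0, nat_lit 11073, nat_lit 0, nat_lit 0, nat_lit 8304, nat_lit 4510, nat_lit 0, nat_lit 0, nat_lit 0, nat_lit 0, nat_lit 0, nat_lit 0, nat_lit 0, nat_lit 0, nat_lit 0, nat_lit 0, nat_lit 0, nat_lit 0, [],
 ⟨p019_k23, nat_lit 0, nat_lit 0, nat_lit 617, nat_lit 0, nat_lit 1360715, [nat_lit 2032000001, nat_lit 4688000000], [], [nat_lit 25966477600, nat_lit 26363279214, nat_lit 25394837440, nat_lit 25755729432], nat_lit 1271250, nat_lit 1271250, nat_lit 631250, nat_lit 1100001, nat_lit 0, nat_lit 0, [nat_lit 490000, nat_lit 1100000], [nat_lit 24, nat_lit 40, nat_lit 80, nat_lit 80, nat_lit 33, nat_lit 249, nat_lit 40, nat_lit 11]⟩, ⟨p019_k24, nat_lit 0, nat_lit 0, nat_lit 0, nat_lit 0, nat_lit 0, [nat_lit 3282000000, nat_lit 6250000000], [], [nat_lit 14098931140, nat_lit 15138213080, nat_lit 15071365960, nat_lit 16024895540], nat_lit 0, nat_lit 0, nat_lit 0, nat_lit 0, nat_lit 0, nat_lit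 0, [], [nat_lit 49, nat_lit 40, nat_lit 80, nat_lit 80]⟩,
 zbF0, [⟨nat_lit 0, nat_lit 97, nat_lit 82, nat_lit 100, nat_lit 641659917⟩]⟩
noncomputable def p019_l90 : Lf2 := ⟨nat_lit 0, nat_lit 2, [nat_lit 10, nat_lit 5, nat_lit 5, nat_lit 20], false, nat_lit 0, nat_lit 0, nat_lit 0, nat_lit 0, ⟨nat_lit 1000, nat_lit 0, nat_lit 0, nat_lit 0, nat_lit 0, nat_lit 0, nat_lit 0, nat_lit 0, nat_lit 0, nat_lit 0, nat_lit 0, nat_lit 0, nat_lit 0, nat_lit 0, nat_lit 0, nat_lit 0, false, false⟩,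
 nat_lit 0, nat_lit 7375, nat_lit 0, nat_lit 0, nat_lit 5749, nat_lit 0, nat_lit 0, nat_lit 0, nat_lit 0, nat_lit 10561, nat_lit 0, nat_lit 0, nat_lit 0, nat_lit 0, nat_lit 0, nat_lit 0, nat_lit 0, nat_lit 0, [],
 ⟨p019_k25, nat_lit 0, nat_lit 0, nat_lit 539, nat_lit 0, nat_lit 1363192, [nat_lit 2032000001, nat_lit 3282000000], [], [nat_lit 22790528927, nat_lit 23323523228, nat_lit 23151084156, nat_lit 23649528850], nat_lit 1271250, nat_lit 1271250, nat_lit 719601, nat_lit 1100001, nat_lit 0, nat_lit 0, [nat_lit 490000, nat_lit 780000], [nat_lit 112, nat_lit 40, nat_lit 80, nat_lit 80, nat_lit 113, nat_lit 249, nat_lit 40, nat_lit 14]⟩, ⟨p019_k24, nat_lit 0, nat_lit 0, nat_lit 0, nat_lit 0, nat_lit 0, [nat_lit 3282000000, nat_lit 6250000000], [], [nat_lit 15669101600, nat_lit 16089658600, nat_lit 16943936000, nat_lit 17347435000], nat_lit 0, nat_lit 0, nat_lit 0, nat_lit 0, nat_lit 0, nat_lit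 0, [], [nat_lit 49, nat_lit 40, nat_lit 80, nat_lit 80]⟩,
 zbF0, []⟩
noncomputable def p019_l91 : Lf2 := ⟨nat_lit 0, nat_lit 4, [nat_lit 38, nat_lit 5, nat_lit 5, nat_lit 20], false, nat_lit 0, nat_lit 0, nat_lit 0, nat_lit 0, ⟨nat_lit 1000, nat_lit 0, nat_lit 0, nat_lit 0, nat_lit 0, nat_lit 0, nat_lit 0, nat_lit 0, nat_lit 0, nat_lit 0, nat_lit 0, nat_lit 0, nat_lit 0, nat_lit 0, nat_lit 0, nat_lit 0, false, false⟩,
 nat_lit 0, nat_lit 10810, nat_lit 0, nat_lit 0, nat_lit 8107, nat_lit 4510, nat_lit 0, nat_lit 0, nat_lit 0, nat_lit 0, nat_lit 0, nat_lit 0, nat_lit 0, nat_lit 0, nat_lit 0, nat_lit 0, nat_lit 0, nat_lit 0, [],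
 ⟨p019_k26, nat_lit 0, nat_lit 0, nat_lit 603, nat_lit 0, nat_lit 1332940, [nat_lit 2032000001, nat_lit 4688000000], [], [nat_lit 27071224050, nat_lit 27856189912, nat_lit 26536184520, nat_lit 27250719692], nat_lit 1271250, nat_lit 1271250, nat_lit 631250, nat_lit 1100001, nat_lit 0, nat_lit 0, [nat_lit 490000, nat_lit 1100000], [nat_lit 24, nat_lit 40, nat_lit 80, nat_lit 80, nat_lit 33, nat_lit 249, nat_lit 40, nat_lit 11]⟩, ⟨p019_k27, nat_lit 0, nat_lit 0, nat_lit 0, nat_lit 0, nat_lit 0, [nat_lit 3282000000, nat_lit 6250000000], [], [nat_lit 14098931140, nat_lit 15138213080, nat_lit 15071365960, nat_lit 16024895540], nat_lit 0, nat_lit 0, nat_lit 0, nat_lit 0, nat_lit 0, nat_lit 0, [], [nat_lit 49, nat_lit 40, nat_lit 80, nat_lit 80]⟩,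
 zbF0, [⟨nat_lit 0, nat_lit 94, nat_lit 75, nat_lit 100, nat_lit 713709989⟩]⟩
noncomputable def p019_l92 : Lf2 := ⟨nat_lit 0, nat_lit 5, [nat_lit 4, nat_lit 5, nat_lit 5, nat_lit 20], false, nat_lit 0, nat_lit 0, nat_lit 0, nat_lit 0, ⟨nat_lit 1000, nat_lit 0, nat_lit 0, nat_lit 0, nat_lit 0, nat_lit 0, nat_lit 0, nat_lit 0, nat_lit 0, nat_lit 0, nat_lit 0, nat_lit 0, nat_lit 0, nat_lit 0, nat_lit 0, nat_lit 0, false, false⟩,
 nat_lit 0, nat_lit 8585, nat_lit 0, nat_lit 0, nat_lit 6438, nat_lit 9182, nat_lit 520, nat_lit 0, nat_lit 0, nat_lit 1299, nat_lit 0, nat_lit 0, nat_lit 0, nat_lit 0, nat_lit 0, nat_lit 0, nat_lit 0, nat_lit 0, [],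
 ⟨p019_k28, nat_lit 0, nat_lit 0, nat_lit 604, nat_lit 0, nat_lit 1130485, [nat_lit 2032000001, nat_lit 4688000000, nat_lit 6250000000], [], [nat_lit 31422951232, nat_lit 31645806506, nat_lit 31379231026, nat_lit 31583848118], nat_lit 1271250, nat_lit 1271250, nat_lit 631250, nat_lit 1100001, nat_lit 0, nat_lit 0, [nat_lit 490000, nat_lit 1100000, nat_lit 1442500], [nat_lit 6, nat_lit 40, nat_lit 80, nat_lit 80, nat_lit 3, nat_lit 249, nat_lit 40, nat_lit 9]⟩, ⟨p019_k29, nat_lit 0, nat_lit 0, nat_lit 0, nat_lit 0, nat_lit 0, [nat_lit 3282000000, nat_lit 6250000000, nat_lit 7968000000], [], [nat_lit 18990868864, nat_lit 20284594664, nat_lit 18924094320, nat_lit 20225783240], nat_lit 0, nat_lit 0, nat_lit 0, nat_lit 0, nat_lit 0, nat_lit 0, [], [nat_lit 18, nat_lit 40, nat_lit 80, nat_lit 80]⟩,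
 zbF0, [⟨nat_lit 0, nat_lit 98, nat_lit 86, nat_lit 100, nat_lit 649365033⟩]⟩
noncomputable def p019_l93 : Lf2 := ⟨nat_lit 0, nat_lit 5, [nat_lit 4, nat_lit 5, nat_lit 5, nat_lit 20], false, nat_lit 0, nat_lit 0, nat_lit 0, nat_lit 0, ⟨nat_lit 1000, nat_lit 0, nat_lit 0, nat_lit 0, nat_lit 0, nat_lit 0, nat_lit 0, nat_lit 0, nat_lit 0, nat_lit 0, nat_lit 0, nat_lit 0, nat_lit 0, nat_lit 0, nat_lit 0, nat_lit 0, false, false⟩,
 nat_lit 0, nat_lit 6924, nat_lit 0, nat_lit 0, nat_lit 5294, nat_lit 9208, nat_lit 4755, nat_lit 0, nat_lit 0, nat_lit 1295, nat_lit 0, nat_lit 0, nat_lit 0, nat_lit 0, nat_lit 0, nat_lit 0, nat_lit 0, nat_lit 0, [],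
 ⟨p019_k30, nat_lit 0, nat_lit 0, nat_lit 514, nat_lit 0, nat_lit 1137633, [nat_lit 2032000001, nat_lit 4688000000], [], [nat_lit 20922590623, nat_lit 21155941293, nat_lit 21198905552, nat_lit 21415760175], nat_lit 1271250, nat_lit 1271250, nat_lit 660400, nat_lit 1100001, nat_lit 0, nat_lit 0, [nat_lit 490000, nat_lit 1100000], [nat_lit 24, nat_lit 40, nat_lit 80, nat_lit 80, nat_lit 33, nat_lit 249, nat_lit 40, nat_lit 11]⟩, ⟨p019_k29, nat_lit 0, nat_lit 0, nat_lit 0, nat_lit 0, nat_lit 0, [nat_lit 3282000000, nat_lit 6250000000, nat_lit 7968000000], [], [nat_lit 18990773001, nat_lit 20278131446, nat_lit 18914806080, nat_lit 20219122560], nat_lit 0, nat_lit 0, nat_lit 0, nat_lit 0, nat_lit 0, nat_lit 0, [], [nat_lit 18, nat_lit 40, nat_lit 80, nat_lit 80]⟩,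
 zbF0, [⟨nat_lit 0, nat_lit 100, nat_lit 85, nat_lit 100, nat_lit 94616292⟩, ⟨nat_lit 0, nat_lit 97, nat_lit 82, nat_lit 100, nat_lit 545467762⟩]⟩
noncomputable def p019_l94 : Lf2 := ⟨nat_lit 0, nat_lit 5, [nat_lit 4, nat_lit 5, nat_lit 5, nat_lit 20], false, nat_lit 0, nat_lit 0, nat_lit 0, nat_lit 0, ⟨nat_lit 1000, nat_lit 0, nat_lit 0, nat_lit 0, nat_lit 0, nat_lit 0, nat_lit 0, nat_lit 0, nat_lit 0, nat_lit 0, nat_lit 0, nat_lit 0, nat_lit 0, nat_lit 0, nat_lit 0, nat_lit 0, false, false⟩,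
 nat_lit 0, nat_lit 1814, nat_lit 0, nat_lit 0, nat_lit 1413, nat_lit 9260, nat_lit 0, nat_lit 0, nat_lit 0, nat_lit 1324, nat_lit 0, nat_lit 0, nat_lit 0, nat_lit 0, nat_lit 0, nat_lit 0, nat_lit 0, nat_lit 0, [],
 ⟨p019_k31, nat_lit 0, nat_lit 0, nat_lit 537, nat_lit 0, nat_lit 1180680, [nat_lit 2032000001, nat_lit 4688000000], [], [nat_lit 47561489018, nat_lit 47894910983, nat_lit 48326801396, nat_lit 48645370092], nat_lit 1271250, nat_lit 1271250, nat_lit 719601, nat_lit 1100001, nat_lit 0, nat_lit 0, [nat_lit 490000, nat_lit 1100000], [nat_lit 24, nat_lit 40, nat_lit 80, nat_lit 80, nat_lit 33, nat_lit 249, nat_lit 40, nat_lit 11]⟩, ⟨p019_k29, nat_lit 0, nat_lit 0, nat_lit 0, nat_lit 0, nat_lit 0, [nat_lit 3282000000, nat_lit 6250000000, nat_lit 7968000000], [], [nat_lit 18854089888, nat_lit 20263440057, nat_lit 18896229600, nat_lit 20205801200], nat_lit 0, nat_lit 0, nat_lit 0, nat_lit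 0, nat_lit 0, nat_lit 0, [], [nat_lit 18, nat_lit 40, nat_lit 80, nat_lit 80]⟩,
 zbF0, [⟨nat_lit 0, nat_lit 98, nat_lit 80, nat_lit 100, nat_lit 576677921⟩]⟩
noncomputable def p019_l95 : Lf2 := ⟨nat_lit 0, nat_lit 1, [nat_lit 19, nat_lit 5, nat_lit 5, nat_lit 20], false, nat_lit 0, nat_lit 0, nat_lit 0, nat_lit 0, ⟨nat_lit 1000, nat_lit 0, nat_lit 0, nat_lit 0, nat_lit 0, nat_lit 0, nat_lit 0, nat_lit 0, nat_lit 0, nat_lit 0, nat_lit 0, nat_lit 0, nat_lit 0, nat_lit 0, nat_lit 0, nat_lit 0, false, false⟩,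
 nat_lit 0, nat_lit 9119, nat_lit 0, nat_lit 0, nat_lit 6838, nat_lit 2260, nat_lit 0, nat_lit 0, nat_lit 0, nat_lit 0, nat_lit 0, nat_lit 0, nat_lit 0, nat_lit 0, nat_lit 0, nat_lit 0, nat_lit 0, nat_lit 0, [],
 ⟨p019_k32, nat_lit 0, nat_lit 0, nat_lit 546, nat_lit 0, nat_lit 1388645, [nat_lit 2032000001, nat_lit 3282000000], [], [nat_lit 23288789871, nat_lit 23765281964, nat_lit 23350094345, nat_lit 23791907349], nat_lit 1271250, nat_lit 1271250, nat_lit 689850, nat_lit 1100001, nat_lit 0, nat_lit 0, [nat_lit 490000, nat_lit 780000], [nat_lit 112, nat_lit 40, nat_lit 80, nat_lit 80, nat_lit 113, nat_lit 249, nat_lit 40, nat_lit 15]⟩, ⟨p019_k33, nat_lit 0, nat_lit 0, nat_lit 0, nat_lit 0, nat_lit 0, [nat_lit 3282000000, nat_lit 4688000000], [], [nat_lit 15619833109, nat_lit 15982625655, nat_lit 16684699040, nat_lit 17024261080], nat_lit 0, nat_lit 0, nat_lit 0, nat_lit 0, nat_lit 0, nat_lit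 0, [], [nat_lit 40, nat_lit 40, nat_lit 80, nat_lit 80]⟩,
 zbF0, [⟨nat_lit 0, nat_lit 100, nat_lit 89, nat_lit 100, nat_lit 476988836⟩]⟩
noncomputable def p019_l96 : Lf2 := ⟨nat_lit 0, nat_lit 2, [nat_lit 10, nat_lit 5, nat_lit 5, nat_lit 20], false, nat_lit 0, nat_lit 0, nat_lit 0, nat_lit 0, ⟨nat_lit 1000, nat_lit 0, nat_lit 0, nat_lit 0, nat_lit 0, nat_lit 0, nat_lit 0, nat_lit 0, nat_lit 0, nat_lit 0, nat_lit 0, nat_lit 0, nat_lit 0, nat_lit 0, nat_lit 0, nat_lit 0, false, false⟩,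
 nat_lit 0, nat_lit 8827, nat_lit 0, nat_lit 0, nat_lit 6620, nat_lit 4504, nat_lit 0, nat_lit 0, nat_lit 0, nat_lit 0, nat_lit 0, nat_lit 0, nat_lit 0, nat_lit 0, nat_lit 0, nat_lit 0, nat_lit 0, nat_lit 0, [],
 ⟨p019_k23, nat_lit 0, nat_lit 0, nat_lit 598, nat_lit 0, nat_lit 1333822, [nat_lit 2032000001, nat_lit 4688000000], [], [nat_lit 33069546418, nat_lit 33438859241, nat_lit 32901981202, nat_lit 33274666800], nat_lit 1271250, nat_lit 1271250, nat_lit 689850, nat_lit 1100001, nat_lit 0, nat_lit 0, [nat_lit 490000, nat_lit 1100000], [nat_lit 24, nat_lit 40, nat_lit 80, nat_lit 80, nat_lit 33, nat_lit 249, nat_lit 40, nat_lit 11]⟩, ⟨p019_k34, nat_lit 0, nat_lit 0, nat_lit 0, nat_lit 0, nat_lit 0, [nat_lit 3282000000, nat_lit 6250000000], [], [nat_lit 15257406464, nat_lit 15770927592, nat_lit 16026655016, nat_lit 16503053932], nat_lit 0, nat_lit 0, nat_lit 0, nat_lit 0, nat_lit 0, nat_lit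 0, [], [nat_lit 49, nat_lit 40, nat_lit 80, nat_lit 80]⟩,
 zbF0, [⟨nat_lit 0, nat_lit 94, nat_lit 81, nat_lit 100, nat_lit 620665953⟩]⟩
noncomputable def p019_l97 : Lf2 := ⟨nat_lit 0, nat_lit 5, [nat_lit 4, nat_lit 5, nat_lit 5, nat_lit 20], false, nat_lit 0, nat_lit 0, nat_lit 0, nat_lit 0, ⟨nat_lit 1000, nat_lit 0, nat_lit 0, nat_lit 0, nat_lit 0, nat_lit 0, nat_lit 0, nat_lit 0, nat_lit 0, nat_lit 0, nat_lit 0, nat_lit 0, nat_lit 0, nat_lit 0, nat_lit 0, nat_lit 0, false, false⟩,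
 nat_lit 0, nat_lit 8827, nat_lit 0, nat_lit 0, nat_lit 6620, nat_lit 4504, nat_lit 484, nat_lit 0, nat_lit 0, nat_lit 0, nat_lit 0, nat_lit 0, nat_lit 0, nat_lit 0, nat_lit 0, nat_lit 0, nat_lit 0, nat_lit 0, [],
 ⟨p019_k28, nat_lit 0, nat_lit 0, nat_lit 672, nat_lit 0, nat_lit 1307657, [nat_lit 2032000001, nat_lit 4688000000, nat_lit 6250000000], [], [nat_lit 33069546418, nat_lit 33438859241, nat_lit 32901981202, nat_lit 33274666800], nat_lit 1271250, nat_lit 1271250, nat_lit 689850, nat_lit 1100001, nat_lit 0, nat_lit 0, [nat_lit 490000, nat_lit 1100000, nat_lit 1442500], [nat_lit 6, nat_lit 40, nat_lit 80, nat_lit 80, nat_lit 3, nat_lit 249, nat_lit 40, nat_lit 9]⟩, ⟨p019_k35, nat_lit 0, nat_lit 0, nat_lit 0, nat_lit 0, nat_lit 0, [nat_lit 3282000000, nat_lit 6250000000], [], [nat_lit 15257406464, nat_lit 15770927592, nat_lit 16026655016, nat_lit 16503053932], nat_lit 0, nat_lit 0,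 nat_lit 0, nat_lit 0, nat_lit 0, nat_lit 0, [], [nat_lit 49, nat_lit 40, nat_lit 80, nat_lit 80]⟩,
 zbF0, [⟨nat_lit 0, nat_lit 94, nat_lit 81, nat_lit 100, nat_lit 620665953⟩]⟩
noncomputable def p019_l98 : Lf2 := ⟨nat_lit 0, nat_lit 1, [nat_lit 19, nat_lit 5, nat_lit 5, nat_lit 20], false, nat_lit 0, nat_lit 0, nat_lit 0, nat_lit 0, ⟨nat_lit 1000, nat_lit 0, nat_lit 0, nat_lit 0, nat_lit 0, nat_lit 0, nat_lit 0, nat_lit 0, nat_lit 0, nat_lit 0, nat_lit 0, nat_lit 0, nat_lit 0, nat_lit 0, nat_lit 0, nat_lit 0, false, false⟩,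
 nat_lit 0, nat_lit 9131, nat_lit 0, nat_lit 0, nat_lit 6848, nat_lit 4498, nat_lit 0, nat_lit 0, nat_lit 0, nat_lit 0, nat_lit 0, nat_lit 0, nat_lit 0, nat_lit 0, nat_lit 0, nat_lit 0, nat_lit 0, nat_lit 0, [],
 ⟨p019_k32, nat_lit 0, nat_lit 0, nat_lit 559, nat_lit 0, nat_lit 1427645, [nat_lit 2032000001, nat_lit 3282000000], [], [nat_lit 23238432173, nat_lit 23709936910, nat_lit 23289252225, nat_lit 23731378809], nat_lit 1271250, nat_lit 1271250, nat_lit 749650, nat_lit 1100001, nat_lit 0, nat_lit 0, [nat_lit 490000, nat_lit 780000], [nat_lit 112, nat_lit 40, nat_lit 80, nat_lit 80, nat_lit 113, nat_lit 249, nat_lit 40, nat_lit 14]⟩, ⟨p019_k36, nat_lit 0, nat_lit 0, nat_lit 0, nat_lit 0, nat_lit 0, [nat_lit 3282000000, nat_lit 4688000000], [], [nat_lit 15884255769, nat_lit 16391668485, nat_lit 16504447534, nat_lit 16980480576], nat_lit 0, nat_lit 0, nat_lit 0, nat_lit 0, nat_lit 0, nat_lit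 0, [], [nat_lit 40, nat_lit 40, nat_lit 80, nat_lit 80]⟩,
 zbF0, [⟨nat_lit 0, nat_lit 92, nat_lit 81, nat_lit 100, nat_lit 606058302⟩]⟩
noncomputable def p019_l99 : Lf2 := ⟨nat_lit 0, nat_lit 2, [nat_lit 10, nat_lit 5, nat_lit 5, nat_lit 20], false, nat_lit 0, nat_lit 0, nat_lit 0, nat_lit 0, ⟨nat_lit 1000, nat_lit 0, nat_lit 0, nat_lit 0, nat_lit 0, nat_lit 0, nat_lit 0, nat_lit 0, nat_lit 0, nat_lit 0, nat_lit 0, nat_lit 0, nat_lit 0, nat_lit 0, nat_lit 0, nat_lit 0, false, false⟩,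
 nat_lit 0, nat_lit 11088, nat_lit 0, nat_lit 0, nat_lit 8316, nat_lit 4498, nat_lit 0, nat_lit 0, nat_lit 0, nat_lit 0, nat_lit 0, nat_lit 0, nat_lit 0, nat_lit 0, nat_lit 0, nat_lit 0, nat_lit 0, nat_lit 0, [],
 ⟨p019_k23, nat_lit 0, nat_lit 0, nat_lit 617, nat_lit 0, nat_lit 1372481, [nat_lit 2032000001, nat_lit 4688000000], [], [nat_lit 25746151496, nat_lit 26133629001, nat_lit 25325313760, nat_lit 25686426528], nat_lit 1271250, nat_lit 1271250, nat_lit 749650, nat_lit 1100001, nat_lit 0, nat_lit 0, [nat_lit 490000, nat_lit 1100000], [nat_lit 24, nat_lit 40, nat_lit 80, nat_lit 80, nat_lit 33, nat_lit 249, nat_lit 40, nat_lit 11]⟩, ⟨p019_k37, nat_lit 0, nat_lit 0, nat_lit 0, nat_lit 0, nat_lit 0, [nat_lit 3282000000, nat_lit 4688000000], [], [nat_lit 15884255769, nat_lit 16391668485, nat_lit 16504447534, nat_lit 16980480576], nat_lit 0, nat_lit 0, nat_lit 0, nat_lit 0, nat_lit 0, nat_lit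 0, [], [nat_lit 40, nat_lit 40, nat_lit 80, nat_lit 80]⟩,
 zbF0, [⟨nat_lit 0, nat_lit 92, nat_lit 81, nat_lit 100, nat_lit 677522411⟩]⟩
noncomputable def p019_l100 : Lf2 := ⟨nat_lit 0, nat_lit 5, [nat_lit 4, nat_lit 5, nat_lit 5, nat_lit 20], false, nat_lit 0, nat_lit 0, nat_lit 0, nat_lit 0, ⟨nat_lit 1000, nat_lit 0, nat_lit 0, nat_lit 0, nat_lit 0, nat_lit 0, nat_lit 0, nat_lit 0, nat_lit 0, nat_lit 0, nat_lit 0, nat_lit 0, nat_lit 0, nat_lit 0, nat_lit 0, nat_lit 0, false, false⟩,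
 nat_lit 0, nat_lit 8784, nat_lit 0, nat_lit 0, nat_lit 6588, nat_lit 4498, nat_lit 475, nat_lit 0, nat_lit 0, nat_lit 0, nat_lit 0, nat_lit 0, nat_lit 0, nat_lit 0, nat_lit 0, nat_lit 0, nat_lit 0, nat_lit 0, [],
 ⟨p019_k28, nat_lit 0, nat_lit 0, nat_lit 689, nat_lit 0, nat_lit 1346467, [nat_lit 2032000001, nat_lit 4688000000, nat_lit 6250000000], [], [nat_lit 33231830847, nat_lit 33597763853, nat_lit 33094203282, nat_lit 33436044506], nat_lit 1271250, nat_lit 1271250, nat_lit 749650, nat_lit 1100001, nat_lit 0, nat_lit 0, [nat_lit 490000, nat_lit 1100000, nat_lit 1442500], [nat_lit 6, nat_lit 40, nat_lit 80, nat_lit 80, nat_lit 3, nat_lit 249, nat_lit 40, nat_lit 9]⟩, ⟨p019_k38, nat_lit 0, nat_lit 0, nat_lit 0, nat_lit 0, nat_lit 0, [nat_lit 3282000000, nat_lit 6250000000], [], [nat_lit 15884255769, nat_lit 16391668485, nat_lit 16504447534, nat_lit 16980480576], nat_lit 0, nat_lit 0,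 nat_lit 0, nat_lit 0, nat_lit 0, nat_lit 0, [], [nat_lit 49, nat_lit 40, nat_lit 80, nat_lit 80]⟩,
 zbF0, [⟨nat_lit 0, nat_lit 92, nat_lit 81, nat_lit 100, nat_lit 633764759⟩]⟩
noncomputable def p019_l101 : Lf2 := ⟨nat_lit 0, nat_lit 5, [nat_lit 4, nat_lit 5, nat_lit 5, nat_lit 20], false, nat_lit 0, nat_lit 0, nat_lit 0, nat_lit 0, ⟨nat_lit 1000, nat_lit 0, nat_lit 0, nat_lit 0, nat_lit 0, nat_lit 0, nat_lit 0, nat_lit 0, nat_lit 0, nat_lit 0, nat_lit 0, nat_lit 0, nat_lit 0, nat_lit 0, nat_lit 0, nat_lit 0, false, false⟩,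
 nat_lit 0, nat_lit 1614, nat_lit 0, nat_lit 0, nat_lit 1258, nat_lit 0, nat_lit 0, nat_lit 0, nat_lit 0, nat_lit 0, nat_lit 0, nat_lit 0, nat_lit 0, nat_lit 0, nat_lit 0, nat_lit 0, nat_lit 0, nat_lit 0, [],
 ⟨p019_k31, nat_lit 0, nat_lit 0, nat_lit 660, nat_lit 0, nat_lit 1464817, [nat_lit 2032000001, nat_lit 4688000000], [], [nat_lit 53958698669, nat_lit 54249248532, nat_lit 54563255650, nat_lit 54843788234], nat_lit 1271250, nat_lit 1271250, nat_lit 780000, nat_lit 1100001, nat_lit 0, nat_lit 0, [nat_lit 490000, nat_lit 1100000], [nat_lit 24, nat_lit 40, nat_lit 80, nat_lit 80, nat_lit 33, nat_lit 249, nat_lit 40, nat_lit 11]⟩, ⟨p019_k35, nat_lit 0, nat_lit 0, nat_lit 0, nat_lit 0, nat_lit 0, [nat_lit 3282000000, nat_lit 6250000000], [], [nat_lit 16299288000, nat_lit 16717002000, nat_lit 17347435000, nat_lit 17750934000], nat_lit 0, nat_lit 0, nat_lit 0, nat_lit 0, nat_lit 0, nat_lit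 0, [], [nat_lit 49, nat_lit 40, nat_lit 80, nat_lit 80]⟩,
 zbF0, []⟩
noncomputable def p019_l102 : Lf2 := ⟨nat_lit 0, nat_lit 2, [nat_lit 10, nat_lit 5, nat_lit 5, nat_lit 20], false, nat_lit 0, nat_lit 0, nat_lit 0, nat_lit 0, ⟨nat_lit 1000, nat_lit 0, nat_lit 0, nat_lit 0, nat_lit 0, nat_lit 0, nat_lit 0, nat_lit 0, nat_lit 0, nat_lit 0, nat_lit 0, nat_lit 0, nat_lit 0, nat_lit 0, nat_lit 0, nat_lit 0, false, false⟩,
 nat_lit 0, nat_lit 10884, nat_lit 0, nat_lit 0, nat_lit 8162, nat_lit 4796, nat_lit 0, nat_lit 0, nat_lit 0, nat_lit 0, nat_lit 0, nat_lit 0, nat_lit 0, nat_lit 0, nat_lit 0, nat_lit 0, nat_lit 0, nat_lit 0, [],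
 ⟨p019_k23, nat_lit 0, nat_lit 0, nat_lit 637, nat_lit 0, nat_lit 1434351, [nat_lit 2032000001, nat_lit 4688000000], [], [nat_lit 26217534320, nat_lit 26934093272, nat_lit 27604649760, nat_lit 30429957828], nat_lit 1271250, nat_lit 1271250, nat_lit 1100001, nat_lit 1785000, nat_lit 0, nat_lit 0, [nat_lit 490000, nat_lit 1100000], [nat_lit 24, nat_lit 40, nat_lit 80, nat_lit 80, nat_lit 33, nat_lit 232, nat_lit 0, nat_lit 10]⟩, ⟨p019_k24, nat_lit 0, nat_lit 0, nat_lit 0, nat_lit 0, nat_lit 0, [nat_lit 3282000000, nat_lit 6250000000], [], [nat_lit 14952617616, nat_lit 15941027184, nat_lit 18951537264, nat_lit 19872357468], nat_lit 0, nat_lit 0, nat_lit 0, nat_lit 0, nat_lit 0, nat_lit 0, [], [nat_lit 49, nat_lit 40, nat_lit 80, nat_lit 80]⟩,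
 zbF0, []⟩
noncomputable def p019_l103 : Lf2 := ⟨nat_lit 0, nat_lit 5, [nat_lit 4, nat_lit 5, nat_lit 5, nat_lit 20], false, nat_lit 0, nat_lit 0, nat_lit 0, nat_lit 0, ⟨nat_lit 1000, nat_lit 0, nat_lit 0, nat_lit 0, nat_lit 0, nat_lit 0, nat_lit 0, nat_lit 0, nat_lit 0, nat_lit 0, nat_lit 0, nat_lit 0, nat_lit 0, nat_lit 0, nat_lit 0, nat_lit 0, false, false⟩,
 nat_lit 0, nat_lit 8705, nat_lit 0, nat_lit 0, nat_lit 6528, nat_lit 9587, nat_lit 464, nat_lit 0, nat_lit 0, nat_lit 1242, nat_lit 0, nat_lit 0, nat_lit 0, nat_lit 0, nat_lit 0, nat_lit 0, nat_lit 0, nat_lit 0, [],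
 ⟨p019_k28, nat_lit 0, nat_lit 0, nat_lit 669, nat_lit 0, nat_lit 1345472, [nat_lit 2032000001, nat_lit 4688000000, nat_lit 6250000000], [], [nat_lit 33454619682, nat_lit 34135896370, nat_lit 34269253120, nat_lit 34954453456], nat_lit 1271250, nat_lit 1271250, nat_lit 1100001, nat_lit 1785000, nat_lit 0, nat_lit 0, [nat_lit 490000, nat_lit 1100000, nat_lit 1442500], [nat_lit 6, nat_lit 40, nat_lit 80, nat_lit 80, nat_lit 3, nat_lit 272, nat_lit 60, nat_lit 10]⟩, ⟨p019_k29, nat_lit 0, nat_lit 0, nat_lit 0, nat_lit 0, nat_lit 0, [nat_lit 3282000000, nat_lit 6250000000, nat_lit 7968000000], [], [nat_lit 18909128932, nat_lit 20122030340, nat_lit 23926914108, nat_lit 25372344021], nat_lit 0, nat_lit 0, nat_lit 0, nat_lit 0, nat_lit 0, nat_lit 0, [], [nat_lit 18, nat_lit 40, nat_lit 80, nat_lit 80]⟩,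
 zbF0, []⟩
noncomputable def p019_l104 : Lf2 := ⟨nat_lit 0, nat_lit 5, [nat_lit 4, nat_lit 5, nat_lit 5, nat_lit 20], false, nat_lit 0, nat_lit 0, nat_lit 0, nat_lit 0, ⟨nat_lit 1000, nat_lit 0, nat_lit 0, nat_lit 0, nat_lit 0, nat_lit 0, nat_lit 0, nat_lit 0, nat_lit 0, nat_lit 0, nat_lit 0, nat_lit 0, nat_lit 0, nat_lit 0, nat_lit 0, nat_lit 0, false, false⟩,
 nat_lit 0, nat_lit 11206, nat_lit 0, nat_lit 0, nat_lit 8404, nat_lit 6069, nat_lit 410, nat_lit 0, nat_lit 0, nat_lit 3909, nat_lit 0, nat_lit 0, nat_lit 0, nat_lit 0, nat_lit 0, nat_lit 0, nat_lit 0, nat_lit 0, [],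
 ⟨p019_k28, nat_lit 0, nat_lit 0, nat_lit 713, nat_lit 0, nat_lit 1432542, [nat_lit 2032000001, nat_lit 4688000000, nat_lit 6250000000], [], [nat_lit 24829296912, nat_lit 24997206412, nat_lit 27961957920, nat_lit 28683223234], nat_lit 1271250, nat_lit 1271250, nat_lit 1100001, nat_lit 1785000, nat_lit 0, nat_lit 0, [nat_lit 490000, nat_lit 1100000, nat_lit 1442500], [nat_lit 6, nat_lit 40, nat_lit 80, nat_lit 80, nat_lit 3, nat_lit 272, nat_lit 60, nat_lit 10]⟩, ⟨p019_k35, nat_lit 0, nat_lit 0, nat_lit 0, nat_lit 0, nat_lit 0, [nat_lit 3282000000, nat_lit 6250000000], [], [nat_lit 17334152830, nat_lit 18321241970, nat_lit 21333739827, nat_lit 22393952258], nat_lit 0, nat_lit 0, nat_lit 0, nat_lit 0, nat_lit 0, nat_lit 0, [], [nat_lit 49, nat_lit 40, nat_lit 80, nat_lit 80]⟩,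
 zbF0, []⟩
noncomputable def p019_l105 : Lf2 := ⟨nat_lit 0, nat_lit 5, [nat_lit 4, nat_lit 5, nat_lit 5, nat_lit 20], false, nat_lit 0, nat_lit 0, nat_lit 0, nat_lit 0, ⟨nat_lit 1000, nat_lit 0, nat_lit 0, nat_lit 0, nat_lit 0, nat_lit 0, nat_lit 0, nat_lit 0, nat_lit 0, nat_lit 0, nat_lit 0, nat_lit 0, nat_lit 0, nat_lit 0, nat_lit 0, nat_lit 0, false, false⟩,
 nat_lit 0, nat_lit 8228, nat_lit 0, nat_lit 0, nat_lit 6292, nat_lit 9234, nat_lit 2413, nat_lit 0, nat_lit 0, nat_lit 0, nat_lit 0, nat_lit 0, nat_lit 0, nat_lit 0, nat_lit 0, nat_lit 0, nat_lit 0, nat_lit 0, [],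
 ⟨p019_k30, nat_lit 0, nat_lit 0, nat_lit 632, nat_lit 0, nat_lit 1430976, [nat_lit 2032000001, nat_lit 4688000000], [], [nat_lit 22351035011, nat_lit 22552088687, nat_lit 25434526882, nat_lit 26025421604], nat_lit 1271250, nat_lit 1271250, nat_lit 1100001, nat_lit 1785000, nat_lit 0, nat_lit 0, [nat_lit 490000, nat_lit 1100000], [nat_lit 24, nat_lit 40, nat_lit 80, nat_lit 80, nat_lit 33, nat_lit 230, nat_lit 0, nat_lit 10]⟩, ⟨p019_k35, nat_lit 0, nat_lit 0, nat_lit 0, nat_lit 0, nat_lit 0, [nat_lit 3282000000, nat_lit 6250000000], [], [nat_lit 20212461880, nat_lit 21519405920, nat_lit 24967106022, nat_lit 26373882788], nat_lit 0, nat_lit 0, nat_lit 0, nat_lit 0, nat_lit 0, nat_lit 0, [], [nat_lit 49, nat_lit 40, nat_lit 80, nat_lit 80]⟩,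
 zbF0, [⟨nat_lit 13, nat_lit 90, nat_lit 17, nat_lit 100, nat_lit 42660357⟩]⟩
noncomputable def p019_l106 : Lf2 := ⟨nat_lit 0, nat_lit 5, [nat_lit 4, nat_lit 5, nat_lit 5, nat_lit 20], false, nat_lit 0, nat_lit 0, nat_lit 0, nat_lit 0, ⟨nat_lit 1000, nat_lit 0, nat_lit 0, nat_lit 0, nat_lit 0, nat_lit 0, nat_lit 0, nat_lit 0, nat_lit 0, nat_lit 0, nat_lit 0, nat_lit 0, nat_lit 0, nat_lit 0, nat_lit 0, nat_lit 0, false, false⟩,
 nat_lit 0, nat_lit 7182, nat_lit 0, nat_lit 0, nat_lit 5598, nat_lit 1421, nat_lit 2618, nat_lit 0, nat_lit 0, nat_lit 0, nat_lit 0, nat_lit 0, nat_lit 0, nat_lit 0, nat_lit 0, nat_lit 0, nat_lit 0, nat_lit 0, [],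
 ⟨p019_k31, nat_lit 0, nat_lit 0, nat_lit 649, nat_lit 0, nat_lit 1464817, [nat_lit 2032000001, nat_lit 4688000000], [], [nat_lit 22352673905, nat_lit 22856169157, nat_lit 24915065326, nat_lit 26011175612], nat_lit 1271250, nat_lit 1271250, nat_lit 1100001, nat_lit 1785000, nat_lit 0, nat_lit 0, [nat_lit 490000, nat_lit 1100000], [nat_lit 24, nat_lit 40, nat_lit 80, nat_lit 80, nat_lit 33, nat_lit 235, nat_lit 0, nat_lit 10]⟩, ⟨p019_k35, nat_lit 0, nat_lit 0, nat_lit 0, nat_lit 0, nat_lit 0, [nat_lit 3282000000, nat_lit 6250000000], [], [nat_lit 26408218748, nat_lit 26880803556, nat_lit 28870123749, nat_lit 29290760942], nat_lit 0, nat_lit 0, nat_lit 0, nat_lit 0, nat_lit 0, nat_lit 0, [], [nat_lit 49, nat_lit 40, nat_lit 80, nat_lit 80]⟩,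
 zbF0, []⟩
noncomputable def b_N_800_700_0_1 : St := ⟨false, nat_lit 1, nat_lit 0, nat_lit 1, nat_lit 40, nat_lit 320, nat_lit 340, nat_lit 280, nat_lit 300, nat_lit 100, nat_lit 240, nat_lit 0, nat_lit 0, nat_lit 0, nat_lit 0, nat_lit 0, nat_lit 0, nat_lit 0, nat_lit 20, nat_lit 0, nat_lit 0, nat_lit 0, nat_lit 800⟩
theorem d_N_800_700_0_1 (h : EB TB.env) : Dead b_N_800_700_0_1 := chkB_sound0 h (T :=
(.spl (nat_lit 2) (nat_lit 160)
(.spl (nat_lit 1) (nat_lit 290)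
(.spl (nat_lit 6) (nat_lit 8)
(.spl (nat_lit 0) (nat_lit 330)
(.leaf p019_l89)
(.trZ (nat_lit 0) (nat_lit 100) (nat_lit 83) (nat_lit 98) (nat_lit 112) (.leaf p019_l90)))
(.spl (nat_lit 6) (nat_lit 16)
(.leaf p019_l91)
(.spl (nat_lit 0) (nat_lit 330)
(.spl (nat_lit 0) (nat_lit 325)
(.leaf p019_l92)
(.trZ (nat_lit 0) (nat_lit 100) (nat_lit 85) (nat_lit 97) (nat_lit 104) (.leaf p019_l93)))
(.trZ (nat_lit 0) (nat_lit 100) (nat_lit 83) (nat_lit 98) (nat_lit 112) (.leaf p019_l94)))))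
(.trZ (nat_lit 0) (nat_lit 100) (nat_lit 89) (nat_lit 100) (nat_lit 108) (.spl (nat_lit 0) (nat_lit 330)
(.spl (nat_lit 1) (nat_lit 295)
(.spl (nat_lit 6) (nat_lit 8)
(.spl (nat_lit 6) (nat_lit 4)
(.leaf p019_l95)
(.leaf p019_l96))
(.leaf p019_l97))
(.trZ (nat_lit 0) (nat_lit 97) (nat_lit 88) (nat_lit 100) (nat_lit 116) (.spl (nat_lit 6) (nat_lit 8)
(.spl (nat_lit 6) (nat_lit 4)
(.leaf p019_l98)
(.leaf p019_l99))
(.leaf p019_l100))))
(.trZ (nat_lit 0) (nat_lit 97) (nat_lit 82) (nat_lit 100) (nat_lit 120) (.leaf p019_l101)))))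
(.spl (nat_lit 1) (nat_lit 290)
(.spl (nat_lit 6) (nat_lit 8)
(.leaf p019_l102)
(.leaf p019_l103))
(.spl (nat_lit 0) (nat_lit 330)
(.spl (nat_lit 0) (nat_lit 325)
(.leaf p019_l104)
(.leaf p019_l105))
(.leaf p019_l106))))) (by decide +kernel)
noncomputable def p019_l107 : Lf2 := ⟨nat_lit 0, nat_lit 2, [nat_lit 10, nat_lit 5, nat_lit 5, nat_lit 20], false, nat_lit 0, nat_lit 0, nat_lit 0, nat_lit 0, ⟨nat_lit 1000, nat_lit 0, nat_lit 0, nat_lit 0, nat_lit 0, nat_lit 0, nat_lit 0, nat_lit 0, nat_lit 0, nat_lit 0, nat_lit 0, nat_lit 0, nat_lit 0, nat_lit 0, nat_lit 0, nat_lit 0, false, false⟩,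
 nat_lit 0, nat_lit 0, nat_lit 0, nat_lit 0, nat_lit 0, nat_lit 0, nat_lit 0, nat_lit 0, nat_lit 482, nat_lit 16074, nat_lit 0, nat_lit 0, nat_lit 0, nat_lit 0, nat_lit 0, nat_lit 0, nat_lit 0, nat_lit 0, [],
 ⟨p019_k23, nat_lit 0, nat_lit 0, nat_lit 0, nat_lit 0, nat_lit 1398891, [nat_lit 2032000001, nat_lit 4688000000], [], [nat_lit 12684852000, nat_lit 12751086900, nat_lit 13570940000, nat_lit 13635184800], nat_lit 1271250, nat_lit 1271250, nat_lit 780000, nat_lit 1100001, nat_lit 0, nat_lit 0, [nat_lit 490000, nat_lit 1100000], [nat_lit 24, nat_lit 40, nat_lit 80, nat_lit 80]⟩, ⟨p019_k39, nat_lit 0, nat_lit 0, nat_lit 0, nat_lit 0, nat_lit 0, [nat_lit 3282000000, nat_lit 4688000000], [], [nat_lit 22355335000, nat_lit 22742885500, nat_lit 23362798000, nat_lit 23737353000], nat_lit 0, nat_lit 0, nat_lit 0, nat_lit 0, nat_lit 0, nat_lit 0, [], [nat_lit 40, nat_lit 40, nat_lit 80, nat_lit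 80]⟩,
 zbF0, []⟩
noncomputable def p019_l108 : Lf2 := ⟨nat_lit 0, nat_lit 2, [nat_lit 10, nat_lit 5, nat_lit 5, nat_lit 20], false, nat_lit 0, nat_lit 0, nat_lit 0, nat_lit 0, ⟨nat_lit 1000, nat_lit 0, nat_lit 0, nat_lit 0, nat_lit 0, nat_lit 0, nat_lit 0, nat_lit 0, nat_lit 0, nat_lit 0, nat_lit 0, nat_lit 0, nat_lit 0, nat_lit 0, nat_lit 0, nat_lit 0, false, false⟩,
 nat_lit 0, nat_lit 8894, nat_lit 0, nat_lit 0, nat_lit 6670, nat_lit 4996, nat_lit 0, nat_lit 0, nat_lit 0, nat_lit 2361, nat_lit 0, nat_lit 0, nat_lit 0, nat_lit 0, nat_lit 0, nat_lit 0, nat_lit 0, nat_lit 0, [],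
 ⟨p019_k23, nat_lit 0, nat_lit 0, nat_lit 599, nat_lit 0, nat_lit 1350269, [nat_lit 2032000001, nat_lit 4688000000], [], [nat_lit 32736437322, nat_lit 32772861867, nat_lit 32622294480, nat_lit 32662325163], nat_lit 1271250, nat_lit 1271250, nat_lit 780000, nat_lit 1100001, nat_lit 0, nat_lit 0, [nat_lit 490000, nat_lit 1100000], [nat_lit 24, nat_lit 40, nat_lit 80, nat_lit 80, nat_lit 33, nat_lit 249, nat_lit 40, nat_lit 11]⟩, ⟨p019_k39, nat_lit 0, nat_lit 0, nat_lit 0, nat_lit 0, nat_lit 0, [nat_lit 3282000000, nat_lit 4688000000], [], [nat_lit 17150774016, nat_lit 17601170372, nat_lit 17693123688, nat_lit 18117460072], nat_lit 0, nat_lit 0, nat_lit 0, nat_lit 0, nat_lit 0, nat_lit 0, [], [nat_lit 40, nat_lit 40, nat_lit 80, nat_lit 80]⟩,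
 zbF0, [⟨nat_lit 0, nat_lit 91, nat_lit 85, nat_lit 100, nat_lit 609722838⟩]⟩
noncomputable def p019_l109 : Lf2 := ⟨nat_lit 0, nat_lit 2, [nat_lit 10, nat_lit 5, nat_lit 5, nat_lit 20], false, nat_lit 0, nat_lit 0, nat_lit 0, nat_lit 0, ⟨nat_lit 1000, nat_lit 0, nat_lit 0, nat_lit 0, nat_lit 0, nat_lit 0, nat_lit 0, nat_lit 0, nat_lit 0, nat_lit 0, nat_lit 0, nat_lit 0, nat_lit 0, nat_lit 0, nat_lit 0, nat_lit 0, false, false⟩,
 nat_lit 0, nat_lit 0, nat_lit 0, nat_lit 0, nat_lit 0, nat_lit 3234, nat_lit 0, nat_lit 0, nat_lit 472, nat_lit 0, nat_lit 0, nat_lit 0, nat_lit 0, nat_lit 0, nat_lit 0, nat_lit 0, nat_lit 0, nat_lit 0, [],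
 ⟨p019_k23, nat_lit 0, nat_lit 0, nat_lit 0, nat_lit 0, nat_lit 1392160, [nat_lit 2032000001, nat_lit 4688000000], [], [nat_lit 13401187600, nat_lit 13431059465, nat_lit 14149444000, nat_lit 14178563600], nat_lit 1271250, nat_lit 1271250, nat_lit 810650, nat_lit 1100001, nat_lit 0, nat_lit 0, [nat_lit 490000, nat_lit 1100000], [nat_lit 24, nat_lit 40, nat_lit 80, nat_lit 80]⟩, ⟨p019_k40, nat_lit 0, nat_lit 0, nat_lit 0, nat_lit 0, nat_lit 0, [nat_lit 3282000000, nat_lit 4688000000], [], [nat_lit 21731374014, nat_lit 22086948194, nat_lit 22342788117, nat_lit 22681051982], nat_lit 0, nat_lit 0, nat_lit 0, nat_lit 0, nat_lit 0, nat_lit 0, [], [nat_lit 40, nat_lit 40, nat_lit 80, nat_lit 80]⟩,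
 zbF0, []⟩
noncomputable def p019_l110 : Lf2 := ⟨nat_lit 0, nat_lit 2, [nat_lit 10, nat_lit 5, nat_lit 5, nat_lit 20], false, nat_lit 0, nat_lit 0, nat_lit 0, nat_lit 0, ⟨nat_lit 1000, nat_lit 0, nat_lit 0, nat_lit 0, nat_lit 0, nat_lit 0, nat_lit 0, nat_lit 0, nat_lit 0, nat_lit 0, nat_lit 0, nat_lit 0, nat_lit 0, nat_lit 0, nat_lit 0, nat_lit 0, false, false⟩,
 nat_lit 0, nat_lit 0, nat_lit 0, nat_lit 0, nat_lit 0, nat_lit 5663, nat_lit 0, nat_lit 0, nat_lit 453, nat_lit 642, nat_lit 0, nat_lit 0, nat_lit 0, nat_lit 0, nat_lit 0, nat_lit 0, nat_lit 0, nat_lit 0, [],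
 ⟨p019_k23, nat_lit 0, nat_lit 0, nat_lit 0, nat_lit 0, nat_lit 1392160, [nat_lit 2032000001, nat_lit 4688000000], [], [nat_lit 15068952200, nat_lit 15091872116, nat_lit 15722856000, nat_lit 15747210900], nat_lit 1271250, nat_lit 1271250, nat_lit 810650, nat_lit 1100001, nat_lit 0, nat_lit 0, [nat_lit 490000, nat_lit 1100000], [nat_lit 24, nat_lit 40, nat_lit 80, nat_lit 80]⟩, ⟨p019_k40, nat_lit 0, nat_lit 0, nat_lit 0, nat_lit 0, nat_lit 0, [nat_lit 3282000000, nat_lit 4688000000], [], [nat_lit 18440467234, nat_lit 19078327490, nat_lit 18849188332, nat_lit 19305677699], nat_lit 0, nat_lit 0, nat_lit 0, nat_lit 0, nat_lit 0, nat_lit 0, [], [nat_lit 40, nat_lit 40, nat_lit 80, nat_lit 80]⟩,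
 zbF0, [⟨nat_lit 0, nat_lit 91, nat_lit 86, nat_lit 100, nat_lit 477173465⟩]⟩
noncomputable def p019_l111 : Lf2 := ⟨nat_lit 0, nat_lit 2, [nat_lit 10, nat_lit 5, nat_lit 5, nat_lit 20], false, nat_lit 0, nat_lit 0, nat_lit 0, nat_lit 0, ⟨nat_lit 1000, nat_lit 0, nat_lit 0, nat_lit 0, nat_lit 0, nat_lit 0, nat_lit 0, nat_lit 0, nat_lit 0, nat_lit 0, nat_lit 0, nat_lit 0, nat_lit 0, nat_lit 0, nat_lit 0, nat_lit 0, false, false⟩,
 nat_lit 0, nat_lit 0, nat_lit 0, nat_lit 0, nat_lit 0, nat_lit 5663, nat_lit 0, nat_lit 0, nat_lit 393, nat_lit 642, nat_lit 0, nat_lit 0, nat_lit 0, nat_lit 0, nat_lit 0, nat_lit 0, nat_lit 0, nat_lit 0, [],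
 ⟨p019_k23, nat_lit 0, nat_lit 0, nat_lit 0, nat_lit 0, nat_lit 1392160, [nat_lit 2032000001, nat_lit 4688000000], [], [nat_lit 21791308001, nat_lit 21813438617, nat_lit 22063889000, nat_lit 22086603575], nat_lit 1271250, nat_lit 1271250, nat_lit 810650, nat_lit 936251, nat_lit 0, nat_lit 0, [nat_lit 490000, nat_lit 1100000], [nat_lit 24, nat_lit 40, nat_lit 80, nat_lit 80]⟩, ⟨p019_k40, nat_lit 0, nat_lit 0, nat_lit 0, nat_lit 0, nat_lit 0, [nat_lit 3282000000, nat_lit 4688000000], [], [nat_lit 18440467234, nat_lit 19078327490, nat_lit 18622121055, nat_lit 19106973842], nat_lit 0, nat_lit 0, nat_lit 0, nat_lit 0, nat_lit 0, nat_lit 0, [], [nat_lit 40, nat_lit 40, nat_lit 80, nat_lit 80]⟩,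
 zbF0, [⟨nat_lit 0, nat_lit 91, nat_lit 86, nat_lit 100, nat_lit 492897461⟩]⟩
noncomputable def p019_l112 : Lf2 := ⟨nat_lit 2, nat_lit 2, [nat_lit 10, nat_lit 5, nat_lit 5, nat_lit 20], true, nat_lit 0, nat_lit 0, nat_lit 0, nat_lit 0, zbN0,
 nat_lit 0, nat_lit 0, nat_lit 0, nat_lit 0, nat_lit 0, nat_lit 0, nat_lit 0, nat_lit 0, nat_lit 0, nat_lit 0, nat_lit 0, nat_lit 0, nat_lit 0, nat_lit 0, nat_lit 0, nat_lit 0, nat_lit 0, nat_lit 0, [],
 ⟨p019_k41, nat_lit 0, nat_lit 0, nat_lit 0, nat_lit 0, nat_lit 1392160, [], [], [], nat_lit 1271250, nat_lit 1271250, nat_lit 810650, nat_lit 936251, nat_lit 0, nat_lit 0, [nat_lit 490000, nat_lit 631250, nat_lit 936250], [nat_lit 164, nat_lit 40, nat_lit 20, nat_lit 40]⟩, C1.Rw.none,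
 zbF0, []⟩
noncomputable def p019_l113 : Lf2 := ⟨nat_lit 0, nat_lit 2, [nat_lit 10, nat_lit 5, nat_lit 5, nat_lit 20], false, nat_lit 0, nat_lit 0, nat_lit 0, nat_lit 0, ⟨nat_lit 1000, nat_lit 0, nat_lit 0, nat_lit 0, nat_lit 0, nat_lit 0, nat_lit 0, nat_lit 0, nat_lit 0, nat_lit 0, nat_lit 0, nat_lit 0, nat_lit 0, nat_lit 0, nat_lit 0, nat_lit 0, false, false⟩,
 nat_lit 0, nat_lit 696, nat_lit 0, nat_lit 0, nat_lit 522, nat_lit 4541, nat_lit 0, nat_lit 0, nat_lit 420, nat_lit 0, nat_lit 0, nat_lit 0, nat_lit 0, nat_lit 0, nat_lit 0, nat_lit 0, nat_lit 0, nat_lit 0, [],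
 ⟨p019_k23, nat_lit 0, nat_lit 0, nat_lit 0, nat_lit 0, nat_lit 1375289, [nat_lit 2032000001, nat_lit 4688000000], [], [nat_lit 16429551380, nat_lit 16451606053, nat_lit 16738243568, nat_lit 16762076730], nat_lit 1271250, nat_lit 1271250, nat_lit 936251, nat_lit 1100001, nat_lit 0, nat_lit 0, [nat_lit 490000, nat_lit 1100000], [nat_lit 24, nat_lit 40, nat_lit 80, nat_lit 80]⟩, ⟨p019_k40, nat_lit 0, nat_lit 0, nat_lit 0, nat_lit 0, nat_lit 0, [nat_lit 3282000000, nat_lit 4688000000], [], [nat_lit 17200877832, nat_lit 17496690438, nat_lit 17451770331, nat_lit 17738963415], nat_lit 0, nat_lit 0, nat_lit 0, nat_lit 0, nat_lit 0, nat_lit 0, [], [nat_lit 40, nat_lit 40, nat_lit 80, nat_lit 80]⟩,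
 zbF0, []⟩
noncomputable def p019_l114 : Lf2 := ⟨nat_lit 0, nat_lit 2, [nat_lit 10, nat_lit 5, nat_lit 5, nat_lit 20], false, nat_lit 0, nat_lit 0, nat_lit 0, nat_lit 0, ⟨nat_lit 1000, nat_lit 0, nat_lit 0, nat_lit 0, nat_lit 0, nat_lit 0, nat_lit 0, nat_lit 0, nat_lit 0, nat_lit 0, nat_lit 0, nat_lit 0, nat_lit 0, nat_lit 0, nat_lit 0, nat_lit 0, false, false⟩,
 nat_lit 0, nat_lit 694, nat_lit 0, nat_lit 0, nat_lit 520, nat_lit 4533, nat_lit 0, nat_lit 0, nat_lit 420, nat_lit 0, nat_lit 0, nat_lit 0, nat_lit 0, nat_lit 0, nat_lit 0, nat_lit 0, nat_lit 0, nat_lit 0, [],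
 ⟨p019_k23, nat_lit 0, nat_lit 0, nat_lit 0, nat_lit 0, nat_lit 1383714, [nat_lit 2032000001, nat_lit 4688000000], [], [nat_lit 16441014800, nat_lit 16463065559, nat_lit 16748378880, nat_lit 16772206772], nat_lit 1271250, nat_lit 1271250, nat_lit 936251, nat_lit 1100001, nat_lit 0, nat_lit 0, [nat_lit 490000, nat_lit 1100000], [nat_lit 24, nat_lit 40, nat_lit 80, nat_lit 80]⟩, ⟨p019_k42, nat_lit 0, nat_lit 0, nat_lit 0, nat_lit 0, nat_lit 0, [nat_lit 3282000000, nat_lit 4688000000], [], [nat_lit 17496806294, nat_lit 17595309121, nat_lit 17739553188, nat_lit 17835186649], nat_lit 0, nat_lit 0, nat_lit 0, nat_lit 0, nat_lit 0, nat_lit 0, [], [nat_lit 40, nat_lit 40, nat_lit 80, nat_lit 80]⟩,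
 zbF0, []⟩
noncomputable def p019_l115 : Lf2 := ⟨nat_lit 0, nat_lit 2, [nat_lit 10, nat_lit 5, nat_lit 5, nat_lit 20], false, nat_lit 0, nat_lit 0, nat_lit 0, nat_lit 0, ⟨nat_lit 1000, nat_lit 0, nat_lit 0, nat_lit 0, nat_lit 0, nat_lit 0, nat_lit 0, nat_lit 0, nat_lit 0, nat_lit 0, nat_lit 0, nat_lit 0, nat_lit 0, nat_lit 0, nat_lit 0, nat_lit 0, false, false⟩,
 nat_lit 0, nat_lit 0, nat_lit 0, nat_lit 0, nat_lit 0, nat_lit 5648, nat_lit 0, nat_lit 0, nat_lit 392, nat_lit 571, nat_lit 0, nat_lit 0, nat_lit 0, nat_lit 0, nat_lit 0, nat_lit 0, nat_lit 0, nat_lit 0, [],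
 ⟨p019_k23, nat_lit 0, nat_lit 0, nat_lit 0, nat_lit 0, nat_lit 1392160, [nat_lit 2032000001, nat_lit 4688000000], [], [nat_lit 22179324001, nat_lit 22201262076, nat_lit 22246328001, nat_lit 22268217941], nat_lit 1271250, nat_lit 1271250, nat_lit 936251, nat_lit 968401, nat_lit 0, nat_lit 0, [nat_lit 490000, nat_lit 1100000], [nat_lit 24, nat_lit 40, nat_lit 80, nat_lit 80]⟩, ⟨p019_k43, nat_lit 0, nat_lit 0, nat_lit 0, nat_lit 0, nat_lit 0, [nat_lit 3282000000, nat_lit 4688000000], [], [nat_lit 18987976324, nat_lit 19082029459, nat_lit 19031207834, nat_lit 19124680713], nat_lit 0, nat_lit 0, nat_lit 0, nat_lit 0, nat_lit 0, nat_lit 0, [], [nat_lit 40, nat_lit 40, nat_lit 80, nat_lit 80]⟩,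
 zbF0, []⟩
noncomputable def p019_l116 : Lf2 := ⟨nat_lit 2, nat_lit 2, [nat_lit 10, nat_lit 5, nat_lit 5, nat_lit 20], true, nat_lit 0, nat_lit 0, nat_lit 0, nat_lit 0, zbN0,
 nat_lit 0, nat_lit 0, nat_lit 0, nat_lit 0, nat_lit 0, nat_lit 0, nat_lit 0, nat_lit 0, nat_lit 0, nat_lit 0, nat_lit 0, nat_lit 0, nat_lit 0, nat_lit 0, nat_lit 0, nat_lit 0, nat_lit 0, nat_lit 0, [],
 ⟨p019_k41, nat_lit 0, nat_lit 0, nat_lit 0, nat_lit 0, nat_lit 1392160, [], [], [], nat_lit 1271250, nat_lit 1271250, nat_lit 936251, nat_lit 968401, nat_lit 0, nat_lit 0, [nat_lit 490000, nat_lit 631250, nat_lit 936250], [nat_lit 164, nat_lit 40, nat_lit 20, nat_lit 40]⟩, C1.Rw.none,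
 zbF0, []⟩
noncomputable def p019_l117 : Lf2 := ⟨nat_lit 0, nat_lit 2, [nat_lit 10, nat_lit 5, nat_lit 5, nat_lit 20], false, nat_lit 0, nat_lit 0, nat_lit 0, nat_lit 0, ⟨nat_lit 1000, nat_lit 0, nat_lit 0, nat_lit 0, nat_lit 0, nat_lit 0, nat_lit 0, nat_lit 0, nat_lit 0, nat_lit 0, nat_lit 0, nat_lit 0, nat_lit 0, nat_lit 0, nat_lit 0, nat_lit 0, false, false⟩,
 nat_lit 0, nat_lit 693, nat_lit 0, nat_lit 0, nat_lit 519, nat_lit 4543, nat_lit 0, nat_lit 0, nat_lit 420, nat_lit 0, nat_lit 0, nat_lit 0, nat_lit 0, nat_lit 0, nat_lit 0, nat_lit 0, nat_lit 0, nat_lit 0, [],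
 ⟨p019_k23, nat_lit 0, nat_lit 0, nat_lit 0, nat_lit 0, nat_lit 1392160, [nat_lit 2032000001, nat_lit 4688000000], [], [nat_lit 16505062176, nat_lit 16527351669, nat_lit 16628354210, nat_lit 16652311731], nat_lit 1271250, nat_lit 1271250, nat_lit 968401, nat_lit 1033601, nat_lit 0, nat_lit 0, [nat_lit 490000, nat_lit 1100000], [nat_lit 24, nat_lit 40, nat_lit 80, nat_lit 80]⟩, ⟨p019_k43, nat_lit 0, nat_lit 0, nat_lit 0, nat_lit 0, nat_lit 0, [nat_lit 3282000000, nat_lit 4688000000], [], [nat_lit 17643147095, nat_lit 17741201815, nat_lit 17738859243, nat_lit 17835764313], nat_lit 0, nat_lit 0, nat_lit 0, nat_lit 0, nat_lit 0, nat_lit 0, [], [nat_lit 40, nat_lit 40, nat_lit 80, nat_lit 80]⟩,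
 zbF0, []⟩
noncomputable def p019_l118 : Lf2 := ⟨nat_lit 0, nat_lit 2, [nat_lit 10, nat_lit 5, nat_lit 5, nat_lit 20], false, nat_lit 0, nat_lit 0, nat_lit 0, nat_lit 0, ⟨nat_lit 1000, nat_lit 0, nat_lit 0, nat_lit 0, nat_lit 0, nat_lit 0, nat_lit 0, nat_lit 0, nat_lit 0, nat_lit 0, nat_lit 0, nat_lit 0, nat_lit 0, nat_lit 0, nat_lit 0, nat_lit 0, false, false⟩,
 nat_lit 0, nat_lit 693, nat_lit 0, nat_lit 0, nat_lit 519, nat_lit 4581, nat_lit 0, nat_lit 0, nat_lit 420, nat_lit 0, nat_lit 0, nat_lit 0, nat_lit 0, nat_lit 0, nat_lit 0, nat_lit 0, nat_lit 0, nat_lit 0, [],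
 ⟨p019_k23, nat_lit 0, nat_lit 0, nat_lit 0, nat_lit 0, nat_lit 1392160, [nat_lit 2032000001, nat_lit 4688000000], [], [nat_lit 16628354210, nat_lit 16652311731, nat_lit 16753446536, nat_lit 16777271794], nat_lit 1271250, nat_lit 1271250, nat_lit 1033601, nat_lit 1100001, nat_lit 0, nat_lit 0, [nat_lit 490000, nat_lit 1100000], [nat_lit 24, nat_lit 40, nat_lit 80, nat_lit 80]⟩, ⟨p019_k43, nat_lit 0, nat_lit 0, nat_lit 0, nat_lit 0, nat_lit 0, [nat_lit 3282000000, nat_lit 4688000000], [], [nat_lit 17737428943, nat_lit 17834804691, nat_lit 17832233411, nat_lit 17928452270], nat_lit 0, nat_lit 0, nat_lit 0, nat_lit 0, nat_lit 0, nat_lit 0, [], [nat_lit 40, nat_lit 40, nat_lit 80, nat_lit 80]⟩,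
 zbF0, []⟩
noncomputable def p019_l119 : Lf2 := ⟨nat_lit 2, nat_lit 2, [nat_lit 10, nat_lit 5, nat_lit 5, nat_lit 20], true, nat_lit 0, nat_lit 0, nat_lit 0, nat_lit 0, zbN0,
 nat_lit 0, nat_lit 0, nat_lit 0, nat_lit 0, nat_lit 0, nat_lit 0, nat_lit 0, nat_lit 0, nat_lit 0, nat_lit 0, nat_lit 0, nat_lit 0, nat_lit 0, nat_lit 0, nat_lit 0, nat_lit 0, nat_lit 0, nat_lit 0, [],
 ⟨p019_k44, nat_lit 0, nat_lit 0, nat_lit 620, nat_lit 0, nat_lit 1392160, [], [], [], nat_lit 1271250, nat_lit 1271250, nat_lit 810650, nat_lit 1100001, nat_lit 0, nat_lit 0, [nat_lit 490000, nat_lit 780000, nat_lit 1100000], [nat_lit 78, nat_lit 40, nat_lit 80, nat_lit 80, nat_lit 22, nat_lit 249, nat_lit 40, nat_lit 11]⟩, C1.Rw.none,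
 zbF0, []⟩
noncomputable def p019_l120 : Lf2 := ⟨nat_lit 0, nat_lit 2, [nat_lit 10, nat_lit 5, nat_lit 5, nat_lit 20], false, nat_lit 0, nat_lit 0, nat_lit 0, nat_lit 0, ⟨nat_lit 1000, nat_lit 0, nat_lit 0, nat_lit 0, nat_lit 0, nat_lit 0, nat_lit 0, nat_lit 0, nat_lit 0, nat_lit 0, nat_lit 0, nat_lit 0, nat_lit 0, nat_lit 0, nat_lit 0, nat_lit 0, false, false⟩,
 nat_lit 0, nat_lit 8850, nat_lit 0, nat_lit 0, nat_lit 6663, nat_lit 5652, nat_lit 2727, nat_lit 0, nat_lit 0, nat_lit 788, nat_lit 0, nat_lit 0, nat_lit 0, nat_lit 0, nat_lit 0, nat_lit 0, nat_lit 0, nat_lit 0, [],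
 ⟨p019_k45, nat_lit 0, nat_lit 0, nat_lit 599, nat_lit 0, nat_lit 1350047, [nat_lit 2032000001, nat_lit 4688000000], [], [nat_lit 30845514632, nat_lit 30881923438, nat_lit 30729227187, nat_lit 30769239427], nat_lit 1271250, nat_lit 1271250, nat_lit 780000, nat_lit 1100001, nat_lit 0, nat_lit 0, [nat_lit 490000, nat_lit 1100000], [nat_lit 24, nat_lit 40, nat_lit 80, nat_lit 80, nat_lit 33, nat_lit 249, nat_lit 40, nat_lit 11]⟩, ⟨p019_k39, nat_lit 0, nat_lit 0, nat_lit 0, nat_lit 0, nat_lit 0, [nat_lit 3282000000, nat_lit 4688000000], [], [nat_lit 17933197392, nat_lit 18418180364, nat_lit 18417380856, nat_lit 18873334826], nat_lit 0, nat_lit 0, nat_lit 0, nat_lit 0, nat_lit 0, nat_lit 0, [], [nat_lit 40, nat_lit 40, nat_lit 80, nat_lit 80]⟩,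
 zbF0, [⟨nat_lit 0, nat_lit 91, nat_lit 85, nat_lit 100, nat_lit 618932402⟩]⟩
noncomputable def p019_l121 : Lf2 := ⟨nat_lit 0, nat_lit 2, [nat_lit 10, nat_lit 5, nat_lit 5, nat_lit 20], false, nat_lit 0, nat_lit 0, nat_lit 0, nat_lit 0, ⟨nat_lit 1000, nat_lit 0, nat_lit 0, nat_lit 0, nat_lit 0, nat_lit 0, nat_lit 0, nat_lit 0, nat_lit 0, nat_lit 0, nat_lit 0, nat_lit 0, nat_lit 0, nat_lit 0, nat_lit 0, nat_lit 0, false, false⟩,
 nat_lit 0, nat_lit 12034, nat_lit 0, nat_lit 0, nat_lit 9060, nat_lit 5628, nat_lit 4285, nat_lit 0, nat_lit 0, nat_lit 631, nat_lit 0, nat_lit 0, nat_lit 0, nat_lit 0, nat_lit 0, nat_lit 0, nat_lit 0, nat_lit 0, [],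
 ⟨p019_k45, nat_lit 0, nat_lit 0, nat_lit 611, nat_lit 0, nat_lit 1374915, [nat_lit 2032000001, nat_lit 4688000000], [], [nat_lit 17946773566, nat_lit 17986568091, nat_lit 17517200688, nat_lit 17554680776], nat_lit 1271250, nat_lit 1271250, nat_lit 810650, nat_lit 1100001, nat_lit 0, nat_lit 0, [nat_lit 490000, nat_lit 1100000], [nat_lit 24, nat_lit 40, nat_lit 80, nat_lit 80, nat_lit 33, nat_lit 249, nat_lit 40, nat_lit 11]⟩, ⟨p019_k40, nat_lit 0, nat_lit 0, nat_lit 0, nat_lit 0, nat_lit 0, [nat_lit 3282000000, nat_lit 4688000000], [], [nat_lit 18489958443, nat_lit 18778453101, nat_lit 18901600189, nat_lit 19174471688], nat_lit 0, nat_lit 0, nat_lit 0, nat_lit 0, nat_lit 0, nat_lit 0, [], [nat_lit 40, nat_lit 40, nat_lit 80, nat_lit 80]⟩,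
 zbF0, [⟨nat_lit 0, nat_lit 89, nat_lit 84, nat_lit 100, nat_lit 699869904⟩]⟩
noncomputable def p019_l122 : Lf2 := ⟨nat_lit 0, nat_lit 2, [nat_lit 10, nat_lit 5, nat_lit 5, nat_lit 20], false, nat_lit 0, nat_lit 0, nat_lit 0, nat_lit 0, ⟨nat_lit 1000, nat_lit 0, nat_lit 0, nat_lit 0, nat_lit 0, nat_lit 0, nat_lit 0, nat_lit 0, nat_lit 0, nat_lit 0, nat_lit 0, nat_lit 0, nat_lit 0, nat_lit 0, nat_lit 0, nat_lit 0, false, false⟩,
 nat_lit 0, nat_lit 12021, nat_lit 0, nat_lit 0, nat_lit 9050, nat_lit 5627, nat_lit 4355, nat_lit 0, nat_lit 0, nat_lit 567, nat_lit 0, nat_lit 0, nat_lit 0, nat_lit 0, nat_lit 0, nat_lit 0, nat_lit 0, nat_lit 0, [],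
 ⟨p019_k45, nat_lit 0, nat_lit 0, nat_lit 615, nat_lit 0, nat_lit 1383267, [nat_lit 2032000001, nat_lit 4688000000], [], [nat_lit 17898218489, nat_lit 17937735577, nat_lit 17517368690, nat_lit 17554830380], nat_lit 1271250, nat_lit 1271250, nat_lit 841600, nat_lit 1100001, nat_lit 0, nat_lit 0, [nat_lit 490000, nat_lit 1100000], [nat_lit 24, nat_lit 40, nat_lit 80, nat_lit 80, nat_lit 33, nat_lit 249, nat_lit 40, nat_lit 11]⟩, ⟨p019_k42, nat_lit 0, nat_lit 0, nat_lit 0, nat_lit 0, nat_lit 0, [nat_lit 3282000000, nat_lit 4688000000], [], [nat_lit 18815996968, nat_lit 18911572836, nat_lit 19168089608, nat_lit 19259037040], nat_lit 0, nat_lit 0, nat_lit 0, nat_lit 0, nat_lit 0, nat_lit 0, [], [nat_lit 40, nat_lit 40, nat_lit 80, nat_lit 80]⟩,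
 zbF0, [⟨nat_lit 0, nat_lit 89, nat_lit 84, nat_lit 100, nat_lit 697917024⟩]⟩
noncomputable def p019_l123 : Lf2 := ⟨nat_lit 0, nat_lit 2, [nat_lit 10, nat_lit 5, nat_lit 5, nat_lit 20], false, nat_lit 0, nat_lit 0, nat_lit 0, nat_lit 0, ⟨nat_lit 1000, nat_lit 0, nat_lit 0, nat_lit 0, nat_lit 0, nat_lit 0, nat_lit 0, nat_lit 0, nat_lit 0, nat_lit 0, nat_lit 0, nat_lit 0, nat_lit 0, nat_lit 0, nat_lit 0, nat_lit 0, false, false⟩,
 nat_lit 0, nat_lit 12118, nat_lit 0, nat_lit 0, nat_lit 9123, nat_lit 5626, nat_lit 4422, nat_lit 0, nat_lit 0, nat_lit 553, nat_lit 0, nat_lit 0, nat_lit 0, nat_lit 0, nat_lit 0, nat_lit 0, nat_lit 0, nat_lit 0, [],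
 ⟨p019_k45, nat_lit 0, nat_lit 0, nat_lit 618, nat_lit 0, nat_lit 1391641, [nat_lit 2032000001, nat_lit 4688000000], [], [nat_lit 17378877101, nat_lit 17418283576, nat_lit 17235699519, nat_lit 17321208383], nat_lit 1271250, nat_lit 1271250, nat_lit 872850, nat_lit 1100001, nat_lit 0, nat_lit 0, [nat_lit 490000, nat_lit 1100000], [nat_lit 24, nat_lit 40, nat_lit 80, nat_lit 80, nat_lit 33, nat_lit 249, nat_lit 40, nat_lit 11]⟩, ⟨p019_k43, nat_lit 0, nat_lit 0, nat_lit 0, nat_lit 0, nat_lit 0, [nat_lit 3282000000, nat_lit 4688000000], [], [nat_lit 18948740626, nat_lit 19043727638, nat_lit 19252838977, nat_lit 19343776673], nat_lit 0, nat_lit 0, nat_lit 0, nat_lit 0, nat_lit 0, nat_lit 0, [], [nat_lit 40, nat_lit 40, nat_lit 80, nat_lit 80]⟩,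
 zbF0, [⟨nat_lit 0, nat_lit 88, nat_lit 84, nat_lit 100, nat_lit 646003234⟩]⟩
noncomputable def p019_l124 : Lf2 := ⟨nat_lit 0, nat_lit 2, [nat_lit 10, nat_lit 5, nat_lit 5, nat_lit 20], false, nat_lit 0, nat_lit 0, nat_lit 0, nat_lit 0, ⟨nat_lit 1000, nat_lit 0, nat_lit 0, nat_lit 0, nat_lit 0, nat_lit 0, nat_lit 0, nat_lit 0, nat_lit 0, nat_lit 0, nat_lit 0, nat_lit 0, nat_lit 0, nat_lit 0, nat_lit 0, nat_lit 0, false, false⟩,
 nat_lit 0, nat_lit 7528, nat_lit 0, nat_lit 0, nat_lit 5690, nat_lit 5705, nat_lit 11003, nat_lit 0, nat_lit 0, nat_lit 612, nat_lit 0, nat_lit 0, nat_lit 0, nat_lit 0, nat_lit 0, nat_lit 0, nat_lit 0, nat_lit 0, [],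
 ⟨p019_k46, nat_lit 0, nat_lit 0, nat_lit 624, nat_lit 0, nat_lit 1391112, [nat_lit 2032000001, nat_lit 4688000000], [], [nat_lit 20774864518, nat_lit 20815536494, nat_lit 20891432796, nat_lit 20929924459], nat_lit 1271250, nat_lit 1271250, nat_lit 780000, nat_lit 1100001, nat_lit 0, nat_lit 0, [nat_lit 490000, nat_lit 1100000], [nat_lit 24, nat_lit 40, nat_lit 80, nat_lit 80, nat_lit 33, nat_lit 249, nat_lit 40, nat_lit 11]⟩, ⟨p019_k39, nat_lit 0, nat_lit 0, nat_lit 0, nat_lit 0, nat_lit 0, [nat_lit 3282000000, nat_lit 4688000000], [], [nat_lit 18042878930, nat_lit 19129263238, nat_lit 18522362990, nat_lit 19439430215], nat_lit 0, nat_lit 0, nat_lit 0, nat_lit 0, nat_lit 0, nat_lit 0, [], [nat_lit 40, nat_lit 40, nat_lit 80, nat_lit 80]⟩,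
 zbF0, [⟨nat_lit 0, nat_lit 88, nat_lit 83, nat_lit 100, nat_lit 636068838⟩]⟩
noncomputable def b_N_800_700_0_2 : St := ⟨false, nat_lit 1, nat_lit 0, nat_lit 1, nat_lit 40, nat_lit 320, nat_lit 323, nat_lit 300, nat_lit 310, nat_lit 120, nat_lit 160, nat_lit 0, nat_lit 0, nat_lit 0, nat_lit 0, nat_lit 0, nat_lit 0, nat_lit 4, nat_lit 8, nat_lit 0, nat_lit 0, nat_lit 0, nat_lit 800⟩
theorem d_N_800_700_0_2 (h : EB TB.env) : Dead b_N_800_700_0_2 := chkB_sound0 h (T :=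
(.spl (nat_lit 0) (nat_lit 322)
(.spl (nat_lit 7) (nat_lit 600)
(.leaf p019_l107)
(.spl (nat_lit 0) (nat_lit 321)
(.spl (nat_lit 1) (nat_lit 305)
(.leaf p019_l108)
(.trZ (nat_lit 0) (nat_lit 91) (nat_lit 86) (nat_lit 100) (nat_lit 124) (.spl (nat_lit 7) (nat_lit 900)
(.leaf p019_l109)
(.spl (nat_lit 7) (nat_lit 1060)
(.leaf p019_l110)
(.spl (nat_lit 7) (nat_lit 1220)
(.spl (nat_lit 2) (nat_lit 140)
(.spl (nat_lit 7) (nat_lit 1140)
(.leaf p019_l111)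
(.leaf p019_l112))
(.spl (nat_lit 1) (nat_lit 308)
(.leaf p019_l113)
(.spl (nat_lit 1) (nat_lit 309)
(.leaf p019_l114)
(.spl (nat_lit 2) (nat_lit 152)
(.spl (nat_lit 2) (nat_lit 144)
(.spl (nat_lit 7) (nat_lit 1140)
(.leaf p019_l115)
(.leaf p019_l116))
(.leaf p019_l117))
(.leaf p019_l118)))))
(.leaf p019_l119))))))
(.spl (nat_lit 1) (nat_lit 305)
(.leaf p019_l120)
(.trZ (nat_lit 0) (nat_lit 91) (nat_lit 85) (nat_lit 100) (nat_lit 124) (.spl (nat_lit 1) (nat_lit 308)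
(.leaf p019_l121)
(.trZ (nat_lit 0) (nat_lit 90) (nat_lit 85) (nat_lit 100) (nat_lit 128) (.spl (nat_lit 1) (nat_lit 309)
(.leaf p019_l122)
(.trZ (nat_lit 0) (nat_lit 89) (nat_lit 85) (nat_lit 100) (nat_lit 132) (.leaf p019_l123)))))))))
(.leaf p019_l124))) (by decide +kernel)
noncomputable def p019_l125 : Lf2 := ⟨nat_lit 0, nat_lit 2, [nat_lit 10, nat_lit 5, nat_lit 5, nat_lit 20], false, nat_lit 0, nat_lit 0, nat_lit 0, nat_lit 0, ⟨nat_lit 1000, nat_lit 0, nat_lit 0, nat_lit 0, nat_lit 0, nat_lit 0, nat_lit 0, nat_lit 0, nat_lit 0, nat_lit 0, nat_lit 0, nat_lit 0, nat_lit 0, nat_lit 0, nat_lit 0, nat_lit 0, false, false⟩,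
 nat_lit 0, nat_lit 12989, nat_lit 0, nat_lit 0, nat_lit 9741, nat_lit 0, nat_lit 0, nat_lit 0, nat_lit 0, nat_lit 0, nat_lit 0, nat_lit 460, nat_lit 0, nat_lit 0, nat_lit 0, nat_lit 0, nat_lit 0, nat_lit 0, [],
 ⟨p019_k23, nat_lit 0, nat_lit 0, nat_lit 635, nat_lit 0, nat_lit 1417915, [nat_lit 2032000001, nat_lit 4688000000], [], [nat_lit 17460732942, nat_lit 17501378053, nat_lit 17069376760, nat_lit 17108109752], nat_lit 1271250, nat_lit 1271250, nat_lit 872850, nat_lit 1100001, nat_lit 0, nat_lit 0, [nat_lit 490000, nat_lit 1100000], [nat_lit 24, nat_lit 40, nat_lit 80, nat_lit 80, nat_lit 33, nat_lit 249, nat_lit 40, nat_lit 11]⟩, ⟨p019_k47, nat_lit 0, nat_lit 0, nat_lit 0, nat_lit 0, nat_lit 0, [nat_lit 3282000000, nat_lit 4688000000], [], [nat_lit 11920631100, nat_lit 12044665950, nat_lit 12634433000, nat_lit 12755482700], nat_lit 0, nat_lit 0, nat_lit 0, nat_lit 0, nat_lit 0, nat_lit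 0, [], [nat_lit 40, nat_lit 40, nat_lit 80, nat_lit 80]⟩,
 zbF0, [⟨nat_lit 0, nat_lit 87, nat_lit 84, nat_lit 100, nat_lit 624220640⟩]⟩
noncomputable def p019_l126 : Lf2 := ⟨nat_lit 0, nat_lit 2, [nat_lit 10, nat_lit 5, nat_lit 5, nat_lit 20], false, nat_lit 0, nat_lit 0, nat_lit 0, nat_lit 0, ⟨nat_lit 1000, nat_lit 0, nat_lit 0, nat_lit 0, nat_lit 0, nat_lit 0, nat_lit 0, nat_lit 0, nat_lit 0, nat_lit 0, nat_lit 0, nat_lit 0, nat_lit 0, nat_lit 0, nat_lit 0, nat_lit 0, false, false⟩,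
 nat_lit 0, nat_lit 13082, nat_lit 0, nat_lit 0, nat_lit 9811, nat_lit 0, nat_lit 0, nat_lit 0, nat_lit 0, nat_lit 0, nat_lit 0, nat_lit 461, nat_lit 0, nat_lit 0, nat_lit 0, nat_lit 0, nat_lit 0, nat_lit 0, [],
 ⟨p019_k23, nat_lit 0, nat_lit 0, nat_lit 641, nat_lit 0, nat_lit 1426542, [nat_lit 2032000001, nat_lit 4688000000], [], [nat_lit 17061247282, nat_lit 17102032691, nat_lit 17004472236, nat_lit 17044982841], nat_lit 1271250, nat_lit 1271250, nat_lit 872850, nat_lit 904401, nat_lit 0, nat_lit 0, [nat_lit 490000, nat_lit 1100000], [nat_lit 24, nat_lit 40, nat_lit 80, nat_lit 80, nat_lit 33, nat_lit 249, nat_lit 40, nat_lit 11]⟩, ⟨p019_k48, nat_lit 0, nat_lit 0, nat_lit 0, nat_lit 0, nat_lit 0, [nat_lit 3282000000, nat_lit 4688000000], [], [nat_lit 12036150420, nat_lit 12080553960, nat_lit 12138308360, nat_lit 12182561680], nat_lit 0, nat_lit 0, nat_lit 0, nat_lit 0, nat_lit 0, nat_lit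 0, [], [nat_lit 40, nat_lit 40, nat_lit 80, nat_lit 80]⟩,
 zbF0, [⟨nat_lit 0, nat_lit 87, nat_lit 84, nat_lit 100, nat_lit 1346813313⟩]⟩
noncomputable def p019_l127 : Lf2 := ⟨nat_lit 0, nat_lit 2, [nat_lit 10, nat_lit 5, nat_lit 5, nat_lit 20], false, nat_lit 0, nat_lit 0, nat_lit 0, nat_lit 0, ⟨nat_lit 1000, nat_lit 0, nat_lit 0, nat_lit 0, nat_lit 0, nat_lit 0, nat_lit 0, nat_lit 0, nat_lit 0, nat_lit 0, nat_lit 0, nat_lit 0, nat_lit 0, nat_lit 0, nat_lit 0, nat_lit 0, false, false⟩,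
 nat_lit 0, nat_lit 687, nat_lit 0, nat_lit 0, nat_lit 515, nat_lit 0, nat_lit 0, nat_lit 0, nat_lit 421, nat_lit 0, nat_lit 0, nat_lit 461, nat_lit 0, nat_lit 0, nat_lit 0, nat_lit 0, nat_lit 0, nat_lit 0, [],
 ⟨p019_k23, nat_lit 0, nat_lit 0, nat_lit 0, nat_lit 0, nat_lit 1426542, [nat_lit 2032000001, nat_lit 4688000000], [], [nat_lit 16286154030, nat_lit 16310364855, nat_lit 16348747885, nat_lit 16372892693], nat_lit 1271250, nat_lit 1271250, nat_lit 904401, nat_lit 936251, nat_lit 0, nat_lit 0, [nat_lit 490000, nat_lit 1100000], [nat_lit 24, nat_lit 40, nat_lit 80, nat_lit 80]⟩, ⟨p019_k48, nat_lit 0, nat_lit 0, nat_lit 0, nat_lit 0, nat_lit 0, [nat_lit 3282000000, nat_lit 4688000000], [], [nat_lit 12138308360, nat_lit 12182561680, nat_lit 12240466300, nat_lit 12284569400], nat_lit 0, nat_lit 0, nat_lit 0, nat_lit 0, nat_lit 0, nat_lit 0, [], [nat_lit 40, nat_lit 40, nat_lit 80, nat_lit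 80]⟩,
 zbF0, []⟩
noncomputable def p019_l128 : Lf2 := ⟨nat_lit 0, nat_lit 2, [nat_lit 10, nat_lit 5, nat_lit 5, nat_lit 20], false, nat_lit 0, nat_lit 0, nat_lit 0, nat_lit 0, ⟨nat_lit 1000, nat_lit 0, nat_lit 0, nat_lit 0, nat_lit 0, nat_lit 0, nat_lit 0, nat_lit 0, nat_lit 0, nat_lit 0, nat_lit 0, nat_lit 0, nat_lit 0, nat_lit 0, nat_lit 0, nat_lit 0, false, false⟩,
 nat_lit 0, nat_lit 21513, nat_lit 0, nat_lit 0, nat_lit 16134, nat_lit 0, nat_lit 0, nat_lit 0, nat_lit 0, nat_lit 0, nat_lit 0, nat_lit 460, nat_lit 0, nat_lit 0, nat_lit 0, nat_lit 0, nat_lit 19293905140, nat_lit 0, [],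
 ⟨p019_k23, nat_lit 0, nat_lit 0, nat_lit 639, nat_lit 0, nat_lit 1426542, [nat_lit 2032000001, nat_lit 4688000000], [], [nat_lit 135091724, nat_lit 188126738, nat_lit 0, nat_lit 52611650], nat_lit 1271250, nat_lit 1271250, nat_lit 904401, nat_lit 936251, nat_lit 0, nat_lit 0, [nat_lit 490000, nat_lit 1100000], [nat_lit 24, nat_lit 40, nat_lit 80, nat_lit 80, nat_lit 33, nat_lit 249, nat_lit 40, nat_lit 11]⟩, ⟨p019_k48, nat_lit 0, nat_lit 0, nat_lit 0, nat_lit 0, nat_lit 0, [nat_lit 3282000000, nat_lit 4688000000], [], [nat_lit 12146211200, nat_lit 12187414000, nat_lit 12247756450, nat_lit 12288817101], nat_lit 0, nat_lit 0, nat_lit 0, nat_lit 0, nat_lit 0, nat_lit 0, [], [nat_lit 40, nat_lit 40, nat_lit 80, nat_lit 80]⟩,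
 zbF0, [⟨nat_lit 0, nat_lit 86, nat_lit 84, nat_lit 100, nat_lit 775350118⟩]⟩
noncomputable def p019_l129 : Lf2 := ⟨nat_lit 0, nat_lit 2, [nat_lit 10, nat_lit 5, nat_lit 5, nat_lit 20], false, nat_lit 0, nat_lit 0, nat_lit 0, nat_lit 0, ⟨nat_lit 1000, nat_lit 0, nat_lit 0, nat_lit 0, nat_lit 0, nat_lit 0, nat_lit 0, nat_lit 0, nat_lit 0, nat_lit 0, nat_lit 0, nat_lit 0, nat_lit 0, nat_lit 0, nat_lit 0, nat_lit 0, false, false⟩,
 nat_lit 0, nat_lit 13067, nat_lit 0, nat_lit 0, nat_lit 9799, nat_lit 0, nat_lit 0, nat_lit 0, nat_lit 0, nat_lit 0, nat_lit 0, nat_lit 460, nat_lit 0, nat_lit 0, nat_lit 0, nat_lit 0, nat_lit 0, nat_lit 0, [],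
 ⟨p019_k23, nat_lit 0, nat_lit 0, nat_lit 637, nat_lit 0, nat_lit 1426542, [nat_lit 2032000001, nat_lit 4688000000], [], [nat_lit 17016477710, nat_lit 17056690023, nat_lit 16765598856, nat_lit 16813873202], nat_lit 1271250, nat_lit 1271250, nat_lit 936251, nat_lit 1100001, nat_lit 0, nat_lit 0, [nat_lit 490000, nat_lit 1100000], [nat_lit 24, nat_lit 40, nat_lit 80, nat_lit 80, nat_lit 33, nat_lit 249, nat_lit 40, nat_lit 11]⟩, ⟨p019_k48, nat_lit 0, nat_lit 0, nat_lit 0, nat_lit 0, nat_lit 0, [nat_lit 3282000000, nat_lit 4688000000], [], [nat_lit 12247756450, nat_lit 12288817101, nat_lit 12755482700, nat_lit 12795832600], nat_lit 0, nat_lit 0, nat_lit 0, nat_lit 0, nat_lit 0, nat_lit 0, [], [nat_lit 40, nat_lit 40, nat_lit 80, nat_lit 80]⟩,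
 zbF0, []⟩
noncomputable def p019_l130 : Lf2 := ⟨nat_lit 0, nat_lit 2, [nat_lit 10, nat_lit 5, nat_lit 5, nat_lit 20], false, nat_lit 0, nat_lit 0, nat_lit 0, nat_lit 0, ⟨nat_lit 1000, nat_lit 0, nat_lit 0, nat_lit 0, nat_lit 0, nat_lit 0, nat_lit 0, nat_lit 0, nat_lit 0, nat_lit 0, nat_lit 0, nat_lit 0, nat_lit 0, nat_lit 0, nat_lit 0, nat_lit 0, false, false⟩,
 nat_lit 0, nat_lit 0, nat_lit 0, nat_lit 0, nat_lit 0, nat_lit 0, nat_lit 0, nat_lit 0, nat_lit 444, nat_lit 0, nat_lit 0, nat_lit 460, nat_lit 0, nat_lit 0, nat_lit 0, nat_lit 0, nat_lit 0, nat_lit 0, [],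
 ⟨p019_k23, nat_lit 0, nat_lit 0, nat_lit 0, nat_lit 0, nat_lit 1435191, [nat_lit 2032000001, nat_lit 4688000000], [], [nat_lit 16284760000, nat_lit 16305920710, nat_lit 16351889000, nat_lit 16374603575], nat_lit 1271250, nat_lit 1271250, nat_lit 904401, nat_lit 936251, nat_lit 0, nat_lit 0, [nat_lit 490000, nat_lit 1100000], [nat_lit 24, nat_lit 40, nat_lit 80, nat_lit 80]⟩, ⟨p019_k49, nat_lit 0, nat_lit 0, nat_lit 0, nat_lit 0, nat_lit 0, [nat_lit 3282000000, nat_lit 4688000000], [], [nat_lit 12187414000, nat_lit 12228616800, nat_lit 12288817101, nat_lit 12329877750], nat_lit 0, nat_lit 0, nat_lit 0, nat_lit 0, nat_lit 0, nat_lit 0, [], [nat_lit 40, nat_lit 40, nat_lit 80, nat_lit 80]⟩,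
 zbF0, [⟨nat_lit 0, nat_lit 86, nat_lit 84, nat_lit 100, nat_lit 422846414⟩]⟩
noncomputable def p019_l131 : Lf2 := ⟨nat_lit 2, nat_lit 2, [nat_lit 10, nat_lit 5, nat_lit 5, nat_lit 20], true, nat_lit 0, nat_lit 0, nat_lit 0, nat_lit 0, zbN0,
 nat_lit 0, nat_lit 0, nat_lit 0, nat_lit 0, nat_lit 0, nat_lit 0, nat_lit 0, nat_lit 0, nat_lit 0, nat_lit 0, nat_lit 0, nat_lit 0, nat_lit 0, nat_lit 0, nat_lit 0, nat_lit 0, nat_lit 0, nat_lit 0, [],
 ⟨p019_k44, nat_lit 0, nat_lit 0, nat_lit 643, nat_lit 0, nat_lit 1435191, [], [], [], nat_lit 1271250, nat_lit 1271250, nat_lit 904401, nat_lit 936251, nat_lit 0, nat_lit 0, [nat_lit 490000, nat_lit 780000, nat_lit 1100000], [nat_lit 78, nat_lit 40, nat_lit 80, nat_lit 80, nat_lit 22, nat_lit 249, nat_lit 40, nat_lit 11]⟩, C1.Rw.none,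
 zbF0, []⟩
noncomputable def p019_l132 : Lf2 := ⟨nat_lit 0, nat_lit 2, [nat_lit 10, nat_lit 5, nat_lit 5, nat_lit 20], false, nat_lit 0, nat_lit 0, nat_lit 0, nat_lit 0, ⟨nat_lit 1000, nat_lit 0, nat_lit 0, nat_lit 0, nat_lit 0, nat_lit 0, nat_lit 0, nat_lit 0, nat_lit 0, nat_lit 0, nat_lit 0, nat_lit 0, nat_lit 0, nat_lit 0, nat_lit 0, nat_lit 0, false, false⟩,
 nat_lit 0, nat_lit 686, nat_lit 0, nat_lit 0, nat_lit 514, nat_lit 0, nat_lit 0, nat_lit 0, nat_lit 421, nat_lit 0, nat_lit 0, nat_lit 460, nat_lit 0, nat_lit 0, nat_lit 0, nat_lit 0, nat_lit 0, nat_lit 0, [],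
 ⟨p019_k23, nat_lit 0, nat_lit 0, nat_lit 0, nat_lit 0, nat_lit 1435191, [nat_lit 2032000001, nat_lit 4688000000], [], [nat_lit 16353755926, nat_lit 16377897957, nat_lit 16416361704, nat_lit 16440437745], nat_lit 1271250, nat_lit 1271250, nat_lit 936251, nat_lit 968401, nat_lit 0, nat_lit 0, [nat_lit 490000, nat_lit 1100000], [nat_lit 24, nat_lit 40, nat_lit 80, nat_lit 80]⟩, ⟨p019_k49, nat_lit 0, nat_lit 0, nat_lit 0, nat_lit 0, nat_lit 0, [nat_lit 3282000000, nat_lit 4688000000], [], [nat_lit 12288817101, nat_lit 12329877750, nat_lit 12390220201, nat_lit 12431138701], nat_lit 0, nat_lit 0, nat_lit 0, nat_lit 0, nat_lit 0, nat_lit 0, [], [nat_lit 40, nat_lit 40, nat_lit 80, nat_lit 80]⟩,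
 zbF0, []⟩
noncomputable def p019_l133 : Lf2 := ⟨nat_lit 2, nat_lit 2, [nat_lit 10, nat_lit 5, nat_lit 5, nat_lit 20], true, nat_lit 0, nat_lit 0, nat_lit 0, nat_lit 0, zbN0,
 nat_lit 0, nat_lit 0, nat_lit 0, nat_lit 0, nat_lit 0, nat_lit 0, nat_lit 0, nat_lit 0, nat_lit 0, nat_lit 0, nat_lit 0, nat_lit 0, nat_lit 0, nat_lit 0, nat_lit 0, nat_lit 0, nat_lit 0, nat_lit 0, [],
 ⟨p019_k44, nat_lit 0, nat_lit 0, nat_lit 642, nat_lit 0, nat_lit 1435191, [], [], [], nat_lit 1271250, nat_lit 1271250, nat_lit 936251, nat_lit 968401, nat_lit 0, nat_lit 0, [nat_lit 490000, nat_lit 780000, nat_lit 1100000], [nat_lit 78, nat_lit 40, nat_lit 80, nat_lit 80, nat_lit 22, nat_lit 249, nat_lit 40, nat_lit 11]⟩, C1.Rw.none,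
 zbF0, []⟩
noncomputable def p019_l134 : Lf2 := ⟨nat_lit 0, nat_lit 2, [nat_lit 10, nat_lit 5, nat_lit 5, nat_lit 20], false, nat_lit 0, nat_lit 0, nat_lit 0, nat_lit 0, ⟨nat_lit 1000, nat_lit 0, nat_lit 0, nat_lit 0, nat_lit 0, nat_lit 0, nat_lit 0, nat_lit 0, nat_lit 0, nat_lit 0, nat_lit 0, nat_lit 0, nat_lit 0, nat_lit 0, nat_lit 0, nat_lit 0, false, false⟩,
 nat_lit 0, nat_lit 13051, nat_lit 0, nat_lit 0, nat_lit 9788, nat_lit 0, nat_lit 0, nat_lit 0, nat_lit 0, nat_lit 0, nat_lit 0, nat_lit 460, nat_lit 0, nat_lit 0, nat_lit 0, nat_lit 0, nat_lit 0, nat_lit 0, [],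
 ⟨p019_k23, nat_lit 0, nat_lit 0, nat_lit 640, nat_lit 0, nat_lit 1435191, [nat_lit 2032000001, nat_lit 4688000000], [], [nat_lit 17023036352, nat_lit 17062952871, nat_lit 16917279321, nat_lit 16966185467], nat_lit 1271250, nat_lit 1271250, nat_lit 968401, nat_lit 1033601, nat_lit 0, nat_lit 0, [nat_lit 490000, nat_lit 1100000], [nat_lit 24, nat_lit 40, nat_lit 80, nat_lit 80, nat_lit 33, nat_lit 249, nat_lit 40, nat_lit 11]⟩, ⟨p019_k49, nat_lit 0, nat_lit 0, nat_lit 0, nat_lit 0, nat_lit 0, [nat_lit 3282000000, nat_lit 4688000000], [], [nat_lit 12390220201, nat_lit 12431138701, nat_lit 12593026400, nat_lit 12634245000], nat_lit 0, nat_lit 0, nat_lit 0, nat_lit 0, nat_lit 0, nat_lit 0, [], [nat_lit 40, nat_lit 40, nat_lit 80, nat_lit 80]⟩,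
 zbF0, []⟩
noncomputable def p019_l135 : Lf2 := ⟨nat_lit 0, nat_lit 2, [nat_lit 10, nat_lit 5, nat_lit 5, nat_lit 20], false, nat_lit 0, nat_lit 0, nat_lit 0, nat_lit 0, ⟨nat_lit 1000, nat_lit 0, nat_lit 0, nat_lit 0, nat_lit 0, nat_lit 0, nat_lit 0, nat_lit 0, nat_lit 0, nat_lit 0, nat_lit 0, nat_lit 0, nat_lit 0, nat_lit 0, nat_lit 0, nat_lit 0, false, false⟩,
 nat_lit 0, nat_lit 13020, nat_lit 0, nat_lit 0, nat_lit 9764, nat_lit 0, nat_lit 0, nat_lit 0, nat_lit 0, nat_lit 0, nat_lit 0, nat_lit 460, nat_lit 0, nat_lit 0, nat_lit 0, nat_lit 0, nat_lit 0, nat_lit 0, [],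
 ⟨p019_k23, nat_lit 0, nat_lit 0, nat_lit 636, nat_lit 0, nat_lit 1435191, [nat_lit 2032000001, nat_lit 4688000000], [], [nat_lit 17048508848, nat_lit 17087831556, nat_lit 16942966816, nat_lit 16991148951], nat_lit 1271250, nat_lit 1271250, nat_lit 1033601, nat_lit 1100001, nat_lit 0, nat_lit 0, [nat_lit 490000, nat_lit 1100000], [nat_lit 24, nat_lit 40, nat_lit 80, nat_lit 80, nat_lit 33, nat_lit 249, nat_lit 40, nat_lit 11]⟩, ⟨p019_k49, nat_lit 0, nat_lit 0, nat_lit 0, nat_lit 0, nat_lit 0, [nat_lit 3282000000, nat_lit 4688000000], [], [nat_lit 12593026400, nat_lit 12634245000, nat_lit 12795832600, nat_lit 12837960000], nat_lit 0, nat_lit 0, nat_lit 0, nat_lit 0, nat_lit 0, nat_lit 0, [], [nat_lit 40, nat_lit 40, nat_lit 80, nat_lit 80]⟩,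
 zbF0, []⟩
noncomputable def p019_l136 : Lf2 := ⟨nat_lit 0, nat_lit 2, [nat_lit 10, nat_lit 5, nat_lit 5, nat_lit 20], false, nat_lit 0, nat_lit 0, nat_lit 0, nat_lit 0, ⟨nat_lit 1000, nat_lit 0, nat_lit 0, nat_lit 0, nat_lit 0, nat_lit 0, nat_lit 0, nat_lit 0, nat_lit 0, nat_lit 0, nat_lit 0, nat_lit 0, nat_lit 0, nat_lit 0, nat_lit 0, nat_lit 0, false, false⟩,
 nat_lit 0, nat_lit 0, nat_lit 0, nat_lit 0, nat_lit 0, nat_lit 0, nat_lit 0, nat_lit 0, nat_lit 444, nat_lit 0, nat_lit 0, nat_lit 460, nat_lit 0, nat_lit 0, nat_lit 0, nat_lit 0, nat_lit 0, nat_lit 0, [],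
 ⟨p019_k23, nat_lit 0, nat_lit 0, nat_lit 0, nat_lit 0, nat_lit 1479551, [nat_lit 2032000001, nat_lit 4688000000], [], [nat_lit 16284760000, nat_lit 16305920710, nat_lit 16558091600, nat_lit 16580652170], nat_lit 1271250, nat_lit 1271250, nat_lit 904401, nat_lit 1033601, nat_lit 0, nat_lit 0, [nat_lit 490000, nat_lit 1100000], [nat_lit 24, nat_lit 40, nat_lit 80, nat_lit 80]⟩, ⟨p019_k50, nat_lit 0, nat_lit 0, nat_lit 0, nat_lit 0, nat_lit 0, [nat_lit 3282000000, nat_lit 4688000000], [], [nat_lit 12228616800, nat_lit 12448081600, nat_lit 12634245000, nat_lit 12852507200], nat_lit 0, nat_lit 0, nat_lit 0, nat_lit 0, nat_lit 0, nat_lit 0, [], [nat_lit 40, nat_lit 40, nat_lit 80, nat_lit 80]⟩,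
 zbF0, [⟨nat_lit 0, nat_lit 86, nat_lit 84, nat_lit 100, nat_lit 415638492⟩]⟩
noncomputable def p019_l137 : Lf2 := ⟨nat_lit 0, nat_lit 2, [nat_lit 10, nat_lit 5, nat_lit 5, nat_lit 20], true, nat_lit 0, nat_lit 0, nat_lit 0, nat_lit 0, ⟨nat_lit 0, nat_lit 0, nat_lit 1000, nat_lit 7, nat_lit 213, nat_lit 0, nat_lit 0, nat_lit 0, nat_lit 0, nat_lit 215, nat_lit 5786, nat_lit 233, nat_lit 52234291, nat_lit 0, nat_lit 0, nat_lit 2636964, false, false⟩,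
 nat_lit 0, nat_lit 100000, nat_lit 0, nat_lit 0, nat_lit 75000, nat_lit 0, nat_lit 0, nat_lit 3177, nat_lit 0, nat_lit 0, nat_lit 0, nat_lit 0, nat_lit 0, nat_lit 0, nat_lit 0, nat_lit 1000000, nat_lit 46892544799, nat_lit 0, [(nat_lit 18, [(nat_lit 6, nat_lit 1000)])],
 ⟨p019_k44, nat_lit 0, nat_lit 0, nat_lit 660, nat_lit 0, nat_lit 1479551, [nat_lit 26278000000, nat_lit 38034000000, nat_lit 49414800000], [], [nat_lit 2734318400, nat_lit 2982333059, nat_lit 0, nat_lit 239034020], nat_lit 1271250, nat_lit 1271250, nat_lit 904401, nat_lit 1033601, nat_lit 0, nat_lit 0, [nat_lit 490000, nat_lit 780000, nat_lit 1100000], [nat_lit 78, nat_lit 40, nat_lit 80, nat_lit 80, nat_lit 22, nat_lit 249, nat_lit 40, nat_lit 11]⟩, C1.Rw.none,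
 ⟨nat_lit 4444, nat_lit 4473, ⟨.ofNat (nat_lit 515241), .ofNat (nat_lit 542432), .ofNat (nat_lit 520632), .ofNat (nat_lit 547823), .ofNat (nat_lit 515567), .ofNat (nat_lit 542690), .ofNat (nat_lit 520961), .ofNat (nat_lit 548084)⟩, ⟨.ofNat (nat_lit 0), .ofNat (nat_lit 0), .ofNat (nat_lit 0), .ofNat (nat_lit 0), .ofNat (nat_lit 0), .ofNat (nat_lit 0), .ofNat (nat_lit 0), .ofNat (nat_lit 0)⟩⟩, []⟩
noncomputable def p019_l138 : Lf2 := ⟨nat_lit 0, nat_lit 2, [nat_lit 10, nat_lit 5, nat_lit 5, nat_lit 20], false, nat_lit 0, nat_lit 0, nat_lit 0, nat_lit 0, ⟨nat_lit 1000, nat_lit 0, nat_lit 0, nat_lit 0, nat_lit 0, nat_lit 0, nat_lit 0, nat_lit 0, nat_lit 0, nat_lit 0, nat_lit 0, nat_lit 0, nat_lit 0, nat_lit 0, nat_lit 0, nat_lit 0, false, false⟩,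
 nat_lit 0, nat_lit 8934, nat_lit 0, nat_lit 0, nat_lit 6700, nat_lit 0, nat_lit 0, nat_lit 0, nat_lit 0, nat_lit 0, nat_lit 0, nat_lit 459, nat_lit 0, nat_lit 0, nat_lit 0, nat_lit 0, nat_lit 0, nat_lit 0, [],
 ⟨p019_k23, nat_lit 0, nat_lit 0, nat_lit 647, nat_lit 0, nat_lit 1461741, [nat_lit 2032000001, nat_lit 4688000000], [], [nat_lit 34727127641, nat_lit 34758161743, nat_lit 34688205601, nat_lit 34720974160], nat_lit 1271250, nat_lit 1271250, nat_lit 1033601, nat_lit 1100001, nat_lit 0, nat_lit 0, [nat_lit 490000, nat_lit 1100000], [nat_lit 24, nat_lit 40, nat_lit 80, nat_lit 80, nat_lit 33, nat_lit 249, nat_lit 40, nat_lit 11]⟩, ⟨p019_k50, nat_lit 0, nat_lit 0, nat_lit 0, nat_lit 0, nat_lit 0, [nat_lit 3282000000, nat_lit 4688000000], [], [nat_lit 12645660600, nat_lit 12767563200, nat_lit 12848182500, nat_lit 12969232200], nat_lit 0, nat_lit 0, nat_lit 0, nat_lit 0, nat_lit 0, nat_lit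 0, [], [nat_lit 40, nat_lit 40, nat_lit 80, nat_lit 80]⟩,
 zbF0, []⟩
noncomputable def p019_l139 : Lf2 := ⟨nat_lit 0, nat_lit 2, [nat_lit 10, nat_lit 5, nat_lit 5, nat_lit 20], false, nat_lit 0, nat_lit 0, nat_lit 0, nat_lit 0, ⟨nat_lit 1000, nat_lit 0, nat_lit 0, nat_lit 0, nat_lit 0, nat_lit 0, nat_lit 0, nat_lit 0, nat_lit 0, nat_lit 0, nat_lit 0, nat_lit 0, nat_lit 0, nat_lit 0, nat_lit 0, nat_lit 0, false, false⟩,
 nat_lit 0, nat_lit 8934, nat_lit 0, nat_lit 0, nat_lit 6700, nat_lit 0, nat_lit 0, nat_lit 0, nat_lit 0, nat_lit 0, nat_lit 0, nat_lit 459, nat_lit 0, nat_lit 0, nat_lit 0, nat_lit 0, nat_lit 0, nat_lit 0, [],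
 ⟨p019_k23, nat_lit 0, nat_lit 0, nat_lit 651, nat_lit 0, nat_lit 1470635, [nat_lit 2032000001, nat_lit 4688000000], [], [nat_lit 34727127641, nat_lit 34758161743, nat_lit 34688205601, nat_lit 34720974160], nat_lit 1271250, nat_lit 1271250, nat_lit 1033601, nat_lit 1100001, nat_lit 0, nat_lit 0, [nat_lit 490000, nat_lit 1100000], [nat_lit 24, nat_lit 40, nat_lit 80, nat_lit 80, nat_lit 33, nat_lit 249, nat_lit 40, nat_lit 11]⟩, ⟨p019_k51, nat_lit 0, nat_lit 0, nat_lit 0, nat_lit 0, nat_lit 0, [nat_lit 3282000000, nat_lit 4688000000], [], [nat_lit 12767563200, nat_lit 12808854760, nat_lit 12969232200, nat_lit 13011368000], nat_lit 0, nat_lit 0, nat_lit 0, nat_lit 0, nat_lit 0, nat_lit 0, [], [nat_lit 40, nat_lit 40, nat_lit 80, nat_lit 80]⟩,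
 zbF0, []⟩
noncomputable def p019_l140 : Lf2 := ⟨nat_lit 0, nat_lit 2, [nat_lit 10, nat_lit 5, nat_lit 5, nat_lit 20], false, nat_lit 0, nat_lit 0, nat_lit 0, nat_lit 0, ⟨nat_lit 1000, nat_lit 0, nat_lit 0, nat_lit 0, nat_lit 0, nat_lit 0, nat_lit 0, nat_lit 0, nat_lit 0, nat_lit 0, nat_lit 0, nat_lit 0, nat_lit 0, nat_lit 0, nat_lit 0, nat_lit 0, false, false⟩,
 nat_lit 0, nat_lit 0, nat_lit 0, nat_lit 0, nat_lit 0, nat_lit 0, nat_lit 0, nat_lit 0, nat_lit 443, nat_lit 0, nat_lit 0, nat_lit 459, nat_lit 0, nat_lit 0, nat_lit 0, nat_lit 0, nat_lit 0, nat_lit 0, [],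
 ⟨p019_k23, nat_lit 0, nat_lit 0, nat_lit 0, nat_lit 0, nat_lit 1479551, [nat_lit 2032000001, nat_lit 4688000000], [], [nat_lit 16671736000, nat_lit 16692652170, nat_lit 16738825800, nat_lit 16761335035], nat_lit 1271250, nat_lit 1271250, nat_lit 1033601, nat_lit 1066650, nat_lit 0, nat_lit 0, [nat_lit 490000, nat_lit 1100000], [nat_lit 24, nat_lit 40, nat_lit 80, nat_lit 80]⟩, ⟨p019_k52, nat_lit 0, nat_lit 0, nat_lit 0, nat_lit 0, nat_lit 0, [nat_lit 3282000000, nat_lit 4688000000], [], [nat_lit 12808854760, nat_lit 12852507200, nat_lit 12910111380, nat_lit 12953613600], nat_lit 0, nat_lit 0, nat_lit 0, nat_lit 0, nat_lit 0, nat_lit 0, [], [nat_lit 40, nat_lit 40, nat_lit 80, nat_lit 80]⟩,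
 zbF0, []⟩
noncomputable def p019_l141 : Lf2 := ⟨nat_lit 0, nat_lit 2, [nat_lit 10, nat_lit 5, nat_lit 5, nat_lit 20], true, nat_lit 0, nat_lit 0, nat_lit 0, nat_lit 0, ⟨nat_lit 0, nat_lit 0, nat_lit 1000, nat_lit 7, nat_lit 220, nat_lit 0, nat_lit 0, nat_lit 0, nat_lit 0, nat_lit 215, nat_lit 4938, nat_lit 230, nat_lit 51404398, nat_lit 0, nat_lit 0, nat_lit 2713008, false, false⟩,
 nat_lit 0, nat_lit 100000, nat_lit 0, nat_lit 0, nat_lit 75000, nat_lit 0, nat_lit 60000, nat_lit 20000, nat_lit 0, nat_lit 0, nat_lit 0, nat_lit 0, nat_lit 0, nat_lit 0, nat_lit 0, nat_lit 1000000, nat_lit 0, nat_lit 0, [(nat_lit 18, [(nat_lit 6, nat_lit 1000)])],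
 ⟨p019_k44, nat_lit 0, nat_lit 0, nat_lit 655, nat_lit 0, nat_lit 1479551, [nat_lit 160862000001, nat_lit 239910000000, nat_lit 318582800000], [], [nat_lit 1958304432803, nat_lit 1958557592184, nat_lit 1957668444403, nat_lit 1957919280343], nat_lit 1271250, nat_lit 1271250, nat_lit 1033601, nat_lit 1066650, nat_lit 0, nat_lit 0, [nat_lit 490000, nat_lit 780000, nat_lit 1100000], [nat_lit 78, nat_lit 40, nat_lit 80, nat_lit 80, nat_lit 22, nat_lit 249, nat_lit 40, nat_lit 11]⟩, C1.Rw.none,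
 ⟨nat_lit 4444, nat_lit 4473, ⟨.ofNat (nat_lit 546745), .ofNat (nat_lit 553543), .ofNat (nat_lit 547823), .ofNat (nat_lit 554621), .ofNat (nat_lit 547005), .ofNat (nat_lit 553786), .ofNat (nat_lit 548084), .ofNat (nat_lit 554864)⟩, ⟨.ofNat (nat_lit 0), .ofNat (nat_lit 0), .ofNat (nat_lit 0), .ofNat (nat_lit 0), .ofNat (nat_lit 0), .ofNat (nat_lit 0), .ofNat (nat_lit 0), .ofNat (nat_lit 0)⟩⟩, [⟨nat_lit 0, nat_lit 83, nat_lit 83, nat_lit 100, nat_lit 13278400107⟩]⟩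
noncomputable def p019_l142 : Lf2 := ⟨nat_lit 0, nat_lit 2, [nat_lit 10, nat_lit 5, nat_lit 5, nat_lit 20], false, nat_lit 0, nat_lit 0, nat_lit 0, nat_lit 0, ⟨nat_lit 1000, nat_lit 0, nat_lit 0, nat_lit 0, nat_lit 0, nat_lit 0, nat_lit 0, nat_lit 0, nat_lit 0, nat_lit 0, nat_lit 0, nat_lit 0, nat_lit 0, nat_lit 0, nat_lit 0, nat_lit 0, false, false⟩,
 nat_lit 0, nat_lit 8931, nat_lit 0, nat_lit 0, nat_lit 6698, nat_lit 0, nat_lit 0, nat_lit 0, nat_lit 0, nat_lit 0, nat_lit 0, nat_lit 459, nat_lit 0, nat_lit 0, nat_lit 0, nat_lit 0, nat_lit 0, nat_lit 0, [],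
 ⟨p019_k23, nat_lit 0, nat_lit 0, nat_lit 653, nat_lit 0, nat_lit 1479551, [nat_lit 2032000001, nat_lit 4688000000], [], [nat_lit 34720149064, nat_lit 34750992507, nat_lit 34700712705, nat_lit 34732557761], nat_lit 1271250, nat_lit 1271250, nat_lit 1066650, nat_lit 1100001, nat_lit 0, nat_lit 0, [nat_lit 490000, nat_lit 1100000], [nat_lit 24, nat_lit 40, nat_lit 80, nat_lit 80, nat_lit 33, nat_lit 249, nat_lit 40, nat_lit 11]⟩, ⟨p019_k52, nat_lit 0, nat_lit 0, nat_lit 0, nat_lit 0, nat_lit 0, [nat_lit 3282000000, nat_lit 4688000000], [], [nat_lit 12910111380, nat_lit 12953613600, nat_lit 13011368000, nat_lit 13054720000], nat_lit 0, nat_lit 0, nat_lit 0, nat_lit 0, nat_lit 0, nat_lit 0, [], [nat_lit 40, nat_lit 40, nat_lit 80, nat_lit 80]⟩,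
 zbF0, []⟩
noncomputable def p019_l143 : Lf2 := ⟨nat_lit 0, nat_lit 2, [nat_lit 10, nat_lit 5, nat_lit 5, nat_lit 20], false, nat_lit 0, nat_lit 0, nat_lit 0, nat_lit 0, ⟨nat_lit 1000, nat_lit 0, nat_lit 0, nat_lit 0, nat_lit 0, nat_lit 0, nat_lit 0, nat_lit 0, nat_lit 0, nat_lit 0, nat_lit 0, nat_lit 0, nat_lit 0, nat_lit 0, nat_lit 0, nat_lit 0, false, false⟩,
 nat_lit 0, nat_lit 8961, nat_lit 0, nat_lit 0, nat_lit 6746, nat_lit 0, nat_lit 21038, nat_lit 0, nat_lit 0, nat_lit 0, nat_lit 0, nat_lit 459, nat_lit 0, nat_lit 0, nat_lit 0, nat_lit 0, nat_lit 0, nat_lit 0, [],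
 ⟨p019_k45, nat_lit 0, nat_lit 0, nat_lit 659, nat_lit 0, nat_lit 1478344, [nat_lit 2032000001, nat_lit 4688000000], [], [nat_lit 17231304589, nat_lit 17265946926, nat_lit 17099143477, nat_lit 17132189329], nat_lit 1271250, nat_lit 1271250, nat_lit 872850, nat_lit 1100001, nat_lit 0, nat_lit 0, [nat_lit 490000, nat_lit 1100000], [nat_lit 24, nat_lit 40, nat_lit 80, nat_lit 80, nat_lit 33, nat_lit 249, nat_lit 40, nat_lit 11]⟩, ⟨p019_k47, nat_lit 0, nat_lit 0, nat_lit 0, nat_lit 0, nat_lit 0, [nat_lit 3282000000, nat_lit 4688000000], [], [nat_lit 11932631100, nat_lit 12346975200, nat_lit 12646433000, nat_lit 13054720000], nat_lit 0, nat_lit 0, nat_lit 0, nat_lit 0, nat_lit 0, nat_lit 0, [], [nat_lit 40, nat_lit 40, nat_lit 80, nat_lit 80]⟩,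
 zbF0, [⟨nat_lit 0, nat_lit 83, nat_lit 82, nat_lit 100, nat_lit 596554858⟩]⟩
noncomputable def p019_l144 : Lf2 := ⟨nat_lit 0, nat_lit 2, [nat_lit 10, nat_lit 5, nat_lit 5, nat_lit 20], true, nat_lit 0, nat_lit 0, nat_lit 0, nat_lit 0, ⟨nat_lit 0, nat_lit 0, nat_lit 1000, nat_lit 7, nat_lit 205, nat_lit 0, nat_lit 0, nat_lit 0, nat_lit 0, nat_lit 215, nat_lit 18950, nat_lit 247, nat_lit 53053796, nat_lit 0, nat_lit 0, nat_lit 2557490, false, false⟩,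
 nat_lit 0, nat_lit 100000, nat_lit 0, nat_lit 0, nat_lit 75000, nat_lit 0, nat_lit 7613, nat_lit 3628, nat_lit 0, nat_lit 0, nat_lit 0, nat_lit 0, nat_lit 0, nat_lit 0, nat_lit 0, nat_lit 1000000, nat_lit 27663793333, nat_lit 0, [(nat_lit 18, [(nat_lit 6, nat_lit 1000)])],
 ⟨p019_k41, nat_lit 0, nat_lit 0, nat_lit 0, nat_lit 0, nat_lit 1435191, [nat_lit 29721066667, nat_lit 36666000000, nat_lit 50226000000], [], [nat_lit 906477858, nat_lit 1256539419, nat_lit 0, nat_lit 334165301], nat_lit 1271250, nat_lit 1271250, nat_lit 872850, nat_lit 936251, nat_lit 0, nat_lit 0, [nat_lit 490000, nat_lit 631250, nat_lit 936250], [nat_lit 164, nat_lit 40, nat_lit 20, nat_lit 40]⟩, C1.Rw.none,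
 ⟨nat_lit 4444, nat_lit 4473, ⟨.ofNat (nat_lit 503051), .ofNat (nat_lit 516647), .ofNat (nat_lit 508443), .ofNat (nat_lit 522038), .ofNat (nat_lit 503393), .ofNat (nat_lit 516954), .ofNat (nat_lit 508787), .ofNat (nat_lit 522348)⟩, ⟨.ofNat (nat_lit 0), .ofNat (nat_lit 0), .ofNat (nat_lit 0), .ofNat (nat_lit 0), .ofNat (nat_lit 0), .ofNat (nat_lit 0), .ofNat (nat_lit 0), .ofNat (nat_lit 0)⟩⟩, [⟨nat_lit 0, nat_lit 86, nat_lit 84, nat_lit 100, nat_lit 890501830⟩]⟩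
noncomputable def p019_l145 : Lf2 := ⟨nat_lit 0, nat_lit 2, [nat_lit 10, nat_lit 5, nat_lit 5, nat_lit 20], false, nat_lit 0, nat_lit 0, nat_lit 0, nat_lit 0, ⟨nat_lit 1000, nat_lit 0, nat_lit 0, nat_lit 0, nat_lit 0, nat_lit 0, nat_lit 0, nat_lit 0, nat_lit 0, nat_lit 0, nat_lit 0, nat_lit 0, nat_lit 0, nat_lit 0, nat_lit 0, nat_lit 0, false, false⟩,
 nat_lit 0, nat_lit 1592, nat_lit 0, nat_lit 0, nat_lit 1194, nat_lit 0, nat_lit 0, nat_lit 0, nat_lit 390, nat_lit 411, nat_lit 0, nat_lit 463, nat_lit 0, nat_lit 0, nat_lit 0, nat_lit 0, nat_lit 0, nat_lit 0, [],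
 ⟨p019_k23, nat_lit 0, nat_lit 0, nat_lit 0, nat_lit 0, nat_lit 1435191, [nat_lit 2032000001, nat_lit 4688000000], [], [nat_lit 16420288046, nat_lit 16446318539, nat_lit 16692778736, nat_lit 16718382349], nat_lit 1271250, nat_lit 1271250, nat_lit 936251, nat_lit 1100001, nat_lit 0, nat_lit 0, [nat_lit 490000, nat_lit 1100000], [nat_lit 24, nat_lit 40, nat_lit 80, nat_lit 80]⟩, ⟨p019_k47, nat_lit 0, nat_lit 0, nat_lit 0, nat_lit 0, nat_lit 0, [nat_lit 3282000000, nat_lit 4688000000], [], [nat_lit 12128119250, nat_lit 12328672500, nat_lit 12625353000, nat_lit 12837960000], nat_lit 0, nat_lit 0, nat_lit 0, nat_lit 0, nat_lit 0, nat_lit 0, [], [nat_lit 40, nat_lit 40, nat_lit 80, nat_lit 80]⟩,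
 zbF0, []⟩
noncomputable def p019_l146 : Lf2 := ⟨nat_lit 0, nat_lit 2, [nat_lit 10, nat_lit 5, nat_lit 5, nat_lit 20], false, nat_lit 0, nat_lit 0, nat_lit 0, nat_lit 0, ⟨nat_lit 1000, nat_lit 0, nat_lit 0, nat_lit 0, nat_lit 0, nat_lit 0, nat_lit 0, nat_lit 0, nat_lit 0, nat_lit 0, nat_lit 0, nat_lit 0, nat_lit 0, nat_lit 0, nat_lit 0, nat_lit 0, false, false⟩,
 nat_lit 0, nat_lit 0, nat_lit 0, nat_lit 0, nat_lit 0, nat_lit 0, nat_lit 0, nat_lit 0, nat_lit 444, nat_lit 352, nat_lit 0, nat_lit 463, nat_lit 0, nat_lit 0, nat_lit 0, nat_lit 0, nat_lit 0, nat_lit 0, [],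
 ⟨p019_k23, nat_lit 0, nat_lit 0, nat_lit 0, nat_lit 0, nat_lit 1479551, [nat_lit 2032000001, nat_lit 4688000000], [], [nat_lit 16284760000, nat_lit 16305920710, nat_lit 16695560000, nat_lit 16718017900], nat_lit 1271250, nat_lit 1271250, nat_lit 904401, nat_lit 1100001, nat_lit 0, nat_lit 0, [nat_lit 490000, nat_lit 1100000], [nat_lit 24, nat_lit 40, nat_lit 80, nat_lit 80]⟩, ⟨p019_k50, nat_lit 0, nat_lit 0, nat_lit 0, nat_lit 0, nat_lit 0, [nat_lit 3282000000, nat_lit 4688000000], [], [nat_lit 12226815000, nat_lit 12448081600, nat_lit 12837960000, nat_lit 13054720000], nat_lit 0, nat_lit 0, nat_lit 0, nat_lit 0, nat_lit 0, nat_lit 0, [], [nat_lit 40, nat_lit 40, nat_lit 80, nat_lit 80]⟩,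
 zbF0, [⟨nat_lit 0, nat_lit 86, nat_lit 84, nat_lit 100, nat_lit 412037735⟩]⟩
noncomputable def p019_l147 : Lf2 := ⟨nat_lit 0, nat_lit 2, [nat_lit 10, nat_lit 5, nat_lit 5, nat_lit 20], false, nat_lit 0, nat_lit 0, nat_lit 0, nat_lit 0, ⟨nat_lit 1000, nat_lit 0, nat_lit 0, nat_lit 0, nat_lit 0, nat_lit 0, nat_lit 0, nat_lit 0, nat_lit 0, nat_lit 0, nat_lit 0, nat_lit 0, nat_lit 0, nat_lit 0, nat_lit 0, nat_lit 0, false, false⟩,
 nat_lit 0, nat_lit 100000, nat_lit 0, nat_lit 0, nat_lit 75000, nat_lit 100000, nat_lit 0, nat_lit 3478, nat_lit 0, nat_lit 34931, nat_lit 8981, nat_lit 0, nat_lit 0, nat_lit 0, nat_lit 0, nat_lit 0, nat_lit 11919199991, nat_lit 0, [],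
 ⟨p019_k41, nat_lit 0, nat_lit 0, nat_lit 0, nat_lit 0, nat_lit 1479551, [nat_lit 29856000001, nat_lit 37417500001, nat_lit 52657500000], [], [nat_lit 2461209602, nat_lit 2774506282, nat_lit 0, nat_lit 329136200], nat_lit 1271250, nat_lit 1271250, nat_lit 872850, nat_lit 1100001, nat_lit 0, nat_lit 0, [nat_lit 490000, nat_lit 631250, nat_lit 936250], [nat_lit 164, nat_lit 40, nat_lit 20, nat_lit 40]⟩, ⟨p019_k53, nat_lit 0, nat_lit 0, nat_lit 0, nat_lit 0, nat_lit 0, [nat_lit 92447500000, nat_lit 111054000000, nat_lit 148384000000], [], [nat_lit 115903275950, nat_lit 127025497301, nat_lit 114558415750, nat_lit 125026712500], nat_lit 0, nat_lit 0, nat_lit 0, nat_lit 0, nat_lit 0, nat_lit 0, [], [nat_lit 269, nat_lit 40, nat_lit 20, nat_lit 40]⟩,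
 zbF0, [⟨nat_lit 0, nat_lit 83, nat_lit 83, nat_lit 100, nat_lit 898033124⟩]⟩
noncomputable def p019_l148 : Lf2 := ⟨nat_lit 0, nat_lit 2, [nat_lit 10, nat_lit 5, nat_lit 5, nat_lit 20], true, nat_lit 0, nat_lit 0, nat_lit 0, nat_lit 0, ⟨nat_lit 0, nat_lit 0, nat_lit 1000, nat_lit 7, nat_lit 213, nat_lit 0, nat_lit 0, nat_lit 0, nat_lit 0, nat_lit 215, nat_lit 3685, nat_lit 227, nat_lit 52204052, nat_lit 0, nat_lit 0, nat_lit 2639813, false, false⟩,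
 nat_lit 0, nat_lit 100000, nat_lit 0, nat_lit 0, nat_lit 75000, nat_lit 0, nat_lit 21033, nat_lit 3680, nat_lit 0, nat_lit 0, nat_lit 0, nat_lit 0, nat_lit 0, nat_lit 0, nat_lit 0, nat_lit 1000000, nat_lit 0, nat_lit 0, [(nat_lit 18, [(nat_lit 6, nat_lit 1000)])],
 ⟨p019_k44, nat_lit 0, nat_lit 0, nat_lit 662, nat_lit 0, nat_lit 1479551, [nat_lit 30302000001, nat_lit 44070000000, nat_lit 57462800000], [], [nat_lit 8631720402, nat_lit 8875805262, nat_lit 4003676002, nat_lit 4257959701], nat_lit 1271250, nat_lit 1271250, nat_lit 872850, nat_lit 1100001, nat_lit 0, nat_lit 0, [nat_lit 490000, nat_lit 780000, nat_lit 1100000], [nat_lit 78, nat_lit 40, nat_lit 80, nat_lit 80, nat_lit 22, nat_lit 249, nat_lit 40, nat_lit 11]⟩, C1.Rw.none,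
 ⟨nat_lit 4444, nat_lit 4473, ⟨.ofNat (nat_lit 503051), .ofNat (nat_lit 550636), .ofNat (nat_lit 513834), .ofNat (nat_lit 561419), .ofNat (nat_lit 503393), .ofNat (nat_lit 550857), .ofNat (nat_lit 514181), .ofNat (nat_lit 561645)⟩, ⟨.ofNat (nat_lit 0), .ofNat (nat_lit 0), .ofNat (nat_lit 0), .ofNat (nat_lit 0), .ofNat (nat_lit 0), .ofNat (nat_lit 0), .ofNat (nat_lit 0), .ofNat (nat_lit 0)⟩⟩, []⟩
noncomputable def p019_l149 : Lf2 := ⟨nat_lit 0, nat_lit 2, [nat_lit 10, nat_lit 5, nat_lit 5, nat_lit 20], false, nat_lit 0, nat_lit 0, nat_lit 0, nat_lit 0, ⟨nat_lit 1000, nat_lit 0, nat_lit 0, nat_lit 0, nat_lit 0, nat_lit 0, nat_lit 0, nat_lit 0, nat_lit 0, nat_lit 0, nat_lit 0, nat_lit 0, nat_lit 0, nat_lit 0, nat_lit 0, nat_lit 0, false, false⟩,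
 nat_lit 0, nat_lit 12159, nat_lit 0, nat_lit 0, nat_lit 9154, nat_lit 0, nat_lit 4599, nat_lit 0, nat_lit 0, nat_lit 412, nat_lit 0, nat_lit 463, nat_lit 0, nat_lit 0, nat_lit 0, nat_lit 0, nat_lit 0, nat_lit 0, [],
 ⟨p019_k45, nat_lit 0, nat_lit 0, nat_lit 635, nat_lit 0, nat_lit 1417173, [nat_lit 2032000001, nat_lit 4688000000], [], [nat_lit 17055999155, nat_lit 17095467762, nat_lit 16760908880, nat_lit 16807483908], nat_lit 1271250, nat_lit 1271250, nat_lit 872850, nat_lit 1100001, nat_lit 0, nat_lit 0, [nat_lit 490000, nat_lit 1100000], [nat_lit 24, nat_lit 40, nat_lit 80, nat_lit 80, nat_lit 33, nat_lit 249, nat_lit 40, nat_lit 11]⟩, ⟨p019_k47, nat_lit 0, nat_lit 0, nat_lit 0, nat_lit 0, nat_lit 0, [nat_lit 3282000000, nat_lit 4688000000], [], [nat_lit 11930453350, nat_lit 12044321306, nat_lit 12625353000, nat_lit 12751256000], nat_lit 0, nat_lit 0, nat_lit 0, nat_lit 0, nat_lit 0,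 nat_lit 0, [], [nat_lit 40, nat_lit 40, nat_lit 80, nat_lit 80]⟩,
 zbF0, [⟨nat_lit 0, nat_lit 87, nat_lit 83, nat_lit 100, nat_lit 603557673⟩]⟩
noncomputable def p019_l150 : Lf2 := ⟨nat_lit 0, nat_lit 2, [nat_lit 10, nat_lit 5, nat_lit 5, nat_lit 20], false, nat_lit 0, nat_lit 0, nat_lit 0, nat_lit 0, ⟨nat_lit 1000, nat_lit 0, nat_lit 0, nat_lit 0, nat_lit 0, nat_lit 0, nat_lit 0, nat_lit 0, nat_lit 0, nat_lit 0, nat_lit 0, nat_lit 0, nat_lit 0, nat_lit 0, nat_lit 0, nat_lit 0, false, false⟩,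
 nat_lit 0, nat_lit 12138, nat_lit 0, nat_lit 0, nat_lit 9138, nat_lit 0, nat_lit 4634, nat_lit 0, nat_lit 0, nat_lit 374, nat_lit 0, nat_lit 463, nat_lit 0, nat_lit 0, nat_lit 0, nat_lit 0, nat_lit 0, nat_lit 0, [],
 ⟨p019_k45, nat_lit 0, nat_lit 0, nat_lit 638, nat_lit 0, nat_lit 1425725, [nat_lit 2032000001, nat_lit 4688000000], [], [nat_lit 17069704835, nat_lit 17108882381, nat_lit 16816683597, nat_lit 16863216472], nat_lit 1271250, nat_lit 1271250, nat_lit 904401, nat_lit 1100001, nat_lit 0, nat_lit 0, [nat_lit 490000, nat_lit 1100000], [nat_lit 24, nat_lit 40, nat_lit 80, nat_lit 80, nat_lit 33, nat_lit 249, nat_lit 40, nat_lit 11]⟩, ⟨p019_k48, nat_lit 0, nat_lit 0, nat_lit 0, nat_lit 0, nat_lit 0, [nat_lit 3282000000, nat_lit 4688000000], [], [nat_lit 12143378190, nat_lit 12182561680, nat_lit 12751256000, nat_lit 12794608000], nat_lit 0, nat_lit 0, nat_lit 0, nat_lit 0, nat_lit 0,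 nat_lit 0, [], [nat_lit 40, nat_lit 40, nat_lit 80, nat_lit 80]⟩,
 zbF0, [⟨nat_lit 0, nat_lit 86, nat_lit 83, nat_lit 100, nat_lit 607733694⟩]⟩
noncomputable def p019_l151 : Lf2 := ⟨nat_lit 0, nat_lit 2, [nat_lit 10, nat_lit 5, nat_lit 5, nat_lit 20], false, nat_lit 0, nat_lit 0, nat_lit 0, nat_lit 0, ⟨nat_lit 1000, nat_lit 0, nat_lit 0, nat_lit 0, nat_lit 0, nat_lit 0, nat_lit 0, nat_lit 0, nat_lit 0, nat_lit 0, nat_lit 0, nat_lit 0, nat_lit 0, nat_lit 0, nat_lit 0, nat_lit 0, false, false⟩,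
 nat_lit 0, nat_lit 0, nat_lit 0, nat_lit 0, nat_lit 0, nat_lit 0, nat_lit 0, nat_lit 0, nat_lit 444, nat_lit 362, nat_lit 0, nat_lit 463, nat_lit 0, nat_lit 0, nat_lit 0, nat_lit 0, nat_lit 0, nat_lit 0, [],
 ⟨p019_k45, nat_lit 0, nat_lit 0, nat_lit 0, nat_lit 0, nat_lit 1434365, [nat_lit 2032000001, nat_lit 4688000000], [], [nat_lit 16305920710, nat_lit 16328686620, nat_lit 16374603575, nat_lit 16397318150], nat_lit 1271250, nat_lit 1271250, nat_lit 904401, nat_lit 936251, nat_lit 0, nat_lit 0, [nat_lit 490000, nat_lit 1100000], [nat_lit 24, nat_lit 40, nat_lit 80, nat_lit 80]⟩, ⟨p019_k49, nat_lit 0, nat_lit 0, nat_lit 0, nat_lit 0, nat_lit 0, [nat_lit 3282000000, nat_lit 4688000000], [], [nat_lit 12182561680, nat_lit 12226815000, nat_lit 12284569400, nat_lit 12328672500], nat_lit 0, nat_lit 0, nat_lit 0, nat_lit 0, nat_lit 0, nat_lit 0, [], [nat_lit 40, nat_lit 40, nat_lit 80, nat_lit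 80]⟩,
 zbF0, [⟨nat_lit 0, nat_lit 86, nat_lit 84, nat_lit 100, nat_lit 432153115⟩]⟩
noncomputable def p019_l152 : Lf2 := ⟨nat_lit 0, nat_lit 2, [nat_lit 10, nat_lit 5, nat_lit 5, nat_lit 20], false, nat_lit 0, nat_lit 0, nat_lit 0, nat_lit 0, ⟨nat_lit 1000, nat_lit 0, nat_lit 0, nat_lit 0, nat_lit 0, nat_lit 0, nat_lit 0, nat_lit 0, nat_lit 0, nat_lit 0, nat_lit 0, nat_lit 0, nat_lit 0, nat_lit 0, nat_lit 0, nat_lit 0, false, false⟩,
 nat_lit 0, nat_lit 100000, nat_lit 0, nat_lit 0, nat_lit 75293, nat_lit 0, nat_lit 43169, nat_lit 2377, nat_lit 0, nat_lit 361, nat_lit 0, nat_lit 463, nat_lit 0, nat_lit 0, nat_lit 0, nat_lit 0, nat_lit 89566159948, nat_lit 0, [],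
 ⟨p019_k45, nat_lit 0, nat_lit 0, nat_lit 642, nat_lit 0, nat_lit 1434365, [nat_lit 21048000000, nat_lit 42720000000], [], [nat_lit 869648402, nat_lit 1039863788, nat_lit 0, nat_lit 168402082], nat_lit 1271250, nat_lit 1271250, nat_lit 904401, nat_lit 936251, nat_lit 0, nat_lit 0, [nat_lit 490000, nat_lit 1100000], [nat_lit 24, nat_lit 40, nat_lit 80, nat_lit 80, nat_lit 33, nat_lit 249, nat_lit 40, nat_lit 11]⟩, ⟨p019_k49, nat_lit 0, nat_lit 0, nat_lit 0, nat_lit 0, nat_lit 0, [nat_lit 3282000000, nat_lit 4688000000], [], [nat_lit 12183919070, nat_lit 12226815000, nat_lit 12284569400, nat_lit 12328672500], nat_lit 0, nat_lit 0, nat_lit 0, nat_lit 0, nat_lit 0, nat_lit 0, [], [nat_lit 40, nat_lit 40, nat_lit 80, nat_lit 80]⟩,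
 zbF0, [⟨nat_lit 0, nat_lit 86, nat_lit 83, nat_lit 100, nat_lit 10989699187⟩]⟩
noncomputable def p019_l153 : Lf2 := ⟨nat_lit 0, nat_lit 2, [nat_lit 10, nat_lit 5, nat_lit 5, nat_lit 20], false, nat_lit 0, nat_lit 0, nat_lit 0, nat_lit 0, ⟨nat_lit 1000, nat_lit 0, nat_lit 0, nat_lit 0, nat_lit 0, nat_lit 0, nat_lit 0, nat_lit 0, nat_lit 0, nat_lit 0, nat_lit 0, nat_lit 0, nat_lit 0, nat_lit 0, nat_lit 0, nat_lit 0, false, false⟩,
 nat_lit 0, nat_lit 1254, nat_lit 0, nat_lit 0, nat_lit 943, nat_lit 0, nat_lit 0, nat_lit 0, nat_lit 401, nat_lit 362, nat_lit 0, nat_lit 463, nat_lit 0, nat_lit 0, nat_lit 0, nat_lit 0, nat_lit 0, nat_lit 0, [],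
 ⟨p019_k45, nat_lit 0, nat_lit 0, nat_lit 0, nat_lit 0, nat_lit 1434365, [nat_lit 2032000001, nat_lit 4688000000], [], [nat_lit 16471380156, nat_lit 16495973192, nat_lit 16528052356, nat_lit 16553307564], nat_lit 1271250, nat_lit 1271250, nat_lit 936251, nat_lit 968401, nat_lit 0, nat_lit 0, [nat_lit 490000, nat_lit 1100000], [nat_lit 24, nat_lit 40, nat_lit 80, nat_lit 80]⟩, ⟨p019_k49, nat_lit 0, nat_lit 0, nat_lit 0, nat_lit 0, nat_lit 0, [nat_lit 3282000000, nat_lit 4688000000], [], [nat_lit 12284569400, nat_lit 12328672500, nat_lit 12386577121, nat_lit 12430530001], nat_lit 0, nat_lit 0, nat_lit 0, nat_lit 0, nat_lit 0, nat_lit 0, [], [nat_lit 40, nat_lit 40, nat_lit 80, nat_lit 80]⟩,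
 zbF0, []⟩
noncomputable def p019_l154 : Lf2 := ⟨nat_lit 0, nat_lit 2, [nat_lit 10, nat_lit 5, nat_lit 5, nat_lit 20], false, nat_lit 0, nat_lit 0, nat_lit 0, nat_lit 0, ⟨nat_lit 1000, nat_lit 0, nat_lit 0, nat_lit 0, nat_lit 0, nat_lit 0, nat_lit 0, nat_lit 0, nat_lit 0, nat_lit 0, nat_lit 0, nat_lit 0, nat_lit 0, nat_lit 0, nat_lit 0, nat_lit 0, false, false⟩,
 nat_lit 0, nat_lit 100000, nat_lit 0, nat_lit 0, nat_lit 75293, nat_lit 0, nat_lit 43169, nat_lit 2377, nat_lit 0, nat_lit 362, nat_lit 0, nat_lit 463, nat_lit 0, nat_lit 0, nat_lit 0, nat_lit 0, nat_lit 90433110540, nat_lit 0, [],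
 ⟨p019_k45, nat_lit 0, nat_lit 0, nat_lit 641, nat_lit 0, nat_lit 1434365, [nat_lit 21048000000, nat_lit 42720000000], [], [nat_lit 866950592, nat_lit 1035352674, nat_lit 0, nat_lit 203731571], nat_lit 1271250, nat_lit 1271250, nat_lit 936251, nat_lit 968401, nat_lit 0, nat_lit 0, [nat_lit 490000, nat_lit 1100000], [nat_lit 24, nat_lit 40, nat_lit 80, nat_lit 80, nat_lit 33, nat_lit 249, nat_lit 40, nat_lit 11]⟩, ⟨p019_k49, nat_lit 0, nat_lit 0, nat_lit 0, nat_lit 0, nat_lit 0, [nat_lit 3282000000, nat_lit 4688000000], [], [nat_lit 12284569400, nat_lit 12328672500, nat_lit 12386577121, nat_lit 12430530001], nat_lit 0, nat_lit 0, nat_lit 0, nat_lit 0, nat_lit 0, nat_lit 0, [], [nat_lit 40, nat_lit 40, nat_lit 80, nat_lit 80]⟩,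
 zbF0, [⟨nat_lit 0, nat_lit 86, nat_lit 83, nat_lit 100, nat_lit 1993015125⟩]⟩
noncomputable def p019_l155 : Lf2 := ⟨nat_lit 0, nat_lit 2, [nat_lit 10, nat_lit 5, nat_lit 5, nat_lit 20], false, nat_lit 0, nat_lit 0, nat_lit 0, nat_lit 0, ⟨nat_lit 1000, nat_lit 0, nat_lit 0, nat_lit 0, nat_lit 0, nat_lit 0, nat_lit 0, nat_lit 0, nat_lit 0, nat_lit 0, nat_lit 0, nat_lit 0, nat_lit 0, nat_lit 0, nat_lit 0, nat_lit 0, false, false⟩,
 nat_lit 0, nat_lit 12106, nat_lit 0, nat_lit 0, nat_lit 9114, nat_lit 0, nat_lit 4644, nat_lit 0, nat_lit 0, nat_lit 361, nat_lit 0, nat_lit 462, nat_lit 0, nat_lit 0, nat_lit 0, nat_lit 0, nat_lit 0, nat_lit 0, [],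
 ⟨p019_k45, nat_lit 0, nat_lit 0, nat_lit 640, nat_lit 0, nat_lit 1434365, [nat_lit 2032000001, nat_lit 4688000000], [], [nat_lit 17101870207, nat_lit 17140483358, nat_lit 17011511755, nat_lit 17058603750], nat_lit 1271250, nat_lit 1271250, nat_lit 968401, nat_lit 1033601, nat_lit 0, nat_lit 0, [nat_lit 490000, nat_lit 1100000], [nat_lit 24, nat_lit 40, nat_lit 80, nat_lit 80, nat_lit 33, nat_lit 249, nat_lit 40, nat_lit 11]⟩, ⟨p019_k49, nat_lit 0, nat_lit 0, nat_lit 0, nat_lit 0, nat_lit 0, [nat_lit 3282000000, nat_lit 4688000000], [], [nat_lit 12403467281, nat_lit 12441442601, nat_lit 12601321140, nat_lit 12639036550], nat_lit 0, nat_lit 0, nat_lit 0, nat_lit 0, nat_lit 0, nat_lit 0, [], [nat_lit 40, nat_lit 40, nat_lit 80, nat_lit 80]⟩,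
 zbF0, []⟩
noncomputable def p019_l156 : Lf2 := ⟨nat_lit 0, nat_lit 2, [nat_lit 10, nat_lit 5, nat_lit 5, nat_lit 20], false, nat_lit 0, nat_lit 0, nat_lit 0, nat_lit 0, ⟨nat_lit 1000, nat_lit 0, nat_lit 0, nat_lit 0, nat_lit 0, nat_lit 0, nat_lit 0, nat_lit 0, nat_lit 0, nat_lit 0, nat_lit 0, nat_lit 0, nat_lit 0, nat_lit 0, nat_lit 0, nat_lit 0, false, false⟩,
 nat_lit 0, nat_lit 12079, nat_lit 0, nat_lit 0, nat_lit 9094, nat_lit 0, nat_lit 4632, nat_lit 0, nat_lit 0, nat_lit 361, nat_lit 0, nat_lit 462, nat_lit 0, nat_lit 0, nat_lit 0, nat_lit 0, nat_lit 0, nat_lit 0, [],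
 ⟨p019_k45, nat_lit 0, nat_lit 0, nat_lit 636, nat_lit 0, nat_lit 1434365, [nat_lit 2032000001, nat_lit 4688000000], [], [nat_lit 17130308967, nat_lit 17168367525, nat_lit 17040988289, nat_lit 17087405241], nat_lit 1271250, nat_lit 1271250, nat_lit 1033601, nat_lit 1100001, nat_lit 0, nat_lit 0, [nat_lit 490000, nat_lit 1100000], [nat_lit 24, nat_lit 40, nat_lit 80, nat_lit 80, nat_lit 33, nat_lit 249, nat_lit 40, nat_lit 11]⟩, ⟨p019_k49, nat_lit 0, nat_lit 0, nat_lit 0, nat_lit 0, nat_lit 0, [nat_lit 3282000000, nat_lit 4688000000], [], [nat_lit 12601321140, nat_lit 12639036550, nat_lit 12799175000, nat_lit 12837960000], nat_lit 0, nat_lit 0, nat_lit 0, nat_lit 0, nat_lit 0, nat_lit 0, [], [nat_lit 40, nat_lit 40, nat_lit 80, nat_lit 80]⟩,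
 zbF0, []⟩
noncomputable def p019_l157 : Lf2 := ⟨nat_lit 0, nat_lit 2, [nat_lit 10, nat_lit 5, nat_lit 5, nat_lit 20], false, nat_lit 0, nat_lit 0, nat_lit 0, nat_lit 0, ⟨nat_lit 1000, nat_lit 0, nat_lit 0, nat_lit 0, nat_lit 0, nat_lit 0, nat_lit 0, nat_lit 0, nat_lit 0, nat_lit 0, nat_lit 0, nat_lit 0, nat_lit 0, nat_lit 0, nat_lit 0, nat_lit 0, false, false⟩,
 nat_lit 0, nat_lit 0, nat_lit 0, nat_lit 0, nat_lit 0, nat_lit 0, nat_lit 0, nat_lit 0, nat_lit 444, nat_lit 352, nat_lit 0, nat_lit 463, nat_lit 0, nat_lit 0, nat_lit 0, nat_lit 0, nat_lit 0, nat_lit 0, [],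
 ⟨p019_k45, nat_lit 0, nat_lit 0, nat_lit 0, nat_lit 0, nat_lit 1478344, [nat_lit 2032000001, nat_lit 4688000000], [], [nat_lit 16305920710, nat_lit 16328686620, nat_lit 16718017900, nat_lit 16740475800], nat_lit 1271250, nat_lit 1271250, nat_lit 904401, nat_lit 1100001, nat_lit 0, nat_lit 0, [nat_lit 490000, nat_lit 1100000], [nat_lit 24, nat_lit 40, nat_lit 80, nat_lit 80]⟩, ⟨p019_k50, nat_lit 0, nat_lit 0, nat_lit 0, nat_lit 0, nat_lit 0, [nat_lit 3282000000, nat_lit 4688000000], [], [nat_lit 12226815000, nat_lit 12448081600, nat_lit 12837960000, nat_lit 13054720000], nat_lit 0, nat_lit 0, nat_lit 0, nat_lit 0, nat_lit 0, nat_lit 0, [], [nat_lit 40, nat_lit 40, nat_lit 80, nat_lit 80]⟩,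
 zbF0, [⟨nat_lit 0, nat_lit 86, nat_lit 84, nat_lit 100, nat_lit 411224355⟩]⟩
noncomputable def p019_l158 : Lf2 := ⟨nat_lit 0, nat_lit 2, [nat_lit 10, nat_lit 5, nat_lit 5, nat_lit 20], true, nat_lit 0, nat_lit 0, nat_lit 0, nat_lit 0, ⟨nat_lit 0, nat_lit 0, nat_lit 1000, nat_lit 7, nat_lit 215, nat_lit 0, nat_lit 0, nat_lit 0, nat_lit 0, nat_lit 215, nat_lit 4200, nat_lit 227, nat_lit 51928075, nat_lit 0, nat_lit 0, nat_lit 2665534, false, false⟩,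
 nat_lit 0, nat_lit 100000, nat_lit 0, nat_lit 0, nat_lit 75293, nat_lit 0, nat_lit 60000, nat_lit 6546, nat_lit 0, nat_lit 0, nat_lit 0, nat_lit 0, nat_lit 0, nat_lit 0, nat_lit 0, nat_lit 1000000, nat_lit 0, nat_lit 0, [(nat_lit 18, [(nat_lit 6, nat_lit 1000)])],
 ⟨p019_k54, nat_lit 0, nat_lit 0, nat_lit 660, nat_lit 0, nat_lit 1478344, [nat_lit 53230000001, nat_lit 78462000000, nat_lit 103318800000], [], [nat_lit 334708917717, nat_lit 334951662006, nat_lit 330711682817, nat_lit 330941184659], nat_lit 1271250, nat_lit 1271250, nat_lit 904401, nat_lit 1100001, nat_lit 0, nat_lit 0, [nat_lit 490000, nat_lit 780000, nat_lit 1100000], [nat_lit 78, nat_lit 40, nat_lit 80, nat_lit 80, nat_lit 22, nat_lit 249, nat_lit 40, nat_lit 11]⟩, C1.Rw.none,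
 ⟨nat_lit 4415, nat_lit 4445, ⟨.ofNat (nat_lit 515567), .ofNat (nat_lit 556251), .ofNat (nat_lit 520961), .ofNat (nat_lit 561645), .ofNat (nat_lit 515896), .ofNat (nat_lit 556476), .ofNat (nat_lit 521292), .ofNat (nat_lit 561872)⟩, ⟨.ofNat (nat_lit 0), .ofNat (nat_lit 0), .ofNat (nat_lit 0), .ofNat (nat_lit 0), .ofNat (nat_lit 0), .ofNat (nat_lit 0), .ofNat (nat_lit 0), .ofNat (nat_lit 0)⟩⟩, []⟩
noncomputable def p019_l159 : Lf2 := ⟨nat_lit 0, nat_lit 2, [nat_lit 10, nat_lit 5, nat_lit 5, nat_lit 20], false, nat_lit 0, nat_lit 0, nat_lit 0, nat_lit 0, ⟨nat_lit 1000, nat_lit 0, nat_lit 0, nat_lit 0, nat_lit 0, nat_lit 0, nat_lit 0, nat_lit 0, nat_lit 0, nat_lit 0, nat_lit 0, nat_lit 0, nat_lit 0, nat_lit 0, nat_lit 0, nat_lit 0, false, false⟩,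
 nat_lit 0, nat_lit 12350, nat_lit 0, nat_lit 0, nat_lit 9298, nat_lit 5655, nat_lit 3589, nat_lit 0, nat_lit 0, nat_lit 1505, nat_lit 0, nat_lit 0, nat_lit 0, nat_lit 0, nat_lit 0, nat_lit 0, nat_lit 0, nat_lit 0, [],
 ⟨p019_k45, nat_lit 0, nat_lit 0, nat_lit 635, nat_lit 0, nat_lit 1417173, [nat_lit 2032000001, nat_lit 4688000000], [], [nat_lit 17067738697, nat_lit 17107495918, nat_lit 16760639548, nat_lit 16807593959], nat_lit 1271250, nat_lit 1271250, nat_lit 872850, nat_lit 1100001, nat_lit 0, nat_lit 0, [nat_lit 490000, nat_lit 1100000], [nat_lit 24, nat_lit 40, nat_lit 80, nat_lit 80, nat_lit 33, nat_lit 249, nat_lit 40, nat_lit 11]⟩, ⟨p019_k47, nat_lit 0, nat_lit 0, nat_lit 0, nat_lit 0, nat_lit 0, [nat_lit 3282000000, nat_lit 4688000000], [], [nat_lit 17659929874, nat_lit 17980456838, nat_lit 17930034065, nat_lit 18203694058], nat_lit 0, nat_lit 0, nat_lit 0, nat_lit 0, nat_lit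 0, nat_lit 0, [], [nat_lit 40, nat_lit 40, nat_lit 80, nat_lit 80]⟩,
 zbF0, [⟨nat_lit 0, nat_lit 87, nat_lit 83, nat_lit 100, nat_lit 728247921⟩]⟩
noncomputable def p019_l160 : Lf2 := ⟨nat_lit 0, nat_lit 2, [nat_lit 10, nat_lit 5, nat_lit 5, nat_lit 20], true, nat_lit 0, nat_lit 0, nat_lit 0, nat_lit 0, ⟨nat_lit 0, nat_lit 0, nat_lit 1000, nat_lit 7, nat_lit 214, nat_lit 0, nat_lit 0, nat_lit 0, nat_lit 0, nat_lit 215, nat_lit 3267, nat_lit 229, nat_lit 52091779, nat_lit 0, nat_lit 0, nat_lit 2650336, false, false⟩,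
 nat_lit 0, nat_lit 100000, nat_lit 0, nat_lit 0, nat_lit 75293, nat_lit 0, nat_lit 7468, nat_lit 3667, nat_lit 0, nat_lit 0, nat_lit 0, nat_lit 0, nat_lit 0, nat_lit 0, nat_lit 0, nat_lit 1000000, nat_lit 28241788736, nat_lit 0, [(nat_lit 18, [(nat_lit 6, nat_lit 1000)])],
 ⟨p019_k55, nat_lit 0, nat_lit 0, nat_lit 0, nat_lit 0, nat_lit 1434365, [nat_lit 30033066667, nat_lit 37056000001, nat_lit 50771999999], [], [nat_lit 1953087085, nat_lit 2267523770, nat_lit 0, nat_lit 350103451], nat_lit 1271250, nat_lit 1271250, nat_lit 904401, nat_lit 1100001, nat_lit 0, nat_lit 0, [nat_lit 490000, nat_lit 631250, nat_lit 936250], [nat_lit 164, nat_lit 40, nat_lit 20, nat_lit 40]⟩, C1.Rw.none,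
 ⟨nat_lit 4415, nat_lit 4445, ⟨.ofNat (nat_lit 513410), .ofNat (nat_lit 554094), .ofNat (nat_lit 515567), .ofNat (nat_lit 556251), .ofNat (nat_lit 513737), .ofNat (nat_lit 554318), .ofNat (nat_lit 515896), .ofNat (nat_lit 556476)⟩, ⟨.ofNat (nat_lit 0), .ofNat (nat_lit 0), .ofNat (nat_lit 0), .ofNat (nat_lit 0), .ofNat (nat_lit 0), .ofNat (nat_lit 0), .ofNat (nat_lit 0), .ofNat (nat_lit 0)⟩⟩, [⟨nat_lit 0, nat_lit 86, nat_lit 83, nat_lit 100, nat_lit 640902761⟩]⟩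
noncomputable def p019_l161 : Lf2 := ⟨nat_lit 0, nat_lit 2, [nat_lit 10, nat_lit 5, nat_lit 5, nat_lit 20], false, nat_lit 0, nat_lit 0, nat_lit 0, nat_lit 0, ⟨nat_lit 1000, nat_lit 0, nat_lit 0, nat_lit 0, nat_lit 0, nat_lit 0, nat_lit 0, nat_lit 0, nat_lit 0, nat_lit 0, nat_lit 0, nat_lit 0, nat_lit 0, nat_lit 0, nat_lit 0, nat_lit 0, false, false⟩,
 nat_lit 0, nat_lit 100000, nat_lit 0, nat_lit 0, nat_lit 75293, nat_lit 5635, nat_lit 42173, nat_lit 2359, nat_lit 0, nat_lit 1357, nat_lit 0, nat_lit 0, nat_lit 0, nat_lit 0, nat_lit 0, nat_lit 0, nat_lit 95182643291, nat_lit 0, [],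
 ⟨p019_k45, nat_lit 0, nat_lit 0, nat_lit 642, nat_lit 0, nat_lit 1434365, [nat_lit 20904000001, nat_lit 42432000000], [], [nat_lit 5003831745, nat_lit 5174047131, nat_lit 0, nat_lit 195601642], nat_lit 1271250, nat_lit 1271250, nat_lit 904401, nat_lit 1100001, nat_lit 0, nat_lit 0, [nat_lit 490000, nat_lit 1100000], [nat_lit 24, nat_lit 40, nat_lit 80, nat_lit 80, nat_lit 33, nat_lit 249, nat_lit 40, nat_lit 11]⟩, ⟨p019_k48, nat_lit 0, nat_lit 0, nat_lit 0, nat_lit 0, nat_lit 0, [nat_lit 3282000000, nat_lit 4688000000], [], [nat_lit 18025833251, nat_lit 18237740340, nat_lit 18240472778, nat_lit 18422523393], nat_lit 0, nat_lit 0, nat_lit 0, nat_lit 0, nat_lit 0, nat_lit 0, [], [nat_lit 40, nat_lit 40, nat_lit 80, nat_lit 80]⟩,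
 zbF0, [⟨nat_lit 0, nat_lit 86, nat_lit 83, nat_lit 100, nat_lit 2112116633⟩]⟩
noncomputable def p019_l162 : Lf2 := ⟨nat_lit 0, nat_lit 2, [nat_lit 10, nat_lit 5, nat_lit 5, nat_lit 20], false, nat_lit 0, nat_lit 0, nat_lit 0, nat_lit 0, ⟨nat_lit 1000, nat_lit 0, nat_lit 0, nat_lit 0, nat_lit 0, nat_lit 0, nat_lit 0, nat_lit 0, nat_lit 0, nat_lit 0, nat_lit 0, nat_lit 0, nat_lit 0, nat_lit 0, nat_lit 0, nat_lit 0, false, false⟩,
 nat_lit 0, nat_lit 0, nat_lit 0, nat_lit 0, nat_lit 0, nat_lit 5635, nat_lit 0, nat_lit 0, nat_lit 444, nat_lit 1278, nat_lit 0, nat_lit 0, nat_lit 0, nat_lit 0, nat_lit 0, nat_lit 0, nat_lit 0, nat_lit 0, [],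
 ⟨p019_k45, nat_lit 0, nat_lit 0, nat_lit 0, nat_lit 0, nat_lit 1478344, [nat_lit 2032000001, nat_lit 4688000000], [], [nat_lit 16305920710, nat_lit 16328686620, nat_lit 16718017900, nat_lit 16740475800], nat_lit 1271250, nat_lit 1271250, nat_lit 904401, nat_lit 1100001, nat_lit 0, nat_lit 0, [nat_lit 490000, nat_lit 1100000], [nat_lit 24, nat_lit 40, nat_lit 80, nat_lit 80]⟩, ⟨p019_k50, nat_lit 0, nat_lit 0, nat_lit 0, nat_lit 0, nat_lit 0, [nat_lit 3282000000, nat_lit 4688000000], [], [nat_lit 18237865340, nat_lit 18803108529, nat_lit 18422648393, nat_lit 18967190780], nat_lit 0, nat_lit 0, nat_lit 0, nat_lit 0, nat_lit 0, nat_lit 0, [], [nat_lit 40, nat_lit 40, nat_lit 80, nat_lit 80]⟩,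
 zbF0, [⟨nat_lit 0, nat_lit 86, nat_lit 84, nat_lit 100, nat_lit 534287432⟩]⟩
noncomputable def p019_l163 : Lf2 := ⟨nat_lit 0, nat_lit 2, [nat_lit 10, nat_lit 5, nat_lit 5, nat_lit 20], true, nat_lit 0, nat_lit 0, nat_lit 0, nat_lit 0, ⟨nat_lit 0, nat_lit 0, nat_lit 1000, nat_lit 7, nat_lit 215, nat_lit 0, nat_lit 0, nat_lit 0, nat_lit 0, nat_lit 215, nat_lit 4200, nat_lit 227, nat_lit 51928075, nat_lit 0, nat_lit 0, nat_lit 2665534, false, false⟩,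
 nat_lit 0, nat_lit 100000, nat_lit 0, nat_lit 0, nat_lit 75293, nat_lit 0, nat_lit 60000, nat_lit 6546, nat_lit 0, nat_lit 0, nat_lit 0, nat_lit 0, nat_lit 0, nat_lit 0, nat_lit 0, nat_lit 1000000, nat_lit 0, nat_lit 0, [(nat_lit 18, [(nat_lit 6, nat_lit 1000)])],
 ⟨p019_k54, nat_lit 0, nat_lit 0, nat_lit 660, nat_lit 0, nat_lit 1478344, [nat_lit 53230000001, nat_lit 78462000000, nat_lit 103318800000], [], [nat_lit 334708917717, nat_lit 334951662006, nat_lit 330711682817, nat_lit 330941184659], nat_lit 1271250, nat_lit 1271250, nat_lit 904401, nat_lit 1100001, nat_lit 0, nat_lit 0, [nat_lit 490000, nat_lit 780000, nat_lit 1100000], [nat_lit 78, nat_lit 40, nat_lit 80, nat_lit 80, nat_lit 22, nat_lit 249, nat_lit 40, nat_lit 11]⟩, C1.Rw.none,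
 ⟨nat_lit 4415, nat_lit 4445, ⟨.ofNat (nat_lit 515567), .ofNat (nat_lit 556251), .ofNat (nat_lit 520961), .ofNat (nat_lit 561645), .ofNat (nat_lit 515896), .ofNat (nat_lit 556476), .ofNat (nat_lit 521292), .ofNat (nat_lit 561872)⟩, ⟨.ofNat (nat_lit 0), .ofNat (nat_lit 0), .ofNat (nat_lit 0), .ofNat (nat_lit 0), .ofNat (nat_lit 0), .ofNat (nat_lit 0), .ofNat (nat_lit 0), .ofNat (nat_lit 0)⟩⟩, []⟩
noncomputable def p019_l164 : Lf2 := ⟨nat_lit 0, nat_lit 2, [nat_lit 10, nat_lit 5, nat_lit 5, nat_lit 20], false, nat_lit 0, nat_lit 0, nat_lit 0, nat_lit 0, ⟨nat_lit 1000, nat_lit 0, nat_lit 0, nat_lit 0, nat_lit 0, nat_lit 0, nat_lit 0, nat_lit 0, nat_lit 0, nat_lit 0, nat_lit 0, nat_lit 0, nat_lit 0, nat_lit 0, nat_lit 0, nat_lit 0, false, false⟩,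
 nat_lit 0, nat_lit 13006, nat_lit 0, nat_lit 0, nat_lit 9754, nat_lit 100000, nat_lit 0, nat_lit 0, nat_lit 0, nat_lit 18955, nat_lit 7764, nat_lit 0, nat_lit 0, nat_lit 0, nat_lit 0, nat_lit 0, nat_lit 0, nat_lit 0, [],
 ⟨p019_k23, nat_lit 0, nat_lit 0, nat_lit 661, nat_lit 0, nat_lit 1486073, [nat_lit 2032000001, nat_lit 4688000000], [], [nat_lit 17386542748, nat_lit 17467885080, nat_lit 16994059440, nat_lit 17089954953], nat_lit 1271250, nat_lit 1271250, nat_lit 872850, nat_lit 1100001, nat_lit 0, nat_lit 0, [nat_lit 490000, nat_lit 1100000], [nat_lit 24, nat_lit 40, nat_lit 80, nat_lit 80, nat_lit 33, nat_lit 249, nat_lit 40, nat_lit 11]⟩, ⟨p019_k47, nat_lit 0, nat_lit 0, nat_lit 0, nat_lit 0, nat_lit 0, [nat_lit 96450000000, nat_lit 128912000000], [], [nat_lit 115136652850, nat_lit 127378440600, nat_lit 108886127000, nat_lit 118988732000], nat_lit 0, nat_lit 0, nat_lit 0, nat_lit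 0, nat_lit 0, nat_lit 0, [], [nat_lit 40, nat_lit 40, nat_lit 80, nat_lit 80]⟩,
 zbF0, [⟨nat_lit 0, nat_lit 83, nat_lit 82, nat_lit 100, nat_lit 3052038067⟩]⟩
noncomputable def p019_l165 : Lf2 := ⟨nat_lit 0, nat_lit 2, [nat_lit 10, nat_lit 5, nat_lit 5, nat_lit 20], false, nat_lit 0, nat_lit 0, nat_lit 0, nat_lit 0, ⟨nat_lit 360, nat_lit 0, nat_lit 640, nat_lit 7, nat_lit 213, nat_lit 0, nat_lit 0, nat_lit 0, nat_lit 0, nat_lit 215, nat_lit 4200, nat_lit 227, nat_lit 52197891, nat_lit 0, nat_lit 0, nat_lit 2640392, false, false⟩,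
 nat_lit 0, nat_lit 0, nat_lit 0, nat_lit 0, nat_lit 0, nat_lit 100000, nat_lit 0, nat_lit 0, nat_lit 0, nat_lit 41860, nat_lit 8343, nat_lit 0, nat_lit 0, nat_lit 0, nat_lit 0, nat_lit 640000, nat_lit 0, nat_lit 0, [(nat_lit 18, [(nat_lit 6, nat_lit 640)])],
 ⟨p019_k23, nat_lit 0, nat_lit 0, nat_lit 661, nat_lit 0, nat_lit 1486073, [nat_lit 1409749334, nat_lit 838090666], [], [nat_lit 49454739074, nat_lit 49502898194, nat_lit 49964610674, nat_lit 50011953874], nat_lit 1271250, nat_lit 1271250, nat_lit 872850, nat_lit 1100001, nat_lit 0, nat_lit 0, [nat_lit 490000, nat_lit 1100000], [nat_lit 24, nat_lit 40, nat_lit 80, nat_lit 80, nat_lit 33, nat_lit 249, nat_lit 40, nat_lit 11]⟩, ⟨p019_k47, nat_lit 0, nat_lit 0, nat_lit 0, nat_lit 0, nat_lit 0, [nat_lit 101297520000, nat_lit 135175680000], [], [nat_lit 111542621270, nat_lit 122899829016, nat_lit 105342447080, nat_lit 116085886880], nat_lit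 0, nat_lit 0, nat_lit 0, nat_lit 0, nat_lit 0, nat_lit 0, [], [nat_lit 40, nat_lit 40, nat_lit 80, nat_lit 80]⟩,
 ⟨nat_lit 4415, nat_lit 4473, ⟨.ofNat (nat_lit 503051), .ofNat (nat_lit 550635), .ofNat (nat_lit 513834), .ofNat (nat_lit 561419), .ofNat (nat_lit 503736), .ofNat (nat_lit 551079), .ofNat (nat_lit 514528), .ofNat (nat_lit 561872)⟩, ⟨.ofNat (nat_lit 0), .ofNat (nat_lit 0), .ofNat (nat_lit 0), .ofNat (nat_lit 0), .ofNat (nat_lit 0), .ofNat (nat_lit 0), .ofNat (nat_lit 0), .ofNat (nat_lit 0)⟩⟩, [⟨nat_lit 0, nat_lit 83, nat_lit 82, nat_lit 100, nat_lit 1831562805⟩]⟩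
noncomputable def p019_l166 : Lf2 := ⟨nat_lit 3, nat_lit 2, [nat_lit 10, nat_lit 5, nat_lit 5, nat_lit 20], false, nat_lit 0, nat_lit 0, nat_lit 0, nat_lit 0, zbN0,
 nat_lit 0, nat_lit 0, nat_lit 0, nat_lit 0, nat_lit 0, nat_lit 0, nat_lit 0, nat_lit 0, nat_lit 0, nat_lit 0, nat_lit 0, nat_lit 0, nat_lit 0, nat_lit 0, nat_lit 0, nat_lit 0, nat_lit 0, nat_lit 0, [],
 C1.Rw.none, ⟨p019_k47, nat_lit 0, nat_lit 0, nat_lit 0, nat_lit 0, nat_lit 0, [], [], [], nat_lit 0, nat_lit 0, nat_lit 0, nat_lit 0, nat_lit 0, nat_lit 0, [], [nat_lit 40, nat_lit 40, nat_lit 80, nat_lit 80]⟩,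
 zbF0, []⟩
noncomputable def b_N_800_700_0_3 : St := ⟨false, nat_lit 1, nat_lit 0, nat_lit 1, nat_lit 40, nat_lit 320, nat_lit 322, nat_lit 310, nat_lit 320, nat_lit 132, nat_lit 160, nat_lit 0, nat_lit 0, nat_lit 0, nat_lit 0, nat_lit 0, nat_lit 0, nat_lit 4, nat_lit 8, nat_lit 1060, nat_lit 0, nat_lit 0, nat_lit 800⟩
theorem d_N_800_700_0_3 (h : EB TB.env) : Dead b_N_800_700_0_3 := chkB_sound0 h (T :=
(.spl (nat_lit 8) (nat_lit 400)
(.spl (nat_lit 8) (nat_lit 200)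
(.spl (nat_lit 8) (nat_lit 100)
(.spl (nat_lit 0) (nat_lit 321)
(.spl (nat_lit 1) (nat_lit 315)
(.spl (nat_lit 1) (nat_lit 313)
(.leaf p019_l125)
(.spl (nat_lit 1) (nat_lit 314)
(.spl (nat_lit 2) (nat_lit 140)
(.spl (nat_lit 2) (nat_lit 136)
(.leaf p019_l126)
(.spl (nat_lit 7) (nat_lit 1220)
(.leaf p019_l127)
(.leaf p019_l128)))
(.leaf p019_l129))
(.trZ (nat_lit 0) (nat_lit 87) (nat_lit 84) (nat_lit 100) (nat_lit 136) (.spl (nat_lit 2) (nat_lit 152)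
(.spl (nat_lit 2) (nat_lit 140)
(.spl (nat_lit 7) (nat_lit 1220)
(.leaf p019_l130)
(.leaf p019_l131))
(.spl (nat_lit 2) (nat_lit 144)
(.spl (nat_lit 7) (nat_lit 1220)
(.leaf p019_l132)
(.leaf p019_l133))
(.leaf p019_l134)))
(.leaf p019_l135)))))
(.trZ (nat_lit 0) (nat_lit 86) (nat_lit 84) (nat_lit 100) (nat_lit 136) (.spl (nat_lit 2) (nat_lit 152)
(.spl (nat_lit 7) (nat_lit 1220)
(.leaf p019_l136)
(.leaf p019_l137))
(.spl (nat_lit 1) (nat_lit 318)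
(.leaf p019_l138)
(.spl (nat_lit 1) (nat_lit 319)
(.leaf p019_l139)
(.spl (nat_lit 2) (nat_lit 156)
(.spl (nat_lit 7) (nat_lit 1220)
(.leaf p019_l140)
(.leaf p019_l141))
(.leaf p019_l142)))))))
(.leaf p019_l143))
(.spl (nat_lit 8) (nat_lit 160)
(.spl (nat_lit 0) (nat_lit 321)
(.spl (nat_lit 7) (nat_lit 1220)
(.spl (nat_lit 8) (nat_lit 140)
(.spl (nat_lit 1) (nat_lit 315)
(.spl (nat_lit 2) (nat_lit 140)
(.leaf p019_l144)
(.leaf p019_l145))
(.trZ (nat_lit 0) (nat_lit 86) (nat_lit 84) (nat_lit 100) (nat_lit 136) (.leaf p019_l146)))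
(.leaf p019_l147))
(.leaf p019_l148))
(.spl (nat_lit 8) (nat_lit 140)
(.spl (nat_lit 1) (nat_lit 315)
(.spl (nat_lit 1) (nat_lit 313)
(.leaf p019_l149)
(.trZ (nat_lit 0) (nat_lit 87) (nat_lit 84) (nat_lit 100) (nat_lit 136) (.spl (nat_lit 1) (nat_lit 314)
(.leaf p019_l150)
(.spl (nat_lit 2) (nat_lit 152)
(.spl (nat_lit 2) (nat_lit 140)
(.spl (nat_lit 7) (nat_lit 1220)
(.leaf p019_l151)
(.leaf p019_l152))
(.spl (nat_lit 2) (nat_lit 144)
(.spl (nat_lit 7) (nat_lit 1220)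
(.leaf p019_l153)
(.leaf p019_l154))
(.leaf p019_l155)))
(.leaf p019_l156)))))
(.trZ (nat_lit 0) (nat_lit 86) (nat_lit 84) (nat_lit 100) (nat_lit 136) (.spl (nat_lit 7) (nat_lit 1220)
(.leaf p019_l157)
(.leaf p019_l158))))
(.spl (nat_lit 1) (nat_lit 315)
(.spl (nat_lit 1) (nat_lit 313)
(.leaf p019_l159)
(.trZ (nat_lit 0) (nat_lit 87) (nat_lit 84) (nat_lit 100) (nat_lit 136) (.spl (nat_lit 7) (nat_lit 1220)
(.leaf p019_l160)
(.leaf p019_l161))))
(.trZ (nat_lit 0) (nat_lit 86) (nat_lit 84) (nat_lit 100) (nat_lit 136) (.spl (nat_lit 7) (nat_lit 1220)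
(.leaf p019_l162)
(.leaf p019_l163))))))
(.leaf p019_l164)))
(.leaf p019_l165))
(.leaf p019_l166))) (by decide +kernel)
noncomputable def p019_l167 : Lf2 := ⟨nat_lit 0, nat_lit 4, [nat_lit 38, nat_lit 5, nat_lit 5, nat_lit 20], false, nat_lit 0, nat_lit 0, nat_lit 0, nat_lit 0, ⟨nat_lit 1000, nat_lit 0, nat_lit 0, nat_lit 0, nat_lit 0, nat_lit 0, nat_lit 0, nat_lit 0, nat_lit 0, nat_lit 0, nat_lit 0, nat_lit 0, nat_lit 0, nat_lit 0, nat_lit 0, nat_lit 0, false, false⟩,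
 nat_lit 0, nat_lit 8860, nat_lit 0, nat_lit 0, nat_lit 6644, nat_lit 5032, nat_lit 0, nat_lit 0, nat_lit 0, nat_lit 2712, nat_lit 0, nat_lit 0, nat_lit 0, nat_lit 0, nat_lit 0, nat_lit 0, nat_lit 0, nat_lit 0, [],
 ⟨p019_k26, nat_lit 0, nat_lit 0, nat_lit 595, nat_lit 0, nat_lit 1338558, [nat_lit 2032000001, nat_lit 4688000000], [], [nat_lit 32889546226, nat_lit 33071376663, nat_lit 32757814642, nat_lit 32953864448], nat_lit 1271250, nat_lit 1271250, nat_lit 780000, nat_lit 1100001, nat_lit 0, nat_lit 0, [nat_lit 490000, nat_lit 1100000], [nat_lit 24, nat_lit 40, nat_lit 80, nat_lit 80, nat_lit 33, nat_lit 249, nat_lit 40, nat_lit 11]⟩, ⟨p019_k56, nat_lit 0, nat_lit 0, nat_lit 0, nat_lit 0, nat_lit 0, [nat_lit 3282000000, nat_lit 6250000000], [], [nat_lit 17226840264, nat_lit 17645669768, nat_lit 17684004952, nat_lit 18078545820], nat_lit 0, nat_lit 0, nat_lit 0, nat_lit 0, nat_lit 0,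 nat_lit 0, [], [nat_lit 49, nat_lit 40, nat_lit 80, nat_lit 80]⟩,
 zbF0, [⟨nat_lit 0, nat_lit 90, nat_lit 83, nat_lit 100, nat_lit 642720695⟩]⟩
noncomputable def p019_l168 : Lf2 := ⟨nat_lit 0, nat_lit 3, [nat_lit 45, nat_lit 5, nat_lit 5, nat_lit 20], false, nat_lit 0, nat_lit 0, nat_lit 0, nat_lit 0, ⟨nat_lit 1000, nat_lit 0, nat_lit 0, nat_lit 0, nat_lit 0, nat_lit 0, nat_lit 0, nat_lit 0, nat_lit 0, nat_lit 0, nat_lit 0, nat_lit 0, nat_lit 0, nat_lit 0, nat_lit 0, nat_lit 0, false, false⟩,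
 nat_lit 0, nat_lit 8881, nat_lit 0, nat_lit 0, nat_lit 6660, nat_lit 5604, nat_lit 0, nat_lit 0, nat_lit 0, nat_lit 624, nat_lit 0, nat_lit 0, nat_lit 0, nat_lit 0, nat_lit 0, nat_lit 0, nat_lit 0, nat_lit 0, [],
 ⟨p019_k57, nat_lit 0, nat_lit 0, nat_lit 598, nat_lit 0, nat_lit 1351162, [nat_lit 2032000001, nat_lit 4688000000], [], [nat_lit 32781963186, nat_lit 32854352590, nat_lit 32672971040, nat_lit 32752979712], nat_lit 1271250, nat_lit 1271250, nat_lit 810650, nat_lit 1100001, nat_lit 0, nat_lit 0, [nat_lit 490000, nat_lit 1100000], [nat_lit 24, nat_lit 40, nat_lit 80, nat_lit 80, nat_lit 33, nat_lit 249, nat_lit 40, nat_lit 11]⟩, ⟨p019_k58, nat_lit 0, nat_lit 0, nat_lit 0, nat_lit 0, nat_lit 0, [nat_lit 3282000000, nat_lit 4688000000], [], [nat_lit 18523252326, nat_lit 19002821114, nat_lit 18936896802, nat_lit 19390514492], nat_lit 0, nat_lit 0, nat_lit 0, nat_lit 0, nat_lit 0, nat_lit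 0, [], [nat_lit 40, nat_lit 40, nat_lit 80, nat_lit 80]⟩,
 zbF0, [⟨nat_lit 0, nat_lit 88, nat_lit 84, nat_lit 100, nat_lit 645306729⟩]⟩
noncomputable def p019_l169 : Lf2 := ⟨nat_lit 0, nat_lit 3, [nat_lit 45, nat_lit 5, nat_lit 5, nat_lit 20], false, nat_lit 0, nat_lit 0, nat_lit 0, nat_lit 0, ⟨nat_lit 1000, nat_lit 0, nat_lit 0, nat_lit 0, nat_lit 0, nat_lit 0, nat_lit 0, nat_lit 0, nat_lit 0, nat_lit 0, nat_lit 0, nat_lit 0, nat_lit 0, nat_lit 0, nat_lit 0, nat_lit 0, false, false⟩,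
 nat_lit 0, nat_lit 8710, nat_lit 0, nat_lit 0, nat_lit 6583, nat_lit 6195, nat_lit 5202, nat_lit 0, nat_lit 0, nat_lit 0, nat_lit 0, nat_lit 0, nat_lit 0, nat_lit 0, nat_lit 0, nat_lit 0, nat_lit 0, nat_lit 0, [],
 ⟨p019_k59, nat_lit 0, nat_lit 0, nat_lit 595, nat_lit 0, nat_lit 1343940, [nat_lit 2032000001, nat_lit 4688000000], [], [nat_lit 22088814738, nat_lit 22130370108, nat_lit 22072762518, nat_lit 22112425644], nat_lit 1271250, nat_lit 1271250, nat_lit 841600, nat_lit 1100001, nat_lit 0, nat_lit 0, [nat_lit 490000, nat_lit 1100000], [nat_lit 24, nat_lit 40, nat_lit 80, nat_lit 80, nat_lit 33, nat_lit 249, nat_lit 40, nat_lit 11]⟩, ⟨p019_k58, nat_lit 0, nat_lit 0, nat_lit 0, nat_lit 0, nat_lit 0, [nat_lit 3282000000, nat_lit 4688000000], [], [nat_lit 19199200839, nat_lit 19768758331, nat_lit 19426978000, nat_lit 19968999600], nat_lit 0, nat_lit 0, nat_lit 0, nat_lit 0, nat_lit 0,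 nat_lit 0, [], [nat_lit 40, nat_lit 40, nat_lit 80, nat_lit 80]⟩,
 zbF0, [⟨nat_lit 0, nat_lit 88, nat_lit 83, nat_lit 100, nat_lit 665952179⟩]⟩
noncomputable def p019_l170 : Lf2 := ⟨nat_lit 0, nat_lit 3, [nat_lit 45, nat_lit 5, nat_lit 5, nat_lit 20], false, nat_lit 0, nat_lit 0, nat_lit 0, nat_lit 0, ⟨nat_lit 1000, nat_lit 0, nat_lit 0, nat_lit 0, nat_lit 0, nat_lit 0, nat_lit 0, nat_lit 0, nat_lit 0, nat_lit 0, nat_lit 0, nat_lit 0, nat_lit 0, nat_lit 0, nat_lit 0, nat_lit 0, false, false⟩,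
 nat_lit 0, nat_lit 8536, nat_lit 0, nat_lit 0, nat_lit 6477, nat_lit 6195, nat_lit 3075, nat_lit 0, nat_lit 0, nat_lit 0, nat_lit 0, nat_lit 0, nat_lit 0, nat_lit 0, nat_lit 0, nat_lit 0, nat_lit 0, nat_lit 0, [],
 ⟨p019_k60, nat_lit 0, nat_lit 0, nat_lit 597, nat_lit 0, nat_lit 1350427, [nat_lit 2032000001, nat_lit 4688000000], [], [nat_lit 22180473856, nat_lit 22272757064, nat_lit 22238767355, nat_lit 22377075229], nat_lit 1271250, nat_lit 1271250, nat_lit 841600, nat_lit 1100001, nat_lit 0, nat_lit 0, [nat_lit 490000, nat_lit 1100000], [nat_lit 24, nat_lit 40, nat_lit 80, nat_lit 80, nat_lit 33, nat_lit 249, nat_lit 40, nat_lit 11]⟩, ⟨p019_k58, nat_lit 0, nat_lit 0, nat_lit 0, nat_lit 0, nat_lit 0, [nat_lit 3282000000, nat_lit 4688000000], [], [nat_lit 19199200839, nat_lit 19768758331, nat_lit 19426978000, nat_lit 19968999600], nat_lit 0, nat_lit 0, nat_lit 0, nat_lit 0, nat_lit 0,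 nat_lit 0, [], [nat_lit 40, nat_lit 40, nat_lit 80, nat_lit 80]⟩,
 zbF0, [⟨nat_lit 0, nat_lit 89, nat_lit 83, nat_lit 100, nat_lit 635706069⟩, ⟨nat_lit 13, nat_lit 94, nat_lit 10, nat_lit 100, nat_lit 4055588⟩]⟩
noncomputable def p019_l171 : Lf2 := ⟨nat_lit 0, nat_lit 4, [nat_lit 38, nat_lit 5, nat_lit 5, nat_lit 20], false, nat_lit 0, nat_lit 0, nat_lit 0, nat_lit 0, ⟨nat_lit 1000, nat_lit 0, nat_lit 0, nat_lit 0, nat_lit 0, nat_lit 0, nat_lit 0, nat_lit 0, nat_lit 0, nat_lit 0, nat_lit 0, nat_lit 0, nat_lit 0, nat_lit 0, nat_lit 0, nat_lit 0, false, false⟩,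
 nat_lit 0, nat_lit 8856, nat_lit 0, nat_lit 0, nat_lit 6642, nat_lit 4991, nat_lit 0, nat_lit 0, nat_lit 0, nat_lit 2162, nat_lit 0, nat_lit 0, nat_lit 0, nat_lit 0, nat_lit 0, nat_lit 0, nat_lit 0, nat_lit 0, [],
 ⟨p019_k26, nat_lit 0, nat_lit 0, nat_lit 591, nat_lit 0, nat_lit 1327588, [nat_lit 2032000001, nat_lit 4688000000], [], [nat_lit 32888174303, nat_lit 33068947652, nat_lit 32769828522, nat_lit 32963973414], nat_lit 1271250, nat_lit 1271250, nat_lit 810650, nat_lit 1100001, nat_lit 0, nat_lit 0, [nat_lit 490000, nat_lit 1100000], [nat_lit 24, nat_lit 40, nat_lit 80, nat_lit 80, nat_lit 33, nat_lit 249, nat_lit 40, nat_lit 11]⟩, ⟨p019_k61, nat_lit 0, nat_lit 0, nat_lit 0, nat_lit 0, nat_lit 0, [nat_lit 3282000000, nat_lit 6250000000], [], [nat_lit 17789477675, nat_lit 18203945306, nat_lit 18182875410, nat_lit 18575619494], nat_lit 0, nat_lit 0, nat_lit 0, nat_lit 0, nat_lit 0,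 nat_lit 0, [], [nat_lit 49, nat_lit 40, nat_lit 80, nat_lit 80]⟩,
 zbF0, [⟨nat_lit 0, nat_lit 88, nat_lit 82, nat_lit 100, nat_lit 662213383⟩]⟩
noncomputable def p019_l172 : Lf2 := ⟨nat_lit 0, nat_lit 5, [nat_lit 4, nat_lit 5, nat_lit 5, nat_lit 20], false, nat_lit 0, nat_lit 0, nat_lit 0, nat_lit 0, ⟨nat_lit 1000, nat_lit 0, nat_lit 0, nat_lit 0, nat_lit 0, nat_lit 0, nat_lit 0, nat_lit 0, nat_lit 0, nat_lit 0, nat_lit 0, nat_lit 0, nat_lit 0, nat_lit 0, nat_lit 0, nat_lit 0, false, false⟩,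
 nat_lit 0, nat_lit 11073, nat_lit 0, nat_lit 0, nat_lit 8304, nat_lit 5679, nat_lit 462, nat_lit 0, nat_lit 0, nat_lit 2010, nat_lit 0, nat_lit 0, nat_lit 0, nat_lit 0, nat_lit 0, nat_lit 0, nat_lit 0, nat_lit 0, [],
 ⟨p019_k28, nat_lit 0, nat_lit 0, nat_lit 637, nat_lit 0, nat_lit 1231599, [nat_lit 2032000001, nat_lit 4688000000, nat_lit 6250000000], [], [nat_lit 24654096560, nat_lit 24786137813, nat_lit 24341744576, nat_lit 24474751432], nat_lit 1271250, nat_lit 1271250, nat_lit 780000, nat_lit 1100001, nat_lit 0, nat_lit 0, [nat_lit 490000, nat_lit 1100000, nat_lit 1442500], [nat_lit 6, nat_lit 40, nat_lit 80, nat_lit 80, nat_lit 3, nat_lit 249, nat_lit 40, nat_lit 9]⟩, ⟨p019_k62, nat_lit 0, nat_lit 0, nat_lit 0, nat_lit 0, nat_lit 0, [nat_lit 3282000000, nat_lit 6250000000], [], [nat_lit 17947397970, nat_lit 18450926127, nat_lit 18296934794, nat_lit 18719829790], nat_lit 0, nat_lit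 0, nat_lit 0, nat_lit 0, nat_lit 0, nat_lit 0, [], [nat_lit 49, nat_lit 40, nat_lit 80, nat_lit 80]⟩,
 zbF0, [⟨nat_lit 0, nat_lit 91, nat_lit 84, nat_lit 100, nat_lit 688520678⟩]⟩
noncomputable def p019_l173 : Lf2 := ⟨nat_lit 0, nat_lit 5, [nat_lit 4, nat_lit 5, nat_lit 5, nat_lit 20], false, nat_lit 0, nat_lit 0, nat_lit 0, nat_lit 0, ⟨nat_lit 1000, nat_lit 0, nat_lit 0, nat_lit 0, nat_lit 0, nat_lit 0, nat_lit 0, nat_lit 0, nat_lit 0, nat_lit 0, nat_lit 0, nat_lit 0, nat_lit 0, nat_lit 0, nat_lit 0, nat_lit 0, false, false⟩,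
 nat_lit 0, nat_lit 8485, nat_lit 0, nat_lit 0, nat_lit 6438, nat_lit 8825, nat_lit 4470, nat_lit 0, nat_lit 0, nat_lit 0, nat_lit 0, nat_lit 0, nat_lit 0, nat_lit 0, nat_lit 0, nat_lit 0, nat_lit 0, nat_lit 0, [],
 ⟨p019_k63, nat_lit 0, nat_lit 0, nat_lit 554, nat_lit 0, nat_lit 1226294, [nat_lit 2032000001, nat_lit 4688000000], [], [nat_lit 22147799151, nat_lit 22234023151, nat_lit 22115001282, nat_lit 22196848118], nat_lit 1271250, nat_lit 1271250, nat_lit 810650, nat_lit 1100001, nat_lit 0, nat_lit 0, [nat_lit 490000, nat_lit 1100000], [nat_lit 24, nat_lit 40, nat_lit 80, nat_lit 80, nat_lit 33, nat_lit 249, nat_lit 40, nat_lit 11]⟩, ⟨p019_k62, nat_lit 0, nat_lit 0, nat_lit 0, nat_lit 0, nat_lit 0, [nat_lit 3282000000, nat_lit 6250000000], [], [nat_lit 21657938351, nat_lit 22328819968, nat_lit 21582850000, nat_lit 22215655250], nat_lit 0, nat_lit 0, nat_lit 0, nat_lit 0, nat_lit 0,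 nat_lit 0, [], [nat_lit 49, nat_lit 40, nat_lit 80, nat_lit 80]⟩,
 zbF0, [⟨nat_lit 0, nat_lit 90, nat_lit 83, nat_lit 100, nat_lit 721707998⟩]⟩
noncomputable def p019_l174 : Lf2 := ⟨nat_lit 0, nat_lit 5, [nat_lit 4, nat_lit 5, nat_lit 5, nat_lit 20], false, nat_lit 0, nat_lit 0, nat_lit 0, nat_lit 0, ⟨nat_lit 1000, nat_lit 0, nat_lit 0, nat_lit 0, nat_lit 0, nat_lit 0, nat_lit 0, nat_lit 0, nat_lit 0, nat_lit 0, nat_lit 0, nat_lit 0, nat_lit 0, nat_lit 0, nat_lit 0, nat_lit 0, false, false⟩,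
 nat_lit 0, nat_lit 8717, nat_lit 0, nat_lit 0, nat_lit 6537, nat_lit 5558, nat_lit 484, nat_lit 0, nat_lit 0, nat_lit 1656, nat_lit 0, nat_lit 0, nat_lit 0, nat_lit 0, nat_lit 0, nat_lit 0, nat_lit 0, nat_lit 0, [],
 ⟨p019_k28, nat_lit 0, nat_lit 0, nat_lit 651, nat_lit 0, nat_lit 1269905, [nat_lit 2032000001, nat_lit 4688000000, nat_lit 6250000000], [], [nat_lit 33394705879, nat_lit 33588604217, nat_lit 33300664961, nat_lit 33494694129], nat_lit 1271250, nat_lit 1271250, nat_lit 810650, nat_lit 1100001, nat_lit 0, nat_lit 0, [nat_lit 490000, nat_lit 1100000, nat_lit 1442500], [nat_lit 6, nat_lit 40, nat_lit 80, nat_lit 80, nat_lit 3, nat_lit 249, nat_lit 40, nat_lit 9]⟩, ⟨p019_k64, nat_lit 0, nat_lit 0, nat_lit 0, nat_lit 0, nat_lit 0, [nat_lit 3282000000, nat_lit 6250000000], [], [nat_lit 18427190518, nat_lit 18691910361, nat_lit 18767908580, nat_lit 19018463956], nat_lit 0, nat_lit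 0, nat_lit 0, nat_lit 0, nat_lit 0, nat_lit 0, [], [nat_lit 49, nat_lit 40, nat_lit 80, nat_lit 80]⟩,
 zbF0, [⟨nat_lit 0, nat_lit 89, nat_lit 82, nat_lit 100, nat_lit 663036415⟩]⟩
noncomputable def p019_l175 : Lf2 := ⟨nat_lit 0, nat_lit 5, [nat_lit 4, nat_lit 5, nat_lit 5, nat_lit 20], false, nat_lit 0, nat_lit 0, nat_lit 0, nat_lit 0, ⟨nat_lit 1000, nat_lit 0, nat_lit 0, nat_lit 0, nat_lit 0, nat_lit 0, nat_lit 0, nat_lit 0, nat_lit 0, nat_lit 0, nat_lit 0, nat_lit 0, nat_lit 0, nat_lit 0, nat_lit 0, nat_lit 0, false, false⟩,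
 nat_lit 0, nat_lit 8688, nat_lit 0, nat_lit 0, nat_lit 6516, nat_lit 5547, nat_lit 481, nat_lit 0, nat_lit 0, nat_lit 1461, nat_lit 0, nat_lit 0, nat_lit 0, nat_lit 0, nat_lit 0, nat_lit 0, nat_lit 0, nat_lit 0, [],
 ⟨p019_k28, nat_lit 0, nat_lit 0, nat_lit 656, nat_lit 0, nat_lit 1286333, [nat_lit 2032000001, nat_lit 4688000000, nat_lit 6250000000], [], [nat_lit 33498730677, nat_lit 33691262270, nat_lit 33417129281, nat_lit 33600866307], nat_lit 1271250, nat_lit 1271250, nat_lit 841600, nat_lit 1100001, nat_lit 0, nat_lit 0, [nat_lit 490000, nat_lit 1100000, nat_lit 1442500], [nat_lit 6, nat_lit 40, nat_lit 80, nat_lit 80, nat_lit 3, nat_lit 249, nat_lit 40, nat_lit 9]⟩, ⟨p019_k65, nat_lit 0, nat_lit 0, nat_lit 0, nat_lit 0, nat_lit 0, [nat_lit 3282000000, nat_lit 6250000000], [], [nat_lit 18760566180, nat_lit 18935791035, nat_lit 19051763982, nat_lit 19218608073], nat_lit 0, nat_lit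 0, nat_lit 0, nat_lit 0, nat_lit 0, nat_lit 0, [], [nat_lit 49, nat_lit 40, nat_lit 80, nat_lit 80]⟩,
 zbF0, [⟨nat_lit 0, nat_lit 88, nat_lit 82, nat_lit 100, nat_lit 670029512⟩]⟩
noncomputable def b_N_800_700_0_4 : St := ⟨false, nat_lit 1, nat_lit 0, nat_lit 1, nat_lit 40, nat_lit 320, nat_lit 325, nat_lit 300, nat_lit 310, nat_lit 120, nat_lit 160, nat_lit 0, nat_lit 0, nat_lit 0, nat_lit 0, nat_lit 0, nat_lit 0, nat_lit 8, nat_lit 20, nat_lit 0, nat_lit 0, nat_lit 0, nat_lit 800⟩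
theorem d_N_800_700_0_4 (h : EB TB.env) : Dead b_N_800_700_0_4 := chkB_sound0 h (T :=
(.spl (nat_lit 6) (nat_lit 16)
(.spl (nat_lit 1) (nat_lit 305)
(.leaf p019_l167)
(.trZ (nat_lit 0) (nat_lit 91) (nat_lit 86) (nat_lit 100) (nat_lit 124) (.spl (nat_lit 6) (nat_lit 12)
(.spl (nat_lit 0) (nat_lit 323)
(.spl (nat_lit 0) (nat_lit 322)
(.leaf p019_l168)
(.trZ (nat_lit 0) (nat_lit 91) (nat_lit 85) (nat_lit 100) (nat_lit 128) (.leaf p019_l169)))
(.trZ (nat_lit 0) (nat_lit 91) (nat_lit 84) (nat_lit 100) (nat_lit 128) (.leaf p019_l170)))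
(.leaf p019_l171))))
(.spl (nat_lit 1) (nat_lit 305)
(.spl (nat_lit 0) (nat_lit 323)
(.leaf p019_l172)
(.trZ (nat_lit 0) (nat_lit 93) (nat_lit 85) (nat_lit 100) (nat_lit 124) (.leaf p019_l173)))
(.trZ (nat_lit 0) (nat_lit 91) (nat_lit 86) (nat_lit 100) (nat_lit 124) (.spl (nat_lit 1) (nat_lit 308)
(.leaf p019_l174)
(.trZ (nat_lit 0) (nat_lit 90) (nat_lit 85) (nat_lit 100) (nat_lit 128) (.leaf p019_l175))))))) (by decide +kernel)
noncomputable def p019_l176 : Lf2 := ⟨nat_lit 0, nat_lit 3, [nat_lit 45, nat_lit 5, nat_lit 5, nat_lit 20], false, nat_lit 0, nat_lit 0, nat_lit 0, nat_lit 0, ⟨nat_lit 1000, nat_lit 0, nat_lit 0, nat_lit 0, nat_lit 0, nat_lit 0, nat_lit 0, nat_lit 0, nat_lit 0, nat_lit 0, nat_lit 0, nat_lit 0, nat_lit 0, nat_lit 0, nat_lit 0, nat_lit 0, false, false⟩,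
 nat_lit 0, nat_lit 8882, nat_lit 0, nat_lit 0, nat_lit 6661, nat_lit 0, nat_lit 0, nat_lit 0, nat_lit 0, nat_lit 411, nat_lit 0, nat_lit 463, nat_lit 0, nat_lit 0, nat_lit 0, nat_lit 0, nat_lit 0, nat_lit 0, [],
 ⟨p019_k57, nat_lit 0, nat_lit 0, nat_lit 0, nat_lit 0, nat_lit 1361459, [nat_lit 2032000001, nat_lit 4688000000], [], [nat_lit 32749314590, nat_lit 32785096748, nat_lit 32722566610, nat_lit 32762541071], nat_lit 1271250, nat_lit 1271250, nat_lit 872850, nat_lit 936251, nat_lit 0, nat_lit 0, [nat_lit 490000, nat_lit 1100000], [nat_lit 24, nat_lit 40, nat_lit 80, nat_lit 80]⟩, ⟨p019_k66, nat_lit 0, nat_lit 0, nat_lit 0, nat_lit 0, nat_lit 0, [nat_lit 3282000000, nat_lit 4688000000], [], [nat_lit 11931878350, nat_lit 12005956120, nat_lit 12128119250, nat_lit 12204329801], nat_lit 0, nat_lit 0, nat_lit 0, nat_lit 0, nat_lit 0, nat_lit 0, [], [nat_lit 40, nat_lit 40, nat_lit 80, nat_lit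 80]⟩,
 zbF0, [⟨nat_lit 0, nat_lit 87, nat_lit 84, nat_lit 100, nat_lit 559782139⟩]⟩
noncomputable def p019_l177 : Lf2 := ⟨nat_lit 0, nat_lit 3, [nat_lit 45, nat_lit 5, nat_lit 5, nat_lit 20], false, nat_lit 0, nat_lit 0, nat_lit 0, nat_lit 0, ⟨nat_lit 1000, nat_lit 0, nat_lit 0, nat_lit 0, nat_lit 0, nat_lit 0, nat_lit 0, nat_lit 0, nat_lit 0, nat_lit 0, nat_lit 0, nat_lit 0, nat_lit 0, nat_lit 0, nat_lit 0, nat_lit 0, false, false⟩,
 nat_lit 0, nat_lit 0, nat_lit 0, nat_lit 0, nat_lit 0, nat_lit 0, nat_lit 0, nat_lit 0, nat_lit 393, nat_lit 386, nat_lit 0, nat_lit 463, nat_lit 0, nat_lit 0, nat_lit 0, nat_lit 0, nat_lit 0, nat_lit 0, [],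
 ⟨p019_k57, nat_lit 0, nat_lit 0, nat_lit 0, nat_lit 0, nat_lit 1370048, [nat_lit 2032000001, nat_lit 4688000000], [], [nat_lit 21926420600, nat_lit 21949237845, nat_lit 21995154800, nat_lit 22017920710], nat_lit 1271250, nat_lit 1271250, nat_lit 872850, nat_lit 904401, nat_lit 0, nat_lit 0, [nat_lit 490000, nat_lit 1100000], [nat_lit 24, nat_lit 40, nat_lit 80, nat_lit 80]⟩, ⟨p019_k67, nat_lit 0, nat_lit 0, nat_lit 0, nat_lit 0, nat_lit 0, [nat_lit 3282000000, nat_lit 4688000000], [], [nat_lit 12005956120, nat_lit 12044321306, nat_lit 12105142960, nat_lit 12143378190], nat_lit 0, nat_lit 0, nat_lit 0, nat_lit 0, nat_lit 0, nat_lit 0, [], [nat_lit 40, nat_lit 40, nat_lit 80, nat_lit 80]⟩,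
 zbF0, [⟨nat_lit 0, nat_lit 88, nat_lit 85, nat_lit 100, nat_lit 416491776⟩]⟩
noncomputable def p019_l178 : Lf2 := ⟨nat_lit 2, nat_lit 3, [nat_lit 45, nat_lit 5, nat_lit 5, nat_lit 20], true, nat_lit 0, nat_lit 0, nat_lit 0, nat_lit 0, zbN0,
 nat_lit 0, nat_lit 0, nat_lit 0, nat_lit 0, nat_lit 0, nat_lit 0, nat_lit 0, nat_lit 0, nat_lit 0, nat_lit 0, nat_lit 0, nat_lit 0, nat_lit 0, nat_lit 0, nat_lit 0, nat_lit 0, nat_lit 0, nat_lit 0, [],
 ⟨p019_k68, nat_lit 0, nat_lit 0, nat_lit 0, nat_lit 0, nat_lit 1370048, [], [], [], nat_lit 1271250, nat_lit 1271250, nat_lit 872850, nat_lit 904401, nat_lit 0, nat_lit 0, [nat_lit 490000, nat_lit 631250, nat_lit 936250, nat_lit 1100000], [nat_lit 150, nat_lit 40, nat_lit 20, nat_lit 40]⟩, C1.Rw.none,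
 zbF0, []⟩
noncomputable def p019_l179 : Lf2 := ⟨nat_lit 0, nat_lit 3, [nat_lit 45, nat_lit 5, nat_lit 5, nat_lit 20], false, nat_lit 0, nat_lit 0, nat_lit 0, nat_lit 0, ⟨nat_lit 1000, nat_lit 0, nat_lit 0, nat_lit 0, nat_lit 0, nat_lit 0, nat_lit 0, nat_lit 0, nat_lit 0, nat_lit 0, nat_lit 0, nat_lit 0, nat_lit 0, nat_lit 0, nat_lit 0, nat_lit 0, false, false⟩,
 nat_lit 0, nat_lit 0, nat_lit 0, nat_lit 0, nat_lit 0, nat_lit 0, nat_lit 0, nat_lit 0, nat_lit 393, nat_lit 386, nat_lit 0, nat_lit 463, nat_lit 0, nat_lit 0, nat_lit 0, nat_lit 0, nat_lit 0, nat_lit 0, [],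
 ⟨p019_k57, nat_lit 0, nat_lit 0, nat_lit 0, nat_lit 0, nat_lit 1370048, [nat_lit 2032000001, nat_lit 4688000000], [], [nat_lit 21995154800, nat_lit 22017920710, nat_lit 22063889000, nat_lit 22086603575], nat_lit 1271250, nat_lit 1271250, nat_lit 904401, nat_lit 936251, nat_lit 0, nat_lit 0, [nat_lit 490000, nat_lit 1100000], [nat_lit 24, nat_lit 40, nat_lit 80, nat_lit 80]⟩, ⟨p019_k67, nat_lit 0, nat_lit 0, nat_lit 0, nat_lit 0, nat_lit 0, [nat_lit 3282000000, nat_lit 4688000000], [], [nat_lit 12105142960, nat_lit 12143378190, nat_lit 12204329801, nat_lit 12242435075], nat_lit 0, nat_lit 0, nat_lit 0, nat_lit 0, nat_lit 0, nat_lit 0, [], [nat_lit 40, nat_lit 40, nat_lit 80, nat_lit 80]⟩,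
 zbF0, []⟩
noncomputable def p019_l180 : Lf2 := ⟨nat_lit 2, nat_lit 3, [nat_lit 45, nat_lit 5, nat_lit 5, nat_lit 20], true, nat_lit 0, nat_lit 0, nat_lit 0, nat_lit 0, zbN0,
 nat_lit 0, nat_lit 0, nat_lit 0, nat_lit 0, nat_lit 0, nat_lit 0, nat_lit 0, nat_lit 0, nat_lit 0, nat_lit 0, nat_lit 0, nat_lit 0, nat_lit 0, nat_lit 0, nat_lit 0, nat_lit 0, nat_lit 0, nat_lit 0, [],
 ⟨p019_k68, nat_lit 0, nat_lit 0, nat_lit 0, nat_lit 0, nat_lit 1370048, [], [], [], nat_lit 1271250, nat_lit 1271250, nat_lit 904401, nat_lit 936251, nat_lit 0, nat_lit 0, [nat_lit 490000, nat_lit 631250, nat_lit 936250, nat_lit 1100000], [nat_lit 150, nat_lit 40, nat_lit 20, nat_lit 40]⟩, C1.Rw.none,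
 zbF0, []⟩
noncomputable def p019_l181 : Lf2 := ⟨nat_lit 0, nat_lit 3, [nat_lit 45, nat_lit 5, nat_lit 5, nat_lit 20], false, nat_lit 0, nat_lit 0, nat_lit 0, nat_lit 0, ⟨nat_lit 1000, nat_lit 0, nat_lit 0, nat_lit 0, nat_lit 0, nat_lit 0, nat_lit 0, nat_lit 0, nat_lit 0, nat_lit 0, nat_lit 0, nat_lit 0, nat_lit 0, nat_lit 0, nat_lit 0, nat_lit 0, false, false⟩,
 nat_lit 0, nat_lit 6399, nat_lit 0, nat_lit 0, nat_lit 4817, nat_lit 0, nat_lit 0, nat_lit 0, nat_lit 225, nat_lit 410, nat_lit 0, nat_lit 463, nat_lit 0, nat_lit 0, nat_lit 0, nat_lit 0, nat_lit 0, nat_lit 0, [],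
 ⟨p019_k69, nat_lit 0, nat_lit 0, nat_lit 0, nat_lit 0, nat_lit 1369628, [nat_lit 2032000001, nat_lit 4688000000], [], [nat_lit 16792471764, nat_lit 16823247874, nat_lit 16802318099, nat_lit 16832779268], nat_lit 1271250, nat_lit 1271250, nat_lit 872850, nat_lit 936251, nat_lit 0, nat_lit 0, [nat_lit 490000, nat_lit 1100000], [nat_lit 24, nat_lit 40, nat_lit 80, nat_lit 80]⟩, ⟨p019_k66, nat_lit 0, nat_lit 0, nat_lit 0, nat_lit 0, nat_lit 0, [nat_lit 3282000000, nat_lit 4688000000], [], [nat_lit 11933303350, nat_lit 12044649455, nat_lit 12128119250, nat_lit 12243964925], nat_lit 0, nat_lit 0, nat_lit 0, nat_lit 0, nat_lit 0, nat_lit 0, [], [nat_lit 40, nat_lit 40, nat_lit 80, nat_lit 80]⟩,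
 zbF0, [⟨nat_lit 0, nat_lit 88, nat_lit 84, nat_lit 100, nat_lit 525902903⟩]⟩
noncomputable def p019_l182 : Lf2 := ⟨nat_lit 0, nat_lit 3, [nat_lit 45, nat_lit 5, nat_lit 5, nat_lit 20], false, nat_lit 0, nat_lit 0, nat_lit 0, nat_lit 0, ⟨nat_lit 1000, nat_lit 0, nat_lit 0, nat_lit 0, nat_lit 0, nat_lit 0, nat_lit 0, nat_lit 0, nat_lit 0, nat_lit 0, nat_lit 0, nat_lit 0, nat_lit 0, nat_lit 0, nat_lit 0, nat_lit 0, false, false⟩,
 nat_lit 0, nat_lit 1988, nat_lit 0, nat_lit 0, nat_lit 1491, nat_lit 0, nat_lit 0, nat_lit 0, nat_lit 376, nat_lit 412, nat_lit 0, nat_lit 463, nat_lit 0, nat_lit 0, nat_lit 0, nat_lit 0, nat_lit 0, nat_lit 0, [],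
 ⟨p019_k57, nat_lit 0, nat_lit 0, nat_lit 0, nat_lit 0, nat_lit 1376781, [nat_lit 2032000001, nat_lit 4688000000], [], [nat_lit 16507524390, nat_lit 16555426935, nat_lit 16755684904, nat_lit 16808457082], nat_lit 1271250, nat_lit 1271250, nat_lit 936251, nat_lit 1100001, nat_lit 0, nat_lit 0, [nat_lit 490000, nat_lit 1100000], [nat_lit 24, nat_lit 40, nat_lit 80, nat_lit 80]⟩, ⟨p019_k66, nat_lit 0, nat_lit 0, nat_lit 0, nat_lit 0, nat_lit 0, [nat_lit 3282000000, nat_lit 4688000000], [], [nat_lit 12128119250, nat_lit 12242435075, nat_lit 12625353000, nat_lit 12751256000], nat_lit 0, nat_lit 0, nat_lit 0, nat_lit 0, nat_lit 0, nat_lit 0, [], [nat_lit 40, nat_lit 40, nat_lit 80, nat_lit 80]⟩,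
 zbF0, []⟩
noncomputable def p019_l183 : Lf2 := ⟨nat_lit 0, nat_lit 3, [nat_lit 45, nat_lit 5, nat_lit 5, nat_lit 20], false, nat_lit 0, nat_lit 0, nat_lit 0, nat_lit 0, ⟨nat_lit 1000, nat_lit 0, nat_lit 0, nat_lit 0, nat_lit 0, nat_lit 0, nat_lit 0, nat_lit 0, nat_lit 0, nat_lit 0, nat_lit 0, nat_lit 0, nat_lit 0, nat_lit 0, nat_lit 0, nat_lit 0, false, false⟩,
 nat_lit 0, nat_lit 1670, nat_lit 0, nat_lit 0, nat_lit 1252, nat_lit 0, nat_lit 0, nat_lit 0, nat_lit 387, nat_lit 374, nat_lit 0, nat_lit 463, nat_lit 0, nat_lit 0, nat_lit 0, nat_lit 0, nat_lit 0, nat_lit 0, [],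
 ⟨p019_k57, nat_lit 0, nat_lit 0, nat_lit 0, nat_lit 0, nat_lit 1378657, [nat_lit 2032000001, nat_lit 4688000000], [], [nat_lit 16370929624, nat_lit 16394560529, nat_lit 16420166352, nat_lit 16443723547], nat_lit 1271250, nat_lit 1271250, nat_lit 872850, nat_lit 904401, nat_lit 0, nat_lit 0, [nat_lit 490000, nat_lit 1100000], [nat_lit 24, nat_lit 40, nat_lit 80, nat_lit 80]⟩, ⟨p019_k70, nat_lit 0, nat_lit 0, nat_lit 0, nat_lit 0, nat_lit 0, [nat_lit 3282000000, nat_lit 4688000000], [], [nat_lit 12044321306, nat_lit 12082686490, nat_lit 12143378190, nat_lit 12182561680], nat_lit 0, nat_lit 0, nat_lit 0, nat_lit 0, nat_lit 0, nat_lit 0, [], [nat_lit 40, nat_lit 40, nat_lit 80, nat_lit 80]⟩,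
 zbF0, [⟨nat_lit 0, nat_lit 87, nat_lit 84, nat_lit 100, nat_lit 459987472⟩]⟩
noncomputable def p019_l184 : Lf2 := ⟨nat_lit 0, nat_lit 3, [nat_lit 45, nat_lit 5, nat_lit 5, nat_lit 20], false, nat_lit 0, nat_lit 0, nat_lit 0, nat_lit 0, ⟨nat_lit 1000, nat_lit 0, nat_lit 0, nat_lit 0, nat_lit 0, nat_lit 0, nat_lit 0, nat_lit 0, nat_lit 0, nat_lit 0, nat_lit 0, nat_lit 0, nat_lit 0, nat_lit 0, nat_lit 0, nat_lit 0, false, false⟩,
 nat_lit 0, nat_lit 0, nat_lit 0, nat_lit 0, nat_lit 0, nat_lit 0, nat_lit 0, nat_lit 0, nat_lit 393, nat_lit 374, nat_lit 0, nat_lit 463, nat_lit 0, nat_lit 0, nat_lit 0, nat_lit 0, nat_lit 0, nat_lit 0, [],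
 ⟨p019_k57, nat_lit 0, nat_lit 0, nat_lit 0, nat_lit 0, nat_lit 1378657, [nat_lit 2032000001, nat_lit 4688000000], [], [nat_lit 21926420600, nat_lit 21949237845, nat_lit 21995154800, nat_lit 22017920710], nat_lit 1271250, nat_lit 1271250, nat_lit 872850, nat_lit 904401, nat_lit 0, nat_lit 0, [nat_lit 490000, nat_lit 1100000], [nat_lit 24, nat_lit 40, nat_lit 80, nat_lit 80]⟩, ⟨p019_k70, nat_lit 0, nat_lit 0, nat_lit 0, nat_lit 0, nat_lit 0, [nat_lit 3282000000, nat_lit 4688000000], [], [nat_lit 12044321306, nat_lit 12082686490, nat_lit 12143378190, nat_lit 12182561680], nat_lit 0, nat_lit 0, nat_lit 0, nat_lit 0, nat_lit 0, nat_lit 0, [], [nat_lit 40, nat_lit 40, nat_lit 80, nat_lit 80]⟩,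
 zbF0, [⟨nat_lit 0, nat_lit 87, nat_lit 84, nat_lit 100, nat_lit 429580544⟩]⟩
noncomputable def p019_l185 : Lf2 := ⟨nat_lit 2, nat_lit 3, [nat_lit 45, nat_lit 5, nat_lit 5, nat_lit 20], true, nat_lit 0, nat_lit 0, nat_lit 0, nat_lit 0, zbN0,
 nat_lit 0, nat_lit 0, nat_lit 0, nat_lit 0, nat_lit 0, nat_lit 0, nat_lit 0, nat_lit 0, nat_lit 0, nat_lit 0, nat_lit 0, nat_lit 0, nat_lit 0, nat_lit 0, nat_lit 0, nat_lit 0, nat_lit 0, nat_lit 0, [],
 ⟨p019_k68, nat_lit 0, nat_lit 0, nat_lit 0, nat_lit 0, nat_lit 1378657, [], [], [], nat_lit 1271250, nat_lit 1271250, nat_lit 872850, nat_lit 904401, nat_lit 0, nat_lit 0, [nat_lit 490000, nat_lit 631250, nat_lit 936250, nat_lit 1100000], [nat_lit 150, nat_lit 40, nat_lit 20, nat_lit 40]⟩, C1.Rw.none,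
 zbF0, []⟩
noncomputable def p019_l186 : Lf2 := ⟨nat_lit 0, nat_lit 3, [nat_lit 45, nat_lit 5, nat_lit 5, nat_lit 20], false, nat_lit 0, nat_lit 0, nat_lit 0, nat_lit 0, ⟨nat_lit 1000, nat_lit 0, nat_lit 0, nat_lit 0, nat_lit 0, nat_lit 0, nat_lit 0, nat_lit 0, nat_lit 0, nat_lit 0, nat_lit 0, nat_lit 0, nat_lit 0, nat_lit 0, nat_lit 0, nat_lit 0, false, false⟩,
 nat_lit 0, nat_lit 0, nat_lit 0, nat_lit 0, nat_lit 0, nat_lit 0, nat_lit 0, nat_lit 0, nat_lit 393, nat_lit 374, nat_lit 0, nat_lit 463, nat_lit 0, nat_lit 0, nat_lit 0, nat_lit 0, nat_lit 0, nat_lit 0, [],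
 ⟨p019_k57, nat_lit 0, nat_lit 0, nat_lit 0, nat_lit 0, nat_lit 1378657, [nat_lit 2032000001, nat_lit 4688000000], [], [nat_lit 21995154800, nat_lit 22017920710, nat_lit 22063889000, nat_lit 22086603575], nat_lit 1271250, nat_lit 1271250, nat_lit 904401, nat_lit 936251, nat_lit 0, nat_lit 0, [nat_lit 490000, nat_lit 1100000], [nat_lit 24, nat_lit 40, nat_lit 80, nat_lit 80]⟩, ⟨p019_k70, nat_lit 0, nat_lit 0, nat_lit 0, nat_lit 0, nat_lit 0, [nat_lit 3282000000, nat_lit 4688000000], [], [nat_lit 12143378190, nat_lit 12182561680, nat_lit 12242435075, nat_lit 12284569400], nat_lit 0, nat_lit 0, nat_lit 0, nat_lit 0, nat_lit 0, nat_lit 0, [], [nat_lit 40, nat_lit 40, nat_lit 80, nat_lit 80]⟩,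
 zbF0, []⟩
noncomputable def p019_l187 : Lf2 := ⟨nat_lit 2, nat_lit 3, [nat_lit 45, nat_lit 5, nat_lit 5, nat_lit 20], true, nat_lit 0, nat_lit 0, nat_lit 0, nat_lit 0, zbN0,
 nat_lit 0, nat_lit 0, nat_lit 0, nat_lit 0, nat_lit 0, nat_lit 0, nat_lit 0, nat_lit 0, nat_lit 0, nat_lit 0, nat_lit 0, nat_lit 0, nat_lit 0, nat_lit 0, nat_lit 0, nat_lit 0, nat_lit 0, nat_lit 0, [],
 ⟨p019_k68, nat_lit 0, nat_lit 0, nat_lit 0, nat_lit 0, nat_lit 1378657, [], [], [], nat_lit 1271250, nat_lit 1271250, nat_lit 904401, nat_lit 936251, nat_lit 0, nat_lit 0, [nat_lit 490000, nat_lit 631250, nat_lit 936250, nat_lit 1100000], [nat_lit 150, nat_lit 40, nat_lit 20, nat_lit 40]⟩, C1.Rw.none,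
 zbF0, []⟩
noncomputable def p019_l188 : Lf2 := ⟨nat_lit 0, nat_lit 3, [nat_lit 45, nat_lit 5, nat_lit 5, nat_lit 20], false, nat_lit 0, nat_lit 0, nat_lit 0, nat_lit 0, ⟨nat_lit 1000, nat_lit 0, nat_lit 0, nat_lit 0, nat_lit 0, nat_lit 0, nat_lit 0, nat_lit 0, nat_lit 0, nat_lit 0, nat_lit 0, nat_lit 0, nat_lit 0, nat_lit 0, nat_lit 0, nat_lit 0, false, false⟩,
 nat_lit 0, nat_lit 1670, nat_lit 0, nat_lit 0, nat_lit 1257, nat_lit 0, nat_lit 0, nat_lit 0, nat_lit 387, nat_lit 374, nat_lit 0, nat_lit 463, nat_lit 0, nat_lit 0, nat_lit 0, nat_lit 0, nat_lit 0, nat_lit 0, [],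
 ⟨p019_k69, nat_lit 0, nat_lit 0, nat_lit 0, nat_lit 0, nat_lit 1378163, [nat_lit 2032000001, nat_lit 4688000000], [], [nat_lit 16415136830, nat_lit 16439619724, nat_lit 16466986916, nat_lit 16493192369], nat_lit 1271250, nat_lit 1271250, nat_lit 904401, nat_lit 936251, nat_lit 0, nat_lit 0, [nat_lit 490000, nat_lit 1100000], [nat_lit 24, nat_lit 40, nat_lit 80, nat_lit 80]⟩, ⟨p019_k70, nat_lit 0, nat_lit 0, nat_lit 0, nat_lit 0, nat_lit 0, [nat_lit 3282000000, nat_lit 4688000000], [], [nat_lit 12143378190, nat_lit 12182561680, nat_lit 12242435075, nat_lit 12284569400], nat_lit 0, nat_lit 0, nat_lit 0, nat_lit 0, nat_lit 0, nat_lit 0, [], [nat_lit 40, nat_lit 40, nat_lit 80, nat_lit 80]⟩,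
 zbF0, [⟨nat_lit 0, nat_lit 87, nat_lit 84, nat_lit 100, nat_lit 446765262⟩]⟩
noncomputable def p019_l189 : Lf2 := ⟨nat_lit 0, nat_lit 3, [nat_lit 45, nat_lit 5, nat_lit 5, nat_lit 20], false, nat_lit 0, nat_lit 0, nat_lit 0, nat_lit 0, ⟨nat_lit 1000, nat_lit 0, nat_lit 0, nat_lit 0, nat_lit 0, nat_lit 0, nat_lit 0, nat_lit 0, nat_lit 0, nat_lit 0, nat_lit 0, nat_lit 0, nat_lit 0, nat_lit 0, nat_lit 0, nat_lit 0, false, false⟩,
 nat_lit 0, nat_lit 1668, nat_lit 0, nat_lit 0, nat_lit 1250, nat_lit 0, nat_lit 0, nat_lit 0, nat_lit 387, nat_lit 373, nat_lit 0, nat_lit 463, nat_lit 0, nat_lit 0, nat_lit 0, nat_lit 0, nat_lit 0, nat_lit 0, [],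
 ⟨p019_k57, nat_lit 0, nat_lit 0, nat_lit 0, nat_lit 0, nat_lit 1385363, [nat_lit 2032000001, nat_lit 4688000000], [], [nat_lit 16480866500, nat_lit 16528209776, nat_lit 16744990000, nat_lit 16796492300], nat_lit 1271250, nat_lit 1271250, nat_lit 936251, nat_lit 1100001, nat_lit 0, nat_lit 0, [nat_lit 490000, nat_lit 1100000], [nat_lit 24, nat_lit 40, nat_lit 80, nat_lit 80]⟩, ⟨p019_k70, nat_lit 0, nat_lit 0, nat_lit 0, nat_lit 0, nat_lit 0, [nat_lit 3282000000, nat_lit 4688000000], [], [nat_lit 12243071175, nat_lit 12284569400, nat_lit 12751256000, nat_lit 12794608000], nat_lit 0, nat_lit 0, nat_lit 0, nat_lit 0, nat_lit 0, nat_lit 0, [], [nat_lit 40, nat_lit 40, nat_lit 80, nat_lit 80]⟩,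
 zbF0, []⟩
noncomputable def p019_l190 : Lf2 := ⟨nat_lit 0, nat_lit 3, [nat_lit 45, nat_lit 5, nat_lit 5, nat_lit 20], false, nat_lit 0, nat_lit 0, nat_lit 0, nat_lit 0, ⟨nat_lit 1000, nat_lit 0, nat_lit 0, nat_lit 0, nat_lit 0, nat_lit 0, nat_lit 0, nat_lit 0, nat_lit 0, nat_lit 0, nat_lit 0, nat_lit 0, nat_lit 0, nat_lit 0, nat_lit 0, nat_lit 0, false, false⟩,
 nat_lit 0, nat_lit 1638, nat_lit 0, nat_lit 0, nat_lit 1228, nat_lit 0, nat_lit 0, nat_lit 0, nat_lit 389, nat_lit 362, nat_lit 0, nat_lit 463, nat_lit 0, nat_lit 0, nat_lit 0, nat_lit 0, nat_lit 0, nat_lit 0, [],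
 ⟨p019_k57, nat_lit 0, nat_lit 0, nat_lit 0, nat_lit 0, nat_lit 1393967, [nat_lit 2032000001, nat_lit 4688000000], [], [nat_lit 16307921897, nat_lit 16360344417, nat_lit 16632478432, nat_lit 16683864810], nat_lit 1271250, nat_lit 1271250, nat_lit 904401, nat_lit 1100001, nat_lit 0, nat_lit 0, [nat_lit 490000, nat_lit 1100000], [nat_lit 24, nat_lit 40, nat_lit 80, nat_lit 80]⟩, ⟨p019_k71, nat_lit 0, nat_lit 0, nat_lit 0, nat_lit 0, nat_lit 0, [nat_lit 3282000000, nat_lit 4688000000], [], [nat_lit 12182561680, nat_lit 12226815000, nat_lit 12794608000, nat_lit 12837960000], nat_lit 0, nat_lit 0, nat_lit 0, nat_lit 0, nat_lit 0, nat_lit 0, [], [nat_lit 40, nat_lit 40, nat_lit 80, nat_lit 80]⟩,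
 zbF0, [⟨nat_lit 0, nat_lit 86, nat_lit 84, nat_lit 100, nat_lit 438023702⟩]⟩
noncomputable def p019_l191 : Lf2 := ⟨nat_lit 0, nat_lit 3, [nat_lit 45, nat_lit 5, nat_lit 5, nat_lit 20], false, nat_lit 0, nat_lit 0, nat_lit 0, nat_lit 0, ⟨nat_lit 1000, nat_lit 0, nat_lit 0, nat_lit 0, nat_lit 0, nat_lit 0, nat_lit 0, nat_lit 0, nat_lit 0, nat_lit 0, nat_lit 0, nat_lit 0, nat_lit 0, nat_lit 0, nat_lit 0, nat_lit 0, false, false⟩,
 nat_lit 0, nat_lit 21583, nat_lit 0, nat_lit 0, nat_lit 16187, nat_lit 0, nat_lit 0, nat_lit 0, nat_lit 0, nat_lit 410, nat_lit 0, nat_lit 463, nat_lit 0, nat_lit 0, nat_lit 0, nat_lit 0, nat_lit 20217463039, nat_lit 0, [],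
 ⟨p019_k57, nat_lit 0, nat_lit 0, nat_lit 620, nat_lit 0, nat_lit 1393967, [nat_lit 2032000001, nat_lit 4688000000], [], [nat_lit 891273633, nat_lit 998402839, nat_lit 0, nat_lit 118169028], nat_lit 1271250, nat_lit 1271250, nat_lit 872850, nat_lit 1100001, nat_lit 0, nat_lit 0, [nat_lit 490000, nat_lit 1100000], [nat_lit 24, nat_lit 40, nat_lit 80, nat_lit 80, nat_lit 33, nat_lit 249, nat_lit 40, nat_lit 11]⟩, ⟨p019_k66, nat_lit 0, nat_lit 0, nat_lit 0, nat_lit 0, nat_lit 0, [nat_lit 3282000000, nat_lit 4688000000], [], [nat_lit 11933303350, nat_lit 12124957500, nat_lit 12625490000, nat_lit 12837960000], nat_lit 0, nat_lit 0, nat_lit 0, nat_lit 0, nat_lit 0, nat_lit 0, [], [nat_lit 40, nat_lit 40, nat_lit 80, nat_lit 80]⟩,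
 zbF0, [⟨nat_lit 0, nat_lit 86, nat_lit 83, nat_lit 100, nat_lit 759571660⟩]⟩
noncomputable def p019_l192 : Lf2 := ⟨nat_lit 0, nat_lit 3, [nat_lit 45, nat_lit 5, nat_lit 5, nat_lit 20], false, nat_lit 0, nat_lit 0, nat_lit 0, nat_lit 0, ⟨nat_lit 1000, nat_lit 0, nat_lit 0, nat_lit 0, nat_lit 0, nat_lit 0, nat_lit 0, nat_lit 0, nat_lit 0, nat_lit 0, nat_lit 0, nat_lit 0, nat_lit 0, nat_lit 0, nat_lit 0, nat_lit 0, false, false⟩,
 nat_lit 0, nat_lit 1598, nat_lit 0, nat_lit 0, nat_lit 1198, nat_lit 0, nat_lit 0, nat_lit 0, nat_lit 390, nat_lit 352, nat_lit 0, nat_lit 463, nat_lit 0, nat_lit 0, nat_lit 0, nat_lit 0, nat_lit 0, nat_lit 0, [],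
 ⟨p019_k57, nat_lit 0, nat_lit 0, nat_lit 0, nat_lit 0, nat_lit 1437904, [nat_lit 2032000001, nat_lit 4688000000], [], [nat_lit 16345805437, nat_lit 16398059618, nat_lit 16672508112, nat_lit 16723736414], nat_lit 1271250, nat_lit 1271250, nat_lit 904401, nat_lit 1100001, nat_lit 0, nat_lit 0, [nat_lit 490000, nat_lit 1100000], [nat_lit 24, nat_lit 40, nat_lit 80, nat_lit 80]⟩, ⟨p019_k72, nat_lit 0, nat_lit 0, nat_lit 0, nat_lit 0, nat_lit 0, [nat_lit 3282000000, nat_lit 4688000000], [], [nat_lit 12226815000, nat_lit 12448081600, nat_lit 12837960000, nat_lit 13054720000], nat_lit 0, nat_lit 0, nat_lit 0, nat_lit 0, nat_lit 0, nat_lit 0, [], [nat_lit 40, nat_lit 40, nat_lit 80, nat_lit 80]⟩,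
 zbF0, [⟨nat_lit 0, nat_lit 86, nat_lit 84, nat_lit 100, nat_lit 436757946⟩]⟩
noncomputable def p019_l193 : Lf2 := ⟨nat_lit 2, nat_lit 3, [nat_lit 45, nat_lit 5, nat_lit 5, nat_lit 20], true, nat_lit 0, nat_lit 0, nat_lit 0, nat_lit 0, zbN0,
 nat_lit 0, nat_lit 0, nat_lit 0, nat_lit 0, nat_lit 0, nat_lit 0, nat_lit 0, nat_lit 0, nat_lit 0, nat_lit 0, nat_lit 0, nat_lit 0, nat_lit 0, nat_lit 0, nat_lit 0, nat_lit 0, nat_lit 0, nat_lit 0, [],
 ⟨p019_k73, nat_lit 0, nat_lit 0, nat_lit 644, nat_lit 0, nat_lit 1437904, [], [], [], nat_lit 1271250, nat_lit 1271250, nat_lit 904401, nat_lit 1100001, nat_lit 0, nat_lit 0, [nat_lit 490000, nat_lit 780000, nat_lit 1100000], [nat_lit 78, nat_lit 40, nat_lit 80, nat_lit 80, nat_lit 22, nat_lit 249, nat_lit 40, nat_lit 11]⟩, C1.Rw.none,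
 zbF0, []⟩
noncomputable def b_N_800_700_0_5 : St := ⟨false, nat_lit 1, nat_lit 0, nat_lit 1, nat_lit 40, nat_lit 320, nat_lit 322, nat_lit 310, nat_lit 320, nat_lit 132, nat_lit 160, nat_lit 0, nat_lit 0, nat_lit 0, nat_lit 0, nat_lit 0, nat_lit 0, nat_lit 8, nat_lit 12, nat_lit 1060, nat_lit 0, nat_lit 100, nat_lit 140⟩
theorem d_N_800_700_0_5 (h : EB TB.env) : Dead b_N_800_700_0_5 := chkB_sound0 h (T :=
(.spl (nat_lit 1) (nat_lit 315)
(.spl (nat_lit 7) (nat_lit 1220)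
(.spl (nat_lit 1) (nat_lit 313)
(.spl (nat_lit 2) (nat_lit 140)
(.spl (nat_lit 0) (nat_lit 321)
(.spl (nat_lit 1) (nat_lit 312)
(.leaf p019_l176)
(.spl (nat_lit 2) (nat_lit 136)
(.spl (nat_lit 7) (nat_lit 1140)
(.leaf p019_l177)
(.leaf p019_l178))
(.spl (nat_lit 7) (nat_lit 1140)
(.leaf p019_l179)
(.leaf p019_l180))))
(.leaf p019_l181))
(.leaf p019_l182))
(.spl (nat_lit 1) (nat_lit 314)
(.spl (nat_lit 2) (nat_lit 140)
(.spl (nat_lit 0) (nat_lit 321)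
(.spl (nat_lit 2) (nat_lit 136)
(.spl (nat_lit 8) (nat_lit 120)
(.leaf p019_l183)
(.spl (nat_lit 7) (nat_lit 1140)
(.leaf p019_l184)
(.leaf p019_l185)))
(.spl (nat_lit 7) (nat_lit 1140)
(.leaf p019_l186)
(.leaf p019_l187)))
(.trZ (nat_lit 0) (nat_lit 87) (nat_lit 84) (nat_lit 100) (nat_lit 136) (.leaf p019_l188)))
(.leaf p019_l189))
(.trZ (nat_lit 0) (nat_lit 87) (nat_lit 84) (nat_lit 100) (nat_lit 136) (.leaf p019_l190))))
(.leaf p019_l191))
(.trZ (nat_lit 0) (nat_lit 86) (nat_lit 84) (nat_lit 100) (nat_lit 136) (.spl (nat_lit 7) (nat_lit 1220)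
(.leaf p019_l192)
(.leaf p019_l193))))) (by decide +kernel)
noncomputable def p019_l194 : Lf2 := ⟨nat_lit 0, nat_lit 3, [nat_lit 45, nat_lit 5, nat_lit 5, nat_lit 20], false, nat_lit 0, nat_lit 0, nat_lit 0, nat_lit 0, ⟨nat_lit 1000, nat_lit 0, nat_lit 0, nat_lit 0, nat_lit 0, nat_lit 0, nat_lit 0, nat_lit 0, nat_lit 0, nat_lit 0, nat_lit 0, nat_lit 0, nat_lit 0, nat_lit 0, nat_lit 0, nat_lit 0, false, false⟩,
 nat_lit 0, nat_lit 8882, nat_lit 0, nat_lit 0, nat_lit 6661, nat_lit 5625, nat_lit 0, nat_lit 0, nat_lit 0, nat_lit 1508, nat_lit 0, nat_lit 0, nat_lit 0, nat_lit 0, nat_lit 0, nat_lit 0, nat_lit 0, nat_lit 0, [],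
 ⟨p019_k57, nat_lit 0, nat_lit 0, nat_lit 0, nat_lit 0, nat_lit 1361459, [nat_lit 2032000001, nat_lit 4688000000], [], [nat_lit 32749314590, nat_lit 32785096748, nat_lit 32722566610, nat_lit 32762541071], nat_lit 1271250, nat_lit 1271250, nat_lit 872850, nat_lit 936251, nat_lit 0, nat_lit 0, [nat_lit 490000, nat_lit 1100000], [nat_lit 24, nat_lit 40, nat_lit 80, nat_lit 80]⟩, ⟨p019_k66, nat_lit 0, nat_lit 0, nat_lit 0, nat_lit 0, nat_lit 0, [nat_lit 3282000000, nat_lit 4688000000], [], [nat_lit 17657939600, nat_lit 17869199995, nat_lit 17743687250, nat_lit 17931327100], nat_lit 0, nat_lit 0, nat_lit 0, nat_lit 0, nat_lit 0, nat_lit 0, [], [nat_lit 40, nat_lit 40, nat_lit 80, nat_lit 80]⟩,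
 zbF0, [⟨nat_lit 0, nat_lit 87, nat_lit 84, nat_lit 100, nat_lit 678049452⟩]⟩
noncomputable def p019_l195 : Lf2 := ⟨nat_lit 0, nat_lit 3, [nat_lit 45, nat_lit 5, nat_lit 5, nat_lit 20], false, nat_lit 0, nat_lit 0, nat_lit 0, nat_lit 0, ⟨nat_lit 1000, nat_lit 0, nat_lit 0, nat_lit 0, nat_lit 0, nat_lit 0, nat_lit 0, nat_lit 0, nat_lit 0, nat_lit 0, nat_lit 0, nat_lit 0, nat_lit 0, nat_lit 0, nat_lit 0, nat_lit 0, false, false⟩,
 nat_lit 0, nat_lit 8832, nat_lit 0, nat_lit 0, nat_lit 6649, nat_lit 5625, nat_lit 0, nat_lit 0, nat_lit 0, nat_lit 1508, nat_lit 0, nat_lit 0, nat_lit 0, nat_lit 0, nat_lit 0, nat_lit 0, nat_lit 0, nat_lit 0, [],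
 ⟨p019_k69, nat_lit 0, nat_lit 0, nat_lit 0, nat_lit 0, nat_lit 1361114, [nat_lit 2032000001, nat_lit 4688000000], [], [nat_lit 32856161582, nat_lit 32891917637, nat_lit 32829282947, nat_lit 32864624819], nat_lit 1271250, nat_lit 1271250, nat_lit 872850, nat_lit 936251, nat_lit 0, nat_lit 0, [nat_lit 490000, nat_lit 1100000], [nat_lit 24, nat_lit 40, nat_lit 80, nat_lit 80]⟩, ⟨p019_k66, nat_lit 0, nat_lit 0, nat_lit 0, nat_lit 0, nat_lit 0, [nat_lit 3282000000, nat_lit 4688000000], [], [nat_lit 17657939600, nat_lit 17869199995, nat_lit 17743687250, nat_lit 17931327100], nat_lit 0, nat_lit 0, nat_lit 0, nat_lit 0, nat_lit 0, nat_lit 0, [], [nat_lit 40, nat_lit 40, nat_lit 80, nat_lit 80]⟩,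
 zbF0, [⟨nat_lit 0, nat_lit 87, nat_lit 83, nat_lit 100, nat_lit 689995017⟩]⟩
noncomputable def p019_l196 : Lf2 := ⟨nat_lit 0, nat_lit 3, [nat_lit 45, nat_lit 5, nat_lit 5, nat_lit 20], false, nat_lit 0, nat_lit 0, nat_lit 0, nat_lit 0, ⟨nat_lit 1000, nat_lit 0, nat_lit 0, nat_lit 0, nat_lit 0, nat_lit 0, nat_lit 0, nat_lit 0, nat_lit 0, nat_lit 0, nat_lit 0, nat_lit 0, nat_lit 0, nat_lit 0, nat_lit 0, nat_lit 0, false, false⟩,
 nat_lit 0, nat_lit 0, nat_lit 0, nat_lit 0, nat_lit 0, nat_lit 5625, nat_lit 0, nat_lit 0, nat_lit 393, nat_lit 1412, nat_lit 0, nat_lit 0, nat_lit 0, nat_lit 0, nat_lit 0, nat_lit 0, nat_lit 0, nat_lit 0, [],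
 ⟨p019_k57, nat_lit 0, nat_lit 0, nat_lit 0, nat_lit 0, nat_lit 1370048, [nat_lit 2032000001, nat_lit 4688000000], [], [nat_lit 21926420600, nat_lit 21949237845, nat_lit 22063889000, nat_lit 22086603575], nat_lit 1271250, nat_lit 1271250, nat_lit 872850, nat_lit 936251, nat_lit 0, nat_lit 0, [nat_lit 490000, nat_lit 1100000], [nat_lit 24, nat_lit 40, nat_lit 80, nat_lit 80]⟩, ⟨p019_k67, nat_lit 0, nat_lit 0, nat_lit 0, nat_lit 0, nat_lit 0, [nat_lit 3282000000, nat_lit 4688000000], [], [nat_lit 17869212495, nat_lit 17978251050, nat_lit 17931339600, nat_lit 18042695200], nat_lit 0, nat_lit 0, nat_lit 0, nat_lit 0, nat_lit 0, nat_lit 0, [], [nat_lit 40, nat_lit 40, nat_lit 80, nat_lit 80]⟩,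
 zbF0, [⟨nat_lit 0, nat_lit 88, nat_lit 85, nat_lit 100, nat_lit 530226263⟩]⟩
noncomputable def p019_l197 : Lf2 := ⟨nat_lit 2, nat_lit 3, [nat_lit 45, nat_lit 5, nat_lit 5, nat_lit 20], true, nat_lit 0, nat_lit 0, nat_lit 0, nat_lit 0, zbN0,
 nat_lit 0, nat_lit 0, nat_lit 0, nat_lit 0, nat_lit 0, nat_lit 0, nat_lit 0, nat_lit 0, nat_lit 0, nat_lit 0, nat_lit 0, nat_lit 0, nat_lit 0, nat_lit 0, nat_lit 0, nat_lit 0, nat_lit 0, nat_lit 0, [],
 ⟨p019_k68, nat_lit 0, nat_lit 0, nat_lit 0, nat_lit 0, nat_lit 1370048, [], [], [], nat_lit 1271250, nat_lit 1271250, nat_lit 872850, nat_lit 936251, nat_lit 0, nat_lit 0, [nat_lit 490000, nat_lit 631250, nat_lit 936250, nat_lit 1100000], [nat_lit 150, nat_lit 40, nat_lit 20, nat_lit 40]⟩, C1.Rw.none,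
 zbF0, []⟩
noncomputable def p019_l198 : Lf2 := ⟨nat_lit 0, nat_lit 3, [nat_lit 45, nat_lit 5, nat_lit 5, nat_lit 20], false, nat_lit 0, nat_lit 0, nat_lit 0, nat_lit 0, ⟨nat_lit 1000, nat_lit 0, nat_lit 0, nat_lit 0, nat_lit 0, nat_lit 0, nat_lit 0, nat_lit 0, nat_lit 0, nat_lit 0, nat_lit 0, nat_lit 0, nat_lit 0, nat_lit 0, nat_lit 0, nat_lit 0, false, false⟩,
 nat_lit 0, nat_lit 0, nat_lit 0, nat_lit 0, nat_lit 0, nat_lit 5614, nat_lit 0, nat_lit 0, nat_lit 393, nat_lit 1414, nat_lit 0, nat_lit 0, nat_lit 0, nat_lit 0, nat_lit 0, nat_lit 0, nat_lit 0, nat_lit 0, [],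
 ⟨p019_k69, nat_lit 0, nat_lit 0, nat_lit 0, nat_lit 0, nat_lit 1369628, [nat_lit 2032000001, nat_lit 4688000000], [], [nat_lit 21949237845, nat_lit 21972055090, nat_lit 22017920710, nat_lit 22040686620], nat_lit 1271250, nat_lit 1271250, nat_lit 872850, nat_lit 904401, nat_lit 0, nat_lit 0, [nat_lit 490000, nat_lit 1100000], [nat_lit 24, nat_lit 40, nat_lit 80, nat_lit 80]⟩, ⟨p019_k67, nat_lit 0, nat_lit 0, nat_lit 0, nat_lit 0, nat_lit 0, [nat_lit 3282000000, nat_lit 4688000000], [], [nat_lit 17866127550, nat_lit 17977442262, nat_lit 17897557622, nat_lit 18009799902], nat_lit 0, nat_lit 0, nat_lit 0, nat_lit 0, nat_lit 0, nat_lit 0, [], [nat_lit 40, nat_lit 40, nat_lit 80, nat_lit 80]⟩,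
 zbF0, [⟨nat_lit 0, nat_lit 87, nat_lit 84, nat_lit 100, nat_lit 546436745⟩]⟩
noncomputable def p019_l199 : Lf2 := ⟨nat_lit 2, nat_lit 3, [nat_lit 45, nat_lit 5, nat_lit 5, nat_lit 20], true, nat_lit 0, nat_lit 0, nat_lit 0, nat_lit 0, zbN0,
 nat_lit 0, nat_lit 0, nat_lit 0, nat_lit 0, nat_lit 0, nat_lit 0, nat_lit 0, nat_lit 0, nat_lit 0, nat_lit 0, nat_lit 0, nat_lit 0, nat_lit 0, nat_lit 0, nat_lit 0, nat_lit 0, nat_lit 0, nat_lit 0, [],
 ⟨p019_k74, nat_lit 0, nat_lit 0, nat_lit 0, nat_lit 0, nat_lit 1369628, [], [], [], nat_lit 1271250, nat_lit 1271250, nat_lit 872850, nat_lit 904401, nat_lit 0, nat_lit 0, [nat_lit 490000, nat_lit 631250, nat_lit 936250, nat_lit 1100000], [nat_lit 150, nat_lit 40, nat_lit 20, nat_lit 40]⟩, C1.Rw.none,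
 zbF0, []⟩
noncomputable def p019_l200 : Lf2 := ⟨nat_lit 0, nat_lit 3, [nat_lit 45, nat_lit 5, nat_lit 5, nat_lit 20], false, nat_lit 0, nat_lit 0, nat_lit 0, nat_lit 0, ⟨nat_lit 1000, nat_lit 0, nat_lit 0, nat_lit 0, nat_lit 0, nat_lit 0, nat_lit 0, nat_lit 0, nat_lit 0, nat_lit 0, nat_lit 0, nat_lit 0, nat_lit 0, nat_lit 0, nat_lit 0, nat_lit 0, false, false⟩,
 nat_lit 0, nat_lit 0, nat_lit 0, nat_lit 0, nat_lit 0, nat_lit 5614, nat_lit 0, nat_lit 0, nat_lit 393, nat_lit 1414, nat_lit 0, nat_lit 0, nat_lit 0, nat_lit 0, nat_lit 0, nat_lit 0, nat_lit 0, nat_lit 0, [],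
 ⟨p019_k69, nat_lit 0, nat_lit 0, nat_lit 0, nat_lit 0, nat_lit 1369628, [nat_lit 2032000001, nat_lit 4688000000], [], [nat_lit 22017920710, nat_lit 22040686620, nat_lit 22086603575, nat_lit 22109318150], nat_lit 1271250, nat_lit 1271250, nat_lit 904401, nat_lit 936251, nat_lit 0, nat_lit 0, [nat_lit 490000, nat_lit 1100000], [nat_lit 24, nat_lit 40, nat_lit 80, nat_lit 80]⟩, ⟨p019_k67, nat_lit 0, nat_lit 0, nat_lit 0, nat_lit 0, nat_lit 0, [nat_lit 3282000000, nat_lit 4688000000], [], [nat_lit 17897557622, nat_lit 18009799902, nat_lit 17939382891, nat_lit 18042157542], nat_lit 0, nat_lit 0, nat_lit 0, nat_lit 0, nat_lit 0, nat_lit 0, [], [nat_lit 40, nat_lit 40, nat_lit 80, nat_lit 80]⟩,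
 zbF0, [⟨nat_lit 0, nat_lit 87, nat_lit 84, nat_lit 100, nat_lit 265325377⟩]⟩
noncomputable def p019_l201 : Lf2 := ⟨nat_lit 2, nat_lit 3, [nat_lit 45, nat_lit 5, nat_lit 5, nat_lit 20], true, nat_lit 0, nat_lit 0, nat_lit 0, nat_lit 0, zbN0,
 nat_lit 0, nat_lit 0, nat_lit 0, nat_lit 0, nat_lit 0, nat_lit 0, nat_lit 0, nat_lit 0, nat_lit 0, nat_lit 0, nat_lit 0, nat_lit 0, nat_lit 0, nat_lit 0, nat_lit 0, nat_lit 0, nat_lit 0, nat_lit 0, [],
 ⟨p019_k74, nat_lit 0, nat_lit 0, nat_lit 0, nat_lit 0, nat_lit 1369628, [], [], [], nat_lit 1271250, nat_lit 1271250, nat_lit 904401, nat_lit 936251, nat_lit 0, nat_lit 0, [nat_lit 490000, nat_lit 631250, nat_lit 936250, nat_lit 1100000], [nat_lit 150, nat_lit 40, nat_lit 20, nat_lit 40]⟩, C1.Rw.none,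
 zbF0, []⟩
noncomputable def p019_l202 : Lf2 := ⟨nat_lit 0, nat_lit 3, [nat_lit 45, nat_lit 5, nat_lit 5, nat_lit 20], false, nat_lit 0, nat_lit 0, nat_lit 0, nat_lit 0, ⟨nat_lit 1000, nat_lit 0, nat_lit 0, nat_lit 0, nat_lit 0, nat_lit 0, nat_lit 0, nat_lit 0, nat_lit 0, nat_lit 0, nat_lit 0, nat_lit 0, nat_lit 0, nat_lit 0, nat_lit 0, nat_lit 0, false, false⟩,
 nat_lit 0, nat_lit 8875, nat_lit 0, nat_lit 0, nat_lit 6656, nat_lit 5614, nat_lit 0, nat_lit 0, nat_lit 0, nat_lit 1504, nat_lit 0, nat_lit 0, nat_lit 0, nat_lit 0, nat_lit 0, nat_lit 0, nat_lit 0, nat_lit 0, [],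
 ⟨p019_k57, nat_lit 0, nat_lit 0, nat_lit 0, nat_lit 0, nat_lit 1370048, [nat_lit 2032000001, nat_lit 4688000000], [], [nat_lit 32752305970, nat_lit 32787662729, nat_lit 32693241664, nat_lit 32733235462], nat_lit 1271250, nat_lit 1271250, nat_lit 936251, nat_lit 1100001, nat_lit 0, nat_lit 0, [nat_lit 490000, nat_lit 1100000], [nat_lit 24, nat_lit 40, nat_lit 80, nat_lit 80]⟩, ⟨p019_k66, nat_lit 0, nat_lit 0, nat_lit 0, nat_lit 0, nat_lit 0, [nat_lit 3282000000, nat_lit 4688000000], [], [nat_lit 17760697362, nat_lit 18042157542, nat_lit 17975598722, nat_lit 18248061371], nat_lit 0, nat_lit 0, nat_lit 0, nat_lit 0, nat_lit 0, nat_lit 0, [], [nat_lit 40, nat_lit 40, nat_lit 80, nat_lit 80]⟩,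
 zbF0, []⟩
noncomputable def p019_l203 : Lf2 := ⟨nat_lit 0, nat_lit 3, [nat_lit 45, nat_lit 5, nat_lit 5, nat_lit 20], false, nat_lit 0, nat_lit 0, nat_lit 0, nat_lit 0, ⟨nat_lit 1000, nat_lit 0, nat_lit 0, nat_lit 0, nat_lit 0, nat_lit 0, nat_lit 0, nat_lit 0, nat_lit 0, nat_lit 0, nat_lit 0, nat_lit 0, nat_lit 0, nat_lit 0, nat_lit 0, nat_lit 0, false, false⟩,
 nat_lit 0, nat_lit 8832, nat_lit 0, nat_lit 0, nat_lit 6649, nat_lit 5614, nat_lit 0, nat_lit 0, nat_lit 0, nat_lit 1504, nat_lit 0, nat_lit 0, nat_lit 0, nat_lit 0, nat_lit 0, nat_lit 0, nat_lit 0, nat_lit 0, [],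
 ⟨p019_k69, nat_lit 0, nat_lit 0, nat_lit 0, nat_lit 0, nat_lit 1369628, [nat_lit 2032000001, nat_lit 4688000000], [], [nat_lit 32829282947, nat_lit 32864624819, nat_lit 32768690612, nat_lit 32808665967], nat_lit 1271250, nat_lit 1271250, nat_lit 936251, nat_lit 1100001, nat_lit 0, nat_lit 0, [nat_lit 490000, nat_lit 1100000], [nat_lit 24, nat_lit 40, nat_lit 80, nat_lit 80]⟩, ⟨p019_k66, nat_lit 0, nat_lit 0, nat_lit 0, nat_lit 0, nat_lit 0, [nat_lit 3282000000, nat_lit 4688000000], [], [nat_lit 17760697362, nat_lit 18042157542, nat_lit 17975598722, nat_lit 18248061371], nat_lit 0, nat_lit 0, nat_lit 0, nat_lit 0, nat_lit 0, nat_lit 0, [], [nat_lit 40, nat_lit 40, nat_lit 80, nat_lit 80]⟩,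
 zbF0, []⟩
noncomputable def p019_l204 : Lf2 := ⟨nat_lit 0, nat_lit 3, [nat_lit 45, nat_lit 5, nat_lit 5, nat_lit 20], false, nat_lit 0, nat_lit 0, nat_lit 0, nat_lit 0, ⟨nat_lit 1000, nat_lit 0, nat_lit 0, nat_lit 0, nat_lit 0, nat_lit 0, nat_lit 0, nat_lit 0, nat_lit 0, nat_lit 0, nat_lit 0, nat_lit 0, nat_lit 0, nat_lit 0, nat_lit 0, nat_lit 0, false, false⟩,
 nat_lit 0, nat_lit 0, nat_lit 0, nat_lit 0, nat_lit 0, nat_lit 5614, nat_lit 0, nat_lit 0, nat_lit 393, nat_lit 1366, nat_lit 0, nat_lit 0, nat_lit 0, nat_lit 0, nat_lit 0, nat_lit 0, nat_lit 0, nat_lit 0, [],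
 ⟨p019_k57, nat_lit 0, nat_lit 0, nat_lit 0, nat_lit 0, nat_lit 1387288, [nat_lit 2032000001, nat_lit 4688000000], [], [nat_lit 21926420600, nat_lit 21949237845, nat_lit 22063889000, nat_lit 22086603575], nat_lit 1271250, nat_lit 1271250, nat_lit 872850, nat_lit 936251, nat_lit 0, nat_lit 0, [nat_lit 490000, nat_lit 1100000], [nat_lit 24, nat_lit 40, nat_lit 80, nat_lit 80]⟩, ⟨p019_k70, nat_lit 0, nat_lit 0, nat_lit 0, nat_lit 0, nat_lit 0, [nat_lit 3282000000, nat_lit 4688000000], [], [nat_lit 17981489538, nat_lit 18204552087, nat_lit 18042157542, nat_lit 18266560058], nat_lit 0, nat_lit 0, nat_lit 0, nat_lit 0, nat_lit 0, nat_lit 0, [], [nat_lit 40, nat_lit 40, nat_lit 80, nat_lit 80]⟩,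
 zbF0, [⟨nat_lit 0, nat_lit 87, nat_lit 84, nat_lit 100, nat_lit 542625532⟩]⟩
noncomputable def p019_l205 : Lf2 := ⟨nat_lit 0, nat_lit 3, [nat_lit 45, nat_lit 5, nat_lit 5, nat_lit 20], true, nat_lit 0, nat_lit 0, nat_lit 0, nat_lit 0, ⟨nat_lit 0, nat_lit 0, nat_lit 1000, nat_lit 7, nat_lit 206, nat_lit 0, nat_lit 0, nat_lit 0, nat_lit 0, nat_lit 215, nat_lit 18950, nat_lit 247, nat_lit 52984083, nat_lit 0, nat_lit 0, nat_lit 2564424, false, false⟩,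
 nat_lit 0, nat_lit 100000, nat_lit 0, nat_lit 64628, nat_lit 75000, nat_lit 0, nat_lit 60000, nat_lit 20000, nat_lit 0, nat_lit 0, nat_lit 0, nat_lit 0, nat_lit 0, nat_lit 0, nat_lit 0, nat_lit 1000000, nat_lit 0, nat_lit 0, [(nat_lit 18, [(nat_lit 6, nat_lit 1000)])],
 ⟨p019_k68, nat_lit 0, nat_lit 0, nat_lit 0, nat_lit 0, nat_lit 1387288, [nat_lit 160697066667, nat_lit 200386000000, nat_lit 279434000000, nat_lit 318364800000], [], [nat_lit 1690161891201, nat_lit 1690472520281, nat_lit 1689177248001, nat_lit 1689482563401], nat_lit 1271250, nat_lit 1271250, nat_lit 872850, nat_lit 936251, nat_lit 0, nat_lit 0, [nat_lit 490000, nat_lit 631250, nat_lit 936250, nat_lit 1100000], [nat_lit 150, nat_lit 40, nat_lit 20, nat_lit 40]⟩, C1.Rw.none,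
 ⟨nat_lit 4444, nat_lit 4473, ⟨.ofNat (nat_lit 506286), .ofNat (nat_lit 519882), .ofNat (nat_lit 508443), .ofNat (nat_lit 522038), .ofNat (nat_lit 506629), .ofNat (nat_lit 520191), .ofNat (nat_lit 508787), .ofNat (nat_lit 522348)⟩, ⟨.ofNat (nat_lit 0), .ofNat (nat_lit 0), .ofNat (nat_lit 0), .ofNat (nat_lit 0), .ofNat (nat_lit 0), .ofNat (nat_lit 0), .ofNat (nat_lit 0), .ofNat (nat_lit 0)⟩⟩, [⟨nat_lit 0, nat_lit 86, nat_lit 84, nat_lit 100, nat_lit 13842746401⟩, ⟨nat_lit 0, nat_lit 86, nat_lit 84, nat_lit 100, nat_lit 13842746401⟩, ⟨nat_lit 0, nat_lit 87, nat_lit 84, nat_lit 100, nat_lit 13683634373⟩]⟩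
noncomputable def p019_l206 : Lf2 := ⟨nat_lit 0, nat_lit 3, [nat_lit 45, nat_lit 5, nat_lit 5, nat_lit 20], false, nat_lit 0, nat_lit 0, nat_lit 0, nat_lit 0, ⟨nat_lit 1000, nat_lit 0, nat_lit 0, nat_lit 0, nat_lit 0, nat_lit 0, nat_lit 0, nat_lit 0, nat_lit 0, nat_lit 0, nat_lit 0, nat_lit 0, nat_lit 0, nat_lit 0, nat_lit 0, nat_lit 0, false, false⟩,
 nat_lit 0, nat_lit 0, nat_lit 0, nat_lit 0, nat_lit 0, nat_lit 5602, nat_lit 0, nat_lit 0, nat_lit 392, nat_lit 1362, nat_lit 0, nat_lit 0, nat_lit 0, nat_lit 0, nat_lit 0, nat_lit 0, nat_lit 0, nat_lit 0, [],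
 ⟨p019_k57, nat_lit 0, nat_lit 0, nat_lit 0, nat_lit 0, nat_lit 1378657, [nat_lit 2032000001, nat_lit 4688000000], [], [nat_lit 22179324001, nat_lit 22201262076, nat_lit 22246328001, nat_lit 22268217941], nat_lit 1271250, nat_lit 1271250, nat_lit 936251, nat_lit 968401, nat_lit 0, nat_lit 0, [nat_lit 490000, nat_lit 1100000], [nat_lit 24, nat_lit 40, nat_lit 80, nat_lit 80]⟩, ⟨p019_k70, nat_lit 0, nat_lit 0, nat_lit 0, nat_lit 0, nat_lit 0, [nat_lit 3282000000, nat_lit 4688000000], [], [nat_lit 18060358309, nat_lit 18153945023, nat_lit 18101725118, nat_lit 18194735303], nat_lit 0, nat_lit 0, nat_lit 0, nat_lit 0, nat_lit 0, nat_lit 0, [], [nat_lit 40, nat_lit 40, nat_lit 80, nat_lit 80]⟩,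
 zbF0, []⟩
noncomputable def p019_l207 : Lf2 := ⟨nat_lit 2, nat_lit 3, [nat_lit 45, nat_lit 5, nat_lit 5, nat_lit 20], true, nat_lit 0, nat_lit 0, nat_lit 0, nat_lit 0, zbN0,
 nat_lit 0, nat_lit 0, nat_lit 0, nat_lit 0, nat_lit 0, nat_lit 0, nat_lit 0, nat_lit 0, nat_lit 0, nat_lit 0, nat_lit 0, nat_lit 0, nat_lit 0, nat_lit 0, nat_lit 0, nat_lit 0, nat_lit 0, nat_lit 0, [],
 ⟨p019_k68, nat_lit 0, nat_lit 0, nat_lit 0, nat_lit 0, nat_lit 1378657, [], [], [], nat_lit 1271250, nat_lit 1271250, nat_lit 936251, nat_lit 968401, nat_lit 0, nat_lit 0, [nat_lit 490000, nat_lit 631250, nat_lit 936250, nat_lit 1100000], [nat_lit 150, nat_lit 40, nat_lit 20, nat_lit 40]⟩, C1.Rw.none,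
 zbF0, []⟩
noncomputable def p019_l208 : Lf2 := ⟨nat_lit 0, nat_lit 3, [nat_lit 45, nat_lit 5, nat_lit 5, nat_lit 20], false, nat_lit 0, nat_lit 0, nat_lit 0, nat_lit 0, ⟨nat_lit 1000, nat_lit 0, nat_lit 0, nat_lit 0, nat_lit 0, nat_lit 0, nat_lit 0, nat_lit 0, nat_lit 0, nat_lit 0, nat_lit 0, nat_lit 0, nat_lit 0, nat_lit 0, nat_lit 0, nat_lit 0, false, false⟩,
 nat_lit 0, nat_lit 0, nat_lit 0, nat_lit 0, nat_lit 0, nat_lit 5591, nat_lit 0, nat_lit 0, nat_lit 392, nat_lit 1316, nat_lit 0, nat_lit 0, nat_lit 0, nat_lit 0, nat_lit 0, nat_lit 0, nat_lit 0, nat_lit 0, [],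
 ⟨p019_k57, nat_lit 0, nat_lit 0, nat_lit 0, nat_lit 0, nat_lit 1387288, [nat_lit 2032000001, nat_lit 4688000000], [], [nat_lit 22179324001, nat_lit 22201262076, nat_lit 22246328001, nat_lit 22268217941], nat_lit 1271250, nat_lit 1271250, nat_lit 936251, nat_lit 968401, nat_lit 0, nat_lit 0, [nat_lit 490000, nat_lit 1100000], [nat_lit 24, nat_lit 40, nat_lit 80, nat_lit 80]⟩, ⟨p019_k71, nat_lit 0, nat_lit 0, nat_lit 0, nat_lit 0, nat_lit 0, [nat_lit 3282000000, nat_lit 4688000000], [], [nat_lit 18171171493, nat_lit 18264852952, nat_lit 18212071785, nat_lit 18304971325], nat_lit 0, nat_lit 0, nat_lit 0, nat_lit 0, nat_lit 0, nat_lit 0, [], [nat_lit 40, nat_lit 40, nat_lit 80, nat_lit 80]⟩,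
 zbF0, []⟩
noncomputable def p019_l209 : Lf2 := ⟨nat_lit 2, nat_lit 3, [nat_lit 45, nat_lit 5, nat_lit 5, nat_lit 20], true, nat_lit 0, nat_lit 0, nat_lit 0, nat_lit 0, zbN0,
 nat_lit 0, nat_lit 0, nat_lit 0, nat_lit 0, nat_lit 0, nat_lit 0, nat_lit 0, nat_lit 0, nat_lit 0, nat_lit 0, nat_lit 0, nat_lit 0, nat_lit 0, nat_lit 0, nat_lit 0, nat_lit 0, nat_lit 0, nat_lit 0, [],
 ⟨p019_k68, nat_lit 0, nat_lit 0, nat_lit 0, nat_lit 0, nat_lit 1387288, [], [], [], nat_lit 1271250, nat_lit 1271250, nat_lit 936251, nat_lit 968401, nat_lit 0, nat_lit 0, [nat_lit 490000, nat_lit 631250, nat_lit 936250, nat_lit 1100000], [nat_lit 150, nat_lit 40, nat_lit 20, nat_lit 40]⟩, C1.Rw.none,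
 zbF0, []⟩
noncomputable def p019_l210 : Lf2 := ⟨nat_lit 0, nat_lit 3, [nat_lit 45, nat_lit 5, nat_lit 5, nat_lit 20], false, nat_lit 0, nat_lit 0, nat_lit 0, nat_lit 0, ⟨nat_lit 1000, nat_lit 0, nat_lit 0, nat_lit 0, nat_lit 0, nat_lit 0, nat_lit 0, nat_lit 0, nat_lit 0, nat_lit 0, nat_lit 0, nat_lit 0, nat_lit 0, nat_lit 0, nat_lit 0, nat_lit 0, false, false⟩,
 nat_lit 0, nat_lit 4028, nat_lit 0, nat_lit 0, nat_lit 3021, nat_lit 5602, nat_lit 0, nat_lit 0, nat_lit 307, nat_lit 1356, nat_lit 0, nat_lit 0, nat_lit 0, nat_lit 0, nat_lit 0, nat_lit 0, nat_lit 0, nat_lit 0, [],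
 ⟨p019_k57, nat_lit 0, nat_lit 0, nat_lit 0, nat_lit 0, nat_lit 1387288, [nat_lit 2032000001, nat_lit 4688000000], [], [nat_lit 16599311956, nat_lit 16630278838, nat_lit 16664741590, nat_lit 16695433545], nat_lit 1271250, nat_lit 1271250, nat_lit 968401, nat_lit 1033601, nat_lit 0, nat_lit 0, [nat_lit 490000, nat_lit 1100000], [nat_lit 24, nat_lit 40, nat_lit 80, nat_lit 80]⟩, ⟨p019_k70, nat_lit 0, nat_lit 0, nat_lit 0, nat_lit 0, nat_lit 0, [nat_lit 3282000000, nat_lit 4688000000], [], [nat_lit 18111137618, nat_lit 18297157988, nat_lit 18193871236, nat_lit 18377585490], nat_lit 0, nat_lit 0, nat_lit 0, nat_lit 0, nat_lit 0, nat_lit 0, [], [nat_lit 40, nat_lit 40, nat_lit 80, nat_lit 80]⟩,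
 zbF0, []⟩
noncomputable def p019_l211 : Lf2 := ⟨nat_lit 0, nat_lit 3, [nat_lit 45, nat_lit 5, nat_lit 5, nat_lit 20], false, nat_lit 0, nat_lit 0, nat_lit 0, nat_lit 0, ⟨nat_lit 1000, nat_lit 0, nat_lit 0, nat_lit 0, nat_lit 0, nat_lit 0, nat_lit 0, nat_lit 0, nat_lit 0, nat_lit 0, nat_lit 0, nat_lit 0, nat_lit 0, nat_lit 0, nat_lit 0, nat_lit 0, false, false⟩,
 nat_lit 0, nat_lit 4020, nat_lit 0, nat_lit 0, nat_lit 3014, nat_lit 5625, nat_lit 0, nat_lit 0, nat_lit 306, nat_lit 1352, nat_lit 0, nat_lit 0, nat_lit 0, nat_lit 0, nat_lit 0, nat_lit 0, nat_lit 0, nat_lit 0, [],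
 ⟨p019_k57, nat_lit 0, nat_lit 0, nat_lit 0, nat_lit 0, nat_lit 1387288, [nat_lit 2032000001, nat_lit 4688000000], [], [nat_lit 16820367848, nat_lit 16846954724, nat_lit 16877644816, nat_lit 16908043401], nat_lit 1271250, nat_lit 1271250, nat_lit 1033601, nat_lit 1100001, nat_lit 0, nat_lit 0, [nat_lit 490000, nat_lit 1100000], [nat_lit 24, nat_lit 40, nat_lit 80, nat_lit 80]⟩, ⟨p019_k70, nat_lit 0, nat_lit 0, nat_lit 0, nat_lit 0, nat_lit 0, [nat_lit 3282000000, nat_lit 4688000000], [], [nat_lit 18176512968, nat_lit 18360682463, nat_lit 18258790263, nat_lit 18440646188], nat_lit 0, nat_lit 0, nat_lit 0, nat_lit 0, nat_lit 0, nat_lit 0, [], [nat_lit 40, nat_lit 40, nat_lit 80, nat_lit 80]⟩,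
 zbF0, []⟩
noncomputable def p019_l212 : Lf2 := ⟨nat_lit 0, nat_lit 3, [nat_lit 45, nat_lit 5, nat_lit 5, nat_lit 20], false, nat_lit 0, nat_lit 0, nat_lit 0, nat_lit 0, ⟨nat_lit 1000, nat_lit 0, nat_lit 0, nat_lit 0, nat_lit 0, nat_lit 0, nat_lit 0, nat_lit 0, nat_lit 0, nat_lit 0, nat_lit 0, nat_lit 0, nat_lit 0, nat_lit 0, nat_lit 0, nat_lit 0, false, false⟩,
 nat_lit 0, nat_lit 0, nat_lit 0, nat_lit 0, nat_lit 0, nat_lit 5612, nat_lit 0, nat_lit 0, nat_lit 393, nat_lit 1367, nat_lit 0, nat_lit 0, nat_lit 0, nat_lit 0, nat_lit 0, nat_lit 0, nat_lit 0, nat_lit 0, [],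
 ⟨p019_k69, nat_lit 0, nat_lit 0, nat_lit 0, nat_lit 0, nat_lit 1378163, [nat_lit 2032000001, nat_lit 4688000000], [], [nat_lit 22017920710, nat_lit 22040686620, nat_lit 22086603575, nat_lit 22109318150], nat_lit 1271250, nat_lit 1271250, nat_lit 904401, nat_lit 936251, nat_lit 0, nat_lit 0, [nat_lit 490000, nat_lit 1100000], [nat_lit 24, nat_lit 40, nat_lit 80, nat_lit 80]⟩, ⟨p019_k70, nat_lit 0, nat_lit 0, nat_lit 0, nat_lit 0, nat_lit 0, [nat_lit 3282000000, nat_lit 4688000000], [], [nat_lit 18010071997, nat_lit 18122530049, nat_lit 18042536827, nat_lit 18154235701], nat_lit 0, nat_lit 0, nat_lit 0, nat_lit 0, nat_lit 0, nat_lit 0, [], [nat_lit 40, nat_lit 40, nat_lit 80, nat_lit 80]⟩,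
 zbF0, [⟨nat_lit 0, nat_lit 87, nat_lit 84, nat_lit 100, nat_lit 536132620⟩]⟩
noncomputable def p019_l213 : Lf2 := ⟨nat_lit 2, nat_lit 3, [nat_lit 45, nat_lit 5, nat_lit 5, nat_lit 20], true, nat_lit 0, nat_lit 0, nat_lit 0, nat_lit 0, zbN0,
 nat_lit 0, nat_lit 0, nat_lit 0, nat_lit 0, nat_lit 0, nat_lit 0, nat_lit 0, nat_lit 0, nat_lit 0, nat_lit 0, nat_lit 0, nat_lit 0, nat_lit 0, nat_lit 0, nat_lit 0, nat_lit 0, nat_lit 0, nat_lit 0, [],
 ⟨p019_k74, nat_lit 0, nat_lit 0, nat_lit 0, nat_lit 0, nat_lit 1378163, [], [], [], nat_lit 1271250, nat_lit 1271250, nat_lit 904401, nat_lit 936251, nat_lit 0, nat_lit 0, [nat_lit 490000, nat_lit 631250, nat_lit 936250, nat_lit 1100000], [nat_lit 150, nat_lit 40, nat_lit 20, nat_lit 40]⟩, C1.Rw.none,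
 zbF0, []⟩
noncomputable def p019_l214 : Lf2 := ⟨nat_lit 0, nat_lit 3, [nat_lit 45, nat_lit 5, nat_lit 5, nat_lit 20], false, nat_lit 0, nat_lit 0, nat_lit 0, nat_lit 0, ⟨nat_lit 1000, nat_lit 0, nat_lit 0, nat_lit 0, nat_lit 0, nat_lit 0, nat_lit 0, nat_lit 0, nat_lit 0, nat_lit 0, nat_lit 0, nat_lit 0, nat_lit 0, nat_lit 0, nat_lit 0, nat_lit 0, false, false⟩,
 nat_lit 0, nat_lit 0, nat_lit 0, nat_lit 0, nat_lit 0, nat_lit 5602, nat_lit 0, nat_lit 0, nat_lit 392, nat_lit 1362, nat_lit 0, nat_lit 0, nat_lit 0, nat_lit 0, nat_lit 0, nat_lit 0, nat_lit 0, nat_lit 0, [],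
 ⟨p019_k69, nat_lit 0, nat_lit 0, nat_lit 0, nat_lit 0, nat_lit 1378163, [nat_lit 2032000001, nat_lit 4688000000], [], [nat_lit 22201262076, nat_lit 22223200151, nat_lit 22268217941, nat_lit 22290107881], nat_lit 1271250, nat_lit 1271250, nat_lit 936251, nat_lit 968401, nat_lit 0, nat_lit 0, [nat_lit 490000, nat_lit 1100000], [nat_lit 24, nat_lit 40, nat_lit 80, nat_lit 80]⟩, ⟨p019_k70, nat_lit 0, nat_lit 0, nat_lit 0, nat_lit 0, nat_lit 0, [nat_lit 3282000000, nat_lit 4688000000], [], [nat_lit 18060358309, nat_lit 18153945023, nat_lit 18101725118, nat_lit 18194735303], nat_lit 0, nat_lit 0, nat_lit 0, nat_lit 0, nat_lit 0, nat_lit 0, [], [nat_lit 40, nat_lit 40, nat_lit 80, nat_lit 80]⟩,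
 zbF0, []⟩
noncomputable def p019_l215 : Lf2 := ⟨nat_lit 2, nat_lit 3, [nat_lit 45, nat_lit 5, nat_lit 5, nat_lit 20], true, nat_lit 0, nat_lit 0, nat_lit 0, nat_lit 0, zbN0,
 nat_lit 0, nat_lit 0, nat_lit 0, nat_lit 0, nat_lit 0, nat_lit 0, nat_lit 0, nat_lit 0, nat_lit 0, nat_lit 0, nat_lit 0, nat_lit 0, nat_lit 0, nat_lit 0, nat_lit 0, nat_lit 0, nat_lit 0, nat_lit 0, [],
 ⟨p019_k74, nat_lit 0, nat_lit 0, nat_lit 0, nat_lit 0, nat_lit 1378163, [], [], [], nat_lit 1271250, nat_lit 1271250, nat_lit 936251, nat_lit 968401, nat_lit 0, nat_lit 0, [nat_lit 490000, nat_lit 631250, nat_lit 936250, nat_lit 1100000], [nat_lit 150, nat_lit 40, nat_lit 20, nat_lit 40]⟩, C1.Rw.none,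
 zbF0, []⟩
noncomputable def p019_l216 : Lf2 := ⟨nat_lit 0, nat_lit 3, [nat_lit 45, nat_lit 5, nat_lit 5, nat_lit 20], false, nat_lit 0, nat_lit 0, nat_lit 0, nat_lit 0, ⟨nat_lit 1000, nat_lit 0, nat_lit 0, nat_lit 0, nat_lit 0, nat_lit 0, nat_lit 0, nat_lit 0, nat_lit 0, nat_lit 0, nat_lit 0, nat_lit 0, nat_lit 0, nat_lit 0, nat_lit 0, nat_lit 0, false, false⟩,
 nat_lit 0, nat_lit 4050, nat_lit 0, nat_lit 0, nat_lit 3049, nat_lit 5614, nat_lit 0, nat_lit 0, nat_lit 305, nat_lit 1360, nat_lit 0, nat_lit 0, nat_lit 0, nat_lit 0, nat_lit 0, nat_lit 0, nat_lit 0, nat_lit 0, [],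
 ⟨p019_k69, nat_lit 0, nat_lit 0, nat_lit 0, nat_lit 0, nat_lit 1378163, [nat_lit 2032000001, nat_lit 4688000000], [], [nat_lit 16719384072, nat_lit 16746268847, nat_lit 16778282230, nat_lit 16809049549], nat_lit 1271250, nat_lit 1271250, nat_lit 968401, nat_lit 1033601, nat_lit 0, nat_lit 0, [nat_lit 490000, nat_lit 1100000], [nat_lit 24, nat_lit 40, nat_lit 80, nat_lit 80]⟩, ⟨p019_k70, nat_lit 0, nat_lit 0, nat_lit 0, nat_lit 0, nat_lit 0, [nat_lit 3282000000, nat_lit 4688000000], [], [nat_lit 18092770299, nat_lit 18186039613, nat_lit 18175265835, nat_lit 18267241721], nat_lit 0, nat_lit 0, nat_lit 0, nat_lit 0, nat_lit 0, nat_lit 0, [], [nat_lit 40, nat_lit 40, nat_lit 80, nat_lit 80]⟩,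
 zbF0, []⟩
noncomputable def p019_l217 : Lf2 := ⟨nat_lit 0, nat_lit 3, [nat_lit 45, nat_lit 5, nat_lit 5, nat_lit 20], false, nat_lit 0, nat_lit 0, nat_lit 0, nat_lit 0, ⟨nat_lit 1000, nat_lit 0, nat_lit 0, nat_lit 0, nat_lit 0, nat_lit 0, nat_lit 0, nat_lit 0, nat_lit 0, nat_lit 0, nat_lit 0, nat_lit 0, nat_lit 0, nat_lit 0, nat_lit 0, nat_lit 0, false, false⟩,
 nat_lit 0, nat_lit 0, nat_lit 0, nat_lit 0, nat_lit 0, nat_lit 5602, nat_lit 0, nat_lit 0, nat_lit 393, nat_lit 1320, nat_lit 0, nat_lit 0, nat_lit 0, nat_lit 0, nat_lit 0, nat_lit 0, nat_lit 0, nat_lit 0, [],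
 ⟨p019_k69, nat_lit 0, nat_lit 0, nat_lit 0, nat_lit 0, nat_lit 1386719, [nat_lit 2032000001, nat_lit 4688000000], [], [nat_lit 22017920710, nat_lit 22040686620, nat_lit 22086603575, nat_lit 22109318150], nat_lit 1271250, nat_lit 1271250, nat_lit 904401, nat_lit 936251, nat_lit 0, nat_lit 0, [nat_lit 490000, nat_lit 1100000], [nat_lit 24, nat_lit 40, nat_lit 80, nat_lit 80]⟩, ⟨p019_k71, nat_lit 0, nat_lit 0, nat_lit 0, nat_lit 0, nat_lit 0, [nat_lit 3282000000, nat_lit 4688000000], [], [nat_lit 18123336906, nat_lit 18234515234, nat_lit 18153832523, nat_lit 18265669394], nat_lit 0, nat_lit 0, nat_lit 0, nat_lit 0, nat_lit 0, nat_lit 0, [], [nat_lit 40, nat_lit 40, nat_lit 80, nat_lit 80]⟩,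
 zbF0, [⟨nat_lit 0, nat_lit 86, nat_lit 84, nat_lit 100, nat_lit 546146910⟩]⟩
noncomputable def p019_l218 : Lf2 := ⟨nat_lit 2, nat_lit 3, [nat_lit 45, nat_lit 5, nat_lit 5, nat_lit 20], true, nat_lit 0, nat_lit 0, nat_lit 0, nat_lit 0, zbN0,
 nat_lit 0, nat_lit 0, nat_lit 0, nat_lit 0, nat_lit 0, nat_lit 0, nat_lit 0, nat_lit 0, nat_lit 0, nat_lit 0, nat_lit 0, nat_lit 0, nat_lit 0, nat_lit 0, nat_lit 0, nat_lit 0, nat_lit 0, nat_lit 0, [],
 ⟨p019_k74, nat_lit 0, nat_lit 0, nat_lit 0, nat_lit 0, nat_lit 1386719, [], [], [], nat_lit 1271250, nat_lit 1271250, nat_lit 904401, nat_lit 936251, nat_lit 0, nat_lit 0, [nat_lit 490000, nat_lit 631250, nat_lit 936250, nat_lit 1100000], [nat_lit 150, nat_lit 40, nat_lit 20, nat_lit 40]⟩, C1.Rw.none,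
 zbF0, []⟩
noncomputable def p019_l219 : Lf2 := ⟨nat_lit 0, nat_lit 3, [nat_lit 45, nat_lit 5, nat_lit 5, nat_lit 20], false, nat_lit 0, nat_lit 0, nat_lit 0, nat_lit 0, ⟨nat_lit 1000, nat_lit 0, nat_lit 0, nat_lit 0, nat_lit 0, nat_lit 0, nat_lit 0, nat_lit 0, nat_lit 0, nat_lit 0, nat_lit 0, nat_lit 0, nat_lit 0, nat_lit 0, nat_lit 0, nat_lit 0, false, false⟩,
 nat_lit 0, nat_lit 0, nat_lit 0, nat_lit 0, nat_lit 0, nat_lit 5591, nat_lit 0, nat_lit 0, nat_lit 392, nat_lit 1316, nat_lit 0, nat_lit 0, nat_lit 0, nat_lit 0, nat_lit 0, nat_lit 0, nat_lit 0, nat_lit 0, [],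
 ⟨p019_k69, nat_lit 0, nat_lit 0, nat_lit 0, nat_lit 0, nat_lit 1386719, [nat_lit 2032000001, nat_lit 4688000000], [], [nat_lit 22201262076, nat_lit 22223200151, nat_lit 22268217941, nat_lit 22290107881], nat_lit 1271250, nat_lit 1271250, nat_lit 936251, nat_lit 968401, nat_lit 0, nat_lit 0, [nat_lit 490000, nat_lit 1100000], [nat_lit 24, nat_lit 40, nat_lit 80, nat_lit 80]⟩, ⟨p019_k71, nat_lit 0, nat_lit 0, nat_lit 0, nat_lit 0, nat_lit 0, [nat_lit 3282000000, nat_lit 4688000000], [], [nat_lit 18171171493, nat_lit 18264852952, nat_lit 18212071785, nat_lit 18304971325], nat_lit 0, nat_lit 0, nat_lit 0, nat_lit 0, nat_lit 0, nat_lit 0, [], [nat_lit 40, nat_lit 40, nat_lit 80, nat_lit 80]⟩,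
 zbF0, []⟩
noncomputable def p019_l220 : Lf2 := ⟨nat_lit 2, nat_lit 3, [nat_lit 45, nat_lit 5, nat_lit 5, nat_lit 20], true, nat_lit 0, nat_lit 0, nat_lit 0, nat_lit 0, zbN0,
 nat_lit 0, nat_lit 0, nat_lit 0, nat_lit 0, nat_lit 0, nat_lit 0, nat_lit 0, nat_lit 0, nat_lit 0, nat_lit 0, nat_lit 0, nat_lit 0, nat_lit 0, nat_lit 0, nat_lit 0, nat_lit 0, nat_lit 0, nat_lit 0, [],
 ⟨p019_k74, nat_lit 0, nat_lit 0, nat_lit 0, nat_lit 0, nat_lit 1386719, [], [], [], nat_lit 1271250, nat_lit 1271250, nat_lit 936251, nat_lit 968401, nat_lit 0, nat_lit 0, [nat_lit 490000, nat_lit 631250, nat_lit 936250, nat_lit 1100000], [nat_lit 150, nat_lit 40, nat_lit 20, nat_lit 40]⟩, C1.Rw.none,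
 zbF0, []⟩
noncomputable def p019_l221 : Lf2 := ⟨nat_lit 0, nat_lit 3, [nat_lit 45, nat_lit 5, nat_lit 5, nat_lit 20], false, nat_lit 0, nat_lit 0, nat_lit 0, nat_lit 0, ⟨nat_lit 1000, nat_lit 0, nat_lit 0, nat_lit 0, nat_lit 0, nat_lit 0, nat_lit 0, nat_lit 0, nat_lit 0, nat_lit 0, nat_lit 0, nat_lit 0, nat_lit 0, nat_lit 0, nat_lit 0, nat_lit 0, false, false⟩,
 nat_lit 0, nat_lit 3935, nat_lit 0, nat_lit 0, nat_lit 2962, nat_lit 5602, nat_lit 0, nat_lit 0, nat_lit 309, nat_lit 1314, nat_lit 0, nat_lit 0, nat_lit 0, nat_lit 0, nat_lit 0, nat_lit 0, nat_lit 0, nat_lit 0, [],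
 ⟨p019_k69, nat_lit 0, nat_lit 0, nat_lit 0, nat_lit 0, nat_lit 1386719, [nat_lit 2032000001, nat_lit 4688000000], [], [nat_lit 16706952185, nat_lit 16733668721, nat_lit 16768859529, nat_lit 16799392677], nat_lit 1271250, nat_lit 1271250, nat_lit 968401, nat_lit 1033601, nat_lit 0, nat_lit 0, [nat_lit 490000, nat_lit 1100000], [nat_lit 24, nat_lit 40, nat_lit 80, nat_lit 80]⟩, ⟨p019_k71, nat_lit 0, nat_lit 0, nat_lit 0, nat_lit 0, nat_lit 0, [nat_lit 3282000000, nat_lit 4688000000], [], [nat_lit 18204335303, nat_lit 18297345488, nat_lit 18285915863, nat_lit 18377772990], nat_lit 0, nat_lit 0, nat_lit 0, nat_lit 0, nat_lit 0, nat_lit 0, [], [nat_lit 40, nat_lit 40, nat_lit 80, nat_lit 80]⟩,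
 zbF0, []⟩
noncomputable def p019_l222 : Lf2 := ⟨nat_lit 0, nat_lit 3, [nat_lit 45, nat_lit 5, nat_lit 5, nat_lit 20], false, nat_lit 0, nat_lit 0, nat_lit 0, nat_lit 0, ⟨nat_lit 1000, nat_lit 0, nat_lit 0, nat_lit 0, nat_lit 0, nat_lit 0, nat_lit 0, nat_lit 0, nat_lit 0, nat_lit 0, nat_lit 0, nat_lit 0, nat_lit 0, nat_lit 0, nat_lit 0, nat_lit 0, false, false⟩,
 nat_lit 0, nat_lit 4027, nat_lit 0, nat_lit 0, nat_lit 3032, nat_lit 5625, nat_lit 0, nat_lit 0, nat_lit 305, nat_lit 1352, nat_lit 0, nat_lit 0, nat_lit 0, nat_lit 0, nat_lit 0, nat_lit 0, nat_lit 0, nat_lit 0, [],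
 ⟨p019_k69, nat_lit 0, nat_lit 0, nat_lit 0, nat_lit 0, nat_lit 1386719, [nat_lit 2032000001, nat_lit 4688000000], [], [nat_lit 16871149062, nat_lit 16897769899, nat_lit 16928873016, nat_lit 16959319023], nat_lit 1271250, nat_lit 1271250, nat_lit 1033601, nat_lit 1100001, nat_lit 0, nat_lit 0, [nat_lit 490000, nat_lit 1100000], [nat_lit 24, nat_lit 40, nat_lit 80, nat_lit 80]⟩, ⟨p019_k70, nat_lit 0, nat_lit 0, nat_lit 0, nat_lit 0, nat_lit 0, [nat_lit 3282000000, nat_lit 4688000000], [], [nat_lit 18176512968, nat_lit 18360682463, nat_lit 18258790263, nat_lit 18440646188], nat_lit 0, nat_lit 0, nat_lit 0, nat_lit 0, nat_lit 0, nat_lit 0, [], [nat_lit 40, nat_lit 40, nat_lit 80, nat_lit 80]⟩,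
 zbF0, []⟩
noncomputable def p019_l223 : Lf2 := ⟨nat_lit 2, nat_lit 3, [nat_lit 45, nat_lit 5, nat_lit 5, nat_lit 20], true, nat_lit 0, nat_lit 0, nat_lit 0, nat_lit 0, zbN0,
 nat_lit 0, nat_lit 0, nat_lit 0, nat_lit 0, nat_lit 0, nat_lit 0, nat_lit 0, nat_lit 0, nat_lit 0, nat_lit 0, nat_lit 0, nat_lit 0, nat_lit 0, nat_lit 0, nat_lit 0, nat_lit 0, nat_lit 0, nat_lit 0, [],
 ⟨p019_k73, nat_lit 0, nat_lit 0, nat_lit 618, nat_lit 0, nat_lit 1393967, [], [], [], nat_lit 1271250, nat_lit 1271250, nat_lit 872850, nat_lit 1100001, nat_lit 0, nat_lit 0, [nat_lit 490000, nat_lit 780000, nat_lit 1100000], [nat_lit 78, nat_lit 40, nat_lit 80, nat_lit 80, nat_lit 22, nat_lit 249, nat_lit 40, nat_lit 11]⟩, C1.Rw.none,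
 zbF0, []⟩
noncomputable def b_N_800_700_0_6 : St := ⟨false, nat_lit 1, nat_lit 0, nat_lit 1, nat_lit 40, nat_lit 320, nat_lit 322, nat_lit 310, nat_lit 315, nat_lit 132, nat_lit 160, nat_lit 0, nat_lit 0, nat_lit 0, nat_lit 0, nat_lit 0, nat_lit 0, nat_lit 8, nat_lit 12, nat_lit 1060, nat_lit 0, nat_lit 140, nat_lit 160⟩
theorem d_N_800_700_0_6 (h : EB TB.env) : Dead b_N_800_700_0_6 := chkB_sound0 h (T :=
(.spl (nat_lit 7) (nat_lit 1220)
(.spl (nat_lit 1) (nat_lit 313)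
(.spl (nat_lit 2) (nat_lit 140)
(.spl (nat_lit 1) (nat_lit 312)
(.spl (nat_lit 0) (nat_lit 321)
(.leaf p019_l194)
(.leaf p019_l195))
(.spl (nat_lit 0) (nat_lit 321)
(.spl (nat_lit 7) (nat_lit 1140)
(.leaf p019_l196)
(.leaf p019_l197))
(.spl (nat_lit 2) (nat_lit 136)
(.spl (nat_lit 7) (nat_lit 1140)
(.leaf p019_l198)
(.leaf p019_l199))
(.spl (nat_lit 7) (nat_lit 1140)
(.leaf p019_l200)
(.leaf p019_l201)))))
(.spl (nat_lit 0) (nat_lit 321)
(.leaf p019_l202)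
(.leaf p019_l203)))
(.spl (nat_lit 0) (nat_lit 321)
(.spl (nat_lit 2) (nat_lit 140)
(.spl (nat_lit 7) (nat_lit 1140)
(.leaf p019_l204)
(.leaf p019_l205))
(.spl (nat_lit 2) (nat_lit 152)
(.spl (nat_lit 2) (nat_lit 144)
(.spl (nat_lit 1) (nat_lit 314)
(.spl (nat_lit 7) (nat_lit 1140)
(.leaf p019_l206)
(.leaf p019_l207))
(.spl (nat_lit 7) (nat_lit 1140)
(.leaf p019_l208)
(.leaf p019_l209)))
(.leaf p019_l210))
(.leaf p019_l211)))
(.trZ (nat_lit 0) (nat_lit 87) (nat_lit 84) (nat_lit 100) (nat_lit 136) (.spl (nat_lit 2) (nat_lit 152)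
(.spl (nat_lit 1) (nat_lit 314)
(.spl (nat_lit 2) (nat_lit 140)
(.spl (nat_lit 7) (nat_lit 1140)
(.leaf p019_l212)
(.leaf p019_l213))
(.spl (nat_lit 2) (nat_lit 144)
(.spl (nat_lit 7) (nat_lit 1140)
(.leaf p019_l214)
(.leaf p019_l215))
(.leaf p019_l216)))
(.spl (nat_lit 2) (nat_lit 140)
(.spl (nat_lit 7) (nat_lit 1140)
(.leaf p019_l217)
(.leaf p019_l218))
(.spl (nat_lit 2) (nat_lit 144)
(.spl (nat_lit 7) (nat_lit 1140)
(.leaf p019_l219)
(.leaf p019_l220))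
(.leaf p019_l221))))
(.leaf p019_l222)))))
(.leaf p019_l223))) (by decide +kernel)

end B2
end Pool.Agent.Lib.MP_6947cd_al
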