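import Pool.Agent.Lib.MP_6947cd_al.ZB.Pre

/-!
Problem MP_6947cd_al (Chollet).  Case B, second entry in [2/5, 17/20]: certificates of the tree, part P020 (generated).
-/

set_option autoImplicit false
set_option linter.all false

namespace Pool.Agent.Lib.MP_6947cd_al
namespace B2

open Ent Fr B1 PkA

noncomputable def p020_k0 : C1.Kn := ⟨[nat_lit 40, nat_lit 80], [nat_lit 0, nat_lit 0], [(nat_lit 0, nat_lit 0, nat_lit 0), (nat_lit 0, nat_lit 0, nat_lit 0)], (nat_lit 84, nat_lit 100, nat_lit 36)⟩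
noncomputable def p020_k1 : C1.Kn := ⟨[nat_lit 60, nat_lit 80], [nat_lit 0, nat_lit 533], [(nat_lit 0, nat_lit 0, nat_lit 0), (nat_lit 1000, nat_lit 837, nat_lit 397)], (nat_lit 85, nat_lit 100, nat_lit 35)⟩
noncomputable def p020_k2 : C1.Kn := ⟨[nat_lit 40, nat_lit 50, nat_lit 70, nat_lit 80], [nat_lit 0, nat_lit 0, nat_lit 339, nat_lit 615], [(nat_lit 0, nat_lit 0, nat_lit 0), (nat_lit 0, nat_lit 0, nat_lit 0), (nat_lit 1000, nat_lit 868, nat_lit 263), (nat_lit 1000, nat_lit 819, nat_lit 426)], (nat_lit 84, nat_lit 100, nat_lit 36)⟩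
noncomputable def p020_k3 : C1.Kn := ⟨[nat_lit 60, nat_lit 80], [nat_lit 0, nat_lit 565], [(nat_lit 0, nat_lit 0, nat_lit 0), (nat_lit 1000, nat_lit 830, nat_lit 409)], (nat_lit 84, nat_lit 100, nat_lit 35)⟩
noncomputable def p020_k4 : C1.Kn := ⟨[nat_lit 40, nat_lit 80], [nat_lit 0, nat_lit 33], [(nat_lit 0, nat_lit 0, nat_lit 0), (nat_lit 1000, nat_lit 992, nat_lit 13)], (nat_lit 83, nat_lit 100, nat_lit 36)⟩
noncomputable def p020_k5 : C1.Kn := ⟨[nat_lit 40, nat_lit 50, nat_lit 70, nat_lit 80], [nat_lit 0, nat_lit 8, nat_lit 352, nat_lit 632], [(nat_lit 0, nat_lit 0, nat_lit 0), (nat_lit 1000, nat_lit 992, nat_lit 13), (nat_lit 1000, nat_lit 864, nat_lit 269), (nat_lit 1000, nat_lit 815, nat_lit 429)], (nat_lit 83, nat_lit 100, nat_lit 36)⟩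
noncomputable def p020_k6 : C1.Kn := ⟨[nat_lit 60, nat_lit 80], [nat_lit 0, nat_lit 549], [(nat_lit 0, nat_lit 0, nat_lit 0), (nat_lit 1000, nat_lit 833, nat_lit 406)], (nat_lit 85, nat_lit 100, nat_lit 35)⟩
noncomputable def p020_k7 : C1.Kn := ⟨[nat_lit 60, nat_lit 80], [nat_lit 0, nat_lit 581], [(nat_lit 0, nat_lit 0, nat_lit 0), (nat_lit 1000, nat_lit 827, nat_lit 411)], (nat_lit 84, nat_lit 100, nat_lit 36)⟩
noncomputable def p020_k8 : C1.Kn := ⟨[nat_lit 60, nat_lit 80], [nat_lit 0, nat_lit 598], [(nat_lit 0, nat_lit 0, nat_lit 0), (nat_lit 1000, nat_lit 822, nat_lit 420)], (nat_lit 84, nat_lit 100, nat_lit 36)⟩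
noncomputable def p020_k9 : C1.Kn := ⟨[nat_lit 40, nat_lit 60, nat_lit 80], [nat_lit 0, nat_lit 0, nat_lit 615], [(nat_lit 0, nat_lit 0, nat_lit 0), (nat_lit 0, nat_lit 0, nat_lit 0), (nat_lit 1000, nat_lit 819, nat_lit 426)], (nat_lit 84, nat_lit 100, nat_lit 36)⟩
noncomputable def p020_k10 : C1.Kn := ⟨[nat_lit 40, nat_lit 80], [nat_lit 0, nat_lit 0], [(nat_lit 0, nat_lit 0, nat_lit 0), (nat_lit 0, nat_lit 0, nat_lit 0)], (nat_lit 82, nat_lit 100, nat_lit 40)⟩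
noncomputable def p020_k11 : C1.Kn := ⟨[nat_lit 60, nat_lit 100], [nat_lit 0, nat_lit 909], [(nat_lit 0, nat_lit 0, nat_lit 0), (nat_lit 1000, nat_lit 858, nat_lit 354)], (nat_lit 85, nat_lit 100, nat_lit 40)⟩
noncomputable def p020_k12 : C1.Kn := ⟨[nat_lit 60, nat_lit 80], [nat_lit 0, nat_lit 533], [(nat_lit 0, nat_lit 0, nat_lit 0), (nat_lit 1000, nat_lit 837, nat_lit 397)], (nat_lit 84, nat_lit 100, nat_lit 40)⟩
noncomputable def p020_k13 : C1.Kn := ⟨[nat_lit 40, nat_lit 60, nat_lit 80], [nat_lit 0, nat_lit 0, nat_lit 615], [(nat_lit 0, nat_lit 0, nat_lit 0), (nat_lit 0, nat_lit 0, nat_lit 0), (nat_lit 1000, nat_lit 819, nat_lit 426)], (nat_lit 82, nat_lit 100, nat_lit 40)⟩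
noncomputable def p020_k14 : C1.Kn := ⟨[nat_lit 40, nat_lit 80, nat_lit 100], [nat_lit 0, nat_lit 0, nat_lit 1280], [(nat_lit 0, nat_lit 0, nat_lit 0), (nat_lit 0, nat_lit 0, nat_lit 0), (nat_lit 1000, nat_lit 800, nat_lit 600)], (nat_lit 82, nat_lit 100, nat_lit 44)⟩
noncomputable def p020_k15 : C1.Kn := ⟨[nat_lit 60, nat_lit 100], [nat_lit 0, nat_lit 909], [(nat_lit 0, nat_lit 0, nat_lit 0), (nat_lit 1000, nat_lit 858, nat_lit 354)], (nat_lit 84, nat_lit 100, nat_lit 44)⟩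
noncomputable def p020_k16 : C1.Kn := ⟨[nat_lit 60, nat_lit 100], [nat_lit 0, nat_lit 972], [(nat_lit 0, nat_lit 0, nat_lit 0), (nat_lit 1000, nat_lit 848, nat_lit 379)], (nat_lit 84, nat_lit 100, nat_lit 44)⟩
noncomputable def p020_k17 : C1.Kn := ⟨[nat_lit 60, nat_lit 100], [nat_lit 0, nat_lit 1004], [(nat_lit 0, nat_lit 0, nat_lit 0), (nat_lit 1000, nat_lit 843, nat_lit 392)], (nat_lit 83, nat_lit 100, nat_lit 44)⟩
noncomputable def p020_k18 : C1.Kn := ⟨[nat_lit 60, nat_lit 100], [nat_lit 0, nat_lit 1031], [(nat_lit 0, nat_lit 0, nat_lit 0), (nat_lit 1000, nat_lit 839, nat_lit 401)], (nat_lit 83, nat_lit 100, nat_lit 44)⟩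
noncomputable def p020_k19 : C1.Kn := ⟨[nat_lit 40, nat_lit 80], [nat_lit 0, nat_lit 79], [(nat_lit 0, nat_lit 0, nat_lit 0), (nat_lit 1000, nat_lit 981, nat_lit 31)], (nat_lit 81, nat_lit 100, nat_lit 45)⟩
noncomputable def p020_k20 : C1.Kn := ⟨[nat_lit 60, nat_lit 100], [nat_lit 0, nat_lit 1063], [(nat_lit 0, nat_lit 0, nat_lit 0), (nat_lit 1000, nat_lit 834, nat_lit 414)], (nat_lit 83, nat_lit 100, nat_lit 44)⟩
noncomputable def p020_k21 : C1.Kn := ⟨[nat_lit 60, nat_lit 100], [nat_lit 0, nat_lit 1095], [(nat_lit 0, nat_lit 0, nat_lit 0), (nat_lit 1000, nat_lit 829, nat_lit 427)], (nat_lit 83, nat_lit 100, nat_lit 44)⟩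
noncomputable def p020_k22 : C1.Kn := ⟨[nat_lit 40, nat_lit 60, nat_lit 80, nat_lit 100], [nat_lit 0, nat_lit 0, nat_lit 549, nat_lit 1090], [(nat_lit 0, nat_lit 0, nat_lit 0), (nat_lit 0, nat_lit 0, nat_lit 0), (nat_lit 1000, nat_lit 833, nat_lit 406), (nat_lit 1000, nat_lit 830, nat_lit 423)], (nat_lit 83, nat_lit 100, nat_lit 44)⟩
noncomputable def p020_k23 : C1.Kn := ⟨[nat_lit 60, nat_lit 100], [nat_lit 0, nat_lit 1125], [(nat_lit 0, nat_lit 0, nat_lit 0), (nat_lit 1000, nat_lit 824, nat_lit 439)], (nat_lit 82, nat_lit 100, nat_lit 44)⟩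
noncomputable def p020_k24 : C1.Kn := ⟨[nat_lit 40, nat_lit 60, nat_lit 80, nat_lit 100], [nat_lit 0, nat_lit 0, nat_lit 565, nat_lit 1114], [(nat_lit 0, nat_lit 0, nat_lit 0), (nat_lit 0, nat_lit 0, nat_lit 0), (nat_lit 1000, nat_lit 830, nat_lit 409), (nat_lit 1000, nat_lit 826, nat_lit 429)], (nat_lit 82, nat_lit 100, nat_lit 44)⟩
noncomputable def p020_k25 : C1.Kn := ⟨[nat_lit 60, nat_lit 100], [nat_lit 0, nat_lit 1157], [(nat_lit 0, nat_lit 0, nat_lit 0), (nat_lit 1000, nat_lit 819, nat_lit 452)], (nat_lit 82, nat_lit 100, nat_lit 44)⟩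
noncomputable def p020_k26 : C1.Kn := ⟨[nat_lit 40, nat_lit 60, nat_lit 80, nat_lit 100], [nat_lit 0, nat_lit 0, nat_lit 581, nat_lit 1141], [(nat_lit 0, nat_lit 0, nat_lit 0), (nat_lit 0, nat_lit 0, nat_lit 0), (nat_lit 1000, nat_lit 827, nat_lit 411), (nat_lit 1000, nat_lit 822, nat_lit 438)], (nat_lit 82, nat_lit 100, nat_lit 44)⟩
noncomputable def p020_k27 : C1.Kn := ⟨[nat_lit 60, nat_lit 100], [nat_lit 0, nat_lit 1188], [(nat_lit 0, nat_lit 0, nat_lit 0), (nat_lit 1000, nat_lit 814, nat_lit 464)], (nat_lit 82, nat_lit 100, nat_lit 44)⟩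
noncomputable def p020_k28 : C1.Kn := ⟨[nat_lit 40, nat_lit 60, nat_lit 80, nat_lit 100], [nat_lit 0, nat_lit 0, nat_lit 598, nat_lit 1162], [(nat_lit 0, nat_lit 0, nat_lit 0), (nat_lit 0, nat_lit 0, nat_lit 0), (nat_lit 1000, nat_lit 822, nat_lit 420), (nat_lit 1000, nat_lit 818, nat_lit 441)], (nat_lit 82, nat_lit 100, nat_lit 44)⟩
noncomputable def p020_k29 : C1.Kn := ⟨[nat_lit 40, nat_lit 80, nat_lit 100], [nat_lit 0, nat_lit 33, nat_lit 1304], [(nat_lit 0, nat_lit 0, nat_lit 0), (nat_lit 1000, nat_lit 992, nat_lit 13), (nat_lit 1000, nat_lit 796, nat_lit 599)], (nat_lit 81, nat_lit 100, nat_lit 44)⟩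
noncomputable def p020_k30 : C1.Kn := ⟨[nat_lit 40, nat_lit 80], [nat_lit 0, nat_lit 0], [(nat_lit 0, nat_lit 0, nat_lit 0), (nat_lit 0, nat_lit 0, nat_lit 0)], (nat_lit 85, nat_lit 100, nat_lit 30)⟩
noncomputable def p020_k31 : C1.Kn := ⟨[nat_lit 60, nat_lit 80], [nat_lit 0, nat_lit 456], [(nat_lit 0, nat_lit 0, nat_lit 0), (nat_lit 1000, nat_lit 859, nat_lit 351)], (nat_lit 87, nat_lit 100, nat_lit 29)⟩
noncomputable def p020_k32 : C1.Kn := ⟨[nat_lit 60, nat_lit 80], [nat_lit 0, nat_lit 502], [(nat_lit 0, nat_lit 0, nat_lit 0), (nat_lit 1000, nat_lit 845, nat_lit 382)], (nat_lit 87, nat_lit 100, nat_lit 29)⟩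
noncomputable def p020_k33 : C1.Kn := ⟨[nat_lit 60, nat_lit 80], [nat_lit 0, nat_lit 518], [(nat_lit 0, nat_lit 0, nat_lit 0), (nat_lit 1000, nat_lit 839, nat_lit 398)], (nat_lit 87, nat_lit 100, nat_lit 30)⟩
noncomputable def p020_k34 : C1.Kn := ⟨[nat_lit 40, nat_lit 60, nat_lit 80], [nat_lit 0, nat_lit 0, nat_lit 615], [(nat_lit 0, nat_lit 0, nat_lit 0), (nat_lit 0, nat_lit 0, nat_lit 0), (nat_lit 1000, nat_lit 819, nat_lit 426)], (nat_lit 85, nat_lit 100, nat_lit 30)⟩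
noncomputable def p020_k35 : C1.Kn := ⟨[nat_lit 60, nat_lit 80], [nat_lit 0, nat_lit 533], [(nat_lit 0, nat_lit 0, nat_lit 0), (nat_lit 1000, nat_lit 837, nat_lit 397)], (nat_lit 86, nat_lit 100, nat_lit 30)⟩
noncomputable def p020_k36 : C1.Kn := ⟨[nat_lit 40, nat_lit 80], [nat_lit 0, nat_lit 33], [(nat_lit 0, nat_lit 0, nat_lit 0), (nat_lit 1000, nat_lit 992, nat_lit 13)], (nat_lit 85, nat_lit 100, nat_lit 30)⟩
noncomputable def p020_k37 : C1.Kn := ⟨[nat_lit 60, nat_lit 80], [nat_lit 0, nat_lit 565], [(nat_lit 0, nat_lit 0, nat_lit 0), (nat_lit 1000, nat_lit 830, nat_lit 409)], (nat_lit 86, nat_lit 100, nat_lit 30)⟩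
noncomputable def p020_k38 : C1.Kn := ⟨[nat_lit 60, nat_lit 80], [nat_lit 0, nat_lit 581], [(nat_lit 0, nat_lit 0, nat_lit 0), (nat_lit 1000, nat_lit 827, nat_lit 411)], (nat_lit 86, nat_lit 100, nat_lit 30)⟩
noncomputable def p020_k39 : C1.Kn := ⟨[nat_lit 40, nat_lit 60, nat_lit 80], [nat_lit 0, nat_lit 16, nat_lit 632], [(nat_lit 0, nat_lit 0, nat_lit 0), (nat_lit 1000, nat_lit 992, nat_lit 13), (nat_lit 1000, nat_lit 815, nat_lit 429)], (nat_lit 85, nat_lit 100, nat_lit 30)⟩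
noncomputable def p020_k40 : C1.Kn := ⟨[nat_lit 60, nat_lit 80], [nat_lit 0, nat_lit 598], [(nat_lit 0, nat_lit 0, nat_lit 0), (nat_lit 1000, nat_lit 822, nat_lit 420)], (nat_lit 86, nat_lit 100, nat_lit 30)⟩
noncomputable def p020_k41 : C1.Kn := ⟨[nat_lit 60, nat_lit 100], [nat_lit 0, nat_lit 609], [(nat_lit 0, nat_lit 0, nat_lit 0), (nat_lit 1000, nat_lit 905, nat_lit 238)], (nat_lit 87, nat_lit 100, nat_lit 44)⟩
noncomputable def p020_k42 : C1.Kn := ⟨[nat_lit 40, nat_lit 80], [nat_lit 0, nat_lit 112], [(nat_lit 0, nat_lit 0, nat_lit 0), (nat_lit 1000, nat_lit 974, nat_lit 44)], (nat_lit 81, nat_lit 100, nat_lit 45)⟩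
noncomputable def p020_k43 : C1.Kn := ⟨[nat_lit 60, nat_lit 80], [nat_lit 0, nat_lit 456], [(nat_lit 0, nat_lit 0, nat_lit 0), (nat_lit 1000, nat_lit 859, nat_lit 351)], (nat_lit 86, nat_lit 100, nat_lit 35)⟩
noncomputable def p020_k44 : C1.Kn := ⟨[nat_lit 40, nat_lit 80], [nat_lit 0, nat_lit 79], [(nat_lit 0, nat_lit 0, nat_lit 0), (nat_lit 1000, nat_lit 981, nat_lit 31)], (nat_lit 83, nat_lit 100, nat_lit 36)⟩
noncomputable def p020_k45 : C1.Kn := ⟨[nat_lit 40, nat_lit 60, nat_lit 80], [nat_lit 0, nat_lit 16, nat_lit 632], [(nat_lit 0, nat_lit 0, nat_lit 0), (nat_lit 1000, nat_lit 992, nat_lit 13), (nat_lit 1000, nat_lit 815, nat_lit 429)], (nat_lit 83, nat_lit 100, nat_lit 36)⟩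
noncomputable def p020_k46 : C1.Kn := ⟨[nat_lit 60, nat_lit 80], [nat_lit 0, nat_lit 581], [(nat_lit 0, nat_lit 0, nat_lit 0), (nat_lit 1000, nat_lit 827, nat_lit 411)], (nat_lit 83, nat_lit 100, nat_lit 40)⟩
noncomputable def p020_k47 : C1.Kn := ⟨[nat_lit 60, nat_lit 80], [nat_lit 0, nat_lit 598], [(nat_lit 0, nat_lit 0, nat_lit 0), (nat_lit 1000, nat_lit 822, nat_lit 420)], (nat_lit 83, nat_lit 100, nat_lit 40)⟩
noncomputable def p020_k48 : C1.Kn := ⟨[nat_lit 40, nat_lit 80], [nat_lit 0, nat_lit 33], [(nat_lit 0, nat_lit 0, nat_lit 0), (nat_lit 1000, nat_lit 992, nat_lit 13)], (nat_lit 82, nat_lit 100, nat_lit 40)⟩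
noncomputable def p020_k49 : C1.Kn := ⟨[nat_lit 40, nat_lit 80], [nat_lit 0, nat_lit 79], [(nat_lit 0, nat_lit 0, nat_lit 0), (nat_lit 1000, nat_lit 981, nat_lit 31)], (nat_lit 82, nat_lit 100, nat_lit 40)⟩
noncomputable def p020_k50 : C1.Kn := ⟨[nat_lit 40, nat_lit 80], [nat_lit 0, nat_lit 112], [(nat_lit 0, nat_lit 0, nat_lit 0), (nat_lit 1000, nat_lit 974, nat_lit 44)], (nat_lit 82, nat_lit 100, nat_lit 41)⟩
noncomputable def p020_k51 : C1.Kn := ⟨[nat_lit 40, nat_lit 80, nat_lit 100], [nat_lit 0, nat_lit 0, nat_lit 1280], [(nat_lit 0, nat_lit 0, nat_lit 0), (nat_lit 0, nat_lit 0, nat_lit 0), (nat_lit 1000, nat_lit 800, nat_lit 600)], (nat_lit 80, nat_lit 100, nat_lit 60)⟩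
noncomputable def p020_k52 : C1.Kn := ⟨[nat_lit 60, nat_lit 100, nat_lit 140], [nat_lit 0, nat_lit 0, nat_lit 2047], [(nat_lit 0, nat_lit 0, nat_lit 0), (nat_lit 0, nat_lit 0, nat_lit 0), (nat_lit 1000, nat_lit 993, nat_lit 781)], (nat_lit 94, nat_lit 100, nat_lit 62)⟩
noncomputable def p020_k53 : C1.Kn := ⟨[nat_lit 40, nat_lit 80, nat_lit 100], [nat_lit 0, nat_lit 192, nat_lit 1404], [(nat_lit 0, nat_lit 0, nat_lit 0), (nat_lit 1000, nat_lit 955, nat_lit 75), (nat_lit 1000, nat_lit 781, nat_lit 625)], (nat_lit 78, nat_lit 100, nat_lit 60)⟩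
noncomputable def p020_k54 : C1.Kn := ⟨[nat_lit 40, nat_lit 80, nat_lit 100], [nat_lit 0, nat_lit 0, nat_lit 1280], [(nat_lit 0, nat_lit 0, nat_lit 0), (nat_lit 0, nat_lit 0, nat_lit 0), (nat_lit 1000, nat_lit 800, nat_lit 600)], (nat_lit 80, nat_lit 100, nat_lit 54)⟩
noncomputable def p020_k55 : C1.Kn := ⟨[nat_lit 60, nat_lit 100, nat_lit 120], [nat_lit 0, nat_lit 302, nat_lit 1376], [(nat_lit 0, nat_lit 0, nat_lit 0), (nat_lit 1000, nat_lit 953, nat_lit 118), (nat_lit 1000, nat_lit 911, nat_lit 628)], (nat_lit 90, nat_lit 100, nat_lit 55)⟩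
noncomputable def p020_k56 : C1.Kn := ⟨[nat_lit 60, nat_lit 100, nat_lit 120], [nat_lit 0, nat_lit 455, nat_lit 1489], [(nat_lit 0, nat_lit 0, nat_lit 0), (nat_lit 1000, nat_lit 929, nat_lit 178), (nat_lit 1000, nat_lit 895, nat_lit 641)], (nat_lit 88, nat_lit 100, nat_lit 54)⟩
noncomputable def p020_k57 : C1.Kn := ⟨[nat_lit 40, nat_lit 80, nat_lit 100], [nat_lit 0, nat_lit 112, nat_lit 1353], [(nat_lit 0, nat_lit 0, nat_lit 0), (nat_lit 1000, nat_lit 974, nat_lit 44), (nat_lit 1000, nat_lit 789, nat_lit 608)], (nat_lit 79, nat_lit 100, nat_lit 54)⟩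
noncomputable def p020_k58 : C1.Kn := ⟨[nat_lit 40, nat_lit 80, nat_lit 100], [nat_lit 0, nat_lit 192, nat_lit 1404], [(nat_lit 0, nat_lit 0, nat_lit 0), (nat_lit 1000, nat_lit 955, nat_lit 75), (nat_lit 1000, nat_lit 781, nat_lit 625)], (nat_lit 78, nat_lit 100, nat_lit 55)⟩
noncomputable def p020_k59 : C1.Kn := ⟨[nat_lit 60, nat_lit 100, nat_lit 120], [nat_lit 0, nat_lit 302, nat_lit 1376], [(nat_lit 0, nat_lit 0, nat_lit 0), (nat_lit 1000, nat_lit 953, nat_lit 118), (nat_lit 1000, nat_lit 911, nat_lit 628)], (nat_lit 91, nat_lit 100, nat_lit 61)⟩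
noncomputable def p020_k60 : C1.Kn := ⟨[nat_lit 40, nat_lit 80, nat_lit 100], [nat_lit 0, nat_lit 0, nat_lit 1280], [(nat_lit 0, nat_lit 0, nat_lit 0), (nat_lit 0, nat_lit 0, nat_lit 0), (nat_lit 1000, nat_lit 800, nat_lit 600)], (nat_lit 81, nat_lit 100, nat_lit 48)⟩
noncomputable def p020_k61 : C1.Kn := ⟨[nat_lit 60, nat_lit 100], [nat_lit 0, nat_lit 609], [(nat_lit 0, nat_lit 0, nat_lit 0), (nat_lit 1000, nat_lit 905, nat_lit 238)], (nat_lit 87, nat_lit 100, nat_lit 48)⟩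
noncomputable def p020_k62 : C1.Kn := ⟨[nat_lit 60, nat_lit 100, nat_lit 120], [nat_lit 0, nat_lit 609, nat_lit 1609], [(nat_lit 0, nat_lit 0, nat_lit 0), (nat_lit 1000, nat_lit 905, nat_lit 238), (nat_lit 1000, nat_lit 882, nat_lit 668)], (nat_lit 87, nat_lit 100, nat_lit 54)⟩
noncomputable def p020_k63 : C1.Kn := ⟨[nat_lit 60, nat_lit 100], [nat_lit 0, nat_lit 755], [(nat_lit 0, nat_lit 0, nat_lit 0), (nat_lit 1000, nat_lit 882, nat_lit 294)], (nat_lit 85, nat_lit 100, nat_lit 48)⟩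
noncomputable def p020_k64 : C1.Kn := ⟨[nat_lit 40, nat_lit 80, nat_lit 100], [nat_lit 0, nat_lit 112, nat_lit 1353], [(nat_lit 0, nat_lit 0, nat_lit 0), (nat_lit 1000, nat_lit 974, nat_lit 44), (nat_lit 1000, nat_lit 789, nat_lit 608)], (nat_lit 80, nat_lit 100, nat_lit 48)⟩
noncomputable def p020_k65 : C1.Kn := ⟨[nat_lit 60, nat_lit 100, nat_lit 120], [nat_lit 0, nat_lit 755, nat_lit 1734], [(nat_lit 0, nat_lit 0, nat_lit 0), (nat_lit 1000, nat_lit 882, nat_lit 294), (nat_lit 1000, nat_lit 866, nat_lit 684)], (nat_lit 85, nat_lit 100, nat_lit 54)⟩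
noncomputable def p020_k66 : C1.Kn := ⟨[nat_lit 60, nat_lit 100, nat_lit 120], [nat_lit 0, nat_lit 609, nat_lit 1609], [(nat_lit 0, nat_lit 0, nat_lit 0), (nat_lit 1000, nat_lit 905, nat_lit 238), (nat_lit 1000, nat_lit 882, nat_lit 668)], (nat_lit 87, nat_lit 100, nat_lit 60)⟩
noncomputable def p020_k67 : C1.Kn := ⟨[nat_lit 60, nat_lit 100], [nat_lit 0, nat_lit 909], [(nat_lit 0, nat_lit 0, nat_lit 0), (nat_lit 1000, nat_lit 858, nat_lit 354)], (nat_lit 84, nat_lit 100, nat_lit 48)⟩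
noncomputable def p020_k68 : C1.Kn := ⟨[nat_lit 60, nat_lit 100], [nat_lit 0, nat_lit 1004], [(nat_lit 0, nat_lit 0, nat_lit 0), (nat_lit 1000, nat_lit 843, nat_lit 392)], (nat_lit 83, nat_lit 100, nat_lit 48)⟩
noncomputable def p020_k69 : C1.Kn := ⟨[nat_lit 60, nat_lit 100], [nat_lit 0, nat_lit 909], [(nat_lit 0, nat_lit 0, nat_lit 0), (nat_lit 1000, nat_lit 858, nat_lit 354)], (nat_lit 84, nat_lit 100, nat_lit 54)⟩
noncomputable def p020_k70 : C1.Kn := ⟨[nat_lit 60, nat_lit 100], [nat_lit 0, nat_lit 1004], [(nat_lit 0, nat_lit 0, nat_lit 0), (nat_lit 1000, nat_lit 843, nat_lit 392)], (nat_lit 83, nat_lit 100, nat_lit 54)⟩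
noncomputable def p020_k71 : C1.Kn := ⟨[nat_lit 60, nat_lit 100], [nat_lit 0, nat_lit 1063], [(nat_lit 0, nat_lit 0, nat_lit 0), (nat_lit 1000, nat_lit 834, nat_lit 414)], (nat_lit 82, nat_lit 100, nat_lit 48)⟩
noncomputable def p020_k72 : C1.Kn := ⟨[nat_lit 60, nat_lit 100], [nat_lit 0, nat_lit 1095], [(nat_lit 0, nat_lit 0, nat_lit 0), (nat_lit 1000, nat_lit 829, nat_lit 427)], (nat_lit 82, nat_lit 100, nat_lit 48)⟩
noncomputable def p020_k73 : C1.Kn := ⟨[nat_lit 40, nat_lit 80, nat_lit 100], [nat_lit 0, nat_lit 79, nat_lit 1328], [(nat_lit 0, nat_lit 0, nat_lit 0), (nat_lit 1000, nat_lit 981, nat_lit 31), (nat_lit 1000, nat_lit 792, nat_lit 599)], (nat_lit 80, nat_lit 100, nat_lit 48)⟩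
noncomputable def p020_k74 : C1.Kn := ⟨[nat_lit 60, nat_lit 100], [nat_lit 0, nat_lit 1125], [(nat_lit 0, nat_lit 0, nat_lit 0), (nat_lit 1000, nat_lit 824, nat_lit 439)], (nat_lit 82, nat_lit 100, nat_lit 48)⟩
noncomputable def p020_k75 : C1.Kn := ⟨[nat_lit 40, nat_lit 80, nat_lit 100], [nat_lit 0, nat_lit 33, nat_lit 1304], [(nat_lit 0, nat_lit 0, nat_lit 0), (nat_lit 1000, nat_lit 992, nat_lit 13), (nat_lit 1000, nat_lit 796, nat_lit 599)], (nat_lit 81, nat_lit 100, nat_lit 48)⟩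
noncomputable def p020_k76 : C1.Kn := ⟨[nat_lit 60, nat_lit 100], [nat_lit 0, nat_lit 1157], [(nat_lit 0, nat_lit 0, nat_lit 0), (nat_lit 1000, nat_lit 819, nat_lit 452)], (nat_lit 81, nat_lit 100, nat_lit 48)⟩
noncomputable def p020_k77 : C1.Kn := ⟨[nat_lit 40, nat_lit 60, nat_lit 80, nat_lit 100], [nat_lit 0, nat_lit 0, nat_lit 581, nat_lit 1141], [(nat_lit 0, nat_lit 0, nat_lit 0), (nat_lit 0, nat_lit 0, nat_lit 0), (nat_lit 1000, nat_lit 827, nat_lit 411), (nat_lit 1000, nat_lit 822, nat_lit 438)], (nat_lit 81, nat_lit 100, nat_lit 48)⟩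
noncomputable def p020_k78 : C1.Kn := ⟨[nat_lit 60, nat_lit 100], [nat_lit 0, nat_lit 1188], [(nat_lit 0, nat_lit 0, nat_lit 0), (nat_lit 1000, nat_lit 814, nat_lit 464)], (nat_lit 81, nat_lit 100, nat_lit 48)⟩
noncomputable def p020_k79 : C1.Kn := ⟨[nat_lit 40, nat_lit 60, nat_lit 80, nat_lit 100], [nat_lit 0, nat_lit 0, nat_lit 598, nat_lit 1162], [(nat_lit 0, nat_lit 0, nat_lit 0), (nat_lit 0, nat_lit 0, nat_lit 0), (nat_lit 1000, nat_lit 822, nat_lit 420), (nat_lit 1000, nat_lit 818, nat_lit 441)], (nat_lit 81, nat_lit 100, nat_lit 48)⟩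
noncomputable def p020_k80 : C1.Kn := ⟨[nat_lit 40, nat_lit 80, nat_lit 100], [nat_lit 0, nat_lit 0, nat_lit 1280], [(nat_lit 0, nat_lit 0, nat_lit 0), (nat_lit 0, nat_lit 0, nat_lit 0), (nat_lit 1000, nat_lit 800, nat_lit 600)], (nat_lit 80, nat_lit 100, nat_lit 51)⟩
noncomputable def p020_k81 : C1.Kn := ⟨[nat_lit 60, nat_lit 100], [nat_lit 0, nat_lit 1063], [(nat_lit 0, nat_lit 0, nat_lit 0), (nat_lit 1000, nat_lit 834, nat_lit 414)], (nat_lit 82, nat_lit 100, nat_lit 51)⟩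
noncomputable def p020_k82 : C1.Kn := ⟨[nat_lit 40, nat_lit 80, nat_lit 100], [nat_lit 0, nat_lit 79, nat_lit 1328], [(nat_lit 0, nat_lit 0, nat_lit 0), (nat_lit 1000, nat_lit 981, nat_lit 31), (nat_lit 1000, nat_lit 792, nat_lit 599)], (nat_lit 80, nat_lit 100, nat_lit 51)⟩
noncomputable def p020_k83 : C1.Kn := ⟨[nat_lit 60, nat_lit 100], [nat_lit 0, nat_lit 1157], [(nat_lit 0, nat_lit 0, nat_lit 0), (nat_lit 1000, nat_lit 819, nat_lit 452)], (nat_lit 81, nat_lit 100, nat_lit 51)⟩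
noncomputable def p020_k84 : C1.Kn := ⟨[nat_lit 60, nat_lit 100], [nat_lit 0, nat_lit 1188], [(nat_lit 0, nat_lit 0, nat_lit 0), (nat_lit 1000, nat_lit 814, nat_lit 464)], (nat_lit 81, nat_lit 100, nat_lit 51)⟩
noncomputable def p020_k85 : C1.Kn := ⟨[nat_lit 60, nat_lit 100], [nat_lit 0, nat_lit 1063], [(nat_lit 0, nat_lit 0, nat_lit 0), (nat_lit 1000, nat_lit 834, nat_lit 414)], (nat_lit 82, nat_lit 100, nat_lit 54)⟩
noncomputable def p020_k86 : C1.Kn := ⟨[nat_lit 40, nat_lit 80, nat_lit 100], [nat_lit 0, nat_lit 79, nat_lit 1328], [(nat_lit 0, nat_lit 0, nat_lit 0), (nat_lit 1000, nat_lit 981, nat_lit 31), (nat_lit 1000, nat_lit 792, nat_lit 599)], (nat_lit 80, nat_lit 100, nat_lit 54)⟩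
noncomputable def p020_l0 : Lf2 := ⟨nat_lit 0, nat_lit 3, [nat_lit 45, nat_lit 5, nat_lit 5, nat_lit 20], false, nat_lit 0, nat_lit 0, nat_lit 0, nat_lit 0, ⟨nat_lit 1000, nat_lit 0, nat_lit 0, nat_lit 0, nat_lit 0, nat_lit 0, nat_lit 0, nat_lit 0, nat_lit 0, nat_lit 0, nat_lit 0, nat_lit 0, nat_lit 0, nat_lit 0, nat_lit 0, nat_lit 0, false, false⟩,
 nat_lit 0, nat_lit 0, nat_lit 0, nat_lit 0, nat_lit 0, nat_lit 5616, nat_lit 0, nat_lit 0, nat_lit 393, nat_lit 1279, nat_lit 0, nat_lit 0, nat_lit 0, nat_lit 0, nat_lit 0, nat_lit 0, nat_lit 0, nat_lit 0, [],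
 ⟨p020_k0, nat_lit 0, nat_lit 0, nat_lit 0, nat_lit 0, nat_lit 1404801, [nat_lit 2032000001, nat_lit 4688000000], [], [nat_lit 21995154800, nat_lit 22017920710, nat_lit 22270091600, nat_lit 22292652170], nat_lit 1271250, nat_lit 1271250, nat_lit 904401, nat_lit 1033601, nat_lit 0, nat_lit 0, [nat_lit 490000, nat_lit 1100000], [nat_lit 24, nat_lit 40, nat_lit 80, nat_lit 80]⟩, ⟨p020_k1, nat_lit 0, nat_lit 0, nat_lit 0, nat_lit 0, nat_lit 0, [nat_lit 3282000000, nat_lit 4688000000], [], [nat_lit 18235729546, nat_lit 18461536786, nat_lit 18360367751, nat_lit 18580036469], nat_lit 0, nat_lit 0, nat_lit 0, nat_lit 0, nat_lit 0, nat_lit 0, [], [nat_lit 40, nat_lit 40, nat_lit 80, nat_lit 80]⟩,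
 zbF0, [⟨nat_lit 0, nat_lit 86, nat_lit 84, nat_lit 100, nat_lit 538299417⟩]⟩
noncomputable def p020_l1 : Lf2 := ⟨nat_lit 0, nat_lit 3, [nat_lit 45, nat_lit 5, nat_lit 5, nat_lit 20], true, nat_lit 0, nat_lit 0, nat_lit 0, nat_lit 0, ⟨nat_lit 0, nat_lit 0, nat_lit 1000, nat_lit 7, nat_lit 212, nat_lit 0, nat_lit 0, nat_lit 0, nat_lit 0, nat_lit 215, nat_lit 9141, nat_lit 235, nat_lit 52304337, nat_lit 0, nat_lit 0, nat_lit 2630344, false, false⟩,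
 nat_lit 0, nat_lit 100000, nat_lit 0, nat_lit 8040, nat_lit 75000, nat_lit 0, nat_lit 60000, nat_lit 20000, nat_lit 0, nat_lit 0, nat_lit 0, nat_lit 0, nat_lit 0, nat_lit 0, nat_lit 0, nat_lit 1000000, nat_lit 0, nat_lit 0, [(nat_lit 18, [(nat_lit 6, nat_lit 1000)])],
 ⟨p020_k2, nat_lit 0, nat_lit 0, nat_lit 0, nat_lit 0, nat_lit 1404801, [nat_lit 160697066667, nat_lit 200386000000, nat_lit 279434000000, nat_lit 318364800000], [], [nat_lit 1725031256534, nat_lit 1725327985454, nat_lit 1723445498134, nat_lit 1723731628814], nat_lit 1271250, nat_lit 1271250, nat_lit 904401, nat_lit 1033601, nat_lit 0, nat_lit 0, [nat_lit 490000, nat_lit 631250, nat_lit 936250, nat_lit 1100000], [nat_lit 150, nat_lit 40, nat_lit 20, nat_lit 40]⟩, C1.Rw.none,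
 ⟨nat_lit 4444, nat_lit 4473, ⟨.ofNat (nat_lit 515241), .ofNat (nat_lit 542432), .ofNat (nat_lit 517397), .ofNat (nat_lit 544588), .ofNat (nat_lit 515567), .ofNat (nat_lit 542690), .ofNat (nat_lit 517725), .ofNat (nat_lit 544847)⟩, ⟨.ofNat (nat_lit 0), .ofNat (nat_lit 0), .ofNat (nat_lit 0), .ofNat (nat_lit 0), .ofNat (nat_lit 0), .ofNat (nat_lit 0), .ofNat (nat_lit 0), .ofNat (nat_lit 0)⟩⟩, [⟨nat_lit 0, nat_lit 85, nat_lit 84, nat_lit 100, nat_lit 14005602241⟩, ⟨nat_lit 0, nat_lit 85, nat_lit 83, nat_lit 100, nat_lit 14174344437⟩, ⟨nat_lit 0, nat_lit 86, nat_lit 84, nat_lit 100, nat_lit 13842746401⟩]⟩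
noncomputable def p020_l2 : Lf2 := ⟨nat_lit 0, nat_lit 3, [nat_lit 45, nat_lit 5, nat_lit 5, nat_lit 20], false, nat_lit 0, nat_lit 0, nat_lit 0, nat_lit 0, ⟨nat_lit 1000, nat_lit 0, nat_lit 0, nat_lit 0, nat_lit 0, nat_lit 0, nat_lit 0, nat_lit 0, nat_lit 0, nat_lit 0, nat_lit 0, nat_lit 0, nat_lit 0, nat_lit 0, nat_lit 0, nat_lit 0, false, false⟩,
 nat_lit 0, nat_lit 0, nat_lit 0, nat_lit 0, nat_lit 0, nat_lit 5577, nat_lit 0, nat_lit 0, nat_lit 392, nat_lit 1199, nat_lit 0, nat_lit 0, nat_lit 0, nat_lit 0, nat_lit 0, nat_lit 0, nat_lit 0, nat_lit 0, [],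
 ⟨p020_k0, nat_lit 0, nat_lit 0, nat_lit 0, nat_lit 0, nat_lit 1413590, [nat_lit 2032000001, nat_lit 4688000000], [], [nat_lit 22179324001, nat_lit 22201262076, nat_lit 22246328001, nat_lit 22268217941], nat_lit 1271250, nat_lit 1271250, nat_lit 936251, nat_lit 968401, nat_lit 0, nat_lit 0, [nat_lit 490000, nat_lit 1100000], [nat_lit 24, nat_lit 40, nat_lit 80, nat_lit 80]⟩, ⟨p020_k3, nat_lit 0, nat_lit 0, nat_lit 0, nat_lit 0, nat_lit 0, [nat_lit 3282000000, nat_lit 4688000000], [], [nat_lit 18487278632, nat_lit 18599011026, nat_lit 18517605457, nat_lit 18628458142], nat_lit 0, nat_lit 0, nat_lit 0, nat_lit 0, nat_lit 0, nat_lit 0, [], [nat_lit 40, nat_lit 40, nat_lit 80, nat_lit 80]⟩,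
 zbF0, [⟨nat_lit 0, nat_lit 85, nat_lit 84, nat_lit 100, nat_lit 546114009⟩]⟩
noncomputable def p020_l3 : Lf2 := ⟨nat_lit 0, nat_lit 3, [nat_lit 45, nat_lit 5, nat_lit 5, nat_lit 20], true, nat_lit 0, nat_lit 0, nat_lit 0, nat_lit 0, ⟨nat_lit 0, nat_lit 0, nat_lit 1000, nat_lit 7, nat_lit 211, nat_lit 0, nat_lit 0, nat_lit 0, nat_lit 0, nat_lit 215, nat_lit 11750, nat_lit 241, nat_lit 52381231, nat_lit 0, nat_lit 0, nat_lit 2623040, false, false⟩,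
 nat_lit 0, nat_lit 100000, nat_lit 0, nat_lit 40131, nat_lit 75000, nat_lit 0, nat_lit 60000, nat_lit 20000, nat_lit 0, nat_lit 0, nat_lit 0, nat_lit 0, nat_lit 0, nat_lit 0, nat_lit 0, nat_lit 1000000, nat_lit 0, nat_lit 0, [(nat_lit 18, [(nat_lit 6, nat_lit 1000)])],
 ⟨p020_k2, nat_lit 0, nat_lit 0, nat_lit 0, nat_lit 0, nat_lit 1413590, [nat_lit 160697066667, nat_lit 200386000000, nat_lit 279434000000, nat_lit 318364800000], [], [nat_lit 1724523357334, nat_lit 1724817502634, nat_lit 1724164070934, nat_lit 1724455544694], nat_lit 1271250, nat_lit 1271250, nat_lit 936251, nat_lit 968401, nat_lit 0, nat_lit 0, [nat_lit 490000, nat_lit 631250, nat_lit 936250, nat_lit 1100000], [nat_lit 150, nat_lit 40, nat_lit 20, nat_lit 40]⟩, C1.Rw.none,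
 ⟨nat_lit 4444, nat_lit 4473, ⟨.ofNat (nat_lit 524195), .ofNat (nat_lit 530993), .ofNat (nat_lit 525273), .ofNat (nat_lit 532071), .ofNat (nat_lit 524506), .ofNat (nat_lit 531286), .ofNat (nat_lit 525584), .ofNat (nat_lit 532365)⟩, ⟨.ofNat (nat_lit 0), .ofNat (nat_lit 0), .ofNat (nat_lit 0), .ofNat (nat_lit 0), .ofNat (nat_lit 0), .ofNat (nat_lit 0), .ofNat (nat_lit 0), .ofNat (nat_lit 0)⟩⟩, [⟨nat_lit 0, nat_lit 85, nat_lit 83, nat_lit 100, nat_lit 14174344437⟩, ⟨nat_lit 0, nat_lit 84, nat_lit 83, nat_lit 100, nat_lit 14343086632⟩, ⟨nat_lit 0, nat_lit 85, nat_lit 84, nat_lit 100, nat_lit 14005602241⟩]⟩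
noncomputable def p020_l4 : Lf2 := ⟨nat_lit 0, nat_lit 3, [nat_lit 45, nat_lit 5, nat_lit 5, nat_lit 20], false, nat_lit 0, nat_lit 0, nat_lit 0, nat_lit 0, ⟨nat_lit 1000, nat_lit 0, nat_lit 0, nat_lit 0, nat_lit 0, nat_lit 0, nat_lit 0, nat_lit 0, nat_lit 0, nat_lit 0, nat_lit 0, nat_lit 0, nat_lit 0, nat_lit 0, nat_lit 0, nat_lit 0, false, false⟩,
 nat_lit 0, nat_lit 0, nat_lit 0, nat_lit 0, nat_lit 0, nat_lit 5568, nat_lit 0, nat_lit 0, nat_lit 392, nat_lit 1194, nat_lit 0, nat_lit 0, nat_lit 0, nat_lit 0, nat_lit 0, nat_lit 0, nat_lit 0, nat_lit 0, [],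
 ⟨p020_k0, nat_lit 0, nat_lit 0, nat_lit 0, nat_lit 0, nat_lit 1413590, [nat_lit 2032000001, nat_lit 4688000000], [], [nat_lit 22246328001, nat_lit 22268217941, nat_lit 22313357400, nat_lit 22335969305], nat_lit 1271250, nat_lit 1271250, nat_lit 968401, nat_lit 1000851, nat_lit 0, nat_lit 0, [nat_lit 490000, nat_lit 1100000], [nat_lit 24, nat_lit 40, nat_lit 80, nat_lit 80]⟩, ⟨p020_k3, nat_lit 0, nat_lit 0, nat_lit 0, nat_lit 0, nat_lit 0, [nat_lit 3282000000, nat_lit 4688000000], [], [nat_lit 18535140713, nat_lit 18627808906, nat_lit 18574549706, nat_lit 18666644125], nat_lit 0, nat_lit 0, nat_lit 0, nat_lit 0, nat_lit 0, nat_lit 0, [], [nat_lit 40, nat_lit 40, nat_lit 80, nat_lit 80]⟩,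
 zbF0, []⟩
noncomputable def p020_l5 : Lf2 := ⟨nat_lit 0, nat_lit 3, [nat_lit 45, nat_lit 5, nat_lit 5, nat_lit 20], true, nat_lit 0, nat_lit 0, nat_lit 0, nat_lit 0, ⟨nat_lit 0, nat_lit 0, nat_lit 1000, nat_lit 7, nat_lit 214, nat_lit 0, nat_lit 0, nat_lit 0, nat_lit 0, nat_lit 215, nat_lit 11918, nat_lit 238, nat_lit 52087235, nat_lit 0, nat_lit 0, nat_lit 2650760, false, false⟩,
 nat_lit 0, nat_lit 100000, nat_lit 0, nat_lit 26711, nat_lit 75000, nat_lit 0, nat_lit 60000, nat_lit 20000, nat_lit 0, nat_lit 0, nat_lit 0, nat_lit 0, nat_lit 0, nat_lit 0, nat_lit 0, nat_lit 1000000, nat_lit 0, nat_lit 0, [(nat_lit 18, [(nat_lit 6, nat_lit 1000)])],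
 ⟨p020_k2, nat_lit 0, nat_lit 0, nat_lit 0, nat_lit 0, nat_lit 1413590, [nat_lit 160697066667, nat_lit 200386000000, nat_lit 279434000000, nat_lit 318364800000], [], [nat_lit 1724164070934, nat_lit 1724455544694, nat_lit 1723804784534, nat_lit 1724093586755], nat_lit 1271250, nat_lit 1271250, nat_lit 968401, nat_lit 1000851, nat_lit 0, nat_lit 0, [nat_lit 490000, nat_lit 631250, nat_lit 936250, nat_lit 1100000], [nat_lit 150, nat_lit 40, nat_lit 20, nat_lit 40]⟩, C1.Rw.none,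
 ⟨nat_lit 4444, nat_lit 4473, ⟨.ofNat (nat_lit 530993), .ofNat (nat_lit 537791), .ofNat (nat_lit 532071), .ofNat (nat_lit 538869), .ofNat (nat_lit 531286), .ofNat (nat_lit 538067), .ofNat (nat_lit 532365), .ofNat (nat_lit 539146)⟩, ⟨.ofNat (nat_lit 0), .ofNat (nat_lit 0), .ofNat (nat_lit 0), .ofNat (nat_lit 0), .ofNat (nat_lit 0), .ofNat (nat_lit 0), .ofNat (nat_lit 0), .ofNat (nat_lit 0)⟩⟩, [⟨nat_lit 0, nat_lit 85, nat_lit 83, nat_lit 100, nat_lit 14174344437⟩, ⟨nat_lit 0, nat_lit 84, nat_lit 83, nat_lit 100, nat_lit 14343086632⟩, ⟨nat_lit 0, nat_lit 85, nat_lit 84, nat_lit 100, nat_lit 14005602241⟩]⟩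
noncomputable def p020_l6 : Lf2 := ⟨nat_lit 0, nat_lit 3, [nat_lit 45, nat_lit 5, nat_lit 5, nat_lit 20], false, nat_lit 0, nat_lit 0, nat_lit 0, nat_lit 0, ⟨nat_lit 1000, nat_lit 0, nat_lit 0, nat_lit 0, nat_lit 0, nat_lit 0, nat_lit 0, nat_lit 0, nat_lit 0, nat_lit 0, nat_lit 0, nat_lit 0, nat_lit 0, nat_lit 0, nat_lit 0, nat_lit 0, false, false⟩,
 nat_lit 0, nat_lit 3622, nat_lit 0, nat_lit 0, nat_lit 2716, nat_lit 5579, nat_lit 0, nat_lit 0, nat_lit 320, nat_lit 1192, nat_lit 0, nat_lit 0, nat_lit 0, nat_lit 0, nat_lit 0, nat_lit 0, nat_lit 0, nat_lit 0, [],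
 ⟨p020_k0, nat_lit 0, nat_lit 0, nat_lit 0, nat_lit 0, nat_lit 1413590, [nat_lit 2032000001, nat_lit 4688000000], [], [nat_lit 16716386888, nat_lit 16742519608, nat_lit 16747490512, nat_lit 16776974650], nat_lit 1271250, nat_lit 1271250, nat_lit 1000851, nat_lit 1033601, nat_lit 0, nat_lit 0, [nat_lit 490000, nat_lit 1100000], [nat_lit 24, nat_lit 40, nat_lit 80, nat_lit 80]⟩, ⟨p020_k3, nat_lit 0, nat_lit 0, nat_lit 0, nat_lit 0, nat_lit 0, [nat_lit 3282000000, nat_lit 4688000000], [], [nat_lit 18567326222, nat_lit 18659530394, nat_lit 18606622530, nat_lit 18698252037], nat_lit 0, nat_lit 0, nat_lit 0, nat_lit 0, nat_lit 0, nat_lit 0, [], [nat_lit 40, nat_lit 40, nat_lit 80, nat_lit 80]⟩,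
 zbF0, []⟩
noncomputable def p020_l7 : Lf2 := ⟨nat_lit 0, nat_lit 3, [nat_lit 45, nat_lit 5, nat_lit 5, nat_lit 20], false, nat_lit 0, nat_lit 0, nat_lit 0, nat_lit 0, ⟨nat_lit 1000, nat_lit 0, nat_lit 0, nat_lit 0, nat_lit 0, nat_lit 0, nat_lit 0, nat_lit 0, nat_lit 0, nat_lit 0, nat_lit 0, nat_lit 0, nat_lit 0, nat_lit 0, nat_lit 0, nat_lit 0, false, false⟩,
 nat_lit 0, nat_lit 0, nat_lit 0, nat_lit 0, nat_lit 0, nat_lit 5591, nat_lit 0, nat_lit 0, nat_lit 392, nat_lit 1279, nat_lit 0, nat_lit 0, nat_lit 0, nat_lit 0, nat_lit 0, nat_lit 0, nat_lit 0, nat_lit 0, [],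
 ⟨p020_k4, nat_lit 0, nat_lit 0, nat_lit 0, nat_lit 0, nat_lit 1395389, [nat_lit 2032000001, nat_lit 4688000000], [], [nat_lit 22134306211, nat_lit 22156292421, nat_lit 22201262076, nat_lit 22223200151], nat_lit 1271250, nat_lit 1271250, nat_lit 904401, nat_lit 936251, nat_lit 0, nat_lit 0, [nat_lit 490000, nat_lit 1100000], [nat_lit 24, nat_lit 40, nat_lit 80, nat_lit 80]⟩, ⟨p020_k1, nat_lit 0, nat_lit 0, nat_lit 0, nat_lit 0, nat_lit 0, [nat_lit 3282000000, nat_lit 4688000000], [], [nat_lit 18235024438, nat_lit 18346145570, nat_lit 18264852952, nat_lit 18376762754], nat_lit 0, nat_lit 0, nat_lit 0, nat_lit 0, nat_lit 0, nat_lit 0, [], [nat_lit 40, nat_lit 40, nat_lit 80, nat_lit 80]⟩,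
 zbF0, [⟨nat_lit 0, nat_lit 86, nat_lit 84, nat_lit 100, nat_lit 549060748⟩]⟩
noncomputable def p020_l8 : Lf2 := ⟨nat_lit 2, nat_lit 3, [nat_lit 45, nat_lit 5, nat_lit 5, nat_lit 20], true, nat_lit 0, nat_lit 0, nat_lit 0, nat_lit 0, zbN0,
 nat_lit 0, nat_lit 0, nat_lit 0, nat_lit 0, nat_lit 0, nat_lit 0, nat_lit 0, nat_lit 0, nat_lit 0, nat_lit 0, nat_lit 0, nat_lit 0, nat_lit 0, nat_lit 0, nat_lit 0, nat_lit 0, nat_lit 0, nat_lit 0, [],
 ⟨p020_k5, nat_lit 0, nat_lit 0, nat_lit 0, nat_lit 0, nat_lit 1395389, [], [], [], nat_lit 1271250, nat_lit 1271250, nat_lit 904401, nat_lit 936251, nat_lit 0, nat_lit 0, [nat_lit 490000, nat_lit 631250, nat_lit 936250, nat_lit 1100000], [nat_lit 150, nat_lit 40, nat_lit 20, nat_lit 40]⟩, C1.Rw.none,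
 zbF0, []⟩
noncomputable def p020_l9 : Lf2 := ⟨nat_lit 0, nat_lit 3, [nat_lit 45, nat_lit 5, nat_lit 5, nat_lit 20], false, nat_lit 0, nat_lit 0, nat_lit 0, nat_lit 0, ⟨nat_lit 1000, nat_lit 0, nat_lit 0, nat_lit 0, nat_lit 0, nat_lit 0, nat_lit 0, nat_lit 0, nat_lit 0, nat_lit 0, nat_lit 0, nat_lit 0, nat_lit 0, nat_lit 0, nat_lit 0, nat_lit 0, false, false⟩,
 nat_lit 0, nat_lit 0, nat_lit 0, nat_lit 0, nat_lit 0, nat_lit 5591, nat_lit 0, nat_lit 0, nat_lit 392, nat_lit 1274, nat_lit 0, nat_lit 0, nat_lit 0, nat_lit 0, nat_lit 0, nat_lit 0, nat_lit 0, nat_lit 0, [],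
 ⟨p020_k4, nat_lit 0, nat_lit 0, nat_lit 0, nat_lit 0, nat_lit 1395389, [nat_lit 2032000001, nat_lit 4688000000], [], [nat_lit 22201262076, nat_lit 22223200151, nat_lit 22268217941, nat_lit 22290107881], nat_lit 1271250, nat_lit 1271250, nat_lit 936251, nat_lit 968401, nat_lit 0, nat_lit 0, [nat_lit 490000, nat_lit 1100000], [nat_lit 24, nat_lit 40, nat_lit 80, nat_lit 80]⟩, ⟨p020_k1, nat_lit 0, nat_lit 0, nat_lit 0, nat_lit 0, nat_lit 0, [nat_lit 3282000000, nat_lit 4688000000], [], [nat_lit 18272915421, nat_lit 18377328075, nat_lit 18313240075, nat_lit 18407379939], nat_lit 0, nat_lit 0, nat_lit 0, nat_lit 0, nat_lit 0, nat_lit 0, [], [nat_lit 40, nat_lit 40, nat_lit 80, nat_lit 80]⟩,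
 zbF0, [⟨nat_lit 0, nat_lit 86, nat_lit 84, nat_lit 100, nat_lit 223533840⟩]⟩
noncomputable def p020_l10 : Lf2 := ⟨nat_lit 2, nat_lit 3, [nat_lit 45, nat_lit 5, nat_lit 5, nat_lit 20], true, nat_lit 0, nat_lit 0, nat_lit 0, nat_lit 0, zbN0,
 nat_lit 0, nat_lit 0, nat_lit 0, nat_lit 0, nat_lit 0, nat_lit 0, nat_lit 0, nat_lit 0, nat_lit 0, nat_lit 0, nat_lit 0, nat_lit 0, nat_lit 0, nat_lit 0, nat_lit 0, nat_lit 0, nat_lit 0, nat_lit 0, [],
 ⟨p020_k5, nat_lit 0, nat_lit 0, nat_lit 0, nat_lit 0, nat_lit 1395389, [], [], [], nat_lit 1271250, nat_lit 1271250, nat_lit 936251, nat_lit 968401, nat_lit 0, nat_lit 0, [nat_lit 490000, nat_lit 631250, nat_lit 936250, nat_lit 1100000], [nat_lit 150, nat_lit 40, nat_lit 20, nat_lit 40]⟩, C1.Rw.none,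
 zbF0, []⟩
noncomputable def p020_l11 : Lf2 := ⟨nat_lit 0, nat_lit 3, [nat_lit 45, nat_lit 5, nat_lit 5, nat_lit 20], false, nat_lit 0, nat_lit 0, nat_lit 0, nat_lit 0, ⟨nat_lit 1000, nat_lit 0, nat_lit 0, nat_lit 0, nat_lit 0, nat_lit 0, nat_lit 0, nat_lit 0, nat_lit 0, nat_lit 0, nat_lit 0, nat_lit 0, nat_lit 0, nat_lit 0, nat_lit 0, nat_lit 0, false, false⟩,
 nat_lit 0, nat_lit 3832, nat_lit 0, nat_lit 0, nat_lit 2885, nat_lit 5591, nat_lit 0, nat_lit 0, nat_lit 313, nat_lit 1273, nat_lit 0, nat_lit 0, nat_lit 0, nat_lit 0, nat_lit 0, nat_lit 0, nat_lit 0, nat_lit 0, [],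
 ⟨p020_k4, nat_lit 0, nat_lit 0, nat_lit 0, nat_lit 0, nat_lit 1395389, [nat_lit 2032000001, nat_lit 4688000000], [], [nat_lit 16640620127, nat_lit 16671213193, nat_lit 16709025644, nat_lit 16739351538], nat_lit 1271250, nat_lit 1271250, nat_lit 968401, nat_lit 1033601, nat_lit 0, nat_lit 0, [nat_lit 490000, nat_lit 1100000], [nat_lit 24, nat_lit 40, nat_lit 80, nat_lit 80]⟩, ⟨p020_k1, nat_lit 0, nat_lit 0, nat_lit 0, nat_lit 0, nat_lit 0, [nat_lit 3282000000, nat_lit 4688000000], [], [nat_lit 18314905700, nat_lit 18407805241, nat_lit 18395555008, nat_lit 18487303273], nat_lit 0, nat_lit 0, nat_lit 0, nat_lit 0, nat_lit 0, nat_lit 0, [], [nat_lit 40, nat_lit 40, nat_lit 80, nat_lit 80]⟩,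
 zbF0, []⟩
noncomputable def p020_l12 : Lf2 := ⟨nat_lit 0, nat_lit 3, [nat_lit 45, nat_lit 5, nat_lit 5, nat_lit 20], false, nat_lit 0, nat_lit 0, nat_lit 0, nat_lit 0, ⟨nat_lit 1000, nat_lit 0, nat_lit 0, nat_lit 0, nat_lit 0, nat_lit 0, nat_lit 0, nat_lit 0, nat_lit 0, nat_lit 0, nat_lit 0, nat_lit 0, nat_lit 0, nat_lit 0, nat_lit 0, nat_lit 0, false, false⟩,
 nat_lit 0, nat_lit 0, nat_lit 0, nat_lit 0, nat_lit 0, nat_lit 5589, nat_lit 0, nat_lit 0, nat_lit 392, nat_lit 1237, nat_lit 0, nat_lit 0, nat_lit 0, nat_lit 0, nat_lit 0, nat_lit 0, nat_lit 0, nat_lit 0, [],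
 ⟨p020_k4, nat_lit 0, nat_lit 0, nat_lit 0, nat_lit 0, nat_lit 1404081, [nat_lit 2032000001, nat_lit 4688000000], [], [nat_lit 22201262076, nat_lit 22223200151, nat_lit 22268217941, nat_lit 22290107881], nat_lit 1271250, nat_lit 1271250, nat_lit 936251, nat_lit 968401, nat_lit 0, nat_lit 0, [nat_lit 490000, nat_lit 1100000], [nat_lit 24, nat_lit 40, nat_lit 80, nat_lit 80]⟩, ⟨p020_k6, nat_lit 0, nat_lit 0, nat_lit 0, nat_lit 0, nat_lit 0, [nat_lit 3282000000, nat_lit 4688000000], [], [nat_lit 18377054569, nat_lit 18488473425, nat_lit 18407872776, nat_lit 18518441382], nat_lit 0, nat_lit 0, nat_lit 0, nat_lit 0, nat_lit 0, nat_lit 0, [], [nat_lit 40, nat_lit 40, nat_lit 80, nat_lit 80]⟩,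
 zbF0, [⟨nat_lit 0, nat_lit 85, nat_lit 83, nat_lit 100, nat_lit 551844306⟩]⟩
noncomputable def p020_l13 : Lf2 := ⟨nat_lit 2, nat_lit 3, [nat_lit 45, nat_lit 5, nat_lit 5, nat_lit 20], true, nat_lit 0, nat_lit 0, nat_lit 0, nat_lit 0, zbN0,
 nat_lit 0, nat_lit 0, nat_lit 0, nat_lit 0, nat_lit 0, nat_lit 0, nat_lit 0, nat_lit 0, nat_lit 0, nat_lit 0, nat_lit 0, nat_lit 0, nat_lit 0, nat_lit 0, nat_lit 0, nat_lit 0, nat_lit 0, nat_lit 0, [],
 ⟨p020_k5, nat_lit 0, nat_lit 0, nat_lit 0, nat_lit 0, nat_lit 1404081, [], [], [], nat_lit 1271250, nat_lit 1271250, nat_lit 936251, nat_lit 968401, nat_lit 0, nat_lit 0, [nat_lit 490000, nat_lit 631250, nat_lit 936250, nat_lit 1100000], [nat_lit 150, nat_lit 40, nat_lit 20, nat_lit 40]⟩, C1.Rw.none,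
 zbF0, []⟩
noncomputable def p020_l14 : Lf2 := ⟨nat_lit 0, nat_lit 3, [nat_lit 45, nat_lit 5, nat_lit 5, nat_lit 20], false, nat_lit 0, nat_lit 0, nat_lit 0, nat_lit 0, ⟨nat_lit 1000, nat_lit 0, nat_lit 0, nat_lit 0, nat_lit 0, nat_lit 0, nat_lit 0, nat_lit 0, nat_lit 0, nat_lit 0, nat_lit 0, nat_lit 0, nat_lit 0, nat_lit 0, nat_lit 0, nat_lit 0, false, false⟩,
 nat_lit 0, nat_lit 3729, nat_lit 0, nat_lit 0, nat_lit 2807, nat_lit 5579, nat_lit 0, nat_lit 0, nat_lit 316, nat_lit 1232, nat_lit 0, nat_lit 0, nat_lit 0, nat_lit 0, nat_lit 0, nat_lit 0, nat_lit 0, nat_lit 0, [],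
 ⟨p020_k4, nat_lit 0, nat_lit 0, nat_lit 0, nat_lit 0, nat_lit 1404081, [nat_lit 2032000001, nat_lit 4688000000], [], [nat_lit 16700987329, nat_lit 16727404129, nat_lit 16766232878, nat_lit 16796348825], nat_lit 1271250, nat_lit 1271250, nat_lit 968401, nat_lit 1033601, nat_lit 0, nat_lit 0, [nat_lit 490000, nat_lit 1100000], [nat_lit 24, nat_lit 40, nat_lit 80, nat_lit 80]⟩, ⟨p020_k6, nat_lit 0, nat_lit 0, nat_lit 0, nat_lit 0, nat_lit 0, [nat_lit 3282000000, nat_lit 4688000000], [], [nat_lit 18426226076, nat_lit 18519004914, nat_lit 18505968023, nat_lit 18597597530], nat_lit 0, nat_lit 0, nat_lit 0, nat_lit 0, nat_lit 0, nat_lit 0, [], [nat_lit 40, nat_lit 40, nat_lit 80, nat_lit 80]⟩,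
 zbF0, []⟩
noncomputable def p020_l15 : Lf2 := ⟨nat_lit 0, nat_lit 3, [nat_lit 45, nat_lit 5, nat_lit 5, nat_lit 20], false, nat_lit 0, nat_lit 0, nat_lit 0, nat_lit 0, ⟨nat_lit 1000, nat_lit 0, nat_lit 0, nat_lit 0, nat_lit 0, nat_lit 0, nat_lit 0, nat_lit 0, nat_lit 0, nat_lit 0, nat_lit 0, nat_lit 0, nat_lit 0, nat_lit 0, nat_lit 0, nat_lit 0, false, false⟩,
 nat_lit 0, nat_lit 0, nat_lit 0, nat_lit 0, nat_lit 0, nat_lit 5579, nat_lit 0, nat_lit 0, nat_lit 392, nat_lit 1197, nat_lit 0, nat_lit 0, nat_lit 0, nat_lit 0, nat_lit 0, nat_lit 0, nat_lit 0, nat_lit 0, [],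
 ⟨p020_k4, nat_lit 0, nat_lit 0, nat_lit 0, nat_lit 0, nat_lit 1412794, [nat_lit 2032000001, nat_lit 4688000000], [], [nat_lit 22201262076, nat_lit 22223200151, nat_lit 22268217941, nat_lit 22290107881], nat_lit 1271250, nat_lit 1271250, nat_lit 936251, nat_lit 968401, nat_lit 0, nat_lit 0, [nat_lit 490000, nat_lit 1100000], [nat_lit 24, nat_lit 40, nat_lit 80, nat_lit 80]⟩, ⟨p020_k3, nat_lit 0, nat_lit 0, nat_lit 0, nat_lit 0, nat_lit 0, [nat_lit 3282000000, nat_lit 4688000000], [], [nat_lit 18490233486, nat_lit 18599235502, nat_lit 18519201789, nat_lit 18628657017], nat_lit 0, nat_lit 0, nat_lit 0, nat_lit 0, nat_lit 0, nat_lit 0, [], [nat_lit 40, nat_lit 40, nat_lit 80, nat_lit 80]⟩,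
 zbF0, [⟨nat_lit 0, nat_lit 85, nat_lit 83, nat_lit 100, nat_lit 555507912⟩]⟩
noncomputable def p020_l16 : Lf2 := ⟨nat_lit 2, nat_lit 3, [nat_lit 45, nat_lit 5, nat_lit 5, nat_lit 20], true, nat_lit 0, nat_lit 0, nat_lit 0, nat_lit 0, zbN0,
 nat_lit 0, nat_lit 0, nat_lit 0, nat_lit 0, nat_lit 0, nat_lit 0, nat_lit 0, nat_lit 0, nat_lit 0, nat_lit 0, nat_lit 0, nat_lit 0, nat_lit 0, nat_lit 0, nat_lit 0, nat_lit 0, nat_lit 0, nat_lit 0, [],
 ⟨p020_k5, nat_lit 0, nat_lit 0, nat_lit 0, nat_lit 0, nat_lit 1412794, [], [], [], nat_lit 1271250, nat_lit 1271250, nat_lit 936251, nat_lit 968401, nat_lit 0, nat_lit 0, [nat_lit 490000, nat_lit 631250, nat_lit 936250, nat_lit 1100000], [nat_lit 150, nat_lit 40, nat_lit 20, nat_lit 40]⟩, C1.Rw.none,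
 zbF0, []⟩
noncomputable def p020_l17 : Lf2 := ⟨nat_lit 0, nat_lit 3, [nat_lit 45, nat_lit 5, nat_lit 5, nat_lit 20], false, nat_lit 0, nat_lit 0, nat_lit 0, nat_lit 0, ⟨nat_lit 1000, nat_lit 0, nat_lit 0, nat_lit 0, nat_lit 0, nat_lit 0, nat_lit 0, nat_lit 0, nat_lit 0, nat_lit 0, nat_lit 0, nat_lit 0, nat_lit 0, nat_lit 0, nat_lit 0, nat_lit 0, false, false⟩,
 nat_lit 0, nat_lit 0, nat_lit 0, nat_lit 0, nat_lit 0, nat_lit 5568, nat_lit 0, nat_lit 0, nat_lit 392, nat_lit 1194, nat_lit 0, nat_lit 0, nat_lit 0, nat_lit 0, nat_lit 0, nat_lit 0, nat_lit 0, nat_lit 0, [],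
 ⟨p020_k4, nat_lit 0, nat_lit 0, nat_lit 0, nat_lit 0, nat_lit 1412794, [nat_lit 2032000001, nat_lit 4688000000], [], [nat_lit 22268217941, nat_lit 22290107881, nat_lit 22335969305, nat_lit 22358581210], nat_lit 1271250, nat_lit 1271250, nat_lit 968401, nat_lit 1000851, nat_lit 0, nat_lit 0, [nat_lit 490000, nat_lit 1100000], [nat_lit 24, nat_lit 40, nat_lit 80, nat_lit 80]⟩, ⟨p020_k3, nat_lit 0, nat_lit 0, nat_lit 0, nat_lit 0, nat_lit 0, [nat_lit 3282000000, nat_lit 4688000000], [], [nat_lit 18535140713, nat_lit 18627808906, nat_lit 18574549706, nat_lit 18666644125], nat_lit 0, nat_lit 0, nat_lit 0, nat_lit 0, nat_lit 0, nat_lit 0, [], [nat_lit 40, nat_lit 40, nat_lit 80, nat_lit 80]⟩,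
 zbF0, []⟩
noncomputable def p020_l18 : Lf2 := ⟨nat_lit 2, nat_lit 3, [nat_lit 45, nat_lit 5, nat_lit 5, nat_lit 20], true, nat_lit 0, nat_lit 0, nat_lit 0, nat_lit 0, zbN0,
 nat_lit 0, nat_lit 0, nat_lit 0, nat_lit 0, nat_lit 0, nat_lit 0, nat_lit 0, nat_lit 0, nat_lit 0, nat_lit 0, nat_lit 0, nat_lit 0, nat_lit 0, nat_lit 0, nat_lit 0, nat_lit 0, nat_lit 0, nat_lit 0, [],
 ⟨p020_k5, nat_lit 0, nat_lit 0, nat_lit 0, nat_lit 0, nat_lit 1412794, [], [], [], nat_lit 1271250, nat_lit 1271250, nat_lit 968401, nat_lit 1000851, nat_lit 0, nat_lit 0, [nat_lit 490000, nat_lit 631250, nat_lit 936250, nat_lit 1100000], [nat_lit 150, nat_lit 40, nat_lit 20, nat_lit 40]⟩, C1.Rw.none,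
 zbF0, []⟩
noncomputable def p020_l19 : Lf2 := ⟨nat_lit 0, nat_lit 3, [nat_lit 45, nat_lit 5, nat_lit 5, nat_lit 20], false, nat_lit 0, nat_lit 0, nat_lit 0, nat_lit 0, ⟨nat_lit 1000, nat_lit 0, nat_lit 0, nat_lit 0, nat_lit 0, nat_lit 0, nat_lit 0, nat_lit 0, nat_lit 0, nat_lit 0, nat_lit 0, nat_lit 0, nat_lit 0, nat_lit 0, nat_lit 0, nat_lit 0, false, false⟩,
 nat_lit 0, nat_lit 3629, nat_lit 0, nat_lit 0, nat_lit 2732, nat_lit 5579, nat_lit 0, nat_lit 0, nat_lit 319, nat_lit 1192, nat_lit 0, nat_lit 0, nat_lit 0, nat_lit 0, nat_lit 0, nat_lit 0, nat_lit 0, nat_lit 0, [],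
 ⟨p020_k4, nat_lit 0, nat_lit 0, nat_lit 0, nat_lit 0, nat_lit 1412794, [nat_lit 2032000001, nat_lit 4688000000], [], [nat_lit 16778446460, nat_lit 16804609744, nat_lit 16809243425, nat_lit 16838230832], nat_lit 1271250, nat_lit 1271250, nat_lit 1000851, nat_lit 1033601, nat_lit 0, nat_lit 0, [nat_lit 490000, nat_lit 1100000], [nat_lit 24, nat_lit 40, nat_lit 80, nat_lit 80]⟩, ⟨p020_k3, nat_lit 0, nat_lit 0, nat_lit 0, nat_lit 0, nat_lit 0, [nat_lit 3282000000, nat_lit 4688000000], [], [nat_lit 18567326222, nat_lit 18659530394, nat_lit 18606622530, nat_lit 18698252037], nat_lit 0, nat_lit 0, nat_lit 0, nat_lit 0, nat_lit 0, nat_lit 0, [], [nat_lit 40, nat_lit 40, nat_lit 80, nat_lit 80]⟩,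
 zbF0, []⟩
noncomputable def p020_l20 : Lf2 := ⟨nat_lit 0, nat_lit 3, [nat_lit 45, nat_lit 5, nat_lit 5, nat_lit 20], false, nat_lit 0, nat_lit 0, nat_lit 0, nat_lit 0, ⟨nat_lit 1000, nat_lit 0, nat_lit 0, nat_lit 0, nat_lit 0, nat_lit 0, nat_lit 0, nat_lit 0, nat_lit 0, nat_lit 0, nat_lit 0, nat_lit 0, nat_lit 0, nat_lit 0, nat_lit 0, nat_lit 0, false, false⟩,
 nat_lit 0, nat_lit 0, nat_lit 0, nat_lit 0, nat_lit 0, nat_lit 5566, nat_lit 0, nat_lit 0, nat_lit 392, nat_lit 1162, nat_lit 0, nat_lit 0, nat_lit 0, nat_lit 0, nat_lit 0, nat_lit 0, nat_lit 0, nat_lit 0, [],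
 ⟨p020_k0, nat_lit 0, nat_lit 0, nat_lit 0, nat_lit 0, nat_lit 1422401, [nat_lit 2032000001, nat_lit 4688000000], [], [nat_lit 22179324001, nat_lit 22201262076, nat_lit 22246328001, nat_lit 22268217941], nat_lit 1271250, nat_lit 1271250, nat_lit 936251, nat_lit 968401, nat_lit 0, nat_lit 0, [nat_lit 490000, nat_lit 1100000], [nat_lit 24, nat_lit 40, nat_lit 80, nat_lit 80]⟩, ⟨p020_k7, nat_lit 0, nat_lit 0, nat_lit 0, nat_lit 0, nat_lit 0, [nat_lit 3282000000, nat_lit 4688000000], [], [nat_lit 18597953602, nat_lit 18709369411, nat_lit 18628123707, nat_lit 18738285074], nat_lit 0, nat_lit 0, nat_lit 0, nat_lit 0, nat_lit 0, nat_lit 0, [], [nat_lit 40, nat_lit 40, nat_lit 80, nat_lit 80]⟩,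
 zbF0, [⟨nat_lit 0, nat_lit 84, nat_lit 84, nat_lit 100, nat_lit 552619561⟩]⟩
noncomputable def p020_l21 : Lf2 := ⟨nat_lit 0, nat_lit 3, [nat_lit 45, nat_lit 5, nat_lit 5, nat_lit 20], true, nat_lit 0, nat_lit 0, nat_lit 0, nat_lit 0, ⟨nat_lit 0, nat_lit 0, nat_lit 1000, nat_lit 7, nat_lit 212, nat_lit 0, nat_lit 0, nat_lit 0, nat_lit 0, nat_lit 215, nat_lit 14351, nat_lit 241, nat_lit 52334559, nat_lit 0, nat_lit 0, nat_lit 2627478, false, false⟩,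
 nat_lit 0, nat_lit 100000, nat_lit 0, nat_lit 0, nat_lit 75000, nat_lit 0, nat_lit 60000, nat_lit 20000, nat_lit 0, nat_lit 0, nat_lit 0, nat_lit 0, nat_lit 0, nat_lit 0, nat_lit 0, nat_lit 1000000, nat_lit 0, nat_lit 0, [(nat_lit 18, [(nat_lit 6, nat_lit 1000)])],
 ⟨p020_k2, nat_lit 0, nat_lit 0, nat_lit 0, nat_lit 0, nat_lit 1422401, [nat_lit 160697066667, nat_lit 200386000000, nat_lit 279434000000, nat_lit 318364800000], [], [nat_lit 1759836418667, nat_lit 1760119691467, nat_lit 1759459680267, nat_lit 1759740353247], nat_lit 1271250, nat_lit 1271250, nat_lit 936251, nat_lit 968401, nat_lit 0, nat_lit 0, [nat_lit 490000, nat_lit 631250, nat_lit 936250, nat_lit 1100000], [nat_lit 150, nat_lit 40, nat_lit 20, nat_lit 40]⟩, C1.Rw.none,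
 ⟨nat_lit 4444, nat_lit 4473, ⟨.ofNat (nat_lit 525273), .ofNat (nat_lit 532071), .ofNat (nat_lit 526352), .ofNat (nat_lit 533149), .ofNat (nat_lit 525584), .ofNat (nat_lit 532365), .ofNat (nat_lit 526663), .ofNat (nat_lit 533444)⟩, ⟨.ofNat (nat_lit 0), .ofNat (nat_lit 0), .ofNat (nat_lit 0), .ofNat (nat_lit 0), .ofNat (nat_lit 0), .ofNat (nat_lit 0), .ofNat (nat_lit 0), .ofNat (nat_lit 0)⟩⟩, [⟨nat_lit 0, nat_lit 84, nat_lit 83, nat_lit 100, nat_lit 14343086632⟩, ⟨nat_lit 0, nat_lit 84, nat_lit 83, nat_lit 100, nat_lit 14343086632⟩, ⟨nat_lit 0, nat_lit 84, nat_lit 84, nat_lit 100, nat_lit 14172335601⟩]⟩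
noncomputable def p020_l22 : Lf2 := ⟨nat_lit 0, nat_lit 3, [nat_lit 45, nat_lit 5, nat_lit 5, nat_lit 20], false, nat_lit 0, nat_lit 0, nat_lit 0, nat_lit 0, ⟨nat_lit 1000, nat_lit 0, nat_lit 0, nat_lit 0, nat_lit 0, nat_lit 0, nat_lit 0, nat_lit 0, nat_lit 0, nat_lit 0, nat_lit 0, nat_lit 0, nat_lit 0, nat_lit 0, nat_lit 0, nat_lit 0, false, false⟩,
 nat_lit 0, nat_lit 0, nat_lit 0, nat_lit 0, nat_lit 0, nat_lit 5557, nat_lit 0, nat_lit 0, nat_lit 392, nat_lit 1157, nat_lit 0, nat_lit 0, nat_lit 0, nat_lit 0, nat_lit 0, nat_lit 0, nat_lit 0, nat_lit 0, [],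
 ⟨p020_k0, nat_lit 0, nat_lit 0, nat_lit 0, nat_lit 0, nat_lit 1422401, [nat_lit 2032000001, nat_lit 4688000000], [], [nat_lit 22246328001, nat_lit 22268217941, nat_lit 22313357400, nat_lit 22335969305], nat_lit 1271250, nat_lit 1271250, nat_lit 968401, nat_lit 1000851, nat_lit 0, nat_lit 0, [nat_lit 490000, nat_lit 1100000], [nat_lit 24, nat_lit 40, nat_lit 80, nat_lit 80]⟩, ⟨p020_k7, nat_lit 0, nat_lit 0, nat_lit 0, nat_lit 0, nat_lit 0, [nat_lit 3282000000, nat_lit 4688000000], [], [nat_lit 18645818435, nat_lit 18738375984, nat_lit 18684767231, nat_lit 18776751897], nat_lit 0, nat_lit 0, nat_lit 0, nat_lit 0, nat_lit 0, nat_lit 0, [], [nat_lit 40, nat_lit 40, nat_lit 80, nat_lit 80]⟩,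
 zbF0, []⟩
noncomputable def p020_l23 : Lf2 := ⟨nat_lit 0, nat_lit 3, [nat_lit 45, nat_lit 5, nat_lit 5, nat_lit 20], true, nat_lit 0, nat_lit 0, nat_lit 0, nat_lit 0, ⟨nat_lit 0, nat_lit 0, nat_lit 1000, nat_lit 7, nat_lit 214, nat_lit 0, nat_lit 0, nat_lit 0, nat_lit 0, nat_lit 215, nat_lit 9081, nat_lit 237, nat_lit 52040499, nat_lit 0, nat_lit 0, nat_lit 2655115, false, false⟩,
 nat_lit 0, nat_lit 100000, nat_lit 0, nat_lit 0, nat_lit 75000, nat_lit 0, nat_lit 60000, nat_lit 20000, nat_lit 0, nat_lit 0, nat_lit 0, nat_lit 0, nat_lit 0, nat_lit 0, nat_lit 0, nat_lit 1000000, nat_lit 0, nat_lit 0, [(nat_lit 18, [(nat_lit 6, nat_lit 1000)])],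
 ⟨p020_k2, nat_lit 0, nat_lit 0, nat_lit 0, nat_lit 0, nat_lit 1422401, [nat_lit 160697066667, nat_lit 200386000000, nat_lit 279434000000, nat_lit 318364800000], [], [nat_lit 1759459680267, nat_lit 1759740353247, nat_lit 1759082941867, nat_lit 1759361015027], nat_lit 1271250, nat_lit 1271250, nat_lit 968401, nat_lit 1000851, nat_lit 0, nat_lit 0, [nat_lit 490000, nat_lit 631250, nat_lit 936250, nat_lit 1100000], [nat_lit 150, nat_lit 40, nat_lit 20, nat_lit 40]⟩, C1.Rw.none,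
 ⟨nat_lit 4444, nat_lit 4473, ⟨.ofNat (nat_lit 532071), .ofNat (nat_lit 538869), .ofNat (nat_lit 533149), .ofNat (nat_lit 539947), .ofNat (nat_lit 532365), .ofNat (nat_lit 539146), .ofNat (nat_lit 533444), .ofNat (nat_lit 540224)⟩, ⟨.ofNat (nat_lit 0), .ofNat (nat_lit 0), .ofNat (nat_lit 0), .ofNat (nat_lit 0), .ofNat (nat_lit 0), .ofNat (nat_lit 0), .ofNat (nat_lit 0), .ofNat (nat_lit 0)⟩⟩, [⟨nat_lit 0, nat_lit 84, nat_lit 83, nat_lit 100, nat_lit 14343086632⟩, ⟨nat_lit 0, nat_lit 84, nat_lit 83, nat_lit 100, nat_lit 14343086632⟩, ⟨nat_lit 0, nat_lit 84, nat_lit 84, nat_lit 100, nat_lit 14172335601⟩]⟩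
noncomputable def p020_l24 : Lf2 := ⟨nat_lit 0, nat_lit 3, [nat_lit 45, nat_lit 5, nat_lit 5, nat_lit 20], false, nat_lit 0, nat_lit 0, nat_lit 0, nat_lit 0, ⟨nat_lit 1000, nat_lit 0, nat_lit 0, nat_lit 0, nat_lit 0, nat_lit 0, nat_lit 0, nat_lit 0, nat_lit 0, nat_lit 0, nat_lit 0, nat_lit 0, nat_lit 0, nat_lit 0, nat_lit 0, nat_lit 0, false, false⟩,
 nat_lit 0, nat_lit 3531, nat_lit 0, nat_lit 0, nat_lit 2648, nat_lit 5568, nat_lit 0, nat_lit 0, nat_lit 323, nat_lit 1156, nat_lit 0, nat_lit 0, nat_lit 0, nat_lit 0, nat_lit 0, nat_lit 0, nat_lit 0, nat_lit 0, [],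
 ⟨p020_k0, nat_lit 0, nat_lit 0, nat_lit 0, nat_lit 0, nat_lit 1422401, [nat_lit 2032000001, nat_lit 4688000000], [], [nat_lit 16723827664, nat_lit 16749830484, nat_lit 16755773536, nat_lit 16783770700], nat_lit 1271250, nat_lit 1271250, nat_lit 1000851, nat_lit 1033601, nat_lit 0, nat_lit 0, [nat_lit 490000, nat_lit 1100000], [nat_lit 24, nat_lit 40, nat_lit 80, nat_lit 80]⟩, ⟨p020_k7, nat_lit 0, nat_lit 0, nat_lit 0, nat_lit 0, nat_lit 0, [nat_lit 3282000000, nat_lit 4688000000], [], [nat_lit 18675937875, nat_lit 18768032294, nat_lit 18714773094, nat_lit 18806293739], nat_lit 0, nat_lit 0, nat_lit 0, nat_lit 0, nat_lit 0, nat_lit 0, [], [nat_lit 40, nat_lit 40, nat_lit 80, nat_lit 80]⟩,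
 zbF0, []⟩
noncomputable def p020_l25 : Lf2 := ⟨nat_lit 0, nat_lit 3, [nat_lit 45, nat_lit 5, nat_lit 5, nat_lit 20], false, nat_lit 0, nat_lit 0, nat_lit 0, nat_lit 0, ⟨nat_lit 1000, nat_lit 0, nat_lit 0, nat_lit 0, nat_lit 0, nat_lit 0, nat_lit 0, nat_lit 0, nat_lit 0, nat_lit 0, nat_lit 0, nat_lit 0, nat_lit 0, nat_lit 0, nat_lit 0, nat_lit 0, false, false⟩,
 nat_lit 0, nat_lit 0, nat_lit 0, nat_lit 0, nat_lit 0, nat_lit 5574, nat_lit 0, nat_lit 0, nat_lit 392, nat_lit 1125, nat_lit 0, nat_lit 0, nat_lit 0, nat_lit 0, nat_lit 0, nat_lit 0, nat_lit 0, nat_lit 0, [],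
 ⟨p020_k0, nat_lit 0, nat_lit 0, nat_lit 0, nat_lit 0, nat_lit 1431300, [nat_lit 2032000001, nat_lit 4688000000], [], [nat_lit 22179324001, nat_lit 22201262076, nat_lit 22382091600, nat_lit 22404652170], nat_lit 1271250, nat_lit 1271250, nat_lit 936251, nat_lit 1033601, nat_lit 0, nat_lit 0, [nat_lit 490000, nat_lit 1100000], [nat_lit 24, nat_lit 40, nat_lit 80, nat_lit 80]⟩, ⟨p020_k8, nat_lit 0, nat_lit 0, nat_lit 0, nat_lit 0, nat_lit 0, [nat_lit 3282000000, nat_lit 4688000000], [], [nat_lit 18710368691, nat_lit 18822063068, nat_lit 18797003564, nat_lit 18906481511], nat_lit 0, nat_lit 0, nat_lit 0, nat_lit 0, nat_lit 0, nat_lit 0, [], [nat_lit 40, nat_lit 40, nat_lit 80, nat_lit 80]⟩,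
 zbF0, [⟨nat_lit 0, nat_lit 84, nat_lit 83, nat_lit 100, nat_lit 555986798⟩]⟩
noncomputable def p020_l26 : Lf2 := ⟨nat_lit 0, nat_lit 3, [nat_lit 45, nat_lit 5, nat_lit 5, nat_lit 20], true, nat_lit 0, nat_lit 0, nat_lit 0, nat_lit 0, ⟨nat_lit 0, nat_lit 0, nat_lit 1000, nat_lit 7, nat_lit 215, nat_lit 0, nat_lit 0, nat_lit 0, nat_lit 0, nat_lit 215, nat_lit 5786, nat_lit 233, nat_lit 51993742, nat_lit 0, nat_lit 0, nat_lit 2659458, false, false⟩,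
 nat_lit 0, nat_lit 100000, nat_lit 0, nat_lit 0, nat_lit 75000, nat_lit 0, nat_lit 60000, nat_lit 18494, nat_lit 0, nat_lit 0, nat_lit 0, nat_lit 0, nat_lit 0, nat_lit 0, nat_lit 0, nat_lit 1000000, nat_lit 0, nat_lit 0, [(nat_lit 18, [(nat_lit 6, nat_lit 1000)])],
 ⟨p020_k2, nat_lit 0, nat_lit 0, nat_lit 0, nat_lit 0, nat_lit 1431300, [nat_lit 148649066667, nat_lit 185326000001, nat_lit 258350000001, nat_lit 294268800000], [], [nat_lit 1585140418677, nat_lit 1585423691477, nat_lit 1584010203477, nat_lit 1584285676817], nat_lit 1271250, nat_lit 1271250, nat_lit 936251, nat_lit 1033601, nat_lit 0, nat_lit 0, [nat_lit 490000, nat_lit 631250, nat_lit 936250, nat_lit 1100000], [nat_lit 150, nat_lit 40, nat_lit 20, nat_lit 40]⟩, C1.Rw.none,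
 ⟨nat_lit 4444, nat_lit 4473, ⟨.ofNat (nat_lit 526352), .ofNat (nat_lit 546745), .ofNat (nat_lit 527430), .ofNat (nat_lit 547823), .ofNat (nat_lit 526663), .ofNat (nat_lit 547005), .ofNat (nat_lit 527742), .ofNat (nat_lit 548084)⟩, ⟨.ofNat (nat_lit 0), .ofNat (nat_lit 0), .ofNat (nat_lit 0), .ofNat (nat_lit 0), .ofNat (nat_lit 0), .ofNat (nat_lit 0), .ofNat (nat_lit 0), .ofNat (nat_lit 0)⟩⟩, [⟨nat_lit 0, nat_lit 84, nat_lit 83, nat_lit 100, nat_lit 14343086632⟩, ⟨nat_lit 0, nat_lit 83, nat_lit 83, nat_lit 100, nat_lit 14515894905⟩, ⟨nat_lit 0, nat_lit 84, nat_lit 83, nat_lit 100, nat_lit 14343086632⟩]⟩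
noncomputable def p020_l27 : Lf2 := ⟨nat_lit 0, nat_lit 3, [nat_lit 45, nat_lit 5, nat_lit 5, nat_lit 20], false, nat_lit 0, nat_lit 0, nat_lit 0, nat_lit 0, ⟨nat_lit 1000, nat_lit 0, nat_lit 0, nat_lit 0, nat_lit 0, nat_lit 0, nat_lit 0, nat_lit 0, nat_lit 0, nat_lit 0, nat_lit 0, nat_lit 0, nat_lit 0, nat_lit 0, nat_lit 0, nat_lit 0, false, false⟩,
 nat_lit 0, nat_lit 0, nat_lit 0, nat_lit 0, nat_lit 0, nat_lit 5568, nat_lit 0, nat_lit 0, nat_lit 392, nat_lit 1161, nat_lit 0, nat_lit 0, nat_lit 0, nat_lit 0, nat_lit 0, nat_lit 0, nat_lit 0, nat_lit 0, [],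
 ⟨p020_k4, nat_lit 0, nat_lit 0, nat_lit 0, nat_lit 0, nat_lit 1421594, [nat_lit 2032000001, nat_lit 4688000000], [], [nat_lit 22201262076, nat_lit 22223200151, nat_lit 22268217941, nat_lit 22290107881], nat_lit 1271250, nat_lit 1271250, nat_lit 936251, nat_lit 968401, nat_lit 0, nat_lit 0, [nat_lit 490000, nat_lit 1100000], [nat_lit 24, nat_lit 40, nat_lit 80, nat_lit 80]⟩, ⟨p020_k7, nat_lit 0, nat_lit 0, nat_lit 0, nat_lit 0, nat_lit 0, [nat_lit 3282000000, nat_lit 4688000000], [], [nat_lit 18599867508, nat_lit 18709619231, nat_lit 18628024531, nat_lit 18738509102], nat_lit 0, nat_lit 0, nat_lit 0, nat_lit 0, nat_lit 0, nat_lit 0, [], [nat_lit 40, nat_lit 40, nat_lit 80, nat_lit 80]⟩,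
 zbF0, [⟨nat_lit 0, nat_lit 84, nat_lit 83, nat_lit 100, nat_lit 562054614⟩]⟩
noncomputable def p020_l28 : Lf2 := ⟨nat_lit 2, nat_lit 3, [nat_lit 45, nat_lit 5, nat_lit 5, nat_lit 20], true, nat_lit 0, nat_lit 0, nat_lit 0, nat_lit 0, zbN0,
 nat_lit 0, nat_lit 0, nat_lit 0, nat_lit 0, nat_lit 0, nat_lit 0, nat_lit 0, nat_lit 0, nat_lit 0, nat_lit 0, nat_lit 0, nat_lit 0, nat_lit 0, nat_lit 0, nat_lit 0, nat_lit 0, nat_lit 0, nat_lit 0, [],
 ⟨p020_k5, nat_lit 0, nat_lit 0, nat_lit 0, nat_lit 0, nat_lit 1421594, [], [], [], nat_lit 1271250, nat_lit 1271250, nat_lit 936251, nat_lit 968401, nat_lit 0, nat_lit 0, [nat_lit 490000, nat_lit 631250, nat_lit 936250, nat_lit 1100000], [nat_lit 150, nat_lit 40, nat_lit 20, nat_lit 40]⟩, C1.Rw.none,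
 zbF0, []⟩
noncomputable def p020_l29 : Lf2 := ⟨nat_lit 0, nat_lit 3, [nat_lit 45, nat_lit 5, nat_lit 5, nat_lit 20], false, nat_lit 0, nat_lit 0, nat_lit 0, nat_lit 0, ⟨nat_lit 1000, nat_lit 0, nat_lit 0, nat_lit 0, nat_lit 0, nat_lit 0, nat_lit 0, nat_lit 0, nat_lit 0, nat_lit 0, nat_lit 0, nat_lit 0, nat_lit 0, nat_lit 0, nat_lit 0, nat_lit 0, false, false⟩,
 nat_lit 0, nat_lit 0, nat_lit 0, nat_lit 0, nat_lit 0, nat_lit 5557, nat_lit 0, nat_lit 0, nat_lit 392, nat_lit 1157, nat_lit 0, nat_lit 0, nat_lit 0, nat_lit 0, nat_lit 0, nat_lit 0, nat_lit 0, nat_lit 0, [],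
 ⟨p020_k4, nat_lit 0, nat_lit 0, nat_lit 0, nat_lit 0, nat_lit 1421594, [nat_lit 2032000001, nat_lit 4688000000], [], [nat_lit 22268217941, nat_lit 22290107881, nat_lit 22335969305, nat_lit 22358581210], nat_lit 1271250, nat_lit 1271250, nat_lit 968401, nat_lit 1000851, nat_lit 0, nat_lit 0, [nat_lit 490000, nat_lit 1100000], [nat_lit 24, nat_lit 40, nat_lit 80, nat_lit 80]⟩, ⟨p020_k7, nat_lit 0, nat_lit 0, nat_lit 0, nat_lit 0, nat_lit 0, [nat_lit 3282000000, nat_lit 4688000000], [], [nat_lit 18645818435, nat_lit 18738375984, nat_lit 18684767231, nat_lit 18776751897], nat_lit 0, nat_lit 0, nat_lit 0, nat_lit 0, nat_lit 0, nat_lit 0, [], [nat_lit 40, nat_lit 40, nat_lit 80, nat_lit 80]⟩,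
 zbF0, [⟨nat_lit 0, nat_lit 84, nat_lit 83, nat_lit 100, nat_lit 158001171⟩]⟩
noncomputable def p020_l30 : Lf2 := ⟨nat_lit 2, nat_lit 3, [nat_lit 45, nat_lit 5, nat_lit 5, nat_lit 20], true, nat_lit 0, nat_lit 0, nat_lit 0, nat_lit 0, zbN0,
 nat_lit 0, nat_lit 0, nat_lit 0, nat_lit 0, nat_lit 0, nat_lit 0, nat_lit 0, nat_lit 0, nat_lit 0, nat_lit 0, nat_lit 0, nat_lit 0, nat_lit 0, nat_lit 0, nat_lit 0, nat_lit 0, nat_lit 0, nat_lit 0, [],
 ⟨p020_k5, nat_lit 0, nat_lit 0, nat_lit 0, nat_lit 0, nat_lit 1421594, [], [], [], nat_lit 1271250, nat_lit 1271250, nat_lit 968401, nat_lit 1000851, nat_lit 0, nat_lit 0, [nat_lit 490000, nat_lit 631250, nat_lit 936250, nat_lit 1100000], [nat_lit 150, nat_lit 40, nat_lit 20, nat_lit 40]⟩, C1.Rw.none,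
 zbF0, []⟩
noncomputable def p020_l31 : Lf2 := ⟨nat_lit 0, nat_lit 3, [nat_lit 45, nat_lit 5, nat_lit 5, nat_lit 20], false, nat_lit 0, nat_lit 0, nat_lit 0, nat_lit 0, ⟨nat_lit 1000, nat_lit 0, nat_lit 0, nat_lit 0, nat_lit 0, nat_lit 0, nat_lit 0, nat_lit 0, nat_lit 0, nat_lit 0, nat_lit 0, nat_lit 0, nat_lit 0, nat_lit 0, nat_lit 0, nat_lit 0, false, false⟩,
 nat_lit 0, nat_lit 3533, nat_lit 0, nat_lit 0, nat_lit 2660, nat_lit 5568, nat_lit 0, nat_lit 0, nat_lit 322, nat_lit 1156, nat_lit 0, nat_lit 0, nat_lit 0, nat_lit 0, nat_lit 0, nat_lit 0, nat_lit 0, nat_lit 0, [],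
 ⟨p020_k4, nat_lit 0, nat_lit 0, nat_lit 0, nat_lit 0, nat_lit 1421594, [nat_lit 2032000001, nat_lit 4688000000], [], [nat_lit 16808775624, nat_lit 16834801367, nat_lit 16840466072, nat_lit 16866385023], nat_lit 1271250, nat_lit 1271250, nat_lit 1000851, nat_lit 1033601, nat_lit 0, nat_lit 0, [nat_lit 490000, nat_lit 1100000], [nat_lit 24, nat_lit 40, nat_lit 80, nat_lit 80]⟩, ⟨p020_k7, nat_lit 0, nat_lit 0, nat_lit 0, nat_lit 0, nat_lit 0, [nat_lit 3282000000, nat_lit 4688000000], [], [nat_lit 18675937875, nat_lit 18768032294, nat_lit 18714773094, nat_lit 18806293739], nat_lit 0, nat_lit 0, nat_lit 0, nat_lit 0, nat_lit 0, nat_lit 0, [], [nat_lit 40, nat_lit 40, nat_lit 80, nat_lit 80]⟩,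
 zbF0, []⟩
noncomputable def p020_l32 : Lf2 := ⟨nat_lit 0, nat_lit 3, [nat_lit 45, nat_lit 5, nat_lit 5, nat_lit 20], false, nat_lit 0, nat_lit 0, nat_lit 0, nat_lit 0, ⟨nat_lit 1000, nat_lit 0, nat_lit 0, nat_lit 0, nat_lit 0, nat_lit 0, nat_lit 0, nat_lit 0, nat_lit 0, nat_lit 0, nat_lit 0, nat_lit 0, nat_lit 0, nat_lit 0, nat_lit 0, nat_lit 0, false, false⟩,
 nat_lit 0, nat_lit 0, nat_lit 0, nat_lit 0, nat_lit 0, nat_lit 5557, nat_lit 0, nat_lit 0, nat_lit 392, nat_lit 1125, nat_lit 0, nat_lit 0, nat_lit 0, nat_lit 0, nat_lit 0, nat_lit 0, nat_lit 0, nat_lit 0, [],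
 ⟨p020_k4, nat_lit 0, nat_lit 0, nat_lit 0, nat_lit 0, nat_lit 1430416, [nat_lit 2032000001, nat_lit 4688000000], [], [nat_lit 22268217941, nat_lit 22290107881, nat_lit 22335969305, nat_lit 22358581210], nat_lit 1271250, nat_lit 1271250, nat_lit 968401, nat_lit 1000851, nat_lit 0, nat_lit 0, [nat_lit 490000, nat_lit 1100000], [nat_lit 24, nat_lit 40, nat_lit 80, nat_lit 80]⟩, ⟨p020_k8, nat_lit 0, nat_lit 0, nat_lit 0, nat_lit 0, nat_lit 0, [nat_lit 3282000000, nat_lit 4688000000], [], [nat_lit 18737276944, nat_lit 18848084499, nat_lit 18775086272, nat_lit 18876444823], nat_lit 0, nat_lit 0, nat_lit 0, nat_lit 0, nat_lit 0, nat_lit 0, [], [nat_lit 40, nat_lit 40, nat_lit 80, nat_lit 80]⟩,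
 zbF0, [⟨nat_lit 0, nat_lit 84, nat_lit 83, nat_lit 100, nat_lit 537991222⟩]⟩
noncomputable def p020_l33 : Lf2 := ⟨nat_lit 2, nat_lit 3, [nat_lit 45, nat_lit 5, nat_lit 5, nat_lit 20], true, nat_lit 0, nat_lit 0, nat_lit 0, nat_lit 0, zbN0,
 nat_lit 0, nat_lit 0, nat_lit 0, nat_lit 0, nat_lit 0, nat_lit 0, nat_lit 0, nat_lit 0, nat_lit 0, nat_lit 0, nat_lit 0, nat_lit 0, nat_lit 0, nat_lit 0, nat_lit 0, nat_lit 0, nat_lit 0, nat_lit 0, [],
 ⟨p020_k5, nat_lit 0, nat_lit 0, nat_lit 0, nat_lit 0, nat_lit 1430416, [], [], [], nat_lit 1271250, nat_lit 1271250, nat_lit 968401, nat_lit 1000851, nat_lit 0, nat_lit 0, [nat_lit 490000, nat_lit 631250, nat_lit 936250, nat_lit 1100000], [nat_lit 150, nat_lit 40, nat_lit 20, nat_lit 40]⟩, C1.Rw.none,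
 zbF0, []⟩
noncomputable def p020_l34 : Lf2 := ⟨nat_lit 0, nat_lit 3, [nat_lit 45, nat_lit 5, nat_lit 5, nat_lit 20], false, nat_lit 0, nat_lit 0, nat_lit 0, nat_lit 0, ⟨nat_lit 1000, nat_lit 0, nat_lit 0, nat_lit 0, nat_lit 0, nat_lit 0, nat_lit 0, nat_lit 0, nat_lit 0, nat_lit 0, nat_lit 0, nat_lit 0, nat_lit 0, nat_lit 0, nat_lit 0, nat_lit 0, false, false⟩,
 nat_lit 0, nat_lit 1967, nat_lit 0, nat_lit 0, nat_lit 1481, nat_lit 5557, nat_lit 0, nat_lit 0, nat_lit 376, nat_lit 1120, nat_lit 0, nat_lit 0, nat_lit 0, nat_lit 0, nat_lit 0, nat_lit 0, nat_lit 0, nat_lit 0, [],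
 ⟨p020_k4, nat_lit 0, nat_lit 0, nat_lit 0, nat_lit 0, nat_lit 1430416, [nat_lit 2032000001, nat_lit 4688000000], [], [nat_lit 16681415676, nat_lit 16706413589, nat_lit 16730755850, nat_lit 16757302709], nat_lit 1271250, nat_lit 1271250, nat_lit 1000851, nat_lit 1033601, nat_lit 0, nat_lit 0, [nat_lit 490000, nat_lit 1100000], [nat_lit 24, nat_lit 40, nat_lit 80, nat_lit 80]⟩, ⟨p020_k8, nat_lit 0, nat_lit 0, nat_lit 0, nat_lit 0, nat_lit 0, [nat_lit 3282000000, nat_lit 4688000000], [], [nat_lit 18784430022, nat_lit 18876444823, nat_lit 18822805935, nat_lit 18914217717], nat_lit 0, nat_lit 0, nat_lit 0, nat_lit 0, nat_lit 0, nat_lit 0, [], [nat_lit 40, nat_lit 40, nat_lit 80, nat_lit 80]⟩,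
 zbF0, []⟩
noncomputable def p020_l35 : Lf2 := ⟨nat_lit 0, nat_lit 3, [nat_lit 45, nat_lit 5, nat_lit 5, nat_lit 20], false, nat_lit 0, nat_lit 0, nat_lit 0, nat_lit 0, ⟨nat_lit 1000, nat_lit 0, nat_lit 0, nat_lit 0, nat_lit 0, nat_lit 0, nat_lit 0, nat_lit 0, nat_lit 0, nat_lit 0, nat_lit 0, nat_lit 0, nat_lit 0, nat_lit 0, nat_lit 0, nat_lit 0, false, false⟩,
 nat_lit 0, nat_lit 1949, nat_lit 0, nat_lit 0, nat_lit 1461, nat_lit 5568, nat_lit 0, nat_lit 0, nat_lit 377, nat_lit 1255, nat_lit 0, nat_lit 0, nat_lit 0, nat_lit 0, nat_lit 0, nat_lit 0, nat_lit 0, nat_lit 0, [],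
 ⟨p020_k0, nat_lit 0, nat_lit 0, nat_lit 0, nat_lit 0, nat_lit 1437904, [nat_lit 2032000001, nat_lit 4688000000], [], [nat_lit 16693085191, nat_lit 16746071244, nat_lit 16795714584, nat_lit 16848328686], nat_lit 1271250, nat_lit 1271250, nat_lit 1033601, nat_lit 1100001, nat_lit 0, nat_lit 0, [nat_lit 490000, nat_lit 1100000], [nat_lit 24, nat_lit 40, nat_lit 80, nat_lit 80]⟩, ⟨p020_k1, nat_lit 0, nat_lit 0, nat_lit 0, nat_lit 0, nat_lit 0, [nat_lit 3282000000, nat_lit 4688000000], [], [nat_lit 18448714285, nat_lit 18906317509, nat_lit 18529827369, nat_lit 18981692849], nat_lit 0, nat_lit 0, nat_lit 0, nat_lit 0, nat_lit 0, nat_lit 0, [], [nat_lit 40, nat_lit 40, nat_lit 80, nat_lit 80]⟩,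
 zbF0, []⟩
noncomputable def p020_l36 : Lf2 := ⟨nat_lit 2, nat_lit 3, [nat_lit 45, nat_lit 5, nat_lit 5, nat_lit 20], true, nat_lit 0, nat_lit 0, nat_lit 0, nat_lit 0, zbN0,
 nat_lit 0, nat_lit 0, nat_lit 0, nat_lit 0, nat_lit 0, nat_lit 0, nat_lit 0, nat_lit 0, nat_lit 0, nat_lit 0, nat_lit 0, nat_lit 0, nat_lit 0, nat_lit 0, nat_lit 0, nat_lit 0, nat_lit 0, nat_lit 0, [],
 ⟨p020_k9, nat_lit 0, nat_lit 0, nat_lit 644, nat_lit 0, nat_lit 1437904, [], [], [], nat_lit 1271250, nat_lit 1271250, nat_lit 904401, nat_lit 1100001, nat_lit 0, nat_lit 0, [nat_lit 490000, nat_lit 780000, nat_lit 1100000], [nat_lit 78, nat_lit 40, nat_lit 80, nat_lit 80, nat_lit 22, nat_lit 249, nat_lit 40, nat_lit 11]⟩, C1.Rw.none,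
 zbF0, []⟩
noncomputable def b_N_800_700_0_7 : St := ⟨false, nat_lit 1, nat_lit 0, nat_lit 1, nat_lit 40, nat_lit 320, nat_lit 322, nat_lit 315, nat_lit 320, nat_lit 132, nat_lit 160, nat_lit 0, nat_lit 0, nat_lit 0, nat_lit 0, nat_lit 0, nat_lit 0, nat_lit 8, nat_lit 12, nat_lit 1060, nat_lit 0, nat_lit 140, nat_lit 160⟩
theorem d_N_800_700_0_7 (h : EB TB.env) : Dead b_N_800_700_0_7 := chkB_sound0 h (T :=
(.trZ (nat_lit 0) (nat_lit 86) (nat_lit 84) (nat_lit 100) (nat_lit 136) (.spl (nat_lit 7) (nat_lit 1220)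
(.spl (nat_lit 2) (nat_lit 152)
(.spl (nat_lit 1) (nat_lit 318)
(.spl (nat_lit 0) (nat_lit 321)
(.spl (nat_lit 1) (nat_lit 317)
(.spl (nat_lit 7) (nat_lit 1140)
(.leaf p020_l0)
(.leaf p020_l1))
(.trZ (nat_lit 0) (nat_lit 85) (nat_lit 84) (nat_lit 100) (nat_lit 140) (.spl (nat_lit 2) (nat_lit 144)
(.spl (nat_lit 7) (nat_lit 1140)
(.leaf p020_l2)
(.leaf p020_l3))
(.spl (nat_lit 2) (nat_lit 148)
(.spl (nat_lit 7) (nat_lit 1140)
(.leaf p020_l4)
(.leaf p020_l5))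
(.leaf p020_l6)))))
(.spl (nat_lit 1) (nat_lit 317)
(.spl (nat_lit 1) (nat_lit 316)
(.spl (nat_lit 2) (nat_lit 140)
(.spl (nat_lit 7) (nat_lit 1140)
(.leaf p020_l7)
(.leaf p020_l8))
(.spl (nat_lit 2) (nat_lit 144)
(.spl (nat_lit 7) (nat_lit 1140)
(.leaf p020_l9)
(.leaf p020_l10))
(.leaf p020_l11)))
(.trZ (nat_lit 0) (nat_lit 85) (nat_lit 83) (nat_lit 100) (nat_lit 140) (.spl (nat_lit 2) (nat_lit 144)
(.spl (nat_lit 7) (nat_lit 1140)
(.leaf p020_l12)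
(.leaf p020_l13))
(.leaf p020_l14))))
(.trZ (nat_lit 0) (nat_lit 85) (nat_lit 83) (nat_lit 100) (nat_lit 140) (.spl (nat_lit 2) (nat_lit 144)
(.spl (nat_lit 7) (nat_lit 1140)
(.leaf p020_l15)
(.leaf p020_l16))
(.spl (nat_lit 2) (nat_lit 148)
(.spl (nat_lit 7) (nat_lit 1140)
(.leaf p020_l17)
(.leaf p020_l18))
(.leaf p020_l19))))))
(.trZ (nat_lit 0) (nat_lit 84) (nat_lit 84) (nat_lit 100) (nat_lit 140) (.spl (nat_lit 0) (nat_lit 321)
(.spl (nat_lit 1) (nat_lit 319)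
(.spl (nat_lit 2) (nat_lit 144)
(.spl (nat_lit 7) (nat_lit 1140)
(.leaf p020_l20)
(.leaf p020_l21))
(.spl (nat_lit 2) (nat_lit 148)
(.spl (nat_lit 7) (nat_lit 1140)
(.leaf p020_l22)
(.leaf p020_l23))
(.leaf p020_l24)))
(.spl (nat_lit 7) (nat_lit 1140)
(.leaf p020_l25)
(.leaf p020_l26)))
(.spl (nat_lit 1) (nat_lit 319)
(.spl (nat_lit 2) (nat_lit 144)
(.spl (nat_lit 7) (nat_lit 1140)
(.leaf p020_l27)
(.leaf p020_l28))
(.spl (nat_lit 2) (nat_lit 148)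
(.spl (nat_lit 7) (nat_lit 1140)
(.leaf p020_l29)
(.leaf p020_l30))
(.leaf p020_l31)))
(.trZ (nat_lit 0) (nat_lit 84) (nat_lit 83) (nat_lit 100) (nat_lit 144) (.spl (nat_lit 2) (nat_lit 148)
(.spl (nat_lit 7) (nat_lit 1140)
(.leaf p020_l32)
(.leaf p020_l33))
(.leaf p020_l34)))))))
(.leaf p020_l35))
(.leaf p020_l36)))) (by decide +kernel)
noncomputable def p020_l37 : Lf2 := ⟨nat_lit 0, nat_lit 4, [nat_lit 38, nat_lit 5, nat_lit 5, nat_lit 20], false, nat_lit 0, nat_lit 0, nat_lit 0, nat_lit 0, ⟨nat_lit 1000, nat_lit 0, nat_lit 0, nat_lit 0, nat_lit 0, nat_lit 0, nat_lit 0, nat_lit 0, nat_lit 0, nat_lit 0, nat_lit 0, nat_lit 0, nat_lit 0, nat_lit 0, nat_lit 0, nat_lit 0, false, false⟩,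
 nat_lit 0, nat_lit 8874, nat_lit 0, nat_lit 0, nat_lit 6655, nat_lit 4962, nat_lit 0, nat_lit 0, nat_lit 0, nat_lit 1775, nat_lit 0, nat_lit 0, nat_lit 0, nat_lit 0, nat_lit 0, nat_lit 0, nat_lit 0, nat_lit 0, [],
 ⟨p020_k10, nat_lit 0, nat_lit 0, nat_lit 596, nat_lit 0, nat_lit 1349567, [nat_lit 2032000001, nat_lit 4688000000], [], [nat_lit 32784860059, nat_lit 32856398272, nat_lit 32698309320, nat_lit 32778291646], nat_lit 1271250, nat_lit 1271250, nat_lit 872850, nat_lit 1100001, nat_lit 0, nat_lit 0, [nat_lit 490000, nat_lit 1100000], [nat_lit 24, nat_lit 40, nat_lit 80, nat_lit 80, nat_lit 33, nat_lit 249, nat_lit 40, nat_lit 11]⟩, ⟨p020_k11, nat_lit 0, nat_lit 0, nat_lit 0, nat_lit 0, nat_lit 0, [nat_lit 3282000000, nat_lit 6250000000], [], [nat_lit 18373095942, nat_lit 18781390279, nat_lit 18664346433, nat_lit 19055819621], nat_lit 0, nat_lit 0, nat_lit 0, nat_lit 0, nat_lit 0,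 nat_lit 0, [], [nat_lit 49, nat_lit 40, nat_lit 80, nat_lit 80]⟩,
 zbF0, [⟨nat_lit 0, nat_lit 86, nat_lit 83, nat_lit 100, nat_lit 666556535⟩]⟩
noncomputable def p020_l38 : Lf2 := ⟨nat_lit 0, nat_lit 4, [nat_lit 38, nat_lit 5, nat_lit 5, nat_lit 20], false, nat_lit 0, nat_lit 0, nat_lit 0, nat_lit 0, ⟨nat_lit 1000, nat_lit 0, nat_lit 0, nat_lit 0, nat_lit 0, nat_lit 0, nat_lit 0, nat_lit 0, nat_lit 0, nat_lit 0, nat_lit 0, nat_lit 0, nat_lit 0, nat_lit 0, nat_lit 0, nat_lit 0, false, false⟩,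
 nat_lit 0, nat_lit 0, nat_lit 0, nat_lit 0, nat_lit 0, nat_lit 2560, nat_lit 0, nat_lit 0, nat_lit 460, nat_lit 0, nat_lit 0, nat_lit 0, nat_lit 0, nat_lit 0, nat_lit 0, nat_lit 0, nat_lit 0, nat_lit 0, [],
 ⟨p020_k10, nat_lit 0, nat_lit 0, nat_lit 0, nat_lit 0, nat_lit 1393300, [nat_lit 2032000001, nat_lit 4688000000], [], [nat_lit 14612086800, nat_lit 14661515940, nat_lit 15057912000, nat_lit 15111020800], nat_lit 1271250, nat_lit 1271250, nat_lit 904401, nat_lit 1100001, nat_lit 0, nat_lit 0, [nat_lit 490000, nat_lit 1100000], [nat_lit 24, nat_lit 40, nat_lit 80, nat_lit 80]⟩, ⟨p020_k12, nat_lit 0, nat_lit 0, nat_lit 0, nat_lit 0, nat_lit 0, [nat_lit 3282000000, nat_lit 4688000000], [], [nat_lit 23286822486, nat_lit 23602183073, nat_lit 23712123480, nat_lit 24017582080], nat_lit 0, nat_lit 0, nat_lit 0, nat_lit 0, nat_lit 0, nat_lit 0, [], [nat_lit 40, nat_lit 40, nat_lit 80, nat_lit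 80]⟩,
 zbF0, []⟩
noncomputable def p020_l39 : Lf2 := ⟨nat_lit 0, nat_lit 4, [nat_lit 38, nat_lit 5, nat_lit 5, nat_lit 20], false, nat_lit 0, nat_lit 0, nat_lit 0, nat_lit 0, ⟨nat_lit 1000, nat_lit 0, nat_lit 0, nat_lit 0, nat_lit 0, nat_lit 0, nat_lit 0, nat_lit 0, nat_lit 0, nat_lit 0, nat_lit 0, nat_lit 0, nat_lit 0, nat_lit 0, nat_lit 0, nat_lit 0, false, false⟩,
 nat_lit 0, nat_lit 0, nat_lit 0, nat_lit 0, nat_lit 0, nat_lit 5648, nat_lit 0, nat_lit 0, nat_lit 452, nat_lit 399, nat_lit 0, nat_lit 0, nat_lit 0, nat_lit 0, nat_lit 0, nat_lit 0, nat_lit 0, nat_lit 0, [],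
 ⟨p020_k10, nat_lit 0, nat_lit 0, nat_lit 0, nat_lit 0, nat_lit 1393300, [nat_lit 2032000001, nat_lit 4688000000], [], [nat_lit 15387154800, nat_lit 15432686620, nat_lit 15818856000, nat_lit 15867565800], nat_lit 1271250, nat_lit 1271250, nat_lit 904401, nat_lit 1100001, nat_lit 0, nat_lit 0, [nat_lit 490000, nat_lit 1100000], [nat_lit 24, nat_lit 40, nat_lit 80, nat_lit 80]⟩, ⟨p020_k12, nat_lit 0, nat_lit 0, nat_lit 0, nat_lit 0, nat_lit 0, [nat_lit 3282000000, nat_lit 4688000000], [], [nat_lit 19702296956, nat_lit 20328604967, nat_lit 19873370009, nat_lit 20384388745], nat_lit 0, nat_lit 0, nat_lit 0, nat_lit 0, nat_lit 0, nat_lit 0, [], [nat_lit 40, nat_lit 40, nat_lit 80, nat_lit 80]⟩,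
 zbF0, [⟨nat_lit 0, nat_lit 86, nat_lit 84, nat_lit 100, nat_lit 531448790⟩]⟩
noncomputable def p020_l40 : Lf2 := ⟨nat_lit 0, nat_lit 4, [nat_lit 38, nat_lit 5, nat_lit 5, nat_lit 20], false, nat_lit 0, nat_lit 0, nat_lit 0, nat_lit 0, ⟨nat_lit 1000, nat_lit 0, nat_lit 0, nat_lit 0, nat_lit 0, nat_lit 0, nat_lit 0, nat_lit 0, nat_lit 0, nat_lit 0, nat_lit 0, nat_lit 0, nat_lit 0, nat_lit 0, nat_lit 0, nat_lit 0, false, false⟩,
 nat_lit 0, nat_lit 0, nat_lit 0, nat_lit 0, nat_lit 0, nat_lit 5625, nat_lit 0, nat_lit 0, nat_lit 393, nat_lit 417, nat_lit 0, nat_lit 0, nat_lit 0, nat_lit 0, nat_lit 0, nat_lit 0, nat_lit 0, nat_lit 0, [],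
 ⟨p020_k10, nat_lit 0, nat_lit 0, nat_lit 0, nat_lit 0, nat_lit 1393300, [nat_lit 2032000001, nat_lit 4688000000], [], [nat_lit 21995154800, nat_lit 22040686620, nat_lit 22270091600, nat_lit 22315212740], nat_lit 1271250, nat_lit 1271250, nat_lit 904401, nat_lit 1033601, nat_lit 0, nat_lit 0, [nat_lit 490000, nat_lit 1100000], [nat_lit 24, nat_lit 40, nat_lit 80, nat_lit 80]⟩, ⟨p020_k12, nat_lit 0, nat_lit 0, nat_lit 0, nat_lit 0, nat_lit 0, [nat_lit 3282000000, nat_lit 4688000000], [], [nat_lit 19671701357, nat_lit 20296513600, nat_lit 19787066838, nat_lit 20303118075], nat_lit 0, nat_lit 0, nat_lit 0, nat_lit 0, nat_lit 0, nat_lit 0, [], [nat_lit 40, nat_lit 40, nat_lit 80, nat_lit 80]⟩,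
 zbF0, [⟨nat_lit 0, nat_lit 86, nat_lit 84, nat_lit 100, nat_lit 542153994⟩]⟩
noncomputable def p020_l41 : Lf2 := ⟨nat_lit 0, nat_lit 4, [nat_lit 38, nat_lit 5, nat_lit 5, nat_lit 20], true, nat_lit 0, nat_lit 0, nat_lit 0, nat_lit 0, ⟨nat_lit 0, nat_lit 0, nat_lit 1000, nat_lit 7, nat_lit 213, nat_lit 0, nat_lit 0, nat_lit 0, nat_lit 0, nat_lit 215, nat_lit 6394, nat_lit 233, nat_lit 52227925, nat_lit 0, nat_lit 0, nat_lit 2637565, false, false⟩,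
 nat_lit 0, nat_lit 100000, nat_lit 0, nat_lit 0, nat_lit 75000, nat_lit 0, nat_lit 4599, nat_lit 3823, nat_lit 0, nat_lit 0, nat_lit 0, nat_lit 0, nat_lit 0, nat_lit 0, nat_lit 0, nat_lit 1000000, nat_lit 0, nat_lit 0, [(nat_lit 18, [(nat_lit 6, nat_lit 1000)])],
 ⟨p020_k13, nat_lit 0, nat_lit 0, nat_lit 0, nat_lit 0, nat_lit 1393300, [nat_lit 31446000000, nat_lit 45786000000, nat_lit 59750800000], [], [nat_lit 24523070476, nat_lit 25021014575, nat_lit 21883552400, nat_lit 22408970740], nat_lit 1271250, nat_lit 1271250, nat_lit 904401, nat_lit 1033601, nat_lit 0, nat_lit 0, [nat_lit 490000, nat_lit 780000, nat_lit 1100000], [nat_lit 78, nat_lit 40, nat_lit 80, nat_lit 80]⟩, C1.Rw.none,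
 ⟨nat_lit 4415, nat_lit 4473, ⟨.ofNat (nat_lit 515240), .ofNat (nat_lit 542431), .ofNat (nat_lit 520632), .ofNat (nat_lit 547823), .ofNat (nat_lit 515895), .ofNat (nat_lit 542949), .ofNat (nat_lit 521291), .ofNat (nat_lit 548345)⟩, ⟨.ofNat (nat_lit 0), .ofNat (nat_lit 0), .ofNat (nat_lit 0), .ofNat (nat_lit 0), .ofNat (nat_lit 0), .ofNat (nat_lit 0), .ofNat (nat_lit 0), .ofNat (nat_lit 0)⟩⟩, [⟨nat_lit 0, nat_lit 83, nat_lit 82, nat_lit 100, nat_lit 802709162⟩]⟩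
noncomputable def p020_l42 : Lf2 := ⟨nat_lit 0, nat_lit 4, [nat_lit 38, nat_lit 5, nat_lit 5, nat_lit 20], false, nat_lit 0, nat_lit 0, nat_lit 0, nat_lit 0, ⟨nat_lit 1000, nat_lit 0, nat_lit 0, nat_lit 0, nat_lit 0, nat_lit 0, nat_lit 0, nat_lit 0, nat_lit 0, nat_lit 0, nat_lit 0, nat_lit 0, nat_lit 0, nat_lit 0, nat_lit 0, nat_lit 0, false, false⟩,
 nat_lit 0, nat_lit 11908, nat_lit 0, nat_lit 0, nat_lit 8930, nat_lit 5568, nat_lit 751, nat_lit 0, nat_lit 0, nat_lit 468, nat_lit 0, nat_lit 0, nat_lit 0, nat_lit 0, nat_lit 0, nat_lit 0, nat_lit 0, nat_lit 0, [],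
 ⟨p020_k13, nat_lit 0, nat_lit 0, nat_lit 0, nat_lit 0, nat_lit 1393300, [nat_lit 2032000001, nat_lit 3282000000, nat_lit 4688000000], [], [nat_lit 11316247559, nat_lit 11421590643, nat_lit 11285394640, nat_lit 11396969489], nat_lit 1271250, nat_lit 1271250, nat_lit 1033601, nat_lit 1100001, nat_lit 0, nat_lit 0, [nat_lit 490000, nat_lit 780000, nat_lit 1100000], [nat_lit 78, nat_lit 40, nat_lit 80, nat_lit 80]⟩, ⟨p020_k12, nat_lit 0, nat_lit 0, nat_lit 0, nat_lit 0, nat_lit 0, [nat_lit 3282000000, nat_lit 4688000000], [], [nat_lit 19759561160, nat_lit 20217164384, nat_lit 19840674244, nat_lit 20292539724], nat_lit 0, nat_lit 0, nat_lit 0, nat_lit 0, nat_lit 0, nat_lit 0, [], [nat_lit 40, nat_lit 40, nat_lit 80, nat_lit 80]⟩,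
 zbF0, []⟩
noncomputable def p020_l43 : Lf2 := ⟨nat_lit 2, nat_lit 4, [nat_lit 38, nat_lit 5, nat_lit 5, nat_lit 20], true, nat_lit 0, nat_lit 0, nat_lit 0, nat_lit 0, zbN0,
 nat_lit 0, nat_lit 0, nat_lit 0, nat_lit 0, nat_lit 0, nat_lit 0, nat_lit 0, nat_lit 0, nat_lit 0, nat_lit 0, nat_lit 0, nat_lit 0, nat_lit 0, nat_lit 0, nat_lit 0, nat_lit 0, nat_lit 0, nat_lit 0, [],
 ⟨p020_k13, nat_lit 0, nat_lit 0, nat_lit 617, nat_lit 0, nat_lit 1393300, [], [], [], nat_lit 1271250, nat_lit 1271250, nat_lit 904401, nat_lit 1100001, nat_lit 0, nat_lit 0, [nat_lit 490000, nat_lit 780000, nat_lit 1100000], [nat_lit 78, nat_lit 40, nat_lit 80, nat_lit 80, nat_lit 22, nat_lit 249, nat_lit 40, nat_lit 11]⟩, C1.Rw.none,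
 zbF0, []⟩
noncomputable def b_N_800_700_0_8 : St := ⟨false, nat_lit 1, nat_lit 0, nat_lit 1, nat_lit 40, nat_lit 320, nat_lit 322, nat_lit 310, nat_lit 320, nat_lit 132, nat_lit 160, nat_lit 0, nat_lit 0, nat_lit 0, nat_lit 0, nat_lit 0, nat_lit 0, nat_lit 12, nat_lit 16, nat_lit 600, nat_lit 0, nat_lit 0, nat_lit 400⟩
theorem d_N_800_700_0_8 (h : EB TB.env) : Dead b_N_800_700_0_8 := chkB_sound0 h (T :=
(.spl (nat_lit 1) (nat_lit 315)
(.leaf p020_l37)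
(.trZ (nat_lit 0) (nat_lit 86) (nat_lit 84) (nat_lit 100) (nat_lit 136) (.spl (nat_lit 7) (nat_lit 900)
(.leaf p020_l38)
(.spl (nat_lit 7) (nat_lit 1060)
(.leaf p020_l39)
(.spl (nat_lit 7) (nat_lit 1220)
(.spl (nat_lit 2) (nat_lit 152)
(.spl (nat_lit 7) (nat_lit 1140)
(.leaf p020_l40)
(.leaf p020_l41))
(.leaf p020_l42))
(.leaf p020_l43))))))) (by decide +kernel)
noncomputable def p020_l44 : Lf2 := ⟨nat_lit 0, nat_lit 5, [nat_lit 4, nat_lit 5, nat_lit 5, nat_lit 20], false, nat_lit 0, nat_lit 0, nat_lit 0, nat_lit 0, ⟨nat_lit 1000, nat_lit 0, nat_lit 0, nat_lit 0, nat_lit 0, nat_lit 0, nat_lit 0, nat_lit 0, nat_lit 0, nat_lit 0, nat_lit 0, nat_lit 0, nat_lit 0, nat_lit 0, nat_lit 0, nat_lit 0, false, false⟩,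
 nat_lit 0, nat_lit 8727, nat_lit 0, nat_lit 0, nat_lit 6545, nat_lit 4992, nat_lit 483, nat_lit 0, nat_lit 0, nat_lit 1788, nat_lit 0, nat_lit 0, nat_lit 0, nat_lit 0, nat_lit 0, nat_lit 0, nat_lit 0, nat_lit 0, [],
 ⟨p020_k14, nat_lit 0, nat_lit 0, nat_lit 655, nat_lit 0, nat_lit 1289341, [nat_lit 2032000001, nat_lit 4688000000, nat_lit 6250000000], [], [nat_lit 33330104047, nat_lit 33445180405, nat_lit 33256297601, nat_lit 33374855552], nat_lit 1271250, nat_lit 1271250, nat_lit 872850, nat_lit 1100001, nat_lit 0, nat_lit 0, [nat_lit 490000, nat_lit 1100000, nat_lit 1442500], [nat_lit 6, nat_lit 40, nat_lit 80, nat_lit 80, nat_lit 3, nat_lit 249, nat_lit 40, nat_lit 9]⟩, ⟨p020_k15, nat_lit 0, nat_lit 0, nat_lit 0, nat_lit 0, nat_lit 0, [nat_lit 3282000000, nat_lit 6250000000], [], [nat_lit 18307515751, nat_lit 18471390385, nat_lit 18596520828, nat_lit 18754705063], nat_lit 0, nat_lit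 0, nat_lit 0, nat_lit 0, nat_lit 0, nat_lit 0, [], [nat_lit 49, nat_lit 40, nat_lit 80, nat_lit 80]⟩,
 zbF0, [⟨nat_lit 0, nat_lit 87, nat_lit 83, nat_lit 100, nat_lit 656913940⟩]⟩
noncomputable def p020_l45 : Lf2 := ⟨nat_lit 0, nat_lit 5, [nat_lit 4, nat_lit 5, nat_lit 5, nat_lit 20], false, nat_lit 0, nat_lit 0, nat_lit 0, nat_lit 0, ⟨nat_lit 1000, nat_lit 0, nat_lit 0, nat_lit 0, nat_lit 0, nat_lit 0, nat_lit 0, nat_lit 0, nat_lit 0, nat_lit 0, nat_lit 0, nat_lit 0, nat_lit 0, nat_lit 0, nat_lit 0, nat_lit 0, false, false⟩,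
 nat_lit 0, nat_lit 8704, nat_lit 0, nat_lit 0, nat_lit 6528, nat_lit 4982, nat_lit 481, nat_lit 0, nat_lit 0, nat_lit 1668, nat_lit 0, nat_lit 0, nat_lit 0, nat_lit 0, nat_lit 0, nat_lit 0, nat_lit 0, nat_lit 0, [],
 ⟨p020_k14, nat_lit 0, nat_lit 0, nat_lit 659, nat_lit 0, nat_lit 1297781, [nat_lit 2032000001, nat_lit 4688000000, nat_lit 6250000000], [], [nat_lit 33422974728, nat_lit 33537923882, nat_lit 33350578241, nat_lit 33460903606], nat_lit 1271250, nat_lit 1271250, nat_lit 872850, nat_lit 1100001, nat_lit 0, nat_lit 0, [nat_lit 490000, nat_lit 1100000, nat_lit 1442500], [nat_lit 6, nat_lit 40, nat_lit 80, nat_lit 80, nat_lit 3, nat_lit 249, nat_lit 40, nat_lit 9]⟩, ⟨p020_k16, nat_lit 0, nat_lit 0, nat_lit 0, nat_lit 0, nat_lit 0, [nat_lit 3282000000, nat_lit 6250000000], [], [nat_lit 18493242941, nat_lit 18575087441, nat_lit 18776247356, nat_lit 18855143936], nat_lit 0, nat_lit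 0, nat_lit 0, nat_lit 0, nat_lit 0, nat_lit 0, [], [nat_lit 49, nat_lit 40, nat_lit 80, nat_lit 80]⟩,
 zbF0, [⟨nat_lit 0, nat_lit 87, nat_lit 83, nat_lit 100, nat_lit 658350963⟩]⟩
noncomputable def p020_l46 : Lf2 := ⟨nat_lit 0, nat_lit 5, [nat_lit 4, nat_lit 5, nat_lit 5, nat_lit 20], false, nat_lit 0, nat_lit 0, nat_lit 0, nat_lit 0, ⟨nat_lit 1000, nat_lit 0, nat_lit 0, nat_lit 0, nat_lit 0, nat_lit 0, nat_lit 0, nat_lit 0, nat_lit 0, nat_lit 0, nat_lit 0, nat_lit 0, nat_lit 0, nat_lit 0, nat_lit 0, nat_lit 0, false, false⟩,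
 nat_lit 0, nat_lit 8866, nat_lit 0, nat_lit 0, nat_lit 6649, nat_lit 4972, nat_lit 481, nat_lit 0, nat_lit 0, nat_lit 1611, nat_lit 0, nat_lit 0, nat_lit 0, nat_lit 0, nat_lit 0, nat_lit 0, nat_lit 0, nat_lit 0, [],
 ⟨p020_k14, nat_lit 0, nat_lit 0, nat_lit 662, nat_lit 0, nat_lit 1306242, [nat_lit 2032000001, nat_lit 4688000000, nat_lit 6250000000], [], [nat_lit 32820405527, nat_lit 32928511787, nat_lit 32728715256, nat_lit 32848641323], nat_lit 1271250, nat_lit 1271250, nat_lit 872850, nat_lit 1100001, nat_lit 0, nat_lit 0, [nat_lit 490000, nat_lit 1100000, nat_lit 1442500], [nat_lit 6, nat_lit 40, nat_lit 80, nat_lit 80, nat_lit 3, nat_lit 249, nat_lit 40, nat_lit 9]⟩, ⟨p020_k17, nat_lit 0, nat_lit 0, nat_lit 0, nat_lit 0, nat_lit 0, [nat_lit 3282000000, nat_lit 6250000000], [], [nat_lit 18596397180, nat_lit 18678148864, nat_lit 18876791005, nat_lit 18955370637], nat_lit 0, nat_lit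 0, nat_lit 0, nat_lit 0, nat_lit 0, nat_lit 0, [], [nat_lit 49, nat_lit 40, nat_lit 80, nat_lit 80]⟩,
 zbF0, [⟨nat_lit 0, nat_lit 86, nat_lit 83, nat_lit 100, nat_lit 666200165⟩]⟩
noncomputable def p020_l47 : Lf2 := ⟨nat_lit 0, nat_lit 5, [nat_lit 4, nat_lit 5, nat_lit 5, nat_lit 20], false, nat_lit 0, nat_lit 0, nat_lit 0, nat_lit 0, ⟨nat_lit 1000, nat_lit 0, nat_lit 0, nat_lit 0, nat_lit 0, nat_lit 0, nat_lit 0, nat_lit 0, nat_lit 0, nat_lit 0, nat_lit 0, nat_lit 0, nat_lit 0, nat_lit 0, nat_lit 0, nat_lit 0, false, false⟩,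
 nat_lit 0, nat_lit 8712, nat_lit 0, nat_lit 0, nat_lit 6534, nat_lit 4973, nat_lit 481, nat_lit 0, nat_lit 0, nat_lit 1565, nat_lit 0, nat_lit 0, nat_lit 0, nat_lit 0, nat_lit 0, nat_lit 0, nat_lit 0, nat_lit 0, [],
 ⟨p020_k14, nat_lit 0, nat_lit 0, nat_lit 661, nat_lit 0, nat_lit 1307959, [nat_lit 2032000001, nat_lit 4688000000, nat_lit 6250000000], [], [nat_lit 33379783395, nat_lit 33456005418, nat_lit 33317302721, nat_lit 33390880681], nat_lit 1271250, nat_lit 1271250, nat_lit 904401, nat_lit 1100001, nat_lit 0, nat_lit 0, [nat_lit 490000, nat_lit 1100000, nat_lit 1442500], [nat_lit 6, nat_lit 40, nat_lit 80, nat_lit 80, nat_lit 3, nat_lit 249, nat_lit 40, nat_lit 9]⟩, ⟨p020_k18, nat_lit 0, nat_lit 0, nat_lit 0, nat_lit 0, nat_lit 0, [nat_lit 3282000000, nat_lit 6250000000], [], [nat_lit 18729072977, nat_lit 18810352526, nat_lit 18966456559, nat_lit 19044847609], nat_lit 0, nat_lit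 0, nat_lit 0, nat_lit 0, nat_lit 0, nat_lit 0, [], [nat_lit 49, nat_lit 40, nat_lit 80, nat_lit 80]⟩,
 zbF0, [⟨nat_lit 0, nat_lit 86, nat_lit 83, nat_lit 100, nat_lit 664500835⟩]⟩
noncomputable def p020_l48 : Lf2 := ⟨nat_lit 0, nat_lit 5, [nat_lit 4, nat_lit 5, nat_lit 5, nat_lit 20], false, nat_lit 0, nat_lit 0, nat_lit 0, nat_lit 0, ⟨nat_lit 1000, nat_lit 0, nat_lit 0, nat_lit 0, nat_lit 0, nat_lit 0, nat_lit 0, nat_lit 0, nat_lit 0, nat_lit 0, nat_lit 0, nat_lit 0, nat_lit 0, nat_lit 0, nat_lit 0, nat_lit 0, false, false⟩,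
 nat_lit 0, nat_lit 8656, nat_lit 0, nat_lit 0, nat_lit 6542, nat_lit 4973, nat_lit 1366, nat_lit 0, nat_lit 0, nat_lit 1565, nat_lit 0, nat_lit 0, nat_lit 0, nat_lit 0, nat_lit 0, nat_lit 0, nat_lit 0, nat_lit 0, [],
 ⟨p020_k19, nat_lit 0, nat_lit 0, nat_lit 579, nat_lit 0, nat_lit 1301074, [nat_lit 2032000001, nat_lit 4688000000], [], [nat_lit 31051627516, nat_lit 31089758270, nat_lit 30989722605, nat_lit 31029416058], nat_lit 1271250, nat_lit 1271250, nat_lit 904401, nat_lit 1100001, nat_lit 0, nat_lit 0, [nat_lit 490000, nat_lit 1100000], [nat_lit 24, nat_lit 40, nat_lit 80, nat_lit 80, nat_lit 33, nat_lit 249, nat_lit 40, nat_lit 11]⟩, ⟨p020_k18, nat_lit 0, nat_lit 0, nat_lit 0, nat_lit 0, nat_lit 0, [nat_lit 3282000000, nat_lit 6250000000], [], [nat_lit 18729072977, nat_lit 18810352526, nat_lit 18966456559, nat_lit 19044847609], nat_lit 0, nat_lit 0, nat_lit 0, nat_lit 0, nat_lit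 0, nat_lit 0, [], [nat_lit 49, nat_lit 40, nat_lit 80, nat_lit 80]⟩,
 zbF0, [⟨nat_lit 0, nat_lit 86, nat_lit 83, nat_lit 100, nat_lit 662079574⟩]⟩
noncomputable def b_N_800_700_0_9 : St := ⟨false, nat_lit 1, nat_lit 0, nat_lit 1, nat_lit 40, nat_lit 320, nat_lit 323, nat_lit 310, nat_lit 315, nat_lit 132, nat_lit 160, nat_lit 0, nat_lit 0, nat_lit 0, nat_lit 0, nat_lit 0, nat_lit 0, nat_lit 16, nat_lit 20, nat_lit 0, nat_lit 0, nat_lit 0, nat_lit 800⟩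
theorem d_N_800_700_0_9 (h : EB TB.env) : Dead b_N_800_700_0_9 := chkB_sound0 h (T :=
(.spl (nat_lit 1) (nat_lit 313)
(.spl (nat_lit 1) (nat_lit 312)
(.leaf p020_l44)
(.leaf p020_l45))
(.spl (nat_lit 1) (nat_lit 314)
(.leaf p020_l46)
(.trZ (nat_lit 0) (nat_lit 87) (nat_lit 84) (nat_lit 100) (nat_lit 136) (.spl (nat_lit 0) (nat_lit 322)
(.leaf p020_l47)
(.leaf p020_l48)))))) (by decide +kernel)
noncomputable def p020_l49 : Lf2 := ⟨nat_lit 0, nat_lit 5, [nat_lit 4, nat_lit 5, nat_lit 5, nat_lit 20], false, nat_lit 0, nat_lit 0, nat_lit 0, nat_lit 0, ⟨nat_lit 1000, nat_lit 0, nat_lit 0, nat_lit 0, nat_lit 0, nat_lit 0, nat_lit 0, nat_lit 0, nat_lit 0, nat_lit 0, nat_lit 0, nat_lit 0, nat_lit 0, nat_lit 0, nat_lit 0, nat_lit 0, false, false⟩,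
 nat_lit 0, nat_lit 8879, nat_lit 0, nat_lit 0, nat_lit 6658, nat_lit 4953, nat_lit 481, nat_lit 0, nat_lit 0, nat_lit 1521, nat_lit 0, nat_lit 0, nat_lit 0, nat_lit 0, nat_lit 0, nat_lit 0, nat_lit 0, nat_lit 0, [],
 ⟨p020_k14, nat_lit 0, nat_lit 0, nat_lit 662, nat_lit 0, nat_lit 1309845, [nat_lit 2032000001, nat_lit 4688000000, nat_lit 6250000000], [], [nat_lit 32753748775, nat_lit 32789761711, nat_lit 32704404620, nat_lit 32744885996], nat_lit 1271250, nat_lit 1271250, nat_lit 904401, nat_lit 1033601, nat_lit 0, nat_lit 0, [nat_lit 490000, nat_lit 1100000, nat_lit 1442500], [nat_lit 6, nat_lit 40, nat_lit 80, nat_lit 80, nat_lit 3, nat_lit 249, nat_lit 40, nat_lit 9]⟩, ⟨p020_k20, nat_lit 0, nat_lit 0, nat_lit 0, nat_lit 0, nat_lit 0, [nat_lit 3282000000, nat_lit 6250000000], [], [nat_lit 18818409471, nat_lit 18899504864, nat_lit 18975624457, nat_lit 19054800091], nat_lit 0, nat_lit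 0, nat_lit 0, nat_lit 0, nat_lit 0, nat_lit 0, [], [nat_lit 49, nat_lit 40, nat_lit 80, nat_lit 80]⟩,
 zbF0, [⟨nat_lit 0, nat_lit 85, nat_lit 83, nat_lit 100, nat_lit 676518399⟩]⟩
noncomputable def p020_l50 : Lf2 := ⟨nat_lit 0, nat_lit 5, [nat_lit 4, nat_lit 5, nat_lit 5, nat_lit 20], false, nat_lit 0, nat_lit 0, nat_lit 0, nat_lit 0, ⟨nat_lit 1000, nat_lit 0, nat_lit 0, nat_lit 0, nat_lit 0, nat_lit 0, nat_lit 0, nat_lit 0, nat_lit 0, nat_lit 0, nat_lit 0, nat_lit 0, nat_lit 0, nat_lit 0, nat_lit 0, nat_lit 0, false, false⟩,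
 nat_lit 0, nat_lit 8883, nat_lit 0, nat_lit 0, nat_lit 6662, nat_lit 4939, nat_lit 481, nat_lit 0, nat_lit 0, nat_lit 1484, nat_lit 0, nat_lit 0, nat_lit 0, nat_lit 0, nat_lit 0, nat_lit 0, nat_lit 0, nat_lit 0, [],
 ⟨p020_k14, nat_lit 0, nat_lit 0, nat_lit 665, nat_lit 0, nat_lit 1318519, [nat_lit 2032000001, nat_lit 4688000000, nat_lit 6250000000], [], [nat_lit 32730876136, nat_lit 32769561316, nat_lit 32716618738, nat_lit 32757535807], nat_lit 1271250, nat_lit 1271250, nat_lit 904401, nat_lit 936251, nat_lit 0, nat_lit 0, [nat_lit 490000, nat_lit 1100000, nat_lit 1442500], [nat_lit 6, nat_lit 40, nat_lit 80, nat_lit 80, nat_lit 3, nat_lit 249, nat_lit 40, nat_lit 9]⟩, ⟨p020_k21, nat_lit 0, nat_lit 0, nat_lit 0, nat_lit 0, nat_lit 0, [nat_lit 3282000000, nat_lit 6250000000], [], [nat_lit 18886761441, nat_lit 18993722658, nat_lit 18925741144, nat_lit 19007593126], nat_lit 0, nat_lit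 0, nat_lit 0, nat_lit 0, nat_lit 0, nat_lit 0, [], [nat_lit 49, nat_lit 40, nat_lit 80, nat_lit 80]⟩,
 zbF0, [⟨nat_lit 0, nat_lit 85, nat_lit 84, nat_lit 100, nat_lit 1110099304⟩]⟩
noncomputable def p020_l51 : Lf2 := ⟨nat_lit 0, nat_lit 5, [nat_lit 4, nat_lit 5, nat_lit 5, nat_lit 20], false, nat_lit 0, nat_lit 0, nat_lit 0, nat_lit 0, ⟨nat_lit 1000, nat_lit 0, nat_lit 0, nat_lit 0, nat_lit 0, nat_lit 0, nat_lit 0, nat_lit 0, nat_lit 0, nat_lit 0, nat_lit 0, nat_lit 0, nat_lit 0, nat_lit 0, nat_lit 0, nat_lit 0, false, false⟩,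
 nat_lit 0, nat_lit 0, nat_lit 0, nat_lit 0, nat_lit 0, nat_lit 4965, nat_lit 153, nat_lit 0, nat_lit 484, nat_lit 1484, nat_lit 0, nat_lit 0, nat_lit 0, nat_lit 0, nat_lit 0, nat_lit 0, nat_lit 0, nat_lit 0, [],
 ⟨p020_k14, nat_lit 0, nat_lit 0, nat_lit 0, nat_lit 0, nat_lit 1318519, [nat_lit 2032000001, nat_lit 4688000000, nat_lit 6250000000], [], [nat_lit 13033851000, nat_lit 13068742800, nat_lit 13125401600, nat_lit 13160183000], nat_lit 1271250, nat_lit 1271250, nat_lit 936251, nat_lit 968401, nat_lit 0, nat_lit 0, [nat_lit 490000, nat_lit 1100000, nat_lit 1442500], [nat_lit 6, nat_lit 40, nat_lit 80, nat_lit 80]⟩, ⟨p020_k21, nat_lit 0, nat_lit 0, nat_lit 0, nat_lit 0, nat_lit 0, [nat_lit 3282000000, nat_lit 6250000000], [], [nat_lit 18926490203, nat_lit 19041430447, nat_lit 18941289895, nat_lit 19053981640], nat_lit 0, nat_lit 0, nat_lit 0, nat_lit 0, nat_lit 0, nat_lit 0, [], [nat_lit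 49, nat_lit 40, nat_lit 80, nat_lit 80]⟩,
 zbF0, [⟨nat_lit 0, nat_lit 85, nat_lit 84, nat_lit 100, nat_lit 9149242405⟩, ⟨nat_lit 0, nat_lit 85, nat_lit 84, nat_lit 100, nat_lit 14005602241⟩]⟩
noncomputable def p020_l52 : Lf2 := ⟨nat_lit 0, nat_lit 5, [nat_lit 4, nat_lit 5, nat_lit 5, nat_lit 20], false, nat_lit 0, nat_lit 0, nat_lit 0, nat_lit 0, ⟨nat_lit 1000, nat_lit 0, nat_lit 0, nat_lit 0, nat_lit 0, nat_lit 0, nat_lit 0, nat_lit 0, nat_lit 0, nat_lit 0, nat_lit 0, nat_lit 0, nat_lit 0, nat_lit 0, nat_lit 0, nat_lit 0, false, false⟩,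
 nat_lit 0, nat_lit 0, nat_lit 0, nat_lit 0, nat_lit 0, nat_lit 4965, nat_lit 137, nat_lit 0, nat_lit 466, nat_lit 1484, nat_lit 0, nat_lit 0, nat_lit 0, nat_lit 0, nat_lit 0, nat_lit 0, nat_lit 0, nat_lit 0, [],
 ⟨p020_k14, nat_lit 0, nat_lit 0, nat_lit 0, nat_lit 0, nat_lit 1318519, [nat_lit 2032000001, nat_lit 4688000000, nat_lit 6250000000], [], [nat_lit 14188727000, nat_lit 14215120125, nat_lit 14266152800, nat_lit 14292989380], nat_lit 1271250, nat_lit 1271250, nat_lit 936251, nat_lit 968401, nat_lit 0, nat_lit 0, [nat_lit 490000, nat_lit 1100000, nat_lit 1442500], [nat_lit 6, nat_lit 40, nat_lit 80, nat_lit 80]⟩, ⟨p020_k21, nat_lit 0, nat_lit 0, nat_lit 0, nat_lit 0, nat_lit 0, [nat_lit 3282000000, nat_lit 6250000000], [], [nat_lit 18926490203, nat_lit 19041430447, nat_lit 18941289895, nat_lit 19053981640], nat_lit 0, nat_lit 0, nat_lit 0, nat_lit 0, nat_lit 0, nat_lit 0, [], [nat_lit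 49, nat_lit 40, nat_lit 80, nat_lit 80]⟩,
 zbF0, [⟨nat_lit 0, nat_lit 85, nat_lit 84, nat_lit 100, nat_lit 2460017961⟩]⟩
noncomputable def p020_l53 : Lf2 := ⟨nat_lit 0, nat_lit 5, [nat_lit 4, nat_lit 5, nat_lit 5, nat_lit 20], false, nat_lit 0, nat_lit 0, nat_lit 0, nat_lit 0, ⟨nat_lit 1000, nat_lit 0, nat_lit 0, nat_lit 0, nat_lit 0, nat_lit 0, nat_lit 0, nat_lit 0, nat_lit 0, nat_lit 0, nat_lit 0, nat_lit 0, nat_lit 0, nat_lit 0, nat_lit 0, nat_lit 0, false, false⟩,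
 nat_lit 0, nat_lit 0, nat_lit 0, nat_lit 0, nat_lit 0, nat_lit 4939, nat_lit 136, nat_lit 0, nat_lit 452, nat_lit 1484, nat_lit 0, nat_lit 0, nat_lit 0, nat_lit 0, nat_lit 0, nat_lit 0, nat_lit 0, nat_lit 0, [],
 ⟨p020_k14, nat_lit 0, nat_lit 0, nat_lit 0, nat_lit 0, nat_lit 1318519, [nat_lit 2032000001, nat_lit 4688000000, nat_lit 6250000000], [], [nat_lit 15455889000, nat_lit 15479642775, nat_lit 15527160800, nat_lit 15551108780], nat_lit 1271250, nat_lit 1271250, nat_lit 936251, nat_lit 968401, nat_lit 0, nat_lit 0, [nat_lit 490000, nat_lit 1100000, nat_lit 1442500], [nat_lit 6, nat_lit 40, nat_lit 80, nat_lit 80]⟩, ⟨p020_k21, nat_lit 0, nat_lit 0, nat_lit 0, nat_lit 0, nat_lit 0, [nat_lit 3282000000, nat_lit 6250000000], [], [nat_lit 18925741144, nat_lit 19007593126, nat_lit 18965515339, nat_lit 19057606096], nat_lit 0, nat_lit 0, nat_lit 0, nat_lit 0, nat_lit 0, nat_lit 0, [], [nat_lit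 49, nat_lit 40, nat_lit 80, nat_lit 80]⟩,
 zbF0, [⟨nat_lit 0, nat_lit 85, nat_lit 84, nat_lit 100, nat_lit 78521629⟩]⟩
noncomputable def p020_l54 : Lf2 := ⟨nat_lit 0, nat_lit 5, [nat_lit 4, nat_lit 5, nat_lit 5, nat_lit 20], false, nat_lit 0, nat_lit 0, nat_lit 0, nat_lit 0, ⟨nat_lit 1000, nat_lit 0, nat_lit 0, nat_lit 0, nat_lit 0, nat_lit 0, nat_lit 0, nat_lit 0, nat_lit 0, nat_lit 0, nat_lit 0, nat_lit 0, nat_lit 0, nat_lit 0, nat_lit 0, nat_lit 0, false, false⟩,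
 nat_lit 0, nat_lit 8871, nat_lit 0, nat_lit 0, nat_lit 6653, nat_lit 4034, nat_lit 480, nat_lit 0, nat_lit 0, nat_lit 1500, nat_lit 0, nat_lit 0, nat_lit 0, nat_lit 0, nat_lit 0, nat_lit 0, nat_lit 0, nat_lit 0, [],
 ⟨p020_k14, nat_lit 0, nat_lit 0, nat_lit 664, nat_lit 0, nat_lit 1318519, [nat_lit 2032000001, nat_lit 4688000000, nat_lit 6250000000], [], [nat_lit 32770149586, nat_lit 32805499965, nat_lit 32756870106, nat_lit 32792013295], nat_lit 1271250, nat_lit 1271250, nat_lit 936251, nat_lit 968401, nat_lit 0, nat_lit 0, [nat_lit 490000, nat_lit 1100000, nat_lit 1442500], [nat_lit 6, nat_lit 40, nat_lit 80, nat_lit 80, nat_lit 3, nat_lit 249, nat_lit 40, nat_lit 9]⟩, ⟨p020_k22, nat_lit 0, nat_lit 0, nat_lit 0, nat_lit 0, nat_lit 0, [nat_lit 2032000000, nat_lit 3282000000, nat_lit 4688000000, nat_lit 6250000000], [], [nat_lit 18259349032, nat_lit 18335265515, nat_lit 18309409091, nat_lit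 18384891866], nat_lit 0, nat_lit 0, nat_lit 0, nat_lit 0, nat_lit 0, nat_lit 0, [], [nat_lit 127, nat_lit 40, nat_lit 80, nat_lit 80]⟩,
 zbF0, [⟨nat_lit 0, nat_lit 85, nat_lit 83, nat_lit 100, nat_lit 662700692⟩]⟩
noncomputable def p020_l55 : Lf2 := ⟨nat_lit 0, nat_lit 5, [nat_lit 4, nat_lit 5, nat_lit 5, nat_lit 20], false, nat_lit 0, nat_lit 0, nat_lit 0, nat_lit 0, ⟨nat_lit 1000, nat_lit 0, nat_lit 0, nat_lit 0, nat_lit 0, nat_lit 0, nat_lit 0, nat_lit 0, nat_lit 0, nat_lit 0, nat_lit 0, nat_lit 0, nat_lit 0, nat_lit 0, nat_lit 0, nat_lit 0, false, false⟩,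
 nat_lit 0, nat_lit 0, nat_lit 0, nat_lit 0, nat_lit 0, nat_lit 100000, nat_lit 0, nat_lit 0, nat_lit 0, nat_lit 19388, nat_lit 7837, nat_lit 0, nat_lit 0, nat_lit 0, nat_lit 0, nat_lit 0, nat_lit 0, nat_lit 0, [],
 ⟨p020_k14, nat_lit 0, nat_lit 0, nat_lit 664, nat_lit 0, nat_lit 1318519, [nat_lit 2032000001, nat_lit 4688000000, nat_lit 6250000000], [], [nat_lit 74603131002, nat_lit 74623848652, nat_lit 74667166402, nat_lit 74687840982], nat_lit 1271250, nat_lit 1271250, nat_lit 936251, nat_lit 968401, nat_lit 0, nat_lit 0, [nat_lit 490000, nat_lit 1100000, nat_lit 1442500], [nat_lit 6, nat_lit 40, nat_lit 80, nat_lit 80, nat_lit 3, nat_lit 249, nat_lit 40, nat_lit 9]⟩, ⟨p020_k21, nat_lit 0, nat_lit 0, nat_lit 0, nat_lit 0, nat_lit 0, [nat_lit 97326000000, nat_lit 162990000000], [], [nat_lit 120838588201, nat_lit 121932599051, nat_lit 119811961741, nat_lit 120763067700], nat_lit 0, nat_lit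 0, nat_lit 0, nat_lit 0, nat_lit 0, nat_lit 0, [], [nat_lit 49, nat_lit 40, nat_lit 80, nat_lit 80]⟩,
 zbF0, [⟨nat_lit 13, nat_lit 99, nat_lit 2, nat_lit 100, nat_lit 22240314⟩]⟩
noncomputable def p020_l56 : Lf2 := ⟨nat_lit 3, nat_lit 5, [nat_lit 4, nat_lit 5, nat_lit 5, nat_lit 20], false, nat_lit 0, nat_lit 0, nat_lit 0, nat_lit 0, zbN0,
 nat_lit 0, nat_lit 0, nat_lit 0, nat_lit 0, nat_lit 0, nat_lit 0, nat_lit 0, nat_lit 0, nat_lit 0, nat_lit 0, nat_lit 0, nat_lit 0, nat_lit 0, nat_lit 0, nat_lit 0, nat_lit 0, nat_lit 0, nat_lit 0, [],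
 C1.Rw.none, ⟨p020_k21, nat_lit 0, nat_lit 0, nat_lit 0, nat_lit 0, nat_lit 0, [], [], [], nat_lit 0, nat_lit 0, nat_lit 0, nat_lit 0, nat_lit 0, nat_lit 0, [], [nat_lit 49, nat_lit 40, nat_lit 80, nat_lit 80]⟩,
 zbF0, []⟩
noncomputable def p020_l57 : Lf2 := ⟨nat_lit 0, nat_lit 5, [nat_lit 4, nat_lit 5, nat_lit 5, nat_lit 20], false, nat_lit 0, nat_lit 0, nat_lit 0, nat_lit 0, ⟨nat_lit 1000, nat_lit 0, nat_lit 0, nat_lit 0, nat_lit 0, nat_lit 0, nat_lit 0, nat_lit 0, nat_lit 0, nat_lit 0, nat_lit 0, nat_lit 0, nat_lit 0, nat_lit 0, nat_lit 0, nat_lit 0, false, false⟩,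
 nat_lit 0, nat_lit 8871, nat_lit 0, nat_lit 0, nat_lit 6653, nat_lit 4955, nat_lit 479, nat_lit 0, nat_lit 0, nat_lit 1480, nat_lit 0, nat_lit 0, nat_lit 0, nat_lit 0, nat_lit 0, nat_lit 0, nat_lit 0, nat_lit 0, [],
 ⟨p020_k14, nat_lit 0, nat_lit 0, nat_lit 662, nat_lit 0, nat_lit 1318519, [nat_lit 2032000001, nat_lit 4688000000, nat_lit 6250000000], [], [nat_lit 32756870106, nat_lit 32792013295, nat_lit 32730311144, nat_lit 32770091588], nat_lit 1271250, nat_lit 1271250, nat_lit 968401, nat_lit 1033601, nat_lit 0, nat_lit 0, [nat_lit 490000, nat_lit 1100000, nat_lit 1442500], [nat_lit 6, nat_lit 40, nat_lit 80, nat_lit 80, nat_lit 3, nat_lit 249, nat_lit 40, nat_lit 9]⟩, ⟨p020_k21, nat_lit 0, nat_lit 0, nat_lit 0, nat_lit 0, nat_lit 0, [nat_lit 3282000000, nat_lit 6250000000], [], [nat_lit 18963483782, nat_lit 19043637415, nat_lit 19051441401, nat_lit 19142584990], nat_lit 0, nat_lit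 0, nat_lit 0, nat_lit 0, nat_lit 0, nat_lit 0, [], [nat_lit 49, nat_lit 40, nat_lit 80, nat_lit 80]⟩,
 zbF0, []⟩
noncomputable def p020_l58 : Lf2 := ⟨nat_lit 0, nat_lit 5, [nat_lit 4, nat_lit 5, nat_lit 5, nat_lit 20], false, nat_lit 0, nat_lit 0, nat_lit 0, nat_lit 0, ⟨nat_lit 1000, nat_lit 0, nat_lit 0, nat_lit 0, nat_lit 0, nat_lit 0, nat_lit 0, nat_lit 0, nat_lit 0, nat_lit 0, nat_lit 0, nat_lit 0, nat_lit 0, nat_lit 0, nat_lit 0, nat_lit 0, false, false⟩,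
 nat_lit 0, nat_lit 0, nat_lit 0, nat_lit 0, nat_lit 0, nat_lit 4955, nat_lit 157, nat_lit 0, nat_lit 480, nat_lit 1441, nat_lit 0, nat_lit 0, nat_lit 0, nat_lit 0, nat_lit 0, nat_lit 0, nat_lit 0, nat_lit 0, [],
 ⟨p020_k14, nat_lit 0, nat_lit 0, nat_lit 0, nat_lit 0, nat_lit 1327215, [nat_lit 2032000001, nat_lit 4688000000, nat_lit 6250000000], [], [nat_lit 13224762000, nat_lit 13256515925, nat_lit 13312504800, nat_lit 13345025220], nat_lit 1271250, nat_lit 1271250, nat_lit 936251, nat_lit 968401, nat_lit 0, nat_lit 0, [nat_lit 490000, nat_lit 1100000, nat_lit 1442500], [nat_lit 6, nat_lit 40, nat_lit 80, nat_lit 80]⟩, ⟨p020_k23, nat_lit 0, nat_lit 0, nat_lit 0, nat_lit 0, nat_lit 0, [nat_lit 3282000000, nat_lit 6250000000], [], [nat_lit 19028087946, nat_lit 19142885518, nat_lit 19042873439, nat_lit 19154973329], nat_lit 0, nat_lit 0, nat_lit 0, nat_lit 0, nat_lit 0, nat_lit 0, [], [nat_lit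 49, nat_lit 40, nat_lit 80, nat_lit 80]⟩,
 zbF0, [⟨nat_lit 0, nat_lit 85, nat_lit 83, nat_lit 100, nat_lit 14174344437⟩, ⟨nat_lit 0, nat_lit 84, nat_lit 83, nat_lit 100, nat_lit 2992586214⟩, ⟨nat_lit 0, nat_lit 85, nat_lit 84, nat_lit 100, nat_lit 14005602241⟩]⟩
noncomputable def p020_l59 : Lf2 := ⟨nat_lit 0, nat_lit 5, [nat_lit 4, nat_lit 5, nat_lit 5, nat_lit 20], false, nat_lit 0, nat_lit 0, nat_lit 0, nat_lit 0, ⟨nat_lit 1000, nat_lit 0, nat_lit 0, nat_lit 0, nat_lit 0, nat_lit 0, nat_lit 0, nat_lit 0, nat_lit 0, nat_lit 0, nat_lit 0, nat_lit 0, nat_lit 0, nat_lit 0, nat_lit 0, nat_lit 0, false, false⟩,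
 nat_lit 0, nat_lit 0, nat_lit 0, nat_lit 0, nat_lit 0, nat_lit 4955, nat_lit 131, nat_lit 0, nat_lit 457, nat_lit 1441, nat_lit 0, nat_lit 0, nat_lit 0, nat_lit 0, nat_lit 0, nat_lit 0, nat_lit 0, nat_lit 0, [],
 ⟨p020_k14, nat_lit 0, nat_lit 0, nat_lit 0, nat_lit 0, nat_lit 1327215, [nat_lit 2032000001, nat_lit 4688000000, nat_lit 6250000000], [], [nat_lit 14975638000, nat_lit 14999642775, nat_lit 15047160800, nat_lit 15071108780], nat_lit 1271250, nat_lit 1271250, nat_lit 936251, nat_lit 968401, nat_lit 0, nat_lit 0, [nat_lit 490000, nat_lit 1100000, nat_lit 1442500], [nat_lit 6, nat_lit 40, nat_lit 80, nat_lit 80]⟩, ⟨p020_k23, nat_lit 0, nat_lit 0, nat_lit 0, nat_lit 0, nat_lit 0, [nat_lit 3282000000, nat_lit 6250000000], [], [nat_lit 19028087946, nat_lit 19142885518, nat_lit 19042873439, nat_lit 19154973329], nat_lit 0, nat_lit 0, nat_lit 0, nat_lit 0, nat_lit 0, nat_lit 0, [], [nat_lit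 49, nat_lit 40, nat_lit 80, nat_lit 80]⟩,
 zbF0, [⟨nat_lit 0, nat_lit 85, nat_lit 84, nat_lit 100, nat_lit 3450627413⟩]⟩
noncomputable def p020_l60 : Lf2 := ⟨nat_lit 0, nat_lit 5, [nat_lit 4, nat_lit 5, nat_lit 5, nat_lit 20], false, nat_lit 0, nat_lit 0, nat_lit 0, nat_lit 0, ⟨nat_lit 1000, nat_lit 0, nat_lit 0, nat_lit 0, nat_lit 0, nat_lit 0, nat_lit 0, nat_lit 0, nat_lit 0, nat_lit 0, nat_lit 0, nat_lit 0, nat_lit 0, nat_lit 0, nat_lit 0, nat_lit 0, false, false⟩,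
 nat_lit 0, nat_lit 0, nat_lit 0, nat_lit 0, nat_lit 0, nat_lit 4944, nat_lit 136, nat_lit 0, nat_lit 452, nat_lit 1441, nat_lit 0, nat_lit 0, nat_lit 0, nat_lit 0, nat_lit 0, nat_lit 0, nat_lit 0, nat_lit 0, [],
 ⟨p020_k14, nat_lit 0, nat_lit 0, nat_lit 0, nat_lit 0, nat_lit 1327215, [nat_lit 2032000001, nat_lit 4688000000, nat_lit 6250000000], [], [nat_lit 15455889000, nat_lit 15479642775, nat_lit 15527160800, nat_lit 15551108780], nat_lit 1271250, nat_lit 1271250, nat_lit 936251, nat_lit 968401, nat_lit 0, nat_lit 0, [nat_lit 490000, nat_lit 1100000, nat_lit 1442500], [nat_lit 6, nat_lit 40, nat_lit 80, nat_lit 80]⟩, ⟨p020_k23, nat_lit 0, nat_lit 0, nat_lit 0, nat_lit 0, nat_lit 0, [nat_lit 3282000000, nat_lit 6250000000], [], [nat_lit 19013713017, nat_lit 19128051826, nat_lit 19053002141, nat_lit 19145147682], nat_lit 0, nat_lit 0, nat_lit 0, nat_lit 0, nat_lit 0, nat_lit 0, [], [nat_lit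 49, nat_lit 40, nat_lit 80, nat_lit 80]⟩,
 zbF0, [⟨nat_lit 0, nat_lit 85, nat_lit 84, nat_lit 100, nat_lit 526649393⟩]⟩
noncomputable def p020_l61 : Lf2 := ⟨nat_lit 0, nat_lit 5, [nat_lit 4, nat_lit 5, nat_lit 5, nat_lit 20], false, nat_lit 0, nat_lit 0, nat_lit 0, nat_lit 0, ⟨nat_lit 1000, nat_lit 0, nat_lit 0, nat_lit 0, nat_lit 0, nat_lit 0, nat_lit 0, nat_lit 0, nat_lit 0, nat_lit 0, nat_lit 0, nat_lit 0, nat_lit 0, nat_lit 0, nat_lit 0, nat_lit 0, false, false⟩,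
 nat_lit 0, nat_lit 8871, nat_lit 0, nat_lit 0, nat_lit 6653, nat_lit 4038, nat_lit 479, nat_lit 0, nat_lit 0, nat_lit 1462, nat_lit 0, nat_lit 0, nat_lit 0, nat_lit 0, nat_lit 0, nat_lit 0, nat_lit 0, nat_lit 0, [],
 ⟨p020_k14, nat_lit 0, nat_lit 0, nat_lit 667, nat_lit 0, nat_lit 1327215, [nat_lit 2032000001, nat_lit 4688000000, nat_lit 6250000000], [], [nat_lit 32770149586, nat_lit 32807419631, nat_lit 32756870106, nat_lit 32792013295], nat_lit 1271250, nat_lit 1271250, nat_lit 936251, nat_lit 968401, nat_lit 0, nat_lit 0, [nat_lit 490000, nat_lit 1100000, nat_lit 1442500], [nat_lit 6, nat_lit 40, nat_lit 80, nat_lit 80, nat_lit 3, nat_lit 249, nat_lit 40, nat_lit 9]⟩, ⟨p020_k24, nat_lit 0, nat_lit 0, nat_lit 0, nat_lit 0, nat_lit 0, [nat_lit 2032000000, nat_lit 3282000000, nat_lit 4688000000, nat_lit 6250000000], [], [nat_lit 18355039074, nat_lit 18435499835, nat_lit 18401647740, nat_lit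 18477169354], nat_lit 0, nat_lit 0, nat_lit 0, nat_lit 0, nat_lit 0, nat_lit 0, [], [nat_lit 127, nat_lit 40, nat_lit 80, nat_lit 80]⟩,
 zbF0, [⟨nat_lit 0, nat_lit 84, nat_lit 83, nat_lit 100, nat_lit 688118395⟩]⟩
noncomputable def p020_l62 : Lf2 := ⟨nat_lit 0, nat_lit 5, [nat_lit 4, nat_lit 5, nat_lit 5, nat_lit 20], false, nat_lit 0, nat_lit 0, nat_lit 0, nat_lit 0, ⟨nat_lit 1000, nat_lit 0, nat_lit 0, nat_lit 0, nat_lit 0, nat_lit 0, nat_lit 0, nat_lit 0, nat_lit 0, nat_lit 0, nat_lit 0, nat_lit 0, nat_lit 0, nat_lit 0, nat_lit 0, nat_lit 0, false, false⟩,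
 nat_lit 0, nat_lit 0, nat_lit 0, nat_lit 0, nat_lit 0, nat_lit 100000, nat_lit 0, nat_lit 0, nat_lit 0, nat_lit 18795, nat_lit 7842, nat_lit 0, nat_lit 0, nat_lit 0, nat_lit 0, nat_lit 0, nat_lit 0, nat_lit 0, [],
 ⟨p020_k14, nat_lit 0, nat_lit 0, nat_lit 667, nat_lit 0, nat_lit 1327215, [nat_lit 2032000001, nat_lit 4688000000, nat_lit 6250000000], [], [nat_lit 74603131002, nat_lit 74623848652, nat_lit 74667166402, nat_lit 74687840982], nat_lit 1271250, nat_lit 1271250, nat_lit 936251, nat_lit 968401, nat_lit 0, nat_lit 0, [nat_lit 490000, nat_lit 1100000, nat_lit 1442500], [nat_lit 6, nat_lit 40, nat_lit 80, nat_lit 80, nat_lit 3, nat_lit 249, nat_lit 40, nat_lit 9]⟩, ⟨p020_k23, nat_lit 0, nat_lit 0, nat_lit 0, nat_lit 0, nat_lit 0, [nat_lit 97386000000, nat_lit 163090000000], [], [nat_lit 122295143651, nat_lit 123384558475, nat_lit 121180377005, nat_lit 122121662200], nat_lit 0, nat_lit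 0, nat_lit 0, nat_lit 0, nat_lit 0, nat_lit 0, [], [nat_lit 49, nat_lit 40, nat_lit 80, nat_lit 80]⟩,
 zbF0, [⟨nat_lit 13, nat_lit 99, nat_lit 2, nat_lit 100, nat_lit 20231041⟩]⟩
noncomputable def p020_l63 : Lf2 := ⟨nat_lit 3, nat_lit 5, [nat_lit 4, nat_lit 5, nat_lit 5, nat_lit 20], false, nat_lit 0, nat_lit 0, nat_lit 0, nat_lit 0, zbN0,
 nat_lit 0, nat_lit 0, nat_lit 0, nat_lit 0, nat_lit 0, nat_lit 0, nat_lit 0, nat_lit 0, nat_lit 0, nat_lit 0, nat_lit 0, nat_lit 0, nat_lit 0, nat_lit 0, nat_lit 0, nat_lit 0, nat_lit 0, nat_lit 0, [],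
 C1.Rw.none, ⟨p020_k23, nat_lit 0, nat_lit 0, nat_lit 0, nat_lit 0, nat_lit 0, [], [], [], nat_lit 0, nat_lit 0, nat_lit 0, nat_lit 0, nat_lit 0, nat_lit 0, [], [nat_lit 49, nat_lit 40, nat_lit 80, nat_lit 80]⟩,
 zbF0, []⟩
noncomputable def p020_l64 : Lf2 := ⟨nat_lit 0, nat_lit 5, [nat_lit 4, nat_lit 5, nat_lit 5, nat_lit 20], false, nat_lit 0, nat_lit 0, nat_lit 0, nat_lit 0, ⟨nat_lit 1000, nat_lit 0, nat_lit 0, nat_lit 0, nat_lit 0, nat_lit 0, nat_lit 0, nat_lit 0, nat_lit 0, nat_lit 0, nat_lit 0, nat_lit 0, nat_lit 0, nat_lit 0, nat_lit 0, nat_lit 0, false, false⟩,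
 nat_lit 0, nat_lit 0, nat_lit 0, nat_lit 0, nat_lit 0, nat_lit 4972, nat_lit 165, nat_lit 0, nat_lit 490, nat_lit 1437, nat_lit 0, nat_lit 0, nat_lit 0, nat_lit 0, nat_lit 0, nat_lit 0, nat_lit 0, nat_lit 0, [],
 ⟨p020_k14, nat_lit 0, nat_lit 0, nat_lit 0, nat_lit 0, nat_lit 1327215, [nat_lit 2032000001, nat_lit 4688000000, nat_lit 6250000000], [], [nat_lit 12861401600, nat_lit 12896183000, nat_lit 12952952200, nat_lit 12989277320], nat_lit 1271250, nat_lit 1271250, nat_lit 968401, nat_lit 1000851, nat_lit 0, nat_lit 0, [nat_lit 490000, nat_lit 1100000, nat_lit 1442500], [nat_lit 6, nat_lit 40, nat_lit 80, nat_lit 80]⟩, ⟨p020_k23, nat_lit 0, nat_lit 0, nat_lit 0, nat_lit 0, nat_lit 0, [nat_lit 3282000000, nat_lit 6250000000], [], [nat_lit 19063195904, nat_lit 19177591682, nat_lit 19078486852, nat_lit 19189373052], nat_lit 0, nat_lit 0, nat_lit 0, nat_lit 0, nat_lit 0, nat_lit 0, [], [nat_lit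 49, nat_lit 40, nat_lit 80, nat_lit 80]⟩,
 zbF0, [⟨nat_lit 0, nat_lit 85, nat_lit 83, nat_lit 100, nat_lit 701053939⟩, ⟨nat_lit 0, nat_lit 85, nat_lit 84, nat_lit 100, nat_lit 14005602241⟩]⟩
noncomputable def p020_l65 : Lf2 := ⟨nat_lit 0, nat_lit 5, [nat_lit 4, nat_lit 5, nat_lit 5, nat_lit 20], false, nat_lit 0, nat_lit 0, nat_lit 0, nat_lit 0, ⟨nat_lit 1000, nat_lit 0, nat_lit 0, nat_lit 0, nat_lit 0, nat_lit 0, nat_lit 0, nat_lit 0, nat_lit 0, nat_lit 0, nat_lit 0, nat_lit 0, nat_lit 0, nat_lit 0, nat_lit 0, nat_lit 0, false, false⟩,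
 nat_lit 0, nat_lit 0, nat_lit 0, nat_lit 0, nat_lit 0, nat_lit 4946, nat_lit 0, nat_lit 0, nat_lit 466, nat_lit 1441, nat_lit 0, nat_lit 0, nat_lit 0, nat_lit 0, nat_lit 0, nat_lit 0, nat_lit 0, nat_lit 0, [],
 ⟨p020_k14, nat_lit 0, nat_lit 0, nat_lit 0, nat_lit 0, nat_lit 1327215, [nat_lit 2032000001, nat_lit 4688000000, nat_lit 6250000000], [], [nat_lit 14812848000, nat_lit 14840696561, nat_lit 14893243600, nat_lit 14921704820], nat_lit 1271250, nat_lit 1271250, nat_lit 968401, nat_lit 1000851, nat_lit 0, nat_lit 0, [nat_lit 490000, nat_lit 1100000, nat_lit 1442500], [nat_lit 6, nat_lit 40, nat_lit 80, nat_lit 80]⟩, ⟨p020_k23, nat_lit 0, nat_lit 0, nat_lit 0, nat_lit 0, nat_lit 0, [nat_lit 3282000000, nat_lit 6250000000], [], [nat_lit 19051160559, nat_lit 19143328014, nat_lit 19101104757, nat_lit 19192711757], nat_lit 0, nat_lit 0, nat_lit 0, nat_lit 0, nat_lit 0, nat_lit 0, [], [nat_lit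 49, nat_lit 40, nat_lit 80, nat_lit 80]⟩,
 zbF0, [⟨nat_lit 13, nat_lit 99, nat_lit 2, nat_lit 100, nat_lit 27867744⟩]⟩
noncomputable def p020_l66 : Lf2 := ⟨nat_lit 0, nat_lit 5, [nat_lit 4, nat_lit 5, nat_lit 5, nat_lit 20], false, nat_lit 0, nat_lit 0, nat_lit 0, nat_lit 0, ⟨nat_lit 1000, nat_lit 0, nat_lit 0, nat_lit 0, nat_lit 0, nat_lit 0, nat_lit 0, nat_lit 0, nat_lit 0, nat_lit 0, nat_lit 0, nat_lit 0, nat_lit 0, nat_lit 0, nat_lit 0, nat_lit 0, false, false⟩,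
 nat_lit 0, nat_lit 0, nat_lit 0, nat_lit 0, nat_lit 0, nat_lit 4946, nat_lit 136, nat_lit 0, nat_lit 452, nat_lit 1437, nat_lit 0, nat_lit 0, nat_lit 0, nat_lit 0, nat_lit 0, nat_lit 0, nat_lit 0, nat_lit 0, [],
 ⟨p020_k14, nat_lit 0, nat_lit 0, nat_lit 0, nat_lit 0, nat_lit 1327215, [nat_lit 2032000001, nat_lit 4688000000, nat_lit 6250000000], [], [nat_lit 15527160800, nat_lit 15551108780, nat_lit 15599471400, nat_lit 15624006135], nat_lit 1271250, nat_lit 1271250, nat_lit 968401, nat_lit 1000851, nat_lit 0, nat_lit 0, [nat_lit 490000, nat_lit 1100000, nat_lit 1442500], [nat_lit 6, nat_lit 40, nat_lit 80, nat_lit 80]⟩, ⟨p020_k23, nat_lit 0, nat_lit 0, nat_lit 0, nat_lit 0, nat_lit 0, [nat_lit 3282000000, nat_lit 6250000000], [], [nat_lit 19064372817, nat_lit 19144444910, nat_lit 19102795149, nat_lit 19192711757], nat_lit 0, nat_lit 0, nat_lit 0, nat_lit 0, nat_lit 0, nat_lit 0, [], [nat_lit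 49, nat_lit 40, nat_lit 80, nat_lit 80]⟩,
 zbF0, []⟩
noncomputable def p020_l67 : Lf2 := ⟨nat_lit 0, nat_lit 5, [nat_lit 4, nat_lit 5, nat_lit 5, nat_lit 20], false, nat_lit 0, nat_lit 0, nat_lit 0, nat_lit 0, ⟨nat_lit 1000, nat_lit 0, nat_lit 0, nat_lit 0, nat_lit 0, nat_lit 0, nat_lit 0, nat_lit 0, nat_lit 0, nat_lit 0, nat_lit 0, nat_lit 0, nat_lit 0, nat_lit 0, nat_lit 0, nat_lit 0, false, false⟩,
 nat_lit 0, nat_lit 8871, nat_lit 0, nat_lit 0, nat_lit 6653, nat_lit 4038, nat_lit 479, nat_lit 0, nat_lit 0, nat_lit 1462, nat_lit 0, nat_lit 0, nat_lit 0, nat_lit 0, nat_lit 0, nat_lit 0, nat_lit 0, nat_lit 0, [],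
 ⟨p020_k14, nat_lit 0, nat_lit 0, nat_lit 666, nat_lit 0, nat_lit 1327215, [nat_lit 2032000001, nat_lit 4688000000, nat_lit 6250000000], [], [nat_lit 32756870106, nat_lit 32792013295, nat_lit 32743590625, nat_lit 32780922119], nat_lit 1271250, nat_lit 1271250, nat_lit 968401, nat_lit 1000851, nat_lit 0, nat_lit 0, [nat_lit 490000, nat_lit 1100000, nat_lit 1442500], [nat_lit 6, nat_lit 40, nat_lit 80, nat_lit 80, nat_lit 3, nat_lit 249, nat_lit 40, nat_lit 9]⟩, ⟨p020_k24, nat_lit 0, nat_lit 0, nat_lit 0, nat_lit 0, nat_lit 0, [nat_lit 2032000000, nat_lit 3282000000, nat_lit 4688000000, nat_lit 6250000000], [], [nat_lit 18401647740, nat_lit 18477169354, nat_lit 18451228747, nat_lit 18526316341], nat_lit 0, nat_lit 0, nat_lit 0, nat_lit 0, nat_lit 0, nat_lit 0, [], [nat_lit 127, nat_lit 40, nat_lit 80, nat_lit 80]⟩,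
 zbF0, []⟩
noncomputable def p020_l68 : Lf2 := ⟨nat_lit 0, nat_lit 5, [nat_lit 4, nat_lit 5, nat_lit 5, nat_lit 20], false, nat_lit 0, nat_lit 0, nat_lit 0, nat_lit 0, ⟨nat_lit 1000, nat_lit 0, nat_lit 0, nat_lit 0, nat_lit 0, nat_lit 0, nat_lit 0, nat_lit 0, nat_lit 0, nat_lit 0, nat_lit 0, nat_lit 0, nat_lit 0, nat_lit 0, nat_lit 0, nat_lit 0, false, false⟩,
 nat_lit 0, nat_lit 0, nat_lit 0, nat_lit 0, nat_lit 0, nat_lit 100000, nat_lit 0, nat_lit 0, nat_lit 0, nat_lit 18767, nat_lit 7830, nat_lit 0, nat_lit 0, nat_lit 0, nat_lit 0, nat_lit 0, nat_lit 0, nat_lit 0, [],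
 ⟨p020_k14, nat_lit 0, nat_lit 0, nat_lit 666, nat_lit 0, nat_lit 1327215, [nat_lit 2032000001, nat_lit 4688000000, nat_lit 6250000000], [], [nat_lit 74667166402, nat_lit 74687840982, nat_lit 74731201802, nat_lit 74751833312], nat_lit 1271250, nat_lit 1271250, nat_lit 968401, nat_lit 1000851, nat_lit 0, nat_lit 0, [nat_lit 490000, nat_lit 1100000, nat_lit 1442500], [nat_lit 6, nat_lit 40, nat_lit 80, nat_lit 80, nat_lit 3, nat_lit 249, nat_lit 40, nat_lit 9]⟩, ⟨p020_k23, nat_lit 0, nat_lit 0, nat_lit 0, nat_lit 0, nat_lit 0, [nat_lit 97242000000, nat_lit 162850000000], [], [nat_lit 120898391885, nat_lit 121979518865, nat_lit 119867748511, nat_lit 120801525416], nat_lit 0, nat_lit 0, nat_lit 0, nat_lit 0, nat_lit 0, nat_lit 0, [], [nat_lit 49, nat_lit 40, nat_lit 80, nat_lit 80]⟩,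
 zbF0, [⟨nat_lit 13, nat_lit 99, nat_lit 2, nat_lit 100, nat_lit 51485740⟩]⟩
noncomputable def p020_l69 : Lf2 := ⟨nat_lit 3, nat_lit 5, [nat_lit 4, nat_lit 5, nat_lit 5, nat_lit 20], false, nat_lit 0, nat_lit 0, nat_lit 0, nat_lit 0, zbN0,
 nat_lit 0, nat_lit 0, nat_lit 0, nat_lit 0, nat_lit 0, nat_lit 0, nat_lit 0, nat_lit 0, nat_lit 0, nat_lit 0, nat_lit 0, nat_lit 0, nat_lit 0, nat_lit 0, nat_lit 0, nat_lit 0, nat_lit 0, nat_lit 0, [],
 C1.Rw.none, ⟨p020_k23, nat_lit 0, nat_lit 0, nat_lit 0, nat_lit 0, nat_lit 0, [], [], [], nat_lit 0, nat_lit 0, nat_lit 0, nat_lit 0, nat_lit 0, nat_lit 0, [], [nat_lit 49, nat_lit 40, nat_lit 80, nat_lit 80]⟩,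
 zbF0, []⟩
noncomputable def p020_l70 : Lf2 := ⟨nat_lit 0, nat_lit 5, [nat_lit 4, nat_lit 5, nat_lit 5, nat_lit 20], false, nat_lit 0, nat_lit 0, nat_lit 0, nat_lit 0, ⟨nat_lit 1000, nat_lit 0, nat_lit 0, nat_lit 0, nat_lit 0, nat_lit 0, nat_lit 0, nat_lit 0, nat_lit 0, nat_lit 0, nat_lit 0, nat_lit 0, nat_lit 0, nat_lit 0, nat_lit 0, nat_lit 0, false, false⟩,
 nat_lit 0, nat_lit 8867, nat_lit 0, nat_lit 0, nat_lit 6650, nat_lit 4962, nat_lit 478, nat_lit 0, nat_lit 0, nat_lit 1434, nat_lit 0, nat_lit 0, nat_lit 0, nat_lit 0, nat_lit 0, nat_lit 0, nat_lit 0, nat_lit 0, [],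
 ⟨p020_k14, nat_lit 0, nat_lit 0, nat_lit 664, nat_lit 0, nat_lit 1327215, [nat_lit 2032000001, nat_lit 4688000000, nat_lit 6250000000], [], [nat_lit 32761505122, nat_lit 32796434890, nat_lit 32748261083, nat_lit 32785214944], nat_lit 1271250, nat_lit 1271250, nat_lit 1000851, nat_lit 1033601, nat_lit 0, nat_lit 0, [nat_lit 490000, nat_lit 1100000, nat_lit 1442500], [nat_lit 6, nat_lit 40, nat_lit 80, nat_lit 80, nat_lit 3, nat_lit 249, nat_lit 40, nat_lit 9]⟩, ⟨p020_k23, nat_lit 0, nat_lit 0, nat_lit 0, nat_lit 0, nat_lit 0, [nat_lit 3282000000, nat_lit 6250000000], [], [nat_lit 19098383072, nat_lit 19178119522, nat_lit 19136626055, nat_lit 19227220975], nat_lit 0, nat_lit 0, nat_lit 0, nat_lit 0, nat_lit 0, nat_lit 0, [], [nat_lit 49, nat_lit 40, nat_lit 80, nat_lit 80]⟩,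
 zbF0, []⟩
noncomputable def p020_l71 : Lf2 := ⟨nat_lit 0, nat_lit 5, [nat_lit 4, nat_lit 5, nat_lit 5, nat_lit 20], false, nat_lit 0, nat_lit 0, nat_lit 0, nat_lit 0, ⟨nat_lit 1000, nat_lit 0, nat_lit 0, nat_lit 0, nat_lit 0, nat_lit 0, nat_lit 0, nat_lit 0, nat_lit 0, nat_lit 0, nat_lit 0, nat_lit 0, nat_lit 0, nat_lit 0, nat_lit 0, nat_lit 0, false, false⟩,
 nat_lit 0, nat_lit 0, nat_lit 0, nat_lit 0, nat_lit 0, nat_lit 3320, nat_lit 157, nat_lit 0, nat_lit 480, nat_lit 1400, nat_lit 0, nat_lit 0, nat_lit 0, nat_lit 0, nat_lit 0, nat_lit 0, nat_lit 0, nat_lit 0, [],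
 ⟨p020_k14, nat_lit 0, nat_lit 0, nat_lit 0, nat_lit 0, nat_lit 1335933, [nat_lit 2032000001, nat_lit 4688000000, nat_lit 6250000000], [], [nat_lit 13224762000, nat_lit 13256515925, nat_lit 13312504800, nat_lit 13345025220], nat_lit 1271250, nat_lit 1271250, nat_lit 936251, nat_lit 968401, nat_lit 0, nat_lit 0, [nat_lit 490000, nat_lit 1100000, nat_lit 1442500], [nat_lit 6, nat_lit 40, nat_lit 80, nat_lit 80]⟩, ⟨p020_k25, nat_lit 0, nat_lit 0, nat_lit 0, nat_lit 0, nat_lit 0, [nat_lit 3282000000, nat_lit 6250000000], [], [nat_lit 20565479176, nat_lit 20631989110, nat_lit 20622718618, nat_lit 20697070381], nat_lit 0, nat_lit 0, nat_lit 0, nat_lit 0, nat_lit 0, nat_lit 0, [], [nat_lit 49, nat_lit 40, nat_lit 80, nat_lit 80]⟩,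
 zbF0, [⟨nat_lit 0, nat_lit 84, nat_lit 83, nat_lit 100, nat_lit 14343086632⟩, ⟨nat_lit 0, nat_lit 84, nat_lit 83, nat_lit 100, nat_lit 14343086632⟩, ⟨nat_lit 0, nat_lit 84, nat_lit 84, nat_lit 100, nat_lit 14172335601⟩]⟩
noncomputable def p020_l72 : Lf2 := ⟨nat_lit 0, nat_lit 5, [nat_lit 4, nat_lit 5, nat_lit 5, nat_lit 20], false, nat_lit 0, nat_lit 0, nat_lit 0, nat_lit 0, ⟨nat_lit 1000, nat_lit 0, nat_lit 0, nat_lit 0, nat_lit 0, nat_lit 0, nat_lit 0, nat_lit 0, nat_lit 0, nat_lit 0, nat_lit 0, nat_lit 0, nat_lit 0, nat_lit 0, nat_lit 0, nat_lit 0, false, false⟩,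
 nat_lit 0, nat_lit 0, nat_lit 0, nat_lit 0, nat_lit 0, nat_lit 4946, nat_lit 137, nat_lit 0, nat_lit 466, nat_lit 1398, nat_lit 0, nat_lit 0, nat_lit 0, nat_lit 0, nat_lit 0, nat_lit 0, nat_lit 0, nat_lit 0, [],
 ⟨p020_k14, nat_lit 0, nat_lit 0, nat_lit 0, nat_lit 0, nat_lit 1335933, [nat_lit 2032000001, nat_lit 4688000000, nat_lit 6250000000], [], [nat_lit 14188727000, nat_lit 14215120125, nat_lit 14266152800, nat_lit 14292989380], nat_lit 1271250, nat_lit 1271250, nat_lit 936251, nat_lit 968401, nat_lit 0, nat_lit 0, [nat_lit 490000, nat_lit 1100000, nat_lit 1442500], [nat_lit 6, nat_lit 40, nat_lit 80, nat_lit 80]⟩, ⟨p020_k25, nat_lit 0, nat_lit 0, nat_lit 0, nat_lit 0, nat_lit 0, [nat_lit 3282000000, nat_lit 6250000000], [], [nat_lit 19130748861, nat_lit 19245418027, nat_lit 19143328014, nat_lit 19257026319], nat_lit 0, nat_lit 0, nat_lit 0, nat_lit 0, nat_lit 0, nat_lit 0, [], [nat_lit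 49, nat_lit 40, nat_lit 80, nat_lit 80]⟩,
 zbF0, [⟨nat_lit 0, nat_lit 84, nat_lit 84, nat_lit 100, nat_lit 5248460534⟩]⟩
noncomputable def p020_l73 : Lf2 := ⟨nat_lit 0, nat_lit 5, [nat_lit 4, nat_lit 5, nat_lit 5, nat_lit 20], false, nat_lit 0, nat_lit 0, nat_lit 0, nat_lit 0, ⟨nat_lit 1000, nat_lit 0, nat_lit 0, nat_lit 0, nat_lit 0, nat_lit 0, nat_lit 0, nat_lit 0, nat_lit 0, nat_lit 0, nat_lit 0, nat_lit 0, nat_lit 0, nat_lit 0, nat_lit 0, nat_lit 0, false, false⟩,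
 nat_lit 0, nat_lit 0, nat_lit 0, nat_lit 0, nat_lit 0, nat_lit 4934, nat_lit 136, nat_lit 0, nat_lit 452, nat_lit 1398, nat_lit 0, nat_lit 0, nat_lit 0, nat_lit 0, nat_lit 0, nat_lit 0, nat_lit 0, nat_lit 0, [],
 ⟨p020_k14, nat_lit 0, nat_lit 0, nat_lit 0, nat_lit 0, nat_lit 1335933, [nat_lit 2032000001, nat_lit 4688000000, nat_lit 6250000000], [], [nat_lit 15455889000, nat_lit 15479642775, nat_lit 15527160800, nat_lit 15551108780], nat_lit 1271250, nat_lit 1271250, nat_lit 936251, nat_lit 968401, nat_lit 0, nat_lit 0, [nat_lit 490000, nat_lit 1100000, nat_lit 1442500], [nat_lit 6, nat_lit 40, nat_lit 80, nat_lit 80]⟩, ⟨p020_k25, nat_lit 0, nat_lit 0, nat_lit 0, nat_lit 0, nat_lit 0, [nat_lit 3282000000, nat_lit 6250000000], [], [nat_lit 19114651959, nat_lit 19229064610, nat_lit 19154246026, nat_lit 19246281999], nat_lit 0, nat_lit 0, nat_lit 0, nat_lit 0, nat_lit 0, nat_lit 0, [], [nat_lit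 49, nat_lit 40, nat_lit 80, nat_lit 80]⟩,
 zbF0, [⟨nat_lit 0, nat_lit 84, nat_lit 84, nat_lit 100, nat_lit 532639318⟩]⟩
noncomputable def p020_l74 : Lf2 := ⟨nat_lit 0, nat_lit 5, [nat_lit 4, nat_lit 5, nat_lit 5, nat_lit 20], false, nat_lit 0, nat_lit 0, nat_lit 0, nat_lit 0, ⟨nat_lit 1000, nat_lit 0, nat_lit 0, nat_lit 0, nat_lit 0, nat_lit 0, nat_lit 0, nat_lit 0, nat_lit 0, nat_lit 0, nat_lit 0, nat_lit 0, nat_lit 0, nat_lit 0, nat_lit 0, nat_lit 0, false, false⟩,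
 nat_lit 0, nat_lit 8871, nat_lit 0, nat_lit 0, nat_lit 6653, nat_lit 4032, nat_lit 479, nat_lit 0, nat_lit 0, nat_lit 1425, nat_lit 0, nat_lit 0, nat_lit 0, nat_lit 0, nat_lit 0, nat_lit 0, nat_lit 0, nat_lit 0, [],
 ⟨p020_k14, nat_lit 0, nat_lit 0, nat_lit 671, nat_lit 0, nat_lit 1335933, [nat_lit 2032000001, nat_lit 4688000000, nat_lit 6250000000], [], [nat_lit 32770149586, nat_lit 32807419631, nat_lit 32756870106, nat_lit 32792013295], nat_lit 1271250, nat_lit 1271250, nat_lit 936251, nat_lit 968401, nat_lit 0, nat_lit 0, [nat_lit 490000, nat_lit 1100000, nat_lit 1442500], [nat_lit 6, nat_lit 40, nat_lit 80, nat_lit 80, nat_lit 3, nat_lit 249, nat_lit 40, nat_lit 9]⟩, ⟨p020_k26, nat_lit 0, nat_lit 0, nat_lit 0, nat_lit 0, nat_lit 0, [nat_lit 2032000000, nat_lit 3282000000, nat_lit 4688000000, nat_lit 6250000000], [], [nat_lit 18443503007, nat_lit 18523900683, nat_lit 18490230408, nat_lit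 18566454923], nat_lit 0, nat_lit 0, nat_lit 0, nat_lit 0, nat_lit 0, nat_lit 0, [], [nat_lit 127, nat_lit 40, nat_lit 80, nat_lit 80]⟩,
 zbF0, [⟨nat_lit 0, nat_lit 84, nat_lit 83, nat_lit 100, nat_lit 869217579⟩]⟩
noncomputable def p020_l75 : Lf2 := ⟨nat_lit 0, nat_lit 5, [nat_lit 4, nat_lit 5, nat_lit 5, nat_lit 20], false, nat_lit 0, nat_lit 0, nat_lit 0, nat_lit 0, ⟨nat_lit 1000, nat_lit 0, nat_lit 0, nat_lit 0, nat_lit 0, nat_lit 0, nat_lit 0, nat_lit 0, nat_lit 0, nat_lit 0, nat_lit 0, nat_lit 0, nat_lit 0, nat_lit 0, nat_lit 0, nat_lit 0, false, false⟩,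
 nat_lit 0, nat_lit 13073, nat_lit 0, nat_lit 0, nat_lit 9804, nat_lit 100000, nat_lit 481, nat_lit 0, nat_lit 0, nat_lit 18275, nat_lit 7842, nat_lit 0, nat_lit 0, nat_lit 0, nat_lit 0, nat_lit 0, nat_lit 0, nat_lit 0, [],
 ⟨p020_k14, nat_lit 0, nat_lit 0, nat_lit 671, nat_lit 0, nat_lit 1335933, [nat_lit 2032000001, nat_lit 4688000000, nat_lit 6250000000], [], [nat_lit 16981055036, nat_lit 17037075266, nat_lit 16933848948, nat_lit 16993400326], nat_lit 1271250, nat_lit 1271250, nat_lit 936251, nat_lit 968401, nat_lit 0, nat_lit 0, [nat_lit 490000, nat_lit 1100000, nat_lit 1442500], [nat_lit 6, nat_lit 40, nat_lit 80, nat_lit 80, nat_lit 3, nat_lit 249, nat_lit 40, nat_lit 9]⟩, ⟨p020_k25, nat_lit 0, nat_lit 0, nat_lit 0, nat_lit 0, nat_lit 0, [nat_lit 97386000000, nat_lit 163090000000], [], [nat_lit 123385183475, nat_lit 124609120351, nat_lit 122122276645, nat_lit 123420256700], nat_lit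 0, nat_lit 0, nat_lit 0, nat_lit 0, nat_lit 0, nat_lit 0, [], [nat_lit 49, nat_lit 40, nat_lit 80, nat_lit 80]⟩,
 zbF0, [⟨nat_lit 0, nat_lit 84, nat_lit 83, nat_lit 100, nat_lit 3069211133⟩, ⟨nat_lit 0, nat_lit 84, nat_lit 83, nat_lit 100, nat_lit 14343086632⟩, ⟨nat_lit 0, nat_lit 84, nat_lit 84, nat_lit 100, nat_lit 14172335601⟩]⟩
noncomputable def p020_l76 : Lf2 := ⟨nat_lit 3, nat_lit 5, [nat_lit 4, nat_lit 5, nat_lit 5, nat_lit 20], false, nat_lit 0, nat_lit 0, nat_lit 0, nat_lit 0, zbN0,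
 nat_lit 0, nat_lit 0, nat_lit 0, nat_lit 0, nat_lit 0, nat_lit 0, nat_lit 0, nat_lit 0, nat_lit 0, nat_lit 0, nat_lit 0, nat_lit 0, nat_lit 0, nat_lit 0, nat_lit 0, nat_lit 0, nat_lit 0, nat_lit 0, [],
 C1.Rw.none, ⟨p020_k25, nat_lit 0, nat_lit 0, nat_lit 0, nat_lit 0, nat_lit 0, [], [], [], nat_lit 0, nat_lit 0, nat_lit 0, nat_lit 0, nat_lit 0, nat_lit 0, [], [nat_lit 49, nat_lit 40, nat_lit 80, nat_lit 80]⟩,
 zbF0, []⟩
noncomputable def p020_l77 : Lf2 := ⟨nat_lit 0, nat_lit 5, [nat_lit 4, nat_lit 5, nat_lit 5, nat_lit 20], false, nat_lit 0, nat_lit 0, nat_lit 0, nat_lit 0, ⟨nat_lit 1000, nat_lit 0, nat_lit 0, nat_lit 0, nat_lit 0, nat_lit 0, nat_lit 0, nat_lit 0, nat_lit 0, nat_lit 0, nat_lit 0, nat_lit 0, nat_lit 0, nat_lit 0, nat_lit 0, nat_lit 0, false, false⟩,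
 nat_lit 0, nat_lit 8871, nat_lit 0, nat_lit 0, nat_lit 6653, nat_lit 4032, nat_lit 479, nat_lit 0, nat_lit 0, nat_lit 1425, nat_lit 0, nat_lit 0, nat_lit 0, nat_lit 0, nat_lit 0, nat_lit 0, nat_lit 0, nat_lit 0, [],
 ⟨p020_k14, nat_lit 0, nat_lit 0, nat_lit 669, nat_lit 0, nat_lit 1335933, [nat_lit 2032000001, nat_lit 4688000000, nat_lit 6250000000], [], [nat_lit 32756870106, nat_lit 32792013295, nat_lit 32743590625, nat_lit 32780922119], nat_lit 1271250, nat_lit 1271250, nat_lit 968401, nat_lit 1000851, nat_lit 0, nat_lit 0, [nat_lit 490000, nat_lit 1100000, nat_lit 1442500], [nat_lit 6, nat_lit 40, nat_lit 80, nat_lit 80, nat_lit 3, nat_lit 249, nat_lit 40, nat_lit 9]⟩, ⟨p020_k26, nat_lit 0, nat_lit 0, nat_lit 0, nat_lit 0, nat_lit 0, [nat_lit 2032000000, nat_lit 3282000000, nat_lit 4688000000, nat_lit 6250000000], [], [nat_lit 18490230408, nat_lit 18566454923, nat_lit 18539445879,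 nat_lit 18615152375], nat_lit 0, nat_lit 0, nat_lit 0, nat_lit 0, nat_lit 0, nat_lit 0, [], [nat_lit 127, nat_lit 40, nat_lit 80, nat_lit 80]⟩,
 zbF0, [⟨nat_lit 0, nat_lit 84, nat_lit 83, nat_lit 100, nat_lit 661908990⟩]⟩
noncomputable def p020_l78 : Lf2 := ⟨nat_lit 0, nat_lit 5, [nat_lit 4, nat_lit 5, nat_lit 5, nat_lit 20], false, nat_lit 0, nat_lit 0, nat_lit 0, nat_lit 0, ⟨nat_lit 1000, nat_lit 0, nat_lit 0, nat_lit 0, nat_lit 0, nat_lit 0, nat_lit 0, nat_lit 0, nat_lit 0, nat_lit 0, nat_lit 0, nat_lit 0, nat_lit 0, nat_lit 0, nat_lit 0, nat_lit 0, false, false⟩,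
 nat_lit 0, nat_lit 0, nat_lit 0, nat_lit 0, nat_lit 0, nat_lit 100000, nat_lit 0, nat_lit 0, nat_lit 0, nat_lit 18175, nat_lit 7834, nat_lit 0, nat_lit 0, nat_lit 0, nat_lit 0, nat_lit 0, nat_lit 0, nat_lit 0, [],
 ⟨p020_k14, nat_lit 0, nat_lit 0, nat_lit 669, nat_lit 0, nat_lit 1335933, [nat_lit 2032000001, nat_lit 4688000000, nat_lit 6250000000], [], [nat_lit 74667166402, nat_lit 74687840982, nat_lit 74731201802, nat_lit 74751833312], nat_lit 1271250, nat_lit 1271250, nat_lit 968401, nat_lit 1000851, nat_lit 0, nat_lit 0, [nat_lit 490000, nat_lit 1100000, nat_lit 1442500], [nat_lit 6, nat_lit 40, nat_lit 80, nat_lit 80, nat_lit 3, nat_lit 249, nat_lit 40, nat_lit 9]⟩, ⟨p020_k25, nat_lit 0, nat_lit 0, nat_lit 0, nat_lit 0, nat_lit 0, [nat_lit 97290000000, nat_lit 162930000000], [], [nat_lit 122323268865, nat_lit 123404395845, nat_lit 121193275416, nat_lit 122135393050], nat_lit 0, nat_lit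 0, nat_lit 0, nat_lit 0, nat_lit 0, nat_lit 0, [], [nat_lit 49, nat_lit 40, nat_lit 80, nat_lit 80]⟩,
 zbF0, [⟨nat_lit 13, nat_lit 100, nat_lit 1, nat_lit 100, nat_lit 49122946⟩]⟩
noncomputable def p020_l79 : Lf2 := ⟨nat_lit 3, nat_lit 5, [nat_lit 4, nat_lit 5, nat_lit 5, nat_lit 20], false, nat_lit 0, nat_lit 0, nat_lit 0, nat_lit 0, zbN0,
 nat_lit 0, nat_lit 0, nat_lit 0, nat_lit 0, nat_lit 0, nat_lit 0, nat_lit 0, nat_lit 0, nat_lit 0, nat_lit 0, nat_lit 0, nat_lit 0, nat_lit 0, nat_lit 0, nat_lit 0, nat_lit 0, nat_lit 0, nat_lit 0, [],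
 C1.Rw.none, ⟨p020_k25, nat_lit 0, nat_lit 0, nat_lit 0, nat_lit 0, nat_lit 0, [], [], [], nat_lit 0, nat_lit 0, nat_lit 0, nat_lit 0, nat_lit 0, nat_lit 0, [], [nat_lit 49, nat_lit 40, nat_lit 80, nat_lit 80]⟩,
 zbF0, []⟩
noncomputable def p020_l80 : Lf2 := ⟨nat_lit 0, nat_lit 5, [nat_lit 4, nat_lit 5, nat_lit 5, nat_lit 20], false, nat_lit 0, nat_lit 0, nat_lit 0, nat_lit 0, ⟨nat_lit 1000, nat_lit 0, nat_lit 0, nat_lit 0, nat_lit 0, nat_lit 0, nat_lit 0, nat_lit 0, nat_lit 0, nat_lit 0, nat_lit 0, nat_lit 0, nat_lit 0, nat_lit 0, nat_lit 0, nat_lit 0, false, false⟩,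
 nat_lit 0, nat_lit 8867, nat_lit 0, nat_lit 0, nat_lit 6650, nat_lit 4953, nat_lit 478, nat_lit 0, nat_lit 0, nat_lit 1391, nat_lit 0, nat_lit 0, nat_lit 0, nat_lit 0, nat_lit 0, nat_lit 0, nat_lit 0, nat_lit 0, [],
 ⟨p020_k14, nat_lit 0, nat_lit 0, nat_lit 668, nat_lit 0, nat_lit 1335933, [nat_lit 2032000001, nat_lit 4688000000, nat_lit 6250000000], [], [nat_lit 32761505122, nat_lit 32796434890, nat_lit 32748261083, nat_lit 32785214944], nat_lit 1271250, nat_lit 1271250, nat_lit 1000851, nat_lit 1033601, nat_lit 0, nat_lit 0, [nat_lit 490000, nat_lit 1100000, nat_lit 1442500], [nat_lit 6, nat_lit 40, nat_lit 80, nat_lit 80, nat_lit 3, nat_lit 249, nat_lit 40, nat_lit 9]⟩, ⟨p020_k25, nat_lit 0, nat_lit 0, nat_lit 0, nat_lit 0, nat_lit 0, [nat_lit 3282000000, nat_lit 6250000000], [], [nat_lit 19198524931, nat_lit 19278180505, nat_lit 19236388858, nat_lit 19326709919], nat_lit 0, nat_lit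 0, nat_lit 0, nat_lit 0, nat_lit 0, nat_lit 0, [], [nat_lit 49, nat_lit 40, nat_lit 80, nat_lit 80]⟩,
 zbF0, []⟩
noncomputable def p020_l81 : Lf2 := ⟨nat_lit 0, nat_lit 5, [nat_lit 4, nat_lit 5, nat_lit 5, nat_lit 20], false, nat_lit 0, nat_lit 0, nat_lit 0, nat_lit 0, ⟨nat_lit 1000, nat_lit 0, nat_lit 0, nat_lit 0, nat_lit 0, nat_lit 0, nat_lit 0, nat_lit 0, nat_lit 0, nat_lit 0, nat_lit 0, nat_lit 0, nat_lit 0, nat_lit 0, nat_lit 0, nat_lit 0, false, false⟩,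
 nat_lit 0, nat_lit 0, nat_lit 0, nat_lit 0, nat_lit 0, nat_lit 4969, nat_lit 177, nat_lit 0, nat_lit 497, nat_lit 1352, nat_lit 0, nat_lit 0, nat_lit 0, nat_lit 0, nat_lit 0, nat_lit 0, nat_lit 0, nat_lit 0, [],
 ⟨p020_k14, nat_lit 0, nat_lit 0, nat_lit 0, nat_lit 0, nat_lit 1344739, [nat_lit 2032000001, nat_lit 4688000000, nat_lit 6250000000], [], [nat_lit 12570360000, nat_lit 12609162600, nat_lit 12858921600, nat_lit 12897525410], nat_lit 1271250, nat_lit 1271250, nat_lit 936251, nat_lit 1033601, nat_lit 0, nat_lit 0, [nat_lit 490000, nat_lit 1100000, nat_lit 1442500], [nat_lit 6, nat_lit 40, nat_lit 80, nat_lit 80]⟩, ⟨p020_k27, nat_lit 0, nat_lit 0, nat_lit 0, nat_lit 0, nat_lit 0, [nat_lit 3282000000, nat_lit 6250000000], [], [nat_lit 19276762075, nat_lit 19391759388, nat_lit 19312007918, nat_lit 19423401495], nat_lit 0, nat_lit 0, nat_lit 0, nat_lit 0, nat_lit 0, nat_lit 0, [], [nat_lit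 49, nat_lit 40, nat_lit 80, nat_lit 80]⟩,
 zbF0, [⟨nat_lit 0, nat_lit 84, nat_lit 83, nat_lit 100, nat_lit 12477566260⟩]⟩
noncomputable def p020_l82 : Lf2 := ⟨nat_lit 0, nat_lit 5, [nat_lit 4, nat_lit 5, nat_lit 5, nat_lit 20], false, nat_lit 0, nat_lit 0, nat_lit 0, nat_lit 0, ⟨nat_lit 1000, nat_lit 0, nat_lit 0, nat_lit 0, nat_lit 0, nat_lit 0, nat_lit 0, nat_lit 0, nat_lit 0, nat_lit 0, nat_lit 0, nat_lit 0, nat_lit 0, nat_lit 0, nat_lit 0, nat_lit 0, false, false⟩,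
 nat_lit 0, nat_lit 0, nat_lit 0, nat_lit 0, nat_lit 0, nat_lit 3185, nat_lit 131, nat_lit 0, nat_lit 457, nat_lit 1362, nat_lit 0, nat_lit 0, nat_lit 0, nat_lit 0, nat_lit 0, nat_lit 0, nat_lit 0, nat_lit 0, [],
 ⟨p020_k14, nat_lit 0, nat_lit 0, nat_lit 0, nat_lit 0, nat_lit 1344739, [nat_lit 2032000001, nat_lit 4688000000, nat_lit 6250000000], [], [nat_lit 14975638000, nat_lit 14999642775, nat_lit 15197090000, nat_lit 15223028030], nat_lit 1271250, nat_lit 1271250, nat_lit 936251, nat_lit 1033601, nat_lit 0, nat_lit 0, [nat_lit 490000, nat_lit 1100000, nat_lit 1442500], [nat_lit 6, nat_lit 40, nat_lit 80, nat_lit 80]⟩, ⟨p020_k27, nat_lit 0, nat_lit 0, nat_lit 0, nat_lit 0, nat_lit 0, [nat_lit 3282000000, nat_lit 6250000000], [], [nat_lit 20757352325, nat_lit 20825267525, nat_lit 20951281061, nat_lit 21023339307], nat_lit 0, nat_lit 0, nat_lit 0, nat_lit 0, nat_lit 0, nat_lit 0, [], [nat_lit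 49, nat_lit 40, nat_lit 80, nat_lit 80]⟩,
 zbF0, []⟩
noncomputable def p020_l83 : Lf2 := ⟨nat_lit 0, nat_lit 5, [nat_lit 4, nat_lit 5, nat_lit 5, nat_lit 20], false, nat_lit 0, nat_lit 0, nat_lit 0, nat_lit 0, ⟨nat_lit 1000, nat_lit 0, nat_lit 0, nat_lit 0, nat_lit 0, nat_lit 0, nat_lit 0, nat_lit 0, nat_lit 0, nat_lit 0, nat_lit 0, nat_lit 0, nat_lit 0, nat_lit 0, nat_lit 0, nat_lit 0, false, false⟩,
 nat_lit 0, nat_lit 0, nat_lit 0, nat_lit 0, nat_lit 0, nat_lit 4935, nat_lit 136, nat_lit 0, nat_lit 452, nat_lit 1352, nat_lit 0, nat_lit 0, nat_lit 0, nat_lit 0, nat_lit 0, nat_lit 0, nat_lit 0, nat_lit 0, [],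
 ⟨p020_k14, nat_lit 0, nat_lit 0, nat_lit 0, nat_lit 0, nat_lit 1344739, [nat_lit 2032000001, nat_lit 4688000000, nat_lit 6250000000], [], [nat_lit 15455889000, nat_lit 15479642775, nat_lit 15672599600, nat_lit 15697074390], nat_lit 1271250, nat_lit 1271250, nat_lit 936251, nat_lit 1033601, nat_lit 0, nat_lit 0, [nat_lit 490000, nat_lit 1100000, nat_lit 1442500], [nat_lit 6, nat_lit 40, nat_lit 80, nat_lit 80]⟩, ⟨p020_k27, nat_lit 0, nat_lit 0, nat_lit 0, nat_lit 0, nat_lit 0, [nat_lit 3282000000, nat_lit 6250000000], [], [nat_lit 19230427395, nat_lit 19344939620, nat_lit 19343249671, nat_lit 19434177607], nat_lit 0, nat_lit 0, nat_lit 0, nat_lit 0, nat_lit 0, nat_lit 0, [], [nat_lit 49, nat_lit 40, nat_lit 80, nat_lit 80]⟩,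
 zbF0, [⟨nat_lit 0, nat_lit 84, nat_lit 83, nat_lit 100, nat_lit 535248720⟩]⟩
noncomputable def p020_l84 : Lf2 := ⟨nat_lit 0, nat_lit 5, [nat_lit 4, nat_lit 5, nat_lit 5, nat_lit 20], false, nat_lit 0, nat_lit 0, nat_lit 0, nat_lit 0, ⟨nat_lit 1000, nat_lit 0, nat_lit 0, nat_lit 0, nat_lit 0, nat_lit 0, nat_lit 0, nat_lit 0, nat_lit 0, nat_lit 0, nat_lit 0, nat_lit 0, nat_lit 0, nat_lit 0, nat_lit 0, nat_lit 0, false, false⟩,
 nat_lit 0, nat_lit 8864, nat_lit 0, nat_lit 0, nat_lit 6647, nat_lit 4018, nat_lit 478, nat_lit 0, nat_lit 0, nat_lit 1398, nat_lit 0, nat_lit 0, nat_lit 0, nat_lit 0, nat_lit 0, nat_lit 0, nat_lit 0, nat_lit 0, [],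
 ⟨p020_k14, nat_lit 0, nat_lit 0, nat_lit 674, nat_lit 0, nat_lit 1344739, [nat_lit 2032000001, nat_lit 4688000000, nat_lit 6250000000], [], [nat_lit 32805836818, nat_lit 32841794952, nat_lit 32766211021, nat_lit 32800927512], nat_lit 1271250, nat_lit 1271250, nat_lit 936251, nat_lit 1033601, nat_lit 0, nat_lit 0, [nat_lit 490000, nat_lit 1100000, nat_lit 1442500], [nat_lit 6, nat_lit 40, nat_lit 80, nat_lit 80, nat_lit 3, nat_lit 249, nat_lit 40, nat_lit 9]⟩, ⟨p020_k28, nat_lit 0, nat_lit 0, nat_lit 0, nat_lit 0, nat_lit 0, [nat_lit 2032000000, nat_lit 3282000000, nat_lit 4688000000, nat_lit 6250000000], [], [nat_lit 18531617895, nat_lit 18607985476, nat_lit 18678446312, nat_lit 18753044973], nat_lit 0, nat_lit 0, nat_lit 0, nat_lit 0, nat_lit 0, nat_lit 0, [], [nat_lit 127, nat_lit 40, nat_lit 80, nat_lit 80]⟩,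
 zbF0, [⟨nat_lit 0, nat_lit 83, nat_lit 83, nat_lit 100, nat_lit 674436132⟩]⟩
noncomputable def p020_l85 : Lf2 := ⟨nat_lit 0, nat_lit 5, [nat_lit 4, nat_lit 5, nat_lit 5, nat_lit 20], false, nat_lit 0, nat_lit 0, nat_lit 0, nat_lit 0, ⟨nat_lit 1000, nat_lit 0, nat_lit 0, nat_lit 0, nat_lit 0, nat_lit 0, nat_lit 0, nat_lit 0, nat_lit 0, nat_lit 0, nat_lit 0, nat_lit 0, nat_lit 0, nat_lit 0, nat_lit 0, nat_lit 0, false, false⟩,
 nat_lit 0, nat_lit 0, nat_lit 0, nat_lit 0, nat_lit 0, nat_lit 100000, nat_lit 0, nat_lit 0, nat_lit 0, nat_lit 17651, nat_lit 7818, nat_lit 0, nat_lit 0, nat_lit 0, nat_lit 0, nat_lit 0, nat_lit 0, nat_lit 0, [],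
 ⟨p020_k14, nat_lit 0, nat_lit 0, nat_lit 674, nat_lit 0, nat_lit 1344739, [nat_lit 2032000001, nat_lit 4688000000, nat_lit 6250000000], [], [nat_lit 74603131002, nat_lit 74623848652, nat_lit 74795237202, nat_lit 74815825642], nat_lit 1271250, nat_lit 1271250, nat_lit 936251, nat_lit 1033601, nat_lit 0, nat_lit 0, [nat_lit 490000, nat_lit 1100000, nat_lit 1442500], [nat_lit 6, nat_lit 40, nat_lit 80, nat_lit 80, nat_lit 3, nat_lit 249, nat_lit 40, nat_lit 9]⟩, ⟨p020_k27, nat_lit 0, nat_lit 0, nat_lit 0, nat_lit 0, nat_lit 0, [nat_lit 97098000000, nat_lit 162610000000], [], [nat_lit 124540807675, nat_lit 125630222500, nat_lit 120757637730, nat_lit 122033791600], nat_lit 0, nat_lit 0, nat_lit 0, nat_lit 0, nat_lit 0, nat_lit 0, [], [nat_lit 49, nat_lit 40, nat_lit 80, nat_lit 80]⟩,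
 zbF0, [⟨nat_lit 13, nat_lit 100, nat_lit 1, nat_lit 100, nat_lit 14188261⟩]⟩
noncomputable def p020_l86 : Lf2 := ⟨nat_lit 3, nat_lit 5, [nat_lit 4, nat_lit 5, nat_lit 5, nat_lit 20], false, nat_lit 0, nat_lit 0, nat_lit 0, nat_lit 0, zbN0,
 nat_lit 0, nat_lit 0, nat_lit 0, nat_lit 0, nat_lit 0, nat_lit 0, nat_lit 0, nat_lit 0, nat_lit 0, nat_lit 0, nat_lit 0, nat_lit 0, nat_lit 0, nat_lit 0, nat_lit 0, nat_lit 0, nat_lit 0, nat_lit 0, [],
 C1.Rw.none, ⟨p020_k27, nat_lit 0, nat_lit 0, nat_lit 0, nat_lit 0, nat_lit 0, [], [], [], nat_lit 0, nat_lit 0, nat_lit 0, nat_lit 0, nat_lit 0, nat_lit 0, [], [nat_lit 49, nat_lit 40, nat_lit 80, nat_lit 80]⟩,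
 zbF0, []⟩
noncomputable def p020_l87 : Lf2 := ⟨nat_lit 0, nat_lit 5, [nat_lit 4, nat_lit 5, nat_lit 5, nat_lit 20], false, nat_lit 0, nat_lit 0, nat_lit 0, nat_lit 0, ⟨nat_lit 1000, nat_lit 0, nat_lit 0, nat_lit 0, nat_lit 0, nat_lit 0, nat_lit 0, nat_lit 0, nat_lit 0, nat_lit 0, nat_lit 0, nat_lit 0, nat_lit 0, nat_lit 0, nat_lit 0, nat_lit 0, false, false⟩,
 nat_lit 0, nat_lit 8821, nat_lit 0, nat_lit 0, nat_lit 6641, nat_lit 4933, nat_lit 482, nat_lit 0, nat_lit 0, nat_lit 1514, nat_lit 0, nat_lit 0, nat_lit 0, nat_lit 0, nat_lit 0, nat_lit 0, nat_lit 0, nat_lit 0, [],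
 ⟨p020_k29, nat_lit 0, nat_lit 0, nat_lit 669, nat_lit 0, nat_lit 1326936, [nat_lit 2032000001, nat_lit 4688000000, nat_lit 6250000000], [], [nat_lit 32542249774, nat_lit 32577781530, nat_lit 32488871318, nat_lit 32523575488], nat_lit 1271250, nat_lit 1271250, nat_lit 904401, nat_lit 1033601, nat_lit 0, nat_lit 0, [nat_lit 490000, nat_lit 1100000, nat_lit 1442500], [nat_lit 6, nat_lit 40, nat_lit 80, nat_lit 80, nat_lit 3, nat_lit 249, nat_lit 40, nat_lit 9]⟩, ⟨p020_k20, nat_lit 0, nat_lit 0, nat_lit 0, nat_lit 0, nat_lit 0, [nat_lit 3282000000, nat_lit 6250000000], [], [nat_lit 18860057041, nat_lit 19102790751, nat_lit 19018156957, nat_lit 19255149110], nat_lit 0, nat_lit 0, nat_lit 0, nat_lit 0, nat_lit 0, nat_lit 0, [], [nat_lit 49, nat_lit 40, nat_lit 80, nat_lit 80]⟩,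
 zbF0, [⟨nat_lit 0, nat_lit 84, nat_lit 83, nat_lit 100, nat_lit 687842618⟩]⟩
noncomputable def p020_l88 : Lf2 := ⟨nat_lit 0, nat_lit 5, [nat_lit 4, nat_lit 5, nat_lit 5, nat_lit 20], false, nat_lit 0, nat_lit 0, nat_lit 0, nat_lit 0, ⟨nat_lit 1000, nat_lit 0, nat_lit 0, nat_lit 0, nat_lit 0, nat_lit 0, nat_lit 0, nat_lit 0, nat_lit 0, nat_lit 0, nat_lit 0, nat_lit 0, nat_lit 0, nat_lit 0, nat_lit 0, nat_lit 0, false, false⟩,
 nat_lit 0, nat_lit 8821, nat_lit 0, nat_lit 0, nat_lit 6641, nat_lit 4925, nat_lit 481, nat_lit 0, nat_lit 0, nat_lit 1385, nat_lit 0, nat_lit 0, nat_lit 0, nat_lit 0, nat_lit 0, nat_lit 0, nat_lit 0, nat_lit 0, [],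
 ⟨p020_k29, nat_lit 0, nat_lit 0, nat_lit 674, nat_lit 0, nat_lit 1344373, [nat_lit 2032000001, nat_lit 4688000000, nat_lit 6250000000], [], [nat_lit 32529627035, nat_lit 32564951895, nat_lit 32489593193, nat_lit 32524297363], nat_lit 1271250, nat_lit 1271250, nat_lit 936251, nat_lit 1033601, nat_lit 0, nat_lit 0, [nat_lit 490000, nat_lit 1100000, nat_lit 1442500], [nat_lit 6, nat_lit 40, nat_lit 80, nat_lit 80, nat_lit 3, nat_lit 249, nat_lit 40, nat_lit 9]⟩, ⟨p020_k25, nat_lit 0, nat_lit 0, nat_lit 0, nat_lit 0, nat_lit 0, [nat_lit 3282000000, nat_lit 6250000000], [], [nat_lit 19169785522, nat_lit 19331169100, nat_lit 19284325086, nat_lit 19443258531], nat_lit 0, nat_lit 0, nat_lit 0, nat_lit 0, nat_lit 0, nat_lit 0, [], [nat_lit 49, nat_lit 40, nat_lit 80, nat_lit 80]⟩,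
 zbF0, [⟨nat_lit 0, nat_lit 83, nat_lit 82, nat_lit 100, nat_lit 702385807⟩]⟩
noncomputable def p020_l89 : Lf2 := ⟨nat_lit 0, nat_lit 5, [nat_lit 4, nat_lit 5, nat_lit 5, nat_lit 20], false, nat_lit 0, nat_lit 0, nat_lit 0, nat_lit 0, ⟨nat_lit 1000, nat_lit 0, nat_lit 0, nat_lit 0, nat_lit 0, nat_lit 0, nat_lit 0, nat_lit 0, nat_lit 0, nat_lit 0, nat_lit 0, nat_lit 0, nat_lit 0, nat_lit 0, nat_lit 0, nat_lit 0, false, false⟩,
 nat_lit 0, nat_lit 8864, nat_lit 0, nat_lit 0, nat_lit 6647, nat_lit 4959, nat_lit 477, nat_lit 0, nat_lit 0, nat_lit 1507, nat_lit 0, nat_lit 0, nat_lit 0, nat_lit 0, nat_lit 0, nat_lit 0, nat_lit 0, nat_lit 0, [],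
 ⟨p020_k14, nat_lit 0, nat_lit 0, nat_lit 670, nat_lit 0, nat_lit 1344739, [nat_lit 2032000001, nat_lit 4688000000, nat_lit 6250000000], [], [nat_lit 32766211021, nat_lit 32800927512, nat_lit 32739793822, nat_lit 32778820655], nat_lit 1271250, nat_lit 1271250, nat_lit 1033601, nat_lit 1100001, nat_lit 0, nat_lit 0, [nat_lit 490000, nat_lit 1100000, nat_lit 1442500], [nat_lit 6, nat_lit 40, nat_lit 80, nat_lit 80, nat_lit 3, nat_lit 249, nat_lit 40, nat_lit 9]⟩, ⟨p020_k20, nat_lit 0, nat_lit 0, nat_lit 0, nat_lit 0, nat_lit 0, [nat_lit 3282000000, nat_lit 6250000000], [], [nat_lit 19016346894, nat_lit 19412492438, nat_lit 19094821647, nat_lit 19508646824], nat_lit 0, nat_lit 0, nat_lit 0, nat_lit 0, nat_lit 0, nat_lit 0, [], [nat_lit 49, nat_lit 40, nat_lit 80, nat_lit 80]⟩,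
 zbF0, []⟩
noncomputable def p020_l90 : Lf2 := ⟨nat_lit 0, nat_lit 5, [nat_lit 4, nat_lit 5, nat_lit 5, nat_lit 20], false, nat_lit 0, nat_lit 0, nat_lit 0, nat_lit 0, ⟨nat_lit 1000, nat_lit 0, nat_lit 0, nat_lit 0, nat_lit 0, nat_lit 0, nat_lit 0, nat_lit 0, nat_lit 0, nat_lit 0, nat_lit 0, nat_lit 0, nat_lit 0, nat_lit 0, nat_lit 0, nat_lit 0, false, false⟩,
 nat_lit 0, nat_lit 8821, nat_lit 0, nat_lit 0, nat_lit 6641, nat_lit 4959, nat_lit 480, nat_lit 0, nat_lit 0, nat_lit 1507, nat_lit 0, nat_lit 0, nat_lit 0, nat_lit 0, nat_lit 0, nat_lit 0, nat_lit 0, nat_lit 0, [],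
 ⟨p020_k29, nat_lit 0, nat_lit 0, nat_lit 670, nat_lit 0, nat_lit 1344373, [nat_lit 2032000001, nat_lit 4688000000, nat_lit 6250000000], [], [nat_lit 32490315068, nat_lit 32525019238, nat_lit 32463625839, nat_lit 32502665062], nat_lit 1271250, nat_lit 1271250, nat_lit 1033601, nat_lit 1100001, nat_lit 0, nat_lit 0, [nat_lit 490000, nat_lit 1100000, nat_lit 1442500], [nat_lit 6, nat_lit 40, nat_lit 80, nat_lit 80, nat_lit 3, nat_lit 249, nat_lit 40, nat_lit 9]⟩, ⟨p020_k20, nat_lit 0, nat_lit 0, nat_lit 0, nat_lit 0, nat_lit 0, [nat_lit 3282000000, nat_lit 6250000000], [], [nat_lit 19016346894, nat_lit 19412492438, nat_lit 19094821647, nat_lit 19508646824], nat_lit 0, nat_lit 0, nat_lit 0, nat_lit 0, nat_lit 0, nat_lit 0, [], [nat_lit 49, nat_lit 40, nat_lit 80, nat_lit 80]⟩,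
 zbF0, []⟩
noncomputable def p020_l91 : Lf2 := ⟨nat_lit 0, nat_lit 5, [nat_lit 4, nat_lit 5, nat_lit 5, nat_lit 20], false, nat_lit 0, nat_lit 0, nat_lit 0, nat_lit 0, ⟨nat_lit 1000, nat_lit 0, nat_lit 0, nat_lit 0, nat_lit 0, nat_lit 0, nat_lit 0, nat_lit 0, nat_lit 0, nat_lit 0, nat_lit 0, nat_lit 0, nat_lit 0, nat_lit 0, nat_lit 0, nat_lit 0, false, false⟩,
 nat_lit 0, nat_lit 8789, nat_lit 0, nat_lit 0, nat_lit 6643, nat_lit 4935, nat_lit 1513, nat_lit 0, nat_lit 0, nat_lit 1500, nat_lit 0, nat_lit 0, nat_lit 0, nat_lit 0, nat_lit 0, nat_lit 0, nat_lit 0, nat_lit 0, [],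
 ⟨p020_k19, nat_lit 0, nat_lit 0, nat_lit 592, nat_lit 0, nat_lit 1343996, [nat_lit 2032000001, nat_lit 4688000000], [], [nat_lit 30285633407, nat_lit 30320962520, nat_lit 30224387163, nat_lit 30264346711], nat_lit 1271250, nat_lit 1271250, nat_lit 936251, nat_lit 1100001, nat_lit 0, nat_lit 0, [nat_lit 490000, nat_lit 1100000], [nat_lit 24, nat_lit 40, nat_lit 80, nat_lit 80, nat_lit 33, nat_lit 249, nat_lit 40, nat_lit 11]⟩, ⟨p020_k20, nat_lit 0, nat_lit 0, nat_lit 0, nat_lit 0, nat_lit 0, [nat_lit 3282000000, nat_lit 6250000000], [], [nat_lit 18944226702, nat_lit 19346481910, nat_lit 19141740980, nat_lit 19532030920], nat_lit 0, nat_lit 0, nat_lit 0, nat_lit 0, nat_lit 0, nat_lit 0, [], [nat_lit 49, nat_lit 40, nat_lit 80, nat_lit 80]⟩,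
 zbF0, [⟨nat_lit 0, nat_lit 83, nat_lit 82, nat_lit 100, nat_lit 693589308⟩]⟩
noncomputable def b_N_800_700_0_10 : St := ⟨false, nat_lit 1, nat_lit 0, nat_lit 1, nat_lit 40, nat_lit 320, nat_lit 323, nat_lit 315, nat_lit 320, nat_lit 132, nat_lit 160, nat_lit 0, nat_lit 0, nat_lit 0, nat_lit 0, nat_lit 0, nat_lit 0, nat_lit 16, nat_lit 20, nat_lit 0, nat_lit 0, nat_lit 0, nat_lit 800⟩
theorem d_N_800_700_0_10 (h : EB TB.env) : Dead b_N_800_700_0_10 := chkB_sound0 h (T :=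
(.trZ (nat_lit 0) (nat_lit 86) (nat_lit 84) (nat_lit 100) (nat_lit 136) (.spl (nat_lit 0) (nat_lit 322)
(.spl (nat_lit 2) (nat_lit 152)
(.spl (nat_lit 0) (nat_lit 321)
(.spl (nat_lit 1) (nat_lit 318)
(.spl (nat_lit 1) (nat_lit 317)
(.spl (nat_lit 1) (nat_lit 316)
(.leaf p020_l49)
(.spl (nat_lit 2) (nat_lit 140)
(.leaf p020_l50)
(.spl (nat_lit 2) (nat_lit 144)
(.spl (nat_lit 7) (nat_lit 600)
(.leaf p020_l51)
(.spl (nat_lit 7) (nat_lit 900)
(.leaf p020_l52)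
(.spl (nat_lit 7) (nat_lit 1060)
(.leaf p020_l53)
(.spl (nat_lit 8) (nat_lit 400)
(.spl (nat_lit 8) (nat_lit 200)
(.leaf p020_l54)
(.leaf p020_l55))
(.leaf p020_l56)))))
(.leaf p020_l57))))
(.trZ (nat_lit 0) (nat_lit 85) (nat_lit 84) (nat_lit 100) (nat_lit 140) (.spl (nat_lit 2) (nat_lit 144)
(.spl (nat_lit 7) (nat_lit 600)
(.leaf p020_l58)
(.spl (nat_lit 7) (nat_lit 900)
(.leaf p020_l59)
(.spl (nat_lit 7) (nat_lit 1060)
(.leaf p020_l60)
(.spl (nat_lit 8) (nat_lit 400)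
(.spl (nat_lit 8) (nat_lit 200)
(.leaf p020_l61)
(.leaf p020_l62))
(.leaf p020_l63)))))
(.spl (nat_lit 2) (nat_lit 148)
(.spl (nat_lit 7) (nat_lit 600)
(.leaf p020_l64)
(.spl (nat_lit 7) (nat_lit 900)
(.leaf p020_l65)
(.spl (nat_lit 7) (nat_lit 1060)
(.leaf p020_l66)
(.spl (nat_lit 8) (nat_lit 400)
(.spl (nat_lit 8) (nat_lit 200)
(.leaf p020_l67)
(.leaf p020_l68))
(.leaf p020_l69)))))
(.leaf p020_l70)))))
(.trZ (nat_lit 0) (nat_lit 84) (nat_lit 84) (nat_lit 100) (nat_lit 140) (.spl (nat_lit 1) (nat_lit 319)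
(.spl (nat_lit 2) (nat_lit 144)
(.spl (nat_lit 7) (nat_lit 600)
(.leaf p020_l71)
(.spl (nat_lit 7) (nat_lit 900)
(.leaf p020_l72)
(.spl (nat_lit 7) (nat_lit 1060)
(.leaf p020_l73)
(.spl (nat_lit 8) (nat_lit 400)
(.spl (nat_lit 8) (nat_lit 200)
(.leaf p020_l74)
(.leaf p020_l75))
(.leaf p020_l76)))))
(.spl (nat_lit 2) (nat_lit 148)
(.spl (nat_lit 8) (nat_lit 400)
(.spl (nat_lit 8) (nat_lit 200)
(.leaf p020_l77)
(.leaf p020_l78))
(.leaf p020_l79))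
(.leaf p020_l80)))
(.spl (nat_lit 7) (nat_lit 600)
(.leaf p020_l81)
(.spl (nat_lit 7) (nat_lit 900)
(.leaf p020_l82)
(.spl (nat_lit 7) (nat_lit 1060)
(.leaf p020_l83)
(.spl (nat_lit 8) (nat_lit 400)
(.spl (nat_lit 8) (nat_lit 200)
(.leaf p020_l84)
(.leaf p020_l85))
(.leaf p020_l86))))))))
(.spl (nat_lit 1) (nat_lit 318)
(.leaf p020_l87)
(.trZ (nat_lit 0) (nat_lit 84) (nat_lit 83) (nat_lit 100) (nat_lit 140) (.leaf p020_l88))))
(.spl (nat_lit 0) (nat_lit 321)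
(.leaf p020_l89)
(.leaf p020_l90)))
(.trZ (nat_lit 0) (nat_lit 86) (nat_lit 83) (nat_lit 100) (nat_lit 140) (.leaf p020_l91))))) (by decide +kernel)
noncomputable def p020_l92 : Lf2 := ⟨nat_lit 0, nat_lit 2, [nat_lit 10, nat_lit 5, nat_lit 5, nat_lit 20], false, nat_lit 0, nat_lit 0, nat_lit 0, nat_lit 0, ⟨nat_lit 1000, nat_lit 0, nat_lit 0, nat_lit 0, nat_lit 0, nat_lit 0, nat_lit 0, nat_lit 0, nat_lit 0, nat_lit 0, nat_lit 0, nat_lit 0, nat_lit 0, nat_lit 0, nat_lit 0, nat_lit 0, false, false⟩,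
 nat_lit 0, nat_lit 11359, nat_lit 0, nat_lit 0, nat_lit 8519, nat_lit 5063, nat_lit 0, nat_lit 0, nat_lit 0, nat_lit 1540, nat_lit 0, nat_lit 0, nat_lit 0, nat_lit 0, nat_lit 0, nat_lit 0, nat_lit 0, nat_lit 0, [],
 ⟨p020_k30, nat_lit 0, nat_lit 0, nat_lit 621, nat_lit 0, nat_lit 1417915, [nat_lit 2032000001, nat_lit 4688000000], [], [nat_lit 24149204840, nat_lit 24185689597, nat_lit 26070646876, nat_lit 26230663213], nat_lit 1271250, nat_lit 1271250, nat_lit 1100001, nat_lit 1442500, nat_lit 0, nat_lit 0, [nat_lit 490000, nat_lit 1100000], [nat_lit 24, nat_lit 40, nat_lit 80, nat_lit 80, nat_lit 33, nat_lit 221, nat_lit 0, nat_lit 10]⟩, ⟨p020_k31, nat_lit 0, nat_lit 0, nat_lit 0, nat_lit 0, nat_lit 0, [nat_lit 3282000000, nat_lit 4688000000], [], [nat_lit 18517492649, nat_lit 18773939476, nat_lit 20256819958, nat_lit 20568935726], nat_lit 0, nat_lit 0, nat_lit 0, nat_lit 0, nat_lit 0,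 nat_lit 0, [], [nat_lit 40, nat_lit 40, nat_lit 80, nat_lit 80]⟩,
 zbF0, []⟩
noncomputable def p020_l93 : Lf2 := ⟨nat_lit 0, nat_lit 2, [nat_lit 10, nat_lit 5, nat_lit 5, nat_lit 20], false, nat_lit 0, nat_lit 0, nat_lit 0, nat_lit 0, ⟨nat_lit 1000, nat_lit 0, nat_lit 0, nat_lit 0, nat_lit 0, nat_lit 0, nat_lit 0, nat_lit 0, nat_lit 0, nat_lit 0, nat_lit 0, nat_lit 0, nat_lit 0, nat_lit 0, nat_lit 0, nat_lit 0, false, false⟩,
 nat_lit 0, nat_lit 0, nat_lit 0, nat_lit 0, nat_lit 0, nat_lit 0, nat_lit 0, nat_lit 0, nat_lit 494, nat_lit 19125, nat_lit 0, nat_lit 0, nat_lit 0, nat_lit 0, nat_lit 0, nat_lit 0, nat_lit 0, nat_lit 0, [],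
 ⟨p020_k30, nat_lit 0, nat_lit 0, nat_lit 0, nat_lit 0, nat_lit 1426542, [nat_lit 2032000001, nat_lit 4688000000], [], [nat_lit 13106028000, nat_lit 13142673400, nat_lit 13219442000, nat_lit 13259003275], nat_lit 1271250, nat_lit 1271250, nat_lit 1100001, nat_lit 1133651, nat_lit 0, nat_lit 0, [nat_lit 490000, nat_lit 1100000], [nat_lit 24, nat_lit 40, nat_lit 80, nat_lit 80]⟩, ⟨p020_k32, nat_lit 0, nat_lit 0, nat_lit 0, nat_lit 0, nat_lit 0, [nat_lit 3282000000, nat_lit 4688000000], [], [nat_lit 23849719500, nat_lit 23887175000, nat_lit 23964462835, nat_lit 24001769430], nat_lit 0, nat_lit 0, nat_lit 0, nat_lit 0, nat_lit 0, nat_lit 0, [], [nat_lit 40, nat_lit 40, nat_lit 80, nat_lit 80]⟩,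
 zbF0, []⟩
noncomputable def p020_l94 : Lf2 := ⟨nat_lit 0, nat_lit 2, [nat_lit 10, nat_lit 5, nat_lit 5, nat_lit 20], false, nat_lit 0, nat_lit 0, nat_lit 0, nat_lit 0, ⟨nat_lit 1000, nat_lit 0, nat_lit 0, nat_lit 0, nat_lit 0, nat_lit 0, nat_lit 0, nat_lit 0, nat_lit 0, nat_lit 0, nat_lit 0, nat_lit 0, nat_lit 0, nat_lit 0, nat_lit 0, nat_lit 0, false, false⟩,
 nat_lit 0, nat_lit 0, nat_lit 0, nat_lit 0, nat_lit 0, nat_lit 0, nat_lit 0, nat_lit 0, nat_lit 469, nat_lit 1865, nat_lit 0, nat_lit 0, nat_lit 0, nat_lit 0, nat_lit 0, nat_lit 0, nat_lit 0, nat_lit 0, [],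
 ⟨p020_k30, nat_lit 0, nat_lit 0, nat_lit 0, nat_lit 0, nat_lit 1426542, [nat_lit 2032000001, nat_lit 4688000000], [], [nat_lit 14341444000, nat_lit 14370563600, nat_lit 14433798000, nat_lit 14462827045], nat_lit 1271250, nat_lit 1271250, nat_lit 1100001, nat_lit 1133651, nat_lit 0, nat_lit 0, [nat_lit 490000, nat_lit 1100000], [nat_lit 24, nat_lit 40, nat_lit 80, nat_lit 80]⟩, ⟨p020_k32, nat_lit 0, nat_lit 0, nat_lit 0, nat_lit 0, nat_lit 0, [nat_lit 3282000000, nat_lit 4688000000], [], [nat_lit 23849719500, nat_lit 23887175000, nat_lit 23964462835, nat_lit 24001769430], nat_lit 0, nat_lit 0, nat_lit 0, nat_lit 0, nat_lit 0, nat_lit 0, [], [nat_lit 40, nat_lit 40, nat_lit 80, nat_lit 80]⟩,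
 zbF0, []⟩
noncomputable def p020_l95 : Lf2 := ⟨nat_lit 0, nat_lit 2, [nat_lit 10, nat_lit 5, nat_lit 5, nat_lit 20], false, nat_lit 0, nat_lit 0, nat_lit 0, nat_lit 0, ⟨nat_lit 1000, nat_lit 0, nat_lit 0, nat_lit 0, nat_lit 0, nat_lit 0, nat_lit 0, nat_lit 0, nat_lit 0, nat_lit 0, nat_lit 0, nat_lit 0, nat_lit 0, nat_lit 0, nat_lit 0, nat_lit 0, false, false⟩,
 nat_lit 0, nat_lit 0, nat_lit 0, nat_lit 0, nat_lit 0, nat_lit 5053, nat_lit 0, nat_lit 0, nat_lit 451, nat_lit 1395, nat_lit 0, nat_lit 0, nat_lit 0, nat_lit 0, nat_lit 0, nat_lit 0, nat_lit 0, nat_lit 0, [],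
 ⟨p020_k30, nat_lit 0, nat_lit 0, nat_lit 0, nat_lit 0, nat_lit 1426542, [nat_lit 2032000001, nat_lit 4688000000], [], [nat_lit 15914856000, nat_lit 15939210900, nat_lit 15994656400, nat_lit 16018947155], nat_lit 1271250, nat_lit 1271250, nat_lit 1100001, nat_lit 1133651, nat_lit 0, nat_lit 0, [nat_lit 490000, nat_lit 1100000], [nat_lit 24, nat_lit 40, nat_lit 80, nat_lit 80]⟩, ⟨p020_k32, nat_lit 0, nat_lit 0, nat_lit 0, nat_lit 0, nat_lit 0, [nat_lit 3282000000, nat_lit 4688000000], [], [nat_lit 18790431655, nat_lit 18875791484, nat_lit 18946756701, nat_lit 19053410466], nat_lit 0, nat_lit 0, nat_lit 0, nat_lit 0, nat_lit 0, nat_lit 0, [], [nat_lit 40, nat_lit 40, nat_lit 80, nat_lit 80]⟩,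
 zbF0, []⟩
noncomputable def p020_l96 : Lf2 := ⟨nat_lit 0, nat_lit 2, [nat_lit 10, nat_lit 5, nat_lit 5, nat_lit 20], false, nat_lit 0, nat_lit 0, nat_lit 0, nat_lit 0, ⟨nat_lit 1000, nat_lit 0, nat_lit 0, nat_lit 0, nat_lit 0, nat_lit 0, nat_lit 0, nat_lit 0, nat_lit 0, nat_lit 0, nat_lit 0, nat_lit 0, nat_lit 0, nat_lit 0, nat_lit 0, nat_lit 0, false, false⟩,
 nat_lit 0, nat_lit 3872, nat_lit 0, nat_lit 0, nat_lit 2904, nat_lit 5053, nat_lit 0, nat_lit 0, nat_lit 311, nat_lit 1395, nat_lit 0, nat_lit 0, nat_lit 0, nat_lit 0, nat_lit 0, nat_lit 0, nat_lit 0, nat_lit 0, [],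
 ⟨p020_k30, nat_lit 0, nat_lit 0, nat_lit 0, nat_lit 0, nat_lit 1426542, [nat_lit 2032000001, nat_lit 4688000000], [], [nat_lit 16875086976, nat_lit 16905195755, nat_lit 16937092836, nat_lit 16967051197], nat_lit 1271250, nat_lit 1271250, nat_lit 1100001, nat_lit 1133651, nat_lit 0, nat_lit 0, [nat_lit 490000, nat_lit 1100000], [nat_lit 24, nat_lit 40, nat_lit 80, nat_lit 80]⟩, ⟨p020_k32, nat_lit 0, nat_lit 0, nat_lit 0, nat_lit 0, nat_lit 0, [nat_lit 3282000000, nat_lit 4688000000], [], [nat_lit 18790431655, nat_lit 18875791484, nat_lit 18946756701, nat_lit 19053410466], nat_lit 0, nat_lit 0, nat_lit 0, nat_lit 0, nat_lit 0, nat_lit 0, [], [nat_lit 40, nat_lit 40, nat_lit 80, nat_lit 80]⟩,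
 zbF0, []⟩
noncomputable def p020_l97 : Lf2 := ⟨nat_lit 0, nat_lit 2, [nat_lit 10, nat_lit 5, nat_lit 5, nat_lit 20], false, nat_lit 0, nat_lit 0, nat_lit 0, nat_lit 0, ⟨nat_lit 1000, nat_lit 0, nat_lit 0, nat_lit 0, nat_lit 0, nat_lit 0, nat_lit 0, nat_lit 0, nat_lit 0, nat_lit 0, nat_lit 0, nat_lit 0, nat_lit 0, nat_lit 0, nat_lit 0, nat_lit 0, false, false⟩,
 nat_lit 0, nat_lit 21220, nat_lit 0, nat_lit 0, nat_lit 15915, nat_lit 5053, nat_lit 0, nat_lit 0, nat_lit 0, nat_lit 1395, nat_lit 0, nat_lit 0, nat_lit 0, nat_lit 0, nat_lit 0, nat_lit 0, nat_lit 18711465086, nat_lit 0, [],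
 ⟨p020_k30, nat_lit 0, nat_lit 0, nat_lit 627, nat_lit 0, nat_lit 1426542, [nat_lit 2032000001, nat_lit 4688000000], [], [nat_lit 10908486, nat_lit 61000403, nat_lit 0, nat_lit 57921513], nat_lit 1271250, nat_lit 1271250, nat_lit 1100001, nat_lit 1133651, nat_lit 0, nat_lit 0, [nat_lit 490000, nat_lit 1100000], [nat_lit 24, nat_lit 40, nat_lit 80, nat_lit 80, nat_lit 33, nat_lit 218, nat_lit 0, nat_lit 9]⟩, ⟨p020_k32, nat_lit 0, nat_lit 0, nat_lit 0, nat_lit 0, nat_lit 0, [nat_lit 3282000000, nat_lit 4688000000], [], [nat_lit 18790431655, nat_lit 18875791484, nat_lit 18946756701, nat_lit 19053410466], nat_lit 0, nat_lit 0, nat_lit 0, nat_lit 0, nat_lit 0, nat_lit 0, [], [nat_lit 40, nat_lit 40, nat_lit 80, nat_lit 80]⟩,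
 zbF0, []⟩
noncomputable def p020_l98 : Lf2 := ⟨nat_lit 0, nat_lit 2, [nat_lit 10, nat_lit 5, nat_lit 5, nat_lit 20], false, nat_lit 0, nat_lit 0, nat_lit 0, nat_lit 0, ⟨nat_lit 1000, nat_lit 0, nat_lit 0, nat_lit 0, nat_lit 0, nat_lit 0, nat_lit 0, nat_lit 0, nat_lit 0, nat_lit 0, nat_lit 0, nat_lit 0, nat_lit 0, nat_lit 0, nat_lit 0, nat_lit 0, false, false⟩,
 nat_lit 0, nat_lit 11325, nat_lit 0, nat_lit 0, nat_lit 8493, nat_lit 5045, nat_lit 0, nat_lit 0, nat_lit 0, nat_lit 1389, nat_lit 0, nat_lit 0, nat_lit 0, nat_lit 0, nat_lit 0, nat_lit 0, nat_lit 0, nat_lit 0, [],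
 ⟨p020_k30, nat_lit 0, nat_lit 0, nat_lit 626, nat_lit 0, nat_lit 1426542, [nat_lit 2032000001, nat_lit 4688000000], [], [nat_lit 24321823431, nat_lit 24357982116, nat_lit 24387832318, nat_lit 24558934268], nat_lit 1271250, nat_lit 1271250, nat_lit 1133651, nat_lit 1167600, nat_lit 0, nat_lit 0, [nat_lit 490000, nat_lit 1100000], [nat_lit 24, nat_lit 40, nat_lit 80, nat_lit 80, nat_lit 33, nat_lit 218, nat_lit 0, nat_lit 9]⟩, ⟨p020_k32, nat_lit 0, nat_lit 0, nat_lit 0, nat_lit 0, nat_lit 0, [nat_lit 3282000000, nat_lit 4688000000], [], [nat_lit 18960558113, nat_lit 19045193917, nat_lit 19117416736, nat_lit 19222117310], nat_lit 0, nat_lit 0, nat_lit 0, nat_lit 0, nat_lit 0, nat_lit 0, [], [nat_lit 40, nat_lit 40, nat_lit 80, nat_lit 80]⟩,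
 zbF0, []⟩
noncomputable def p020_l99 : Lf2 := ⟨nat_lit 0, nat_lit 2, [nat_lit 10, nat_lit 5, nat_lit 5, nat_lit 20], false, nat_lit 0, nat_lit 0, nat_lit 0, nat_lit 0, ⟨nat_lit 1000, nat_lit 0, nat_lit 0, nat_lit 0, nat_lit 0, nat_lit 0, nat_lit 0, nat_lit 0, nat_lit 0, nat_lit 0, nat_lit 0, nat_lit 0, nat_lit 0, nat_lit 0, nat_lit 0, nat_lit 0, false, false⟩,
 nat_lit 0, nat_lit 0, nat_lit 0, nat_lit 0, nat_lit 0, nat_lit 0, nat_lit 0, nat_lit 0, nat_lit 496, nat_lit 19043, nat_lit 0, nat_lit 0, nat_lit 0, nat_lit 0, nat_lit 0, nat_lit 0, nat_lit 0, nat_lit 0, [],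
 ⟨p020_k30, nat_lit 0, nat_lit 0, nat_lit 0, nat_lit 0, nat_lit 1435191, [nat_lit 2032000001, nat_lit 4688000000], [], [nat_lit 13070952000, nat_lit 13110673400, nat_lit 13304610001, nat_lit 13348577770], nat_lit 1271250, nat_lit 1271250, nat_lit 1100001, nat_lit 1167600, nat_lit 0, nat_lit 0, [nat_lit 490000, nat_lit 1100000], [nat_lit 24, nat_lit 40, nat_lit 80, nat_lit 80]⟩, ⟨p020_k33, nat_lit 0, nat_lit 0, nat_lit 0, nat_lit 0, nat_lit 0, [nat_lit 3282000000, nat_lit 4688000000], [], [nat_lit 23887175000, nat_lit 23924630500, nat_lit 24116363860, nat_lit 24153521550], nat_lit 0, nat_lit 0, nat_lit 0, nat_lit 0, nat_lit 0, nat_lit 0, [], [nat_lit 40, nat_lit 40, nat_lit 80, nat_lit 80]⟩,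
 zbF0, []⟩
noncomputable def p020_l100 : Lf2 := ⟨nat_lit 0, nat_lit 2, [nat_lit 10, nat_lit 5, nat_lit 5, nat_lit 20], false, nat_lit 0, nat_lit 0, nat_lit 0, nat_lit 0, ⟨nat_lit 1000, nat_lit 0, nat_lit 0, nat_lit 0, nat_lit 0, nat_lit 0, nat_lit 0, nat_lit 0, nat_lit 0, nat_lit 0, nat_lit 0, nat_lit 0, nat_lit 0, nat_lit 0, nat_lit 0, nat_lit 0, false, false⟩,
 nat_lit 0, nat_lit 0, nat_lit 0, nat_lit 0, nat_lit 0, nat_lit 10455, nat_lit 0, nat_lit 0, nat_lit 460, nat_lit 0, nat_lit 0, nat_lit 0, nat_lit 0, nat_lit 0, nat_lit 0, nat_lit 0, nat_lit 0, nat_lit 0, [],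
 ⟨p020_k30, nat_lit 0, nat_lit 0, nat_lit 0, nat_lit 0, nat_lit 1435191, [nat_lit 2032000001, nat_lit 4688000000], [], [nat_lit 15057912000, nat_lit 15084466400, nat_lit 15143627600, nat_lit 15170106130], nat_lit 1271250, nat_lit 1271250, nat_lit 1100001, nat_lit 1133651, nat_lit 0, nat_lit 0, [nat_lit 490000, nat_lit 1100000], [nat_lit 24, nat_lit 40, nat_lit 80, nat_lit 80]⟩, ⟨p020_k33, nat_lit 0, nat_lit 0, nat_lit 0, nat_lit 0, nat_lit 0, [nat_lit 3282000000, nat_lit 4688000000], [], [nat_lit 25375168048, nat_lit 25562489580, nat_lit 25609706315, nat_lit 25795364145], nat_lit 0, nat_lit 0, nat_lit 0, nat_lit 0, nat_lit 0, nat_lit 0, [], [nat_lit 40, nat_lit 40, nat_lit 80, nat_lit 80]⟩,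
 zbF0, []⟩
noncomputable def p020_l101 : Lf2 := ⟨nat_lit 0, nat_lit 2, [nat_lit 10, nat_lit 5, nat_lit 5, nat_lit 20], false, nat_lit 0, nat_lit 0, nat_lit 0, nat_lit 0, ⟨nat_lit 1000, nat_lit 0, nat_lit 0, nat_lit 0, nat_lit 0, nat_lit 0, nat_lit 0, nat_lit 0, nat_lit 0, nat_lit 0, nat_lit 0, nat_lit 0, nat_lit 0, nat_lit 0, nat_lit 0, nat_lit 0, false, false⟩,
 nat_lit 0, nat_lit 0, nat_lit 0, nat_lit 0, nat_lit 0, nat_lit 5043, nat_lit 0, nat_lit 0, nat_lit 451, nat_lit 1349, nat_lit 0, nat_lit 0, nat_lit 0, nat_lit 0, nat_lit 0, nat_lit 0, nat_lit 0, nat_lit 0, [],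
 ⟨p020_k30, nat_lit 0, nat_lit 0, nat_lit 0, nat_lit 0, nat_lit 1435191, [nat_lit 2032000001, nat_lit 4688000000], [], [nat_lit 15914856000, nat_lit 15939210900, nat_lit 15994656400, nat_lit 16018947155], nat_lit 1271250, nat_lit 1271250, nat_lit 1100001, nat_lit 1133651, nat_lit 0, nat_lit 0, [nat_lit 490000, nat_lit 1100000], [nat_lit 24, nat_lit 40, nat_lit 80, nat_lit 80]⟩, ⟨p020_k33, nat_lit 0, nat_lit 0, nat_lit 0, nat_lit 0, nat_lit 0, [nat_lit 3282000000, nat_lit 4688000000], [], [nat_lit 18890880374, nat_lit 18976142857, nat_lit 19046945428, nat_lit 19153169326], nat_lit 0, nat_lit 0, nat_lit 0, nat_lit 0, nat_lit 0, nat_lit 0, [], [nat_lit 40, nat_lit 40, nat_lit 80, nat_lit 80]⟩,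
 zbF0, []⟩
noncomputable def p020_l102 : Lf2 := ⟨nat_lit 0, nat_lit 2, [nat_lit 10, nat_lit 5, nat_lit 5, nat_lit 20], false, nat_lit 0, nat_lit 0, nat_lit 0, nat_lit 0, ⟨nat_lit 1000, nat_lit 0, nat_lit 0, nat_lit 0, nat_lit 0, nat_lit 0, nat_lit 0, nat_lit 0, nat_lit 0, nat_lit 0, nat_lit 0, nat_lit 0, nat_lit 0, nat_lit 0, nat_lit 0, nat_lit 0, false, false⟩,
 nat_lit 0, nat_lit 3762, nat_lit 0, nat_lit 0, nat_lit 2821, nat_lit 5043, nat_lit 0, nat_lit 0, nat_lit 314, nat_lit 1349, nat_lit 0, nat_lit 0, nat_lit 0, nat_lit 0, nat_lit 0, nat_lit 0, nat_lit 0, nat_lit 0, [],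
 ⟨p020_k30, nat_lit 0, nat_lit 0, nat_lit 0, nat_lit 0, nat_lit 1435191, [nat_lit 2032000001, nat_lit 4688000000], [], [nat_lit 16969365560, nat_lit 16995367136, nat_lit 17023315769, nat_lit 17051808870], nat_lit 1271250, nat_lit 1271250, nat_lit 1100001, nat_lit 1133651, nat_lit 0, nat_lit 0, [nat_lit 490000, nat_lit 1100000], [nat_lit 24, nat_lit 40, nat_lit 80, nat_lit 80]⟩, ⟨p020_k33, nat_lit 0, nat_lit 0, nat_lit 0, nat_lit 0, nat_lit 0, [nat_lit 3282000000, nat_lit 4688000000], [], [nat_lit 18890880374, nat_lit 18976142857, nat_lit 19046945428, nat_lit 19153169326], nat_lit 0, nat_lit 0, nat_lit 0, nat_lit 0, nat_lit 0, nat_lit 0, [], [nat_lit 40, nat_lit 40, nat_lit 80, nat_lit 80]⟩,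
 zbF0, []⟩
noncomputable def p020_l103 : Lf2 := ⟨nat_lit 2, nat_lit 2, [nat_lit 10, nat_lit 5, nat_lit 5, nat_lit 20], true, nat_lit 0, nat_lit 0, nat_lit 0, nat_lit 0, zbN0,
 nat_lit 0, nat_lit 0, nat_lit 0, nat_lit 0, nat_lit 0, nat_lit 0, nat_lit 0, nat_lit 0, nat_lit 0, nat_lit 0, nat_lit 0, nat_lit 0, nat_lit 0, nat_lit 0, nat_lit 0, nat_lit 0, nat_lit 0, nat_lit 0, [],
 ⟨p020_k34, nat_lit 0, nat_lit 0, nat_lit 631, nat_lit 0, nat_lit 1435191, [], [], [], nat_lit 1271250, nat_lit 1271250, nat_lit 1100001, nat_lit 1133651, nat_lit 0, nat_lit 0, [nat_lit 490000, nat_lit 780000, nat_lit 1100000], [nat_lit 78, nat_lit 40, nat_lit 80, nat_lit 80, nat_lit 22, nat_lit 219, nat_lit 0, nat_lit 9]⟩, C1.Rw.none,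
 zbF0, []⟩
noncomputable def p020_l104 : Lf2 := ⟨nat_lit 0, nat_lit 2, [nat_lit 10, nat_lit 5, nat_lit 5, nat_lit 20], false, nat_lit 0, nat_lit 0, nat_lit 0, nat_lit 0, ⟨nat_lit 1000, nat_lit 0, nat_lit 0, nat_lit 0, nat_lit 0, nat_lit 0, nat_lit 0, nat_lit 0, nat_lit 0, nat_lit 0, nat_lit 0, nat_lit 0, nat_lit 0, nat_lit 0, nat_lit 0, nat_lit 0, false, false⟩,
 nat_lit 0, nat_lit 0, nat_lit 0, nat_lit 0, nat_lit 0, nat_lit 5035, nat_lit 0, nat_lit 0, nat_lit 468, nat_lit 8314, nat_lit 0, nat_lit 0, nat_lit 0, nat_lit 0, nat_lit 0, nat_lit 0, nat_lit 0, nat_lit 0, [],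
 ⟨p020_k30, nat_lit 0, nat_lit 0, nat_lit 0, nat_lit 0, nat_lit 1435191, [nat_lit 2032000001, nat_lit 4688000000], [], [nat_lit 14503627600, nat_lit 14530106130, nat_lit 14590152000, nat_lit 14619090490], nat_lit 1271250, nat_lit 1271250, nat_lit 1133651, nat_lit 1167600, nat_lit 0, nat_lit 0, [nat_lit 490000, nat_lit 1100000], [nat_lit 24, nat_lit 40, nat_lit 80, nat_lit 80]⟩, ⟨p020_k33, nat_lit 0, nat_lit 0, nat_lit 0, nat_lit 0, nat_lit 0, [nat_lit 3282000000, nat_lit 4688000000], [], [nat_lit 19054805550, nat_lit 19144980123, nat_lit 19216731145, nat_lit 19320764051], nat_lit 0, nat_lit 0, nat_lit 0, nat_lit 0, nat_lit 0, nat_lit 0, [], [nat_lit 40, nat_lit 40, nat_lit 80, nat_lit 80]⟩,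
 zbF0, []⟩
noncomputable def p020_l105 : Lf2 := ⟨nat_lit 0, nat_lit 2, [nat_lit 10, nat_lit 5, nat_lit 5, nat_lit 20], false, nat_lit 0, nat_lit 0, nat_lit 0, nat_lit 0, ⟨nat_lit 1000, nat_lit 0, nat_lit 0, nat_lit 0, nat_lit 0, nat_lit 0, nat_lit 0, nat_lit 0, nat_lit 0, nat_lit 0, nat_lit 0, nat_lit 0, nat_lit 0, nat_lit 0, nat_lit 0, nat_lit 0, false, false⟩,
 nat_lit 0, nat_lit 0, nat_lit 0, nat_lit 0, nat_lit 0, nat_lit 5035, nat_lit 0, nat_lit 0, nat_lit 450, nat_lit 1343, nat_lit 0, nat_lit 0, nat_lit 0, nat_lit 0, nat_lit 0, nat_lit 0, nat_lit 0, nat_lit 0, [],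
 ⟨p020_k30, nat_lit 0, nat_lit 0, nat_lit 0, nat_lit 0, nat_lit 1435191, [nat_lit 2032000001, nat_lit 4688000000], [], [nat_lit 16098097200, nat_lit 16120500370, nat_lit 16172634400, nat_lit 16194982840], nat_lit 1271250, nat_lit 1271250, nat_lit 1133651, nat_lit 1167600, nat_lit 0, nat_lit 0, [nat_lit 490000, nat_lit 1100000], [nat_lit 24, nat_lit 40, nat_lit 80, nat_lit 80]⟩, ⟨p020_k33, nat_lit 0, nat_lit 0, nat_lit 0, nat_lit 0, nat_lit 0, [nat_lit 3282000000, nat_lit 4688000000], [], [nat_lit 19060503287, nat_lit 19145042750, nat_lit 19216731145, nat_lit 19320764051], nat_lit 0, nat_lit 0, nat_lit 0, nat_lit 0, nat_lit 0, nat_lit 0, [], [nat_lit 40, nat_lit 40, nat_lit 80, nat_lit 80]⟩,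
 zbF0, []⟩
noncomputable def p020_l106 : Lf2 := ⟨nat_lit 0, nat_lit 2, [nat_lit 10, nat_lit 5, nat_lit 5, nat_lit 20], false, nat_lit 0, nat_lit 0, nat_lit 0, nat_lit 0, ⟨nat_lit 1000, nat_lit 0, nat_lit 0, nat_lit 0, nat_lit 0, nat_lit 0, nat_lit 0, nat_lit 0, nat_lit 0, nat_lit 0, nat_lit 0, nat_lit 0, nat_lit 0, nat_lit 0, nat_lit 0, nat_lit 0, false, false⟩,
 nat_lit 0, nat_lit 11107, nat_lit 0, nat_lit 0, nat_lit 8329, nat_lit 5035, nat_lit 767, nat_lit 0, nat_lit 0, nat_lit 1343, nat_lit 0, nat_lit 0, nat_lit 0, nat_lit 0, nat_lit 0, nat_lit 0, nat_lit 0, nat_lit 0, [],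
 ⟨p020_k34, nat_lit 0, nat_lit 0, nat_lit 630, nat_lit 0, nat_lit 1435191, [nat_lit 2032000001, nat_lit 3282000000, nat_lit 4688000000], [], [nat_lit 14749401029, nat_lit 14798832992, nat_lit 14809742096, nat_lit 14862091721], nat_lit 1271250, nat_lit 1271250, nat_lit 1133651, nat_lit 1167600, nat_lit 0, nat_lit 0, [nat_lit 490000, nat_lit 780000, nat_lit 1100000], [nat_lit 78, nat_lit 40, nat_lit 80, nat_lit 80, nat_lit 22, nat_lit 219, nat_lit 0, nat_lit 9]⟩, ⟨p020_k33, nat_lit 0, nat_lit 0, nat_lit 0, nat_lit 0, nat_lit 0, [nat_lit 3282000000, nat_lit 4688000000], [], [nat_lit 19060503287, nat_lit 19145042750, nat_lit 19216731145, nat_lit 19320764051], nat_lit 0, nat_lit 0, nat_lit 0, nat_lit 0, nat_lit 0, nat_lit 0, [], [nat_lit 40, nat_lit 40, nat_lit 80, nat_lit 80]⟩,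
 zbF0, []⟩
noncomputable def p020_l107 : Lf2 := ⟨nat_lit 0, nat_lit 2, [nat_lit 10, nat_lit 5, nat_lit 5, nat_lit 20], false, nat_lit 0, nat_lit 0, nat_lit 0, nat_lit 0, ⟨nat_lit 1000, nat_lit 0, nat_lit 0, nat_lit 0, nat_lit 0, nat_lit 0, nat_lit 0, nat_lit 0, nat_lit 0, nat_lit 0, nat_lit 0, nat_lit 0, nat_lit 0, nat_lit 0, nat_lit 0, nat_lit 0, false, false⟩,
 nat_lit 0, nat_lit 11290, nat_lit 0, nat_lit 0, nat_lit 8467, nat_lit 5038, nat_lit 0, nat_lit 0, nat_lit 0, nat_lit 1383, nat_lit 0, nat_lit 0, nat_lit 0, nat_lit 0, nat_lit 0, nat_lit 0, nat_lit 0, nat_lit 0, [],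
 ⟨p020_k30, nat_lit 0, nat_lit 0, nat_lit 625, nat_lit 0, nat_lit 1426542, [nat_lit 2032000001, nat_lit 4688000000], [], [nat_lit 24494735083, nat_lit 24530569111, nat_lit 24970748322, nat_lit 25137180753], nat_lit 1271250, nat_lit 1271250, nat_lit 1167600, nat_lit 1271250, nat_lit 0, nat_lit 0, [nat_lit 490000, nat_lit 1100000], [nat_lit 24, nat_lit 40, nat_lit 80, nat_lit 80, nat_lit 33, nat_lit 219, nat_lit 0, nat_lit 9]⟩, ⟨p020_k32, nat_lit 0, nat_lit 0, nat_lit 0, nat_lit 0, nat_lit 0, [nat_lit 3282000000, nat_lit 4688000000], [], [nat_lit 19129524463, nat_lit 19213811800, nat_lit 19640351495, nat_lit 19748579926], nat_lit 0, nat_lit 0, nat_lit 0, nat_lit 0, nat_lit 0, nat_lit 0, [], [nat_lit 40, nat_lit 40, nat_lit 80, nat_lit 80]⟩,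
 zbF0, []⟩
noncomputable def p020_l108 : Lf2 := ⟨nat_lit 0, nat_lit 2, [nat_lit 10, nat_lit 5, nat_lit 5, nat_lit 20], false, nat_lit 0, nat_lit 0, nat_lit 0, nat_lit 0, ⟨nat_lit 1000, nat_lit 0, nat_lit 0, nat_lit 0, nat_lit 0, nat_lit 0, nat_lit 0, nat_lit 0, nat_lit 0, nat_lit 0, nat_lit 0, nat_lit 0, nat_lit 0, nat_lit 0, nat_lit 0, nat_lit 0, false, false⟩,
 nat_lit 0, nat_lit 0, nat_lit 0, nat_lit 0, nat_lit 0, nat_lit 0, nat_lit 0, nat_lit 0, nat_lit 493, nat_lit 19624, nat_lit 0, nat_lit 0, nat_lit 0, nat_lit 0, nat_lit 0, nat_lit 0, nat_lit 0, nat_lit 0, [],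
 ⟨p020_k30, nat_lit 0, nat_lit 0, nat_lit 0, nat_lit 0, nat_lit 1435191, [nat_lit 2032000001, nat_lit 4688000000], [], [nat_lit 13353786800, nat_lit 13391333150, nat_lit 13468422000, nat_lit 13507663025], nat_lit 1271250, nat_lit 1271250, nat_lit 1167600, nat_lit 1201850, nat_lit 0, nat_lit 0, [nat_lit 490000, nat_lit 1100000], [nat_lit 24, nat_lit 40, nat_lit 80, nat_lit 80]⟩, ⟨p020_k33, nat_lit 0, nat_lit 0, nat_lit 0, nat_lit 0, nat_lit 0, [nat_lit 3282000000, nat_lit 4688000000], [], [nat_lit 24116363860, nat_lit 24153521550, nat_lit 24230958290, nat_lit 24267967075], nat_lit 0, nat_lit 0, nat_lit 0, nat_lit 0, nat_lit 0, nat_lit 0, [], [nat_lit 40, nat_lit 40, nat_lit 80, nat_lit 80]⟩,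
 zbF0, []⟩
noncomputable def p020_l109 : Lf2 := ⟨nat_lit 0, nat_lit 2, [nat_lit 10, nat_lit 5, nat_lit 5, nat_lit 20], false, nat_lit 0, nat_lit 0, nat_lit 0, nat_lit 0, ⟨nat_lit 1000, nat_lit 0, nat_lit 0, nat_lit 0, nat_lit 0, nat_lit 0, nat_lit 0, nat_lit 0, nat_lit 0, nat_lit 0, nat_lit 0, nat_lit 0, nat_lit 0, nat_lit 0, nat_lit 0, nat_lit 0, false, false⟩,
 nat_lit 0, nat_lit 12806, nat_lit 0, nat_lit 0, nat_lit 9604, nat_lit 5028, nat_lit 0, nat_lit 0, nat_lit 0, nat_lit 1337, nat_lit 0, nat_lit 0, nat_lit 0, nat_lit 0, nat_lit 0, nat_lit 0, nat_lit 0, nat_lit 0, [],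
 ⟨p020_k30, nat_lit 0, nat_lit 0, nat_lit 631, nat_lit 0, nat_lit 1435191, [nat_lit 2032000001, nat_lit 4688000000], [], [nat_lit 17894550594, nat_lit 17932414588, nat_lit 17947487040, nat_lit 18033936166], nat_lit 1271250, nat_lit 1271250, nat_lit 1167600, nat_lit 1201850, nat_lit 0, nat_lit 0, [nat_lit 490000, nat_lit 1100000], [nat_lit 24, nat_lit 40, nat_lit 80, nat_lit 80, nat_lit 33, nat_lit 220, nat_lit 0, nat_lit 9]⟩, ⟨p020_k33, nat_lit 0, nat_lit 0, nat_lit 0, nat_lit 0, nat_lit 0, [nat_lit 3282000000, nat_lit 4688000000], [], [nat_lit 19228977232, nat_lit 19312949552, nat_lit 19385402740, nat_lit 19489442827], nat_lit 0, nat_lit 0, nat_lit 0, nat_lit 0, nat_lit 0, nat_lit 0, [], [nat_lit 40, nat_lit 40, nat_lit 80, nat_lit 80]⟩,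
 zbF0, []⟩
noncomputable def p020_l110 : Lf2 := ⟨nat_lit 0, nat_lit 2, [nat_lit 10, nat_lit 5, nat_lit 5, nat_lit 20], false, nat_lit 0, nat_lit 0, nat_lit 0, nat_lit 0, ⟨nat_lit 1000, nat_lit 0, nat_lit 0, nat_lit 0, nat_lit 0, nat_lit 0, nat_lit 0, nat_lit 0, nat_lit 0, nat_lit 0, nat_lit 0, nat_lit 0, nat_lit 0, nat_lit 0, nat_lit 0, nat_lit 0, false, false⟩,
 nat_lit 0, nat_lit 11256, nat_lit 0, nat_lit 0, nat_lit 8442, nat_lit 5021, nat_lit 0, nat_lit 0, nat_lit 0, nat_lit 1331, nat_lit 0, nat_lit 0, nat_lit 0, nat_lit 0, nat_lit 0, nat_lit 0, nat_lit 0, nat_lit 0, [],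
 ⟨p020_k30, nat_lit 0, nat_lit 0, nat_lit 630, nat_lit 0, nat_lit 1435191, [nat_lit 2032000001, nat_lit 4688000000], [], [nat_lit 24662129250, nat_lit 24697641794, nat_lit 24732032173, nat_lit 24899524432], nat_lit 1271250, nat_lit 1271250, nat_lit 1201850, nat_lit 1236400, nat_lit 0, nat_lit 0, [nat_lit 490000, nat_lit 1100000], [nat_lit 24, nat_lit 40, nat_lit 80, nat_lit 80, nat_lit 33, nat_lit 220, nat_lit 0, nat_lit 9]⟩, ⟨p020_k33, nat_lit 0, nat_lit 0, nat_lit 0, nat_lit 0, nat_lit 0, [nat_lit 3282000000, nat_lit 4688000000], [], [nat_lit 19397339849, nat_lit 19480788895, nat_lit 19553942729, nat_lit 19657978345], nat_lit 0, nat_lit 0, nat_lit 0, nat_lit 0, nat_lit 0, nat_lit 0, [], [nat_lit 40, nat_lit 40, nat_lit 80, nat_lit 80]⟩,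
 zbF0, []⟩
noncomputable def p020_l111 : Lf2 := ⟨nat_lit 0, nat_lit 2, [nat_lit 10, nat_lit 5, nat_lit 5, nat_lit 20], false, nat_lit 0, nat_lit 0, nat_lit 0, nat_lit 0, ⟨nat_lit 1000, nat_lit 0, nat_lit 0, nat_lit 0, nat_lit 0, nat_lit 0, nat_lit 0, nat_lit 0, nat_lit 0, nat_lit 0, nat_lit 0, nat_lit 0, nat_lit 0, nat_lit 0, nat_lit 0, nat_lit 0, false, false⟩,
 nat_lit 0, nat_lit 11222, nat_lit 0, nat_lit 0, nat_lit 8416, nat_lit 5013, nat_lit 0, nat_lit 0, nat_lit 0, nat_lit 1325, nat_lit 0, nat_lit 0, nat_lit 0, nat_lit 0, nat_lit 0, nat_lit 0, nat_lit 0, nat_lit 0, [],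
 ⟨p020_k30, nat_lit 0, nat_lit 0, nat_lit 629, nat_lit 0, nat_lit 1435191, [nat_lit 2032000001, nat_lit 4688000000], [], [nat_lit 24835621389, nat_lit 24870812080, nat_lit 24902736456, nat_lit 25068427754], nat_lit 1271250, nat_lit 1271250, nat_lit 1236400, nat_lit 1271250, nat_lit 0, nat_lit 0, [nat_lit 490000, nat_lit 1100000], [nat_lit 24, nat_lit 40, nat_lit 80, nat_lit 80, nat_lit 33, nat_lit 220, nat_lit 0, nat_lit 9]⟩, ⟨p020_k33, nat_lit 0, nat_lit 0, nat_lit 0, nat_lit 0, nat_lit 0, [nat_lit 3282000000, nat_lit 4688000000], [], [nat_lit 19566596969, nat_lit 19649442290, nat_lit 19723296026, nat_lit 19825102366], nat_lit 0, nat_lit 0, nat_lit 0, nat_lit 0, nat_lit 0, nat_lit 0, [], [nat_lit 40, nat_lit 40, nat_lit 80, nat_lit 80]⟩,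
 zbF0, []⟩
noncomputable def p020_l112 : Lf2 := ⟨nat_lit 0, nat_lit 2, [nat_lit 10, nat_lit 5, nat_lit 5, nat_lit 20], false, nat_lit 0, nat_lit 0, nat_lit 0, nat_lit 0, ⟨nat_lit 1000, nat_lit 0, nat_lit 0, nat_lit 0, nat_lit 0, nat_lit 0, nat_lit 0, nat_lit 0, nat_lit 0, nat_lit 0, nat_lit 0, nat_lit 0, nat_lit 0, nat_lit 0, nat_lit 0, nat_lit 0, false, false⟩,
 nat_lit 0, nat_lit 11189, nat_lit 0, nat_lit 0, nat_lit 8391, nat_lit 5006, nat_lit 0, nat_lit 0, nat_lit 0, nat_lit 1361, nat_lit 0, nat_lit 0, nat_lit 0, nat_lit 0, nat_lit 0, nat_lit 0, nat_lit 0, nat_lit 0, [],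
 ⟨p020_k30, nat_lit 0, nat_lit 0, nat_lit 628, nat_lit 0, nat_lit 1435191, [nat_lit 2032000001, nat_lit 4688000000], [], [nat_lit 25003584771, nat_lit 25038456728, nat_lit 25893852764, nat_lit 26052102285], nat_lit 1271250, nat_lit 1271250, nat_lit 1271250, nat_lit 1271250, nat_lit 0, nat_lit 0, [nat_lit 490000, nat_lit 1100000], [nat_lit 24, nat_lit 40, nat_lit 80, nat_lit 80, nat_lit 33, nat_lit 223, nat_lit 0, nat_lit 10]⟩, ⟨p020_k32, nat_lit 0, nat_lit 0, nat_lit 0, nat_lit 0, nat_lit 0, [nat_lit 3282000000, nat_lit 4688000000], [], [nat_lit 19653100333, nat_lit 19817012166, nat_lit 20495138798, nat_lit 20701806920], nat_lit 0, nat_lit 0, nat_lit 0, nat_lit 0, nat_lit 0, nat_lit 0, [], [nat_lit 40, nat_lit 40, nat_lit 80, nat_lit 80]⟩,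
 zbF0, []⟩
noncomputable def p020_l113 : Lf2 := ⟨nat_lit 0, nat_lit 2, [nat_lit 10, nat_lit 5, nat_lit 5, nat_lit 20], false, nat_lit 0, nat_lit 0, nat_lit 0, nat_lit 0, ⟨nat_lit 1000, nat_lit 0, nat_lit 0, nat_lit 0, nat_lit 0, nat_lit 0, nat_lit 0, nat_lit 0, nat_lit 0, nat_lit 0, nat_lit 0, nat_lit 0, nat_lit 0, nat_lit 0, nat_lit 0, nat_lit 0, false, false⟩,
 nat_lit 0, nat_lit 0, nat_lit 0, nat_lit 0, nat_lit 0, nat_lit 0, nat_lit 0, nat_lit 0, nat_lit 497, nat_lit 19019, nat_lit 0, nat_lit 0, nat_lit 0, nat_lit 0, nat_lit 0, nat_lit 0, nat_lit 0, nat_lit 0, [],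
 ⟨p020_k30, nat_lit 0, nat_lit 0, nat_lit 0, nat_lit 0, nat_lit 1479551, [nat_lit 2032000001, nat_lit 4688000000], [], [nat_lit 13054952000, nat_lit 13099073100, nat_lit 14304170000, nat_lit 14346596450], nat_lit 1271250, nat_lit 1271250, nat_lit 1100001, nat_lit 1442500, nat_lit 0, nat_lit 0, [nat_lit 490000, nat_lit 1100000], [nat_lit 24, nat_lit 40, nat_lit 80, nat_lit 80]⟩, ⟨p020_k35, nat_lit 0, nat_lit 0, nat_lit 0, nat_lit 0, nat_lit 0, [nat_lit 3282000000, nat_lit 4688000000], [], [nat_lit 23924630500, nat_lit 24111908000, nat_lit 25069085750, nat_lit 25248918000], nat_lit 0, nat_lit 0, nat_lit 0, nat_lit 0, nat_lit 0, nat_lit 0, [], [nat_lit 40, nat_lit 40, nat_lit 80, nat_lit 80]⟩,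
 zbF0, []⟩
noncomputable def p020_l114 : Lf2 := ⟨nat_lit 0, nat_lit 2, [nat_lit 10, nat_lit 5, nat_lit 5, nat_lit 20], false, nat_lit 0, nat_lit 0, nat_lit 0, nat_lit 0, ⟨nat_lit 1000, nat_lit 0, nat_lit 0, nat_lit 0, nat_lit 0, nat_lit 0, nat_lit 0, nat_lit 0, nat_lit 0, nat_lit 0, nat_lit 0, nat_lit 0, nat_lit 0, nat_lit 0, nat_lit 0, nat_lit 0, false, false⟩,
 nat_lit 0, nat_lit 0, nat_lit 0, nat_lit 0, nat_lit 0, nat_lit 0, nat_lit 0, nat_lit 0, nat_lit 464, nat_lit 1986, nat_lit 0, nat_lit 0, nat_lit 0, nat_lit 0, nat_lit 0, nat_lit 0, nat_lit 0, nat_lit 0, [],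
 ⟨p020_k30, nat_lit 0, nat_lit 0, nat_lit 0, nat_lit 0, nat_lit 1479551, [nat_lit 2032000001, nat_lit 4688000000], [], [nat_lit 14737912000, nat_lit 14764466400, nat_lit 15595068000, nat_lit 15620863700], nat_lit 1271250, nat_lit 1271250, nat_lit 1100001, nat_lit 1442500, nat_lit 0, nat_lit 0, [nat_lit 490000, nat_lit 1100000], [nat_lit 24, nat_lit 40, nat_lit 80, nat_lit 80]⟩, ⟨p020_k35, nat_lit 0, nat_lit 0, nat_lit 0, nat_lit 0, nat_lit 0, [nat_lit 3282000000, nat_lit 4688000000], [], [nat_lit 23924630500, nat_lit 24111908000, nat_lit 25069085750, nat_lit 25248918000], nat_lit 0, nat_lit 0, nat_lit 0, nat_lit 0, nat_lit 0, nat_lit 0, [], [nat_lit 40, nat_lit 40, nat_lit 80, nat_lit 80]⟩,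
 zbF0, []⟩
noncomputable def p020_l115 : Lf2 := ⟨nat_lit 0, nat_lit 2, [nat_lit 10, nat_lit 5, nat_lit 5, nat_lit 20], false, nat_lit 0, nat_lit 0, nat_lit 0, nat_lit 0, ⟨nat_lit 1000, nat_lit 0, nat_lit 0, nat_lit 0, nat_lit 0, nat_lit 0, nat_lit 0, nat_lit 0, nat_lit 0, nat_lit 0, nat_lit 0, nat_lit 0, nat_lit 0, nat_lit 0, nat_lit 0, nat_lit 0, false, false⟩,
 nat_lit 0, nat_lit 0, nat_lit 0, nat_lit 0, nat_lit 0, nat_lit 4993, nat_lit 0, nat_lit 0, nat_lit 451, nat_lit 1296, nat_lit 0, nat_lit 0, nat_lit 0, nat_lit 0, nat_lit 0, nat_lit 0, nat_lit 0, nat_lit 0, [],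
 ⟨p020_k30, nat_lit 0, nat_lit 0, nat_lit 0, nat_lit 0, nat_lit 1479551, [nat_lit 2032000001, nat_lit 4688000000], [], [nat_lit 15914856000, nat_lit 15939210900, nat_lit 16712860000, nat_lit 16736573450], nat_lit 1271250, nat_lit 1271250, nat_lit 1100001, nat_lit 1442500, nat_lit 0, nat_lit 0, [nat_lit 490000, nat_lit 1100000], [nat_lit 24, nat_lit 40, nat_lit 80, nat_lit 80]⟩, ⟨p020_k35, nat_lit 0, nat_lit 0, nat_lit 0, nat_lit 0, nat_lit 0, [nat_lit 3282000000, nat_lit 4688000000], [], [nat_lit 19052581832, nat_lit 19477085848, nat_lit 20684654678, nat_lit 21200521572], nat_lit 0, nat_lit 0, nat_lit 0, nat_lit 0, nat_lit 0, nat_lit 0, [], [nat_lit 40, nat_lit 40, nat_lit 80, nat_lit 80]⟩,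
 zbF0, []⟩
noncomputable def p020_l116 : Lf2 := ⟨nat_lit 0, nat_lit 2, [nat_lit 10, nat_lit 5, nat_lit 5, nat_lit 20], false, nat_lit 0, nat_lit 0, nat_lit 0, nat_lit 0, ⟨nat_lit 1000, nat_lit 0, nat_lit 0, nat_lit 0, nat_lit 0, nat_lit 0, nat_lit 0, nat_lit 0, nat_lit 0, nat_lit 0, nat_lit 0, nat_lit 0, nat_lit 0, nat_lit 0, nat_lit 0, nat_lit 0, false, false⟩,
 nat_lit 0, nat_lit 9847, nat_lit 0, nat_lit 0, nat_lit 7385, nat_lit 4993, nat_lit 809, nat_lit 0, nat_lit 0, nat_lit 1296, nat_lit 0, nat_lit 0, nat_lit 0, nat_lit 0, nat_lit 0, nat_lit 0, nat_lit 0, nat_lit 0, [],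
 ⟨p020_k34, nat_lit 0, nat_lit 0, nat_lit 653, nat_lit 0, nat_lit 1479551, [nat_lit 2032000001, nat_lit 3282000000, nat_lit 4688000000], [], [nat_lit 20022030381, nat_lit 20068045541, nat_lit 20671223020, nat_lit 20717541697], nat_lit 1271250, nat_lit 1271250, nat_lit 1100001, nat_lit 1442500, nat_lit 0, nat_lit 0, [nat_lit 490000, nat_lit 780000, nat_lit 1100000], [nat_lit 78, nat_lit 40, nat_lit 80, nat_lit 80, nat_lit 22, nat_lit 229, nat_lit 0, nat_lit 10]⟩, ⟨p020_k35, nat_lit 0, nat_lit 0, nat_lit 0, nat_lit 0, nat_lit 0, [nat_lit 3282000000, nat_lit 4688000000], [], [nat_lit 19052581832, nat_lit 19477085848, nat_lit 20684654678, nat_lit 21200521572], nat_lit 0, nat_lit 0, nat_lit 0, nat_lit 0, nat_lit 0, nat_lit 0, [], [nat_lit 40, nat_lit 40, nat_lit 80, nat_lit 80]⟩,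
 zbF0, []⟩
noncomputable def p020_l117 : Lf2 := ⟨nat_lit 0, nat_lit 2, [nat_lit 10, nat_lit 5, nat_lit 5, nat_lit 20], false, nat_lit 0, nat_lit 0, nat_lit 0, nat_lit 0, ⟨nat_lit 1000, nat_lit 0, nat_lit 0, nat_lit 0, nat_lit 0, nat_lit 0, nat_lit 0, nat_lit 0, nat_lit 0, nat_lit 0, nat_lit 0, nat_lit 0, nat_lit 0, nat_lit 0, nat_lit 0, nat_lit 0, false, false⟩,
 nat_lit 0, nat_lit 11013, nat_lit 0, nat_lit 0, nat_lit 8259, nat_lit 4969, nat_lit 0, nat_lit 0, nat_lit 0, nat_lit 1464, nat_lit 0, nat_lit 0, nat_lit 0, nat_lit 0, nat_lit 0, nat_lit 0, nat_lit 0, nat_lit 0, [],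
 ⟨p020_k30, nat_lit 0, nat_lit 0, nat_lit 624, nat_lit 0, nat_lit 1435191, [nat_lit 2032000001, nat_lit 4688000000], [], [nat_lit 25888578518, nat_lit 25921866240, nat_lit 27747868320, nat_lit 27890331257], nat_lit 1271250, nat_lit 1271250, nat_lit 1271250, nat_lit 1271250, nat_lit 0, nat_lit 0, [nat_lit 490000, nat_lit 1100000], [nat_lit 24, nat_lit 40, nat_lit 80, nat_lit 80, nat_lit 33, nat_lit 227, nat_lit 0, nat_lit 10]⟩, ⟨p020_k31, nat_lit 0, nat_lit 0, nat_lit 0, nat_lit 0, nat_lit 0, [nat_lit 3282000000, nat_lit 4688000000], [], [nat_lit 20263376256, nat_lit 20654687021, nat_lit 21950485589, nat_lit 22420367355], nat_lit 0, nat_lit 0, nat_lit 0, nat_lit 0, nat_lit 0, nat_lit 0, [], [nat_lit 40, nat_lit 40, nat_lit 80, nat_lit 80]⟩,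
 zbF0, []⟩
noncomputable def p020_l118 : Lf2 := ⟨nat_lit 0, nat_lit 2, [nat_lit 10, nat_lit 5, nat_lit 5, nat_lit 20], false, nat_lit 0, nat_lit 0, nat_lit 0, nat_lit 0, ⟨nat_lit 1000, nat_lit 0, nat_lit 0, nat_lit 0, nat_lit 0, nat_lit 0, nat_lit 0, nat_lit 0, nat_lit 0, nat_lit 0, nat_lit 0, nat_lit 0, nat_lit 0, nat_lit 0, nat_lit 0, nat_lit 0, false, false⟩,
 nat_lit 0, nat_lit 8809, nat_lit 0, nat_lit 0, nat_lit 6606, nat_lit 4925, nat_lit 0, nat_lit 0, nat_lit 0, nat_lit 1238, nat_lit 0, nat_lit 0, nat_lit 0, nat_lit 0, nat_lit 0, nat_lit 0, nat_lit 0, nat_lit 0, [],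
 ⟨p020_k30, nat_lit 0, nat_lit 0, nat_lit 647, nat_lit 0, nat_lit 1479551, [nat_lit 2032000001, nat_lit 4688000000], [], [nat_lit 35561347105, nat_lit 35589755083, nat_lit 35884812264, nat_lit 35913239837], nat_lit 1271250, nat_lit 1271250, nat_lit 1271250, nat_lit 1271250, nat_lit 0, nat_lit 0, [nat_lit 490000, nat_lit 1100000], [nat_lit 24, nat_lit 40, nat_lit 80, nat_lit 80, nat_lit 33, nat_lit 232, nat_lit 0, nat_lit 10]⟩, ⟨p020_k35, nat_lit 0, nat_lit 0, nat_lit 0, nat_lit 0, nat_lit 0, [nat_lit 3282000000, nat_lit 4688000000], [], [nat_lit 20720090369, nat_lit 21108954450, nat_lit 22357811213, nat_lit 22825284000], nat_lit 0, nat_lit 0, nat_lit 0, nat_lit 0, nat_lit 0, nat_lit 0, [], [nat_lit 40, nat_lit 40, nat_lit 80, nat_lit 80]⟩,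
 zbF0, []⟩
noncomputable def b_N_800_700_0_11 : St := ⟨false, nat_lit 1, nat_lit 0, nat_lit 1, nat_lit 40, nat_lit 320, nat_lit 321, nat_lit 310, nat_lit 320, nat_lit 160, nat_lit 240, nat_lit 0, nat_lit 0, nat_lit 0, nat_lit 0, nat_lit 0, nat_lit 0, nat_lit 4, nat_lit 8, nat_lit 0, nat_lit 0, nat_lit 0, nat_lit 800⟩
theorem d_N_800_700_0_11 (h : EB TB.env) : Dead b_N_800_700_0_11 := chkB_sound0 h (T :=
(.spl (nat_lit 2) (nat_lit 200)
(.spl (nat_lit 1) (nat_lit 315)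
(.spl (nat_lit 1) (nat_lit 313)
(.leaf p020_l92)
(.spl (nat_lit 2) (nat_lit 180)
(.spl (nat_lit 2) (nat_lit 168)
(.spl (nat_lit 1) (nat_lit 314)
(.spl (nat_lit 2) (nat_lit 164)
(.spl (nat_lit 7) (nat_lit 600)
(.leaf p020_l93)
(.spl (nat_lit 7) (nat_lit 900)
(.leaf p020_l94)
(.spl (nat_lit 7) (nat_lit 1060)
(.leaf p020_l95)
(.spl (nat_lit 7) (nat_lit 1220)
(.leaf p020_l96)
(.leaf p020_l97)))))
(.leaf p020_l98))
(.spl (nat_lit 7) (nat_lit 600)
(.leaf p020_l99)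
(.spl (nat_lit 2) (nat_lit 164)
(.spl (nat_lit 7) (nat_lit 900)
(.leaf p020_l100)
(.spl (nat_lit 7) (nat_lit 1060)
(.leaf p020_l101)
(.spl (nat_lit 7) (nat_lit 1220)
(.leaf p020_l102)
(.leaf p020_l103))))
(.spl (nat_lit 7) (nat_lit 900)
(.leaf p020_l104)
(.spl (nat_lit 7) (nat_lit 1060)
(.leaf p020_l105)
(.leaf p020_l106))))))
(.spl (nat_lit 1) (nat_lit 314)
(.leaf p020_l107)
(.spl (nat_lit 2) (nat_lit 176)
(.spl (nat_lit 2) (nat_lit 172)
(.spl (nat_lit 7) (nat_lit 600)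
(.leaf p020_l108)
(.leaf p020_l109))
(.leaf p020_l110))
(.leaf p020_l111))))
(.leaf p020_l112)))
(.spl (nat_lit 7) (nat_lit 600)
(.leaf p020_l113)
(.spl (nat_lit 7) (nat_lit 900)
(.leaf p020_l114)
(.spl (nat_lit 7) (nat_lit 1060)
(.leaf p020_l115)
(.leaf p020_l116)))))
(.spl (nat_lit 1) (nat_lit 315)
(.leaf p020_l117)
(.leaf p020_l118)))) (by decide +kernel)
noncomputable def p020_l119 : Lf2 := ⟨nat_lit 0, nat_lit 2, [nat_lit 10, nat_lit 5, nat_lit 5, nat_lit 20], false, nat_lit 0, nat_lit 0, nat_lit 0, nat_lit 0, ⟨nat_lit 1000, nat_lit 0, nat_lit 0, nat_lit 0, nat_lit 0, nat_lit 0, nat_lit 0, nat_lit 0, nat_lit 0, nat_lit 0, nat_lit 0, nat_lit 0, nat_lit 0, nat_lit 0, nat_lit 0, nat_lit 0, false, false⟩,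
 nat_lit 0, nat_lit 10701, nat_lit 0, nat_lit 0, nat_lit 8057, nat_lit 5648, nat_lit 3810, nat_lit 0, nat_lit 0, nat_lit 579, nat_lit 0, nat_lit 0, nat_lit 0, nat_lit 0, nat_lit 0, nat_lit 0, nat_lit 0, nat_lit 0, [],
 ⟨p020_k36, nat_lit 0, nat_lit 0, nat_lit 632, nat_lit 0, nat_lit 1434365, [nat_lit 2032000001, nat_lit 4688000000], [], [nat_lit 23718251289, nat_lit 23753886058, nat_lit 27589588465, nat_lit 27729557570], nat_lit 1271250, nat_lit 1271250, nat_lit 1100001, nat_lit 1785000, nat_lit 0, nat_lit 0, [nat_lit 490000, nat_lit 1100000], [nat_lit 24, nat_lit 40, nat_lit 80, nat_lit 80, nat_lit 33, nat_lit 229, nat_lit 0, nat_lit 10]⟩, ⟨p020_k31, nat_lit 0, nat_lit 0, nat_lit 0, nat_lit 0, nat_lit 0, [nat_lit 3282000000, nat_lit 4688000000], [], [nat_lit 19257120104, nat_lit 19712879384, nat_lit 22878665688, nat_lit 23385722364], nat_lit 0, nat_lit 0, nat_lit 0, nat_lit 0, nat_lit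 0, nat_lit 0, [], [nat_lit 40, nat_lit 40, nat_lit 80, nat_lit 80]⟩,
 zbF0, []⟩
noncomputable def p020_l120 : Lf2 := ⟨nat_lit 0, nat_lit 2, [nat_lit 10, nat_lit 5, nat_lit 5, nat_lit 20], false, nat_lit 0, nat_lit 0, nat_lit 0, nat_lit 0, ⟨nat_lit 1000, nat_lit 0, nat_lit 0, nat_lit 0, nat_lit 0, nat_lit 0, nat_lit 0, nat_lit 0, nat_lit 0, nat_lit 0, nat_lit 0, nat_lit 0, nat_lit 0, nat_lit 0, nat_lit 0, nat_lit 0, false, false⟩,
 nat_lit 0, nat_lit 10803, nat_lit 0, nat_lit 0, nat_lit 8133, nat_lit 5023, nat_lit 3150, nat_lit 0, nat_lit 0, nat_lit 1305, nat_lit 0, nat_lit 0, nat_lit 0, nat_lit 0, nat_lit 0, nat_lit 0, nat_lit 0, nat_lit 0, [],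
 ⟨p020_k36, nat_lit 0, nat_lit 0, nat_lit 642, nat_lit 0, nat_lit 1451892, [nat_lit 2032000001, nat_lit 4688000000], [], [nat_lit 23822574474, nat_lit 23858349067, nat_lit 27702739219, nat_lit 27843646597], nat_lit 1271250, nat_lit 1271250, nat_lit 1100001, nat_lit 1785000, nat_lit 0, nat_lit 0, [nat_lit 490000, nat_lit 1100000], [nat_lit 24, nat_lit 40, nat_lit 80, nat_lit 80, nat_lit 33, nat_lit 231, nat_lit 0, nat_lit 10]⟩, ⟨p020_k35, nat_lit 0, nat_lit 0, nat_lit 0, nat_lit 0, nat_lit 0, [nat_lit 3282000000, nat_lit 4688000000], [], [nat_lit 19006754072, nat_lit 19177010435, nat_lit 22497140802, nat_lit 22686276097], nat_lit 0, nat_lit 0, nat_lit 0, nat_lit 0, nat_lit 0, nat_lit 0, [], [nat_lit 40, nat_lit 40, nat_lit 80, nat_lit 80]⟩,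
 zbF0, []⟩
noncomputable def p020_l121 : Lf2 := ⟨nat_lit 0, nat_lit 2, [nat_lit 10, nat_lit 5, nat_lit 5, nat_lit 20], false, nat_lit 0, nat_lit 0, nat_lit 0, nat_lit 0, ⟨nat_lit 1000, nat_lit 0, nat_lit 0, nat_lit 0, nat_lit 0, nat_lit 0, nat_lit 0, nat_lit 0, nat_lit 0, nat_lit 0, nat_lit 0, nat_lit 0, nat_lit 0, nat_lit 0, nat_lit 0, nat_lit 0, false, false⟩,
 nat_lit 0, nat_lit 8885, nat_lit 0, nat_lit 0, nat_lit 6689, nat_lit 5013, nat_lit 15589, nat_lit 0, nat_lit 0, nat_lit 1228, nat_lit 0, nat_lit 0, nat_lit 0, nat_lit 0, nat_lit 0, nat_lit 0, nat_lit 0, nat_lit 0, [],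
 ⟨p020_k36, nat_lit 0, nat_lit 0, nat_lit 645, nat_lit 0, nat_lit 1460687, [nat_lit 2032000001, nat_lit 4688000000], [], [nat_lit 21926711559, nat_lit 21957353444, nat_lit 25552874908, nat_lit 25675955095], nat_lit 1271250, nat_lit 1271250, nat_lit 1100001, nat_lit 1785000, nat_lit 0, nat_lit 0, [nat_lit 490000, nat_lit 1100000], [nat_lit 24, nat_lit 40, nat_lit 80, nat_lit 80, nat_lit 33, nat_lit 232, nat_lit 0, nat_lit 10]⟩, ⟨p020_k37, nat_lit 0, nat_lit 0, nat_lit 0, nat_lit 0, nat_lit 0, [nat_lit 3282000000, nat_lit 4688000000], [], [nat_lit 19192427139, nat_lit 19277397588, nat_lit 22671839794, nat_lit 22766297943], nat_lit 0, nat_lit 0, nat_lit 0, nat_lit 0, nat_lit 0, nat_lit 0, [], [nat_lit 40, nat_lit 40, nat_lit 80, nat_lit 80]⟩,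
 zbF0, []⟩
noncomputable def p020_l122 : Lf2 := ⟨nat_lit 0, nat_lit 2, [nat_lit 10, nat_lit 5, nat_lit 5, nat_lit 20], false, nat_lit 0, nat_lit 0, nat_lit 0, nat_lit 0, ⟨nat_lit 1000, nat_lit 0, nat_lit 0, nat_lit 0, nat_lit 0, nat_lit 0, nat_lit 0, nat_lit 0, nat_lit 0, nat_lit 0, nat_lit 0, nat_lit 0, nat_lit 0, nat_lit 0, nat_lit 0, nat_lit 0, false, false⟩,
 nat_lit 0, nat_lit 0, nat_lit 0, nat_lit 0, nat_lit 0, nat_lit 4980, nat_lit 29004, nat_lit 0, nat_lit 428, nat_lit 1195, nat_lit 0, nat_lit 0, nat_lit 0, nat_lit 0, nat_lit 0, nat_lit 0, nat_lit 0, nat_lit 0, [],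
 ⟨p020_k36, nat_lit 0, nat_lit 0, nat_lit 0, nat_lit 0, nat_lit 1478344, [nat_lit 2032000001, nat_lit 4688000000], [], [nat_lit 13099073100, nat_lit 13143426200, nat_lit 13348577770, nat_lit 13392545540], nat_lit 1271250, nat_lit 1271250, nat_lit 1100001, nat_lit 1167600, nat_lit 0, nat_lit 0, [nat_lit 490000, nat_lit 1100000], [nat_lit 24, nat_lit 40, nat_lit 80, nat_lit 80]⟩, ⟨p020_k38, nat_lit 0, nat_lit 0, nat_lit 0, nat_lit 0, nat_lit 0, [nat_lit 3282000000, nat_lit 4688000000], [], [nat_lit 19308870345, nat_lit 19489153280, nat_lit 19625883688, nat_lit 19803699304], nat_lit 0, nat_lit 0, nat_lit 0, nat_lit 0, nat_lit 0, nat_lit 0, [], [nat_lit 40, nat_lit 40, nat_lit 80, nat_lit 80]⟩,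
 zbF0, []⟩
noncomputable def p020_l123 : Lf2 := ⟨nat_lit 0, nat_lit 2, [nat_lit 10, nat_lit 5, nat_lit 5, nat_lit 20], false, nat_lit 0, nat_lit 0, nat_lit 0, nat_lit 0, ⟨nat_lit 1000, nat_lit 0, nat_lit 0, nat_lit 0, nat_lit 0, nat_lit 0, nat_lit 0, nat_lit 0, nat_lit 0, nat_lit 0, nat_lit 0, nat_lit 0, nat_lit 0, nat_lit 0, nat_lit 0, nat_lit 0, false, false⟩,
 nat_lit 0, nat_lit 0, nat_lit 0, nat_lit 0, nat_lit 0, nat_lit 0, nat_lit 0, nat_lit 0, nat_lit 459, nat_lit 648, nat_lit 0, nat_lit 0, nat_lit 0, nat_lit 0, nat_lit 0, nat_lit 0, nat_lit 0, nat_lit 0, [],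
 ⟨p020_k36, nat_lit 0, nat_lit 0, nat_lit 0, nat_lit 0, nat_lit 1469505, [nat_lit 2032000001, nat_lit 4688000000], [], [nat_lit 15171210900, nat_lit 15195565800, nat_lit 15250947155, nat_lit 15276584660], nat_lit 1271250, nat_lit 1271250, nat_lit 1100001, nat_lit 1133651, nat_lit 0, nat_lit 0, [nat_lit 490000, nat_lit 1100000], [nat_lit 24, nat_lit 40, nat_lit 80, nat_lit 80]⟩, ⟨p020_k38, nat_lit 0, nat_lit 0, nat_lit 0, nat_lit 0, nat_lit 0, [nat_lit 3282000000, nat_lit 4688000000], [], [nat_lit 25275548200, nat_lit 25311719600, nat_lit 25386560610, nat_lit 25422592405], nat_lit 0, nat_lit 0, nat_lit 0, nat_lit 0, nat_lit 0, nat_lit 0, [], [nat_lit 40, nat_lit 40, nat_lit 80, nat_lit 80]⟩,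
 zbF0, []⟩
noncomputable def p020_l124 : Lf2 := ⟨nat_lit 0, nat_lit 2, [nat_lit 10, nat_lit 5, nat_lit 5, nat_lit 20], false, nat_lit 0, nat_lit 0, nat_lit 0, nat_lit 0, ⟨nat_lit 1000, nat_lit 0, nat_lit 0, nat_lit 0, nat_lit 0, nat_lit 0, nat_lit 0, nat_lit 0, nat_lit 0, nat_lit 0, nat_lit 0, nat_lit 0, nat_lit 0, nat_lit 0, nat_lit 0, nat_lit 0, false, false⟩,
 nat_lit 0, nat_lit 9797, nat_lit 0, nat_lit 0, nat_lit 7376, nat_lit 5003, nat_lit 2834, nat_lit 0, nat_lit 0, nat_lit 1191, nat_lit 0, nat_lit 0, nat_lit 0, nat_lit 0, nat_lit 0, nat_lit 0, nat_lit 0, nat_lit 0, [],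
 ⟨p020_k39, nat_lit 0, nat_lit 0, nat_lit 649, nat_lit 0, nat_lit 1469505, [nat_lit 2032000001, nat_lit 3282000000, nat_lit 4688000000], [], [nat_lit 18847356650, nat_lit 18893225011, nat_lit 18908269466, nat_lit 18957659254], nat_lit 1271250, nat_lit 1271250, nat_lit 1100001, nat_lit 1133651, nat_lit 0, nat_lit 0, [nat_lit 490000, nat_lit 780000, nat_lit 1100000], [nat_lit 78, nat_lit 40, nat_lit 80, nat_lit 80, nat_lit 22, nat_lit 223, nat_lit 0, nat_lit 10]⟩, ⟨p020_k38, nat_lit 0, nat_lit 0, nat_lit 0, nat_lit 0, nat_lit 0, [nat_lit 3282000000, nat_lit 4688000000], [], [nat_lit 19293162723, nat_lit 19378035826, nat_lit 19445600316, nat_lit 19549478889], nat_lit 0, nat_lit 0, nat_lit 0, nat_lit 0, nat_lit 0, nat_lit 0, [], [nat_lit 40, nat_lit 40, nat_lit 80, nat_lit 80]⟩,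
 zbF0, []⟩
noncomputable def p020_l125 : Lf2 := ⟨nat_lit 0, nat_lit 2, [nat_lit 10, nat_lit 5, nat_lit 5, nat_lit 20], false, nat_lit 0, nat_lit 0, nat_lit 0, nat_lit 0, ⟨nat_lit 1000, nat_lit 0, nat_lit 0, nat_lit 0, nat_lit 0, nat_lit 0, nat_lit 0, nat_lit 0, nat_lit 0, nat_lit 0, nat_lit 0, nat_lit 0, nat_lit 0, nat_lit 0, nat_lit 0, nat_lit 0, false, false⟩,
 nat_lit 0, nat_lit 8925, nat_lit 0, nat_lit 0, nat_lit 6719, nat_lit 4996, nat_lit 21099, nat_lit 0, nat_lit 0, nat_lit 1186, nat_lit 0, nat_lit 0, nat_lit 0, nat_lit 0, nat_lit 0, nat_lit 0, nat_lit 0, nat_lit 0, [],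
 ⟨p020_k36, nat_lit 0, nat_lit 0, nat_lit 648, nat_lit 0, nat_lit 1469505, [nat_lit 2032000001, nat_lit 4688000000], [], [nat_lit 17237755737, nat_lit 17269379857, nat_lit 17273832989, nat_lit 17313440524], nat_lit 1271250, nat_lit 1271250, nat_lit 1133651, nat_lit 1167600, nat_lit 0, nat_lit 0, [nat_lit 490000, nat_lit 1100000], [nat_lit 24, nat_lit 40, nat_lit 80, nat_lit 80, nat_lit 33, nat_lit 224, nat_lit 0, nat_lit 10]⟩, ⟨p020_k38, nat_lit 0, nat_lit 0, nat_lit 0, nat_lit 0, nat_lit 0, [nat_lit 3282000000, nat_lit 4688000000], [], [nat_lit 19457966013, nat_lit 19542129746, nat_lit 19610978914, nat_lit 19713944841], nat_lit 0, nat_lit 0, nat_lit 0, nat_lit 0, nat_lit 0, nat_lit 0, [], [nat_lit 40, nat_lit 40, nat_lit 80, nat_lit 80]⟩,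
 zbF0, []⟩
noncomputable def p020_l126 : Lf2 := ⟨nat_lit 0, nat_lit 2, [nat_lit 10, nat_lit 5, nat_lit 5, nat_lit 20], false, nat_lit 0, nat_lit 0, nat_lit 0, nat_lit 0, ⟨nat_lit 1000, nat_lit 0, nat_lit 0, nat_lit 0, nat_lit 0, nat_lit 0, nat_lit 0, nat_lit 0, nat_lit 0, nat_lit 0, nat_lit 0, nat_lit 0, nat_lit 0, nat_lit 0, nat_lit 0, nat_lit 0, false, false⟩,
 nat_lit 0, nat_lit 0, nat_lit 0, nat_lit 0, nat_lit 0, nat_lit 0, nat_lit 0, nat_lit 0, nat_lit 459, nat_lit 589, nat_lit 0, nat_lit 0, nat_lit 0, nat_lit 0, nat_lit 0, nat_lit 0, nat_lit 0, nat_lit 0, [],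
 ⟨p020_k36, nat_lit 0, nat_lit 0, nat_lit 0, nat_lit 0, nat_lit 1478344, [nat_lit 2032000001, nat_lit 4688000000], [], [nat_lit 15171210900, nat_lit 15195565800, nat_lit 15250947155, nat_lit 15276584660], nat_lit 1271250, nat_lit 1271250, nat_lit 1100001, nat_lit 1133651, nat_lit 0, nat_lit 0, [nat_lit 490000, nat_lit 1100000], [nat_lit 24, nat_lit 40, nat_lit 80, nat_lit 80]⟩, ⟨p020_k40, nat_lit 0, nat_lit 0, nat_lit 0, nat_lit 0, nat_lit 0, [nat_lit 3282000000, nat_lit 4688000000], [], [nat_lit 25387550850, nat_lit 25423722250, nat_lit 25498423655, nat_lit 25534455450], nat_lit 0, nat_lit 0, nat_lit 0, nat_lit 0, nat_lit 0, nat_lit 0, [], [nat_lit 40, nat_lit 40, nat_lit 80, nat_lit 80]⟩,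
 zbF0, []⟩
noncomputable def p020_l127 : Lf2 := ⟨nat_lit 0, nat_lit 2, [nat_lit 10, nat_lit 5, nat_lit 5, nat_lit 20], false, nat_lit 0, nat_lit 0, nat_lit 0, nat_lit 0, ⟨nat_lit 1000, nat_lit 0, nat_lit 0, nat_lit 0, nat_lit 0, nat_lit 0, nat_lit 0, nat_lit 0, nat_lit 0, nat_lit 0, nat_lit 0, nat_lit 0, nat_lit 0, nat_lit 0, nat_lit 0, nat_lit 0, false, false⟩,
 nat_lit 0, nat_lit 9797, nat_lit 0, nat_lit 0, nat_lit 7376, nat_lit 4993, nat_lit 2876, nat_lit 0, nat_lit 0, nat_lit 1155, nat_lit 0, nat_lit 0, nat_lit 0, nat_lit 0, nat_lit 0, nat_lit 0, nat_lit 0, nat_lit 0, [],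
 ⟨p020_k39, nat_lit 0, nat_lit 0, nat_lit 653, nat_lit 0, nat_lit 1478344, [nat_lit 2032000001, nat_lit 3282000000, nat_lit 4688000000], [], [nat_lit 18828456650, nat_lit 18874325011, nat_lit 18889369466, nat_lit 18938759254], nat_lit 1271250, nat_lit 1271250, nat_lit 1100001, nat_lit 1133651, nat_lit 0, nat_lit 0, [nat_lit 490000, nat_lit 780000, nat_lit 1100000], [nat_lit 78, nat_lit 40, nat_lit 80, nat_lit 80, nat_lit 22, nat_lit 224, nat_lit 0, nat_lit 10]⟩, ⟨p020_k40, nat_lit 0, nat_lit 0, nat_lit 0, nat_lit 0, nat_lit 0, [nat_lit 3282000000, nat_lit 4688000000], [], [nat_lit 19391928616, nat_lit 19477085848, nat_lit 19544739033, nat_lit 19647874811], nat_lit 0, nat_lit 0, nat_lit 0, nat_lit 0, nat_lit 0, nat_lit 0, [], [nat_lit 40, nat_lit 40, nat_lit 80, nat_lit 80]⟩,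
 zbF0, []⟩
noncomputable def p020_l128 : Lf2 := ⟨nat_lit 0, nat_lit 2, [nat_lit 10, nat_lit 5, nat_lit 5, nat_lit 20], false, nat_lit 0, nat_lit 0, nat_lit 0, nat_lit 0, ⟨nat_lit 1000, nat_lit 0, nat_lit 0, nat_lit 0, nat_lit 0, nat_lit 0, nat_lit 0, nat_lit 0, nat_lit 0, nat_lit 0, nat_lit 0, nat_lit 0, nat_lit 0, nat_lit 0, nat_lit 0, nat_lit 0, false, false⟩,
 nat_lit 0, nat_lit 0, nat_lit 0, nat_lit 0, nat_lit 0, nat_lit 6194, nat_lit 9338, nat_lit 0, nat_lit 419, nat_lit 0, nat_lit 0, nat_lit 0, nat_lit 0, nat_lit 0, nat_lit 0, nat_lit 0, nat_lit 0, nat_lit 0, [],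
 ⟨p020_k36, nat_lit 0, nat_lit 0, nat_lit 0, nat_lit 0, nat_lit 1478344, [nat_lit 2032000001, nat_lit 4688000000], [], [nat_lit 13813028536, nat_lit 13843719021, nat_lit 13909557521, nat_lit 13940147191], nat_lit 1271250, nat_lit 1271250, nat_lit 1133651, nat_lit 1167600, nat_lit 0, nat_lit 0, [nat_lit 490000, nat_lit 1100000], [nat_lit 24, nat_lit 40, nat_lit 80, nat_lit 80]⟩, ⟨p020_k40, nat_lit 0, nat_lit 0, nat_lit 0, nat_lit 0, nat_lit 0, [nat_lit 3282000000, nat_lit 4688000000], [], [nat_lit 21113150800, nat_lit 21220669219, nat_lit 21281659343, nat_lit 21388303076], nat_lit 0, nat_lit 0, nat_lit 0, nat_lit 0, nat_lit 0, nat_lit 0, [], [nat_lit 40, nat_lit 40, nat_lit 80, nat_lit 80]⟩,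
 zbF0, [⟨nat_lit 13, nat_lit 100, nat_lit 1, nat_lit 100, nat_lit 54989968⟩]⟩
noncomputable def p020_l129 : Lf2 := ⟨nat_lit 0, nat_lit 2, [nat_lit 10, nat_lit 5, nat_lit 5, nat_lit 20], false, nat_lit 0, nat_lit 0, nat_lit 0, nat_lit 0, ⟨nat_lit 1000, nat_lit 0, nat_lit 0, nat_lit 0, nat_lit 0, nat_lit 0, nat_lit 0, nat_lit 0, nat_lit 0, nat_lit 0, nat_lit 0, nat_lit 0, nat_lit 0, nat_lit 0, nat_lit 0, nat_lit 0, false, false⟩,
 nat_lit 0, nat_lit 9776, nat_lit 0, nat_lit 0, nat_lit 7360, nat_lit 4986, nat_lit 2872, nat_lit 0, nat_lit 0, nat_lit 1150, nat_lit 0, nat_lit 0, nat_lit 0, nat_lit 0, nat_lit 0, nat_lit 0, nat_lit 0, nat_lit 0, [],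
 ⟨p020_k39, nat_lit 0, nat_lit 0, nat_lit 652, nat_lit 0, nat_lit 1478344, [nat_lit 2032000001, nat_lit 3282000000, nat_lit 4688000000], [], [nat_lit 18985741846, nat_lit 19031243939, nat_lit 19046599887, nat_lit 19095589805], nat_lit 1271250, nat_lit 1271250, nat_lit 1133651, nat_lit 1167600, nat_lit 0, nat_lit 0, [nat_lit 490000, nat_lit 780000, nat_lit 1100000], [nat_lit 78, nat_lit 40, nat_lit 80, nat_lit 80, nat_lit 22, nat_lit 225, nat_lit 0, nat_lit 10]⟩, ⟨p020_k40, nat_lit 0, nat_lit 0, nat_lit 0, nat_lit 0, nat_lit 0, [nat_lit 3282000000, nat_lit 4688000000], [], [nat_lit 19556213661, nat_lit 19640909205, nat_lit 19709264556, nat_lit 19811256236], nat_lit 0, nat_lit 0, nat_lit 0, nat_lit 0, nat_lit 0, nat_lit 0, [], [nat_lit 40, nat_lit 40, nat_lit 80, nat_lit 80]⟩,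
 zbF0, []⟩
noncomputable def p020_l130 : Lf2 := ⟨nat_lit 0, nat_lit 2, [nat_lit 10, nat_lit 5, nat_lit 5, nat_lit 20], false, nat_lit 0, nat_lit 0, nat_lit 0, nat_lit 0, ⟨nat_lit 1000, nat_lit 0, nat_lit 0, nat_lit 0, nat_lit 0, nat_lit 0, nat_lit 0, nat_lit 0, nat_lit 0, nat_lit 0, nat_lit 0, nat_lit 0, nat_lit 0, nat_lit 0, nat_lit 0, nat_lit 0, false, false⟩,
 nat_lit 0, nat_lit 8862, nat_lit 0, nat_lit 0, nat_lit 6672, nat_lit 4989, nat_lit 15368, nat_lit 0, nat_lit 0, nat_lit 1181, nat_lit 0, nat_lit 0, nat_lit 0, nat_lit 0, nat_lit 0, nat_lit 0, nat_lit 0, nat_lit 0, [],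
 ⟨p020_k36, nat_lit 0, nat_lit 0, nat_lit 647, nat_lit 0, nat_lit 1469505, [nat_lit 2032000001, nat_lit 4688000000], [], [nat_lit 22271170172, nat_lit 22301361327, nat_lit 22717344798, nat_lit 22857692244], nat_lit 1271250, nat_lit 1271250, nat_lit 1167600, nat_lit 1271250, nat_lit 0, nat_lit 0, [nat_lit 490000, nat_lit 1100000], [nat_lit 24, nat_lit 40, nat_lit 80, nat_lit 80, nat_lit 33, nat_lit 225, nat_lit 0, nat_lit 10]⟩, ⟨p020_k38, nat_lit 0, nat_lit 0, nat_lit 0, nat_lit 0, nat_lit 0, [nat_lit 3282000000, nat_lit 4688000000], [], [nat_lit 19622663597, nat_lit 19706501085, nat_lit 20117429311, nat_lit 20225017543], nat_lit 0, nat_lit 0, nat_lit 0, nat_lit 0, nat_lit 0, nat_lit 0, [], [nat_lit 40, nat_lit 40, nat_lit 80, nat_lit 80]⟩,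
 zbF0, []⟩
noncomputable def p020_l131 : Lf2 := ⟨nat_lit 0, nat_lit 2, [nat_lit 10, nat_lit 5, nat_lit 5, nat_lit 20], false, nat_lit 0, nat_lit 0, nat_lit 0, nat_lit 0, ⟨nat_lit 1000, nat_lit 0, nat_lit 0, nat_lit 0, nat_lit 0, nat_lit 0, nat_lit 0, nat_lit 0, nat_lit 0, nat_lit 0, nat_lit 0, nat_lit 0, nat_lit 0, nat_lit 0, nat_lit 0, nat_lit 0, false, false⟩,
 nat_lit 0, nat_lit 0, nat_lit 0, nat_lit 0, nat_lit 0, nat_lit 4973, nat_lit 29397, nat_lit 0, nat_lit 427, nat_lit 1148, nat_lit 0, nat_lit 0, nat_lit 0, nat_lit 0, nat_lit 0, nat_lit 0, nat_lit 0, nat_lit 0, [],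
 ⟨p020_k36, nat_lit 0, nat_lit 0, nat_lit 0, nat_lit 0, nat_lit 1478344, [nat_lit 2032000001, nat_lit 4688000000], [], [nat_lit 13348577770, nat_lit 13392545540, nat_lit 13473330105, nat_lit 13517105210], nat_lit 1271250, nat_lit 1271250, nat_lit 1167600, nat_lit 1201850, nat_lit 0, nat_lit 0, [nat_lit 490000, nat_lit 1100000], [nat_lit 24, nat_lit 40, nat_lit 80, nat_lit 80]⟩, ⟨p020_k40, nat_lit 0, nat_lit 0, nat_lit 0, nat_lit 0, nat_lit 0, [nat_lit 3282000000, nat_lit 4688000000], [], [nat_lit 19721239594, nat_lit 19810074661, nat_lit 19879139860, nat_lit 19967286427], nat_lit 0, nat_lit 0, nat_lit 0, nat_lit 0, nat_lit 0, nat_lit 0, [], [nat_lit 40, nat_lit 40, nat_lit 80, nat_lit 80]⟩,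
 zbF0, []⟩
noncomputable def p020_l132 : Lf2 := ⟨nat_lit 0, nat_lit 2, [nat_lit 10, nat_lit 5, nat_lit 5, nat_lit 20], false, nat_lit 0, nat_lit 0, nat_lit 0, nat_lit 0, ⟨nat_lit 1000, nat_lit 0, nat_lit 0, nat_lit 0, nat_lit 0, nat_lit 0, nat_lit 0, nat_lit 0, nat_lit 0, nat_lit 0, nat_lit 0, nat_lit 0, nat_lit 0, nat_lit 0, nat_lit 0, nat_lit 0, false, false⟩,
 nat_lit 0, nat_lit 8912, nat_lit 0, nat_lit 0, nat_lit 6709, nat_lit 4980, nat_lit 21039, nat_lit 0, nat_lit 0, nat_lit 1145, nat_lit 0, nat_lit 0, nat_lit 0, nat_lit 0, nat_lit 0, nat_lit 0, nat_lit 0, nat_lit 0, [],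
 ⟨p020_k36, nat_lit 0, nat_lit 0, nat_lit 650, nat_lit 0, nat_lit 1478344, [nat_lit 2032000001, nat_lit 4688000000], [], [nat_lit 17377151875, nat_lit 17408540481, nat_lit 17413193398, nat_lit 17452499455], nat_lit 1271250, nat_lit 1271250, nat_lit 1167600, nat_lit 1201850, nat_lit 0, nat_lit 0, [nat_lit 490000, nat_lit 1100000], [nat_lit 24, nat_lit 40, nat_lit 80, nat_lit 80, nat_lit 33, nat_lit 225, nat_lit 0, nat_lit 10]⟩, ⟨p020_k40, nat_lit 0, nat_lit 0, nat_lit 0, nat_lit 0, nat_lit 0, [nat_lit 3282000000, nat_lit 4688000000], [], [nat_lit 19719420340, nat_lit 19803699304, nat_lit 19872753768, nat_lit 19975818784], nat_lit 0, nat_lit 0, nat_lit 0, nat_lit 0, nat_lit 0, nat_lit 0, [], [nat_lit 40, nat_lit 40, nat_lit 80, nat_lit 80]⟩,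
 zbF0, []⟩
noncomputable def p020_l133 : Lf2 := ⟨nat_lit 0, nat_lit 2, [nat_lit 10, nat_lit 5, nat_lit 5, nat_lit 20], false, nat_lit 0, nat_lit 0, nat_lit 0, nat_lit 0, ⟨nat_lit 1000, nat_lit 0, nat_lit 0, nat_lit 0, nat_lit 0, nat_lit 0, nat_lit 0, nat_lit 0, nat_lit 0, nat_lit 0, nat_lit 0, nat_lit 0, nat_lit 0, nat_lit 0, nat_lit 0, nat_lit 0, false, false⟩,
 nat_lit 0, nat_lit 8850, nat_lit 0, nat_lit 0, nat_lit 6663, nat_lit 4973, nat_lit 15257, nat_lit 0, nat_lit 0, nat_lit 1139, nat_lit 0, nat_lit 0, nat_lit 0, nat_lit 0, nat_lit 0, nat_lit 0, nat_lit 0, nat_lit 0, [],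
 ⟨p020_k36, nat_lit 0, nat_lit 0, nat_lit 650, nat_lit 0, nat_lit 1478344, [nat_lit 2032000001, nat_lit 4688000000], [], [nat_lit 22447099741, nat_lit 22477065426, nat_lit 22517948348, nat_lit 22659328836], nat_lit 1271250, nat_lit 1271250, nat_lit 1201850, nat_lit 1236400, nat_lit 0, nat_lit 0, [nat_lit 490000, nat_lit 1100000], [nat_lit 24, nat_lit 40, nat_lit 80, nat_lit 80, nat_lit 33, nat_lit 225, nat_lit 0, nat_lit 10]⟩, ⟨p020_k40, nat_lit 0, nat_lit 0, nat_lit 0, nat_lit 0, nat_lit 0, [nat_lit 3282000000, nat_lit 4688000000], [], [nat_lit 19885372986, nat_lit 19968037297, nat_lit 20037040127, nat_lit 20138942964], nat_lit 0, nat_lit 0, nat_lit 0, nat_lit 0, nat_lit 0, nat_lit 0, [], [nat_lit 40, nat_lit 40, nat_lit 80, nat_lit 80]⟩,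
 zbF0, []⟩
noncomputable def p020_l134 : Lf2 := ⟨nat_lit 0, nat_lit 2, [nat_lit 10, nat_lit 5, nat_lit 5, nat_lit 20], false, nat_lit 0, nat_lit 0, nat_lit 0, nat_lit 0, ⟨nat_lit 1000, nat_lit 0, nat_lit 0, nat_lit 0, nat_lit 0, nat_lit 0, nat_lit 0, nat_lit 0, nat_lit 0, nat_lit 0, nat_lit 0, nat_lit 0, nat_lit 0, nat_lit 0, nat_lit 0, nat_lit 0, false, false⟩,
 nat_lit 0, nat_lit 8838, nat_lit 0, nat_lit 0, nat_lit 6654, nat_lit 4966, nat_lit 15147, nat_lit 0, nat_lit 0, nat_lit 1134, nat_lit 0, nat_lit 0, nat_lit 0, nat_lit 0, nat_lit 0, nat_lit 0, nat_lit 0, nat_lit 0, [],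
 ⟨p020_k36, nat_lit 0, nat_lit 0, nat_lit 649, nat_lit 0, nat_lit 1478344, [nat_lit 2032000001, nat_lit 4688000000], [], [nat_lit 22622312159, nat_lit 22652052826, nat_lit 22693079034, nat_lit 22833164903], nat_lit 1271250, nat_lit 1271250, nat_lit 1236400, nat_lit 1271250, nat_lit 0, nat_lit 0, [nat_lit 490000, nat_lit 1100000], [nat_lit 24, nat_lit 40, nat_lit 80, nat_lit 80, nat_lit 33, nat_lit 225, nat_lit 0, nat_lit 10]⟩, ⟨p020_k40, nat_lit 0, nat_lit 0, nat_lit 0, nat_lit 0, nat_lit 0, [nat_lit 3282000000, nat_lit 4688000000], [], [nat_lit 20049352581, nat_lit 20131312643, nat_lit 20201202475, nat_lit 20301933756], nat_lit 0, nat_lit 0, nat_lit 0, nat_lit 0, nat_lit 0, nat_lit 0, [], [nat_lit 40, nat_lit 40, nat_lit 80, nat_lit 80]⟩,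
 zbF0, []⟩
noncomputable def p020_l135 : Lf2 := ⟨nat_lit 0, nat_lit 2, [nat_lit 10, nat_lit 5, nat_lit 5, nat_lit 20], false, nat_lit 0, nat_lit 0, nat_lit 0, nat_lit 0, ⟨nat_lit 1000, nat_lit 0, nat_lit 0, nat_lit 0, nat_lit 0, nat_lit 0, nat_lit 0, nat_lit 0, nat_lit 0, nat_lit 0, nat_lit 0, nat_lit 0, nat_lit 0, nat_lit 0, nat_lit 0, nat_lit 0, false, false⟩,
 nat_lit 0, nat_lit 8827, nat_lit 0, nat_lit 0, nat_lit 6645, nat_lit 4959, nat_lit 15037, nat_lit 0, nat_lit 0, nat_lit 1162, nat_lit 0, nat_lit 0, nat_lit 0, nat_lit 0, nat_lit 0, nat_lit 0, nat_lit 0, nat_lit 0, [],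
 ⟨p020_k36, nat_lit 0, nat_lit 0, nat_lit 649, nat_lit 0, nat_lit 1478344, [nat_lit 2032000001, nat_lit 4688000000], [], [nat_lit 22797632424, nat_lit 22827148527, nat_lit 23616419627, nat_lit 23750568673], nat_lit 1271250, nat_lit 1271250, nat_lit 1271250, nat_lit 1271250, nat_lit 0, nat_lit 0, [nat_lit 490000, nat_lit 1100000], [nat_lit 24, nat_lit 40, nat_lit 80, nat_lit 80, nat_lit 33, nat_lit 228, nat_lit 0, nat_lit 10]⟩, ⟨p020_k38, nat_lit 0, nat_lit 0, nat_lit 0, nat_lit 0, nat_lit 0, [nat_lit 3282000000, nat_lit 4688000000], [], [nat_lit 20132033157, nat_lit 20294547594, nat_lit 20948054369, nat_lit 21153560636], nat_lit 0, nat_lit 0, nat_lit 0, nat_lit 0, nat_lit 0, nat_lit 0, [], [nat_lit 40, nat_lit 40, nat_lit 80, nat_lit 80]⟩,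
 zbF0, []⟩
noncomputable def p020_l136 : Lf2 := ⟨nat_lit 0, nat_lit 2, [nat_lit 10, nat_lit 5, nat_lit 5, nat_lit 20], false, nat_lit 0, nat_lit 0, nat_lit 0, nat_lit 0, ⟨nat_lit 1000, nat_lit 0, nat_lit 0, nat_lit 0, nat_lit 0, nat_lit 0, nat_lit 0, nat_lit 0, nat_lit 0, nat_lit 0, nat_lit 0, nat_lit 0, nat_lit 0, nat_lit 0, nat_lit 0, nat_lit 0, false, false⟩,
 nat_lit 0, nat_lit 8768, nat_lit 0, nat_lit 0, nat_lit 6601, nat_lit 4925, nat_lit 14489, nat_lit 0, nat_lit 0, nat_lit 1136, nat_lit 0, nat_lit 0, nat_lit 0, nat_lit 0, nat_lit 0, nat_lit 0, nat_lit 0, nat_lit 0, [],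
 ⟨p020_k36, nat_lit 0, nat_lit 0, nat_lit 646, nat_lit 0, nat_lit 1478344, [nat_lit 2032000001, nat_lit 4688000000], [], [nat_lit 23667889573, nat_lit 23696290961, nat_lit 25421858246, nat_lit 25543852012], nat_lit 1271250, nat_lit 1271250, nat_lit 1271250, nat_lit 1271250, nat_lit 0, nat_lit 0, [nat_lit 490000, nat_lit 1100000], [nat_lit 24, nat_lit 40, nat_lit 80, nat_lit 80, nat_lit 33, nat_lit 232, nat_lit 0, nat_lit 10]⟩, ⟨p020_k38, nat_lit 0, nat_lit 0, nat_lit 0, nat_lit 0, nat_lit 0, [nat_lit 3282000000, nat_lit 4688000000], [], [nat_lit 20952902568, nat_lit 21108448200, nat_lit 22638294886, nat_lit 22825284000], nat_lit 0, nat_lit 0, nat_lit 0, nat_lit 0, nat_lit 0, nat_lit 0, [], [nat_lit 40, nat_lit 40, nat_lit 80, nat_lit 80]⟩,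
 zbF0, []⟩
noncomputable def b_N_800_700_0_12 : St := ⟨false, nat_lit 1, nat_lit 0, nat_lit 1, nat_lit 40, nat_lit 321, nat_lit 322, nat_lit 310, nat_lit 320, nat_lit 160, nat_lit 240, nat_lit 0, nat_lit 0, nat_lit 0, nat_lit 0, nat_lit 0, nat_lit 0, nat_lit 4, nat_lit 8, nat_lit 0, nat_lit 0, nat_lit 0, nat_lit 800⟩
theorem d_N_800_700_0_12 (h : EB TB.env) : Dead b_N_800_700_0_12 := chkB_sound0 h (T :=
(.spl (nat_lit 1) (nat_lit 315)
(.leaf p020_l119)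
(.spl (nat_lit 1) (nat_lit 318)
(.spl (nat_lit 1) (nat_lit 317)
(.leaf p020_l120)
(.leaf p020_l121))
(.spl (nat_lit 2) (nat_lit 200)
(.spl (nat_lit 2) (nat_lit 180)
(.spl (nat_lit 2) (nat_lit 168)
(.spl (nat_lit 7) (nat_lit 600)
(.leaf p020_l122)
(.spl (nat_lit 1) (nat_lit 319)
(.spl (nat_lit 2) (nat_lit 164)
(.spl (nat_lit 7) (nat_lit 900)
(.leaf p020_l123)
(.leaf p020_l124))
(.leaf p020_l125))
(.spl (nat_lit 2) (nat_lit 164)
(.spl (nat_lit 7) (nat_lit 900)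
(.leaf p020_l126)
(.leaf p020_l127))
(.spl (nat_lit 7) (nat_lit 900)
(.leaf p020_l128)
(.leaf p020_l129)))))
(.spl (nat_lit 1) (nat_lit 319)
(.leaf p020_l130)
(.spl (nat_lit 2) (nat_lit 176)
(.spl (nat_lit 2) (nat_lit 172)
(.spl (nat_lit 7) (nat_lit 600)
(.leaf p020_l131)
(.leaf p020_l132))
(.leaf p020_l133))
(.leaf p020_l134))))
(.leaf p020_l135))
(.leaf p020_l136))))) (by decide +kernel)
noncomputable def p020_l137 : Lf2 := ⟨nat_lit 0, nat_lit 5, [nat_lit 4, nat_lit 5, nat_lit 5, nat_lit 20], false, nat_lit 0, nat_lit 0, nat_lit 0, nat_lit 0, ⟨nat_lit 1000, nat_lit 0, nat_lit 0, nat_lit 0, nat_lit 0, nat_lit 0, nat_lit 0, nat_lit 0, nat_lit 0, nat_lit 0, nat_lit 0, nat_lit 0, nat_lit 0, nat_lit 0, nat_lit 0, nat_lit 0, false, false⟩,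
 nat_lit 0, nat_lit 8840, nat_lit 0, nat_lit 0, nat_lit 6629, nat_lit 5119, nat_lit 473, nat_lit 0, nat_lit 0, nat_lit 2651, nat_lit 0, nat_lit 0, nat_lit 0, nat_lit 0, nat_lit 0, nat_lit 0, nat_lit 0, nat_lit 0, [],
 ⟨p020_k14, nat_lit 0, nat_lit 0, nat_lit 681, nat_lit 0, nat_lit 1378838, [nat_lit 2032000001, nat_lit 4688000000, nat_lit 6250000000], [], [nat_lit 32847918742, nat_lit 32950963870, nat_lit 33748703160, nat_lit 33852081818], nat_lit 1271250, nat_lit 1271250, nat_lit 1100001, nat_lit 1785000, nat_lit 0, nat_lit 0, [nat_lit 490000, nat_lit 1100000, nat_lit 1442500], [nat_lit 6, nat_lit 40, nat_lit 80, nat_lit 80, nat_lit 3, nat_lit 272, nat_lit 60, nat_lit 10]⟩, ⟨p020_k41, nat_lit 0, nat_lit 0, nat_lit 0, nat_lit 0, nat_lit 0, [nat_lit 3282000000, nat_lit 6250000000], [], [nat_lit 17702867509, nat_lit 18499574621, nat_lit 21199344358, nat_lit 22155532739], nat_lit 0, nat_lit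 0, nat_lit 0, nat_lit 0, nat_lit 0, nat_lit 0, [], [nat_lit 49, nat_lit 40, nat_lit 80, nat_lit 80]⟩,
 zbF0, []⟩
noncomputable def p020_l138 : Lf2 := ⟨nat_lit 0, nat_lit 5, [nat_lit 4, nat_lit 5, nat_lit 5, nat_lit 20], false, nat_lit 0, nat_lit 0, nat_lit 0, nat_lit 0, ⟨nat_lit 1000, nat_lit 0, nat_lit 0, nat_lit 0, nat_lit 0, nat_lit 0, nat_lit 0, nat_lit 0, nat_lit 0, nat_lit 0, nat_lit 0, nat_lit 0, nat_lit 0, nat_lit 0, nat_lit 0, nat_lit 0, false, false⟩,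
 nat_lit 0, nat_lit 8630, nat_lit 0, nat_lit 0, nat_lit 6548, nat_lit 8589, nat_lit 4243, nat_lit 0, nat_lit 0, nat_lit 0, nat_lit 0, nat_lit 0, nat_lit 0, nat_lit 0, nat_lit 0, nat_lit 0, nat_lit 0, nat_lit 0, [],
 ⟨p020_k42, nat_lit 0, nat_lit 0, nat_lit 596, nat_lit 0, nat_lit 1371088, [nat_lit 2032000001, nat_lit 4688000000], [], [nat_lit 22123551623, nat_lit 22199944745, nat_lit 25585629371, nat_lit 25828308258], nat_lit 1271250, nat_lit 1271250, nat_lit 1100001, nat_lit 1785000, nat_lit 0, nat_lit 0, [nat_lit 490000, nat_lit 1100000], [nat_lit 24, nat_lit 40, nat_lit 80, nat_lit 80, nat_lit 33, nat_lit 220, nat_lit 0, nat_lit 9]⟩, ⟨p020_k41, nat_lit 0, nat_lit 0, nat_lit 0, nat_lit 0, nat_lit 0, [nat_lit 3282000000, nat_lit 6250000000], [], [nat_lit 21619458320, nat_lit 22861218660, nat_lit 25562806898, nat_lit 26898956809], nat_lit 0, nat_lit 0, nat_lit 0, nat_lit 0, nat_lit 0,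 nat_lit 0, [], [nat_lit 49, nat_lit 40, nat_lit 80, nat_lit 80]⟩,
 zbF0, []⟩
noncomputable def p020_l139 : Lf2 := ⟨nat_lit 0, nat_lit 3, [nat_lit 45, nat_lit 5, nat_lit 5, nat_lit 20], false, nat_lit 0, nat_lit 0, nat_lit 0, nat_lit 0, ⟨nat_lit 1000, nat_lit 0, nat_lit 0, nat_lit 0, nat_lit 0, nat_lit 0, nat_lit 0, nat_lit 0, nat_lit 0, nat_lit 0, nat_lit 0, nat_lit 0, nat_lit 0, nat_lit 0, nat_lit 0, nat_lit 0, false, false⟩,
 nat_lit 0, nat_lit 11318, nat_lit 0, nat_lit 0, nat_lit 8488, nat_lit 5648, nat_lit 0, nat_lit 0, nat_lit 0, nat_lit 579, nat_lit 0, nat_lit 0, nat_lit 0, nat_lit 0, nat_lit 0, nat_lit 0, nat_lit 0, nat_lit 0, [],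
 ⟨p020_k0, nat_lit 0, nat_lit 0, nat_lit 606, nat_lit 0, nat_lit 1393967, [nat_lit 2032000001, nat_lit 4688000000], [], [nat_lit 24328807680, nat_lit 24401663125, nat_lit 28085982240, nat_lit 28376562444], nat_lit 1271250, nat_lit 1271250, nat_lit 1100001, nat_lit 1785000, nat_lit 0, nat_lit 0, [nat_lit 490000, nat_lit 1100000], [nat_lit 24, nat_lit 40, nat_lit 80, nat_lit 80, nat_lit 33, nat_lit 222, nat_lit 0, nat_lit 10]⟩, ⟨p020_k43, nat_lit 0, nat_lit 0, nat_lit 0, nat_lit 0, nat_lit 0, [nat_lit 3282000000, nat_lit 4688000000], [], [nat_lit 19257120104, nat_lit 19712879384, nat_lit 22878665688, nat_lit 23385722364], nat_lit 0, nat_lit 0, nat_lit 0, nat_lit 0, nat_lit 0, nat_lit 0, [], [nat_lit 40, nat_lit 40, nat_lit 80, nat_lit 80]⟩,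
 zbF0, []⟩
noncomputable def p020_l140 : Lf2 := ⟨nat_lit 0, nat_lit 3, [nat_lit 45, nat_lit 5, nat_lit 5, nat_lit 20], false, nat_lit 0, nat_lit 0, nat_lit 0, nat_lit 0, ⟨nat_lit 1000, nat_lit 0, nat_lit 0, nat_lit 0, nat_lit 0, nat_lit 0, nat_lit 0, nat_lit 0, nat_lit 0, nat_lit 0, nat_lit 0, nat_lit 0, nat_lit 0, nat_lit 0, nat_lit 0, nat_lit 0, false, false⟩,
 nat_lit 0, nat_lit 8710, nat_lit 0, nat_lit 0, nat_lit 6583, nat_lit 5648, nat_lit 5327, nat_lit 0, nat_lit 0, nat_lit 579, nat_lit 0, nat_lit 0, nat_lit 0, nat_lit 0, nat_lit 0, nat_lit 0, nat_lit 0, nat_lit 0, [],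
 ⟨p020_k44, nat_lit 0, nat_lit 0, nat_lit 601, nat_lit 0, nat_lit 1386141, [nat_lit 2032000001, nat_lit 4688000000], [], [nat_lit 21918465643, nat_lit 21958128769, nat_lit 25516830927, nat_lit 25638602470], nat_lit 1271250, nat_lit 1271250, nat_lit 1100001, nat_lit 1785000, nat_lit 0, nat_lit 0, [nat_lit 490000, nat_lit 1100000], [nat_lit 24, nat_lit 40, nat_lit 80, nat_lit 80, nat_lit 33, nat_lit 221, nat_lit 0, nat_lit 10]⟩, ⟨p020_k43, nat_lit 0, nat_lit 0, nat_lit 0, nat_lit 0, nat_lit 0, [nat_lit 3282000000, nat_lit 4688000000], [], [nat_lit 19257120104, nat_lit 19712879384, nat_lit 22878665688, nat_lit 23385722364], nat_lit 0, nat_lit 0, nat_lit 0, nat_lit 0, nat_lit 0, nat_lit 0, [], [nat_lit 40, nat_lit 40, nat_lit 80, nat_lit 80]⟩,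
 zbF0, []⟩
noncomputable def p020_l141 : Lf2 := ⟨nat_lit 0, nat_lit 4, [nat_lit 38, nat_lit 5, nat_lit 5, nat_lit 20], false, nat_lit 0, nat_lit 0, nat_lit 0, nat_lit 0, ⟨nat_lit 1000, nat_lit 0, nat_lit 0, nat_lit 0, nat_lit 0, nat_lit 0, nat_lit 0, nat_lit 0, nat_lit 0, nat_lit 0, nat_lit 0, nat_lit 0, nat_lit 0, nat_lit 0, nat_lit 0, nat_lit 0, false, false⟩,
 nat_lit 0, nat_lit 8840, nat_lit 0, nat_lit 0, nat_lit 6629, nat_lit 5043, nat_lit 0, nat_lit 0, nat_lit 0, nat_lit 1775, nat_lit 0, nat_lit 0, nat_lit 0, nat_lit 0, nat_lit 0, nat_lit 0, nat_lit 0, nat_lit 0, [],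
 ⟨p020_k10, nat_lit 0, nat_lit 0, nat_lit 591, nat_lit 0, nat_lit 1356324, [nat_lit 2032000001, nat_lit 4688000000], [], [nat_lit 32847918742, nat_lit 32950717700, nat_lit 33748703160, nat_lit 33852081818], nat_lit 1271250, nat_lit 1271250, nat_lit 1100001, nat_lit 1785000, nat_lit 0, nat_lit 0, [nat_lit 490000, nat_lit 1100000], [nat_lit 24, nat_lit 40, nat_lit 80, nat_lit 80, nat_lit 33, nat_lit 219, nat_lit 0, nat_lit 9]⟩, ⟨p020_k11, nat_lit 0, nat_lit 0, nat_lit 0, nat_lit 0, nat_lit 0, [nat_lit 3282000000, nat_lit 6250000000], [], [nat_lit 18580923237, nat_lit 18975946169, nat_lit 22051642183, nat_lit 22525575412], nat_lit 0, nat_lit 0, nat_lit 0, nat_lit 0, nat_lit 0, nat_lit 0, [], [nat_lit 49, nat_lit 40, nat_lit 80, nat_lit 80]⟩,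
 zbF0, []⟩
noncomputable def p020_l142 : Lf2 := ⟨nat_lit 0, nat_lit 3, [nat_lit 45, nat_lit 5, nat_lit 5, nat_lit 20], false, nat_lit 0, nat_lit 0, nat_lit 0, nat_lit 0, ⟨nat_lit 1000, nat_lit 0, nat_lit 0, nat_lit 0, nat_lit 0, nat_lit 0, nat_lit 0, nat_lit 0, nat_lit 0, nat_lit 0, nat_lit 0, nat_lit 0, nat_lit 0, nat_lit 0, nat_lit 0, nat_lit 0, false, false⟩,
 nat_lit 0, nat_lit 0, nat_lit 0, nat_lit 0, nat_lit 0, nat_lit 0, nat_lit 0, nat_lit 0, nat_lit 492, nat_lit 12739, nat_lit 0, nat_lit 0, nat_lit 0, nat_lit 0, nat_lit 0, nat_lit 0, nat_lit 0, nat_lit 0, [],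
 ⟨p020_k0, nat_lit 0, nat_lit 0, nat_lit 0, nat_lit 0, nat_lit 1437904, [nat_lit 2032000001, nat_lit 4688000000], [], [nat_lit 13170028000, nat_lit 13241303800, nat_lit 13717402000, nat_lit 13795243550], nat_lit 1271250, nat_lit 1271250, nat_lit 1100001, nat_lit 1271250, nat_lit 0, nat_lit 0, [nat_lit 490000, nat_lit 1100000], [nat_lit 24, nat_lit 40, nat_lit 80, nat_lit 80]⟩, ⟨p020_k1, nat_lit 0, nat_lit 0, nat_lit 0, nat_lit 0, nat_lit 0, [nat_lit 3282000000, nat_lit 4688000000], [], [nat_lit 23924630500, nat_lit 24111908000, nat_lit 24496858125, nat_lit 24680413000], nat_lit 0, nat_lit 0, nat_lit 0, nat_lit 0, nat_lit 0, nat_lit 0, [], [nat_lit 40, nat_lit 40, nat_lit 80, nat_lit 80]⟩,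
 zbF0, []⟩
noncomputable def p020_l143 : Lf2 := ⟨nat_lit 0, nat_lit 3, [nat_lit 45, nat_lit 5, nat_lit 5, nat_lit 20], false, nat_lit 0, nat_lit 0, nat_lit 0, nat_lit 0, ⟨nat_lit 1000, nat_lit 0, nat_lit 0, nat_lit 0, nat_lit 0, nat_lit 0, nat_lit 0, nat_lit 0, nat_lit 0, nat_lit 0, nat_lit 0, nat_lit 0, nat_lit 0, nat_lit 0, nat_lit 0, nat_lit 0, false, false⟩,
 nat_lit 0, nat_lit 12884, nat_lit 0, nat_lit 0, nat_lit 9662, nat_lit 5023, nat_lit 0, nat_lit 0, nat_lit 0, nat_lit 1305, nat_lit 0, nat_lit 0, nat_lit 0, nat_lit 0, nat_lit 0, nat_lit 0, nat_lit 0, nat_lit 0, [],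
 ⟨p020_k0, nat_lit 0, nat_lit 0, nat_lit 613, nat_lit 0, nat_lit 1404801, [nat_lit 2032000001, nat_lit 4688000000], [], [nat_lit 17527074320, nat_lit 17565661968, nat_lit 17994139624, nat_lit 18079574323], nat_lit 1271250, nat_lit 1271250, nat_lit 1100001, nat_lit 1271250, nat_lit 0, nat_lit 0, [nat_lit 490000, nat_lit 1100000], [nat_lit 24, nat_lit 40, nat_lit 80, nat_lit 80, nat_lit 33, nat_lit 216, nat_lit 0, nat_lit 9]⟩, ⟨p020_k1, nat_lit 0, nat_lit 0, nat_lit 0, nat_lit 0, nat_lit 0, [nat_lit 3282000000, nat_lit 4688000000], [], [nat_lit 19006754072, nat_lit 19177010435, nat_lit 19837784762, nat_lit 20053849665], nat_lit 0, nat_lit 0, nat_lit 0, nat_lit 0, nat_lit 0, nat_lit 0, [], [nat_lit 40, nat_lit 40, nat_lit 80, nat_lit 80]⟩,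
 zbF0, []⟩
noncomputable def p020_l144 : Lf2 := ⟨nat_lit 0, nat_lit 3, [nat_lit 45, nat_lit 5, nat_lit 5, nat_lit 20], false, nat_lit 0, nat_lit 0, nat_lit 0, nat_lit 0, ⟨nat_lit 1000, nat_lit 0, nat_lit 0, nat_lit 0, nat_lit 0, nat_lit 0, nat_lit 0, nat_lit 0, nat_lit 0, nat_lit 0, nat_lit 0, nat_lit 0, nat_lit 0, nat_lit 0, nat_lit 0, nat_lit 0, false, false⟩,
 nat_lit 0, nat_lit 0, nat_lit 0, nat_lit 0, nat_lit 0, nat_lit 78, nat_lit 0, nat_lit 0, nat_lit 460, nat_lit 1366, nat_lit 0, nat_lit 0, nat_lit 0, nat_lit 0, nat_lit 0, nat_lit 0, nat_lit 0, nat_lit 0, [],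
 ⟨p020_k0, nat_lit 0, nat_lit 0, nat_lit 0, nat_lit 0, nat_lit 1413590, [nat_lit 2032000001, nat_lit 4688000000], [], [nat_lit 15057912000, nat_lit 15084466400, nat_lit 15143627600, nat_lit 15170106130], nat_lit 1271250, nat_lit 1271250, nat_lit 1100001, nat_lit 1133651, nat_lit 0, nat_lit 0, [nat_lit 490000, nat_lit 1100000], [nat_lit 24, nat_lit 40, nat_lit 80, nat_lit 80]⟩, ⟨p020_k3, nat_lit 0, nat_lit 0, nat_lit 0, nat_lit 0, nat_lit 0, [nat_lit 3282000000, nat_lit 4688000000], [], [nat_lit 23925400081, nat_lit 23962937467, nat_lit 24039510054, nat_lit 24077635657], nat_lit 0, nat_lit 0, nat_lit 0, nat_lit 0, nat_lit 0, nat_lit 0, [], [nat_lit 40, nat_lit 40, nat_lit 80, nat_lit 80]⟩,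
 zbF0, []⟩
noncomputable def p020_l145 : Lf2 := ⟨nat_lit 0, nat_lit 3, [nat_lit 45, nat_lit 5, nat_lit 5, nat_lit 20], false, nat_lit 0, nat_lit 0, nat_lit 0, nat_lit 0, ⟨nat_lit 1000, nat_lit 0, nat_lit 0, nat_lit 0, nat_lit 0, nat_lit 0, nat_lit 0, nat_lit 0, nat_lit 0, nat_lit 0, nat_lit 0, nat_lit 0, nat_lit 0, nat_lit 0, nat_lit 0, nat_lit 0, false, false⟩,
 nat_lit 0, nat_lit 11784, nat_lit 0, nat_lit 0, nat_lit 8838, nat_lit 5013, nat_lit 750, nat_lit 0, nat_lit 0, nat_lit 1228, nat_lit 0, nat_lit 0, nat_lit 0, nat_lit 0, nat_lit 0, nat_lit 0, nat_lit 0, nat_lit 0, [],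
 ⟨p020_k9, nat_lit 0, nat_lit 0, nat_lit 617, nat_lit 0, nat_lit 1413590, [nat_lit 2032000001, nat_lit 3282000000, nat_lit 4688000000], [], [nat_lit 11809493374, nat_lit 11860919282, nat_lit 11877680548, nat_lit 11945206601], nat_lit 1271250, nat_lit 1271250, nat_lit 1100001, nat_lit 1133651, nat_lit 0, nat_lit 0, [nat_lit 490000, nat_lit 780000, nat_lit 1100000], [nat_lit 78, nat_lit 40, nat_lit 80, nat_lit 80, nat_lit 22, nat_lit 215, nat_lit 0, nat_lit 9]⟩, ⟨p020_k3, nat_lit 0, nat_lit 0, nat_lit 0, nat_lit 0, nat_lit 0, [nat_lit 3282000000, nat_lit 4688000000], [], [nat_lit 19192427139, nat_lit 19277397588, nat_lit 19346251597, nat_lit 19450810380], nat_lit 0, nat_lit 0, nat_lit 0, nat_lit 0, nat_lit 0, nat_lit 0, [], [nat_lit 40, nat_lit 40, nat_lit 80, nat_lit 80]⟩,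
 zbF0, []⟩
noncomputable def p020_l146 : Lf2 := ⟨nat_lit 0, nat_lit 3, [nat_lit 45, nat_lit 5, nat_lit 5, nat_lit 20], false, nat_lit 0, nat_lit 0, nat_lit 0, nat_lit 0, ⟨nat_lit 1000, nat_lit 0, nat_lit 0, nat_lit 0, nat_lit 0, nat_lit 0, nat_lit 0, nat_lit 0, nat_lit 0, nat_lit 0, nat_lit 0, nat_lit 0, nat_lit 0, nat_lit 0, nat_lit 0, nat_lit 0, false, false⟩,
 nat_lit 0, nat_lit 0, nat_lit 0, nat_lit 0, nat_lit 0, nat_lit 0, nat_lit 0, nat_lit 0, nat_lit 468, nat_lit 1400, nat_lit 0, nat_lit 0, nat_lit 0, nat_lit 0, nat_lit 0, nat_lit 0, nat_lit 0, nat_lit 0, [],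
 ⟨p020_k0, nat_lit 0, nat_lit 0, nat_lit 0, nat_lit 0, nat_lit 1413590, [nat_lit 2032000001, nat_lit 4688000000], [], [nat_lit 14503627600, nat_lit 14530106130, nat_lit 14590152000, nat_lit 14619090490], nat_lit 1271250, nat_lit 1271250, nat_lit 1133651, nat_lit 1167600, nat_lit 0, nat_lit 0, [nat_lit 490000, nat_lit 1100000], [nat_lit 24, nat_lit 40, nat_lit 80, nat_lit 80]⟩, ⟨p020_k3, nat_lit 0, nat_lit 0, nat_lit 0, nat_lit 0, nat_lit 0, [nat_lit 3282000000, nat_lit 4688000000], [], [nat_lit 24113689215, nat_lit 24150995810, nat_lit 24227836930, nat_lit 24264994620], nat_lit 0, nat_lit 0, nat_lit 0, nat_lit 0, nat_lit 0, nat_lit 0, [], [nat_lit 40, nat_lit 40, nat_lit 80, nat_lit 80]⟩,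
 zbF0, []⟩
noncomputable def p020_l147 : Lf2 := ⟨nat_lit 0, nat_lit 3, [nat_lit 45, nat_lit 5, nat_lit 5, nat_lit 20], false, nat_lit 0, nat_lit 0, nat_lit 0, nat_lit 0, ⟨nat_lit 1000, nat_lit 0, nat_lit 0, nat_lit 0, nat_lit 0, nat_lit 0, nat_lit 0, nat_lit 0, nat_lit 0, nat_lit 0, nat_lit 0, nat_lit 0, nat_lit 0, nat_lit 0, nat_lit 0, nat_lit 0, false, false⟩,
 nat_lit 0, nat_lit 11750, nat_lit 0, nat_lit 0, nat_lit 8812, nat_lit 5006, nat_lit 747, nat_lit 0, nat_lit 0, nat_lit 1223, nat_lit 0, nat_lit 0, nat_lit 0, nat_lit 0, nat_lit 0, nat_lit 0, nat_lit 0, nat_lit 0, [],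
 ⟨p020_k9, nat_lit 0, nat_lit 0, nat_lit 617, nat_lit 0, nat_lit 1413590, [nat_lit 2032000001, nat_lit 3282000000, nat_lit 4688000000], [], [nat_lit 12019243116, nat_lit 12070209167, nat_lit 12086924657, nat_lit 12153830318], nat_lit 1271250, nat_lit 1271250, nat_lit 1133651, nat_lit 1167600, nat_lit 0, nat_lit 0, [nat_lit 490000, nat_lit 780000, nat_lit 1100000], [nat_lit 78, nat_lit 40, nat_lit 80, nat_lit 80, nat_lit 22, nat_lit 216, nat_lit 0, nat_lit 9]⟩, ⟨p020_k3, nat_lit 0, nat_lit 0, nat_lit 0, nat_lit 0, nat_lit 0, [nat_lit 3282000000, nat_lit 4688000000], [], [nat_lit 19357766307, nat_lit 19442778772, nat_lit 19512485441, nat_lit 19616363679], nat_lit 0, nat_lit 0, nat_lit 0, nat_lit 0, nat_lit 0, nat_lit 0, [], [nat_lit 40, nat_lit 40, nat_lit 80, nat_lit 80]⟩,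
 zbF0, []⟩
noncomputable def p020_l148 : Lf2 := ⟨nat_lit 0, nat_lit 3, [nat_lit 45, nat_lit 5, nat_lit 5, nat_lit 20], false, nat_lit 0, nat_lit 0, nat_lit 0, nat_lit 0, ⟨nat_lit 1000, nat_lit 0, nat_lit 0, nat_lit 0, nat_lit 0, nat_lit 0, nat_lit 0, nat_lit 0, nat_lit 0, nat_lit 0, nat_lit 0, nat_lit 0, nat_lit 0, nat_lit 0, nat_lit 0, nat_lit 0, false, false⟩,
 nat_lit 0, nat_lit 12806, nat_lit 0, nat_lit 0, nat_lit 9604, nat_lit 4999, nat_lit 0, nat_lit 0, nat_lit 0, nat_lit 1217, nat_lit 0, nat_lit 0, nat_lit 0, nat_lit 0, nat_lit 0, nat_lit 0, nat_lit 0, nat_lit 0, [],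
 ⟨p020_k0, nat_lit 0, nat_lit 0, nat_lit 617, nat_lit 0, nat_lit 1413590, [nat_lit 2032000001, nat_lit 4688000000], [], [nat_lit 17894550594, nat_lit 17932414588, nat_lit 18155167808, nat_lit 18240261735], nat_lit 1271250, nat_lit 1271250, nat_lit 1167600, nat_lit 1271250, nat_lit 0, nat_lit 0, [nat_lit 490000, nat_lit 1100000], [nat_lit 24, nat_lit 40, nat_lit 80, nat_lit 80, nat_lit 33, nat_lit 217, nat_lit 0, nat_lit 9]⟩, ⟨p020_k3, nat_lit 0, nat_lit 0, nat_lit 0, nat_lit 0, nat_lit 0, [nat_lit 3282000000, nat_lit 4688000000], [], [nat_lit 19524763989, nat_lit 19608315096, nat_lit 20022784780, nat_lit 20130503665], nat_lit 0, nat_lit 0, nat_lit 0, nat_lit 0, nat_lit 0, nat_lit 0, [], [nat_lit 40, nat_lit 40, nat_lit 80, nat_lit 80]⟩,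
 zbF0, []⟩
noncomputable def p020_l149 : Lf2 := ⟨nat_lit 0, nat_lit 3, [nat_lit 45, nat_lit 5, nat_lit 5, nat_lit 20], false, nat_lit 0, nat_lit 0, nat_lit 0, nat_lit 0, ⟨nat_lit 1000, nat_lit 0, nat_lit 0, nat_lit 0, nat_lit 0, nat_lit 0, nat_lit 0, nat_lit 0, nat_lit 0, nat_lit 0, nat_lit 0, nat_lit 0, nat_lit 0, nat_lit 0, nat_lit 0, nat_lit 0, false, false⟩,
 nat_lit 0, nat_lit 12187, nat_lit 0, nat_lit 0, nat_lit 9175, nat_lit 5023, nat_lit 3440, nat_lit 0, nat_lit 0, nat_lit 1305, nat_lit 0, nat_lit 0, nat_lit 0, nat_lit 0, nat_lit 0, nat_lit 0, nat_lit 0, nat_lit 0, [],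
 ⟨p020_k4, nat_lit 0, nat_lit 0, nat_lit 613, nat_lit 0, nat_lit 1404081, [nat_lit 2032000001, nat_lit 4688000000], [], [nat_lit 17548268665, nat_lit 17585960330, nat_lit 18009794491, nat_lit 18092367882], nat_lit 1271250, nat_lit 1271250, nat_lit 1100001, nat_lit 1271250, nat_lit 0, nat_lit 0, [nat_lit 490000, nat_lit 1100000], [nat_lit 24, nat_lit 40, nat_lit 80, nat_lit 80, nat_lit 33, nat_lit 216, nat_lit 0, nat_lit 9]⟩, ⟨p020_k1, nat_lit 0, nat_lit 0, nat_lit 0, nat_lit 0, nat_lit 0, [nat_lit 3282000000, nat_lit 4688000000], [], [nat_lit 19006754072, nat_lit 19177010435, nat_lit 19837784762, nat_lit 20053849665], nat_lit 0, nat_lit 0, nat_lit 0, nat_lit 0, nat_lit 0, nat_lit 0, [], [nat_lit 40, nat_lit 40, nat_lit 80, nat_lit 80]⟩,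
 zbF0, []⟩
noncomputable def p020_l150 : Lf2 := ⟨nat_lit 0, nat_lit 3, [nat_lit 45, nat_lit 5, nat_lit 5, nat_lit 20], false, nat_lit 0, nat_lit 0, nat_lit 0, nat_lit 0, ⟨nat_lit 988, nat_lit 0, nat_lit 12, nat_lit 7, nat_lit 225, nat_lit 0, nat_lit 0, nat_lit 0, nat_lit 0, nat_lit 215, nat_lit 3324, nat_lit 225, nat_lit 50898442, nat_lit 0, nat_lit 0, nat_lit 2757251, false, false⟩,
 nat_lit 0, nat_lit 0, nat_lit 0, nat_lit 0, nat_lit 0, nat_lit 6164, nat_lit 6386, nat_lit 0, nat_lit 441, nat_lit 0, nat_lit 0, nat_lit 0, nat_lit 0, nat_lit 0, nat_lit 0, nat_lit 2100, nat_lit 0, nat_lit 0, [(nat_lit 18, [(nat_lit 3, nat_lit 12)])],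
 ⟨p020_k4, nat_lit 0, nat_lit 0, nat_lit 0, nat_lit 0, nat_lit 1412794, [nat_lit 2172448000, nat_lit 4631096000], [], [nat_lit 13374834800, nat_lit 13404229600, nat_lit 13468547240, nat_lit 13499913080], nat_lit 1271250, nat_lit 1271250, nat_lit 1100001, nat_lit 1133651, nat_lit 0, nat_lit 0, [nat_lit 490000, nat_lit 1100000], [nat_lit 24, nat_lit 40, nat_lit 80, nat_lit 80]⟩, ⟨p020_k3, nat_lit 0, nat_lit 0, nat_lit 0, nat_lit 0, nat_lit 0, [nat_lit 3242616000, nat_lit 4631744000], [], [nat_lit 20477960028, nat_lit 20585549597, nat_lit 20646556238, nat_lit 20753384879], nat_lit 0, nat_lit 0, nat_lit 0, nat_lit 0, nat_lit 0, nat_lit 0, [], [nat_lit 40, nat_lit 40, nat_lit 80, nat_lit 80]⟩,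
 ⟨nat_lit 4415, nat_lit 4445, ⟨.ofNat (nat_lit 558409), .ofNat (nat_lit 565189), .ofNat (nat_lit 559487), .ofNat (nat_lit 566268), .ofNat (nat_lit 558635), .ofNat (nat_lit 565398), .ofNat (nat_lit 559714), .ofNat (nat_lit 566477)⟩, ⟨.ofNat (nat_lit 0), .ofNat (nat_lit 0), .ofNat (nat_lit 0), .ofNat (nat_lit 0), .ofNat (nat_lit 0), .ofNat (nat_lit 0), .ofNat (nat_lit 0), .ofNat (nat_lit 0)⟩⟩, []⟩
noncomputable def p020_l151 : Lf2 := ⟨nat_lit 0, nat_lit 3, [nat_lit 45, nat_lit 5, nat_lit 5, nat_lit 20], false, nat_lit 0, nat_lit 0, nat_lit 0, nat_lit 0, ⟨nat_lit 1000, nat_lit 0, nat_lit 0, nat_lit 0, nat_lit 0, nat_lit 0, nat_lit 0, nat_lit 0, nat_lit 0, nat_lit 0, nat_lit 0, nat_lit 0, nat_lit 0, nat_lit 0, nat_lit 0, nat_lit 0, false, false⟩,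
 nat_lit 0, nat_lit 11634, nat_lit 0, nat_lit 0, nat_lit 8759, nat_lit 5013, nat_lit 750, nat_lit 0, nat_lit 0, nat_lit 1228, nat_lit 0, nat_lit 0, nat_lit 0, nat_lit 0, nat_lit 0, nat_lit 0, nat_lit 0, nat_lit 0, [],
 ⟨p020_k45, nat_lit 0, nat_lit 0, nat_lit 617, nat_lit 0, nat_lit 1412794, [nat_lit 2032000001, nat_lit 3282000000, nat_lit 4688000000], [], [nat_lit 11973464268, nat_lit 12024636404, nat_lit 12040266745, nat_lit 12107421094], nat_lit 1271250, nat_lit 1271250, nat_lit 1100001, nat_lit 1133651, nat_lit 0, nat_lit 0, [nat_lit 490000, nat_lit 780000, nat_lit 1100000], [nat_lit 78, nat_lit 40, nat_lit 80, nat_lit 80, nat_lit 22, nat_lit 215, nat_lit 0, nat_lit 9]⟩, ⟨p020_k3, nat_lit 0, nat_lit 0, nat_lit 0, nat_lit 0, nat_lit 0, [nat_lit 3282000000, nat_lit 4688000000], [], [nat_lit 19192427139, nat_lit 19277397588, nat_lit 19346251597, nat_lit 19450810380], nat_lit 0, nat_lit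 0, nat_lit 0, nat_lit 0, nat_lit 0, nat_lit 0, [], [nat_lit 40, nat_lit 40, nat_lit 80, nat_lit 80]⟩,
 zbF0, []⟩
noncomputable def p020_l152 : Lf2 := ⟨nat_lit 0, nat_lit 3, [nat_lit 45, nat_lit 5, nat_lit 5, nat_lit 20], false, nat_lit 0, nat_lit 0, nat_lit 0, nat_lit 0, ⟨nat_lit 1000, nat_lit 0, nat_lit 0, nat_lit 0, nat_lit 0, nat_lit 0, nat_lit 0, nat_lit 0, nat_lit 0, nat_lit 0, nat_lit 0, nat_lit 0, nat_lit 0, nat_lit 0, nat_lit 0, nat_lit 0, false, false⟩,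
 nat_lit 0, nat_lit 12138, nat_lit 0, nat_lit 0, nat_lit 9139, nat_lit 5006, nat_lit 3507, nat_lit 0, nat_lit 0, nat_lit 1223, nat_lit 0, nat_lit 0, nat_lit 0, nat_lit 0, nat_lit 0, nat_lit 0, nat_lit 0, nat_lit 0, [],
 ⟨p020_k4, nat_lit 0, nat_lit 0, nat_lit 617, nat_lit 0, nat_lit 1412794, [nat_lit 2032000001, nat_lit 4688000000], [], [nat_lit 17719545879, nat_lit 17756875493, nat_lit 17773988803, nat_lit 17858298209], nat_lit 1271250, nat_lit 1271250, nat_lit 1133651, nat_lit 1167600, nat_lit 0, nat_lit 0, [nat_lit 490000, nat_lit 1100000], [nat_lit 24, nat_lit 40, nat_lit 80, nat_lit 80, nat_lit 33, nat_lit 216, nat_lit 0, nat_lit 9]⟩, ⟨p020_k3, nat_lit 0, nat_lit 0, nat_lit 0, nat_lit 0, nat_lit 0, [nat_lit 3282000000, nat_lit 4688000000], [], [nat_lit 19357766307, nat_lit 19442778772, nat_lit 19512485441, nat_lit 19616363679], nat_lit 0, nat_lit 0, nat_lit 0, nat_lit 0, nat_lit 0,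 nat_lit 0, [], [nat_lit 40, nat_lit 40, nat_lit 80, nat_lit 80]⟩,
 zbF0, []⟩
noncomputable def p020_l153 : Lf2 := ⟨nat_lit 0, nat_lit 3, [nat_lit 45, nat_lit 5, nat_lit 5, nat_lit 20], false, nat_lit 0, nat_lit 0, nat_lit 0, nat_lit 0, ⟨nat_lit 1000, nat_lit 0, nat_lit 0, nat_lit 0, nat_lit 0, nat_lit 0, nat_lit 0, nat_lit 0, nat_lit 0, nat_lit 0, nat_lit 0, nat_lit 0, nat_lit 0, nat_lit 0, nat_lit 0, nat_lit 0, false, false⟩,
 nat_lit 0, nat_lit 12103, nat_lit 0, nat_lit 0, nat_lit 9112, nat_lit 4999, nat_lit 3498, nat_lit 0, nat_lit 0, nat_lit 1217, nat_lit 0, nat_lit 0, nat_lit 0, nat_lit 0, nat_lit 0, nat_lit 0, nat_lit 0, nat_lit 0, [],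
 ⟨p020_k4, nat_lit 0, nat_lit 0, nat_lit 617, nat_lit 0, nat_lit 1412794, [nat_lit 2032000001, nat_lit 4688000000], [], [nat_lit 17901702693, nat_lit 17938688284, nat_lit 18160409266, nat_lit 18242612508], nat_lit 1271250, nat_lit 1271250, nat_lit 1167600, nat_lit 1271250, nat_lit 0, nat_lit 0, [nat_lit 490000, nat_lit 1100000], [nat_lit 24, nat_lit 40, nat_lit 80, nat_lit 80, nat_lit 33, nat_lit 217, nat_lit 0, nat_lit 9]⟩, ⟨p020_k3, nat_lit 0, nat_lit 0, nat_lit 0, nat_lit 0, nat_lit 0, [nat_lit 3282000000, nat_lit 4688000000], [], [nat_lit 19524763989, nat_lit 19608315096, nat_lit 20022784780, nat_lit 20130503665], nat_lit 0, nat_lit 0, nat_lit 0, nat_lit 0, nat_lit 0, nat_lit 0, [], [nat_lit 40, nat_lit 40, nat_lit 80, nat_lit 80]⟩,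
 zbF0, []⟩
noncomputable def p020_l154 : Lf2 := ⟨nat_lit 0, nat_lit 3, [nat_lit 45, nat_lit 5, nat_lit 5, nat_lit 20], false, nat_lit 0, nat_lit 0, nat_lit 0, nat_lit 0, ⟨nat_lit 1000, nat_lit 0, nat_lit 0, nat_lit 0, nat_lit 0, nat_lit 0, nat_lit 0, nat_lit 0, nat_lit 0, nat_lit 0, nat_lit 0, nat_lit 0, nat_lit 0, nat_lit 0, nat_lit 0, nat_lit 0, false, false⟩,
 nat_lit 0, nat_lit 0, nat_lit 0, nat_lit 0, nat_lit 0, nat_lit 5, nat_lit 0, nat_lit 0, nat_lit 460, nat_lit 1330, nat_lit 0, nat_lit 0, nat_lit 0, nat_lit 0, nat_lit 0, nat_lit 0, nat_lit 0, nat_lit 0, [],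
 ⟨p020_k0, nat_lit 0, nat_lit 0, nat_lit 0, nat_lit 0, nat_lit 1437904, [nat_lit 2032000001, nat_lit 4688000000], [], [nat_lit 15057912000, nat_lit 15111020800, nat_lit 15486490000, nat_lit 15538840100], nat_lit 1271250, nat_lit 1271250, nat_lit 1100001, nat_lit 1271250, nat_lit 0, nat_lit 0, [nat_lit 490000, nat_lit 1100000], [nat_lit 24, nat_lit 40, nat_lit 80, nat_lit 80]⟩, ⟨p020_k7, nat_lit 0, nat_lit 0, nat_lit 0, nat_lit 0, nat_lit 0, [nat_lit 3282000000, nat_lit 4688000000], [], [nat_lit 24032298445, nat_lit 24107266680, nat_lit 24602467805, nat_lit 24675990415], nat_lit 0, nat_lit 0, nat_lit 0, nat_lit 0, nat_lit 0, nat_lit 0, [], [nat_lit 40, nat_lit 40, nat_lit 80, nat_lit 80]⟩,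
 zbF0, []⟩
noncomputable def p020_l155 : Lf2 := ⟨nat_lit 0, nat_lit 3, [nat_lit 45, nat_lit 5, nat_lit 5, nat_lit 20], false, nat_lit 0, nat_lit 0, nat_lit 0, nat_lit 0, ⟨nat_lit 1000, nat_lit 0, nat_lit 0, nat_lit 0, nat_lit 0, nat_lit 0, nat_lit 0, nat_lit 0, nat_lit 0, nat_lit 0, nat_lit 0, nat_lit 0, nat_lit 0, nat_lit 0, nat_lit 0, nat_lit 0, false, false⟩,
 nat_lit 0, nat_lit 9835, nat_lit 0, nat_lit 0, nat_lit 7376, nat_lit 4993, nat_lit 808, nat_lit 0, nat_lit 0, nat_lit 1189, nat_lit 0, nat_lit 0, nat_lit 0, nat_lit 0, nat_lit 0, nat_lit 0, nat_lit 0, nat_lit 0, [],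
 ⟨p020_k9, nat_lit 0, nat_lit 0, nat_lit 633, nat_lit 0, nat_lit 1437904, [nat_lit 2032000001, nat_lit 3282000000, nat_lit 4688000000], [], [nat_lit 20076788289, nat_lit 20168525011, nat_lit 20395543000, nat_lit 20491567423], nat_lit 1271250, nat_lit 1271250, nat_lit 1100001, nat_lit 1271250, nat_lit 0, nat_lit 0, [nat_lit 490000, nat_lit 780000, nat_lit 1100000], [nat_lit 78, nat_lit 40, nat_lit 80, nat_lit 80, nat_lit 22, nat_lit 221, nat_lit 0, nat_lit 10]⟩, ⟨p020_k7, nat_lit 0, nat_lit 0, nat_lit 0, nat_lit 0, nat_lit 0, [nat_lit 3282000000, nat_lit 4688000000], [], [nat_lit 19306780983, nat_lit 19477085848, nat_lit 20122659052, nat_lit 20337940038], nat_lit 0, nat_lit 0, nat_lit 0, nat_lit 0, nat_lit 0, nat_lit 0, [], [nat_lit 40, nat_lit 40, nat_lit 80, nat_lit 80]⟩,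
 zbF0, []⟩
noncomputable def p020_l156 : Lf2 := ⟨nat_lit 0, nat_lit 3, [nat_lit 45, nat_lit 5, nat_lit 5, nat_lit 20], false, nat_lit 0, nat_lit 0, nat_lit 0, nat_lit 0, ⟨nat_lit 1000, nat_lit 0, nat_lit 0, nat_lit 0, nat_lit 0, nat_lit 0, nat_lit 0, nat_lit 0, nat_lit 0, nat_lit 0, nat_lit 0, nat_lit 0, nat_lit 0, nat_lit 0, nat_lit 0, nat_lit 0, false, false⟩,
 nat_lit 0, nat_lit 11189, nat_lit 0, nat_lit 0, nat_lit 8391, nat_lit 4978, nat_lit 0, nat_lit 0, nat_lit 0, nat_lit 1273, nat_lit 0, nat_lit 0, nat_lit 0, nat_lit 0, nat_lit 0, nat_lit 0, nat_lit 0, nat_lit 0, [],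
 ⟨p020_k0, nat_lit 0, nat_lit 0, nat_lit 614, nat_lit 0, nat_lit 1413590, [nat_lit 2032000001, nat_lit 4688000000], [], [nat_lit 25003584771, nat_lit 25038456728, nat_lit 25893852764, nat_lit 26052102285], nat_lit 1271250, nat_lit 1271250, nat_lit 1271250, nat_lit 1271250, nat_lit 0, nat_lit 0, [nat_lit 490000, nat_lit 1100000], [nat_lit 24, nat_lit 40, nat_lit 80, nat_lit 80, nat_lit 33, nat_lit 219, nat_lit 0, nat_lit 9]⟩, ⟨p020_k1, nat_lit 0, nat_lit 0, nat_lit 0, nat_lit 0, nat_lit 0, [nat_lit 3282000000, nat_lit 4688000000], [], [nat_lit 19858892846, nat_lit 20103647582, nat_lit 20664863629, nat_lit 20973827559], nat_lit 0, nat_lit 0, nat_lit 0, nat_lit 0, nat_lit 0, nat_lit 0, [], [nat_lit 40, nat_lit 40, nat_lit 80, nat_lit 80]⟩,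
 zbF0, []⟩
noncomputable def p020_l157 : Lf2 := ⟨nat_lit 0, nat_lit 3, [nat_lit 45, nat_lit 5, nat_lit 5, nat_lit 20], false, nat_lit 0, nat_lit 0, nat_lit 0, nat_lit 0, ⟨nat_lit 1000, nat_lit 0, nat_lit 0, nat_lit 0, nat_lit 0, nat_lit 0, nat_lit 0, nat_lit 0, nat_lit 0, nat_lit 0, nat_lit 0, nat_lit 0, nat_lit 0, nat_lit 0, nat_lit 0, nat_lit 0, false, false⟩,
 nat_lit 0, nat_lit 11189, nat_lit 0, nat_lit 0, nat_lit 8391, nat_lit 4968, nat_lit 0, nat_lit 0, nat_lit 0, nat_lit 1165, nat_lit 0, nat_lit 0, nat_lit 0, nat_lit 0, nat_lit 0, nat_lit 0, nat_lit 0, nat_lit 0, [],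
 ⟨p020_k0, nat_lit 0, nat_lit 0, nat_lit 620, nat_lit 0, nat_lit 1422401, [nat_lit 2032000001, nat_lit 4688000000], [], [nat_lit 25003584771, nat_lit 25038456728, nat_lit 25893852764, nat_lit 26052102285], nat_lit 1271250, nat_lit 1271250, nat_lit 1271250, nat_lit 1271250, nat_lit 0, nat_lit 0, [nat_lit 490000, nat_lit 1100000], [nat_lit 24, nat_lit 40, nat_lit 80, nat_lit 80, nat_lit 33, nat_lit 221, nat_lit 0, nat_lit 9]⟩, ⟨p020_k7, nat_lit 0, nat_lit 0, nat_lit 0, nat_lit 0, nat_lit 0, [nat_lit 3282000000, nat_lit 4688000000], [], [nat_lit 20117937742, nat_lit 20199413309, nat_lit 20960262722, nat_lit 21063127097], nat_lit 0, nat_lit 0, nat_lit 0, nat_lit 0, nat_lit 0, nat_lit 0, [], [nat_lit 40, nat_lit 40, nat_lit 80, nat_lit 80]⟩,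
 zbF0, []⟩
noncomputable def p020_l158 : Lf2 := ⟨nat_lit 0, nat_lit 3, [nat_lit 45, nat_lit 5, nat_lit 5, nat_lit 20], false, nat_lit 0, nat_lit 0, nat_lit 0, nat_lit 0, ⟨nat_lit 1000, nat_lit 0, nat_lit 0, nat_lit 0, nat_lit 0, nat_lit 0, nat_lit 0, nat_lit 0, nat_lit 0, nat_lit 0, nat_lit 0, nat_lit 0, nat_lit 0, nat_lit 0, nat_lit 0, nat_lit 0, false, false⟩,
 nat_lit 0, nat_lit 11189, nat_lit 0, nat_lit 0, nat_lit 8391, nat_lit 4959, nat_lit 0, nat_lit 0, nat_lit 0, nat_lit 1129, nat_lit 0, nat_lit 0, nat_lit 0, nat_lit 0, nat_lit 0, nat_lit 0, nat_lit 0, nat_lit 0, [],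
 ⟨p020_k0, nat_lit 0, nat_lit 0, nat_lit 625, nat_lit 0, nat_lit 1431300, [nat_lit 2032000001, nat_lit 4688000000], [], [nat_lit 25003584771, nat_lit 25038456728, nat_lit 25893852764, nat_lit 26052102285], nat_lit 1271250, nat_lit 1271250, nat_lit 1271250, nat_lit 1271250, nat_lit 0, nat_lit 0, [nat_lit 490000, nat_lit 1100000], [nat_lit 24, nat_lit 40, nat_lit 80, nat_lit 80, nat_lit 33, nat_lit 222, nat_lit 0, nat_lit 9]⟩, ⟨p020_k8, nat_lit 0, nat_lit 0, nat_lit 0, nat_lit 0, nat_lit 0, [nat_lit 3282000000, nat_lit 4688000000], [], [nat_lit 20213227876, nat_lit 20294485094, nat_lit 21050807503, nat_lit 21153560636], nat_lit 0, nat_lit 0, nat_lit 0, nat_lit 0, nat_lit 0, nat_lit 0, [], [nat_lit 40, nat_lit 40, nat_lit 80, nat_lit 80]⟩,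
 zbF0, []⟩
noncomputable def p020_l159 : Lf2 := ⟨nat_lit 0, nat_lit 3, [nat_lit 45, nat_lit 5, nat_lit 5, nat_lit 20], false, nat_lit 0, nat_lit 0, nat_lit 0, nat_lit 0, ⟨nat_lit 1000, nat_lit 0, nat_lit 0, nat_lit 0, nat_lit 0, nat_lit 0, nat_lit 0, nat_lit 0, nat_lit 0, nat_lit 0, nat_lit 0, nat_lit 0, nat_lit 0, nat_lit 0, nat_lit 0, nat_lit 0, false, false⟩,
 nat_lit 0, nat_lit 10682, nat_lit 0, nat_lit 0, nat_lit 8042, nat_lit 4959, nat_lit 2878, nat_lit 0, nat_lit 0, nat_lit 1267, nat_lit 0, nat_lit 0, nat_lit 0, nat_lit 0, nat_lit 0, nat_lit 0, nat_lit 0, nat_lit 0, [],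
 ⟨p020_k4, nat_lit 0, nat_lit 0, nat_lit 625, nat_lit 0, nat_lit 1430416, [nat_lit 2032000001, nat_lit 4688000000], [], [nat_lit 24695326959, nat_lit 24729604315, nat_lit 25565244755, nat_lit 25718676941], nat_lit 1271250, nat_lit 1271250, nat_lit 1271250, nat_lit 1271250, nat_lit 0, nat_lit 0, [nat_lit 490000, nat_lit 1100000], [nat_lit 24, nat_lit 40, nat_lit 80, nat_lit 80, nat_lit 33, nat_lit 222, nat_lit 0, nat_lit 9]⟩, ⟨p020_k1, nat_lit 0, nat_lit 0, nat_lit 0, nat_lit 0, nat_lit 0, [nat_lit 3282000000, nat_lit 4688000000], [], [nat_lit 19887670877, nat_lit 20294093197, nat_lit 20663570898, nat_lit 21153560636], nat_lit 0, nat_lit 0, nat_lit 0, nat_lit 0, nat_lit 0, nat_lit 0, [], [nat_lit 40, nat_lit 40, nat_lit 80, nat_lit 80]⟩,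
 zbF0, []⟩
noncomputable def p020_l160 : Lf2 := ⟨nat_lit 0, nat_lit 3, [nat_lit 45, nat_lit 5, nat_lit 5, nat_lit 20], false, nat_lit 0, nat_lit 0, nat_lit 0, nat_lit 0, ⟨nat_lit 1000, nat_lit 0, nat_lit 0, nat_lit 0, nat_lit 0, nat_lit 0, nat_lit 0, nat_lit 0, nat_lit 0, nat_lit 0, nat_lit 0, nat_lit 0, nat_lit 0, nat_lit 0, nat_lit 0, nat_lit 0, false, false⟩,
 nat_lit 0, nat_lit 10997, nat_lit 0, nat_lit 0, nat_lit 8247, nat_lit 4925, nat_lit 0, nat_lit 0, nat_lit 0, nat_lit 1238, nat_lit 0, nat_lit 0, nat_lit 0, nat_lit 0, nat_lit 0, nat_lit 0, nat_lit 0, nat_lit 0, [],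
 ⟨p020_k0, nat_lit 0, nat_lit 0, nat_lit 626, nat_lit 0, nat_lit 1437904, [nat_lit 2032000001, nat_lit 4688000000], [], [nat_lit 25958778494, nat_lit 26025316314, nat_lit 27730150560, nat_lit 28014780136], nat_lit 1271250, nat_lit 1271250, nat_lit 1271250, nat_lit 1271250, nat_lit 0, nat_lit 0, [nat_lit 490000, nat_lit 1100000], [nat_lit 24, nat_lit 40, nat_lit 80, nat_lit 80, nat_lit 33, nat_lit 227, nat_lit 0, nat_lit 10]⟩, ⟨p020_k1, nat_lit 0, nat_lit 0, nat_lit 0, nat_lit 0, nat_lit 0, [nat_lit 3282000000, nat_lit 4688000000], [], [nat_lit 20720090369, nat_lit 21108954450, nat_lit 22357811213, nat_lit 22825284000], nat_lit 0, nat_lit 0, nat_lit 0, nat_lit 0, nat_lit 0, nat_lit 0, [], [nat_lit 40, nat_lit 40, nat_lit 80, nat_lit 80]⟩,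
 zbF0, []⟩
noncomputable def p020_l161 : Lf2 := ⟨nat_lit 0, nat_lit 4, [nat_lit 38, nat_lit 5, nat_lit 5, nat_lit 20], false, nat_lit 0, nat_lit 0, nat_lit 0, nat_lit 0, ⟨nat_lit 1000, nat_lit 0, nat_lit 0, nat_lit 0, nat_lit 0, nat_lit 0, nat_lit 0, nat_lit 0, nat_lit 0, nat_lit 0, nat_lit 0, nat_lit 0, nat_lit 0, nat_lit 0, nat_lit 0, nat_lit 0, false, false⟩,
 nat_lit 0, nat_lit 8856, nat_lit 0, nat_lit 0, nat_lit 6641, nat_lit 5614, nat_lit 0, nat_lit 0, nat_lit 0, nat_lit 487, nat_lit 0, nat_lit 0, nat_lit 0, nat_lit 0, nat_lit 0, nat_lit 0, nat_lit 0, nat_lit 0, [],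
 ⟨p020_k10, nat_lit 0, nat_lit 0, nat_lit 595, nat_lit 0, nat_lit 1369069, [nat_lit 2032000001, nat_lit 4688000000], [], [nat_lit 32775835462, nat_lit 32810125839, nat_lit 33686855640, nat_lit 33721338900], nat_lit 1271250, nat_lit 1271250, nat_lit 1100001, nat_lit 1785000, nat_lit 0, nat_lit 0, [nat_lit 490000, nat_lit 1100000], [nat_lit 24, nat_lit 40, nat_lit 80, nat_lit 80, nat_lit 33, nat_lit 219, nat_lit 0, nat_lit 9]⟩, ⟨p020_k12, nat_lit 0, nat_lit 0, nat_lit 0, nat_lit 0, nat_lit 0, [nat_lit 3282000000, nat_lit 4688000000], [], [nat_lit 19761743762, nat_lit 20034206411, nat_lit 23337383527, nat_lit 23640500643], nat_lit 0, nat_lit 0, nat_lit 0, nat_lit 0, nat_lit 0, nat_lit 0, [], [nat_lit 40, nat_lit 40, nat_lit 80, nat_lit 80]⟩,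
 zbF0, []⟩
noncomputable def p020_l162 : Lf2 := ⟨nat_lit 0, nat_lit 4, [nat_lit 38, nat_lit 5, nat_lit 5, nat_lit 20], false, nat_lit 0, nat_lit 0, nat_lit 0, nat_lit 0, ⟨nat_lit 1000, nat_lit 0, nat_lit 0, nat_lit 0, nat_lit 0, nat_lit 0, nat_lit 0, nat_lit 0, nat_lit 0, nat_lit 0, nat_lit 0, nat_lit 0, nat_lit 0, nat_lit 0, nat_lit 0, nat_lit 0, false, false⟩,
 nat_lit 0, nat_lit 8856, nat_lit 0, nat_lit 0, nat_lit 6641, nat_lit 5603, nat_lit 0, nat_lit 0, nat_lit 0, nat_lit 445, nat_lit 0, nat_lit 0, nat_lit 0, nat_lit 0, nat_lit 0, nat_lit 0, nat_lit 0, nat_lit 0, [],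
 ⟨p020_k10, nat_lit 0, nat_lit 0, nat_lit 598, nat_lit 0, nat_lit 1377866, [nat_lit 2032000001, nat_lit 4688000000], [], [nat_lit 32775835462, nat_lit 32810125839, nat_lit 33686855640, nat_lit 33721338900], nat_lit 1271250, nat_lit 1271250, nat_lit 1100001, nat_lit 1785000, nat_lit 0, nat_lit 0, [nat_lit 490000, nat_lit 1100000], [nat_lit 24, nat_lit 40, nat_lit 80, nat_lit 80, nat_lit 33, nat_lit 220, nat_lit 0, nat_lit 9]⟩, ⟨p020_k46, nat_lit 0, nat_lit 0, nat_lit 0, nat_lit 0, nat_lit 0, [nat_lit 3282000000, nat_lit 4688000000], [], [nat_lit 20048398373, nat_lit 20139267033, nat_lit 23624500261, nat_lit 23725418851], nat_lit 0, nat_lit 0, nat_lit 0, nat_lit 0, nat_lit 0, nat_lit 0, [], [nat_lit 40, nat_lit 40, nat_lit 80, nat_lit 80]⟩,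
 zbF0, []⟩
noncomputable def p020_l163 : Lf2 := ⟨nat_lit 0, nat_lit 4, [nat_lit 38, nat_lit 5, nat_lit 5, nat_lit 20], false, nat_lit 0, nat_lit 0, nat_lit 0, nat_lit 0, ⟨nat_lit 745, nat_lit 0, nat_lit 255, nat_lit 7, nat_lit 226, nat_lit 0, nat_lit 0, nat_lit 0, nat_lit 0, nat_lit 215, nat_lit 2025, nat_lit 224, nat_lit 50814039, nat_lit 0, nat_lit 0, nat_lit 2764479, false, false⟩,
 nat_lit 0, nat_lit 0, nat_lit 0, nat_lit 0, nat_lit 0, nat_lit 0, nat_lit 0, nat_lit 0, nat_lit 400, nat_lit 0, nat_lit 0, nat_lit 0, nat_lit 0, nat_lit 0, nat_lit 0, nat_lit 63750, nat_lit 0, nat_lit 0, [(nat_lit 18, [(nat_lit 4, nat_lit 255)])],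
 ⟨p020_k10, nat_lit 0, nat_lit 0, nat_lit 0, nat_lit 0, nat_lit 1386684, [nat_lit 1893688000, nat_lit 3440744000], [], [nat_lit 13768420000, nat_lit 13797539600, nat_lit 13864928000, nat_lit 13896941415], nat_lit 1271250, nat_lit 1271250, nat_lit 1100001, nat_lit 1133651, nat_lit 0, nat_lit 0, [nat_lit 490000, nat_lit 1100000], [nat_lit 24, nat_lit 40, nat_lit 80, nat_lit 80]⟩, ⟨p020_k47, nat_lit 0, nat_lit 0, nat_lit 0, nat_lit 0, nat_lit 0, [nat_lit 2445090000, nat_lit 3492560000], [], [nat_lit 19733742227, nat_lit 19760689920, nat_lit 19816342467, nat_lit 19843186154], nat_lit 0, nat_lit 0, nat_lit 0, nat_lit 0, nat_lit 0, nat_lit 0, [], [nat_lit 40, nat_lit 40, nat_lit 80, nat_lit 80]⟩,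
 ⟨nat_lit 4444, nat_lit 4473, ⟨.ofNat (nat_lit 560341), .ofNat (nat_lit 567139), .ofNat (nat_lit 561419), .ofNat (nat_lit 568217), .ofNat (nat_lit 560566), .ofNat (nat_lit 567347), .ofNat (nat_lit 561645), .ofNat (nat_lit 568426)⟩, ⟨.ofNat (nat_lit 0), .ofNat (nat_lit 0), .ofNat (nat_lit 0), .ofNat (nat_lit 0), .ofNat (nat_lit 0), .ofNat (nat_lit 0), .ofNat (nat_lit 0), .ofNat (nat_lit 0)⟩⟩, [⟨nat_lit 13, nat_lit 100, nat_lit 1, nat_lit 100, nat_lit 140263143⟩]⟩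
noncomputable def p020_l164 : Lf2 := ⟨nat_lit 0, nat_lit 4, [nat_lit 38, nat_lit 5, nat_lit 5, nat_lit 20], false, nat_lit 0, nat_lit 0, nat_lit 0, nat_lit 0, ⟨nat_lit 1000, nat_lit 0, nat_lit 0, nat_lit 0, nat_lit 0, nat_lit 0, nat_lit 0, nat_lit 0, nat_lit 0, nat_lit 0, nat_lit 0, nat_lit 0, nat_lit 0, nat_lit 0, nat_lit 0, nat_lit 0, false, false⟩,
 nat_lit 0, nat_lit 12884, nat_lit 0, nat_lit 0, nat_lit 9662, nat_lit 5591, nat_lit 0, nat_lit 0, nat_lit 0, nat_lit 430, nat_lit 0, nat_lit 0, nat_lit 0, nat_lit 0, nat_lit 0, nat_lit 0, nat_lit 0, nat_lit 0, [],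
 ⟨p020_k10, nat_lit 0, nat_lit 0, nat_lit 601, nat_lit 0, nat_lit 1386684, [nat_lit 2032000001, nat_lit 4688000000], [], [nat_lit 17527074320, nat_lit 17565661968, nat_lit 17578500617, nat_lit 17666659894], nat_lit 1271250, nat_lit 1271250, nat_lit 1100001, nat_lit 1133651, nat_lit 0, nat_lit 0, [nat_lit 490000, nat_lit 1100000], [nat_lit 24, nat_lit 40, nat_lit 80, nat_lit 80, nat_lit 33, nat_lit 211, nat_lit 0, nat_lit 9]⟩, ⟨p020_k47, nat_lit 0, nat_lit 0, nat_lit 0, nat_lit 0, nat_lit 0, [nat_lit 3282000000, nat_lit 4688000000], [], [nat_lit 20155370399, nat_lit 20245967388, nat_lit 20307896182, nat_lit 20422557260], nat_lit 0, nat_lit 0, nat_lit 0, nat_lit 0, nat_lit 0, nat_lit 0, [], [nat_lit 40, nat_lit 40, nat_lit 80, nat_lit 80]⟩,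
 zbF0, []⟩
noncomputable def p020_l165 : Lf2 := ⟨nat_lit 0, nat_lit 4, [nat_lit 38, nat_lit 5, nat_lit 5, nat_lit 20], false, nat_lit 0, nat_lit 0, nat_lit 0, nat_lit 0, ⟨nat_lit 1000, nat_lit 0, nat_lit 0, nat_lit 0, nat_lit 0, nat_lit 0, nat_lit 0, nat_lit 0, nat_lit 0, nat_lit 0, nat_lit 0, nat_lit 0, nat_lit 0, nat_lit 0, nat_lit 0, nat_lit 0, false, false⟩,
 nat_lit 0, nat_lit 8843, nat_lit 0, nat_lit 0, nat_lit 6632, nat_lit 5581, nat_lit 0, nat_lit 0, nat_lit 0, nat_lit 429, nat_lit 0, nat_lit 0, nat_lit 0, nat_lit 0, nat_lit 0, nat_lit 0, nat_lit 0, nat_lit 0, [],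
 ⟨p020_k10, nat_lit 0, nat_lit 0, nat_lit 600, nat_lit 0, nat_lit 1386684, [nat_lit 2032000001, nat_lit 4688000000], [], [nat_lit 32866506641, nat_lit 32900545050, nat_lit 32906702996, nat_lit 32946087054], nat_lit 1271250, nat_lit 1271250, nat_lit 1133651, nat_lit 1167600, nat_lit 0, nat_lit 0, [nat_lit 490000, nat_lit 1100000], [nat_lit 24, nat_lit 40, nat_lit 80, nat_lit 80, nat_lit 33, nat_lit 212, nat_lit 0, nat_lit 9]⟩, ⟨p020_k47, nat_lit 0, nat_lit 0, nat_lit 0, nat_lit 0, nat_lit 0, [nat_lit 3282000000, nat_lit 4688000000], [], [nat_lit 20319580097, nat_lit 20409602704, nat_lit 20472031380, nat_lit 20587721240], nat_lit 0, nat_lit 0, nat_lit 0, nat_lit 0, nat_lit 0, nat_lit 0, [], [nat_lit 40, nat_lit 40, nat_lit 80, nat_lit 80]⟩,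
 zbF0, []⟩
noncomputable def p020_l166 : Lf2 := ⟨nat_lit 0, nat_lit 4, [nat_lit 38, nat_lit 5, nat_lit 5, nat_lit 20], false, nat_lit 0, nat_lit 0, nat_lit 0, nat_lit 0, ⟨nat_lit 1000, nat_lit 0, nat_lit 0, nat_lit 0, nat_lit 0, nat_lit 0, nat_lit 0, nat_lit 0, nat_lit 0, nat_lit 0, nat_lit 0, nat_lit 0, nat_lit 0, nat_lit 0, nat_lit 0, nat_lit 0, false, false⟩,
 nat_lit 0, nat_lit 8830, nat_lit 0, nat_lit 0, nat_lit 6622, nat_lit 5570, nat_lit 0, nat_lit 0, nat_lit 0, nat_lit 428, nat_lit 0, nat_lit 0, nat_lit 0, nat_lit 0, nat_lit 0, nat_lit 0, nat_lit 0, nat_lit 0, [],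
 ⟨p020_k10, nat_lit 0, nat_lit 0, nat_lit 600, nat_lit 0, nat_lit 1386684, [nat_lit 2032000001, nat_lit 4688000000], [], [nat_lit 32963286635, nat_lit 32997071633, nat_lit 33095351696, nat_lit 33133891293], nat_lit 1271250, nat_lit 1271250, nat_lit 1167600, nat_lit 1271250, nat_lit 0, nat_lit 0, [nat_lit 490000, nat_lit 1100000], [nat_lit 24, nat_lit 40, nat_lit 80, nat_lit 80, nat_lit 33, nat_lit 213, nat_lit 0, nat_lit 9]⟩, ⟨p020_k47, nat_lit 0, nat_lit 0, nat_lit 0, nat_lit 0, nat_lit 0, [nat_lit 3282000000, nat_lit 4688000000], [], [nat_lit 20484614861, nat_lit 20573609704, nat_lit 20992228464, nat_lit 21107407620], nat_lit 0, nat_lit 0, nat_lit 0, nat_lit 0, nat_lit 0, nat_lit 0, [], [nat_lit 40, nat_lit 40, nat_lit 80, nat_lit 80]⟩,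
 zbF0, []⟩
noncomputable def p020_l167 : Lf2 := ⟨nat_lit 0, nat_lit 4, [nat_lit 38, nat_lit 5, nat_lit 5, nat_lit 20], false, nat_lit 0, nat_lit 0, nat_lit 0, nat_lit 0, ⟨nat_lit 1000, nat_lit 0, nat_lit 0, nat_lit 0, nat_lit 0, nat_lit 0, nat_lit 0, nat_lit 0, nat_lit 0, nat_lit 0, nat_lit 0, nat_lit 0, nat_lit 0, nat_lit 0, nat_lit 0, nat_lit 0, false, false⟩,
 nat_lit 0, nat_lit 8790, nat_lit 0, nat_lit 0, nat_lit 6592, nat_lit 5537, nat_lit 0, nat_lit 0, nat_lit 0, nat_lit 426, nat_lit 0, nat_lit 0, nat_lit 0, nat_lit 0, nat_lit 0, nat_lit 0, nat_lit 0, nat_lit 0, [],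
 ⟨p020_k10, nat_lit 0, nat_lit 0, nat_lit 599, nat_lit 0, nat_lit 1386684, [nat_lit 2032000001, nat_lit 4688000000], [], [nat_lit 33254237874, nat_lit 33287266003, nat_lit 33478485664, nat_lit 33515591484], nat_lit 1271250, nat_lit 1271250, nat_lit 1271250, nat_lit 1271250, nat_lit 0, nat_lit 0, [nat_lit 490000, nat_lit 1100000], [nat_lit 24, nat_lit 40, nat_lit 80, nat_lit 80, nat_lit 33, nat_lit 215, nat_lit 0, nat_lit 9]⟩, ⟨p020_k47, nat_lit 0, nat_lit 0, nat_lit 0, nat_lit 0, nat_lit 0, [nat_lit 3282000000, nat_lit 4688000000], [], [nat_lit 20976867003, nat_lit 21063460592, nat_lit 21841999248, nat_lit 21951896548], nat_lit 0, nat_lit 0, nat_lit 0, nat_lit 0, nat_lit 0, nat_lit 0, [], [nat_lit 40, nat_lit 40, nat_lit 80, nat_lit 80]⟩,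
 zbF0, []⟩
noncomputable def p020_l168 : Lf2 := ⟨nat_lit 0, nat_lit 4, [nat_lit 38, nat_lit 5, nat_lit 5, nat_lit 20], false, nat_lit 0, nat_lit 0, nat_lit 0, nat_lit 0, ⟨nat_lit 1000, nat_lit 0, nat_lit 0, nat_lit 0, nat_lit 0, nat_lit 0, nat_lit 0, nat_lit 0, nat_lit 0, nat_lit 0, nat_lit 0, nat_lit 0, nat_lit 0, nat_lit 0, nat_lit 0, nat_lit 0, false, false⟩,
 nat_lit 0, nat_lit 8725, nat_lit 0, nat_lit 0, nat_lit 6543, nat_lit 5483, nat_lit 0, nat_lit 0, nat_lit 0, nat_lit 422, nat_lit 0, nat_lit 0, nat_lit 0, nat_lit 0, nat_lit 0, nat_lit 0, nat_lit 0, nat_lit 0, [],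
 ⟨p020_k10, nat_lit 0, nat_lit 0, nat_lit 597, nat_lit 0, nat_lit 1386684, [nat_lit 2032000001, nat_lit 4688000000], [], [nat_lit 33735136248, nat_lit 33766915871, nat_lit 34191943720, nat_lit 34226233371], nat_lit 1271250, nat_lit 1271250, nat_lit 1271250, nat_lit 1271250, nat_lit 0, nat_lit 0, [nat_lit 490000, nat_lit 1100000], [nat_lit 24, nat_lit 40, nat_lit 80, nat_lit 80, nat_lit 33, nat_lit 220, nat_lit 0, nat_lit 9]⟩, ⟨p020_k47, nat_lit 0, nat_lit 0, nat_lit 0, nat_lit 0, nat_lit 0, [nat_lit 3282000000, nat_lit 4688000000], [], [nat_lit 21794340605, nat_lit 21877311532, nat_lit 23549555239, nat_lit 23649159840], nat_lit 0, nat_lit 0, nat_lit 0, nat_lit 0, nat_lit 0, nat_lit 0, [], [nat_lit 40, nat_lit 40, nat_lit 80, nat_lit 80]⟩,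
 zbF0, []⟩
noncomputable def p020_l169 : Lf2 := ⟨nat_lit 0, nat_lit 4, [nat_lit 38, nat_lit 5, nat_lit 5, nat_lit 20], false, nat_lit 0, nat_lit 0, nat_lit 0, nat_lit 0, ⟨nat_lit 1000, nat_lit 0, nat_lit 0, nat_lit 0, nat_lit 0, nat_lit 0, nat_lit 0, nat_lit 0, nat_lit 0, nat_lit 0, nat_lit 0, nat_lit 0, nat_lit 0, nat_lit 0, nat_lit 0, nat_lit 0, false, false⟩,
 nat_lit 0, nat_lit 8813, nat_lit 0, nat_lit 0, nat_lit 6635, nat_lit 5614, nat_lit 0, nat_lit 0, nat_lit 0, nat_lit 487, nat_lit 0, nat_lit 0, nat_lit 0, nat_lit 0, nat_lit 0, nat_lit 0, nat_lit 0, nat_lit 0, [],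
 ⟨p020_k48, nat_lit 0, nat_lit 0, nat_lit 595, nat_lit 0, nat_lit 1368572, [nat_lit 2032000001, nat_lit 4688000000], [], [nat_lit 32846155450, nat_lit 32880433798, nat_lit 33752250806, nat_lit 33786722213], nat_lit 1271250, nat_lit 1271250, nat_lit 1100001, nat_lit 1785000, nat_lit 0, nat_lit 0, [nat_lit 490000, nat_lit 1100000], [nat_lit 24, nat_lit 40, nat_lit 80, nat_lit 80, nat_lit 33, nat_lit 219, nat_lit 0, nat_lit 9]⟩, ⟨p020_k12, nat_lit 0, nat_lit 0, nat_lit 0, nat_lit 0, nat_lit 0, [nat_lit 3282000000, nat_lit 4688000000], [], [nat_lit 19761743762, nat_lit 20034206411, nat_lit 23337383527, nat_lit 23640500643], nat_lit 0, nat_lit 0, nat_lit 0, nat_lit 0, nat_lit 0, nat_lit 0, [], [nat_lit 40, nat_lit 40, nat_lit 80, nat_lit 80]⟩,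
 zbF0, []⟩
noncomputable def p020_l170 : Lf2 := ⟨nat_lit 0, nat_lit 4, [nat_lit 38, nat_lit 5, nat_lit 5, nat_lit 20], false, nat_lit 0, nat_lit 0, nat_lit 0, nat_lit 0, ⟨nat_lit 1000, nat_lit 0, nat_lit 0, nat_lit 0, nat_lit 0, nat_lit 0, nat_lit 0, nat_lit 0, nat_lit 0, nat_lit 0, nat_lit 0, nat_lit 0, nat_lit 0, nat_lit 0, nat_lit 0, nat_lit 0, false, false⟩,
 nat_lit 0, nat_lit 11286, nat_lit 0, nat_lit 0, nat_lit 8497, nat_lit 5591, nat_lit 0, nat_lit 0, nat_lit 0, nat_lit 442, nat_lit 0, nat_lit 0, nat_lit 0, nat_lit 0, nat_lit 0, nat_lit 0, nat_lit 0, nat_lit 0, [],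
 ⟨p020_k48, nat_lit 0, nat_lit 0, nat_lit 601, nat_lit 0, nat_lit 1386035, [nat_lit 2032000001, nat_lit 4688000000], [], [nat_lit 24313109201, nat_lit 24349553482, nat_lit 28244671773, nat_lit 28390072986], nat_lit 1271250, nat_lit 1271250, nat_lit 1100001, nat_lit 1785000, nat_lit 0, nat_lit 0, [nat_lit 490000, nat_lit 1100000], [nat_lit 24, nat_lit 40, nat_lit 80, nat_lit 80, nat_lit 33, nat_lit 221, nat_lit 0, nat_lit 10]⟩, ⟨p020_k46, nat_lit 0, nat_lit 0, nat_lit 0, nat_lit 0, nat_lit 0, [nat_lit 3282000000, nat_lit 4688000000], [], [nat_lit 20065829659, nat_lit 20247023638, nat_lit 23607045299, nat_lit 23808619680], nat_lit 0, nat_lit 0, nat_lit 0, nat_lit 0, nat_lit 0, nat_lit 0, [], [nat_lit 40, nat_lit 40, nat_lit 80, nat_lit 80]⟩,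
 zbF0, []⟩
noncomputable def p020_l171 : Lf2 := ⟨nat_lit 0, nat_lit 4, [nat_lit 38, nat_lit 5, nat_lit 5, nat_lit 20], false, nat_lit 0, nat_lit 0, nat_lit 0, nat_lit 0, ⟨nat_lit 1000, nat_lit 0, nat_lit 0, nat_lit 0, nat_lit 0, nat_lit 0, nat_lit 0, nat_lit 0, nat_lit 0, nat_lit 0, nat_lit 0, nat_lit 0, nat_lit 0, nat_lit 0, nat_lit 0, nat_lit 0, false, false⟩,
 nat_lit 0, nat_lit 8771, nat_lit 0, nat_lit 0, nat_lit 6629, nat_lit 5591, nat_lit 6324, nat_lit 0, nat_lit 0, nat_lit 482, nat_lit 0, nat_lit 0, nat_lit 0, nat_lit 0, nat_lit 0, nat_lit 0, nat_lit 0, nat_lit 0, [],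
 ⟨p020_k49, nat_lit 0, nat_lit 0, nat_lit 635, nat_lit 0, nat_lit 1438155, [nat_lit 2032000001, nat_lit 4688000000], [], [nat_lit 21987788881, nat_lit 22022055200, nat_lit 25585884811, nat_lit 25708224256], nat_lit 1271250, nat_lit 1271250, nat_lit 1100001, nat_lit 1785000, nat_lit 0, nat_lit 0, [nat_lit 490000, nat_lit 1100000], [nat_lit 24, nat_lit 40, nat_lit 80, nat_lit 80, nat_lit 33, nat_lit 230, nat_lit 0, nat_lit 10]⟩, ⟨p020_k12, nat_lit 0, nat_lit 0, nat_lit 0, nat_lit 0, nat_lit 0, [nat_lit 3282000000, nat_lit 4688000000], [], [nat_lit 19793713691, nat_lit 20246698638, nat_lit 23304683726, nat_lit 23808619680], nat_lit 0, nat_lit 0, nat_lit 0, nat_lit 0, nat_lit 0, nat_lit 0, [], [nat_lit 40, nat_lit 40, nat_lit 80, nat_lit 80]⟩,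
 zbF0, []⟩
noncomputable def p020_l172 : Lf2 := ⟨nat_lit 0, nat_lit 4, [nat_lit 38, nat_lit 5, nat_lit 5, nat_lit 20], false, nat_lit 0, nat_lit 0, nat_lit 0, nat_lit 0, ⟨nat_lit 1000, nat_lit 0, nat_lit 0, nat_lit 0, nat_lit 0, nat_lit 0, nat_lit 0, nat_lit 0, nat_lit 0, nat_lit 0, nat_lit 0, nat_lit 0, nat_lit 0, nat_lit 0, nat_lit 0, nat_lit 0, false, false⟩,
 nat_lit 0, nat_lit 8790, nat_lit 0, nat_lit 0, nat_lit 6669, nat_lit 4993, nat_lit 3416, nat_lit 0, nat_lit 0, nat_lit 1754, nat_lit 0, nat_lit 0, nat_lit 0, nat_lit 0, nat_lit 0, nat_lit 0, nat_lit 0, nat_lit 0, [],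
 ⟨p020_k50, nat_lit 0, nat_lit 0, nat_lit 639, nat_lit 0, nat_lit 1443796, [nat_lit 2032000001, nat_lit 4688000000], [], [nat_lit 22293571435, nat_lit 22367310659, nat_lit 25768764940, nat_lit 26014431487], nat_lit 1271250, nat_lit 1271250, nat_lit 1100001, nat_lit 1785000, nat_lit 0, nat_lit 0, [nat_lit 490000, nat_lit 1100000], [nat_lit 24, nat_lit 40, nat_lit 80, nat_lit 80, nat_lit 33, nat_lit 231, nat_lit 0, nat_lit 10]⟩, ⟨p020_k11, nat_lit 0, nat_lit 0, nat_lit 0, nat_lit 0, nat_lit 0, [nat_lit 3282000000, nat_lit 6250000000], [], [nat_lit 18692072162, nat_lit 19477735626, nat_lit 21983293133, nat_lit 22925684640], nat_lit 0, nat_lit 0, nat_lit 0, nat_lit 0, nat_lit 0, nat_lit 0, [], [nat_lit 49, nat_lit 40, nat_lit 80, nat_lit 80]⟩,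
 zbF0, []⟩
noncomputable def p020_l173 : Lf2 := ⟨nat_lit 0, nat_lit 5, [nat_lit 4, nat_lit 5, nat_lit 5, nat_lit 20], false, nat_lit 0, nat_lit 0, nat_lit 0, nat_lit 0, ⟨nat_lit 1000, nat_lit 0, nat_lit 0, nat_lit 0, nat_lit 0, nat_lit 0, nat_lit 0, nat_lit 0, nat_lit 0, nat_lit 0, nat_lit 0, nat_lit 0, nat_lit 0, nat_lit 0, nat_lit 0, nat_lit 0, false, false⟩,
 nat_lit 0, nat_lit 8840, nat_lit 0, nat_lit 0, nat_lit 6629, nat_lit 4993, nat_lit 473, nat_lit 0, nat_lit 0, nat_lit 1754, nat_lit 0, nat_lit 0, nat_lit 0, nat_lit 0, nat_lit 0, nat_lit 0, nat_lit 0, nat_lit 0, [],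
 ⟨p020_k14, nat_lit 0, nat_lit 0, nat_lit 673, nat_lit 0, nat_lit 1358120, [nat_lit 2032000001, nat_lit 4688000000, nat_lit 6250000000], [], [nat_lit 32847918742, nat_lit 32950963870, nat_lit 33748703160, nat_lit 33852081818], nat_lit 1271250, nat_lit 1271250, nat_lit 1100001, nat_lit 1785000, nat_lit 0, nat_lit 0, [nat_lit 490000, nat_lit 1100000, nat_lit 1442500], [nat_lit 6, nat_lit 40, nat_lit 80, nat_lit 80, nat_lit 3, nat_lit 272, nat_lit 60, nat_lit 10]⟩, ⟨p020_k15, nat_lit 0, nat_lit 0, nat_lit 0, nat_lit 0, nat_lit 0, [nat_lit 3282000000, nat_lit 6250000000], [], [nat_lit 18692072162, nat_lit 19477735626, nat_lit 21983293133, nat_lit 22925684640], nat_lit 0, nat_lit 0, nat_lit 0, nat_lit 0, nat_lit 0, nat_lit 0, [], [nat_lit 49, nat_lit 40, nat_lit 80, nat_lit 80]⟩,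
 zbF0, []⟩
noncomputable def p020_l174 : Lf2 := ⟨nat_lit 0, nat_lit 5, [nat_lit 4, nat_lit 5, nat_lit 5, nat_lit 20], false, nat_lit 0, nat_lit 0, nat_lit 0, nat_lit 0, ⟨nat_lit 1000, nat_lit 0, nat_lit 0, nat_lit 0, nat_lit 0, nat_lit 0, nat_lit 0, nat_lit 0, nat_lit 0, nat_lit 0, nat_lit 0, nat_lit 0, nat_lit 0, nat_lit 0, nat_lit 0, nat_lit 0, false, false⟩,
 nat_lit 0, nat_lit 8630, nat_lit 0, nat_lit 0, nat_lit 6548, nat_lit 5524, nat_lit 4243, nat_lit 0, nat_lit 0, nat_lit 1338, nat_lit 0, nat_lit 0, nat_lit 0, nat_lit 0, nat_lit 0, nat_lit 0, nat_lit 0, nat_lit 0, [],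
 ⟨p020_k42, nat_lit 0, nat_lit 0, nat_lit 589, nat_lit 0, nat_lit 1350195, [nat_lit 2032000001, nat_lit 4688000000], [], [nat_lit 22123551623, nat_lit 22199944745, nat_lit 25585629371, nat_lit 25828308258], nat_lit 1271250, nat_lit 1271250, nat_lit 1100001, nat_lit 1785000, nat_lit 0, nat_lit 0, [nat_lit 490000, nat_lit 1100000], [nat_lit 24, nat_lit 40, nat_lit 80, nat_lit 80, nat_lit 33, nat_lit 218, nat_lit 0, nat_lit 9]⟩, ⟨p020_k15, nat_lit 0, nat_lit 0, nat_lit 0, nat_lit 0, nat_lit 0, [nat_lit 3282000000, nat_lit 6250000000], [], [nat_lit 19326886766, nat_lit 20159091318, nat_lit 22709160044, nat_lit 23709695520], nat_lit 0, nat_lit 0, nat_lit 0, nat_lit 0, nat_lit 0, nat_lit 0, [], [nat_lit 49, nat_lit 40, nat_lit 80, nat_lit 80]⟩,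
 zbF0, []⟩
noncomputable def b_N_800_700_0_13 : St := ⟨false, nat_lit 1, nat_lit 0, nat_lit 1, nat_lit 40, nat_lit 320, nat_lit 325, nat_lit 300, nat_lit 320, nat_lit 160, nat_lit 240, nat_lit 0, nat_lit 0, nat_lit 0, nat_lit 0, nat_lit 0, nat_lit 0, nat_lit 8, nat_lit 20, nat_lit 0, nat_lit 0, nat_lit 0, nat_lit 800⟩
theorem d_N_800_700_0_13 (h : EB TB.env) : Dead b_N_800_700_0_13 := chkB_sound0 h (T :=
(.spl (nat_lit 1) (nat_lit 310)
(.spl (nat_lit 0) (nat_lit 323)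
(.leaf p020_l137)
(.leaf p020_l138))
(.spl (nat_lit 6) (nat_lit 16)
(.spl (nat_lit 0) (nat_lit 323)
(.spl (nat_lit 1) (nat_lit 315)
(.spl (nat_lit 6) (nat_lit 12)
(.spl (nat_lit 0) (nat_lit 322)
(.leaf p020_l139)
(.leaf p020_l140))
(.leaf p020_l141))
(.spl (nat_lit 0) (nat_lit 322)
(.spl (nat_lit 6) (nat_lit 12)
(.spl (nat_lit 2) (nat_lit 200)
(.spl (nat_lit 2) (nat_lit 180)
(.spl (nat_lit 7) (nat_lit 600)
(.leaf p020_l142)
(.spl (nat_lit 1) (nat_lit 318)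
(.spl (nat_lit 0) (nat_lit 321)
(.spl (nat_lit 1) (nat_lit 317)
(.leaf p020_l143)
(.spl (nat_lit 2) (nat_lit 168)
(.spl (nat_lit 2) (nat_lit 164)
(.spl (nat_lit 7) (nat_lit 900)
(.leaf p020_l144)
(.leaf p020_l145))
(.spl (nat_lit 7) (nat_lit 900)
(.leaf p020_l146)
(.leaf p020_l147)))
(.leaf p020_l148)))
(.spl (nat_lit 1) (nat_lit 317)
(.leaf p020_l149)
(.spl (nat_lit 2) (nat_lit 168)
(.spl (nat_lit 2) (nat_lit 164)
(.spl (nat_lit 7) (nat_lit 900)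
(.leaf p020_l150)
(.leaf p020_l151))
(.leaf p020_l152))
(.leaf p020_l153))))
(.spl (nat_lit 7) (nat_lit 900)
(.leaf p020_l154)
(.leaf p020_l155))))
(.spl (nat_lit 0) (nat_lit 321)
(.spl (nat_lit 1) (nat_lit 318)
(.leaf p020_l156)
(.spl (nat_lit 1) (nat_lit 319)
(.leaf p020_l157)
(.leaf p020_l158)))
(.leaf p020_l159)))
(.leaf p020_l160))
(.spl (nat_lit 0) (nat_lit 321)
(.spl (nat_lit 1) (nat_lit 318)
(.leaf p020_l161)
(.spl (nat_lit 1) (nat_lit 319)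
(.leaf p020_l162)
(.spl (nat_lit 2) (nat_lit 200)
(.spl (nat_lit 2) (nat_lit 180)
(.spl (nat_lit 2) (nat_lit 168)
(.spl (nat_lit 2) (nat_lit 164)
(.spl (nat_lit 7) (nat_lit 600)
(.leaf p020_l163)
(.leaf p020_l164))
(.leaf p020_l165))
(.leaf p020_l166))
(.leaf p020_l167))
(.leaf p020_l168))))
(.spl (nat_lit 1) (nat_lit 318)
(.leaf p020_l169)
(.leaf p020_l170))))
(.leaf p020_l171)))
(.leaf p020_l172))
(.spl (nat_lit 0) (nat_lit 323)
(.leaf p020_l173)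
(.leaf p020_l174))))) (by decide +kernel)
noncomputable def p020_l175 : Lf2 := ⟨nat_lit 0, nat_lit 10, [nat_lit 0, nat_lit 5, nat_lit 5, nat_lit 20], false, nat_lit 0, nat_lit 0, nat_lit 0, nat_lit 0, ⟨nat_lit 1000, nat_lit 0, nat_lit 0, nat_lit 0, nat_lit 0, nat_lit 0, nat_lit 0, nat_lit 0, nat_lit 0, nat_lit 0, nat_lit 0, nat_lit 0, nat_lit 0, nat_lit 0, nat_lit 0, nat_lit 0, false, false⟩,
 nat_lit 0, nat_lit 8585, nat_lit 0, nat_lit 0, nat_lit 6438, nat_lit 5840, nat_lit 520, nat_lit 0, nat_lit 0, nat_lit 1389, nat_lit 0, nat_lit 0, nat_lit 0, nat_lit 0, nat_lit 0, nat_lit 0, nat_lit 0, nat_lit 0, [],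
 ⟨p020_k51, nat_lit 0, nat_lit 0, nat_lit 599, nat_lit 0, nat_lit 1120369, [nat_lit 2032000001, nat_lit 4688000000, nat_lit 6250000000], [], [nat_lit 31422951232, nat_lit 31645806506, nat_lit 31379231026, nat_lit 31583848118], nat_lit 1271250, nat_lit 1271250, nat_lit 631250, nat_lit 1100001, nat_lit 0, nat_lit 0, [nat_lit 490000, nat_lit 1100000, nat_lit 1442500], [nat_lit 6, nat_lit 40, nat_lit 80, nat_lit 80, nat_lit 3, nat_lit 249, nat_lit 40, nat_lit 9]⟩, ⟨p020_k52, nat_lit 0, nat_lit 0, nat_lit 0, nat_lit 0, nat_lit 0, [nat_lit 3282000000, nat_lit 6250000000, nat_lit 9842000000], [], [nat_lit 19717709225, nat_lit 20575400675, nat_lit 20222485600, nat_lit 21082386920], nat_lit 0, nat_lit 0, nat_lit 0, nat_lit 0, nat_lit 0, nat_lit 0, [], [nat_lit 8, nat_lit 40, nat_lit 80, nat_lit 80]⟩,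
 zbF0, [⟨nat_lit 0, nat_lit 98, nat_lit 86, nat_lit 100, nat_lit 593280414⟩]⟩
noncomputable def p020_l176 : Lf2 := ⟨nat_lit 0, nat_lit 10, [nat_lit 0, nat_lit 5, nat_lit 5, nat_lit 20], false, nat_lit 0, nat_lit 0, nat_lit 0, nat_lit 0, ⟨nat_lit 1000, nat_lit 0, nat_lit 0, nat_lit 0, nat_lit 0, nat_lit 0, nat_lit 0, nat_lit 0, nat_lit 0, nat_lit 0, nat_lit 0, nat_lit 0, nat_lit 0, nat_lit 0, nat_lit 0, nat_lit 0, false, false⟩,
 nat_lit 0, nat_lit 9475, nat_lit 0, nat_lit 0, nat_lit 7245, nat_lit 5840, nat_lit 1123, nat_lit 0, nat_lit 0, nat_lit 1385, nat_lit 0, nat_lit 0, nat_lit 0, nat_lit 0, nat_lit 0, nat_lit 0, nat_lit 0, nat_lit 0, [],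
 ⟨p020_k53, nat_lit 0, nat_lit 0, nat_lit 603, nat_lit 0, nat_lit 1128709, [nat_lit 2032000001, nat_lit 4688000000, nat_lit 6250000000], [], [nat_lit 24217799057, nat_lit 24491667326, nat_lit 24062282978, nat_lit 24314318955], nat_lit 1271250, nat_lit 1271250, nat_lit 660400, nat_lit 1100001, nat_lit 0, nat_lit 0, [nat_lit 490000, nat_lit 1100000, nat_lit 1442500], [nat_lit 6, nat_lit 40, nat_lit 80, nat_lit 80, nat_lit 3, nat_lit 249, nat_lit 40, nat_lit 9]⟩, ⟨p020_k52, nat_lit 0, nat_lit 0, nat_lit 0, nat_lit 0, nat_lit 0, [nat_lit 3282000000, nat_lit 6250000000, nat_lit 9842000000], [], [nat_lit 19753129485, nat_lit 20607477388, nat_lit 20222485600, nat_lit 21082386920], nat_lit 0, nat_lit 0, nat_lit 0, nat_lit 0, nat_lit 0, nat_lit 0, [], [nat_lit 8, nat_lit 40, nat_lit 80, nat_lit 80]⟩,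
 zbF0, [⟨nat_lit 0, nat_lit 97, nat_lit 82, nat_lit 100, nat_lit 635720078⟩]⟩
noncomputable def p020_l177 : Lf2 := ⟨nat_lit 0, nat_lit 8, [nat_lit 50, nat_lit 5, nat_lit 5, nat_lit 20], false, nat_lit 0, nat_lit 0, nat_lit 0, nat_lit 0, ⟨nat_lit 1000, nat_lit 0, nat_lit 0, nat_lit 0, nat_lit 0, nat_lit 0, nat_lit 0, nat_lit 0, nat_lit 0, nat_lit 0, nat_lit 0, nat_lit 0, nat_lit 0, nat_lit 0, nat_lit 0, nat_lit 0, false, false⟩,
 nat_lit 0, nat_lit 8585, nat_lit 0, nat_lit 0, nat_lit 6438, nat_lit 8023, nat_lit 518, nat_lit 0, nat_lit 0, nat_lit 1315, nat_lit 0, nat_lit 0, nat_lit 0, nat_lit 0, nat_lit 0, nat_lit 0, nat_lit 0, nat_lit 0, [],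
 ⟨p020_k54, nat_lit 0, nat_lit 0, nat_lit 607, nat_lit 0, nat_lit 1145740, [nat_lit 2032000001, nat_lit 4688000000, nat_lit 6250000000], [], [nat_lit 31417121872, nat_lit 31638706231, nat_lit 31379231026, nat_lit 31583848118], nat_lit 1271250, nat_lit 1271250, nat_lit 689850, nat_lit 1100001, nat_lit 0, nat_lit 0, [nat_lit 490000, nat_lit 1100000, nat_lit 1442500], [nat_lit 6, nat_lit 40, nat_lit 80, nat_lit 80, nat_lit 3, nat_lit 249, nat_lit 40, nat_lit 9]⟩, ⟨p020_k55, nat_lit 0, nat_lit 0, nat_lit 0, nat_lit 0, nat_lit 0, [nat_lit 3282000000, nat_lit 6250000000, nat_lit 7968000000], [], [nat_lit 19224260806, nat_lit 19805532638, nat_lit 19281664610, nat_lit 19873944800], nat_lit 0, nat_lit 0, nat_lit 0, nat_lit 0, nat_lit 0, nat_lit 0, [], [nat_lit 18, nat_lit 40, nat_lit 80, nat_lit 80]⟩,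
 zbF0, [⟨nat_lit 0, nat_lit 96, nat_lit 85, nat_lit 100, nat_lit 648628667⟩]⟩
noncomputable def p020_l178 : Lf2 := ⟨nat_lit 0, nat_lit 8, [nat_lit 50, nat_lit 5, nat_lit 5, nat_lit 20], false, nat_lit 0, nat_lit 0, nat_lit 0, nat_lit 0, ⟨nat_lit 1000, nat_lit 0, nat_lit 0, nat_lit 0, nat_lit 0, nat_lit 0, nat_lit 0, nat_lit 0, nat_lit 0, nat_lit 0, nat_lit 0, nat_lit 0, nat_lit 0, nat_lit 0, nat_lit 0, nat_lit 0, false, false⟩,
 nat_lit 0, nat_lit 8602, nat_lit 0, nat_lit 0, nat_lit 6451, nat_lit 7406, nat_lit 518, nat_lit 0, nat_lit 0, nat_lit 1305, nat_lit 0, nat_lit 0, nat_lit 0, nat_lit 0, nat_lit 0, nat_lit 0, nat_lit 0, nat_lit 0, [],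
 ⟨p020_k54, nat_lit 0, nat_lit 0, nat_lit 613, nat_lit 0, nat_lit 1169895, [nat_lit 2032000001, nat_lit 4688000000, nat_lit 6250000000], [], [nat_lit 31343882854, nat_lit 31474939775, nat_lit 31310214650, nat_lit 31433095541], nat_lit 1271250, nat_lit 1271250, nat_lit 749650, nat_lit 1100001, nat_lit 0, nat_lit 0, [nat_lit 490000, nat_lit 1100000, nat_lit 1442500], [nat_lit 6, nat_lit 40, nat_lit 80, nat_lit 80, nat_lit 3, nat_lit 249, nat_lit 40, nat_lit 9]⟩, ⟨p020_k56, nat_lit 0, nat_lit 0, nat_lit 0, nat_lit 0, nat_lit 0, [nat_lit 3282000000, nat_lit 6250000000, nat_lit 7968000000], [], [nat_lit 19307068605, nat_lit 19851433026, nat_lit 19386315225, nat_lit 19947418405], nat_lit 0, nat_lit 0, nat_lit 0, nat_lit 0, nat_lit 0, nat_lit 0, [], [nat_lit 18, nat_lit 40, nat_lit 80, nat_lit 80]⟩,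
 zbF0, [⟨nat_lit 0, nat_lit 93, nat_lit 85, nat_lit 100, nat_lit 657096745⟩]⟩
noncomputable def p020_l179 : Lf2 := ⟨nat_lit 0, nat_lit 8, [nat_lit 50, nat_lit 5, nat_lit 5, nat_lit 20], false, nat_lit 0, nat_lit 0, nat_lit 0, nat_lit 0, ⟨nat_lit 1000, nat_lit 0, nat_lit 0, nat_lit 0, nat_lit 0, nat_lit 0, nat_lit 0, nat_lit 0, nat_lit 0, nat_lit 0, nat_lit 0, nat_lit 0, nat_lit 0, nat_lit 0, nat_lit 0, nat_lit 0, false, false⟩,
 nat_lit 0, nat_lit 8520, nat_lit 0, nat_lit 0, nat_lit 6464, nat_lit 7406, nat_lit 1145, nat_lit 0, nat_lit 0, nat_lit 1305, nat_lit 0, nat_lit 0, nat_lit 0, nat_lit 0, nat_lit 0, nat_lit 0, nat_lit 0, nat_lit 0, [],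
 ⟨p020_k57, nat_lit 0, nat_lit 0, nat_lit 612, nat_lit 0, nat_lit 1165968, [nat_lit 2032000001, nat_lit 4688000000, nat_lit 6250000000], [], [nat_lit 29003014941, nat_lit 29090376104, nat_lit 28971667593, nat_lit 29066865188], nat_lit 1271250, nat_lit 1271250, nat_lit 749650, nat_lit 1100001, nat_lit 0, nat_lit 0, [nat_lit 490000, nat_lit 1100000, nat_lit 1442500], [nat_lit 6, nat_lit 40, nat_lit 80, nat_lit 80, nat_lit 3, nat_lit 249, nat_lit 40, nat_lit 9]⟩, ⟨p020_k56, nat_lit 0, nat_lit 0, nat_lit 0, nat_lit 0, nat_lit 0, [nat_lit 3282000000, nat_lit 6250000000, nat_lit 7968000000], [], [nat_lit 19307068605, nat_lit 19851433026, nat_lit 19386315225, nat_lit 19947418405], nat_lit 0, nat_lit 0, nat_lit 0, nat_lit 0, nat_lit 0, nat_lit 0, [], [nat_lit 18, nat_lit 40, nat_lit 80, nat_lit 80]⟩,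
 zbF0, [⟨nat_lit 0, nat_lit 93, nat_lit 84, nat_lit 100, nat_lit 660384975⟩]⟩
noncomputable def p020_l180 : Lf2 := ⟨nat_lit 0, nat_lit 8, [nat_lit 50, nat_lit 5, nat_lit 5, nat_lit 20], false, nat_lit 0, nat_lit 0, nat_lit 0, nat_lit 0, ⟨nat_lit 1000, nat_lit 0, nat_lit 0, nat_lit 0, nat_lit 0, nat_lit 0, nat_lit 0, nat_lit 0, nat_lit 0, nat_lit 0, nat_lit 0, nat_lit 0, nat_lit 0, nat_lit 0, nat_lit 0, nat_lit 0, false, false⟩,
 nat_lit 0, nat_lit 8376, nat_lit 0, nat_lit 0, nat_lit 6405, nat_lit 5732, nat_lit 2511, nat_lit 0, nat_lit 0, nat_lit 1135, nat_lit 0, nat_lit 0, nat_lit 0, nat_lit 0, nat_lit 0, nat_lit 0, nat_lit 0, nat_lit 0, [],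
 ⟨p020_k58, nat_lit 0, nat_lit 0, nat_lit 622, nat_lit 0, nat_lit 1189658, [nat_lit 2032000001, nat_lit 4688000000, nat_lit 6250000000], [], [nat_lit 22760279248, nat_lit 22978416629, nat_lit 22718975462, nat_lit 22923124482], nat_lit 1271250, nat_lit 1271250, nat_lit 749650, nat_lit 1100001, nat_lit 0, nat_lit 0, [nat_lit 490000, nat_lit 1100000, nat_lit 1442500], [nat_lit 6, nat_lit 40, nat_lit 80, nat_lit 80, nat_lit 3, nat_lit 249, nat_lit 40, nat_lit 9]⟩, ⟨p020_k55, nat_lit 0, nat_lit 0, nat_lit 0, nat_lit 0, nat_lit 0, [nat_lit 3282000000, nat_lit 6250000000, nat_lit 7968000000], [], [nat_lit 19874677320, nat_lit 20800996858, nat_lit 20141393566, nat_lit 20991828902], nat_lit 0, nat_lit 0, nat_lit 0, nat_lit 0, nat_lit 0, nat_lit 0, [], [nat_lit 18, nat_lit 40, nat_lit 80, nat_lit 80]⟩,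
 zbF0, [⟨nat_lit 0, nat_lit 92, nat_lit 81, nat_lit 100, nat_lit 678664295⟩]⟩
noncomputable def p020_l181 : Lf2 := ⟨nat_lit 0, nat_lit 10, [nat_lit 0, nat_lit 5, nat_lit 5, nat_lit 20], false, nat_lit 0, nat_lit 0, nat_lit 0, nat_lit 0, ⟨nat_lit 1000, nat_lit 0, nat_lit 0, nat_lit 0, nat_lit 0, nat_lit 0, nat_lit 0, nat_lit 0, nat_lit 0, nat_lit 0, nat_lit 0, nat_lit 0, nat_lit 0, nat_lit 0, nat_lit 0, nat_lit 0, false, false⟩,
 nat_lit 0, nat_lit 8540, nat_lit 0, nat_lit 0, nat_lit 6405, nat_lit 5732, nat_lit 505, nat_lit 0, nat_lit 0, nat_lit 1135, nat_lit 0, nat_lit 0, nat_lit 0, nat_lit 0, nat_lit 0, nat_lit 0, nat_lit 0, nat_lit 0, [],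
 ⟨p020_k51, nat_lit 0, nat_lit 0, nat_lit 582, nat_lit 0, nat_lit 1108361, [nat_lit 2032000001, nat_lit 4688000000, nat_lit 6250000000], [], [nat_lit 31619605529, nat_lit 32067642290, nat_lit 31554426442, nat_lit 31963181400], nat_lit 1271250, nat_lit 1271250, nat_lit 689850, nat_lit 1100001, nat_lit 0, nat_lit 0, [nat_lit 490000, nat_lit 1100000, nat_lit 1442500], [nat_lit 6, nat_lit 40, nat_lit 80, nat_lit 80, nat_lit 3, nat_lit 249, nat_lit 40, nat_lit 9]⟩, ⟨p020_k59, nat_lit 0, nat_lit 0, nat_lit 0, nat_lit 0, nat_lit 0, [nat_lit 3282000000, nat_lit 6250000000, nat_lit 7968000000], [], [nat_lit 19829727286, nat_lit 20766675949, nat_lit 20141393566, nat_lit 20991828902], nat_lit 0, nat_lit 0, nat_lit 0, nat_lit 0, nat_lit 0, nat_lit 0, [], [nat_lit 18, nat_lit 40, nat_lit 80, nat_lit 80]⟩,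
 zbF0, [⟨nat_lit 0, nat_lit 92, nat_lit 81, nat_lit 100, nat_lit 687552772⟩]⟩
noncomputable def p020_l182 : Lf2 := ⟨nat_lit 0, nat_lit 10, [nat_lit 0, nat_lit 5, nat_lit 5, nat_lit 20], false, nat_lit 0, nat_lit 0, nat_lit 0, nat_lit 0, ⟨nat_lit 1000, nat_lit 0, nat_lit 0, nat_lit 0, nat_lit 0, nat_lit 0, nat_lit 0, nat_lit 0, nat_lit 0, nat_lit 0, nat_lit 0, nat_lit 0, nat_lit 0, nat_lit 0, nat_lit 0, nat_lit 0, false, false⟩,
 nat_lit 0, nat_lit 8585, nat_lit 0, nat_lit 0, nat_lit 6438, nat_lit 9234, nat_lit 509, nat_lit 0, nat_lit 0, nat_lit 1491, nat_lit 0, nat_lit 0, nat_lit 0, nat_lit 0, nat_lit 0, nat_lit 0, nat_lit 0, nat_lit 0, [],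
 ⟨p020_k51, nat_lit 0, nat_lit 0, nat_lit 609, nat_lit 0, nat_lit 1196918, [nat_lit 2032000001, nat_lit 4688000000, nat_lit 6250000000], [], [nat_lit 31379231026, nat_lit 31583848118, nat_lit 32587770896, nat_lit 32793011814], nat_lit 1271250, nat_lit 1271250, nat_lit 1100001, nat_lit 1785000, nat_lit 0, nat_lit 0, [nat_lit 490000, nat_lit 1100000, nat_lit 1442500], [nat_lit 6, nat_lit 40, nat_lit 80, nat_lit 80, nat_lit 3, nat_lit 272, nat_lit 60, nat_lit 10]⟩, ⟨p020_k52, nat_lit 0, nat_lit 0, nat_lit 0, nat_lit 0, nat_lit 0, [nat_lit 3282000000, nat_lit 6250000000, nat_lit 9842000000], [], [nat_lit 19427220175, nat_lit 21520102267, nat_lit 23560329256, nat_lit 26373882788], nat_lit 0, nat_lit 0, nat_lit 0, nat_lit 0, nat_lit 0, nat_lit 0, [], [nat_lit 8, nat_lit 40, nat_lit 80, nat_lit 80]⟩,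
 zbF0, []⟩
noncomputable def p020_l183 : Lf2 := ⟨nat_lit 0, nat_lit 10, [nat_lit 0, nat_lit 5, nat_lit 5, nat_lit 20], false, nat_lit 0, nat_lit 0, nat_lit 0, nat_lit 0, ⟨nat_lit 1000, nat_lit 0, nat_lit 0, nat_lit 0, nat_lit 0, nat_lit 0, nat_lit 0, nat_lit 0, nat_lit 0, nat_lit 0, nat_lit 0, nat_lit 0, nat_lit 0, nat_lit 0, nat_lit 0, nat_lit 0, false, false⟩,
 nat_lit 0, nat_lit 9608, nat_lit 0, nat_lit 0, nat_lit 7347, nat_lit 5732, nat_lit 1319, nat_lit 0, nat_lit 0, nat_lit 1288, nat_lit 0, nat_lit 0, nat_lit 0, nat_lit 0, nat_lit 0, nat_lit 0, nat_lit 0, nat_lit 0, [],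
 ⟨p020_k53, nat_lit 0, nat_lit 0, nat_lit 612, nat_lit 0, nat_lit 1202357, [nat_lit 2032000001, nat_lit 4688000000, nat_lit 6250000000], [], [nat_lit 23860762899, nat_lit 24069834430, nat_lit 27057336850, nat_lit 27713355139], nat_lit 1271250, nat_lit 1271250, nat_lit 1100001, nat_lit 1785000, nat_lit 0, nat_lit 0, [nat_lit 490000, nat_lit 1100000, nat_lit 1442500], [nat_lit 6, nat_lit 40, nat_lit 80, nat_lit 80, nat_lit 3, nat_lit 272, nat_lit 60, nat_lit 10]⟩, ⟨p020_k52, nat_lit 0, nat_lit 0, nat_lit 0, nat_lit 0, nat_lit 0, [nat_lit 3282000000, nat_lit 6250000000, nat_lit 9842000000], [], [nat_lit 20504459400, nat_lit 22062985152, nat_lit 23745265744, nat_lit 25351164136], nat_lit 0, nat_lit 0, nat_lit 0, nat_lit 0, nat_lit 0, nat_lit 0, [], [nat_lit 8, nat_lit 40, nat_lit 80, nat_lit 80]⟩,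
 zbF0, []⟩
noncomputable def b_N_800_700_0_14 : St := ⟨false, nat_lit 1, nat_lit 0, nat_lit 1, nat_lit 40, nat_lit 320, nat_lit 330, nat_lit 280, nat_lit 300, nat_lit 100, nat_lit 240, nat_lit 0, nat_lit 0, nat_lit 0, nat_lit 0, nat_lit 0, nat_lit 0, nat_lit 20, nat_lit 40, nat_lit 0, nat_lit 0, nat_lit 0, nat_lit 800⟩
theorem d_N_800_700_0_14 (h : EB TB.env) : Dead b_N_800_700_0_14 := chkB_sound0 h (T :=
(.spl (nat_lit 2) (nat_lit 160)
(.spl (nat_lit 1) (nat_lit 290)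
(.spl (nat_lit 0) (nat_lit 325)
(.leaf p020_l175)
(.trZ (nat_lit 0) (nat_lit 100) (nat_lit 85) (nat_lit 97) (nat_lit 104) (.leaf p020_l176)))
(.trZ (nat_lit 0) (nat_lit 100) (nat_lit 89) (nat_lit 100) (nat_lit 108) (.spl (nat_lit 6) (nat_lit 32)
(.spl (nat_lit 0) (nat_lit 325)
(.spl (nat_lit 1) (nat_lit 295)
(.leaf p020_l177)
(.trZ (nat_lit 0) (nat_lit 97) (nat_lit 88) (nat_lit 100) (nat_lit 116) (.spl (nat_lit 0) (nat_lit 323)
(.leaf p020_l178)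
(.leaf p020_l179))))
(.trZ (nat_lit 0) (nat_lit 98) (nat_lit 86) (nat_lit 100) (nat_lit 116) (.leaf p020_l180)))
(.leaf p020_l181))))
(.spl (nat_lit 0) (nat_lit 325)
(.leaf p020_l182)
(.leaf p020_l183)))) (by decide +kernel)
noncomputable def p020_l184 : Lf2 := ⟨nat_lit 0, nat_lit 6, [nat_lit 47, nat_lit 5, nat_lit 5, nat_lit 20], false, nat_lit 0, nat_lit 0, nat_lit 0, nat_lit 0, ⟨nat_lit 1000, nat_lit 0, nat_lit 0, nat_lit 0, nat_lit 0, nat_lit 0, nat_lit 0, nat_lit 0, nat_lit 0, nat_lit 0, nat_lit 0, nat_lit 0, nat_lit 0, nat_lit 0, nat_lit 0, nat_lit 0, false, false⟩,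
 nat_lit 0, nat_lit 11018, nat_lit 0, nat_lit 0, nat_lit 8263, nat_lit 8799, nat_lit 461, nat_lit 0, nat_lit 0, nat_lit 0, nat_lit 0, nat_lit 0, nat_lit 0, nat_lit 0, nat_lit 0, nat_lit 0, nat_lit 0, nat_lit 0, [],
 ⟨p020_k60, nat_lit 0, nat_lit 0, nat_lit 627, nat_lit 0, nat_lit 1206706, [nat_lit 2032000001, nat_lit 4688000000, nat_lit 6250000000], [], [nat_lit 24863213820, nat_lit 25082857618, nat_lit 24549518472, nat_lit 24770656471], nat_lit 1271250, nat_lit 1271250, nat_lit 780000, nat_lit 1100001, nat_lit 0, nat_lit 0, [nat_lit 490000, nat_lit 1100000, nat_lit 1442500], [nat_lit 6, nat_lit 40, nat_lit 80, nat_lit 80, nat_lit 3, nat_lit 249, nat_lit 40, nat_lit 9]⟩, ⟨p020_k61, nat_lit 0, nat_lit 0, nat_lit 0, nat_lit 0, nat_lit 0, [nat_lit 3282000000, nat_lit 6250000000], [], [nat_lit 21667160820, nat_lit 22340853259, nat_lit 21586883120, nat_lit 22218374590], nat_lit 0, nat_lit 0,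 nat_lit 0, nat_lit 0, nat_lit 0, nat_lit 0, [], [nat_lit 49, nat_lit 40, nat_lit 80, nat_lit 80]⟩,
 zbF0, [⟨nat_lit 0, nat_lit 90, nat_lit 83, nat_lit 100, nat_lit 768326696⟩]⟩
noncomputable def p020_l185 : Lf2 := ⟨nat_lit 0, nat_lit 8, [nat_lit 50, nat_lit 5, nat_lit 5, nat_lit 20], false, nat_lit 0, nat_lit 0, nat_lit 0, nat_lit 0, ⟨nat_lit 1000, nat_lit 0, nat_lit 0, nat_lit 0, nat_lit 0, nat_lit 0, nat_lit 0, nat_lit 0, nat_lit 0, nat_lit 0, nat_lit 0, nat_lit 0, nat_lit 0, nat_lit 0, nat_lit 0, nat_lit 0, false, false⟩,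
 nat_lit 0, nat_lit 11018, nat_lit 0, nat_lit 0, nat_lit 8263, nat_lit 5679, nat_lit 461, nat_lit 0, nat_lit 0, nat_lit 1240, nat_lit 0, nat_lit 0, nat_lit 0, nat_lit 0, nat_lit 0, nat_lit 0, nat_lit 0, nat_lit 0, [],
 ⟨p020_k54, nat_lit 0, nat_lit 0, nat_lit 616, nat_lit 0, nat_lit 1179217, [nat_lit 2032000001, nat_lit 4688000000, nat_lit 6250000000], [], [nat_lit 24863213820, nat_lit 25082857618, nat_lit 24549518472, nat_lit 24770656471], nat_lit 1271250, nat_lit 1271250, nat_lit 780000, nat_lit 1100001, nat_lit 0, nat_lit 0, [nat_lit 490000, nat_lit 1100000, nat_lit 1442500], [nat_lit 6, nat_lit 40, nat_lit 80, nat_lit 80, nat_lit 3, nat_lit 249, nat_lit 40, nat_lit 9]⟩, ⟨p020_k62, nat_lit 0, nat_lit 0, nat_lit 0, nat_lit 0, nat_lit 0, [nat_lit 3282000000, nat_lit 6250000000, nat_lit 7968000000], [], [nat_lit 19456835814, nat_lit 19916110339, nat_lit 19762341044, nat_lit 20185236040],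 nat_lit 0, nat_lit 0, nat_lit 0, nat_lit 0, nat_lit 0, nat_lit 0, [], [nat_lit 18, nat_lit 40, nat_lit 80, nat_lit 80]⟩,
 zbF0, [⟨nat_lit 0, nat_lit 90, nat_lit 83, nat_lit 100, nat_lit 702872609⟩]⟩
noncomputable def p020_l186 : Lf2 := ⟨nat_lit 0, nat_lit 6, [nat_lit 47, nat_lit 5, nat_lit 5, nat_lit 20], false, nat_lit 0, nat_lit 0, nat_lit 0, nat_lit 0, ⟨nat_lit 1000, nat_lit 0, nat_lit 0, nat_lit 0, nat_lit 0, nat_lit 0, nat_lit 0, nat_lit 0, nat_lit 0, nat_lit 0, nat_lit 0, nat_lit 0, nat_lit 0, nat_lit 0, nat_lit 0, nat_lit 0, false, false⟩,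
 nat_lit 0, nat_lit 11078, nat_lit 0, nat_lit 0, nat_lit 8308, nat_lit 5627, nat_lit 460, nat_lit 0, nat_lit 0, nat_lit 1597, nat_lit 0, nat_lit 0, nat_lit 0, nat_lit 0, nat_lit 0, nat_lit 0, nat_lit 0, nat_lit 0, [],
 ⟨p020_k60, nat_lit 0, nat_lit 0, nat_lit 636, nat_lit 0, nat_lit 1233417, [nat_lit 2032000001, nat_lit 4688000000, nat_lit 6250000000], [], [nat_lit 24606149496, nat_lit 24736839662, nat_lit 24321473952, nat_lit 24454512423], nat_lit 1271250, nat_lit 1271250, nat_lit 810650, nat_lit 1100001, nat_lit 0, nat_lit 0, [nat_lit 490000, nat_lit 1100000, nat_lit 1442500], [nat_lit 6, nat_lit 40, nat_lit 80, nat_lit 80, nat_lit 3, nat_lit 249, nat_lit 40, nat_lit 9]⟩, ⟨p020_k63, nat_lit 0, nat_lit 0, nat_lit 0, nat_lit 0, nat_lit 0, [nat_lit 3282000000, nat_lit 6250000000], [], [nat_lit 18534505319, nat_lit 19032046062, nat_lit 18833023645, nat_lit 19253639793], nat_lit 0, nat_lit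 0, nat_lit 0, nat_lit 0, nat_lit 0, nat_lit 0, [], [nat_lit 49, nat_lit 40, nat_lit 80, nat_lit 80]⟩,
 zbF0, [⟨nat_lit 0, nat_lit 88, nat_lit 83, nat_lit 100, nat_lit 718054159⟩]⟩
noncomputable def p020_l187 : Lf2 := ⟨nat_lit 0, nat_lit 6, [nat_lit 47, nat_lit 5, nat_lit 5, nat_lit 20], false, nat_lit 0, nat_lit 0, nat_lit 0, nat_lit 0, ⟨nat_lit 1000, nat_lit 0, nat_lit 0, nat_lit 0, nat_lit 0, nat_lit 0, nat_lit 0, nat_lit 0, nat_lit 0, nat_lit 0, nat_lit 0, nat_lit 0, nat_lit 0, nat_lit 0, nat_lit 0, nat_lit 0, false, false⟩,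
 nat_lit 0, nat_lit 10068, nat_lit 0, nat_lit 0, nat_lit 7639, nat_lit 5627, nat_lit 1667, nat_lit 0, nat_lit 0, nat_lit 1605, nat_lit 0, nat_lit 0, nat_lit 0, nat_lit 0, nat_lit 0, nat_lit 0, nat_lit 0, nat_lit 0, [],
 ⟨p020_k64, nat_lit 0, nat_lit 0, nat_lit 633, nat_lit 0, nat_lit 1227900, [nat_lit 2032000001, nat_lit 4688000000, nat_lit 6250000000], [], [nat_lit 23940560370, nat_lit 24030033555, nat_lit 23755336645, nat_lit 23840503863], nat_lit 1271250, nat_lit 1271250, nat_lit 841600, nat_lit 1100001, nat_lit 0, nat_lit 0, [nat_lit 490000, nat_lit 1100000, nat_lit 1442500], [nat_lit 6, nat_lit 40, nat_lit 80, nat_lit 80, nat_lit 3, nat_lit 249, nat_lit 40, nat_lit 9]⟩, ⟨p020_k63, nat_lit 0, nat_lit 0, nat_lit 0, nat_lit 0, nat_lit 0, [nat_lit 3282000000, nat_lit 6250000000], [], [nat_lit 18543153305, nat_lit 19037768445, nat_lit 18814148645, nat_lit 19234764793], nat_lit 0, nat_lit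 0, nat_lit 0, nat_lit 0, nat_lit 0, nat_lit 0, [], [nat_lit 49, nat_lit 40, nat_lit 80, nat_lit 80]⟩,
 zbF0, [⟨nat_lit 0, nat_lit 88, nat_lit 82, nat_lit 100, nat_lit 710129392⟩]⟩
noncomputable def p020_l188 : Lf2 := ⟨nat_lit 0, nat_lit 8, [nat_lit 50, nat_lit 5, nat_lit 5, nat_lit 20], false, nat_lit 0, nat_lit 0, nat_lit 0, nat_lit 0, ⟨nat_lit 1000, nat_lit 0, nat_lit 0, nat_lit 0, nat_lit 0, nat_lit 0, nat_lit 0, nat_lit 0, nat_lit 0, nat_lit 0, nat_lit 0, nat_lit 0, nat_lit 0, nat_lit 0, nat_lit 0, nat_lit 0, false, false⟩,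
 nat_lit 0, nat_lit 11078, nat_lit 0, nat_lit 0, nat_lit 8308, nat_lit 5627, nat_lit 460, nat_lit 0, nat_lit 0, nat_lit 1245, nat_lit 0, nat_lit 0, nat_lit 0, nat_lit 0, nat_lit 0, nat_lit 0, nat_lit 0, nat_lit 0, [],
 ⟨p020_k54, nat_lit 0, nat_lit 0, nat_lit 625, nat_lit 0, nat_lit 1205722, [nat_lit 2032000001, nat_lit 4688000000, nat_lit 6250000000], [], [nat_lit 24606149496, nat_lit 24736839662, nat_lit 24321473952, nat_lit 24454512423], nat_lit 1271250, nat_lit 1271250, nat_lit 810650, nat_lit 1100001, nat_lit 0, nat_lit 0, [nat_lit 490000, nat_lit 1100000, nat_lit 1442500], [nat_lit 6, nat_lit 40, nat_lit 80, nat_lit 80, nat_lit 3, nat_lit 249, nat_lit 40, nat_lit 9]⟩, ⟨p020_k65, nat_lit 0, nat_lit 0, nat_lit 0, nat_lit 0, nat_lit 0, [nat_lit 3282000000, nat_lit 6250000000, nat_lit 7968000000], [], [nat_lit 19409973869, nat_lit 19862801793, nat_lit 19663523645, nat_lit 20084139793],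 nat_lit 0, nat_lit 0, nat_lit 0, nat_lit 0, nat_lit 0, nat_lit 0, [], [nat_lit 18, nat_lit 40, nat_lit 80, nat_lit 80]⟩,
 zbF0, [⟨nat_lit 0, nat_lit 88, nat_lit 83, nat_lit 100, nat_lit 718054159⟩]⟩
noncomputable def p020_l189 : Lf2 := ⟨nat_lit 0, nat_lit 8, [nat_lit 50, nat_lit 5, nat_lit 5, nat_lit 20], false, nat_lit 0, nat_lit 0, nat_lit 0, nat_lit 0, ⟨nat_lit 1000, nat_lit 0, nat_lit 0, nat_lit 0, nat_lit 0, nat_lit 0, nat_lit 0, nat_lit 0, nat_lit 0, nat_lit 0, nat_lit 0, nat_lit 0, nat_lit 0, nat_lit 0, nat_lit 0, nat_lit 0, false, false⟩,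
 nat_lit 0, nat_lit 10663, nat_lit 0, nat_lit 0, nat_lit 8090, nat_lit 5627, nat_lit 475, nat_lit 0, nat_lit 0, nat_lit 1241, nat_lit 0, nat_lit 0, nat_lit 0, nat_lit 0, nat_lit 0, nat_lit 0, nat_lit 0, nat_lit 0, [],
 ⟨p020_k57, nat_lit 0, nat_lit 0, nat_lit 622, nat_lit 0, nat_lit 1200812, [nat_lit 2032000001, nat_lit 4688000000, nat_lit 6250000000], [], [nat_lit 24628627112, nat_lit 24714394227, nat_lit 24393788403, nat_lit 24481332030], nat_lit 1271250, nat_lit 1271250, nat_lit 841600, nat_lit 1100001, nat_lit 0, nat_lit 0, [nat_lit 490000, nat_lit 1100000, nat_lit 1442500], [nat_lit 6, nat_lit 40, nat_lit 80, nat_lit 80, nat_lit 3, nat_lit 249, nat_lit 40, nat_lit 9]⟩, ⟨p020_k65, nat_lit 0, nat_lit 0, nat_lit 0, nat_lit 0, nat_lit 0, [nat_lit 3282000000, nat_lit 6250000000, nat_lit 7968000000], [], [nat_lit 19447624001, nat_lit 19897832743, nat_lit 19672961145, nat_lit 20093577293],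 nat_lit 0, nat_lit 0, nat_lit 0, nat_lit 0, nat_lit 0, nat_lit 0, [], [nat_lit 18, nat_lit 40, nat_lit 80, nat_lit 80]⟩,
 zbF0, [⟨nat_lit 0, nat_lit 88, nat_lit 82, nat_lit 100, nat_lit 719562336⟩]⟩
noncomputable def p020_l190 : Lf2 := ⟨nat_lit 0, nat_lit 10, [nat_lit 0, nat_lit 5, nat_lit 5, nat_lit 20], false, nat_lit 0, nat_lit 0, nat_lit 0, nat_lit 0, ⟨nat_lit 1000, nat_lit 0, nat_lit 0, nat_lit 0, nat_lit 0, nat_lit 0, nat_lit 0, nat_lit 0, nat_lit 0, nat_lit 0, nat_lit 0, nat_lit 0, nat_lit 0, nat_lit 0, nat_lit 0, nat_lit 0, false, false⟩,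
 nat_lit 0, nat_lit 8560, nat_lit 0, nat_lit 0, nat_lit 6419, nat_lit 5627, nat_lit 504, nat_lit 0, nat_lit 0, nat_lit 1223, nat_lit 0, nat_lit 0, nat_lit 0, nat_lit 0, nat_lit 0, nat_lit 0, nat_lit 0, nat_lit 0, [],
 ⟨p020_k51, nat_lit 0, nat_lit 0, nat_lit 605, nat_lit 0, nat_lit 1150536, [nat_lit 2032000001, nat_lit 4688000000, nat_lit 6250000000], [], [nat_lit 31536019740, nat_lit 31755070929, nat_lit 31480101114, nat_lit 31684942502], nat_lit 1271250, nat_lit 1271250, nat_lit 780000, nat_lit 1100001, nat_lit 0, nat_lit 0, [nat_lit 490000, nat_lit 1100000, nat_lit 1442500], [nat_lit 6, nat_lit 40, nat_lit 80, nat_lit 80, nat_lit 3, nat_lit 249, nat_lit 40, nat_lit 9]⟩, ⟨p020_k66, nat_lit 0, nat_lit 0, nat_lit 0, nat_lit 0, nat_lit 0, [nat_lit 3282000000, nat_lit 6250000000, nat_lit 7968000000], [], [nat_lit 19535498507, nat_lit 20447848679, nat_lit 19852807497, nat_lit 20694039793],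 nat_lit 0, nat_lit 0, nat_lit 0, nat_lit 0, nat_lit 0, nat_lit 0, [], [nat_lit 18, nat_lit 40, nat_lit 80, nat_lit 80]⟩,
 zbF0, [⟨nat_lit 0, nat_lit 88, nat_lit 82, nat_lit 100, nat_lit 684761205⟩]⟩
noncomputable def p020_l191 : Lf2 := ⟨nat_lit 0, nat_lit 10, [nat_lit 0, nat_lit 5, nat_lit 5, nat_lit 20], false, nat_lit 0, nat_lit 0, nat_lit 0, nat_lit 0, ⟨nat_lit 1000, nat_lit 0, nat_lit 0, nat_lit 0, nat_lit 0, nat_lit 0, nat_lit 0, nat_lit 0, nat_lit 0, nat_lit 0, nat_lit 0, nat_lit 0, nat_lit 0, nat_lit 0, nat_lit 0, nat_lit 0, false, false⟩,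
 nat_lit 0, nat_lit 9471, nat_lit 0, nat_lit 0, nat_lit 7242, nat_lit 5627, nat_lit 1437, nat_lit 0, nat_lit 0, nat_lit 1187, nat_lit 0, nat_lit 0, nat_lit 0, nat_lit 0, nat_lit 0, nat_lit 0, nat_lit 0, nat_lit 0, [],
 ⟨p020_k53, nat_lit 0, nat_lit 0, nat_lit 656, nat_lit 0, nat_lit 1280725, [nat_lit 2032000001, nat_lit 4688000000, nat_lit 6250000000], [], [nat_lit 24065994307, nat_lit 24285283872, nat_lit 23895883614, nat_lit 24103571980], nat_lit 1271250, nat_lit 1271250, nat_lit 810650, nat_lit 1100001, nat_lit 0, nat_lit 0, [nat_lit 490000, nat_lit 1100000, nat_lit 1442500], [nat_lit 6, nat_lit 40, nat_lit 80, nat_lit 80, nat_lit 3, nat_lit 249, nat_lit 40, nat_lit 9]⟩, ⟨p020_k66, nat_lit 0, nat_lit 0, nat_lit 0, nat_lit 0, nat_lit 0, [nat_lit 3282000000, nat_lit 6250000000, nat_lit 7968000000], [], [nat_lit 19735105321, nat_lit 20640761168, nat_lit 19921319997, nat_lit 20762552293],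 nat_lit 0, nat_lit 0, nat_lit 0, nat_lit 0, nat_lit 0, nat_lit 0, [], [nat_lit 18, nat_lit 40, nat_lit 80, nat_lit 80]⟩,
 zbF0, [⟨nat_lit 0, nat_lit 87, nat_lit 79, nat_lit 100, nat_lit 756813706⟩]⟩
noncomputable def p020_l192 : Lf2 := ⟨nat_lit 0, nat_lit 10, [nat_lit 0, nat_lit 5, nat_lit 5, nat_lit 20], false, nat_lit 0, nat_lit 0, nat_lit 0, nat_lit 0, ⟨nat_lit 1000, nat_lit 0, nat_lit 0, nat_lit 0, nat_lit 0, nat_lit 0, nat_lit 0, nat_lit 0, nat_lit 0, nat_lit 0, nat_lit 0, nat_lit 0, nat_lit 0, nat_lit 0, nat_lit 0, nat_lit 0, false, false⟩,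
 nat_lit 0, nat_lit 8688, nat_lit 0, nat_lit 0, nat_lit 6516, nat_lit 6934, nat_lit 474, nat_lit 0, nat_lit 0, nat_lit 1244, nat_lit 0, nat_lit 0, nat_lit 0, nat_lit 0, nat_lit 0, nat_lit 0, nat_lit 0, nat_lit 0, [],
 ⟨p020_k51, nat_lit 0, nat_lit 0, nat_lit 641, nat_lit 0, nat_lit 1278379, [nat_lit 2032000001, nat_lit 4688000000, nat_lit 6250000000], [], [nat_lit 33417129281, nat_lit 33600866307, nat_lit 34331100640, nat_lit 34502282188], nat_lit 1271250, nat_lit 1271250, nat_lit 1100001, nat_lit 1785000, nat_lit 0, nat_lit 0, [nat_lit 490000, nat_lit 1100000, nat_lit 1442500], [nat_lit 6, nat_lit 40, nat_lit 80, nat_lit 80, nat_lit 3, nat_lit 272, nat_lit 60, nat_lit 10]⟩, ⟨p020_k66, nat_lit 0, nat_lit 0, nat_lit 0, nat_lit 0, nat_lit 0, [nat_lit 3282000000, nat_lit 6250000000, nat_lit 7968000000], [], [nat_lit 19608672972, nat_lit 20583553596, nat_lit 23481674188, nat_lit 24636603254],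 nat_lit 0, nat_lit 0, nat_lit 0, nat_lit 0, nat_lit 0, nat_lit 0, [], [nat_lit 18, nat_lit 40, nat_lit 80, nat_lit 80]⟩,
 zbF0, []⟩
noncomputable def p020_l193 : Lf2 := ⟨nat_lit 0, nat_lit 10, [nat_lit 0, nat_lit 5, nat_lit 5, nat_lit 20], false, nat_lit 0, nat_lit 0, nat_lit 0, nat_lit 0, ⟨nat_lit 1000, nat_lit 0, nat_lit 0, nat_lit 0, nat_lit 0, nat_lit 0, nat_lit 0, nat_lit 0, nat_lit 0, nat_lit 0, nat_lit 0, nat_lit 0, nat_lit 0, nat_lit 0, nat_lit 0, nat_lit 0, false, false⟩,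
 nat_lit 0, nat_lit 9500, nat_lit 0, nat_lit 0, nat_lit 7264, nat_lit 5627, nat_lit 1446, nat_lit 0, nat_lit 0, nat_lit 1187, nat_lit 0, nat_lit 0, nat_lit 0, nat_lit 0, nat_lit 0, nat_lit 0, nat_lit 0, nat_lit 0, [],
 ⟨p020_k53, nat_lit 0, nat_lit 0, nat_lit 643, nat_lit 0, nat_lit 1280725, [nat_lit 2032000001, nat_lit 4688000000, nat_lit 6250000000], [], [nat_lit 23746884988, nat_lit 23954863160, nat_lit 26929665544, nat_lit 27580560368], nat_lit 1271250, nat_lit 1271250, nat_lit 1100001, nat_lit 1785000, nat_lit 0, nat_lit 0, [nat_lit 490000, nat_lit 1100000, nat_lit 1442500], [nat_lit 6, nat_lit 40, nat_lit 80, nat_lit 80, nat_lit 3, nat_lit 272, nat_lit 60, nat_lit 10]⟩, ⟨p020_k66, nat_lit 0, nat_lit 0, nat_lit 0, nat_lit 0, nat_lit 0, [nat_lit 3282000000, nat_lit 6250000000, nat_lit 7968000000], [], [nat_lit 19921319997, nat_lit 20762552293, nat_lit 23090653471, nat_lit 23885202352],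 nat_lit 0, nat_lit 0, nat_lit 0, nat_lit 0, nat_lit 0, nat_lit 0, [], [nat_lit 18, nat_lit 40, nat_lit 80, nat_lit 80]⟩,
 zbF0, []⟩
noncomputable def b_N_800_700_0_15 : St := ⟨false, nat_lit 1, nat_lit 0, nat_lit 1, nat_lit 40, nat_lit 320, nat_lit 330, nat_lit 300, nat_lit 310, nat_lit 120, nat_lit 240, nat_lit 0, nat_lit 0, nat_lit 0, nat_lit 0, nat_lit 0, nat_lit 0, nat_lit 20, nat_lit 40, nat_lit 0, nat_lit 0, nat_lit 0, nat_lit 800⟩
theorem d_N_800_700_0_15 (h : EB TB.env) : Dead b_N_800_700_0_15 := chkB_sound0 h (T :=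
(.spl (nat_lit 2) (nat_lit 160)
(.spl (nat_lit 0) (nat_lit 325)
(.spl (nat_lit 6) (nat_lit 32)
(.spl (nat_lit 1) (nat_lit 305)
(.spl (nat_lit 6) (nat_lit 24)
(.leaf p020_l184)
(.leaf p020_l185))
(.trZ (nat_lit 0) (nat_lit 91) (nat_lit 86) (nat_lit 100) (nat_lit 124) (.spl (nat_lit 6) (nat_lit 24)
(.spl (nat_lit 0) (nat_lit 323)
(.leaf p020_l186)
(.trZ (nat_lit 0) (nat_lit 91) (nat_lit 84) (nat_lit 100) (nat_lit 128) (.leaf p020_l187)))
(.spl (nat_lit 0) (nat_lit 323)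
(.leaf p020_l188)
(.trZ (nat_lit 0) (nat_lit 91) (nat_lit 84) (nat_lit 100) (nat_lit 128) (.leaf p020_l189))))))
(.leaf p020_l190))
(.trZ (nat_lit 0) (nat_lit 93) (nat_lit 84) (nat_lit 100) (nat_lit 124) (.leaf p020_l191)))
(.spl (nat_lit 0) (nat_lit 325)
(.leaf p020_l192)
(.leaf p020_l193)))) (by decide +kernel)
noncomputable def p020_l194 : Lf2 := ⟨nat_lit 0, nat_lit 6, [nat_lit 47, nat_lit 5, nat_lit 5, nat_lit 20], false, nat_lit 0, nat_lit 0, nat_lit 0, nat_lit 0, ⟨nat_lit 1000, nat_lit 0, nat_lit 0, nat_lit 0, nat_lit 0, nat_lit 0, nat_lit 0, nat_lit 0, nat_lit 0, nat_lit 0, nat_lit 0, nat_lit 0, nat_lit 0, nat_lit 0, nat_lit 0, nat_lit 0, false, false⟩,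
 nat_lit 0, nat_lit 8727, nat_lit 0, nat_lit 0, nat_lit 6545, nat_lit 5525, nat_lit 483, nat_lit 0, nat_lit 0, nat_lit 1355, nat_lit 0, nat_lit 0, nat_lit 0, nat_lit 0, nat_lit 0, nat_lit 0, nat_lit 0, nat_lit 0, [],
 ⟨p020_k60, nat_lit 0, nat_lit 0, nat_lit 643, nat_lit 0, nat_lit 1258440, [nat_lit 2032000001, nat_lit 4688000000, nat_lit 6250000000], [], [nat_lit 33330104047, nat_lit 33445180405, nat_lit 33256297601, nat_lit 33374855552], nat_lit 1271250, nat_lit 1271250, nat_lit 872850, nat_lit 1100001, nat_lit 0, nat_lit 0, [nat_lit 490000, nat_lit 1100000, nat_lit 1442500], [nat_lit 6, nat_lit 40, nat_lit 80, nat_lit 80, nat_lit 3, nat_lit 249, nat_lit 40, nat_lit 9]⟩, ⟨p020_k67, nat_lit 0, nat_lit 0, nat_lit 0, nat_lit 0, nat_lit 0, [nat_lit 3282000000, nat_lit 6250000000], [], [nat_lit 19028454679, nat_lit 19289107980, nat_lit 19277566225, nat_lit 19527253886], nat_lit 0, nat_lit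 0, nat_lit 0, nat_lit 0, nat_lit 0, nat_lit 0, [], [nat_lit 49, nat_lit 40, nat_lit 80, nat_lit 80]⟩,
 zbF0, [⟨nat_lit 0, nat_lit 87, nat_lit 83, nat_lit 100, nat_lit 666912057⟩]⟩
noncomputable def p020_l195 : Lf2 := ⟨nat_lit 0, nat_lit 6, [nat_lit 47, nat_lit 5, nat_lit 5, nat_lit 20], false, nat_lit 0, nat_lit 0, nat_lit 0, nat_lit 0, ⟨nat_lit 1000, nat_lit 0, nat_lit 0, nat_lit 0, nat_lit 0, nat_lit 0, nat_lit 0, nat_lit 0, nat_lit 0, nat_lit 0, nat_lit 0, nat_lit 0, nat_lit 0, nat_lit 0, nat_lit 0, nat_lit 0, false, false⟩,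
 nat_lit 0, nat_lit 8727, nat_lit 0, nat_lit 0, nat_lit 6545, nat_lit 5505, nat_lit 483, nat_lit 0, nat_lit 0, nat_lit 1218, nat_lit 0, nat_lit 0, nat_lit 0, nat_lit 0, nat_lit 0, nat_lit 0, nat_lit 0, nat_lit 0, [],
 ⟨p020_k60, nat_lit 0, nat_lit 0, nat_lit 650, nat_lit 0, nat_lit 1275361, [nat_lit 2032000001, nat_lit 4688000000, nat_lit 6250000000], [], [nat_lit 33330104047, nat_lit 33445180405, nat_lit 33256297601, nat_lit 33374855552], nat_lit 1271250, nat_lit 1271250, nat_lit 872850, nat_lit 1100001, nat_lit 0, nat_lit 0, [nat_lit 490000, nat_lit 1100000, nat_lit 1442500], [nat_lit 6, nat_lit 40, nat_lit 80, nat_lit 80, nat_lit 3, nat_lit 249, nat_lit 40, nat_lit 9]⟩, ⟨p020_k68, nat_lit 0, nat_lit 0, nat_lit 0, nat_lit 0, nat_lit 0, [nat_lit 3282000000, nat_lit 6250000000], [], [nat_lit 19335224333, nat_lit 19508621935, nat_lit 19574898193, nat_lit 19741006040], nat_lit 0, nat_lit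 0, nat_lit 0, nat_lit 0, nat_lit 0, nat_lit 0, [], [nat_lit 49, nat_lit 40, nat_lit 80, nat_lit 80]⟩,
 zbF0, [⟨nat_lit 0, nat_lit 86, nat_lit 83, nat_lit 100, nat_lit 674265157⟩]⟩
noncomputable def p020_l196 : Lf2 := ⟨nat_lit 0, nat_lit 8, [nat_lit 50, nat_lit 5, nat_lit 5, nat_lit 20], false, nat_lit 0, nat_lit 0, nat_lit 0, nat_lit 0, ⟨nat_lit 1000, nat_lit 0, nat_lit 0, nat_lit 0, nat_lit 0, nat_lit 0, nat_lit 0, nat_lit 0, nat_lit 0, nat_lit 0, nat_lit 0, nat_lit 0, nat_lit 0, nat_lit 0, nat_lit 0, nat_lit 0, false, false⟩,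
 nat_lit 0, nat_lit 11087, nat_lit 0, nat_lit 0, nat_lit 8315, nat_lit 5596, nat_lit 458, nat_lit 0, nat_lit 0, nat_lit 1324, nat_lit 0, nat_lit 0, nat_lit 0, nat_lit 0, nat_lit 0, nat_lit 0, nat_lit 0, nat_lit 0, [],
 ⟨p020_k54, nat_lit 0, nat_lit 0, nat_lit 632, nat_lit 0, nat_lit 1230846, [nat_lit 2032000001, nat_lit 4688000000, nat_lit 6250000000], [], [nat_lit 24506997241, nat_lit 24637989281, nat_lit 24286000360, nat_lit 24419094158], nat_lit 1271250, nat_lit 1271250, nat_lit 872850, nat_lit 1100001, nat_lit 0, nat_lit 0, [nat_lit 490000, nat_lit 1100000, nat_lit 1442500], [nat_lit 6, nat_lit 40, nat_lit 80, nat_lit 80, nat_lit 3, nat_lit 249, nat_lit 40, nat_lit 9]⟩, ⟨p020_k69, nat_lit 0, nat_lit 0, nat_lit 0, nat_lit 0, nat_lit 0, [nat_lit 3282000000, nat_lit 6250000000], [], [nat_lit 19087041737, nat_lit 19381062466, nat_lit 19292501564, nat_lit 19544056127], nat_lit 0, nat_lit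 0, nat_lit 0, nat_lit 0, nat_lit 0, nat_lit 0, [], [nat_lit 49, nat_lit 40, nat_lit 80, nat_lit 80]⟩,
 zbF0, [⟨nat_lit 0, nat_lit 87, nat_lit 83, nat_lit 100, nat_lit 722332134⟩]⟩
noncomputable def p020_l197 : Lf2 := ⟨nat_lit 0, nat_lit 8, [nat_lit 50, nat_lit 5, nat_lit 5, nat_lit 20], false, nat_lit 0, nat_lit 0, nat_lit 0, nat_lit 0, ⟨nat_lit 1000, nat_lit 0, nat_lit 0, nat_lit 0, nat_lit 0, nat_lit 0, nat_lit 0, nat_lit 0, nat_lit 0, nat_lit 0, nat_lit 0, nat_lit 0, nat_lit 0, nat_lit 0, nat_lit 0, nat_lit 0, false, false⟩,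
 nat_lit 0, nat_lit 11087, nat_lit 0, nat_lit 0, nat_lit 8315, nat_lit 5505, nat_lit 458, nat_lit 0, nat_lit 0, nat_lit 1218, nat_lit 0, nat_lit 0, nat_lit 0, nat_lit 0, nat_lit 0, nat_lit 0, nat_lit 0, nat_lit 0, [],
 ⟨p020_k54, nat_lit 0, nat_lit 0, nat_lit 639, nat_lit 0, nat_lit 1247701, [nat_lit 2032000001, nat_lit 4688000000, nat_lit 6250000000], [], [nat_lit 24506997241, nat_lit 24637989281, nat_lit 24286000360, nat_lit 24419094158], nat_lit 1271250, nat_lit 1271250, nat_lit 872850, nat_lit 1100001, nat_lit 0, nat_lit 0, [nat_lit 490000, nat_lit 1100000, nat_lit 1442500], [nat_lit 6, nat_lit 40, nat_lit 80, nat_lit 80, nat_lit 3, nat_lit 249, nat_lit 40, nat_lit 9]⟩, ⟨p020_k70, nat_lit 0, nat_lit 0, nat_lit 0, nat_lit 0, nat_lit 0, [nat_lit 3282000000, nat_lit 6250000000], [], [nat_lit 19335224333, nat_lit 19508621935, nat_lit 19574898193, nat_lit 19741006040], nat_lit 0, nat_lit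 0, nat_lit 0, nat_lit 0, nat_lit 0, nat_lit 0, [], [nat_lit 49, nat_lit 40, nat_lit 80, nat_lit 80]⟩,
 zbF0, [⟨nat_lit 0, nat_lit 86, nat_lit 83, nat_lit 100, nat_lit 711482631⟩]⟩
noncomputable def b_N_800_700_0_16 : St := ⟨false, nat_lit 1, nat_lit 0, nat_lit 1, nat_lit 40, nat_lit 320, nat_lit 323, nat_lit 310, nat_lit 315, nat_lit 132, nat_lit 160, nat_lit 0, nat_lit 0, nat_lit 0, nat_lit 0, nat_lit 0, nat_lit 0, nat_lit 20, nat_lit 32, nat_lit 0, nat_lit 0, nat_lit 0, nat_lit 800⟩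
theorem d_N_800_700_0_16 (h : EB TB.env) : Dead b_N_800_700_0_16 := chkB_sound0 h (T :=
(.spl (nat_lit 6) (nat_lit 24)
(.spl (nat_lit 1) (nat_lit 313)
(.leaf p020_l194)
(.leaf p020_l195))
(.spl (nat_lit 1) (nat_lit 313)
(.leaf p020_l196)
(.leaf p020_l197)))) (by decide +kernel)
noncomputable def p020_l198 : Lf2 := ⟨nat_lit 0, nat_lit 6, [nat_lit 47, nat_lit 5, nat_lit 5, nat_lit 20], false, nat_lit 0, nat_lit 0, nat_lit 0, nat_lit 0, ⟨nat_lit 1000, nat_lit 0, nat_lit 0, nat_lit 0, nat_lit 0, nat_lit 0, nat_lit 0, nat_lit 0, nat_lit 0, nat_lit 0, nat_lit 0, nat_lit 0, nat_lit 0, nat_lit 0, nat_lit 0, nat_lit 0, false, false⟩,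
 nat_lit 0, nat_lit 8724, nat_lit 0, nat_lit 0, nat_lit 6542, nat_lit 5504, nat_lit 482, nat_lit 0, nat_lit 0, nat_lit 1148, nat_lit 0, nat_lit 0, nat_lit 0, nat_lit 0, nat_lit 0, nat_lit 0, nat_lit 0, nat_lit 0, [],
 ⟨p020_k60, nat_lit 0, nat_lit 0, nat_lit 652, nat_lit 0, nat_lit 1283946, [nat_lit 2032000001, nat_lit 4688000000, nat_lit 6250000000], [], [nat_lit 33335984758, nat_lit 33450377020, nat_lit 33272935361, nat_lit 33390034808], nat_lit 1271250, nat_lit 1271250, nat_lit 904401, nat_lit 1100001, nat_lit 0, nat_lit 0, [nat_lit 490000, nat_lit 1100000, nat_lit 1442500], [nat_lit 6, nat_lit 40, nat_lit 80, nat_lit 80, nat_lit 3, nat_lit 249, nat_lit 40, nat_lit 9]⟩, ⟨p020_k71, nat_lit 0, nat_lit 0, nat_lit 0, nat_lit 0, nat_lit 0, [nat_lit 3282000000, nat_lit 6250000000], [], [nat_lit 19550701887, nat_lit 19636870783, nat_lit 19749954632, nat_lit 19832999792], nat_lit 0, nat_lit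 0, nat_lit 0, nat_lit 0, nat_lit 0, nat_lit 0, [], [nat_lit 49, nat_lit 40, nat_lit 80, nat_lit 80]⟩,
 zbF0, [⟨nat_lit 0, nat_lit 85, nat_lit 82, nat_lit 100, nat_lit 688578245⟩]⟩
noncomputable def p020_l199 : Lf2 := ⟨nat_lit 0, nat_lit 6, [nat_lit 47, nat_lit 5, nat_lit 5, nat_lit 20], false, nat_lit 0, nat_lit 0, nat_lit 0, nat_lit 0, ⟨nat_lit 1000, nat_lit 0, nat_lit 0, nat_lit 0, nat_lit 0, nat_lit 0, nat_lit 0, nat_lit 0, nat_lit 0, nat_lit 0, nat_lit 0, nat_lit 0, nat_lit 0, nat_lit 0, nat_lit 0, nat_lit 0, false, false⟩,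
 nat_lit 0, nat_lit 8712, nat_lit 0, nat_lit 0, nat_lit 6534, nat_lit 4953, nat_lit 481, nat_lit 0, nat_lit 0, nat_lit 1467, nat_lit 0, nat_lit 0, nat_lit 0, nat_lit 0, nat_lit 0, nat_lit 0, nat_lit 0, nat_lit 0, [],
 ⟨p020_k60, nat_lit 0, nat_lit 0, nat_lit 652, nat_lit 0, nat_lit 1285772, [nat_lit 2032000001, nat_lit 4688000000, nat_lit 6250000000], [], [nat_lit 33379783395, nat_lit 33456005418, nat_lit 33317302721, nat_lit 33390880681], nat_lit 1271250, nat_lit 1271250, nat_lit 904401, nat_lit 1100001, nat_lit 0, nat_lit 0, [nat_lit 490000, nat_lit 1100000, nat_lit 1442500], [nat_lit 6, nat_lit 40, nat_lit 80, nat_lit 80, nat_lit 3, nat_lit 249, nat_lit 40, nat_lit 9]⟩, ⟨p020_k72, nat_lit 0, nat_lit 0, nat_lit 0, nat_lit 0, nat_lit 0, [nat_lit 3282000000, nat_lit 6250000000], [], [nat_lit 18932186114, nat_lit 19013281507, nat_lit 19165128954, nat_lit 19244216721], nat_lit 0, nat_lit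 0, nat_lit 0, nat_lit 0, nat_lit 0, nat_lit 0, [], [nat_lit 49, nat_lit 40, nat_lit 80, nat_lit 80]⟩,
 zbF0, [⟨nat_lit 0, nat_lit 85, nat_lit 83, nat_lit 100, nat_lit 671788860⟩]⟩
noncomputable def p020_l200 : Lf2 := ⟨nat_lit 0, nat_lit 6, [nat_lit 47, nat_lit 5, nat_lit 5, nat_lit 20], false, nat_lit 0, nat_lit 0, nat_lit 0, nat_lit 0, ⟨nat_lit 1000, nat_lit 0, nat_lit 0, nat_lit 0, nat_lit 0, nat_lit 0, nat_lit 0, nat_lit 0, nat_lit 0, nat_lit 0, nat_lit 0, nat_lit 0, nat_lit 0, nat_lit 0, nat_lit 0, nat_lit 0, false, false⟩,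
 nat_lit 0, nat_lit 8653, nat_lit 0, nat_lit 0, nat_lit 6540, nat_lit 4965, nat_lit 492, nat_lit 0, nat_lit 0, nat_lit 1467, nat_lit 0, nat_lit 0, nat_lit 0, nat_lit 0, nat_lit 0, nat_lit 0, nat_lit 0, nat_lit 0, [],
 ⟨p020_k73, nat_lit 0, nat_lit 0, nat_lit 648, nat_lit 0, nat_lit 1279107, [nat_lit 2032000001, nat_lit 4688000000, nat_lit 6250000000], [], [nat_lit 32563074347, nat_lit 32601235521, nat_lit 32510228628, nat_lit 32549916813], nat_lit 1271250, nat_lit 1271250, nat_lit 936251, nat_lit 1100001, nat_lit 0, nat_lit 0, [nat_lit 490000, nat_lit 1100000, nat_lit 1442500], [nat_lit 6, nat_lit 40, nat_lit 80, nat_lit 80, nat_lit 3, nat_lit 249, nat_lit 40, nat_lit 9]⟩, ⟨p020_k72, nat_lit 0, nat_lit 0, nat_lit 0, nat_lit 0, nat_lit 0, [nat_lit 3282000000, nat_lit 6250000000], [], [nat_lit 18959950122, nat_lit 19041430447, nat_lit 19153401027, nat_lit 19232695643], nat_lit 0, nat_lit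 0, nat_lit 0, nat_lit 0, nat_lit 0, nat_lit 0, [], [nat_lit 49, nat_lit 40, nat_lit 80, nat_lit 80]⟩,
 zbF0, [⟨nat_lit 0, nat_lit 84, nat_lit 82, nat_lit 100, nat_lit 683867061⟩]⟩
noncomputable def p020_l201 : Lf2 := ⟨nat_lit 0, nat_lit 6, [nat_lit 47, nat_lit 5, nat_lit 5, nat_lit 20], false, nat_lit 0, nat_lit 0, nat_lit 0, nat_lit 0, ⟨nat_lit 1000, nat_lit 0, nat_lit 0, nat_lit 0, nat_lit 0, nat_lit 0, nat_lit 0, nat_lit 0, nat_lit 0, nat_lit 0, nat_lit 0, nat_lit 0, nat_lit 0, nat_lit 0, nat_lit 0, nat_lit 0, false, false⟩,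
 nat_lit 0, nat_lit 8737, nat_lit 0, nat_lit 0, nat_lit 6552, nat_lit 4955, nat_lit 482, nat_lit 0, nat_lit 0, nat_lit 1424, nat_lit 0, nat_lit 0, nat_lit 0, nat_lit 0, nat_lit 0, nat_lit 0, nat_lit 0, nat_lit 0, [],
 ⟨p020_k60, nat_lit 0, nat_lit 0, nat_lit 651, nat_lit 0, nat_lit 1287677, [nat_lit 2032000001, nat_lit 4688000000, nat_lit 6250000000], [], [nat_lit 33270609745, nat_lit 33308544365, nat_lit 33220277888, nat_lit 33259997688], nat_lit 1271250, nat_lit 1271250, nat_lit 936251, nat_lit 1100001, nat_lit 0, nat_lit 0, [nat_lit 490000, nat_lit 1100000, nat_lit 1442500], [nat_lit 6, nat_lit 40, nat_lit 80, nat_lit 80, nat_lit 3, nat_lit 249, nat_lit 40, nat_lit 9]⟩, ⟨p020_k74, nat_lit 0, nat_lit 0, nat_lit 0, nat_lit 0, nat_lit 0, [nat_lit 3282000000, nat_lit 6250000000], [], [nat_lit 19063440967, nat_lit 19144074688, nat_lit 19255048208, nat_lit 19333281493], nat_lit 0, nat_lit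 0, nat_lit 0, nat_lit 0, nat_lit 0, nat_lit 0, [], [nat_lit 49, nat_lit 40, nat_lit 80, nat_lit 80]⟩,
 zbF0, [⟨nat_lit 0, nat_lit 84, nat_lit 83, nat_lit 100, nat_lit 676621339⟩]⟩
noncomputable def p020_l202 : Lf2 := ⟨nat_lit 0, nat_lit 6, [nat_lit 47, nat_lit 5, nat_lit 5, nat_lit 20], false, nat_lit 0, nat_lit 0, nat_lit 0, nat_lit 0, ⟨nat_lit 1000, nat_lit 0, nat_lit 0, nat_lit 0, nat_lit 0, nat_lit 0, nat_lit 0, nat_lit 0, nat_lit 0, nat_lit 0, nat_lit 0, nat_lit 0, nat_lit 0, nat_lit 0, nat_lit 0, nat_lit 0, false, false⟩,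
 nat_lit 0, nat_lit 8695, nat_lit 0, nat_lit 0, nat_lit 6546, nat_lit 4955, nat_lit 484, nat_lit 0, nat_lit 0, nat_lit 1424, nat_lit 0, nat_lit 0, nat_lit 0, nat_lit 0, nat_lit 0, nat_lit 0, nat_lit 0, nat_lit 0, [],
 ⟨p020_k75, nat_lit 0, nat_lit 0, nat_lit 652, nat_lit 0, nat_lit 1287666, [nat_lit 2032000001, nat_lit 4688000000, nat_lit 6250000000], [], [nat_lit 32993337853, nat_lit 33031513706, nat_lit 32941000316, nat_lit 32980704308], nat_lit 1271250, nat_lit 1271250, nat_lit 936251, nat_lit 1100001, nat_lit 0, nat_lit 0, [nat_lit 490000, nat_lit 1100000, nat_lit 1442500], [nat_lit 6, nat_lit 40, nat_lit 80, nat_lit 80, nat_lit 3, nat_lit 249, nat_lit 40, nat_lit 9]⟩, ⟨p020_k74, nat_lit 0, nat_lit 0, nat_lit 0, nat_lit 0, nat_lit 0, [nat_lit 3282000000, nat_lit 6250000000], [], [nat_lit 19063440967, nat_lit 19144074688, nat_lit 19255048208, nat_lit 19333281493], nat_lit 0, nat_lit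 0, nat_lit 0, nat_lit 0, nat_lit 0, nat_lit 0, [], [nat_lit 49, nat_lit 40, nat_lit 80, nat_lit 80]⟩,
 zbF0, [⟨nat_lit 0, nat_lit 84, nat_lit 83, nat_lit 100, nat_lit 675994368⟩]⟩
noncomputable def p020_l203 : Lf2 := ⟨nat_lit 0, nat_lit 6, [nat_lit 47, nat_lit 5, nat_lit 5, nat_lit 20], false, nat_lit 0, nat_lit 0, nat_lit 0, nat_lit 0, ⟨nat_lit 1000, nat_lit 0, nat_lit 0, nat_lit 0, nat_lit 0, nat_lit 0, nat_lit 0, nat_lit 0, nat_lit 0, nat_lit 0, nat_lit 0, nat_lit 0, nat_lit 0, nat_lit 0, nat_lit 0, nat_lit 0, false, false⟩,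
 nat_lit 0, nat_lit 8653, nat_lit 0, nat_lit 0, nat_lit 6540, nat_lit 4955, nat_lit 492, nat_lit 0, nat_lit 0, nat_lit 1424, nat_lit 0, nat_lit 0, nat_lit 0, nat_lit 0, nat_lit 0, nat_lit 0, nat_lit 0, nat_lit 0, [],
 ⟨p020_k73, nat_lit 0, nat_lit 0, nat_lit 652, nat_lit 0, nat_lit 1287641, [nat_lit 2032000001, nat_lit 4688000000, nat_lit 6250000000], [], [nat_lit 32563074347, nat_lit 32601235521, nat_lit 32510228628, nat_lit 32549916813], nat_lit 1271250, nat_lit 1271250, nat_lit 936251, nat_lit 1100001, nat_lit 0, nat_lit 0, [nat_lit 490000, nat_lit 1100000, nat_lit 1442500], [nat_lit 6, nat_lit 40, nat_lit 80, nat_lit 80, nat_lit 3, nat_lit 249, nat_lit 40, nat_lit 9]⟩, ⟨p020_k74, nat_lit 0, nat_lit 0, nat_lit 0, nat_lit 0, nat_lit 0, [nat_lit 3282000000, nat_lit 6250000000], [], [nat_lit 19063440967, nat_lit 19144074688, nat_lit 19255048208, nat_lit 19333281493], nat_lit 0, nat_lit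 0, nat_lit 0, nat_lit 0, nat_lit 0, nat_lit 0, [], [nat_lit 49, nat_lit 40, nat_lit 80, nat_lit 80]⟩,
 zbF0, [⟨nat_lit 0, nat_lit 84, nat_lit 82, nat_lit 100, nat_lit 683605488⟩]⟩
noncomputable def p020_l204 : Lf2 := ⟨nat_lit 0, nat_lit 6, [nat_lit 47, nat_lit 5, nat_lit 5, nat_lit 20], false, nat_lit 0, nat_lit 0, nat_lit 0, nat_lit 0, ⟨nat_lit 1000, nat_lit 0, nat_lit 0, nat_lit 0, nat_lit 0, nat_lit 0, nat_lit 0, nat_lit 0, nat_lit 0, nat_lit 0, nat_lit 0, nat_lit 0, nat_lit 0, nat_lit 0, nat_lit 0, nat_lit 0, false, false⟩,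
 nat_lit 0, nat_lit 0, nat_lit 0, nat_lit 0, nat_lit 0, nat_lit 4371, nat_lit 166, nat_lit 0, nat_lit 491, nat_lit 1398, nat_lit 0, nat_lit 0, nat_lit 0, nat_lit 0, nat_lit 0, nat_lit 0, nat_lit 0, nat_lit 0, [],
 ⟨p020_k60, nat_lit 0, nat_lit 0, nat_lit 0, nat_lit 0, nat_lit 1296384, [nat_lit 2032000001, nat_lit 4688000000, nat_lit 6250000000], [], [nat_lit 12734360000, nat_lit 12773162600, nat_lit 12830547200, nat_lit 12869219960], nat_lit 1271250, nat_lit 1271250, nat_lit 936251, nat_lit 968401, nat_lit 0, nat_lit 0, [nat_lit 490000, nat_lit 1100000, nat_lit 1442500], [nat_lit 6, nat_lit 40, nat_lit 80, nat_lit 80]⟩, ⟨p020_k76, nat_lit 0, nat_lit 0, nat_lit 0, nat_lit 0, nat_lit 0, [nat_lit 3282000000, nat_lit 6250000000], [], [nat_lit 19623255997, nat_lit 19698555477, nat_lit 19667686706, nat_lit 19752350066], nat_lit 0, nat_lit 0, nat_lit 0, nat_lit 0, nat_lit 0, nat_lit 0, [], [nat_lit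 49, nat_lit 40, nat_lit 80, nat_lit 80]⟩,
 zbF0, [⟨nat_lit 0, nat_lit 84, nat_lit 83, nat_lit 100, nat_lit 14343086632⟩, ⟨nat_lit 0, nat_lit 84, nat_lit 83, nat_lit 100, nat_lit 14343086632⟩, ⟨nat_lit 0, nat_lit 84, nat_lit 84, nat_lit 100, nat_lit 14172335601⟩]⟩
noncomputable def p020_l205 : Lf2 := ⟨nat_lit 0, nat_lit 6, [nat_lit 47, nat_lit 5, nat_lit 5, nat_lit 20], false, nat_lit 0, nat_lit 0, nat_lit 0, nat_lit 0, ⟨nat_lit 1000, nat_lit 0, nat_lit 0, nat_lit 0, nat_lit 0, nat_lit 0, nat_lit 0, nat_lit 0, nat_lit 0, nat_lit 0, nat_lit 0, nat_lit 0, nat_lit 0, nat_lit 0, nat_lit 0, nat_lit 0, false, false⟩,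
 nat_lit 0, nat_lit 0, nat_lit 0, nat_lit 0, nat_lit 0, nat_lit 4351, nat_lit 0, nat_lit 0, nat_lit 457, nat_lit 1398, nat_lit 0, nat_lit 0, nat_lit 0, nat_lit 0, nat_lit 0, nat_lit 0, nat_lit 0, nat_lit 0, [],
 ⟨p020_k60, nat_lit 0, nat_lit 0, nat_lit 0, nat_lit 0, nat_lit 1296384, [nat_lit 2032000001, nat_lit 4688000000, nat_lit 6250000000], [], [nat_lit 15499638000, nat_lit 15523642775, nat_lit 15571160800, nat_lit 15595108780], nat_lit 1271250, nat_lit 1271250, nat_lit 936251, nat_lit 968401, nat_lit 0, nat_lit 0, [nat_lit 490000, nat_lit 1100000, nat_lit 1442500], [nat_lit 6, nat_lit 40, nat_lit 80, nat_lit 80]⟩, ⟨p020_k76, nat_lit 0, nat_lit 0, nat_lit 0, nat_lit 0, nat_lit 0, [nat_lit 3282000000, nat_lit 6250000000], [], [nat_lit 19641323636, nat_lit 19716440436, nat_lit 19685980007, nat_lit 19770327617], nat_lit 0, nat_lit 0, nat_lit 0, nat_lit 0, nat_lit 0, nat_lit 0, [], [nat_lit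 49, nat_lit 40, nat_lit 80, nat_lit 80]⟩,
 zbF0, []⟩
noncomputable def p020_l206 : Lf2 := ⟨nat_lit 0, nat_lit 6, [nat_lit 47, nat_lit 5, nat_lit 5, nat_lit 20], false, nat_lit 0, nat_lit 0, nat_lit 0, nat_lit 0, ⟨nat_lit 1000, nat_lit 0, nat_lit 0, nat_lit 0, nat_lit 0, nat_lit 0, nat_lit 0, nat_lit 0, nat_lit 0, nat_lit 0, nat_lit 0, nat_lit 0, nat_lit 0, nat_lit 0, nat_lit 0, nat_lit 0, false, false⟩,
 nat_lit 0, nat_lit 0, nat_lit 0, nat_lit 0, nat_lit 0, nat_lit 5494, nat_lit 127, nat_lit 0, nat_lit 449, nat_lit 1049, nat_lit 0, nat_lit 0, nat_lit 0, nat_lit 0, nat_lit 0, nat_lit 0, nat_lit 0, nat_lit 0, [],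
 ⟨p020_k60, nat_lit 0, nat_lit 0, nat_lit 0, nat_lit 0, nat_lit 1296384, [nat_lit 2032000001, nat_lit 4688000000, nat_lit 6250000000], [], [nat_lit 15791889000, nat_lit 15815642775, nat_lit 15863160800, nat_lit 15887108780], nat_lit 1271250, nat_lit 1271250, nat_lit 936251, nat_lit 968401, nat_lit 0, nat_lit 0, [nat_lit 490000, nat_lit 1100000, nat_lit 1442500], [nat_lit 6, nat_lit 40, nat_lit 80, nat_lit 80]⟩, ⟨p020_k76, nat_lit 0, nat_lit 0, nat_lit 0, nat_lit 0, nat_lit 0, [nat_lit 3282000000, nat_lit 6250000000], [], [nat_lit 19870611192, nat_lit 19992224042, nat_lit 19902370946, nat_lit 19993899605], nat_lit 0, nat_lit 0, nat_lit 0, nat_lit 0, nat_lit 0, nat_lit 0, [], [nat_lit 49, nat_lit 40, nat_lit 80, nat_lit 80]⟩,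
 zbF0, [⟨nat_lit 0, nat_lit 84, nat_lit 84, nat_lit 100, nat_lit 543824850⟩]⟩
noncomputable def p020_l207 : Lf2 := ⟨nat_lit 0, nat_lit 6, [nat_lit 47, nat_lit 5, nat_lit 5, nat_lit 20], false, nat_lit 0, nat_lit 0, nat_lit 0, nat_lit 0, ⟨nat_lit 1000, nat_lit 0, nat_lit 0, nat_lit 0, nat_lit 0, nat_lit 0, nat_lit 0, nat_lit 0, nat_lit 0, nat_lit 0, nat_lit 0, nat_lit 0, nat_lit 0, nat_lit 0, nat_lit 0, nat_lit 0, false, false⟩,
 nat_lit 0, nat_lit 8734, nat_lit 0, nat_lit 0, nat_lit 6550, nat_lit 4032, nat_lit 481, nat_lit 0, nat_lit 0, nat_lit 1425, nat_lit 0, nat_lit 0, nat_lit 0, nat_lit 0, nat_lit 0, nat_lit 0, nat_lit 0, nat_lit 0, [],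
 ⟨p020_k60, nat_lit 0, nat_lit 0, nat_lit 655, nat_lit 0, nat_lit 1296384, [nat_lit 2032000001, nat_lit 4688000000, nat_lit 6250000000], [], [nat_lit 33282677000, nat_lit 33320862639, nat_lit 33270980081, nat_lit 33308689057], nat_lit 1271250, nat_lit 1271250, nat_lit 936251, nat_lit 968401, nat_lit 0, nat_lit 0, [nat_lit 490000, nat_lit 1100000, nat_lit 1442500], [nat_lit 6, nat_lit 40, nat_lit 80, nat_lit 80, nat_lit 3, nat_lit 249, nat_lit 40, nat_lit 9]⟩, ⟨p020_k77, nat_lit 0, nat_lit 0, nat_lit 0, nat_lit 0, nat_lit 0, [nat_lit 2032000000, nat_lit 3282000000, nat_lit 4688000000, nat_lit 6250000000], [], [nat_lit 18443503007, nat_lit 18523900683, nat_lit 18490230408, nat_lit 18566454923], nat_lit 0, nat_lit 0, nat_lit 0, nat_lit 0, nat_lit 0, nat_lit 0, [], [nat_lit 127, nat_lit 40, nat_lit 80, nat_lit 80]⟩,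
 zbF0, [⟨nat_lit 0, nat_lit 84, nat_lit 83, nat_lit 100, nat_lit 878927327⟩]⟩
noncomputable def p020_l208 : Lf2 := ⟨nat_lit 0, nat_lit 6, [nat_lit 47, nat_lit 5, nat_lit 5, nat_lit 20], false, nat_lit 0, nat_lit 0, nat_lit 0, nat_lit 0, ⟨nat_lit 1000, nat_lit 0, nat_lit 0, nat_lit 0, nat_lit 0, nat_lit 0, nat_lit 0, nat_lit 0, nat_lit 0, nat_lit 0, nat_lit 0, nat_lit 0, nat_lit 0, nat_lit 0, nat_lit 0, nat_lit 0, false, false⟩,
 nat_lit 0, nat_lit 12740, nat_lit 0, nat_lit 0, nat_lit 9554, nat_lit 100000, nat_lit 438, nat_lit 0, nat_lit 0, nat_lit 18275, nat_lit 7842, nat_lit 0, nat_lit 0, nat_lit 0, nat_lit 0, nat_lit 0, nat_lit 0, nat_lit 0, [],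
 ⟨p020_k60, nat_lit 0, nat_lit 0, nat_lit 655, nat_lit 0, nat_lit 1296384, [nat_lit 2032000001, nat_lit 4688000000, nat_lit 6250000000], [], [nat_lit 18239417000, nat_lit 18286762116, nat_lit 18187996088, nat_lit 18243174649], nat_lit 1271250, nat_lit 1271250, nat_lit 936251, nat_lit 968401, nat_lit 0, nat_lit 0, [nat_lit 490000, nat_lit 1100000, nat_lit 1442500], [nat_lit 6, nat_lit 40, nat_lit 80, nat_lit 80, nat_lit 3, nat_lit 249, nat_lit 40, nat_lit 9]⟩, ⟨p020_k76, nat_lit 0, nat_lit 0, nat_lit 0, nat_lit 0, nat_lit 0, [nat_lit 97386000000, nat_lit 163090000000], [], [nat_lit 123385183475, nat_lit 124609120351, nat_lit 122122276645, nat_lit 123420256700], nat_lit 0, nat_lit 0, nat_lit 0, nat_lit 0, nat_lit 0, nat_lit 0, [], [nat_lit 49, nat_lit 40, nat_lit 80, nat_lit 80]⟩,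
 zbF0, [⟨nat_lit 0, nat_lit 84, nat_lit 84, nat_lit 100, nat_lit 13349619826⟩]⟩
noncomputable def p020_l209 : Lf2 := ⟨nat_lit 3, nat_lit 6, [nat_lit 47, nat_lit 5, nat_lit 5, nat_lit 20], false, nat_lit 0, nat_lit 0, nat_lit 0, nat_lit 0, zbN0,
 nat_lit 0, nat_lit 0, nat_lit 0, nat_lit 0, nat_lit 0, nat_lit 0, nat_lit 0, nat_lit 0, nat_lit 0, nat_lit 0, nat_lit 0, nat_lit 0, nat_lit 0, nat_lit 0, nat_lit 0, nat_lit 0, nat_lit 0, nat_lit 0, [],
 C1.Rw.none, ⟨p020_k76, nat_lit 0, nat_lit 0, nat_lit 0, nat_lit 0, nat_lit 0, [], [], [], nat_lit 0, nat_lit 0, nat_lit 0, nat_lit 0, nat_lit 0, nat_lit 0, [], [nat_lit 49, nat_lit 40, nat_lit 80, nat_lit 80]⟩,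
 zbF0, []⟩
noncomputable def p020_l210 : Lf2 := ⟨nat_lit 0, nat_lit 6, [nat_lit 47, nat_lit 5, nat_lit 5, nat_lit 20], false, nat_lit 0, nat_lit 0, nat_lit 0, nat_lit 0, ⟨nat_lit 1000, nat_lit 0, nat_lit 0, nat_lit 0, nat_lit 0, nat_lit 0, nat_lit 0, nat_lit 0, nat_lit 0, nat_lit 0, nat_lit 0, nat_lit 0, nat_lit 0, nat_lit 0, nat_lit 0, nat_lit 0, false, false⟩,
 nat_lit 0, nat_lit 0, nat_lit 0, nat_lit 0, nat_lit 0, nat_lit 8572, nat_lit 165, nat_lit 0, nat_lit 490, nat_lit 0, nat_lit 0, nat_lit 0, nat_lit 0, nat_lit 0, nat_lit 0, nat_lit 0, nat_lit 0, nat_lit 0, [],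
 ⟨p020_k60, nat_lit 0, nat_lit 0, nat_lit 0, nat_lit 0, nat_lit 1296384, [nat_lit 2032000001, nat_lit 4688000000, nat_lit 6250000000], [], [nat_lit 12861401600, nat_lit 12896183000, nat_lit 12952952200, nat_lit 12989277320], nat_lit 1271250, nat_lit 1271250, nat_lit 968401, nat_lit 1000851, nat_lit 0, nat_lit 0, [nat_lit 490000, nat_lit 1100000, nat_lit 1442500], [nat_lit 6, nat_lit 40, nat_lit 80, nat_lit 80]⟩, ⟨p020_k76, nat_lit 0, nat_lit 0, nat_lit 0, nat_lit 0, nat_lit 0, [nat_lit 3282000000, nat_lit 6250000000], [], [nat_lit 23967360578, nat_lit 24132760869, nat_lit 23914570865, nat_lit 24078646388], nat_lit 0, nat_lit 0, nat_lit 0, nat_lit 0, nat_lit 0, nat_lit 0, [], [nat_lit 49, nat_lit 40, nat_lit 80, nat_lit 80]⟩,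
 zbF0, [⟨nat_lit 0, nat_lit 84, nat_lit 83, nat_lit 100, nat_lit 1114704863⟩, ⟨nat_lit 0, nat_lit 84, nat_lit 84, nat_lit 100, nat_lit 14172335601⟩]⟩
noncomputable def p020_l211 : Lf2 := ⟨nat_lit 0, nat_lit 6, [nat_lit 47, nat_lit 5, nat_lit 5, nat_lit 20], false, nat_lit 0, nat_lit 0, nat_lit 0, nat_lit 0, ⟨nat_lit 1000, nat_lit 0, nat_lit 0, nat_lit 0, nat_lit 0, nat_lit 0, nat_lit 0, nat_lit 0, nat_lit 0, nat_lit 0, nat_lit 0, nat_lit 0, nat_lit 0, nat_lit 0, nat_lit 0, nat_lit 0, false, false⟩,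
 nat_lit 0, nat_lit 0, nat_lit 0, nat_lit 0, nat_lit 0, nat_lit 3848, nat_lit 137, nat_lit 0, nat_lit 466, nat_lit 1394, nat_lit 0, nat_lit 0, nat_lit 0, nat_lit 0, nat_lit 0, nat_lit 0, nat_lit 0, nat_lit 0, [],
 ⟨p020_k60, nat_lit 0, nat_lit 0, nat_lit 0, nat_lit 0, nat_lit 1296384, [nat_lit 2032000001, nat_lit 4688000000, nat_lit 6250000000], [], [nat_lit 14266152800, nat_lit 14292989380, nat_lit 14345243600, nat_lit 14373704820], nat_lit 1271250, nat_lit 1271250, nat_lit 968401, nat_lit 1000851, nat_lit 0, nat_lit 0, [nat_lit 490000, nat_lit 1100000, nat_lit 1442500], [nat_lit 6, nat_lit 40, nat_lit 80, nat_lit 80]⟩, ⟨p020_k76, nat_lit 0, nat_lit 0, nat_lit 0, nat_lit 0, nat_lit 0, [nat_lit 3282000000, nat_lit 6250000000], [], [nat_lit 20160519043, nat_lit 20230643101, nat_lit 20210850828, nat_lit 20282264956], nat_lit 0, nat_lit 0, nat_lit 0, nat_lit 0, nat_lit 0, nat_lit 0, [], [nat_lit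 49, nat_lit 40, nat_lit 80, nat_lit 80]⟩,
 zbF0, []⟩
noncomputable def p020_l212 : Lf2 := ⟨nat_lit 0, nat_lit 6, [nat_lit 47, nat_lit 5, nat_lit 5, nat_lit 20], false, nat_lit 0, nat_lit 0, nat_lit 0, nat_lit 0, ⟨nat_lit 1000, nat_lit 0, nat_lit 0, nat_lit 0, nat_lit 0, nat_lit 0, nat_lit 0, nat_lit 0, nat_lit 0, nat_lit 0, nat_lit 0, nat_lit 0, nat_lit 0, nat_lit 0, nat_lit 0, nat_lit 0, false, false⟩,
 nat_lit 0, nat_lit 0, nat_lit 0, nat_lit 0, nat_lit 0, nat_lit 5494, nat_lit 127, nat_lit 0, nat_lit 449, nat_lit 1047, nat_lit 0, nat_lit 0, nat_lit 0, nat_lit 0, nat_lit 0, nat_lit 0, nat_lit 0, nat_lit 0, [],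
 ⟨p020_k60, nat_lit 0, nat_lit 0, nat_lit 0, nat_lit 0, nat_lit 1296384, [nat_lit 2032000001, nat_lit 4688000000, nat_lit 6250000000], [], [nat_lit 15863160800, nat_lit 15887108780, nat_lit 15934683600, nat_lit 15958574785], nat_lit 1271250, nat_lit 1271250, nat_lit 968401, nat_lit 1000851, nat_lit 0, nat_lit 0, [nat_lit 490000, nat_lit 1100000, nat_lit 1442500], [nat_lit 6, nat_lit 40, nat_lit 80, nat_lit 80]⟩, ⟨p020_k76, nat_lit 0, nat_lit 0, nat_lit 0, nat_lit 0, nat_lit 0, [nat_lit 3282000000, nat_lit 6250000000], [], [nat_lit 19909602196, nat_lit 19994639245, nat_lit 19941361950, nat_lit 20025879114], nat_lit 0, nat_lit 0, nat_lit 0, nat_lit 0, nat_lit 0, nat_lit 0, [], [nat_lit 49, nat_lit 40, nat_lit 80, nat_lit 80]⟩,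
 zbF0, []⟩
noncomputable def p020_l213 : Lf2 := ⟨nat_lit 0, nat_lit 6, [nat_lit 47, nat_lit 5, nat_lit 5, nat_lit 20], false, nat_lit 0, nat_lit 0, nat_lit 0, nat_lit 0, ⟨nat_lit 1000, nat_lit 0, nat_lit 0, nat_lit 0, nat_lit 0, nat_lit 0, nat_lit 0, nat_lit 0, nat_lit 0, nat_lit 0, nat_lit 0, nat_lit 0, nat_lit 0, nat_lit 0, nat_lit 0, nat_lit 0, false, false⟩,
 nat_lit 0, nat_lit 8734, nat_lit 0, nat_lit 0, nat_lit 6550, nat_lit 4032, nat_lit 481, nat_lit 0, nat_lit 0, nat_lit 1425, nat_lit 0, nat_lit 0, nat_lit 0, nat_lit 0, nat_lit 0, nat_lit 0, nat_lit 0, nat_lit 0, [],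
 ⟨p020_k60, nat_lit 0, nat_lit 0, nat_lit 653, nat_lit 0, nat_lit 1296384, [nat_lit 2032000001, nat_lit 4688000000, nat_lit 6250000000], [], [nat_lit 33270980081, nat_lit 33308689057, nat_lit 33260377062, nat_lit 33298926307], nat_lit 1271250, nat_lit 1271250, nat_lit 968401, nat_lit 1000851, nat_lit 0, nat_lit 0, [nat_lit 490000, nat_lit 1100000, nat_lit 1442500], [nat_lit 6, nat_lit 40, nat_lit 80, nat_lit 80, nat_lit 3, nat_lit 249, nat_lit 40, nat_lit 9]⟩, ⟨p020_k77, nat_lit 0, nat_lit 0, nat_lit 0, nat_lit 0, nat_lit 0, [nat_lit 2032000000, nat_lit 3282000000, nat_lit 4688000000, nat_lit 6250000000], [], [nat_lit 18490230408, nat_lit 18566454923, nat_lit 18539445879, nat_lit 18615152375], nat_lit 0, nat_lit 0, nat_lit 0, nat_lit 0, nat_lit 0, nat_lit 0, [], [nat_lit 127, nat_lit 40, nat_lit 80, nat_lit 80]⟩,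
 zbF0, [⟨nat_lit 0, nat_lit 84, nat_lit 83, nat_lit 100, nat_lit 659703302⟩]⟩
noncomputable def p020_l214 : Lf2 := ⟨nat_lit 0, nat_lit 6, [nat_lit 47, nat_lit 5, nat_lit 5, nat_lit 20], false, nat_lit 0, nat_lit 0, nat_lit 0, nat_lit 0, ⟨nat_lit 1000, nat_lit 0, nat_lit 0, nat_lit 0, nat_lit 0, nat_lit 0, nat_lit 0, nat_lit 0, nat_lit 0, nat_lit 0, nat_lit 0, nat_lit 0, nat_lit 0, nat_lit 0, nat_lit 0, nat_lit 0, false, false⟩,
 nat_lit 0, nat_lit 1881, nat_lit 0, nat_lit 0, nat_lit 1410, nat_lit 100000, nat_lit 549, nat_lit 0, nat_lit 0, nat_lit 18241, nat_lit 7854, nat_lit 0, nat_lit 0, nat_lit 0, nat_lit 0, nat_lit 0, nat_lit 0, nat_lit 0, [],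
 ⟨p020_k60, nat_lit 0, nat_lit 0, nat_lit 653, nat_lit 0, nat_lit 1296384, [nat_lit 2032000001, nat_lit 4688000000, nat_lit 6250000000], [], [nat_lit 61533405777, nat_lit 61558701037, nat_lit 61583703534, nat_lit 61608913497], nat_lit 1271250, nat_lit 1271250, nat_lit 968401, nat_lit 1000851, nat_lit 0, nat_lit 0, [nat_lit 490000, nat_lit 1100000, nat_lit 1442500], [nat_lit 6, nat_lit 40, nat_lit 80, nat_lit 80, nat_lit 3, nat_lit 249, nat_lit 40, nat_lit 9]⟩, ⟨p020_k76, nat_lit 0, nat_lit 0, nat_lit 0, nat_lit 0, nat_lit 0, [nat_lit 97530000000, nat_lit 163330000000], [], [nat_lit 122629207895, nat_lit 123570482535, nat_lit 121594644166, nat_lit 122528421071], nat_lit 0, nat_lit 0, nat_lit 0, nat_lit 0, nat_lit 0, nat_lit 0, [], [nat_lit 49, nat_lit 40, nat_lit 80, nat_lit 80]⟩,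
 zbF0, []⟩
noncomputable def p020_l215 : Lf2 := ⟨nat_lit 3, nat_lit 6, [nat_lit 47, nat_lit 5, nat_lit 5, nat_lit 20], false, nat_lit 0, nat_lit 0, nat_lit 0, nat_lit 0, zbN0,
 nat_lit 0, nat_lit 0, nat_lit 0, nat_lit 0, nat_lit 0, nat_lit 0, nat_lit 0, nat_lit 0, nat_lit 0, nat_lit 0, nat_lit 0, nat_lit 0, nat_lit 0, nat_lit 0, nat_lit 0, nat_lit 0, nat_lit 0, nat_lit 0, [],
 C1.Rw.none, ⟨p020_k76, nat_lit 0, nat_lit 0, nat_lit 0, nat_lit 0, nat_lit 0, [], [], [], nat_lit 0, nat_lit 0, nat_lit 0, nat_lit 0, nat_lit 0, nat_lit 0, [], [nat_lit 49, nat_lit 40, nat_lit 80, nat_lit 80]⟩,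
 zbF0, []⟩
noncomputable def p020_l216 : Lf2 := ⟨nat_lit 0, nat_lit 6, [nat_lit 47, nat_lit 5, nat_lit 5, nat_lit 20], false, nat_lit 0, nat_lit 0, nat_lit 0, nat_lit 0, ⟨nat_lit 1000, nat_lit 0, nat_lit 0, nat_lit 0, nat_lit 0, nat_lit 0, nat_lit 0, nat_lit 0, nat_lit 0, nat_lit 0, nat_lit 0, nat_lit 0, nat_lit 0, nat_lit 0, nat_lit 0, nat_lit 0, false, false⟩,
 nat_lit 0, nat_lit 8730, nat_lit 0, nat_lit 0, nat_lit 6547, nat_lit 4953, nat_lit 479, nat_lit 0, nat_lit 0, nat_lit 1391, nat_lit 0, nat_lit 0, nat_lit 0, nat_lit 0, nat_lit 0, nat_lit 0, nat_lit 0, nat_lit 0, [],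
 ⟨p020_k60, nat_lit 0, nat_lit 0, nat_lit 652, nat_lit 0, nat_lit 1296384, [nat_lit 2032000001, nat_lit 4688000000, nat_lit 6250000000], [], [nat_lit 33277772168, nat_lit 33315505509, nat_lit 33266340711, nat_lit 33304450137], nat_lit 1271250, nat_lit 1271250, nat_lit 1000851, nat_lit 1033601, nat_lit 0, nat_lit 0, [nat_lit 490000, nat_lit 1100000, nat_lit 1442500], [nat_lit 6, nat_lit 40, nat_lit 80, nat_lit 80, nat_lit 3, nat_lit 249, nat_lit 40, nat_lit 9]⟩, ⟨p020_k76, nat_lit 0, nat_lit 0, nat_lit 0, nat_lit 0, nat_lit 0, [nat_lit 3282000000, nat_lit 6250000000], [], [nat_lit 19198524931, nat_lit 19278180505, nat_lit 19236388858, nat_lit 19326709919], nat_lit 0, nat_lit 0, nat_lit 0, nat_lit 0, nat_lit 0, nat_lit 0, [], [nat_lit 49, nat_lit 40, nat_lit 80, nat_lit 80]⟩,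
 zbF0, []⟩
noncomputable def p020_l217 : Lf2 := ⟨nat_lit 0, nat_lit 6, [nat_lit 47, nat_lit 5, nat_lit 5, nat_lit 20], false, nat_lit 0, nat_lit 0, nat_lit 0, nat_lit 0, ⟨nat_lit 1000, nat_lit 0, nat_lit 0, nat_lit 0, nat_lit 0, nat_lit 0, nat_lit 0, nat_lit 0, nat_lit 0, nat_lit 0, nat_lit 0, nat_lit 0, nat_lit 0, nat_lit 0, nat_lit 0, nat_lit 0, false, false⟩,
 nat_lit 0, nat_lit 8727, nat_lit 0, nat_lit 0, nat_lit 6545, nat_lit 4969, nat_lit 478, nat_lit 0, nat_lit 0, nat_lit 1388, nat_lit 0, nat_lit 0, nat_lit 0, nat_lit 0, nat_lit 0, nat_lit 0, nat_lit 0, nat_lit 0, [],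
 ⟨p020_k60, nat_lit 0, nat_lit 0, nat_lit 651, nat_lit 0, nat_lit 1296384, [nat_lit 2032000001, nat_lit 4688000000, nat_lit 6250000000], [], [nat_lit 33277926821, nat_lit 33315432948, nat_lit 33256297601, nat_lit 33295452838], nat_lit 1271250, nat_lit 1271250, nat_lit 1033601, nat_lit 1100001, nat_lit 0, nat_lit 0, [nat_lit 490000, nat_lit 1100000, nat_lit 1442500], [nat_lit 6, nat_lit 40, nat_lit 80, nat_lit 80, nat_lit 3, nat_lit 249, nat_lit 40, nat_lit 9]⟩, ⟨p020_k76, nat_lit 0, nat_lit 0, nat_lit 0, nat_lit 0, nat_lit 0, [nat_lit 3282000000, nat_lit 6250000000], [], [nat_lit 19232240032, nat_lit 19312007918, nat_lit 19319024918, nat_lit 19409194551], nat_lit 0, nat_lit 0, nat_lit 0, nat_lit 0, nat_lit 0, nat_lit 0, [], [nat_lit 49, nat_lit 40, nat_lit 80, nat_lit 80]⟩,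
 zbF0, []⟩
noncomputable def p020_l218 : Lf2 := ⟨nat_lit 0, nat_lit 6, [nat_lit 47, nat_lit 5, nat_lit 5, nat_lit 20], false, nat_lit 0, nat_lit 0, nat_lit 0, nat_lit 0, ⟨nat_lit 946, nat_lit 16, nat_lit 38, nat_lit 7, nat_lit 212, nat_lit 0, nat_lit 0, nat_lit 0, nat_lit 0, nat_lit 215, nat_lit 11606, nat_lit 240, nat_lit 52287865, nat_lit 14712135, nat_lit 0, nat_lit 2631904, false, false⟩,
 nat_lit 0, nat_lit 0, nat_lit 0, nat_lit 0, nat_lit 0, nat_lit 0, nat_lit 0, nat_lit 0, nat_lit 477, nat_lit 0, nat_lit 0, nat_lit 0, nat_lit 0, nat_lit 0, nat_lit 0, nat_lit 13050, nat_lit 0, nat_lit 0, [(nat_lit 18, [(nat_lit 1, nat_lit 16), (nat_lit 3, nat_lit 38)])],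
 ⟨p020_k60, nat_lit 0, nat_lit 0, nat_lit 0, nat_lit 0, nat_lit 1305114, [nat_lit 2466610134, nat_lit 4465311467, nat_lit 5920920800], [], [nat_lit 13349280800, nat_lit 13388083400, nat_lit 13445468000, nat_lit 13484140760], nat_lit 1271250, nat_lit 1271250, nat_lit 936251, nat_lit 968401, nat_lit 0, nat_lit 0, [nat_lit 490000, nat_lit 1100000, nat_lit 1442500], [nat_lit 6, nat_lit 40, nat_lit 80, nat_lit 80]⟩, ⟨p020_k78, nat_lit 0, nat_lit 0, nat_lit 0, nat_lit 0, nat_lit 0, [nat_lit 3104772000, nat_lit 5912500000], [], [nat_lit 27114211441, nat_lit 27147676072, nat_lit 27202790184, nat_lit 27236146749], nat_lit 0, nat_lit 0, nat_lit 0, nat_lit 0, nat_lit 0, nat_lit 0, [], [nat_lit 49, nat_lit 40, nat_lit 80, nat_lit 80]⟩,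
 ⟨nat_lit 4444, nat_lit 4473, ⟨.ofNat (nat_lit 526352), .ofNat (nat_lit 533149), .ofNat (nat_lit 527430), .ofNat (nat_lit 534228), .ofNat (nat_lit 526663), .ofNat (nat_lit 533444), .ofNat (nat_lit 527742), .ofNat (nat_lit 534523)⟩, ⟨.ofNat (nat_lit 0), .ofNat (nat_lit 0), .ofNat (nat_lit 0), .ofNat (nat_lit 0), .ofNat (nat_lit 0), .ofNat (nat_lit 0), .ofNat (nat_lit 0), .ofNat (nat_lit 0)⟩⟩, [⟨nat_lit 0, nat_lit 84, nat_lit 83, nat_lit 100, nat_lit 14343086632⟩, ⟨nat_lit 0, nat_lit 83, nat_lit 83, nat_lit 100, nat_lit 14515894905⟩, ⟨nat_lit 0, nat_lit 84, nat_lit 83, nat_lit 100, nat_lit 14343086632⟩]⟩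
noncomputable def p020_l219 : Lf2 := ⟨nat_lit 0, nat_lit 6, [nat_lit 47, nat_lit 5, nat_lit 5, nat_lit 20], false, nat_lit 0, nat_lit 0, nat_lit 0, nat_lit 0, ⟨nat_lit 1000, nat_lit 0, nat_lit 0, nat_lit 0, nat_lit 0, nat_lit 0, nat_lit 0, nat_lit 0, nat_lit 0, nat_lit 0, nat_lit 0, nat_lit 0, nat_lit 0, nat_lit 0, nat_lit 0, nat_lit 0, false, false⟩,
 nat_lit 0, nat_lit 0, nat_lit 0, nat_lit 0, nat_lit 0, nat_lit 5473, nat_lit 0, nat_lit 0, nat_lit 466, nat_lit 810, nat_lit 0, nat_lit 0, nat_lit 0, nat_lit 0, nat_lit 0, nat_lit 0, nat_lit 0, nat_lit 0, [],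
 ⟨p020_k60, nat_lit 0, nat_lit 0, nat_lit 0, nat_lit 0, nat_lit 1305114, [nat_lit 2032000001, nat_lit 4688000000, nat_lit 6250000000], [], [nat_lit 14736727000, nat_lit 14762864725, nat_lit 14812848000, nat_lit 14840696561], nat_lit 1271250, nat_lit 1271250, nat_lit 936251, nat_lit 968401, nat_lit 0, nat_lit 0, [nat_lit 490000, nat_lit 1100000, nat_lit 1442500], [nat_lit 6, nat_lit 40, nat_lit 80, nat_lit 80]⟩, ⟨p020_k78, nat_lit 0, nat_lit 0, nat_lit 0, nat_lit 0, nat_lit 0, [nat_lit 3282000000, nat_lit 6250000000], [], [nat_lit 20760612958, nat_lit 20845978078, nat_lit 20792091324, nat_lit 20876938110], nat_lit 0, nat_lit 0, nat_lit 0, nat_lit 0, nat_lit 0, nat_lit 0, [], [nat_lit 49, nat_lit 40, nat_lit 80, nat_lit 80]⟩,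
 zbF0, []⟩
noncomputable def p020_l220 : Lf2 := ⟨nat_lit 0, nat_lit 6, [nat_lit 47, nat_lit 5, nat_lit 5, nat_lit 20], false, nat_lit 0, nat_lit 0, nat_lit 0, nat_lit 0, ⟨nat_lit 1000, nat_lit 0, nat_lit 0, nat_lit 0, nat_lit 0, nat_lit 0, nat_lit 0, nat_lit 0, nat_lit 0, nat_lit 0, nat_lit 0, nat_lit 0, nat_lit 0, nat_lit 0, nat_lit 0, nat_lit 0, false, false⟩,
 nat_lit 0, nat_lit 0, nat_lit 0, nat_lit 0, nat_lit 0, nat_lit 5494, nat_lit 127, nat_lit 0, nat_lit 449, nat_lit 1020, nat_lit 0, nat_lit 0, nat_lit 0, nat_lit 0, nat_lit 0, nat_lit 0, nat_lit 0, nat_lit 0, [],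
 ⟨p020_k60, nat_lit 0, nat_lit 0, nat_lit 0, nat_lit 0, nat_lit 1305114, [nat_lit 2032000001, nat_lit 4688000000, nat_lit 6250000000], [], [nat_lit 15791889000, nat_lit 15815642775, nat_lit 15863160800, nat_lit 15887108780], nat_lit 1271250, nat_lit 1271250, nat_lit 936251, nat_lit 968401, nat_lit 0, nat_lit 0, [nat_lit 490000, nat_lit 1100000, nat_lit 1442500], [nat_lit 6, nat_lit 40, nat_lit 80, nat_lit 80]⟩, ⟨p020_k78, nat_lit 0, nat_lit 0, nat_lit 0, nat_lit 0, nat_lit 0, [nat_lit 3282000000, nat_lit 6250000000], [], [nat_lit 19992224042, nat_lit 20114711688, nat_lit 19993899605, nat_lit 20115691037], nat_lit 0, nat_lit 0, nat_lit 0, nat_lit 0, nat_lit 0, nat_lit 0, [], [nat_lit 49, nat_lit 40, nat_lit 80, nat_lit 80]⟩,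
 zbF0, [⟨nat_lit 0, nat_lit 84, nat_lit 83, nat_lit 100, nat_lit 608372108⟩]⟩
noncomputable def p020_l221 : Lf2 := ⟨nat_lit 0, nat_lit 6, [nat_lit 47, nat_lit 5, nat_lit 5, nat_lit 20], false, nat_lit 0, nat_lit 0, nat_lit 0, nat_lit 0, ⟨nat_lit 1000, nat_lit 0, nat_lit 0, nat_lit 0, nat_lit 0, nat_lit 0, nat_lit 0, nat_lit 0, nat_lit 0, nat_lit 0, nat_lit 0, nat_lit 0, nat_lit 0, nat_lit 0, nat_lit 0, nat_lit 0, false, false⟩,
 nat_lit 0, nat_lit 8742, nat_lit 0, nat_lit 0, nat_lit 6556, nat_lit 4027, nat_lit 481, nat_lit 0, nat_lit 0, nat_lit 1396, nat_lit 0, nat_lit 0, nat_lit 0, nat_lit 0, nat_lit 0, nat_lit 0, nat_lit 0, nat_lit 0, [],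
 ⟨p020_k60, nat_lit 0, nat_lit 0, nat_lit 658, nat_lit 0, nat_lit 1305114, [nat_lit 2032000001, nat_lit 4688000000, nat_lit 6250000000], [], [nat_lit 33252287000, nat_lit 33290487318, nat_lit 33238125233, nat_lit 33278422540], nat_lit 1271250, nat_lit 1271250, nat_lit 936251, nat_lit 968401, nat_lit 0, nat_lit 0, [nat_lit 490000, nat_lit 1100000, nat_lit 1442500], [nat_lit 6, nat_lit 40, nat_lit 80, nat_lit 80, nat_lit 3, nat_lit 249, nat_lit 40, nat_lit 9]⟩, ⟨p020_k79, nat_lit 0, nat_lit 0, nat_lit 0, nat_lit 0, nat_lit 0, [nat_lit 2032000000, nat_lit 3282000000, nat_lit 4688000000, nat_lit 6250000000], [], [nat_lit 18535164819, nat_lit 18615509924, nat_lit 18581176821, nat_lit 18657459963], nat_lit 0, nat_lit 0, nat_lit 0, nat_lit 0, nat_lit 0, nat_lit 0, [], [nat_lit 127, nat_lit 40, nat_lit 80, nat_lit 80]⟩,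
 zbF0, [⟨nat_lit 0, nat_lit 83, nat_lit 83, nat_lit 100, nat_lit 904394984⟩]⟩
noncomputable def p020_l222 : Lf2 := ⟨nat_lit 0, nat_lit 6, [nat_lit 47, nat_lit 5, nat_lit 5, nat_lit 20], false, nat_lit 0, nat_lit 0, nat_lit 0, nat_lit 0, ⟨nat_lit 1000, nat_lit 0, nat_lit 0, nat_lit 0, nat_lit 0, nat_lit 0, nat_lit 0, nat_lit 0, nat_lit 0, nat_lit 0, nat_lit 0, nat_lit 0, nat_lit 0, nat_lit 0, nat_lit 0, nat_lit 0, false, false⟩,
 nat_lit 0, nat_lit 12740, nat_lit 0, nat_lit 0, nat_lit 9554, nat_lit 100000, nat_lit 438, nat_lit 0, nat_lit 0, nat_lit 17765, nat_lit 7854, nat_lit 0, nat_lit 0, nat_lit 0, nat_lit 0, nat_lit 0, nat_lit 0, nat_lit 0, [],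
 ⟨p020_k60, nat_lit 0, nat_lit 0, nat_lit 658, nat_lit 0, nat_lit 1305114, [nat_lit 2032000001, nat_lit 4688000000, nat_lit 6250000000], [], [nat_lit 18239417000, nat_lit 18286762116, nat_lit 18187996088, nat_lit 18243174649], nat_lit 1271250, nat_lit 1271250, nat_lit 936251, nat_lit 968401, nat_lit 0, nat_lit 0, [nat_lit 490000, nat_lit 1100000, nat_lit 1442500], [nat_lit 6, nat_lit 40, nat_lit 80, nat_lit 80, nat_lit 3, nat_lit 249, nat_lit 40, nat_lit 9]⟩, ⟨p020_k78, nat_lit 0, nat_lit 0, nat_lit 0, nat_lit 0, nat_lit 0, [nat_lit 97530000000, nat_lit 163330000000], [], [nat_lit 124837582675, nat_lit 126061381000, nat_lit 123570535660, nat_lit 124862851200], nat_lit 0, nat_lit 0, nat_lit 0, nat_lit 0, nat_lit 0, nat_lit 0, [], [nat_lit 49, nat_lit 40, nat_lit 80, nat_lit 80]⟩,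
 zbF0, [⟨nat_lit 0, nat_lit 84, nat_lit 83, nat_lit 100, nat_lit 11104385246⟩, ⟨nat_lit 0, nat_lit 84, nat_lit 83, nat_lit 100, nat_lit 14343086632⟩]⟩
noncomputable def p020_l223 : Lf2 := ⟨nat_lit 3, nat_lit 6, [nat_lit 47, nat_lit 5, nat_lit 5, nat_lit 20], false, nat_lit 0, nat_lit 0, nat_lit 0, nat_lit 0, zbN0,
 nat_lit 0, nat_lit 0, nat_lit 0, nat_lit 0, nat_lit 0, nat_lit 0, nat_lit 0, nat_lit 0, nat_lit 0, nat_lit 0, nat_lit 0, nat_lit 0, nat_lit 0, nat_lit 0, nat_lit 0, nat_lit 0, nat_lit 0, nat_lit 0, [],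
 C1.Rw.none, ⟨p020_k78, nat_lit 0, nat_lit 0, nat_lit 0, nat_lit 0, nat_lit 0, [], [], [], nat_lit 0, nat_lit 0, nat_lit 0, nat_lit 0, nat_lit 0, nat_lit 0, [], [nat_lit 49, nat_lit 40, nat_lit 80, nat_lit 80]⟩,
 zbF0, []⟩
noncomputable def p020_l224 : Lf2 := ⟨nat_lit 0, nat_lit 6, [nat_lit 47, nat_lit 5, nat_lit 5, nat_lit 20], false, nat_lit 0, nat_lit 0, nat_lit 0, nat_lit 0, ⟨nat_lit 1000, nat_lit 0, nat_lit 0, nat_lit 0, nat_lit 0, nat_lit 0, nat_lit 0, nat_lit 0, nat_lit 0, nat_lit 0, nat_lit 0, nat_lit 0, nat_lit 0, nat_lit 0, nat_lit 0, nat_lit 0, false, false⟩,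
 nat_lit 0, nat_lit 0, nat_lit 0, nat_lit 0, nat_lit 0, nat_lit 8541, nat_lit 165, nat_lit 0, nat_lit 490, nat_lit 0, nat_lit 0, nat_lit 0, nat_lit 0, nat_lit 0, nat_lit 0, nat_lit 0, nat_lit 0, nat_lit 0, [],
 ⟨p020_k60, nat_lit 0, nat_lit 0, nat_lit 0, nat_lit 0, nat_lit 1305114, [nat_lit 2032000001, nat_lit 4688000000, nat_lit 6250000000], [], [nat_lit 12861401600, nat_lit 12896183000, nat_lit 12952952200, nat_lit 12989277320], nat_lit 1271250, nat_lit 1271250, nat_lit 968401, nat_lit 1000851, nat_lit 0, nat_lit 0, [nat_lit 490000, nat_lit 1100000, nat_lit 1442500], [nat_lit 6, nat_lit 40, nat_lit 80, nat_lit 80]⟩, ⟨p020_k78, nat_lit 0, nat_lit 0, nat_lit 0, nat_lit 0, nat_lit 0, [nat_lit 3282000000, nat_lit 6250000000], [], [nat_lit 24091076431, nat_lit 24256037516, nat_lit 24038635545, nat_lit 24201485899], nat_lit 0, nat_lit 0, nat_lit 0, nat_lit 0, nat_lit 0, nat_lit 0, [], [nat_lit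 49, nat_lit 40, nat_lit 80, nat_lit 80]⟩,
 zbF0, [⟨nat_lit 0, nat_lit 84, nat_lit 83, nat_lit 100, nat_lit 4571449117⟩, ⟨nat_lit 0, nat_lit 84, nat_lit 83, nat_lit 100, nat_lit 14343086632⟩]⟩
noncomputable def p020_l225 : Lf2 := ⟨nat_lit 0, nat_lit 6, [nat_lit 47, nat_lit 5, nat_lit 5, nat_lit 20], false, nat_lit 0, nat_lit 0, nat_lit 0, nat_lit 0, ⟨nat_lit 1000, nat_lit 0, nat_lit 0, nat_lit 0, nat_lit 0, nat_lit 0, nat_lit 0, nat_lit 0, nat_lit 0, nat_lit 0, nat_lit 0, nat_lit 0, nat_lit 0, nat_lit 0, nat_lit 0, nat_lit 0, false, false⟩,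
 nat_lit 0, nat_lit 0, nat_lit 0, nat_lit 0, nat_lit 0, nat_lit 5484, nat_lit 131, nat_lit 0, nat_lit 457, nat_lit 143, nat_lit 0, nat_lit 0, nat_lit 0, nat_lit 0, nat_lit 0, nat_lit 0, nat_lit 0, nat_lit 0, [],
 ⟨p020_k60, nat_lit 0, nat_lit 0, nat_lit 0, nat_lit 0, nat_lit 1305114, [nat_lit 2032000001, nat_lit 4688000000, nat_lit 6250000000], [], [nat_lit 15047160800, nat_lit 15071108780, nat_lit 15120969000, nat_lit 15146973595], nat_lit 1271250, nat_lit 1271250, nat_lit 968401, nat_lit 1000851, nat_lit 0, nat_lit 0, [nat_lit 490000, nat_lit 1100000, nat_lit 1442500], [nat_lit 6, nat_lit 40, nat_lit 80, nat_lit 80]⟩, ⟨p020_k78, nat_lit 0, nat_lit 0, nat_lit 0, nat_lit 0, nat_lit 0, [nat_lit 3282000000, nat_lit 6250000000], [], [nat_lit 23258367170, nat_lit 23343313617, nat_lit 23289720608, nat_lit 23374147910], nat_lit 0, nat_lit 0, nat_lit 0, nat_lit 0, nat_lit 0, nat_lit 0, [], [nat_lit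 49, nat_lit 40, nat_lit 80, nat_lit 80]⟩,
 zbF0, []⟩
noncomputable def p020_l226 : Lf2 := ⟨nat_lit 0, nat_lit 6, [nat_lit 47, nat_lit 5, nat_lit 5, nat_lit 20], false, nat_lit 0, nat_lit 0, nat_lit 0, nat_lit 0, ⟨nat_lit 1000, nat_lit 0, nat_lit 0, nat_lit 0, nat_lit 0, nat_lit 0, nat_lit 0, nat_lit 0, nat_lit 0, nat_lit 0, nat_lit 0, nat_lit 0, nat_lit 0, nat_lit 0, nat_lit 0, nat_lit 0, false, false⟩,
 nat_lit 0, nat_lit 0, nat_lit 0, nat_lit 0, nat_lit 0, nat_lit 5484, nat_lit 127, nat_lit 0, nat_lit 449, nat_lit 1016, nat_lit 0, nat_lit 0, nat_lit 0, nat_lit 0, nat_lit 0, nat_lit 0, nat_lit 0, nat_lit 0, [],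
 ⟨p020_k60, nat_lit 0, nat_lit 0, nat_lit 0, nat_lit 0, nat_lit 1305114, [nat_lit 2032000001, nat_lit 4688000000, nat_lit 6250000000], [], [nat_lit 15863160800, nat_lit 15887108780, nat_lit 15934683600, nat_lit 15958574785], nat_lit 1271250, nat_lit 1271250, nat_lit 968401, nat_lit 1000851, nat_lit 0, nat_lit 0, [nat_lit 490000, nat_lit 1100000, nat_lit 1442500], [nat_lit 6, nat_lit 40, nat_lit 80, nat_lit 80]⟩, ⟨p020_k78, nat_lit 0, nat_lit 0, nat_lit 0, nat_lit 0, nat_lit 0, [nat_lit 3282000000, nat_lit 6250000000], [], [nat_lit 20017354670, nat_lit 20102301117, nat_lit 20048708108, nat_lit 20133135410], nat_lit 0, nat_lit 0, nat_lit 0, nat_lit 0, nat_lit 0, nat_lit 0, [], [nat_lit 49, nat_lit 40, nat_lit 80, nat_lit 80]⟩,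
 zbF0, []⟩
noncomputable def p020_l227 : Lf2 := ⟨nat_lit 0, nat_lit 6, [nat_lit 47, nat_lit 5, nat_lit 5, nat_lit 20], false, nat_lit 0, nat_lit 0, nat_lit 0, nat_lit 0, ⟨nat_lit 1000, nat_lit 0, nat_lit 0, nat_lit 0, nat_lit 0, nat_lit 0, nat_lit 0, nat_lit 0, nat_lit 0, nat_lit 0, nat_lit 0, nat_lit 0, nat_lit 0, nat_lit 0, nat_lit 0, nat_lit 0, false, false⟩,
 nat_lit 0, nat_lit 8730, nat_lit 0, nat_lit 0, nat_lit 6547, nat_lit 4027, nat_lit 480, nat_lit 0, nat_lit 0, nat_lit 1396, nat_lit 0, nat_lit 0, nat_lit 0, nat_lit 0, nat_lit 0, nat_lit 0, nat_lit 0, nat_lit 0, [],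
 ⟨p020_k60, nat_lit 0, nat_lit 0, nat_lit 657, nat_lit 0, nat_lit 1305114, [nat_lit 2032000001, nat_lit 4688000000, nat_lit 6250000000], [], [nat_lit 33287822084, nat_lit 33325777905, nat_lit 33276908186, nat_lit 33314389235], nat_lit 1271250, nat_lit 1271250, nat_lit 968401, nat_lit 1000851, nat_lit 0, nat_lit 0, [nat_lit 490000, nat_lit 1100000, nat_lit 1442500], [nat_lit 6, nat_lit 40, nat_lit 80, nat_lit 80, nat_lit 3, nat_lit 249, nat_lit 40, nat_lit 9]⟩, ⟨p020_k79, nat_lit 0, nat_lit 0, nat_lit 0, nat_lit 0, nat_lit 0, [nat_lit 2032000000, nat_lit 3282000000, nat_lit 4688000000, nat_lit 6250000000], [], [nat_lit 18581176821, nat_lit 18657459963, nat_lit 18630016200, nat_lit 18705696211], nat_lit 0, nat_lit 0, nat_lit 0, nat_lit 0, nat_lit 0, nat_lit 0, [], [nat_lit 127, nat_lit 40, nat_lit 80, nat_lit 80]⟩,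
 zbF0, [⟨nat_lit 0, nat_lit 83, nat_lit 83, nat_lit 100, nat_lit 669866943⟩]⟩
noncomputable def p020_l228 : Lf2 := ⟨nat_lit 0, nat_lit 6, [nat_lit 47, nat_lit 5, nat_lit 5, nat_lit 20], false, nat_lit 0, nat_lit 0, nat_lit 0, nat_lit 0, ⟨nat_lit 1000, nat_lit 0, nat_lit 0, nat_lit 0, nat_lit 0, nat_lit 0, nat_lit 0, nat_lit 0, nat_lit 0, nat_lit 0, nat_lit 0, nat_lit 0, nat_lit 0, nat_lit 0, nat_lit 0, nat_lit 0, false, false⟩,
 nat_lit 0, nat_lit 1794, nat_lit 0, nat_lit 0, nat_lit 1345, nat_lit 100000, nat_lit 550, nat_lit 0, nat_lit 0, nat_lit 17731, nat_lit 7865, nat_lit 0, nat_lit 0, nat_lit 0, nat_lit 0, nat_lit 0, nat_lit 0, nat_lit 0, [],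
 ⟨p020_k60, nat_lit 0, nat_lit 0, nat_lit 657, nat_lit 0, nat_lit 1305114, [nat_lit 2032000001, nat_lit 4688000000, nat_lit 6250000000], [], [nat_lit 61890809993, nat_lit 61915948270, nat_lit 61941877896, nat_lit 61966932589], nat_lit 1271250, nat_lit 1271250, nat_lit 968401, nat_lit 1000851, nat_lit 0, nat_lit 0, [nat_lit 490000, nat_lit 1100000, nat_lit 1442500], [nat_lit 6, nat_lit 40, nat_lit 80, nat_lit 80, nat_lit 3, nat_lit 249, nat_lit 40, nat_lit 9]⟩, ⟨p020_k78, nat_lit 0, nat_lit 0, nat_lit 0, nat_lit 0, nat_lit 0, [nat_lit 97662000000, nat_lit 163550000000], [], [nat_lit 124048760660, nat_lit 124994851200, nat_lit 123006699196, nat_lit 123940476101], nat_lit 0, nat_lit 0, nat_lit 0, nat_lit 0, nat_lit 0, nat_lit 0, [], [nat_lit 49, nat_lit 40, nat_lit 80, nat_lit 80]⟩,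
 zbF0, []⟩
noncomputable def p020_l229 : Lf2 := ⟨nat_lit 3, nat_lit 6, [nat_lit 47, nat_lit 5, nat_lit 5, nat_lit 20], false, nat_lit 0, nat_lit 0, nat_lit 0, nat_lit 0, zbN0,
 nat_lit 0, nat_lit 0, nat_lit 0, nat_lit 0, nat_lit 0, nat_lit 0, nat_lit 0, nat_lit 0, nat_lit 0, nat_lit 0, nat_lit 0, nat_lit 0, nat_lit 0, nat_lit 0, nat_lit 0, nat_lit 0, nat_lit 0, nat_lit 0, [],
 C1.Rw.none, ⟨p020_k78, nat_lit 0, nat_lit 0, nat_lit 0, nat_lit 0, nat_lit 0, [], [], [], nat_lit 0, nat_lit 0, nat_lit 0, nat_lit 0, nat_lit 0, nat_lit 0, [], [nat_lit 49, nat_lit 40, nat_lit 80, nat_lit 80]⟩,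
 zbF0, []⟩
noncomputable def p020_l230 : Lf2 := ⟨nat_lit 0, nat_lit 6, [nat_lit 47, nat_lit 5, nat_lit 5, nat_lit 20], false, nat_lit 0, nat_lit 0, nat_lit 0, nat_lit 0, ⟨nat_lit 1000, nat_lit 0, nat_lit 0, nat_lit 0, nat_lit 0, nat_lit 0, nat_lit 0, nat_lit 0, nat_lit 0, nat_lit 0, nat_lit 0, nat_lit 0, nat_lit 0, nat_lit 0, nat_lit 0, nat_lit 0, false, false⟩,
 nat_lit 0, nat_lit 8730, nat_lit 0, nat_lit 0, nat_lit 6547, nat_lit 4943, nat_lit 479, nat_lit 0, nat_lit 0, nat_lit 1352, nat_lit 0, nat_lit 0, nat_lit 0, nat_lit 0, nat_lit 0, nat_lit 0, nat_lit 0, nat_lit 0, [],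
 ⟨p020_k60, nat_lit 0, nat_lit 0, nat_lit 656, nat_lit 0, nat_lit 1305114, [nat_lit 2032000001, nat_lit 4688000000, nat_lit 6250000000], [], [nat_lit 33277772168, nat_lit 33315505509, nat_lit 33266340711, nat_lit 33304450137], nat_lit 1271250, nat_lit 1271250, nat_lit 1000851, nat_lit 1033601, nat_lit 0, nat_lit 0, [nat_lit 490000, nat_lit 1100000, nat_lit 1442500], [nat_lit 6, nat_lit 40, nat_lit 80, nat_lit 80, nat_lit 3, nat_lit 249, nat_lit 40, nat_lit 9]⟩, ⟨p020_k78, nat_lit 0, nat_lit 0, nat_lit 0, nat_lit 0, nat_lit 0, [nat_lit 3282000000, nat_lit 6250000000], [], [nat_lit 19297384499, nat_lit 19378619777, nat_lit 19335898670, nat_lit 19426912867], nat_lit 0, nat_lit 0, nat_lit 0, nat_lit 0, nat_lit 0, nat_lit 0, [], [nat_lit 49, nat_lit 40, nat_lit 80, nat_lit 80]⟩,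
 zbF0, []⟩
noncomputable def p020_l231 : Lf2 := ⟨nat_lit 0, nat_lit 6, [nat_lit 47, nat_lit 5, nat_lit 5, nat_lit 20], false, nat_lit 0, nat_lit 0, nat_lit 0, nat_lit 0, ⟨nat_lit 1000, nat_lit 0, nat_lit 0, nat_lit 0, nat_lit 0, nat_lit 0, nat_lit 0, nat_lit 0, nat_lit 0, nat_lit 0, nat_lit 0, nat_lit 0, nat_lit 0, nat_lit 0, nat_lit 0, nat_lit 0, false, false⟩,
 nat_lit 0, nat_lit 8727, nat_lit 0, nat_lit 0, nat_lit 6545, nat_lit 4959, nat_lit 478, nat_lit 0, nat_lit 0, nat_lit 1348, nat_lit 0, nat_lit 0, nat_lit 0, nat_lit 0, nat_lit 0, nat_lit 0, nat_lit 0, nat_lit 0, [],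
 ⟨p020_k60, nat_lit 0, nat_lit 0, nat_lit 654, nat_lit 0, nat_lit 1305114, [nat_lit 2032000001, nat_lit 4688000000, nat_lit 6250000000], [], [nat_lit 33277926821, nat_lit 33315432948, nat_lit 33256297601, nat_lit 33295452838], nat_lit 1271250, nat_lit 1271250, nat_lit 1033601, nat_lit 1100001, nat_lit 0, nat_lit 0, [nat_lit 490000, nat_lit 1100000, nat_lit 1442500], [nat_lit 6, nat_lit 40, nat_lit 80, nat_lit 80, nat_lit 3, nat_lit 249, nat_lit 40, nat_lit 9]⟩, ⟨p020_k78, nat_lit 0, nat_lit 0, nat_lit 0, nat_lit 0, nat_lit 0, [nat_lit 3282000000, nat_lit 6250000000], [], [nat_lit 19334878954, nat_lit 19414108063, nat_lit 19418583277, nat_lit 19508646824], nat_lit 0, nat_lit 0, nat_lit 0, nat_lit 0, nat_lit 0, nat_lit 0, [], [nat_lit 49, nat_lit 40, nat_lit 80, nat_lit 80]⟩,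
 zbF0, []⟩
noncomputable def p020_l232 : Lf2 := ⟨nat_lit 0, nat_lit 6, [nat_lit 47, nat_lit 5, nat_lit 5, nat_lit 20], false, nat_lit 0, nat_lit 0, nat_lit 0, nat_lit 0, ⟨nat_lit 1000, nat_lit 0, nat_lit 0, nat_lit 0, nat_lit 0, nat_lit 0, nat_lit 0, nat_lit 0, nat_lit 0, nat_lit 0, nat_lit 0, nat_lit 0, nat_lit 0, nat_lit 0, nat_lit 0, nat_lit 0, false, false⟩,
 nat_lit 0, nat_lit 8678, nat_lit 0, nat_lit 0, nat_lit 6533, nat_lit 4935, nat_lit 483, nat_lit 0, nat_lit 0, nat_lit 1378, nat_lit 0, nat_lit 0, nat_lit 0, nat_lit 0, nat_lit 0, nat_lit 0, nat_lit 0, nat_lit 0, [],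
 ⟨p020_k75, nat_lit 0, nat_lit 0, nat_lit 658, nat_lit 0, nat_lit 1304950, [nat_lit 2032000001, nat_lit 4688000000, nat_lit 6250000000], [], [nat_lit 33064079234, nat_lit 33101988846, nat_lit 33010969687, nat_lit 33047756357], nat_lit 1271250, nat_lit 1271250, nat_lit 936251, nat_lit 1100001, nat_lit 0, nat_lit 0, [nat_lit 490000, nat_lit 1100000, nat_lit 1442500], [nat_lit 6, nat_lit 40, nat_lit 80, nat_lit 80, nat_lit 3, nat_lit 249, nat_lit 40, nat_lit 9]⟩, ⟨p020_k76, nat_lit 0, nat_lit 0, nat_lit 0, nat_lit 0, nat_lit 0, [nat_lit 3282000000, nat_lit 6250000000], [], [nat_lit 19186061077, nat_lit 19346963160, nat_lit 19376396195, nat_lit 19532512170], nat_lit 0, nat_lit 0, nat_lit 0, nat_lit 0, nat_lit 0, nat_lit 0, [], [nat_lit 49, nat_lit 40, nat_lit 80, nat_lit 80]⟩,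
 zbF0, [⟨nat_lit 0, nat_lit 83, nat_lit 82, nat_lit 100, nat_lit 693890349⟩]⟩
noncomputable def p020_l233 : Lf2 := ⟨nat_lit 0, nat_lit 6, [nat_lit 47, nat_lit 5, nat_lit 5, nat_lit 20], false, nat_lit 0, nat_lit 0, nat_lit 0, nat_lit 0, ⟨nat_lit 1000, nat_lit 0, nat_lit 0, nat_lit 0, nat_lit 0, nat_lit 0, nat_lit 0, nat_lit 0, nat_lit 0, nat_lit 0, nat_lit 0, nat_lit 0, nat_lit 0, nat_lit 0, nat_lit 0, nat_lit 0, false, false⟩,
 nat_lit 0, nat_lit 8650, nat_lit 0, nat_lit 0, nat_lit 6538, nat_lit 4946, nat_lit 491, nat_lit 0, nat_lit 0, nat_lit 1378, nat_lit 0, nat_lit 0, nat_lit 0, nat_lit 0, nat_lit 0, nat_lit 0, nat_lit 0, nat_lit 0, [],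
 ⟨p020_k73, nat_lit 0, nat_lit 0, nat_lit 657, nat_lit 0, nat_lit 1304774, [nat_lit 2032000001, nat_lit 4688000000, nat_lit 6250000000], [], [nat_lit 32564443267, nat_lit 32602377307, nat_lit 32522081527, nat_lit 32561764442], nat_lit 1271250, nat_lit 1271250, nat_lit 968401, nat_lit 1100001, nat_lit 0, nat_lit 0, [nat_lit 490000, nat_lit 1100000, nat_lit 1442500], [nat_lit 6, nat_lit 40, nat_lit 80, nat_lit 80, nat_lit 3, nat_lit 249, nat_lit 40, nat_lit 9]⟩, ⟨p020_k76, nat_lit 0, nat_lit 0, nat_lit 0, nat_lit 0, nat_lit 0, [nat_lit 3282000000, nat_lit 6250000000], [], [nat_lit 19214066785, nat_lit 19374210970, nat_lit 19365838421, nat_lit 19522147222], nat_lit 0, nat_lit 0, nat_lit 0, nat_lit 0, nat_lit 0, nat_lit 0, [], [nat_lit 49, nat_lit 40, nat_lit 80, nat_lit 80]⟩,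
 zbF0, [⟨nat_lit 0, nat_lit 83, nat_lit 82, nat_lit 100, nat_lit 689622524⟩]⟩
noncomputable def b_N_800_700_0_17 : St := ⟨false, nat_lit 1, nat_lit 0, nat_lit 1, nat_lit 40, nat_lit 320, nat_lit 323, nat_lit 315, nat_lit 320, nat_lit 136, nat_lit 160, nat_lit 0, nat_lit 0, nat_lit 0, nat_lit 0, nat_lit 0, nat_lit 0, nat_lit 20, nat_lit 24, nat_lit 0, nat_lit 0, nat_lit 0, nat_lit 800⟩
theorem d_N_800_700_0_17 (h : EB TB.env) : Dead b_N_800_700_0_17 := chkB_sound0 h (T :=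
(.spl (nat_lit 1) (nat_lit 318)
(.spl (nat_lit 1) (nat_lit 317)
(.spl (nat_lit 1) (nat_lit 316)
(.leaf p020_l198)
(.spl (nat_lit 0) (nat_lit 322)
(.leaf p020_l199)
(.trZ (nat_lit 0) (nat_lit 85) (nat_lit 83) (nat_lit 100) (nat_lit 140) (.leaf p020_l200))))
(.trZ (nat_lit 0) (nat_lit 85) (nat_lit 84) (nat_lit 100) (nat_lit 140) (.spl (nat_lit 0) (nat_lit 322)
(.spl (nat_lit 0) (nat_lit 321)
(.leaf p020_l201)
(.leaf p020_l202))
(.leaf p020_l203))))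
(.trZ (nat_lit 0) (nat_lit 84) (nat_lit 84) (nat_lit 100) (nat_lit 140) (.spl (nat_lit 0) (nat_lit 322)
(.spl (nat_lit 0) (nat_lit 321)
(.spl (nat_lit 1) (nat_lit 319)
(.spl (nat_lit 2) (nat_lit 152)
(.spl (nat_lit 2) (nat_lit 144)
(.spl (nat_lit 7) (nat_lit 600)
(.leaf p020_l204)
(.spl (nat_lit 7) (nat_lit 900)
(.leaf p020_l205)
(.spl (nat_lit 7) (nat_lit 1060)
(.leaf p020_l206)
(.spl (nat_lit 8) (nat_lit 400)
(.spl (nat_lit 8) (nat_lit 200)
(.leaf p020_l207)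
(.leaf p020_l208))
(.leaf p020_l209)))))
(.spl (nat_lit 2) (nat_lit 148)
(.spl (nat_lit 7) (nat_lit 600)
(.leaf p020_l210)
(.spl (nat_lit 7) (nat_lit 900)
(.leaf p020_l211)
(.spl (nat_lit 8) (nat_lit 400)
(.spl (nat_lit 7) (nat_lit 1060)
(.leaf p020_l212)
(.spl (nat_lit 8) (nat_lit 200)
(.leaf p020_l213)
(.leaf p020_l214)))
(.leaf p020_l215))))
(.leaf p020_l216)))
(.leaf p020_l217))
(.spl (nat_lit 2) (nat_lit 152)
(.spl (nat_lit 2) (nat_lit 144)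
(.spl (nat_lit 7) (nat_lit 600)
(.leaf p020_l218)
(.spl (nat_lit 7) (nat_lit 900)
(.leaf p020_l219)
(.spl (nat_lit 7) (nat_lit 1060)
(.leaf p020_l220)
(.spl (nat_lit 8) (nat_lit 400)
(.spl (nat_lit 8) (nat_lit 200)
(.leaf p020_l221)
(.leaf p020_l222))
(.leaf p020_l223)))))
(.spl (nat_lit 2) (nat_lit 148)
(.spl (nat_lit 7) (nat_lit 600)
(.leaf p020_l224)
(.spl (nat_lit 7) (nat_lit 900)
(.leaf p020_l225)
(.spl (nat_lit 7) (nat_lit 1060)
(.leaf p020_l226)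
(.spl (nat_lit 8) (nat_lit 400)
(.spl (nat_lit 8) (nat_lit 200)
(.leaf p020_l227)
(.leaf p020_l228))
(.leaf p020_l229)))))
(.leaf p020_l230)))
(.leaf p020_l231)))
(.leaf p020_l232))
(.trZ (nat_lit 0) (nat_lit 84) (nat_lit 83) (nat_lit 100) (nat_lit 144) (.leaf p020_l233)))))) (by decide +kernel)
noncomputable def p020_l234 : Lf2 := ⟨nat_lit 0, nat_lit 7, [nat_lit 80, nat_lit 5, nat_lit 5, nat_lit 20], false, nat_lit 0, nat_lit 0, nat_lit 0, nat_lit 0, ⟨nat_lit 1000, nat_lit 0, nat_lit 0, nat_lit 0, nat_lit 0, nat_lit 0, nat_lit 0, nat_lit 0, nat_lit 0, nat_lit 0, nat_lit 0, nat_lit 0, nat_lit 0, nat_lit 0, nat_lit 0, nat_lit 0, false, false⟩,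
 nat_lit 0, nat_lit 11119, nat_lit 0, nat_lit 0, nat_lit 8339, nat_lit 5484, nat_lit 457, nat_lit 0, nat_lit 0, nat_lit 1140, nat_lit 0, nat_lit 0, nat_lit 0, nat_lit 0, nat_lit 0, nat_lit 0, nat_lit 0, nat_lit 0, [],
 ⟨p020_k80, nat_lit 0, nat_lit 0, nat_lit 641, nat_lit 0, nat_lit 1256760, [nat_lit 2032000001, nat_lit 4688000000, nat_lit 6250000000], [], [nat_lit 24353712892, nat_lit 24440851416, nat_lit 24164376616, nat_lit 24253232275], nat_lit 1271250, nat_lit 1271250, nat_lit 904401, nat_lit 1100001, nat_lit 0, nat_lit 0, [nat_lit 490000, nat_lit 1100000, nat_lit 1442500], [nat_lit 6, nat_lit 40, nat_lit 80, nat_lit 80, nat_lit 3, nat_lit 249, nat_lit 40, nat_lit 9]⟩, ⟨p020_k81, nat_lit 0, nat_lit 0, nat_lit 0, nat_lit 0, nat_lit 0, [nat_lit 3282000000, nat_lit 6250000000], [], [nat_lit 19595671332, nat_lit 19853699185, nat_lit 19796251472, nat_lit 20044861062], nat_lit 0, nat_lit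 0, nat_lit 0, nat_lit 0, nat_lit 0, nat_lit 0, [], [nat_lit 49, nat_lit 40, nat_lit 80, nat_lit 80]⟩,
 zbF0, [⟨nat_lit 0, nat_lit 84, nat_lit 83, nat_lit 100, nat_lit 727061755⟩]⟩
noncomputable def p020_l235 : Lf2 := ⟨nat_lit 0, nat_lit 7, [nat_lit 80, nat_lit 5, nat_lit 5, nat_lit 20], false, nat_lit 0, nat_lit 0, nat_lit 0, nat_lit 0, ⟨nat_lit 1000, nat_lit 0, nat_lit 0, nat_lit 0, nat_lit 0, nat_lit 0, nat_lit 0, nat_lit 0, nat_lit 0, nat_lit 0, nat_lit 0, nat_lit 0, nat_lit 0, nat_lit 0, nat_lit 0, nat_lit 0, false, false⟩,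
 nat_lit 0, nat_lit 10844, nat_lit 0, nat_lit 0, nat_lit 8196, nat_lit 5494, nat_lit 468, nat_lit 0, nat_lit 0, nat_lit 1142, nat_lit 0, nat_lit 0, nat_lit 0, nat_lit 0, nat_lit 0, nat_lit 0, nat_lit 0, nat_lit 0, [],
 ⟨p020_k82, nat_lit 0, nat_lit 0, nat_lit 637, nat_lit 0, nat_lit 1250417, [nat_lit 2032000001, nat_lit 4688000000, nat_lit 6250000000], [], [nat_lit 24318687238, nat_lit 24361650754, nat_lit 24168391088, nat_lit 24212442169], nat_lit 1271250, nat_lit 1271250, nat_lit 936251, nat_lit 1100001, nat_lit 0, nat_lit 0, [nat_lit 490000, nat_lit 1100000, nat_lit 1442500], [nat_lit 6, nat_lit 40, nat_lit 80, nat_lit 80, nat_lit 3, nat_lit 249, nat_lit 40, nat_lit 9]⟩, ⟨p020_k81, nat_lit 0, nat_lit 0, nat_lit 0, nat_lit 0, nat_lit 0, [nat_lit 3282000000, nat_lit 6250000000], [], [nat_lit 19613149766, nat_lit 19869820567, nat_lit 19779746802, nat_lit 20028619336], nat_lit 0, nat_lit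 0, nat_lit 0, nat_lit 0, nat_lit 0, nat_lit 0, [], [nat_lit 49, nat_lit 40, nat_lit 80, nat_lit 80]⟩,
 zbF0, [⟨nat_lit 0, nat_lit 84, nat_lit 82, nat_lit 100, nat_lit 730732165⟩]⟩
noncomputable def p020_l236 : Lf2 := ⟨nat_lit 0, nat_lit 7, [nat_lit 80, nat_lit 5, nat_lit 5, nat_lit 20], false, nat_lit 0, nat_lit 0, nat_lit 0, nat_lit 0, ⟨nat_lit 1000, nat_lit 0, nat_lit 0, nat_lit 0, nat_lit 0, nat_lit 0, nat_lit 0, nat_lit 0, nat_lit 0, nat_lit 0, nat_lit 0, nat_lit 0, nat_lit 0, nat_lit 0, nat_lit 0, nat_lit 0, false, false⟩,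
 nat_lit 0, nat_lit 8721, nat_lit 0, nat_lit 0, nat_lit 6540, nat_lit 5484, nat_lit 480, nat_lit 0, nat_lit 0, nat_lit 1045, nat_lit 0, nat_lit 0, nat_lit 0, nat_lit 0, nat_lit 0, nat_lit 0, nat_lit 0, nat_lit 0, [],
 ⟨p020_k80, nat_lit 0, nat_lit 0, nat_lit 646, nat_lit 0, nat_lit 1272224, [nat_lit 2032000001, nat_lit 4688000000, nat_lit 6250000000], [], [nat_lit 33337327000, nat_lit 33451810521, nat_lit 33284027201, nat_lit 33400154313], nat_lit 1271250, nat_lit 1271250, nat_lit 936251, nat_lit 1100001, nat_lit 0, nat_lit 0, [nat_lit 490000, nat_lit 1100000, nat_lit 1442500], [nat_lit 6, nat_lit 40, nat_lit 80, nat_lit 80, nat_lit 3, nat_lit 249, nat_lit 40, nat_lit 9]⟩, ⟨p020_k83, nat_lit 0, nat_lit 0, nat_lit 0, nat_lit 0, nat_lit 0, [nat_lit 3282000000, nat_lit 6250000000], [], [nat_lit 19894107512, nat_lit 19979573106, nat_lit 20053470437, nat_lit 20136340300], nat_lit 0, nat_lit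 0, nat_lit 0, nat_lit 0, nat_lit 0, nat_lit 0, [], [nat_lit 49, nat_lit 40, nat_lit 80, nat_lit 80]⟩,
 zbF0, [⟨nat_lit 0, nat_lit 83, nat_lit 82, nat_lit 100, nat_lit 702819069⟩]⟩
noncomputable def p020_l237 : Lf2 := ⟨nat_lit 0, nat_lit 7, [nat_lit 80, nat_lit 5, nat_lit 5, nat_lit 20], false, nat_lit 0, nat_lit 0, nat_lit 0, nat_lit 0, ⟨nat_lit 1000, nat_lit 0, nat_lit 0, nat_lit 0, nat_lit 0, nat_lit 0, nat_lit 0, nat_lit 0, nat_lit 0, nat_lit 0, nat_lit 0, nat_lit 0, nat_lit 0, nat_lit 0, nat_lit 0, nat_lit 0, false, false⟩,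
 nat_lit 0, nat_lit 8712, nat_lit 0, nat_lit 0, nat_lit 6534, nat_lit 5473, nat_lit 480, nat_lit 0, nat_lit 0, nat_lit 1014, nat_lit 0, nat_lit 0, nat_lit 0, nat_lit 0, nat_lit 0, nat_lit 0, nat_lit 0, nat_lit 0, [],
 ⟨p020_k80, nat_lit 0, nat_lit 0, nat_lit 646, nat_lit 0, nat_lit 1274124, [nat_lit 2032000001, nat_lit 4688000000, nat_lit 6250000000], [], [nat_lit 33369369949, nat_lit 33445151295, nat_lit 33317302721, nat_lit 33390880681], nat_lit 1271250, nat_lit 1271250, nat_lit 936251, nat_lit 1100001, nat_lit 0, nat_lit 0, [nat_lit 490000, nat_lit 1100000, nat_lit 1442500], [nat_lit 6, nat_lit 40, nat_lit 80, nat_lit 80, nat_lit 3, nat_lit 249, nat_lit 40, nat_lit 9]⟩, ⟨p020_k84, nat_lit 0, nat_lit 0, nat_lit 0, nat_lit 0, nat_lit 0, [nat_lit 3282000000, nat_lit 6250000000], [], [nat_lit 20003262958, nat_lit 20088628078, nat_lit 20160654786, nat_lit 20243428236], nat_lit 0, nat_lit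 0, nat_lit 0, nat_lit 0, nat_lit 0, nat_lit 0, [], [nat_lit 49, nat_lit 40, nat_lit 80, nat_lit 80]⟩,
 zbF0, [⟨nat_lit 0, nat_lit 83, nat_lit 82, nat_lit 100, nat_lit 705199992⟩]⟩
noncomputable def p020_l238 : Lf2 := ⟨nat_lit 0, nat_lit 7, [nat_lit 80, nat_lit 5, nat_lit 5, nat_lit 20], false, nat_lit 0, nat_lit 0, nat_lit 0, nat_lit 0, ⟨nat_lit 1000, nat_lit 0, nat_lit 0, nat_lit 0, nat_lit 0, nat_lit 0, nat_lit 0, nat_lit 0, nat_lit 0, nat_lit 0, nat_lit 0, nat_lit 0, nat_lit 0, nat_lit 0, nat_lit 0, nat_lit 0, false, false⟩,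
 nat_lit 0, nat_lit 8650, nat_lit 0, nat_lit 0, nat_lit 6538, nat_lit 5484, nat_lit 491, nat_lit 0, nat_lit 0, nat_lit 1016, nat_lit 0, nat_lit 0, nat_lit 0, nat_lit 0, nat_lit 0, nat_lit 0, nat_lit 0, nat_lit 0, [],
 ⟨p020_k82, nat_lit 0, nat_lit 0, nat_lit 642, nat_lit 0, nat_lit 1267534, [nat_lit 2032000001, nat_lit 4688000000, nat_lit 6250000000], [], [nat_lit 32564443267, nat_lit 32602377307, nat_lit 32522081527, nat_lit 32561764442], nat_lit 1271250, nat_lit 1271250, nat_lit 968401, nat_lit 1100001, nat_lit 0, nat_lit 0, [nat_lit 490000, nat_lit 1100000, nat_lit 1442500], [nat_lit 6, nat_lit 40, nat_lit 80, nat_lit 80, nat_lit 3, nat_lit 249, nat_lit 40, nat_lit 9]⟩, ⟨p020_k84, nat_lit 0, nat_lit 0, nat_lit 0, nat_lit 0, nat_lit 0, [nat_lit 3282000000, nat_lit 6250000000], [], [nat_lit 20017354670, nat_lit 20102301117, nat_lit 20142768425, nat_lit 20225638288], nat_lit 0, nat_lit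 0, nat_lit 0, nat_lit 0, nat_lit 0, nat_lit 0, [], [nat_lit 49, nat_lit 40, nat_lit 80, nat_lit 80]⟩,
 zbF0, [⟨nat_lit 0, nat_lit 83, nat_lit 82, nat_lit 100, nat_lit 700901425⟩]⟩
noncomputable def p020_l239 : Lf2 := ⟨nat_lit 0, nat_lit 8, [nat_lit 50, nat_lit 5, nat_lit 5, nat_lit 20], false, nat_lit 0, nat_lit 0, nat_lit 0, nat_lit 0, ⟨nat_lit 1000, nat_lit 0, nat_lit 0, nat_lit 0, nat_lit 0, nat_lit 0, nat_lit 0, nat_lit 0, nat_lit 0, nat_lit 0, nat_lit 0, nat_lit 0, nat_lit 0, nat_lit 0, nat_lit 0, nat_lit 0, false, false⟩,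
 nat_lit 0, nat_lit 11126, nat_lit 0, nat_lit 0, nat_lit 8344, nat_lit 5524, nat_lit 448, nat_lit 0, nat_lit 0, nat_lit 1108, nat_lit 0, nat_lit 0, nat_lit 0, nat_lit 0, nat_lit 0, nat_lit 0, nat_lit 0, nat_lit 0, [],
 ⟨p020_k54, nat_lit 0, nat_lit 0, nat_lit 633, nat_lit 0, nat_lit 1238149, [nat_lit 2032000001, nat_lit 4688000000, nat_lit 6250000000], [], [nat_lit 24364450032, nat_lit 24450139731, nat_lit 24146151840, nat_lit 24228599804], nat_lit 1271250, nat_lit 1271250, nat_lit 904401, nat_lit 1100001, nat_lit 0, nat_lit 0, [nat_lit 490000, nat_lit 1100000, nat_lit 1442500], [nat_lit 6, nat_lit 40, nat_lit 80, nat_lit 80, nat_lit 3, nat_lit 249, nat_lit 40, nat_lit 9]⟩, ⟨p020_k85, nat_lit 0, nat_lit 0, nat_lit 0, nat_lit 0, nat_lit 0, [nat_lit 3282000000, nat_lit 6250000000], [], [nat_lit 19673997150, nat_lit 20157304286, nat_lit 19863107792, nat_lit 20279210068], nat_lit 0, nat_lit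 0, nat_lit 0, nat_lit 0, nat_lit 0, nat_lit 0, [], [nat_lit 49, nat_lit 40, nat_lit 80, nat_lit 80]⟩,
 zbF0, [⟨nat_lit 0, nat_lit 83, nat_lit 82, nat_lit 100, nat_lit 774817579⟩]⟩
noncomputable def p020_l240 : Lf2 := ⟨nat_lit 0, nat_lit 8, [nat_lit 50, nat_lit 5, nat_lit 5, nat_lit 20], false, nat_lit 0, nat_lit 0, nat_lit 0, nat_lit 0, ⟨nat_lit 1000, nat_lit 0, nat_lit 0, nat_lit 0, nat_lit 0, nat_lit 0, nat_lit 0, nat_lit 0, nat_lit 0, nat_lit 0, nat_lit 0, nat_lit 0, nat_lit 0, nat_lit 0, nat_lit 0, nat_lit 0, false, false⟩,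
 nat_lit 0, nat_lit 10844, nat_lit 0, nat_lit 0, nat_lit 8196, nat_lit 5524, nat_lit 468, nat_lit 0, nat_lit 0, nat_lit 1114, nat_lit 0, nat_lit 0, nat_lit 0, nat_lit 0, nat_lit 0, nat_lit 0, nat_lit 0, nat_lit 0, [],
 ⟨p020_k86, nat_lit 0, nat_lit 0, nat_lit 630, nat_lit 0, nat_lit 1231917, [nat_lit 2032000001, nat_lit 4688000000, nat_lit 6250000000], [], [nat_lit 24318687238, nat_lit 24361650754, nat_lit 24168391088, nat_lit 24212442169], nat_lit 1271250, nat_lit 1271250, nat_lit 936251, nat_lit 1100001, nat_lit 0, nat_lit 0, [nat_lit 490000, nat_lit 1100000, nat_lit 1442500], [nat_lit 6, nat_lit 40, nat_lit 80, nat_lit 80, nat_lit 3, nat_lit 249, nat_lit 40, nat_lit 9]⟩, ⟨p020_k85, nat_lit 0, nat_lit 0, nat_lit 0, nat_lit 0, nat_lit 0, [nat_lit 3282000000, nat_lit 6250000000], [], [nat_lit 19678238750, nat_lit 20157536738, nat_lit 19843176542, nat_lit 20259278818], nat_lit 0, nat_lit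 0, nat_lit 0, nat_lit 0, nat_lit 0, nat_lit 0, [], [nat_lit 49, nat_lit 40, nat_lit 80, nat_lit 80]⟩,
 zbF0, [⟨nat_lit 0, nat_lit 83, nat_lit 82, nat_lit 100, nat_lit 758976616⟩]⟩
noncomputable def b_N_800_700_0_18 : St := ⟨false, nat_lit 1, nat_lit 0, nat_lit 1, nat_lit 40, nat_lit 320, nat_lit 323, nat_lit 315, nat_lit 320, nat_lit 136, nat_lit 160, nat_lit 0, nat_lit 0, nat_lit 0, nat_lit 0, nat_lit 0, nat_lit 0, nat_lit 24, nat_lit 32, nat_lit 0, nat_lit 0, nat_lit 0, nat_lit 800⟩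
theorem d_N_800_700_0_18 (h : EB TB.env) : Dead b_N_800_700_0_18 := chkB_sound0 h (T :=
(.spl (nat_lit 6) (nat_lit 28)
(.spl (nat_lit 1) (nat_lit 318)
(.spl (nat_lit 0) (nat_lit 322)
(.leaf p020_l234)
(.trZ (nat_lit 0) (nat_lit 86) (nat_lit 83) (nat_lit 100) (nat_lit 140) (.leaf p020_l235)))
(.trZ (nat_lit 0) (nat_lit 84) (nat_lit 84) (nat_lit 100) (nat_lit 140) (.spl (nat_lit 1) (nat_lit 319)
(.leaf p020_l236)
(.spl (nat_lit 0) (nat_lit 322)
(.leaf p020_l237)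
(.trZ (nat_lit 0) (nat_lit 84) (nat_lit 82) (nat_lit 100) (nat_lit 144) (.leaf p020_l238))))))
(.spl (nat_lit 0) (nat_lit 322)
(.leaf p020_l239)
(.trZ (nat_lit 0) (nat_lit 86) (nat_lit 83) (nat_lit 100) (nat_lit 140) (.leaf p020_l240))))) (by decide +kernel)

end B2
end Pool.Agent.Lib.MP_6947cd_al
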