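import Pool.Agent.Lib.MP_6947cd_al.ZB.Pre

/-!
Problem MP_6947cd_al (Chollet).  Case B, second entry in [2/5, 17/20]: certificates of the tree, part P021 (generated).
-/

set_option autoImplicit false
set_option linter.all false

namespace Pool.Agent.Lib.MP_6947cd_al
namespace B2

open Ent Fr B1 PkA

noncomputable def p021_k0 : C1.Kn := ⟨[nat_lit 40, nat_lit 80, nat_lit 100], [nat_lit 0, nat_lit 0, nat_lit 1280], [(nat_lit 0, nat_lit 0, nat_lit 0), (nat_lit 0, nat_lit 0, nat_lit 0), (nat_lit 1000, nat_lit 800, nat_lit 600)], (nat_lit 80, nat_lit 100, nat_lit 60)⟩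
noncomputable def p021_k1 : C1.Kn := ⟨[nat_lit 60, nat_lit 100, nat_lit 140], [nat_lit 0, nat_lit 0, nat_lit 2047], [(nat_lit 0, nat_lit 0, nat_lit 0), (nat_lit 0, nat_lit 0, nat_lit 0), (nat_lit 1000, nat_lit 993, nat_lit 781)], (nat_lit 94, nat_lit 100, nat_lit 62)⟩
noncomputable def p021_k2 : C1.Kn := ⟨[nat_lit 40, nat_lit 80, nat_lit 100], [nat_lit 0, nat_lit 192, nat_lit 1404], [(nat_lit 0, nat_lit 0, nat_lit 0), (nat_lit 1000, nat_lit 955, nat_lit 75), (nat_lit 1000, nat_lit 781, nat_lit 625)], (nat_lit 78, nat_lit 100, nat_lit 60)⟩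
noncomputable def p021_k3 : C1.Kn := ⟨[nat_lit 60, nat_lit 100, nat_lit 120], [nat_lit 0, nat_lit 302, nat_lit 1376], [(nat_lit 0, nat_lit 0, nat_lit 0), (nat_lit 1000, nat_lit 953, nat_lit 118), (nat_lit 1000, nat_lit 911, nat_lit 628)], (nat_lit 91, nat_lit 100, nat_lit 61)⟩
noncomputable def p021_k4 : C1.Kn := ⟨[nat_lit 40, nat_lit 80], [nat_lit 0, nat_lit 0], [(nat_lit 0, nat_lit 0, nat_lit 0), (nat_lit 0, nat_lit 0, nat_lit 0)], (nat_lit 85, nat_lit 100, nat_lit 30)⟩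
noncomputable def p021_k5 : C1.Kn := ⟨[nat_lit 60, nat_lit 80], [nat_lit 0, nat_lit 304], [(nat_lit 0, nat_lit 0, nat_lit 0), (nat_lit 1000, nat_lit 905, nat_lit 238)], (nat_lit 89, nat_lit 100, nat_lit 29)⟩
noncomputable def p021_k6 : C1.Kn := ⟨[nat_lit 40, nat_lit 60], [nat_lit 0, nat_lit 0], [(nat_lit 0, nat_lit 0, nat_lit 0), (nat_lit 0, nat_lit 0, nat_lit 0)], (nat_lit 89, nat_lit 100, nat_lit 22)⟩
noncomputable def p021_k7 : C1.Kn := ⟨[nat_lit 60, nat_lit 80], [nat_lit 0, nat_lit 304], [(nat_lit 0, nat_lit 0, nat_lit 0), (nat_lit 1000, nat_lit 905, nat_lit 238)], (nat_lit 91, nat_lit 100, nat_lit 21)⟩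
noncomputable def p021_k8 : C1.Kn := ⟨[nat_lit 40, nat_lit 80, nat_lit 100], [nat_lit 0, nat_lit 0, nat_lit 1280], [(nat_lit 0, nat_lit 0, nat_lit 0), (nat_lit 0, nat_lit 0, nat_lit 0), (nat_lit 1000, nat_lit 800, nat_lit 600)], (nat_lit 82, nat_lit 100, nat_lit 44)⟩
noncomputable def p021_k9 : C1.Kn := ⟨[nat_lit 60, nat_lit 100], [nat_lit 0, nat_lit 609], [(nat_lit 0, nat_lit 0, nat_lit 0), (nat_lit 1000, nat_lit 905, nat_lit 238)], (nat_lit 87, nat_lit 100, nat_lit 44)⟩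
noncomputable def p021_k10 : C1.Kn := ⟨[nat_lit 60, nat_lit 100], [nat_lit 0, nat_lit 909], [(nat_lit 0, nat_lit 0, nat_lit 0), (nat_lit 1000, nat_lit 858, nat_lit 354)], (nat_lit 84, nat_lit 100, nat_lit 44)⟩
noncomputable def p021_k11 : C1.Kn := ⟨[nat_lit 40, nat_lit 80], [nat_lit 0, nat_lit 192], [(nat_lit 0, nat_lit 0, nat_lit 0), (nat_lit 1000, nat_lit 955, nat_lit 75)], (nat_lit 80, nat_lit 100, nat_lit 45)⟩
noncomputable def p021_k12 : C1.Kn := ⟨[nat_lit 60, nat_lit 100, nat_lit 120], [nat_lit 0, nat_lit 609, nat_lit 1609], [(nat_lit 0, nat_lit 0, nat_lit 0), (nat_lit 1000, nat_lit 905, nat_lit 238), (nat_lit 1000, nat_lit 882, nat_lit 668)], (nat_lit 87, nat_lit 100, nat_lit 60)⟩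
noncomputable def p021_k13 : C1.Kn := ⟨[nat_lit 60, nat_lit 100, nat_lit 120], [nat_lit 0, nat_lit 909, nat_lit 1866], [(nat_lit 0, nat_lit 0, nat_lit 0), (nat_lit 1000, nat_lit 858, nat_lit 354), (nat_lit 1000, nat_lit 849, nat_lit 705)], (nat_lit 84, nat_lit 100, nat_lit 60)⟩
noncomputable def p021_k14 : C1.Kn := ⟨[nat_lit 40, nat_lit 80, nat_lit 100], [nat_lit 0, nat_lit 395, nat_lit 1536], [(nat_lit 0, nat_lit 0, nat_lit 0), (nat_lit 1000, nat_lit 908, nat_lit 154), (nat_lit 1000, nat_lit 760, nat_lit 642)], (nat_lit 76, nat_lit 100, nat_lit 60)⟩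
noncomputable def p021_k15 : C1.Kn := ⟨[nat_lit 40, nat_lit 80, nat_lit 100], [nat_lit 0, nat_lit 795, nat_lit 1829], [(nat_lit 0, nat_lit 0, nat_lit 0), (nat_lit 1000, nat_lit 814, nat_lit 310), (nat_lit 1000, nat_lit 714, nat_lit 692)], (nat_lit 72, nat_lit 100, nat_lit 61)⟩
noncomputable def p021_k16 : C1.Kn := ⟨[nat_lit 40, nat_lit 80], [nat_lit 0, nat_lit 1195], [(nat_lit 0, nat_lit 0, nat_lit 0), (nat_lit 1000, nat_lit 720, nat_lit 465)], (nat_lit 68, nat_lit 100, nat_lit 61)⟩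
noncomputable def p021_k17 : C1.Kn := ⟨[nat_lit 60, nat_lit 100], [nat_lit 0, nat_lit 0], [(nat_lit 0, nat_lit 0, nat_lit 0), (nat_lit 0, nat_lit 0, nat_lit 0)], (nat_lit 92, nat_lit 100, nat_lit 28)⟩
noncomputable def p021_k18 : C1.Kn := ⟨[nat_lit 40, nat_lit 80], [nat_lit 0, nat_lit 192], [(nat_lit 0, nat_lit 0, nat_lit 0), (nat_lit 1000, nat_lit 955, nat_lit 75)], (nat_lit 84, nat_lit 100, nat_lit 30)⟩
noncomputable def p021_k19 : C1.Kn := ⟨[nat_lit 40, nat_lit 80], [nat_lit 0, nat_lit 0], [(nat_lit 0, nat_lit 0, nat_lit 0), (nat_lit 0, nat_lit 0, nat_lit 0)], (nat_lit 82, nat_lit 100, nat_lit 40)⟩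
noncomputable def p021_k20 : C1.Kn := ⟨[nat_lit 60, nat_lit 100], [nat_lit 0, nat_lit 0], [(nat_lit 0, nat_lit 0, nat_lit 0), (nat_lit 0, nat_lit 0, nat_lit 0)], (nat_lit 92, nat_lit 100, nat_lit 39)⟩
noncomputable def p021_k21 : C1.Kn := ⟨[nat_lit 60, nat_lit 100, nat_lit 120], [nat_lit 0, nat_lit 0, nat_lit 1164], [(nat_lit 0, nat_lit 0, nat_lit 0), (nat_lit 0, nat_lit 0, nat_lit 0), (nat_lit 1000, nat_lit 933, nat_lit 572)], (nat_lit 92, nat_lit 100, nat_lit 44)⟩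
noncomputable def p021_k22 : C1.Kn := ⟨[nat_lit 60, nat_lit 100], [nat_lit 0, nat_lit 302], [(nat_lit 0, nat_lit 0, nat_lit 0), (nat_lit 1000, nat_lit 953, nat_lit 118)], (nat_lit 91, nat_lit 100, nat_lit 28)⟩
noncomputable def p021_k23 : C1.Kn := ⟨[nat_lit 40, nat_lit 80], [nat_lit 0, nat_lit 112], [(nat_lit 0, nat_lit 0, nat_lit 0), (nat_lit 1000, nat_lit 974, nat_lit 44)], (nat_lit 85, nat_lit 100, nat_lit 30)⟩
noncomputable def p021_k24 : C1.Kn := ⟨[nat_lit 60, nat_lit 100], [nat_lit 0, nat_lit 302], [(nat_lit 0, nat_lit 0, nat_lit 0), (nat_lit 1000, nat_lit 953, nat_lit 118)], (nat_lit 89, nat_lit 100, nat_lit 44)⟩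
noncomputable def p021_k25 : C1.Kn := ⟨[nat_lit 60, nat_lit 80], [nat_lit 0, nat_lit 228], [(nat_lit 0, nat_lit 0, nat_lit 0), (nat_lit 1000, nat_lit 929, nat_lit 178)], (nat_lit 92, nat_lit 100, nat_lit 21)⟩
noncomputable def p021_k26 : C1.Kn := ⟨[nat_lit 60, nat_lit 80], [nat_lit 0, nat_lit 228], [(nat_lit 0, nat_lit 0, nat_lit 0), (nat_lit 1000, nat_lit 929, nat_lit 178)], (nat_lit 90, nat_lit 100, nat_lit 29)⟩
noncomputable def p021_k27 : C1.Kn := ⟨[nat_lit 60, nat_lit 100], [nat_lit 0, nat_lit 455], [(nat_lit 0, nat_lit 0, nat_lit 0), (nat_lit 1000, nat_lit 929, nat_lit 178)], (nat_lit 88, nat_lit 100, nat_lit 44)⟩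
noncomputable def p021_k28 : C1.Kn := ⟨[nat_lit 40, nat_lit 80], [nat_lit 0, nat_lit 395], [(nat_lit 0, nat_lit 0, nat_lit 0), (nat_lit 1000, nat_lit 908, nat_lit 154)], (nat_lit 79, nat_lit 100, nat_lit 45)⟩
noncomputable def p021_k29 : C1.Kn := ⟨[nat_lit 60, nat_lit 80], [nat_lit 0, nat_lit 379], [(nat_lit 0, nat_lit 0, nat_lit 0), (nat_lit 1000, nat_lit 882, nat_lit 294)], (nat_lit 88, nat_lit 100, nat_lit 29)⟩
noncomputable def p021_k30 : C1.Kn := ⟨[nat_lit 40, nat_lit 60, nat_lit 80], [nat_lit 0, nat_lit 0, nat_lit 615], [(nat_lit 0, nat_lit 0, nat_lit 0), (nat_lit 0, nat_lit 0, nat_lit 0), (nat_lit 1000, nat_lit 819, nat_lit 426)], (nat_lit 85, nat_lit 100, nat_lit 30)⟩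
noncomputable def p021_k31 : C1.Kn := ⟨[nat_lit 40, nat_lit 80], [nat_lit 0, nat_lit 33], [(nat_lit 0, nat_lit 0, nat_lit 0), (nat_lit 1000, nat_lit 992, nat_lit 13)], (nat_lit 85, nat_lit 100, nat_lit 30)⟩
noncomputable def p021_k32 : C1.Kn := ⟨[nat_lit 60, nat_lit 80], [nat_lit 0, nat_lit 426], [(nat_lit 0, nat_lit 0, nat_lit 0), (nat_lit 1000, nat_lit 867, nat_lit 332)], (nat_lit 88, nat_lit 100, nat_lit 29)⟩
noncomputable def p021_k33 : C1.Kn := ⟨[nat_lit 60, nat_lit 80], [nat_lit 0, nat_lit 441], [(nat_lit 0, nat_lit 0, nat_lit 0), (nat_lit 1000, nat_lit 862, nat_lit 345)], (nat_lit 88, nat_lit 100, nat_lit 29)⟩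
noncomputable def p021_k34 : C1.Kn := ⟨[nat_lit 40, nat_lit 80], [nat_lit 0, nat_lit 79], [(nat_lit 0, nat_lit 0, nat_lit 0), (nat_lit 1000, nat_lit 981, nat_lit 31)], (nat_lit 85, nat_lit 100, nat_lit 30)⟩
noncomputable def p021_k35 : C1.Kn := ⟨[nat_lit 60, nat_lit 80], [nat_lit 0, nat_lit 456], [(nat_lit 0, nat_lit 0, nat_lit 0), (nat_lit 1000, nat_lit 859, nat_lit 351)], (nat_lit 87, nat_lit 100, nat_lit 29)⟩
noncomputable def p021_k36 : C1.Kn := ⟨[nat_lit 60, nat_lit 80], [nat_lit 0, nat_lit 502], [(nat_lit 0, nat_lit 0, nat_lit 0), (nat_lit 1000, nat_lit 845, nat_lit 382)], (nat_lit 87, nat_lit 100, nat_lit 29)⟩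
noncomputable def p021_k37 : C1.Kn := ⟨[nat_lit 60, nat_lit 80], [nat_lit 0, nat_lit 518], [(nat_lit 0, nat_lit 0, nat_lit 0), (nat_lit 1000, nat_lit 839, nat_lit 398)], (nat_lit 87, nat_lit 100, nat_lit 30)⟩
noncomputable def p021_k38 : C1.Kn := ⟨[nat_lit 60, nat_lit 80], [nat_lit 0, nat_lit 533], [(nat_lit 0, nat_lit 0, nat_lit 0), (nat_lit 1000, nat_lit 837, nat_lit 397)], (nat_lit 86, nat_lit 100, nat_lit 30)⟩
noncomputable def p021_k39 : C1.Kn := ⟨[nat_lit 60, nat_lit 80], [nat_lit 0, nat_lit 565], [(nat_lit 0, nat_lit 0, nat_lit 0), (nat_lit 1000, nat_lit 830, nat_lit 409)], (nat_lit 86, nat_lit 100, nat_lit 30)⟩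
noncomputable def p021_k40 : C1.Kn := ⟨[nat_lit 60, nat_lit 80], [nat_lit 0, nat_lit 581], [(nat_lit 0, nat_lit 0, nat_lit 0), (nat_lit 1000, nat_lit 827, nat_lit 411)], (nat_lit 86, nat_lit 100, nat_lit 30)⟩
noncomputable def p021_k41 : C1.Kn := ⟨[nat_lit 40, nat_lit 60, nat_lit 80], [nat_lit 0, nat_lit 16, nat_lit 632], [(nat_lit 0, nat_lit 0, nat_lit 0), (nat_lit 1000, nat_lit 992, nat_lit 13), (nat_lit 1000, nat_lit 815, nat_lit 429)], (nat_lit 85, nat_lit 100, nat_lit 30)⟩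
noncomputable def p021_k42 : C1.Kn := ⟨[nat_lit 60, nat_lit 80], [nat_lit 0, nat_lit 598], [(nat_lit 0, nat_lit 0, nat_lit 0), (nat_lit 1000, nat_lit 822, nat_lit 420)], (nat_lit 86, nat_lit 100, nat_lit 30)⟩
noncomputable def p021_k43 : C1.Kn := ⟨[nat_lit 60, nat_lit 100], [nat_lit 0, nat_lit 609], [(nat_lit 0, nat_lit 0, nat_lit 0), (nat_lit 1000, nat_lit 905, nat_lit 238)], (nat_lit 87, nat_lit 100, nat_lit 39)⟩
noncomputable def p021_k44 : C1.Kn := ⟨[nat_lit 40, nat_lit 80], [nat_lit 0, nat_lit 0], [(nat_lit 0, nat_lit 0, nat_lit 0), (nat_lit 0, nat_lit 0, nat_lit 0)], (nat_lit 84, nat_lit 100, nat_lit 36)⟩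
noncomputable def p021_k45 : C1.Kn := ⟨[nat_lit 60, nat_lit 80], [nat_lit 0, nat_lit 379], [(nat_lit 0, nat_lit 0, nat_lit 0), (nat_lit 1000, nat_lit 882, nat_lit 294)], (nat_lit 87, nat_lit 100, nat_lit 35)⟩
noncomputable def p021_k46 : C1.Kn := ⟨[nat_lit 40, nat_lit 80], [nat_lit 0, nat_lit 79], [(nat_lit 0, nat_lit 0, nat_lit 0), (nat_lit 1000, nat_lit 981, nat_lit 31)], (nat_lit 83, nat_lit 100, nat_lit 36)⟩
noncomputable def p021_k47 : C1.Kn := ⟨[nat_lit 40, nat_lit 80], [nat_lit 0, nat_lit 112], [(nat_lit 0, nat_lit 0, nat_lit 0), (nat_lit 1000, nat_lit 974, nat_lit 44)], (nat_lit 83, nat_lit 100, nat_lit 36)⟩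
noncomputable def p021_k48 : C1.Kn := ⟨[nat_lit 60, nat_lit 100], [nat_lit 0, nat_lit 755], [(nat_lit 0, nat_lit 0, nat_lit 0), (nat_lit 1000, nat_lit 882, nat_lit 294)], (nat_lit 86, nat_lit 100, nat_lit 40)⟩
noncomputable def p021_k49 : C1.Kn := ⟨[nat_lit 40, nat_lit 80], [nat_lit 0, nat_lit 112], [(nat_lit 0, nat_lit 0, nat_lit 0), (nat_lit 1000, nat_lit 974, nat_lit 44)], (nat_lit 81, nat_lit 100, nat_lit 45)⟩
noncomputable def p021_k50 : C1.Kn := ⟨[nat_lit 60, nat_lit 100], [nat_lit 0, nat_lit 755], [(nat_lit 0, nat_lit 0, nat_lit 0), (nat_lit 1000, nat_lit 882, nat_lit 294)], (nat_lit 86, nat_lit 100, nat_lit 44)⟩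
noncomputable def p021_k51 : C1.Kn := ⟨[nat_lit 60, nat_lit 100], [nat_lit 0, nat_lit 851], [(nat_lit 0, nat_lit 0, nat_lit 0), (nat_lit 1000, nat_lit 867, nat_lit 332)], (nat_lit 85, nat_lit 100, nat_lit 44)⟩
noncomputable def p021_k52 : C1.Kn := ⟨[nat_lit 60, nat_lit 80], [nat_lit 0, nat_lit 456], [(nat_lit 0, nat_lit 0, nat_lit 0), (nat_lit 1000, nat_lit 859, nat_lit 351)], (nat_lit 86, nat_lit 100, nat_lit 35)⟩
noncomputable def p021_k53 : C1.Kn := ⟨[nat_lit 40, nat_lit 60, nat_lit 80], [nat_lit 0, nat_lit 0, nat_lit 615], [(nat_lit 0, nat_lit 0, nat_lit 0), (nat_lit 0, nat_lit 0, nat_lit 0), (nat_lit 1000, nat_lit 819, nat_lit 426)], (nat_lit 84, nat_lit 100, nat_lit 36)⟩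
noncomputable def p021_k54 : C1.Kn := ⟨[nat_lit 60, nat_lit 100], [nat_lit 0, nat_lit 909], [(nat_lit 0, nat_lit 0, nat_lit 0), (nat_lit 1000, nat_lit 858, nat_lit 354)], (nat_lit 85, nat_lit 100, nat_lit 40)⟩
noncomputable def p021_k55 : C1.Kn := ⟨[nat_lit 60, nat_lit 80], [nat_lit 0, nat_lit 533], [(nat_lit 0, nat_lit 0, nat_lit 0), (nat_lit 1000, nat_lit 837, nat_lit 397)], (nat_lit 84, nat_lit 100, nat_lit 40)⟩
noncomputable def p021_k56 : C1.Kn := ⟨[nat_lit 40, nat_lit 60, nat_lit 80], [nat_lit 0, nat_lit 0, nat_lit 615], [(nat_lit 0, nat_lit 0, nat_lit 0), (nat_lit 0, nat_lit 0, nat_lit 0), (nat_lit 1000, nat_lit 819, nat_lit 426)], (nat_lit 82, nat_lit 100, nat_lit 40)⟩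
noncomputable def p021_k57 : C1.Kn := ⟨[nat_lit 40, nat_lit 80], [nat_lit 0, nat_lit 79], [(nat_lit 0, nat_lit 0, nat_lit 0), (nat_lit 1000, nat_lit 981, nat_lit 31)], (nat_lit 82, nat_lit 100, nat_lit 40)⟩
noncomputable def p021_k58 : C1.Kn := ⟨[nat_lit 40, nat_lit 80], [nat_lit 0, nat_lit 112], [(nat_lit 0, nat_lit 0, nat_lit 0), (nat_lit 1000, nat_lit 974, nat_lit 44)], (nat_lit 82, nat_lit 100, nat_lit 41)⟩
noncomputable def p021_k59 : C1.Kn := ⟨[nat_lit 60, nat_lit 100], [nat_lit 0, nat_lit 972], [(nat_lit 0, nat_lit 0, nat_lit 0), (nat_lit 1000, nat_lit 848, nat_lit 379)], (nat_lit 84, nat_lit 100, nat_lit 44)⟩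
noncomputable def p021_k60 : C1.Kn := ⟨[nat_lit 60, nat_lit 100], [nat_lit 0, nat_lit 1004], [(nat_lit 0, nat_lit 0, nat_lit 0), (nat_lit 1000, nat_lit 843, nat_lit 392)], (nat_lit 83, nat_lit 100, nat_lit 44)⟩
noncomputable def p021_k61 : C1.Kn := ⟨[nat_lit 60, nat_lit 100], [nat_lit 0, nat_lit 1031], [(nat_lit 0, nat_lit 0, nat_lit 0), (nat_lit 1000, nat_lit 839, nat_lit 401)], (nat_lit 83, nat_lit 100, nat_lit 44)⟩
noncomputable def p021_k62 : C1.Kn := ⟨[nat_lit 40, nat_lit 80], [nat_lit 0, nat_lit 79], [(nat_lit 0, nat_lit 0, nat_lit 0), (nat_lit 1000, nat_lit 981, nat_lit 31)], (nat_lit 81, nat_lit 100, nat_lit 45)⟩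
noncomputable def p021_k63 : C1.Kn := ⟨[nat_lit 60, nat_lit 100], [nat_lit 0, nat_lit 1063], [(nat_lit 0, nat_lit 0, nat_lit 0), (nat_lit 1000, nat_lit 834, nat_lit 414)], (nat_lit 83, nat_lit 100, nat_lit 44)⟩
noncomputable def p021_k64 : C1.Kn := ⟨[nat_lit 60, nat_lit 100], [nat_lit 0, nat_lit 1095], [(nat_lit 0, nat_lit 0, nat_lit 0), (nat_lit 1000, nat_lit 829, nat_lit 427)], (nat_lit 83, nat_lit 100, nat_lit 44)⟩
noncomputable def p021_k65 : C1.Kn := ⟨[nat_lit 40, nat_lit 60, nat_lit 80, nat_lit 100], [nat_lit 0, nat_lit 0, nat_lit 549, nat_lit 1090], [(nat_lit 0, nat_lit 0, nat_lit 0), (nat_lit 0, nat_lit 0, nat_lit 0), (nat_lit 1000, nat_lit 833, nat_lit 406), (nat_lit 1000, nat_lit 830, nat_lit 423)], (nat_lit 83, nat_lit 100, nat_lit 44)⟩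
noncomputable def p021_k66 : C1.Kn := ⟨[nat_lit 60, nat_lit 100], [nat_lit 0, nat_lit 1125], [(nat_lit 0, nat_lit 0, nat_lit 0), (nat_lit 1000, nat_lit 824, nat_lit 439)], (nat_lit 82, nat_lit 100, nat_lit 44)⟩
noncomputable def p021_k67 : C1.Kn := ⟨[nat_lit 40, nat_lit 60, nat_lit 80, nat_lit 100], [nat_lit 0, nat_lit 0, nat_lit 565, nat_lit 1114], [(nat_lit 0, nat_lit 0, nat_lit 0), (nat_lit 0, nat_lit 0, nat_lit 0), (nat_lit 1000, nat_lit 830, nat_lit 409), (nat_lit 1000, nat_lit 826, nat_lit 429)], (nat_lit 82, nat_lit 100, nat_lit 44)⟩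
noncomputable def p021_k68 : C1.Kn := ⟨[nat_lit 60, nat_lit 100], [nat_lit 0, nat_lit 1157], [(nat_lit 0, nat_lit 0, nat_lit 0), (nat_lit 1000, nat_lit 819, nat_lit 452)], (nat_lit 82, nat_lit 100, nat_lit 44)⟩
noncomputable def p021_k69 : C1.Kn := ⟨[nat_lit 40, nat_lit 60, nat_lit 80, nat_lit 100], [nat_lit 0, nat_lit 0, nat_lit 581, nat_lit 1141], [(nat_lit 0, nat_lit 0, nat_lit 0), (nat_lit 0, nat_lit 0, nat_lit 0), (nat_lit 1000, nat_lit 827, nat_lit 411), (nat_lit 1000, nat_lit 822, nat_lit 438)], (nat_lit 82, nat_lit 100, nat_lit 44)⟩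
noncomputable def p021_k70 : C1.Kn := ⟨[nat_lit 60, nat_lit 100], [nat_lit 0, nat_lit 1188], [(nat_lit 0, nat_lit 0, nat_lit 0), (nat_lit 1000, nat_lit 814, nat_lit 464)], (nat_lit 82, nat_lit 100, nat_lit 44)⟩
noncomputable def p021_k71 : C1.Kn := ⟨[nat_lit 40, nat_lit 60, nat_lit 80, nat_lit 100], [nat_lit 0, nat_lit 0, nat_lit 598, nat_lit 1162], [(nat_lit 0, nat_lit 0, nat_lit 0), (nat_lit 0, nat_lit 0, nat_lit 0), (nat_lit 1000, nat_lit 822, nat_lit 420), (nat_lit 1000, nat_lit 818, nat_lit 441)], (nat_lit 82, nat_lit 100, nat_lit 44)⟩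
noncomputable def p021_k72 : C1.Kn := ⟨[nat_lit 40, nat_lit 80, nat_lit 100], [nat_lit 0, nat_lit 33, nat_lit 1304], [(nat_lit 0, nat_lit 0, nat_lit 0), (nat_lit 1000, nat_lit 992, nat_lit 13), (nat_lit 1000, nat_lit 796, nat_lit 599)], (nat_lit 81, nat_lit 100, nat_lit 44)⟩
noncomputable def p021_k73 : C1.Kn := ⟨[nat_lit 60, nat_lit 80], [nat_lit 0, nat_lit 533], [(nat_lit 0, nat_lit 0, nat_lit 0), (nat_lit 1000, nat_lit 837, nat_lit 397)], (nat_lit 85, nat_lit 100, nat_lit 35)⟩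
noncomputable def p021_k74 : C1.Kn := ⟨[nat_lit 60, nat_lit 80], [nat_lit 0, nat_lit 565], [(nat_lit 0, nat_lit 0, nat_lit 0), (nat_lit 1000, nat_lit 830, nat_lit 409)], (nat_lit 84, nat_lit 100, nat_lit 35)⟩
noncomputable def p021_k75 : C1.Kn := ⟨[nat_lit 40, nat_lit 80], [nat_lit 0, nat_lit 33], [(nat_lit 0, nat_lit 0, nat_lit 0), (nat_lit 1000, nat_lit 992, nat_lit 13)], (nat_lit 83, nat_lit 100, nat_lit 36)⟩
noncomputable def p021_k76 : C1.Kn := ⟨[nat_lit 40, nat_lit 60, nat_lit 80], [nat_lit 0, nat_lit 16, nat_lit 632], [(nat_lit 0, nat_lit 0, nat_lit 0), (nat_lit 1000, nat_lit 992, nat_lit 13), (nat_lit 1000, nat_lit 815, nat_lit 429)], (nat_lit 83, nat_lit 100, nat_lit 36)⟩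
noncomputable def p021_k77 : C1.Kn := ⟨[nat_lit 60, nat_lit 80], [nat_lit 0, nat_lit 581], [(nat_lit 0, nat_lit 0, nat_lit 0), (nat_lit 1000, nat_lit 827, nat_lit 411)], (nat_lit 84, nat_lit 100, nat_lit 36)⟩
noncomputable def p021_k78 : C1.Kn := ⟨[nat_lit 60, nat_lit 80], [nat_lit 0, nat_lit 598], [(nat_lit 0, nat_lit 0, nat_lit 0), (nat_lit 1000, nat_lit 822, nat_lit 420)], (nat_lit 84, nat_lit 100, nat_lit 36)⟩
noncomputable def p021_k79 : C1.Kn := ⟨[nat_lit 60, nat_lit 80], [nat_lit 0, nat_lit 581], [(nat_lit 0, nat_lit 0, nat_lit 0), (nat_lit 1000, nat_lit 827, nat_lit 411)], (nat_lit 83, nat_lit 100, nat_lit 40)⟩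
noncomputable def p021_k80 : C1.Kn := ⟨[nat_lit 60, nat_lit 80], [nat_lit 0, nat_lit 598], [(nat_lit 0, nat_lit 0, nat_lit 0), (nat_lit 1000, nat_lit 822, nat_lit 420)], (nat_lit 83, nat_lit 100, nat_lit 40)⟩
noncomputable def p021_k81 : C1.Kn := ⟨[nat_lit 40, nat_lit 80], [nat_lit 0, nat_lit 33], [(nat_lit 0, nat_lit 0, nat_lit 0), (nat_lit 1000, nat_lit 992, nat_lit 13)], (nat_lit 82, nat_lit 100, nat_lit 40)⟩
noncomputable def p021_k82 : C1.Kn := ⟨[nat_lit 40, nat_lit 80, nat_lit 100], [nat_lit 0, nat_lit 0, nat_lit 1280], [(nat_lit 0, nat_lit 0, nat_lit 0), (nat_lit 0, nat_lit 0, nat_lit 0), (nat_lit 1000, nat_lit 800, nat_lit 600)], (nat_lit 80, nat_lit 100, nat_lit 54)⟩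
noncomputable def p021_k83 : C1.Kn := ⟨[nat_lit 60, nat_lit 100, nat_lit 120], [nat_lit 0, nat_lit 302, nat_lit 1376], [(nat_lit 0, nat_lit 0, nat_lit 0), (nat_lit 1000, nat_lit 953, nat_lit 118), (nat_lit 1000, nat_lit 911, nat_lit 628)], (nat_lit 90, nat_lit 100, nat_lit 55)⟩
noncomputable def p021_k84 : C1.Kn := ⟨[nat_lit 60, nat_lit 100, nat_lit 120], [nat_lit 0, nat_lit 455, nat_lit 1489], [(nat_lit 0, nat_lit 0, nat_lit 0), (nat_lit 1000, nat_lit 929, nat_lit 178), (nat_lit 1000, nat_lit 895, nat_lit 641)], (nat_lit 88, nat_lit 100, nat_lit 54)⟩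
noncomputable def p021_k85 : C1.Kn := ⟨[nat_lit 40, nat_lit 80, nat_lit 100], [nat_lit 0, nat_lit 0, nat_lit 1280], [(nat_lit 0, nat_lit 0, nat_lit 0), (nat_lit 0, nat_lit 0, nat_lit 0), (nat_lit 1000, nat_lit 800, nat_lit 600)], (nat_lit 81, nat_lit 100, nat_lit 48)⟩
noncomputable def p021_k86 : C1.Kn := ⟨[nat_lit 60, nat_lit 100], [nat_lit 0, nat_lit 609], [(nat_lit 0, nat_lit 0, nat_lit 0), (nat_lit 1000, nat_lit 905, nat_lit 238)], (nat_lit 87, nat_lit 100, nat_lit 48)⟩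
noncomputable def p021_k87 : C1.Kn := ⟨[nat_lit 60, nat_lit 100, nat_lit 120], [nat_lit 0, nat_lit 609, nat_lit 1609], [(nat_lit 0, nat_lit 0, nat_lit 0), (nat_lit 1000, nat_lit 905, nat_lit 238), (nat_lit 1000, nat_lit 882, nat_lit 668)], (nat_lit 87, nat_lit 100, nat_lit 54)⟩
noncomputable def p021_k88 : C1.Kn := ⟨[nat_lit 60, nat_lit 100], [nat_lit 0, nat_lit 755], [(nat_lit 0, nat_lit 0, nat_lit 0), (nat_lit 1000, nat_lit 882, nat_lit 294)], (nat_lit 85, nat_lit 100, nat_lit 48)⟩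
noncomputable def p021_k89 : C1.Kn := ⟨[nat_lit 40, nat_lit 80, nat_lit 100], [nat_lit 0, nat_lit 112, nat_lit 1353], [(nat_lit 0, nat_lit 0, nat_lit 0), (nat_lit 1000, nat_lit 974, nat_lit 44), (nat_lit 1000, nat_lit 789, nat_lit 608)], (nat_lit 80, nat_lit 100, nat_lit 48)⟩
noncomputable def p021_k90 : C1.Kn := ⟨[nat_lit 60, nat_lit 100, nat_lit 120], [nat_lit 0, nat_lit 755, nat_lit 1734], [(nat_lit 0, nat_lit 0, nat_lit 0), (nat_lit 1000, nat_lit 882, nat_lit 294), (nat_lit 1000, nat_lit 866, nat_lit 684)], (nat_lit 85, nat_lit 100, nat_lit 54)⟩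
noncomputable def p021_k91 : C1.Kn := ⟨[nat_lit 40, nat_lit 80, nat_lit 100], [nat_lit 0, nat_lit 112, nat_lit 1353], [(nat_lit 0, nat_lit 0, nat_lit 0), (nat_lit 1000, nat_lit 974, nat_lit 44), (nat_lit 1000, nat_lit 789, nat_lit 608)], (nat_lit 79, nat_lit 100, nat_lit 54)⟩
noncomputable def p021_k92 : C1.Kn := ⟨[nat_lit 60, nat_lit 100], [nat_lit 0, nat_lit 909], [(nat_lit 0, nat_lit 0, nat_lit 0), (nat_lit 1000, nat_lit 858, nat_lit 354)], (nat_lit 84, nat_lit 100, nat_lit 48)⟩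
noncomputable def p021_k93 : C1.Kn := ⟨[nat_lit 60, nat_lit 100], [nat_lit 0, nat_lit 1004], [(nat_lit 0, nat_lit 0, nat_lit 0), (nat_lit 1000, nat_lit 843, nat_lit 392)], (nat_lit 83, nat_lit 100, nat_lit 48)⟩
noncomputable def p021_k94 : C1.Kn := ⟨[nat_lit 60, nat_lit 100], [nat_lit 0, nat_lit 909], [(nat_lit 0, nat_lit 0, nat_lit 0), (nat_lit 1000, nat_lit 858, nat_lit 354)], (nat_lit 84, nat_lit 100, nat_lit 54)⟩
noncomputable def p021_k95 : C1.Kn := ⟨[nat_lit 60, nat_lit 100], [nat_lit 0, nat_lit 1004], [(nat_lit 0, nat_lit 0, nat_lit 0), (nat_lit 1000, nat_lit 843, nat_lit 392)], (nat_lit 83, nat_lit 100, nat_lit 54)⟩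
noncomputable def p021_k96 : C1.Kn := ⟨[nat_lit 60, nat_lit 100], [nat_lit 0, nat_lit 1063], [(nat_lit 0, nat_lit 0, nat_lit 0), (nat_lit 1000, nat_lit 834, nat_lit 414)], (nat_lit 82, nat_lit 100, nat_lit 48)⟩
noncomputable def p021_k97 : C1.Kn := ⟨[nat_lit 60, nat_lit 100], [nat_lit 0, nat_lit 1095], [(nat_lit 0, nat_lit 0, nat_lit 0), (nat_lit 1000, nat_lit 829, nat_lit 427)], (nat_lit 82, nat_lit 100, nat_lit 48)⟩
noncomputable def p021_k98 : C1.Kn := ⟨[nat_lit 40, nat_lit 80, nat_lit 100], [nat_lit 0, nat_lit 79, nat_lit 1328], [(nat_lit 0, nat_lit 0, nat_lit 0), (nat_lit 1000, nat_lit 981, nat_lit 31), (nat_lit 1000, nat_lit 792, nat_lit 599)], (nat_lit 80, nat_lit 100, nat_lit 48)⟩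
noncomputable def p021_k99 : C1.Kn := ⟨[nat_lit 60, nat_lit 100], [nat_lit 0, nat_lit 1125], [(nat_lit 0, nat_lit 0, nat_lit 0), (nat_lit 1000, nat_lit 824, nat_lit 439)], (nat_lit 82, nat_lit 100, nat_lit 48)⟩
noncomputable def p021_k100 : C1.Kn := ⟨[nat_lit 40, nat_lit 80, nat_lit 100], [nat_lit 0, nat_lit 33, nat_lit 1304], [(nat_lit 0, nat_lit 0, nat_lit 0), (nat_lit 1000, nat_lit 992, nat_lit 13), (nat_lit 1000, nat_lit 796, nat_lit 599)], (nat_lit 81, nat_lit 100, nat_lit 48)⟩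
noncomputable def p021_k101 : C1.Kn := ⟨[nat_lit 60, nat_lit 100], [nat_lit 0, nat_lit 1157], [(nat_lit 0, nat_lit 0, nat_lit 0), (nat_lit 1000, nat_lit 819, nat_lit 452)], (nat_lit 81, nat_lit 100, nat_lit 48)⟩
noncomputable def p021_k102 : C1.Kn := ⟨[nat_lit 40, nat_lit 60, nat_lit 80, nat_lit 100], [nat_lit 0, nat_lit 0, nat_lit 581, nat_lit 1141], [(nat_lit 0, nat_lit 0, nat_lit 0), (nat_lit 0, nat_lit 0, nat_lit 0), (nat_lit 1000, nat_lit 827, nat_lit 411), (nat_lit 1000, nat_lit 822, nat_lit 438)], (nat_lit 81, nat_lit 100, nat_lit 48)⟩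
noncomputable def p021_k103 : C1.Kn := ⟨[nat_lit 60, nat_lit 100], [nat_lit 0, nat_lit 1188], [(nat_lit 0, nat_lit 0, nat_lit 0), (nat_lit 1000, nat_lit 814, nat_lit 464)], (nat_lit 81, nat_lit 100, nat_lit 48)⟩
noncomputable def p021_k104 : C1.Kn := ⟨[nat_lit 40, nat_lit 60, nat_lit 80, nat_lit 100], [nat_lit 0, nat_lit 0, nat_lit 598, nat_lit 1162], [(nat_lit 0, nat_lit 0, nat_lit 0), (nat_lit 0, nat_lit 0, nat_lit 0), (nat_lit 1000, nat_lit 822, nat_lit 420), (nat_lit 1000, nat_lit 818, nat_lit 441)], (nat_lit 81, nat_lit 100, nat_lit 48)⟩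
noncomputable def p021_l0 : Lf2 := ⟨nat_lit 0, nat_lit 10, [nat_lit 0, nat_lit 5, nat_lit 5, nat_lit 20], false, nat_lit 0, nat_lit 0, nat_lit 0, nat_lit 0, ⟨nat_lit 1000, nat_lit 0, nat_lit 0, nat_lit 0, nat_lit 0, nat_lit 0, nat_lit 0, nat_lit 0, nat_lit 0, nat_lit 0, nat_lit 0, nat_lit 0, nat_lit 0, nat_lit 0, nat_lit 0, nat_lit 0, false, false⟩,
 nat_lit 0, nat_lit 8700, nat_lit 0, nat_lit 0, nat_lit 6524, nat_lit 5406, nat_lit 418, nat_lit 0, nat_lit 0, nat_lit 1025, nat_lit 0, nat_lit 0, nat_lit 0, nat_lit 0, nat_lit 0, nat_lit 0, nat_lit 0, nat_lit 0, [],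
 ⟨p021_k0, nat_lit 0, nat_lit 0, nat_lit 674, nat_lit 0, nat_lit 1401228, [nat_lit 2032000001, nat_lit 4688000000, nat_lit 6250000000], [], [nat_lit 36378985872, nat_lit 36510944124, nat_lit 39795374112, nat_lit 39887658882], nat_lit 1271250, nat_lit 1271250, nat_lit 1271250, nat_lit 1271250, nat_lit 0, nat_lit 0, [nat_lit 490000, nat_lit 1100000, nat_lit 1442500], [nat_lit 6, nat_lit 40, nat_lit 80, nat_lit 80, nat_lit 3, nat_lit 260, nat_lit 0, nat_lit 9]⟩, ⟨p021_k1, nat_lit 0, nat_lit 0, nat_lit 0, nat_lit 0, nat_lit 0, [nat_lit 3282000000, nat_lit 6250000000, nat_lit 9842000000], [], [nat_lit 24891291752, nat_lit 25512782824, nat_lit 35396491128, nat_lit 35857890532], nat_lit 0, nat_lit 0, nat_lit 0, nat_lit 0, nat_lit 0, nat_lit 0, [], [nat_lit 8, nat_lit 40, nat_lit 80, nat_lit 80]⟩,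
 zbF0, []⟩
noncomputable def p021_l1 : Lf2 := ⟨nat_lit 0, nat_lit 10, [nat_lit 0, nat_lit 5, nat_lit 5, nat_lit 20], false, nat_lit 0, nat_lit 0, nat_lit 0, nat_lit 0, ⟨nat_lit 1000, nat_lit 0, nat_lit 0, nat_lit 0, nat_lit 0, nat_lit 0, nat_lit 0, nat_lit 0, nat_lit 0, nat_lit 0, nat_lit 0, nat_lit 0, nat_lit 0, nat_lit 0, nat_lit 0, nat_lit 0, false, false⟩,
 nat_lit 0, nat_lit 7426, nat_lit 0, nat_lit 0, nat_lit 5678, nat_lit 5398, nat_lit 1315, nat_lit 0, nat_lit 0, nat_lit 1022, nat_lit 0, nat_lit 0, nat_lit 0, nat_lit 0, nat_lit 0, nat_lit 0, nat_lit 0, nat_lit 0, [],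
 ⟨p021_k2, nat_lit 0, nat_lit 0, nat_lit 675, nat_lit 0, nat_lit 1402473, [nat_lit 2032000001, nat_lit 4688000000, nat_lit 6250000000], [], [nat_lit 34007964575, nat_lit 34149046396, nat_lit 37374796447, nat_lit 37471793437], nat_lit 1271250, nat_lit 1271250, nat_lit 1271250, nat_lit 1271250, nat_lit 0, nat_lit 0, [nat_lit 490000, nat_lit 1100000, nat_lit 1442500], [nat_lit 6, nat_lit 40, nat_lit 80, nat_lit 80, nat_lit 3, nat_lit 260, nat_lit 0, nat_lit 9]⟩, ⟨p021_k1, nat_lit 0, nat_lit 0, nat_lit 0, nat_lit 0, nat_lit 0, [nat_lit 3282000000, nat_lit 6250000000, nat_lit 9842000000], [], [nat_lit 24906919816, nat_lit 25529144096, nat_lit 35070837230, nat_lit 35539887304], nat_lit 0, nat_lit 0, nat_lit 0, nat_lit 0, nat_lit 0, nat_lit 0, [], [nat_lit 8, nat_lit 40, nat_lit 80, nat_lit 80]⟩,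
 zbF0, []⟩
noncomputable def p021_l2 : Lf2 := ⟨nat_lit 0, nat_lit 10, [nat_lit 0, nat_lit 5, nat_lit 5, nat_lit 20], false, nat_lit 0, nat_lit 0, nat_lit 0, nat_lit 0, ⟨nat_lit 1000, nat_lit 0, nat_lit 0, nat_lit 0, nat_lit 0, nat_lit 0, nat_lit 0, nat_lit 0, nat_lit 0, nat_lit 0, nat_lit 0, nat_lit 0, nat_lit 0, nat_lit 0, nat_lit 0, nat_lit 0, false, false⟩,
 nat_lit 0, nat_lit 9689, nat_lit 0, nat_lit 0, nat_lit 7266, nat_lit 5486, nat_lit 400, nat_lit 0, nat_lit 0, nat_lit 2842, nat_lit 0, nat_lit 0, nat_lit 0, nat_lit 0, nat_lit 0, nat_lit 0, nat_lit 0, nat_lit 0, [],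
 ⟨p021_k0, nat_lit 0, nat_lit 0, nat_lit 731, nat_lit 0, nat_lit 1519423, [nat_lit 2032000001, nat_lit 4688000000, nat_lit 6250000000], [], [nat_lit 32007020248, nat_lit 32279443334, nat_lit 33393985152, nat_lit 34084173132], nat_lit 1271250, nat_lit 1271250, nat_lit 1271250, nat_lit 1271250, nat_lit 0, nat_lit 0, [nat_lit 490000, nat_lit 1100000, nat_lit 1442500], [nat_lit 6, nat_lit 40, nat_lit 80, nat_lit 80, nat_lit 3, nat_lit 264, nat_lit 0, nat_lit 9]⟩, ⟨p021_k3, nat_lit 0, nat_lit 0, nat_lit 0, nat_lit 0, nat_lit 0, [nat_lit 3282000000, nat_lit 6250000000, nat_lit 7968000000], [], [nat_lit 21963512234, nat_lit 22665988072, nat_lit 27111972212, nat_lit 27891676240], nat_lit 0, nat_lit 0, nat_lit 0, nat_lit 0, nat_lit 0, nat_lit 0, [], [nat_lit 18, nat_lit 40, nat_lit 80, nat_lit 80]⟩,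
 zbF0, []⟩
noncomputable def p021_l3 : Lf2 := ⟨nat_lit 0, nat_lit 10, [nat_lit 0, nat_lit 5, nat_lit 5, nat_lit 20], false, nat_lit 0, nat_lit 0, nat_lit 0, nat_lit 0, ⟨nat_lit 1000, nat_lit 0, nat_lit 0, nat_lit 0, nat_lit 0, nat_lit 0, nat_lit 0, nat_lit 0, nat_lit 0, nat_lit 0, nat_lit 0, nat_lit 0, nat_lit 0, nat_lit 0, nat_lit 0, nat_lit 0, false, false⟩,
 nat_lit 0, nat_lit 8659, nat_lit 0, nat_lit 0, nat_lit 6494, nat_lit 4714, nat_lit 374, nat_lit 0, nat_lit 0, nat_lit 2486, nat_lit 0, nat_lit 0, nat_lit 0, nat_lit 0, nat_lit 0, nat_lit 0, nat_lit 0, nat_lit 0, [],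
 ⟨p021_k0, nat_lit 0, nat_lit 0, nat_lit 723, nat_lit 0, nat_lit 1519423, [nat_lit 2032000001, nat_lit 4688000000, nat_lit 6250000000], [], [nat_lit 38055390528, nat_lit 38257913124, nat_lit 39970571472, nat_lit 40155115962], nat_lit 1271250, nat_lit 1271250, nat_lit 1271250, nat_lit 1271250, nat_lit 0, nat_lit 0, [nat_lit 490000, nat_lit 1100000, nat_lit 1442500], [nat_lit 6, nat_lit 40, nat_lit 80, nat_lit 80, nat_lit 3, nat_lit 272, nat_lit 0, nat_lit 9]⟩, ⟨p021_k3, nat_lit 0, nat_lit 0, nat_lit 0, nat_lit 0, nat_lit 0, [nat_lit 3282000000, nat_lit 6250000000, nat_lit 7968000000], [], [nat_lit 28363953560, nat_lit 28839761692, nat_lit 33040012050, nat_lit 33409682464], nat_lit 0, nat_lit 0, nat_lit 0, nat_lit 0, nat_lit 0, nat_lit 0, [], [nat_lit 18, nat_lit 40, nat_lit 80, nat_lit 80]⟩,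
 zbF0, []⟩
noncomputable def p021_l4 : Lf2 := ⟨nat_lit 0, nat_lit 2, [nat_lit 10, nat_lit 5, nat_lit 5, nat_lit 20], false, nat_lit 0, nat_lit 0, nat_lit 0, nat_lit 0, ⟨nat_lit 1000, nat_lit 0, nat_lit 0, nat_lit 0, nat_lit 0, nat_lit 0, nat_lit 0, nat_lit 0, nat_lit 0, nat_lit 0, nat_lit 0, nat_lit 0, nat_lit 0, nat_lit 0, nat_lit 0, nat_lit 0, false, false⟩,
 nat_lit 0, nat_lit 8784, nat_lit 0, nat_lit 0, nat_lit 6587, nat_lit 4858, nat_lit 0, nat_lit 0, nat_lit 0, nat_lit 2073, nat_lit 0, nat_lit 0, nat_lit 0, nat_lit 0, nat_lit 0, nat_lit 0, nat_lit 0, nat_lit 0, [],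
 ⟨p021_k4, nat_lit 0, nat_lit 0, nat_lit 674, nat_lit 0, nat_lit 1573157, [nat_lit 2032000001, nat_lit 4688000000], [], [nat_lit 36018446746, nat_lit 36139850170, nat_lit 37410221264, nat_lit 37527882624], nat_lit 1271250, nat_lit 1271250, nat_lit 1271250, nat_lit 1271250, nat_lit 0, nat_lit 0, [nat_lit 490000, nat_lit 1100000], [nat_lit 24, nat_lit 40, nat_lit 80, nat_lit 80, nat_lit 33, nat_lit 250, nat_lit 0, nat_lit 10]⟩, ⟨p021_k5, nat_lit 0, nat_lit 0, nat_lit 0, nat_lit 0, nat_lit 0, [nat_lit 3282000000, nat_lit 4688000000], [], [nat_lit 21308425056, nat_lit 22726708080, nat_lit 26716788720, nat_lit 28178859288], nat_lit 0, nat_lit 0, nat_lit 0, nat_lit 0, nat_lit 0, nat_lit 0, [], [nat_lit 40, nat_lit 40, nat_lit 80, nat_lit 80]⟩,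
 zbF0, []⟩
noncomputable def p021_l5 : Lf2 := ⟨nat_lit 0, nat_lit 1, [nat_lit 19, nat_lit 5, nat_lit 5, nat_lit 20], false, nat_lit 0, nat_lit 0, nat_lit 0, nat_lit 0, ⟨nat_lit 1000, nat_lit 0, nat_lit 0, nat_lit 0, nat_lit 0, nat_lit 0, nat_lit 0, nat_lit 0, nat_lit 0, nat_lit 0, nat_lit 0, nat_lit 0, nat_lit 0, nat_lit 0, nat_lit 0, nat_lit 0, false, false⟩,
 nat_lit 0, nat_lit 7573, nat_lit 0, nat_lit 0, nat_lit 5679, nat_lit 4319, nat_lit 0, nat_lit 0, nat_lit 0, nat_lit 1870, nat_lit 0, nat_lit 0, nat_lit 0, nat_lit 0, nat_lit 0, nat_lit 0, nat_lit 0, nat_lit 0, [],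
 ⟨p021_k6, nat_lit 0, nat_lit 0, nat_lit 616, nat_lit 0, nat_lit 1562382, [nat_lit 2032000001, nat_lit 3282000000], [], [nat_lit 35156193229, nat_lit 35288572869, nat_lit 37390403529, nat_lit 37498141365], nat_lit 1271250, nat_lit 1271250, nat_lit 1271250, nat_lit 1271250, nat_lit 0, nat_lit 0, [nat_lit 490000, nat_lit 780000], [nat_lit 112, nat_lit 40, nat_lit 80, nat_lit 80, nat_lit 113, nat_lit 245, nat_lit 0, nat_lit 12]⟩, ⟨p021_k7, nat_lit 0, nat_lit 0, nat_lit 0, nat_lit 0, nat_lit 0, [nat_lit 3282000000, nat_lit 4688000000], [], [nat_lit 27680725618, nat_lit 28662644180, nat_lit 32550552118, nat_lit 33360014604], nat_lit 0, nat_lit 0, nat_lit 0, nat_lit 0, nat_lit 0, nat_lit 0, [], [nat_lit 40, nat_lit 40, nat_lit 80, nat_lit 80]⟩,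
 zbF0, []⟩
noncomputable def p021_l6 : Lf2 := ⟨nat_lit 0, nat_lit 2, [nat_lit 10, nat_lit 5, nat_lit 5, nat_lit 20], false, nat_lit 0, nat_lit 0, nat_lit 0, nat_lit 0, ⟨nat_lit 1000, nat_lit 0, nat_lit 0, nat_lit 0, nat_lit 0, nat_lit 0, nat_lit 0, nat_lit 0, nat_lit 0, nat_lit 0, nat_lit 0, nat_lit 0, nat_lit 0, nat_lit 0, nat_lit 0, nat_lit 0, false, false⟩,
 nat_lit 0, nat_lit 8386, nat_lit 0, nat_lit 0, nat_lit 6289, nat_lit 4319, nat_lit 0, nat_lit 0, nat_lit 0, nat_lit 1611, nat_lit 0, nat_lit 0, nat_lit 0, nat_lit 0, nat_lit 0, nat_lit 0, nat_lit 0, nat_lit 0, [],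
 ⟨p021_k4, nat_lit 0, nat_lit 0, nat_lit 655, nat_lit 0, nat_lit 1505702, [nat_lit 2032000001, nat_lit 4688000000], [], [nat_lit 39240251134, nat_lit 39340171781, nat_lit 41167753432, nat_lit 41259940090], nat_lit 1271250, nat_lit 1271250, nat_lit 1271250, nat_lit 1271250, nat_lit 0, nat_lit 0, [nat_lit 490000, nat_lit 1100000], [nat_lit 24, nat_lit 40, nat_lit 80, nat_lit 80, nat_lit 33, nat_lit 255, nat_lit 0, nat_lit 10]⟩, ⟨p021_k5, nat_lit 0, nat_lit 0, nat_lit 0, nat_lit 0, nat_lit 0, [nat_lit 3282000000, nat_lit 4688000000], [], [nat_lit 27926775618, nat_lit 28908694180, nat_lit 32592359334, nat_lit 33360014604], nat_lit 0, nat_lit 0, nat_lit 0, nat_lit 0, nat_lit 0, nat_lit 0, [], [nat_lit 40, nat_lit 40, nat_lit 80, nat_lit 80]⟩,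
 zbF0, []⟩
noncomputable def p021_l7 : Lf2 := ⟨nat_lit 0, nat_lit 5, [nat_lit 4, nat_lit 5, nat_lit 5, nat_lit 20], false, nat_lit 0, nat_lit 0, nat_lit 0, nat_lit 0, ⟨nat_lit 1000, nat_lit 0, nat_lit 0, nat_lit 0, nat_lit 0, nat_lit 0, nat_lit 0, nat_lit 0, nat_lit 0, nat_lit 0, nat_lit 0, nat_lit 0, nat_lit 0, nat_lit 0, nat_lit 0, nat_lit 0, false, false⟩,
 nat_lit 0, nat_lit 8669, nat_lit 0, nat_lit 0, nat_lit 6501, nat_lit 4858, nat_lit 419, nat_lit 0, nat_lit 0, nat_lit 2390, nat_lit 0, nat_lit 0, nat_lit 0, nat_lit 0, nat_lit 0, nat_lit 0, nat_lit 0, nat_lit 0, [],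
 ⟨p021_k8, nat_lit 0, nat_lit 0, nat_lit 715, nat_lit 0, nat_lit 1479623, [nat_lit 2032000001, nat_lit 4688000000, nat_lit 6250000000], [], [nat_lit 36515807121, nat_lit 36646768953, nat_lit 37918905072, nat_lit 38036263841], nat_lit 1271250, nat_lit 1271250, nat_lit 1271250, nat_lit 1271250, nat_lit 0, nat_lit 0, [nat_lit 490000, nat_lit 1100000, nat_lit 1442500], [nat_lit 6, nat_lit 40, nat_lit 80, nat_lit 80, nat_lit 3, nat_lit 260, nat_lit 0, nat_lit 9]⟩, ⟨p021_k9, nat_lit 0, nat_lit 0, nat_lit 0, nat_lit 0, nat_lit 0, [nat_lit 3282000000, nat_lit 6250000000], [], [nat_lit 21408752766, nat_lit 22726622194, nat_lit 26716788720, nat_lit 28178859288], nat_lit 0, nat_lit 0, nat_lit 0, nat_lit 0, nat_lit 0, nat_lit 0, [], [nat_lit 49, nat_lit 40, nat_lit 80, nat_lit 80]⟩,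
 zbF0, []⟩
noncomputable def p021_l8 : Lf2 := ⟨nat_lit 0, nat_lit 5, [nat_lit 4, nat_lit 5, nat_lit 5, nat_lit 20], false, nat_lit 0, nat_lit 0, nat_lit 0, nat_lit 0, ⟨nat_lit 1000, nat_lit 0, nat_lit 0, nat_lit 0, nat_lit 0, nat_lit 0, nat_lit 0, nat_lit 0, nat_lit 0, nat_lit 0, nat_lit 0, nat_lit 0, nat_lit 0, nat_lit 0, nat_lit 0, nat_lit 0, false, false⟩,
 nat_lit 0, nat_lit 8700, nat_lit 0, nat_lit 0, nat_lit 6524, nat_lit 4349, nat_lit 388, nat_lit 0, nat_lit 0, nat_lit 1951, nat_lit 0, nat_lit 0, nat_lit 0, nat_lit 0, nat_lit 0, nat_lit 0, nat_lit 0, nat_lit 0, [],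
 ⟨p021_k8, nat_lit 0, nat_lit 0, nat_lit 668, nat_lit 0, nat_lit 1392652, [nat_lit 2032000001, nat_lit 4688000000, nat_lit 6250000000], [], [nat_lit 37789742464, nat_lit 37900301422, nat_lit 39795374112, nat_lit 39887658882], nat_lit 1271250, nat_lit 1271250, nat_lit 1271250, nat_lit 1271250, nat_lit 0, nat_lit 0, [nat_lit 490000, nat_lit 1100000, nat_lit 1442500], [nat_lit 6, nat_lit 40, nat_lit 80, nat_lit 80, nat_lit 3, nat_lit 258, nat_lit 0, nat_lit 9]⟩, ⟨p021_k9, nat_lit 0, nat_lit 0, nat_lit 0, nat_lit 0, nat_lit 0, [nat_lit 3282000000, nat_lit 6250000000], [], [nat_lit 28023227597, nat_lit 28483691859, nat_lit 32526399778, nat_lit 32932084931], nat_lit 0, nat_lit 0, nat_lit 0, nat_lit 0, nat_lit 0, nat_lit 0, [], [nat_lit 49, nat_lit 40, nat_lit 80, nat_lit 80]⟩,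
 zbF0, []⟩
noncomputable def p021_l9 : Lf2 := ⟨nat_lit 0, nat_lit 5, [nat_lit 4, nat_lit 5, nat_lit 5, nat_lit 20], false, nat_lit 0, nat_lit 0, nat_lit 0, nat_lit 0, ⟨nat_lit 1000, nat_lit 0, nat_lit 0, nat_lit 0, nat_lit 0, nat_lit 0, nat_lit 0, nat_lit 0, nat_lit 0, nat_lit 0, nat_lit 0, nat_lit 0, nat_lit 0, nat_lit 0, nat_lit 0, nat_lit 0, false, false⟩,
 nat_lit 0, nat_lit 8343, nat_lit 0, nat_lit 0, nat_lit 6256, nat_lit 4319, nat_lit 394, nat_lit 0, nat_lit 0, nat_lit 1318, nat_lit 0, nat_lit 0, nat_lit 0, nat_lit 0, nat_lit 0, nat_lit 0, nat_lit 0, nat_lit 0, [],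
 ⟨p021_k8, nat_lit 0, nat_lit 0, nat_lit 708, nat_lit 0, nat_lit 1479623, [nat_lit 2032000001, nat_lit 4688000000, nat_lit 6250000000], [], [nat_lit 39377029153, nat_lit 39485439972, nat_lit 41360470528, nat_lit 41452643408], nat_lit 1271250, nat_lit 1271250, nat_lit 1271250, nat_lit 1271250, nat_lit 0, nat_lit 0, [nat_lit 490000, nat_lit 1100000, nat_lit 1442500], [nat_lit 6, nat_lit 40, nat_lit 80, nat_lit 80, nat_lit 3, nat_lit 268, nat_lit 0, nat_lit 9]⟩, ⟨p021_k10, nat_lit 0, nat_lit 0, nat_lit 0, nat_lit 0, nat_lit 0, [nat_lit 3282000000, nat_lit 6250000000], [], [nat_lit 28496714004, nat_lit 28955917126, nat_lit 32955283361, nat_lit 33360014604], nat_lit 0, nat_lit 0, nat_lit 0, nat_lit 0, nat_lit 0, nat_lit 0, [], [nat_lit 49, nat_lit 40, nat_lit 80, nat_lit 80]⟩,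
 zbF0, []⟩
noncomputable def p021_l10 : Lf2 := ⟨nat_lit 0, nat_lit 5, [nat_lit 4, nat_lit 5, nat_lit 5, nat_lit 20], false, nat_lit 0, nat_lit 0, nat_lit 0, nat_lit 0, ⟨nat_lit 1000, nat_lit 0, nat_lit 0, nat_lit 0, nat_lit 0, nat_lit 0, nat_lit 0, nat_lit 0, nat_lit 0, nat_lit 0, nat_lit 0, nat_lit 0, nat_lit 0, nat_lit 0, nat_lit 0, nat_lit 0, false, false⟩,
 nat_lit 0, nat_lit 7289, nat_lit 0, nat_lit 0, nat_lit 5573, nat_lit 4616, nat_lit 562, nat_lit 0, nat_lit 0, nat_lit 2219, nat_lit 0, nat_lit 0, nat_lit 0, nat_lit 0, nat_lit 0, nat_lit 0, nat_lit 0, nat_lit 0, [],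
 ⟨p021_k11, nat_lit 0, nat_lit 0, nat_lit 687, nat_lit 0, nat_lit 1597321, [nat_lit 2032000001, nat_lit 4688000000], [], [nat_lit 33844502900, nat_lit 33988204579, nat_lit 37431960492, nat_lit 37531547907], nat_lit 1271250, nat_lit 1271250, nat_lit 1271250, nat_lit 1271250, nat_lit 0, nat_lit 0, [nat_lit 490000, nat_lit 1100000], [nat_lit 24, nat_lit 40, nat_lit 80, nat_lit 80, nat_lit 33, nat_lit 263, nat_lit 0, nat_lit 11]⟩, ⟨p021_k9, nat_lit 0, nat_lit 0, nat_lit 0, nat_lit 0, nat_lit 0, [nat_lit 3282000000, nat_lit 6250000000], [], [nat_lit 23500627554, nat_lit 24510576434, nat_lit 33142790576, nat_lit 34188369696], nat_lit 0, nat_lit 0, nat_lit 0, nat_lit 0, nat_lit 0, nat_lit 0, [], [nat_lit 49, nat_lit 40, nat_lit 80, nat_lit 80]⟩,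
 zbF0, []⟩
noncomputable def p021_l11 : Lf2 := ⟨nat_lit 0, nat_lit 10, [nat_lit 0, nat_lit 5, nat_lit 5, nat_lit 20], false, nat_lit 0, nat_lit 0, nat_lit 0, nat_lit 0, ⟨nat_lit 1000, nat_lit 0, nat_lit 0, nat_lit 0, nat_lit 0, nat_lit 0, nat_lit 0, nat_lit 0, nat_lit 0, nat_lit 0, nat_lit 0, nat_lit 0, nat_lit 0, nat_lit 0, nat_lit 0, nat_lit 0, false, false⟩,
 nat_lit 0, nat_lit 8479, nat_lit 0, nat_lit 0, nat_lit 6359, nat_lit 5137, nat_lit 446, nat_lit 0, nat_lit 0, nat_lit 768, nat_lit 0, nat_lit 0, nat_lit 0, nat_lit 0, nat_lit 0, nat_lit 0, nat_lit 0, nat_lit 0, [],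
 ⟨p021_k0, nat_lit 0, nat_lit 0, nat_lit 627, nat_lit 0, nat_lit 1278379, [nat_lit 2032000001, nat_lit 4688000000, nat_lit 6250000000], [], [nat_lit 35151363188, nat_lit 35309903062, nat_lit 39303449564, nat_lit 39415405131], nat_lit 1271250, nat_lit 1271250, nat_lit 1271250, nat_lit 1271250, nat_lit 0, nat_lit 0, [nat_lit 490000, nat_lit 1100000, nat_lit 1442500], [nat_lit 6, nat_lit 40, nat_lit 80, nat_lit 80, nat_lit 3, nat_lit 248, nat_lit 0, nat_lit 9]⟩, ⟨p021_k12, nat_lit 0, nat_lit 0, nat_lit 0, nat_lit 0, nat_lit 0, [nat_lit 3282000000, nat_lit 6250000000, nat_lit 7968000000], [], [nat_lit 25166311492, nat_lit 25771874536, nat_lit 34683914102, nat_lit 35100409867], nat_lit 0, nat_lit 0, nat_lit 0, nat_lit 0, nat_lit 0, nat_lit 0, [], [nat_lit 18, nat_lit 40, nat_lit 80, nat_lit 80]⟩,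
 zbF0, []⟩
noncomputable def p021_l12 : Lf2 := ⟨nat_lit 0, nat_lit 10, [nat_lit 0, nat_lit 5, nat_lit 5, nat_lit 20], false, nat_lit 0, nat_lit 0, nat_lit 0, nat_lit 0, ⟨nat_lit 1000, nat_lit 0, nat_lit 0, nat_lit 0, nat_lit 0, nat_lit 0, nat_lit 0, nat_lit 0, nat_lit 0, nat_lit 0, nat_lit 0, nat_lit 0, nat_lit 0, nat_lit 0, nat_lit 0, nat_lit 0, false, false⟩,
 nat_lit 0, nat_lit 8479, nat_lit 0, nat_lit 0, nat_lit 6359, nat_lit 4519, nat_lit 432, nat_lit 0, nat_lit 0, nat_lit 1491, nat_lit 0, nat_lit 0, nat_lit 0, nat_lit 0, nat_lit 0, nat_lit 0, nat_lit 0, nat_lit 0, [],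
 ⟨p021_k0, nat_lit 0, nat_lit 0, nat_lit 660, nat_lit 0, nat_lit 1364784, [nat_lit 2032000001, nat_lit 4688000000, nat_lit 6250000000], [], [nat_lit 35233737882, nat_lit 35375777359, nat_lit 39303449564, nat_lit 39415405131], nat_lit 1271250, nat_lit 1271250, nat_lit 1271250, nat_lit 1271250, nat_lit 0, nat_lit 0, [nat_lit 490000, nat_lit 1100000, nat_lit 1442500], [nat_lit 6, nat_lit 40, nat_lit 80, nat_lit 80, nat_lit 3, nat_lit 256, nat_lit 0, nat_lit 9]⟩, ⟨p021_k13, nat_lit 0, nat_lit 0, nat_lit 0, nat_lit 0, nat_lit 0, [nat_lit 3282000000, nat_lit 6250000000, nat_lit 7968000000], [], [nat_lit 24163193971, nat_lit 24664561585, nat_lit 33398590449, nat_lit 33916987364], nat_lit 0, nat_lit 0, nat_lit 0, nat_lit 0, nat_lit 0, nat_lit 0, [], [nat_lit 18, nat_lit 40, nat_lit 80, nat_lit 80]⟩,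
 zbF0, []⟩
noncomputable def p021_l13 : Lf2 := ⟨nat_lit 0, nat_lit 10, [nat_lit 0, nat_lit 5, nat_lit 5, nat_lit 20], false, nat_lit 0, nat_lit 0, nat_lit 0, nat_lit 0, ⟨nat_lit 1000, nat_lit 0, nat_lit 0, nat_lit 0, nat_lit 0, nat_lit 0, nat_lit 0, nat_lit 0, nat_lit 0, nat_lit 0, nat_lit 0, nat_lit 0, nat_lit 0, nat_lit 0, nat_lit 0, nat_lit 0, false, false⟩,
 nat_lit 0, nat_lit 7499, nat_lit 0, nat_lit 0, nat_lit 5734, nat_lit 5720, nat_lit 1137, nat_lit 0, nat_lit 0, nat_lit 908, nat_lit 0, nat_lit 0, nat_lit 0, nat_lit 0, nat_lit 0, nat_lit 0, nat_lit 0, nat_lit 0, [],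
 ⟨p021_k2, nat_lit 0, nat_lit 0, nat_lit 660, nat_lit 0, nat_lit 1363784, [nat_lit 2032000001, nat_lit 4688000000, nat_lit 6250000000], [], [nat_lit 34413875171, nat_lit 34555361284, nat_lit 37885097119, nat_lit 37980998188], nat_lit 1271250, nat_lit 1271250, nat_lit 1271250, nat_lit 1271250, nat_lit 0, nat_lit 0, [nat_lit 490000, nat_lit 1100000, nat_lit 1442500], [nat_lit 6, nat_lit 40, nat_lit 80, nat_lit 80, nat_lit 3, nat_lit 257, nat_lit 0, nat_lit 9]⟩, ⟨p021_k12, nat_lit 0, nat_lit 0, nat_lit 0, nat_lit 0, nat_lit 0, [nat_lit 3282000000, nat_lit 6250000000, nat_lit 7968000000], [], [nat_lit 26452861720, nat_lit 27479062280, nat_lit 36131523920, nat_lit 37277092320], nat_lit 0, nat_lit 0, nat_lit 0, nat_lit 0, nat_lit 0, nat_lit 0, [], [nat_lit 18, nat_lit 40, nat_lit 80, nat_lit 80]⟩,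
 zbF0, []⟩
noncomputable def p021_l14 : Lf2 := ⟨nat_lit 0, nat_lit 10, [nat_lit 0, nat_lit 5, nat_lit 5, nat_lit 20], false, nat_lit 0, nat_lit 0, nat_lit 0, nat_lit 0, ⟨nat_lit 1000, nat_lit 0, nat_lit 0, nat_lit 0, nat_lit 0, nat_lit 0, nat_lit 0, nat_lit 0, nat_lit 0, nat_lit 0, nat_lit 0, nat_lit 0, nat_lit 0, nat_lit 0, nat_lit 0, nat_lit 0, false, false⟩,
 nat_lit 0, nat_lit 6722, nat_lit 0, nat_lit 0, nat_lit 5239, nat_lit 6346, nat_lit 1189, nat_lit 0, nat_lit 0, nat_lit 1013, nat_lit 0, nat_lit 0, nat_lit 0, nat_lit 0, nat_lit 0, nat_lit 0, nat_lit 0, nat_lit 0, [],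
 ⟨p021_k14, nat_lit 0, nat_lit 0, nat_lit 803, nat_lit 0, nat_lit 1677100, [nat_lit 2032000001, nat_lit 4688000000, nat_lit 6250000000], [], [nat_lit 32752574312, nat_lit 33014551258, nat_lit 36564677710, nat_lit 37197983736], nat_lit 1271250, nat_lit 1271250, nat_lit 1271250, nat_lit 1271250, nat_lit 0, nat_lit 0, [nat_lit 490000, nat_lit 1100000, nat_lit 1442500], [nat_lit 6, nat_lit 40, nat_lit 80, nat_lit 80, nat_lit 3, nat_lit 294, nat_lit 0, nat_lit 10]⟩, ⟨p021_k1, nat_lit 0, nat_lit 0, nat_lit 0, nat_lit 0, nat_lit 0, [nat_lit 3282000000, nat_lit 6250000000, nat_lit 9842000000], [], [nat_lit 27960841881, nat_lit 30139415288, nat_lit 37453452144, nat_lit 39030438744], nat_lit 0, nat_lit 0, nat_lit 0, nat_lit 0, nat_lit 0, nat_lit 0, [], [nat_lit 8, nat_lit 40, nat_lit 80, nat_lit 80]⟩,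
 zbF0, []⟩
noncomputable def p021_l15 : Lf2 := ⟨nat_lit 0, nat_lit 10, [nat_lit 0, nat_lit 5, nat_lit 5, nat_lit 20], false, nat_lit 0, nat_lit 0, nat_lit 0, nat_lit 0, ⟨nat_lit 1000, nat_lit 0, nat_lit 0, nat_lit 0, nat_lit 0, nat_lit 0, nat_lit 0, nat_lit 0, nat_lit 0, nat_lit 0, nat_lit 0, nat_lit 0, nat_lit 0, nat_lit 0, nat_lit 0, nat_lit 0, false, false⟩,
 nat_lit 0, nat_lit 6037, nat_lit 0, nat_lit 0, nat_lit 4887, nat_lit 6448, nat_lit 908, nat_lit 0, nat_lit 0, nat_lit 1015, nat_lit 0, nat_lit 0, nat_lit 0, nat_lit 0, nat_lit 0, nat_lit 0, nat_lit 0, nat_lit 0, [],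
 ⟨p021_k15, nat_lit 0, nat_lit 0, nat_lit 824, nat_lit 0, nat_lit 1731111, [nat_lit 2032000001, nat_lit 4688000000, nat_lit 6250000000], [], [nat_lit 33245788567, nat_lit 33846170679, nat_lit 36968479529, nat_lit 37399192163], nat_lit 1271250, nat_lit 1271250, nat_lit 1271250, nat_lit 1271250, nat_lit 0, nat_lit 0, [nat_lit 490000, nat_lit 1100000, nat_lit 1442500], [nat_lit 6, nat_lit 40, nat_lit 80, nat_lit 80, nat_lit 3, nat_lit 301, nat_lit 0, nat_lit 11]⟩, ⟨p021_k1, nat_lit 0, nat_lit 0, nat_lit 0, nat_lit 0, nat_lit 0, [nat_lit 3282000000, nat_lit 6250000000, nat_lit 9842000000], [], [nat_lit 27847918403, nat_lit 30043326819, nat_lit 37418676672, nat_lit 39313858688], nat_lit 0, nat_lit 0, nat_lit 0, nat_lit 0, nat_lit 0, nat_lit 0, [], [nat_lit 8, nat_lit 40, nat_lit 80, nat_lit 80]⟩,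
 zbF0, []⟩
noncomputable def b_N_800_700_0_19 : St := ⟨false, nat_lit 1, nat_lit 0, nat_lit 1, nat_lit 40, nat_lit 320, nat_lit 360, nat_lit 280, nat_lit 320, nat_lit 240, nat_lit 400, nat_lit 0, nat_lit 0, nat_lit 0, nat_lit 0, nat_lit 0, nat_lit 0, nat_lit 0, nat_lit 40, nat_lit 0, nat_lit 0, nat_lit 0, nat_lit 800⟩
theorem d_N_800_700_0_19 (h : EB TB.env) : Dead b_N_800_700_0_19 := chkB_sound0 h (T :=
(.spl (nat_lit 0) (nat_lit 340)
(.spl (nat_lit 0) (nat_lit 330)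
(.spl (nat_lit 1) (nat_lit 300)
(.spl (nat_lit 1) (nat_lit 290)
(.spl (nat_lit 0) (nat_lit 325)
(.leaf p021_l0)
(.trX (nat_lit 13) (nat_lit 87) (nat_lit 23) (nat_lit 100) (nat_lit 396) (.leaf p021_l1)))
(.spl (nat_lit 2) (nat_lit 320)
(.leaf p021_l2)
(.leaf p021_l3)))
(.spl (nat_lit 6) (nat_lit 20)
(.spl (nat_lit 0) (nat_lit 325)
(.spl (nat_lit 6) (nat_lit 8)
(.spl (nat_lit 2) (nat_lit 320)
(.leaf p021_l4)
(.spl (nat_lit 6) (nat_lit 4)
(.leaf p021_l5)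
(.leaf p021_l6)))
(.spl (nat_lit 2) (nat_lit 320)
(.leaf p021_l7)
(.spl (nat_lit 1) (nat_lit 310)
(.leaf p021_l8)
(.leaf p021_l9))))
(.leaf p021_l10))
(.spl (nat_lit 0) (nat_lit 325)
(.spl (nat_lit 1) (nat_lit 310)
(.leaf p021_l11)
(.leaf p021_l12))
(.leaf p021_l13))))
(.leaf p021_l14))
(.leaf p021_l15))) (by decide +kernel)
noncomputable def p021_l16 : Lf2 := ⟨nat_lit 0, nat_lit 10, [nat_lit 0, nat_lit 5, nat_lit 5, nat_lit 20], false, nat_lit 0, nat_lit 0, nat_lit 0, nat_lit 0, ⟨nat_lit 431, nat_lit 0, nat_lit 569, nat_lit 7, nat_lit 223, nat_lit 0, nat_lit 0, nat_lit 0, nat_lit 0, nat_lit 215, nat_lit 123308, nat_lit 200, nat_lit 51064996, nat_lit 0, nat_lit 0, nat_lit 2742861, false, false⟩,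
 nat_lit 6055, nat_lit 0, nat_lit 0, nat_lit 0, nat_lit 4293, nat_lit 3853, nat_lit 0, nat_lit 0, nat_lit 0, nat_lit 353, nat_lit 0, nat_lit 0, nat_lit 0, nat_lit 0, nat_lit 0, nat_lit 569000, nat_lit 0, nat_lit 0, [(nat_lit 18, [(nat_lit 6, nat_lit 569)])],
 ⟨p021_k0, nat_lit 0, nat_lit 0, nat_lit 473, nat_lit 0, nat_lit 848852, [nat_lit 1478780267, nat_lit 1315119734, nat_lit 474194800], [], [nat_lit 19622652710, nat_lit 20617986158, nat_lit 21892148640, nat_lit 23762146442], nat_lit 1271250, nat_lit 1271250, nat_lit 631250, nat_lit 1751250, nat_lit 0, nat_lit 0, [nat_lit 490000, nat_lit 1100000, nat_lit 1442500], [nat_lit 6, nat_lit 40, nat_lit 80, nat_lit 80, nat_lit 3, nat_lit 272, nat_lit 60, nat_lit 10]⟩, ⟨p021_k1, nat_lit 0, nat_lit 0, nat_lit 708, nat_lit 0, nat_lit 1015064, [nat_lit 1414542000, nat_lit 2693750000, nat_lit 4241902000], [], [nat_lit 12488822339, nat_lit 13118408347,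 nat_lit 12433412248, nat_lit 13013977872], nat_lit 1271250, nat_lit 1271250, nat_lit 631250, nat_lit 1751250, nat_lit 0, nat_lit 0, [nat_lit 780000, nat_lit 1435000, nat_lit 1271250], [nat_lit 8, nat_lit 40, nat_lit 80, nat_lit 80, nat_lit 1, nat_lit 272, nat_lit 60, nat_lit 8]⟩,
 ⟨nat_lit 3872, nat_lit 4473, ⟨.ofNat (nat_lit 416230), .ofNat (nat_lit 654181), .ofNat (nat_lit 459327), .ofNat (nat_lit 697279), .ofNat (nat_lit 425778), .ofNat (nat_lit 651631), .ofNat (nat_lit 469330), .ofNat (nat_lit 695183)⟩, ⟨.ofNat (nat_lit 0), .ofNat (nat_lit 0), .ofNat (nat_lit 0), .ofNat (nat_lit 0), .ofNat (nat_lit 0), .ofNat (nat_lit 0), .ofNat (nat_lit 0), .ofNat (nat_lit 0)⟩⟩, [⟨nat_lit 0, nat_lit 81, nat_lit 72, nat_lit 100, nat_lit 202618915⟩]⟩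
noncomputable def p021_l17 : Lf2 := ⟨nat_lit 0, nat_lit 10, [nat_lit 0, nat_lit 5, nat_lit 5, nat_lit 20], false, nat_lit 0, nat_lit 0, nat_lit 0, nat_lit 0, ⟨nat_lit 1000, nat_lit 0, nat_lit 0, nat_lit 0, nat_lit 0, nat_lit 0, nat_lit 0, nat_lit 0, nat_lit 0, nat_lit 0, nat_lit 0, nat_lit 0, nat_lit 0, nat_lit 0, nat_lit 0, nat_lit 0, false, false⟩,
 nat_lit 10827, nat_lit 0, nat_lit 0, nat_lit 0, nat_lit 6372, nat_lit 6889, nat_lit 493, nat_lit 0, nat_lit 0, nat_lit 740, nat_lit 0, nat_lit 0, nat_lit 0, nat_lit 0, nat_lit 0, nat_lit 0, nat_lit 0, nat_lit 0, [],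
 ⟨p021_k0, nat_lit 0, nat_lit 0, nat_lit 461, nat_lit 0, nat_lit 848852, [nat_lit 2032000001, nat_lit 4688000000, nat_lit 6250000000], [], [nat_lit 30775640352, nat_lit 31691896464, nat_lit 39101229232, nat_lit 40501838928], nat_lit 1271250, nat_lit 1271250, nat_lit 1271250, nat_lit 1271250, nat_lit 0, nat_lit 0, [nat_lit 490000, nat_lit 1100000, nat_lit 1442500], [nat_lit 6, nat_lit 40, nat_lit 80, nat_lit 80, nat_lit 3, nat_lit 208, nat_lit 0, nat_lit 7]⟩, ⟨p021_k1, nat_lit 0, nat_lit 0, nat_lit 637, nat_lit 0, nat_lit 1015064, [nat_lit 3282000000, nat_lit 6250000000, nat_lit 9842000000], [], [nat_lit 37211845168, nat_lit 38226890448, nat_lit 41776196440, nat_lit 42502477080], nat_lit 1271250, nat_lit 1271250, nat_lit 1271250, nat_lit 1271250, nat_lit 0, nat_lit 0, [nat_lit 780000, nat_lit 1435000, nat_lit 1271250], [nat_lit 8, nat_lit 40, nat_lit 80, nat_lit 80, nat_lit 1, nat_lit 317,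 nat_lit 100, nat_lit 9]⟩,
 zbF0, []⟩
noncomputable def p021_l18 : Lf2 := ⟨nat_lit 0, nat_lit 10, [nat_lit 0, nat_lit 5, nat_lit 5, nat_lit 20], false, nat_lit 0, nat_lit 0, nat_lit 0, nat_lit 0, ⟨nat_lit 766, nat_lit 234, nat_lit 0, nat_lit 7, nat_lit 283, nat_lit 0, nat_lit 0, nat_lit 0, nat_lit 0, nat_lit 0, nat_lit 0, nat_lit 0, nat_lit 44629680, nat_lit 22370320, nat_lit 0, nat_lit 3184479, false, false⟩,
 nat_lit 8741, nat_lit 0, nat_lit 0, nat_lit 0, nat_lit 4857, nat_lit 5562, nat_lit 605, nat_lit 0, nat_lit 0, nat_lit 618, nat_lit 0, nat_lit 0, nat_lit 0, nat_lit 0, nat_lit 0, nat_lit 127200, nat_lit 0, nat_lit 0, [(nat_lit 21, [(nat_lit 1, nat_lit 178), (nat_lit 2, nat_lit 56)])],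
 ⟨p021_k15, nat_lit 0, nat_lit 0, nat_lit 456, nat_lit 0, nat_lit 814729, [nat_lit 1876204800, nat_lit 3848640001, nat_lit 4989639200], [], [nat_lit 22381251277, nat_lit 22927653424, nat_lit 36084062568, nat_lit 36694779406], nat_lit 1271250, nat_lit 1271250, nat_lit 810650, nat_lit 3080750, nat_lit 0, nat_lit 0, [nat_lit 490000, nat_lit 1100000, nat_lit 1442500], [nat_lit 6, nat_lit 40, nat_lit 80, nat_lit 80, nat_lit 3, nat_lit 317, nat_lit 100, nat_lit 12]⟩, ⟨p021_k1, nat_lit 0, nat_lit 0, nat_lit 714, nat_lit 0, nat_lit 1057855, [nat_lit 2514012000, nat_lit 4787500000, nat_lit 7538972000], [], [nat_lit 26877875765, nat_lit 27805014335, nat_lit 34452748152, nat_lit 31856947720], nat_lit 1271250, nat_lit 1271250, nat_lit 810650, nat_lit 3080750, nat_lit 0, nat_lit 0, [nat_lit 780000, nat_lit 1435000, nat_lit 1271250], [nat_lit 8, nat_lit 40, nat_lit 80, nat_lit 80, nat_lit 1, nat_lit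 317, nat_lit 100, nat_lit 9]⟩,
 ⟨nat_lit 3535, nat_lit 3873, ⟨.ofNat (nat_lit 464546), .ofNat (nat_lit 909779), .ofNat (nat_lit 508120), .ofNat (nat_lit 953359), .ofNat (nat_lit 468527), .ofNat (nat_lit 901616), .ofNat (nat_lit 512420), .ofNat (nat_lit 945515)⟩, ⟨.ofNat (nat_lit 0), .ofNat (nat_lit 0), .ofNat (nat_lit 0), .ofNat (nat_lit 0), .ofNat (nat_lit 0), .ofNat (nat_lit 0), .ofNat (nat_lit 0), .ofNat (nat_lit 0)⟩⟩, []⟩
noncomputable def p021_l19 : Lf2 := ⟨nat_lit 0, nat_lit 10, [nat_lit 0, nat_lit 5, nat_lit 5, nat_lit 20], false, nat_lit 0, nat_lit 0, nat_lit 0, nat_lit 0, ⟨nat_lit 914, nat_lit 86, nat_lit 0, nat_lit 7, nat_lit 285, nat_lit 0, nat_lit 0, nat_lit 0, nat_lit 0, nat_lit 0, nat_lit 0, nat_lit 0, nat_lit 44448098, nat_lit 22551902, nat_lit 0, nat_lit 3193756, false, false⟩,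
 nat_lit 9974, nat_lit 0, nat_lit 0, nat_lit 0, nat_lit 4518, nat_lit 6347, nat_lit 845, nat_lit 0, nat_lit 0, nat_lit 672, nat_lit 0, nat_lit 0, nat_lit 0, nat_lit 0, nat_lit 0, nat_lit 34400, nat_lit 0, nat_lit 0, [(nat_lit 21, [(nat_lit 1, nat_lit 86)])],
 ⟨p021_k16, nat_lit 0, nat_lit 0, nat_lit 407, nat_lit 0, nat_lit 815663, [nat_lit 1973795201, nat_lit 4412456000], [], [nat_lit 22884912971, nat_lit 23440646535, nat_lit 35392839823, nat_lit 35992791804], nat_lit 1271250, nat_lit 1271250, nat_lit 904401, nat_lit 3072150, nat_lit 0, nat_lit 0, [nat_lit 490000, nat_lit 1100000], [nat_lit 24, nat_lit 40, nat_lit 80, nat_lit 80, nat_lit 33, nat_lit 317, nat_lit 100, nat_lit 14]⟩, ⟨p021_k1, nat_lit 0, nat_lit 0, nat_lit 726, nat_lit 0, nat_lit 1101918, [nat_lit 2999748000, nat_lit 5712500000, nat_lit 8995588000], [], [nat_lit 33678159318, nat_lit 34558200970, nat_lit 41473819154, nat_lit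 38541632662], nat_lit 1271250, nat_lit 1271250, nat_lit 904401, nat_lit 3072150, nat_lit 0, nat_lit 0, [nat_lit 780000, nat_lit 1435000, nat_lit 1271250], [nat_lit 8, nat_lit 40, nat_lit 80, nat_lit 80, nat_lit 1, nat_lit 317, nat_lit 100, nat_lit 9]⟩,
 ⟨nat_lit 3162, nat_lit 3536, ⟨.ofNat (nat_lit 487342), .ofNat (nat_lit 895340), .ofNat (nat_lit 531230), .ofNat (nat_lit 939245), .ofNat (nat_lit 491044), .ofNat (nat_lit 887290), .ofNat (nat_lit 535337), .ofNat (nat_lit 931599)⟩, ⟨.ofNat (nat_lit 0), .ofNat (nat_lit 0), .ofNat (nat_lit 0), .ofNat (nat_lit 0), .ofNat (nat_lit 0), .ofNat (nat_lit 0), .ofNat (nat_lit 0), .ofNat (nat_lit 0)⟩⟩, [⟨nat_lit 0, nat_lit 80, nat_lit 60, nat_lit 100, nat_lit 77369480⟩]⟩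
noncomputable def b_N_800_700_0_20 : St := ⟨false, nat_lit 1, nat_lit 1, nat_lit 1, nat_lit 40, nat_lit 320, nat_lit 360, nat_lit 280, nat_lit 320, nat_lit 100, nat_lit 400, nat_lit 0, nat_lit 0, nat_lit 0, nat_lit 0, nat_lit 0, nat_lit 0, nat_lit 0, nat_lit 40, nat_lit 0, nat_lit 0, nat_lit 0, nat_lit 0⟩
theorem d_N_800_700_0_20 (h : EB TB.env) : Dead b_N_800_700_0_20 := chkB_sound0 h (T :=
(.spl (nat_lit 0) (nat_lit 340)
(.spl (nat_lit 2) (nat_lit 240)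
(.leaf p021_l16)
(.leaf p021_l17))
(.trZ (nat_lit 0) (nat_lit 99) (nat_lit 77) (nat_lit 100) (nat_lit 124) (.spl (nat_lit 0) (nat_lit 350)
(.leaf p021_l18)
(.trZ (nat_lit 0) (nat_lit 96) (nat_lit 69) (nat_lit 100) (nat_lit 136) (.trX (nat_lit 13) (nat_lit 83) (nat_lit 25) (nat_lit 100) (nat_lit 396) (.leaf p021_l19))))))) (by decide +kernel)
noncomputable def p021_l20 : Lf2 := ⟨nat_lit 0, nat_lit 2, [nat_lit 10, nat_lit 5, nat_lit 5, nat_lit 20], false, nat_lit 0, nat_lit 0, nat_lit 0, nat_lit 0, ⟨nat_lit 1000, nat_lit 0, nat_lit 0, nat_lit 0, nat_lit 0, nat_lit 0, nat_lit 0, nat_lit 0, nat_lit 0, nat_lit 0, nat_lit 0, nat_lit 0, nat_lit 0, nat_lit 0, nat_lit 0, nat_lit 0, false, false⟩,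
 nat_lit 0, nat_lit 8877, nat_lit 0, nat_lit 0, nat_lit 6657, nat_lit 4510, nat_lit 0, nat_lit 0, nat_lit 0, nat_lit 0, nat_lit 0, nat_lit 0, nat_lit 0, nat_lit 0, nat_lit 0, nat_lit 0, nat_lit 0, nat_lit 0, [],
 ⟨p021_k4, nat_lit 0, nat_lit 0, nat_lit 596, nat_lit 0, nat_lit 1324711, [nat_lit 2032000001, nat_lit 4688000000], [], [nat_lit 32879625450, nat_lit 33066784186, nat_lit 33604392280, nat_lit 33776966626], nat_lit 1271250, nat_lit 1271250, nat_lit 631250, nat_lit 1751250, nat_lit 0, nat_lit 0, [nat_lit 490000, nat_lit 1100000], [nat_lit 24, nat_lit 40, nat_lit 80, nat_lit 80, nat_lit 33, nat_lit 272, nat_lit 60, nat_lit 12]⟩, ⟨p021_k17, nat_lit 0, nat_lit 0, nat_lit 0, nat_lit 0, nat_lit 0, [nat_lit 3282000000, nat_lit 6250000000], [], [nat_lit 14098931140, nat_lit 15138213080, nat_lit 18916178720, nat_lit 19723355740], nat_lit 0, nat_lit 0, nat_lit 0, nat_lit 0, nat_lit 0, nat_lit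 0, [], [nat_lit 49, nat_lit 40, nat_lit 80, nat_lit 80]⟩,
 zbF0, [⟨nat_lit 0, nat_lit 98, nat_lit 86, nat_lit 100, nat_lit 381781277⟩]⟩
noncomputable def p021_l21 : Lf2 := ⟨nat_lit 0, nat_lit 2, [nat_lit 10, nat_lit 5, nat_lit 5, nat_lit 20], false, nat_lit 0, nat_lit 0, nat_lit 0, nat_lit 0, ⟨nat_lit 1000, nat_lit 0, nat_lit 0, nat_lit 0, nat_lit 0, nat_lit 0, nat_lit 0, nat_lit 0, nat_lit 0, nat_lit 0, nat_lit 0, nat_lit 0, nat_lit 0, nat_lit 0, nat_lit 0, nat_lit 0, false, false⟩,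
 nat_lit 0, nat_lit 0, nat_lit 0, nat_lit 0, nat_lit 0, nat_lit 0, nat_lit 0, nat_lit 0, nat_lit 0, nat_lit 0, nat_lit 0, nat_lit 0, nat_lit 0, nat_lit 0, nat_lit 0, nat_lit 0, nat_lit 0, nat_lit 0, [],
 ⟨p021_k18, nat_lit 0, nat_lit 0, nat_lit 597, nat_lit 0, nat_lit 1326276, [nat_lit 2032000001, nat_lit 4688000000], [], [nat_lit 57985351509, nat_lit 58111564209, nat_lit 60620654009, nat_lit 60736080009], nat_lit 1271250, nat_lit 1271250, nat_lit 660400, nat_lit 1753500, nat_lit 0, nat_lit 0, [nat_lit 490000, nat_lit 1100000], [nat_lit 24, nat_lit 40, nat_lit 80, nat_lit 80, nat_lit 33, nat_lit 272, nat_lit 60, nat_lit 12]⟩, ⟨p021_k17, nat_lit 0, nat_lit 0, nat_lit 0, nat_lit 0, nat_lit 0, [nat_lit 3282000000, nat_lit 6250000000], [], [nat_lit 15456629200, nat_lit 15880029200, nat_lit 19470584000, nat_lit 19840282000], nat_lit 0, nat_lit 0, nat_lit 0, nat_lit 0, nat_lit 0, nat_lit 0,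 [], [nat_lit 49, nat_lit 40, nat_lit 80, nat_lit 80]⟩,
 zbF0, [⟨nat_lit 13, nat_lit 87, nat_lit 23, nat_lit 100, nat_lit 9160865⟩]⟩
noncomputable def p021_l22 : Lf2 := ⟨nat_lit 0, nat_lit 4, [nat_lit 38, nat_lit 5, nat_lit 5, nat_lit 20], false, nat_lit 0, nat_lit 0, nat_lit 0, nat_lit 0, ⟨nat_lit 1000, nat_lit 0, nat_lit 0, nat_lit 0, nat_lit 0, nat_lit 0, nat_lit 0, nat_lit 0, nat_lit 0, nat_lit 0, nat_lit 0, nat_lit 0, nat_lit 0, nat_lit 0, nat_lit 0, nat_lit 0, false, false⟩,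
 nat_lit 0, nat_lit 8693, nat_lit 0, nat_lit 0, nat_lit 6519, nat_lit 4510, nat_lit 0, nat_lit 0, nat_lit 0, nat_lit 0, nat_lit 0, nat_lit 0, nat_lit 0, nat_lit 0, nat_lit 0, nat_lit 0, nat_lit 0, nat_lit 0, [],
 ⟨p021_k19, nat_lit 0, nat_lit 0, nat_lit 575, nat_lit 0, nat_lit 1258077, [nat_lit 2032000001, nat_lit 4688000000], [], [nat_lit 33554027315, nat_lit 33954562145, nat_lit 34315638760, nat_lit 34658061124], nat_lit 1271250, nat_lit 1271250, nat_lit 631250, nat_lit 1751250, nat_lit 0, nat_lit 0, [nat_lit 490000, nat_lit 1100000], [nat_lit 24, nat_lit 40, nat_lit 80, nat_lit 80, nat_lit 33, nat_lit 272, nat_lit 60, nat_lit 12]⟩, ⟨p021_k20, nat_lit 0, nat_lit 0, nat_lit 0, nat_lit 0, nat_lit 0, [nat_lit 3282000000, nat_lit 6250000000], [], [nat_lit 14098931140, nat_lit 15138213080, nat_lit 18916178720, nat_lit 19723355740], nat_lit 0, nat_lit 0, nat_lit 0, nat_lit 0, nat_lit 0, nat_lit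 0, [], [nat_lit 49, nat_lit 40, nat_lit 80, nat_lit 80]⟩,
 zbF0, [⟨nat_lit 0, nat_lit 97, nat_lit 82, nat_lit 100, nat_lit 400772280⟩]⟩
noncomputable def p021_l23 : Lf2 := ⟨nat_lit 0, nat_lit 5, [nat_lit 4, nat_lit 5, nat_lit 5, nat_lit 20], false, nat_lit 0, nat_lit 0, nat_lit 0, nat_lit 0, ⟨nat_lit 231, nat_lit 769, nat_lit 0, nat_lit 7, nat_lit 217, nat_lit 0, nat_lit 0, nat_lit 0, nat_lit 0, nat_lit 0, nat_lit 0, nat_lit 0, nat_lit 0, nat_lit 0, nat_lit 0, nat_lit 5000000, false, false⟩,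
 nat_lit 0, nat_lit 6532, nat_lit 0, nat_lit 0, nat_lit 4899, nat_lit 2008, nat_lit 0, nat_lit 0, nat_lit 0, nat_lit 294, nat_lit 0, nat_lit 0, nat_lit 0, nat_lit 0, nat_lit 0, nat_lit 769000, nat_lit 0, nat_lit 0, [(nat_lit 18, [(nat_lit 2, nat_lit 769)])],
 ⟨p021_k8, nat_lit 0, nat_lit 0, nat_lit 619, nat_lit 0, nat_lit 1167307, [nat_lit 1778127467, nat_lit 1886789334, nat_lit 1102929200], [], [nat_lit 22388154399, nat_lit 22744867824, nat_lit 23509779269, nat_lit 23799897249], nat_lit 1271250, nat_lit 1271250, nat_lit 631250, nat_lit 1751250, nat_lit 0, nat_lit 0, [nat_lit 490000, nat_lit 1100000, nat_lit 1442500], [nat_lit 6, nat_lit 40, nat_lit 80, nat_lit 80, nat_lit 3, nat_lit 272, nat_lit 60, nat_lit 10]⟩, ⟨p021_k21, nat_lit 0, nat_lit 0, nat_lit 0, nat_lit 0, nat_lit 0, [nat_lit 758142000, nat_lit 1443750000, nat_lit 1840608000], [], [nat_lit 4409022990, nat_lit 4696250573, nat_lit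 5385505520, nat_lit 5625701476], nat_lit 0, nat_lit 0, nat_lit 0, nat_lit 0, nat_lit 0, nat_lit 0, [], [nat_lit 18, nat_lit 40, nat_lit 80, nat_lit 80]⟩,
 ⟨nat_lit 4183, nat_lit 4473, ⟨.ofNat (nat_lit 416301), .ofNat (nat_lit 654228), .ofNat (nat_lit 427083), .ofNat (nat_lit 665010), .ofNat (nat_lit 421009), .ofNat (nat_lit 652907), .ofNat (nat_lit 431840), .ofNat (nat_lit 663739)⟩, ⟨.ofNat (nat_lit 0), .ofNat (nat_lit 0), .ofNat (nat_lit 0), .ofNat (nat_lit 0), .ofNat (nat_lit 0), .ofNat (nat_lit 0), .ofNat (nat_lit 0), .ofNat (nat_lit 0)⟩⟩, [⟨nat_lit 0, nat_lit 97, nat_lit 82, nat_lit 100, nat_lit 29295661⟩]⟩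
noncomputable def p021_l24 : Lf2 := ⟨nat_lit 0, nat_lit 2, [nat_lit 10, nat_lit 5, nat_lit 5, nat_lit 20], false, nat_lit 0, nat_lit 0, nat_lit 0, nat_lit 0, ⟨nat_lit 1000, nat_lit 0, nat_lit 0, nat_lit 0, nat_lit 0, nat_lit 0, nat_lit 0, nat_lit 0, nat_lit 0, nat_lit 0, nat_lit 0, nat_lit 0, nat_lit 0, nat_lit 0, nat_lit 0, nat_lit 0, false, false⟩,
 nat_lit 0, nat_lit 11270, nat_lit 0, nat_lit 0, nat_lit 8452, nat_lit 4504, nat_lit 0, nat_lit 0, nat_lit 0, nat_lit 0, nat_lit 0, nat_lit 0, nat_lit 0, nat_lit 0, nat_lit 0, nat_lit 0, nat_lit 0, nat_lit 0, [],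
 ⟨p021_k4, nat_lit 0, nat_lit 0, nat_lit 603, nat_lit 0, nat_lit 1349114, [nat_lit 2032000001, nat_lit 4688000000], [], [nat_lit 25056630856, nat_lit 25175187440, nat_lit 24537378720, nat_lit 24646463189], nat_lit 1271250, nat_lit 1271250, nat_lit 689850, nat_lit 1100001, nat_lit 0, nat_lit 0, [nat_lit 490000, nat_lit 1100000], [nat_lit 24, nat_lit 40, nat_lit 80, nat_lit 80, nat_lit 33, nat_lit 249, nat_lit 40, nat_lit 11]⟩, ⟨p021_k22, nat_lit 0, nat_lit 0, nat_lit 0, nat_lit 0, nat_lit 0, [nat_lit 3282000000, nat_lit 6250000000], [], [nat_lit 15257406464, nat_lit 15770927592, nat_lit 16026655016, nat_lit 16503053932], nat_lit 0, nat_lit 0, nat_lit 0, nat_lit 0, nat_lit 0, nat_lit 0, [], [nat_lit 49, nat_lit 40, nat_lit 80, nat_lit 80]⟩,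
 zbF0, [⟨nat_lit 0, nat_lit 96, nat_lit 86, nat_lit 100, nat_lit 620852300⟩]⟩
noncomputable def p021_l25 : Lf2 := ⟨nat_lit 0, nat_lit 2, [nat_lit 10, nat_lit 5, nat_lit 5, nat_lit 20], false, nat_lit 0, nat_lit 0, nat_lit 0, nat_lit 0, ⟨nat_lit 1000, nat_lit 0, nat_lit 0, nat_lit 0, nat_lit 0, nat_lit 0, nat_lit 0, nat_lit 0, nat_lit 0, nat_lit 0, nat_lit 0, nat_lit 0, nat_lit 0, nat_lit 0, nat_lit 0, nat_lit 0, false, false⟩,
 nat_lit 0, nat_lit 8496, nat_lit 0, nat_lit 0, nat_lit 6446, nat_lit 0, nat_lit 0, nat_lit 0, nat_lit 0, nat_lit 4727, nat_lit 0, nat_lit 0, nat_lit 0, nat_lit 0, nat_lit 0, nat_lit 0, nat_lit 0, nat_lit 0, [],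
 ⟨p021_k23, nat_lit 0, nat_lit 0, nat_lit 599, nat_lit 0, nat_lit 1342226, [nat_lit 2032000001, nat_lit 4688000000], [], [nat_lit 24236755804, nat_lit 24334122677, nat_lit 24395978718, nat_lit 24562128331], nat_lit 1271250, nat_lit 1271250, nat_lit 719601, nat_lit 1100001, nat_lit 0, nat_lit 0, [nat_lit 490000, nat_lit 1100000], [nat_lit 24, nat_lit 40, nat_lit 80, nat_lit 80, nat_lit 33, nat_lit 249, nat_lit 40, nat_lit 11]⟩, ⟨p021_k22, nat_lit 0, nat_lit 0, nat_lit 0, nat_lit 0, nat_lit 0, [nat_lit 3282000000, nat_lit 6250000000], [], [nat_lit 16089658600, nat_lit 16299937100, nat_lit 17347435000, nat_lit 17549184500], nat_lit 0, nat_lit 0, nat_lit 0, nat_lit 0, nat_lit 0, nat_lit 0, [], [nat_lit 49, nat_lit 40, nat_lit 80, nat_lit 80]⟩,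
 zbF0, []⟩
noncomputable def p021_l26 : Lf2 := ⟨nat_lit 0, nat_lit 5, [nat_lit 4, nat_lit 5, nat_lit 5, nat_lit 20], false, nat_lit 0, nat_lit 0, nat_lit 0, nat_lit 0, ⟨nat_lit 1000, nat_lit 0, nat_lit 0, nat_lit 0, nat_lit 0, nat_lit 0, nat_lit 0, nat_lit 0, nat_lit 0, nat_lit 0, nat_lit 0, nat_lit 0, nat_lit 0, nat_lit 0, nat_lit 0, nat_lit 0, false, false⟩,
 nat_lit 0, nat_lit 8730, nat_lit 0, nat_lit 0, nat_lit 6547, nat_lit 4504, nat_lit 488, nat_lit 0, nat_lit 0, nat_lit 0, nat_lit 0, nat_lit 0, nat_lit 0, nat_lit 0, nat_lit 0, nat_lit 0, nat_lit 0, nat_lit 0, [],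
 ⟨p021_k8, nat_lit 0, nat_lit 0, nat_lit 657, nat_lit 0, nat_lit 1271304, [nat_lit 2032000001, nat_lit 4688000000, nat_lit 6250000000], [], [nat_lit 33382582934, nat_lit 33582061991, nat_lit 33245616168, nat_lit 33444149299], nat_lit 1271250, nat_lit 1271250, nat_lit 689850, nat_lit 1100001, nat_lit 0, nat_lit 0, [nat_lit 490000, nat_lit 1100000, nat_lit 1442500], [nat_lit 6, nat_lit 40, nat_lit 80, nat_lit 80, nat_lit 3, nat_lit 249, nat_lit 40, nat_lit 9]⟩, ⟨p021_k24, nat_lit 0, nat_lit 0, nat_lit 0, nat_lit 0, nat_lit 0, [nat_lit 3282000000, nat_lit 6250000000], [], [nat_lit 15257406464, nat_lit 15770927592, nat_lit 16026655016, nat_lit 16503053932], nat_lit 0, nat_lit 0, nat_lit 0, nat_lit 0, nat_lit 0, nat_lit 0, [], [nat_lit 49, nat_lit 40, nat_lit 80, nat_lit 80]⟩,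
 zbF0, [⟨nat_lit 0, nat_lit 96, nat_lit 85, nat_lit 100, nat_lit 580233879⟩]⟩
noncomputable def p021_l27 : Lf2 := ⟨nat_lit 0, nat_lit 1, [nat_lit 19, nat_lit 5, nat_lit 5, nat_lit 20], false, nat_lit 0, nat_lit 0, nat_lit 0, nat_lit 0, ⟨nat_lit 1000, nat_lit 0, nat_lit 0, nat_lit 0, nat_lit 0, nat_lit 0, nat_lit 0, nat_lit 0, nat_lit 0, nat_lit 0, nat_lit 0, nat_lit 0, nat_lit 0, nat_lit 0, nat_lit 0, nat_lit 0, false, false⟩,
 nat_lit 0, nat_lit 9230, nat_lit 0, nat_lit 0, nat_lit 6922, nat_lit 4487, nat_lit 0, nat_lit 0, nat_lit 0, nat_lit 4236, nat_lit 0, nat_lit 0, nat_lit 0, nat_lit 0, nat_lit 0, nat_lit 0, nat_lit 0, nat_lit 0, [],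
 ⟨p021_k6, nat_lit 0, nat_lit 0, nat_lit 544, nat_lit 0, nat_lit 1392749, [nat_lit 2032000001, nat_lit 3282000000], [], [nat_lit 22795992418, nat_lit 23033031976, nat_lit 22839020537, nat_lit 23061244075], nat_lit 1271250, nat_lit 1271250, nat_lit 749650, nat_lit 1100001, nat_lit 0, nat_lit 0, [nat_lit 490000, nat_lit 780000], [nat_lit 112, nat_lit 40, nat_lit 80, nat_lit 80, nat_lit 113, nat_lit 249, nat_lit 40, nat_lit 14]⟩, ⟨p021_k25, nat_lit 0, nat_lit 0, nat_lit 0, nat_lit 0, nat_lit 0, [nat_lit 3282000000, nat_lit 4688000000], [], [nat_lit 15885526920, nat_lit 16392211246, nat_lit 16507002471, nat_lit 16982364744], nat_lit 0, nat_lit 0, nat_lit 0, nat_lit 0, nat_lit 0, nat_lit 0, [], [nat_lit 40, nat_lit 40, nat_lit 80, nat_lit 80]⟩,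
 zbF0, [⟨nat_lit 0, nat_lit 93, nat_lit 84, nat_lit 100, nat_lit 581326768⟩]⟩
noncomputable def p021_l28 : Lf2 := ⟨nat_lit 0, nat_lit 2, [nat_lit 10, nat_lit 5, nat_lit 5, nat_lit 20], false, nat_lit 0, nat_lit 0, nat_lit 0, nat_lit 0, ⟨nat_lit 1000, nat_lit 0, nat_lit 0, nat_lit 0, nat_lit 0, nat_lit 0, nat_lit 0, nat_lit 0, nat_lit 0, nat_lit 0, nat_lit 0, nat_lit 0, nat_lit 0, nat_lit 0, nat_lit 0, nat_lit 0, false, false⟩,
 nat_lit 0, nat_lit 8863, nat_lit 0, nat_lit 0, nat_lit 6647, nat_lit 4498, nat_lit 0, nat_lit 0, nat_lit 0, nat_lit 0, nat_lit 0, nat_lit 0, nat_lit 0, nat_lit 0, nat_lit 0, nat_lit 0, nat_lit 0, nat_lit 0, [],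
 ⟨p021_k4, nat_lit 0, nat_lit 0, nat_lit 596, nat_lit 0, nat_lit 1337301, [nat_lit 2032000001, nat_lit 4688000000], [], [nat_lit 32885088414, nat_lit 33067987789, nat_lit 32739793822, nat_lit 32938700999], nat_lit 1271250, nat_lit 1271250, nat_lit 749650, nat_lit 1100001, nat_lit 0, nat_lit 0, [nat_lit 490000, nat_lit 1100000], [nat_lit 24, nat_lit 40, nat_lit 80, nat_lit 80, nat_lit 33, nat_lit 249, nat_lit 40, nat_lit 11]⟩, ⟨p021_k26, nat_lit 0, nat_lit 0, nat_lit 0, nat_lit 0, nat_lit 0, [nat_lit 3282000000, nat_lit 4688000000], [], [nat_lit 15884255769, nat_lit 16391668485, nat_lit 16504447534, nat_lit 16980480576], nat_lit 0, nat_lit 0, nat_lit 0, nat_lit 0, nat_lit 0, nat_lit 0, [], [nat_lit 40, nat_lit 40, nat_lit 80, nat_lit 80]⟩,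
 zbF0, [⟨nat_lit 0, nat_lit 93, nat_lit 84, nat_lit 100, nat_lit 604384453⟩]⟩
noncomputable def p021_l29 : Lf2 := ⟨nat_lit 0, nat_lit 5, [nat_lit 4, nat_lit 5, nat_lit 5, nat_lit 20], false, nat_lit 0, nat_lit 0, nat_lit 0, nat_lit 0, ⟨nat_lit 1000, nat_lit 0, nat_lit 0, nat_lit 0, nat_lit 0, nat_lit 0, nat_lit 0, nat_lit 0, nat_lit 0, nat_lit 0, nat_lit 0, nat_lit 0, nat_lit 0, nat_lit 0, nat_lit 0, nat_lit 0, false, false⟩,
 nat_lit 0, nat_lit 8863, nat_lit 0, nat_lit 0, nat_lit 6647, nat_lit 4498, nat_lit 485, nat_lit 0, nat_lit 0, nat_lit 0, nat_lit 0, nat_lit 0, nat_lit 0, nat_lit 0, nat_lit 0, nat_lit 0, nat_lit 0, nat_lit 0, [],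
 ⟨p021_k8, nat_lit 0, nat_lit 0, nat_lit 670, nat_lit 0, nat_lit 1310500, [nat_lit 2032000001, nat_lit 4688000000, nat_lit 6250000000], [], [nat_lit 32885088414, nat_lit 33067987789, nat_lit 32739793822, nat_lit 32938700999], nat_lit 1271250, nat_lit 1271250, nat_lit 749650, nat_lit 1100001, nat_lit 0, nat_lit 0, [nat_lit 490000, nat_lit 1100000, nat_lit 1442500], [nat_lit 6, nat_lit 40, nat_lit 80, nat_lit 80, nat_lit 3, nat_lit 249, nat_lit 40, nat_lit 9]⟩, ⟨p021_k27, nat_lit 0, nat_lit 0, nat_lit 0, nat_lit 0, nat_lit 0, [nat_lit 3282000000, nat_lit 6250000000], [], [nat_lit 15884255769, nat_lit 16391668485, nat_lit 16504447534, nat_lit 16980480576], nat_lit 0, nat_lit 0, nat_lit 0, nat_lit 0, nat_lit 0, nat_lit 0, [], [nat_lit 49, nat_lit 40, nat_lit 80, nat_lit 80]⟩,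
 zbF0, [⟨nat_lit 0, nat_lit 93, nat_lit 84, nat_lit 100, nat_lit 604384453⟩]⟩
noncomputable def p021_l30 : Lf2 := ⟨nat_lit 0, nat_lit 5, [nat_lit 4, nat_lit 5, nat_lit 5, nat_lit 20], false, nat_lit 0, nat_lit 0, nat_lit 0, nat_lit 0, ⟨nat_lit 1000, nat_lit 0, nat_lit 0, nat_lit 0, nat_lit 0, nat_lit 0, nat_lit 0, nat_lit 0, nat_lit 0, nat_lit 0, nat_lit 0, nat_lit 0, nat_lit 0, nat_lit 0, nat_lit 0, nat_lit 0, false, false⟩,
 nat_lit 0, nat_lit 11206, nat_lit 0, nat_lit 0, nat_lit 8404, nat_lit 6069, nat_lit 410, nat_lit 0, nat_lit 0, nat_lit 3909, nat_lit 0, nat_lit 0, nat_lit 0, nat_lit 0, nat_lit 0, nat_lit 0, nat_lit 0, nat_lit 0, [],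
 ⟨p021_k8, nat_lit 0, nat_lit 0, nat_lit 713, nat_lit 0, nat_lit 1432542, [nat_lit 2032000001, nat_lit 4688000000, nat_lit 6250000000], [], [nat_lit 24829296912, nat_lit 24997206412, nat_lit 27961957920, nat_lit 28683223234], nat_lit 1271250, nat_lit 1271250, nat_lit 1100001, nat_lit 1785000, nat_lit 0, nat_lit 0, [nat_lit 490000, nat_lit 1100000, nat_lit 1442500], [nat_lit 6, nat_lit 40, nat_lit 80, nat_lit 80, nat_lit 3, nat_lit 272, nat_lit 60, nat_lit 10]⟩, ⟨p021_k24, nat_lit 0, nat_lit 0, nat_lit 0, nat_lit 0, nat_lit 0, [nat_lit 3282000000, nat_lit 6250000000], [], [nat_lit 17334152830, nat_lit 18321241970, nat_lit 21333739827, nat_lit 22393952258], nat_lit 0, nat_lit 0, nat_lit 0, nat_lit 0, nat_lit 0, nat_lit 0, [], [nat_lit 49, nat_lit 40, nat_lit 80, nat_lit 80]⟩,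
 zbF0, []⟩
noncomputable def p021_l31 : Lf2 := ⟨nat_lit 0, nat_lit 5, [nat_lit 4, nat_lit 5, nat_lit 5, nat_lit 20], false, nat_lit 0, nat_lit 0, nat_lit 0, nat_lit 0, ⟨nat_lit 1000, nat_lit 0, nat_lit 0, nat_lit 0, nat_lit 0, nat_lit 0, nat_lit 0, nat_lit 0, nat_lit 0, nat_lit 0, nat_lit 0, nat_lit 0, nat_lit 0, nat_lit 0, nat_lit 0, nat_lit 0, false, false⟩,
 nat_lit 0, nat_lit 7960, nat_lit 0, nat_lit 0, nat_lit 6086, nat_lit 8451, nat_lit 2956, nat_lit 0, nat_lit 0, nat_lit 0, nat_lit 0, nat_lit 0, nat_lit 0, nat_lit 0, nat_lit 0, nat_lit 0, nat_lit 0, nat_lit 0, [],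
 ⟨p021_k11, nat_lit 0, nat_lit 0, nat_lit 648, nat_lit 0, nat_lit 1430976, [nat_lit 2032000001, nat_lit 4688000000], [], [nat_lit 22247337403, nat_lit 22458080441, nat_lit 25117655931, nat_lit 25695834582], nat_lit 1271250, nat_lit 1271250, nat_lit 749650, nat_lit 1760250, nat_lit 0, nat_lit 0, [nat_lit 490000, nat_lit 1100000], [nat_lit 24, nat_lit 40, nat_lit 80, nat_lit 80, nat_lit 33, nat_lit 272, nat_lit 60, nat_lit 12]⟩, ⟨p021_k24, nat_lit 0, nat_lit 0, nat_lit 0, nat_lit 0, nat_lit 0, [nat_lit 3282000000, nat_lit 6250000000], [], [nat_lit 20365204932, nat_lit 21682736710, nat_lit 24369563045, nat_lit 25390040398], nat_lit 0, nat_lit 0, nat_lit 0, nat_lit 0, nat_lit 0, nat_lit 0, [], [nat_lit 49, nat_lit 40, nat_lit 80, nat_lit 80]⟩,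
 zbF0, [⟨nat_lit 0, nat_lit 92, nat_lit 81, nat_lit 100, nat_lit 289488548⟩]⟩
noncomputable def p021_l32 : Lf2 := ⟨nat_lit 0, nat_lit 5, [nat_lit 4, nat_lit 5, nat_lit 5, nat_lit 20], false, nat_lit 0, nat_lit 0, nat_lit 0, nat_lit 0, ⟨nat_lit 1000, nat_lit 0, nat_lit 0, nat_lit 0, nat_lit 0, nat_lit 0, nat_lit 0, nat_lit 0, nat_lit 0, nat_lit 0, nat_lit 0, nat_lit 0, nat_lit 0, nat_lit 0, nat_lit 0, nat_lit 0, false, false⟩,
 nat_lit 0, nat_lit 7175, nat_lit 0, nat_lit 0, nat_lit 5593, nat_lit 8451, nat_lit 1392, nat_lit 0, nat_lit 0, nat_lit 1224, nat_lit 0, nat_lit 0, nat_lit 0, nat_lit 0, nat_lit 0, nat_lit 0, nat_lit 0, nat_lit 0, [],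
 ⟨p021_k28, nat_lit 0, nat_lit 0, nat_lit 663, nat_lit 0, nat_lit 1464817, [nat_lit 2032000001, nat_lit 4688000000], [], [nat_lit 23971774584, nat_lit 24440149434, nat_lit 25619423168, nat_lit 26002848918], nat_lit 1271250, nat_lit 1271250, nat_lit 719601, nat_lit 1758000, nat_lit 0, nat_lit 0, [nat_lit 490000, nat_lit 1100000], [nat_lit 24, nat_lit 40, nat_lit 80, nat_lit 80, nat_lit 33, nat_lit 272, nat_lit 60, nat_lit 12]⟩, ⟨p021_k21, nat_lit 0, nat_lit 0, nat_lit 0, nat_lit 0, nat_lit 0, [nat_lit 3282000000, nat_lit 6250000000, nat_lit 7968000000], [], [nat_lit 19247862849, nat_lit 21686543241, nat_lit 23349085692, nat_lit 25390040398], nat_lit 0, nat_lit 0, nat_lit 0, nat_lit 0, nat_lit 0, nat_lit 0, [], [nat_lit 18, nat_lit 40, nat_lit 80, nat_lit 80]⟩,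
 zbF0, [⟨nat_lit 0, nat_lit 96, nat_lit 79, nat_lit 100, nat_lit 392702580⟩, ⟨nat_lit 13, nat_lit 88, nat_lit 21, nat_lit 100, nat_lit 14012563⟩]⟩
noncomputable def b_N_800_700_0_21 : St := ⟨false, nat_lit 1, nat_lit 0, nat_lit 2, nat_lit 40, nat_lit 320, nat_lit 340, nat_lit 280, nat_lit 300, nat_lit 100, nat_lit 240, nat_lit 0, nat_lit 0, nat_lit 0, nat_lit 0, nat_lit 0, nat_lit 0, nat_lit 0, nat_lit 20, nat_lit 0, nat_lit 0, nat_lit 0, nat_lit 800⟩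
theorem d_N_800_700_0_21 (h : EB TB.env) : Dead b_N_800_700_0_21 := chkB_sound0 h (T :=
(.spl (nat_lit 0) (nat_lit 330)
(.spl (nat_lit 1) (nat_lit 290)
(.spl (nat_lit 6) (nat_lit 8)
(.spl (nat_lit 0) (nat_lit 325)
(.leaf p021_l20)
(.trZ (nat_lit 0) (nat_lit 100) (nat_lit 85) (nat_lit 97) (nat_lit 104) (.leaf p021_l21)))
(.spl (nat_lit 6) (nat_lit 16)
(.leaf p021_l22)
(.leaf p021_l23)))
(.trZ (nat_lit 0) (nat_lit 100) (nat_lit 89) (nat_lit 100) (nat_lit 108) (.spl (nat_lit 0) (nat_lit 325)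
(.spl (nat_lit 2) (nat_lit 160)
(.spl (nat_lit 1) (nat_lit 295)
(.spl (nat_lit 6) (nat_lit 8)
(.spl (nat_lit 0) (nat_lit 323)
(.leaf p021_l24)
(.trZ (nat_lit 0) (nat_lit 99) (nat_lit 87) (nat_lit 100) (nat_lit 112) (.leaf p021_l25)))
(.leaf p021_l26))
(.trZ (nat_lit 0) (nat_lit 97) (nat_lit 88) (nat_lit 100) (nat_lit 116) (.spl (nat_lit 6) (nat_lit 8)
(.spl (nat_lit 6) (nat_lit 4)
(.leaf p021_l27)
(.leaf p021_l28))
(.leaf p021_l29))))
(.leaf p021_l30))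
(.trZ (nat_lit 0) (nat_lit 98) (nat_lit 86) (nat_lit 100) (nat_lit 116) (.leaf p021_l31)))))
(.trZ (nat_lit 0) (nat_lit 100) (nat_lit 83) (nat_lit 98) (nat_lit 112) (.leaf p021_l32)))) (by decide +kernel)
noncomputable def p021_l33 : Lf2 := ⟨nat_lit 0, nat_lit 2, [nat_lit 10, nat_lit 5, nat_lit 5, nat_lit 20], true, nat_lit 0, nat_lit 0, nat_lit 0, nat_lit 0, ⟨nat_lit 0, nat_lit 1000, nat_lit 0, nat_lit 7, nat_lit 205, nat_lit 0, nat_lit 0, nat_lit 0, nat_lit 0, nat_lit 0, nat_lit 0, nat_lit 0, nat_lit 0, nat_lit 0, nat_lit 0, nat_lit 5000000, false, false⟩,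
 nat_lit 0, nat_lit 0, nat_lit 0, nat_lit 0, nat_lit 0, nat_lit 0, nat_lit 0, nat_lit 0, nat_lit 349, nat_lit 0, nat_lit 0, nat_lit 0, nat_lit 0, nat_lit 0, nat_lit 0, nat_lit 400000, nat_lit 0, nat_lit 0, [(nat_lit 18, [(nat_lit 1, nat_lit 1000)])],
 ⟨p021_k4, nat_lit 0, nat_lit 0, nat_lit 0, nat_lit 0, nat_lit 1398891, [nat_lit 1398133334, nat_lit 1966666666], [], [nat_lit 12145472672, nat_lit 12208845972, nat_lit 13054720000, nat_lit 13143426200], nat_lit 1271250, nat_lit 1271250, nat_lit 780000, nat_lit 1100001, nat_lit 0, nat_lit 0, [nat_lit 490000, nat_lit 1100000], [nat_lit 24, nat_lit 40, nat_lit 80, nat_lit 80]⟩, C1.Rw.none,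
 ⟨nat_lit 4415, nat_lit 4473, ⟨.ofNat (nat_lit 471874), .ofNat (nat_lit 539852), .ofNat (nat_lit 482657), .ofNat (nat_lit 550635), .ofNat (nat_lit 472653), .ofNat (nat_lit 540287), .ofNat (nat_lit 483445), .ofNat (nat_lit 551079)⟩, ⟨.ofNat (nat_lit 0), .ofNat (nat_lit 0), .ofNat (nat_lit 0), .ofNat (nat_lit 0), .ofNat (nat_lit 0), .ofNat (nat_lit 0), .ofNat (nat_lit 0), .ofNat (nat_lit 0)⟩⟩, []⟩
noncomputable def p021_l34 : Lf2 := ⟨nat_lit 0, nat_lit 2, [nat_lit 10, nat_lit 5, nat_lit 5, nat_lit 20], false, nat_lit 0, nat_lit 0, nat_lit 0, nat_lit 0, ⟨nat_lit 1000, nat_lit 0, nat_lit 0, nat_lit 0, nat_lit 0, nat_lit 0, nat_lit 0, nat_lit 0, nat_lit 0, nat_lit 0, nat_lit 0, nat_lit 0, nat_lit 0, nat_lit 0, nat_lit 0, nat_lit 0, false, false⟩,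
 nat_lit 0, nat_lit 8894, nat_lit 0, nat_lit 0, nat_lit 6670, nat_lit 4996, nat_lit 0, nat_lit 0, nat_lit 0, nat_lit 2361, nat_lit 0, nat_lit 0, nat_lit 0, nat_lit 0, nat_lit 0, nat_lit 0, nat_lit 0, nat_lit 0, [],
 ⟨p021_k4, nat_lit 0, nat_lit 0, nat_lit 599, nat_lit 0, nat_lit 1350269, [nat_lit 2032000001, nat_lit 4688000000], [], [nat_lit 32736437322, nat_lit 32772861867, nat_lit 32622294480, nat_lit 32662325163], nat_lit 1271250, nat_lit 1271250, nat_lit 780000, nat_lit 1100001, nat_lit 0, nat_lit 0, [nat_lit 490000, nat_lit 1100000], [nat_lit 24, nat_lit 40, nat_lit 80, nat_lit 80, nat_lit 33, nat_lit 249, nat_lit 40, nat_lit 11]⟩, ⟨p021_k5, nat_lit 0, nat_lit 0, nat_lit 0, nat_lit 0, nat_lit 0, [nat_lit 3282000000, nat_lit 4688000000], [], [nat_lit 17150774016, nat_lit 17601170372, nat_lit 17693123688, nat_lit 18117460072], nat_lit 0, nat_lit 0, nat_lit 0, nat_lit 0, nat_lit 0, nat_lit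 0, [], [nat_lit 40, nat_lit 40, nat_lit 80, nat_lit 80]⟩,
 zbF0, [⟨nat_lit 0, nat_lit 91, nat_lit 85, nat_lit 100, nat_lit 609722838⟩]⟩
noncomputable def p021_l35 : Lf2 := ⟨nat_lit 0, nat_lit 2, [nat_lit 10, nat_lit 5, nat_lit 5, nat_lit 20], false, nat_lit 0, nat_lit 0, nat_lit 0, nat_lit 0, ⟨nat_lit 1000, nat_lit 0, nat_lit 0, nat_lit 0, nat_lit 0, nat_lit 0, nat_lit 0, nat_lit 0, nat_lit 0, nat_lit 0, nat_lit 0, nat_lit 0, nat_lit 0, nat_lit 0, nat_lit 0, nat_lit 0, false, false⟩,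
 nat_lit 0, nat_lit 0, nat_lit 0, nat_lit 0, nat_lit 0, nat_lit 5419, nat_lit 0, nat_lit 0, nat_lit 552, nat_lit 0, nat_lit 0, nat_lit 0, nat_lit 0, nat_lit 0, nat_lit 0, nat_lit 0, nat_lit 0, nat_lit 0, [],
 ⟨p021_k4, nat_lit 0, nat_lit 0, nat_lit 0, nat_lit 0, nat_lit 1392160, [nat_lit 2032000001, nat_lit 4688000000], [], [nat_lit 8347685801, nat_lit 8379312031, nat_lit 9155616002, nat_lit 9188262702], nat_lit 1271250, nat_lit 1271250, nat_lit 810650, nat_lit 1100001, nat_lit 0, nat_lit 0, [nat_lit 490000, nat_lit 1100000], [nat_lit 24, nat_lit 40, nat_lit 80, nat_lit 80]⟩, ⟨p021_k29, nat_lit 0, nat_lit 0, nat_lit 0, nat_lit 0, nat_lit 0, [nat_lit 3282000000, nat_lit 4688000000], [], [nat_lit 19455035770, nat_lit 19924925654, nat_lit 19884117960, nat_lit 20328731237], nat_lit 0, nat_lit 0, nat_lit 0, nat_lit 0, nat_lit 0, nat_lit 0, [], [nat_lit 40, nat_lit 40, nat_lit 80, nat_lit 80]⟩,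
 zbF0, []⟩
noncomputable def p021_l36 : Lf2 := ⟨nat_lit 0, nat_lit 2, [nat_lit 10, nat_lit 5, nat_lit 5, nat_lit 20], false, nat_lit 0, nat_lit 0, nat_lit 0, nat_lit 0, ⟨nat_lit 1000, nat_lit 0, nat_lit 0, nat_lit 0, nat_lit 0, nat_lit 0, nat_lit 0, nat_lit 0, nat_lit 0, nat_lit 0, nat_lit 0, nat_lit 0, nat_lit 0, nat_lit 0, nat_lit 0, nat_lit 0, false, false⟩,
 nat_lit 0, nat_lit 11843, nat_lit 0, nat_lit 0, nat_lit 8882, nat_lit 4960, nat_lit 775, nat_lit 0, nat_lit 0, nat_lit 1871, nat_lit 0, nat_lit 0, nat_lit 0, nat_lit 0, nat_lit 0, nat_lit 0, nat_lit 0, nat_lit 0, [],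
 ⟨p021_k30, nat_lit 0, nat_lit 0, nat_lit 620, nat_lit 0, nat_lit 1392160, [nat_lit 2032000001, nat_lit 3282000000, nat_lit 4688000000], [], [nat_lit 11666172237, nat_lit 11720775362, nat_lit 11556697936, nat_lit 11612298970], nat_lit 1271250, nat_lit 1271250, nat_lit 810650, nat_lit 1100001, nat_lit 0, nat_lit 0, [nat_lit 490000, nat_lit 780000, nat_lit 1100000], [nat_lit 78, nat_lit 40, nat_lit 80, nat_lit 80, nat_lit 22, nat_lit 249, nat_lit 40, nat_lit 11]⟩, ⟨p021_k29, nat_lit 0, nat_lit 0, nat_lit 0, nat_lit 0, nat_lit 0, [nat_lit 3282000000, nat_lit 4688000000], [], [nat_lit 17717257447, nat_lit 18163133185, nat_lit 18184641855, nat_lit 18606977000], nat_lit 0, nat_lit 0, nat_lit 0, nat_lit 0, nat_lit 0, nat_lit 0, [], [nat_lit 40, nat_lit 40, nat_lit 80, nat_lit 80]⟩,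
 zbF0, [⟨nat_lit 0, nat_lit 89, nat_lit 84, nat_lit 100, nat_lit 629988994⟩]⟩
noncomputable def p021_l37 : Lf2 := ⟨nat_lit 0, nat_lit 2, [nat_lit 10, nat_lit 5, nat_lit 5, nat_lit 20], false, nat_lit 0, nat_lit 0, nat_lit 0, nat_lit 0, ⟨nat_lit 1000, nat_lit 0, nat_lit 0, nat_lit 0, nat_lit 0, nat_lit 0, nat_lit 0, nat_lit 0, nat_lit 0, nat_lit 0, nat_lit 0, nat_lit 0, nat_lit 0, nat_lit 0, nat_lit 0, nat_lit 0, false, false⟩,
 nat_lit 0, nat_lit 8850, nat_lit 0, nat_lit 0, nat_lit 6663, nat_lit 5652, nat_lit 2727, nat_lit 0, nat_lit 0, nat_lit 788, nat_lit 0, nat_lit 0, nat_lit 0, nat_lit 0, nat_lit 0, nat_lit 0, nat_lit 0, nat_lit 0, [],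
 ⟨p021_k31, nat_lit 0, nat_lit 0, nat_lit 599, nat_lit 0, nat_lit 1350047, [nat_lit 2032000001, nat_lit 4688000000], [], [nat_lit 30845514632, nat_lit 30881923438, nat_lit 30729227187, nat_lit 30769239427], nat_lit 1271250, nat_lit 1271250, nat_lit 780000, nat_lit 1100001, nat_lit 0, nat_lit 0, [nat_lit 490000, nat_lit 1100000], [nat_lit 24, nat_lit 40, nat_lit 80, nat_lit 80, nat_lit 33, nat_lit 249, nat_lit 40, nat_lit 11]⟩, ⟨p021_k5, nat_lit 0, nat_lit 0, nat_lit 0, nat_lit 0, nat_lit 0, [nat_lit 3282000000, nat_lit 4688000000], [], [nat_lit 17933197392, nat_lit 18418180364, nat_lit 18417380856, nat_lit 18873334826], nat_lit 0, nat_lit 0, nat_lit 0, nat_lit 0, nat_lit 0, nat_lit 0, [], [nat_lit 40, nat_lit 40, nat_lit 80, nat_lit 80]⟩,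
 zbF0, [⟨nat_lit 0, nat_lit 91, nat_lit 85, nat_lit 100, nat_lit 618932402⟩]⟩
noncomputable def p021_l38 : Lf2 := ⟨nat_lit 0, nat_lit 2, [nat_lit 10, nat_lit 5, nat_lit 5, nat_lit 20], false, nat_lit 0, nat_lit 0, nat_lit 0, nat_lit 0, ⟨nat_lit 1000, nat_lit 0, nat_lit 0, nat_lit 0, nat_lit 0, nat_lit 0, nat_lit 0, nat_lit 0, nat_lit 0, nat_lit 0, nat_lit 0, nat_lit 0, nat_lit 0, nat_lit 0, nat_lit 0, nat_lit 0, false, false⟩,
 nat_lit 0, nat_lit 12034, nat_lit 0, nat_lit 0, nat_lit 9060, nat_lit 5628, nat_lit 4285, nat_lit 0, nat_lit 0, nat_lit 631, nat_lit 0, nat_lit 0, nat_lit 0, nat_lit 0, nat_lit 0, nat_lit 0, nat_lit 0, nat_lit 0, [],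
 ⟨p021_k31, nat_lit 0, nat_lit 0, nat_lit 611, nat_lit 0, nat_lit 1374915, [nat_lit 2032000001, nat_lit 4688000000], [], [nat_lit 17946773566, nat_lit 17986568091, nat_lit 17517200688, nat_lit 17554680776], nat_lit 1271250, nat_lit 1271250, nat_lit 810650, nat_lit 1100001, nat_lit 0, nat_lit 0, [nat_lit 490000, nat_lit 1100000], [nat_lit 24, nat_lit 40, nat_lit 80, nat_lit 80, nat_lit 33, nat_lit 249, nat_lit 40, nat_lit 11]⟩, ⟨p021_k29, nat_lit 0, nat_lit 0, nat_lit 0, nat_lit 0, nat_lit 0, [nat_lit 3282000000, nat_lit 4688000000], [], [nat_lit 18489958443, nat_lit 18778453101, nat_lit 18901600189, nat_lit 19174471688], nat_lit 0, nat_lit 0, nat_lit 0, nat_lit 0, nat_lit 0, nat_lit 0, [], [nat_lit 40, nat_lit 40, nat_lit 80, nat_lit 80]⟩,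
 zbF0, [⟨nat_lit 0, nat_lit 89, nat_lit 84, nat_lit 100, nat_lit 699869904⟩]⟩
noncomputable def p021_l39 : Lf2 := ⟨nat_lit 0, nat_lit 2, [nat_lit 10, nat_lit 5, nat_lit 5, nat_lit 20], false, nat_lit 0, nat_lit 0, nat_lit 0, nat_lit 0, ⟨nat_lit 1000, nat_lit 0, nat_lit 0, nat_lit 0, nat_lit 0, nat_lit 0, nat_lit 0, nat_lit 0, nat_lit 0, nat_lit 0, nat_lit 0, nat_lit 0, nat_lit 0, nat_lit 0, nat_lit 0, nat_lit 0, false, false⟩,
 nat_lit 0, nat_lit 12021, nat_lit 0, nat_lit 0, nat_lit 9050, nat_lit 5627, nat_lit 4355, nat_lit 0, nat_lit 0, nat_lit 567, nat_lit 0, nat_lit 0, nat_lit 0, nat_lit 0, nat_lit 0, nat_lit 0, nat_lit 0, nat_lit 0, [],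
 ⟨p021_k31, nat_lit 0, nat_lit 0, nat_lit 615, nat_lit 0, nat_lit 1383267, [nat_lit 2032000001, nat_lit 4688000000], [], [nat_lit 17898218489, nat_lit 17937735577, nat_lit 17517368690, nat_lit 17554830380], nat_lit 1271250, nat_lit 1271250, nat_lit 841600, nat_lit 1100001, nat_lit 0, nat_lit 0, [nat_lit 490000, nat_lit 1100000], [nat_lit 24, nat_lit 40, nat_lit 80, nat_lit 80, nat_lit 33, nat_lit 249, nat_lit 40, nat_lit 11]⟩, ⟨p021_k32, nat_lit 0, nat_lit 0, nat_lit 0, nat_lit 0, nat_lit 0, [nat_lit 3282000000, nat_lit 4688000000], [], [nat_lit 18815996968, nat_lit 18911572836, nat_lit 19168089608, nat_lit 19259037040], nat_lit 0, nat_lit 0, nat_lit 0, nat_lit 0, nat_lit 0, nat_lit 0, [], [nat_lit 40, nat_lit 40, nat_lit 80, nat_lit 80]⟩,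
 zbF0, [⟨nat_lit 0, nat_lit 89, nat_lit 84, nat_lit 100, nat_lit 697917024⟩]⟩
noncomputable def p021_l40 : Lf2 := ⟨nat_lit 0, nat_lit 2, [nat_lit 10, nat_lit 5, nat_lit 5, nat_lit 20], false, nat_lit 0, nat_lit 0, nat_lit 0, nat_lit 0, ⟨nat_lit 1000, nat_lit 0, nat_lit 0, nat_lit 0, nat_lit 0, nat_lit 0, nat_lit 0, nat_lit 0, nat_lit 0, nat_lit 0, nat_lit 0, nat_lit 0, nat_lit 0, nat_lit 0, nat_lit 0, nat_lit 0, false, false⟩,
 nat_lit 0, nat_lit 12118, nat_lit 0, nat_lit 0, nat_lit 9123, nat_lit 5626, nat_lit 4422, nat_lit 0, nat_lit 0, nat_lit 553, nat_lit 0, nat_lit 0, nat_lit 0, nat_lit 0, nat_lit 0, nat_lit 0, nat_lit 0, nat_lit 0, [],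
 ⟨p021_k31, nat_lit 0, nat_lit 0, nat_lit 618, nat_lit 0, nat_lit 1391641, [nat_lit 2032000001, nat_lit 4688000000], [], [nat_lit 17378877101, nat_lit 17418283576, nat_lit 17235699519, nat_lit 17321208383], nat_lit 1271250, nat_lit 1271250, nat_lit 872850, nat_lit 1100001, nat_lit 0, nat_lit 0, [nat_lit 490000, nat_lit 1100000], [nat_lit 24, nat_lit 40, nat_lit 80, nat_lit 80, nat_lit 33, nat_lit 249, nat_lit 40, nat_lit 11]⟩, ⟨p021_k33, nat_lit 0, nat_lit 0, nat_lit 0, nat_lit 0, nat_lit 0, [nat_lit 3282000000, nat_lit 4688000000], [], [nat_lit 18948740626, nat_lit 19043727638, nat_lit 19252838977, nat_lit 19343776673], nat_lit 0, nat_lit 0, nat_lit 0, nat_lit 0, nat_lit 0, nat_lit 0, [], [nat_lit 40, nat_lit 40, nat_lit 80, nat_lit 80]⟩,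
 zbF0, [⟨nat_lit 0, nat_lit 88, nat_lit 84, nat_lit 100, nat_lit 646003234⟩]⟩
noncomputable def p021_l41 : Lf2 := ⟨nat_lit 0, nat_lit 2, [nat_lit 10, nat_lit 5, nat_lit 5, nat_lit 20], false, nat_lit 0, nat_lit 0, nat_lit 0, nat_lit 0, ⟨nat_lit 1000, nat_lit 0, nat_lit 0, nat_lit 0, nat_lit 0, nat_lit 0, nat_lit 0, nat_lit 0, nat_lit 0, nat_lit 0, nat_lit 0, nat_lit 0, nat_lit 0, nat_lit 0, nat_lit 0, nat_lit 0, false, false⟩,
 nat_lit 0, nat_lit 7528, nat_lit 0, nat_lit 0, nat_lit 5690, nat_lit 5705, nat_lit 11003, nat_lit 0, nat_lit 0, nat_lit 612, nat_lit 0, nat_lit 0, nat_lit 0, nat_lit 0, nat_lit 0, nat_lit 0, nat_lit 0, nat_lit 0, [],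
 ⟨p021_k34, nat_lit 0, nat_lit 0, nat_lit 624, nat_lit 0, nat_lit 1391112, [nat_lit 2032000001, nat_lit 4688000000], [], [nat_lit 20774864518, nat_lit 20815536494, nat_lit 20891432796, nat_lit 20929924459], nat_lit 1271250, nat_lit 1271250, nat_lit 780000, nat_lit 1100001, nat_lit 0, nat_lit 0, [nat_lit 490000, nat_lit 1100000], [nat_lit 24, nat_lit 40, nat_lit 80, nat_lit 80, nat_lit 33, nat_lit 249, nat_lit 40, nat_lit 11]⟩, ⟨p021_k5, nat_lit 0, nat_lit 0, nat_lit 0, nat_lit 0, nat_lit 0, [nat_lit 3282000000, nat_lit 4688000000], [], [nat_lit 18042878930, nat_lit 19129263238, nat_lit 18522362990, nat_lit 19439430215], nat_lit 0, nat_lit 0, nat_lit 0, nat_lit 0, nat_lit 0, nat_lit 0, [], [nat_lit 40, nat_lit 40, nat_lit 80, nat_lit 80]⟩,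
 zbF0, [⟨nat_lit 0, nat_lit 88, nat_lit 83, nat_lit 100, nat_lit 636068838⟩]⟩
noncomputable def p021_l42 : Lf2 := ⟨nat_lit 0, nat_lit 2, [nat_lit 10, nat_lit 5, nat_lit 5, nat_lit 20], true, nat_lit 0, nat_lit 0, nat_lit 0, nat_lit 0, ⟨nat_lit 0, nat_lit 1000, nat_lit 0, nat_lit 7, nat_lit 213, nat_lit 0, nat_lit 0, nat_lit 0, nat_lit 0, nat_lit 0, nat_lit 0, nat_lit 0, nat_lit 0, nat_lit 0, nat_lit 0, nat_lit 5000000, false, false⟩,
 nat_lit 0, nat_lit 0, nat_lit 0, nat_lit 0, nat_lit 0, nat_lit 0, nat_lit 0, nat_lit 0, nat_lit 349, nat_lit 0, nat_lit 0, nat_lit 0, nat_lit 0, nat_lit 0, nat_lit 0, nat_lit 400000, nat_lit 0, nat_lit 0, [(nat_lit 18, [(nat_lit 1, nat_lit 1000)])],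
 ⟨p021_k4, nat_lit 0, nat_lit 0, nat_lit 0, nat_lit 0, nat_lit 1486073, [nat_lit 1398133334, nat_lit 1966666666], [], [nat_lit 12409896872, nat_lit 12472700802, nat_lit 13054720000, nat_lit 13143426200], nat_lit 1271250, nat_lit 1271250, nat_lit 872850, nat_lit 1100001, nat_lit 0, nat_lit 0, [nat_lit 490000, nat_lit 1100000], [nat_lit 24, nat_lit 40, nat_lit 80, nat_lit 80]⟩, C1.Rw.none,
 ⟨nat_lit 4415, nat_lit 4473, ⟨.ofNat (nat_lit 503051), .ofNat (nat_lit 550635), .ofNat (nat_lit 513834), .ofNat (nat_lit 561419), .ofNat (nat_lit 503736), .ofNat (nat_lit 551079), .ofNat (nat_lit 514528), .ofNat (nat_lit 561872)⟩, ⟨.ofNat (nat_lit 0), .ofNat (nat_lit 0), .ofNat (nat_lit 0), .ofNat (nat_lit 0), .ofNat (nat_lit 0), .ofNat (nat_lit 0), .ofNat (nat_lit 0), .ofNat (nat_lit 0)⟩⟩, []⟩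
noncomputable def p021_l43 : Lf2 := ⟨nat_lit 0, nat_lit 2, [nat_lit 10, nat_lit 5, nat_lit 5, nat_lit 20], false, nat_lit 0, nat_lit 0, nat_lit 0, nat_lit 0, ⟨nat_lit 1000, nat_lit 0, nat_lit 0, nat_lit 0, nat_lit 0, nat_lit 0, nat_lit 0, nat_lit 0, nat_lit 0, nat_lit 0, nat_lit 0, nat_lit 0, nat_lit 0, nat_lit 0, nat_lit 0, nat_lit 0, false, false⟩,
 nat_lit 0, nat_lit 0, nat_lit 0, nat_lit 0, nat_lit 0, nat_lit 2682, nat_lit 0, nat_lit 0, nat_lit 471, nat_lit 0, nat_lit 0, nat_lit 0, nat_lit 0, nat_lit 0, nat_lit 0, nat_lit 0, nat_lit 0, nat_lit 0, [],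
 ⟨p021_k4, nat_lit 0, nat_lit 0, nat_lit 0, nat_lit 0, nat_lit 1486073, [nat_lit 2032000001, nat_lit 4688000000], [], [nat_lit 13632333400, nat_lit 13690876190, nat_lit 14213444000, nat_lit 14271683200], nat_lit 1271250, nat_lit 1271250, nat_lit 872850, nat_lit 1100001, nat_lit 0, nat_lit 0, [nat_lit 490000, nat_lit 1100000], [nat_lit 24, nat_lit 40, nat_lit 80, nat_lit 80]⟩, ⟨p021_k35, nat_lit 0, nat_lit 0, nat_lit 0, nat_lit 0, nat_lit 0, [nat_lit 3282000000, nat_lit 4688000000], [], [nat_lit 22775849834, nat_lit 23422439669, nat_lit 23275322486, nat_lit 23898115776], nat_lit 0, nat_lit 0, nat_lit 0, nat_lit 0, nat_lit 0, nat_lit 0, [], [nat_lit 40, nat_lit 40, nat_lit 80, nat_lit 80]⟩,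
 zbF0, [⟨nat_lit 0, nat_lit 83, nat_lit 82, nat_lit 100, nat_lit 472122414⟩]⟩
noncomputable def p021_l44 : Lf2 := ⟨nat_lit 0, nat_lit 2, [nat_lit 10, nat_lit 5, nat_lit 5, nat_lit 20], false, nat_lit 0, nat_lit 0, nat_lit 0, nat_lit 0, ⟨nat_lit 1000, nat_lit 0, nat_lit 0, nat_lit 0, nat_lit 0, nat_lit 0, nat_lit 0, nat_lit 0, nat_lit 0, nat_lit 0, nat_lit 0, nat_lit 0, nat_lit 0, nat_lit 0, nat_lit 0, nat_lit 0, false, false⟩,
 nat_lit 0, nat_lit 9960, nat_lit 0, nat_lit 0, nat_lit 7469, nat_lit 4890, nat_lit 804, nat_lit 0, nat_lit 0, nat_lit 1518, nat_lit 0, nat_lit 0, nat_lit 0, nat_lit 0, nat_lit 0, nat_lit 0, nat_lit 0, nat_lit 0, [],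
 ⟨p021_k30, nat_lit 0, nat_lit 0, nat_lit 664, nat_lit 0, nat_lit 1486073, [nat_lit 2032000001, nat_lit 3282000000, nat_lit 4688000000], [], [nat_lit 19583193767, nat_lit 19671937881, nat_lit 19552511278, nat_lit 19643662250], nat_lit 1271250, nat_lit 1271250, nat_lit 872850, nat_lit 1100001, nat_lit 0, nat_lit 0, [nat_lit 490000, nat_lit 780000, nat_lit 1100000], [nat_lit 78, nat_lit 40, nat_lit 80, nat_lit 80, nat_lit 22, nat_lit 249, nat_lit 40, nat_lit 11]⟩, ⟨p021_k35, nat_lit 0, nat_lit 0, nat_lit 0, nat_lit 0, nat_lit 0, [nat_lit 3282000000, nat_lit 4688000000], [], [nat_lit 18385185531, nat_lit 19259235576, nat_lit 18735090470, nat_lit 19572821520], nat_lit 0, nat_lit 0, nat_lit 0, nat_lit 0, nat_lit 0, nat_lit 0, [], [nat_lit 40, nat_lit 40, nat_lit 80, nat_lit 80]⟩,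
 zbF0, [⟨nat_lit 0, nat_lit 83, nat_lit 82, nat_lit 100, nat_lit 670971916⟩]⟩
noncomputable def p021_l45 : Lf2 := ⟨nat_lit 0, nat_lit 2, [nat_lit 10, nat_lit 5, nat_lit 5, nat_lit 20], false, nat_lit 0, nat_lit 0, nat_lit 0, nat_lit 0, ⟨nat_lit 1000, nat_lit 0, nat_lit 0, nat_lit 0, nat_lit 0, nat_lit 0, nat_lit 0, nat_lit 0, nat_lit 0, nat_lit 0, nat_lit 0, nat_lit 0, nat_lit 0, nat_lit 0, nat_lit 0, nat_lit 0, false, false⟩,
 nat_lit 0, nat_lit 7943, nat_lit 0, nat_lit 0, nat_lit 6003, nat_lit 4890, nat_lit 8640, nat_lit 0, nat_lit 0, nat_lit 1518, nat_lit 0, nat_lit 0, nat_lit 0, nat_lit 0, nat_lit 0, nat_lit 0, nat_lit 0, nat_lit 0, [],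
 ⟨p021_k34, nat_lit 0, nat_lit 0, nat_lit 659, nat_lit 0, nat_lit 1477133, [nat_lit 2032000001, nat_lit 4688000000], [], [nat_lit 21223186134, nat_lit 21264162092, nat_lit 21282791393, nat_lit 21322330791], nat_lit 1271250, nat_lit 1271250, nat_lit 872850, nat_lit 1100001, nat_lit 0, nat_lit 0, [nat_lit 490000, nat_lit 1100000], [nat_lit 24, nat_lit 40, nat_lit 80, nat_lit 80, nat_lit 33, nat_lit 249, nat_lit 40, nat_lit 11]⟩, ⟨p021_k35, nat_lit 0, nat_lit 0, nat_lit 0, nat_lit 0, nat_lit 0, [nat_lit 3282000000, nat_lit 4688000000], [], [nat_lit 18385185531, nat_lit 19259235576, nat_lit 18735090470, nat_lit 19572821520], nat_lit 0, nat_lit 0, nat_lit 0, nat_lit 0, nat_lit 0, nat_lit 0, [], [nat_lit 40, nat_lit 40, nat_lit 80, nat_lit 80]⟩,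
 zbF0, [⟨nat_lit 0, nat_lit 83, nat_lit 82, nat_lit 100, nat_lit 647485572⟩]⟩
noncomputable def p021_l46 : Lf2 := ⟨nat_lit 0, nat_lit 2, [nat_lit 10, nat_lit 5, nat_lit 5, nat_lit 20], false, nat_lit 0, nat_lit 0, nat_lit 0, nat_lit 0, ⟨nat_lit 1000, nat_lit 0, nat_lit 0, nat_lit 0, nat_lit 0, nat_lit 0, nat_lit 0, nat_lit 0, nat_lit 0, nat_lit 0, nat_lit 0, nat_lit 0, nat_lit 0, nat_lit 0, nat_lit 0, nat_lit 0, false, false⟩,
 nat_lit 0, nat_lit 8037, nat_lit 0, nat_lit 0, nat_lit 6098, nat_lit 6015, nat_lit 5338, nat_lit 0, nat_lit 0, nat_lit 0, nat_lit 0, nat_lit 0, nat_lit 0, nat_lit 0, nat_lit 0, nat_lit 0, nat_lit 0, nat_lit 0, [],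
 ⟨p021_k23, nat_lit 0, nat_lit 0, nat_lit 663, nat_lit 0, nat_lit 1482403, [nat_lit 2032000001, nat_lit 4688000000], [], [nat_lit 21421090896, nat_lit 21710774948, nat_lit 21506777192, nat_lit 21588678620], nat_lit 1271250, nat_lit 1271250, nat_lit 810650, nat_lit 1100001, nat_lit 0, nat_lit 0, [nat_lit 490000, nat_lit 1100000], [nat_lit 24, nat_lit 40, nat_lit 80, nat_lit 80, nat_lit 33, nat_lit 249, nat_lit 40, nat_lit 11]⟩, ⟨p021_k5, nat_lit 0, nat_lit 0, nat_lit 0, nat_lit 0, nat_lit 0, [nat_lit 3282000000, nat_lit 4688000000], [], [nat_lit 18618593971, nat_lit 20867319502, nat_lit 18923994800, nat_lit 21051703600], nat_lit 0, nat_lit 0, nat_lit 0, nat_lit 0, nat_lit 0, nat_lit 0, [], [nat_lit 40, nat_lit 40, nat_lit 80, nat_lit 80]⟩,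
 zbF0, [⟨nat_lit 0, nat_lit 83, nat_lit 81, nat_lit 100, nat_lit 753893577⟩]⟩
noncomputable def b_N_800_700_0_22 : St := ⟨false, nat_lit 1, nat_lit 0, nat_lit 2, nat_lit 40, nat_lit 320, nat_lit 325, nat_lit 300, nat_lit 320, nat_lit 120, nat_lit 160, nat_lit 0, nat_lit 0, nat_lit 0, nat_lit 0, nat_lit 0, nat_lit 0, nat_lit 4, nat_lit 8, nat_lit 0, nat_lit 0, nat_lit 0, nat_lit 800⟩
theorem d_N_800_700_0_22 (h : EB TB.env) : Dead b_N_800_700_0_22 := chkB_sound0 h (T :=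
(.spl (nat_lit 0) (nat_lit 323)
(.spl (nat_lit 1) (nat_lit 310)
(.spl (nat_lit 0) (nat_lit 322)
(.spl (nat_lit 7) (nat_lit 600)
(.leaf p021_l33)
(.spl (nat_lit 0) (nat_lit 321)
(.spl (nat_lit 1) (nat_lit 305)
(.leaf p021_l34)
(.trZ (nat_lit 0) (nat_lit 91) (nat_lit 86) (nat_lit 100) (nat_lit 124) (.spl (nat_lit 7) (nat_lit 900)
(.leaf p021_l35)
(.leaf p021_l36))))
(.spl (nat_lit 1) (nat_lit 305)
(.leaf p021_l37)
(.trZ (nat_lit 0) (nat_lit 91) (nat_lit 85) (nat_lit 100) (nat_lit 124) (.spl (nat_lit 1) (nat_lit 308)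
(.leaf p021_l38)
(.trZ (nat_lit 0) (nat_lit 90) (nat_lit 85) (nat_lit 100) (nat_lit 128) (.spl (nat_lit 1) (nat_lit 309)
(.leaf p021_l39)
(.trZ (nat_lit 0) (nat_lit 89) (nat_lit 85) (nat_lit 100) (nat_lit 132) (.leaf p021_l40)))))))))
(.leaf p021_l41))
(.trZ (nat_lit 0) (nat_lit 89) (nat_lit 85) (nat_lit 100) (nat_lit 132) (.spl (nat_lit 0) (nat_lit 322)
(.spl (nat_lit 7) (nat_lit 600)
(.leaf p021_l42)
(.spl (nat_lit 7) (nat_lit 900)
(.leaf p021_l43)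
(.leaf p021_l44)))
(.leaf p021_l45))))
(.trZ (nat_lit 0) (nat_lit 93) (nat_lit 85) (nat_lit 100) (nat_lit 124) (.leaf p021_l46)))) (by decide +kernel)
noncomputable def p021_l47 : Lf2 := ⟨nat_lit 0, nat_lit 2, [nat_lit 10, nat_lit 5, nat_lit 5, nat_lit 20], false, nat_lit 0, nat_lit 0, nat_lit 0, nat_lit 0, ⟨nat_lit 1000, nat_lit 0, nat_lit 0, nat_lit 0, nat_lit 0, nat_lit 0, nat_lit 0, nat_lit 0, nat_lit 0, nat_lit 0, nat_lit 0, nat_lit 0, nat_lit 0, nat_lit 0, nat_lit 0, nat_lit 0, false, false⟩,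
 nat_lit 0, nat_lit 11359, nat_lit 0, nat_lit 0, nat_lit 8519, nat_lit 5063, nat_lit 0, nat_lit 0, nat_lit 0, nat_lit 1540, nat_lit 0, nat_lit 0, nat_lit 0, nat_lit 0, nat_lit 0, nat_lit 0, nat_lit 0, nat_lit 0, [],
 ⟨p021_k4, nat_lit 0, nat_lit 0, nat_lit 621, nat_lit 0, nat_lit 1417915, [nat_lit 2032000001, nat_lit 4688000000], [], [nat_lit 24149204840, nat_lit 24185689597, nat_lit 26070646876, nat_lit 26230663213], nat_lit 1271250, nat_lit 1271250, nat_lit 1100001, nat_lit 1442500, nat_lit 0, nat_lit 0, [nat_lit 490000, nat_lit 1100000], [nat_lit 24, nat_lit 40, nat_lit 80, nat_lit 80, nat_lit 33, nat_lit 221, nat_lit 0, nat_lit 10]⟩, ⟨p021_k35, nat_lit 0, nat_lit 0, nat_lit 0, nat_lit 0, nat_lit 0, [nat_lit 3282000000, nat_lit 4688000000], [], [nat_lit 18517492649, nat_lit 18773939476, nat_lit 20256819958, nat_lit 20568935726], nat_lit 0, nat_lit 0, nat_lit 0, nat_lit 0, nat_lit 0,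 nat_lit 0, [], [nat_lit 40, nat_lit 40, nat_lit 80, nat_lit 80]⟩,
 zbF0, []⟩
noncomputable def p021_l48 : Lf2 := ⟨nat_lit 0, nat_lit 2, [nat_lit 10, nat_lit 5, nat_lit 5, nat_lit 20], true, nat_lit 0, nat_lit 0, nat_lit 0, nat_lit 0, ⟨nat_lit 0, nat_lit 1000, nat_lit 0, nat_lit 7, nat_lit 223, nat_lit 0, nat_lit 0, nat_lit 0, nat_lit 0, nat_lit 0, nat_lit 0, nat_lit 0, nat_lit 0, nat_lit 0, nat_lit 0, nat_lit 5000000, false, false⟩,
 nat_lit 0, nat_lit 0, nat_lit 0, nat_lit 0, nat_lit 0, nat_lit 0, nat_lit 0, nat_lit 0, nat_lit 348, nat_lit 0, nat_lit 0, nat_lit 0, nat_lit 0, nat_lit 0, nat_lit 0, nat_lit 400000, nat_lit 0, nat_lit 0, [(nat_lit 18, [(nat_lit 1, nat_lit 1000)])],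
 ⟨p021_k4, nat_lit 0, nat_lit 0, nat_lit 0, nat_lit 0, nat_lit 1426542, [nat_lit 1398133334, nat_lit 1966666666], [], [nat_lit 13090886672, nat_lit 13121624372, nat_lit 13188055272, nat_lit 13223825435], nat_lit 1271250, nat_lit 1271250, nat_lit 1100001, nat_lit 1133651, nat_lit 0, nat_lit 0, [nat_lit 490000, nat_lit 1100000], [nat_lit 24, nat_lit 40, nat_lit 80, nat_lit 80]⟩, C1.Rw.none,
 ⟨nat_lit 4444, nat_lit 4473, ⟨.ofNat (nat_lit 553871), .ofNat (nat_lit 560669), .ofNat (nat_lit 554949), .ofNat (nat_lit 561747), .ofNat (nat_lit 554094), .ofNat (nat_lit 560874), .ofNat (nat_lit 555172), .ofNat (nat_lit 561953)⟩, ⟨.ofNat (nat_lit 0), .ofNat (nat_lit 0), .ofNat (nat_lit 0), .ofNat (nat_lit 0), .ofNat (nat_lit 0), .ofNat (nat_lit 0), .ofNat (nat_lit 0), .ofNat (nat_lit 0)⟩⟩, []⟩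
noncomputable def p021_l49 : Lf2 := ⟨nat_lit 0, nat_lit 2, [nat_lit 10, nat_lit 5, nat_lit 5, nat_lit 20], false, nat_lit 0, nat_lit 0, nat_lit 0, nat_lit 0, ⟨nat_lit 1000, nat_lit 0, nat_lit 0, nat_lit 0, nat_lit 0, nat_lit 0, nat_lit 0, nat_lit 0, nat_lit 0, nat_lit 0, nat_lit 0, nat_lit 0, nat_lit 0, nat_lit 0, nat_lit 0, nat_lit 0, false, false⟩,
 nat_lit 0, nat_lit 0, nat_lit 0, nat_lit 0, nat_lit 0, nat_lit 885, nat_lit 0, nat_lit 0, nat_lit 468, nat_lit 0, nat_lit 0, nat_lit 0, nat_lit 0, nat_lit 0, nat_lit 0, nat_lit 0, nat_lit 0, nat_lit 0, [],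
 ⟨p021_k4, nat_lit 0, nat_lit 0, nat_lit 0, nat_lit 0, nat_lit 1426542, [nat_lit 2032000001, nat_lit 4688000000], [], [nat_lit 14417912000, nat_lit 14444466400, nat_lit 14503627600, nat_lit 14530106130], nat_lit 1271250, nat_lit 1271250, nat_lit 1100001, nat_lit 1133651, nat_lit 0, nat_lit 0, [nat_lit 490000, nat_lit 1100000], [nat_lit 24, nat_lit 40, nat_lit 80, nat_lit 80]⟩, ⟨p021_k36, nat_lit 0, nat_lit 0, nat_lit 0, nat_lit 0, nat_lit 0, [nat_lit 3282000000, nat_lit 4688000000], [], [nat_lit 25344290653, nat_lit 25389077085, nat_lit 25463127493, nat_lit 25507685462], nat_lit 0, nat_lit 0, nat_lit 0, nat_lit 0, nat_lit 0, nat_lit 0, [], [nat_lit 40, nat_lit 40, nat_lit 80, nat_lit 80]⟩,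
 zbF0, []⟩
noncomputable def p021_l50 : Lf2 := ⟨nat_lit 0, nat_lit 2, [nat_lit 10, nat_lit 5, nat_lit 5, nat_lit 20], false, nat_lit 0, nat_lit 0, nat_lit 0, nat_lit 0, ⟨nat_lit 1000, nat_lit 0, nat_lit 0, nat_lit 0, nat_lit 0, nat_lit 0, nat_lit 0, nat_lit 0, nat_lit 0, nat_lit 0, nat_lit 0, nat_lit 0, nat_lit 0, nat_lit 0, nat_lit 0, nat_lit 0, false, false⟩,
 nat_lit 0, nat_lit 9847, nat_lit 0, nat_lit 0, nat_lit 7385, nat_lit 5324, nat_lit 809, nat_lit 0, nat_lit 0, nat_lit 1008, nat_lit 0, nat_lit 0, nat_lit 0, nat_lit 0, nat_lit 0, nat_lit 0, nat_lit 0, nat_lit 0, [],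
 ⟨p021_k30, nat_lit 0, nat_lit 0, nat_lit 624, nat_lit 0, nat_lit 1426542, [nat_lit 2032000001, nat_lit 3282000000, nat_lit 4688000000], [], [nat_lit 20022030381, nat_lit 20068045541, nat_lit 20083294835, nat_lit 20132716173], nat_lit 1271250, nat_lit 1271250, nat_lit 1100001, nat_lit 1133651, nat_lit 0, nat_lit 0, [nat_lit 490000, nat_lit 780000, nat_lit 1100000], [nat_lit 78, nat_lit 40, nat_lit 80, nat_lit 80, nat_lit 22, nat_lit 217, nat_lit 0, nat_lit 9]⟩, ⟨p021_k36, nat_lit 0, nat_lit 0, nat_lit 0, nat_lit 0, nat_lit 0, [nat_lit 3282000000, nat_lit 4688000000], [], [nat_lit 19113699686, nat_lit 19201697564, nat_lit 19268281285, nat_lit 19382317570], nat_lit 0, nat_lit 0, nat_lit 0, nat_lit 0, nat_lit 0, nat_lit 0, [], [nat_lit 40, nat_lit 40, nat_lit 80, nat_lit 80]⟩,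
 zbF0, []⟩
noncomputable def p021_l51 : Lf2 := ⟨nat_lit 0, nat_lit 2, [nat_lit 10, nat_lit 5, nat_lit 5, nat_lit 20], false, nat_lit 0, nat_lit 0, nat_lit 0, nat_lit 0, ⟨nat_lit 1000, nat_lit 0, nat_lit 0, nat_lit 0, nat_lit 0, nat_lit 0, nat_lit 0, nat_lit 0, nat_lit 0, nat_lit 0, nat_lit 0, nat_lit 0, nat_lit 0, nat_lit 0, nat_lit 0, nat_lit 0, false, false⟩,
 nat_lit 0, nat_lit 11325, nat_lit 0, nat_lit 0, nat_lit 8493, nat_lit 5045, nat_lit 0, nat_lit 0, nat_lit 0, nat_lit 1389, nat_lit 0, nat_lit 0, nat_lit 0, nat_lit 0, nat_lit 0, nat_lit 0, nat_lit 0, nat_lit 0, [],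
 ⟨p021_k4, nat_lit 0, nat_lit 0, nat_lit 626, nat_lit 0, nat_lit 1426542, [nat_lit 2032000001, nat_lit 4688000000], [], [nat_lit 24321823431, nat_lit 24357982116, nat_lit 24387832318, nat_lit 24558934268], nat_lit 1271250, nat_lit 1271250, nat_lit 1133651, nat_lit 1167600, nat_lit 0, nat_lit 0, [nat_lit 490000, nat_lit 1100000], [nat_lit 24, nat_lit 40, nat_lit 80, nat_lit 80, nat_lit 33, nat_lit 218, nat_lit 0, nat_lit 9]⟩, ⟨p021_k36, nat_lit 0, nat_lit 0, nat_lit 0, nat_lit 0, nat_lit 0, [nat_lit 3282000000, nat_lit 4688000000], [], [nat_lit 18960558113, nat_lit 19045193917, nat_lit 19117416736, nat_lit 19222117310], nat_lit 0, nat_lit 0, nat_lit 0, nat_lit 0, nat_lit 0, nat_lit 0, [], [nat_lit 40, nat_lit 40, nat_lit 80, nat_lit 80]⟩,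
 zbF0, []⟩
noncomputable def p021_l52 : Lf2 := ⟨nat_lit 0, nat_lit 2, [nat_lit 10, nat_lit 5, nat_lit 5, nat_lit 20], true, nat_lit 0, nat_lit 0, nat_lit 0, nat_lit 0, ⟨nat_lit 0, nat_lit 1000, nat_lit 0, nat_lit 7, nat_lit 225, nat_lit 0, nat_lit 0, nat_lit 0, nat_lit 0, nat_lit 0, nat_lit 0, nat_lit 0, nat_lit 0, nat_lit 0, nat_lit 0, nat_lit 5000000, false, false⟩,
 nat_lit 0, nat_lit 0, nat_lit 0, nat_lit 0, nat_lit 0, nat_lit 0, nat_lit 0, nat_lit 0, nat_lit 348, nat_lit 0, nat_lit 0, nat_lit 0, nat_lit 0, nat_lit 0, nat_lit 0, nat_lit 400000, nat_lit 0, nat_lit 0, [(nat_lit 18, [(nat_lit 1, nat_lit 1000)])],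
 ⟨p021_k4, nat_lit 0, nat_lit 0, nat_lit 0, nat_lit 0, nat_lit 1435191, [nat_lit 1398133334, nat_lit 1966666666], [], [nat_lit 13090886672, nat_lit 13121624372, nat_lit 13304610001, nat_lit 13348577770], nat_lit 1271250, nat_lit 1271250, nat_lit 1100001, nat_lit 1167600, nat_lit 0, nat_lit 0, [nat_lit 490000, nat_lit 1100000], [nat_lit 24, nat_lit 40, nat_lit 80, nat_lit 80]⟩, C1.Rw.none,
 ⟨nat_lit 4444, nat_lit 4473, ⟨.ofNat (nat_lit 554949), .ofNat (nat_lit 568545), .ofNat (nat_lit 556027), .ofNat (nat_lit 569623), .ofNat (nat_lit 555172), .ofNat (nat_lit 568734), .ofNat (nat_lit 556251), .ofNat (nat_lit 569812)⟩, ⟨.ofNat (nat_lit 0), .ofNat (nat_lit 0), .ofNat (nat_lit 0), .ofNat (nat_lit 0), .ofNat (nat_lit 0), .ofNat (nat_lit 0), .ofNat (nat_lit 0), .ofNat (nat_lit 0)⟩⟩, []⟩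
noncomputable def p021_l53 : Lf2 := ⟨nat_lit 0, nat_lit 2, [nat_lit 10, nat_lit 5, nat_lit 5, nat_lit 20], false, nat_lit 0, nat_lit 0, nat_lit 0, nat_lit 0, ⟨nat_lit 1000, nat_lit 0, nat_lit 0, nat_lit 0, nat_lit 0, nat_lit 0, nat_lit 0, nat_lit 0, nat_lit 0, nat_lit 0, nat_lit 0, nat_lit 0, nat_lit 0, nat_lit 0, nat_lit 0, nat_lit 0, false, false⟩,
 nat_lit 0, nat_lit 0, nat_lit 0, nat_lit 0, nat_lit 0, nat_lit 869, nat_lit 0, nat_lit 0, nat_lit 469, nat_lit 0, nat_lit 0, nat_lit 0, nat_lit 0, nat_lit 0, nat_lit 0, nat_lit 0, nat_lit 0, nat_lit 0, [],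
 ⟨p021_k4, nat_lit 0, nat_lit 0, nat_lit 0, nat_lit 0, nat_lit 1435191, [nat_lit 2032000001, nat_lit 4688000000], [], [nat_lit 14341444000, nat_lit 14370563600, nat_lit 14433798000, nat_lit 14462827045], nat_lit 1271250, nat_lit 1271250, nat_lit 1100001, nat_lit 1133651, nat_lit 0, nat_lit 0, [nat_lit 490000, nat_lit 1100000], [nat_lit 24, nat_lit 40, nat_lit 80, nat_lit 80]⟩, ⟨p021_k37, nat_lit 0, nat_lit 0, nat_lit 0, nat_lit 0, nat_lit 0, [nat_lit 3282000000, nat_lit 4688000000], [], [nat_lit 25405679309, nat_lit 25450309990, nat_lit 25524160454, nat_lit 25568564277], nat_lit 0, nat_lit 0, nat_lit 0, nat_lit 0, nat_lit 0, nat_lit 0, [], [nat_lit 40, nat_lit 40, nat_lit 80, nat_lit 80]⟩,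
 zbF0, []⟩
noncomputable def p021_l54 : Lf2 := ⟨nat_lit 0, nat_lit 2, [nat_lit 10, nat_lit 5, nat_lit 5, nat_lit 20], false, nat_lit 0, nat_lit 0, nat_lit 0, nat_lit 0, ⟨nat_lit 1000, nat_lit 0, nat_lit 0, nat_lit 0, nat_lit 0, nat_lit 0, nat_lit 0, nat_lit 0, nat_lit 0, nat_lit 0, nat_lit 0, nat_lit 0, nat_lit 0, nat_lit 0, nat_lit 0, nat_lit 0, false, false⟩,
 nat_lit 0, nat_lit 9847, nat_lit 0, nat_lit 0, nat_lit 7385, nat_lit 5043, nat_lit 809, nat_lit 0, nat_lit 0, nat_lit 1349, nat_lit 0, nat_lit 0, nat_lit 0, nat_lit 0, nat_lit 0, nat_lit 0, nat_lit 0, nat_lit 0, [],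
 ⟨p021_k30, nat_lit 0, nat_lit 0, nat_lit 631, nat_lit 0, nat_lit 1435191, [nat_lit 2032000001, nat_lit 3282000000, nat_lit 4688000000], [], [nat_lit 20022030381, nat_lit 20068045541, nat_lit 20083294835, nat_lit 20132716173], nat_lit 1271250, nat_lit 1271250, nat_lit 1100001, nat_lit 1133651, nat_lit 0, nat_lit 0, [nat_lit 490000, nat_lit 780000, nat_lit 1100000], [nat_lit 78, nat_lit 40, nat_lit 80, nat_lit 80, nat_lit 22, nat_lit 219, nat_lit 0, nat_lit 9]⟩, ⟨p021_k37, nat_lit 0, nat_lit 0, nat_lit 0, nat_lit 0, nat_lit 0, [nat_lit 3282000000, nat_lit 4688000000], [], [nat_lit 18890880374, nat_lit 18976142857, nat_lit 19046945428, nat_lit 19153169326], nat_lit 0, nat_lit 0, nat_lit 0, nat_lit 0, nat_lit 0, nat_lit 0, [], [nat_lit 40, nat_lit 40, nat_lit 80, nat_lit 80]⟩,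
 zbF0, []⟩
noncomputable def p021_l55 : Lf2 := ⟨nat_lit 0, nat_lit 2, [nat_lit 10, nat_lit 5, nat_lit 5, nat_lit 20], false, nat_lit 0, nat_lit 0, nat_lit 0, nat_lit 0, ⟨nat_lit 1000, nat_lit 0, nat_lit 0, nat_lit 0, nat_lit 0, nat_lit 0, nat_lit 0, nat_lit 0, nat_lit 0, nat_lit 0, nat_lit 0, nat_lit 0, nat_lit 0, nat_lit 0, nat_lit 0, nat_lit 0, false, false⟩,
 nat_lit 0, nat_lit 0, nat_lit 0, nat_lit 0, nat_lit 0, nat_lit 673, nat_lit 0, nat_lit 0, nat_lit 468, nat_lit 0, nat_lit 0, nat_lit 0, nat_lit 0, nat_lit 0, nat_lit 0, nat_lit 0, nat_lit 0, nat_lit 0, [],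
 ⟨p021_k4, nat_lit 0, nat_lit 0, nat_lit 0, nat_lit 0, nat_lit 1435191, [nat_lit 2032000001, nat_lit 4688000000], [], [nat_lit 14503627600, nat_lit 14530106130, nat_lit 14590152000, nat_lit 14619090490], nat_lit 1271250, nat_lit 1271250, nat_lit 1133651, nat_lit 1167600, nat_lit 0, nat_lit 0, [nat_lit 490000, nat_lit 1100000], [nat_lit 24, nat_lit 40, nat_lit 80, nat_lit 80]⟩, ⟨p021_k37, nat_lit 0, nat_lit 0, nat_lit 0, nat_lit 0, nat_lit 0, [nat_lit 3282000000, nat_lit 4688000000], [], [nat_lit 25725979100, nat_lit 25768494641, nat_lit 25842901646, nat_lit 25885210009], nat_lit 0, nat_lit 0, nat_lit 0, nat_lit 0, nat_lit 0, nat_lit 0, [], [nat_lit 40, nat_lit 40, nat_lit 80, nat_lit 80]⟩,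
 zbF0, []⟩
noncomputable def p021_l56 : Lf2 := ⟨nat_lit 0, nat_lit 2, [nat_lit 10, nat_lit 5, nat_lit 5, nat_lit 20], false, nat_lit 0, nat_lit 0, nat_lit 0, nat_lit 0, ⟨nat_lit 1000, nat_lit 0, nat_lit 0, nat_lit 0, nat_lit 0, nat_lit 0, nat_lit 0, nat_lit 0, nat_lit 0, nat_lit 0, nat_lit 0, nat_lit 0, nat_lit 0, nat_lit 0, nat_lit 0, nat_lit 0, false, false⟩,
 nat_lit 0, nat_lit 10871, nat_lit 0, nat_lit 0, nat_lit 8153, nat_lit 5028, nat_lit 770, nat_lit 0, nat_lit 0, nat_lit 1343, nat_lit 0, nat_lit 0, nat_lit 0, nat_lit 0, nat_lit 0, nat_lit 0, nat_lit 0, nat_lit 0, [],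
 ⟨p021_k30, nat_lit 0, nat_lit 0, nat_lit 630, nat_lit 0, nat_lit 1435191, [nat_lit 2032000001, nat_lit 3282000000, nat_lit 4688000000], [], [nat_lit 15752481766, nat_lit 15801354724, nat_lit 15809096037, nat_lit 15857616471], nat_lit 1271250, nat_lit 1271250, nat_lit 1133651, nat_lit 1167600, nat_lit 0, nat_lit 0, [nat_lit 490000, nat_lit 780000, nat_lit 1100000], [nat_lit 78, nat_lit 40, nat_lit 80, nat_lit 80, nat_lit 22, nat_lit 219, nat_lit 0, nat_lit 9]⟩, ⟨p021_k37, nat_lit 0, nat_lit 0, nat_lit 0, nat_lit 0, nat_lit 0, [nat_lit 3282000000, nat_lit 4688000000], [], [nat_lit 19067711095, nat_lit 19152183120, nat_lit 19223542948, nat_lit 19312949552], nat_lit 0, nat_lit 0, nat_lit 0, nat_lit 0, nat_lit 0, nat_lit 0, [], [nat_lit 40, nat_lit 40, nat_lit 80, nat_lit 80]⟩,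
 zbF0, []⟩
noncomputable def p021_l57 : Lf2 := ⟨nat_lit 0, nat_lit 2, [nat_lit 10, nat_lit 5, nat_lit 5, nat_lit 20], false, nat_lit 0, nat_lit 0, nat_lit 0, nat_lit 0, ⟨nat_lit 1000, nat_lit 0, nat_lit 0, nat_lit 0, nat_lit 0, nat_lit 0, nat_lit 0, nat_lit 0, nat_lit 0, nat_lit 0, nat_lit 0, nat_lit 0, nat_lit 0, nat_lit 0, nat_lit 0, nat_lit 0, false, false⟩,
 nat_lit 0, nat_lit 11290, nat_lit 0, nat_lit 0, nat_lit 8467, nat_lit 5038, nat_lit 0, nat_lit 0, nat_lit 0, nat_lit 1383, nat_lit 0, nat_lit 0, nat_lit 0, nat_lit 0, nat_lit 0, nat_lit 0, nat_lit 0, nat_lit 0, [],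
 ⟨p021_k4, nat_lit 0, nat_lit 0, nat_lit 625, nat_lit 0, nat_lit 1426542, [nat_lit 2032000001, nat_lit 4688000000], [], [nat_lit 24494735083, nat_lit 24530569111, nat_lit 24970748322, nat_lit 25137180753], nat_lit 1271250, nat_lit 1271250, nat_lit 1167600, nat_lit 1271250, nat_lit 0, nat_lit 0, [nat_lit 490000, nat_lit 1100000], [nat_lit 24, nat_lit 40, nat_lit 80, nat_lit 80, nat_lit 33, nat_lit 219, nat_lit 0, nat_lit 9]⟩, ⟨p021_k36, nat_lit 0, nat_lit 0, nat_lit 0, nat_lit 0, nat_lit 0, [nat_lit 3282000000, nat_lit 4688000000], [], [nat_lit 19129524463, nat_lit 19213811800, nat_lit 19640351495, nat_lit 19748579926], nat_lit 0, nat_lit 0, nat_lit 0, nat_lit 0, nat_lit 0, nat_lit 0, [], [nat_lit 40, nat_lit 40, nat_lit 80, nat_lit 80]⟩,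
 zbF0, []⟩
noncomputable def p021_l58 : Lf2 := ⟨nat_lit 0, nat_lit 2, [nat_lit 10, nat_lit 5, nat_lit 5, nat_lit 20], true, nat_lit 0, nat_lit 0, nat_lit 0, nat_lit 0, ⟨nat_lit 0, nat_lit 1000, nat_lit 0, nat_lit 7, nat_lit 229, nat_lit 0, nat_lit 0, nat_lit 0, nat_lit 0, nat_lit 0, nat_lit 0, nat_lit 0, nat_lit 0, nat_lit 0, nat_lit 0, nat_lit 5000000, false, false⟩,
 nat_lit 0, nat_lit 0, nat_lit 0, nat_lit 0, nat_lit 0, nat_lit 0, nat_lit 0, nat_lit 0, nat_lit 347, nat_lit 0, nat_lit 0, nat_lit 0, nat_lit 0, nat_lit 0, nat_lit 0, nat_lit 400000, nat_lit 0, nat_lit 0, [(nat_lit 18, [(nat_lit 1, nat_lit 1000)])],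
 ⟨p021_k4, nat_lit 0, nat_lit 0, nat_lit 0, nat_lit 0, nat_lit 1435191, [nat_lit 1398133334, nat_lit 1966666666], [], [nat_lit 13349223872, nat_lit 13379758482, nat_lit 13446392472, nat_lit 13476825537], nat_lit 1271250, nat_lit 1271250, nat_lit 1167600, nat_lit 1201850, nat_lit 0, nat_lit 0, [nat_lit 490000, nat_lit 1100000], [nat_lit 24, nat_lit 40, nat_lit 80, nat_lit 80]⟩, C1.Rw.none,
 ⟨nat_lit 4444, nat_lit 4473, ⟨.ofNat (nat_lit 568545), .ofNat (nat_lit 575343), .ofNat (nat_lit 569623), .ofNat (nat_lit 576421), .ofNat (nat_lit 568734), .ofNat (nat_lit 575514), .ofNat (nat_lit 569812), .ofNat (nat_lit 576593)⟩, ⟨.ofNat (nat_lit 0), .ofNat (nat_lit 0), .ofNat (nat_lit 0), .ofNat (nat_lit 0), .ofNat (nat_lit 0), .ofNat (nat_lit 0), .ofNat (nat_lit 0), .ofNat (nat_lit 0)⟩⟩, []⟩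
noncomputable def p021_l59 : Lf2 := ⟨nat_lit 0, nat_lit 2, [nat_lit 10, nat_lit 5, nat_lit 5, nat_lit 20], false, nat_lit 0, nat_lit 0, nat_lit 0, nat_lit 0, ⟨nat_lit 1000, nat_lit 0, nat_lit 0, nat_lit 0, nat_lit 0, nat_lit 0, nat_lit 0, nat_lit 0, nat_lit 0, nat_lit 0, nat_lit 0, nat_lit 0, nat_lit 0, nat_lit 0, nat_lit 0, nat_lit 0, false, false⟩,
 nat_lit 0, nat_lit 12806, nat_lit 0, nat_lit 0, nat_lit 9604, nat_lit 5028, nat_lit 0, nat_lit 0, nat_lit 0, nat_lit 1337, nat_lit 0, nat_lit 0, nat_lit 0, nat_lit 0, nat_lit 0, nat_lit 0, nat_lit 0, nat_lit 0, [],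
 ⟨p021_k4, nat_lit 0, nat_lit 0, nat_lit 631, nat_lit 0, nat_lit 1435191, [nat_lit 2032000001, nat_lit 4688000000], [], [nat_lit 17894550594, nat_lit 17932414588, nat_lit 17947487040, nat_lit 18033936166], nat_lit 1271250, nat_lit 1271250, nat_lit 1167600, nat_lit 1201850, nat_lit 0, nat_lit 0, [nat_lit 490000, nat_lit 1100000], [nat_lit 24, nat_lit 40, nat_lit 80, nat_lit 80, nat_lit 33, nat_lit 220, nat_lit 0, nat_lit 9]⟩, ⟨p021_k37, nat_lit 0, nat_lit 0, nat_lit 0, nat_lit 0, nat_lit 0, [nat_lit 3282000000, nat_lit 4688000000], [], [nat_lit 19228977232, nat_lit 19312949552, nat_lit 19385402740, nat_lit 19489442827], nat_lit 0, nat_lit 0, nat_lit 0, nat_lit 0, nat_lit 0, nat_lit 0, [], [nat_lit 40, nat_lit 40, nat_lit 80, nat_lit 80]⟩,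
 zbF0, []⟩
noncomputable def p021_l60 : Lf2 := ⟨nat_lit 0, nat_lit 2, [nat_lit 10, nat_lit 5, nat_lit 5, nat_lit 20], false, nat_lit 0, nat_lit 0, nat_lit 0, nat_lit 0, ⟨nat_lit 1000, nat_lit 0, nat_lit 0, nat_lit 0, nat_lit 0, nat_lit 0, nat_lit 0, nat_lit 0, nat_lit 0, nat_lit 0, nat_lit 0, nat_lit 0, nat_lit 0, nat_lit 0, nat_lit 0, nat_lit 0, false, false⟩,
 nat_lit 0, nat_lit 11256, nat_lit 0, nat_lit 0, nat_lit 8442, nat_lit 5021, nat_lit 0, nat_lit 0, nat_lit 0, nat_lit 1331, nat_lit 0, nat_lit 0, nat_lit 0, nat_lit 0, nat_lit 0, nat_lit 0, nat_lit 0, nat_lit 0, [],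
 ⟨p021_k4, nat_lit 0, nat_lit 0, nat_lit 630, nat_lit 0, nat_lit 1435191, [nat_lit 2032000001, nat_lit 4688000000], [], [nat_lit 24662129250, nat_lit 24697641794, nat_lit 24732032173, nat_lit 24899524432], nat_lit 1271250, nat_lit 1271250, nat_lit 1201850, nat_lit 1236400, nat_lit 0, nat_lit 0, [nat_lit 490000, nat_lit 1100000], [nat_lit 24, nat_lit 40, nat_lit 80, nat_lit 80, nat_lit 33, nat_lit 220, nat_lit 0, nat_lit 9]⟩, ⟨p021_k37, nat_lit 0, nat_lit 0, nat_lit 0, nat_lit 0, nat_lit 0, [nat_lit 3282000000, nat_lit 4688000000], [], [nat_lit 19397339849, nat_lit 19480788895, nat_lit 19553942729, nat_lit 19657978345], nat_lit 0, nat_lit 0, nat_lit 0, nat_lit 0, nat_lit 0, nat_lit 0, [], [nat_lit 40, nat_lit 40, nat_lit 80, nat_lit 80]⟩,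
 zbF0, []⟩
noncomputable def p021_l61 : Lf2 := ⟨nat_lit 0, nat_lit 2, [nat_lit 10, nat_lit 5, nat_lit 5, nat_lit 20], false, nat_lit 0, nat_lit 0, nat_lit 0, nat_lit 0, ⟨nat_lit 1000, nat_lit 0, nat_lit 0, nat_lit 0, nat_lit 0, nat_lit 0, nat_lit 0, nat_lit 0, nat_lit 0, nat_lit 0, nat_lit 0, nat_lit 0, nat_lit 0, nat_lit 0, nat_lit 0, nat_lit 0, false, false⟩,
 nat_lit 0, nat_lit 11222, nat_lit 0, nat_lit 0, nat_lit 8416, nat_lit 5013, nat_lit 0, nat_lit 0, nat_lit 0, nat_lit 1325, nat_lit 0, nat_lit 0, nat_lit 0, nat_lit 0, nat_lit 0, nat_lit 0, nat_lit 0, nat_lit 0, [],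
 ⟨p021_k4, nat_lit 0, nat_lit 0, nat_lit 629, nat_lit 0, nat_lit 1435191, [nat_lit 2032000001, nat_lit 4688000000], [], [nat_lit 24835621389, nat_lit 24870812080, nat_lit 24902736456, nat_lit 25068427754], nat_lit 1271250, nat_lit 1271250, nat_lit 1236400, nat_lit 1271250, nat_lit 0, nat_lit 0, [nat_lit 490000, nat_lit 1100000], [nat_lit 24, nat_lit 40, nat_lit 80, nat_lit 80, nat_lit 33, nat_lit 220, nat_lit 0, nat_lit 9]⟩, ⟨p021_k37, nat_lit 0, nat_lit 0, nat_lit 0, nat_lit 0, nat_lit 0, [nat_lit 3282000000, nat_lit 4688000000], [], [nat_lit 19566596969, nat_lit 19649442290, nat_lit 19723296026, nat_lit 19825102366], nat_lit 0, nat_lit 0, nat_lit 0, nat_lit 0, nat_lit 0, nat_lit 0, [], [nat_lit 40, nat_lit 40, nat_lit 80, nat_lit 80]⟩,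
 zbF0, []⟩
noncomputable def p021_l62 : Lf2 := ⟨nat_lit 0, nat_lit 2, [nat_lit 10, nat_lit 5, nat_lit 5, nat_lit 20], false, nat_lit 0, nat_lit 0, nat_lit 0, nat_lit 0, ⟨nat_lit 1000, nat_lit 0, nat_lit 0, nat_lit 0, nat_lit 0, nat_lit 0, nat_lit 0, nat_lit 0, nat_lit 0, nat_lit 0, nat_lit 0, nat_lit 0, nat_lit 0, nat_lit 0, nat_lit 0, nat_lit 0, false, false⟩,
 nat_lit 0, nat_lit 11189, nat_lit 0, nat_lit 0, nat_lit 8391, nat_lit 5006, nat_lit 0, nat_lit 0, nat_lit 0, nat_lit 1361, nat_lit 0, nat_lit 0, nat_lit 0, nat_lit 0, nat_lit 0, nat_lit 0, nat_lit 0, nat_lit 0, [],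
 ⟨p021_k4, nat_lit 0, nat_lit 0, nat_lit 628, nat_lit 0, nat_lit 1435191, [nat_lit 2032000001, nat_lit 4688000000], [], [nat_lit 25003584771, nat_lit 25038456728, nat_lit 25893852764, nat_lit 26052102285], nat_lit 1271250, nat_lit 1271250, nat_lit 1271250, nat_lit 1271250, nat_lit 0, nat_lit 0, [nat_lit 490000, nat_lit 1100000], [nat_lit 24, nat_lit 40, nat_lit 80, nat_lit 80, nat_lit 33, nat_lit 223, nat_lit 0, nat_lit 10]⟩, ⟨p021_k36, nat_lit 0, nat_lit 0, nat_lit 0, nat_lit 0, nat_lit 0, [nat_lit 3282000000, nat_lit 4688000000], [], [nat_lit 19653100333, nat_lit 19817012166, nat_lit 20495138798, nat_lit 20701806920], nat_lit 0, nat_lit 0, nat_lit 0, nat_lit 0, nat_lit 0, nat_lit 0, [], [nat_lit 40, nat_lit 40, nat_lit 80, nat_lit 80]⟩,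
 zbF0, []⟩
noncomputable def p021_l63 : Lf2 := ⟨nat_lit 0, nat_lit 2, [nat_lit 10, nat_lit 5, nat_lit 5, nat_lit 20], true, nat_lit 0, nat_lit 0, nat_lit 0, nat_lit 0, ⟨nat_lit 0, nat_lit 1000, nat_lit 0, nat_lit 7, nat_lit 237, nat_lit 0, nat_lit 0, nat_lit 0, nat_lit 0, nat_lit 0, nat_lit 0, nat_lit 0, nat_lit 0, nat_lit 0, nat_lit 0, nat_lit 5000000, false, false⟩,
 nat_lit 0, nat_lit 0, nat_lit 0, nat_lit 0, nat_lit 0, nat_lit 0, nat_lit 0, nat_lit 0, nat_lit 344, nat_lit 0, nat_lit 0, nat_lit 0, nat_lit 0, nat_lit 0, nat_lit 0, nat_lit 400000, nat_lit 0, nat_lit 0, [(nat_lit 18, [(nat_lit 1, nat_lit 1000)])],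
 ⟨p021_k4, nat_lit 0, nat_lit 0, nat_lit 0, nat_lit 0, nat_lit 1479551, [nat_lit 1398133334, nat_lit 1966666666], [], [nat_lit 13346886672, nat_lit 13377624372, nat_lit 14318572672, nat_lit 14348372538], nat_lit 1271250, nat_lit 1271250, nat_lit 1100001, nat_lit 1442500, nat_lit 0, nat_lit 0, [nat_lit 490000, nat_lit 1100000], [nat_lit 24, nat_lit 40, nat_lit 80, nat_lit 80]⟩, C1.Rw.none,
 ⟨nat_lit 4444, nat_lit 4473, ⟨.ofNat (nat_lit 556027), .ofNat (nat_lit 624006), .ofNat (nat_lit 561419), .ofNat (nat_lit 629397), .ofNat (nat_lit 556251), .ofNat (nat_lit 624057), .ofNat (nat_lit 561645), .ofNat (nat_lit 629451)⟩, ⟨.ofNat (nat_lit 0), .ofNat (nat_lit 0), .ofNat (nat_lit 0), .ofNat (nat_lit 0), .ofNat (nat_lit 0), .ofNat (nat_lit 0), .ofNat (nat_lit 0), .ofNat (nat_lit 0)⟩⟩, []⟩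
noncomputable def p021_l64 : Lf2 := ⟨nat_lit 0, nat_lit 2, [nat_lit 10, nat_lit 5, nat_lit 5, nat_lit 20], false, nat_lit 0, nat_lit 0, nat_lit 0, nat_lit 0, ⟨nat_lit 1000, nat_lit 0, nat_lit 0, nat_lit 0, nat_lit 0, nat_lit 0, nat_lit 0, nat_lit 0, nat_lit 0, nat_lit 0, nat_lit 0, nat_lit 0, nat_lit 0, nat_lit 0, nat_lit 0, nat_lit 0, false, false⟩,
 nat_lit 0, nat_lit 0, nat_lit 0, nat_lit 0, nat_lit 0, nat_lit 2879, nat_lit 0, nat_lit 0, nat_lit 469, nat_lit 0, nat_lit 0, nat_lit 0, nat_lit 0, nat_lit 0, nat_lit 0, nat_lit 0, nat_lit 0, nat_lit 0, [],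
 ⟨p021_k4, nat_lit 0, nat_lit 0, nat_lit 0, nat_lit 0, nat_lit 1479551, [nat_lit 2032000001, nat_lit 4688000000], [], [nat_lit 14341444000, nat_lit 14370563600, nat_lit 15264984000, nat_lit 15293198050], nat_lit 1271250, nat_lit 1271250, nat_lit 1100001, nat_lit 1442500, nat_lit 0, nat_lit 0, [nat_lit 490000, nat_lit 1100000], [nat_lit 24, nat_lit 40, nat_lit 80, nat_lit 80]⟩, ⟨p021_k38, nat_lit 0, nat_lit 0, nat_lit 0, nat_lit 0, nat_lit 0, [nat_lit 3282000000, nat_lit 4688000000], [], [nat_lit 23384221945, nat_lit 23705207072, nat_lit 24724582479, nat_lit 25024134056], nat_lit 0, nat_lit 0, nat_lit 0, nat_lit 0, nat_lit 0, nat_lit 0, [], [nat_lit 40, nat_lit 40, nat_lit 80, nat_lit 80]⟩,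
 zbF0, [⟨nat_lit 13, nat_lit 99, nat_lit 2, nat_lit 100, nat_lit 43914170⟩]⟩
noncomputable def p021_l65 : Lf2 := ⟨nat_lit 0, nat_lit 2, [nat_lit 10, nat_lit 5, nat_lit 5, nat_lit 20], false, nat_lit 0, nat_lit 0, nat_lit 0, nat_lit 0, ⟨nat_lit 1000, nat_lit 0, nat_lit 0, nat_lit 0, nat_lit 0, nat_lit 0, nat_lit 0, nat_lit 0, nat_lit 0, nat_lit 0, nat_lit 0, nat_lit 0, nat_lit 0, nat_lit 0, nat_lit 0, nat_lit 0, false, false⟩,
 nat_lit 0, nat_lit 9847, nat_lit 0, nat_lit 0, nat_lit 7385, nat_lit 4993, nat_lit 809, nat_lit 0, nat_lit 0, nat_lit 1296, nat_lit 0, nat_lit 0, nat_lit 0, nat_lit 0, nat_lit 0, nat_lit 0, nat_lit 0, nat_lit 0, [],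
 ⟨p021_k30, nat_lit 0, nat_lit 0, nat_lit 653, nat_lit 0, nat_lit 1479551, [nat_lit 2032000001, nat_lit 3282000000, nat_lit 4688000000], [], [nat_lit 20022030381, nat_lit 20068045541, nat_lit 20671223020, nat_lit 20717541697], nat_lit 1271250, nat_lit 1271250, nat_lit 1100001, nat_lit 1442500, nat_lit 0, nat_lit 0, [nat_lit 490000, nat_lit 780000, nat_lit 1100000], [nat_lit 78, nat_lit 40, nat_lit 80, nat_lit 80, nat_lit 22, nat_lit 229, nat_lit 0, nat_lit 10]⟩, ⟨p021_k38, nat_lit 0, nat_lit 0, nat_lit 0, nat_lit 0, nat_lit 0, [nat_lit 3282000000, nat_lit 4688000000], [], [nat_lit 19052581832, nat_lit 19477085848, nat_lit 20684654678, nat_lit 21200521572], nat_lit 0, nat_lit 0, nat_lit 0, nat_lit 0, nat_lit 0, nat_lit 0, [], [nat_lit 40, nat_lit 40, nat_lit 80, nat_lit 80]⟩,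
 zbF0, []⟩
noncomputable def p021_l66 : Lf2 := ⟨nat_lit 0, nat_lit 2, [nat_lit 10, nat_lit 5, nat_lit 5, nat_lit 20], false, nat_lit 0, nat_lit 0, nat_lit 0, nat_lit 0, ⟨nat_lit 1000, nat_lit 0, nat_lit 0, nat_lit 0, nat_lit 0, nat_lit 0, nat_lit 0, nat_lit 0, nat_lit 0, nat_lit 0, nat_lit 0, nat_lit 0, nat_lit 0, nat_lit 0, nat_lit 0, nat_lit 0, false, false⟩,
 nat_lit 0, nat_lit 11013, nat_lit 0, nat_lit 0, nat_lit 8259, nat_lit 4969, nat_lit 0, nat_lit 0, nat_lit 0, nat_lit 1464, nat_lit 0, nat_lit 0, nat_lit 0, nat_lit 0, nat_lit 0, nat_lit 0, nat_lit 0, nat_lit 0, [],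
 ⟨p021_k4, nat_lit 0, nat_lit 0, nat_lit 624, nat_lit 0, nat_lit 1435191, [nat_lit 2032000001, nat_lit 4688000000], [], [nat_lit 25888578518, nat_lit 25921866240, nat_lit 27747868320, nat_lit 27890331257], nat_lit 1271250, nat_lit 1271250, nat_lit 1271250, nat_lit 1271250, nat_lit 0, nat_lit 0, [nat_lit 490000, nat_lit 1100000], [nat_lit 24, nat_lit 40, nat_lit 80, nat_lit 80, nat_lit 33, nat_lit 227, nat_lit 0, nat_lit 10]⟩, ⟨p021_k35, nat_lit 0, nat_lit 0, nat_lit 0, nat_lit 0, nat_lit 0, [nat_lit 3282000000, nat_lit 4688000000], [], [nat_lit 20263376256, nat_lit 20654687021, nat_lit 21950485589, nat_lit 22420367355], nat_lit 0, nat_lit 0, nat_lit 0, nat_lit 0, nat_lit 0, nat_lit 0, [], [nat_lit 40, nat_lit 40, nat_lit 80, nat_lit 80]⟩,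
 zbF0, []⟩
noncomputable def p021_l67 : Lf2 := ⟨nat_lit 0, nat_lit 2, [nat_lit 10, nat_lit 5, nat_lit 5, nat_lit 20], false, nat_lit 0, nat_lit 0, nat_lit 0, nat_lit 0, ⟨nat_lit 1000, nat_lit 0, nat_lit 0, nat_lit 0, nat_lit 0, nat_lit 0, nat_lit 0, nat_lit 0, nat_lit 0, nat_lit 0, nat_lit 0, nat_lit 0, nat_lit 0, nat_lit 0, nat_lit 0, nat_lit 0, false, false⟩,
 nat_lit 0, nat_lit 8809, nat_lit 0, nat_lit 0, nat_lit 6606, nat_lit 4925, nat_lit 0, nat_lit 0, nat_lit 0, nat_lit 1238, nat_lit 0, nat_lit 0, nat_lit 0, nat_lit 0, nat_lit 0, nat_lit 0, nat_lit 0, nat_lit 0, [],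
 ⟨p021_k4, nat_lit 0, nat_lit 0, nat_lit 647, nat_lit 0, nat_lit 1479551, [nat_lit 2032000001, nat_lit 4688000000], [], [nat_lit 35561347105, nat_lit 35589755083, nat_lit 35884812264, nat_lit 35913239837], nat_lit 1271250, nat_lit 1271250, nat_lit 1271250, nat_lit 1271250, nat_lit 0, nat_lit 0, [nat_lit 490000, nat_lit 1100000], [nat_lit 24, nat_lit 40, nat_lit 80, nat_lit 80, nat_lit 33, nat_lit 232, nat_lit 0, nat_lit 10]⟩, ⟨p021_k38, nat_lit 0, nat_lit 0, nat_lit 0, nat_lit 0, nat_lit 0, [nat_lit 3282000000, nat_lit 4688000000], [], [nat_lit 20720090369, nat_lit 21108954450, nat_lit 22357811213, nat_lit 22825284000], nat_lit 0, nat_lit 0, nat_lit 0, nat_lit 0, nat_lit 0, nat_lit 0, [], [nat_lit 40, nat_lit 40, nat_lit 80, nat_lit 80]⟩,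
 zbF0, []⟩
noncomputable def p021_l68 : Lf2 := ⟨nat_lit 0, nat_lit 2, [nat_lit 10, nat_lit 5, nat_lit 5, nat_lit 20], false, nat_lit 0, nat_lit 0, nat_lit 0, nat_lit 0, ⟨nat_lit 1000, nat_lit 0, nat_lit 0, nat_lit 0, nat_lit 0, nat_lit 0, nat_lit 0, nat_lit 0, nat_lit 0, nat_lit 0, nat_lit 0, nat_lit 0, nat_lit 0, nat_lit 0, nat_lit 0, nat_lit 0, false, false⟩,
 nat_lit 0, nat_lit 10701, nat_lit 0, nat_lit 0, nat_lit 8057, nat_lit 5648, nat_lit 3810, nat_lit 0, nat_lit 0, nat_lit 579, nat_lit 0, nat_lit 0, nat_lit 0, nat_lit 0, nat_lit 0, nat_lit 0, nat_lit 0, nat_lit 0, [],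
 ⟨p021_k31, nat_lit 0, nat_lit 0, nat_lit 632, nat_lit 0, nat_lit 1434365, [nat_lit 2032000001, nat_lit 4688000000], [], [nat_lit 23718251289, nat_lit 23753886058, nat_lit 27589588465, nat_lit 27729557570], nat_lit 1271250, nat_lit 1271250, nat_lit 1100001, nat_lit 1785000, nat_lit 0, nat_lit 0, [nat_lit 490000, nat_lit 1100000], [nat_lit 24, nat_lit 40, nat_lit 80, nat_lit 80, nat_lit 33, nat_lit 229, nat_lit 0, nat_lit 10]⟩, ⟨p021_k35, nat_lit 0, nat_lit 0, nat_lit 0, nat_lit 0, nat_lit 0, [nat_lit 3282000000, nat_lit 4688000000], [], [nat_lit 19257120104, nat_lit 19712879384, nat_lit 22878665688, nat_lit 23385722364], nat_lit 0, nat_lit 0, nat_lit 0, nat_lit 0, nat_lit 0, nat_lit 0, [], [nat_lit 40, nat_lit 40, nat_lit 80, nat_lit 80]⟩,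
 zbF0, []⟩
noncomputable def p021_l69 : Lf2 := ⟨nat_lit 0, nat_lit 2, [nat_lit 10, nat_lit 5, nat_lit 5, nat_lit 20], false, nat_lit 0, nat_lit 0, nat_lit 0, nat_lit 0, ⟨nat_lit 1000, nat_lit 0, nat_lit 0, nat_lit 0, nat_lit 0, nat_lit 0, nat_lit 0, nat_lit 0, nat_lit 0, nat_lit 0, nat_lit 0, nat_lit 0, nat_lit 0, nat_lit 0, nat_lit 0, nat_lit 0, false, false⟩,
 nat_lit 0, nat_lit 10803, nat_lit 0, nat_lit 0, nat_lit 8133, nat_lit 5023, nat_lit 3150, nat_lit 0, nat_lit 0, nat_lit 1305, nat_lit 0, nat_lit 0, nat_lit 0, nat_lit 0, nat_lit 0, nat_lit 0, nat_lit 0, nat_lit 0, [],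
 ⟨p021_k31, nat_lit 0, nat_lit 0, nat_lit 642, nat_lit 0, nat_lit 1451892, [nat_lit 2032000001, nat_lit 4688000000], [], [nat_lit 23822574474, nat_lit 23858349067, nat_lit 27702739219, nat_lit 27843646597], nat_lit 1271250, nat_lit 1271250, nat_lit 1100001, nat_lit 1785000, nat_lit 0, nat_lit 0, [nat_lit 490000, nat_lit 1100000], [nat_lit 24, nat_lit 40, nat_lit 80, nat_lit 80, nat_lit 33, nat_lit 231, nat_lit 0, nat_lit 10]⟩, ⟨p021_k38, nat_lit 0, nat_lit 0, nat_lit 0, nat_lit 0, nat_lit 0, [nat_lit 3282000000, nat_lit 4688000000], [], [nat_lit 19006754072, nat_lit 19177010435, nat_lit 22497140802, nat_lit 22686276097], nat_lit 0, nat_lit 0, nat_lit 0, nat_lit 0, nat_lit 0, nat_lit 0, [], [nat_lit 40, nat_lit 40, nat_lit 80, nat_lit 80]⟩,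
 zbF0, []⟩
noncomputable def p021_l70 : Lf2 := ⟨nat_lit 0, nat_lit 2, [nat_lit 10, nat_lit 5, nat_lit 5, nat_lit 20], false, nat_lit 0, nat_lit 0, nat_lit 0, nat_lit 0, ⟨nat_lit 1000, nat_lit 0, nat_lit 0, nat_lit 0, nat_lit 0, nat_lit 0, nat_lit 0, nat_lit 0, nat_lit 0, nat_lit 0, nat_lit 0, nat_lit 0, nat_lit 0, nat_lit 0, nat_lit 0, nat_lit 0, false, false⟩,
 nat_lit 0, nat_lit 8885, nat_lit 0, nat_lit 0, nat_lit 6689, nat_lit 5013, nat_lit 15589, nat_lit 0, nat_lit 0, nat_lit 1228, nat_lit 0, nat_lit 0, nat_lit 0, nat_lit 0, nat_lit 0, nat_lit 0, nat_lit 0, nat_lit 0, [],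
 ⟨p021_k31, nat_lit 0, nat_lit 0, nat_lit 645, nat_lit 0, nat_lit 1460687, [nat_lit 2032000001, nat_lit 4688000000], [], [nat_lit 21926711559, nat_lit 21957353444, nat_lit 25552874908, nat_lit 25675955095], nat_lit 1271250, nat_lit 1271250, nat_lit 1100001, nat_lit 1785000, nat_lit 0, nat_lit 0, [nat_lit 490000, nat_lit 1100000], [nat_lit 24, nat_lit 40, nat_lit 80, nat_lit 80, nat_lit 33, nat_lit 232, nat_lit 0, nat_lit 10]⟩, ⟨p021_k39, nat_lit 0, nat_lit 0, nat_lit 0, nat_lit 0, nat_lit 0, [nat_lit 3282000000, nat_lit 4688000000], [], [nat_lit 19192427139, nat_lit 19277397588, nat_lit 22671839794, nat_lit 22766297943], nat_lit 0, nat_lit 0, nat_lit 0, nat_lit 0, nat_lit 0, nat_lit 0, [], [nat_lit 40, nat_lit 40, nat_lit 80, nat_lit 80]⟩,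
 zbF0, []⟩
noncomputable def p021_l71 : Lf2 := ⟨nat_lit 0, nat_lit 2, [nat_lit 10, nat_lit 5, nat_lit 5, nat_lit 20], true, nat_lit 0, nat_lit 0, nat_lit 0, nat_lit 0, ⟨nat_lit 0, nat_lit 1000, nat_lit 0, nat_lit 7, nat_lit 227, nat_lit 0, nat_lit 0, nat_lit 0, nat_lit 0, nat_lit 0, nat_lit 0, nat_lit 0, nat_lit 0, nat_lit 0, nat_lit 0, nat_lit 5000000, false, false⟩,
 nat_lit 0, nat_lit 0, nat_lit 0, nat_lit 0, nat_lit 0, nat_lit 0, nat_lit 0, nat_lit 0, nat_lit 347, nat_lit 0, nat_lit 0, nat_lit 0, nat_lit 0, nat_lit 0, nat_lit 0, nat_lit 400000, nat_lit 0, nat_lit 0, [(nat_lit 18, [(nat_lit 1, nat_lit 1000)])],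
 ⟨p021_k31, nat_lit 0, nat_lit 0, nat_lit 0, nat_lit 0, nat_lit 1478344, [nat_lit 1398133334, nat_lit 1966666666], [], [nat_lit 13185624372, nat_lit 13216362072, nat_lit 13379758482, nat_lit 13410293092], nat_lit 1271250, nat_lit 1271250, nat_lit 1100001, nat_lit 1167600, nat_lit 0, nat_lit 0, [nat_lit 490000, nat_lit 1100000], [nat_lit 24, nat_lit 40, nat_lit 80, nat_lit 80]⟩, C1.Rw.none,
 ⟨nat_lit 4415, nat_lit 4445, ⟨.ofNat (nat_lit 559487), .ofNat (nat_lit 573049), .ofNat (nat_lit 561645), .ofNat (nat_lit 575206), .ofNat (nat_lit 559714), .ofNat (nat_lit 573241), .ofNat (nat_lit 561872), .ofNat (nat_lit 575399)⟩, ⟨.ofNat (nat_lit 0), .ofNat (nat_lit 0), .ofNat (nat_lit 0), .ofNat (nat_lit 0), .ofNat (nat_lit 0), .ofNat (nat_lit 0), .ofNat (nat_lit 0), .ofNat (nat_lit 0)⟩⟩, []⟩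
noncomputable def p021_l72 : Lf2 := ⟨nat_lit 0, nat_lit 2, [nat_lit 10, nat_lit 5, nat_lit 5, nat_lit 20], false, nat_lit 0, nat_lit 0, nat_lit 0, nat_lit 0, ⟨nat_lit 1000, nat_lit 0, nat_lit 0, nat_lit 0, nat_lit 0, nat_lit 0, nat_lit 0, nat_lit 0, nat_lit 0, nat_lit 0, nat_lit 0, nat_lit 0, nat_lit 0, nat_lit 0, nat_lit 0, nat_lit 0, false, false⟩,
 nat_lit 0, nat_lit 0, nat_lit 0, nat_lit 0, nat_lit 0, nat_lit 0, nat_lit 0, nat_lit 0, nat_lit 468, nat_lit 732, nat_lit 0, nat_lit 0, nat_lit 0, nat_lit 0, nat_lit 0, nat_lit 0, nat_lit 0, nat_lit 0, [],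
 ⟨p021_k31, nat_lit 0, nat_lit 0, nat_lit 0, nat_lit 0, nat_lit 1469505, [nat_lit 2032000001, nat_lit 4688000000], [], [nat_lit 14444466400, nat_lit 14471020800, nat_lit 14530106130, nat_lit 14556584660], nat_lit 1271250, nat_lit 1271250, nat_lit 1100001, nat_lit 1133651, nat_lit 0, nat_lit 0, [nat_lit 490000, nat_lit 1100000], [nat_lit 24, nat_lit 40, nat_lit 80, nat_lit 80]⟩, ⟨p021_k40, nat_lit 0, nat_lit 0, nat_lit 0, nat_lit 0, nat_lit 0, [nat_lit 3282000000, nat_lit 4688000000], [], [nat_lit 25123035700, nat_lit 25159207100, nat_lit 25234048110, nat_lit 25270079905], nat_lit 0, nat_lit 0, nat_lit 0, nat_lit 0, nat_lit 0, nat_lit 0, [], [nat_lit 40, nat_lit 40, nat_lit 80, nat_lit 80]⟩,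
 zbF0, []⟩
noncomputable def p021_l73 : Lf2 := ⟨nat_lit 0, nat_lit 2, [nat_lit 10, nat_lit 5, nat_lit 5, nat_lit 20], false, nat_lit 0, nat_lit 0, nat_lit 0, nat_lit 0, ⟨nat_lit 1000, nat_lit 0, nat_lit 0, nat_lit 0, nat_lit 0, nat_lit 0, nat_lit 0, nat_lit 0, nat_lit 0, nat_lit 0, nat_lit 0, nat_lit 0, nat_lit 0, nat_lit 0, nat_lit 0, nat_lit 0, false, false⟩,
 nat_lit 0, nat_lit 9797, nat_lit 0, nat_lit 0, nat_lit 7376, nat_lit 5003, nat_lit 2834, nat_lit 0, nat_lit 0, nat_lit 1191, nat_lit 0, nat_lit 0, nat_lit 0, nat_lit 0, nat_lit 0, nat_lit 0, nat_lit 0, nat_lit 0, [],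
 ⟨p021_k41, nat_lit 0, nat_lit 0, nat_lit 649, nat_lit 0, nat_lit 1469505, [nat_lit 2032000001, nat_lit 3282000000, nat_lit 4688000000], [], [nat_lit 18847356650, nat_lit 18893225011, nat_lit 18908269466, nat_lit 18957659254], nat_lit 1271250, nat_lit 1271250, nat_lit 1100001, nat_lit 1133651, nat_lit 0, nat_lit 0, [nat_lit 490000, nat_lit 780000, nat_lit 1100000], [nat_lit 78, nat_lit 40, nat_lit 80, nat_lit 80, nat_lit 22, nat_lit 223, nat_lit 0, nat_lit 10]⟩, ⟨p021_k40, nat_lit 0, nat_lit 0, nat_lit 0, nat_lit 0, nat_lit 0, [nat_lit 3282000000, nat_lit 4688000000], [], [nat_lit 19293162723, nat_lit 19378035826, nat_lit 19445600316, nat_lit 19549478889], nat_lit 0, nat_lit 0, nat_lit 0, nat_lit 0, nat_lit 0, nat_lit 0, [], [nat_lit 40, nat_lit 40, nat_lit 80, nat_lit 80]⟩,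
 zbF0, []⟩
noncomputable def p021_l74 : Lf2 := ⟨nat_lit 0, nat_lit 2, [nat_lit 10, nat_lit 5, nat_lit 5, nat_lit 20], false, nat_lit 0, nat_lit 0, nat_lit 0, nat_lit 0, ⟨nat_lit 1000, nat_lit 0, nat_lit 0, nat_lit 0, nat_lit 0, nat_lit 0, nat_lit 0, nat_lit 0, nat_lit 0, nat_lit 0, nat_lit 0, nat_lit 0, nat_lit 0, nat_lit 0, nat_lit 0, nat_lit 0, false, false⟩,
 nat_lit 0, nat_lit 8925, nat_lit 0, nat_lit 0, nat_lit 6719, nat_lit 4996, nat_lit 21099, nat_lit 0, nat_lit 0, nat_lit 1186, nat_lit 0, nat_lit 0, nat_lit 0, nat_lit 0, nat_lit 0, nat_lit 0, nat_lit 0, nat_lit 0, [],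
 ⟨p021_k31, nat_lit 0, nat_lit 0, nat_lit 648, nat_lit 0, nat_lit 1469505, [nat_lit 2032000001, nat_lit 4688000000], [], [nat_lit 17237755737, nat_lit 17269379857, nat_lit 17273832989, nat_lit 17313440524], nat_lit 1271250, nat_lit 1271250, nat_lit 1133651, nat_lit 1167600, nat_lit 0, nat_lit 0, [nat_lit 490000, nat_lit 1100000], [nat_lit 24, nat_lit 40, nat_lit 80, nat_lit 80, nat_lit 33, nat_lit 224, nat_lit 0, nat_lit 10]⟩, ⟨p021_k40, nat_lit 0, nat_lit 0, nat_lit 0, nat_lit 0, nat_lit 0, [nat_lit 3282000000, nat_lit 4688000000], [], [nat_lit 19457966013, nat_lit 19542129746, nat_lit 19610978914, nat_lit 19713944841], nat_lit 0, nat_lit 0, nat_lit 0, nat_lit 0, nat_lit 0, nat_lit 0, [], [nat_lit 40, nat_lit 40, nat_lit 80, nat_lit 80]⟩,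
 zbF0, []⟩
noncomputable def p021_l75 : Lf2 := ⟨nat_lit 0, nat_lit 2, [nat_lit 10, nat_lit 5, nat_lit 5, nat_lit 20], false, nat_lit 0, nat_lit 0, nat_lit 0, nat_lit 0, ⟨nat_lit 1000, nat_lit 0, nat_lit 0, nat_lit 0, nat_lit 0, nat_lit 0, nat_lit 0, nat_lit 0, nat_lit 0, nat_lit 0, nat_lit 0, nat_lit 0, nat_lit 0, nat_lit 0, nat_lit 0, nat_lit 0, false, false⟩,
 nat_lit 0, nat_lit 0, nat_lit 0, nat_lit 0, nat_lit 0, nat_lit 0, nat_lit 0, nat_lit 0, nat_lit 459, nat_lit 589, nat_lit 0, nat_lit 0, nat_lit 0, nat_lit 0, nat_lit 0, nat_lit 0, nat_lit 0, nat_lit 0, [],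
 ⟨p021_k31, nat_lit 0, nat_lit 0, nat_lit 0, nat_lit 0, nat_lit 1478344, [nat_lit 2032000001, nat_lit 4688000000], [], [nat_lit 15171210900, nat_lit 15195565800, nat_lit 15250947155, nat_lit 15276584660], nat_lit 1271250, nat_lit 1271250, nat_lit 1100001, nat_lit 1133651, nat_lit 0, nat_lit 0, [nat_lit 490000, nat_lit 1100000], [nat_lit 24, nat_lit 40, nat_lit 80, nat_lit 80]⟩, ⟨p021_k42, nat_lit 0, nat_lit 0, nat_lit 0, nat_lit 0, nat_lit 0, [nat_lit 3282000000, nat_lit 4688000000], [], [nat_lit 25387550850, nat_lit 25423722250, nat_lit 25498423655, nat_lit 25534455450], nat_lit 0, nat_lit 0, nat_lit 0, nat_lit 0, nat_lit 0, nat_lit 0, [], [nat_lit 40, nat_lit 40, nat_lit 80, nat_lit 80]⟩,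
 zbF0, []⟩
noncomputable def p021_l76 : Lf2 := ⟨nat_lit 0, nat_lit 2, [nat_lit 10, nat_lit 5, nat_lit 5, nat_lit 20], false, nat_lit 0, nat_lit 0, nat_lit 0, nat_lit 0, ⟨nat_lit 1000, nat_lit 0, nat_lit 0, nat_lit 0, nat_lit 0, nat_lit 0, nat_lit 0, nat_lit 0, nat_lit 0, nat_lit 0, nat_lit 0, nat_lit 0, nat_lit 0, nat_lit 0, nat_lit 0, nat_lit 0, false, false⟩,
 nat_lit 0, nat_lit 9797, nat_lit 0, nat_lit 0, nat_lit 7376, nat_lit 4993, nat_lit 2876, nat_lit 0, nat_lit 0, nat_lit 1155, nat_lit 0, nat_lit 0, nat_lit 0, nat_lit 0, nat_lit 0, nat_lit 0, nat_lit 0, nat_lit 0, [],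
 ⟨p021_k41, nat_lit 0, nat_lit 0, nat_lit 653, nat_lit 0, nat_lit 1478344, [nat_lit 2032000001, nat_lit 3282000000, nat_lit 4688000000], [], [nat_lit 18828456650, nat_lit 18874325011, nat_lit 18889369466, nat_lit 18938759254], nat_lit 1271250, nat_lit 1271250, nat_lit 1100001, nat_lit 1133651, nat_lit 0, nat_lit 0, [nat_lit 490000, nat_lit 780000, nat_lit 1100000], [nat_lit 78, nat_lit 40, nat_lit 80, nat_lit 80, nat_lit 22, nat_lit 224, nat_lit 0, nat_lit 10]⟩, ⟨p021_k42, nat_lit 0, nat_lit 0, nat_lit 0, nat_lit 0, nat_lit 0, [nat_lit 3282000000, nat_lit 4688000000], [], [nat_lit 19391928616, nat_lit 19477085848, nat_lit 19544739033, nat_lit 19647874811], nat_lit 0, nat_lit 0, nat_lit 0, nat_lit 0, nat_lit 0, nat_lit 0, [], [nat_lit 40, nat_lit 40, nat_lit 80, nat_lit 80]⟩,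
 zbF0, []⟩
noncomputable def p021_l77 : Lf2 := ⟨nat_lit 0, nat_lit 2, [nat_lit 10, nat_lit 5, nat_lit 5, nat_lit 20], false, nat_lit 0, nat_lit 0, nat_lit 0, nat_lit 0, ⟨nat_lit 1000, nat_lit 0, nat_lit 0, nat_lit 0, nat_lit 0, nat_lit 0, nat_lit 0, nat_lit 0, nat_lit 0, nat_lit 0, nat_lit 0, nat_lit 0, nat_lit 0, nat_lit 0, nat_lit 0, nat_lit 0, false, false⟩,
 nat_lit 0, nat_lit 0, nat_lit 0, nat_lit 0, nat_lit 0, nat_lit 0, nat_lit 0, nat_lit 0, nat_lit 459, nat_lit 396, nat_lit 0, nat_lit 0, nat_lit 0, nat_lit 0, nat_lit 0, nat_lit 0, nat_lit 0, nat_lit 0, [],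
 ⟨p021_k31, nat_lit 0, nat_lit 0, nat_lit 0, nat_lit 0, nat_lit 1478344, [nat_lit 2032000001, nat_lit 4688000000], [], [nat_lit 15250947155, nat_lit 15276584660, nat_lit 15335745860, nat_lit 15362148520], nat_lit 1271250, nat_lit 1271250, nat_lit 1133651, nat_lit 1167600, nat_lit 0, nat_lit 0, [nat_lit 490000, nat_lit 1100000], [nat_lit 24, nat_lit 40, nat_lit 80, nat_lit 80]⟩, ⟨p021_k42, nat_lit 0, nat_lit 0, nat_lit 0, nat_lit 0, nat_lit 0, [nat_lit 3282000000, nat_lit 4688000000], [], [nat_lit 25859092405, nat_lit 25895124200, nat_lit 25969965210, nat_lit 26005857400], nat_lit 0, nat_lit 0, nat_lit 0, nat_lit 0, nat_lit 0, nat_lit 0, [], [nat_lit 40, nat_lit 40, nat_lit 80, nat_lit 80]⟩,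
 zbF0, []⟩
noncomputable def p021_l78 : Lf2 := ⟨nat_lit 0, nat_lit 2, [nat_lit 10, nat_lit 5, nat_lit 5, nat_lit 20], false, nat_lit 0, nat_lit 0, nat_lit 0, nat_lit 0, ⟨nat_lit 1000, nat_lit 0, nat_lit 0, nat_lit 0, nat_lit 0, nat_lit 0, nat_lit 0, nat_lit 0, nat_lit 0, nat_lit 0, nat_lit 0, nat_lit 0, nat_lit 0, nat_lit 0, nat_lit 0, nat_lit 0, false, false⟩,
 nat_lit 0, nat_lit 9776, nat_lit 0, nat_lit 0, nat_lit 7360, nat_lit 4986, nat_lit 2872, nat_lit 0, nat_lit 0, nat_lit 1150, nat_lit 0, nat_lit 0, nat_lit 0, nat_lit 0, nat_lit 0, nat_lit 0, nat_lit 0, nat_lit 0, [],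
 ⟨p021_k41, nat_lit 0, nat_lit 0, nat_lit 652, nat_lit 0, nat_lit 1478344, [nat_lit 2032000001, nat_lit 3282000000, nat_lit 4688000000], [], [nat_lit 18985741846, nat_lit 19031243939, nat_lit 19046599887, nat_lit 19095589805], nat_lit 1271250, nat_lit 1271250, nat_lit 1133651, nat_lit 1167600, nat_lit 0, nat_lit 0, [nat_lit 490000, nat_lit 780000, nat_lit 1100000], [nat_lit 78, nat_lit 40, nat_lit 80, nat_lit 80, nat_lit 22, nat_lit 225, nat_lit 0, nat_lit 10]⟩, ⟨p021_k42, nat_lit 0, nat_lit 0, nat_lit 0, nat_lit 0, nat_lit 0, [nat_lit 3282000000, nat_lit 4688000000], [], [nat_lit 19556213661, nat_lit 19640909205, nat_lit 19709264556, nat_lit 19811256236], nat_lit 0, nat_lit 0, nat_lit 0, nat_lit 0, nat_lit 0, nat_lit 0, [], [nat_lit 40, nat_lit 40, nat_lit 80, nat_lit 80]⟩,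
 zbF0, []⟩
noncomputable def p021_l79 : Lf2 := ⟨nat_lit 0, nat_lit 2, [nat_lit 10, nat_lit 5, nat_lit 5, nat_lit 20], false, nat_lit 0, nat_lit 0, nat_lit 0, nat_lit 0, ⟨nat_lit 1000, nat_lit 0, nat_lit 0, nat_lit 0, nat_lit 0, nat_lit 0, nat_lit 0, nat_lit 0, nat_lit 0, nat_lit 0, nat_lit 0, nat_lit 0, nat_lit 0, nat_lit 0, nat_lit 0, nat_lit 0, false, false⟩,
 nat_lit 0, nat_lit 8862, nat_lit 0, nat_lit 0, nat_lit 6672, nat_lit 4989, nat_lit 15368, nat_lit 0, nat_lit 0, nat_lit 1181, nat_lit 0, nat_lit 0, nat_lit 0, nat_lit 0, nat_lit 0, nat_lit 0, nat_lit 0, nat_lit 0, [],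
 ⟨p021_k31, nat_lit 0, nat_lit 0, nat_lit 647, nat_lit 0, nat_lit 1469505, [nat_lit 2032000001, nat_lit 4688000000], [], [nat_lit 22271170172, nat_lit 22301361327, nat_lit 22717344798, nat_lit 22857692244], nat_lit 1271250, nat_lit 1271250, nat_lit 1167600, nat_lit 1271250, nat_lit 0, nat_lit 0, [nat_lit 490000, nat_lit 1100000], [nat_lit 24, nat_lit 40, nat_lit 80, nat_lit 80, nat_lit 33, nat_lit 225, nat_lit 0, nat_lit 10]⟩, ⟨p021_k40, nat_lit 0, nat_lit 0, nat_lit 0, nat_lit 0, nat_lit 0, [nat_lit 3282000000, nat_lit 4688000000], [], [nat_lit 19622663597, nat_lit 19706501085, nat_lit 20117429311, nat_lit 20225017543], nat_lit 0, nat_lit 0, nat_lit 0, nat_lit 0, nat_lit 0, nat_lit 0, [], [nat_lit 40, nat_lit 40, nat_lit 80, nat_lit 80]⟩,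
 zbF0, []⟩
noncomputable def p021_l80 : Lf2 := ⟨nat_lit 0, nat_lit 2, [nat_lit 10, nat_lit 5, nat_lit 5, nat_lit 20], true, nat_lit 0, nat_lit 0, nat_lit 0, nat_lit 0, ⟨nat_lit 0, nat_lit 1000, nat_lit 0, nat_lit 7, nat_lit 231, nat_lit 0, nat_lit 0, nat_lit 0, nat_lit 0, nat_lit 0, nat_lit 0, nat_lit 0, nat_lit 0, nat_lit 0, nat_lit 0, nat_lit 5000000, false, false⟩,
 nat_lit 0, nat_lit 0, nat_lit 0, nat_lit 0, nat_lit 0, nat_lit 0, nat_lit 0, nat_lit 0, nat_lit 347, nat_lit 0, nat_lit 0, nat_lit 0, nat_lit 0, nat_lit 0, nat_lit 0, nat_lit 400000, nat_lit 0, nat_lit 0, [(nat_lit 18, [(nat_lit 1, nat_lit 1000)])],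
 ⟨p021_k31, nat_lit 0, nat_lit 0, nat_lit 0, nat_lit 0, nat_lit 1478344, [nat_lit 1398133334, nat_lit 1966666666], [], [nat_lit 13379758482, nat_lit 13410293092, nat_lit 13476825537, nat_lit 13517105210], nat_lit 1271250, nat_lit 1271250, nat_lit 1167600, nat_lit 1201850, nat_lit 0, nat_lit 0, [nat_lit 490000, nat_lit 1100000], [nat_lit 24, nat_lit 40, nat_lit 80, nat_lit 80]⟩, C1.Rw.none,
 ⟨nat_lit 4415, nat_lit 4445, ⟨.ofNat (nat_lit 574127), .ofNat (nat_lit 580908), .ofNat (nat_lit 575206), .ofNat (nat_lit 581987), .ofNat (nat_lit 574320), .ofNat (nat_lit 581083), .ofNat (nat_lit 575399), .ofNat (nat_lit 582162)⟩, ⟨.ofNat (nat_lit 0), .ofNat (nat_lit 0), .ofNat (nat_lit 0), .ofNat (nat_lit 0), .ofNat (nat_lit 0), .ofNat (nat_lit 0), .ofNat (nat_lit 0), .ofNat (nat_lit 0)⟩⟩, []⟩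
noncomputable def p021_l81 : Lf2 := ⟨nat_lit 0, nat_lit 2, [nat_lit 10, nat_lit 5, nat_lit 5, nat_lit 20], false, nat_lit 0, nat_lit 0, nat_lit 0, nat_lit 0, ⟨nat_lit 1000, nat_lit 0, nat_lit 0, nat_lit 0, nat_lit 0, nat_lit 0, nat_lit 0, nat_lit 0, nat_lit 0, nat_lit 0, nat_lit 0, nat_lit 0, nat_lit 0, nat_lit 0, nat_lit 0, nat_lit 0, false, false⟩,
 nat_lit 0, nat_lit 8912, nat_lit 0, nat_lit 0, nat_lit 6709, nat_lit 4980, nat_lit 21039, nat_lit 0, nat_lit 0, nat_lit 1145, nat_lit 0, nat_lit 0, nat_lit 0, nat_lit 0, nat_lit 0, nat_lit 0, nat_lit 0, nat_lit 0, [],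
 ⟨p021_k31, nat_lit 0, nat_lit 0, nat_lit 650, nat_lit 0, nat_lit 1478344, [nat_lit 2032000001, nat_lit 4688000000], [], [nat_lit 17377151875, nat_lit 17408540481, nat_lit 17413193398, nat_lit 17452499455], nat_lit 1271250, nat_lit 1271250, nat_lit 1167600, nat_lit 1201850, nat_lit 0, nat_lit 0, [nat_lit 490000, nat_lit 1100000], [nat_lit 24, nat_lit 40, nat_lit 80, nat_lit 80, nat_lit 33, nat_lit 225, nat_lit 0, nat_lit 10]⟩, ⟨p021_k42, nat_lit 0, nat_lit 0, nat_lit 0, nat_lit 0, nat_lit 0, [nat_lit 3282000000, nat_lit 4688000000], [], [nat_lit 19719420340, nat_lit 19803699304, nat_lit 19872753768, nat_lit 19975818784], nat_lit 0, nat_lit 0, nat_lit 0, nat_lit 0, nat_lit 0, nat_lit 0, [], [nat_lit 40, nat_lit 40, nat_lit 80, nat_lit 80]⟩,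
 zbF0, []⟩
noncomputable def p021_l82 : Lf2 := ⟨nat_lit 0, nat_lit 2, [nat_lit 10, nat_lit 5, nat_lit 5, nat_lit 20], false, nat_lit 0, nat_lit 0, nat_lit 0, nat_lit 0, ⟨nat_lit 1000, nat_lit 0, nat_lit 0, nat_lit 0, nat_lit 0, nat_lit 0, nat_lit 0, nat_lit 0, nat_lit 0, nat_lit 0, nat_lit 0, nat_lit 0, nat_lit 0, nat_lit 0, nat_lit 0, nat_lit 0, false, false⟩,
 nat_lit 0, nat_lit 8850, nat_lit 0, nat_lit 0, nat_lit 6663, nat_lit 4973, nat_lit 15257, nat_lit 0, nat_lit 0, nat_lit 1139, nat_lit 0, nat_lit 0, nat_lit 0, nat_lit 0, nat_lit 0, nat_lit 0, nat_lit 0, nat_lit 0, [],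
 ⟨p021_k31, nat_lit 0, nat_lit 0, nat_lit 650, nat_lit 0, nat_lit 1478344, [nat_lit 2032000001, nat_lit 4688000000], [], [nat_lit 22447099741, nat_lit 22477065426, nat_lit 22517948348, nat_lit 22659328836], nat_lit 1271250, nat_lit 1271250, nat_lit 1201850, nat_lit 1236400, nat_lit 0, nat_lit 0, [nat_lit 490000, nat_lit 1100000], [nat_lit 24, nat_lit 40, nat_lit 80, nat_lit 80, nat_lit 33, nat_lit 225, nat_lit 0, nat_lit 10]⟩, ⟨p021_k42, nat_lit 0, nat_lit 0, nat_lit 0, nat_lit 0, nat_lit 0, [nat_lit 3282000000, nat_lit 4688000000], [], [nat_lit 19885372986, nat_lit 19968037297, nat_lit 20037040127, nat_lit 20138942964], nat_lit 0, nat_lit 0, nat_lit 0, nat_lit 0, nat_lit 0, nat_lit 0, [], [nat_lit 40, nat_lit 40, nat_lit 80, nat_lit 80]⟩,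
 zbF0, []⟩
noncomputable def p021_l83 : Lf2 := ⟨nat_lit 0, nat_lit 2, [nat_lit 10, nat_lit 5, nat_lit 5, nat_lit 20], false, nat_lit 0, nat_lit 0, nat_lit 0, nat_lit 0, ⟨nat_lit 1000, nat_lit 0, nat_lit 0, nat_lit 0, nat_lit 0, nat_lit 0, nat_lit 0, nat_lit 0, nat_lit 0, nat_lit 0, nat_lit 0, nat_lit 0, nat_lit 0, nat_lit 0, nat_lit 0, nat_lit 0, false, false⟩,
 nat_lit 0, nat_lit 8838, nat_lit 0, nat_lit 0, nat_lit 6654, nat_lit 4966, nat_lit 15147, nat_lit 0, nat_lit 0, nat_lit 1134, nat_lit 0, nat_lit 0, nat_lit 0, nat_lit 0, nat_lit 0, nat_lit 0, nat_lit 0, nat_lit 0, [],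
 ⟨p021_k31, nat_lit 0, nat_lit 0, nat_lit 649, nat_lit 0, nat_lit 1478344, [nat_lit 2032000001, nat_lit 4688000000], [], [nat_lit 22622312159, nat_lit 22652052826, nat_lit 22693079034, nat_lit 22833164903], nat_lit 1271250, nat_lit 1271250, nat_lit 1236400, nat_lit 1271250, nat_lit 0, nat_lit 0, [nat_lit 490000, nat_lit 1100000], [nat_lit 24, nat_lit 40, nat_lit 80, nat_lit 80, nat_lit 33, nat_lit 225, nat_lit 0, nat_lit 10]⟩, ⟨p021_k42, nat_lit 0, nat_lit 0, nat_lit 0, nat_lit 0, nat_lit 0, [nat_lit 3282000000, nat_lit 4688000000], [], [nat_lit 20049352581, nat_lit 20131312643, nat_lit 20201202475, nat_lit 20301933756], nat_lit 0, nat_lit 0, nat_lit 0, nat_lit 0, nat_lit 0, nat_lit 0, [], [nat_lit 40, nat_lit 40, nat_lit 80, nat_lit 80]⟩,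
 zbF0, []⟩
noncomputable def p021_l84 : Lf2 := ⟨nat_lit 0, nat_lit 2, [nat_lit 10, nat_lit 5, nat_lit 5, nat_lit 20], false, nat_lit 0, nat_lit 0, nat_lit 0, nat_lit 0, ⟨nat_lit 1000, nat_lit 0, nat_lit 0, nat_lit 0, nat_lit 0, nat_lit 0, nat_lit 0, nat_lit 0, nat_lit 0, nat_lit 0, nat_lit 0, nat_lit 0, nat_lit 0, nat_lit 0, nat_lit 0, nat_lit 0, false, false⟩,
 nat_lit 0, nat_lit 8827, nat_lit 0, nat_lit 0, nat_lit 6645, nat_lit 4959, nat_lit 15037, nat_lit 0, nat_lit 0, nat_lit 1162, nat_lit 0, nat_lit 0, nat_lit 0, nat_lit 0, nat_lit 0, nat_lit 0, nat_lit 0, nat_lit 0, [],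
 ⟨p021_k31, nat_lit 0, nat_lit 0, nat_lit 649, nat_lit 0, nat_lit 1478344, [nat_lit 2032000001, nat_lit 4688000000], [], [nat_lit 22797632424, nat_lit 22827148527, nat_lit 23616419627, nat_lit 23750568673], nat_lit 1271250, nat_lit 1271250, nat_lit 1271250, nat_lit 1271250, nat_lit 0, nat_lit 0, [nat_lit 490000, nat_lit 1100000], [nat_lit 24, nat_lit 40, nat_lit 80, nat_lit 80, nat_lit 33, nat_lit 228, nat_lit 0, nat_lit 10]⟩, ⟨p021_k40, nat_lit 0, nat_lit 0, nat_lit 0, nat_lit 0, nat_lit 0, [nat_lit 3282000000, nat_lit 4688000000], [], [nat_lit 20132033157, nat_lit 20294547594, nat_lit 20948054369, nat_lit 21153560636], nat_lit 0, nat_lit 0, nat_lit 0, nat_lit 0, nat_lit 0, nat_lit 0, [], [nat_lit 40, nat_lit 40, nat_lit 80, nat_lit 80]⟩,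
 zbF0, []⟩
noncomputable def p021_l85 : Lf2 := ⟨nat_lit 0, nat_lit 2, [nat_lit 10, nat_lit 5, nat_lit 5, nat_lit 20], false, nat_lit 0, nat_lit 0, nat_lit 0, nat_lit 0, ⟨nat_lit 1000, nat_lit 0, nat_lit 0, nat_lit 0, nat_lit 0, nat_lit 0, nat_lit 0, nat_lit 0, nat_lit 0, nat_lit 0, nat_lit 0, nat_lit 0, nat_lit 0, nat_lit 0, nat_lit 0, nat_lit 0, false, false⟩,
 nat_lit 0, nat_lit 8768, nat_lit 0, nat_lit 0, nat_lit 6601, nat_lit 4925, nat_lit 14489, nat_lit 0, nat_lit 0, nat_lit 1136, nat_lit 0, nat_lit 0, nat_lit 0, nat_lit 0, nat_lit 0, nat_lit 0, nat_lit 0, nat_lit 0, [],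
 ⟨p021_k31, nat_lit 0, nat_lit 0, nat_lit 646, nat_lit 0, nat_lit 1478344, [nat_lit 2032000001, nat_lit 4688000000], [], [nat_lit 23667889573, nat_lit 23696290961, nat_lit 25421858246, nat_lit 25543852012], nat_lit 1271250, nat_lit 1271250, nat_lit 1271250, nat_lit 1271250, nat_lit 0, nat_lit 0, [nat_lit 490000, nat_lit 1100000], [nat_lit 24, nat_lit 40, nat_lit 80, nat_lit 80, nat_lit 33, nat_lit 232, nat_lit 0, nat_lit 10]⟩, ⟨p021_k40, nat_lit 0, nat_lit 0, nat_lit 0, nat_lit 0, nat_lit 0, [nat_lit 3282000000, nat_lit 4688000000], [], [nat_lit 20952902568, nat_lit 21108448200, nat_lit 22638294886, nat_lit 22825284000], nat_lit 0, nat_lit 0, nat_lit 0, nat_lit 0, nat_lit 0, nat_lit 0, [], [nat_lit 40, nat_lit 40, nat_lit 80, nat_lit 80]⟩,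
 zbF0, []⟩
noncomputable def p021_l86 : Lf2 := ⟨nat_lit 0, nat_lit 2, [nat_lit 10, nat_lit 5, nat_lit 5, nat_lit 20], false, nat_lit 0, nat_lit 0, nat_lit 0, nat_lit 0, ⟨nat_lit 1000, nat_lit 0, nat_lit 0, nat_lit 0, nat_lit 0, nat_lit 0, nat_lit 0, nat_lit 0, nat_lit 0, nat_lit 0, nat_lit 0, nat_lit 0, nat_lit 0, nat_lit 0, nat_lit 0, nat_lit 0, false, false⟩,
 nat_lit 0, nat_lit 7964, nat_lit 0, nat_lit 0, nat_lit 6019, nat_lit 4993, nat_lit 8654, nat_lit 0, nat_lit 0, nat_lit 1514, nat_lit 0, nat_lit 0, nat_lit 0, nat_lit 0, nat_lit 0, nat_lit 0, nat_lit 0, nat_lit 0, [],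
 ⟨p021_k34, nat_lit 0, nat_lit 0, nat_lit 651, nat_lit 0, nat_lit 1477133, [nat_lit 2032000001, nat_lit 4688000000], [], [nat_lit 21169689516, nat_lit 21209283540, nat_lit 24670170257, nat_lit 24784978825], nat_lit 1271250, nat_lit 1271250, nat_lit 1100001, nat_lit 1785000, nat_lit 0, nat_lit 0, [nat_lit 490000, nat_lit 1100000], [nat_lit 24, nat_lit 40, nat_lit 80, nat_lit 80, nat_lit 33, nat_lit 234, nat_lit 0, nat_lit 10]⟩, ⟨p021_k35, nat_lit 0, nat_lit 0, nat_lit 0, nat_lit 0, nat_lit 0, [nat_lit 3282000000, nat_lit 4688000000], [], [nat_lit 18629903039, nat_lit 19477660624, nat_lit 21983293133, nat_lit 22925684640], nat_lit 0, nat_lit 0, nat_lit 0, nat_lit 0, nat_lit 0, nat_lit 0, [], [nat_lit 40, nat_lit 40, nat_lit 80, nat_lit 80]⟩,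
 zbF0, []⟩
noncomputable def b_N_800_700_0_23 : St := ⟨false, nat_lit 1, nat_lit 0, nat_lit 2, nat_lit 40, nat_lit 320, nat_lit 323, nat_lit 310, nat_lit 320, nat_lit 160, nat_lit 240, nat_lit 0, nat_lit 0, nat_lit 0, nat_lit 0, nat_lit 0, nat_lit 0, nat_lit 4, nat_lit 8, nat_lit 0, nat_lit 0, nat_lit 0, nat_lit 800⟩
theorem d_N_800_700_0_23 (h : EB TB.env) : Dead b_N_800_700_0_23 := chkB_sound0 h (T :=
(.spl (nat_lit 0) (nat_lit 322)
(.spl (nat_lit 0) (nat_lit 321)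
(.spl (nat_lit 2) (nat_lit 200)
(.spl (nat_lit 1) (nat_lit 315)
(.spl (nat_lit 1) (nat_lit 313)
(.leaf p021_l47)
(.spl (nat_lit 2) (nat_lit 180)
(.spl (nat_lit 2) (nat_lit 168)
(.spl (nat_lit 1) (nat_lit 314)
(.spl (nat_lit 2) (nat_lit 164)
(.spl (nat_lit 7) (nat_lit 600)
(.leaf p021_l48)
(.spl (nat_lit 7) (nat_lit 900)
(.leaf p021_l49)
(.leaf p021_l50)))
(.leaf p021_l51))
(.spl (nat_lit 7) (nat_lit 600)
(.leaf p021_l52)
(.spl (nat_lit 2) (nat_lit 164)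
(.spl (nat_lit 7) (nat_lit 900)
(.leaf p021_l53)
(.leaf p021_l54))
(.spl (nat_lit 7) (nat_lit 900)
(.leaf p021_l55)
(.leaf p021_l56)))))
(.spl (nat_lit 1) (nat_lit 314)
(.leaf p021_l57)
(.spl (nat_lit 2) (nat_lit 176)
(.spl (nat_lit 2) (nat_lit 172)
(.spl (nat_lit 7) (nat_lit 600)
(.leaf p021_l58)
(.leaf p021_l59))
(.leaf p021_l60))
(.leaf p021_l61))))
(.leaf p021_l62)))
(.spl (nat_lit 7) (nat_lit 600)
(.leaf p021_l63)
(.spl (nat_lit 7) (nat_lit 900)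
(.leaf p021_l64)
(.leaf p021_l65))))
(.spl (nat_lit 1) (nat_lit 315)
(.leaf p021_l66)
(.leaf p021_l67)))
(.spl (nat_lit 1) (nat_lit 315)
(.leaf p021_l68)
(.spl (nat_lit 1) (nat_lit 318)
(.spl (nat_lit 1) (nat_lit 317)
(.leaf p021_l69)
(.leaf p021_l70))
(.spl (nat_lit 2) (nat_lit 200)
(.spl (nat_lit 2) (nat_lit 180)
(.spl (nat_lit 2) (nat_lit 168)
(.spl (nat_lit 7) (nat_lit 600)
(.leaf p021_l71)
(.spl (nat_lit 1) (nat_lit 319)
(.spl (nat_lit 2) (nat_lit 164)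
(.spl (nat_lit 7) (nat_lit 900)
(.leaf p021_l72)
(.leaf p021_l73))
(.leaf p021_l74))
(.spl (nat_lit 2) (nat_lit 164)
(.spl (nat_lit 7) (nat_lit 900)
(.leaf p021_l75)
(.leaf p021_l76))
(.spl (nat_lit 7) (nat_lit 900)
(.leaf p021_l77)
(.leaf p021_l78)))))
(.spl (nat_lit 1) (nat_lit 319)
(.leaf p021_l79)
(.spl (nat_lit 2) (nat_lit 176)
(.spl (nat_lit 2) (nat_lit 172)
(.spl (nat_lit 7) (nat_lit 600)
(.leaf p021_l80)
(.leaf p021_l81))
(.leaf p021_l82))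
(.leaf p021_l83))))
(.leaf p021_l84))
(.leaf p021_l85)))))
(.leaf p021_l86))) (by decide +kernel)
noncomputable def p021_l87 : Lf2 := ⟨nat_lit 0, nat_lit 4, [nat_lit 38, nat_lit 5, nat_lit 5, nat_lit 20], false, nat_lit 0, nat_lit 0, nat_lit 0, nat_lit 0, ⟨nat_lit 1000, nat_lit 0, nat_lit 0, nat_lit 0, nat_lit 0, nat_lit 0, nat_lit 0, nat_lit 0, nat_lit 0, nat_lit 0, nat_lit 0, nat_lit 0, nat_lit 0, nat_lit 0, nat_lit 0, nat_lit 0, false, false⟩,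
 nat_lit 0, nat_lit 8860, nat_lit 0, nat_lit 0, nat_lit 6644, nat_lit 5032, nat_lit 0, nat_lit 0, nat_lit 0, nat_lit 2712, nat_lit 0, nat_lit 0, nat_lit 0, nat_lit 0, nat_lit 0, nat_lit 0, nat_lit 0, nat_lit 0, [],
 ⟨p021_k19, nat_lit 0, nat_lit 0, nat_lit 595, nat_lit 0, nat_lit 1338558, [nat_lit 2032000001, nat_lit 4688000000], [], [nat_lit 32889546226, nat_lit 33071376663, nat_lit 32757814642, nat_lit 32953864448], nat_lit 1271250, nat_lit 1271250, nat_lit 780000, nat_lit 1100001, nat_lit 0, nat_lit 0, [nat_lit 490000, nat_lit 1100000], [nat_lit 24, nat_lit 40, nat_lit 80, nat_lit 80, nat_lit 33, nat_lit 249, nat_lit 40, nat_lit 11]⟩, ⟨p021_k43, nat_lit 0, nat_lit 0, nat_lit 0, nat_lit 0, nat_lit 0, [nat_lit 3282000000, nat_lit 6250000000], [], [nat_lit 17226840264, nat_lit 17645669768, nat_lit 17684004952, nat_lit 18078545820], nat_lit 0, nat_lit 0, nat_lit 0, nat_lit 0, nat_lit 0,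 nat_lit 0, [], [nat_lit 49, nat_lit 40, nat_lit 80, nat_lit 80]⟩,
 zbF0, [⟨nat_lit 0, nat_lit 90, nat_lit 83, nat_lit 100, nat_lit 642720695⟩]⟩
noncomputable def p021_l88 : Lf2 := ⟨nat_lit 0, nat_lit 3, [nat_lit 45, nat_lit 5, nat_lit 5, nat_lit 20], false, nat_lit 0, nat_lit 0, nat_lit 0, nat_lit 0, ⟨nat_lit 1000, nat_lit 0, nat_lit 0, nat_lit 0, nat_lit 0, nat_lit 0, nat_lit 0, nat_lit 0, nat_lit 0, nat_lit 0, nat_lit 0, nat_lit 0, nat_lit 0, nat_lit 0, nat_lit 0, nat_lit 0, false, false⟩,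
 nat_lit 0, nat_lit 8881, nat_lit 0, nat_lit 0, nat_lit 6660, nat_lit 5604, nat_lit 0, nat_lit 0, nat_lit 0, nat_lit 624, nat_lit 0, nat_lit 0, nat_lit 0, nat_lit 0, nat_lit 0, nat_lit 0, nat_lit 0, nat_lit 0, [],
 ⟨p021_k44, nat_lit 0, nat_lit 0, nat_lit 598, nat_lit 0, nat_lit 1351162, [nat_lit 2032000001, nat_lit 4688000000], [], [nat_lit 32781963186, nat_lit 32854352590, nat_lit 32672971040, nat_lit 32752979712], nat_lit 1271250, nat_lit 1271250, nat_lit 810650, nat_lit 1100001, nat_lit 0, nat_lit 0, [nat_lit 490000, nat_lit 1100000], [nat_lit 24, nat_lit 40, nat_lit 80, nat_lit 80, nat_lit 33, nat_lit 249, nat_lit 40, nat_lit 11]⟩, ⟨p021_k45, nat_lit 0, nat_lit 0, nat_lit 0, nat_lit 0, nat_lit 0, [nat_lit 3282000000, nat_lit 4688000000], [], [nat_lit 18523252326, nat_lit 19002821114, nat_lit 18936896802, nat_lit 19390514492], nat_lit 0, nat_lit 0, nat_lit 0, nat_lit 0, nat_lit 0,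 nat_lit 0, [], [nat_lit 40, nat_lit 40, nat_lit 80, nat_lit 80]⟩,
 zbF0, [⟨nat_lit 0, nat_lit 88, nat_lit 84, nat_lit 100, nat_lit 645306729⟩]⟩
noncomputable def p021_l89 : Lf2 := ⟨nat_lit 0, nat_lit 3, [nat_lit 45, nat_lit 5, nat_lit 5, nat_lit 20], false, nat_lit 0, nat_lit 0, nat_lit 0, nat_lit 0, ⟨nat_lit 1000, nat_lit 0, nat_lit 0, nat_lit 0, nat_lit 0, nat_lit 0, nat_lit 0, nat_lit 0, nat_lit 0, nat_lit 0, nat_lit 0, nat_lit 0, nat_lit 0, nat_lit 0, nat_lit 0, nat_lit 0, false, false⟩,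
 nat_lit 0, nat_lit 8710, nat_lit 0, nat_lit 0, nat_lit 6583, nat_lit 6195, nat_lit 5202, nat_lit 0, nat_lit 0, nat_lit 0, nat_lit 0, nat_lit 0, nat_lit 0, nat_lit 0, nat_lit 0, nat_lit 0, nat_lit 0, nat_lit 0, [],
 ⟨p021_k46, nat_lit 0, nat_lit 0, nat_lit 595, nat_lit 0, nat_lit 1343940, [nat_lit 2032000001, nat_lit 4688000000], [], [nat_lit 22088814738, nat_lit 22130370108, nat_lit 22072762518, nat_lit 22112425644], nat_lit 1271250, nat_lit 1271250, nat_lit 841600, nat_lit 1100001, nat_lit 0, nat_lit 0, [nat_lit 490000, nat_lit 1100000], [nat_lit 24, nat_lit 40, nat_lit 80, nat_lit 80, nat_lit 33, nat_lit 249, nat_lit 40, nat_lit 11]⟩, ⟨p021_k45, nat_lit 0, nat_lit 0, nat_lit 0, nat_lit 0, nat_lit 0, [nat_lit 3282000000, nat_lit 4688000000], [], [nat_lit 19199200839, nat_lit 19768758331, nat_lit 19426978000, nat_lit 19968999600], nat_lit 0, nat_lit 0, nat_lit 0, nat_lit 0, nat_lit 0,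 nat_lit 0, [], [nat_lit 40, nat_lit 40, nat_lit 80, nat_lit 80]⟩,
 zbF0, [⟨nat_lit 0, nat_lit 88, nat_lit 83, nat_lit 100, nat_lit 665952179⟩]⟩
noncomputable def p021_l90 : Lf2 := ⟨nat_lit 0, nat_lit 3, [nat_lit 45, nat_lit 5, nat_lit 5, nat_lit 20], false, nat_lit 0, nat_lit 0, nat_lit 0, nat_lit 0, ⟨nat_lit 1000, nat_lit 0, nat_lit 0, nat_lit 0, nat_lit 0, nat_lit 0, nat_lit 0, nat_lit 0, nat_lit 0, nat_lit 0, nat_lit 0, nat_lit 0, nat_lit 0, nat_lit 0, nat_lit 0, nat_lit 0, false, false⟩,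
 nat_lit 0, nat_lit 8510, nat_lit 0, nat_lit 0, nat_lit 6457, nat_lit 6195, nat_lit 3179, nat_lit 0, nat_lit 0, nat_lit 0, nat_lit 0, nat_lit 0, nat_lit 0, nat_lit 0, nat_lit 0, nat_lit 0, nat_lit 0, nat_lit 0, [],
 ⟨p021_k47, nat_lit 0, nat_lit 0, nat_lit 597, nat_lit 0, nat_lit 1350427, [nat_lit 2032000001, nat_lit 4688000000], [], [nat_lit 22148685551, nat_lit 22240828940, nat_lit 22198963281, nat_lit 22286934223], nat_lit 1271250, nat_lit 1271250, nat_lit 841600, nat_lit 1100001, nat_lit 0, nat_lit 0, [nat_lit 490000, nat_lit 1100000], [nat_lit 24, nat_lit 40, nat_lit 80, nat_lit 80, nat_lit 33, nat_lit 249, nat_lit 40, nat_lit 11]⟩, ⟨p021_k45, nat_lit 0, nat_lit 0, nat_lit 0, nat_lit 0, nat_lit 0, [nat_lit 3282000000, nat_lit 4688000000], [], [nat_lit 19199200839, nat_lit 19768758331, nat_lit 19426978000, nat_lit 19968999600], nat_lit 0, nat_lit 0, nat_lit 0, nat_lit 0, nat_lit 0,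 nat_lit 0, [], [nat_lit 40, nat_lit 40, nat_lit 80, nat_lit 80]⟩,
 zbF0, [⟨nat_lit 0, nat_lit 89, nat_lit 83, nat_lit 100, nat_lit 650172159⟩, ⟨nat_lit 13, nat_lit 94, nat_lit 10, nat_lit 100, nat_lit 5539169⟩]⟩
noncomputable def p021_l91 : Lf2 := ⟨nat_lit 0, nat_lit 4, [nat_lit 38, nat_lit 5, nat_lit 5, nat_lit 20], false, nat_lit 0, nat_lit 0, nat_lit 0, nat_lit 0, ⟨nat_lit 1000, nat_lit 0, nat_lit 0, nat_lit 0, nat_lit 0, nat_lit 0, nat_lit 0, nat_lit 0, nat_lit 0, nat_lit 0, nat_lit 0, nat_lit 0, nat_lit 0, nat_lit 0, nat_lit 0, nat_lit 0, false, false⟩,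
 nat_lit 0, nat_lit 8856, nat_lit 0, nat_lit 0, nat_lit 6642, nat_lit 4991, nat_lit 0, nat_lit 0, nat_lit 0, nat_lit 2162, nat_lit 0, nat_lit 0, nat_lit 0, nat_lit 0, nat_lit 0, nat_lit 0, nat_lit 0, nat_lit 0, [],
 ⟨p021_k19, nat_lit 0, nat_lit 0, nat_lit 591, nat_lit 0, nat_lit 1327588, [nat_lit 2032000001, nat_lit 4688000000], [], [nat_lit 32888174303, nat_lit 33068947652, nat_lit 32769828522, nat_lit 32963973414], nat_lit 1271250, nat_lit 1271250, nat_lit 810650, nat_lit 1100001, nat_lit 0, nat_lit 0, [nat_lit 490000, nat_lit 1100000], [nat_lit 24, nat_lit 40, nat_lit 80, nat_lit 80, nat_lit 33, nat_lit 249, nat_lit 40, nat_lit 11]⟩, ⟨p021_k48, nat_lit 0, nat_lit 0, nat_lit 0, nat_lit 0, nat_lit 0, [nat_lit 3282000000, nat_lit 6250000000], [], [nat_lit 17789477675, nat_lit 18203945306, nat_lit 18182875410, nat_lit 18575619494], nat_lit 0, nat_lit 0, nat_lit 0, nat_lit 0, nat_lit 0,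 nat_lit 0, [], [nat_lit 49, nat_lit 40, nat_lit 80, nat_lit 80]⟩,
 zbF0, [⟨nat_lit 0, nat_lit 88, nat_lit 82, nat_lit 100, nat_lit 662213383⟩]⟩
noncomputable def p021_l92 : Lf2 := ⟨nat_lit 0, nat_lit 5, [nat_lit 4, nat_lit 5, nat_lit 5, nat_lit 20], false, nat_lit 0, nat_lit 0, nat_lit 0, nat_lit 0, ⟨nat_lit 1000, nat_lit 0, nat_lit 0, nat_lit 0, nat_lit 0, nat_lit 0, nat_lit 0, nat_lit 0, nat_lit 0, nat_lit 0, nat_lit 0, nat_lit 0, nat_lit 0, nat_lit 0, nat_lit 0, nat_lit 0, false, false⟩,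
 nat_lit 0, nat_lit 11073, nat_lit 0, nat_lit 0, nat_lit 8304, nat_lit 5679, nat_lit 462, nat_lit 0, nat_lit 0, nat_lit 2010, nat_lit 0, nat_lit 0, nat_lit 0, nat_lit 0, nat_lit 0, nat_lit 0, nat_lit 0, nat_lit 0, [],
 ⟨p021_k8, nat_lit 0, nat_lit 0, nat_lit 637, nat_lit 0, nat_lit 1231599, [nat_lit 2032000001, nat_lit 4688000000, nat_lit 6250000000], [], [nat_lit 24654096560, nat_lit 24786137813, nat_lit 24341744576, nat_lit 24474751432], nat_lit 1271250, nat_lit 1271250, nat_lit 780000, nat_lit 1100001, nat_lit 0, nat_lit 0, [nat_lit 490000, nat_lit 1100000, nat_lit 1442500], [nat_lit 6, nat_lit 40, nat_lit 80, nat_lit 80, nat_lit 3, nat_lit 249, nat_lit 40, nat_lit 9]⟩, ⟨p021_k9, nat_lit 0, nat_lit 0, nat_lit 0, nat_lit 0, nat_lit 0, [nat_lit 3282000000, nat_lit 6250000000], [], [nat_lit 17947397970, nat_lit 18450926127, nat_lit 18296934794, nat_lit 18719829790], nat_lit 0, nat_lit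 0, nat_lit 0, nat_lit 0, nat_lit 0, nat_lit 0, [], [nat_lit 49, nat_lit 40, nat_lit 80, nat_lit 80]⟩,
 zbF0, [⟨nat_lit 0, nat_lit 91, nat_lit 84, nat_lit 100, nat_lit 688520678⟩]⟩
noncomputable def p021_l93 : Lf2 := ⟨nat_lit 0, nat_lit 5, [nat_lit 4, nat_lit 5, nat_lit 5, nat_lit 20], false, nat_lit 0, nat_lit 0, nat_lit 0, nat_lit 0, ⟨nat_lit 1000, nat_lit 0, nat_lit 0, nat_lit 0, nat_lit 0, nat_lit 0, nat_lit 0, nat_lit 0, nat_lit 0, nat_lit 0, nat_lit 0, nat_lit 0, nat_lit 0, nat_lit 0, nat_lit 0, nat_lit 0, false, false⟩,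
 nat_lit 0, nat_lit 8485, nat_lit 0, nat_lit 0, nat_lit 6438, nat_lit 8825, nat_lit 4470, nat_lit 0, nat_lit 0, nat_lit 0, nat_lit 0, nat_lit 0, nat_lit 0, nat_lit 0, nat_lit 0, nat_lit 0, nat_lit 0, nat_lit 0, [],
 ⟨p021_k49, nat_lit 0, nat_lit 0, nat_lit 554, nat_lit 0, nat_lit 1226294, [nat_lit 2032000001, nat_lit 4688000000], [], [nat_lit 22147799151, nat_lit 22234023151, nat_lit 22115001282, nat_lit 22196848118], nat_lit 1271250, nat_lit 1271250, nat_lit 810650, nat_lit 1100001, nat_lit 0, nat_lit 0, [nat_lit 490000, nat_lit 1100000], [nat_lit 24, nat_lit 40, nat_lit 80, nat_lit 80, nat_lit 33, nat_lit 249, nat_lit 40, nat_lit 11]⟩, ⟨p021_k9, nat_lit 0, nat_lit 0, nat_lit 0, nat_lit 0, nat_lit 0, [nat_lit 3282000000, nat_lit 6250000000], [], [nat_lit 21657938351, nat_lit 22328819968, nat_lit 21582850000, nat_lit 22215655250], nat_lit 0, nat_lit 0, nat_lit 0, nat_lit 0, nat_lit 0,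 nat_lit 0, [], [nat_lit 49, nat_lit 40, nat_lit 80, nat_lit 80]⟩,
 zbF0, [⟨nat_lit 0, nat_lit 90, nat_lit 83, nat_lit 100, nat_lit 721707998⟩]⟩
noncomputable def p021_l94 : Lf2 := ⟨nat_lit 0, nat_lit 5, [nat_lit 4, nat_lit 5, nat_lit 5, nat_lit 20], false, nat_lit 0, nat_lit 0, nat_lit 0, nat_lit 0, ⟨nat_lit 1000, nat_lit 0, nat_lit 0, nat_lit 0, nat_lit 0, nat_lit 0, nat_lit 0, nat_lit 0, nat_lit 0, nat_lit 0, nat_lit 0, nat_lit 0, nat_lit 0, nat_lit 0, nat_lit 0, nat_lit 0, false, false⟩,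
 nat_lit 0, nat_lit 8717, nat_lit 0, nat_lit 0, nat_lit 6537, nat_lit 5558, nat_lit 484, nat_lit 0, nat_lit 0, nat_lit 1656, nat_lit 0, nat_lit 0, nat_lit 0, nat_lit 0, nat_lit 0, nat_lit 0, nat_lit 0, nat_lit 0, [],
 ⟨p021_k8, nat_lit 0, nat_lit 0, nat_lit 651, nat_lit 0, nat_lit 1269905, [nat_lit 2032000001, nat_lit 4688000000, nat_lit 6250000000], [], [nat_lit 33394705879, nat_lit 33588604217, nat_lit 33300664961, nat_lit 33494694129], nat_lit 1271250, nat_lit 1271250, nat_lit 810650, nat_lit 1100001, nat_lit 0, nat_lit 0, [nat_lit 490000, nat_lit 1100000, nat_lit 1442500], [nat_lit 6, nat_lit 40, nat_lit 80, nat_lit 80, nat_lit 3, nat_lit 249, nat_lit 40, nat_lit 9]⟩, ⟨p021_k50, nat_lit 0, nat_lit 0, nat_lit 0, nat_lit 0, nat_lit 0, [nat_lit 3282000000, nat_lit 6250000000], [], [nat_lit 18427190518, nat_lit 18691910361, nat_lit 18767908580, nat_lit 19018463956], nat_lit 0, nat_lit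 0, nat_lit 0, nat_lit 0, nat_lit 0, nat_lit 0, [], [nat_lit 49, nat_lit 40, nat_lit 80, nat_lit 80]⟩,
 zbF0, [⟨nat_lit 0, nat_lit 89, nat_lit 82, nat_lit 100, nat_lit 663036415⟩]⟩
noncomputable def p021_l95 : Lf2 := ⟨nat_lit 0, nat_lit 5, [nat_lit 4, nat_lit 5, nat_lit 5, nat_lit 20], false, nat_lit 0, nat_lit 0, nat_lit 0, nat_lit 0, ⟨nat_lit 1000, nat_lit 0, nat_lit 0, nat_lit 0, nat_lit 0, nat_lit 0, nat_lit 0, nat_lit 0, nat_lit 0, nat_lit 0, nat_lit 0, nat_lit 0, nat_lit 0, nat_lit 0, nat_lit 0, nat_lit 0, false, false⟩,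
 nat_lit 0, nat_lit 8688, nat_lit 0, nat_lit 0, nat_lit 6516, nat_lit 5547, nat_lit 481, nat_lit 0, nat_lit 0, nat_lit 1461, nat_lit 0, nat_lit 0, nat_lit 0, nat_lit 0, nat_lit 0, nat_lit 0, nat_lit 0, nat_lit 0, [],
 ⟨p021_k8, nat_lit 0, nat_lit 0, nat_lit 656, nat_lit 0, nat_lit 1286333, [nat_lit 2032000001, nat_lit 4688000000, nat_lit 6250000000], [], [nat_lit 33498730677, nat_lit 33691262270, nat_lit 33417129281, nat_lit 33600866307], nat_lit 1271250, nat_lit 1271250, nat_lit 841600, nat_lit 1100001, nat_lit 0, nat_lit 0, [nat_lit 490000, nat_lit 1100000, nat_lit 1442500], [nat_lit 6, nat_lit 40, nat_lit 80, nat_lit 80, nat_lit 3, nat_lit 249, nat_lit 40, nat_lit 9]⟩, ⟨p021_k51, nat_lit 0, nat_lit 0, nat_lit 0, nat_lit 0, nat_lit 0, [nat_lit 3282000000, nat_lit 6250000000], [], [nat_lit 18760566180, nat_lit 18935791035, nat_lit 19051763982, nat_lit 19218608073], nat_lit 0, nat_lit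 0, nat_lit 0, nat_lit 0, nat_lit 0, nat_lit 0, [], [nat_lit 49, nat_lit 40, nat_lit 80, nat_lit 80]⟩,
 zbF0, [⟨nat_lit 0, nat_lit 88, nat_lit 82, nat_lit 100, nat_lit 670029512⟩]⟩
noncomputable def p021_l96 : Lf2 := ⟨nat_lit 0, nat_lit 5, [nat_lit 4, nat_lit 5, nat_lit 5, nat_lit 20], false, nat_lit 0, nat_lit 0, nat_lit 0, nat_lit 0, ⟨nat_lit 1000, nat_lit 0, nat_lit 0, nat_lit 0, nat_lit 0, nat_lit 0, nat_lit 0, nat_lit 0, nat_lit 0, nat_lit 0, nat_lit 0, nat_lit 0, nat_lit 0, nat_lit 0, nat_lit 0, nat_lit 0, false, false⟩,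
 nat_lit 0, nat_lit 8840, nat_lit 0, nat_lit 0, nat_lit 6629, nat_lit 5119, nat_lit 473, nat_lit 0, nat_lit 0, nat_lit 2651, nat_lit 0, nat_lit 0, nat_lit 0, nat_lit 0, nat_lit 0, nat_lit 0, nat_lit 0, nat_lit 0, [],
 ⟨p021_k8, nat_lit 0, nat_lit 0, nat_lit 681, nat_lit 0, nat_lit 1378838, [nat_lit 2032000001, nat_lit 4688000000, nat_lit 6250000000], [], [nat_lit 32847918742, nat_lit 32950963870, nat_lit 33748703160, nat_lit 33852081818], nat_lit 1271250, nat_lit 1271250, nat_lit 1100001, nat_lit 1785000, nat_lit 0, nat_lit 0, [nat_lit 490000, nat_lit 1100000, nat_lit 1442500], [nat_lit 6, nat_lit 40, nat_lit 80, nat_lit 80, nat_lit 3, nat_lit 272, nat_lit 60, nat_lit 10]⟩, ⟨p021_k9, nat_lit 0, nat_lit 0, nat_lit 0, nat_lit 0, nat_lit 0, [nat_lit 3282000000, nat_lit 6250000000], [], [nat_lit 17702867509, nat_lit 18499574621, nat_lit 21199344358, nat_lit 22155532739], nat_lit 0, nat_lit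 0, nat_lit 0, nat_lit 0, nat_lit 0, nat_lit 0, [], [nat_lit 49, nat_lit 40, nat_lit 80, nat_lit 80]⟩,
 zbF0, []⟩
noncomputable def p021_l97 : Lf2 := ⟨nat_lit 0, nat_lit 5, [nat_lit 4, nat_lit 5, nat_lit 5, nat_lit 20], false, nat_lit 0, nat_lit 0, nat_lit 0, nat_lit 0, ⟨nat_lit 1000, nat_lit 0, nat_lit 0, nat_lit 0, nat_lit 0, nat_lit 0, nat_lit 0, nat_lit 0, nat_lit 0, nat_lit 0, nat_lit 0, nat_lit 0, nat_lit 0, nat_lit 0, nat_lit 0, nat_lit 0, false, false⟩,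
 nat_lit 0, nat_lit 8630, nat_lit 0, nat_lit 0, nat_lit 6548, nat_lit 8589, nat_lit 4243, nat_lit 0, nat_lit 0, nat_lit 0, nat_lit 0, nat_lit 0, nat_lit 0, nat_lit 0, nat_lit 0, nat_lit 0, nat_lit 0, nat_lit 0, [],
 ⟨p021_k49, nat_lit 0, nat_lit 0, nat_lit 596, nat_lit 0, nat_lit 1371088, [nat_lit 2032000001, nat_lit 4688000000], [], [nat_lit 22123551623, nat_lit 22199944745, nat_lit 25585629371, nat_lit 25828308258], nat_lit 1271250, nat_lit 1271250, nat_lit 1100001, nat_lit 1785000, nat_lit 0, nat_lit 0, [nat_lit 490000, nat_lit 1100000], [nat_lit 24, nat_lit 40, nat_lit 80, nat_lit 80, nat_lit 33, nat_lit 220, nat_lit 0, nat_lit 9]⟩, ⟨p021_k9, nat_lit 0, nat_lit 0, nat_lit 0, nat_lit 0, nat_lit 0, [nat_lit 3282000000, nat_lit 6250000000], [], [nat_lit 21619458320, nat_lit 22861218660, nat_lit 25562806898, nat_lit 26898956809], nat_lit 0, nat_lit 0, nat_lit 0, nat_lit 0, nat_lit 0, nat_lit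 0, [], [nat_lit 49, nat_lit 40, nat_lit 80, nat_lit 80]⟩,
 zbF0, []⟩
noncomputable def b_N_800_700_0_24 : St := ⟨false, nat_lit 1, nat_lit 0, nat_lit 2, nat_lit 40, nat_lit 320, nat_lit 325, nat_lit 300, nat_lit 310, nat_lit 120, nat_lit 240, nat_lit 0, nat_lit 0, nat_lit 0, nat_lit 0, nat_lit 0, nat_lit 0, nat_lit 8, nat_lit 20, nat_lit 0, nat_lit 0, nat_lit 0, nat_lit 800⟩
theorem d_N_800_700_0_24 (h : EB TB.env) : Dead b_N_800_700_0_24 := chkB_sound0 h (T :=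
(.spl (nat_lit 2) (nat_lit 160)
(.spl (nat_lit 6) (nat_lit 16)
(.spl (nat_lit 1) (nat_lit 305)
(.leaf p021_l87)
(.trZ (nat_lit 0) (nat_lit 91) (nat_lit 86) (nat_lit 100) (nat_lit 124) (.spl (nat_lit 6) (nat_lit 12)
(.spl (nat_lit 0) (nat_lit 323)
(.spl (nat_lit 0) (nat_lit 322)
(.leaf p021_l88)
(.trZ (nat_lit 0) (nat_lit 91) (nat_lit 85) (nat_lit 100) (nat_lit 128) (.leaf p021_l89)))
(.trZ (nat_lit 0) (nat_lit 91) (nat_lit 84) (nat_lit 100) (nat_lit 128) (.leaf p021_l90)))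
(.leaf p021_l91))))
(.spl (nat_lit 1) (nat_lit 305)
(.spl (nat_lit 0) (nat_lit 323)
(.leaf p021_l92)
(.trZ (nat_lit 0) (nat_lit 93) (nat_lit 85) (nat_lit 100) (nat_lit 124) (.leaf p021_l93)))
(.trZ (nat_lit 0) (nat_lit 91) (nat_lit 86) (nat_lit 100) (nat_lit 124) (.spl (nat_lit 1) (nat_lit 308)
(.leaf p021_l94)
(.trZ (nat_lit 0) (nat_lit 90) (nat_lit 85) (nat_lit 100) (nat_lit 128) (.leaf p021_l95))))))
(.spl (nat_lit 0) (nat_lit 323)
(.leaf p021_l96)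
(.leaf p021_l97)))) (by decide +kernel)
noncomputable def p021_l98 : Lf2 := ⟨nat_lit 0, nat_lit 4, [nat_lit 38, nat_lit 5, nat_lit 5, nat_lit 20], true, nat_lit 0, nat_lit 0, nat_lit 0, nat_lit 0, ⟨nat_lit 0, nat_lit 1000, nat_lit 0, nat_lit 7, nat_lit 213, nat_lit 0, nat_lit 0, nat_lit 0, nat_lit 0, nat_lit 0, nat_lit 0, nat_lit 0, nat_lit 0, nat_lit 0, nat_lit 0, nat_lit 5000000, false, false⟩,
 nat_lit 0, nat_lit 0, nat_lit 0, nat_lit 0, nat_lit 0, nat_lit 0, nat_lit 0, nat_lit 0, nat_lit 349, nat_lit 0, nat_lit 0, nat_lit 0, nat_lit 0, nat_lit 0, nat_lit 0, nat_lit 400000, nat_lit 0, nat_lit 0, [(nat_lit 18, [(nat_lit 1, nat_lit 1000)])],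
 ⟨p021_k19, nat_lit 0, nat_lit 0, nat_lit 0, nat_lit 0, nat_lit 1446598, [nat_lit 1398133334, nat_lit 1966666666], [], [nat_lit 12409896872, nat_lit 12472700802, nat_lit 13054720000, nat_lit 13143426200], nat_lit 1271250, nat_lit 1271250, nat_lit 872850, nat_lit 1100001, nat_lit 0, nat_lit 0, [nat_lit 490000, nat_lit 1100000], [nat_lit 24, nat_lit 40, nat_lit 80, nat_lit 80]⟩, C1.Rw.none,
 ⟨nat_lit 4415, nat_lit 4473, ⟨.ofNat (nat_lit 503051), .ofNat (nat_lit 550635), .ofNat (nat_lit 513834), .ofNat (nat_lit 561419), .ofNat (nat_lit 503736), .ofNat (nat_lit 551079), .ofNat (nat_lit 514528), .ofNat (nat_lit 561872)⟩, ⟨.ofNat (nat_lit 0), .ofNat (nat_lit 0), .ofNat (nat_lit 0), .ofNat (nat_lit 0), .ofNat (nat_lit 0), .ofNat (nat_lit 0), .ofNat (nat_lit 0), .ofNat (nat_lit 0)⟩⟩, []⟩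
noncomputable def p021_l99 : Lf2 := ⟨nat_lit 0, nat_lit 3, [nat_lit 45, nat_lit 5, nat_lit 5, nat_lit 20], false, nat_lit 0, nat_lit 0, nat_lit 0, nat_lit 0, ⟨nat_lit 1000, nat_lit 0, nat_lit 0, nat_lit 0, nat_lit 0, nat_lit 0, nat_lit 0, nat_lit 0, nat_lit 0, nat_lit 0, nat_lit 0, nat_lit 0, nat_lit 0, nat_lit 0, nat_lit 0, nat_lit 0, false, false⟩,
 nat_lit 0, nat_lit 0, nat_lit 0, nat_lit 0, nat_lit 0, nat_lit 2809, nat_lit 0, nat_lit 0, nat_lit 471, nat_lit 0, nat_lit 0, nat_lit 0, nat_lit 0, nat_lit 0, nat_lit 0, nat_lit 0, nat_lit 0, nat_lit 0, [],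
 ⟨p021_k44, nat_lit 0, nat_lit 0, nat_lit 0, nat_lit 0, nat_lit 1437904, [nat_lit 2032000001, nat_lit 4688000000], [], [nat_lit 13632333400, nat_lit 13690876190, nat_lit 14213444000, nat_lit 14271683200], nat_lit 1271250, nat_lit 1271250, nat_lit 872850, nat_lit 1100001, nat_lit 0, nat_lit 0, [nat_lit 490000, nat_lit 1100000], [nat_lit 24, nat_lit 40, nat_lit 80, nat_lit 80]⟩, ⟨p021_k52, nat_lit 0, nat_lit 0, nat_lit 0, nat_lit 0, nat_lit 0, [nat_lit 3282000000, nat_lit 4688000000], [], [nat_lit 22647727409, nat_lit 23307400326, nat_lit 23138597207, nat_lit 23773753312], nat_lit 0, nat_lit 0, nat_lit 0, nat_lit 0, nat_lit 0, nat_lit 0, [], [nat_lit 40, nat_lit 40, nat_lit 80, nat_lit 80]⟩,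
 zbF0, [⟨nat_lit 0, nat_lit 83, nat_lit 82, nat_lit 100, nat_lit 474384874⟩]⟩
noncomputable def p021_l100 : Lf2 := ⟨nat_lit 0, nat_lit 3, [nat_lit 45, nat_lit 5, nat_lit 5, nat_lit 20], false, nat_lit 0, nat_lit 0, nat_lit 0, nat_lit 0, ⟨nat_lit 1000, nat_lit 0, nat_lit 0, nat_lit 0, nat_lit 0, nat_lit 0, nat_lit 0, nat_lit 0, nat_lit 0, nat_lit 0, nat_lit 0, nat_lit 0, nat_lit 0, nat_lit 0, nat_lit 0, nat_lit 0, false, false⟩,
 nat_lit 0, nat_lit 9835, nat_lit 0, nat_lit 0, nat_lit 7376, nat_lit 4890, nat_lit 815, nat_lit 0, nat_lit 0, nat_lit 1518, nat_lit 0, nat_lit 0, nat_lit 0, nat_lit 0, nat_lit 0, nat_lit 0, nat_lit 0, nat_lit 0, [],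
 ⟨p021_k53, nat_lit 0, nat_lit 0, nat_lit 645, nat_lit 0, nat_lit 1437904, [nat_lit 2032000001, nat_lit 3282000000, nat_lit 4688000000], [], [nat_lit 20079827846, nat_lit 20176178903, nat_lit 20076788289, nat_lit 20168525011], nat_lit 1271250, nat_lit 1271250, nat_lit 872850, nat_lit 1100001, nat_lit 0, nat_lit 0, [nat_lit 490000, nat_lit 780000, nat_lit 1100000], [nat_lit 78, nat_lit 40, nat_lit 80, nat_lit 80, nat_lit 22, nat_lit 249, nat_lit 40, nat_lit 11]⟩, ⟨p021_k52, nat_lit 0, nat_lit 0, nat_lit 0, nat_lit 0, nat_lit 0, [nat_lit 3282000000, nat_lit 4688000000], [], [nat_lit 18385185531, nat_lit 19259235576, nat_lit 18735090470, nat_lit 19572821520], nat_lit 0, nat_lit 0, nat_lit 0, nat_lit 0, nat_lit 0, nat_lit 0, [], [nat_lit 40, nat_lit 40, nat_lit 80, nat_lit 80]⟩,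
 zbF0, [⟨nat_lit 0, nat_lit 83, nat_lit 82, nat_lit 100, nat_lit 665484116⟩]⟩
noncomputable def p021_l101 : Lf2 := ⟨nat_lit 0, nat_lit 4, [nat_lit 38, nat_lit 5, nat_lit 5, nat_lit 20], false, nat_lit 0, nat_lit 0, nat_lit 0, nat_lit 0, ⟨nat_lit 1000, nat_lit 0, nat_lit 0, nat_lit 0, nat_lit 0, nat_lit 0, nat_lit 0, nat_lit 0, nat_lit 0, nat_lit 0, nat_lit 0, nat_lit 0, nat_lit 0, nat_lit 0, nat_lit 0, nat_lit 0, false, false⟩,
 nat_lit 0, nat_lit 8874, nat_lit 0, nat_lit 0, nat_lit 6655, nat_lit 4962, nat_lit 0, nat_lit 0, nat_lit 0, nat_lit 1775, nat_lit 0, nat_lit 0, nat_lit 0, nat_lit 0, nat_lit 0, nat_lit 0, nat_lit 0, nat_lit 0, [],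
 ⟨p021_k19, nat_lit 0, nat_lit 0, nat_lit 596, nat_lit 0, nat_lit 1349567, [nat_lit 2032000001, nat_lit 4688000000], [], [nat_lit 32784860059, nat_lit 32856398272, nat_lit 32698309320, nat_lit 32778291646], nat_lit 1271250, nat_lit 1271250, nat_lit 872850, nat_lit 1100001, nat_lit 0, nat_lit 0, [nat_lit 490000, nat_lit 1100000], [nat_lit 24, nat_lit 40, nat_lit 80, nat_lit 80, nat_lit 33, nat_lit 249, nat_lit 40, nat_lit 11]⟩, ⟨p021_k54, nat_lit 0, nat_lit 0, nat_lit 0, nat_lit 0, nat_lit 0, [nat_lit 3282000000, nat_lit 6250000000], [], [nat_lit 18373095942, nat_lit 18781390279, nat_lit 18664346433, nat_lit 19055819621], nat_lit 0, nat_lit 0, nat_lit 0, nat_lit 0, nat_lit 0, nat_lit 0, [], [nat_lit 49, nat_lit 40, nat_lit 80, nat_lit 80]⟩,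
 zbF0, [⟨nat_lit 0, nat_lit 86, nat_lit 83, nat_lit 100, nat_lit 666556535⟩]⟩
noncomputable def p021_l102 : Lf2 := ⟨nat_lit 0, nat_lit 4, [nat_lit 38, nat_lit 5, nat_lit 5, nat_lit 20], false, nat_lit 0, nat_lit 0, nat_lit 0, nat_lit 0, ⟨nat_lit 1000, nat_lit 0, nat_lit 0, nat_lit 0, nat_lit 0, nat_lit 0, nat_lit 0, nat_lit 0, nat_lit 0, nat_lit 0, nat_lit 0, nat_lit 0, nat_lit 0, nat_lit 0, nat_lit 0, nat_lit 0, false, false⟩,
 nat_lit 0, nat_lit 0, nat_lit 0, nat_lit 0, nat_lit 0, nat_lit 3002, nat_lit 0, nat_lit 0, nat_lit 461, nat_lit 0, nat_lit 0, nat_lit 0, nat_lit 0, nat_lit 0, nat_lit 0, nat_lit 0, nat_lit 0, nat_lit 0, [],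
 ⟨p021_k19, nat_lit 0, nat_lit 0, nat_lit 0, nat_lit 0, nat_lit 1393300, [nat_lit 2032000001, nat_lit 4688000000], [], [nat_lit 14516086800, nat_lit 14565515940, nat_lit 14977912000, nat_lit 15031020800], nat_lit 1271250, nat_lit 1271250, nat_lit 904401, nat_lit 1100001, nat_lit 0, nat_lit 0, [nat_lit 490000, nat_lit 1100000], [nat_lit 24, nat_lit 40, nat_lit 80, nat_lit 80]⟩, ⟨p021_k55, nat_lit 0, nat_lit 0, nat_lit 0, nat_lit 0, nat_lit 0, [nat_lit 3282000000, nat_lit 4688000000], [], [nat_lit 22859226427, nat_lit 23197174583, nat_lit 23257789691, nat_lit 23584761536], nat_lit 0, nat_lit 0, nat_lit 0, nat_lit 0, nat_lit 0, nat_lit 0, [], [nat_lit 40, nat_lit 40, nat_lit 80, nat_lit 80]⟩,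
 zbF0, [⟨nat_lit 13, nat_lit 98, nat_lit 3, nat_lit 100, nat_lit 8480332⟩]⟩
noncomputable def p021_l103 : Lf2 := ⟨nat_lit 0, nat_lit 4, [nat_lit 38, nat_lit 5, nat_lit 5, nat_lit 20], false, nat_lit 0, nat_lit 0, nat_lit 0, nat_lit 0, ⟨nat_lit 1000, nat_lit 0, nat_lit 0, nat_lit 0, nat_lit 0, nat_lit 0, nat_lit 0, nat_lit 0, nat_lit 0, nat_lit 0, nat_lit 0, nat_lit 0, nat_lit 0, nat_lit 0, nat_lit 0, nat_lit 0, false, false⟩,
 nat_lit 0, nat_lit 11804, nat_lit 0, nat_lit 0, nat_lit 8853, nat_lit 5591, nat_lit 766, nat_lit 0, nat_lit 0, nat_lit 386, nat_lit 0, nat_lit 0, nat_lit 0, nat_lit 0, nat_lit 0, nat_lit 0, nat_lit 0, nat_lit 0, [],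
 ⟨p021_k56, nat_lit 0, nat_lit 0, nat_lit 617, nat_lit 0, nat_lit 1393300, [nat_lit 2032000001, nat_lit 3282000000, nat_lit 4688000000], [], [nat_lit 11795625192, nat_lit 11903293594, nat_lit 11720610344, nat_lit 11830547979], nat_lit 1271250, nat_lit 1271250, nat_lit 904401, nat_lit 1100001, nat_lit 0, nat_lit 0, [nat_lit 490000, nat_lit 780000, nat_lit 1100000], [nat_lit 78, nat_lit 40, nat_lit 80, nat_lit 80, nat_lit 22, nat_lit 249, nat_lit 40, nat_lit 11]⟩, ⟨p021_k55, nat_lit 0, nat_lit 0, nat_lit 0, nat_lit 0, nat_lit 0, [nat_lit 3282000000, nat_lit 4688000000], [], [nat_lit 19722427563, nat_lit 20249609830, nat_lit 19953613691, nat_lit 20406598638], nat_lit 0, nat_lit 0, nat_lit 0, nat_lit 0, nat_lit 0, nat_lit 0, [], [nat_lit 40, nat_lit 40, nat_lit 80, nat_lit 80]⟩,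
 zbF0, [⟨nat_lit 0, nat_lit 83, nat_lit 82, nat_lit 100, nat_lit 718540208⟩]⟩
noncomputable def p021_l104 : Lf2 := ⟨nat_lit 0, nat_lit 4, [nat_lit 38, nat_lit 5, nat_lit 5, nat_lit 20], false, nat_lit 0, nat_lit 0, nat_lit 0, nat_lit 0, ⟨nat_lit 1000, nat_lit 0, nat_lit 0, nat_lit 0, nat_lit 0, nat_lit 0, nat_lit 0, nat_lit 0, nat_lit 0, nat_lit 0, nat_lit 0, nat_lit 0, nat_lit 0, nat_lit 0, nat_lit 0, nat_lit 0, false, false⟩,
 nat_lit 0, nat_lit 8895, nat_lit 0, nat_lit 0, nat_lit 6723, nat_lit 4912, nat_lit 5946, nat_lit 0, nat_lit 0, nat_lit 1755, nat_lit 0, nat_lit 0, nat_lit 0, nat_lit 0, nat_lit 0, nat_lit 0, nat_lit 0, nat_lit 0, [],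
 ⟨p021_k57, nat_lit 0, nat_lit 0, nat_lit 645, nat_lit 0, nat_lit 1438155, [nat_lit 2032000001, nat_lit 4688000000], [], [nat_lit 22280422216, nat_lit 22313628432, nat_lit 22167749371, nat_lit 22199599208], nat_lit 1271250, nat_lit 1271250, nat_lit 872850, nat_lit 1100001, nat_lit 0, nat_lit 0, [nat_lit 490000, nat_lit 1100000], [nat_lit 24, nat_lit 40, nat_lit 80, nat_lit 80, nat_lit 33, nat_lit 249, nat_lit 40, nat_lit 11]⟩, ⟨p021_k54, nat_lit 0, nat_lit 0, nat_lit 0, nat_lit 0, nat_lit 0, [nat_lit 3282000000, nat_lit 6250000000], [], [nat_lit 18477661884, nat_lit 19290095060, nat_lit 18772654733, nat_lit 19552275232], nat_lit 0, nat_lit 0, nat_lit 0, nat_lit 0, nat_lit 0, nat_lit 0, [], [nat_lit 49, nat_lit 40, nat_lit 80, nat_lit 80]⟩,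
 zbF0, [⟨nat_lit 0, nat_lit 83, nat_lit 82, nat_lit 100, nat_lit 706263323⟩]⟩
noncomputable def p021_l105 : Lf2 := ⟨nat_lit 0, nat_lit 4, [nat_lit 38, nat_lit 5, nat_lit 5, nat_lit 20], false, nat_lit 0, nat_lit 0, nat_lit 0, nat_lit 0, ⟨nat_lit 1000, nat_lit 0, nat_lit 0, nat_lit 0, nat_lit 0, nat_lit 0, nat_lit 0, nat_lit 0, nat_lit 0, nat_lit 0, nat_lit 0, nat_lit 0, nat_lit 0, nat_lit 0, nat_lit 0, nat_lit 0, false, false⟩,
 nat_lit 0, nat_lit 8790, nat_lit 0, nat_lit 0, nat_lit 6669, nat_lit 4993, nat_lit 3340, nat_lit 0, nat_lit 0, nat_lit 1754, nat_lit 0, nat_lit 0, nat_lit 0, nat_lit 0, nat_lit 0, nat_lit 0, nat_lit 0, nat_lit 0, [],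
 ⟨p021_k58, nat_lit 0, nat_lit 0, nat_lit 647, nat_lit 0, nat_lit 1443796, [nat_lit 2032000001, nat_lit 4688000000], [], [nat_lit 22464408975, nat_lit 22541240578, nat_lit 22426571435, nat_lit 22500310659], nat_lit 1271250, nat_lit 1271250, nat_lit 872850, nat_lit 1100001, nat_lit 0, nat_lit 0, [nat_lit 490000, nat_lit 1100000], [nat_lit 24, nat_lit 40, nat_lit 80, nat_lit 80, nat_lit 33, nat_lit 249, nat_lit 40, nat_lit 11]⟩, ⟨p021_k54, nat_lit 0, nat_lit 0, nat_lit 0, nat_lit 0, nat_lit 0, [nat_lit 3282000000, nat_lit 6250000000], [], [nat_lit 18403141932, nat_lit 19404588689, nat_lit 18692072162, nat_lit 19477735626], nat_lit 0, nat_lit 0, nat_lit 0, nat_lit 0, nat_lit 0, nat_lit 0, [], [nat_lit 49, nat_lit 40, nat_lit 80, nat_lit 80]⟩,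
 zbF0, [⟨nat_lit 0, nat_lit 83, nat_lit 81, nat_lit 100, nat_lit 744372417⟩]⟩
noncomputable def b_N_800_700_0_25 : St := ⟨false, nat_lit 1, nat_lit 0, nat_lit 2, nat_lit 40, nat_lit 320, nat_lit 325, nat_lit 310, nat_lit 320, nat_lit 132, nat_lit 160, nat_lit 0, nat_lit 0, nat_lit 0, nat_lit 0, nat_lit 0, nat_lit 0, nat_lit 8, nat_lit 16, nat_lit 0, nat_lit 0, nat_lit 0, nat_lit 800⟩
theorem d_N_800_700_0_25 (h : EB TB.env) : Dead b_N_800_700_0_25 := chkB_sound0 h (T :=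
(.spl (nat_lit 0) (nat_lit 323)
(.spl (nat_lit 0) (nat_lit 322)
(.spl (nat_lit 7) (nat_lit 600)
(.leaf p021_l98)
(.spl (nat_lit 6) (nat_lit 12)
(.spl (nat_lit 7) (nat_lit 900)
(.leaf p021_l99)
(.leaf p021_l100))
(.spl (nat_lit 1) (nat_lit 315)
(.leaf p021_l101)
(.trZ (nat_lit 0) (nat_lit 86) (nat_lit 84) (nat_lit 100) (nat_lit 136) (.spl (nat_lit 7) (nat_lit 900)
(.leaf p021_l102)
(.leaf p021_l103))))))
(.leaf p021_l104))
(.leaf p021_l105))) (by decide +kernel)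
noncomputable def p021_l106 : Lf2 := ⟨nat_lit 0, nat_lit 5, [nat_lit 4, nat_lit 5, nat_lit 5, nat_lit 20], false, nat_lit 0, nat_lit 0, nat_lit 0, nat_lit 0, ⟨nat_lit 1000, nat_lit 0, nat_lit 0, nat_lit 0, nat_lit 0, nat_lit 0, nat_lit 0, nat_lit 0, nat_lit 0, nat_lit 0, nat_lit 0, nat_lit 0, nat_lit 0, nat_lit 0, nat_lit 0, nat_lit 0, false, false⟩,
 nat_lit 0, nat_lit 8727, nat_lit 0, nat_lit 0, nat_lit 6545, nat_lit 4992, nat_lit 483, nat_lit 0, nat_lit 0, nat_lit 1788, nat_lit 0, nat_lit 0, nat_lit 0, nat_lit 0, nat_lit 0, nat_lit 0, nat_lit 0, nat_lit 0, [],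
 ⟨p021_k8, nat_lit 0, nat_lit 0, nat_lit 655, nat_lit 0, nat_lit 1289341, [nat_lit 2032000001, nat_lit 4688000000, nat_lit 6250000000], [], [nat_lit 33330104047, nat_lit 33445180405, nat_lit 33256297601, nat_lit 33374855552], nat_lit 1271250, nat_lit 1271250, nat_lit 872850, nat_lit 1100001, nat_lit 0, nat_lit 0, [nat_lit 490000, nat_lit 1100000, nat_lit 1442500], [nat_lit 6, nat_lit 40, nat_lit 80, nat_lit 80, nat_lit 3, nat_lit 249, nat_lit 40, nat_lit 9]⟩, ⟨p021_k10, nat_lit 0, nat_lit 0, nat_lit 0, nat_lit 0, nat_lit 0, [nat_lit 3282000000, nat_lit 6250000000], [], [nat_lit 18307515751, nat_lit 18471390385, nat_lit 18596520828, nat_lit 18754705063], nat_lit 0, nat_lit 0, nat_lit 0, nat_lit 0, nat_lit 0, nat_lit 0, [], [nat_lit 49, nat_lit 40, nat_lit 80, nat_lit 80]⟩,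
 zbF0, [⟨nat_lit 0, nat_lit 87, nat_lit 83, nat_lit 100, nat_lit 656913940⟩]⟩
noncomputable def p021_l107 : Lf2 := ⟨nat_lit 0, nat_lit 5, [nat_lit 4, nat_lit 5, nat_lit 5, nat_lit 20], false, nat_lit 0, nat_lit 0, nat_lit 0, nat_lit 0, ⟨nat_lit 1000, nat_lit 0, nat_lit 0, nat_lit 0, nat_lit 0, nat_lit 0, nat_lit 0, nat_lit 0, nat_lit 0, nat_lit 0, nat_lit 0, nat_lit 0, nat_lit 0, nat_lit 0, nat_lit 0, nat_lit 0, false, false⟩,
 nat_lit 0, nat_lit 8704, nat_lit 0, nat_lit 0, nat_lit 6528, nat_lit 4982, nat_lit 481, nat_lit 0, nat_lit 0, nat_lit 1668, nat_lit 0, nat_lit 0, nat_lit 0, nat_lit 0, nat_lit 0, nat_lit 0, nat_lit 0, nat_lit 0, [],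
 ⟨p021_k8, nat_lit 0, nat_lit 0, nat_lit 659, nat_lit 0, nat_lit 1297781, [nat_lit 2032000001, nat_lit 4688000000, nat_lit 6250000000], [], [nat_lit 33422974728, nat_lit 33537923882, nat_lit 33350578241, nat_lit 33460903606], nat_lit 1271250, nat_lit 1271250, nat_lit 872850, nat_lit 1100001, nat_lit 0, nat_lit 0, [nat_lit 490000, nat_lit 1100000, nat_lit 1442500], [nat_lit 6, nat_lit 40, nat_lit 80, nat_lit 80, nat_lit 3, nat_lit 249, nat_lit 40, nat_lit 9]⟩, ⟨p021_k59, nat_lit 0, nat_lit 0, nat_lit 0, nat_lit 0, nat_lit 0, [nat_lit 3282000000, nat_lit 6250000000], [], [nat_lit 18493242941, nat_lit 18575087441, nat_lit 18776247356, nat_lit 18855143936], nat_lit 0, nat_lit 0, nat_lit 0, nat_lit 0, nat_lit 0, nat_lit 0, [], [nat_lit 49, nat_lit 40, nat_lit 80, nat_lit 80]⟩,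
 zbF0, [⟨nat_lit 0, nat_lit 87, nat_lit 83, nat_lit 100, nat_lit 658350963⟩]⟩
noncomputable def p021_l108 : Lf2 := ⟨nat_lit 0, nat_lit 5, [nat_lit 4, nat_lit 5, nat_lit 5, nat_lit 20], false, nat_lit 0, nat_lit 0, nat_lit 0, nat_lit 0, ⟨nat_lit 1000, nat_lit 0, nat_lit 0, nat_lit 0, nat_lit 0, nat_lit 0, nat_lit 0, nat_lit 0, nat_lit 0, nat_lit 0, nat_lit 0, nat_lit 0, nat_lit 0, nat_lit 0, nat_lit 0, nat_lit 0, false, false⟩,
 nat_lit 0, nat_lit 8866, nat_lit 0, nat_lit 0, nat_lit 6649, nat_lit 4972, nat_lit 481, nat_lit 0, nat_lit 0, nat_lit 1611, nat_lit 0, nat_lit 0, nat_lit 0, nat_lit 0, nat_lit 0, nat_lit 0, nat_lit 0, nat_lit 0, [],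
 ⟨p021_k8, nat_lit 0, nat_lit 0, nat_lit 662, nat_lit 0, nat_lit 1306242, [nat_lit 2032000001, nat_lit 4688000000, nat_lit 6250000000], [], [nat_lit 32820405527, nat_lit 32928511787, nat_lit 32728715256, nat_lit 32848641323], nat_lit 1271250, nat_lit 1271250, nat_lit 872850, nat_lit 1100001, nat_lit 0, nat_lit 0, [nat_lit 490000, nat_lit 1100000, nat_lit 1442500], [nat_lit 6, nat_lit 40, nat_lit 80, nat_lit 80, nat_lit 3, nat_lit 249, nat_lit 40, nat_lit 9]⟩, ⟨p021_k60, nat_lit 0, nat_lit 0, nat_lit 0, nat_lit 0, nat_lit 0, [nat_lit 3282000000, nat_lit 6250000000], [], [nat_lit 18596397180, nat_lit 18678148864, nat_lit 18876791005, nat_lit 18955370637], nat_lit 0, nat_lit 0, nat_lit 0, nat_lit 0, nat_lit 0, nat_lit 0, [], [nat_lit 49, nat_lit 40, nat_lit 80, nat_lit 80]⟩,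
 zbF0, [⟨nat_lit 0, nat_lit 86, nat_lit 83, nat_lit 100, nat_lit 666200165⟩]⟩
noncomputable def p021_l109 : Lf2 := ⟨nat_lit 0, nat_lit 5, [nat_lit 4, nat_lit 5, nat_lit 5, nat_lit 20], false, nat_lit 0, nat_lit 0, nat_lit 0, nat_lit 0, ⟨nat_lit 1000, nat_lit 0, nat_lit 0, nat_lit 0, nat_lit 0, nat_lit 0, nat_lit 0, nat_lit 0, nat_lit 0, nat_lit 0, nat_lit 0, nat_lit 0, nat_lit 0, nat_lit 0, nat_lit 0, nat_lit 0, false, false⟩,
 nat_lit 0, nat_lit 8712, nat_lit 0, nat_lit 0, nat_lit 6534, nat_lit 4973, nat_lit 481, nat_lit 0, nat_lit 0, nat_lit 1565, nat_lit 0, nat_lit 0, nat_lit 0, nat_lit 0, nat_lit 0, nat_lit 0, nat_lit 0, nat_lit 0, [],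
 ⟨p021_k8, nat_lit 0, nat_lit 0, nat_lit 661, nat_lit 0, nat_lit 1307959, [nat_lit 2032000001, nat_lit 4688000000, nat_lit 6250000000], [], [nat_lit 33379783395, nat_lit 33456005418, nat_lit 33317302721, nat_lit 33390880681], nat_lit 1271250, nat_lit 1271250, nat_lit 904401, nat_lit 1100001, nat_lit 0, nat_lit 0, [nat_lit 490000, nat_lit 1100000, nat_lit 1442500], [nat_lit 6, nat_lit 40, nat_lit 80, nat_lit 80, nat_lit 3, nat_lit 249, nat_lit 40, nat_lit 9]⟩, ⟨p021_k61, nat_lit 0, nat_lit 0, nat_lit 0, nat_lit 0, nat_lit 0, [nat_lit 3282000000, nat_lit 6250000000], [], [nat_lit 18729072977, nat_lit 18810352526, nat_lit 18966456559, nat_lit 19044847609], nat_lit 0, nat_lit 0, nat_lit 0, nat_lit 0, nat_lit 0, nat_lit 0, [], [nat_lit 49, nat_lit 40, nat_lit 80, nat_lit 80]⟩,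
 zbF0, [⟨nat_lit 0, nat_lit 86, nat_lit 83, nat_lit 100, nat_lit 664500835⟩]⟩
noncomputable def p021_l110 : Lf2 := ⟨nat_lit 0, nat_lit 5, [nat_lit 4, nat_lit 5, nat_lit 5, nat_lit 20], false, nat_lit 0, nat_lit 0, nat_lit 0, nat_lit 0, ⟨nat_lit 1000, nat_lit 0, nat_lit 0, nat_lit 0, nat_lit 0, nat_lit 0, nat_lit 0, nat_lit 0, nat_lit 0, nat_lit 0, nat_lit 0, nat_lit 0, nat_lit 0, nat_lit 0, nat_lit 0, nat_lit 0, false, false⟩,
 nat_lit 0, nat_lit 8656, nat_lit 0, nat_lit 0, nat_lit 6542, nat_lit 4973, nat_lit 1366, nat_lit 0, nat_lit 0, nat_lit 1565, nat_lit 0, nat_lit 0, nat_lit 0, nat_lit 0, nat_lit 0, nat_lit 0, nat_lit 0, nat_lit 0, [],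
 ⟨p021_k62, nat_lit 0, nat_lit 0, nat_lit 579, nat_lit 0, nat_lit 1301074, [nat_lit 2032000001, nat_lit 4688000000], [], [nat_lit 31051627516, nat_lit 31089758270, nat_lit 30989722605, nat_lit 31029416058], nat_lit 1271250, nat_lit 1271250, nat_lit 904401, nat_lit 1100001, nat_lit 0, nat_lit 0, [nat_lit 490000, nat_lit 1100000], [nat_lit 24, nat_lit 40, nat_lit 80, nat_lit 80, nat_lit 33, nat_lit 249, nat_lit 40, nat_lit 11]⟩, ⟨p021_k61, nat_lit 0, nat_lit 0, nat_lit 0, nat_lit 0, nat_lit 0, [nat_lit 3282000000, nat_lit 6250000000], [], [nat_lit 18729072977, nat_lit 18810352526, nat_lit 18966456559, nat_lit 19044847609], nat_lit 0, nat_lit 0, nat_lit 0, nat_lit 0, nat_lit 0, nat_lit 0, [], [nat_lit 49, nat_lit 40, nat_lit 80, nat_lit 80]⟩,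
 zbF0, [⟨nat_lit 0, nat_lit 86, nat_lit 83, nat_lit 100, nat_lit 662079574⟩]⟩
noncomputable def b_N_800_700_0_26 : St := ⟨false, nat_lit 1, nat_lit 0, nat_lit 2, nat_lit 40, nat_lit 320, nat_lit 323, nat_lit 310, nat_lit 315, nat_lit 132, nat_lit 160, nat_lit 0, nat_lit 0, nat_lit 0, nat_lit 0, nat_lit 0, nat_lit 0, nat_lit 16, nat_lit 20, nat_lit 0, nat_lit 0, nat_lit 0, nat_lit 800⟩
theorem d_N_800_700_0_26 (h : EB TB.env) : Dead b_N_800_700_0_26 := chkB_sound0 h (T :=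
(.spl (nat_lit 1) (nat_lit 313)
(.spl (nat_lit 1) (nat_lit 312)
(.leaf p021_l106)
(.leaf p021_l107))
(.spl (nat_lit 1) (nat_lit 314)
(.leaf p021_l108)
(.trZ (nat_lit 0) (nat_lit 87) (nat_lit 84) (nat_lit 100) (nat_lit 136) (.spl (nat_lit 0) (nat_lit 322)
(.leaf p021_l109)
(.leaf p021_l110)))))) (by decide +kernel)
noncomputable def p021_l111 : Lf2 := ⟨nat_lit 0, nat_lit 5, [nat_lit 4, nat_lit 5, nat_lit 5, nat_lit 20], false, nat_lit 0, nat_lit 0, nat_lit 0, nat_lit 0, ⟨nat_lit 1000, nat_lit 0, nat_lit 0, nat_lit 0, nat_lit 0, nat_lit 0, nat_lit 0, nat_lit 0, nat_lit 0, nat_lit 0, nat_lit 0, nat_lit 0, nat_lit 0, nat_lit 0, nat_lit 0, nat_lit 0, false, false⟩,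
 nat_lit 0, nat_lit 8879, nat_lit 0, nat_lit 0, nat_lit 6658, nat_lit 4953, nat_lit 481, nat_lit 0, nat_lit 0, nat_lit 1521, nat_lit 0, nat_lit 0, nat_lit 0, nat_lit 0, nat_lit 0, nat_lit 0, nat_lit 0, nat_lit 0, [],
 ⟨p021_k8, nat_lit 0, nat_lit 0, nat_lit 662, nat_lit 0, nat_lit 1309845, [nat_lit 2032000001, nat_lit 4688000000, nat_lit 6250000000], [], [nat_lit 32753748775, nat_lit 32789761711, nat_lit 32704404620, nat_lit 32744885996], nat_lit 1271250, nat_lit 1271250, nat_lit 904401, nat_lit 1033601, nat_lit 0, nat_lit 0, [nat_lit 490000, nat_lit 1100000, nat_lit 1442500], [nat_lit 6, nat_lit 40, nat_lit 80, nat_lit 80, nat_lit 3, nat_lit 249, nat_lit 40, nat_lit 9]⟩, ⟨p021_k63, nat_lit 0, nat_lit 0, nat_lit 0, nat_lit 0, nat_lit 0, [nat_lit 3282000000, nat_lit 6250000000], [], [nat_lit 18818409471, nat_lit 18899504864, nat_lit 18975624457, nat_lit 19054800091], nat_lit 0, nat_lit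 0, nat_lit 0, nat_lit 0, nat_lit 0, nat_lit 0, [], [nat_lit 49, nat_lit 40, nat_lit 80, nat_lit 80]⟩,
 zbF0, [⟨nat_lit 0, nat_lit 85, nat_lit 83, nat_lit 100, nat_lit 676518399⟩]⟩
noncomputable def p021_l112 : Lf2 := ⟨nat_lit 0, nat_lit 5, [nat_lit 4, nat_lit 5, nat_lit 5, nat_lit 20], false, nat_lit 0, nat_lit 0, nat_lit 0, nat_lit 0, ⟨nat_lit 1000, nat_lit 0, nat_lit 0, nat_lit 0, nat_lit 0, nat_lit 0, nat_lit 0, nat_lit 0, nat_lit 0, nat_lit 0, nat_lit 0, nat_lit 0, nat_lit 0, nat_lit 0, nat_lit 0, nat_lit 0, false, false⟩,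
 nat_lit 0, nat_lit 8883, nat_lit 0, nat_lit 0, nat_lit 6662, nat_lit 4939, nat_lit 481, nat_lit 0, nat_lit 0, nat_lit 1484, nat_lit 0, nat_lit 0, nat_lit 0, nat_lit 0, nat_lit 0, nat_lit 0, nat_lit 0, nat_lit 0, [],
 ⟨p021_k8, nat_lit 0, nat_lit 0, nat_lit 665, nat_lit 0, nat_lit 1318519, [nat_lit 2032000001, nat_lit 4688000000, nat_lit 6250000000], [], [nat_lit 32730876136, nat_lit 32769561316, nat_lit 32716618738, nat_lit 32757535807], nat_lit 1271250, nat_lit 1271250, nat_lit 904401, nat_lit 936251, nat_lit 0, nat_lit 0, [nat_lit 490000, nat_lit 1100000, nat_lit 1442500], [nat_lit 6, nat_lit 40, nat_lit 80, nat_lit 80, nat_lit 3, nat_lit 249, nat_lit 40, nat_lit 9]⟩, ⟨p021_k64, nat_lit 0, nat_lit 0, nat_lit 0, nat_lit 0, nat_lit 0, [nat_lit 3282000000, nat_lit 6250000000], [], [nat_lit 18886761441, nat_lit 18993722658, nat_lit 18925741144, nat_lit 19007593126], nat_lit 0, nat_lit 0,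 nat_lit 0, nat_lit 0, nat_lit 0, nat_lit 0, [], [nat_lit 49, nat_lit 40, nat_lit 80, nat_lit 80]⟩,
 zbF0, [⟨nat_lit 0, nat_lit 85, nat_lit 84, nat_lit 100, nat_lit 1110099304⟩]⟩
noncomputable def p021_l113 : Lf2 := ⟨nat_lit 0, nat_lit 5, [nat_lit 4, nat_lit 5, nat_lit 5, nat_lit 20], true, nat_lit 0, nat_lit 0, nat_lit 0, nat_lit 0, ⟨nat_lit 0, nat_lit 1000, nat_lit 0, nat_lit 7, nat_lit 211, nat_lit 0, nat_lit 0, nat_lit 0, nat_lit 0, nat_lit 0, nat_lit 0, nat_lit 0, nat_lit 0, nat_lit 0, nat_lit 0, nat_lit 5000000, false, false⟩,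
 nat_lit 0, nat_lit 0, nat_lit 0, nat_lit 0, nat_lit 0, nat_lit 0, nat_lit 0, nat_lit 0, nat_lit 349, nat_lit 0, nat_lit 0, nat_lit 0, nat_lit 0, nat_lit 0, nat_lit 0, nat_lit 400000, nat_lit 0, nat_lit 0, [(nat_lit 18, [(nat_lit 1, nat_lit 1000)])],
 ⟨p021_k8, nat_lit 0, nat_lit 0, nat_lit 0, nat_lit 0, nat_lit 1318519, [nat_lit 1398133334, nat_lit 1966666667, nat_lit 1960800000], [], [nat_lit 12586179672, nat_lit 12617391847, nat_lit 12674321072, nat_lit 12705438352], nat_lit 1271250, nat_lit 1271250, nat_lit 936251, nat_lit 968401, nat_lit 0, nat_lit 0, [nat_lit 490000, nat_lit 1100000, nat_lit 1442500], [nat_lit 6, nat_lit 40, nat_lit 80, nat_lit 80]⟩, C1.Rw.none,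
 ⟨nat_lit 4444, nat_lit 4473, ⟨.ofNat (nat_lit 523117), .ofNat (nat_lit 529914), .ofNat (nat_lit 524195), .ofNat (nat_lit 530993), .ofNat (nat_lit 523427), .ofNat (nat_lit 530207), .ofNat (nat_lit 524506), .ofNat (nat_lit 531286)⟩, ⟨.ofNat (nat_lit 0), .ofNat (nat_lit 0), .ofNat (nat_lit 0), .ofNat (nat_lit 0), .ofNat (nat_lit 0), .ofNat (nat_lit 0), .ofNat (nat_lit 0), .ofNat (nat_lit 0)⟩⟩, []⟩
noncomputable def p021_l114 : Lf2 := ⟨nat_lit 0, nat_lit 5, [nat_lit 4, nat_lit 5, nat_lit 5, nat_lit 20], false, nat_lit 0, nat_lit 0, nat_lit 0, nat_lit 0, ⟨nat_lit 1000, nat_lit 0, nat_lit 0, nat_lit 0, nat_lit 0, nat_lit 0, nat_lit 0, nat_lit 0, nat_lit 0, nat_lit 0, nat_lit 0, nat_lit 0, nat_lit 0, nat_lit 0, nat_lit 0, nat_lit 0, false, false⟩,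
 nat_lit 0, nat_lit 0, nat_lit 0, nat_lit 0, nat_lit 0, nat_lit 4939, nat_lit 0, nat_lit 0, nat_lit 466, nat_lit 1484, nat_lit 0, nat_lit 0, nat_lit 0, nat_lit 0, nat_lit 0, nat_lit 0, nat_lit 0, nat_lit 0, [],
 ⟨p021_k8, nat_lit 0, nat_lit 0, nat_lit 0, nat_lit 0, nat_lit 1318519, [nat_lit 2032000001, nat_lit 4688000000, nat_lit 6250000000], [], [nat_lit 14736727000, nat_lit 14762864725, nat_lit 14812848000, nat_lit 14840696561], nat_lit 1271250, nat_lit 1271250, nat_lit 936251, nat_lit 968401, nat_lit 0, nat_lit 0, [nat_lit 490000, nat_lit 1100000, nat_lit 1442500], [nat_lit 6, nat_lit 40, nat_lit 80, nat_lit 80]⟩, ⟨p021_k64, nat_lit 0, nat_lit 0, nat_lit 0, nat_lit 0, nat_lit 0, [nat_lit 3282000000, nat_lit 6250000000], [], [nat_lit 18925741144, nat_lit 19007593126, nat_lit 18965515339, nat_lit 19057606096], nat_lit 0, nat_lit 0, nat_lit 0, nat_lit 0, nat_lit 0, nat_lit 0, [], [nat_lit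 49, nat_lit 40, nat_lit 80, nat_lit 80]⟩,
 zbF0, [⟨nat_lit 13, nat_lit 99, nat_lit 2, nat_lit 100, nat_lit 20317952⟩]⟩
noncomputable def p021_l115 : Lf2 := ⟨nat_lit 0, nat_lit 5, [nat_lit 4, nat_lit 5, nat_lit 5, nat_lit 20], false, nat_lit 0, nat_lit 0, nat_lit 0, nat_lit 0, ⟨nat_lit 1000, nat_lit 0, nat_lit 0, nat_lit 0, nat_lit 0, nat_lit 0, nat_lit 0, nat_lit 0, nat_lit 0, nat_lit 0, nat_lit 0, nat_lit 0, nat_lit 0, nat_lit 0, nat_lit 0, nat_lit 0, false, false⟩,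
 nat_lit 0, nat_lit 0, nat_lit 0, nat_lit 0, nat_lit 0, nat_lit 4939, nat_lit 136, nat_lit 0, nat_lit 452, nat_lit 1484, nat_lit 0, nat_lit 0, nat_lit 0, nat_lit 0, nat_lit 0, nat_lit 0, nat_lit 0, nat_lit 0, [],
 ⟨p021_k8, nat_lit 0, nat_lit 0, nat_lit 0, nat_lit 0, nat_lit 1318519, [nat_lit 2032000001, nat_lit 4688000000, nat_lit 6250000000], [], [nat_lit 15455889000, nat_lit 15479642775, nat_lit 15527160800, nat_lit 15551108780], nat_lit 1271250, nat_lit 1271250, nat_lit 936251, nat_lit 968401, nat_lit 0, nat_lit 0, [nat_lit 490000, nat_lit 1100000, nat_lit 1442500], [nat_lit 6, nat_lit 40, nat_lit 80, nat_lit 80]⟩, ⟨p021_k64, nat_lit 0, nat_lit 0, nat_lit 0, nat_lit 0, nat_lit 0, [nat_lit 3282000000, nat_lit 6250000000], [], [nat_lit 18925741144, nat_lit 19007593126, nat_lit 18965515339, nat_lit 19057606096], nat_lit 0, nat_lit 0, nat_lit 0, nat_lit 0, nat_lit 0, nat_lit 0, [], [nat_lit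 49, nat_lit 40, nat_lit 80, nat_lit 80]⟩,
 zbF0, [⟨nat_lit 0, nat_lit 85, nat_lit 84, nat_lit 100, nat_lit 78521629⟩]⟩
noncomputable def p021_l116 : Lf2 := ⟨nat_lit 0, nat_lit 5, [nat_lit 4, nat_lit 5, nat_lit 5, nat_lit 20], false, nat_lit 0, nat_lit 0, nat_lit 0, nat_lit 0, ⟨nat_lit 1000, nat_lit 0, nat_lit 0, nat_lit 0, nat_lit 0, nat_lit 0, nat_lit 0, nat_lit 0, nat_lit 0, nat_lit 0, nat_lit 0, nat_lit 0, nat_lit 0, nat_lit 0, nat_lit 0, nat_lit 0, false, false⟩,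
 nat_lit 0, nat_lit 8871, nat_lit 0, nat_lit 0, nat_lit 6653, nat_lit 4034, nat_lit 480, nat_lit 0, nat_lit 0, nat_lit 1500, nat_lit 0, nat_lit 0, nat_lit 0, nat_lit 0, nat_lit 0, nat_lit 0, nat_lit 0, nat_lit 0, [],
 ⟨p021_k8, nat_lit 0, nat_lit 0, nat_lit 664, nat_lit 0, nat_lit 1318519, [nat_lit 2032000001, nat_lit 4688000000, nat_lit 6250000000], [], [nat_lit 32770149586, nat_lit 32805499965, nat_lit 32756870106, nat_lit 32792013295], nat_lit 1271250, nat_lit 1271250, nat_lit 936251, nat_lit 968401, nat_lit 0, nat_lit 0, [nat_lit 490000, nat_lit 1100000, nat_lit 1442500], [nat_lit 6, nat_lit 40, nat_lit 80, nat_lit 80, nat_lit 3, nat_lit 249, nat_lit 40, nat_lit 9]⟩, ⟨p021_k65, nat_lit 0, nat_lit 0, nat_lit 0, nat_lit 0, nat_lit 0, [nat_lit 2032000000, nat_lit 3282000000, nat_lit 4688000000, nat_lit 6250000000], [], [nat_lit 18259349032, nat_lit 18335265515, nat_lit 18309409091, nat_lit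 18384891866], nat_lit 0, nat_lit 0, nat_lit 0, nat_lit 0, nat_lit 0, nat_lit 0, [], [nat_lit 127, nat_lit 40, nat_lit 80, nat_lit 80]⟩,
 zbF0, [⟨nat_lit 0, nat_lit 85, nat_lit 83, nat_lit 100, nat_lit 662700692⟩]⟩
noncomputable def p021_l117 : Lf2 := ⟨nat_lit 0, nat_lit 5, [nat_lit 4, nat_lit 5, nat_lit 5, nat_lit 20], false, nat_lit 0, nat_lit 0, nat_lit 0, nat_lit 0, ⟨nat_lit 1000, nat_lit 0, nat_lit 0, nat_lit 0, nat_lit 0, nat_lit 0, nat_lit 0, nat_lit 0, nat_lit 0, nat_lit 0, nat_lit 0, nat_lit 0, nat_lit 0, nat_lit 0, nat_lit 0, nat_lit 0, false, false⟩,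
 nat_lit 0, nat_lit 13073, nat_lit 0, nat_lit 0, nat_lit 9804, nat_lit 100000, nat_lit 481, nat_lit 0, nat_lit 0, nat_lit 19382, nat_lit 7819, nat_lit 0, nat_lit 0, nat_lit 0, nat_lit 0, nat_lit 0, nat_lit 0, nat_lit 0, [],
 ⟨p021_k8, nat_lit 0, nat_lit 0, nat_lit 664, nat_lit 0, nat_lit 1318519, [nat_lit 2032000001, nat_lit 4688000000, nat_lit 6250000000], [], [nat_lit 16981055036, nat_lit 17037075266, nat_lit 16933848948, nat_lit 16993400326], nat_lit 1271250, nat_lit 1271250, nat_lit 936251, nat_lit 968401, nat_lit 0, nat_lit 0, [nat_lit 490000, nat_lit 1100000, nat_lit 1442500], [nat_lit 6, nat_lit 40, nat_lit 80, nat_lit 80, nat_lit 3, nat_lit 249, nat_lit 40, nat_lit 9]⟩, ⟨p021_k64, nat_lit 0, nat_lit 0, nat_lit 0, nat_lit 0, nat_lit 0, [nat_lit 97110000000, nat_lit 162630000000], [], [nat_lit 120499119451, nat_lit 121716599051, nat_lit 119256492991, nat_lit 120547067700], nat_lit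 0, nat_lit 0, nat_lit 0, nat_lit 0, nat_lit 0, nat_lit 0, [], [nat_lit 49, nat_lit 40, nat_lit 80, nat_lit 80]⟩,
 zbF0, [⟨nat_lit 0, nat_lit 85, nat_lit 83, nat_lit 100, nat_lit 2748418456⟩, ⟨nat_lit 0, nat_lit 85, nat_lit 84, nat_lit 100, nat_lit 14005602241⟩]⟩
noncomputable def p021_l118 : Lf2 := ⟨nat_lit 3, nat_lit 5, [nat_lit 4, nat_lit 5, nat_lit 5, nat_lit 20], false, nat_lit 0, nat_lit 0, nat_lit 0, nat_lit 0, zbN0,
 nat_lit 0, nat_lit 0, nat_lit 0, nat_lit 0, nat_lit 0, nat_lit 0, nat_lit 0, nat_lit 0, nat_lit 0, nat_lit 0, nat_lit 0, nat_lit 0, nat_lit 0, nat_lit 0, nat_lit 0, nat_lit 0, nat_lit 0, nat_lit 0, [],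
 C1.Rw.none, ⟨p021_k64, nat_lit 0, nat_lit 0, nat_lit 0, nat_lit 0, nat_lit 0, [], [], [], nat_lit 0, nat_lit 0, nat_lit 0, nat_lit 0, nat_lit 0, nat_lit 0, [], [nat_lit 49, nat_lit 40, nat_lit 80, nat_lit 80]⟩,
 zbF0, []⟩
noncomputable def p021_l119 : Lf2 := ⟨nat_lit 0, nat_lit 5, [nat_lit 4, nat_lit 5, nat_lit 5, nat_lit 20], false, nat_lit 0, nat_lit 0, nat_lit 0, nat_lit 0, ⟨nat_lit 1000, nat_lit 0, nat_lit 0, nat_lit 0, nat_lit 0, nat_lit 0, nat_lit 0, nat_lit 0, nat_lit 0, nat_lit 0, nat_lit 0, nat_lit 0, nat_lit 0, nat_lit 0, nat_lit 0, nat_lit 0, false, false⟩,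
 nat_lit 0, nat_lit 8871, nat_lit 0, nat_lit 0, nat_lit 6653, nat_lit 4955, nat_lit 479, nat_lit 0, nat_lit 0, nat_lit 1480, nat_lit 0, nat_lit 0, nat_lit 0, nat_lit 0, nat_lit 0, nat_lit 0, nat_lit 0, nat_lit 0, [],
 ⟨p021_k8, nat_lit 0, nat_lit 0, nat_lit 662, nat_lit 0, nat_lit 1318519, [nat_lit 2032000001, nat_lit 4688000000, nat_lit 6250000000], [], [nat_lit 32756870106, nat_lit 32792013295, nat_lit 32730311144, nat_lit 32770091588], nat_lit 1271250, nat_lit 1271250, nat_lit 968401, nat_lit 1033601, nat_lit 0, nat_lit 0, [nat_lit 490000, nat_lit 1100000, nat_lit 1442500], [nat_lit 6, nat_lit 40, nat_lit 80, nat_lit 80, nat_lit 3, nat_lit 249, nat_lit 40, nat_lit 9]⟩, ⟨p021_k64, nat_lit 0, nat_lit 0, nat_lit 0, nat_lit 0, nat_lit 0, [nat_lit 3282000000, nat_lit 6250000000], [], [nat_lit 18963483782, nat_lit 19043637415, nat_lit 19051441401, nat_lit 19142584990], nat_lit 0, nat_lit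 0, nat_lit 0, nat_lit 0, nat_lit 0, nat_lit 0, [], [nat_lit 49, nat_lit 40, nat_lit 80, nat_lit 80]⟩,
 zbF0, []⟩
noncomputable def p021_l120 : Lf2 := ⟨nat_lit 0, nat_lit 5, [nat_lit 4, nat_lit 5, nat_lit 5, nat_lit 20], true, nat_lit 0, nat_lit 0, nat_lit 0, nat_lit 0, ⟨nat_lit 0, nat_lit 1000, nat_lit 0, nat_lit 7, nat_lit 211, nat_lit 0, nat_lit 0, nat_lit 0, nat_lit 0, nat_lit 0, nat_lit 0, nat_lit 0, nat_lit 0, nat_lit 0, nat_lit 0, nat_lit 5000000, false, false⟩,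
 nat_lit 0, nat_lit 0, nat_lit 0, nat_lit 0, nat_lit 0, nat_lit 0, nat_lit 0, nat_lit 0, nat_lit 349, nat_lit 0, nat_lit 0, nat_lit 0, nat_lit 0, nat_lit 0, nat_lit 0, nat_lit 400000, nat_lit 0, nat_lit 0, [(nat_lit 18, [(nat_lit 1, nat_lit 1000)])],
 ⟨p021_k8, nat_lit 0, nat_lit 0, nat_lit 0, nat_lit 0, nat_lit 1327215, [nat_lit 1398133334, nat_lit 1966666667, nat_lit 1960800000], [], [nat_lit 12586179672, nat_lit 12617391847, nat_lit 12674321072, nat_lit 12705438352], nat_lit 1271250, nat_lit 1271250, nat_lit 936251, nat_lit 968401, nat_lit 0, nat_lit 0, [nat_lit 490000, nat_lit 1100000, nat_lit 1442500], [nat_lit 6, nat_lit 40, nat_lit 80, nat_lit 80]⟩, C1.Rw.none,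
 ⟨nat_lit 4444, nat_lit 4473, ⟨.ofNat (nat_lit 524195), .ofNat (nat_lit 530993), .ofNat (nat_lit 525273), .ofNat (nat_lit 532071), .ofNat (nat_lit 524506), .ofNat (nat_lit 531286), .ofNat (nat_lit 525584), .ofNat (nat_lit 532365)⟩, ⟨.ofNat (nat_lit 0), .ofNat (nat_lit 0), .ofNat (nat_lit 0), .ofNat (nat_lit 0), .ofNat (nat_lit 0), .ofNat (nat_lit 0), .ofNat (nat_lit 0), .ofNat (nat_lit 0)⟩⟩, []⟩
noncomputable def p021_l121 : Lf2 := ⟨nat_lit 0, nat_lit 5, [nat_lit 4, nat_lit 5, nat_lit 5, nat_lit 20], false, nat_lit 0, nat_lit 0, nat_lit 0, nat_lit 0, ⟨nat_lit 1000, nat_lit 0, nat_lit 0, nat_lit 0, nat_lit 0, nat_lit 0, nat_lit 0, nat_lit 0, nat_lit 0, nat_lit 0, nat_lit 0, nat_lit 0, nat_lit 0, nat_lit 0, nat_lit 0, nat_lit 0, false, false⟩,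
 nat_lit 0, nat_lit 0, nat_lit 0, nat_lit 0, nat_lit 0, nat_lit 4929, nat_lit 0, nat_lit 0, nat_lit 466, nat_lit 1441, nat_lit 0, nat_lit 0, nat_lit 0, nat_lit 0, nat_lit 0, nat_lit 0, nat_lit 0, nat_lit 0, [],
 ⟨p021_k8, nat_lit 0, nat_lit 0, nat_lit 0, nat_lit 0, nat_lit 1327215, [nat_lit 2032000001, nat_lit 4688000000, nat_lit 6250000000], [], [nat_lit 14736727000, nat_lit 14762864725, nat_lit 14812848000, nat_lit 14840696561], nat_lit 1271250, nat_lit 1271250, nat_lit 936251, nat_lit 968401, nat_lit 0, nat_lit 0, [nat_lit 490000, nat_lit 1100000, nat_lit 1442500], [nat_lit 6, nat_lit 40, nat_lit 80, nat_lit 80]⟩, ⟨p021_k66, nat_lit 0, nat_lit 0, nat_lit 0, nat_lit 0, nat_lit 0, [nat_lit 3282000000, nat_lit 6250000000], [], [nat_lit 19027400756, nat_lit 19109242955, nat_lit 19066814007, nat_lit 19158795197], nat_lit 0, nat_lit 0, nat_lit 0, nat_lit 0, nat_lit 0, nat_lit 0, [], [nat_lit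 49, nat_lit 40, nat_lit 80, nat_lit 80]⟩,
 zbF0, [⟨nat_lit 13, nat_lit 99, nat_lit 2, nat_lit 100, nat_lit 21323140⟩]⟩
noncomputable def p021_l122 : Lf2 := ⟨nat_lit 0, nat_lit 5, [nat_lit 4, nat_lit 5, nat_lit 5, nat_lit 20], false, nat_lit 0, nat_lit 0, nat_lit 0, nat_lit 0, ⟨nat_lit 1000, nat_lit 0, nat_lit 0, nat_lit 0, nat_lit 0, nat_lit 0, nat_lit 0, nat_lit 0, nat_lit 0, nat_lit 0, nat_lit 0, nat_lit 0, nat_lit 0, nat_lit 0, nat_lit 0, nat_lit 0, false, false⟩,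
 nat_lit 0, nat_lit 0, nat_lit 0, nat_lit 0, nat_lit 0, nat_lit 4944, nat_lit 136, nat_lit 0, nat_lit 452, nat_lit 1441, nat_lit 0, nat_lit 0, nat_lit 0, nat_lit 0, nat_lit 0, nat_lit 0, nat_lit 0, nat_lit 0, [],
 ⟨p021_k8, nat_lit 0, nat_lit 0, nat_lit 0, nat_lit 0, nat_lit 1327215, [nat_lit 2032000001, nat_lit 4688000000, nat_lit 6250000000], [], [nat_lit 15455889000, nat_lit 15479642775, nat_lit 15527160800, nat_lit 15551108780], nat_lit 1271250, nat_lit 1271250, nat_lit 936251, nat_lit 968401, nat_lit 0, nat_lit 0, [nat_lit 490000, nat_lit 1100000, nat_lit 1442500], [nat_lit 6, nat_lit 40, nat_lit 80, nat_lit 80]⟩, ⟨p021_k66, nat_lit 0, nat_lit 0, nat_lit 0, nat_lit 0, nat_lit 0, [nat_lit 3282000000, nat_lit 6250000000], [], [nat_lit 19013713017, nat_lit 19128051826, nat_lit 19053002141, nat_lit 19145147682], nat_lit 0, nat_lit 0, nat_lit 0, nat_lit 0, nat_lit 0, nat_lit 0, [], [nat_lit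 49, nat_lit 40, nat_lit 80, nat_lit 80]⟩,
 zbF0, [⟨nat_lit 0, nat_lit 85, nat_lit 84, nat_lit 100, nat_lit 526649393⟩]⟩
noncomputable def p021_l123 : Lf2 := ⟨nat_lit 0, nat_lit 5, [nat_lit 4, nat_lit 5, nat_lit 5, nat_lit 20], false, nat_lit 0, nat_lit 0, nat_lit 0, nat_lit 0, ⟨nat_lit 1000, nat_lit 0, nat_lit 0, nat_lit 0, nat_lit 0, nat_lit 0, nat_lit 0, nat_lit 0, nat_lit 0, nat_lit 0, nat_lit 0, nat_lit 0, nat_lit 0, nat_lit 0, nat_lit 0, nat_lit 0, false, false⟩,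
 nat_lit 0, nat_lit 8871, nat_lit 0, nat_lit 0, nat_lit 6653, nat_lit 4038, nat_lit 479, nat_lit 0, nat_lit 0, nat_lit 1462, nat_lit 0, nat_lit 0, nat_lit 0, nat_lit 0, nat_lit 0, nat_lit 0, nat_lit 0, nat_lit 0, [],
 ⟨p021_k8, nat_lit 0, nat_lit 0, nat_lit 667, nat_lit 0, nat_lit 1327215, [nat_lit 2032000001, nat_lit 4688000000, nat_lit 6250000000], [], [nat_lit 32770149586, nat_lit 32807419631, nat_lit 32756870106, nat_lit 32792013295], nat_lit 1271250, nat_lit 1271250, nat_lit 936251, nat_lit 968401, nat_lit 0, nat_lit 0, [nat_lit 490000, nat_lit 1100000, nat_lit 1442500], [nat_lit 6, nat_lit 40, nat_lit 80, nat_lit 80, nat_lit 3, nat_lit 249, nat_lit 40, nat_lit 9]⟩, ⟨p021_k67, nat_lit 0, nat_lit 0, nat_lit 0, nat_lit 0, nat_lit 0, [nat_lit 2032000000, nat_lit 3282000000, nat_lit 4688000000, nat_lit 6250000000], [], [nat_lit 18355039074, nat_lit 18435499835, nat_lit 18401647740, nat_lit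 18477169354], nat_lit 0, nat_lit 0, nat_lit 0, nat_lit 0, nat_lit 0, nat_lit 0, [], [nat_lit 127, nat_lit 40, nat_lit 80, nat_lit 80]⟩,
 zbF0, [⟨nat_lit 0, nat_lit 84, nat_lit 83, nat_lit 100, nat_lit 688118395⟩]⟩
noncomputable def p021_l124 : Lf2 := ⟨nat_lit 0, nat_lit 5, [nat_lit 4, nat_lit 5, nat_lit 5, nat_lit 20], false, nat_lit 0, nat_lit 0, nat_lit 0, nat_lit 0, ⟨nat_lit 1000, nat_lit 0, nat_lit 0, nat_lit 0, nat_lit 0, nat_lit 0, nat_lit 0, nat_lit 0, nat_lit 0, nat_lit 0, nat_lit 0, nat_lit 0, nat_lit 0, nat_lit 0, nat_lit 0, nat_lit 0, false, false⟩,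
 nat_lit 0, nat_lit 12735, nat_lit 0, nat_lit 0, nat_lit 9551, nat_lit 100000, nat_lit 438, nat_lit 0, nat_lit 0, nat_lit 18830, nat_lit 7830, nat_lit 0, nat_lit 0, nat_lit 0, nat_lit 0, nat_lit 0, nat_lit 0, nat_lit 0, [],
 ⟨p021_k8, nat_lit 0, nat_lit 0, nat_lit 667, nat_lit 0, nat_lit 1327215, [nat_lit 2032000001, nat_lit 4688000000, nat_lit 6250000000], [], [nat_lit 18254612000, nat_lit 18300139661, nat_lit 18203228373, nat_lit 18256143019], nat_lit 1271250, nat_lit 1271250, nat_lit 936251, nat_lit 968401, nat_lit 0, nat_lit 0, [nat_lit 490000, nat_lit 1100000, nat_lit 1442500], [nat_lit 6, nat_lit 40, nat_lit 80, nat_lit 80, nat_lit 3, nat_lit 249, nat_lit 40, nat_lit 9]⟩, ⟨p021_k66, nat_lit 0, nat_lit 0, nat_lit 0, nat_lit 0, nat_lit 0, [nat_lit 97242000000, nat_lit 162850000000], [], [nat_lit 121932096776, nat_lit 123156859700, nat_lit 120679067700, nat_lit 121977662200], nat_lit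 0, nat_lit 0, nat_lit 0, nat_lit 0, nat_lit 0, nat_lit 0, [], [nat_lit 49, nat_lit 40, nat_lit 80, nat_lit 80]⟩,
 zbF0, [⟨nat_lit 0, nat_lit 85, nat_lit 83, nat_lit 100, nat_lit 7765183395⟩, ⟨nat_lit 0, nat_lit 85, nat_lit 84, nat_lit 100, nat_lit 14005602241⟩]⟩
noncomputable def p021_l125 : Lf2 := ⟨nat_lit 3, nat_lit 5, [nat_lit 4, nat_lit 5, nat_lit 5, nat_lit 20], false, nat_lit 0, nat_lit 0, nat_lit 0, nat_lit 0, zbN0,
 nat_lit 0, nat_lit 0, nat_lit 0, nat_lit 0, nat_lit 0, nat_lit 0, nat_lit 0, nat_lit 0, nat_lit 0, nat_lit 0, nat_lit 0, nat_lit 0, nat_lit 0, nat_lit 0, nat_lit 0, nat_lit 0, nat_lit 0, nat_lit 0, [],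
 C1.Rw.none, ⟨p021_k66, nat_lit 0, nat_lit 0, nat_lit 0, nat_lit 0, nat_lit 0, [], [], [], nat_lit 0, nat_lit 0, nat_lit 0, nat_lit 0, nat_lit 0, nat_lit 0, [], [nat_lit 49, nat_lit 40, nat_lit 80, nat_lit 80]⟩,
 zbF0, []⟩
noncomputable def p021_l126 : Lf2 := ⟨nat_lit 0, nat_lit 5, [nat_lit 4, nat_lit 5, nat_lit 5, nat_lit 20], true, nat_lit 0, nat_lit 0, nat_lit 0, nat_lit 0, ⟨nat_lit 0, nat_lit 1000, nat_lit 0, nat_lit 7, nat_lit 214, nat_lit 0, nat_lit 0, nat_lit 0, nat_lit 0, nat_lit 0, nat_lit 0, nat_lit 0, nat_lit 0, nat_lit 0, nat_lit 0, nat_lit 5000000, false, false⟩,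
 nat_lit 0, nat_lit 0, nat_lit 0, nat_lit 0, nat_lit 0, nat_lit 0, nat_lit 0, nat_lit 0, nat_lit 349, nat_lit 0, nat_lit 0, nat_lit 0, nat_lit 0, nat_lit 0, nat_lit 0, nat_lit 400000, nat_lit 0, nat_lit 0, [(nat_lit 18, [(nat_lit 1, nat_lit 1000)])],
 ⟨p021_k8, nat_lit 0, nat_lit 0, nat_lit 0, nat_lit 0, nat_lit 1327215, [nat_lit 1398133334, nat_lit 1966666667, nat_lit 1960800000], [], [nat_lit 12674321072, nat_lit 12705438352, nat_lit 12762462472, nat_lit 12796230555], nat_lit 1271250, nat_lit 1271250, nat_lit 968401, nat_lit 1000851, nat_lit 0, nat_lit 0, [nat_lit 490000, nat_lit 1100000, nat_lit 1442500], [nat_lit 6, nat_lit 40, nat_lit 80, nat_lit 80]⟩, C1.Rw.none,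
 ⟨nat_lit 4444, nat_lit 4473, ⟨.ofNat (nat_lit 530993), .ofNat (nat_lit 537791), .ofNat (nat_lit 532071), .ofNat (nat_lit 538869), .ofNat (nat_lit 531286), .ofNat (nat_lit 538067), .ofNat (nat_lit 532365), .ofNat (nat_lit 539146)⟩, ⟨.ofNat (nat_lit 0), .ofNat (nat_lit 0), .ofNat (nat_lit 0), .ofNat (nat_lit 0), .ofNat (nat_lit 0), .ofNat (nat_lit 0), .ofNat (nat_lit 0), .ofNat (nat_lit 0)⟩⟩, []⟩
noncomputable def p021_l127 : Lf2 := ⟨nat_lit 0, nat_lit 5, [nat_lit 4, nat_lit 5, nat_lit 5, nat_lit 20], false, nat_lit 0, nat_lit 0, nat_lit 0, nat_lit 0, ⟨nat_lit 1000, nat_lit 0, nat_lit 0, nat_lit 0, nat_lit 0, nat_lit 0, nat_lit 0, nat_lit 0, nat_lit 0, nat_lit 0, nat_lit 0, nat_lit 0, nat_lit 0, nat_lit 0, nat_lit 0, nat_lit 0, false, false⟩,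
 nat_lit 0, nat_lit 0, nat_lit 0, nat_lit 0, nat_lit 0, nat_lit 3391, nat_lit 0, nat_lit 0, nat_lit 466, nat_lit 1440, nat_lit 0, nat_lit 0, nat_lit 0, nat_lit 0, nat_lit 0, nat_lit 0, nat_lit 0, nat_lit 0, [],
 ⟨p021_k8, nat_lit 0, nat_lit 0, nat_lit 0, nat_lit 0, nat_lit 1327215, [nat_lit 2032000001, nat_lit 4688000000, nat_lit 6250000000], [], [nat_lit 14812848000, nat_lit 14840696561, nat_lit 14893243600, nat_lit 14921704820], nat_lit 1271250, nat_lit 1271250, nat_lit 968401, nat_lit 1000851, nat_lit 0, nat_lit 0, [nat_lit 490000, nat_lit 1100000, nat_lit 1442500], [nat_lit 6, nat_lit 40, nat_lit 80, nat_lit 80]⟩, ⟨p021_k66, nat_lit 0, nat_lit 0, nat_lit 0, nat_lit 0, nat_lit 0, [nat_lit 3282000000, nat_lit 6250000000], [], [nat_lit 20490218659, nat_lit 20558120381, nat_lit 20548212263, nat_lit 20622916849], nat_lit 0, nat_lit 0, nat_lit 0, nat_lit 0, nat_lit 0, nat_lit 0, [], [nat_lit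 49, nat_lit 40, nat_lit 80, nat_lit 80]⟩,
 zbF0, []⟩
noncomputable def p021_l128 : Lf2 := ⟨nat_lit 0, nat_lit 5, [nat_lit 4, nat_lit 5, nat_lit 5, nat_lit 20], false, nat_lit 0, nat_lit 0, nat_lit 0, nat_lit 0, ⟨nat_lit 1000, nat_lit 0, nat_lit 0, nat_lit 0, nat_lit 0, nat_lit 0, nat_lit 0, nat_lit 0, nat_lit 0, nat_lit 0, nat_lit 0, nat_lit 0, nat_lit 0, nat_lit 0, nat_lit 0, nat_lit 0, false, false⟩,
 nat_lit 0, nat_lit 0, nat_lit 0, nat_lit 0, nat_lit 0, nat_lit 4946, nat_lit 136, nat_lit 0, nat_lit 452, nat_lit 1437, nat_lit 0, nat_lit 0, nat_lit 0, nat_lit 0, nat_lit 0, nat_lit 0, nat_lit 0, nat_lit 0, [],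
 ⟨p021_k8, nat_lit 0, nat_lit 0, nat_lit 0, nat_lit 0, nat_lit 1327215, [nat_lit 2032000001, nat_lit 4688000000, nat_lit 6250000000], [], [nat_lit 15527160800, nat_lit 15551108780, nat_lit 15599471400, nat_lit 15624006135], nat_lit 1271250, nat_lit 1271250, nat_lit 968401, nat_lit 1000851, nat_lit 0, nat_lit 0, [nat_lit 490000, nat_lit 1100000, nat_lit 1442500], [nat_lit 6, nat_lit 40, nat_lit 80, nat_lit 80]⟩, ⟨p021_k66, nat_lit 0, nat_lit 0, nat_lit 0, nat_lit 0, nat_lit 0, [nat_lit 3282000000, nat_lit 6250000000], [], [nat_lit 19064372817, nat_lit 19144444910, nat_lit 19102795149, nat_lit 19192711757], nat_lit 0, nat_lit 0, nat_lit 0, nat_lit 0, nat_lit 0, nat_lit 0, [], [nat_lit 49, nat_lit 40, nat_lit 80, nat_lit 80]⟩,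
 zbF0, []⟩
noncomputable def p021_l129 : Lf2 := ⟨nat_lit 0, nat_lit 5, [nat_lit 4, nat_lit 5, nat_lit 5, nat_lit 20], false, nat_lit 0, nat_lit 0, nat_lit 0, nat_lit 0, ⟨nat_lit 1000, nat_lit 0, nat_lit 0, nat_lit 0, nat_lit 0, nat_lit 0, nat_lit 0, nat_lit 0, nat_lit 0, nat_lit 0, nat_lit 0, nat_lit 0, nat_lit 0, nat_lit 0, nat_lit 0, nat_lit 0, false, false⟩,
 nat_lit 0, nat_lit 8871, nat_lit 0, nat_lit 0, nat_lit 6653, nat_lit 4038, nat_lit 479, nat_lit 0, nat_lit 0, nat_lit 1462, nat_lit 0, nat_lit 0, nat_lit 0, nat_lit 0, nat_lit 0, nat_lit 0, nat_lit 0, nat_lit 0, [],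
 ⟨p021_k8, nat_lit 0, nat_lit 0, nat_lit 666, nat_lit 0, nat_lit 1327215, [nat_lit 2032000001, nat_lit 4688000000, nat_lit 6250000000], [], [nat_lit 32756870106, nat_lit 32792013295, nat_lit 32743590625, nat_lit 32780922119], nat_lit 1271250, nat_lit 1271250, nat_lit 968401, nat_lit 1000851, nat_lit 0, nat_lit 0, [nat_lit 490000, nat_lit 1100000, nat_lit 1442500], [nat_lit 6, nat_lit 40, nat_lit 80, nat_lit 80, nat_lit 3, nat_lit 249, nat_lit 40, nat_lit 9]⟩, ⟨p021_k67, nat_lit 0, nat_lit 0, nat_lit 0, nat_lit 0, nat_lit 0, [nat_lit 2032000000, nat_lit 3282000000, nat_lit 4688000000, nat_lit 6250000000], [], [nat_lit 18401647740, nat_lit 18477169354, nat_lit 18451228747, nat_lit 18526316341], nat_lit 0, nat_lit 0, nat_lit 0, nat_lit 0, nat_lit 0, nat_lit 0, [], [nat_lit 127, nat_lit 40, nat_lit 80, nat_lit 80]⟩,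
 zbF0, []⟩
noncomputable def p021_l130 : Lf2 := ⟨nat_lit 0, nat_lit 5, [nat_lit 4, nat_lit 5, nat_lit 5, nat_lit 20], false, nat_lit 0, nat_lit 0, nat_lit 0, nat_lit 0, ⟨nat_lit 1000, nat_lit 0, nat_lit 0, nat_lit 0, nat_lit 0, nat_lit 0, nat_lit 0, nat_lit 0, nat_lit 0, nat_lit 0, nat_lit 0, nat_lit 0, nat_lit 0, nat_lit 0, nat_lit 0, nat_lit 0, false, false⟩,
 nat_lit 0, nat_lit 0, nat_lit 0, nat_lit 0, nat_lit 0, nat_lit 100000, nat_lit 0, nat_lit 0, nat_lit 0, nat_lit 17046, nat_lit 7811, nat_lit 0, nat_lit 0, nat_lit 0, nat_lit 0, nat_lit 0, nat_lit 0, nat_lit 0, [],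
 ⟨p021_k8, nat_lit 0, nat_lit 0, nat_lit 666, nat_lit 0, nat_lit 1327215, [nat_lit 2032000001, nat_lit 4688000000, nat_lit 6250000000], [], [nat_lit 74667166402, nat_lit 74687840982, nat_lit 74731201802, nat_lit 74751833312], nat_lit 1271250, nat_lit 1271250, nat_lit 968401, nat_lit 1000851, nat_lit 0, nat_lit 0, [nat_lit 490000, nat_lit 1100000, nat_lit 1442500], [nat_lit 6, nat_lit 40, nat_lit 80, nat_lit 80, nat_lit 3, nat_lit 249, nat_lit 40, nat_lit 9]⟩, ⟨p021_k66, nat_lit 0, nat_lit 0, nat_lit 0, nat_lit 0, nat_lit 0, [nat_lit 97014000000, nat_lit 162470000000], [], [nat_lit 126568782510, nat_lit 127649909490, nat_lit 125313593246, nat_lit 126386432381], nat_lit 0, nat_lit 0, nat_lit 0, nat_lit 0, nat_lit 0, nat_lit 0, [], [nat_lit 49, nat_lit 40, nat_lit 80, nat_lit 80]⟩,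
 zbF0, []⟩
noncomputable def p021_l131 : Lf2 := ⟨nat_lit 3, nat_lit 5, [nat_lit 4, nat_lit 5, nat_lit 5, nat_lit 20], false, nat_lit 0, nat_lit 0, nat_lit 0, nat_lit 0, zbN0,
 nat_lit 0, nat_lit 0, nat_lit 0, nat_lit 0, nat_lit 0, nat_lit 0, nat_lit 0, nat_lit 0, nat_lit 0, nat_lit 0, nat_lit 0, nat_lit 0, nat_lit 0, nat_lit 0, nat_lit 0, nat_lit 0, nat_lit 0, nat_lit 0, [],
 C1.Rw.none, ⟨p021_k66, nat_lit 0, nat_lit 0, nat_lit 0, nat_lit 0, nat_lit 0, [], [], [], nat_lit 0, nat_lit 0, nat_lit 0, nat_lit 0, nat_lit 0, nat_lit 0, [], [nat_lit 49, nat_lit 40, nat_lit 80, nat_lit 80]⟩,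
 zbF0, []⟩
noncomputable def p021_l132 : Lf2 := ⟨nat_lit 0, nat_lit 5, [nat_lit 4, nat_lit 5, nat_lit 5, nat_lit 20], false, nat_lit 0, nat_lit 0, nat_lit 0, nat_lit 0, ⟨nat_lit 1000, nat_lit 0, nat_lit 0, nat_lit 0, nat_lit 0, nat_lit 0, nat_lit 0, nat_lit 0, nat_lit 0, nat_lit 0, nat_lit 0, nat_lit 0, nat_lit 0, nat_lit 0, nat_lit 0, nat_lit 0, false, false⟩,
 nat_lit 0, nat_lit 8867, nat_lit 0, nat_lit 0, nat_lit 6650, nat_lit 4962, nat_lit 478, nat_lit 0, nat_lit 0, nat_lit 1434, nat_lit 0, nat_lit 0, nat_lit 0, nat_lit 0, nat_lit 0, nat_lit 0, nat_lit 0, nat_lit 0, [],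
 ⟨p021_k8, nat_lit 0, nat_lit 0, nat_lit 664, nat_lit 0, nat_lit 1327215, [nat_lit 2032000001, nat_lit 4688000000, nat_lit 6250000000], [], [nat_lit 32761505122, nat_lit 32796434890, nat_lit 32748261083, nat_lit 32785214944], nat_lit 1271250, nat_lit 1271250, nat_lit 1000851, nat_lit 1033601, nat_lit 0, nat_lit 0, [nat_lit 490000, nat_lit 1100000, nat_lit 1442500], [nat_lit 6, nat_lit 40, nat_lit 80, nat_lit 80, nat_lit 3, nat_lit 249, nat_lit 40, nat_lit 9]⟩, ⟨p021_k66, nat_lit 0, nat_lit 0, nat_lit 0, nat_lit 0, nat_lit 0, [nat_lit 3282000000, nat_lit 6250000000], [], [nat_lit 19098383072, nat_lit 19178119522, nat_lit 19136626055, nat_lit 19227220975], nat_lit 0, nat_lit 0, nat_lit 0, nat_lit 0, nat_lit 0, nat_lit 0, [], [nat_lit 49, nat_lit 40, nat_lit 80, nat_lit 80]⟩,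
 zbF0, []⟩
noncomputable def p021_l133 : Lf2 := ⟨nat_lit 0, nat_lit 5, [nat_lit 4, nat_lit 5, nat_lit 5, nat_lit 20], true, nat_lit 0, nat_lit 0, nat_lit 0, nat_lit 0, ⟨nat_lit 0, nat_lit 1000, nat_lit 0, nat_lit 7, nat_lit 212, nat_lit 0, nat_lit 0, nat_lit 0, nat_lit 0, nat_lit 0, nat_lit 0, nat_lit 0, nat_lit 0, nat_lit 0, nat_lit 0, nat_lit 5000000, false, false⟩,
 nat_lit 0, nat_lit 0, nat_lit 0, nat_lit 0, nat_lit 0, nat_lit 0, nat_lit 0, nat_lit 0, nat_lit 349, nat_lit 0, nat_lit 0, nat_lit 0, nat_lit 0, nat_lit 0, nat_lit 0, nat_lit 400000, nat_lit 0, nat_lit 0, [(nat_lit 18, [(nat_lit 1, nat_lit 1000)])],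
 ⟨p021_k8, nat_lit 0, nat_lit 0, nat_lit 0, nat_lit 0, nat_lit 1335933, [nat_lit 1398133334, nat_lit 1966666667, nat_lit 1960800000], [], [nat_lit 12586179672, nat_lit 12617391847, nat_lit 12674321072, nat_lit 12705438352], nat_lit 1271250, nat_lit 1271250, nat_lit 936251, nat_lit 968401, nat_lit 0, nat_lit 0, [nat_lit 490000, nat_lit 1100000, nat_lit 1442500], [nat_lit 6, nat_lit 40, nat_lit 80, nat_lit 80]⟩, C1.Rw.none,
 ⟨nat_lit 4444, nat_lit 4473, ⟨.ofNat (nat_lit 525273), .ofNat (nat_lit 532071), .ofNat (nat_lit 526352), .ofNat (nat_lit 533149), .ofNat (nat_lit 525584), .ofNat (nat_lit 532365), .ofNat (nat_lit 526663), .ofNat (nat_lit 533444)⟩, ⟨.ofNat (nat_lit 0), .ofNat (nat_lit 0), .ofNat (nat_lit 0), .ofNat (nat_lit 0), .ofNat (nat_lit 0), .ofNat (nat_lit 0), .ofNat (nat_lit 0), .ofNat (nat_lit 0)⟩⟩, []⟩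
noncomputable def p021_l134 : Lf2 := ⟨nat_lit 0, nat_lit 5, [nat_lit 4, nat_lit 5, nat_lit 5, nat_lit 20], false, nat_lit 0, nat_lit 0, nat_lit 0, nat_lit 0, ⟨nat_lit 1000, nat_lit 0, nat_lit 0, nat_lit 0, nat_lit 0, nat_lit 0, nat_lit 0, nat_lit 0, nat_lit 0, nat_lit 0, nat_lit 0, nat_lit 0, nat_lit 0, nat_lit 0, nat_lit 0, nat_lit 0, false, false⟩,
 nat_lit 0, nat_lit 0, nat_lit 0, nat_lit 0, nat_lit 0, nat_lit 4919, nat_lit 0, nat_lit 0, nat_lit 466, nat_lit 1398, nat_lit 0, nat_lit 0, nat_lit 0, nat_lit 0, nat_lit 0, nat_lit 0, nat_lit 0, nat_lit 0, [],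
 ⟨p021_k8, nat_lit 0, nat_lit 0, nat_lit 0, nat_lit 0, nat_lit 1335933, [nat_lit 2032000001, nat_lit 4688000000, nat_lit 6250000000], [], [nat_lit 14736727000, nat_lit 14762864725, nat_lit 14812848000, nat_lit 14840696561], nat_lit 1271250, nat_lit 1271250, nat_lit 936251, nat_lit 968401, nat_lit 0, nat_lit 0, [nat_lit 490000, nat_lit 1100000, nat_lit 1442500], [nat_lit 6, nat_lit 40, nat_lit 80, nat_lit 80]⟩, ⟨p021_k68, nat_lit 0, nat_lit 0, nat_lit 0, nat_lit 0, nat_lit 0, [nat_lit 3282000000, nat_lit 6250000000], [], [nat_lit 19128202688, nat_lit 19210671908, nat_lit 19167893540, nat_lit 19259765163], nat_lit 0, nat_lit 0, nat_lit 0, nat_lit 0, nat_lit 0, nat_lit 0, [], [nat_lit 49, nat_lit 40, nat_lit 80, nat_lit 80]⟩,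
 zbF0, [⟨nat_lit 13, nat_lit 100, nat_lit 1, nat_lit 100, nat_lit 16475323⟩]⟩
noncomputable def p021_l135 : Lf2 := ⟨nat_lit 0, nat_lit 5, [nat_lit 4, nat_lit 5, nat_lit 5, nat_lit 20], false, nat_lit 0, nat_lit 0, nat_lit 0, nat_lit 0, ⟨nat_lit 1000, nat_lit 0, nat_lit 0, nat_lit 0, nat_lit 0, nat_lit 0, nat_lit 0, nat_lit 0, nat_lit 0, nat_lit 0, nat_lit 0, nat_lit 0, nat_lit 0, nat_lit 0, nat_lit 0, nat_lit 0, false, false⟩,
 nat_lit 0, nat_lit 0, nat_lit 0, nat_lit 0, nat_lit 0, nat_lit 4934, nat_lit 136, nat_lit 0, nat_lit 452, nat_lit 1398, nat_lit 0, nat_lit 0, nat_lit 0, nat_lit 0, nat_lit 0, nat_lit 0, nat_lit 0, nat_lit 0, [],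
 ⟨p021_k8, nat_lit 0, nat_lit 0, nat_lit 0, nat_lit 0, nat_lit 1335933, [nat_lit 2032000001, nat_lit 4688000000, nat_lit 6250000000], [], [nat_lit 15455889000, nat_lit 15479642775, nat_lit 15527160800, nat_lit 15551108780], nat_lit 1271250, nat_lit 1271250, nat_lit 936251, nat_lit 968401, nat_lit 0, nat_lit 0, [nat_lit 490000, nat_lit 1100000, nat_lit 1442500], [nat_lit 6, nat_lit 40, nat_lit 80, nat_lit 80]⟩, ⟨p021_k68, nat_lit 0, nat_lit 0, nat_lit 0, nat_lit 0, nat_lit 0, [nat_lit 3282000000, nat_lit 6250000000], [], [nat_lit 19114651959, nat_lit 19229064610, nat_lit 19154246026, nat_lit 19246281999], nat_lit 0, nat_lit 0, nat_lit 0, nat_lit 0, nat_lit 0, nat_lit 0, [], [nat_lit 49, nat_lit 40, nat_lit 80, nat_lit 80]⟩,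
 zbF0, [⟨nat_lit 0, nat_lit 84, nat_lit 84, nat_lit 100, nat_lit 532639318⟩]⟩
noncomputable def p021_l136 : Lf2 := ⟨nat_lit 0, nat_lit 5, [nat_lit 4, nat_lit 5, nat_lit 5, nat_lit 20], false, nat_lit 0, nat_lit 0, nat_lit 0, nat_lit 0, ⟨nat_lit 1000, nat_lit 0, nat_lit 0, nat_lit 0, nat_lit 0, nat_lit 0, nat_lit 0, nat_lit 0, nat_lit 0, nat_lit 0, nat_lit 0, nat_lit 0, nat_lit 0, nat_lit 0, nat_lit 0, nat_lit 0, false, false⟩,
 nat_lit 0, nat_lit 8871, nat_lit 0, nat_lit 0, nat_lit 6653, nat_lit 4032, nat_lit 479, nat_lit 0, nat_lit 0, nat_lit 1425, nat_lit 0, nat_lit 0, nat_lit 0, nat_lit 0, nat_lit 0, nat_lit 0, nat_lit 0, nat_lit 0, [],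
 ⟨p021_k8, nat_lit 0, nat_lit 0, nat_lit 671, nat_lit 0, nat_lit 1335933, [nat_lit 2032000001, nat_lit 4688000000, nat_lit 6250000000], [], [nat_lit 32770149586, nat_lit 32807419631, nat_lit 32756870106, nat_lit 32792013295], nat_lit 1271250, nat_lit 1271250, nat_lit 936251, nat_lit 968401, nat_lit 0, nat_lit 0, [nat_lit 490000, nat_lit 1100000, nat_lit 1442500], [nat_lit 6, nat_lit 40, nat_lit 80, nat_lit 80, nat_lit 3, nat_lit 249, nat_lit 40, nat_lit 9]⟩, ⟨p021_k69, nat_lit 0, nat_lit 0, nat_lit 0, nat_lit 0, nat_lit 0, [nat_lit 2032000000, nat_lit 3282000000, nat_lit 4688000000, nat_lit 6250000000], [], [nat_lit 18443503007, nat_lit 18523900683, nat_lit 18490230408, nat_lit 18566454923], nat_lit 0, nat_lit 0, nat_lit 0, nat_lit 0, nat_lit 0, nat_lit 0, [], [nat_lit 127, nat_lit 40, nat_lit 80, nat_lit 80]⟩,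
 zbF0, [⟨nat_lit 0, nat_lit 84, nat_lit 83, nat_lit 100, nat_lit 869217579⟩]⟩
noncomputable def p021_l137 : Lf2 := ⟨nat_lit 0, nat_lit 5, [nat_lit 4, nat_lit 5, nat_lit 5, nat_lit 20], false, nat_lit 0, nat_lit 0, nat_lit 0, nat_lit 0, ⟨nat_lit 1000, nat_lit 0, nat_lit 0, nat_lit 0, nat_lit 0, nat_lit 0, nat_lit 0, nat_lit 0, nat_lit 0, nat_lit 0, nat_lit 0, nat_lit 0, nat_lit 0, nat_lit 0, nat_lit 0, nat_lit 0, false, false⟩,
 nat_lit 0, nat_lit 13073, nat_lit 0, nat_lit 0, nat_lit 9804, nat_lit 100000, nat_lit 481, nat_lit 0, nat_lit 0, nat_lit 18275, nat_lit 7842, nat_lit 0, nat_lit 0, nat_lit 0, nat_lit 0, nat_lit 0, nat_lit 0, nat_lit 0, [],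
 ⟨p021_k8, nat_lit 0, nat_lit 0, nat_lit 671, nat_lit 0, nat_lit 1335933, [nat_lit 2032000001, nat_lit 4688000000, nat_lit 6250000000], [], [nat_lit 16981055036, nat_lit 17037075266, nat_lit 16933848948, nat_lit 16993400326], nat_lit 1271250, nat_lit 1271250, nat_lit 936251, nat_lit 968401, nat_lit 0, nat_lit 0, [nat_lit 490000, nat_lit 1100000, nat_lit 1442500], [nat_lit 6, nat_lit 40, nat_lit 80, nat_lit 80, nat_lit 3, nat_lit 249, nat_lit 40, nat_lit 9]⟩, ⟨p021_k68, nat_lit 0, nat_lit 0, nat_lit 0, nat_lit 0, nat_lit 0, [nat_lit 97386000000, nat_lit 163090000000], [], [nat_lit 123385183475, nat_lit 124609120351, nat_lit 122122276645, nat_lit 123420256700], nat_lit 0, nat_lit 0, nat_lit 0, nat_lit 0, nat_lit 0, nat_lit 0, [], [nat_lit 49, nat_lit 40, nat_lit 80, nat_lit 80]⟩,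
 zbF0, [⟨nat_lit 0, nat_lit 84, nat_lit 83, nat_lit 100, nat_lit 3069211133⟩, ⟨nat_lit 0, nat_lit 84, nat_lit 83, nat_lit 100, nat_lit 14343086632⟩, ⟨nat_lit 0, nat_lit 84, nat_lit 84, nat_lit 100, nat_lit 14172335601⟩]⟩
noncomputable def p021_l138 : Lf2 := ⟨nat_lit 3, nat_lit 5, [nat_lit 4, nat_lit 5, nat_lit 5, nat_lit 20], false, nat_lit 0, nat_lit 0, nat_lit 0, nat_lit 0, zbN0,
 nat_lit 0, nat_lit 0, nat_lit 0, nat_lit 0, nat_lit 0, nat_lit 0, nat_lit 0, nat_lit 0, nat_lit 0, nat_lit 0, nat_lit 0, nat_lit 0, nat_lit 0, nat_lit 0, nat_lit 0, nat_lit 0, nat_lit 0, nat_lit 0, [],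
 C1.Rw.none, ⟨p021_k68, nat_lit 0, nat_lit 0, nat_lit 0, nat_lit 0, nat_lit 0, [], [], [], nat_lit 0, nat_lit 0, nat_lit 0, nat_lit 0, nat_lit 0, nat_lit 0, [], [nat_lit 49, nat_lit 40, nat_lit 80, nat_lit 80]⟩,
 zbF0, []⟩
noncomputable def p021_l139 : Lf2 := ⟨nat_lit 0, nat_lit 5, [nat_lit 4, nat_lit 5, nat_lit 5, nat_lit 20], false, nat_lit 0, nat_lit 0, nat_lit 0, nat_lit 0, ⟨nat_lit 1000, nat_lit 0, nat_lit 0, nat_lit 0, nat_lit 0, nat_lit 0, nat_lit 0, nat_lit 0, nat_lit 0, nat_lit 0, nat_lit 0, nat_lit 0, nat_lit 0, nat_lit 0, nat_lit 0, nat_lit 0, false, false⟩,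
 nat_lit 0, nat_lit 8871, nat_lit 0, nat_lit 0, nat_lit 6653, nat_lit 4032, nat_lit 479, nat_lit 0, nat_lit 0, nat_lit 1425, nat_lit 0, nat_lit 0, nat_lit 0, nat_lit 0, nat_lit 0, nat_lit 0, nat_lit 0, nat_lit 0, [],
 ⟨p021_k8, nat_lit 0, nat_lit 0, nat_lit 669, nat_lit 0, nat_lit 1335933, [nat_lit 2032000001, nat_lit 4688000000, nat_lit 6250000000], [], [nat_lit 32756870106, nat_lit 32792013295, nat_lit 32743590625, nat_lit 32780922119], nat_lit 1271250, nat_lit 1271250, nat_lit 968401, nat_lit 1000851, nat_lit 0, nat_lit 0, [nat_lit 490000, nat_lit 1100000, nat_lit 1442500], [nat_lit 6, nat_lit 40, nat_lit 80, nat_lit 80, nat_lit 3, nat_lit 249, nat_lit 40, nat_lit 9]⟩, ⟨p021_k69, nat_lit 0, nat_lit 0, nat_lit 0, nat_lit 0, nat_lit 0, [nat_lit 2032000000, nat_lit 3282000000, nat_lit 4688000000, nat_lit 6250000000], [], [nat_lit 18490230408, nat_lit 18566454923, nat_lit 18539445879, nat_lit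 18615152375], nat_lit 0, nat_lit 0, nat_lit 0, nat_lit 0, nat_lit 0, nat_lit 0, [], [nat_lit 127, nat_lit 40, nat_lit 80, nat_lit 80]⟩,
 zbF0, [⟨nat_lit 0, nat_lit 84, nat_lit 83, nat_lit 100, nat_lit 661908990⟩]⟩
noncomputable def p021_l140 : Lf2 := ⟨nat_lit 0, nat_lit 5, [nat_lit 4, nat_lit 5, nat_lit 5, nat_lit 20], false, nat_lit 0, nat_lit 0, nat_lit 0, nat_lit 0, ⟨nat_lit 1000, nat_lit 0, nat_lit 0, nat_lit 0, nat_lit 0, nat_lit 0, nat_lit 0, nat_lit 0, nat_lit 0, nat_lit 0, nat_lit 0, nat_lit 0, nat_lit 0, nat_lit 0, nat_lit 0, nat_lit 0, false, false⟩,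
 nat_lit 0, nat_lit 11187, nat_lit 0, nat_lit 0, nat_lit 8390, nat_lit 100000, nat_lit 453, nat_lit 0, nat_lit 0, nat_lit 18209, nat_lit 7823, nat_lit 0, nat_lit 0, nat_lit 0, nat_lit 0, nat_lit 0, nat_lit 0, nat_lit 0, [],
 ⟨p021_k8, nat_lit 0, nat_lit 0, nat_lit 669, nat_lit 0, nat_lit 1335933, [nat_lit 2032000001, nat_lit 4688000000, nat_lit 6250000000], [], [nat_lit 24050854609, nat_lit 24227549469, nat_lit 24001167560, nat_lit 24174673884], nat_lit 1271250, nat_lit 1271250, nat_lit 968401, nat_lit 1000851, nat_lit 0, nat_lit 0, [nat_lit 490000, nat_lit 1100000, nat_lit 1442500], [nat_lit 6, nat_lit 40, nat_lit 80, nat_lit 80, nat_lit 3, nat_lit 249, nat_lit 40, nat_lit 9]⟩, ⟨p021_k68, nat_lit 0, nat_lit 0, nat_lit 0, nat_lit 0, nat_lit 0, [nat_lit 97158000000, nat_lit 162710000000], [], [nat_lit 121980337615, nat_lit 123192256700, nat_lit 120718344166, nat_lit 122003393050], nat_lit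 0, nat_lit 0, nat_lit 0, nat_lit 0, nat_lit 0, nat_lit 0, [], [nat_lit 49, nat_lit 40, nat_lit 80, nat_lit 80]⟩,
 zbF0, [⟨nat_lit 0, nat_lit 84, nat_lit 84, nat_lit 100, nat_lit 13676978760⟩]⟩
noncomputable def p021_l141 : Lf2 := ⟨nat_lit 3, nat_lit 5, [nat_lit 4, nat_lit 5, nat_lit 5, nat_lit 20], false, nat_lit 0, nat_lit 0, nat_lit 0, nat_lit 0, zbN0,
 nat_lit 0, nat_lit 0, nat_lit 0, nat_lit 0, nat_lit 0, nat_lit 0, nat_lit 0, nat_lit 0, nat_lit 0, nat_lit 0, nat_lit 0, nat_lit 0, nat_lit 0, nat_lit 0, nat_lit 0, nat_lit 0, nat_lit 0, nat_lit 0, [],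
 C1.Rw.none, ⟨p021_k68, nat_lit 0, nat_lit 0, nat_lit 0, nat_lit 0, nat_lit 0, [], [], [], nat_lit 0, nat_lit 0, nat_lit 0, nat_lit 0, nat_lit 0, nat_lit 0, [], [nat_lit 49, nat_lit 40, nat_lit 80, nat_lit 80]⟩,
 zbF0, []⟩
noncomputable def p021_l142 : Lf2 := ⟨nat_lit 0, nat_lit 5, [nat_lit 4, nat_lit 5, nat_lit 5, nat_lit 20], false, nat_lit 0, nat_lit 0, nat_lit 0, nat_lit 0, ⟨nat_lit 1000, nat_lit 0, nat_lit 0, nat_lit 0, nat_lit 0, nat_lit 0, nat_lit 0, nat_lit 0, nat_lit 0, nat_lit 0, nat_lit 0, nat_lit 0, nat_lit 0, nat_lit 0, nat_lit 0, nat_lit 0, false, false⟩,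
 nat_lit 0, nat_lit 8867, nat_lit 0, nat_lit 0, nat_lit 6650, nat_lit 4953, nat_lit 478, nat_lit 0, nat_lit 0, nat_lit 1391, nat_lit 0, nat_lit 0, nat_lit 0, nat_lit 0, nat_lit 0, nat_lit 0, nat_lit 0, nat_lit 0, [],
 ⟨p021_k8, nat_lit 0, nat_lit 0, nat_lit 668, nat_lit 0, nat_lit 1335933, [nat_lit 2032000001, nat_lit 4688000000, nat_lit 6250000000], [], [nat_lit 32761505122, nat_lit 32796434890, nat_lit 32748261083, nat_lit 32785214944], nat_lit 1271250, nat_lit 1271250, nat_lit 1000851, nat_lit 1033601, nat_lit 0, nat_lit 0, [nat_lit 490000, nat_lit 1100000, nat_lit 1442500], [nat_lit 6, nat_lit 40, nat_lit 80, nat_lit 80, nat_lit 3, nat_lit 249, nat_lit 40, nat_lit 9]⟩, ⟨p021_k68, nat_lit 0, nat_lit 0, nat_lit 0, nat_lit 0, nat_lit 0, [nat_lit 3282000000, nat_lit 6250000000], [], [nat_lit 19198524931, nat_lit 19278180505, nat_lit 19236388858, nat_lit 19326709919], nat_lit 0, nat_lit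 0, nat_lit 0, nat_lit 0, nat_lit 0, nat_lit 0, [], [nat_lit 49, nat_lit 40, nat_lit 80, nat_lit 80]⟩,
 zbF0, []⟩
noncomputable def p021_l143 : Lf2 := ⟨nat_lit 0, nat_lit 5, [nat_lit 4, nat_lit 5, nat_lit 5, nat_lit 20], true, nat_lit 0, nat_lit 0, nat_lit 0, nat_lit 0, ⟨nat_lit 0, nat_lit 1000, nat_lit 0, nat_lit 7, nat_lit 215, nat_lit 0, nat_lit 0, nat_lit 0, nat_lit 0, nat_lit 0, nat_lit 0, nat_lit 0, nat_lit 0, nat_lit 0, nat_lit 0, nat_lit 5000000, false, false⟩,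
 nat_lit 0, nat_lit 0, nat_lit 0, nat_lit 0, nat_lit 0, nat_lit 0, nat_lit 0, nat_lit 0, nat_lit 349, nat_lit 0, nat_lit 0, nat_lit 0, nat_lit 0, nat_lit 0, nat_lit 0, nat_lit 400000, nat_lit 0, nat_lit 0, [(nat_lit 18, [(nat_lit 1, nat_lit 1000)])],
 ⟨p021_k8, nat_lit 0, nat_lit 0, nat_lit 0, nat_lit 0, nat_lit 1344739, [nat_lit 1398133334, nat_lit 1966666667, nat_lit 1960800000], [], [nat_lit 12586179672, nat_lit 12617391847, nat_lit 12852507200, nat_lit 12897178070], nat_lit 1271250, nat_lit 1271250, nat_lit 936251, nat_lit 1033601, nat_lit 0, nat_lit 0, [nat_lit 490000, nat_lit 1100000, nat_lit 1442500], [nat_lit 6, nat_lit 40, nat_lit 80, nat_lit 80]⟩, C1.Rw.none,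
 ⟨nat_lit 4444, nat_lit 4473, ⟨.ofNat (nat_lit 526352), .ofNat (nat_lit 546745), .ofNat (nat_lit 527430), .ofNat (nat_lit 547823), .ofNat (nat_lit 526663), .ofNat (nat_lit 547005), .ofNat (nat_lit 527742), .ofNat (nat_lit 548084)⟩, ⟨.ofNat (nat_lit 0), .ofNat (nat_lit 0), .ofNat (nat_lit 0), .ofNat (nat_lit 0), .ofNat (nat_lit 0), .ofNat (nat_lit 0), .ofNat (nat_lit 0), .ofNat (nat_lit 0)⟩⟩, []⟩
noncomputable def p021_l144 : Lf2 := ⟨nat_lit 0, nat_lit 5, [nat_lit 4, nat_lit 5, nat_lit 5, nat_lit 20], false, nat_lit 0, nat_lit 0, nat_lit 0, nat_lit 0, ⟨nat_lit 1000, nat_lit 0, nat_lit 0, nat_lit 0, nat_lit 0, nat_lit 0, nat_lit 0, nat_lit 0, nat_lit 0, nat_lit 0, nat_lit 0, nat_lit 0, nat_lit 0, nat_lit 0, nat_lit 0, nat_lit 0, false, false⟩,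
 nat_lit 0, nat_lit 0, nat_lit 0, nat_lit 0, nat_lit 0, nat_lit 4910, nat_lit 0, nat_lit 0, nat_lit 465, nat_lit 1361, nat_lit 0, nat_lit 0, nat_lit 0, nat_lit 0, nat_lit 0, nat_lit 0, nat_lit 0, nat_lit 0, [],
 ⟨p021_k8, nat_lit 0, nat_lit 0, nat_lit 0, nat_lit 0, nat_lit 1344739, [nat_lit 2032000001, nat_lit 4688000000, nat_lit 6250000000], [], [nat_lit 14820727000, nat_lit 14846864725, nat_lit 15049090000, nat_lit 15075028030], nat_lit 1271250, nat_lit 1271250, nat_lit 936251, nat_lit 1033601, nat_lit 0, nat_lit 0, [nat_lit 490000, nat_lit 1100000, nat_lit 1442500], [nat_lit 6, nat_lit 40, nat_lit 80, nat_lit 80]⟩, ⟨p021_k70, nat_lit 0, nat_lit 0, nat_lit 0, nat_lit 0, nat_lit 0, [nat_lit 3282000000, nat_lit 6250000000], [], [nat_lit 19218671818, nat_lit 19311002150, nat_lit 19366221548, nat_lit 19456879917], nat_lit 0, nat_lit 0, nat_lit 0, nat_lit 0, nat_lit 0, nat_lit 0, [], [nat_lit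 49, nat_lit 40, nat_lit 80, nat_lit 80]⟩,
 zbF0, [⟨nat_lit 13, nat_lit 100, nat_lit 1, nat_lit 100, nat_lit 23194133⟩]⟩
noncomputable def p021_l145 : Lf2 := ⟨nat_lit 0, nat_lit 5, [nat_lit 4, nat_lit 5, nat_lit 5, nat_lit 20], false, nat_lit 0, nat_lit 0, nat_lit 0, nat_lit 0, ⟨nat_lit 1000, nat_lit 0, nat_lit 0, nat_lit 0, nat_lit 0, nat_lit 0, nat_lit 0, nat_lit 0, nat_lit 0, nat_lit 0, nat_lit 0, nat_lit 0, nat_lit 0, nat_lit 0, nat_lit 0, nat_lit 0, false, false⟩,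
 nat_lit 0, nat_lit 0, nat_lit 0, nat_lit 0, nat_lit 0, nat_lit 4935, nat_lit 136, nat_lit 0, nat_lit 452, nat_lit 1352, nat_lit 0, nat_lit 0, nat_lit 0, nat_lit 0, nat_lit 0, nat_lit 0, nat_lit 0, nat_lit 0, [],
 ⟨p021_k8, nat_lit 0, nat_lit 0, nat_lit 0, nat_lit 0, nat_lit 1344739, [nat_lit 2032000001, nat_lit 4688000000, nat_lit 6250000000], [], [nat_lit 15455889000, nat_lit 15479642775, nat_lit 15672599600, nat_lit 15697074390], nat_lit 1271250, nat_lit 1271250, nat_lit 936251, nat_lit 1033601, nat_lit 0, nat_lit 0, [nat_lit 490000, nat_lit 1100000, nat_lit 1442500], [nat_lit 6, nat_lit 40, nat_lit 80, nat_lit 80]⟩, ⟨p021_k70, nat_lit 0, nat_lit 0, nat_lit 0, nat_lit 0, nat_lit 0, [nat_lit 3282000000, nat_lit 6250000000], [], [nat_lit 19230427395, nat_lit 19344939620, nat_lit 19343249671, nat_lit 19434177607], nat_lit 0, nat_lit 0, nat_lit 0, nat_lit 0, nat_lit 0, nat_lit 0, [], [nat_lit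 49, nat_lit 40, nat_lit 80, nat_lit 80]⟩,
 zbF0, [⟨nat_lit 0, nat_lit 84, nat_lit 83, nat_lit 100, nat_lit 535248720⟩]⟩
noncomputable def p021_l146 : Lf2 := ⟨nat_lit 0, nat_lit 5, [nat_lit 4, nat_lit 5, nat_lit 5, nat_lit 20], false, nat_lit 0, nat_lit 0, nat_lit 0, nat_lit 0, ⟨nat_lit 1000, nat_lit 0, nat_lit 0, nat_lit 0, nat_lit 0, nat_lit 0, nat_lit 0, nat_lit 0, nat_lit 0, nat_lit 0, nat_lit 0, nat_lit 0, nat_lit 0, nat_lit 0, nat_lit 0, nat_lit 0, false, false⟩,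
 nat_lit 0, nat_lit 8864, nat_lit 0, nat_lit 0, nat_lit 6647, nat_lit 4018, nat_lit 478, nat_lit 0, nat_lit 0, nat_lit 1398, nat_lit 0, nat_lit 0, nat_lit 0, nat_lit 0, nat_lit 0, nat_lit 0, nat_lit 0, nat_lit 0, [],
 ⟨p021_k8, nat_lit 0, nat_lit 0, nat_lit 674, nat_lit 0, nat_lit 1344739, [nat_lit 2032000001, nat_lit 4688000000, nat_lit 6250000000], [], [nat_lit 32805836818, nat_lit 32841794952, nat_lit 32766211021, nat_lit 32800927512], nat_lit 1271250, nat_lit 1271250, nat_lit 936251, nat_lit 1033601, nat_lit 0, nat_lit 0, [nat_lit 490000, nat_lit 1100000, nat_lit 1442500], [nat_lit 6, nat_lit 40, nat_lit 80, nat_lit 80, nat_lit 3, nat_lit 249, nat_lit 40, nat_lit 9]⟩, ⟨p021_k71, nat_lit 0, nat_lit 0, nat_lit 0, nat_lit 0, nat_lit 0, [nat_lit 2032000000, nat_lit 3282000000, nat_lit 4688000000, nat_lit 6250000000], [], [nat_lit 18531617895, nat_lit 18607985476, nat_lit 18678446312, nat_lit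 18753044973], nat_lit 0, nat_lit 0, nat_lit 0, nat_lit 0, nat_lit 0, nat_lit 0, [], [nat_lit 127, nat_lit 40, nat_lit 80, nat_lit 80]⟩,
 zbF0, [⟨nat_lit 0, nat_lit 83, nat_lit 83, nat_lit 100, nat_lit 674436132⟩]⟩
noncomputable def p021_l147 : Lf2 := ⟨nat_lit 0, nat_lit 5, [nat_lit 4, nat_lit 5, nat_lit 5, nat_lit 20], false, nat_lit 0, nat_lit 0, nat_lit 0, nat_lit 0, ⟨nat_lit 1000, nat_lit 0, nat_lit 0, nat_lit 0, nat_lit 0, nat_lit 0, nat_lit 0, nat_lit 0, nat_lit 0, nat_lit 0, nat_lit 0, nat_lit 0, nat_lit 0, nat_lit 0, nat_lit 0, nat_lit 0, false, false⟩,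
 nat_lit 0, nat_lit 0, nat_lit 0, nat_lit 0, nat_lit 0, nat_lit 100000, nat_lit 0, nat_lit 0, nat_lit 0, nat_lit 17828, nat_lit 7873, nat_lit 0, nat_lit 0, nat_lit 0, nat_lit 0, nat_lit 0, nat_lit 0, nat_lit 0, [],
 ⟨p021_k8, nat_lit 0, nat_lit 0, nat_lit 674, nat_lit 0, nat_lit 1344739, [nat_lit 2032000001, nat_lit 4688000000, nat_lit 6250000000], [], [nat_lit 74603131002, nat_lit 74623848652, nat_lit 74795237202, nat_lit 74815825642], nat_lit 1271250, nat_lit 1271250, nat_lit 936251, nat_lit 1033601, nat_lit 0, nat_lit 0, [nat_lit 490000, nat_lit 1100000, nat_lit 1442500], [nat_lit 6, nat_lit 40, nat_lit 80, nat_lit 80, nat_lit 3, nat_lit 249, nat_lit 40, nat_lit 9]⟩, ⟨p021_k70, nat_lit 0, nat_lit 0, nat_lit 0, nat_lit 0, nat_lit 0, [nat_lit 97758000000, nat_lit 163710000000], [], [nat_lit 124986709626, nat_lit 126289381000, nat_lit 121860525230, nat_lit 122786804400], nat_lit 0, nat_lit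 0, nat_lit 0, nat_lit 0, nat_lit 0, nat_lit 0, [], [nat_lit 49, nat_lit 40, nat_lit 80, nat_lit 80]⟩,
 zbF0, [⟨nat_lit 13, nat_lit 100, nat_lit 1, nat_lit 100, nat_lit 15819666⟩]⟩
noncomputable def p021_l148 : Lf2 := ⟨nat_lit 3, nat_lit 5, [nat_lit 4, nat_lit 5, nat_lit 5, nat_lit 20], false, nat_lit 0, nat_lit 0, nat_lit 0, nat_lit 0, zbN0,
 nat_lit 0, nat_lit 0, nat_lit 0, nat_lit 0, nat_lit 0, nat_lit 0, nat_lit 0, nat_lit 0, nat_lit 0, nat_lit 0, nat_lit 0, nat_lit 0, nat_lit 0, nat_lit 0, nat_lit 0, nat_lit 0, nat_lit 0, nat_lit 0, [],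
 C1.Rw.none, ⟨p021_k70, nat_lit 0, nat_lit 0, nat_lit 0, nat_lit 0, nat_lit 0, [], [], [], nat_lit 0, nat_lit 0, nat_lit 0, nat_lit 0, nat_lit 0, nat_lit 0, [], [nat_lit 49, nat_lit 40, nat_lit 80, nat_lit 80]⟩,
 zbF0, []⟩
noncomputable def p021_l149 : Lf2 := ⟨nat_lit 0, nat_lit 5, [nat_lit 4, nat_lit 5, nat_lit 5, nat_lit 20], false, nat_lit 0, nat_lit 0, nat_lit 0, nat_lit 0, ⟨nat_lit 1000, nat_lit 0, nat_lit 0, nat_lit 0, nat_lit 0, nat_lit 0, nat_lit 0, nat_lit 0, nat_lit 0, nat_lit 0, nat_lit 0, nat_lit 0, nat_lit 0, nat_lit 0, nat_lit 0, nat_lit 0, false, false⟩,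
 nat_lit 0, nat_lit 8821, nat_lit 0, nat_lit 0, nat_lit 6641, nat_lit 4933, nat_lit 482, nat_lit 0, nat_lit 0, nat_lit 1514, nat_lit 0, nat_lit 0, nat_lit 0, nat_lit 0, nat_lit 0, nat_lit 0, nat_lit 0, nat_lit 0, [],
 ⟨p021_k72, nat_lit 0, nat_lit 0, nat_lit 669, nat_lit 0, nat_lit 1326936, [nat_lit 2032000001, nat_lit 4688000000, nat_lit 6250000000], [], [nat_lit 32542249774, nat_lit 32577781530, nat_lit 32488871318, nat_lit 32523575488], nat_lit 1271250, nat_lit 1271250, nat_lit 904401, nat_lit 1033601, nat_lit 0, nat_lit 0, [nat_lit 490000, nat_lit 1100000, nat_lit 1442500], [nat_lit 6, nat_lit 40, nat_lit 80, nat_lit 80, nat_lit 3, nat_lit 249, nat_lit 40, nat_lit 9]⟩, ⟨p021_k63, nat_lit 0, nat_lit 0, nat_lit 0, nat_lit 0, nat_lit 0, [nat_lit 3282000000, nat_lit 6250000000], [], [nat_lit 18860057041, nat_lit 19102790751, nat_lit 19018156957, nat_lit 19255149110], nat_lit 0, nat_lit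 0, nat_lit 0, nat_lit 0, nat_lit 0, nat_lit 0, [], [nat_lit 49, nat_lit 40, nat_lit 80, nat_lit 80]⟩,
 zbF0, [⟨nat_lit 0, nat_lit 84, nat_lit 83, nat_lit 100, nat_lit 687842618⟩]⟩
noncomputable def p021_l150 : Lf2 := ⟨nat_lit 0, nat_lit 5, [nat_lit 4, nat_lit 5, nat_lit 5, nat_lit 20], false, nat_lit 0, nat_lit 0, nat_lit 0, nat_lit 0, ⟨nat_lit 1000, nat_lit 0, nat_lit 0, nat_lit 0, nat_lit 0, nat_lit 0, nat_lit 0, nat_lit 0, nat_lit 0, nat_lit 0, nat_lit 0, nat_lit 0, nat_lit 0, nat_lit 0, nat_lit 0, nat_lit 0, false, false⟩,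
 nat_lit 0, nat_lit 8821, nat_lit 0, nat_lit 0, nat_lit 6641, nat_lit 4925, nat_lit 481, nat_lit 0, nat_lit 0, nat_lit 1385, nat_lit 0, nat_lit 0, nat_lit 0, nat_lit 0, nat_lit 0, nat_lit 0, nat_lit 0, nat_lit 0, [],
 ⟨p021_k72, nat_lit 0, nat_lit 0, nat_lit 674, nat_lit 0, nat_lit 1344373, [nat_lit 2032000001, nat_lit 4688000000, nat_lit 6250000000], [], [nat_lit 32529627035, nat_lit 32564951895, nat_lit 32489593193, nat_lit 32524297363], nat_lit 1271250, nat_lit 1271250, nat_lit 936251, nat_lit 1033601, nat_lit 0, nat_lit 0, [nat_lit 490000, nat_lit 1100000, nat_lit 1442500], [nat_lit 6, nat_lit 40, nat_lit 80, nat_lit 80, nat_lit 3, nat_lit 249, nat_lit 40, nat_lit 9]⟩, ⟨p021_k68, nat_lit 0, nat_lit 0, nat_lit 0, nat_lit 0, nat_lit 0, [nat_lit 3282000000, nat_lit 6250000000], [], [nat_lit 19169785522, nat_lit 19331169100, nat_lit 19284325086, nat_lit 19443258531], nat_lit 0, nat_lit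 0, nat_lit 0, nat_lit 0, nat_lit 0, nat_lit 0, [], [nat_lit 49, nat_lit 40, nat_lit 80, nat_lit 80]⟩,
 zbF0, [⟨nat_lit 0, nat_lit 83, nat_lit 82, nat_lit 100, nat_lit 702385807⟩]⟩
noncomputable def p021_l151 : Lf2 := ⟨nat_lit 0, nat_lit 5, [nat_lit 4, nat_lit 5, nat_lit 5, nat_lit 20], false, nat_lit 0, nat_lit 0, nat_lit 0, nat_lit 0, ⟨nat_lit 1000, nat_lit 0, nat_lit 0, nat_lit 0, nat_lit 0, nat_lit 0, nat_lit 0, nat_lit 0, nat_lit 0, nat_lit 0, nat_lit 0, nat_lit 0, nat_lit 0, nat_lit 0, nat_lit 0, nat_lit 0, false, false⟩,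
 nat_lit 0, nat_lit 8864, nat_lit 0, nat_lit 0, nat_lit 6647, nat_lit 4959, nat_lit 477, nat_lit 0, nat_lit 0, nat_lit 1507, nat_lit 0, nat_lit 0, nat_lit 0, nat_lit 0, nat_lit 0, nat_lit 0, nat_lit 0, nat_lit 0, [],
 ⟨p021_k8, nat_lit 0, nat_lit 0, nat_lit 670, nat_lit 0, nat_lit 1344739, [nat_lit 2032000001, nat_lit 4688000000, nat_lit 6250000000], [], [nat_lit 32766211021, nat_lit 32800927512, nat_lit 32739793822, nat_lit 32778820655], nat_lit 1271250, nat_lit 1271250, nat_lit 1033601, nat_lit 1100001, nat_lit 0, nat_lit 0, [nat_lit 490000, nat_lit 1100000, nat_lit 1442500], [nat_lit 6, nat_lit 40, nat_lit 80, nat_lit 80, nat_lit 3, nat_lit 249, nat_lit 40, nat_lit 9]⟩, ⟨p021_k63, nat_lit 0, nat_lit 0, nat_lit 0, nat_lit 0, nat_lit 0, [nat_lit 3282000000, nat_lit 6250000000], [], [nat_lit 19016346894, nat_lit 19412492438, nat_lit 19094821647, nat_lit 19508646824], nat_lit 0, nat_lit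 0, nat_lit 0, nat_lit 0, nat_lit 0, nat_lit 0, [], [nat_lit 49, nat_lit 40, nat_lit 80, nat_lit 80]⟩,
 zbF0, []⟩
noncomputable def p021_l152 : Lf2 := ⟨nat_lit 0, nat_lit 5, [nat_lit 4, nat_lit 5, nat_lit 5, nat_lit 20], false, nat_lit 0, nat_lit 0, nat_lit 0, nat_lit 0, ⟨nat_lit 1000, nat_lit 0, nat_lit 0, nat_lit 0, nat_lit 0, nat_lit 0, nat_lit 0, nat_lit 0, nat_lit 0, nat_lit 0, nat_lit 0, nat_lit 0, nat_lit 0, nat_lit 0, nat_lit 0, nat_lit 0, false, false⟩,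
 nat_lit 0, nat_lit 8821, nat_lit 0, nat_lit 0, nat_lit 6641, nat_lit 4959, nat_lit 480, nat_lit 0, nat_lit 0, nat_lit 1507, nat_lit 0, nat_lit 0, nat_lit 0, nat_lit 0, nat_lit 0, nat_lit 0, nat_lit 0, nat_lit 0, [],
 ⟨p021_k72, nat_lit 0, nat_lit 0, nat_lit 670, nat_lit 0, nat_lit 1344373, [nat_lit 2032000001, nat_lit 4688000000, nat_lit 6250000000], [], [nat_lit 32490315068, nat_lit 32525019238, nat_lit 32463625839, nat_lit 32502665062], nat_lit 1271250, nat_lit 1271250, nat_lit 1033601, nat_lit 1100001, nat_lit 0, nat_lit 0, [nat_lit 490000, nat_lit 1100000, nat_lit 1442500], [nat_lit 6, nat_lit 40, nat_lit 80, nat_lit 80, nat_lit 3, nat_lit 249, nat_lit 40, nat_lit 9]⟩, ⟨p021_k63, nat_lit 0, nat_lit 0, nat_lit 0, nat_lit 0, nat_lit 0, [nat_lit 3282000000, nat_lit 6250000000], [], [nat_lit 19016346894, nat_lit 19412492438, nat_lit 19094821647, nat_lit 19508646824], nat_lit 0, nat_lit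 0, nat_lit 0, nat_lit 0, nat_lit 0, nat_lit 0, [], [nat_lit 49, nat_lit 40, nat_lit 80, nat_lit 80]⟩,
 zbF0, []⟩
noncomputable def p021_l153 : Lf2 := ⟨nat_lit 0, nat_lit 5, [nat_lit 4, nat_lit 5, nat_lit 5, nat_lit 20], false, nat_lit 0, nat_lit 0, nat_lit 0, nat_lit 0, ⟨nat_lit 1000, nat_lit 0, nat_lit 0, nat_lit 0, nat_lit 0, nat_lit 0, nat_lit 0, nat_lit 0, nat_lit 0, nat_lit 0, nat_lit 0, nat_lit 0, nat_lit 0, nat_lit 0, nat_lit 0, nat_lit 0, false, false⟩,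
 nat_lit 0, nat_lit 8789, nat_lit 0, nat_lit 0, nat_lit 6643, nat_lit 4935, nat_lit 1513, nat_lit 0, nat_lit 0, nat_lit 1500, nat_lit 0, nat_lit 0, nat_lit 0, nat_lit 0, nat_lit 0, nat_lit 0, nat_lit 0, nat_lit 0, [],
 ⟨p021_k62, nat_lit 0, nat_lit 0, nat_lit 592, nat_lit 0, nat_lit 1343996, [nat_lit 2032000001, nat_lit 4688000000], [], [nat_lit 30285633407, nat_lit 30320962520, nat_lit 30224387163, nat_lit 30264346711], nat_lit 1271250, nat_lit 1271250, nat_lit 936251, nat_lit 1100001, nat_lit 0, nat_lit 0, [nat_lit 490000, nat_lit 1100000], [nat_lit 24, nat_lit 40, nat_lit 80, nat_lit 80, nat_lit 33, nat_lit 249, nat_lit 40, nat_lit 11]⟩, ⟨p021_k63, nat_lit 0, nat_lit 0, nat_lit 0, nat_lit 0, nat_lit 0, [nat_lit 3282000000, nat_lit 6250000000], [], [nat_lit 18944226702, nat_lit 19346481910, nat_lit 19141740980, nat_lit 19532030920], nat_lit 0, nat_lit 0, nat_lit 0, nat_lit 0, nat_lit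 0, nat_lit 0, [], [nat_lit 49, nat_lit 40, nat_lit 80, nat_lit 80]⟩,
 zbF0, [⟨nat_lit 0, nat_lit 83, nat_lit 82, nat_lit 100, nat_lit 693589308⟩]⟩
noncomputable def b_N_800_700_0_27 : St := ⟨false, nat_lit 1, nat_lit 0, nat_lit 2, nat_lit 40, nat_lit 320, nat_lit 323, nat_lit 315, nat_lit 320, nat_lit 132, nat_lit 160, nat_lit 0, nat_lit 0, nat_lit 0, nat_lit 0, nat_lit 0, nat_lit 0, nat_lit 16, nat_lit 20, nat_lit 0, nat_lit 0, nat_lit 0, nat_lit 800⟩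
theorem d_N_800_700_0_27 (h : EB TB.env) : Dead b_N_800_700_0_27 := chkB_sound0 h (T :=
(.trZ (nat_lit 0) (nat_lit 86) (nat_lit 84) (nat_lit 100) (nat_lit 136) (.spl (nat_lit 0) (nat_lit 322)
(.spl (nat_lit 2) (nat_lit 152)
(.spl (nat_lit 0) (nat_lit 321)
(.spl (nat_lit 1) (nat_lit 318)
(.spl (nat_lit 1) (nat_lit 317)
(.spl (nat_lit 1) (nat_lit 316)
(.leaf p021_l111)
(.spl (nat_lit 2) (nat_lit 140)
(.leaf p021_l112)
(.spl (nat_lit 2) (nat_lit 144)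
(.spl (nat_lit 7) (nat_lit 600)
(.leaf p021_l113)
(.spl (nat_lit 7) (nat_lit 900)
(.leaf p021_l114)
(.spl (nat_lit 7) (nat_lit 1060)
(.leaf p021_l115)
(.spl (nat_lit 8) (nat_lit 400)
(.spl (nat_lit 8) (nat_lit 200)
(.leaf p021_l116)
(.leaf p021_l117))
(.leaf p021_l118)))))
(.leaf p021_l119))))
(.trZ (nat_lit 0) (nat_lit 85) (nat_lit 84) (nat_lit 100) (nat_lit 140) (.spl (nat_lit 2) (nat_lit 144)
(.spl (nat_lit 7) (nat_lit 600)
(.leaf p021_l120)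
(.spl (nat_lit 7) (nat_lit 900)
(.leaf p021_l121)
(.spl (nat_lit 7) (nat_lit 1060)
(.leaf p021_l122)
(.spl (nat_lit 8) (nat_lit 400)
(.spl (nat_lit 8) (nat_lit 200)
(.leaf p021_l123)
(.leaf p021_l124))
(.leaf p021_l125)))))
(.spl (nat_lit 2) (nat_lit 148)
(.spl (nat_lit 7) (nat_lit 600)
(.leaf p021_l126)
(.spl (nat_lit 7) (nat_lit 900)
(.leaf p021_l127)
(.spl (nat_lit 7) (nat_lit 1060)
(.leaf p021_l128)
(.spl (nat_lit 8) (nat_lit 400)
(.spl (nat_lit 8) (nat_lit 200)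
(.leaf p021_l129)
(.leaf p021_l130))
(.leaf p021_l131)))))
(.leaf p021_l132)))))
(.trZ (nat_lit 0) (nat_lit 84) (nat_lit 84) (nat_lit 100) (nat_lit 140) (.spl (nat_lit 1) (nat_lit 319)
(.spl (nat_lit 2) (nat_lit 144)
(.spl (nat_lit 7) (nat_lit 600)
(.leaf p021_l133)
(.spl (nat_lit 7) (nat_lit 900)
(.leaf p021_l134)
(.spl (nat_lit 7) (nat_lit 1060)
(.leaf p021_l135)
(.spl (nat_lit 8) (nat_lit 400)
(.spl (nat_lit 8) (nat_lit 200)
(.leaf p021_l136)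
(.leaf p021_l137))
(.leaf p021_l138)))))
(.spl (nat_lit 2) (nat_lit 148)
(.spl (nat_lit 8) (nat_lit 400)
(.spl (nat_lit 8) (nat_lit 200)
(.leaf p021_l139)
(.leaf p021_l140))
(.leaf p021_l141))
(.leaf p021_l142)))
(.spl (nat_lit 7) (nat_lit 600)
(.leaf p021_l143)
(.spl (nat_lit 7) (nat_lit 900)
(.leaf p021_l144)
(.spl (nat_lit 7) (nat_lit 1060)
(.leaf p021_l145)
(.spl (nat_lit 8) (nat_lit 400)
(.spl (nat_lit 8) (nat_lit 200)
(.leaf p021_l146)
(.leaf p021_l147))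
(.leaf p021_l148))))))))
(.spl (nat_lit 1) (nat_lit 318)
(.leaf p021_l149)
(.trZ (nat_lit 0) (nat_lit 84) (nat_lit 83) (nat_lit 100) (nat_lit 140) (.leaf p021_l150))))
(.spl (nat_lit 0) (nat_lit 321)
(.leaf p021_l151)
(.leaf p021_l152)))
(.trZ (nat_lit 0) (nat_lit 86) (nat_lit 83) (nat_lit 100) (nat_lit 140) (.leaf p021_l153))))) (by decide +kernel)
noncomputable def p021_l154 : Lf2 := ⟨nat_lit 0, nat_lit 3, [nat_lit 45, nat_lit 5, nat_lit 5, nat_lit 20], false, nat_lit 0, nat_lit 0, nat_lit 0, nat_lit 0, ⟨nat_lit 1000, nat_lit 0, nat_lit 0, nat_lit 0, nat_lit 0, nat_lit 0, nat_lit 0, nat_lit 0, nat_lit 0, nat_lit 0, nat_lit 0, nat_lit 0, nat_lit 0, nat_lit 0, nat_lit 0, nat_lit 0, false, false⟩,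
 nat_lit 0, nat_lit 11318, nat_lit 0, nat_lit 0, nat_lit 8488, nat_lit 5648, nat_lit 0, nat_lit 0, nat_lit 0, nat_lit 579, nat_lit 0, nat_lit 0, nat_lit 0, nat_lit 0, nat_lit 0, nat_lit 0, nat_lit 0, nat_lit 0, [],
 ⟨p021_k44, nat_lit 0, nat_lit 0, nat_lit 606, nat_lit 0, nat_lit 1393967, [nat_lit 2032000001, nat_lit 4688000000], [], [nat_lit 24328807680, nat_lit 24401663125, nat_lit 28085982240, nat_lit 28376562444], nat_lit 1271250, nat_lit 1271250, nat_lit 1100001, nat_lit 1785000, nat_lit 0, nat_lit 0, [nat_lit 490000, nat_lit 1100000], [nat_lit 24, nat_lit 40, nat_lit 80, nat_lit 80, nat_lit 33, nat_lit 222, nat_lit 0, nat_lit 10]⟩, ⟨p021_k52, nat_lit 0, nat_lit 0, nat_lit 0, nat_lit 0, nat_lit 0, [nat_lit 3282000000, nat_lit 4688000000], [], [nat_lit 19257120104, nat_lit 19712879384, nat_lit 22878665688, nat_lit 23385722364], nat_lit 0, nat_lit 0, nat_lit 0, nat_lit 0, nat_lit 0,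 nat_lit 0, [], [nat_lit 40, nat_lit 40, nat_lit 80, nat_lit 80]⟩,
 zbF0, []⟩
noncomputable def p021_l155 : Lf2 := ⟨nat_lit 0, nat_lit 3, [nat_lit 45, nat_lit 5, nat_lit 5, nat_lit 20], false, nat_lit 0, nat_lit 0, nat_lit 0, nat_lit 0, ⟨nat_lit 1000, nat_lit 0, nat_lit 0, nat_lit 0, nat_lit 0, nat_lit 0, nat_lit 0, nat_lit 0, nat_lit 0, nat_lit 0, nat_lit 0, nat_lit 0, nat_lit 0, nat_lit 0, nat_lit 0, nat_lit 0, false, false⟩,
 nat_lit 0, nat_lit 8710, nat_lit 0, nat_lit 0, nat_lit 6583, nat_lit 5648, nat_lit 5327, nat_lit 0, nat_lit 0, nat_lit 579, nat_lit 0, nat_lit 0, nat_lit 0, nat_lit 0, nat_lit 0, nat_lit 0, nat_lit 0, nat_lit 0, [],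
 ⟨p021_k46, nat_lit 0, nat_lit 0, nat_lit 601, nat_lit 0, nat_lit 1386141, [nat_lit 2032000001, nat_lit 4688000000], [], [nat_lit 21918465643, nat_lit 21958128769, nat_lit 25516830927, nat_lit 25638602470], nat_lit 1271250, nat_lit 1271250, nat_lit 1100001, nat_lit 1785000, nat_lit 0, nat_lit 0, [nat_lit 490000, nat_lit 1100000], [nat_lit 24, nat_lit 40, nat_lit 80, nat_lit 80, nat_lit 33, nat_lit 221, nat_lit 0, nat_lit 10]⟩, ⟨p021_k52, nat_lit 0, nat_lit 0, nat_lit 0, nat_lit 0, nat_lit 0, [nat_lit 3282000000, nat_lit 4688000000], [], [nat_lit 19257120104, nat_lit 19712879384, nat_lit 22878665688, nat_lit 23385722364], nat_lit 0, nat_lit 0, nat_lit 0, nat_lit 0, nat_lit 0, nat_lit 0, [], [nat_lit 40, nat_lit 40, nat_lit 80, nat_lit 80]⟩,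
 zbF0, []⟩
noncomputable def p021_l156 : Lf2 := ⟨nat_lit 0, nat_lit 4, [nat_lit 38, nat_lit 5, nat_lit 5, nat_lit 20], false, nat_lit 0, nat_lit 0, nat_lit 0, nat_lit 0, ⟨nat_lit 1000, nat_lit 0, nat_lit 0, nat_lit 0, nat_lit 0, nat_lit 0, nat_lit 0, nat_lit 0, nat_lit 0, nat_lit 0, nat_lit 0, nat_lit 0, nat_lit 0, nat_lit 0, nat_lit 0, nat_lit 0, false, false⟩,
 nat_lit 0, nat_lit 8840, nat_lit 0, nat_lit 0, nat_lit 6629, nat_lit 5043, nat_lit 0, nat_lit 0, nat_lit 0, nat_lit 1775, nat_lit 0, nat_lit 0, nat_lit 0, nat_lit 0, nat_lit 0, nat_lit 0, nat_lit 0, nat_lit 0, [],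
 ⟨p021_k19, nat_lit 0, nat_lit 0, nat_lit 591, nat_lit 0, nat_lit 1356324, [nat_lit 2032000001, nat_lit 4688000000], [], [nat_lit 32847918742, nat_lit 32950717700, nat_lit 33748703160, nat_lit 33852081818], nat_lit 1271250, nat_lit 1271250, nat_lit 1100001, nat_lit 1785000, nat_lit 0, nat_lit 0, [nat_lit 490000, nat_lit 1100000], [nat_lit 24, nat_lit 40, nat_lit 80, nat_lit 80, nat_lit 33, nat_lit 219, nat_lit 0, nat_lit 9]⟩, ⟨p021_k54, nat_lit 0, nat_lit 0, nat_lit 0, nat_lit 0, nat_lit 0, [nat_lit 3282000000, nat_lit 6250000000], [], [nat_lit 18580923237, nat_lit 18975946169, nat_lit 22051642183, nat_lit 22525575412], nat_lit 0, nat_lit 0, nat_lit 0, nat_lit 0, nat_lit 0, nat_lit 0, [], [nat_lit 49, nat_lit 40, nat_lit 80, nat_lit 80]⟩,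
 zbF0, []⟩
noncomputable def p021_l157 : Lf2 := ⟨nat_lit 0, nat_lit 3, [nat_lit 45, nat_lit 5, nat_lit 5, nat_lit 20], true, nat_lit 0, nat_lit 0, nat_lit 0, nat_lit 0, ⟨nat_lit 0, nat_lit 1000, nat_lit 0, nat_lit 7, nat_lit 230, nat_lit 0, nat_lit 0, nat_lit 0, nat_lit 0, nat_lit 0, nat_lit 0, nat_lit 0, nat_lit 0, nat_lit 0, nat_lit 0, nat_lit 5000000, false, false⟩,
 nat_lit 0, nat_lit 0, nat_lit 0, nat_lit 0, nat_lit 0, nat_lit 0, nat_lit 0, nat_lit 0, nat_lit 346, nat_lit 0, nat_lit 0, nat_lit 0, nat_lit 0, nat_lit 0, nat_lit 0, nat_lit 400000, nat_lit 0, nat_lit 0, [(nat_lit 18, [(nat_lit 1, nat_lit 1000)])],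
 ⟨p021_k44, nat_lit 0, nat_lit 0, nat_lit 0, nat_lit 0, nat_lit 1437904, [nat_lit 1398133334, nat_lit 1966666666], [], [nat_lit 13218886672, nat_lit 13280362072, nat_lit 13704729672, nat_lit 13766224550], nat_lit 1271250, nat_lit 1271250, nat_lit 1100001, nat_lit 1271250, nat_lit 0, nat_lit 0, [nat_lit 490000, nat_lit 1100000], [nat_lit 24, nat_lit 40, nat_lit 80, nat_lit 80]⟩, C1.Rw.none,
 ⟨nat_lit 4415, nat_lit 4473, ⟨.ofNat (nat_lit 556027), .ofNat (nat_lit 590016), .ofNat (nat_lit 561419), .ofNat (nat_lit 595408), .ofNat (nat_lit 556476), .ofNat (nat_lit 590293), .ofNat (nat_lit 561872), .ofNat (nat_lit 595689)⟩, ⟨.ofNat (nat_lit 0), .ofNat (nat_lit 0), .ofNat (nat_lit 0), .ofNat (nat_lit 0), .ofNat (nat_lit 0), .ofNat (nat_lit 0), .ofNat (nat_lit 0), .ofNat (nat_lit 0)⟩⟩, []⟩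
noncomputable def p021_l158 : Lf2 := ⟨nat_lit 0, nat_lit 3, [nat_lit 45, nat_lit 5, nat_lit 5, nat_lit 20], false, nat_lit 0, nat_lit 0, nat_lit 0, nat_lit 0, ⟨nat_lit 1000, nat_lit 0, nat_lit 0, nat_lit 0, nat_lit 0, nat_lit 0, nat_lit 0, nat_lit 0, nat_lit 0, nat_lit 0, nat_lit 0, nat_lit 0, nat_lit 0, nat_lit 0, nat_lit 0, nat_lit 0, false, false⟩,
 nat_lit 0, nat_lit 12884, nat_lit 0, nat_lit 0, nat_lit 9662, nat_lit 5023, nat_lit 0, nat_lit 0, nat_lit 0, nat_lit 1305, nat_lit 0, nat_lit 0, nat_lit 0, nat_lit 0, nat_lit 0, nat_lit 0, nat_lit 0, nat_lit 0, [],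
 ⟨p021_k44, nat_lit 0, nat_lit 0, nat_lit 613, nat_lit 0, nat_lit 1404801, [nat_lit 2032000001, nat_lit 4688000000], [], [nat_lit 17527074320, nat_lit 17565661968, nat_lit 17994139624, nat_lit 18079574323], nat_lit 1271250, nat_lit 1271250, nat_lit 1100001, nat_lit 1271250, nat_lit 0, nat_lit 0, [nat_lit 490000, nat_lit 1100000], [nat_lit 24, nat_lit 40, nat_lit 80, nat_lit 80, nat_lit 33, nat_lit 216, nat_lit 0, nat_lit 9]⟩, ⟨p021_k73, nat_lit 0, nat_lit 0, nat_lit 0, nat_lit 0, nat_lit 0, [nat_lit 3282000000, nat_lit 4688000000], [], [nat_lit 19006754072, nat_lit 19177010435, nat_lit 19837784762, nat_lit 20053849665], nat_lit 0, nat_lit 0, nat_lit 0, nat_lit 0, nat_lit 0, nat_lit 0, [], [nat_lit 40, nat_lit 40, nat_lit 80, nat_lit 80]⟩,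
 zbF0, []⟩
noncomputable def p021_l159 : Lf2 := ⟨nat_lit 0, nat_lit 3, [nat_lit 45, nat_lit 5, nat_lit 5, nat_lit 20], false, nat_lit 0, nat_lit 0, nat_lit 0, nat_lit 0, ⟨nat_lit 1000, nat_lit 0, nat_lit 0, nat_lit 0, nat_lit 0, nat_lit 0, nat_lit 0, nat_lit 0, nat_lit 0, nat_lit 0, nat_lit 0, nat_lit 0, nat_lit 0, nat_lit 0, nat_lit 0, nat_lit 0, false, false⟩,
 nat_lit 0, nat_lit 0, nat_lit 0, nat_lit 0, nat_lit 0, nat_lit 936, nat_lit 0, nat_lit 0, nat_lit 469, nat_lit 0, nat_lit 0, nat_lit 0, nat_lit 0, nat_lit 0, nat_lit 0, nat_lit 0, nat_lit 0, nat_lit 0, [],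
 ⟨p021_k44, nat_lit 0, nat_lit 0, nat_lit 0, nat_lit 0, nat_lit 1413590, [nat_lit 2032000001, nat_lit 4688000000], [], [nat_lit 14341444000, nat_lit 14370563600, nat_lit 14433798000, nat_lit 14462827045], nat_lit 1271250, nat_lit 1271250, nat_lit 1100001, nat_lit 1133651, nat_lit 0, nat_lit 0, [nat_lit 490000, nat_lit 1100000], [nat_lit 24, nat_lit 40, nat_lit 80, nat_lit 80]⟩, ⟨p021_k74, nat_lit 0, nat_lit 0, nat_lit 0, nat_lit 0, nat_lit 0, [nat_lit 3282000000, nat_lit 4688000000], [], [nat_lit 25472006173, nat_lit 25517289064, nat_lit 25590319350, nat_lit 25635368658], nat_lit 0, nat_lit 0, nat_lit 0, nat_lit 0, nat_lit 0, nat_lit 0, [], [nat_lit 40, nat_lit 40, nat_lit 80, nat_lit 80]⟩,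
 zbF0, []⟩
noncomputable def p021_l160 : Lf2 := ⟨nat_lit 0, nat_lit 3, [nat_lit 45, nat_lit 5, nat_lit 5, nat_lit 20], false, nat_lit 0, nat_lit 0, nat_lit 0, nat_lit 0, ⟨nat_lit 1000, nat_lit 0, nat_lit 0, nat_lit 0, nat_lit 0, nat_lit 0, nat_lit 0, nat_lit 0, nat_lit 0, nat_lit 0, nat_lit 0, nat_lit 0, nat_lit 0, nat_lit 0, nat_lit 0, nat_lit 0, false, false⟩,
 nat_lit 0, nat_lit 11784, nat_lit 0, nat_lit 0, nat_lit 8838, nat_lit 5013, nat_lit 750, nat_lit 0, nat_lit 0, nat_lit 1228, nat_lit 0, nat_lit 0, nat_lit 0, nat_lit 0, nat_lit 0, nat_lit 0, nat_lit 0, nat_lit 0, [],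
 ⟨p021_k53, nat_lit 0, nat_lit 0, nat_lit 617, nat_lit 0, nat_lit 1413590, [nat_lit 2032000001, nat_lit 3282000000, nat_lit 4688000000], [], [nat_lit 11809493374, nat_lit 11860919282, nat_lit 11877680548, nat_lit 11945206601], nat_lit 1271250, nat_lit 1271250, nat_lit 1100001, nat_lit 1133651, nat_lit 0, nat_lit 0, [nat_lit 490000, nat_lit 780000, nat_lit 1100000], [nat_lit 78, nat_lit 40, nat_lit 80, nat_lit 80, nat_lit 22, nat_lit 215, nat_lit 0, nat_lit 9]⟩, ⟨p021_k74, nat_lit 0, nat_lit 0, nat_lit 0, nat_lit 0, nat_lit 0, [nat_lit 3282000000, nat_lit 4688000000], [], [nat_lit 19192427139, nat_lit 19277397588, nat_lit 19346251597, nat_lit 19450810380], nat_lit 0, nat_lit 0, nat_lit 0, nat_lit 0, nat_lit 0, nat_lit 0, [], [nat_lit 40, nat_lit 40, nat_lit 80, nat_lit 80]⟩,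
 zbF0, []⟩
noncomputable def p021_l161 : Lf2 := ⟨nat_lit 0, nat_lit 3, [nat_lit 45, nat_lit 5, nat_lit 5, nat_lit 20], false, nat_lit 0, nat_lit 0, nat_lit 0, nat_lit 0, ⟨nat_lit 1000, nat_lit 0, nat_lit 0, nat_lit 0, nat_lit 0, nat_lit 0, nat_lit 0, nat_lit 0, nat_lit 0, nat_lit 0, nat_lit 0, nat_lit 0, nat_lit 0, nat_lit 0, nat_lit 0, nat_lit 0, false, false⟩,
 nat_lit 0, nat_lit 0, nat_lit 0, nat_lit 0, nat_lit 0, nat_lit 734, nat_lit 0, nat_lit 0, nat_lit 468, nat_lit 0, nat_lit 0, nat_lit 0, nat_lit 0, nat_lit 0, nat_lit 0, nat_lit 0, nat_lit 0, nat_lit 0, [],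
 ⟨p021_k44, nat_lit 0, nat_lit 0, nat_lit 0, nat_lit 0, nat_lit 1413590, [nat_lit 2032000001, nat_lit 4688000000], [], [nat_lit 14503627600, nat_lit 14530106130, nat_lit 14590152000, nat_lit 14619090490], nat_lit 1271250, nat_lit 1271250, nat_lit 1133651, nat_lit 1167600, nat_lit 0, nat_lit 0, [nat_lit 490000, nat_lit 1100000], [nat_lit 24, nat_lit 40, nat_lit 80, nat_lit 80]⟩, ⟨p021_k74, nat_lit 0, nat_lit 0, nat_lit 0, nat_lit 0, nat_lit 0, [nat_lit 3282000000, nat_lit 4688000000], [], [nat_lit 25792477857, nat_lit 25835581077, nat_lit 25909245570, nat_lit 25952135488], nat_lit 0, nat_lit 0, nat_lit 0, nat_lit 0, nat_lit 0, nat_lit 0, [], [nat_lit 40, nat_lit 40, nat_lit 80, nat_lit 80]⟩,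
 zbF0, []⟩
noncomputable def p021_l162 : Lf2 := ⟨nat_lit 0, nat_lit 3, [nat_lit 45, nat_lit 5, nat_lit 5, nat_lit 20], false, nat_lit 0, nat_lit 0, nat_lit 0, nat_lit 0, ⟨nat_lit 1000, nat_lit 0, nat_lit 0, nat_lit 0, nat_lit 0, nat_lit 0, nat_lit 0, nat_lit 0, nat_lit 0, nat_lit 0, nat_lit 0, nat_lit 0, nat_lit 0, nat_lit 0, nat_lit 0, nat_lit 0, false, false⟩,
 nat_lit 0, nat_lit 11750, nat_lit 0, nat_lit 0, nat_lit 8812, nat_lit 5006, nat_lit 747, nat_lit 0, nat_lit 0, nat_lit 1223, nat_lit 0, nat_lit 0, nat_lit 0, nat_lit 0, nat_lit 0, nat_lit 0, nat_lit 0, nat_lit 0, [],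
 ⟨p021_k53, nat_lit 0, nat_lit 0, nat_lit 617, nat_lit 0, nat_lit 1413590, [nat_lit 2032000001, nat_lit 3282000000, nat_lit 4688000000], [], [nat_lit 12019243116, nat_lit 12070209167, nat_lit 12086924657, nat_lit 12153830318], nat_lit 1271250, nat_lit 1271250, nat_lit 1133651, nat_lit 1167600, nat_lit 0, nat_lit 0, [nat_lit 490000, nat_lit 780000, nat_lit 1100000], [nat_lit 78, nat_lit 40, nat_lit 80, nat_lit 80, nat_lit 22, nat_lit 216, nat_lit 0, nat_lit 9]⟩, ⟨p021_k74, nat_lit 0, nat_lit 0, nat_lit 0, nat_lit 0, nat_lit 0, [nat_lit 3282000000, nat_lit 4688000000], [], [nat_lit 19357766307, nat_lit 19442778772, nat_lit 19512485441, nat_lit 19616363679], nat_lit 0, nat_lit 0, nat_lit 0, nat_lit 0, nat_lit 0, nat_lit 0, [], [nat_lit 40, nat_lit 40, nat_lit 80, nat_lit 80]⟩,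
 zbF0, []⟩
noncomputable def p021_l163 : Lf2 := ⟨nat_lit 0, nat_lit 3, [nat_lit 45, nat_lit 5, nat_lit 5, nat_lit 20], false, nat_lit 0, nat_lit 0, nat_lit 0, nat_lit 0, ⟨nat_lit 1000, nat_lit 0, nat_lit 0, nat_lit 0, nat_lit 0, nat_lit 0, nat_lit 0, nat_lit 0, nat_lit 0, nat_lit 0, nat_lit 0, nat_lit 0, nat_lit 0, nat_lit 0, nat_lit 0, nat_lit 0, false, false⟩,
 nat_lit 0, nat_lit 12806, nat_lit 0, nat_lit 0, nat_lit 9604, nat_lit 4999, nat_lit 0, nat_lit 0, nat_lit 0, nat_lit 1217, nat_lit 0, nat_lit 0, nat_lit 0, nat_lit 0, nat_lit 0, nat_lit 0, nat_lit 0, nat_lit 0, [],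
 ⟨p021_k44, nat_lit 0, nat_lit 0, nat_lit 617, nat_lit 0, nat_lit 1413590, [nat_lit 2032000001, nat_lit 4688000000], [], [nat_lit 17894550594, nat_lit 17932414588, nat_lit 18155167808, nat_lit 18240261735], nat_lit 1271250, nat_lit 1271250, nat_lit 1167600, nat_lit 1271250, nat_lit 0, nat_lit 0, [nat_lit 490000, nat_lit 1100000], [nat_lit 24, nat_lit 40, nat_lit 80, nat_lit 80, nat_lit 33, nat_lit 217, nat_lit 0, nat_lit 9]⟩, ⟨p021_k74, nat_lit 0, nat_lit 0, nat_lit 0, nat_lit 0, nat_lit 0, [nat_lit 3282000000, nat_lit 4688000000], [], [nat_lit 19524763989, nat_lit 19608315096, nat_lit 20022784780, nat_lit 20130503665], nat_lit 0, nat_lit 0, nat_lit 0, nat_lit 0, nat_lit 0, nat_lit 0, [], [nat_lit 40, nat_lit 40, nat_lit 80, nat_lit 80]⟩,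
 zbF0, []⟩
noncomputable def p021_l164 : Lf2 := ⟨nat_lit 0, nat_lit 3, [nat_lit 45, nat_lit 5, nat_lit 5, nat_lit 20], false, nat_lit 0, nat_lit 0, nat_lit 0, nat_lit 0, ⟨nat_lit 1000, nat_lit 0, nat_lit 0, nat_lit 0, nat_lit 0, nat_lit 0, nat_lit 0, nat_lit 0, nat_lit 0, nat_lit 0, nat_lit 0, nat_lit 0, nat_lit 0, nat_lit 0, nat_lit 0, nat_lit 0, false, false⟩,
 nat_lit 0, nat_lit 12187, nat_lit 0, nat_lit 0, nat_lit 9175, nat_lit 5023, nat_lit 3440, nat_lit 0, nat_lit 0, nat_lit 1305, nat_lit 0, nat_lit 0, nat_lit 0, nat_lit 0, nat_lit 0, nat_lit 0, nat_lit 0, nat_lit 0, [],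
 ⟨p021_k75, nat_lit 0, nat_lit 0, nat_lit 613, nat_lit 0, nat_lit 1404081, [nat_lit 2032000001, nat_lit 4688000000], [], [nat_lit 17548268665, nat_lit 17585960330, nat_lit 18009794491, nat_lit 18092367882], nat_lit 1271250, nat_lit 1271250, nat_lit 1100001, nat_lit 1271250, nat_lit 0, nat_lit 0, [nat_lit 490000, nat_lit 1100000], [nat_lit 24, nat_lit 40, nat_lit 80, nat_lit 80, nat_lit 33, nat_lit 216, nat_lit 0, nat_lit 9]⟩, ⟨p021_k73, nat_lit 0, nat_lit 0, nat_lit 0, nat_lit 0, nat_lit 0, [nat_lit 3282000000, nat_lit 4688000000], [], [nat_lit 19006754072, nat_lit 19177010435, nat_lit 19837784762, nat_lit 20053849665], nat_lit 0, nat_lit 0, nat_lit 0, nat_lit 0, nat_lit 0, nat_lit 0, [], [nat_lit 40, nat_lit 40, nat_lit 80, nat_lit 80]⟩,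
 zbF0, []⟩
noncomputable def p021_l165 : Lf2 := ⟨nat_lit 0, nat_lit 3, [nat_lit 45, nat_lit 5, nat_lit 5, nat_lit 20], false, nat_lit 0, nat_lit 0, nat_lit 0, nat_lit 0, ⟨nat_lit 1000, nat_lit 0, nat_lit 0, nat_lit 0, nat_lit 0, nat_lit 0, nat_lit 0, nat_lit 0, nat_lit 0, nat_lit 0, nat_lit 0, nat_lit 0, nat_lit 0, nat_lit 0, nat_lit 0, nat_lit 0, false, false⟩,
 nat_lit 0, nat_lit 0, nat_lit 0, nat_lit 0, nat_lit 0, nat_lit 893, nat_lit 0, nat_lit 0, nat_lit 468, nat_lit 0, nat_lit 0, nat_lit 0, nat_lit 0, nat_lit 0, nat_lit 0, nat_lit 0, nat_lit 0, nat_lit 0, [],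
 ⟨p021_k75, nat_lit 0, nat_lit 0, nat_lit 0, nat_lit 0, nat_lit 1412794, [nat_lit 2032000001, nat_lit 4688000000], [], [nat_lit 14444466400, nat_lit 14471020800, nat_lit 14530106130, nat_lit 14556584660], nat_lit 1271250, nat_lit 1271250, nat_lit 1100001, nat_lit 1133651, nat_lit 0, nat_lit 0, [nat_lit 490000, nat_lit 1100000], [nat_lit 24, nat_lit 40, nat_lit 80, nat_lit 80]⟩, ⟨p021_k74, nat_lit 0, nat_lit 0, nat_lit 0, nat_lit 0, nat_lit 0, [nat_lit 3282000000, nat_lit 4688000000], [], [nat_lit 25515368899, nat_lit 25560233207, nat_lit 25633353092, nat_lit 25677988134], nat_lit 0, nat_lit 0, nat_lit 0, nat_lit 0, nat_lit 0, nat_lit 0, [], [nat_lit 40, nat_lit 40, nat_lit 80, nat_lit 80]⟩,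
 zbF0, []⟩
noncomputable def p021_l166 : Lf2 := ⟨nat_lit 0, nat_lit 3, [nat_lit 45, nat_lit 5, nat_lit 5, nat_lit 20], false, nat_lit 0, nat_lit 0, nat_lit 0, nat_lit 0, ⟨nat_lit 1000, nat_lit 0, nat_lit 0, nat_lit 0, nat_lit 0, nat_lit 0, nat_lit 0, nat_lit 0, nat_lit 0, nat_lit 0, nat_lit 0, nat_lit 0, nat_lit 0, nat_lit 0, nat_lit 0, nat_lit 0, false, false⟩,
 nat_lit 0, nat_lit 11634, nat_lit 0, nat_lit 0, nat_lit 8759, nat_lit 5013, nat_lit 750, nat_lit 0, nat_lit 0, nat_lit 1228, nat_lit 0, nat_lit 0, nat_lit 0, nat_lit 0, nat_lit 0, nat_lit 0, nat_lit 0, nat_lit 0, [],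
 ⟨p021_k76, nat_lit 0, nat_lit 0, nat_lit 617, nat_lit 0, nat_lit 1412794, [nat_lit 2032000001, nat_lit 3282000000, nat_lit 4688000000], [], [nat_lit 11973464268, nat_lit 12024636404, nat_lit 12040266745, nat_lit 12107421094], nat_lit 1271250, nat_lit 1271250, nat_lit 1100001, nat_lit 1133651, nat_lit 0, nat_lit 0, [nat_lit 490000, nat_lit 780000, nat_lit 1100000], [nat_lit 78, nat_lit 40, nat_lit 80, nat_lit 80, nat_lit 22, nat_lit 215, nat_lit 0, nat_lit 9]⟩, ⟨p021_k74, nat_lit 0, nat_lit 0, nat_lit 0, nat_lit 0, nat_lit 0, [nat_lit 3282000000, nat_lit 4688000000], [], [nat_lit 19192427139, nat_lit 19277397588, nat_lit 19346251597, nat_lit 19450810380], nat_lit 0, nat_lit 0, nat_lit 0, nat_lit 0, nat_lit 0, nat_lit 0, [], [nat_lit 40, nat_lit 40, nat_lit 80, nat_lit 80]⟩,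
 zbF0, []⟩
noncomputable def p021_l167 : Lf2 := ⟨nat_lit 0, nat_lit 3, [nat_lit 45, nat_lit 5, nat_lit 5, nat_lit 20], false, nat_lit 0, nat_lit 0, nat_lit 0, nat_lit 0, ⟨nat_lit 1000, nat_lit 0, nat_lit 0, nat_lit 0, nat_lit 0, nat_lit 0, nat_lit 0, nat_lit 0, nat_lit 0, nat_lit 0, nat_lit 0, nat_lit 0, nat_lit 0, nat_lit 0, nat_lit 0, nat_lit 0, false, false⟩,
 nat_lit 0, nat_lit 12138, nat_lit 0, nat_lit 0, nat_lit 9139, nat_lit 5006, nat_lit 3507, nat_lit 0, nat_lit 0, nat_lit 1223, nat_lit 0, nat_lit 0, nat_lit 0, nat_lit 0, nat_lit 0, nat_lit 0, nat_lit 0, nat_lit 0, [],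
 ⟨p021_k75, nat_lit 0, nat_lit 0, nat_lit 617, nat_lit 0, nat_lit 1412794, [nat_lit 2032000001, nat_lit 4688000000], [], [nat_lit 17719545879, nat_lit 17756875493, nat_lit 17773988803, nat_lit 17858298209], nat_lit 1271250, nat_lit 1271250, nat_lit 1133651, nat_lit 1167600, nat_lit 0, nat_lit 0, [nat_lit 490000, nat_lit 1100000], [nat_lit 24, nat_lit 40, nat_lit 80, nat_lit 80, nat_lit 33, nat_lit 216, nat_lit 0, nat_lit 9]⟩, ⟨p021_k74, nat_lit 0, nat_lit 0, nat_lit 0, nat_lit 0, nat_lit 0, [nat_lit 3282000000, nat_lit 4688000000], [], [nat_lit 19357766307, nat_lit 19442778772, nat_lit 19512485441, nat_lit 19616363679], nat_lit 0, nat_lit 0, nat_lit 0, nat_lit 0, nat_lit 0, nat_lit 0, [], [nat_lit 40, nat_lit 40, nat_lit 80, nat_lit 80]⟩,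
 zbF0, []⟩
noncomputable def p021_l168 : Lf2 := ⟨nat_lit 0, nat_lit 3, [nat_lit 45, nat_lit 5, nat_lit 5, nat_lit 20], false, nat_lit 0, nat_lit 0, nat_lit 0, nat_lit 0, ⟨nat_lit 1000, nat_lit 0, nat_lit 0, nat_lit 0, nat_lit 0, nat_lit 0, nat_lit 0, nat_lit 0, nat_lit 0, nat_lit 0, nat_lit 0, nat_lit 0, nat_lit 0, nat_lit 0, nat_lit 0, nat_lit 0, false, false⟩,
 nat_lit 0, nat_lit 12103, nat_lit 0, nat_lit 0, nat_lit 9112, nat_lit 4999, nat_lit 3498, nat_lit 0, nat_lit 0, nat_lit 1217, nat_lit 0, nat_lit 0, nat_lit 0, nat_lit 0, nat_lit 0, nat_lit 0, nat_lit 0, nat_lit 0, [],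
 ⟨p021_k75, nat_lit 0, nat_lit 0, nat_lit 617, nat_lit 0, nat_lit 1412794, [nat_lit 2032000001, nat_lit 4688000000], [], [nat_lit 17901702693, nat_lit 17938688284, nat_lit 18160409266, nat_lit 18242612508], nat_lit 1271250, nat_lit 1271250, nat_lit 1167600, nat_lit 1271250, nat_lit 0, nat_lit 0, [nat_lit 490000, nat_lit 1100000], [nat_lit 24, nat_lit 40, nat_lit 80, nat_lit 80, nat_lit 33, nat_lit 217, nat_lit 0, nat_lit 9]⟩, ⟨p021_k74, nat_lit 0, nat_lit 0, nat_lit 0, nat_lit 0, nat_lit 0, [nat_lit 3282000000, nat_lit 4688000000], [], [nat_lit 19524763989, nat_lit 19608315096, nat_lit 20022784780, nat_lit 20130503665], nat_lit 0, nat_lit 0, nat_lit 0, nat_lit 0, nat_lit 0, nat_lit 0, [], [nat_lit 40, nat_lit 40, nat_lit 80, nat_lit 80]⟩,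
 zbF0, []⟩
noncomputable def p021_l169 : Lf2 := ⟨nat_lit 0, nat_lit 3, [nat_lit 45, nat_lit 5, nat_lit 5, nat_lit 20], false, nat_lit 0, nat_lit 0, nat_lit 0, nat_lit 0, ⟨nat_lit 1000, nat_lit 0, nat_lit 0, nat_lit 0, nat_lit 0, nat_lit 0, nat_lit 0, nat_lit 0, nat_lit 0, nat_lit 0, nat_lit 0, nat_lit 0, nat_lit 0, nat_lit 0, nat_lit 0, nat_lit 0, false, false⟩,
 nat_lit 0, nat_lit 0, nat_lit 0, nat_lit 0, nat_lit 0, nat_lit 896, nat_lit 0, nat_lit 0, nat_lit 467, nat_lit 0, nat_lit 0, nat_lit 0, nat_lit 0, nat_lit 0, nat_lit 0, nat_lit 0, nat_lit 0, nat_lit 0, [],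
 ⟨p021_k44, nat_lit 0, nat_lit 0, nat_lit 0, nat_lit 0, nat_lit 1437904, [nat_lit 2032000001, nat_lit 4688000000], [], [nat_lit 14497912000, nat_lit 14551020800, nat_lit 14931214000, nat_lit 14988547650], nat_lit 1271250, nat_lit 1271250, nat_lit 1100001, nat_lit 1271250, nat_lit 0, nat_lit 0, [nat_lit 490000, nat_lit 1100000], [nat_lit 24, nat_lit 40, nat_lit 80, nat_lit 80]⟩, ⟨p021_k77, nat_lit 0, nat_lit 0, nat_lit 0, nat_lit 0, nat_lit 0, [nat_lit 3282000000, nat_lit 4688000000], [], [nat_lit 25557237104, nat_lit 25647024128, nat_lit 26146124991, nat_lit 26233616336], nat_lit 0, nat_lit 0, nat_lit 0, nat_lit 0, nat_lit 0, nat_lit 0, [], [nat_lit 40, nat_lit 40, nat_lit 80, nat_lit 80]⟩,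
 zbF0, []⟩
noncomputable def p021_l170 : Lf2 := ⟨nat_lit 0, nat_lit 3, [nat_lit 45, nat_lit 5, nat_lit 5, nat_lit 20], false, nat_lit 0, nat_lit 0, nat_lit 0, nat_lit 0, ⟨nat_lit 1000, nat_lit 0, nat_lit 0, nat_lit 0, nat_lit 0, nat_lit 0, nat_lit 0, nat_lit 0, nat_lit 0, nat_lit 0, nat_lit 0, nat_lit 0, nat_lit 0, nat_lit 0, nat_lit 0, nat_lit 0, false, false⟩,
 nat_lit 0, nat_lit 9835, nat_lit 0, nat_lit 0, nat_lit 7376, nat_lit 4993, nat_lit 808, nat_lit 0, nat_lit 0, nat_lit 1189, nat_lit 0, nat_lit 0, nat_lit 0, nat_lit 0, nat_lit 0, nat_lit 0, nat_lit 0, nat_lit 0, [],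
 ⟨p021_k53, nat_lit 0, nat_lit 0, nat_lit 633, nat_lit 0, nat_lit 1437904, [nat_lit 2032000001, nat_lit 3282000000, nat_lit 4688000000], [], [nat_lit 20076788289, nat_lit 20168525011, nat_lit 20395543000, nat_lit 20491567423], nat_lit 1271250, nat_lit 1271250, nat_lit 1100001, nat_lit 1271250, nat_lit 0, nat_lit 0, [nat_lit 490000, nat_lit 780000, nat_lit 1100000], [nat_lit 78, nat_lit 40, nat_lit 80, nat_lit 80, nat_lit 22, nat_lit 221, nat_lit 0, nat_lit 10]⟩, ⟨p021_k77, nat_lit 0, nat_lit 0, nat_lit 0, nat_lit 0, nat_lit 0, [nat_lit 3282000000, nat_lit 4688000000], [], [nat_lit 19306780983, nat_lit 19477085848, nat_lit 20122659052, nat_lit 20337940038], nat_lit 0, nat_lit 0, nat_lit 0, nat_lit 0, nat_lit 0, nat_lit 0, [], [nat_lit 40, nat_lit 40, nat_lit 80, nat_lit 80]⟩,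
 zbF0, []⟩
noncomputable def p021_l171 : Lf2 := ⟨nat_lit 0, nat_lit 3, [nat_lit 45, nat_lit 5, nat_lit 5, nat_lit 20], false, nat_lit 0, nat_lit 0, nat_lit 0, nat_lit 0, ⟨nat_lit 1000, nat_lit 0, nat_lit 0, nat_lit 0, nat_lit 0, nat_lit 0, nat_lit 0, nat_lit 0, nat_lit 0, nat_lit 0, nat_lit 0, nat_lit 0, nat_lit 0, nat_lit 0, nat_lit 0, nat_lit 0, false, false⟩,
 nat_lit 0, nat_lit 11189, nat_lit 0, nat_lit 0, nat_lit 8391, nat_lit 4978, nat_lit 0, nat_lit 0, nat_lit 0, nat_lit 1273, nat_lit 0, nat_lit 0, nat_lit 0, nat_lit 0, nat_lit 0, nat_lit 0, nat_lit 0, nat_lit 0, [],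
 ⟨p021_k44, nat_lit 0, nat_lit 0, nat_lit 614, nat_lit 0, nat_lit 1413590, [nat_lit 2032000001, nat_lit 4688000000], [], [nat_lit 25003584771, nat_lit 25038456728, nat_lit 25893852764, nat_lit 26052102285], nat_lit 1271250, nat_lit 1271250, nat_lit 1271250, nat_lit 1271250, nat_lit 0, nat_lit 0, [nat_lit 490000, nat_lit 1100000], [nat_lit 24, nat_lit 40, nat_lit 80, nat_lit 80, nat_lit 33, nat_lit 219, nat_lit 0, nat_lit 9]⟩, ⟨p021_k73, nat_lit 0, nat_lit 0, nat_lit 0, nat_lit 0, nat_lit 0, [nat_lit 3282000000, nat_lit 4688000000], [], [nat_lit 19858892846, nat_lit 20103647582, nat_lit 20664863629, nat_lit 20973827559], nat_lit 0, nat_lit 0, nat_lit 0, nat_lit 0, nat_lit 0, nat_lit 0, [], [nat_lit 40, nat_lit 40, nat_lit 80, nat_lit 80]⟩,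
 zbF0, []⟩
noncomputable def p021_l172 : Lf2 := ⟨nat_lit 0, nat_lit 3, [nat_lit 45, nat_lit 5, nat_lit 5, nat_lit 20], false, nat_lit 0, nat_lit 0, nat_lit 0, nat_lit 0, ⟨nat_lit 1000, nat_lit 0, nat_lit 0, nat_lit 0, nat_lit 0, nat_lit 0, nat_lit 0, nat_lit 0, nat_lit 0, nat_lit 0, nat_lit 0, nat_lit 0, nat_lit 0, nat_lit 0, nat_lit 0, nat_lit 0, false, false⟩,
 nat_lit 0, nat_lit 11189, nat_lit 0, nat_lit 0, nat_lit 8391, nat_lit 4968, nat_lit 0, nat_lit 0, nat_lit 0, nat_lit 1165, nat_lit 0, nat_lit 0, nat_lit 0, nat_lit 0, nat_lit 0, nat_lit 0, nat_lit 0, nat_lit 0, [],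
 ⟨p021_k44, nat_lit 0, nat_lit 0, nat_lit 620, nat_lit 0, nat_lit 1422401, [nat_lit 2032000001, nat_lit 4688000000], [], [nat_lit 25003584771, nat_lit 25038456728, nat_lit 25893852764, nat_lit 26052102285], nat_lit 1271250, nat_lit 1271250, nat_lit 1271250, nat_lit 1271250, nat_lit 0, nat_lit 0, [nat_lit 490000, nat_lit 1100000], [nat_lit 24, nat_lit 40, nat_lit 80, nat_lit 80, nat_lit 33, nat_lit 221, nat_lit 0, nat_lit 9]⟩, ⟨p021_k77, nat_lit 0, nat_lit 0, nat_lit 0, nat_lit 0, nat_lit 0, [nat_lit 3282000000, nat_lit 4688000000], [], [nat_lit 20117937742, nat_lit 20199413309, nat_lit 20960262722, nat_lit 21063127097], nat_lit 0, nat_lit 0, nat_lit 0, nat_lit 0, nat_lit 0, nat_lit 0, [], [nat_lit 40, nat_lit 40, nat_lit 80, nat_lit 80]⟩,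
 zbF0, []⟩
noncomputable def p021_l173 : Lf2 := ⟨nat_lit 0, nat_lit 3, [nat_lit 45, nat_lit 5, nat_lit 5, nat_lit 20], false, nat_lit 0, nat_lit 0, nat_lit 0, nat_lit 0, ⟨nat_lit 1000, nat_lit 0, nat_lit 0, nat_lit 0, nat_lit 0, nat_lit 0, nat_lit 0, nat_lit 0, nat_lit 0, nat_lit 0, nat_lit 0, nat_lit 0, nat_lit 0, nat_lit 0, nat_lit 0, nat_lit 0, false, false⟩,
 nat_lit 0, nat_lit 11189, nat_lit 0, nat_lit 0, nat_lit 8391, nat_lit 4959, nat_lit 0, nat_lit 0, nat_lit 0, nat_lit 1129, nat_lit 0, nat_lit 0, nat_lit 0, nat_lit 0, nat_lit 0, nat_lit 0, nat_lit 0, nat_lit 0, [],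
 ⟨p021_k44, nat_lit 0, nat_lit 0, nat_lit 625, nat_lit 0, nat_lit 1431300, [nat_lit 2032000001, nat_lit 4688000000], [], [nat_lit 25003584771, nat_lit 25038456728, nat_lit 25893852764, nat_lit 26052102285], nat_lit 1271250, nat_lit 1271250, nat_lit 1271250, nat_lit 1271250, nat_lit 0, nat_lit 0, [nat_lit 490000, nat_lit 1100000], [nat_lit 24, nat_lit 40, nat_lit 80, nat_lit 80, nat_lit 33, nat_lit 222, nat_lit 0, nat_lit 9]⟩, ⟨p021_k78, nat_lit 0, nat_lit 0, nat_lit 0, nat_lit 0, nat_lit 0, [nat_lit 3282000000, nat_lit 4688000000], [], [nat_lit 20213227876, nat_lit 20294485094, nat_lit 21050807503, nat_lit 21153560636], nat_lit 0, nat_lit 0, nat_lit 0, nat_lit 0, nat_lit 0, nat_lit 0, [], [nat_lit 40, nat_lit 40, nat_lit 80, nat_lit 80]⟩,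
 zbF0, []⟩
noncomputable def p021_l174 : Lf2 := ⟨nat_lit 0, nat_lit 3, [nat_lit 45, nat_lit 5, nat_lit 5, nat_lit 20], false, nat_lit 0, nat_lit 0, nat_lit 0, nat_lit 0, ⟨nat_lit 1000, nat_lit 0, nat_lit 0, nat_lit 0, nat_lit 0, nat_lit 0, nat_lit 0, nat_lit 0, nat_lit 0, nat_lit 0, nat_lit 0, nat_lit 0, nat_lit 0, nat_lit 0, nat_lit 0, nat_lit 0, false, false⟩,
 nat_lit 0, nat_lit 10682, nat_lit 0, nat_lit 0, nat_lit 8042, nat_lit 4959, nat_lit 2878, nat_lit 0, nat_lit 0, nat_lit 1267, nat_lit 0, nat_lit 0, nat_lit 0, nat_lit 0, nat_lit 0, nat_lit 0, nat_lit 0, nat_lit 0, [],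
 ⟨p021_k75, nat_lit 0, nat_lit 0, nat_lit 625, nat_lit 0, nat_lit 1430416, [nat_lit 2032000001, nat_lit 4688000000], [], [nat_lit 24695326959, nat_lit 24729604315, nat_lit 25565244755, nat_lit 25718676941], nat_lit 1271250, nat_lit 1271250, nat_lit 1271250, nat_lit 1271250, nat_lit 0, nat_lit 0, [nat_lit 490000, nat_lit 1100000], [nat_lit 24, nat_lit 40, nat_lit 80, nat_lit 80, nat_lit 33, nat_lit 222, nat_lit 0, nat_lit 9]⟩, ⟨p021_k73, nat_lit 0, nat_lit 0, nat_lit 0, nat_lit 0, nat_lit 0, [nat_lit 3282000000, nat_lit 4688000000], [], [nat_lit 19887670877, nat_lit 20294093197, nat_lit 20663570898, nat_lit 21153560636], nat_lit 0, nat_lit 0, nat_lit 0, nat_lit 0, nat_lit 0, nat_lit 0, [], [nat_lit 40, nat_lit 40, nat_lit 80, nat_lit 80]⟩,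
 zbF0, []⟩
noncomputable def p021_l175 : Lf2 := ⟨nat_lit 0, nat_lit 3, [nat_lit 45, nat_lit 5, nat_lit 5, nat_lit 20], false, nat_lit 0, nat_lit 0, nat_lit 0, nat_lit 0, ⟨nat_lit 1000, nat_lit 0, nat_lit 0, nat_lit 0, nat_lit 0, nat_lit 0, nat_lit 0, nat_lit 0, nat_lit 0, nat_lit 0, nat_lit 0, nat_lit 0, nat_lit 0, nat_lit 0, nat_lit 0, nat_lit 0, false, false⟩,
 nat_lit 0, nat_lit 10997, nat_lit 0, nat_lit 0, nat_lit 8247, nat_lit 4925, nat_lit 0, nat_lit 0, nat_lit 0, nat_lit 1238, nat_lit 0, nat_lit 0, nat_lit 0, nat_lit 0, nat_lit 0, nat_lit 0, nat_lit 0, nat_lit 0, [],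
 ⟨p021_k44, nat_lit 0, nat_lit 0, nat_lit 626, nat_lit 0, nat_lit 1437904, [nat_lit 2032000001, nat_lit 4688000000], [], [nat_lit 25958778494, nat_lit 26025316314, nat_lit 27730150560, nat_lit 28014780136], nat_lit 1271250, nat_lit 1271250, nat_lit 1271250, nat_lit 1271250, nat_lit 0, nat_lit 0, [nat_lit 490000, nat_lit 1100000], [nat_lit 24, nat_lit 40, nat_lit 80, nat_lit 80, nat_lit 33, nat_lit 227, nat_lit 0, nat_lit 10]⟩, ⟨p021_k73, nat_lit 0, nat_lit 0, nat_lit 0, nat_lit 0, nat_lit 0, [nat_lit 3282000000, nat_lit 4688000000], [], [nat_lit 20720090369, nat_lit 21108954450, nat_lit 22357811213, nat_lit 22825284000], nat_lit 0, nat_lit 0, nat_lit 0, nat_lit 0, nat_lit 0, nat_lit 0, [], [nat_lit 40, nat_lit 40, nat_lit 80, nat_lit 80]⟩,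
 zbF0, []⟩
noncomputable def p021_l176 : Lf2 := ⟨nat_lit 0, nat_lit 4, [nat_lit 38, nat_lit 5, nat_lit 5, nat_lit 20], false, nat_lit 0, nat_lit 0, nat_lit 0, nat_lit 0, ⟨nat_lit 1000, nat_lit 0, nat_lit 0, nat_lit 0, nat_lit 0, nat_lit 0, nat_lit 0, nat_lit 0, nat_lit 0, nat_lit 0, nat_lit 0, nat_lit 0, nat_lit 0, nat_lit 0, nat_lit 0, nat_lit 0, false, false⟩,
 nat_lit 0, nat_lit 8856, nat_lit 0, nat_lit 0, nat_lit 6641, nat_lit 5614, nat_lit 0, nat_lit 0, nat_lit 0, nat_lit 487, nat_lit 0, nat_lit 0, nat_lit 0, nat_lit 0, nat_lit 0, nat_lit 0, nat_lit 0, nat_lit 0, [],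
 ⟨p021_k19, nat_lit 0, nat_lit 0, nat_lit 595, nat_lit 0, nat_lit 1369069, [nat_lit 2032000001, nat_lit 4688000000], [], [nat_lit 32775835462, nat_lit 32810125839, nat_lit 33686855640, nat_lit 33721338900], nat_lit 1271250, nat_lit 1271250, nat_lit 1100001, nat_lit 1785000, nat_lit 0, nat_lit 0, [nat_lit 490000, nat_lit 1100000], [nat_lit 24, nat_lit 40, nat_lit 80, nat_lit 80, nat_lit 33, nat_lit 219, nat_lit 0, nat_lit 9]⟩, ⟨p021_k55, nat_lit 0, nat_lit 0, nat_lit 0, nat_lit 0, nat_lit 0, [nat_lit 3282000000, nat_lit 4688000000], [], [nat_lit 19761743762, nat_lit 20034206411, nat_lit 23337383527, nat_lit 23640500643], nat_lit 0, nat_lit 0, nat_lit 0, nat_lit 0, nat_lit 0, nat_lit 0, [], [nat_lit 40, nat_lit 40, nat_lit 80, nat_lit 80]⟩,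
 zbF0, []⟩
noncomputable def p021_l177 : Lf2 := ⟨nat_lit 0, nat_lit 4, [nat_lit 38, nat_lit 5, nat_lit 5, nat_lit 20], false, nat_lit 0, nat_lit 0, nat_lit 0, nat_lit 0, ⟨nat_lit 1000, nat_lit 0, nat_lit 0, nat_lit 0, nat_lit 0, nat_lit 0, nat_lit 0, nat_lit 0, nat_lit 0, nat_lit 0, nat_lit 0, nat_lit 0, nat_lit 0, nat_lit 0, nat_lit 0, nat_lit 0, false, false⟩,
 nat_lit 0, nat_lit 8856, nat_lit 0, nat_lit 0, nat_lit 6641, nat_lit 5603, nat_lit 0, nat_lit 0, nat_lit 0, nat_lit 445, nat_lit 0, nat_lit 0, nat_lit 0, nat_lit 0, nat_lit 0, nat_lit 0, nat_lit 0, nat_lit 0, [],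
 ⟨p021_k19, nat_lit 0, nat_lit 0, nat_lit 598, nat_lit 0, nat_lit 1377866, [nat_lit 2032000001, nat_lit 4688000000], [], [nat_lit 32775835462, nat_lit 32810125839, nat_lit 33686855640, nat_lit 33721338900], nat_lit 1271250, nat_lit 1271250, nat_lit 1100001, nat_lit 1785000, nat_lit 0, nat_lit 0, [nat_lit 490000, nat_lit 1100000], [nat_lit 24, nat_lit 40, nat_lit 80, nat_lit 80, nat_lit 33, nat_lit 220, nat_lit 0, nat_lit 9]⟩, ⟨p021_k79, nat_lit 0, nat_lit 0, nat_lit 0, nat_lit 0, nat_lit 0, [nat_lit 3282000000, nat_lit 4688000000], [], [nat_lit 20048398373, nat_lit 20139267033, nat_lit 23624500261, nat_lit 23725418851], nat_lit 0, nat_lit 0, nat_lit 0, nat_lit 0, nat_lit 0, nat_lit 0, [], [nat_lit 40, nat_lit 40, nat_lit 80, nat_lit 80]⟩,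
 zbF0, []⟩
noncomputable def p021_l178 : Lf2 := ⟨nat_lit 0, nat_lit 4, [nat_lit 38, nat_lit 5, nat_lit 5, nat_lit 20], true, nat_lit 0, nat_lit 0, nat_lit 0, nat_lit 0, ⟨nat_lit 0, nat_lit 1000, nat_lit 0, nat_lit 7, nat_lit 226, nat_lit 0, nat_lit 0, nat_lit 0, nat_lit 0, nat_lit 0, nat_lit 0, nat_lit 0, nat_lit 0, nat_lit 0, nat_lit 0, nat_lit 5000000, false, false⟩,
 nat_lit 0, nat_lit 0, nat_lit 0, nat_lit 0, nat_lit 0, nat_lit 0, nat_lit 0, nat_lit 0, nat_lit 348, nat_lit 0, nat_lit 0, nat_lit 0, nat_lit 0, nat_lit 0, nat_lit 0, nat_lit 400000, nat_lit 0, nat_lit 0, [(nat_lit 18, [(nat_lit 1, nat_lit 1000)])],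
 ⟨p021_k19, nat_lit 0, nat_lit 0, nat_lit 0, nat_lit 0, nat_lit 1386684, [nat_lit 1398133334, nat_lit 1966666666], [], [nat_lit 13090886672, nat_lit 13121624372, nat_lit 13188055272, nat_lit 13223825435], nat_lit 1271250, nat_lit 1271250, nat_lit 1100001, nat_lit 1133651, nat_lit 0, nat_lit 0, [nat_lit 490000, nat_lit 1100000], [nat_lit 24, nat_lit 40, nat_lit 80, nat_lit 80]⟩, C1.Rw.none,
 ⟨nat_lit 4444, nat_lit 4473, ⟨.ofNat (nat_lit 560341), .ofNat (nat_lit 567139), .ofNat (nat_lit 561419), .ofNat (nat_lit 568217), .ofNat (nat_lit 560566), .ofNat (nat_lit 567347), .ofNat (nat_lit 561645), .ofNat (nat_lit 568426)⟩, ⟨.ofNat (nat_lit 0), .ofNat (nat_lit 0), .ofNat (nat_lit 0), .ofNat (nat_lit 0), .ofNat (nat_lit 0), .ofNat (nat_lit 0), .ofNat (nat_lit 0), .ofNat (nat_lit 0)⟩⟩, []⟩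
noncomputable def p021_l179 : Lf2 := ⟨nat_lit 0, nat_lit 4, [nat_lit 38, nat_lit 5, nat_lit 5, nat_lit 20], false, nat_lit 0, nat_lit 0, nat_lit 0, nat_lit 0, ⟨nat_lit 1000, nat_lit 0, nat_lit 0, nat_lit 0, nat_lit 0, nat_lit 0, nat_lit 0, nat_lit 0, nat_lit 0, nat_lit 0, nat_lit 0, nat_lit 0, nat_lit 0, nat_lit 0, nat_lit 0, nat_lit 0, false, false⟩,
 nat_lit 0, nat_lit 12884, nat_lit 0, nat_lit 0, nat_lit 9662, nat_lit 5591, nat_lit 0, nat_lit 0, nat_lit 0, nat_lit 430, nat_lit 0, nat_lit 0, nat_lit 0, nat_lit 0, nat_lit 0, nat_lit 0, nat_lit 0, nat_lit 0, [],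
 ⟨p021_k19, nat_lit 0, nat_lit 0, nat_lit 601, nat_lit 0, nat_lit 1386684, [nat_lit 2032000001, nat_lit 4688000000], [], [nat_lit 17527074320, nat_lit 17565661968, nat_lit 17578500617, nat_lit 17666659894], nat_lit 1271250, nat_lit 1271250, nat_lit 1100001, nat_lit 1133651, nat_lit 0, nat_lit 0, [nat_lit 490000, nat_lit 1100000], [nat_lit 24, nat_lit 40, nat_lit 80, nat_lit 80, nat_lit 33, nat_lit 211, nat_lit 0, nat_lit 9]⟩, ⟨p021_k80, nat_lit 0, nat_lit 0, nat_lit 0, nat_lit 0, nat_lit 0, [nat_lit 3282000000, nat_lit 4688000000], [], [nat_lit 20155370399, nat_lit 20245967388, nat_lit 20307896182, nat_lit 20422557260], nat_lit 0, nat_lit 0, nat_lit 0, nat_lit 0, nat_lit 0, nat_lit 0, [], [nat_lit 40, nat_lit 40, nat_lit 80, nat_lit 80]⟩,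
 zbF0, []⟩
noncomputable def p021_l180 : Lf2 := ⟨nat_lit 0, nat_lit 4, [nat_lit 38, nat_lit 5, nat_lit 5, nat_lit 20], false, nat_lit 0, nat_lit 0, nat_lit 0, nat_lit 0, ⟨nat_lit 1000, nat_lit 0, nat_lit 0, nat_lit 0, nat_lit 0, nat_lit 0, nat_lit 0, nat_lit 0, nat_lit 0, nat_lit 0, nat_lit 0, nat_lit 0, nat_lit 0, nat_lit 0, nat_lit 0, nat_lit 0, false, false⟩,
 nat_lit 0, nat_lit 8843, nat_lit 0, nat_lit 0, nat_lit 6632, nat_lit 5581, nat_lit 0, nat_lit 0, nat_lit 0, nat_lit 429, nat_lit 0, nat_lit 0, nat_lit 0, nat_lit 0, nat_lit 0, nat_lit 0, nat_lit 0, nat_lit 0, [],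
 ⟨p021_k19, nat_lit 0, nat_lit 0, nat_lit 600, nat_lit 0, nat_lit 1386684, [nat_lit 2032000001, nat_lit 4688000000], [], [nat_lit 32866506641, nat_lit 32900545050, nat_lit 32906702996, nat_lit 32946087054], nat_lit 1271250, nat_lit 1271250, nat_lit 1133651, nat_lit 1167600, nat_lit 0, nat_lit 0, [nat_lit 490000, nat_lit 1100000], [nat_lit 24, nat_lit 40, nat_lit 80, nat_lit 80, nat_lit 33, nat_lit 212, nat_lit 0, nat_lit 9]⟩, ⟨p021_k80, nat_lit 0, nat_lit 0, nat_lit 0, nat_lit 0, nat_lit 0, [nat_lit 3282000000, nat_lit 4688000000], [], [nat_lit 20319580097, nat_lit 20409602704, nat_lit 20472031380, nat_lit 20587721240], nat_lit 0, nat_lit 0, nat_lit 0, nat_lit 0, nat_lit 0, nat_lit 0, [], [nat_lit 40, nat_lit 40, nat_lit 80, nat_lit 80]⟩,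
 zbF0, []⟩
noncomputable def p021_l181 : Lf2 := ⟨nat_lit 0, nat_lit 4, [nat_lit 38, nat_lit 5, nat_lit 5, nat_lit 20], false, nat_lit 0, nat_lit 0, nat_lit 0, nat_lit 0, ⟨nat_lit 1000, nat_lit 0, nat_lit 0, nat_lit 0, nat_lit 0, nat_lit 0, nat_lit 0, nat_lit 0, nat_lit 0, nat_lit 0, nat_lit 0, nat_lit 0, nat_lit 0, nat_lit 0, nat_lit 0, nat_lit 0, false, false⟩,
 nat_lit 0, nat_lit 8830, nat_lit 0, nat_lit 0, nat_lit 6622, nat_lit 5570, nat_lit 0, nat_lit 0, nat_lit 0, nat_lit 428, nat_lit 0, nat_lit 0, nat_lit 0, nat_lit 0, nat_lit 0, nat_lit 0, nat_lit 0, nat_lit 0, [],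
 ⟨p021_k19, nat_lit 0, nat_lit 0, nat_lit 600, nat_lit 0, nat_lit 1386684, [nat_lit 2032000001, nat_lit 4688000000], [], [nat_lit 32963286635, nat_lit 32997071633, nat_lit 33095351696, nat_lit 33133891293], nat_lit 1271250, nat_lit 1271250, nat_lit 1167600, nat_lit 1271250, nat_lit 0, nat_lit 0, [nat_lit 490000, nat_lit 1100000], [nat_lit 24, nat_lit 40, nat_lit 80, nat_lit 80, nat_lit 33, nat_lit 213, nat_lit 0, nat_lit 9]⟩, ⟨p021_k80, nat_lit 0, nat_lit 0, nat_lit 0, nat_lit 0, nat_lit 0, [nat_lit 3282000000, nat_lit 4688000000], [], [nat_lit 20484614861, nat_lit 20573609704, nat_lit 20992228464, nat_lit 21107407620], nat_lit 0, nat_lit 0, nat_lit 0, nat_lit 0, nat_lit 0, nat_lit 0, [], [nat_lit 40, nat_lit 40, nat_lit 80, nat_lit 80]⟩,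
 zbF0, []⟩
noncomputable def p021_l182 : Lf2 := ⟨nat_lit 0, nat_lit 4, [nat_lit 38, nat_lit 5, nat_lit 5, nat_lit 20], false, nat_lit 0, nat_lit 0, nat_lit 0, nat_lit 0, ⟨nat_lit 1000, nat_lit 0, nat_lit 0, nat_lit 0, nat_lit 0, nat_lit 0, nat_lit 0, nat_lit 0, nat_lit 0, nat_lit 0, nat_lit 0, nat_lit 0, nat_lit 0, nat_lit 0, nat_lit 0, nat_lit 0, false, false⟩,
 nat_lit 0, nat_lit 8790, nat_lit 0, nat_lit 0, nat_lit 6592, nat_lit 5537, nat_lit 0, nat_lit 0, nat_lit 0, nat_lit 426, nat_lit 0, nat_lit 0, nat_lit 0, nat_lit 0, nat_lit 0, nat_lit 0, nat_lit 0, nat_lit 0, [],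
 ⟨p021_k19, nat_lit 0, nat_lit 0, nat_lit 599, nat_lit 0, nat_lit 1386684, [nat_lit 2032000001, nat_lit 4688000000], [], [nat_lit 33254237874, nat_lit 33287266003, nat_lit 33478485664, nat_lit 33515591484], nat_lit 1271250, nat_lit 1271250, nat_lit 1271250, nat_lit 1271250, nat_lit 0, nat_lit 0, [nat_lit 490000, nat_lit 1100000], [nat_lit 24, nat_lit 40, nat_lit 80, nat_lit 80, nat_lit 33, nat_lit 215, nat_lit 0, nat_lit 9]⟩, ⟨p021_k80, nat_lit 0, nat_lit 0, nat_lit 0, nat_lit 0, nat_lit 0, [nat_lit 3282000000, nat_lit 4688000000], [], [nat_lit 20976867003, nat_lit 21063460592, nat_lit 21841999248, nat_lit 21951896548], nat_lit 0, nat_lit 0, nat_lit 0, nat_lit 0, nat_lit 0, nat_lit 0, [], [nat_lit 40, nat_lit 40, nat_lit 80, nat_lit 80]⟩,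
 zbF0, []⟩
noncomputable def p021_l183 : Lf2 := ⟨nat_lit 0, nat_lit 4, [nat_lit 38, nat_lit 5, nat_lit 5, nat_lit 20], false, nat_lit 0, nat_lit 0, nat_lit 0, nat_lit 0, ⟨nat_lit 1000, nat_lit 0, nat_lit 0, nat_lit 0, nat_lit 0, nat_lit 0, nat_lit 0, nat_lit 0, nat_lit 0, nat_lit 0, nat_lit 0, nat_lit 0, nat_lit 0, nat_lit 0, nat_lit 0, nat_lit 0, false, false⟩,
 nat_lit 0, nat_lit 8725, nat_lit 0, nat_lit 0, nat_lit 6543, nat_lit 5483, nat_lit 0, nat_lit 0, nat_lit 0, nat_lit 422, nat_lit 0, nat_lit 0, nat_lit 0, nat_lit 0, nat_lit 0, nat_lit 0, nat_lit 0, nat_lit 0, [],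
 ⟨p021_k19, nat_lit 0, nat_lit 0, nat_lit 597, nat_lit 0, nat_lit 1386684, [nat_lit 2032000001, nat_lit 4688000000], [], [nat_lit 33735136248, nat_lit 33766915871, nat_lit 34191943720, nat_lit 34226233371], nat_lit 1271250, nat_lit 1271250, nat_lit 1271250, nat_lit 1271250, nat_lit 0, nat_lit 0, [nat_lit 490000, nat_lit 1100000], [nat_lit 24, nat_lit 40, nat_lit 80, nat_lit 80, nat_lit 33, nat_lit 220, nat_lit 0, nat_lit 9]⟩, ⟨p021_k80, nat_lit 0, nat_lit 0, nat_lit 0, nat_lit 0, nat_lit 0, [nat_lit 3282000000, nat_lit 4688000000], [], [nat_lit 21794340605, nat_lit 21877311532, nat_lit 23549555239, nat_lit 23649159840], nat_lit 0, nat_lit 0, nat_lit 0, nat_lit 0, nat_lit 0, nat_lit 0, [], [nat_lit 40, nat_lit 40, nat_lit 80, nat_lit 80]⟩,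
 zbF0, []⟩
noncomputable def p021_l184 : Lf2 := ⟨nat_lit 0, nat_lit 4, [nat_lit 38, nat_lit 5, nat_lit 5, nat_lit 20], false, nat_lit 0, nat_lit 0, nat_lit 0, nat_lit 0, ⟨nat_lit 1000, nat_lit 0, nat_lit 0, nat_lit 0, nat_lit 0, nat_lit 0, nat_lit 0, nat_lit 0, nat_lit 0, nat_lit 0, nat_lit 0, nat_lit 0, nat_lit 0, nat_lit 0, nat_lit 0, nat_lit 0, false, false⟩,
 nat_lit 0, nat_lit 8813, nat_lit 0, nat_lit 0, nat_lit 6635, nat_lit 5614, nat_lit 0, nat_lit 0, nat_lit 0, nat_lit 487, nat_lit 0, nat_lit 0, nat_lit 0, nat_lit 0, nat_lit 0, nat_lit 0, nat_lit 0, nat_lit 0, [],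
 ⟨p021_k81, nat_lit 0, nat_lit 0, nat_lit 595, nat_lit 0, nat_lit 1368572, [nat_lit 2032000001, nat_lit 4688000000], [], [nat_lit 32846155450, nat_lit 32880433798, nat_lit 33752250806, nat_lit 33786722213], nat_lit 1271250, nat_lit 1271250, nat_lit 1100001, nat_lit 1785000, nat_lit 0, nat_lit 0, [nat_lit 490000, nat_lit 1100000], [nat_lit 24, nat_lit 40, nat_lit 80, nat_lit 80, nat_lit 33, nat_lit 219, nat_lit 0, nat_lit 9]⟩, ⟨p021_k55, nat_lit 0, nat_lit 0, nat_lit 0, nat_lit 0, nat_lit 0, [nat_lit 3282000000, nat_lit 4688000000], [], [nat_lit 19761743762, nat_lit 20034206411, nat_lit 23337383527, nat_lit 23640500643], nat_lit 0, nat_lit 0, nat_lit 0, nat_lit 0, nat_lit 0, nat_lit 0, [], [nat_lit 40, nat_lit 40, nat_lit 80, nat_lit 80]⟩,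
 zbF0, []⟩
noncomputable def p021_l185 : Lf2 := ⟨nat_lit 0, nat_lit 4, [nat_lit 38, nat_lit 5, nat_lit 5, nat_lit 20], false, nat_lit 0, nat_lit 0, nat_lit 0, nat_lit 0, ⟨nat_lit 1000, nat_lit 0, nat_lit 0, nat_lit 0, nat_lit 0, nat_lit 0, nat_lit 0, nat_lit 0, nat_lit 0, nat_lit 0, nat_lit 0, nat_lit 0, nat_lit 0, nat_lit 0, nat_lit 0, nat_lit 0, false, false⟩,
 nat_lit 0, nat_lit 11286, nat_lit 0, nat_lit 0, nat_lit 8497, nat_lit 5591, nat_lit 0, nat_lit 0, nat_lit 0, nat_lit 442, nat_lit 0, nat_lit 0, nat_lit 0, nat_lit 0, nat_lit 0, nat_lit 0, nat_lit 0, nat_lit 0, [],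
 ⟨p021_k81, nat_lit 0, nat_lit 0, nat_lit 601, nat_lit 0, nat_lit 1386035, [nat_lit 2032000001, nat_lit 4688000000], [], [nat_lit 24313109201, nat_lit 24349553482, nat_lit 28244671773, nat_lit 28390072986], nat_lit 1271250, nat_lit 1271250, nat_lit 1100001, nat_lit 1785000, nat_lit 0, nat_lit 0, [nat_lit 490000, nat_lit 1100000], [nat_lit 24, nat_lit 40, nat_lit 80, nat_lit 80, nat_lit 33, nat_lit 221, nat_lit 0, nat_lit 10]⟩, ⟨p021_k79, nat_lit 0, nat_lit 0, nat_lit 0, nat_lit 0, nat_lit 0, [nat_lit 3282000000, nat_lit 4688000000], [], [nat_lit 20065829659, nat_lit 20247023638, nat_lit 23607045299, nat_lit 23808619680], nat_lit 0, nat_lit 0, nat_lit 0, nat_lit 0, nat_lit 0, nat_lit 0, [], [nat_lit 40, nat_lit 40, nat_lit 80, nat_lit 80]⟩,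
 zbF0, []⟩
noncomputable def p021_l186 : Lf2 := ⟨nat_lit 0, nat_lit 4, [nat_lit 38, nat_lit 5, nat_lit 5, nat_lit 20], false, nat_lit 0, nat_lit 0, nat_lit 0, nat_lit 0, ⟨nat_lit 1000, nat_lit 0, nat_lit 0, nat_lit 0, nat_lit 0, nat_lit 0, nat_lit 0, nat_lit 0, nat_lit 0, nat_lit 0, nat_lit 0, nat_lit 0, nat_lit 0, nat_lit 0, nat_lit 0, nat_lit 0, false, false⟩,
 nat_lit 0, nat_lit 8771, nat_lit 0, nat_lit 0, nat_lit 6629, nat_lit 5591, nat_lit 6324, nat_lit 0, nat_lit 0, nat_lit 482, nat_lit 0, nat_lit 0, nat_lit 0, nat_lit 0, nat_lit 0, nat_lit 0, nat_lit 0, nat_lit 0, [],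
 ⟨p021_k57, nat_lit 0, nat_lit 0, nat_lit 635, nat_lit 0, nat_lit 1438155, [nat_lit 2032000001, nat_lit 4688000000], [], [nat_lit 21987788881, nat_lit 22022055200, nat_lit 25585884811, nat_lit 25708224256], nat_lit 1271250, nat_lit 1271250, nat_lit 1100001, nat_lit 1785000, nat_lit 0, nat_lit 0, [nat_lit 490000, nat_lit 1100000], [nat_lit 24, nat_lit 40, nat_lit 80, nat_lit 80, nat_lit 33, nat_lit 230, nat_lit 0, nat_lit 10]⟩, ⟨p021_k55, nat_lit 0, nat_lit 0, nat_lit 0, nat_lit 0, nat_lit 0, [nat_lit 3282000000, nat_lit 4688000000], [], [nat_lit 19793713691, nat_lit 20246698638, nat_lit 23304683726, nat_lit 23808619680], nat_lit 0, nat_lit 0, nat_lit 0, nat_lit 0, nat_lit 0, nat_lit 0, [], [nat_lit 40, nat_lit 40, nat_lit 80, nat_lit 80]⟩,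
 zbF0, []⟩
noncomputable def p021_l187 : Lf2 := ⟨nat_lit 0, nat_lit 4, [nat_lit 38, nat_lit 5, nat_lit 5, nat_lit 20], false, nat_lit 0, nat_lit 0, nat_lit 0, nat_lit 0, ⟨nat_lit 1000, nat_lit 0, nat_lit 0, nat_lit 0, nat_lit 0, nat_lit 0, nat_lit 0, nat_lit 0, nat_lit 0, nat_lit 0, nat_lit 0, nat_lit 0, nat_lit 0, nat_lit 0, nat_lit 0, nat_lit 0, false, false⟩,
 nat_lit 0, nat_lit 8790, nat_lit 0, nat_lit 0, nat_lit 6669, nat_lit 4993, nat_lit 3416, nat_lit 0, nat_lit 0, nat_lit 1754, nat_lit 0, nat_lit 0, nat_lit 0, nat_lit 0, nat_lit 0, nat_lit 0, nat_lit 0, nat_lit 0, [],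
 ⟨p021_k58, nat_lit 0, nat_lit 0, nat_lit 639, nat_lit 0, nat_lit 1443796, [nat_lit 2032000001, nat_lit 4688000000], [], [nat_lit 22293571435, nat_lit 22367310659, nat_lit 25768764940, nat_lit 26014431487], nat_lit 1271250, nat_lit 1271250, nat_lit 1100001, nat_lit 1785000, nat_lit 0, nat_lit 0, [nat_lit 490000, nat_lit 1100000], [nat_lit 24, nat_lit 40, nat_lit 80, nat_lit 80, nat_lit 33, nat_lit 231, nat_lit 0, nat_lit 10]⟩, ⟨p021_k54, nat_lit 0, nat_lit 0, nat_lit 0, nat_lit 0, nat_lit 0, [nat_lit 3282000000, nat_lit 6250000000], [], [nat_lit 18692072162, nat_lit 19477735626, nat_lit 21983293133, nat_lit 22925684640], nat_lit 0, nat_lit 0, nat_lit 0, nat_lit 0, nat_lit 0, nat_lit 0, [], [nat_lit 49, nat_lit 40, nat_lit 80, nat_lit 80]⟩,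
 zbF0, []⟩
noncomputable def p021_l188 : Lf2 := ⟨nat_lit 0, nat_lit 5, [nat_lit 4, nat_lit 5, nat_lit 5, nat_lit 20], false, nat_lit 0, nat_lit 0, nat_lit 0, nat_lit 0, ⟨nat_lit 1000, nat_lit 0, nat_lit 0, nat_lit 0, nat_lit 0, nat_lit 0, nat_lit 0, nat_lit 0, nat_lit 0, nat_lit 0, nat_lit 0, nat_lit 0, nat_lit 0, nat_lit 0, nat_lit 0, nat_lit 0, false, false⟩,
 nat_lit 0, nat_lit 8840, nat_lit 0, nat_lit 0, nat_lit 6629, nat_lit 4993, nat_lit 473, nat_lit 0, nat_lit 0, nat_lit 1754, nat_lit 0, nat_lit 0, nat_lit 0, nat_lit 0, nat_lit 0, nat_lit 0, nat_lit 0, nat_lit 0, [],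
 ⟨p021_k8, nat_lit 0, nat_lit 0, nat_lit 673, nat_lit 0, nat_lit 1358120, [nat_lit 2032000001, nat_lit 4688000000, nat_lit 6250000000], [], [nat_lit 32847918742, nat_lit 32950963870, nat_lit 33748703160, nat_lit 33852081818], nat_lit 1271250, nat_lit 1271250, nat_lit 1100001, nat_lit 1785000, nat_lit 0, nat_lit 0, [nat_lit 490000, nat_lit 1100000, nat_lit 1442500], [nat_lit 6, nat_lit 40, nat_lit 80, nat_lit 80, nat_lit 3, nat_lit 272, nat_lit 60, nat_lit 10]⟩, ⟨p021_k10, nat_lit 0, nat_lit 0, nat_lit 0, nat_lit 0, nat_lit 0, [nat_lit 3282000000, nat_lit 6250000000], [], [nat_lit 18692072162, nat_lit 19477735626, nat_lit 21983293133, nat_lit 22925684640], nat_lit 0, nat_lit 0, nat_lit 0, nat_lit 0, nat_lit 0, nat_lit 0, [], [nat_lit 49, nat_lit 40, nat_lit 80, nat_lit 80]⟩,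
 zbF0, []⟩
noncomputable def p021_l189 : Lf2 := ⟨nat_lit 0, nat_lit 5, [nat_lit 4, nat_lit 5, nat_lit 5, nat_lit 20], false, nat_lit 0, nat_lit 0, nat_lit 0, nat_lit 0, ⟨nat_lit 1000, nat_lit 0, nat_lit 0, nat_lit 0, nat_lit 0, nat_lit 0, nat_lit 0, nat_lit 0, nat_lit 0, nat_lit 0, nat_lit 0, nat_lit 0, nat_lit 0, nat_lit 0, nat_lit 0, nat_lit 0, false, false⟩,
 nat_lit 0, nat_lit 8630, nat_lit 0, nat_lit 0, nat_lit 6548, nat_lit 5524, nat_lit 4243, nat_lit 0, nat_lit 0, nat_lit 1338, nat_lit 0, nat_lit 0, nat_lit 0, nat_lit 0, nat_lit 0, nat_lit 0, nat_lit 0, nat_lit 0, [],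
 ⟨p021_k49, nat_lit 0, nat_lit 0, nat_lit 589, nat_lit 0, nat_lit 1350195, [nat_lit 2032000001, nat_lit 4688000000], [], [nat_lit 22123551623, nat_lit 22199944745, nat_lit 25585629371, nat_lit 25828308258], nat_lit 1271250, nat_lit 1271250, nat_lit 1100001, nat_lit 1785000, nat_lit 0, nat_lit 0, [nat_lit 490000, nat_lit 1100000], [nat_lit 24, nat_lit 40, nat_lit 80, nat_lit 80, nat_lit 33, nat_lit 218, nat_lit 0, nat_lit 9]⟩, ⟨p021_k10, nat_lit 0, nat_lit 0, nat_lit 0, nat_lit 0, nat_lit 0, [nat_lit 3282000000, nat_lit 6250000000], [], [nat_lit 19326886766, nat_lit 20159091318, nat_lit 22709160044, nat_lit 23709695520], nat_lit 0, nat_lit 0, nat_lit 0, nat_lit 0, nat_lit 0, nat_lit 0, [], [nat_lit 49, nat_lit 40, nat_lit 80, nat_lit 80]⟩,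
 zbF0, []⟩
noncomputable def b_N_800_700_0_28 : St := ⟨false, nat_lit 1, nat_lit 0, nat_lit 2, nat_lit 40, nat_lit 320, nat_lit 325, nat_lit 310, nat_lit 320, nat_lit 160, nat_lit 240, nat_lit 0, nat_lit 0, nat_lit 0, nat_lit 0, nat_lit 0, nat_lit 0, nat_lit 8, nat_lit 20, nat_lit 0, nat_lit 0, nat_lit 0, nat_lit 800⟩
theorem d_N_800_700_0_28 (h : EB TB.env) : Dead b_N_800_700_0_28 := chkB_sound0 h (T :=
(.spl (nat_lit 6) (nat_lit 16)
(.spl (nat_lit 0) (nat_lit 323)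
(.spl (nat_lit 1) (nat_lit 315)
(.spl (nat_lit 6) (nat_lit 12)
(.spl (nat_lit 0) (nat_lit 322)
(.leaf p021_l154)
(.leaf p021_l155))
(.leaf p021_l156))
(.spl (nat_lit 0) (nat_lit 322)
(.spl (nat_lit 6) (nat_lit 12)
(.spl (nat_lit 2) (nat_lit 200)
(.spl (nat_lit 2) (nat_lit 180)
(.spl (nat_lit 7) (nat_lit 600)
(.leaf p021_l157)
(.spl (nat_lit 1) (nat_lit 318)
(.spl (nat_lit 0) (nat_lit 321)
(.spl (nat_lit 1) (nat_lit 317)
(.leaf p021_l158)
(.spl (nat_lit 2) (nat_lit 168)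
(.spl (nat_lit 2) (nat_lit 164)
(.spl (nat_lit 7) (nat_lit 900)
(.leaf p021_l159)
(.leaf p021_l160))
(.spl (nat_lit 7) (nat_lit 900)
(.leaf p021_l161)
(.leaf p021_l162)))
(.leaf p021_l163)))
(.spl (nat_lit 1) (nat_lit 317)
(.leaf p021_l164)
(.spl (nat_lit 2) (nat_lit 168)
(.spl (nat_lit 2) (nat_lit 164)
(.spl (nat_lit 7) (nat_lit 900)
(.leaf p021_l165)
(.leaf p021_l166))
(.leaf p021_l167))
(.leaf p021_l168))))
(.spl (nat_lit 7) (nat_lit 900)
(.leaf p021_l169)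
(.leaf p021_l170))))
(.spl (nat_lit 0) (nat_lit 321)
(.spl (nat_lit 1) (nat_lit 318)
(.leaf p021_l171)
(.spl (nat_lit 1) (nat_lit 319)
(.leaf p021_l172)
(.leaf p021_l173)))
(.leaf p021_l174)))
(.leaf p021_l175))
(.spl (nat_lit 0) (nat_lit 321)
(.spl (nat_lit 1) (nat_lit 318)
(.leaf p021_l176)
(.spl (nat_lit 1) (nat_lit 319)
(.leaf p021_l177)
(.spl (nat_lit 2) (nat_lit 200)
(.spl (nat_lit 2) (nat_lit 180)
(.spl (nat_lit 2) (nat_lit 168)
(.spl (nat_lit 2) (nat_lit 164)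
(.spl (nat_lit 7) (nat_lit 600)
(.leaf p021_l178)
(.leaf p021_l179))
(.leaf p021_l180))
(.leaf p021_l181))
(.leaf p021_l182))
(.leaf p021_l183))))
(.spl (nat_lit 1) (nat_lit 318)
(.leaf p021_l184)
(.leaf p021_l185))))
(.leaf p021_l186)))
(.leaf p021_l187))
(.spl (nat_lit 0) (nat_lit 323)
(.leaf p021_l188)
(.leaf p021_l189)))) (by decide +kernel)
noncomputable def p021_l190 : Lf2 := ⟨nat_lit 0, nat_lit 10, [nat_lit 0, nat_lit 5, nat_lit 5, nat_lit 20], false, nat_lit 0, nat_lit 0, nat_lit 0, nat_lit 0, ⟨nat_lit 193, nat_lit 807, nat_lit 0, nat_lit 7, nat_lit 190, nat_lit 0, nat_lit 0, nat_lit 0, nat_lit 0, nat_lit 0, nat_lit 0, nat_lit 0, nat_lit 0, nat_lit 0, nat_lit 0, nat_lit 5000000, false, false⟩,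
 nat_lit 0, nat_lit 6775, nat_lit 0, nat_lit 0, nat_lit 5081, nat_lit 1771, nat_lit 0, nat_lit 0, nat_lit 0, nat_lit 314, nat_lit 0, nat_lit 0, nat_lit 0, nat_lit 0, nat_lit 0, nat_lit 807000, nat_lit 0, nat_lit 0, [(nat_lit 18, [(nat_lit 2, nat_lit 807)])],
 ⟨p021_k0, nat_lit 0, nat_lit 0, nat_lit 616, nat_lit 0, nat_lit 1158358, [nat_lit 1765582401, nat_lit 1748368001, nat_lit 848587600], [], [nat_lit 20429648694, nat_lit 20791285265, nat_lit 20531682888, nat_lit 20866012745], nat_lit 1271250, nat_lit 1271250, nat_lit 631250, nat_lit 1100001, nat_lit 0, nat_lit 0, [nat_lit 490000, nat_lit 1100000, nat_lit 1442500], [nat_lit 6, nat_lit 40, nat_lit 80, nat_lit 80, nat_lit 3, nat_lit 249, nat_lit 40, nat_lit 9]⟩, ⟨p021_k1, nat_lit 0, nat_lit 0, nat_lit 0, nat_lit 0, nat_lit 0, [nat_lit 633426000, nat_lit 1206250000, nat_lit 1899506000], [], [nat_lit 3691390271, nat_lit 3915024139, nat_lit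 3652752456, nat_lit 3903864624], nat_lit 0, nat_lit 0, nat_lit 0, nat_lit 0, nat_lit 0, nat_lit 0, [], [nat_lit 8, nat_lit 40, nat_lit 80, nat_lit 80]⟩,
 ⟨nat_lit 4183, nat_lit 4473, ⟨.ofNat (nat_lit 416301), .ofNat (nat_lit 518271), .ofNat (nat_lit 427083), .ofNat (nat_lit 529051), .ofNat (nat_lit 421009), .ofNat (nat_lit 520394), .ofNat (nat_lit 431840), .ofNat (nat_lit 531225)⟩, ⟨.ofNat (nat_lit 0), .ofNat (nat_lit 0), .ofNat (nat_lit 0), .ofNat (nat_lit 0), .ofNat (nat_lit 0), .ofNat (nat_lit 0), .ofNat (nat_lit 0), .ofNat (nat_lit 0)⟩⟩, [⟨nat_lit 0, nat_lit 97, nat_lit 82, nat_lit 100, nat_lit 98802632⟩]⟩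
noncomputable def p021_l191 : Lf2 := ⟨nat_lit 0, nat_lit 8, [nat_lit 50, nat_lit 5, nat_lit 5, nat_lit 20], false, nat_lit 0, nat_lit 0, nat_lit 0, nat_lit 0, ⟨nat_lit 1000, nat_lit 0, nat_lit 0, nat_lit 0, nat_lit 0, nat_lit 0, nat_lit 0, nat_lit 0, nat_lit 0, nat_lit 0, nat_lit 0, nat_lit 0, nat_lit 0, nat_lit 0, nat_lit 0, nat_lit 0, false, false⟩,
 nat_lit 0, nat_lit 8585, nat_lit 0, nat_lit 0, nat_lit 6438, nat_lit 8023, nat_lit 518, nat_lit 0, nat_lit 0, nat_lit 1315, nat_lit 0, nat_lit 0, nat_lit 0, nat_lit 0, nat_lit 0, nat_lit 0, nat_lit 0, nat_lit 0, [],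
 ⟨p021_k82, nat_lit 0, nat_lit 0, nat_lit 607, nat_lit 0, nat_lit 1145740, [nat_lit 2032000001, nat_lit 4688000000, nat_lit 6250000000], [], [nat_lit 31417121872, nat_lit 31638706231, nat_lit 31379231026, nat_lit 31583848118], nat_lit 1271250, nat_lit 1271250, nat_lit 689850, nat_lit 1100001, nat_lit 0, nat_lit 0, [nat_lit 490000, nat_lit 1100000, nat_lit 1442500], [nat_lit 6, nat_lit 40, nat_lit 80, nat_lit 80, nat_lit 3, nat_lit 249, nat_lit 40, nat_lit 9]⟩, ⟨p021_k83, nat_lit 0, nat_lit 0, nat_lit 0, nat_lit 0, nat_lit 0, [nat_lit 3282000000, nat_lit 6250000000, nat_lit 7968000000], [], [nat_lit 19224260806, nat_lit 19805532638, nat_lit 19281664610, nat_lit 19873944800], nat_lit 0, nat_lit 0, nat_lit 0, nat_lit 0, nat_lit 0, nat_lit 0, [], [nat_lit 18, nat_lit 40, nat_lit 80, nat_lit 80]⟩,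
 zbF0, [⟨nat_lit 0, nat_lit 96, nat_lit 85, nat_lit 100, nat_lit 648628667⟩]⟩
noncomputable def p021_l192 : Lf2 := ⟨nat_lit 0, nat_lit 8, [nat_lit 50, nat_lit 5, nat_lit 5, nat_lit 20], false, nat_lit 0, nat_lit 0, nat_lit 0, nat_lit 0, ⟨nat_lit 461, nat_lit 539, nat_lit 0, nat_lit 7, nat_lit 200, nat_lit 0, nat_lit 0, nat_lit 0, nat_lit 0, nat_lit 0, nat_lit 0, nat_lit 0, nat_lit 0, nat_lit 0, nat_lit 0, nat_lit 5000000, false, false⟩,
 nat_lit 0, nat_lit 8194, nat_lit 0, nat_lit 0, nat_lit 6145, nat_lit 3416, nat_lit 77, nat_lit 0, nat_lit 0, nat_lit 602, nat_lit 0, nat_lit 0, nat_lit 0, nat_lit 0, nat_lit 0, nat_lit 539000, nat_lit 0, nat_lit 0, [(nat_lit 18, [(nat_lit 2, nat_lit 539)])],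
 ⟨p021_k82, nat_lit 0, nat_lit 0, nat_lit 620, nat_lit 0, nat_lit 1184319, [nat_lit 1854058134, nat_lit 2724602667, nat_lit 2642365200], [], [nat_lit 21616791001, nat_lit 21812815439, nat_lit 21552942403, nat_lit 21732394936], nat_lit 1271250, nat_lit 1271250, nat_lit 749650, nat_lit 1100001, nat_lit 0, nat_lit 0, [nat_lit 490000, nat_lit 1100000, nat_lit 1442500], [nat_lit 6, nat_lit 40, nat_lit 80, nat_lit 80, nat_lit 3, nat_lit 249, nat_lit 40, nat_lit 9]⟩, ⟨p021_k84, nat_lit 0, nat_lit 0, nat_lit 0, nat_lit 0, nat_lit 0, [nat_lit 1513002000, nat_lit 2881250000, nat_lit 3673248000], [], [nat_lit 8898897097, nat_lit 9152639961, nat_lit 8936152516, nat_lit 9194913754], nat_lit 0, nat_lit 0, nat_lit 0, nat_lit 0, nat_lit 0, nat_lit 0, [], [nat_lit 18, nat_lit 40, nat_lit 80, nat_lit 80]⟩,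
 ⟨nat_lit 4330, nat_lit 4473, ⟨.ofNat (nat_lit 459681), .ofNat (nat_lit 534458), .ofNat (nat_lit 465073), .ofNat (nat_lit 539849), .ofNat (nat_lit 461712), .ofNat (nat_lit 535542), .ofNat (nat_lit 467116), .ofNat (nat_lit 540945)⟩, ⟨.ofNat (nat_lit 0), .ofNat (nat_lit 0), .ofNat (nat_lit 0), .ofNat (nat_lit 0), .ofNat (nat_lit 0), .ofNat (nat_lit 0), .ofNat (nat_lit 0), .ofNat (nat_lit 0)⟩⟩, [⟨nat_lit 0, nat_lit 93, nat_lit 84, nat_lit 100, nat_lit 299166294⟩]⟩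
noncomputable def p021_l193 : Lf2 := ⟨nat_lit 0, nat_lit 10, [nat_lit 0, nat_lit 5, nat_lit 5, nat_lit 20], false, nat_lit 0, nat_lit 0, nat_lit 0, nat_lit 0, ⟨nat_lit 1000, nat_lit 0, nat_lit 0, nat_lit 0, nat_lit 0, nat_lit 0, nat_lit 0, nat_lit 0, nat_lit 0, nat_lit 0, nat_lit 0, nat_lit 0, nat_lit 0, nat_lit 0, nat_lit 0, nat_lit 0, false, false⟩,
 nat_lit 0, nat_lit 8424, nat_lit 0, nat_lit 0, nat_lit 6318, nat_lit 5732, nat_lit 510, nat_lit 0, nat_lit 0, nat_lit 1135, nat_lit 0, nat_lit 0, nat_lit 0, nat_lit 0, nat_lit 0, nat_lit 0, nat_lit 0, nat_lit 0, [],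
 ⟨p021_k0, nat_lit 0, nat_lit 0, nat_lit 566, nat_lit 0, nat_lit 1071452, [nat_lit 2032000001, nat_lit 4688000000, nat_lit 6250000000], [], [nat_lit 31950648557, nat_lit 32174695887, nat_lit 31882015673, nat_lit 32101114844], nat_lit 1271250, nat_lit 1271250, nat_lit 689850, nat_lit 1100001, nat_lit 0, nat_lit 0, [nat_lit 490000, nat_lit 1100000, nat_lit 1442500], [nat_lit 6, nat_lit 40, nat_lit 80, nat_lit 80, nat_lit 3, nat_lit 249, nat_lit 40, nat_lit 9]⟩, ⟨p021_k3, nat_lit 0, nat_lit 0, nat_lit 0, nat_lit 0, nat_lit 0, [nat_lit 3282000000, nat_lit 6250000000, nat_lit 7968000000], [], [nat_lit 19829727286, nat_lit 20766675949, nat_lit 20141393566, nat_lit 20991828902], nat_lit 0, nat_lit 0, nat_lit 0, nat_lit 0, nat_lit 0, nat_lit 0, [], [nat_lit 18, nat_lit 40, nat_lit 80, nat_lit 80]⟩,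
 zbF0, [⟨nat_lit 0, nat_lit 93, nat_lit 84, nat_lit 100, nat_lit 656485998⟩]⟩
noncomputable def p021_l194 : Lf2 := ⟨nat_lit 0, nat_lit 10, [nat_lit 0, nat_lit 5, nat_lit 5, nat_lit 20], false, nat_lit 0, nat_lit 0, nat_lit 0, nat_lit 0, ⟨nat_lit 1000, nat_lit 0, nat_lit 0, nat_lit 0, nat_lit 0, nat_lit 0, nat_lit 0, nat_lit 0, nat_lit 0, nat_lit 0, nat_lit 0, nat_lit 0, nat_lit 0, nat_lit 0, nat_lit 0, nat_lit 0, false, false⟩,
 nat_lit 0, nat_lit 9470, nat_lit 0, nat_lit 0, nat_lit 7241, nat_lit 5732, nat_lit 1430, nat_lit 0, nat_lit 0, nat_lit 1135, nat_lit 0, nat_lit 0, nat_lit 0, nat_lit 0, nat_lit 0, nat_lit 0, nat_lit 0, nat_lit 0, [],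
 ⟨p021_k2, nat_lit 0, nat_lit 0, nat_lit 627, nat_lit 0, nat_lit 1202357, [nat_lit 2032000001, nat_lit 4688000000, nat_lit 6250000000], [], [nat_lit 24138118446, nat_lit 24359971314, nat_lit 23930338097, nat_lit 24138013290], nat_lit 1271250, nat_lit 1271250, nat_lit 749650, nat_lit 1100001, nat_lit 0, nat_lit 0, [nat_lit 490000, nat_lit 1100000, nat_lit 1442500], [nat_lit 6, nat_lit 40, nat_lit 80, nat_lit 80, nat_lit 3, nat_lit 249, nat_lit 40, nat_lit 9]⟩, ⟨p021_k3, nat_lit 0, nat_lit 0, nat_lit 0, nat_lit 0, nat_lit 0, [nat_lit 3282000000, nat_lit 6250000000, nat_lit 7968000000], [], [nat_lit 19874677320, nat_lit 20800996858, nat_lit 20141393566, nat_lit 20991828902], nat_lit 0, nat_lit 0, nat_lit 0, nat_lit 0, nat_lit 0, nat_lit 0, [], [nat_lit 18, nat_lit 40, nat_lit 80, nat_lit 80]⟩,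
 zbF0, [⟨nat_lit 0, nat_lit 92, nat_lit 81, nat_lit 100, nat_lit 704188356⟩]⟩
noncomputable def p021_l195 : Lf2 := ⟨nat_lit 0, nat_lit 10, [nat_lit 0, nat_lit 5, nat_lit 5, nat_lit 20], false, nat_lit 0, nat_lit 0, nat_lit 0, nat_lit 0, ⟨nat_lit 1000, nat_lit 0, nat_lit 0, nat_lit 0, nat_lit 0, nat_lit 0, nat_lit 0, nat_lit 0, nat_lit 0, nat_lit 0, nat_lit 0, nat_lit 0, nat_lit 0, nat_lit 0, nat_lit 0, nat_lit 0, false, false⟩,
 nat_lit 0, nat_lit 8585, nat_lit 0, nat_lit 0, nat_lit 6438, nat_lit 9234, nat_lit 509, nat_lit 0, nat_lit 0, nat_lit 1491, nat_lit 0, nat_lit 0, nat_lit 0, nat_lit 0, nat_lit 0, nat_lit 0, nat_lit 0, nat_lit 0, [],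
 ⟨p021_k0, nat_lit 0, nat_lit 0, nat_lit 609, nat_lit 0, nat_lit 1196918, [nat_lit 2032000001, nat_lit 4688000000, nat_lit 6250000000], [], [nat_lit 31379231026, nat_lit 31583848118, nat_lit 32587770896, nat_lit 32793011814], nat_lit 1271250, nat_lit 1271250, nat_lit 1100001, nat_lit 1785000, nat_lit 0, nat_lit 0, [nat_lit 490000, nat_lit 1100000, nat_lit 1442500], [nat_lit 6, nat_lit 40, nat_lit 80, nat_lit 80, nat_lit 3, nat_lit 272, nat_lit 60, nat_lit 10]⟩, ⟨p021_k1, nat_lit 0, nat_lit 0, nat_lit 0, nat_lit 0, nat_lit 0, [nat_lit 3282000000, nat_lit 6250000000, nat_lit 9842000000], [], [nat_lit 19427220175, nat_lit 21520102267, nat_lit 23560329256, nat_lit 26373882788], nat_lit 0, nat_lit 0, nat_lit 0, nat_lit 0, nat_lit 0, nat_lit 0, [], [nat_lit 8, nat_lit 40, nat_lit 80, nat_lit 80]⟩,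
 zbF0, []⟩
noncomputable def p021_l196 : Lf2 := ⟨nat_lit 0, nat_lit 10, [nat_lit 0, nat_lit 5, nat_lit 5, nat_lit 20], false, nat_lit 0, nat_lit 0, nat_lit 0, nat_lit 0, ⟨nat_lit 1000, nat_lit 0, nat_lit 0, nat_lit 0, nat_lit 0, nat_lit 0, nat_lit 0, nat_lit 0, nat_lit 0, nat_lit 0, nat_lit 0, nat_lit 0, nat_lit 0, nat_lit 0, nat_lit 0, nat_lit 0, false, false⟩,
 nat_lit 0, nat_lit 9608, nat_lit 0, nat_lit 0, nat_lit 7347, nat_lit 5732, nat_lit 1319, nat_lit 0, nat_lit 0, nat_lit 1288, nat_lit 0, nat_lit 0, nat_lit 0, nat_lit 0, nat_lit 0, nat_lit 0, nat_lit 0, nat_lit 0, [],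
 ⟨p021_k2, nat_lit 0, nat_lit 0, nat_lit 612, nat_lit 0, nat_lit 1202357, [nat_lit 2032000001, nat_lit 4688000000, nat_lit 6250000000], [], [nat_lit 23860762899, nat_lit 24069834430, nat_lit 27057336850, nat_lit 27713355139], nat_lit 1271250, nat_lit 1271250, nat_lit 1100001, nat_lit 1785000, nat_lit 0, nat_lit 0, [nat_lit 490000, nat_lit 1100000, nat_lit 1442500], [nat_lit 6, nat_lit 40, nat_lit 80, nat_lit 80, nat_lit 3, nat_lit 272, nat_lit 60, nat_lit 10]⟩, ⟨p021_k1, nat_lit 0, nat_lit 0, nat_lit 0, nat_lit 0, nat_lit 0, [nat_lit 3282000000, nat_lit 6250000000, nat_lit 9842000000], [], [nat_lit 20504459400, nat_lit 22062985152, nat_lit 23745265744, nat_lit 25351164136], nat_lit 0, nat_lit 0, nat_lit 0, nat_lit 0, nat_lit 0, nat_lit 0, [], [nat_lit 8, nat_lit 40, nat_lit 80, nat_lit 80]⟩,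
 zbF0, []⟩
noncomputable def b_N_800_700_0_29 : St := ⟨false, nat_lit 1, nat_lit 0, nat_lit 2, nat_lit 40, nat_lit 320, nat_lit 330, nat_lit 280, nat_lit 300, nat_lit 100, nat_lit 240, nat_lit 0, nat_lit 0, nat_lit 0, nat_lit 0, nat_lit 0, nat_lit 0, nat_lit 20, nat_lit 40, nat_lit 0, nat_lit 0, nat_lit 0, nat_lit 800⟩
theorem d_N_800_700_0_29 (h : EB TB.env) : Dead b_N_800_700_0_29 := chkB_sound0 h (T :=
(.spl (nat_lit 2) (nat_lit 160)
(.spl (nat_lit 1) (nat_lit 290)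
(.leaf p021_l190)
(.trZ (nat_lit 0) (nat_lit 100) (nat_lit 89) (nat_lit 100) (nat_lit 108) (.spl (nat_lit 0) (nat_lit 325)
(.spl (nat_lit 6) (nat_lit 32)
(.spl (nat_lit 1) (nat_lit 295)
(.leaf p021_l191)
(.trZ (nat_lit 0) (nat_lit 97) (nat_lit 88) (nat_lit 100) (nat_lit 116) (.leaf p021_l192)))
(.leaf p021_l193))
(.trZ (nat_lit 0) (nat_lit 98) (nat_lit 86) (nat_lit 100) (nat_lit 116) (.leaf p021_l194)))))
(.spl (nat_lit 0) (nat_lit 325)
(.leaf p021_l195)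
(.leaf p021_l196)))) (by decide +kernel)
noncomputable def p021_l197 : Lf2 := ⟨nat_lit 0, nat_lit 6, [nat_lit 47, nat_lit 5, nat_lit 5, nat_lit 20], false, nat_lit 0, nat_lit 0, nat_lit 0, nat_lit 0, ⟨nat_lit 1000, nat_lit 0, nat_lit 0, nat_lit 0, nat_lit 0, nat_lit 0, nat_lit 0, nat_lit 0, nat_lit 0, nat_lit 0, nat_lit 0, nat_lit 0, nat_lit 0, nat_lit 0, nat_lit 0, nat_lit 0, false, false⟩,
 nat_lit 0, nat_lit 11018, nat_lit 0, nat_lit 0, nat_lit 8263, nat_lit 8799, nat_lit 461, nat_lit 0, nat_lit 0, nat_lit 0, nat_lit 0, nat_lit 0, nat_lit 0, nat_lit 0, nat_lit 0, nat_lit 0, nat_lit 0, nat_lit 0, [],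
 ⟨p021_k85, nat_lit 0, nat_lit 0, nat_lit 627, nat_lit 0, nat_lit 1206706, [nat_lit 2032000001, nat_lit 4688000000, nat_lit 6250000000], [], [nat_lit 24863213820, nat_lit 25082857618, nat_lit 24549518472, nat_lit 24770656471], nat_lit 1271250, nat_lit 1271250, nat_lit 780000, nat_lit 1100001, nat_lit 0, nat_lit 0, [nat_lit 490000, nat_lit 1100000, nat_lit 1442500], [nat_lit 6, nat_lit 40, nat_lit 80, nat_lit 80, nat_lit 3, nat_lit 249, nat_lit 40, nat_lit 9]⟩, ⟨p021_k86, nat_lit 0, nat_lit 0, nat_lit 0, nat_lit 0, nat_lit 0, [nat_lit 3282000000, nat_lit 6250000000], [], [nat_lit 21667160820, nat_lit 22340853259, nat_lit 21586883120, nat_lit 22218374590], nat_lit 0, nat_lit 0, nat_lit 0, nat_lit 0, nat_lit 0, nat_lit 0, [], [nat_lit 49, nat_lit 40, nat_lit 80, nat_lit 80]⟩,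
 zbF0, [⟨nat_lit 0, nat_lit 90, nat_lit 83, nat_lit 100, nat_lit 768326696⟩]⟩
noncomputable def p021_l198 : Lf2 := ⟨nat_lit 0, nat_lit 8, [nat_lit 50, nat_lit 5, nat_lit 5, nat_lit 20], false, nat_lit 0, nat_lit 0, nat_lit 0, nat_lit 0, ⟨nat_lit 1000, nat_lit 0, nat_lit 0, nat_lit 0, nat_lit 0, nat_lit 0, nat_lit 0, nat_lit 0, nat_lit 0, nat_lit 0, nat_lit 0, nat_lit 0, nat_lit 0, nat_lit 0, nat_lit 0, nat_lit 0, false, false⟩,
 nat_lit 0, nat_lit 11018, nat_lit 0, nat_lit 0, nat_lit 8263, nat_lit 5679, nat_lit 461, nat_lit 0, nat_lit 0, nat_lit 1240, nat_lit 0, nat_lit 0, nat_lit 0, nat_lit 0, nat_lit 0, nat_lit 0, nat_lit 0, nat_lit 0, [],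
 ⟨p021_k82, nat_lit 0, nat_lit 0, nat_lit 616, nat_lit 0, nat_lit 1179217, [nat_lit 2032000001, nat_lit 4688000000, nat_lit 6250000000], [], [nat_lit 24863213820, nat_lit 25082857618, nat_lit 24549518472, nat_lit 24770656471], nat_lit 1271250, nat_lit 1271250, nat_lit 780000, nat_lit 1100001, nat_lit 0, nat_lit 0, [nat_lit 490000, nat_lit 1100000, nat_lit 1442500], [nat_lit 6, nat_lit 40, nat_lit 80, nat_lit 80, nat_lit 3, nat_lit 249, nat_lit 40, nat_lit 9]⟩, ⟨p021_k87, nat_lit 0, nat_lit 0, nat_lit 0, nat_lit 0, nat_lit 0, [nat_lit 3282000000, nat_lit 6250000000, nat_lit 7968000000], [], [nat_lit 19456835814, nat_lit 19916110339, nat_lit 19762341044, nat_lit 20185236040], nat_lit 0, nat_lit 0, nat_lit 0, nat_lit 0, nat_lit 0, nat_lit 0, [], [nat_lit 18, nat_lit 40, nat_lit 80, nat_lit 80]⟩,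
 zbF0, [⟨nat_lit 0, nat_lit 90, nat_lit 83, nat_lit 100, nat_lit 702872609⟩]⟩
noncomputable def p021_l199 : Lf2 := ⟨nat_lit 0, nat_lit 6, [nat_lit 47, nat_lit 5, nat_lit 5, nat_lit 20], false, nat_lit 0, nat_lit 0, nat_lit 0, nat_lit 0, ⟨nat_lit 1000, nat_lit 0, nat_lit 0, nat_lit 0, nat_lit 0, nat_lit 0, nat_lit 0, nat_lit 0, nat_lit 0, nat_lit 0, nat_lit 0, nat_lit 0, nat_lit 0, nat_lit 0, nat_lit 0, nat_lit 0, false, false⟩,
 nat_lit 0, nat_lit 11078, nat_lit 0, nat_lit 0, nat_lit 8308, nat_lit 5627, nat_lit 460, nat_lit 0, nat_lit 0, nat_lit 1597, nat_lit 0, nat_lit 0, nat_lit 0, nat_lit 0, nat_lit 0, nat_lit 0, nat_lit 0, nat_lit 0, [],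
 ⟨p021_k85, nat_lit 0, nat_lit 0, nat_lit 636, nat_lit 0, nat_lit 1233417, [nat_lit 2032000001, nat_lit 4688000000, nat_lit 6250000000], [], [nat_lit 24606149496, nat_lit 24736839662, nat_lit 24321473952, nat_lit 24454512423], nat_lit 1271250, nat_lit 1271250, nat_lit 810650, nat_lit 1100001, nat_lit 0, nat_lit 0, [nat_lit 490000, nat_lit 1100000, nat_lit 1442500], [nat_lit 6, nat_lit 40, nat_lit 80, nat_lit 80, nat_lit 3, nat_lit 249, nat_lit 40, nat_lit 9]⟩, ⟨p021_k88, nat_lit 0, nat_lit 0, nat_lit 0, nat_lit 0, nat_lit 0, [nat_lit 3282000000, nat_lit 6250000000], [], [nat_lit 18534505319, nat_lit 19032046062, nat_lit 18833023645, nat_lit 19253639793], nat_lit 0, nat_lit 0, nat_lit 0, nat_lit 0, nat_lit 0, nat_lit 0, [], [nat_lit 49, nat_lit 40, nat_lit 80, nat_lit 80]⟩,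
 zbF0, [⟨nat_lit 0, nat_lit 88, nat_lit 83, nat_lit 100, nat_lit 718054159⟩]⟩
noncomputable def p021_l200 : Lf2 := ⟨nat_lit 0, nat_lit 6, [nat_lit 47, nat_lit 5, nat_lit 5, nat_lit 20], false, nat_lit 0, nat_lit 0, nat_lit 0, nat_lit 0, ⟨nat_lit 1000, nat_lit 0, nat_lit 0, nat_lit 0, nat_lit 0, nat_lit 0, nat_lit 0, nat_lit 0, nat_lit 0, nat_lit 0, nat_lit 0, nat_lit 0, nat_lit 0, nat_lit 0, nat_lit 0, nat_lit 0, false, false⟩,
 nat_lit 0, nat_lit 10068, nat_lit 0, nat_lit 0, nat_lit 7639, nat_lit 5627, nat_lit 1667, nat_lit 0, nat_lit 0, nat_lit 1605, nat_lit 0, nat_lit 0, nat_lit 0, nat_lit 0, nat_lit 0, nat_lit 0, nat_lit 0, nat_lit 0, [],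
 ⟨p021_k89, nat_lit 0, nat_lit 0, nat_lit 633, nat_lit 0, nat_lit 1227900, [nat_lit 2032000001, nat_lit 4688000000, nat_lit 6250000000], [], [nat_lit 23940560370, nat_lit 24030033555, nat_lit 23755336645, nat_lit 23840503863], nat_lit 1271250, nat_lit 1271250, nat_lit 841600, nat_lit 1100001, nat_lit 0, nat_lit 0, [nat_lit 490000, nat_lit 1100000, nat_lit 1442500], [nat_lit 6, nat_lit 40, nat_lit 80, nat_lit 80, nat_lit 3, nat_lit 249, nat_lit 40, nat_lit 9]⟩, ⟨p021_k88, nat_lit 0, nat_lit 0, nat_lit 0, nat_lit 0, nat_lit 0, [nat_lit 3282000000, nat_lit 6250000000], [], [nat_lit 18543153305, nat_lit 19037768445, nat_lit 18814148645, nat_lit 19234764793], nat_lit 0, nat_lit 0, nat_lit 0, nat_lit 0, nat_lit 0, nat_lit 0, [], [nat_lit 49, nat_lit 40, nat_lit 80, nat_lit 80]⟩,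
 zbF0, [⟨nat_lit 0, nat_lit 88, nat_lit 82, nat_lit 100, nat_lit 710129392⟩]⟩
noncomputable def p021_l201 : Lf2 := ⟨nat_lit 0, nat_lit 8, [nat_lit 50, nat_lit 5, nat_lit 5, nat_lit 20], false, nat_lit 0, nat_lit 0, nat_lit 0, nat_lit 0, ⟨nat_lit 1000, nat_lit 0, nat_lit 0, nat_lit 0, nat_lit 0, nat_lit 0, nat_lit 0, nat_lit 0, nat_lit 0, nat_lit 0, nat_lit 0, nat_lit 0, nat_lit 0, nat_lit 0, nat_lit 0, nat_lit 0, false, false⟩,
 nat_lit 0, nat_lit 11078, nat_lit 0, nat_lit 0, nat_lit 8308, nat_lit 5627, nat_lit 460, nat_lit 0, nat_lit 0, nat_lit 1245, nat_lit 0, nat_lit 0, nat_lit 0, nat_lit 0, nat_lit 0, nat_lit 0, nat_lit 0, nat_lit 0, [],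
 ⟨p021_k82, nat_lit 0, nat_lit 0, nat_lit 625, nat_lit 0, nat_lit 1205722, [nat_lit 2032000001, nat_lit 4688000000, nat_lit 6250000000], [], [nat_lit 24606149496, nat_lit 24736839662, nat_lit 24321473952, nat_lit 24454512423], nat_lit 1271250, nat_lit 1271250, nat_lit 810650, nat_lit 1100001, nat_lit 0, nat_lit 0, [nat_lit 490000, nat_lit 1100000, nat_lit 1442500], [nat_lit 6, nat_lit 40, nat_lit 80, nat_lit 80, nat_lit 3, nat_lit 249, nat_lit 40, nat_lit 9]⟩, ⟨p021_k90, nat_lit 0, nat_lit 0, nat_lit 0, nat_lit 0, nat_lit 0, [nat_lit 3282000000, nat_lit 6250000000, nat_lit 7968000000], [], [nat_lit 19409973869, nat_lit 19862801793, nat_lit 19663523645, nat_lit 20084139793], nat_lit 0, nat_lit 0, nat_lit 0, nat_lit 0, nat_lit 0, nat_lit 0, [], [nat_lit 18, nat_lit 40, nat_lit 80, nat_lit 80]⟩,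
 zbF0, [⟨nat_lit 0, nat_lit 88, nat_lit 83, nat_lit 100, nat_lit 718054159⟩]⟩
noncomputable def p021_l202 : Lf2 := ⟨nat_lit 0, nat_lit 8, [nat_lit 50, nat_lit 5, nat_lit 5, nat_lit 20], false, nat_lit 0, nat_lit 0, nat_lit 0, nat_lit 0, ⟨nat_lit 1000, nat_lit 0, nat_lit 0, nat_lit 0, nat_lit 0, nat_lit 0, nat_lit 0, nat_lit 0, nat_lit 0, nat_lit 0, nat_lit 0, nat_lit 0, nat_lit 0, nat_lit 0, nat_lit 0, nat_lit 0, false, false⟩,
 nat_lit 0, nat_lit 10663, nat_lit 0, nat_lit 0, nat_lit 8090, nat_lit 5627, nat_lit 475, nat_lit 0, nat_lit 0, nat_lit 1241, nat_lit 0, nat_lit 0, nat_lit 0, nat_lit 0, nat_lit 0, nat_lit 0, nat_lit 0, nat_lit 0, [],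
 ⟨p021_k91, nat_lit 0, nat_lit 0, nat_lit 622, nat_lit 0, nat_lit 1200812, [nat_lit 2032000001, nat_lit 4688000000, nat_lit 6250000000], [], [nat_lit 24628627112, nat_lit 24714394227, nat_lit 24393788403, nat_lit 24481332030], nat_lit 1271250, nat_lit 1271250, nat_lit 841600, nat_lit 1100001, nat_lit 0, nat_lit 0, [nat_lit 490000, nat_lit 1100000, nat_lit 1442500], [nat_lit 6, nat_lit 40, nat_lit 80, nat_lit 80, nat_lit 3, nat_lit 249, nat_lit 40, nat_lit 9]⟩, ⟨p021_k90, nat_lit 0, nat_lit 0, nat_lit 0, nat_lit 0, nat_lit 0, [nat_lit 3282000000, nat_lit 6250000000, nat_lit 7968000000], [], [nat_lit 19447624001, nat_lit 19897832743, nat_lit 19672961145, nat_lit 20093577293], nat_lit 0, nat_lit 0, nat_lit 0, nat_lit 0, nat_lit 0, nat_lit 0, [], [nat_lit 18, nat_lit 40, nat_lit 80, nat_lit 80]⟩,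
 zbF0, [⟨nat_lit 0, nat_lit 88, nat_lit 82, nat_lit 100, nat_lit 719562336⟩]⟩
noncomputable def p021_l203 : Lf2 := ⟨nat_lit 0, nat_lit 10, [nat_lit 0, nat_lit 5, nat_lit 5, nat_lit 20], false, nat_lit 0, nat_lit 0, nat_lit 0, nat_lit 0, ⟨nat_lit 1000, nat_lit 0, nat_lit 0, nat_lit 0, nat_lit 0, nat_lit 0, nat_lit 0, nat_lit 0, nat_lit 0, nat_lit 0, nat_lit 0, nat_lit 0, nat_lit 0, nat_lit 0, nat_lit 0, nat_lit 0, false, false⟩,
 nat_lit 0, nat_lit 8560, nat_lit 0, nat_lit 0, nat_lit 6419, nat_lit 5627, nat_lit 504, nat_lit 0, nat_lit 0, nat_lit 1223, nat_lit 0, nat_lit 0, nat_lit 0, nat_lit 0, nat_lit 0, nat_lit 0, nat_lit 0, nat_lit 0, [],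
 ⟨p021_k0, nat_lit 0, nat_lit 0, nat_lit 605, nat_lit 0, nat_lit 1150536, [nat_lit 2032000001, nat_lit 4688000000, nat_lit 6250000000], [], [nat_lit 31536019740, nat_lit 31755070929, nat_lit 31480101114, nat_lit 31684942502], nat_lit 1271250, nat_lit 1271250, nat_lit 780000, nat_lit 1100001, nat_lit 0, nat_lit 0, [nat_lit 490000, nat_lit 1100000, nat_lit 1442500], [nat_lit 6, nat_lit 40, nat_lit 80, nat_lit 80, nat_lit 3, nat_lit 249, nat_lit 40, nat_lit 9]⟩, ⟨p021_k12, nat_lit 0, nat_lit 0, nat_lit 0, nat_lit 0, nat_lit 0, [nat_lit 3282000000, nat_lit 6250000000, nat_lit 7968000000], [], [nat_lit 19535498507, nat_lit 20447848679, nat_lit 19852807497, nat_lit 20694039793], nat_lit 0, nat_lit 0, nat_lit 0, nat_lit 0, nat_lit 0, nat_lit 0, [], [nat_lit 18, nat_lit 40, nat_lit 80, nat_lit 80]⟩,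
 zbF0, [⟨nat_lit 0, nat_lit 88, nat_lit 82, nat_lit 100, nat_lit 684761205⟩]⟩
noncomputable def p021_l204 : Lf2 := ⟨nat_lit 0, nat_lit 10, [nat_lit 0, nat_lit 5, nat_lit 5, nat_lit 20], false, nat_lit 0, nat_lit 0, nat_lit 0, nat_lit 0, ⟨nat_lit 1000, nat_lit 0, nat_lit 0, nat_lit 0, nat_lit 0, nat_lit 0, nat_lit 0, nat_lit 0, nat_lit 0, nat_lit 0, nat_lit 0, nat_lit 0, nat_lit 0, nat_lit 0, nat_lit 0, nat_lit 0, false, false⟩,
 nat_lit 0, nat_lit 9471, nat_lit 0, nat_lit 0, nat_lit 7242, nat_lit 5627, nat_lit 1437, nat_lit 0, nat_lit 0, nat_lit 1187, nat_lit 0, nat_lit 0, nat_lit 0, nat_lit 0, nat_lit 0, nat_lit 0, nat_lit 0, nat_lit 0, [],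
 ⟨p021_k2, nat_lit 0, nat_lit 0, nat_lit 656, nat_lit 0, nat_lit 1280725, [nat_lit 2032000001, nat_lit 4688000000, nat_lit 6250000000], [], [nat_lit 24065994307, nat_lit 24285283872, nat_lit 23895883614, nat_lit 24103571980], nat_lit 1271250, nat_lit 1271250, nat_lit 810650, nat_lit 1100001, nat_lit 0, nat_lit 0, [nat_lit 490000, nat_lit 1100000, nat_lit 1442500], [nat_lit 6, nat_lit 40, nat_lit 80, nat_lit 80, nat_lit 3, nat_lit 249, nat_lit 40, nat_lit 9]⟩, ⟨p021_k12, nat_lit 0, nat_lit 0, nat_lit 0, nat_lit 0, nat_lit 0, [nat_lit 3282000000, nat_lit 6250000000, nat_lit 7968000000], [], [nat_lit 19735105321, nat_lit 20640761168, nat_lit 19921319997, nat_lit 20762552293], nat_lit 0, nat_lit 0, nat_lit 0, nat_lit 0, nat_lit 0, nat_lit 0, [], [nat_lit 18, nat_lit 40, nat_lit 80, nat_lit 80]⟩,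
 zbF0, [⟨nat_lit 0, nat_lit 87, nat_lit 79, nat_lit 100, nat_lit 756813706⟩]⟩
noncomputable def p021_l205 : Lf2 := ⟨nat_lit 0, nat_lit 10, [nat_lit 0, nat_lit 5, nat_lit 5, nat_lit 20], false, nat_lit 0, nat_lit 0, nat_lit 0, nat_lit 0, ⟨nat_lit 1000, nat_lit 0, nat_lit 0, nat_lit 0, nat_lit 0, nat_lit 0, nat_lit 0, nat_lit 0, nat_lit 0, nat_lit 0, nat_lit 0, nat_lit 0, nat_lit 0, nat_lit 0, nat_lit 0, nat_lit 0, false, false⟩,
 nat_lit 0, nat_lit 8688, nat_lit 0, nat_lit 0, nat_lit 6516, nat_lit 6934, nat_lit 474, nat_lit 0, nat_lit 0, nat_lit 1244, nat_lit 0, nat_lit 0, nat_lit 0, nat_lit 0, nat_lit 0, nat_lit 0, nat_lit 0, nat_lit 0, [],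
 ⟨p021_k0, nat_lit 0, nat_lit 0, nat_lit 641, nat_lit 0, nat_lit 1278379, [nat_lit 2032000001, nat_lit 4688000000, nat_lit 6250000000], [], [nat_lit 33417129281, nat_lit 33600866307, nat_lit 34331100640, nat_lit 34502282188], nat_lit 1271250, nat_lit 1271250, nat_lit 1100001, nat_lit 1785000, nat_lit 0, nat_lit 0, [nat_lit 490000, nat_lit 1100000, nat_lit 1442500], [nat_lit 6, nat_lit 40, nat_lit 80, nat_lit 80, nat_lit 3, nat_lit 272, nat_lit 60, nat_lit 10]⟩, ⟨p021_k12, nat_lit 0, nat_lit 0, nat_lit 0, nat_lit 0, nat_lit 0, [nat_lit 3282000000, nat_lit 6250000000, nat_lit 7968000000], [], [nat_lit 19608672972, nat_lit 20583553596, nat_lit 23481674188, nat_lit 24636603254], nat_lit 0, nat_lit 0, nat_lit 0, nat_lit 0, nat_lit 0, nat_lit 0, [], [nat_lit 18, nat_lit 40, nat_lit 80, nat_lit 80]⟩,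
 zbF0, []⟩
noncomputable def p021_l206 : Lf2 := ⟨nat_lit 0, nat_lit 10, [nat_lit 0, nat_lit 5, nat_lit 5, nat_lit 20], false, nat_lit 0, nat_lit 0, nat_lit 0, nat_lit 0, ⟨nat_lit 1000, nat_lit 0, nat_lit 0, nat_lit 0, nat_lit 0, nat_lit 0, nat_lit 0, nat_lit 0, nat_lit 0, nat_lit 0, nat_lit 0, nat_lit 0, nat_lit 0, nat_lit 0, nat_lit 0, nat_lit 0, false, false⟩,
 nat_lit 0, nat_lit 9500, nat_lit 0, nat_lit 0, nat_lit 7264, nat_lit 5627, nat_lit 1446, nat_lit 0, nat_lit 0, nat_lit 1187, nat_lit 0, nat_lit 0, nat_lit 0, nat_lit 0, nat_lit 0, nat_lit 0, nat_lit 0, nat_lit 0, [],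
 ⟨p021_k2, nat_lit 0, nat_lit 0, nat_lit 643, nat_lit 0, nat_lit 1280725, [nat_lit 2032000001, nat_lit 4688000000, nat_lit 6250000000], [], [nat_lit 23746884988, nat_lit 23954863160, nat_lit 26929665544, nat_lit 27580560368], nat_lit 1271250, nat_lit 1271250, nat_lit 1100001, nat_lit 1785000, nat_lit 0, nat_lit 0, [nat_lit 490000, nat_lit 1100000, nat_lit 1442500], [nat_lit 6, nat_lit 40, nat_lit 80, nat_lit 80, nat_lit 3, nat_lit 272, nat_lit 60, nat_lit 10]⟩, ⟨p021_k12, nat_lit 0, nat_lit 0, nat_lit 0, nat_lit 0, nat_lit 0, [nat_lit 3282000000, nat_lit 6250000000, nat_lit 7968000000], [], [nat_lit 19921319997, nat_lit 20762552293, nat_lit 23090653471, nat_lit 23885202352], nat_lit 0, nat_lit 0, nat_lit 0, nat_lit 0, nat_lit 0, nat_lit 0, [], [nat_lit 18, nat_lit 40, nat_lit 80, nat_lit 80]⟩,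
 zbF0, []⟩
noncomputable def b_N_800_700_0_30 : St := ⟨false, nat_lit 1, nat_lit 0, nat_lit 2, nat_lit 40, nat_lit 320, nat_lit 330, nat_lit 300, nat_lit 310, nat_lit 120, nat_lit 240, nat_lit 0, nat_lit 0, nat_lit 0, nat_lit 0, nat_lit 0, nat_lit 0, nat_lit 20, nat_lit 40, nat_lit 0, nat_lit 0, nat_lit 0, nat_lit 800⟩
theorem d_N_800_700_0_30 (h : EB TB.env) : Dead b_N_800_700_0_30 := chkB_sound0 h (T :=
(.spl (nat_lit 2) (nat_lit 160)
(.spl (nat_lit 0) (nat_lit 325)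
(.spl (nat_lit 6) (nat_lit 32)
(.spl (nat_lit 1) (nat_lit 305)
(.spl (nat_lit 6) (nat_lit 24)
(.leaf p021_l197)
(.leaf p021_l198))
(.trZ (nat_lit 0) (nat_lit 91) (nat_lit 86) (nat_lit 100) (nat_lit 124) (.spl (nat_lit 6) (nat_lit 24)
(.spl (nat_lit 0) (nat_lit 323)
(.leaf p021_l199)
(.trZ (nat_lit 0) (nat_lit 91) (nat_lit 84) (nat_lit 100) (nat_lit 128) (.leaf p021_l200)))
(.spl (nat_lit 0) (nat_lit 323)
(.leaf p021_l201)
(.trZ (nat_lit 0) (nat_lit 91) (nat_lit 84) (nat_lit 100) (nat_lit 128) (.leaf p021_l202))))))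
(.leaf p021_l203))
(.trZ (nat_lit 0) (nat_lit 93) (nat_lit 84) (nat_lit 100) (nat_lit 124) (.leaf p021_l204)))
(.spl (nat_lit 0) (nat_lit 325)
(.leaf p021_l205)
(.leaf p021_l206)))) (by decide +kernel)
noncomputable def p021_l207 : Lf2 := ⟨nat_lit 0, nat_lit 6, [nat_lit 47, nat_lit 5, nat_lit 5, nat_lit 20], false, nat_lit 0, nat_lit 0, nat_lit 0, nat_lit 0, ⟨nat_lit 1000, nat_lit 0, nat_lit 0, nat_lit 0, nat_lit 0, nat_lit 0, nat_lit 0, nat_lit 0, nat_lit 0, nat_lit 0, nat_lit 0, nat_lit 0, nat_lit 0, nat_lit 0, nat_lit 0, nat_lit 0, false, false⟩,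
 nat_lit 0, nat_lit 8727, nat_lit 0, nat_lit 0, nat_lit 6545, nat_lit 5525, nat_lit 483, nat_lit 0, nat_lit 0, nat_lit 1355, nat_lit 0, nat_lit 0, nat_lit 0, nat_lit 0, nat_lit 0, nat_lit 0, nat_lit 0, nat_lit 0, [],
 ⟨p021_k85, nat_lit 0, nat_lit 0, nat_lit 643, nat_lit 0, nat_lit 1258440, [nat_lit 2032000001, nat_lit 4688000000, nat_lit 6250000000], [], [nat_lit 33330104047, nat_lit 33445180405, nat_lit 33256297601, nat_lit 33374855552], nat_lit 1271250, nat_lit 1271250, nat_lit 872850, nat_lit 1100001, nat_lit 0, nat_lit 0, [nat_lit 490000, nat_lit 1100000, nat_lit 1442500], [nat_lit 6, nat_lit 40, nat_lit 80, nat_lit 80, nat_lit 3, nat_lit 249, nat_lit 40, nat_lit 9]⟩, ⟨p021_k92, nat_lit 0, nat_lit 0, nat_lit 0, nat_lit 0, nat_lit 0, [nat_lit 3282000000, nat_lit 6250000000], [], [nat_lit 19028454679, nat_lit 19289107980, nat_lit 19277566225, nat_lit 19527253886], nat_lit 0, nat_lit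 0, nat_lit 0, nat_lit 0, nat_lit 0, nat_lit 0, [], [nat_lit 49, nat_lit 40, nat_lit 80, nat_lit 80]⟩,
 zbF0, [⟨nat_lit 0, nat_lit 87, nat_lit 83, nat_lit 100, nat_lit 666912057⟩]⟩
noncomputable def p021_l208 : Lf2 := ⟨nat_lit 0, nat_lit 6, [nat_lit 47, nat_lit 5, nat_lit 5, nat_lit 20], false, nat_lit 0, nat_lit 0, nat_lit 0, nat_lit 0, ⟨nat_lit 1000, nat_lit 0, nat_lit 0, nat_lit 0, nat_lit 0, nat_lit 0, nat_lit 0, nat_lit 0, nat_lit 0, nat_lit 0, nat_lit 0, nat_lit 0, nat_lit 0, nat_lit 0, nat_lit 0, nat_lit 0, false, false⟩,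
 nat_lit 0, nat_lit 8727, nat_lit 0, nat_lit 0, nat_lit 6545, nat_lit 5505, nat_lit 483, nat_lit 0, nat_lit 0, nat_lit 1218, nat_lit 0, nat_lit 0, nat_lit 0, nat_lit 0, nat_lit 0, nat_lit 0, nat_lit 0, nat_lit 0, [],
 ⟨p021_k85, nat_lit 0, nat_lit 0, nat_lit 650, nat_lit 0, nat_lit 1275361, [nat_lit 2032000001, nat_lit 4688000000, nat_lit 6250000000], [], [nat_lit 33330104047, nat_lit 33445180405, nat_lit 33256297601, nat_lit 33374855552], nat_lit 1271250, nat_lit 1271250, nat_lit 872850, nat_lit 1100001, nat_lit 0, nat_lit 0, [nat_lit 490000, nat_lit 1100000, nat_lit 1442500], [nat_lit 6, nat_lit 40, nat_lit 80, nat_lit 80, nat_lit 3, nat_lit 249, nat_lit 40, nat_lit 9]⟩, ⟨p021_k93, nat_lit 0, nat_lit 0, nat_lit 0, nat_lit 0, nat_lit 0, [nat_lit 3282000000, nat_lit 6250000000], [], [nat_lit 19335224333, nat_lit 19508621935, nat_lit 19574898193, nat_lit 19741006040], nat_lit 0, nat_lit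 0, nat_lit 0, nat_lit 0, nat_lit 0, nat_lit 0, [], [nat_lit 49, nat_lit 40, nat_lit 80, nat_lit 80]⟩,
 zbF0, [⟨nat_lit 0, nat_lit 86, nat_lit 83, nat_lit 100, nat_lit 674265157⟩]⟩
noncomputable def p021_l209 : Lf2 := ⟨nat_lit 0, nat_lit 8, [nat_lit 50, nat_lit 5, nat_lit 5, nat_lit 20], false, nat_lit 0, nat_lit 0, nat_lit 0, nat_lit 0, ⟨nat_lit 1000, nat_lit 0, nat_lit 0, nat_lit 0, nat_lit 0, nat_lit 0, nat_lit 0, nat_lit 0, nat_lit 0, nat_lit 0, nat_lit 0, nat_lit 0, nat_lit 0, nat_lit 0, nat_lit 0, nat_lit 0, false, false⟩,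
 nat_lit 0, nat_lit 11087, nat_lit 0, nat_lit 0, nat_lit 8315, nat_lit 5596, nat_lit 458, nat_lit 0, nat_lit 0, nat_lit 1324, nat_lit 0, nat_lit 0, nat_lit 0, nat_lit 0, nat_lit 0, nat_lit 0, nat_lit 0, nat_lit 0, [],
 ⟨p021_k82, nat_lit 0, nat_lit 0, nat_lit 632, nat_lit 0, nat_lit 1230846, [nat_lit 2032000001, nat_lit 4688000000, nat_lit 6250000000], [], [nat_lit 24506997241, nat_lit 24637989281, nat_lit 24286000360, nat_lit 24419094158], nat_lit 1271250, nat_lit 1271250, nat_lit 872850, nat_lit 1100001, nat_lit 0, nat_lit 0, [nat_lit 490000, nat_lit 1100000, nat_lit 1442500], [nat_lit 6, nat_lit 40, nat_lit 80, nat_lit 80, nat_lit 3, nat_lit 249, nat_lit 40, nat_lit 9]⟩, ⟨p021_k94, nat_lit 0, nat_lit 0, nat_lit 0, nat_lit 0, nat_lit 0, [nat_lit 3282000000, nat_lit 6250000000], [], [nat_lit 19087041737, nat_lit 19381062466, nat_lit 19292501564, nat_lit 19544056127], nat_lit 0, nat_lit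 0, nat_lit 0, nat_lit 0, nat_lit 0, nat_lit 0, [], [nat_lit 49, nat_lit 40, nat_lit 80, nat_lit 80]⟩,
 zbF0, [⟨nat_lit 0, nat_lit 87, nat_lit 83, nat_lit 100, nat_lit 722332134⟩]⟩
noncomputable def p021_l210 : Lf2 := ⟨nat_lit 0, nat_lit 8, [nat_lit 50, nat_lit 5, nat_lit 5, nat_lit 20], false, nat_lit 0, nat_lit 0, nat_lit 0, nat_lit 0, ⟨nat_lit 1000, nat_lit 0, nat_lit 0, nat_lit 0, nat_lit 0, nat_lit 0, nat_lit 0, nat_lit 0, nat_lit 0, nat_lit 0, nat_lit 0, nat_lit 0, nat_lit 0, nat_lit 0, nat_lit 0, nat_lit 0, false, false⟩,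
 nat_lit 0, nat_lit 11087, nat_lit 0, nat_lit 0, nat_lit 8315, nat_lit 5505, nat_lit 458, nat_lit 0, nat_lit 0, nat_lit 1218, nat_lit 0, nat_lit 0, nat_lit 0, nat_lit 0, nat_lit 0, nat_lit 0, nat_lit 0, nat_lit 0, [],
 ⟨p021_k82, nat_lit 0, nat_lit 0, nat_lit 639, nat_lit 0, nat_lit 1247701, [nat_lit 2032000001, nat_lit 4688000000, nat_lit 6250000000], [], [nat_lit 24506997241, nat_lit 24637989281, nat_lit 24286000360, nat_lit 24419094158], nat_lit 1271250, nat_lit 1271250, nat_lit 872850, nat_lit 1100001, nat_lit 0, nat_lit 0, [nat_lit 490000, nat_lit 1100000, nat_lit 1442500], [nat_lit 6, nat_lit 40, nat_lit 80, nat_lit 80, nat_lit 3, nat_lit 249, nat_lit 40, nat_lit 9]⟩, ⟨p021_k95, nat_lit 0, nat_lit 0, nat_lit 0, nat_lit 0, nat_lit 0, [nat_lit 3282000000, nat_lit 6250000000], [], [nat_lit 19335224333, nat_lit 19508621935, nat_lit 19574898193, nat_lit 19741006040], nat_lit 0, nat_lit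 0, nat_lit 0, nat_lit 0, nat_lit 0, nat_lit 0, [], [nat_lit 49, nat_lit 40, nat_lit 80, nat_lit 80]⟩,
 zbF0, [⟨nat_lit 0, nat_lit 86, nat_lit 83, nat_lit 100, nat_lit 711482631⟩]⟩
noncomputable def b_N_800_700_0_31 : St := ⟨false, nat_lit 1, nat_lit 0, nat_lit 2, nat_lit 40, nat_lit 320, nat_lit 323, nat_lit 310, nat_lit 315, nat_lit 132, nat_lit 160, nat_lit 0, nat_lit 0, nat_lit 0, nat_lit 0, nat_lit 0, nat_lit 0, nat_lit 20, nat_lit 32, nat_lit 0, nat_lit 0, nat_lit 0, nat_lit 800⟩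
theorem d_N_800_700_0_31 (h : EB TB.env) : Dead b_N_800_700_0_31 := chkB_sound0 h (T :=
(.spl (nat_lit 6) (nat_lit 24)
(.spl (nat_lit 1) (nat_lit 313)
(.leaf p021_l207)
(.leaf p021_l208))
(.spl (nat_lit 1) (nat_lit 313)
(.leaf p021_l209)
(.leaf p021_l210)))) (by decide +kernel)
noncomputable def p021_l211 : Lf2 := ⟨nat_lit 0, nat_lit 6, [nat_lit 47, nat_lit 5, nat_lit 5, nat_lit 20], false, nat_lit 0, nat_lit 0, nat_lit 0, nat_lit 0, ⟨nat_lit 1000, nat_lit 0, nat_lit 0, nat_lit 0, nat_lit 0, nat_lit 0, nat_lit 0, nat_lit 0, nat_lit 0, nat_lit 0, nat_lit 0, nat_lit 0, nat_lit 0, nat_lit 0, nat_lit 0, nat_lit 0, false, false⟩,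
 nat_lit 0, nat_lit 8724, nat_lit 0, nat_lit 0, nat_lit 6542, nat_lit 5504, nat_lit 482, nat_lit 0, nat_lit 0, nat_lit 1148, nat_lit 0, nat_lit 0, nat_lit 0, nat_lit 0, nat_lit 0, nat_lit 0, nat_lit 0, nat_lit 0, [],
 ⟨p021_k85, nat_lit 0, nat_lit 0, nat_lit 652, nat_lit 0, nat_lit 1283946, [nat_lit 2032000001, nat_lit 4688000000, nat_lit 6250000000], [], [nat_lit 33335984758, nat_lit 33450377020, nat_lit 33272935361, nat_lit 33390034808], nat_lit 1271250, nat_lit 1271250, nat_lit 904401, nat_lit 1100001, nat_lit 0, nat_lit 0, [nat_lit 490000, nat_lit 1100000, nat_lit 1442500], [nat_lit 6, nat_lit 40, nat_lit 80, nat_lit 80, nat_lit 3, nat_lit 249, nat_lit 40, nat_lit 9]⟩, ⟨p021_k96, nat_lit 0, nat_lit 0, nat_lit 0, nat_lit 0, nat_lit 0, [nat_lit 3282000000, nat_lit 6250000000], [], [nat_lit 19550701887, nat_lit 19636870783, nat_lit 19749954632, nat_lit 19832999792], nat_lit 0, nat_lit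 0, nat_lit 0, nat_lit 0, nat_lit 0, nat_lit 0, [], [nat_lit 49, nat_lit 40, nat_lit 80, nat_lit 80]⟩,
 zbF0, [⟨nat_lit 0, nat_lit 85, nat_lit 82, nat_lit 100, nat_lit 688578245⟩]⟩
noncomputable def p021_l212 : Lf2 := ⟨nat_lit 0, nat_lit 6, [nat_lit 47, nat_lit 5, nat_lit 5, nat_lit 20], false, nat_lit 0, nat_lit 0, nat_lit 0, nat_lit 0, ⟨nat_lit 1000, nat_lit 0, nat_lit 0, nat_lit 0, nat_lit 0, nat_lit 0, nat_lit 0, nat_lit 0, nat_lit 0, nat_lit 0, nat_lit 0, nat_lit 0, nat_lit 0, nat_lit 0, nat_lit 0, nat_lit 0, false, false⟩,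
 nat_lit 0, nat_lit 8712, nat_lit 0, nat_lit 0, nat_lit 6534, nat_lit 4953, nat_lit 481, nat_lit 0, nat_lit 0, nat_lit 1467, nat_lit 0, nat_lit 0, nat_lit 0, nat_lit 0, nat_lit 0, nat_lit 0, nat_lit 0, nat_lit 0, [],
 ⟨p021_k85, nat_lit 0, nat_lit 0, nat_lit 652, nat_lit 0, nat_lit 1285772, [nat_lit 2032000001, nat_lit 4688000000, nat_lit 6250000000], [], [nat_lit 33379783395, nat_lit 33456005418, nat_lit 33317302721, nat_lit 33390880681], nat_lit 1271250, nat_lit 1271250, nat_lit 904401, nat_lit 1100001, nat_lit 0, nat_lit 0, [nat_lit 490000, nat_lit 1100000, nat_lit 1442500], [nat_lit 6, nat_lit 40, nat_lit 80, nat_lit 80, nat_lit 3, nat_lit 249, nat_lit 40, nat_lit 9]⟩, ⟨p021_k97, nat_lit 0, nat_lit 0, nat_lit 0, nat_lit 0, nat_lit 0, [nat_lit 3282000000, nat_lit 6250000000], [], [nat_lit 18932186114, nat_lit 19013281507, nat_lit 19165128954, nat_lit 19244216721], nat_lit 0, nat_lit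 0, nat_lit 0, nat_lit 0, nat_lit 0, nat_lit 0, [], [nat_lit 49, nat_lit 40, nat_lit 80, nat_lit 80]⟩,
 zbF0, [⟨nat_lit 0, nat_lit 85, nat_lit 83, nat_lit 100, nat_lit 671788860⟩]⟩
noncomputable def p021_l213 : Lf2 := ⟨nat_lit 0, nat_lit 6, [nat_lit 47, nat_lit 5, nat_lit 5, nat_lit 20], false, nat_lit 0, nat_lit 0, nat_lit 0, nat_lit 0, ⟨nat_lit 1000, nat_lit 0, nat_lit 0, nat_lit 0, nat_lit 0, nat_lit 0, nat_lit 0, nat_lit 0, nat_lit 0, nat_lit 0, nat_lit 0, nat_lit 0, nat_lit 0, nat_lit 0, nat_lit 0, nat_lit 0, false, false⟩,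
 nat_lit 0, nat_lit 8653, nat_lit 0, nat_lit 0, nat_lit 6540, nat_lit 4965, nat_lit 492, nat_lit 0, nat_lit 0, nat_lit 1467, nat_lit 0, nat_lit 0, nat_lit 0, nat_lit 0, nat_lit 0, nat_lit 0, nat_lit 0, nat_lit 0, [],
 ⟨p021_k98, nat_lit 0, nat_lit 0, nat_lit 648, nat_lit 0, nat_lit 1279107, [nat_lit 2032000001, nat_lit 4688000000, nat_lit 6250000000], [], [nat_lit 32563074347, nat_lit 32601235521, nat_lit 32510228628, nat_lit 32549916813], nat_lit 1271250, nat_lit 1271250, nat_lit 936251, nat_lit 1100001, nat_lit 0, nat_lit 0, [nat_lit 490000, nat_lit 1100000, nat_lit 1442500], [nat_lit 6, nat_lit 40, nat_lit 80, nat_lit 80, nat_lit 3, nat_lit 249, nat_lit 40, nat_lit 9]⟩, ⟨p021_k97, nat_lit 0, nat_lit 0, nat_lit 0, nat_lit 0, nat_lit 0, [nat_lit 3282000000, nat_lit 6250000000], [], [nat_lit 18959950122, nat_lit 19041430447, nat_lit 19153401027, nat_lit 19232695643], nat_lit 0, nat_lit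 0, nat_lit 0, nat_lit 0, nat_lit 0, nat_lit 0, [], [nat_lit 49, nat_lit 40, nat_lit 80, nat_lit 80]⟩,
 zbF0, [⟨nat_lit 0, nat_lit 84, nat_lit 82, nat_lit 100, nat_lit 683867061⟩]⟩
noncomputable def p021_l214 : Lf2 := ⟨nat_lit 0, nat_lit 6, [nat_lit 47, nat_lit 5, nat_lit 5, nat_lit 20], false, nat_lit 0, nat_lit 0, nat_lit 0, nat_lit 0, ⟨nat_lit 1000, nat_lit 0, nat_lit 0, nat_lit 0, nat_lit 0, nat_lit 0, nat_lit 0, nat_lit 0, nat_lit 0, nat_lit 0, nat_lit 0, nat_lit 0, nat_lit 0, nat_lit 0, nat_lit 0, nat_lit 0, false, false⟩,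
 nat_lit 0, nat_lit 8737, nat_lit 0, nat_lit 0, nat_lit 6552, nat_lit 4955, nat_lit 482, nat_lit 0, nat_lit 0, nat_lit 1424, nat_lit 0, nat_lit 0, nat_lit 0, nat_lit 0, nat_lit 0, nat_lit 0, nat_lit 0, nat_lit 0, [],
 ⟨p021_k85, nat_lit 0, nat_lit 0, nat_lit 651, nat_lit 0, nat_lit 1287677, [nat_lit 2032000001, nat_lit 4688000000, nat_lit 6250000000], [], [nat_lit 33270609745, nat_lit 33308544365, nat_lit 33220277888, nat_lit 33259997688], nat_lit 1271250, nat_lit 1271250, nat_lit 936251, nat_lit 1100001, nat_lit 0, nat_lit 0, [nat_lit 490000, nat_lit 1100000, nat_lit 1442500], [nat_lit 6, nat_lit 40, nat_lit 80, nat_lit 80, nat_lit 3, nat_lit 249, nat_lit 40, nat_lit 9]⟩, ⟨p021_k99, nat_lit 0, nat_lit 0, nat_lit 0, nat_lit 0, nat_lit 0, [nat_lit 3282000000, nat_lit 6250000000], [], [nat_lit 19063440967, nat_lit 19144074688, nat_lit 19255048208, nat_lit 19333281493], nat_lit 0, nat_lit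 0, nat_lit 0, nat_lit 0, nat_lit 0, nat_lit 0, [], [nat_lit 49, nat_lit 40, nat_lit 80, nat_lit 80]⟩,
 zbF0, [⟨nat_lit 0, nat_lit 84, nat_lit 83, nat_lit 100, nat_lit 676621339⟩]⟩
noncomputable def p021_l215 : Lf2 := ⟨nat_lit 0, nat_lit 6, [nat_lit 47, nat_lit 5, nat_lit 5, nat_lit 20], false, nat_lit 0, nat_lit 0, nat_lit 0, nat_lit 0, ⟨nat_lit 1000, nat_lit 0, nat_lit 0, nat_lit 0, nat_lit 0, nat_lit 0, nat_lit 0, nat_lit 0, nat_lit 0, nat_lit 0, nat_lit 0, nat_lit 0, nat_lit 0, nat_lit 0, nat_lit 0, nat_lit 0, false, false⟩,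
 nat_lit 0, nat_lit 8695, nat_lit 0, nat_lit 0, nat_lit 6546, nat_lit 4955, nat_lit 484, nat_lit 0, nat_lit 0, nat_lit 1424, nat_lit 0, nat_lit 0, nat_lit 0, nat_lit 0, nat_lit 0, nat_lit 0, nat_lit 0, nat_lit 0, [],
 ⟨p021_k100, nat_lit 0, nat_lit 0, nat_lit 652, nat_lit 0, nat_lit 1287666, [nat_lit 2032000001, nat_lit 4688000000, nat_lit 6250000000], [], [nat_lit 32993337853, nat_lit 33031513706, nat_lit 32941000316, nat_lit 32980704308], nat_lit 1271250, nat_lit 1271250, nat_lit 936251, nat_lit 1100001, nat_lit 0, nat_lit 0, [nat_lit 490000, nat_lit 1100000, nat_lit 1442500], [nat_lit 6, nat_lit 40, nat_lit 80, nat_lit 80, nat_lit 3, nat_lit 249, nat_lit 40, nat_lit 9]⟩, ⟨p021_k99, nat_lit 0, nat_lit 0, nat_lit 0, nat_lit 0, nat_lit 0, [nat_lit 3282000000, nat_lit 6250000000], [], [nat_lit 19063440967, nat_lit 19144074688, nat_lit 19255048208, nat_lit 19333281493], nat_lit 0, nat_lit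 0, nat_lit 0, nat_lit 0, nat_lit 0, nat_lit 0, [], [nat_lit 49, nat_lit 40, nat_lit 80, nat_lit 80]⟩,
 zbF0, [⟨nat_lit 0, nat_lit 84, nat_lit 83, nat_lit 100, nat_lit 675994368⟩]⟩
noncomputable def p021_l216 : Lf2 := ⟨nat_lit 0, nat_lit 6, [nat_lit 47, nat_lit 5, nat_lit 5, nat_lit 20], false, nat_lit 0, nat_lit 0, nat_lit 0, nat_lit 0, ⟨nat_lit 1000, nat_lit 0, nat_lit 0, nat_lit 0, nat_lit 0, nat_lit 0, nat_lit 0, nat_lit 0, nat_lit 0, nat_lit 0, nat_lit 0, nat_lit 0, nat_lit 0, nat_lit 0, nat_lit 0, nat_lit 0, false, false⟩,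
 nat_lit 0, nat_lit 8653, nat_lit 0, nat_lit 0, nat_lit 6540, nat_lit 4955, nat_lit 492, nat_lit 0, nat_lit 0, nat_lit 1424, nat_lit 0, nat_lit 0, nat_lit 0, nat_lit 0, nat_lit 0, nat_lit 0, nat_lit 0, nat_lit 0, [],
 ⟨p021_k98, nat_lit 0, nat_lit 0, nat_lit 652, nat_lit 0, nat_lit 1287641, [nat_lit 2032000001, nat_lit 4688000000, nat_lit 6250000000], [], [nat_lit 32563074347, nat_lit 32601235521, nat_lit 32510228628, nat_lit 32549916813], nat_lit 1271250, nat_lit 1271250, nat_lit 936251, nat_lit 1100001, nat_lit 0, nat_lit 0, [nat_lit 490000, nat_lit 1100000, nat_lit 1442500], [nat_lit 6, nat_lit 40, nat_lit 80, nat_lit 80, nat_lit 3, nat_lit 249, nat_lit 40, nat_lit 9]⟩, ⟨p021_k99, nat_lit 0, nat_lit 0, nat_lit 0, nat_lit 0, nat_lit 0, [nat_lit 3282000000, nat_lit 6250000000], [], [nat_lit 19063440967, nat_lit 19144074688, nat_lit 19255048208, nat_lit 19333281493], nat_lit 0, nat_lit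 0, nat_lit 0, nat_lit 0, nat_lit 0, nat_lit 0, [], [nat_lit 49, nat_lit 40, nat_lit 80, nat_lit 80]⟩,
 zbF0, [⟨nat_lit 0, nat_lit 84, nat_lit 82, nat_lit 100, nat_lit 683605488⟩]⟩
noncomputable def p021_l217 : Lf2 := ⟨nat_lit 0, nat_lit 6, [nat_lit 47, nat_lit 5, nat_lit 5, nat_lit 20], true, nat_lit 0, nat_lit 0, nat_lit 0, nat_lit 0, ⟨nat_lit 0, nat_lit 1000, nat_lit 0, nat_lit 7, nat_lit 212, nat_lit 0, nat_lit 0, nat_lit 0, nat_lit 0, nat_lit 0, nat_lit 0, nat_lit 0, nat_lit 0, nat_lit 0, nat_lit 0, nat_lit 5000000, false, false⟩,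
 nat_lit 0, nat_lit 0, nat_lit 0, nat_lit 0, nat_lit 0, nat_lit 0, nat_lit 0, nat_lit 0, nat_lit 349, nat_lit 0, nat_lit 0, nat_lit 0, nat_lit 0, nat_lit 0, nat_lit 0, nat_lit 400000, nat_lit 0, nat_lit 0, [(nat_lit 18, [(nat_lit 1, nat_lit 1000)])],
 ⟨p021_k85, nat_lit 0, nat_lit 0, nat_lit 0, nat_lit 0, nat_lit 1296384, [nat_lit 1398133334, nat_lit 1966666667, nat_lit 1960800000], [], [nat_lit 12586179672, nat_lit 12617391847, nat_lit 12674321072, nat_lit 12705438352], nat_lit 1271250, nat_lit 1271250, nat_lit 936251, nat_lit 968401, nat_lit 0, nat_lit 0, [nat_lit 490000, nat_lit 1100000, nat_lit 1442500], [nat_lit 6, nat_lit 40, nat_lit 80, nat_lit 80]⟩, C1.Rw.none,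
 ⟨nat_lit 4444, nat_lit 4473, ⟨.ofNat (nat_lit 525273), .ofNat (nat_lit 532071), .ofNat (nat_lit 526352), .ofNat (nat_lit 533149), .ofNat (nat_lit 525584), .ofNat (nat_lit 532365), .ofNat (nat_lit 526663), .ofNat (nat_lit 533444)⟩, ⟨.ofNat (nat_lit 0), .ofNat (nat_lit 0), .ofNat (nat_lit 0), .ofNat (nat_lit 0), .ofNat (nat_lit 0), .ofNat (nat_lit 0), .ofNat (nat_lit 0), .ofNat (nat_lit 0)⟩⟩, []⟩
noncomputable def p021_l218 : Lf2 := ⟨nat_lit 0, nat_lit 6, [nat_lit 47, nat_lit 5, nat_lit 5, nat_lit 20], false, nat_lit 0, nat_lit 0, nat_lit 0, nat_lit 0, ⟨nat_lit 1000, nat_lit 0, nat_lit 0, nat_lit 0, nat_lit 0, nat_lit 0, nat_lit 0, nat_lit 0, nat_lit 0, nat_lit 0, nat_lit 0, nat_lit 0, nat_lit 0, nat_lit 0, nat_lit 0, nat_lit 0, false, false⟩,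
 nat_lit 0, nat_lit 0, nat_lit 0, nat_lit 0, nat_lit 0, nat_lit 5484, nat_lit 131, nat_lit 0, nat_lit 457, nat_lit 391, nat_lit 0, nat_lit 0, nat_lit 0, nat_lit 0, nat_lit 0, nat_lit 0, nat_lit 0, nat_lit 0, [],
 ⟨p021_k85, nat_lit 0, nat_lit 0, nat_lit 0, nat_lit 0, nat_lit 1296384, [nat_lit 2032000001, nat_lit 4688000000, nat_lit 6250000000], [], [nat_lit 14975638000, nat_lit 14999642775, nat_lit 15047160800, nat_lit 15071108780], nat_lit 1271250, nat_lit 1271250, nat_lit 936251, nat_lit 968401, nat_lit 0, nat_lit 0, [nat_lit 490000, nat_lit 1100000, nat_lit 1442500], [nat_lit 6, nat_lit 40, nat_lit 80, nat_lit 80]⟩, ⟨p021_k101, nat_lit 0, nat_lit 0, nat_lit 0, nat_lit 0, nat_lit 0, [nat_lit 3282000000, nat_lit 6250000000], [], [nat_lit 22258726262, nat_lit 22344191856, nat_lit 22290598847, nat_lit 22375545295], nat_lit 0, nat_lit 0, nat_lit 0, nat_lit 0, nat_lit 0, nat_lit 0, [], [nat_lit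 49, nat_lit 40, nat_lit 80, nat_lit 80]⟩,
 zbF0, []⟩
noncomputable def p021_l219 : Lf2 := ⟨nat_lit 0, nat_lit 6, [nat_lit 47, nat_lit 5, nat_lit 5, nat_lit 20], false, nat_lit 0, nat_lit 0, nat_lit 0, nat_lit 0, ⟨nat_lit 1000, nat_lit 0, nat_lit 0, nat_lit 0, nat_lit 0, nat_lit 0, nat_lit 0, nat_lit 0, nat_lit 0, nat_lit 0, nat_lit 0, nat_lit 0, nat_lit 0, nat_lit 0, nat_lit 0, nat_lit 0, false, false⟩,
 nat_lit 0, nat_lit 0, nat_lit 0, nat_lit 0, nat_lit 0, nat_lit 5494, nat_lit 127, nat_lit 0, nat_lit 449, nat_lit 1049, nat_lit 0, nat_lit 0, nat_lit 0, nat_lit 0, nat_lit 0, nat_lit 0, nat_lit 0, nat_lit 0, [],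
 ⟨p021_k85, nat_lit 0, nat_lit 0, nat_lit 0, nat_lit 0, nat_lit 1296384, [nat_lit 2032000001, nat_lit 4688000000, nat_lit 6250000000], [], [nat_lit 15791889000, nat_lit 15815642775, nat_lit 15863160800, nat_lit 15887108780], nat_lit 1271250, nat_lit 1271250, nat_lit 936251, nat_lit 968401, nat_lit 0, nat_lit 0, [nat_lit 490000, nat_lit 1100000, nat_lit 1442500], [nat_lit 6, nat_lit 40, nat_lit 80, nat_lit 80]⟩, ⟨p021_k101, nat_lit 0, nat_lit 0, nat_lit 0, nat_lit 0, nat_lit 0, [nat_lit 3282000000, nat_lit 6250000000], [], [nat_lit 19870611192, nat_lit 19992224042, nat_lit 19902370946, nat_lit 19993899605], nat_lit 0, nat_lit 0, nat_lit 0, nat_lit 0, nat_lit 0, nat_lit 0, [], [nat_lit 49, nat_lit 40, nat_lit 80, nat_lit 80]⟩,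
 zbF0, [⟨nat_lit 0, nat_lit 84, nat_lit 84, nat_lit 100, nat_lit 543824850⟩]⟩
noncomputable def p021_l220 : Lf2 := ⟨nat_lit 0, nat_lit 6, [nat_lit 47, nat_lit 5, nat_lit 5, nat_lit 20], false, nat_lit 0, nat_lit 0, nat_lit 0, nat_lit 0, ⟨nat_lit 1000, nat_lit 0, nat_lit 0, nat_lit 0, nat_lit 0, nat_lit 0, nat_lit 0, nat_lit 0, nat_lit 0, nat_lit 0, nat_lit 0, nat_lit 0, nat_lit 0, nat_lit 0, nat_lit 0, nat_lit 0, false, false⟩,
 nat_lit 0, nat_lit 8734, nat_lit 0, nat_lit 0, nat_lit 6550, nat_lit 4032, nat_lit 481, nat_lit 0, nat_lit 0, nat_lit 1425, nat_lit 0, nat_lit 0, nat_lit 0, nat_lit 0, nat_lit 0, nat_lit 0, nat_lit 0, nat_lit 0, [],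
 ⟨p021_k85, nat_lit 0, nat_lit 0, nat_lit 655, nat_lit 0, nat_lit 1296384, [nat_lit 2032000001, nat_lit 4688000000, nat_lit 6250000000], [], [nat_lit 33282677000, nat_lit 33320862639, nat_lit 33270980081, nat_lit 33308689057], nat_lit 1271250, nat_lit 1271250, nat_lit 936251, nat_lit 968401, nat_lit 0, nat_lit 0, [nat_lit 490000, nat_lit 1100000, nat_lit 1442500], [nat_lit 6, nat_lit 40, nat_lit 80, nat_lit 80, nat_lit 3, nat_lit 249, nat_lit 40, nat_lit 9]⟩, ⟨p021_k102, nat_lit 0, nat_lit 0, nat_lit 0, nat_lit 0, nat_lit 0, [nat_lit 2032000000, nat_lit 3282000000, nat_lit 4688000000, nat_lit 6250000000], [], [nat_lit 18443503007, nat_lit 18523900683, nat_lit 18490230408, nat_lit 18566454923], nat_lit 0, nat_lit 0, nat_lit 0, nat_lit 0, nat_lit 0, nat_lit 0, [], [nat_lit 127, nat_lit 40, nat_lit 80, nat_lit 80]⟩,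
 zbF0, [⟨nat_lit 0, nat_lit 84, nat_lit 83, nat_lit 100, nat_lit 878927327⟩]⟩
noncomputable def p021_l221 : Lf2 := ⟨nat_lit 0, nat_lit 6, [nat_lit 47, nat_lit 5, nat_lit 5, nat_lit 20], false, nat_lit 0, nat_lit 0, nat_lit 0, nat_lit 0, ⟨nat_lit 1000, nat_lit 0, nat_lit 0, nat_lit 0, nat_lit 0, nat_lit 0, nat_lit 0, nat_lit 0, nat_lit 0, nat_lit 0, nat_lit 0, nat_lit 0, nat_lit 0, nat_lit 0, nat_lit 0, nat_lit 0, false, false⟩,
 nat_lit 0, nat_lit 12740, nat_lit 0, nat_lit 0, nat_lit 9554, nat_lit 100000, nat_lit 438, nat_lit 0, nat_lit 0, nat_lit 18275, nat_lit 7842, nat_lit 0, nat_lit 0, nat_lit 0, nat_lit 0, nat_lit 0, nat_lit 0, nat_lit 0, [],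
 ⟨p021_k85, nat_lit 0, nat_lit 0, nat_lit 655, nat_lit 0, nat_lit 1296384, [nat_lit 2032000001, nat_lit 4688000000, nat_lit 6250000000], [], [nat_lit 18239417000, nat_lit 18286762116, nat_lit 18187996088, nat_lit 18243174649], nat_lit 1271250, nat_lit 1271250, nat_lit 936251, nat_lit 968401, nat_lit 0, nat_lit 0, [nat_lit 490000, nat_lit 1100000, nat_lit 1442500], [nat_lit 6, nat_lit 40, nat_lit 80, nat_lit 80, nat_lit 3, nat_lit 249, nat_lit 40, nat_lit 9]⟩, ⟨p021_k101, nat_lit 0, nat_lit 0, nat_lit 0, nat_lit 0, nat_lit 0, [nat_lit 97386000000, nat_lit 163090000000], [], [nat_lit 123385183475, nat_lit 124609120351, nat_lit 122122276645, nat_lit 123420256700], nat_lit 0, nat_lit 0, nat_lit 0, nat_lit 0, nat_lit 0, nat_lit 0, [], [nat_lit 49, nat_lit 40, nat_lit 80, nat_lit 80]⟩,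
 zbF0, [⟨nat_lit 0, nat_lit 84, nat_lit 84, nat_lit 100, nat_lit 13349619826⟩]⟩
noncomputable def p021_l222 : Lf2 := ⟨nat_lit 3, nat_lit 6, [nat_lit 47, nat_lit 5, nat_lit 5, nat_lit 20], false, nat_lit 0, nat_lit 0, nat_lit 0, nat_lit 0, zbN0,
 nat_lit 0, nat_lit 0, nat_lit 0, nat_lit 0, nat_lit 0, nat_lit 0, nat_lit 0, nat_lit 0, nat_lit 0, nat_lit 0, nat_lit 0, nat_lit 0, nat_lit 0, nat_lit 0, nat_lit 0, nat_lit 0, nat_lit 0, nat_lit 0, [],
 C1.Rw.none, ⟨p021_k101, nat_lit 0, nat_lit 0, nat_lit 0, nat_lit 0, nat_lit 0, [], [], [], nat_lit 0, nat_lit 0, nat_lit 0, nat_lit 0, nat_lit 0, nat_lit 0, [], [nat_lit 49, nat_lit 40, nat_lit 80, nat_lit 80]⟩,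
 zbF0, []⟩
noncomputable def p021_l223 : Lf2 := ⟨nat_lit 0, nat_lit 6, [nat_lit 47, nat_lit 5, nat_lit 5, nat_lit 20], true, nat_lit 0, nat_lit 0, nat_lit 0, nat_lit 0, ⟨nat_lit 0, nat_lit 1000, nat_lit 0, nat_lit 7, nat_lit 214, nat_lit 0, nat_lit 0, nat_lit 0, nat_lit 0, nat_lit 0, nat_lit 0, nat_lit 0, nat_lit 0, nat_lit 0, nat_lit 0, nat_lit 5000000, false, false⟩,
 nat_lit 0, nat_lit 0, nat_lit 0, nat_lit 0, nat_lit 0, nat_lit 0, nat_lit 0, nat_lit 0, nat_lit 349, nat_lit 0, nat_lit 0, nat_lit 0, nat_lit 0, nat_lit 0, nat_lit 0, nat_lit 400000, nat_lit 0, nat_lit 0, [(nat_lit 18, [(nat_lit 1, nat_lit 1000)])],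
 ⟨p021_k85, nat_lit 0, nat_lit 0, nat_lit 0, nat_lit 0, nat_lit 1296384, [nat_lit 1398133334, nat_lit 1966666667, nat_lit 1960800000], [], [nat_lit 12674321072, nat_lit 12705438352, nat_lit 12762462472, nat_lit 12796230555], nat_lit 1271250, nat_lit 1271250, nat_lit 968401, nat_lit 1000851, nat_lit 0, nat_lit 0, [nat_lit 490000, nat_lit 1100000, nat_lit 1442500], [nat_lit 6, nat_lit 40, nat_lit 80, nat_lit 80]⟩, C1.Rw.none,
 ⟨nat_lit 4444, nat_lit 4473, ⟨.ofNat (nat_lit 532071), .ofNat (nat_lit 538869), .ofNat (nat_lit 533149), .ofNat (nat_lit 539947), .ofNat (nat_lit 532365), .ofNat (nat_lit 539146), .ofNat (nat_lit 533444), .ofNat (nat_lit 540224)⟩, ⟨.ofNat (nat_lit 0), .ofNat (nat_lit 0), .ofNat (nat_lit 0), .ofNat (nat_lit 0), .ofNat (nat_lit 0), .ofNat (nat_lit 0), .ofNat (nat_lit 0), .ofNat (nat_lit 0)⟩⟩, []⟩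
noncomputable def p021_l224 : Lf2 := ⟨nat_lit 0, nat_lit 6, [nat_lit 47, nat_lit 5, nat_lit 5, nat_lit 20], false, nat_lit 0, nat_lit 0, nat_lit 0, nat_lit 0, ⟨nat_lit 1000, nat_lit 0, nat_lit 0, nat_lit 0, nat_lit 0, nat_lit 0, nat_lit 0, nat_lit 0, nat_lit 0, nat_lit 0, nat_lit 0, nat_lit 0, nat_lit 0, nat_lit 0, nat_lit 0, nat_lit 0, false, false⟩,
 nat_lit 0, nat_lit 0, nat_lit 0, nat_lit 0, nat_lit 0, nat_lit 4084, nat_lit 0, nat_lit 0, nat_lit 466, nat_lit 1396, nat_lit 0, nat_lit 0, nat_lit 0, nat_lit 0, nat_lit 0, nat_lit 0, nat_lit 0, nat_lit 0, [],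
 ⟨p021_k85, nat_lit 0, nat_lit 0, nat_lit 0, nat_lit 0, nat_lit 1296384, [nat_lit 2032000001, nat_lit 4688000000, nat_lit 6250000000], [], [nat_lit 14812848000, nat_lit 14840696561, nat_lit 14893243600, nat_lit 14921704820], nat_lit 1271250, nat_lit 1271250, nat_lit 968401, nat_lit 1000851, nat_lit 0, nat_lit 0, [nat_lit 490000, nat_lit 1100000, nat_lit 1442500], [nat_lit 6, nat_lit 40, nat_lit 80, nat_lit 80]⟩, ⟨p021_k101, nat_lit 0, nat_lit 0, nat_lit 0, nat_lit 0, nat_lit 0, [nat_lit 3282000000, nat_lit 6250000000], [], [nat_lit 19937426834, nat_lit 20010327925, nat_lit 19985532843, nat_lit 20067770145], nat_lit 0, nat_lit 0, nat_lit 0, nat_lit 0, nat_lit 0, nat_lit 0, [], [nat_lit 49, nat_lit 40, nat_lit 80, nat_lit 80]⟩,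
 zbF0, []⟩
noncomputable def p021_l225 : Lf2 := ⟨nat_lit 0, nat_lit 6, [nat_lit 47, nat_lit 5, nat_lit 5, nat_lit 20], false, nat_lit 0, nat_lit 0, nat_lit 0, nat_lit 0, ⟨nat_lit 1000, nat_lit 0, nat_lit 0, nat_lit 0, nat_lit 0, nat_lit 0, nat_lit 0, nat_lit 0, nat_lit 0, nat_lit 0, nat_lit 0, nat_lit 0, nat_lit 0, nat_lit 0, nat_lit 0, nat_lit 0, false, false⟩,
 nat_lit 0, nat_lit 0, nat_lit 0, nat_lit 0, nat_lit 0, nat_lit 5494, nat_lit 127, nat_lit 0, nat_lit 449, nat_lit 1047, nat_lit 0, nat_lit 0, nat_lit 0, nat_lit 0, nat_lit 0, nat_lit 0, nat_lit 0, nat_lit 0, [],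
 ⟨p021_k85, nat_lit 0, nat_lit 0, nat_lit 0, nat_lit 0, nat_lit 1296384, [nat_lit 2032000001, nat_lit 4688000000, nat_lit 6250000000], [], [nat_lit 15863160800, nat_lit 15887108780, nat_lit 15934683600, nat_lit 15958574785], nat_lit 1271250, nat_lit 1271250, nat_lit 968401, nat_lit 1000851, nat_lit 0, nat_lit 0, [nat_lit 490000, nat_lit 1100000, nat_lit 1442500], [nat_lit 6, nat_lit 40, nat_lit 80, nat_lit 80]⟩, ⟨p021_k101, nat_lit 0, nat_lit 0, nat_lit 0, nat_lit 0, nat_lit 0, [nat_lit 3282000000, nat_lit 6250000000], [], [nat_lit 19909602196, nat_lit 19994639245, nat_lit 19941361950, nat_lit 20025879114], nat_lit 0, nat_lit 0, nat_lit 0, nat_lit 0, nat_lit 0, nat_lit 0, [], [nat_lit 49, nat_lit 40, nat_lit 80, nat_lit 80]⟩,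
 zbF0, []⟩
noncomputable def p021_l226 : Lf2 := ⟨nat_lit 0, nat_lit 6, [nat_lit 47, nat_lit 5, nat_lit 5, nat_lit 20], false, nat_lit 0, nat_lit 0, nat_lit 0, nat_lit 0, ⟨nat_lit 1000, nat_lit 0, nat_lit 0, nat_lit 0, nat_lit 0, nat_lit 0, nat_lit 0, nat_lit 0, nat_lit 0, nat_lit 0, nat_lit 0, nat_lit 0, nat_lit 0, nat_lit 0, nat_lit 0, nat_lit 0, false, false⟩,
 nat_lit 0, nat_lit 8734, nat_lit 0, nat_lit 0, nat_lit 6550, nat_lit 4032, nat_lit 481, nat_lit 0, nat_lit 0, nat_lit 1425, nat_lit 0, nat_lit 0, nat_lit 0, nat_lit 0, nat_lit 0, nat_lit 0, nat_lit 0, nat_lit 0, [],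
 ⟨p021_k85, nat_lit 0, nat_lit 0, nat_lit 653, nat_lit 0, nat_lit 1296384, [nat_lit 2032000001, nat_lit 4688000000, nat_lit 6250000000], [], [nat_lit 33270980081, nat_lit 33308689057, nat_lit 33260377062, nat_lit 33298926307], nat_lit 1271250, nat_lit 1271250, nat_lit 968401, nat_lit 1000851, nat_lit 0, nat_lit 0, [nat_lit 490000, nat_lit 1100000, nat_lit 1442500], [nat_lit 6, nat_lit 40, nat_lit 80, nat_lit 80, nat_lit 3, nat_lit 249, nat_lit 40, nat_lit 9]⟩, ⟨p021_k102, nat_lit 0, nat_lit 0, nat_lit 0, nat_lit 0, nat_lit 0, [nat_lit 2032000000, nat_lit 3282000000, nat_lit 4688000000, nat_lit 6250000000], [], [nat_lit 18490230408, nat_lit 18566454923, nat_lit 18539445879, nat_lit 18615152375], nat_lit 0, nat_lit 0, nat_lit 0, nat_lit 0, nat_lit 0, nat_lit 0, [], [nat_lit 127, nat_lit 40, nat_lit 80, nat_lit 80]⟩,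
 zbF0, [⟨nat_lit 0, nat_lit 84, nat_lit 83, nat_lit 100, nat_lit 659703302⟩]⟩
noncomputable def p021_l227 : Lf2 := ⟨nat_lit 0, nat_lit 6, [nat_lit 47, nat_lit 5, nat_lit 5, nat_lit 20], false, nat_lit 0, nat_lit 0, nat_lit 0, nat_lit 0, ⟨nat_lit 1000, nat_lit 0, nat_lit 0, nat_lit 0, nat_lit 0, nat_lit 0, nat_lit 0, nat_lit 0, nat_lit 0, nat_lit 0, nat_lit 0, nat_lit 0, nat_lit 0, nat_lit 0, nat_lit 0, nat_lit 0, false, false⟩,
 nat_lit 0, nat_lit 1881, nat_lit 0, nat_lit 0, nat_lit 1410, nat_lit 100000, nat_lit 549, nat_lit 0, nat_lit 0, nat_lit 18241, nat_lit 7854, nat_lit 0, nat_lit 0, nat_lit 0, nat_lit 0, nat_lit 0, nat_lit 0, nat_lit 0, [],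
 ⟨p021_k85, nat_lit 0, nat_lit 0, nat_lit 653, nat_lit 0, nat_lit 1296384, [nat_lit 2032000001, nat_lit 4688000000, nat_lit 6250000000], [], [nat_lit 61533405777, nat_lit 61558701037, nat_lit 61583703534, nat_lit 61608913497], nat_lit 1271250, nat_lit 1271250, nat_lit 968401, nat_lit 1000851, nat_lit 0, nat_lit 0, [nat_lit 490000, nat_lit 1100000, nat_lit 1442500], [nat_lit 6, nat_lit 40, nat_lit 80, nat_lit 80, nat_lit 3, nat_lit 249, nat_lit 40, nat_lit 9]⟩, ⟨p021_k101, nat_lit 0, nat_lit 0, nat_lit 0, nat_lit 0, nat_lit 0, [nat_lit 97530000000, nat_lit 163330000000], [], [nat_lit 122629207895, nat_lit 123570482535, nat_lit 121594644166, nat_lit 122528421071], nat_lit 0, nat_lit 0, nat_lit 0, nat_lit 0, nat_lit 0, nat_lit 0, [], [nat_lit 49, nat_lit 40, nat_lit 80, nat_lit 80]⟩,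
 zbF0, []⟩
noncomputable def p021_l228 : Lf2 := ⟨nat_lit 3, nat_lit 6, [nat_lit 47, nat_lit 5, nat_lit 5, nat_lit 20], false, nat_lit 0, nat_lit 0, nat_lit 0, nat_lit 0, zbN0,
 nat_lit 0, nat_lit 0, nat_lit 0, nat_lit 0, nat_lit 0, nat_lit 0, nat_lit 0, nat_lit 0, nat_lit 0, nat_lit 0, nat_lit 0, nat_lit 0, nat_lit 0, nat_lit 0, nat_lit 0, nat_lit 0, nat_lit 0, nat_lit 0, [],
 C1.Rw.none, ⟨p021_k101, nat_lit 0, nat_lit 0, nat_lit 0, nat_lit 0, nat_lit 0, [], [], [], nat_lit 0, nat_lit 0, nat_lit 0, nat_lit 0, nat_lit 0, nat_lit 0, [], [nat_lit 49, nat_lit 40, nat_lit 80, nat_lit 80]⟩,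
 zbF0, []⟩
noncomputable def p021_l229 : Lf2 := ⟨nat_lit 0, nat_lit 6, [nat_lit 47, nat_lit 5, nat_lit 5, nat_lit 20], false, nat_lit 0, nat_lit 0, nat_lit 0, nat_lit 0, ⟨nat_lit 1000, nat_lit 0, nat_lit 0, nat_lit 0, nat_lit 0, nat_lit 0, nat_lit 0, nat_lit 0, nat_lit 0, nat_lit 0, nat_lit 0, nat_lit 0, nat_lit 0, nat_lit 0, nat_lit 0, nat_lit 0, false, false⟩,
 nat_lit 0, nat_lit 8730, nat_lit 0, nat_lit 0, nat_lit 6547, nat_lit 4953, nat_lit 479, nat_lit 0, nat_lit 0, nat_lit 1391, nat_lit 0, nat_lit 0, nat_lit 0, nat_lit 0, nat_lit 0, nat_lit 0, nat_lit 0, nat_lit 0, [],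
 ⟨p021_k85, nat_lit 0, nat_lit 0, nat_lit 652, nat_lit 0, nat_lit 1296384, [nat_lit 2032000001, nat_lit 4688000000, nat_lit 6250000000], [], [nat_lit 33277772168, nat_lit 33315505509, nat_lit 33266340711, nat_lit 33304450137], nat_lit 1271250, nat_lit 1271250, nat_lit 1000851, nat_lit 1033601, nat_lit 0, nat_lit 0, [nat_lit 490000, nat_lit 1100000, nat_lit 1442500], [nat_lit 6, nat_lit 40, nat_lit 80, nat_lit 80, nat_lit 3, nat_lit 249, nat_lit 40, nat_lit 9]⟩, ⟨p021_k101, nat_lit 0, nat_lit 0, nat_lit 0, nat_lit 0, nat_lit 0, [nat_lit 3282000000, nat_lit 6250000000], [], [nat_lit 19198524931, nat_lit 19278180505, nat_lit 19236388858, nat_lit 19326709919], nat_lit 0, nat_lit 0, nat_lit 0, nat_lit 0, nat_lit 0, nat_lit 0, [], [nat_lit 49, nat_lit 40, nat_lit 80, nat_lit 80]⟩,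
 zbF0, []⟩
noncomputable def p021_l230 : Lf2 := ⟨nat_lit 0, nat_lit 6, [nat_lit 47, nat_lit 5, nat_lit 5, nat_lit 20], false, nat_lit 0, nat_lit 0, nat_lit 0, nat_lit 0, ⟨nat_lit 1000, nat_lit 0, nat_lit 0, nat_lit 0, nat_lit 0, nat_lit 0, nat_lit 0, nat_lit 0, nat_lit 0, nat_lit 0, nat_lit 0, nat_lit 0, nat_lit 0, nat_lit 0, nat_lit 0, nat_lit 0, false, false⟩,
 nat_lit 0, nat_lit 8727, nat_lit 0, nat_lit 0, nat_lit 6545, nat_lit 4969, nat_lit 478, nat_lit 0, nat_lit 0, nat_lit 1388, nat_lit 0, nat_lit 0, nat_lit 0, nat_lit 0, nat_lit 0, nat_lit 0, nat_lit 0, nat_lit 0, [],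
 ⟨p021_k85, nat_lit 0, nat_lit 0, nat_lit 651, nat_lit 0, nat_lit 1296384, [nat_lit 2032000001, nat_lit 4688000000, nat_lit 6250000000], [], [nat_lit 33277926821, nat_lit 33315432948, nat_lit 33256297601, nat_lit 33295452838], nat_lit 1271250, nat_lit 1271250, nat_lit 1033601, nat_lit 1100001, nat_lit 0, nat_lit 0, [nat_lit 490000, nat_lit 1100000, nat_lit 1442500], [nat_lit 6, nat_lit 40, nat_lit 80, nat_lit 80, nat_lit 3, nat_lit 249, nat_lit 40, nat_lit 9]⟩, ⟨p021_k101, nat_lit 0, nat_lit 0, nat_lit 0, nat_lit 0, nat_lit 0, [nat_lit 3282000000, nat_lit 6250000000], [], [nat_lit 19232240032, nat_lit 19312007918, nat_lit 19319024918, nat_lit 19409194551], nat_lit 0, nat_lit 0, nat_lit 0, nat_lit 0, nat_lit 0, nat_lit 0, [], [nat_lit 49, nat_lit 40, nat_lit 80, nat_lit 80]⟩,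
 zbF0, []⟩
noncomputable def p021_l231 : Lf2 := ⟨nat_lit 0, nat_lit 6, [nat_lit 47, nat_lit 5, nat_lit 5, nat_lit 20], true, nat_lit 0, nat_lit 0, nat_lit 0, nat_lit 0, ⟨nat_lit 0, nat_lit 1000, nat_lit 0, nat_lit 7, nat_lit 212, nat_lit 0, nat_lit 0, nat_lit 0, nat_lit 0, nat_lit 0, nat_lit 0, nat_lit 0, nat_lit 0, nat_lit 0, nat_lit 0, nat_lit 5000000, false, false⟩,
 nat_lit 0, nat_lit 0, nat_lit 0, nat_lit 0, nat_lit 0, nat_lit 0, nat_lit 0, nat_lit 0, nat_lit 349, nat_lit 0, nat_lit 0, nat_lit 0, nat_lit 0, nat_lit 0, nat_lit 0, nat_lit 400000, nat_lit 0, nat_lit 0, [(nat_lit 18, [(nat_lit 1, nat_lit 1000)])],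
 ⟨p021_k85, nat_lit 0, nat_lit 0, nat_lit 0, nat_lit 0, nat_lit 1305114, [nat_lit 1398133334, nat_lit 1966666667, nat_lit 1960800000], [], [nat_lit 12586179672, nat_lit 12617391847, nat_lit 12674321072, nat_lit 12705438352], nat_lit 1271250, nat_lit 1271250, nat_lit 936251, nat_lit 968401, nat_lit 0, nat_lit 0, [nat_lit 490000, nat_lit 1100000, nat_lit 1442500], [nat_lit 6, nat_lit 40, nat_lit 80, nat_lit 80]⟩, C1.Rw.none,
 ⟨nat_lit 4444, nat_lit 4473, ⟨.ofNat (nat_lit 526352), .ofNat (nat_lit 533149), .ofNat (nat_lit 527430), .ofNat (nat_lit 534228), .ofNat (nat_lit 526663), .ofNat (nat_lit 533444), .ofNat (nat_lit 527742), .ofNat (nat_lit 534523)⟩, ⟨.ofNat (nat_lit 0), .ofNat (nat_lit 0), .ofNat (nat_lit 0), .ofNat (nat_lit 0), .ofNat (nat_lit 0), .ofNat (nat_lit 0), .ofNat (nat_lit 0), .ofNat (nat_lit 0)⟩⟩, []⟩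
noncomputable def p021_l232 : Lf2 := ⟨nat_lit 0, nat_lit 6, [nat_lit 47, nat_lit 5, nat_lit 5, nat_lit 20], false, nat_lit 0, nat_lit 0, nat_lit 0, nat_lit 0, ⟨nat_lit 1000, nat_lit 0, nat_lit 0, nat_lit 0, nat_lit 0, nat_lit 0, nat_lit 0, nat_lit 0, nat_lit 0, nat_lit 0, nat_lit 0, nat_lit 0, nat_lit 0, nat_lit 0, nat_lit 0, nat_lit 0, false, false⟩,
 nat_lit 0, nat_lit 0, nat_lit 0, nat_lit 0, nat_lit 0, nat_lit 5484, nat_lit 187, nat_lit 0, nat_lit 396, nat_lit 597, nat_lit 0, nat_lit 0, nat_lit 0, nat_lit 0, nat_lit 0, nat_lit 0, nat_lit 0, nat_lit 0, [],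
 ⟨p021_k85, nat_lit 0, nat_lit 0, nat_lit 0, nat_lit 0, nat_lit 1305114, [nat_lit 2032000001, nat_lit 4688000000, nat_lit 6250000000], [], [nat_lit 20852588001, nat_lit 20876352876, nat_lit 20923845601, nat_lit 20947554421], nat_lit 1271250, nat_lit 1271250, nat_lit 936251, nat_lit 968401, nat_lit 0, nat_lit 0, [nat_lit 490000, nat_lit 1100000, nat_lit 1442500], [nat_lit 6, nat_lit 40, nat_lit 80, nat_lit 80]⟩, ⟨p021_k103, nat_lit 0, nat_lit 0, nat_lit 0, nat_lit 0, nat_lit 0, [nat_lit 3282000000, nat_lit 6250000000], [], [nat_lit 21541538731, nat_lit 21637110508, nat_lit 21572892170, nat_lit 21657838617], nat_lit 0, nat_lit 0, nat_lit 0, nat_lit 0, nat_lit 0, nat_lit 0, [], [nat_lit 49, nat_lit 40, nat_lit 80, nat_lit 80]⟩,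
 zbF0, [⟨nat_lit 0, nat_lit 84, nat_lit 83, nat_lit 100, nat_lit 550634718⟩]⟩
noncomputable def p021_l233 : Lf2 := ⟨nat_lit 0, nat_lit 6, [nat_lit 47, nat_lit 5, nat_lit 5, nat_lit 20], false, nat_lit 0, nat_lit 0, nat_lit 0, nat_lit 0, ⟨nat_lit 1000, nat_lit 0, nat_lit 0, nat_lit 0, nat_lit 0, nat_lit 0, nat_lit 0, nat_lit 0, nat_lit 0, nat_lit 0, nat_lit 0, nat_lit 0, nat_lit 0, nat_lit 0, nat_lit 0, nat_lit 0, false, false⟩,
 nat_lit 0, nat_lit 0, nat_lit 0, nat_lit 0, nat_lit 0, nat_lit 5494, nat_lit 127, nat_lit 0, nat_lit 449, nat_lit 1020, nat_lit 0, nat_lit 0, nat_lit 0, nat_lit 0, nat_lit 0, nat_lit 0, nat_lit 0, nat_lit 0, [],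
 ⟨p021_k85, nat_lit 0, nat_lit 0, nat_lit 0, nat_lit 0, nat_lit 1305114, [nat_lit 2032000001, nat_lit 4688000000, nat_lit 6250000000], [], [nat_lit 15791889000, nat_lit 15815642775, nat_lit 15863160800, nat_lit 15887108780], nat_lit 1271250, nat_lit 1271250, nat_lit 936251, nat_lit 968401, nat_lit 0, nat_lit 0, [nat_lit 490000, nat_lit 1100000, nat_lit 1442500], [nat_lit 6, nat_lit 40, nat_lit 80, nat_lit 80]⟩, ⟨p021_k103, nat_lit 0, nat_lit 0, nat_lit 0, nat_lit 0, nat_lit 0, [nat_lit 3282000000, nat_lit 6250000000], [], [nat_lit 19992224042, nat_lit 20114711688, nat_lit 19993899605, nat_lit 20115691037], nat_lit 0, nat_lit 0, nat_lit 0, nat_lit 0, nat_lit 0, nat_lit 0, [], [nat_lit 49, nat_lit 40, nat_lit 80, nat_lit 80]⟩,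
 zbF0, [⟨nat_lit 0, nat_lit 84, nat_lit 83, nat_lit 100, nat_lit 608372108⟩]⟩
noncomputable def p021_l234 : Lf2 := ⟨nat_lit 0, nat_lit 6, [nat_lit 47, nat_lit 5, nat_lit 5, nat_lit 20], false, nat_lit 0, nat_lit 0, nat_lit 0, nat_lit 0, ⟨nat_lit 1000, nat_lit 0, nat_lit 0, nat_lit 0, nat_lit 0, nat_lit 0, nat_lit 0, nat_lit 0, nat_lit 0, nat_lit 0, nat_lit 0, nat_lit 0, nat_lit 0, nat_lit 0, nat_lit 0, nat_lit 0, false, false⟩,
 nat_lit 0, nat_lit 8742, nat_lit 0, nat_lit 0, nat_lit 6556, nat_lit 4027, nat_lit 481, nat_lit 0, nat_lit 0, nat_lit 1396, nat_lit 0, nat_lit 0, nat_lit 0, nat_lit 0, nat_lit 0, nat_lit 0, nat_lit 0, nat_lit 0, [],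
 ⟨p021_k85, nat_lit 0, nat_lit 0, nat_lit 658, nat_lit 0, nat_lit 1305114, [nat_lit 2032000001, nat_lit 4688000000, nat_lit 6250000000], [], [nat_lit 33252287000, nat_lit 33290487318, nat_lit 33238125233, nat_lit 33278422540], nat_lit 1271250, nat_lit 1271250, nat_lit 936251, nat_lit 968401, nat_lit 0, nat_lit 0, [nat_lit 490000, nat_lit 1100000, nat_lit 1442500], [nat_lit 6, nat_lit 40, nat_lit 80, nat_lit 80, nat_lit 3, nat_lit 249, nat_lit 40, nat_lit 9]⟩, ⟨p021_k104, nat_lit 0, nat_lit 0, nat_lit 0, nat_lit 0, nat_lit 0, [nat_lit 2032000000, nat_lit 3282000000, nat_lit 4688000000, nat_lit 6250000000], [], [nat_lit 18535164819, nat_lit 18615509924, nat_lit 18581176821, nat_lit 18657459963], nat_lit 0, nat_lit 0, nat_lit 0, nat_lit 0, nat_lit 0, nat_lit 0, [], [nat_lit 127, nat_lit 40, nat_lit 80, nat_lit 80]⟩,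
 zbF0, [⟨nat_lit 0, nat_lit 83, nat_lit 83, nat_lit 100, nat_lit 904394984⟩]⟩
noncomputable def p021_l235 : Lf2 := ⟨nat_lit 0, nat_lit 6, [nat_lit 47, nat_lit 5, nat_lit 5, nat_lit 20], false, nat_lit 0, nat_lit 0, nat_lit 0, nat_lit 0, ⟨nat_lit 1000, nat_lit 0, nat_lit 0, nat_lit 0, nat_lit 0, nat_lit 0, nat_lit 0, nat_lit 0, nat_lit 0, nat_lit 0, nat_lit 0, nat_lit 0, nat_lit 0, nat_lit 0, nat_lit 0, nat_lit 0, false, false⟩,
 nat_lit 0, nat_lit 12740, nat_lit 0, nat_lit 0, nat_lit 9554, nat_lit 100000, nat_lit 438, nat_lit 0, nat_lit 0, nat_lit 17765, nat_lit 7854, nat_lit 0, nat_lit 0, nat_lit 0, nat_lit 0, nat_lit 0, nat_lit 0, nat_lit 0, [],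
 ⟨p021_k85, nat_lit 0, nat_lit 0, nat_lit 658, nat_lit 0, nat_lit 1305114, [nat_lit 2032000001, nat_lit 4688000000, nat_lit 6250000000], [], [nat_lit 18239417000, nat_lit 18286762116, nat_lit 18187996088, nat_lit 18243174649], nat_lit 1271250, nat_lit 1271250, nat_lit 936251, nat_lit 968401, nat_lit 0, nat_lit 0, [nat_lit 490000, nat_lit 1100000, nat_lit 1442500], [nat_lit 6, nat_lit 40, nat_lit 80, nat_lit 80, nat_lit 3, nat_lit 249, nat_lit 40, nat_lit 9]⟩, ⟨p021_k103, nat_lit 0, nat_lit 0, nat_lit 0, nat_lit 0, nat_lit 0, [nat_lit 97530000000, nat_lit 163330000000], [], [nat_lit 124837582675, nat_lit 126061381000, nat_lit 123570535660, nat_lit 124862851200], nat_lit 0, nat_lit 0, nat_lit 0, nat_lit 0, nat_lit 0, nat_lit 0, [], [nat_lit 49, nat_lit 40, nat_lit 80, nat_lit 80]⟩,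
 zbF0, [⟨nat_lit 0, nat_lit 84, nat_lit 83, nat_lit 100, nat_lit 11104385246⟩, ⟨nat_lit 0, nat_lit 84, nat_lit 83, nat_lit 100, nat_lit 14343086632⟩]⟩
noncomputable def p021_l236 : Lf2 := ⟨nat_lit 3, nat_lit 6, [nat_lit 47, nat_lit 5, nat_lit 5, nat_lit 20], false, nat_lit 0, nat_lit 0, nat_lit 0, nat_lit 0, zbN0,
 nat_lit 0, nat_lit 0, nat_lit 0, nat_lit 0, nat_lit 0, nat_lit 0, nat_lit 0, nat_lit 0, nat_lit 0, nat_lit 0, nat_lit 0, nat_lit 0, nat_lit 0, nat_lit 0, nat_lit 0, nat_lit 0, nat_lit 0, nat_lit 0, [],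
 C1.Rw.none, ⟨p021_k103, nat_lit 0, nat_lit 0, nat_lit 0, nat_lit 0, nat_lit 0, [], [], [], nat_lit 0, nat_lit 0, nat_lit 0, nat_lit 0, nat_lit 0, nat_lit 0, [], [nat_lit 49, nat_lit 40, nat_lit 80, nat_lit 80]⟩,
 zbF0, []⟩
noncomputable def p021_l237 : Lf2 := ⟨nat_lit 0, nat_lit 6, [nat_lit 47, nat_lit 5, nat_lit 5, nat_lit 20], true, nat_lit 0, nat_lit 0, nat_lit 0, nat_lit 0, ⟨nat_lit 0, nat_lit 1000, nat_lit 0, nat_lit 7, nat_lit 215, nat_lit 0, nat_lit 0, nat_lit 0, nat_lit 0, nat_lit 0, nat_lit 0, nat_lit 0, nat_lit 0, nat_lit 0, nat_lit 0, nat_lit 5000000, false, false⟩,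
 nat_lit 0, nat_lit 0, nat_lit 0, nat_lit 0, nat_lit 0, nat_lit 0, nat_lit 0, nat_lit 0, nat_lit 349, nat_lit 0, nat_lit 0, nat_lit 0, nat_lit 0, nat_lit 0, nat_lit 0, nat_lit 400000, nat_lit 0, nat_lit 0, [(nat_lit 18, [(nat_lit 1, nat_lit 1000)])],
 ⟨p021_k85, nat_lit 0, nat_lit 0, nat_lit 0, nat_lit 0, nat_lit 1305114, [nat_lit 1398133334, nat_lit 1966666667, nat_lit 1960800000], [], [nat_lit 12674321072, nat_lit 12705438352, nat_lit 12762462472, nat_lit 12796230555], nat_lit 1271250, nat_lit 1271250, nat_lit 968401, nat_lit 1000851, nat_lit 0, nat_lit 0, [nat_lit 490000, nat_lit 1100000, nat_lit 1442500], [nat_lit 6, nat_lit 40, nat_lit 80, nat_lit 80]⟩, C1.Rw.none,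
 ⟨nat_lit 4444, nat_lit 4473, ⟨.ofNat (nat_lit 533149), .ofNat (nat_lit 539947), .ofNat (nat_lit 534228), .ofNat (nat_lit 541026), .ofNat (nat_lit 533444), .ofNat (nat_lit 540224), .ofNat (nat_lit 534523), .ofNat (nat_lit 541303)⟩, ⟨.ofNat (nat_lit 0), .ofNat (nat_lit 0), .ofNat (nat_lit 0), .ofNat (nat_lit 0), .ofNat (nat_lit 0), .ofNat (nat_lit 0), .ofNat (nat_lit 0), .ofNat (nat_lit 0)⟩⟩, []⟩
noncomputable def p021_l238 : Lf2 := ⟨nat_lit 0, nat_lit 6, [nat_lit 47, nat_lit 5, nat_lit 5, nat_lit 20], false, nat_lit 0, nat_lit 0, nat_lit 0, nat_lit 0, ⟨nat_lit 1000, nat_lit 0, nat_lit 0, nat_lit 0, nat_lit 0, nat_lit 0, nat_lit 0, nat_lit 0, nat_lit 0, nat_lit 0, nat_lit 0, nat_lit 0, nat_lit 0, nat_lit 0, nat_lit 0, nat_lit 0, false, false⟩,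
 nat_lit 0, nat_lit 0, nat_lit 0, nat_lit 0, nat_lit 0, nat_lit 5484, nat_lit 137, nat_lit 0, nat_lit 466, nat_lit 177, nat_lit 0, nat_lit 0, nat_lit 0, nat_lit 0, nat_lit 0, nat_lit 0, nat_lit 0, nat_lit 0, [],
 ⟨p021_k85, nat_lit 0, nat_lit 0, nat_lit 0, nat_lit 0, nat_lit 1305114, [nat_lit 2032000001, nat_lit 4688000000, nat_lit 6250000000], [], [nat_lit 14266152800, nat_lit 14292989380, nat_lit 14345243600, nat_lit 14373704820], nat_lit 1271250, nat_lit 1271250, nat_lit 968401, nat_lit 1000851, nat_lit 0, nat_lit 0, [nat_lit 490000, nat_lit 1100000, nat_lit 1442500], [nat_lit 6, nat_lit 40, nat_lit 80, nat_lit 80]⟩, ⟨p021_k103, nat_lit 0, nat_lit 0, nat_lit 0, nat_lit 0, nat_lit 0, [nat_lit 3282000000, nat_lit 6250000000], [], [nat_lit 23132142170, nat_lit 23217088617, nat_lit 23163495608, nat_lit 23247922910], nat_lit 0, nat_lit 0, nat_lit 0, nat_lit 0, nat_lit 0, nat_lit 0, [], [nat_lit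 49, nat_lit 40, nat_lit 80, nat_lit 80]⟩,
 zbF0, []⟩
noncomputable def p021_l239 : Lf2 := ⟨nat_lit 0, nat_lit 6, [nat_lit 47, nat_lit 5, nat_lit 5, nat_lit 20], false, nat_lit 0, nat_lit 0, nat_lit 0, nat_lit 0, ⟨nat_lit 1000, nat_lit 0, nat_lit 0, nat_lit 0, nat_lit 0, nat_lit 0, nat_lit 0, nat_lit 0, nat_lit 0, nat_lit 0, nat_lit 0, nat_lit 0, nat_lit 0, nat_lit 0, nat_lit 0, nat_lit 0, false, false⟩,
 nat_lit 0, nat_lit 0, nat_lit 0, nat_lit 0, nat_lit 0, nat_lit 5484, nat_lit 127, nat_lit 0, nat_lit 449, nat_lit 1016, nat_lit 0, nat_lit 0, nat_lit 0, nat_lit 0, nat_lit 0, nat_lit 0, nat_lit 0, nat_lit 0, [],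
 ⟨p021_k85, nat_lit 0, nat_lit 0, nat_lit 0, nat_lit 0, nat_lit 1305114, [nat_lit 2032000001, nat_lit 4688000000, nat_lit 6250000000], [], [nat_lit 15863160800, nat_lit 15887108780, nat_lit 15934683600, nat_lit 15958574785], nat_lit 1271250, nat_lit 1271250, nat_lit 968401, nat_lit 1000851, nat_lit 0, nat_lit 0, [nat_lit 490000, nat_lit 1100000, nat_lit 1442500], [nat_lit 6, nat_lit 40, nat_lit 80, nat_lit 80]⟩, ⟨p021_k103, nat_lit 0, nat_lit 0, nat_lit 0, nat_lit 0, nat_lit 0, [nat_lit 3282000000, nat_lit 6250000000], [], [nat_lit 20017354670, nat_lit 20102301117, nat_lit 20048708108, nat_lit 20133135410], nat_lit 0, nat_lit 0, nat_lit 0, nat_lit 0, nat_lit 0, nat_lit 0, [], [nat_lit 49, nat_lit 40, nat_lit 80, nat_lit 80]⟩,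
 zbF0, []⟩
noncomputable def p021_l240 : Lf2 := ⟨nat_lit 0, nat_lit 6, [nat_lit 47, nat_lit 5, nat_lit 5, nat_lit 20], false, nat_lit 0, nat_lit 0, nat_lit 0, nat_lit 0, ⟨nat_lit 1000, nat_lit 0, nat_lit 0, nat_lit 0, nat_lit 0, nat_lit 0, nat_lit 0, nat_lit 0, nat_lit 0, nat_lit 0, nat_lit 0, nat_lit 0, nat_lit 0, nat_lit 0, nat_lit 0, nat_lit 0, false, false⟩,
 nat_lit 0, nat_lit 8730, nat_lit 0, nat_lit 0, nat_lit 6547, nat_lit 4027, nat_lit 480, nat_lit 0, nat_lit 0, nat_lit 1396, nat_lit 0, nat_lit 0, nat_lit 0, nat_lit 0, nat_lit 0, nat_lit 0, nat_lit 0, nat_lit 0, [],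
 ⟨p021_k85, nat_lit 0, nat_lit 0, nat_lit 657, nat_lit 0, nat_lit 1305114, [nat_lit 2032000001, nat_lit 4688000000, nat_lit 6250000000], [], [nat_lit 33287822084, nat_lit 33325777905, nat_lit 33276908186, nat_lit 33314389235], nat_lit 1271250, nat_lit 1271250, nat_lit 968401, nat_lit 1000851, nat_lit 0, nat_lit 0, [nat_lit 490000, nat_lit 1100000, nat_lit 1442500], [nat_lit 6, nat_lit 40, nat_lit 80, nat_lit 80, nat_lit 3, nat_lit 249, nat_lit 40, nat_lit 9]⟩, ⟨p021_k104, nat_lit 0, nat_lit 0, nat_lit 0, nat_lit 0, nat_lit 0, [nat_lit 2032000000, nat_lit 3282000000, nat_lit 4688000000, nat_lit 6250000000], [], [nat_lit 18581176821, nat_lit 18657459963, nat_lit 18630016200, nat_lit 18705696211], nat_lit 0, nat_lit 0, nat_lit 0, nat_lit 0, nat_lit 0, nat_lit 0, [], [nat_lit 127, nat_lit 40, nat_lit 80, nat_lit 80]⟩,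
 zbF0, [⟨nat_lit 0, nat_lit 83, nat_lit 83, nat_lit 100, nat_lit 669866943⟩]⟩
noncomputable def p021_l241 : Lf2 := ⟨nat_lit 0, nat_lit 6, [nat_lit 47, nat_lit 5, nat_lit 5, nat_lit 20], false, nat_lit 0, nat_lit 0, nat_lit 0, nat_lit 0, ⟨nat_lit 1000, nat_lit 0, nat_lit 0, nat_lit 0, nat_lit 0, nat_lit 0, nat_lit 0, nat_lit 0, nat_lit 0, nat_lit 0, nat_lit 0, nat_lit 0, nat_lit 0, nat_lit 0, nat_lit 0, nat_lit 0, false, false⟩,
 nat_lit 0, nat_lit 1794, nat_lit 0, nat_lit 0, nat_lit 1345, nat_lit 100000, nat_lit 550, nat_lit 0, nat_lit 0, nat_lit 17731, nat_lit 7865, nat_lit 0, nat_lit 0, nat_lit 0, nat_lit 0, nat_lit 0, nat_lit 0, nat_lit 0, [],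
 ⟨p021_k85, nat_lit 0, nat_lit 0, nat_lit 657, nat_lit 0, nat_lit 1305114, [nat_lit 2032000001, nat_lit 4688000000, nat_lit 6250000000], [], [nat_lit 61890809993, nat_lit 61915948270, nat_lit 61941877896, nat_lit 61966932589], nat_lit 1271250, nat_lit 1271250, nat_lit 968401, nat_lit 1000851, nat_lit 0, nat_lit 0, [nat_lit 490000, nat_lit 1100000, nat_lit 1442500], [nat_lit 6, nat_lit 40, nat_lit 80, nat_lit 80, nat_lit 3, nat_lit 249, nat_lit 40, nat_lit 9]⟩, ⟨p021_k103, nat_lit 0, nat_lit 0, nat_lit 0, nat_lit 0, nat_lit 0, [nat_lit 97662000000, nat_lit 163550000000], [], [nat_lit 124048760660, nat_lit 124994851200, nat_lit 123006699196, nat_lit 123940476101], nat_lit 0, nat_lit 0, nat_lit 0, nat_lit 0, nat_lit 0, nat_lit 0, [], [nat_lit 49, nat_lit 40, nat_lit 80, nat_lit 80]⟩,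
 zbF0, []⟩
noncomputable def p021_l242 : Lf2 := ⟨nat_lit 3, nat_lit 6, [nat_lit 47, nat_lit 5, nat_lit 5, nat_lit 20], false, nat_lit 0, nat_lit 0, nat_lit 0, nat_lit 0, zbN0,
 nat_lit 0, nat_lit 0, nat_lit 0, nat_lit 0, nat_lit 0, nat_lit 0, nat_lit 0, nat_lit 0, nat_lit 0, nat_lit 0, nat_lit 0, nat_lit 0, nat_lit 0, nat_lit 0, nat_lit 0, nat_lit 0, nat_lit 0, nat_lit 0, [],
 C1.Rw.none, ⟨p021_k103, nat_lit 0, nat_lit 0, nat_lit 0, nat_lit 0, nat_lit 0, [], [], [], nat_lit 0, nat_lit 0, nat_lit 0, nat_lit 0, nat_lit 0, nat_lit 0, [], [nat_lit 49, nat_lit 40, nat_lit 80, nat_lit 80]⟩,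
 zbF0, []⟩
noncomputable def p021_l243 : Lf2 := ⟨nat_lit 0, nat_lit 6, [nat_lit 47, nat_lit 5, nat_lit 5, nat_lit 20], false, nat_lit 0, nat_lit 0, nat_lit 0, nat_lit 0, ⟨nat_lit 1000, nat_lit 0, nat_lit 0, nat_lit 0, nat_lit 0, nat_lit 0, nat_lit 0, nat_lit 0, nat_lit 0, nat_lit 0, nat_lit 0, nat_lit 0, nat_lit 0, nat_lit 0, nat_lit 0, nat_lit 0, false, false⟩,
 nat_lit 0, nat_lit 8730, nat_lit 0, nat_lit 0, nat_lit 6547, nat_lit 4943, nat_lit 479, nat_lit 0, nat_lit 0, nat_lit 1352, nat_lit 0, nat_lit 0, nat_lit 0, nat_lit 0, nat_lit 0, nat_lit 0, nat_lit 0, nat_lit 0, [],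
 ⟨p021_k85, nat_lit 0, nat_lit 0, nat_lit 656, nat_lit 0, nat_lit 1305114, [nat_lit 2032000001, nat_lit 4688000000, nat_lit 6250000000], [], [nat_lit 33277772168, nat_lit 33315505509, nat_lit 33266340711, nat_lit 33304450137], nat_lit 1271250, nat_lit 1271250, nat_lit 1000851, nat_lit 1033601, nat_lit 0, nat_lit 0, [nat_lit 490000, nat_lit 1100000, nat_lit 1442500], [nat_lit 6, nat_lit 40, nat_lit 80, nat_lit 80, nat_lit 3, nat_lit 249, nat_lit 40, nat_lit 9]⟩, ⟨p021_k103, nat_lit 0, nat_lit 0, nat_lit 0, nat_lit 0, nat_lit 0, [nat_lit 3282000000, nat_lit 6250000000], [], [nat_lit 19297384499, nat_lit 19378619777, nat_lit 19335898670, nat_lit 19426912867], nat_lit 0, nat_lit 0, nat_lit 0, nat_lit 0, nat_lit 0, nat_lit 0, [], [nat_lit 49, nat_lit 40, nat_lit 80, nat_lit 80]⟩,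
 zbF0, []⟩
noncomputable def p021_l244 : Lf2 := ⟨nat_lit 0, nat_lit 6, [nat_lit 47, nat_lit 5, nat_lit 5, nat_lit 20], false, nat_lit 0, nat_lit 0, nat_lit 0, nat_lit 0, ⟨nat_lit 1000, nat_lit 0, nat_lit 0, nat_lit 0, nat_lit 0, nat_lit 0, nat_lit 0, nat_lit 0, nat_lit 0, nat_lit 0, nat_lit 0, nat_lit 0, nat_lit 0, nat_lit 0, nat_lit 0, nat_lit 0, false, false⟩,
 nat_lit 0, nat_lit 8727, nat_lit 0, nat_lit 0, nat_lit 6545, nat_lit 4959, nat_lit 478, nat_lit 0, nat_lit 0, nat_lit 1348, nat_lit 0, nat_lit 0, nat_lit 0, nat_lit 0, nat_lit 0, nat_lit 0, nat_lit 0, nat_lit 0, [],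
 ⟨p021_k85, nat_lit 0, nat_lit 0, nat_lit 654, nat_lit 0, nat_lit 1305114, [nat_lit 2032000001, nat_lit 4688000000, nat_lit 6250000000], [], [nat_lit 33277926821, nat_lit 33315432948, nat_lit 33256297601, nat_lit 33295452838], nat_lit 1271250, nat_lit 1271250, nat_lit 1033601, nat_lit 1100001, nat_lit 0, nat_lit 0, [nat_lit 490000, nat_lit 1100000, nat_lit 1442500], [nat_lit 6, nat_lit 40, nat_lit 80, nat_lit 80, nat_lit 3, nat_lit 249, nat_lit 40, nat_lit 9]⟩, ⟨p021_k103, nat_lit 0, nat_lit 0, nat_lit 0, nat_lit 0, nat_lit 0, [nat_lit 3282000000, nat_lit 6250000000], [], [nat_lit 19334878954, nat_lit 19414108063, nat_lit 19418583277, nat_lit 19508646824], nat_lit 0, nat_lit 0, nat_lit 0, nat_lit 0, nat_lit 0, nat_lit 0, [], [nat_lit 49, nat_lit 40, nat_lit 80, nat_lit 80]⟩,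
 zbF0, []⟩
noncomputable def p021_l245 : Lf2 := ⟨nat_lit 0, nat_lit 6, [nat_lit 47, nat_lit 5, nat_lit 5, nat_lit 20], false, nat_lit 0, nat_lit 0, nat_lit 0, nat_lit 0, ⟨nat_lit 1000, nat_lit 0, nat_lit 0, nat_lit 0, nat_lit 0, nat_lit 0, nat_lit 0, nat_lit 0, nat_lit 0, nat_lit 0, nat_lit 0, nat_lit 0, nat_lit 0, nat_lit 0, nat_lit 0, nat_lit 0, false, false⟩,
 nat_lit 0, nat_lit 8678, nat_lit 0, nat_lit 0, nat_lit 6533, nat_lit 4935, nat_lit 483, nat_lit 0, nat_lit 0, nat_lit 1378, nat_lit 0, nat_lit 0, nat_lit 0, nat_lit 0, nat_lit 0, nat_lit 0, nat_lit 0, nat_lit 0, [],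
 ⟨p021_k100, nat_lit 0, nat_lit 0, nat_lit 658, nat_lit 0, nat_lit 1304950, [nat_lit 2032000001, nat_lit 4688000000, nat_lit 6250000000], [], [nat_lit 33064079234, nat_lit 33101988846, nat_lit 33010969687, nat_lit 33047756357], nat_lit 1271250, nat_lit 1271250, nat_lit 936251, nat_lit 1100001, nat_lit 0, nat_lit 0, [nat_lit 490000, nat_lit 1100000, nat_lit 1442500], [nat_lit 6, nat_lit 40, nat_lit 80, nat_lit 80, nat_lit 3, nat_lit 249, nat_lit 40, nat_lit 9]⟩, ⟨p021_k101, nat_lit 0, nat_lit 0, nat_lit 0, nat_lit 0, nat_lit 0, [nat_lit 3282000000, nat_lit 6250000000], [], [nat_lit 19186061077, nat_lit 19346963160, nat_lit 19376396195, nat_lit 19532512170], nat_lit 0, nat_lit 0, nat_lit 0, nat_lit 0, nat_lit 0, nat_lit 0, [], [nat_lit 49, nat_lit 40, nat_lit 80, nat_lit 80]⟩,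
 zbF0, [⟨nat_lit 0, nat_lit 83, nat_lit 82, nat_lit 100, nat_lit 693890349⟩]⟩
noncomputable def p021_l246 : Lf2 := ⟨nat_lit 0, nat_lit 6, [nat_lit 47, nat_lit 5, nat_lit 5, nat_lit 20], false, nat_lit 0, nat_lit 0, nat_lit 0, nat_lit 0, ⟨nat_lit 1000, nat_lit 0, nat_lit 0, nat_lit 0, nat_lit 0, nat_lit 0, nat_lit 0, nat_lit 0, nat_lit 0, nat_lit 0, nat_lit 0, nat_lit 0, nat_lit 0, nat_lit 0, nat_lit 0, nat_lit 0, false, false⟩,
 nat_lit 0, nat_lit 8650, nat_lit 0, nat_lit 0, nat_lit 6538, nat_lit 4946, nat_lit 491, nat_lit 0, nat_lit 0, nat_lit 1378, nat_lit 0, nat_lit 0, nat_lit 0, nat_lit 0, nat_lit 0, nat_lit 0, nat_lit 0, nat_lit 0, [],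
 ⟨p021_k98, nat_lit 0, nat_lit 0, nat_lit 657, nat_lit 0, nat_lit 1304774, [nat_lit 2032000001, nat_lit 4688000000, nat_lit 6250000000], [], [nat_lit 32564443267, nat_lit 32602377307, nat_lit 32522081527, nat_lit 32561764442], nat_lit 1271250, nat_lit 1271250, nat_lit 968401, nat_lit 1100001, nat_lit 0, nat_lit 0, [nat_lit 490000, nat_lit 1100000, nat_lit 1442500], [nat_lit 6, nat_lit 40, nat_lit 80, nat_lit 80, nat_lit 3, nat_lit 249, nat_lit 40, nat_lit 9]⟩, ⟨p021_k101, nat_lit 0, nat_lit 0, nat_lit 0, nat_lit 0, nat_lit 0, [nat_lit 3282000000, nat_lit 6250000000], [], [nat_lit 19214066785, nat_lit 19374210970, nat_lit 19365838421, nat_lit 19522147222], nat_lit 0, nat_lit 0, nat_lit 0, nat_lit 0, nat_lit 0, nat_lit 0, [], [nat_lit 49, nat_lit 40, nat_lit 80, nat_lit 80]⟩,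
 zbF0, [⟨nat_lit 0, nat_lit 83, nat_lit 82, nat_lit 100, nat_lit 689622524⟩]⟩
noncomputable def b_N_800_700_0_32 : St := ⟨false, nat_lit 1, nat_lit 0, nat_lit 2, nat_lit 40, nat_lit 320, nat_lit 323, nat_lit 315, nat_lit 320, nat_lit 136, nat_lit 160, nat_lit 0, nat_lit 0, nat_lit 0, nat_lit 0, nat_lit 0, nat_lit 0, nat_lit 20, nat_lit 24, nat_lit 0, nat_lit 0, nat_lit 0, nat_lit 800⟩
theorem d_N_800_700_0_32 (h : EB TB.env) : Dead b_N_800_700_0_32 := chkB_sound0 h (T :=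
(.spl (nat_lit 1) (nat_lit 318)
(.spl (nat_lit 1) (nat_lit 317)
(.spl (nat_lit 1) (nat_lit 316)
(.leaf p021_l211)
(.spl (nat_lit 0) (nat_lit 322)
(.leaf p021_l212)
(.trZ (nat_lit 0) (nat_lit 85) (nat_lit 83) (nat_lit 100) (nat_lit 140) (.leaf p021_l213))))
(.trZ (nat_lit 0) (nat_lit 85) (nat_lit 84) (nat_lit 100) (nat_lit 140) (.spl (nat_lit 0) (nat_lit 322)
(.spl (nat_lit 0) (nat_lit 321)
(.leaf p021_l214)
(.leaf p021_l215))
(.leaf p021_l216))))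
(.trZ (nat_lit 0) (nat_lit 84) (nat_lit 84) (nat_lit 100) (nat_lit 140) (.spl (nat_lit 0) (nat_lit 322)
(.spl (nat_lit 0) (nat_lit 321)
(.spl (nat_lit 1) (nat_lit 319)
(.spl (nat_lit 2) (nat_lit 152)
(.spl (nat_lit 2) (nat_lit 144)
(.spl (nat_lit 7) (nat_lit 600)
(.leaf p021_l217)
(.spl (nat_lit 7) (nat_lit 900)
(.leaf p021_l218)
(.spl (nat_lit 7) (nat_lit 1060)
(.leaf p021_l219)
(.spl (nat_lit 8) (nat_lit 400)
(.spl (nat_lit 8) (nat_lit 200)
(.leaf p021_l220)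
(.leaf p021_l221))
(.leaf p021_l222)))))
(.spl (nat_lit 2) (nat_lit 148)
(.spl (nat_lit 8) (nat_lit 400)
(.spl (nat_lit 7) (nat_lit 600)
(.leaf p021_l223)
(.spl (nat_lit 7) (nat_lit 900)
(.leaf p021_l224)
(.spl (nat_lit 7) (nat_lit 1060)
(.leaf p021_l225)
(.spl (nat_lit 8) (nat_lit 200)
(.leaf p021_l226)
(.leaf p021_l227)))))
(.leaf p021_l228))
(.leaf p021_l229)))
(.leaf p021_l230))
(.spl (nat_lit 2) (nat_lit 152)
(.spl (nat_lit 2) (nat_lit 144)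
(.spl (nat_lit 7) (nat_lit 600)
(.leaf p021_l231)
(.spl (nat_lit 7) (nat_lit 900)
(.leaf p021_l232)
(.spl (nat_lit 7) (nat_lit 1060)
(.leaf p021_l233)
(.spl (nat_lit 8) (nat_lit 400)
(.spl (nat_lit 8) (nat_lit 200)
(.leaf p021_l234)
(.leaf p021_l235))
(.leaf p021_l236)))))
(.spl (nat_lit 2) (nat_lit 148)
(.spl (nat_lit 7) (nat_lit 600)
(.leaf p021_l237)
(.spl (nat_lit 7) (nat_lit 900)
(.leaf p021_l238)
(.spl (nat_lit 7) (nat_lit 1060)
(.leaf p021_l239)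
(.spl (nat_lit 8) (nat_lit 400)
(.spl (nat_lit 8) (nat_lit 200)
(.leaf p021_l240)
(.leaf p021_l241))
(.leaf p021_l242)))))
(.leaf p021_l243)))
(.leaf p021_l244)))
(.leaf p021_l245))
(.trZ (nat_lit 0) (nat_lit 84) (nat_lit 83) (nat_lit 100) (nat_lit 144) (.leaf p021_l246)))))) (by decide +kernel)

end B2
end Pool.Agent.Lib.MP_6947cd_al
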