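import Pool.Agent.Lib.MP_6947cd_al.ZB.Pre

/-!
Problem MP_6947cd_al (Chollet).  Case B, second entry in [2/5, 17/20]: certificates of the tree, part P022 (generated).
-/

set_option autoImplicit false
set_option linter.all false

namespace Pool.Agent.Lib.MP_6947cd_al
namespace B2

open Ent Fr B1 PkA

noncomputable def p022_k0 : C1.Kn := ⟨[nat_lit 40, nat_lit 80, nat_lit 100], [nat_lit 0, nat_lit 0, nat_lit 1280], [(nat_lit 0, nat_lit 0, nat_lit 0), (nat_lit 0, nat_lit 0, nat_lit 0), (nat_lit 1000, nat_lit 800, nat_lit 600)], (nat_lit 80, nat_lit 100, nat_lit 51)⟩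
noncomputable def p022_k1 : C1.Kn := ⟨[nat_lit 60, nat_lit 100], [nat_lit 0, nat_lit 1063], [(nat_lit 0, nat_lit 0, nat_lit 0), (nat_lit 1000, nat_lit 834, nat_lit 414)], (nat_lit 82, nat_lit 100, nat_lit 51)⟩
noncomputable def p022_k2 : C1.Kn := ⟨[nat_lit 40, nat_lit 80, nat_lit 100], [nat_lit 0, nat_lit 79, nat_lit 1328], [(nat_lit 0, nat_lit 0, nat_lit 0), (nat_lit 1000, nat_lit 981, nat_lit 31), (nat_lit 1000, nat_lit 792, nat_lit 599)], (nat_lit 80, nat_lit 100, nat_lit 51)⟩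
noncomputable def p022_k3 : C1.Kn := ⟨[nat_lit 60, nat_lit 100], [nat_lit 0, nat_lit 1157], [(nat_lit 0, nat_lit 0, nat_lit 0), (nat_lit 1000, nat_lit 819, nat_lit 452)], (nat_lit 81, nat_lit 100, nat_lit 51)⟩
noncomputable def p022_k4 : C1.Kn := ⟨[nat_lit 60, nat_lit 100], [nat_lit 0, nat_lit 1188], [(nat_lit 0, nat_lit 0, nat_lit 0), (nat_lit 1000, nat_lit 814, nat_lit 464)], (nat_lit 81, nat_lit 100, nat_lit 51)⟩
noncomputable def p022_k5 : C1.Kn := ⟨[nat_lit 40, nat_lit 80, nat_lit 100], [nat_lit 0, nat_lit 0, nat_lit 1280], [(nat_lit 0, nat_lit 0, nat_lit 0), (nat_lit 0, nat_lit 0, nat_lit 0), (nat_lit 1000, nat_lit 800, nat_lit 600)], (nat_lit 80, nat_lit 100, nat_lit 54)⟩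
noncomputable def p022_k6 : C1.Kn := ⟨[nat_lit 60, nat_lit 100], [nat_lit 0, nat_lit 1063], [(nat_lit 0, nat_lit 0, nat_lit 0), (nat_lit 1000, nat_lit 834, nat_lit 414)], (nat_lit 82, nat_lit 100, nat_lit 54)⟩
noncomputable def p022_k7 : C1.Kn := ⟨[nat_lit 40, nat_lit 80, nat_lit 100], [nat_lit 0, nat_lit 79, nat_lit 1328], [(nat_lit 0, nat_lit 0, nat_lit 0), (nat_lit 1000, nat_lit 981, nat_lit 31), (nat_lit 1000, nat_lit 792, nat_lit 599)], (nat_lit 80, nat_lit 100, nat_lit 54)⟩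
noncomputable def p022_k8 : C1.Kn := ⟨[nat_lit 40, nat_lit 80, nat_lit 100], [nat_lit 0, nat_lit 0, nat_lit 1280], [(nat_lit 0, nat_lit 0, nat_lit 0), (nat_lit 0, nat_lit 0, nat_lit 0), (nat_lit 1000, nat_lit 800, nat_lit 600)], (nat_lit 80, nat_lit 100, nat_lit 60)⟩
noncomputable def p022_k9 : C1.Kn := ⟨[nat_lit 60, nat_lit 100, nat_lit 140], [nat_lit 0, nat_lit 0, nat_lit 2047], [(nat_lit 0, nat_lit 0, nat_lit 0), (nat_lit 0, nat_lit 0, nat_lit 0), (nat_lit 1000, nat_lit 993, nat_lit 781)], (nat_lit 94, nat_lit 100, nat_lit 62)⟩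
noncomputable def p022_k10 : C1.Kn := ⟨[nat_lit 40, nat_lit 80, nat_lit 100], [nat_lit 0, nat_lit 192, nat_lit 1404], [(nat_lit 0, nat_lit 0, nat_lit 0), (nat_lit 1000, nat_lit 955, nat_lit 75), (nat_lit 1000, nat_lit 781, nat_lit 625)], (nat_lit 78, nat_lit 100, nat_lit 60)⟩
noncomputable def p022_k11 : C1.Kn := ⟨[nat_lit 60, nat_lit 100, nat_lit 120], [nat_lit 0, nat_lit 302, nat_lit 1376], [(nat_lit 0, nat_lit 0, nat_lit 0), (nat_lit 1000, nat_lit 953, nat_lit 118), (nat_lit 1000, nat_lit 911, nat_lit 628)], (nat_lit 91, nat_lit 100, nat_lit 61)⟩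
noncomputable def p022_k12 : C1.Kn := ⟨[nat_lit 40, nat_lit 80], [nat_lit 0, nat_lit 0], [(nat_lit 0, nat_lit 0, nat_lit 0), (nat_lit 0, nat_lit 0, nat_lit 0)], (nat_lit 85, nat_lit 100, nat_lit 30)⟩
noncomputable def p022_k13 : C1.Kn := ⟨[nat_lit 60, nat_lit 80], [nat_lit 0, nat_lit 304], [(nat_lit 0, nat_lit 0, nat_lit 0), (nat_lit 1000, nat_lit 905, nat_lit 238)], (nat_lit 89, nat_lit 100, nat_lit 29)⟩
noncomputable def p022_k14 : C1.Kn := ⟨[nat_lit 40, nat_lit 60], [nat_lit 0, nat_lit 0], [(nat_lit 0, nat_lit 0, nat_lit 0), (nat_lit 0, nat_lit 0, nat_lit 0)], (nat_lit 89, nat_lit 100, nat_lit 22)⟩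
noncomputable def p022_k15 : C1.Kn := ⟨[nat_lit 60, nat_lit 80], [nat_lit 0, nat_lit 304], [(nat_lit 0, nat_lit 0, nat_lit 0), (nat_lit 1000, nat_lit 905, nat_lit 238)], (nat_lit 91, nat_lit 100, nat_lit 21)⟩
noncomputable def p022_k16 : C1.Kn := ⟨[nat_lit 40, nat_lit 80, nat_lit 100], [nat_lit 0, nat_lit 0, nat_lit 1280], [(nat_lit 0, nat_lit 0, nat_lit 0), (nat_lit 0, nat_lit 0, nat_lit 0), (nat_lit 1000, nat_lit 800, nat_lit 600)], (nat_lit 82, nat_lit 100, nat_lit 44)⟩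
noncomputable def p022_k17 : C1.Kn := ⟨[nat_lit 60, nat_lit 100], [nat_lit 0, nat_lit 609], [(nat_lit 0, nat_lit 0, nat_lit 0), (nat_lit 1000, nat_lit 905, nat_lit 238)], (nat_lit 87, nat_lit 100, nat_lit 44)⟩
noncomputable def p022_k18 : C1.Kn := ⟨[nat_lit 60, nat_lit 100], [nat_lit 0, nat_lit 909], [(nat_lit 0, nat_lit 0, nat_lit 0), (nat_lit 1000, nat_lit 858, nat_lit 354)], (nat_lit 84, nat_lit 100, nat_lit 44)⟩
noncomputable def p022_k19 : C1.Kn := ⟨[nat_lit 40, nat_lit 80], [nat_lit 0, nat_lit 192], [(nat_lit 0, nat_lit 0, nat_lit 0), (nat_lit 1000, nat_lit 955, nat_lit 75)], (nat_lit 80, nat_lit 100, nat_lit 45)⟩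
noncomputable def p022_k20 : C1.Kn := ⟨[nat_lit 60, nat_lit 100, nat_lit 120], [nat_lit 0, nat_lit 609, nat_lit 1609], [(nat_lit 0, nat_lit 0, nat_lit 0), (nat_lit 1000, nat_lit 905, nat_lit 238), (nat_lit 1000, nat_lit 882, nat_lit 668)], (nat_lit 87, nat_lit 100, nat_lit 60)⟩
noncomputable def p022_k21 : C1.Kn := ⟨[nat_lit 60, nat_lit 100, nat_lit 120], [nat_lit 0, nat_lit 909, nat_lit 1866], [(nat_lit 0, nat_lit 0, nat_lit 0), (nat_lit 1000, nat_lit 858, nat_lit 354), (nat_lit 1000, nat_lit 849, nat_lit 705)], (nat_lit 84, nat_lit 100, nat_lit 60)⟩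
noncomputable def p022_k22 : C1.Kn := ⟨[nat_lit 40, nat_lit 80, nat_lit 100], [nat_lit 0, nat_lit 395, nat_lit 1536], [(nat_lit 0, nat_lit 0, nat_lit 0), (nat_lit 1000, nat_lit 908, nat_lit 154), (nat_lit 1000, nat_lit 760, nat_lit 642)], (nat_lit 76, nat_lit 100, nat_lit 60)⟩
noncomputable def p022_k23 : C1.Kn := ⟨[nat_lit 40, nat_lit 80, nat_lit 100], [nat_lit 0, nat_lit 795, nat_lit 1829], [(nat_lit 0, nat_lit 0, nat_lit 0), (nat_lit 1000, nat_lit 814, nat_lit 310), (nat_lit 1000, nat_lit 714, nat_lit 692)], (nat_lit 72, nat_lit 100, nat_lit 61)⟩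
noncomputable def p022_k24 : C1.Kn := ⟨[nat_lit 40, nat_lit 100], [nat_lit 0, nat_lit 1192], [(nat_lit 0, nat_lit 0, nat_lit 0), (nat_lit 1000, nat_lit 814, nat_lit 310)], (nat_lit 72, nat_lit 100, nat_lit 61)⟩
noncomputable def p022_k25 : C1.Kn := ⟨[nat_lit 40, nat_lit 100], [nat_lit 0, nat_lit 0], [(nat_lit 0, nat_lit 0, nat_lit 0), (nat_lit 0, nat_lit 0, nat_lit 0)], (nat_lit 80, nat_lit 100, nat_lit 60)⟩
noncomputable def p022_k26 : C1.Kn := ⟨[nat_lit 60, nat_lit 120], [nat_lit 0, nat_lit 913], [(nat_lit 0, nat_lit 0, nat_lit 0), (nat_lit 1000, nat_lit 905, nat_lit 238)], (nat_lit 87, nat_lit 100, nat_lit 60)⟩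
noncomputable def p022_k27 : C1.Kn := ⟨[nat_lit 60, nat_lit 100, nat_lit 140], [nat_lit 0, nat_lit 151, nat_lit 2175], [(nat_lit 0, nat_lit 0, nat_lit 0), (nat_lit 1000, nat_lit 977, nat_lit 59), (nat_lit 1000, nat_lit 974, nat_lit 785)], (nat_lit 92, nat_lit 100, nat_lit 61)⟩
noncomputable def p022_k28 : C1.Kn := ⟨[nat_lit 60, nat_lit 100, nat_lit 120], [nat_lit 0, nat_lit 238, nat_lit 1332], [(nat_lit 0, nat_lit 0, nat_lit 0), (nat_lit 1000, nat_lit 963, nat_lit 93), (nat_lit 1000, nat_lit 916, nat_lit 621)], (nat_lit 91, nat_lit 100, nat_lit 61)⟩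
noncomputable def p022_k29 : C1.Kn := ⟨[nat_lit 60, nat_lit 100, nat_lit 120], [nat_lit 0, nat_lit 455, nat_lit 1489], [(nat_lit 0, nat_lit 0, nat_lit 0), (nat_lit 1000, nat_lit 929, nat_lit 178), (nat_lit 1000, nat_lit 895, nat_lit 641)], (nat_lit 89, nat_lit 100, nat_lit 61)⟩
noncomputable def p022_k30 : C1.Kn := ⟨[nat_lit 40, nat_lit 80], [nat_lit 0, nat_lit 1195], [(nat_lit 0, nat_lit 0, nat_lit 0), (nat_lit 1000, nat_lit 720, nat_lit 465)], (nat_lit 68, nat_lit 100, nat_lit 61)⟩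
noncomputable def p022_k31 : C1.Kn := ⟨[nat_lit 20, nat_lit 40, nat_lit 60, nat_lit 100], [nat_lit 0, nat_lit 0, nat_lit 0, nat_lit 1216], [(nat_lit 0, nat_lit 0, nat_lit 0), (nat_lit 0, nat_lit 0, nat_lit 0), (nat_lit 0, nat_lit 0, nat_lit 0), (nat_lit 1000, nat_lit 810, nat_lit 474)], (nat_lit 80, nat_lit 100, nat_lit 60)⟩
noncomputable def p022_k32 : C1.Kn := ⟨[nat_lit 20, nat_lit 40, nat_lit 60, nat_lit 100], [nat_lit 0, nat_lit 0, nat_lit 398, nat_lit 1586], [(nat_lit 0, nat_lit 0, nat_lit 0), (nat_lit 0, nat_lit 0, nat_lit 0), (nat_lit 1000, nat_lit 814, nat_lit 310), (nat_lit 1000, nat_lit 752, nat_lit 464)], (nat_lit 72, nat_lit 100, nat_lit 61)⟩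
noncomputable def p022_k33 : C1.Kn := ⟨[nat_lit 60, nat_lit 100, nat_lit 120], [nat_lit 0, nat_lit 205, nat_lit 1310], [(nat_lit 0, nat_lit 0, nat_lit 0), (nat_lit 1000, nat_lit 968, nat_lit 80), (nat_lit 1000, nat_lit 917, nat_lit 609)], (nat_lit 92, nat_lit 100, nat_lit 61)⟩
noncomputable def p022_k34 : C1.Kn := ⟨[nat_lit 60, nat_lit 100, nat_lit 120], [nat_lit 0, nat_lit 269, nat_lit 1353], [(nat_lit 0, nat_lit 0, nat_lit 0), (nat_lit 1000, nat_lit 958, nat_lit 105), (nat_lit 1000, nat_lit 911, nat_lit 612)], (nat_lit 91, nat_lit 100, nat_lit 61)⟩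
noncomputable def p022_k35 : C1.Kn := ⟨[nat_lit 40, nat_lit 60, nat_lit 100], [nat_lit 0, nat_lit 197, nat_lit 1403], [(nat_lit 0, nat_lit 0, nat_lit 0), (nat_lit 1000, nat_lit 908, nat_lit 154), (nat_lit 1000, nat_lit 781, nat_lit 471)], (nat_lit 76, nat_lit 100, nat_lit 60)⟩
noncomputable def p022_k36 : C1.Kn := ⟨[nat_lit 60, nat_lit 80, nat_lit 140], [nat_lit 0, nat_lit 0, nat_lit 1595], [(nat_lit 0, nat_lit 0, nat_lit 0), (nat_lit 0, nat_lit 0, nat_lit 0), (nat_lit 1000, nat_lit 917, nat_lit 415)], (nat_lit 94, nat_lit 100, nat_lit 62)⟩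
noncomputable def p022_k37 : C1.Kn := ⟨[nat_lit 40, nat_lit 60, nat_lit 100], [nat_lit 0, nat_lit 0, nat_lit 1216], [(nat_lit 0, nat_lit 0, nat_lit 0), (nat_lit 0, nat_lit 0, nat_lit 0), (nat_lit 1000, nat_lit 810, nat_lit 474)], (nat_lit 80, nat_lit 100, nat_lit 60)⟩
noncomputable def p022_k38 : C1.Kn := ⟨[nat_lit 60, nat_lit 80, nat_lit 120], [nat_lit 0, nat_lit 151, nat_lit 1205], [(nat_lit 0, nat_lit 0, nat_lit 0), (nat_lit 1000, nat_lit 953, nat_lit 118), (nat_lit 1000, nat_lit 894, nat_lit 411)], (nat_lit 91, nat_lit 100, nat_lit 61)⟩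
noncomputable def p022_k39 : C1.Kn := ⟨[nat_lit 40, nat_lit 80, nat_lit 100], [nat_lit 0, nat_lit 994, nat_lit 1992], [(nat_lit 0, nat_lit 0, nat_lit 0), (nat_lit 1000, nat_lit 767, nat_lit 387), (nat_lit 1000, nat_lit 689, nat_lit 725)], (nat_lit 70, nat_lit 100, nat_lit 61)⟩
noncomputable def p022_k40 : C1.Kn := ⟨[nat_lit 60, nat_lit 100, nat_lit 140], [nat_lit 0, nat_lit 84, nat_lit 2124], [(nat_lit 0, nat_lit 0, nat_lit 0), (nat_lit 1000, nat_lit 987, nat_lit 33), (nat_lit 1000, nat_lit 984, nat_lit 790)], (nat_lit 93, nat_lit 100, nat_lit 61)⟩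
noncomputable def p022_k41 : C1.Kn := ⟨[nat_lit 30, nat_lit 50, nat_lit 90], [nat_lit 0, nat_lit 0, nat_lit 1365], [(nat_lit 0, nat_lit 0, nat_lit 0), (nat_lit 0, nat_lit 0, nat_lit 0), (nat_lit 1000, nat_lit 734, nat_lit 533)], (nat_lit 72, nat_lit 100, nat_lit 61)⟩
noncomputable def p022_k42 : C1.Kn := ⟨[nat_lit 60, nat_lit 80, nat_lit 140], [nat_lit 0, nat_lit 75, nat_lit 1666], [(nat_lit 0, nat_lit 0, nat_lit 0), (nat_lit 1000, nat_lit 977, nat_lit 59), (nat_lit 1000, nat_lit 905, nat_lit 414)], (nat_lit 92, nat_lit 100, nat_lit 61)⟩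
noncomputable def p022_k43 : C1.Kn := ⟨[nat_lit 40, nat_lit 60, nat_lit 100], [nat_lit 0, nat_lit 398, nat_lit 1586], [(nat_lit 0, nat_lit 0, nat_lit 0), (nat_lit 1000, nat_lit 814, nat_lit 310), (nat_lit 1000, nat_lit 752, nat_lit 464)], (nat_lit 72, nat_lit 100, nat_lit 61)⟩
noncomputable def p022_k44 : C1.Kn := ⟨[nat_lit 60, nat_lit 80, nat_lit 120], [nat_lit 0, nat_lit 304, nat_lit 1346], [(nat_lit 0, nat_lit 0, nat_lit 0), (nat_lit 1000, nat_lit 905, nat_lit 238), (nat_lit 1000, nat_lit 871, nat_lit 407)], (nat_lit 87, nat_lit 100, nat_lit 60)⟩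
noncomputable def p022_k45 : C1.Kn := ⟨[nat_lit 60, nat_lit 80, nat_lit 120], [nat_lit 0, nat_lit 456, nat_lit 1495], [(nat_lit 0, nat_lit 0, nat_lit 0), (nat_lit 1000, nat_lit 859, nat_lit 351), (nat_lit 1000, nat_lit 848, nat_lit 406)], (nat_lit 84, nat_lit 100, nat_lit 60)⟩
noncomputable def p022_k46 : C1.Kn := ⟨[nat_lit 40, nat_lit 60, nat_lit 80], [nat_lit 0, nat_lit 600, nat_lit 1195], [(nat_lit 0, nat_lit 0, nat_lit 0), (nat_lit 1000, nat_lit 725, nat_lit 454), (nat_lit 1000, nat_lit 720, nat_lit 465)], (nat_lit 68, nat_lit 100, nat_lit 61)⟩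
noncomputable def p022_k47 : C1.Kn := ⟨[nat_lit 40, nat_lit 60, nat_lit 100], [nat_lit 0, nat_lit 499, nat_lit 1679], [(nat_lit 0, nat_lit 0, nat_lit 0), (nat_lit 1000, nat_lit 767, nat_lit 387), (nat_lit 1000, nat_lit 738, nat_lit 461)], (nat_lit 70, nat_lit 100, nat_lit 61)⟩
noncomputable def p022_k48 : C1.Kn := ⟨[nat_lit 60, nat_lit 140], [nat_lit 0, nat_lit 0], [(nat_lit 0, nat_lit 0, nat_lit 0), (nat_lit 0, nat_lit 0, nat_lit 0)], (nat_lit 94, nat_lit 100, nat_lit 62)⟩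
noncomputable def p022_k49 : C1.Kn := ⟨[nat_lit 40, nat_lit 80, nat_lit 100], [nat_lit 0, nat_lit 593, nat_lit 1677], [(nat_lit 0, nat_lit 0, nat_lit 0), (nat_lit 1000, nat_lit 861, nat_lit 231), (nat_lit 1000, nat_lit 738, nat_lit 662)], (nat_lit 74, nat_lit 100, nat_lit 60)⟩
noncomputable def p022_k50 : C1.Kn := ⟨[nat_lit 40, nat_lit 50, nat_lit 70], [nat_lit 0, nat_lit 0, nat_lit 339], [(nat_lit 0, nat_lit 0, nat_lit 0), (nat_lit 0, nat_lit 0, nat_lit 0), (nat_lit 1000, nat_lit 868, nat_lit 263)], (nat_lit 85, nat_lit 100, nat_lit 30)⟩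
noncomputable def p022_k51 : C1.Kn := ⟨[nat_lit 40, nat_lit 60, nat_lit 80], [nat_lit 0, nat_lit 0, nat_lit 615], [(nat_lit 0, nat_lit 0, nat_lit 0), (nat_lit 0, nat_lit 0, nat_lit 0), (nat_lit 1000, nat_lit 819, nat_lit 426)], (nat_lit 85, nat_lit 100, nat_lit 30)⟩
noncomputable def p022_k52 : C1.Kn := ⟨[nat_lit 40, nat_lit 80], [nat_lit 0, nat_lit 33], [(nat_lit 0, nat_lit 0, nat_lit 0), (nat_lit 1000, nat_lit 992, nat_lit 13)], (nat_lit 85, nat_lit 100, nat_lit 30)⟩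
noncomputable def p022_k53 : C1.Kn := ⟨[nat_lit 40, nat_lit 50, nat_lit 70], [nat_lit 0, nat_lit 8, nat_lit 352], [(nat_lit 0, nat_lit 0, nat_lit 0), (nat_lit 1000, nat_lit 992, nat_lit 13), (nat_lit 1000, nat_lit 864, nat_lit 269)], (nat_lit 85, nat_lit 100, nat_lit 30)⟩
noncomputable def p022_l0 : Lf2 := ⟨nat_lit 0, nat_lit 7, [nat_lit 80, nat_lit 5, nat_lit 5, nat_lit 20], false, nat_lit 0, nat_lit 0, nat_lit 0, nat_lit 0, ⟨nat_lit 1000, nat_lit 0, nat_lit 0, nat_lit 0, nat_lit 0, nat_lit 0, nat_lit 0, nat_lit 0, nat_lit 0, nat_lit 0, nat_lit 0, nat_lit 0, nat_lit 0, nat_lit 0, nat_lit 0, nat_lit 0, false, false⟩,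
 nat_lit 0, nat_lit 11119, nat_lit 0, nat_lit 0, nat_lit 8339, nat_lit 5484, nat_lit 457, nat_lit 0, nat_lit 0, nat_lit 1140, nat_lit 0, nat_lit 0, nat_lit 0, nat_lit 0, nat_lit 0, nat_lit 0, nat_lit 0, nat_lit 0, [],
 ⟨p022_k0, nat_lit 0, nat_lit 0, nat_lit 641, nat_lit 0, nat_lit 1256760, [nat_lit 2032000001, nat_lit 4688000000, nat_lit 6250000000], [], [nat_lit 24353712892, nat_lit 24440851416, nat_lit 24164376616, nat_lit 24253232275], nat_lit 1271250, nat_lit 1271250, nat_lit 904401, nat_lit 1100001, nat_lit 0, nat_lit 0, [nat_lit 490000, nat_lit 1100000, nat_lit 1442500], [nat_lit 6, nat_lit 40, nat_lit 80, nat_lit 80, nat_lit 3, nat_lit 249, nat_lit 40, nat_lit 9]⟩, ⟨p022_k1, nat_lit 0, nat_lit 0, nat_lit 0, nat_lit 0, nat_lit 0, [nat_lit 3282000000, nat_lit 6250000000], [], [nat_lit 19595671332, nat_lit 19853699185, nat_lit 19796251472, nat_lit 20044861062], nat_lit 0, nat_lit 0,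 nat_lit 0, nat_lit 0, nat_lit 0, nat_lit 0, [], [nat_lit 49, nat_lit 40, nat_lit 80, nat_lit 80]⟩,
 zbF0, [⟨nat_lit 0, nat_lit 84, nat_lit 83, nat_lit 100, nat_lit 727061755⟩]⟩
noncomputable def p022_l1 : Lf2 := ⟨nat_lit 0, nat_lit 7, [nat_lit 80, nat_lit 5, nat_lit 5, nat_lit 20], false, nat_lit 0, nat_lit 0, nat_lit 0, nat_lit 0, ⟨nat_lit 1000, nat_lit 0, nat_lit 0, nat_lit 0, nat_lit 0, nat_lit 0, nat_lit 0, nat_lit 0, nat_lit 0, nat_lit 0, nat_lit 0, nat_lit 0, nat_lit 0, nat_lit 0, nat_lit 0, nat_lit 0, false, false⟩,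
 nat_lit 0, nat_lit 10844, nat_lit 0, nat_lit 0, nat_lit 8196, nat_lit 5494, nat_lit 468, nat_lit 0, nat_lit 0, nat_lit 1142, nat_lit 0, nat_lit 0, nat_lit 0, nat_lit 0, nat_lit 0, nat_lit 0, nat_lit 0, nat_lit 0, [],
 ⟨p022_k2, nat_lit 0, nat_lit 0, nat_lit 637, nat_lit 0, nat_lit 1250417, [nat_lit 2032000001, nat_lit 4688000000, nat_lit 6250000000], [], [nat_lit 24318687238, nat_lit 24361650754, nat_lit 24168391088, nat_lit 24212442169], nat_lit 1271250, nat_lit 1271250, nat_lit 936251, nat_lit 1100001, nat_lit 0, nat_lit 0, [nat_lit 490000, nat_lit 1100000, nat_lit 1442500], [nat_lit 6, nat_lit 40, nat_lit 80, nat_lit 80, nat_lit 3, nat_lit 249, nat_lit 40, nat_lit 9]⟩, ⟨p022_k1, nat_lit 0, nat_lit 0, nat_lit 0, nat_lit 0, nat_lit 0, [nat_lit 3282000000, nat_lit 6250000000], [], [nat_lit 19613149766, nat_lit 19869820567, nat_lit 19779746802, nat_lit 20028619336], nat_lit 0, nat_lit 0,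 nat_lit 0, nat_lit 0, nat_lit 0, nat_lit 0, [], [nat_lit 49, nat_lit 40, nat_lit 80, nat_lit 80]⟩,
 zbF0, [⟨nat_lit 0, nat_lit 84, nat_lit 82, nat_lit 100, nat_lit 730732165⟩]⟩
noncomputable def p022_l2 : Lf2 := ⟨nat_lit 0, nat_lit 7, [nat_lit 80, nat_lit 5, nat_lit 5, nat_lit 20], false, nat_lit 0, nat_lit 0, nat_lit 0, nat_lit 0, ⟨nat_lit 1000, nat_lit 0, nat_lit 0, nat_lit 0, nat_lit 0, nat_lit 0, nat_lit 0, nat_lit 0, nat_lit 0, nat_lit 0, nat_lit 0, nat_lit 0, nat_lit 0, nat_lit 0, nat_lit 0, nat_lit 0, false, false⟩,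
 nat_lit 0, nat_lit 8721, nat_lit 0, nat_lit 0, nat_lit 6540, nat_lit 5484, nat_lit 480, nat_lit 0, nat_lit 0, nat_lit 1045, nat_lit 0, nat_lit 0, nat_lit 0, nat_lit 0, nat_lit 0, nat_lit 0, nat_lit 0, nat_lit 0, [],
 ⟨p022_k0, nat_lit 0, nat_lit 0, nat_lit 646, nat_lit 0, nat_lit 1272224, [nat_lit 2032000001, nat_lit 4688000000, nat_lit 6250000000], [], [nat_lit 33337327000, nat_lit 33451810521, nat_lit 33284027201, nat_lit 33400154313], nat_lit 1271250, nat_lit 1271250, nat_lit 936251, nat_lit 1100001, nat_lit 0, nat_lit 0, [nat_lit 490000, nat_lit 1100000, nat_lit 1442500], [nat_lit 6, nat_lit 40, nat_lit 80, nat_lit 80, nat_lit 3, nat_lit 249, nat_lit 40, nat_lit 9]⟩, ⟨p022_k3, nat_lit 0, nat_lit 0, nat_lit 0, nat_lit 0, nat_lit 0, [nat_lit 3282000000, nat_lit 6250000000], [], [nat_lit 19894107512, nat_lit 19979573106, nat_lit 20053470437, nat_lit 20136340300], nat_lit 0, nat_lit 0,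 nat_lit 0, nat_lit 0, nat_lit 0, nat_lit 0, [], [nat_lit 49, nat_lit 40, nat_lit 80, nat_lit 80]⟩,
 zbF0, [⟨nat_lit 0, nat_lit 83, nat_lit 82, nat_lit 100, nat_lit 702819069⟩]⟩
noncomputable def p022_l3 : Lf2 := ⟨nat_lit 0, nat_lit 7, [nat_lit 80, nat_lit 5, nat_lit 5, nat_lit 20], false, nat_lit 0, nat_lit 0, nat_lit 0, nat_lit 0, ⟨nat_lit 1000, nat_lit 0, nat_lit 0, nat_lit 0, nat_lit 0, nat_lit 0, nat_lit 0, nat_lit 0, nat_lit 0, nat_lit 0, nat_lit 0, nat_lit 0, nat_lit 0, nat_lit 0, nat_lit 0, nat_lit 0, false, false⟩,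
 nat_lit 0, nat_lit 8712, nat_lit 0, nat_lit 0, nat_lit 6534, nat_lit 5473, nat_lit 480, nat_lit 0, nat_lit 0, nat_lit 1014, nat_lit 0, nat_lit 0, nat_lit 0, nat_lit 0, nat_lit 0, nat_lit 0, nat_lit 0, nat_lit 0, [],
 ⟨p022_k0, nat_lit 0, nat_lit 0, nat_lit 646, nat_lit 0, nat_lit 1274124, [nat_lit 2032000001, nat_lit 4688000000, nat_lit 6250000000], [], [nat_lit 33369369949, nat_lit 33445151295, nat_lit 33317302721, nat_lit 33390880681], nat_lit 1271250, nat_lit 1271250, nat_lit 936251, nat_lit 1100001, nat_lit 0, nat_lit 0, [nat_lit 490000, nat_lit 1100000, nat_lit 1442500], [nat_lit 6, nat_lit 40, nat_lit 80, nat_lit 80, nat_lit 3, nat_lit 249, nat_lit 40, nat_lit 9]⟩, ⟨p022_k4, nat_lit 0, nat_lit 0, nat_lit 0, nat_lit 0, nat_lit 0, [nat_lit 3282000000, nat_lit 6250000000], [], [nat_lit 20003262958, nat_lit 20088628078, nat_lit 20160654786, nat_lit 20243428236], nat_lit 0, nat_lit 0,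 nat_lit 0, nat_lit 0, nat_lit 0, nat_lit 0, [], [nat_lit 49, nat_lit 40, nat_lit 80, nat_lit 80]⟩,
 zbF0, [⟨nat_lit 0, nat_lit 83, nat_lit 82, nat_lit 100, nat_lit 705199992⟩]⟩
noncomputable def p022_l4 : Lf2 := ⟨nat_lit 0, nat_lit 7, [nat_lit 80, nat_lit 5, nat_lit 5, nat_lit 20], false, nat_lit 0, nat_lit 0, nat_lit 0, nat_lit 0, ⟨nat_lit 1000, nat_lit 0, nat_lit 0, nat_lit 0, nat_lit 0, nat_lit 0, nat_lit 0, nat_lit 0, nat_lit 0, nat_lit 0, nat_lit 0, nat_lit 0, nat_lit 0, nat_lit 0, nat_lit 0, nat_lit 0, false, false⟩,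
 nat_lit 0, nat_lit 8650, nat_lit 0, nat_lit 0, nat_lit 6538, nat_lit 5484, nat_lit 491, nat_lit 0, nat_lit 0, nat_lit 1016, nat_lit 0, nat_lit 0, nat_lit 0, nat_lit 0, nat_lit 0, nat_lit 0, nat_lit 0, nat_lit 0, [],
 ⟨p022_k2, nat_lit 0, nat_lit 0, nat_lit 642, nat_lit 0, nat_lit 1267534, [nat_lit 2032000001, nat_lit 4688000000, nat_lit 6250000000], [], [nat_lit 32564443267, nat_lit 32602377307, nat_lit 32522081527, nat_lit 32561764442], nat_lit 1271250, nat_lit 1271250, nat_lit 968401, nat_lit 1100001, nat_lit 0, nat_lit 0, [nat_lit 490000, nat_lit 1100000, nat_lit 1442500], [nat_lit 6, nat_lit 40, nat_lit 80, nat_lit 80, nat_lit 3, nat_lit 249, nat_lit 40, nat_lit 9]⟩, ⟨p022_k4, nat_lit 0, nat_lit 0, nat_lit 0, nat_lit 0, nat_lit 0, [nat_lit 3282000000, nat_lit 6250000000], [], [nat_lit 20017354670, nat_lit 20102301117, nat_lit 20142768425, nat_lit 20225638288], nat_lit 0, nat_lit 0,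 nat_lit 0, nat_lit 0, nat_lit 0, nat_lit 0, [], [nat_lit 49, nat_lit 40, nat_lit 80, nat_lit 80]⟩,
 zbF0, [⟨nat_lit 0, nat_lit 83, nat_lit 82, nat_lit 100, nat_lit 700901425⟩]⟩
noncomputable def p022_l5 : Lf2 := ⟨nat_lit 0, nat_lit 8, [nat_lit 50, nat_lit 5, nat_lit 5, nat_lit 20], false, nat_lit 0, nat_lit 0, nat_lit 0, nat_lit 0, ⟨nat_lit 1000, nat_lit 0, nat_lit 0, nat_lit 0, nat_lit 0, nat_lit 0, nat_lit 0, nat_lit 0, nat_lit 0, nat_lit 0, nat_lit 0, nat_lit 0, nat_lit 0, nat_lit 0, nat_lit 0, nat_lit 0, false, false⟩,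
 nat_lit 0, nat_lit 11126, nat_lit 0, nat_lit 0, nat_lit 8344, nat_lit 5524, nat_lit 448, nat_lit 0, nat_lit 0, nat_lit 1108, nat_lit 0, nat_lit 0, nat_lit 0, nat_lit 0, nat_lit 0, nat_lit 0, nat_lit 0, nat_lit 0, [],
 ⟨p022_k5, nat_lit 0, nat_lit 0, nat_lit 633, nat_lit 0, nat_lit 1238149, [nat_lit 2032000001, nat_lit 4688000000, nat_lit 6250000000], [], [nat_lit 24364450032, nat_lit 24450139731, nat_lit 24146151840, nat_lit 24228599804], nat_lit 1271250, nat_lit 1271250, nat_lit 904401, nat_lit 1100001, nat_lit 0, nat_lit 0, [nat_lit 490000, nat_lit 1100000, nat_lit 1442500], [nat_lit 6, nat_lit 40, nat_lit 80, nat_lit 80, nat_lit 3, nat_lit 249, nat_lit 40, nat_lit 9]⟩, ⟨p022_k6, nat_lit 0, nat_lit 0, nat_lit 0, nat_lit 0, nat_lit 0, [nat_lit 3282000000, nat_lit 6250000000], [], [nat_lit 19673997150, nat_lit 20157304286, nat_lit 19863107792, nat_lit 20279210068], nat_lit 0, nat_lit 0,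 nat_lit 0, nat_lit 0, nat_lit 0, nat_lit 0, [], [nat_lit 49, nat_lit 40, nat_lit 80, nat_lit 80]⟩,
 zbF0, [⟨nat_lit 0, nat_lit 83, nat_lit 82, nat_lit 100, nat_lit 774817579⟩]⟩
noncomputable def p022_l6 : Lf2 := ⟨nat_lit 0, nat_lit 8, [nat_lit 50, nat_lit 5, nat_lit 5, nat_lit 20], false, nat_lit 0, nat_lit 0, nat_lit 0, nat_lit 0, ⟨nat_lit 1000, nat_lit 0, nat_lit 0, nat_lit 0, nat_lit 0, nat_lit 0, nat_lit 0, nat_lit 0, nat_lit 0, nat_lit 0, nat_lit 0, nat_lit 0, nat_lit 0, nat_lit 0, nat_lit 0, nat_lit 0, false, false⟩,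
 nat_lit 0, nat_lit 10844, nat_lit 0, nat_lit 0, nat_lit 8196, nat_lit 5524, nat_lit 468, nat_lit 0, nat_lit 0, nat_lit 1114, nat_lit 0, nat_lit 0, nat_lit 0, nat_lit 0, nat_lit 0, nat_lit 0, nat_lit 0, nat_lit 0, [],
 ⟨p022_k7, nat_lit 0, nat_lit 0, nat_lit 630, nat_lit 0, nat_lit 1231917, [nat_lit 2032000001, nat_lit 4688000000, nat_lit 6250000000], [], [nat_lit 24318687238, nat_lit 24361650754, nat_lit 24168391088, nat_lit 24212442169], nat_lit 1271250, nat_lit 1271250, nat_lit 936251, nat_lit 1100001, nat_lit 0, nat_lit 0, [nat_lit 490000, nat_lit 1100000, nat_lit 1442500], [nat_lit 6, nat_lit 40, nat_lit 80, nat_lit 80, nat_lit 3, nat_lit 249, nat_lit 40, nat_lit 9]⟩, ⟨p022_k6, nat_lit 0, nat_lit 0, nat_lit 0, nat_lit 0, nat_lit 0, [nat_lit 3282000000, nat_lit 6250000000], [], [nat_lit 19678238750, nat_lit 20157536738, nat_lit 19843176542, nat_lit 20259278818], nat_lit 0, nat_lit 0,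 nat_lit 0, nat_lit 0, nat_lit 0, nat_lit 0, [], [nat_lit 49, nat_lit 40, nat_lit 80, nat_lit 80]⟩,
 zbF0, [⟨nat_lit 0, nat_lit 83, nat_lit 82, nat_lit 100, nat_lit 758976616⟩]⟩
noncomputable def b_N_800_700_0_33 : St := ⟨false, nat_lit 1, nat_lit 0, nat_lit 2, nat_lit 40, nat_lit 320, nat_lit 323, nat_lit 315, nat_lit 320, nat_lit 136, nat_lit 160, nat_lit 0, nat_lit 0, nat_lit 0, nat_lit 0, nat_lit 0, nat_lit 0, nat_lit 24, nat_lit 32, nat_lit 0, nat_lit 0, nat_lit 0, nat_lit 800⟩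
theorem d_N_800_700_0_33 (h : EB TB.env) : Dead b_N_800_700_0_33 := chkB_sound0 h (T :=
(.spl (nat_lit 6) (nat_lit 28)
(.spl (nat_lit 1) (nat_lit 318)
(.spl (nat_lit 0) (nat_lit 322)
(.leaf p022_l0)
(.trZ (nat_lit 0) (nat_lit 86) (nat_lit 83) (nat_lit 100) (nat_lit 140) (.leaf p022_l1)))
(.trZ (nat_lit 0) (nat_lit 84) (nat_lit 84) (nat_lit 100) (nat_lit 140) (.spl (nat_lit 1) (nat_lit 319)
(.leaf p022_l2)
(.spl (nat_lit 0) (nat_lit 322)
(.leaf p022_l3)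
(.trZ (nat_lit 0) (nat_lit 84) (nat_lit 82) (nat_lit 100) (nat_lit 144) (.leaf p022_l4))))))
(.spl (nat_lit 0) (nat_lit 322)
(.leaf p022_l5)
(.trZ (nat_lit 0) (nat_lit 86) (nat_lit 83) (nat_lit 100) (nat_lit 140) (.leaf p022_l6))))) (by decide +kernel)
noncomputable def p022_l7 : Lf2 := ⟨nat_lit 0, nat_lit 10, [nat_lit 0, nat_lit 5, nat_lit 5, nat_lit 20], false, nat_lit 0, nat_lit 0, nat_lit 0, nat_lit 0, ⟨nat_lit 1000, nat_lit 0, nat_lit 0, nat_lit 0, nat_lit 0, nat_lit 0, nat_lit 0, nat_lit 0, nat_lit 0, nat_lit 0, nat_lit 0, nat_lit 0, nat_lit 0, nat_lit 0, nat_lit 0, nat_lit 0, false, false⟩,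
 nat_lit 0, nat_lit 8700, nat_lit 0, nat_lit 0, nat_lit 6524, nat_lit 5406, nat_lit 418, nat_lit 0, nat_lit 0, nat_lit 1025, nat_lit 0, nat_lit 0, nat_lit 0, nat_lit 0, nat_lit 0, nat_lit 0, nat_lit 0, nat_lit 0, [],
 ⟨p022_k8, nat_lit 0, nat_lit 0, nat_lit 674, nat_lit 0, nat_lit 1401228, [nat_lit 2032000001, nat_lit 4688000000, nat_lit 6250000000], [], [nat_lit 36378985872, nat_lit 36510944124, nat_lit 39795374112, nat_lit 39887658882], nat_lit 1271250, nat_lit 1271250, nat_lit 1271250, nat_lit 1271250, nat_lit 0, nat_lit 0, [nat_lit 490000, nat_lit 1100000, nat_lit 1442500], [nat_lit 6, nat_lit 40, nat_lit 80, nat_lit 80, nat_lit 3, nat_lit 260, nat_lit 0, nat_lit 9]⟩, ⟨p022_k9, nat_lit 0, nat_lit 0, nat_lit 0, nat_lit 0, nat_lit 0, [nat_lit 3282000000, nat_lit 6250000000, nat_lit 9842000000], [], [nat_lit 24891291752, nat_lit 25512782824, nat_lit 35396491128, nat_lit 35857890532], nat_lit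 0, nat_lit 0, nat_lit 0, nat_lit 0, nat_lit 0, nat_lit 0, [], [nat_lit 8, nat_lit 40, nat_lit 80, nat_lit 80]⟩,
 zbF0, []⟩
noncomputable def p022_l8 : Lf2 := ⟨nat_lit 0, nat_lit 10, [nat_lit 0, nat_lit 5, nat_lit 5, nat_lit 20], false, nat_lit 0, nat_lit 0, nat_lit 0, nat_lit 0, ⟨nat_lit 1000, nat_lit 0, nat_lit 0, nat_lit 0, nat_lit 0, nat_lit 0, nat_lit 0, nat_lit 0, nat_lit 0, nat_lit 0, nat_lit 0, nat_lit 0, nat_lit 0, nat_lit 0, nat_lit 0, nat_lit 0, false, false⟩,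
 nat_lit 0, nat_lit 7426, nat_lit 0, nat_lit 0, nat_lit 5678, nat_lit 5398, nat_lit 1315, nat_lit 0, nat_lit 0, nat_lit 1022, nat_lit 0, nat_lit 0, nat_lit 0, nat_lit 0, nat_lit 0, nat_lit 0, nat_lit 0, nat_lit 0, [],
 ⟨p022_k10, nat_lit 0, nat_lit 0, nat_lit 675, nat_lit 0, nat_lit 1402473, [nat_lit 2032000001, nat_lit 4688000000, nat_lit 6250000000], [], [nat_lit 34007964575, nat_lit 34149046396, nat_lit 37374796447, nat_lit 37471793437], nat_lit 1271250, nat_lit 1271250, nat_lit 1271250, nat_lit 1271250, nat_lit 0, nat_lit 0, [nat_lit 490000, nat_lit 1100000, nat_lit 1442500], [nat_lit 6, nat_lit 40, nat_lit 80, nat_lit 80, nat_lit 3, nat_lit 260, nat_lit 0, nat_lit 9]⟩, ⟨p022_k9, nat_lit 0, nat_lit 0, nat_lit 0, nat_lit 0, nat_lit 0, [nat_lit 3282000000, nat_lit 6250000000, nat_lit 9842000000], [], [nat_lit 24906919816, nat_lit 25529144096, nat_lit 35070837230, nat_lit 35539887304],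 nat_lit 0, nat_lit 0, nat_lit 0, nat_lit 0, nat_lit 0, nat_lit 0, [], [nat_lit 8, nat_lit 40, nat_lit 80, nat_lit 80]⟩,
 zbF0, []⟩
noncomputable def p022_l9 : Lf2 := ⟨nat_lit 0, nat_lit 10, [nat_lit 0, nat_lit 5, nat_lit 5, nat_lit 20], false, nat_lit 0, nat_lit 0, nat_lit 0, nat_lit 0, ⟨nat_lit 1000, nat_lit 0, nat_lit 0, nat_lit 0, nat_lit 0, nat_lit 0, nat_lit 0, nat_lit 0, nat_lit 0, nat_lit 0, nat_lit 0, nat_lit 0, nat_lit 0, nat_lit 0, nat_lit 0, nat_lit 0, false, false⟩,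
 nat_lit 0, nat_lit 9689, nat_lit 0, nat_lit 0, nat_lit 7266, nat_lit 5486, nat_lit 400, nat_lit 0, nat_lit 0, nat_lit 2842, nat_lit 0, nat_lit 0, nat_lit 0, nat_lit 0, nat_lit 0, nat_lit 0, nat_lit 0, nat_lit 0, [],
 ⟨p022_k8, nat_lit 0, nat_lit 0, nat_lit 731, nat_lit 0, nat_lit 1519423, [nat_lit 2032000001, nat_lit 4688000000, nat_lit 6250000000], [], [nat_lit 32007020248, nat_lit 32279443334, nat_lit 33393985152, nat_lit 34084173132], nat_lit 1271250, nat_lit 1271250, nat_lit 1271250, nat_lit 1271250, nat_lit 0, nat_lit 0, [nat_lit 490000, nat_lit 1100000, nat_lit 1442500], [nat_lit 6, nat_lit 40, nat_lit 80, nat_lit 80, nat_lit 3, nat_lit 264, nat_lit 0, nat_lit 9]⟩, ⟨p022_k11, nat_lit 0, nat_lit 0, nat_lit 0, nat_lit 0, nat_lit 0, [nat_lit 3282000000, nat_lit 6250000000, nat_lit 7968000000], [], [nat_lit 21963512234, nat_lit 22665988072, nat_lit 27111972212, nat_lit 27891676240],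 nat_lit 0, nat_lit 0, nat_lit 0, nat_lit 0, nat_lit 0, nat_lit 0, [], [nat_lit 18, nat_lit 40, nat_lit 80, nat_lit 80]⟩,
 zbF0, []⟩
noncomputable def p022_l10 : Lf2 := ⟨nat_lit 0, nat_lit 10, [nat_lit 0, nat_lit 5, nat_lit 5, nat_lit 20], false, nat_lit 0, nat_lit 0, nat_lit 0, nat_lit 0, ⟨nat_lit 1000, nat_lit 0, nat_lit 0, nat_lit 0, nat_lit 0, nat_lit 0, nat_lit 0, nat_lit 0, nat_lit 0, nat_lit 0, nat_lit 0, nat_lit 0, nat_lit 0, nat_lit 0, nat_lit 0, nat_lit 0, false, false⟩,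
 nat_lit 0, nat_lit 8659, nat_lit 0, nat_lit 0, nat_lit 6494, nat_lit 4714, nat_lit 374, nat_lit 0, nat_lit 0, nat_lit 2486, nat_lit 0, nat_lit 0, nat_lit 0, nat_lit 0, nat_lit 0, nat_lit 0, nat_lit 0, nat_lit 0, [],
 ⟨p022_k8, nat_lit 0, nat_lit 0, nat_lit 723, nat_lit 0, nat_lit 1519423, [nat_lit 2032000001, nat_lit 4688000000, nat_lit 6250000000], [], [nat_lit 38055390528, nat_lit 38257913124, nat_lit 39970571472, nat_lit 40155115962], nat_lit 1271250, nat_lit 1271250, nat_lit 1271250, nat_lit 1271250, nat_lit 0, nat_lit 0, [nat_lit 490000, nat_lit 1100000, nat_lit 1442500], [nat_lit 6, nat_lit 40, nat_lit 80, nat_lit 80, nat_lit 3, nat_lit 272, nat_lit 0, nat_lit 9]⟩, ⟨p022_k11, nat_lit 0, nat_lit 0, nat_lit 0, nat_lit 0, nat_lit 0, [nat_lit 3282000000, nat_lit 6250000000, nat_lit 7968000000], [], [nat_lit 28363953560, nat_lit 28839761692, nat_lit 33040012050, nat_lit 33409682464],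 nat_lit 0, nat_lit 0, nat_lit 0, nat_lit 0, nat_lit 0, nat_lit 0, [], [nat_lit 18, nat_lit 40, nat_lit 80, nat_lit 80]⟩,
 zbF0, []⟩
noncomputable def p022_l11 : Lf2 := ⟨nat_lit 0, nat_lit 2, [nat_lit 10, nat_lit 5, nat_lit 5, nat_lit 20], false, nat_lit 0, nat_lit 0, nat_lit 0, nat_lit 0, ⟨nat_lit 1000, nat_lit 0, nat_lit 0, nat_lit 0, nat_lit 0, nat_lit 0, nat_lit 0, nat_lit 0, nat_lit 0, nat_lit 0, nat_lit 0, nat_lit 0, nat_lit 0, nat_lit 0, nat_lit 0, nat_lit 0, false, false⟩,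
 nat_lit 0, nat_lit 8784, nat_lit 0, nat_lit 0, nat_lit 6587, nat_lit 4858, nat_lit 0, nat_lit 0, nat_lit 0, nat_lit 2073, nat_lit 0, nat_lit 0, nat_lit 0, nat_lit 0, nat_lit 0, nat_lit 0, nat_lit 0, nat_lit 0, [],
 ⟨p022_k12, nat_lit 0, nat_lit 0, nat_lit 674, nat_lit 0, nat_lit 1573157, [nat_lit 2032000001, nat_lit 4688000000], [], [nat_lit 36018446746, nat_lit 36139850170, nat_lit 37410221264, nat_lit 37527882624], nat_lit 1271250, nat_lit 1271250, nat_lit 1271250, nat_lit 1271250, nat_lit 0, nat_lit 0, [nat_lit 490000, nat_lit 1100000], [nat_lit 24, nat_lit 40, nat_lit 80, nat_lit 80, nat_lit 33, nat_lit 250, nat_lit 0, nat_lit 10]⟩, ⟨p022_k13, nat_lit 0, nat_lit 0, nat_lit 0, nat_lit 0, nat_lit 0, [nat_lit 3282000000, nat_lit 4688000000], [], [nat_lit 21308425056, nat_lit 22726708080, nat_lit 26716788720, nat_lit 28178859288], nat_lit 0, nat_lit 0, nat_lit 0, nat_lit 0, nat_lit 0,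 nat_lit 0, [], [nat_lit 40, nat_lit 40, nat_lit 80, nat_lit 80]⟩,
 zbF0, []⟩
noncomputable def p022_l12 : Lf2 := ⟨nat_lit 0, nat_lit 1, [nat_lit 19, nat_lit 5, nat_lit 5, nat_lit 20], false, nat_lit 0, nat_lit 0, nat_lit 0, nat_lit 0, ⟨nat_lit 1000, nat_lit 0, nat_lit 0, nat_lit 0, nat_lit 0, nat_lit 0, nat_lit 0, nat_lit 0, nat_lit 0, nat_lit 0, nat_lit 0, nat_lit 0, nat_lit 0, nat_lit 0, nat_lit 0, nat_lit 0, false, false⟩,
 nat_lit 0, nat_lit 7573, nat_lit 0, nat_lit 0, nat_lit 5679, nat_lit 4319, nat_lit 0, nat_lit 0, nat_lit 0, nat_lit 1655, nat_lit 0, nat_lit 0, nat_lit 0, nat_lit 0, nat_lit 0, nat_lit 0, nat_lit 0, nat_lit 0, [],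
 ⟨p022_k14, nat_lit 0, nat_lit 0, nat_lit 616, nat_lit 0, nat_lit 1562382, [nat_lit 2032000001, nat_lit 3282000000], [], [nat_lit 35156193229, nat_lit 35288572869, nat_lit 37390403529, nat_lit 37498141365], nat_lit 1271250, nat_lit 1271250, nat_lit 1271250, nat_lit 1271250, nat_lit 0, nat_lit 0, [nat_lit 490000, nat_lit 780000], [nat_lit 112, nat_lit 40, nat_lit 80, nat_lit 80, nat_lit 113, nat_lit 245, nat_lit 0, nat_lit 12]⟩, ⟨p022_k15, nat_lit 0, nat_lit 0, nat_lit 0, nat_lit 0, nat_lit 0, [nat_lit 3282000000, nat_lit 4688000000], [], [nat_lit 27884975618, nat_lit 28866894180, nat_lit 32550559334, nat_lit 33360014604], nat_lit 0, nat_lit 0, nat_lit 0, nat_lit 0, nat_lit 0, nat_lit 0, [], [nat_lit 40, nat_lit 40, nat_lit 80, nat_lit 80]⟩,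
 zbF0, []⟩
noncomputable def p022_l13 : Lf2 := ⟨nat_lit 0, nat_lit 2, [nat_lit 10, nat_lit 5, nat_lit 5, nat_lit 20], false, nat_lit 0, nat_lit 0, nat_lit 0, nat_lit 0, ⟨nat_lit 1000, nat_lit 0, nat_lit 0, nat_lit 0, nat_lit 0, nat_lit 0, nat_lit 0, nat_lit 0, nat_lit 0, nat_lit 0, nat_lit 0, nat_lit 0, nat_lit 0, nat_lit 0, nat_lit 0, nat_lit 0, false, false⟩,
 nat_lit 0, nat_lit 8386, nat_lit 0, nat_lit 0, nat_lit 6289, nat_lit 4319, nat_lit 0, nat_lit 0, nat_lit 0, nat_lit 1611, nat_lit 0, nat_lit 0, nat_lit 0, nat_lit 0, nat_lit 0, nat_lit 0, nat_lit 0, nat_lit 0, [],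
 ⟨p022_k12, nat_lit 0, nat_lit 0, nat_lit 655, nat_lit 0, nat_lit 1505702, [nat_lit 2032000001, nat_lit 4688000000], [], [nat_lit 39240251134, nat_lit 39340171781, nat_lit 41167753432, nat_lit 41259940090], nat_lit 1271250, nat_lit 1271250, nat_lit 1271250, nat_lit 1271250, nat_lit 0, nat_lit 0, [nat_lit 490000, nat_lit 1100000], [nat_lit 24, nat_lit 40, nat_lit 80, nat_lit 80, nat_lit 33, nat_lit 255, nat_lit 0, nat_lit 10]⟩, ⟨p022_k13, nat_lit 0, nat_lit 0, nat_lit 0, nat_lit 0, nat_lit 0, [nat_lit 3282000000, nat_lit 4688000000], [], [nat_lit 27926775618, nat_lit 28908694180, nat_lit 32592359334, nat_lit 33360014604], nat_lit 0, nat_lit 0, nat_lit 0, nat_lit 0, nat_lit 0, nat_lit 0, [], [nat_lit 40, nat_lit 40, nat_lit 80, nat_lit 80]⟩,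
 zbF0, []⟩
noncomputable def p022_l14 : Lf2 := ⟨nat_lit 0, nat_lit 5, [nat_lit 4, nat_lit 5, nat_lit 5, nat_lit 20], false, nat_lit 0, nat_lit 0, nat_lit 0, nat_lit 0, ⟨nat_lit 1000, nat_lit 0, nat_lit 0, nat_lit 0, nat_lit 0, nat_lit 0, nat_lit 0, nat_lit 0, nat_lit 0, nat_lit 0, nat_lit 0, nat_lit 0, nat_lit 0, nat_lit 0, nat_lit 0, nat_lit 0, false, false⟩,
 nat_lit 0, nat_lit 8669, nat_lit 0, nat_lit 0, nat_lit 6501, nat_lit 4858, nat_lit 419, nat_lit 0, nat_lit 0, nat_lit 2390, nat_lit 0, nat_lit 0, nat_lit 0, nat_lit 0, nat_lit 0, nat_lit 0, nat_lit 0, nat_lit 0, [],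
 ⟨p022_k16, nat_lit 0, nat_lit 0, nat_lit 715, nat_lit 0, nat_lit 1479623, [nat_lit 2032000001, nat_lit 4688000000, nat_lit 6250000000], [], [nat_lit 36515807121, nat_lit 36646768953, nat_lit 37918905072, nat_lit 38036263841], nat_lit 1271250, nat_lit 1271250, nat_lit 1271250, nat_lit 1271250, nat_lit 0, nat_lit 0, [nat_lit 490000, nat_lit 1100000, nat_lit 1442500], [nat_lit 6, nat_lit 40, nat_lit 80, nat_lit 80, nat_lit 3, nat_lit 260, nat_lit 0, nat_lit 9]⟩, ⟨p022_k17, nat_lit 0, nat_lit 0, nat_lit 0, nat_lit 0, nat_lit 0, [nat_lit 3282000000, nat_lit 6250000000], [], [nat_lit 21408752766, nat_lit 22726622194, nat_lit 26716788720, nat_lit 28178859288], nat_lit 0, nat_lit 0, nat_lit 0, nat_lit 0, nat_lit 0, nat_lit 0, [], [nat_lit 49, nat_lit 40, nat_lit 80, nat_lit 80]⟩,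
 zbF0, []⟩
noncomputable def p022_l15 : Lf2 := ⟨nat_lit 0, nat_lit 5, [nat_lit 4, nat_lit 5, nat_lit 5, nat_lit 20], false, nat_lit 0, nat_lit 0, nat_lit 0, nat_lit 0, ⟨nat_lit 1000, nat_lit 0, nat_lit 0, nat_lit 0, nat_lit 0, nat_lit 0, nat_lit 0, nat_lit 0, nat_lit 0, nat_lit 0, nat_lit 0, nat_lit 0, nat_lit 0, nat_lit 0, nat_lit 0, nat_lit 0, false, false⟩,
 nat_lit 0, nat_lit 8700, nat_lit 0, nat_lit 0, nat_lit 6524, nat_lit 4349, nat_lit 388, nat_lit 0, nat_lit 0, nat_lit 1951, nat_lit 0, nat_lit 0, nat_lit 0, nat_lit 0, nat_lit 0, nat_lit 0, nat_lit 0, nat_lit 0, [],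
 ⟨p022_k16, nat_lit 0, nat_lit 0, nat_lit 668, nat_lit 0, nat_lit 1392652, [nat_lit 2032000001, nat_lit 4688000000, nat_lit 6250000000], [], [nat_lit 37789742464, nat_lit 37900301422, nat_lit 39795374112, nat_lit 39887658882], nat_lit 1271250, nat_lit 1271250, nat_lit 1271250, nat_lit 1271250, nat_lit 0, nat_lit 0, [nat_lit 490000, nat_lit 1100000, nat_lit 1442500], [nat_lit 6, nat_lit 40, nat_lit 80, nat_lit 80, nat_lit 3, nat_lit 258, nat_lit 0, nat_lit 9]⟩, ⟨p022_k17, nat_lit 0, nat_lit 0, nat_lit 0, nat_lit 0, nat_lit 0, [nat_lit 3282000000, nat_lit 6250000000], [], [nat_lit 28023227597, nat_lit 28483691859, nat_lit 32526399778, nat_lit 32932084931], nat_lit 0, nat_lit 0, nat_lit 0, nat_lit 0, nat_lit 0, nat_lit 0, [], [nat_lit 49, nat_lit 40, nat_lit 80, nat_lit 80]⟩,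
 zbF0, []⟩
noncomputable def p022_l16 : Lf2 := ⟨nat_lit 0, nat_lit 5, [nat_lit 4, nat_lit 5, nat_lit 5, nat_lit 20], false, nat_lit 0, nat_lit 0, nat_lit 0, nat_lit 0, ⟨nat_lit 1000, nat_lit 0, nat_lit 0, nat_lit 0, nat_lit 0, nat_lit 0, nat_lit 0, nat_lit 0, nat_lit 0, nat_lit 0, nat_lit 0, nat_lit 0, nat_lit 0, nat_lit 0, nat_lit 0, nat_lit 0, false, false⟩,
 nat_lit 0, nat_lit 8343, nat_lit 0, nat_lit 0, nat_lit 6256, nat_lit 4319, nat_lit 394, nat_lit 0, nat_lit 0, nat_lit 1318, nat_lit 0, nat_lit 0, nat_lit 0, nat_lit 0, nat_lit 0, nat_lit 0, nat_lit 0, nat_lit 0, [],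
 ⟨p022_k16, nat_lit 0, nat_lit 0, nat_lit 708, nat_lit 0, nat_lit 1479623, [nat_lit 2032000001, nat_lit 4688000000, nat_lit 6250000000], [], [nat_lit 39377029153, nat_lit 39485439972, nat_lit 41360470528, nat_lit 41452643408], nat_lit 1271250, nat_lit 1271250, nat_lit 1271250, nat_lit 1271250, nat_lit 0, nat_lit 0, [nat_lit 490000, nat_lit 1100000, nat_lit 1442500], [nat_lit 6, nat_lit 40, nat_lit 80, nat_lit 80, nat_lit 3, nat_lit 268, nat_lit 0, nat_lit 9]⟩, ⟨p022_k18, nat_lit 0, nat_lit 0, nat_lit 0, nat_lit 0, nat_lit 0, [nat_lit 3282000000, nat_lit 6250000000], [], [nat_lit 28496714004, nat_lit 28955917126, nat_lit 32955283361, nat_lit 33360014604], nat_lit 0, nat_lit 0, nat_lit 0, nat_lit 0, nat_lit 0, nat_lit 0, [], [nat_lit 49, nat_lit 40, nat_lit 80, nat_lit 80]⟩,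
 zbF0, []⟩
noncomputable def p022_l17 : Lf2 := ⟨nat_lit 0, nat_lit 5, [nat_lit 4, nat_lit 5, nat_lit 5, nat_lit 20], false, nat_lit 0, nat_lit 0, nat_lit 0, nat_lit 0, ⟨nat_lit 1000, nat_lit 0, nat_lit 0, nat_lit 0, nat_lit 0, nat_lit 0, nat_lit 0, nat_lit 0, nat_lit 0, nat_lit 0, nat_lit 0, nat_lit 0, nat_lit 0, nat_lit 0, nat_lit 0, nat_lit 0, false, false⟩,
 nat_lit 0, nat_lit 7289, nat_lit 0, nat_lit 0, nat_lit 5573, nat_lit 4616, nat_lit 562, nat_lit 0, nat_lit 0, nat_lit 2219, nat_lit 0, nat_lit 0, nat_lit 0, nat_lit 0, nat_lit 0, nat_lit 0, nat_lit 0, nat_lit 0, [],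
 ⟨p022_k19, nat_lit 0, nat_lit 0, nat_lit 687, nat_lit 0, nat_lit 1597321, [nat_lit 2032000001, nat_lit 4688000000], [], [nat_lit 33844502900, nat_lit 33988204579, nat_lit 37431960492, nat_lit 37531547907], nat_lit 1271250, nat_lit 1271250, nat_lit 1271250, nat_lit 1271250, nat_lit 0, nat_lit 0, [nat_lit 490000, nat_lit 1100000], [nat_lit 24, nat_lit 40, nat_lit 80, nat_lit 80, nat_lit 33, nat_lit 263, nat_lit 0, nat_lit 11]⟩, ⟨p022_k17, nat_lit 0, nat_lit 0, nat_lit 0, nat_lit 0, nat_lit 0, [nat_lit 3282000000, nat_lit 6250000000], [], [nat_lit 23500627554, nat_lit 24510576434, nat_lit 33142790576, nat_lit 34188369696], nat_lit 0, nat_lit 0, nat_lit 0, nat_lit 0, nat_lit 0, nat_lit 0, [], [nat_lit 49, nat_lit 40, nat_lit 80, nat_lit 80]⟩,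
 zbF0, []⟩
noncomputable def p022_l18 : Lf2 := ⟨nat_lit 0, nat_lit 10, [nat_lit 0, nat_lit 5, nat_lit 5, nat_lit 20], false, nat_lit 0, nat_lit 0, nat_lit 0, nat_lit 0, ⟨nat_lit 1000, nat_lit 0, nat_lit 0, nat_lit 0, nat_lit 0, nat_lit 0, nat_lit 0, nat_lit 0, nat_lit 0, nat_lit 0, nat_lit 0, nat_lit 0, nat_lit 0, nat_lit 0, nat_lit 0, nat_lit 0, false, false⟩,
 nat_lit 0, nat_lit 8479, nat_lit 0, nat_lit 0, nat_lit 6359, nat_lit 5137, nat_lit 446, nat_lit 0, nat_lit 0, nat_lit 768, nat_lit 0, nat_lit 0, nat_lit 0, nat_lit 0, nat_lit 0, nat_lit 0, nat_lit 0, nat_lit 0, [],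
 ⟨p022_k8, nat_lit 0, nat_lit 0, nat_lit 627, nat_lit 0, nat_lit 1278379, [nat_lit 2032000001, nat_lit 4688000000, nat_lit 6250000000], [], [nat_lit 35151363188, nat_lit 35309903062, nat_lit 39303449564, nat_lit 39415405131], nat_lit 1271250, nat_lit 1271250, nat_lit 1271250, nat_lit 1271250, nat_lit 0, nat_lit 0, [nat_lit 490000, nat_lit 1100000, nat_lit 1442500], [nat_lit 6, nat_lit 40, nat_lit 80, nat_lit 80, nat_lit 3, nat_lit 248, nat_lit 0, nat_lit 9]⟩, ⟨p022_k20, nat_lit 0, nat_lit 0, nat_lit 0, nat_lit 0, nat_lit 0, [nat_lit 3282000000, nat_lit 6250000000, nat_lit 7968000000], [], [nat_lit 25166311492, nat_lit 25771874536, nat_lit 34683914102, nat_lit 35100409867], nat_lit 0, nat_lit 0, nat_lit 0, nat_lit 0, nat_lit 0, nat_lit 0, [], [nat_lit 18, nat_lit 40, nat_lit 80, nat_lit 80]⟩,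
 zbF0, []⟩
noncomputable def p022_l19 : Lf2 := ⟨nat_lit 0, nat_lit 10, [nat_lit 0, nat_lit 5, nat_lit 5, nat_lit 20], false, nat_lit 0, nat_lit 0, nat_lit 0, nat_lit 0, ⟨nat_lit 1000, nat_lit 0, nat_lit 0, nat_lit 0, nat_lit 0, nat_lit 0, nat_lit 0, nat_lit 0, nat_lit 0, nat_lit 0, nat_lit 0, nat_lit 0, nat_lit 0, nat_lit 0, nat_lit 0, nat_lit 0, false, false⟩,
 nat_lit 0, nat_lit 8479, nat_lit 0, nat_lit 0, nat_lit 6359, nat_lit 4519, nat_lit 432, nat_lit 0, nat_lit 0, nat_lit 1491, nat_lit 0, nat_lit 0, nat_lit 0, nat_lit 0, nat_lit 0, nat_lit 0, nat_lit 0, nat_lit 0, [],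
 ⟨p022_k8, nat_lit 0, nat_lit 0, nat_lit 660, nat_lit 0, nat_lit 1364784, [nat_lit 2032000001, nat_lit 4688000000, nat_lit 6250000000], [], [nat_lit 35233737882, nat_lit 35375777359, nat_lit 39303449564, nat_lit 39415405131], nat_lit 1271250, nat_lit 1271250, nat_lit 1271250, nat_lit 1271250, nat_lit 0, nat_lit 0, [nat_lit 490000, nat_lit 1100000, nat_lit 1442500], [nat_lit 6, nat_lit 40, nat_lit 80, nat_lit 80, nat_lit 3, nat_lit 256, nat_lit 0, nat_lit 9]⟩, ⟨p022_k21, nat_lit 0, nat_lit 0, nat_lit 0, nat_lit 0, nat_lit 0, [nat_lit 3282000000, nat_lit 6250000000, nat_lit 7968000000], [], [nat_lit 24163193971, nat_lit 24664561585, nat_lit 33398590449, nat_lit 33916987364], nat_lit 0, nat_lit 0, nat_lit 0, nat_lit 0, nat_lit 0, nat_lit 0, [], [nat_lit 18, nat_lit 40, nat_lit 80, nat_lit 80]⟩,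
 zbF0, []⟩
noncomputable def p022_l20 : Lf2 := ⟨nat_lit 0, nat_lit 10, [nat_lit 0, nat_lit 5, nat_lit 5, nat_lit 20], false, nat_lit 0, nat_lit 0, nat_lit 0, nat_lit 0, ⟨nat_lit 1000, nat_lit 0, nat_lit 0, nat_lit 0, nat_lit 0, nat_lit 0, nat_lit 0, nat_lit 0, nat_lit 0, nat_lit 0, nat_lit 0, nat_lit 0, nat_lit 0, nat_lit 0, nat_lit 0, nat_lit 0, false, false⟩,
 nat_lit 0, nat_lit 7499, nat_lit 0, nat_lit 0, nat_lit 5734, nat_lit 5720, nat_lit 1137, nat_lit 0, nat_lit 0, nat_lit 908, nat_lit 0, nat_lit 0, nat_lit 0, nat_lit 0, nat_lit 0, nat_lit 0, nat_lit 0, nat_lit 0, [],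
 ⟨p022_k10, nat_lit 0, nat_lit 0, nat_lit 660, nat_lit 0, nat_lit 1363784, [nat_lit 2032000001, nat_lit 4688000000, nat_lit 6250000000], [], [nat_lit 34413875171, nat_lit 34555361284, nat_lit 37885097119, nat_lit 37980998188], nat_lit 1271250, nat_lit 1271250, nat_lit 1271250, nat_lit 1271250, nat_lit 0, nat_lit 0, [nat_lit 490000, nat_lit 1100000, nat_lit 1442500], [nat_lit 6, nat_lit 40, nat_lit 80, nat_lit 80, nat_lit 3, nat_lit 257, nat_lit 0, nat_lit 9]⟩, ⟨p022_k20, nat_lit 0, nat_lit 0, nat_lit 0, nat_lit 0, nat_lit 0, [nat_lit 3282000000, nat_lit 6250000000, nat_lit 7968000000], [], [nat_lit 26452861720, nat_lit 27479062280, nat_lit 36131523920, nat_lit 37277092320], nat_lit 0, nat_lit 0, nat_lit 0, nat_lit 0, nat_lit 0, nat_lit 0, [], [nat_lit 18, nat_lit 40, nat_lit 80, nat_lit 80]⟩,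
 zbF0, []⟩
noncomputable def p022_l21 : Lf2 := ⟨nat_lit 0, nat_lit 10, [nat_lit 0, nat_lit 5, nat_lit 5, nat_lit 20], false, nat_lit 0, nat_lit 0, nat_lit 0, nat_lit 0, ⟨nat_lit 1000, nat_lit 0, nat_lit 0, nat_lit 0, nat_lit 0, nat_lit 0, nat_lit 0, nat_lit 0, nat_lit 0, nat_lit 0, nat_lit 0, nat_lit 0, nat_lit 0, nat_lit 0, nat_lit 0, nat_lit 0, false, false⟩,
 nat_lit 0, nat_lit 6722, nat_lit 0, nat_lit 0, nat_lit 5239, nat_lit 6346, nat_lit 1189, nat_lit 0, nat_lit 0, nat_lit 1013, nat_lit 0, nat_lit 0, nat_lit 0, nat_lit 0, nat_lit 0, nat_lit 0, nat_lit 0, nat_lit 0, [],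
 ⟨p022_k22, nat_lit 0, nat_lit 0, nat_lit 803, nat_lit 0, nat_lit 1677100, [nat_lit 2032000001, nat_lit 4688000000, nat_lit 6250000000], [], [nat_lit 32752574312, nat_lit 33014551258, nat_lit 36564677710, nat_lit 37197983736], nat_lit 1271250, nat_lit 1271250, nat_lit 1271250, nat_lit 1271250, nat_lit 0, nat_lit 0, [nat_lit 490000, nat_lit 1100000, nat_lit 1442500], [nat_lit 6, nat_lit 40, nat_lit 80, nat_lit 80, nat_lit 3, nat_lit 294, nat_lit 0, nat_lit 10]⟩, ⟨p022_k9, nat_lit 0, nat_lit 0, nat_lit 0, nat_lit 0, nat_lit 0, [nat_lit 3282000000, nat_lit 6250000000, nat_lit 9842000000], [], [nat_lit 27960841881, nat_lit 30139415288, nat_lit 37453452144, nat_lit 39030438744], nat_lit 0, nat_lit 0, nat_lit 0, nat_lit 0, nat_lit 0, nat_lit 0, [], [nat_lit 8, nat_lit 40, nat_lit 80, nat_lit 80]⟩,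
 zbF0, []⟩
noncomputable def p022_l22 : Lf2 := ⟨nat_lit 0, nat_lit 10, [nat_lit 0, nat_lit 5, nat_lit 5, nat_lit 20], false, nat_lit 0, nat_lit 0, nat_lit 0, nat_lit 0, ⟨nat_lit 1000, nat_lit 0, nat_lit 0, nat_lit 0, nat_lit 0, nat_lit 0, nat_lit 0, nat_lit 0, nat_lit 0, nat_lit 0, nat_lit 0, nat_lit 0, nat_lit 0, nat_lit 0, nat_lit 0, nat_lit 0, false, false⟩,
 nat_lit 0, nat_lit 6037, nat_lit 0, nat_lit 0, nat_lit 4887, nat_lit 6448, nat_lit 908, nat_lit 0, nat_lit 0, nat_lit 1015, nat_lit 0, nat_lit 0, nat_lit 0, nat_lit 0, nat_lit 0, nat_lit 0, nat_lit 0, nat_lit 0, [],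
 ⟨p022_k23, nat_lit 0, nat_lit 0, nat_lit 824, nat_lit 0, nat_lit 1731111, [nat_lit 2032000001, nat_lit 4688000000, nat_lit 6250000000], [], [nat_lit 33245788567, nat_lit 33846170679, nat_lit 36968479529, nat_lit 37399192163], nat_lit 1271250, nat_lit 1271250, nat_lit 1271250, nat_lit 1271250, nat_lit 0, nat_lit 0, [nat_lit 490000, nat_lit 1100000, nat_lit 1442500], [nat_lit 6, nat_lit 40, nat_lit 80, nat_lit 80, nat_lit 3, nat_lit 301, nat_lit 0, nat_lit 11]⟩, ⟨p022_k9, nat_lit 0, nat_lit 0, nat_lit 0, nat_lit 0, nat_lit 0, [nat_lit 3282000000, nat_lit 6250000000, nat_lit 9842000000], [], [nat_lit 27847918403, nat_lit 30043326819, nat_lit 37418676672, nat_lit 39313858688], nat_lit 0, nat_lit 0, nat_lit 0, nat_lit 0, nat_lit 0, nat_lit 0, [], [nat_lit 8, nat_lit 40, nat_lit 80, nat_lit 80]⟩,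
 zbF0, []⟩
noncomputable def b_N_800_700_0_34 : St := ⟨false, nat_lit 1, nat_lit 0, nat_lit 2, nat_lit 40, nat_lit 320, nat_lit 360, nat_lit 280, nat_lit 320, nat_lit 240, nat_lit 400, nat_lit 0, nat_lit 0, nat_lit 0, nat_lit 0, nat_lit 0, nat_lit 0, nat_lit 0, nat_lit 40, nat_lit 0, nat_lit 0, nat_lit 0, nat_lit 800⟩
theorem d_N_800_700_0_34 (h : EB TB.env) : Dead b_N_800_700_0_34 := chkB_sound0 h (T :=
(.spl (nat_lit 0) (nat_lit 340)
(.spl (nat_lit 0) (nat_lit 330)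
(.spl (nat_lit 1) (nat_lit 300)
(.spl (nat_lit 1) (nat_lit 290)
(.spl (nat_lit 0) (nat_lit 325)
(.leaf p022_l7)
(.trX (nat_lit 13) (nat_lit 87) (nat_lit 23) (nat_lit 100) (nat_lit 396) (.leaf p022_l8)))
(.spl (nat_lit 2) (nat_lit 320)
(.leaf p022_l9)
(.leaf p022_l10)))
(.spl (nat_lit 6) (nat_lit 20)
(.spl (nat_lit 0) (nat_lit 325)
(.spl (nat_lit 6) (nat_lit 8)
(.spl (nat_lit 2) (nat_lit 320)
(.leaf p022_l11)
(.spl (nat_lit 6) (nat_lit 4)
(.leaf p022_l12)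
(.leaf p022_l13)))
(.spl (nat_lit 2) (nat_lit 320)
(.leaf p022_l14)
(.spl (nat_lit 1) (nat_lit 310)
(.leaf p022_l15)
(.leaf p022_l16))))
(.leaf p022_l17))
(.spl (nat_lit 0) (nat_lit 325)
(.spl (nat_lit 1) (nat_lit 310)
(.leaf p022_l18)
(.leaf p022_l19))
(.leaf p022_l20))))
(.leaf p022_l21))
(.leaf p022_l22))) (by decide +kernel)
noncomputable def p022_l23 : Lf2 := ⟨nat_lit 0, nat_lit 10, [nat_lit 0, nat_lit 5, nat_lit 5, nat_lit 20], false, nat_lit 0, nat_lit 0, nat_lit 0, nat_lit 0, ⟨nat_lit 76, nat_lit 924, nat_lit 0, nat_lit 7, nat_lit 292, nat_lit 0, nat_lit 0, nat_lit 0, nat_lit 0, nat_lit 0, nat_lit 0, nat_lit 0, nat_lit 43708207, nat_lit 23291793, nat_lit 0, nat_lit 3229862, true, false⟩,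
 nat_lit 0, nat_lit 0, nat_lit 1003, nat_lit 0, nat_lit 3169, nat_lit 638, nat_lit 0, nat_lit 0, nat_lit 0, nat_lit 43, nat_lit 0, nat_lit 0, nat_lit 0, nat_lit 0, nat_lit 0, nat_lit 231000, nat_lit 0, nat_lit 0, [(nat_lit 18, [(nat_lit 0, nat_lit 924)])],
 ⟨p022_k8, nat_lit 0, nat_lit 0, nat_lit 147, nat_lit 0, nat_lit 0, [nat_lit 1570739200, nat_lit 2359520000, nat_lit 2842288000], [], [nat_lit 23314903024, nat_lit 24530214260, nat_lit 26882826260, nat_lit 27904203314], nat_lit 0, nat_lit 0, nat_lit 0, nat_lit 0, nat_lit 0, nat_lit 0, [], [nat_lit 6, nat_lit 40, nat_lit 80, nat_lit 80, nat_lit 3, nat_lit 203, nat_lit 0, nat_lit 7]⟩, ⟨p022_k9, nat_lit 0, nat_lit 0, nat_lit 894, nat_lit 0, nat_lit 1569898, [nat_lit 249432000, nat_lit 475000000, nat_lit 747992000], [], [nat_lit 2644959654, nat_lit 2658761262, nat_lit 2687142943, nat_lit 2712066986], nat_lit 1271250, nat_lit 1271250, nat_lit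 1271250, nat_lit 1271250, nat_lit 0, nat_lit 0, [nat_lit 780000, nat_lit 1435000, nat_lit 1271250], [nat_lit 8, nat_lit 40, nat_lit 80, nat_lit 80, nat_lit 1, nat_lit 317, nat_lit 100, nat_lit 9]⟩,
 ⟨nat_lit 3872, nat_lit 4473, ⟨.ofNat (nat_lit 654181), .ofNat (nat_lit 790153), .ofNat (nat_lit 675730), .ofNat (nat_lit 811702), .ofNat (nat_lit 651631), .ofNat (nat_lit 780691), .ofNat (nat_lit 673407), .ofNat (nat_lit 802466)⟩, ⟨.ofNat (nat_lit 0), .ofNat (nat_lit 0), .ofNat (nat_lit 0), .ofNat (nat_lit 0), .ofNat (nat_lit 0), .ofNat (nat_lit 0), .ofNat (nat_lit 0), .ofNat (nat_lit 0)⟩⟩, []⟩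
noncomputable def p022_l24 : Lf2 := ⟨nat_lit 0, nat_lit 10, [nat_lit 0, nat_lit 5, nat_lit 5, nat_lit 20], true, nat_lit 0, nat_lit 0, nat_lit 0, nat_lit 0, ⟨nat_lit 0, nat_lit 1000, nat_lit 0, nat_lit 7, nat_lit 290, nat_lit 0, nat_lit 0, nat_lit 0, nat_lit 0, nat_lit 0, nat_lit 0, nat_lit 0, nat_lit 43945959, nat_lit 23054041, nat_lit 0, nat_lit 3218555, true, false⟩,
 nat_lit 0, nat_lit 0, nat_lit 0, nat_lit 0, nat_lit 3331, nat_lit 0, nat_lit 0, nat_lit 0, nat_lit 0, nat_lit 0, nat_lit 0, nat_lit 0, nat_lit 0, nat_lit 0, nat_lit 0, nat_lit 250000, nat_lit 0, nat_lit 0, [(nat_lit 21, [(nat_lit 0, nat_lit 1000)])],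
 ⟨p022_k24, nat_lit 0, nat_lit 0, nat_lit 140, nat_lit 0, nat_lit 0, [nat_lit 1558400000, nat_lit 2263520000], [], [nat_lit 24171041846, nat_lit 25343556132, nat_lit 27440476332, nat_lit 28534277080], nat_lit 0, nat_lit 0, nat_lit 0, nat_lit 0, nat_lit 0, nat_lit 0, [], [nat_lit 69, nat_lit 40, nat_lit 80, nat_lit 80, nat_lit 64, nat_lit 203, nat_lit 0, nat_lit 7]⟩, C1.Rw.none,
 ⟨nat_lit 3162, nat_lit 3873, ⟨.ofNat (nat_lit 651611), .ofNat (nat_lit 780717), .ofNat (nat_lit 673376), .ofNat (nat_lit 802484), .ofNat (nat_lit 649490), .ofNat (nat_lit 771459), .ofNat (nat_lit 671616), .ofNat (nat_lit 793588)⟩, ⟨.ofNat (nat_lit 0), .ofNat (nat_lit 0), .ofNat (nat_lit 0), .ofNat (nat_lit 0), .ofNat (nat_lit 0), .ofNat (nat_lit 0), .ofNat (nat_lit 0), .ofNat (nat_lit 0)⟩⟩, []⟩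
noncomputable def p022_l25 : Lf2 := ⟨nat_lit 0, nat_lit 10, [nat_lit 0, nat_lit 5, nat_lit 5, nat_lit 20], false, nat_lit 0, nat_lit 0, nat_lit 0, nat_lit 0, ⟨nat_lit 172, nat_lit 828, nat_lit 0, nat_lit 7, nat_lit 301, nat_lit 0, nat_lit 0, nat_lit 0, nat_lit 0, nat_lit 0, nat_lit 0, nat_lit 0, nat_lit 42811803, nat_lit 24188197, nat_lit 0, nat_lit 3270007, true, false⟩,
 nat_lit 0, nat_lit 0, nat_lit 1587, nat_lit 0, nat_lit 3405, nat_lit 1098, nat_lit 0, nat_lit 0, nat_lit 0, nat_lit 267, nat_lit 0, nat_lit 0, nat_lit 0, nat_lit 0, nat_lit 0, nat_lit 207000, nat_lit 0, nat_lit 0, [(nat_lit 18, [(nat_lit 0, nat_lit 828)])],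
 ⟨p022_k25, nat_lit 0, nat_lit 0, nat_lit 134, nat_lit 0, nat_lit 0, [nat_lit 1618662400, nat_lit 3196336000], [], [nat_lit 23949508600, nat_lit 25133663530, nat_lit 27428710240, nat_lit 28425853460], nat_lit 0, nat_lit 0, nat_lit 0, nat_lit 0, nat_lit 0, nat_lit 0, [], [nat_lit 69, nat_lit 40, nat_lit 80, nat_lit 80, nat_lit 64, nat_lit 203, nat_lit 0, nat_lit 7]⟩, ⟨p022_k26, nat_lit 0, nat_lit 0, nat_lit 804, nat_lit 0, nat_lit 1537869, [nat_lit 564504000, nat_lit 1370496000], [], [nat_lit 5167912063, nat_lit 5221275459, nat_lit 5323126579, nat_lit 5378391784], nat_lit 1271250, nat_lit 1271250, nat_lit 1271250, nat_lit 1271250, nat_lit 0, nat_lit 0, [nat_lit 780000, nat_lit 1762500], [nat_lit 74, nat_lit 40, nat_lit 80, nat_lit 80, nat_lit 43, nat_lit 281, nat_lit 0, nat_lit 9]⟩,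
 ⟨nat_lit 3872, nat_lit 4473, ⟨.ofNat (nat_lit 675730), .ofNat (nat_lit 811702), .ofNat (nat_lit 697279), .ofNat (nat_lit 833251), .ofNat (nat_lit 673407), .ofNat (nat_lit 802466), .ofNat (nat_lit 695183), .ofNat (nat_lit 824242)⟩, ⟨.ofNat (nat_lit 0), .ofNat (nat_lit 0), .ofNat (nat_lit 0), .ofNat (nat_lit 0), .ofNat (nat_lit 0), .ofNat (nat_lit 0), .ofNat (nat_lit 0), .ofNat (nat_lit 0)⟩⟩, []⟩
noncomputable def p022_l26 : Lf2 := ⟨nat_lit 0, nat_lit 10, [nat_lit 0, nat_lit 5, nat_lit 5, nat_lit 20], true, nat_lit 0, nat_lit 0, nat_lit 0, nat_lit 0, ⟨nat_lit 0, nat_lit 1000, nat_lit 0, nat_lit 7, nat_lit 298, nat_lit 0, nat_lit 0, nat_lit 0, nat_lit 0, nat_lit 0, nat_lit 0, nat_lit 0, nat_lit 43035011, nat_lit 23964989, nat_lit 0, nat_lit 3260376, true, false⟩,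
 nat_lit 0, nat_lit 0, nat_lit 0, nat_lit 0, nat_lit 3331, nat_lit 0, nat_lit 0, nat_lit 0, nat_lit 0, nat_lit 0, nat_lit 0, nat_lit 0, nat_lit 0, nat_lit 0, nat_lit 0, nat_lit 250000, nat_lit 0, nat_lit 0, [(nat_lit 21, [(nat_lit 0, nat_lit 1000)])],
 ⟨p022_k24, nat_lit 0, nat_lit 0, nat_lit 140, nat_lit 0, nat_lit 0, [nat_lit 1558400000, nat_lit 2263520000], [], [nat_lit 24171041846, nat_lit 25343556132, nat_lit 27440476332, nat_lit 28534277080], nat_lit 0, nat_lit 0, nat_lit 0, nat_lit 0, nat_lit 0, nat_lit 0, [], [nat_lit 69, nat_lit 40, nat_lit 80, nat_lit 80, nat_lit 64, nat_lit 203, nat_lit 0, nat_lit 7]⟩, C1.Rw.none,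
 ⟨nat_lit 3162, nat_lit 3873, ⟨.ofNat (nat_lit 673376), .ofNat (nat_lit 802484), .ofNat (nat_lit 695141), .ofNat (nat_lit 824248), .ofNat (nat_lit 671616), .ofNat (nat_lit 793588), .ofNat (nat_lit 693742), .ofNat (nat_lit 815713)⟩, ⟨.ofNat (nat_lit 0), .ofNat (nat_lit 0), .ofNat (nat_lit 0), .ofNat (nat_lit 0), .ofNat (nat_lit 0), .ofNat (nat_lit 0), .ofNat (nat_lit 0), .ofNat (nat_lit 0)⟩⟩, []⟩
noncomputable def b_N_800_700_0_35 : St := ⟨false, nat_lit 0, nat_lit 1, nat_lit 1, nat_lit 40, nat_lit 320, nat_lit 360, nat_lit 280, nat_lit 320, nat_lit 240, nat_lit 320, nat_lit 0, nat_lit 0, nat_lit 0, nat_lit 0, nat_lit 0, nat_lit 0, nat_lit 40, nat_lit 80, nat_lit 0, nat_lit 0, nat_lit 0, nat_lit 0⟩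
theorem d_N_800_700_0_35 (h : EB TB.env) : Dead b_N_800_700_0_35 := chkB_sound0 h (T :=
(.spl (nat_lit 1) (nat_lit 300)
(.spl (nat_lit 0) (nat_lit 340)
(.leaf p022_l23)
(.leaf p022_l24))
(.spl (nat_lit 0) (nat_lit 340)
(.leaf p022_l25)
(.leaf p022_l26)))) (by decide +kernel)
noncomputable def p022_l27 : Lf2 := ⟨nat_lit 0, nat_lit 10, [nat_lit 0, nat_lit 5, nat_lit 5, nat_lit 20], false, nat_lit 0, nat_lit 0, nat_lit 0, nat_lit 0, ⟨nat_lit 79, nat_lit 921, nat_lit 0, nat_lit 8, nat_lit 329, nat_lit 0, nat_lit 0, nat_lit 0, nat_lit 0, nat_lit 0, nat_lit 0, nat_lit 0, nat_lit 40012777, nat_lit 26987223, nat_lit 0, nat_lit 3370641, true, true⟩,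
 nat_lit 0, nat_lit 0, nat_lit 1010, nat_lit 0, nat_lit 3932, nat_lit 642, nat_lit 0, nat_lit 0, nat_lit 0, nat_lit 44, nat_lit 0, nat_lit 0, nat_lit 0, nat_lit 0, nat_lit 0, nat_lit 230250, nat_lit 0, nat_lit 0, [(nat_lit 18, [(nat_lit 0, nat_lit 921)])],
 ⟨p022_k8, nat_lit 0, nat_lit 0, nat_lit 162, nat_lit 0, nat_lit 0, [nat_lit 1572236800, nat_lit 2367080001, nat_lit 2853352000], [], [nat_lit 27750489841, nat_lit 28765124681, nat_lit 29852455849, nat_lit 30766960097], nat_lit 0, nat_lit 0, nat_lit 0, nat_lit 0, nat_lit 0, nat_lit 0, [], [nat_lit 6, nat_lit 40, nat_lit 80, nat_lit 80, nat_lit 3, nat_lit 203, nat_lit 0, nat_lit 6]⟩, ⟨p022_k9, nat_lit 0, nat_lit 0, nat_lit 831, nat_lit 0, nat_lit 1459543, [nat_lit 259278000, nat_lit 493750000, nat_lit 777518000], [], [nat_lit 2923985192, nat_lit 2927504623, nat_lit 2977906698, nat_lit 2981135279], nat_lit 1271250, nat_lit 1271250, nat_lit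 1271250, nat_lit 1271250, nat_lit 0, nat_lit 0, [nat_lit 780000, nat_lit 1435000, nat_lit 1271250], [nat_lit 8, nat_lit 40, nat_lit 80, nat_lit 80, nat_lit 1, nat_lit 289, nat_lit 0, nat_lit 8]⟩,
 ⟨nat_lit 3872, nat_lit 4473, ⟨.ofNat (nat_lit 790153), .ofNat (nat_lit 858139), .ofNat (nat_lit 795540), .ofNat (nat_lit 863526), .ofNat (nat_lit 780691), .ofNat (nat_lit 845220), .ofNat (nat_lit 786134), .ofNat (nat_lit 850663)⟩, ⟨.ofNat (nat_lit 0), .ofNat (nat_lit 0), .ofNat (nat_lit 0), .ofNat (nat_lit 0), .ofNat (nat_lit 0), .ofNat (nat_lit 0), .ofNat (nat_lit 0), .ofNat (nat_lit 0)⟩⟩, []⟩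
noncomputable def p022_l28 : Lf2 := ⟨nat_lit 0, nat_lit 10, [nat_lit 0, nat_lit 5, nat_lit 5, nat_lit 20], false, nat_lit 0, nat_lit 0, nat_lit 0, nat_lit 0, ⟨nat_lit 85, nat_lit 915, nat_lit 0, nat_lit 8, nat_lit 330, nat_lit 0, nat_lit 0, nat_lit 0, nat_lit 0, nat_lit 0, nat_lit 0, nat_lit 0, nat_lit 39843005, nat_lit 27156995, nat_lit 0, nat_lit 3375564, true, true⟩,
 nat_lit 0, nat_lit 0, nat_lit 1036, nat_lit 0, nat_lit 3944, nat_lit 673, nat_lit 0, nat_lit 0, nat_lit 0, nat_lit 51, nat_lit 0, nat_lit 0, nat_lit 0, nat_lit 0, nat_lit 0, nat_lit 228750, nat_lit 0, nat_lit 0, [(nat_lit 18, [(nat_lit 0, nat_lit 915)])],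
 ⟨p022_k8, nat_lit 0, nat_lit 0, nat_lit 162, nat_lit 0, nat_lit 0, [nat_lit 1575232000, nat_lit 2382200000, nat_lit 2875480000], [], [nat_lit 27780365280, nat_lit 28796306560, nat_lit 29885136816, nat_lit 30800719432], nat_lit 0, nat_lit 0, nat_lit 0, nat_lit 0, nat_lit 0, nat_lit 0, [], [nat_lit 6, nat_lit 40, nat_lit 80, nat_lit 80, nat_lit 3, nat_lit 203, nat_lit 0, nat_lit 6]⟩, ⟨p022_k27, nat_lit 0, nat_lit 0, nat_lit 812, nat_lit 0, nat_lit 1436584, [nat_lit 278970000, nat_lit 531250000, nat_lit 836570000], [], [nat_lit 3072096842, nat_lit 3075282626, nat_lit 3142307798, nat_lit 3144902654], nat_lit 1271250, nat_lit 1271250, nat_lit 1271250, nat_lit 1271250, nat_lit 0, nat_lit 0, [nat_lit 780000, nat_lit 1435000, nat_lit 1271250], [nat_lit 8, nat_lit 40, nat_lit 80, nat_lit 80, nat_lit 1, nat_lit 284, nat_lit 0, nat_lit 7]⟩,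
 ⟨nat_lit 3872, nat_lit 4473, ⟨.ofNat (nat_lit 795540), .ofNat (nat_lit 863526), .ofNat (nat_lit 798773), .ofNat (nat_lit 866759), .ofNat (nat_lit 786134), .ofNat (nat_lit 850663), .ofNat (nat_lit 789401), .ofNat (nat_lit 853930)⟩, ⟨.ofNat (nat_lit 0), .ofNat (nat_lit 0), .ofNat (nat_lit 0), .ofNat (nat_lit 0), .ofNat (nat_lit 0), .ofNat (nat_lit 0), .ofNat (nat_lit 0), .ofNat (nat_lit 0)⟩⟩, []⟩
noncomputable def p022_l29 : Lf2 := ⟨nat_lit 0, nat_lit 10, [nat_lit 0, nat_lit 5, nat_lit 5, nat_lit 20], false, nat_lit 0, nat_lit 0, nat_lit 0, nat_lit 0, ⟨nat_lit 84, nat_lit 916, nat_lit 0, nat_lit 8, nat_lit 331, nat_lit 0, nat_lit 0, nat_lit 0, nat_lit 0, nat_lit 0, nat_lit 0, nat_lit 0, nat_lit 39737179, nat_lit 27262821, nat_lit 0, nat_lit 3378565, true, true⟩,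
 nat_lit 0, nat_lit 0, nat_lit 1009, nat_lit 0, nat_lit 3942, nat_lit 664, nat_lit 0, nat_lit 0, nat_lit 0, nat_lit 38, nat_lit 0, nat_lit 0, nat_lit 0, nat_lit 0, nat_lit 0, nat_lit 229000, nat_lit 0, nat_lit 0, [(nat_lit 18, [(nat_lit 0, nat_lit 916)])],
 ⟨p022_k8, nat_lit 0, nat_lit 0, nat_lit 162, nat_lit 0, nat_lit 0, [nat_lit 1574732800, nat_lit 2379680001, nat_lit 2871792000], [], [nat_lit 27775386041, nat_lit 28791109581, nat_lit 29879689989, nat_lit 30795092877], nat_lit 0, nat_lit 0, nat_lit 0, nat_lit 0, nat_lit 0, nat_lit 0, [], [nat_lit 6, nat_lit 40, nat_lit 80, nat_lit 80, nat_lit 3, nat_lit 203, nat_lit 0, nat_lit 6]⟩, ⟨p022_k28, nat_lit 0, nat_lit 0, nat_lit 751, nat_lit 0, nat_lit 1424574, [nat_lit 275688000, nat_lit 525000000, nat_lit 669312000], [], [nat_lit 3033904137, nat_lit 3035468760, nat_lit 3090547600, nat_lit 3091765974], nat_lit 1271250, nat_lit 1271250, nat_lit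 1271250, nat_lit 1271250, nat_lit 0, nat_lit 0, [nat_lit 780000, nat_lit 1435000, nat_lit 1271250], [nat_lit 18, nat_lit 40, nat_lit 80, nat_lit 80, nat_lit 2, nat_lit 269, nat_lit 0, nat_lit 8]⟩,
 ⟨nat_lit 3872, nat_lit 4473, ⟨.ofNat (nat_lit 798773), .ofNat (nat_lit 866759), .ofNat (nat_lit 800927), .ofNat (nat_lit 868913), .ofNat (nat_lit 789401), .ofNat (nat_lit 853930), .ofNat (nat_lit 791578), .ofNat (nat_lit 856107)⟩, ⟨.ofNat (nat_lit 0), .ofNat (nat_lit 0), .ofNat (nat_lit 0), .ofNat (nat_lit 0), .ofNat (nat_lit 0), .ofNat (nat_lit 0), .ofNat (nat_lit 0), .ofNat (nat_lit 0)⟩⟩, []⟩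
noncomputable def p022_l30 : Lf2 := ⟨nat_lit 0, nat_lit 10, [nat_lit 0, nat_lit 5, nat_lit 5, nat_lit 20], false, nat_lit 0, nat_lit 0, nat_lit 0, nat_lit 0, ⟨nat_lit 87, nat_lit 913, nat_lit 0, nat_lit 8, nat_lit 333, nat_lit 0, nat_lit 0, nat_lit 0, nat_lit 0, nat_lit 0, nat_lit 0, nat_lit 0, nat_lit 39589393, nat_lit 27410607, nat_lit 0, nat_lit 3382670, true, true⟩,
 nat_lit 0, nat_lit 0, nat_lit 1019, nat_lit 0, nat_lit 3948, nat_lit 676, nat_lit 0, nat_lit 0, nat_lit 0, nat_lit 42, nat_lit 0, nat_lit 0, nat_lit 0, nat_lit 0, nat_lit 0, nat_lit 228250, nat_lit 0, nat_lit 0, [(nat_lit 18, [(nat_lit 0, nat_lit 913)])],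
 ⟨p022_k8, nat_lit 0, nat_lit 0, nat_lit 162, nat_lit 0, nat_lit 0, [nat_lit 1576230401, nat_lit 2387240000, nat_lit 2882856000], [], [nat_lit 27790323760, nat_lit 28806700520, nat_lit 29896030472, nat_lit 30811972544], nat_lit 0, nat_lit 0, nat_lit 0, nat_lit 0, nat_lit 0, nat_lit 0, [], [nat_lit 6, nat_lit 40, nat_lit 80, nat_lit 80, nat_lit 3, nat_lit 203, nat_lit 0, nat_lit 6]⟩, ⟨p022_k11, nat_lit 0, nat_lit 0, nat_lit 758, nat_lit 0, nat_lit 1442396, [nat_lit 285534000, nat_lit 543750000, nat_lit 693216000], [], [nat_lit 3126275925, nat_lit 3131044420, nat_lit 3190614782, nat_lit 3194763305], nat_lit 1271250, nat_lit 1271250, nat_lit 1271250, nat_lit 1271250, nat_lit 0, nat_lit 0, [nat_lit 780000, nat_lit 1435000, nat_lit 1271250], [nat_lit 18, nat_lit 40, nat_lit 80, nat_lit 80, nat_lit 2, nat_lit 272, nat_lit 0, nat_lit 8]⟩,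
 ⟨nat_lit 3872, nat_lit 4473, ⟨.ofNat (nat_lit 800927), .ofNat (nat_lit 868913), .ofNat (nat_lit 806314), .ofNat (nat_lit 874301), .ofNat (nat_lit 791578), .ofNat (nat_lit 856107), .ofNat (nat_lit 797022), .ofNat (nat_lit 861552)⟩, ⟨.ofNat (nat_lit 0), .ofNat (nat_lit 0), .ofNat (nat_lit 0), .ofNat (nat_lit 0), .ofNat (nat_lit 0), .ofNat (nat_lit 0), .ofNat (nat_lit 0), .ofNat (nat_lit 0)⟩⟩, []⟩
noncomputable def p022_l31 : Lf2 := ⟨nat_lit 0, nat_lit 10, [nat_lit 0, nat_lit 5, nat_lit 5, nat_lit 20], false, nat_lit 0, nat_lit 0, nat_lit 0, nat_lit 0, ⟨nat_lit 175, nat_lit 825, nat_lit 0, nat_lit 8, nat_lit 335, nat_lit 0, nat_lit 0, nat_lit 0, nat_lit 0, nat_lit 0, nat_lit 0, nat_lit 0, nat_lit 39378996, nat_lit 27621004, nat_lit 0, nat_lit 3388341, true, true⟩,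
 nat_lit 0, nat_lit 0, nat_lit 1607, nat_lit 0, nat_lit 4124, nat_lit 1089, nat_lit 0, nat_lit 0, nat_lit 0, nat_lit 277, nat_lit 0, nat_lit 0, nat_lit 0, nat_lit 0, nat_lit 0, nat_lit 206250, nat_lit 0, nat_lit 0, [(nat_lit 18, [(nat_lit 0, nat_lit 825)])],
 ⟨p022_k8, nat_lit 0, nat_lit 0, nat_lit 162, nat_lit 0, nat_lit 0, [nat_lit 1620160001, nat_lit 2609000000, nat_lit 3207400000], [], [nat_lit 28228496880, nat_lit 29264034760, nat_lit 30375351336, nat_lit 31307109472], nat_lit 0, nat_lit 0, nat_lit 0, nat_lit 0, nat_lit 0, nat_lit 0, [], [nat_lit 6, nat_lit 40, nat_lit 80, nat_lit 80, nat_lit 3, nat_lit 203, nat_lit 0, nat_lit 6]⟩, ⟨p022_k29, nat_lit 0, nat_lit 0, nat_lit 755, nat_lit 0, nat_lit 1435183, [nat_lit 574350000, nat_lit 1093750000, nat_lit 1394400000], [], [nat_lit 5706281920, nat_lit 5718319588, nat_lit 5844421761, nat_lit 5855108780], nat_lit 1271250, nat_lit 1271250,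 nat_lit 1271250, nat_lit 1271250, nat_lit 0, nat_lit 0, [nat_lit 780000, nat_lit 1435000, nat_lit 1271250], [nat_lit 18, nat_lit 40, nat_lit 80, nat_lit 80, nat_lit 2, nat_lit 272, nat_lit 0, nat_lit 8]⟩,
 ⟨nat_lit 3872, nat_lit 4473, ⟨.ofNat (nat_lit 806314), .ofNat (nat_lit 874301), .ofNat (nat_lit 811702), .ofNat (nat_lit 879688), .ofNat (nat_lit 797022), .ofNat (nat_lit 861552), .ofNat (nat_lit 802466), .ofNat (nat_lit 866995)⟩, ⟨.ofNat (nat_lit 0), .ofNat (nat_lit 0), .ofNat (nat_lit 0), .ofNat (nat_lit 0), .ofNat (nat_lit 0), .ofNat (nat_lit 0), .ofNat (nat_lit 0), .ofNat (nat_lit 0)⟩⟩, []⟩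
noncomputable def p022_l32 : Lf2 := ⟨nat_lit 0, nat_lit 10, [nat_lit 0, nat_lit 5, nat_lit 5, nat_lit 20], true, nat_lit 0, nat_lit 0, nat_lit 0, nat_lit 0, ⟨nat_lit 0, nat_lit 1000, nat_lit 0, nat_lit 8, nat_lit 321, nat_lit 0, nat_lit 0, nat_lit 0, nat_lit 0, nat_lit 0, nat_lit 0, nat_lit 0, nat_lit 40744033, nat_lit 26255967, nat_lit 0, nat_lit 3347907, true, true⟩,
 nat_lit 0, nat_lit 0, nat_lit 0, nat_lit 0, nat_lit 3692, nat_lit 0, nat_lit 0, nat_lit 0, nat_lit 0, nat_lit 0, nat_lit 0, nat_lit 0, nat_lit 0, nat_lit 0, nat_lit 0, nat_lit 250000, nat_lit 0, nat_lit 0, [(nat_lit 21, [(nat_lit 0, nat_lit 1000)])],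
 ⟨p022_k23, nat_lit 0, nat_lit 0, nat_lit 162, nat_lit 0, nat_lit 0, [nat_lit 1558400000, nat_lit 2146000001, nat_lit 2146000000], [], [nat_lit 27958015081, nat_lit 28946521121, nat_lit 28933158229, nat_lit 29907935616], nat_lit 0, nat_lit 0, nat_lit 0, nat_lit 0, nat_lit 0, nat_lit 0, [], [nat_lit 6, nat_lit 40, nat_lit 80, nat_lit 80, nat_lit 3, nat_lit 203, nat_lit 0, nat_lit 6]⟩, C1.Rw.none,
 ⟨nat_lit 3162, nat_lit 3873, ⟨.ofNat (nat_lit 780717), .ofNat (nat_lit 812989), .ofNat (nat_lit 802484), .ofNat (nat_lit 834761), .ofNat (nat_lit 771459), .ofNat (nat_lit 801947), .ofNat (nat_lit 793588), .ofNat (nat_lit 824080)⟩, ⟨.ofNat (nat_lit 0), .ofNat (nat_lit 0), .ofNat (nat_lit 0), .ofNat (nat_lit 0), .ofNat (nat_lit 0), .ofNat (nat_lit 0), .ofNat (nat_lit 0), .ofNat (nat_lit 0)⟩⟩, []⟩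
noncomputable def p022_l33 : Lf2 := ⟨nat_lit 0, nat_lit 10, [nat_lit 0, nat_lit 5, nat_lit 5, nat_lit 20], true, nat_lit 0, nat_lit 0, nat_lit 0, nat_lit 0, ⟨nat_lit 0, nat_lit 1000, nat_lit 0, nat_lit 8, nat_lit 333, nat_lit 0, nat_lit 0, nat_lit 0, nat_lit 0, nat_lit 0, nat_lit 0, nat_lit 0, nat_lit 39608024, nat_lit 27391976, nat_lit 0, nat_lit 3382158, true, true⟩,
 nat_lit 0, nat_lit 0, nat_lit 0, nat_lit 0, nat_lit 3617, nat_lit 0, nat_lit 0, nat_lit 0, nat_lit 0, nat_lit 0, nat_lit 0, nat_lit 0, nat_lit 0, nat_lit 0, nat_lit 0, nat_lit 250000, nat_lit 0, nat_lit 0, [(nat_lit 21, [(nat_lit 0, nat_lit 1000)])],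
 ⟨p022_k23, nat_lit 0, nat_lit 0, nat_lit 165, nat_lit 0, nat_lit 0, [nat_lit 1558400000, nat_lit 2146000001, nat_lit 2146000000], [], [nat_lit 28963016929, nat_lit 29429651399, nat_lit 29930105527, nat_lit 30376296832], nat_lit 0, nat_lit 0, nat_lit 0, nat_lit 0, nat_lit 0, nat_lit 0, [], [nat_lit 6, nat_lit 40, nat_lit 80, nat_lit 80, nat_lit 3, nat_lit 203, nat_lit 0, nat_lit 6]⟩, C1.Rw.none,
 ⟨nat_lit 3535, nat_lit 3873, ⟨.ofNat (nat_lit 812994), .ofNat (nat_lit 845257), .ofNat (nat_lit 823887), .ofNat (nat_lit 856151), .ofNat (nat_lit 807471), .ofNat (nat_lit 838854), .ofNat (nat_lit 818444), .ofNat (nat_lit 849828)⟩, ⟨.ofNat (nat_lit 0), .ofNat (nat_lit 0), .ofNat (nat_lit 0), .ofNat (nat_lit 0), .ofNat (nat_lit 0), .ofNat (nat_lit 0), .ofNat (nat_lit 0), .ofNat (nat_lit 0)⟩⟩, []⟩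
noncomputable def p022_l34 : Lf2 := ⟨nat_lit 0, nat_lit 10, [nat_lit 0, nat_lit 5, nat_lit 5, nat_lit 20], false, nat_lit 0, nat_lit 0, nat_lit 0, nat_lit 0, ⟨nat_lit 105, nat_lit 895, nat_lit 0, nat_lit 8, nat_lit 336, nat_lit 0, nat_lit 0, nat_lit 0, nat_lit 0, nat_lit 0, nat_lit 0, nat_lit 0, nat_lit 39289677, nat_lit 27710323, nat_lit 0, nat_lit 3390686, true, true⟩,
 nat_lit 0, nat_lit 0, nat_lit 1283, nat_lit 0, nat_lit 3453, nat_lit 852, nat_lit 0, nat_lit 0, nat_lit 0, nat_lit 26, nat_lit 0, nat_lit 0, nat_lit 0, nat_lit 0, nat_lit 0, nat_lit 358000, nat_lit 0, nat_lit 0, [(nat_lit 21, [(nat_lit 1, nat_lit 895)])],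
 ⟨p022_k23, nat_lit 0, nat_lit 0, nat_lit 165, nat_lit 0, nat_lit 0, [nat_lit 1426264001, nat_lit 1828296000, nat_lit 1991590000], [], [nat_lit 28556193952, nat_lit 29014680328, nat_lit 29505669934, nat_lit 29943763888], nat_lit 0, nat_lit 0, nat_lit 0, nat_lit 0, nat_lit 0, nat_lit 0, [], [nat_lit 6, nat_lit 40, nat_lit 80, nat_lit 80, nat_lit 3, nat_lit 203, nat_lit 0, nat_lit 6]⟩, ⟨p022_k11, nat_lit 0, nat_lit 0, nat_lit 809, nat_lit 0, nat_lit 1572034, [nat_lit 344610000, nat_lit 656250000, nat_lit 836640000], [], [nat_lit 3844336391, nat_lit 3849367983, nat_lit 3883241139, nat_lit 3915963387], nat_lit 1271250, nat_lit 1271250, nat_lit 1271250, nat_lit 1271250, nat_lit 0, nat_lit 0, [nat_lit 780000, nat_lit 1435000, nat_lit 1271250], [nat_lit 18, nat_lit 40, nat_lit 80, nat_lit 80, nat_lit 2, nat_lit 285, nat_lit 0, nat_lit 8]⟩,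
 ⟨nat_lit 3535, nat_lit 3873, ⟨.ofNat (nat_lit 823887), .ofNat (nat_lit 856151), .ofNat (nat_lit 829334), .ofNat (nat_lit 861598), .ofNat (nat_lit 818444), .ofNat (nat_lit 849828), .ofNat (nat_lit 823931), .ofNat (nat_lit 855315)⟩, ⟨.ofNat (nat_lit 0), .ofNat (nat_lit 0), .ofNat (nat_lit 0), .ofNat (nat_lit 0), .ofNat (nat_lit 0), .ofNat (nat_lit 0), .ofNat (nat_lit 0), .ofNat (nat_lit 0)⟩⟩, []⟩
noncomputable def p022_l35 : Lf2 := ⟨nat_lit 0, nat_lit 10, [nat_lit 0, nat_lit 5, nat_lit 5, nat_lit 20], false, nat_lit 0, nat_lit 0, nat_lit 0, nat_lit 0, ⟨nat_lit 186, nat_lit 814, nat_lit 0, nat_lit 8, nat_lit 338, nat_lit 0, nat_lit 0, nat_lit 0, nat_lit 0, nat_lit 0, nat_lit 0, nat_lit 0, nat_lit 39078574, nat_lit 27921426, nat_lit 0, nat_lit 3396085, true, true⟩,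
 nat_lit 0, nat_lit 0, nat_lit 1889, nat_lit 0, nat_lit 3364, nat_lit 1280, nat_lit 109, nat_lit 0, nat_lit 0, nat_lit 174, nat_lit 0, nat_lit 0, nat_lit 0, nat_lit 0, nat_lit 0, nat_lit 325600, nat_lit 0, nat_lit 0, [(nat_lit 21, [(nat_lit 1, nat_lit 814)])],
 ⟨p022_k23, nat_lit 0, nat_lit 0, nat_lit 165, nat_lit 0, nat_lit 0, [nat_lit 1481084801, nat_lit 2087107201, nat_lit 2376988000], [], [nat_lit 28410686460, nat_lit 28842117689, nat_lit 29303615406, nat_lit 29714522028], nat_lit 0, nat_lit 0, nat_lit 0, nat_lit 0, nat_lit 0, nat_lit 0, [], [nat_lit 6, nat_lit 40, nat_lit 80, nat_lit 80, nat_lit 3, nat_lit 203, nat_lit 0, nat_lit 6]⟩, ⟨p022_k29, nat_lit 0, nat_lit 0, nat_lit 803, nat_lit 0, nat_lit 1559519, [nat_lit 610452000, nat_lit 1162500000, nat_lit 1482048000], [], [nat_lit 6439764297, nat_lit 6449394318, nat_lit 6504302697, nat_lit 6513081880], nat_lit 1271250, nat_lit 1271250,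 nat_lit 1271250, nat_lit 1271250, nat_lit 0, nat_lit 0, [nat_lit 780000, nat_lit 1435000, nat_lit 1271250], [nat_lit 18, nat_lit 40, nat_lit 80, nat_lit 80, nat_lit 2, nat_lit 284, nat_lit 0, nat_lit 8]⟩,
 ⟨nat_lit 3535, nat_lit 3873, ⟨.ofNat (nat_lit 829334), .ofNat (nat_lit 861598), .ofNat (nat_lit 834781), .ofNat (nat_lit 867045), .ofNat (nat_lit 823931), .ofNat (nat_lit 855315), .ofNat (nat_lit 829417), .ofNat (nat_lit 860801)⟩, ⟨.ofNat (nat_lit 0), .ofNat (nat_lit 0), .ofNat (nat_lit 0), .ofNat (nat_lit 0), .ofNat (nat_lit 0), .ofNat (nat_lit 0), .ofNat (nat_lit 0), .ofNat (nat_lit 0)⟩⟩, []⟩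
noncomputable def p022_l36 : Lf2 := ⟨nat_lit 0, nat_lit 10, [nat_lit 0, nat_lit 5, nat_lit 5, nat_lit 20], true, nat_lit 0, nat_lit 0, nat_lit 0, nat_lit 0, ⟨nat_lit 0, nat_lit 1000, nat_lit 0, nat_lit 8, nat_lit 332, nat_lit 0, nat_lit 0, nat_lit 0, nat_lit 0, nat_lit 0, nat_lit 0, nat_lit 0, nat_lit 39623838, nat_lit 27376162, nat_lit 0, nat_lit 3381722, true, true⟩,
 nat_lit 0, nat_lit 0, nat_lit 0, nat_lit 0, nat_lit 3291, nat_lit 0, nat_lit 0, nat_lit 0, nat_lit 0, nat_lit 0, nat_lit 0, nat_lit 0, nat_lit 0, nat_lit 0, nat_lit 0, nat_lit 250000, nat_lit 0, nat_lit 0, [(nat_lit 21, [(nat_lit 0, nat_lit 1000)])],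
 ⟨p022_k30, nat_lit 0, nat_lit 0, nat_lit 150, nat_lit 0, nat_lit 0, [nat_lit 1558400000, nat_lit 1963600000], [], [nat_lit 28754390727, nat_lit 29207880144, nat_lit 29669659678, nat_lit 30107721436], nat_lit 0, nat_lit 0, nat_lit 0, nat_lit 0, nat_lit 0, nat_lit 0, [], [nat_lit 24, nat_lit 40, nat_lit 80, nat_lit 80, nat_lit 33, nat_lit 203, nat_lit 0, nat_lit 7]⟩, C1.Rw.none,
 ⟨nat_lit 3162, nat_lit 3536, ⟨.ofNat (nat_lit 807474), .ofNat (nat_lit 838855), .ofNat (nat_lit 829423), .ofNat (nat_lit 860807), .ofNat (nat_lit 801955), .ofNat (nat_lit 832432), .ofNat (nat_lit 824106), .ofNat (nat_lit 854586)⟩, ⟨.ofNat (nat_lit 0), .ofNat (nat_lit 0), .ofNat (nat_lit 0), .ofNat (nat_lit 0), .ofNat (nat_lit 0), .ofNat (nat_lit 0), .ofNat (nat_lit 0), .ofNat (nat_lit 0)⟩⟩, []⟩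
noncomputable def p022_l37 : Lf2 := ⟨nat_lit 0, nat_lit 10, [nat_lit 0, nat_lit 5, nat_lit 5, nat_lit 20], false, nat_lit 0, nat_lit 0, nat_lit 0, nat_lit 0, ⟨nat_lit 332, nat_lit 668, nat_lit 0, nat_lit 8, nat_lit 338, nat_lit 0, nat_lit 0, nat_lit 0, nat_lit 0, nat_lit 0, nat_lit 0, nat_lit 0, nat_lit 39065071, nat_lit 27934929, nat_lit 0, nat_lit 3396423, true, true⟩,
 nat_lit 0, nat_lit 0, nat_lit 2942, nat_lit 0, nat_lit 3794, nat_lit 2036, nat_lit 0, nat_lit 0, nat_lit 0, nat_lit 416, nat_lit 0, nat_lit 0, nat_lit 0, nat_lit 0, nat_lit 0, nat_lit 560000, nat_lit 0, nat_lit 0, [(nat_lit 18, [(nat_lit 0, nat_lit 144), (nat_lit 2, nat_lit 524)])],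
 ⟨p022_k8, nat_lit 0, nat_lit 0, nat_lit 162, nat_lit 0, nat_lit 0, [nat_lit 1787125334, nat_lit 2416362667, nat_lit 2211691200], [], [nat_lit 27396740841, nat_lit 28343909653, nat_lit 29357740561, nat_lit 30215317335], nat_lit 0, nat_lit 0, nat_lit 0, nat_lit 0, nat_lit 0, nat_lit 0, [], [nat_lit 6, nat_lit 40, nat_lit 80, nat_lit 80, nat_lit 3, nat_lit 203, nat_lit 0, nat_lit 6]⟩, ⟨p022_k20, nat_lit 0, nat_lit 0, nat_lit 766, nat_lit 0, nat_lit 1464397, [nat_lit 1089624000, nat_lit 2075000000, nat_lit 2645376000], [], [nat_lit 10937341400, nat_lit 10983808404, nat_lit 11196816452, nat_lit 11249956914], nat_lit 1271250, nat_lit 1271250, nat_lit 1271250, nat_lit 1271250, nat_lit 0, nat_lit 0, [nat_lit 780000, nat_lit 1435000, nat_lit 1271250], [nat_lit 18, nat_lit 40, nat_lit 80, nat_lit 80, nat_lit 2, nat_lit 276, nat_lit 0, nat_lit 8]⟩,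
 ⟨nat_lit 3872, nat_lit 4473, ⟨.ofNat (nat_lit 811702), .ofNat (nat_lit 879688), .ofNat (nat_lit 822476), .ofNat (nat_lit 890462), .ofNat (nat_lit 802466), .ofNat (nat_lit 866995), .ofNat (nat_lit 813354), .ofNat (nat_lit 877883)⟩, ⟨.ofNat (nat_lit 0), .ofNat (nat_lit 0), .ofNat (nat_lit 0), .ofNat (nat_lit 0), .ofNat (nat_lit 0), .ofNat (nat_lit 0), .ofNat (nat_lit 0), .ofNat (nat_lit 0)⟩⟩, []⟩
noncomputable def p022_l38 : Lf2 := ⟨nat_lit 0, nat_lit 10, [nat_lit 0, nat_lit 5, nat_lit 5, nat_lit 20], false, nat_lit 0, nat_lit 0, nat_lit 0, nat_lit 0, ⟨nat_lit 223, nat_lit 777, nat_lit 0, nat_lit 8, nat_lit 335, nat_lit 0, nat_lit 0, nat_lit 0, nat_lit 0, nat_lit 0, nat_lit 0, nat_lit 0, nat_lit 39376631, nat_lit 27623369, nat_lit 0, nat_lit 3388403, true, true⟩,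
 nat_lit 0, nat_lit 0, nat_lit 2059, nat_lit 0, nat_lit 3397, nat_lit 1425, nat_lit 133, nat_lit 0, nat_lit 0, nat_lit 221, nat_lit 0, nat_lit 0, nat_lit 0, nat_lit 0, nat_lit 0, nat_lit 310800, nat_lit 0, nat_lit 0, [(nat_lit 21, [(nat_lit 1, nat_lit 777)])],
 ⟨p022_k23, nat_lit 0, nat_lit 0, nat_lit 165, nat_lit 0, nat_lit 0, [nat_lit 1506126401, nat_lit 2205329600, nat_lit 2553034000], [], [nat_lit 27599006227, nat_lit 28052621930, nat_lit 29391429568, nat_lit 29803708512], nat_lit 0, nat_lit 0, nat_lit 0, nat_lit 0, nat_lit 0, nat_lit 0, [], [nat_lit 6, nat_lit 40, nat_lit 80, nat_lit 80, nat_lit 3, nat_lit 203, nat_lit 0, nat_lit 6]⟩, ⟨p022_k20, nat_lit 0, nat_lit 0, nat_lit 813, nat_lit 0, nat_lit 1582167, [nat_lit 731886000, nat_lit 1393750000, nat_lit 1776864000], [], [nat_lit 7519933228, nat_lit 7551207830, nat_lit 7695190202, nat_lit 7722268841], nat_lit 1271250, nat_lit 1271250,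 nat_lit 1271250, nat_lit 1271250, nat_lit 0, nat_lit 0, [nat_lit 780000, nat_lit 1435000, nat_lit 1271250], [nat_lit 18, nat_lit 40, nat_lit 80, nat_lit 80, nat_lit 2, nat_lit 287, nat_lit 0, nat_lit 8]⟩,
 ⟨nat_lit 3535, nat_lit 3873, ⟨.ofNat (nat_lit 802518), .ofNat (nat_lit 867045), .ofNat (nat_lit 813411), .ofNat (nat_lit 877938), .ofNat (nat_lit 798034), .ofNat (nat_lit 860801), .ofNat (nat_lit 809007), .ofNat (nat_lit 871774)⟩, ⟨.ofNat (nat_lit 0), .ofNat (nat_lit 0), .ofNat (nat_lit 0), .ofNat (nat_lit 0), .ofNat (nat_lit 0), .ofNat (nat_lit 0), .ofNat (nat_lit 0), .ofNat (nat_lit 0)⟩⟩, []⟩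
noncomputable def p022_l39 : Lf2 := ⟨nat_lit 0, nat_lit 10, [nat_lit 0, nat_lit 5, nat_lit 5, nat_lit 20], true, nat_lit 0, nat_lit 0, nat_lit 0, nat_lit 0, ⟨nat_lit 0, nat_lit 1000, nat_lit 0, nat_lit 8, nat_lit 333, nat_lit 0, nat_lit 0, nat_lit 0, nat_lit 0, nat_lit 0, nat_lit 0, nat_lit 0, nat_lit 39582162, nat_lit 27417838, nat_lit 0, nat_lit 3382868, true, true⟩,
 nat_lit 0, nat_lit 0, nat_lit 0, nat_lit 0, nat_lit 3294, nat_lit 0, nat_lit 0, nat_lit 0, nat_lit 0, nat_lit 0, nat_lit 0, nat_lit 0, nat_lit 0, nat_lit 0, nat_lit 0, nat_lit 250000, nat_lit 0, nat_lit 0, [(nat_lit 21, [(nat_lit 0, nat_lit 1000)])],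
 ⟨p022_k30, nat_lit 0, nat_lit 0, nat_lit 150, nat_lit 0, nat_lit 0, [nat_lit 1558400000, nat_lit 1963600000], [], [nat_lit 27835717784, nat_lit 28311149272, nat_lit 29666887535, nat_lit 30115859224], nat_lit 0, nat_lit 0, nat_lit 0, nat_lit 0, nat_lit 0, nat_lit 0, [], [nat_lit 24, nat_lit 40, nat_lit 80, nat_lit 80, nat_lit 33, nat_lit 203, nat_lit 0, nat_lit 7]⟩, C1.Rw.none,
 ⟨nat_lit 3162, nat_lit 3536, ⟨.ofNat (nat_lit 798037), .ofNat (nat_lit 860807), .ofNat (nat_lit 809008), .ofNat (nat_lit 871780), .ofNat (nat_lit 793624), .ofNat (nat_lit 854586), .ofNat (nat_lit 804697), .ofNat (nat_lit 865661)⟩, ⟨.ofNat (nat_lit 0), .ofNat (nat_lit 0), .ofNat (nat_lit 0), .ofNat (nat_lit 0), .ofNat (nat_lit 0), .ofNat (nat_lit 0), .ofNat (nat_lit 0), .ofNat (nat_lit 0)⟩⟩, []⟩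
noncomputable def p022_l40 : Lf2 := ⟨nat_lit 0, nat_lit 10, [nat_lit 0, nat_lit 5, nat_lit 5, nat_lit 20], false, nat_lit 0, nat_lit 0, nat_lit 0, nat_lit 0, ⟨nat_lit 408, nat_lit 592, nat_lit 0, nat_lit 8, nat_lit 343, nat_lit 0, nat_lit 0, nat_lit 0, nat_lit 0, nat_lit 0, nat_lit 0, nat_lit 0, nat_lit 38649620, nat_lit 28350380, nat_lit 0, nat_lit 3406425, true, true⟩,
 nat_lit 0, nat_lit 0, nat_lit 3372, nat_lit 0, nat_lit 3859, nat_lit 2430, nat_lit 0, nat_lit 0, nat_lit 0, nat_lit 409, nat_lit 0, nat_lit 0, nat_lit 0, nat_lit 0, nat_lit 0, nat_lit 592000, nat_lit 0, nat_lit 0, [(nat_lit 18, [(nat_lit 2, nat_lit 592)])],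
 ⟨p022_k8, nat_lit 0, nat_lit 0, nat_lit 162, nat_lit 0, nat_lit 0, [nat_lit 1836561067, nat_lit 2531541334, nat_lit 2287625600], [], [nat_lit 27549478541, nat_lit 28503186223, nat_lit 29524542961, nat_lit 30387525850], nat_lit 0, nat_lit 0, nat_lit 0, nat_lit 0, nat_lit 0, nat_lit 0, [], [nat_lit 6, nat_lit 40, nat_lit 80, nat_lit 80, nat_lit 3, nat_lit 203, nat_lit 0, nat_lit 6]⟩, ⟨p022_k21, nat_lit 0, nat_lit 0, nat_lit 760, nat_lit 0, nat_lit 1453678, [nat_lit 1339056000, nat_lit 2550000000, nat_lit 3250944000], [], [nat_lit 13509847482, nat_lit 13588097718, nat_lit 13909257075, nat_lit 13978572750], nat_lit 1271250, nat_lit 1271250, nat_lit 1271250, nat_lit 1271250, nat_lit 0, nat_lit 0, [nat_lit 780000, nat_lit 1435000, nat_lit 1271250], [nat_lit 18, nat_lit 40, nat_lit 80, nat_lit 80, nat_lit 2, nat_lit 275, nat_lit 0, nat_lit 8]⟩,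
 ⟨nat_lit 3872, nat_lit 4473, ⟨.ofNat (nat_lit 822476), .ofNat (nat_lit 890462), .ofNat (nat_lit 833251), .ofNat (nat_lit 901237), .ofNat (nat_lit 813354), .ofNat (nat_lit 877883), .ofNat (nat_lit 824242), .ofNat (nat_lit 888771)⟩, ⟨.ofNat (nat_lit 0), .ofNat (nat_lit 0), .ofNat (nat_lit 0), .ofNat (nat_lit 0), .ofNat (nat_lit 0), .ofNat (nat_lit 0), .ofNat (nat_lit 0), .ofNat (nat_lit 0)⟩⟩, []⟩
noncomputable def p022_l41 : Lf2 := ⟨nat_lit 0, nat_lit 10, [nat_lit 0, nat_lit 5, nat_lit 5, nat_lit 20], false, nat_lit 0, nat_lit 0, nat_lit 0, nat_lit 0, ⟨nat_lit 243, nat_lit 757, nat_lit 0, nat_lit 8, nat_lit 338, nat_lit 0, nat_lit 0, nat_lit 0, nat_lit 0, nat_lit 0, nat_lit 0, nat_lit 0, nat_lit 39055422, nat_lit 27944578, nat_lit 0, nat_lit 3396664, true, true⟩,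
 nat_lit 0, nat_lit 0, nat_lit 2062, nat_lit 0, nat_lit 3388, nat_lit 1486, nat_lit 136, nat_lit 0, nat_lit 0, nat_lit 227, nat_lit 0, nat_lit 0, nat_lit 0, nat_lit 0, nat_lit 0, nat_lit 302800, nat_lit 0, nat_lit 0, [(nat_lit 21, [(nat_lit 1, nat_lit 757)])],
 ⟨p022_k23, nat_lit 0, nat_lit 0, nat_lit 168, nat_lit 0, nat_lit 0, [nat_lit 1519662401, nat_lit 2269233600, nat_lit 2648194000], [], [nat_lit 27758259305, nat_lit 28664585329, nat_lit 29548892069, nat_lit 30372701417], nat_lit 0, nat_lit 0, nat_lit 0, nat_lit 0, nat_lit 0, nat_lit 0, [], [nat_lit 6, nat_lit 40, nat_lit 80, nat_lit 80, nat_lit 3, nat_lit 203, nat_lit 0, nat_lit 6]⟩, ⟨p022_k21, nat_lit 0, nat_lit 0, nat_lit 858, nat_lit 0, nat_lit 1675558, [nat_lit 797526000, nat_lit 1518750000, nat_lit 1936224000], [], [nat_lit 8187735859, nat_lit 8222353347, nat_lit 8373267844, nat_lit 8403529883], nat_lit 1271250, nat_lit 1271250,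 nat_lit 1271250, nat_lit 1271250, nat_lit 0, nat_lit 0, [nat_lit 780000, nat_lit 1435000, nat_lit 1271250], [nat_lit 18, nat_lit 40, nat_lit 80, nat_lit 80, nat_lit 2, nat_lit 300, nat_lit 0, nat_lit 9]⟩,
 ⟨nat_lit 3162, nat_lit 3873, ⟨.ofNat (nat_lit 813366), .ofNat (nat_lit 877918), .ofNat (nat_lit 824248), .ofNat (nat_lit 888802), .ofNat (nat_lit 804650), .ofNat (nat_lit 865634), .ofNat (nat_lit 815713), .ofNat (nat_lit 876699)⟩, ⟨.ofNat (nat_lit 0), .ofNat (nat_lit 0), .ofNat (nat_lit 0), .ofNat (nat_lit 0), .ofNat (nat_lit 0), .ofNat (nat_lit 0), .ofNat (nat_lit 0), .ofNat (nat_lit 0)⟩⟩, []⟩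
noncomputable def b_N_800_700_0_36 : St := ⟨false, nat_lit 0, nat_lit 1, nat_lit 1, nat_lit 40, nat_lit 320, nat_lit 360, nat_lit 280, nat_lit 320, nat_lit 320, nat_lit 360, nat_lit 0, nat_lit 0, nat_lit 0, nat_lit 0, nat_lit 0, nat_lit 0, nat_lit 40, nat_lit 80, nat_lit 0, nat_lit 0, nat_lit 0, nat_lit 0⟩
theorem d_N_800_700_0_36 (h : EB TB.env) : Dead b_N_800_700_0_36 := chkB_sound0 h (T :=
(.spl (nat_lit 1) (nat_lit 300)
(.spl (nat_lit 0) (nat_lit 340)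
(.spl (nat_lit 1) (nat_lit 290)
(.spl (nat_lit 1) (nat_lit 285)
(.leaf p022_l27)
(.spl (nat_lit 1) (nat_lit 288)
(.leaf p022_l28)
(.leaf p022_l29)))
(.spl (nat_lit 1) (nat_lit 295)
(.leaf p022_l30)
(.leaf p022_l31)))
(.spl (nat_lit 2) (nat_lit 340)
(.leaf p022_l32)
(.spl (nat_lit 0) (nat_lit 350)
(.spl (nat_lit 1) (nat_lit 290)
(.leaf p022_l33)
(.spl (nat_lit 1) (nat_lit 295)
(.leaf p022_l34)
(.leaf p022_l35)))
(.leaf p022_l36))))
(.spl (nat_lit 1) (nat_lit 310)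
(.spl (nat_lit 0) (nat_lit 340)
(.leaf p022_l37)
(.spl (nat_lit 0) (nat_lit 350)
(.leaf p022_l38)
(.leaf p022_l39)))
(.spl (nat_lit 0) (nat_lit 340)
(.leaf p022_l40)
(.leaf p022_l41))))) (by decide +kernel)
noncomputable def p022_l42 : Lf2 := ⟨nat_lit 0, nat_lit 10, [nat_lit 0, nat_lit 5, nat_lit 5, nat_lit 20], false, nat_lit 0, nat_lit 0, nat_lit 0, nat_lit 0, ⟨nat_lit 1000, nat_lit 0, nat_lit 0, nat_lit 0, nat_lit 0, nat_lit 0, nat_lit 0, nat_lit 0, nat_lit 0, nat_lit 0, nat_lit 0, nat_lit 0, nat_lit 0, nat_lit 0, nat_lit 0, nat_lit 0, false, false⟩,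
 nat_lit 0, nat_lit 0, nat_lit 0, nat_lit 0, nat_lit 3984, nat_lit 0, nat_lit 0, nat_lit 0, nat_lit 0, nat_lit 265, nat_lit 0, nat_lit 487, nat_lit 0, nat_lit 0, nat_lit 0, nat_lit 0, nat_lit 0, nat_lit 0, [],
 ⟨p022_k8, nat_lit 0, nat_lit 0, nat_lit 180, nat_lit 0, nat_lit 0, [nat_lit 2032000001, nat_lit 4688000000, nat_lit 6250000000], [], [nat_lit 35696994961, nat_lit 37443753489, nat_lit 37699106881, nat_lit 39300473216], nat_lit 0, nat_lit 0, nat_lit 0, nat_lit 0, nat_lit 0, nat_lit 0, [], [nat_lit 6, nat_lit 40, nat_lit 80, nat_lit 80, nat_lit 3, nat_lit 203, nat_lit 0, nat_lit 6]⟩, ⟨p022_k9, nat_lit 0, nat_lit 0, nat_lit 0, nat_lit 0, nat_lit 1997467, [nat_lit 3282000000, nat_lit 6250000000, nat_lit 9842000000], [], [nat_lit 18941820000, nat_lit 20007400000, nat_lit 20142436000, nat_lit 21273928000], nat_lit 1271250, nat_lit 1271250, nat_lit 1271250, nat_lit 1271250, nat_lit 0, nat_lit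 0, [nat_lit 780000, nat_lit 1435000, nat_lit 1271250], [nat_lit 8, nat_lit 40, nat_lit 80, nat_lit 80]⟩,
 zbF0, []⟩
noncomputable def p022_l43 : Lf2 := ⟨nat_lit 0, nat_lit 10, [nat_lit 0, nat_lit 5, nat_lit 5, nat_lit 20], false, nat_lit 0, nat_lit 0, nat_lit 0, nat_lit 0, ⟨nat_lit 80, nat_lit 920, nat_lit 0, nat_lit 9, nat_lit 358, nat_lit 0, nat_lit 0, nat_lit 0, nat_lit 0, nat_lit 0, nat_lit 0, nat_lit 0, nat_lit 37177414, nat_lit 29822586, nat_lit 0, nat_lit 3435548, true, true⟩,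
 nat_lit 0, nat_lit 0, nat_lit 1000, nat_lit 0, nat_lit 1, nat_lit 636, nat_lit 0, nat_lit 0, nat_lit 310, nat_lit 42, nat_lit 0, nat_lit 0, nat_lit 0, nat_lit 0, nat_lit 0, nat_lit 230000, nat_lit 0, nat_lit 0, [(nat_lit 18, [(nat_lit 0, nat_lit 920)])],
 ⟨p022_k31, nat_lit 0, nat_lit 0, nat_lit 0, nat_lit 0, nat_lit 0, [nat_lit 780128000, nat_lit 1367760001, nat_lit 1894885334, nat_lit 2857040000], [], [nat_lit 20227235860, nat_lit 20789185989, nat_lit 21438670044, nat_lit 21999701178], nat_lit 0, nat_lit 0, nat_lit 0, nat_lit 0, nat_lit 0, nat_lit 0, [], [nat_lit 182, nat_lit 40, nat_lit 80, nat_lit 80]⟩, ⟨p022_k9, nat_lit 0, nat_lit 0, nat_lit 873, nat_lit 0, nat_lit 1569898, [nat_lit 262560000, nat_lit 500000000, nat_lit 787360000], [], [nat_lit 3119563108, nat_lit 3127433194, nat_lit 3170832322, nat_lit 3178761898], nat_lit 1271250, nat_lit 1271250, nat_lit 1271250, nat_lit 1271250,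 nat_lit 0, nat_lit 0, [nat_lit 780000, nat_lit 1435000, nat_lit 1271250], [nat_lit 8, nat_lit 40, nat_lit 80, nat_lit 80, nat_lit 1, nat_lit 306, nat_lit 0, nat_lit 8]⟩,
 ⟨nat_lit 3872, nat_lit 4473, ⟨.ofNat (nat_lit 858139), .ofNat (nat_lit 926124), .ofNat (nat_lit 879688), .ofNat (nat_lit 947674), .ofNat (nat_lit 845220), .ofNat (nat_lit 909748), .ofNat (nat_lit 866995), .ofNat (nat_lit 931525)⟩, ⟨.ofNat (nat_lit 0), .ofNat (nat_lit 0), .ofNat (nat_lit 0), .ofNat (nat_lit 0), .ofNat (nat_lit 0), .ofNat (nat_lit 0), .ofNat (nat_lit 0), .ofNat (nat_lit 0)⟩⟩, [⟨nat_lit 13, nat_lit 85, nat_lit 27, nat_lit 100, nat_lit 95024304⟩]⟩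
noncomputable def p022_l44 : Lf2 := ⟨nat_lit 0, nat_lit 10, [nat_lit 0, nat_lit 5, nat_lit 5, nat_lit 20], true, nat_lit 0, nat_lit 0, nat_lit 0, nat_lit 0, ⟨nat_lit 0, nat_lit 1000, nat_lit 0, nat_lit 9, nat_lit 351, nat_lit 0, nat_lit 0, nat_lit 0, nat_lit 0, nat_lit 0, nat_lit 0, nat_lit 0, nat_lit 37832003, nat_lit 29167997, nat_lit 0, nat_lit 3423812, true, true⟩,
 nat_lit 0, nat_lit 0, nat_lit 0, nat_lit 0, nat_lit 710, nat_lit 0, nat_lit 0, nat_lit 0, nat_lit 225, nat_lit 0, nat_lit 0, nat_lit 0, nat_lit 0, nat_lit 0, nat_lit 0, nat_lit 250000, nat_lit 0, nat_lit 0, [(nat_lit 21, [(nat_lit 0, nat_lit 1000)])],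
 ⟨p022_k32, nat_lit 0, nat_lit 0, nat_lit 0, nat_lit 0, nat_lit 0, [nat_lit 779200000, nat_lit 1202800000, nat_lit 1661200000, nat_lit 2307600000], [], [nat_lit 22662602990, nat_lit 23310658980, nat_lit 23885130995, nat_lit 24560709705], nat_lit 0, nat_lit 0, nat_lit 0, nat_lit 0, nat_lit 0, nat_lit 0, [], [nat_lit 182, nat_lit 40, nat_lit 80, nat_lit 80]⟩, C1.Rw.none,
 ⟨nat_lit 3162, nat_lit 3873, ⟨.ofNat (nat_lit 845258), .ofNat (nat_lit 903327), .ofNat (nat_lit 867032), .ofNat (nat_lit 925121), .ofNat (nat_lit 832432), .ofNat (nat_lit 887290), .ofNat (nat_lit 854567), .ofNat (nat_lit 909444)⟩, ⟨.ofNat (nat_lit 0), .ofNat (nat_lit 0), .ofNat (nat_lit 0), .ofNat (nat_lit 0), .ofNat (nat_lit 0), .ofNat (nat_lit 0), .ofNat (nat_lit 0), .ofNat (nat_lit 0)⟩⟩, [⟨nat_lit 13, nat_lit 82, nat_lit 29, nat_lit 100, nat_lit 152323770⟩]⟩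
noncomputable def p022_l45 : Lf2 := ⟨nat_lit 0, nat_lit 10, [nat_lit 0, nat_lit 5, nat_lit 5, nat_lit 20], false, nat_lit 0, nat_lit 0, nat_lit 0, nat_lit 0, ⟨nat_lit 29, nat_lit 971, nat_lit 0, nat_lit 9, nat_lit 354, nat_lit 0, nat_lit 0, nat_lit 0, nat_lit 0, nat_lit 0, nat_lit 0, nat_lit 0, nat_lit 37602118, nat_lit 29397882, nat_lit 0, nat_lit 3428155, true, true⟩,
 nat_lit 0, nat_lit 0, nat_lit 384, nat_lit 0, nat_lit 5068, nat_lit 244, nat_lit 0, nat_lit 0, nat_lit 0, nat_lit 16, nat_lit 0, nat_lit 0, nat_lit 0, nat_lit 0, nat_lit 0, nat_lit 242750, nat_lit 0, nat_lit 0, [(nat_lit 18, [(nat_lit 0, nat_lit 971)])],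
 ⟨p022_k8, nat_lit 0, nat_lit 0, nat_lit 0, nat_lit 0, nat_lit 0, [nat_lit 1547276800, nat_lit 2241080001, nat_lit 2668952000], [], [nat_lit 29109710153, nat_lit 30126299905, nat_lit 31240510546, nat_lit 32148174844], nat_lit 0, nat_lit 0, nat_lit 0, nat_lit 0, nat_lit 0, nat_lit 0, [], [nat_lit 6, nat_lit 40, nat_lit 80, nat_lit 80]⟩, ⟨p022_k9, nat_lit 0, nat_lit 0, nat_lit 796, nat_lit 0, nat_lit 1414703, [nat_lit 95178000, nat_lit 181250000, nat_lit 285418000], [], [nat_lit 1044517568, nat_lit 1045932749, nat_lit 1073473723, nat_lit 1077404775], nat_lit 1271250, nat_lit 1271250, nat_lit 1271250, nat_lit 1271250, nat_lit 0, nat_lit 0, [nat_lit 780000, nat_lit 1435000, nat_lit 1271250], [nat_lit 8, nat_lit 40, nat_lit 80, nat_lit 80, nat_lit 1, nat_lit 285, nat_lit 0, nat_lit 7]⟩,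
 ⟨nat_lit 3872, nat_lit 4473, ⟨.ofNat (nat_lit 858139), .ofNat (nat_lit 919326), .ofNat (nat_lit 863526), .ofNat (nat_lit 924713), .ofNat (nat_lit 845220), .ofNat (nat_lit 903295), .ofNat (nat_lit 850663), .ofNat (nat_lit 908740)⟩, ⟨.ofNat (nat_lit 0), .ofNat (nat_lit 0), .ofNat (nat_lit 0), .ofNat (nat_lit 0), .ofNat (nat_lit 0), .ofNat (nat_lit 0), .ofNat (nat_lit 0), .ofNat (nat_lit 0)⟩⟩, [⟨nat_lit 13, nat_lit 83, nat_lit 31, nat_lit 100, nat_lit 268519447⟩]⟩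
noncomputable def p022_l46 : Lf2 := ⟨nat_lit 0, nat_lit 10, [nat_lit 0, nat_lit 5, nat_lit 5, nat_lit 20], false, nat_lit 0, nat_lit 0, nat_lit 0, nat_lit 0, ⟨nat_lit 42, nat_lit 958, nat_lit 0, nat_lit 9, nat_lit 357, nat_lit 0, nat_lit 0, nat_lit 0, nat_lit 0, nat_lit 0, nat_lit 0, nat_lit 0, nat_lit 37337814, nat_lit 29662186, nat_lit 0, nat_lit 3432852, true, true⟩,
 nat_lit 0, nat_lit 0, nat_lit 517, nat_lit 0, nat_lit 5071, nat_lit 336, nat_lit 0, nat_lit 0, nat_lit 0, nat_lit 24, nat_lit 0, nat_lit 0, nat_lit 0, nat_lit 0, nat_lit 0, nat_lit 239500, nat_lit 0, nat_lit 0, [(nat_lit 18, [(nat_lit 0, nat_lit 958)])],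
 ⟨p022_k8, nat_lit 0, nat_lit 0, nat_lit 0, nat_lit 0, nat_lit 0, [nat_lit 1553766400, nat_lit 2273840001, nat_lit 2716896000], [], [nat_lit 29189272395, nat_lit 30206131739, nat_lit 31557529769, nat_lit 32452610687], nat_lit 0, nat_lit 0, nat_lit 0, nat_lit 0, nat_lit 0, nat_lit 0, [], [nat_lit 6, nat_lit 40, nat_lit 80, nat_lit 80]⟩, ⟨p022_k27, nat_lit 0, nat_lit 0, nat_lit 784, nat_lit 0, nat_lit 1385945, [nat_lit 137844000, nat_lit 262500000, nat_lit 413364000], [], [nat_lit 1536531119, nat_lit 1537380094, nat_lit 1571269077, nat_lit 1571921732], nat_lit 1271250, nat_lit 1271250, nat_lit 1271250, nat_lit 1271250, nat_lit 0, nat_lit 0, [nat_lit 780000, nat_lit 1435000, nat_lit 1271250], [nat_lit 8, nat_lit 40, nat_lit 80, nat_lit 80, nat_lit 1, nat_lit 282, nat_lit 0, nat_lit 7]⟩,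
 ⟨nat_lit 3872, nat_lit 4473, ⟨.ofNat (nat_lit 863526), .ofNat (nat_lit 931512), .ofNat (nat_lit 865681), .ofNat (nat_lit 933667), .ofNat (nat_lit 850663), .ofNat (nat_lit 915193), .ofNat (nat_lit 852841), .ofNat (nat_lit 917370)⟩, ⟨.ofNat (nat_lit 0), .ofNat (nat_lit 0), .ofNat (nat_lit 0), .ofNat (nat_lit 0), .ofNat (nat_lit 0), .ofNat (nat_lit 0), .ofNat (nat_lit 0), .ofNat (nat_lit 0)⟩⟩, [⟨nat_lit 13, nat_lit 79, nat_lit 36, nat_lit 100, nat_lit 278794244⟩]⟩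
noncomputable def p022_l47 : Lf2 := ⟨nat_lit 0, nat_lit 10, [nat_lit 0, nat_lit 5, nat_lit 5, nat_lit 20], false, nat_lit 0, nat_lit 0, nat_lit 0, nat_lit 0, ⟨nat_lit 70, nat_lit 930, nat_lit 0, nat_lit 9, nat_lit 357, nat_lit 0, nat_lit 0, nat_lit 0, nat_lit 0, nat_lit 0, nat_lit 0, nat_lit 0, nat_lit 37277591, nat_lit 29722409, nat_lit 0, nat_lit 3433878, true, true⟩,
 nat_lit 0, nat_lit 0, nat_lit 846, nat_lit 0, nat_lit 5203, nat_lit 554, nat_lit 0, nat_lit 0, nat_lit 0, nat_lit 33, nat_lit 0, nat_lit 0, nat_lit 0, nat_lit 0, nat_lit 0, nat_lit 232500, nat_lit 0, nat_lit 0, [(nat_lit 18, [(nat_lit 0, nat_lit 930)])],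
 ⟨p022_k8, nat_lit 0, nat_lit 0, nat_lit 0, nat_lit 0, nat_lit 0, [nat_lit 1567744000, nat_lit 2344400001, nat_lit 2820160000], [], [nat_lit 29312859043, nat_lit 30341580435, nat_lit 31711977225, nat_lit 32616411399], nat_lit 0, nat_lit 0, nat_lit 0, nat_lit 0, nat_lit 0, nat_lit 0, [], [nat_lit 6, nat_lit 40, nat_lit 80, nat_lit 80]⟩, ⟨p022_k33, nat_lit 0, nat_lit 0, nat_lit 731, nat_lit 0, nat_lit 1376108, [nat_lit 229740000, nat_lit 437500000, nat_lit 557760000], [], [nat_lit 2524975546, nat_lit 2525917641, nat_lit 2595302799, nat_lit 2596054729], nat_lit 1271250, nat_lit 1271250, nat_lit 1271250, nat_lit 1271250, nat_lit 0, nat_lit 0, [nat_lit 780000, nat_lit 1435000, nat_lit 1271250], [nat_lit 18, nat_lit 40, nat_lit 80, nat_lit 80, nat_lit 2, nat_lit 269, nat_lit 0, nat_lit 8]⟩,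
 ⟨nat_lit 3872, nat_lit 4473, ⟨.ofNat (nat_lit 865681), .ofNat (nat_lit 933667), .ofNat (nat_lit 866759), .ofNat (nat_lit 934744), .ofNat (nat_lit 852841), .ofNat (nat_lit 917370), .ofNat (nat_lit 853930), .ofNat (nat_lit 918459)⟩, ⟨.ofNat (nat_lit 0), .ofNat (nat_lit 0), .ofNat (nat_lit 0), .ofNat (nat_lit 0), .ofNat (nat_lit 0), .ofNat (nat_lit 0), .ofNat (nat_lit 0), .ofNat (nat_lit 0)⟩⟩, [⟨nat_lit 13, nat_lit 79, nat_lit 35, nat_lit 100, nat_lit 276479166⟩]⟩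
noncomputable def p022_l48 : Lf2 := ⟨nat_lit 0, nat_lit 10, [nat_lit 0, nat_lit 5, nat_lit 5, nat_lit 20], false, nat_lit 0, nat_lit 0, nat_lit 0, nat_lit 0, ⟨nat_lit 71, nat_lit 929, nat_lit 0, nat_lit 9, nat_lit 358, nat_lit 0, nat_lit 0, nat_lit 0, nat_lit 0, nat_lit 0, nat_lit 0, nat_lit 0, nat_lit 37237486, nat_lit 29762514, nat_lit 0, nat_lit 3434552, true, true⟩,
 nat_lit 0, nat_lit 0, nat_lit 853, nat_lit 0, nat_lit 5208, nat_lit 561, nat_lit 0, nat_lit 0, nat_lit 0, nat_lit 36, nat_lit 0, nat_lit 0, nat_lit 0, nat_lit 0, nat_lit 0, nat_lit 232250, nat_lit 0, nat_lit 0, [(nat_lit 18, [(nat_lit 0, nat_lit 929)])],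
 ⟨p022_k8, nat_lit 0, nat_lit 0, nat_lit 0, nat_lit 0, nat_lit 0, [nat_lit 1568243201, nat_lit 2346920001, nat_lit 2823848000], [], [nat_lit 29317164113, nat_lit 30346334825, nat_lit 31717451265, nat_lit 32622239729], nat_lit 0, nat_lit 0, nat_lit 0, nat_lit 0, nat_lit 0, nat_lit 0, [], [nat_lit 6, nat_lit 40, nat_lit 80, nat_lit 80]⟩, ⟨p022_k28, nat_lit 0, nat_lit 0, nat_lit 730, nat_lit 0, nat_lit 1374549, [nat_lit 233022000, nat_lit 443750000, nat_lit 565728000], [], [nat_lit 2527014958, nat_lit 2527971017, nat_lit 2604180014, nat_lit 2605063437], nat_lit 1271250, nat_lit 1271250, nat_lit 1271250, nat_lit 1271250, nat_lit 0, nat_lit 0, [nat_lit 780000, nat_lit 1435000, nat_lit 1271250], [nat_lit 18, nat_lit 40, nat_lit 80, nat_lit 80, nat_lit 2, nat_lit 269, nat_lit 0, nat_lit 8]⟩,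
 ⟨nat_lit 3872, nat_lit 4473, ⟨.ofNat (nat_lit 866759), .ofNat (nat_lit 934744), .ofNat (nat_lit 867836), .ofNat (nat_lit 935822), .ofNat (nat_lit 853930), .ofNat (nat_lit 918459), .ofNat (nat_lit 855019), .ofNat (nat_lit 919548)⟩, ⟨.ofNat (nat_lit 0), .ofNat (nat_lit 0), .ofNat (nat_lit 0), .ofNat (nat_lit 0), .ofNat (nat_lit 0), .ofNat (nat_lit 0), .ofNat (nat_lit 0), .ofNat (nat_lit 0)⟩⟩, [⟨nat_lit 13, nat_lit 80, nat_lit 35, nat_lit 100, nat_lit 273535046⟩]⟩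
noncomputable def p022_l49 : Lf2 := ⟨nat_lit 0, nat_lit 10, [nat_lit 0, nat_lit 5, nat_lit 5, nat_lit 20], false, nat_lit 0, nat_lit 0, nat_lit 0, nat_lit 0, ⟨nat_lit 72, nat_lit 928, nat_lit 0, nat_lit 9, nat_lit 358, nat_lit 0, nat_lit 0, nat_lit 0, nat_lit 0, nat_lit 0, nat_lit 0, nat_lit 0, nat_lit 37197424, nat_lit 29802576, nat_lit 0, nat_lit 3435218, true, true⟩,
 nat_lit 0, nat_lit 0, nat_lit 856, nat_lit 0, nat_lit 5213, nat_lit 566, nat_lit 0, nat_lit 0, nat_lit 0, nat_lit 37, nat_lit 0, nat_lit 0, nat_lit 0, nat_lit 0, nat_lit 0, nat_lit 232000, nat_lit 0, nat_lit 0, [(nat_lit 18, [(nat_lit 0, nat_lit 928)])],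
 ⟨p022_k8, nat_lit 0, nat_lit 0, nat_lit 0, nat_lit 0, nat_lit 0, [nat_lit 1568742401, nat_lit 2349440001, nat_lit 2827536000], [], [nat_lit 29321469183, nat_lit 30351089215, nat_lit 31722925305, nat_lit 32628068059], nat_lit 0, nat_lit 0, nat_lit 0, nat_lit 0, nat_lit 0, nat_lit 0, [], [nat_lit 6, nat_lit 40, nat_lit 80, nat_lit 80]⟩, ⟨p022_k34, nat_lit 0, nat_lit 0, nat_lit 729, nat_lit 0, nat_lit 1372989, [nat_lit 236304000, nat_lit 450000000, nat_lit 573696000], [], [nat_lit 2553626101, nat_lit 2554646082, nat_lit 2631985745, nat_lit 2632883546], nat_lit 1271250, nat_lit 1271250, nat_lit 1271250, nat_lit 1271250, nat_lit 0, nat_lit 0, [nat_lit 780000, nat_lit 1435000, nat_lit 1271250], [nat_lit 18, nat_lit 40, nat_lit 80, nat_lit 80, nat_lit 2, nat_lit 269, nat_lit 0, nat_lit 8]⟩,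
 ⟨nat_lit 3872, nat_lit 4473, ⟨.ofNat (nat_lit 867836), .ofNat (nat_lit 935822), .ofNat (nat_lit 868913), .ofNat (nat_lit 936900), .ofNat (nat_lit 855019), .ofNat (nat_lit 919548), .ofNat (nat_lit 856107), .ofNat (nat_lit 920637)⟩, ⟨.ofNat (nat_lit 0), .ofNat (nat_lit 0), .ofNat (nat_lit 0), .ofNat (nat_lit 0), .ofNat (nat_lit 0), .ofNat (nat_lit 0), .ofNat (nat_lit 0), .ofNat (nat_lit 0)⟩⟩, [⟨nat_lit 13, nat_lit 80, nat_lit 35, nat_lit 100, nat_lit 273374030⟩]⟩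
noncomputable def p022_l50 : Lf2 := ⟨nat_lit 0, nat_lit 10, [nat_lit 0, nat_lit 5, nat_lit 5, nat_lit 20], false, nat_lit 0, nat_lit 0, nat_lit 0, nat_lit 0, ⟨nat_lit 1000, nat_lit 0, nat_lit 0, nat_lit 0, nat_lit 0, nat_lit 0, nat_lit 0, nat_lit 0, nat_lit 0, nat_lit 0, nat_lit 0, nat_lit 0, nat_lit 0, nat_lit 0, nat_lit 0, nat_lit 0, false, false⟩,
 nat_lit 0, nat_lit 0, nat_lit 9939, nat_lit 0, nat_lit 9761, nat_lit 6324, nat_lit 0, nat_lit 0, nat_lit 0, nat_lit 650, nat_lit 0, nat_lit 0, nat_lit 0, nat_lit 0, nat_lit 0, nat_lit 0, nat_lit 0, nat_lit 0, [],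
 ⟨p022_k8, nat_lit 0, nat_lit 0, nat_lit 0, nat_lit 0, nat_lit 0, [nat_lit 2032000001, nat_lit 4688000000, nat_lit 6250000000], [], [nat_lit 33351588054, nat_lit 34070748806, nat_lit 36816339288, nat_lit 37430041757], nat_lit 0, nat_lit 0, nat_lit 0, nat_lit 0, nat_lit 0, nat_lit 0, [], [nat_lit 6, nat_lit 40, nat_lit 80, nat_lit 80]⟩, ⟨p022_k9, nat_lit 0, nat_lit 0, nat_lit 622, nat_lit 0, nat_lit 995844, [nat_lit 3282000000, nat_lit 6250000000, nat_lit 9842000000], [], [nat_lit 42821590290, nat_lit 42972437782, nat_lit 43942218274, nat_lit 44088481982], nat_lit 1271250, nat_lit 1271250, nat_lit 1271250, nat_lit 1271250, nat_lit 0, nat_lit 0, [nat_lit 780000, nat_lit 1435000, nat_lit 1271250], [nat_lit 8, nat_lit 40, nat_lit 80, nat_lit 80, nat_lit 1, nat_lit 242, nat_lit 0, nat_lit 6]⟩,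
 zbF0, [⟨nat_lit 13, nat_lit 86, nat_lit 26, nat_lit 100, nat_lit 185459682⟩]⟩
noncomputable def p022_l51 : Lf2 := ⟨nat_lit 0, nat_lit 10, [nat_lit 0, nat_lit 5, nat_lit 5, nat_lit 20], false, nat_lit 0, nat_lit 0, nat_lit 0, nat_lit 0, ⟨nat_lit 1000, nat_lit 0, nat_lit 0, nat_lit 0, nat_lit 0, nat_lit 0, nat_lit 0, nat_lit 0, nat_lit 0, nat_lit 0, nat_lit 0, nat_lit 0, nat_lit 0, nat_lit 0, nat_lit 0, nat_lit 0, false, false⟩,
 nat_lit 0, nat_lit 0, nat_lit 10322, nat_lit 0, nat_lit 5915, nat_lit 6568, nat_lit 756, nat_lit 0, nat_lit 0, nat_lit 1095, nat_lit 0, nat_lit 0, nat_lit 0, nat_lit 0, nat_lit 0, nat_lit 0, nat_lit 0, nat_lit 0, [],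
 ⟨p022_k35, nat_lit 0, nat_lit 0, nat_lit 0, nat_lit 0, nat_lit 0, [nat_lit 2032000001, nat_lit 3282000000, nat_lit 6250000000], [], [nat_lit 30622179870, nat_lit 31132256300, nat_lit 32723034355, nat_lit 33177266021], nat_lit 0, nat_lit 0, nat_lit 0, nat_lit 0, nat_lit 0, nat_lit 0, [], [nat_lit 85, nat_lit 40, nat_lit 80, nat_lit 80]⟩, ⟨p022_k36, nat_lit 0, nat_lit 0, nat_lit 678, nat_lit 0, nat_lit 1122760, [nat_lit 3282000000, nat_lit 4688000000, nat_lit 9842000000], [], [nat_lit 35725271998, nat_lit 35870642582, nat_lit 36630581307, nat_lit 36755145977], nat_lit 1271250, nat_lit 1271250, nat_lit 1271250, nat_lit 1271250, nat_lit 0, nat_lit 0, [nat_lit 780000, nat_lit 1100000, nat_lit 2127500], [nat_lit 42, nat_lit 40, nat_lit 80, nat_lit 80, nat_lit 13, nat_lit 256, nat_lit 0, nat_lit 7]⟩,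
 zbF0, [⟨nat_lit 13, nat_lit 82, nat_lit 33, nat_lit 100, nat_lit 11806343⟩]⟩
noncomputable def p022_l52 : Lf2 := ⟨nat_lit 0, nat_lit 10, [nat_lit 0, nat_lit 5, nat_lit 5, nat_lit 20], false, nat_lit 0, nat_lit 0, nat_lit 0, nat_lit 0, ⟨nat_lit 299, nat_lit 701, nat_lit 0, nat_lit 9, nat_lit 362, nat_lit 0, nat_lit 0, nat_lit 0, nat_lit 0, nat_lit 0, nat_lit 0, nat_lit 0, nat_lit 36844305, nat_lit 30155695, nat_lit 0, nat_lit 3440778, true, true⟩,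
 nat_lit 0, nat_lit 0, nat_lit 3124, nat_lit 0, nat_lit 3519, nat_lit 2074, nat_lit 464, nat_lit 0, nat_lit 0, nat_lit 306, nat_lit 0, nat_lit 0, nat_lit 0, nat_lit 0, nat_lit 0, nat_lit 280400, nat_lit 0, nat_lit 0, [(nat_lit 18, [(nat_lit 1, nat_lit 701)])],
 ⟨p022_k37, nat_lit 0, nat_lit 0, nat_lit 0, nat_lit 0, nat_lit 0, [nat_lit 1558124001, nat_lit 2207413734, nat_lit 3243270800], [], [nat_lit 28334507027, nat_lit 28728564256, nat_lit 30305133782, nat_lit 30755529854], nat_lit 0, nat_lit 0, nat_lit 0, nat_lit 0, nat_lit 0, nat_lit 0, [], [nat_lit 85, nat_lit 40, nat_lit 80, nat_lit 80]⟩, ⟨p022_k38, nat_lit 0, nat_lit 0, nat_lit 723, nat_lit 0, nat_lit 1356064, [nat_lit 981318000, nat_lit 1401712000, nat_lit 2382432000], [], [nat_lit 9389902890, nat_lit 9435724361, nat_lit 9726838946, nat_lit 9774367078], nat_lit 1271250, nat_lit 1271250, nat_lit 1271250, nat_lit 1271250, nat_lit 0,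 nat_lit 0, [nat_lit 780000, nat_lit 1100000, nat_lit 1785000], [nat_lit 36, nat_lit 40, nat_lit 80, nat_lit 80, nat_lit 7, nat_lit 269, nat_lit 0, nat_lit 8]⟩,
 ⟨nat_lit 4183, nat_lit 4473, ⟨.ofNat (nat_lit 868947), .ofNat (nat_lit 936926), .ofNat (nat_lit 879728), .ofNat (nat_lit 947707), .ofNat (nat_lit 862508), .ofNat (nat_lit 928764), .ofNat (nat_lit 873339), .ofNat (nat_lit 939596)⟩, ⟨.ofNat (nat_lit 0), .ofNat (nat_lit 0), .ofNat (nat_lit 0), .ofNat (nat_lit 0), .ofNat (nat_lit 0), .ofNat (nat_lit 0), .ofNat (nat_lit 0), .ofNat (nat_lit 0)⟩⟩, [⟨nat_lit 13, nat_lit 89, nat_lit 20, nat_lit 100, nat_lit 141744369⟩]⟩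
noncomputable def p022_l53 : Lf2 := ⟨nat_lit 0, nat_lit 10, [nat_lit 0, nat_lit 5, nat_lit 5, nat_lit 20], false, nat_lit 0, nat_lit 0, nat_lit 0, nat_lit 0, ⟨nat_lit 274, nat_lit 726, nat_lit 0, nat_lit 9, nat_lit 359, nat_lit 0, nat_lit 0, nat_lit 0, nat_lit 0, nat_lit 0, nat_lit 0, nat_lit 0, nat_lit 37110329, nat_lit 29889671, nat_lit 0, nat_lit 3436642, true, true⟩,
 nat_lit 0, nat_lit 0, nat_lit 2955, nat_lit 0, nat_lit 3493, nat_lit 1962, nat_lit 539, nat_lit 0, nat_lit 0, nat_lit 291, nat_lit 0, nat_lit 0, nat_lit 0, nat_lit 0, nat_lit 0, nat_lit 181500, nat_lit 0, nat_lit 0, [(nat_lit 18, [(nat_lit 0, nat_lit 726)])],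
 ⟨p022_k35, nat_lit 0, nat_lit 0, nat_lit 0, nat_lit 0, nat_lit 0, [nat_lit 1669580800, nat_lit 2187385601, nat_lit 3572512000], [], [nat_lit 28329129835, nat_lit 28722222698, nat_lit 30097662025, nat_lit 30504053142], nat_lit 0, nat_lit 0, nat_lit 0, nat_lit 0, nat_lit 0, nat_lit 0, [], [nat_lit 85, nat_lit 40, nat_lit 80, nat_lit 80]⟩, ⟨p022_k38, nat_lit 0, nat_lit 0, nat_lit 767, nat_lit 0, nat_lit 1477968, [nat_lit 899268000, nat_lit 1284512000, nat_lit 2183232000], [], [nat_lit 8408856064, nat_lit 8448934152, nat_lit 8674811962, nat_lit 8708425052], nat_lit 1271250, nat_lit 1271250, nat_lit 1271250, nat_lit 1271250, nat_lit 0, nat_lit 0, [nat_lit 780000, nat_lit 1100000, nat_lit 1785000], [nat_lit 36, nat_lit 40, nat_lit 80, nat_lit 80, nat_lit 7, nat_lit 280, nat_lit 0, nat_lit 8]⟩,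
 ⟨nat_lit 3872, nat_lit 4184, ⟨.ofNat (nat_lit 862512), .ofNat (nat_lit 928771), .ofNat (nat_lit 873343), .ofNat (nat_lit 939602), .ofNat (nat_lit 856145), .ofNat (nat_lit 920670), .ofNat (nat_lit 867040), .ofNat (nat_lit 931565)⟩, ⟨.ofNat (nat_lit 0), .ofNat (nat_lit 0), .ofNat (nat_lit 0), .ofNat (nat_lit 0), .ofNat (nat_lit 0), .ofNat (nat_lit 0), .ofNat (nat_lit 0), .ofNat (nat_lit 0)⟩⟩, [⟨nat_lit 13, nat_lit 84, nat_lit 28, nat_lit 100, nat_lit 133088400⟩]⟩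
noncomputable def p022_l54 : Lf2 := ⟨nat_lit 0, nat_lit 10, [nat_lit 0, nat_lit 5, nat_lit 5, nat_lit 20], false, nat_lit 0, nat_lit 0, nat_lit 0, nat_lit 0, ⟨nat_lit 106, nat_lit 894, nat_lit 0, nat_lit 9, nat_lit 348, nat_lit 0, nat_lit 0, nat_lit 0, nat_lit 0, nat_lit 0, nat_lit 0, nat_lit 0, nat_lit 38100354, nat_lit 28899646, nat_lit 0, nat_lit 3418441, true, true⟩,
 nat_lit 0, nat_lit 0, nat_lit 1357, nat_lit 0, nat_lit 4384, nat_lit 863, nat_lit 0, nat_lit 0, nat_lit 0, nat_lit 59, nat_lit 0, nat_lit 0, nat_lit 0, nat_lit 0, nat_lit 0, nat_lit 357600, nat_lit 0, nat_lit 0, [(nat_lit 21, [(nat_lit 1, nat_lit 894)])],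
 ⟨p022_k23, nat_lit 0, nat_lit 0, nat_lit 0, nat_lit 0, nat_lit 0, [nat_lit 1426940800, nat_lit 1831491200, nat_lit 1996348000], [], [nat_lit 29242960952, nat_lit 29481741646, nat_lit 30922096626, nat_lit 31139133059], nat_lit 0, nat_lit 0, nat_lit 0, nat_lit 0, nat_lit 0, nat_lit 0, [], [nat_lit 6, nat_lit 40, nat_lit 80, nat_lit 80]⟩, ⟨p022_k9, nat_lit 0, nat_lit 0, nat_lit 853, nat_lit 0, nat_lit 1515847, [nat_lit 347892000, nat_lit 662500000, nat_lit 1043252000], [], [nat_lit 3986478647, nat_lit 3988690744, nat_lit 4056815268, nat_lit 4059388292], nat_lit 1271250, nat_lit 1271250, nat_lit 1271250, nat_lit 1271250, nat_lit 0, nat_lit 0, [nat_lit 780000, nat_lit 1435000, nat_lit 1271250], [nat_lit 8, nat_lit 40, nat_lit 80, nat_lit 80, nat_lit 1, nat_lit 298, nat_lit 0, nat_lit 8]⟩,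
 ⟨nat_lit 3708, nat_lit 3873, ⟨.ofNat (nat_lit 845257), .ofNat (nat_lit 896875), .ofNat (nat_lit 848526), .ofNat (nat_lit 900144), .ofNat (nat_lit 842055), .ofNat (nat_lit 892972), .ofNat (nat_lit 845335), .ofNat (nat_lit 896252)⟩, ⟨.ofNat (nat_lit 0), .ofNat (nat_lit 0), .ofNat (nat_lit 0), .ofNat (nat_lit 0), .ofNat (nat_lit 0), .ofNat (nat_lit 0), .ofNat (nat_lit 0), .ofNat (nat_lit 0)⟩⟩, [⟨nat_lit 13, nat_lit 75, nat_lit 42, nat_lit 100, nat_lit 252292756⟩]⟩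
noncomputable def p022_l55 : Lf2 := ⟨nat_lit 0, nat_lit 10, [nat_lit 0, nat_lit 5, nat_lit 5, nat_lit 20], false, nat_lit 0, nat_lit 0, nat_lit 0, nat_lit 0, ⟨nat_lit 49, nat_lit 951, nat_lit 0, nat_lit 9, nat_lit 346, nat_lit 0, nat_lit 0, nat_lit 0, nat_lit 0, nat_lit 0, nat_lit 0, nat_lit 0, nat_lit 38354187, nat_lit 28645813, nat_lit 0, nat_lit 3413059, true, true⟩,
 nat_lit 0, nat_lit 0, nat_lit 629, nat_lit 0, nat_lit 3910, nat_lit 400, nat_lit 157, nat_lit 0, nat_lit 0, nat_lit 26, nat_lit 0, nat_lit 0, nat_lit 0, nat_lit 0, nat_lit 0, nat_lit 237750, nat_lit 0, nat_lit 0, [(nat_lit 21, [(nat_lit 0, nat_lit 951)])],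
 ⟨p022_k39, nat_lit 0, nat_lit 0, nat_lit 0, nat_lit 0, nat_lit 0, [nat_lit 1581606401, nat_lit 2270558001, nat_lit 2347096000], [], [nat_lit 28933703541, nat_lit 29161835351, nat_lit 30314230917, nat_lit 30526084930], nat_lit 0, nat_lit 0, nat_lit 0, nat_lit 0, nat_lit 0, nat_lit 0, [], [nat_lit 6, nat_lit 40, nat_lit 80, nat_lit 80]⟩, ⟨p022_k9, nat_lit 0, nat_lit 0, nat_lit 880, nat_lit 0, nat_lit 1587592, [nat_lit 160818000, nat_lit 306250000, nat_lit 482258000], [], [nat_lit 1844595388, nat_lit 1845590659, nat_lit 1870664317, nat_lit 1873883114], nat_lit 1271250, nat_lit 1271250, nat_lit 1271250, nat_lit 1271250, nat_lit 0, nat_lit 0, [nat_lit 780000, nat_lit 1435000, nat_lit 1271250], [nat_lit 8, nat_lit 40, nat_lit 80, nat_lit 80, nat_lit 1, nat_lit 304, nat_lit 0, nat_lit 8]⟩,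
 ⟨nat_lit 3535, nat_lit 3709, ⟨.ofNat (nat_lit 842055), .ofNat (nat_lit 886608), .ofNat (nat_lit 845336), .ofNat (nat_lit 889888), .ofNat (nat_lit 838855), .ofNat (nat_lit 882788), .ofNat (nat_lit 842147), .ofNat (nat_lit 886081)⟩, ⟨.ofNat (nat_lit 0), .ofNat (nat_lit 0), .ofNat (nat_lit 0), .ofNat (nat_lit 0), .ofNat (nat_lit 0), .ofNat (nat_lit 0), .ofNat (nat_lit 0), .ofNat (nat_lit 0)⟩⟩, [⟨nat_lit 13, nat_lit 74, nat_lit 44, nat_lit 100, nat_lit 257271259⟩]⟩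
noncomputable def p022_l56 : Lf2 := ⟨nat_lit 0, nat_lit 10, [nat_lit 0, nat_lit 5, nat_lit 5, nat_lit 20], false, nat_lit 0, nat_lit 0, nat_lit 0, nat_lit 0, ⟨nat_lit 107, nat_lit 893, nat_lit 0, nat_lit 9, nat_lit 349, nat_lit 0, nat_lit 0, nat_lit 0, nat_lit 0, nat_lit 0, nat_lit 0, nat_lit 0, nat_lit 37997490, nat_lit 29002510, nat_lit 0, nat_lit 3420538, true, true⟩,
 nat_lit 0, nat_lit 0, nat_lit 1398, nat_lit 0, nat_lit 4395, nat_lit 901, nat_lit 0, nat_lit 0, nat_lit 0, nat_lit 73, nat_lit 0, nat_lit 0, nat_lit 0, nat_lit 0, nat_lit 0, nat_lit 357200, nat_lit 0, nat_lit 0, [(nat_lit 21, [(nat_lit 1, nat_lit 893)])],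
 ⟨p022_k23, nat_lit 0, nat_lit 0, nat_lit 0, nat_lit 0, nat_lit 0, [nat_lit 1427617601, nat_lit 1834686401, nat_lit 2001106000], [], [nat_lit 29247716211, nat_lit 29486744031, nat_lit 30928742020, nat_lit 31146926280], nat_lit 0, nat_lit 0, nat_lit 0, nat_lit 0, nat_lit 0, nat_lit 0, [], [nat_lit 6, nat_lit 40, nat_lit 80, nat_lit 80]⟩, ⟨p022_k40, nat_lit 0, nat_lit 0, nat_lit 847, nat_lit 0, nat_lit 1501548, [nat_lit 351174000, nat_lit 668750000, nat_lit 1053094000], [], [nat_lit 3718697655, nat_lit 3720785051, nat_lit 3800515186, nat_lit 3806434593], nat_lit 1271250, nat_lit 1271250, nat_lit 1271250, nat_lit 1271250, nat_lit 0, nat_lit 0, [nat_lit 780000, nat_lit 1435000, nat_lit 1271250], [nat_lit 8, nat_lit 40, nat_lit 80, nat_lit 80, nat_lit 1, nat_lit 297, nat_lit 0, nat_lit 8]⟩,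
 ⟨nat_lit 3708, nat_lit 3873, ⟨.ofNat (nat_lit 848526), .ofNat (nat_lit 900144), .ofNat (nat_lit 850705), .ofNat (nat_lit 902323), .ofNat (nat_lit 845335), .ofNat (nat_lit 896252), .ofNat (nat_lit 847522), .ofNat (nat_lit 898439)⟩, ⟨.ofNat (nat_lit 0), .ofNat (nat_lit 0), .ofNat (nat_lit 0), .ofNat (nat_lit 0), .ofNat (nat_lit 0), .ofNat (nat_lit 0), .ofNat (nat_lit 0), .ofNat (nat_lit 0)⟩⟩, [⟨nat_lit 13, nat_lit 76, nat_lit 41, nat_lit 100, nat_lit 248249970⟩]⟩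
noncomputable def p022_l57 : Lf2 := ⟨nat_lit 0, nat_lit 10, [nat_lit 0, nat_lit 5, nat_lit 5, nat_lit 20], false, nat_lit 0, nat_lit 0, nat_lit 0, nat_lit 0, ⟨nat_lit 120, nat_lit 880, nat_lit 0, nat_lit 9, nat_lit 347, nat_lit 0, nat_lit 0, nat_lit 0, nat_lit 0, nat_lit 0, nat_lit 0, nat_lit 0, nat_lit 38250370, nat_lit 28749630, nat_lit 0, nat_lit 3415295, true, true⟩,
 nat_lit 0, nat_lit 0, nat_lit 1498, nat_lit 0, nat_lit 4024, nat_lit 965, nat_lit 188, nat_lit 0, nat_lit 0, nat_lit 67, nat_lit 0, nat_lit 0, nat_lit 0, nat_lit 0, nat_lit 0, nat_lit 220000, nat_lit 0, nat_lit 0, [(nat_lit 21, [(nat_lit 0, nat_lit 880)])],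
 ⟨p022_k39, nat_lit 0, nat_lit 0, nat_lit 0, nat_lit 0, nat_lit 0, [nat_lit 1615232000, nat_lit 2451040001, nat_lit 2638480000], [], [nat_lit 29085719607, nat_lit 29316412541, nat_lit 30483007896, nat_lit 30695871979], nat_lit 0, nat_lit 0, nat_lit 0, nat_lit 0, nat_lit 0, nat_lit 0, [], [nat_lit 6, nat_lit 40, nat_lit 80, nat_lit 80]⟩, ⟨p022_k40, nat_lit 0, nat_lit 0, nat_lit 873, nat_lit 0, nat_lit 1571694, [nat_lit 393840000, nat_lit 750000000, nat_lit 1181040000], [], [nat_lit 4463962192, nat_lit 4465620693, nat_lit 4531915876, nat_lit 4533938811], nat_lit 1271250, nat_lit 1271250, nat_lit 1271250, nat_lit 1271250, nat_lit 0, nat_lit 0, [nat_lit 780000, nat_lit 1435000, nat_lit 1271250], [nat_lit 8, nat_lit 40, nat_lit 80, nat_lit 80, nat_lit 1, nat_lit 303, nat_lit 0, nat_lit 8]⟩,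
 ⟨nat_lit 3535, nat_lit 3709, ⟨.ofNat (nat_lit 845336), .ofNat (nat_lit 889888), .ofNat (nat_lit 847522), .ofNat (nat_lit 892075), .ofNat (nat_lit 842147), .ofNat (nat_lit 886081), .ofNat (nat_lit 844343), .ofNat (nat_lit 888276)⟩, ⟨.ofNat (nat_lit 0), .ofNat (nat_lit 0), .ofNat (nat_lit 0), .ofNat (nat_lit 0), .ofNat (nat_lit 0), .ofNat (nat_lit 0), .ofNat (nat_lit 0), .ofNat (nat_lit 0)⟩⟩, [⟨nat_lit 13, nat_lit 73, nat_lit 45, nat_lit 100, nat_lit 241976479⟩]⟩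
noncomputable def p022_l58 : Lf2 := ⟨nat_lit 0, nat_lit 10, [nat_lit 0, nat_lit 5, nat_lit 5, nat_lit 20], true, nat_lit 0, nat_lit 0, nat_lit 0, nat_lit 0, ⟨nat_lit 0, nat_lit 1000, nat_lit 0, nat_lit 9, nat_lit 343, nat_lit 0, nat_lit 0, nat_lit 0, nat_lit 0, nat_lit 0, nat_lit 0, nat_lit 0, nat_lit 38630614, nat_lit 28369386, nat_lit 0, nat_lit 3406864, true, true⟩,
 nat_lit 0, nat_lit 0, nat_lit 0, nat_lit 0, nat_lit 4506, nat_lit 0, nat_lit 0, nat_lit 0, nat_lit 0, nat_lit 0, nat_lit 0, nat_lit 0, nat_lit 0, nat_lit 0, nat_lit 0, nat_lit 250000, nat_lit 0, nat_lit 0, [(nat_lit 21, [(nat_lit 0, nat_lit 1000)])],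
 ⟨p022_k30, nat_lit 0, nat_lit 0, nat_lit 0, nat_lit 0, nat_lit 0, [nat_lit 1558400000, nat_lit 1963600000], [], [nat_lit 29348721196, nat_lit 29863440772, nat_lit 30670159027, nat_lit 31249079855], nat_lit 0, nat_lit 0, nat_lit 0, nat_lit 0, nat_lit 0, nat_lit 0, [], [nat_lit 24, nat_lit 40, nat_lit 80, nat_lit 80]⟩, C1.Rw.none,
 ⟨nat_lit 3162, nat_lit 3536, ⟨.ofNat (nat_lit 838855), .ofNat (nat_lit 876512), .ofNat (nat_lit 844343), .ofNat (nat_lit 882000), .ofNat (nat_lit 832432), .ofNat (nat_lit 869004), .ofNat (nat_lit 837970), .ofNat (nat_lit 874542)⟩, ⟨.ofNat (nat_lit 0), .ofNat (nat_lit 0), .ofNat (nat_lit 0), .ofNat (nat_lit 0), .ofNat (nat_lit 0), .ofNat (nat_lit 0), .ofNat (nat_lit 0), .ofNat (nat_lit 0)⟩⟩, [⟨nat_lit 13, nat_lit 73, nat_lit 44, nat_lit 100, nat_lit 325746410⟩]⟩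
noncomputable def p022_l59 : Lf2 := ⟨nat_lit 0, nat_lit 10, [nat_lit 0, nat_lit 5, nat_lit 5, nat_lit 20], false, nat_lit 0, nat_lit 0, nat_lit 0, nat_lit 0, ⟨nat_lit 205, nat_lit 795, nat_lit 0, nat_lit 9, nat_lit 350, nat_lit 0, nat_lit 0, nat_lit 0, nat_lit 0, nat_lit 0, nat_lit 0, nat_lit 0, nat_lit 37920061, nat_lit 29079939, nat_lit 0, nat_lit 3422086, true, true⟩,
 nat_lit 0, nat_lit 0, nat_lit 2191, nat_lit 0, nat_lit 3674, nat_lit 1424, nat_lit 328, nat_lit 0, nat_lit 0, nat_lit 215, nat_lit 0, nat_lit 0, nat_lit 0, nat_lit 0, nat_lit 0, nat_lit 198750, nat_lit 0, nat_lit 0, [(nat_lit 21, [(nat_lit 0, nat_lit 795)])],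
 ⟨p022_k41, nat_lit 0, nat_lit 0, nat_lit 0, nat_lit 0, nat_lit 0, [nat_lit 1229623500, nat_lit 1663333500, nat_lit 2823217500], [], [nat_lit 28322786476, nat_lit 28769266334, nat_lit 29932224501, nat_lit 30345117739], nat_lit 0, nat_lit 0, nat_lit 0, nat_lit 0, nat_lit 0, nat_lit 0, [], [nat_lit 236, nat_lit 40, nat_lit 20, nat_lit 40]⟩, ⟨p022_k42, nat_lit 0, nat_lit 0, nat_lit 876, nat_lit 0, nat_lit 1585673, [nat_lit 672810000, nat_lit 961040000, nat_lit 2017610000], [], [nat_lit 7017418460, nat_lit 7028027193, nat_lit 7142403297, nat_lit 7159548806], nat_lit 1271250, nat_lit 1271250, nat_lit 1271250, nat_lit 1271250, nat_lit 0, nat_lit 0, [nat_lit 780000, nat_lit 1100000, nat_lit 2127500], [nat_lit 42, nat_lit 40, nat_lit 80, nat_lit 80, nat_lit 13, nat_lit 305, nat_lit 0, nat_lit 8]⟩,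
 ⟨nat_lit 3535, nat_lit 3873, ⟨.ofNat (nat_lit 850704), .ofNat (nat_lit 902323), .ofNat (nat_lit 856151), .ofNat (nat_lit 907772), .ofNat (nat_lit 844341), .ofNat (nat_lit 894552), .ofNat (nat_lit 849828), .ofNat (nat_lit 900040)⟩, ⟨.ofNat (nat_lit 0), .ofNat (nat_lit 0), .ofNat (nat_lit 0), .ofNat (nat_lit 0), .ofNat (nat_lit 0), .ofNat (nat_lit 0), .ofNat (nat_lit 0), .ofNat (nat_lit 0)⟩⟩, [⟨nat_lit 13, nat_lit 73, nat_lit 44, nat_lit 100, nat_lit 209046036⟩]⟩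
noncomputable def p022_l60 : Lf2 := ⟨nat_lit 0, nat_lit 10, [nat_lit 0, nat_lit 5, nat_lit 5, nat_lit 20], true, nat_lit 0, nat_lit 0, nat_lit 0, nat_lit 0, ⟨nat_lit 0, nat_lit 1000, nat_lit 0, nat_lit 9, nat_lit 346, nat_lit 0, nat_lit 0, nat_lit 0, nat_lit 0, nat_lit 0, nat_lit 0, nat_lit 0, nat_lit 38303225, nat_lit 28696775, nat_lit 0, nat_lit 3414163, true, true⟩,
 nat_lit 0, nat_lit 0, nat_lit 0, nat_lit 0, nat_lit 4451, nat_lit 0, nat_lit 0, nat_lit 0, nat_lit 0, nat_lit 0, nat_lit 0, nat_lit 0, nat_lit 0, nat_lit 0, nat_lit 0, nat_lit 250000, nat_lit 0, nat_lit 0, [(nat_lit 21, [(nat_lit 0, nat_lit 1000)])],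
 ⟨p022_k30, nat_lit 0, nat_lit 0, nat_lit 0, nat_lit 0, nat_lit 0, [nat_lit 1558400000, nat_lit 1963600000], [], [nat_lit 29357198566, nat_lit 29869162862, nat_lit 30890134071, nat_lit 31458220879], nat_lit 0, nat_lit 0, nat_lit 0, nat_lit 0, nat_lit 0, nat_lit 0, [], [nat_lit 24, nat_lit 40, nat_lit 80, nat_lit 80]⟩, C1.Rw.none,
 ⟨nat_lit 3162, nat_lit 3536, ⟨.ofNat (nat_lit 844343), .ofNat (nat_lit 888276), .ofNat (nat_lit 849831), .ofNat (nat_lit 893764), .ofNat (nat_lit 837970), .ofNat (nat_lit 880638), .ofNat (nat_lit 843509), .ofNat (nat_lit 886176)⟩, ⟨.ofNat (nat_lit 0), .ofNat (nat_lit 0), .ofNat (nat_lit 0), .ofNat (nat_lit 0), .ofNat (nat_lit 0), .ofNat (nat_lit 0), .ofNat (nat_lit 0), .ofNat (nat_lit 0)⟩⟩, [⟨nat_lit 13, nat_lit 74, nat_lit 42, nat_lit 100, nat_lit 318974594⟩]⟩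
noncomputable def p022_l61 : Lf2 := ⟨nat_lit 0, nat_lit 10, [nat_lit 0, nat_lit 5, nat_lit 5, nat_lit 20], false, nat_lit 0, nat_lit 0, nat_lit 0, nat_lit 0, ⟨nat_lit 229, nat_lit 771, nat_lit 0, nat_lit 9, nat_lit 355, nat_lit 0, nat_lit 0, nat_lit 0, nat_lit 0, nat_lit 0, nat_lit 0, nat_lit 0, nat_lit 37494246, nat_lit 29505754, nat_lit 0, nat_lit 3430110, true, true⟩,
 nat_lit 0, nat_lit 0, nat_lit 2443, nat_lit 0, nat_lit 3305, nat_lit 1622, nat_lit 310, nat_lit 0, nat_lit 0, nat_lit 216, nat_lit 0, nat_lit 0, nat_lit 0, nat_lit 0, nat_lit 0, nat_lit 308400, nat_lit 0, nat_lit 0, [(nat_lit 21, [(nat_lit 1, nat_lit 771)])],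
 ⟨p022_k43, nat_lit 0, nat_lit 0, nat_lit 0, nat_lit 0, nat_lit 0, [nat_lit 1510187201, nat_lit 1867369200, nat_lit 2581582000], [], [nat_lit 28448613181, nat_lit 28834732936, nat_lit 29958753340, nat_lit 30332999290], nat_lit 0, nat_lit 0, nat_lit 0, nat_lit 0, nat_lit 0, nat_lit 0, [], [nat_lit 85, nat_lit 40, nat_lit 80, nat_lit 80]⟩, ⟨p022_k38, nat_lit 0, nat_lit 0, nat_lit 823, nat_lit 0, nat_lit 1606127, [nat_lit 751578000, nat_lit 1073552000, nat_lit 1824672000], [], [nat_lit 7325544084, nat_lit 7347882121, nat_lit 7493288625, nat_lit 7517222106], nat_lit 1271250, nat_lit 1271250, nat_lit 1271250, nat_lit 1271250, nat_lit 0, nat_lit 0, [nat_lit 780000, nat_lit 1100000, nat_lit 1785000], [nat_lit 36, nat_lit 40, nat_lit 80, nat_lit 80, nat_lit 7, nat_lit 293, nat_lit 0, nat_lit 9]⟩,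
 ⟨nat_lit 3535, nat_lit 3873, ⟨.ofNat (nat_lit 856151), .ofNat (nat_lit 914224), .ofNat (nat_lit 867045), .ofNat (nat_lit 925119), .ofNat (nat_lit 849828), .ofNat (nat_lit 906316), .ofNat (nat_lit 860801), .ofNat (nat_lit 917291)⟩, ⟨.ofNat (nat_lit 0), .ofNat (nat_lit 0), .ofNat (nat_lit 0), .ofNat (nat_lit 0), .ofNat (nat_lit 0), .ofNat (nat_lit 0), .ofNat (nat_lit 0), .ofNat (nat_lit 0)⟩⟩, [⟨nat_lit 13, nat_lit 78, nat_lit 35, nat_lit 100, nat_lit 139499040⟩]⟩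
noncomputable def p022_l62 : Lf2 := ⟨nat_lit 0, nat_lit 10, [nat_lit 0, nat_lit 5, nat_lit 5, nat_lit 20], true, nat_lit 0, nat_lit 0, nat_lit 0, nat_lit 0, ⟨nat_lit 0, nat_lit 1000, nat_lit 0, nat_lit 9, nat_lit 351, nat_lit 0, nat_lit 0, nat_lit 0, nat_lit 0, nat_lit 0, nat_lit 0, nat_lit 0, nat_lit 37874513, nat_lit 29125487, nat_lit 0, nat_lit 3422983, true, true⟩,
 nat_lit 0, nat_lit 0, nat_lit 0, nat_lit 0, nat_lit 3464, nat_lit 0, nat_lit 0, nat_lit 0, nat_lit 0, nat_lit 0, nat_lit 0, nat_lit 0, nat_lit 0, nat_lit 0, nat_lit 0, nat_lit 250000, nat_lit 0, nat_lit 0, [(nat_lit 21, [(nat_lit 0, nat_lit 1000)])],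
 ⟨p022_k30, nat_lit 0, nat_lit 0, nat_lit 0, nat_lit 0, nat_lit 0, [nat_lit 1558400000, nat_lit 1963600000], [], [nat_lit 29509799460, nat_lit 29971848368, nat_lit 31081965381, nat_lit 31505078308], nat_lit 0, nat_lit 0, nat_lit 0, nat_lit 0, nat_lit 0, nat_lit 0, [], [nat_lit 24, nat_lit 40, nat_lit 80, nat_lit 80]⟩, C1.Rw.none,
 ⟨nat_lit 3162, nat_lit 3536, ⟨.ofNat (nat_lit 849831), .ofNat (nat_lit 900040), .ofNat (nat_lit 860807), .ofNat (nat_lit 911016), .ofNat (nat_lit 843509), .ofNat (nat_lit 892272), .ofNat (nat_lit 854586), .ofNat (nat_lit 903349)⟩, ⟨.ofNat (nat_lit 0), .ofNat (nat_lit 0), .ofNat (nat_lit 0), .ofNat (nat_lit 0), .ofNat (nat_lit 0), .ofNat (nat_lit 0), .ofNat (nat_lit 0), .ofNat (nat_lit 0)⟩⟩, [⟨nat_lit 13, nat_lit 76, nat_lit 37, nat_lit 100, nat_lit 273234390⟩]⟩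
noncomputable def p022_l63 : Lf2 := ⟨nat_lit 0, nat_lit 10, [nat_lit 0, nat_lit 5, nat_lit 5, nat_lit 20], true, nat_lit 0, nat_lit 0, nat_lit 0, nat_lit 0, ⟨nat_lit 0, nat_lit 1000, nat_lit 0, nat_lit 9, nat_lit 355, nat_lit 0, nat_lit 0, nat_lit 0, nat_lit 0, nat_lit 0, nat_lit 0, nat_lit 0, nat_lit 37447616, nat_lit 29552384, nat_lit 0, nat_lit 3430939, true, true⟩,
 nat_lit 0, nat_lit 0, nat_lit 0, nat_lit 0, nat_lit 100000, nat_lit 0, nat_lit 0, nat_lit 4778, nat_lit 0, nat_lit 0, nat_lit 0, nat_lit 0, nat_lit 0, nat_lit 0, nat_lit 0, nat_lit 1000000, nat_lit 0, nat_lit 0, [(nat_lit 18, [(nat_lit 2, nat_lit 1000)]), (nat_lit 21, [(nat_lit 2, nat_lit 1000)])],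
 ⟨p022_k8, nat_lit 0, nat_lit 0, nat_lit 0, nat_lit 0, nat_lit 0, [nat_lit 39925866667, nat_lit 77493333334, nat_lit 95116800000], [], [nat_lit 160680021334, nat_lit 181700732667, nat_lit 187801338667, nat_lit 205679062667], nat_lit 0, nat_lit 0, nat_lit 0, nat_lit 0, nat_lit 0, nat_lit 0, [], [nat_lit 6, nat_lit 40, nat_lit 80, nat_lit 80]⟩, C1.Rw.none,
 ⟨nat_lit 3162, nat_lit 4473, ⟨.ofNat (nat_lit 858073), .ofNat (nat_lit 926092), .ofNat (nat_lit 879572), .ofNat (nat_lit 947591), .ofNat (nat_lit 832328), .ofNat (nat_lit 893321), .ofNat (nat_lit 854415), .ofNat (nat_lit 915409)⟩, ⟨.ofNat (nat_lit 0), .ofNat (nat_lit 0), .ofNat (nat_lit 0), .ofNat (nat_lit 0), .ofNat (nat_lit 0), .ofNat (nat_lit 0), .ofNat (nat_lit 0), .ofNat (nat_lit 0)⟩⟩, [⟨nat_lit 13, nat_lit 80, nat_lit 34, nat_lit 100, nat_lit 3708554758⟩]⟩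
noncomputable def p022_l64 : Lf2 := ⟨nat_lit 2, nat_lit 10, [nat_lit 0, nat_lit 5, nat_lit 5, nat_lit 20], true, nat_lit 0, nat_lit 0, nat_lit 0, nat_lit 0, zbN0,
 nat_lit 0, nat_lit 0, nat_lit 0, nat_lit 0, nat_lit 0, nat_lit 0, nat_lit 0, nat_lit 0, nat_lit 0, nat_lit 0, nat_lit 0, nat_lit 0, nat_lit 0, nat_lit 0, nat_lit 0, nat_lit 0, nat_lit 0, nat_lit 0, [],
 ⟨p022_k8, nat_lit 0, nat_lit 0, nat_lit 0, nat_lit 0, nat_lit 0, [], [], [], nat_lit 0, nat_lit 0, nat_lit 0, nat_lit 0, nat_lit 0, nat_lit 0, [], [nat_lit 6, nat_lit 40, nat_lit 80, nat_lit 80]⟩, C1.Rw.none,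
 zbF0, []⟩
noncomputable def p022_l65 : Lf2 := ⟨nat_lit 2, nat_lit 10, [nat_lit 0, nat_lit 5, nat_lit 5, nat_lit 20], true, nat_lit 0, nat_lit 0, nat_lit 0, nat_lit 0, zbN0,
 nat_lit 0, nat_lit 0, nat_lit 0, nat_lit 0, nat_lit 0, nat_lit 0, nat_lit 0, nat_lit 0, nat_lit 0, nat_lit 0, nat_lit 0, nat_lit 0, nat_lit 0, nat_lit 0, nat_lit 0, nat_lit 0, nat_lit 0, nat_lit 0, [],
 ⟨p022_k8, nat_lit 0, nat_lit 0, nat_lit 180, nat_lit 0, nat_lit 0, [], [], [], nat_lit 0, nat_lit 0, nat_lit 0, nat_lit 0, nat_lit 0, nat_lit 0, [], [nat_lit 6, nat_lit 40, nat_lit 80, nat_lit 80, nat_lit 3, nat_lit 203, nat_lit 0, nat_lit 6]⟩, C1.Rw.none,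
 zbF0, []⟩
noncomputable def p022_l66 : Lf2 := ⟨nat_lit 0, nat_lit 10, [nat_lit 0, nat_lit 5, nat_lit 5, nat_lit 20], false, nat_lit 0, nat_lit 0, nat_lit 0, nat_lit 0, ⟨nat_lit 847, nat_lit 153, nat_lit 0, nat_lit 9, nat_lit 365, nat_lit 0, nat_lit 0, nat_lit 0, nat_lit 0, nat_lit 0, nat_lit 0, nat_lit 0, nat_lit 36581316, nat_lit 30418684, nat_lit 0, nat_lit 3444554, true, true⟩,
 nat_lit 0, nat_lit 0, nat_lit 8250, nat_lit 0, nat_lit 3799, nat_lit 5711, nat_lit 822, nat_lit 0, nat_lit 0, nat_lit 969, nat_lit 0, nat_lit 0, nat_lit 0, nat_lit 0, nat_lit 0, nat_lit 61200, nat_lit 0, nat_lit 0, [(nat_lit 18, [(nat_lit 1, nat_lit 153)])],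
 ⟨p022_k37, nat_lit 0, nat_lit 0, nat_lit 174, nat_lit 0, nat_lit 0, [nat_lit 1928572000, nat_lit 3047461200, nat_lit 5593752400], [], [nat_lit 30345381346, nat_lit 31154266764, nat_lit 32195252228, nat_lit 32999854456], nat_lit 0, nat_lit 0, nat_lit 0, nat_lit 0, nat_lit 0, nat_lit 0, [], [nat_lit 85, nat_lit 40, nat_lit 80, nat_lit 80, nat_lit 16, nat_lit 203, nat_lit 0, nat_lit 6]⟩, ⟨p022_k44, nat_lit 0, nat_lit 0, nat_lit 760, nat_lit 0, nat_lit 1464397, [nat_lit 2779854000, nat_lit 3970736000, nat_lit 6748896000], [], [nat_lit 24819345249, nat_lit 24965621169, nat_lit 25708094030, nat_lit 25833875705], nat_lit 1271250, nat_lit 1271250, nat_lit 1271250, nat_lit 1271250, nat_lit 0, nat_lit 0, [nat_lit 780000, nat_lit 1100000, nat_lit 1785000], [nat_lit 36, nat_lit 40, nat_lit 80, nat_lit 80, nat_lit 7, nat_lit 279, nat_lit 0, nat_lit 8]⟩,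
 ⟨nat_lit 3872, nat_lit 4473, ⟨.ofNat (nat_lit 879688), .ofNat (nat_lit 947674), .ofNat (nat_lit 890462), .ofNat (nat_lit 958448), .ofNat (nat_lit 866995), .ofNat (nat_lit 931525), .ofNat (nat_lit 877883), .ofNat (nat_lit 942413)⟩, ⟨.ofNat (nat_lit 0), .ofNat (nat_lit 0), .ofNat (nat_lit 0), .ofNat (nat_lit 0), .ofNat (nat_lit 0), .ofNat (nat_lit 0), .ofNat (nat_lit 0), .ofNat (nat_lit 0)⟩⟩, []⟩
noncomputable def p022_l67 : Lf2 := ⟨nat_lit 0, nat_lit 10, [nat_lit 0, nat_lit 5, nat_lit 5, nat_lit 20], false, nat_lit 0, nat_lit 0, nat_lit 0, nat_lit 0, ⟨nat_lit 1000, nat_lit 0, nat_lit 0, nat_lit 0, nat_lit 0, nat_lit 0, nat_lit 0, nat_lit 0, nat_lit 0, nat_lit 0, nat_lit 0, nat_lit 0, nat_lit 0, nat_lit 0, nat_lit 0, nat_lit 0, false, false⟩,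
 nat_lit 0, nat_lit 0, nat_lit 9112, nat_lit 0, nat_lit 3984, nat_lit 6569, nat_lit 936, nat_lit 0, nat_lit 0, nat_lit 979, nat_lit 0, nat_lit 0, nat_lit 0, nat_lit 0, nat_lit 0, nat_lit 0, nat_lit 0, nat_lit 0, [],
 ⟨p022_k37, nat_lit 0, nat_lit 0, nat_lit 174, nat_lit 0, nat_lit 0, [nat_lit 2032000001, nat_lit 3282000000, nat_lit 6250000000], [], [nat_lit 30670435537, nat_lit 31493044625, nat_lit 32604620065, nat_lit 33539443696], nat_lit 0, nat_lit 0, nat_lit 0, nat_lit 0, nat_lit 0, nat_lit 0, [], [nat_lit 85, nat_lit 40, nat_lit 80, nat_lit 80, nat_lit 16, nat_lit 203, nat_lit 0, nat_lit 6]⟩, ⟨p022_k45, nat_lit 0, nat_lit 0, nat_lit 755, nat_lit 0, nat_lit 1453678, [nat_lit 3282000000, nat_lit 4688000000, nat_lit 7968000000], [], [nat_lit 30412549917, nat_lit 30592693977, nat_lit 31469290914, nat_lit 31624636275], nat_lit 1271250, nat_lit 1271250, nat_lit 1271250, nat_lit 1271250,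 nat_lit 0, nat_lit 0, [nat_lit 780000, nat_lit 1100000, nat_lit 1785000], [nat_lit 36, nat_lit 40, nat_lit 80, nat_lit 80, nat_lit 7, nat_lit 279, nat_lit 0, nat_lit 8]⟩,
 zbF0, []⟩
noncomputable def p022_l68 : Lf2 := ⟨nat_lit 0, nat_lit 10, [nat_lit 0, nat_lit 5, nat_lit 5, nat_lit 20], false, nat_lit 0, nat_lit 0, nat_lit 0, nat_lit 0, ⟨nat_lit 297, nat_lit 703, nat_lit 0, nat_lit 9, nat_lit 360, nat_lit 0, nat_lit 0, nat_lit 0, nat_lit 0, nat_lit 0, nat_lit 0, nat_lit 0, nat_lit 36971945, nat_lit 30028055, nat_lit 0, nat_lit 3438833, true, true⟩,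
 nat_lit 0, nat_lit 0, nat_lit 2868, nat_lit 0, nat_lit 2877, nat_lit 1985, nat_lit 391, nat_lit 0, nat_lit 0, nat_lit 304, nat_lit 0, nat_lit 0, nat_lit 0, nat_lit 0, nat_lit 0, nat_lit 281200, nat_lit 0, nat_lit 0, [(nat_lit 21, [(nat_lit 1, nat_lit 703)])],
 ⟨p022_k43, nat_lit 0, nat_lit 0, nat_lit 179, nat_lit 0, nat_lit 0, [nat_lit 1556209600, nat_lit 1992135600, nat_lit 2905126000], [], [nat_lit 28826373272, nat_lit 29196618079, nat_lit 30427531286, nat_lit 30805617166], nat_lit 0, nat_lit 0, nat_lit 0, nat_lit 0, nat_lit 0, nat_lit 0, [], [nat_lit 85, nat_lit 40, nat_lit 80, nat_lit 80, nat_lit 16, nat_lit 203, nat_lit 0, nat_lit 6]⟩, ⟨p022_k44, nat_lit 0, nat_lit 0, nat_lit 805, nat_lit 0, nat_lit 1582167, [nat_lit 974754000, nat_lit 1392336000, nat_lit 2366496000], [], [nat_lit 9092027139, nat_lit 9132580920, nat_lit 9366842714, nat_lit 9410904967], nat_lit 1271250, nat_lit 1271250,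 nat_lit 1271250, nat_lit 1271250, nat_lit 0, nat_lit 0, [nat_lit 780000, nat_lit 1100000, nat_lit 1785000], [nat_lit 36, nat_lit 40, nat_lit 80, nat_lit 80, nat_lit 7, nat_lit 290, nat_lit 0, nat_lit 8]⟩,
 ⟨nat_lit 3535, nat_lit 3873, ⟨.ofNat (nat_lit 867045), .ofNat (nat_lit 931571), .ofNat (nat_lit 877938), .ofNat (nat_lit 942466), .ofNat (nat_lit 860801), .ofNat (nat_lit 923567), .ofNat (nat_lit 871774), .ofNat (nat_lit 934542)⟩, ⟨.ofNat (nat_lit 0), .ofNat (nat_lit 0), .ofNat (nat_lit 0), .ofNat (nat_lit 0), .ofNat (nat_lit 0), .ofNat (nat_lit 0), .ofNat (nat_lit 0), .ofNat (nat_lit 0)⟩⟩, [⟨nat_lit 13, nat_lit 81, nat_lit 30, nat_lit 100, nat_lit 108742325⟩]⟩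
noncomputable def p022_l69 : Lf2 := ⟨nat_lit 0, nat_lit 10, [nat_lit 0, nat_lit 5, nat_lit 5, nat_lit 20], false, nat_lit 0, nat_lit 0, nat_lit 0, nat_lit 0, ⟨nat_lit 129, nat_lit 871, nat_lit 0, nat_lit 9, nat_lit 356, nat_lit 0, nat_lit 0, nat_lit 0, nat_lit 0, nat_lit 0, nat_lit 0, nat_lit 0, nat_lit 37347510, nat_lit 29652490, nat_lit 0, nat_lit 3432685, true, true⟩,
 nat_lit 0, nat_lit 0, nat_lit 1248, nat_lit 0, nat_lit 3335, nat_lit 864, nat_lit 0, nat_lit 0, nat_lit 0, nat_lit 150, nat_lit 0, nat_lit 0, nat_lit 0, nat_lit 0, nat_lit 0, nat_lit 217750, nat_lit 0, nat_lit 0, [(nat_lit 21, [(nat_lit 0, nat_lit 871)])],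
 ⟨p022_k30, nat_lit 0, nat_lit 0, nat_lit 165, nat_lit 0, nat_lit 0, [nat_lit 1619494400, nat_lit 2315047600], [], [nat_lit 30392991188, nat_lit 30826748900, nat_lit 32048815713, nat_lit 32443006088], nat_lit 0, nat_lit 0, nat_lit 0, nat_lit 0, nat_lit 0, nat_lit 0, [], [nat_lit 24, nat_lit 40, nat_lit 80, nat_lit 80, nat_lit 33, nat_lit 203, nat_lit 0, nat_lit 7]⟩, ⟨p022_k20, nat_lit 0, nat_lit 0, nat_lit 868, nat_lit 0, nat_lit 1705460, [nat_lit 423378000, nat_lit 806250000, nat_lit 1027872000], [], [nat_lit 4074809781, nat_lit 4087665527, nat_lit 4154593699, nat_lit 4165424834], nat_lit 1271250, nat_lit 1271250, nat_lit 1271250, nat_lit 1271250, nat_lit 0, nat_lit 0, [nat_lit 780000, nat_lit 1435000, nat_lit 1271250], [nat_lit 18, nat_lit 40, nat_lit 80, nat_lit 80, nat_lit 2, nat_lit 306, nat_lit 0, nat_lit 9]⟩,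
 ⟨nat_lit 3162, nat_lit 3536, ⟨.ofNat (nat_lit 860807), .ofNat (nat_lit 917293), .ofNat (nat_lit 871780), .ofNat (nat_lit 928269), .ofNat (nat_lit 854586), .ofNat (nat_lit 909444), .ofNat (nat_lit 865661), .ofNat (nat_lit 920522)⟩, ⟨.ofNat (nat_lit 0), .ofNat (nat_lit 0), .ofNat (nat_lit 0), .ofNat (nat_lit 0), .ofNat (nat_lit 0), .ofNat (nat_lit 0), .ofNat (nat_lit 0), .ofNat (nat_lit 0)⟩⟩, [⟨nat_lit 13, nat_lit 74, nat_lit 39, nat_lit 100, nat_lit 215454825⟩]⟩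
noncomputable def p022_l70 : Lf2 := ⟨nat_lit 0, nat_lit 10, [nat_lit 0, nat_lit 5, nat_lit 5, nat_lit 20], false, nat_lit 0, nat_lit 0, nat_lit 0, nat_lit 0, ⟨nat_lit 259, nat_lit 741, nat_lit 0, nat_lit 9, nat_lit 365, nat_lit 0, nat_lit 0, nat_lit 0, nat_lit 0, nat_lit 0, nat_lit 0, nat_lit 0, nat_lit 36571819, nat_lit 30428181, nat_lit 0, nat_lit 3444685, true, true⟩,
 nat_lit 0, nat_lit 0, nat_lit 2382, nat_lit 0, nat_lit 2972, nat_lit 1717, nat_lit 270, nat_lit 0, nat_lit 0, nat_lit 208, nat_lit 0, nat_lit 0, nat_lit 0, nat_lit 0, nat_lit 0, nat_lit 296400, nat_lit 0, nat_lit 0, [(nat_lit 21, [(nat_lit 1, nat_lit 741)])],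
 ⟨p022_k23, nat_lit 0, nat_lit 0, nat_lit 178, nat_lit 0, nat_lit 0, [nat_lit 1530491200, nat_lit 2320356800, nat_lit 2724322000], [], [nat_lit 29025549892, nat_lit 29420154998, nat_lit 30733418208, nat_lit 31090389792], nat_lit 0, nat_lit 0, nat_lit 0, nat_lit 0, nat_lit 0, nat_lit 0, [], [nat_lit 6, nat_lit 40, nat_lit 80, nat_lit 80, nat_lit 3, nat_lit 203, nat_lit 0, nat_lit 6]⟩, ⟨p022_k21, nat_lit 0, nat_lit 0, nat_lit 801, nat_lit 0, nat_lit 1562066, [nat_lit 850038000, nat_lit 1618750000, nat_lit 2063712000], [], [nat_lit 8063070675, nat_lit 8100146146, nat_lit 8315374333, nat_lit 8354486496], nat_lit 1271250, nat_lit 1271250, nat_lit 1271250, nat_lit 1271250, nat_lit 0, nat_lit 0, [nat_lit 780000, nat_lit 1435000, nat_lit 1271250], [nat_lit 18, nat_lit 40, nat_lit 80, nat_lit 80, nat_lit 2, nat_lit 291, nat_lit 0, nat_lit 8]⟩,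
 ⟨nat_lit 3535, nat_lit 3873, ⟨.ofNat (nat_lit 877938), .ofNat (nat_lit 942466), .ofNat (nat_lit 888832), .ofNat (nat_lit 953359), .ofNat (nat_lit 871774), .ofNat (nat_lit 934542), .ofNat (nat_lit 882748), .ofNat (nat_lit 945515)⟩, ⟨.ofNat (nat_lit 0), .ofNat (nat_lit 0), .ofNat (nat_lit 0), .ofNat (nat_lit 0), .ofNat (nat_lit 0), .ofNat (nat_lit 0), .ofNat (nat_lit 0), .ofNat (nat_lit 0)⟩⟩, [⟨nat_lit 13, nat_lit 84, nat_lit 24, nat_lit 100, nat_lit 131444958⟩]⟩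
noncomputable def p022_l71 : Lf2 := ⟨nat_lit 0, nat_lit 10, [nat_lit 0, nat_lit 5, nat_lit 5, nat_lit 20], false, nat_lit 0, nat_lit 0, nat_lit 0, nat_lit 0, ⟨nat_lit 215, nat_lit 785, nat_lit 0, nat_lit 9, nat_lit 361, nat_lit 0, nat_lit 0, nat_lit 0, nat_lit 0, nat_lit 0, nat_lit 0, nat_lit 0, nat_lit 36940429, nat_lit 30059571, nat_lit 0, nat_lit 3439320, true, true⟩,
 nat_lit 0, nat_lit 0, nat_lit 2007, nat_lit 0, nat_lit 2932, nat_lit 1446, nat_lit 147, nat_lit 0, nat_lit 0, nat_lit 189, nat_lit 0, nat_lit 0, nat_lit 0, nat_lit 0, nat_lit 0, nat_lit 314000, nat_lit 0, nat_lit 0, [(nat_lit 21, [(nat_lit 1, nat_lit 785)])],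
 ⟨p022_k30, nat_lit 0, nat_lit 0, nat_lit 165, nat_lit 0, nat_lit 0, [nat_lit 1500712001, nat_lit 2172860000], [], [nat_lit 29264318481, nat_lit 29679365911, nat_lit 30843752402, nat_lit 31231425677], nat_lit 0, nat_lit 0, nat_lit 0, nat_lit 0, nat_lit 0, nat_lit 0, [], [nat_lit 24, nat_lit 40, nat_lit 80, nat_lit 80, nat_lit 33, nat_lit 203, nat_lit 0, nat_lit 7]⟩, ⟨p022_k21, nat_lit 0, nat_lit 0, nat_lit 854, nat_lit 0, nat_lit 1675558, [nat_lit 705630000, nat_lit 1343750000, nat_lit 1713120000], [], [nat_lit 6535199172, nat_lit 6561139037, nat_lit 6698181551, nat_lit 6725036767], nat_lit 1271250, nat_lit 1271250, nat_lit 1271250, nat_lit 1271250, nat_lit 0, nat_lit 0, [nat_lit 780000, nat_lit 1435000, nat_lit 1271250], [nat_lit 18, nat_lit 40, nat_lit 80, nat_lit 80, nat_lit 2, nat_lit 303, nat_lit 0, nat_lit 9]⟩,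
 ⟨nat_lit 3162, nat_lit 3536, ⟨.ofNat (nat_lit 871780), .ofNat (nat_lit 928269), .ofNat (nat_lit 882753), .ofNat (nat_lit 939245), .ofNat (nat_lit 865661), .ofNat (nat_lit 920522), .ofNat (nat_lit 876734), .ofNat (nat_lit 931599)⟩, ⟨.ofNat (nat_lit 0), .ofNat (nat_lit 0), .ofNat (nat_lit 0), .ofNat (nat_lit 0), .ofNat (nat_lit 0), .ofNat (nat_lit 0), .ofNat (nat_lit 0), .ofNat (nat_lit 0)⟩⟩, [⟨nat_lit 13, nat_lit 77, nat_lit 33, nat_lit 100, nat_lit 169881085⟩]⟩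
noncomputable def b_N_800_700_0_37 : St := ⟨false, nat_lit 0, nat_lit 1, nat_lit 1, nat_lit 40, nat_lit 320, nat_lit 360, nat_lit 280, nat_lit 320, nat_lit 360, nat_lit 400, nat_lit 0, nat_lit 0, nat_lit 0, nat_lit 0, nat_lit 0, nat_lit 0, nat_lit 40, nat_lit 80, nat_lit 0, nat_lit 0, nat_lit 0, nat_lit 0⟩
theorem d_N_800_700_0_37 (h : EB TB.env) : Dead b_N_800_700_0_37 := chkB_sound0 h (T :=
(.spl (nat_lit 8) (nat_lit 800)
(.leaf p022_l42)
(.spl (nat_lit 1) (nat_lit 300)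
(.spl (nat_lit 7) (nat_lit 600)
(.spl (nat_lit 7) (nat_lit 300)
(.spl (nat_lit 0) (nat_lit 340)
(.leaf p022_l43)
(.trX (nat_lit 13) (nat_lit 82) (nat_lit 29) (nat_lit 100) (nat_lit 396) (.leaf p022_l44)))
(.spl (nat_lit 7) (nat_lit 460)
(.spl (nat_lit 7) (nat_lit 380)
(.spl (nat_lit 0) (nat_lit 340)
(.spl (nat_lit 1) (nat_lit 290)
(.spl (nat_lit 6) (nat_lit 60)
(.spl (nat_lit 1) (nat_lit 285)
(.trX (nat_lit 13) (nat_lit 88) (nat_lit 22) (nat_lit 100) (nat_lit 396) (.leaf p022_l45))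
(.spl (nat_lit 1) (nat_lit 288)
(.spl (nat_lit 1) (nat_lit 287)
(.leaf p022_l46)
(.leaf p022_l47))
(.spl (nat_lit 1) (nat_lit 289)
(.leaf p022_l48)
(.leaf p022_l49))))
(.spl (nat_lit 0) (nat_lit 330)
(.leaf p022_l50)
(.trX (nat_lit 13) (nat_lit 85) (nat_lit 27) (nat_lit 100) (nat_lit 396) (.leaf p022_l51))))
(.spl (nat_lit 0) (nat_lit 330)
(.leaf p022_l52)
(.leaf p022_l53)))
(.trX (nat_lit 13) (nat_lit 82) (nat_lit 29) (nat_lit 100) (nat_lit 396) (.spl (nat_lit 1) (nat_lit 290)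
(.trX (nat_lit 13) (nat_lit 80) (nat_lit 34) (nat_lit 100) (nat_lit 392) (.spl (nat_lit 1) (nat_lit 285)
(.spl (nat_lit 0) (nat_lit 350)
(.spl (nat_lit 1) (nat_lit 283)
(.spl (nat_lit 0) (nat_lit 345)
(.leaf p022_l54)
(.trX (nat_lit 13) (nat_lit 76) (nat_lit 41) (nat_lit 100) (nat_lit 388) (.leaf p022_l55)))
(.spl (nat_lit 0) (nat_lit 345)
(.leaf p022_l56)
(.trX (nat_lit 13) (nat_lit 76) (nat_lit 40) (nat_lit 100) (nat_lit 388) (.leaf p022_l57))))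
(.trX (nat_lit 13) (nat_lit 73) (nat_lit 44) (nat_lit 100) (nat_lit 384) (.leaf p022_l58)))
(.spl (nat_lit 0) (nat_lit 350)
(.leaf p022_l59)
(.trX (nat_lit 13) (nat_lit 74) (nat_lit 42) (nat_lit 100) (nat_lit 388) (.leaf p022_l60)))))
(.spl (nat_lit 0) (nat_lit 350)
(.leaf p022_l61)
(.trX (nat_lit 13) (nat_lit 76) (nat_lit 37) (nat_lit 100) (nat_lit 392) (.leaf p022_l62))))))
(.leaf p022_l63))
(.leaf p022_l64)))
(.leaf p022_l65))
(.spl (nat_lit 0) (nat_lit 340)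
(.spl (nat_lit 1) (nat_lit 310)
(.leaf p022_l66)
(.leaf p022_l67))
(.spl (nat_lit 1) (nat_lit 310)
(.spl (nat_lit 0) (nat_lit 350)
(.leaf p022_l68)
(.trX (nat_lit 13) (nat_lit 79) (nat_lit 31) (nat_lit 100) (nat_lit 396) (.leaf p022_l69)))
(.spl (nat_lit 0) (nat_lit 350)
(.leaf p022_l70)
(.trX (nat_lit 13) (nat_lit 83) (nat_lit 25) (nat_lit 100) (nat_lit 396) (.leaf p022_l71)))))))) (by decide +kernel)
noncomputable def p022_l72 : Lf2 := ⟨nat_lit 0, nat_lit 10, [nat_lit 0, nat_lit 5, nat_lit 5, nat_lit 20], false, nat_lit 0, nat_lit 0, nat_lit 0, nat_lit 0, ⟨nat_lit 1000, nat_lit 0, nat_lit 0, nat_lit 0, nat_lit 0, nat_lit 0, nat_lit 0, nat_lit 0, nat_lit 0, nat_lit 0, nat_lit 0, nat_lit 0, nat_lit 0, nat_lit 0, nat_lit 0, nat_lit 0, false, false⟩,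
 nat_lit 0, nat_lit 8158, nat_lit 0, nat_lit 0, nat_lit 6118, nat_lit 5699, nat_lit 547, nat_lit 0, nat_lit 0, nat_lit 1379, nat_lit 0, nat_lit 0, nat_lit 0, nat_lit 0, nat_lit 0, nat_lit 0, nat_lit 0, nat_lit 0, [],
 ⟨p022_k8, nat_lit 0, nat_lit 0, nat_lit 532, nat_lit 0, nat_lit 978447, [nat_lit 2032000001, nat_lit 4688000000, nat_lit 6250000000], [], [nat_lit 30027087388, nat_lit 30271911784, nat_lit 31620619752, nat_lit 31861269766], nat_lit 1271250, nat_lit 1271250, nat_lit 631250, nat_lit 1751250, nat_lit 0, nat_lit 0, [nat_lit 490000, nat_lit 1100000, nat_lit 1442500], [nat_lit 6, nat_lit 40, nat_lit 80, nat_lit 80, nat_lit 3, nat_lit 272, nat_lit 60, nat_lit 10]⟩, ⟨p022_k9, nat_lit 0, nat_lit 0, nat_lit 173, nat_lit 0, nat_lit 0, [nat_lit 3282000000, nat_lit 6250000000, nat_lit 9842000000], [], [nat_lit 19742340385, nat_lit 20587929805, nat_lit 23750074108, nat_lit 24550383205],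 nat_lit 0, nat_lit 0, nat_lit 0, nat_lit 0, nat_lit 0, nat_lit 0, [], [nat_lit 8, nat_lit 40, nat_lit 80, nat_lit 80, nat_lit 1, nat_lit 272, nat_lit 60, nat_lit 8]⟩,
 zbF0, [⟨nat_lit 0, nat_lit 98, nat_lit 86, nat_lit 100, nat_lit 370844267⟩]⟩
noncomputable def p022_l73 : Lf2 := ⟨nat_lit 0, nat_lit 10, [nat_lit 0, nat_lit 5, nat_lit 5, nat_lit 20], false, nat_lit 0, nat_lit 0, nat_lit 0, nat_lit 0, ⟨nat_lit 1000, nat_lit 0, nat_lit 0, nat_lit 0, nat_lit 0, nat_lit 0, nat_lit 0, nat_lit 0, nat_lit 0, nat_lit 0, nat_lit 0, nat_lit 0, nat_lit 0, nat_lit 0, nat_lit 0, nat_lit 0, false, false⟩,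
 nat_lit 0, nat_lit 9469, nat_lit 0, nat_lit 0, nat_lit 7241, nat_lit 5708, nat_lit 544, nat_lit 0, nat_lit 0, nat_lit 1376, nat_lit 0, nat_lit 0, nat_lit 0, nat_lit 0, nat_lit 0, nat_lit 0, nat_lit 0, nat_lit 0, [],
 ⟨p022_k10, nat_lit 0, nat_lit 0, nat_lit 538, nat_lit 0, nat_lit 992270, [nat_lit 2032000001, nat_lit 4688000000, nat_lit 6250000000], [], [nat_lit 26336269732, nat_lit 26592577766, nat_lit 27326106473, nat_lit 27543761817], nat_lit 1271250, nat_lit 1271250, nat_lit 660400, nat_lit 1753500, nat_lit 0, nat_lit 0, [nat_lit 490000, nat_lit 1100000, nat_lit 1442500], [nat_lit 6, nat_lit 40, nat_lit 80, nat_lit 80, nat_lit 3, nat_lit 272, nat_lit 60, nat_lit 10]⟩, ⟨p022_k9, nat_lit 0, nat_lit 0, nat_lit 172, nat_lit 0, nat_lit 0, [nat_lit 3282000000, nat_lit 6250000000, nat_lit 9842000000], [], [nat_lit 19775773632, nat_lit 20620654018, nat_lit 23748762736, nat_lit 24549791860],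 nat_lit 0, nat_lit 0, nat_lit 0, nat_lit 0, nat_lit 0, nat_lit 0, [], [nat_lit 8, nat_lit 40, nat_lit 80, nat_lit 80, nat_lit 1, nat_lit 272, nat_lit 60, nat_lit 8]⟩,
 zbF0, [⟨nat_lit 0, nat_lit 97, nat_lit 82, nat_lit 100, nat_lit 410997790⟩]⟩
noncomputable def p022_l74 : Lf2 := ⟨nat_lit 0, nat_lit 10, [nat_lit 0, nat_lit 5, nat_lit 5, nat_lit 20], false, nat_lit 0, nat_lit 0, nat_lit 0, nat_lit 0, ⟨nat_lit 1000, nat_lit 0, nat_lit 0, nat_lit 0, nat_lit 0, nat_lit 0, nat_lit 0, nat_lit 0, nat_lit 0, nat_lit 0, nat_lit 0, nat_lit 0, nat_lit 0, nat_lit 0, nat_lit 0, nat_lit 0, false, false⟩,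
 nat_lit 0, nat_lit 8371, nat_lit 0, nat_lit 0, nat_lit 6278, nat_lit 5732, nat_lit 506, nat_lit 0, nat_lit 0, nat_lit 1135, nat_lit 0, nat_lit 0, nat_lit 0, nat_lit 0, nat_lit 0, nat_lit 0, nat_lit 0, nat_lit 0, [],
 ⟨p022_k8, nat_lit 0, nat_lit 0, nat_lit 575, nat_lit 0, nat_lit 1094046, [nat_lit 2032000001, nat_lit 4688000000, nat_lit 6250000000], [], [nat_lit 32153243053, nat_lit 32594730407, nat_lit 32075183513, nat_lit 32511226857], nat_lit 1271250, nat_lit 1271250, nat_lit 689850, nat_lit 1100001, nat_lit 0, nat_lit 0, [nat_lit 490000, nat_lit 1100000, nat_lit 1442500], [nat_lit 6, nat_lit 40, nat_lit 80, nat_lit 80, nat_lit 3, nat_lit 249, nat_lit 40, nat_lit 9]⟩, ⟨p022_k11, nat_lit 0, nat_lit 0, nat_lit 137, nat_lit 0, nat_lit 0, [nat_lit 3282000000, nat_lit 6250000000, nat_lit 7968000000], [], [nat_lit 19829727286, nat_lit 20766675949, nat_lit 20141393566, nat_lit 20991828902],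 nat_lit 0, nat_lit 0, nat_lit 0, nat_lit 0, nat_lit 0, nat_lit 0, [], [nat_lit 18, nat_lit 40, nat_lit 80, nat_lit 80, nat_lit 2, nat_lit 249, nat_lit 40, nat_lit 8]⟩,
 zbF0, [⟨nat_lit 0, nat_lit 92, nat_lit 81, nat_lit 100, nat_lit 684924599⟩]⟩
noncomputable def p022_l75 : Lf2 := ⟨nat_lit 0, nat_lit 10, [nat_lit 0, nat_lit 5, nat_lit 5, nat_lit 20], false, nat_lit 0, nat_lit 0, nat_lit 0, nat_lit 0, ⟨nat_lit 1000, nat_lit 0, nat_lit 0, nat_lit 0, nat_lit 0, nat_lit 0, nat_lit 0, nat_lit 0, nat_lit 0, nat_lit 0, nat_lit 0, nat_lit 0, nat_lit 0, nat_lit 0, nat_lit 0, nat_lit 0, false, false⟩,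
 nat_lit 0, nat_lit 8270, nat_lit 0, nat_lit 0, nat_lit 6202, nat_lit 8225, nat_lit 491, nat_lit 0, nat_lit 0, nat_lit 1246, nat_lit 0, nat_lit 0, nat_lit 0, nat_lit 0, nat_lit 0, nat_lit 0, nat_lit 0, nat_lit 0, [],
 ⟨p022_k8, nat_lit 0, nat_lit 0, nat_lit 558, nat_lit 0, nat_lit 1094046, [nat_lit 2032000001, nat_lit 4688000000, nat_lit 6250000000], [], [nat_lit 32495730841, nat_lit 32902000136, nat_lit 33622207984, nat_lit 34026100228], nat_lit 1271250, nat_lit 1271250, nat_lit 1100001, nat_lit 1785000, nat_lit 0, nat_lit 0, [nat_lit 490000, nat_lit 1100000, nat_lit 1442500], [nat_lit 6, nat_lit 40, nat_lit 80, nat_lit 80, nat_lit 3, nat_lit 272, nat_lit 60, nat_lit 10]⟩, ⟨p022_k11, nat_lit 0, nat_lit 0, nat_lit 131, nat_lit 0, nat_lit 0, [nat_lit 3282000000, nat_lit 6250000000, nat_lit 7968000000], [], [nat_lit 19408944200, nat_lit 20500009500, nat_lit 23808791175, nat_lit 25105083450],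 nat_lit 0, nat_lit 0, nat_lit 0, nat_lit 0, nat_lit 0, nat_lit 0, [], [nat_lit 18, nat_lit 40, nat_lit 80, nat_lit 80, nat_lit 2, nat_lit 272, nat_lit 60, nat_lit 9]⟩,
 zbF0, []⟩
noncomputable def p022_l76 : Lf2 := ⟨nat_lit 0, nat_lit 10, [nat_lit 0, nat_lit 5, nat_lit 5, nat_lit 20], false, nat_lit 0, nat_lit 0, nat_lit 0, nat_lit 0, ⟨nat_lit 1000, nat_lit 0, nat_lit 0, nat_lit 0, nat_lit 0, nat_lit 0, nat_lit 0, nat_lit 0, nat_lit 0, nat_lit 0, nat_lit 0, nat_lit 0, nat_lit 0, nat_lit 0, nat_lit 0, nat_lit 0, false, false⟩,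
 nat_lit 0, nat_lit 7585, nat_lit 0, nat_lit 0, nat_lit 5912, nat_lit 5208, nat_lit 1265, nat_lit 0, nat_lit 0, nat_lit 1100, nat_lit 0, nat_lit 0, nat_lit 0, nat_lit 0, nat_lit 0, nat_lit 0, nat_lit 0, nat_lit 0, [],
 ⟨p022_k22, nat_lit 0, nat_lit 0, nat_lit 589, nat_lit 0, nat_lit 1114478, [nat_lit 2032000001, nat_lit 4688000000, nat_lit 6250000000], [], [nat_lit 25188513100, nat_lit 25610136876, nat_lit 26216339008, nat_lit 26559252552], nat_lit 1271250, nat_lit 1271250, nat_lit 719601, nat_lit 1758000, nat_lit 0, nat_lit 0, [nat_lit 490000, nat_lit 1100000, nat_lit 1442500], [nat_lit 6, nat_lit 40, nat_lit 80, nat_lit 80, nat_lit 3, nat_lit 272, nat_lit 60, nat_lit 10]⟩, ⟨p022_k9, nat_lit 0, nat_lit 0, nat_lit 176, nat_lit 0, nat_lit 0, [nat_lit 3282000000, nat_lit 6250000000, nat_lit 9842000000], [], [nat_lit 21603649622, nat_lit 23028722873, nat_lit 24436543260, nat_lit 25617757216],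 nat_lit 0, nat_lit 0, nat_lit 0, nat_lit 0, nat_lit 0, nat_lit 0, [], [nat_lit 8, nat_lit 40, nat_lit 80, nat_lit 80, nat_lit 1, nat_lit 272, nat_lit 60, nat_lit 8]⟩,
 zbF0, [⟨nat_lit 0, nat_lit 90, nat_lit 74, nat_lit 100, nat_lit 530032551⟩]⟩
noncomputable def p022_l77 : Lf2 := ⟨nat_lit 0, nat_lit 10, [nat_lit 0, nat_lit 5, nat_lit 5, nat_lit 20], false, nat_lit 0, nat_lit 0, nat_lit 0, nat_lit 0, ⟨nat_lit 1000, nat_lit 0, nat_lit 0, nat_lit 0, nat_lit 0, nat_lit 0, nat_lit 0, nat_lit 0, nat_lit 0, nat_lit 0, nat_lit 0, nat_lit 0, nat_lit 0, nat_lit 0, nat_lit 0, nat_lit 0, false, false⟩,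
 nat_lit 0, nat_lit 8331, nat_lit 0, nat_lit 0, nat_lit 6248, nat_lit 5405, nat_lit 506, nat_lit 0, nat_lit 0, nat_lit 1173, nat_lit 0, nat_lit 0, nat_lit 0, nat_lit 0, nat_lit 0, nat_lit 0, nat_lit 0, nat_lit 0, [],
 ⟨p022_k8, nat_lit 0, nat_lit 0, nat_lit 573, nat_lit 0, nat_lit 1101141, [nat_lit 2032000001, nat_lit 4688000000, nat_lit 6250000000], [], [nat_lit 32255754080, nat_lit 32472121124, nat_lit 33420580416, nat_lit 33623168744], nat_lit 1271250, nat_lit 1271250, nat_lit 780000, nat_lit 1762500, nat_lit 0, nat_lit 0, [nat_lit 490000, nat_lit 1100000, nat_lit 1442500], [nat_lit 6, nat_lit 40, nat_lit 80, nat_lit 80, nat_lit 3, nat_lit 272, nat_lit 60, nat_lit 10]⟩, ⟨p022_k20, nat_lit 0, nat_lit 0, nat_lit 142, nat_lit 0, nat_lit 0, [nat_lit 3282000000, nat_lit 6250000000, nat_lit 7968000000], [], [nat_lit 19814370505, nat_lit 20649132818, nat_lit 23194321685, nat_lit 23891181550],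 nat_lit 0, nat_lit 0, nat_lit 0, nat_lit 0, nat_lit 0, nat_lit 0, [], [nat_lit 18, nat_lit 40, nat_lit 80, nat_lit 80, nat_lit 2, nat_lit 272, nat_lit 60, nat_lit 9]⟩,
 zbF0, [⟨nat_lit 0, nat_lit 88, nat_lit 82, nat_lit 100, nat_lit 427506501⟩]⟩
noncomputable def p022_l78 : Lf2 := ⟨nat_lit 0, nat_lit 10, [nat_lit 0, nat_lit 5, nat_lit 5, nat_lit 20], false, nat_lit 0, nat_lit 0, nat_lit 0, nat_lit 0, ⟨nat_lit 1000, nat_lit 0, nat_lit 0, nat_lit 0, nat_lit 0, nat_lit 0, nat_lit 0, nat_lit 0, nat_lit 0, nat_lit 0, nat_lit 0, nat_lit 0, nat_lit 0, nat_lit 0, nat_lit 0, nat_lit 0, false, false⟩,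
 nat_lit 0, nat_lit 8240, nat_lit 0, nat_lit 0, nat_lit 6301, nat_lit 5405, nat_lit 547, nat_lit 0, nat_lit 0, nat_lit 1166, nat_lit 0, nat_lit 0, nat_lit 0, nat_lit 0, nat_lit 0, nat_lit 0, nat_lit 0, nat_lit 0, [],
 ⟨p022_k10, nat_lit 0, nat_lit 0, nat_lit 576, nat_lit 0, nat_lit 1108545, [nat_lit 2032000001, nat_lit 4688000000, nat_lit 6250000000], [], [nat_lit 30224032760, nat_lit 30454575144, nat_lit 31422398653, nat_lit 31625726914], nat_lit 1271250, nat_lit 1271250, nat_lit 810650, nat_lit 1764750, nat_lit 0, nat_lit 0, [nat_lit 490000, nat_lit 1100000, nat_lit 1442500], [nat_lit 6, nat_lit 40, nat_lit 80, nat_lit 80, nat_lit 3, nat_lit 272, nat_lit 60, nat_lit 10]⟩, ⟨p022_k20, nat_lit 0, nat_lit 0, nat_lit 140, nat_lit 0, nat_lit 0, [nat_lit 3282000000, nat_lit 6250000000, nat_lit 7968000000], [], [nat_lit 19880132564, nat_lit 20699325151, nat_lit 23207643560, nat_lit 23904503425],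 nat_lit 0, nat_lit 0, nat_lit 0, nat_lit 0, nat_lit 0, nat_lit 0, [], [nat_lit 18, nat_lit 40, nat_lit 80, nat_lit 80, nat_lit 2, nat_lit 272, nat_lit 60, nat_lit 9]⟩,
 zbF0, [⟨nat_lit 0, nat_lit 87, nat_lit 79, nat_lit 100, nat_lit 434694590⟩]⟩
noncomputable def p022_l79 : Lf2 := ⟨nat_lit 0, nat_lit 10, [nat_lit 0, nat_lit 5, nat_lit 5, nat_lit 20], false, nat_lit 0, nat_lit 0, nat_lit 0, nat_lit 0, ⟨nat_lit 1000, nat_lit 0, nat_lit 0, nat_lit 0, nat_lit 0, nat_lit 0, nat_lit 0, nat_lit 0, nat_lit 0, nat_lit 0, nat_lit 0, nat_lit 0, nat_lit 0, nat_lit 0, nat_lit 0, nat_lit 0, false, false⟩,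
 nat_lit 0, nat_lit 8540, nat_lit 0, nat_lit 0, nat_lit 6404, nat_lit 5524, nat_lit 501, nat_lit 0, nat_lit 0, nat_lit 1208, nat_lit 0, nat_lit 0, nat_lit 0, nat_lit 0, nat_lit 0, nat_lit 0, nat_lit 0, nat_lit 0, [],
 ⟨p022_k8, nat_lit 0, nat_lit 0, nat_lit 605, nat_lit 0, nat_lit 1163135, [nat_lit 2032000001, nat_lit 4688000000, nat_lit 6250000000], [], [nat_lit 31593245290, nat_lit 31809262377, nat_lit 31559735394, nat_lit 31763870230], nat_lit 1271250, nat_lit 1271250, nat_lit 872850, nat_lit 1100001, nat_lit 0, nat_lit 0, [nat_lit 490000, nat_lit 1100000, nat_lit 1442500], [nat_lit 6, nat_lit 40, nat_lit 80, nat_lit 80, nat_lit 3, nat_lit 249, nat_lit 40, nat_lit 9]⟩, ⟨p022_k21, nat_lit 0, nat_lit 0, nat_lit 146, nat_lit 0, nat_lit 0, [nat_lit 3282000000, nat_lit 6250000000, nat_lit 7968000000], [], [nat_lit 19572733348, nat_lit 20458218530, nat_lit 19696168016, nat_lit 20528372568],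 nat_lit 0, nat_lit 0, nat_lit 0, nat_lit 0, nat_lit 0, nat_lit 0, [], [nat_lit 18, nat_lit 40, nat_lit 80, nat_lit 80, nat_lit 2, nat_lit 249, nat_lit 40, nat_lit 8]⟩,
 zbF0, [⟨nat_lit 0, nat_lit 83, nat_lit 81, nat_lit 100, nat_lit 746781572⟩]⟩
noncomputable def p022_l80 : Lf2 := ⟨nat_lit 0, nat_lit 10, [nat_lit 0, nat_lit 5, nat_lit 5, nat_lit 20], false, nat_lit 0, nat_lit 0, nat_lit 0, nat_lit 0, ⟨nat_lit 1000, nat_lit 0, nat_lit 0, nat_lit 0, nat_lit 0, nat_lit 0, nat_lit 0, nat_lit 0, nat_lit 0, nat_lit 0, nat_lit 0, nat_lit 0, nat_lit 0, nat_lit 0, nat_lit 0, nat_lit 0, false, false⟩,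
 nat_lit 0, nat_lit 8376, nat_lit 0, nat_lit 0, nat_lit 6405, nat_lit 5524, nat_lit 538, nat_lit 0, nat_lit 0, nat_lit 1208, nat_lit 0, nat_lit 0, nat_lit 0, nat_lit 0, nat_lit 0, nat_lit 0, nat_lit 0, nat_lit 0, [],
 ⟨p022_k10, nat_lit 0, nat_lit 0, nat_lit 606, nat_lit 0, nat_lit 1167322, [nat_lit 2032000001, nat_lit 4688000000, nat_lit 6250000000], [], [nat_lit 29844304800, nat_lit 30056919119, nat_lit 29821775462, nat_lit 30025924482], nat_lit 1271250, nat_lit 1271250, nat_lit 904401, nat_lit 1100001, nat_lit 0, nat_lit 0, [nat_lit 490000, nat_lit 1100000, nat_lit 1442500], [nat_lit 6, nat_lit 40, nat_lit 80, nat_lit 80, nat_lit 3, nat_lit 249, nat_lit 40, nat_lit 9]⟩, ⟨p022_k21, nat_lit 0, nat_lit 0, nat_lit 144, nat_lit 0, nat_lit 0, [nat_lit 3282000000, nat_lit 6250000000, nat_lit 7968000000], [], [nat_lit 19587570592, nat_lit 20467892157, nat_lit 19696168016, nat_lit 20528372568],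 nat_lit 0, nat_lit 0, nat_lit 0, nat_lit 0, nat_lit 0, nat_lit 0, [], [nat_lit 18, nat_lit 40, nat_lit 80, nat_lit 80, nat_lit 2, nat_lit 249, nat_lit 40, nat_lit 8]⟩,
 zbF0, [⟨nat_lit 0, nat_lit 82, nat_lit 78, nat_lit 100, nat_lit 774586713⟩]⟩
noncomputable def p022_l81 : Lf2 := ⟨nat_lit 0, nat_lit 10, [nat_lit 0, nat_lit 5, nat_lit 5, nat_lit 20], false, nat_lit 0, nat_lit 0, nat_lit 0, nat_lit 0, ⟨nat_lit 1000, nat_lit 0, nat_lit 0, nat_lit 0, nat_lit 0, nat_lit 0, nat_lit 0, nat_lit 0, nat_lit 0, nat_lit 0, nat_lit 0, nat_lit 0, nat_lit 0, nat_lit 0, nat_lit 0, nat_lit 0, false, false⟩,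
 nat_lit 0, nat_lit 8270, nat_lit 0, nat_lit 0, nat_lit 6202, nat_lit 5524, nat_lit 491, nat_lit 0, nat_lit 0, nat_lit 1208, nat_lit 0, nat_lit 0, nat_lit 0, nat_lit 0, nat_lit 0, nat_lit 0, nat_lit 0, nat_lit 0, [],
 ⟨p022_k8, nat_lit 0, nat_lit 0, nat_lit 573, nat_lit 0, nat_lit 1109686, [nat_lit 2032000001, nat_lit 4688000000, nat_lit 6250000000], [], [nat_lit 32549969245, nat_lit 32974072676, nat_lit 32495730841, nat_lit 32902000136], nat_lit 1271250, nat_lit 1271250, nat_lit 872850, nat_lit 1100001, nat_lit 0, nat_lit 0, [nat_lit 490000, nat_lit 1100000, nat_lit 1442500], [nat_lit 6, nat_lit 40, nat_lit 80, nat_lit 80, nat_lit 3, nat_lit 249, nat_lit 40, nat_lit 9]⟩, ⟨p022_k21, nat_lit 0, nat_lit 0, nat_lit 146, nat_lit 0, nat_lit 0, [nat_lit 3282000000, nat_lit 6250000000, nat_lit 7968000000], [], [nat_lit 19572733348, nat_lit 20458218530, nat_lit 19696168016, nat_lit 20528372568],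 nat_lit 0, nat_lit 0, nat_lit 0, nat_lit 0, nat_lit 0, nat_lit 0, [], [nat_lit 18, nat_lit 40, nat_lit 80, nat_lit 80, nat_lit 2, nat_lit 249, nat_lit 40, nat_lit 8]⟩,
 zbF0, [⟨nat_lit 0, nat_lit 82, nat_lit 78, nat_lit 100, nat_lit 787013797⟩]⟩
noncomputable def p022_l82 : Lf2 := ⟨nat_lit 0, nat_lit 10, [nat_lit 0, nat_lit 5, nat_lit 5, nat_lit 20], false, nat_lit 0, nat_lit 0, nat_lit 0, nat_lit 0, ⟨nat_lit 1000, nat_lit 0, nat_lit 0, nat_lit 0, nat_lit 0, nat_lit 0, nat_lit 0, nat_lit 0, nat_lit 0, nat_lit 0, nat_lit 0, nat_lit 0, nat_lit 0, nat_lit 0, nat_lit 0, nat_lit 0, false, false⟩,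
 nat_lit 0, nat_lit 8493, nat_lit 0, nat_lit 0, nat_lit 6369, nat_lit 5524, nat_lit 493, nat_lit 0, nat_lit 0, nat_lit 1208, nat_lit 0, nat_lit 0, nat_lit 0, nat_lit 0, nat_lit 0, nat_lit 0, nat_lit 0, nat_lit 0, [],
 ⟨p022_k8, nat_lit 0, nat_lit 0, nat_lit 604, nat_lit 0, nat_lit 1185503, [nat_lit 2032000001, nat_lit 4688000000, nat_lit 6250000000], [], [nat_lit 31745548714, nat_lit 31949187110, nat_lit 32890212248, nat_lit 33094489857], nat_lit 1271250, nat_lit 1271250, nat_lit 1100001, nat_lit 1785000, nat_lit 0, nat_lit 0, [nat_lit 490000, nat_lit 1100000, nat_lit 1442500], [nat_lit 6, nat_lit 40, nat_lit 80, nat_lit 80, nat_lit 3, nat_lit 272, nat_lit 60, nat_lit 10]⟩, ⟨p022_k21, nat_lit 0, nat_lit 0, nat_lit 142, nat_lit 0, nat_lit 0, [nat_lit 3282000000, nat_lit 6250000000, nat_lit 7968000000], [], [nat_lit 19696168016, nat_lit 20528372568, nat_lit 22709160044, nat_lit 23709695520],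 nat_lit 0, nat_lit 0, nat_lit 0, nat_lit 0, nat_lit 0, nat_lit 0, [], [nat_lit 18, nat_lit 40, nat_lit 80, nat_lit 80, nat_lit 2, nat_lit 272, nat_lit 60, nat_lit 9]⟩,
 zbF0, []⟩
noncomputable def p022_l83 : Lf2 := ⟨nat_lit 0, nat_lit 10, [nat_lit 0, nat_lit 5, nat_lit 5, nat_lit 20], false, nat_lit 0, nat_lit 0, nat_lit 0, nat_lit 0, ⟨nat_lit 1000, nat_lit 0, nat_lit 0, nat_lit 0, nat_lit 0, nat_lit 0, nat_lit 0, nat_lit 0, nat_lit 0, nat_lit 0, nat_lit 0, nat_lit 0, nat_lit 0, nat_lit 0, nat_lit 0, nat_lit 0, false, false⟩,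
 nat_lit 0, nat_lit 8376, nat_lit 0, nat_lit 0, nat_lit 6405, nat_lit 5524, nat_lit 533, nat_lit 0, nat_lit 0, nat_lit 1208, nat_lit 0, nat_lit 0, nat_lit 0, nat_lit 0, nat_lit 0, nat_lit 0, nat_lit 0, nat_lit 0, [],
 ⟨p022_k10, nat_lit 0, nat_lit 0, nat_lit 607, nat_lit 0, nat_lit 1189663, [nat_lit 2032000001, nat_lit 4688000000, nat_lit 6250000000], [], [nat_lit 29839775462, nat_lit 30045643900, nat_lit 31018396965, nat_lit 31223177170], nat_lit 1271250, nat_lit 1271250, nat_lit 1100001, nat_lit 1785000, nat_lit 0, nat_lit 0, [nat_lit 490000, nat_lit 1100000, nat_lit 1442500], [nat_lit 6, nat_lit 40, nat_lit 80, nat_lit 80, nat_lit 3, nat_lit 272, nat_lit 60, nat_lit 10]⟩, ⟨p022_k21, nat_lit 0, nat_lit 0, nat_lit 142, nat_lit 0, nat_lit 0, [nat_lit 3282000000, nat_lit 6250000000, nat_lit 7968000000], [], [nat_lit 19696168016, nat_lit 20528372568, nat_lit 22709160044, nat_lit 23709695520],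 nat_lit 0, nat_lit 0, nat_lit 0, nat_lit 0, nat_lit 0, nat_lit 0, [], [nat_lit 18, nat_lit 40, nat_lit 80, nat_lit 80, nat_lit 2, nat_lit 272, nat_lit 60, nat_lit 9]⟩,
 zbF0, []⟩
noncomputable def p022_l84 : Lf2 := ⟨nat_lit 0, nat_lit 10, [nat_lit 0, nat_lit 5, nat_lit 5, nat_lit 20], false, nat_lit 0, nat_lit 0, nat_lit 0, nat_lit 0, ⟨nat_lit 1000, nat_lit 0, nat_lit 0, nat_lit 0, nat_lit 0, nat_lit 0, nat_lit 0, nat_lit 0, nat_lit 0, nat_lit 0, nat_lit 0, nat_lit 0, nat_lit 0, nat_lit 0, nat_lit 0, nat_lit 0, false, false⟩,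
 nat_lit 0, nat_lit 6770, nat_lit 0, nat_lit 0, nat_lit 5277, nat_lit 5309, nat_lit 1920, nat_lit 0, nat_lit 0, nat_lit 545, nat_lit 0, nat_lit 0, nat_lit 0, nat_lit 0, nat_lit 0, nat_lit 0, nat_lit 0, nat_lit 0, [],
 ⟨p022_k22, nat_lit 0, nat_lit 0, nat_lit 634, nat_lit 0, nat_lit 1229199, [nat_lit 2032000001, nat_lit 4688000000, nat_lit 6250000000], [], [nat_lit 23882834308, nat_lit 24286907340, nat_lit 25119022304, nat_lit 25459530024], nat_lit 1271250, nat_lit 1271250, nat_lit 872850, nat_lit 1769250, nat_lit 0, nat_lit 0, [nat_lit 490000, nat_lit 1100000, nat_lit 1442500], [nat_lit 6, nat_lit 40, nat_lit 80, nat_lit 80, nat_lit 3, nat_lit 272, nat_lit 60, nat_lit 10]⟩, ⟨p022_k20, nat_lit 0, nat_lit 0, nat_lit 146, nat_lit 0, nat_lit 0, [nat_lit 3282000000, nat_lit 6250000000, nat_lit 7968000000], [], [nat_lit 23150736062, nat_lit 24702353052, nat_lit 26036044997, nat_lit 27403065399],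 nat_lit 0, nat_lit 0, nat_lit 0, nat_lit 0, nat_lit 0, nat_lit 0, [], [nat_lit 18, nat_lit 40, nat_lit 80, nat_lit 80, nat_lit 2, nat_lit 272, nat_lit 60, nat_lit 9]⟩,
 zbF0, [⟨nat_lit 0, nat_lit 81, nat_lit 72, nat_lit 100, nat_lit 504337295⟩]⟩
noncomputable def p022_l85 : Lf2 := ⟨nat_lit 0, nat_lit 10, [nat_lit 0, nat_lit 5, nat_lit 5, nat_lit 20], false, nat_lit 0, nat_lit 0, nat_lit 0, nat_lit 0, ⟨nat_lit 1000, nat_lit 0, nat_lit 0, nat_lit 0, nat_lit 0, nat_lit 0, nat_lit 0, nat_lit 0, nat_lit 0, nat_lit 0, nat_lit 0, nat_lit 0, nat_lit 0, nat_lit 0, nat_lit 0, nat_lit 0, false, false⟩,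
 nat_lit 0, nat_lit 9895, nat_lit 0, nat_lit 0, nat_lit 7421, nat_lit 5280, nat_lit 461, nat_lit 0, nat_lit 0, nat_lit 0, nat_lit 0, nat_lit 0, nat_lit 0, nat_lit 0, nat_lit 0, nat_lit 0, nat_lit 0, nat_lit 0, [],
 ⟨p022_k8, nat_lit 0, nat_lit 0, nat_lit 556, nat_lit 0, nat_lit 1048634, [nat_lit 2032000001, nat_lit 4688000000, nat_lit 6250000000], [], [nat_lit 27633160994, nat_lit 28507991987, nat_lit 28279077432, nat_lit 29154935756], nat_lit 1271250, nat_lit 1271250, nat_lit 780000, nat_lit 1762500, nat_lit 0, nat_lit 0, [nat_lit 490000, nat_lit 1100000, nat_lit 1442500], [nat_lit 6, nat_lit 40, nat_lit 80, nat_lit 80, nat_lit 3, nat_lit 272, nat_lit 60, nat_lit 10]⟩, ⟨p022_k20, nat_lit 0, nat_lit 0, nat_lit 150, nat_lit 0, nat_lit 0, [nat_lit 3282000000, nat_lit 6250000000, nat_lit 7968000000], [], [nat_lit 25821342880, nat_lit 27395371760, nat_lit 28802042240, nat_lit 30136038080],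 nat_lit 0, nat_lit 0, nat_lit 0, nat_lit 0, nat_lit 0, nat_lit 0, [], [nat_lit 18, nat_lit 40, nat_lit 80, nat_lit 80, nat_lit 2, nat_lit 272, nat_lit 60, nat_lit 9]⟩,
 zbF0, [⟨nat_lit 0, nat_lit 81, nat_lit 72, nat_lit 100, nat_lit 575983909⟩]⟩
noncomputable def p022_l86 : Lf2 := ⟨nat_lit 0, nat_lit 10, [nat_lit 0, nat_lit 5, nat_lit 5, nat_lit 20], false, nat_lit 0, nat_lit 0, nat_lit 0, nat_lit 0, ⟨nat_lit 1000, nat_lit 0, nat_lit 0, nat_lit 0, nat_lit 0, nat_lit 0, nat_lit 0, nat_lit 0, nat_lit 0, nat_lit 0, nat_lit 0, nat_lit 0, nat_lit 0, nat_lit 0, nat_lit 0, nat_lit 0, false, false⟩,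
 nat_lit 0, nat_lit 8188, nat_lit 0, nat_lit 0, nat_lit 6141, nat_lit 5040, nat_lit 459, nat_lit 0, nat_lit 0, nat_lit 865, nat_lit 0, nat_lit 0, nat_lit 0, nat_lit 0, nat_lit 0, nat_lit 0, nat_lit 0, nat_lit 0, [],
 ⟨p022_k8, nat_lit 0, nat_lit 0, nat_lit 553, nat_lit 0, nat_lit 1094046, [nat_lit 2032000001, nat_lit 4688000000, nat_lit 6250000000], [], [nat_lit 34027179182, nat_lit 34357653660, nat_lit 38874423228, nat_lit 39141674003], nat_lit 1271250, nat_lit 1271250, nat_lit 1271250, nat_lit 1271250, nat_lit 0, nat_lit 0, [nat_lit 490000, nat_lit 1100000, nat_lit 1442500], [nat_lit 6, nat_lit 40, nat_lit 80, nat_lit 80, nat_lit 3, nat_lit 230, nat_lit 0, nat_lit 8]⟩, ⟨p022_k9, nat_lit 0, nat_lit 0, nat_lit 217, nat_lit 0, nat_lit 0, [nat_lit 3282000000, nat_lit 6250000000, nat_lit 9842000000], [], [nat_lit 26082151925, nat_lit 27200036005, nat_lit 35170943445, nat_lit 35921720240],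 nat_lit 0, nat_lit 0, nat_lit 0, nat_lit 0, nat_lit 0, nat_lit 0, [], [nat_lit 8, nat_lit 40, nat_lit 80, nat_lit 80, nat_lit 1, nat_lit 317, nat_lit 100, nat_lit 9]⟩,
 zbF0, []⟩
noncomputable def p022_l87 : Lf2 := ⟨nat_lit 0, nat_lit 10, [nat_lit 0, nat_lit 5, nat_lit 5, nat_lit 20], false, nat_lit 0, nat_lit 0, nat_lit 0, nat_lit 0, ⟨nat_lit 1000, nat_lit 0, nat_lit 0, nat_lit 0, nat_lit 0, nat_lit 0, nat_lit 0, nat_lit 0, nat_lit 0, nat_lit 0, nat_lit 0, nat_lit 0, nat_lit 0, nat_lit 0, nat_lit 0, nat_lit 0, false, false⟩,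
 nat_lit 0, nat_lit 9521, nat_lit 0, nat_lit 0, nat_lit 7140, nat_lit 5325, nat_lit 415, nat_lit 0, nat_lit 0, nat_lit 1044, nat_lit 0, nat_lit 0, nat_lit 0, nat_lit 0, nat_lit 0, nat_lit 0, nat_lit 0, nat_lit 0, [],
 ⟨p022_k8, nat_lit 0, nat_lit 0, nat_lit 620, nat_lit 0, nat_lit 1259808, [nat_lit 2032000001, nat_lit 4688000000, nat_lit 6250000000], [], [nat_lit 31215395600, nat_lit 31522536540, nat_lit 32898996880, nat_lit 33817418280], nat_lit 1271250, nat_lit 1271250, nat_lit 1271250, nat_lit 1271250, nat_lit 0, nat_lit 0, [nat_lit 490000, nat_lit 1100000, nat_lit 1442500], [nat_lit 6, nat_lit 40, nat_lit 80, nat_lit 80, nat_lit 3, nat_lit 237, nat_lit 0, nat_lit 8]⟩, ⟨p022_k20, nat_lit 0, nat_lit 0, nat_lit 167, nat_lit 0, nat_lit 0, [nat_lit 3282000000, nat_lit 6250000000, nat_lit 7968000000], [], [nat_lit 23517416650, nat_lit 24900043100, nat_lit 28256952700, nat_lit 29487569300],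 nat_lit 0, nat_lit 0, nat_lit 0, nat_lit 0, nat_lit 0, nat_lit 0, [], [nat_lit 18, nat_lit 40, nat_lit 80, nat_lit 80, nat_lit 2, nat_lit 203, nat_lit 0, nat_lit 6]⟩,
 zbF0, []⟩
noncomputable def p022_l88 : Lf2 := ⟨nat_lit 0, nat_lit 10, [nat_lit 0, nat_lit 5, nat_lit 5, nat_lit 20], false, nat_lit 0, nat_lit 0, nat_lit 0, nat_lit 0, ⟨nat_lit 1000, nat_lit 0, nat_lit 0, nat_lit 0, nat_lit 0, nat_lit 0, nat_lit 0, nat_lit 0, nat_lit 0, nat_lit 0, nat_lit 0, nat_lit 0, nat_lit 0, nat_lit 0, nat_lit 0, nat_lit 0, false, false⟩,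
 nat_lit 0, nat_lit 8438, nat_lit 0, nat_lit 0, nat_lit 6328, nat_lit 5428, nat_lit 379, nat_lit 0, nat_lit 0, nat_lit 736, nat_lit 0, nat_lit 0, nat_lit 0, nat_lit 0, nat_lit 0, nat_lit 0, nat_lit 0, nat_lit 0, [],
 ⟨p022_k8, nat_lit 0, nat_lit 0, nat_lit 620, nat_lit 0, nat_lit 1259808, [nat_lit 2032000001, nat_lit 4688000000, nat_lit 6250000000], [], [nat_lit 37355247968, nat_lit 37583281120, nat_lit 39458542688, nat_lit 39682293024], nat_lit 1271250, nat_lit 1271250, nat_lit 1271250, nat_lit 1271250, nat_lit 0, nat_lit 0, [nat_lit 490000, nat_lit 1100000, nat_lit 1442500], [nat_lit 6, nat_lit 40, nat_lit 80, nat_lit 80, nat_lit 3, nat_lit 247, nat_lit 0, nat_lit 8]⟩, ⟨p022_k20, nat_lit 0, nat_lit 0, nat_lit 199, nat_lit 0, nat_lit 0, [nat_lit 3282000000, nat_lit 6250000000, nat_lit 7968000000], [], [nat_lit 31403875608, nat_lit 32219775616, nat_lit 35772018784, nat_lit 36461142192],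 nat_lit 0, nat_lit 0, nat_lit 0, nat_lit 0, nat_lit 0, nat_lit 0, [], [nat_lit 18, nat_lit 40, nat_lit 80, nat_lit 80, nat_lit 2, nat_lit 203, nat_lit 0, nat_lit 6]⟩,
 zbF0, []⟩
noncomputable def p022_l89 : Lf2 := ⟨nat_lit 0, nat_lit 10, [nat_lit 0, nat_lit 5, nat_lit 5, nat_lit 20], false, nat_lit 0, nat_lit 0, nat_lit 0, nat_lit 0, ⟨nat_lit 1000, nat_lit 0, nat_lit 0, nat_lit 0, nat_lit 0, nat_lit 0, nat_lit 0, nat_lit 0, nat_lit 0, nat_lit 0, nat_lit 0, nat_lit 0, nat_lit 0, nat_lit 0, nat_lit 0, nat_lit 0, false, false⟩,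
 nat_lit 0, nat_lit 6059, nat_lit 0, nat_lit 0, nat_lit 4723, nat_lit 7585, nat_lit 1491, nat_lit 0, nat_lit 0, nat_lit 403, nat_lit 0, nat_lit 0, nat_lit 0, nat_lit 0, nat_lit 0, nat_lit 0, nat_lit 0, nat_lit 0, [],
 ⟨p022_k22, nat_lit 0, nat_lit 0, nat_lit 623, nat_lit 0, nat_lit 1267496, [nat_lit 2032000001, nat_lit 4688000000, nat_lit 6250000000], [], [nat_lit 31776140461, nat_lit 32072602857, nat_lit 35488616156, nat_lit 35698254199], nat_lit 1271250, nat_lit 1271250, nat_lit 1271250, nat_lit 1271250, nat_lit 0, nat_lit 0, [nat_lit 490000, nat_lit 1100000, nat_lit 1442500], [nat_lit 6, nat_lit 40, nat_lit 80, nat_lit 80, nat_lit 3, nat_lit 249, nat_lit 0, nat_lit 9]⟩, ⟨p022_k9, nat_lit 0, nat_lit 0, nat_lit 219, nat_lit 0, nat_lit 0, [nat_lit 3282000000, nat_lit 6250000000, nat_lit 9842000000], [], [nat_lit 30646653935, nat_lit 33031363755, nat_lit 40768539055, nat_lit 42494907260],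 nat_lit 0, nat_lit 0, nat_lit 0, nat_lit 0, nat_lit 0, nat_lit 0, [], [nat_lit 8, nat_lit 40, nat_lit 80, nat_lit 80, nat_lit 1, nat_lit 317, nat_lit 100, nat_lit 9]⟩,
 zbF0, []⟩
noncomputable def p022_l90 : Lf2 := ⟨nat_lit 0, nat_lit 10, [nat_lit 0, nat_lit 5, nat_lit 5, nat_lit 20], false, nat_lit 0, nat_lit 0, nat_lit 0, nat_lit 0, ⟨nat_lit 1000, nat_lit 0, nat_lit 0, nat_lit 0, nat_lit 0, nat_lit 0, nat_lit 0, nat_lit 0, nat_lit 0, nat_lit 0, nat_lit 0, nat_lit 0, nat_lit 0, nat_lit 0, nat_lit 0, nat_lit 0, false, false⟩,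
 nat_lit 0, nat_lit 5693, nat_lit 0, nat_lit 0, nat_lit 4608, nat_lit 6346, nat_lit 910, nat_lit 0, nat_lit 0, nat_lit 833, nat_lit 0, nat_lit 0, nat_lit 0, nat_lit 0, nat_lit 0, nat_lit 0, nat_lit 0, nat_lit 0, [],
 ⟨p022_k23, nat_lit 0, nat_lit 0, nat_lit 691, nat_lit 0, nat_lit 1348122, [nat_lit 2032000001, nat_lit 4688000000, nat_lit 6250000000], [], [nat_lit 29892124186, nat_lit 30633694604, nat_lit 36036637802, nat_lit 36559376778], nat_lit 1271250, nat_lit 1271250, nat_lit 810650, nat_lit 3080750, nat_lit 0, nat_lit 0, [nat_lit 490000, nat_lit 1100000, nat_lit 1442500], [nat_lit 6, nat_lit 40, nat_lit 80, nat_lit 80, nat_lit 3, nat_lit 317, nat_lit 100, nat_lit 12]⟩, ⟨p022_k9, nat_lit 0, nat_lit 0, nat_lit 219, nat_lit 0, nat_lit 0, [nat_lit 3282000000, nat_lit 6250000000, nat_lit 9842000000], [], [nat_lit 26938724079, nat_lit 29653761257, nat_lit 37453452144, nat_lit 39030438744],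 nat_lit 0, nat_lit 0, nat_lit 0, nat_lit 0, nat_lit 0, nat_lit 0, [], [nat_lit 8, nat_lit 40, nat_lit 80, nat_lit 80, nat_lit 1, nat_lit 317, nat_lit 100, nat_lit 9]⟩,
 zbF0, [⟨nat_lit 0, nat_lit 80, nat_lit 60, nat_lit 100, nat_lit 313396863⟩]⟩
noncomputable def p022_l91 : Lf2 := ⟨nat_lit 0, nat_lit 10, [nat_lit 0, nat_lit 5, nat_lit 5, nat_lit 20], false, nat_lit 0, nat_lit 0, nat_lit 0, nat_lit 0, ⟨nat_lit 371, nat_lit 0, nat_lit 629, nat_lit 7, nat_lit 224, nat_lit 0, nat_lit 0, nat_lit 0, nat_lit 0, nat_lit 215, nat_lit 122572, nat_lit 200, nat_lit 50985618, nat_lit 0, nat_lit 0, nat_lit 2749741, false, false⟩,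
 nat_lit 5216, nat_lit 0, nat_lit 0, nat_lit 0, nat_lit 3912, nat_lit 3319, nat_lit 0, nat_lit 0, nat_lit 0, nat_lit 304, nat_lit 0, nat_lit 0, nat_lit 0, nat_lit 0, nat_lit 0, nat_lit 474200, nat_lit 0, nat_lit 0, [(nat_lit 18, [(nat_lit 5, nat_lit 258), (nat_lit 6, nat_lit 371)]), (nat_lit 21, [(nat_lit 5, nat_lit 258), (nat_lit 6, nat_lit 371)])],
 ⟨p022_k8, nat_lit 0, nat_lit 0, nat_lit 450, nat_lit 0, nat_lit 765795, [nat_lit 1399253867, nat_lit 1172494934, nat_lit 483211600], [], [nat_lit 20391565013, nat_lit 22156523625, nat_lit 22393238873, nat_lit 24881456896], nat_lit 1271250, nat_lit 1271250, nat_lit 631250, nat_lit 1751250, nat_lit 0, nat_lit 0, [nat_lit 490000, nat_lit 1100000, nat_lit 1442500], [nat_lit 6, nat_lit 40, nat_lit 80, nat_lit 80, nat_lit 3, nat_lit 272, nat_lit 60, nat_lit 10]⟩, ⟨p022_k9, nat_lit 0, nat_lit 0, nat_lit 647, nat_lit 0, nat_lit 925801, [nat_lit 1217622000,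 nat_lit 2318750000, nat_lit 3651382000], [], [nat_lit 10740604150, nat_lit 11283605551, nat_lit 10693091272, nat_lit 11192964024], nat_lit 1271250, nat_lit 1271250, nat_lit 631250, nat_lit 1751250, nat_lit 0, nat_lit 0, [nat_lit 780000, nat_lit 1435000, nat_lit 1271250], [nat_lit 8, nat_lit 40, nat_lit 80, nat_lit 80, nat_lit 1, nat_lit 272, nat_lit 60, nat_lit 8]⟩,
 ⟨nat_lit 3162, nat_lit 4473, ⟨.ofNat (nat_lit 415764), .ofNat (nat_lit 653959), .ofNat (nat_lit 458716), .ofNat (nat_lit 696911), .ofNat (nat_lit 435680), .ofNat (nat_lit 649288), .ofNat (nat_lit 479808), .ofNat (nat_lit 693416)⟩, ⟨.ofNat (nat_lit 0), .ofNat (nat_lit 0), .ofNat (nat_lit 0), .ofNat (nat_lit 0), .ofNat (nat_lit 0), .ofNat (nat_lit 0), .ofNat (nat_lit 0), .ofNat (nat_lit 0)⟩⟩, [⟨nat_lit 0, nat_lit 90, nat_lit 74, nat_lit 100, nat_lit 83273813⟩, ⟨nat_lit 0, nat_lit 80, nat_lit 60, nat_lit 100, nat_lit 81498073⟩]⟩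
noncomputable def p022_l92 : Lf2 := ⟨nat_lit 0, nat_lit 10, [nat_lit 0, nat_lit 5, nat_lit 5, nat_lit 20], false, nat_lit 0, nat_lit 0, nat_lit 0, nat_lit 0, ⟨nat_lit 1000, nat_lit 0, nat_lit 0, nat_lit 0, nat_lit 0, nat_lit 0, nat_lit 0, nat_lit 0, nat_lit 0, nat_lit 0, nat_lit 0, nat_lit 0, nat_lit 0, nat_lit 0, nat_lit 0, nat_lit 0, false, false⟩,
 nat_lit 10281, nat_lit 0, nat_lit 0, nat_lit 0, nat_lit 5907, nat_lit 6542, nat_lit 513, nat_lit 0, nat_lit 0, nat_lit 752, nat_lit 0, nat_lit 0, nat_lit 0, nat_lit 0, nat_lit 0, nat_lit 0, nat_lit 0, nat_lit 0, [],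
 ⟨p022_k8, nat_lit 0, nat_lit 0, nat_lit 407, nat_lit 0, nat_lit 684222, [nat_lit 2032000001, nat_lit 4688000000, nat_lit 6250000000], [], [nat_lit 30130399676, nat_lit 31117558416, nat_lit 37800272692, nat_lit 39145887768], nat_lit 1271250, nat_lit 1271250, nat_lit 1271250, nat_lit 1271250, nat_lit 0, nat_lit 0, [nat_lit 490000, nat_lit 1100000, nat_lit 1442500], [nat_lit 6, nat_lit 40, nat_lit 80, nat_lit 80, nat_lit 3, nat_lit 203, nat_lit 0, nat_lit 7]⟩, ⟨p022_k9, nat_lit 0, nat_lit 0, nat_lit 567, nat_lit 0, nat_lit 827183, [nat_lit 3282000000, nat_lit 6250000000, nat_lit 9842000000], [], [nat_lit 35802505976, nat_lit 36824897856, nat_lit 40916057848, nat_lit 41880735880], nat_lit 1271250, nat_lit 1271250, nat_lit 1271250, nat_lit 1271250, nat_lit 0, nat_lit 0, [nat_lit 780000, nat_lit 1435000, nat_lit 1271250], [nat_lit 8, nat_lit 40, nat_lit 80, nat_lit 80, nat_lit 1, nat_lit 317,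 nat_lit 100, nat_lit 9]⟩,
 zbF0, []⟩
noncomputable def p022_l93 : Lf2 := ⟨nat_lit 0, nat_lit 10, [nat_lit 0, nat_lit 5, nat_lit 5, nat_lit 20], false, nat_lit 0, nat_lit 0, nat_lit 0, nat_lit 0, ⟨nat_lit 1000, nat_lit 0, nat_lit 0, nat_lit 0, nat_lit 0, nat_lit 0, nat_lit 0, nat_lit 0, nat_lit 0, nat_lit 0, nat_lit 0, nat_lit 0, nat_lit 0, nat_lit 0, nat_lit 0, nat_lit 0, false, false⟩,
 nat_lit 5697, nat_lit 0, nat_lit 5596, nat_lit 0, nat_lit 4611, nat_lit 7186, nat_lit 883, nat_lit 0, nat_lit 0, nat_lit 685, nat_lit 0, nat_lit 0, nat_lit 0, nat_lit 0, nat_lit 0, nat_lit 0, nat_lit 0, nat_lit 0, [],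
 ⟨p022_k23, nat_lit 0, nat_lit 0, nat_lit 415, nat_lit 0, nat_lit 702074, [nat_lit 2032000001, nat_lit 4688000000, nat_lit 6250000000], [], [nat_lit 26842013844, nat_lit 27722092937, nat_lit 35366720664, nat_lit 36559060412], nat_lit 1271250, nat_lit 1271250, nat_lit 1271250, nat_lit 1271250, nat_lit 0, nat_lit 0, [nat_lit 490000, nat_lit 1100000, nat_lit 1442500], [nat_lit 6, nat_lit 40, nat_lit 80, nat_lit 80, nat_lit 3, nat_lit 203, nat_lit 0, nat_lit 7]⟩, ⟨p022_k9, nat_lit 0, nat_lit 0, nat_lit 604, nat_lit 0, nat_lit 925801, [nat_lit 3282000000, nat_lit 6250000000, nat_lit 9842000000], [], [nat_lit 36573894546, nat_lit 37397307018, nat_lit 40657088560, nat_lit 41381515920], nat_lit 1271250, nat_lit 1271250, nat_lit 1271250, nat_lit 1271250, nat_lit 0, nat_lit 0, [nat_lit 780000, nat_lit 1435000, nat_lit 1271250], [nat_lit 8, nat_lit 40, nat_lit 80, nat_lit 80, nat_lit 1, nat_lit 317,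 nat_lit 100, nat_lit 9]⟩,
 zbF0, []⟩
noncomputable def b_N_800_700_0_38 : St := ⟨false, nat_lit 1, nat_lit 2, nat_lit 1, nat_lit 40, nat_lit 320, nat_lit 360, nat_lit 280, nat_lit 320, nat_lit 100, nat_lit 400, nat_lit 0, nat_lit 0, nat_lit 0, nat_lit 0, nat_lit 0, nat_lit 0, nat_lit 40, nat_lit 80, nat_lit 0, nat_lit 0, nat_lit 0, nat_lit 0⟩
theorem d_N_800_700_0_38 (h : EB TB.env) : Dead b_N_800_700_0_38 := chkB_sound0 h (T :=
(.st (nat_lit 1)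
(.spl (nat_lit 0) (nat_lit 340)
(.spl (nat_lit 2) (nat_lit 240)
(.spl (nat_lit 1) (nat_lit 300)
(.spl (nat_lit 0) (nat_lit 330)
(.spl (nat_lit 1) (nat_lit 290)
(.spl (nat_lit 0) (nat_lit 325)
(.leaf p022_l72)
(.trZ (nat_lit 0) (nat_lit 100) (nat_lit 85) (nat_lit 97) (nat_lit 104) (.leaf p022_l73)))
(.trZ (nat_lit 0) (nat_lit 100) (nat_lit 89) (nat_lit 100) (nat_lit 108) (.spl (nat_lit 2) (nat_lit 160)
(.leaf p022_l74)
(.leaf p022_l75))))
(.trZ (nat_lit 0) (nat_lit 100) (nat_lit 83) (nat_lit 98) (nat_lit 112) (.leaf p022_l76)))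
(.trZ (nat_lit 0) (nat_lit 94) (nat_lit 87) (nat_lit 100) (nat_lit 120) (.spl (nat_lit 6) (nat_lit 60)
(.spl (nat_lit 0) (nat_lit 330)
(.spl (nat_lit 1) (nat_lit 310)
(.spl (nat_lit 0) (nat_lit 325)
(.leaf p022_l77)
(.trZ (nat_lit 0) (nat_lit 93) (nat_lit 84) (nat_lit 100) (nat_lit 124) (.leaf p022_l78)))
(.trZ (nat_lit 0) (nat_lit 89) (nat_lit 85) (nat_lit 100) (nat_lit 132) (.spl (nat_lit 2) (nat_lit 160)
(.spl (nat_lit 6) (nat_lit 48)
(.spl (nat_lit 0) (nat_lit 325)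
(.leaf p022_l79)
(.trZ (nat_lit 0) (nat_lit 88) (nat_lit 82) (nat_lit 100) (nat_lit 136) (.leaf p022_l80)))
(.leaf p022_l81))
(.spl (nat_lit 0) (nat_lit 325)
(.leaf p022_l82)
(.leaf p022_l83)))))
(.trZ (nat_lit 0) (nat_lit 92) (nat_lit 81) (nat_lit 100) (nat_lit 132) (.leaf p022_l84)))
(.leaf p022_l85))))
(.spl (nat_lit 0) (nat_lit 330)
(.spl (nat_lit 1) (nat_lit 300)
(.leaf p022_l86)
(.spl (nat_lit 2) (nat_lit 320)
(.leaf p022_l87)
(.leaf p022_l88)))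
(.leaf p022_l89)))
(.trZ (nat_lit 0) (nat_lit 99) (nat_lit 77) (nat_lit 100) (nat_lit 124) (.leaf p022_l90)))
(.spl (nat_lit 2) (nat_lit 240)
(.leaf p022_l91)
(.spl (nat_lit 0) (nat_lit 340)
(.leaf p022_l92)
(.leaf p022_l93))))) (by decide +kernel)
noncomputable def p022_l94 : Lf2 := ⟨nat_lit 0, nat_lit 10, [nat_lit 0, nat_lit 5, nat_lit 5, nat_lit 20], false, nat_lit 0, nat_lit 0, nat_lit 0, nat_lit 0, ⟨nat_lit 307, nat_lit 693, nat_lit 0, nat_lit 7, nat_lit 217, nat_lit 0, nat_lit 0, nat_lit 0, nat_lit 0, nat_lit 0, nat_lit 0, nat_lit 0, nat_lit 0, nat_lit 0, nat_lit 0, nat_lit 5000000, false, false⟩,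
 nat_lit 0, nat_lit 6769, nat_lit 0, nat_lit 0, nat_lit 5076, nat_lit 1751, nat_lit 0, nat_lit 0, nat_lit 0, nat_lit 424, nat_lit 0, nat_lit 0, nat_lit 0, nat_lit 0, nat_lit 0, nat_lit 693000, nat_lit 0, nat_lit 0, [(nat_lit 18, [(nat_lit 2, nat_lit 693)])],
 ⟨p022_k8, nat_lit 0, nat_lit 0, nat_lit 549, nat_lit 0, nat_lit 1018664, [nat_lit 1803217601, nat_lit 2163632001, nat_lit 1611612400], [], [nat_lit 22321163922, nat_lit 22726253990, nat_lit 23728413287, nat_lit 24079898212], nat_lit 1271250, nat_lit 1271250, nat_lit 631250, nat_lit 1751250, nat_lit 0, nat_lit 0, [nat_lit 490000, nat_lit 1100000, nat_lit 1442500], [nat_lit 6, nat_lit 40, nat_lit 80, nat_lit 80, nat_lit 3, nat_lit 272, nat_lit 60, nat_lit 10]⟩, ⟨p022_k9, nat_lit 0, nat_lit 0, nat_lit 173, nat_lit 0, nat_lit 0, [nat_lit 1007574000, nat_lit 1918750000, nat_lit 3021494000], [], [nat_lit 6057152259, nat_lit 6319712831, nat_lit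 7291067740, nat_lit 7536875197], nat_lit 0, nat_lit 0, nat_lit 0, nat_lit 0, nat_lit 0, nat_lit 0, [], [nat_lit 8, nat_lit 40, nat_lit 80, nat_lit 80, nat_lit 1, nat_lit 272, nat_lit 60, nat_lit 8]⟩,
 ⟨nat_lit 4183, nat_lit 4473, ⟨.ofNat (nat_lit 416301), .ofNat (nat_lit 654228), .ofNat (nat_lit 427083), .ofNat (nat_lit 665010), .ofNat (nat_lit 421009), .ofNat (nat_lit 652907), .ofNat (nat_lit 431840), .ofNat (nat_lit 663739)⟩, ⟨.ofNat (nat_lit 0), .ofNat (nat_lit 0), .ofNat (nat_lit 0), .ofNat (nat_lit 0), .ofNat (nat_lit 0), .ofNat (nat_lit 0), .ofNat (nat_lit 0), .ofNat (nat_lit 0)⟩⟩, [⟨nat_lit 0, nat_lit 97, nat_lit 82, nat_lit 100, nat_lit 54778986⟩]⟩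
noncomputable def p022_l95 : Lf2 := ⟨nat_lit 0, nat_lit 10, [nat_lit 0, nat_lit 5, nat_lit 5, nat_lit 20], false, nat_lit 0, nat_lit 0, nat_lit 0, nat_lit 0, ⟨nat_lit 543, nat_lit 457, nat_lit 0, nat_lit 7, nat_lit 223, nat_lit 0, nat_lit 0, nat_lit 0, nat_lit 0, nat_lit 0, nat_lit 0, nat_lit 0, nat_lit 0, nat_lit 0, nat_lit 0, nat_lit 5000000, false, false⟩,
 nat_lit 0, nat_lit 7942, nat_lit 0, nat_lit 0, nat_lit 5956, nat_lit 2953, nat_lit 165, nat_lit 0, nat_lit 0, nat_lit 543, nat_lit 0, nat_lit 0, nat_lit 0, nat_lit 0, nat_lit 0, nat_lit 457000, nat_lit 0, nat_lit 0, [(nat_lit 18, [(nat_lit 2, nat_lit 457)])],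
 ⟨p022_k8, nat_lit 0, nat_lit 0, nat_lit 559, nat_lit 0, nat_lit 1054837, [nat_lit 1881129067, nat_lit 3023301334, nat_lit 3191207600], [], [nat_lit 23478606337, nat_lit 23693415693, nat_lit 24712285156, nat_lit 24917688826], nat_lit 1271250, nat_lit 1271250, nat_lit 689850, nat_lit 1755750, nat_lit 0, nat_lit 0, [nat_lit 490000, nat_lit 1100000, nat_lit 1442500], [nat_lit 6, nat_lit 40, nat_lit 80, nat_lit 80, nat_lit 3, nat_lit 272, nat_lit 60, nat_lit 10]⟩, ⟨p022_k11, nat_lit 0, nat_lit 0, nat_lit 137, nat_lit 0, nat_lit 0, [nat_lit 1782126000, nat_lit 3393750000, nat_lit 4326624000], [], [nat_lit 11119877115, nat_lit 11564081342, nat_lit 12897045560, nat_lit 13277171350], nat_lit 0, nat_lit 0, nat_lit 0, nat_lit 0, nat_lit 0, nat_lit 0, [], [nat_lit 18, nat_lit 40, nat_lit 80, nat_lit 80, nat_lit 2, nat_lit 272, nat_lit 60, nat_lit 9]⟩,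
 ⟨nat_lit 4330, nat_lit 4473, ⟨.ofNat (nat_lit 440694), .ofNat (nat_lit 665023), .ofNat (nat_lit 451477), .ofNat (nat_lit 675805), .ofNat (nat_lit 442886), .ofNat (nat_lit 664374), .ofNat (nat_lit 453692), .ofNat (nat_lit 675180)⟩, ⟨.ofNat (nat_lit 0), .ofNat (nat_lit 0), .ofNat (nat_lit 0), .ofNat (nat_lit 0), .ofNat (nat_lit 0), .ofNat (nat_lit 0), .ofNat (nat_lit 0), .ofNat (nat_lit 0)⟩⟩, [⟨nat_lit 0, nat_lit 93, nat_lit 84, nat_lit 100, nat_lit 190650296⟩]⟩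
noncomputable def p022_l96 : Lf2 := ⟨nat_lit 0, nat_lit 10, [nat_lit 0, nat_lit 5, nat_lit 5, nat_lit 20], false, nat_lit 0, nat_lit 0, nat_lit 0, nat_lit 0, ⟨nat_lit 1000, nat_lit 0, nat_lit 0, nat_lit 0, nat_lit 0, nat_lit 0, nat_lit 0, nat_lit 0, nat_lit 0, nat_lit 0, nat_lit 0, nat_lit 0, nat_lit 0, nat_lit 0, nat_lit 0, nat_lit 0, false, false⟩,
 nat_lit 0, nat_lit 8245, nat_lit 0, nat_lit 0, nat_lit 6304, nat_lit 5452, nat_lit 550, nat_lit 0, nat_lit 0, nat_lit 1005, nat_lit 0, nat_lit 0, nat_lit 0, nat_lit 0, nat_lit 0, nat_lit 0, nat_lit 0, nat_lit 0, [],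
 ⟨p022_k10, nat_lit 0, nat_lit 0, nat_lit 562, nat_lit 0, nat_lit 1065619, [nat_lit 2032000001, nat_lit 4688000000, nat_lit 6250000000], [], [nat_lit 30201555778, nat_lit 30434205077, nat_lit 31398490912, nat_lit 31601861056], nat_lit 1271250, nat_lit 1271250, nat_lit 749650, nat_lit 1760250, nat_lit 0, nat_lit 0, [nat_lit 490000, nat_lit 1100000, nat_lit 1442500], [nat_lit 6, nat_lit 40, nat_lit 80, nat_lit 80, nat_lit 3, nat_lit 272, nat_lit 60, nat_lit 10]⟩, ⟨p022_k11, nat_lit 0, nat_lit 0, nat_lit 134, nat_lit 0, nat_lit 0, [nat_lit 3282000000, nat_lit 6250000000, nat_lit 7968000000], [], [nat_lit 20513782613, nat_lit 21319858905, nat_lit 23732514838, nat_lit 24432633354], nat_lit 0, nat_lit 0, nat_lit 0, nat_lit 0, nat_lit 0, nat_lit 0, [], [nat_lit 18, nat_lit 40, nat_lit 80, nat_lit 80, nat_lit 2, nat_lit 272, nat_lit 60, nat_lit 9]⟩,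
 zbF0, [⟨nat_lit 0, nat_lit 92, nat_lit 81, nat_lit 100, nat_lit 434035303⟩]⟩
noncomputable def p022_l97 : Lf2 := ⟨nat_lit 0, nat_lit 10, [nat_lit 0, nat_lit 5, nat_lit 5, nat_lit 20], false, nat_lit 0, nat_lit 0, nat_lit 0, nat_lit 0, ⟨nat_lit 1000, nat_lit 0, nat_lit 0, nat_lit 0, nat_lit 0, nat_lit 0, nat_lit 0, nat_lit 0, nat_lit 0, nat_lit 0, nat_lit 0, nat_lit 0, nat_lit 0, nat_lit 0, nat_lit 0, nat_lit 0, false, false⟩,
 nat_lit 0, nat_lit 7585, nat_lit 0, nat_lit 0, nat_lit 5912, nat_lit 5208, nat_lit 1265, nat_lit 0, nat_lit 0, nat_lit 1100, nat_lit 0, nat_lit 0, nat_lit 0, nat_lit 0, nat_lit 0, nat_lit 0, nat_lit 0, nat_lit 0, [],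
 ⟨p022_k22, nat_lit 0, nat_lit 0, nat_lit 589, nat_lit 0, nat_lit 1114478, [nat_lit 2032000001, nat_lit 4688000000, nat_lit 6250000000], [], [nat_lit 25188513100, nat_lit 25610136876, nat_lit 26216339008, nat_lit 26559252552], nat_lit 1271250, nat_lit 1271250, nat_lit 719601, nat_lit 1758000, nat_lit 0, nat_lit 0, [nat_lit 490000, nat_lit 1100000, nat_lit 1442500], [nat_lit 6, nat_lit 40, nat_lit 80, nat_lit 80, nat_lit 3, nat_lit 272, nat_lit 60, nat_lit 10]⟩, ⟨p022_k9, nat_lit 0, nat_lit 0, nat_lit 176, nat_lit 0, nat_lit 0, [nat_lit 3282000000, nat_lit 6250000000, nat_lit 9842000000], [], [nat_lit 21603649622, nat_lit 23028722873, nat_lit 24436543260, nat_lit 25617757216], nat_lit 0, nat_lit 0, nat_lit 0, nat_lit 0, nat_lit 0, nat_lit 0, [], [nat_lit 8, nat_lit 40, nat_lit 80, nat_lit 80, nat_lit 1, nat_lit 272, nat_lit 60, nat_lit 8]⟩,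
 zbF0, [⟨nat_lit 0, nat_lit 90, nat_lit 74, nat_lit 100, nat_lit 530032551⟩]⟩
noncomputable def p022_l98 : Lf2 := ⟨nat_lit 0, nat_lit 10, [nat_lit 0, nat_lit 5, nat_lit 5, nat_lit 20], false, nat_lit 0, nat_lit 0, nat_lit 0, nat_lit 0, ⟨nat_lit 1000, nat_lit 0, nat_lit 0, nat_lit 0, nat_lit 0, nat_lit 0, nat_lit 0, nat_lit 0, nat_lit 0, nat_lit 0, nat_lit 0, nat_lit 0, nat_lit 0, nat_lit 0, nat_lit 0, nat_lit 0, false, false⟩,
 nat_lit 0, nat_lit 8331, nat_lit 0, nat_lit 0, nat_lit 6248, nat_lit 5405, nat_lit 506, nat_lit 0, nat_lit 0, nat_lit 1173, nat_lit 0, nat_lit 0, nat_lit 0, nat_lit 0, nat_lit 0, nat_lit 0, nat_lit 0, nat_lit 0, [],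
 ⟨p022_k8, nat_lit 0, nat_lit 0, nat_lit 573, nat_lit 0, nat_lit 1101141, [nat_lit 2032000001, nat_lit 4688000000, nat_lit 6250000000], [], [nat_lit 32255754080, nat_lit 32472121124, nat_lit 33420580416, nat_lit 33623168744], nat_lit 1271250, nat_lit 1271250, nat_lit 780000, nat_lit 1762500, nat_lit 0, nat_lit 0, [nat_lit 490000, nat_lit 1100000, nat_lit 1442500], [nat_lit 6, nat_lit 40, nat_lit 80, nat_lit 80, nat_lit 3, nat_lit 272, nat_lit 60, nat_lit 10]⟩, ⟨p022_k20, nat_lit 0, nat_lit 0, nat_lit 142, nat_lit 0, nat_lit 0, [nat_lit 3282000000, nat_lit 6250000000, nat_lit 7968000000], [], [nat_lit 19814370505, nat_lit 20649132818, nat_lit 23194321685, nat_lit 23891181550], nat_lit 0, nat_lit 0, nat_lit 0, nat_lit 0, nat_lit 0, nat_lit 0, [], [nat_lit 18, nat_lit 40, nat_lit 80, nat_lit 80, nat_lit 2, nat_lit 272, nat_lit 60, nat_lit 9]⟩,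
 zbF0, [⟨nat_lit 0, nat_lit 88, nat_lit 82, nat_lit 100, nat_lit 427506501⟩]⟩
noncomputable def p022_l99 : Lf2 := ⟨nat_lit 0, nat_lit 10, [nat_lit 0, nat_lit 5, nat_lit 5, nat_lit 20], false, nat_lit 0, nat_lit 0, nat_lit 0, nat_lit 0, ⟨nat_lit 1000, nat_lit 0, nat_lit 0, nat_lit 0, nat_lit 0, nat_lit 0, nat_lit 0, nat_lit 0, nat_lit 0, nat_lit 0, nat_lit 0, nat_lit 0, nat_lit 0, nat_lit 0, nat_lit 0, nat_lit 0, false, false⟩,
 nat_lit 0, nat_lit 8240, nat_lit 0, nat_lit 0, nat_lit 6301, nat_lit 5405, nat_lit 547, nat_lit 0, nat_lit 0, nat_lit 1166, nat_lit 0, nat_lit 0, nat_lit 0, nat_lit 0, nat_lit 0, nat_lit 0, nat_lit 0, nat_lit 0, [],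
 ⟨p022_k10, nat_lit 0, nat_lit 0, nat_lit 576, nat_lit 0, nat_lit 1108545, [nat_lit 2032000001, nat_lit 4688000000, nat_lit 6250000000], [], [nat_lit 30224032760, nat_lit 30454575144, nat_lit 31422398653, nat_lit 31625726914], nat_lit 1271250, nat_lit 1271250, nat_lit 810650, nat_lit 1764750, nat_lit 0, nat_lit 0, [nat_lit 490000, nat_lit 1100000, nat_lit 1442500], [nat_lit 6, nat_lit 40, nat_lit 80, nat_lit 80, nat_lit 3, nat_lit 272, nat_lit 60, nat_lit 10]⟩, ⟨p022_k20, nat_lit 0, nat_lit 0, nat_lit 140, nat_lit 0, nat_lit 0, [nat_lit 3282000000, nat_lit 6250000000, nat_lit 7968000000], [], [nat_lit 19880132564, nat_lit 20699325151, nat_lit 23207643560, nat_lit 23904503425], nat_lit 0, nat_lit 0, nat_lit 0, nat_lit 0, nat_lit 0, nat_lit 0, [], [nat_lit 18, nat_lit 40, nat_lit 80, nat_lit 80, nat_lit 2, nat_lit 272, nat_lit 60, nat_lit 9]⟩,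
 zbF0, [⟨nat_lit 0, nat_lit 87, nat_lit 79, nat_lit 100, nat_lit 434694590⟩]⟩
noncomputable def p022_l100 : Lf2 := ⟨nat_lit 0, nat_lit 10, [nat_lit 0, nat_lit 5, nat_lit 5, nat_lit 20], false, nat_lit 0, nat_lit 0, nat_lit 0, nat_lit 0, ⟨nat_lit 1000, nat_lit 0, nat_lit 0, nat_lit 0, nat_lit 0, nat_lit 0, nat_lit 0, nat_lit 0, nat_lit 0, nat_lit 0, nat_lit 0, nat_lit 0, nat_lit 0, nat_lit 0, nat_lit 0, nat_lit 0, false, false⟩,
 nat_lit 0, nat_lit 8540, nat_lit 0, nat_lit 0, nat_lit 6404, nat_lit 5524, nat_lit 501, nat_lit 0, nat_lit 0, nat_lit 1208, nat_lit 0, nat_lit 0, nat_lit 0, nat_lit 0, nat_lit 0, nat_lit 0, nat_lit 0, nat_lit 0, [],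
 ⟨p022_k8, nat_lit 0, nat_lit 0, nat_lit 605, nat_lit 0, nat_lit 1163135, [nat_lit 2032000001, nat_lit 4688000000, nat_lit 6250000000], [], [nat_lit 31593245290, nat_lit 31809262377, nat_lit 31559735394, nat_lit 31763870230], nat_lit 1271250, nat_lit 1271250, nat_lit 872850, nat_lit 1100001, nat_lit 0, nat_lit 0, [nat_lit 490000, nat_lit 1100000, nat_lit 1442500], [nat_lit 6, nat_lit 40, nat_lit 80, nat_lit 80, nat_lit 3, nat_lit 249, nat_lit 40, nat_lit 9]⟩, ⟨p022_k21, nat_lit 0, nat_lit 0, nat_lit 146, nat_lit 0, nat_lit 0, [nat_lit 3282000000, nat_lit 6250000000, nat_lit 7968000000], [], [nat_lit 19572733348, nat_lit 20458218530, nat_lit 19696168016, nat_lit 20528372568], nat_lit 0, nat_lit 0, nat_lit 0, nat_lit 0, nat_lit 0, nat_lit 0, [], [nat_lit 18, nat_lit 40, nat_lit 80, nat_lit 80, nat_lit 2, nat_lit 249, nat_lit 40, nat_lit 8]⟩,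
 zbF0, [⟨nat_lit 0, nat_lit 83, nat_lit 81, nat_lit 100, nat_lit 746781572⟩]⟩
noncomputable def p022_l101 : Lf2 := ⟨nat_lit 0, nat_lit 10, [nat_lit 0, nat_lit 5, nat_lit 5, nat_lit 20], false, nat_lit 0, nat_lit 0, nat_lit 0, nat_lit 0, ⟨nat_lit 1000, nat_lit 0, nat_lit 0, nat_lit 0, nat_lit 0, nat_lit 0, nat_lit 0, nat_lit 0, nat_lit 0, nat_lit 0, nat_lit 0, nat_lit 0, nat_lit 0, nat_lit 0, nat_lit 0, nat_lit 0, false, false⟩,
 nat_lit 0, nat_lit 8376, nat_lit 0, nat_lit 0, nat_lit 6405, nat_lit 5524, nat_lit 538, nat_lit 0, nat_lit 0, nat_lit 1208, nat_lit 0, nat_lit 0, nat_lit 0, nat_lit 0, nat_lit 0, nat_lit 0, nat_lit 0, nat_lit 0, [],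
 ⟨p022_k10, nat_lit 0, nat_lit 0, nat_lit 606, nat_lit 0, nat_lit 1167322, [nat_lit 2032000001, nat_lit 4688000000, nat_lit 6250000000], [], [nat_lit 29844304800, nat_lit 30056919119, nat_lit 29821775462, nat_lit 30025924482], nat_lit 1271250, nat_lit 1271250, nat_lit 904401, nat_lit 1100001, nat_lit 0, nat_lit 0, [nat_lit 490000, nat_lit 1100000, nat_lit 1442500], [nat_lit 6, nat_lit 40, nat_lit 80, nat_lit 80, nat_lit 3, nat_lit 249, nat_lit 40, nat_lit 9]⟩, ⟨p022_k21, nat_lit 0, nat_lit 0, nat_lit 144, nat_lit 0, nat_lit 0, [nat_lit 3282000000, nat_lit 6250000000, nat_lit 7968000000], [], [nat_lit 19587570592, nat_lit 20467892157, nat_lit 19696168016, nat_lit 20528372568], nat_lit 0, nat_lit 0, nat_lit 0, nat_lit 0, nat_lit 0, nat_lit 0, [], [nat_lit 18, nat_lit 40, nat_lit 80, nat_lit 80, nat_lit 2, nat_lit 249, nat_lit 40, nat_lit 8]⟩,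
 zbF0, [⟨nat_lit 0, nat_lit 82, nat_lit 78, nat_lit 100, nat_lit 774586713⟩]⟩
noncomputable def p022_l102 : Lf2 := ⟨nat_lit 0, nat_lit 10, [nat_lit 0, nat_lit 5, nat_lit 5, nat_lit 20], false, nat_lit 0, nat_lit 0, nat_lit 0, nat_lit 0, ⟨nat_lit 1000, nat_lit 0, nat_lit 0, nat_lit 0, nat_lit 0, nat_lit 0, nat_lit 0, nat_lit 0, nat_lit 0, nat_lit 0, nat_lit 0, nat_lit 0, nat_lit 0, nat_lit 0, nat_lit 0, nat_lit 0, false, false⟩,
 nat_lit 0, nat_lit 8270, nat_lit 0, nat_lit 0, nat_lit 6202, nat_lit 5524, nat_lit 491, nat_lit 0, nat_lit 0, nat_lit 1208, nat_lit 0, nat_lit 0, nat_lit 0, nat_lit 0, nat_lit 0, nat_lit 0, nat_lit 0, nat_lit 0, [],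
 ⟨p022_k8, nat_lit 0, nat_lit 0, nat_lit 573, nat_lit 0, nat_lit 1109686, [nat_lit 2032000001, nat_lit 4688000000, nat_lit 6250000000], [], [nat_lit 32549969245, nat_lit 32974072676, nat_lit 32495730841, nat_lit 32902000136], nat_lit 1271250, nat_lit 1271250, nat_lit 872850, nat_lit 1100001, nat_lit 0, nat_lit 0, [nat_lit 490000, nat_lit 1100000, nat_lit 1442500], [nat_lit 6, nat_lit 40, nat_lit 80, nat_lit 80, nat_lit 3, nat_lit 249, nat_lit 40, nat_lit 9]⟩, ⟨p022_k21, nat_lit 0, nat_lit 0, nat_lit 146, nat_lit 0, nat_lit 0, [nat_lit 3282000000, nat_lit 6250000000, nat_lit 7968000000], [], [nat_lit 19572733348, nat_lit 20458218530, nat_lit 19696168016, nat_lit 20528372568], nat_lit 0, nat_lit 0, nat_lit 0, nat_lit 0, nat_lit 0, nat_lit 0, [], [nat_lit 18, nat_lit 40, nat_lit 80, nat_lit 80, nat_lit 2, nat_lit 249, nat_lit 40, nat_lit 8]⟩,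
 zbF0, [⟨nat_lit 0, nat_lit 82, nat_lit 78, nat_lit 100, nat_lit 787013797⟩]⟩
noncomputable def p022_l103 : Lf2 := ⟨nat_lit 0, nat_lit 10, [nat_lit 0, nat_lit 5, nat_lit 5, nat_lit 20], false, nat_lit 0, nat_lit 0, nat_lit 0, nat_lit 0, ⟨nat_lit 1000, nat_lit 0, nat_lit 0, nat_lit 0, nat_lit 0, nat_lit 0, nat_lit 0, nat_lit 0, nat_lit 0, nat_lit 0, nat_lit 0, nat_lit 0, nat_lit 0, nat_lit 0, nat_lit 0, nat_lit 0, false, false⟩,
 nat_lit 0, nat_lit 8493, nat_lit 0, nat_lit 0, nat_lit 6369, nat_lit 5524, nat_lit 493, nat_lit 0, nat_lit 0, nat_lit 1208, nat_lit 0, nat_lit 0, nat_lit 0, nat_lit 0, nat_lit 0, nat_lit 0, nat_lit 0, nat_lit 0, [],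
 ⟨p022_k8, nat_lit 0, nat_lit 0, nat_lit 604, nat_lit 0, nat_lit 1185503, [nat_lit 2032000001, nat_lit 4688000000, nat_lit 6250000000], [], [nat_lit 31745548714, nat_lit 31949187110, nat_lit 32890212248, nat_lit 33094489857], nat_lit 1271250, nat_lit 1271250, nat_lit 1100001, nat_lit 1785000, nat_lit 0, nat_lit 0, [nat_lit 490000, nat_lit 1100000, nat_lit 1442500], [nat_lit 6, nat_lit 40, nat_lit 80, nat_lit 80, nat_lit 3, nat_lit 272, nat_lit 60, nat_lit 10]⟩, ⟨p022_k21, nat_lit 0, nat_lit 0, nat_lit 142, nat_lit 0, nat_lit 0, [nat_lit 3282000000, nat_lit 6250000000, nat_lit 7968000000], [], [nat_lit 19696168016, nat_lit 20528372568, nat_lit 22709160044, nat_lit 23709695520], nat_lit 0, nat_lit 0, nat_lit 0, nat_lit 0, nat_lit 0, nat_lit 0, [], [nat_lit 18, nat_lit 40, nat_lit 80, nat_lit 80, nat_lit 2, nat_lit 272, nat_lit 60, nat_lit 9]⟩,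
 zbF0, []⟩
noncomputable def p022_l104 : Lf2 := ⟨nat_lit 0, nat_lit 10, [nat_lit 0, nat_lit 5, nat_lit 5, nat_lit 20], false, nat_lit 0, nat_lit 0, nat_lit 0, nat_lit 0, ⟨nat_lit 1000, nat_lit 0, nat_lit 0, nat_lit 0, nat_lit 0, nat_lit 0, nat_lit 0, nat_lit 0, nat_lit 0, nat_lit 0, nat_lit 0, nat_lit 0, nat_lit 0, nat_lit 0, nat_lit 0, nat_lit 0, false, false⟩,
 nat_lit 0, nat_lit 8376, nat_lit 0, nat_lit 0, nat_lit 6405, nat_lit 5524, nat_lit 533, nat_lit 0, nat_lit 0, nat_lit 1208, nat_lit 0, nat_lit 0, nat_lit 0, nat_lit 0, nat_lit 0, nat_lit 0, nat_lit 0, nat_lit 0, [],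
 ⟨p022_k10, nat_lit 0, nat_lit 0, nat_lit 607, nat_lit 0, nat_lit 1189663, [nat_lit 2032000001, nat_lit 4688000000, nat_lit 6250000000], [], [nat_lit 29839775462, nat_lit 30045643900, nat_lit 31018396965, nat_lit 31223177170], nat_lit 1271250, nat_lit 1271250, nat_lit 1100001, nat_lit 1785000, nat_lit 0, nat_lit 0, [nat_lit 490000, nat_lit 1100000, nat_lit 1442500], [nat_lit 6, nat_lit 40, nat_lit 80, nat_lit 80, nat_lit 3, nat_lit 272, nat_lit 60, nat_lit 10]⟩, ⟨p022_k21, nat_lit 0, nat_lit 0, nat_lit 142, nat_lit 0, nat_lit 0, [nat_lit 3282000000, nat_lit 6250000000, nat_lit 7968000000], [], [nat_lit 19696168016, nat_lit 20528372568, nat_lit 22709160044, nat_lit 23709695520], nat_lit 0, nat_lit 0, nat_lit 0, nat_lit 0, nat_lit 0, nat_lit 0, [], [nat_lit 18, nat_lit 40, nat_lit 80, nat_lit 80, nat_lit 2, nat_lit 272, nat_lit 60, nat_lit 9]⟩,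
 zbF0, []⟩
noncomputable def p022_l105 : Lf2 := ⟨nat_lit 0, nat_lit 10, [nat_lit 0, nat_lit 5, nat_lit 5, nat_lit 20], false, nat_lit 0, nat_lit 0, nat_lit 0, nat_lit 0, ⟨nat_lit 1000, nat_lit 0, nat_lit 0, nat_lit 0, nat_lit 0, nat_lit 0, nat_lit 0, nat_lit 0, nat_lit 0, nat_lit 0, nat_lit 0, nat_lit 0, nat_lit 0, nat_lit 0, nat_lit 0, nat_lit 0, false, false⟩,
 nat_lit 0, nat_lit 6770, nat_lit 0, nat_lit 0, nat_lit 5277, nat_lit 5309, nat_lit 1920, nat_lit 0, nat_lit 0, nat_lit 545, nat_lit 0, nat_lit 0, nat_lit 0, nat_lit 0, nat_lit 0, nat_lit 0, nat_lit 0, nat_lit 0, [],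
 ⟨p022_k22, nat_lit 0, nat_lit 0, nat_lit 634, nat_lit 0, nat_lit 1229199, [nat_lit 2032000001, nat_lit 4688000000, nat_lit 6250000000], [], [nat_lit 23882834308, nat_lit 24286907340, nat_lit 25119022304, nat_lit 25459530024], nat_lit 1271250, nat_lit 1271250, nat_lit 872850, nat_lit 1769250, nat_lit 0, nat_lit 0, [nat_lit 490000, nat_lit 1100000, nat_lit 1442500], [nat_lit 6, nat_lit 40, nat_lit 80, nat_lit 80, nat_lit 3, nat_lit 272, nat_lit 60, nat_lit 10]⟩, ⟨p022_k20, nat_lit 0, nat_lit 0, nat_lit 146, nat_lit 0, nat_lit 0, [nat_lit 3282000000, nat_lit 6250000000, nat_lit 7968000000], [], [nat_lit 23150736062, nat_lit 24702353052, nat_lit 26036044997, nat_lit 27403065399], nat_lit 0, nat_lit 0, nat_lit 0, nat_lit 0, nat_lit 0, nat_lit 0, [], [nat_lit 18, nat_lit 40, nat_lit 80, nat_lit 80, nat_lit 2, nat_lit 272, nat_lit 60, nat_lit 9]⟩,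
 zbF0, [⟨nat_lit 0, nat_lit 81, nat_lit 72, nat_lit 100, nat_lit 504337295⟩]⟩
noncomputable def p022_l106 : Lf2 := ⟨nat_lit 0, nat_lit 10, [nat_lit 0, nat_lit 5, nat_lit 5, nat_lit 20], false, nat_lit 0, nat_lit 0, nat_lit 0, nat_lit 0, ⟨nat_lit 1000, nat_lit 0, nat_lit 0, nat_lit 0, nat_lit 0, nat_lit 0, nat_lit 0, nat_lit 0, nat_lit 0, nat_lit 0, nat_lit 0, nat_lit 0, nat_lit 0, nat_lit 0, nat_lit 0, nat_lit 0, false, false⟩,
 nat_lit 0, nat_lit 9895, nat_lit 0, nat_lit 0, nat_lit 7421, nat_lit 5280, nat_lit 461, nat_lit 0, nat_lit 0, nat_lit 0, nat_lit 0, nat_lit 0, nat_lit 0, nat_lit 0, nat_lit 0, nat_lit 0, nat_lit 0, nat_lit 0, [],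
 ⟨p022_k8, nat_lit 0, nat_lit 0, nat_lit 556, nat_lit 0, nat_lit 1048634, [nat_lit 2032000001, nat_lit 4688000000, nat_lit 6250000000], [], [nat_lit 27633160994, nat_lit 28507991987, nat_lit 28279077432, nat_lit 29154935756], nat_lit 1271250, nat_lit 1271250, nat_lit 780000, nat_lit 1762500, nat_lit 0, nat_lit 0, [nat_lit 490000, nat_lit 1100000, nat_lit 1442500], [nat_lit 6, nat_lit 40, nat_lit 80, nat_lit 80, nat_lit 3, nat_lit 272, nat_lit 60, nat_lit 10]⟩, ⟨p022_k20, nat_lit 0, nat_lit 0, nat_lit 150, nat_lit 0, nat_lit 0, [nat_lit 3282000000, nat_lit 6250000000, nat_lit 7968000000], [], [nat_lit 25821342880, nat_lit 27395371760, nat_lit 28802042240, nat_lit 30136038080], nat_lit 0, nat_lit 0, nat_lit 0, nat_lit 0, nat_lit 0, nat_lit 0, [], [nat_lit 18, nat_lit 40, nat_lit 80, nat_lit 80, nat_lit 2, nat_lit 272, nat_lit 60, nat_lit 9]⟩,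
 zbF0, [⟨nat_lit 0, nat_lit 81, nat_lit 72, nat_lit 100, nat_lit 575983909⟩]⟩
noncomputable def p022_l107 : Lf2 := ⟨nat_lit 0, nat_lit 10, [nat_lit 0, nat_lit 5, nat_lit 5, nat_lit 20], false, nat_lit 0, nat_lit 0, nat_lit 0, nat_lit 0, ⟨nat_lit 1000, nat_lit 0, nat_lit 0, nat_lit 0, nat_lit 0, nat_lit 0, nat_lit 0, nat_lit 0, nat_lit 0, nat_lit 0, nat_lit 0, nat_lit 0, nat_lit 0, nat_lit 0, nat_lit 0, nat_lit 0, false, false⟩,
 nat_lit 0, nat_lit 8188, nat_lit 0, nat_lit 0, nat_lit 6141, nat_lit 5040, nat_lit 459, nat_lit 0, nat_lit 0, nat_lit 865, nat_lit 0, nat_lit 0, nat_lit 0, nat_lit 0, nat_lit 0, nat_lit 0, nat_lit 0, nat_lit 0, [],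
 ⟨p022_k8, nat_lit 0, nat_lit 0, nat_lit 553, nat_lit 0, nat_lit 1094046, [nat_lit 2032000001, nat_lit 4688000000, nat_lit 6250000000], [], [nat_lit 34027179182, nat_lit 34357653660, nat_lit 38874423228, nat_lit 39141674003], nat_lit 1271250, nat_lit 1271250, nat_lit 1271250, nat_lit 1271250, nat_lit 0, nat_lit 0, [nat_lit 490000, nat_lit 1100000, nat_lit 1442500], [nat_lit 6, nat_lit 40, nat_lit 80, nat_lit 80, nat_lit 3, nat_lit 230, nat_lit 0, nat_lit 8]⟩, ⟨p022_k9, nat_lit 0, nat_lit 0, nat_lit 217, nat_lit 0, nat_lit 0, [nat_lit 3282000000, nat_lit 6250000000, nat_lit 9842000000], [], [nat_lit 26082151925, nat_lit 27200036005, nat_lit 35170943445, nat_lit 35921720240], nat_lit 0, nat_lit 0, nat_lit 0, nat_lit 0, nat_lit 0, nat_lit 0, [], [nat_lit 8, nat_lit 40, nat_lit 80, nat_lit 80, nat_lit 1, nat_lit 317, nat_lit 100, nat_lit 9]⟩,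
 zbF0, []⟩
noncomputable def p022_l108 : Lf2 := ⟨nat_lit 0, nat_lit 10, [nat_lit 0, nat_lit 5, nat_lit 5, nat_lit 20], false, nat_lit 0, nat_lit 0, nat_lit 0, nat_lit 0, ⟨nat_lit 1000, nat_lit 0, nat_lit 0, nat_lit 0, nat_lit 0, nat_lit 0, nat_lit 0, nat_lit 0, nat_lit 0, nat_lit 0, nat_lit 0, nat_lit 0, nat_lit 0, nat_lit 0, nat_lit 0, nat_lit 0, false, false⟩,
 nat_lit 0, nat_lit 9521, nat_lit 0, nat_lit 0, nat_lit 7140, nat_lit 5325, nat_lit 415, nat_lit 0, nat_lit 0, nat_lit 1044, nat_lit 0, nat_lit 0, nat_lit 0, nat_lit 0, nat_lit 0, nat_lit 0, nat_lit 0, nat_lit 0, [],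
 ⟨p022_k8, nat_lit 0, nat_lit 0, nat_lit 620, nat_lit 0, nat_lit 1259808, [nat_lit 2032000001, nat_lit 4688000000, nat_lit 6250000000], [], [nat_lit 31215395600, nat_lit 31522536540, nat_lit 32898996880, nat_lit 33817418280], nat_lit 1271250, nat_lit 1271250, nat_lit 1271250, nat_lit 1271250, nat_lit 0, nat_lit 0, [nat_lit 490000, nat_lit 1100000, nat_lit 1442500], [nat_lit 6, nat_lit 40, nat_lit 80, nat_lit 80, nat_lit 3, nat_lit 237, nat_lit 0, nat_lit 8]⟩, ⟨p022_k20, nat_lit 0, nat_lit 0, nat_lit 167, nat_lit 0, nat_lit 0, [nat_lit 3282000000, nat_lit 6250000000, nat_lit 7968000000], [], [nat_lit 23517416650, nat_lit 24900043100, nat_lit 28256952700, nat_lit 29487569300], nat_lit 0, nat_lit 0, nat_lit 0, nat_lit 0, nat_lit 0, nat_lit 0, [], [nat_lit 18, nat_lit 40, nat_lit 80, nat_lit 80, nat_lit 2, nat_lit 203, nat_lit 0, nat_lit 6]⟩,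
 zbF0, []⟩
noncomputable def p022_l109 : Lf2 := ⟨nat_lit 0, nat_lit 10, [nat_lit 0, nat_lit 5, nat_lit 5, nat_lit 20], false, nat_lit 0, nat_lit 0, nat_lit 0, nat_lit 0, ⟨nat_lit 1000, nat_lit 0, nat_lit 0, nat_lit 0, nat_lit 0, nat_lit 0, nat_lit 0, nat_lit 0, nat_lit 0, nat_lit 0, nat_lit 0, nat_lit 0, nat_lit 0, nat_lit 0, nat_lit 0, nat_lit 0, false, false⟩,
 nat_lit 0, nat_lit 8438, nat_lit 0, nat_lit 0, nat_lit 6328, nat_lit 5428, nat_lit 379, nat_lit 0, nat_lit 0, nat_lit 736, nat_lit 0, nat_lit 0, nat_lit 0, nat_lit 0, nat_lit 0, nat_lit 0, nat_lit 0, nat_lit 0, [],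
 ⟨p022_k8, nat_lit 0, nat_lit 0, nat_lit 620, nat_lit 0, nat_lit 1259808, [nat_lit 2032000001, nat_lit 4688000000, nat_lit 6250000000], [], [nat_lit 37355247968, nat_lit 37583281120, nat_lit 39458542688, nat_lit 39682293024], nat_lit 1271250, nat_lit 1271250, nat_lit 1271250, nat_lit 1271250, nat_lit 0, nat_lit 0, [nat_lit 490000, nat_lit 1100000, nat_lit 1442500], [nat_lit 6, nat_lit 40, nat_lit 80, nat_lit 80, nat_lit 3, nat_lit 247, nat_lit 0, nat_lit 8]⟩, ⟨p022_k20, nat_lit 0, nat_lit 0, nat_lit 199, nat_lit 0, nat_lit 0, [nat_lit 3282000000, nat_lit 6250000000, nat_lit 7968000000], [], [nat_lit 31403875608, nat_lit 32219775616, nat_lit 35772018784, nat_lit 36461142192], nat_lit 0, nat_lit 0, nat_lit 0, nat_lit 0, nat_lit 0, nat_lit 0, [], [nat_lit 18, nat_lit 40, nat_lit 80, nat_lit 80, nat_lit 2, nat_lit 203, nat_lit 0, nat_lit 6]⟩,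
 zbF0, []⟩
noncomputable def p022_l110 : Lf2 := ⟨nat_lit 0, nat_lit 10, [nat_lit 0, nat_lit 5, nat_lit 5, nat_lit 20], false, nat_lit 0, nat_lit 0, nat_lit 0, nat_lit 0, ⟨nat_lit 1000, nat_lit 0, nat_lit 0, nat_lit 0, nat_lit 0, nat_lit 0, nat_lit 0, nat_lit 0, nat_lit 0, nat_lit 0, nat_lit 0, nat_lit 0, nat_lit 0, nat_lit 0, nat_lit 0, nat_lit 0, false, false⟩,
 nat_lit 0, nat_lit 6059, nat_lit 0, nat_lit 0, nat_lit 4723, nat_lit 7585, nat_lit 1491, nat_lit 0, nat_lit 0, nat_lit 403, nat_lit 0, nat_lit 0, nat_lit 0, nat_lit 0, nat_lit 0, nat_lit 0, nat_lit 0, nat_lit 0, [],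
 ⟨p022_k22, nat_lit 0, nat_lit 0, nat_lit 623, nat_lit 0, nat_lit 1267496, [nat_lit 2032000001, nat_lit 4688000000, nat_lit 6250000000], [], [nat_lit 31776140461, nat_lit 32072602857, nat_lit 35488616156, nat_lit 35698254199], nat_lit 1271250, nat_lit 1271250, nat_lit 1271250, nat_lit 1271250, nat_lit 0, nat_lit 0, [nat_lit 490000, nat_lit 1100000, nat_lit 1442500], [nat_lit 6, nat_lit 40, nat_lit 80, nat_lit 80, nat_lit 3, nat_lit 249, nat_lit 0, nat_lit 9]⟩, ⟨p022_k9, nat_lit 0, nat_lit 0, nat_lit 219, nat_lit 0, nat_lit 0, [nat_lit 3282000000, nat_lit 6250000000, nat_lit 9842000000], [], [nat_lit 30646653935, nat_lit 33031363755, nat_lit 40768539055, nat_lit 42494907260], nat_lit 0, nat_lit 0, nat_lit 0, nat_lit 0, nat_lit 0, nat_lit 0, [], [nat_lit 8, nat_lit 40, nat_lit 80, nat_lit 80, nat_lit 1, nat_lit 317, nat_lit 100, nat_lit 9]⟩,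
 zbF0, []⟩
noncomputable def p022_l111 : Lf2 := ⟨nat_lit 0, nat_lit 10, [nat_lit 0, nat_lit 5, nat_lit 5, nat_lit 20], false, nat_lit 0, nat_lit 0, nat_lit 0, nat_lit 0, ⟨nat_lit 1000, nat_lit 0, nat_lit 0, nat_lit 0, nat_lit 0, nat_lit 0, nat_lit 0, nat_lit 0, nat_lit 0, nat_lit 0, nat_lit 0, nat_lit 0, nat_lit 0, nat_lit 0, nat_lit 0, nat_lit 0, false, false⟩,
 nat_lit 0, nat_lit 5693, nat_lit 0, nat_lit 0, nat_lit 4608, nat_lit 6346, nat_lit 910, nat_lit 0, nat_lit 0, nat_lit 833, nat_lit 0, nat_lit 0, nat_lit 0, nat_lit 0, nat_lit 0, nat_lit 0, nat_lit 0, nat_lit 0, [],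
 ⟨p022_k23, nat_lit 0, nat_lit 0, nat_lit 691, nat_lit 0, nat_lit 1348122, [nat_lit 2032000001, nat_lit 4688000000, nat_lit 6250000000], [], [nat_lit 29892124186, nat_lit 30633694604, nat_lit 36036637802, nat_lit 36559376778], nat_lit 1271250, nat_lit 1271250, nat_lit 810650, nat_lit 3080750, nat_lit 0, nat_lit 0, [nat_lit 490000, nat_lit 1100000, nat_lit 1442500], [nat_lit 6, nat_lit 40, nat_lit 80, nat_lit 80, nat_lit 3, nat_lit 317, nat_lit 100, nat_lit 12]⟩, ⟨p022_k9, nat_lit 0, nat_lit 0, nat_lit 219, nat_lit 0, nat_lit 0, [nat_lit 3282000000, nat_lit 6250000000, nat_lit 9842000000], [], [nat_lit 26938724079, nat_lit 29653761257, nat_lit 37453452144, nat_lit 39030438744], nat_lit 0, nat_lit 0, nat_lit 0, nat_lit 0, nat_lit 0, nat_lit 0, [], [nat_lit 8, nat_lit 40, nat_lit 80, nat_lit 80, nat_lit 1, nat_lit 317, nat_lit 100, nat_lit 9]⟩,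
 zbF0, [⟨nat_lit 0, nat_lit 80, nat_lit 60, nat_lit 100, nat_lit 313396863⟩]⟩
noncomputable def p022_l112 : Lf2 := ⟨nat_lit 0, nat_lit 10, [nat_lit 0, nat_lit 5, nat_lit 5, nat_lit 20], false, nat_lit 0, nat_lit 0, nat_lit 0, nat_lit 0, ⟨nat_lit 653, nat_lit 347, nat_lit 0, nat_lit 7, nat_lit 276, nat_lit 0, nat_lit 0, nat_lit 0, nat_lit 0, nat_lit 0, nat_lit 0, nat_lit 0, nat_lit 0, nat_lit 0, nat_lit 0, nat_lit 5000000, false, false⟩,
 nat_lit 7153, nat_lit 0, nat_lit 0, nat_lit 0, nat_lit 5364, nat_lit 4551, nat_lit 248, nat_lit 0, nat_lit 0, nat_lit 546, nat_lit 0, nat_lit 0, nat_lit 0, nat_lit 0, nat_lit 0, nat_lit 347000, nat_lit 0, nat_lit 0, [(nat_lit 18, [(nat_lit 2, nat_lit 347)])],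
 ⟨p022_k8, nat_lit 0, nat_lit 0, nat_lit 413, nat_lit 0, nat_lit 684222, [nat_lit 1917443734, nat_lit 3423994667, nat_lit 3927459600], [], [nat_lit 25182296227, nat_lit 26146338635, nat_lit 36281091184, nat_lit 37562486736], nat_lit 1271250, nat_lit 1271250, nat_lit 631250, nat_lit 3031250, nat_lit 0, nat_lit 0, [nat_lit 490000, nat_lit 1100000, nat_lit 1442500], [nat_lit 6, nat_lit 40, nat_lit 80, nat_lit 80, nat_lit 3, nat_lit 317, nat_lit 100, nat_lit 12]⟩, ⟨p022_k9, nat_lit 0, nat_lit 0, nat_lit 611, nat_lit 0, nat_lit 827183, [nat_lit 2143146000, nat_lit 4081250000, nat_lit 6426826000], [], [nat_lit 21701972554, nat_lit 22644119003, nat_lit 28363316916, nat_lit 26624462540], nat_lit 1271250, nat_lit 1271250, nat_lit 631250, nat_lit 3031250, nat_lit 0, nat_lit 0, [nat_lit 780000, nat_lit 1435000, nat_lit 1271250], [nat_lit 8, nat_lit 40, nat_lit 80, nat_lit 80, nat_lit 1, nat_lit 317,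 nat_lit 100, nat_lit 9]⟩,
 ⟨nat_lit 3872, nat_lit 4473, ⟨.ofNat (nat_lit 416230), .ofNat (nat_lit 926124), .ofNat (nat_lit 459327), .ofNat (nat_lit 969223), .ofNat (nat_lit 425778), .ofNat (nat_lit 909748), .ofNat (nat_lit 469330), .ofNat (nat_lit 953301)⟩, ⟨.ofNat (nat_lit 0), .ofNat (nat_lit 0), .ofNat (nat_lit 0), .ofNat (nat_lit 0), .ofNat (nat_lit 0), .ofNat (nat_lit 0), .ofNat (nat_lit 0), .ofNat (nat_lit 0)⟩⟩, []⟩
noncomputable def p022_l113 : Lf2 := ⟨nat_lit 0, nat_lit 10, [nat_lit 0, nat_lit 5, nat_lit 5, nat_lit 20], false, nat_lit 0, nat_lit 0, nat_lit 0, nat_lit 0, ⟨nat_lit 449, nat_lit 551, nat_lit 0, nat_lit 7, nat_lit 283, nat_lit 0, nat_lit 0, nat_lit 0, nat_lit 0, nat_lit 0, nat_lit 0, nat_lit 0, nat_lit 0, nat_lit 0, nat_lit 0, nat_lit 5000000, false, false⟩,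
 nat_lit 5070, nat_lit 0, nat_lit 0, nat_lit 0, nat_lit 3741, nat_lit 3226, nat_lit 291, nat_lit 0, nat_lit 0, nat_lit 273, nat_lit 0, nat_lit 0, nat_lit 0, nat_lit 0, nat_lit 0, nat_lit 220400, nat_lit 0, nat_lit 0, [(nat_lit 21, [(nat_lit 1, nat_lit 551)])],
 ⟨p022_k23, nat_lit 0, nat_lit 0, nat_lit 419, nat_lit 0, nat_lit 702074, [nat_lit 1659083200, nat_lit 2927444801, nat_lit 3628342000], [], [nat_lit 26803064971, nat_lit 27707642130, nat_lit 33379957011, nat_lit 33927837637], nat_lit 1271250, nat_lit 1271250, nat_lit 810650, nat_lit 3080750, nat_lit 0, nat_lit 0, [nat_lit 490000, nat_lit 1100000, nat_lit 1442500], [nat_lit 6, nat_lit 40, nat_lit 80, nat_lit 80, nat_lit 3, nat_lit 317, nat_lit 100, nat_lit 12]⟩, ⟨p022_k9, nat_lit 0, nat_lit 0, nat_lit 637, nat_lit 0, nat_lit 925801, [nat_lit 1473618000, nat_lit 2806250000, nat_lit 4419058000], [], [nat_lit 16911865124, nat_lit 17387603715,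 nat_lit 20199095468, nat_lit 18598130993], nat_lit 1271250, nat_lit 1271250, nat_lit 810650, nat_lit 3080750, nat_lit 0, nat_lit 0, [nat_lit 780000, nat_lit 1435000, nat_lit 1271250], [nat_lit 8, nat_lit 40, nat_lit 80, nat_lit 80, nat_lit 1, nat_lit 317, nat_lit 100, nat_lit 9]⟩,
 ⟨nat_lit 3162, nat_lit 3873, ⟨.ofNat (nat_lit 464406), .ofNat (nat_lit 909779), .ofNat (nat_lit 507934), .ofNat (nat_lit 953347), .ofNat (nat_lit 472632), .ofNat (nat_lit 893385), .ofNat (nat_lit 516884), .ofNat (nat_lit 937676)⟩, ⟨.ofNat (nat_lit 0), .ofNat (nat_lit 0), .ofNat (nat_lit 0), .ofNat (nat_lit 0), .ofNat (nat_lit 0), .ofNat (nat_lit 0), .ofNat (nat_lit 0), .ofNat (nat_lit 0)⟩⟩, []⟩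
noncomputable def b_N_800_700_0_39 : St := ⟨false, nat_lit 1, nat_lit 2, nat_lit 2, nat_lit 40, nat_lit 320, nat_lit 360, nat_lit 280, nat_lit 320, nat_lit 100, nat_lit 400, nat_lit 0, nat_lit 0, nat_lit 0, nat_lit 0, nat_lit 0, nat_lit 0, nat_lit 40, nat_lit 80, nat_lit 0, nat_lit 0, nat_lit 0, nat_lit 0⟩
theorem d_N_800_700_0_39 (h : EB TB.env) : Dead b_N_800_700_0_39 := chkB_sound0 h (T :=
(.st (nat_lit 1)
(.spl (nat_lit 0) (nat_lit 340)
(.spl (nat_lit 2) (nat_lit 240)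
(.spl (nat_lit 1) (nat_lit 300)
(.spl (nat_lit 0) (nat_lit 330)
(.spl (nat_lit 1) (nat_lit 290)
(.leaf p022_l94)
(.trZ (nat_lit 0) (nat_lit 100) (nat_lit 89) (nat_lit 100) (nat_lit 108) (.spl (nat_lit 0) (nat_lit 325)
(.leaf p022_l95)
(.trZ (nat_lit 0) (nat_lit 98) (nat_lit 86) (nat_lit 100) (nat_lit 116) (.leaf p022_l96)))))
(.trZ (nat_lit 0) (nat_lit 100) (nat_lit 83) (nat_lit 98) (nat_lit 112) (.leaf p022_l97)))
(.trZ (nat_lit 0) (nat_lit 94) (nat_lit 87) (nat_lit 100) (nat_lit 120) (.spl (nat_lit 6) (nat_lit 60)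
(.spl (nat_lit 0) (nat_lit 330)
(.spl (nat_lit 1) (nat_lit 310)
(.spl (nat_lit 0) (nat_lit 325)
(.leaf p022_l98)
(.trZ (nat_lit 0) (nat_lit 93) (nat_lit 84) (nat_lit 100) (nat_lit 124) (.leaf p022_l99)))
(.trZ (nat_lit 0) (nat_lit 89) (nat_lit 85) (nat_lit 100) (nat_lit 132) (.spl (nat_lit 2) (nat_lit 160)
(.spl (nat_lit 6) (nat_lit 48)
(.spl (nat_lit 0) (nat_lit 325)
(.leaf p022_l100)
(.trZ (nat_lit 0) (nat_lit 88) (nat_lit 82) (nat_lit 100) (nat_lit 136) (.leaf p022_l101)))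
(.leaf p022_l102))
(.spl (nat_lit 0) (nat_lit 325)
(.leaf p022_l103)
(.leaf p022_l104)))))
(.trZ (nat_lit 0) (nat_lit 92) (nat_lit 81) (nat_lit 100) (nat_lit 132) (.leaf p022_l105)))
(.leaf p022_l106))))
(.spl (nat_lit 0) (nat_lit 330)
(.spl (nat_lit 1) (nat_lit 300)
(.leaf p022_l107)
(.spl (nat_lit 2) (nat_lit 320)
(.leaf p022_l108)
(.leaf p022_l109)))
(.leaf p022_l110)))
(.trZ (nat_lit 0) (nat_lit 99) (nat_lit 77) (nat_lit 100) (nat_lit 124) (.leaf p022_l111)))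
(.spl (nat_lit 0) (nat_lit 340)
(.leaf p022_l112)
(.trZ (nat_lit 0) (nat_lit 99) (nat_lit 77) (nat_lit 100) (nat_lit 124) (.leaf p022_l113))))) (by decide +kernel)
noncomputable def p022_l114 : Lf2 := ⟨nat_lit 0, nat_lit 10, [nat_lit 0, nat_lit 5, nat_lit 5, nat_lit 20], false, nat_lit 0, nat_lit 0, nat_lit 0, nat_lit 0, ⟨nat_lit 1000, nat_lit 0, nat_lit 0, nat_lit 0, nat_lit 0, nat_lit 0, nat_lit 0, nat_lit 0, nat_lit 0, nat_lit 0, nat_lit 0, nat_lit 0, nat_lit 0, nat_lit 0, nat_lit 0, nat_lit 0, false, false⟩,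
 nat_lit 0, nat_lit 0, nat_lit 0, nat_lit 0, nat_lit 0, nat_lit 4695, nat_lit 0, nat_lit 0, nat_lit 0, nat_lit 0, nat_lit 0, nat_lit 0, nat_lit 0, nat_lit 0, nat_lit 0, nat_lit 0, nat_lit 0, nat_lit 0, [],
 ⟨p022_k8, nat_lit 0, nat_lit 0, nat_lit 180, nat_lit 0, nat_lit 0, [nat_lit 2032000001, nat_lit 4688000000, nat_lit 6250000000], [], [nat_lit 33515367001, nat_lit 34893813001, nat_lit 41357136001, nat_lit 42394240001], nat_lit 0, nat_lit 0, nat_lit 0, nat_lit 0, nat_lit 0, nat_lit 0, [], [nat_lit 6, nat_lit 40, nat_lit 80, nat_lit 80, nat_lit 3, nat_lit 317, nat_lit 100, nat_lit 12]⟩, ⟨p022_k9, nat_lit 0, nat_lit 0, nat_lit 219, nat_lit 0, nat_lit 0, [nat_lit 3282000000, nat_lit 6250000000, nat_lit 9842000000], [], [nat_lit 34797323210, nat_lit 36957520360, nat_lit 43684741220, nat_lit 44791287020], nat_lit 0, nat_lit 0, nat_lit 0, nat_lit 0, nat_lit 0, nat_lit 0, [], [nat_lit 8, nat_lit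 40, nat_lit 80, nat_lit 80, nat_lit 1, nat_lit 317, nat_lit 100, nat_lit 9]⟩,
 zbF0, [⟨nat_lit 0, nat_lit 80, nat_lit 60, nat_lit 100, nat_lit 409886443⟩]⟩
noncomputable def p022_l115 : Lf2 := ⟨nat_lit 0, nat_lit 10, [nat_lit 0, nat_lit 5, nat_lit 5, nat_lit 20], false, nat_lit 0, nat_lit 0, nat_lit 0, nat_lit 0, ⟨nat_lit 76, nat_lit 592, nat_lit 332, nat_lit 7, nat_lit 223, nat_lit 0, nat_lit 0, nat_lit 0, nat_lit 0, nat_lit 215, nat_lit 123308, nat_lit 200, nat_lit 51064996, nat_lit 15935004, nat_lit 0, nat_lit 2742861, false, false⟩,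
 nat_lit 0, nat_lit 0, nat_lit 1047, nat_lit 0, nat_lit 3325, nat_lit 666, nat_lit 0, nat_lit 0, nat_lit 0, nat_lit 51, nat_lit 0, nat_lit 0, nat_lit 0, nat_lit 0, nat_lit 0, nat_lit 231000, nat_lit 0, nat_lit 0, [(nat_lit 18, [(nat_lit 0, nat_lit 592), (nat_lit 4, nat_lit 332)])],
 ⟨p022_k8, nat_lit 0, nat_lit 0, nat_lit 136, nat_lit 0, nat_lit 0, [nat_lit 1556396800, nat_lit 1586225600, nat_lit 1693036800], [], [nat_lit 18583041175, nat_lit 20182809438, nat_lit 22050298800, nat_lit 23292335500], nat_lit 0, nat_lit 0, nat_lit 0, nat_lit 0, nat_lit 0, nat_lit 0, [], [nat_lit 6, nat_lit 40, nat_lit 80, nat_lit 80, nat_lit 3, nat_lit 272, nat_lit 60, nat_lit 10]⟩, ⟨p022_k9, nat_lit 0, nat_lit 0, nat_lit 759, nat_lit 0, nat_lit 1147808, [nat_lit 249432000, nat_lit 475000000, nat_lit 747992000], [], [nat_lit 2443586302, nat_lit 2508729933, nat_lit 2357564007, nat_lit 2435800926], nat_lit 1271250,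 nat_lit 1271250, nat_lit 631250, nat_lit 1751250, nat_lit 0, nat_lit 0, [nat_lit 780000, nat_lit 1435000, nat_lit 1271250], [nat_lit 8, nat_lit 40, nat_lit 80, nat_lit 80, nat_lit 1, nat_lit 272, nat_lit 60, nat_lit 8]⟩,
 ⟨nat_lit 3872, nat_lit 4473, ⟨.ofNat (nat_lit 416230), .ofNat (nat_lit 654181), .ofNat (nat_lit 459327), .ofNat (nat_lit 697279), .ofNat (nat_lit 425778), .ofNat (nat_lit 651631), .ofNat (nat_lit 469330), .ofNat (nat_lit 695183)⟩, ⟨.ofNat (nat_lit 0), .ofNat (nat_lit 0), .ofNat (nat_lit 0), .ofNat (nat_lit 0), .ofNat (nat_lit 0), .ofNat (nat_lit 0), .ofNat (nat_lit 0), .ofNat (nat_lit 0)⟩⟩, []⟩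
noncomputable def p022_l116 : Lf2 := ⟨nat_lit 0, nat_lit 10, [nat_lit 0, nat_lit 5, nat_lit 5, nat_lit 20], false, nat_lit 0, nat_lit 0, nat_lit 0, nat_lit 0, ⟨nat_lit 55, nat_lit 945, nat_lit 0, nat_lit 7, nat_lit 233, nat_lit 0, nat_lit 0, nat_lit 0, nat_lit 0, nat_lit 0, nat_lit 0, nat_lit 0, nat_lit 50070286, nat_lit 16929714, nat_lit 0, nat_lit 2826313, false, false⟩,
 nat_lit 0, nat_lit 0, nat_lit 752, nat_lit 0, nat_lit 3275, nat_lit 478, nat_lit 0, nat_lit 0, nat_lit 0, nat_lit 31, nat_lit 0, nat_lit 0, nat_lit 0, nat_lit 0, nat_lit 0, nat_lit 236250, nat_lit 0, nat_lit 0, [(nat_lit 21, [(nat_lit 0, nat_lit 945)])],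
 ⟨p022_k23, nat_lit 0, nat_lit 0, nat_lit 145, nat_lit 0, nat_lit 0, [nat_lit 1584448000, nat_lit 2285810001, nat_lit 2371720000], [], [nat_lit 21152362818, nat_lit 22671417416, nat_lit 24022765500, nat_lit 25256122600], nat_lit 0, nat_lit 0, nat_lit 0, nat_lit 0, nat_lit 0, nat_lit 0, [], [nat_lit 6, nat_lit 40, nat_lit 80, nat_lit 80, nat_lit 3, nat_lit 272, nat_lit 60, nat_lit 10]⟩, ⟨p022_k9, nat_lit 0, nat_lit 0, nat_lit 870, nat_lit 0, nat_lit 1402978, [nat_lit 180510000, nat_lit 343750000, nat_lit 541310000], [], [nat_lit 1884243475, nat_lit 1913370748, nat_lit 1817590306, nat_lit 1841361506], nat_lit 1271250, nat_lit 1271250, nat_lit 810650, nat_lit 1764750, nat_lit 0, nat_lit 0, [nat_lit 780000, nat_lit 1435000, nat_lit 1271250], [nat_lit 8, nat_lit 40, nat_lit 80, nat_lit 80, nat_lit 1, nat_lit 288, nat_lit 60, nat_lit 8]⟩,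
 ⟨nat_lit 3162, nat_lit 3873, ⟨.ofNat (nat_lit 464406), .ofNat (nat_lit 651611), .ofNat (nat_lit 507934), .ofNat (nat_lit 695141), .ofNat (nat_lit 472632), .ofNat (nat_lit 649490), .ofNat (nat_lit 516884), .ofNat (nat_lit 693742)⟩, ⟨.ofNat (nat_lit 0), .ofNat (nat_lit 0), .ofNat (nat_lit 0), .ofNat (nat_lit 0), .ofNat (nat_lit 0), .ofNat (nat_lit 0), .ofNat (nat_lit 0), .ofNat (nat_lit 0)⟩⟩, []⟩
noncomputable def p022_l117 : Lf2 := ⟨nat_lit 0, nat_lit 10, [nat_lit 0, nat_lit 5, nat_lit 5, nat_lit 20], true, nat_lit 0, nat_lit 0, nat_lit 0, nat_lit 0, ⟨nat_lit 0, nat_lit 1000, nat_lit 0, nat_lit 7, nat_lit 278, nat_lit 0, nat_lit 0, nat_lit 0, nat_lit 0, nat_lit 0, nat_lit 0, nat_lit 0, nat_lit 45187236, nat_lit 21812764, nat_lit 0, nat_lit 3154960, true, false⟩,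
 nat_lit 0, nat_lit 0, nat_lit 0, nat_lit 0, nat_lit 3312, nat_lit 0, nat_lit 0, nat_lit 0, nat_lit 0, nat_lit 0, nat_lit 0, nat_lit 0, nat_lit 0, nat_lit 0, nat_lit 0, nat_lit 250000, nat_lit 0, nat_lit 0, [(nat_lit 18, [(nat_lit 0, nat_lit 1000)]), (nat_lit 21, [(nat_lit 0, nat_lit 1000)])],
 ⟨p022_k8, nat_lit 0, nat_lit 0, nat_lit 146, nat_lit 0, nat_lit 0, [nat_lit 1558400000, nat_lit 2168000000, nat_lit 2562000000], [], [nat_lit 22929682752, nat_lit 25466063456, nat_lit 24740402816, nat_lit 27141385808], nat_lit 0, nat_lit 0, nat_lit 0, nat_lit 0, nat_lit 0, nat_lit 0, [], [nat_lit 6, nat_lit 40, nat_lit 80, nat_lit 80, nat_lit 3, nat_lit 203, nat_lit 0, nat_lit 7]⟩, C1.Rw.none,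
 ⟨nat_lit 3162, nat_lit 4473, ⟨.ofNat (nat_lit 653959), .ofNat (nat_lit 722015), .ofNat (nat_lit 675435), .ofNat (nat_lit 743491), .ofNat (nat_lit 649288), .ofNat (nat_lit 710319), .ofNat (nat_lit 671352), .ofNat (nat_lit 732383)⟩, ⟨.ofNat (nat_lit 0), .ofNat (nat_lit 0), .ofNat (nat_lit 0), .ofNat (nat_lit 0), .ofNat (nat_lit 0), .ofNat (nat_lit 0), .ofNat (nat_lit 0), .ofNat (nat_lit 0)⟩⟩, []⟩
noncomputable def p022_l118 : Lf2 := ⟨nat_lit 0, nat_lit 10, [nat_lit 0, nat_lit 5, nat_lit 5, nat_lit 20], false, nat_lit 0, nat_lit 0, nat_lit 0, nat_lit 0, ⟨nat_lit 108, nat_lit 892, nat_lit 0, nat_lit 7, nat_lit 304, nat_lit 0, nat_lit 0, nat_lit 0, nat_lit 0, nat_lit 0, nat_lit 0, nat_lit 0, nat_lit 42497430, nat_lit 24502570, nat_lit 0, nat_lit 3283163, true, true⟩,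
 nat_lit 0, nat_lit 0, nat_lit 1187, nat_lit 0, nat_lit 3521, nat_lit 755, nat_lit 0, nat_lit 0, nat_lit 0, nat_lit 125, nat_lit 0, nat_lit 0, nat_lit 0, nat_lit 0, nat_lit 0, nat_lit 223000, nat_lit 0, nat_lit 0, [(nat_lit 18, [(nat_lit 0, nat_lit 892)]), (nat_lit 21, [(nat_lit 0, nat_lit 892)])],
 ⟨p022_k37, nat_lit 0, nat_lit 0, nat_lit 147, nat_lit 0, nat_lit 0, [nat_lit 1609548801, nat_lit 1937101867, nat_lit 2960304000], [], [nat_lit 25772260020, nat_lit 27888635980, nat_lit 27456219300, nat_lit 29392329016], nat_lit 0, nat_lit 0, nat_lit 0, nat_lit 0, nat_lit 0, nat_lit 0, [], [nat_lit 85, nat_lit 40, nat_lit 80, nat_lit 80, nat_lit 16, nat_lit 203, nat_lit 0, nat_lit 7]⟩, ⟨p022_k36, nat_lit 0, nat_lit 0, nat_lit 739, nat_lit 0, nat_lit 1246872, [nat_lit 354456000, nat_lit 506304000, nat_lit 1062936000], [], [nat_lit 3396509964, nat_lit 3438008907, nat_lit 3470040817, nat_lit 3506984081],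 nat_lit 1271250, nat_lit 1271250, nat_lit 1271250, nat_lit 1271250, nat_lit 0, nat_lit 0, [nat_lit 780000, nat_lit 1100000, nat_lit 2127500], [nat_lit 42, nat_lit 40, nat_lit 80, nat_lit 80, nat_lit 13, nat_lit 263, nat_lit 0, nat_lit 7]⟩,
 ⟨nat_lit 3162, nat_lit 4473, ⟨.ofNat (nat_lit 722015), .ofNat (nat_lit 790054), .ofNat (nat_lit 743491), .ofNat (nat_lit 811546), .ofNat (nat_lit 710319), .ofNat (nat_lit 771333), .ofNat (nat_lit 732383), .ofNat (nat_lit 793414)⟩, ⟨.ofNat (nat_lit 0), .ofNat (nat_lit 0), .ofNat (nat_lit 0), .ofNat (nat_lit 0), .ofNat (nat_lit 0), .ofNat (nat_lit 0), .ofNat (nat_lit 0), .ofNat (nat_lit 0)⟩⟩, []⟩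
noncomputable def p022_l119 : Lf2 := ⟨nat_lit 0, nat_lit 10, [nat_lit 0, nat_lit 5, nat_lit 5, nat_lit 20], false, nat_lit 0, nat_lit 0, nat_lit 0, nat_lit 0, ⟨nat_lit 503, nat_lit 497, nat_lit 0, nat_lit 7, nat_lit 300, nat_lit 0, nat_lit 0, nat_lit 0, nat_lit 0, nat_lit 0, nat_lit 0, nat_lit 0, nat_lit 42928519, nat_lit 24071481, nat_lit 0, nat_lit 3265001, true, false⟩,
 nat_lit 0, nat_lit 0, nat_lit 4501, nat_lit 0, nat_lit 4037, nat_lit 3115, nat_lit 0, nat_lit 0, nat_lit 0, nat_lit 565, nat_lit 0, nat_lit 0, nat_lit 0, nat_lit 0, nat_lit 0, nat_lit 124250, nat_lit 0, nat_lit 0, [(nat_lit 18, [(nat_lit 0, nat_lit 497)]), (nat_lit 21, [(nat_lit 0, nat_lit 497)])],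
 ⟨p022_k37, nat_lit 0, nat_lit 0, nat_lit 147, nat_lit 0, nat_lit 0, [nat_lit 1796620800, nat_lit 2532656534, nat_lit 4417064000], [], [nat_lit 25527594318, nat_lit 27975798106, nat_lit 29096345622, nat_lit 31284165160], nat_lit 0, nat_lit 0, nat_lit 0, nat_lit 0, nat_lit 0, nat_lit 0, [], [nat_lit 85, nat_lit 40, nat_lit 80, nat_lit 80, nat_lit 16, nat_lit 203, nat_lit 0, nat_lit 7]⟩, ⟨p022_k44, nat_lit 0, nat_lit 0, nat_lit 669, nat_lit 0, nat_lit 1244066, [nat_lit 1650846000, nat_lit 2358064000, nat_lit 4007904000], [], [nat_lit 14599128886, nat_lit 14835979218, nat_lit 15331899818, nat_lit 15534165184], nat_lit 1271250, nat_lit 1271250, nat_lit 1271250, nat_lit 1271250, nat_lit 0, nat_lit 0, [nat_lit 780000, nat_lit 1100000, nat_lit 1785000], [nat_lit 36, nat_lit 40, nat_lit 80, nat_lit 80, nat_lit 7, nat_lit 248, nat_lit 0, nat_lit 8]⟩,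
 ⟨nat_lit 3162, nat_lit 4473, ⟨.ofNat (nat_lit 675435), .ofNat (nat_lit 811546), .ofNat (nat_lit 696911), .ofNat (nat_lit 833022), .ofNat (nat_lit 671352), .ofNat (nat_lit 793414), .ofNat (nat_lit 693416), .ofNat (nat_lit 815478)⟩, ⟨.ofNat (nat_lit 0), .ofNat (nat_lit 0), .ofNat (nat_lit 0), .ofNat (nat_lit 0), .ofNat (nat_lit 0), .ofNat (nat_lit 0), .ofNat (nat_lit 0), .ofNat (nat_lit 0)⟩⟩, []⟩
noncomputable def p022_l120 : Lf2 := ⟨nat_lit 0, nat_lit 10, [nat_lit 0, nat_lit 5, nat_lit 5, nat_lit 20], false, nat_lit 0, nat_lit 0, nat_lit 0, nat_lit 0, ⟨nat_lit 1000, nat_lit 0, nat_lit 0, nat_lit 0, nat_lit 0, nat_lit 0, nat_lit 0, nat_lit 0, nat_lit 0, nat_lit 0, nat_lit 0, nat_lit 0, nat_lit 0, nat_lit 0, nat_lit 0, nat_lit 0, false, false⟩,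
 nat_lit 0, nat_lit 0, nat_lit 9728, nat_lit 0, nat_lit 6192, nat_lit 6190, nat_lit 0, nat_lit 0, nat_lit 0, nat_lit 1136, nat_lit 0, nat_lit 0, nat_lit 0, nat_lit 0, nat_lit 0, nat_lit 0, nat_lit 0, nat_lit 0, [],
 ⟨p022_k37, nat_lit 0, nat_lit 0, nat_lit 174, nat_lit 0, nat_lit 0, [nat_lit 2032000001, nat_lit 3282000000, nat_lit 6250000000], [], [nat_lit 34155979136, nat_lit 35330936720, nat_lit 39069375488, nat_lit 39979200960], nat_lit 0, nat_lit 0, nat_lit 0, nat_lit 0, nat_lit 0, nat_lit 0, [], [nat_lit 85, nat_lit 40, nat_lit 80, nat_lit 80, nat_lit 16, nat_lit 203, nat_lit 0, nat_lit 6]⟩, ⟨p022_k36, nat_lit 0, nat_lit 0, nat_lit 602, nat_lit 0, nat_lit 949707, [nat_lit 3282000000, nat_lit 4688000000, nat_lit 9842000000], [], [nat_lit 34993820520, nat_lit 35311139960, nat_lit 37102567920, nat_lit 37410690820], nat_lit 1271250, nat_lit 1271250, nat_lit 1271250, nat_lit 1271250, nat_lit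 0, nat_lit 0, [nat_lit 780000, nat_lit 1100000, nat_lit 2127500], [nat_lit 42, nat_lit 40, nat_lit 80, nat_lit 80, nat_lit 13, nat_lit 238, nat_lit 0, nat_lit 6]⟩,
 zbF0, [⟨nat_lit 13, nat_lit 85, nat_lit 27, nat_lit 100, nat_lit 25384364⟩]⟩
noncomputable def p022_l121 : Lf2 := ⟨nat_lit 0, nat_lit 10, [nat_lit 0, nat_lit 5, nat_lit 5, nat_lit 20], false, nat_lit 0, nat_lit 0, nat_lit 0, nat_lit 0, ⟨nat_lit 95, nat_lit 905, nat_lit 0, nat_lit 8, nat_lit 328, nat_lit 0, nat_lit 0, nat_lit 0, nat_lit 0, nat_lit 0, nat_lit 0, nat_lit 0, nat_lit 40016408, nat_lit 26983592, nat_lit 0, nat_lit 3370534, true, true⟩,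
 nat_lit 0, nat_lit 0, nat_lit 1010, nat_lit 0, nat_lit 3346, nat_lit 642, nat_lit 0, nat_lit 0, nat_lit 0, nat_lit 107, nat_lit 0, nat_lit 0, nat_lit 0, nat_lit 0, nat_lit 0, nat_lit 226250, nat_lit 0, nat_lit 0, [(nat_lit 21, [(nat_lit 0, nat_lit 905)])],
 ⟨p022_k43, nat_lit 0, nat_lit 0, nat_lit 156, nat_lit 0, nat_lit 0, [nat_lit 1603392001, nat_lit 1815176000, nat_lit 2674718000], [], [nat_lit 28206834741, nat_lit 28681246095, nat_lit 30078395291, nat_lit 30509113024], nat_lit 0, nat_lit 0, nat_lit 0, nat_lit 0, nat_lit 0, nat_lit 0, [], [nat_lit 85, nat_lit 40, nat_lit 80, nat_lit 80, nat_lit 16, nat_lit 203, nat_lit 0, nat_lit 6]⟩, ⟨p022_k36, nat_lit 0, nat_lit 0, nat_lit 646, nat_lit 0, nat_lit 1077585, [nat_lit 311790000, nat_lit 445360000, nat_lit 934990000], [], [nat_lit 3184407934, nat_lit 3216499098, nat_lit 3280585762, nat_lit 3309843429], nat_lit 1271250, nat_lit 1271250,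 nat_lit 1271250, nat_lit 1271250, nat_lit 0, nat_lit 0, [nat_lit 780000, nat_lit 1100000, nat_lit 2127500], [nat_lit 42, nat_lit 40, nat_lit 80, nat_lit 80, nat_lit 13, nat_lit 244, nat_lit 0, nat_lit 6]⟩,
 ⟨nat_lit 3535, nat_lit 3873, ⟨.ofNat (nat_lit 780730), .ofNat (nat_lit 845257), .ofNat (nat_lit 802518), .ofNat (nat_lit 867045), .ofNat (nat_lit 776087), .ofNat (nat_lit 838854), .ofNat (nat_lit 798034), .ofNat (nat_lit 860801)⟩, ⟨.ofNat (nat_lit 0), .ofNat (nat_lit 0), .ofNat (nat_lit 0), .ofNat (nat_lit 0), .ofNat (nat_lit 0), .ofNat (nat_lit 0), .ofNat (nat_lit 0), .ofNat (nat_lit 0)⟩⟩, []⟩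
noncomputable def p022_l122 : Lf2 := ⟨nat_lit 0, nat_lit 10, [nat_lit 0, nat_lit 5, nat_lit 5, nat_lit 20], false, nat_lit 0, nat_lit 0, nat_lit 0, nat_lit 0, ⟨nat_lit 92, nat_lit 908, nat_lit 0, nat_lit 8, nat_lit 326, nat_lit 0, nat_lit 0, nat_lit 0, nat_lit 0, nat_lit 0, nat_lit 0, nat_lit 0, nat_lit 40229858, nat_lit 26770142, nat_lit 0, nat_lit 3364152, true, true⟩,
 nat_lit 0, nat_lit 0, nat_lit 981, nat_lit 0, nat_lit 3444, nat_lit 624, nat_lit 0, nat_lit 0, nat_lit 0, nat_lit 102, nat_lit 0, nat_lit 0, nat_lit 0, nat_lit 0, nat_lit 0, nat_lit 227000, nat_lit 0, nat_lit 0, [(nat_lit 21, [(nat_lit 0, nat_lit 908)])],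
 ⟨p022_k46, nat_lit 0, nat_lit 0, nat_lit 148, nat_lit 0, nat_lit 0, [nat_lit 1601971200, nat_lit 1750748801, nat_lit 2215741599], [], [nat_lit 28213372582, nat_lit 28697181870, nat_lit 30076134808, nat_lit 30522748624], nat_lit 0, nat_lit 0, nat_lit 0, nat_lit 0, nat_lit 0, nat_lit 0, [], [nat_lit 78, nat_lit 40, nat_lit 80, nat_lit 80, nat_lit 22, nat_lit 203, nat_lit 0, nat_lit 7]⟩, ⟨p022_k36, nat_lit 0, nat_lit 0, nat_lit 722, nat_lit 0, nat_lit 1211798, [nat_lit 301944000, nat_lit 431296000, nat_lit 905464000], [], [nat_lit 3090276374, nat_lit 3121798798, nat_lit 3182604284, nat_lit 3213466894], nat_lit 1271250, nat_lit 1271250, nat_lit 1271250, nat_lit 1271250, nat_lit 0, nat_lit 0, [nat_lit 780000, nat_lit 1100000, nat_lit 2127500], [nat_lit 42, nat_lit 40, nat_lit 80, nat_lit 80, nat_lit 13, nat_lit 263, nat_lit 0, nat_lit 7]⟩,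
 ⟨nat_lit 3162, nat_lit 3536, ⟨.ofNat (nat_lit 776092), .ofNat (nat_lit 838855), .ofNat (nat_lit 798037), .ofNat (nat_lit 860807), .ofNat (nat_lit 771477), .ofNat (nat_lit 832432), .ofNat (nat_lit 793624), .ofNat (nat_lit 854586)⟩, ⟨.ofNat (nat_lit 0), .ofNat (nat_lit 0), .ofNat (nat_lit 0), .ofNat (nat_lit 0), .ofNat (nat_lit 0), .ofNat (nat_lit 0), .ofNat (nat_lit 0), .ofNat (nat_lit 0)⟩⟩, []⟩
noncomputable def p022_l123 : Lf2 := ⟨nat_lit 0, nat_lit 10, [nat_lit 0, nat_lit 5, nat_lit 5, nat_lit 20], false, nat_lit 0, nat_lit 0, nat_lit 0, nat_lit 0, ⟨nat_lit 1000, nat_lit 0, nat_lit 0, nat_lit 0, nat_lit 0, nat_lit 0, nat_lit 0, nat_lit 0, nat_lit 0, nat_lit 0, nat_lit 0, nat_lit 0, nat_lit 0, nat_lit 0, nat_lit 0, nat_lit 0, false, false⟩,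
 nat_lit 0, nat_lit 0, nat_lit 9912, nat_lit 0, nat_lit 4107, nat_lit 6307, nat_lit 664, nat_lit 0, nat_lit 0, nat_lit 1177, nat_lit 0, nat_lit 0, nat_lit 0, nat_lit 0, nat_lit 0, nat_lit 0, nat_lit 0, nat_lit 0, [],
 ⟨p022_k43, nat_lit 0, nat_lit 0, nat_lit 171, nat_lit 0, nat_lit 0, [nat_lit 2032000001, nat_lit 3282000000, nat_lit 6250000000], [], [nat_lit 31884627453, nat_lit 32092560822, nat_lit 33409714357, nat_lit 33612648474], nat_lit 0, nat_lit 0, nat_lit 0, nat_lit 0, nat_lit 0, nat_lit 0, [], [nat_lit 85, nat_lit 40, nat_lit 80, nat_lit 80, nat_lit 16, nat_lit 203, nat_lit 0, nat_lit 6]⟩, ⟨p022_k36, nat_lit 0, nat_lit 0, nat_lit 599, nat_lit 0, nat_lit 938133, [nat_lit 3282000000, nat_lit 4688000000, nat_lit 9842000000], [], [nat_lit 35074709510, nat_lit 35255655199, nat_lit 36082034471, nat_lit 36270722789], nat_lit 1271250, nat_lit 1271250, nat_lit 1271250, nat_lit 1271250,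 nat_lit 0, nat_lit 0, [nat_lit 780000, nat_lit 1100000, nat_lit 2127500], [nat_lit 42, nat_lit 40, nat_lit 80, nat_lit 80, nat_lit 13, nat_lit 235, nat_lit 0, nat_lit 6]⟩,
 zbF0, []⟩
noncomputable def p022_l124 : Lf2 := ⟨nat_lit 0, nat_lit 10, [nat_lit 0, nat_lit 5, nat_lit 5, nat_lit 20], false, nat_lit 0, nat_lit 0, nat_lit 0, nat_lit 0, ⟨nat_lit 1000, nat_lit 0, nat_lit 0, nat_lit 0, nat_lit 0, nat_lit 0, nat_lit 0, nat_lit 0, nat_lit 0, nat_lit 0, nat_lit 0, nat_lit 0, nat_lit 0, nat_lit 0, nat_lit 0, nat_lit 0, false, false⟩,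
 nat_lit 0, nat_lit 0, nat_lit 10004, nat_lit 0, nat_lit 4092, nat_lit 6366, nat_lit 631, nat_lit 0, nat_lit 0, nat_lit 1132, nat_lit 0, nat_lit 0, nat_lit 0, nat_lit 0, nat_lit 0, nat_lit 0, nat_lit 0, nat_lit 0, [],
 ⟨p022_k47, nat_lit 0, nat_lit 0, nat_lit 174, nat_lit 0, nat_lit 0, [nat_lit 2032000001, nat_lit 3282000000, nat_lit 6250000000], [], [nat_lit 32069713849, nat_lit 32277369035, nat_lit 33572805617, nat_lit 33860838816], nat_lit 0, nat_lit 0, nat_lit 0, nat_lit 0, nat_lit 0, nat_lit 0, [], [nat_lit 85, nat_lit 40, nat_lit 80, nat_lit 80, nat_lit 16, nat_lit 203, nat_lit 0, nat_lit 6]⟩, ⟨p022_k36, nat_lit 0, nat_lit 0, nat_lit 620, nat_lit 0, nat_lit 1004401, [nat_lit 3282000000, nat_lit 4688000000, nat_lit 9842000000], [], [nat_lit 35303774880, nat_lit 35487416448, nat_lit 36258729127, nat_lit 36419506307], nat_lit 1271250, nat_lit 1271250, nat_lit 1271250, nat_lit 1271250,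 nat_lit 0, nat_lit 0, [nat_lit 780000, nat_lit 1100000, nat_lit 2127500], [nat_lit 42, nat_lit 40, nat_lit 80, nat_lit 80, nat_lit 13, nat_lit 241, nat_lit 0, nat_lit 6]⟩,
 zbF0, []⟩
noncomputable def p022_l125 : Lf2 := ⟨nat_lit 0, nat_lit 10, [nat_lit 0, nat_lit 5, nat_lit 5, nat_lit 20], false, nat_lit 0, nat_lit 0, nat_lit 0, nat_lit 0, ⟨nat_lit 70, nat_lit 930, nat_lit 0, nat_lit 9, nat_lit 345, nat_lit 0, nat_lit 0, nat_lit 0, nat_lit 0, nat_lit 0, nat_lit 0, nat_lit 0, nat_lit 38407841, nat_lit 28592159, nat_lit 0, nat_lit 3411884, true, true⟩,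
 nat_lit 0, nat_lit 0, nat_lit 832, nat_lit 0, nat_lit 3275, nat_lit 529, nat_lit 0, nat_lit 0, nat_lit 0, nat_lit 31, nat_lit 0, nat_lit 0, nat_lit 0, nat_lit 0, nat_lit 0, nat_lit 232500, nat_lit 0, nat_lit 0, [(nat_lit 21, [(nat_lit 0, nat_lit 930)])],
 ⟨p022_k30, nat_lit 0, nat_lit 0, nat_lit 163, nat_lit 0, nat_lit 0, [nat_lit 1591552001, nat_lit 2154308000], [], [nat_lit 30099012439, nat_lit 30529984501, nat_lit 31378030065, nat_lit 31778623361], nat_lit 0, nat_lit 0, nat_lit 0, nat_lit 0, nat_lit 0, nat_lit 0, [], [nat_lit 24, nat_lit 40, nat_lit 80, nat_lit 80, nat_lit 33, nat_lit 203, nat_lit 0, nat_lit 7]⟩, ⟨p022_k9, nat_lit 0, nat_lit 0, nat_lit 690, nat_lit 0, nat_lit 1142046, [nat_lit 229740000, nat_lit 437500000, nat_lit 688940000], [], [nat_lit 2834523715, nat_lit 2842745163, nat_lit 2879492763, nat_lit 2886515972], nat_lit 1271250, nat_lit 1271250, nat_lit 1271250, nat_lit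 1271250, nat_lit 0, nat_lit 0, [nat_lit 780000, nat_lit 1435000, nat_lit 1271250], [nat_lit 8, nat_lit 40, nat_lit 80, nat_lit 80, nat_lit 1, nat_lit 258, nat_lit 0, nat_lit 7]⟩,
 ⟨nat_lit 3162, nat_lit 3536, ⟨.ofNat (nat_lit 838855), .ofNat (nat_lit 882788), .ofNat (nat_lit 849831), .ofNat (nat_lit 893764), .ofNat (nat_lit 832432), .ofNat (nat_lit 875099), .ofNat (nat_lit 843509), .ofNat (nat_lit 886176)⟩, ⟨.ofNat (nat_lit 0), .ofNat (nat_lit 0), .ofNat (nat_lit 0), .ofNat (nat_lit 0), .ofNat (nat_lit 0), .ofNat (nat_lit 0), .ofNat (nat_lit 0), .ofNat (nat_lit 0)⟩⟩, [⟨nat_lit 13, nat_lit 70, nat_lit 48, nat_lit 100, nat_lit 252798801⟩]⟩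
noncomputable def p022_l126 : Lf2 := ⟨nat_lit 0, nat_lit 10, [nat_lit 0, nat_lit 5, nat_lit 5, nat_lit 20], false, nat_lit 0, nat_lit 0, nat_lit 0, nat_lit 0, ⟨nat_lit 1000, nat_lit 0, nat_lit 0, nat_lit 0, nat_lit 0, nat_lit 0, nat_lit 0, nat_lit 0, nat_lit 0, nat_lit 0, nat_lit 0, nat_lit 0, nat_lit 0, nat_lit 0, nat_lit 0, nat_lit 0, false, false⟩,
 nat_lit 0, nat_lit 0, nat_lit 9432, nat_lit 0, nat_lit 5058, nat_lit 6264, nat_lit 201, nat_lit 0, nat_lit 0, nat_lit 560, nat_lit 0, nat_lit 0, nat_lit 0, nat_lit 0, nat_lit 0, nat_lit 0, nat_lit 0, nat_lit 0, [],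
 ⟨p022_k23, nat_lit 0, nat_lit 0, nat_lit 177, nat_lit 0, nat_lit 0, [nat_lit 2032000001, nat_lit 4688000000, nat_lit 6250000000], [], [nat_lit 34508975124, nat_lit 35016820680, nat_lit 36528293158, nat_lit 36981449607], nat_lit 0, nat_lit 0, nat_lit 0, nat_lit 0, nat_lit 0, nat_lit 0, [], [nat_lit 6, nat_lit 40, nat_lit 80, nat_lit 80, nat_lit 3, nat_lit 203, nat_lit 0, nat_lit 6]⟩, ⟨p022_k11, nat_lit 0, nat_lit 0, nat_lit 574, nat_lit 0, nat_lit 1014046, [nat_lit 3282000000, nat_lit 6250000000, nat_lit 7968000000], [], [nat_lit 40615346968, nat_lit 40769265624, nat_lit 41581058341, nat_lit 41743832435], nat_lit 1271250, nat_lit 1271250, nat_lit 1271250, nat_lit 1271250, nat_lit 0, nat_lit 0, [nat_lit 780000, nat_lit 1435000, nat_lit 1271250], [nat_lit 18, nat_lit 40, nat_lit 80, nat_lit 80, nat_lit 2, nat_lit 231, nat_lit 0, nat_lit 6]⟩,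
 zbF0, [⟨nat_lit 13, nat_lit 78, nat_lit 35, nat_lit 100, nat_lit 24350530⟩]⟩
noncomputable def p022_l127 : Lf2 := ⟨nat_lit 0, nat_lit 10, [nat_lit 0, nat_lit 5, nat_lit 5, nat_lit 20], false, nat_lit 0, nat_lit 0, nat_lit 0, nat_lit 0, ⟨nat_lit 1000, nat_lit 0, nat_lit 0, nat_lit 0, nat_lit 0, nat_lit 0, nat_lit 0, nat_lit 0, nat_lit 0, nat_lit 0, nat_lit 0, nat_lit 0, nat_lit 0, nat_lit 0, nat_lit 0, nat_lit 0, false, false⟩,
 nat_lit 0, nat_lit 0, nat_lit 9123, nat_lit 0, nat_lit 4295, nat_lit 6058, nat_lit 0, nat_lit 0, nat_lit 0, nat_lit 1032, nat_lit 0, nat_lit 0, nat_lit 0, nat_lit 0, nat_lit 0, nat_lit 0, nat_lit 0, nat_lit 0, [],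
 ⟨p022_k46, nat_lit 0, nat_lit 0, nat_lit 165, nat_lit 0, nat_lit 0, [nat_lit 2032000001, nat_lit 3282000000, nat_lit 4688000000], [], [nat_lit 34830043470, nat_lit 35334192790, nat_lit 36553632175, nat_lit 37011528766], nat_lit 0, nat_lit 0, nat_lit 0, nat_lit 0, nat_lit 0, nat_lit 0, [], [nat_lit 78, nat_lit 40, nat_lit 80, nat_lit 80, nat_lit 22, nat_lit 203, nat_lit 0, nat_lit 7]⟩, ⟨p022_k38, nat_lit 0, nat_lit 0, nat_lit 629, nat_lit 0, nat_lit 1140191, [nat_lit 3282000000, nat_lit 4688000000, nat_lit 7968000000], [], [nat_lit 35282964940, nat_lit 35444427580, nat_lit 36095053094, nat_lit 36239485068], nat_lit 1271250, nat_lit 1271250, nat_lit 1271250, nat_lit 1271250, nat_lit 0, nat_lit 0, [nat_lit 780000, nat_lit 1100000, nat_lit 1785000], [nat_lit 36, nat_lit 40, nat_lit 80, nat_lit 80, nat_lit 7, nat_lit 244, nat_lit 0, nat_lit 7]⟩,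
 zbF0, []⟩
noncomputable def p022_l128 : Lf2 := ⟨nat_lit 0, nat_lit 10, [nat_lit 0, nat_lit 5, nat_lit 5, nat_lit 20], false, nat_lit 0, nat_lit 0, nat_lit 0, nat_lit 0, ⟨nat_lit 1000, nat_lit 0, nat_lit 0, nat_lit 0, nat_lit 0, nat_lit 0, nat_lit 0, nat_lit 0, nat_lit 0, nat_lit 0, nat_lit 0, nat_lit 0, nat_lit 0, nat_lit 0, nat_lit 0, nat_lit 0, false, false⟩,
 nat_lit 0, nat_lit 0, nat_lit 9412, nat_lit 0, nat_lit 5355, nat_lit 5989, nat_lit 0, nat_lit 0, nat_lit 0, nat_lit 655, nat_lit 0, nat_lit 0, nat_lit 0, nat_lit 0, nat_lit 0, nat_lit 0, nat_lit 0, nat_lit 0, [],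
 ⟨p022_k8, nat_lit 0, nat_lit 0, nat_lit 180, nat_lit 0, nat_lit 0, [nat_lit 2032000001, nat_lit 4688000000, nat_lit 6250000000], [], [nat_lit 32593795100, nat_lit 34932908800, nat_lit 37463104840, nat_lit 39293514020], nat_lit 0, nat_lit 0, nat_lit 0, nat_lit 0, nat_lit 0, nat_lit 0, [], [nat_lit 6, nat_lit 40, nat_lit 80, nat_lit 80, nat_lit 3, nat_lit 203, nat_lit 0, nat_lit 6]⟩, ⟨p022_k9, nat_lit 0, nat_lit 0, nat_lit 579, nat_lit 0, nat_lit 870013, [nat_lit 3282000000, nat_lit 6250000000, nat_lit 9842000000], [], [nat_lit 40778604026, nat_lit 41112109982, nat_lit 42835245319, nat_lit 43142079710], nat_lit 1271250, nat_lit 1271250, nat_lit 1271250, nat_lit 1271250, nat_lit 0, nat_lit 0, [nat_lit 780000, nat_lit 1435000, nat_lit 1271250], [nat_lit 8, nat_lit 40, nat_lit 80, nat_lit 80, nat_lit 1, nat_lit 233, nat_lit 0, nat_lit 6]⟩,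
 zbF0, [⟨nat_lit 13, nat_lit 65, nat_lit 54, nat_lit 100, nat_lit 10938669⟩]⟩
noncomputable def p022_l129 : Lf2 := ⟨nat_lit 0, nat_lit 10, [nat_lit 0, nat_lit 5, nat_lit 5, nat_lit 20], false, nat_lit 0, nat_lit 0, nat_lit 0, nat_lit 0, ⟨nat_lit 1000, nat_lit 0, nat_lit 0, nat_lit 0, nat_lit 0, nat_lit 0, nat_lit 0, nat_lit 0, nat_lit 0, nat_lit 0, nat_lit 0, nat_lit 0, nat_lit 0, nat_lit 0, nat_lit 0, nat_lit 0, false, false⟩,
 nat_lit 0, nat_lit 0, nat_lit 7942, nat_lit 0, nat_lit 6192, nat_lit 5498, nat_lit 0, nat_lit 0, nat_lit 0, nat_lit 1028, nat_lit 0, nat_lit 0, nat_lit 0, nat_lit 0, nat_lit 0, nat_lit 0, nat_lit 0, nat_lit 0, [],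
 ⟨p022_k37, nat_lit 0, nat_lit 0, nat_lit 174, nat_lit 0, nat_lit 0, [nat_lit 2032000001, nat_lit 3282000000, nat_lit 6250000000], [], [nat_lit 34155979136, nat_lit 35330936720, nat_lit 39069375488, nat_lit 39979200960], nat_lit 0, nat_lit 0, nat_lit 0, nat_lit 0, nat_lit 0, nat_lit 0, [], [nat_lit 85, nat_lit 40, nat_lit 80, nat_lit 80, nat_lit 16, nat_lit 203, nat_lit 0, nat_lit 6]⟩, ⟨p022_k44, nat_lit 0, nat_lit 0, nat_lit 541, nat_lit 0, nat_lit 941258, [nat_lit 3282000000, nat_lit 4688000000, nat_lit 7968000000], [], [nat_lit 33690947568, nat_lit 33880898496, nat_lit 35922704576, nat_lit 36096543844], nat_lit 1271250, nat_lit 1271250, nat_lit 1271250, nat_lit 1271250, nat_lit 0, nat_lit 0, [nat_lit 780000, nat_lit 1100000, nat_lit 1785000], [nat_lit 36, nat_lit 40, nat_lit 80, nat_lit 80, nat_lit 7, nat_lit 224, nat_lit 0, nat_lit 6]⟩,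
 zbF0, [⟨nat_lit 13, nat_lit 89, nat_lit 18, nat_lit 100, nat_lit 36814808⟩]⟩
noncomputable def p022_l130 : Lf2 := ⟨nat_lit 0, nat_lit 10, [nat_lit 0, nat_lit 5, nat_lit 5, nat_lit 20], false, nat_lit 0, nat_lit 0, nat_lit 0, nat_lit 0, ⟨nat_lit 1000, nat_lit 0, nat_lit 0, nat_lit 0, nat_lit 0, nat_lit 0, nat_lit 0, nat_lit 0, nat_lit 0, nat_lit 0, nat_lit 0, nat_lit 0, nat_lit 0, nat_lit 0, nat_lit 0, nat_lit 0, false, false⟩,
 nat_lit 0, nat_lit 0, nat_lit 8118, nat_lit 0, nat_lit 4184, nat_lit 5620, nat_lit 642, nat_lit 0, nat_lit 0, nat_lit 1049, nat_lit 0, nat_lit 0, nat_lit 0, nat_lit 0, nat_lit 0, nat_lit 0, nat_lit 0, nat_lit 0, [],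
 ⟨p022_k43, nat_lit 0, nat_lit 0, nat_lit 184, nat_lit 0, nat_lit 0, [nat_lit 2032000001, nat_lit 3282000000, nat_lit 6250000000], [], [nat_lit 30179376537, nat_lit 31106357049, nat_lit 34121578416, nat_lit 35263417728], nat_lit 0, nat_lit 0, nat_lit 0, nat_lit 0, nat_lit 0, nat_lit 0, [], [nat_lit 85, nat_lit 40, nat_lit 80, nat_lit 80, nat_lit 16, nat_lit 203, nat_lit 0, nat_lit 6]⟩, ⟨p022_k44, nat_lit 0, nat_lit 0, nat_lit 639, nat_lit 0, nat_lit 1173067, [nat_lit 3282000000, nat_lit 4688000000, nat_lit 7968000000], [], [nat_lit 34190398300, nat_lit 34375286740, nat_lit 36275044110, nat_lit 36432714810], nat_lit 1271250, nat_lit 1271250, nat_lit 1271250, nat_lit 1271250, nat_lit 0, nat_lit 0, [nat_lit 780000, nat_lit 1100000, nat_lit 1785000], [nat_lit 36, nat_lit 40, nat_lit 80, nat_lit 80, nat_lit 7, nat_lit 249, nat_lit 0, nat_lit 7]⟩,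
 zbF0, []⟩
noncomputable def p022_l131 : Lf2 := ⟨nat_lit 0, nat_lit 10, [nat_lit 0, nat_lit 5, nat_lit 5, nat_lit 20], false, nat_lit 0, nat_lit 0, nat_lit 0, nat_lit 0, ⟨nat_lit 1000, nat_lit 0, nat_lit 0, nat_lit 0, nat_lit 0, nat_lit 0, nat_lit 0, nat_lit 0, nat_lit 0, nat_lit 0, nat_lit 0, nat_lit 0, nat_lit 0, nat_lit 0, nat_lit 0, nat_lit 0, false, false⟩,
 nat_lit 0, nat_lit 0, nat_lit 7494, nat_lit 0, nat_lit 6044, nat_lit 5402, nat_lit 0, nat_lit 0, nat_lit 0, nat_lit 1038, nat_lit 0, nat_lit 0, nat_lit 0, nat_lit 0, nat_lit 0, nat_lit 0, nat_lit 0, nat_lit 0, [],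
 ⟨p022_k37, nat_lit 0, nat_lit 0, nat_lit 184, nat_lit 0, nat_lit 0, [nat_lit 2032000001, nat_lit 3282000000, nat_lit 6250000000], [], [nat_lit 34255981552, nat_lit 36576932528, nat_lit 39106795216, nat_lit 40907882224], nat_lit 0, nat_lit 0, nat_lit 0, nat_lit 0, nat_lit 0, nat_lit 0, [], [nat_lit 85, nat_lit 40, nat_lit 80, nat_lit 80, nat_lit 16, nat_lit 203, nat_lit 0, nat_lit 6]⟩, ⟨p022_k45, nat_lit 0, nat_lit 0, nat_lit 639, nat_lit 0, nat_lit 1175059, [nat_lit 3282000000, nat_lit 4688000000, nat_lit 7968000000], [], [nat_lit 34119894490, nat_lit 34329680988, nat_lit 36227439076, nat_lit 36391846174], nat_lit 1271250, nat_lit 1271250, nat_lit 1271250, nat_lit 1271250, nat_lit 0, nat_lit 0, [nat_lit 780000, nat_lit 1100000, nat_lit 1785000], [nat_lit 36, nat_lit 40, nat_lit 80, nat_lit 80, nat_lit 7, nat_lit 250, nat_lit 0, nat_lit 7]⟩,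
 zbF0, [⟨nat_lit 13, nat_lit 72, nat_lit 40, nat_lit 100, nat_lit 20486575⟩]⟩
noncomputable def p022_l132 : Lf2 := ⟨nat_lit 0, nat_lit 10, [nat_lit 0, nat_lit 5, nat_lit 5, nat_lit 20], false, nat_lit 0, nat_lit 0, nat_lit 0, nat_lit 0, ⟨nat_lit 519, nat_lit 481, nat_lit 0, nat_lit 7, nat_lit 276, nat_lit 0, nat_lit 0, nat_lit 0, nat_lit 0, nat_lit 0, nat_lit 0, nat_lit 0, nat_lit 0, nat_lit 0, nat_lit 0, nat_lit 5000000, false, false⟩,
 nat_lit 0, nat_lit 0, nat_lit 0, nat_lit 0, nat_lit 0, nat_lit 3415, nat_lit 0, nat_lit 0, nat_lit 0, nat_lit 0, nat_lit 0, nat_lit 0, nat_lit 0, nat_lit 0, nat_lit 0, nat_lit 120250, nat_lit 0, nat_lit 0, [(nat_lit 18, [(nat_lit 0, nat_lit 481)]), (nat_lit 21, [(nat_lit 0, nat_lit 481)])],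
 ⟨p022_k8, nat_lit 0, nat_lit 0, nat_lit 180, nat_lit 0, nat_lit 0, [nat_lit 1804198400, nat_lit 3475880000, nat_lit 4476072000], [], [nat_lit 30301517400, nat_lit 31679963400, nat_lit 38143286400, nat_lit 39180390400], nat_lit 0, nat_lit 0, nat_lit 0, nat_lit 0, nat_lit 0, nat_lit 0, [], [nat_lit 6, nat_lit 40, nat_lit 80, nat_lit 80, nat_lit 3, nat_lit 317, nat_lit 100, nat_lit 12]⟩, ⟨p022_k9, nat_lit 0, nat_lit 0, nat_lit 219, nat_lit 0, nat_lit 0, [nat_lit 1703358000, nat_lit 3243750000, nat_lit 5107998000], [], [nat_lit 16642516125, nat_lit 18130960078, nat_lit 22127201060, nat_lit 22805576140], nat_lit 0, nat_lit 0, nat_lit 0, nat_lit 0, nat_lit 0, nat_lit 0, [], [nat_lit 8, nat_lit 40, nat_lit 80, nat_lit 80, nat_lit 1, nat_lit 317, nat_lit 100, nat_lit 9]⟩,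
 ⟨nat_lit 3162, nat_lit 4473, ⟨.ofNat (nat_lit 415764), .ofNat (nat_lit 926092), .ofNat (nat_lit 458716), .ofNat (nat_lit 969090), .ofNat (nat_lit 435680), .ofNat (nat_lit 893321), .ofNat (nat_lit 479808), .ofNat (nat_lit 937496)⟩, ⟨.ofNat (nat_lit 0), .ofNat (nat_lit 0), .ofNat (nat_lit 0), .ofNat (nat_lit 0), .ofNat (nat_lit 0), .ofNat (nat_lit 0), .ofNat (nat_lit 0), .ofNat (nat_lit 0)⟩⟩, [⟨nat_lit 13, nat_lit 82, nat_lit 29, nat_lit 100, nat_lit 18963054⟩]⟩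
noncomputable def p022_l133 : Lf2 := ⟨nat_lit 0, nat_lit 10, [nat_lit 0, nat_lit 5, nat_lit 5, nat_lit 20], false, nat_lit 0, nat_lit 0, nat_lit 0, nat_lit 0, ⟨nat_lit 100, nat_lit 900, nat_lit 0, nat_lit 7, nat_lit 271, nat_lit 0, nat_lit 0, nat_lit 0, nat_lit 0, nat_lit 0, nat_lit 0, nat_lit 0, nat_lit 0, nat_lit 0, nat_lit 0, nat_lit 5000000, false, false⟩,
 nat_lit 0, nat_lit 0, nat_lit 1185, nat_lit 0, nat_lit 3656, nat_lit 754, nat_lit 0, nat_lit 0, nat_lit 0, nat_lit 54, nat_lit 0, nat_lit 0, nat_lit 0, nat_lit 0, nat_lit 0, nat_lit 225000, nat_lit 0, nat_lit 0, [(nat_lit 18, [(nat_lit 0, nat_lit 900)]), (nat_lit 21, [(nat_lit 0, nat_lit 900)])],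
 ⟨p022_k8, nat_lit 0, nat_lit 0, nat_lit 180, nat_lit 0, nat_lit 0, [nat_lit 1605760001, nat_lit 2420000000, nat_lit 2930800000], [], [nat_lit 21806325033, nat_lit 24553902817, nat_lit 32125304448, nat_lit 33714938144], nat_lit 0, nat_lit 0, nat_lit 0, nat_lit 0, nat_lit 0, nat_lit 0, [], [nat_lit 6, nat_lit 40, nat_lit 80, nat_lit 80, nat_lit 3, nat_lit 317, nat_lit 100, nat_lit 12]⟩, ⟨p022_k9, nat_lit 0, nat_lit 0, nat_lit 797, nat_lit 0, nat_lit 1246872, [nat_lit 328200000, nat_lit 625000000, nat_lit 984200000], [], [nat_lit 3951138380, nat_lit 3992080929, nat_lit 4325227520, nat_lit 4108827320], nat_lit 1271250, nat_lit 1271250, nat_lit 631250, nat_lit 3031250, nat_lit 0, nat_lit 0, [nat_lit 780000, nat_lit 1435000, nat_lit 1271250], [nat_lit 8, nat_lit 40, nat_lit 80, nat_lit 80, nat_lit 1, nat_lit 317, nat_lit 100, nat_lit 9]⟩,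
 ⟨nat_lit 3162, nat_lit 4473, ⟨.ofNat (nat_lit 415764), .ofNat (nat_lit 926092), .ofNat (nat_lit 437240), .ofNat (nat_lit 947591), .ofNat (nat_lit 435680), .ofNat (nat_lit 893321), .ofNat (nat_lit 457744), .ofNat (nat_lit 915409)⟩, ⟨.ofNat (nat_lit 0), .ofNat (nat_lit 0), .ofNat (nat_lit 0), .ofNat (nat_lit 0), .ofNat (nat_lit 0), .ofNat (nat_lit 0), .ofNat (nat_lit 0), .ofNat (nat_lit 0)⟩⟩, [⟨nat_lit 13, nat_lit 92, nat_lit 14, nat_lit 100, nat_lit 224702895⟩]⟩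
noncomputable def p022_l134 : Lf2 := ⟨nat_lit 0, nat_lit 10, [nat_lit 0, nat_lit 5, nat_lit 5, nat_lit 20], false, nat_lit 0, nat_lit 0, nat_lit 0, nat_lit 0, ⟨nat_lit 165, nat_lit 835, nat_lit 0, nat_lit 7, nat_lit 287, nat_lit 0, nat_lit 0, nat_lit 0, nat_lit 0, nat_lit 0, nat_lit 0, nat_lit 0, nat_lit 0, nat_lit 0, nat_lit 0, nat_lit 5000000, false, false⟩,
 nat_lit 0, nat_lit 0, nat_lit 1406, nat_lit 0, nat_lit 3779, nat_lit 973, nat_lit 0, nat_lit 0, nat_lit 0, nat_lit 167, nat_lit 0, nat_lit 0, nat_lit 0, nat_lit 0, nat_lit 0, nat_lit 208750, nat_lit 0, nat_lit 0, [(nat_lit 18, [(nat_lit 0, nat_lit 835)]), (nat_lit 21, [(nat_lit 0, nat_lit 835)])],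
 ⟨p022_k8, nat_lit 0, nat_lit 0, nat_lit 180, nat_lit 0, nat_lit 0, [nat_lit 1636544000, nat_lit 2583800001, nat_lit 3170520000], [], [nat_lit 22297409089, nat_lit 25019308951, nat_lit 32510769033, nat_lit 34117833797], nat_lit 0, nat_lit 0, nat_lit 0, nat_lit 0, nat_lit 0, nat_lit 0, [], [nat_lit 6, nat_lit 40, nat_lit 80, nat_lit 80, nat_lit 3, nat_lit 317, nat_lit 100, nat_lit 12]⟩, ⟨p022_k20, nat_lit 0, nat_lit 0, nat_lit 725, nat_lit 0, nat_lit 1244066, [nat_lit 541530000, nat_lit 1031250000, nat_lit 1314720000], [], [nat_lit 5662372972, nat_lit 5744508986, nat_lit 6415093287, nat_lit 6248378649], nat_lit 1271250, nat_lit 1271250, nat_lit 780000, nat_lit 3072500, nat_lit 0, nat_lit 0, [nat_lit 780000, nat_lit 1435000, nat_lit 1271250], [nat_lit 18, nat_lit 40, nat_lit 80, nat_lit 80, nat_lit 2, nat_lit 317, nat_lit 100, nat_lit 10]⟩,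
 ⟨nat_lit 3162, nat_lit 4473, ⟨.ofNat (nat_lit 471268), .ofNat (nat_lit 947591), .ofNat (nat_lit 492744), .ofNat (nat_lit 969090), .ofNat (nat_lit 488260), .ofNat (nat_lit 915409), .ofNat (nat_lit 510324), .ofNat (nat_lit 937496)⟩, ⟨.ofNat (nat_lit 0), .ofNat (nat_lit 0), .ofNat (nat_lit 0), .ofNat (nat_lit 0), .ofNat (nat_lit 0), .ofNat (nat_lit 0), .ofNat (nat_lit 0), .ofNat (nat_lit 0)⟩⟩, [⟨nat_lit 13, nat_lit 86, nat_lit 23, nat_lit 100, nat_lit 215933262⟩]⟩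
noncomputable def p022_l135 : Lf2 := ⟨nat_lit 0, nat_lit 10, [nat_lit 0, nat_lit 5, nat_lit 5, nat_lit 20], false, nat_lit 0, nat_lit 0, nat_lit 0, nat_lit 0, ⟨nat_lit 1000, nat_lit 0, nat_lit 0, nat_lit 0, nat_lit 0, nat_lit 0, nat_lit 0, nat_lit 0, nat_lit 0, nat_lit 0, nat_lit 0, nat_lit 0, nat_lit 0, nat_lit 0, nat_lit 0, nat_lit 0, false, false⟩,
 nat_lit 0, nat_lit 7878, nat_lit 0, nat_lit 0, nat_lit 5908, nat_lit 5182, nat_lit 343, nat_lit 0, nat_lit 0, nat_lit 0, nat_lit 0, nat_lit 0, nat_lit 0, nat_lit 0, nat_lit 0, nat_lit 0, nat_lit 0, nat_lit 0, [],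
 ⟨p022_k8, nat_lit 0, nat_lit 0, nat_lit 430, nat_lit 0, nat_lit 732538, [nat_lit 2032000001, nat_lit 4688000000, nat_lit 6250000000], [], [nat_lit 31569084037, nat_lit 32618392940, nat_lit 38565222368, nat_lit 39153418984], nat_lit 1271250, nat_lit 1271250, nat_lit 631250, nat_lit 3031250, nat_lit 0, nat_lit 0, [nat_lit 490000, nat_lit 1100000, nat_lit 1442500], [nat_lit 6, nat_lit 40, nat_lit 80, nat_lit 80, nat_lit 3, nat_lit 317, nat_lit 100, nat_lit 12]⟩, ⟨p022_k9, nat_lit 0, nat_lit 0, nat_lit 217, nat_lit 0, nat_lit 0, [nat_lit 3282000000, nat_lit 6250000000, nat_lit 9842000000], [], [nat_lit 28577031146, nat_lit 30021868208, nat_lit 40851665856, nat_lit 41608625328], nat_lit 0, nat_lit 0, nat_lit 0, nat_lit 0, nat_lit 0, nat_lit 0, [], [nat_lit 8, nat_lit 40, nat_lit 80, nat_lit 80, nat_lit 1, nat_lit 317, nat_lit 100, nat_lit 9]⟩,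
 zbF0, [⟨nat_lit 0, nat_lit 90, nat_lit 74, nat_lit 100, nat_lit 227832362⟩]⟩
noncomputable def p022_l136 : Lf2 := ⟨nat_lit 0, nat_lit 10, [nat_lit 0, nat_lit 5, nat_lit 5, nat_lit 20], false, nat_lit 0, nat_lit 0, nat_lit 0, nat_lit 0, ⟨nat_lit 1000, nat_lit 0, nat_lit 0, nat_lit 0, nat_lit 0, nat_lit 0, nat_lit 0, nat_lit 0, nat_lit 0, nat_lit 0, nat_lit 0, nat_lit 0, nat_lit 0, nat_lit 0, nat_lit 0, nat_lit 0, false, false⟩,
 nat_lit 0, nat_lit 7824, nat_lit 0, nat_lit 0, nat_lit 5867, nat_lit 9082, nat_lit 504, nat_lit 0, nat_lit 0, nat_lit 0, nat_lit 0, nat_lit 0, nat_lit 0, nat_lit 0, nat_lit 0, nat_lit 0, nat_lit 0, nat_lit 0, [],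
 ⟨p022_k8, nat_lit 0, nat_lit 0, nat_lit 480, nat_lit 0, nat_lit 885149, [nat_lit 2032000001, nat_lit 4688000000, nat_lit 6250000000], [], [nat_lit 31388223972, nat_lit 32288261526, nat_lit 38407032544, nat_lit 39035160546], nat_lit 1271250, nat_lit 1271250, nat_lit 780000, nat_lit 3072500, nat_lit 0, nat_lit 0, [nat_lit 490000, nat_lit 1100000, nat_lit 1442500], [nat_lit 6, nat_lit 40, nat_lit 80, nat_lit 80, nat_lit 3, nat_lit 317, nat_lit 100, nat_lit 12]⟩, ⟨p022_k20, nat_lit 0, nat_lit 0, nat_lit 199, nat_lit 0, nat_lit 0, [nat_lit 3282000000, nat_lit 6250000000, nat_lit 7968000000], [], [nat_lit 27000389094, nat_lit 28894947332, nat_lit 45233083252, nat_lit 46683147992], nat_lit 0, nat_lit 0, nat_lit 0, nat_lit 0, nat_lit 0, nat_lit 0, [], [nat_lit 18, nat_lit 40, nat_lit 80, nat_lit 80, nat_lit 2, nat_lit 317, nat_lit 100, nat_lit 10]⟩,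
 zbF0, []⟩
noncomputable def p022_l137 : Lf2 := ⟨nat_lit 0, nat_lit 10, [nat_lit 0, nat_lit 5, nat_lit 5, nat_lit 20], false, nat_lit 0, nat_lit 0, nat_lit 0, nat_lit 0, ⟨nat_lit 1000, nat_lit 0, nat_lit 0, nat_lit 0, nat_lit 0, nat_lit 0, nat_lit 0, nat_lit 0, nat_lit 0, nat_lit 0, nat_lit 0, nat_lit 0, nat_lit 0, nat_lit 0, nat_lit 0, nat_lit 0, false, false⟩,
 nat_lit 0, nat_lit 5096, nat_lit 0, nat_lit 0, nat_lit 4125, nat_lit 8675, nat_lit 1062, nat_lit 0, nat_lit 0, nat_lit 0, nat_lit 0, nat_lit 0, nat_lit 0, nat_lit 0, nat_lit 0, nat_lit 0, nat_lit 0, nat_lit 0, [],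
 ⟨p022_k23, nat_lit 0, nat_lit 0, nat_lit 521, nat_lit 0, nat_lit 947151, [nat_lit 2032000001, nat_lit 4688000000, nat_lit 6250000000], [], [nat_lit 27324300879, nat_lit 28199707658, nat_lit 34489379007, nat_lit 35086294007], nat_lit 1271250, nat_lit 1271250, nat_lit 810650, nat_lit 3080750, nat_lit 0, nat_lit 0, [nat_lit 490000, nat_lit 1100000, nat_lit 1442500], [nat_lit 6, nat_lit 40, nat_lit 80, nat_lit 80, nat_lit 3, nat_lit 317, nat_lit 100, nat_lit 12]⟩, ⟨p022_k9, nat_lit 0, nat_lit 0, nat_lit 219, nat_lit 0, nat_lit 0, [nat_lit 3282000000, nat_lit 6250000000, nat_lit 9842000000], [], [nat_lit 30196954075, nat_lit 33457205960, nat_lit 44478126400, nat_lit 46300100000], nat_lit 0, nat_lit 0, nat_lit 0, nat_lit 0, nat_lit 0, nat_lit 0, [], [nat_lit 8, nat_lit 40, nat_lit 80, nat_lit 80, nat_lit 1, nat_lit 317, nat_lit 100, nat_lit 9]⟩,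
 zbF0, [⟨nat_lit 0, nat_lit 80, nat_lit 60, nat_lit 100, nat_lit 146394804⟩]⟩
noncomputable def p022_l138 : Lf2 := ⟨nat_lit 0, nat_lit 10, [nat_lit 0, nat_lit 5, nat_lit 5, nat_lit 20], false, nat_lit 0, nat_lit 0, nat_lit 0, nat_lit 0, ⟨nat_lit 749, nat_lit 0, nat_lit 251, nat_lit 7, nat_lit 224, nat_lit 0, nat_lit 0, nat_lit 0, nat_lit 0, nat_lit 215, nat_lit 122572, nat_lit 200, nat_lit 50985618, nat_lit 0, nat_lit 0, nat_lit 2749741, false, false⟩,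
 nat_lit 10098, nat_lit 0, nat_lit 0, nat_lit 0, nat_lit 6564, nat_lit 6426, nat_lit 0, nat_lit 0, nat_lit 0, nat_lit 610, nat_lit 0, nat_lit 0, nat_lit 0, nat_lit 0, nat_lit 0, nat_lit 57200, nat_lit 0, nat_lit 0, [(nat_lit 18, [(nat_lit 3, nat_lit 74), (nat_lit 4, nat_lit 177)]), (nat_lit 21, [(nat_lit 3, nat_lit 74), (nat_lit 4, nat_lit 177)])],
 ⟨p022_k8, nat_lit 0, nat_lit 0, nat_lit 365, nat_lit 0, nat_lit 568048, [nat_lit 2802091201, nat_lit 3479523601, nat_lit 4478627200], [], [nat_lit 26693483218, nat_lit 28989130308, nat_lit 27943021938, nat_lit 30106713712], nat_lit 1271250, nat_lit 1271250, nat_lit 631250, nat_lit 1751250, nat_lit 0, nat_lit 0, [nat_lit 490000, nat_lit 1100000, nat_lit 1442500], [nat_lit 6, nat_lit 40, nat_lit 80, nat_lit 80, nat_lit 3, nat_lit 272, nat_lit 60, nat_lit 10]⟩, ⟨p022_k9, nat_lit 0, nat_lit 0, nat_lit 561, nat_lit 0, nat_lit 692609, [nat_lit 2458218000,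 nat_lit 4681250000, nat_lit 7371658000], [], [nat_lit 21841207755, nat_lit 23010689866, nat_lit 21651320794, nat_lit 22738739240], nat_lit 1271250, nat_lit 1271250, nat_lit 631250, nat_lit 1751250, nat_lit 0, nat_lit 0, [nat_lit 780000, nat_lit 1435000, nat_lit 1271250], [nat_lit 8, nat_lit 40, nat_lit 80, nat_lit 80, nat_lit 1, nat_lit 272, nat_lit 60, nat_lit 8]⟩,
 ⟨nat_lit 3162, nat_lit 4473, ⟨.ofNat (nat_lit 415764), .ofNat (nat_lit 653959), .ofNat (nat_lit 458716), .ofNat (nat_lit 696911), .ofNat (nat_lit 435680), .ofNat (nat_lit 649288), .ofNat (nat_lit 479808), .ofNat (nat_lit 693416)⟩, ⟨.ofNat (nat_lit 0), .ofNat (nat_lit 0), .ofNat (nat_lit 0), .ofNat (nat_lit 0), .ofNat (nat_lit 0), .ofNat (nat_lit 0), .ofNat (nat_lit 0), .ofNat (nat_lit 0)⟩⟩, [⟨nat_lit 0, nat_lit 80, nat_lit 60, nat_lit 100, nat_lit 685431804⟩]⟩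
noncomputable def p022_l139 : Lf2 := ⟨nat_lit 0, nat_lit 10, [nat_lit 0, nat_lit 5, nat_lit 5, nat_lit 20], false, nat_lit 0, nat_lit 0, nat_lit 0, nat_lit 0, ⟨nat_lit 1000, nat_lit 0, nat_lit 0, nat_lit 0, nat_lit 0, nat_lit 0, nat_lit 0, nat_lit 0, nat_lit 0, nat_lit 0, nat_lit 0, nat_lit 0, nat_lit 0, nat_lit 0, nat_lit 0, nat_lit 0, false, false⟩,
 nat_lit 10942, nat_lit 0, nat_lit 0, nat_lit 0, nat_lit 7012, nat_lit 6962, nat_lit 0, nat_lit 0, nat_lit 0, nat_lit 663, nat_lit 0, nat_lit 0, nat_lit 0, nat_lit 0, nat_lit 0, nat_lit 0, nat_lit 0, nat_lit 0, [],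
 ⟨p022_k8, nat_lit 0, nat_lit 0, nat_lit 363, nat_lit 0, nat_lit 568048, [nat_lit 2032000001, nat_lit 4688000000, nat_lit 6250000000], [], [nat_lit 33084621120, nat_lit 35086385776, nat_lit 40891793072, nat_lit 43844395504], nat_lit 1271250, nat_lit 1271250, nat_lit 1271250, nat_lit 1271250, nat_lit 0, nat_lit 0, [nat_lit 490000, nat_lit 1100000, nat_lit 1442500], [nat_lit 6, nat_lit 40, nat_lit 80, nat_lit 80, nat_lit 3, nat_lit 203, nat_lit 0, nat_lit 7]⟩, ⟨p022_k9, nat_lit 0, nat_lit 0, nat_lit 495, nat_lit 0, nat_lit 692609, [nat_lit 3282000000, nat_lit 6250000000, nat_lit 9842000000], [], [nat_lit 35592975150, nat_lit 36692619630, nat_lit 39980282451, nat_lit 40759367587], nat_lit 1271250, nat_lit 1271250, nat_lit 1271250, nat_lit 1271250, nat_lit 0, nat_lit 0, [nat_lit 780000, nat_lit 1435000, nat_lit 1271250], [nat_lit 8, nat_lit 40, nat_lit 80, nat_lit 80, nat_lit 1, nat_lit 317,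 nat_lit 100, nat_lit 9]⟩,
 zbF0, []⟩
noncomputable def p022_l140 : Lf2 := ⟨nat_lit 0, nat_lit 10, [nat_lit 0, nat_lit 5, nat_lit 5, nat_lit 20], false, nat_lit 0, nat_lit 0, nat_lit 0, nat_lit 0, ⟨nat_lit 1000, nat_lit 0, nat_lit 0, nat_lit 0, nat_lit 0, nat_lit 0, nat_lit 0, nat_lit 0, nat_lit 0, nat_lit 0, nat_lit 0, nat_lit 0, nat_lit 0, nat_lit 0, nat_lit 0, nat_lit 0, false, false⟩,
 nat_lit 0, nat_lit 7878, nat_lit 0, nat_lit 0, nat_lit 5908, nat_lit 5182, nat_lit 343, nat_lit 0, nat_lit 0, nat_lit 0, nat_lit 0, nat_lit 0, nat_lit 0, nat_lit 0, nat_lit 0, nat_lit 0, nat_lit 0, nat_lit 0, [],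
 ⟨p022_k8, nat_lit 0, nat_lit 0, nat_lit 430, nat_lit 0, nat_lit 732538, [nat_lit 2032000001, nat_lit 4688000000, nat_lit 6250000000], [], [nat_lit 31569084037, nat_lit 32618392940, nat_lit 38565222368, nat_lit 39153418984], nat_lit 1271250, nat_lit 1271250, nat_lit 631250, nat_lit 3031250, nat_lit 0, nat_lit 0, [nat_lit 490000, nat_lit 1100000, nat_lit 1442500], [nat_lit 6, nat_lit 40, nat_lit 80, nat_lit 80, nat_lit 3, nat_lit 317, nat_lit 100, nat_lit 12]⟩, ⟨p022_k9, nat_lit 0, nat_lit 0, nat_lit 217, nat_lit 0, nat_lit 0, [nat_lit 3282000000, nat_lit 6250000000, nat_lit 9842000000], [], [nat_lit 28577031146, nat_lit 30021868208, nat_lit 40851665856, nat_lit 41608625328], nat_lit 0, nat_lit 0, nat_lit 0, nat_lit 0, nat_lit 0, nat_lit 0, [], [nat_lit 8, nat_lit 40, nat_lit 80, nat_lit 80, nat_lit 1, nat_lit 317, nat_lit 100, nat_lit 9]⟩,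
 zbF0, [⟨nat_lit 0, nat_lit 90, nat_lit 74, nat_lit 100, nat_lit 227832362⟩]⟩
noncomputable def p022_l141 : Lf2 := ⟨nat_lit 0, nat_lit 10, [nat_lit 0, nat_lit 5, nat_lit 5, nat_lit 20], false, nat_lit 0, nat_lit 0, nat_lit 0, nat_lit 0, ⟨nat_lit 1000, nat_lit 0, nat_lit 0, nat_lit 0, nat_lit 0, nat_lit 0, nat_lit 0, nat_lit 0, nat_lit 0, nat_lit 0, nat_lit 0, nat_lit 0, nat_lit 0, nat_lit 0, nat_lit 0, nat_lit 0, false, false⟩,
 nat_lit 0, nat_lit 7824, nat_lit 0, nat_lit 0, nat_lit 5867, nat_lit 9082, nat_lit 504, nat_lit 0, nat_lit 0, nat_lit 0, nat_lit 0, nat_lit 0, nat_lit 0, nat_lit 0, nat_lit 0, nat_lit 0, nat_lit 0, nat_lit 0, [],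
 ⟨p022_k8, nat_lit 0, nat_lit 0, nat_lit 480, nat_lit 0, nat_lit 885149, [nat_lit 2032000001, nat_lit 4688000000, nat_lit 6250000000], [], [nat_lit 31388223972, nat_lit 32288261526, nat_lit 38407032544, nat_lit 39035160546], nat_lit 1271250, nat_lit 1271250, nat_lit 780000, nat_lit 3072500, nat_lit 0, nat_lit 0, [nat_lit 490000, nat_lit 1100000, nat_lit 1442500], [nat_lit 6, nat_lit 40, nat_lit 80, nat_lit 80, nat_lit 3, nat_lit 317, nat_lit 100, nat_lit 12]⟩, ⟨p022_k20, nat_lit 0, nat_lit 0, nat_lit 199, nat_lit 0, nat_lit 0, [nat_lit 3282000000, nat_lit 6250000000, nat_lit 7968000000], [], [nat_lit 27000389094, nat_lit 28894947332, nat_lit 45233083252, nat_lit 46683147992], nat_lit 0, nat_lit 0, nat_lit 0, nat_lit 0, nat_lit 0, nat_lit 0, [], [nat_lit 18, nat_lit 40, nat_lit 80, nat_lit 80, nat_lit 2, nat_lit 317, nat_lit 100, nat_lit 10]⟩,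
 zbF0, []⟩
noncomputable def p022_l142 : Lf2 := ⟨nat_lit 0, nat_lit 10, [nat_lit 0, nat_lit 5, nat_lit 5, nat_lit 20], false, nat_lit 0, nat_lit 0, nat_lit 0, nat_lit 0, ⟨nat_lit 1000, nat_lit 0, nat_lit 0, nat_lit 0, nat_lit 0, nat_lit 0, nat_lit 0, nat_lit 0, nat_lit 0, nat_lit 0, nat_lit 0, nat_lit 0, nat_lit 0, nat_lit 0, nat_lit 0, nat_lit 0, false, false⟩,
 nat_lit 0, nat_lit 5096, nat_lit 0, nat_lit 0, nat_lit 4125, nat_lit 8675, nat_lit 1062, nat_lit 0, nat_lit 0, nat_lit 0, nat_lit 0, nat_lit 0, nat_lit 0, nat_lit 0, nat_lit 0, nat_lit 0, nat_lit 0, nat_lit 0, [],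
 ⟨p022_k23, nat_lit 0, nat_lit 0, nat_lit 521, nat_lit 0, nat_lit 947151, [nat_lit 2032000001, nat_lit 4688000000, nat_lit 6250000000], [], [nat_lit 27324300879, nat_lit 28199707658, nat_lit 34489379007, nat_lit 35086294007], nat_lit 1271250, nat_lit 1271250, nat_lit 810650, nat_lit 3080750, nat_lit 0, nat_lit 0, [nat_lit 490000, nat_lit 1100000, nat_lit 1442500], [nat_lit 6, nat_lit 40, nat_lit 80, nat_lit 80, nat_lit 3, nat_lit 317, nat_lit 100, nat_lit 12]⟩, ⟨p022_k9, nat_lit 0, nat_lit 0, nat_lit 219, nat_lit 0, nat_lit 0, [nat_lit 3282000000, nat_lit 6250000000, nat_lit 9842000000], [], [nat_lit 30196954075, nat_lit 33457205960, nat_lit 44478126400, nat_lit 46300100000], nat_lit 0, nat_lit 0, nat_lit 0, nat_lit 0, nat_lit 0, nat_lit 0, [], [nat_lit 8, nat_lit 40, nat_lit 80, nat_lit 80, nat_lit 1, nat_lit 317, nat_lit 100, nat_lit 9]⟩,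
 zbF0, [⟨nat_lit 0, nat_lit 80, nat_lit 60, nat_lit 100, nat_lit 146394804⟩]⟩
noncomputable def p022_l143 : Lf2 := ⟨nat_lit 0, nat_lit 10, [nat_lit 0, nat_lit 5, nat_lit 5, nat_lit 20], false, nat_lit 0, nat_lit 0, nat_lit 0, nat_lit 0, ⟨nat_lit 463, nat_lit 537, nat_lit 0, nat_lit 7, nat_lit 276, nat_lit 0, nat_lit 0, nat_lit 0, nat_lit 0, nat_lit 0, nat_lit 0, nat_lit 0, nat_lit 0, nat_lit 0, nat_lit 0, nat_lit 5000000, false, false⟩,
 nat_lit 5440, nat_lit 0, nat_lit 0, nat_lit 0, nat_lit 4079, nat_lit 3461, nat_lit 128, nat_lit 0, nat_lit 0, nat_lit 216, nat_lit 0, nat_lit 0, nat_lit 0, nat_lit 0, nat_lit 0, nat_lit 537000, nat_lit 0, nat_lit 0, [(nat_lit 18, [(nat_lit 2, nat_lit 537)]), (nat_lit 21, [(nat_lit 2, nat_lit 537)])],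
 ⟨p022_k8, nat_lit 0, nat_lit 0, nat_lit 365, nat_lit 0, nat_lit 568048, [nat_lit 1854718401, nat_lit 2731888001, nat_lit 2655751600], [], [nat_lit 26065018678, nat_lit 27890519899, nat_lit 35582598420, nat_lit 34944817068], nat_lit 1271250, nat_lit 1271250, nat_lit 631250, nat_lit 3031250, nat_lit 0, nat_lit 0, [nat_lit 490000, nat_lit 1100000, nat_lit 1442500], [nat_lit 6, nat_lit 40, nat_lit 80, nat_lit 80, nat_lit 3, nat_lit 317, nat_lit 100, nat_lit 12]⟩, ⟨p022_k9, nat_lit 0, nat_lit 0, nat_lit 561, nat_lit 0, nat_lit 692609, [nat_lit 1519566000, nat_lit 2893750000, nat_lit 4556846000], [], [nat_lit 16943957674, nat_lit 17629221973, nat_lit 20035437436, nat_lit 19532862180], nat_lit 1271250, nat_lit 1271250, nat_lit 631250, nat_lit 3031250, nat_lit 0, nat_lit 0, [nat_lit 780000, nat_lit 1435000, nat_lit 1271250], [nat_lit 8, nat_lit 40, nat_lit 80, nat_lit 80, nat_lit 1, nat_lit 317,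 nat_lit 100, nat_lit 9]⟩,
 ⟨nat_lit 3162, nat_lit 4473, ⟨.ofNat (nat_lit 415764), .ofNat (nat_lit 926092), .ofNat (nat_lit 458716), .ofNat (nat_lit 969090), .ofNat (nat_lit 435680), .ofNat (nat_lit 893321), .ofNat (nat_lit 479808), .ofNat (nat_lit 937496)⟩, ⟨.ofNat (nat_lit 0), .ofNat (nat_lit 0), .ofNat (nat_lit 0), .ofNat (nat_lit 0), .ofNat (nat_lit 0), .ofNat (nat_lit 0), .ofNat (nat_lit 0), .ofNat (nat_lit 0)⟩⟩, []⟩
noncomputable def b_N_800_700_0_40 : St := ⟨false, nat_lit 2, nat_lit 2, nat_lit 0, nat_lit 40, nat_lit 320, nat_lit 360, nat_lit 280, nat_lit 320, nat_lit 100, nat_lit 400, nat_lit 0, nat_lit 0, nat_lit 0, nat_lit 0, nat_lit 0, nat_lit 0, nat_lit 80, nat_lit 120, nat_lit 0, nat_lit 0, nat_lit 0, nat_lit 0⟩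
theorem d_N_800_700_0_40 (h : EB TB.env) : Dead b_N_800_700_0_40 := chkB_sound0 h (T :=
(.st (nat_lit 0)
(.gv
(.st (nat_lit 1)
(.leaf p022_l114)
(.spl (nat_lit 2) (nat_lit 240)
(.spl (nat_lit 0) (nat_lit 340)
(.leaf p022_l115)
(.trZ (nat_lit 0) (nat_lit 99) (nat_lit 77) (nat_lit 100) (nat_lit 124) (.leaf p022_l116)))
(.spl (nat_lit 2) (nat_lit 320)
(.spl (nat_lit 1) (nat_lit 300)
(.spl (nat_lit 2) (nat_lit 280)
(.leaf p022_l117)
(.leaf p022_l118))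
(.leaf p022_l119))
(.spl (nat_lit 1) (nat_lit 300)
(.spl (nat_lit 6) (nat_lit 100)
(.spl (nat_lit 0) (nat_lit 340)
(.leaf p022_l120)
(.trX (nat_lit 13) (nat_lit 82) (nat_lit 29) (nat_lit 100) (nat_lit 396) (.spl (nat_lit 2) (nat_lit 360)
(.spl (nat_lit 0) (nat_lit 350)
(.leaf p022_l121)
(.leaf p022_l122))
(.spl (nat_lit 1) (nat_lit 290)
(.trX (nat_lit 13) (nat_lit 80) (nat_lit 34) (nat_lit 100) (nat_lit 392) (.spl (nat_lit 0) (nat_lit 350)
(.spl (nat_lit 0) (nat_lit 345)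
(.leaf p022_l123)
(.leaf p022_l124))
(.trX (nat_lit 13) (nat_lit 74) (nat_lit 42) (nat_lit 100) (nat_lit 388) (.leaf p022_l125))))
(.spl (nat_lit 0) (nat_lit 350)
(.leaf p022_l126)
(.trX (nat_lit 13) (nat_lit 76) (nat_lit 37) (nat_lit 100) (nat_lit 392) (.leaf p022_l127)))))))
(.leaf p022_l128))
(.spl (nat_lit 1) (nat_lit 310)
(.spl (nat_lit 0) (nat_lit 340)
(.leaf p022_l129)
(.leaf p022_l130))
(.leaf p022_l131))))))
(.st (nat_lit 1)
(.leaf p022_l132)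
(.spl (nat_lit 1) (nat_lit 300)
(.leaf p022_l133)
(.trZ (nat_lit 0) (nat_lit 94) (nat_lit 87) (nat_lit 100) (nat_lit 120) (.leaf p022_l134)))))
(.gv
(.st (nat_lit 1)
(.spl (nat_lit 0) (nat_lit 340)
(.spl (nat_lit 1) (nat_lit 300)
(.leaf p022_l135)
(.trZ (nat_lit 0) (nat_lit 94) (nat_lit 87) (nat_lit 100) (nat_lit 120) (.leaf p022_l136)))
(.trZ (nat_lit 0) (nat_lit 99) (nat_lit 77) (nat_lit 100) (nat_lit 124) (.leaf p022_l137)))
(.spl (nat_lit 2) (nat_lit 240)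
(.leaf p022_l138)
(.leaf p022_l139)))
(.st (nat_lit 1)
(.spl (nat_lit 0) (nat_lit 340)
(.spl (nat_lit 1) (nat_lit 300)
(.leaf p022_l140)
(.trZ (nat_lit 0) (nat_lit 94) (nat_lit 87) (nat_lit 100) (nat_lit 120) (.leaf p022_l141)))
(.trZ (nat_lit 0) (nat_lit 99) (nat_lit 77) (nat_lit 100) (nat_lit 124) (.leaf p022_l142)))
(.leaf p022_l143))))) (by decide +kernel)
noncomputable def p022_l144 : Lf2 := ⟨nat_lit 0, nat_lit 10, [nat_lit 0, nat_lit 5, nat_lit 5, nat_lit 20], false, nat_lit 0, nat_lit 0, nat_lit 0, nat_lit 0, ⟨nat_lit 1000, nat_lit 0, nat_lit 0, nat_lit 0, nat_lit 0, nat_lit 0, nat_lit 0, nat_lit 0, nat_lit 0, nat_lit 0, nat_lit 0, nat_lit 0, nat_lit 0, nat_lit 0, nat_lit 0, nat_lit 0, false, false⟩,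
 nat_lit 0, nat_lit 0, nat_lit 0, nat_lit 0, nat_lit 0, nat_lit 5191, nat_lit 0, nat_lit 0, nat_lit 0, nat_lit 0, nat_lit 0, nat_lit 0, nat_lit 0, nat_lit 0, nat_lit 0, nat_lit 0, nat_lit 0, nat_lit 0, [],
 ⟨p022_k8, nat_lit 0, nat_lit 0, nat_lit 180, nat_lit 0, nat_lit 0, [nat_lit 2032000001, nat_lit 4688000000, nat_lit 6250000000], [], [nat_lit 33515367001, nat_lit 34893813001, nat_lit 41357136001, nat_lit 42394240001], nat_lit 0, nat_lit 0, nat_lit 0, nat_lit 0, nat_lit 0, nat_lit 0, [], [nat_lit 6, nat_lit 40, nat_lit 80, nat_lit 80, nat_lit 3, nat_lit 317, nat_lit 100, nat_lit 12]⟩, ⟨p022_k9, nat_lit 0, nat_lit 0, nat_lit 219, nat_lit 0, nat_lit 0, [nat_lit 3282000000, nat_lit 6250000000, nat_lit 9842000000], [], [nat_lit 33956939498, nat_lit 36221480168, nat_lit 43140597444, nat_lit 44374113568], nat_lit 0, nat_lit 0, nat_lit 0, nat_lit 0, nat_lit 0, nat_lit 0, [], [nat_lit 8, nat_lit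 40, nat_lit 80, nat_lit 80, nat_lit 1, nat_lit 317, nat_lit 100, nat_lit 9]⟩,
 zbF0, []⟩
noncomputable def p022_l145 : Lf2 := ⟨nat_lit 0, nat_lit 10, [nat_lit 0, nat_lit 5, nat_lit 5, nat_lit 20], false, nat_lit 0, nat_lit 0, nat_lit 0, nat_lit 0, ⟨nat_lit 1000, nat_lit 0, nat_lit 0, nat_lit 0, nat_lit 0, nat_lit 0, nat_lit 0, nat_lit 0, nat_lit 0, nat_lit 0, nat_lit 0, nat_lit 0, nat_lit 0, nat_lit 0, nat_lit 0, nat_lit 0, false, false⟩,
 nat_lit 0, nat_lit 0, nat_lit 9551, nat_lit 0, nat_lit 3811, nat_lit 6077, nat_lit 0, nat_lit 0, nat_lit 0, nat_lit 847, nat_lit 0, nat_lit 0, nat_lit 0, nat_lit 0, nat_lit 0, nat_lit 0, nat_lit 0, nat_lit 0, [],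
 ⟨p022_k8, nat_lit 0, nat_lit 0, nat_lit 136, nat_lit 0, nat_lit 0, [nat_lit 2032000001, nat_lit 4688000000, nat_lit 6250000000], [], [nat_lit 23323274202, nat_lit 24986086068, nat_lit 26768178257, nat_lit 28092786141], nat_lit 0, nat_lit 0, nat_lit 0, nat_lit 0, nat_lit 0, nat_lit 0, [], [nat_lit 6, nat_lit 40, nat_lit 80, nat_lit 80, nat_lit 3, nat_lit 272, nat_lit 60, nat_lit 10]⟩, ⟨p022_k9, nat_lit 0, nat_lit 0, nat_lit 474, nat_lit 0, nat_lit 537527, [nat_lit 3282000000, nat_lit 6250000000, nat_lit 9842000000], [], [nat_lit 32343542800, nat_lit 33812588517, nat_lit 32939016115, nat_lit 34420592707], nat_lit 1271250, nat_lit 1271250, nat_lit 631250, nat_lit 1751250, nat_lit 0, nat_lit 0, [nat_lit 780000, nat_lit 1435000, nat_lit 1271250], [nat_lit 8, nat_lit 40, nat_lit 80, nat_lit 80, nat_lit 1, nat_lit 272, nat_lit 60, nat_lit 8]⟩,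
 zbF0, [⟨nat_lit 0, nat_lit 81, nat_lit 72, nat_lit 100, nat_lit 600948711⟩]⟩
noncomputable def p022_l146 : Lf2 := ⟨nat_lit 0, nat_lit 10, [nat_lit 0, nat_lit 5, nat_lit 5, nat_lit 20], false, nat_lit 0, nat_lit 0, nat_lit 0, nat_lit 0, ⟨nat_lit 110, nat_lit 890, nat_lit 0, nat_lit 7, nat_lit 233, nat_lit 0, nat_lit 0, nat_lit 0, nat_lit 0, nat_lit 0, nat_lit 0, nat_lit 0, nat_lit 50070286, nat_lit 16929714, nat_lit 0, nat_lit 2826313, false, false⟩,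
 nat_lit 0, nat_lit 0, nat_lit 1106, nat_lit 0, nat_lit 3271, nat_lit 703, nat_lit 0, nat_lit 0, nat_lit 0, nat_lit 83, nat_lit 0, nat_lit 0, nat_lit 0, nat_lit 0, nat_lit 0, nat_lit 222500, nat_lit 0, nat_lit 0, [(nat_lit 21, [(nat_lit 0, nat_lit 890)])],
 ⟨p022_k23, nat_lit 0, nat_lit 0, nat_lit 145, nat_lit 0, nat_lit 0, [nat_lit 1610496001, nat_lit 2425620001, nat_lit 2597440000], [], [nat_lit 21405914580, nat_lit 22894886193, nat_lit 24276442541, nat_lit 25509118665], nat_lit 0, nat_lit 0, nat_lit 0, nat_lit 0, nat_lit 0, nat_lit 0, [], [nat_lit 6, nat_lit 40, nat_lit 80, nat_lit 80, nat_lit 3, nat_lit 272, nat_lit 60, nat_lit 10]⟩, ⟨p022_k9, nat_lit 0, nat_lit 0, nat_lit 584, nat_lit 0, nat_lit 782088, [nat_lit 361020000, nat_lit 687500000, nat_lit 1082620000], [], [nat_lit 3955528880, nat_lit 4078111642, nat_lit 3978516610, nat_lit 4097276290], nat_lit 1271250, nat_lit 1271250, nat_lit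 810650, nat_lit 1764750, nat_lit 0, nat_lit 0, [nat_lit 780000, nat_lit 1435000, nat_lit 1271250], [nat_lit 8, nat_lit 40, nat_lit 80, nat_lit 80, nat_lit 1, nat_lit 272, nat_lit 60, nat_lit 8]⟩,
 ⟨nat_lit 3162, nat_lit 3873, ⟨.ofNat (nat_lit 464406), .ofNat (nat_lit 651611), .ofNat (nat_lit 507934), .ofNat (nat_lit 695141), .ofNat (nat_lit 472632), .ofNat (nat_lit 649490), .ofNat (nat_lit 516884), .ofNat (nat_lit 693742)⟩, ⟨.ofNat (nat_lit 0), .ofNat (nat_lit 0), .ofNat (nat_lit 0), .ofNat (nat_lit 0), .ofNat (nat_lit 0), .ofNat (nat_lit 0), .ofNat (nat_lit 0), .ofNat (nat_lit 0)⟩⟩, [⟨nat_lit 0, nat_lit 80, nat_lit 60, nat_lit 100, nat_lit 31763898⟩]⟩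
noncomputable def p022_l147 : Lf2 := ⟨nat_lit 0, nat_lit 10, [nat_lit 0, nat_lit 5, nat_lit 5, nat_lit 20], false, nat_lit 0, nat_lit 0, nat_lit 0, nat_lit 0, ⟨nat_lit 1000, nat_lit 0, nat_lit 0, nat_lit 0, nat_lit 0, nat_lit 0, nat_lit 0, nat_lit 0, nat_lit 0, nat_lit 0, nat_lit 0, nat_lit 0, nat_lit 0, nat_lit 0, nat_lit 0, nat_lit 0, false, false⟩,
 nat_lit 0, nat_lit 0, nat_lit 9724, nat_lit 0, nat_lit 5667, nat_lit 6187, nat_lit 0, nat_lit 0, nat_lit 0, nat_lit 708, nat_lit 0, nat_lit 0, nat_lit 0, nat_lit 0, nat_lit 0, nat_lit 0, nat_lit 0, nat_lit 0, [],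
 ⟨p022_k8, nat_lit 0, nat_lit 0, nat_lit 180, nat_lit 0, nat_lit 0, [nat_lit 2032000001, nat_lit 4688000000, nat_lit 6250000000], [], [nat_lit 28378418252, nat_lit 31313173196, nat_lit 37542897508, nat_lit 39763272764], nat_lit 0, nat_lit 0, nat_lit 0, nat_lit 0, nat_lit 0, nat_lit 0, [], [nat_lit 6, nat_lit 40, nat_lit 80, nat_lit 80, nat_lit 3, nat_lit 203, nat_lit 0, nat_lit 7]⟩, ⟨p022_k9, nat_lit 0, nat_lit 0, nat_lit 530, nat_lit 0, nat_lit 782088, [nat_lit 3282000000, nat_lit 6250000000, nat_lit 9842000000], [], [nat_lit 37581422996, nat_lit 38462087020, nat_lit 41872767228, nat_lit 42830666180], nat_lit 1271250, nat_lit 1271250, nat_lit 1271250, nat_lit 1271250, nat_lit 0, nat_lit 0, [nat_lit 780000, nat_lit 1435000, nat_lit 1271250], [nat_lit 8, nat_lit 40, nat_lit 80, nat_lit 80, nat_lit 1, nat_lit 317, nat_lit 100, nat_lit 9]⟩,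
 zbF0, []⟩
noncomputable def p022_l148 : Lf2 := ⟨nat_lit 0, nat_lit 10, [nat_lit 0, nat_lit 5, nat_lit 5, nat_lit 20], false, nat_lit 0, nat_lit 0, nat_lit 0, nat_lit 0, ⟨nat_lit 530, nat_lit 470, nat_lit 0, nat_lit 7, nat_lit 276, nat_lit 0, nat_lit 0, nat_lit 0, nat_lit 0, nat_lit 0, nat_lit 0, nat_lit 0, nat_lit 0, nat_lit 0, nat_lit 0, nat_lit 5000000, false, false⟩,
 nat_lit 0, nat_lit 0, nat_lit 4739, nat_lit 0, nat_lit 4468, nat_lit 3015, nat_lit 0, nat_lit 0, nat_lit 0, nat_lit 338, nat_lit 0, nat_lit 0, nat_lit 0, nat_lit 0, nat_lit 0, nat_lit 117500, nat_lit 0, nat_lit 0, [(nat_lit 18, [(nat_lit 0, nat_lit 470)]), (nat_lit 21, [(nat_lit 0, nat_lit 470)])],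
 ⟨p022_k8, nat_lit 0, nat_lit 0, nat_lit 180, nat_lit 0, nat_lit 0, [nat_lit 1809408001, nat_lit 3503600000, nat_lit 4516640000], [], [nat_lit 23509285572, nat_lit 26762602816, nat_lit 34675549344, nat_lit 36380256432], nat_lit 0, nat_lit 0, nat_lit 0, nat_lit 0, nat_lit 0, nat_lit 0, [], [nat_lit 6, nat_lit 40, nat_lit 80, nat_lit 80, nat_lit 3, nat_lit 317, nat_lit 100, nat_lit 12]⟩, ⟨p022_k9, nat_lit 0, nat_lit 0, nat_lit 594, nat_lit 0, nat_lit 782088, [nat_lit 1739460000, nat_lit 3312500000, nat_lit 5216260000], [], [nat_lit 21618788580, nat_lit 22150431720, nat_lit 23317430060, nat_lit 23619108420], nat_lit 1271250, nat_lit 1271250, nat_lit 631250, nat_lit 3031250, nat_lit 0, nat_lit 0, [nat_lit 780000, nat_lit 1435000, nat_lit 1271250], [nat_lit 8, nat_lit 40, nat_lit 80, nat_lit 80, nat_lit 1, nat_lit 317, nat_lit 100, nat_lit 9]⟩,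
 ⟨nat_lit 3162, nat_lit 4473, ⟨.ofNat (nat_lit 415764), .ofNat (nat_lit 926092), .ofNat (nat_lit 458716), .ofNat (nat_lit 969090), .ofNat (nat_lit 435680), .ofNat (nat_lit 893321), .ofNat (nat_lit 479808), .ofNat (nat_lit 937496)⟩, ⟨.ofNat (nat_lit 0), .ofNat (nat_lit 0), .ofNat (nat_lit 0), .ofNat (nat_lit 0), .ofNat (nat_lit 0), .ofNat (nat_lit 0), .ofNat (nat_lit 0), .ofNat (nat_lit 0)⟩⟩, []⟩
noncomputable def p022_l149 : Lf2 := ⟨nat_lit 0, nat_lit 10, [nat_lit 0, nat_lit 5, nat_lit 5, nat_lit 20], false, nat_lit 0, nat_lit 0, nat_lit 0, nat_lit 0, ⟨nat_lit 1000, nat_lit 0, nat_lit 0, nat_lit 0, nat_lit 0, nat_lit 0, nat_lit 0, nat_lit 0, nat_lit 0, nat_lit 0, nat_lit 0, nat_lit 0, nat_lit 0, nat_lit 0, nat_lit 0, nat_lit 0, false, false⟩,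
 nat_lit 0, nat_lit 8528, nat_lit 0, nat_lit 0, nat_lit 6395, nat_lit 6580, nat_lit 0, nat_lit 0, nat_lit 0, nat_lit 0, nat_lit 0, nat_lit 0, nat_lit 0, nat_lit 0, nat_lit 0, nat_lit 0, nat_lit 0, nat_lit 0, [],
 ⟨p022_k8, nat_lit 0, nat_lit 0, nat_lit 371, nat_lit 0, nat_lit 586826, [nat_lit 2032000001, nat_lit 4688000000, nat_lit 6250000000], [], [nat_lit 33502908460, nat_lit 35924225970, nat_lit 40735614920, nat_lit 41977638020], nat_lit 1271250, nat_lit 1271250, nat_lit 631250, nat_lit 3031250, nat_lit 0, nat_lit 0, [nat_lit 490000, nat_lit 1100000, nat_lit 1442500], [nat_lit 6, nat_lit 40, nat_lit 80, nat_lit 80, nat_lit 3, nat_lit 317, nat_lit 100, nat_lit 12]⟩, ⟨p022_k9, nat_lit 0, nat_lit 0, nat_lit 219, nat_lit 0, nat_lit 0, [nat_lit 3282000000, nat_lit 6250000000, nat_lit 9842000000], [], [nat_lit 32066473900, nat_lit 34934390800, nat_lit 42634284720, nat_lit 43941367840], nat_lit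 0, nat_lit 0, nat_lit 0, nat_lit 0, nat_lit 0, nat_lit 0, [], [nat_lit 8, nat_lit 40, nat_lit 80, nat_lit 80, nat_lit 1, nat_lit 317, nat_lit 100, nat_lit 9]⟩,
 zbF0, [⟨nat_lit 0, nat_lit 80, nat_lit 60, nat_lit 100, nat_lit 381016031⟩]⟩
noncomputable def p022_l150 : Lf2 := ⟨nat_lit 0, nat_lit 10, [nat_lit 0, nat_lit 5, nat_lit 5, nat_lit 20], false, nat_lit 0, nat_lit 0, nat_lit 0, nat_lit 0, ⟨nat_lit 1000, nat_lit 0, nat_lit 0, nat_lit 0, nat_lit 0, nat_lit 0, nat_lit 0, nat_lit 0, nat_lit 0, nat_lit 0, nat_lit 0, nat_lit 0, nat_lit 0, nat_lit 0, nat_lit 0, nat_lit 0, false, false⟩,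
 nat_lit 10261, nat_lit 0, nat_lit 0, nat_lit 0, nat_lit 7695, nat_lit 6529, nat_lit 0, nat_lit 0, nat_lit 0, nat_lit 567, nat_lit 0, nat_lit 0, nat_lit 0, nat_lit 0, nat_lit 0, nat_lit 0, nat_lit 0, nat_lit 0, [],
 ⟨p022_k8, nat_lit 0, nat_lit 0, nat_lit 252, nat_lit 0, nat_lit 234203, [nat_lit 2032000001, nat_lit 4688000000, nat_lit 6250000000], [], [nat_lit 26891039795, nat_lit 28641362420, nat_lit 42802660420, nat_lit 44359738680], nat_lit 1271250, nat_lit 1271250, nat_lit 631250, nat_lit 3031250, nat_lit 0, nat_lit 0, [nat_lit 490000, nat_lit 1100000, nat_lit 1442500], [nat_lit 6, nat_lit 40, nat_lit 80, nat_lit 80, nat_lit 3, nat_lit 317, nat_lit 100, nat_lit 12]⟩, ⟨p022_k9, nat_lit 0, nat_lit 0, nat_lit 345, nat_lit 0, nat_lit 287515, [nat_lit 3282000000, nat_lit 6250000000, nat_lit 9842000000], [], [nat_lit 32028537642, nat_lit 34374394765, nat_lit 43576725320, nat_lit 41289027322],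 nat_lit 1271250, nat_lit 1271250, nat_lit 631250, nat_lit 3031250, nat_lit 0, nat_lit 0, [nat_lit 780000, nat_lit 1435000, nat_lit 1271250], [nat_lit 8, nat_lit 40, nat_lit 80, nat_lit 80, nat_lit 1, nat_lit 317, nat_lit 100, nat_lit 9]⟩,
 zbF0, [⟨nat_lit 0, nat_lit 81, nat_lit 72, nat_lit 100, nat_lit 113696684⟩]⟩
noncomputable def p022_l151 : Lf2 := ⟨nat_lit 0, nat_lit 10, [nat_lit 0, nat_lit 5, nat_lit 5, nat_lit 20], false, nat_lit 0, nat_lit 0, nat_lit 0, nat_lit 0, ⟨nat_lit 1000, nat_lit 0, nat_lit 0, nat_lit 0, nat_lit 0, nat_lit 0, nat_lit 0, nat_lit 0, nat_lit 0, nat_lit 0, nat_lit 0, nat_lit 0, nat_lit 0, nat_lit 0, nat_lit 0, nat_lit 0, false, false⟩,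
 nat_lit 9358, nat_lit 0, nat_lit 0, nat_lit 0, nat_lit 7367, nat_lit 5954, nat_lit 0, nat_lit 0, nat_lit 0, nat_lit 498, nat_lit 0, nat_lit 0, nat_lit 0, nat_lit 0, nat_lit 0, nat_lit 0, nat_lit 0, nat_lit 0, [],
 ⟨p022_k23, nat_lit 0, nat_lit 0, nat_lit 274, nat_lit 0, nat_lit 302109, [nat_lit 2032000001, nat_lit 4688000000, nat_lit 6250000000], [], [nat_lit 29086387352, nat_lit 30730274842, nat_lit 43403282808, nat_lit 44921569164], nat_lit 1271250, nat_lit 1271250, nat_lit 810650, nat_lit 3080750, nat_lit 0, nat_lit 0, [nat_lit 490000, nat_lit 1100000, nat_lit 1442500], [nat_lit 6, nat_lit 40, nat_lit 80, nat_lit 80, nat_lit 3, nat_lit 317, nat_lit 100, nat_lit 12]⟩, ⟨p022_k9, nat_lit 0, nat_lit 0, nat_lit 378, nat_lit 0, nat_lit 407186, [nat_lit 3282000000, nat_lit 6250000000, nat_lit 9842000000], [], [nat_lit 36797085090, nat_lit 38313283416, nat_lit 45138146320, nat_lit 43763444396],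 nat_lit 1271250, nat_lit 1271250, nat_lit 810650, nat_lit 3080750, nat_lit 0, nat_lit 0, [nat_lit 780000, nat_lit 1435000, nat_lit 1271250], [nat_lit 8, nat_lit 40, nat_lit 80, nat_lit 80, nat_lit 1, nat_lit 317, nat_lit 100, nat_lit 9]⟩,
 zbF0, [⟨nat_lit 0, nat_lit 80, nat_lit 60, nat_lit 100, nat_lit 149559628⟩]⟩
noncomputable def p022_l152 : Lf2 := ⟨nat_lit 0, nat_lit 10, [nat_lit 0, nat_lit 5, nat_lit 5, nat_lit 20], false, nat_lit 0, nat_lit 0, nat_lit 0, nat_lit 0, ⟨nat_lit 1000, nat_lit 0, nat_lit 0, nat_lit 0, nat_lit 0, nat_lit 0, nat_lit 0, nat_lit 0, nat_lit 0, nat_lit 0, nat_lit 0, nat_lit 0, nat_lit 0, nat_lit 0, nat_lit 0, nat_lit 0, false, false⟩,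
 nat_lit 0, nat_lit 8528, nat_lit 0, nat_lit 0, nat_lit 6395, nat_lit 6580, nat_lit 0, nat_lit 0, nat_lit 0, nat_lit 0, nat_lit 0, nat_lit 0, nat_lit 0, nat_lit 0, nat_lit 0, nat_lit 0, nat_lit 0, nat_lit 0, [],
 ⟨p022_k8, nat_lit 0, nat_lit 0, nat_lit 371, nat_lit 0, nat_lit 586826, [nat_lit 2032000001, nat_lit 4688000000, nat_lit 6250000000], [], [nat_lit 33502908460, nat_lit 35924225970, nat_lit 40735614920, nat_lit 41977638020], nat_lit 1271250, nat_lit 1271250, nat_lit 631250, nat_lit 3031250, nat_lit 0, nat_lit 0, [nat_lit 490000, nat_lit 1100000, nat_lit 1442500], [nat_lit 6, nat_lit 40, nat_lit 80, nat_lit 80, nat_lit 3, nat_lit 317, nat_lit 100, nat_lit 12]⟩, ⟨p022_k9, nat_lit 0, nat_lit 0, nat_lit 219, nat_lit 0, nat_lit 0, [nat_lit 3282000000, nat_lit 6250000000, nat_lit 9842000000], [], [nat_lit 32066473900, nat_lit 34934390800, nat_lit 42634284720, nat_lit 43941367840], nat_lit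 0, nat_lit 0, nat_lit 0, nat_lit 0, nat_lit 0, nat_lit 0, [], [nat_lit 8, nat_lit 40, nat_lit 80, nat_lit 80, nat_lit 1, nat_lit 317, nat_lit 100, nat_lit 9]⟩,
 zbF0, [⟨nat_lit 0, nat_lit 80, nat_lit 60, nat_lit 100, nat_lit 381016031⟩]⟩
noncomputable def p022_l153 : Lf2 := ⟨nat_lit 0, nat_lit 10, [nat_lit 0, nat_lit 5, nat_lit 5, nat_lit 20], false, nat_lit 0, nat_lit 0, nat_lit 0, nat_lit 0, ⟨nat_lit 679, nat_lit 321, nat_lit 0, nat_lit 7, nat_lit 276, nat_lit 0, nat_lit 0, nat_lit 0, nat_lit 0, nat_lit 0, nat_lit 0, nat_lit 0, nat_lit 0, nat_lit 0, nat_lit 0, nat_lit 5000000, false, false⟩,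
 nat_lit 7444, nat_lit 0, nat_lit 0, nat_lit 0, nat_lit 5583, nat_lit 4737, nat_lit 0, nat_lit 0, nat_lit 0, nat_lit 576, nat_lit 0, nat_lit 0, nat_lit 0, nat_lit 0, nat_lit 0, nat_lit 80250, nat_lit 0, nat_lit 0, [(nat_lit 18, [(nat_lit 0, nat_lit 321)]), (nat_lit 21, [(nat_lit 0, nat_lit 321)])],
 ⟨p022_k8, nat_lit 0, nat_lit 0, nat_lit 284, nat_lit 0, nat_lit 331685, [nat_lit 1879974401, nat_lit 3879080000, nat_lit 5066152000], [], [nat_lit 29545578719, nat_lit 32234145801, nat_lit 38105505604, nat_lit 39508392236], nat_lit 1271250, nat_lit 1271250, nat_lit 631250, nat_lit 3031250, nat_lit 0, nat_lit 0, [nat_lit 490000, nat_lit 1100000, nat_lit 1442500], [nat_lit 6, nat_lit 40, nat_lit 80, nat_lit 80, nat_lit 3, nat_lit 317, nat_lit 100, nat_lit 12]⟩, ⟨p022_k9, nat_lit 0, nat_lit 0, nat_lit 427, nat_lit 0, nat_lit 407186, [nat_lit 2228478000, nat_lit 4243750000, nat_lit 6682718000],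 [], [nat_lit 20944667695, nat_lit 21994663316, nat_lit 29491098108, nat_lit 27697967284], nat_lit 1271250, nat_lit 1271250, nat_lit 631250, nat_lit 3031250, nat_lit 0, nat_lit 0, [nat_lit 780000, nat_lit 1435000, nat_lit 1271250], [nat_lit 8, nat_lit 40, nat_lit 80, nat_lit 80, nat_lit 1, nat_lit 317, nat_lit 100, nat_lit 9]⟩,
 ⟨nat_lit 3162, nat_lit 4473, ⟨.ofNat (nat_lit 415764), .ofNat (nat_lit 926092), .ofNat (nat_lit 458716), .ofNat (nat_lit 969090), .ofNat (nat_lit 435680), .ofNat (nat_lit 893321), .ofNat (nat_lit 479808), .ofNat (nat_lit 937496)⟩, ⟨.ofNat (nat_lit 0), .ofNat (nat_lit 0), .ofNat (nat_lit 0), .ofNat (nat_lit 0), .ofNat (nat_lit 0), .ofNat (nat_lit 0), .ofNat (nat_lit 0), .ofNat (nat_lit 0)⟩⟩, [⟨nat_lit 0, nat_lit 80, nat_lit 60, nat_lit 100, nat_lit 99361955⟩]⟩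
noncomputable def p022_l154 : Lf2 := ⟨nat_lit 0, nat_lit 10, [nat_lit 0, nat_lit 5, nat_lit 5, nat_lit 20], false, nat_lit 0, nat_lit 0, nat_lit 0, nat_lit 0, ⟨nat_lit 1000, nat_lit 0, nat_lit 0, nat_lit 0, nat_lit 0, nat_lit 0, nat_lit 0, nat_lit 0, nat_lit 0, nat_lit 0, nat_lit 0, nat_lit 0, nat_lit 0, nat_lit 0, nat_lit 0, nat_lit 0, false, false⟩,
 nat_lit 0, nat_lit 8059, nat_lit 8569, nat_lit 0, nat_lit 6044, nat_lit 5452, nat_lit 0, nat_lit 0, nat_lit 0, nat_lit 0, nat_lit 0, nat_lit 0, nat_lit 0, nat_lit 0, nat_lit 0, nat_lit 0, nat_lit 0, nat_lit 0, [],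
 ⟨p022_k25, nat_lit 0, nat_lit 0, nat_lit 214, nat_lit 0, nat_lit 97433, [nat_lit 2032000001, nat_lit 6250000000], [], [nat_lit 27868957048, nat_lit 31482640296, nat_lit 39106795216, nat_lit 40907882224], nat_lit 1271250, nat_lit 1271250, nat_lit 631250, nat_lit 3031250, nat_lit 0, nat_lit 0, [nat_lit 490000, nat_lit 1427500], [nat_lit 69, nat_lit 40, nat_lit 80, nat_lit 80, nat_lit 64, nat_lit 317, nat_lit 100, nat_lit 12]⟩, ⟨p022_k48, nat_lit 0, nat_lit 0, nat_lit 287, nat_lit 0, nat_lit 129826, [nat_lit 3282000000, nat_lit 9842000000], [], [nat_lit 40141576392, nat_lit 42076715196, nat_lit 53519650208, nat_lit 48990611536], nat_lit 1271250, nat_lit 1271250, nat_lit 631250, nat_lit 3031250, nat_lit 0, nat_lit 0, [nat_lit 780000, nat_lit 2090000], [nat_lit 82, nat_lit 40, nat_lit 80, nat_lit 80, nat_lit 63, nat_lit 317, nat_lit 100, nat_lit 9]⟩,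
 zbF0, [⟨nat_lit 0, nat_lit 80, nat_lit 60, nat_lit 100, nat_lit 282089380⟩]⟩
noncomputable def b_N_800_700_0_41 : St := ⟨false, nat_lit 2, nat_lit 2, nat_lit 0, nat_lit 40, nat_lit 320, nat_lit 360, nat_lit 280, nat_lit 320, nat_lit 100, nat_lit 400, nat_lit 0, nat_lit 0, nat_lit 0, nat_lit 0, nat_lit 0, nat_lit 0, nat_lit 120, nat_lit 168, nat_lit 0, nat_lit 0, nat_lit 0, nat_lit 0⟩
theorem d_N_800_700_0_41 (h : EB TB.env) : Dead b_N_800_700_0_41 := chkB_sound0 h (T :=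
(.spl (nat_lit 6) (nat_lit 160)
(.st (nat_lit 0)
(.gv
(.st (nat_lit 1)
(.leaf p022_l144)
(.spl (nat_lit 2) (nat_lit 240)
(.spl (nat_lit 0) (nat_lit 340)
(.leaf p022_l145)
(.trZ (nat_lit 0) (nat_lit 99) (nat_lit 77) (nat_lit 100) (nat_lit 124) (.leaf p022_l146)))
(.leaf p022_l147)))
(.leaf p022_l148))
(.gv
(.st (nat_lit 1)
(.leaf p022_l149)
(.spl (nat_lit 0) (nat_lit 340)
(.leaf p022_l150)
(.trZ (nat_lit 0) (nat_lit 99) (nat_lit 77) (nat_lit 100) (nat_lit 124) (.leaf p022_l151))))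
(.st (nat_lit 1)
(.leaf p022_l152)
(.leaf p022_l153))))
(.leaf p022_l154))) (by decide +kernel)
noncomputable def p022_l155 : Lf2 := ⟨nat_lit 0, nat_lit 10, [nat_lit 0, nat_lit 5, nat_lit 5, nat_lit 20], false, nat_lit 0, nat_lit 0, nat_lit 0, nat_lit 0, ⟨nat_lit 788, nat_lit 212, nat_lit 0, nat_lit 8, nat_lit 302, nat_lit 0, nat_lit 0, nat_lit 0, nat_lit 0, nat_lit 0, nat_lit 0, nat_lit 0, nat_lit 42697457, nat_lit 24302543, nat_lit 0, nat_lit 3274847, true, false⟩,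
 nat_lit 0, nat_lit 0, nat_lit 0, nat_lit 0, nat_lit 0, nat_lit 0, nat_lit 0, nat_lit 0, nat_lit 0, nat_lit 0, nat_lit 0, nat_lit 0, nat_lit 0, nat_lit 0, nat_lit 0, nat_lit 84800, nat_lit 0, nat_lit 0, [(nat_lit 18, [(nat_lit 1, nat_lit 212)]), (nat_lit 21, [(nat_lit 1, nat_lit 212)])],
 ⟨p022_k25, nat_lit 0, nat_lit 0, nat_lit 187, nat_lit 0, nat_lit 0, [nat_lit 1928374401, nat_lit 5340689600], [], [nat_lit 35056655601, nat_lit 36347539601, nat_lit 41802857601, nat_lit 42812949601], nat_lit 0, nat_lit 0, nat_lit 0, nat_lit 0, nat_lit 0, nat_lit 0, [], [nat_lit 69, nat_lit 40, nat_lit 80, nat_lit 80, nat_lit 64, nat_lit 317, nat_lit 100, nat_lit 12]⟩, ⟨p022_k25, nat_lit 0, nat_lit 0, nat_lit 180, nat_lit 0, nat_lit 0, [nat_lit 1601216000, nat_lit 4925000000], [], [nat_lit 29139374776, nat_lit 29647983072, nat_lit 34455381952, nat_lit 34853358200], nat_lit 0, nat_lit 0, nat_lit 0, nat_lit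 0, nat_lit 0, nat_lit 0, [], [nat_lit 69, nat_lit 40, nat_lit 80, nat_lit 80, nat_lit 64, nat_lit 317, nat_lit 100, nat_lit 12]⟩,
 ⟨nat_lit 3162, nat_lit 4473, ⟨.ofNat (nat_lit 526772), .ofNat (nat_lit 969090), .ofNat (nat_lit 548248), .ofNat (nat_lit 990589), .ofNat (nat_lit 540839), .ofNat (nat_lit 937496), .ofNat (nat_lit 562904), .ofNat (nat_lit 959584)⟩, ⟨.ofNat (nat_lit 0), .ofNat (nat_lit 0), .ofNat (nat_lit 0), .ofNat (nat_lit 0), .ofNat (nat_lit 0), .ofNat (nat_lit 0), .ofNat (nat_lit 0), .ofNat (nat_lit 0)⟩⟩, [⟨nat_lit 0, nat_lit 72, nat_lit 61, nat_lit 100, nat_lit 328102324⟩]⟩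
noncomputable def p022_l156 : Lf2 := ⟨nat_lit 0, nat_lit 10, [nat_lit 0, nat_lit 5, nat_lit 5, nat_lit 20], true, nat_lit 0, nat_lit 0, nat_lit 0, nat_lit 0, ⟨nat_lit 0, nat_lit 1000, nat_lit 0, nat_lit 8, nat_lit 250, nat_lit 0, nat_lit 0, nat_lit 0, nat_lit 0, nat_lit 0, nat_lit 0, nat_lit 0, nat_lit 48163763, nat_lit 18836237, nat_lit 0, nat_lit 2970123, false, false⟩,
 nat_lit 0, nat_lit 0, nat_lit 0, nat_lit 0, nat_lit 3166, nat_lit 0, nat_lit 0, nat_lit 0, nat_lit 0, nat_lit 0, nat_lit 0, nat_lit 0, nat_lit 0, nat_lit 1327526188198, nat_lit 0, nat_lit 400000, nat_lit 0, nat_lit 0, [(nat_lit 18, [(nat_lit 1, nat_lit 1000)]), (nat_lit 21, [(nat_lit 1, nat_lit 1000)])],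
 ⟨p022_k37, nat_lit 0, nat_lit 0, nat_lit 134, nat_lit 0, nat_lit 0, [nat_lit 1356000000, nat_lit 1749066667, nat_lit 2015733333], [], [nat_lit 19384658971, nat_lit 22389754195, nat_lit 22275551669, nat_lit 24840943941], nat_lit 0, nat_lit 0, nat_lit 0, nat_lit 0, nat_lit 0, nat_lit 0, [], [nat_lit 85, nat_lit 40, nat_lit 80, nat_lit 80, nat_lit 16, nat_lit 272, nat_lit 60, nat_lit 10]⟩, C1.Rw.none,
 ⟨nat_lit 3162, nat_lit 4473, ⟨.ofNat (nat_lit 526772), .ofNat (nat_lit 696911), .ofNat (nat_lit 548248), .ofNat (nat_lit 718387), .ofNat (nat_lit 540839), .ofNat (nat_lit 693416), .ofNat (nat_lit 562904), .ofNat (nat_lit 715481)⟩, ⟨.ofNat (nat_lit 0), .ofNat (nat_lit 0), .ofNat (nat_lit 0), .ofNat (nat_lit 0), .ofNat (nat_lit 0), .ofNat (nat_lit 0), .ofNat (nat_lit 0), .ofNat (nat_lit 0)⟩⟩, []⟩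
noncomputable def p022_l157 : Lf2 := ⟨nat_lit 0, nat_lit 10, [nat_lit 0, nat_lit 5, nat_lit 5, nat_lit 20], true, nat_lit 0, nat_lit 0, nat_lit 0, nat_lit 0, ⟨nat_lit 0, nat_lit 1000, nat_lit 0, nat_lit 8, nat_lit 308, nat_lit 0, nat_lit 0, nat_lit 0, nat_lit 0, nat_lit 0, nat_lit 0, nat_lit 0, nat_lit 42037585, nat_lit 24962415, nat_lit 0, nat_lit 3301554, true, false⟩,
 nat_lit 0, nat_lit 0, nat_lit 0, nat_lit 0, nat_lit 3397, nat_lit 0, nat_lit 0, nat_lit 0, nat_lit 0, nat_lit 0, nat_lit 0, nat_lit 0, nat_lit 0, nat_lit 1015335865357, nat_lit 0, nat_lit 400000, nat_lit 0, nat_lit 0, [(nat_lit 18, [(nat_lit 1, nat_lit 1000)]), (nat_lit 21, [(nat_lit 1, nat_lit 1000)])],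
 ⟨p022_k37, nat_lit 0, nat_lit 0, nat_lit 147, nat_lit 0, nat_lit 0, [nat_lit 1356000000, nat_lit 1749066667, nat_lit 2015733333], [], [nat_lit 22894416504, nat_lit 25154636932, nat_lit 26222734424, nat_lit 28342239293], nat_lit 0, nat_lit 0, nat_lit 0, nat_lit 0, nat_lit 0, nat_lit 0, [], [nat_lit 85, nat_lit 40, nat_lit 80, nat_lit 80, nat_lit 16, nat_lit 203, nat_lit 0, nat_lit 7]⟩, C1.Rw.none,
 ⟨nat_lit 3162, nat_lit 4473, ⟨.ofNat (nat_lit 696911), .ofNat (nat_lit 833022), .ofNat (nat_lit 718387), .ofNat (nat_lit 854498), .ofNat (nat_lit 693416), .ofNat (nat_lit 815478), .ofNat (nat_lit 715481), .ofNat (nat_lit 837542)⟩, ⟨.ofNat (nat_lit 0), .ofNat (nat_lit 0), .ofNat (nat_lit 0), .ofNat (nat_lit 0), .ofNat (nat_lit 0), .ofNat (nat_lit 0), .ofNat (nat_lit 0), .ofNat (nat_lit 0)⟩⟩, []⟩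
noncomputable def p022_l158 : Lf2 := ⟨nat_lit 0, nat_lit 10, [nat_lit 0, nat_lit 5, nat_lit 5, nat_lit 20], true, nat_lit 0, nat_lit 0, nat_lit 0, nat_lit 0, ⟨nat_lit 0, nat_lit 1000, nat_lit 0, nat_lit 8, nat_lit 345, nat_lit 0, nat_lit 0, nat_lit 0, nat_lit 0, nat_lit 0, nat_lit 0, nat_lit 0, nat_lit 38439923, nat_lit 28560077, nat_lit 0, nat_lit 3411175, true, true⟩,
 nat_lit 0, nat_lit 0, nat_lit 0, nat_lit 0, nat_lit 3297, nat_lit 0, nat_lit 0, nat_lit 0, nat_lit 0, nat_lit 0, nat_lit 0, nat_lit 0, nat_lit 0, nat_lit 1011486866472, nat_lit 0, nat_lit 377200, nat_lit 0, nat_lit 0, [(nat_lit 18, [(nat_lit 0, nat_lit 152), (nat_lit 1, nat_lit 848)]), (nat_lit 21, [(nat_lit 0, nat_lit 152), (nat_lit 1, nat_lit 848)])],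
 ⟨p022_k37, nat_lit 0, nat_lit 0, nat_lit 159, nat_lit 0, nat_lit 0, [nat_lit 1386764800, nat_lit 1752897067, nat_lit 2098725333], [], [nat_lit 26463442424, nat_lit 28350317836, nat_lit 28410857968, nat_lit 30372620365], nat_lit 0, nat_lit 0, nat_lit 0, nat_lit 0, nat_lit 0, nat_lit 0, [], [nat_lit 85, nat_lit 40, nat_lit 80, nat_lit 80, nat_lit 16, nat_lit 203, nat_lit 0, nat_lit 6]⟩, C1.Rw.none,
 ⟨nat_lit 3162, nat_lit 4473, ⟨.ofNat (nat_lit 833022), .ofNat (nat_lit 901071), .ofNat (nat_lit 843760), .ofNat (nat_lit 911816), .ofNat (nat_lit 815478), .ofNat (nat_lit 876502), .ofNat (nat_lit 826511), .ofNat (nat_lit 887541)⟩, ⟨.ofNat (nat_lit 0), .ofNat (nat_lit 0), .ofNat (nat_lit 0), .ofNat (nat_lit 0), .ofNat (nat_lit 0), .ofNat (nat_lit 0), .ofNat (nat_lit 0), .ofNat (nat_lit 0)⟩⟩, []⟩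
noncomputable def p022_l159 : Lf2 := ⟨nat_lit 0, nat_lit 10, [nat_lit 0, nat_lit 5, nat_lit 5, nat_lit 20], false, nat_lit 0, nat_lit 0, nat_lit 0, nat_lit 0, ⟨nat_lit 553, nat_lit 447, nat_lit 0, nat_lit 8, nat_lit 348, nat_lit 0, nat_lit 0, nat_lit 0, nat_lit 0, nat_lit 0, nat_lit 0, nat_lit 0, nat_lit 38123032, nat_lit 28876968, nat_lit 0, nat_lit 3417972, true, true⟩,
 nat_lit 0, nat_lit 0, nat_lit 3925, nat_lit 0, nat_lit 3856, nat_lit 3059, nat_lit 195, nat_lit 0, nat_lit 0, nat_lit 712, nat_lit 0, nat_lit 0, nat_lit 0, nat_lit 0, nat_lit 0, nat_lit 447000, nat_lit 0, nat_lit 0, [(nat_lit 18, [(nat_lit 2, nat_lit 447)]), (nat_lit 21, [(nat_lit 2, nat_lit 447)])],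
 ⟨p022_k22, nat_lit 0, nat_lit 0, nat_lit 168, nat_lit 0, nat_lit 0, [nat_lit 1884430400, nat_lit 3059728001, nat_lit 3258139600], [], [nat_lit 28400101180, nat_lit 29830210012, nat_lit 30329180204, nat_lit 31642399432], nat_lit 0, nat_lit 0, nat_lit 0, nat_lit 0, nat_lit 0, nat_lit 0, [], [nat_lit 6, nat_lit 40, nat_lit 80, nat_lit 80, nat_lit 3, nat_lit 203, nat_lit 0, nat_lit 6]⟩, ⟨p022_k22, nat_lit 0, nat_lit 0, nat_lit 952, nat_lit 0, nat_lit 2054458, [nat_lit 1123696000, nat_lit 2592464000, nat_lit 3456250000], [], [nat_lit 18674987623, nat_lit 18777261438, nat_lit 19100612540, nat_lit 19193578773], nat_lit 1271250, nat_lit 1271250, nat_lit 1271250, nat_lit 1271250, nat_lit 0, nat_lit 0, [nat_lit 490000, nat_lit 1100000, nat_lit 1442500], [nat_lit 6, nat_lit 40, nat_lit 80, nat_lit 80, nat_lit 3, nat_lit 326, nat_lit 0, nat_lit 11]⟩,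
 ⟨nat_lit 3162, nat_lit 4184, ⟨.ofNat (nat_lit 839399), .ofNat (nat_lit 905711), .ofNat (nat_lit 850204), .ofNat (nat_lit 916516), .ofNat (nat_lit 826666), .ofNat (nat_lit 887675), .ofNat (nat_lit 837715), .ofNat (nat_lit 898724)⟩, ⟨.ofNat (nat_lit 0), .ofNat (nat_lit 0), .ofNat (nat_lit 0), .ofNat (nat_lit 0), .ofNat (nat_lit 0), .ofNat (nat_lit 0), .ofNat (nat_lit 0), .ofNat (nat_lit 0)⟩⟩, []⟩
noncomputable def p022_l160 : Lf2 := ⟨nat_lit 0, nat_lit 5, [nat_lit 4, nat_lit 5, nat_lit 5, nat_lit 20], true, nat_lit 0, nat_lit 0, nat_lit 0, nat_lit 0, ⟨nat_lit 0, nat_lit 1000, nat_lit 0, nat_lit 9, nat_lit 371, nat_lit 0, nat_lit 0, nat_lit 0, nat_lit 0, nat_lit 0, nat_lit 0, nat_lit 0, nat_lit 36052937, nat_lit 30947063, nat_lit 0, nat_lit 3451202, true, true⟩,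
 nat_lit 0, nat_lit 0, nat_lit 0, nat_lit 0, nat_lit 2925, nat_lit 0, nat_lit 0, nat_lit 0, nat_lit 0, nat_lit 0, nat_lit 0, nat_lit 0, nat_lit 0, nat_lit 251646003008, nat_lit 0, nat_lit 620200, nat_lit 0, nat_lit 0, [(nat_lit 18, [(nat_lit 1, nat_lit 633), (nat_lit 2, nat_lit 367)]), (nat_lit 21, [(nat_lit 1, nat_lit 633), (nat_lit 2, nat_lit 367)])],
 ⟨p022_k16, nat_lit 0, nat_lit 0, nat_lit 180, nat_lit 0, nat_lit 0, [nat_lit 1509603467, nat_lit 1628537334, nat_lit 1078532000], [], [nat_lit 28145166801, nat_lit 29715769151, nat_lit 29918523135, nat_lit 31444845335], nat_lit 0, nat_lit 0, nat_lit 0, nat_lit 0, nat_lit 0, nat_lit 0, [], [nat_lit 6, nat_lit 40, nat_lit 80, nat_lit 80, nat_lit 3, nat_lit 203, nat_lit 0, nat_lit 6]⟩, C1.Rw.none,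
 ⟨nat_lit 3162, nat_lit 4473, ⟨.ofNat (nat_lit 901071), .ofNat (nat_lit 969090), .ofNat (nat_lit 911816), .ofNat (nat_lit 979840), .ofNat (nat_lit 876502), .ofNat (nat_lit 937496), .ofNat (nat_lit 887541), .ofNat (nat_lit 948541)⟩, ⟨.ofNat (nat_lit 0), .ofNat (nat_lit 0), .ofNat (nat_lit 0), .ofNat (nat_lit 0), .ofNat (nat_lit 0), .ofNat (nat_lit 0), .ofNat (nat_lit 0), .ofNat (nat_lit 0)⟩⟩, []⟩
noncomputable def p022_l161 : Lf2 := ⟨nat_lit 0, nat_lit 10, [nat_lit 0, nat_lit 5, nat_lit 5, nat_lit 20], false, nat_lit 0, nat_lit 0, nat_lit 0, nat_lit 0, ⟨nat_lit 346, nat_lit 654, nat_lit 0, nat_lit 9, nat_lit 374, nat_lit 0, nat_lit 0, nat_lit 0, nat_lit 0, nat_lit 0, nat_lit 0, nat_lit 0, nat_lit 35769261, nat_lit 31230739, nat_lit 0, nat_lit 3454255, true, true⟩,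
 nat_lit 0, nat_lit 0, nat_lit 3006, nat_lit 0, nat_lit 3484, nat_lit 2254, nat_lit 0, nat_lit 0, nat_lit 0, nat_lit 122, nat_lit 0, nat_lit 0, nat_lit 0, nat_lit 0, nat_lit 0, nat_lit 654000, nat_lit 0, nat_lit 0, [(nat_lit 18, [(nat_lit 2, nat_lit 654)])],
 ⟨p022_k8, nat_lit 0, nat_lit 0, nat_lit 174, nat_lit 0, nat_lit 0, [nat_lit 1816092801, nat_lit 2305696001, nat_lit 1872647200], [], [nat_lit 29288710962, nat_lit 29704607844, nat_lit 31182632882, nat_lit 31556434930], nat_lit 0, nat_lit 0, nat_lit 0, nat_lit 0, nat_lit 0, nat_lit 0, [], [nat_lit 6, nat_lit 40, nat_lit 80, nat_lit 80, nat_lit 3, nat_lit 203, nat_lit 0, nat_lit 6]⟩, ⟨p022_k8, nat_lit 0, nat_lit 0, nat_lit 699, nat_lit 0, nat_lit 1456100, [nat_lit 703072000, nat_lit 1622048000, nat_lit 2162500000], [], [nat_lit 13485778264, nat_lit 13516932288, nat_lit 13793510920, nat_lit 13823043807], nat_lit 1271250, nat_lit 1271250,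 nat_lit 1271250, nat_lit 1271250, nat_lit 0, nat_lit 0, [nat_lit 490000, nat_lit 1100000, nat_lit 1442500], [nat_lit 6, nat_lit 40, nat_lit 80, nat_lit 80, nat_lit 3, nat_lit 266, nat_lit 0, nat_lit 9]⟩,
 ⟨nat_lit 4183, nat_lit 4473, ⟨.ofNat (nat_lit 901291), .ofNat (nat_lit 969270), .ofNat (nat_lit 906682), .ofNat (nat_lit 974661), .ofNat (nat_lit 895002), .ofNat (nat_lit 961259), .ofNat (nat_lit 900418), .ofNat (nat_lit 966674)⟩, ⟨.ofNat (nat_lit 0), .ofNat (nat_lit 0), .ofNat (nat_lit 0), .ofNat (nat_lit 0), .ofNat (nat_lit 0), .ofNat (nat_lit 0), .ofNat (nat_lit 0), .ofNat (nat_lit 0)⟩⟩, [⟨nat_lit 13, nat_lit 99, nat_lit 2, nat_lit 100, nat_lit 95033258⟩]⟩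
noncomputable def p022_l162 : Lf2 := ⟨nat_lit 0, nat_lit 10, [nat_lit 0, nat_lit 5, nat_lit 5, nat_lit 20], false, nat_lit 0, nat_lit 0, nat_lit 0, nat_lit 0, ⟨nat_lit 302, nat_lit 698, nat_lit 0, nat_lit 9, nat_lit 372, nat_lit 0, nat_lit 0, nat_lit 0, nat_lit 0, nat_lit 0, nat_lit 0, nat_lit 0, nat_lit 35959445, nat_lit 31040555, nat_lit 0, nat_lit 3452248, true, true⟩,
 nat_lit 0, nat_lit 0, nat_lit 2631, nat_lit 0, nat_lit 3463, nat_lit 1972, nat_lit 210, nat_lit 0, nat_lit 0, nat_lit 107, nat_lit 0, nat_lit 0, nat_lit 0, nat_lit 0, nat_lit 0, nat_lit 355400, nat_lit 0, nat_lit 0, [(nat_lit 18, [(nat_lit 1, nat_lit 571), (nat_lit 2, nat_lit 127)])],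
 ⟨p022_k22, nat_lit 0, nat_lit 0, nat_lit 175, nat_lit 0, nat_lit 0, [nat_lit 1628135201, nat_lit 2671500000, nat_lit 2950830400], [], [nat_lit 29716371158, nat_lit 29923882951, nat_lit 31563837247, nat_lit 31754983091], nat_lit 0, nat_lit 0, nat_lit 0, nat_lit 0, nat_lit 0, nat_lit 0, [], [nat_lit 6, nat_lit 40, nat_lit 80, nat_lit 80, nat_lit 3, nat_lit 203, nat_lit 0, nat_lit 6]⟩, ⟨p022_k8, nat_lit 0, nat_lit 0, nat_lit 717, nat_lit 0, nat_lit 1503486, [nat_lit 613664000, nat_lit 1415776000, nat_lit 1887500000], [], [nat_lit 11738470740, nat_lit 11765664074, nat_lit 12009767600, nat_lit 12049056165], nat_lit 1271250, nat_lit 1271250, nat_lit 1271250, nat_lit 1271250, nat_lit 0, nat_lit 0, [nat_lit 490000, nat_lit 1100000, nat_lit 1442500], [nat_lit 6, nat_lit 40, nat_lit 80, nat_lit 80, nat_lit 3, nat_lit 270, nat_lit 0, nat_lit 9]⟩,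
 ⟨nat_lit 4031, nat_lit 4184, ⟨.ofNat (nat_lit 895018), .ofNat (nat_lit 961274), .ofNat (nat_lit 900434), .ofNat (nat_lit 966690), .ofNat (nat_lit 891917), .ofNat (nat_lit 957308), .ofNat (nat_lit 897348), .ofNat (nat_lit 962739)⟩, ⟨.ofNat (nat_lit 0), .ofNat (nat_lit 0), .ofNat (nat_lit 0), .ofNat (nat_lit 0), .ofNat (nat_lit 0), .ofNat (nat_lit 0), .ofNat (nat_lit 0), .ofNat (nat_lit 0)⟩⟩, [⟨nat_lit 13, nat_lit 95, nat_lit 8, nat_lit 100, nat_lit 110042482⟩]⟩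
noncomputable def p022_l163 : Lf2 := ⟨nat_lit 0, nat_lit 10, [nat_lit 0, nat_lit 5, nat_lit 5, nat_lit 20], false, nat_lit 0, nat_lit 0, nat_lit 0, nat_lit 0, ⟨nat_lit 284, nat_lit 716, nat_lit 0, nat_lit 9, nat_lit 370, nat_lit 0, nat_lit 0, nat_lit 0, nat_lit 0, nat_lit 0, nat_lit 0, nat_lit 0, nat_lit 36085655, nat_lit 30914345, nat_lit 0, nat_lit 3450827, true, true⟩,
 nat_lit 0, nat_lit 0, nat_lit 2470, nat_lit 0, nat_lit 3357, nat_lit 1852, nat_lit 352, nat_lit 0, nat_lit 0, nat_lit 101, nat_lit 0, nat_lit 0, nat_lit 0, nat_lit 0, nat_lit 0, nat_lit 179000, nat_lit 0, nat_lit 0, [(nat_lit 18, [(nat_lit 0, nat_lit 716)])],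
 ⟨p022_k49, nat_lit 0, nat_lit 0, nat_lit 176, nat_lit 0, nat_lit 0, [nat_lit 1674572801, nat_lit 2883680000, nat_lit 3609392000], [], [nat_lit 29724932167, nat_lit 29930239928, nat_lit 31529891497, nat_lit 31714705149], nat_lit 0, nat_lit 0, nat_lit 0, nat_lit 0, nat_lit 0, nat_lit 0, [], [nat_lit 6, nat_lit 40, nat_lit 80, nat_lit 80, nat_lit 3, nat_lit 203, nat_lit 0, nat_lit 6]⟩, ⟨p022_k8, nat_lit 0, nat_lit 0, nat_lit 736, nat_lit 0, nat_lit 1552207, [nat_lit 577088000, nat_lit 1331392000, nat_lit 1775000000], [], [nat_lit 11050812864, nat_lit 11076384822, nat_lit 11307109520, nat_lit 11332860150], nat_lit 1271250, nat_lit 1271250, nat_lit 1271250, nat_lit 1271250, nat_lit 0, nat_lit 0, [nat_lit 490000, nat_lit 1100000, nat_lit 1442500], [nat_lit 6, nat_lit 40, nat_lit 80, nat_lit 80, nat_lit 3, nat_lit 275, nat_lit 0, nat_lit 9]⟩,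
 ⟨nat_lit 3872, nat_lit 4032, ⟨.ofNat (nat_lit 891917), .ofNat (nat_lit 957308), .ofNat (nat_lit 897348), .ofNat (nat_lit 962740), .ofNat (nat_lit 888841), .ofNat (nat_lit 953364), .ofNat (nat_lit 894289), .ofNat (nat_lit 958812)⟩, ⟨.ofNat (nat_lit 0), .ofNat (nat_lit 0), .ofNat (nat_lit 0), .ofNat (nat_lit 0), .ofNat (nat_lit 0), .ofNat (nat_lit 0), .ofNat (nat_lit 0), .ofNat (nat_lit 0)⟩⟩, [⟨nat_lit 13, nat_lit 92, nat_lit 12, nat_lit 100, nat_lit 116964275⟩]⟩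
noncomputable def p022_l164 : Lf2 := ⟨nat_lit 0, nat_lit 10, [nat_lit 0, nat_lit 5, nat_lit 5, nat_lit 20], false, nat_lit 0, nat_lit 0, nat_lit 0, nat_lit 0, ⟨nat_lit 1000, nat_lit 0, nat_lit 0, nat_lit 0, nat_lit 0, nat_lit 0, nat_lit 0, nat_lit 0, nat_lit 0, nat_lit 0, nat_lit 0, nat_lit 0, nat_lit 0, nat_lit 0, nat_lit 0, nat_lit 0, false, false⟩,
 nat_lit 0, nat_lit 0, nat_lit 7269, nat_lit 0, nat_lit 4816, nat_lit 5558, nat_lit 492, nat_lit 0, nat_lit 0, nat_lit 1572, nat_lit 0, nat_lit 0, nat_lit 0, nat_lit 0, nat_lit 0, nat_lit 0, nat_lit 0, nat_lit 0, [],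
 ⟨p022_k10, nat_lit 0, nat_lit 0, nat_lit 176, nat_lit 0, nat_lit 0, [nat_lit 2032000001, nat_lit 4688000000, nat_lit 6250000000], [], [nat_lit 33028221830, nat_lit 33773679848, nat_lit 35307628760, nat_lit 35965387856], nat_lit 0, nat_lit 0, nat_lit 0, nat_lit 0, nat_lit 0, nat_lit 0, [], [nat_lit 6, nat_lit 40, nat_lit 80, nat_lit 80, nat_lit 3, nat_lit 203, nat_lit 0, nat_lit 6]⟩, ⟨p022_k10, nat_lit 0, nat_lit 0, nat_lit 732, nat_lit 0, nat_lit 1543955, [nat_lit 2032000000, nat_lit 4688000000, nat_lit 6250000000], [], [nat_lit 36469415264, nat_lit 36569016488, nat_lit 37395107799, nat_lit 37484197542], nat_lit 1271250, nat_lit 1271250, nat_lit 1271250, nat_lit 1271250, nat_lit 0, nat_lit 0, [nat_lit 490000, nat_lit 1100000, nat_lit 1442500], [nat_lit 6, nat_lit 40, nat_lit 80, nat_lit 80, nat_lit 3, nat_lit 275, nat_lit 0, nat_lit 9]⟩,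
 zbF0, [⟨nat_lit 13, nat_lit 91, nat_lit 13, nat_lit 100, nat_lit 8098571⟩]⟩
noncomputable def p022_l165 : Lf2 := ⟨nat_lit 0, nat_lit 10, [nat_lit 0, nat_lit 5, nat_lit 5, nat_lit 20], true, nat_lit 0, nat_lit 0, nat_lit 0, nat_lit 0, ⟨nat_lit 0, nat_lit 1000, nat_lit 0, nat_lit 9, nat_lit 368, nat_lit 0, nat_lit 0, nat_lit 0, nat_lit 0, nat_lit 0, nat_lit 0, nat_lit 0, nat_lit 36300635, nat_lit 30699365, nat_lit 0, nat_lit 3448242, true, true⟩,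
 nat_lit 0, nat_lit 0, nat_lit 0, nat_lit 0, nat_lit 2727, nat_lit 0, nat_lit 111, nat_lit 0, nat_lit 0, nat_lit 0, nat_lit 0, nat_lit 0, nat_lit 0, nat_lit 0, nat_lit 0, nat_lit 400000, nat_lit 0, nat_lit 0, [(nat_lit 21, [(nat_lit 1, nat_lit 1000)])],
 ⟨p022_k23, nat_lit 0, nat_lit 0, nat_lit 180, nat_lit 0, nat_lit 0, [nat_lit 1355200000, nat_lit 1492800001, nat_lit 1492000000], [], [nat_lit 28351770198, nat_lit 29120603515, nat_lit 30012498164, nat_lit 30842454284], nat_lit 0, nat_lit 0, nat_lit 0, nat_lit 0, nat_lit 0, nat_lit 0, [], [nat_lit 6, nat_lit 40, nat_lit 80, nat_lit 80, nat_lit 3, nat_lit 203, nat_lit 0, nat_lit 6]⟩, C1.Rw.none,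
 ⟨nat_lit 3162, nat_lit 3873, ⟨.ofNat (nat_lit 888802), .ofNat (nat_lit 953347), .ofNat (nat_lit 899684), .ofNat (nat_lit 964233), .ofNat (nat_lit 876699), .ofNat (nat_lit 937676), .ofNat (nat_lit 887762), .ofNat (nat_lit 948743)⟩, ⟨.ofNat (nat_lit 0), .ofNat (nat_lit 0), .ofNat (nat_lit 0), .ofNat (nat_lit 0), .ofNat (nat_lit 0), .ofNat (nat_lit 0), .ofNat (nat_lit 0), .ofNat (nat_lit 0)⟩⟩, [⟨nat_lit 13, nat_lit 94, nat_lit 9, nat_lit 100, nat_lit 166179842⟩]⟩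
noncomputable def p022_l166 : Lf2 := ⟨nat_lit 0, nat_lit 10, [nat_lit 0, nat_lit 5, nat_lit 5, nat_lit 20], false, nat_lit 0, nat_lit 0, nat_lit 0, nat_lit 0, ⟨nat_lit 704, nat_lit 296, nat_lit 0, nat_lit 9, nat_lit 374, nat_lit 0, nat_lit 0, nat_lit 0, nat_lit 0, nat_lit 0, nat_lit 0, nat_lit 0, nat_lit 35784436, nat_lit 31215564, nat_lit 0, nat_lit 3454100, true, true⟩,
 nat_lit 0, nat_lit 0, nat_lit 4737, nat_lit 0, nat_lit 3792, nat_lit 3692, nat_lit 291, nat_lit 0, nat_lit 0, nat_lit 1061, nat_lit 0, nat_lit 0, nat_lit 0, nat_lit 0, nat_lit 0, nat_lit 296000, nat_lit 0, nat_lit 0, [(nat_lit 18, [(nat_lit 2, nat_lit 296)]), (nat_lit 21, [(nat_lit 2, nat_lit 296)])],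
 ⟨p022_k22, nat_lit 0, nat_lit 0, nat_lit 180, nat_lit 0, nat_lit 0, [nat_lit 1934280534, nat_lit 3609770667, nat_lit 4268812800], [], [nat_lit 31430396572, nat_lit 32716512220, nat_lit 33346184940, nat_lit 34499295660], nat_lit 0, nat_lit 0, nat_lit 0, nat_lit 0, nat_lit 0, nat_lit 0, [], [nat_lit 6, nat_lit 40, nat_lit 80, nat_lit 80, nat_lit 3, nat_lit 203, nat_lit 0, nat_lit 6]⟩, ⟨p022_k22, nat_lit 0, nat_lit 0, nat_lit 948, nat_lit 0, nat_lit 2054458, [nat_lit 1430528000, nat_lit 3300352000, nat_lit 4400000000], [], [nat_lit 25533812101, nat_lit 25652024059, nat_lit 26072134103, nat_lit 26198298144], nat_lit 1271250, nat_lit 1271250, nat_lit 1271250, nat_lit 1271250, nat_lit 0, nat_lit 0, [nat_lit 490000, nat_lit 1100000, nat_lit 1442500], [nat_lit 6, nat_lit 40, nat_lit 80, nat_lit 80, nat_lit 3, nat_lit 330, nat_lit 0, nat_lit 11]⟩,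
 ⟨nat_lit 3162, nat_lit 4184, ⟨.ofNat (nat_lit 905711), .ofNat (nat_lit 972009), .ofNat (nat_lit 916516), .ofNat (nat_lit 982822), .ofNat (nat_lit 887675), .ofNat (nat_lit 948671), .ofNat (nat_lit 898724), .ofNat (nat_lit 959728)⟩, ⟨.ofNat (nat_lit 0), .ofNat (nat_lit 0), .ofNat (nat_lit 0), .ofNat (nat_lit 0), .ofNat (nat_lit 0), .ofNat (nat_lit 0), .ofNat (nat_lit 0), .ofNat (nat_lit 0)⟩⟩, [⟨nat_lit 13, nat_lit 79, nat_lit 29, nat_lit 100, nat_lit 21147911⟩]⟩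
noncomputable def p022_l167 : Lf2 := ⟨nat_lit 0, nat_lit 10, [nat_lit 0, nat_lit 5, nat_lit 5, nat_lit 20], true, nat_lit 0, nat_lit 0, nat_lit 0, nat_lit 0, ⟨nat_lit 0, nat_lit 1000, nat_lit 0, nat_lit 8, nat_lit 302, nat_lit 0, nat_lit 0, nat_lit 0, nat_lit 0, nat_lit 0, nat_lit 0, nat_lit 0, nat_lit 0, nat_lit 0, nat_lit 0, nat_lit 5000000, true, false⟩,
 nat_lit 0, nat_lit 0, nat_lit 0, nat_lit 0, nat_lit 2787, nat_lit 0, nat_lit 293, nat_lit 0, nat_lit 0, nat_lit 0, nat_lit 0, nat_lit 0, nat_lit 0, nat_lit 6968288635084, nat_lit 0, nat_lit 400000, nat_lit 0, nat_lit 0, [(nat_lit 18, [(nat_lit 1, nat_lit 1000)]), (nat_lit 21, [(nat_lit 1, nat_lit 1000)])],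
 ⟨p022_k37, nat_lit 0, nat_lit 0, nat_lit 184, nat_lit 0, nat_lit 0, [nat_lit 1356000000, nat_lit 1749066667, nat_lit 2015733333], [], [nat_lit 21009553770, nat_lit 23178911318, nat_lit 29517084030, nat_lit 31026596610], nat_lit 0, nat_lit 0, nat_lit 0, nat_lit 0, nat_lit 0, nat_lit 0, [], [nat_lit 85, nat_lit 40, nat_lit 80, nat_lit 80, nat_lit 16, nat_lit 317, nat_lit 100, nat_lit 12]⟩, C1.Rw.none,
 ⟨nat_lit 3162, nat_lit 4473, ⟨.ofNat (nat_lit 526772), .ofNat (nat_lit 969090), .ofNat (nat_lit 548248), .ofNat (nat_lit 990589), .ofNat (nat_lit 540839), .ofNat (nat_lit 937496), .ofNat (nat_lit 562904), .ofNat (nat_lit 959584)⟩, ⟨.ofNat (nat_lit 0), .ofNat (nat_lit 0), .ofNat (nat_lit 0), .ofNat (nat_lit 0), .ofNat (nat_lit 0), .ofNat (nat_lit 0), .ofNat (nat_lit 0), .ofNat (nat_lit 0)⟩⟩, []⟩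
noncomputable def b_N_800_800_0_0 : St := ⟨false, nat_lit 0, nat_lit 2, nat_lit 0, nat_lit 40, nat_lit 320, nat_lit 360, nat_lit 320, nat_lit 340, nat_lit 140, nat_lit 400, nat_lit 0, nat_lit 0, nat_lit 0, nat_lit 0, nat_lit 0, nat_lit 0, nat_lit 0, nat_lit 40, nat_lit 0, nat_lit 0, nat_lit 0, nat_lit 0⟩
theorem d_N_800_800_0_0 (h : EB TB.env) : Dead b_N_800_800_0_0 := chkB_sound0 h (T :=
(.gv
(.st (nat_lit 1)
(.leaf p022_l155)
(.spl (nat_lit 2) (nat_lit 240)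
(.leaf p022_l156)
(.spl (nat_lit 2) (nat_lit 320)
(.leaf p022_l157)
(.spl (nat_lit 2) (nat_lit 360)
(.spl (nat_lit 1) (nat_lit 330)
(.leaf p022_l158)
(.ord (.leaf p022_l159)))
(.spl (nat_lit 1) (nat_lit 330)
(.spl (nat_lit 6) (nat_lit 20)
(.leaf p022_l160)
(.spl (nat_lit 0) (nat_lit 340)
(.spl (nat_lit 1) (nat_lit 325)
(.spl (nat_lit 0) (nat_lit 330)
(.leaf p022_l161)
(.spl (nat_lit 0) (nat_lit 335)
(.leaf p022_l162)
(.leaf p022_l163)))
(.ord (.leaf p022_l164)))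
(.leaf p022_l165)))
(.ord (.leaf p022_l166)))))))
(.leaf p022_l167))) (by decide +kernel)
noncomputable def p022_l168 : Lf2 := ⟨nat_lit 0, nat_lit 2, [nat_lit 10, nat_lit 5, nat_lit 5, nat_lit 20], false, nat_lit 0, nat_lit 0, nat_lit 0, nat_lit 0, ⟨nat_lit 1000, nat_lit 0, nat_lit 0, nat_lit 0, nat_lit 0, nat_lit 0, nat_lit 0, nat_lit 0, nat_lit 0, nat_lit 0, nat_lit 0, nat_lit 0, nat_lit 0, nat_lit 0, nat_lit 0, nat_lit 0, false, false⟩,
 nat_lit 0, nat_lit 0, nat_lit 0, nat_lit 0, nat_lit 0, nat_lit 0, nat_lit 0, nat_lit 0, nat_lit 473, nat_lit 15515, nat_lit 0, nat_lit 0, nat_lit 0, nat_lit 400000000000000, nat_lit 0, nat_lit 0, nat_lit 0, nat_lit 0, [],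
 ⟨p022_k12, nat_lit 0, nat_lit 0, nat_lit 0, nat_lit 0, nat_lit 1488578, [nat_lit 2032000001, nat_lit 4688000000], [], [nat_lit 13669746000, nat_lit 13699283525, nat_lit 15008984000, nat_lit 15037198050], nat_lit 1271250, nat_lit 1271250, nat_lit 936251, nat_lit 1438750, nat_lit 0, nat_lit 0, [nat_lit 490000, nat_lit 1100000], [nat_lit 24, nat_lit 40, nat_lit 80, nat_lit 80]⟩, ⟨p022_k12, nat_lit 0, nat_lit 0, nat_lit 85, nat_lit 0, nat_lit 0, [nat_lit 2032000000, nat_lit 4688000000], [], [nat_lit 23889382000, nat_lit 23928046975, nat_lit 25509260000, nat_lit 25545781000], nat_lit 0, nat_lit 0, nat_lit 0, nat_lit 0, nat_lit 0, nat_lit 0, [], [nat_lit 24, nat_lit 40, nat_lit 80, nat_lit 80, nat_lit 33, nat_lit 260, nat_lit 50, nat_lit 12]⟩,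
 zbF0, []⟩
noncomputable def p022_l169 : Lf2 := ⟨nat_lit 0, nat_lit 2, [nat_lit 10, nat_lit 5, nat_lit 5, nat_lit 20], false, nat_lit 0, nat_lit 0, nat_lit 0, nat_lit 0, ⟨nat_lit 1000, nat_lit 0, nat_lit 0, nat_lit 0, nat_lit 0, nat_lit 0, nat_lit 0, nat_lit 0, nat_lit 0, nat_lit 0, nat_lit 0, nat_lit 0, nat_lit 0, nat_lit 0, nat_lit 0, nat_lit 0, false, false⟩,
 nat_lit 0, nat_lit 0, nat_lit 0, nat_lit 0, nat_lit 0, nat_lit 2108, nat_lit 0, nat_lit 0, nat_lit 461, nat_lit 0, nat_lit 0, nat_lit 0, nat_lit 0, nat_lit 400000000000000, nat_lit 0, nat_lit 0, nat_lit 0, nat_lit 0, [],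
 ⟨p022_k12, nat_lit 0, nat_lit 0, nat_lit 0, nat_lit 0, nat_lit 1488578, [nat_lit 2032000001, nat_lit 4688000000], [], [nat_lit 14589215000, nat_lit 14615120125, nat_lit 15835068000, nat_lit 15860863700], nat_lit 1271250, nat_lit 1271250, nat_lit 936251, nat_lit 1438750, nat_lit 0, nat_lit 0, [nat_lit 490000, nat_lit 1100000], [nat_lit 24, nat_lit 40, nat_lit 80, nat_lit 80]⟩, ⟨p022_k12, nat_lit 0, nat_lit 0, nat_lit 85, nat_lit 0, nat_lit 0, [nat_lit 2032000000, nat_lit 4688000000], [], [nat_lit 22275444500, nat_lit 22339447425, nat_lit 23956869776, nat_lit 24015474395], nat_lit 0, nat_lit 0, nat_lit 0, nat_lit 0, nat_lit 0, nat_lit 0, [], [nat_lit 24, nat_lit 40, nat_lit 80, nat_lit 80, nat_lit 33, nat_lit 260, nat_lit 50, nat_lit 12]⟩,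
 zbF0, []⟩
noncomputable def p022_l170 : Lf2 := ⟨nat_lit 0, nat_lit 2, [nat_lit 10, nat_lit 5, nat_lit 5, nat_lit 20], false, nat_lit 0, nat_lit 0, nat_lit 0, nat_lit 0, ⟨nat_lit 1000, nat_lit 0, nat_lit 0, nat_lit 0, nat_lit 0, nat_lit 0, nat_lit 0, nat_lit 0, nat_lit 0, nat_lit 0, nat_lit 0, nat_lit 0, nat_lit 0, nat_lit 0, nat_lit 0, nat_lit 0, false, false⟩,
 nat_lit 0, nat_lit 0, nat_lit 0, nat_lit 0, nat_lit 0, nat_lit 4028, nat_lit 0, nat_lit 0, nat_lit 452, nat_lit 0, nat_lit 0, nat_lit 0, nat_lit 0, nat_lit 0, nat_lit 0, nat_lit 0, nat_lit 0, nat_lit 0, [],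
 ⟨p022_k12, nat_lit 0, nat_lit 0, nat_lit 0, nat_lit 0, nat_lit 1488578, [nat_lit 2032000001, nat_lit 4688000000], [], [nat_lit 15455889000, nat_lit 15478603575, nat_lit 16616860000, nat_lit 16640573450], nat_lit 1271250, nat_lit 1271250, nat_lit 936251, nat_lit 1438750, nat_lit 0, nat_lit 0, [nat_lit 490000, nat_lit 1100000], [nat_lit 24, nat_lit 40, nat_lit 80, nat_lit 80]⟩, ⟨p022_k12, nat_lit 0, nat_lit 0, nat_lit 85, nat_lit 0, nat_lit 0, [nat_lit 2032000000, nat_lit 4688000000], [], [nat_lit 20805444500, nat_lit 20897769249, nat_lit 22542928016, nat_lit 22621646747], nat_lit 0, nat_lit 0, nat_lit 0, nat_lit 0, nat_lit 0, nat_lit 0, [], [nat_lit 24, nat_lit 40, nat_lit 80, nat_lit 80, nat_lit 33, nat_lit 260, nat_lit 50, nat_lit 12]⟩,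
 zbF0, [⟨nat_lit 0, nat_lit 83, nat_lit 83, nat_lit 100, nat_lit 366224350⟩]⟩
noncomputable def p022_l171 : Lf2 := ⟨nat_lit 0, nat_lit 2, [nat_lit 10, nat_lit 5, nat_lit 5, nat_lit 20], false, nat_lit 0, nat_lit 0, nat_lit 0, nat_lit 0, ⟨nat_lit 1000, nat_lit 0, nat_lit 0, nat_lit 0, nat_lit 0, nat_lit 0, nat_lit 0, nat_lit 0, nat_lit 0, nat_lit 0, nat_lit 0, nat_lit 0, nat_lit 0, nat_lit 0, nat_lit 0, nat_lit 0, false, false⟩,
 nat_lit 0, nat_lit 0, nat_lit 0, nat_lit 0, nat_lit 0, nat_lit 0, nat_lit 0, nat_lit 0, nat_lit 444, nat_lit 0, nat_lit 0, nat_lit 498, nat_lit 0, nat_lit 0, nat_lit 0, nat_lit 0, nat_lit 0, nat_lit 0, [],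
 ⟨p022_k12, nat_lit 0, nat_lit 0, nat_lit 0, nat_lit 0, nat_lit 1488578, [nat_lit 2032000001, nat_lit 4688000000], [], [nat_lit 16351889000, nat_lit 16374603575, nat_lit 16558091600, nat_lit 16580652170], nat_lit 1271250, nat_lit 1271250, nat_lit 936251, nat_lit 1033601, nat_lit 0, nat_lit 0, [nat_lit 490000, nat_lit 1100000], [nat_lit 24, nat_lit 40, nat_lit 80, nat_lit 80]⟩, ⟨p022_k12, nat_lit 0, nat_lit 0, nat_lit 0, nat_lit 0, nat_lit 0, [nat_lit 2032000000, nat_lit 4688000000], [], [nat_lit 12549188000, nat_lit 12594335525, nat_lit 12852507200, nat_lit 12897178070], nat_lit 0, nat_lit 0, nat_lit 0, nat_lit 0, nat_lit 0, nat_lit 0, [], [nat_lit 24, nat_lit 40, nat_lit 80, nat_lit 80]⟩,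
 zbF0, [⟨nat_lit 0, nat_lit 83, nat_lit 83, nat_lit 100, nat_lit 430563199⟩]⟩
noncomputable def p022_l172 : Lf2 := ⟨nat_lit 0, nat_lit 2, [nat_lit 10, nat_lit 5, nat_lit 5, nat_lit 20], false, nat_lit 0, nat_lit 0, nat_lit 0, nat_lit 0, ⟨nat_lit 1000, nat_lit 0, nat_lit 0, nat_lit 0, nat_lit 0, nat_lit 0, nat_lit 0, nat_lit 0, nat_lit 0, nat_lit 0, nat_lit 0, nat_lit 0, nat_lit 0, nat_lit 0, nat_lit 0, nat_lit 0, false, false⟩,
 nat_lit 0, nat_lit 0, nat_lit 0, nat_lit 0, nat_lit 0, nat_lit 4058, nat_lit 0, nat_lit 0, nat_lit 392, nat_lit 0, nat_lit 0, nat_lit 0, nat_lit 0, nat_lit 0, nat_lit 0, nat_lit 0, nat_lit 0, nat_lit 0, [],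
 ⟨p022_k12, nat_lit 0, nat_lit 0, nat_lit 0, nat_lit 0, nat_lit 1488578, [nat_lit 2032000001, nat_lit 4688000000], [], [nat_lit 22179324001, nat_lit 22201262076, nat_lit 22382091600, nat_lit 22404652170], nat_lit 1271250, nat_lit 1271250, nat_lit 936251, nat_lit 1033601, nat_lit 0, nat_lit 0, [nat_lit 490000, nat_lit 1100000], [nat_lit 24, nat_lit 40, nat_lit 80, nat_lit 80]⟩, ⟨p022_k12, nat_lit 0, nat_lit 0, nat_lit 0, nat_lit 0, nat_lit 0, [nat_lit 2032000000, nat_lit 4688000000], [], [nat_lit 20807452028, nat_lit 20900331060, nat_lit 20945592894, nat_lit 21036569019], nat_lit 0, nat_lit 0, nat_lit 0, nat_lit 0, nat_lit 0, nat_lit 0, [], [nat_lit 24, nat_lit 40, nat_lit 80, nat_lit 80]⟩,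
 zbF0, [⟨nat_lit 0, nat_lit 83, nat_lit 83, nat_lit 100, nat_lit 530674251⟩]⟩
noncomputable def p022_l173 : Lf2 := ⟨nat_lit 0, nat_lit 2, [nat_lit 10, nat_lit 5, nat_lit 5, nat_lit 20], false, nat_lit 0, nat_lit 0, nat_lit 0, nat_lit 0, ⟨nat_lit 1000, nat_lit 0, nat_lit 0, nat_lit 0, nat_lit 0, nat_lit 0, nat_lit 0, nat_lit 0, nat_lit 0, nat_lit 0, nat_lit 0, nat_lit 0, nat_lit 0, nat_lit 0, nat_lit 0, nat_lit 0, false, false⟩,
 nat_lit 0, nat_lit 0, nat_lit 0, nat_lit 0, nat_lit 0, nat_lit 4058, nat_lit 0, nat_lit 0, nat_lit 392, nat_lit 0, nat_lit 0, nat_lit 0, nat_lit 0, nat_lit 0, nat_lit 0, nat_lit 0, nat_lit 0, nat_lit 0, [],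
 ⟨p022_k12, nat_lit 0, nat_lit 0, nat_lit 0, nat_lit 0, nat_lit 1488578, [nat_lit 2032000001, nat_lit 4688000000], [], [nat_lit 22179324001, nat_lit 22201262076, nat_lit 22382091600, nat_lit 22404652170], nat_lit 1271250, nat_lit 1271250, nat_lit 936251, nat_lit 1033601, nat_lit 0, nat_lit 0, [nat_lit 490000, nat_lit 1100000], [nat_lit 24, nat_lit 40, nat_lit 80, nat_lit 80]⟩, ⟨p022_k12, nat_lit 0, nat_lit 0, nat_lit 0, nat_lit 0, nat_lit 0, [nat_lit 2032000000, nat_lit 4688000000], [], [nat_lit 20807452028, nat_lit 20900331060, nat_lit 20945592894, nat_lit 21036569019], nat_lit 0, nat_lit 0, nat_lit 0, nat_lit 0, nat_lit 0, nat_lit 0, [], [nat_lit 24, nat_lit 40, nat_lit 80, nat_lit 80]⟩,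
 zbF0, [⟨nat_lit 0, nat_lit 83, nat_lit 83, nat_lit 100, nat_lit 533813676⟩]⟩
noncomputable def p022_l174 : Lf2 := ⟨nat_lit 0, nat_lit 2, [nat_lit 10, nat_lit 5, nat_lit 5, nat_lit 20], false, nat_lit 0, nat_lit 0, nat_lit 0, nat_lit 0, ⟨nat_lit 1000, nat_lit 0, nat_lit 0, nat_lit 0, nat_lit 0, nat_lit 0, nat_lit 0, nat_lit 0, nat_lit 0, nat_lit 0, nat_lit 0, nat_lit 0, nat_lit 0, nat_lit 0, nat_lit 0, nat_lit 0, false, false⟩,
 nat_lit 0, nat_lit 0, nat_lit 0, nat_lit 0, nat_lit 0, nat_lit 4058, nat_lit 0, nat_lit 0, nat_lit 444, nat_lit 0, nat_lit 0, nat_lit 0, nat_lit 0, nat_lit 0, nat_lit 0, nat_lit 0, nat_lit 0, nat_lit 0, [],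
 ⟨p022_k12, nat_lit 0, nat_lit 0, nat_lit 0, nat_lit 0, nat_lit 1488578, [nat_lit 2032000001, nat_lit 4688000000], [], [nat_lit 16351889000, nat_lit 16374603575, nat_lit 16558091600, nat_lit 16580652170], nat_lit 1271250, nat_lit 1271250, nat_lit 936251, nat_lit 1033601, nat_lit 0, nat_lit 0, [nat_lit 490000, nat_lit 1100000], [nat_lit 24, nat_lit 40, nat_lit 80, nat_lit 80]⟩, ⟨p022_k12, nat_lit 0, nat_lit 0, nat_lit 0, nat_lit 0, nat_lit 0, [nat_lit 2032000000, nat_lit 4688000000], [], [nat_lit 20807452028, nat_lit 20900331060, nat_lit 20945592894, nat_lit 21036569019], nat_lit 0, nat_lit 0, nat_lit 0, nat_lit 0, nat_lit 0, nat_lit 0, [], [nat_lit 24, nat_lit 40, nat_lit 80, nat_lit 80]⟩,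
 zbF0, [⟨nat_lit 0, nat_lit 83, nat_lit 83, nat_lit 100, nat_lit 530674251⟩]⟩
noncomputable def p022_l175 : Lf2 := ⟨nat_lit 2, nat_lit 2, [nat_lit 10, nat_lit 5, nat_lit 5, nat_lit 20], true, nat_lit 0, nat_lit 0, nat_lit 0, nat_lit 0, zbN0,
 nat_lit 0, nat_lit 0, nat_lit 0, nat_lit 0, nat_lit 0, nat_lit 0, nat_lit 0, nat_lit 0, nat_lit 0, nat_lit 0, nat_lit 0, nat_lit 0, nat_lit 0, nat_lit 0, nat_lit 0, nat_lit 0, nat_lit 0, nat_lit 0, [],
 ⟨p022_k50, nat_lit 0, nat_lit 0, nat_lit 0, nat_lit 0, nat_lit 1488578, [], [], [], nat_lit 1271250, nat_lit 1271250, nat_lit 936251, nat_lit 1033601, nat_lit 0, nat_lit 0, [nat_lit 490000, nat_lit 631250, nat_lit 936250], [nat_lit 164, nat_lit 40, nat_lit 20, nat_lit 40]⟩, C1.Rw.none,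
 zbF0, []⟩
noncomputable def p022_l176 : Lf2 := ⟨nat_lit 0, nat_lit 2, [nat_lit 10, nat_lit 5, nat_lit 5, nat_lit 20], false, nat_lit 0, nat_lit 0, nat_lit 0, nat_lit 0, ⟨nat_lit 1000, nat_lit 0, nat_lit 0, nat_lit 0, nat_lit 0, nat_lit 0, nat_lit 0, nat_lit 0, nat_lit 0, nat_lit 0, nat_lit 0, nat_lit 0, nat_lit 0, nat_lit 0, nat_lit 0, nat_lit 0, false, false⟩,
 nat_lit 0, nat_lit 0, nat_lit 0, nat_lit 0, nat_lit 0, nat_lit 4058, nat_lit 0, nat_lit 0, nat_lit 392, nat_lit 0, nat_lit 0, nat_lit 0, nat_lit 0, nat_lit 8480663124569, nat_lit 0, nat_lit 0, nat_lit 0, nat_lit 0, [],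
 ⟨p022_k12, nat_lit 0, nat_lit 0, nat_lit 0, nat_lit 0, nat_lit 1488578, [nat_lit 2032000001, nat_lit 4688000000], [], [nat_lit 22382091600, nat_lit 22404652170, nat_lit 22450825800, nat_lit 22473335035], nat_lit 1271250, nat_lit 1271250, nat_lit 1033601, nat_lit 1066650, nat_lit 0, nat_lit 0, [nat_lit 490000, nat_lit 1100000], [nat_lit 24, nat_lit 40, nat_lit 80, nat_lit 80]⟩, ⟨p022_k12, nat_lit 0, nat_lit 0, nat_lit 0, nat_lit 0, nat_lit 0, [nat_lit 2032000000, nat_lit 4688000000], [], [nat_lit 20945592894, nat_lit 21036569019, nat_lit 20999965275, nat_lit 21085416752], nat_lit 0, nat_lit 0, nat_lit 0, nat_lit 0, nat_lit 0, nat_lit 0, [], [nat_lit 24, nat_lit 40, nat_lit 80, nat_lit 80]⟩,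
 zbF0, []⟩
noncomputable def p022_l177 : Lf2 := ⟨nat_lit 0, nat_lit 2, [nat_lit 10, nat_lit 5, nat_lit 5, nat_lit 20], true, nat_lit 0, nat_lit 0, nat_lit 0, nat_lit 0, ⟨nat_lit 0, nat_lit 0, nat_lit 1000, nat_lit 8, nat_lit 221, nat_lit 0, nat_lit 0, nat_lit 0, nat_lit 0, nat_lit 215, nat_lit 7419, nat_lit 230, nat_lit 51357532, nat_lit 0, nat_lit 0, nat_lit 2717173, false, false⟩,
 nat_lit 0, nat_lit 100000, nat_lit 0, nat_lit 0, nat_lit 75000, nat_lit 0, nat_lit 60000, nat_lit 20000, nat_lit 0, nat_lit 0, nat_lit 0, nat_lit 0, nat_lit 0, nat_lit 400000000000000, nat_lit 0, nat_lit 925750, nat_lit 0, nat_lit 0, [(nat_lit 18, [(nat_lit 3, nat_lit 90), (nat_lit 6, nat_lit 910)])],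
 ⟨p022_k50, nat_lit 0, nat_lit 0, nat_lit 0, nat_lit 0, nat_lit 1488578, [nat_lit 161870570667, nat_lit 200393848000, nat_lit 279502328000], [], [nat_lit 1814933173868, nat_lit 1815221091448, nat_lit 1814596624268, nat_lit 1814881872108], nat_lit 1271250, nat_lit 1271250, nat_lit 1033601, nat_lit 1066650, nat_lit 0, nat_lit 0, [nat_lit 490000, nat_lit 631250, nat_lit 936250], [nat_lit 164, nat_lit 40, nat_lit 20, nat_lit 40]⟩, C1.Rw.none,
 ⟨nat_lit 4444, nat_lit 4473, ⟨.ofNat (nat_lit 547823), .ofNat (nat_lit 554621), .ofNat (nat_lit 548902), .ofNat (nat_lit 555700), .ofNat (nat_lit 548084), .ofNat (nat_lit 554864), .ofNat (nat_lit 549163), .ofNat (nat_lit 555943)⟩, ⟨.ofNat (nat_lit 0), .ofNat (nat_lit 0), .ofNat (nat_lit 0), .ofNat (nat_lit 0), .ofNat (nat_lit 0), .ofNat (nat_lit 0), .ofNat (nat_lit 0), .ofNat (nat_lit 0)⟩⟩, []⟩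
noncomputable def p022_l178 : Lf2 := ⟨nat_lit 0, nat_lit 2, [nat_lit 10, nat_lit 5, nat_lit 5, nat_lit 20], false, nat_lit 0, nat_lit 0, nat_lit 0, nat_lit 0, ⟨nat_lit 1000, nat_lit 0, nat_lit 0, nat_lit 0, nat_lit 0, nat_lit 0, nat_lit 0, nat_lit 0, nat_lit 0, nat_lit 0, nat_lit 0, nat_lit 0, nat_lit 0, nat_lit 0, nat_lit 0, nat_lit 0, false, false⟩,
 nat_lit 0, nat_lit 0, nat_lit 0, nat_lit 0, nat_lit 0, nat_lit 4068, nat_lit 0, nat_lit 0, nat_lit 443, nat_lit 0, nat_lit 0, nat_lit 0, nat_lit 0, nat_lit 8389540131131, nat_lit 0, nat_lit 0, nat_lit 0, nat_lit 0, [],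
 ⟨p022_k12, nat_lit 0, nat_lit 0, nat_lit 0, nat_lit 0, nat_lit 1488578, [nat_lit 2032000001, nat_lit 4688000000], [], [nat_lit 16738825800, nat_lit 16761335035, nat_lit 16807560000, nat_lit 16830017900], nat_lit 1271250, nat_lit 1271250, nat_lit 1066650, nat_lit 1100001, nat_lit 0, nat_lit 0, [nat_lit 490000, nat_lit 1100000], [nat_lit 24, nat_lit 40, nat_lit 80, nat_lit 80]⟩, ⟨p022_k12, nat_lit 0, nat_lit 0, nat_lit 0, nat_lit 0, nat_lit 0, [nat_lit 2032000000, nat_lit 4688000000], [], [nat_lit 20991883081, nat_lit 21082311594, nat_lit 21046148976, nat_lit 21131218582], nat_lit 0, nat_lit 0, nat_lit 0, nat_lit 0, nat_lit 0, nat_lit 0, [], [nat_lit 24, nat_lit 40, nat_lit 80, nat_lit 80]⟩,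
 zbF0, []⟩
noncomputable def p022_l179 : Lf2 := ⟨nat_lit 0, nat_lit 2, [nat_lit 10, nat_lit 5, nat_lit 5, nat_lit 20], false, nat_lit 0, nat_lit 0, nat_lit 0, nat_lit 0, ⟨nat_lit 1000, nat_lit 0, nat_lit 0, nat_lit 0, nat_lit 0, nat_lit 0, nat_lit 0, nat_lit 0, nat_lit 0, nat_lit 0, nat_lit 0, nat_lit 0, nat_lit 0, nat_lit 0, nat_lit 0, nat_lit 0, false, false⟩,
 nat_lit 0, nat_lit 0, nat_lit 0, nat_lit 0, nat_lit 0, nat_lit 4078, nat_lit 0, nat_lit 0, nat_lit 443, nat_lit 0, nat_lit 0, nat_lit 0, nat_lit 0, nat_lit 8284792768321, nat_lit 0, nat_lit 0, nat_lit 0, nat_lit 0, [],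
 ⟨p022_k12, nat_lit 0, nat_lit 0, nat_lit 0, nat_lit 0, nat_lit 1488578, [nat_lit 2032000001, nat_lit 4688000000], [], [nat_lit 16807560000, nat_lit 16830017900, nat_lit 17552932000, nat_lit 17574842600], nat_lit 1271250, nat_lit 1271250, nat_lit 1100001, nat_lit 1442500, nat_lit 0, nat_lit 0, [nat_lit 490000, nat_lit 1100000], [nat_lit 24, nat_lit 40, nat_lit 80, nat_lit 80]⟩, ⟨p022_k12, nat_lit 0, nat_lit 0, nat_lit 0, nat_lit 0, nat_lit 0, [nat_lit 2032000000, nat_lit 4688000000], [], [nat_lit 21037960296, nat_lit 21127792161, nat_lit 22538912780, nat_lit 22622979349], nat_lit 0, nat_lit 0, nat_lit 0, nat_lit 0, nat_lit 0, nat_lit 0, [], [nat_lit 24, nat_lit 40, nat_lit 80, nat_lit 80]⟩,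
 zbF0, []⟩
noncomputable def p022_l180 : Lf2 := ⟨nat_lit 2, nat_lit 2, [nat_lit 10, nat_lit 5, nat_lit 5, nat_lit 20], true, nat_lit 0, nat_lit 0, nat_lit 0, nat_lit 0, zbN0,
 nat_lit 0, nat_lit 0, nat_lit 0, nat_lit 0, nat_lit 0, nat_lit 0, nat_lit 0, nat_lit 0, nat_lit 0, nat_lit 0, nat_lit 0, nat_lit 0, nat_lit 0, nat_lit 0, nat_lit 0, nat_lit 0, nat_lit 0, nat_lit 0, [],
 ⟨p022_k50, nat_lit 0, nat_lit 0, nat_lit 0, nat_lit 0, nat_lit 1488578, [], [], [], nat_lit 1271250, nat_lit 1271250, nat_lit 936251, nat_lit 1438750, nat_lit 0, nat_lit 0, [nat_lit 490000, nat_lit 631250, nat_lit 936250], [nat_lit 164, nat_lit 40, nat_lit 20, nat_lit 40]⟩, C1.Rw.none,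
 zbF0, []⟩
noncomputable def p022_l181 : Lf2 := ⟨nat_lit 0, nat_lit 2, [nat_lit 10, nat_lit 5, nat_lit 5, nat_lit 20], true, nat_lit 0, nat_lit 0, nat_lit 0, nat_lit 0, ⟨nat_lit 0, nat_lit 0, nat_lit 1000, nat_lit 8, nat_lit 232, nat_lit 0, nat_lit 0, nat_lit 0, nat_lit 0, nat_lit 215, nat_lit 2817, nat_lit 202, nat_lit 50176276, nat_lit 0, nat_lit 0, nat_lit 2817703, false, false⟩,
 nat_lit 0, nat_lit 100000, nat_lit 0, nat_lit 0, nat_lit 75000, nat_lit 0, nat_lit 23297, nat_lit 3919, nat_lit 0, nat_lit 0, nat_lit 0, nat_lit 0, nat_lit 0, nat_lit 400000000000000, nat_lit 0, nat_lit 1000000, nat_lit 0, nat_lit 0, [(nat_lit 18, [(nat_lit 6, nat_lit 1000)])],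
 ⟨p022_k12, nat_lit 0, nat_lit 0, nat_lit 660, nat_lit 0, nat_lit 1488578, [nat_lit 32411733334, nat_lit 61464266666], [], [nat_lit 96492843996, nat_lit 96618799771, nat_lit 88365118662, nat_lit 88483666512], nat_lit 1271250, nat_lit 1271250, nat_lit 936251, nat_lit 1438750, nat_lit 0, nat_lit 0, [nat_lit 490000, nat_lit 1100000], [nat_lit 24, nat_lit 40, nat_lit 80, nat_lit 80, nat_lit 33, nat_lit 260, nat_lit 50, nat_lit 12]⟩, C1.Rw.none,
 ⟨nat_lit 4444, nat_lit 4473, ⟨.ofNat (nat_lit 527430), .ofNat (nat_lit 629397), .ofNat (nat_lit 528508), .ofNat (nat_lit 630476), .ofNat (nat_lit 527742), .ofNat (nat_lit 629451), .ofNat (nat_lit 528821), .ofNat (nat_lit 630530)⟩, ⟨.ofNat (nat_lit 0), .ofNat (nat_lit 0), .ofNat (nat_lit 0), .ofNat (nat_lit 0), .ofNat (nat_lit 0), .ofNat (nat_lit 0), .ofNat (nat_lit 0), .ofNat (nat_lit 0)⟩⟩, []⟩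
noncomputable def p022_l182 : Lf2 := ⟨nat_lit 0, nat_lit 2, [nat_lit 10, nat_lit 5, nat_lit 5, nat_lit 20], false, nat_lit 0, nat_lit 0, nat_lit 0, nat_lit 0, ⟨nat_lit 1000, nat_lit 0, nat_lit 0, nat_lit 0, nat_lit 0, nat_lit 0, nat_lit 0, nat_lit 0, nat_lit 0, nat_lit 0, nat_lit 0, nat_lit 0, nat_lit 0, nat_lit 0, nat_lit 0, nat_lit 0, false, false⟩,
 nat_lit 0, nat_lit 0, nat_lit 0, nat_lit 0, nat_lit 0, nat_lit 100000, nat_lit 0, nat_lit 0, nat_lit 0, nat_lit 0, nat_lit 10054, nat_lit 0, nat_lit 0, nat_lit 400000000000000, nat_lit 0, nat_lit 0, nat_lit 0, nat_lit 0, [],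
 ⟨p022_k12, nat_lit 0, nat_lit 0, nat_lit 660, nat_lit 0, nat_lit 1488578, [nat_lit 2032000001, nat_lit 4688000000], [], [nat_lit 79343619002, nat_lit 79363324152, nat_lit 80312824002, nat_lit 80331918152], nat_lit 1271250, nat_lit 1271250, nat_lit 936251, nat_lit 1438750, nat_lit 0, nat_lit 0, [nat_lit 490000, nat_lit 1100000], [nat_lit 24, nat_lit 40, nat_lit 80, nat_lit 80, nat_lit 33, nat_lit 260, nat_lit 50, nat_lit 12]⟩, ⟨p022_k12, nat_lit 0, nat_lit 0, nat_lit 0, nat_lit 0, nat_lit 0, [nat_lit 82464000000, nat_lit 165552000000], [], [nat_lit 188623985000, nat_lit 189957173425, nat_lit 193162460000, nat_lit 194246591001], nat_lit 0, nat_lit 0, nat_lit 0, nat_lit 0, nat_lit 0, nat_lit 0, [], [nat_lit 24, nat_lit 40, nat_lit 80, nat_lit 80]⟩,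
 zbF0, [⟨nat_lit 13, nat_lit 100, nat_lit 1, nat_lit 100, nat_lit 220667667⟩]⟩
noncomputable def p022_l183 : Lf2 := ⟨nat_lit 3, nat_lit 2, [nat_lit 10, nat_lit 5, nat_lit 5, nat_lit 20], false, nat_lit 0, nat_lit 0, nat_lit 0, nat_lit 0, zbN0,
 nat_lit 0, nat_lit 0, nat_lit 0, nat_lit 0, nat_lit 0, nat_lit 0, nat_lit 0, nat_lit 0, nat_lit 0, nat_lit 0, nat_lit 0, nat_lit 0, nat_lit 0, nat_lit 0, nat_lit 0, nat_lit 0, nat_lit 0, nat_lit 0, [],
 C1.Rw.none, ⟨p022_k12, nat_lit 0, nat_lit 0, nat_lit 0, nat_lit 0, nat_lit 0, [], [], [], nat_lit 0, nat_lit 0, nat_lit 0, nat_lit 0, nat_lit 0, nat_lit 0, [], [nat_lit 24, nat_lit 40, nat_lit 80, nat_lit 80]⟩,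
 zbF0, []⟩
noncomputable def p022_l184 : Lf2 := ⟨nat_lit 3, nat_lit 2, [nat_lit 10, nat_lit 5, nat_lit 5, nat_lit 20], false, nat_lit 0, nat_lit 0, nat_lit 0, nat_lit 0, zbN0,
 nat_lit 0, nat_lit 0, nat_lit 0, nat_lit 0, nat_lit 0, nat_lit 0, nat_lit 0, nat_lit 0, nat_lit 0, nat_lit 0, nat_lit 0, nat_lit 0, nat_lit 0, nat_lit 0, nat_lit 0, nat_lit 0, nat_lit 0, nat_lit 0, [],
 C1.Rw.none, ⟨p022_k12, nat_lit 0, nat_lit 0, nat_lit 85, nat_lit 0, nat_lit 0, [], [], [], nat_lit 0, nat_lit 0, nat_lit 0, nat_lit 0, nat_lit 0, nat_lit 0, [], [nat_lit 24, nat_lit 40, nat_lit 80, nat_lit 80, nat_lit 33, nat_lit 260, nat_lit 50, nat_lit 12]⟩,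
 zbF0, []⟩
noncomputable def p022_l185 : Lf2 := ⟨nat_lit 0, nat_lit 2, [nat_lit 10, nat_lit 5, nat_lit 5, nat_lit 20], false, nat_lit 0, nat_lit 0, nat_lit 0, nat_lit 0, ⟨nat_lit 1000, nat_lit 0, nat_lit 0, nat_lit 0, nat_lit 0, nat_lit 0, nat_lit 0, nat_lit 0, nat_lit 0, nat_lit 0, nat_lit 0, nat_lit 0, nat_lit 0, nat_lit 0, nat_lit 0, nat_lit 0, false, false⟩,
 nat_lit 0, nat_lit 0, nat_lit 0, nat_lit 0, nat_lit 0, nat_lit 0, nat_lit 0, nat_lit 0, nat_lit 473, nat_lit 19219, nat_lit 0, nat_lit 0, nat_lit 0, nat_lit 400000000000000, nat_lit 0, nat_lit 0, nat_lit 0, nat_lit 0, [],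
 ⟨p022_k12, nat_lit 0, nat_lit 0, nat_lit 0, nat_lit 0, nat_lit 1488578, [nat_lit 2032000001, nat_lit 4688000000], [], [nat_lit 15008984000, nat_lit 15037198050, nat_lit 15499280000, nat_lit 15529767625], nat_lit 1271250, nat_lit 1271250, nat_lit 1271250, nat_lit 1271250, nat_lit 0, nat_lit 0, [nat_lit 490000, nat_lit 1100000], [nat_lit 24, nat_lit 40, nat_lit 80, nat_lit 80]⟩, ⟨p022_k12, nat_lit 0, nat_lit 0, nat_lit 87, nat_lit 0, nat_lit 0, [nat_lit 2032000000, nat_lit 4688000000], [], [nat_lit 25509260000, nat_lit 25545781000, nat_lit 26075238000, nat_lit 26111016450], nat_lit 0, nat_lit 0, nat_lit 0, nat_lit 0, nat_lit 0, nat_lit 0, [], [nat_lit 24, nat_lit 40, nat_lit 80, nat_lit 80, nat_lit 33, nat_lit 203, nat_lit 0, nat_lit 8]⟩,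
 zbF0, []⟩
noncomputable def p022_l186 : Lf2 := ⟨nat_lit 0, nat_lit 2, [nat_lit 10, nat_lit 5, nat_lit 5, nat_lit 20], false, nat_lit 0, nat_lit 0, nat_lit 0, nat_lit 0, ⟨nat_lit 1000, nat_lit 0, nat_lit 0, nat_lit 0, nat_lit 0, nat_lit 0, nat_lit 0, nat_lit 0, nat_lit 0, nat_lit 0, nat_lit 0, nat_lit 0, nat_lit 0, nat_lit 0, nat_lit 0, nat_lit 0, false, false⟩,
 nat_lit 0, nat_lit 0, nat_lit 0, nat_lit 0, nat_lit 0, nat_lit 0, nat_lit 0, nat_lit 0, nat_lit 465, nat_lit 1752, nat_lit 0, nat_lit 0, nat_lit 0, nat_lit 400000000000000, nat_lit 0, nat_lit 0, nat_lit 0, nat_lit 0, [],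
 ⟨p022_k12, nat_lit 0, nat_lit 0, nat_lit 0, nat_lit 0, nat_lit 1488578, [nat_lit 2032000001, nat_lit 4688000000], [], [nat_lit 15520984000, nat_lit 15549198050, nat_lit 15982754000, nat_lit 16010515275], nat_lit 1271250, nat_lit 1271250, nat_lit 1271250, nat_lit 1271250, nat_lit 0, nat_lit 0, [nat_lit 490000, nat_lit 1100000], [nat_lit 24, nat_lit 40, nat_lit 80, nat_lit 80]⟩, ⟨p022_k12, nat_lit 0, nat_lit 0, nat_lit 87, nat_lit 0, nat_lit 0, [nat_lit 2032000000, nat_lit 4688000000], [], [nat_lit 25509260000, nat_lit 25545781000, nat_lit 26075238000, nat_lit 26111016450], nat_lit 0, nat_lit 0, nat_lit 0, nat_lit 0, nat_lit 0, nat_lit 0, [], [nat_lit 24, nat_lit 40, nat_lit 80, nat_lit 80, nat_lit 33, nat_lit 203, nat_lit 0, nat_lit 8]⟩,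
 zbF0, []⟩
noncomputable def p022_l187 : Lf2 := ⟨nat_lit 0, nat_lit 2, [nat_lit 10, nat_lit 5, nat_lit 5, nat_lit 20], false, nat_lit 0, nat_lit 0, nat_lit 0, nat_lit 0, ⟨nat_lit 1000, nat_lit 0, nat_lit 0, nat_lit 0, nat_lit 0, nat_lit 0, nat_lit 0, nat_lit 0, nat_lit 0, nat_lit 0, nat_lit 0, nat_lit 0, nat_lit 0, nat_lit 0, nat_lit 0, nat_lit 0, false, false⟩,
 nat_lit 0, nat_lit 0, nat_lit 0, nat_lit 0, nat_lit 0, nat_lit 4038, nat_lit 0, nat_lit 0, nat_lit 448, nat_lit 0, nat_lit 0, nat_lit 0, nat_lit 0, nat_lit 4884073602120, nat_lit 0, nat_lit 0, nat_lit 0, nat_lit 0, [],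
 ⟨p022_k12, nat_lit 0, nat_lit 0, nat_lit 0, nat_lit 0, nat_lit 1488578, [nat_lit 2032000001, nat_lit 4688000000], [], [nat_lit 17000860000, nat_lit 17024573450, nat_lit 17399862000, nat_lit 17423254725], nat_lit 1271250, nat_lit 1271250, nat_lit 1271250, nat_lit 1271250, nat_lit 0, nat_lit 0, [nat_lit 490000, nat_lit 1100000], [nat_lit 24, nat_lit 40, nat_lit 80, nat_lit 80]⟩, ⟨p022_k12, nat_lit 0, nat_lit 0, nat_lit 87, nat_lit 0, nat_lit 0, [nat_lit 2032000000, nat_lit 4688000000], [], [nat_lit 22535563736, nat_lit 22618928273, nat_lit 23284471210, nat_lit 23364894165], nat_lit 0, nat_lit 0, nat_lit 0, nat_lit 0, nat_lit 0, nat_lit 0, [], [nat_lit 24, nat_lit 40, nat_lit 80, nat_lit 80, nat_lit 33, nat_lit 203, nat_lit 0, nat_lit 8]⟩,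
 zbF0, []⟩
noncomputable def p022_l188 : Lf2 := ⟨nat_lit 0, nat_lit 2, [nat_lit 10, nat_lit 5, nat_lit 5, nat_lit 20], false, nat_lit 0, nat_lit 0, nat_lit 0, nat_lit 0, ⟨nat_lit 1000, nat_lit 0, nat_lit 0, nat_lit 0, nat_lit 0, nat_lit 0, nat_lit 0, nat_lit 0, nat_lit 0, nat_lit 0, nat_lit 0, nat_lit 0, nat_lit 0, nat_lit 0, nat_lit 0, nat_lit 0, false, false⟩,
 nat_lit 0, nat_lit 0, nat_lit 0, nat_lit 0, nat_lit 0, nat_lit 4038, nat_lit 0, nat_lit 0, nat_lit 440, nat_lit 0, nat_lit 0, nat_lit 0, nat_lit 0, nat_lit 4884073602120, nat_lit 0, nat_lit 0, nat_lit 0, nat_lit 0, [],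
 ⟨p022_k12, nat_lit 0, nat_lit 0, nat_lit 0, nat_lit 0, nat_lit 1488578, [nat_lit 2032000001, nat_lit 4688000000], [], [nat_lit 17888932000, nat_lit 17910842600, nat_lit 18261618000, nat_lit 18283254950], nat_lit 1271250, nat_lit 1271250, nat_lit 1271250, nat_lit 1271250, nat_lit 0, nat_lit 0, [nat_lit 490000, nat_lit 1100000], [nat_lit 24, nat_lit 40, nat_lit 80, nat_lit 80]⟩, ⟨p022_k12, nat_lit 0, nat_lit 0, nat_lit 87, nat_lit 0, nat_lit 0, [nat_lit 2032000000, nat_lit 4688000000], [], [nat_lit 22535563736, nat_lit 22618928273, nat_lit 23284471210, nat_lit 23364894165], nat_lit 0, nat_lit 0, nat_lit 0, nat_lit 0, nat_lit 0, nat_lit 0, [], [nat_lit 24, nat_lit 40, nat_lit 80, nat_lit 80, nat_lit 33, nat_lit 203, nat_lit 0, nat_lit 8]⟩,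
 zbF0, []⟩
noncomputable def p022_l189 : Lf2 := ⟨nat_lit 0, nat_lit 2, [nat_lit 10, nat_lit 5, nat_lit 5, nat_lit 20], false, nat_lit 0, nat_lit 0, nat_lit 0, nat_lit 0, ⟨nat_lit 1000, nat_lit 0, nat_lit 0, nat_lit 0, nat_lit 0, nat_lit 0, nat_lit 0, nat_lit 0, nat_lit 0, nat_lit 0, nat_lit 0, nat_lit 0, nat_lit 0, nat_lit 0, nat_lit 0, nat_lit 0, false, false⟩,
 nat_lit 0, nat_lit 8809, nat_lit 0, nat_lit 0, nat_lit 6606, nat_lit 4032, nat_lit 0, nat_lit 0, nat_lit 0, nat_lit 1090, nat_lit 0, nat_lit 0, nat_lit 0, nat_lit 0, nat_lit 0, nat_lit 0, nat_lit 0, nat_lit 0, [],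
 ⟨p022_k12, nat_lit 0, nat_lit 0, nat_lit 650, nat_lit 0, nat_lit 1488578, [nat_lit 2032000001, nat_lit 4688000000], [], [nat_lit 35561347105, nat_lit 35589755083, nat_lit 35721718738, nat_lit 35751280723], nat_lit 1271250, nat_lit 1271250, nat_lit 1271250, nat_lit 1271250, nat_lit 0, nat_lit 0, [nat_lit 490000, nat_lit 1100000], [nat_lit 24, nat_lit 40, nat_lit 80, nat_lit 80, nat_lit 33, nat_lit 231, nat_lit 0, nat_lit 10]⟩, ⟨p022_k51, nat_lit 0, nat_lit 0, nat_lit 0, nat_lit 0, nat_lit 0, [nat_lit 2032000000, nat_lit 3282000000, nat_lit 4688000000], [], [nat_lit 20445138554, nat_lit 20523899190, nat_lit 21226325944, nat_lit 21311575832], nat_lit 0, nat_lit 0, nat_lit 0, nat_lit 0, nat_lit 0, nat_lit 0, [], [nat_lit 78, nat_lit 40, nat_lit 80, nat_lit 80]⟩,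
 zbF0, []⟩
noncomputable def p022_l190 : Lf2 := ⟨nat_lit 3, nat_lit 2, [nat_lit 10, nat_lit 5, nat_lit 5, nat_lit 20], false, nat_lit 0, nat_lit 0, nat_lit 0, nat_lit 0, zbN0,
 nat_lit 0, nat_lit 0, nat_lit 0, nat_lit 0, nat_lit 0, nat_lit 0, nat_lit 0, nat_lit 0, nat_lit 0, nat_lit 0, nat_lit 0, nat_lit 0, nat_lit 0, nat_lit 0, nat_lit 0, nat_lit 0, nat_lit 0, nat_lit 0, [],
 C1.Rw.none, ⟨p022_k12, nat_lit 0, nat_lit 0, nat_lit 0, nat_lit 0, nat_lit 0, [], [], [], nat_lit 0, nat_lit 0, nat_lit 0, nat_lit 0, nat_lit 0, nat_lit 0, [], [nat_lit 24, nat_lit 40, nat_lit 80, nat_lit 80]⟩,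
 zbF0, []⟩
noncomputable def p022_l191 : Lf2 := ⟨nat_lit 3, nat_lit 2, [nat_lit 10, nat_lit 5, nat_lit 5, nat_lit 20], false, nat_lit 0, nat_lit 0, nat_lit 0, nat_lit 0, zbN0,
 nat_lit 0, nat_lit 0, nat_lit 0, nat_lit 0, nat_lit 0, nat_lit 0, nat_lit 0, nat_lit 0, nat_lit 0, nat_lit 0, nat_lit 0, nat_lit 0, nat_lit 0, nat_lit 0, nat_lit 0, nat_lit 0, nat_lit 0, nat_lit 0, [],
 C1.Rw.none, ⟨p022_k12, nat_lit 0, nat_lit 0, nat_lit 87, nat_lit 0, nat_lit 0, [], [], [], nat_lit 0, nat_lit 0, nat_lit 0, nat_lit 0, nat_lit 0, nat_lit 0, [], [nat_lit 24, nat_lit 40, nat_lit 80, nat_lit 80, nat_lit 33, nat_lit 203, nat_lit 0, nat_lit 8]⟩,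
 zbF0, []⟩
noncomputable def p022_l192 : Lf2 := ⟨nat_lit 0, nat_lit 2, [nat_lit 10, nat_lit 5, nat_lit 5, nat_lit 20], false, nat_lit 0, nat_lit 0, nat_lit 0, nat_lit 0, ⟨nat_lit 1000, nat_lit 0, nat_lit 0, nat_lit 0, nat_lit 0, nat_lit 0, nat_lit 0, nat_lit 0, nat_lit 0, nat_lit 0, nat_lit 0, nat_lit 0, nat_lit 0, nat_lit 0, nat_lit 0, nat_lit 0, false, false⟩,
 nat_lit 0, nat_lit 0, nat_lit 0, nat_lit 0, nat_lit 0, nat_lit 0, nat_lit 0, nat_lit 0, nat_lit 489, nat_lit 19737, nat_lit 0, nat_lit 0, nat_lit 0, nat_lit 400000000000000, nat_lit 0, nat_lit 0, nat_lit 0, nat_lit 0, [],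
 ⟨p022_k12, nat_lit 0, nat_lit 0, nat_lit 0, nat_lit 0, nat_lit 1488578, [nat_lit 2032000001, nat_lit 4688000000], [], [nat_lit 14930302000, nat_lit 14970358125, nat_lit 15053840000, nat_lit 15095110460], nat_lit 1271250, nat_lit 1271250, nat_lit 1271250, nat_lit 1271250, nat_lit 0, nat_lit 0, [nat_lit 490000, nat_lit 1100000], [nat_lit 24, nat_lit 40, nat_lit 80, nat_lit 80]⟩, ⟨p022_k12, nat_lit 0, nat_lit 0, nat_lit 88, nat_lit 0, nat_lit 0, [nat_lit 2032000000, nat_lit 4688000000], [], [nat_lit 26075238000, nat_lit 26111016450, nat_lit 26188433600, nat_lit 26224063540], nat_lit 0, nat_lit 0, nat_lit 0, nat_lit 0, nat_lit 0, nat_lit 0, [], [nat_lit 24, nat_lit 40, nat_lit 80, nat_lit 80, nat_lit 33, nat_lit 203, nat_lit 0, nat_lit 8]⟩,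
 zbF0, []⟩
noncomputable def p022_l193 : Lf2 := ⟨nat_lit 0, nat_lit 2, [nat_lit 10, nat_lit 5, nat_lit 5, nat_lit 20], false, nat_lit 0, nat_lit 0, nat_lit 0, nat_lit 0, ⟨nat_lit 1000, nat_lit 0, nat_lit 0, nat_lit 0, nat_lit 0, nat_lit 0, nat_lit 0, nat_lit 0, nat_lit 0, nat_lit 0, nat_lit 0, nat_lit 0, nat_lit 0, nat_lit 0, nat_lit 0, nat_lit 0, false, false⟩,
 nat_lit 0, nat_lit 0, nat_lit 0, nat_lit 0, nat_lit 0, nat_lit 0, nat_lit 0, nat_lit 0, nat_lit 539, nat_lit 331, nat_lit 0, nat_lit 0, nat_lit 0, nat_lit 400000000000000, nat_lit 0, nat_lit 0, nat_lit 0, nat_lit 0, [],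
 ⟨p022_k12, nat_lit 0, nat_lit 0, nat_lit 0, nat_lit 0, nat_lit 1488578, [nat_lit 2032000001, nat_lit 4688000000], [], [nat_lit 11304099001, nat_lit 11333378076, nat_lit 11400728801, nat_lit 11430516942], nat_lit 1271250, nat_lit 1271250, nat_lit 1271250, nat_lit 1271250, nat_lit 0, nat_lit 0, [nat_lit 490000, nat_lit 1100000], [nat_lit 24, nat_lit 40, nat_lit 80, nat_lit 80]⟩, ⟨p022_k12, nat_lit 0, nat_lit 0, nat_lit 88, nat_lit 0, nat_lit 0, [nat_lit 2032000000, nat_lit 4688000000], [], [nat_lit 26075238000, nat_lit 26111016450, nat_lit 26188433600, nat_lit 26224063540], nat_lit 0, nat_lit 0, nat_lit 0, nat_lit 0, nat_lit 0, nat_lit 0, [], [nat_lit 24, nat_lit 40, nat_lit 80, nat_lit 80, nat_lit 33, nat_lit 203, nat_lit 0, nat_lit 8]⟩,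
 zbF0, []⟩
noncomputable def p022_l194 : Lf2 := ⟨nat_lit 0, nat_lit 2, [nat_lit 10, nat_lit 5, nat_lit 5, nat_lit 20], false, nat_lit 0, nat_lit 0, nat_lit 0, nat_lit 0, ⟨nat_lit 1000, nat_lit 0, nat_lit 0, nat_lit 0, nat_lit 0, nat_lit 0, nat_lit 0, nat_lit 0, nat_lit 0, nat_lit 0, nat_lit 0, nat_lit 0, nat_lit 0, nat_lit 0, nat_lit 0, nat_lit 0, false, false⟩,
 nat_lit 0, nat_lit 0, nat_lit 0, nat_lit 0, nat_lit 0, nat_lit 4018, nat_lit 0, nat_lit 0, nat_lit 446, nat_lit 0, nat_lit 0, nat_lit 0, nat_lit 0, nat_lit 4644671381656, nat_lit 0, nat_lit 0, nat_lit 0, nat_lit 0, [],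
 ⟨p022_k12, nat_lit 0, nat_lit 0, nat_lit 0, nat_lit 0, nat_lit 1488578, [nat_lit 2032000001, nat_lit 4688000000], [], [nat_lit 17591862000, nat_lit 17615254725, nat_lit 17671662400, nat_lit 17694990980], nat_lit 1271250, nat_lit 1271250, nat_lit 1271250, nat_lit 1271250, nat_lit 0, nat_lit 0, [nat_lit 490000, nat_lit 1100000], [nat_lit 24, nat_lit 40, nat_lit 80, nat_lit 80]⟩, ⟨p022_k12, nat_lit 0, nat_lit 0, nat_lit 88, nat_lit 0, nat_lit 0, [nat_lit 2032000000, nat_lit 4688000000], [], [nat_lit 23281892256, nat_lit 23362054776, nat_lit 23431511936, nat_lit 23511085184], nat_lit 0, nat_lit 0, nat_lit 0, nat_lit 0, nat_lit 0, nat_lit 0, [], [nat_lit 24, nat_lit 40, nat_lit 80, nat_lit 80, nat_lit 33, nat_lit 203, nat_lit 0, nat_lit 8]⟩,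
 zbF0, []⟩
noncomputable def p022_l195 : Lf2 := ⟨nat_lit 0, nat_lit 2, [nat_lit 10, nat_lit 5, nat_lit 5, nat_lit 20], false, nat_lit 0, nat_lit 0, nat_lit 0, nat_lit 0, ⟨nat_lit 1000, nat_lit 0, nat_lit 0, nat_lit 0, nat_lit 0, nat_lit 0, nat_lit 0, nat_lit 0, nat_lit 0, nat_lit 0, nat_lit 0, nat_lit 0, nat_lit 0, nat_lit 0, nat_lit 0, nat_lit 0, false, false⟩,
 nat_lit 0, nat_lit 0, nat_lit 0, nat_lit 0, nat_lit 0, nat_lit 4018, nat_lit 0, nat_lit 0, nat_lit 438, nat_lit 0, nat_lit 0, nat_lit 0, nat_lit 0, nat_lit 4644671381656, nat_lit 0, nat_lit 0, nat_lit 0, nat_lit 0, [],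
 ⟨p022_k12, nat_lit 0, nat_lit 0, nat_lit 0, nat_lit 0, nat_lit 1488578, [nat_lit 2032000001, nat_lit 4688000000], [], [nat_lit 18488956000, nat_lit 18509061000, nat_lit 18560155200, nat_lit 18581737420], nat_lit 1271250, nat_lit 1271250, nat_lit 1271250, nat_lit 1271250, nat_lit 0, nat_lit 0, [nat_lit 490000, nat_lit 1100000], [nat_lit 24, nat_lit 40, nat_lit 80, nat_lit 80]⟩, ⟨p022_k12, nat_lit 0, nat_lit 0, nat_lit 88, nat_lit 0, nat_lit 0, [nat_lit 2032000000, nat_lit 4688000000], [], [nat_lit 23281892256, nat_lit 23362054776, nat_lit 23431511936, nat_lit 23511085184], nat_lit 0, nat_lit 0, nat_lit 0, nat_lit 0, nat_lit 0, nat_lit 0, [], [nat_lit 24, nat_lit 40, nat_lit 80, nat_lit 80, nat_lit 33, nat_lit 203, nat_lit 0, nat_lit 8]⟩,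
 zbF0, []⟩
noncomputable def p022_l196 : Lf2 := ⟨nat_lit 0, nat_lit 2, [nat_lit 10, nat_lit 5, nat_lit 5, nat_lit 20], false, nat_lit 0, nat_lit 0, nat_lit 0, nat_lit 0, ⟨nat_lit 1000, nat_lit 0, nat_lit 0, nat_lit 0, nat_lit 0, nat_lit 0, nat_lit 0, nat_lit 0, nat_lit 0, nat_lit 0, nat_lit 0, nat_lit 0, nat_lit 0, nat_lit 0, nat_lit 0, nat_lit 0, false, false⟩,
 nat_lit 0, nat_lit 8751, nat_lit 0, nat_lit 0, nat_lit 6563, nat_lit 3962, nat_lit 0, nat_lit 0, nat_lit 0, nat_lit 1093, nat_lit 0, nat_lit 0, nat_lit 0, nat_lit 0, nat_lit 0, nat_lit 0, nat_lit 0, nat_lit 0, [],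
 ⟨p022_k12, nat_lit 0, nat_lit 0, nat_lit 647, nat_lit 0, nat_lit 1488578, [nat_lit 2032000001, nat_lit 4688000000], [], [nat_lit 35976751977, nat_lit 36004056872, nat_lit 36007341394, nat_lit 36036616109], nat_lit 1271250, nat_lit 1271250, nat_lit 1271250, nat_lit 1271250, nat_lit 0, nat_lit 0, [nat_lit 490000, nat_lit 1100000], [nat_lit 24, nat_lit 40, nat_lit 80, nat_lit 80, nat_lit 33, nat_lit 230, nat_lit 0, nat_lit 10]⟩, ⟨p022_k51, nat_lit 0, nat_lit 0, nat_lit 0, nat_lit 0, nat_lit 0, [nat_lit 2032000000, nat_lit 3282000000, nat_lit 4688000000], [], [nat_lit 21220214529, nat_lit 21296046907, nat_lit 21370946420, nat_lit 21452597898], nat_lit 0, nat_lit 0, nat_lit 0, nat_lit 0, nat_lit 0, nat_lit 0, [], [nat_lit 78, nat_lit 40, nat_lit 80, nat_lit 80]⟩,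
 zbF0, []⟩
noncomputable def p022_l197 : Lf2 := ⟨nat_lit 3, nat_lit 2, [nat_lit 10, nat_lit 5, nat_lit 5, nat_lit 20], false, nat_lit 0, nat_lit 0, nat_lit 0, nat_lit 0, zbN0,
 nat_lit 0, nat_lit 0, nat_lit 0, nat_lit 0, nat_lit 0, nat_lit 0, nat_lit 0, nat_lit 0, nat_lit 0, nat_lit 0, nat_lit 0, nat_lit 0, nat_lit 0, nat_lit 0, nat_lit 0, nat_lit 0, nat_lit 0, nat_lit 0, [],
 C1.Rw.none, ⟨p022_k12, nat_lit 0, nat_lit 0, nat_lit 0, nat_lit 0, nat_lit 0, [], [], [], nat_lit 0, nat_lit 0, nat_lit 0, nat_lit 0, nat_lit 0, nat_lit 0, [], [nat_lit 24, nat_lit 40, nat_lit 80, nat_lit 80]⟩,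
 zbF0, []⟩
noncomputable def p022_l198 : Lf2 := ⟨nat_lit 3, nat_lit 2, [nat_lit 10, nat_lit 5, nat_lit 5, nat_lit 20], false, nat_lit 0, nat_lit 0, nat_lit 0, nat_lit 0, zbN0,
 nat_lit 0, nat_lit 0, nat_lit 0, nat_lit 0, nat_lit 0, nat_lit 0, nat_lit 0, nat_lit 0, nat_lit 0, nat_lit 0, nat_lit 0, nat_lit 0, nat_lit 0, nat_lit 0, nat_lit 0, nat_lit 0, nat_lit 0, nat_lit 0, [],
 C1.Rw.none, ⟨p022_k12, nat_lit 0, nat_lit 0, nat_lit 88, nat_lit 0, nat_lit 0, [], [], [], nat_lit 0, nat_lit 0, nat_lit 0, nat_lit 0, nat_lit 0, nat_lit 0, [], [nat_lit 24, nat_lit 40, nat_lit 80, nat_lit 80, nat_lit 33, nat_lit 203, nat_lit 0, nat_lit 8]⟩,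
 zbF0, []⟩
noncomputable def p022_l199 : Lf2 := ⟨nat_lit 0, nat_lit 2, [nat_lit 10, nat_lit 5, nat_lit 5, nat_lit 20], false, nat_lit 0, nat_lit 0, nat_lit 0, nat_lit 0, ⟨nat_lit 1000, nat_lit 0, nat_lit 0, nat_lit 0, nat_lit 0, nat_lit 0, nat_lit 0, nat_lit 0, nat_lit 0, nat_lit 0, nat_lit 0, nat_lit 0, nat_lit 0, nat_lit 0, nat_lit 0, nat_lit 0, false, false⟩,
 nat_lit 0, nat_lit 8739, nat_lit 0, nat_lit 0, nat_lit 6554, nat_lit 4008, nat_lit 0, nat_lit 0, nat_lit 0, nat_lit 0, nat_lit 0, nat_lit 0, nat_lit 0, nat_lit 0, nat_lit 0, nat_lit 0, nat_lit 0, nat_lit 0, [],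
 ⟨p022_k12, nat_lit 0, nat_lit 0, nat_lit 647, nat_lit 0, nat_lit 1488578, [nat_lit 2032000001, nat_lit 4688000000], [], [nat_lit 36062680424, nat_lit 36089765533, nat_lit 36126119243, nat_lit 36154930384], nat_lit 1271250, nat_lit 1271250, nat_lit 1271250, nat_lit 1271250, nat_lit 0, nat_lit 0, [nat_lit 490000, nat_lit 1100000], [nat_lit 24, nat_lit 40, nat_lit 80, nat_lit 80, nat_lit 33, nat_lit 231, nat_lit 0, nat_lit 10]⟩, ⟨p022_k12, nat_lit 0, nat_lit 0, nat_lit 89, nat_lit 0, nat_lit 0, [nat_lit 2032000000, nat_lit 4688000000], [], [nat_lit 23435081889, nat_lit 23510071350, nat_lit 23729284528, nat_lit 23807482150], nat_lit 0, nat_lit 0, nat_lit 0, nat_lit 0, nat_lit 0, nat_lit 0, [], [nat_lit 24, nat_lit 40, nat_lit 80, nat_lit 80, nat_lit 33, nat_lit 203, nat_lit 0, nat_lit 8]⟩,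
 zbF0, []⟩
noncomputable def p022_l200 : Lf2 := ⟨nat_lit 0, nat_lit 2, [nat_lit 10, nat_lit 5, nat_lit 5, nat_lit 20], false, nat_lit 0, nat_lit 0, nat_lit 0, nat_lit 0, ⟨nat_lit 1000, nat_lit 0, nat_lit 0, nat_lit 0, nat_lit 0, nat_lit 0, nat_lit 0, nat_lit 0, nat_lit 0, nat_lit 0, nat_lit 0, nat_lit 0, nat_lit 0, nat_lit 0, nat_lit 0, nat_lit 0, false, false⟩,
 nat_lit 0, nat_lit 8716, nat_lit 0, nat_lit 0, nat_lit 6537, nat_lit 4000, nat_lit 0, nat_lit 0, nat_lit 0, nat_lit 0, nat_lit 0, nat_lit 0, nat_lit 0, nat_lit 0, nat_lit 0, nat_lit 0, nat_lit 0, nat_lit 0, [],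
 ⟨p022_k12, nat_lit 0, nat_lit 0, nat_lit 646, nat_lit 0, nat_lit 1488578, [nat_lit 2032000001, nat_lit 4688000000], [], [nat_lit 36228498555, nat_lit 36255146568, nat_lit 36292350828, nat_lit 36320689012], nat_lit 1271250, nat_lit 1271250, nat_lit 1271250, nat_lit 1271250, nat_lit 0, nat_lit 0, [nat_lit 490000, nat_lit 1100000], [nat_lit 24, nat_lit 40, nat_lit 80, nat_lit 80, nat_lit 33, nat_lit 232, nat_lit 0, nat_lit 10]⟩, ⟨p022_k12, nat_lit 0, nat_lit 0, nat_lit 89, nat_lit 0, nat_lit 0, [nat_lit 2032000000, nat_lit 4688000000], [], [nat_lit 23732920801, nat_lit 23806660201, nat_lit 24027072000, nat_lit 24103918900], nat_lit 0, nat_lit 0, nat_lit 0, nat_lit 0, nat_lit 0, nat_lit 0, [], [nat_lit 24, nat_lit 40, nat_lit 80, nat_lit 80, nat_lit 33, nat_lit 203, nat_lit 0, nat_lit 8]⟩,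
 zbF0, []⟩
noncomputable def b_N_800_800_0_1 : St := ⟨false, nat_lit 1, nat_lit 0, nat_lit 1, nat_lit 40, nat_lit 320, nat_lit 321, nat_lit 320, nat_lit 322, nat_lit 140, nat_lit 240, nat_lit 0, nat_lit 0, nat_lit 0, nat_lit 0, nat_lit 0, nat_lit 0, nat_lit 4, nat_lit 8, nat_lit 0, nat_lit 0, nat_lit 0, nat_lit 0⟩
theorem d_N_800_800_0_1 (h : EB TB.env) : Dead b_N_800_800_0_1 := chkB_sound0 h (T :=
(.ord (.spl (nat_lit 2) (nat_lit 200)
(.spl (nat_lit 7) (nat_lit 600)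
(.leaf p022_l168)
(.spl (nat_lit 7) (nat_lit 900)
(.leaf p022_l169)
(.spl (nat_lit 7) (nat_lit 1060)
(.leaf p022_l170)
(.spl (nat_lit 8) (nat_lit 800)
(.spl (nat_lit 8) (nat_lit 400)
(.spl (nat_lit 8) (nat_lit 200)
(.spl (nat_lit 7) (nat_lit 1220)
(.spl (nat_lit 2) (nat_lit 160)
(.spl (nat_lit 2) (nat_lit 152)
(.spl (nat_lit 8) (nat_lit 100)
(.leaf p022_l171)
(.spl (nat_lit 7) (nat_lit 1140)
(.leaf p022_l172)
(.spl (nat_lit 7) (nat_lit 1180)
(.leaf p022_l173)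
(.spl (nat_lit 7) (nat_lit 1200)
(.leaf p022_l174)
(.leaf p022_l175)))))
(.spl (nat_lit 2) (nat_lit 156)
(.spl (nat_lit 7) (nat_lit 1140)
(.leaf p022_l176)
(.leaf p022_l177))
(.leaf p022_l178)))
(.leaf p022_l179))
(.spl (nat_lit 7) (nat_lit 1380)
(.leaf p022_l180)
(.leaf p022_l181)))
(.leaf p022_l182))
(.leaf p022_l183))
(.leaf p022_l184)))))
(.spl (nat_lit 2) (nat_lit 220)
(.spl (nat_lit 7) (nat_lit 600)
(.leaf p022_l185)
(.spl (nat_lit 7) (nat_lit 900)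
(.leaf p022_l186)
(.spl (nat_lit 7) (nat_lit 1060)
(.leaf p022_l187)
(.spl (nat_lit 7) (nat_lit 1220)
(.leaf p022_l188)
(.spl (nat_lit 8) (nat_lit 800)
(.spl (nat_lit 8) (nat_lit 400)
(.leaf p022_l189)
(.leaf p022_l190))
(.leaf p022_l191))))))
(.spl (nat_lit 2) (nat_lit 232)
(.spl (nat_lit 2) (nat_lit 224)
(.spl (nat_lit 7) (nat_lit 600)
(.leaf p022_l192)
(.spl (nat_lit 7) (nat_lit 900)
(.leaf p022_l193)
(.spl (nat_lit 7) (nat_lit 1060)
(.leaf p022_l194)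
(.spl (nat_lit 7) (nat_lit 1220)
(.leaf p022_l195)
(.spl (nat_lit 8) (nat_lit 800)
(.spl (nat_lit 8) (nat_lit 400)
(.leaf p022_l196)
(.leaf p022_l197))
(.leaf p022_l198))))))
(.leaf p022_l199))
(.leaf p022_l200)))))) (by decide +kernel)
noncomputable def p022_l201 : Lf2 := ⟨nat_lit 0, nat_lit 2, [nat_lit 10, nat_lit 5, nat_lit 5, nat_lit 20], false, nat_lit 0, nat_lit 0, nat_lit 0, nat_lit 0, ⟨nat_lit 1000, nat_lit 0, nat_lit 0, nat_lit 0, nat_lit 0, nat_lit 0, nat_lit 0, nat_lit 0, nat_lit 0, nat_lit 0, nat_lit 0, nat_lit 0, nat_lit 0, nat_lit 0, nat_lit 0, nat_lit 0, false, false⟩,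
 nat_lit 0, nat_lit 0, nat_lit 0, nat_lit 0, nat_lit 0, nat_lit 0, nat_lit 18029, nat_lit 0, nat_lit 428, nat_lit 0, nat_lit 0, nat_lit 0, nat_lit 0, nat_lit 400000000000000, nat_lit 0, nat_lit 0, nat_lit 0, nat_lit 0, [],
 ⟨p022_k52, nat_lit 0, nat_lit 0, nat_lit 0, nat_lit 0, nat_lit 1496264, [nat_lit 2032000001, nat_lit 4688000000], [], [nat_lit 12720371688, nat_lit 12751488968, nat_lit 14346596450, nat_lit 14389022900], nat_lit 1271250, nat_lit 1271250, nat_lit 968401, nat_lit 1439500, nat_lit 0, nat_lit 0, [nat_lit 490000, nat_lit 1100000], [nat_lit 24, nat_lit 40, nat_lit 80, nat_lit 80]⟩, ⟨p022_k12, nat_lit 0, nat_lit 0, nat_lit 86, nat_lit 0, nat_lit 0, [nat_lit 2032000000, nat_lit 4688000000], [], [nat_lit 23986966400, nat_lit 24064032800, nat_lit 25509260000, nat_lit 25582302000], nat_lit 0, nat_lit 0, nat_lit 0, nat_lit 0, nat_lit 0, nat_lit 0, [], [nat_lit 24, nat_lit 40, nat_lit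 80, nat_lit 80, nat_lit 33, nat_lit 260, nat_lit 50, nat_lit 12]⟩,
 zbF0, []⟩
noncomputable def p022_l202 : Lf2 := ⟨nat_lit 0, nat_lit 2, [nat_lit 10, nat_lit 5, nat_lit 5, nat_lit 20], false, nat_lit 0, nat_lit 0, nat_lit 0, nat_lit 0, ⟨nat_lit 1000, nat_lit 0, nat_lit 0, nat_lit 0, nat_lit 0, nat_lit 0, nat_lit 0, nat_lit 0, nat_lit 0, nat_lit 0, nat_lit 0, nat_lit 0, nat_lit 0, nat_lit 0, nat_lit 0, nat_lit 0, false, false⟩,
 nat_lit 0, nat_lit 0, nat_lit 0, nat_lit 0, nat_lit 0, nat_lit 4038, nat_lit 0, nat_lit 0, nat_lit 464, nat_lit 0, nat_lit 0, nat_lit 0, nat_lit 0, nat_lit 387131642233948, nat_lit 0, nat_lit 0, nat_lit 0, nat_lit 0, [],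
 ⟨p022_k52, nat_lit 0, nat_lit 0, nat_lit 0, nat_lit 0, nat_lit 1496264, [nat_lit 2032000001, nat_lit 4688000000], [], [nat_lit 14452989380, nat_lit 14479825960, nat_lit 15620863700, nat_lit 15646659400], nat_lit 1271250, nat_lit 1271250, nat_lit 968401, nat_lit 1439500, nat_lit 0, nat_lit 0, [nat_lit 490000, nat_lit 1100000], [nat_lit 24, nat_lit 40, nat_lit 80, nat_lit 80]⟩, ⟨p022_k12, nat_lit 0, nat_lit 0, nat_lit 86, nat_lit 0, nat_lit 0, [nat_lit 2032000000, nat_lit 4688000000], [], [nat_lit 20852373604, nat_lit 21036394582, nat_lit 22535563736, nat_lit 22702544165], nat_lit 0, nat_lit 0, nat_lit 0, nat_lit 0, nat_lit 0, nat_lit 0, [], [nat_lit 24, nat_lit 40, nat_lit 80, nat_lit 80, nat_lit 33, nat_lit 260, nat_lit 50, nat_lit 12]⟩,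
 zbF0, [⟨nat_lit 0, nat_lit 83, nat_lit 82, nat_lit 100, nat_lit 348091967⟩]⟩
noncomputable def p022_l203 : Lf2 := ⟨nat_lit 0, nat_lit 2, [nat_lit 10, nat_lit 5, nat_lit 5, nat_lit 20], false, nat_lit 0, nat_lit 0, nat_lit 0, nat_lit 0, ⟨nat_lit 1000, nat_lit 0, nat_lit 0, nat_lit 0, nat_lit 0, nat_lit 0, nat_lit 0, nat_lit 0, nat_lit 0, nat_lit 0, nat_lit 0, nat_lit 0, nat_lit 0, nat_lit 0, nat_lit 0, nat_lit 0, false, false⟩,
 nat_lit 0, nat_lit 0, nat_lit 0, nat_lit 0, nat_lit 0, nat_lit 4038, nat_lit 0, nat_lit 0, nat_lit 452, nat_lit 0, nat_lit 0, nat_lit 0, nat_lit 0, nat_lit 0, nat_lit 0, nat_lit 0, nat_lit 0, nat_lit 0, [],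
 ⟨p022_k52, nat_lit 0, nat_lit 0, nat_lit 0, nat_lit 0, nat_lit 1496264, [nat_lit 2032000001, nat_lit 4688000000], [], [nat_lit 15550937880, nat_lit 15575532560, nat_lit 16640573450, nat_lit 16664286900], nat_lit 1271250, nat_lit 1271250, nat_lit 968401, nat_lit 1439500, nat_lit 0, nat_lit 0, [nat_lit 490000, nat_lit 1100000], [nat_lit 24, nat_lit 40, nat_lit 80, nat_lit 80]⟩, ⟨p022_k12, nat_lit 0, nat_lit 0, nat_lit 86, nat_lit 0, nat_lit 0, [nat_lit 2032000000, nat_lit 4688000000], [], [nat_lit 20852373604, nat_lit 21036394582, nat_lit 22535563736, nat_lit 22702544165], nat_lit 0, nat_lit 0, nat_lit 0, nat_lit 0, nat_lit 0, nat_lit 0, [], [nat_lit 24, nat_lit 40, nat_lit 80, nat_lit 80, nat_lit 33, nat_lit 260, nat_lit 50, nat_lit 12]⟩,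
 zbF0, [⟨nat_lit 0, nat_lit 83, nat_lit 83, nat_lit 100, nat_lit 355095267⟩]⟩
noncomputable def p022_l204 : Lf2 := ⟨nat_lit 0, nat_lit 2, [nat_lit 10, nat_lit 5, nat_lit 5, nat_lit 20], false, nat_lit 0, nat_lit 0, nat_lit 0, nat_lit 0, ⟨nat_lit 1000, nat_lit 0, nat_lit 0, nat_lit 0, nat_lit 0, nat_lit 0, nat_lit 0, nat_lit 0, nat_lit 0, nat_lit 0, nat_lit 0, nat_lit 0, nat_lit 0, nat_lit 0, nat_lit 0, nat_lit 0, false, false⟩,
 nat_lit 0, nat_lit 9016, nat_lit 0, nat_lit 0, nat_lit 6788, nat_lit 0, nat_lit 21018, nat_lit 0, nat_lit 0, nat_lit 0, nat_lit 0, nat_lit 497, nat_lit 0, nat_lit 15025807638140, nat_lit 0, nat_lit 0, nat_lit 0, nat_lit 0, [],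
 ⟨p022_k52, nat_lit 0, nat_lit 0, nat_lit 662, nat_lit 0, nat_lit 1496264, [nat_lit 2032000001, nat_lit 4688000000], [], [nat_lit 16954953467, nat_lit 16984099004, nat_lit 17341956165, nat_lit 17379513784], nat_lit 1271250, nat_lit 1271250, nat_lit 968401, nat_lit 1439500, nat_lit 0, nat_lit 0, [nat_lit 490000, nat_lit 1100000], [nat_lit 24, nat_lit 40, nat_lit 80, nat_lit 80, nat_lit 33, nat_lit 260, nat_lit 50, nat_lit 12]⟩, ⟨p022_k12, nat_lit 0, nat_lit 0, nat_lit 0, nat_lit 0, nat_lit 0, [nat_lit 2032000000, nat_lit 4688000000], [], [nat_lit 12660098400, nat_lit 12740656440, nat_lit 14304170000, nat_lit 14389022900], nat_lit 0, nat_lit 0, nat_lit 0, nat_lit 0, nat_lit 0, nat_lit 0, [], [nat_lit 24, nat_lit 40, nat_lit 80, nat_lit 80]⟩,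
 zbF0, [⟨nat_lit 0, nat_lit 82, nat_lit 82, nat_lit 100, nat_lit 457782901⟩]⟩
noncomputable def p022_l205 : Lf2 := ⟨nat_lit 0, nat_lit 2, [nat_lit 10, nat_lit 5, nat_lit 5, nat_lit 20], false, nat_lit 0, nat_lit 0, nat_lit 0, nat_lit 0, ⟨nat_lit 1000, nat_lit 0, nat_lit 0, nat_lit 0, nat_lit 0, nat_lit 0, nat_lit 0, nat_lit 0, nat_lit 0, nat_lit 0, nat_lit 0, nat_lit 0, nat_lit 0, nat_lit 0, nat_lit 0, nat_lit 0, false, false⟩,
 nat_lit 0, nat_lit 0, nat_lit 0, nat_lit 0, nat_lit 0, nat_lit 4058, nat_lit 0, nat_lit 0, nat_lit 392, nat_lit 0, nat_lit 0, nat_lit 0, nat_lit 0, nat_lit 0, nat_lit 0, nat_lit 0, nat_lit 0, nat_lit 0, [],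
 ⟨p022_k52, nat_lit 0, nat_lit 0, nat_lit 0, nat_lit 0, nat_lit 1496264, [nat_lit 2032000001, nat_lit 4688000000], [], [nat_lit 22268217941, nat_lit 22290107881, nat_lit 22404652170, nat_lit 22427212740], nat_lit 1271250, nat_lit 1271250, nat_lit 968401, nat_lit 1033601, nat_lit 0, nat_lit 0, [nat_lit 490000, nat_lit 1100000], [nat_lit 24, nat_lit 40, nat_lit 80, nat_lit 80]⟩, ⟨p022_k12, nat_lit 0, nat_lit 0, nat_lit 0, nat_lit 0, nat_lit 0, [nat_lit 2032000000, nat_lit 4688000000], [], [nat_lit 20853390327, nat_lit 21038097099, nat_lit 20945592894, nat_lit 21127871114], nat_lit 0, nat_lit 0, nat_lit 0, nat_lit 0, nat_lit 0, nat_lit 0, [], [nat_lit 24, nat_lit 40, nat_lit 80, nat_lit 80]⟩,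
 zbF0, [⟨nat_lit 0, nat_lit 83, nat_lit 83, nat_lit 100, nat_lit 527950523⟩]⟩
noncomputable def p022_l206 : Lf2 := ⟨nat_lit 0, nat_lit 2, [nat_lit 10, nat_lit 5, nat_lit 5, nat_lit 20], true, nat_lit 0, nat_lit 0, nat_lit 0, nat_lit 0, ⟨nat_lit 0, nat_lit 0, nat_lit 1000, nat_lit 8, nat_lit 217, nat_lit 0, nat_lit 0, nat_lit 0, nat_lit 0, nat_lit 215, nat_lit 5920, nat_lit 232, nat_lit 51764245, nat_lit 0, nat_lit 0, nat_lit 2680572, false, false⟩,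
 nat_lit 0, nat_lit 100000, nat_lit 0, nat_lit 0, nat_lit 75293, nat_lit 0, nat_lit 37210, nat_lit 11691, nat_lit 0, nat_lit 0, nat_lit 0, nat_lit 0, nat_lit 0, nat_lit 400000000000000, nat_lit 0, nat_lit 1000000, nat_lit 0, nat_lit 0, [(nat_lit 18, [(nat_lit 6, nat_lit 1000)])],
 ⟨p022_k53, nat_lit 0, nat_lit 0, nat_lit 0, nat_lit 0, nat_lit 1496264, [nat_lit 94225066667, nat_lit 117296000001, nat_lit 163107999999], [], [nat_lit 879344834079, nat_lit 879651466651, nat_lit 878715654994, nat_lit 879018178026], nat_lit 1271250, nat_lit 1271250, nat_lit 968401, nat_lit 1033601, nat_lit 0, nat_lit 0, [nat_lit 490000, nat_lit 631250, nat_lit 936250], [nat_lit 164, nat_lit 40, nat_lit 20, nat_lit 40]⟩, C1.Rw.none,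
 ⟨nat_lit 4415, nat_lit 4445, ⟨.ofNat (nat_lit 534523), .ofNat (nat_lit 548084), .ofNat (nat_lit 536680), .ofNat (nat_lit 550241), .ofNat (nat_lit 534819), .ofNat (nat_lit 548345), .ofNat (nat_lit 536977), .ofNat (nat_lit 550504)⟩, ⟨.ofNat (nat_lit 0), .ofNat (nat_lit 0), .ofNat (nat_lit 0), .ofNat (nat_lit 0), .ofNat (nat_lit 0), .ofNat (nat_lit 0), .ofNat (nat_lit 0), .ofNat (nat_lit 0)⟩⟩, []⟩
noncomputable def p022_l207 : Lf2 := ⟨nat_lit 0, nat_lit 2, [nat_lit 10, nat_lit 5, nat_lit 5, nat_lit 20], false, nat_lit 0, nat_lit 0, nat_lit 0, nat_lit 0, ⟨nat_lit 1000, nat_lit 0, nat_lit 0, nat_lit 0, nat_lit 0, nat_lit 0, nat_lit 0, nat_lit 0, nat_lit 0, nat_lit 0, nat_lit 0, nat_lit 0, nat_lit 0, nat_lit 0, nat_lit 0, nat_lit 0, false, false⟩,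
 nat_lit 0, nat_lit 0, nat_lit 0, nat_lit 0, nat_lit 0, nat_lit 4051, nat_lit 0, nat_lit 0, nat_lit 392, nat_lit 0, nat_lit 0, nat_lit 0, nat_lit 0, nat_lit 0, nat_lit 0, nat_lit 0, nat_lit 0, nat_lit 0, [],
 ⟨p022_k52, nat_lit 0, nat_lit 0, nat_lit 0, nat_lit 0, nat_lit 1487293, [nat_lit 2032000001, nat_lit 4688000000], [], [nat_lit 22404652170, nat_lit 22427212740, nat_lit 22473335035, nat_lit 22495844271], nat_lit 1271250, nat_lit 1271250, nat_lit 1033601, nat_lit 1066650, nat_lit 0, nat_lit 0, [nat_lit 490000, nat_lit 1100000], [nat_lit 24, nat_lit 40, nat_lit 80, nat_lit 80]⟩, ⟨p022_k12, nat_lit 0, nat_lit 0, nat_lit 0, nat_lit 0, nat_lit 0, [nat_lit 2032000000, nat_lit 4688000000], [], [nat_lit 20951175890, nat_lit 21037042683, nat_lit 21005622811, nat_lit 21090992672], nat_lit 0, nat_lit 0, nat_lit 0, nat_lit 0, nat_lit 0, nat_lit 0, [], [nat_lit 24, nat_lit 40, nat_lit 80, nat_lit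 80]⟩,
 zbF0, []⟩
noncomputable def p022_l208 : Lf2 := ⟨nat_lit 0, nat_lit 2, [nat_lit 10, nat_lit 5, nat_lit 5, nat_lit 20], true, nat_lit 0, nat_lit 0, nat_lit 0, nat_lit 0, ⟨nat_lit 0, nat_lit 0, nat_lit 1000, nat_lit 8, nat_lit 221, nat_lit 0, nat_lit 0, nat_lit 0, nat_lit 0, nat_lit 215, nat_lit 7983, nat_lit 230, nat_lit 51346555, nat_lit 0, nat_lit 0, nat_lit 2718147, false, false⟩,
 nat_lit 0, nat_lit 100000, nat_lit 0, nat_lit 0, nat_lit 75293, nat_lit 0, nat_lit 60000, nat_lit 20000, nat_lit 0, nat_lit 0, nat_lit 0, nat_lit 0, nat_lit 0, nat_lit 0, nat_lit 0, nat_lit 985150, nat_lit 0, nat_lit 0, [(nat_lit 18, [(nat_lit 3, nat_lit 18), (nat_lit 6, nat_lit 982)])],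
 ⟨p022_k53, nat_lit 0, nat_lit 0, nat_lit 0, nat_lit 0, nat_lit 1487293, [nat_lit 160931767467, nat_lit 200387569600, nat_lit 279447665600], [], [nat_lit 1796539579760, nat_lit 1796828531595, nat_lit 1796198747854, nat_lit 1796485019740], nat_lit 1271250, nat_lit 1271250, nat_lit 1033601, nat_lit 1066650, nat_lit 0, nat_lit 0, [nat_lit 490000, nat_lit 631250, nat_lit 936250], [nat_lit 164, nat_lit 40, nat_lit 20, nat_lit 40]⟩, C1.Rw.none,
 ⟨nat_lit 4415, nat_lit 4445, ⟨.ofNat (nat_lit 548084), .ofNat (nat_lit 554864), .ofNat (nat_lit 549163), .ofNat (nat_lit 555943), .ofNat (nat_lit 548345), .ofNat (nat_lit 555109), .ofNat (nat_lit 549425), .ofNat (nat_lit 556188)⟩, ⟨.ofNat (nat_lit 0), .ofNat (nat_lit 0), .ofNat (nat_lit 0), .ofNat (nat_lit 0), .ofNat (nat_lit 0), .ofNat (nat_lit 0), .ofNat (nat_lit 0), .ofNat (nat_lit 0)⟩⟩, [⟨nat_lit 0, nat_lit 83, nat_lit 83, nat_lit 100, nat_lit 14515894905⟩]⟩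
noncomputable def p022_l209 : Lf2 := ⟨nat_lit 0, nat_lit 2, [nat_lit 10, nat_lit 5, nat_lit 5, nat_lit 20], false, nat_lit 0, nat_lit 0, nat_lit 0, nat_lit 0, ⟨nat_lit 1000, nat_lit 0, nat_lit 0, nat_lit 0, nat_lit 0, nat_lit 0, nat_lit 0, nat_lit 0, nat_lit 0, nat_lit 0, nat_lit 0, nat_lit 0, nat_lit 0, nat_lit 0, nat_lit 0, nat_lit 0, false, false⟩,
 nat_lit 0, nat_lit 0, nat_lit 0, nat_lit 0, nat_lit 0, nat_lit 4051, nat_lit 0, nat_lit 0, nat_lit 392, nat_lit 0, nat_lit 0, nat_lit 0, nat_lit 0, nat_lit 5307901220676, nat_lit 0, nat_lit 0, nat_lit 0, nat_lit 0, [],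
 ⟨p022_k52, nat_lit 0, nat_lit 0, nat_lit 0, nat_lit 0, nat_lit 1496264, [nat_lit 2032000001, nat_lit 4688000000], [], [nat_lit 22404652170, nat_lit 22427212740, nat_lit 22473335035, nat_lit 22495844271], nat_lit 1271250, nat_lit 1271250, nat_lit 1033601, nat_lit 1066650, nat_lit 0, nat_lit 0, [nat_lit 490000, nat_lit 1100000], [nat_lit 24, nat_lit 40, nat_lit 80, nat_lit 80]⟩, ⟨p022_k52, nat_lit 0, nat_lit 0, nat_lit 0, nat_lit 0, nat_lit 0, [nat_lit 2032000000, nat_lit 4688000000], [], [nat_lit 21037042683, nat_lit 21127459971, nat_lit 21090992672, nat_lit 21176362534], nat_lit 0, nat_lit 0, nat_lit 0, nat_lit 0, nat_lit 0, nat_lit 0, [], [nat_lit 24, nat_lit 40, nat_lit 80, nat_lit 80]⟩,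
 zbF0, []⟩
noncomputable def p022_l210 : Lf2 := ⟨nat_lit 0, nat_lit 2, [nat_lit 10, nat_lit 5, nat_lit 5, nat_lit 20], true, nat_lit 0, nat_lit 0, nat_lit 0, nat_lit 0, ⟨nat_lit 0, nat_lit 0, nat_lit 1000, nat_lit 8, nat_lit 221, nat_lit 0, nat_lit 0, nat_lit 0, nat_lit 0, nat_lit 215, nat_lit 4892, nat_lit 229, nat_lit 51299666, nat_lit 0, nat_lit 0, nat_lit 2722296, false, false⟩,
 nat_lit 0, nat_lit 100000, nat_lit 0, nat_lit 0, nat_lit 75293, nat_lit 0, nat_lit 41039, nat_lit 12747, nat_lit 0, nat_lit 0, nat_lit 0, nat_lit 0, nat_lit 0, nat_lit 400000000000000, nat_lit 0, nat_lit 1000000, nat_lit 0, nat_lit 0, [(nat_lit 18, [(nat_lit 6, nat_lit 1000)])],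
 ⟨p022_k53, nat_lit 0, nat_lit 0, nat_lit 0, nat_lit 0, nat_lit 1496264, [nat_lit 102673066667, nat_lit 127856000000, nat_lit 177892000000], [], [nat_lit 998263152108, nat_lit 998541364556, nat_lit 997924251349, nat_lit 998224008704], nat_lit 1271250, nat_lit 1271250, nat_lit 1033601, nat_lit 1066650, nat_lit 0, nat_lit 0, [nat_lit 490000, nat_lit 631250, nat_lit 936250], [nat_lit 164, nat_lit 40, nat_lit 20, nat_lit 40]⟩, C1.Rw.none,
 ⟨nat_lit 4415, nat_lit 4445, ⟨.ofNat (nat_lit 549163), .ofNat (nat_lit 555943), .ofNat (nat_lit 550241), .ofNat (nat_lit 557022), .ofNat (nat_lit 549425), .ofNat (nat_lit 556188), .ofNat (nat_lit 550504), .ofNat (nat_lit 557267)⟩, ⟨.ofNat (nat_lit 0), .ofNat (nat_lit 0), .ofNat (nat_lit 0), .ofNat (nat_lit 0), .ofNat (nat_lit 0), .ofNat (nat_lit 0), .ofNat (nat_lit 0), .ofNat (nat_lit 0)⟩⟩, []⟩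
noncomputable def p022_l211 : Lf2 := ⟨nat_lit 0, nat_lit 2, [nat_lit 10, nat_lit 5, nat_lit 5, nat_lit 20], false, nat_lit 0, nat_lit 0, nat_lit 0, nat_lit 0, ⟨nat_lit 1000, nat_lit 0, nat_lit 0, nat_lit 0, nat_lit 0, nat_lit 0, nat_lit 0, nat_lit 0, nat_lit 0, nat_lit 0, nat_lit 0, nat_lit 0, nat_lit 0, nat_lit 0, nat_lit 0, nat_lit 0, false, false⟩,
 nat_lit 0, nat_lit 0, nat_lit 0, nat_lit 0, nat_lit 0, nat_lit 4068, nat_lit 0, nat_lit 0, nat_lit 443, nat_lit 0, nat_lit 0, nat_lit 0, nat_lit 0, nat_lit 5317881712317, nat_lit 0, nat_lit 0, nat_lit 0, nat_lit 0, [],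
 ⟨p022_k52, nat_lit 0, nat_lit 0, nat_lit 0, nat_lit 0, nat_lit 1496264, [nat_lit 2032000001, nat_lit 4688000000], [], [nat_lit 16761335035, nat_lit 16783844271, nat_lit 16830017900, nat_lit 16852475800], nat_lit 1271250, nat_lit 1271250, nat_lit 1066650, nat_lit 1100001, nat_lit 0, nat_lit 0, [nat_lit 490000, nat_lit 1100000], [nat_lit 24, nat_lit 40, nat_lit 80, nat_lit 80]⟩, ⟨p022_k12, nat_lit 0, nat_lit 0, nat_lit 0, nat_lit 0, nat_lit 0, [nat_lit 2032000000, nat_lit 4688000000], [], [nat_lit 20991883081, nat_lit 21173213513, nat_lit 21046148976, nat_lit 21217968565], nat_lit 0, nat_lit 0, nat_lit 0, nat_lit 0, nat_lit 0, nat_lit 0, [], [nat_lit 24, nat_lit 40, nat_lit 80, nat_lit 80]⟩,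
 zbF0, []⟩
noncomputable def p022_l212 : Lf2 := ⟨nat_lit 2, nat_lit 2, [nat_lit 10, nat_lit 5, nat_lit 5, nat_lit 20], true, nat_lit 0, nat_lit 0, nat_lit 0, nat_lit 0, zbN0,
 nat_lit 0, nat_lit 0, nat_lit 0, nat_lit 0, nat_lit 0, nat_lit 0, nat_lit 0, nat_lit 0, nat_lit 0, nat_lit 0, nat_lit 0, nat_lit 0, nat_lit 0, nat_lit 0, nat_lit 0, nat_lit 0, nat_lit 0, nat_lit 0, [],
 ⟨p022_k53, nat_lit 0, nat_lit 0, nat_lit 0, nat_lit 0, nat_lit 1496264, [], [], [], nat_lit 1271250, nat_lit 1271250, nat_lit 968401, nat_lit 1100001, nat_lit 0, nat_lit 0, [nat_lit 490000, nat_lit 631250, nat_lit 936250], [nat_lit 164, nat_lit 40, nat_lit 20, nat_lit 40]⟩, C1.Rw.none,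
 zbF0, []⟩
noncomputable def p022_l213 : Lf2 := ⟨nat_lit 0, nat_lit 2, [nat_lit 10, nat_lit 5, nat_lit 5, nat_lit 20], true, nat_lit 0, nat_lit 0, nat_lit 0, nat_lit 0, ⟨nat_lit 0, nat_lit 0, nat_lit 1000, nat_lit 8, nat_lit 220, nat_lit 0, nat_lit 0, nat_lit 0, nat_lit 0, nat_lit 215, nat_lit 3461, nat_lit 226, nat_lit 51470219, nat_lit 0, nat_lit 0, nat_lit 2707136, false, false⟩,
 nat_lit 0, nat_lit 100000, nat_lit 0, nat_lit 0, nat_lit 75293, nat_lit 0, nat_lit 60000, nat_lit 3934, nat_lit 0, nat_lit 0, nat_lit 0, nat_lit 0, nat_lit 0, nat_lit 400000000000000, nat_lit 0, nat_lit 1000000, nat_lit 0, nat_lit 0, [(nat_lit 18, [(nat_lit 6, nat_lit 1000)])],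
 ⟨p022_k52, nat_lit 0, nat_lit 0, nat_lit 662, nat_lit 0, nat_lit 1496264, [nat_lit 32531733334, nat_lit 61704266666], [], [nat_lit 46474232862, nat_lit 46619270334, nat_lit 43006495790, nat_lit 43144811653], nat_lit 1271250, nat_lit 1271250, nat_lit 968401, nat_lit 1100001, nat_lit 0, nat_lit 0, [nat_lit 490000, nat_lit 1100000], [nat_lit 24, nat_lit 40, nat_lit 80, nat_lit 80, nat_lit 33, nat_lit 249, nat_lit 40, nat_lit 11]⟩, C1.Rw.none,
 ⟨nat_lit 4415, nat_lit 4445, ⟨.ofNat (nat_lit 534523), .ofNat (nat_lit 561645), .ofNat (nat_lit 536680), .ofNat (nat_lit 563803), .ofNat (nat_lit 534819), .ofNat (nat_lit 561872), .ofNat (nat_lit 536977), .ofNat (nat_lit 564031)⟩, ⟨.ofNat (nat_lit 0), .ofNat (nat_lit 0), .ofNat (nat_lit 0), .ofNat (nat_lit 0), .ofNat (nat_lit 0), .ofNat (nat_lit 0), .ofNat (nat_lit 0), .ofNat (nat_lit 0)⟩⟩, [⟨nat_lit 0, nat_lit 83, nat_lit 82, nat_lit 100, nat_lit 2000495176⟩,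 ⟨nat_lit 0, nat_lit 83, nat_lit 83, nat_lit 100, nat_lit 14515894905⟩]⟩
noncomputable def p022_l214 : Lf2 := ⟨nat_lit 0, nat_lit 2, [nat_lit 10, nat_lit 5, nat_lit 5, nat_lit 20], false, nat_lit 0, nat_lit 0, nat_lit 0, nat_lit 0, ⟨nat_lit 1000, nat_lit 0, nat_lit 0, nat_lit 0, nat_lit 0, nat_lit 0, nat_lit 0, nat_lit 0, nat_lit 0, nat_lit 0, nat_lit 0, nat_lit 0, nat_lit 0, nat_lit 0, nat_lit 0, nat_lit 0, false, false⟩,
 nat_lit 0, nat_lit 0, nat_lit 0, nat_lit 0, nat_lit 0, nat_lit 4078, nat_lit 0, nat_lit 0, nat_lit 443, nat_lit 0, nat_lit 0, nat_lit 0, nat_lit 0, nat_lit 5338046227254, nat_lit 0, nat_lit 0, nat_lit 0, nat_lit 0, [],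
 ⟨p022_k52, nat_lit 0, nat_lit 0, nat_lit 0, nat_lit 0, nat_lit 1496264, [nat_lit 2032000001, nat_lit 4688000000], [], [nat_lit 16830017900, nat_lit 16852475800, nat_lit 17574842600, nat_lit 17596753200], nat_lit 1271250, nat_lit 1271250, nat_lit 1100001, nat_lit 1442500, nat_lit 0, nat_lit 0, [nat_lit 490000, nat_lit 1100000], [nat_lit 24, nat_lit 40, nat_lit 80, nat_lit 80]⟩, ⟨p022_k12, nat_lit 0, nat_lit 0, nat_lit 0, nat_lit 0, nat_lit 0, [nat_lit 2032000000, nat_lit 4688000000], [], [nat_lit 21037960296, nat_lit 21218292001, nat_lit 22538912780, nat_lit 22707045917], nat_lit 0, nat_lit 0, nat_lit 0, nat_lit 0, nat_lit 0, nat_lit 0, [], [nat_lit 24, nat_lit 40, nat_lit 80, nat_lit 80]⟩,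
 zbF0, []⟩
noncomputable def p022_l215 : Lf2 := ⟨nat_lit 2, nat_lit 2, [nat_lit 10, nat_lit 5, nat_lit 5, nat_lit 20], true, nat_lit 0, nat_lit 0, nat_lit 0, nat_lit 0, zbN0,
 nat_lit 0, nat_lit 0, nat_lit 0, nat_lit 0, nat_lit 0, nat_lit 0, nat_lit 0, nat_lit 0, nat_lit 0, nat_lit 0, nat_lit 0, nat_lit 0, nat_lit 0, nat_lit 0, nat_lit 0, nat_lit 0, nat_lit 0, nat_lit 0, [],
 ⟨p022_k53, nat_lit 0, nat_lit 0, nat_lit 0, nat_lit 0, nat_lit 1496264, [], [], [], nat_lit 1271250, nat_lit 1271250, nat_lit 1100001, nat_lit 1271250, nat_lit 0, nat_lit 0, [nat_lit 490000, nat_lit 631250, nat_lit 936250], [nat_lit 164, nat_lit 40, nat_lit 20, nat_lit 40]⟩, C1.Rw.none,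
 zbF0, []⟩
noncomputable def p022_l216 : Lf2 := ⟨nat_lit 2, nat_lit 2, [nat_lit 10, nat_lit 5, nat_lit 5, nat_lit 20], true, nat_lit 0, nat_lit 0, nat_lit 0, nat_lit 0, zbN0,
 nat_lit 0, nat_lit 0, nat_lit 0, nat_lit 0, nat_lit 0, nat_lit 0, nat_lit 0, nat_lit 0, nat_lit 0, nat_lit 0, nat_lit 0, nat_lit 0, nat_lit 0, nat_lit 0, nat_lit 0, nat_lit 0, nat_lit 0, nat_lit 0, [],
 ⟨p022_k52, nat_lit 0, nat_lit 0, nat_lit 657, nat_lit 0, nat_lit 1496264, [], [], [], nat_lit 1271250, nat_lit 1271250, nat_lit 1100001, nat_lit 1271250, nat_lit 0, nat_lit 0, [nat_lit 490000, nat_lit 1100000], [nat_lit 24, nat_lit 40, nat_lit 80, nat_lit 80, nat_lit 33, nat_lit 227, nat_lit 0, nat_lit 10]⟩, C1.Rw.none,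
 zbF0, []⟩
noncomputable def p022_l217 : Lf2 := ⟨nat_lit 0, nat_lit 2, [nat_lit 10, nat_lit 5, nat_lit 5, nat_lit 20], false, nat_lit 0, nat_lit 0, nat_lit 0, nat_lit 0, ⟨nat_lit 1000, nat_lit 0, nat_lit 0, nat_lit 0, nat_lit 0, nat_lit 0, nat_lit 0, nat_lit 0, nat_lit 0, nat_lit 0, nat_lit 0, nat_lit 0, nat_lit 0, nat_lit 0, nat_lit 0, nat_lit 0, false, false⟩,
 nat_lit 0, nat_lit 17267, nat_lit 0, nat_lit 0, nat_lit 13000, nat_lit 4046, nat_lit 6240, nat_lit 0, nat_lit 0, nat_lit 1109, nat_lit 0, nat_lit 0, nat_lit 0, nat_lit 0, nat_lit 0, nat_lit 0, nat_lit 6934454575, nat_lit 0, [],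
 ⟨p022_k52, nat_lit 0, nat_lit 0, nat_lit 655, nat_lit 0, nat_lit 1496264, [nat_lit 2032000001, nat_lit 4688000000], [], [nat_lit 0, nat_lit 42724426, nat_lit 46892177, nat_lit 94153776], nat_lit 1271250, nat_lit 1271250, nat_lit 1271250, nat_lit 1271250, nat_lit 0, nat_lit 0, [nat_lit 490000, nat_lit 1100000], [nat_lit 24, nat_lit 40, nat_lit 80, nat_lit 80, nat_lit 33, nat_lit 229, nat_lit 0, nat_lit 10]⟩, ⟨p022_k51, nat_lit 0, nat_lit 0, nat_lit 0, nat_lit 0, nat_lit 0, [nat_lit 2032000000, nat_lit 3282000000, nat_lit 4688000000], [], [nat_lit 19665558817, nat_lit 19829281201, nat_lit 20436837284, nat_lit 20614545593], nat_lit 0, nat_lit 0, nat_lit 0, nat_lit 0, nat_lit 0, nat_lit 0, [], [nat_lit 78, nat_lit 40, nat_lit 80, nat_lit 80]⟩,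
 zbF0, []⟩
noncomputable def p022_l218 : Lf2 := ⟨nat_lit 0, nat_lit 2, [nat_lit 10, nat_lit 5, nat_lit 5, nat_lit 20], false, nat_lit 0, nat_lit 0, nat_lit 0, nat_lit 0, ⟨nat_lit 1000, nat_lit 0, nat_lit 0, nat_lit 0, nat_lit 0, nat_lit 0, nat_lit 0, nat_lit 0, nat_lit 0, nat_lit 0, nat_lit 0, nat_lit 0, nat_lit 0, nat_lit 0, nat_lit 0, nat_lit 0, false, false⟩,
 nat_lit 0, nat_lit 27152, nat_lit 0, nat_lit 0, nat_lit 20443, nat_lit 100000, nat_lit 56880, nat_lit 741, nat_lit 0, nat_lit 0, nat_lit 9983, nat_lit 0, nat_lit 0, nat_lit 400000000000000, nat_lit 0, nat_lit 0, nat_lit 0, nat_lit 0, [],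
 ⟨p022_k52, nat_lit 0, nat_lit 0, nat_lit 662, nat_lit 0, nat_lit 1496264, [nat_lit 7960000001, nat_lit 16544000000], [], [nat_lit 6697575378, nat_lit 6795139231, nat_lit 7025407572, nat_lit 7119031092], nat_lit 1271250, nat_lit 1271250, nat_lit 968401, nat_lit 1439500, nat_lit 0, nat_lit 0, [nat_lit 490000, nat_lit 1100000], [nat_lit 24, nat_lit 40, nat_lit 80, nat_lit 80, nat_lit 33, nat_lit 260, nat_lit 50, nat_lit 12]⟩, ⟨p022_k12, nat_lit 0, nat_lit 0, nat_lit 0, nat_lit 0, nat_lit 0, [nat_lit 81896000000, nat_lit 164416000000], [], [nat_lit 186286178401, nat_lit 188933240440, nat_lit 191458460000, nat_lit 193626722000], nat_lit 0, nat_lit 0, nat_lit 0, nat_lit 0, nat_lit 0, nat_lit 0, [], [nat_lit 24, nat_lit 40, nat_lit 80, nat_lit 80]⟩,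
 zbF0, []⟩
noncomputable def p022_l219 : Lf2 := ⟨nat_lit 3, nat_lit 2, [nat_lit 10, nat_lit 5, nat_lit 5, nat_lit 20], false, nat_lit 0, nat_lit 0, nat_lit 0, nat_lit 0, zbN0,
 nat_lit 0, nat_lit 0, nat_lit 0, nat_lit 0, nat_lit 0, nat_lit 0, nat_lit 0, nat_lit 0, nat_lit 0, nat_lit 0, nat_lit 0, nat_lit 0, nat_lit 0, nat_lit 0, nat_lit 0, nat_lit 0, nat_lit 0, nat_lit 0, [],
 C1.Rw.none, ⟨p022_k12, nat_lit 0, nat_lit 0, nat_lit 0, nat_lit 0, nat_lit 0, [], [], [], nat_lit 0, nat_lit 0, nat_lit 0, nat_lit 0, nat_lit 0, nat_lit 0, [], [nat_lit 24, nat_lit 40, nat_lit 80, nat_lit 80]⟩,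
 zbF0, []⟩
noncomputable def p022_l220 : Lf2 := ⟨nat_lit 3, nat_lit 2, [nat_lit 10, nat_lit 5, nat_lit 5, nat_lit 20], false, nat_lit 0, nat_lit 0, nat_lit 0, nat_lit 0, zbN0,
 nat_lit 0, nat_lit 0, nat_lit 0, nat_lit 0, nat_lit 0, nat_lit 0, nat_lit 0, nat_lit 0, nat_lit 0, nat_lit 0, nat_lit 0, nat_lit 0, nat_lit 0, nat_lit 0, nat_lit 0, nat_lit 0, nat_lit 0, nat_lit 0, [],
 C1.Rw.none, ⟨p022_k12, nat_lit 0, nat_lit 0, nat_lit 86, nat_lit 0, nat_lit 0, [], [], [], nat_lit 0, nat_lit 0, nat_lit 0, nat_lit 0, nat_lit 0, nat_lit 0, [], [nat_lit 24, nat_lit 40, nat_lit 80, nat_lit 80, nat_lit 33, nat_lit 260, nat_lit 50, nat_lit 12]⟩,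
 zbF0, []⟩
noncomputable def p022_l221 : Lf2 := ⟨nat_lit 0, nat_lit 2, [nat_lit 10, nat_lit 5, nat_lit 5, nat_lit 20], false, nat_lit 0, nat_lit 0, nat_lit 0, nat_lit 0, ⟨nat_lit 1000, nat_lit 0, nat_lit 0, nat_lit 0, nat_lit 0, nat_lit 0, nat_lit 0, nat_lit 0, nat_lit 0, nat_lit 0, nat_lit 0, nat_lit 0, nat_lit 0, nat_lit 0, nat_lit 0, nat_lit 0, false, false⟩,
 nat_lit 0, nat_lit 8768, nat_lit 0, nat_lit 0, nat_lit 6601, nat_lit 4026, nat_lit 14489, nat_lit 0, nat_lit 0, nat_lit 0, nat_lit 0, nat_lit 0, nat_lit 0, nat_lit 0, nat_lit 0, nat_lit 0, nat_lit 0, nat_lit 0, [],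
 ⟨p022_k52, nat_lit 0, nat_lit 0, nat_lit 652, nat_lit 0, nat_lit 1496264, [nat_lit 2032000001, nat_lit 4688000000], [], [nat_lit 23667889573, nat_lit 23696290961, nat_lit 25421858246, nat_lit 25543852012], nat_lit 1271250, nat_lit 1271250, nat_lit 1271250, nat_lit 1271250, nat_lit 0, nat_lit 0, [nat_lit 490000, nat_lit 1100000], [nat_lit 24, nat_lit 40, nat_lit 80, nat_lit 80, nat_lit 33, nat_lit 234, nat_lit 0, nat_lit 10]⟩, ⟨p022_k12, nat_lit 0, nat_lit 0, nat_lit 90, nat_lit 0, nat_lit 0, [nat_lit 2032000000, nat_lit 4688000000], [], [nat_lit 22544400872, nat_lit 22701796430, nat_lit 24031559080, nat_lit 24185777144], nat_lit 0, nat_lit 0, nat_lit 0, nat_lit 0, nat_lit 0, nat_lit 0, [], [nat_lit 24, nat_lit 40, nat_lit 80, nat_lit 80, nat_lit 33, nat_lit 203, nat_lit 0, nat_lit 8]⟩,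
 zbF0, []⟩
noncomputable def b_N_800_800_0_2 : St := ⟨false, nat_lit 1, nat_lit 0, nat_lit 1, nat_lit 40, nat_lit 321, nat_lit 322, nat_lit 320, nat_lit 322, nat_lit 140, nat_lit 240, nat_lit 0, nat_lit 0, nat_lit 0, nat_lit 0, nat_lit 0, nat_lit 0, nat_lit 4, nat_lit 8, nat_lit 0, nat_lit 0, nat_lit 0, nat_lit 0⟩
theorem d_N_800_800_0_2 (h : EB TB.env) : Dead b_N_800_800_0_2 := chkB_sound0 h (T :=
(.trZ (nat_lit 0) (nat_lit 83) (nat_lit 83) (nat_lit 100) (nat_lit 144) (.spl (nat_lit 2) (nat_lit 200)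
(.spl (nat_lit 7) (nat_lit 600)
(.leaf p022_l201)
(.spl (nat_lit 7) (nat_lit 900)
(.leaf p022_l202)
(.spl (nat_lit 7) (nat_lit 1060)
(.leaf p022_l203)
(.spl (nat_lit 8) (nat_lit 800)
(.spl (nat_lit 8) (nat_lit 400)
(.spl (nat_lit 8) (nat_lit 200)
(.spl (nat_lit 8) (nat_lit 100)
(.leaf p022_l204)
(.spl (nat_lit 2) (nat_lit 160)
(.spl (nat_lit 7) (nat_lit 1220)
(.spl (nat_lit 2) (nat_lit 152)
(.spl (nat_lit 7) (nat_lit 1140)
(.leaf p022_l205)
(.leaf p022_l206))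
(.spl (nat_lit 2) (nat_lit 156)
(.spl (nat_lit 1) (nat_lit 321)
(.spl (nat_lit 7) (nat_lit 1140)
(.leaf p022_l207)
(.leaf p022_l208))
(.spl (nat_lit 7) (nat_lit 1140)
(.leaf p022_l209)
(.leaf p022_l210)))
(.leaf p022_l211)))
(.spl (nat_lit 7) (nat_lit 1380)
(.leaf p022_l212)
(.leaf p022_l213)))
(.spl (nat_lit 7) (nat_lit 1220)
(.leaf p022_l214)
(.spl (nat_lit 2) (nat_lit 180)
(.spl (nat_lit 7) (nat_lit 1380)
(.leaf p022_l215)
(.leaf p022_l216))
(.leaf p022_l217)))))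
(.leaf p022_l218))
(.leaf p022_l219))
(.leaf p022_l220)))))
(.leaf p022_l221)))) (by decide +kernel)

end B2
end Pool.Agent.Lib.MP_6947cd_al
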