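import Pool.Agent.Lib.MP_6947cd_al.ZB.Pre

/-!
Problem MP_6947cd_al (Chollet).  Case B, second entry in [2/5, 17/20]: certificates of the tree, part P023 (generated).
-/

set_option autoImplicit false
set_option linter.all false

namespace Pool.Agent.Lib.MP_6947cd_al
namespace B2

open Ent Fr B1 PkA

noncomputable def p023_k0 : C1.Kn := ⟨[nat_lit 40, nat_lit 80], [nat_lit 0, nat_lit 0], [(nat_lit 0, nat_lit 0, nat_lit 0), (nat_lit 0, nat_lit 0, nat_lit 0)], (nat_lit 84, nat_lit 100, nat_lit 36)⟩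
noncomputable def p023_k1 : C1.Kn := ⟨[nat_lit 40, nat_lit 60, nat_lit 80], [nat_lit 0, nat_lit 0, nat_lit 615], [(nat_lit 0, nat_lit 0, nat_lit 0), (nat_lit 0, nat_lit 0, nat_lit 0), (nat_lit 1000, nat_lit 819, nat_lit 426)], (nat_lit 84, nat_lit 100, nat_lit 36)⟩
noncomputable def p023_k2 : C1.Kn := ⟨[nat_lit 40, nat_lit 80], [nat_lit 0, nat_lit 33], [(nat_lit 0, nat_lit 0, nat_lit 0), (nat_lit 1000, nat_lit 992, nat_lit 13)], (nat_lit 83, nat_lit 100, nat_lit 36)⟩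
noncomputable def p023_k3 : C1.Kn := ⟨[nat_lit 40, nat_lit 80], [nat_lit 0, nat_lit 0], [(nat_lit 0, nat_lit 0, nat_lit 0), (nat_lit 0, nat_lit 0, nat_lit 0)], (nat_lit 82, nat_lit 100, nat_lit 40)⟩
noncomputable def p023_k4 : C1.Kn := ⟨[nat_lit 40, nat_lit 60, nat_lit 80], [nat_lit 0, nat_lit 0, nat_lit 615], [(nat_lit 0, nat_lit 0, nat_lit 0), (nat_lit 0, nat_lit 0, nat_lit 0), (nat_lit 1000, nat_lit 819, nat_lit 426)], (nat_lit 82, nat_lit 100, nat_lit 40)⟩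
noncomputable def p023_k5 : C1.Kn := ⟨[nat_lit 40, nat_lit 80], [nat_lit 0, nat_lit 33], [(nat_lit 0, nat_lit 0, nat_lit 0), (nat_lit 1000, nat_lit 992, nat_lit 13)], (nat_lit 82, nat_lit 100, nat_lit 40)⟩
noncomputable def p023_k6 : C1.Kn := ⟨[nat_lit 40, nat_lit 60, nat_lit 80], [nat_lit 0, nat_lit 16, nat_lit 632], [(nat_lit 0, nat_lit 0, nat_lit 0), (nat_lit 1000, nat_lit 992, nat_lit 13), (nat_lit 1000, nat_lit 815, nat_lit 429)], (nat_lit 82, nat_lit 100, nat_lit 40)⟩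
noncomputable def p023_k7 : C1.Kn := ⟨[nat_lit 40, nat_lit 100], [nat_lit 0, nat_lit 0], [(nat_lit 0, nat_lit 0, nat_lit 0), (nat_lit 0, nat_lit 0, nat_lit 0)], (nat_lit 82, nat_lit 100, nat_lit 44)⟩
noncomputable def p023_k8 : C1.Kn := ⟨[nat_lit 40, nat_lit 80, nat_lit 100], [nat_lit 0, nat_lit 0, nat_lit 1280], [(nat_lit 0, nat_lit 0, nat_lit 0), (nat_lit 0, nat_lit 0, nat_lit 0), (nat_lit 1000, nat_lit 800, nat_lit 600)], (nat_lit 82, nat_lit 100, nat_lit 44)⟩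
noncomputable def p023_k9 : C1.Kn := ⟨[nat_lit 40, nat_lit 60, nat_lit 80, nat_lit 100], [nat_lit 0, nat_lit 0, nat_lit 615, nat_lit 1187], [(nat_lit 0, nat_lit 0, nat_lit 0), (nat_lit 0, nat_lit 0, nat_lit 0), (nat_lit 1000, nat_lit 819, nat_lit 426), (nat_lit 1000, nat_lit 815, nat_lit 447)], (nat_lit 82, nat_lit 100, nat_lit 44)⟩
noncomputable def p023_k10 : C1.Kn := ⟨[nat_lit 40, nat_lit 80, nat_lit 100], [nat_lit 0, nat_lit 33, nat_lit 1304], [(nat_lit 0, nat_lit 0, nat_lit 0), (nat_lit 1000, nat_lit 992, nat_lit 13), (nat_lit 1000, nat_lit 796, nat_lit 599)], (nat_lit 81, nat_lit 100, nat_lit 44)⟩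
noncomputable def p023_k11 : C1.Kn := ⟨[nat_lit 40, nat_lit 60, nat_lit 80, nat_lit 100], [nat_lit 0, nat_lit 16, nat_lit 632, nat_lit 1215], [(nat_lit 0, nat_lit 0, nat_lit 0), (nat_lit 1000, nat_lit 992, nat_lit 13), (nat_lit 1000, nat_lit 815, nat_lit 429), (nat_lit 1000, nat_lit 810, nat_lit 456)], (nat_lit 81, nat_lit 100, nat_lit 44)⟩
noncomputable def p023_k12 : C1.Kn := ⟨[nat_lit 40, nat_lit 80], [nat_lit 0, nat_lit 79], [(nat_lit 0, nat_lit 0, nat_lit 0), (nat_lit 1000, nat_lit 981, nat_lit 31)], (nat_lit 81, nat_lit 100, nat_lit 45)⟩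
noncomputable def p023_k13 : C1.Kn := ⟨[nat_lit 40, nat_lit 80], [nat_lit 0, nat_lit 112], [(nat_lit 0, nat_lit 0, nat_lit 0), (nat_lit 1000, nat_lit 974, nat_lit 44)], (nat_lit 81, nat_lit 100, nat_lit 45)⟩
noncomputable def p023_k14 : C1.Kn := ⟨[nat_lit 40, nat_lit 80, nat_lit 100], [nat_lit 0, nat_lit 0, nat_lit 1280], [(nat_lit 0, nat_lit 0, nat_lit 0), (nat_lit 0, nat_lit 0, nat_lit 0), (nat_lit 1000, nat_lit 800, nat_lit 600)], (nat_lit 81, nat_lit 100, nat_lit 48)⟩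
noncomputable def p023_k15 : C1.Kn := ⟨[nat_lit 40, nat_lit 60, nat_lit 80, nat_lit 100], [nat_lit 0, nat_lit 0, nat_lit 615, nat_lit 1187], [(nat_lit 0, nat_lit 0, nat_lit 0), (nat_lit 0, nat_lit 0, nat_lit 0), (nat_lit 1000, nat_lit 819, nat_lit 426), (nat_lit 1000, nat_lit 815, nat_lit 447)], (nat_lit 81, nat_lit 100, nat_lit 48)⟩
noncomputable def p023_k16 : C1.Kn := ⟨[nat_lit 40, nat_lit 80, nat_lit 100], [nat_lit 0, nat_lit 33, nat_lit 1304], [(nat_lit 0, nat_lit 0, nat_lit 0), (nat_lit 1000, nat_lit 992, nat_lit 13), (nat_lit 1000, nat_lit 796, nat_lit 599)], (nat_lit 81, nat_lit 100, nat_lit 48)⟩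
noncomputable def p023_k17 : C1.Kn := ⟨[nat_lit 40, nat_lit 80, nat_lit 100], [nat_lit 0, nat_lit 79, nat_lit 1328], [(nat_lit 0, nat_lit 0, nat_lit 0), (nat_lit 1000, nat_lit 981, nat_lit 31), (nat_lit 1000, nat_lit 792, nat_lit 599)], (nat_lit 80, nat_lit 100, nat_lit 48)⟩
noncomputable def p023_k18 : C1.Kn := ⟨[nat_lit 40, nat_lit 60, nat_lit 80, nat_lit 100], [nat_lit 0, nat_lit 16, nat_lit 632, nat_lit 1215], [(nat_lit 0, nat_lit 0, nat_lit 0), (nat_lit 1000, nat_lit 992, nat_lit 13), (nat_lit 1000, nat_lit 815, nat_lit 429), (nat_lit 1000, nat_lit 810, nat_lit 456)], (nat_lit 81, nat_lit 100, nat_lit 48)⟩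
noncomputable def p023_k19 : C1.Kn := ⟨[nat_lit 40, nat_lit 80, nat_lit 100], [nat_lit 0, nat_lit 0, nat_lit 1280], [(nat_lit 0, nat_lit 0, nat_lit 0), (nat_lit 0, nat_lit 0, nat_lit 0), (nat_lit 1000, nat_lit 800, nat_lit 600)], (nat_lit 80, nat_lit 100, nat_lit 51)⟩
noncomputable def p023_k20 : C1.Kn := ⟨[nat_lit 40, nat_lit 60, nat_lit 80, nat_lit 100], [nat_lit 0, nat_lit 0, nat_lit 615, nat_lit 1187], [(nat_lit 0, nat_lit 0, nat_lit 0), (nat_lit 0, nat_lit 0, nat_lit 0), (nat_lit 1000, nat_lit 819, nat_lit 426), (nat_lit 1000, nat_lit 815, nat_lit 447)], (nat_lit 80, nat_lit 100, nat_lit 51)⟩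
noncomputable def p023_k21 : C1.Kn := ⟨[nat_lit 40, nat_lit 80, nat_lit 100], [nat_lit 0, nat_lit 33, nat_lit 1304], [(nat_lit 0, nat_lit 0, nat_lit 0), (nat_lit 1000, nat_lit 992, nat_lit 13), (nat_lit 1000, nat_lit 796, nat_lit 599)], (nat_lit 80, nat_lit 100, nat_lit 51)⟩
noncomputable def p023_k22 : C1.Kn := ⟨[nat_lit 40, nat_lit 80, nat_lit 100], [nat_lit 0, nat_lit 79, nat_lit 1328], [(nat_lit 0, nat_lit 0, nat_lit 0), (nat_lit 1000, nat_lit 981, nat_lit 31), (nat_lit 1000, nat_lit 792, nat_lit 599)], (nat_lit 80, nat_lit 100, nat_lit 51)⟩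
noncomputable def p023_k23 : C1.Kn := ⟨[nat_lit 40, nat_lit 80, nat_lit 100], [nat_lit 0, nat_lit 0, nat_lit 1280], [(nat_lit 0, nat_lit 0, nat_lit 0), (nat_lit 0, nat_lit 0, nat_lit 0), (nat_lit 1000, nat_lit 800, nat_lit 600)], (nat_lit 80, nat_lit 100, nat_lit 54)⟩
noncomputable def p023_k24 : C1.Kn := ⟨[nat_lit 40, nat_lit 80, nat_lit 100], [nat_lit 0, nat_lit 79, nat_lit 1328], [(nat_lit 0, nat_lit 0, nat_lit 0), (nat_lit 1000, nat_lit 981, nat_lit 31), (nat_lit 1000, nat_lit 792, nat_lit 599)], (nat_lit 80, nat_lit 100, nat_lit 54)⟩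
noncomputable def p023_k25 : C1.Kn := ⟨[nat_lit 40, nat_lit 80, nat_lit 100], [nat_lit 0, nat_lit 112, nat_lit 1353], [(nat_lit 0, nat_lit 0, nat_lit 0), (nat_lit 1000, nat_lit 974, nat_lit 44), (nat_lit 1000, nat_lit 789, nat_lit 608)], (nat_lit 79, nat_lit 100, nat_lit 54)⟩
noncomputable def p023_k26 : C1.Kn := ⟨[nat_lit 40, nat_lit 80, nat_lit 100], [nat_lit 0, nat_lit 0, nat_lit 1280], [(nat_lit 0, nat_lit 0, nat_lit 0), (nat_lit 0, nat_lit 0, nat_lit 0), (nat_lit 1000, nat_lit 800, nat_lit 600)], (nat_lit 80, nat_lit 100, nat_lit 57)⟩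
noncomputable def p023_k27 : C1.Kn := ⟨[nat_lit 40, nat_lit 80, nat_lit 100], [nat_lit 0, nat_lit 79, nat_lit 1328], [(nat_lit 0, nat_lit 0, nat_lit 0), (nat_lit 1000, nat_lit 981, nat_lit 31), (nat_lit 1000, nat_lit 792, nat_lit 599)], (nat_lit 79, nat_lit 100, nat_lit 57)⟩
noncomputable def p023_k28 : C1.Kn := ⟨[nat_lit 40, nat_lit 80, nat_lit 100], [nat_lit 0, nat_lit 112, nat_lit 1353], [(nat_lit 0, nat_lit 0, nat_lit 0), (nat_lit 1000, nat_lit 974, nat_lit 44), (nat_lit 1000, nat_lit 789, nat_lit 608)], (nat_lit 79, nat_lit 100, nat_lit 57)⟩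
noncomputable def p023_k29 : C1.Kn := ⟨[nat_lit 40, nat_lit 80, nat_lit 100], [nat_lit 0, nat_lit 0, nat_lit 1280], [(nat_lit 0, nat_lit 0, nat_lit 0), (nat_lit 0, nat_lit 0, nat_lit 0), (nat_lit 1000, nat_lit 800, nat_lit 600)], (nat_lit 80, nat_lit 100, nat_lit 60)⟩
noncomputable def p023_k30 : C1.Kn := ⟨[nat_lit 40, nat_lit 60], [nat_lit 0, nat_lit 0], [(nat_lit 0, nat_lit 0, nat_lit 0), (nat_lit 0, nat_lit 0, nat_lit 0)], (nat_lit 89, nat_lit 100, nat_lit 22)⟩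
noncomputable def p023_k31 : C1.Kn := ⟨[nat_lit 40, nat_lit 80], [nat_lit 0, nat_lit 0], [(nat_lit 0, nat_lit 0, nat_lit 0), (nat_lit 0, nat_lit 0, nat_lit 0)], (nat_lit 85, nat_lit 100, nat_lit 30)⟩
noncomputable def p023_k32 : C1.Kn := ⟨[nat_lit 40, nat_lit 80], [nat_lit 0, nat_lit 79], [(nat_lit 0, nat_lit 0, nat_lit 0), (nat_lit 1000, nat_lit 981, nat_lit 31)], (nat_lit 85, nat_lit 100, nat_lit 30)⟩
noncomputable def p023_k33 : C1.Kn := ⟨[nat_lit 40, nat_lit 60, nat_lit 80], [nat_lit 0, nat_lit 0, nat_lit 615], [(nat_lit 0, nat_lit 0, nat_lit 0), (nat_lit 0, nat_lit 0, nat_lit 0), (nat_lit 1000, nat_lit 819, nat_lit 426)], (nat_lit 85, nat_lit 100, nat_lit 30)⟩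
noncomputable def p023_k34 : C1.Kn := ⟨[nat_lit 40, nat_lit 80], [nat_lit 0, nat_lit 33], [(nat_lit 0, nat_lit 0, nat_lit 0), (nat_lit 1000, nat_lit 992, nat_lit 13)], (nat_lit 85, nat_lit 100, nat_lit 30)⟩
noncomputable def p023_k35 : C1.Kn := ⟨[nat_lit 40, nat_lit 80], [nat_lit 0, nat_lit 79], [(nat_lit 0, nat_lit 0, nat_lit 0), (nat_lit 1000, nat_lit 981, nat_lit 31)], (nat_lit 82, nat_lit 100, nat_lit 40)⟩
noncomputable def p023_k36 : C1.Kn := ⟨[nat_lit 40, nat_lit 80, nat_lit 100], [nat_lit 0, nat_lit 112, nat_lit 1353], [(nat_lit 0, nat_lit 0, nat_lit 0), (nat_lit 1000, nat_lit 974, nat_lit 44), (nat_lit 1000, nat_lit 789, nat_lit 608)], (nat_lit 79, nat_lit 100, nat_lit 60)⟩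
noncomputable def p023_k37 : C1.Kn := ⟨[nat_lit 40, nat_lit 60, nat_lit 80], [nat_lit 0, nat_lit 16, nat_lit 632], [(nat_lit 0, nat_lit 0, nat_lit 0), (nat_lit 1000, nat_lit 992, nat_lit 13), (nat_lit 1000, nat_lit 815, nat_lit 429)], (nat_lit 85, nat_lit 100, nat_lit 30)⟩
noncomputable def p023_k38 : C1.Kn := ⟨[nat_lit 40, nat_lit 80, nat_lit 100], [nat_lit 0, nat_lit 33, nat_lit 1304], [(nat_lit 0, nat_lit 0, nat_lit 0), (nat_lit 1000, nat_lit 992, nat_lit 13), (nat_lit 1000, nat_lit 796, nat_lit 599)], (nat_lit 80, nat_lit 100, nat_lit 60)⟩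
noncomputable def p023_k39 : C1.Kn := ⟨[nat_lit 40, nat_lit 80, nat_lit 100], [nat_lit 0, nat_lit 79, nat_lit 1328], [(nat_lit 0, nat_lit 0, nat_lit 0), (nat_lit 1000, nat_lit 981, nat_lit 31), (nat_lit 1000, nat_lit 792, nat_lit 599)], (nat_lit 79, nat_lit 100, nat_lit 60)⟩
noncomputable def p023_l0 : Lf2 := ⟨nat_lit 0, nat_lit 3, [nat_lit 45, nat_lit 5, nat_lit 5, nat_lit 20], false, nat_lit 0, nat_lit 0, nat_lit 0, nat_lit 0, ⟨nat_lit 1000, nat_lit 0, nat_lit 0, nat_lit 0, nat_lit 0, nat_lit 0, nat_lit 0, nat_lit 0, nat_lit 0, nat_lit 0, nat_lit 0, nat_lit 0, nat_lit 0, nat_lit 0, nat_lit 0, nat_lit 0, false, false⟩,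
 nat_lit 0, nat_lit 0, nat_lit 0, nat_lit 0, nat_lit 0, nat_lit 0, nat_lit 0, nat_lit 0, nat_lit 489, nat_lit 8521, nat_lit 0, nat_lit 0, nat_lit 0, nat_lit 400000000000000, nat_lit 0, nat_lit 0, nat_lit 0, nat_lit 0, [],
 ⟨p023_k0, nat_lit 0, nat_lit 0, nat_lit 0, nat_lit 0, nat_lit 1455890, [nat_lit 2032000001, nat_lit 4688000000], [], [nat_lit 12795847000, nat_lit 12868306900, nat_lit 14347852000, nat_lit 14424092300], nat_lit 1271250, nat_lit 1271250, nat_lit 936251, nat_lit 1438750, nat_lit 0, nat_lit 0, [nat_lit 490000, nat_lit 1100000], [nat_lit 24, nat_lit 40, nat_lit 80, nat_lit 80]⟩, ⟨p023_k0, nat_lit 0, nat_lit 0, nat_lit 86, nat_lit 0, nat_lit 0, [nat_lit 2032000000, nat_lit 4688000000], [], [nat_lit 23889382000, nat_lit 23966711950, nat_lit 25509260000, nat_lit 25582302000], nat_lit 0, nat_lit 0, nat_lit 0, nat_lit 0, nat_lit 0, nat_lit 0, [], [nat_lit 24, nat_lit 40, nat_lit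 80, nat_lit 80, nat_lit 33, nat_lit 260, nat_lit 50, nat_lit 12]⟩,
 zbF0, []⟩
noncomputable def p023_l1 : Lf2 := ⟨nat_lit 0, nat_lit 3, [nat_lit 45, nat_lit 5, nat_lit 5, nat_lit 20], false, nat_lit 0, nat_lit 0, nat_lit 0, nat_lit 0, ⟨nat_lit 1000, nat_lit 0, nat_lit 0, nat_lit 0, nat_lit 0, nat_lit 0, nat_lit 0, nat_lit 0, nat_lit 0, nat_lit 0, nat_lit 0, nat_lit 0, nat_lit 0, nat_lit 0, nat_lit 0, nat_lit 0, false, false⟩,
 nat_lit 0, nat_lit 0, nat_lit 0, nat_lit 0, nat_lit 0, nat_lit 6093, nat_lit 0, nat_lit 0, nat_lit 470, nat_lit 0, nat_lit 0, nat_lit 0, nat_lit 0, nat_lit 344026838985738, nat_lit 0, nat_lit 0, nat_lit 0, nat_lit 0, [],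
 ⟨p023_k0, nat_lit 0, nat_lit 0, nat_lit 0, nat_lit 0, nat_lit 1455890, [nat_lit 2032000001, nat_lit 4688000000], [], [nat_lit 13868213000, nat_lit 13922027250, nat_lit 15200984000, nat_lit 15257412100], nat_lit 1271250, nat_lit 1271250, nat_lit 936251, nat_lit 1438750, nat_lit 0, nat_lit 0, [nat_lit 490000, nat_lit 1100000], [nat_lit 24, nat_lit 40, nat_lit 80, nat_lit 80]⟩, ⟨p023_k0, nat_lit 0, nat_lit 0, nat_lit 86, nat_lit 0, nat_lit 0, [nat_lit 2032000000, nat_lit 4688000000], [], [nat_lit 20954920338, nat_lit 21222488644, nat_lit 22720282930, nat_lit 22972905277], nat_lit 0, nat_lit 0, nat_lit 0, nat_lit 0, nat_lit 0, nat_lit 0, [], [nat_lit 24, nat_lit 40, nat_lit 80, nat_lit 80, nat_lit 33, nat_lit 260, nat_lit 50, nat_lit 12]⟩,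
 zbF0, [⟨nat_lit 0, nat_lit 83, nat_lit 83, nat_lit 100, nat_lit 340163342⟩]⟩
noncomputable def p023_l2 : Lf2 := ⟨nat_lit 0, nat_lit 3, [nat_lit 45, nat_lit 5, nat_lit 5, nat_lit 20], false, nat_lit 0, nat_lit 0, nat_lit 0, nat_lit 0, ⟨nat_lit 1000, nat_lit 0, nat_lit 0, nat_lit 0, nat_lit 0, nat_lit 0, nat_lit 0, nat_lit 0, nat_lit 0, nat_lit 0, nat_lit 0, nat_lit 0, nat_lit 0, nat_lit 0, nat_lit 0, nat_lit 0, false, false⟩,
 nat_lit 0, nat_lit 0, nat_lit 0, nat_lit 0, nat_lit 0, nat_lit 4028, nat_lit 0, nat_lit 0, nat_lit 452, nat_lit 0, nat_lit 0, nat_lit 0, nat_lit 0, nat_lit 0, nat_lit 0, nat_lit 0, nat_lit 0, nat_lit 0, [],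
 ⟨p023_k0, nat_lit 0, nat_lit 0, nat_lit 0, nat_lit 0, nat_lit 1455890, [nat_lit 2032000001, nat_lit 4688000000], [], [nat_lit 15455889000, nat_lit 15502524250, nat_lit 16616860000, nat_lit 16664286900], nat_lit 1271250, nat_lit 1271250, nat_lit 936251, nat_lit 1438750, nat_lit 0, nat_lit 0, [nat_lit 490000, nat_lit 1100000], [nat_lit 24, nat_lit 40, nat_lit 80, nat_lit 80]⟩, ⟨p023_k0, nat_lit 0, nat_lit 0, nat_lit 86, nat_lit 0, nat_lit 0, [nat_lit 2032000000, nat_lit 4688000000], [], [nat_lit 20805444500, nat_lit 20990260450, nat_lit 22542928016, nat_lit 22701418727], nat_lit 0, nat_lit 0, nat_lit 0, nat_lit 0, nat_lit 0, nat_lit 0, [], [nat_lit 24, nat_lit 40, nat_lit 80, nat_lit 80, nat_lit 33, nat_lit 260, nat_lit 50, nat_lit 12]⟩,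
 zbF0, [⟨nat_lit 0, nat_lit 83, nat_lit 83, nat_lit 100, nat_lit 366224350⟩]⟩
noncomputable def p023_l3 : Lf2 := ⟨nat_lit 0, nat_lit 3, [nat_lit 45, nat_lit 5, nat_lit 5, nat_lit 20], false, nat_lit 0, nat_lit 0, nat_lit 0, nat_lit 0, ⟨nat_lit 1000, nat_lit 0, nat_lit 0, nat_lit 0, nat_lit 0, nat_lit 0, nat_lit 0, nat_lit 0, nat_lit 0, nat_lit 0, nat_lit 0, nat_lit 0, nat_lit 0, nat_lit 0, nat_lit 0, nat_lit 0, false, false⟩,
 nat_lit 0, nat_lit 8937, nat_lit 0, nat_lit 0, nat_lit 6702, nat_lit 0, nat_lit 0, nat_lit 0, nat_lit 0, nat_lit 0, nat_lit 0, nat_lit 458, nat_lit 0, nat_lit 0, nat_lit 0, nat_lit 0, nat_lit 0, nat_lit 0, [],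
 ⟨p023_k0, nat_lit 0, nat_lit 0, nat_lit 649, nat_lit 0, nat_lit 1455890, [nat_lit 2032000001, nat_lit 4688000000], [], [nat_lit 34773126903, nat_lit 34836326672, nat_lit 34676248720, nat_lit 34742532400], nat_lit 1271250, nat_lit 1271250, nat_lit 936251, nat_lit 1100001, nat_lit 0, nat_lit 0, [nat_lit 490000, nat_lit 1100000], [nat_lit 24, nat_lit 40, nat_lit 80, nat_lit 80, nat_lit 33, nat_lit 249, nat_lit 40, nat_lit 11]⟩, ⟨p023_k1, nat_lit 0, nat_lit 0, nat_lit 0, nat_lit 0, nat_lit 0, [nat_lit 2032000000, nat_lit 3282000000, nat_lit 4688000000], [], [nat_lit 12559181000, nat_lit 12643031500, nat_lit 13061932000, nat_lit 13144307800], nat_lit 0, nat_lit 0, nat_lit 0, nat_lit 0, nat_lit 0, nat_lit 0, [], [nat_lit 78, nat_lit 40, nat_lit 80, nat_lit 80]⟩,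
 zbF0, [⟨nat_lit 0, nat_lit 82, nat_lit 82, nat_lit 100, nat_lit 597618851⟩]⟩
noncomputable def p023_l4 : Lf2 := ⟨nat_lit 0, nat_lit 3, [nat_lit 45, nat_lit 5, nat_lit 5, nat_lit 20], false, nat_lit 0, nat_lit 0, nat_lit 0, nat_lit 0, ⟨nat_lit 1000, nat_lit 0, nat_lit 0, nat_lit 0, nat_lit 0, nat_lit 0, nat_lit 0, nat_lit 0, nat_lit 0, nat_lit 0, nat_lit 0, nat_lit 0, nat_lit 0, nat_lit 0, nat_lit 0, nat_lit 0, false, false⟩,
 nat_lit 0, nat_lit 0, nat_lit 0, nat_lit 0, nat_lit 0, nat_lit 4058, nat_lit 0, nat_lit 0, nat_lit 392, nat_lit 0, nat_lit 0, nat_lit 0, nat_lit 0, nat_lit 26094626585354, nat_lit 0, nat_lit 0, nat_lit 0, nat_lit 0, [],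
 ⟨p023_k0, nat_lit 0, nat_lit 0, nat_lit 0, nat_lit 0, nat_lit 1455890, [nat_lit 2032000001, nat_lit 4688000000], [], [nat_lit 22179324001, nat_lit 22223200151, nat_lit 22382091600, nat_lit 22427212740], nat_lit 1271250, nat_lit 1271250, nat_lit 936251, nat_lit 1033601, nat_lit 0, nat_lit 0, [nat_lit 490000, nat_lit 1100000], [nat_lit 24, nat_lit 40, nat_lit 80, nat_lit 80]⟩, ⟨p023_k0, nat_lit 0, nat_lit 0, nat_lit 0, nat_lit 0, nat_lit 0, [nat_lit 2032000000, nat_lit 4688000000], [], [nat_lit 20807452028, nat_lit 20993210092, nat_lit 20945592894, nat_lit 21127871114], nat_lit 0, nat_lit 0, nat_lit 0, nat_lit 0, nat_lit 0, nat_lit 0, [], [nat_lit 24, nat_lit 40, nat_lit 80, nat_lit 80]⟩,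
 zbF0, [⟨nat_lit 0, nat_lit 83, nat_lit 83, nat_lit 100, nat_lit 530674251⟩]⟩
noncomputable def p023_l5 : Lf2 := ⟨nat_lit 0, nat_lit 3, [nat_lit 45, nat_lit 5, nat_lit 5, nat_lit 20], false, nat_lit 0, nat_lit 0, nat_lit 0, nat_lit 0, ⟨nat_lit 1000, nat_lit 0, nat_lit 0, nat_lit 0, nat_lit 0, nat_lit 0, nat_lit 0, nat_lit 0, nat_lit 0, nat_lit 0, nat_lit 0, nat_lit 0, nat_lit 0, nat_lit 0, nat_lit 0, nat_lit 0, false, false⟩,
 nat_lit 0, nat_lit 0, nat_lit 0, nat_lit 0, nat_lit 0, nat_lit 4058, nat_lit 0, nat_lit 0, nat_lit 392, nat_lit 0, nat_lit 0, nat_lit 0, nat_lit 0, nat_lit 26198855501013, nat_lit 0, nat_lit 0, nat_lit 0, nat_lit 0, [],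
 ⟨p023_k0, nat_lit 0, nat_lit 0, nat_lit 0, nat_lit 0, nat_lit 1455890, [nat_lit 2032000001, nat_lit 4688000000], [], [nat_lit 22179324001, nat_lit 22223200151, nat_lit 22382091600, nat_lit 22427212740], nat_lit 1271250, nat_lit 1271250, nat_lit 936251, nat_lit 1033601, nat_lit 0, nat_lit 0, [nat_lit 490000, nat_lit 1100000], [nat_lit 24, nat_lit 40, nat_lit 80, nat_lit 80]⟩, ⟨p023_k0, nat_lit 0, nat_lit 0, nat_lit 0, nat_lit 0, nat_lit 0, [nat_lit 2032000000, nat_lit 4688000000], [], [nat_lit 20807452028, nat_lit 20993210092, nat_lit 20945592894, nat_lit 21127871114], nat_lit 0, nat_lit 0, nat_lit 0, nat_lit 0, nat_lit 0, nat_lit 0, [], [nat_lit 24, nat_lit 40, nat_lit 80, nat_lit 80]⟩,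
 zbF0, [⟨nat_lit 0, nat_lit 83, nat_lit 83, nat_lit 100, nat_lit 533813676⟩]⟩
noncomputable def p023_l6 : Lf2 := ⟨nat_lit 0, nat_lit 3, [nat_lit 45, nat_lit 5, nat_lit 5, nat_lit 20], false, nat_lit 0, nat_lit 0, nat_lit 0, nat_lit 0, ⟨nat_lit 1000, nat_lit 0, nat_lit 0, nat_lit 0, nat_lit 0, nat_lit 0, nat_lit 0, nat_lit 0, nat_lit 0, nat_lit 0, nat_lit 0, nat_lit 0, nat_lit 0, nat_lit 0, nat_lit 0, nat_lit 0, false, false⟩,
 nat_lit 0, nat_lit 0, nat_lit 0, nat_lit 0, nat_lit 0, nat_lit 0, nat_lit 0, nat_lit 0, nat_lit 444, nat_lit 0, nat_lit 0, nat_lit 580, nat_lit 0, nat_lit 0, nat_lit 0, nat_lit 0, nat_lit 0, nat_lit 0, [],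
 ⟨p023_k0, nat_lit 0, nat_lit 0, nat_lit 0, nat_lit 0, nat_lit 1440310, [nat_lit 2032000001, nat_lit 4688000000], [], [nat_lit 16351889000, nat_lit 16374603575, nat_lit 16420623200, nat_lit 16443286440], nat_lit 1271250, nat_lit 1271250, nat_lit 936251, nat_lit 968401, nat_lit 0, nat_lit 0, [nat_lit 490000, nat_lit 1100000], [nat_lit 24, nat_lit 40, nat_lit 80, nat_lit 80]⟩, ⟨p023_k0, nat_lit 0, nat_lit 0, nat_lit 0, nat_lit 0, nat_lit 0, [nat_lit 2032000000, nat_lit 4688000000], [], [nat_lit 11233385000, nat_lit 11273803425, nat_lit 11332098400, nat_lit 11373600621], nat_lit 0, nat_lit 0, nat_lit 0, nat_lit 0, nat_lit 0, nat_lit 0, [], [nat_lit 24, nat_lit 40, nat_lit 80, nat_lit 80]⟩,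
 zbF0, [⟨nat_lit 0, nat_lit 83, nat_lit 83, nat_lit 100, nat_lit 445911332⟩]⟩
noncomputable def p023_l7 : Lf2 := ⟨nat_lit 0, nat_lit 3, [nat_lit 45, nat_lit 5, nat_lit 5, nat_lit 20], true, nat_lit 0, nat_lit 0, nat_lit 0, nat_lit 0, ⟨nat_lit 0, nat_lit 0, nat_lit 1000, nat_lit 8, nat_lit 213, nat_lit 0, nat_lit 0, nat_lit 0, nat_lit 0, nat_lit 215, nat_lit 14193, nat_lit 240, nat_lit 52241170, nat_lit 0, nat_lit 0, nat_lit 2636316, false, false⟩,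
 nat_lit 0, nat_lit 100000, nat_lit 0, nat_lit 0, nat_lit 75000, nat_lit 0, nat_lit 26139, nat_lit 20000, nat_lit 0, nat_lit 0, nat_lit 0, nat_lit 0, nat_lit 0, nat_lit 400000000000000, nat_lit 0, nat_lit 1000000, nat_lit 0, nat_lit 0, [(nat_lit 18, [(nat_lit 6, nat_lit 1000)])],
 ⟨p023_k1, nat_lit 0, nat_lit 0, nat_lit 0, nat_lit 0, nat_lit 1440310, [nat_lit 160862000001, nat_lit 239910000000, nat_lit 318582800000], [], [nat_lit 1923682303376, nat_lit 1923928072877, nat_lit 1922998723776, nat_lit 1923242248116], nat_lit 1271250, nat_lit 1271250, nat_lit 936251, nat_lit 968401, nat_lit 0, nat_lit 0, [nat_lit 490000, nat_lit 780000, nat_lit 1100000], [nat_lit 78, nat_lit 40, nat_lit 80, nat_lit 80]⟩, C1.Rw.none,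
 ⟨nat_lit 4444, nat_lit 4473, ⟨.ofNat (nat_lit 527430), .ofNat (nat_lit 534228), .ofNat (nat_lit 528508), .ofNat (nat_lit 535306), .ofNat (nat_lit 527742), .ofNat (nat_lit 534523), .ofNat (nat_lit 528821), .ofNat (nat_lit 535601)⟩, ⟨.ofNat (nat_lit 0), .ofNat (nat_lit 0), .ofNat (nat_lit 0), .ofNat (nat_lit 0), .ofNat (nat_lit 0), .ofNat (nat_lit 0), .ofNat (nat_lit 0), .ofNat (nat_lit 0)⟩⟩, [⟨nat_lit 0, nat_lit 83, nat_lit 83, nat_lit 100, nat_lit 14515894905⟩, ⟨nat_lit 0, nat_lit 83, nat_lit 83, nat_lit 100, nat_lit 14515894905⟩, ⟨nat_lit 0, nat_lit 83, nat_lit 83, nat_lit 100, nat_lit 14515894905⟩]⟩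
noncomputable def p023_l8 : Lf2 := ⟨nat_lit 0, nat_lit 3, [nat_lit 45, nat_lit 5, nat_lit 5, nat_lit 20], false, nat_lit 0, nat_lit 0, nat_lit 0, nat_lit 0, ⟨nat_lit 1000, nat_lit 0, nat_lit 0, nat_lit 0, nat_lit 0, nat_lit 0, nat_lit 0, nat_lit 0, nat_lit 0, nat_lit 0, nat_lit 0, nat_lit 0, nat_lit 0, nat_lit 0, nat_lit 0, nat_lit 0, false, false⟩,
 nat_lit 0, nat_lit 0, nat_lit 0, nat_lit 0, nat_lit 0, nat_lit 100000, nat_lit 0, nat_lit 0, nat_lit 141, nat_lit 0, nat_lit 10025, nat_lit 0, nat_lit 0, nat_lit 400000000000000, nat_lit 0, nat_lit 0, nat_lit 0, nat_lit 0, [],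
 ⟨p023_k0, nat_lit 0, nat_lit 0, nat_lit 0, nat_lit 0, nat_lit 1440310, [nat_lit 2032000001, nat_lit 4688000000], [], [nat_lit 57095234001, nat_lit 57115585751, nat_lit 57158388001, nat_lit 57178698101], nat_lit 1271250, nat_lit 1271250, nat_lit 936251, nat_lit 968401, nat_lit 0, nat_lit 0, [nat_lit 490000, nat_lit 1100000], [nat_lit 24, nat_lit 40, nat_lit 80, nat_lit 80]⟩, ⟨p023_k0, nat_lit 0, nat_lit 0, nat_lit 0, nat_lit 0, nat_lit 0, [nat_lit 82232000000, nat_lit 165088000000], [], [nat_lit 188159985000, nat_lit 189493173425, nat_lit 186959606400, nat_lit 188281709420], nat_lit 0, nat_lit 0, nat_lit 0, nat_lit 0, nat_lit 0, nat_lit 0, [], [nat_lit 24, nat_lit 40, nat_lit 80, nat_lit 80]⟩,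
 zbF0, [⟨nat_lit 0, nat_lit 83, nat_lit 83, nat_lit 100, nat_lit 14515894905⟩, ⟨nat_lit 0, nat_lit 83, nat_lit 83, nat_lit 100, nat_lit 14515894905⟩, ⟨nat_lit 0, nat_lit 83, nat_lit 83, nat_lit 100, nat_lit 14515894905⟩]⟩
noncomputable def p023_l9 : Lf2 := ⟨nat_lit 0, nat_lit 3, [nat_lit 45, nat_lit 5, nat_lit 5, nat_lit 20], true, nat_lit 0, nat_lit 0, nat_lit 0, nat_lit 0, ⟨nat_lit 0, nat_lit 0, nat_lit 1000, nat_lit 8, nat_lit 217, nat_lit 0, nat_lit 0, nat_lit 0, nat_lit 0, nat_lit 215, nat_lit 8300, nat_lit 233, nat_lit 51799733, nat_lit 0, nat_lit 0, nat_lit 2677329, false, false⟩,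
 nat_lit 0, nat_lit 100000, nat_lit 0, nat_lit 0, nat_lit 75000, nat_lit 0, nat_lit 38207, nat_lit 20000, nat_lit 0, nat_lit 0, nat_lit 0, nat_lit 0, nat_lit 0, nat_lit 400000000000000, nat_lit 0, nat_lit 1000000, nat_lit 0, nat_lit 0, [(nat_lit 18, [(nat_lit 6, nat_lit 1000)])],
 ⟨p023_k1, nat_lit 0, nat_lit 0, nat_lit 0, nat_lit 0, nat_lit 1440310, [nat_lit 160862000001, nat_lit 239910000000, nat_lit 318582800000], [], [nat_lit 1899805536276, nat_lit 1900049060616, nat_lit 1898438377077, nat_lit 1898678261572], nat_lit 1271250, nat_lit 1271250, nat_lit 968401, nat_lit 1033601, nat_lit 0, nat_lit 0, [nat_lit 490000, nat_lit 780000, nat_lit 1100000], [nat_lit 78, nat_lit 40, nat_lit 80, nat_lit 80]⟩, C1.Rw.none,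
 ⟨nat_lit 4444, nat_lit 4473, ⟨.ofNat (nat_lit 534228), .ofNat (nat_lit 547823), .ofNat (nat_lit 535306), .ofNat (nat_lit 548902), .ofNat (nat_lit 534523), .ofNat (nat_lit 548084), .ofNat (nat_lit 535601), .ofNat (nat_lit 549163)⟩, ⟨.ofNat (nat_lit 0), .ofNat (nat_lit 0), .ofNat (nat_lit 0), .ofNat (nat_lit 0), .ofNat (nat_lit 0), .ofNat (nat_lit 0), .ofNat (nat_lit 0), .ofNat (nat_lit 0)⟩⟩, [⟨nat_lit 0, nat_lit 83, nat_lit 83, nat_lit 100, nat_lit 11477314489⟩]⟩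
noncomputable def p023_l10 : Lf2 := ⟨nat_lit 0, nat_lit 3, [nat_lit 45, nat_lit 5, nat_lit 5, nat_lit 20], false, nat_lit 0, nat_lit 0, nat_lit 0, nat_lit 0, ⟨nat_lit 1000, nat_lit 0, nat_lit 0, nat_lit 0, nat_lit 0, nat_lit 0, nat_lit 0, nat_lit 0, nat_lit 0, nat_lit 0, nat_lit 0, nat_lit 0, nat_lit 0, nat_lit 0, nat_lit 0, nat_lit 0, false, false⟩,
 nat_lit 0, nat_lit 0, nat_lit 0, nat_lit 0, nat_lit 0, nat_lit 4058, nat_lit 0, nat_lit 0, nat_lit 443, nat_lit 0, nat_lit 0, nat_lit 0, nat_lit 0, nat_lit 0, nat_lit 0, nat_lit 0, nat_lit 0, nat_lit 0, [],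
 ⟨p023_k2, nat_lit 0, nat_lit 0, nat_lit 0, nat_lit 0, nat_lit 1448303, [nat_lit 2032000001, nat_lit 4688000000], [], [nat_lit 16563236680, nat_lit 16584225360, nat_lit 16692652170, nat_lit 16715212740], nat_lit 1271250, nat_lit 1271250, nat_lit 968401, nat_lit 1033601, nat_lit 0, nat_lit 0, [nat_lit 490000, nat_lit 1100000], [nat_lit 24, nat_lit 40, nat_lit 80, nat_lit 80]⟩, ⟨p023_k0, nat_lit 0, nat_lit 0, nat_lit 0, nat_lit 0, nat_lit 0, [nat_lit 2032000000, nat_lit 4688000000], [], [nat_lit 20853390327, nat_lit 21038097099, nat_lit 20945592894, nat_lit 21127871114], nat_lit 0, nat_lit 0, nat_lit 0, nat_lit 0, nat_lit 0, nat_lit 0, [], [nat_lit 24, nat_lit 40, nat_lit 80, nat_lit 80]⟩,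
 zbF0, [⟨nat_lit 0, nat_lit 83, nat_lit 83, nat_lit 100, nat_lit 527950523⟩]⟩
noncomputable def p023_l11 : Lf2 := ⟨nat_lit 0, nat_lit 3, [nat_lit 45, nat_lit 5, nat_lit 5, nat_lit 20], true, nat_lit 0, nat_lit 0, nat_lit 0, nat_lit 0, ⟨nat_lit 0, nat_lit 0, nat_lit 1000, nat_lit 8, nat_lit 216, nat_lit 0, nat_lit 0, nat_lit 0, nat_lit 0, nat_lit 215, nat_lit 5917, nat_lit 232, nat_lit 51917374, nat_lit 0, nat_lit 0, nat_lit 2666521, false, false⟩,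
 nat_lit 0, nat_lit 100000, nat_lit 0, nat_lit 0, nat_lit 75000, nat_lit 0, nat_lit 7078, nat_lit 5033, nat_lit 0, nat_lit 0, nat_lit 0, nat_lit 0, nat_lit 0, nat_lit 400000000000000, nat_lit 0, nat_lit 1000000, nat_lit 0, nat_lit 0, [(nat_lit 18, [(nat_lit 6, nat_lit 1000)])],
 ⟨p023_k1, nat_lit 0, nat_lit 0, nat_lit 0, nat_lit 0, nat_lit 1455890, [nat_lit 41126000001, nat_lit 60306000001, nat_lit 79110799999], [], [nat_lit 164327642759, nat_lit 164801089760, nat_lit 162313050360, nat_lit 162773405599], nat_lit 1271250, nat_lit 1271250, nat_lit 936251, nat_lit 1033601, nat_lit 0, nat_lit 0, [nat_lit 490000, nat_lit 780000, nat_lit 1100000], [nat_lit 78, nat_lit 40, nat_lit 80, nat_lit 80]⟩, C1.Rw.none,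
 ⟨nat_lit 4415, nat_lit 4473, ⟨.ofNat (nat_lit 527429), .ofNat (nat_lit 547823), .ofNat (nat_lit 529586), .ofNat (nat_lit 549980), .ofNat (nat_lit 528055), .ofNat (nat_lit 548345), .ofNat (nat_lit 530213), .ofNat (nat_lit 550503)⟩, ⟨.ofNat (nat_lit 0), .ofNat (nat_lit 0), .ofNat (nat_lit 0), .ofNat (nat_lit 0), .ofNat (nat_lit 0), .ofNat (nat_lit 0), .ofNat (nat_lit 0), .ofNat (nat_lit 0)⟩⟩, [⟨nat_lit 0, nat_lit 83, nat_lit 83, nat_lit 100, nat_lit 14106642485⟩]⟩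
noncomputable def p023_l12 : Lf2 := ⟨nat_lit 0, nat_lit 3, [nat_lit 45, nat_lit 5, nat_lit 5, nat_lit 20], false, nat_lit 0, nat_lit 0, nat_lit 0, nat_lit 0, ⟨nat_lit 1000, nat_lit 0, nat_lit 0, nat_lit 0, nat_lit 0, nat_lit 0, nat_lit 0, nat_lit 0, nat_lit 0, nat_lit 0, nat_lit 0, nat_lit 0, nat_lit 0, nat_lit 0, nat_lit 0, nat_lit 0, false, false⟩,
 nat_lit 0, nat_lit 9853, nat_lit 0, nat_lit 0, nat_lit 7389, nat_lit 4045, nat_lit 813, nat_lit 0, nat_lit 0, nat_lit 1133, nat_lit 0, nat_lit 0, nat_lit 0, nat_lit 0, nat_lit 0, nat_lit 0, nat_lit 0, nat_lit 0, [],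
 ⟨p023_k1, nat_lit 0, nat_lit 0, nat_lit 0, nat_lit 0, nat_lit 1455890, [nat_lit 2032000001, nat_lit 3282000000, nat_lit 4688000000], [], [nat_lit 19998810861, nat_lit 20091764905, nat_lit 19997693533, nat_lit 20094921382], nat_lit 1271250, nat_lit 1271250, nat_lit 1033601, nat_lit 1100001, nat_lit 0, nat_lit 0, [nat_lit 490000, nat_lit 780000, nat_lit 1100000], [nat_lit 78, nat_lit 40, nat_lit 80, nat_lit 80]⟩, ⟨p023_k1, nat_lit 0, nat_lit 0, nat_lit 0, nat_lit 0, nat_lit 0, [nat_lit 2032000000, nat_lit 3282000000, nat_lit 4688000000], [], [nat_lit 18778476939, nat_lit 18950069533, nat_lit 18887498565, nat_lit 19057105593], nat_lit 0, nat_lit 0, nat_lit 0, nat_lit 0, nat_lit 0, nat_lit 0, [], [nat_lit 78, nat_lit 40, nat_lit 80, nat_lit 80]⟩,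
 zbF0, []⟩
noncomputable def p023_l13 : Lf2 := ⟨nat_lit 0, nat_lit 3, [nat_lit 45, nat_lit 5, nat_lit 5, nat_lit 20], true, nat_lit 0, nat_lit 0, nat_lit 0, nat_lit 0, ⟨nat_lit 0, nat_lit 0, nat_lit 1000, nat_lit 8, nat_lit 218, nat_lit 0, nat_lit 0, nat_lit 0, nat_lit 0, nat_lit 215, nat_lit 3458, nat_lit 226, nat_lit 51623144, nat_lit 0, nat_lit 0, nat_lit 2693388, false, false⟩,
 nat_lit 0, nat_lit 100000, nat_lit 0, nat_lit 0, nat_lit 75000, nat_lit 0, nat_lit 58887, nat_lit 20000, nat_lit 0, nat_lit 0, nat_lit 0, nat_lit 0, nat_lit 0, nat_lit 400000000000000, nat_lit 0, nat_lit 1000000, nat_lit 0, nat_lit 0, [(nat_lit 18, [(nat_lit 6, nat_lit 1000)])],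
 ⟨p023_k1, nat_lit 0, nat_lit 0, nat_lit 650, nat_lit 0, nat_lit 1455890, [nat_lit 160862000001, nat_lit 239910000000, nat_lit 318582800000], [], [nat_lit 1960212398003, nat_lit 1960732657404, nat_lit 1957032456003, nat_lit 1957529481003], nat_lit 1271250, nat_lit 1271250, nat_lit 936251, nat_lit 1100001, nat_lit 0, nat_lit 0, [nat_lit 490000, nat_lit 780000, nat_lit 1100000], [nat_lit 78, nat_lit 40, nat_lit 80, nat_lit 80, nat_lit 22, nat_lit 249, nat_lit 40, nat_lit 11]⟩, C1.Rw.none,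
 ⟨nat_lit 4415, nat_lit 4473, ⟨.ofNat (nat_lit 527429), .ofNat (nat_lit 561419), .ofNat (nat_lit 529586), .ofNat (nat_lit 563575), .ofNat (nat_lit 528055), .ofNat (nat_lit 561872), .ofNat (nat_lit 530213), .ofNat (nat_lit 564030)⟩, ⟨.ofNat (nat_lit 0), .ofNat (nat_lit 0), .ofNat (nat_lit 0), .ofNat (nat_lit 0), .ofNat (nat_lit 0), .ofNat (nat_lit 0), .ofNat (nat_lit 0), .ofNat (nat_lit 0)⟩⟩, []⟩
noncomputable def p023_l14 : Lf2 := ⟨nat_lit 0, nat_lit 3, [nat_lit 45, nat_lit 5, nat_lit 5, nat_lit 20], false, nat_lit 0, nat_lit 0, nat_lit 0, nat_lit 0, ⟨nat_lit 1000, nat_lit 0, nat_lit 0, nat_lit 0, nat_lit 0, nat_lit 0, nat_lit 0, nat_lit 0, nat_lit 0, nat_lit 0, nat_lit 0, nat_lit 0, nat_lit 0, nat_lit 0, nat_lit 0, nat_lit 0, false, false⟩,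
 nat_lit 0, nat_lit 357, nat_lit 0, nat_lit 0, nat_lit 267, nat_lit 4078, nat_lit 0, nat_lit 0, nat_lit 430, nat_lit 0, nat_lit 0, nat_lit 0, nat_lit 0, nat_lit 6728535003397, nat_lit 0, nat_lit 0, nat_lit 0, nat_lit 0, [],
 ⟨p023_k0, nat_lit 0, nat_lit 0, nat_lit 0, nat_lit 0, nat_lit 1455890, [nat_lit 2032000001, nat_lit 4688000000], [], [nat_lit 16918322120, nat_lit 16960927574, nat_lit 17644346264, nat_lit 17689398388], nat_lit 1271250, nat_lit 1271250, nat_lit 1100001, nat_lit 1442500, nat_lit 0, nat_lit 0, [nat_lit 490000, nat_lit 1100000], [nat_lit 24, nat_lit 40, nat_lit 80, nat_lit 80]⟩, ⟨p023_k0, nat_lit 0, nat_lit 0, nat_lit 0, nat_lit 0, nat_lit 0, [nat_lit 2032000000, nat_lit 4688000000], [], [nat_lit 21037960296, nat_lit 21218292001, nat_lit 22538912780, nat_lit 22707045917], nat_lit 0, nat_lit 0, nat_lit 0, nat_lit 0, nat_lit 0, nat_lit 0, [], [nat_lit 24, nat_lit 40, nat_lit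 80, nat_lit 80]⟩,
 zbF0, []⟩
noncomputable def p023_l15 : Lf2 := ⟨nat_lit 2, nat_lit 3, [nat_lit 45, nat_lit 5, nat_lit 5, nat_lit 20], true, nat_lit 0, nat_lit 0, nat_lit 0, nat_lit 0, zbN0,
 nat_lit 0, nat_lit 0, nat_lit 0, nat_lit 0, nat_lit 0, nat_lit 0, nat_lit 0, nat_lit 0, nat_lit 0, nat_lit 0, nat_lit 0, nat_lit 0, nat_lit 0, nat_lit 0, nat_lit 0, nat_lit 0, nat_lit 0, nat_lit 0, [],
 ⟨p023_k1, nat_lit 0, nat_lit 0, nat_lit 644, nat_lit 0, nat_lit 1455890, [], [], [], nat_lit 1271250, nat_lit 1271250, nat_lit 1100001, nat_lit 1442500, nat_lit 0, nat_lit 0, [nat_lit 490000, nat_lit 780000, nat_lit 1100000], [nat_lit 78, nat_lit 40, nat_lit 80, nat_lit 80, nat_lit 22, nat_lit 227, nat_lit 0, nat_lit 10]⟩, C1.Rw.none,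
 zbF0, []⟩
noncomputable def p023_l16 : Lf2 := ⟨nat_lit 0, nat_lit 3, [nat_lit 45, nat_lit 5, nat_lit 5, nat_lit 20], false, nat_lit 0, nat_lit 0, nat_lit 0, nat_lit 0, ⟨nat_lit 1000, nat_lit 0, nat_lit 0, nat_lit 0, nat_lit 0, nat_lit 0, nat_lit 0, nat_lit 0, nat_lit 0, nat_lit 0, nat_lit 0, nat_lit 0, nat_lit 0, nat_lit 0, nat_lit 0, nat_lit 0, false, false⟩,
 nat_lit 0, nat_lit 0, nat_lit 0, nat_lit 0, nat_lit 0, nat_lit 100000, nat_lit 0, nat_lit 0, nat_lit 0, nat_lit 0, nat_lit 13170, nat_lit 0, nat_lit 0, nat_lit 400000000000000, nat_lit 0, nat_lit 0, nat_lit 0, nat_lit 0, [],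
 ⟨p023_k0, nat_lit 0, nat_lit 0, nat_lit 649, nat_lit 0, nat_lit 1455890, [nat_lit 2032000001, nat_lit 4688000000], [], [nat_lit 76271234001, nat_lit 76311937501, nat_lit 77266452001, nat_lit 77305855201], nat_lit 1271250, nat_lit 1271250, nat_lit 936251, nat_lit 1438750, nat_lit 0, nat_lit 0, [nat_lit 490000, nat_lit 1100000], [nat_lit 24, nat_lit 40, nat_lit 80, nat_lit 80, nat_lit 33, nat_lit 260, nat_lit 50, nat_lit 12]⟩, ⟨p023_k0, nat_lit 0, nat_lit 0, nat_lit 0, nat_lit 0, nat_lit 0, [nat_lit 107392000000, nat_lit 215408000000], [], [nat_lit 263406882000, nat_lit 265888191951, nat_lit 267946460000, nat_lit 270114722000], nat_lit 0, nat_lit 0, nat_lit 0, nat_lit 0, nat_lit 0, nat_lit 0, [], [nat_lit 24, nat_lit 40, nat_lit 80, nat_lit 80]⟩,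
 zbF0, []⟩
noncomputable def p023_l17 : Lf2 := ⟨nat_lit 3, nat_lit 3, [nat_lit 45, nat_lit 5, nat_lit 5, nat_lit 20], false, nat_lit 0, nat_lit 0, nat_lit 0, nat_lit 0, zbN0,
 nat_lit 0, nat_lit 0, nat_lit 0, nat_lit 0, nat_lit 0, nat_lit 0, nat_lit 0, nat_lit 0, nat_lit 0, nat_lit 0, nat_lit 0, nat_lit 0, nat_lit 0, nat_lit 0, nat_lit 0, nat_lit 0, nat_lit 0, nat_lit 0, [],
 C1.Rw.none, ⟨p023_k0, nat_lit 0, nat_lit 0, nat_lit 0, nat_lit 0, nat_lit 0, [], [], [], nat_lit 0, nat_lit 0, nat_lit 0, nat_lit 0, nat_lit 0, nat_lit 0, [], [nat_lit 24, nat_lit 40, nat_lit 80, nat_lit 80]⟩,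
 zbF0, []⟩
noncomputable def p023_l18 : Lf2 := ⟨nat_lit 3, nat_lit 3, [nat_lit 45, nat_lit 5, nat_lit 5, nat_lit 20], false, nat_lit 0, nat_lit 0, nat_lit 0, nat_lit 0, zbN0,
 nat_lit 0, nat_lit 0, nat_lit 0, nat_lit 0, nat_lit 0, nat_lit 0, nat_lit 0, nat_lit 0, nat_lit 0, nat_lit 0, nat_lit 0, nat_lit 0, nat_lit 0, nat_lit 0, nat_lit 0, nat_lit 0, nat_lit 0, nat_lit 0, [],
 C1.Rw.none, ⟨p023_k0, nat_lit 0, nat_lit 0, nat_lit 86, nat_lit 0, nat_lit 0, [], [], [], nat_lit 0, nat_lit 0, nat_lit 0, nat_lit 0, nat_lit 0, nat_lit 0, [], [nat_lit 24, nat_lit 40, nat_lit 80, nat_lit 80, nat_lit 33, nat_lit 260, nat_lit 50, nat_lit 12]⟩,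
 zbF0, []⟩
noncomputable def p023_l19 : Lf2 := ⟨nat_lit 0, nat_lit 4, [nat_lit 38, nat_lit 5, nat_lit 5, nat_lit 20], false, nat_lit 0, nat_lit 0, nat_lit 0, nat_lit 0, ⟨nat_lit 719, nat_lit 0, nat_lit 281, nat_lit 8, nat_lit 218, nat_lit 0, nat_lit 0, nat_lit 0, nat_lit 0, nat_lit 215, nat_lit 3458, nat_lit 226, nat_lit 51623144, nat_lit 0, nat_lit 0, nat_lit 2693388, false, false⟩,
 nat_lit 0, nat_lit 0, nat_lit 0, nat_lit 0, nat_lit 0, nat_lit 0, nat_lit 0, nat_lit 0, nat_lit 408, nat_lit 0, nat_lit 0, nat_lit 0, nat_lit 0, nat_lit 400000000000000, nat_lit 0, nat_lit 70250, nat_lit 0, nat_lit 0, [(nat_lit 18, [(nat_lit 4, nat_lit 281)])],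
 ⟨p023_k3, nat_lit 0, nat_lit 0, nat_lit 0, nat_lit 0, nat_lit 1411126, [nat_lit 1879585600, nat_lit 3313572800], [], [nat_lit 12661797800, nat_lit 12724222150, nat_lit 13109173600, nat_lit 13183967600], nat_lit 1271250, nat_lit 1271250, nat_lit 936251, nat_lit 1100001, nat_lit 0, nat_lit 0, [nat_lit 490000, nat_lit 1100000], [nat_lit 24, nat_lit 40, nat_lit 80, nat_lit 80]⟩, ⟨p023_k3, nat_lit 0, nat_lit 0, nat_lit 85, nat_lit 0, nat_lit 0, [nat_lit 1461008000, nat_lit 3370672000], [], [nat_lit 17176465658, nat_lit 17232065893, nat_lit 17527281576, nat_lit 17581934348], nat_lit 0, nat_lit 0, nat_lit 0, nat_lit 0, nat_lit 0, nat_lit 0, [], [nat_lit 24, nat_lit 40, nat_lit 80, nat_lit 80, nat_lit 33, nat_lit 249, nat_lit 40, nat_lit 11]⟩,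
 ⟨nat_lit 4415, nat_lit 4473, ⟨.ofNat (nat_lit 527429), .ofNat (nat_lit 561419), .ofNat (nat_lit 529586), .ofNat (nat_lit 563575), .ofNat (nat_lit 528055), .ofNat (nat_lit 561872), .ofNat (nat_lit 530213), .ofNat (nat_lit 564030)⟩, ⟨.ofNat (nat_lit 0), .ofNat (nat_lit 0), .ofNat (nat_lit 0), .ofNat (nat_lit 0), .ofNat (nat_lit 0), .ofNat (nat_lit 0), .ofNat (nat_lit 0), .ofNat (nat_lit 0)⟩⟩, [⟨nat_lit 13, nat_lit 99, nat_lit 2, nat_lit 100, nat_lit 52852119⟩]⟩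
noncomputable def p023_l20 : Lf2 := ⟨nat_lit 0, nat_lit 4, [nat_lit 38, nat_lit 5, nat_lit 5, nat_lit 20], false, nat_lit 0, nat_lit 0, nat_lit 0, nat_lit 0, ⟨nat_lit 1000, nat_lit 0, nat_lit 0, nat_lit 0, nat_lit 0, nat_lit 0, nat_lit 0, nat_lit 0, nat_lit 0, nat_lit 0, nat_lit 0, nat_lit 0, nat_lit 0, nat_lit 0, nat_lit 0, nat_lit 0, false, false⟩,
 nat_lit 0, nat_lit 0, nat_lit 0, nat_lit 0, nat_lit 0, nat_lit 4078, nat_lit 0, nat_lit 0, nat_lit 461, nat_lit 0, nat_lit 0, nat_lit 0, nat_lit 0, nat_lit 369431251277720, nat_lit 0, nat_lit 0, nat_lit 0, nat_lit 0, [],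
 ⟨p023_k3, nat_lit 0, nat_lit 0, nat_lit 0, nat_lit 0, nat_lit 1411126, [nat_lit 2032000001, nat_lit 4688000000], [], [nat_lit 14589215000, nat_lit 14642027250, nat_lit 14977912000, nat_lit 15031020800], nat_lit 1271250, nat_lit 1271250, nat_lit 936251, nat_lit 1100001, nat_lit 0, nat_lit 0, [nat_lit 490000, nat_lit 1100000], [nat_lit 24, nat_lit 40, nat_lit 80, nat_lit 80]⟩, ⟨p023_k3, nat_lit 0, nat_lit 0, nat_lit 85, nat_lit 0, nat_lit 0, [nat_lit 2032000000, nat_lit 4688000000], [], [nat_lit 20808901348, nat_lit 20995176520, nat_lit 21037960296, nat_lit 21218292001], nat_lit 0, nat_lit 0, nat_lit 0, nat_lit 0, nat_lit 0, nat_lit 0, [], [nat_lit 24, nat_lit 40, nat_lit 80, nat_lit 80, nat_lit 33, nat_lit 249, nat_lit 40, nat_lit 11]⟩,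
 zbF0, [⟨nat_lit 0, nat_lit 83, nat_lit 83, nat_lit 100, nat_lit 509136823⟩]⟩
noncomputable def p023_l21 : Lf2 := ⟨nat_lit 0, nat_lit 4, [nat_lit 38, nat_lit 5, nat_lit 5, nat_lit 20], false, nat_lit 0, nat_lit 0, nat_lit 0, nat_lit 0, ⟨nat_lit 1000, nat_lit 0, nat_lit 0, nat_lit 0, nat_lit 0, nat_lit 0, nat_lit 0, nat_lit 0, nat_lit 0, nat_lit 0, nat_lit 0, nat_lit 0, nat_lit 0, nat_lit 0, nat_lit 0, nat_lit 0, false, false⟩,
 nat_lit 0, nat_lit 11765, nat_lit 0, nat_lit 0, nat_lit 8823, nat_lit 4054, nat_lit 749, nat_lit 0, nat_lit 0, nat_lit 1136, nat_lit 0, nat_lit 0, nat_lit 0, nat_lit 0, nat_lit 0, nat_lit 0, nat_lit 0, nat_lit 0, [],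
 ⟨p023_k4, nat_lit 0, nat_lit 0, nat_lit 624, nat_lit 0, nat_lit 1411126, [nat_lit 2032000001, nat_lit 3282000000, nat_lit 4688000000], [], [nat_lit 11981560050, nat_lit 12087669916, nat_lit 11897360029, nat_lit 12000115475], nat_lit 1271250, nat_lit 1271250, nat_lit 936251, nat_lit 1100001, nat_lit 0, nat_lit 0, [nat_lit 490000, nat_lit 780000, nat_lit 1100000], [nat_lit 78, nat_lit 40, nat_lit 80, nat_lit 80, nat_lit 22, nat_lit 249, nat_lit 40, nat_lit 11]⟩, ⟨p023_k4, nat_lit 0, nat_lit 0, nat_lit 86, nat_lit 0, nat_lit 0, [nat_lit 2032000000, nat_lit 3282000000, nat_lit 4688000000], [], [nat_lit 18623912164, nat_lit 18810238092, nat_lit 18874363128, nat_lit 19044178402], nat_lit 0, nat_lit 0, nat_lit 0, nat_lit 0, nat_lit 0, nat_lit 0, [], [nat_lit 78, nat_lit 40, nat_lit 80, nat_lit 80, nat_lit 22, nat_lit 249, nat_lit 40, nat_lit 11]⟩,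
 zbF0, [⟨nat_lit 0, nat_lit 82, nat_lit 82, nat_lit 100, nat_lit 694922310⟩]⟩
noncomputable def p023_l22 : Lf2 := ⟨nat_lit 0, nat_lit 4, [nat_lit 38, nat_lit 5, nat_lit 5, nat_lit 20], false, nat_lit 0, nat_lit 0, nat_lit 0, nat_lit 0, ⟨nat_lit 747, nat_lit 0, nat_lit 253, nat_lit 8, nat_lit 239, nat_lit 0, nat_lit 0, nat_lit 0, nat_lit 0, nat_lit 215, nat_lit 4712, nat_lit 202, nat_lit 49411349, nat_lit 0, nat_lit 0, nat_lit 2878365, true, false⟩,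
 nat_lit 0, nat_lit 0, nat_lit 0, nat_lit 0, nat_lit 0, nat_lit 0, nat_lit 0, nat_lit 0, nat_lit 396, nat_lit 0, nat_lit 0, nat_lit 0, nat_lit 0, nat_lit 400000000000000, nat_lit 0, nat_lit 63250, nat_lit 0, nat_lit 0, [(nat_lit 18, [(nat_lit 4, nat_lit 253)])],
 ⟨p023_k3, nat_lit 0, nat_lit 0, nat_lit 0, nat_lit 0, nat_lit 1411126, [nat_lit 1894772801, nat_lit 3450526400], [], [nat_lit 14068476007, nat_lit 14126546407, nat_lit 14995654007, nat_lit 15051905907], nat_lit 1271250, nat_lit 1271250, nat_lit 1100001, nat_lit 1442500, nat_lit 0, nat_lit 0, [nat_lit 490000, nat_lit 1100000], [nat_lit 24, nat_lit 40, nat_lit 80, nat_lit 80]⟩, ⟨p023_k3, nat_lit 0, nat_lit 0, nat_lit 86, nat_lit 0, nat_lit 0, [nat_lit 1517904000, nat_lit 3501936000], [], [nat_lit 18209846088, nat_lit 18266627202, nat_lit 19055417220, nat_lit 19109979594], nat_lit 0, nat_lit 0, nat_lit 0, nat_lit 0, nat_lit 0, nat_lit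 0, [], [nat_lit 24, nat_lit 40, nat_lit 80, nat_lit 80, nat_lit 33, nat_lit 203, nat_lit 0, nat_lit 9]⟩,
 ⟨nat_lit 4415, nat_lit 4473, ⟨.ofNat (nat_lit 561419), .ofNat (nat_lit 629397), .ofNat (nat_lit 563575), .ofNat (nat_lit 631553), .ofNat (nat_lit 561872), .ofNat (nat_lit 629506), .ofNat (nat_lit 564030), .ofNat (nat_lit 631664)⟩, ⟨.ofNat (nat_lit 0), .ofNat (nat_lit 0), .ofNat (nat_lit 0), .ofNat (nat_lit 0), .ofNat (nat_lit 0), .ofNat (nat_lit 0), .ofNat (nat_lit 0), .ofNat (nat_lit 0)⟩⟩, [⟨nat_lit 13, nat_lit 99, nat_lit 2, nat_lit 100, nat_lit 87292562⟩]⟩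
noncomputable def p023_l23 : Lf2 := ⟨nat_lit 0, nat_lit 4, [nat_lit 38, nat_lit 5, nat_lit 5, nat_lit 20], false, nat_lit 0, nat_lit 0, nat_lit 0, nat_lit 0, ⟨nat_lit 1000, nat_lit 0, nat_lit 0, nat_lit 0, nat_lit 0, nat_lit 0, nat_lit 0, nat_lit 0, nat_lit 0, nat_lit 0, nat_lit 0, nat_lit 0, nat_lit 0, nat_lit 0, nat_lit 0, nat_lit 0, false, false⟩,
 nat_lit 0, nat_lit 0, nat_lit 0, nat_lit 0, nat_lit 0, nat_lit 8178, nat_lit 0, nat_lit 0, nat_lit 468, nat_lit 0, nat_lit 0, nat_lit 0, nat_lit 0, nat_lit 400000000000000, nat_lit 0, nat_lit 0, nat_lit 0, nat_lit 0, [],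
 ⟨p023_k3, nat_lit 0, nat_lit 0, nat_lit 0, nat_lit 0, nat_lit 1395614, [nat_lit 2032000001, nat_lit 4688000000], [], [nat_lit 14417912000, nat_lit 14444466400, nat_lit 14503627600, nat_lit 14530106130], nat_lit 1271250, nat_lit 1271250, nat_lit 1100001, nat_lit 1133651, nat_lit 0, nat_lit 0, [nat_lit 490000, nat_lit 1100000], [nat_lit 24, nat_lit 40, nat_lit 80, nat_lit 80]⟩, ⟨p023_k3, nat_lit 0, nat_lit 0, nat_lit 82, nat_lit 0, nat_lit 0, [nat_lit 2032000000, nat_lit 4688000000], [], [nat_lit 23571039184, nat_lit 23740195107, nat_lit 23773900897, nat_lit 23941672170], nat_lit 0, nat_lit 0, nat_lit 0, nat_lit 0, nat_lit 0, nat_lit 0, [], [nat_lit 24, nat_lit 40, nat_lit 80, nat_lit 80, nat_lit 33, nat_lit 203, nat_lit 0, nat_lit 9]⟩,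
 zbF0, []⟩
noncomputable def p023_l24 : Lf2 := ⟨nat_lit 0, nat_lit 4, [nat_lit 38, nat_lit 5, nat_lit 5, nat_lit 20], false, nat_lit 0, nat_lit 0, nat_lit 0, nat_lit 0, ⟨nat_lit 1000, nat_lit 0, nat_lit 0, nat_lit 0, nat_lit 0, nat_lit 0, nat_lit 0, nat_lit 0, nat_lit 0, nat_lit 0, nat_lit 0, nat_lit 0, nat_lit 0, nat_lit 0, nat_lit 0, nat_lit 0, false, false⟩,
 nat_lit 0, nat_lit 11784, nat_lit 0, nat_lit 0, nat_lit 8838, nat_lit 4072, nat_lit 750, nat_lit 0, nat_lit 0, nat_lit 1133, nat_lit 0, nat_lit 0, nat_lit 0, nat_lit 0, nat_lit 0, nat_lit 0, nat_lit 0, nat_lit 0, [],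
 ⟨p023_k4, nat_lit 0, nat_lit 0, nat_lit 610, nat_lit 0, nat_lit 1395614, [nat_lit 2032000001, nat_lit 3282000000, nat_lit 4688000000], [], [nat_lit 11809493374, nat_lit 11860919282, nat_lit 11877680548, nat_lit 11945206601], nat_lit 1271250, nat_lit 1271250, nat_lit 1100001, nat_lit 1133651, nat_lit 0, nat_lit 0, [nat_lit 490000, nat_lit 780000, nat_lit 1100000], [nat_lit 78, nat_lit 40, nat_lit 80, nat_lit 80, nat_lit 22, nat_lit 214, nat_lit 0, nat_lit 9]⟩, ⟨p023_k4, nat_lit 0, nat_lit 0, nat_lit 82, nat_lit 0, nat_lit 0, [nat_lit 2032000000, nat_lit 3282000000, nat_lit 4688000000], [], [nat_lit 18865389129, nat_lit 18950505012, nat_lit 19012428644, nat_lit 19107826297], nat_lit 0, nat_lit 0, nat_lit 0, nat_lit 0, nat_lit 0, nat_lit 0, [], [nat_lit 78, nat_lit 40, nat_lit 80, nat_lit 80, nat_lit 22, nat_lit 203, nat_lit 0, nat_lit 9]⟩,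
 zbF0, []⟩
noncomputable def p023_l25 : Lf2 := ⟨nat_lit 0, nat_lit 4, [nat_lit 38, nat_lit 5, nat_lit 5, nat_lit 20], false, nat_lit 0, nat_lit 0, nat_lit 0, nat_lit 0, ⟨nat_lit 1000, nat_lit 0, nat_lit 0, nat_lit 0, nat_lit 0, nat_lit 0, nat_lit 0, nat_lit 0, nat_lit 0, nat_lit 0, nat_lit 0, nat_lit 0, nat_lit 0, nat_lit 0, nat_lit 0, nat_lit 0, false, false⟩,
 nat_lit 0, nat_lit 0, nat_lit 0, nat_lit 0, nat_lit 0, nat_lit 8334, nat_lit 0, nat_lit 0, nat_lit 459, nat_lit 0, nat_lit 0, nat_lit 0, nat_lit 0, nat_lit 400000000000000, nat_lit 0, nat_lit 0, nat_lit 0, nat_lit 0, [],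
 ⟨p023_k3, nat_lit 0, nat_lit 0, nat_lit 0, nat_lit 0, nat_lit 1395614, [nat_lit 2032000001, nat_lit 4688000000], [], [nat_lit 15226656400, nat_lit 15250947155, nat_lit 15309343200, nat_lit 15335745860], nat_lit 1271250, nat_lit 1271250, nat_lit 1133651, nat_lit 1167600, nat_lit 0, nat_lit 0, [nat_lit 490000, nat_lit 1100000], [nat_lit 24, nat_lit 40, nat_lit 80, nat_lit 80]⟩, ⟨p023_k3, nat_lit 0, nat_lit 0, nat_lit 82, nat_lit 0, nat_lit 0, [nat_lit 2032000000, nat_lit 4688000000], [], [nat_lit 23975991971, nat_lit 24146121191, nat_lit 24180339989, nat_lit 24349061822], nat_lit 0, nat_lit 0, nat_lit 0, nat_lit 0, nat_lit 0, nat_lit 0, [], [nat_lit 24, nat_lit 40, nat_lit 80, nat_lit 80, nat_lit 33, nat_lit 203, nat_lit 0, nat_lit 9]⟩,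
 zbF0, []⟩
noncomputable def p023_l26 : Lf2 := ⟨nat_lit 0, nat_lit 4, [nat_lit 38, nat_lit 5, nat_lit 5, nat_lit 20], false, nat_lit 0, nat_lit 0, nat_lit 0, nat_lit 0, ⟨nat_lit 1000, nat_lit 0, nat_lit 0, nat_lit 0, nat_lit 0, nat_lit 0, nat_lit 0, nat_lit 0, nat_lit 0, nat_lit 0, nat_lit 0, nat_lit 0, nat_lit 0, nat_lit 0, nat_lit 0, nat_lit 0, false, false⟩,
 nat_lit 0, nat_lit 11750, nat_lit 0, nat_lit 0, nat_lit 8812, nat_lit 4068, nat_lit 747, nat_lit 0, nat_lit 0, nat_lit 972, nat_lit 0, nat_lit 0, nat_lit 0, nat_lit 0, nat_lit 0, nat_lit 0, nat_lit 0, nat_lit 0, [],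
 ⟨p023_k4, nat_lit 0, nat_lit 0, nat_lit 610, nat_lit 0, nat_lit 1395614, [nat_lit 2032000001, nat_lit 3282000000, nat_lit 4688000000], [], [nat_lit 12019243116, nat_lit 12070209167, nat_lit 12086924657, nat_lit 12153830318], nat_lit 1271250, nat_lit 1271250, nat_lit 1133651, nat_lit 1167600, nat_lit 0, nat_lit 0, [nat_lit 490000, nat_lit 780000, nat_lit 1100000], [nat_lit 78, nat_lit 40, nat_lit 80, nat_lit 80, nat_lit 22, nat_lit 214, nat_lit 0, nat_lit 9]⟩, ⟨p023_k4, nat_lit 0, nat_lit 0, nat_lit 83, nat_lit 0, nat_lit 0, [nat_lit 2032000000, nat_lit 3282000000, nat_lit 4688000000], [], [nat_lit 19324818668, nat_lit 19409295091, nat_lit 19471550861, nat_lit 19558405410], nat_lit 0, nat_lit 0, nat_lit 0, nat_lit 0, nat_lit 0, nat_lit 0, [], [nat_lit 78, nat_lit 40, nat_lit 80, nat_lit 80, nat_lit 22, nat_lit 203, nat_lit 0, nat_lit 9]⟩,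
 zbF0, []⟩
noncomputable def p023_l27 : Lf2 := ⟨nat_lit 0, nat_lit 4, [nat_lit 38, nat_lit 5, nat_lit 5, nat_lit 20], false, nat_lit 0, nat_lit 0, nat_lit 0, nat_lit 0, ⟨nat_lit 1000, nat_lit 0, nat_lit 0, nat_lit 0, nat_lit 0, nat_lit 0, nat_lit 0, nat_lit 0, nat_lit 0, nat_lit 0, nat_lit 0, nat_lit 0, nat_lit 0, nat_lit 0, nat_lit 0, nat_lit 0, false, false⟩,
 nat_lit 0, nat_lit 12806, nat_lit 0, nat_lit 0, nat_lit 9604, nat_lit 4064, nat_lit 0, nat_lit 0, nat_lit 0, nat_lit 0, nat_lit 0, nat_lit 0, nat_lit 0, nat_lit 0, nat_lit 0, nat_lit 0, nat_lit 0, nat_lit 0, [],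
 ⟨p023_k3, nat_lit 0, nat_lit 0, nat_lit 605, nat_lit 0, nat_lit 1395614, [nat_lit 2032000001, nat_lit 4688000000], [], [nat_lit 17894550594, nat_lit 17932414588, nat_lit 18155167808, nat_lit 18240261735], nat_lit 1271250, nat_lit 1271250, nat_lit 1167600, nat_lit 1271250, nat_lit 0, nat_lit 0, [nat_lit 490000, nat_lit 1100000], [nat_lit 24, nat_lit 40, nat_lit 80, nat_lit 80, nat_lit 33, nat_lit 214, nat_lit 0, nat_lit 9]⟩, ⟨p023_k3, nat_lit 0, nat_lit 0, nat_lit 83, nat_lit 0, nat_lit 0, [nat_lit 2032000000, nat_lit 4688000000], [], [nat_lit 21342822880, nat_lit 21426660718, nat_lit 21787420400, nat_lit 21874537574], nat_lit 0, nat_lit 0, nat_lit 0, nat_lit 0, nat_lit 0, nat_lit 0, [], [nat_lit 24, nat_lit 40, nat_lit 80, nat_lit 80, nat_lit 33, nat_lit 203, nat_lit 0, nat_lit 9]⟩,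
 zbF0, []⟩
noncomputable def p023_l28 : Lf2 := ⟨nat_lit 0, nat_lit 4, [nat_lit 38, nat_lit 5, nat_lit 5, nat_lit 20], false, nat_lit 0, nat_lit 0, nat_lit 0, nat_lit 0, ⟨nat_lit 1000, nat_lit 0, nat_lit 0, nat_lit 0, nat_lit 0, nat_lit 0, nat_lit 0, nat_lit 0, nat_lit 0, nat_lit 0, nat_lit 0, nat_lit 0, nat_lit 0, nat_lit 0, nat_lit 0, nat_lit 0, false, false⟩,
 nat_lit 0, nat_lit 12691, nat_lit 0, nat_lit 0, nat_lit 9518, nat_lit 4052, nat_lit 0, nat_lit 0, nat_lit 0, nat_lit 0, nat_lit 0, nat_lit 0, nat_lit 0, nat_lit 0, nat_lit 0, nat_lit 0, nat_lit 0, nat_lit 0, [],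
 ⟨p023_k3, nat_lit 0, nat_lit 0, nat_lit 603, nat_lit 0, nat_lit 1395614, [nat_lit 2032000001, nat_lit 4688000000], [], [nat_lit 18442394758, nat_lit 18479186813, nat_lit 18912621376, nat_lit 18993848307], nat_lit 1271250, nat_lit 1271250, nat_lit 1271250, nat_lit 1271250, nat_lit 0, nat_lit 0, [nat_lit 490000, nat_lit 1100000], [nat_lit 24, nat_lit 40, nat_lit 80, nat_lit 80, nat_lit 33, nat_lit 216, nat_lit 0, nat_lit 9]⟩, ⟨p023_k3, nat_lit 0, nat_lit 0, nat_lit 85, nat_lit 0, nat_lit 0, [nat_lit 2032000000, nat_lit 4688000000], [], [nat_lit 21792252304, nat_lit 21874179632, nat_lit 22536572520, nat_lit 22620346149], nat_lit 0, nat_lit 0, nat_lit 0, nat_lit 0, nat_lit 0, nat_lit 0, [], [nat_lit 24, nat_lit 40, nat_lit 80, nat_lit 80, nat_lit 33, nat_lit 203, nat_lit 0, nat_lit 9]⟩,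
 zbF0, []⟩
noncomputable def p023_l29 : Lf2 := ⟨nat_lit 0, nat_lit 4, [nat_lit 38, nat_lit 5, nat_lit 5, nat_lit 20], false, nat_lit 0, nat_lit 0, nat_lit 0, nat_lit 0, ⟨nat_lit 1000, nat_lit 0, nat_lit 0, nat_lit 0, nat_lit 0, nat_lit 0, nat_lit 0, nat_lit 0, nat_lit 0, nat_lit 0, nat_lit 0, nat_lit 0, nat_lit 0, nat_lit 0, nat_lit 0, nat_lit 0, false, false⟩,
 nat_lit 0, nat_lit 0, nat_lit 0, nat_lit 0, nat_lit 0, nat_lit 6658, nat_lit 0, nat_lit 0, nat_lit 468, nat_lit 0, nat_lit 0, nat_lit 0, nat_lit 0, nat_lit 400000000000000, nat_lit 0, nat_lit 0, nat_lit 0, nat_lit 0, [],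
 ⟨p023_k5, nat_lit 0, nat_lit 0, nat_lit 0, nat_lit 0, nat_lit 1403762, [nat_lit 2032000001, nat_lit 4688000000], [], [nat_lit 14444466400, nat_lit 14471020800, nat_lit 14619090490, nat_lit 14648028980], nat_lit 1271250, nat_lit 1271250, nat_lit 1100001, nat_lit 1167600, nat_lit 0, nat_lit 0, [nat_lit 490000, nat_lit 1100000], [nat_lit 24, nat_lit 40, nat_lit 80, nat_lit 80]⟩, ⟨p023_k3, nat_lit 0, nat_lit 0, nat_lit 83, nat_lit 0, nat_lit 0, [nat_lit 2032000000, nat_lit 4688000000], [], [nat_lit 21616428624, nat_lit 21908347637, nat_lit 21993188146, nat_lit 22280454752], nat_lit 0, nat_lit 0, nat_lit 0, nat_lit 0, nat_lit 0, nat_lit 0, [], [nat_lit 24, nat_lit 40, nat_lit 80, nat_lit 80, nat_lit 33, nat_lit 203, nat_lit 0, nat_lit 9]⟩,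
 zbF0, []⟩
noncomputable def p023_l30 : Lf2 := ⟨nat_lit 0, nat_lit 4, [nat_lit 38, nat_lit 5, nat_lit 5, nat_lit 20], false, nat_lit 0, nat_lit 0, nat_lit 0, nat_lit 0, ⟨nat_lit 1000, nat_lit 0, nat_lit 0, nat_lit 0, nat_lit 0, nat_lit 0, nat_lit 0, nat_lit 0, nat_lit 0, nat_lit 0, nat_lit 0, nat_lit 0, nat_lit 0, nat_lit 0, nat_lit 0, nat_lit 0, false, false⟩,
 nat_lit 0, nat_lit 11634, nat_lit 0, nat_lit 0, nat_lit 8759, nat_lit 4065, nat_lit 750, nat_lit 0, nat_lit 0, nat_lit 1130, nat_lit 0, nat_lit 0, nat_lit 0, nat_lit 0, nat_lit 0, nat_lit 0, nat_lit 0, nat_lit 0, [],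
 ⟨p023_k6, nat_lit 0, nat_lit 0, nat_lit 614, nat_lit 0, nat_lit 1403762, [nat_lit 2032000001, nat_lit 3282000000, nat_lit 4688000000], [], [nat_lit 11973464268, nat_lit 12024636404, nat_lit 12124676026, nat_lit 12191334871], nat_lit 1271250, nat_lit 1271250, nat_lit 1100001, nat_lit 1167600, nat_lit 0, nat_lit 0, [nat_lit 490000, nat_lit 780000, nat_lit 1100000], [nat_lit 78, nat_lit 40, nat_lit 80, nat_lit 80, nat_lit 22, nat_lit 215, nat_lit 0, nat_lit 9]⟩, ⟨p023_k4, nat_lit 0, nat_lit 0, nat_lit 83, nat_lit 0, nat_lit 0, [nat_lit 2032000000, nat_lit 3282000000, nat_lit 4688000000], [], [nat_lit 18876886830, nat_lit 19046956626, nat_lit 19170540958, nat_lit 19359767486], nat_lit 0, nat_lit 0, nat_lit 0, nat_lit 0, nat_lit 0, nat_lit 0, [], [nat_lit 78, nat_lit 40, nat_lit 80, nat_lit 80, nat_lit 22, nat_lit 203, nat_lit 0, nat_lit 9]⟩,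
 zbF0, []⟩
noncomputable def p023_l31 : Lf2 := ⟨nat_lit 0, nat_lit 4, [nat_lit 38, nat_lit 5, nat_lit 5, nat_lit 20], false, nat_lit 0, nat_lit 0, nat_lit 0, nat_lit 0, ⟨nat_lit 1000, nat_lit 0, nat_lit 0, nat_lit 0, nat_lit 0, nat_lit 0, nat_lit 0, nat_lit 0, nat_lit 0, nat_lit 0, nat_lit 0, nat_lit 0, nat_lit 0, nat_lit 0, nat_lit 0, nat_lit 0, false, false⟩,
 nat_lit 0, nat_lit 12735, nat_lit 0, nat_lit 0, nat_lit 9588, nat_lit 4064, nat_lit 0, nat_lit 0, nat_lit 0, nat_lit 0, nat_lit 0, nat_lit 0, nat_lit 0, nat_lit 0, nat_lit 0, nat_lit 0, nat_lit 0, nat_lit 0, [],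
 ⟨p023_k5, nat_lit 0, nat_lit 0, nat_lit 605, nat_lit 0, nat_lit 1394888, [nat_lit 2032000001, nat_lit 4688000000], [], [nat_lit 18025264607, nat_lit 18063100035, nat_lit 18284589297, nat_lit 18369589217], nat_lit 1271250, nat_lit 1271250, nat_lit 1167600, nat_lit 1271250, nat_lit 0, nat_lit 0, [nat_lit 490000, nat_lit 1100000], [nat_lit 24, nat_lit 40, nat_lit 80, nat_lit 80, nat_lit 33, nat_lit 214, nat_lit 0, nat_lit 9]⟩, ⟨p023_k3, nat_lit 0, nat_lit 0, nat_lit 83, nat_lit 0, nat_lit 0, [nat_lit 2032000000, nat_lit 4688000000], [], [nat_lit 21342822880, nat_lit 21426660718, nat_lit 21787420400, nat_lit 21874537574], nat_lit 0, nat_lit 0, nat_lit 0, nat_lit 0, nat_lit 0, nat_lit 0, [], [nat_lit 24, nat_lit 40, nat_lit 80, nat_lit 80, nat_lit 33, nat_lit 203, nat_lit 0, nat_lit 9]⟩,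
 zbF0, []⟩
noncomputable def p023_l32 : Lf2 := ⟨nat_lit 0, nat_lit 4, [nat_lit 38, nat_lit 5, nat_lit 5, nat_lit 20], false, nat_lit 0, nat_lit 0, nat_lit 0, nat_lit 0, ⟨nat_lit 1000, nat_lit 0, nat_lit 0, nat_lit 0, nat_lit 0, nat_lit 0, nat_lit 0, nat_lit 0, nat_lit 0, nat_lit 0, nat_lit 0, nat_lit 0, nat_lit 0, nat_lit 0, nat_lit 0, nat_lit 0, false, false⟩,
 nat_lit 0, nat_lit 0, nat_lit 0, nat_lit 0, nat_lit 0, nat_lit 313, nat_lit 0, nat_lit 0, nat_lit 459, nat_lit 0, nat_lit 0, nat_lit 0, nat_lit 0, nat_lit 400000000000000, nat_lit 0, nat_lit 0, nat_lit 0, nat_lit 0, [],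
 ⟨p023_k5, nat_lit 0, nat_lit 0, nat_lit 0, nat_lit 0, nat_lit 1403762, [nat_lit 2032000001, nat_lit 4688000000], [], [nat_lit 15335745860, nat_lit 15362148520, nat_lit 15421385590, nat_lit 15447712380], nat_lit 1271250, nat_lit 1271250, nat_lit 1167600, nat_lit 1201850, nat_lit 0, nat_lit 0, [nat_lit 490000, nat_lit 1100000], [nat_lit 24, nat_lit 40, nat_lit 80, nat_lit 80]⟩, ⟨p023_k5, nat_lit 0, nat_lit 0, nat_lit 83, nat_lit 0, nat_lit 0, [nat_lit 2032000000, nat_lit 4688000000], [], [nat_lit 24393812072, nat_lit 24435073884, nat_lit 24509405320, nat_lit 24550484408], nat_lit 0, nat_lit 0, nat_lit 0, nat_lit 0, nat_lit 0, nat_lit 0, [], [nat_lit 24, nat_lit 40, nat_lit 80, nat_lit 80, nat_lit 33, nat_lit 203, nat_lit 0, nat_lit 9]⟩,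
 zbF0, []⟩
noncomputable def p023_l33 : Lf2 := ⟨nat_lit 0, nat_lit 4, [nat_lit 38, nat_lit 5, nat_lit 5, nat_lit 20], false, nat_lit 0, nat_lit 0, nat_lit 0, nat_lit 0, ⟨nat_lit 1000, nat_lit 0, nat_lit 0, nat_lit 0, nat_lit 0, nat_lit 0, nat_lit 0, nat_lit 0, nat_lit 0, nat_lit 0, nat_lit 0, nat_lit 0, nat_lit 0, nat_lit 0, nat_lit 0, nat_lit 0, false, false⟩,
 nat_lit 0, nat_lit 11568, nat_lit 0, nat_lit 0, nat_lit 8709, nat_lit 3531, nat_lit 744, nat_lit 0, nat_lit 0, nat_lit 1159, nat_lit 0, nat_lit 0, nat_lit 0, nat_lit 0, nat_lit 0, nat_lit 0, nat_lit 0, nat_lit 0, [],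
 ⟨p023_k6, nat_lit 0, nat_lit 0, nat_lit 613, nat_lit 0, nat_lit 1403762, [nat_lit 2032000001, nat_lit 3282000000, nat_lit 4688000000], [], [nat_lit 12383817851, nat_lit 12434084142, nat_lit 12450523662, nat_lit 12516456566], nat_lit 1271250, nat_lit 1271250, nat_lit 1167600, nat_lit 1201850, nat_lit 0, nat_lit 0, [nat_lit 490000, nat_lit 780000, nat_lit 1100000], [nat_lit 78, nat_lit 40, nat_lit 80, nat_lit 80, nat_lit 22, nat_lit 215, nat_lit 0, nat_lit 9]⟩, ⟨p023_k6, nat_lit 0, nat_lit 0, nat_lit 84, nat_lit 0, nat_lit 0, [nat_lit 2032000000, nat_lit 3282000000, nat_lit 4688000000], [], [nat_lit 19559254398, nat_lit 19637554144, nat_lit 19704869810, nat_lit 19786788482], nat_lit 0, nat_lit 0, nat_lit 0, nat_lit 0, nat_lit 0, nat_lit 0, [], [nat_lit 78, nat_lit 40, nat_lit 80, nat_lit 80, nat_lit 22, nat_lit 203, nat_lit 0, nat_lit 9]⟩,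
 zbF0, []⟩
noncomputable def p023_l34 : Lf2 := ⟨nat_lit 0, nat_lit 4, [nat_lit 38, nat_lit 5, nat_lit 5, nat_lit 20], false, nat_lit 0, nat_lit 0, nat_lit 0, nat_lit 0, ⟨nat_lit 1000, nat_lit 0, nat_lit 0, nat_lit 0, nat_lit 0, nat_lit 0, nat_lit 0, nat_lit 0, nat_lit 0, nat_lit 0, nat_lit 0, nat_lit 0, nat_lit 0, nat_lit 0, nat_lit 0, nat_lit 0, false, false⟩,
 nat_lit 0, nat_lit 0, nat_lit 0, nat_lit 0, nat_lit 0, nat_lit 63, nat_lit 0, nat_lit 0, nat_lit 458, nat_lit 0, nat_lit 0, nat_lit 0, nat_lit 0, nat_lit 400000000000000, nat_lit 0, nat_lit 0, nat_lit 0, nat_lit 0, [],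
 ⟨p023_k5, nat_lit 0, nat_lit 0, nat_lit 0, nat_lit 0, nat_lit 1403762, [nat_lit 2032000001, nat_lit 4688000000], [], [nat_lit 15506419665, nat_lit 15530582130, nat_lit 15587025320, nat_lit 15613276240], nat_lit 1271250, nat_lit 1271250, nat_lit 1201850, nat_lit 1236400, nat_lit 0, nat_lit 0, [nat_lit 490000, nat_lit 1100000], [nat_lit 24, nat_lit 40, nat_lit 80, nat_lit 80]⟩, ⟨p023_k5, nat_lit 0, nat_lit 0, nat_lit 84, nat_lit 0, nat_lit 0, [nat_lit 2032000000, nat_lit 4688000000], [], [nat_lit 24705129003, nat_lit 24743397773, nat_lit 24818688578, nat_lit 24856801951], nat_lit 0, nat_lit 0, nat_lit 0, nat_lit 0, nat_lit 0, nat_lit 0, [], [nat_lit 24, nat_lit 40, nat_lit 80, nat_lit 80, nat_lit 33, nat_lit 203, nat_lit 0, nat_lit 9]⟩,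
 zbF0, []⟩
noncomputable def p023_l35 : Lf2 := ⟨nat_lit 0, nat_lit 4, [nat_lit 38, nat_lit 5, nat_lit 5, nat_lit 20], false, nat_lit 0, nat_lit 0, nat_lit 0, nat_lit 0, ⟨nat_lit 1000, nat_lit 0, nat_lit 0, nat_lit 0, nat_lit 0, nat_lit 0, nat_lit 0, nat_lit 0, nat_lit 0, nat_lit 0, nat_lit 0, nat_lit 0, nat_lit 0, nat_lit 0, nat_lit 0, nat_lit 0, false, false⟩,
 nat_lit 0, nat_lit 12816, nat_lit 0, nat_lit 0, nat_lit 9649, nat_lit 4054, nat_lit 0, nat_lit 0, nat_lit 0, nat_lit 0, nat_lit 0, nat_lit 0, nat_lit 0, nat_lit 0, nat_lit 0, nat_lit 0, nat_lit 0, nat_lit 0, [],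
 ⟨p023_k5, nat_lit 0, nat_lit 0, nat_lit 610, nat_lit 0, nat_lit 1403762, [nat_lit 2032000001, nat_lit 4688000000], [], [nat_lit 17686433175, nat_lit 17724067813, nat_lit 17718345541, nat_lit 17775589720], nat_lit 1271250, nat_lit 1271250, nat_lit 1201850, nat_lit 1236400, nat_lit 0, nat_lit 0, [nat_lit 490000, nat_lit 1100000], [nat_lit 24, nat_lit 40, nat_lit 80, nat_lit 80, nat_lit 33, nat_lit 215, nat_lit 0, nat_lit 9]⟩, ⟨p023_k5, nat_lit 0, nat_lit 0, nat_lit 84, nat_lit 0, nat_lit 0, [nat_lit 2032000000, nat_lit 4688000000], [], [nat_lit 21580596135, nat_lit 21663728814, nat_lit 21726621258, nat_lit 21812247399], nat_lit 0, nat_lit 0, nat_lit 0, nat_lit 0, nat_lit 0, nat_lit 0, [], [nat_lit 24, nat_lit 40, nat_lit 80, nat_lit 80, nat_lit 33, nat_lit 203, nat_lit 0, nat_lit 9]⟩,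
 zbF0, []⟩
noncomputable def p023_l36 : Lf2 := ⟨nat_lit 0, nat_lit 4, [nat_lit 38, nat_lit 5, nat_lit 5, nat_lit 20], false, nat_lit 0, nat_lit 0, nat_lit 0, nat_lit 0, ⟨nat_lit 1000, nat_lit 0, nat_lit 0, nat_lit 0, nat_lit 0, nat_lit 0, nat_lit 0, nat_lit 0, nat_lit 0, nat_lit 0, nat_lit 0, nat_lit 0, nat_lit 0, nat_lit 0, nat_lit 0, nat_lit 0, false, false⟩,
 nat_lit 0, nat_lit 12659, nat_lit 0, nat_lit 0, nat_lit 9531, nat_lit 4050, nat_lit 0, nat_lit 0, nat_lit 0, nat_lit 0, nat_lit 0, nat_lit 0, nat_lit 0, nat_lit 53894139978845, nat_lit 0, nat_lit 0, nat_lit 0, nat_lit 0, [],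
 ⟨p023_k5, nat_lit 0, nat_lit 0, nat_lit 609, nat_lit 0, nat_lit 1403762, [nat_lit 2032000001, nat_lit 4688000000], [], [nat_lit 18387697810, nat_lit 18424818500, nat_lit 18442506237, nat_lit 18527171261], nat_lit 1271250, nat_lit 1271250, nat_lit 1236400, nat_lit 1271250, nat_lit 0, nat_lit 0, [nat_lit 490000, nat_lit 1100000], [nat_lit 24, nat_lit 40, nat_lit 80, nat_lit 80, nat_lit 33, nat_lit 215, nat_lit 0, nat_lit 9]⟩, ⟨p023_k5, nat_lit 0, nat_lit 0, nat_lit 84, nat_lit 0, nat_lit 0, [nat_lit 2032000000, nat_lit 4688000000], [], [nat_lit 21729720299, nat_lit 21812216796, nat_lit 21875712883, nat_lit 21960640535], nat_lit 0, nat_lit 0, nat_lit 0, nat_lit 0, nat_lit 0, nat_lit 0, [], [nat_lit 24, nat_lit 40, nat_lit 80, nat_lit 80, nat_lit 33, nat_lit 203, nat_lit 0, nat_lit 9]⟩,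
 zbF0, []⟩
noncomputable def p023_l37 : Lf2 := ⟨nat_lit 0, nat_lit 4, [nat_lit 38, nat_lit 5, nat_lit 5, nat_lit 20], false, nat_lit 0, nat_lit 0, nat_lit 0, nat_lit 0, ⟨nat_lit 1000, nat_lit 0, nat_lit 0, nat_lit 0, nat_lit 0, nat_lit 0, nat_lit 0, nat_lit 0, nat_lit 0, nat_lit 0, nat_lit 0, nat_lit 0, nat_lit 0, nat_lit 0, nat_lit 0, nat_lit 0, false, false⟩,
 nat_lit 0, nat_lit 12621, nat_lit 0, nat_lit 0, nat_lit 9502, nat_lit 4046, nat_lit 0, nat_lit 0, nat_lit 0, nat_lit 0, nat_lit 0, nat_lit 0, nat_lit 0, nat_lit 0, nat_lit 0, nat_lit 0, nat_lit 0, nat_lit 0, [],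
 ⟨p023_k5, nat_lit 0, nat_lit 0, nat_lit 608, nat_lit 0, nat_lit 1403762, [nat_lit 2032000001, nat_lit 4688000000], [], [nat_lit 18572308657, nat_lit 18609073452, nat_lit 19038085079, nat_lit 19119222894], nat_lit 1271250, nat_lit 1271250, nat_lit 1271250, nat_lit 1271250, nat_lit 0, nat_lit 0, [nat_lit 490000, nat_lit 1100000], [nat_lit 24, nat_lit 40, nat_lit 80, nat_lit 80, nat_lit 33, nat_lit 218, nat_lit 0, nat_lit 9]⟩, ⟨p023_k3, nat_lit 0, nat_lit 0, nat_lit 86, nat_lit 0, nat_lit 0, [nat_lit 2032000000, nat_lit 4688000000], [], [nat_lit 21796918192, nat_lit 21960640576, nat_lit 22536032460, nat_lit 22703444515], nat_lit 0, nat_lit 0, nat_lit 0, nat_lit 0, nat_lit 0, nat_lit 0, [], [nat_lit 24, nat_lit 40, nat_lit 80, nat_lit 80, nat_lit 33, nat_lit 203, nat_lit 0, nat_lit 9]⟩,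
 zbF0, []⟩
noncomputable def b_N_800_800_0_3 : St := ⟨false, nat_lit 1, nat_lit 0, nat_lit 1, nat_lit 40, nat_lit 320, nat_lit 322, nat_lit 320, nat_lit 322, nat_lit 140, nat_lit 200, nat_lit 0, nat_lit 0, nat_lit 0, nat_lit 0, nat_lit 0, nat_lit 0, nat_lit 8, nat_lit 16, nat_lit 0, nat_lit 0, nat_lit 0, nat_lit 0⟩
theorem d_N_800_800_0_3 (h : EB TB.env) : Dead b_N_800_800_0_3 := chkB_sound0 h (T :=
(.spl (nat_lit 6) (nat_lit 12)
(.spl (nat_lit 7) (nat_lit 600)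
(.leaf p023_l0)
(.spl (nat_lit 7) (nat_lit 900)
(.leaf p023_l1)
(.spl (nat_lit 7) (nat_lit 1060)
(.leaf p023_l2)
(.spl (nat_lit 8) (nat_lit 800)
(.spl (nat_lit 8) (nat_lit 400)
(.spl (nat_lit 8) (nat_lit 200)
(.spl (nat_lit 2) (nat_lit 160)
(.spl (nat_lit 8) (nat_lit 100)
(.leaf p023_l3)
(.spl (nat_lit 7) (nat_lit 1220)
(.spl (nat_lit 2) (nat_lit 152)
(.spl (nat_lit 7) (nat_lit 1140)
(.leaf p023_l4)
(.spl (nat_lit 7) (nat_lit 1180)
(.leaf p023_l5)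
(.spl (nat_lit 7) (nat_lit 1200)
(.spl (nat_lit 0) (nat_lit 321)
(.ord (.spl (nat_lit 2) (nat_lit 144)
(.spl (nat_lit 8) (nat_lit 160)
(.leaf p023_l6)
(.spl (nat_lit 8) (nat_lit 180)
(.leaf p023_l7)
(.leaf p023_l8)))
(.leaf p023_l9)))
(.trZ (nat_lit 0) (nat_lit 83) (nat_lit 83) (nat_lit 100) (nat_lit 144) (.leaf p023_l10)))
(.leaf p023_l11))))
(.leaf p023_l12))
(.leaf p023_l13)))
(.spl (nat_lit 7) (nat_lit 1220)
(.leaf p023_l14)
(.leaf p023_l15)))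
(.leaf p023_l16))
(.leaf p023_l17))
(.leaf p023_l18)))))
(.spl (nat_lit 2) (nat_lit 160)
(.spl (nat_lit 7) (nat_lit 600)
(.leaf p023_l19)
(.spl (nat_lit 7) (nat_lit 900)
(.leaf p023_l20)
(.leaf p023_l21)))
(.spl (nat_lit 7) (nat_lit 600)
(.leaf p023_l22)
(.spl (nat_lit 0) (nat_lit 321)
(.ord (.spl (nat_lit 2) (nat_lit 180)
(.spl (nat_lit 2) (nat_lit 168)
(.spl (nat_lit 2) (nat_lit 164)
(.spl (nat_lit 7) (nat_lit 900)
(.leaf p023_l23)
(.leaf p023_l24))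
(.spl (nat_lit 7) (nat_lit 900)
(.leaf p023_l25)
(.leaf p023_l26)))
(.leaf p023_l27))
(.leaf p023_l28)))
(.spl (nat_lit 2) (nat_lit 180)
(.spl (nat_lit 2) (nat_lit 168)
(.spl (nat_lit 7) (nat_lit 900)
(.leaf p023_l29)
(.leaf p023_l30))
(.spl (nat_lit 1) (nat_lit 321)
(.leaf p023_l31)
(.spl (nat_lit 2) (nat_lit 176)
(.spl (nat_lit 2) (nat_lit 172)
(.spl (nat_lit 7) (nat_lit 900)
(.leaf p023_l32)
(.leaf p023_l33))
(.spl (nat_lit 7) (nat_lit 900)
(.leaf p023_l34)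
(.leaf p023_l35)))
(.leaf p023_l36))))
(.leaf p023_l37))))))) (by decide +kernel)
noncomputable def p023_l38 : Lf2 := ⟨nat_lit 0, nat_lit 3, [nat_lit 45, nat_lit 5, nat_lit 5, nat_lit 20], false, nat_lit 0, nat_lit 0, nat_lit 0, nat_lit 0, ⟨nat_lit 1000, nat_lit 0, nat_lit 0, nat_lit 0, nat_lit 0, nat_lit 0, nat_lit 0, nat_lit 0, nat_lit 0, nat_lit 0, nat_lit 0, nat_lit 0, nat_lit 0, nat_lit 0, nat_lit 0, nat_lit 0, false, false⟩,
 nat_lit 0, nat_lit 11022, nat_lit 0, nat_lit 0, nat_lit 8266, nat_lit 4032, nat_lit 0, nat_lit 0, nat_lit 0, nat_lit 0, nat_lit 0, nat_lit 0, nat_lit 0, nat_lit 0, nat_lit 0, nat_lit 0, nat_lit 0, nat_lit 0, [],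
 ⟨p023_k0, nat_lit 0, nat_lit 0, nat_lit 627, nat_lit 0, nat_lit 1440310, [nat_lit 2032000001, nat_lit 4688000000], [], [nat_lit 25847628532, nat_lit 25880927227, nat_lit 27758203680, nat_lit 27900753037], nat_lit 1271250, nat_lit 1271250, nat_lit 1271250, nat_lit 1271250, nat_lit 0, nat_lit 0, [nat_lit 490000, nat_lit 1100000], [nat_lit 24, nat_lit 40, nat_lit 80, nat_lit 80, nat_lit 33, nat_lit 227, nat_lit 0, nat_lit 10]⟩, ⟨p023_k0, nat_lit 0, nat_lit 0, nat_lit 89, nat_lit 0, nat_lit 0, [nat_lit 2032000000, nat_lit 4688000000], [], [nat_lit 22539982304, nat_lit 22618742940, nat_lit 24032594560, nat_lit 24109764085], nat_lit 0, nat_lit 0, nat_lit 0, nat_lit 0, nat_lit 0, nat_lit 0, [], [nat_lit 24, nat_lit 40, nat_lit 80, nat_lit 80, nat_lit 33, nat_lit 203, nat_lit 0, nat_lit 8]⟩,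
 zbF0, []⟩
noncomputable def p023_l39 : Lf2 := ⟨nat_lit 0, nat_lit 3, [nat_lit 45, nat_lit 5, nat_lit 5, nat_lit 20], false, nat_lit 0, nat_lit 0, nat_lit 0, nat_lit 0, ⟨nat_lit 1000, nat_lit 0, nat_lit 0, nat_lit 0, nat_lit 0, nat_lit 0, nat_lit 0, nat_lit 0, nat_lit 0, nat_lit 0, nat_lit 0, nat_lit 0, nat_lit 0, nat_lit 0, nat_lit 0, nat_lit 0, false, false⟩,
 nat_lit 0, nat_lit 10350, nat_lit 0, nat_lit 0, nat_lit 7792, nat_lit 4032, nat_lit 4016, nat_lit 0, nat_lit 0, nat_lit 0, nat_lit 0, nat_lit 0, nat_lit 0, nat_lit 0, nat_lit 0, nat_lit 0, nat_lit 0, nat_lit 0, [],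
 ⟨p023_k2, nat_lit 0, nat_lit 0, nat_lit 627, nat_lit 0, nat_lit 1439349, [nat_lit 2032000001, nat_lit 4688000000], [], [nat_lit 25339883213, nat_lit 25372438842, nat_lit 27195049655, nat_lit 27331747149], nat_lit 1271250, nat_lit 1271250, nat_lit 1271250, nat_lit 1271250, nat_lit 0, nat_lit 0, [nat_lit 490000, nat_lit 1100000], [nat_lit 24, nat_lit 40, nat_lit 80, nat_lit 80, nat_lit 33, nat_lit 227, nat_lit 0, nat_lit 10]⟩, ⟨p023_k0, nat_lit 0, nat_lit 0, nat_lit 89, nat_lit 0, nat_lit 0, [nat_lit 2032000000, nat_lit 4688000000], [], [nat_lit 22539982304, nat_lit 22618742940, nat_lit 24032594560, nat_lit 24109764085], nat_lit 0, nat_lit 0, nat_lit 0, nat_lit 0, nat_lit 0, nat_lit 0, [], [nat_lit 24, nat_lit 40, nat_lit 80, nat_lit 80, nat_lit 33, nat_lit 203, nat_lit 0, nat_lit 8]⟩,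
 zbF0, []⟩
noncomputable def p023_l40 : Lf2 := ⟨nat_lit 0, nat_lit 3, [nat_lit 45, nat_lit 5, nat_lit 5, nat_lit 20], false, nat_lit 0, nat_lit 0, nat_lit 0, nat_lit 0, ⟨nat_lit 1000, nat_lit 0, nat_lit 0, nat_lit 0, nat_lit 0, nat_lit 0, nat_lit 0, nat_lit 0, nat_lit 0, nat_lit 0, nat_lit 0, nat_lit 0, nat_lit 0, nat_lit 0, nat_lit 0, nat_lit 0, false, false⟩,
 nat_lit 0, nat_lit 0, nat_lit 0, nat_lit 0, nat_lit 0, nat_lit 0, nat_lit 0, nat_lit 0, nat_lit 473, nat_lit 12150, nat_lit 0, nat_lit 0, nat_lit 0, nat_lit 400000000000000, nat_lit 0, nat_lit 0, nat_lit 0, nat_lit 0, [],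
 ⟨p023_k2, nat_lit 0, nat_lit 0, nat_lit 0, nat_lit 0, nat_lit 1448303, [nat_lit 2032000001, nat_lit 4688000000], [], [nat_lit 15037198050, nat_lit 15065412100, nat_lit 15131179565, nat_lit 15162103130], nat_lit 1271250, nat_lit 1271250, nat_lit 1271250, nat_lit 1271250, nat_lit 0, nat_lit 0, [nat_lit 490000, nat_lit 1100000], [nat_lit 24, nat_lit 40, nat_lit 80, nat_lit 80]⟩, ⟨p023_k2, nat_lit 0, nat_lit 0, nat_lit 86, nat_lit 0, nat_lit 0, [nat_lit 2032000000, nat_lit 4688000000], [], [nat_lit 24292812250, nat_lit 24329333250, nat_lit 24405859340, nat_lit 24442231830], nat_lit 0, nat_lit 0, nat_lit 0, nat_lit 0, nat_lit 0, nat_lit 0, [], [nat_lit 24, nat_lit 40, nat_lit 80, nat_lit 80, nat_lit 33, nat_lit 203, nat_lit 0, nat_lit 8]⟩,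
 zbF0, []⟩
noncomputable def p023_l41 : Lf2 := ⟨nat_lit 0, nat_lit 3, [nat_lit 45, nat_lit 5, nat_lit 5, nat_lit 20], false, nat_lit 0, nat_lit 0, nat_lit 0, nat_lit 0, ⟨nat_lit 1000, nat_lit 0, nat_lit 0, nat_lit 0, nat_lit 0, nat_lit 0, nat_lit 0, nat_lit 0, nat_lit 0, nat_lit 0, nat_lit 0, nat_lit 0, nat_lit 0, nat_lit 0, nat_lit 0, nat_lit 0, false, false⟩,
 nat_lit 0, nat_lit 11625, nat_lit 0, nat_lit 0, nat_lit 8752, nat_lit 4026, nat_lit 4561, nat_lit 0, nat_lit 0, nat_lit 0, nat_lit 0, nat_lit 0, nat_lit 0, nat_lit 0, nat_lit 0, nat_lit 0, nat_lit 0, nat_lit 0, [],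
 ⟨p023_k2, nat_lit 0, nat_lit 0, nat_lit 632, nat_lit 0, nat_lit 1448303, [nat_lit 2032000001, nat_lit 4688000000], [], [nat_lit 19275765077, nat_lit 19309825650, nat_lit 19332467137, nat_lit 19408802119], nat_lit 1271250, nat_lit 1271250, nat_lit 1271250, nat_lit 1271250, nat_lit 0, nat_lit 0, [nat_lit 490000, nat_lit 1100000], [nat_lit 24, nat_lit 40, nat_lit 80, nat_lit 80, nat_lit 33, nat_lit 224, nat_lit 0, nat_lit 9]⟩, ⟨p023_k2, nat_lit 0, nat_lit 0, nat_lit 86, nat_lit 0, nat_lit 0, [nat_lit 2032000000, nat_lit 4688000000], [], [nat_lit 22623098651, nat_lit 22701796430, nat_lit 22768896003, nat_lit 22849651990], nat_lit 0, nat_lit 0, nat_lit 0, nat_lit 0, nat_lit 0, nat_lit 0, [], [nat_lit 24, nat_lit 40, nat_lit 80, nat_lit 80, nat_lit 33, nat_lit 203, nat_lit 0, nat_lit 8]⟩,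
 zbF0, []⟩
noncomputable def p023_l42 : Lf2 := ⟨nat_lit 0, nat_lit 3, [nat_lit 45, nat_lit 5, nat_lit 5, nat_lit 20], false, nat_lit 0, nat_lit 0, nat_lit 0, nat_lit 0, ⟨nat_lit 1000, nat_lit 0, nat_lit 0, nat_lit 0, nat_lit 0, nat_lit 0, nat_lit 0, nat_lit 0, nat_lit 0, nat_lit 0, nat_lit 0, nat_lit 0, nat_lit 0, nat_lit 0, nat_lit 0, nat_lit 0, false, false⟩,
 nat_lit 0, nat_lit 10319, nat_lit 0, nat_lit 0, nat_lit 7769, nat_lit 4022, nat_lit 4013, nat_lit 0, nat_lit 0, nat_lit 0, nat_lit 0, nat_lit 0, nat_lit 0, nat_lit 0, nat_lit 0, nat_lit 0, nat_lit 0, nat_lit 0, [],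
 ⟨p023_k2, nat_lit 0, nat_lit 0, nat_lit 631, nat_lit 0, nat_lit 1448303, [nat_lit 2032000001, nat_lit 4688000000], [], [nat_lit 25502677848, nat_lit 25534938887, nat_lit 25579687553, nat_lit 25726701381], nat_lit 1271250, nat_lit 1271250, nat_lit 1271250, nat_lit 1271250, nat_lit 0, nat_lit 0, [nat_lit 490000, nat_lit 1100000], [nat_lit 24, nat_lit 40, nat_lit 80, nat_lit 80, nat_lit 33, nat_lit 224, nat_lit 0, nat_lit 9]⟩, ⟨p023_k2, nat_lit 0, nat_lit 0, nat_lit 87, nat_lit 0, nat_lit 0, [nat_lit 2032000000, nat_lit 4688000000], [], [nat_lit 22771767272, nat_lit 22849834991, nat_lit 22917532085, nat_lit 22997596005], nat_lit 0, nat_lit 0, nat_lit 0, nat_lit 0, nat_lit 0, nat_lit 0, [], [nat_lit 24, nat_lit 40, nat_lit 80, nat_lit 80, nat_lit 33, nat_lit 203, nat_lit 0, nat_lit 8]⟩,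
 zbF0, []⟩
noncomputable def p023_l43 : Lf2 := ⟨nat_lit 0, nat_lit 3, [nat_lit 45, nat_lit 5, nat_lit 5, nat_lit 20], false, nat_lit 0, nat_lit 0, nat_lit 0, nat_lit 0, ⟨nat_lit 1000, nat_lit 0, nat_lit 0, nat_lit 0, nat_lit 0, nat_lit 0, nat_lit 0, nat_lit 0, nat_lit 0, nat_lit 0, nat_lit 0, nat_lit 0, nat_lit 0, nat_lit 0, nat_lit 0, nat_lit 0, false, false⟩,
 nat_lit 0, nat_lit 10290, nat_lit 0, nat_lit 0, nat_lit 7747, nat_lit 4018, nat_lit 4000, nat_lit 0, nat_lit 0, nat_lit 0, nat_lit 0, nat_lit 0, nat_lit 0, nat_lit 0, nat_lit 0, nat_lit 0, nat_lit 0, nat_lit 0, [],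
 ⟨p023_k2, nat_lit 0, nat_lit 0, nat_lit 630, nat_lit 0, nat_lit 1448303, [nat_lit 2032000001, nat_lit 4688000000], [], [nat_lit 25668123225, nat_lit 25700092440, nat_lit 26140885057, nat_lit 26283636140], nat_lit 1271250, nat_lit 1271250, nat_lit 1271250, nat_lit 1271250, nat_lit 0, nat_lit 0, [nat_lit 490000, nat_lit 1100000], [nat_lit 24, nat_lit 40, nat_lit 80, nat_lit 80, nat_lit 33, nat_lit 226, nat_lit 0, nat_lit 9]⟩, ⟨p023_k2, nat_lit 0, nat_lit 0, nat_lit 88, nat_lit 0, nat_lit 0, [nat_lit 2032000000, nat_lit 4688000000], [], [nat_lit 22920370815, nat_lit 22997809350, nat_lit 23362054776, nat_lit 23442264241], nat_lit 0, nat_lit 0, nat_lit 0, nat_lit 0, nat_lit 0, nat_lit 0, [], [nat_lit 24, nat_lit 40, nat_lit 80, nat_lit 80, nat_lit 33, nat_lit 203, nat_lit 0, nat_lit 8]⟩,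
 zbF0, []⟩
noncomputable def p023_l44 : Lf2 := ⟨nat_lit 0, nat_lit 3, [nat_lit 45, nat_lit 5, nat_lit 5, nat_lit 20], false, nat_lit 0, nat_lit 0, nat_lit 0, nat_lit 0, ⟨nat_lit 1000, nat_lit 0, nat_lit 0, nat_lit 0, nat_lit 0, nat_lit 0, nat_lit 0, nat_lit 0, nat_lit 0, nat_lit 0, nat_lit 0, nat_lit 0, nat_lit 0, nat_lit 0, nat_lit 0, nat_lit 0, false, false⟩,
 nat_lit 0, nat_lit 10203, nat_lit 0, nat_lit 0, nat_lit 7681, nat_lit 4007, nat_lit 3964, nat_lit 0, nat_lit 0, nat_lit 0, nat_lit 0, nat_lit 0, nat_lit 0, nat_lit 0, nat_lit 0, nat_lit 0, nat_lit 0, nat_lit 0, [],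
 ⟨p023_k2, nat_lit 0, nat_lit 0, nat_lit 628, nat_lit 0, nat_lit 1448303, [nat_lit 2032000001, nat_lit 4688000000], [], [nat_lit 26163479391, nat_lit 26194580319, nat_lit 27029790002, nat_lit 27165117124], nat_lit 1271250, nat_lit 1271250, nat_lit 1271250, nat_lit 1271250, nat_lit 0, nat_lit 0, [nat_lit 490000, nat_lit 1100000], [nat_lit 24, nat_lit 40, nat_lit 80, nat_lit 80, nat_lit 33, nat_lit 228, nat_lit 0, nat_lit 10]⟩, ⟨p023_k2, nat_lit 0, nat_lit 0, nat_lit 90, nat_lit 0, nat_lit 0, [nat_lit 2032000000, nat_lit 4688000000], [], [nat_lit 23365105701, nat_lit 23440671858, nat_lit 24105197535, nat_lit 24182115008], nat_lit 0, nat_lit 0, nat_lit 0, nat_lit 0, nat_lit 0, nat_lit 0, [], [nat_lit 24, nat_lit 40, nat_lit 80, nat_lit 80, nat_lit 33, nat_lit 203, nat_lit 0, nat_lit 8]⟩,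
 zbF0, []⟩
noncomputable def p023_l45 : Lf2 := ⟨nat_lit 0, nat_lit 4, [nat_lit 38, nat_lit 5, nat_lit 5, nat_lit 20], false, nat_lit 0, nat_lit 0, nat_lit 0, nat_lit 0, ⟨nat_lit 1000, nat_lit 0, nat_lit 0, nat_lit 0, nat_lit 0, nat_lit 0, nat_lit 0, nat_lit 0, nat_lit 0, nat_lit 0, nat_lit 0, nat_lit 0, nat_lit 0, nat_lit 0, nat_lit 0, nat_lit 0, false, false⟩,
 nat_lit 0, nat_lit 10999, nat_lit 0, nat_lit 0, nat_lit 8249, nat_lit 4026, nat_lit 0, nat_lit 0, nat_lit 0, nat_lit 0, nat_lit 0, nat_lit 0, nat_lit 0, nat_lit 0, nat_lit 0, nat_lit 0, nat_lit 0, nat_lit 0, [],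
 ⟨p023_k3, nat_lit 0, nat_lit 0, nat_lit 609, nat_lit 0, nat_lit 1411126, [nat_lit 2032000001, nat_lit 4688000000], [], [nat_lit 25947078498, nat_lit 26013622588, nat_lit 27733103520, nat_lit 28017782479], nat_lit 1271250, nat_lit 1271250, nat_lit 1271250, nat_lit 1271250, nat_lit 0, nat_lit 0, [nat_lit 490000, nat_lit 1100000], [nat_lit 24, nat_lit 40, nat_lit 80, nat_lit 80, nat_lit 33, nat_lit 223, nat_lit 0, nat_lit 9]⟩, ⟨p023_k3, nat_lit 0, nat_lit 0, nat_lit 90, nat_lit 0, nat_lit 0, [nat_lit 2032000000, nat_lit 4688000000], [], [nat_lit 22544400872, nat_lit 22701796430, nat_lit 24031559080, nat_lit 24185777144], nat_lit 0, nat_lit 0, nat_lit 0, nat_lit 0, nat_lit 0, nat_lit 0, [], [nat_lit 24, nat_lit 40, nat_lit 80, nat_lit 80, nat_lit 33, nat_lit 203, nat_lit 0, nat_lit 8]⟩,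
 zbF0, []⟩
noncomputable def b_N_800_800_0_4 : St := ⟨false, nat_lit 1, nat_lit 0, nat_lit 1, nat_lit 40, nat_lit 320, nat_lit 322, nat_lit 320, nat_lit 322, nat_lit 200, nat_lit 240, nat_lit 0, nat_lit 0, nat_lit 0, nat_lit 0, nat_lit 0, nat_lit 0, nat_lit 8, nat_lit 16, nat_lit 0, nat_lit 0, nat_lit 0, nat_lit 0⟩
theorem d_N_800_800_0_4 (h : EB TB.env) : Dead b_N_800_800_0_4 := chkB_sound0 h (T :=
(.spl (nat_lit 6) (nat_lit 12)
(.spl (nat_lit 0) (nat_lit 321)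
(.ord (.leaf p023_l38))
(.spl (nat_lit 1) (nat_lit 321)
(.leaf p023_l39)
(.spl (nat_lit 2) (nat_lit 220)
(.spl (nat_lit 2) (nat_lit 208)
(.spl (nat_lit 2) (nat_lit 204)
(.spl (nat_lit 7) (nat_lit 600)
(.leaf p023_l40)
(.leaf p023_l41))
(.leaf p023_l42))
(.leaf p023_l43))
(.leaf p023_l44))))
(.leaf p023_l45))) (by decide +kernel)
noncomputable def p023_l46 : Lf2 := ⟨nat_lit 0, nat_lit 5, [nat_lit 4, nat_lit 5, nat_lit 5, nat_lit 20], false, nat_lit 0, nat_lit 0, nat_lit 0, nat_lit 0, ⟨nat_lit 732, nat_lit 0, nat_lit 268, nat_lit 8, nat_lit 218, nat_lit 0, nat_lit 0, nat_lit 0, nat_lit 0, nat_lit 215, nat_lit 6649, nat_lit 227, nat_lit 51646555, nat_lit 0, nat_lit 0, nat_lit 2691270, false, false⟩,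
 nat_lit 0, nat_lit 0, nat_lit 0, nat_lit 0, nat_lit 0, nat_lit 0, nat_lit 0, nat_lit 0, nat_lit 425, nat_lit 0, nat_lit 0, nat_lit 0, nat_lit 0, nat_lit 400000000000000, nat_lit 0, nat_lit 66100, nat_lit 0, nat_lit 0, [(nat_lit 18, [(nat_lit 3, nat_lit 12), (nat_lit 4, nat_lit 256)])],
 ⟨p023_k7, nat_lit 0, nat_lit 0, nat_lit 0, nat_lit 0, nat_lit 1360319, [nat_lit 2033593600, nat_lit 4337454400], [], [nat_lit 12839821800, nat_lit 12907115300, nat_lit 13286750400, nat_lit 13363057200], nat_lit 1271250, nat_lit 1271250, nat_lit 936251, nat_lit 1100001, nat_lit 0, nat_lit 0, [nat_lit 490000, nat_lit 1427500], [nat_lit 69, nat_lit 40, nat_lit 80, nat_lit 80]⟩, ⟨p023_k7, nat_lit 0, nat_lit 0, nat_lit 107, nat_lit 0, nat_lit 0, [nat_lit 1487424000, nat_lit 4575000000], [], [nat_lit 19446021396, nat_lit 19473223377, nat_lit 19793713344, nat_lit 19820466334], nat_lit 0, nat_lit 0, nat_lit 0,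 nat_lit 0, nat_lit 0, nat_lit 0, [], [nat_lit 69, nat_lit 40, nat_lit 80, nat_lit 80, nat_lit 64, nat_lit 249, nat_lit 40, nat_lit 9]⟩,
 ⟨nat_lit 4415, nat_lit 4473, ⟨.ofNat (nat_lit 527429), .ofNat (nat_lit 561419), .ofNat (nat_lit 528508), .ofNat (nat_lit 562497), .ofNat (nat_lit 528055), .ofNat (nat_lit 561872), .ofNat (nat_lit 529134), .ofNat (nat_lit 562951)⟩, ⟨.ofNat (nat_lit 0), .ofNat (nat_lit 0), .ofNat (nat_lit 0), .ofNat (nat_lit 0), .ofNat (nat_lit 0), .ofNat (nat_lit 0), .ofNat (nat_lit 0), .ofNat (nat_lit 0)⟩⟩, []⟩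
noncomputable def p023_l47 : Lf2 := ⟨nat_lit 0, nat_lit 5, [nat_lit 4, nat_lit 5, nat_lit 5, nat_lit 20], false, nat_lit 0, nat_lit 0, nat_lit 0, nat_lit 0, ⟨nat_lit 1000, nat_lit 0, nat_lit 0, nat_lit 0, nat_lit 0, nat_lit 0, nat_lit 0, nat_lit 0, nat_lit 0, nat_lit 0, nat_lit 0, nat_lit 0, nat_lit 0, nat_lit 0, nat_lit 0, nat_lit 0, false, false⟩,
 nat_lit 0, nat_lit 0, nat_lit 0, nat_lit 0, nat_lit 0, nat_lit 4064, nat_lit 0, nat_lit 0, nat_lit 481, nat_lit 0, nat_lit 0, nat_lit 0, nat_lit 0, nat_lit 0, nat_lit 0, nat_lit 0, nat_lit 0, nat_lit 0, [],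
 ⟨p023_k7, nat_lit 0, nat_lit 0, nat_lit 0, nat_lit 0, nat_lit 1360319, [nat_lit 2032000001, nat_lit 6250000000], [], [nat_lit 15233247000, nat_lit 15285160100, nat_lit 15610388000, nat_lit 15662086800], nat_lit 1271250, nat_lit 1271250, nat_lit 936251, nat_lit 1100001, nat_lit 0, nat_lit 0, [nat_lit 490000, nat_lit 1427500], [nat_lit 69, nat_lit 40, nat_lit 80, nat_lit 80]⟩, ⟨p023_k7, nat_lit 0, nat_lit 0, nat_lit 107, nat_lit 0, nat_lit 0, [nat_lit 2032000000, nat_lit 6250000000], [], [nat_lit 23689019968, nat_lit 23775538500, nat_lit 23890764416, nat_lit 23974407016], nat_lit 0, nat_lit 0, nat_lit 0, nat_lit 0, nat_lit 0, nat_lit 0, [], [nat_lit 69, nat_lit 40, nat_lit 80, nat_lit 80, nat_lit 64, nat_lit 249, nat_lit 40, nat_lit 9]⟩,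
 zbF0, [⟨nat_lit 0, nat_lit 83, nat_lit 83, nat_lit 100, nat_lit 524965215⟩]⟩
noncomputable def p023_l48 : Lf2 := ⟨nat_lit 0, nat_lit 5, [nat_lit 4, nat_lit 5, nat_lit 5, nat_lit 20], false, nat_lit 0, nat_lit 0, nat_lit 0, nat_lit 0, ⟨nat_lit 825, nat_lit 0, nat_lit 175, nat_lit 8, nat_lit 218, nat_lit 0, nat_lit 0, nat_lit 0, nat_lit 0, nat_lit 215, nat_lit 6649, nat_lit 227, nat_lit 51646555, nat_lit 0, nat_lit 0, nat_lit 2691270, false, false⟩,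
 nat_lit 0, nat_lit 0, nat_lit 0, nat_lit 0, nat_lit 0, nat_lit 3354, nat_lit 0, nat_lit 0, nat_lit 386, nat_lit 0, nat_lit 0, nat_lit 0, nat_lit 0, nat_lit 0, nat_lit 0, nat_lit 175000, nat_lit 0, nat_lit 0, [(nat_lit 18, [(nat_lit 6, nat_lit 175)])],
 ⟨p023_k7, nat_lit 0, nat_lit 0, nat_lit 0, nat_lit 0, nat_lit 1360319, [nat_lit 1994095001, nat_lit 4473610000], [], [nat_lit 16105018009, nat_lit 16151831809, nat_lit 16459971009, nat_lit 16506234409], nat_lit 1271250, nat_lit 1271250, nat_lit 936251, nat_lit 1100001, nat_lit 0, nat_lit 0, [nat_lit 490000, nat_lit 1427500], [nat_lit 69, nat_lit 40, nat_lit 80, nat_lit 80]⟩, ⟨p023_k7, nat_lit 0, nat_lit 0, nat_lit 107, nat_lit 0, nat_lit 0, [nat_lit 1676400000, nat_lit 5156250000], [], [nat_lit 19543580448, nat_lit 19614972327, nat_lit 19709557200, nat_lit 19778955756], nat_lit 0, nat_lit 0, nat_lit 0, nat_lit 0, nat_lit 0, nat_lit 0, [],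 [nat_lit 69, nat_lit 40, nat_lit 80, nat_lit 80, nat_lit 64, nat_lit 249, nat_lit 40, nat_lit 9]⟩,
 ⟨nat_lit 4415, nat_lit 4473, ⟨.ofNat (nat_lit 527429), .ofNat (nat_lit 561419), .ofNat (nat_lit 528508), .ofNat (nat_lit 562497), .ofNat (nat_lit 528055), .ofNat (nat_lit 561872), .ofNat (nat_lit 529134), .ofNat (nat_lit 562951)⟩, ⟨.ofNat (nat_lit 0), .ofNat (nat_lit 0), .ofNat (nat_lit 0), .ofNat (nat_lit 0), .ofNat (nat_lit 0), .ofNat (nat_lit 0), .ofNat (nat_lit 0), .ofNat (nat_lit 0)⟩⟩, [⟨nat_lit 0, nat_lit 83, nat_lit 83, nat_lit 100, nat_lit 434870280⟩]⟩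
noncomputable def p023_l49 : Lf2 := ⟨nat_lit 0, nat_lit 5, [nat_lit 4, nat_lit 5, nat_lit 5, nat_lit 20], false, nat_lit 0, nat_lit 0, nat_lit 0, nat_lit 0, ⟨nat_lit 1000, nat_lit 0, nat_lit 0, nat_lit 0, nat_lit 0, nat_lit 0, nat_lit 0, nat_lit 0, nat_lit 0, nat_lit 0, nat_lit 0, nat_lit 0, nat_lit 0, nat_lit 0, nat_lit 0, nat_lit 0, false, false⟩,
 nat_lit 0, nat_lit 8848, nat_lit 0, nat_lit 0, nat_lit 6635, nat_lit 0, nat_lit 476, nat_lit 0, nat_lit 0, nat_lit 0, nat_lit 0, nat_lit 497, nat_lit 0, nat_lit 0, nat_lit 0, nat_lit 0, nat_lit 0, nat_lit 0, [],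
 ⟨p023_k8, nat_lit 0, nat_lit 0, nat_lit 680, nat_lit 0, nat_lit 1360319, [nat_lit 2032000001, nat_lit 4688000000, nat_lit 6250000000], [], [nat_lit 32877211282, nat_lit 32948939187, nat_lit 32811877102, nat_lit 32880433798], nat_lit 1271250, nat_lit 1271250, nat_lit 936251, nat_lit 1100001, nat_lit 0, nat_lit 0, [nat_lit 490000, nat_lit 1100000, nat_lit 1442500], [nat_lit 6, nat_lit 40, nat_lit 80, nat_lit 80, nat_lit 3, nat_lit 249, nat_lit 40, nat_lit 9]⟩, ⟨p023_k8, nat_lit 0, nat_lit 0, nat_lit 0, nat_lit 0, nat_lit 0, [nat_lit 2032000000, nat_lit 4688000000, nat_lit 6250000000], [], [nat_lit 12561385000, nat_lit 12601803425, nat_lit 13054952000, nat_lit 13099073100], nat_lit 0, nat_lit 0, nat_lit 0, nat_lit 0, nat_lit 0, nat_lit 0, [], [nat_lit 6, nat_lit 40, nat_lit 80, nat_lit 80]⟩,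
 zbF0, [⟨nat_lit 0, nat_lit 83, nat_lit 82, nat_lit 100, nat_lit 584906534⟩]⟩
noncomputable def p023_l50 : Lf2 := ⟨nat_lit 0, nat_lit 5, [nat_lit 4, nat_lit 5, nat_lit 5, nat_lit 20], false, nat_lit 0, nat_lit 0, nat_lit 0, nat_lit 0, ⟨nat_lit 1000, nat_lit 0, nat_lit 0, nat_lit 0, nat_lit 0, nat_lit 0, nat_lit 0, nat_lit 0, nat_lit 0, nat_lit 0, nat_lit 0, nat_lit 0, nat_lit 0, nat_lit 0, nat_lit 0, nat_lit 0, false, false⟩,
 nat_lit 0, nat_lit 8848, nat_lit 0, nat_lit 0, nat_lit 6635, nat_lit 4017, nat_lit 476, nat_lit 0, nat_lit 0, nat_lit 1365, nat_lit 0, nat_lit 0, nat_lit 0, nat_lit 0, nat_lit 0, nat_lit 0, nat_lit 0, nat_lit 0, [],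
 ⟨p023_k8, nat_lit 0, nat_lit 0, nat_lit 680, nat_lit 0, nat_lit 1360319, [nat_lit 2032000001, nat_lit 4688000000, nat_lit 6250000000], [], [nat_lit 32877211282, nat_lit 32948939187, nat_lit 32811877102, nat_lit 32880433798], nat_lit 1271250, nat_lit 1271250, nat_lit 936251, nat_lit 1100001, nat_lit 0, nat_lit 0, [nat_lit 490000, nat_lit 1100000, nat_lit 1442500], [nat_lit 6, nat_lit 40, nat_lit 80, nat_lit 80, nat_lit 3, nat_lit 249, nat_lit 40, nat_lit 9]⟩, ⟨p023_k9, nat_lit 0, nat_lit 0, nat_lit 0, nat_lit 0, nat_lit 0, [nat_lit 2032000000, nat_lit 3282000000, nat_lit 4688000000, nat_lit 6250000000], [], [nat_lit 18621285606, nat_lit 18706246629, nat_lit 18863895173, nat_lit 18945511706], nat_lit 0, nat_lit 0, nat_lit 0, nat_lit 0, nat_lit 0, nat_lit 0, [], [nat_lit 127, nat_lit 40, nat_lit 80, nat_lit 80]⟩,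
 zbF0, [⟨nat_lit 0, nat_lit 83, nat_lit 82, nat_lit 100, nat_lit 678155533⟩]⟩
noncomputable def p023_l51 : Lf2 := ⟨nat_lit 0, nat_lit 5, [nat_lit 4, nat_lit 5, nat_lit 5, nat_lit 20], false, nat_lit 0, nat_lit 0, nat_lit 0, nat_lit 0, ⟨nat_lit 1000, nat_lit 0, nat_lit 0, nat_lit 0, nat_lit 0, nat_lit 0, nat_lit 0, nat_lit 0, nat_lit 0, nat_lit 0, nat_lit 0, nat_lit 0, nat_lit 0, nat_lit 0, nat_lit 0, nat_lit 0, false, false⟩,
 nat_lit 0, nat_lit 8883, nat_lit 0, nat_lit 0, nat_lit 6662, nat_lit 100000, nat_lit 481, nat_lit 0, nat_lit 0, nat_lit 11724, nat_lit 9994, nat_lit 0, nat_lit 0, nat_lit 0, nat_lit 0, nat_lit 0, nat_lit 0, nat_lit 0, [],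
 ⟨p023_k8, nat_lit 0, nat_lit 0, nat_lit 680, nat_lit 0, nat_lit 1360319, [nat_lit 2032000001, nat_lit 4688000000, nat_lit 6250000000], [], [nat_lit 32716618738, nat_lit 32798751755, nat_lit 32662835728, nat_lit 32742854939], nat_lit 1271250, nat_lit 1271250, nat_lit 936251, nat_lit 1100001, nat_lit 0, nat_lit 0, [nat_lit 490000, nat_lit 1100000, nat_lit 1442500], [nat_lit 6, nat_lit 40, nat_lit 80, nat_lit 80, nat_lit 3, nat_lit 249, nat_lit 40, nat_lit 9]⟩, ⟨p023_k8, nat_lit 0, nat_lit 0, nat_lit 0, nat_lit 0, nat_lit 0, [nat_lit 81984000000, nat_lit 164592000000, nat_lit 206130000000], [], [nat_lit 187783560000, nat_lit 188997173425, nat_lit 182470992000, nat_lit 183558429801], nat_lit 0, nat_lit 0, nat_lit 0, nat_lit 0, nat_lit 0, nat_lit 0, [], [nat_lit 6, nat_lit 40, nat_lit 80, nat_lit 80]⟩,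
 zbF0, [⟨nat_lit 0, nat_lit 83, nat_lit 83, nat_lit 100, nat_lit 2712441888⟩, ⟨nat_lit 13, nat_lit 99, nat_lit 2, nat_lit 100, nat_lit 22290055⟩]⟩
noncomputable def p023_l52 : Lf2 := ⟨nat_lit 3, nat_lit 5, [nat_lit 4, nat_lit 5, nat_lit 5, nat_lit 20], false, nat_lit 0, nat_lit 0, nat_lit 0, nat_lit 0, zbN0,
 nat_lit 0, nat_lit 0, nat_lit 0, nat_lit 0, nat_lit 0, nat_lit 0, nat_lit 0, nat_lit 0, nat_lit 0, nat_lit 0, nat_lit 0, nat_lit 0, nat_lit 0, nat_lit 0, nat_lit 0, nat_lit 0, nat_lit 0, nat_lit 0, [],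
 C1.Rw.none, ⟨p023_k8, nat_lit 0, nat_lit 0, nat_lit 0, nat_lit 0, nat_lit 0, [], [], [], nat_lit 0, nat_lit 0, nat_lit 0, nat_lit 0, nat_lit 0, nat_lit 0, [], [nat_lit 6, nat_lit 40, nat_lit 80, nat_lit 80]⟩,
 zbF0, []⟩
noncomputable def p023_l53 : Lf2 := ⟨nat_lit 3, nat_lit 5, [nat_lit 4, nat_lit 5, nat_lit 5, nat_lit 20], false, nat_lit 0, nat_lit 0, nat_lit 0, nat_lit 0, zbN0,
 nat_lit 0, nat_lit 0, nat_lit 0, nat_lit 0, nat_lit 0, nat_lit 0, nat_lit 0, nat_lit 0, nat_lit 0, nat_lit 0, nat_lit 0, nat_lit 0, nat_lit 0, nat_lit 0, nat_lit 0, nat_lit 0, nat_lit 0, nat_lit 0, [],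
 C1.Rw.none, ⟨p023_k8, nat_lit 0, nat_lit 0, nat_lit 110, nat_lit 0, nat_lit 0, [], [], [], nat_lit 0, nat_lit 0, nat_lit 0, nat_lit 0, nat_lit 0, nat_lit 0, [], [nat_lit 6, nat_lit 40, nat_lit 80, nat_lit 80, nat_lit 3, nat_lit 249, nat_lit 40, nat_lit 9]⟩,
 zbF0, []⟩
noncomputable def p023_l54 : Lf2 := ⟨nat_lit 0, nat_lit 5, [nat_lit 4, nat_lit 5, nat_lit 5, nat_lit 20], false, nat_lit 0, nat_lit 0, nat_lit 0, nat_lit 0, ⟨nat_lit 961, nat_lit 0, nat_lit 39, nat_lit 8, nat_lit 217, nat_lit 0, nat_lit 0, nat_lit 0, nat_lit 0, nat_lit 215, nat_lit 5920, nat_lit 232, nat_lit 51740832, nat_lit 0, nat_lit 0, nat_lit 2682708, false, false⟩,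
 nat_lit 0, nat_lit 0, nat_lit 0, nat_lit 0, nat_lit 0, nat_lit 5861, nat_lit 0, nat_lit 0, nat_lit 478, nat_lit 711, nat_lit 0, nat_lit 0, nat_lit 0, nat_lit 400000000000000, nat_lit 0, nat_lit 6825, nat_lit 0, nat_lit 0, [(nat_lit 18, [(nat_lit 3, nat_lit 39)])],
 ⟨p023_k10, nat_lit 0, nat_lit 0, nat_lit 0, nat_lit 0, nat_lit 1362077, [nat_lit 2488456000, nat_lit 4504138400, nat_lit 5982694000], [], [nat_lit 13567379160, nat_lit 13597781081, nat_lit 13740491820, nat_lit 13771327240], nat_lit 1271250, nat_lit 1271250, nat_lit 968401, nat_lit 1033601, nat_lit 0, nat_lit 0, [nat_lit 490000, nat_lit 1100000, nat_lit 1442500], [nat_lit 6, nat_lit 40, nat_lit 80, nat_lit 80]⟩, ⟨p023_k10, nat_lit 0, nat_lit 0, nat_lit 110, nat_lit 0, nat_lit 0, [nat_lit 1952752000, nat_lit 4505168000, nat_lit 6006250000], [], [nat_lit 20256259199, nat_lit 20391499260, nat_lit 20235368003, nat_lit 20369021472],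 nat_lit 0, nat_lit 0, nat_lit 0, nat_lit 0, nat_lit 0, nat_lit 0, [], [nat_lit 6, nat_lit 40, nat_lit 80, nat_lit 80, nat_lit 3, nat_lit 249, nat_lit 40, nat_lit 9]⟩,
 ⟨nat_lit 4415, nat_lit 4445, ⟨.ofNat (nat_lit 535601), .ofNat (nat_lit 549163), .ofNat (nat_lit 536680), .ofNat (nat_lit 550241), .ofNat (nat_lit 535898), .ofNat (nat_lit 549425), .ofNat (nat_lit 536977), .ofNat (nat_lit 550504)⟩, ⟨.ofNat (nat_lit 0), .ofNat (nat_lit 0), .ofNat (nat_lit 0), .ofNat (nat_lit 0), .ofNat (nat_lit 0), .ofNat (nat_lit 0), .ofNat (nat_lit 0), .ofNat (nat_lit 0)⟩⟩, [⟨nat_lit 0, nat_lit 82, nat_lit 82, nat_lit 100, nat_lit 4437611240⟩, ⟨nat_lit 0, nat_lit 83, nat_lit 83, nat_lit 100, nat_lit 14515894905⟩]⟩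
noncomputable def p023_l55 : Lf2 := ⟨nat_lit 0, nat_lit 5, [nat_lit 4, nat_lit 5, nat_lit 5, nat_lit 20], false, nat_lit 0, nat_lit 0, nat_lit 0, nat_lit 0, ⟨nat_lit 1000, nat_lit 0, nat_lit 0, nat_lit 0, nat_lit 0, nat_lit 0, nat_lit 0, nat_lit 0, nat_lit 0, nat_lit 0, nat_lit 0, nat_lit 0, nat_lit 0, nat_lit 0, nat_lit 0, nat_lit 0, false, false⟩,
 nat_lit 0, nat_lit 0, nat_lit 0, nat_lit 0, nat_lit 0, nat_lit 4031, nat_lit 139, nat_lit 0, nat_lit 465, nat_lit 722, nat_lit 0, nat_lit 0, nat_lit 0, nat_lit 400000000000000, nat_lit 0, nat_lit 0, nat_lit 0, nat_lit 0, [],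
 ⟨p023_k10, nat_lit 0, nat_lit 0, nat_lit 0, nat_lit 0, nat_lit 1362077, [nat_lit 2032000001, nat_lit 4688000000, nat_lit 6250000000], [], [nat_lit 14301317505, nat_lit 14328154085, nat_lit 14461284955, nat_lit 14489667635], nat_lit 1271250, nat_lit 1271250, nat_lit 968401, nat_lit 1033601, nat_lit 0, nat_lit 0, [nat_lit 490000, nat_lit 1100000, nat_lit 1442500], [nat_lit 6, nat_lit 40, nat_lit 80, nat_lit 80]⟩, ⟨p023_k10, nat_lit 0, nat_lit 0, nat_lit 110, nat_lit 0, nat_lit 0, [nat_lit 2032000000, nat_lit 4688000000, nat_lit 6250000000], [], [nat_lit 20869973331, nat_lit 20961342452, nat_lit 20978302860, nat_lit 21063934663], nat_lit 0, nat_lit 0, nat_lit 0, nat_lit 0, nat_lit 0, nat_lit 0, [], [nat_lit 6, nat_lit 40, nat_lit 80, nat_lit 80, nat_lit 3, nat_lit 249, nat_lit 40, nat_lit 9]⟩,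
 zbF0, [⟨nat_lit 0, nat_lit 82, nat_lit 82, nat_lit 100, nat_lit 506765619⟩]⟩
noncomputable def p023_l56 : Lf2 := ⟨nat_lit 0, nat_lit 5, [nat_lit 4, nat_lit 5, nat_lit 5, nat_lit 20], false, nat_lit 0, nat_lit 0, nat_lit 0, nat_lit 0, ⟨nat_lit 1000, nat_lit 0, nat_lit 0, nat_lit 0, nat_lit 0, nat_lit 0, nat_lit 0, nat_lit 0, nat_lit 0, nat_lit 0, nat_lit 0, nat_lit 0, nat_lit 0, nat_lit 0, nat_lit 0, nat_lit 0, false, false⟩,
 nat_lit 0, nat_lit 0, nat_lit 0, nat_lit 0, nat_lit 0, nat_lit 4051, nat_lit 138, nat_lit 0, nat_lit 451, nat_lit 722, nat_lit 0, nat_lit 0, nat_lit 0, nat_lit 0, nat_lit 0, nat_lit 0, nat_lit 0, nat_lit 0, [],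
 ⟨p023_k10, nat_lit 0, nat_lit 0, nat_lit 0, nat_lit 0, nat_lit 1362077, [nat_lit 2032000001, nat_lit 4688000000, nat_lit 6250000000], [], [nat_lit 15561602530, nat_lit 15586145060, nat_lit 15707686890, nat_lit 15732161680], nat_lit 1271250, nat_lit 1271250, nat_lit 968401, nat_lit 1033601, nat_lit 0, nat_lit 0, [nat_lit 490000, nat_lit 1100000, nat_lit 1442500], [nat_lit 6, nat_lit 40, nat_lit 80, nat_lit 80]⟩, ⟨p023_k10, nat_lit 0, nat_lit 0, nat_lit 110, nat_lit 0, nat_lit 0, [nat_lit 2032000000, nat_lit 4688000000, nat_lit 6250000000], [], [nat_lit 20871684054, nat_lit 20963044968, nat_lit 20962586433, nat_lit 21053003721], nat_lit 0, nat_lit 0, nat_lit 0, nat_lit 0, nat_lit 0, nat_lit 0, [], [nat_lit 6, nat_lit 40, nat_lit 80, nat_lit 80, nat_lit 3, nat_lit 249, nat_lit 40, nat_lit 9]⟩,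
 zbF0, [⟨nat_lit 0, nat_lit 83, nat_lit 83, nat_lit 100, nat_lit 522769872⟩]⟩
noncomputable def p023_l57 : Lf2 := ⟨nat_lit 0, nat_lit 5, [nat_lit 4, nat_lit 5, nat_lit 5, nat_lit 20], false, nat_lit 0, nat_lit 0, nat_lit 0, nat_lit 0, ⟨nat_lit 1000, nat_lit 0, nat_lit 0, nat_lit 0, nat_lit 0, nat_lit 0, nat_lit 0, nat_lit 0, nat_lit 0, nat_lit 0, nat_lit 0, nat_lit 0, nat_lit 0, nat_lit 0, nat_lit 0, nat_lit 0, false, false⟩,
 nat_lit 0, nat_lit 8821, nat_lit 0, nat_lit 0, nat_lit 6641, nat_lit 4016, nat_lit 481, nat_lit 0, nat_lit 0, nat_lit 1346, nat_lit 0, nat_lit 0, nat_lit 0, nat_lit 0, nat_lit 0, nat_lit 0, nat_lit 0, nat_lit 0, [],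
 ⟨p023_k10, nat_lit 0, nat_lit 0, nat_lit 680, nat_lit 0, nat_lit 1362077, [nat_lit 2032000001, nat_lit 4688000000, nat_lit 6250000000], [], [nat_lit 32516282421, nat_lit 32551400384, nat_lit 32489593193, nat_lit 32524297363], nat_lit 1271250, nat_lit 1271250, nat_lit 968401, nat_lit 1033601, nat_lit 0, nat_lit 0, [nat_lit 490000, nat_lit 1100000, nat_lit 1442500], [nat_lit 6, nat_lit 40, nat_lit 80, nat_lit 80, nat_lit 3, nat_lit 249, nat_lit 40, nat_lit 9]⟩, ⟨p023_k11, nat_lit 0, nat_lit 0, nat_lit 0, nat_lit 0, nat_lit 0, [nat_lit 2032000000, nat_lit 3282000000, nat_lit 4688000000, nat_lit 6250000000], [], [nat_lit 18703803330, nat_lit 18784736698, nat_lit 18799964113, nat_lit 18879621838], nat_lit 0, nat_lit 0, nat_lit 0, nat_lit 0, nat_lit 0, nat_lit 0, [], [nat_lit 127, nat_lit 40, nat_lit 80, nat_lit 80]⟩,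
 zbF0, [⟨nat_lit 0, nat_lit 82, nat_lit 82, nat_lit 100, nat_lit 688469658⟩]⟩
noncomputable def p023_l58 : Lf2 := ⟨nat_lit 3, nat_lit 5, [nat_lit 4, nat_lit 5, nat_lit 5, nat_lit 20], false, nat_lit 0, nat_lit 0, nat_lit 0, nat_lit 0, zbN0,
 nat_lit 0, nat_lit 0, nat_lit 0, nat_lit 0, nat_lit 0, nat_lit 0, nat_lit 0, nat_lit 0, nat_lit 0, nat_lit 0, nat_lit 0, nat_lit 0, nat_lit 0, nat_lit 0, nat_lit 0, nat_lit 0, nat_lit 0, nat_lit 0, [],
 C1.Rw.none, ⟨p023_k10, nat_lit 0, nat_lit 0, nat_lit 0, nat_lit 0, nat_lit 0, [], [], [], nat_lit 0, nat_lit 0, nat_lit 0, nat_lit 0, nat_lit 0, nat_lit 0, [], [nat_lit 6, nat_lit 40, nat_lit 80, nat_lit 80]⟩,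
 zbF0, []⟩
noncomputable def p023_l59 : Lf2 := ⟨nat_lit 3, nat_lit 5, [nat_lit 4, nat_lit 5, nat_lit 5, nat_lit 20], false, nat_lit 0, nat_lit 0, nat_lit 0, nat_lit 0, zbN0,
 nat_lit 0, nat_lit 0, nat_lit 0, nat_lit 0, nat_lit 0, nat_lit 0, nat_lit 0, nat_lit 0, nat_lit 0, nat_lit 0, nat_lit 0, nat_lit 0, nat_lit 0, nat_lit 0, nat_lit 0, nat_lit 0, nat_lit 0, nat_lit 0, [],
 C1.Rw.none, ⟨p023_k10, nat_lit 0, nat_lit 0, nat_lit 110, nat_lit 0, nat_lit 0, [], [], [], nat_lit 0, nat_lit 0, nat_lit 0, nat_lit 0, nat_lit 0, nat_lit 0, [], [nat_lit 6, nat_lit 40, nat_lit 80, nat_lit 80, nat_lit 3, nat_lit 249, nat_lit 40, nat_lit 9]⟩,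
 zbF0, []⟩
noncomputable def p023_l60 : Lf2 := ⟨nat_lit 0, nat_lit 5, [nat_lit 4, nat_lit 5, nat_lit 5, nat_lit 20], false, nat_lit 0, nat_lit 0, nat_lit 0, nat_lit 0, ⟨nat_lit 962, nat_lit 0, nat_lit 38, nat_lit 8, nat_lit 221, nat_lit 0, nat_lit 0, nat_lit 0, nat_lit 0, nat_lit 215, nat_lit 4892, nat_lit 229, nat_lit 51299666, nat_lit 0, nat_lit 0, nat_lit 2722296, false, false⟩,
 nat_lit 0, nat_lit 0, nat_lit 0, nat_lit 0, nat_lit 0, nat_lit 0, nat_lit 172, nat_lit 0, nat_lit 482, nat_lit 646, nat_lit 0, nat_lit 0, nat_lit 0, nat_lit 400000000000000, nat_lit 0, nat_lit 6650, nat_lit 0, nat_lit 0, [(nat_lit 18, [(nat_lit 3, nat_lit 38)])],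
 ⟨p023_k10, nat_lit 0, nat_lit 0, nat_lit 0, nat_lit 0, nat_lit 1362077, [nat_lit 2476752001, nat_lit 4508852800, nat_lit 5989548000], [], [nat_lit 12998480698, nat_lit 13029408188, nat_lit 13086527203, nat_lit 13117359799], nat_lit 1271250, nat_lit 1271250, nat_lit 1033601, nat_lit 1066650, nat_lit 0, nat_lit 0, [nat_lit 490000, nat_lit 1100000, nat_lit 1442500], [nat_lit 6, nat_lit 40, nat_lit 80, nat_lit 80]⟩, ⟨p023_k10, nat_lit 0, nat_lit 0, nat_lit 108, nat_lit 0, nat_lit 0, [nat_lit 1954784000, nat_lit 4509856000, nat_lit 6012500000], [], [nat_lit 23233410716, nat_lit 23270226119, nat_lit 23327160141, nat_lit 23363848777], nat_lit 0, nat_lit 0, nat_lit 0, nat_lit 0, nat_lit 0, nat_lit 0, [], [nat_lit 6, nat_lit 40, nat_lit 80, nat_lit 80, nat_lit 3, nat_lit 249, nat_lit 40, nat_lit 9]⟩,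
 ⟨nat_lit 4415, nat_lit 4445, ⟨.ofNat (nat_lit 549163), .ofNat (nat_lit 555943), .ofNat (nat_lit 550241), .ofNat (nat_lit 557022), .ofNat (nat_lit 549425), .ofNat (nat_lit 556188), .ofNat (nat_lit 550504), .ofNat (nat_lit 557267)⟩, ⟨.ofNat (nat_lit 0), .ofNat (nat_lit 0), .ofNat (nat_lit 0), .ofNat (nat_lit 0), .ofNat (nat_lit 0), .ofNat (nat_lit 0), .ofNat (nat_lit 0), .ofNat (nat_lit 0)⟩⟩, [⟨nat_lit 0, nat_lit 83, nat_lit 83, nat_lit 100, nat_lit 8777485470⟩]⟩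
noncomputable def p023_l61 : Lf2 := ⟨nat_lit 0, nat_lit 5, [nat_lit 4, nat_lit 5, nat_lit 5, nat_lit 20], false, nat_lit 0, nat_lit 0, nat_lit 0, nat_lit 0, ⟨nat_lit 1000, nat_lit 0, nat_lit 0, nat_lit 0, nat_lit 0, nat_lit 0, nat_lit 0, nat_lit 0, nat_lit 0, nat_lit 0, nat_lit 0, nat_lit 0, nat_lit 0, nat_lit 0, nat_lit 0, nat_lit 0, false, false⟩,
 nat_lit 0, nat_lit 0, nat_lit 0, nat_lit 0, nat_lit 0, nat_lit 6097, nat_lit 42, nat_lit 0, nat_lit 456, nat_lit 740, nat_lit 0, nat_lit 0, nat_lit 0, nat_lit 400000000000000, nat_lit 0, nat_lit 0, nat_lit 0, nat_lit 0, [],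
 ⟨p023_k10, nat_lit 0, nat_lit 0, nat_lit 0, nat_lit 0, nat_lit 1362077, [nat_lit 2032000001, nat_lit 4688000000, nat_lit 6250000000], [], [nat_lit 15645234540, nat_lit 15669068930, nat_lit 15718607465, nat_lit 15744478930], nat_lit 1271250, nat_lit 1271250, nat_lit 1033601, nat_lit 1066650, nat_lit 0, nat_lit 0, [nat_lit 490000, nat_lit 1100000, nat_lit 1442500], [nat_lit 6, nat_lit 40, nat_lit 80, nat_lit 80]⟩, ⟨p023_k10, nat_lit 0, nat_lit 0, nat_lit 108, nat_lit 0, nat_lit 0, [nat_lit 2032000000, nat_lit 4688000000, nat_lit 6250000000], [], [nat_lit 21054239249, nat_lit 21193140971, nat_lit 21072940227, nat_lit 21189299969], nat_lit 0, nat_lit 0, nat_lit 0, nat_lit 0, nat_lit 0, nat_lit 0, [], [nat_lit 6, nat_lit 40, nat_lit 80, nat_lit 80, nat_lit 3, nat_lit 249, nat_lit 40, nat_lit 9]⟩,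
 zbF0, []⟩
noncomputable def p023_l62 : Lf2 := ⟨nat_lit 0, nat_lit 5, [nat_lit 4, nat_lit 5, nat_lit 5, nat_lit 20], false, nat_lit 0, nat_lit 0, nat_lit 0, nat_lit 0, ⟨nat_lit 1000, nat_lit 0, nat_lit 0, nat_lit 0, nat_lit 0, nat_lit 0, nat_lit 0, nat_lit 0, nat_lit 0, nat_lit 0, nat_lit 0, nat_lit 0, nat_lit 0, nat_lit 0, nat_lit 0, nat_lit 0, false, false⟩,
 nat_lit 0, nat_lit 0, nat_lit 0, nat_lit 0, nat_lit 0, nat_lit 4051, nat_lit 138, nat_lit 0, nat_lit 450, nat_lit 719, nat_lit 0, nat_lit 0, nat_lit 0, nat_lit 5265085722119, nat_lit 0, nat_lit 0, nat_lit 0, nat_lit 0, [],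
 ⟨p023_k10, nat_lit 0, nat_lit 0, nat_lit 0, nat_lit 0, nat_lit 1362077, [nat_lit 2032000001, nat_lit 4688000000, nat_lit 6250000000], [], [nat_lit 15809033420, nat_lit 15831593990, nat_lit 15877716285, nat_lit 15901169991], nat_lit 1271250, nat_lit 1271250, nat_lit 1033601, nat_lit 1066650, nat_lit 0, nat_lit 0, [nat_lit 490000, nat_lit 1100000, nat_lit 1442500], [nat_lit 6, nat_lit 40, nat_lit 80, nat_lit 80]⟩, ⟨p023_k10, nat_lit 0, nat_lit 0, nat_lit 108, nat_lit 0, nat_lit 0, [nat_lit 2032000000, nat_lit 4688000000, nat_lit 6250000000], [], [nat_lit 20963816543, nat_lit 21053313096, nat_lit 21016845797, nat_lit 21102215659], nat_lit 0, nat_lit 0, nat_lit 0, nat_lit 0, nat_lit 0, nat_lit 0, [], [nat_lit 6, nat_lit 40, nat_lit 80, nat_lit 80, nat_lit 3, nat_lit 249, nat_lit 40, nat_lit 9]⟩,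
 zbF0, []⟩
noncomputable def p023_l63 : Lf2 := ⟨nat_lit 0, nat_lit 5, [nat_lit 4, nat_lit 5, nat_lit 5, nat_lit 20], false, nat_lit 0, nat_lit 0, nat_lit 0, nat_lit 0, ⟨nat_lit 1000, nat_lit 0, nat_lit 0, nat_lit 0, nat_lit 0, nat_lit 0, nat_lit 0, nat_lit 0, nat_lit 0, nat_lit 0, nat_lit 0, nat_lit 0, nat_lit 0, nat_lit 0, nat_lit 0, nat_lit 0, false, false⟩,
 nat_lit 0, nat_lit 8821, nat_lit 0, nat_lit 0, nat_lit 6641, nat_lit 4034, nat_lit 480, nat_lit 0, nat_lit 0, nat_lit 1342, nat_lit 0, nat_lit 0, nat_lit 0, nat_lit 0, nat_lit 0, nat_lit 0, nat_lit 0, nat_lit 0, [],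
 ⟨p023_k10, nat_lit 0, nat_lit 0, nat_lit 677, nat_lit 0, nat_lit 1362077, [nat_lit 2032000001, nat_lit 4688000000, nat_lit 6250000000], [], [nat_lit 32490315068, nat_lit 32525019238, nat_lit 32476970453, nat_lit 32513592845], nat_lit 1271250, nat_lit 1271250, nat_lit 1033601, nat_lit 1066650, nat_lit 0, nat_lit 0, [nat_lit 490000, nat_lit 1100000, nat_lit 1442500], [nat_lit 6, nat_lit 40, nat_lit 80, nat_lit 80, nat_lit 3, nat_lit 249, nat_lit 40, nat_lit 9]⟩, ⟨p023_k11, nat_lit 0, nat_lit 0, nat_lit 0, nat_lit 0, nat_lit 0, [nat_lit 2032000000, nat_lit 3282000000, nat_lit 4688000000, nat_lit 6250000000], [], [nat_lit 18801809240, nat_lit 18881659087, nat_lit 18849679895, nat_lit 18929075170], nat_lit 0, nat_lit 0, nat_lit 0, nat_lit 0, nat_lit 0, nat_lit 0, [], [nat_lit 127, nat_lit 40, nat_lit 80, nat_lit 80]⟩,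
 zbF0, []⟩
noncomputable def p023_l64 : Lf2 := ⟨nat_lit 3, nat_lit 5, [nat_lit 4, nat_lit 5, nat_lit 5, nat_lit 20], false, nat_lit 0, nat_lit 0, nat_lit 0, nat_lit 0, zbN0,
 nat_lit 0, nat_lit 0, nat_lit 0, nat_lit 0, nat_lit 0, nat_lit 0, nat_lit 0, nat_lit 0, nat_lit 0, nat_lit 0, nat_lit 0, nat_lit 0, nat_lit 0, nat_lit 0, nat_lit 0, nat_lit 0, nat_lit 0, nat_lit 0, [],
 C1.Rw.none, ⟨p023_k10, nat_lit 0, nat_lit 0, nat_lit 0, nat_lit 0, nat_lit 0, [], [], [], nat_lit 0, nat_lit 0, nat_lit 0, nat_lit 0, nat_lit 0, nat_lit 0, [], [nat_lit 6, nat_lit 40, nat_lit 80, nat_lit 80]⟩,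
 zbF0, []⟩
noncomputable def p023_l65 : Lf2 := ⟨nat_lit 3, nat_lit 5, [nat_lit 4, nat_lit 5, nat_lit 5, nat_lit 20], false, nat_lit 0, nat_lit 0, nat_lit 0, nat_lit 0, zbN0,
 nat_lit 0, nat_lit 0, nat_lit 0, nat_lit 0, nat_lit 0, nat_lit 0, nat_lit 0, nat_lit 0, nat_lit 0, nat_lit 0, nat_lit 0, nat_lit 0, nat_lit 0, nat_lit 0, nat_lit 0, nat_lit 0, nat_lit 0, nat_lit 0, [],
 C1.Rw.none, ⟨p023_k10, nat_lit 0, nat_lit 0, nat_lit 108, nat_lit 0, nat_lit 0, [], [], [], nat_lit 0, nat_lit 0, nat_lit 0, nat_lit 0, nat_lit 0, nat_lit 0, [], [nat_lit 6, nat_lit 40, nat_lit 80, nat_lit 80, nat_lit 3, nat_lit 249, nat_lit 40, nat_lit 9]⟩,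
 zbF0, []⟩
noncomputable def p023_l66 : Lf2 := ⟨nat_lit 0, nat_lit 5, [nat_lit 4, nat_lit 5, nat_lit 5, nat_lit 20], false, nat_lit 0, nat_lit 0, nat_lit 0, nat_lit 0, ⟨nat_lit 1000, nat_lit 0, nat_lit 0, nat_lit 0, nat_lit 0, nat_lit 0, nat_lit 0, nat_lit 0, nat_lit 0, nat_lit 0, nat_lit 0, nat_lit 0, nat_lit 0, nat_lit 0, nat_lit 0, nat_lit 0, false, false⟩,
 nat_lit 0, nat_lit 8817, nat_lit 0, nat_lit 0, nat_lit 6638, nat_lit 4055, nat_lit 478, nat_lit 0, nat_lit 0, nat_lit 717, nat_lit 0, nat_lit 0, nat_lit 0, nat_lit 0, nat_lit 0, nat_lit 0, nat_lit 0, nat_lit 0, [],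
 ⟨p023_k10, nat_lit 0, nat_lit 0, nat_lit 675, nat_lit 0, nat_lit 1362077, [nat_lit 2032000001, nat_lit 4688000000, nat_lit 6250000000], [], [nat_lit 32496393495, nat_lit 32531623767, nat_lit 32483084395, nat_lit 32519295972], nat_lit 1271250, nat_lit 1271250, nat_lit 1066650, nat_lit 1100001, nat_lit 0, nat_lit 0, [nat_lit 490000, nat_lit 1100000, nat_lit 1442500], [nat_lit 6, nat_lit 40, nat_lit 80, nat_lit 80, nat_lit 3, nat_lit 249, nat_lit 40, nat_lit 9]⟩, ⟨p023_k10, nat_lit 0, nat_lit 0, nat_lit 107, nat_lit 0, nat_lit 0, [nat_lit 2032000000, nat_lit 4688000000, nat_lit 6250000000], [], [nat_lit 21013865807, nat_lit 21099282306, nat_lit 21067772841, nat_lit 21152692047], nat_lit 0, nat_lit 0, nat_lit 0, nat_lit 0, nat_lit 0, nat_lit 0, [], [nat_lit 6, nat_lit 40, nat_lit 80, nat_lit 80, nat_lit 3, nat_lit 249, nat_lit 40, nat_lit 9]⟩,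
 zbF0, []⟩
noncomputable def p023_l67 : Lf2 := ⟨nat_lit 0, nat_lit 5, [nat_lit 4, nat_lit 5, nat_lit 5, nat_lit 20], false, nat_lit 0, nat_lit 0, nat_lit 0, nat_lit 0, ⟨nat_lit 1000, nat_lit 0, nat_lit 0, nat_lit 0, nat_lit 0, nat_lit 0, nat_lit 0, nat_lit 0, nat_lit 0, nat_lit 0, nat_lit 0, nat_lit 0, nat_lit 0, nat_lit 0, nat_lit 0, nat_lit 0, false, false⟩,
 nat_lit 0, nat_lit 8856, nat_lit 0, nat_lit 0, nat_lit 6641, nat_lit 4072, nat_lit 474, nat_lit 0, nat_lit 0, nat_lit 712, nat_lit 0, nat_lit 0, nat_lit 0, nat_lit 0, nat_lit 0, nat_lit 0, nat_lit 0, nat_lit 0, [],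
 ⟨p023_k8, nat_lit 0, nat_lit 0, nat_lit 671, nat_lit 0, nat_lit 1353657, [nat_lit 2032000001, nat_lit 4688000000, nat_lit 6250000000], [], [nat_lit 32775835462, nat_lit 32810954670, nat_lit 33228056072, nat_lit 33265274842], nat_lit 1271250, nat_lit 1271250, nat_lit 1100001, nat_lit 1442500, nat_lit 0, nat_lit 0, [nat_lit 490000, nat_lit 1100000, nat_lit 1442500], [nat_lit 6, nat_lit 40, nat_lit 80, nat_lit 80, nat_lit 3, nat_lit 260, nat_lit 50, nat_lit 9]⟩, ⟨p023_k8, nat_lit 0, nat_lit 0, nat_lit 109, nat_lit 0, nat_lit 0, [nat_lit 2032000000, nat_lit 4688000000, nat_lit 6250000000], [], [nat_lit 21042873504, nat_lit 21127989387, nat_lit 22538372720, nat_lit 22622371687], nat_lit 0, nat_lit 0, nat_lit 0, nat_lit 0, nat_lit 0, nat_lit 0, [], [nat_lit 6, nat_lit 40, nat_lit 80, nat_lit 80, nat_lit 3, nat_lit 260, nat_lit 50, nat_lit 9]⟩,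
 zbF0, []⟩
noncomputable def p023_l68 : Lf2 := ⟨nat_lit 0, nat_lit 5, [nat_lit 4, nat_lit 5, nat_lit 5, nat_lit 20], false, nat_lit 0, nat_lit 0, nat_lit 0, nat_lit 0, ⟨nat_lit 1000, nat_lit 0, nat_lit 0, nat_lit 0, nat_lit 0, nat_lit 0, nat_lit 0, nat_lit 0, nat_lit 0, nat_lit 0, nat_lit 0, nat_lit 0, nat_lit 0, nat_lit 0, nat_lit 0, nat_lit 0, false, false⟩,
 nat_lit 0, nat_lit 8813, nat_lit 0, nat_lit 0, nat_lit 6635, nat_lit 4065, nat_lit 477, nat_lit 0, nat_lit 0, nat_lit 710, nat_lit 0, nat_lit 0, nat_lit 0, nat_lit 0, nat_lit 0, nat_lit 0, nat_lit 0, nat_lit 0, [],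
 ⟨p023_k10, nat_lit 0, nat_lit 0, nat_lit 674, nat_lit 0, nat_lit 1362077, [nat_lit 2032000001, nat_lit 4688000000, nat_lit 6250000000], [], [nat_lit 32501821075, nat_lit 32536099423, nat_lit 32951591484, nat_lit 32988796423], nat_lit 1271250, nat_lit 1271250, nat_lit 1100001, nat_lit 1442500, nat_lit 0, nat_lit 0, [nat_lit 490000, nat_lit 1100000, nat_lit 1442500], [nat_lit 6, nat_lit 40, nat_lit 80, nat_lit 80, nat_lit 3, nat_lit 260, nat_lit 50, nat_lit 9]⟩, ⟨p023_k8, nat_lit 0, nat_lit 0, nat_lit 110, nat_lit 0, nat_lit 0, [nat_lit 2032000000, nat_lit 4688000000, nat_lit 6250000000], [], [nat_lit 21050351000, nat_lit 21218675376, nat_lit 22537742650, nat_lit 22705582848], nat_lit 0, nat_lit 0, nat_lit 0, nat_lit 0, nat_lit 0, nat_lit 0, [], [nat_lit 6, nat_lit 40, nat_lit 80, nat_lit 80, nat_lit 3, nat_lit 260, nat_lit 50, nat_lit 9]⟩,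
 zbF0, []⟩
noncomputable def p023_l69 : Lf2 := ⟨nat_lit 0, nat_lit 5, [nat_lit 4, nat_lit 5, nat_lit 5, nat_lit 20], false, nat_lit 0, nat_lit 0, nat_lit 0, nat_lit 0, ⟨nat_lit 1000, nat_lit 0, nat_lit 0, nat_lit 0, nat_lit 0, nat_lit 0, nat_lit 0, nat_lit 0, nat_lit 0, nat_lit 0, nat_lit 0, nat_lit 0, nat_lit 0, nat_lit 0, nat_lit 0, nat_lit 0, false, false⟩,
 nat_lit 0, nat_lit 8718, nat_lit 0, nat_lit 0, nat_lit 6538, nat_lit 4026, nat_lit 460, nat_lit 0, nat_lit 0, nat_lit 682, nat_lit 0, nat_lit 0, nat_lit 0, nat_lit 0, nat_lit 0, nat_lit 0, nat_lit 0, nat_lit 0, [],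
 ⟨p023_k8, nat_lit 0, nat_lit 0, nat_lit 669, nat_lit 0, nat_lit 1369231, [nat_lit 2032000001, nat_lit 4688000000, nat_lit 6250000000], [], [nat_lit 33765425638, nat_lit 33828967639, nat_lit 34217713520, nat_lit 34286273066], nat_lit 1271250, nat_lit 1271250, nat_lit 1271250, nat_lit 1271250, nat_lit 0, nat_lit 0, [nat_lit 490000, nat_lit 1100000, nat_lit 1442500], [nat_lit 6, nat_lit 40, nat_lit 80, nat_lit 80, nat_lit 3, nat_lit 238, nat_lit 0, nat_lit 8]⟩, ⟨p023_k8, nat_lit 0, nat_lit 0, nat_lit 114, nat_lit 0, nat_lit 0, [nat_lit 2032000000, nat_lit 4688000000, nat_lit 6250000000], [], [nat_lit 22546590720, nat_lit 22701796430, nat_lit 24031559080, nat_lit 24185777144], nat_lit 0, nat_lit 0, nat_lit 0, nat_lit 0, nat_lit 0, nat_lit 0, [], [nat_lit 6, nat_lit 40, nat_lit 80, nat_lit 80, nat_lit 3, nat_lit 203, nat_lit 0, nat_lit 7]⟩,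
 zbF0, []⟩
noncomputable def p023_l70 : Lf2 := ⟨nat_lit 0, nat_lit 5, [nat_lit 4, nat_lit 5, nat_lit 5, nat_lit 20], false, nat_lit 0, nat_lit 0, nat_lit 0, nat_lit 0, ⟨nat_lit 1000, nat_lit 0, nat_lit 0, nat_lit 0, nat_lit 0, nat_lit 0, nat_lit 0, nat_lit 0, nat_lit 0, nat_lit 0, nat_lit 0, nat_lit 0, nat_lit 0, nat_lit 0, nat_lit 0, nat_lit 0, false, false⟩,
 nat_lit 0, nat_lit 8786, nat_lit 0, nat_lit 0, nat_lit 6640, nat_lit 4025, nat_lit 2309, nat_lit 0, nat_lit 0, nat_lit 715, nat_lit 0, nat_lit 0, nat_lit 0, nat_lit 0, nat_lit 0, nat_lit 0, nat_lit 0, nat_lit 0, [],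
 ⟨p023_k12, nat_lit 0, nat_lit 0, nat_lit 597, nat_lit 0, nat_lit 1361546, [nat_lit 2032000001, nat_lit 4688000000], [], [nat_lit 28914337115, nat_lit 28949452976, nat_lit 29770731544, nat_lit 29805212827], nat_lit 1271250, nat_lit 1271250, nat_lit 968401, nat_lit 1776000, nat_lit 0, nat_lit 0, [nat_lit 490000, nat_lit 1100000], [nat_lit 24, nat_lit 40, nat_lit 80, nat_lit 80, nat_lit 33, nat_lit 272, nat_lit 60, nat_lit 12]⟩, ⟨p023_k8, nat_lit 0, nat_lit 0, nat_lit 114, nat_lit 0, nat_lit 0, [nat_lit 2032000000, nat_lit 4688000000, nat_lit 6250000000], [], [nat_lit 20867274181, nat_lit 21036458670, nat_lit 24031386500, nat_lit 24185584401], nat_lit 0, nat_lit 0, nat_lit 0, nat_lit 0, nat_lit 0, nat_lit 0, [], [nat_lit 6, nat_lit 40, nat_lit 80, nat_lit 80, nat_lit 3, nat_lit 272, nat_lit 60, nat_lit 10]⟩,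
 zbF0, [⟨nat_lit 0, nat_lit 82, nat_lit 81, nat_lit 100, nat_lit 406100525⟩]⟩
noncomputable def p023_l71 : Lf2 := ⟨nat_lit 0, nat_lit 5, [nat_lit 4, nat_lit 5, nat_lit 5, nat_lit 20], false, nat_lit 0, nat_lit 0, nat_lit 0, nat_lit 0, ⟨nat_lit 1000, nat_lit 0, nat_lit 0, nat_lit 0, nat_lit 0, nat_lit 0, nat_lit 0, nat_lit 0, nat_lit 0, nat_lit 0, nat_lit 0, nat_lit 0, nat_lit 0, nat_lit 0, nat_lit 0, nat_lit 0, false, false⟩,
 nat_lit 0, nat_lit 8782, nat_lit 0, nat_lit 0, nat_lit 6638, nat_lit 4028, nat_lit 3026, nat_lit 0, nat_lit 0, nat_lit 0, nat_lit 0, nat_lit 0, nat_lit 0, nat_lit 0, nat_lit 0, nat_lit 0, nat_lit 0, nat_lit 0, [],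
 ⟨p023_k12, nat_lit 0, nat_lit 0, nat_lit 599, nat_lit 0, nat_lit 1370354, [nat_lit 2032000001, nat_lit 4688000000], [], [nat_lit 27673666529, nat_lit 27708571362, nat_lit 28541965936, nat_lit 28576443269], nat_lit 1271250, nat_lit 1271250, nat_lit 1000851, nat_lit 1778250, nat_lit 0, nat_lit 0, [nat_lit 490000, nat_lit 1100000], [nat_lit 24, nat_lit 40, nat_lit 80, nat_lit 80, nat_lit 33, nat_lit 272, nat_lit 60, nat_lit 12]⟩, ⟨p023_k12, nat_lit 0, nat_lit 0, nat_lit 90, nat_lit 0, nat_lit 0, [nat_lit 2032000000, nat_lit 4688000000], [], [nat_lit 21087011008, nat_lit 21173102422, nat_lit 24186162632, nat_lit 24263291829], nat_lit 0, nat_lit 0, nat_lit 0, nat_lit 0, nat_lit 0, nat_lit 0, [], [nat_lit 24, nat_lit 40, nat_lit 80, nat_lit 80, nat_lit 33, nat_lit 272, nat_lit 60, nat_lit 12]⟩,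
 zbF0, [⟨nat_lit 0, nat_lit 81, nat_lit 81, nat_lit 100, nat_lit 398560011⟩]⟩
noncomputable def p023_l72 : Lf2 := ⟨nat_lit 0, nat_lit 5, [nat_lit 4, nat_lit 5, nat_lit 5, nat_lit 20], false, nat_lit 0, nat_lit 0, nat_lit 0, nat_lit 0, ⟨nat_lit 1000, nat_lit 0, nat_lit 0, nat_lit 0, nat_lit 0, nat_lit 0, nat_lit 0, nat_lit 0, nat_lit 0, nat_lit 0, nat_lit 0, nat_lit 0, nat_lit 0, nat_lit 0, nat_lit 0, nat_lit 0, false, false⟩,
 nat_lit 0, nat_lit 8779, nat_lit 0, nat_lit 0, nat_lit 6661, nat_lit 4018, nat_lit 2767, nat_lit 0, nat_lit 0, nat_lit 714, nat_lit 0, nat_lit 0, nat_lit 0, nat_lit 0, nat_lit 0, nat_lit 0, nat_lit 0, nat_lit 0, [],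
 ⟨p023_k13, nat_lit 0, nat_lit 0, nat_lit 603, nat_lit 0, nat_lit 1376240, [nat_lit 2032000001, nat_lit 4688000000], [], [nat_lit 24757776886, nat_lit 24830670691, nat_lit 25924628045, nat_lit 26007969733], nat_lit 1271250, nat_lit 1271250, nat_lit 968401, nat_lit 1776000, nat_lit 0, nat_lit 0, [nat_lit 490000, nat_lit 1100000], [nat_lit 24, nat_lit 40, nat_lit 80, nat_lit 80, nat_lit 33, nat_lit 272, nat_lit 60, nat_lit 12]⟩, ⟨p023_k8, nat_lit 0, nat_lit 0, nat_lit 115, nat_lit 0, nat_lit 0, [nat_lit 2032000000, nat_lit 4688000000, nat_lit 6250000000], [], [nat_lit 20876375618, nat_lit 21127300003, nat_lit 24030178440, nat_lit 24261263569], nat_lit 0, nat_lit 0, nat_lit 0, nat_lit 0, nat_lit 0, nat_lit 0, [], [nat_lit 6, nat_lit 40, nat_lit 80, nat_lit 80, nat_lit 3, nat_lit 272, nat_lit 60, nat_lit 10]⟩,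
 zbF0, [⟨nat_lit 0, nat_lit 81, nat_lit 80, nat_lit 100, nat_lit 388941080⟩]⟩
noncomputable def b_N_800_800_0_5 : St := ⟨false, nat_lit 1, nat_lit 0, nat_lit 1, nat_lit 40, nat_lit 320, nat_lit 325, nat_lit 320, nat_lit 323, nat_lit 140, nat_lit 240, nat_lit 0, nat_lit 0, nat_lit 0, nat_lit 0, nat_lit 0, nat_lit 0, nat_lit 16, nat_lit 20, nat_lit 0, nat_lit 0, nat_lit 0, nat_lit 0⟩
theorem d_N_800_800_0_5 (h : EB TB.env) : Dead b_N_800_800_0_5 := chkB_sound0 h (T :=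
(.spl (nat_lit 0) (nat_lit 323)
(.spl (nat_lit 0) (nat_lit 322)
(.ord (.spl (nat_lit 2) (nat_lit 200)
(.spl (nat_lit 2) (nat_lit 160)
(.spl (nat_lit 1) (nat_lit 321)
(.spl (nat_lit 7) (nat_lit 600)
(.leaf p023_l46)
(.spl (nat_lit 7) (nat_lit 900)
(.leaf p023_l47)
(.spl (nat_lit 7) (nat_lit 1060)
(.leaf p023_l48)
(.spl (nat_lit 8) (nat_lit 800)
(.spl (nat_lit 8) (nat_lit 400)
(.spl (nat_lit 8) (nat_lit 200)
(.spl (nat_lit 8) (nat_lit 100)
(.leaf p023_l49)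
(.leaf p023_l50))
(.leaf p023_l51))
(.leaf p023_l52))
(.leaf p023_l53)))))
(.ord (.trZ (nat_lit 0) (nat_lit 83) (nat_lit 83) (nat_lit 100) (nat_lit 144) (.spl (nat_lit 2) (nat_lit 152)
(.spl (nat_lit 7) (nat_lit 600)
(.leaf p023_l54)
(.spl (nat_lit 7) (nat_lit 900)
(.leaf p023_l55)
(.spl (nat_lit 7) (nat_lit 1060)
(.leaf p023_l56)
(.spl (nat_lit 8) (nat_lit 800)
(.spl (nat_lit 8) (nat_lit 400)
(.leaf p023_l57)
(.leaf p023_l58))
(.leaf p023_l59)))))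
(.spl (nat_lit 2) (nat_lit 156)
(.spl (nat_lit 7) (nat_lit 600)
(.leaf p023_l60)
(.spl (nat_lit 7) (nat_lit 900)
(.leaf p023_l61)
(.spl (nat_lit 7) (nat_lit 1060)
(.leaf p023_l62)
(.spl (nat_lit 8) (nat_lit 800)
(.spl (nat_lit 8) (nat_lit 400)
(.leaf p023_l63)
(.leaf p023_l64))
(.leaf p023_l65)))))
(.leaf p023_l66))))))
(.spl (nat_lit 0) (nat_lit 321)
(.ord (.leaf p023_l67))
(.leaf p023_l68)))
(.leaf p023_l69)))
(.trZ (nat_lit 0) (nat_lit 83) (nat_lit 82) (nat_lit 100) (nat_lit 144) (.spl (nat_lit 1) (nat_lit 322)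
(.leaf p023_l70)
(.trZ (nat_lit 0) (nat_lit 82) (nat_lit 82) (nat_lit 100) (nat_lit 148) (.leaf p023_l71)))))
(.trZ (nat_lit 0) (nat_lit 83) (nat_lit 82) (nat_lit 100) (nat_lit 144) (.leaf p023_l72)))) (by decide +kernel)
noncomputable def p023_l73 : Lf2 := ⟨nat_lit 0, nat_lit 6, [nat_lit 47, nat_lit 5, nat_lit 5, nat_lit 20], false, nat_lit 0, nat_lit 0, nat_lit 0, nat_lit 0, ⟨nat_lit 1000, nat_lit 0, nat_lit 0, nat_lit 0, nat_lit 0, nat_lit 0, nat_lit 0, nat_lit 0, nat_lit 0, nat_lit 0, nat_lit 0, nat_lit 0, nat_lit 0, nat_lit 0, nat_lit 0, nat_lit 0, false, false⟩,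
 nat_lit 0, nat_lit 0, nat_lit 0, nat_lit 0, nat_lit 0, nat_lit 0, nat_lit 156, nat_lit 0, nat_lit 479, nat_lit 0, nat_lit 0, nat_lit 0, nat_lit 0, nat_lit 400000000000000, nat_lit 0, nat_lit 0, nat_lit 0, nat_lit 0, [],
 ⟨p023_k14, nat_lit 0, nat_lit 0, nat_lit 0, nat_lit 0, nat_lit 1313955, [nat_lit 2032000001, nat_lit 4688000000, nat_lit 6250000000], [], [nat_lit 13285746000, nat_lit 13315283525, nat_lit 13539716000, nat_lit 13570950200], nat_lit 1271250, nat_lit 1271250, nat_lit 936251, nat_lit 1033601, nat_lit 0, nat_lit 0, [nat_lit 490000, nat_lit 1100000, nat_lit 1442500], [nat_lit 6, nat_lit 40, nat_lit 80, nat_lit 80]⟩, ⟨p023_k14, nat_lit 0, nat_lit 0, nat_lit 110, nat_lit 0, nat_lit 0, [nat_lit 2032000000, nat_lit 4688000000, nat_lit 6250000000], [], [nat_lit 26565603000, nat_lit 26602764175, nat_lit 26850596400, nat_lit 26887389550], nat_lit 0, nat_lit 0, nat_lit 0, nat_lit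 0, nat_lit 0, nat_lit 0, [], [nat_lit 6, nat_lit 40, nat_lit 80, nat_lit 80, nat_lit 3, nat_lit 249, nat_lit 40, nat_lit 9]⟩,
 zbF0, [⟨nat_lit 0, nat_lit 83, nat_lit 83, nat_lit 100, nat_lit 10158838897⟩]⟩
noncomputable def p023_l74 : Lf2 := ⟨nat_lit 0, nat_lit 6, [nat_lit 47, nat_lit 5, nat_lit 5, nat_lit 20], false, nat_lit 0, nat_lit 0, nat_lit 0, nat_lit 0, ⟨nat_lit 1000, nat_lit 0, nat_lit 0, nat_lit 0, nat_lit 0, nat_lit 0, nat_lit 0, nat_lit 0, nat_lit 0, nat_lit 0, nat_lit 0, nat_lit 0, nat_lit 0, nat_lit 0, nat_lit 0, nat_lit 0, false, false⟩,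
 nat_lit 0, nat_lit 0, nat_lit 0, nat_lit 0, nat_lit 0, nat_lit 3271, nat_lit 0, nat_lit 0, nat_lit 465, nat_lit 707, nat_lit 0, nat_lit 0, nat_lit 0, nat_lit 0, nat_lit 0, nat_lit 0, nat_lit 0, nat_lit 0, [],
 ⟨p023_k14, nat_lit 0, nat_lit 0, nat_lit 0, nat_lit 0, nat_lit 1313955, [nat_lit 2032000001, nat_lit 4688000000, nat_lit 6250000000], [], [nat_lit 14820727000, nat_lit 14846864725, nat_lit 15049090000, nat_lit 15075028030], nat_lit 1271250, nat_lit 1271250, nat_lit 936251, nat_lit 1033601, nat_lit 0, nat_lit 0, [nat_lit 490000, nat_lit 1100000, nat_lit 1442500], [nat_lit 6, nat_lit 40, nat_lit 80, nat_lit 80]⟩, ⟨p023_k14, nat_lit 0, nat_lit 0, nat_lit 110, nat_lit 0, nat_lit 0, [nat_lit 2032000000, nat_lit 4688000000, nat_lit 6250000000], [], [nat_lit 21391618903, nat_lit 21464500298, nat_lit 21573281114, nat_lit 21649983313], nat_lit 0, nat_lit 0, nat_lit 0, nat_lit 0, nat_lit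 0, nat_lit 0, [], [nat_lit 6, nat_lit 40, nat_lit 80, nat_lit 80, nat_lit 3, nat_lit 249, nat_lit 40, nat_lit 9]⟩,
 zbF0, []⟩
noncomputable def p023_l75 : Lf2 := ⟨nat_lit 0, nat_lit 6, [nat_lit 47, nat_lit 5, nat_lit 5, nat_lit 20], false, nat_lit 0, nat_lit 0, nat_lit 0, nat_lit 0, ⟨nat_lit 1000, nat_lit 0, nat_lit 0, nat_lit 0, nat_lit 0, nat_lit 0, nat_lit 0, nat_lit 0, nat_lit 0, nat_lit 0, nat_lit 0, nat_lit 0, nat_lit 0, nat_lit 0, nat_lit 0, nat_lit 0, false, false⟩,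
 nat_lit 0, nat_lit 0, nat_lit 0, nat_lit 0, nat_lit 0, nat_lit 4058, nat_lit 127, nat_lit 0, nat_lit 449, nat_lit 720, nat_lit 0, nat_lit 0, nat_lit 0, nat_lit 25715196290913, nat_lit 0, nat_lit 0, nat_lit 0, nat_lit 0, [],
 ⟨p023_k14, nat_lit 0, nat_lit 0, nat_lit 0, nat_lit 0, nat_lit 1313955, [nat_lit 2032000001, nat_lit 4688000000, nat_lit 6250000000], [], [nat_lit 15791889000, nat_lit 15815642775, nat_lit 16006206400, nat_lit 16030040790], nat_lit 1271250, nat_lit 1271250, nat_lit 936251, nat_lit 1033601, nat_lit 0, nat_lit 0, [nat_lit 490000, nat_lit 1100000, nat_lit 1442500], [nat_lit 6, nat_lit 40, nat_lit 80, nat_lit 80]⟩, ⟨p023_k14, nat_lit 0, nat_lit 0, nat_lit 110, nat_lit 0, nat_lit 0, [nat_lit 2032000000, nat_lit 4688000000, nat_lit 6250000000], [], [nat_lit 20808325096, nat_lit 20900331060, nat_lit 20945592894, nat_lit 21036569019], nat_lit 0, nat_lit 0, nat_lit 0, nat_lit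 0, nat_lit 0, nat_lit 0, [], [nat_lit 6, nat_lit 40, nat_lit 80, nat_lit 80, nat_lit 3, nat_lit 249, nat_lit 40, nat_lit 9]⟩,
 zbF0, [⟨nat_lit 0, nat_lit 83, nat_lit 83, nat_lit 100, nat_lit 525614372⟩]⟩
noncomputable def p023_l76 : Lf2 := ⟨nat_lit 0, nat_lit 6, [nat_lit 47, nat_lit 5, nat_lit 5, nat_lit 20], false, nat_lit 0, nat_lit 0, nat_lit 0, nat_lit 0, ⟨nat_lit 1000, nat_lit 0, nat_lit 0, nat_lit 0, nat_lit 0, nat_lit 0, nat_lit 0, nat_lit 0, nat_lit 0, nat_lit 0, nat_lit 0, nat_lit 0, nat_lit 0, nat_lit 0, nat_lit 0, nat_lit 0, false, false⟩,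
 nat_lit 0, nat_lit 8864, nat_lit 0, nat_lit 0, nat_lit 6647, nat_lit 4013, nat_lit 477, nat_lit 0, nat_lit 0, nat_lit 1365, nat_lit 0, nat_lit 0, nat_lit 0, nat_lit 0, nat_lit 0, nat_lit 0, nat_lit 0, nat_lit 0, [],
 ⟨p023_k14, nat_lit 0, nat_lit 0, nat_lit 662, nat_lit 0, nat_lit 1313955, [nat_lit 2032000001, nat_lit 4688000000, nat_lit 6250000000], [], [nat_lit 32807372000, nat_lit 32845794952, nat_lit 32766211021, nat_lit 32800927512], nat_lit 1271250, nat_lit 1271250, nat_lit 936251, nat_lit 1033601, nat_lit 0, nat_lit 0, [nat_lit 490000, nat_lit 1100000, nat_lit 1442500], [nat_lit 6, nat_lit 40, nat_lit 80, nat_lit 80, nat_lit 3, nat_lit 249, nat_lit 40, nat_lit 9]⟩, ⟨p023_k15, nat_lit 0, nat_lit 0, nat_lit 0, nat_lit 0, nat_lit 0, [nat_lit 2032000000, nat_lit 3282000000, nat_lit 4688000000, nat_lit 6250000000], [], [nat_lit 18624154434, nat_lit 18705736416, nat_lit 18769859012,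 nat_lit 18849484717], nat_lit 0, nat_lit 0, nat_lit 0, nat_lit 0, nat_lit 0, nat_lit 0, [], [nat_lit 127, nat_lit 40, nat_lit 80, nat_lit 80]⟩,
 zbF0, [⟨nat_lit 0, nat_lit 83, nat_lit 83, nat_lit 100, nat_lit 678193068⟩]⟩
noncomputable def p023_l77 : Lf2 := ⟨nat_lit 3, nat_lit 6, [nat_lit 47, nat_lit 5, nat_lit 5, nat_lit 20], false, nat_lit 0, nat_lit 0, nat_lit 0, nat_lit 0, zbN0,
 nat_lit 0, nat_lit 0, nat_lit 0, nat_lit 0, nat_lit 0, nat_lit 0, nat_lit 0, nat_lit 0, nat_lit 0, nat_lit 0, nat_lit 0, nat_lit 0, nat_lit 0, nat_lit 0, nat_lit 0, nat_lit 0, nat_lit 0, nat_lit 0, [],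
 C1.Rw.none, ⟨p023_k14, nat_lit 0, nat_lit 0, nat_lit 0, nat_lit 0, nat_lit 0, [], [], [], nat_lit 0, nat_lit 0, nat_lit 0, nat_lit 0, nat_lit 0, nat_lit 0, [], [nat_lit 6, nat_lit 40, nat_lit 80, nat_lit 80]⟩,
 zbF0, []⟩
noncomputable def p023_l78 : Lf2 := ⟨nat_lit 3, nat_lit 6, [nat_lit 47, nat_lit 5, nat_lit 5, nat_lit 20], false, nat_lit 0, nat_lit 0, nat_lit 0, nat_lit 0, zbN0,
 nat_lit 0, nat_lit 0, nat_lit 0, nat_lit 0, nat_lit 0, nat_lit 0, nat_lit 0, nat_lit 0, nat_lit 0, nat_lit 0, nat_lit 0, nat_lit 0, nat_lit 0, nat_lit 0, nat_lit 0, nat_lit 0, nat_lit 0, nat_lit 0, [],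
 C1.Rw.none, ⟨p023_k14, nat_lit 0, nat_lit 0, nat_lit 110, nat_lit 0, nat_lit 0, [], [], [], nat_lit 0, nat_lit 0, nat_lit 0, nat_lit 0, nat_lit 0, nat_lit 0, [], [nat_lit 6, nat_lit 40, nat_lit 80, nat_lit 80, nat_lit 3, nat_lit 249, nat_lit 40, nat_lit 9]⟩,
 zbF0, []⟩
noncomputable def p023_l79 : Lf2 := ⟨nat_lit 0, nat_lit 6, [nat_lit 47, nat_lit 5, nat_lit 5, nat_lit 20], false, nat_lit 0, nat_lit 0, nat_lit 0, nat_lit 0, ⟨nat_lit 1000, nat_lit 0, nat_lit 0, nat_lit 0, nat_lit 0, nat_lit 0, nat_lit 0, nat_lit 0, nat_lit 0, nat_lit 0, nat_lit 0, nat_lit 0, nat_lit 0, nat_lit 0, nat_lit 0, nat_lit 0, false, false⟩,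
 nat_lit 0, nat_lit 8727, nat_lit 0, nat_lit 0, nat_lit 6545, nat_lit 4051, nat_lit 478, nat_lit 0, nat_lit 0, nat_lit 714, nat_lit 0, nat_lit 0, nat_lit 0, nat_lit 0, nat_lit 0, nat_lit 0, nat_lit 0, nat_lit 0, [],
 ⟨p023_k14, nat_lit 0, nat_lit 0, nat_lit 658, nat_lit 0, nat_lit 1313955, [nat_lit 2032000001, nat_lit 4688000000, nat_lit 6250000000], [], [nat_lit 33277926821, nat_lit 33315432948, nat_lit 33256297601, nat_lit 33295452838], nat_lit 1271250, nat_lit 1271250, nat_lit 1033601, nat_lit 1100001, nat_lit 0, nat_lit 0, [nat_lit 490000, nat_lit 1100000, nat_lit 1442500], [nat_lit 6, nat_lit 40, nat_lit 80, nat_lit 80, nat_lit 3, nat_lit 249, nat_lit 40, nat_lit 9]⟩, ⟨p023_k14, nat_lit 0, nat_lit 0, nat_lit 107, nat_lit 0, nat_lit 0, [nat_lit 2032000000, nat_lit 4688000000, nat_lit 6250000000], [], [nat_lit 20952821565, nat_lit 21037741543, nat_lit 21060069732, nat_lit 21144942662],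 nat_lit 0, nat_lit 0, nat_lit 0, nat_lit 0, nat_lit 0, nat_lit 0, [], [nat_lit 6, nat_lit 40, nat_lit 80, nat_lit 80, nat_lit 3, nat_lit 249, nat_lit 40, nat_lit 9]⟩,
 zbF0, []⟩
noncomputable def p023_l80 : Lf2 := ⟨nat_lit 0, nat_lit 6, [nat_lit 47, nat_lit 5, nat_lit 5, nat_lit 20], false, nat_lit 0, nat_lit 0, nat_lit 0, nat_lit 0, ⟨nat_lit 1000, nat_lit 0, nat_lit 0, nat_lit 0, nat_lit 0, nat_lit 0, nat_lit 0, nat_lit 0, nat_lit 0, nat_lit 0, nat_lit 0, nat_lit 0, nat_lit 0, nat_lit 0, nat_lit 0, nat_lit 0, false, false⟩,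
 nat_lit 0, nat_lit 8692, nat_lit 0, nat_lit 0, nat_lit 6544, nat_lit 4072, nat_lit 483, nat_lit 0, nat_lit 0, nat_lit 717, nat_lit 0, nat_lit 0, nat_lit 0, nat_lit 0, nat_lit 0, nat_lit 0, nat_lit 0, nat_lit 0, [],
 ⟨p023_k16, nat_lit 0, nat_lit 0, nat_lit 660, nat_lit 0, nat_lit 1313715, [nat_lit 2032000001, nat_lit 4688000000, nat_lit 6250000000], [], [nat_lit 32993921678, nat_lit 33031870238, nat_lit 32951852234, nat_lit 32991550956], nat_lit 1271250, nat_lit 1271250, nat_lit 968401, nat_lit 1100001, nat_lit 0, nat_lit 0, [nat_lit 490000, nat_lit 1100000, nat_lit 1442500], [nat_lit 6, nat_lit 40, nat_lit 80, nat_lit 80, nat_lit 3, nat_lit 249, nat_lit 40, nat_lit 9]⟩, ⟨p023_k14, nat_lit 0, nat_lit 0, nat_lit 109, nat_lit 0, nat_lit 0, [nat_lit 2032000000, nat_lit 4688000000, nat_lit 6250000000], [], [nat_lit 20862093172, nat_lit 20948221834, nat_lit 21042873504, nat_lit 21127989387],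 nat_lit 0, nat_lit 0, nat_lit 0, nat_lit 0, nat_lit 0, nat_lit 0, [], [nat_lit 6, nat_lit 40, nat_lit 80, nat_lit 80, nat_lit 3, nat_lit 249, nat_lit 40, nat_lit 9]⟩,
 zbF0, [⟨nat_lit 0, nat_lit 83, nat_lit 82, nat_lit 100, nat_lit 674171348⟩]⟩
noncomputable def p023_l81 : Lf2 := ⟨nat_lit 0, nat_lit 6, [nat_lit 47, nat_lit 5, nat_lit 5, nat_lit 20], false, nat_lit 0, nat_lit 0, nat_lit 0, nat_lit 0, ⟨nat_lit 1000, nat_lit 0, nat_lit 0, nat_lit 0, nat_lit 0, nat_lit 0, nat_lit 0, nat_lit 0, nat_lit 0, nat_lit 0, nat_lit 0, nat_lit 0, nat_lit 0, nat_lit 0, nat_lit 0, nat_lit 0, false, false⟩,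
 nat_lit 0, nat_lit 8650, nat_lit 0, nat_lit 0, nat_lit 6538, nat_lit 4072, nat_lit 491, nat_lit 0, nat_lit 0, nat_lit 717, nat_lit 0, nat_lit 0, nat_lit 0, nat_lit 0, nat_lit 0, nat_lit 0, nat_lit 0, nat_lit 0, [],
 ⟨p023_k17, nat_lit 0, nat_lit 0, nat_lit 661, nat_lit 0, nat_lit 1313463, [nat_lit 2032000001, nat_lit 4688000000, nat_lit 6250000000], [], [nat_lit 32564443267, nat_lit 32602377307, nat_lit 32522081527, nat_lit 32561764442], nat_lit 1271250, nat_lit 1271250, nat_lit 968401, nat_lit 1100001, nat_lit 0, nat_lit 0, [nat_lit 490000, nat_lit 1100000, nat_lit 1442500], [nat_lit 6, nat_lit 40, nat_lit 80, nat_lit 80, nat_lit 3, nat_lit 249, nat_lit 40, nat_lit 9]⟩, ⟨p023_k14, nat_lit 0, nat_lit 0, nat_lit 109, nat_lit 0, nat_lit 0, [nat_lit 2032000000, nat_lit 4688000000, nat_lit 6250000000], [], [nat_lit 20862093172, nat_lit 20948221834, nat_lit 21042873504, nat_lit 21127989387],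 nat_lit 0, nat_lit 0, nat_lit 0, nat_lit 0, nat_lit 0, nat_lit 0, [], [nat_lit 6, nat_lit 40, nat_lit 80, nat_lit 80, nat_lit 3, nat_lit 249, nat_lit 40, nat_lit 9]⟩,
 zbF0, [⟨nat_lit 0, nat_lit 82, nat_lit 82, nat_lit 100, nat_lit 681757479⟩]⟩
noncomputable def p023_l82 : Lf2 := ⟨nat_lit 0, nat_lit 6, [nat_lit 47, nat_lit 5, nat_lit 5, nat_lit 20], false, nat_lit 0, nat_lit 0, nat_lit 0, nat_lit 0, ⟨nat_lit 933, nat_lit 0, nat_lit 67, nat_lit 8, nat_lit 216, nat_lit 0, nat_lit 0, nat_lit 0, nat_lit 0, nat_lit 215, nat_lit 11977, nat_lit 236, nat_lit 51887742, nat_lit 0, nat_lit 0, nat_lit 2669252, false, false⟩,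
 nat_lit 0, nat_lit 0, nat_lit 0, nat_lit 0, nat_lit 0, nat_lit 0, nat_lit 0, nat_lit 0, nat_lit 455, nat_lit 0, nat_lit 0, nat_lit 0, nat_lit 0, nat_lit 400000000000000, nat_lit 0, nat_lit 14500, nat_lit 0, nat_lit 0, [(nat_lit 18, [(nat_lit 3, nat_lit 30), (nat_lit 4, nat_lit 37)])],
 ⟨p023_k16, nat_lit 0, nat_lit 0, nat_lit 0, nat_lit 0, nat_lit 1322501, [nat_lit 2363051200, nat_lit 4367147600, nat_lit 5779844800], [], [nat_lit 14176701800, nat_lit 14205800720, nat_lit 14260642620, nat_lit 14290256040], nat_lit 1271250, nat_lit 1271250, nat_lit 968401, nat_lit 1000851, nat_lit 0, nat_lit 0, [nat_lit 490000, nat_lit 1100000, nat_lit 1442500], [nat_lit 6, nat_lit 40, nat_lit 80, nat_lit 80]⟩, ⟨p023_k16, nat_lit 0, nat_lit 0, nat_lit 110, nat_lit 0, nat_lit 0, [nat_lit 1895856000, nat_lit 4373904000, nat_lit 5831250000], [], [nat_lit 24908897467, nat_lit 24943454388, nat_lit 24997415959,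 nat_lit 25031858424], nat_lit 0, nat_lit 0, nat_lit 0, nat_lit 0, nat_lit 0, nat_lit 0, [], [nat_lit 6, nat_lit 40, nat_lit 80, nat_lit 80, nat_lit 3, nat_lit 249, nat_lit 40, nat_lit 9]⟩,
 ⟨nat_lit 4415, nat_lit 4445, ⟨.ofNat (nat_lit 535601), .ofNat (nat_lit 542382), .ofNat (nat_lit 536680), .ofNat (nat_lit 543461), .ofNat (nat_lit 535898), .ofNat (nat_lit 542661), .ofNat (nat_lit 536977), .ofNat (nat_lit 543740)⟩, ⟨.ofNat (nat_lit 0), .ofNat (nat_lit 0), .ofNat (nat_lit 0), .ofNat (nat_lit 0), .ofNat (nat_lit 0), .ofNat (nat_lit 0), .ofNat (nat_lit 0), .ofNat (nat_lit 0)⟩⟩, [⟨nat_lit 0, nat_lit 82, nat_lit 82, nat_lit 100, nat_lit 14872099941⟩, ⟨nat_lit 0, nat_lit 82, nat_lit 82, nat_lit 100, nat_lit 14872099941⟩, ⟨nat_lit 0, nat_lit 83, nat_lit 83, nat_lit 100, nat_lit 14515894905⟩]⟩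
noncomputable def p023_l83 : Lf2 := ⟨nat_lit 0, nat_lit 6, [nat_lit 47, nat_lit 5, nat_lit 5, nat_lit 20], false, nat_lit 0, nat_lit 0, nat_lit 0, nat_lit 0, ⟨nat_lit 1000, nat_lit 0, nat_lit 0, nat_lit 0, nat_lit 0, nat_lit 0, nat_lit 0, nat_lit 0, nat_lit 0, nat_lit 0, nat_lit 0, nat_lit 0, nat_lit 0, nat_lit 0, nat_lit 0, nat_lit 0, false, false⟩,
 nat_lit 0, nat_lit 0, nat_lit 0, nat_lit 0, nat_lit 0, nat_lit 4031, nat_lit 0, nat_lit 0, nat_lit 466, nat_lit 722, nat_lit 0, nat_lit 0, nat_lit 0, nat_lit 193957253561946, nat_lit 0, nat_lit 0, nat_lit 0, nat_lit 0, [],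
 ⟨p023_k16, nat_lit 0, nat_lit 0, nat_lit 0, nat_lit 0, nat_lit 1322501, [nat_lit 2032000001, nat_lit 4688000000, nat_lit 6250000000], [], [nat_lit 14840696561, nat_lit 14869236320, nat_lit 14921704820, nat_lit 14950166040], nat_lit 1271250, nat_lit 1271250, nat_lit 968401, nat_lit 1000851, nat_lit 0, nat_lit 0, [nat_lit 490000, nat_lit 1100000, nat_lit 1442500], [nat_lit 6, nat_lit 40, nat_lit 80, nat_lit 80]⟩, ⟨p023_k16, nat_lit 0, nat_lit 0, nat_lit 110, nat_lit 0, nat_lit 0, [nat_lit 2032000000, nat_lit 4688000000, nat_lit 6250000000], [], [nat_lit 20869973331, nat_lit 20961342452, nat_lit 20924138096, nat_lit 21010265029], nat_lit 0, nat_lit 0, nat_lit 0, nat_lit 0, nat_lit 0, nat_lit 0, [], [nat_lit 6, nat_lit 40, nat_lit 80, nat_lit 80, nat_lit 3, nat_lit 249, nat_lit 40, nat_lit 9]⟩,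
 zbF0, []⟩
noncomputable def p023_l84 : Lf2 := ⟨nat_lit 0, nat_lit 6, [nat_lit 47, nat_lit 5, nat_lit 5, nat_lit 20], false, nat_lit 0, nat_lit 0, nat_lit 0, nat_lit 0, ⟨nat_lit 1000, nat_lit 0, nat_lit 0, nat_lit 0, nat_lit 0, nat_lit 0, nat_lit 0, nat_lit 0, nat_lit 0, nat_lit 0, nat_lit 0, nat_lit 0, nat_lit 0, nat_lit 0, nat_lit 0, nat_lit 0, false, false⟩,
 nat_lit 0, nat_lit 0, nat_lit 0, nat_lit 0, nat_lit 0, nat_lit 4041, nat_lit 138, nat_lit 0, nat_lit 451, nat_lit 721, nat_lit 0, nat_lit 0, nat_lit 0, nat_lit 0, nat_lit 0, nat_lit 0, nat_lit 0, nat_lit 0, [],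
 ⟨p023_k16, nat_lit 0, nat_lit 0, nat_lit 0, nat_lit 0, nat_lit 1322501, [nat_lit 2032000001, nat_lit 4688000000, nat_lit 6250000000], [], [nat_lit 15561602530, nat_lit 15586145060, nat_lit 15634618635, nat_lit 15659153370], nat_lit 1271250, nat_lit 1271250, nat_lit 968401, nat_lit 1000851, nat_lit 0, nat_lit 0, [nat_lit 490000, nat_lit 1100000, nat_lit 1442500], [nat_lit 6, nat_lit 40, nat_lit 80, nat_lit 80]⟩, ⟨p023_k16, nat_lit 0, nat_lit 0, nat_lit 110, nat_lit 0, nat_lit 0, [nat_lit 2032000000, nat_lit 4688000000, nat_lit 6250000000], [], [nat_lit 20874622016, nat_lit 20962296835, nat_lit 20916490395, nat_lit 21007408167], nat_lit 0, nat_lit 0, nat_lit 0, nat_lit 0, nat_lit 0, nat_lit 0, [], [nat_lit 6, nat_lit 40, nat_lit 80, nat_lit 80, nat_lit 3, nat_lit 249, nat_lit 40, nat_lit 9]⟩,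
 zbF0, [⟨nat_lit 0, nat_lit 83, nat_lit 83, nat_lit 100, nat_lit 539498931⟩]⟩
noncomputable def p023_l85 : Lf2 := ⟨nat_lit 0, nat_lit 6, [nat_lit 47, nat_lit 5, nat_lit 5, nat_lit 20], false, nat_lit 0, nat_lit 0, nat_lit 0, nat_lit 0, ⟨nat_lit 1000, nat_lit 0, nat_lit 0, nat_lit 0, nat_lit 0, nat_lit 0, nat_lit 0, nat_lit 0, nat_lit 0, nat_lit 0, nat_lit 0, nat_lit 0, nat_lit 0, nat_lit 0, nat_lit 0, nat_lit 0, false, false⟩,
 nat_lit 0, nat_lit 8829, nat_lit 0, nat_lit 0, nat_lit 6647, nat_lit 4030, nat_lit 481, nat_lit 0, nat_lit 0, nat_lit 1344, nat_lit 0, nat_lit 0, nat_lit 0, nat_lit 4719299298405, nat_lit 0, nat_lit 0, nat_lit 0, nat_lit 0, [],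
 ⟨p023_k16, nat_lit 0, nat_lit 0, nat_lit 664, nat_lit 0, nat_lit 1322501, [nat_lit 2032000001, nat_lit 4688000000, nat_lit 6250000000], [], [nat_lit 32480583355, nat_lit 32518781175, nat_lit 32467121279, nat_lit 32504567855], nat_lit 1271250, nat_lit 1271250, nat_lit 968401, nat_lit 1000851, nat_lit 0, nat_lit 0, [nat_lit 490000, nat_lit 1100000, nat_lit 1442500], [nat_lit 6, nat_lit 40, nat_lit 80, nat_lit 80, nat_lit 3, nat_lit 249, nat_lit 40, nat_lit 9]⟩, ⟨p023_k18, nat_lit 0, nat_lit 0, nat_lit 0, nat_lit 0, nat_lit 0, [nat_lit 2032000000, nat_lit 3282000000, nat_lit 4688000000, nat_lit 6250000000], [], [nat_lit 18708446274, nat_lit 18794085460, nat_lit 18749263199, nat_lit 18833849893], nat_lit 0, nat_lit 0, nat_lit 0, nat_lit 0, nat_lit 0, nat_lit 0, [], [nat_lit 127, nat_lit 40, nat_lit 80, nat_lit 80]⟩,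
 zbF0, [⟨nat_lit 0, nat_lit 82, nat_lit 82, nat_lit 100, nat_lit 1047544616⟩]⟩
noncomputable def p023_l86 : Lf2 := ⟨nat_lit 3, nat_lit 6, [nat_lit 47, nat_lit 5, nat_lit 5, nat_lit 20], false, nat_lit 0, nat_lit 0, nat_lit 0, nat_lit 0, zbN0,
 nat_lit 0, nat_lit 0, nat_lit 0, nat_lit 0, nat_lit 0, nat_lit 0, nat_lit 0, nat_lit 0, nat_lit 0, nat_lit 0, nat_lit 0, nat_lit 0, nat_lit 0, nat_lit 0, nat_lit 0, nat_lit 0, nat_lit 0, nat_lit 0, [],
 C1.Rw.none, ⟨p023_k16, nat_lit 0, nat_lit 0, nat_lit 0, nat_lit 0, nat_lit 0, [], [], [], nat_lit 0, nat_lit 0, nat_lit 0, nat_lit 0, nat_lit 0, nat_lit 0, [], [nat_lit 6, nat_lit 40, nat_lit 80, nat_lit 80]⟩,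
 zbF0, []⟩
noncomputable def p023_l87 : Lf2 := ⟨nat_lit 3, nat_lit 6, [nat_lit 47, nat_lit 5, nat_lit 5, nat_lit 20], false, nat_lit 0, nat_lit 0, nat_lit 0, nat_lit 0, zbN0,
 nat_lit 0, nat_lit 0, nat_lit 0, nat_lit 0, nat_lit 0, nat_lit 0, nat_lit 0, nat_lit 0, nat_lit 0, nat_lit 0, nat_lit 0, nat_lit 0, nat_lit 0, nat_lit 0, nat_lit 0, nat_lit 0, nat_lit 0, nat_lit 0, [],
 C1.Rw.none, ⟨p023_k16, nat_lit 0, nat_lit 0, nat_lit 110, nat_lit 0, nat_lit 0, [], [], [], nat_lit 0, nat_lit 0, nat_lit 0, nat_lit 0, nat_lit 0, nat_lit 0, [], [nat_lit 6, nat_lit 40, nat_lit 80, nat_lit 80, nat_lit 3, nat_lit 249, nat_lit 40, nat_lit 9]⟩,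
 zbF0, []⟩
noncomputable def p023_l88 : Lf2 := ⟨nat_lit 0, nat_lit 6, [nat_lit 47, nat_lit 5, nat_lit 5, nat_lit 20], false, nat_lit 0, nat_lit 0, nat_lit 0, nat_lit 0, ⟨nat_lit 961, nat_lit 0, nat_lit 39, nat_lit 8, nat_lit 219, nat_lit 0, nat_lit 0, nat_lit 0, nat_lit 0, nat_lit 215, nat_lit 5920, nat_lit 232, nat_lit 51593847, nat_lit 0, nat_lit 0, nat_lit 2696033, false, false⟩,
 nat_lit 0, nat_lit 0, nat_lit 0, nat_lit 0, nat_lit 0, nat_lit 5861, nat_lit 0, nat_lit 0, nat_lit 478, nat_lit 711, nat_lit 0, nat_lit 0, nat_lit 0, nat_lit 400000000000000, nat_lit 0, nat_lit 6825, nat_lit 0, nat_lit 0, [(nat_lit 18, [(nat_lit 3, nat_lit 39)])],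
 ⟨p023_k16, nat_lit 0, nat_lit 0, nat_lit 0, nat_lit 0, nat_lit 1322501, [nat_lit 2488456000, nat_lit 4504138400, nat_lit 5982694000], [], [nat_lit 13653625880, nat_lit 13684554160, nat_lit 13740491820, nat_lit 13771327240], nat_lit 1271250, nat_lit 1271250, nat_lit 1000851, nat_lit 1033601, nat_lit 0, nat_lit 0, [nat_lit 490000, nat_lit 1100000, nat_lit 1442500], [nat_lit 6, nat_lit 40, nat_lit 80, nat_lit 80]⟩, ⟨p023_k16, nat_lit 0, nat_lit 0, nat_lit 109, nat_lit 0, nat_lit 0, [nat_lit 1952752000, nat_lit 4505168000, nat_lit 6006250000], [], [nat_lit 20245813601, nat_lit 20380260366, nat_lit 20235368003, nat_lit 20369021472], nat_lit 0, nat_lit 0, nat_lit 0, nat_lit 0, nat_lit 0, nat_lit 0, [], [nat_lit 6, nat_lit 40, nat_lit 80, nat_lit 80, nat_lit 3, nat_lit 249, nat_lit 40, nat_lit 9]⟩,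
 ⟨nat_lit 4415, nat_lit 4445, ⟨.ofNat (nat_lit 542382), .ofNat (nat_lit 549163), .ofNat (nat_lit 543461), .ofNat (nat_lit 550241), .ofNat (nat_lit 542661), .ofNat (nat_lit 549425), .ofNat (nat_lit 543740), .ofNat (nat_lit 550504)⟩, ⟨.ofNat (nat_lit 0), .ofNat (nat_lit 0), .ofNat (nat_lit 0), .ofNat (nat_lit 0), .ofNat (nat_lit 0), .ofNat (nat_lit 0), .ofNat (nat_lit 0), .ofNat (nat_lit 0)⟩⟩, [⟨nat_lit 0, nat_lit 82, nat_lit 82, nat_lit 100, nat_lit 3879391923⟩, ⟨nat_lit 0, nat_lit 83, nat_lit 83, nat_lit 100, nat_lit 14515894905⟩]⟩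
noncomputable def p023_l89 : Lf2 := ⟨nat_lit 0, nat_lit 6, [nat_lit 47, nat_lit 5, nat_lit 5, nat_lit 20], false, nat_lit 0, nat_lit 0, nat_lit 0, nat_lit 0, ⟨nat_lit 1000, nat_lit 0, nat_lit 0, nat_lit 0, nat_lit 0, nat_lit 0, nat_lit 0, nat_lit 0, nat_lit 0, nat_lit 0, nat_lit 0, nat_lit 0, nat_lit 0, nat_lit 0, nat_lit 0, nat_lit 0, false, false⟩,
 nat_lit 0, nat_lit 0, nat_lit 0, nat_lit 0, nat_lit 0, nat_lit 4041, nat_lit 150, nat_lit 0, nat_lit 468, nat_lit 721, nat_lit 0, nat_lit 0, nat_lit 0, nat_lit 297745180367987, nat_lit 0, nat_lit 0, nat_lit 0, nat_lit 0, [],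
 ⟨p023_k16, nat_lit 0, nat_lit 0, nat_lit 0, nat_lit 0, nat_lit 1322501, [nat_lit 2032000001, nat_lit 4688000000, nat_lit 6250000000], [], [nat_lit 14133514885, nat_lit 14160280920, nat_lit 14211384140, nat_lit 14238079630], nat_lit 1271250, nat_lit 1271250, nat_lit 1000851, nat_lit 1033601, nat_lit 0, nat_lit 0, [nat_lit 490000, nat_lit 1100000, nat_lit 1442500], [nat_lit 6, nat_lit 40, nat_lit 80, nat_lit 80]⟩, ⟨p023_k16, nat_lit 0, nat_lit 0, nat_lit 109, nat_lit 0, nat_lit 0, [nat_lit 2032000000, nat_lit 4688000000, nat_lit 6250000000], [], [nat_lit 20916490395, nat_lit 21007408167, nat_lit 20970547771, nat_lit 21056297070], nat_lit 0, nat_lit 0, nat_lit 0, nat_lit 0, nat_lit 0, nat_lit 0, [], [nat_lit 6, nat_lit 40, nat_lit 80, nat_lit 80, nat_lit 3, nat_lit 249, nat_lit 40, nat_lit 9]⟩,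
 zbF0, []⟩
noncomputable def p023_l90 : Lf2 := ⟨nat_lit 0, nat_lit 6, [nat_lit 47, nat_lit 5, nat_lit 5, nat_lit 20], false, nat_lit 0, nat_lit 0, nat_lit 0, nat_lit 0, ⟨nat_lit 1000, nat_lit 0, nat_lit 0, nat_lit 0, nat_lit 0, nat_lit 0, nat_lit 0, nat_lit 0, nat_lit 0, nat_lit 0, nat_lit 0, nat_lit 0, nat_lit 0, nat_lit 0, nat_lit 0, nat_lit 0, false, false⟩,
 nat_lit 0, nat_lit 0, nat_lit 0, nat_lit 0, nat_lit 0, nat_lit 4041, nat_lit 138, nat_lit 0, nat_lit 451, nat_lit 721, nat_lit 0, nat_lit 0, nat_lit 0, nat_lit 8185909902956, nat_lit 0, nat_lit 0, nat_lit 0, nat_lit 0, [],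
 ⟨p023_k16, nat_lit 0, nat_lit 0, nat_lit 0, nat_lit 0, nat_lit 1322501, [nat_lit 2032000001, nat_lit 4688000000, nat_lit 6250000000], [], [nat_lit 15634618635, nat_lit 15659153370, nat_lit 15707686890, nat_lit 15732161680], nat_lit 1271250, nat_lit 1271250, nat_lit 1000851, nat_lit 1033601, nat_lit 0, nat_lit 0, [nat_lit 490000, nat_lit 1100000, nat_lit 1442500], [nat_lit 6, nat_lit 40, nat_lit 80, nat_lit 80]⟩, ⟨p023_k16, nat_lit 0, nat_lit 0, nat_lit 109, nat_lit 0, nat_lit 0, [nat_lit 2032000000, nat_lit 4688000000, nat_lit 6250000000], [], [nat_lit 20916490395, nat_lit 21007408167, nat_lit 20970547771, nat_lit 21056297070], nat_lit 0, nat_lit 0, nat_lit 0, nat_lit 0, nat_lit 0, nat_lit 0, [], [nat_lit 6, nat_lit 40, nat_lit 80, nat_lit 80, nat_lit 3, nat_lit 249, nat_lit 40, nat_lit 9]⟩,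
 zbF0, []⟩
noncomputable def p023_l91 : Lf2 := ⟨nat_lit 0, nat_lit 6, [nat_lit 47, nat_lit 5, nat_lit 5, nat_lit 20], false, nat_lit 0, nat_lit 0, nat_lit 0, nat_lit 0, ⟨nat_lit 1000, nat_lit 0, nat_lit 0, nat_lit 0, nat_lit 0, nat_lit 0, nat_lit 0, nat_lit 0, nat_lit 0, nat_lit 0, nat_lit 0, nat_lit 0, nat_lit 0, nat_lit 0, nat_lit 0, nat_lit 0, false, false⟩,
 nat_lit 0, nat_lit 8825, nat_lit 0, nat_lit 0, nat_lit 6644, nat_lit 4025, nat_lit 481, nat_lit 0, nat_lit 0, nat_lit 1344, nat_lit 0, nat_lit 0, nat_lit 0, nat_lit 0, nat_lit 0, nat_lit 0, nat_lit 0, nat_lit 0, [],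
 ⟨p023_k16, nat_lit 0, nat_lit 0, nat_lit 663, nat_lit 0, nat_lit 1322501, [nat_lit 2032000001, nat_lit 4688000000, nat_lit 6250000000], [], [nat_lit 32485029543, nat_lit 32519946843, nat_lit 32471649415, nat_lit 32508683472], nat_lit 1271250, nat_lit 1271250, nat_lit 1000851, nat_lit 1033601, nat_lit 0, nat_lit 0, [nat_lit 490000, nat_lit 1100000, nat_lit 1442500], [nat_lit 6, nat_lit 40, nat_lit 80, nat_lit 80, nat_lit 3, nat_lit 249, nat_lit 40, nat_lit 9]⟩, ⟨p023_k18, nat_lit 0, nat_lit 0, nat_lit 0, nat_lit 0, nat_lit 0, [nat_lit 2032000000, nat_lit 3282000000, nat_lit 4688000000, nat_lit 6250000000], [], [nat_lit 18752911154, nat_lit 18833292784, nat_lit 18800886677, nat_lit 18880640463], nat_lit 0, nat_lit 0, nat_lit 0, nat_lit 0, nat_lit 0, nat_lit 0, [], [nat_lit 127, nat_lit 40, nat_lit 80, nat_lit 80]⟩,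
 zbF0, [⟨nat_lit 0, nat_lit 82, nat_lit 82, nat_lit 100, nat_lit 681973792⟩]⟩
noncomputable def p023_l92 : Lf2 := ⟨nat_lit 3, nat_lit 6, [nat_lit 47, nat_lit 5, nat_lit 5, nat_lit 20], false, nat_lit 0, nat_lit 0, nat_lit 0, nat_lit 0, zbN0,
 nat_lit 0, nat_lit 0, nat_lit 0, nat_lit 0, nat_lit 0, nat_lit 0, nat_lit 0, nat_lit 0, nat_lit 0, nat_lit 0, nat_lit 0, nat_lit 0, nat_lit 0, nat_lit 0, nat_lit 0, nat_lit 0, nat_lit 0, nat_lit 0, [],
 C1.Rw.none, ⟨p023_k16, nat_lit 0, nat_lit 0, nat_lit 0, nat_lit 0, nat_lit 0, [], [], [], nat_lit 0, nat_lit 0, nat_lit 0, nat_lit 0, nat_lit 0, nat_lit 0, [], [nat_lit 6, nat_lit 40, nat_lit 80, nat_lit 80]⟩,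
 zbF0, []⟩
noncomputable def p023_l93 : Lf2 := ⟨nat_lit 3, nat_lit 6, [nat_lit 47, nat_lit 5, nat_lit 5, nat_lit 20], false, nat_lit 0, nat_lit 0, nat_lit 0, nat_lit 0, zbN0,
 nat_lit 0, nat_lit 0, nat_lit 0, nat_lit 0, nat_lit 0, nat_lit 0, nat_lit 0, nat_lit 0, nat_lit 0, nat_lit 0, nat_lit 0, nat_lit 0, nat_lit 0, nat_lit 0, nat_lit 0, nat_lit 0, nat_lit 0, nat_lit 0, [],
 C1.Rw.none, ⟨p023_k16, nat_lit 0, nat_lit 0, nat_lit 109, nat_lit 0, nat_lit 0, [], [], [], nat_lit 0, nat_lit 0, nat_lit 0, nat_lit 0, nat_lit 0, nat_lit 0, [], [nat_lit 6, nat_lit 40, nat_lit 80, nat_lit 80, nat_lit 3, nat_lit 249, nat_lit 40, nat_lit 9]⟩,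
 zbF0, []⟩
noncomputable def p023_l94 : Lf2 := ⟨nat_lit 0, nat_lit 6, [nat_lit 47, nat_lit 5, nat_lit 5, nat_lit 20], false, nat_lit 0, nat_lit 0, nat_lit 0, nat_lit 0, ⟨nat_lit 1000, nat_lit 0, nat_lit 0, nat_lit 0, nat_lit 0, nat_lit 0, nat_lit 0, nat_lit 0, nat_lit 0, nat_lit 0, nat_lit 0, nat_lit 0, nat_lit 0, nat_lit 0, nat_lit 0, nat_lit 0, false, false⟩,
 nat_lit 0, nat_lit 8821, nat_lit 0, nat_lit 0, nat_lit 6641, nat_lit 4045, nat_lit 480, nat_lit 0, nat_lit 0, nat_lit 718, nat_lit 0, nat_lit 0, nat_lit 0, nat_lit 0, nat_lit 0, nat_lit 0, nat_lit 0, nat_lit 0, [],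
 ⟨p023_k16, nat_lit 0, nat_lit 0, nat_lit 661, nat_lit 0, nat_lit 1322501, [nat_lit 2032000001, nat_lit 4688000000, nat_lit 6250000000], [], [nat_lit 32490315068, nat_lit 32525019238, nat_lit 32463625839, nat_lit 32502665062], nat_lit 1271250, nat_lit 1271250, nat_lit 1033601, nat_lit 1100001, nat_lit 0, nat_lit 0, [nat_lit 490000, nat_lit 1100000, nat_lit 1442500], [nat_lit 6, nat_lit 40, nat_lit 80, nat_lit 80, nat_lit 3, nat_lit 249, nat_lit 40, nat_lit 9]⟩, ⟨p023_k16, nat_lit 0, nat_lit 0, nat_lit 108, nat_lit 0, nat_lit 0, [nat_lit 2032000000, nat_lit 4688000000, nat_lit 6250000000], [], [nat_lit 20967713861, nat_lit 21053510158, nat_lit 21075742704, nat_lit 21160546218], nat_lit 0, nat_lit 0, nat_lit 0, nat_lit 0, nat_lit 0, nat_lit 0, [], [nat_lit 6, nat_lit 40, nat_lit 80, nat_lit 80, nat_lit 3, nat_lit 249, nat_lit 40, nat_lit 9]⟩,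
 zbF0, []⟩
noncomputable def p023_l95 : Lf2 := ⟨nat_lit 0, nat_lit 6, [nat_lit 47, nat_lit 5, nat_lit 5, nat_lit 20], false, nat_lit 0, nat_lit 0, nat_lit 0, nat_lit 0, ⟨nat_lit 1000, nat_lit 0, nat_lit 0, nat_lit 0, nat_lit 0, nat_lit 0, nat_lit 0, nat_lit 0, nat_lit 0, nat_lit 0, nat_lit 0, nat_lit 0, nat_lit 0, nat_lit 0, nat_lit 0, nat_lit 0, false, false⟩,
 nat_lit 0, nat_lit 8786, nat_lit 0, nat_lit 0, nat_lit 6640, nat_lit 4065, nat_lit 490, nat_lit 0, nat_lit 0, nat_lit 721, nat_lit 0, nat_lit 0, nat_lit 0, nat_lit 0, nat_lit 0, nat_lit 0, nat_lit 0, nat_lit 0, [],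
 ⟨p023_k17, nat_lit 0, nat_lit 0, nat_lit 664, nat_lit 0, nat_lit 1322239, [nat_lit 2032000001, nat_lit 4688000000, nat_lit 6250000000], [], [nat_lit 32057796490, nat_lit 32092912351, nat_lit 32007446198, nat_lit 32047397843], nat_lit 1271250, nat_lit 1271250, nat_lit 968401, nat_lit 1100001, nat_lit 0, nat_lit 0, [nat_lit 490000, nat_lit 1100000, nat_lit 1442500], [nat_lit 6, nat_lit 40, nat_lit 80, nat_lit 80, nat_lit 3, nat_lit 249, nat_lit 40, nat_lit 9]⟩, ⟨p023_k16, nat_lit 0, nat_lit 0, nat_lit 110, nat_lit 0, nat_lit 0, [nat_lit 2032000000, nat_lit 4688000000, nat_lit 6250000000], [], [nat_lit 20877350908, nat_lit 20964339855, nat_lit 21059287353, nat_lit 21144322251], nat_lit 0, nat_lit 0, nat_lit 0, nat_lit 0, nat_lit 0, nat_lit 0, [], [nat_lit 6, nat_lit 40, nat_lit 80, nat_lit 80, nat_lit 3, nat_lit 249, nat_lit 40, nat_lit 9]⟩,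
 zbF0, [⟨nat_lit 0, nat_lit 82, nat_lit 81, nat_lit 100, nat_lit 692383845⟩]⟩
noncomputable def p023_l96 : Lf2 := ⟨nat_lit 0, nat_lit 7, [nat_lit 80, nat_lit 5, nat_lit 5, nat_lit 20], false, nat_lit 0, nat_lit 0, nat_lit 0, nat_lit 0, ⟨nat_lit 1000, nat_lit 0, nat_lit 0, nat_lit 0, nat_lit 0, nat_lit 0, nat_lit 0, nat_lit 0, nat_lit 0, nat_lit 0, nat_lit 0, nat_lit 0, nat_lit 0, nat_lit 0, nat_lit 0, nat_lit 0, false, false⟩,
 nat_lit 0, nat_lit 11155, nat_lit 0, nat_lit 0, nat_lit 8366, nat_lit 4038, nat_lit 455, nat_lit 0, nat_lit 0, nat_lit 719, nat_lit 0, nat_lit 0, nat_lit 0, nat_lit 4643986014750, nat_lit 0, nat_lit 0, nat_lit 0, nat_lit 0, [],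
 ⟨p023_k19, nat_lit 0, nat_lit 0, nat_lit 647, nat_lit 0, nat_lit 1276193, [nat_lit 2032000001, nat_lit 4688000000, nat_lit 6250000000], [], [nat_lit 24188637000, nat_lit 24246996429, nat_lit 24151980553, nat_lit 24197262739], nat_lit 1271250, nat_lit 1271250, nat_lit 936251, nat_lit 968401, nat_lit 0, nat_lit 0, [nat_lit 490000, nat_lit 1100000, nat_lit 1442500], [nat_lit 6, nat_lit 40, nat_lit 80, nat_lit 80, nat_lit 3, nat_lit 249, nat_lit 40, nat_lit 9]⟩, ⟨p023_k19, nat_lit 0, nat_lit 0, nat_lit 110, nat_lit 0, nat_lit 0, [nat_lit 2032000000, nat_lit 4688000000, nat_lit 6250000000], [], [nat_lit 20810008856, nat_lit 20898623186, nat_lit 20852373604, nat_lit 20944297847], nat_lit 0, nat_lit 0, nat_lit 0, nat_lit 0, nat_lit 0, nat_lit 0, [], [nat_lit 6, nat_lit 40, nat_lit 80, nat_lit 80, nat_lit 3, nat_lit 249, nat_lit 40, nat_lit 9]⟩,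
 zbF0, [⟨nat_lit 0, nat_lit 83, nat_lit 83, nat_lit 100, nat_lit 1382143750⟩]⟩
noncomputable def p023_l97 : Lf2 := ⟨nat_lit 0, nat_lit 7, [nat_lit 80, nat_lit 5, nat_lit 5, nat_lit 20], false, nat_lit 0, nat_lit 0, nat_lit 0, nat_lit 0, ⟨nat_lit 1000, nat_lit 0, nat_lit 0, nat_lit 0, nat_lit 0, nat_lit 0, nat_lit 0, nat_lit 0, nat_lit 0, nat_lit 0, nat_lit 0, nat_lit 0, nat_lit 0, nat_lit 0, nat_lit 0, nat_lit 0, false, false⟩,
 nat_lit 0, nat_lit 0, nat_lit 0, nat_lit 0, nat_lit 0, nat_lit 0, nat_lit 0, nat_lit 0, nat_lit 483, nat_lit 0, nat_lit 0, nat_lit 0, nat_lit 0, nat_lit 400000000000000, nat_lit 0, nat_lit 0, nat_lit 0, nat_lit 0, [],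
 ⟨p023_k19, nat_lit 0, nat_lit 0, nat_lit 0, nat_lit 0, nat_lit 1276193, [nat_lit 2032000001, nat_lit 4688000000, nat_lit 6250000000], [], [nat_lit 13783080000, nat_lit 13814500401, nat_lit 13869398000, nat_lit 13900725300], nat_lit 1271250, nat_lit 1271250, nat_lit 968401, nat_lit 1000851, nat_lit 0, nat_lit 0, [nat_lit 490000, nat_lit 1100000, nat_lit 1442500], [nat_lit 6, nat_lit 40, nat_lit 80, nat_lit 80]⟩, ⟨p023_k19, nat_lit 0, nat_lit 0, nat_lit 109, nat_lit 0, nat_lit 0, [nat_lit 2032000000, nat_lit 4688000000, nat_lit 6250000000], [], [nat_lit 26660600800, nat_lit 26697639300, nat_lit 26755598600, nat_lit 26792514425], nat_lit 0, nat_lit 0, nat_lit 0, nat_lit 0, nat_lit 0, nat_lit 0, [], [nat_lit 6, nat_lit 40, nat_lit 80, nat_lit 80, nat_lit 3, nat_lit 249, nat_lit 40, nat_lit 9]⟩,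
 zbF0, [⟨nat_lit 0, nat_lit 83, nat_lit 83, nat_lit 100, nat_lit 5119050679⟩, ⟨nat_lit 0, nat_lit 83, nat_lit 83, nat_lit 100, nat_lit 14515894905⟩]⟩
noncomputable def p023_l98 : Lf2 := ⟨nat_lit 0, nat_lit 7, [nat_lit 80, nat_lit 5, nat_lit 5, nat_lit 20], false, nat_lit 0, nat_lit 0, nat_lit 0, nat_lit 0, ⟨nat_lit 1000, nat_lit 0, nat_lit 0, nat_lit 0, nat_lit 0, nat_lit 0, nat_lit 0, nat_lit 0, nat_lit 0, nat_lit 0, nat_lit 0, nat_lit 0, nat_lit 0, nat_lit 0, nat_lit 0, nat_lit 0, false, false⟩,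
 nat_lit 0, nat_lit 0, nat_lit 0, nat_lit 0, nat_lit 0, nat_lit 4021, nat_lit 137, nat_lit 0, nat_lit 466, nat_lit 254, nat_lit 0, nat_lit 0, nat_lit 0, nat_lit 0, nat_lit 0, nat_lit 0, nat_lit 0, nat_lit 0, [],
 ⟨p023_k19, nat_lit 0, nat_lit 0, nat_lit 0, nat_lit 0, nat_lit 1276193, [nat_lit 2032000001, nat_lit 4688000000, nat_lit 6250000000], [], [nat_lit 14266152800, nat_lit 14292989380, nat_lit 14345243600, nat_lit 14373704820], nat_lit 1271250, nat_lit 1271250, nat_lit 968401, nat_lit 1000851, nat_lit 0, nat_lit 0, [nat_lit 490000, nat_lit 1100000, nat_lit 1442500], [nat_lit 6, nat_lit 40, nat_lit 80, nat_lit 80]⟩, ⟨p023_k19, nat_lit 0, nat_lit 0, nat_lit 109, nat_lit 0, nat_lit 0, [nat_lit 2032000000, nat_lit 4688000000, nat_lit 6250000000], [], [nat_lit 22714189288, nat_lit 22794807386, nat_lit 22762664922, nat_lit 22842829517], nat_lit 0, nat_lit 0, nat_lit 0, nat_lit 0, nat_lit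 0, nat_lit 0, [], [nat_lit 6, nat_lit 40, nat_lit 80, nat_lit 80, nat_lit 3, nat_lit 249, nat_lit 40, nat_lit 9]⟩,
 zbF0, []⟩
noncomputable def p023_l99 : Lf2 := ⟨nat_lit 0, nat_lit 7, [nat_lit 80, nat_lit 5, nat_lit 5, nat_lit 20], false, nat_lit 0, nat_lit 0, nat_lit 0, nat_lit 0, ⟨nat_lit 1000, nat_lit 0, nat_lit 0, nat_lit 0, nat_lit 0, nat_lit 0, nat_lit 0, nat_lit 0, nat_lit 0, nat_lit 0, nat_lit 0, nat_lit 0, nat_lit 0, nat_lit 0, nat_lit 0, nat_lit 0, false, false⟩,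
 nat_lit 0, nat_lit 0, nat_lit 0, nat_lit 0, nat_lit 0, nat_lit 4038, nat_lit 127, nat_lit 0, nat_lit 449, nat_lit 719, nat_lit 0, nat_lit 0, nat_lit 0, nat_lit 5171017935204, nat_lit 0, nat_lit 0, nat_lit 0, nat_lit 0, [],
 ⟨p023_k19, nat_lit 0, nat_lit 0, nat_lit 0, nat_lit 0, nat_lit 1276193, [nat_lit 2032000001, nat_lit 4688000000, nat_lit 6250000000], [], [nat_lit 15863160800, nat_lit 15887108780, nat_lit 15934683600, nat_lit 15958574785], nat_lit 1271250, nat_lit 1271250, nat_lit 968401, nat_lit 1000851, nat_lit 0, nat_lit 0, [nat_lit 490000, nat_lit 1100000, nat_lit 1442500], [nat_lit 6, nat_lit 40, nat_lit 80, nat_lit 80]⟩, ⟨p023_k19, nat_lit 0, nat_lit 0, nat_lit 109, nat_lit 0, nat_lit 0, [nat_lit 2032000000, nat_lit 4688000000, nat_lit 6250000000], [], [nat_lit 20852373604, nat_lit 20944297847, nat_lit 20906958957, nat_lit 20993168767], nat_lit 0, nat_lit 0, nat_lit 0, nat_lit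 0, nat_lit 0, nat_lit 0, [], [nat_lit 6, nat_lit 40, nat_lit 80, nat_lit 80, nat_lit 3, nat_lit 249, nat_lit 40, nat_lit 9]⟩,
 zbF0, []⟩
noncomputable def p023_l100 : Lf2 := ⟨nat_lit 0, nat_lit 7, [nat_lit 80, nat_lit 5, nat_lit 5, nat_lit 20], false, nat_lit 0, nat_lit 0, nat_lit 0, nat_lit 0, ⟨nat_lit 1000, nat_lit 0, nat_lit 0, nat_lit 0, nat_lit 0, nat_lit 0, nat_lit 0, nat_lit 0, nat_lit 0, nat_lit 0, nat_lit 0, nat_lit 0, nat_lit 0, nat_lit 0, nat_lit 0, nat_lit 0, false, false⟩,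
 nat_lit 0, nat_lit 8730, nat_lit 0, nat_lit 0, nat_lit 6547, nat_lit 4030, nat_lit 479, nat_lit 0, nat_lit 0, nat_lit 1361, nat_lit 0, nat_lit 0, nat_lit 0, nat_lit 0, nat_lit 0, nat_lit 0, nat_lit 0, nat_lit 0, [],
 ⟨p023_k19, nat_lit 0, nat_lit 0, nat_lit 645, nat_lit 0, nat_lit 1276193, [nat_lit 2032000001, nat_lit 4688000000, nat_lit 6250000000], [], [nat_lit 33291822084, nat_lit 33329777905, nat_lit 33277772168, nat_lit 33315505509], nat_lit 1271250, nat_lit 1271250, nat_lit 968401, nat_lit 1000851, nat_lit 0, nat_lit 0, [nat_lit 490000, nat_lit 1100000, nat_lit 1442500], [nat_lit 6, nat_lit 40, nat_lit 80, nat_lit 80, nat_lit 3, nat_lit 249, nat_lit 40, nat_lit 9]⟩, ⟨p023_k20, nat_lit 0, nat_lit 0, nat_lit 0, nat_lit 0, nat_lit 0, [nat_lit 2032000000, nat_lit 3282000000, nat_lit 4688000000, nat_lit 6250000000], [], [nat_lit 18677347713, nat_lit 18762986899, nat_lit 18723542428,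 nat_lit 18803803824], nat_lit 0, nat_lit 0, nat_lit 0, nat_lit 0, nat_lit 0, nat_lit 0, [], [nat_lit 127, nat_lit 40, nat_lit 80, nat_lit 80]⟩,
 zbF0, [⟨nat_lit 0, nat_lit 83, nat_lit 83, nat_lit 100, nat_lit 689757909⟩]⟩
noncomputable def p023_l101 : Lf2 := ⟨nat_lit 3, nat_lit 7, [nat_lit 80, nat_lit 5, nat_lit 5, nat_lit 20], false, nat_lit 0, nat_lit 0, nat_lit 0, nat_lit 0, zbN0,
 nat_lit 0, nat_lit 0, nat_lit 0, nat_lit 0, nat_lit 0, nat_lit 0, nat_lit 0, nat_lit 0, nat_lit 0, nat_lit 0, nat_lit 0, nat_lit 0, nat_lit 0, nat_lit 0, nat_lit 0, nat_lit 0, nat_lit 0, nat_lit 0, [],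
 C1.Rw.none, ⟨p023_k19, nat_lit 0, nat_lit 0, nat_lit 0, nat_lit 0, nat_lit 0, [], [], [], nat_lit 0, nat_lit 0, nat_lit 0, nat_lit 0, nat_lit 0, nat_lit 0, [], [nat_lit 6, nat_lit 40, nat_lit 80, nat_lit 80]⟩,
 zbF0, []⟩
noncomputable def p023_l102 : Lf2 := ⟨nat_lit 3, nat_lit 7, [nat_lit 80, nat_lit 5, nat_lit 5, nat_lit 20], false, nat_lit 0, nat_lit 0, nat_lit 0, nat_lit 0, zbN0,
 nat_lit 0, nat_lit 0, nat_lit 0, nat_lit 0, nat_lit 0, nat_lit 0, nat_lit 0, nat_lit 0, nat_lit 0, nat_lit 0, nat_lit 0, nat_lit 0, nat_lit 0, nat_lit 0, nat_lit 0, nat_lit 0, nat_lit 0, nat_lit 0, [],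
 C1.Rw.none, ⟨p023_k19, nat_lit 0, nat_lit 0, nat_lit 109, nat_lit 0, nat_lit 0, [], [], [], nat_lit 0, nat_lit 0, nat_lit 0, nat_lit 0, nat_lit 0, nat_lit 0, [], [nat_lit 6, nat_lit 40, nat_lit 80, nat_lit 80, nat_lit 3, nat_lit 249, nat_lit 40, nat_lit 9]⟩,
 zbF0, []⟩
noncomputable def p023_l103 : Lf2 := ⟨nat_lit 0, nat_lit 7, [nat_lit 80, nat_lit 5, nat_lit 5, nat_lit 20], false, nat_lit 0, nat_lit 0, nat_lit 0, nat_lit 0, ⟨nat_lit 1000, nat_lit 0, nat_lit 0, nat_lit 0, nat_lit 0, nat_lit 0, nat_lit 0, nat_lit 0, nat_lit 0, nat_lit 0, nat_lit 0, nat_lit 0, nat_lit 0, nat_lit 0, nat_lit 0, nat_lit 0, false, false⟩,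
 nat_lit 0, nat_lit 8730, nat_lit 0, nat_lit 0, nat_lit 6547, nat_lit 4041, nat_lit 479, nat_lit 0, nat_lit 0, nat_lit 716, nat_lit 0, nat_lit 0, nat_lit 0, nat_lit 0, nat_lit 0, nat_lit 0, nat_lit 0, nat_lit 0, [],
 ⟨p023_k19, nat_lit 0, nat_lit 0, nat_lit 644, nat_lit 0, nat_lit 1276193, [nat_lit 2032000001, nat_lit 4688000000, nat_lit 6250000000], [], [nat_lit 33277772168, nat_lit 33315505509, nat_lit 33266340711, nat_lit 33304450137], nat_lit 1271250, nat_lit 1271250, nat_lit 1000851, nat_lit 1033601, nat_lit 0, nat_lit 0, [nat_lit 490000, nat_lit 1100000, nat_lit 1442500], [nat_lit 6, nat_lit 40, nat_lit 80, nat_lit 80, nat_lit 3, nat_lit 249, nat_lit 40, nat_lit 9]⟩, ⟨p023_k19, nat_lit 0, nat_lit 0, nat_lit 108, nat_lit 0, nat_lit 0, [nat_lit 2032000000, nat_lit 4688000000, nat_lit 6250000000], [], [nat_lit 20904598190, nat_lit 20990843520, nat_lit 20959151598, nat_lit 21044900896],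 nat_lit 0, nat_lit 0, nat_lit 0, nat_lit 0, nat_lit 0, nat_lit 0, [], [nat_lit 6, nat_lit 40, nat_lit 80, nat_lit 80, nat_lit 3, nat_lit 249, nat_lit 40, nat_lit 9]⟩,
 zbF0, []⟩
noncomputable def p023_l104 : Lf2 := ⟨nat_lit 0, nat_lit 7, [nat_lit 80, nat_lit 5, nat_lit 5, nat_lit 20], false, nat_lit 0, nat_lit 0, nat_lit 0, nat_lit 0, ⟨nat_lit 1000, nat_lit 0, nat_lit 0, nat_lit 0, nat_lit 0, nat_lit 0, nat_lit 0, nat_lit 0, nat_lit 0, nat_lit 0, nat_lit 0, nat_lit 0, nat_lit 0, nat_lit 0, nat_lit 0, nat_lit 0, false, false⟩,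
 nat_lit 0, nat_lit 8727, nat_lit 0, nat_lit 0, nat_lit 6545, nat_lit 4051, nat_lit 478, nat_lit 0, nat_lit 0, nat_lit 714, nat_lit 0, nat_lit 0, nat_lit 0, nat_lit 0, nat_lit 0, nat_lit 0, nat_lit 0, nat_lit 0, [],
 ⟨p023_k19, nat_lit 0, nat_lit 0, nat_lit 643, nat_lit 0, nat_lit 1276193, [nat_lit 2032000001, nat_lit 4688000000, nat_lit 6250000000], [], [nat_lit 33277926821, nat_lit 33315432948, nat_lit 33256297601, nat_lit 33295452838], nat_lit 1271250, nat_lit 1271250, nat_lit 1033601, nat_lit 1100001, nat_lit 0, nat_lit 0, [nat_lit 490000, nat_lit 1100000, nat_lit 1442500], [nat_lit 6, nat_lit 40, nat_lit 80, nat_lit 80, nat_lit 3, nat_lit 249, nat_lit 40, nat_lit 9]⟩, ⟨p023_k19, nat_lit 0, nat_lit 0, nat_lit 107, nat_lit 0, nat_lit 0, [nat_lit 2032000000, nat_lit 4688000000, nat_lit 6250000000], [], [nat_lit 20952821565, nat_lit 21037741543, nat_lit 21060069732, nat_lit 21144942662],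 nat_lit 0, nat_lit 0, nat_lit 0, nat_lit 0, nat_lit 0, nat_lit 0, [], [nat_lit 6, nat_lit 40, nat_lit 80, nat_lit 80, nat_lit 3, nat_lit 249, nat_lit 40, nat_lit 9]⟩,
 zbF0, []⟩
noncomputable def p023_l105 : Lf2 := ⟨nat_lit 0, nat_lit 7, [nat_lit 80, nat_lit 5, nat_lit 5, nat_lit 20], false, nat_lit 0, nat_lit 0, nat_lit 0, nat_lit 0, ⟨nat_lit 1000, nat_lit 0, nat_lit 0, nat_lit 0, nat_lit 0, nat_lit 0, nat_lit 0, nat_lit 0, nat_lit 0, nat_lit 0, nat_lit 0, nat_lit 0, nat_lit 0, nat_lit 0, nat_lit 0, nat_lit 0, false, false⟩,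
 nat_lit 0, nat_lit 8692, nat_lit 0, nat_lit 0, nat_lit 6544, nat_lit 4072, nat_lit 483, nat_lit 0, nat_lit 0, nat_lit 717, nat_lit 0, nat_lit 0, nat_lit 0, nat_lit 0, nat_lit 0, nat_lit 0, nat_lit 0, nat_lit 0, [],
 ⟨p023_k21, nat_lit 0, nat_lit 0, nat_lit 646, nat_lit 0, nat_lit 1276210, [nat_lit 2032000001, nat_lit 4688000000, nat_lit 6250000000], [], [nat_lit 32993921678, nat_lit 33031870238, nat_lit 32951852234, nat_lit 32991550956], nat_lit 1271250, nat_lit 1271250, nat_lit 968401, nat_lit 1100001, nat_lit 0, nat_lit 0, [nat_lit 490000, nat_lit 1100000, nat_lit 1442500], [nat_lit 6, nat_lit 40, nat_lit 80, nat_lit 80, nat_lit 3, nat_lit 249, nat_lit 40, nat_lit 9]⟩, ⟨p023_k19, nat_lit 0, nat_lit 0, nat_lit 109, nat_lit 0, nat_lit 0, [nat_lit 2032000000, nat_lit 4688000000, nat_lit 6250000000], [], [nat_lit 20862093172, nat_lit 20948221834, nat_lit 21042873504, nat_lit 21127989387],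 nat_lit 0, nat_lit 0, nat_lit 0, nat_lit 0, nat_lit 0, nat_lit 0, [], [nat_lit 6, nat_lit 40, nat_lit 80, nat_lit 80, nat_lit 3, nat_lit 249, nat_lit 40, nat_lit 9]⟩,
 zbF0, [⟨nat_lit 0, nat_lit 83, nat_lit 82, nat_lit 100, nat_lit 674171348⟩]⟩
noncomputable def p023_l106 : Lf2 := ⟨nat_lit 0, nat_lit 7, [nat_lit 80, nat_lit 5, nat_lit 5, nat_lit 20], false, nat_lit 0, nat_lit 0, nat_lit 0, nat_lit 0, ⟨nat_lit 1000, nat_lit 0, nat_lit 0, nat_lit 0, nat_lit 0, nat_lit 0, nat_lit 0, nat_lit 0, nat_lit 0, nat_lit 0, nat_lit 0, nat_lit 0, nat_lit 0, nat_lit 0, nat_lit 0, nat_lit 0, false, false⟩,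
 nat_lit 0, nat_lit 8650, nat_lit 0, nat_lit 0, nat_lit 6538, nat_lit 4072, nat_lit 491, nat_lit 0, nat_lit 0, nat_lit 717, nat_lit 0, nat_lit 0, nat_lit 0, nat_lit 0, nat_lit 0, nat_lit 0, nat_lit 0, nat_lit 0, [],
 ⟨p023_k22, nat_lit 0, nat_lit 0, nat_lit 646, nat_lit 0, nat_lit 1276214, [nat_lit 2032000001, nat_lit 4688000000, nat_lit 6250000000], [], [nat_lit 32564443267, nat_lit 32602377307, nat_lit 32522081527, nat_lit 32561764442], nat_lit 1271250, nat_lit 1271250, nat_lit 968401, nat_lit 1100001, nat_lit 0, nat_lit 0, [nat_lit 490000, nat_lit 1100000, nat_lit 1442500], [nat_lit 6, nat_lit 40, nat_lit 80, nat_lit 80, nat_lit 3, nat_lit 249, nat_lit 40, nat_lit 9]⟩, ⟨p023_k19, nat_lit 0, nat_lit 0, nat_lit 109, nat_lit 0, nat_lit 0, [nat_lit 2032000000, nat_lit 4688000000, nat_lit 6250000000], [], [nat_lit 20862093172, nat_lit 20948221834, nat_lit 21042873504, nat_lit 21127989387],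 nat_lit 0, nat_lit 0, nat_lit 0, nat_lit 0, nat_lit 0, nat_lit 0, [], [nat_lit 6, nat_lit 40, nat_lit 80, nat_lit 80, nat_lit 3, nat_lit 249, nat_lit 40, nat_lit 9]⟩,
 zbF0, [⟨nat_lit 0, nat_lit 82, nat_lit 82, nat_lit 100, nat_lit 681757479⟩]⟩
noncomputable def p023_l107 : Lf2 := ⟨nat_lit 0, nat_lit 7, [nat_lit 80, nat_lit 5, nat_lit 5, nat_lit 20], false, nat_lit 0, nat_lit 0, nat_lit 0, nat_lit 0, ⟨nat_lit 1000, nat_lit 0, nat_lit 0, nat_lit 0, nat_lit 0, nat_lit 0, nat_lit 0, nat_lit 0, nat_lit 0, nat_lit 0, nat_lit 0, nat_lit 0, nat_lit 0, nat_lit 0, nat_lit 0, nat_lit 0, false, false⟩,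
 nat_lit 0, nat_lit 8670, nat_lit 0, nat_lit 0, nat_lit 6527, nat_lit 4065, nat_lit 482, nat_lit 0, nat_lit 0, nat_lit 721, nat_lit 0, nat_lit 0, nat_lit 0, nat_lit 0, nat_lit 0, nat_lit 0, nat_lit 0, nat_lit 0, [],
 ⟨p023_k21, nat_lit 0, nat_lit 0, nat_lit 652, nat_lit 0, nat_lit 1291660, [nat_lit 2032000001, nat_lit 4688000000, nat_lit 6250000000], [], [nat_lit 33087155867, nat_lit 33162462723, nat_lit 33044953223, nat_lit 33118498847], nat_lit 1271250, nat_lit 1271250, nat_lit 968401, nat_lit 1100001, nat_lit 0, nat_lit 0, [nat_lit 490000, nat_lit 1100000, nat_lit 1442500], [nat_lit 6, nat_lit 40, nat_lit 80, nat_lit 80, nat_lit 3, nat_lit 249, nat_lit 40, nat_lit 9]⟩, ⟨p023_k21, nat_lit 0, nat_lit 0, nat_lit 110, nat_lit 0, nat_lit 0, [nat_lit 2032000000, nat_lit 4688000000, nat_lit 6250000000], [], [nat_lit 20877350908, nat_lit 20964339855, nat_lit 21059287353, nat_lit 21144322251],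 nat_lit 0, nat_lit 0, nat_lit 0, nat_lit 0, nat_lit 0, nat_lit 0, [], [nat_lit 6, nat_lit 40, nat_lit 80, nat_lit 80, nat_lit 3, nat_lit 249, nat_lit 40, nat_lit 9]⟩,
 zbF0, [⟨nat_lit 0, nat_lit 82, nat_lit 81, nat_lit 100, nat_lit 692075056⟩]⟩
noncomputable def p023_l108 : Lf2 := ⟨nat_lit 0, nat_lit 8, [nat_lit 50, nat_lit 5, nat_lit 5, nat_lit 20], false, nat_lit 0, nat_lit 0, nat_lit 0, nat_lit 0, ⟨nat_lit 1000, nat_lit 0, nat_lit 0, nat_lit 0, nat_lit 0, nat_lit 0, nat_lit 0, nat_lit 0, nat_lit 0, nat_lit 0, nat_lit 0, nat_lit 0, nat_lit 0, nat_lit 0, nat_lit 0, nat_lit 0, false, false⟩,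
 nat_lit 0, nat_lit 11102, nat_lit 0, nat_lit 0, nat_lit 8326, nat_lit 4065, nat_lit 448, nat_lit 0, nat_lit 0, nat_lit 710, nat_lit 0, nat_lit 0, nat_lit 0, nat_lit 0, nat_lit 0, nat_lit 0, nat_lit 0, nat_lit 0, [],
 ⟨p023_k23, nat_lit 0, nat_lit 0, nat_lit 642, nat_lit 0, nat_lit 1262404, [nat_lit 2032000001, nat_lit 4688000000, nat_lit 6250000000], [], [nat_lit 24419237000, nat_lit 24546829002, nat_lit 24238440360, nat_lit 24363436883], nat_lit 1271250, nat_lit 1271250, nat_lit 936251, nat_lit 1100001, nat_lit 0, nat_lit 0, [nat_lit 490000, nat_lit 1100000, nat_lit 1442500], [nat_lit 6, nat_lit 40, nat_lit 80, nat_lit 80, nat_lit 3, nat_lit 249, nat_lit 40, nat_lit 9]⟩, ⟨p023_k23, nat_lit 0, nat_lit 0, nat_lit 111, nat_lit 0, nat_lit 0, [nat_lit 2032000000, nat_lit 4688000000, nat_lit 6250000000], [], [nat_lit 20849135780, nat_lit 21022196327, nat_lit 21050351000, nat_lit 21218675376],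 nat_lit 0, nat_lit 0, nat_lit 0, nat_lit 0, nat_lit 0, nat_lit 0, [], [nat_lit 6, nat_lit 40, nat_lit 80, nat_lit 80, nat_lit 3, nat_lit 249, nat_lit 40, nat_lit 9]⟩,
 zbF0, [⟨nat_lit 0, nat_lit 82, nat_lit 81, nat_lit 100, nat_lit 753253769⟩]⟩
noncomputable def p023_l109 : Lf2 := ⟨nat_lit 0, nat_lit 6, [nat_lit 47, nat_lit 5, nat_lit 5, nat_lit 20], false, nat_lit 0, nat_lit 0, nat_lit 0, nat_lit 0, ⟨nat_lit 1000, nat_lit 0, nat_lit 0, nat_lit 0, nat_lit 0, nat_lit 0, nat_lit 0, nat_lit 0, nat_lit 0, nat_lit 0, nat_lit 0, nat_lit 0, nat_lit 0, nat_lit 0, nat_lit 0, nat_lit 0, false, false⟩,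
 nat_lit 0, nat_lit 8840, nat_lit 0, nat_lit 0, nat_lit 6629, nat_lit 4065, nat_lit 473, nat_lit 0, nat_lit 0, nat_lit 710, nat_lit 0, nat_lit 0, nat_lit 0, nat_lit 0, nat_lit 0, nat_lit 0, nat_lit 0, nat_lit 0, [],
 ⟨p023_k14, nat_lit 0, nat_lit 0, nat_lit 664, nat_lit 0, nat_lit 1336161, [nat_lit 2032000001, nat_lit 4688000000, nat_lit 6250000000], [], [nat_lit 32847918742, nat_lit 32950963870, nat_lit 33289385768, nat_lit 33400959092], nat_lit 1271250, nat_lit 1271250, nat_lit 1100001, nat_lit 1442500, nat_lit 0, nat_lit 0, [nat_lit 490000, nat_lit 1100000, nat_lit 1442500], [nat_lit 6, nat_lit 40, nat_lit 80, nat_lit 80, nat_lit 3, nat_lit 260, nat_lit 50, nat_lit 9]⟩, ⟨p023_k14, nat_lit 0, nat_lit 0, nat_lit 110, nat_lit 0, nat_lit 0, [nat_lit 2032000000, nat_lit 4688000000, nat_lit 6250000000], [], [nat_lit 21050351000, nat_lit 21218675376, nat_lit 22537742650, nat_lit 22705582848],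 nat_lit 0, nat_lit 0, nat_lit 0, nat_lit 0, nat_lit 0, nat_lit 0, [], [nat_lit 6, nat_lit 40, nat_lit 80, nat_lit 80, nat_lit 3, nat_lit 260, nat_lit 50, nat_lit 9]⟩,
 zbF0, []⟩
noncomputable def p023_l110 : Lf2 := ⟨nat_lit 0, nat_lit 8, [nat_lit 50, nat_lit 5, nat_lit 5, nat_lit 20], false, nat_lit 0, nat_lit 0, nat_lit 0, nat_lit 0, ⟨nat_lit 1000, nat_lit 0, nat_lit 0, nat_lit 0, nat_lit 0, nat_lit 0, nat_lit 0, nat_lit 0, nat_lit 0, nat_lit 0, nat_lit 0, nat_lit 0, nat_lit 0, nat_lit 0, nat_lit 0, nat_lit 0, false, false⟩,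
 nat_lit 0, nat_lit 8704, nat_lit 0, nat_lit 0, nat_lit 6528, nat_lit 4065, nat_lit 475, nat_lit 0, nat_lit 0, nat_lit 710, nat_lit 0, nat_lit 0, nat_lit 0, nat_lit 0, nat_lit 0, nat_lit 0, nat_lit 0, nat_lit 0, [],
 ⟨p023_k23, nat_lit 0, nat_lit 0, nat_lit 653, nat_lit 0, nat_lit 1308552, [nat_lit 2032000001, nat_lit 4688000000, nat_lit 6250000000], [], [nat_lit 33350578241, nat_lit 33460903606, nat_lit 33805577376, nat_lit 33916452255], nat_lit 1271250, nat_lit 1271250, nat_lit 1100001, nat_lit 1442500, nat_lit 0, nat_lit 0, [nat_lit 490000, nat_lit 1100000, nat_lit 1442500], [nat_lit 6, nat_lit 40, nat_lit 80, nat_lit 80, nat_lit 3, nat_lit 260, nat_lit 50, nat_lit 9]⟩, ⟨p023_k23, nat_lit 0, nat_lit 0, nat_lit 110, nat_lit 0, nat_lit 0, [nat_lit 2032000000, nat_lit 4688000000, nat_lit 6250000000], [], [nat_lit 21050351000, nat_lit 21218675376, nat_lit 22537742650, nat_lit 22705582848],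 nat_lit 0, nat_lit 0, nat_lit 0, nat_lit 0, nat_lit 0, nat_lit 0, [], [nat_lit 6, nat_lit 40, nat_lit 80, nat_lit 80, nat_lit 3, nat_lit 260, nat_lit 50, nat_lit 9]⟩,
 zbF0, []⟩
noncomputable def p023_l111 : Lf2 := ⟨nat_lit 0, nat_lit 8, [nat_lit 50, nat_lit 5, nat_lit 5, nat_lit 20], false, nat_lit 0, nat_lit 0, nat_lit 0, nat_lit 0, ⟨nat_lit 1000, nat_lit 0, nat_lit 0, nat_lit 0, nat_lit 0, nat_lit 0, nat_lit 0, nat_lit 0, nat_lit 0, nat_lit 0, nat_lit 0, nat_lit 0, nat_lit 0, nat_lit 0, nat_lit 0, nat_lit 0, false, false⟩,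
 nat_lit 0, nat_lit 8711, nat_lit 0, nat_lit 0, nat_lit 6533, nat_lit 4026, nat_lit 459, nat_lit 0, nat_lit 0, nat_lit 682, nat_lit 0, nat_lit 0, nat_lit 0, nat_lit 0, nat_lit 0, nat_lit 0, nat_lit 0, nat_lit 0, [],
 ⟨p023_k23, nat_lit 0, nat_lit 0, nat_lit 663, nat_lit 0, nat_lit 1354767, [nat_lit 2032000001, nat_lit 4688000000, nat_lit 6250000000], [], [nat_lit 33795715028, nat_lit 33892077303, nat_lit 34243483320, nat_lit 34346293005], nat_lit 1271250, nat_lit 1271250, nat_lit 1271250, nat_lit 1271250, nat_lit 0, nat_lit 0, [nat_lit 490000, nat_lit 1100000, nat_lit 1442500], [nat_lit 6, nat_lit 40, nat_lit 80, nat_lit 80, nat_lit 3, nat_lit 237, nat_lit 0, nat_lit 8]⟩, ⟨p023_k23, nat_lit 0, nat_lit 0, nat_lit 114, nat_lit 0, nat_lit 0, [nat_lit 2032000000, nat_lit 4688000000, nat_lit 6250000000], [], [nat_lit 22546590720, nat_lit 22701796430, nat_lit 24031559080, nat_lit 24185777144],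 nat_lit 0, nat_lit 0, nat_lit 0, nat_lit 0, nat_lit 0, nat_lit 0, [], [nat_lit 6, nat_lit 40, nat_lit 80, nat_lit 80, nat_lit 3, nat_lit 203, nat_lit 0, nat_lit 7]⟩,
 zbF0, []⟩
noncomputable def p023_l112 : Lf2 := ⟨nat_lit 0, nat_lit 6, [nat_lit 47, nat_lit 5, nat_lit 5, nat_lit 20], false, nat_lit 0, nat_lit 0, nat_lit 0, nat_lit 0, ⟨nat_lit 1000, nat_lit 0, nat_lit 0, nat_lit 0, nat_lit 0, nat_lit 0, nat_lit 0, nat_lit 0, nat_lit 0, nat_lit 0, nat_lit 0, nat_lit 0, nat_lit 0, nat_lit 0, nat_lit 0, nat_lit 0, false, false⟩,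
 nat_lit 0, nat_lit 8782, nat_lit 0, nat_lit 0, nat_lit 6638, nat_lit 4028, nat_lit 489, nat_lit 0, nat_lit 0, nat_lit 730, nat_lit 0, nat_lit 0, nat_lit 0, nat_lit 0, nat_lit 0, nat_lit 0, nat_lit 0, nat_lit 0, [],
 ⟨p023_k17, nat_lit 0, nat_lit 0, nat_lit 666, nat_lit 0, nat_lit 1331038, [nat_lit 2032000001, nat_lit 4688000000, nat_lit 6250000000], [], [nat_lit 32057919654, nat_lit 32092824487, nat_lit 32926219061, nat_lit 32960696394], nat_lit 1271250, nat_lit 1271250, nat_lit 1000851, nat_lit 1778250, nat_lit 0, nat_lit 0, [nat_lit 490000, nat_lit 1100000, nat_lit 1442500], [nat_lit 6, nat_lit 40, nat_lit 80, nat_lit 80, nat_lit 3, nat_lit 272, nat_lit 60, nat_lit 10]⟩, ⟨p023_k17, nat_lit 0, nat_lit 0, nat_lit 115, nat_lit 0, nat_lit 0, [nat_lit 2032000000, nat_lit 4688000000, nat_lit 6250000000], [], [nat_lit 20907127050, nat_lit 20992883672, nat_lit 24005943882, nat_lit 24083073079],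 nat_lit 0, nat_lit 0, nat_lit 0, nat_lit 0, nat_lit 0, nat_lit 0, [], [nat_lit 6, nat_lit 40, nat_lit 80, nat_lit 80, nat_lit 3, nat_lit 272, nat_lit 60, nat_lit 10]⟩,
 zbF0, [⟨nat_lit 0, nat_lit 81, nat_lit 81, nat_lit 100, nat_lit 398560011⟩]⟩
noncomputable def p023_l113 : Lf2 := ⟨nat_lit 0, nat_lit 8, [nat_lit 50, nat_lit 5, nat_lit 5, nat_lit 20], false, nat_lit 0, nat_lit 0, nat_lit 0, nat_lit 0, ⟨nat_lit 1000, nat_lit 0, nat_lit 0, nat_lit 0, nat_lit 0, nat_lit 0, nat_lit 0, nat_lit 0, nat_lit 0, nat_lit 0, nat_lit 0, nat_lit 0, nat_lit 0, nat_lit 0, nat_lit 0, nat_lit 0, false, false⟩,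
 nat_lit 0, nat_lit 8646, nat_lit 0, nat_lit 0, nat_lit 6535, nat_lit 4028, nat_lit 490, nat_lit 0, nat_lit 0, nat_lit 730, nat_lit 0, nat_lit 0, nat_lit 0, nat_lit 0, nat_lit 0, nat_lit 0, nat_lit 0, nat_lit 0, [],
 ⟨p023_k24, nat_lit 0, nat_lit 0, nat_lit 655, nat_lit 0, nat_lit 1303652, [nat_lit 2032000001, nat_lit 4688000000, nat_lit 6250000000], [], [nat_lit 32571156202, nat_lit 32608651798, nat_lit 33454941843, nat_lit 33489215688], nat_lit 1271250, nat_lit 1271250, nat_lit 1000851, nat_lit 1778250, nat_lit 0, nat_lit 0, [nat_lit 490000, nat_lit 1100000, nat_lit 1442500], [nat_lit 6, nat_lit 40, nat_lit 80, nat_lit 80, nat_lit 3, nat_lit 272, nat_lit 60, nat_lit 10]⟩, ⟨p023_k24, nat_lit 0, nat_lit 0, nat_lit 115, nat_lit 0, nat_lit 0, [nat_lit 2032000000, nat_lit 4688000000, nat_lit 6250000000], [], [nat_lit 20907127050, nat_lit 20992883672, nat_lit 24005943882, nat_lit 24083073079],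 nat_lit 0, nat_lit 0, nat_lit 0, nat_lit 0, nat_lit 0, nat_lit 0, [], [nat_lit 6, nat_lit 40, nat_lit 80, nat_lit 80, nat_lit 3, nat_lit 272, nat_lit 60, nat_lit 10]⟩,
 zbF0, [⟨nat_lit 0, nat_lit 81, nat_lit 81, nat_lit 100, nat_lit 397502814⟩]⟩
noncomputable def p023_l114 : Lf2 := ⟨nat_lit 0, nat_lit 8, [nat_lit 50, nat_lit 5, nat_lit 5, nat_lit 20], false, nat_lit 0, nat_lit 0, nat_lit 0, nat_lit 0, ⟨nat_lit 1000, nat_lit 0, nat_lit 0, nat_lit 0, nat_lit 0, nat_lit 0, nat_lit 0, nat_lit 0, nat_lit 0, nat_lit 0, nat_lit 0, nat_lit 0, nat_lit 0, nat_lit 0, nat_lit 0, nat_lit 0, false, false⟩,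
 nat_lit 0, nat_lit 8736, nat_lit 0, nat_lit 0, nat_lit 6628, nat_lit 4018, nat_lit 1937, nat_lit 0, nat_lit 0, nat_lit 714, nat_lit 0, nat_lit 0, nat_lit 0, nat_lit 0, nat_lit 0, nat_lit 0, nat_lit 0, nat_lit 0, [],
 ⟨p023_k25, nat_lit 0, nat_lit 0, nat_lit 678, nat_lit 0, nat_lit 1355783, [nat_lit 2032000001, nat_lit 4688000000, nat_lit 6250000000], [], [nat_lit 28265484148, nat_lit 28335665416, nat_lit 29111579851, nat_lit 29180495004], nat_lit 1271250, nat_lit 1271250, nat_lit 968401, nat_lit 1776000, nat_lit 0, nat_lit 0, [nat_lit 490000, nat_lit 1100000, nat_lit 1442500], [nat_lit 6, nat_lit 40, nat_lit 80, nat_lit 80, nat_lit 3, nat_lit 272, nat_lit 60, nat_lit 10]⟩, ⟨p023_k23, nat_lit 0, nat_lit 0, nat_lit 115, nat_lit 0, nat_lit 0, [nat_lit 2032000000, nat_lit 4688000000, nat_lit 6250000000], [], [nat_lit 20876375618, nat_lit 21127300003, nat_lit 24030178440, nat_lit 24261263569],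 nat_lit 0, nat_lit 0, nat_lit 0, nat_lit 0, nat_lit 0, nat_lit 0, [], [nat_lit 6, nat_lit 40, nat_lit 80, nat_lit 80, nat_lit 3, nat_lit 272, nat_lit 60, nat_lit 10]⟩,
 zbF0, [⟨nat_lit 0, nat_lit 81, nat_lit 80, nat_lit 100, nat_lit 415754596⟩]⟩
noncomputable def b_N_800_800_0_6 : St := ⟨false, nat_lit 1, nat_lit 0, nat_lit 1, nat_lit 40, nat_lit 320, nat_lit 325, nat_lit 320, nat_lit 323, nat_lit 140, nat_lit 240, nat_lit 0, nat_lit 0, nat_lit 0, nat_lit 0, nat_lit 0, nat_lit 0, nat_lit 20, nat_lit 32, nat_lit 0, nat_lit 0, nat_lit 0, nat_lit 0⟩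
theorem d_N_800_800_0_6 (h : EB TB.env) : Dead b_N_800_800_0_6 := chkB_sound0 h (T :=
(.spl (nat_lit 0) (nat_lit 323)
(.spl (nat_lit 1) (nat_lit 322)
(.spl (nat_lit 2) (nat_lit 200)
(.spl (nat_lit 2) (nat_lit 160)
(.spl (nat_lit 6) (nat_lit 24)
(.spl (nat_lit 1) (nat_lit 321)
(.spl (nat_lit 0) (nat_lit 322)
(.spl (nat_lit 0) (nat_lit 321)
(.spl (nat_lit 2) (nat_lit 152)
(.spl (nat_lit 7) (nat_lit 600)
(.leaf p023_l73)
(.spl (nat_lit 7) (nat_lit 900)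
(.leaf p023_l74)
(.spl (nat_lit 7) (nat_lit 1060)
(.leaf p023_l75)
(.spl (nat_lit 8) (nat_lit 800)
(.spl (nat_lit 8) (nat_lit 400)
(.leaf p023_l76)
(.leaf p023_l77))
(.leaf p023_l78)))))
(.leaf p023_l79))
(.trZ (nat_lit 0) (nat_lit 83) (nat_lit 83) (nat_lit 100) (nat_lit 144) (.leaf p023_l80)))
(.trZ (nat_lit 0) (nat_lit 83) (nat_lit 82) (nat_lit 100) (nat_lit 144) (.leaf p023_l81)))
(.ord (.trZ (nat_lit 0) (nat_lit 83) (nat_lit 83) (nat_lit 100) (nat_lit 144) (.spl (nat_lit 0) (nat_lit 322)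
(.spl (nat_lit 2) (nat_lit 152)
(.spl (nat_lit 2) (nat_lit 148)
(.spl (nat_lit 7) (nat_lit 600)
(.leaf p023_l82)
(.spl (nat_lit 7) (nat_lit 900)
(.leaf p023_l83)
(.spl (nat_lit 7) (nat_lit 1060)
(.leaf p023_l84)
(.spl (nat_lit 8) (nat_lit 800)
(.spl (nat_lit 8) (nat_lit 400)
(.leaf p023_l85)
(.leaf p023_l86))
(.leaf p023_l87)))))
(.spl (nat_lit 7) (nat_lit 600)
(.leaf p023_l88)
(.spl (nat_lit 7) (nat_lit 900)
(.leaf p023_l89)
(.spl (nat_lit 7) (nat_lit 1060)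
(.leaf p023_l90)
(.spl (nat_lit 8) (nat_lit 800)
(.spl (nat_lit 8) (nat_lit 400)
(.leaf p023_l91)
(.leaf p023_l92))
(.leaf p023_l93))))))
(.leaf p023_l94))
(.leaf p023_l95)))))
(.spl (nat_lit 6) (nat_lit 28)
(.spl (nat_lit 1) (nat_lit 321)
(.spl (nat_lit 0) (nat_lit 322)
(.spl (nat_lit 0) (nat_lit 321)
(.spl (nat_lit 2) (nat_lit 152)
(.spl (nat_lit 2) (nat_lit 144)
(.leaf p023_l96)
(.spl (nat_lit 2) (nat_lit 148)
(.spl (nat_lit 7) (nat_lit 600)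
(.leaf p023_l97)
(.spl (nat_lit 7) (nat_lit 900)
(.leaf p023_l98)
(.spl (nat_lit 7) (nat_lit 1060)
(.leaf p023_l99)
(.spl (nat_lit 8) (nat_lit 800)
(.spl (nat_lit 8) (nat_lit 400)
(.leaf p023_l100)
(.leaf p023_l101))
(.leaf p023_l102)))))
(.leaf p023_l103)))
(.leaf p023_l104))
(.trZ (nat_lit 0) (nat_lit 83) (nat_lit 83) (nat_lit 100) (nat_lit 144) (.leaf p023_l105)))
(.trZ (nat_lit 0) (nat_lit 83) (nat_lit 82) (nat_lit 100) (nat_lit 144) (.leaf p023_l106)))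
(.ord (.trZ (nat_lit 0) (nat_lit 83) (nat_lit 83) (nat_lit 100) (nat_lit 144) (.leaf p023_l107))))
(.leaf p023_l108)))
(.spl (nat_lit 6) (nat_lit 24)
(.leaf p023_l109)
(.leaf p023_l110)))
(.leaf p023_l111))
(.ord (.trZ (nat_lit 0) (nat_lit 82) (nat_lit 82) (nat_lit 100) (nat_lit 148) (.spl (nat_lit 6) (nat_lit 24)
(.leaf p023_l112)
(.leaf p023_l113)))))
(.trZ (nat_lit 0) (nat_lit 83) (nat_lit 82) (nat_lit 100) (nat_lit 144) (.leaf p023_l114)))) (by decide +kernel)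
noncomputable def p023_l115 : Lf2 := ⟨nat_lit 0, nat_lit 9, [nat_lit 203, nat_lit 5, nat_lit 5, nat_lit 20], false, nat_lit 0, nat_lit 0, nat_lit 0, nat_lit 0, ⟨nat_lit 1000, nat_lit 0, nat_lit 0, nat_lit 0, nat_lit 0, nat_lit 0, nat_lit 0, nat_lit 0, nat_lit 0, nat_lit 0, nat_lit 0, nat_lit 0, nat_lit 0, nat_lit 0, nat_lit 0, nat_lit 0, false, false⟩,
 nat_lit 0, nat_lit 10489, nat_lit 0, nat_lit 0, nat_lit 7866, nat_lit 4006, nat_lit 462, nat_lit 0, nat_lit 0, nat_lit 715, nat_lit 0, nat_lit 0, nat_lit 0, nat_lit 0, nat_lit 0, nat_lit 0, nat_lit 0, nat_lit 0, [],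
 ⟨p023_k26, nat_lit 0, nat_lit 0, nat_lit 625, nat_lit 0, nat_lit 1221190, [nat_lit 2032000001, nat_lit 4688000000, nat_lit 6250000000], [], [nat_lit 26693137000, nat_lit 26775947532, nat_lit 27373254640, nat_lit 27447061380], nat_lit 1271250, nat_lit 1271250, nat_lit 936251, nat_lit 1773750, nat_lit 0, nat_lit 0, [nat_lit 490000, nat_lit 1100000, nat_lit 1442500], [nat_lit 6, nat_lit 40, nat_lit 80, nat_lit 80, nat_lit 3, nat_lit 272, nat_lit 60, nat_lit 10]⟩, ⟨p023_k26, nat_lit 0, nat_lit 0, nat_lit 114, nat_lit 0, nat_lit 0, [nat_lit 2032000000, nat_lit 4688000000, nat_lit 6250000000], [], [nat_lit 20832471758, nat_lit 20995921639, nat_lit 24028107480, nat_lit 24181922264], nat_lit 0, nat_lit 0, nat_lit 0, nat_lit 0, nat_lit 0, nat_lit 0, [], [nat_lit 6, nat_lit 40, nat_lit 80, nat_lit 80, nat_lit 3, nat_lit 272, nat_lit 60, nat_lit 10]⟩,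
 zbF0, [⟨nat_lit 0, nat_lit 82, nat_lit 82, nat_lit 100, nat_lit 427296742⟩]⟩
noncomputable def p023_l116 : Lf2 := ⟨nat_lit 0, nat_lit 9, [nat_lit 203, nat_lit 5, nat_lit 5, nat_lit 20], false, nat_lit 0, nat_lit 0, nat_lit 0, nat_lit 0, ⟨nat_lit 1000, nat_lit 0, nat_lit 0, nat_lit 0, nat_lit 0, nat_lit 0, nat_lit 0, nat_lit 0, nat_lit 0, nat_lit 0, nat_lit 0, nat_lit 0, nat_lit 0, nat_lit 0, nat_lit 0, nat_lit 0, false, false⟩,
 nat_lit 0, nat_lit 10225, nat_lit 0, nat_lit 0, nat_lit 7728, nat_lit 4009, nat_lit 473, nat_lit 0, nat_lit 0, nat_lit 712, nat_lit 0, nat_lit 0, nat_lit 0, nat_lit 30403871400957, nat_lit 0, nat_lit 0, nat_lit 0, nat_lit 0, [],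
 ⟨p023_k27, nat_lit 0, nat_lit 0, nat_lit 625, nat_lit 0, nat_lit 1223760, [nat_lit 2032000001, nat_lit 4688000000, nat_lit 6250000000], [], [nat_lit 26629426046, nat_lit 26670239886, nat_lit 27340359469, nat_lit 27376990206], nat_lit 1271250, nat_lit 1271250, nat_lit 968401, nat_lit 1776000, nat_lit 0, nat_lit 0, [nat_lit 490000, nat_lit 1100000, nat_lit 1442500], [nat_lit 6, nat_lit 40, nat_lit 80, nat_lit 80, nat_lit 3, nat_lit 272, nat_lit 60, nat_lit 10]⟩, ⟨p023_k26, nat_lit 0, nat_lit 0, nat_lit 115, nat_lit 0, nat_lit 0, [nat_lit 2032000000, nat_lit 4688000000, nat_lit 6250000000], [], [nat_lit 20890934609, nat_lit 21133964362, nat_lit 24028625220, nat_lit 24259438134], nat_lit 0, nat_lit 0, nat_lit 0, nat_lit 0, nat_lit 0, nat_lit 0, [], [nat_lit 6, nat_lit 40, nat_lit 80, nat_lit 80, nat_lit 3, nat_lit 272, nat_lit 60, nat_lit 10]⟩,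
 zbF0, [⟨nat_lit 0, nat_lit 81, nat_lit 81, nat_lit 100, nat_lit 423936699⟩]⟩
noncomputable def p023_l117 : Lf2 := ⟨nat_lit 0, nat_lit 9, [nat_lit 203, nat_lit 5, nat_lit 5, nat_lit 20], false, nat_lit 0, nat_lit 0, nat_lit 0, nat_lit 0, ⟨nat_lit 1000, nat_lit 0, nat_lit 0, nat_lit 0, nat_lit 0, nat_lit 0, nat_lit 0, nat_lit 0, nat_lit 0, nat_lit 0, nat_lit 0, nat_lit 0, nat_lit 0, nat_lit 0, nat_lit 0, nat_lit 0, false, false⟩,
 nat_lit 0, nat_lit 10077, nat_lit 0, nat_lit 0, nat_lit 7646, nat_lit 4009, nat_lit 476, nat_lit 0, nat_lit 0, nat_lit 712, nat_lit 0, nat_lit 0, nat_lit 0, nat_lit 0, nat_lit 0, nat_lit 0, nat_lit 0, nat_lit 0, [],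
 ⟨p023_k28, nat_lit 0, nat_lit 0, nat_lit 628, nat_lit 0, nat_lit 1230639, [nat_lit 2032000001, nat_lit 4688000000, nat_lit 6250000000], [], [nat_lit 26737387412, nat_lit 26818618212, nat_lit 27450332053, nat_lit 27523269528], nat_lit 1271250, nat_lit 1271250, nat_lit 968401, nat_lit 1776000, nat_lit 0, nat_lit 0, [nat_lit 490000, nat_lit 1100000, nat_lit 1442500], [nat_lit 6, nat_lit 40, nat_lit 80, nat_lit 80, nat_lit 3, nat_lit 272, nat_lit 60, nat_lit 10]⟩, ⟨p023_k26, nat_lit 0, nat_lit 0, nat_lit 115, nat_lit 0, nat_lit 0, [nat_lit 2032000000, nat_lit 4688000000, nat_lit 6250000000], [], [nat_lit 20890934609, nat_lit 21133964362, nat_lit 24028625220, nat_lit 24259438134], nat_lit 0, nat_lit 0, nat_lit 0, nat_lit 0, nat_lit 0, nat_lit 0, [], [nat_lit 6, nat_lit 40, nat_lit 80, nat_lit 80, nat_lit 3, nat_lit 272, nat_lit 60, nat_lit 10]⟩,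
 zbF0, [⟨nat_lit 0, nat_lit 81, nat_lit 80, nat_lit 100, nat_lit 427738768⟩]⟩
noncomputable def p023_l118 : Lf2 := ⟨nat_lit 0, nat_lit 10, [nat_lit 0, nat_lit 5, nat_lit 5, nat_lit 20], false, nat_lit 0, nat_lit 0, nat_lit 0, nat_lit 0, ⟨nat_lit 1000, nat_lit 0, nat_lit 0, nat_lit 0, nat_lit 0, nat_lit 0, nat_lit 0, nat_lit 0, nat_lit 0, nat_lit 0, nat_lit 0, nat_lit 0, nat_lit 0, nat_lit 0, nat_lit 0, nat_lit 0, false, false⟩,
 nat_lit 0, nat_lit 10429, nat_lit 0, nat_lit 0, nat_lit 7821, nat_lit 4000, nat_lit 443, nat_lit 0, nat_lit 0, nat_lit 653, nat_lit 0, nat_lit 0, nat_lit 0, nat_lit 0, nat_lit 0, nat_lit 0, nat_lit 0, nat_lit 0, [],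
 ⟨p023_k29, nat_lit 0, nat_lit 0, nat_lit 624, nat_lit 0, nat_lit 1217195, [nat_lit 2032000001, nat_lit 4688000000, nat_lit 6250000000], [], [nat_lit 27012530823, nat_lit 27204300390, nat_lit 27605182840, nat_lit 27789255178], nat_lit 1271250, nat_lit 1271250, nat_lit 936251, nat_lit 1773750, nat_lit 0, nat_lit 0, [nat_lit 490000, nat_lit 1100000, nat_lit 1442500], [nat_lit 6, nat_lit 40, nat_lit 80, nat_lit 80, nat_lit 3, nat_lit 272, nat_lit 60, nat_lit 10]⟩, ⟨p023_k29, nat_lit 0, nat_lit 0, nat_lit 115, nat_lit 0, nat_lit 0, [nat_lit 2032000000, nat_lit 4688000000, nat_lit 6250000000], [], [nat_lit 21084775000, nat_lit 21327301825, nat_lit 24043168000, nat_lit 24258453700], nat_lit 0, nat_lit 0, nat_lit 0, nat_lit 0, nat_lit 0, nat_lit 0, [], [nat_lit 6, nat_lit 40, nat_lit 80, nat_lit 80, nat_lit 3, nat_lit 272, nat_lit 60, nat_lit 10]⟩,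
 zbF0, [⟨nat_lit 0, nat_lit 81, nat_lit 80, nat_lit 100, nat_lit 466042439⟩]⟩
noncomputable def b_N_800_800_0_7 : St := ⟨false, nat_lit 1, nat_lit 0, nat_lit 1, nat_lit 40, nat_lit 320, nat_lit 325, nat_lit 320, nat_lit 323, nat_lit 140, nat_lit 240, nat_lit 0, nat_lit 0, nat_lit 0, nat_lit 0, nat_lit 0, nat_lit 0, nat_lit 32, nat_lit 40, nat_lit 0, nat_lit 0, nat_lit 0, nat_lit 0⟩
theorem d_N_800_800_0_7 (h : EB TB.env) : Dead b_N_800_800_0_7 := chkB_sound0 h (T :=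
(.spl (nat_lit 6) (nat_lit 36)
(.spl (nat_lit 0) (nat_lit 323)
(.spl (nat_lit 0) (nat_lit 322)
(.ord (.leaf p023_l115))
(.trZ (nat_lit 0) (nat_lit 83) (nat_lit 82) (nat_lit 100) (nat_lit 144) (.leaf p023_l116)))
(.trZ (nat_lit 0) (nat_lit 83) (nat_lit 82) (nat_lit 100) (nat_lit 144) (.leaf p023_l117)))
(.leaf p023_l118))) (by decide +kernel)
noncomputable def p023_l119 : Lf2 := ⟨nat_lit 0, nat_lit 1, [nat_lit 19, nat_lit 5, nat_lit 5, nat_lit 20], false, nat_lit 0, nat_lit 0, nat_lit 0, nat_lit 0, ⟨nat_lit 1000, nat_lit 0, nat_lit 0, nat_lit 0, nat_lit 0, nat_lit 0, nat_lit 0, nat_lit 0, nat_lit 0, nat_lit 0, nat_lit 0, nat_lit 0, nat_lit 0, nat_lit 0, nat_lit 0, nat_lit 0, false, false⟩,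
 nat_lit 0, nat_lit 7586, nat_lit 0, nat_lit 0, nat_lit 5689, nat_lit 4172, nat_lit 0, nat_lit 0, nat_lit 0, nat_lit 0, nat_lit 0, nat_lit 0, nat_lit 0, nat_lit 0, nat_lit 0, nat_lit 0, nat_lit 0, nat_lit 0, [],
 ⟨p023_k30, nat_lit 0, nat_lit 0, nat_lit 621, nat_lit 0, nat_lit 1576638, [nat_lit 2032000001, nat_lit 3282000000], [], [nat_lit 33377393329, nat_lit 33471212529, nat_lit 37324985849, nat_lit 37389645255], nat_lit 1271250, nat_lit 1271250, nat_lit 1271250, nat_lit 1271250, nat_lit 0, nat_lit 0, [nat_lit 490000, nat_lit 780000], [nat_lit 112, nat_lit 40, nat_lit 80, nat_lit 80, nat_lit 113, nat_lit 246, nat_lit 0, nat_lit 13]⟩, ⟨p023_k30, nat_lit 0, nat_lit 0, nat_lit 135, nat_lit 0, nat_lit 0, [nat_lit 2032000000, nat_lit 3282000000], [], [nat_lit 23545798992, nat_lit 23757009767, nat_lit 32946166032, nat_lit 33117229047], nat_lit 0, nat_lit 0, nat_lit 0, nat_lit 0, nat_lit 0,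 nat_lit 0, [], [nat_lit 112, nat_lit 40, nat_lit 80, nat_lit 80, nat_lit 113, nat_lit 203, nat_lit 0, nat_lit 10]⟩,
 zbF0, []⟩
noncomputable def p023_l120 : Lf2 := ⟨nat_lit 0, nat_lit 2, [nat_lit 10, nat_lit 5, nat_lit 5, nat_lit 20], false, nat_lit 0, nat_lit 0, nat_lit 0, nat_lit 0, ⟨nat_lit 1000, nat_lit 0, nat_lit 0, nat_lit 0, nat_lit 0, nat_lit 0, nat_lit 0, nat_lit 0, nat_lit 0, nat_lit 0, nat_lit 0, nat_lit 0, nat_lit 0, nat_lit 0, nat_lit 0, nat_lit 0, false, false⟩,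
 nat_lit 0, nat_lit 8687, nat_lit 0, nat_lit 0, nat_lit 6515, nat_lit 4232, nat_lit 0, nat_lit 0, nat_lit 0, nat_lit 0, nat_lit 0, nat_lit 0, nat_lit 0, nat_lit 0, nat_lit 0, nat_lit 0, nat_lit 0, nat_lit 0, [],
 ⟨p023_k31, nat_lit 0, nat_lit 0, nat_lit 650, nat_lit 0, nat_lit 1504092, [nat_lit 2032000001, nat_lit 4688000000], [], [nat_lit 36426586801, nat_lit 36479001393, nat_lit 37836096080, nat_lit 37883059291], nat_lit 1271250, nat_lit 1271250, nat_lit 1271250, nat_lit 1271250, nat_lit 0, nat_lit 0, [nat_lit 490000, nat_lit 1100000], [nat_lit 24, nat_lit 40, nat_lit 80, nat_lit 80, nat_lit 33, nat_lit 243, nat_lit 0, nat_lit 10]⟩, ⟨p023_k31, nat_lit 0, nat_lit 0, nat_lit 110, nat_lit 0, nat_lit 0, [nat_lit 2032000000, nat_lit 4688000000], [], [nat_lit 24086338368, nat_lit 24226886709, nat_lit 28522258656, nat_lit 28652184674], nat_lit 0, nat_lit 0, nat_lit 0, nat_lit 0, nat_lit 0,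 nat_lit 0, [], [nat_lit 24, nat_lit 40, nat_lit 80, nat_lit 80, nat_lit 33, nat_lit 203, nat_lit 0, nat_lit 8]⟩,
 zbF0, []⟩
noncomputable def p023_l121 : Lf2 := ⟨nat_lit 0, nat_lit 2, [nat_lit 10, nat_lit 5, nat_lit 5, nat_lit 20], false, nat_lit 0, nat_lit 0, nat_lit 0, nat_lit 0, ⟨nat_lit 1000, nat_lit 0, nat_lit 0, nat_lit 0, nat_lit 0, nat_lit 0, nat_lit 0, nat_lit 0, nat_lit 0, nat_lit 0, nat_lit 0, nat_lit 0, nat_lit 0, nat_lit 0, nat_lit 0, nat_lit 0, false, false⟩,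
 nat_lit 0, nat_lit 8064, nat_lit 0, nat_lit 0, nat_lit 6095, nat_lit 4227, nat_lit 2457, nat_lit 0, nat_lit 0, nat_lit 0, nat_lit 0, nat_lit 0, nat_lit 0, nat_lit 0, nat_lit 0, nat_lit 0, nat_lit 0, nat_lit 0, [],
 ⟨p023_k32, nat_lit 0, nat_lit 0, nat_lit 650, nat_lit 0, nat_lit 1503945, [nat_lit 2032000001, nat_lit 4688000000], [], [nat_lit 28426891157, nat_lit 28458854132, nat_lit 30868864074, nat_lit 30960886902], nat_lit 1271250, nat_lit 1271250, nat_lit 1271250, nat_lit 1271250, nat_lit 0, nat_lit 0, [nat_lit 490000, nat_lit 1100000], [nat_lit 24, nat_lit 40, nat_lit 80, nat_lit 80, nat_lit 33, nat_lit 243, nat_lit 0, nat_lit 10]⟩, ⟨p023_k31, nat_lit 0, nat_lit 0, nat_lit 111, nat_lit 0, nat_lit 0, [nat_lit 2032000000, nat_lit 4688000000], [], [nat_lit 24093293748, nat_lit 24303986214, nat_lit 28519144116, nat_lit 28713920442], nat_lit 0, nat_lit 0, nat_lit 0, nat_lit 0, nat_lit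 0, nat_lit 0, [], [nat_lit 24, nat_lit 40, nat_lit 80, nat_lit 80, nat_lit 33, nat_lit 203, nat_lit 0, nat_lit 8]⟩,
 zbF0, []⟩
noncomputable def p023_l122 : Lf2 := ⟨nat_lit 0, nat_lit 2, [nat_lit 10, nat_lit 5, nat_lit 5, nat_lit 20], false, nat_lit 0, nat_lit 0, nat_lit 0, nat_lit 0, ⟨nat_lit 1000, nat_lit 0, nat_lit 0, nat_lit 0, nat_lit 0, nat_lit 0, nat_lit 0, nat_lit 0, nat_lit 0, nat_lit 0, nat_lit 0, nat_lit 0, nat_lit 0, nat_lit 0, nat_lit 0, nat_lit 0, false, false⟩,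
 nat_lit 0, nat_lit 0, nat_lit 0, nat_lit 0, nat_lit 0, nat_lit 5123, nat_lit 0, nat_lit 0, nat_lit 455, nat_lit 21421, nat_lit 0, nat_lit 0, nat_lit 0, nat_lit 400000000000000, nat_lit 0, nat_lit 0, nat_lit 0, nat_lit 0, [],
 ⟨p023_k31, nat_lit 0, nat_lit 0, nat_lit 0, nat_lit 0, nat_lit 1488578, [nat_lit 2032000001, nat_lit 4688000000], [], [nat_lit 19054372000, nat_lit 19079811000, nat_lit 21285092000, nat_lit 21312632100], nat_lit 1271250, nat_lit 1271250, nat_lit 1271250, nat_lit 1271250, nat_lit 0, nat_lit 0, [nat_lit 490000, nat_lit 1100000], [nat_lit 24, nat_lit 40, nat_lit 80, nat_lit 80]⟩, ⟨p023_k31, nat_lit 0, nat_lit 0, nat_lit 156, nat_lit 0, nat_lit 0, [nat_lit 2032000000, nat_lit 4688000000], [], [nat_lit 30524011260, nat_lit 30585208407, nat_lit 35607056928, nat_lit 35669476637], nat_lit 0, nat_lit 0, nat_lit 0, nat_lit 0, nat_lit 0, nat_lit 0, [], [nat_lit 24, nat_lit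 40, nat_lit 80, nat_lit 80, nat_lit 33, nat_lit 203, nat_lit 0, nat_lit 8]⟩,
 zbF0, [⟨nat_lit 13, nat_lit 100, nat_lit 1, nat_lit 100, nat_lit 58225912⟩]⟩
noncomputable def p023_l123 : Lf2 := ⟨nat_lit 0, nat_lit 2, [nat_lit 10, nat_lit 5, nat_lit 5, nat_lit 20], false, nat_lit 0, nat_lit 0, nat_lit 0, nat_lit 0, ⟨nat_lit 1000, nat_lit 0, nat_lit 0, nat_lit 0, nat_lit 0, nat_lit 0, nat_lit 0, nat_lit 0, nat_lit 0, nat_lit 0, nat_lit 0, nat_lit 0, nat_lit 0, nat_lit 0, nat_lit 0, nat_lit 0, false, false⟩,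
 nat_lit 0, nat_lit 0, nat_lit 0, nat_lit 0, nat_lit 0, nat_lit 5123, nat_lit 0, nat_lit 0, nat_lit 451, nat_lit 4729, nat_lit 0, nat_lit 0, nat_lit 0, nat_lit 400000000000000, nat_lit 0, nat_lit 0, nat_lit 0, nat_lit 0, [],
 ⟨p023_k31, nat_lit 0, nat_lit 0, nat_lit 0, nat_lit 0, nat_lit 1488578, [nat_lit 2032000001, nat_lit 4688000000], [], [nat_lit 19312212000, nat_lit 19335811000, nat_lit 21361428000, nat_lit 21384997700], nat_lit 1271250, nat_lit 1271250, nat_lit 1271250, nat_lit 1271250, nat_lit 0, nat_lit 0, [nat_lit 490000, nat_lit 1100000], [nat_lit 24, nat_lit 40, nat_lit 80, nat_lit 80]⟩, ⟨p023_k31, nat_lit 0, nat_lit 0, nat_lit 156, nat_lit 0, nat_lit 0, [nat_lit 2032000000, nat_lit 4688000000], [], [nat_lit 30524011260, nat_lit 30585208407, nat_lit 35607056928, nat_lit 35669476637], nat_lit 0, nat_lit 0, nat_lit 0, nat_lit 0, nat_lit 0, nat_lit 0, [], [nat_lit 24, nat_lit 40,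 nat_lit 80, nat_lit 80, nat_lit 33, nat_lit 203, nat_lit 0, nat_lit 8]⟩,
 zbF0, [⟨nat_lit 13, nat_lit 100, nat_lit 1, nat_lit 100, nat_lit 45953775⟩]⟩
noncomputable def p023_l124 : Lf2 := ⟨nat_lit 0, nat_lit 2, [nat_lit 10, nat_lit 5, nat_lit 5, nat_lit 20], false, nat_lit 0, nat_lit 0, nat_lit 0, nat_lit 0, ⟨nat_lit 1000, nat_lit 0, nat_lit 0, nat_lit 0, nat_lit 0, nat_lit 0, nat_lit 0, nat_lit 0, nat_lit 0, nat_lit 0, nat_lit 0, nat_lit 0, nat_lit 0, nat_lit 0, nat_lit 0, nat_lit 0, false, false⟩,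
 nat_lit 0, nat_lit 0, nat_lit 0, nat_lit 0, nat_lit 0, nat_lit 5122, nat_lit 0, nat_lit 0, nat_lit 429, nat_lit 0, nat_lit 0, nat_lit 0, nat_lit 0, nat_lit 4093219171569, nat_lit 0, nat_lit 0, nat_lit 0, nat_lit 0, [],
 ⟨p023_k31, nat_lit 0, nat_lit 0, nat_lit 0, nat_lit 0, nat_lit 1488578, [nat_lit 2032000001, nat_lit 4688000000], [], [nat_lit 21438556000, nat_lit 21458789700, nat_lit 23069552000, nat_lit 23088644700], nat_lit 1271250, nat_lit 1271250, nat_lit 1271250, nat_lit 1271250, nat_lit 0, nat_lit 0, [nat_lit 490000, nat_lit 1100000], [nat_lit 24, nat_lit 40, nat_lit 80, nat_lit 80]⟩, ⟨p023_k31, nat_lit 0, nat_lit 0, nat_lit 156, nat_lit 0, nat_lit 0, [nat_lit 2032000000, nat_lit 4688000000], [], [nat_lit 30524573640, nat_lit 30585764747, nat_lit 35607103392, nat_lit 35666672967], nat_lit 0, nat_lit 0, nat_lit 0, nat_lit 0, nat_lit 0, nat_lit 0, [], [nat_lit 24, nat_lit 40, nat_lit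 80, nat_lit 80, nat_lit 33, nat_lit 203, nat_lit 0, nat_lit 8]⟩,
 zbF0, []⟩
noncomputable def p023_l125 : Lf2 := ⟨nat_lit 0, nat_lit 2, [nat_lit 10, nat_lit 5, nat_lit 5, nat_lit 20], false, nat_lit 0, nat_lit 0, nat_lit 0, nat_lit 0, ⟨nat_lit 1000, nat_lit 0, nat_lit 0, nat_lit 0, nat_lit 0, nat_lit 0, nat_lit 0, nat_lit 0, nat_lit 0, nat_lit 0, nat_lit 0, nat_lit 0, nat_lit 0, nat_lit 0, nat_lit 0, nat_lit 0, false, false⟩,
 nat_lit 0, nat_lit 0, nat_lit 0, nat_lit 0, nat_lit 0, nat_lit 5123, nat_lit 0, nat_lit 0, nat_lit 424, nat_lit 0, nat_lit 0, nat_lit 0, nat_lit 0, nat_lit 4348299489932, nat_lit 0, nat_lit 0, nat_lit 0, nat_lit 0, [],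
 ⟨p023_k31, nat_lit 0, nat_lit 0, nat_lit 0, nat_lit 0, nat_lit 1488578, [nat_lit 2032000001, nat_lit 4688000000], [], [nat_lit 22099852000, nat_lit 22118749000, nat_lit 23629552000, nat_lit 23648644700], nat_lit 1271250, nat_lit 1271250, nat_lit 1271250, nat_lit 1271250, nat_lit 0, nat_lit 0, [nat_lit 490000, nat_lit 1100000], [nat_lit 24, nat_lit 40, nat_lit 80, nat_lit 80]⟩, ⟨p023_k31, nat_lit 0, nat_lit 0, nat_lit 156, nat_lit 0, nat_lit 0, [nat_lit 2032000000, nat_lit 4688000000], [], [nat_lit 30524011260, nat_lit 30585208407, nat_lit 35607056928, nat_lit 35669476637], nat_lit 0, nat_lit 0, nat_lit 0, nat_lit 0, nat_lit 0, nat_lit 0, [], [nat_lit 24, nat_lit 40, nat_lit 80, nat_lit 80, nat_lit 33, nat_lit 203, nat_lit 0, nat_lit 8]⟩,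
 zbF0, []⟩
noncomputable def p023_l126 : Lf2 := ⟨nat_lit 0, nat_lit 2, [nat_lit 10, nat_lit 5, nat_lit 5, nat_lit 20], false, nat_lit 0, nat_lit 0, nat_lit 0, nat_lit 0, ⟨nat_lit 1000, nat_lit 0, nat_lit 0, nat_lit 0, nat_lit 0, nat_lit 0, nat_lit 0, nat_lit 0, nat_lit 0, nat_lit 0, nat_lit 0, nat_lit 0, nat_lit 0, nat_lit 0, nat_lit 0, nat_lit 0, false, false⟩,
 nat_lit 0, nat_lit 8362, nat_lit 0, nat_lit 0, nat_lit 6271, nat_lit 0, nat_lit 0, nat_lit 0, nat_lit 0, nat_lit 0, nat_lit 0, nat_lit 404, nat_lit 0, nat_lit 29277127373452, nat_lit 0, nat_lit 0, nat_lit 0, nat_lit 0, [],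
 ⟨p023_k31, nat_lit 0, nat_lit 0, nat_lit 650, nat_lit 0, nat_lit 1488578, [nat_lit 2032000001, nat_lit 4688000000], [], [nat_lit 39281129533, nat_lit 39302730428, nat_lit 41272871848, nat_lit 41291307677], nat_lit 1271250, nat_lit 1271250, nat_lit 1271250, nat_lit 1271250, nat_lit 0, nat_lit 0, [nat_lit 490000, nat_lit 1100000], [nat_lit 24, nat_lit 40, nat_lit 80, nat_lit 80, nat_lit 33, nat_lit 253, nat_lit 0, nat_lit 10]⟩, ⟨p023_k31, nat_lit 0, nat_lit 0, nat_lit 0, nat_lit 0, nat_lit 0, [nat_lit 2032000000, nat_lit 4688000000], [], [nat_lit 19422112000, nat_lit 19455278300, nat_lit 22097192000, nat_lit 22127046700], nat_lit 0, nat_lit 0, nat_lit 0, nat_lit 0, nat_lit 0, nat_lit 0, [], [nat_lit 24, nat_lit 40, nat_lit 80, nat_lit 80]⟩,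
 zbF0, []⟩
noncomputable def p023_l127 : Lf2 := ⟨nat_lit 0, nat_lit 2, [nat_lit 10, nat_lit 5, nat_lit 5, nat_lit 20], false, nat_lit 0, nat_lit 0, nat_lit 0, nat_lit 0, ⟨nat_lit 1000, nat_lit 0, nat_lit 0, nat_lit 0, nat_lit 0, nat_lit 0, nat_lit 0, nat_lit 0, nat_lit 0, nat_lit 0, nat_lit 0, nat_lit 0, nat_lit 0, nat_lit 0, nat_lit 0, nat_lit 0, false, false⟩,
 nat_lit 0, nat_lit 7980, nat_lit 0, nat_lit 0, nat_lit 5984, nat_lit 4042, nat_lit 0, nat_lit 0, nat_lit 0, nat_lit 799, nat_lit 0, nat_lit 0, nat_lit 0, nat_lit 0, nat_lit 0, nat_lit 0, nat_lit 0, nat_lit 0, [],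
 ⟨p023_k31, nat_lit 0, nat_lit 0, nat_lit 650, nat_lit 0, nat_lit 1488578, [nat_lit 2032000001, nat_lit 4688000000], [], [nat_lit 41116008929, nat_lit 41137460929, nat_lit 42950585377, nat_lit 42967675269], nat_lit 1271250, nat_lit 1271250, nat_lit 1271250, nat_lit 1271250, nat_lit 0, nat_lit 0, [nat_lit 490000, nat_lit 1100000], [nat_lit 24, nat_lit 40, nat_lit 80, nat_lit 80, nat_lit 33, nat_lit 253, nat_lit 0, nat_lit 10]⟩, ⟨p023_k33, nat_lit 0, nat_lit 0, nat_lit 0, nat_lit 0, nat_lit 0, [nat_lit 2032000000, nat_lit 3282000000, nat_lit 4688000000], [], [nat_lit 28030615139, nat_lit 28085197757, nat_lit 32598552803, nat_lit 32644932479], nat_lit 0, nat_lit 0, nat_lit 0, nat_lit 0, nat_lit 0, nat_lit 0, [], [nat_lit 78, nat_lit 40, nat_lit 80, nat_lit 80]⟩,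
 zbF0, []⟩
noncomputable def p023_l128 : Lf2 := ⟨nat_lit 0, nat_lit 2, [nat_lit 10, nat_lit 5, nat_lit 5, nat_lit 20], false, nat_lit 0, nat_lit 0, nat_lit 0, nat_lit 0, ⟨nat_lit 1000, nat_lit 0, nat_lit 0, nat_lit 0, nat_lit 0, nat_lit 0, nat_lit 0, nat_lit 0, nat_lit 0, nat_lit 0, nat_lit 0, nat_lit 0, nat_lit 0, nat_lit 0, nat_lit 0, nat_lit 0, false, false⟩,
 nat_lit 0, nat_lit 100000, nat_lit 0, nat_lit 0, nat_lit 75000, nat_lit 100000, nat_lit 18287, nat_lit 2514, nat_lit 0, nat_lit 60000, nat_lit 20000, nat_lit 0, nat_lit 0, nat_lit 400000000000000, nat_lit 0, nat_lit 0, nat_lit 45455748000, nat_lit 0, [],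
 ⟨p023_k31, nat_lit 0, nat_lit 0, nat_lit 650, nat_lit 0, nat_lit 1488578, [nat_lit 22144000000, nat_lit 44912000000], [], [nat_lit 0, nat_lit 71674500, nat_lit 7149308000, nat_lit 7176606900], nat_lit 1271250, nat_lit 1271250, nat_lit 1271250, nat_lit 1271250, nat_lit 0, nat_lit 0, [nat_lit 490000, nat_lit 1100000], [nat_lit 24, nat_lit 40, nat_lit 80, nat_lit 80, nat_lit 33, nat_lit 253, nat_lit 0, nat_lit 10]⟩, ⟨p023_k31, nat_lit 0, nat_lit 0, nat_lit 0, nat_lit 0, nat_lit 0, [nat_lit 162032000000, nat_lit 324688000000], [], [nat_lit 706399336000, nat_lit 706987001500, nat_lit 756527332000, nat_lit 756924000900], nat_lit 0, nat_lit 0, nat_lit 0, nat_lit 0, nat_lit 0, nat_lit 0, [], [nat_lit 24, nat_lit 40, nat_lit 80, nat_lit 80]⟩,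
 zbF0, []⟩
noncomputable def p023_l129 : Lf2 := ⟨nat_lit 3, nat_lit 2, [nat_lit 10, nat_lit 5, nat_lit 5, nat_lit 20], false, nat_lit 0, nat_lit 0, nat_lit 0, nat_lit 0, zbN0,
 nat_lit 0, nat_lit 0, nat_lit 0, nat_lit 0, nat_lit 0, nat_lit 0, nat_lit 0, nat_lit 0, nat_lit 0, nat_lit 0, nat_lit 0, nat_lit 0, nat_lit 0, nat_lit 0, nat_lit 0, nat_lit 0, nat_lit 0, nat_lit 0, [],
 C1.Rw.none, ⟨p023_k31, nat_lit 0, nat_lit 0, nat_lit 156, nat_lit 0, nat_lit 0, [], [], [], nat_lit 0, nat_lit 0, nat_lit 0, nat_lit 0, nat_lit 0, nat_lit 0, [], [nat_lit 24, nat_lit 40, nat_lit 80, nat_lit 80, nat_lit 33, nat_lit 203, nat_lit 0, nat_lit 8]⟩,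
 zbF0, []⟩
noncomputable def p023_l130 : Lf2 := ⟨nat_lit 0, nat_lit 2, [nat_lit 10, nat_lit 5, nat_lit 5, nat_lit 20], false, nat_lit 0, nat_lit 0, nat_lit 0, nat_lit 0, ⟨nat_lit 1000, nat_lit 0, nat_lit 0, nat_lit 0, nat_lit 0, nat_lit 0, nat_lit 0, nat_lit 0, nat_lit 0, nat_lit 0, nat_lit 0, nat_lit 0, nat_lit 0, nat_lit 0, nat_lit 0, nat_lit 0, false, false⟩,
 nat_lit 0, nat_lit 7945, nat_lit 0, nat_lit 0, nat_lit 5982, nat_lit 5112, nat_lit 5881, nat_lit 0, nat_lit 0, nat_lit 0, nat_lit 0, nat_lit 0, nat_lit 0, nat_lit 32378445787039, nat_lit 0, nat_lit 0, nat_lit 0, nat_lit 0, [],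
 ⟨p023_k34, nat_lit 0, nat_lit 0, nat_lit 652, nat_lit 0, nat_lit 1496264, [nat_lit 2032000001, nat_lit 4688000000], [], [nat_lit 36298421507, nat_lit 36319872469, nat_lit 38128518052, nat_lit 38145608055], nat_lit 1271250, nat_lit 1271250, nat_lit 1271250, nat_lit 1271250, nat_lit 0, nat_lit 0, [nat_lit 490000, nat_lit 1100000], [nat_lit 24, nat_lit 40, nat_lit 80, nat_lit 80, nat_lit 33, nat_lit 254, nat_lit 0, nat_lit 10]⟩, ⟨p023_k31, nat_lit 0, nat_lit 0, nat_lit 157, nat_lit 0, nat_lit 0, [nat_lit 2032000000, nat_lit 4688000000], [], [nat_lit 30530197440, nat_lit 30652458866, nat_lit 35607568032, nat_lit 35703337708], nat_lit 0, nat_lit 0, nat_lit 0, nat_lit 0, nat_lit 0, nat_lit 0, [], [nat_lit 24, nat_lit 40, nat_lit 80, nat_lit 80, nat_lit 33, nat_lit 203, nat_lit 0, nat_lit 8]⟩,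
 zbF0, []⟩
noncomputable def p023_l131 : Lf2 := ⟨nat_lit 0, nat_lit 2, [nat_lit 10, nat_lit 5, nat_lit 5, nat_lit 20], false, nat_lit 0, nat_lit 0, nat_lit 0, nat_lit 0, ⟨nat_lit 1000, nat_lit 0, nat_lit 0, nat_lit 0, nat_lit 0, nat_lit 0, nat_lit 0, nat_lit 0, nat_lit 0, nat_lit 0, nat_lit 0, nat_lit 0, nat_lit 0, nat_lit 0, nat_lit 0, nat_lit 0, false, false⟩,
 nat_lit 0, nat_lit 6613, nat_lit 0, nat_lit 0, nat_lit 4998, nat_lit 5107, nat_lit 6665, nat_lit 0, nat_lit 0, nat_lit 0, nat_lit 0, nat_lit 0, nat_lit 0, nat_lit 27049870267120, nat_lit 0, nat_lit 0, nat_lit 0, nat_lit 0, [],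
 ⟨p023_k32, nat_lit 0, nat_lit 0, nat_lit 655, nat_lit 0, nat_lit 1503945, [nat_lit 2032000001, nat_lit 4688000000], [], [nat_lit 33288704474, nat_lit 33314278314, nat_lit 35429679593, nat_lit 35450825452], nat_lit 1271250, nat_lit 1271250, nat_lit 1271250, nat_lit 1271250, nat_lit 0, nat_lit 0, [nat_lit 490000, nat_lit 1100000], [nat_lit 24, nat_lit 40, nat_lit 80, nat_lit 80, nat_lit 33, nat_lit 255, nat_lit 0, nat_lit 10]⟩, ⟨p023_k31, nat_lit 0, nat_lit 0, nat_lit 157, nat_lit 0, nat_lit 0, [nat_lit 2032000000, nat_lit 4688000000], [], [nat_lit 30533009340, nat_lit 30716310888, nat_lit 35607800352, nat_lit 35751395168], nat_lit 0, nat_lit 0, nat_lit 0, nat_lit 0, nat_lit 0, nat_lit 0, [], [nat_lit 24, nat_lit 40, nat_lit 80, nat_lit 80, nat_lit 33, nat_lit 203, nat_lit 0, nat_lit 8]⟩,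
 zbF0, []⟩
noncomputable def p023_l132 : Lf2 := ⟨nat_lit 0, nat_lit 4, [nat_lit 38, nat_lit 5, nat_lit 5, nat_lit 20], false, nat_lit 0, nat_lit 0, nat_lit 0, nat_lit 0, ⟨nat_lit 1000, nat_lit 0, nat_lit 0, nat_lit 0, nat_lit 0, nat_lit 0, nat_lit 0, nat_lit 0, nat_lit 0, nat_lit 0, nat_lit 0, nat_lit 0, nat_lit 0, nat_lit 0, nat_lit 0, nat_lit 0, false, false⟩,
 nat_lit 0, nat_lit 8681, nat_lit 0, nat_lit 0, nat_lit 6510, nat_lit 4227, nat_lit 0, nat_lit 0, nat_lit 0, nat_lit 0, nat_lit 0, nat_lit 0, nat_lit 0, nat_lit 0, nat_lit 0, nat_lit 0, nat_lit 0, nat_lit 0, [],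
 ⟨p023_k3, nat_lit 0, nat_lit 0, nat_lit 642, nat_lit 0, nat_lit 1480305, [nat_lit 2032000001, nat_lit 4688000000], [], [nat_lit 36458451201, nat_lit 36537057094, nat_lit 37865670720, nat_lit 37936104981], nat_lit 1271250, nat_lit 1271250, nat_lit 1271250, nat_lit 1271250, nat_lit 0, nat_lit 0, [nat_lit 490000, nat_lit 1100000], [nat_lit 24, nat_lit 40, nat_lit 80, nat_lit 80, nat_lit 33, nat_lit 241, nat_lit 0, nat_lit 10]⟩, ⟨p023_k3, nat_lit 0, nat_lit 0, nat_lit 111, nat_lit 0, nat_lit 0, [nat_lit 2032000000, nat_lit 4688000000], [], [nat_lit 24093293748, nat_lit 24303986214, nat_lit 28519144116, nat_lit 28713920442], nat_lit 0, nat_lit 0, nat_lit 0, nat_lit 0, nat_lit 0, nat_lit 0, [], [nat_lit 24, nat_lit 40, nat_lit 80, nat_lit 80, nat_lit 33, nat_lit 203, nat_lit 0, nat_lit 8]⟩,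
 zbF0, []⟩
noncomputable def p023_l133 : Lf2 := ⟨nat_lit 0, nat_lit 4, [nat_lit 38, nat_lit 5, nat_lit 5, nat_lit 20], false, nat_lit 0, nat_lit 0, nat_lit 0, nat_lit 0, ⟨nat_lit 1000, nat_lit 0, nat_lit 0, nat_lit 0, nat_lit 0, nat_lit 0, nat_lit 0, nat_lit 0, nat_lit 0, nat_lit 0, nat_lit 0, nat_lit 0, nat_lit 0, nat_lit 0, nat_lit 0, nat_lit 0, false, false⟩,
 nat_lit 0, nat_lit 8732, nat_lit 0, nat_lit 0, nat_lit 6549, nat_lit 5117, nat_lit 0, nat_lit 0, nat_lit 0, nat_lit 0, nat_lit 0, nat_lit 0, nat_lit 0, nat_lit 0, nat_lit 0, nat_lit 0, nat_lit 0, nat_lit 0, [],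
 ⟨p023_k3, nat_lit 0, nat_lit 0, nat_lit 635, nat_lit 0, nat_lit 1449002, [nat_lit 2032000001, nat_lit 4688000000], [], [nat_lit 37634988528, nat_lit 37658494060, nat_lit 39649376312, nat_lit 39667835354], nat_lit 1271250, nat_lit 1271250, nat_lit 1271250, nat_lit 1271250, nat_lit 0, nat_lit 0, [nat_lit 490000, nat_lit 1100000], [nat_lit 24, nat_lit 40, nat_lit 80, nat_lit 80, nat_lit 33, nat_lit 249, nat_lit 0, nat_lit 10]⟩, ⟨p023_k3, nat_lit 0, nat_lit 0, nat_lit 156, nat_lit 0, nat_lit 0, [nat_lit 2032000000, nat_lit 4688000000], [], [nat_lit 30527385540, nat_lit 30588546450, nat_lit 35607335712, nat_lit 35655240449], nat_lit 0, nat_lit 0, nat_lit 0, nat_lit 0, nat_lit 0, nat_lit 0, [], [nat_lit 24, nat_lit 40, nat_lit 80, nat_lit 80, nat_lit 33, nat_lit 203, nat_lit 0, nat_lit 8]⟩,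
 zbF0, []⟩
noncomputable def p023_l134 : Lf2 := ⟨nat_lit 0, nat_lit 3, [nat_lit 45, nat_lit 5, nat_lit 5, nat_lit 20], false, nat_lit 0, nat_lit 0, nat_lit 0, nat_lit 0, ⟨nat_lit 1000, nat_lit 0, nat_lit 0, nat_lit 0, nat_lit 0, nat_lit 0, nat_lit 0, nat_lit 0, nat_lit 0, nat_lit 0, nat_lit 0, nat_lit 0, nat_lit 0, nat_lit 0, nat_lit 0, nat_lit 0, false, false⟩,
 nat_lit 0, nat_lit 8289, nat_lit 0, nat_lit 0, nat_lit 6241, nat_lit 5112, nat_lit 3161, nat_lit 0, nat_lit 0, nat_lit 0, nat_lit 0, nat_lit 0, nat_lit 0, nat_lit 0, nat_lit 0, nat_lit 0, nat_lit 0, nat_lit 0, [],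
 ⟨p023_k2, nat_lit 0, nat_lit 0, nat_lit 635, nat_lit 0, nat_lit 1448303, [nat_lit 2032000001, nat_lit 4688000000], [], [nat_lit 36886689104, nat_lit 36908274435, nat_lit 38858677532, nat_lit 38877110856], nat_lit 1271250, nat_lit 1271250, nat_lit 1271250, nat_lit 1271250, nat_lit 0, nat_lit 0, [nat_lit 490000, nat_lit 1100000], [nat_lit 24, nat_lit 40, nat_lit 80, nat_lit 80, nat_lit 33, nat_lit 249, nat_lit 0, nat_lit 10]⟩, ⟨p023_k0, nat_lit 0, nat_lit 0, nat_lit 157, nat_lit 0, nat_lit 0, [nat_lit 2032000000, nat_lit 4688000000], [], [nat_lit 30530197440, nat_lit 30652458866, nat_lit 35607568032, nat_lit 35703337708], nat_lit 0, nat_lit 0, nat_lit 0, nat_lit 0, nat_lit 0, nat_lit 0, [], [nat_lit 24, nat_lit 40, nat_lit 80, nat_lit 80, nat_lit 33, nat_lit 203, nat_lit 0, nat_lit 8]⟩,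
 zbF0, []⟩
noncomputable def p023_l135 : Lf2 := ⟨nat_lit 0, nat_lit 4, [nat_lit 38, nat_lit 5, nat_lit 5, nat_lit 20], false, nat_lit 0, nat_lit 0, nat_lit 0, nat_lit 0, ⟨nat_lit 1000, nat_lit 0, nat_lit 0, nat_lit 0, nat_lit 0, nat_lit 0, nat_lit 0, nat_lit 0, nat_lit 0, nat_lit 0, nat_lit 0, nat_lit 0, nat_lit 0, nat_lit 0, nat_lit 0, nat_lit 0, false, false⟩,
 nat_lit 0, nat_lit 8690, nat_lit 0, nat_lit 0, nat_lit 6542, nat_lit 5112, nat_lit 0, nat_lit 0, nat_lit 0, nat_lit 0, nat_lit 0, nat_lit 0, nat_lit 0, nat_lit 35558045472785, nat_lit 0, nat_lit 0, nat_lit 0, nat_lit 0, [],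
 ⟨p023_k5, nat_lit 0, nat_lit 0, nat_lit 612, nat_lit 0, nat_lit 1403762, [nat_lit 2032000001, nat_lit 4688000000], [], [nat_lit 37699893630, nat_lit 37723394235, nat_lit 39708714153, nat_lit 39727172610], nat_lit 1271250, nat_lit 1271250, nat_lit 1271250, nat_lit 1271250, nat_lit 0, nat_lit 0, [nat_lit 490000, nat_lit 1100000], [nat_lit 24, nat_lit 40, nat_lit 80, nat_lit 80, nat_lit 33, nat_lit 244, nat_lit 0, nat_lit 10]⟩, ⟨p023_k3, nat_lit 0, nat_lit 0, nat_lit 157, nat_lit 0, nat_lit 0, [nat_lit 2032000000, nat_lit 4688000000], [], [nat_lit 30530197440, nat_lit 30652458866, nat_lit 35607568032, nat_lit 35703337708], nat_lit 0, nat_lit 0, nat_lit 0, nat_lit 0, nat_lit 0, nat_lit 0, [], [nat_lit 24, nat_lit 40, nat_lit 80, nat_lit 80, nat_lit 33, nat_lit 203, nat_lit 0, nat_lit 8]⟩,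
 zbF0, []⟩
noncomputable def p023_l136 : Lf2 := ⟨nat_lit 0, nat_lit 4, [nat_lit 38, nat_lit 5, nat_lit 5, nat_lit 20], false, nat_lit 0, nat_lit 0, nat_lit 0, nat_lit 0, ⟨nat_lit 1000, nat_lit 0, nat_lit 0, nat_lit 0, nat_lit 0, nat_lit 0, nat_lit 0, nat_lit 0, nat_lit 0, nat_lit 0, nat_lit 0, nat_lit 0, nat_lit 0, nat_lit 0, nat_lit 0, nat_lit 0, false, false⟩,
 nat_lit 0, nat_lit 7666, nat_lit 0, nat_lit 0, nat_lit 5794, nat_lit 5107, nat_lit 2741, nat_lit 0, nat_lit 0, nat_lit 0, nat_lit 0, nat_lit 0, nat_lit 0, nat_lit 31508274633374, nat_lit 0, nat_lit 0, nat_lit 0, nat_lit 0, [],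
 ⟨p023_k35, nat_lit 0, nat_lit 0, nat_lit 642, nat_lit 0, nat_lit 1464916, [nat_lit 2032000001, nat_lit 4688000000], [], [nat_lit 35792297736, nat_lit 35814471200, nat_lit 37672327686, nat_lit 37690157836], nat_lit 1271250, nat_lit 1271250, nat_lit 1271250, nat_lit 1271250, nat_lit 0, nat_lit 0, [nat_lit 490000, nat_lit 1100000], [nat_lit 24, nat_lit 40, nat_lit 80, nat_lit 80, nat_lit 33, nat_lit 251, nat_lit 0, nat_lit 10]⟩, ⟨p023_k3, nat_lit 0, nat_lit 0, nat_lit 157, nat_lit 0, nat_lit 0, [nat_lit 2032000000, nat_lit 4688000000], [], [nat_lit 30533009340, nat_lit 30716310888, nat_lit 35607800352, nat_lit 35751395168], nat_lit 0, nat_lit 0, nat_lit 0, nat_lit 0, nat_lit 0, nat_lit 0, [], [nat_lit 24, nat_lit 40, nat_lit 80, nat_lit 80, nat_lit 33, nat_lit 203, nat_lit 0, nat_lit 8]⟩,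
 zbF0, []⟩
noncomputable def p023_l137 : Lf2 := ⟨nat_lit 0, nat_lit 5, [nat_lit 4, nat_lit 5, nat_lit 5, nat_lit 20], false, nat_lit 0, nat_lit 0, nat_lit 0, nat_lit 0, ⟨nat_lit 1000, nat_lit 0, nat_lit 0, nat_lit 0, nat_lit 0, nat_lit 0, nat_lit 0, nat_lit 0, nat_lit 0, nat_lit 0, nat_lit 0, nat_lit 0, nat_lit 0, nat_lit 0, nat_lit 0, nat_lit 0, false, false⟩,
 nat_lit 0, nat_lit 8503, nat_lit 0, nat_lit 0, nat_lit 6377, nat_lit 5128, nat_lit 432, nat_lit 0, nat_lit 0, nat_lit 624, nat_lit 0, nat_lit 0, nat_lit 0, nat_lit 0, nat_lit 0, nat_lit 0, nat_lit 0, nat_lit 0, [],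
 ⟨p023_k8, nat_lit 0, nat_lit 0, nat_lit 661, nat_lit 0, nat_lit 1369231, [nat_lit 2032000001, nat_lit 4688000000, nat_lit 6250000000], [], [nat_lit 35122377642, nat_lit 35178271671, nat_lit 39213395492, nat_lit 39258196392], nat_lit 1271250, nat_lit 1271250, nat_lit 1271250, nat_lit 1271250, nat_lit 0, nat_lit 0, [nat_lit 490000, nat_lit 1100000, nat_lit 1442500], [nat_lit 6, nat_lit 40, nat_lit 80, nat_lit 80, nat_lit 3, nat_lit 256, nat_lit 0, nat_lit 9]⟩, ⟨p023_k8, nat_lit 0, nat_lit 0, nat_lit 172, nat_lit 0, nat_lit 0, [nat_lit 2032000000, nat_lit 4688000000, nat_lit 6250000000], [], [nat_lit 26381124768, nat_lit 26519970693, nat_lit 35620820768, nat_lit 35746169199], nat_lit 0, nat_lit 0, nat_lit 0, nat_lit 0, nat_lit 0, nat_lit 0, [], [nat_lit 6, nat_lit 40, nat_lit 80, nat_lit 80, nat_lit 3, nat_lit 203, nat_lit 0, nat_lit 7]⟩,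
 zbF0, []⟩
noncomputable def p023_l138 : Lf2 := ⟨nat_lit 0, nat_lit 5, [nat_lit 4, nat_lit 5, nat_lit 5, nat_lit 20], false, nat_lit 0, nat_lit 0, nat_lit 0, nat_lit 0, ⟨nat_lit 1000, nat_lit 0, nat_lit 0, nat_lit 0, nat_lit 0, nat_lit 0, nat_lit 0, nat_lit 0, nat_lit 0, nat_lit 0, nat_lit 0, nat_lit 0, nat_lit 0, nat_lit 0, nat_lit 0, nat_lit 0, false, false⟩,
 nat_lit 0, nat_lit 7833, nat_lit 0, nat_lit 0, nat_lit 5920, nat_lit 5261, nat_lit 2040, nat_lit 0, nat_lit 0, nat_lit 623, nat_lit 0, nat_lit 0, nat_lit 0, nat_lit 34092973475292, nat_lit 0, nat_lit 0, nat_lit 0, nat_lit 0, [],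
 ⟨p023_k12, nat_lit 0, nat_lit 0, nat_lit 597, nat_lit 0, nat_lit 1370354, [nat_lit 2032000001, nat_lit 4688000000], [], [nat_lit 34443305859, nat_lit 34471871646, nat_lit 38018720128, nat_lit 38040883533], nat_lit 1271250, nat_lit 1271250, nat_lit 1271250, nat_lit 1271250, nat_lit 0, nat_lit 0, [nat_lit 490000, nat_lit 1100000], [nat_lit 24, nat_lit 40, nat_lit 80, nat_lit 80, nat_lit 33, nat_lit 240, nat_lit 0, nat_lit 10]⟩, ⟨p023_k8, nat_lit 0, nat_lit 0, nat_lit 172, nat_lit 0, nat_lit 0, [nat_lit 2032000000, nat_lit 4688000000, nat_lit 6250000000], [], [nat_lit 26262067316, nat_lit 26474740007, nat_lit 35992922316, nat_lit 36183304409], nat_lit 0, nat_lit 0, nat_lit 0, nat_lit 0, nat_lit 0, nat_lit 0, [], [nat_lit 6, nat_lit 40, nat_lit 80, nat_lit 80, nat_lit 3, nat_lit 203, nat_lit 0, nat_lit 7]⟩,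
 zbF0, []⟩
noncomputable def p023_l139 : Lf2 := ⟨nat_lit 0, nat_lit 5, [nat_lit 4, nat_lit 5, nat_lit 5, nat_lit 20], false, nat_lit 0, nat_lit 0, nat_lit 0, nat_lit 0, ⟨nat_lit 1000, nat_lit 0, nat_lit 0, nat_lit 0, nat_lit 0, nat_lit 0, nat_lit 0, nat_lit 0, nat_lit 0, nat_lit 0, nat_lit 0, nat_lit 0, nat_lit 0, nat_lit 0, nat_lit 0, nat_lit 0, false, false⟩,
 nat_lit 0, nat_lit 7431, nat_lit 0, nat_lit 0, nat_lit 5638, nat_lit 5382, nat_lit 2256, nat_lit 0, nat_lit 0, nat_lit 620, nat_lit 0, nat_lit 0, nat_lit 0, nat_lit 32012914998798, nat_lit 0, nat_lit 0, nat_lit 0, nat_lit 0, [],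
 ⟨p023_k13, nat_lit 0, nat_lit 0, nat_lit 702, nat_lit 0, nat_lit 1626023, [nat_lit 2032000001, nat_lit 4688000000], [], [nat_lit 34236934825, nat_lit 34287145376, nat_lit 37345557752, nat_lit 37379947704], nat_lit 1271250, nat_lit 1271250, nat_lit 1271250, nat_lit 1271250, nat_lit 0, nat_lit 0, [nat_lit 490000, nat_lit 1100000], [nat_lit 24, nat_lit 40, nat_lit 80, nat_lit 80, nat_lit 33, nat_lit 267, nat_lit 0, nat_lit 11]⟩, ⟨p023_k8, nat_lit 0, nat_lit 0, nat_lit 173, nat_lit 0, nat_lit 0, [nat_lit 2032000000, nat_lit 4688000000, nat_lit 6250000000], [], [nat_lit 26162112792, nat_lit 26519745352, nat_lit 36331450792, nat_lit 36652331886], nat_lit 0, nat_lit 0, nat_lit 0, nat_lit 0, nat_lit 0, nat_lit 0, [], [nat_lit 6, nat_lit 40, nat_lit 80, nat_lit 80, nat_lit 3, nat_lit 203, nat_lit 0, nat_lit 7]⟩,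
 zbF0, []⟩
noncomputable def p023_l140 : Lf2 := ⟨nat_lit 0, nat_lit 10, [nat_lit 0, nat_lit 5, nat_lit 5, nat_lit 20], false, nat_lit 0, nat_lit 0, nat_lit 0, nat_lit 0, ⟨nat_lit 1000, nat_lit 0, nat_lit 0, nat_lit 0, nat_lit 0, nat_lit 0, nat_lit 0, nat_lit 0, nat_lit 0, nat_lit 0, nat_lit 0, nat_lit 0, nat_lit 0, nat_lit 0, nat_lit 0, nat_lit 0, false, false⟩,
 nat_lit 0, nat_lit 8495, nat_lit 0, nat_lit 0, nat_lit 6371, nat_lit 5127, nat_lit 433, nat_lit 0, nat_lit 0, nat_lit 623, nat_lit 0, nat_lit 0, nat_lit 0, nat_lit 0, nat_lit 0, nat_lit 0, nat_lit 0, nat_lit 0, [],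
 ⟨p023_k29, nat_lit 0, nat_lit 0, nat_lit 665, nat_lit 0, nat_lit 1378039, [nat_lit 2032000001, nat_lit 4688000000, nat_lit 6250000000], [], [nat_lit 35156473266, nat_lit 35244124227, nat_lit 39243413516, nat_lit 39310605530], nat_lit 1271250, nat_lit 1271250, nat_lit 1271250, nat_lit 1271250, nat_lit 0, nat_lit 0, [nat_lit 490000, nat_lit 1100000, nat_lit 1442500], [nat_lit 6, nat_lit 40, nat_lit 80, nat_lit 80, nat_lit 3, nat_lit 257, nat_lit 0, nat_lit 9]⟩, ⟨p023_k29, nat_lit 0, nat_lit 0, nat_lit 172, nat_lit 0, nat_lit 0, [nat_lit 2032000000, nat_lit 4688000000, nat_lit 6250000000], [], [nat_lit 26386050012, nat_lit 26594345888, nat_lit 35618023012, nat_lit 35806027918], nat_lit 0, nat_lit 0, nat_lit 0, nat_lit 0, nat_lit 0, nat_lit 0, [], [nat_lit 6, nat_lit 40, nat_lit 80, nat_lit 80, nat_lit 3, nat_lit 203, nat_lit 0, nat_lit 7]⟩,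
 zbF0, []⟩
noncomputable def p023_l141 : Lf2 := ⟨nat_lit 0, nat_lit 10, [nat_lit 0, nat_lit 5, nat_lit 5, nat_lit 20], false, nat_lit 0, nat_lit 0, nat_lit 0, nat_lit 0, ⟨nat_lit 1000, nat_lit 0, nat_lit 0, nat_lit 0, nat_lit 0, nat_lit 0, nat_lit 0, nat_lit 0, nat_lit 0, nat_lit 0, nat_lit 0, nat_lit 0, nat_lit 0, nat_lit 0, nat_lit 0, nat_lit 0, false, false⟩,
 nat_lit 0, nat_lit 7922, nat_lit 0, nat_lit 0, nat_lit 6011, nat_lit 5375, nat_lit 1589, nat_lit 0, nat_lit 0, nat_lit 620, nat_lit 0, nat_lit 0, nat_lit 0, nat_lit 0, nat_lit 0, nat_lit 0, nat_lit 0, nat_lit 0, [],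
 ⟨p023_k36, nat_lit 0, nat_lit 0, nat_lit 669, nat_lit 0, nat_lit 1387769, [nat_lit 2032000001, nat_lit 4688000000, nat_lit 6250000000], [], [nat_lit 35266327813, nat_lit 35317667473, nat_lit 38397291324, nat_lit 38434119561], nat_lit 1271250, nat_lit 1271250, nat_lit 1271250, nat_lit 1271250, nat_lit 0, nat_lit 0, [nat_lit 490000, nat_lit 1100000, nat_lit 1442500], [nat_lit 6, nat_lit 40, nat_lit 80, nat_lit 80, nat_lit 3, nat_lit 258, nat_lit 0, nat_lit 9]⟩, ⟨p023_k29, nat_lit 0, nat_lit 0, nat_lit 173, nat_lit 0, nat_lit 0, [nat_lit 2032000000, nat_lit 4688000000, nat_lit 6250000000], [], [nat_lit 26168589500, nat_lit 26525880250, nat_lit 36311866500, nat_lit 36632540625], nat_lit 0, nat_lit 0, nat_lit 0, nat_lit 0, nat_lit 0, nat_lit 0, [], [nat_lit 6, nat_lit 40, nat_lit 80, nat_lit 80, nat_lit 3, nat_lit 203, nat_lit 0, nat_lit 7]⟩,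
 zbF0, []⟩
noncomputable def b_N_800_800_0_8 : St := ⟨false, nat_lit 1, nat_lit 0, nat_lit 1, nat_lit 40, nat_lit 320, nat_lit 325, nat_lit 320, nat_lit 325, nat_lit 240, nat_lit 400, nat_lit 0, nat_lit 0, nat_lit 0, nat_lit 0, nat_lit 0, nat_lit 0, nat_lit 0, nat_lit 40, nat_lit 0, nat_lit 0, nat_lit 0, nat_lit 0⟩
theorem d_N_800_800_0_8 (h : EB TB.env) : Dead b_N_800_800_0_8 := chkB_sound0 h (T :=
(.spl (nat_lit 6) (nat_lit 20)
(.spl (nat_lit 0) (nat_lit 323)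
(.ord (.spl (nat_lit 6) (nat_lit 8)
(.spl (nat_lit 6) (nat_lit 4)
(.leaf p023_l119)
(.spl (nat_lit 2) (nat_lit 320)
(.spl (nat_lit 0) (nat_lit 322)
(.ord (.leaf p023_l120))
(.leaf p023_l121))
(.spl (nat_lit 0) (nat_lit 322)
(.ord (.spl (nat_lit 0) (nat_lit 321)
(.ord (.spl (nat_lit 7) (nat_lit 600)
(.leaf p023_l122)
(.spl (nat_lit 7) (nat_lit 900)
(.leaf p023_l123)
(.spl (nat_lit 7) (nat_lit 1060)
(.leaf p023_l124)
(.spl (nat_lit 7) (nat_lit 1220)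
(.leaf p023_l125)
(.spl (nat_lit 8) (nat_lit 800)
(.spl (nat_lit 8) (nat_lit 400)
(.spl (nat_lit 8) (nat_lit 200)
(.leaf p023_l126)
(.leaf p023_l127))
(.leaf p023_l128))
(.leaf p023_l129)))))))
(.leaf p023_l130)))
(.leaf p023_l131))))
(.spl (nat_lit 6) (nat_lit 16)
(.spl (nat_lit 2) (nat_lit 320)
(.leaf p023_l132)
(.spl (nat_lit 0) (nat_lit 322)
(.ord (.spl (nat_lit 0) (nat_lit 321)
(.ord (.leaf p023_l133))
(.spl (nat_lit 6) (nat_lit 12)
(.leaf p023_l134)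
(.leaf p023_l135))))
(.leaf p023_l136)))
(.spl (nat_lit 0) (nat_lit 322)
(.ord (.leaf p023_l137))
(.leaf p023_l138)))))
(.leaf p023_l139))
(.spl (nat_lit 0) (nat_lit 323)
(.ord (.leaf p023_l140))
(.leaf p023_l141)))) (by decide +kernel)
noncomputable def p023_l142 : Lf2 := ⟨nat_lit 0, nat_lit 1, [nat_lit 19, nat_lit 5, nat_lit 5, nat_lit 20], false, nat_lit 0, nat_lit 0, nat_lit 0, nat_lit 0, ⟨nat_lit 1000, nat_lit 0, nat_lit 0, nat_lit 0, nat_lit 0, nat_lit 0, nat_lit 0, nat_lit 0, nat_lit 0, nat_lit 0, nat_lit 0, nat_lit 0, nat_lit 0, nat_lit 0, nat_lit 0, nat_lit 0, false, false⟩,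
 nat_lit 0, nat_lit 9079, nat_lit 0, nat_lit 0, nat_lit 6808, nat_lit 3947, nat_lit 0, nat_lit 0, nat_lit 0, nat_lit 0, nat_lit 0, nat_lit 0, nat_lit 0, nat_lit 0, nat_lit 0, nat_lit 0, nat_lit 0, nat_lit 0, [],
 ⟨p023_k30, nat_lit 0, nat_lit 0, nat_lit 616, nat_lit 0, nat_lit 1576638, [nat_lit 2032000001, nat_lit 3282000000], [], [nat_lit 24914275633, nat_lit 25033527729, nat_lit 25886306017, nat_lit 25986498482], nat_lit 1271250, nat_lit 1271250, nat_lit 936251, nat_lit 1773750, nat_lit 0, nat_lit 0, [nat_lit 490000, nat_lit 780000], [nat_lit 112, nat_lit 40, nat_lit 80, nat_lit 80, nat_lit 113, nat_lit 225, nat_lit 0, nat_lit 13]⟩, ⟨p023_k30, nat_lit 0, nat_lit 0, nat_lit 75, nat_lit 0, nat_lit 0, [nat_lit 2032000000, nat_lit 3282000000], [], [nat_lit 18615502354, nat_lit 18889911776, nat_lit 21997800028, nat_lit 22238310545], nat_lit 0, nat_lit 0, nat_lit 0, nat_lit 0, nat_lit 0, nat_lit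 0, [], [nat_lit 112, nat_lit 40, nat_lit 80, nat_lit 80, nat_lit 113, nat_lit 203, nat_lit 0, nat_lit 11]⟩,
 zbF0, [⟨nat_lit 0, nat_lit 81, nat_lit 81, nat_lit 100, nat_lit 402322964⟩]⟩
noncomputable def p023_l143 : Lf2 := ⟨nat_lit 0, nat_lit 2, [nat_lit 10, nat_lit 5, nat_lit 5, nat_lit 20], true, nat_lit 0, nat_lit 0, nat_lit 0, nat_lit 0, ⟨nat_lit 0, nat_lit 1000, nat_lit 0, nat_lit 8, nat_lit 232, nat_lit 0, nat_lit 0, nat_lit 0, nat_lit 0, nat_lit 0, nat_lit 0, nat_lit 0, nat_lit 0, nat_lit 0, nat_lit 0, nat_lit 5000000, false, false⟩,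
 nat_lit 0, nat_lit 0, nat_lit 0, nat_lit 0, nat_lit 0, nat_lit 0, nat_lit 0, nat_lit 0, nat_lit 344, nat_lit 0, nat_lit 0, nat_lit 0, nat_lit 0, nat_lit 9270282399157, nat_lit 0, nat_lit 400000, nat_lit 0, nat_lit 0, [(nat_lit 18, [(nat_lit 1, nat_lit 1000)])],
 ⟨p023_k31, nat_lit 0, nat_lit 0, nat_lit 0, nat_lit 0, nat_lit 1488578, [nat_lit 1398133334, nat_lit 1966666666], [], [nat_lit 12906179672, nat_lit 12937391847, nat_lit 14318572672, nat_lit 14348372538], nat_lit 1271250, nat_lit 1271250, nat_lit 936251, nat_lit 1438750, nat_lit 0, nat_lit 0, [nat_lit 490000, nat_lit 1100000], [nat_lit 24, nat_lit 40, nat_lit 80, nat_lit 80]⟩, C1.Rw.none,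
 ⟨nat_lit 4444, nat_lit 4473, ⟨.ofNat (nat_lit 527430), .ofNat (nat_lit 629397), .ofNat (nat_lit 528508), .ofNat (nat_lit 630476), .ofNat (nat_lit 527742), .ofNat (nat_lit 629451), .ofNat (nat_lit 528821), .ofNat (nat_lit 630530)⟩, ⟨.ofNat (nat_lit 0), .ofNat (nat_lit 0), .ofNat (nat_lit 0), .ofNat (nat_lit 0), .ofNat (nat_lit 0), .ofNat (nat_lit 0), .ofNat (nat_lit 0), .ofNat (nat_lit 0)⟩⟩, []⟩
noncomputable def p023_l144 : Lf2 := ⟨nat_lit 0, nat_lit 2, [nat_lit 10, nat_lit 5, nat_lit 5, nat_lit 20], false, nat_lit 0, nat_lit 0, nat_lit 0, nat_lit 0, ⟨nat_lit 1000, nat_lit 0, nat_lit 0, nat_lit 0, nat_lit 0, nat_lit 0, nat_lit 0, nat_lit 0, nat_lit 0, nat_lit 0, nat_lit 0, nat_lit 0, nat_lit 0, nat_lit 0, nat_lit 0, nat_lit 0, false, false⟩,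
 nat_lit 0, nat_lit 0, nat_lit 0, nat_lit 0, nat_lit 0, nat_lit 2118, nat_lit 0, nat_lit 0, nat_lit 461, nat_lit 0, nat_lit 0, nat_lit 0, nat_lit 0, nat_lit 400000000000000, nat_lit 0, nat_lit 0, nat_lit 0, nat_lit 0, [],
 ⟨p023_k31, nat_lit 0, nat_lit 0, nat_lit 0, nat_lit 0, nat_lit 1488578, [nat_lit 2032000001, nat_lit 4688000000], [], [nat_lit 14589215000, nat_lit 14615120125, nat_lit 15835068000, nat_lit 15860863700], nat_lit 1271250, nat_lit 1271250, nat_lit 936251, nat_lit 1438750, nat_lit 0, nat_lit 0, [nat_lit 490000, nat_lit 1100000], [nat_lit 24, nat_lit 40, nat_lit 80, nat_lit 80]⟩, ⟨p023_k31, nat_lit 0, nat_lit 0, nat_lit 85, nat_lit 0, nat_lit 0, [nat_lit 2032000000, nat_lit 4688000000], [], [nat_lit 22267788250, nat_lit 22331911374, nat_lit 23949505496, nat_lit 24008214876], nat_lit 0, nat_lit 0, nat_lit 0, nat_lit 0, nat_lit 0, nat_lit 0, [], [nat_lit 24, nat_lit 40, nat_lit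 80, nat_lit 80, nat_lit 33, nat_lit 260, nat_lit 50, nat_lit 12]⟩,
 zbF0, []⟩
noncomputable def p023_l145 : Lf2 := ⟨nat_lit 0, nat_lit 2, [nat_lit 10, nat_lit 5, nat_lit 5, nat_lit 20], false, nat_lit 0, nat_lit 0, nat_lit 0, nat_lit 0, ⟨nat_lit 1000, nat_lit 0, nat_lit 0, nat_lit 0, nat_lit 0, nat_lit 0, nat_lit 0, nat_lit 0, nat_lit 0, nat_lit 0, nat_lit 0, nat_lit 0, nat_lit 0, nat_lit 0, nat_lit 0, nat_lit 0, false, false⟩,
 nat_lit 0, nat_lit 10008, nat_lit 0, nat_lit 0, nat_lit 7506, nat_lit 4021, nat_lit 817, nat_lit 0, nat_lit 0, nat_lit 1140, nat_lit 0, nat_lit 0, nat_lit 0, nat_lit 0, nat_lit 0, nat_lit 0, nat_lit 0, nat_lit 0, [],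
 ⟨p023_k33, nat_lit 0, nat_lit 0, nat_lit 663, nat_lit 0, nat_lit 1488578, [nat_lit 2032000001, nat_lit 3282000000, nat_lit 4688000000], [], [nat_lit 19335600888, nat_lit 19380080242, nat_lit 19985231912, nat_lit 20031932895], nat_lit 1271250, nat_lit 1271250, nat_lit 936251, nat_lit 1438750, nat_lit 0, nat_lit 0, [nat_lit 490000, nat_lit 780000, nat_lit 1100000], [nat_lit 78, nat_lit 40, nat_lit 80, nat_lit 80, nat_lit 22, nat_lit 260, nat_lit 50, nat_lit 12]⟩, ⟨p023_k33, nat_lit 0, nat_lit 0, nat_lit 87, nat_lit 0, nat_lit 0, [nat_lit 2032000000, nat_lit 3282000000, nat_lit 4688000000], [], [nat_lit 18619866375, nat_lit 18706863368, nat_lit 20432615934, nat_lit 20521165005], nat_lit 0, nat_lit 0, nat_lit 0, nat_lit 0, nat_lit 0, nat_lit 0, [], [nat_lit 78, nat_lit 40, nat_lit 80, nat_lit 80, nat_lit 22, nat_lit 260, nat_lit 50, nat_lit 12]⟩,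
 zbF0, [⟨nat_lit 0, nat_lit 83, nat_lit 83, nat_lit 100, nat_lit 416944205⟩]⟩
noncomputable def p023_l146 : Lf2 := ⟨nat_lit 0, nat_lit 2, [nat_lit 10, nat_lit 5, nat_lit 5, nat_lit 20], true, nat_lit 0, nat_lit 0, nat_lit 0, nat_lit 0, ⟨nat_lit 0, nat_lit 1000, nat_lit 0, nat_lit 8, nat_lit 259, nat_lit 0, nat_lit 0, nat_lit 0, nat_lit 0, nat_lit 0, nat_lit 0, nat_lit 0, nat_lit 0, nat_lit 0, nat_lit 0, nat_lit 5000000, true, false⟩,
 nat_lit 0, nat_lit 0, nat_lit 0, nat_lit 0, nat_lit 0, nat_lit 0, nat_lit 0, nat_lit 0, nat_lit 342, nat_lit 0, nat_lit 0, nat_lit 0, nat_lit 0, nat_lit 13700274190382, nat_lit 0, nat_lit 400000, nat_lit 0, nat_lit 0, [(nat_lit 18, [(nat_lit 1, nat_lit 1000)])],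
 ⟨p023_k31, nat_lit 0, nat_lit 0, nat_lit 0, nat_lit 0, nat_lit 1488578, [nat_lit 1398133334, nat_lit 1966666666], [], [nat_lit 14446572672, nat_lit 14476294922, nat_lit 14932594338, nat_lit 14970358125], nat_lit 1271250, nat_lit 1271250, nat_lit 1271250, nat_lit 1271250, nat_lit 0, nat_lit 0, [nat_lit 490000, nat_lit 1100000], [nat_lit 24, nat_lit 40, nat_lit 80, nat_lit 80]⟩, C1.Rw.none,
 ⟨nat_lit 4444, nat_lit 4473, ⟨.ofNat (nat_lit 629397), .ofNat (nat_lit 663386), .ofNat (nat_lit 630476), .ofNat (nat_lit 664465), .ofNat (nat_lit 629451), .ofNat (nat_lit 663354), .ofNat (nat_lit 630530), .ofNat (nat_lit 664433)⟩, ⟨.ofNat (nat_lit 0), .ofNat (nat_lit 0), .ofNat (nat_lit 0), .ofNat (nat_lit 0), .ofNat (nat_lit 0), .ofNat (nat_lit 0), .ofNat (nat_lit 0), .ofNat (nat_lit 0)⟩⟩, []⟩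
noncomputable def p023_l147 : Lf2 := ⟨nat_lit 0, nat_lit 2, [nat_lit 10, nat_lit 5, nat_lit 5, nat_lit 20], false, nat_lit 0, nat_lit 0, nat_lit 0, nat_lit 0, ⟨nat_lit 870, nat_lit 130, nat_lit 0, nat_lit 8, nat_lit 259, nat_lit 0, nat_lit 0, nat_lit 0, nat_lit 0, nat_lit 0, nat_lit 0, nat_lit 0, nat_lit 0, nat_lit 0, nat_lit 0, nat_lit 5000000, true, false⟩,
 nat_lit 0, nat_lit 0, nat_lit 0, nat_lit 0, nat_lit 0, nat_lit 0, nat_lit 0, nat_lit 0, nat_lit 435, nat_lit 0, nat_lit 0, nat_lit 0, nat_lit 0, nat_lit 400000000000000, nat_lit 0, nat_lit 130000, nat_lit 0, nat_lit 0, [(nat_lit 18, [(nat_lit 2, nat_lit 130)])],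
 ⟨p023_k31, nat_lit 0, nat_lit 0, nat_lit 0, nat_lit 0, nat_lit 1488578, [nat_lit 1989082667, nat_lit 4174240000], [], [nat_lit 15385944000, nat_lit 15414158050, nat_lit 15847714000, nat_lit 15875475275], nat_lit 1271250, nat_lit 1271250, nat_lit 1271250, nat_lit 1271250, nat_lit 0, nat_lit 0, [nat_lit 490000, nat_lit 1100000], [nat_lit 24, nat_lit 40, nat_lit 80, nat_lit 80]⟩, ⟨p023_k31, nat_lit 0, nat_lit 0, nat_lit 87, nat_lit 0, nat_lit 0, [nat_lit 1767840000, nat_lit 4078560000], [], [nat_lit 22193056200, nat_lit 22224829470, nat_lit 22685457060, nat_lit 22716584312], nat_lit 0, nat_lit 0, nat_lit 0, nat_lit 0, nat_lit 0, nat_lit 0, [], [nat_lit 24, nat_lit 40, nat_lit 80, nat_lit 80, nat_lit 33, nat_lit 203, nat_lit 0, nat_lit 8]⟩,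
 ⟨nat_lit 4444, nat_lit 4473, ⟨.ofNat (nat_lit 629397), .ofNat (nat_lit 663386), .ofNat (nat_lit 630476), .ofNat (nat_lit 664465), .ofNat (nat_lit 629451), .ofNat (nat_lit 663354), .ofNat (nat_lit 630530), .ofNat (nat_lit 664433)⟩, ⟨.ofNat (nat_lit 0), .ofNat (nat_lit 0), .ofNat (nat_lit 0), .ofNat (nat_lit 0), .ofNat (nat_lit 0), .ofNat (nat_lit 0), .ofNat (nat_lit 0), .ofNat (nat_lit 0)⟩⟩, []⟩
noncomputable def p023_l148 : Lf2 := ⟨nat_lit 0, nat_lit 2, [nat_lit 10, nat_lit 5, nat_lit 5, nat_lit 20], false, nat_lit 0, nat_lit 0, nat_lit 0, nat_lit 0, ⟨nat_lit 1000, nat_lit 0, nat_lit 0, nat_lit 0, nat_lit 0, nat_lit 0, nat_lit 0, nat_lit 0, nat_lit 0, nat_lit 0, nat_lit 0, nat_lit 0, nat_lit 0, nat_lit 0, nat_lit 0, nat_lit 0, false, false⟩,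
 nat_lit 0, nat_lit 11451, nat_lit 0, nat_lit 0, nat_lit 8588, nat_lit 4486, nat_lit 720, nat_lit 0, nat_lit 0, nat_lit 1074, nat_lit 0, nat_lit 0, nat_lit 0, nat_lit 0, nat_lit 0, nat_lit 0, nat_lit 0, nat_lit 0, [],
 ⟨p023_k33, nat_lit 0, nat_lit 0, nat_lit 651, nat_lit 0, nat_lit 1488578, [nat_lit 2032000001, nat_lit 3282000000, nat_lit 4688000000], [], [nat_lit 13855136576, nat_lit 13902076985, nat_lit 14264026924, nat_lit 14323555010], nat_lit 1271250, nat_lit 1271250, nat_lit 1271250, nat_lit 1271250, nat_lit 0, nat_lit 0, [nat_lit 490000, nat_lit 780000, nat_lit 1100000], [nat_lit 78, nat_lit 40, nat_lit 80, nat_lit 80, nat_lit 22, nat_lit 231, nat_lit 0, nat_lit 10]⟩, ⟨p023_k33, nat_lit 0, nat_lit 0, nat_lit 89, nat_lit 0, nat_lit 0, [nat_lit 2032000000, nat_lit 3282000000, nat_lit 4688000000], [], [nat_lit 20511543110, nat_lit 20605356673, nat_lit 21338680212, nat_lit 21438795432],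 nat_lit 0, nat_lit 0, nat_lit 0, nat_lit 0, nat_lit 0, nat_lit 0, [], [nat_lit 78, nat_lit 40, nat_lit 80, nat_lit 80, nat_lit 22, nat_lit 203, nat_lit 0, nat_lit 8]⟩,
 zbF0, []⟩
noncomputable def p023_l149 : Lf2 := ⟨nat_lit 0, nat_lit 2, [nat_lit 10, nat_lit 5, nat_lit 5, nat_lit 20], true, nat_lit 0, nat_lit 0, nat_lit 0, nat_lit 0, ⟨nat_lit 0, nat_lit 1000, nat_lit 0, nat_lit 8, nat_lit 267, nat_lit 0, nat_lit 0, nat_lit 0, nat_lit 0, nat_lit 0, nat_lit 0, nat_lit 0, nat_lit 0, nat_lit 0, nat_lit 0, nat_lit 5000000, true, false⟩,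
 nat_lit 0, nat_lit 0, nat_lit 0, nat_lit 0, nat_lit 0, nat_lit 0, nat_lit 0, nat_lit 0, nat_lit 341, nat_lit 0, nat_lit 0, nat_lit 0, nat_lit 0, nat_lit 9011681000280, nat_lit 0, nat_lit 400000, nat_lit 0, nat_lit 0, [(nat_lit 18, [(nat_lit 1, nat_lit 1000)])],
 ⟨p023_k31, nat_lit 0, nat_lit 0, nat_lit 0, nat_lit 0, nat_lit 1488578, [nat_lit 1398133334, nat_lit 1966666666], [], [nat_lit 14996415672, nat_lit 15025630197, nat_lit 15093584272, nat_lit 15122697252], nat_lit 1271250, nat_lit 1271250, nat_lit 1271250, nat_lit 1271250, nat_lit 0, nat_lit 0, [nat_lit 490000, nat_lit 1100000], [nat_lit 24, nat_lit 40, nat_lit 80, nat_lit 80]⟩, C1.Rw.none,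
 ⟨nat_lit 4444, nat_lit 4473, ⟨.ofNat (nat_lit 663386), .ofNat (nat_lit 670184), .ofNat (nat_lit 664465), .ofNat (nat_lit 671262), .ofNat (nat_lit 663354), .ofNat (nat_lit 670135), .ofNat (nat_lit 664433), .ofNat (nat_lit 671213)⟩, ⟨.ofNat (nat_lit 0), .ofNat (nat_lit 0), .ofNat (nat_lit 0), .ofNat (nat_lit 0), .ofNat (nat_lit 0), .ofNat (nat_lit 0), .ofNat (nat_lit 0), .ofNat (nat_lit 0)⟩⟩, []⟩
noncomputable def p023_l150 : Lf2 := ⟨nat_lit 0, nat_lit 2, [nat_lit 10, nat_lit 5, nat_lit 5, nat_lit 20], false, nat_lit 0, nat_lit 0, nat_lit 0, nat_lit 0, ⟨nat_lit 808, nat_lit 192, nat_lit 0, nat_lit 8, nat_lit 267, nat_lit 0, nat_lit 0, nat_lit 0, nat_lit 0, nat_lit 0, nat_lit 0, nat_lit 0, nat_lit 0, nat_lit 0, nat_lit 0, nat_lit 5000000, true, false⟩,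
 nat_lit 0, nat_lit 0, nat_lit 0, nat_lit 0, nat_lit 0, nat_lit 0, nat_lit 0, nat_lit 0, nat_lit 418, nat_lit 0, nat_lit 0, nat_lit 0, nat_lit 0, nat_lit 400000000000000, nat_lit 0, nat_lit 192000, nat_lit 0, nat_lit 0, [(nat_lit 18, [(nat_lit 2, nat_lit 192)])],
 ⟨p023_k31, nat_lit 0, nat_lit 0, nat_lit 0, nat_lit 0, nat_lit 1488578, [nat_lit 1968614401, nat_lit 3929216000], [], [nat_lit 15955618000, nat_lit 15983379275, nat_lit 16047972000, nat_lit 16075642720], nat_lit 1271250, nat_lit 1271250, nat_lit 1271250, nat_lit 1271250, nat_lit 0, nat_lit 0, [nat_lit 490000, nat_lit 1100000], [nat_lit 24, nat_lit 40, nat_lit 80, nat_lit 80]⟩, ⟨p023_k31, nat_lit 0, nat_lit 0, nat_lit 88, nat_lit 0, nat_lit 0, [nat_lit 1641856000, nat_lit 3787904000], [], [nat_lit 21068792304, nat_lit 21097701292, nat_lit 21160254349, nat_lit 21189043341], nat_lit 0, nat_lit 0, nat_lit 0, nat_lit 0, nat_lit 0,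 nat_lit 0, [], [nat_lit 24, nat_lit 40, nat_lit 80, nat_lit 80, nat_lit 33, nat_lit 203, nat_lit 0, nat_lit 8]⟩,
 ⟨nat_lit 4444, nat_lit 4473, ⟨.ofNat (nat_lit 663386), .ofNat (nat_lit 670184), .ofNat (nat_lit 664465), .ofNat (nat_lit 671262), .ofNat (nat_lit 663354), .ofNat (nat_lit 670135), .ofNat (nat_lit 664433), .ofNat (nat_lit 671213)⟩, ⟨.ofNat (nat_lit 0), .ofNat (nat_lit 0), .ofNat (nat_lit 0), .ofNat (nat_lit 0), .ofNat (nat_lit 0), .ofNat (nat_lit 0), .ofNat (nat_lit 0), .ofNat (nat_lit 0)⟩⟩, []⟩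
noncomputable def p023_l151 : Lf2 := ⟨nat_lit 0, nat_lit 2, [nat_lit 10, nat_lit 5, nat_lit 5, nat_lit 20], false, nat_lit 0, nat_lit 0, nat_lit 0, nat_lit 0, ⟨nat_lit 1000, nat_lit 0, nat_lit 0, nat_lit 0, nat_lit 0, nat_lit 0, nat_lit 0, nat_lit 0, nat_lit 0, nat_lit 0, nat_lit 0, nat_lit 0, nat_lit 0, nat_lit 0, nat_lit 0, nat_lit 0, false, false⟩,
 nat_lit 0, nat_lit 11290, nat_lit 0, nat_lit 0, nat_lit 8467, nat_lit 4474, nat_lit 706, nat_lit 0, nat_lit 0, nat_lit 1051, nat_lit 0, nat_lit 0, nat_lit 0, nat_lit 235746478478033, nat_lit 0, nat_lit 0, nat_lit 0, nat_lit 0, [],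
 ⟨p023_k33, nat_lit 0, nat_lit 0, nat_lit 648, nat_lit 0, nat_lit 1488578, [nat_lit 2032000001, nat_lit 3282000000, nat_lit 4688000000], [], [nat_lit 14857527418, nat_lit 14902303512, nat_lit 14927578207, nat_lit 14986137185], nat_lit 1271250, nat_lit 1271250, nat_lit 1271250, nat_lit 1271250, nat_lit 0, nat_lit 0, [nat_lit 490000, nat_lit 780000, nat_lit 1100000], [nat_lit 78, nat_lit 40, nat_lit 80, nat_lit 80, nat_lit 22, nat_lit 231, nat_lit 0, nat_lit 10]⟩, ⟨p023_k33, nat_lit 0, nat_lit 0, nat_lit 89, nat_lit 0, nat_lit 0, [nat_lit 2032000000, nat_lit 3282000000, nat_lit 4688000000], [], [nat_lit 21322225358, nat_lit 21421492435, nat_lit 21489105591, nat_lit 21588219144], nat_lit 0, nat_lit 0, nat_lit 0, nat_lit 0, nat_lit 0, nat_lit 0, [], [nat_lit 78, nat_lit 40, nat_lit 80, nat_lit 80, nat_lit 22, nat_lit 203, nat_lit 0, nat_lit 8]⟩,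
 zbF0, []⟩
noncomputable def p023_l152 : Lf2 := ⟨nat_lit 0, nat_lit 2, [nat_lit 10, nat_lit 5, nat_lit 5, nat_lit 20], false, nat_lit 0, nat_lit 0, nat_lit 0, nat_lit 0, ⟨nat_lit 1000, nat_lit 0, nat_lit 0, nat_lit 0, nat_lit 0, nat_lit 0, nat_lit 0, nat_lit 0, nat_lit 0, nat_lit 0, nat_lit 0, nat_lit 0, nat_lit 0, nat_lit 0, nat_lit 0, nat_lit 0, false, false⟩,
 nat_lit 0, nat_lit 8739, nat_lit 0, nat_lit 0, nat_lit 6554, nat_lit 4008, nat_lit 0, nat_lit 0, nat_lit 0, nat_lit 0, nat_lit 0, nat_lit 0, nat_lit 0, nat_lit 0, nat_lit 0, nat_lit 0, nat_lit 0, nat_lit 0, [],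
 ⟨p023_k31, nat_lit 0, nat_lit 0, nat_lit 647, nat_lit 0, nat_lit 1488578, [nat_lit 2032000001, nat_lit 4688000000], [], [nat_lit 36062680424, nat_lit 36089765533, nat_lit 36126119243, nat_lit 36154930384], nat_lit 1271250, nat_lit 1271250, nat_lit 1271250, nat_lit 1271250, nat_lit 0, nat_lit 0, [nat_lit 490000, nat_lit 1100000], [nat_lit 24, nat_lit 40, nat_lit 80, nat_lit 80, nat_lit 33, nat_lit 231, nat_lit 0, nat_lit 10]⟩, ⟨p023_k31, nat_lit 0, nat_lit 0, nat_lit 89, nat_lit 0, nat_lit 0, [nat_lit 2032000000, nat_lit 4688000000], [], [nat_lit 23435081889, nat_lit 23510071350, nat_lit 23729284528, nat_lit 23807482150], nat_lit 0, nat_lit 0, nat_lit 0, nat_lit 0, nat_lit 0, nat_lit 0, [], [nat_lit 24, nat_lit 40, nat_lit 80, nat_lit 80, nat_lit 33, nat_lit 203, nat_lit 0, nat_lit 8]⟩,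
 zbF0, []⟩
noncomputable def p023_l153 : Lf2 := ⟨nat_lit 0, nat_lit 2, [nat_lit 10, nat_lit 5, nat_lit 5, nat_lit 20], false, nat_lit 0, nat_lit 0, nat_lit 0, nat_lit 0, ⟨nat_lit 1000, nat_lit 0, nat_lit 0, nat_lit 0, nat_lit 0, nat_lit 0, nat_lit 0, nat_lit 0, nat_lit 0, nat_lit 0, nat_lit 0, nat_lit 0, nat_lit 0, nat_lit 0, nat_lit 0, nat_lit 0, false, false⟩,
 nat_lit 0, nat_lit 8716, nat_lit 0, nat_lit 0, nat_lit 6537, nat_lit 4000, nat_lit 0, nat_lit 0, nat_lit 0, nat_lit 0, nat_lit 0, nat_lit 0, nat_lit 0, nat_lit 0, nat_lit 0, nat_lit 0, nat_lit 0, nat_lit 0, [],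
 ⟨p023_k31, nat_lit 0, nat_lit 0, nat_lit 646, nat_lit 0, nat_lit 1488578, [nat_lit 2032000001, nat_lit 4688000000], [], [nat_lit 36228498555, nat_lit 36255146568, nat_lit 36292350828, nat_lit 36320689012], nat_lit 1271250, nat_lit 1271250, nat_lit 1271250, nat_lit 1271250, nat_lit 0, nat_lit 0, [nat_lit 490000, nat_lit 1100000], [nat_lit 24, nat_lit 40, nat_lit 80, nat_lit 80, nat_lit 33, nat_lit 232, nat_lit 0, nat_lit 10]⟩, ⟨p023_k31, nat_lit 0, nat_lit 0, nat_lit 89, nat_lit 0, nat_lit 0, [nat_lit 2032000000, nat_lit 4688000000], [], [nat_lit 23732920801, nat_lit 23806660201, nat_lit 24027072000, nat_lit 24103918900], nat_lit 0, nat_lit 0, nat_lit 0, nat_lit 0, nat_lit 0, nat_lit 0, [], [nat_lit 24, nat_lit 40, nat_lit 80, nat_lit 80, nat_lit 33, nat_lit 203, nat_lit 0, nat_lit 8]⟩,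
 zbF0, []⟩
noncomputable def p023_l154 : Lf2 := ⟨nat_lit 0, nat_lit 2, [nat_lit 10, nat_lit 5, nat_lit 5, nat_lit 20], true, nat_lit 0, nat_lit 0, nat_lit 0, nat_lit 0, ⟨nat_lit 0, nat_lit 1000, nat_lit 0, nat_lit 8, nat_lit 233, nat_lit 0, nat_lit 0, nat_lit 0, nat_lit 0, nat_lit 0, nat_lit 0, nat_lit 0, nat_lit 0, nat_lit 0, nat_lit 0, nat_lit 5000000, false, false⟩,
 nat_lit 0, nat_lit 0, nat_lit 0, nat_lit 0, nat_lit 0, nat_lit 0, nat_lit 0, nat_lit 0, nat_lit 344, nat_lit 0, nat_lit 0, nat_lit 0, nat_lit 0, nat_lit 13916776689954, nat_lit 0, nat_lit 400000, nat_lit 0, nat_lit 0, [(nat_lit 18, [(nat_lit 1, nat_lit 1000)])],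
 ⟨p023_k34, nat_lit 0, nat_lit 0, nat_lit 0, nat_lit 0, nat_lit 1496264, [nat_lit 1398133334, nat_lit 1966666666], [], [nat_lit 13025438352, nat_lit 13056555632, nat_lit 14348372538, nat_lit 14389022900], nat_lit 1271250, nat_lit 1271250, nat_lit 968401, nat_lit 1439500, nat_lit 0, nat_lit 0, [nat_lit 490000, nat_lit 1100000], [nat_lit 24, nat_lit 40, nat_lit 80, nat_lit 80]⟩, C1.Rw.none,
 ⟨nat_lit 4415, nat_lit 4445, ⟨.ofNat (nat_lit 534523), .ofNat (nat_lit 629451), .ofNat (nat_lit 536680), .ofNat (nat_lit 631609), .ofNat (nat_lit 534819), .ofNat (nat_lit 629506), .ofNat (nat_lit 536977), .ofNat (nat_lit 631665)⟩, ⟨.ofNat (nat_lit 0), .ofNat (nat_lit 0), .ofNat (nat_lit 0), .ofNat (nat_lit 0), .ofNat (nat_lit 0), .ofNat (nat_lit 0), .ofNat (nat_lit 0), .ofNat (nat_lit 0)⟩⟩, []⟩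
noncomputable def p023_l155 : Lf2 := ⟨nat_lit 0, nat_lit 2, [nat_lit 10, nat_lit 5, nat_lit 5, nat_lit 20], false, nat_lit 0, nat_lit 0, nat_lit 0, nat_lit 0, ⟨nat_lit 1000, nat_lit 0, nat_lit 0, nat_lit 0, nat_lit 0, nat_lit 0, nat_lit 0, nat_lit 0, nat_lit 0, nat_lit 0, nat_lit 0, nat_lit 0, nat_lit 0, nat_lit 0, nat_lit 0, nat_lit 0, false, false⟩,
 nat_lit 0, nat_lit 0, nat_lit 0, nat_lit 0, nat_lit 0, nat_lit 4038, nat_lit 0, nat_lit 0, nat_lit 460, nat_lit 0, nat_lit 0, nat_lit 0, nat_lit 0, nat_lit 391139511680016, nat_lit 0, nat_lit 0, nat_lit 0, nat_lit 0, [],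
 ⟨p023_k34, nat_lit 0, nat_lit 0, nat_lit 0, nat_lit 0, nat_lit 1496264, [nat_lit 2032000001, nat_lit 4688000000], [], [nat_lit 14782937880, nat_lit 14807532560, nat_lit 15940863700, nat_lit 15966659400], nat_lit 1271250, nat_lit 1271250, nat_lit 968401, nat_lit 1439500, nat_lit 0, nat_lit 0, [nat_lit 490000, nat_lit 1100000], [nat_lit 24, nat_lit 40, nat_lit 80, nat_lit 80]⟩, ⟨p023_k31, nat_lit 0, nat_lit 0, nat_lit 86, nat_lit 0, nat_lit 0, [nat_lit 2032000000, nat_lit 4688000000], [], [nat_lit 20852373604, nat_lit 21036394582, nat_lit 22535563736, nat_lit 22702544165], nat_lit 0, nat_lit 0, nat_lit 0, nat_lit 0, nat_lit 0, nat_lit 0, [], [nat_lit 24, nat_lit 40, nat_lit 80, nat_lit 80, nat_lit 33, nat_lit 260, nat_lit 50, nat_lit 12]⟩,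
 zbF0, [⟨nat_lit 0, nat_lit 83, nat_lit 82, nat_lit 100, nat_lit 348409223⟩]⟩
noncomputable def p023_l156 : Lf2 := ⟨nat_lit 0, nat_lit 2, [nat_lit 10, nat_lit 5, nat_lit 5, nat_lit 20], false, nat_lit 0, nat_lit 0, nat_lit 0, nat_lit 0, ⟨nat_lit 1000, nat_lit 0, nat_lit 0, nat_lit 0, nat_lit 0, nat_lit 0, nat_lit 0, nat_lit 0, nat_lit 0, nat_lit 0, nat_lit 0, nat_lit 0, nat_lit 0, nat_lit 0, nat_lit 0, nat_lit 0, false, false⟩,
 nat_lit 0, nat_lit 9948, nat_lit 0, nat_lit 0, nat_lit 7490, nat_lit 4025, nat_lit 2971, nat_lit 0, nat_lit 0, nat_lit 1136, nat_lit 0, nat_lit 0, nat_lit 0, nat_lit 0, nat_lit 0, nat_lit 0, nat_lit 0, nat_lit 0, [],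
 ⟨p023_k37, nat_lit 0, nat_lit 0, nat_lit 665, nat_lit 0, nat_lit 1496264, [nat_lit 2032000001, nat_lit 3282000000, nat_lit 4688000000], [], [nat_lit 18140980352, nat_lit 18184620959, nat_lit 18785641910, nat_lit 18832292339], nat_lit 1271250, nat_lit 1271250, nat_lit 968401, nat_lit 1439500, nat_lit 0, nat_lit 0, [nat_lit 490000, nat_lit 780000, nat_lit 1100000], [nat_lit 78, nat_lit 40, nat_lit 80, nat_lit 80, nat_lit 22, nat_lit 260, nat_lit 50, nat_lit 12]⟩, ⟨p023_k33, nat_lit 0, nat_lit 0, nat_lit 87, nat_lit 0, nat_lit 0, [nat_lit 2032000000, nat_lit 3282000000, nat_lit 4688000000], [], [nat_lit 18679215160, nat_lit 18852583577, nat_lit 20433291350, nat_lit 20610487118], nat_lit 0, nat_lit 0, nat_lit 0, nat_lit 0, nat_lit 0, nat_lit 0, [], [nat_lit 78, nat_lit 40, nat_lit 80, nat_lit 80, nat_lit 22, nat_lit 260, nat_lit 50, nat_lit 12]⟩,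
 zbF0, [⟨nat_lit 0, nat_lit 82, nat_lit 82, nat_lit 100, nat_lit 409864191⟩]⟩
noncomputable def p023_l157 : Lf2 := ⟨nat_lit 0, nat_lit 2, [nat_lit 10, nat_lit 5, nat_lit 5, nat_lit 20], false, nat_lit 0, nat_lit 0, nat_lit 0, nat_lit 0, ⟨nat_lit 1000, nat_lit 0, nat_lit 0, nat_lit 0, nat_lit 0, nat_lit 0, nat_lit 0, nat_lit 0, nat_lit 0, nat_lit 0, nat_lit 0, nat_lit 0, nat_lit 0, nat_lit 0, nat_lit 0, nat_lit 0, false, false⟩,
 nat_lit 0, nat_lit 8768, nat_lit 0, nat_lit 0, nat_lit 6601, nat_lit 4026, nat_lit 14489, nat_lit 0, nat_lit 0, nat_lit 0, nat_lit 0, nat_lit 0, nat_lit 0, nat_lit 38111835589657, nat_lit 0, nat_lit 0, nat_lit 0, nat_lit 0, [],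
 ⟨p023_k34, nat_lit 0, nat_lit 0, nat_lit 652, nat_lit 0, nat_lit 1496264, [nat_lit 2032000001, nat_lit 4688000000], [], [nat_lit 23667889573, nat_lit 23696290961, nat_lit 25421858246, nat_lit 25543852012], nat_lit 1271250, nat_lit 1271250, nat_lit 1271250, nat_lit 1271250, nat_lit 0, nat_lit 0, [nat_lit 490000, nat_lit 1100000], [nat_lit 24, nat_lit 40, nat_lit 80, nat_lit 80, nat_lit 33, nat_lit 234, nat_lit 0, nat_lit 10]⟩, ⟨p023_k31, nat_lit 0, nat_lit 0, nat_lit 90, nat_lit 0, nat_lit 0, [nat_lit 2032000000, nat_lit 4688000000], [], [nat_lit 22544400872, nat_lit 22701796430, nat_lit 24031559080, nat_lit 24185777144], nat_lit 0, nat_lit 0, nat_lit 0, nat_lit 0, nat_lit 0, nat_lit 0, [], [nat_lit 24, nat_lit 40, nat_lit 80, nat_lit 80, nat_lit 33, nat_lit 203, nat_lit 0, nat_lit 8]⟩,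
 zbF0, []⟩
noncomputable def p023_l158 : Lf2 := ⟨nat_lit 0, nat_lit 2, [nat_lit 10, nat_lit 5, nat_lit 5, nat_lit 20], false, nat_lit 0, nat_lit 0, nat_lit 0, nat_lit 0, ⟨nat_lit 1000, nat_lit 0, nat_lit 0, nat_lit 0, nat_lit 0, nat_lit 0, nat_lit 0, nat_lit 0, nat_lit 0, nat_lit 0, nat_lit 0, nat_lit 0, nat_lit 0, nat_lit 0, nat_lit 0, nat_lit 0, false, false⟩,
 nat_lit 0, nat_lit 7709, nat_lit 0, nat_lit 0, nat_lit 5826, nat_lit 4018, nat_lit 10786, nat_lit 0, nat_lit 0, nat_lit 0, nat_lit 0, nat_lit 0, nat_lit 0, nat_lit 0, nat_lit 0, nat_lit 0, nat_lit 0, nat_lit 0, [],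
 ⟨p023_k32, nat_lit 0, nat_lit 0, nat_lit 665, nat_lit 0, nat_lit 1503945, [nat_lit 2032000001, nat_lit 4688000000], [], [nat_lit 20945435482, nat_lit 20982280986, nat_lit 24380444177, nat_lit 24492870025], nat_lit 1271250, nat_lit 1271250, nat_lit 968401, nat_lit 1776000, nat_lit 0, nat_lit 0, [nat_lit 490000, nat_lit 1100000], [nat_lit 24, nat_lit 40, nat_lit 80, nat_lit 80, nat_lit 33, nat_lit 272, nat_lit 60, nat_lit 12]⟩, ⟨p023_k31, nat_lit 0, nat_lit 0, nat_lit 90, nat_lit 0, nat_lit 0, [nat_lit 2032000000, nat_lit 4688000000], [], [nat_lit 20867899076, nat_lit 21127300003, nat_lit 24030178440, nat_lit 24261263569], nat_lit 0, nat_lit 0, nat_lit 0, nat_lit 0, nat_lit 0, nat_lit 0, [], [nat_lit 24, nat_lit 40, nat_lit 80, nat_lit 80, nat_lit 33, nat_lit 272, nat_lit 60, nat_lit 12]⟩,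
 zbF0, [⟨nat_lit 0, nat_lit 81, nat_lit 81, nat_lit 100, nat_lit 200291958⟩]⟩
noncomputable def b_N_800_800_0_9 : St := ⟨false, nat_lit 1, nat_lit 0, nat_lit 2, nat_lit 40, nat_lit 320, nat_lit 323, nat_lit 320, nat_lit 323, nat_lit 140, nat_lit 240, nat_lit 0, nat_lit 0, nat_lit 0, nat_lit 0, nat_lit 0, nat_lit 0, nat_lit 0, nat_lit 8, nat_lit 0, nat_lit 0, nat_lit 0, nat_lit 0⟩
theorem d_N_800_800_0_9 (h : EB TB.env) : Dead b_N_800_800_0_9 := chkB_sound0 h (T :=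
(.spl (nat_lit 6) (nat_lit 4)
(.leaf p023_l142)
(.spl (nat_lit 0) (nat_lit 322)
(.ord (.spl (nat_lit 0) (nat_lit 321)
(.ord (.spl (nat_lit 2) (nat_lit 200)
(.spl (nat_lit 7) (nat_lit 600)
(.leaf p023_l143)
(.spl (nat_lit 7) (nat_lit 900)
(.leaf p023_l144)
(.leaf p023_l145)))
(.spl (nat_lit 2) (nat_lit 220)
(.spl (nat_lit 7) (nat_lit 600)
(.leaf p023_l146)
(.spl (nat_lit 7) (nat_lit 900)
(.leaf p023_l147)
(.leaf p023_l148)))
(.spl (nat_lit 2) (nat_lit 232)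
(.spl (nat_lit 2) (nat_lit 224)
(.spl (nat_lit 7) (nat_lit 600)
(.leaf p023_l149)
(.spl (nat_lit 7) (nat_lit 900)
(.leaf p023_l150)
(.leaf p023_l151)))
(.leaf p023_l152))
(.leaf p023_l153)))))
(.trZ (nat_lit 0) (nat_lit 83) (nat_lit 83) (nat_lit 100) (nat_lit 144) (.spl (nat_lit 2) (nat_lit 200)
(.spl (nat_lit 7) (nat_lit 600)
(.leaf p023_l154)
(.spl (nat_lit 7) (nat_lit 900)
(.leaf p023_l155)
(.leaf p023_l156)))
(.leaf p023_l157)))))
(.trZ (nat_lit 0) (nat_lit 83) (nat_lit 82) (nat_lit 100) (nat_lit 144) (.leaf p023_l158))))) (by decide +kernel)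
noncomputable def p023_l159 : Lf2 := ⟨nat_lit 0, nat_lit 3, [nat_lit 45, nat_lit 5, nat_lit 5, nat_lit 20], true, nat_lit 0, nat_lit 0, nat_lit 0, nat_lit 0, ⟨nat_lit 0, nat_lit 1000, nat_lit 0, nat_lit 8, nat_lit 232, nat_lit 0, nat_lit 0, nat_lit 0, nat_lit 0, nat_lit 0, nat_lit 0, nat_lit 0, nat_lit 0, nat_lit 0, nat_lit 0, nat_lit 5000000, false, false⟩,
 nat_lit 0, nat_lit 0, nat_lit 0, nat_lit 0, nat_lit 0, nat_lit 0, nat_lit 0, nat_lit 0, nat_lit 344, nat_lit 0, nat_lit 0, nat_lit 0, nat_lit 0, nat_lit 9275257864831, nat_lit 0, nat_lit 400000, nat_lit 0, nat_lit 0, [(nat_lit 18, [(nat_lit 1, nat_lit 1000)])],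
 ⟨p023_k0, nat_lit 0, nat_lit 0, nat_lit 0, nat_lit 0, nat_lit 1455890, [nat_lit 1398133334, nat_lit 1966666666], [], [nat_lit 12906179672, nat_lit 12968604022, nat_lit 14318572672, nat_lit 14389022900], nat_lit 1271250, nat_lit 1271250, nat_lit 936251, nat_lit 1438750, nat_lit 0, nat_lit 0, [nat_lit 490000, nat_lit 1100000], [nat_lit 24, nat_lit 40, nat_lit 80, nat_lit 80]⟩, C1.Rw.none,
 ⟨nat_lit 4415, nat_lit 4473, ⟨.ofNat (nat_lit 527429), .ofNat (nat_lit 629397), .ofNat (nat_lit 529586), .ofNat (nat_lit 631553), .ofNat (nat_lit 528055), .ofNat (nat_lit 629506), .ofNat (nat_lit 530213), .ofNat (nat_lit 631664)⟩, ⟨.ofNat (nat_lit 0), .ofNat (nat_lit 0), .ofNat (nat_lit 0), .ofNat (nat_lit 0), .ofNat (nat_lit 0), .ofNat (nat_lit 0), .ofNat (nat_lit 0), .ofNat (nat_lit 0)⟩⟩, []⟩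
noncomputable def p023_l160 : Lf2 := ⟨nat_lit 0, nat_lit 3, [nat_lit 45, nat_lit 5, nat_lit 5, nat_lit 20], false, nat_lit 0, nat_lit 0, nat_lit 0, nat_lit 0, ⟨nat_lit 1000, nat_lit 0, nat_lit 0, nat_lit 0, nat_lit 0, nat_lit 0, nat_lit 0, nat_lit 0, nat_lit 0, nat_lit 0, nat_lit 0, nat_lit 0, nat_lit 0, nat_lit 0, nat_lit 0, nat_lit 0, false, false⟩,
 nat_lit 0, nat_lit 0, nat_lit 0, nat_lit 0, nat_lit 0, nat_lit 6093, nat_lit 0, nat_lit 0, nat_lit 461, nat_lit 0, nat_lit 0, nat_lit 0, nat_lit 0, nat_lit 354303180205064, nat_lit 0, nat_lit 0, nat_lit 0, nat_lit 0, [],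
 ⟨p023_k0, nat_lit 0, nat_lit 0, nat_lit 0, nat_lit 0, nat_lit 1455890, [nat_lit 2032000001, nat_lit 4688000000], [], [nat_lit 14589215000, nat_lit 14642027250, nat_lit 15835068000, nat_lit 15886659400], nat_lit 1271250, nat_lit 1271250, nat_lit 936251, nat_lit 1438750, nat_lit 0, nat_lit 0, [nat_lit 490000, nat_lit 1100000], [nat_lit 24, nat_lit 40, nat_lit 80, nat_lit 80]⟩, ⟨p023_k0, nat_lit 0, nat_lit 0, nat_lit 86, nat_lit 0, nat_lit 0, [nat_lit 2032000000, nat_lit 4688000000], [], [nat_lit 20954920338, nat_lit 21222488644, nat_lit 22720282930, nat_lit 22972905277], nat_lit 0, nat_lit 0, nat_lit 0, nat_lit 0, nat_lit 0, nat_lit 0, [], [nat_lit 24, nat_lit 40, nat_lit 80, nat_lit 80, nat_lit 33, nat_lit 260, nat_lit 50, nat_lit 12]⟩,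
 zbF0, [⟨nat_lit 0, nat_lit 83, nat_lit 83, nat_lit 100, nat_lit 351287223⟩]⟩
noncomputable def p023_l161 : Lf2 := ⟨nat_lit 0, nat_lit 3, [nat_lit 45, nat_lit 5, nat_lit 5, nat_lit 20], false, nat_lit 0, nat_lit 0, nat_lit 0, nat_lit 0, ⟨nat_lit 1000, nat_lit 0, nat_lit 0, nat_lit 0, nat_lit 0, nat_lit 0, nat_lit 0, nat_lit 0, nat_lit 0, nat_lit 0, nat_lit 0, nat_lit 0, nat_lit 0, nat_lit 0, nat_lit 0, nat_lit 0, false, false⟩,
 nat_lit 0, nat_lit 9880, nat_lit 0, nat_lit 0, nat_lit 7410, nat_lit 4015, nat_lit 820, nat_lit 0, nat_lit 0, nat_lit 1137, nat_lit 0, nat_lit 0, nat_lit 0, nat_lit 0, nat_lit 0, nat_lit 0, nat_lit 0, nat_lit 0, [],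
 ⟨p023_k1, nat_lit 0, nat_lit 0, nat_lit 650, nat_lit 0, nat_lit 1455890, [nat_lit 2032000001, nat_lit 3282000000, nat_lit 4688000000], [], [nat_lit 19873723501, nat_lit 19968519486, nat_lit 20529489320, nat_lit 20622284651], nat_lit 1271250, nat_lit 1271250, nat_lit 936251, nat_lit 1438750, nat_lit 0, nat_lit 0, [nat_lit 490000, nat_lit 780000, nat_lit 1100000], [nat_lit 78, nat_lit 40, nat_lit 80, nat_lit 80, nat_lit 22, nat_lit 260, nat_lit 50, nat_lit 12]⟩, ⟨p023_k1, nat_lit 0, nat_lit 0, nat_lit 87, nat_lit 0, nat_lit 0, [nat_lit 2032000000, nat_lit 3282000000, nat_lit 4688000000], [], [nat_lit 18630225750, nat_lit 18804075497, nat_lit 20431602810, nat_lit 20608554511], nat_lit 0, nat_lit 0, nat_lit 0, nat_lit 0, nat_lit 0, nat_lit 0, [], [nat_lit 78, nat_lit 40, nat_lit 80, nat_lit 80, nat_lit 22, nat_lit 260, nat_lit 50, nat_lit 12]⟩,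
 zbF0, [⟨nat_lit 0, nat_lit 82, nat_lit 82, nat_lit 100, nat_lit 426436843⟩]⟩
noncomputable def p023_l162 : Lf2 := ⟨nat_lit 0, nat_lit 4, [nat_lit 38, nat_lit 5, nat_lit 5, nat_lit 20], true, nat_lit 0, nat_lit 0, nat_lit 0, nat_lit 0, ⟨nat_lit 0, nat_lit 1000, nat_lit 0, nat_lit 8, nat_lit 218, nat_lit 0, nat_lit 0, nat_lit 0, nat_lit 0, nat_lit 0, nat_lit 0, nat_lit 0, nat_lit 0, nat_lit 0, nat_lit 0, nat_lit 5000000, false, false⟩,
 nat_lit 0, nat_lit 0, nat_lit 0, nat_lit 0, nat_lit 0, nat_lit 0, nat_lit 0, nat_lit 0, nat_lit 348, nat_lit 0, nat_lit 0, nat_lit 0, nat_lit 0, nat_lit 9663766065439, nat_lit 0, nat_lit 400000, nat_lit 0, nat_lit 0, [(nat_lit 18, [(nat_lit 1, nat_lit 1000)])],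
 ⟨p023_k3, nat_lit 0, nat_lit 0, nat_lit 0, nat_lit 0, nat_lit 1411126, [nat_lit 1398133334, nat_lit 1966666666], [], [nat_lit 12650179672, nat_lit 12712604022, nat_lit 13090886672, nat_lit 13152362072], nat_lit 1271250, nat_lit 1271250, nat_lit 936251, nat_lit 1100001, nat_lit 0, nat_lit 0, [nat_lit 490000, nat_lit 1100000], [nat_lit 24, nat_lit 40, nat_lit 80, nat_lit 80]⟩, C1.Rw.none,
 ⟨nat_lit 4415, nat_lit 4473, ⟨.ofNat (nat_lit 527429), .ofNat (nat_lit 561419), .ofNat (nat_lit 529586), .ofNat (nat_lit 563575), .ofNat (nat_lit 528055), .ofNat (nat_lit 561872), .ofNat (nat_lit 530213), .ofNat (nat_lit 564030)⟩, ⟨.ofNat (nat_lit 0), .ofNat (nat_lit 0), .ofNat (nat_lit 0), .ofNat (nat_lit 0), .ofNat (nat_lit 0), .ofNat (nat_lit 0), .ofNat (nat_lit 0), .ofNat (nat_lit 0)⟩⟩, []⟩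
noncomputable def p023_l163 : Lf2 := ⟨nat_lit 0, nat_lit 4, [nat_lit 38, nat_lit 5, nat_lit 5, nat_lit 20], false, nat_lit 0, nat_lit 0, nat_lit 0, nat_lit 0, ⟨nat_lit 1000, nat_lit 0, nat_lit 0, nat_lit 0, nat_lit 0, nat_lit 0, nat_lit 0, nat_lit 0, nat_lit 0, nat_lit 0, nat_lit 0, nat_lit 0, nat_lit 0, nat_lit 0, nat_lit 0, nat_lit 0, false, false⟩,
 nat_lit 0, nat_lit 0, nat_lit 0, nat_lit 0, nat_lit 0, nat_lit 4078, nat_lit 0, nat_lit 0, nat_lit 461, nat_lit 0, nat_lit 0, nat_lit 0, nat_lit 0, nat_lit 369431251277720, nat_lit 0, nat_lit 0, nat_lit 0, nat_lit 0, [],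
 ⟨p023_k3, nat_lit 0, nat_lit 0, nat_lit 0, nat_lit 0, nat_lit 1411126, [nat_lit 2032000001, nat_lit 4688000000], [], [nat_lit 14589215000, nat_lit 14642027250, nat_lit 14977912000, nat_lit 15031020800], nat_lit 1271250, nat_lit 1271250, nat_lit 936251, nat_lit 1100001, nat_lit 0, nat_lit 0, [nat_lit 490000, nat_lit 1100000], [nat_lit 24, nat_lit 40, nat_lit 80, nat_lit 80]⟩, ⟨p023_k3, nat_lit 0, nat_lit 0, nat_lit 85, nat_lit 0, nat_lit 0, [nat_lit 2032000000, nat_lit 4688000000], [], [nat_lit 20808901348, nat_lit 20995176520, nat_lit 21037960296, nat_lit 21218292001], nat_lit 0, nat_lit 0, nat_lit 0, nat_lit 0, nat_lit 0, nat_lit 0, [], [nat_lit 24, nat_lit 40, nat_lit 80, nat_lit 80, nat_lit 33, nat_lit 249, nat_lit 40, nat_lit 11]⟩,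
 zbF0, [⟨nat_lit 0, nat_lit 83, nat_lit 83, nat_lit 100, nat_lit 509136823⟩]⟩
noncomputable def p023_l164 : Lf2 := ⟨nat_lit 0, nat_lit 4, [nat_lit 38, nat_lit 5, nat_lit 5, nat_lit 20], false, nat_lit 0, nat_lit 0, nat_lit 0, nat_lit 0, ⟨nat_lit 1000, nat_lit 0, nat_lit 0, nat_lit 0, nat_lit 0, nat_lit 0, nat_lit 0, nat_lit 0, nat_lit 0, nat_lit 0, nat_lit 0, nat_lit 0, nat_lit 0, nat_lit 0, nat_lit 0, nat_lit 0, false, false⟩,
 nat_lit 0, nat_lit 11765, nat_lit 0, nat_lit 0, nat_lit 8823, nat_lit 4054, nat_lit 749, nat_lit 0, nat_lit 0, nat_lit 1136, nat_lit 0, nat_lit 0, nat_lit 0, nat_lit 0, nat_lit 0, nat_lit 0, nat_lit 0, nat_lit 0, [],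
 ⟨p023_k4, nat_lit 0, nat_lit 0, nat_lit 624, nat_lit 0, nat_lit 1411126, [nat_lit 2032000001, nat_lit 3282000000, nat_lit 4688000000], [], [nat_lit 11981560050, nat_lit 12087669916, nat_lit 11897360029, nat_lit 12000115475], nat_lit 1271250, nat_lit 1271250, nat_lit 936251, nat_lit 1100001, nat_lit 0, nat_lit 0, [nat_lit 490000, nat_lit 780000, nat_lit 1100000], [nat_lit 78, nat_lit 40, nat_lit 80, nat_lit 80, nat_lit 22, nat_lit 249, nat_lit 40, nat_lit 11]⟩, ⟨p023_k4, nat_lit 0, nat_lit 0, nat_lit 86, nat_lit 0, nat_lit 0, [nat_lit 2032000000, nat_lit 3282000000, nat_lit 4688000000], [], [nat_lit 18623912164, nat_lit 18810238092, nat_lit 18874363128, nat_lit 19044178402], nat_lit 0, nat_lit 0, nat_lit 0, nat_lit 0, nat_lit 0, nat_lit 0, [], [nat_lit 78, nat_lit 40, nat_lit 80, nat_lit 80, nat_lit 22, nat_lit 249, nat_lit 40, nat_lit 11]⟩,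
 zbF0, [⟨nat_lit 0, nat_lit 82, nat_lit 82, nat_lit 100, nat_lit 694922310⟩]⟩
noncomputable def p023_l165 : Lf2 := ⟨nat_lit 0, nat_lit 4, [nat_lit 38, nat_lit 5, nat_lit 5, nat_lit 20], true, nat_lit 0, nat_lit 0, nat_lit 0, nat_lit 0, ⟨nat_lit 0, nat_lit 1000, nat_lit 0, nat_lit 8, nat_lit 239, nat_lit 0, nat_lit 0, nat_lit 0, nat_lit 0, nat_lit 0, nat_lit 0, nat_lit 0, nat_lit 0, nat_lit 0, nat_lit 0, nat_lit 5000000, true, false⟩,
 nat_lit 0, nat_lit 0, nat_lit 0, nat_lit 0, nat_lit 0, nat_lit 0, nat_lit 0, nat_lit 0, nat_lit 348, nat_lit 0, nat_lit 0, nat_lit 0, nat_lit 0, nat_lit 9701030565440, nat_lit 0, nat_lit 400000, nat_lit 0, nat_lit 0, [(nat_lit 18, [(nat_lit 1, nat_lit 1000)])],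
 ⟨p023_k3, nat_lit 0, nat_lit 0, nat_lit 0, nat_lit 0, nat_lit 1411126, [nat_lit 1398133334, nat_lit 1966666666], [], [nat_lit 13090886672, nat_lit 13152362072, nat_lit 14304170000, nat_lit 14389022900], nat_lit 1271250, nat_lit 1271250, nat_lit 1100001, nat_lit 1442500, nat_lit 0, nat_lit 0, [nat_lit 490000, nat_lit 1100000], [nat_lit 24, nat_lit 40, nat_lit 80, nat_lit 80]⟩, C1.Rw.none,
 ⟨nat_lit 4415, nat_lit 4473, ⟨.ofNat (nat_lit 561419), .ofNat (nat_lit 629397), .ofNat (nat_lit 563575), .ofNat (nat_lit 631553), .ofNat (nat_lit 561872), .ofNat (nat_lit 629506), .ofNat (nat_lit 564030), .ofNat (nat_lit 631664)⟩, ⟨.ofNat (nat_lit 0), .ofNat (nat_lit 0), .ofNat (nat_lit 0), .ofNat (nat_lit 0), .ofNat (nat_lit 0), .ofNat (nat_lit 0), .ofNat (nat_lit 0), .ofNat (nat_lit 0)⟩⟩, []⟩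
noncomputable def p023_l166 : Lf2 := ⟨nat_lit 0, nat_lit 4, [nat_lit 38, nat_lit 5, nat_lit 5, nat_lit 20], false, nat_lit 0, nat_lit 0, nat_lit 0, nat_lit 0, ⟨nat_lit 1000, nat_lit 0, nat_lit 0, nat_lit 0, nat_lit 0, nat_lit 0, nat_lit 0, nat_lit 0, nat_lit 0, nat_lit 0, nat_lit 0, nat_lit 0, nat_lit 0, nat_lit 0, nat_lit 0, nat_lit 0, false, false⟩,
 nat_lit 0, nat_lit 0, nat_lit 0, nat_lit 0, nat_lit 0, nat_lit 986, nat_lit 0, nat_lit 0, nat_lit 469, nat_lit 0, nat_lit 0, nat_lit 0, nat_lit 0, nat_lit 400000000000000, nat_lit 0, nat_lit 0, nat_lit 0, nat_lit 0, [],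
 ⟨p023_k3, nat_lit 0, nat_lit 0, nat_lit 0, nat_lit 0, nat_lit 1395614, [nat_lit 2032000001, nat_lit 4688000000], [], [nat_lit 14341444000, nat_lit 14370563600, nat_lit 14433798000, nat_lit 14462827045], nat_lit 1271250, nat_lit 1271250, nat_lit 1100001, nat_lit 1133651, nat_lit 0, nat_lit 0, [nat_lit 490000, nat_lit 1100000], [nat_lit 24, nat_lit 40, nat_lit 80, nat_lit 80]⟩, ⟨p023_k3, nat_lit 0, nat_lit 0, nat_lit 82, nat_lit 0, nat_lit 0, [nat_lit 2032000000, nat_lit 4688000000], [], [nat_lit 23569900152, nat_lit 23619313484, nat_lit 23691224336, nat_lit 23740381378], nat_lit 0, nat_lit 0, nat_lit 0, nat_lit 0, nat_lit 0, nat_lit 0, [], [nat_lit 24, nat_lit 40, nat_lit 80, nat_lit 80, nat_lit 33, nat_lit 203, nat_lit 0, nat_lit 9]⟩,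
 zbF0, []⟩
noncomputable def p023_l167 : Lf2 := ⟨nat_lit 0, nat_lit 4, [nat_lit 38, nat_lit 5, nat_lit 5, nat_lit 20], false, nat_lit 0, nat_lit 0, nat_lit 0, nat_lit 0, ⟨nat_lit 1000, nat_lit 0, nat_lit 0, nat_lit 0, nat_lit 0, nat_lit 0, nat_lit 0, nat_lit 0, nat_lit 0, nat_lit 0, nat_lit 0, nat_lit 0, nat_lit 0, nat_lit 0, nat_lit 0, nat_lit 0, false, false⟩,
 nat_lit 0, nat_lit 11784, nat_lit 0, nat_lit 0, nat_lit 8838, nat_lit 4072, nat_lit 750, nat_lit 0, nat_lit 0, nat_lit 1133, nat_lit 0, nat_lit 0, nat_lit 0, nat_lit 50818235252960, nat_lit 0, nat_lit 0, nat_lit 0, nat_lit 0, [],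
 ⟨p023_k4, nat_lit 0, nat_lit 0, nat_lit 610, nat_lit 0, nat_lit 1395614, [nat_lit 2032000001, nat_lit 3282000000, nat_lit 4688000000], [], [nat_lit 11809493374, nat_lit 11860919282, nat_lit 11877680548, nat_lit 11945206601], nat_lit 1271250, nat_lit 1271250, nat_lit 1100001, nat_lit 1133651, nat_lit 0, nat_lit 0, [nat_lit 490000, nat_lit 780000, nat_lit 1100000], [nat_lit 78, nat_lit 40, nat_lit 80, nat_lit 80, nat_lit 22, nat_lit 214, nat_lit 0, nat_lit 9]⟩, ⟨p023_k4, nat_lit 0, nat_lit 0, nat_lit 82, nat_lit 0, nat_lit 0, [nat_lit 2032000000, nat_lit 3282000000, nat_lit 4688000000], [], [nat_lit 18865389129, nat_lit 18950505012, nat_lit 19012428644, nat_lit 19107826297], nat_lit 0, nat_lit 0, nat_lit 0, nat_lit 0, nat_lit 0, nat_lit 0, [], [nat_lit 78, nat_lit 40, nat_lit 80, nat_lit 80, nat_lit 22, nat_lit 203, nat_lit 0, nat_lit 9]⟩,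
 zbF0, []⟩
noncomputable def p023_l168 : Lf2 := ⟨nat_lit 0, nat_lit 4, [nat_lit 38, nat_lit 5, nat_lit 5, nat_lit 20], false, nat_lit 0, nat_lit 0, nat_lit 0, nat_lit 0, ⟨nat_lit 1000, nat_lit 0, nat_lit 0, nat_lit 0, nat_lit 0, nat_lit 0, nat_lit 0, nat_lit 0, nat_lit 0, nat_lit 0, nat_lit 0, nat_lit 0, nat_lit 0, nat_lit 0, nat_lit 0, nat_lit 0, false, false⟩,
 nat_lit 0, nat_lit 0, nat_lit 0, nat_lit 0, nat_lit 0, nat_lit 745, nat_lit 0, nat_lit 0, nat_lit 468, nat_lit 0, nat_lit 0, nat_lit 0, nat_lit 0, nat_lit 400000000000000, nat_lit 0, nat_lit 0, nat_lit 0, nat_lit 0, [],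
 ⟨p023_k3, nat_lit 0, nat_lit 0, nat_lit 0, nat_lit 0, nat_lit 1395614, [nat_lit 2032000001, nat_lit 4688000000], [], [nat_lit 14503627600, nat_lit 14530106130, nat_lit 14590152000, nat_lit 14619090490], nat_lit 1271250, nat_lit 1271250, nat_lit 1133651, nat_lit 1167600, nat_lit 0, nat_lit 0, [nat_lit 490000, nat_lit 1100000], [nat_lit 24, nat_lit 40, nat_lit 80, nat_lit 80]⟩, ⟨p023_k3, nat_lit 0, nat_lit 0, nat_lit 82, nat_lit 0, nat_lit 0, [nat_lit 2032000000, nat_lit 4688000000], [], [nat_lit 23886584720, nat_lit 23932979929, nat_lit 24005922100, nat_lit 24052087363], nat_lit 0, nat_lit 0, nat_lit 0, nat_lit 0, nat_lit 0, nat_lit 0, [], [nat_lit 24, nat_lit 40, nat_lit 80, nat_lit 80, nat_lit 33, nat_lit 203, nat_lit 0, nat_lit 9]⟩,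
 zbF0, []⟩
noncomputable def p023_l169 : Lf2 := ⟨nat_lit 0, nat_lit 4, [nat_lit 38, nat_lit 5, nat_lit 5, nat_lit 20], false, nat_lit 0, nat_lit 0, nat_lit 0, nat_lit 0, ⟨nat_lit 1000, nat_lit 0, nat_lit 0, nat_lit 0, nat_lit 0, nat_lit 0, nat_lit 0, nat_lit 0, nat_lit 0, nat_lit 0, nat_lit 0, nat_lit 0, nat_lit 0, nat_lit 0, nat_lit 0, nat_lit 0, false, false⟩,
 nat_lit 0, nat_lit 11720, nat_lit 0, nat_lit 0, nat_lit 8790, nat_lit 4016, nat_lit 746, nat_lit 0, nat_lit 0, nat_lit 1152, nat_lit 0, nat_lit 0, nat_lit 0, nat_lit 67280713193730, nat_lit 0, nat_lit 0, nat_lit 0, nat_lit 0, [],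
 ⟨p023_k4, nat_lit 0, nat_lit 0, nat_lit 610, nat_lit 0, nat_lit 1395614, [nat_lit 2032000001, nat_lit 3282000000, nat_lit 4688000000], [], [nat_lit 12147270786, nat_lit 12198166962, nat_lit 12202514552, nat_lit 12256462553], nat_lit 1271250, nat_lit 1271250, nat_lit 1133651, nat_lit 1167600, nat_lit 0, nat_lit 0, [nat_lit 490000, nat_lit 780000, nat_lit 1100000], [nat_lit 78, nat_lit 40, nat_lit 80, nat_lit 80, nat_lit 22, nat_lit 214, nat_lit 0, nat_lit 9]⟩, ⟨p023_k4, nat_lit 0, nat_lit 0, nat_lit 83, nat_lit 0, nat_lit 0, [nat_lit 2032000000, nat_lit 3282000000, nat_lit 4688000000], [], [nat_lit 19021033616, nat_lit 19104914125, nat_lit 19167337120, nat_lit 19260004321], nat_lit 0, nat_lit 0, nat_lit 0, nat_lit 0, nat_lit 0, nat_lit 0, [], [nat_lit 78, nat_lit 40, nat_lit 80, nat_lit 80, nat_lit 22, nat_lit 203, nat_lit 0, nat_lit 9]⟩,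
 zbF0, []⟩
noncomputable def p023_l170 : Lf2 := ⟨nat_lit 0, nat_lit 4, [nat_lit 38, nat_lit 5, nat_lit 5, nat_lit 20], false, nat_lit 0, nat_lit 0, nat_lit 0, nat_lit 0, ⟨nat_lit 1000, nat_lit 0, nat_lit 0, nat_lit 0, nat_lit 0, nat_lit 0, nat_lit 0, nat_lit 0, nat_lit 0, nat_lit 0, nat_lit 0, nat_lit 0, nat_lit 0, nat_lit 0, nat_lit 0, nat_lit 0, false, false⟩,
 nat_lit 0, nat_lit 12806, nat_lit 0, nat_lit 0, nat_lit 9604, nat_lit 4064, nat_lit 0, nat_lit 0, nat_lit 0, nat_lit 0, nat_lit 0, nat_lit 0, nat_lit 0, nat_lit 0, nat_lit 0, nat_lit 0, nat_lit 0, nat_lit 0, [],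
 ⟨p023_k3, nat_lit 0, nat_lit 0, nat_lit 605, nat_lit 0, nat_lit 1395614, [nat_lit 2032000001, nat_lit 4688000000], [], [nat_lit 17894550594, nat_lit 17932414588, nat_lit 18155167808, nat_lit 18240261735], nat_lit 1271250, nat_lit 1271250, nat_lit 1167600, nat_lit 1271250, nat_lit 0, nat_lit 0, [nat_lit 490000, nat_lit 1100000], [nat_lit 24, nat_lit 40, nat_lit 80, nat_lit 80, nat_lit 33, nat_lit 214, nat_lit 0, nat_lit 9]⟩, ⟨p023_k3, nat_lit 0, nat_lit 0, nat_lit 83, nat_lit 0, nat_lit 0, [nat_lit 2032000000, nat_lit 4688000000], [], [nat_lit 21342822880, nat_lit 21426660718, nat_lit 21787420400, nat_lit 21874537574], nat_lit 0, nat_lit 0, nat_lit 0, nat_lit 0, nat_lit 0, nat_lit 0, [], [nat_lit 24, nat_lit 40, nat_lit 80, nat_lit 80, nat_lit 33, nat_lit 203, nat_lit 0, nat_lit 9]⟩,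
 zbF0, []⟩
noncomputable def p023_l171 : Lf2 := ⟨nat_lit 0, nat_lit 4, [nat_lit 38, nat_lit 5, nat_lit 5, nat_lit 20], false, nat_lit 0, nat_lit 0, nat_lit 0, nat_lit 0, ⟨nat_lit 1000, nat_lit 0, nat_lit 0, nat_lit 0, nat_lit 0, nat_lit 0, nat_lit 0, nat_lit 0, nat_lit 0, nat_lit 0, nat_lit 0, nat_lit 0, nat_lit 0, nat_lit 0, nat_lit 0, nat_lit 0, false, false⟩,
 nat_lit 0, nat_lit 12691, nat_lit 0, nat_lit 0, nat_lit 9518, nat_lit 4052, nat_lit 0, nat_lit 0, nat_lit 0, nat_lit 0, nat_lit 0, nat_lit 0, nat_lit 0, nat_lit 0, nat_lit 0, nat_lit 0, nat_lit 0, nat_lit 0, [],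
 ⟨p023_k3, nat_lit 0, nat_lit 0, nat_lit 603, nat_lit 0, nat_lit 1395614, [nat_lit 2032000001, nat_lit 4688000000], [], [nat_lit 18442394758, nat_lit 18479186813, nat_lit 18912621376, nat_lit 18993848307], nat_lit 1271250, nat_lit 1271250, nat_lit 1271250, nat_lit 1271250, nat_lit 0, nat_lit 0, [nat_lit 490000, nat_lit 1100000], [nat_lit 24, nat_lit 40, nat_lit 80, nat_lit 80, nat_lit 33, nat_lit 216, nat_lit 0, nat_lit 9]⟩, ⟨p023_k3, nat_lit 0, nat_lit 0, nat_lit 85, nat_lit 0, nat_lit 0, [nat_lit 2032000000, nat_lit 4688000000], [], [nat_lit 21792252304, nat_lit 21874179632, nat_lit 22536572520, nat_lit 22620346149], nat_lit 0, nat_lit 0, nat_lit 0, nat_lit 0, nat_lit 0, nat_lit 0, [], [nat_lit 24, nat_lit 40, nat_lit 80, nat_lit 80, nat_lit 33, nat_lit 203, nat_lit 0, nat_lit 9]⟩,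
 zbF0, []⟩
noncomputable def p023_l172 : Lf2 := ⟨nat_lit 0, nat_lit 4, [nat_lit 38, nat_lit 5, nat_lit 5, nat_lit 20], false, nat_lit 0, nat_lit 0, nat_lit 0, nat_lit 0, ⟨nat_lit 1000, nat_lit 0, nat_lit 0, nat_lit 0, nat_lit 0, nat_lit 0, nat_lit 0, nat_lit 0, nat_lit 0, nat_lit 0, nat_lit 0, nat_lit 0, nat_lit 0, nat_lit 0, nat_lit 0, nat_lit 0, false, false⟩,
 nat_lit 0, nat_lit 0, nat_lit 0, nat_lit 0, nat_lit 0, nat_lit 3381, nat_lit 0, nat_lit 0, nat_lit 468, nat_lit 0, nat_lit 0, nat_lit 0, nat_lit 0, nat_lit 400000000000000, nat_lit 0, nat_lit 0, nat_lit 0, nat_lit 0, [],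
 ⟨p023_k5, nat_lit 0, nat_lit 0, nat_lit 0, nat_lit 0, nat_lit 1403762, [nat_lit 2032000001, nat_lit 4688000000], [], [nat_lit 14444466400, nat_lit 14471020800, nat_lit 14619090490, nat_lit 14648028980], nat_lit 1271250, nat_lit 1271250, nat_lit 1100001, nat_lit 1167600, nat_lit 0, nat_lit 0, [nat_lit 490000, nat_lit 1100000], [nat_lit 24, nat_lit 40, nat_lit 80, nat_lit 80]⟩, ⟨p023_k3, nat_lit 0, nat_lit 0, nat_lit 83, nat_lit 0, nat_lit 0, [nat_lit 2032000000, nat_lit 4688000000], [], [nat_lit 21608711292, nat_lit 21762954423, nat_lit 21890848420, nat_lit 22043019202], nat_lit 0, nat_lit 0, nat_lit 0, nat_lit 0, nat_lit 0, nat_lit 0, [], [nat_lit 24, nat_lit 40, nat_lit 80, nat_lit 80, nat_lit 33, nat_lit 203, nat_lit 0, nat_lit 9]⟩,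
 zbF0, []⟩
noncomputable def p023_l173 : Lf2 := ⟨nat_lit 0, nat_lit 4, [nat_lit 38, nat_lit 5, nat_lit 5, nat_lit 20], false, nat_lit 0, nat_lit 0, nat_lit 0, nat_lit 0, ⟨nat_lit 1000, nat_lit 0, nat_lit 0, nat_lit 0, nat_lit 0, nat_lit 0, nat_lit 0, nat_lit 0, nat_lit 0, nat_lit 0, nat_lit 0, nat_lit 0, nat_lit 0, nat_lit 0, nat_lit 0, nat_lit 0, false, false⟩,
 nat_lit 0, nat_lit 11634, nat_lit 0, nat_lit 0, nat_lit 8759, nat_lit 4065, nat_lit 750, nat_lit 0, nat_lit 0, nat_lit 1130, nat_lit 0, nat_lit 0, nat_lit 0, nat_lit 0, nat_lit 0, nat_lit 0, nat_lit 0, nat_lit 0, [],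
 ⟨p023_k6, nat_lit 0, nat_lit 0, nat_lit 614, nat_lit 0, nat_lit 1403762, [nat_lit 2032000001, nat_lit 3282000000, nat_lit 4688000000], [], [nat_lit 11973464268, nat_lit 12024636404, nat_lit 12124676026, nat_lit 12191334871], nat_lit 1271250, nat_lit 1271250, nat_lit 1100001, nat_lit 1167600, nat_lit 0, nat_lit 0, [nat_lit 490000, nat_lit 780000, nat_lit 1100000], [nat_lit 78, nat_lit 40, nat_lit 80, nat_lit 80, nat_lit 22, nat_lit 215, nat_lit 0, nat_lit 9]⟩, ⟨p023_k4, nat_lit 0, nat_lit 0, nat_lit 83, nat_lit 0, nat_lit 0, [nat_lit 2032000000, nat_lit 3282000000, nat_lit 4688000000], [], [nat_lit 18876886830, nat_lit 19046956626, nat_lit 19170540958, nat_lit 19359767486], nat_lit 0, nat_lit 0, nat_lit 0, nat_lit 0, nat_lit 0, nat_lit 0, [], [nat_lit 78, nat_lit 40, nat_lit 80, nat_lit 80, nat_lit 22, nat_lit 203, nat_lit 0, nat_lit 9]⟩,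
 zbF0, []⟩
noncomputable def p023_l174 : Lf2 := ⟨nat_lit 0, nat_lit 4, [nat_lit 38, nat_lit 5, nat_lit 5, nat_lit 20], false, nat_lit 0, nat_lit 0, nat_lit 0, nat_lit 0, ⟨nat_lit 1000, nat_lit 0, nat_lit 0, nat_lit 0, nat_lit 0, nat_lit 0, nat_lit 0, nat_lit 0, nat_lit 0, nat_lit 0, nat_lit 0, nat_lit 0, nat_lit 0, nat_lit 0, nat_lit 0, nat_lit 0, false, false⟩,
 nat_lit 0, nat_lit 12735, nat_lit 0, nat_lit 0, nat_lit 9588, nat_lit 4064, nat_lit 0, nat_lit 0, nat_lit 0, nat_lit 0, nat_lit 0, nat_lit 0, nat_lit 0, nat_lit 0, nat_lit 0, nat_lit 0, nat_lit 0, nat_lit 0, [],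
 ⟨p023_k5, nat_lit 0, nat_lit 0, nat_lit 605, nat_lit 0, nat_lit 1394888, [nat_lit 2032000001, nat_lit 4688000000], [], [nat_lit 18025264607, nat_lit 18063100035, nat_lit 18284589297, nat_lit 18369589217], nat_lit 1271250, nat_lit 1271250, nat_lit 1167600, nat_lit 1271250, nat_lit 0, nat_lit 0, [nat_lit 490000, nat_lit 1100000], [nat_lit 24, nat_lit 40, nat_lit 80, nat_lit 80, nat_lit 33, nat_lit 214, nat_lit 0, nat_lit 9]⟩, ⟨p023_k3, nat_lit 0, nat_lit 0, nat_lit 83, nat_lit 0, nat_lit 0, [nat_lit 2032000000, nat_lit 4688000000], [], [nat_lit 21342822880, nat_lit 21426660718, nat_lit 21787420400, nat_lit 21874537574], nat_lit 0, nat_lit 0, nat_lit 0, nat_lit 0, nat_lit 0, nat_lit 0, [], [nat_lit 24, nat_lit 40, nat_lit 80, nat_lit 80, nat_lit 33, nat_lit 203, nat_lit 0, nat_lit 9]⟩,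
 zbF0, []⟩
noncomputable def p023_l175 : Lf2 := ⟨nat_lit 0, nat_lit 4, [nat_lit 38, nat_lit 5, nat_lit 5, nat_lit 20], false, nat_lit 0, nat_lit 0, nat_lit 0, nat_lit 0, ⟨nat_lit 1000, nat_lit 0, nat_lit 0, nat_lit 0, nat_lit 0, nat_lit 0, nat_lit 0, nat_lit 0, nat_lit 0, nat_lit 0, nat_lit 0, nat_lit 0, nat_lit 0, nat_lit 0, nat_lit 0, nat_lit 0, false, false⟩,
 nat_lit 0, nat_lit 0, nat_lit 0, nat_lit 0, nat_lit 0, nat_lit 423, nat_lit 0, nat_lit 0, nat_lit 467, nat_lit 0, nat_lit 0, nat_lit 0, nat_lit 0, nat_lit 400000000000000, nat_lit 0, nat_lit 0, nat_lit 0, nat_lit 0, [],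
 ⟨p023_k5, nat_lit 0, nat_lit 0, nat_lit 0, nat_lit 0, nat_lit 1403762, [nat_lit 2032000001, nat_lit 4688000000], [], [nat_lit 14695745860, nat_lit 14722148520, nat_lit 14781385590, nat_lit 14807712380], nat_lit 1271250, nat_lit 1271250, nat_lit 1167600, nat_lit 1201850, nat_lit 0, nat_lit 0, [nat_lit 490000, nat_lit 1100000], [nat_lit 24, nat_lit 40, nat_lit 80, nat_lit 80]⟩, ⟨p023_k5, nat_lit 0, nat_lit 0, nat_lit 83, nat_lit 0, nat_lit 0, [nat_lit 2032000000, nat_lit 4688000000], [], [nat_lit 24306798836, nat_lit 24349309211, nat_lit 24423286900, nat_lit 24465602527], nat_lit 0, nat_lit 0, nat_lit 0, nat_lit 0, nat_lit 0, nat_lit 0, [], [nat_lit 24, nat_lit 40, nat_lit 80, nat_lit 80, nat_lit 33, nat_lit 203, nat_lit 0, nat_lit 9]⟩,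
 zbF0, []⟩
noncomputable def p023_l176 : Lf2 := ⟨nat_lit 0, nat_lit 4, [nat_lit 38, nat_lit 5, nat_lit 5, nat_lit 20], false, nat_lit 0, nat_lit 0, nat_lit 0, nat_lit 0, ⟨nat_lit 1000, nat_lit 0, nat_lit 0, nat_lit 0, nat_lit 0, nat_lit 0, nat_lit 0, nat_lit 0, nat_lit 0, nat_lit 0, nat_lit 0, nat_lit 0, nat_lit 0, nat_lit 0, nat_lit 0, nat_lit 0, false, false⟩,
 nat_lit 0, nat_lit 11568, nat_lit 0, nat_lit 0, nat_lit 8709, nat_lit 3531, nat_lit 744, nat_lit 0, nat_lit 0, nat_lit 1159, nat_lit 0, nat_lit 0, nat_lit 0, nat_lit 0, nat_lit 0, nat_lit 0, nat_lit 0, nat_lit 0, [],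
 ⟨p023_k6, nat_lit 0, nat_lit 0, nat_lit 613, nat_lit 0, nat_lit 1403762, [nat_lit 2032000001, nat_lit 3282000000, nat_lit 4688000000], [], [nat_lit 12383817851, nat_lit 12434084142, nat_lit 12450523662, nat_lit 12516456566], nat_lit 1271250, nat_lit 1271250, nat_lit 1167600, nat_lit 1201850, nat_lit 0, nat_lit 0, [nat_lit 490000, nat_lit 780000, nat_lit 1100000], [nat_lit 78, nat_lit 40, nat_lit 80, nat_lit 80, nat_lit 22, nat_lit 215, nat_lit 0, nat_lit 9]⟩, ⟨p023_k6, nat_lit 0, nat_lit 0, nat_lit 84, nat_lit 0, nat_lit 0, [nat_lit 2032000000, nat_lit 3282000000, nat_lit 4688000000], [], [nat_lit 19559254398, nat_lit 19637554144, nat_lit 19704869810, nat_lit 19786788482], nat_lit 0, nat_lit 0, nat_lit 0, nat_lit 0, nat_lit 0, nat_lit 0, [], [nat_lit 78, nat_lit 40, nat_lit 80, nat_lit 80, nat_lit 22, nat_lit 203, nat_lit 0, nat_lit 9]⟩,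
 zbF0, []⟩
noncomputable def p023_l177 : Lf2 := ⟨nat_lit 0, nat_lit 4, [nat_lit 38, nat_lit 5, nat_lit 5, nat_lit 20], false, nat_lit 0, nat_lit 0, nat_lit 0, nat_lit 0, ⟨nat_lit 1000, nat_lit 0, nat_lit 0, nat_lit 0, nat_lit 0, nat_lit 0, nat_lit 0, nat_lit 0, nat_lit 0, nat_lit 0, nat_lit 0, nat_lit 0, nat_lit 0, nat_lit 0, nat_lit 0, nat_lit 0, false, false⟩,
 nat_lit 0, nat_lit 0, nat_lit 0, nat_lit 0, nat_lit 0, nat_lit 175, nat_lit 0, nat_lit 0, nat_lit 467, nat_lit 0, nat_lit 0, nat_lit 0, nat_lit 0, nat_lit 400000000000000, nat_lit 0, nat_lit 0, nat_lit 0, nat_lit 0, [],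
 ⟨p023_k5, nat_lit 0, nat_lit 0, nat_lit 0, nat_lit 0, nat_lit 1403762, [nat_lit 2032000001, nat_lit 4688000000], [], [nat_lit 14781385590, nat_lit 14807712380, nat_lit 14867617381, nat_lit 14896374760], nat_lit 1271250, nat_lit 1271250, nat_lit 1201850, nat_lit 1236400, nat_lit 0, nat_lit 0, [nat_lit 490000, nat_lit 1100000], [nat_lit 24, nat_lit 40, nat_lit 80, nat_lit 80]⟩, ⟨p023_k5, nat_lit 0, nat_lit 0, nat_lit 84, nat_lit 0, nat_lit 0, [nat_lit 2032000000, nat_lit 4688000000], [], [nat_lit 24617444793, nat_lit 24656972585, nat_lit 24731915453, nat_lit 24771275606], nat_lit 0, nat_lit 0, nat_lit 0, nat_lit 0, nat_lit 0, nat_lit 0, [], [nat_lit 24, nat_lit 40, nat_lit 80, nat_lit 80, nat_lit 33, nat_lit 203, nat_lit 0, nat_lit 9]⟩,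
 zbF0, []⟩
noncomputable def p023_l178 : Lf2 := ⟨nat_lit 0, nat_lit 4, [nat_lit 38, nat_lit 5, nat_lit 5, nat_lit 20], false, nat_lit 0, nat_lit 0, nat_lit 0, nat_lit 0, ⟨nat_lit 1000, nat_lit 0, nat_lit 0, nat_lit 0, nat_lit 0, nat_lit 0, nat_lit 0, nat_lit 0, nat_lit 0, nat_lit 0, nat_lit 0, nat_lit 0, nat_lit 0, nat_lit 0, nat_lit 0, nat_lit 0, false, false⟩,
 nat_lit 0, nat_lit 12816, nat_lit 0, nat_lit 0, nat_lit 9649, nat_lit 4054, nat_lit 0, nat_lit 0, nat_lit 0, nat_lit 0, nat_lit 0, nat_lit 0, nat_lit 0, nat_lit 0, nat_lit 0, nat_lit 0, nat_lit 0, nat_lit 0, [],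
 ⟨p023_k5, nat_lit 0, nat_lit 0, nat_lit 610, nat_lit 0, nat_lit 1403762, [nat_lit 2032000001, nat_lit 4688000000], [], [nat_lit 17686433175, nat_lit 17724067813, nat_lit 17718345541, nat_lit 17775589720], nat_lit 1271250, nat_lit 1271250, nat_lit 1201850, nat_lit 1236400, nat_lit 0, nat_lit 0, [nat_lit 490000, nat_lit 1100000], [nat_lit 24, nat_lit 40, nat_lit 80, nat_lit 80, nat_lit 33, nat_lit 215, nat_lit 0, nat_lit 9]⟩, ⟨p023_k5, nat_lit 0, nat_lit 0, nat_lit 84, nat_lit 0, nat_lit 0, [nat_lit 2032000000, nat_lit 4688000000], [], [nat_lit 21580596135, nat_lit 21663728814, nat_lit 21726621258, nat_lit 21812247399], nat_lit 0, nat_lit 0, nat_lit 0, nat_lit 0, nat_lit 0, nat_lit 0, [], [nat_lit 24, nat_lit 40, nat_lit 80, nat_lit 80, nat_lit 33, nat_lit 203, nat_lit 0, nat_lit 9]⟩,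
 zbF0, []⟩
noncomputable def p023_l179 : Lf2 := ⟨nat_lit 0, nat_lit 4, [nat_lit 38, nat_lit 5, nat_lit 5, nat_lit 20], false, nat_lit 0, nat_lit 0, nat_lit 0, nat_lit 0, ⟨nat_lit 1000, nat_lit 0, nat_lit 0, nat_lit 0, nat_lit 0, nat_lit 0, nat_lit 0, nat_lit 0, nat_lit 0, nat_lit 0, nat_lit 0, nat_lit 0, nat_lit 0, nat_lit 0, nat_lit 0, nat_lit 0, false, false⟩,
 nat_lit 0, nat_lit 12659, nat_lit 0, nat_lit 0, nat_lit 9531, nat_lit 4050, nat_lit 0, nat_lit 0, nat_lit 0, nat_lit 0, nat_lit 0, nat_lit 0, nat_lit 0, nat_lit 0, nat_lit 0, nat_lit 0, nat_lit 0, nat_lit 0, [],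
 ⟨p023_k5, nat_lit 0, nat_lit 0, nat_lit 609, nat_lit 0, nat_lit 1403762, [nat_lit 2032000001, nat_lit 4688000000], [], [nat_lit 18387697810, nat_lit 18424818500, nat_lit 18442506237, nat_lit 18527171261], nat_lit 1271250, nat_lit 1271250, nat_lit 1236400, nat_lit 1271250, nat_lit 0, nat_lit 0, [nat_lit 490000, nat_lit 1100000], [nat_lit 24, nat_lit 40, nat_lit 80, nat_lit 80, nat_lit 33, nat_lit 215, nat_lit 0, nat_lit 9]⟩, ⟨p023_k5, nat_lit 0, nat_lit 0, nat_lit 84, nat_lit 0, nat_lit 0, [nat_lit 2032000000, nat_lit 4688000000], [], [nat_lit 21729720299, nat_lit 21812216796, nat_lit 21875712883, nat_lit 21960640535], nat_lit 0, nat_lit 0, nat_lit 0, nat_lit 0, nat_lit 0, nat_lit 0, [], [nat_lit 24, nat_lit 40, nat_lit 80, nat_lit 80, nat_lit 33, nat_lit 203, nat_lit 0, nat_lit 9]⟩,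
 zbF0, []⟩
noncomputable def p023_l180 : Lf2 := ⟨nat_lit 0, nat_lit 4, [nat_lit 38, nat_lit 5, nat_lit 5, nat_lit 20], false, nat_lit 0, nat_lit 0, nat_lit 0, nat_lit 0, ⟨nat_lit 1000, nat_lit 0, nat_lit 0, nat_lit 0, nat_lit 0, nat_lit 0, nat_lit 0, nat_lit 0, nat_lit 0, nat_lit 0, nat_lit 0, nat_lit 0, nat_lit 0, nat_lit 0, nat_lit 0, nat_lit 0, false, false⟩,
 nat_lit 0, nat_lit 12621, nat_lit 0, nat_lit 0, nat_lit 9502, nat_lit 4046, nat_lit 0, nat_lit 0, nat_lit 0, nat_lit 0, nat_lit 0, nat_lit 0, nat_lit 0, nat_lit 0, nat_lit 0, nat_lit 0, nat_lit 0, nat_lit 0, [],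
 ⟨p023_k5, nat_lit 0, nat_lit 0, nat_lit 608, nat_lit 0, nat_lit 1403762, [nat_lit 2032000001, nat_lit 4688000000], [], [nat_lit 18572308657, nat_lit 18609073452, nat_lit 19038085079, nat_lit 19119222894], nat_lit 1271250, nat_lit 1271250, nat_lit 1271250, nat_lit 1271250, nat_lit 0, nat_lit 0, [nat_lit 490000, nat_lit 1100000], [nat_lit 24, nat_lit 40, nat_lit 80, nat_lit 80, nat_lit 33, nat_lit 218, nat_lit 0, nat_lit 9]⟩, ⟨p023_k3, nat_lit 0, nat_lit 0, nat_lit 86, nat_lit 0, nat_lit 0, [nat_lit 2032000000, nat_lit 4688000000], [], [nat_lit 21796918192, nat_lit 21960640576, nat_lit 22536032460, nat_lit 22703444515], nat_lit 0, nat_lit 0, nat_lit 0, nat_lit 0, nat_lit 0, nat_lit 0, [], [nat_lit 24, nat_lit 40, nat_lit 80, nat_lit 80, nat_lit 33, nat_lit 203, nat_lit 0, nat_lit 9]⟩,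
 zbF0, []⟩
noncomputable def p023_l181 : Lf2 := ⟨nat_lit 0, nat_lit 3, [nat_lit 45, nat_lit 5, nat_lit 5, nat_lit 20], false, nat_lit 0, nat_lit 0, nat_lit 0, nat_lit 0, ⟨nat_lit 1000, nat_lit 0, nat_lit 0, nat_lit 0, nat_lit 0, nat_lit 0, nat_lit 0, nat_lit 0, nat_lit 0, nat_lit 0, nat_lit 0, nat_lit 0, nat_lit 0, nat_lit 0, nat_lit 0, nat_lit 0, false, false⟩,
 nat_lit 0, nat_lit 11022, nat_lit 0, nat_lit 0, nat_lit 8266, nat_lit 4032, nat_lit 0, nat_lit 0, nat_lit 0, nat_lit 0, nat_lit 0, nat_lit 0, nat_lit 0, nat_lit 0, nat_lit 0, nat_lit 0, nat_lit 0, nat_lit 0, [],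
 ⟨p023_k0, nat_lit 0, nat_lit 0, nat_lit 627, nat_lit 0, nat_lit 1440310, [nat_lit 2032000001, nat_lit 4688000000], [], [nat_lit 25847628532, nat_lit 25880927227, nat_lit 27758203680, nat_lit 27900753037], nat_lit 1271250, nat_lit 1271250, nat_lit 1271250, nat_lit 1271250, nat_lit 0, nat_lit 0, [nat_lit 490000, nat_lit 1100000], [nat_lit 24, nat_lit 40, nat_lit 80, nat_lit 80, nat_lit 33, nat_lit 227, nat_lit 0, nat_lit 10]⟩, ⟨p023_k0, nat_lit 0, nat_lit 0, nat_lit 89, nat_lit 0, nat_lit 0, [nat_lit 2032000000, nat_lit 4688000000], [], [nat_lit 22539982304, nat_lit 22618742940, nat_lit 24032594560, nat_lit 24109764085], nat_lit 0, nat_lit 0, nat_lit 0, nat_lit 0, nat_lit 0, nat_lit 0, [], [nat_lit 24, nat_lit 40, nat_lit 80, nat_lit 80, nat_lit 33, nat_lit 203, nat_lit 0, nat_lit 8]⟩,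
 zbF0, []⟩
noncomputable def p023_l182 : Lf2 := ⟨nat_lit 0, nat_lit 3, [nat_lit 45, nat_lit 5, nat_lit 5, nat_lit 20], false, nat_lit 0, nat_lit 0, nat_lit 0, nat_lit 0, ⟨nat_lit 1000, nat_lit 0, nat_lit 0, nat_lit 0, nat_lit 0, nat_lit 0, nat_lit 0, nat_lit 0, nat_lit 0, nat_lit 0, nat_lit 0, nat_lit 0, nat_lit 0, nat_lit 0, nat_lit 0, nat_lit 0, false, false⟩,
 nat_lit 0, nat_lit 10350, nat_lit 0, nat_lit 0, nat_lit 7792, nat_lit 4032, nat_lit 4016, nat_lit 0, nat_lit 0, nat_lit 0, nat_lit 0, nat_lit 0, nat_lit 0, nat_lit 0, nat_lit 0, nat_lit 0, nat_lit 0, nat_lit 0, [],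
 ⟨p023_k2, nat_lit 0, nat_lit 0, nat_lit 627, nat_lit 0, nat_lit 1439349, [nat_lit 2032000001, nat_lit 4688000000], [], [nat_lit 25339883213, nat_lit 25372438842, nat_lit 27195049655, nat_lit 27331747149], nat_lit 1271250, nat_lit 1271250, nat_lit 1271250, nat_lit 1271250, nat_lit 0, nat_lit 0, [nat_lit 490000, nat_lit 1100000], [nat_lit 24, nat_lit 40, nat_lit 80, nat_lit 80, nat_lit 33, nat_lit 227, nat_lit 0, nat_lit 10]⟩, ⟨p023_k0, nat_lit 0, nat_lit 0, nat_lit 89, nat_lit 0, nat_lit 0, [nat_lit 2032000000, nat_lit 4688000000], [], [nat_lit 22539982304, nat_lit 22618742940, nat_lit 24032594560, nat_lit 24109764085], nat_lit 0, nat_lit 0, nat_lit 0, nat_lit 0, nat_lit 0, nat_lit 0, [], [nat_lit 24, nat_lit 40, nat_lit 80, nat_lit 80, nat_lit 33, nat_lit 203, nat_lit 0, nat_lit 8]⟩,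
 zbF0, []⟩
noncomputable def p023_l183 : Lf2 := ⟨nat_lit 0, nat_lit 3, [nat_lit 45, nat_lit 5, nat_lit 5, nat_lit 20], true, nat_lit 0, nat_lit 0, nat_lit 0, nat_lit 0, ⟨nat_lit 0, nat_lit 1000, nat_lit 0, nat_lit 8, nat_lit 254, nat_lit 0, nat_lit 0, nat_lit 0, nat_lit 0, nat_lit 0, nat_lit 0, nat_lit 0, nat_lit 0, nat_lit 0, nat_lit 0, nat_lit 5000000, true, false⟩,
 nat_lit 0, nat_lit 0, nat_lit 0, nat_lit 0, nat_lit 0, nat_lit 0, nat_lit 0, nat_lit 0, nat_lit 343, nat_lit 0, nat_lit 0, nat_lit 0, nat_lit 0, nat_lit 13743255190063, nat_lit 0, nat_lit 400000, nat_lit 0, nat_lit 0, [(nat_lit 18, [(nat_lit 1, nat_lit 1000)])],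
 ⟨p023_k2, nat_lit 0, nat_lit 0, nat_lit 0, nat_lit 0, nat_lit 1448303, [nat_lit 1398133334, nat_lit 1966666666], [], [nat_lit 14412294922, nat_lit 14442017172, nat_lit 14509361977, nat_lit 14538982682], nat_lit 1271250, nat_lit 1271250, nat_lit 1271250, nat_lit 1271250, nat_lit 0, nat_lit 0, [nat_lit 490000, nat_lit 1100000], [nat_lit 24, nat_lit 40, nat_lit 80, nat_lit 80]⟩, C1.Rw.none,
 ⟨nat_lit 4415, nat_lit 4445, ⟨.ofNat (nat_lit 630530), .ofNat (nat_lit 637310), .ofNat (nat_lit 631609), .ofNat (nat_lit 638389), .ofNat (nat_lit 630585), .ofNat (nat_lit 637349), .ofNat (nat_lit 631665), .ofNat (nat_lit 638428)⟩, ⟨.ofNat (nat_lit 0), .ofNat (nat_lit 0), .ofNat (nat_lit 0), .ofNat (nat_lit 0), .ofNat (nat_lit 0), .ofNat (nat_lit 0), .ofNat (nat_lit 0), .ofNat (nat_lit 0)⟩⟩, []⟩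
noncomputable def p023_l184 : Lf2 := ⟨nat_lit 0, nat_lit 3, [nat_lit 45, nat_lit 5, nat_lit 5, nat_lit 20], false, nat_lit 0, nat_lit 0, nat_lit 0, nat_lit 0, ⟨nat_lit 1000, nat_lit 0, nat_lit 0, nat_lit 0, nat_lit 0, nat_lit 0, nat_lit 0, nat_lit 0, nat_lit 0, nat_lit 0, nat_lit 0, nat_lit 0, nat_lit 0, nat_lit 0, nat_lit 0, nat_lit 0, false, false⟩,
 nat_lit 0, nat_lit 11625, nat_lit 0, nat_lit 0, nat_lit 8752, nat_lit 4026, nat_lit 4561, nat_lit 0, nat_lit 0, nat_lit 0, nat_lit 0, nat_lit 0, nat_lit 0, nat_lit 0, nat_lit 0, nat_lit 0, nat_lit 0, nat_lit 0, [],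
 ⟨p023_k2, nat_lit 0, nat_lit 0, nat_lit 632, nat_lit 0, nat_lit 1448303, [nat_lit 2032000001, nat_lit 4688000000], [], [nat_lit 19275765077, nat_lit 19309825650, nat_lit 19332467137, nat_lit 19408802119], nat_lit 1271250, nat_lit 1271250, nat_lit 1271250, nat_lit 1271250, nat_lit 0, nat_lit 0, [nat_lit 490000, nat_lit 1100000], [nat_lit 24, nat_lit 40, nat_lit 80, nat_lit 80, nat_lit 33, nat_lit 224, nat_lit 0, nat_lit 9]⟩, ⟨p023_k2, nat_lit 0, nat_lit 0, nat_lit 86, nat_lit 0, nat_lit 0, [nat_lit 2032000000, nat_lit 4688000000], [], [nat_lit 22623098651, nat_lit 22701796430, nat_lit 22768896003, nat_lit 22849651990], nat_lit 0, nat_lit 0, nat_lit 0, nat_lit 0, nat_lit 0, nat_lit 0, [], [nat_lit 24, nat_lit 40, nat_lit 80, nat_lit 80, nat_lit 33, nat_lit 203, nat_lit 0, nat_lit 8]⟩,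
 zbF0, []⟩
noncomputable def p023_l185 : Lf2 := ⟨nat_lit 0, nat_lit 3, [nat_lit 45, nat_lit 5, nat_lit 5, nat_lit 20], false, nat_lit 0, nat_lit 0, nat_lit 0, nat_lit 0, ⟨nat_lit 1000, nat_lit 0, nat_lit 0, nat_lit 0, nat_lit 0, nat_lit 0, nat_lit 0, nat_lit 0, nat_lit 0, nat_lit 0, nat_lit 0, nat_lit 0, nat_lit 0, nat_lit 0, nat_lit 0, nat_lit 0, false, false⟩,
 nat_lit 0, nat_lit 10319, nat_lit 0, nat_lit 0, nat_lit 7769, nat_lit 4022, nat_lit 4013, nat_lit 0, nat_lit 0, nat_lit 0, nat_lit 0, nat_lit 0, nat_lit 0, nat_lit 0, nat_lit 0, nat_lit 0, nat_lit 0, nat_lit 0, [],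
 ⟨p023_k2, nat_lit 0, nat_lit 0, nat_lit 631, nat_lit 0, nat_lit 1448303, [nat_lit 2032000001, nat_lit 4688000000], [], [nat_lit 25502677848, nat_lit 25534938887, nat_lit 25579687553, nat_lit 25726701381], nat_lit 1271250, nat_lit 1271250, nat_lit 1271250, nat_lit 1271250, nat_lit 0, nat_lit 0, [nat_lit 490000, nat_lit 1100000], [nat_lit 24, nat_lit 40, nat_lit 80, nat_lit 80, nat_lit 33, nat_lit 224, nat_lit 0, nat_lit 9]⟩, ⟨p023_k2, nat_lit 0, nat_lit 0, nat_lit 87, nat_lit 0, nat_lit 0, [nat_lit 2032000000, nat_lit 4688000000], [], [nat_lit 22771767272, nat_lit 22849834991, nat_lit 22917532085, nat_lit 22997596005], nat_lit 0, nat_lit 0, nat_lit 0, nat_lit 0, nat_lit 0, nat_lit 0, [], [nat_lit 24, nat_lit 40, nat_lit 80, nat_lit 80, nat_lit 33, nat_lit 203, nat_lit 0, nat_lit 8]⟩,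
 zbF0, []⟩
noncomputable def p023_l186 : Lf2 := ⟨nat_lit 0, nat_lit 3, [nat_lit 45, nat_lit 5, nat_lit 5, nat_lit 20], false, nat_lit 0, nat_lit 0, nat_lit 0, nat_lit 0, ⟨nat_lit 1000, nat_lit 0, nat_lit 0, nat_lit 0, nat_lit 0, nat_lit 0, nat_lit 0, nat_lit 0, nat_lit 0, nat_lit 0, nat_lit 0, nat_lit 0, nat_lit 0, nat_lit 0, nat_lit 0, nat_lit 0, false, false⟩,
 nat_lit 0, nat_lit 10290, nat_lit 0, nat_lit 0, nat_lit 7747, nat_lit 4018, nat_lit 4000, nat_lit 0, nat_lit 0, nat_lit 0, nat_lit 0, nat_lit 0, nat_lit 0, nat_lit 0, nat_lit 0, nat_lit 0, nat_lit 0, nat_lit 0, [],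
 ⟨p023_k2, nat_lit 0, nat_lit 0, nat_lit 630, nat_lit 0, nat_lit 1448303, [nat_lit 2032000001, nat_lit 4688000000], [], [nat_lit 25668123225, nat_lit 25700092440, nat_lit 26140885057, nat_lit 26283636140], nat_lit 1271250, nat_lit 1271250, nat_lit 1271250, nat_lit 1271250, nat_lit 0, nat_lit 0, [nat_lit 490000, nat_lit 1100000], [nat_lit 24, nat_lit 40, nat_lit 80, nat_lit 80, nat_lit 33, nat_lit 226, nat_lit 0, nat_lit 9]⟩, ⟨p023_k2, nat_lit 0, nat_lit 0, nat_lit 88, nat_lit 0, nat_lit 0, [nat_lit 2032000000, nat_lit 4688000000], [], [nat_lit 22920370815, nat_lit 22997809350, nat_lit 23362054776, nat_lit 23442264241], nat_lit 0, nat_lit 0, nat_lit 0, nat_lit 0, nat_lit 0, nat_lit 0, [], [nat_lit 24, nat_lit 40, nat_lit 80, nat_lit 80, nat_lit 33, nat_lit 203, nat_lit 0, nat_lit 8]⟩,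
 zbF0, []⟩
noncomputable def p023_l187 : Lf2 := ⟨nat_lit 0, nat_lit 3, [nat_lit 45, nat_lit 5, nat_lit 5, nat_lit 20], false, nat_lit 0, nat_lit 0, nat_lit 0, nat_lit 0, ⟨nat_lit 1000, nat_lit 0, nat_lit 0, nat_lit 0, nat_lit 0, nat_lit 0, nat_lit 0, nat_lit 0, nat_lit 0, nat_lit 0, nat_lit 0, nat_lit 0, nat_lit 0, nat_lit 0, nat_lit 0, nat_lit 0, false, false⟩,
 nat_lit 0, nat_lit 10203, nat_lit 0, nat_lit 0, nat_lit 7681, nat_lit 4007, nat_lit 3964, nat_lit 0, nat_lit 0, nat_lit 0, nat_lit 0, nat_lit 0, nat_lit 0, nat_lit 0, nat_lit 0, nat_lit 0, nat_lit 0, nat_lit 0, [],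
 ⟨p023_k2, nat_lit 0, nat_lit 0, nat_lit 628, nat_lit 0, nat_lit 1448303, [nat_lit 2032000001, nat_lit 4688000000], [], [nat_lit 26163479391, nat_lit 26194580319, nat_lit 27029790002, nat_lit 27165117124], nat_lit 1271250, nat_lit 1271250, nat_lit 1271250, nat_lit 1271250, nat_lit 0, nat_lit 0, [nat_lit 490000, nat_lit 1100000], [nat_lit 24, nat_lit 40, nat_lit 80, nat_lit 80, nat_lit 33, nat_lit 228, nat_lit 0, nat_lit 10]⟩, ⟨p023_k2, nat_lit 0, nat_lit 0, nat_lit 90, nat_lit 0, nat_lit 0, [nat_lit 2032000000, nat_lit 4688000000], [], [nat_lit 23365105701, nat_lit 23440671858, nat_lit 24105197535, nat_lit 24182115008], nat_lit 0, nat_lit 0, nat_lit 0, nat_lit 0, nat_lit 0, nat_lit 0, [], [nat_lit 24, nat_lit 40, nat_lit 80, nat_lit 80, nat_lit 33, nat_lit 203, nat_lit 0, nat_lit 8]⟩,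
 zbF0, []⟩
noncomputable def p023_l188 : Lf2 := ⟨nat_lit 0, nat_lit 4, [nat_lit 38, nat_lit 5, nat_lit 5, nat_lit 20], false, nat_lit 0, nat_lit 0, nat_lit 0, nat_lit 0, ⟨nat_lit 1000, nat_lit 0, nat_lit 0, nat_lit 0, nat_lit 0, nat_lit 0, nat_lit 0, nat_lit 0, nat_lit 0, nat_lit 0, nat_lit 0, nat_lit 0, nat_lit 0, nat_lit 0, nat_lit 0, nat_lit 0, false, false⟩,
 nat_lit 0, nat_lit 10999, nat_lit 0, nat_lit 0, nat_lit 8249, nat_lit 4026, nat_lit 0, nat_lit 0, nat_lit 0, nat_lit 0, nat_lit 0, nat_lit 0, nat_lit 0, nat_lit 0, nat_lit 0, nat_lit 0, nat_lit 0, nat_lit 0, [],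
 ⟨p023_k3, nat_lit 0, nat_lit 0, nat_lit 609, nat_lit 0, nat_lit 1411126, [nat_lit 2032000001, nat_lit 4688000000], [], [nat_lit 25947078498, nat_lit 26013622588, nat_lit 27733103520, nat_lit 28017782479], nat_lit 1271250, nat_lit 1271250, nat_lit 1271250, nat_lit 1271250, nat_lit 0, nat_lit 0, [nat_lit 490000, nat_lit 1100000], [nat_lit 24, nat_lit 40, nat_lit 80, nat_lit 80, nat_lit 33, nat_lit 223, nat_lit 0, nat_lit 9]⟩, ⟨p023_k3, nat_lit 0, nat_lit 0, nat_lit 90, nat_lit 0, nat_lit 0, [nat_lit 2032000000, nat_lit 4688000000], [], [nat_lit 22544400872, nat_lit 22701796430, nat_lit 24031559080, nat_lit 24185777144], nat_lit 0, nat_lit 0, nat_lit 0, nat_lit 0, nat_lit 0, nat_lit 0, [], [nat_lit 24, nat_lit 40, nat_lit 80, nat_lit 80, nat_lit 33, nat_lit 203, nat_lit 0, nat_lit 8]⟩,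
 zbF0, []⟩
noncomputable def p023_l189 : Lf2 := ⟨nat_lit 0, nat_lit 4, [nat_lit 38, nat_lit 5, nat_lit 5, nat_lit 20], false, nat_lit 0, nat_lit 0, nat_lit 0, nat_lit 0, ⟨nat_lit 1000, nat_lit 0, nat_lit 0, nat_lit 0, nat_lit 0, nat_lit 0, nat_lit 0, nat_lit 0, nat_lit 0, nat_lit 0, nat_lit 0, nat_lit 0, nat_lit 0, nat_lit 0, nat_lit 0, nat_lit 0, false, false⟩,
 nat_lit 0, nat_lit 8911, nat_lit 0, nat_lit 0, nat_lit 6735, nat_lit 4018, nat_lit 4302, nat_lit 0, nat_lit 0, nat_lit 0, nat_lit 0, nat_lit 0, nat_lit 0, nat_lit 15814990248581, nat_lit 0, nat_lit 0, nat_lit 0, nat_lit 0, [],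
 ⟨p023_k35, nat_lit 0, nat_lit 0, nat_lit 651, nat_lit 0, nat_lit 1464916, [nat_lit 2032000001, nat_lit 4688000000], [], [nat_lit 24996344692, nat_lit 25028991311, nat_lit 25837327583, nat_lit 25871996548], nat_lit 1271250, nat_lit 1271250, nat_lit 968401, nat_lit 1776000, nat_lit 0, nat_lit 0, [nat_lit 490000, nat_lit 1100000], [nat_lit 24, nat_lit 40, nat_lit 80, nat_lit 80, nat_lit 33, nat_lit 272, nat_lit 60, nat_lit 12]⟩, ⟨p023_k3, nat_lit 0, nat_lit 0, nat_lit 90, nat_lit 0, nat_lit 0, [nat_lit 2032000000, nat_lit 4688000000], [], [nat_lit 20867899076, nat_lit 21127300003, nat_lit 24030178440, nat_lit 24261263569], nat_lit 0, nat_lit 0, nat_lit 0, nat_lit 0, nat_lit 0, nat_lit 0, [], [nat_lit 24, nat_lit 40, nat_lit 80, nat_lit 80, nat_lit 33, nat_lit 272, nat_lit 60, nat_lit 12]⟩,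
 zbF0, [⟨nat_lit 0, nat_lit 81, nat_lit 81, nat_lit 100, nat_lit 412496060⟩]⟩
noncomputable def b_N_800_800_0_10 : St := ⟨false, nat_lit 1, nat_lit 0, nat_lit 2, nat_lit 40, nat_lit 320, nat_lit 323, nat_lit 320, nat_lit 323, nat_lit 140, nat_lit 240, nat_lit 0, nat_lit 0, nat_lit 0, nat_lit 0, nat_lit 0, nat_lit 0, nat_lit 8, nat_lit 16, nat_lit 0, nat_lit 0, nat_lit 0, nat_lit 0⟩
theorem d_N_800_800_0_10 (h : EB TB.env) : Dead b_N_800_800_0_10 := chkB_sound0 h (T :=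
(.spl (nat_lit 0) (nat_lit 322)
(.ord (.spl (nat_lit 2) (nat_lit 200)
(.spl (nat_lit 6) (nat_lit 12)
(.spl (nat_lit 7) (nat_lit 600)
(.leaf p023_l159)
(.spl (nat_lit 7) (nat_lit 900)
(.leaf p023_l160)
(.leaf p023_l161)))
(.spl (nat_lit 2) (nat_lit 160)
(.spl (nat_lit 7) (nat_lit 600)
(.leaf p023_l162)
(.spl (nat_lit 7) (nat_lit 900)
(.leaf p023_l163)
(.leaf p023_l164)))
(.spl (nat_lit 7) (nat_lit 600)
(.leaf p023_l165)
(.spl (nat_lit 0) (nat_lit 321)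
(.ord (.spl (nat_lit 2) (nat_lit 180)
(.spl (nat_lit 2) (nat_lit 168)
(.spl (nat_lit 2) (nat_lit 164)
(.spl (nat_lit 7) (nat_lit 900)
(.leaf p023_l166)
(.leaf p023_l167))
(.spl (nat_lit 7) (nat_lit 900)
(.leaf p023_l168)
(.leaf p023_l169)))
(.leaf p023_l170))
(.leaf p023_l171)))
(.spl (nat_lit 2) (nat_lit 180)
(.spl (nat_lit 2) (nat_lit 168)
(.spl (nat_lit 7) (nat_lit 900)
(.leaf p023_l172)
(.leaf p023_l173))
(.spl (nat_lit 1) (nat_lit 321)
(.leaf p023_l174)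
(.spl (nat_lit 2) (nat_lit 176)
(.spl (nat_lit 2) (nat_lit 172)
(.spl (nat_lit 7) (nat_lit 900)
(.leaf p023_l175)
(.leaf p023_l176))
(.spl (nat_lit 7) (nat_lit 900)
(.leaf p023_l177)
(.leaf p023_l178)))
(.leaf p023_l179))))
(.leaf p023_l180))))))
(.spl (nat_lit 6) (nat_lit 12)
(.spl (nat_lit 0) (nat_lit 321)
(.ord (.leaf p023_l181))
(.spl (nat_lit 1) (nat_lit 321)
(.leaf p023_l182)
(.spl (nat_lit 2) (nat_lit 220)
(.spl (nat_lit 2) (nat_lit 208)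
(.spl (nat_lit 2) (nat_lit 204)
(.spl (nat_lit 7) (nat_lit 600)
(.leaf p023_l183)
(.leaf p023_l184))
(.leaf p023_l185))
(.leaf p023_l186))
(.leaf p023_l187))))
(.leaf p023_l188))))
(.trZ (nat_lit 0) (nat_lit 83) (nat_lit 82) (nat_lit 100) (nat_lit 144) (.leaf p023_l189)))) (by decide +kernel)
noncomputable def p023_l190 : Lf2 := ⟨nat_lit 0, nat_lit 5, [nat_lit 4, nat_lit 5, nat_lit 5, nat_lit 20], true, nat_lit 0, nat_lit 0, nat_lit 0, nat_lit 0, ⟨nat_lit 0, nat_lit 1000, nat_lit 0, nat_lit 8, nat_lit 218, nat_lit 0, nat_lit 0, nat_lit 0, nat_lit 0, nat_lit 0, nat_lit 0, nat_lit 0, nat_lit 0, nat_lit 0, nat_lit 0, nat_lit 5000000, false, false⟩,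
 nat_lit 0, nat_lit 0, nat_lit 0, nat_lit 0, nat_lit 0, nat_lit 0, nat_lit 0, nat_lit 0, nat_lit 348, nat_lit 0, nat_lit 0, nat_lit 0, nat_lit 0, nat_lit 9661905865437, nat_lit 0, nat_lit 400000, nat_lit 0, nat_lit 0, [(nat_lit 18, [(nat_lit 1, nat_lit 1000)])],
 ⟨p023_k8, nat_lit 0, nat_lit 0, nat_lit 0, nat_lit 0, nat_lit 1360319, [nat_lit 1398133334, nat_lit 1966666667, nat_lit 1960800000], [], [nat_lit 12650179672, nat_lit 12712604022, nat_lit 13090886672, nat_lit 13152362072], nat_lit 1271250, nat_lit 1271250, nat_lit 936251, nat_lit 1100001, nat_lit 0, nat_lit 0, [nat_lit 490000, nat_lit 1100000, nat_lit 1442500], [nat_lit 6, nat_lit 40, nat_lit 80, nat_lit 80]⟩, C1.Rw.none,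
 ⟨nat_lit 4415, nat_lit 4473, ⟨.ofNat (nat_lit 527429), .ofNat (nat_lit 561419), .ofNat (nat_lit 528508), .ofNat (nat_lit 562497), .ofNat (nat_lit 528055), .ofNat (nat_lit 561872), .ofNat (nat_lit 529134), .ofNat (nat_lit 562951)⟩, ⟨.ofNat (nat_lit 0), .ofNat (nat_lit 0), .ofNat (nat_lit 0), .ofNat (nat_lit 0), .ofNat (nat_lit 0), .ofNat (nat_lit 0), .ofNat (nat_lit 0), .ofNat (nat_lit 0)⟩⟩, []⟩
noncomputable def p023_l191 : Lf2 := ⟨nat_lit 0, nat_lit 5, [nat_lit 4, nat_lit 5, nat_lit 5, nat_lit 20], false, nat_lit 0, nat_lit 0, nat_lit 0, nat_lit 0, ⟨nat_lit 1000, nat_lit 0, nat_lit 0, nat_lit 0, nat_lit 0, nat_lit 0, nat_lit 0, nat_lit 0, nat_lit 0, nat_lit 0, nat_lit 0, nat_lit 0, nat_lit 0, nat_lit 0, nat_lit 0, nat_lit 0, false, false⟩,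
 nat_lit 0, nat_lit 0, nat_lit 0, nat_lit 0, nat_lit 0, nat_lit 4012, nat_lit 0, nat_lit 0, nat_lit 457, nat_lit 208, nat_lit 0, nat_lit 0, nat_lit 0, nat_lit 0, nat_lit 0, nat_lit 0, nat_lit 0, nat_lit 0, [],
 ⟨p023_k8, nat_lit 0, nat_lit 0, nat_lit 0, nat_lit 0, nat_lit 1360319, [nat_lit 2032000001, nat_lit 4688000000, nat_lit 6250000000], [], [nat_lit 15499638000, nat_lit 15547647550, nat_lit 15873332000, nat_lit 15924941800], nat_lit 1271250, nat_lit 1271250, nat_lit 936251, nat_lit 1100001, nat_lit 0, nat_lit 0, [nat_lit 490000, nat_lit 1100000, nat_lit 1442500], [nat_lit 6, nat_lit 40, nat_lit 80, nat_lit 80]⟩, ⟨p023_k8, nat_lit 0, nat_lit 0, nat_lit 110, nat_lit 0, nat_lit 0, [nat_lit 2032000000, nat_lit 4688000000, nat_lit 6250000000], [], [nat_lit 22856168516, nat_lit 22937141835, nat_lit 23099067328, nat_lit 23177776835], nat_lit 0, nat_lit 0, nat_lit 0, nat_lit 0, nat_lit 0,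 nat_lit 0, [], [nat_lit 6, nat_lit 40, nat_lit 80, nat_lit 80, nat_lit 3, nat_lit 249, nat_lit 40, nat_lit 9]⟩,
 zbF0, []⟩
noncomputable def p023_l192 : Lf2 := ⟨nat_lit 0, nat_lit 5, [nat_lit 4, nat_lit 5, nat_lit 5, nat_lit 20], false, nat_lit 0, nat_lit 0, nat_lit 0, nat_lit 0, ⟨nat_lit 1000, nat_lit 0, nat_lit 0, nat_lit 0, nat_lit 0, nat_lit 0, nat_lit 0, nat_lit 0, nat_lit 0, nat_lit 0, nat_lit 0, nat_lit 0, nat_lit 0, nat_lit 0, nat_lit 0, nat_lit 0, false, false⟩,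
 nat_lit 0, nat_lit 0, nat_lit 0, nat_lit 0, nat_lit 0, nat_lit 4078, nat_lit 135, nat_lit 0, nat_lit 452, nat_lit 720, nat_lit 0, nat_lit 0, nat_lit 0, nat_lit 0, nat_lit 0, nat_lit 0, nat_lit 0, nat_lit 0, [],
 ⟨p023_k8, nat_lit 0, nat_lit 0, nat_lit 0, nat_lit 0, nat_lit 1360319, [nat_lit 2032000001, nat_lit 4688000000, nat_lit 6250000000], [], [nat_lit 15459638000, nat_lit 15507647550, nat_lit 15818856000, nat_lit 15867565800], nat_lit 1271250, nat_lit 1271250, nat_lit 936251, nat_lit 1100001, nat_lit 0, nat_lit 0, [nat_lit 490000, nat_lit 1100000, nat_lit 1442500], [nat_lit 6, nat_lit 40, nat_lit 80, nat_lit 80]⟩, ⟨p023_k8, nat_lit 0, nat_lit 0, nat_lit 110, nat_lit 0, nat_lit 0, [nat_lit 2032000000, nat_lit 4688000000, nat_lit 6250000000], [], [nat_lit 20810641336, nat_lit 20902038934, nat_lit 21037960296, nat_lit 21127792161], nat_lit 0, nat_lit 0, nat_lit 0, nat_lit 0, nat_lit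 0, nat_lit 0, [], [nat_lit 6, nat_lit 40, nat_lit 80, nat_lit 80, nat_lit 3, nat_lit 249, nat_lit 40, nat_lit 9]⟩,
 zbF0, [⟨nat_lit 0, nat_lit 83, nat_lit 83, nat_lit 100, nat_lit 522380691⟩]⟩
noncomputable def p023_l193 : Lf2 := ⟨nat_lit 0, nat_lit 5, [nat_lit 4, nat_lit 5, nat_lit 5, nat_lit 20], false, nat_lit 0, nat_lit 0, nat_lit 0, nat_lit 0, ⟨nat_lit 1000, nat_lit 0, nat_lit 0, nat_lit 0, nat_lit 0, nat_lit 0, nat_lit 0, nat_lit 0, nat_lit 0, nat_lit 0, nat_lit 0, nat_lit 0, nat_lit 0, nat_lit 0, nat_lit 0, nat_lit 0, false, false⟩,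
 nat_lit 0, nat_lit 8848, nat_lit 0, nat_lit 0, nat_lit 6635, nat_lit 4017, nat_lit 476, nat_lit 0, nat_lit 0, nat_lit 1365, nat_lit 0, nat_lit 0, nat_lit 0, nat_lit 0, nat_lit 0, nat_lit 0, nat_lit 0, nat_lit 0, [],
 ⟨p023_k8, nat_lit 0, nat_lit 0, nat_lit 680, nat_lit 0, nat_lit 1360319, [nat_lit 2032000001, nat_lit 4688000000, nat_lit 6250000000], [], [nat_lit 32877211282, nat_lit 32948939187, nat_lit 32811877102, nat_lit 32880433798], nat_lit 1271250, nat_lit 1271250, nat_lit 936251, nat_lit 1100001, nat_lit 0, nat_lit 0, [nat_lit 490000, nat_lit 1100000, nat_lit 1442500], [nat_lit 6, nat_lit 40, nat_lit 80, nat_lit 80, nat_lit 3, nat_lit 249, nat_lit 40, nat_lit 9]⟩, ⟨p023_k9, nat_lit 0, nat_lit 0, nat_lit 0, nat_lit 0, nat_lit 0, [nat_lit 2032000000, nat_lit 3282000000, nat_lit 4688000000, nat_lit 6250000000], [], [nat_lit 18621285606, nat_lit 18706246629, nat_lit 18863895173, nat_lit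 18945511706], nat_lit 0, nat_lit 0, nat_lit 0, nat_lit 0, nat_lit 0, nat_lit 0, [], [nat_lit 127, nat_lit 40, nat_lit 80, nat_lit 80]⟩,
 zbF0, [⟨nat_lit 0, nat_lit 83, nat_lit 82, nat_lit 100, nat_lit 678155533⟩]⟩
noncomputable def p023_l194 : Lf2 := ⟨nat_lit 3, nat_lit 5, [nat_lit 4, nat_lit 5, nat_lit 5, nat_lit 20], false, nat_lit 0, nat_lit 0, nat_lit 0, nat_lit 0, zbN0,
 nat_lit 0, nat_lit 0, nat_lit 0, nat_lit 0, nat_lit 0, nat_lit 0, nat_lit 0, nat_lit 0, nat_lit 0, nat_lit 0, nat_lit 0, nat_lit 0, nat_lit 0, nat_lit 0, nat_lit 0, nat_lit 0, nat_lit 0, nat_lit 0, [],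
 C1.Rw.none, ⟨p023_k8, nat_lit 0, nat_lit 0, nat_lit 0, nat_lit 0, nat_lit 0, [], [], [], nat_lit 0, nat_lit 0, nat_lit 0, nat_lit 0, nat_lit 0, nat_lit 0, [], [nat_lit 6, nat_lit 40, nat_lit 80, nat_lit 80]⟩,
 zbF0, []⟩
noncomputable def p023_l195 : Lf2 := ⟨nat_lit 3, nat_lit 5, [nat_lit 4, nat_lit 5, nat_lit 5, nat_lit 20], false, nat_lit 0, nat_lit 0, nat_lit 0, nat_lit 0, zbN0,
 nat_lit 0, nat_lit 0, nat_lit 0, nat_lit 0, nat_lit 0, nat_lit 0, nat_lit 0, nat_lit 0, nat_lit 0, nat_lit 0, nat_lit 0, nat_lit 0, nat_lit 0, nat_lit 0, nat_lit 0, nat_lit 0, nat_lit 0, nat_lit 0, [],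
 C1.Rw.none, ⟨p023_k8, nat_lit 0, nat_lit 0, nat_lit 110, nat_lit 0, nat_lit 0, [], [], [], nat_lit 0, nat_lit 0, nat_lit 0, nat_lit 0, nat_lit 0, nat_lit 0, [], [nat_lit 6, nat_lit 40, nat_lit 80, nat_lit 80, nat_lit 3, nat_lit 249, nat_lit 40, nat_lit 9]⟩,
 zbF0, []⟩
noncomputable def p023_l196 : Lf2 := ⟨nat_lit 0, nat_lit 5, [nat_lit 4, nat_lit 5, nat_lit 5, nat_lit 20], true, nat_lit 0, nat_lit 0, nat_lit 0, nat_lit 0, ⟨nat_lit 0, nat_lit 1000, nat_lit 0, nat_lit 8, nat_lit 217, nat_lit 0, nat_lit 0, nat_lit 0, nat_lit 0, nat_lit 0, nat_lit 0, nat_lit 0, nat_lit 0, nat_lit 0, nat_lit 0, nat_lit 5000000, false, false⟩,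
 nat_lit 0, nat_lit 0, nat_lit 0, nat_lit 0, nat_lit 0, nat_lit 0, nat_lit 0, nat_lit 0, nat_lit 349, nat_lit 0, nat_lit 0, nat_lit 0, nat_lit 0, nat_lit 14035154588861, nat_lit 0, nat_lit 400000, nat_lit 0, nat_lit 0, [(nat_lit 18, [(nat_lit 1, nat_lit 1000)])],
 ⟨p023_k10, nat_lit 0, nat_lit 0, nat_lit 0, nat_lit 0, nat_lit 1362077, [nat_lit 1398133334, nat_lit 1966666667, nat_lit 1960800000], [], [nat_lit 12705438352, nat_lit 12740271680, nat_lit 12897178070, nat_lit 12941848940], nat_lit 1271250, nat_lit 1271250, nat_lit 968401, nat_lit 1033601, nat_lit 0, nat_lit 0, [nat_lit 490000, nat_lit 1100000, nat_lit 1442500], [nat_lit 6, nat_lit 40, nat_lit 80, nat_lit 80]⟩, C1.Rw.none,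
 ⟨nat_lit 4415, nat_lit 4445, ⟨.ofNat (nat_lit 535601), .ofNat (nat_lit 549163), .ofNat (nat_lit 536680), .ofNat (nat_lit 550241), .ofNat (nat_lit 535898), .ofNat (nat_lit 549425), .ofNat (nat_lit 536977), .ofNat (nat_lit 550504)⟩, ⟨.ofNat (nat_lit 0), .ofNat (nat_lit 0), .ofNat (nat_lit 0), .ofNat (nat_lit 0), .ofNat (nat_lit 0), .ofNat (nat_lit 0), .ofNat (nat_lit 0), .ofNat (nat_lit 0)⟩⟩, []⟩
noncomputable def p023_l197 : Lf2 := ⟨nat_lit 0, nat_lit 5, [nat_lit 4, nat_lit 5, nat_lit 5, nat_lit 20], false, nat_lit 0, nat_lit 0, nat_lit 0, nat_lit 0, ⟨nat_lit 1000, nat_lit 0, nat_lit 0, nat_lit 0, nat_lit 0, nat_lit 0, nat_lit 0, nat_lit 0, nat_lit 0, nat_lit 0, nat_lit 0, nat_lit 0, nat_lit 0, nat_lit 0, nat_lit 0, nat_lit 0, false, false⟩,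
 nat_lit 0, nat_lit 0, nat_lit 0, nat_lit 0, nat_lit 0, nat_lit 4031, nat_lit 133, nat_lit 0, nat_lit 456, nat_lit 722, nat_lit 0, nat_lit 0, nat_lit 0, nat_lit 400000000000000, nat_lit 0, nat_lit 0, nat_lit 0, nat_lit 0, [],
 ⟨p023_k10, nat_lit 0, nat_lit 0, nat_lit 0, nat_lit 0, nat_lit 1362077, [nat_lit 2032000001, nat_lit 4688000000, nat_lit 6250000000], [], [nat_lit 15084644130, nat_lit 15109238810, nat_lit 15234190530, nat_lit 15260128560], nat_lit 1271250, nat_lit 1271250, nat_lit 968401, nat_lit 1033601, nat_lit 0, nat_lit 0, [nat_lit 490000, nat_lit 1100000, nat_lit 1442500], [nat_lit 6, nat_lit 40, nat_lit 80, nat_lit 80]⟩, ⟨p023_k10, nat_lit 0, nat_lit 0, nat_lit 110, nat_lit 0, nat_lit 0, [nat_lit 2032000000, nat_lit 4688000000, nat_lit 6250000000], [], [nat_lit 20869973331, nat_lit 20961342452, nat_lit 20978302860, nat_lit 21063934663], nat_lit 0, nat_lit 0, nat_lit 0, nat_lit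 0, nat_lit 0, nat_lit 0, [], [nat_lit 6, nat_lit 40, nat_lit 80, nat_lit 80, nat_lit 3, nat_lit 249, nat_lit 40, nat_lit 9]⟩,
 zbF0, [⟨nat_lit 0, nat_lit 82, nat_lit 82, nat_lit 100, nat_lit 430817870⟩]⟩
noncomputable def p023_l198 : Lf2 := ⟨nat_lit 0, nat_lit 5, [nat_lit 4, nat_lit 5, nat_lit 5, nat_lit 20], false, nat_lit 0, nat_lit 0, nat_lit 0, nat_lit 0, ⟨nat_lit 1000, nat_lit 0, nat_lit 0, nat_lit 0, nat_lit 0, nat_lit 0, nat_lit 0, nat_lit 0, nat_lit 0, nat_lit 0, nat_lit 0, nat_lit 0, nat_lit 0, nat_lit 0, nat_lit 0, nat_lit 0, false, false⟩,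
 nat_lit 0, nat_lit 0, nat_lit 0, nat_lit 0, nat_lit 0, nat_lit 4051, nat_lit 138, nat_lit 0, nat_lit 451, nat_lit 722, nat_lit 0, nat_lit 0, nat_lit 0, nat_lit 0, nat_lit 0, nat_lit 0, nat_lit 0, nat_lit 0, [],
 ⟨p023_k10, nat_lit 0, nat_lit 0, nat_lit 0, nat_lit 0, nat_lit 1362077, [nat_lit 2032000001, nat_lit 4688000000, nat_lit 6250000000], [], [nat_lit 15561602530, nat_lit 15586145060, nat_lit 15707686890, nat_lit 15732161680], nat_lit 1271250, nat_lit 1271250, nat_lit 968401, nat_lit 1033601, nat_lit 0, nat_lit 0, [nat_lit 490000, nat_lit 1100000, nat_lit 1442500], [nat_lit 6, nat_lit 40, nat_lit 80, nat_lit 80]⟩, ⟨p023_k10, nat_lit 0, nat_lit 0, nat_lit 110, nat_lit 0, nat_lit 0, [nat_lit 2032000000, nat_lit 4688000000, nat_lit 6250000000], [], [nat_lit 20871684054, nat_lit 20963044968, nat_lit 20962586433, nat_lit 21053003721], nat_lit 0, nat_lit 0, nat_lit 0, nat_lit 0, nat_lit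 0, nat_lit 0, [], [nat_lit 6, nat_lit 40, nat_lit 80, nat_lit 80, nat_lit 3, nat_lit 249, nat_lit 40, nat_lit 9]⟩,
 zbF0, [⟨nat_lit 0, nat_lit 83, nat_lit 83, nat_lit 100, nat_lit 522769872⟩]⟩
noncomputable def p023_l199 : Lf2 := ⟨nat_lit 0, nat_lit 5, [nat_lit 4, nat_lit 5, nat_lit 5, nat_lit 20], false, nat_lit 0, nat_lit 0, nat_lit 0, nat_lit 0, ⟨nat_lit 1000, nat_lit 0, nat_lit 0, nat_lit 0, nat_lit 0, nat_lit 0, nat_lit 0, nat_lit 0, nat_lit 0, nat_lit 0, nat_lit 0, nat_lit 0, nat_lit 0, nat_lit 0, nat_lit 0, nat_lit 0, false, false⟩,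
 nat_lit 0, nat_lit 8821, nat_lit 0, nat_lit 0, nat_lit 6641, nat_lit 4016, nat_lit 481, nat_lit 0, nat_lit 0, nat_lit 1346, nat_lit 0, nat_lit 0, nat_lit 0, nat_lit 15455192434446, nat_lit 0, nat_lit 0, nat_lit 0, nat_lit 0, [],
 ⟨p023_k10, nat_lit 0, nat_lit 0, nat_lit 680, nat_lit 0, nat_lit 1362077, [nat_lit 2032000001, nat_lit 4688000000, nat_lit 6250000000], [], [nat_lit 32516282421, nat_lit 32551400384, nat_lit 32489593193, nat_lit 32524297363], nat_lit 1271250, nat_lit 1271250, nat_lit 968401, nat_lit 1033601, nat_lit 0, nat_lit 0, [nat_lit 490000, nat_lit 1100000, nat_lit 1442500], [nat_lit 6, nat_lit 40, nat_lit 80, nat_lit 80, nat_lit 3, nat_lit 249, nat_lit 40, nat_lit 9]⟩, ⟨p023_k11, nat_lit 0, nat_lit 0, nat_lit 0, nat_lit 0, nat_lit 0, [nat_lit 2032000000, nat_lit 3282000000, nat_lit 4688000000, nat_lit 6250000000], [], [nat_lit 18703803330, nat_lit 18784736698, nat_lit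 18799964113, nat_lit 18879621838], nat_lit 0, nat_lit 0, nat_lit 0, nat_lit 0, nat_lit 0, nat_lit 0, [], [nat_lit 127, nat_lit 40, nat_lit 80, nat_lit 80]⟩,
 zbF0, [⟨nat_lit 0, nat_lit 82, nat_lit 82, nat_lit 100, nat_lit 688469658⟩]⟩
noncomputable def p023_l200 : Lf2 := ⟨nat_lit 3, nat_lit 5, [nat_lit 4, nat_lit 5, nat_lit 5, nat_lit 20], false, nat_lit 0, nat_lit 0, nat_lit 0, nat_lit 0, zbN0,
 nat_lit 0, nat_lit 0, nat_lit 0, nat_lit 0, nat_lit 0, nat_lit 0, nat_lit 0, nat_lit 0, nat_lit 0, nat_lit 0, nat_lit 0, nat_lit 0, nat_lit 0, nat_lit 0, nat_lit 0, nat_lit 0, nat_lit 0, nat_lit 0, [],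
 C1.Rw.none, ⟨p023_k10, nat_lit 0, nat_lit 0, nat_lit 0, nat_lit 0, nat_lit 0, [], [], [], nat_lit 0, nat_lit 0, nat_lit 0, nat_lit 0, nat_lit 0, nat_lit 0, [], [nat_lit 6, nat_lit 40, nat_lit 80, nat_lit 80]⟩,
 zbF0, []⟩
noncomputable def p023_l201 : Lf2 := ⟨nat_lit 3, nat_lit 5, [nat_lit 4, nat_lit 5, nat_lit 5, nat_lit 20], false, nat_lit 0, nat_lit 0, nat_lit 0, nat_lit 0, zbN0,
 nat_lit 0, nat_lit 0, nat_lit 0, nat_lit 0, nat_lit 0, nat_lit 0, nat_lit 0, nat_lit 0, nat_lit 0, nat_lit 0, nat_lit 0, nat_lit 0, nat_lit 0, nat_lit 0, nat_lit 0, nat_lit 0, nat_lit 0, nat_lit 0, [],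
 C1.Rw.none, ⟨p023_k10, nat_lit 0, nat_lit 0, nat_lit 110, nat_lit 0, nat_lit 0, [], [], [], nat_lit 0, nat_lit 0, nat_lit 0, nat_lit 0, nat_lit 0, nat_lit 0, [], [nat_lit 6, nat_lit 40, nat_lit 80, nat_lit 80, nat_lit 3, nat_lit 249, nat_lit 40, nat_lit 9]⟩,
 zbF0, []⟩
noncomputable def p023_l202 : Lf2 := ⟨nat_lit 0, nat_lit 5, [nat_lit 4, nat_lit 5, nat_lit 5, nat_lit 20], true, nat_lit 0, nat_lit 0, nat_lit 0, nat_lit 0, ⟨nat_lit 0, nat_lit 1000, nat_lit 0, nat_lit 8, nat_lit 221, nat_lit 0, nat_lit 0, nat_lit 0, nat_lit 0, nat_lit 0, nat_lit 0, nat_lit 0, nat_lit 0, nat_lit 0, nat_lit 0, nat_lit 5000000, false, false⟩,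
 nat_lit 0, nat_lit 0, nat_lit 0, nat_lit 0, nat_lit 0, nat_lit 0, nat_lit 0, nat_lit 0, nat_lit 348, nat_lit 0, nat_lit 0, nat_lit 0, nat_lit 0, nat_lit 9705137729721, nat_lit 0, nat_lit 400000, nat_lit 0, nat_lit 0, [(nat_lit 18, [(nat_lit 1, nat_lit 1000)])],
 ⟨p023_k10, nat_lit 0, nat_lit 0, nat_lit 0, nat_lit 0, nat_lit 1362077, [nat_lit 1398133334, nat_lit 1966666667, nat_lit 1960800000], [], [nat_lit 12945531362, nat_lit 12976458852, nat_lit 13033577867, nat_lit 13064410463], nat_lit 1271250, nat_lit 1271250, nat_lit 1033601, nat_lit 1066650, nat_lit 0, nat_lit 0, [nat_lit 490000, nat_lit 1100000, nat_lit 1442500], [nat_lit 6, nat_lit 40, nat_lit 80, nat_lit 80]⟩, C1.Rw.none,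
 ⟨nat_lit 4415, nat_lit 4445, ⟨.ofNat (nat_lit 549163), .ofNat (nat_lit 555943), .ofNat (nat_lit 550241), .ofNat (nat_lit 557022), .ofNat (nat_lit 549425), .ofNat (nat_lit 556188), .ofNat (nat_lit 550504), .ofNat (nat_lit 557267)⟩, ⟨.ofNat (nat_lit 0), .ofNat (nat_lit 0), .ofNat (nat_lit 0), .ofNat (nat_lit 0), .ofNat (nat_lit 0), .ofNat (nat_lit 0), .ofNat (nat_lit 0), .ofNat (nat_lit 0)⟩⟩, []⟩
noncomputable def p023_l203 : Lf2 := ⟨nat_lit 0, nat_lit 5, [nat_lit 4, nat_lit 5, nat_lit 5, nat_lit 20], false, nat_lit 0, nat_lit 0, nat_lit 0, nat_lit 0, ⟨nat_lit 1000, nat_lit 0, nat_lit 0, nat_lit 0, nat_lit 0, nat_lit 0, nat_lit 0, nat_lit 0, nat_lit 0, nat_lit 0, nat_lit 0, nat_lit 0, nat_lit 0, nat_lit 0, nat_lit 0, nat_lit 0, false, false⟩,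
 nat_lit 0, nat_lit 0, nat_lit 0, nat_lit 0, nat_lit 0, nat_lit 3563, nat_lit 143, nat_lit 0, nat_lit 459, nat_lit 711, nat_lit 0, nat_lit 0, nat_lit 0, nat_lit 400000000000000, nat_lit 0, nat_lit 0, nat_lit 0, nat_lit 0, [],
 ⟨p023_k10, nat_lit 0, nat_lit 0, nat_lit 0, nat_lit 0, nat_lit 1362077, [nat_lit 2032000001, nat_lit 4688000000, nat_lit 6250000000], [], [nat_lit 14937315530, nat_lit 14963253560, nat_lit 15013369965, nat_lit 15039487715], nat_lit 1271250, nat_lit 1271250, nat_lit 1033601, nat_lit 1066650, nat_lit 0, nat_lit 0, [nat_lit 490000, nat_lit 1100000, nat_lit 1442500], [nat_lit 6, nat_lit 40, nat_lit 80, nat_lit 80]⟩, ⟨p023_k10, nat_lit 0, nat_lit 0, nat_lit 108, nat_lit 0, nat_lit 0, [nat_lit 2032000000, nat_lit 4688000000, nat_lit 6250000000], [], [nat_lit 21349015920, nat_lit 21427334660, nat_lit 21406392107, nat_lit 21486072210], nat_lit 0, nat_lit 0, nat_lit 0, nat_lit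 0, nat_lit 0, nat_lit 0, [], [nat_lit 6, nat_lit 40, nat_lit 80, nat_lit 80, nat_lit 3, nat_lit 249, nat_lit 40, nat_lit 9]⟩,
 zbF0, []⟩
noncomputable def p023_l204 : Lf2 := ⟨nat_lit 0, nat_lit 5, [nat_lit 4, nat_lit 5, nat_lit 5, nat_lit 20], false, nat_lit 0, nat_lit 0, nat_lit 0, nat_lit 0, ⟨nat_lit 1000, nat_lit 0, nat_lit 0, nat_lit 0, nat_lit 0, nat_lit 0, nat_lit 0, nat_lit 0, nat_lit 0, nat_lit 0, nat_lit 0, nat_lit 0, nat_lit 0, nat_lit 0, nat_lit 0, nat_lit 0, false, false⟩,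
 nat_lit 0, nat_lit 0, nat_lit 0, nat_lit 0, nat_lit 0, nat_lit 4051, nat_lit 138, nat_lit 0, nat_lit 450, nat_lit 719, nat_lit 0, nat_lit 0, nat_lit 0, nat_lit 7016789212972, nat_lit 0, nat_lit 0, nat_lit 0, nat_lit 0, [],
 ⟨p023_k10, nat_lit 0, nat_lit 0, nat_lit 0, nat_lit 0, nat_lit 1362077, [nat_lit 2032000001, nat_lit 4688000000, nat_lit 6250000000], [], [nat_lit 15809033420, nat_lit 15831593990, nat_lit 15877716285, nat_lit 15901169991], nat_lit 1271250, nat_lit 1271250, nat_lit 1033601, nat_lit 1066650, nat_lit 0, nat_lit 0, [nat_lit 490000, nat_lit 1100000, nat_lit 1442500], [nat_lit 6, nat_lit 40, nat_lit 80, nat_lit 80]⟩, ⟨p023_k10, nat_lit 0, nat_lit 0, nat_lit 108, nat_lit 0, nat_lit 0, [nat_lit 2032000000, nat_lit 4688000000, nat_lit 6250000000], [], [nat_lit 20963816543, nat_lit 21053313096, nat_lit 21016845797, nat_lit 21102215659], nat_lit 0, nat_lit 0, nat_lit 0, nat_lit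 0, nat_lit 0, nat_lit 0, [], [nat_lit 6, nat_lit 40, nat_lit 80, nat_lit 80, nat_lit 3, nat_lit 249, nat_lit 40, nat_lit 9]⟩,
 zbF0, []⟩
noncomputable def p023_l205 : Lf2 := ⟨nat_lit 0, nat_lit 5, [nat_lit 4, nat_lit 5, nat_lit 5, nat_lit 20], false, nat_lit 0, nat_lit 0, nat_lit 0, nat_lit 0, ⟨nat_lit 1000, nat_lit 0, nat_lit 0, nat_lit 0, nat_lit 0, nat_lit 0, nat_lit 0, nat_lit 0, nat_lit 0, nat_lit 0, nat_lit 0, nat_lit 0, nat_lit 0, nat_lit 0, nat_lit 0, nat_lit 0, false, false⟩,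
 nat_lit 0, nat_lit 8821, nat_lit 0, nat_lit 0, nat_lit 6641, nat_lit 4034, nat_lit 480, nat_lit 0, nat_lit 0, nat_lit 1342, nat_lit 0, nat_lit 0, nat_lit 0, nat_lit 0, nat_lit 0, nat_lit 0, nat_lit 0, nat_lit 0, [],
 ⟨p023_k10, nat_lit 0, nat_lit 0, nat_lit 677, nat_lit 0, nat_lit 1362077, [nat_lit 2032000001, nat_lit 4688000000, nat_lit 6250000000], [], [nat_lit 32490315068, nat_lit 32525019238, nat_lit 32476970453, nat_lit 32513592845], nat_lit 1271250, nat_lit 1271250, nat_lit 1033601, nat_lit 1066650, nat_lit 0, nat_lit 0, [nat_lit 490000, nat_lit 1100000, nat_lit 1442500], [nat_lit 6, nat_lit 40, nat_lit 80, nat_lit 80, nat_lit 3, nat_lit 249, nat_lit 40, nat_lit 9]⟩, ⟨p023_k11, nat_lit 0, nat_lit 0, nat_lit 0, nat_lit 0, nat_lit 0, [nat_lit 2032000000, nat_lit 3282000000, nat_lit 4688000000, nat_lit 6250000000], [], [nat_lit 18801809240, nat_lit 18881659087, nat_lit 18849679895,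 nat_lit 18929075170], nat_lit 0, nat_lit 0, nat_lit 0, nat_lit 0, nat_lit 0, nat_lit 0, [], [nat_lit 127, nat_lit 40, nat_lit 80, nat_lit 80]⟩,
 zbF0, []⟩
noncomputable def p023_l206 : Lf2 := ⟨nat_lit 3, nat_lit 5, [nat_lit 4, nat_lit 5, nat_lit 5, nat_lit 20], false, nat_lit 0, nat_lit 0, nat_lit 0, nat_lit 0, zbN0,
 nat_lit 0, nat_lit 0, nat_lit 0, nat_lit 0, nat_lit 0, nat_lit 0, nat_lit 0, nat_lit 0, nat_lit 0, nat_lit 0, nat_lit 0, nat_lit 0, nat_lit 0, nat_lit 0, nat_lit 0, nat_lit 0, nat_lit 0, nat_lit 0, [],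
 C1.Rw.none, ⟨p023_k10, nat_lit 0, nat_lit 0, nat_lit 0, nat_lit 0, nat_lit 0, [], [], [], nat_lit 0, nat_lit 0, nat_lit 0, nat_lit 0, nat_lit 0, nat_lit 0, [], [nat_lit 6, nat_lit 40, nat_lit 80, nat_lit 80]⟩,
 zbF0, []⟩
noncomputable def p023_l207 : Lf2 := ⟨nat_lit 3, nat_lit 5, [nat_lit 4, nat_lit 5, nat_lit 5, nat_lit 20], false, nat_lit 0, nat_lit 0, nat_lit 0, nat_lit 0, zbN0,
 nat_lit 0, nat_lit 0, nat_lit 0, nat_lit 0, nat_lit 0, nat_lit 0, nat_lit 0, nat_lit 0, nat_lit 0, nat_lit 0, nat_lit 0, nat_lit 0, nat_lit 0, nat_lit 0, nat_lit 0, nat_lit 0, nat_lit 0, nat_lit 0, [],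
 C1.Rw.none, ⟨p023_k10, nat_lit 0, nat_lit 0, nat_lit 108, nat_lit 0, nat_lit 0, [], [], [], nat_lit 0, nat_lit 0, nat_lit 0, nat_lit 0, nat_lit 0, nat_lit 0, [], [nat_lit 6, nat_lit 40, nat_lit 80, nat_lit 80, nat_lit 3, nat_lit 249, nat_lit 40, nat_lit 9]⟩,
 zbF0, []⟩
noncomputable def p023_l208 : Lf2 := ⟨nat_lit 0, nat_lit 5, [nat_lit 4, nat_lit 5, nat_lit 5, nat_lit 20], false, nat_lit 0, nat_lit 0, nat_lit 0, nat_lit 0, ⟨nat_lit 1000, nat_lit 0, nat_lit 0, nat_lit 0, nat_lit 0, nat_lit 0, nat_lit 0, nat_lit 0, nat_lit 0, nat_lit 0, nat_lit 0, nat_lit 0, nat_lit 0, nat_lit 0, nat_lit 0, nat_lit 0, false, false⟩,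
 nat_lit 0, nat_lit 8817, nat_lit 0, nat_lit 0, nat_lit 6638, nat_lit 4055, nat_lit 478, nat_lit 0, nat_lit 0, nat_lit 717, nat_lit 0, nat_lit 0, nat_lit 0, nat_lit 0, nat_lit 0, nat_lit 0, nat_lit 0, nat_lit 0, [],
 ⟨p023_k10, nat_lit 0, nat_lit 0, nat_lit 675, nat_lit 0, nat_lit 1362077, [nat_lit 2032000001, nat_lit 4688000000, nat_lit 6250000000], [], [nat_lit 32496393495, nat_lit 32531623767, nat_lit 32483084395, nat_lit 32519295972], nat_lit 1271250, nat_lit 1271250, nat_lit 1066650, nat_lit 1100001, nat_lit 0, nat_lit 0, [nat_lit 490000, nat_lit 1100000, nat_lit 1442500], [nat_lit 6, nat_lit 40, nat_lit 80, nat_lit 80, nat_lit 3, nat_lit 249, nat_lit 40, nat_lit 9]⟩, ⟨p023_k10, nat_lit 0, nat_lit 0, nat_lit 107, nat_lit 0, nat_lit 0, [nat_lit 2032000000, nat_lit 4688000000, nat_lit 6250000000], [], [nat_lit 21013865807, nat_lit 21099282306, nat_lit 21067772841, nat_lit 21152692047],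 nat_lit 0, nat_lit 0, nat_lit 0, nat_lit 0, nat_lit 0, nat_lit 0, [], [nat_lit 6, nat_lit 40, nat_lit 80, nat_lit 80, nat_lit 3, nat_lit 249, nat_lit 40, nat_lit 9]⟩,
 zbF0, []⟩
noncomputable def p023_l209 : Lf2 := ⟨nat_lit 0, nat_lit 5, [nat_lit 4, nat_lit 5, nat_lit 5, nat_lit 20], false, nat_lit 0, nat_lit 0, nat_lit 0, nat_lit 0, ⟨nat_lit 1000, nat_lit 0, nat_lit 0, nat_lit 0, nat_lit 0, nat_lit 0, nat_lit 0, nat_lit 0, nat_lit 0, nat_lit 0, nat_lit 0, nat_lit 0, nat_lit 0, nat_lit 0, nat_lit 0, nat_lit 0, false, false⟩,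
 nat_lit 0, nat_lit 8856, nat_lit 0, nat_lit 0, nat_lit 6641, nat_lit 4072, nat_lit 474, nat_lit 0, nat_lit 0, nat_lit 712, nat_lit 0, nat_lit 0, nat_lit 0, nat_lit 0, nat_lit 0, nat_lit 0, nat_lit 0, nat_lit 0, [],
 ⟨p023_k8, nat_lit 0, nat_lit 0, nat_lit 671, nat_lit 0, nat_lit 1353657, [nat_lit 2032000001, nat_lit 4688000000, nat_lit 6250000000], [], [nat_lit 32775835462, nat_lit 32810954670, nat_lit 33228056072, nat_lit 33265274842], nat_lit 1271250, nat_lit 1271250, nat_lit 1100001, nat_lit 1442500, nat_lit 0, nat_lit 0, [nat_lit 490000, nat_lit 1100000, nat_lit 1442500], [nat_lit 6, nat_lit 40, nat_lit 80, nat_lit 80, nat_lit 3, nat_lit 260, nat_lit 50, nat_lit 9]⟩, ⟨p023_k8, nat_lit 0, nat_lit 0, nat_lit 109, nat_lit 0, nat_lit 0, [nat_lit 2032000000, nat_lit 4688000000, nat_lit 6250000000], [], [nat_lit 21042873504, nat_lit 21127989387, nat_lit 22538372720, nat_lit 22622371687],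 nat_lit 0, nat_lit 0, nat_lit 0, nat_lit 0, nat_lit 0, nat_lit 0, [], [nat_lit 6, nat_lit 40, nat_lit 80, nat_lit 80, nat_lit 3, nat_lit 260, nat_lit 50, nat_lit 9]⟩,
 zbF0, []⟩
noncomputable def p023_l210 : Lf2 := ⟨nat_lit 0, nat_lit 5, [nat_lit 4, nat_lit 5, nat_lit 5, nat_lit 20], false, nat_lit 0, nat_lit 0, nat_lit 0, nat_lit 0, ⟨nat_lit 1000, nat_lit 0, nat_lit 0, nat_lit 0, nat_lit 0, nat_lit 0, nat_lit 0, nat_lit 0, nat_lit 0, nat_lit 0, nat_lit 0, nat_lit 0, nat_lit 0, nat_lit 0, nat_lit 0, nat_lit 0, false, false⟩,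
 nat_lit 0, nat_lit 8813, nat_lit 0, nat_lit 0, nat_lit 6635, nat_lit 4065, nat_lit 477, nat_lit 0, nat_lit 0, nat_lit 710, nat_lit 0, nat_lit 0, nat_lit 0, nat_lit 0, nat_lit 0, nat_lit 0, nat_lit 0, nat_lit 0, [],
 ⟨p023_k10, nat_lit 0, nat_lit 0, nat_lit 674, nat_lit 0, nat_lit 1362077, [nat_lit 2032000001, nat_lit 4688000000, nat_lit 6250000000], [], [nat_lit 32501821075, nat_lit 32536099423, nat_lit 32951591484, nat_lit 32988796423], nat_lit 1271250, nat_lit 1271250, nat_lit 1100001, nat_lit 1442500, nat_lit 0, nat_lit 0, [nat_lit 490000, nat_lit 1100000, nat_lit 1442500], [nat_lit 6, nat_lit 40, nat_lit 80, nat_lit 80, nat_lit 3, nat_lit 260, nat_lit 50, nat_lit 9]⟩, ⟨p023_k8, nat_lit 0, nat_lit 0, nat_lit 110, nat_lit 0, nat_lit 0, [nat_lit 2032000000, nat_lit 4688000000, nat_lit 6250000000], [], [nat_lit 21050351000, nat_lit 21218675376, nat_lit 22537742650, nat_lit 22705582848],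 nat_lit 0, nat_lit 0, nat_lit 0, nat_lit 0, nat_lit 0, nat_lit 0, [], [nat_lit 6, nat_lit 40, nat_lit 80, nat_lit 80, nat_lit 3, nat_lit 260, nat_lit 50, nat_lit 9]⟩,
 zbF0, []⟩
noncomputable def p023_l211 : Lf2 := ⟨nat_lit 0, nat_lit 5, [nat_lit 4, nat_lit 5, nat_lit 5, nat_lit 20], false, nat_lit 0, nat_lit 0, nat_lit 0, nat_lit 0, ⟨nat_lit 1000, nat_lit 0, nat_lit 0, nat_lit 0, nat_lit 0, nat_lit 0, nat_lit 0, nat_lit 0, nat_lit 0, nat_lit 0, nat_lit 0, nat_lit 0, nat_lit 0, nat_lit 0, nat_lit 0, nat_lit 0, false, false⟩,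
 nat_lit 0, nat_lit 8718, nat_lit 0, nat_lit 0, nat_lit 6538, nat_lit 4026, nat_lit 460, nat_lit 0, nat_lit 0, nat_lit 682, nat_lit 0, nat_lit 0, nat_lit 0, nat_lit 0, nat_lit 0, nat_lit 0, nat_lit 0, nat_lit 0, [],
 ⟨p023_k8, nat_lit 0, nat_lit 0, nat_lit 669, nat_lit 0, nat_lit 1369231, [nat_lit 2032000001, nat_lit 4688000000, nat_lit 6250000000], [], [nat_lit 33765425638, nat_lit 33828967639, nat_lit 34217713520, nat_lit 34286273066], nat_lit 1271250, nat_lit 1271250, nat_lit 1271250, nat_lit 1271250, nat_lit 0, nat_lit 0, [nat_lit 490000, nat_lit 1100000, nat_lit 1442500], [nat_lit 6, nat_lit 40, nat_lit 80, nat_lit 80, nat_lit 3, nat_lit 238, nat_lit 0, nat_lit 8]⟩, ⟨p023_k8, nat_lit 0, nat_lit 0, nat_lit 114, nat_lit 0, nat_lit 0, [nat_lit 2032000000, nat_lit 4688000000, nat_lit 6250000000], [], [nat_lit 22546590720, nat_lit 22701796430, nat_lit 24031559080, nat_lit 24185777144],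 nat_lit 0, nat_lit 0, nat_lit 0, nat_lit 0, nat_lit 0, nat_lit 0, [], [nat_lit 6, nat_lit 40, nat_lit 80, nat_lit 80, nat_lit 3, nat_lit 203, nat_lit 0, nat_lit 7]⟩,
 zbF0, []⟩
noncomputable def p023_l212 : Lf2 := ⟨nat_lit 0, nat_lit 5, [nat_lit 4, nat_lit 5, nat_lit 5, nat_lit 20], false, nat_lit 0, nat_lit 0, nat_lit 0, nat_lit 0, ⟨nat_lit 1000, nat_lit 0, nat_lit 0, nat_lit 0, nat_lit 0, nat_lit 0, nat_lit 0, nat_lit 0, nat_lit 0, nat_lit 0, nat_lit 0, nat_lit 0, nat_lit 0, nat_lit 0, nat_lit 0, nat_lit 0, false, false⟩,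
 nat_lit 0, nat_lit 8786, nat_lit 0, nat_lit 0, nat_lit 6640, nat_lit 4025, nat_lit 2309, nat_lit 0, nat_lit 0, nat_lit 715, nat_lit 0, nat_lit 0, nat_lit 0, nat_lit 0, nat_lit 0, nat_lit 0, nat_lit 0, nat_lit 0, [],
 ⟨p023_k12, nat_lit 0, nat_lit 0, nat_lit 597, nat_lit 0, nat_lit 1361546, [nat_lit 2032000001, nat_lit 4688000000], [], [nat_lit 28914337115, nat_lit 28949452976, nat_lit 29770731544, nat_lit 29805212827], nat_lit 1271250, nat_lit 1271250, nat_lit 968401, nat_lit 1776000, nat_lit 0, nat_lit 0, [nat_lit 490000, nat_lit 1100000], [nat_lit 24, nat_lit 40, nat_lit 80, nat_lit 80, nat_lit 33, nat_lit 272, nat_lit 60, nat_lit 12]⟩, ⟨p023_k8, nat_lit 0, nat_lit 0, nat_lit 114, nat_lit 0, nat_lit 0, [nat_lit 2032000000, nat_lit 4688000000, nat_lit 6250000000], [], [nat_lit 20867274181, nat_lit 21036458670, nat_lit 24031386500, nat_lit 24185584401], nat_lit 0, nat_lit 0, nat_lit 0,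 nat_lit 0, nat_lit 0, nat_lit 0, [], [nat_lit 6, nat_lit 40, nat_lit 80, nat_lit 80, nat_lit 3, nat_lit 272, nat_lit 60, nat_lit 10]⟩,
 zbF0, [⟨nat_lit 0, nat_lit 82, nat_lit 81, nat_lit 100, nat_lit 406100525⟩]⟩
noncomputable def p023_l213 : Lf2 := ⟨nat_lit 0, nat_lit 5, [nat_lit 4, nat_lit 5, nat_lit 5, nat_lit 20], false, nat_lit 0, nat_lit 0, nat_lit 0, nat_lit 0, ⟨nat_lit 1000, nat_lit 0, nat_lit 0, nat_lit 0, nat_lit 0, nat_lit 0, nat_lit 0, nat_lit 0, nat_lit 0, nat_lit 0, nat_lit 0, nat_lit 0, nat_lit 0, nat_lit 0, nat_lit 0, nat_lit 0, false, false⟩,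
 nat_lit 0, nat_lit 8782, nat_lit 0, nat_lit 0, nat_lit 6638, nat_lit 4028, nat_lit 3026, nat_lit 0, nat_lit 0, nat_lit 0, nat_lit 0, nat_lit 0, nat_lit 0, nat_lit 0, nat_lit 0, nat_lit 0, nat_lit 0, nat_lit 0, [],
 ⟨p023_k12, nat_lit 0, nat_lit 0, nat_lit 599, nat_lit 0, nat_lit 1370354, [nat_lit 2032000001, nat_lit 4688000000], [], [nat_lit 27673666529, nat_lit 27708571362, nat_lit 28541965936, nat_lit 28576443269], nat_lit 1271250, nat_lit 1271250, nat_lit 1000851, nat_lit 1778250, nat_lit 0, nat_lit 0, [nat_lit 490000, nat_lit 1100000], [nat_lit 24, nat_lit 40, nat_lit 80, nat_lit 80, nat_lit 33, nat_lit 272, nat_lit 60, nat_lit 12]⟩, ⟨p023_k12, nat_lit 0, nat_lit 0, nat_lit 90, nat_lit 0, nat_lit 0, [nat_lit 2032000000, nat_lit 4688000000], [], [nat_lit 21087011008, nat_lit 21173102422, nat_lit 24186162632, nat_lit 24263291829], nat_lit 0, nat_lit 0, nat_lit 0, nat_lit 0, nat_lit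 0, nat_lit 0, [], [nat_lit 24, nat_lit 40, nat_lit 80, nat_lit 80, nat_lit 33, nat_lit 272, nat_lit 60, nat_lit 12]⟩,
 zbF0, [⟨nat_lit 0, nat_lit 81, nat_lit 81, nat_lit 100, nat_lit 398560011⟩]⟩
noncomputable def b_N_800_800_0_11 : St := ⟨false, nat_lit 1, nat_lit 0, nat_lit 2, nat_lit 40, nat_lit 320, nat_lit 323, nat_lit 320, nat_lit 323, nat_lit 140, nat_lit 240, nat_lit 0, nat_lit 0, nat_lit 0, nat_lit 0, nat_lit 0, nat_lit 0, nat_lit 16, nat_lit 20, nat_lit 0, nat_lit 0, nat_lit 0, nat_lit 0⟩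
theorem d_N_800_800_0_11 (h : EB TB.env) : Dead b_N_800_800_0_11 := chkB_sound0 h (T :=
(.spl (nat_lit 0) (nat_lit 322)
(.ord (.spl (nat_lit 2) (nat_lit 200)
(.spl (nat_lit 2) (nat_lit 160)
(.spl (nat_lit 1) (nat_lit 321)
(.spl (nat_lit 7) (nat_lit 600)
(.leaf p023_l190)
(.spl (nat_lit 7) (nat_lit 900)
(.leaf p023_l191)
(.spl (nat_lit 7) (nat_lit 1060)
(.leaf p023_l192)
(.spl (nat_lit 8) (nat_lit 800)
(.spl (nat_lit 8) (nat_lit 400)
(.leaf p023_l193)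
(.leaf p023_l194))
(.leaf p023_l195)))))
(.ord (.trZ (nat_lit 0) (nat_lit 83) (nat_lit 83) (nat_lit 100) (nat_lit 144) (.spl (nat_lit 2) (nat_lit 152)
(.spl (nat_lit 7) (nat_lit 600)
(.leaf p023_l196)
(.spl (nat_lit 7) (nat_lit 900)
(.leaf p023_l197)
(.spl (nat_lit 7) (nat_lit 1060)
(.leaf p023_l198)
(.spl (nat_lit 8) (nat_lit 800)
(.spl (nat_lit 8) (nat_lit 400)
(.leaf p023_l199)
(.leaf p023_l200))
(.leaf p023_l201)))))
(.spl (nat_lit 2) (nat_lit 156)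
(.spl (nat_lit 7) (nat_lit 600)
(.leaf p023_l202)
(.spl (nat_lit 7) (nat_lit 900)
(.leaf p023_l203)
(.spl (nat_lit 7) (nat_lit 1060)
(.leaf p023_l204)
(.spl (nat_lit 8) (nat_lit 800)
(.spl (nat_lit 8) (nat_lit 400)
(.leaf p023_l205)
(.leaf p023_l206))
(.leaf p023_l207)))))
(.leaf p023_l208))))))
(.spl (nat_lit 0) (nat_lit 321)
(.ord (.leaf p023_l209))
(.leaf p023_l210)))
(.leaf p023_l211)))
(.trZ (nat_lit 0) (nat_lit 83) (nat_lit 82) (nat_lit 100) (nat_lit 144) (.spl (nat_lit 1) (nat_lit 322)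
(.leaf p023_l212)
(.trZ (nat_lit 0) (nat_lit 82) (nat_lit 82) (nat_lit 100) (nat_lit 148) (.leaf p023_l213)))))) (by decide +kernel)
noncomputable def p023_l214 : Lf2 := ⟨nat_lit 0, nat_lit 6, [nat_lit 47, nat_lit 5, nat_lit 5, nat_lit 20], true, nat_lit 0, nat_lit 0, nat_lit 0, nat_lit 0, ⟨nat_lit 0, nat_lit 1000, nat_lit 0, nat_lit 8, nat_lit 215, nat_lit 0, nat_lit 0, nat_lit 0, nat_lit 0, nat_lit 0, nat_lit 0, nat_lit 0, nat_lit 0, nat_lit 0, nat_lit 0, nat_lit 5000000, false, false⟩,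
 nat_lit 0, nat_lit 0, nat_lit 0, nat_lit 0, nat_lit 0, nat_lit 0, nat_lit 0, nat_lit 0, nat_lit 349, nat_lit 0, nat_lit 0, nat_lit 0, nat_lit 0, nat_lit 14031886988854, nat_lit 0, nat_lit 400000, nat_lit 0, nat_lit 0, [(nat_lit 18, [(nat_lit 1, nat_lit 1000)])],
 ⟨p023_k14, nat_lit 0, nat_lit 0, nat_lit 0, nat_lit 0, nat_lit 1313955, [nat_lit 1398133334, nat_lit 1966666667, nat_lit 1960800000], [], [nat_lit 12586179672, nat_lit 12617391847, nat_lit 12852507200, nat_lit 12897178070], nat_lit 1271250, nat_lit 1271250, nat_lit 936251, nat_lit 1033601, nat_lit 0, nat_lit 0, [nat_lit 490000, nat_lit 1100000, nat_lit 1442500], [nat_lit 6, nat_lit 40, nat_lit 80, nat_lit 80]⟩, C1.Rw.none,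
 ⟨nat_lit 4444, nat_lit 4473, ⟨.ofNat (nat_lit 527430), .ofNat (nat_lit 547823), .ofNat (nat_lit 528508), .ofNat (nat_lit 548902), .ofNat (nat_lit 527742), .ofNat (nat_lit 548084), .ofNat (nat_lit 528821), .ofNat (nat_lit 549163)⟩, ⟨.ofNat (nat_lit 0), .ofNat (nat_lit 0), .ofNat (nat_lit 0), .ofNat (nat_lit 0), .ofNat (nat_lit 0), .ofNat (nat_lit 0), .ofNat (nat_lit 0), .ofNat (nat_lit 0)⟩⟩, []⟩
noncomputable def p023_l215 : Lf2 := ⟨nat_lit 0, nat_lit 6, [nat_lit 47, nat_lit 5, nat_lit 5, nat_lit 20], false, nat_lit 0, nat_lit 0, nat_lit 0, nat_lit 0, ⟨nat_lit 1000, nat_lit 0, nat_lit 0, nat_lit 0, nat_lit 0, nat_lit 0, nat_lit 0, nat_lit 0, nat_lit 0, nat_lit 0, nat_lit 0, nat_lit 0, nat_lit 0, nat_lit 0, nat_lit 0, nat_lit 0, false, false⟩,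
 nat_lit 0, nat_lit 0, nat_lit 0, nat_lit 0, nat_lit 0, nat_lit 6121, nat_lit 157, nat_lit 0, nat_lit 479, nat_lit 737, nat_lit 0, nat_lit 0, nat_lit 0, nat_lit 139870601102158, nat_lit 0, nat_lit 0, nat_lit 0, nat_lit 0, [],
 ⟨p023_k14, nat_lit 0, nat_lit 0, nat_lit 0, nat_lit 0, nat_lit 1313955, [nat_lit 2032000001, nat_lit 4688000000, nat_lit 6250000000], [], [nat_lit 13285746000, nat_lit 13315283525, nat_lit 13537722400, nat_lit 13570043810], nat_lit 1271250, nat_lit 1271250, nat_lit 936251, nat_lit 1033601, nat_lit 0, nat_lit 0, [nat_lit 490000, nat_lit 1100000, nat_lit 1442500], [nat_lit 6, nat_lit 40, nat_lit 80, nat_lit 80]⟩, ⟨p023_k14, nat_lit 0, nat_lit 0, nat_lit 110, nat_lit 0, nat_lit 0, [nat_lit 2032000000, nat_lit 4688000000, nat_lit 6250000000], [], [nat_lit 20979245252, nat_lit 21120027301, nat_lit 21015087901, nat_lit 21131657970], nat_lit 0, nat_lit 0, nat_lit 0, nat_lit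 0, nat_lit 0, nat_lit 0, [], [nat_lit 6, nat_lit 40, nat_lit 80, nat_lit 80, nat_lit 3, nat_lit 249, nat_lit 40, nat_lit 9]⟩,
 zbF0, [⟨nat_lit 0, nat_lit 83, nat_lit 83, nat_lit 100, nat_lit 565421233⟩]⟩
noncomputable def p023_l216 : Lf2 := ⟨nat_lit 0, nat_lit 6, [nat_lit 47, nat_lit 5, nat_lit 5, nat_lit 20], false, nat_lit 0, nat_lit 0, nat_lit 0, nat_lit 0, ⟨nat_lit 1000, nat_lit 0, nat_lit 0, nat_lit 0, nat_lit 0, nat_lit 0, nat_lit 0, nat_lit 0, nat_lit 0, nat_lit 0, nat_lit 0, nat_lit 0, nat_lit 0, nat_lit 0, nat_lit 0, nat_lit 0, false, false⟩,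
 nat_lit 0, nat_lit 0, nat_lit 0, nat_lit 0, nat_lit 0, nat_lit 4058, nat_lit 127, nat_lit 0, nat_lit 449, nat_lit 720, nat_lit 0, nat_lit 0, nat_lit 0, nat_lit 0, nat_lit 0, nat_lit 0, nat_lit 0, nat_lit 0, [],
 ⟨p023_k14, nat_lit 0, nat_lit 0, nat_lit 0, nat_lit 0, nat_lit 1313955, [nat_lit 2032000001, nat_lit 4688000000, nat_lit 6250000000], [], [nat_lit 15791889000, nat_lit 15815642775, nat_lit 16006206400, nat_lit 16030040790], nat_lit 1271250, nat_lit 1271250, nat_lit 936251, nat_lit 1033601, nat_lit 0, nat_lit 0, [nat_lit 490000, nat_lit 1100000, nat_lit 1442500], [nat_lit 6, nat_lit 40, nat_lit 80, nat_lit 80]⟩, ⟨p023_k14, nat_lit 0, nat_lit 0, nat_lit 110, nat_lit 0, nat_lit 0, [nat_lit 2032000000, nat_lit 4688000000, nat_lit 6250000000], [], [nat_lit 20808325096, nat_lit 20900331060, nat_lit 20945592894, nat_lit 21036569019], nat_lit 0, nat_lit 0, nat_lit 0, nat_lit 0, nat_lit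 0, nat_lit 0, [], [nat_lit 6, nat_lit 40, nat_lit 80, nat_lit 80, nat_lit 3, nat_lit 249, nat_lit 40, nat_lit 9]⟩,
 zbF0, [⟨nat_lit 0, nat_lit 83, nat_lit 83, nat_lit 100, nat_lit 525614372⟩]⟩
noncomputable def p023_l217 : Lf2 := ⟨nat_lit 0, nat_lit 6, [nat_lit 47, nat_lit 5, nat_lit 5, nat_lit 20], false, nat_lit 0, nat_lit 0, nat_lit 0, nat_lit 0, ⟨nat_lit 1000, nat_lit 0, nat_lit 0, nat_lit 0, nat_lit 0, nat_lit 0, nat_lit 0, nat_lit 0, nat_lit 0, nat_lit 0, nat_lit 0, nat_lit 0, nat_lit 0, nat_lit 0, nat_lit 0, nat_lit 0, false, false⟩,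
 nat_lit 0, nat_lit 8864, nat_lit 0, nat_lit 0, nat_lit 6647, nat_lit 4013, nat_lit 477, nat_lit 0, nat_lit 0, nat_lit 1365, nat_lit 0, nat_lit 0, nat_lit 0, nat_lit 0, nat_lit 0, nat_lit 0, nat_lit 0, nat_lit 0, [],
 ⟨p023_k14, nat_lit 0, nat_lit 0, nat_lit 662, nat_lit 0, nat_lit 1313955, [nat_lit 2032000001, nat_lit 4688000000, nat_lit 6250000000], [], [nat_lit 32807372000, nat_lit 32845794952, nat_lit 32766211021, nat_lit 32800927512], nat_lit 1271250, nat_lit 1271250, nat_lit 936251, nat_lit 1033601, nat_lit 0, nat_lit 0, [nat_lit 490000, nat_lit 1100000, nat_lit 1442500], [nat_lit 6, nat_lit 40, nat_lit 80, nat_lit 80, nat_lit 3, nat_lit 249, nat_lit 40, nat_lit 9]⟩, ⟨p023_k15, nat_lit 0, nat_lit 0, nat_lit 0, nat_lit 0, nat_lit 0, [nat_lit 2032000000, nat_lit 3282000000, nat_lit 4688000000, nat_lit 6250000000], [], [nat_lit 18624154434, nat_lit 18705736416, nat_lit 18769859012,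 nat_lit 18849484717], nat_lit 0, nat_lit 0, nat_lit 0, nat_lit 0, nat_lit 0, nat_lit 0, [], [nat_lit 127, nat_lit 40, nat_lit 80, nat_lit 80]⟩,
 zbF0, [⟨nat_lit 0, nat_lit 83, nat_lit 83, nat_lit 100, nat_lit 678193068⟩]⟩
noncomputable def p023_l218 : Lf2 := ⟨nat_lit 3, nat_lit 6, [nat_lit 47, nat_lit 5, nat_lit 5, nat_lit 20], false, nat_lit 0, nat_lit 0, nat_lit 0, nat_lit 0, zbN0,
 nat_lit 0, nat_lit 0, nat_lit 0, nat_lit 0, nat_lit 0, nat_lit 0, nat_lit 0, nat_lit 0, nat_lit 0, nat_lit 0, nat_lit 0, nat_lit 0, nat_lit 0, nat_lit 0, nat_lit 0, nat_lit 0, nat_lit 0, nat_lit 0, [],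
 C1.Rw.none, ⟨p023_k14, nat_lit 0, nat_lit 0, nat_lit 0, nat_lit 0, nat_lit 0, [], [], [], nat_lit 0, nat_lit 0, nat_lit 0, nat_lit 0, nat_lit 0, nat_lit 0, [], [nat_lit 6, nat_lit 40, nat_lit 80, nat_lit 80]⟩,
 zbF0, []⟩
noncomputable def p023_l219 : Lf2 := ⟨nat_lit 3, nat_lit 6, [nat_lit 47, nat_lit 5, nat_lit 5, nat_lit 20], false, nat_lit 0, nat_lit 0, nat_lit 0, nat_lit 0, zbN0,
 nat_lit 0, nat_lit 0, nat_lit 0, nat_lit 0, nat_lit 0, nat_lit 0, nat_lit 0, nat_lit 0, nat_lit 0, nat_lit 0, nat_lit 0, nat_lit 0, nat_lit 0, nat_lit 0, nat_lit 0, nat_lit 0, nat_lit 0, nat_lit 0, [],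
 C1.Rw.none, ⟨p023_k14, nat_lit 0, nat_lit 0, nat_lit 110, nat_lit 0, nat_lit 0, [], [], [], nat_lit 0, nat_lit 0, nat_lit 0, nat_lit 0, nat_lit 0, nat_lit 0, [], [nat_lit 6, nat_lit 40, nat_lit 80, nat_lit 80, nat_lit 3, nat_lit 249, nat_lit 40, nat_lit 9]⟩,
 zbF0, []⟩
noncomputable def p023_l220 : Lf2 := ⟨nat_lit 0, nat_lit 6, [nat_lit 47, nat_lit 5, nat_lit 5, nat_lit 20], false, nat_lit 0, nat_lit 0, nat_lit 0, nat_lit 0, ⟨nat_lit 1000, nat_lit 0, nat_lit 0, nat_lit 0, nat_lit 0, nat_lit 0, nat_lit 0, nat_lit 0, nat_lit 0, nat_lit 0, nat_lit 0, nat_lit 0, nat_lit 0, nat_lit 0, nat_lit 0, nat_lit 0, false, false⟩,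
 nat_lit 0, nat_lit 8727, nat_lit 0, nat_lit 0, nat_lit 6545, nat_lit 4051, nat_lit 478, nat_lit 0, nat_lit 0, nat_lit 714, nat_lit 0, nat_lit 0, nat_lit 0, nat_lit 0, nat_lit 0, nat_lit 0, nat_lit 0, nat_lit 0, [],
 ⟨p023_k14, nat_lit 0, nat_lit 0, nat_lit 658, nat_lit 0, nat_lit 1313955, [nat_lit 2032000001, nat_lit 4688000000, nat_lit 6250000000], [], [nat_lit 33277926821, nat_lit 33315432948, nat_lit 33256297601, nat_lit 33295452838], nat_lit 1271250, nat_lit 1271250, nat_lit 1033601, nat_lit 1100001, nat_lit 0, nat_lit 0, [nat_lit 490000, nat_lit 1100000, nat_lit 1442500], [nat_lit 6, nat_lit 40, nat_lit 80, nat_lit 80, nat_lit 3, nat_lit 249, nat_lit 40, nat_lit 9]⟩, ⟨p023_k14, nat_lit 0, nat_lit 0, nat_lit 107, nat_lit 0, nat_lit 0, [nat_lit 2032000000, nat_lit 4688000000, nat_lit 6250000000], [], [nat_lit 20952821565, nat_lit 21037741543, nat_lit 21060069732, nat_lit 21144942662],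 nat_lit 0, nat_lit 0, nat_lit 0, nat_lit 0, nat_lit 0, nat_lit 0, [], [nat_lit 6, nat_lit 40, nat_lit 80, nat_lit 80, nat_lit 3, nat_lit 249, nat_lit 40, nat_lit 9]⟩,
 zbF0, []⟩
noncomputable def p023_l221 : Lf2 := ⟨nat_lit 0, nat_lit 6, [nat_lit 47, nat_lit 5, nat_lit 5, nat_lit 20], false, nat_lit 0, nat_lit 0, nat_lit 0, nat_lit 0, ⟨nat_lit 1000, nat_lit 0, nat_lit 0, nat_lit 0, nat_lit 0, nat_lit 0, nat_lit 0, nat_lit 0, nat_lit 0, nat_lit 0, nat_lit 0, nat_lit 0, nat_lit 0, nat_lit 0, nat_lit 0, nat_lit 0, false, false⟩,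
 nat_lit 0, nat_lit 8692, nat_lit 0, nat_lit 0, nat_lit 6544, nat_lit 4072, nat_lit 483, nat_lit 0, nat_lit 0, nat_lit 717, nat_lit 0, nat_lit 0, nat_lit 0, nat_lit 0, nat_lit 0, nat_lit 0, nat_lit 0, nat_lit 0, [],
 ⟨p023_k16, nat_lit 0, nat_lit 0, nat_lit 660, nat_lit 0, nat_lit 1313715, [nat_lit 2032000001, nat_lit 4688000000, nat_lit 6250000000], [], [nat_lit 32993921678, nat_lit 33031870238, nat_lit 32951852234, nat_lit 32991550956], nat_lit 1271250, nat_lit 1271250, nat_lit 968401, nat_lit 1100001, nat_lit 0, nat_lit 0, [nat_lit 490000, nat_lit 1100000, nat_lit 1442500], [nat_lit 6, nat_lit 40, nat_lit 80, nat_lit 80, nat_lit 3, nat_lit 249, nat_lit 40, nat_lit 9]⟩, ⟨p023_k14, nat_lit 0, nat_lit 0, nat_lit 109, nat_lit 0, nat_lit 0, [nat_lit 2032000000, nat_lit 4688000000, nat_lit 6250000000], [], [nat_lit 20862093172, nat_lit 20948221834, nat_lit 21042873504, nat_lit 21127989387],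 nat_lit 0, nat_lit 0, nat_lit 0, nat_lit 0, nat_lit 0, nat_lit 0, [], [nat_lit 6, nat_lit 40, nat_lit 80, nat_lit 80, nat_lit 3, nat_lit 249, nat_lit 40, nat_lit 9]⟩,
 zbF0, [⟨nat_lit 0, nat_lit 83, nat_lit 82, nat_lit 100, nat_lit 674171348⟩]⟩
noncomputable def p023_l222 : Lf2 := ⟨nat_lit 0, nat_lit 6, [nat_lit 47, nat_lit 5, nat_lit 5, nat_lit 20], false, nat_lit 0, nat_lit 0, nat_lit 0, nat_lit 0, ⟨nat_lit 1000, nat_lit 0, nat_lit 0, nat_lit 0, nat_lit 0, nat_lit 0, nat_lit 0, nat_lit 0, nat_lit 0, nat_lit 0, nat_lit 0, nat_lit 0, nat_lit 0, nat_lit 0, nat_lit 0, nat_lit 0, false, false⟩,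
 nat_lit 0, nat_lit 8650, nat_lit 0, nat_lit 0, nat_lit 6538, nat_lit 4072, nat_lit 491, nat_lit 0, nat_lit 0, nat_lit 717, nat_lit 0, nat_lit 0, nat_lit 0, nat_lit 0, nat_lit 0, nat_lit 0, nat_lit 0, nat_lit 0, [],
 ⟨p023_k17, nat_lit 0, nat_lit 0, nat_lit 661, nat_lit 0, nat_lit 1313463, [nat_lit 2032000001, nat_lit 4688000000, nat_lit 6250000000], [], [nat_lit 32564443267, nat_lit 32602377307, nat_lit 32522081527, nat_lit 32561764442], nat_lit 1271250, nat_lit 1271250, nat_lit 968401, nat_lit 1100001, nat_lit 0, nat_lit 0, [nat_lit 490000, nat_lit 1100000, nat_lit 1442500], [nat_lit 6, nat_lit 40, nat_lit 80, nat_lit 80, nat_lit 3, nat_lit 249, nat_lit 40, nat_lit 9]⟩, ⟨p023_k14, nat_lit 0, nat_lit 0, nat_lit 109, nat_lit 0, nat_lit 0, [nat_lit 2032000000, nat_lit 4688000000, nat_lit 6250000000], [], [nat_lit 20862093172, nat_lit 20948221834, nat_lit 21042873504, nat_lit 21127989387],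 nat_lit 0, nat_lit 0, nat_lit 0, nat_lit 0, nat_lit 0, nat_lit 0, [], [nat_lit 6, nat_lit 40, nat_lit 80, nat_lit 80, nat_lit 3, nat_lit 249, nat_lit 40, nat_lit 9]⟩,
 zbF0, [⟨nat_lit 0, nat_lit 82, nat_lit 82, nat_lit 100, nat_lit 681757479⟩]⟩
noncomputable def p023_l223 : Lf2 := ⟨nat_lit 0, nat_lit 6, [nat_lit 47, nat_lit 5, nat_lit 5, nat_lit 20], true, nat_lit 0, nat_lit 0, nat_lit 0, nat_lit 0, ⟨nat_lit 0, nat_lit 1000, nat_lit 0, nat_lit 8, nat_lit 216, nat_lit 0, nat_lit 0, nat_lit 0, nat_lit 0, nat_lit 0, nat_lit 0, nat_lit 0, nat_lit 0, nat_lit 0, nat_lit 0, nat_lit 5000000, false, false⟩,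
 nat_lit 0, nat_lit 0, nat_lit 0, nat_lit 0, nat_lit 0, nat_lit 0, nat_lit 0, nat_lit 0, nat_lit 349, nat_lit 0, nat_lit 0, nat_lit 0, nat_lit 0, nat_lit 11908479359312, nat_lit 0, nat_lit 400000, nat_lit 0, nat_lit 0, [(nat_lit 18, [(nat_lit 1, nat_lit 1000)])],
 ⟨p023_k16, nat_lit 0, nat_lit 0, nat_lit 0, nat_lit 0, nat_lit 1322501, [nat_lit 1398133334, nat_lit 1966666667, nat_lit 1960800000], [], [nat_lit 12705438352, nat_lit 12740271680, nat_lit 12796230555, nat_lit 12841060310], nat_lit 1271250, nat_lit 1271250, nat_lit 968401, nat_lit 1000851, nat_lit 0, nat_lit 0, [nat_lit 490000, nat_lit 1100000, nat_lit 1442500], [nat_lit 6, nat_lit 40, nat_lit 80, nat_lit 80]⟩, C1.Rw.none,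
 ⟨nat_lit 4415, nat_lit 4445, ⟨.ofNat (nat_lit 535601), .ofNat (nat_lit 542382), .ofNat (nat_lit 536680), .ofNat (nat_lit 543461), .ofNat (nat_lit 535898), .ofNat (nat_lit 542661), .ofNat (nat_lit 536977), .ofNat (nat_lit 543740)⟩, ⟨.ofNat (nat_lit 0), .ofNat (nat_lit 0), .ofNat (nat_lit 0), .ofNat (nat_lit 0), .ofNat (nat_lit 0), .ofNat (nat_lit 0), .ofNat (nat_lit 0), .ofNat (nat_lit 0)⟩⟩, [⟨nat_lit 0, nat_lit 82, nat_lit 82, nat_lit 100, nat_lit 64764983⟩]⟩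
noncomputable def p023_l224 : Lf2 := ⟨nat_lit 0, nat_lit 6, [nat_lit 47, nat_lit 5, nat_lit 5, nat_lit 20], false, nat_lit 0, nat_lit 0, nat_lit 0, nat_lit 0, ⟨nat_lit 1000, nat_lit 0, nat_lit 0, nat_lit 0, nat_lit 0, nat_lit 0, nat_lit 0, nat_lit 0, nat_lit 0, nat_lit 0, nat_lit 0, nat_lit 0, nat_lit 0, nat_lit 0, nat_lit 0, nat_lit 0, false, false⟩,
 nat_lit 0, nat_lit 0, nat_lit 0, nat_lit 0, nat_lit 0, nat_lit 2769, nat_lit 0, nat_lit 0, nat_lit 466, nat_lit 704, nat_lit 0, nat_lit 0, nat_lit 0, nat_lit 0, nat_lit 0, nat_lit 0, nat_lit 0, nat_lit 0, [],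
 ⟨p023_k16, nat_lit 0, nat_lit 0, nat_lit 0, nat_lit 0, nat_lit 1322501, [nat_lit 2032000001, nat_lit 4688000000, nat_lit 6250000000], [], [nat_lit 14840696561, nat_lit 14869236320, nat_lit 14921704820, nat_lit 14950166040], nat_lit 1271250, nat_lit 1271250, nat_lit 968401, nat_lit 1000851, nat_lit 0, nat_lit 0, [nat_lit 490000, nat_lit 1100000, nat_lit 1442500], [nat_lit 6, nat_lit 40, nat_lit 80, nat_lit 80]⟩, ⟨p023_k16, nat_lit 0, nat_lit 0, nat_lit 110, nat_lit 0, nat_lit 0, [nat_lit 2032000000, nat_lit 4688000000, nat_lit 6250000000], [], [nat_lit 21840866763, nat_lit 21907998213, nat_lit 21904148561, nat_lit 21975333894], nat_lit 0, nat_lit 0, nat_lit 0, nat_lit 0, nat_lit 0, nat_lit 0, [], [nat_lit 6, nat_lit 40, nat_lit 80, nat_lit 80, nat_lit 3, nat_lit 249, nat_lit 40, nat_lit 9]⟩,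
 zbF0, []⟩
noncomputable def p023_l225 : Lf2 := ⟨nat_lit 0, nat_lit 6, [nat_lit 47, nat_lit 5, nat_lit 5, nat_lit 20], false, nat_lit 0, nat_lit 0, nat_lit 0, nat_lit 0, ⟨nat_lit 1000, nat_lit 0, nat_lit 0, nat_lit 0, nat_lit 0, nat_lit 0, nat_lit 0, nat_lit 0, nat_lit 0, nat_lit 0, nat_lit 0, nat_lit 0, nat_lit 0, nat_lit 0, nat_lit 0, nat_lit 0, false, false⟩,
 nat_lit 0, nat_lit 0, nat_lit 0, nat_lit 0, nat_lit 0, nat_lit 4041, nat_lit 138, nat_lit 0, nat_lit 451, nat_lit 721, nat_lit 0, nat_lit 0, nat_lit 0, nat_lit 0, nat_lit 0, nat_lit 0, nat_lit 0, nat_lit 0, [],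
 ⟨p023_k16, nat_lit 0, nat_lit 0, nat_lit 0, nat_lit 0, nat_lit 1322501, [nat_lit 2032000001, nat_lit 4688000000, nat_lit 6250000000], [], [nat_lit 15561602530, nat_lit 15586145060, nat_lit 15634618635, nat_lit 15659153370], nat_lit 1271250, nat_lit 1271250, nat_lit 968401, nat_lit 1000851, nat_lit 0, nat_lit 0, [nat_lit 490000, nat_lit 1100000, nat_lit 1442500], [nat_lit 6, nat_lit 40, nat_lit 80, nat_lit 80]⟩, ⟨p023_k16, nat_lit 0, nat_lit 0, nat_lit 110, nat_lit 0, nat_lit 0, [nat_lit 2032000000, nat_lit 4688000000, nat_lit 6250000000], [], [nat_lit 20874622016, nat_lit 20962296835, nat_lit 20916490395, nat_lit 21007408167], nat_lit 0, nat_lit 0, nat_lit 0, nat_lit 0, nat_lit 0, nat_lit 0, [], [nat_lit 6, nat_lit 40, nat_lit 80, nat_lit 80, nat_lit 3, nat_lit 249, nat_lit 40, nat_lit 9]⟩,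
 zbF0, [⟨nat_lit 0, nat_lit 83, nat_lit 83, nat_lit 100, nat_lit 539498931⟩]⟩
noncomputable def p023_l226 : Lf2 := ⟨nat_lit 0, nat_lit 6, [nat_lit 47, nat_lit 5, nat_lit 5, nat_lit 20], false, nat_lit 0, nat_lit 0, nat_lit 0, nat_lit 0, ⟨nat_lit 1000, nat_lit 0, nat_lit 0, nat_lit 0, nat_lit 0, nat_lit 0, nat_lit 0, nat_lit 0, nat_lit 0, nat_lit 0, nat_lit 0, nat_lit 0, nat_lit 0, nat_lit 0, nat_lit 0, nat_lit 0, false, false⟩,
 nat_lit 0, nat_lit 8829, nat_lit 0, nat_lit 0, nat_lit 6647, nat_lit 4030, nat_lit 481, nat_lit 0, nat_lit 0, nat_lit 1344, nat_lit 0, nat_lit 0, nat_lit 0, nat_lit 4719299298405, nat_lit 0, nat_lit 0, nat_lit 0, nat_lit 0, [],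
 ⟨p023_k16, nat_lit 0, nat_lit 0, nat_lit 664, nat_lit 0, nat_lit 1322501, [nat_lit 2032000001, nat_lit 4688000000, nat_lit 6250000000], [], [nat_lit 32480583355, nat_lit 32518781175, nat_lit 32467121279, nat_lit 32504567855], nat_lit 1271250, nat_lit 1271250, nat_lit 968401, nat_lit 1000851, nat_lit 0, nat_lit 0, [nat_lit 490000, nat_lit 1100000, nat_lit 1442500], [nat_lit 6, nat_lit 40, nat_lit 80, nat_lit 80, nat_lit 3, nat_lit 249, nat_lit 40, nat_lit 9]⟩, ⟨p023_k18, nat_lit 0, nat_lit 0, nat_lit 0, nat_lit 0, nat_lit 0, [nat_lit 2032000000, nat_lit 3282000000, nat_lit 4688000000, nat_lit 6250000000], [], [nat_lit 18708446274, nat_lit 18794085460, nat_lit 18749263199, nat_lit 18833849893], nat_lit 0, nat_lit 0, nat_lit 0, nat_lit 0, nat_lit 0, nat_lit 0, [], [nat_lit 127, nat_lit 40, nat_lit 80, nat_lit 80]⟩,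
 zbF0, [⟨nat_lit 0, nat_lit 82, nat_lit 82, nat_lit 100, nat_lit 1047544616⟩]⟩
noncomputable def p023_l227 : Lf2 := ⟨nat_lit 3, nat_lit 6, [nat_lit 47, nat_lit 5, nat_lit 5, nat_lit 20], false, nat_lit 0, nat_lit 0, nat_lit 0, nat_lit 0, zbN0,
 nat_lit 0, nat_lit 0, nat_lit 0, nat_lit 0, nat_lit 0, nat_lit 0, nat_lit 0, nat_lit 0, nat_lit 0, nat_lit 0, nat_lit 0, nat_lit 0, nat_lit 0, nat_lit 0, nat_lit 0, nat_lit 0, nat_lit 0, nat_lit 0, [],
 C1.Rw.none, ⟨p023_k16, nat_lit 0, nat_lit 0, nat_lit 0, nat_lit 0, nat_lit 0, [], [], [], nat_lit 0, nat_lit 0, nat_lit 0, nat_lit 0, nat_lit 0, nat_lit 0, [], [nat_lit 6, nat_lit 40, nat_lit 80, nat_lit 80]⟩,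
 zbF0, []⟩
noncomputable def p023_l228 : Lf2 := ⟨nat_lit 3, nat_lit 6, [nat_lit 47, nat_lit 5, nat_lit 5, nat_lit 20], false, nat_lit 0, nat_lit 0, nat_lit 0, nat_lit 0, zbN0,
 nat_lit 0, nat_lit 0, nat_lit 0, nat_lit 0, nat_lit 0, nat_lit 0, nat_lit 0, nat_lit 0, nat_lit 0, nat_lit 0, nat_lit 0, nat_lit 0, nat_lit 0, nat_lit 0, nat_lit 0, nat_lit 0, nat_lit 0, nat_lit 0, [],
 C1.Rw.none, ⟨p023_k16, nat_lit 0, nat_lit 0, nat_lit 110, nat_lit 0, nat_lit 0, [], [], [], nat_lit 0, nat_lit 0, nat_lit 0, nat_lit 0, nat_lit 0, nat_lit 0, [], [nat_lit 6, nat_lit 40, nat_lit 80, nat_lit 80, nat_lit 3, nat_lit 249, nat_lit 40, nat_lit 9]⟩,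
 zbF0, []⟩
noncomputable def p023_l229 : Lf2 := ⟨nat_lit 0, nat_lit 6, [nat_lit 47, nat_lit 5, nat_lit 5, nat_lit 20], true, nat_lit 0, nat_lit 0, nat_lit 0, nat_lit 0, ⟨nat_lit 0, nat_lit 1000, nat_lit 0, nat_lit 8, nat_lit 219, nat_lit 0, nat_lit 0, nat_lit 0, nat_lit 0, nat_lit 0, nat_lit 0, nat_lit 0, nat_lit 0, nat_lit 0, nat_lit 0, nat_lit 5000000, false, false⟩,
 nat_lit 0, nat_lit 0, nat_lit 0, nat_lit 0, nat_lit 0, nat_lit 0, nat_lit 0, nat_lit 0, nat_lit 349, nat_lit 0, nat_lit 0, nat_lit 0, nat_lit 0, nat_lit 9754844329771, nat_lit 0, nat_lit 400000, nat_lit 0, nat_lit 0, [(nat_lit 18, [(nat_lit 1, nat_lit 1000)])],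
 ⟨p023_k16, nat_lit 0, nat_lit 0, nat_lit 0, nat_lit 0, nat_lit 1322501, [nat_lit 1398133334, nat_lit 1966666667, nat_lit 1960800000], [], [nat_lit 12796230555, nat_lit 12841060310, nat_lit 12897178070, nat_lit 12941848940], nat_lit 1271250, nat_lit 1271250, nat_lit 1000851, nat_lit 1033601, nat_lit 0, nat_lit 0, [nat_lit 490000, nat_lit 1100000, nat_lit 1442500], [nat_lit 6, nat_lit 40, nat_lit 80, nat_lit 80]⟩, C1.Rw.none,
 ⟨nat_lit 4415, nat_lit 4445, ⟨.ofNat (nat_lit 542382), .ofNat (nat_lit 549163), .ofNat (nat_lit 543461), .ofNat (nat_lit 550241), .ofNat (nat_lit 542661), .ofNat (nat_lit 549425), .ofNat (nat_lit 543740), .ofNat (nat_lit 550504)⟩, ⟨.ofNat (nat_lit 0), .ofNat (nat_lit 0), .ofNat (nat_lit 0), .ofNat (nat_lit 0), .ofNat (nat_lit 0), .ofNat (nat_lit 0), .ofNat (nat_lit 0), .ofNat (nat_lit 0)⟩⟩, []⟩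
noncomputable def p023_l230 : Lf2 := ⟨nat_lit 0, nat_lit 6, [nat_lit 47, nat_lit 5, nat_lit 5, nat_lit 20], false, nat_lit 0, nat_lit 0, nat_lit 0, nat_lit 0, ⟨nat_lit 1000, nat_lit 0, nat_lit 0, nat_lit 0, nat_lit 0, nat_lit 0, nat_lit 0, nat_lit 0, nat_lit 0, nat_lit 0, nat_lit 0, nat_lit 0, nat_lit 0, nat_lit 0, nat_lit 0, nat_lit 0, false, false⟩,
 nat_lit 0, nat_lit 0, nat_lit 0, nat_lit 0, nat_lit 0, nat_lit 4041, nat_lit 159, nat_lit 0, nat_lit 477, nat_lit 721, nat_lit 0, nat_lit 0, nat_lit 0, nat_lit 247714383062830, nat_lit 0, nat_lit 0, nat_lit 0, nat_lit 0, [],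
 ⟨p023_k16, nat_lit 0, nat_lit 0, nat_lit 0, nat_lit 0, nat_lit 1322501, [nat_lit 2032000001, nat_lit 4688000000, nat_lit 6250000000], [], [nat_lit 13543808055, nat_lit 13573178410, nat_lit 13626864070, nat_lit 13656150840], nat_lit 1271250, nat_lit 1271250, nat_lit 1000851, nat_lit 1033601, nat_lit 0, nat_lit 0, [nat_lit 490000, nat_lit 1100000, nat_lit 1442500], [nat_lit 6, nat_lit 40, nat_lit 80, nat_lit 80]⟩, ⟨p023_k16, nat_lit 0, nat_lit 0, nat_lit 109, nat_lit 0, nat_lit 0, [nat_lit 2032000000, nat_lit 4688000000, nat_lit 6250000000], [], [nat_lit 20916490395, nat_lit 21007408167, nat_lit 20970547771, nat_lit 21056297070], nat_lit 0, nat_lit 0, nat_lit 0, nat_lit 0, nat_lit 0, nat_lit 0, [], [nat_lit 6, nat_lit 40, nat_lit 80, nat_lit 80, nat_lit 3, nat_lit 249, nat_lit 40, nat_lit 9]⟩,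
 zbF0, []⟩
noncomputable def p023_l231 : Lf2 := ⟨nat_lit 0, nat_lit 6, [nat_lit 47, nat_lit 5, nat_lit 5, nat_lit 20], false, nat_lit 0, nat_lit 0, nat_lit 0, nat_lit 0, ⟨nat_lit 1000, nat_lit 0, nat_lit 0, nat_lit 0, nat_lit 0, nat_lit 0, nat_lit 0, nat_lit 0, nat_lit 0, nat_lit 0, nat_lit 0, nat_lit 0, nat_lit 0, nat_lit 0, nat_lit 0, nat_lit 0, false, false⟩,
 nat_lit 0, nat_lit 0, nat_lit 0, nat_lit 0, nat_lit 0, nat_lit 4041, nat_lit 138, nat_lit 0, nat_lit 451, nat_lit 721, nat_lit 0, nat_lit 0, nat_lit 0, nat_lit 5231501666200, nat_lit 0, nat_lit 0, nat_lit 0, nat_lit 0, [],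
 ⟨p023_k16, nat_lit 0, nat_lit 0, nat_lit 0, nat_lit 0, nat_lit 1322501, [nat_lit 2032000001, nat_lit 4688000000, nat_lit 6250000000], [], [nat_lit 15634618635, nat_lit 15659153370, nat_lit 15707686890, nat_lit 15732161680], nat_lit 1271250, nat_lit 1271250, nat_lit 1000851, nat_lit 1033601, nat_lit 0, nat_lit 0, [nat_lit 490000, nat_lit 1100000, nat_lit 1442500], [nat_lit 6, nat_lit 40, nat_lit 80, nat_lit 80]⟩, ⟨p023_k16, nat_lit 0, nat_lit 0, nat_lit 109, nat_lit 0, nat_lit 0, [nat_lit 2032000000, nat_lit 4688000000, nat_lit 6250000000], [], [nat_lit 20916490395, nat_lit 21007408167, nat_lit 20970547771, nat_lit 21056297070], nat_lit 0, nat_lit 0, nat_lit 0, nat_lit 0, nat_lit 0, nat_lit 0, [], [nat_lit 6, nat_lit 40, nat_lit 80, nat_lit 80, nat_lit 3, nat_lit 249, nat_lit 40, nat_lit 9]⟩,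
 zbF0, []⟩
noncomputable def p023_l232 : Lf2 := ⟨nat_lit 0, nat_lit 6, [nat_lit 47, nat_lit 5, nat_lit 5, nat_lit 20], false, nat_lit 0, nat_lit 0, nat_lit 0, nat_lit 0, ⟨nat_lit 1000, nat_lit 0, nat_lit 0, nat_lit 0, nat_lit 0, nat_lit 0, nat_lit 0, nat_lit 0, nat_lit 0, nat_lit 0, nat_lit 0, nat_lit 0, nat_lit 0, nat_lit 0, nat_lit 0, nat_lit 0, false, false⟩,
 nat_lit 0, nat_lit 8825, nat_lit 0, nat_lit 0, nat_lit 6644, nat_lit 4025, nat_lit 481, nat_lit 0, nat_lit 0, nat_lit 1344, nat_lit 0, nat_lit 0, nat_lit 0, nat_lit 0, nat_lit 0, nat_lit 0, nat_lit 0, nat_lit 0, [],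
 ⟨p023_k16, nat_lit 0, nat_lit 0, nat_lit 663, nat_lit 0, nat_lit 1322501, [nat_lit 2032000001, nat_lit 4688000000, nat_lit 6250000000], [], [nat_lit 32485029543, nat_lit 32519946843, nat_lit 32471649415, nat_lit 32508683472], nat_lit 1271250, nat_lit 1271250, nat_lit 1000851, nat_lit 1033601, nat_lit 0, nat_lit 0, [nat_lit 490000, nat_lit 1100000, nat_lit 1442500], [nat_lit 6, nat_lit 40, nat_lit 80, nat_lit 80, nat_lit 3, nat_lit 249, nat_lit 40, nat_lit 9]⟩, ⟨p023_k18, nat_lit 0, nat_lit 0, nat_lit 0, nat_lit 0, nat_lit 0, [nat_lit 2032000000, nat_lit 3282000000, nat_lit 4688000000, nat_lit 6250000000], [], [nat_lit 18752911154, nat_lit 18833292784, nat_lit 18800886677, nat_lit 18880640463], nat_lit 0, nat_lit 0, nat_lit 0, nat_lit 0, nat_lit 0, nat_lit 0, [], [nat_lit 127, nat_lit 40, nat_lit 80, nat_lit 80]⟩,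
 zbF0, [⟨nat_lit 0, nat_lit 82, nat_lit 82, nat_lit 100, nat_lit 681973792⟩]⟩
noncomputable def p023_l233 : Lf2 := ⟨nat_lit 3, nat_lit 6, [nat_lit 47, nat_lit 5, nat_lit 5, nat_lit 20], false, nat_lit 0, nat_lit 0, nat_lit 0, nat_lit 0, zbN0,
 nat_lit 0, nat_lit 0, nat_lit 0, nat_lit 0, nat_lit 0, nat_lit 0, nat_lit 0, nat_lit 0, nat_lit 0, nat_lit 0, nat_lit 0, nat_lit 0, nat_lit 0, nat_lit 0, nat_lit 0, nat_lit 0, nat_lit 0, nat_lit 0, [],
 C1.Rw.none, ⟨p023_k16, nat_lit 0, nat_lit 0, nat_lit 0, nat_lit 0, nat_lit 0, [], [], [], nat_lit 0, nat_lit 0, nat_lit 0, nat_lit 0, nat_lit 0, nat_lit 0, [], [nat_lit 6, nat_lit 40, nat_lit 80, nat_lit 80]⟩,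
 zbF0, []⟩
noncomputable def p023_l234 : Lf2 := ⟨nat_lit 3, nat_lit 6, [nat_lit 47, nat_lit 5, nat_lit 5, nat_lit 20], false, nat_lit 0, nat_lit 0, nat_lit 0, nat_lit 0, zbN0,
 nat_lit 0, nat_lit 0, nat_lit 0, nat_lit 0, nat_lit 0, nat_lit 0, nat_lit 0, nat_lit 0, nat_lit 0, nat_lit 0, nat_lit 0, nat_lit 0, nat_lit 0, nat_lit 0, nat_lit 0, nat_lit 0, nat_lit 0, nat_lit 0, [],
 C1.Rw.none, ⟨p023_k16, nat_lit 0, nat_lit 0, nat_lit 109, nat_lit 0, nat_lit 0, [], [], [], nat_lit 0, nat_lit 0, nat_lit 0, nat_lit 0, nat_lit 0, nat_lit 0, [], [nat_lit 6, nat_lit 40, nat_lit 80, nat_lit 80, nat_lit 3, nat_lit 249, nat_lit 40, nat_lit 9]⟩,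
 zbF0, []⟩
noncomputable def p023_l235 : Lf2 := ⟨nat_lit 0, nat_lit 6, [nat_lit 47, nat_lit 5, nat_lit 5, nat_lit 20], false, nat_lit 0, nat_lit 0, nat_lit 0, nat_lit 0, ⟨nat_lit 1000, nat_lit 0, nat_lit 0, nat_lit 0, nat_lit 0, nat_lit 0, nat_lit 0, nat_lit 0, nat_lit 0, nat_lit 0, nat_lit 0, nat_lit 0, nat_lit 0, nat_lit 0, nat_lit 0, nat_lit 0, false, false⟩,
 nat_lit 0, nat_lit 8821, nat_lit 0, nat_lit 0, nat_lit 6641, nat_lit 4045, nat_lit 480, nat_lit 0, nat_lit 0, nat_lit 718, nat_lit 0, nat_lit 0, nat_lit 0, nat_lit 0, nat_lit 0, nat_lit 0, nat_lit 0, nat_lit 0, [],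
 ⟨p023_k16, nat_lit 0, nat_lit 0, nat_lit 661, nat_lit 0, nat_lit 1322501, [nat_lit 2032000001, nat_lit 4688000000, nat_lit 6250000000], [], [nat_lit 32490315068, nat_lit 32525019238, nat_lit 32463625839, nat_lit 32502665062], nat_lit 1271250, nat_lit 1271250, nat_lit 1033601, nat_lit 1100001, nat_lit 0, nat_lit 0, [nat_lit 490000, nat_lit 1100000, nat_lit 1442500], [nat_lit 6, nat_lit 40, nat_lit 80, nat_lit 80, nat_lit 3, nat_lit 249, nat_lit 40, nat_lit 9]⟩, ⟨p023_k16, nat_lit 0, nat_lit 0, nat_lit 108, nat_lit 0, nat_lit 0, [nat_lit 2032000000, nat_lit 4688000000, nat_lit 6250000000], [], [nat_lit 20967713861, nat_lit 21053510158, nat_lit 21075742704, nat_lit 21160546218], nat_lit 0, nat_lit 0, nat_lit 0, nat_lit 0, nat_lit 0, nat_lit 0, [], [nat_lit 6, nat_lit 40, nat_lit 80, nat_lit 80, nat_lit 3, nat_lit 249, nat_lit 40, nat_lit 9]⟩,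
 zbF0, []⟩
noncomputable def p023_l236 : Lf2 := ⟨nat_lit 0, nat_lit 6, [nat_lit 47, nat_lit 5, nat_lit 5, nat_lit 20], false, nat_lit 0, nat_lit 0, nat_lit 0, nat_lit 0, ⟨nat_lit 1000, nat_lit 0, nat_lit 0, nat_lit 0, nat_lit 0, nat_lit 0, nat_lit 0, nat_lit 0, nat_lit 0, nat_lit 0, nat_lit 0, nat_lit 0, nat_lit 0, nat_lit 0, nat_lit 0, nat_lit 0, false, false⟩,
 nat_lit 0, nat_lit 8786, nat_lit 0, nat_lit 0, nat_lit 6640, nat_lit 4065, nat_lit 490, nat_lit 0, nat_lit 0, nat_lit 721, nat_lit 0, nat_lit 0, nat_lit 0, nat_lit 0, nat_lit 0, nat_lit 0, nat_lit 0, nat_lit 0, [],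
 ⟨p023_k17, nat_lit 0, nat_lit 0, nat_lit 664, nat_lit 0, nat_lit 1322239, [nat_lit 2032000001, nat_lit 4688000000, nat_lit 6250000000], [], [nat_lit 32057796490, nat_lit 32092912351, nat_lit 32007446198, nat_lit 32047397843], nat_lit 1271250, nat_lit 1271250, nat_lit 968401, nat_lit 1100001, nat_lit 0, nat_lit 0, [nat_lit 490000, nat_lit 1100000, nat_lit 1442500], [nat_lit 6, nat_lit 40, nat_lit 80, nat_lit 80, nat_lit 3, nat_lit 249, nat_lit 40, nat_lit 9]⟩, ⟨p023_k16, nat_lit 0, nat_lit 0, nat_lit 110, nat_lit 0, nat_lit 0, [nat_lit 2032000000, nat_lit 4688000000, nat_lit 6250000000], [], [nat_lit 20877350908, nat_lit 20964339855, nat_lit 21059287353, nat_lit 21144322251], nat_lit 0, nat_lit 0, nat_lit 0, nat_lit 0, nat_lit 0, nat_lit 0, [], [nat_lit 6, nat_lit 40, nat_lit 80, nat_lit 80, nat_lit 3, nat_lit 249, nat_lit 40, nat_lit 9]⟩,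
 zbF0, [⟨nat_lit 0, nat_lit 82, nat_lit 81, nat_lit 100, nat_lit 692383845⟩]⟩
noncomputable def p023_l237 : Lf2 := ⟨nat_lit 0, nat_lit 7, [nat_lit 80, nat_lit 5, nat_lit 5, nat_lit 20], false, nat_lit 0, nat_lit 0, nat_lit 0, nat_lit 0, ⟨nat_lit 1000, nat_lit 0, nat_lit 0, nat_lit 0, nat_lit 0, nat_lit 0, nat_lit 0, nat_lit 0, nat_lit 0, nat_lit 0, nat_lit 0, nat_lit 0, nat_lit 0, nat_lit 0, nat_lit 0, nat_lit 0, false, false⟩,
 nat_lit 0, nat_lit 11155, nat_lit 0, nat_lit 0, nat_lit 8366, nat_lit 4038, nat_lit 455, nat_lit 0, nat_lit 0, nat_lit 719, nat_lit 0, nat_lit 0, nat_lit 0, nat_lit 4643986014750, nat_lit 0, nat_lit 0, nat_lit 0, nat_lit 0, [],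
 ⟨p023_k19, nat_lit 0, nat_lit 0, nat_lit 647, nat_lit 0, nat_lit 1276193, [nat_lit 2032000001, nat_lit 4688000000, nat_lit 6250000000], [], [nat_lit 24188637000, nat_lit 24246996429, nat_lit 24151980553, nat_lit 24197262739], nat_lit 1271250, nat_lit 1271250, nat_lit 936251, nat_lit 968401, nat_lit 0, nat_lit 0, [nat_lit 490000, nat_lit 1100000, nat_lit 1442500], [nat_lit 6, nat_lit 40, nat_lit 80, nat_lit 80, nat_lit 3, nat_lit 249, nat_lit 40, nat_lit 9]⟩, ⟨p023_k19, nat_lit 0, nat_lit 0, nat_lit 110, nat_lit 0, nat_lit 0, [nat_lit 2032000000, nat_lit 4688000000, nat_lit 6250000000], [], [nat_lit 20810008856, nat_lit 20898623186, nat_lit 20852373604, nat_lit 20944297847], nat_lit 0, nat_lit 0, nat_lit 0, nat_lit 0, nat_lit 0, nat_lit 0, [], [nat_lit 6, nat_lit 40, nat_lit 80, nat_lit 80, nat_lit 3, nat_lit 249, nat_lit 40, nat_lit 9]⟩,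
 zbF0, [⟨nat_lit 0, nat_lit 83, nat_lit 83, nat_lit 100, nat_lit 1382143750⟩]⟩
noncomputable def p023_l238 : Lf2 := ⟨nat_lit 0, nat_lit 7, [nat_lit 80, nat_lit 5, nat_lit 5, nat_lit 20], true, nat_lit 0, nat_lit 0, nat_lit 0, nat_lit 0, ⟨nat_lit 0, nat_lit 1000, nat_lit 0, nat_lit 8, nat_lit 215, nat_lit 0, nat_lit 0, nat_lit 0, nat_lit 0, nat_lit 0, nat_lit 0, nat_lit 0, nat_lit 0, nat_lit 0, nat_lit 0, nat_lit 5000000, false, false⟩,
 nat_lit 0, nat_lit 0, nat_lit 0, nat_lit 0, nat_lit 0, nat_lit 0, nat_lit 0, nat_lit 0, nat_lit 349, nat_lit 0, nat_lit 0, nat_lit 0, nat_lit 0, nat_lit 14020486988756, nat_lit 0, nat_lit 400000, nat_lit 0, nat_lit 0, [(nat_lit 18, [(nat_lit 1, nat_lit 1000)])],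
 ⟨p023_k19, nat_lit 0, nat_lit 0, nat_lit 0, nat_lit 0, nat_lit 1276193, [nat_lit 1398133334, nat_lit 1966666667, nat_lit 1960800000], [], [nat_lit 12674321072, nat_lit 12705438352, nat_lit 12762462472, nat_lit 12796230555], nat_lit 1271250, nat_lit 1271250, nat_lit 968401, nat_lit 1000851, nat_lit 0, nat_lit 0, [nat_lit 490000, nat_lit 1100000, nat_lit 1442500], [nat_lit 6, nat_lit 40, nat_lit 80, nat_lit 80]⟩, C1.Rw.none,
 ⟨nat_lit 4444, nat_lit 4473, ⟨.ofNat (nat_lit 534228), .ofNat (nat_lit 541026), .ofNat (nat_lit 535306), .ofNat (nat_lit 542104), .ofNat (nat_lit 534523), .ofNat (nat_lit 541303), .ofNat (nat_lit 535601), .ofNat (nat_lit 542382)⟩, ⟨.ofNat (nat_lit 0), .ofNat (nat_lit 0), .ofNat (nat_lit 0), .ofNat (nat_lit 0), .ofNat (nat_lit 0), .ofNat (nat_lit 0), .ofNat (nat_lit 0), .ofNat (nat_lit 0)⟩⟩, []⟩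
noncomputable def p023_l239 : Lf2 := ⟨nat_lit 0, nat_lit 7, [nat_lit 80, nat_lit 5, nat_lit 5, nat_lit 20], false, nat_lit 0, nat_lit 0, nat_lit 0, nat_lit 0, ⟨nat_lit 1000, nat_lit 0, nat_lit 0, nat_lit 0, nat_lit 0, nat_lit 0, nat_lit 0, nat_lit 0, nat_lit 0, nat_lit 0, nat_lit 0, nat_lit 0, nat_lit 0, nat_lit 0, nat_lit 0, nat_lit 0, false, false⟩,
 nat_lit 0, nat_lit 0, nat_lit 0, nat_lit 0, nat_lit 0, nat_lit 4021, nat_lit 0, nat_lit 0, nat_lit 466, nat_lit 391, nat_lit 0, nat_lit 0, nat_lit 0, nat_lit 0, nat_lit 0, nat_lit 0, nat_lit 0, nat_lit 0, [],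
 ⟨p023_k19, nat_lit 0, nat_lit 0, nat_lit 0, nat_lit 0, nat_lit 1276193, [nat_lit 2032000001, nat_lit 4688000000, nat_lit 6250000000], [], [nat_lit 14812848000, nat_lit 14840696561, nat_lit 14893243600, nat_lit 14921704820], nat_lit 1271250, nat_lit 1271250, nat_lit 968401, nat_lit 1000851, nat_lit 0, nat_lit 0, [nat_lit 490000, nat_lit 1100000, nat_lit 1442500], [nat_lit 6, nat_lit 40, nat_lit 80, nat_lit 80]⟩, ⟨p023_k19, nat_lit 0, nat_lit 0, nat_lit 109, nat_lit 0, nat_lit 0, [nat_lit 2032000000, nat_lit 4688000000, nat_lit 6250000000], [], [nat_lit 22166189288, nat_lit 22246807386, nat_lit 22214664922, nat_lit 22294829517], nat_lit 0, nat_lit 0, nat_lit 0, nat_lit 0, nat_lit 0, nat_lit 0, [], [nat_lit 6, nat_lit 40, nat_lit 80, nat_lit 80, nat_lit 3, nat_lit 249, nat_lit 40, nat_lit 9]⟩,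
 zbF0, []⟩
noncomputable def p023_l240 : Lf2 := ⟨nat_lit 0, nat_lit 7, [nat_lit 80, nat_lit 5, nat_lit 5, nat_lit 20], false, nat_lit 0, nat_lit 0, nat_lit 0, nat_lit 0, ⟨nat_lit 1000, nat_lit 0, nat_lit 0, nat_lit 0, nat_lit 0, nat_lit 0, nat_lit 0, nat_lit 0, nat_lit 0, nat_lit 0, nat_lit 0, nat_lit 0, nat_lit 0, nat_lit 0, nat_lit 0, nat_lit 0, false, false⟩,
 nat_lit 0, nat_lit 0, nat_lit 0, nat_lit 0, nat_lit 0, nat_lit 4038, nat_lit 127, nat_lit 0, nat_lit 449, nat_lit 719, nat_lit 0, nat_lit 0, nat_lit 0, nat_lit 5171017935204, nat_lit 0, nat_lit 0, nat_lit 0, nat_lit 0, [],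
 ⟨p023_k19, nat_lit 0, nat_lit 0, nat_lit 0, nat_lit 0, nat_lit 1276193, [nat_lit 2032000001, nat_lit 4688000000, nat_lit 6250000000], [], [nat_lit 15863160800, nat_lit 15887108780, nat_lit 15934683600, nat_lit 15958574785], nat_lit 1271250, nat_lit 1271250, nat_lit 968401, nat_lit 1000851, nat_lit 0, nat_lit 0, [nat_lit 490000, nat_lit 1100000, nat_lit 1442500], [nat_lit 6, nat_lit 40, nat_lit 80, nat_lit 80]⟩, ⟨p023_k19, nat_lit 0, nat_lit 0, nat_lit 109, nat_lit 0, nat_lit 0, [nat_lit 2032000000, nat_lit 4688000000, nat_lit 6250000000], [], [nat_lit 20852373604, nat_lit 20944297847, nat_lit 20906958957, nat_lit 20993168767], nat_lit 0, nat_lit 0, nat_lit 0, nat_lit 0, nat_lit 0, nat_lit 0, [], [nat_lit 6, nat_lit 40, nat_lit 80, nat_lit 80, nat_lit 3, nat_lit 249, nat_lit 40, nat_lit 9]⟩,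
 zbF0, []⟩
noncomputable def p023_l241 : Lf2 := ⟨nat_lit 0, nat_lit 7, [nat_lit 80, nat_lit 5, nat_lit 5, nat_lit 20], false, nat_lit 0, nat_lit 0, nat_lit 0, nat_lit 0, ⟨nat_lit 1000, nat_lit 0, nat_lit 0, nat_lit 0, nat_lit 0, nat_lit 0, nat_lit 0, nat_lit 0, nat_lit 0, nat_lit 0, nat_lit 0, nat_lit 0, nat_lit 0, nat_lit 0, nat_lit 0, nat_lit 0, false, false⟩,
 nat_lit 0, nat_lit 8730, nat_lit 0, nat_lit 0, nat_lit 6547, nat_lit 4030, nat_lit 479, nat_lit 0, nat_lit 0, nat_lit 1361, nat_lit 0, nat_lit 0, nat_lit 0, nat_lit 15317972544370, nat_lit 0, nat_lit 0, nat_lit 0, nat_lit 0, [],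
 ⟨p023_k19, nat_lit 0, nat_lit 0, nat_lit 645, nat_lit 0, nat_lit 1276193, [nat_lit 2032000001, nat_lit 4688000000, nat_lit 6250000000], [], [nat_lit 33291822084, nat_lit 33329777905, nat_lit 33277772168, nat_lit 33315505509], nat_lit 1271250, nat_lit 1271250, nat_lit 968401, nat_lit 1000851, nat_lit 0, nat_lit 0, [nat_lit 490000, nat_lit 1100000, nat_lit 1442500], [nat_lit 6, nat_lit 40, nat_lit 80, nat_lit 80, nat_lit 3, nat_lit 249, nat_lit 40, nat_lit 9]⟩, ⟨p023_k20, nat_lit 0, nat_lit 0, nat_lit 0, nat_lit 0, nat_lit 0, [nat_lit 2032000000, nat_lit 3282000000, nat_lit 4688000000, nat_lit 6250000000], [], [nat_lit 18677347713, nat_lit 18762986899, nat_lit 18723542428, nat_lit 18803803824], nat_lit 0, nat_lit 0, nat_lit 0, nat_lit 0, nat_lit 0, nat_lit 0, [], [nat_lit 127, nat_lit 40, nat_lit 80, nat_lit 80]⟩,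
 zbF0, [⟨nat_lit 0, nat_lit 83, nat_lit 83, nat_lit 100, nat_lit 689757909⟩]⟩
noncomputable def p023_l242 : Lf2 := ⟨nat_lit 3, nat_lit 7, [nat_lit 80, nat_lit 5, nat_lit 5, nat_lit 20], false, nat_lit 0, nat_lit 0, nat_lit 0, nat_lit 0, zbN0,
 nat_lit 0, nat_lit 0, nat_lit 0, nat_lit 0, nat_lit 0, nat_lit 0, nat_lit 0, nat_lit 0, nat_lit 0, nat_lit 0, nat_lit 0, nat_lit 0, nat_lit 0, nat_lit 0, nat_lit 0, nat_lit 0, nat_lit 0, nat_lit 0, [],
 C1.Rw.none, ⟨p023_k19, nat_lit 0, nat_lit 0, nat_lit 0, nat_lit 0, nat_lit 0, [], [], [], nat_lit 0, nat_lit 0, nat_lit 0, nat_lit 0, nat_lit 0, nat_lit 0, [], [nat_lit 6, nat_lit 40, nat_lit 80, nat_lit 80]⟩,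
 zbF0, []⟩
noncomputable def p023_l243 : Lf2 := ⟨nat_lit 3, nat_lit 7, [nat_lit 80, nat_lit 5, nat_lit 5, nat_lit 20], false, nat_lit 0, nat_lit 0, nat_lit 0, nat_lit 0, zbN0,
 nat_lit 0, nat_lit 0, nat_lit 0, nat_lit 0, nat_lit 0, nat_lit 0, nat_lit 0, nat_lit 0, nat_lit 0, nat_lit 0, nat_lit 0, nat_lit 0, nat_lit 0, nat_lit 0, nat_lit 0, nat_lit 0, nat_lit 0, nat_lit 0, [],
 C1.Rw.none, ⟨p023_k19, nat_lit 0, nat_lit 0, nat_lit 109, nat_lit 0, nat_lit 0, [], [], [], nat_lit 0, nat_lit 0, nat_lit 0, nat_lit 0, nat_lit 0, nat_lit 0, [], [nat_lit 6, nat_lit 40, nat_lit 80, nat_lit 80, nat_lit 3, nat_lit 249, nat_lit 40, nat_lit 9]⟩,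
 zbF0, []⟩
noncomputable def p023_l244 : Lf2 := ⟨nat_lit 0, nat_lit 7, [nat_lit 80, nat_lit 5, nat_lit 5, nat_lit 20], false, nat_lit 0, nat_lit 0, nat_lit 0, nat_lit 0, ⟨nat_lit 1000, nat_lit 0, nat_lit 0, nat_lit 0, nat_lit 0, nat_lit 0, nat_lit 0, nat_lit 0, nat_lit 0, nat_lit 0, nat_lit 0, nat_lit 0, nat_lit 0, nat_lit 0, nat_lit 0, nat_lit 0, false, false⟩,
 nat_lit 0, nat_lit 8730, nat_lit 0, nat_lit 0, nat_lit 6547, nat_lit 4041, nat_lit 479, nat_lit 0, nat_lit 0, nat_lit 716, nat_lit 0, nat_lit 0, nat_lit 0, nat_lit 0, nat_lit 0, nat_lit 0, nat_lit 0, nat_lit 0, [],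
 ⟨p023_k19, nat_lit 0, nat_lit 0, nat_lit 644, nat_lit 0, nat_lit 1276193, [nat_lit 2032000001, nat_lit 4688000000, nat_lit 6250000000], [], [nat_lit 33277772168, nat_lit 33315505509, nat_lit 33266340711, nat_lit 33304450137], nat_lit 1271250, nat_lit 1271250, nat_lit 1000851, nat_lit 1033601, nat_lit 0, nat_lit 0, [nat_lit 490000, nat_lit 1100000, nat_lit 1442500], [nat_lit 6, nat_lit 40, nat_lit 80, nat_lit 80, nat_lit 3, nat_lit 249, nat_lit 40, nat_lit 9]⟩, ⟨p023_k19, nat_lit 0, nat_lit 0, nat_lit 108, nat_lit 0, nat_lit 0, [nat_lit 2032000000, nat_lit 4688000000, nat_lit 6250000000], [], [nat_lit 20904598190, nat_lit 20990843520, nat_lit 20959151598, nat_lit 21044900896], nat_lit 0, nat_lit 0, nat_lit 0, nat_lit 0, nat_lit 0, nat_lit 0, [], [nat_lit 6, nat_lit 40, nat_lit 80, nat_lit 80, nat_lit 3, nat_lit 249, nat_lit 40, nat_lit 9]⟩,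
 zbF0, []⟩
noncomputable def p023_l245 : Lf2 := ⟨nat_lit 0, nat_lit 7, [nat_lit 80, nat_lit 5, nat_lit 5, nat_lit 20], false, nat_lit 0, nat_lit 0, nat_lit 0, nat_lit 0, ⟨nat_lit 1000, nat_lit 0, nat_lit 0, nat_lit 0, nat_lit 0, nat_lit 0, nat_lit 0, nat_lit 0, nat_lit 0, nat_lit 0, nat_lit 0, nat_lit 0, nat_lit 0, nat_lit 0, nat_lit 0, nat_lit 0, false, false⟩,
 nat_lit 0, nat_lit 8727, nat_lit 0, nat_lit 0, nat_lit 6545, nat_lit 4051, nat_lit 478, nat_lit 0, nat_lit 0, nat_lit 714, nat_lit 0, nat_lit 0, nat_lit 0, nat_lit 0, nat_lit 0, nat_lit 0, nat_lit 0, nat_lit 0, [],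
 ⟨p023_k19, nat_lit 0, nat_lit 0, nat_lit 643, nat_lit 0, nat_lit 1276193, [nat_lit 2032000001, nat_lit 4688000000, nat_lit 6250000000], [], [nat_lit 33277926821, nat_lit 33315432948, nat_lit 33256297601, nat_lit 33295452838], nat_lit 1271250, nat_lit 1271250, nat_lit 1033601, nat_lit 1100001, nat_lit 0, nat_lit 0, [nat_lit 490000, nat_lit 1100000, nat_lit 1442500], [nat_lit 6, nat_lit 40, nat_lit 80, nat_lit 80, nat_lit 3, nat_lit 249, nat_lit 40, nat_lit 9]⟩, ⟨p023_k19, nat_lit 0, nat_lit 0, nat_lit 107, nat_lit 0, nat_lit 0, [nat_lit 2032000000, nat_lit 4688000000, nat_lit 6250000000], [], [nat_lit 20952821565, nat_lit 21037741543, nat_lit 21060069732, nat_lit 21144942662], nat_lit 0, nat_lit 0, nat_lit 0, nat_lit 0, nat_lit 0, nat_lit 0, [], [nat_lit 6, nat_lit 40, nat_lit 80, nat_lit 80, nat_lit 3, nat_lit 249, nat_lit 40, nat_lit 9]⟩,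
 zbF0, []⟩
noncomputable def p023_l246 : Lf2 := ⟨nat_lit 0, nat_lit 7, [nat_lit 80, nat_lit 5, nat_lit 5, nat_lit 20], false, nat_lit 0, nat_lit 0, nat_lit 0, nat_lit 0, ⟨nat_lit 1000, nat_lit 0, nat_lit 0, nat_lit 0, nat_lit 0, nat_lit 0, nat_lit 0, nat_lit 0, nat_lit 0, nat_lit 0, nat_lit 0, nat_lit 0, nat_lit 0, nat_lit 0, nat_lit 0, nat_lit 0, false, false⟩,
 nat_lit 0, nat_lit 8692, nat_lit 0, nat_lit 0, nat_lit 6544, nat_lit 4072, nat_lit 483, nat_lit 0, nat_lit 0, nat_lit 717, nat_lit 0, nat_lit 0, nat_lit 0, nat_lit 0, nat_lit 0, nat_lit 0, nat_lit 0, nat_lit 0, [],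
 ⟨p023_k21, nat_lit 0, nat_lit 0, nat_lit 646, nat_lit 0, nat_lit 1276210, [nat_lit 2032000001, nat_lit 4688000000, nat_lit 6250000000], [], [nat_lit 32993921678, nat_lit 33031870238, nat_lit 32951852234, nat_lit 32991550956], nat_lit 1271250, nat_lit 1271250, nat_lit 968401, nat_lit 1100001, nat_lit 0, nat_lit 0, [nat_lit 490000, nat_lit 1100000, nat_lit 1442500], [nat_lit 6, nat_lit 40, nat_lit 80, nat_lit 80, nat_lit 3, nat_lit 249, nat_lit 40, nat_lit 9]⟩, ⟨p023_k19, nat_lit 0, nat_lit 0, nat_lit 109, nat_lit 0, nat_lit 0, [nat_lit 2032000000, nat_lit 4688000000, nat_lit 6250000000], [], [nat_lit 20862093172, nat_lit 20948221834, nat_lit 21042873504, nat_lit 21127989387], nat_lit 0, nat_lit 0, nat_lit 0, nat_lit 0, nat_lit 0, nat_lit 0, [], [nat_lit 6, nat_lit 40, nat_lit 80, nat_lit 80, nat_lit 3, nat_lit 249, nat_lit 40, nat_lit 9]⟩,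
 zbF0, [⟨nat_lit 0, nat_lit 83, nat_lit 82, nat_lit 100, nat_lit 674171348⟩]⟩
noncomputable def p023_l247 : Lf2 := ⟨nat_lit 0, nat_lit 7, [nat_lit 80, nat_lit 5, nat_lit 5, nat_lit 20], false, nat_lit 0, nat_lit 0, nat_lit 0, nat_lit 0, ⟨nat_lit 1000, nat_lit 0, nat_lit 0, nat_lit 0, nat_lit 0, nat_lit 0, nat_lit 0, nat_lit 0, nat_lit 0, nat_lit 0, nat_lit 0, nat_lit 0, nat_lit 0, nat_lit 0, nat_lit 0, nat_lit 0, false, false⟩,
 nat_lit 0, nat_lit 8650, nat_lit 0, nat_lit 0, nat_lit 6538, nat_lit 4072, nat_lit 491, nat_lit 0, nat_lit 0, nat_lit 717, nat_lit 0, nat_lit 0, nat_lit 0, nat_lit 0, nat_lit 0, nat_lit 0, nat_lit 0, nat_lit 0, [],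
 ⟨p023_k22, nat_lit 0, nat_lit 0, nat_lit 646, nat_lit 0, nat_lit 1276214, [nat_lit 2032000001, nat_lit 4688000000, nat_lit 6250000000], [], [nat_lit 32564443267, nat_lit 32602377307, nat_lit 32522081527, nat_lit 32561764442], nat_lit 1271250, nat_lit 1271250, nat_lit 968401, nat_lit 1100001, nat_lit 0, nat_lit 0, [nat_lit 490000, nat_lit 1100000, nat_lit 1442500], [nat_lit 6, nat_lit 40, nat_lit 80, nat_lit 80, nat_lit 3, nat_lit 249, nat_lit 40, nat_lit 9]⟩, ⟨p023_k19, nat_lit 0, nat_lit 0, nat_lit 109, nat_lit 0, nat_lit 0, [nat_lit 2032000000, nat_lit 4688000000, nat_lit 6250000000], [], [nat_lit 20862093172, nat_lit 20948221834, nat_lit 21042873504, nat_lit 21127989387], nat_lit 0, nat_lit 0, nat_lit 0, nat_lit 0, nat_lit 0, nat_lit 0, [], [nat_lit 6, nat_lit 40, nat_lit 80, nat_lit 80, nat_lit 3, nat_lit 249, nat_lit 40, nat_lit 9]⟩,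
 zbF0, [⟨nat_lit 0, nat_lit 82, nat_lit 82, nat_lit 100, nat_lit 681757479⟩]⟩
noncomputable def p023_l248 : Lf2 := ⟨nat_lit 0, nat_lit 7, [nat_lit 80, nat_lit 5, nat_lit 5, nat_lit 20], false, nat_lit 0, nat_lit 0, nat_lit 0, nat_lit 0, ⟨nat_lit 1000, nat_lit 0, nat_lit 0, nat_lit 0, nat_lit 0, nat_lit 0, nat_lit 0, nat_lit 0, nat_lit 0, nat_lit 0, nat_lit 0, nat_lit 0, nat_lit 0, nat_lit 0, nat_lit 0, nat_lit 0, false, false⟩,
 nat_lit 0, nat_lit 8670, nat_lit 0, nat_lit 0, nat_lit 6527, nat_lit 4065, nat_lit 482, nat_lit 0, nat_lit 0, nat_lit 721, nat_lit 0, nat_lit 0, nat_lit 0, nat_lit 0, nat_lit 0, nat_lit 0, nat_lit 0, nat_lit 0, [],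
 ⟨p023_k21, nat_lit 0, nat_lit 0, nat_lit 652, nat_lit 0, nat_lit 1291660, [nat_lit 2032000001, nat_lit 4688000000, nat_lit 6250000000], [], [nat_lit 33087155867, nat_lit 33162462723, nat_lit 33044953223, nat_lit 33118498847], nat_lit 1271250, nat_lit 1271250, nat_lit 968401, nat_lit 1100001, nat_lit 0, nat_lit 0, [nat_lit 490000, nat_lit 1100000, nat_lit 1442500], [nat_lit 6, nat_lit 40, nat_lit 80, nat_lit 80, nat_lit 3, nat_lit 249, nat_lit 40, nat_lit 9]⟩, ⟨p023_k21, nat_lit 0, nat_lit 0, nat_lit 110, nat_lit 0, nat_lit 0, [nat_lit 2032000000, nat_lit 4688000000, nat_lit 6250000000], [], [nat_lit 20877350908, nat_lit 20964339855, nat_lit 21059287353, nat_lit 21144322251], nat_lit 0, nat_lit 0, nat_lit 0, nat_lit 0, nat_lit 0, nat_lit 0, [], [nat_lit 6, nat_lit 40, nat_lit 80, nat_lit 80, nat_lit 3, nat_lit 249, nat_lit 40, nat_lit 9]⟩,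
 zbF0, [⟨nat_lit 0, nat_lit 82, nat_lit 81, nat_lit 100, nat_lit 692075056⟩]⟩
noncomputable def p023_l249 : Lf2 := ⟨nat_lit 0, nat_lit 8, [nat_lit 50, nat_lit 5, nat_lit 5, nat_lit 20], false, nat_lit 0, nat_lit 0, nat_lit 0, nat_lit 0, ⟨nat_lit 1000, nat_lit 0, nat_lit 0, nat_lit 0, nat_lit 0, nat_lit 0, nat_lit 0, nat_lit 0, nat_lit 0, nat_lit 0, nat_lit 0, nat_lit 0, nat_lit 0, nat_lit 0, nat_lit 0, nat_lit 0, false, false⟩,
 nat_lit 0, nat_lit 11102, nat_lit 0, nat_lit 0, nat_lit 8326, nat_lit 4065, nat_lit 448, nat_lit 0, nat_lit 0, nat_lit 710, nat_lit 0, nat_lit 0, nat_lit 0, nat_lit 0, nat_lit 0, nat_lit 0, nat_lit 0, nat_lit 0, [],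
 ⟨p023_k23, nat_lit 0, nat_lit 0, nat_lit 642, nat_lit 0, nat_lit 1262404, [nat_lit 2032000001, nat_lit 4688000000, nat_lit 6250000000], [], [nat_lit 24419237000, nat_lit 24546829002, nat_lit 24238440360, nat_lit 24363436883], nat_lit 1271250, nat_lit 1271250, nat_lit 936251, nat_lit 1100001, nat_lit 0, nat_lit 0, [nat_lit 490000, nat_lit 1100000, nat_lit 1442500], [nat_lit 6, nat_lit 40, nat_lit 80, nat_lit 80, nat_lit 3, nat_lit 249, nat_lit 40, nat_lit 9]⟩, ⟨p023_k23, nat_lit 0, nat_lit 0, nat_lit 111, nat_lit 0, nat_lit 0, [nat_lit 2032000000, nat_lit 4688000000, nat_lit 6250000000], [], [nat_lit 20849135780, nat_lit 21022196327, nat_lit 21050351000, nat_lit 21218675376], nat_lit 0, nat_lit 0, nat_lit 0, nat_lit 0, nat_lit 0, nat_lit 0, [], [nat_lit 6, nat_lit 40, nat_lit 80, nat_lit 80, nat_lit 3, nat_lit 249, nat_lit 40, nat_lit 9]⟩,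
 zbF0, [⟨nat_lit 0, nat_lit 82, nat_lit 81, nat_lit 100, nat_lit 753253769⟩]⟩
noncomputable def p023_l250 : Lf2 := ⟨nat_lit 0, nat_lit 6, [nat_lit 47, nat_lit 5, nat_lit 5, nat_lit 20], false, nat_lit 0, nat_lit 0, nat_lit 0, nat_lit 0, ⟨nat_lit 1000, nat_lit 0, nat_lit 0, nat_lit 0, nat_lit 0, nat_lit 0, nat_lit 0, nat_lit 0, nat_lit 0, nat_lit 0, nat_lit 0, nat_lit 0, nat_lit 0, nat_lit 0, nat_lit 0, nat_lit 0, false, false⟩,
 nat_lit 0, nat_lit 8840, nat_lit 0, nat_lit 0, nat_lit 6629, nat_lit 4065, nat_lit 473, nat_lit 0, nat_lit 0, nat_lit 710, nat_lit 0, nat_lit 0, nat_lit 0, nat_lit 0, nat_lit 0, nat_lit 0, nat_lit 0, nat_lit 0, [],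
 ⟨p023_k14, nat_lit 0, nat_lit 0, nat_lit 664, nat_lit 0, nat_lit 1336161, [nat_lit 2032000001, nat_lit 4688000000, nat_lit 6250000000], [], [nat_lit 32847918742, nat_lit 32950963870, nat_lit 33289385768, nat_lit 33400959092], nat_lit 1271250, nat_lit 1271250, nat_lit 1100001, nat_lit 1442500, nat_lit 0, nat_lit 0, [nat_lit 490000, nat_lit 1100000, nat_lit 1442500], [nat_lit 6, nat_lit 40, nat_lit 80, nat_lit 80, nat_lit 3, nat_lit 260, nat_lit 50, nat_lit 9]⟩, ⟨p023_k14, nat_lit 0, nat_lit 0, nat_lit 110, nat_lit 0, nat_lit 0, [nat_lit 2032000000, nat_lit 4688000000, nat_lit 6250000000], [], [nat_lit 21050351000, nat_lit 21218675376, nat_lit 22537742650, nat_lit 22705582848], nat_lit 0, nat_lit 0, nat_lit 0, nat_lit 0, nat_lit 0, nat_lit 0, [], [nat_lit 6, nat_lit 40, nat_lit 80, nat_lit 80, nat_lit 3, nat_lit 260, nat_lit 50, nat_lit 9]⟩,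
 zbF0, []⟩
noncomputable def p023_l251 : Lf2 := ⟨nat_lit 0, nat_lit 8, [nat_lit 50, nat_lit 5, nat_lit 5, nat_lit 20], false, nat_lit 0, nat_lit 0, nat_lit 0, nat_lit 0, ⟨nat_lit 1000, nat_lit 0, nat_lit 0, nat_lit 0, nat_lit 0, nat_lit 0, nat_lit 0, nat_lit 0, nat_lit 0, nat_lit 0, nat_lit 0, nat_lit 0, nat_lit 0, nat_lit 0, nat_lit 0, nat_lit 0, false, false⟩,
 nat_lit 0, nat_lit 8704, nat_lit 0, nat_lit 0, nat_lit 6528, nat_lit 4065, nat_lit 475, nat_lit 0, nat_lit 0, nat_lit 710, nat_lit 0, nat_lit 0, nat_lit 0, nat_lit 0, nat_lit 0, nat_lit 0, nat_lit 0, nat_lit 0, [],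
 ⟨p023_k23, nat_lit 0, nat_lit 0, nat_lit 653, nat_lit 0, nat_lit 1308552, [nat_lit 2032000001, nat_lit 4688000000, nat_lit 6250000000], [], [nat_lit 33350578241, nat_lit 33460903606, nat_lit 33805577376, nat_lit 33916452255], nat_lit 1271250, nat_lit 1271250, nat_lit 1100001, nat_lit 1442500, nat_lit 0, nat_lit 0, [nat_lit 490000, nat_lit 1100000, nat_lit 1442500], [nat_lit 6, nat_lit 40, nat_lit 80, nat_lit 80, nat_lit 3, nat_lit 260, nat_lit 50, nat_lit 9]⟩, ⟨p023_k23, nat_lit 0, nat_lit 0, nat_lit 110, nat_lit 0, nat_lit 0, [nat_lit 2032000000, nat_lit 4688000000, nat_lit 6250000000], [], [nat_lit 21050351000, nat_lit 21218675376, nat_lit 22537742650, nat_lit 22705582848], nat_lit 0, nat_lit 0, nat_lit 0, nat_lit 0, nat_lit 0, nat_lit 0, [], [nat_lit 6, nat_lit 40, nat_lit 80, nat_lit 80, nat_lit 3, nat_lit 260, nat_lit 50, nat_lit 9]⟩,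
 zbF0, []⟩
noncomputable def p023_l252 : Lf2 := ⟨nat_lit 0, nat_lit 8, [nat_lit 50, nat_lit 5, nat_lit 5, nat_lit 20], false, nat_lit 0, nat_lit 0, nat_lit 0, nat_lit 0, ⟨nat_lit 1000, nat_lit 0, nat_lit 0, nat_lit 0, nat_lit 0, nat_lit 0, nat_lit 0, nat_lit 0, nat_lit 0, nat_lit 0, nat_lit 0, nat_lit 0, nat_lit 0, nat_lit 0, nat_lit 0, nat_lit 0, false, false⟩,
 nat_lit 0, nat_lit 8711, nat_lit 0, nat_lit 0, nat_lit 6533, nat_lit 4026, nat_lit 459, nat_lit 0, nat_lit 0, nat_lit 682, nat_lit 0, nat_lit 0, nat_lit 0, nat_lit 0, nat_lit 0, nat_lit 0, nat_lit 0, nat_lit 0, [],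
 ⟨p023_k23, nat_lit 0, nat_lit 0, nat_lit 663, nat_lit 0, nat_lit 1354767, [nat_lit 2032000001, nat_lit 4688000000, nat_lit 6250000000], [], [nat_lit 33795715028, nat_lit 33892077303, nat_lit 34243483320, nat_lit 34346293005], nat_lit 1271250, nat_lit 1271250, nat_lit 1271250, nat_lit 1271250, nat_lit 0, nat_lit 0, [nat_lit 490000, nat_lit 1100000, nat_lit 1442500], [nat_lit 6, nat_lit 40, nat_lit 80, nat_lit 80, nat_lit 3, nat_lit 237, nat_lit 0, nat_lit 8]⟩, ⟨p023_k23, nat_lit 0, nat_lit 0, nat_lit 114, nat_lit 0, nat_lit 0, [nat_lit 2032000000, nat_lit 4688000000, nat_lit 6250000000], [], [nat_lit 22546590720, nat_lit 22701796430, nat_lit 24031559080, nat_lit 24185777144], nat_lit 0, nat_lit 0, nat_lit 0, nat_lit 0, nat_lit 0, nat_lit 0, [], [nat_lit 6, nat_lit 40, nat_lit 80, nat_lit 80, nat_lit 3, nat_lit 203, nat_lit 0, nat_lit 7]⟩,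
 zbF0, []⟩
noncomputable def p023_l253 : Lf2 := ⟨nat_lit 0, nat_lit 6, [nat_lit 47, nat_lit 5, nat_lit 5, nat_lit 20], false, nat_lit 0, nat_lit 0, nat_lit 0, nat_lit 0, ⟨nat_lit 1000, nat_lit 0, nat_lit 0, nat_lit 0, nat_lit 0, nat_lit 0, nat_lit 0, nat_lit 0, nat_lit 0, nat_lit 0, nat_lit 0, nat_lit 0, nat_lit 0, nat_lit 0, nat_lit 0, nat_lit 0, false, false⟩,
 nat_lit 0, nat_lit 8782, nat_lit 0, nat_lit 0, nat_lit 6638, nat_lit 4028, nat_lit 489, nat_lit 0, nat_lit 0, nat_lit 730, nat_lit 0, nat_lit 0, nat_lit 0, nat_lit 0, nat_lit 0, nat_lit 0, nat_lit 0, nat_lit 0, [],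
 ⟨p023_k17, nat_lit 0, nat_lit 0, nat_lit 666, nat_lit 0, nat_lit 1331038, [nat_lit 2032000001, nat_lit 4688000000, nat_lit 6250000000], [], [nat_lit 32057919654, nat_lit 32092824487, nat_lit 32926219061, nat_lit 32960696394], nat_lit 1271250, nat_lit 1271250, nat_lit 1000851, nat_lit 1778250, nat_lit 0, nat_lit 0, [nat_lit 490000, nat_lit 1100000, nat_lit 1442500], [nat_lit 6, nat_lit 40, nat_lit 80, nat_lit 80, nat_lit 3, nat_lit 272, nat_lit 60, nat_lit 10]⟩, ⟨p023_k17, nat_lit 0, nat_lit 0, nat_lit 115, nat_lit 0, nat_lit 0, [nat_lit 2032000000, nat_lit 4688000000, nat_lit 6250000000], [], [nat_lit 20907127050, nat_lit 20992883672, nat_lit 24005943882, nat_lit 24083073079], nat_lit 0, nat_lit 0, nat_lit 0, nat_lit 0, nat_lit 0, nat_lit 0, [], [nat_lit 6, nat_lit 40, nat_lit 80, nat_lit 80, nat_lit 3, nat_lit 272, nat_lit 60, nat_lit 10]⟩,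
 zbF0, [⟨nat_lit 0, nat_lit 81, nat_lit 81, nat_lit 100, nat_lit 398560011⟩]⟩
noncomputable def p023_l254 : Lf2 := ⟨nat_lit 0, nat_lit 8, [nat_lit 50, nat_lit 5, nat_lit 5, nat_lit 20], false, nat_lit 0, nat_lit 0, nat_lit 0, nat_lit 0, ⟨nat_lit 1000, nat_lit 0, nat_lit 0, nat_lit 0, nat_lit 0, nat_lit 0, nat_lit 0, nat_lit 0, nat_lit 0, nat_lit 0, nat_lit 0, nat_lit 0, nat_lit 0, nat_lit 0, nat_lit 0, nat_lit 0, false, false⟩,
 nat_lit 0, nat_lit 8646, nat_lit 0, nat_lit 0, nat_lit 6535, nat_lit 4028, nat_lit 490, nat_lit 0, nat_lit 0, nat_lit 730, nat_lit 0, nat_lit 0, nat_lit 0, nat_lit 0, nat_lit 0, nat_lit 0, nat_lit 0, nat_lit 0, [],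
 ⟨p023_k24, nat_lit 0, nat_lit 0, nat_lit 655, nat_lit 0, nat_lit 1303652, [nat_lit 2032000001, nat_lit 4688000000, nat_lit 6250000000], [], [nat_lit 32571156202, nat_lit 32608651798, nat_lit 33454941843, nat_lit 33489215688], nat_lit 1271250, nat_lit 1271250, nat_lit 1000851, nat_lit 1778250, nat_lit 0, nat_lit 0, [nat_lit 490000, nat_lit 1100000, nat_lit 1442500], [nat_lit 6, nat_lit 40, nat_lit 80, nat_lit 80, nat_lit 3, nat_lit 272, nat_lit 60, nat_lit 10]⟩, ⟨p023_k24, nat_lit 0, nat_lit 0, nat_lit 115, nat_lit 0, nat_lit 0, [nat_lit 2032000000, nat_lit 4688000000, nat_lit 6250000000], [], [nat_lit 20907127050, nat_lit 20992883672, nat_lit 24005943882, nat_lit 24083073079], nat_lit 0, nat_lit 0, nat_lit 0, nat_lit 0, nat_lit 0, nat_lit 0, [], [nat_lit 6, nat_lit 40, nat_lit 80, nat_lit 80, nat_lit 3, nat_lit 272, nat_lit 60, nat_lit 10]⟩,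
 zbF0, [⟨nat_lit 0, nat_lit 81, nat_lit 81, nat_lit 100, nat_lit 397502814⟩]⟩
noncomputable def p023_l255 : Lf2 := ⟨nat_lit 0, nat_lit 10, [nat_lit 0, nat_lit 5, nat_lit 5, nat_lit 20], false, nat_lit 0, nat_lit 0, nat_lit 0, nat_lit 0, ⟨nat_lit 1000, nat_lit 0, nat_lit 0, nat_lit 0, nat_lit 0, nat_lit 0, nat_lit 0, nat_lit 0, nat_lit 0, nat_lit 0, nat_lit 0, nat_lit 0, nat_lit 0, nat_lit 0, nat_lit 0, nat_lit 0, false, false⟩,
 nat_lit 0, nat_lit 10509, nat_lit 0, nat_lit 0, nat_lit 7881, nat_lit 4012, nat_lit 463, nat_lit 0, nat_lit 0, nat_lit 716, nat_lit 0, nat_lit 0, nat_lit 0, nat_lit 32119133337944, nat_lit 0, nat_lit 0, nat_lit 0, nat_lit 0, [],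
 ⟨p023_k29, nat_lit 0, nat_lit 0, nat_lit 623, nat_lit 0, nat_lit 1215777, [nat_lit 2032000001, nat_lit 4688000000, nat_lit 6250000000], [], [nat_lit 26613162000, nat_lit 26656119174, nat_lit 27295945240, nat_lit 27332878244], nat_lit 1271250, nat_lit 1271250, nat_lit 936251, nat_lit 1773750, nat_lit 0, nat_lit 0, [nat_lit 490000, nat_lit 1100000, nat_lit 1442500], [nat_lit 6, nat_lit 40, nat_lit 80, nat_lit 80, nat_lit 3, nat_lit 272, nat_lit 60, nat_lit 10]⟩, ⟨p023_k29, nat_lit 0, nat_lit 0, nat_lit 114, nat_lit 0, nat_lit 0, [nat_lit 2032000000, nat_lit 4688000000, nat_lit 6250000000], [], [nat_lit 20824168516, nat_lit 20905141835, nat_lit 24029142960, nat_lit 24106110845], nat_lit 0, nat_lit 0, nat_lit 0, nat_lit 0, nat_lit 0, nat_lit 0, [], [nat_lit 6, nat_lit 40, nat_lit 80, nat_lit 80, nat_lit 3, nat_lit 272, nat_lit 60, nat_lit 10]⟩,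
 zbF0, [⟨nat_lit 0, nat_lit 83, nat_lit 83, nat_lit 100, nat_lit 417226821⟩]⟩
noncomputable def p023_l256 : Lf2 := ⟨nat_lit 0, nat_lit 10, [nat_lit 0, nat_lit 5, nat_lit 5, nat_lit 20], false, nat_lit 0, nat_lit 0, nat_lit 0, nat_lit 0, ⟨nat_lit 1000, nat_lit 0, nat_lit 0, nat_lit 0, nat_lit 0, nat_lit 0, nat_lit 0, nat_lit 0, nat_lit 0, nat_lit 0, nat_lit 0, nat_lit 0, nat_lit 0, nat_lit 0, nat_lit 0, nat_lit 0, false, false⟩,
 nat_lit 0, nat_lit 10381, nat_lit 0, nat_lit 0, nat_lit 7816, nat_lit 4025, nat_lit 465, nat_lit 0, nat_lit 0, nat_lit 715, nat_lit 0, nat_lit 0, nat_lit 0, nat_lit 0, nat_lit 0, nat_lit 0, nat_lit 0, nat_lit 0, [],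
 ⟨p023_k38, nat_lit 0, nat_lit 0, nat_lit 625, nat_lit 0, nat_lit 1224934, [nat_lit 2032000001, nat_lit 4688000000, nat_lit 6250000000], [], [nat_lit 26622999003, nat_lit 26665205922, nat_lit 27332085355, nat_lit 27368889945], nat_lit 1271250, nat_lit 1271250, nat_lit 968401, nat_lit 1776000, nat_lit 0, nat_lit 0, [nat_lit 490000, nat_lit 1100000, nat_lit 1442500], [nat_lit 6, nat_lit 40, nat_lit 80, nat_lit 80, nat_lit 3, nat_lit 272, nat_lit 60, nat_lit 10]⟩, ⟨p023_k29, nat_lit 0, nat_lit 0, nat_lit 114, nat_lit 0, nat_lit 0, [nat_lit 2032000000, nat_lit 4688000000, nat_lit 6250000000], [], [nat_lit 20867274181, nat_lit 21036458670, nat_lit 24031386500, nat_lit 24185584401], nat_lit 0, nat_lit 0, nat_lit 0, nat_lit 0, nat_lit 0, nat_lit 0, [], [nat_lit 6, nat_lit 40, nat_lit 80, nat_lit 80, nat_lit 3, nat_lit 272, nat_lit 60, nat_lit 10]⟩,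
 zbF0, [⟨nat_lit 0, nat_lit 82, nat_lit 82, nat_lit 100, nat_lit 413841644⟩]⟩
noncomputable def p023_l257 : Lf2 := ⟨nat_lit 0, nat_lit 10, [nat_lit 0, nat_lit 5, nat_lit 5, nat_lit 20], false, nat_lit 0, nat_lit 0, nat_lit 0, nat_lit 0, ⟨nat_lit 1000, nat_lit 0, nat_lit 0, nat_lit 0, nat_lit 0, nat_lit 0, nat_lit 0, nat_lit 0, nat_lit 0, nat_lit 0, nat_lit 0, nat_lit 0, nat_lit 0, nat_lit 0, nat_lit 0, nat_lit 0, false, false⟩,
 nat_lit 0, nat_lit 10225, nat_lit 0, nat_lit 0, nat_lit 7728, nat_lit 4009, nat_lit 473, nat_lit 0, nat_lit 0, nat_lit 712, nat_lit 0, nat_lit 0, nat_lit 0, nat_lit 0, nat_lit 0, nat_lit 0, nat_lit 0, nat_lit 0, [],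
 ⟨p023_k39, nat_lit 0, nat_lit 0, nat_lit 629, nat_lit 0, nat_lit 1233941, [nat_lit 2032000001, nat_lit 4688000000, nat_lit 6250000000], [], [nat_lit 26629426046, nat_lit 26670239886, nat_lit 27340359469, nat_lit 27376990206], nat_lit 1271250, nat_lit 1271250, nat_lit 968401, nat_lit 1776000, nat_lit 0, nat_lit 0, [nat_lit 490000, nat_lit 1100000, nat_lit 1442500], [nat_lit 6, nat_lit 40, nat_lit 80, nat_lit 80, nat_lit 3, nat_lit 272, nat_lit 60, nat_lit 10]⟩, ⟨p023_k29, nat_lit 0, nat_lit 0, nat_lit 115, nat_lit 0, nat_lit 0, [nat_lit 2032000000, nat_lit 4688000000, nat_lit 6250000000], [], [nat_lit 20890934609, nat_lit 21133964362, nat_lit 24028625220, nat_lit 24259438134], nat_lit 0, nat_lit 0, nat_lit 0, nat_lit 0, nat_lit 0, nat_lit 0, [], [nat_lit 6, nat_lit 40, nat_lit 80, nat_lit 80, nat_lit 3, nat_lit 272, nat_lit 60, nat_lit 10]⟩,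
 zbF0, [⟨nat_lit 0, nat_lit 81, nat_lit 81, nat_lit 100, nat_lit 423936699⟩]⟩
noncomputable def b_N_800_800_0_12 : St := ⟨false, nat_lit 1, nat_lit 0, nat_lit 2, nat_lit 40, nat_lit 320, nat_lit 323, nat_lit 320, nat_lit 325, nat_lit 140, nat_lit 240, nat_lit 0, nat_lit 0, nat_lit 0, nat_lit 0, nat_lit 0, nat_lit 0, nat_lit 20, nat_lit 40, nat_lit 0, nat_lit 0, nat_lit 0, nat_lit 0⟩
theorem d_N_800_800_0_12 (h : EB TB.env) : Dead b_N_800_800_0_12 := chkB_sound0 h (T :=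
(.ord (.spl (nat_lit 6) (nat_lit 32)
(.spl (nat_lit 1) (nat_lit 322)
(.spl (nat_lit 2) (nat_lit 200)
(.spl (nat_lit 2) (nat_lit 160)
(.spl (nat_lit 6) (nat_lit 24)
(.spl (nat_lit 1) (nat_lit 321)
(.spl (nat_lit 0) (nat_lit 322)
(.spl (nat_lit 0) (nat_lit 321)
(.spl (nat_lit 2) (nat_lit 152)
(.spl (nat_lit 7) (nat_lit 600)
(.leaf p023_l214)
(.spl (nat_lit 7) (nat_lit 900)
(.leaf p023_l215)
(.spl (nat_lit 7) (nat_lit 1060)
(.leaf p023_l216)
(.spl (nat_lit 8) (nat_lit 800)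
(.spl (nat_lit 8) (nat_lit 400)
(.leaf p023_l217)
(.leaf p023_l218))
(.leaf p023_l219)))))
(.leaf p023_l220))
(.trZ (nat_lit 0) (nat_lit 83) (nat_lit 83) (nat_lit 100) (nat_lit 144) (.leaf p023_l221)))
(.trZ (nat_lit 0) (nat_lit 83) (nat_lit 82) (nat_lit 100) (nat_lit 144) (.leaf p023_l222)))
(.ord (.trZ (nat_lit 0) (nat_lit 83) (nat_lit 83) (nat_lit 100) (nat_lit 144) (.spl (nat_lit 0) (nat_lit 322)
(.spl (nat_lit 2) (nat_lit 152)
(.spl (nat_lit 2) (nat_lit 148)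
(.spl (nat_lit 7) (nat_lit 600)
(.leaf p023_l223)
(.spl (nat_lit 7) (nat_lit 900)
(.leaf p023_l224)
(.spl (nat_lit 7) (nat_lit 1060)
(.leaf p023_l225)
(.spl (nat_lit 8) (nat_lit 800)
(.spl (nat_lit 8) (nat_lit 400)
(.leaf p023_l226)
(.leaf p023_l227))
(.leaf p023_l228)))))
(.spl (nat_lit 7) (nat_lit 600)
(.leaf p023_l229)
(.spl (nat_lit 7) (nat_lit 900)
(.leaf p023_l230)
(.spl (nat_lit 7) (nat_lit 1060)
(.leaf p023_l231)
(.spl (nat_lit 8) (nat_lit 800)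
(.spl (nat_lit 8) (nat_lit 400)
(.leaf p023_l232)
(.leaf p023_l233))
(.leaf p023_l234))))))
(.leaf p023_l235))
(.leaf p023_l236)))))
(.spl (nat_lit 6) (nat_lit 28)
(.spl (nat_lit 1) (nat_lit 321)
(.spl (nat_lit 0) (nat_lit 322)
(.spl (nat_lit 0) (nat_lit 321)
(.spl (nat_lit 2) (nat_lit 152)
(.spl (nat_lit 2) (nat_lit 144)
(.leaf p023_l237)
(.spl (nat_lit 2) (nat_lit 148)
(.spl (nat_lit 7) (nat_lit 600)
(.leaf p023_l238)
(.spl (nat_lit 7) (nat_lit 900)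
(.leaf p023_l239)
(.spl (nat_lit 7) (nat_lit 1060)
(.leaf p023_l240)
(.spl (nat_lit 8) (nat_lit 800)
(.spl (nat_lit 8) (nat_lit 400)
(.leaf p023_l241)
(.leaf p023_l242))
(.leaf p023_l243)))))
(.leaf p023_l244)))
(.leaf p023_l245))
(.trZ (nat_lit 0) (nat_lit 83) (nat_lit 83) (nat_lit 100) (nat_lit 144) (.leaf p023_l246)))
(.trZ (nat_lit 0) (nat_lit 83) (nat_lit 82) (nat_lit 100) (nat_lit 144) (.leaf p023_l247)))
(.ord (.trZ (nat_lit 0) (nat_lit 83) (nat_lit 83) (nat_lit 100) (nat_lit 144) (.leaf p023_l248))))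
(.leaf p023_l249)))
(.spl (nat_lit 6) (nat_lit 24)
(.leaf p023_l250)
(.leaf p023_l251)))
(.leaf p023_l252))
(.ord (.trZ (nat_lit 0) (nat_lit 82) (nat_lit 82) (nat_lit 100) (nat_lit 148) (.spl (nat_lit 6) (nat_lit 24)
(.leaf p023_l253)
(.leaf p023_l254)))))
(.spl (nat_lit 0) (nat_lit 322)
(.ord (.spl (nat_lit 0) (nat_lit 321)
(.ord (.leaf p023_l255))
(.trZ (nat_lit 0) (nat_lit 83) (nat_lit 83) (nat_lit 100) (nat_lit 144) (.leaf p023_l256))))
(.trZ (nat_lit 0) (nat_lit 83) (nat_lit 82) (nat_lit 100) (nat_lit 144) (.leaf p023_l257)))))) (by decide +kernel)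

end B2
end Pool.Agent.Lib.MP_6947cd_al
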