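import Pool.Agent.Lib.MP_6947cd_al.ZB.Pre

/-!
Problem MP_6947cd_al (Chollet).  Case B, second entry in [2/5, 17/20]: certificates of the tree, part P024 (generated).
-/

set_option autoImplicit false
set_option linter.all false

namespace Pool.Agent.Lib.MP_6947cd_al
namespace B2

open Ent Fr B1 PkA

noncomputable def p024_k0 : C1.Kn := ⟨[nat_lit 40, nat_lit 60], [nat_lit 0, nat_lit 0], [(nat_lit 0, nat_lit 0, nat_lit 0), (nat_lit 0, nat_lit 0, nat_lit 0)], (nat_lit 89, nat_lit 100, nat_lit 22)⟩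
noncomputable def p024_k1 : C1.Kn := ⟨[nat_lit 40, nat_lit 80], [nat_lit 0, nat_lit 0], [(nat_lit 0, nat_lit 0, nat_lit 0), (nat_lit 0, nat_lit 0, nat_lit 0)], (nat_lit 85, nat_lit 100, nat_lit 30)⟩
noncomputable def p024_k2 : C1.Kn := ⟨[nat_lit 40, nat_lit 80], [nat_lit 0, nat_lit 79], [(nat_lit 0, nat_lit 0, nat_lit 0), (nat_lit 1000, nat_lit 981, nat_lit 31)], (nat_lit 85, nat_lit 100, nat_lit 30)⟩
noncomputable def p024_k3 : C1.Kn := ⟨[nat_lit 40, nat_lit 60, nat_lit 80], [nat_lit 0, nat_lit 0, nat_lit 615], [(nat_lit 0, nat_lit 0, nat_lit 0), (nat_lit 0, nat_lit 0, nat_lit 0), (nat_lit 1000, nat_lit 819, nat_lit 426)], (nat_lit 85, nat_lit 100, nat_lit 30)⟩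
noncomputable def p024_k4 : C1.Kn := ⟨[nat_lit 40, nat_lit 80], [nat_lit 0, nat_lit 33], [(nat_lit 0, nat_lit 0, nat_lit 0), (nat_lit 1000, nat_lit 992, nat_lit 13)], (nat_lit 85, nat_lit 100, nat_lit 30)⟩
noncomputable def p024_k5 : C1.Kn := ⟨[nat_lit 40, nat_lit 80], [nat_lit 0, nat_lit 0], [(nat_lit 0, nat_lit 0, nat_lit 0), (nat_lit 0, nat_lit 0, nat_lit 0)], (nat_lit 82, nat_lit 100, nat_lit 40)⟩
noncomputable def p024_k6 : C1.Kn := ⟨[nat_lit 40, nat_lit 80], [nat_lit 0, nat_lit 33], [(nat_lit 0, nat_lit 0, nat_lit 0), (nat_lit 1000, nat_lit 992, nat_lit 13)], (nat_lit 83, nat_lit 100, nat_lit 36)⟩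
noncomputable def p024_k7 : C1.Kn := ⟨[nat_lit 40, nat_lit 80], [nat_lit 0, nat_lit 0], [(nat_lit 0, nat_lit 0, nat_lit 0), (nat_lit 0, nat_lit 0, nat_lit 0)], (nat_lit 84, nat_lit 100, nat_lit 36)⟩
noncomputable def p024_k8 : C1.Kn := ⟨[nat_lit 40, nat_lit 80], [nat_lit 0, nat_lit 33], [(nat_lit 0, nat_lit 0, nat_lit 0), (nat_lit 1000, nat_lit 992, nat_lit 13)], (nat_lit 82, nat_lit 100, nat_lit 40)⟩
noncomputable def p024_k9 : C1.Kn := ⟨[nat_lit 40, nat_lit 80], [nat_lit 0, nat_lit 79], [(nat_lit 0, nat_lit 0, nat_lit 0), (nat_lit 1000, nat_lit 981, nat_lit 31)], (nat_lit 82, nat_lit 100, nat_lit 40)⟩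
noncomputable def p024_k10 : C1.Kn := ⟨[nat_lit 40, nat_lit 80, nat_lit 100], [nat_lit 0, nat_lit 0, nat_lit 1280], [(nat_lit 0, nat_lit 0, nat_lit 0), (nat_lit 0, nat_lit 0, nat_lit 0), (nat_lit 1000, nat_lit 800, nat_lit 600)], (nat_lit 82, nat_lit 100, nat_lit 44)⟩
noncomputable def p024_k11 : C1.Kn := ⟨[nat_lit 40, nat_lit 80], [nat_lit 0, nat_lit 79], [(nat_lit 0, nat_lit 0, nat_lit 0), (nat_lit 1000, nat_lit 981, nat_lit 31)], (nat_lit 81, nat_lit 100, nat_lit 45)⟩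
noncomputable def p024_k12 : C1.Kn := ⟨[nat_lit 40, nat_lit 80], [nat_lit 0, nat_lit 112], [(nat_lit 0, nat_lit 0, nat_lit 0), (nat_lit 1000, nat_lit 974, nat_lit 44)], (nat_lit 81, nat_lit 100, nat_lit 45)⟩
noncomputable def p024_k13 : C1.Kn := ⟨[nat_lit 40, nat_lit 80, nat_lit 100], [nat_lit 0, nat_lit 0, nat_lit 1280], [(nat_lit 0, nat_lit 0, nat_lit 0), (nat_lit 0, nat_lit 0, nat_lit 0), (nat_lit 1000, nat_lit 800, nat_lit 600)], (nat_lit 80, nat_lit 100, nat_lit 60)⟩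
noncomputable def p024_k14 : C1.Kn := ⟨[nat_lit 40, nat_lit 80, nat_lit 100], [nat_lit 0, nat_lit 112, nat_lit 1353], [(nat_lit 0, nat_lit 0, nat_lit 0), (nat_lit 1000, nat_lit 974, nat_lit 44), (nat_lit 1000, nat_lit 789, nat_lit 608)], (nat_lit 79, nat_lit 100, nat_lit 60)⟩
noncomputable def p024_k15 : C1.Kn := ⟨[nat_lit 40, nat_lit 60, nat_lit 100], [nat_lit 0, nat_lit 0, nat_lit 1216], [(nat_lit 0, nat_lit 0, nat_lit 0), (nat_lit 0, nat_lit 0, nat_lit 0), (nat_lit 1000, nat_lit 810, nat_lit 474)], (nat_lit 80, nat_lit 100, nat_lit 60)⟩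
noncomputable def p024_k16 : C1.Kn := ⟨[nat_lit 40, nat_lit 100], [nat_lit 0, nat_lit 0], [(nat_lit 0, nat_lit 0, nat_lit 0), (nat_lit 0, nat_lit 0, nat_lit 0)], (nat_lit 80, nat_lit 100, nat_lit 60)⟩
noncomputable def p024_k17 : C1.Kn := ⟨[nat_lit 40, nat_lit 80, nat_lit 100], [nat_lit 0, nat_lit 395, nat_lit 1536], [(nat_lit 0, nat_lit 0, nat_lit 0), (nat_lit 1000, nat_lit 908, nat_lit 154), (nat_lit 1000, nat_lit 760, nat_lit 642)], (nat_lit 76, nat_lit 100, nat_lit 60)⟩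
noncomputable def p024_k18 : C1.Kn := ⟨[nat_lit 40, nat_lit 80, nat_lit 100], [nat_lit 0, nat_lit 593, nat_lit 1677], [(nat_lit 0, nat_lit 0, nat_lit 0), (nat_lit 1000, nat_lit 861, nat_lit 231), (nat_lit 1000, nat_lit 738, nat_lit 662)], (nat_lit 74, nat_lit 100, nat_lit 60)⟩
noncomputable def p024_k19 : C1.Kn := ⟨[nat_lit 40, nat_lit 80, nat_lit 100], [nat_lit 0, nat_lit 192, nat_lit 1404], [(nat_lit 0, nat_lit 0, nat_lit 0), (nat_lit 1000, nat_lit 955, nat_lit 75), (nat_lit 1000, nat_lit 781, nat_lit 625)], (nat_lit 78, nat_lit 100, nat_lit 60)⟩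
noncomputable def p024_k20 : C1.Kn := ⟨[nat_lit 40, nat_lit 80, nat_lit 100], [nat_lit 0, nat_lit 795, nat_lit 1829], [(nat_lit 0, nat_lit 0, nat_lit 0), (nat_lit 1000, nat_lit 814, nat_lit 310), (nat_lit 1000, nat_lit 714, nat_lit 692)], (nat_lit 72, nat_lit 100, nat_lit 61)⟩
noncomputable def p024_k21 : C1.Kn := ⟨[nat_lit 40, nat_lit 80], [nat_lit 0, nat_lit 1195], [(nat_lit 0, nat_lit 0, nat_lit 0), (nat_lit 1000, nat_lit 720, nat_lit 465)], (nat_lit 68, nat_lit 100, nat_lit 61)⟩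
noncomputable def p024_k22 : C1.Kn := ⟨[nat_lit 40, nat_lit 80, nat_lit 100], [nat_lit 0, nat_lit 79, nat_lit 1328], [(nat_lit 0, nat_lit 0, nat_lit 0), (nat_lit 1000, nat_lit 981, nat_lit 31), (nat_lit 1000, nat_lit 792, nat_lit 599)], (nat_lit 79, nat_lit 100, nat_lit 60)⟩
noncomputable def p024_k23 : C1.Kn := ⟨[nat_lit 40, nat_lit 80, nat_lit 100], [nat_lit 0, nat_lit 315, nat_lit 1482], [(nat_lit 0, nat_lit 0, nat_lit 0), (nat_lit 1000, nat_lit 926, nat_lit 123), (nat_lit 1000, nat_lit 768, nat_lit 633)], (nat_lit 77, nat_lit 100, nat_lit 60)⟩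
noncomputable def p024_k24 : C1.Kn := ⟨[nat_lit 20, nat_lit 80], [nat_lit 0, nat_lit 0], [(nat_lit 0, nat_lit 0, nat_lit 0), (nat_lit 0, nat_lit 0, nat_lit 0)], (nat_lit 63, nat_lit 100, nat_lit 62)⟩
noncomputable def p024_k25 : C1.Kn := ⟨[nat_lit 20, nat_lit 60, nat_lit 80], [nat_lit 0, nat_lit 0, nat_lit 1613], [(nat_lit 0, nat_lit 0, nat_lit 0), (nat_lit 0, nat_lit 0, nat_lit 0), (nat_lit 1000, nat_lit 614, nat_lit 668)], (nat_lit 63, nat_lit 100, nat_lit 62)⟩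
noncomputable def p024_k26 : C1.Kn := ⟨[nat_lit 120, nat_lit 160, nat_lit 180], [nat_lit 0, nat_lit 0, nat_lit 1613], [(nat_lit 0, nat_lit 0, nat_lit 0), (nat_lit 0, nat_lit 0, nat_lit 0), (nat_lit 620, nat_lit 1000, nat_lit 670)], (nat_lit 100, nat_lit 68, nat_lit 61)⟩
noncomputable def p024_k27 : C1.Kn := ⟨[nat_lit 20, nat_lit 60, nat_lit 80], [nat_lit 0, nat_lit 698, nat_lit 2008], [(nat_lit 0, nat_lit 0, nat_lit 0), (nat_lit 1000, nat_lit 782, nat_lit 272), (nat_lit 1000, nat_lit 540, nat_lit 733)], (nat_lit 57, nat_lit 100, nat_lit 64)⟩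
noncomputable def p024_k28 : C1.Kn := ⟨[nat_lit 20, nat_lit 60], [nat_lit 0, nat_lit 1056], [(nat_lit 0, nat_lit 0, nat_lit 0), (nat_lit 1000, nat_lit 671, nat_lit 411)], (nat_lit 53, nat_lit 100, nat_lit 66)⟩
noncomputable def p024_k29 : C1.Kn := ⟨[nat_lit 120, nat_lit 160, nat_lit 180], [nat_lit 0, nat_lit 533, nat_lit 2066], [(nat_lit 0, nat_lit 0, nat_lit 0), (nat_lit 960, nat_lit 1000, nat_lit 200), (nat_lit 615, nat_lit 1000, nat_lit 729)], (nat_lit 100, nat_lit 74, nat_lit 60)⟩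
noncomputable def p024_k30 : C1.Kn := ⟨[nat_lit 20, nat_lit 60], [nat_lit 0, nat_lit 1415], [(nat_lit 0, nat_lit 0, nat_lit 0), (nat_lit 1000, nat_lit 558, nat_lit 551)], (nat_lit 49, nat_lit 100, nat_lit 68)⟩
noncomputable def p024_k31 : C1.Kn := ⟨[nat_lit 20, nat_lit 60], [nat_lit 0, nat_lit 2136], [(nat_lit 0, nat_lit 0, nat_lit 0), (nat_lit 1000, nat_lit 343, nat_lit 808)], (nat_lit 38, nat_lit 100, nat_lit 73)⟩
noncomputable def p024_k32 : C1.Kn := ⟨[nat_lit 120, nat_lit 180], [nat_lit 0, nat_lit 0], [(nat_lit 0, nat_lit 0, nat_lit 0), (nat_lit 0, nat_lit 0, nat_lit 0)], (nat_lit 100, nat_lit 68, nat_lit 61)⟩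
noncomputable def p024_k33 : C1.Kn := ⟨[nat_lit 100, nat_lit 140, nat_lit 160], [nat_lit 0, nat_lit 0, nat_lit 1280], [(nat_lit 0, nat_lit 0, nat_lit 0), (nat_lit 0, nat_lit 0, nat_lit 0), (nat_lit 800, nat_lit 1000, nat_lit 600)], (nat_lit 100, nat_lit 80, nat_lit 60)⟩
noncomputable def p024_k34 : C1.Kn := ⟨[nat_lit 100, nat_lit 160], [nat_lit 0, nat_lit 0], [(nat_lit 0, nat_lit 0, nat_lit 0), (nat_lit 0, nat_lit 0, nat_lit 0)], (nat_lit 100, nat_lit 80, nat_lit 60)⟩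
noncomputable def p024_k35 : C1.Kn := ⟨[nat_lit 100, nat_lit 140, nat_lit 160], [nat_lit 0, nat_lit 508, nat_lit 1689], [(nat_lit 0, nat_lit 0, nat_lit 0), (nat_lit 1000, nat_lit 1000, nat_lit 198), (nat_lit 811, nat_lit 1000, nat_lit 671)], (nat_lit 100, nat_lit 86, nat_lit 60)⟩
noncomputable def p024_k36 : C1.Kn := ⟨[nat_lit 80, nat_lit 160], [nat_lit 0, nat_lit 0], [(nat_lit 0, nat_lit 0, nat_lit 0), (nat_lit 0, nat_lit 0, nat_lit 0)], (nat_lit 100, nat_lit 92, nat_lit 61)⟩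
noncomputable def p024_k37 : C1.Kn := ⟨[nat_lit 80, nat_lit 120, nat_lit 160], [nat_lit 0, nat_lit 0, nat_lit 2132], [(nat_lit 0, nat_lit 0, nat_lit 0), (nat_lit 0, nat_lit 0, nat_lit 0), (nat_lit 858, nat_lit 1000, nat_lit 713)], (nat_lit 100, nat_lit 92, nat_lit 61)⟩
noncomputable def p024_k38 : C1.Kn := ⟨[nat_lit 80, nat_lit 120, nat_lit 140], [nat_lit 0, nat_lit 528, nat_lit 1572], [(nat_lit 0, nat_lit 0, nat_lit 0), (nat_lit 1000, nat_lit 959, nat_lit 206), (nat_lit 966, nat_lit 1000, nat_lit 679)], (nat_lit 100, nat_lit 99, nat_lit 63)⟩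
noncomputable def p024_l0 : Lf2 := ⟨nat_lit 0, nat_lit 1, [nat_lit 19, nat_lit 5, nat_lit 5, nat_lit 20], false, nat_lit 0, nat_lit 0, nat_lit 0, nat_lit 0, ⟨nat_lit 1000, nat_lit 0, nat_lit 0, nat_lit 0, nat_lit 0, nat_lit 0, nat_lit 0, nat_lit 0, nat_lit 0, nat_lit 0, nat_lit 0, nat_lit 0, nat_lit 0, nat_lit 0, nat_lit 0, nat_lit 0, false, false⟩,
 nat_lit 0, nat_lit 7586, nat_lit 0, nat_lit 0, nat_lit 5689, nat_lit 4172, nat_lit 0, nat_lit 0, nat_lit 0, nat_lit 0, nat_lit 0, nat_lit 0, nat_lit 0, nat_lit 0, nat_lit 0, nat_lit 0, nat_lit 0, nat_lit 0, [],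
 ⟨p024_k0, nat_lit 0, nat_lit 0, nat_lit 621, nat_lit 0, nat_lit 1576638, [nat_lit 2032000001, nat_lit 3282000000], [], [nat_lit 33377393329, nat_lit 33471212529, nat_lit 37324985849, nat_lit 37389645255], nat_lit 1271250, nat_lit 1271250, nat_lit 1271250, nat_lit 1271250, nat_lit 0, nat_lit 0, [nat_lit 490000, nat_lit 780000], [nat_lit 112, nat_lit 40, nat_lit 80, nat_lit 80, nat_lit 113, nat_lit 246, nat_lit 0, nat_lit 13]⟩, ⟨p024_k0, nat_lit 0, nat_lit 0, nat_lit 135, nat_lit 0, nat_lit 0, [nat_lit 2032000000, nat_lit 3282000000], [], [nat_lit 23545798992, nat_lit 23757009767, nat_lit 32946166032, nat_lit 33117229047], nat_lit 0, nat_lit 0, nat_lit 0, nat_lit 0, nat_lit 0, nat_lit 0, [], [nat_lit 112, nat_lit 40, nat_lit 80, nat_lit 80, nat_lit 113, nat_lit 203, nat_lit 0, nat_lit 10]⟩,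
 zbF0, []⟩
noncomputable def p024_l1 : Lf2 := ⟨nat_lit 0, nat_lit 2, [nat_lit 10, nat_lit 5, nat_lit 5, nat_lit 20], false, nat_lit 0, nat_lit 0, nat_lit 0, nat_lit 0, ⟨nat_lit 1000, nat_lit 0, nat_lit 0, nat_lit 0, nat_lit 0, nat_lit 0, nat_lit 0, nat_lit 0, nat_lit 0, nat_lit 0, nat_lit 0, nat_lit 0, nat_lit 0, nat_lit 0, nat_lit 0, nat_lit 0, false, false⟩,
 nat_lit 0, nat_lit 8687, nat_lit 0, nat_lit 0, nat_lit 6515, nat_lit 4232, nat_lit 0, nat_lit 0, nat_lit 0, nat_lit 0, nat_lit 0, nat_lit 0, nat_lit 0, nat_lit 0, nat_lit 0, nat_lit 0, nat_lit 0, nat_lit 0, [],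
 ⟨p024_k1, nat_lit 0, nat_lit 0, nat_lit 650, nat_lit 0, nat_lit 1504092, [nat_lit 2032000001, nat_lit 4688000000], [], [nat_lit 36426586801, nat_lit 36479001393, nat_lit 37836096080, nat_lit 37883059291], nat_lit 1271250, nat_lit 1271250, nat_lit 1271250, nat_lit 1271250, nat_lit 0, nat_lit 0, [nat_lit 490000, nat_lit 1100000], [nat_lit 24, nat_lit 40, nat_lit 80, nat_lit 80, nat_lit 33, nat_lit 243, nat_lit 0, nat_lit 10]⟩, ⟨p024_k1, nat_lit 0, nat_lit 0, nat_lit 110, nat_lit 0, nat_lit 0, [nat_lit 2032000000, nat_lit 4688000000], [], [nat_lit 24086338368, nat_lit 24226886709, nat_lit 28522258656, nat_lit 28652184674], nat_lit 0, nat_lit 0, nat_lit 0, nat_lit 0, nat_lit 0, nat_lit 0, [], [nat_lit 24, nat_lit 40, nat_lit 80, nat_lit 80, nat_lit 33, nat_lit 203, nat_lit 0, nat_lit 8]⟩,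
 zbF0, []⟩
noncomputable def p024_l2 : Lf2 := ⟨nat_lit 0, nat_lit 2, [nat_lit 10, nat_lit 5, nat_lit 5, nat_lit 20], false, nat_lit 0, nat_lit 0, nat_lit 0, nat_lit 0, ⟨nat_lit 1000, nat_lit 0, nat_lit 0, nat_lit 0, nat_lit 0, nat_lit 0, nat_lit 0, nat_lit 0, nat_lit 0, nat_lit 0, nat_lit 0, nat_lit 0, nat_lit 0, nat_lit 0, nat_lit 0, nat_lit 0, false, false⟩,
 nat_lit 0, nat_lit 6840, nat_lit 0, nat_lit 0, nat_lit 5169, nat_lit 4227, nat_lit 11926, nat_lit 0, nat_lit 0, nat_lit 0, nat_lit 0, nat_lit 0, nat_lit 0, nat_lit 0, nat_lit 0, nat_lit 0, nat_lit 0, nat_lit 0, [],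
 ⟨p024_k2, nat_lit 0, nat_lit 0, nat_lit 650, nat_lit 0, nat_lit 1503945, [nat_lit 2032000001, nat_lit 4688000000], [], [nat_lit 26523830526, nat_lit 26558322813, nat_lit 28976037475, nat_lit 29059609071], nat_lit 1271250, nat_lit 1271250, nat_lit 1271250, nat_lit 1271250, nat_lit 0, nat_lit 0, [nat_lit 490000, nat_lit 1100000], [nat_lit 24, nat_lit 40, nat_lit 80, nat_lit 80, nat_lit 33, nat_lit 243, nat_lit 0, nat_lit 10]⟩, ⟨p024_k1, nat_lit 0, nat_lit 0, nat_lit 111, nat_lit 0, nat_lit 0, [nat_lit 2032000000, nat_lit 4688000000], [], [nat_lit 24093293748, nat_lit 24303986214, nat_lit 28519144116, nat_lit 28713920442], nat_lit 0, nat_lit 0, nat_lit 0, nat_lit 0, nat_lit 0, nat_lit 0, [], [nat_lit 24, nat_lit 40, nat_lit 80, nat_lit 80, nat_lit 33, nat_lit 203, nat_lit 0, nat_lit 8]⟩,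
 zbF0, []⟩
noncomputable def p024_l3 : Lf2 := ⟨nat_lit 0, nat_lit 2, [nat_lit 10, nat_lit 5, nat_lit 5, nat_lit 20], false, nat_lit 0, nat_lit 0, nat_lit 0, nat_lit 0, ⟨nat_lit 1000, nat_lit 0, nat_lit 0, nat_lit 0, nat_lit 0, nat_lit 0, nat_lit 0, nat_lit 0, nat_lit 0, nat_lit 0, nat_lit 0, nat_lit 0, nat_lit 0, nat_lit 0, nat_lit 0, nat_lit 0, false, false⟩,
 nat_lit 0, nat_lit 0, nat_lit 0, nat_lit 0, nat_lit 0, nat_lit 5123, nat_lit 0, nat_lit 0, nat_lit 455, nat_lit 21421, nat_lit 0, nat_lit 0, nat_lit 0, nat_lit 400000000000000, nat_lit 0, nat_lit 0, nat_lit 0, nat_lit 0, [],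
 ⟨p024_k1, nat_lit 0, nat_lit 0, nat_lit 0, nat_lit 0, nat_lit 1488578, [nat_lit 2032000001, nat_lit 4688000000], [], [nat_lit 19054372000, nat_lit 19079811000, nat_lit 21285092000, nat_lit 21312632100], nat_lit 1271250, nat_lit 1271250, nat_lit 1271250, nat_lit 1271250, nat_lit 0, nat_lit 0, [nat_lit 490000, nat_lit 1100000], [nat_lit 24, nat_lit 40, nat_lit 80, nat_lit 80]⟩, ⟨p024_k1, nat_lit 0, nat_lit 0, nat_lit 156, nat_lit 0, nat_lit 0, [nat_lit 2032000000, nat_lit 4688000000], [], [nat_lit 30524011260, nat_lit 30585208407, nat_lit 35607056928, nat_lit 35669476637], nat_lit 0, nat_lit 0, nat_lit 0, nat_lit 0, nat_lit 0, nat_lit 0, [], [nat_lit 24, nat_lit 40, nat_lit 80, nat_lit 80, nat_lit 33, nat_lit 203, nat_lit 0, nat_lit 8]⟩,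
 zbF0, [⟨nat_lit 13, nat_lit 100, nat_lit 1, nat_lit 100, nat_lit 58225912⟩]⟩
noncomputable def p024_l4 : Lf2 := ⟨nat_lit 0, nat_lit 2, [nat_lit 10, nat_lit 5, nat_lit 5, nat_lit 20], false, nat_lit 0, nat_lit 0, nat_lit 0, nat_lit 0, ⟨nat_lit 1000, nat_lit 0, nat_lit 0, nat_lit 0, nat_lit 0, nat_lit 0, nat_lit 0, nat_lit 0, nat_lit 0, nat_lit 0, nat_lit 0, nat_lit 0, nat_lit 0, nat_lit 0, nat_lit 0, nat_lit 0, false, false⟩,
 nat_lit 0, nat_lit 0, nat_lit 0, nat_lit 0, nat_lit 0, nat_lit 1172, nat_lit 0, nat_lit 0, nat_lit 441, nat_lit 0, nat_lit 0, nat_lit 0, nat_lit 0, nat_lit 400000000000000, nat_lit 0, nat_lit 0, nat_lit 0, nat_lit 0, [],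
 ⟨p024_k1, nat_lit 0, nat_lit 0, nat_lit 0, nat_lit 0, nat_lit 1488578, [nat_lit 2032000001, nat_lit 4688000000], [], [nat_lit 20159148000, nat_lit 20180896300, nat_lit 22004504000, nat_lit 22026404100], nat_lit 1271250, nat_lit 1271250, nat_lit 1271250, nat_lit 1271250, nat_lit 0, nat_lit 0, [nat_lit 490000, nat_lit 1100000], [nat_lit 24, nat_lit 40, nat_lit 80, nat_lit 80]⟩, ⟨p024_k1, nat_lit 0, nat_lit 0, nat_lit 156, nat_lit 0, nat_lit 0, [nat_lit 2032000000, nat_lit 4688000000], [], [nat_lit 35095134160, nat_lit 35130825515, nat_lit 38005088320, nat_lit 38036063972], nat_lit 0, nat_lit 0, nat_lit 0, nat_lit 0, nat_lit 0, nat_lit 0, [], [nat_lit 24, nat_lit 40, nat_lit 80, nat_lit 80, nat_lit 33, nat_lit 203, nat_lit 0, nat_lit 8]⟩,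
 zbF0, []⟩
noncomputable def p024_l5 : Lf2 := ⟨nat_lit 0, nat_lit 2, [nat_lit 10, nat_lit 5, nat_lit 5, nat_lit 20], false, nat_lit 0, nat_lit 0, nat_lit 0, nat_lit 0, ⟨nat_lit 1000, nat_lit 0, nat_lit 0, nat_lit 0, nat_lit 0, nat_lit 0, nat_lit 0, nat_lit 0, nat_lit 0, nat_lit 0, nat_lit 0, nat_lit 0, nat_lit 0, nat_lit 0, nat_lit 0, nat_lit 0, false, false⟩,
 nat_lit 0, nat_lit 0, nat_lit 0, nat_lit 0, nat_lit 0, nat_lit 5122, nat_lit 0, nat_lit 0, nat_lit 429, nat_lit 0, nat_lit 0, nat_lit 0, nat_lit 0, nat_lit 4093219171569, nat_lit 0, nat_lit 0, nat_lit 0, nat_lit 0, [],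
 ⟨p024_k1, nat_lit 0, nat_lit 0, nat_lit 0, nat_lit 0, nat_lit 1488578, [nat_lit 2032000001, nat_lit 4688000000], [], [nat_lit 21438556000, nat_lit 21458789700, nat_lit 23069552000, nat_lit 23088644700], nat_lit 1271250, nat_lit 1271250, nat_lit 1271250, nat_lit 1271250, nat_lit 0, nat_lit 0, [nat_lit 490000, nat_lit 1100000], [nat_lit 24, nat_lit 40, nat_lit 80, nat_lit 80]⟩, ⟨p024_k1, nat_lit 0, nat_lit 0, nat_lit 156, nat_lit 0, nat_lit 0, [nat_lit 2032000000, nat_lit 4688000000], [], [nat_lit 30524573640, nat_lit 30585764747, nat_lit 35607103392, nat_lit 35666672967], nat_lit 0, nat_lit 0, nat_lit 0, nat_lit 0, nat_lit 0, nat_lit 0, [], [nat_lit 24, nat_lit 40, nat_lit 80, nat_lit 80, nat_lit 33, nat_lit 203, nat_lit 0, nat_lit 8]⟩,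
 zbF0, []⟩
noncomputable def p024_l6 : Lf2 := ⟨nat_lit 0, nat_lit 2, [nat_lit 10, nat_lit 5, nat_lit 5, nat_lit 20], false, nat_lit 0, nat_lit 0, nat_lit 0, nat_lit 0, ⟨nat_lit 1000, nat_lit 0, nat_lit 0, nat_lit 0, nat_lit 0, nat_lit 0, nat_lit 0, nat_lit 0, nat_lit 0, nat_lit 0, nat_lit 0, nat_lit 0, nat_lit 0, nat_lit 0, nat_lit 0, nat_lit 0, false, false⟩,
 nat_lit 0, nat_lit 0, nat_lit 0, nat_lit 0, nat_lit 0, nat_lit 5123, nat_lit 0, nat_lit 0, nat_lit 424, nat_lit 0, nat_lit 0, nat_lit 0, nat_lit 0, nat_lit 4348299489932, nat_lit 0, nat_lit 0, nat_lit 0, nat_lit 0, [],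
 ⟨p024_k1, nat_lit 0, nat_lit 0, nat_lit 0, nat_lit 0, nat_lit 1488578, [nat_lit 2032000001, nat_lit 4688000000], [], [nat_lit 22099852000, nat_lit 22118749000, nat_lit 23629552000, nat_lit 23648644700], nat_lit 1271250, nat_lit 1271250, nat_lit 1271250, nat_lit 1271250, nat_lit 0, nat_lit 0, [nat_lit 490000, nat_lit 1100000], [nat_lit 24, nat_lit 40, nat_lit 80, nat_lit 80]⟩, ⟨p024_k1, nat_lit 0, nat_lit 0, nat_lit 156, nat_lit 0, nat_lit 0, [nat_lit 2032000000, nat_lit 4688000000], [], [nat_lit 30524011260, nat_lit 30585208407, nat_lit 35607056928, nat_lit 35669476637], nat_lit 0, nat_lit 0, nat_lit 0, nat_lit 0, nat_lit 0, nat_lit 0, [], [nat_lit 24, nat_lit 40, nat_lit 80, nat_lit 80, nat_lit 33, nat_lit 203, nat_lit 0, nat_lit 8]⟩,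
 zbF0, []⟩
noncomputable def p024_l7 : Lf2 := ⟨nat_lit 0, nat_lit 2, [nat_lit 10, nat_lit 5, nat_lit 5, nat_lit 20], false, nat_lit 0, nat_lit 0, nat_lit 0, nat_lit 0, ⟨nat_lit 1000, nat_lit 0, nat_lit 0, nat_lit 0, nat_lit 0, nat_lit 0, nat_lit 0, nat_lit 0, nat_lit 0, nat_lit 0, nat_lit 0, nat_lit 0, nat_lit 0, nat_lit 0, nat_lit 0, nat_lit 0, false, false⟩,
 nat_lit 0, nat_lit 7980, nat_lit 0, nat_lit 0, nat_lit 5984, nat_lit 4042, nat_lit 0, nat_lit 0, nat_lit 0, nat_lit 799, nat_lit 0, nat_lit 0, nat_lit 0, nat_lit 0, nat_lit 0, nat_lit 0, nat_lit 0, nat_lit 0, [],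
 ⟨p024_k1, nat_lit 0, nat_lit 0, nat_lit 650, nat_lit 0, nat_lit 1488578, [nat_lit 2032000001, nat_lit 4688000000], [], [nat_lit 41116008929, nat_lit 41137460929, nat_lit 42950585377, nat_lit 42967675269], nat_lit 1271250, nat_lit 1271250, nat_lit 1271250, nat_lit 1271250, nat_lit 0, nat_lit 0, [nat_lit 490000, nat_lit 1100000], [nat_lit 24, nat_lit 40, nat_lit 80, nat_lit 80, nat_lit 33, nat_lit 253, nat_lit 0, nat_lit 10]⟩, ⟨p024_k3, nat_lit 0, nat_lit 0, nat_lit 0, nat_lit 0, nat_lit 0, [nat_lit 2032000000, nat_lit 3282000000, nat_lit 4688000000], [], [nat_lit 28030615139, nat_lit 28085197757, nat_lit 32598552803, nat_lit 32644932479], nat_lit 0, nat_lit 0, nat_lit 0, nat_lit 0, nat_lit 0, nat_lit 0, [], [nat_lit 78, nat_lit 40, nat_lit 80, nat_lit 80]⟩,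
 zbF0, []⟩
noncomputable def p024_l8 : Lf2 := ⟨nat_lit 0, nat_lit 2, [nat_lit 10, nat_lit 5, nat_lit 5, nat_lit 20], false, nat_lit 0, nat_lit 0, nat_lit 0, nat_lit 0, ⟨nat_lit 1000, nat_lit 0, nat_lit 0, nat_lit 0, nat_lit 0, nat_lit 0, nat_lit 0, nat_lit 0, nat_lit 0, nat_lit 0, nat_lit 0, nat_lit 0, nat_lit 0, nat_lit 0, nat_lit 0, nat_lit 0, false, false⟩,
 nat_lit 0, nat_lit 100000, nat_lit 0, nat_lit 0, nat_lit 75000, nat_lit 100000, nat_lit 18301, nat_lit 2514, nat_lit 0, nat_lit 60000, nat_lit 20000, nat_lit 0, nat_lit 0, nat_lit 400000000000000, nat_lit 0, nat_lit 0, nat_lit 45455748000, nat_lit 0, [],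
 ⟨p024_k1, nat_lit 0, nat_lit 0, nat_lit 650, nat_lit 0, nat_lit 1488578, [nat_lit 22144000000, nat_lit 44912000000], [], [nat_lit 0, nat_lit 71674500, nat_lit 7149308000, nat_lit 7176606900], nat_lit 1271250, nat_lit 1271250, nat_lit 1271250, nat_lit 1271250, nat_lit 0, nat_lit 0, [nat_lit 490000, nat_lit 1100000], [nat_lit 24, nat_lit 40, nat_lit 80, nat_lit 80, nat_lit 33, nat_lit 253, nat_lit 0, nat_lit 10]⟩, ⟨p024_k1, nat_lit 0, nat_lit 0, nat_lit 0, nat_lit 0, nat_lit 0, [nat_lit 162032000000, nat_lit 324688000000], [], [nat_lit 706399336000, nat_lit 706987001500, nat_lit 756527332000, nat_lit 756924000900], nat_lit 0, nat_lit 0, nat_lit 0, nat_lit 0, nat_lit 0, nat_lit 0, [], [nat_lit 24, nat_lit 40, nat_lit 80, nat_lit 80]⟩,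
 zbF0, []⟩
noncomputable def p024_l9 : Lf2 := ⟨nat_lit 3, nat_lit 2, [nat_lit 10, nat_lit 5, nat_lit 5, nat_lit 20], false, nat_lit 0, nat_lit 0, nat_lit 0, nat_lit 0, zbN0,
 nat_lit 0, nat_lit 0, nat_lit 0, nat_lit 0, nat_lit 0, nat_lit 0, nat_lit 0, nat_lit 0, nat_lit 0, nat_lit 0, nat_lit 0, nat_lit 0, nat_lit 0, nat_lit 0, nat_lit 0, nat_lit 0, nat_lit 0, nat_lit 0, [],
 C1.Rw.none, ⟨p024_k1, nat_lit 0, nat_lit 0, nat_lit 156, nat_lit 0, nat_lit 0, [], [], [], nat_lit 0, nat_lit 0, nat_lit 0, nat_lit 0, nat_lit 0, nat_lit 0, [], [nat_lit 24, nat_lit 40, nat_lit 80, nat_lit 80, nat_lit 33, nat_lit 203, nat_lit 0, nat_lit 8]⟩,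
 zbF0, []⟩
noncomputable def p024_l10 : Lf2 := ⟨nat_lit 0, nat_lit 2, [nat_lit 10, nat_lit 5, nat_lit 5, nat_lit 20], false, nat_lit 0, nat_lit 0, nat_lit 0, nat_lit 0, ⟨nat_lit 1000, nat_lit 0, nat_lit 0, nat_lit 0, nat_lit 0, nat_lit 0, nat_lit 0, nat_lit 0, nat_lit 0, nat_lit 0, nat_lit 0, nat_lit 0, nat_lit 0, nat_lit 0, nat_lit 0, nat_lit 0, false, false⟩,
 nat_lit 0, nat_lit 7945, nat_lit 0, nat_lit 0, nat_lit 5982, nat_lit 5112, nat_lit 5881, nat_lit 0, nat_lit 0, nat_lit 0, nat_lit 0, nat_lit 0, nat_lit 0, nat_lit 32378445787039, nat_lit 0, nat_lit 0, nat_lit 0, nat_lit 0, [],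
 ⟨p024_k4, nat_lit 0, nat_lit 0, nat_lit 652, nat_lit 0, nat_lit 1496264, [nat_lit 2032000001, nat_lit 4688000000], [], [nat_lit 36298421507, nat_lit 36319872469, nat_lit 38128518052, nat_lit 38145608055], nat_lit 1271250, nat_lit 1271250, nat_lit 1271250, nat_lit 1271250, nat_lit 0, nat_lit 0, [nat_lit 490000, nat_lit 1100000], [nat_lit 24, nat_lit 40, nat_lit 80, nat_lit 80, nat_lit 33, nat_lit 254, nat_lit 0, nat_lit 10]⟩, ⟨p024_k1, nat_lit 0, nat_lit 0, nat_lit 157, nat_lit 0, nat_lit 0, [nat_lit 2032000000, nat_lit 4688000000], [], [nat_lit 30530197440, nat_lit 30652458866, nat_lit 35607568032, nat_lit 35703337708], nat_lit 0, nat_lit 0, nat_lit 0, nat_lit 0, nat_lit 0, nat_lit 0, [], [nat_lit 24, nat_lit 40, nat_lit 80, nat_lit 80, nat_lit 33, nat_lit 203, nat_lit 0, nat_lit 8]⟩,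
 zbF0, []⟩
noncomputable def p024_l11 : Lf2 := ⟨nat_lit 0, nat_lit 2, [nat_lit 10, nat_lit 5, nat_lit 5, nat_lit 20], false, nat_lit 0, nat_lit 0, nat_lit 0, nat_lit 0, ⟨nat_lit 1000, nat_lit 0, nat_lit 0, nat_lit 0, nat_lit 0, nat_lit 0, nat_lit 0, nat_lit 0, nat_lit 0, nat_lit 0, nat_lit 0, nat_lit 0, nat_lit 0, nat_lit 0, nat_lit 0, nat_lit 0, false, false⟩,
 nat_lit 0, nat_lit 6613, nat_lit 0, nat_lit 0, nat_lit 4998, nat_lit 5107, nat_lit 6665, nat_lit 0, nat_lit 0, nat_lit 0, nat_lit 0, nat_lit 0, nat_lit 0, nat_lit 27049870267120, nat_lit 0, nat_lit 0, nat_lit 0, nat_lit 0, [],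
 ⟨p024_k2, nat_lit 0, nat_lit 0, nat_lit 655, nat_lit 0, nat_lit 1503945, [nat_lit 2032000001, nat_lit 4688000000], [], [nat_lit 33288704474, nat_lit 33314278314, nat_lit 35429679593, nat_lit 35450825452], nat_lit 1271250, nat_lit 1271250, nat_lit 1271250, nat_lit 1271250, nat_lit 0, nat_lit 0, [nat_lit 490000, nat_lit 1100000], [nat_lit 24, nat_lit 40, nat_lit 80, nat_lit 80, nat_lit 33, nat_lit 255, nat_lit 0, nat_lit 10]⟩, ⟨p024_k1, nat_lit 0, nat_lit 0, nat_lit 157, nat_lit 0, nat_lit 0, [nat_lit 2032000000, nat_lit 4688000000], [], [nat_lit 30533009340, nat_lit 30716310888, nat_lit 35607800352, nat_lit 35751395168], nat_lit 0, nat_lit 0, nat_lit 0, nat_lit 0, nat_lit 0, nat_lit 0, [], [nat_lit 24, nat_lit 40, nat_lit 80, nat_lit 80, nat_lit 33, nat_lit 203, nat_lit 0, nat_lit 8]⟩,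
 zbF0, []⟩
noncomputable def p024_l12 : Lf2 := ⟨nat_lit 0, nat_lit 4, [nat_lit 38, nat_lit 5, nat_lit 5, nat_lit 20], false, nat_lit 0, nat_lit 0, nat_lit 0, nat_lit 0, ⟨nat_lit 1000, nat_lit 0, nat_lit 0, nat_lit 0, nat_lit 0, nat_lit 0, nat_lit 0, nat_lit 0, nat_lit 0, nat_lit 0, nat_lit 0, nat_lit 0, nat_lit 0, nat_lit 0, nat_lit 0, nat_lit 0, false, false⟩,
 nat_lit 0, nat_lit 8681, nat_lit 0, nat_lit 0, nat_lit 6510, nat_lit 4227, nat_lit 0, nat_lit 0, nat_lit 0, nat_lit 0, nat_lit 0, nat_lit 0, nat_lit 0, nat_lit 0, nat_lit 0, nat_lit 0, nat_lit 0, nat_lit 0, [],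
 ⟨p024_k5, nat_lit 0, nat_lit 0, nat_lit 642, nat_lit 0, nat_lit 1480305, [nat_lit 2032000001, nat_lit 4688000000], [], [nat_lit 36458451201, nat_lit 36537057094, nat_lit 37865670720, nat_lit 37936104981], nat_lit 1271250, nat_lit 1271250, nat_lit 1271250, nat_lit 1271250, nat_lit 0, nat_lit 0, [nat_lit 490000, nat_lit 1100000], [nat_lit 24, nat_lit 40, nat_lit 80, nat_lit 80, nat_lit 33, nat_lit 241, nat_lit 0, nat_lit 10]⟩, ⟨p024_k5, nat_lit 0, nat_lit 0, nat_lit 111, nat_lit 0, nat_lit 0, [nat_lit 2032000000, nat_lit 4688000000], [], [nat_lit 24093293748, nat_lit 24303986214, nat_lit 28519144116, nat_lit 28713920442], nat_lit 0, nat_lit 0, nat_lit 0, nat_lit 0, nat_lit 0, nat_lit 0, [], [nat_lit 24, nat_lit 40, nat_lit 80, nat_lit 80, nat_lit 33, nat_lit 203, nat_lit 0, nat_lit 8]⟩,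
 zbF0, []⟩
noncomputable def p024_l13 : Lf2 := ⟨nat_lit 0, nat_lit 4, [nat_lit 38, nat_lit 5, nat_lit 5, nat_lit 20], false, nat_lit 0, nat_lit 0, nat_lit 0, nat_lit 0, ⟨nat_lit 1000, nat_lit 0, nat_lit 0, nat_lit 0, nat_lit 0, nat_lit 0, nat_lit 0, nat_lit 0, nat_lit 0, nat_lit 0, nat_lit 0, nat_lit 0, nat_lit 0, nat_lit 0, nat_lit 0, nat_lit 0, false, false⟩,
 nat_lit 0, nat_lit 8732, nat_lit 0, nat_lit 0, nat_lit 6549, nat_lit 5117, nat_lit 0, nat_lit 0, nat_lit 0, nat_lit 0, nat_lit 0, nat_lit 0, nat_lit 0, nat_lit 0, nat_lit 0, nat_lit 0, nat_lit 0, nat_lit 0, [],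
 ⟨p024_k5, nat_lit 0, nat_lit 0, nat_lit 635, nat_lit 0, nat_lit 1449002, [nat_lit 2032000001, nat_lit 4688000000], [], [nat_lit 37634988528, nat_lit 37658494060, nat_lit 39649376312, nat_lit 39667835354], nat_lit 1271250, nat_lit 1271250, nat_lit 1271250, nat_lit 1271250, nat_lit 0, nat_lit 0, [nat_lit 490000, nat_lit 1100000], [nat_lit 24, nat_lit 40, nat_lit 80, nat_lit 80, nat_lit 33, nat_lit 249, nat_lit 0, nat_lit 10]⟩, ⟨p024_k5, nat_lit 0, nat_lit 0, nat_lit 156, nat_lit 0, nat_lit 0, [nat_lit 2032000000, nat_lit 4688000000], [], [nat_lit 30527385540, nat_lit 30588546450, nat_lit 35607335712, nat_lit 35655240449], nat_lit 0, nat_lit 0, nat_lit 0, nat_lit 0, nat_lit 0, nat_lit 0, [], [nat_lit 24, nat_lit 40, nat_lit 80, nat_lit 80, nat_lit 33, nat_lit 203, nat_lit 0, nat_lit 8]⟩,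
 zbF0, []⟩
noncomputable def p024_l14 : Lf2 := ⟨nat_lit 0, nat_lit 3, [nat_lit 45, nat_lit 5, nat_lit 5, nat_lit 20], false, nat_lit 0, nat_lit 0, nat_lit 0, nat_lit 0, ⟨nat_lit 1000, nat_lit 0, nat_lit 0, nat_lit 0, nat_lit 0, nat_lit 0, nat_lit 0, nat_lit 0, nat_lit 0, nat_lit 0, nat_lit 0, nat_lit 0, nat_lit 0, nat_lit 0, nat_lit 0, nat_lit 0, false, false⟩,
 nat_lit 0, nat_lit 8289, nat_lit 0, nat_lit 0, nat_lit 6241, nat_lit 5112, nat_lit 3161, nat_lit 0, nat_lit 0, nat_lit 0, nat_lit 0, nat_lit 0, nat_lit 0, nat_lit 33774936791586, nat_lit 0, nat_lit 0, nat_lit 0, nat_lit 0, [],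
 ⟨p024_k6, nat_lit 0, nat_lit 0, nat_lit 635, nat_lit 0, nat_lit 1448303, [nat_lit 2032000001, nat_lit 4688000000], [], [nat_lit 36886689104, nat_lit 36908274435, nat_lit 38858677532, nat_lit 38877110856], nat_lit 1271250, nat_lit 1271250, nat_lit 1271250, nat_lit 1271250, nat_lit 0, nat_lit 0, [nat_lit 490000, nat_lit 1100000], [nat_lit 24, nat_lit 40, nat_lit 80, nat_lit 80, nat_lit 33, nat_lit 249, nat_lit 0, nat_lit 10]⟩, ⟨p024_k7, nat_lit 0, nat_lit 0, nat_lit 157, nat_lit 0, nat_lit 0, [nat_lit 2032000000, nat_lit 4688000000], [], [nat_lit 30530197440, nat_lit 30652458866, nat_lit 35607568032, nat_lit 35703337708], nat_lit 0, nat_lit 0, nat_lit 0, nat_lit 0, nat_lit 0, nat_lit 0, [], [nat_lit 24, nat_lit 40, nat_lit 80, nat_lit 80, nat_lit 33, nat_lit 203, nat_lit 0, nat_lit 8]⟩,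
 zbF0, []⟩
noncomputable def p024_l15 : Lf2 := ⟨nat_lit 0, nat_lit 4, [nat_lit 38, nat_lit 5, nat_lit 5, nat_lit 20], false, nat_lit 0, nat_lit 0, nat_lit 0, nat_lit 0, ⟨nat_lit 1000, nat_lit 0, nat_lit 0, nat_lit 0, nat_lit 0, nat_lit 0, nat_lit 0, nat_lit 0, nat_lit 0, nat_lit 0, nat_lit 0, nat_lit 0, nat_lit 0, nat_lit 0, nat_lit 0, nat_lit 0, false, false⟩,
 nat_lit 0, nat_lit 8690, nat_lit 0, nat_lit 0, nat_lit 6542, nat_lit 5112, nat_lit 0, nat_lit 0, nat_lit 0, nat_lit 0, nat_lit 0, nat_lit 0, nat_lit 0, nat_lit 0, nat_lit 0, nat_lit 0, nat_lit 0, nat_lit 0, [],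
 ⟨p024_k8, nat_lit 0, nat_lit 0, nat_lit 612, nat_lit 0, nat_lit 1403762, [nat_lit 2032000001, nat_lit 4688000000], [], [nat_lit 37699893630, nat_lit 37723394235, nat_lit 39708714153, nat_lit 39727172610], nat_lit 1271250, nat_lit 1271250, nat_lit 1271250, nat_lit 1271250, nat_lit 0, nat_lit 0, [nat_lit 490000, nat_lit 1100000], [nat_lit 24, nat_lit 40, nat_lit 80, nat_lit 80, nat_lit 33, nat_lit 244, nat_lit 0, nat_lit 10]⟩, ⟨p024_k5, nat_lit 0, nat_lit 0, nat_lit 157, nat_lit 0, nat_lit 0, [nat_lit 2032000000, nat_lit 4688000000], [], [nat_lit 30530197440, nat_lit 30652458866, nat_lit 35607568032, nat_lit 35703337708], nat_lit 0, nat_lit 0, nat_lit 0, nat_lit 0, nat_lit 0, nat_lit 0, [], [nat_lit 24, nat_lit 40, nat_lit 80, nat_lit 80, nat_lit 33, nat_lit 203, nat_lit 0, nat_lit 8]⟩,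
 zbF0, []⟩
noncomputable def p024_l16 : Lf2 := ⟨nat_lit 0, nat_lit 4, [nat_lit 38, nat_lit 5, nat_lit 5, nat_lit 20], false, nat_lit 0, nat_lit 0, nat_lit 0, nat_lit 0, ⟨nat_lit 1000, nat_lit 0, nat_lit 0, nat_lit 0, nat_lit 0, nat_lit 0, nat_lit 0, nat_lit 0, nat_lit 0, nat_lit 0, nat_lit 0, nat_lit 0, nat_lit 0, nat_lit 0, nat_lit 0, nat_lit 0, false, false⟩,
 nat_lit 0, nat_lit 7666, nat_lit 0, nat_lit 0, nat_lit 5794, nat_lit 5107, nat_lit 2741, nat_lit 0, nat_lit 0, nat_lit 0, nat_lit 0, nat_lit 0, nat_lit 0, nat_lit 31508274633374, nat_lit 0, nat_lit 0, nat_lit 0, nat_lit 0, [],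
 ⟨p024_k9, nat_lit 0, nat_lit 0, nat_lit 642, nat_lit 0, nat_lit 1464916, [nat_lit 2032000001, nat_lit 4688000000], [], [nat_lit 35792297736, nat_lit 35814471200, nat_lit 37672327686, nat_lit 37690157836], nat_lit 1271250, nat_lit 1271250, nat_lit 1271250, nat_lit 1271250, nat_lit 0, nat_lit 0, [nat_lit 490000, nat_lit 1100000], [nat_lit 24, nat_lit 40, nat_lit 80, nat_lit 80, nat_lit 33, nat_lit 251, nat_lit 0, nat_lit 10]⟩, ⟨p024_k5, nat_lit 0, nat_lit 0, nat_lit 157, nat_lit 0, nat_lit 0, [nat_lit 2032000000, nat_lit 4688000000], [], [nat_lit 30533009340, nat_lit 30716310888, nat_lit 35607800352, nat_lit 35751395168], nat_lit 0, nat_lit 0, nat_lit 0, nat_lit 0, nat_lit 0, nat_lit 0, [], [nat_lit 24, nat_lit 40, nat_lit 80, nat_lit 80, nat_lit 33, nat_lit 203, nat_lit 0, nat_lit 8]⟩,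
 zbF0, []⟩
noncomputable def p024_l17 : Lf2 := ⟨nat_lit 0, nat_lit 5, [nat_lit 4, nat_lit 5, nat_lit 5, nat_lit 20], false, nat_lit 0, nat_lit 0, nat_lit 0, nat_lit 0, ⟨nat_lit 1000, nat_lit 0, nat_lit 0, nat_lit 0, nat_lit 0, nat_lit 0, nat_lit 0, nat_lit 0, nat_lit 0, nat_lit 0, nat_lit 0, nat_lit 0, nat_lit 0, nat_lit 0, nat_lit 0, nat_lit 0, false, false⟩,
 nat_lit 0, nat_lit 8503, nat_lit 0, nat_lit 0, nat_lit 6377, nat_lit 5128, nat_lit 432, nat_lit 0, nat_lit 0, nat_lit 624, nat_lit 0, nat_lit 0, nat_lit 0, nat_lit 0, nat_lit 0, nat_lit 0, nat_lit 0, nat_lit 0, [],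
 ⟨p024_k10, nat_lit 0, nat_lit 0, nat_lit 661, nat_lit 0, nat_lit 1369231, [nat_lit 2032000001, nat_lit 4688000000, nat_lit 6250000000], [], [nat_lit 35122377642, nat_lit 35178271671, nat_lit 39213395492, nat_lit 39258196392], nat_lit 1271250, nat_lit 1271250, nat_lit 1271250, nat_lit 1271250, nat_lit 0, nat_lit 0, [nat_lit 490000, nat_lit 1100000, nat_lit 1442500], [nat_lit 6, nat_lit 40, nat_lit 80, nat_lit 80, nat_lit 3, nat_lit 256, nat_lit 0, nat_lit 9]⟩, ⟨p024_k10, nat_lit 0, nat_lit 0, nat_lit 172, nat_lit 0, nat_lit 0, [nat_lit 2032000000, nat_lit 4688000000, nat_lit 6250000000], [], [nat_lit 26381124768, nat_lit 26519970693, nat_lit 35620820768, nat_lit 35746169199], nat_lit 0, nat_lit 0, nat_lit 0, nat_lit 0, nat_lit 0, nat_lit 0, [], [nat_lit 6, nat_lit 40, nat_lit 80, nat_lit 80, nat_lit 3, nat_lit 203, nat_lit 0, nat_lit 7]⟩,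
 zbF0, []⟩
noncomputable def p024_l18 : Lf2 := ⟨nat_lit 0, nat_lit 5, [nat_lit 4, nat_lit 5, nat_lit 5, nat_lit 20], false, nat_lit 0, nat_lit 0, nat_lit 0, nat_lit 0, ⟨nat_lit 1000, nat_lit 0, nat_lit 0, nat_lit 0, nat_lit 0, nat_lit 0, nat_lit 0, nat_lit 0, nat_lit 0, nat_lit 0, nat_lit 0, nat_lit 0, nat_lit 0, nat_lit 0, nat_lit 0, nat_lit 0, false, false⟩,
 nat_lit 0, nat_lit 7833, nat_lit 0, nat_lit 0, nat_lit 5920, nat_lit 5261, nat_lit 2040, nat_lit 0, nat_lit 0, nat_lit 623, nat_lit 0, nat_lit 0, nat_lit 0, nat_lit 34092973475292, nat_lit 0, nat_lit 0, nat_lit 0, nat_lit 0, [],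
 ⟨p024_k11, nat_lit 0, nat_lit 0, nat_lit 597, nat_lit 0, nat_lit 1370354, [nat_lit 2032000001, nat_lit 4688000000], [], [nat_lit 34443305859, nat_lit 34471871646, nat_lit 38018720128, nat_lit 38040883533], nat_lit 1271250, nat_lit 1271250, nat_lit 1271250, nat_lit 1271250, nat_lit 0, nat_lit 0, [nat_lit 490000, nat_lit 1100000], [nat_lit 24, nat_lit 40, nat_lit 80, nat_lit 80, nat_lit 33, nat_lit 240, nat_lit 0, nat_lit 10]⟩, ⟨p024_k10, nat_lit 0, nat_lit 0, nat_lit 172, nat_lit 0, nat_lit 0, [nat_lit 2032000000, nat_lit 4688000000, nat_lit 6250000000], [], [nat_lit 26262067316, nat_lit 26474740007, nat_lit 35992922316, nat_lit 36183304409], nat_lit 0, nat_lit 0, nat_lit 0, nat_lit 0, nat_lit 0, nat_lit 0, [], [nat_lit 6, nat_lit 40, nat_lit 80, nat_lit 80, nat_lit 3, nat_lit 203, nat_lit 0, nat_lit 7]⟩,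
 zbF0, []⟩
noncomputable def p024_l19 : Lf2 := ⟨nat_lit 0, nat_lit 5, [nat_lit 4, nat_lit 5, nat_lit 5, nat_lit 20], false, nat_lit 0, nat_lit 0, nat_lit 0, nat_lit 0, ⟨nat_lit 1000, nat_lit 0, nat_lit 0, nat_lit 0, nat_lit 0, nat_lit 0, nat_lit 0, nat_lit 0, nat_lit 0, nat_lit 0, nat_lit 0, nat_lit 0, nat_lit 0, nat_lit 0, nat_lit 0, nat_lit 0, false, false⟩,
 nat_lit 0, nat_lit 7431, nat_lit 0, nat_lit 0, nat_lit 5638, nat_lit 5382, nat_lit 2256, nat_lit 0, nat_lit 0, nat_lit 620, nat_lit 0, nat_lit 0, nat_lit 0, nat_lit 32489604979360, nat_lit 0, nat_lit 0, nat_lit 0, nat_lit 0, [],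
 ⟨p024_k12, nat_lit 0, nat_lit 0, nat_lit 702, nat_lit 0, nat_lit 1626023, [nat_lit 2032000001, nat_lit 4688000000], [], [nat_lit 34236934825, nat_lit 34287145376, nat_lit 37345557752, nat_lit 37379947704], nat_lit 1271250, nat_lit 1271250, nat_lit 1271250, nat_lit 1271250, nat_lit 0, nat_lit 0, [nat_lit 490000, nat_lit 1100000], [nat_lit 24, nat_lit 40, nat_lit 80, nat_lit 80, nat_lit 33, nat_lit 267, nat_lit 0, nat_lit 11]⟩, ⟨p024_k10, nat_lit 0, nat_lit 0, nat_lit 173, nat_lit 0, nat_lit 0, [nat_lit 2032000000, nat_lit 4688000000, nat_lit 6250000000], [], [nat_lit 26162112792, nat_lit 26519745352, nat_lit 36331450792, nat_lit 36652331886], nat_lit 0, nat_lit 0, nat_lit 0, nat_lit 0, nat_lit 0, nat_lit 0, [], [nat_lit 6, nat_lit 40, nat_lit 80, nat_lit 80, nat_lit 3, nat_lit 203, nat_lit 0, nat_lit 7]⟩,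
 zbF0, []⟩
noncomputable def p024_l20 : Lf2 := ⟨nat_lit 0, nat_lit 10, [nat_lit 0, nat_lit 5, nat_lit 5, nat_lit 20], false, nat_lit 0, nat_lit 0, nat_lit 0, nat_lit 0, ⟨nat_lit 1000, nat_lit 0, nat_lit 0, nat_lit 0, nat_lit 0, nat_lit 0, nat_lit 0, nat_lit 0, nat_lit 0, nat_lit 0, nat_lit 0, nat_lit 0, nat_lit 0, nat_lit 0, nat_lit 0, nat_lit 0, false, false⟩,
 nat_lit 0, nat_lit 8495, nat_lit 0, nat_lit 0, nat_lit 6371, nat_lit 5127, nat_lit 433, nat_lit 0, nat_lit 0, nat_lit 623, nat_lit 0, nat_lit 0, nat_lit 0, nat_lit 37758752758161, nat_lit 0, nat_lit 0, nat_lit 0, nat_lit 0, [],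
 ⟨p024_k13, nat_lit 0, nat_lit 0, nat_lit 665, nat_lit 0, nat_lit 1378039, [nat_lit 2032000001, nat_lit 4688000000, nat_lit 6250000000], [], [nat_lit 35156473266, nat_lit 35244124227, nat_lit 39243413516, nat_lit 39310605530], nat_lit 1271250, nat_lit 1271250, nat_lit 1271250, nat_lit 1271250, nat_lit 0, nat_lit 0, [nat_lit 490000, nat_lit 1100000, nat_lit 1442500], [nat_lit 6, nat_lit 40, nat_lit 80, nat_lit 80, nat_lit 3, nat_lit 257, nat_lit 0, nat_lit 9]⟩, ⟨p024_k13, nat_lit 0, nat_lit 0, nat_lit 172, nat_lit 0, nat_lit 0, [nat_lit 2032000000, nat_lit 4688000000, nat_lit 6250000000], [], [nat_lit 26386050012, nat_lit 26594345888, nat_lit 35618023012, nat_lit 35806027918], nat_lit 0, nat_lit 0, nat_lit 0, nat_lit 0, nat_lit 0, nat_lit 0, [], [nat_lit 6, nat_lit 40, nat_lit 80, nat_lit 80, nat_lit 3, nat_lit 203, nat_lit 0, nat_lit 7]⟩,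
 zbF0, []⟩
noncomputable def p024_l21 : Lf2 := ⟨nat_lit 0, nat_lit 10, [nat_lit 0, nat_lit 5, nat_lit 5, nat_lit 20], false, nat_lit 0, nat_lit 0, nat_lit 0, nat_lit 0, ⟨nat_lit 1000, nat_lit 0, nat_lit 0, nat_lit 0, nat_lit 0, nat_lit 0, nat_lit 0, nat_lit 0, nat_lit 0, nat_lit 0, nat_lit 0, nat_lit 0, nat_lit 0, nat_lit 0, nat_lit 0, nat_lit 0, false, false⟩,
 nat_lit 0, nat_lit 7922, nat_lit 0, nat_lit 0, nat_lit 6011, nat_lit 5375, nat_lit 1589, nat_lit 0, nat_lit 0, nat_lit 620, nat_lit 0, nat_lit 0, nat_lit 0, nat_lit 0, nat_lit 0, nat_lit 0, nat_lit 0, nat_lit 0, [],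
 ⟨p024_k14, nat_lit 0, nat_lit 0, nat_lit 669, nat_lit 0, nat_lit 1387769, [nat_lit 2032000001, nat_lit 4688000000, nat_lit 6250000000], [], [nat_lit 35266327813, nat_lit 35317667473, nat_lit 38397291324, nat_lit 38434119561], nat_lit 1271250, nat_lit 1271250, nat_lit 1271250, nat_lit 1271250, nat_lit 0, nat_lit 0, [nat_lit 490000, nat_lit 1100000, nat_lit 1442500], [nat_lit 6, nat_lit 40, nat_lit 80, nat_lit 80, nat_lit 3, nat_lit 258, nat_lit 0, nat_lit 9]⟩, ⟨p024_k13, nat_lit 0, nat_lit 0, nat_lit 173, nat_lit 0, nat_lit 0, [nat_lit 2032000000, nat_lit 4688000000, nat_lit 6250000000], [], [nat_lit 26168589500, nat_lit 26525880250, nat_lit 36311866500, nat_lit 36632540625], nat_lit 0, nat_lit 0, nat_lit 0, nat_lit 0, nat_lit 0, nat_lit 0, [], [nat_lit 6, nat_lit 40, nat_lit 80, nat_lit 80, nat_lit 3, nat_lit 203, nat_lit 0, nat_lit 7]⟩,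
 zbF0, []⟩
noncomputable def b_N_800_800_0_13 : St := ⟨false, nat_lit 1, nat_lit 0, nat_lit 2, nat_lit 40, nat_lit 320, nat_lit 325, nat_lit 320, nat_lit 325, nat_lit 240, nat_lit 400, nat_lit 0, nat_lit 0, nat_lit 0, nat_lit 0, nat_lit 0, nat_lit 0, nat_lit 0, nat_lit 40, nat_lit 0, nat_lit 0, nat_lit 0, nat_lit 0⟩
theorem d_N_800_800_0_13 (h : EB TB.env) : Dead b_N_800_800_0_13 := chkB_sound0 h (T :=
(.spl (nat_lit 6) (nat_lit 20)
(.spl (nat_lit 0) (nat_lit 323)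
(.ord (.spl (nat_lit 6) (nat_lit 8)
(.spl (nat_lit 6) (nat_lit 4)
(.leaf p024_l0)
(.spl (nat_lit 2) (nat_lit 320)
(.spl (nat_lit 0) (nat_lit 322)
(.ord (.leaf p024_l1))
(.leaf p024_l2))
(.spl (nat_lit 0) (nat_lit 322)
(.ord (.spl (nat_lit 0) (nat_lit 321)
(.ord (.spl (nat_lit 7) (nat_lit 600)
(.leaf p024_l3)
(.spl (nat_lit 7) (nat_lit 900)
(.leaf p024_l4)
(.spl (nat_lit 7) (nat_lit 1060)
(.leaf p024_l5)
(.spl (nat_lit 7) (nat_lit 1220)
(.leaf p024_l6)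
(.spl (nat_lit 8) (nat_lit 800)
(.spl (nat_lit 8) (nat_lit 400)
(.leaf p024_l7)
(.leaf p024_l8))
(.leaf p024_l9)))))))
(.leaf p024_l10)))
(.leaf p024_l11))))
(.spl (nat_lit 6) (nat_lit 16)
(.spl (nat_lit 2) (nat_lit 320)
(.leaf p024_l12)
(.spl (nat_lit 0) (nat_lit 322)
(.ord (.spl (nat_lit 0) (nat_lit 321)
(.ord (.leaf p024_l13))
(.spl (nat_lit 6) (nat_lit 12)
(.leaf p024_l14)
(.leaf p024_l15))))
(.leaf p024_l16)))
(.spl (nat_lit 0) (nat_lit 322)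
(.ord (.leaf p024_l17))
(.leaf p024_l18)))))
(.leaf p024_l19))
(.spl (nat_lit 0) (nat_lit 323)
(.ord (.leaf p024_l20))
(.leaf p024_l21)))) (by decide +kernel)
noncomputable def p024_l22 : Lf2 := ⟨nat_lit 0, nat_lit 10, [nat_lit 0, nat_lit 5, nat_lit 5, nat_lit 20], false, nat_lit 0, nat_lit 0, nat_lit 0, nat_lit 0, ⟨nat_lit 889, nat_lit 0, nat_lit 111, nat_lit 8, nat_lit 302, nat_lit 0, nat_lit 0, nat_lit 0, nat_lit 0, nat_lit 215, nat_lit 709928, nat_lit 200, nat_lit 42697457, nat_lit 0, nat_lit 0, nat_lit 3274847, true, false⟩,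
 nat_lit 0, nat_lit 0, nat_lit 0, nat_lit 0, nat_lit 0, nat_lit 0, nat_lit 0, nat_lit 0, nat_lit 0, nat_lit 0, nat_lit 0, nat_lit 0, nat_lit 0, nat_lit 0, nat_lit 0, nat_lit 19425, nat_lit 0, nat_lit 0, [(nat_lit 18, [(nat_lit 3, nat_lit 111)]), (nat_lit 21, [(nat_lit 3, nat_lit 111)])],
 ⟨p024_k15, nat_lit 0, nat_lit 0, nat_lit 184, nat_lit 0, nat_lit 0, [nat_lit 3331144001, nat_lit 2963785201, nat_lit 5491159600], [], [nat_lit 36760365201, nat_lit 38051249201, nat_lit 43506567201, nat_lit 44516659201], nat_lit 0, nat_lit 0, nat_lit 0, nat_lit 0, nat_lit 0, nat_lit 0, [], [nat_lit 85, nat_lit 40, nat_lit 80, nat_lit 80, nat_lit 16, nat_lit 317, nat_lit 100, nat_lit 12]⟩, ⟨p024_k15, nat_lit 0, nat_lit 0, nat_lit 174, nat_lit 0, nat_lit 0, [nat_lit 1806448000, nat_lit 2917698000, nat_lit 5556250000], [], [nat_lit 32874243878, nat_lit 33448041816, nat_lit 38871617456, nat_lit 39320603350],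 nat_lit 0, nat_lit 0, nat_lit 0, nat_lit 0, nat_lit 0, nat_lit 0, [], [nat_lit 85, nat_lit 40, nat_lit 80, nat_lit 80, nat_lit 16, nat_lit 317, nat_lit 100, nat_lit 12]⟩,
 ⟨nat_lit 3162, nat_lit 4473, ⟨.ofNat (nat_lit 526772), .ofNat (nat_lit 969090), .ofNat (nat_lit 548248), .ofNat (nat_lit 990589), .ofNat (nat_lit 540839), .ofNat (nat_lit 937496), .ofNat (nat_lit 562904), .ofNat (nat_lit 959584)⟩, ⟨.ofNat (nat_lit 0), .ofNat (nat_lit 0), .ofNat (nat_lit 0), .ofNat (nat_lit 0), .ofNat (nat_lit 0), .ofNat (nat_lit 0), .ofNat (nat_lit 0), .ofNat (nat_lit 0)⟩⟩, []⟩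
noncomputable def p024_l23 : Lf2 := ⟨nat_lit 0, nat_lit 10, [nat_lit 0, nat_lit 5, nat_lit 5, nat_lit 20], true, nat_lit 0, nat_lit 0, nat_lit 0, nat_lit 0, ⟨nat_lit 0, nat_lit 1000, nat_lit 0, nat_lit 8, nat_lit 250, nat_lit 0, nat_lit 0, nat_lit 0, nat_lit 0, nat_lit 0, nat_lit 0, nat_lit 0, nat_lit 48163763, nat_lit 18836237, nat_lit 0, nat_lit 2970123, false, false⟩,
 nat_lit 0, nat_lit 0, nat_lit 0, nat_lit 0, nat_lit 3617, nat_lit 0, nat_lit 0, nat_lit 0, nat_lit 0, nat_lit 0, nat_lit 0, nat_lit 0, nat_lit 0, nat_lit 604083415868, nat_lit 0, nat_lit 250000, nat_lit 0, nat_lit 0, [(nat_lit 18, [(nat_lit 0, nat_lit 1000)]), (nat_lit 21, [(nat_lit 0, nat_lit 1000)])],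
 ⟨p024_k16, nat_lit 0, nat_lit 0, nat_lit 128, nat_lit 0, nat_lit 0, [nat_lit 1558400000, nat_lit 2562000000], [], [nat_lit 20047032163, nat_lit 23200061969, nat_lit 22901400920, nat_lit 25630790296], nat_lit 0, nat_lit 0, nat_lit 0, nat_lit 0, nat_lit 0, nat_lit 0, [], [nat_lit 69, nat_lit 40, nat_lit 80, nat_lit 80, nat_lit 64, nat_lit 272, nat_lit 60, nat_lit 10]⟩, C1.Rw.none,
 ⟨nat_lit 3162, nat_lit 4473, ⟨.ofNat (nat_lit 526772), .ofNat (nat_lit 696911), .ofNat (nat_lit 548248), .ofNat (nat_lit 718387), .ofNat (nat_lit 540839), .ofNat (nat_lit 693416), .ofNat (nat_lit 562904), .ofNat (nat_lit 715481)⟩, ⟨.ofNat (nat_lit 0), .ofNat (nat_lit 0), .ofNat (nat_lit 0), .ofNat (nat_lit 0), .ofNat (nat_lit 0), .ofNat (nat_lit 0), .ofNat (nat_lit 0), .ofNat (nat_lit 0)⟩⟩, []⟩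
noncomputable def p024_l24 : Lf2 := ⟨nat_lit 0, nat_lit 10, [nat_lit 0, nat_lit 5, nat_lit 5, nat_lit 20], false, nat_lit 0, nat_lit 0, nat_lit 0, nat_lit 0, ⟨nat_lit 1000, nat_lit 0, nat_lit 0, nat_lit 0, nat_lit 0, nat_lit 0, nat_lit 0, nat_lit 0, nat_lit 0, nat_lit 0, nat_lit 0, nat_lit 0, nat_lit 0, nat_lit 0, nat_lit 0, nat_lit 0, false, false⟩,
 nat_lit 0, nat_lit 0, nat_lit 8479, nat_lit 0, nat_lit 5730, nat_lit 6359, nat_lit 0, nat_lit 0, nat_lit 0, nat_lit 434, nat_lit 0, nat_lit 0, nat_lit 0, nat_lit 0, nat_lit 0, nat_lit 0, nat_lit 0, nat_lit 0, [],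
 ⟨p024_k13, nat_lit 0, nat_lit 0, nat_lit 174, nat_lit 0, nat_lit 0, [nat_lit 2032000001, nat_lit 4688000000, nat_lit 6250000000], [], [nat_lit 28320127880, nat_lit 29058428720, nat_lit 37615506520, nat_lit 38159438230], nat_lit 0, nat_lit 0, nat_lit 0, nat_lit 0, nat_lit 0, nat_lit 0, [], [nat_lit 6, nat_lit 40, nat_lit 80, nat_lit 80, nat_lit 3, nat_lit 203, nat_lit 0, nat_lit 7]⟩, ⟨p024_k13, nat_lit 0, nat_lit 0, nat_lit 617, nat_lit 0, nat_lit 1251036, [nat_lit 2032000000, nat_lit 4688000000, nat_lit 6250000000], [], [nat_lit 35208209460, nat_lit 35357723919, nat_lit 39303449564, nat_lit 39415405131], nat_lit 1271250, nat_lit 1271250, nat_lit 1271250, nat_lit 1271250, nat_lit 0, nat_lit 0, [nat_lit 490000, nat_lit 1100000, nat_lit 1442500], [nat_lit 6, nat_lit 40, nat_lit 80, nat_lit 80, nat_lit 3, nat_lit 245, nat_lit 0, nat_lit 8]⟩,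
 zbF0, []⟩
noncomputable def p024_l25 : Lf2 := ⟨nat_lit 0, nat_lit 10, [nat_lit 0, nat_lit 5, nat_lit 5, nat_lit 20], false, nat_lit 0, nat_lit 0, nat_lit 0, nat_lit 0, ⟨nat_lit 933, nat_lit 67, nat_lit 0, nat_lit 8, nat_lit 332, nat_lit 0, nat_lit 0, nat_lit 0, nat_lit 0, nat_lit 0, nat_lit 0, nat_lit 0, nat_lit 39656951, nat_lit 27343049, nat_lit 0, nat_lit 3380806, true, true⟩,
 nat_lit 0, nat_lit 0, nat_lit 7799, nat_lit 0, nat_lit 4496, nat_lit 5848, nat_lit 664, nat_lit 0, nat_lit 0, nat_lit 406, nat_lit 0, nat_lit 0, nat_lit 0, nat_lit 0, nat_lit 0, nat_lit 16750, nat_lit 0, nat_lit 0, [(nat_lit 18, [(nat_lit 0, nat_lit 67)])],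
 ⟨p024_k17, nat_lit 0, nat_lit 0, nat_lit 175, nat_lit 0, nat_lit 0, [nat_lit 1998553600, nat_lit 4519160000, nat_lit 6002904000], [], [nat_lit 25687080144, nat_lit 26012735812, nat_lit 34442008440, nat_lit 34736693172], nat_lit 0, nat_lit 0, nat_lit 0, nat_lit 0, nat_lit 0, nat_lit 0, [], [nat_lit 6, nat_lit 40, nat_lit 80, nat_lit 80, nat_lit 3, nat_lit 203, nat_lit 0, nat_lit 7]⟩, ⟨p024_k13, nat_lit 0, nat_lit 0, nat_lit 633, nat_lit 0, nat_lit 1296839, [nat_lit 1895856000, nat_lit 4373904000, nat_lit 5831250000], [], [nat_lit 33291454252, nat_lit 33428705842, nat_lit 37095108624, nat_lit 37199342858], nat_lit 1271250, nat_lit 1271250, nat_lit 1271250, nat_lit 1271250, nat_lit 0, nat_lit 0, [nat_lit 490000, nat_lit 1100000, nat_lit 1442500], [nat_lit 6, nat_lit 40, nat_lit 80, nat_lit 80, nat_lit 3, nat_lit 249, nat_lit 0, nat_lit 9]⟩,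
 ⟨nat_lit 4031, nat_lit 4184, ⟨.ofNat (nat_lit 696249), .ofNat (nat_lit 961274), .ofNat (nat_lit 701665), .ofNat (nat_lit 966690), .ofNat (nat_lit 695742), .ofNat (nat_lit 957308), .ofNat (nat_lit 701173), .ofNat (nat_lit 962739)⟩, ⟨.ofNat (nat_lit 0), .ofNat (nat_lit 0), .ofNat (nat_lit 0), .ofNat (nat_lit 0), .ofNat (nat_lit 0), .ofNat (nat_lit 0), .ofNat (nat_lit 0), .ofNat (nat_lit 0)⟩⟩, []⟩
noncomputable def p024_l26 : Lf2 := ⟨nat_lit 0, nat_lit 10, [nat_lit 0, nat_lit 5, nat_lit 5, nat_lit 20], false, nat_lit 0, nat_lit 0, nat_lit 0, nat_lit 0, ⟨nat_lit 621, nat_lit 379, nat_lit 0, nat_lit 8, nat_lit 331, nat_lit 0, nat_lit 0, nat_lit 0, nat_lit 0, nat_lit 0, nat_lit 0, nat_lit 0, nat_lit 39743300, nat_lit 27256700, nat_lit 0, nat_lit 3378393, true, true⟩,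
 nat_lit 0, nat_lit 0, nat_lit 5217, nat_lit 0, nat_lit 3631, nat_lit 3912, nat_lit 584, nat_lit 0, nat_lit 0, nat_lit 261, nat_lit 0, nat_lit 0, nat_lit 0, nat_lit 0, nat_lit 0, nat_lit 94750, nat_lit 0, nat_lit 0, [(nat_lit 18, [(nat_lit 0, nat_lit 379)])],
 ⟨p024_k18, nat_lit 0, nat_lit 0, nat_lit 176, nat_lit 0, nat_lit 0, [nat_lit 1842803200, nat_lit 3732920000, nat_lit 4852248000], [], [nat_lit 25091074070, nat_lit 25366762218, nat_lit 32315103900, nat_lit 32515477346], nat_lit 0, nat_lit 0, nat_lit 0, nat_lit 0, nat_lit 0, nat_lit 0, [], [nat_lit 6, nat_lit 40, nat_lit 80, nat_lit 80, nat_lit 3, nat_lit 203, nat_lit 0, nat_lit 7]⟩, ⟨p024_k13, nat_lit 0, nat_lit 0, nat_lit 652, nat_lit 0, nat_lit 1343754, [nat_lit 1261872000, nat_lit 2911248000, nat_lit 3881250000], [], [nat_lit 22144765560, nat_lit 22223526386, nat_lit 24592248144, nat_lit 24661676750], nat_lit 1271250, nat_lit 1271250,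 nat_lit 1271250, nat_lit 1271250, nat_lit 0, nat_lit 0, [nat_lit 490000, nat_lit 1100000, nat_lit 1442500], [nat_lit 6, nat_lit 40, nat_lit 80, nat_lit 80, nat_lit 3, nat_lit 254, nat_lit 0, nat_lit 9]⟩,
 ⟨nat_lit 3872, nat_lit 4032, ⟨.ofNat (nat_lit 695741), .ofNat (nat_lit 957308), .ofNat (nat_lit 701173), .ofNat (nat_lit 962740), .ofNat (nat_lit 695274), .ofNat (nat_lit 953364), .ofNat (nat_lit 700722), .ofNat (nat_lit 958812)⟩, ⟨.ofNat (nat_lit 0), .ofNat (nat_lit 0), .ofNat (nat_lit 0), .ofNat (nat_lit 0), .ofNat (nat_lit 0), .ofNat (nat_lit 0), .ofNat (nat_lit 0), .ofNat (nat_lit 0)⟩⟩, []⟩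
noncomputable def p024_l27 : Lf2 := ⟨nat_lit 0, nat_lit 10, [nat_lit 0, nat_lit 5, nat_lit 5, nat_lit 20], false, nat_lit 0, nat_lit 0, nat_lit 0, nat_lit 0, ⟨nat_lit 1000, nat_lit 0, nat_lit 0, nat_lit 0, nat_lit 0, nat_lit 0, nat_lit 0, nat_lit 0, nat_lit 0, nat_lit 0, nat_lit 0, nat_lit 0, nat_lit 0, nat_lit 0, nat_lit 0, nat_lit 0, false, false⟩,
 nat_lit 0, nat_lit 0, nat_lit 8479, nat_lit 0, nat_lit 5760, nat_lit 6359, nat_lit 0, nat_lit 0, nat_lit 0, nat_lit 434, nat_lit 0, nat_lit 0, nat_lit 0, nat_lit 0, nat_lit 0, nat_lit 0, nat_lit 0, nat_lit 0, [],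
 ⟨p024_k13, nat_lit 0, nat_lit 0, nat_lit 176, nat_lit 0, nat_lit 0, [nat_lit 2032000001, nat_lit 4688000000, nat_lit 6250000000], [], [nat_lit 28292370560, nat_lit 29773364720, nat_lit 37650082240, nat_lit 38740605280], nat_lit 0, nat_lit 0, nat_lit 0, nat_lit 0, nat_lit 0, nat_lit 0, [], [nat_lit 6, nat_lit 40, nat_lit 80, nat_lit 80, nat_lit 3, nat_lit 203, nat_lit 0, nat_lit 7]⟩, ⟨p024_k13, nat_lit 0, nat_lit 0, nat_lit 618, nat_lit 0, nat_lit 1253506, [nat_lit 2032000000, nat_lit 4688000000, nat_lit 6250000000], [], [nat_lit 35208209460, nat_lit 35357723919, nat_lit 39303449564, nat_lit 39415405131], nat_lit 1271250, nat_lit 1271250, nat_lit 1271250, nat_lit 1271250, nat_lit 0, nat_lit 0, [nat_lit 490000, nat_lit 1100000, nat_lit 1442500], [nat_lit 6, nat_lit 40, nat_lit 80, nat_lit 80, nat_lit 3, nat_lit 246, nat_lit 0, nat_lit 9]⟩,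
 zbF0, []⟩
noncomputable def p024_l28 : Lf2 := ⟨nat_lit 0, nat_lit 10, [nat_lit 0, nat_lit 5, nat_lit 5, nat_lit 20], false, nat_lit 0, nat_lit 0, nat_lit 0, nat_lit 0, ⟨nat_lit 770, nat_lit 230, nat_lit 0, nat_lit 8, nat_lit 334, nat_lit 0, nat_lit 0, nat_lit 0, nat_lit 0, nat_lit 0, nat_lit 0, nat_lit 0, nat_lit 39446381, nat_lit 27553619, nat_lit 0, nat_lit 3386547, true, false⟩,
 nat_lit 0, nat_lit 0, nat_lit 5875, nat_lit 0, nat_lit 4383, nat_lit 4492, nat_lit 274, nat_lit 0, nat_lit 0, nat_lit 708, nat_lit 0, nat_lit 0, nat_lit 0, nat_lit 0, nat_lit 0, nat_lit 230000, nat_lit 0, nat_lit 0, [(nat_lit 18, [(nat_lit 2, nat_lit 230)])],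
 ⟨p024_k19, nat_lit 0, nat_lit 0, nat_lit 176, nat_lit 0, nat_lit 0, [nat_lit 1956069334, nat_lit 3850186667, nat_lit 4710564000], [], [nat_lit 26199000494, nat_lit 27102190275, nat_lit 34073544985, nat_lit 34708292945], nat_lit 0, nat_lit 0, nat_lit 0, nat_lit 0, nat_lit 0, nat_lit 0, [], [nat_lit 6, nat_lit 40, nat_lit 80, nat_lit 80, nat_lit 3, nat_lit 203, nat_lit 0, nat_lit 7]⟩, ⟨p024_k19, nat_lit 0, nat_lit 0, nat_lit 661, nat_lit 0, nat_lit 1365837, [nat_lit 1564640000, nat_lit 3609760000, nat_lit 4812500000], [], [nat_lit 26733417237, nat_lit 26842916146, nat_lit 29412516816, nat_lit 29486437728], nat_lit 1271250, nat_lit 1271250, nat_lit 1271250, nat_lit 1271250, nat_lit 0, nat_lit 0, [nat_lit 490000, nat_lit 1100000, nat_lit 1442500], [nat_lit 6, nat_lit 40, nat_lit 80, nat_lit 80, nat_lit 3, nat_lit 257, nat_lit 0, nat_lit 9]⟩,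
 ⟨nat_lit 3872, nat_lit 4331, ⟨.ofNat (nat_lit 702143), .ofNat (nat_lit 970635), .ofNat (nat_lit 707543), .ofNat (nat_lit 976036), .ofNat (nat_lit 700670), .ofNat (nat_lit 958778), .ofNat (nat_lit 706115), .ofNat (nat_lit 964224)⟩, ⟨.ofNat (nat_lit 0), .ofNat (nat_lit 0), .ofNat (nat_lit 0), .ofNat (nat_lit 0), .ofNat (nat_lit 0), .ofNat (nat_lit 0), .ofNat (nat_lit 0), .ofNat (nat_lit 0)⟩⟩, []⟩
noncomputable def p024_l29 : Lf2 := ⟨nat_lit 0, nat_lit 10, [nat_lit 0, nat_lit 5, nat_lit 5, nat_lit 20], false, nat_lit 0, nat_lit 0, nat_lit 0, nat_lit 0, ⟨nat_lit 1000, nat_lit 0, nat_lit 0, nat_lit 0, nat_lit 0, nat_lit 0, nat_lit 0, nat_lit 0, nat_lit 0, nat_lit 0, nat_lit 0, nat_lit 0, nat_lit 0, nat_lit 0, nat_lit 0, nat_lit 0, false, false⟩,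
 nat_lit 0, nat_lit 0, nat_lit 8075, nat_lit 0, nat_lit 5461, nat_lit 6056, nat_lit 0, nat_lit 0, nat_lit 0, nat_lit 442, nat_lit 0, nat_lit 0, nat_lit 0, nat_lit 0, nat_lit 0, nat_lit 0, nat_lit 0, nat_lit 0, [],
 ⟨p024_k13, nat_lit 0, nat_lit 0, nat_lit 176, nat_lit 0, nat_lit 0, [nat_lit 2032000001, nat_lit 4688000000, nat_lit 6250000000], [], [nat_lit 28569018516, nat_lit 30006234292, nat_lit 37447544888, nat_lit 38370260426], nat_lit 0, nat_lit 0, nat_lit 0, nat_lit 0, nat_lit 0, nat_lit 0, [], [nat_lit 6, nat_lit 40, nat_lit 80, nat_lit 80, nat_lit 3, nat_lit 203, nat_lit 0, nat_lit 7]⟩, ⟨p024_k13, nat_lit 0, nat_lit 0, nat_lit 572, nat_lit 0, nat_lit 1149296, [nat_lit 2032000000, nat_lit 4688000000, nat_lit 6250000000], [], [nat_lit 34599128768, nat_lit 34902551992, nat_lit 39225634048, nat_lit 39492011448], nat_lit 1271250, nat_lit 1271250, nat_lit 1271250, nat_lit 1271250, nat_lit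 0, nat_lit 0, [nat_lit 490000, nat_lit 1100000, nat_lit 1442500], [nat_lit 6, nat_lit 40, nat_lit 80, nat_lit 80, nat_lit 3, nat_lit 235, nat_lit 0, nat_lit 8]⟩,
 zbF0, []⟩
noncomputable def p024_l30 : Lf2 := ⟨nat_lit 0, nat_lit 10, [nat_lit 0, nat_lit 5, nat_lit 5, nat_lit 20], true, nat_lit 0, nat_lit 0, nat_lit 0, nat_lit 0, ⟨nat_lit 0, nat_lit 1000, nat_lit 0, nat_lit 8, nat_lit 306, nat_lit 0, nat_lit 0, nat_lit 0, nat_lit 0, nat_lit 0, nat_lit 0, nat_lit 0, nat_lit 42307671, nat_lit 24692329, nat_lit 0, nat_lit 3290875, true, false⟩,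
 nat_lit 0, nat_lit 0, nat_lit 0, nat_lit 0, nat_lit 3154, nat_lit 0, nat_lit 0, nat_lit 0, nat_lit 0, nat_lit 0, nat_lit 0, nat_lit 0, nat_lit 0, nat_lit 0, nat_lit 0, nat_lit 250000, nat_lit 0, nat_lit 0, [(nat_lit 21, [(nat_lit 0, nat_lit 1000)])],
 ⟨p024_k20, nat_lit 0, nat_lit 0, nat_lit 151, nat_lit 0, nat_lit 0, [nat_lit 1558400000, nat_lit 2146000001, nat_lit 2146000000], [], [nat_lit 23828745960, nat_lit 24435124748, nat_lit 27197767524, nat_lit 27732144264], nat_lit 0, nat_lit 0, nat_lit 0, nat_lit 0, nat_lit 0, nat_lit 0, [], [nat_lit 6, nat_lit 40, nat_lit 80, nat_lit 80, nat_lit 3, nat_lit 203, nat_lit 0, nat_lit 7]⟩, C1.Rw.none,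
 ⟨nat_lit 3535, nat_lit 3873, ⟨.ofNat (nat_lit 695250), .ofNat (nat_lit 824304), .ofNat (nat_lit 706143), .ofNat (nat_lit 835198), .ofNat (nat_lit 694446), .ofNat (nat_lit 819980), .ofNat (nat_lit 705418), .ofNat (nat_lit 830953)⟩, ⟨.ofNat (nat_lit 0), .ofNat (nat_lit 0), .ofNat (nat_lit 0), .ofNat (nat_lit 0), .ofNat (nat_lit 0), .ofNat (nat_lit 0), .ofNat (nat_lit 0), .ofNat (nat_lit 0)⟩⟩, []⟩
noncomputable def p024_l31 : Lf2 := ⟨nat_lit 0, nat_lit 10, [nat_lit 0, nat_lit 5, nat_lit 5, nat_lit 20], false, nat_lit 0, nat_lit 0, nat_lit 0, nat_lit 0, ⟨nat_lit 203, nat_lit 797, nat_lit 0, nat_lit 8, nat_lit 344, nat_lit 0, nat_lit 0, nat_lit 0, nat_lit 0, nat_lit 0, nat_lit 0, nat_lit 0, nat_lit 38536207, nat_lit 28463793, nat_lit 0, nat_lit 3409019, true, true⟩,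
 nat_lit 0, nat_lit 0, nat_lit 1849, nat_lit 0, nat_lit 3030, nat_lit 1386, nat_lit 276, nat_lit 0, nat_lit 0, nat_lit 71, nat_lit 0, nat_lit 0, nat_lit 0, nat_lit 0, nat_lit 0, nat_lit 318800, nat_lit 0, nat_lit 0, [(nat_lit 21, [(nat_lit 1, nat_lit 797)])],
 ⟨p024_k20, nat_lit 0, nat_lit 0, nat_lit 165, nat_lit 0, nat_lit 0, [nat_lit 1492590400, nat_lit 2141425601, nat_lit 2457874000], [], [nat_lit 26712681741, nat_lit 27147837711, nat_lit 28432089331, nat_lit 28829302677], nat_lit 0, nat_lit 0, nat_lit 0, nat_lit 0, nat_lit 0, nat_lit 0, [], [nat_lit 6, nat_lit 40, nat_lit 80, nat_lit 80, nat_lit 3, nat_lit 203, nat_lit 0, nat_lit 6]⟩, ⟨p024_k13, nat_lit 0, nat_lit 0, nat_lit 716, nat_lit 0, nat_lit 1500086, [nat_lit 412496000, nat_lit 951664000, nat_lit 1268750000], [], [nat_lit 7350654184, nat_lit 7391985271, nat_lit 7529609394, nat_lit 7566195822], nat_lit 1271250, nat_lit 1271250,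 nat_lit 1271250, nat_lit 1271250, nat_lit 0, nat_lit 0, [nat_lit 490000, nat_lit 1100000, nat_lit 1442500], [nat_lit 6, nat_lit 40, nat_lit 80, nat_lit 80, nat_lit 3, nat_lit 266, nat_lit 0, nat_lit 9]⟩,
 ⟨nat_lit 3535, nat_lit 3873, ⟨.ofNat (nat_lit 824304), .ofNat (nat_lit 888832), .ofNat (nat_lit 835198), .ofNat (nat_lit 899726), .ofNat (nat_lit 819980), .ofNat (nat_lit 882748), .ofNat (nat_lit 830953), .ofNat (nat_lit 893721)⟩, ⟨.ofNat (nat_lit 0), .ofNat (nat_lit 0), .ofNat (nat_lit 0), .ofNat (nat_lit 0), .ofNat (nat_lit 0), .ofNat (nat_lit 0), .ofNat (nat_lit 0), .ofNat (nat_lit 0)⟩⟩, []⟩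
noncomputable def p024_l32 : Lf2 := ⟨nat_lit 0, nat_lit 10, [nat_lit 0, nat_lit 5, nat_lit 5, nat_lit 20], false, nat_lit 0, nat_lit 0, nat_lit 0, nat_lit 0, ⟨nat_lit 201, nat_lit 799, nat_lit 0, nat_lit 9, nat_lit 368, nat_lit 0, nat_lit 0, nat_lit 0, nat_lit 0, nat_lit 0, nat_lit 0, nat_lit 0, nat_lit 36274292, nat_lit 30725708, nat_lit 0, nat_lit 3448569, true, true⟩,
 nat_lit 0, nat_lit 0, nat_lit 1749, nat_lit 0, nat_lit 2920, nat_lit 1311, nat_lit 233, nat_lit 0, nat_lit 0, nat_lit 70, nat_lit 0, nat_lit 0, nat_lit 0, nat_lit 0, nat_lit 0, nat_lit 319600, nat_lit 0, nat_lit 0, [(nat_lit 21, [(nat_lit 1, nat_lit 799)])],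
 ⟨p024_k20, nat_lit 0, nat_lit 0, nat_lit 178, nat_lit 0, nat_lit 0, [nat_lit 1491236801, nat_lit 2135035201, nat_lit 2448358000], [], [nat_lit 28883082122, nat_lit 29275524782, nat_lit 30580604882, nat_lit 30935867122], nat_lit 0, nat_lit 0, nat_lit 0, nat_lit 0, nat_lit 0, nat_lit 0, [], [nat_lit 6, nat_lit 40, nat_lit 80, nat_lit 80, nat_lit 3, nat_lit 203, nat_lit 0, nat_lit 6]⟩, ⟨p024_k13, nat_lit 0, nat_lit 0, nat_lit 704, nat_lit 0, nat_lit 1467692, [nat_lit 408432000, nat_lit 942288000, nat_lit 1256250000], [], [nat_lit 7831488820, nat_lit 7849587343, nat_lit 8007333424, nat_lit 8024143072], nat_lit 1271250, nat_lit 1271250, nat_lit 1271250, nat_lit 1271250, nat_lit 0, nat_lit 0, [nat_lit 490000, nat_lit 1100000, nat_lit 1442500], [nat_lit 6, nat_lit 40, nat_lit 80, nat_lit 80, nat_lit 3, nat_lit 267, nat_lit 0, nat_lit 9]⟩,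
 ⟨nat_lit 3535, nat_lit 3873, ⟨.ofNat (nat_lit 888832), .ofNat (nat_lit 953359), .ofNat (nat_lit 894278), .ofNat (nat_lit 958806), .ofNat (nat_lit 882748), .ofNat (nat_lit 945515), .ofNat (nat_lit 888234), .ofNat (nat_lit 951002)⟩, ⟨.ofNat (nat_lit 0), .ofNat (nat_lit 0), .ofNat (nat_lit 0), .ofNat (nat_lit 0), .ofNat (nat_lit 0), .ofNat (nat_lit 0), .ofNat (nat_lit 0), .ofNat (nat_lit 0)⟩⟩, [⟨nat_lit 13, nat_lit 83, nat_lit 25, nat_lit 100, nat_lit 142139717⟩]⟩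
noncomputable def p024_l33 : Lf2 := ⟨nat_lit 0, nat_lit 10, [nat_lit 0, nat_lit 5, nat_lit 5, nat_lit 20], false, nat_lit 0, nat_lit 0, nat_lit 0, nat_lit 0, ⟨nat_lit 871, nat_lit 129, nat_lit 0, nat_lit 9, nat_lit 370, nat_lit 0, nat_lit 0, nat_lit 0, nat_lit 0, nat_lit 0, nat_lit 0, nat_lit 0, nat_lit 36077160, nat_lit 30922840, nat_lit 0, nat_lit 3450925, true, true⟩,
 nat_lit 0, nat_lit 0, nat_lit 6186, nat_lit 0, nat_lit 3659, nat_lit 4730, nat_lit 543, nat_lit 0, nat_lit 0, nat_lit 1722, nat_lit 0, nat_lit 0, nat_lit 0, nat_lit 0, nat_lit 0, nat_lit 129000, nat_lit 0, nat_lit 0, [(nat_lit 21, [(nat_lit 2, nat_lit 129)])],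
 ⟨p024_k20, nat_lit 0, nat_lit 0, nat_lit 178, nat_lit 0, nat_lit 0, [nat_lit 1950626801, nat_lit 4064620401, nat_lit 5297618800], [], [nat_lit 30802341651, nat_lit 31225846551, nat_lit 32732108347, nat_lit 33133891324], nat_lit 0, nat_lit 0, nat_lit 0, nat_lit 0, nat_lit 0, nat_lit 0, [], [nat_lit 6, nat_lit 40, nat_lit 80, nat_lit 80, nat_lit 3, nat_lit 203, nat_lit 0, nat_lit 6]⟩, ⟨p024_k19, nat_lit 0, nat_lit 0, nat_lit 701, nat_lit 0, nat_lit 1460801, [nat_lit 1769872000, nat_lit 4083248000, nat_lit 5443750000], [], [nat_lit 31496417649, nat_lit 31579784506, nat_lit 32272234911, nat_lit 32346795642], nat_lit 1271250, nat_lit 1271250, nat_lit 1271250, nat_lit 1271250, nat_lit 0, nat_lit 0, [nat_lit 490000, nat_lit 1100000, nat_lit 1442500], [nat_lit 6, nat_lit 40, nat_lit 80, nat_lit 80, nat_lit 3, nat_lit 267, nat_lit 0, nat_lit 9]⟩,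
 ⟨nat_lit 3535, nat_lit 3873, ⟨.ofNat (nat_lit 894278), .ofNat (nat_lit 958806), .ofNat (nat_lit 899726), .ofNat (nat_lit 964253), .ofNat (nat_lit 888234), .ofNat (nat_lit 951002), .ofNat (nat_lit 893721), .ofNat (nat_lit 956488)⟩, ⟨.ofNat (nat_lit 0), .ofNat (nat_lit 0), .ofNat (nat_lit 0), .ofNat (nat_lit 0), .ofNat (nat_lit 0), .ofNat (nat_lit 0), .ofNat (nat_lit 0), .ofNat (nat_lit 0)⟩⟩, []⟩
noncomputable def p024_l34 : Lf2 := ⟨nat_lit 0, nat_lit 10, [nat_lit 0, nat_lit 5, nat_lit 5, nat_lit 20], true, nat_lit 0, nat_lit 0, nat_lit 0, nat_lit 0, ⟨nat_lit 0, nat_lit 1000, nat_lit 0, nat_lit 8, nat_lit 305, nat_lit 0, nat_lit 0, nat_lit 0, nat_lit 0, nat_lit 0, nat_lit 0, nat_lit 0, nat_lit 42407447, nat_lit 24592553, nat_lit 0, nat_lit 3286842, true, false⟩,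
 nat_lit 0, nat_lit 0, nat_lit 0, nat_lit 0, nat_lit 3520, nat_lit 0, nat_lit 0, nat_lit 0, nat_lit 0, nat_lit 0, nat_lit 0, nat_lit 0, nat_lit 0, nat_lit 0, nat_lit 0, nat_lit 250000, nat_lit 0, nat_lit 0, [(nat_lit 21, [(nat_lit 0, nat_lit 1000)])],
 ⟨p024_k21, nat_lit 0, nat_lit 0, nat_lit 126, nat_lit 0, nat_lit 0, [nat_lit 1558400000, nat_lit 1963600000], [], [nat_lit 24450148880, nat_lit 25029208000, nat_lit 27579283720, nat_lit 28209164000], nat_lit 0, nat_lit 0, nat_lit 0, nat_lit 0, nat_lit 0, nat_lit 0, [], [nat_lit 24, nat_lit 40, nat_lit 80, nat_lit 80, nat_lit 33, nat_lit 203, nat_lit 0, nat_lit 8]⟩, C1.Rw.none,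
 ⟨nat_lit 3162, nat_lit 3536, ⟨.ofNat (nat_lit 694437), .ofNat (nat_lit 819981), .ofNat (nat_lit 705409), .ofNat (nat_lit 830953), .ofNat (nat_lit 693843), .ofNat (nat_lit 815770), .ofNat (nat_lit 704916), .ofNat (nat_lit 826843)⟩, ⟨.ofNat (nat_lit 0), .ofNat (nat_lit 0), .ofNat (nat_lit 0), .ofNat (nat_lit 0), .ofNat (nat_lit 0), .ofNat (nat_lit 0), .ofNat (nat_lit 0), .ofNat (nat_lit 0)⟩⟩, []⟩
noncomputable def p024_l35 : Lf2 := ⟨nat_lit 0, nat_lit 10, [nat_lit 0, nat_lit 5, nat_lit 5, nat_lit 20], true, nat_lit 0, nat_lit 0, nat_lit 0, nat_lit 0, ⟨nat_lit 0, nat_lit 1000, nat_lit 0, nat_lit 8, nat_lit 342, nat_lit 0, nat_lit 0, nat_lit 0, nat_lit 0, nat_lit 0, nat_lit 0, nat_lit 0, nat_lit 38731365, nat_lit 28268635, nat_lit 0, nat_lit 3404520, true, true⟩,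
 nat_lit 0, nat_lit 0, nat_lit 0, nat_lit 0, nat_lit 3297, nat_lit 0, nat_lit 0, nat_lit 0, nat_lit 0, nat_lit 0, nat_lit 0, nat_lit 0, nat_lit 0, nat_lit 0, nat_lit 0, nat_lit 250000, nat_lit 0, nat_lit 0, [(nat_lit 21, [(nat_lit 0, nat_lit 1000)])],
 ⟨p024_k21, nat_lit 0, nat_lit 0, nat_lit 150, nat_lit 0, nat_lit 0, [nat_lit 1558400000, nat_lit 1963600000], [], [nat_lit 27832313792, nat_lit 28307912836, nat_lit 29664115393, nat_lit 30123997012], nat_lit 0, nat_lit 0, nat_lit 0, nat_lit 0, nat_lit 0, nat_lit 0, [], [nat_lit 24, nat_lit 40, nat_lit 80, nat_lit 80, nat_lit 33, nat_lit 203, nat_lit 0, nat_lit 7]⟩, C1.Rw.none,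
 ⟨nat_lit 3162, nat_lit 3536, ⟨.ofNat (nat_lit 819981), .ofNat (nat_lit 882753), .ofNat (nat_lit 830953), .ofNat (nat_lit 893725), .ofNat (nat_lit 815770), .ofNat (nat_lit 876734), .ofNat (nat_lit 826843), .ofNat (nat_lit 887808)⟩, ⟨.ofNat (nat_lit 0), .ofNat (nat_lit 0), .ofNat (nat_lit 0), .ofNat (nat_lit 0), .ofNat (nat_lit 0), .ofNat (nat_lit 0), .ofNat (nat_lit 0), .ofNat (nat_lit 0)⟩⟩, []⟩
noncomputable def p024_l36 : Lf2 := ⟨nat_lit 0, nat_lit 10, [nat_lit 0, nat_lit 5, nat_lit 5, nat_lit 20], false, nat_lit 0, nat_lit 0, nat_lit 0, nat_lit 0, ⟨nat_lit 166, nat_lit 834, nat_lit 0, nat_lit 9, nat_lit 365, nat_lit 0, nat_lit 0, nat_lit 0, nat_lit 0, nat_lit 0, nat_lit 0, nat_lit 0, nat_lit 36525045, nat_lit 30474955, nat_lit 0, nat_lit 3445322, true, true⟩,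
 nat_lit 0, nat_lit 0, nat_lit 1444, nat_lit 0, nat_lit 2883, nat_lit 1083, nat_lit 117, nat_lit 0, nat_lit 0, nat_lit 58, nat_lit 0, nat_lit 0, nat_lit 0, nat_lit 0, nat_lit 0, nat_lit 333600, nat_lit 0, nat_lit 0, [(nat_lit 21, [(nat_lit 1, nat_lit 834)])],
 ⟨p024_k21, nat_lit 0, nat_lit 0, nat_lit 166, nat_lit 0, nat_lit 0, [nat_lit 1467548800, nat_lit 2015864000], [], [nat_lit 29186504108, nat_lit 29599276590, nat_lit 30931110477, nat_lit 31315803836], nat_lit 0, nat_lit 0, nat_lit 0, nat_lit 0, nat_lit 0, nat_lit 0, [], [nat_lit 24, nat_lit 40, nat_lit 80, nat_lit 80, nat_lit 33, nat_lit 203, nat_lit 0, nat_lit 7]⟩, ⟨p024_k13, nat_lit 0, nat_lit 0, nat_lit 743, nat_lit 0, nat_lit 1571286, [nat_lit 337312000, nat_lit 778208000, nat_lit 1037500000], [], [nat_lit 6464556966, nat_lit 6479504072, nat_lit 6610291380, nat_lit 6624459719], nat_lit 1271250, nat_lit 1271250, nat_lit 1271250,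 nat_lit 1271250, nat_lit 0, nat_lit 0, [nat_lit 490000, nat_lit 1100000, nat_lit 1442500], [nat_lit 6, nat_lit 40, nat_lit 80, nat_lit 80, nat_lit 3, nat_lit 277, nat_lit 0, nat_lit 9]⟩,
 ⟨nat_lit 3162, nat_lit 3536, ⟨.ofNat (nat_lit 882753), .ofNat (nat_lit 945521), .ofNat (nat_lit 888239), .ofNat (nat_lit 951009), .ofNat (nat_lit 876734), .ofNat (nat_lit 937695), .ofNat (nat_lit 882271), .ofNat (nat_lit 943233)⟩, ⟨.ofNat (nat_lit 0), .ofNat (nat_lit 0), .ofNat (nat_lit 0), .ofNat (nat_lit 0), .ofNat (nat_lit 0), .ofNat (nat_lit 0), .ofNat (nat_lit 0), .ofNat (nat_lit 0)⟩⟩, [⟨nat_lit 13, nat_lit 75, nat_lit 35, nat_lit 100, nat_lit 188032071⟩]⟩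
noncomputable def p024_l37 : Lf2 := ⟨nat_lit 0, nat_lit 10, [nat_lit 0, nat_lit 5, nat_lit 5, nat_lit 20], false, nat_lit 0, nat_lit 0, nat_lit 0, nat_lit 0, ⟨nat_lit 183, nat_lit 817, nat_lit 0, nat_lit 9, nat_lit 368, nat_lit 0, nat_lit 0, nat_lit 0, nat_lit 0, nat_lit 0, nat_lit 0, nat_lit 0, nat_lit 36325037, nat_lit 30674963, nat_lit 0, nat_lit 3447935, true, true⟩,
 nat_lit 0, nat_lit 0, nat_lit 1503, nat_lit 0, nat_lit 2897, nat_lit 1149, nat_lit 127, nat_lit 0, nat_lit 0, nat_lit 73, nat_lit 0, nat_lit 0, nat_lit 0, nat_lit 0, nat_lit 0, nat_lit 326800, nat_lit 0, nat_lit 0, [(nat_lit 21, [(nat_lit 1, nat_lit 817)])],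
 ⟨p024_k21, nat_lit 0, nat_lit 0, nat_lit 166, nat_lit 0, nat_lit 0, [nat_lit 1479054400, nat_lit 2070332000], [], [nat_lit 29219321543, nat_lit 29632744010, nat_lit 30966876543, nat_lit 31358283924], nat_lit 0, nat_lit 0, nat_lit 0, nat_lit 0, nat_lit 0, nat_lit 0, [], [nat_lit 24, nat_lit 40, nat_lit 80, nat_lit 80, nat_lit 33, nat_lit 203, nat_lit 0, nat_lit 7]⟩, ⟨p024_k19, nat_lit 0, nat_lit 0, nat_lit 739, nat_lit 0, nat_lit 1560422, [nat_lit 371856000, nat_lit 857904000, nat_lit 1143750000], [], [nat_lit 7030959159, nat_lit 7050060600, nat_lit 7211188163, nat_lit 7234896483], nat_lit 1271250, nat_lit 1271250, nat_lit 1271250, nat_lit 1271250, nat_lit 0, nat_lit 0, [nat_lit 490000, nat_lit 1100000, nat_lit 1442500], [nat_lit 6, nat_lit 40, nat_lit 80, nat_lit 80, nat_lit 3, nat_lit 276, nat_lit 0, nat_lit 9]⟩,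
 ⟨nat_lit 3162, nat_lit 3536, ⟨.ofNat (nat_lit 888239), .ofNat (nat_lit 951009), .ofNat (nat_lit 893725), .ofNat (nat_lit 956496), .ofNat (nat_lit 882271), .ofNat (nat_lit 943233), .ofNat (nat_lit 887808), .ofNat (nat_lit 948770)⟩, ⟨.ofNat (nat_lit 0), .ofNat (nat_lit 0), .ofNat (nat_lit 0), .ofNat (nat_lit 0), .ofNat (nat_lit 0), .ofNat (nat_lit 0), .ofNat (nat_lit 0), .ofNat (nat_lit 0)⟩⟩, [⟨nat_lit 13, nat_lit 77, nat_lit 32, nat_lit 100, nat_lit 180953419⟩]⟩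
noncomputable def p024_l38 : Lf2 := ⟨nat_lit 0, nat_lit 10, [nat_lit 0, nat_lit 5, nat_lit 5, nat_lit 20], false, nat_lit 0, nat_lit 0, nat_lit 0, nat_lit 0, ⟨nat_lit 1000, nat_lit 0, nat_lit 0, nat_lit 0, nat_lit 0, nat_lit 0, nat_lit 0, nat_lit 0, nat_lit 0, nat_lit 0, nat_lit 0, nat_lit 0, nat_lit 0, nat_lit 0, nat_lit 0, nat_lit 0, false, false⟩,
 nat_lit 0, nat_lit 0, nat_lit 8438, nat_lit 0, nat_lit 4435, nat_lit 6328, nat_lit 601, nat_lit 0, nat_lit 0, nat_lit 420, nat_lit 0, nat_lit 0, nat_lit 0, nat_lit 0, nat_lit 0, nat_lit 0, nat_lit 0, nat_lit 0, [],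
 ⟨p024_k20, nat_lit 0, nat_lit 0, nat_lit 178, nat_lit 0, nat_lit 0, [nat_lit 2032000001, nat_lit 4688000000, nat_lit 6250000000], [], [nat_lit 25915634931, nat_lit 26521270776, nat_lit 34853500440, nat_lit 35439262730], nat_lit 0, nat_lit 0, nat_lit 0, nat_lit 0, nat_lit 0, nat_lit 0, [], [nat_lit 6, nat_lit 40, nat_lit 80, nat_lit 80, nat_lit 3, nat_lit 203, nat_lit 0, nat_lit 7]⟩, ⟨p024_k13, nat_lit 0, nat_lit 0, nat_lit 614, nat_lit 0, nat_lit 1244744, [nat_lit 2032000000, nat_lit 4688000000, nat_lit 6250000000], [], [nat_lit 35505061280, nat_lit 35780285584, nat_lit 39458542688, nat_lit 39682293024], nat_lit 1271250, nat_lit 1271250, nat_lit 1271250, nat_lit 1271250, nat_lit 0, nat_lit 0, [nat_lit 490000, nat_lit 1100000, nat_lit 1442500], [nat_lit 6, nat_lit 40, nat_lit 80, nat_lit 80, nat_lit 3, nat_lit 245, nat_lit 0, nat_lit 8]⟩,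
 zbF0, []⟩
noncomputable def p024_l39 : Lf2 := ⟨nat_lit 0, nat_lit 10, [nat_lit 0, nat_lit 5, nat_lit 5, nat_lit 20], false, nat_lit 0, nat_lit 0, nat_lit 0, nat_lit 0, ⟨nat_lit 689, nat_lit 311, nat_lit 0, nat_lit 8, nat_lit 328, nat_lit 0, nat_lit 0, nat_lit 0, nat_lit 0, nat_lit 0, nat_lit 0, nat_lit 0, nat_lit 40037442, nat_lit 26962558, nat_lit 0, nat_lit 3369915, true, true⟩,
 nat_lit 0, nat_lit 0, nat_lit 5654, nat_lit 0, nat_lit 4200, nat_lit 4240, nat_lit 55, nat_lit 0, nat_lit 0, nat_lit 260, nat_lit 0, nat_lit 0, nat_lit 0, nat_lit 0, nat_lit 0, nat_lit 77750, nat_lit 0, nat_lit 0, [(nat_lit 21, [(nat_lit 0, nat_lit 311)])],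
 ⟨p024_k21, nat_lit 0, nat_lit 0, nat_lit 166, nat_lit 0, nat_lit 0, [nat_lit 1884710400, nat_lit 3840711600], [], [nat_lit 27164072150, nat_lit 27793812350, nat_lit 34872242950, nat_lit 35314795550], nat_lit 0, nat_lit 0, nat_lit 0, nat_lit 0, nat_lit 0, nat_lit 0, [], [nat_lit 24, nat_lit 40, nat_lit 80, nat_lit 80, nat_lit 33, nat_lit 203, nat_lit 0, nat_lit 8]⟩, ⟨p024_k13, nat_lit 0, nat_lit 0, nat_lit 640, nat_lit 0, nat_lit 1312675, [nat_lit 1400048000, nat_lit 3230032000, nat_lit 4306250000], [], [nat_lit 25470732128, nat_lit 25558157086, nat_lit 27793716140, nat_lit 27865151422], nat_lit 1271250, nat_lit 1271250, nat_lit 1271250, nat_lit 1271250, nat_lit 0, nat_lit 0, [nat_lit 490000, nat_lit 1100000, nat_lit 1442500], [nat_lit 6, nat_lit 40, nat_lit 80, nat_lit 80, nat_lit 3, nat_lit 251, nat_lit 0, nat_lit 9]⟩,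
 ⟨nat_lit 3162, nat_lit 3536, ⟨.ofNat (nat_lit 694437), .ofNat (nat_lit 945521), .ofNat (nat_lit 699923), .ofNat (nat_lit 951009), .ofNat (nat_lit 693843), .ofNat (nat_lit 937695), .ofNat (nat_lit 699379), .ofNat (nat_lit 943233)⟩, ⟨.ofNat (nat_lit 0), .ofNat (nat_lit 0), .ofNat (nat_lit 0), .ofNat (nat_lit 0), .ofNat (nat_lit 0), .ofNat (nat_lit 0), .ofNat (nat_lit 0), .ofNat (nat_lit 0)⟩⟩, []⟩
noncomputable def p024_l40 : Lf2 := ⟨nat_lit 0, nat_lit 10, [nat_lit 0, nat_lit 5, nat_lit 5, nat_lit 20], false, nat_lit 0, nat_lit 0, nat_lit 0, nat_lit 0, ⟨nat_lit 1000, nat_lit 0, nat_lit 0, nat_lit 0, nat_lit 0, nat_lit 0, nat_lit 0, nat_lit 0, nat_lit 0, nat_lit 0, nat_lit 0, nat_lit 0, nat_lit 0, nat_lit 0, nat_lit 0, nat_lit 0, false, false⟩,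
 nat_lit 0, nat_lit 0, nat_lit 7956, nat_lit 0, nat_lit 4400, nat_lit 6083, nat_lit 383, nat_lit 0, nat_lit 0, nat_lit 458, nat_lit 0, nat_lit 0, nat_lit 0, nat_lit 0, nat_lit 0, nat_lit 0, nat_lit 0, nat_lit 0, [],
 ⟨p024_k21, nat_lit 0, nat_lit 0, nat_lit 166, nat_lit 0, nat_lit 0, [nat_lit 2032000001, nat_lit 4688000000], [], [nat_lit 26275062351, nat_lit 26919708751, nat_lit 35335132200, nat_lit 35918824800], nat_lit 0, nat_lit 0, nat_lit 0, nat_lit 0, nat_lit 0, nat_lit 0, [], [nat_lit 24, nat_lit 40, nat_lit 80, nat_lit 80, nat_lit 33, nat_lit 203, nat_lit 0, nat_lit 8]⟩, ⟨p024_k19, nat_lit 0, nat_lit 0, nat_lit 639, nat_lit 0, nat_lit 1309400, [nat_lit 2032000000, nat_lit 4688000000, nat_lit 6250000000], [], [nat_lit 35145601509, nat_lit 35280223709, nat_lit 38871918429, nat_lit 38983158189], nat_lit 1271250, nat_lit 1271250, nat_lit 1271250, nat_lit 1271250, nat_lit 0, nat_lit 0,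 [nat_lit 490000, nat_lit 1100000, nat_lit 1442500], [nat_lit 6, nat_lit 40, nat_lit 80, nat_lit 80, nat_lit 3, nat_lit 251, nat_lit 0, nat_lit 9]⟩,
 zbF0, []⟩
noncomputable def p024_l41 : Lf2 := ⟨nat_lit 0, nat_lit 10, [nat_lit 0, nat_lit 5, nat_lit 5, nat_lit 20], false, nat_lit 0, nat_lit 0, nat_lit 0, nat_lit 0, ⟨nat_lit 758, nat_lit 242, nat_lit 0, nat_lit 8, nat_lit 335, nat_lit 0, nat_lit 0, nat_lit 0, nat_lit 0, nat_lit 0, nat_lit 0, nat_lit 0, nat_lit 39340795, nat_lit 27659205, nat_lit 0, nat_lit 3389348, true, false⟩,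
 nat_lit 0, nat_lit 0, nat_lit 4767, nat_lit 0, nat_lit 4388, nat_lit 3715, nat_lit 316, nat_lit 0, nat_lit 0, nat_lit 1220, nat_lit 0, nat_lit 0, nat_lit 0, nat_lit 0, nat_lit 0, nat_lit 60500, nat_lit 0, nat_lit 0, [(nat_lit 18, [(nat_lit 0, nat_lit 242)]), (nat_lit 21, [(nat_lit 0, nat_lit 242)])],
 ⟨p024_k17, nat_lit 0, nat_lit 0, nat_lit 180, nat_lit 0, nat_lit 0, [nat_lit 1917388800, nat_lit 4078160000, nat_lit 5357504000], [], [nat_lit 26792662532, nat_lit 28712829644, nat_lit 34619196656, nat_lit 35889224012], nat_lit 0, nat_lit 0, nat_lit 0, nat_lit 0, nat_lit 0, nat_lit 0, [], [nat_lit 6, nat_lit 40, nat_lit 80, nat_lit 80, nat_lit 3, nat_lit 203, nat_lit 0, nat_lit 7]⟩, ⟨p024_k17, nat_lit 0, nat_lit 0, nat_lit 774, nat_lit 0, nat_lit 1627636, [nat_lit 1540256000, nat_lit 3553504000, nat_lit 4737500000], [], [nat_lit 24644161180, nat_lit 24828335752, nat_lit 27327789045, nat_lit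 27481619790], nat_lit 1271250, nat_lit 1271250, nat_lit 1271250, nat_lit 1271250, nat_lit 0, nat_lit 0, [nat_lit 490000, nat_lit 1100000, nat_lit 1442500], [nat_lit 6, nat_lit 40, nat_lit 80, nat_lit 80, nat_lit 3, nat_lit 286, nat_lit 0, nat_lit 10]⟩,
 ⟨nat_lit 3162, nat_lit 4184, ⟨.ofNat (nat_lit 706775), .ofNat (nat_lit 972009), .ofNat (nat_lit 717580), .ofNat (nat_lit 982822), .ofNat (nat_lit 704646), .ofNat (nat_lit 948671), .ofNat (nat_lit 715695), .ofNat (nat_lit 959728)⟩, ⟨.ofNat (nat_lit 0), .ofNat (nat_lit 0), .ofNat (nat_lit 0), .ofNat (nat_lit 0), .ofNat (nat_lit 0), .ofNat (nat_lit 0), .ofNat (nat_lit 0), .ofNat (nat_lit 0)⟩⟩, []⟩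
noncomputable def p024_l42 : Lf2 := ⟨nat_lit 0, nat_lit 10, [nat_lit 0, nat_lit 5, nat_lit 5, nat_lit 20], true, nat_lit 0, nat_lit 0, nat_lit 0, nat_lit 0, ⟨nat_lit 0, nat_lit 1000, nat_lit 0, nat_lit 8, nat_lit 302, nat_lit 0, nat_lit 0, nat_lit 0, nat_lit 0, nat_lit 0, nat_lit 0, nat_lit 0, nat_lit 0, nat_lit 0, nat_lit 0, nat_lit 5000000, true, false⟩,
 nat_lit 0, nat_lit 0, nat_lit 0, nat_lit 0, nat_lit 3711, nat_lit 0, nat_lit 0, nat_lit 0, nat_lit 0, nat_lit 0, nat_lit 0, nat_lit 0, nat_lit 0, nat_lit 7021783750788, nat_lit 0, nat_lit 250000, nat_lit 0, nat_lit 0, [(nat_lit 18, [(nat_lit 0, nat_lit 1000)]), (nat_lit 21, [(nat_lit 0, nat_lit 1000)])],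
 ⟨p024_k16, nat_lit 0, nat_lit 0, nat_lit 187, nat_lit 0, nat_lit 0, [nat_lit 1558400000, nat_lit 2562000000], [], [nat_lit 23006864512, nat_lit 25467470556, nat_lit 32320661604, nat_lit 33829115756], nat_lit 0, nat_lit 0, nat_lit 0, nat_lit 0, nat_lit 0, nat_lit 0, [], [nat_lit 69, nat_lit 40, nat_lit 80, nat_lit 80, nat_lit 64, nat_lit 317, nat_lit 100, nat_lit 12]⟩, C1.Rw.none,
 ⟨nat_lit 3162, nat_lit 4473, ⟨.ofNat (nat_lit 526772), .ofNat (nat_lit 969090), .ofNat (nat_lit 548248), .ofNat (nat_lit 990589), .ofNat (nat_lit 540839), .ofNat (nat_lit 937496), .ofNat (nat_lit 562904), .ofNat (nat_lit 959584)⟩, ⟨.ofNat (nat_lit 0), .ofNat (nat_lit 0), .ofNat (nat_lit 0), .ofNat (nat_lit 0), .ofNat (nat_lit 0), .ofNat (nat_lit 0), .ofNat (nat_lit 0), .ofNat (nat_lit 0)⟩⟩, []⟩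
noncomputable def b_N_800_800_0_14 : St := ⟨false, nat_lit 0, nat_lit 2, nat_lit 0, nat_lit 40, nat_lit 320, nat_lit 360, nat_lit 320, nat_lit 340, nat_lit 140, nat_lit 400, nat_lit 0, nat_lit 0, nat_lit 0, nat_lit 0, nat_lit 0, nat_lit 0, nat_lit 40, nat_lit 80, nat_lit 0, nat_lit 0, nat_lit 0, nat_lit 0⟩
theorem d_N_800_800_0_14 (h : EB TB.env) : Dead b_N_800_800_0_14 := chkB_sound0 h (T :=
(.gv
(.st (nat_lit 1)
(.leaf p024_l22)
(.spl (nat_lit 2) (nat_lit 240)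
(.leaf p024_l23)
(.spl (nat_lit 1) (nat_lit 330)
(.spl (nat_lit 0) (nat_lit 340)
(.spl (nat_lit 6) (nat_lit 60)
(.spl (nat_lit 1) (nat_lit 325)
(.spl (nat_lit 6) (nat_lit 48)
(.spl (nat_lit 0) (nat_lit 330)
(.leaf p024_l24)
(.spl (nat_lit 0) (nat_lit 335)
(.leaf p024_l25)
(.leaf p024_l26)))
(.leaf p024_l27))
(.ord (.leaf p024_l28)))
(.leaf p024_l29))
(.spl (nat_lit 6) (nat_lit 60)
(.spl (nat_lit 0) (nat_lit 350)
(.spl (nat_lit 2) (nat_lit 320)
(.leaf p024_l30)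
(.spl (nat_lit 2) (nat_lit 360)
(.leaf p024_l31)
(.spl (nat_lit 1) (nat_lit 325)
(.leaf p024_l32)
(.leaf p024_l33))))
(.spl (nat_lit 2) (nat_lit 320)
(.leaf p024_l34)
(.spl (nat_lit 2) (nat_lit 360)
(.leaf p024_l35)
(.spl (nat_lit 1) (nat_lit 325)
(.leaf p024_l36)
(.leaf p024_l37)))))
(.spl (nat_lit 0) (nat_lit 350)
(.leaf p024_l38)
(.spl (nat_lit 1) (nat_lit 325)
(.leaf p024_l39)
(.leaf p024_l40)))))
(.ord (.leaf p024_l41)))))
(.leaf p024_l42))) (by decide +kernel)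
noncomputable def p024_l43 : Lf2 := ⟨nat_lit 0, nat_lit 10, [nat_lit 0, nat_lit 5, nat_lit 5, nat_lit 20], false, nat_lit 0, nat_lit 0, nat_lit 0, nat_lit 0, ⟨nat_lit 1000, nat_lit 0, nat_lit 0, nat_lit 0, nat_lit 0, nat_lit 0, nat_lit 0, nat_lit 0, nat_lit 0, nat_lit 0, nat_lit 0, nat_lit 0, nat_lit 0, nat_lit 0, nat_lit 0, nat_lit 0, false, false⟩,
 nat_lit 0, nat_lit 8478, nat_lit 0, nat_lit 0, nat_lit 6358, nat_lit 4006, nat_lit 496, nat_lit 0, nat_lit 0, nat_lit 0, nat_lit 0, nat_lit 0, nat_lit 0, nat_lit 0, nat_lit 0, nat_lit 0, nat_lit 0, nat_lit 0, [],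
 ⟨p024_k13, nat_lit 0, nat_lit 0, nat_lit 609, nat_lit 0, nat_lit 1181981, [nat_lit 2032000001, nat_lit 4688000000, nat_lit 6250000000], [], [nat_lit 31819813200, nat_lit 31898134867, nat_lit 32938427536, nat_lit 33020077152], nat_lit 1271250, nat_lit 1271250, nat_lit 936251, nat_lit 1773750, nat_lit 0, nat_lit 0, [nat_lit 490000, nat_lit 1100000, nat_lit 1442500], [nat_lit 6, nat_lit 40, nat_lit 80, nat_lit 80, nat_lit 3, nat_lit 272, nat_lit 60, nat_lit 10]⟩, ⟨p024_k13, nat_lit 0, nat_lit 0, nat_lit 114, nat_lit 0, nat_lit 0, [nat_lit 2032000000, nat_lit 4688000000, nat_lit 6250000000], [], [nat_lit 23692471758, nat_lit 23854287352, nat_lit 26656213824, nat_lit 26799847360], nat_lit 0, nat_lit 0, nat_lit 0, nat_lit 0, nat_lit 0, nat_lit 0, [], [nat_lit 6, nat_lit 40, nat_lit 80, nat_lit 80, nat_lit 3, nat_lit 272, nat_lit 60, nat_lit 10]⟩,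
 zbF0, [⟨nat_lit 0, nat_lit 82, nat_lit 82, nat_lit 100, nat_lit 411606939⟩]⟩
noncomputable def p024_l44 : Lf2 := ⟨nat_lit 0, nat_lit 10, [nat_lit 0, nat_lit 5, nat_lit 5, nat_lit 20], false, nat_lit 0, nat_lit 0, nat_lit 0, nat_lit 0, ⟨nat_lit 1000, nat_lit 0, nat_lit 0, nat_lit 0, nat_lit 0, nat_lit 0, nat_lit 0, nat_lit 0, nat_lit 0, nat_lit 0, nat_lit 0, nat_lit 0, nat_lit 0, nat_lit 0, nat_lit 0, nat_lit 0, false, false⟩,
 nat_lit 0, nat_lit 8455, nat_lit 0, nat_lit 0, nat_lit 6390, nat_lit 4009, nat_lit 511, nat_lit 0, nat_lit 0, nat_lit 0, nat_lit 0, nat_lit 0, nat_lit 0, nat_lit 24953635735071, nat_lit 0, nat_lit 0, nat_lit 0, nat_lit 0, [],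
 ⟨p024_k22, nat_lit 0, nat_lit 0, nat_lit 609, nat_lit 0, nat_lit 1185199, [nat_lit 2032000001, nat_lit 4688000000, nat_lit 6250000000], [], [nat_lit 30970151954, nat_lit 31012055128, nat_lit 32123074447, nat_lit 32163988604], nat_lit 1271250, nat_lit 1271250, nat_lit 968401, nat_lit 1776000, nat_lit 0, nat_lit 0, [nat_lit 490000, nat_lit 1100000, nat_lit 1442500], [nat_lit 6, nat_lit 40, nat_lit 80, nat_lit 80, nat_lit 3, nat_lit 272, nat_lit 60, nat_lit 10]⟩, ⟨p024_k13, nat_lit 0, nat_lit 0, nat_lit 115, nat_lit 0, nat_lit 0, [nat_lit 2032000000, nat_lit 4688000000, nat_lit 6250000000], [], [nat_lit 23738934609, nat_lit 23980398735, nat_lit 26656736736, nat_lit 26872269341], nat_lit 0, nat_lit 0, nat_lit 0, nat_lit 0, nat_lit 0, nat_lit 0, [], [nat_lit 6, nat_lit 40, nat_lit 80, nat_lit 80, nat_lit 3, nat_lit 272, nat_lit 60, nat_lit 10]⟩,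
 zbF0, [⟨nat_lit 0, nat_lit 81, nat_lit 81, nat_lit 100, nat_lit 407190753⟩]⟩
noncomputable def p024_l45 : Lf2 := ⟨nat_lit 0, nat_lit 10, [nat_lit 0, nat_lit 5, nat_lit 5, nat_lit 20], false, nat_lit 0, nat_lit 0, nat_lit 0, nat_lit 0, ⟨nat_lit 1000, nat_lit 0, nat_lit 0, nat_lit 0, nat_lit 0, nat_lit 0, nat_lit 0, nat_lit 0, nat_lit 0, nat_lit 0, nat_lit 0, nat_lit 0, nat_lit 0, nat_lit 0, nat_lit 0, nat_lit 0, false, false⟩,
 nat_lit 0, nat_lit 10077, nat_lit 0, nat_lit 0, nat_lit 7646, nat_lit 3997, nat_lit 476, nat_lit 0, nat_lit 0, nat_lit 0, nat_lit 0, nat_lit 0, nat_lit 0, nat_lit 0, nat_lit 0, nat_lit 0, nat_lit 0, nat_lit 0, [],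
 ⟨p024_k14, nat_lit 0, nat_lit 0, nat_lit 620, nat_lit 0, nat_lit 1210151, [nat_lit 2032000001, nat_lit 4688000000, nat_lit 6250000000], [], [nat_lit 26737387412, nat_lit 26818618212, nat_lit 27450332053, nat_lit 27523269528], nat_lit 1271250, nat_lit 1271250, nat_lit 968401, nat_lit 1776000, nat_lit 0, nat_lit 0, [nat_lit 490000, nat_lit 1100000, nat_lit 1442500], [nat_lit 6, nat_lit 40, nat_lit 80, nat_lit 80, nat_lit 3, nat_lit 272, nat_lit 60, nat_lit 10]⟩, ⟨p024_k13, nat_lit 0, nat_lit 0, nat_lit 116, nat_lit 0, nat_lit 0, [nat_lit 2032000000, nat_lit 4688000000, nat_lit 6250000000], [], [nat_lit 23747679931, nat_lit 24149469861, nat_lit 26654645088, nat_lit 27013317419], nat_lit 0, nat_lit 0, nat_lit 0, nat_lit 0, nat_lit 0, nat_lit 0, [], [nat_lit 6, nat_lit 40, nat_lit 80, nat_lit 80, nat_lit 3, nat_lit 272, nat_lit 60, nat_lit 10]⟩,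
 zbF0, [⟨nat_lit 0, nat_lit 80, nat_lit 80, nat_lit 100, nat_lit 452588334⟩]⟩
noncomputable def p024_l46 : Lf2 := ⟨nat_lit 0, nat_lit 10, [nat_lit 0, nat_lit 5, nat_lit 5, nat_lit 20], false, nat_lit 0, nat_lit 0, nat_lit 0, nat_lit 0, ⟨nat_lit 1000, nat_lit 0, nat_lit 0, nat_lit 0, nat_lit 0, nat_lit 0, nat_lit 0, nat_lit 0, nat_lit 0, nat_lit 0, nat_lit 0, nat_lit 0, nat_lit 0, nat_lit 0, nat_lit 0, nat_lit 0, false, false⟩,
 nat_lit 0, nat_lit 8070, nat_lit 0, nat_lit 0, nat_lit 6052, nat_lit 3988, nat_lit 520, nat_lit 0, nat_lit 0, nat_lit 0, nat_lit 0, nat_lit 0, nat_lit 0, nat_lit 0, nat_lit 0, nat_lit 0, nat_lit 0, nat_lit 0, [],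
 ⟨p024_k13, nat_lit 0, nat_lit 0, nat_lit 519, nat_lit 0, nat_lit 978700, [nat_lit 2032000001, nat_lit 4688000000, nat_lit 6250000000], [], [nat_lit 30475344794, nat_lit 30704948460, nat_lit 31857430128, nat_lit 32096834524], nat_lit 1271250, nat_lit 1271250, nat_lit 936251, nat_lit 1773750, nat_lit 0, nat_lit 0, [nat_lit 490000, nat_lit 1100000, nat_lit 1442500], [nat_lit 6, nat_lit 40, nat_lit 80, nat_lit 80, nat_lit 3, nat_lit 272, nat_lit 60, nat_lit 10]⟩, ⟨p024_k13, nat_lit 0, nat_lit 0, nat_lit 116, nat_lit 0, nat_lit 0, [nat_lit 2032000000, nat_lit 4688000000, nat_lit 6250000000], [], [nat_lit 23705381484, nat_lit 24108937643, nat_lit 26653570048, nat_lit 27011337176], nat_lit 0, nat_lit 0, nat_lit 0, nat_lit 0, nat_lit 0, nat_lit 0, [], [nat_lit 6, nat_lit 40, nat_lit 80, nat_lit 80, nat_lit 3, nat_lit 272, nat_lit 60, nat_lit 10]⟩,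
 zbF0, [⟨nat_lit 0, nat_lit 80, nat_lit 80, nat_lit 100, nat_lit 409453568⟩]⟩
noncomputable def p024_l47 : Lf2 := ⟨nat_lit 0, nat_lit 10, [nat_lit 0, nat_lit 5, nat_lit 5, nat_lit 20], false, nat_lit 0, nat_lit 0, nat_lit 0, nat_lit 0, ⟨nat_lit 1000, nat_lit 0, nat_lit 0, nat_lit 0, nat_lit 0, nat_lit 0, nat_lit 0, nat_lit 0, nat_lit 0, nat_lit 0, nat_lit 0, nat_lit 0, nat_lit 0, nat_lit 0, nat_lit 0, nat_lit 0, false, false⟩,
 nat_lit 0, nat_lit 8479, nat_lit 0, nat_lit 0, nat_lit 6359, nat_lit 5716, nat_lit 434, nat_lit 0, nat_lit 0, nat_lit 0, nat_lit 0, nat_lit 0, nat_lit 0, nat_lit 0, nat_lit 0, nat_lit 0, nat_lit 0, nat_lit 0, [],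
 ⟨p024_k13, nat_lit 0, nat_lit 0, nat_lit 623, nat_lit 0, nat_lit 1267868, [nat_lit 2032000001, nat_lit 4688000000, nat_lit 6250000000], [], [nat_lit 35208209460, nat_lit 35357723919, nat_lit 39303449564, nat_lit 39415405131], nat_lit 1271250, nat_lit 1271250, nat_lit 1271250, nat_lit 1271250, nat_lit 0, nat_lit 0, [nat_lit 490000, nat_lit 1100000, nat_lit 1442500], [nat_lit 6, nat_lit 40, nat_lit 80, nat_lit 80, nat_lit 3, nat_lit 247, nat_lit 0, nat_lit 9]⟩, ⟨p024_k13, nat_lit 0, nat_lit 0, nat_lit 173, nat_lit 0, nat_lit 0, [nat_lit 2032000000, nat_lit 4688000000, nat_lit 6250000000], [], [nat_lit 28333081296, nat_lit 28701719260, nat_lit 37599371184, nat_lit 37871026750], nat_lit 0, nat_lit 0, nat_lit 0, nat_lit 0, nat_lit 0, nat_lit 0, [], [nat_lit 6, nat_lit 40, nat_lit 80, nat_lit 80, nat_lit 3, nat_lit 203, nat_lit 0, nat_lit 7]⟩,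
 zbF0, []⟩
noncomputable def p024_l48 : Lf2 := ⟨nat_lit 0, nat_lit 10, [nat_lit 0, nat_lit 5, nat_lit 5, nat_lit 20], false, nat_lit 0, nat_lit 0, nat_lit 0, nat_lit 0, ⟨nat_lit 1000, nat_lit 0, nat_lit 0, nat_lit 0, nat_lit 0, nat_lit 0, nat_lit 0, nat_lit 0, nat_lit 0, nat_lit 0, nat_lit 0, nat_lit 0, nat_lit 0, nat_lit 0, nat_lit 0, nat_lit 0, false, false⟩,
 nat_lit 0, nat_lit 8256, nat_lit 0, nat_lit 0, nat_lit 6313, nat_lit 3989, nat_lit 2338, nat_lit 0, nat_lit 0, nat_lit 0, nat_lit 0, nat_lit 0, nat_lit 0, nat_lit 13426209035049, nat_lit 0, nat_lit 0, nat_lit 0, nat_lit 0, [],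
 ⟨p024_k19, nat_lit 0, nat_lit 0, nat_lit 647, nat_lit 0, nat_lit 1282690, [nat_lit 2032000001, nat_lit 4688000000, nat_lit 6250000000], [], [nat_lit 24931346281, nat_lit 25042112517, nat_lit 25734568099, nat_lit 25828823377], nat_lit 1271250, nat_lit 1271250, nat_lit 1000851, nat_lit 1778250, nat_lit 0, nat_lit 0, [nat_lit 490000, nat_lit 1100000, nat_lit 1442500], [nat_lit 6, nat_lit 40, nat_lit 80, nat_lit 80, nat_lit 3, nat_lit 272, nat_lit 60, nat_lit 10]⟩, ⟨p024_k13, nat_lit 0, nat_lit 0, nat_lit 118, nat_lit 0, nat_lit 0, [nat_lit 2032000000, nat_lit 4688000000, nat_lit 6250000000], [], [nat_lit 23802356013, nat_lit 24440919309, nat_lit 26653250656, nat_lit 27226541132], nat_lit 0, nat_lit 0, nat_lit 0, nat_lit 0, nat_lit 0, nat_lit 0, [], [nat_lit 6, nat_lit 40, nat_lit 80, nat_lit 80, nat_lit 3, nat_lit 272, nat_lit 60, nat_lit 10]⟩,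
 zbF0, [⟨nat_lit 0, nat_lit 78, nat_lit 78, nat_lit 100, nat_lit 455086636⟩]⟩
noncomputable def p024_l49 : Lf2 := ⟨nat_lit 0, nat_lit 10, [nat_lit 0, nat_lit 5, nat_lit 5, nat_lit 20], false, nat_lit 0, nat_lit 0, nat_lit 0, nat_lit 0, ⟨nat_lit 1000, nat_lit 0, nat_lit 0, nat_lit 0, nat_lit 0, nat_lit 0, nat_lit 0, nat_lit 0, nat_lit 0, nat_lit 0, nat_lit 0, nat_lit 0, nat_lit 0, nat_lit 0, nat_lit 0, nat_lit 0, false, false⟩,
 nat_lit 0, nat_lit 7081, nat_lit 0, nat_lit 0, nat_lit 5477, nat_lit 3987, nat_lit 2319, nat_lit 0, nat_lit 0, nat_lit 0, nat_lit 0, nat_lit 0, nat_lit 0, nat_lit 19049135228152, nat_lit 0, nat_lit 0, nat_lit 0, nat_lit 0, [],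
 ⟨p024_k23, nat_lit 0, nat_lit 0, nat_lit 651, nat_lit 0, nat_lit 1294234, [nat_lit 2032000001, nat_lit 4688000000, nat_lit 6250000000], [], [nat_lit 23678141965, nat_lit 23749992623, nat_lit 24661095045, nat_lit 24723200245], nat_lit 1271250, nat_lit 1271250, nat_lit 1033601, nat_lit 1780500, nat_lit 0, nat_lit 0, [nat_lit 490000, nat_lit 1100000, nat_lit 1442500], [nat_lit 6, nat_lit 40, nat_lit 80, nat_lit 80, nat_lit 3, nat_lit 272, nat_lit 60, nat_lit 10]⟩, ⟨p024_k13, nat_lit 0, nat_lit 0, nat_lit 120, nat_lit 0, nat_lit 0, [nat_lit 2032000000, nat_lit 4688000000, nat_lit 6250000000], [], [nat_lit 23852705714, nat_lit 24646187665, nat_lit 26654217552, nat_lit 27369332250], nat_lit 0, nat_lit 0, nat_lit 0, nat_lit 0, nat_lit 0, nat_lit 0, [], [nat_lit 6, nat_lit 40, nat_lit 80, nat_lit 80, nat_lit 3, nat_lit 272, nat_lit 60, nat_lit 10]⟩,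
 zbF0, [⟨nat_lit 0, nat_lit 77, nat_lit 77, nat_lit 100, nat_lit 434588888⟩]⟩
noncomputable def p024_l50 : Lf2 := ⟨nat_lit 0, nat_lit 10, [nat_lit 0, nat_lit 5, nat_lit 5, nat_lit 20], false, nat_lit 0, nat_lit 0, nat_lit 0, nat_lit 0, ⟨nat_lit 1000, nat_lit 0, nat_lit 0, nat_lit 0, nat_lit 0, nat_lit 0, nat_lit 0, nat_lit 0, nat_lit 0, nat_lit 0, nat_lit 0, nat_lit 0, nat_lit 0, nat_lit 0, nat_lit 0, nat_lit 0, false, false⟩,
 nat_lit 0, nat_lit 7956, nat_lit 0, nat_lit 0, nat_lit 6083, nat_lit 5858, nat_lit 458, nat_lit 0, nat_lit 0, nat_lit 0, nat_lit 0, nat_lit 0, nat_lit 0, nat_lit 0, nat_lit 0, nat_lit 0, nat_lit 0, nat_lit 0, [],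
 ⟨p024_k19, nat_lit 0, nat_lit 0, nat_lit 641, nat_lit 0, nat_lit 1314749, [nat_lit 2032000001, nat_lit 4688000000, nat_lit 6250000000], [], [nat_lit 35145601511, nat_lit 35280223711, nat_lit 38871918429, nat_lit 38983158189], nat_lit 1271250, nat_lit 1271250, nat_lit 1271250, nat_lit 1271250, nat_lit 0, nat_lit 0, [nat_lit 490000, nat_lit 1100000, nat_lit 1442500], [nat_lit 6, nat_lit 40, nat_lit 80, nat_lit 80, nat_lit 3, nat_lit 252, nat_lit 0, nat_lit 9]⟩, ⟨p024_k13, nat_lit 0, nat_lit 0, nat_lit 174, nat_lit 0, nat_lit 0, [nat_lit 2032000000, nat_lit 4688000000, nat_lit 6250000000], [], [nat_lit 28201696648, nat_lit 28949368112, nat_lit 37763029592, nat_lit 38333092620], nat_lit 0, nat_lit 0, nat_lit 0, nat_lit 0, nat_lit 0, nat_lit 0, [], [nat_lit 6, nat_lit 40, nat_lit 80, nat_lit 80, nat_lit 3, nat_lit 203, nat_lit 0, nat_lit 7]⟩,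
 zbF0, []⟩
noncomputable def p024_l51 : Lf2 := ⟨nat_lit 0, nat_lit 10, [nat_lit 0, nat_lit 5, nat_lit 5, nat_lit 20], false, nat_lit 0, nat_lit 0, nat_lit 0, nat_lit 0, ⟨nat_lit 1000, nat_lit 0, nat_lit 0, nat_lit 0, nat_lit 0, nat_lit 0, nat_lit 0, nat_lit 0, nat_lit 0, nat_lit 0, nat_lit 0, nat_lit 0, nat_lit 0, nat_lit 0, nat_lit 0, nat_lit 0, false, false⟩,
 nat_lit 0, nat_lit 6056, nat_lit 0, nat_lit 0, nat_lit 4720, nat_lit 6770, nat_lit 1805, nat_lit 0, nat_lit 0, nat_lit 0, nat_lit 0, nat_lit 0, nat_lit 0, nat_lit 31535983248237, nat_lit 0, nat_lit 0, nat_lit 0, nat_lit 0, [],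
 ⟨p024_k17, nat_lit 0, nat_lit 0, nat_lit 718, nat_lit 0, nat_lit 1438579, [nat_lit 2032000001, nat_lit 4688000000, nat_lit 6250000000], [], [nat_lit 29986266707, nat_lit 30272457650, nat_lit 35450601421, nat_lit 35689105221], nat_lit 1271250, nat_lit 1271250, nat_lit 1066650, nat_lit 3146750, nat_lit 0, nat_lit 0, [nat_lit 490000, nat_lit 1100000, nat_lit 1442500], [nat_lit 6, nat_lit 40, nat_lit 80, nat_lit 80, nat_lit 3, nat_lit 317, nat_lit 100, nat_lit 12]⟩, ⟨p024_k13, nat_lit 0, nat_lit 0, nat_lit 176, nat_lit 0, nat_lit 0, [nat_lit 2032000000, nat_lit 4688000000, nat_lit 6250000000], [], [nat_lit 24666845490, nat_lit 26592588352, nat_lit 40214736120, nat_lit 41662416480], nat_lit 0, nat_lit 0, nat_lit 0, nat_lit 0, nat_lit 0, nat_lit 0, [], [nat_lit 6, nat_lit 40, nat_lit 80, nat_lit 80, nat_lit 3, nat_lit 317, nat_lit 100, nat_lit 12]⟩,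
 zbF0, []⟩
noncomputable def p024_l52 : Lf2 := ⟨nat_lit 0, nat_lit 10, [nat_lit 0, nat_lit 5, nat_lit 5, nat_lit 20], false, nat_lit 0, nat_lit 0, nat_lit 0, nat_lit 0, ⟨nat_lit 1000, nat_lit 0, nat_lit 0, nat_lit 0, nat_lit 0, nat_lit 0, nat_lit 0, nat_lit 0, nat_lit 0, nat_lit 0, nat_lit 0, nat_lit 0, nat_lit 0, nat_lit 0, nat_lit 0, nat_lit 0, false, false⟩,
 nat_lit 0, nat_lit 5799, nat_lit 0, nat_lit 0, nat_lit 4694, nat_lit 5773, nat_lit 953, nat_lit 0, nat_lit 0, nat_lit 0, nat_lit 0, nat_lit 0, nat_lit 0, nat_lit 0, nat_lit 0, nat_lit 0, nat_lit 0, nat_lit 0, [],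
 ⟨p024_k20, nat_lit 0, nat_lit 0, nat_lit 741, nat_lit 0, nat_lit 1502310, [nat_lit 2032000001, nat_lit 4688000000, nat_lit 6250000000], [], [nat_lit 30971459661, nat_lit 31646236368, nat_lit 36327359986, nat_lit 36818190798], nat_lit 1271250, nat_lit 1271250, nat_lit 1167600, nat_lit 3171500, nat_lit 0, nat_lit 0, [nat_lit 490000, nat_lit 1100000, nat_lit 1442500], [nat_lit 6, nat_lit 40, nat_lit 80, nat_lit 80, nat_lit 3, nat_lit 317, nat_lit 100, nat_lit 12]⟩, ⟨p024_k13, nat_lit 0, nat_lit 0, nat_lit 176, nat_lit 0, nat_lit 0, [nat_lit 2032000000, nat_lit 4688000000, nat_lit 6250000000], [], [nat_lit 25946305018, nat_lit 27654338277, nat_lit 37665065052, nat_lit 38756740594], nat_lit 0, nat_lit 0, nat_lit 0, nat_lit 0, nat_lit 0, nat_lit 0, [], [nat_lit 6, nat_lit 40, nat_lit 80, nat_lit 80, nat_lit 3, nat_lit 317, nat_lit 100, nat_lit 12]⟩,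
 zbF0, [⟨nat_lit 0, nat_lit 72, nat_lit 61, nat_lit 100, nat_lit 131118521⟩]⟩
noncomputable def p024_l53 : Lf2 := ⟨nat_lit 0, nat_lit 10, [nat_lit 0, nat_lit 5, nat_lit 5, nat_lit 20], false, nat_lit 0, nat_lit 0, nat_lit 0, nat_lit 0, ⟨nat_lit 1000, nat_lit 0, nat_lit 0, nat_lit 0, nat_lit 0, nat_lit 0, nat_lit 0, nat_lit 0, nat_lit 0, nat_lit 0, nat_lit 0, nat_lit 0, nat_lit 0, nat_lit 0, nat_lit 0, nat_lit 0, false, false⟩,
 nat_lit 7824, nat_lit 0, nat_lit 0, nat_lit 0, nat_lit 5867, nat_lit 5867, nat_lit 510, nat_lit 0, nat_lit 0, nat_lit 525, nat_lit 0, nat_lit 0, nat_lit 0, nat_lit 0, nat_lit 0, nat_lit 0, nat_lit 0, nat_lit 0, [],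
 ⟨p024_k13, nat_lit 0, nat_lit 0, nat_lit 459, nat_lit 0, nat_lit 828564, [nat_lit 2032000001, nat_lit 4688000000, nat_lit 6250000000], [], [nat_lit 31260393279, nat_lit 33156307045, nat_lit 38407032544, nat_lit 40370131164], nat_lit 1271250, nat_lit 1271250, nat_lit 936251, nat_lit 3113750, nat_lit 0, nat_lit 0, [nat_lit 490000, nat_lit 1100000, nat_lit 1442500], [nat_lit 6, nat_lit 40, nat_lit 80, nat_lit 80, nat_lit 3, nat_lit 317, nat_lit 100, nat_lit 12]⟩, ⟨p024_k13, nat_lit 0, nat_lit 0, nat_lit 454, nat_lit 0, nat_lit 828564, [nat_lit 2032000000, nat_lit 4688000000, nat_lit 6250000000], [], [nat_lit 31112554049, nat_lit 32056377410, nat_lit 38407032544, nat_lit 39035160546], nat_lit 1271250, nat_lit 1271250, nat_lit 936251, nat_lit 3113750, nat_lit 0, nat_lit 0, [nat_lit 490000, nat_lit 1100000, nat_lit 1442500], [nat_lit 6, nat_lit 40, nat_lit 80, nat_lit 80, nat_lit 3, nat_lit 317,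 nat_lit 100, nat_lit 12]⟩,
 zbF0, [⟨nat_lit 0, nat_lit 72, nat_lit 61, nat_lit 100, nat_lit 322771618⟩]⟩
noncomputable def p024_l54 : Lf2 := ⟨nat_lit 0, nat_lit 10, [nat_lit 0, nat_lit 5, nat_lit 5, nat_lit 20], false, nat_lit 0, nat_lit 0, nat_lit 0, nat_lit 0, ⟨nat_lit 1000, nat_lit 0, nat_lit 0, nat_lit 0, nat_lit 0, nat_lit 0, nat_lit 0, nat_lit 0, nat_lit 0, nat_lit 0, nat_lit 0, nat_lit 0, nat_lit 0, nat_lit 0, nat_lit 0, nat_lit 0, false, false⟩,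
 nat_lit 0, nat_lit 8478, nat_lit 0, nat_lit 0, nat_lit 6358, nat_lit 4006, nat_lit 496, nat_lit 0, nat_lit 0, nat_lit 0, nat_lit 0, nat_lit 0, nat_lit 0, nat_lit 0, nat_lit 0, nat_lit 0, nat_lit 0, nat_lit 0, [],
 ⟨p024_k13, nat_lit 0, nat_lit 0, nat_lit 609, nat_lit 0, nat_lit 1181981, [nat_lit 2032000001, nat_lit 4688000000, nat_lit 6250000000], [], [nat_lit 31819813200, nat_lit 31898134867, nat_lit 32938427536, nat_lit 33020077152], nat_lit 1271250, nat_lit 1271250, nat_lit 936251, nat_lit 1773750, nat_lit 0, nat_lit 0, [nat_lit 490000, nat_lit 1100000, nat_lit 1442500], [nat_lit 6, nat_lit 40, nat_lit 80, nat_lit 80, nat_lit 3, nat_lit 272, nat_lit 60, nat_lit 10]⟩, ⟨p024_k13, nat_lit 0, nat_lit 0, nat_lit 114, nat_lit 0, nat_lit 0, [nat_lit 2032000000, nat_lit 4688000000, nat_lit 6250000000], [], [nat_lit 23692471758, nat_lit 23854287352, nat_lit 26656213824, nat_lit 26799847360],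 nat_lit 0, nat_lit 0, nat_lit 0, nat_lit 0, nat_lit 0, nat_lit 0, [], [nat_lit 6, nat_lit 40, nat_lit 80, nat_lit 80, nat_lit 3, nat_lit 272, nat_lit 60, nat_lit 10]⟩,
 zbF0, [⟨nat_lit 0, nat_lit 82, nat_lit 82, nat_lit 100, nat_lit 411606939⟩]⟩
noncomputable def p024_l55 : Lf2 := ⟨nat_lit 0, nat_lit 10, [nat_lit 0, nat_lit 5, nat_lit 5, nat_lit 20], false, nat_lit 0, nat_lit 0, nat_lit 0, nat_lit 0, ⟨nat_lit 1000, nat_lit 0, nat_lit 0, nat_lit 0, nat_lit 0, nat_lit 0, nat_lit 0, nat_lit 0, nat_lit 0, nat_lit 0, nat_lit 0, nat_lit 0, nat_lit 0, nat_lit 0, nat_lit 0, nat_lit 0, false, false⟩,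
 nat_lit 0, nat_lit 8455, nat_lit 0, nat_lit 0, nat_lit 6390, nat_lit 4009, nat_lit 511, nat_lit 0, nat_lit 0, nat_lit 0, nat_lit 0, nat_lit 0, nat_lit 0, nat_lit 24953635735071, nat_lit 0, nat_lit 0, nat_lit 0, nat_lit 0, [],
 ⟨p024_k22, nat_lit 0, nat_lit 0, nat_lit 609, nat_lit 0, nat_lit 1185199, [nat_lit 2032000001, nat_lit 4688000000, nat_lit 6250000000], [], [nat_lit 30970151954, nat_lit 31012055128, nat_lit 32123074447, nat_lit 32163988604], nat_lit 1271250, nat_lit 1271250, nat_lit 968401, nat_lit 1776000, nat_lit 0, nat_lit 0, [nat_lit 490000, nat_lit 1100000, nat_lit 1442500], [nat_lit 6, nat_lit 40, nat_lit 80, nat_lit 80, nat_lit 3, nat_lit 272, nat_lit 60, nat_lit 10]⟩, ⟨p024_k13, nat_lit 0, nat_lit 0, nat_lit 115, nat_lit 0, nat_lit 0, [nat_lit 2032000000, nat_lit 4688000000, nat_lit 6250000000], [], [nat_lit 23738934609, nat_lit 23980398735, nat_lit 26656736736, nat_lit 26872269341],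 nat_lit 0, nat_lit 0, nat_lit 0, nat_lit 0, nat_lit 0, nat_lit 0, [], [nat_lit 6, nat_lit 40, nat_lit 80, nat_lit 80, nat_lit 3, nat_lit 272, nat_lit 60, nat_lit 10]⟩,
 zbF0, [⟨nat_lit 0, nat_lit 81, nat_lit 81, nat_lit 100, nat_lit 407190753⟩]⟩
noncomputable def p024_l56 : Lf2 := ⟨nat_lit 0, nat_lit 10, [nat_lit 0, nat_lit 5, nat_lit 5, nat_lit 20], false, nat_lit 0, nat_lit 0, nat_lit 0, nat_lit 0, ⟨nat_lit 1000, nat_lit 0, nat_lit 0, nat_lit 0, nat_lit 0, nat_lit 0, nat_lit 0, nat_lit 0, nat_lit 0, nat_lit 0, nat_lit 0, nat_lit 0, nat_lit 0, nat_lit 0, nat_lit 0, nat_lit 0, false, false⟩,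
 nat_lit 0, nat_lit 10077, nat_lit 0, nat_lit 0, nat_lit 7646, nat_lit 3997, nat_lit 476, nat_lit 0, nat_lit 0, nat_lit 0, nat_lit 0, nat_lit 0, nat_lit 0, nat_lit 0, nat_lit 0, nat_lit 0, nat_lit 0, nat_lit 0, [],
 ⟨p024_k14, nat_lit 0, nat_lit 0, nat_lit 620, nat_lit 0, nat_lit 1210151, [nat_lit 2032000001, nat_lit 4688000000, nat_lit 6250000000], [], [nat_lit 26737387412, nat_lit 26818618212, nat_lit 27450332053, nat_lit 27523269528], nat_lit 1271250, nat_lit 1271250, nat_lit 968401, nat_lit 1776000, nat_lit 0, nat_lit 0, [nat_lit 490000, nat_lit 1100000, nat_lit 1442500], [nat_lit 6, nat_lit 40, nat_lit 80, nat_lit 80, nat_lit 3, nat_lit 272, nat_lit 60, nat_lit 10]⟩, ⟨p024_k13, nat_lit 0, nat_lit 0, nat_lit 116, nat_lit 0, nat_lit 0, [nat_lit 2032000000, nat_lit 4688000000, nat_lit 6250000000], [], [nat_lit 23747679931, nat_lit 24149469861, nat_lit 26654645088, nat_lit 27013317419],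 nat_lit 0, nat_lit 0, nat_lit 0, nat_lit 0, nat_lit 0, nat_lit 0, [], [nat_lit 6, nat_lit 40, nat_lit 80, nat_lit 80, nat_lit 3, nat_lit 272, nat_lit 60, nat_lit 10]⟩,
 zbF0, [⟨nat_lit 0, nat_lit 80, nat_lit 80, nat_lit 100, nat_lit 452588334⟩]⟩
noncomputable def p024_l57 : Lf2 := ⟨nat_lit 0, nat_lit 10, [nat_lit 0, nat_lit 5, nat_lit 5, nat_lit 20], false, nat_lit 0, nat_lit 0, nat_lit 0, nat_lit 0, ⟨nat_lit 1000, nat_lit 0, nat_lit 0, nat_lit 0, nat_lit 0, nat_lit 0, nat_lit 0, nat_lit 0, nat_lit 0, nat_lit 0, nat_lit 0, nat_lit 0, nat_lit 0, nat_lit 0, nat_lit 0, nat_lit 0, false, false⟩,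
 nat_lit 0, nat_lit 8070, nat_lit 0, nat_lit 0, nat_lit 6052, nat_lit 3988, nat_lit 520, nat_lit 0, nat_lit 0, nat_lit 0, nat_lit 0, nat_lit 0, nat_lit 0, nat_lit 24369311586574, nat_lit 0, nat_lit 0, nat_lit 0, nat_lit 0, [],
 ⟨p024_k13, nat_lit 0, nat_lit 0, nat_lit 519, nat_lit 0, nat_lit 978700, [nat_lit 2032000001, nat_lit 4688000000, nat_lit 6250000000], [], [nat_lit 30475344794, nat_lit 30704948460, nat_lit 31857430128, nat_lit 32096834524], nat_lit 1271250, nat_lit 1271250, nat_lit 936251, nat_lit 1773750, nat_lit 0, nat_lit 0, [nat_lit 490000, nat_lit 1100000, nat_lit 1442500], [nat_lit 6, nat_lit 40, nat_lit 80, nat_lit 80, nat_lit 3, nat_lit 272, nat_lit 60, nat_lit 10]⟩, ⟨p024_k13, nat_lit 0, nat_lit 0, nat_lit 116, nat_lit 0, nat_lit 0, [nat_lit 2032000000, nat_lit 4688000000, nat_lit 6250000000], [], [nat_lit 23705381484, nat_lit 24108937643, nat_lit 26653570048, nat_lit 27011337176],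 nat_lit 0, nat_lit 0, nat_lit 0, nat_lit 0, nat_lit 0, nat_lit 0, [], [nat_lit 6, nat_lit 40, nat_lit 80, nat_lit 80, nat_lit 3, nat_lit 272, nat_lit 60, nat_lit 10]⟩,
 zbF0, [⟨nat_lit 0, nat_lit 80, nat_lit 80, nat_lit 100, nat_lit 409453568⟩]⟩
noncomputable def p024_l58 : Lf2 := ⟨nat_lit 0, nat_lit 10, [nat_lit 0, nat_lit 5, nat_lit 5, nat_lit 20], false, nat_lit 0, nat_lit 0, nat_lit 0, nat_lit 0, ⟨nat_lit 1000, nat_lit 0, nat_lit 0, nat_lit 0, nat_lit 0, nat_lit 0, nat_lit 0, nat_lit 0, nat_lit 0, nat_lit 0, nat_lit 0, nat_lit 0, nat_lit 0, nat_lit 0, nat_lit 0, nat_lit 0, false, false⟩,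
 nat_lit 0, nat_lit 8479, nat_lit 0, nat_lit 0, nat_lit 6359, nat_lit 5716, nat_lit 434, nat_lit 0, nat_lit 0, nat_lit 0, nat_lit 0, nat_lit 0, nat_lit 0, nat_lit 0, nat_lit 0, nat_lit 0, nat_lit 0, nat_lit 0, [],
 ⟨p024_k13, nat_lit 0, nat_lit 0, nat_lit 623, nat_lit 0, nat_lit 1267868, [nat_lit 2032000001, nat_lit 4688000000, nat_lit 6250000000], [], [nat_lit 35208209460, nat_lit 35357723919, nat_lit 39303449564, nat_lit 39415405131], nat_lit 1271250, nat_lit 1271250, nat_lit 1271250, nat_lit 1271250, nat_lit 0, nat_lit 0, [nat_lit 490000, nat_lit 1100000, nat_lit 1442500], [nat_lit 6, nat_lit 40, nat_lit 80, nat_lit 80, nat_lit 3, nat_lit 247, nat_lit 0, nat_lit 9]⟩, ⟨p024_k13, nat_lit 0, nat_lit 0, nat_lit 173, nat_lit 0, nat_lit 0, [nat_lit 2032000000, nat_lit 4688000000, nat_lit 6250000000], [], [nat_lit 28333081296, nat_lit 28701719260, nat_lit 37599371184, nat_lit 37871026750], nat_lit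 0, nat_lit 0, nat_lit 0, nat_lit 0, nat_lit 0, nat_lit 0, [], [nat_lit 6, nat_lit 40, nat_lit 80, nat_lit 80, nat_lit 3, nat_lit 203, nat_lit 0, nat_lit 7]⟩,
 zbF0, []⟩
noncomputable def p024_l59 : Lf2 := ⟨nat_lit 0, nat_lit 10, [nat_lit 0, nat_lit 5, nat_lit 5, nat_lit 20], false, nat_lit 0, nat_lit 0, nat_lit 0, nat_lit 0, ⟨nat_lit 1000, nat_lit 0, nat_lit 0, nat_lit 0, nat_lit 0, nat_lit 0, nat_lit 0, nat_lit 0, nat_lit 0, nat_lit 0, nat_lit 0, nat_lit 0, nat_lit 0, nat_lit 0, nat_lit 0, nat_lit 0, false, false⟩,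
 nat_lit 0, nat_lit 8256, nat_lit 0, nat_lit 0, nat_lit 6313, nat_lit 3989, nat_lit 2338, nat_lit 0, nat_lit 0, nat_lit 0, nat_lit 0, nat_lit 0, nat_lit 0, nat_lit 0, nat_lit 0, nat_lit 0, nat_lit 0, nat_lit 0, [],
 ⟨p024_k19, nat_lit 0, nat_lit 0, nat_lit 647, nat_lit 0, nat_lit 1282690, [nat_lit 2032000001, nat_lit 4688000000, nat_lit 6250000000], [], [nat_lit 24931346281, nat_lit 25042112517, nat_lit 25734568099, nat_lit 25828823377], nat_lit 1271250, nat_lit 1271250, nat_lit 1000851, nat_lit 1778250, nat_lit 0, nat_lit 0, [nat_lit 490000, nat_lit 1100000, nat_lit 1442500], [nat_lit 6, nat_lit 40, nat_lit 80, nat_lit 80, nat_lit 3, nat_lit 272, nat_lit 60, nat_lit 10]⟩, ⟨p024_k13, nat_lit 0, nat_lit 0, nat_lit 118, nat_lit 0, nat_lit 0, [nat_lit 2032000000, nat_lit 4688000000, nat_lit 6250000000], [], [nat_lit 23802356013, nat_lit 24440919309, nat_lit 26653250656, nat_lit 27226541132],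 nat_lit 0, nat_lit 0, nat_lit 0, nat_lit 0, nat_lit 0, nat_lit 0, [], [nat_lit 6, nat_lit 40, nat_lit 80, nat_lit 80, nat_lit 3, nat_lit 272, nat_lit 60, nat_lit 10]⟩,
 zbF0, [⟨nat_lit 0, nat_lit 78, nat_lit 78, nat_lit 100, nat_lit 455086636⟩]⟩
noncomputable def p024_l60 : Lf2 := ⟨nat_lit 0, nat_lit 10, [nat_lit 0, nat_lit 5, nat_lit 5, nat_lit 20], false, nat_lit 0, nat_lit 0, nat_lit 0, nat_lit 0, ⟨nat_lit 1000, nat_lit 0, nat_lit 0, nat_lit 0, nat_lit 0, nat_lit 0, nat_lit 0, nat_lit 0, nat_lit 0, nat_lit 0, nat_lit 0, nat_lit 0, nat_lit 0, nat_lit 0, nat_lit 0, nat_lit 0, false, false⟩,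
 nat_lit 0, nat_lit 7081, nat_lit 0, nat_lit 0, nat_lit 5477, nat_lit 3987, nat_lit 2319, nat_lit 0, nat_lit 0, nat_lit 0, nat_lit 0, nat_lit 0, nat_lit 0, nat_lit 19049135228152, nat_lit 0, nat_lit 0, nat_lit 0, nat_lit 0, [],
 ⟨p024_k23, nat_lit 0, nat_lit 0, nat_lit 651, nat_lit 0, nat_lit 1294234, [nat_lit 2032000001, nat_lit 4688000000, nat_lit 6250000000], [], [nat_lit 23678141965, nat_lit 23749992623, nat_lit 24661095045, nat_lit 24723200245], nat_lit 1271250, nat_lit 1271250, nat_lit 1033601, nat_lit 1780500, nat_lit 0, nat_lit 0, [nat_lit 490000, nat_lit 1100000, nat_lit 1442500], [nat_lit 6, nat_lit 40, nat_lit 80, nat_lit 80, nat_lit 3, nat_lit 272, nat_lit 60, nat_lit 10]⟩, ⟨p024_k13, nat_lit 0, nat_lit 0, nat_lit 120, nat_lit 0, nat_lit 0, [nat_lit 2032000000, nat_lit 4688000000, nat_lit 6250000000], [], [nat_lit 23852705714, nat_lit 24646187665, nat_lit 26654217552, nat_lit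 27369332250], nat_lit 0, nat_lit 0, nat_lit 0, nat_lit 0, nat_lit 0, nat_lit 0, [], [nat_lit 6, nat_lit 40, nat_lit 80, nat_lit 80, nat_lit 3, nat_lit 272, nat_lit 60, nat_lit 10]⟩,
 zbF0, [⟨nat_lit 0, nat_lit 77, nat_lit 77, nat_lit 100, nat_lit 434588888⟩]⟩
noncomputable def p024_l61 : Lf2 := ⟨nat_lit 0, nat_lit 10, [nat_lit 0, nat_lit 5, nat_lit 5, nat_lit 20], false, nat_lit 0, nat_lit 0, nat_lit 0, nat_lit 0, ⟨nat_lit 1000, nat_lit 0, nat_lit 0, nat_lit 0, nat_lit 0, nat_lit 0, nat_lit 0, nat_lit 0, nat_lit 0, nat_lit 0, nat_lit 0, nat_lit 0, nat_lit 0, nat_lit 0, nat_lit 0, nat_lit 0, false, false⟩,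
 nat_lit 0, nat_lit 7956, nat_lit 0, nat_lit 0, nat_lit 6083, nat_lit 5858, nat_lit 458, nat_lit 0, nat_lit 0, nat_lit 0, nat_lit 0, nat_lit 0, nat_lit 0, nat_lit 0, nat_lit 0, nat_lit 0, nat_lit 0, nat_lit 0, [],
 ⟨p024_k19, nat_lit 0, nat_lit 0, nat_lit 641, nat_lit 0, nat_lit 1314749, [nat_lit 2032000001, nat_lit 4688000000, nat_lit 6250000000], [], [nat_lit 35145601511, nat_lit 35280223711, nat_lit 38871918429, nat_lit 38983158189], nat_lit 1271250, nat_lit 1271250, nat_lit 1271250, nat_lit 1271250, nat_lit 0, nat_lit 0, [nat_lit 490000, nat_lit 1100000, nat_lit 1442500], [nat_lit 6, nat_lit 40, nat_lit 80, nat_lit 80, nat_lit 3, nat_lit 252, nat_lit 0, nat_lit 9]⟩, ⟨p024_k13, nat_lit 0, nat_lit 0, nat_lit 174, nat_lit 0, nat_lit 0, [nat_lit 2032000000, nat_lit 4688000000, nat_lit 6250000000], [], [nat_lit 28201696648, nat_lit 28949368112, nat_lit 37763029592, nat_lit 38333092620], nat_lit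 0, nat_lit 0, nat_lit 0, nat_lit 0, nat_lit 0, nat_lit 0, [], [nat_lit 6, nat_lit 40, nat_lit 80, nat_lit 80, nat_lit 3, nat_lit 203, nat_lit 0, nat_lit 7]⟩,
 zbF0, []⟩
noncomputable def p024_l62 : Lf2 := ⟨nat_lit 0, nat_lit 10, [nat_lit 0, nat_lit 5, nat_lit 5, nat_lit 20], false, nat_lit 0, nat_lit 0, nat_lit 0, nat_lit 0, ⟨nat_lit 1000, nat_lit 0, nat_lit 0, nat_lit 0, nat_lit 0, nat_lit 0, nat_lit 0, nat_lit 0, nat_lit 0, nat_lit 0, nat_lit 0, nat_lit 0, nat_lit 0, nat_lit 0, nat_lit 0, nat_lit 0, false, false⟩,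
 nat_lit 0, nat_lit 6056, nat_lit 0, nat_lit 0, nat_lit 4720, nat_lit 6770, nat_lit 1805, nat_lit 0, nat_lit 0, nat_lit 0, nat_lit 0, nat_lit 0, nat_lit 0, nat_lit 0, nat_lit 0, nat_lit 0, nat_lit 0, nat_lit 0, [],
 ⟨p024_k17, nat_lit 0, nat_lit 0, nat_lit 718, nat_lit 0, nat_lit 1438579, [nat_lit 2032000001, nat_lit 4688000000, nat_lit 6250000000], [], [nat_lit 29986266707, nat_lit 30272457650, nat_lit 35450601421, nat_lit 35689105221], nat_lit 1271250, nat_lit 1271250, nat_lit 1066650, nat_lit 3146750, nat_lit 0, nat_lit 0, [nat_lit 490000, nat_lit 1100000, nat_lit 1442500], [nat_lit 6, nat_lit 40, nat_lit 80, nat_lit 80, nat_lit 3, nat_lit 317, nat_lit 100, nat_lit 12]⟩, ⟨p024_k13, nat_lit 0, nat_lit 0, nat_lit 176, nat_lit 0, nat_lit 0, [nat_lit 2032000000, nat_lit 4688000000, nat_lit 6250000000], [], [nat_lit 24666845490, nat_lit 26592588352, nat_lit 40214736120, nat_lit 41662416480],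 nat_lit 0, nat_lit 0, nat_lit 0, nat_lit 0, nat_lit 0, nat_lit 0, [], [nat_lit 6, nat_lit 40, nat_lit 80, nat_lit 80, nat_lit 3, nat_lit 317, nat_lit 100, nat_lit 12]⟩,
 zbF0, []⟩
noncomputable def p024_l63 : Lf2 := ⟨nat_lit 0, nat_lit 10, [nat_lit 0, nat_lit 5, nat_lit 5, nat_lit 20], false, nat_lit 0, nat_lit 0, nat_lit 0, nat_lit 0, ⟨nat_lit 1000, nat_lit 0, nat_lit 0, nat_lit 0, nat_lit 0, nat_lit 0, nat_lit 0, nat_lit 0, nat_lit 0, nat_lit 0, nat_lit 0, nat_lit 0, nat_lit 0, nat_lit 0, nat_lit 0, nat_lit 0, false, false⟩,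
 nat_lit 0, nat_lit 5799, nat_lit 0, nat_lit 0, nat_lit 4694, nat_lit 5773, nat_lit 953, nat_lit 0, nat_lit 0, nat_lit 0, nat_lit 0, nat_lit 0, nat_lit 0, nat_lit 0, nat_lit 0, nat_lit 0, nat_lit 0, nat_lit 0, [],
 ⟨p024_k20, nat_lit 0, nat_lit 0, nat_lit 741, nat_lit 0, nat_lit 1502310, [nat_lit 2032000001, nat_lit 4688000000, nat_lit 6250000000], [], [nat_lit 30971459661, nat_lit 31646236368, nat_lit 36327359986, nat_lit 36818190798], nat_lit 1271250, nat_lit 1271250, nat_lit 1167600, nat_lit 3171500, nat_lit 0, nat_lit 0, [nat_lit 490000, nat_lit 1100000, nat_lit 1442500], [nat_lit 6, nat_lit 40, nat_lit 80, nat_lit 80, nat_lit 3, nat_lit 317, nat_lit 100, nat_lit 12]⟩, ⟨p024_k13, nat_lit 0, nat_lit 0, nat_lit 176, nat_lit 0, nat_lit 0, [nat_lit 2032000000, nat_lit 4688000000, nat_lit 6250000000], [], [nat_lit 25946305018, nat_lit 27654338277, nat_lit 37665065052, nat_lit 38756740594],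 nat_lit 0, nat_lit 0, nat_lit 0, nat_lit 0, nat_lit 0, nat_lit 0, [], [nat_lit 6, nat_lit 40, nat_lit 80, nat_lit 80, nat_lit 3, nat_lit 317, nat_lit 100, nat_lit 12]⟩,
 zbF0, [⟨nat_lit 0, nat_lit 72, nat_lit 61, nat_lit 100, nat_lit 131118521⟩]⟩
noncomputable def p024_l64 : Lf2 := ⟨nat_lit 0, nat_lit 10, [nat_lit 0, nat_lit 5, nat_lit 5, nat_lit 20], false, nat_lit 0, nat_lit 0, nat_lit 0, nat_lit 0, ⟨nat_lit 1000, nat_lit 0, nat_lit 0, nat_lit 0, nat_lit 0, nat_lit 0, nat_lit 0, nat_lit 0, nat_lit 0, nat_lit 0, nat_lit 0, nat_lit 0, nat_lit 0, nat_lit 0, nat_lit 0, nat_lit 0, false, false⟩,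
 nat_lit 7824, nat_lit 0, nat_lit 0, nat_lit 0, nat_lit 5867, nat_lit 5867, nat_lit 510, nat_lit 0, nat_lit 0, nat_lit 525, nat_lit 0, nat_lit 0, nat_lit 0, nat_lit 0, nat_lit 0, nat_lit 0, nat_lit 0, nat_lit 0, [],
 ⟨p024_k13, nat_lit 0, nat_lit 0, nat_lit 459, nat_lit 0, nat_lit 828564, [nat_lit 2032000001, nat_lit 4688000000, nat_lit 6250000000], [], [nat_lit 31260393279, nat_lit 33156307045, nat_lit 38407032544, nat_lit 40370131164], nat_lit 1271250, nat_lit 1271250, nat_lit 936251, nat_lit 3113750, nat_lit 0, nat_lit 0, [nat_lit 490000, nat_lit 1100000, nat_lit 1442500], [nat_lit 6, nat_lit 40, nat_lit 80, nat_lit 80, nat_lit 3, nat_lit 317, nat_lit 100, nat_lit 12]⟩, ⟨p024_k13, nat_lit 0, nat_lit 0, nat_lit 454, nat_lit 0, nat_lit 828564, [nat_lit 2032000000, nat_lit 4688000000, nat_lit 6250000000], [], [nat_lit 31112554049, nat_lit 32056377410, nat_lit 38407032544, nat_lit 39035160546],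 nat_lit 1271250, nat_lit 1271250, nat_lit 936251, nat_lit 3113750, nat_lit 0, nat_lit 0, [nat_lit 490000, nat_lit 1100000, nat_lit 1442500], [nat_lit 6, nat_lit 40, nat_lit 80, nat_lit 80, nat_lit 3, nat_lit 317, nat_lit 100, nat_lit 12]⟩,
 zbF0, [⟨nat_lit 0, nat_lit 72, nat_lit 61, nat_lit 100, nat_lit 322771618⟩]⟩
noncomputable def b_N_800_800_0_15 : St := ⟨false, nat_lit 1, nat_lit 2, nat_lit 0, nat_lit 40, nat_lit 320, nat_lit 360, nat_lit 320, nat_lit 340, nat_lit 140, nat_lit 400, nat_lit 0, nat_lit 0, nat_lit 0, nat_lit 0, nat_lit 0, nat_lit 0, nat_lit 40, nat_lit 80, nat_lit 0, nat_lit 0, nat_lit 0, nat_lit 0⟩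
theorem d_N_800_800_0_15 (h : EB TB.env) : Dead b_N_800_800_0_15 := chkB_sound0 h (T :=
(.gv
(.st (nat_lit 1)
(.spl (nat_lit 0) (nat_lit 340)
(.spl (nat_lit 0) (nat_lit 330)
(.ord (.spl (nat_lit 0) (nat_lit 325)
(.ord (.spl (nat_lit 2) (nat_lit 240)
(.spl (nat_lit 6) (nat_lit 60)
(.spl (nat_lit 0) (nat_lit 323)
(.ord (.spl (nat_lit 0) (nat_lit 322)
(.ord (.leaf p024_l43))
(.trZ (nat_lit 0) (nat_lit 83) (nat_lit 82) (nat_lit 100) (nat_lit 144) (.leaf p024_l44))))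
(.trZ (nat_lit 0) (nat_lit 83) (nat_lit 82) (nat_lit 100) (nat_lit 144) (.leaf p024_l45)))
(.leaf p024_l46))
(.leaf p024_l47)))
(.trZ (nat_lit 0) (nat_lit 83) (nat_lit 81) (nat_lit 100) (nat_lit 148) (.spl (nat_lit 2) (nat_lit 240)
(.spl (nat_lit 0) (nat_lit 328)
(.ord (.leaf p024_l48))
(.trZ (nat_lit 0) (nat_lit 82) (nat_lit 79) (nat_lit 100) (nat_lit 152) (.leaf p024_l49)))
(.leaf p024_l50)))))
(.trZ (nat_lit 0) (nat_lit 82) (nat_lit 78) (nat_lit 100) (nat_lit 156) (.leaf p024_l51)))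
(.trZ (nat_lit 0) (nat_lit 81) (nat_lit 72) (nat_lit 100) (nat_lit 168) (.leaf p024_l52)))
(.leaf p024_l53))
(.st (nat_lit 1)
(.spl (nat_lit 0) (nat_lit 340)
(.spl (nat_lit 0) (nat_lit 330)
(.ord (.spl (nat_lit 0) (nat_lit 325)
(.ord (.spl (nat_lit 2) (nat_lit 240)
(.spl (nat_lit 6) (nat_lit 60)
(.spl (nat_lit 0) (nat_lit 323)
(.ord (.spl (nat_lit 0) (nat_lit 322)
(.ord (.leaf p024_l54))
(.trZ (nat_lit 0) (nat_lit 83) (nat_lit 82) (nat_lit 100) (nat_lit 144) (.leaf p024_l55))))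
(.trZ (nat_lit 0) (nat_lit 83) (nat_lit 82) (nat_lit 100) (nat_lit 144) (.leaf p024_l56)))
(.leaf p024_l57))
(.leaf p024_l58)))
(.trZ (nat_lit 0) (nat_lit 83) (nat_lit 81) (nat_lit 100) (nat_lit 148) (.spl (nat_lit 2) (nat_lit 240)
(.spl (nat_lit 0) (nat_lit 328)
(.ord (.leaf p024_l59))
(.trZ (nat_lit 0) (nat_lit 82) (nat_lit 79) (nat_lit 100) (nat_lit 152) (.leaf p024_l60)))
(.leaf p024_l61)))))
(.trZ (nat_lit 0) (nat_lit 82) (nat_lit 78) (nat_lit 100) (nat_lit 156) (.leaf p024_l62)))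
(.trZ (nat_lit 0) (nat_lit 81) (nat_lit 72) (nat_lit 100) (nat_lit 168) (.leaf p024_l63)))
(.leaf p024_l64)))) (by decide +kernel)
noncomputable def p024_l65 : Lf2 := ⟨nat_lit 0, nat_lit 10, [nat_lit 0, nat_lit 5, nat_lit 5, nat_lit 20], false, nat_lit 0, nat_lit 0, nat_lit 0, nat_lit 0, ⟨nat_lit 1000, nat_lit 0, nat_lit 0, nat_lit 0, nat_lit 0, nat_lit 0, nat_lit 0, nat_lit 0, nat_lit 0, nat_lit 0, nat_lit 0, nat_lit 0, nat_lit 0, nat_lit 0, nat_lit 0, nat_lit 0, false, false⟩,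
 nat_lit 0, nat_lit 0, nat_lit 0, nat_lit 0, nat_lit 0, nat_lit 8488, nat_lit 0, nat_lit 0, nat_lit 0, nat_lit 0, nat_lit 0, nat_lit 0, nat_lit 0, nat_lit 0, nat_lit 0, nat_lit 0, nat_lit 0, nat_lit 0, [],
 ⟨p024_k15, nat_lit 0, nat_lit 0, nat_lit 184, nat_lit 0, nat_lit 0, [nat_lit 2032000001, nat_lit 3282000000, nat_lit 6250000000], [], [nat_lit 36978902001, nat_lit 38269786001, nat_lit 43725104001, nat_lit 44735196001], nat_lit 0, nat_lit 0, nat_lit 0, nat_lit 0, nat_lit 0, nat_lit 0, [], [nat_lit 85, nat_lit 40, nat_lit 80, nat_lit 80, nat_lit 16, nat_lit 317, nat_lit 100, nat_lit 12]⟩, ⟨p024_k15, nat_lit 0, nat_lit 0, nat_lit 174, nat_lit 0, nat_lit 0, [nat_lit 2032000000, nat_lit 3282000000, nat_lit 6250000000], [], [nat_lit 25701267688, nat_lit 27825277216, nat_lit 45021280928, nat_lit 46672145712], nat_lit 0, nat_lit 0, nat_lit 0, nat_lit 0, nat_lit 0, nat_lit 0, [], [nat_lit 85,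 nat_lit 40, nat_lit 80, nat_lit 80, nat_lit 16, nat_lit 317, nat_lit 100, nat_lit 12]⟩,
 zbF0, [⟨nat_lit 13, nat_lit 94, nat_lit 9, nat_lit 100, nat_lit 76536425⟩]⟩
noncomputable def p024_l66 : Lf2 := ⟨nat_lit 0, nat_lit 10, [nat_lit 0, nat_lit 5, nat_lit 5, nat_lit 20], false, nat_lit 0, nat_lit 0, nat_lit 0, nat_lit 0, ⟨nat_lit 102, nat_lit 898, nat_lit 0, nat_lit 8, nat_lit 250, nat_lit 0, nat_lit 0, nat_lit 0, nat_lit 0, nat_lit 0, nat_lit 0, nat_lit 0, nat_lit 48163763, nat_lit 18836237, nat_lit 0, nat_lit 2970123, false, false⟩,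
 nat_lit 0, nat_lit 0, nat_lit 1038, nat_lit 0, nat_lit 3301, nat_lit 778, nat_lit 0, nat_lit 0, nat_lit 0, nat_lit 41, nat_lit 0, nat_lit 0, nat_lit 0, nat_lit 0, nat_lit 0, nat_lit 224500, nat_lit 0, nat_lit 0, [(nat_lit 18, [(nat_lit 0, nat_lit 898)]), (nat_lit 21, [(nat_lit 0, nat_lit 898)])],
 ⟨p024_k13, nat_lit 0, nat_lit 0, nat_lit 141, nat_lit 0, nat_lit 0, [nat_lit 1606707201, nat_lit 2425040000, nat_lit 2938176000], [], [nat_lit 20460985894, nat_lit 23391233557, nat_lit 23361288497, nat_lit 25836855385], nat_lit 0, nat_lit 0, nat_lit 0, nat_lit 0, nat_lit 0, nat_lit 0, [], [nat_lit 6, nat_lit 40, nat_lit 80, nat_lit 80, nat_lit 3, nat_lit 272, nat_lit 60, nat_lit 10]⟩, ⟨p024_k13, nat_lit 0, nat_lit 0, nat_lit 638, nat_lit 0, nat_lit 1248036, [nat_lit 207264000, nat_lit 478176000, nat_lit 637500000], [], [nat_lit 2910066308, nat_lit 2976781256, nat_lit 2930743328, nat_lit 3009889364],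 nat_lit 1271250, nat_lit 1271250, nat_lit 936251, nat_lit 1773750, nat_lit 0, nat_lit 0, [nat_lit 490000, nat_lit 1100000, nat_lit 1442500], [nat_lit 6, nat_lit 40, nat_lit 80, nat_lit 80, nat_lit 3, nat_lit 272, nat_lit 60, nat_lit 10]⟩,
 ⟨nat_lit 3162, nat_lit 4473, ⟨.ofNat (nat_lit 526772), .ofNat (nat_lit 696911), .ofNat (nat_lit 548248), .ofNat (nat_lit 718387), .ofNat (nat_lit 540839), .ofNat (nat_lit 693416), .ofNat (nat_lit 562904), .ofNat (nat_lit 715481)⟩, ⟨.ofNat (nat_lit 0), .ofNat (nat_lit 0), .ofNat (nat_lit 0), .ofNat (nat_lit 0), .ofNat (nat_lit 0), .ofNat (nat_lit 0), .ofNat (nat_lit 0), .ofNat (nat_lit 0)⟩⟩, [⟨nat_lit 0, nat_lit 72, nat_lit 61, nat_lit 100, nat_lit 21035835⟩]⟩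
noncomputable def p024_l67 : Lf2 := ⟨nat_lit 0, nat_lit 10, [nat_lit 0, nat_lit 5, nat_lit 5, nat_lit 20], false, nat_lit 0, nat_lit 0, nat_lit 0, nat_lit 0, ⟨nat_lit 1000, nat_lit 0, nat_lit 0, nat_lit 0, nat_lit 0, nat_lit 0, nat_lit 0, nat_lit 0, nat_lit 0, nat_lit 0, nat_lit 0, nat_lit 0, nat_lit 0, nat_lit 0, nat_lit 0, nat_lit 0, false, false⟩,
 nat_lit 0, nat_lit 0, nat_lit 8503, nat_lit 0, nat_lit 5801, nat_lit 6377, nat_lit 0, nat_lit 0, nat_lit 0, nat_lit 275, nat_lit 0, nat_lit 0, nat_lit 0, nat_lit 0, nat_lit 0, nat_lit 0, nat_lit 0, nat_lit 0, [],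
 ⟨p024_k13, nat_lit 0, nat_lit 0, nat_lit 180, nat_lit 0, nat_lit 0, [nat_lit 2032000001, nat_lit 4688000000, nat_lit 6250000000], [], [nat_lit 28254435556, nat_lit 31228429988, nat_lit 37697335724, nat_lit 40169867892], nat_lit 0, nat_lit 0, nat_lit 0, nat_lit 0, nat_lit 0, nat_lit 0, [], [nat_lit 6, nat_lit 40, nat_lit 80, nat_lit 80, nat_lit 3, nat_lit 203, nat_lit 0, nat_lit 7]⟩, ⟨p024_k13, nat_lit 0, nat_lit 0, nat_lit 583, nat_lit 0, nat_lit 1178557, [nat_lit 2032000000, nat_lit 4688000000, nat_lit 6250000000], [], [nat_lit 35747900428, nat_lit 36058292247, nat_lit 39607682208, nat_lit 39815818530], nat_lit 1271250, nat_lit 1271250, nat_lit 1271250, nat_lit 1271250, nat_lit 0, nat_lit 0, [nat_lit 490000, nat_lit 1100000, nat_lit 1442500], [nat_lit 6, nat_lit 40, nat_lit 80, nat_lit 80, nat_lit 3, nat_lit 237, nat_lit 0, nat_lit 8]⟩,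
 zbF0, []⟩
noncomputable def p024_l68 : Lf2 := ⟨nat_lit 0, nat_lit 10, [nat_lit 0, nat_lit 5, nat_lit 5, nat_lit 20], false, nat_lit 0, nat_lit 0, nat_lit 0, nat_lit 0, ⟨nat_lit 1000, nat_lit 0, nat_lit 0, nat_lit 0, nat_lit 0, nat_lit 0, nat_lit 0, nat_lit 0, nat_lit 0, nat_lit 0, nat_lit 0, nat_lit 0, nat_lit 0, nat_lit 0, nat_lit 0, nat_lit 0, false, false⟩,
 nat_lit 0, nat_lit 0, nat_lit 7345, nat_lit 0, nat_lit 5811, nat_lit 5725, nat_lit 0, nat_lit 0, nat_lit 0, nat_lit 497, nat_lit 0, nat_lit 0, nat_lit 0, nat_lit 0, nat_lit 0, nat_lit 0, nat_lit 0, nat_lit 0, [],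
 ⟨p024_k17, nat_lit 0, nat_lit 0, nat_lit 180, nat_lit 0, nat_lit 0, [nat_lit 2032000001, nat_lit 4688000000, nat_lit 6250000000], [], [nat_lit 28989413804, nat_lit 31222105868, nat_lit 38256383161, nat_lit 40200210812], nat_lit 0, nat_lit 0, nat_lit 0, nat_lit 0, nat_lit 0, nat_lit 0, [], [nat_lit 6, nat_lit 40, nat_lit 80, nat_lit 80, nat_lit 3, nat_lit 203, nat_lit 0, nat_lit 7]⟩, ⟨p024_k17, nat_lit 0, nat_lit 0, nat_lit 586, nat_lit 0, nat_lit 1183011, [nat_lit 2032000000, nat_lit 4688000000, nat_lit 6250000000], [], [nat_lit 34743299200, nat_lit 35028181450, nat_lit 38410108625, nat_lit 38622208625], nat_lit 1271250, nat_lit 1271250, nat_lit 1271250, nat_lit 1271250, nat_lit 0, nat_lit 0, [nat_lit 490000, nat_lit 1100000, nat_lit 1442500], [nat_lit 6, nat_lit 40, nat_lit 80, nat_lit 80, nat_lit 3, nat_lit 239, nat_lit 0, nat_lit 8]⟩,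
 zbF0, []⟩
noncomputable def p024_l69 : Lf2 := ⟨nat_lit 0, nat_lit 10, [nat_lit 0, nat_lit 5, nat_lit 5, nat_lit 20], false, nat_lit 0, nat_lit 0, nat_lit 0, nat_lit 0, ⟨nat_lit 158, nat_lit 842, nat_lit 0, nat_lit 8, nat_lit 302, nat_lit 0, nat_lit 0, nat_lit 0, nat_lit 0, nat_lit 0, nat_lit 0, nat_lit 0, nat_lit 0, nat_lit 0, nat_lit 0, nat_lit 5000000, true, false⟩,
 nat_lit 0, nat_lit 0, nat_lit 1325, nat_lit 0, nat_lit 3766, nat_lit 993, nat_lit 0, nat_lit 0, nat_lit 0, nat_lit 56, nat_lit 0, nat_lit 0, nat_lit 0, nat_lit 0, nat_lit 0, nat_lit 210500, nat_lit 0, nat_lit 0, [(nat_lit 18, [(nat_lit 0, nat_lit 842)]), (nat_lit 21, [(nat_lit 0, nat_lit 842)])],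
 ⟨p024_k13, nat_lit 0, nat_lit 0, nat_lit 180, nat_lit 0, nat_lit 0, [nat_lit 1633228800, nat_lit 2566160000, nat_lit 3144704000], [], [nat_lit 22520668652, nat_lit 25166311374, nat_lit 32469221328, nat_lit 34074443784], nat_lit 0, nat_lit 0, nat_lit 0, nat_lit 0, nat_lit 0, nat_lit 0, [], [nat_lit 6, nat_lit 40, nat_lit 80, nat_lit 80, nat_lit 3, nat_lit 317, nat_lit 100, nat_lit 12]⟩, ⟨p024_k13, nat_lit 0, nat_lit 0, nat_lit 638, nat_lit 0, nat_lit 1248036, [nat_lit 321056000, nat_lit 740704000, nat_lit 987500000], [], [nat_lit 5746979233, nat_lit 5843620262, nat_lit 6294501572, nat_lit 6359119404], nat_lit 1271250, nat_lit 1271250, nat_lit 936251, nat_lit 3113750, nat_lit 0, nat_lit 0, [nat_lit 490000, nat_lit 1100000, nat_lit 1442500], [nat_lit 6, nat_lit 40, nat_lit 80, nat_lit 80, nat_lit 3, nat_lit 317, nat_lit 100, nat_lit 12]⟩,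
 ⟨nat_lit 3162, nat_lit 4473, ⟨.ofNat (nat_lit 526772), .ofNat (nat_lit 969090), .ofNat (nat_lit 548248), .ofNat (nat_lit 990589), .ofNat (nat_lit 540839), .ofNat (nat_lit 937496), .ofNat (nat_lit 562904), .ofNat (nat_lit 959584)⟩, ⟨.ofNat (nat_lit 0), .ofNat (nat_lit 0), .ofNat (nat_lit 0), .ofNat (nat_lit 0), .ofNat (nat_lit 0), .ofNat (nat_lit 0), .ofNat (nat_lit 0), .ofNat (nat_lit 0)⟩⟩, [⟨nat_lit 13, nat_lit 94, nat_lit 9, nat_lit 100, nat_lit 154042966⟩]⟩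
noncomputable def p024_l70 : Lf2 := ⟨nat_lit 0, nat_lit 10, [nat_lit 0, nat_lit 5, nat_lit 5, nat_lit 20], false, nat_lit 0, nat_lit 0, nat_lit 0, nat_lit 0, ⟨nat_lit 1000, nat_lit 0, nat_lit 0, nat_lit 0, nat_lit 0, nat_lit 0, nat_lit 0, nat_lit 0, nat_lit 0, nat_lit 0, nat_lit 0, nat_lit 0, nat_lit 0, nat_lit 0, nat_lit 0, nat_lit 0, false, false⟩,
 nat_lit 0, nat_lit 8108, nat_lit 0, nat_lit 0, nat_lit 6081, nat_lit 5773, nat_lit 477, nat_lit 0, nat_lit 0, nat_lit 0, nat_lit 0, nat_lit 0, nat_lit 0, nat_lit 0, nat_lit 0, nat_lit 0, nat_lit 0, nat_lit 0, [],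
 ⟨p024_k13, nat_lit 0, nat_lit 0, nat_lit 552, nat_lit 0, nat_lit 1057018, [nat_lit 2032000001, nat_lit 4688000000, nat_lit 6250000000], [], [nat_lit 33246904431, nat_lit 34005763558, nat_lit 39122336748, nat_lit 39655605298], nat_lit 1271250, nat_lit 1271250, nat_lit 936251, nat_lit 3113750, nat_lit 0, nat_lit 0, [nat_lit 490000, nat_lit 1100000, nat_lit 1442500], [nat_lit 6, nat_lit 40, nat_lit 80, nat_lit 80, nat_lit 3, nat_lit 317, nat_lit 100, nat_lit 12]⟩, ⟨p024_k13, nat_lit 0, nat_lit 0, nat_lit 176, nat_lit 0, nat_lit 0, [nat_lit 2032000000, nat_lit 4688000000, nat_lit 6250000000], [], [nat_lit 25570774077, nat_lit 27356638728, nat_lit 37665065052, nat_lit 38756740594], nat_lit 0, nat_lit 0, nat_lit 0, nat_lit 0, nat_lit 0, nat_lit 0, [], [nat_lit 6, nat_lit 40, nat_lit 80, nat_lit 80, nat_lit 3, nat_lit 317, nat_lit 100, nat_lit 12]⟩,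
 zbF0, [⟨nat_lit 0, nat_lit 71, nat_lit 71, nat_lit 100, nat_lit 190103931⟩]⟩
noncomputable def p024_l71 : Lf2 := ⟨nat_lit 0, nat_lit 10, [nat_lit 0, nat_lit 5, nat_lit 5, nat_lit 20], false, nat_lit 0, nat_lit 0, nat_lit 0, nat_lit 0, ⟨nat_lit 1000, nat_lit 0, nat_lit 0, nat_lit 0, nat_lit 0, nat_lit 0, nat_lit 0, nat_lit 0, nat_lit 0, nat_lit 0, nat_lit 0, nat_lit 0, nat_lit 0, nat_lit 0, nat_lit 0, nat_lit 0, false, false⟩,
 nat_lit 0, nat_lit 5477, nat_lit 0, nat_lit 0, nat_lit 4433, nat_lit 4631, nat_lit 802, nat_lit 0, nat_lit 0, nat_lit 0, nat_lit 0, nat_lit 0, nat_lit 0, nat_lit 0, nat_lit 0, nat_lit 0, nat_lit 0, nat_lit 0, [],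
 ⟨p024_k20, nat_lit 0, nat_lit 0, nat_lit 562, nat_lit 0, nat_lit 1093135, [nat_lit 2032000001, nat_lit 4688000000, nat_lit 6250000000], [], [nat_lit 29953377280, nat_lit 30746487182, nat_lit 35524812979, nat_lit 36028564885], nat_lit 1271250, nat_lit 1271250, nat_lit 1167600, nat_lit 3171500, nat_lit 0, nat_lit 0, [nat_lit 490000, nat_lit 1100000, nat_lit 1442500], [nat_lit 6, nat_lit 40, nat_lit 80, nat_lit 80, nat_lit 3, nat_lit 317, nat_lit 100, nat_lit 12]⟩, ⟨p024_k13, nat_lit 0, nat_lit 0, nat_lit 176, nat_lit 0, nat_lit 0, [nat_lit 2032000000, nat_lit 4688000000, nat_lit 6250000000], [], [nat_lit 27150561042, nat_lit 28596851890, nat_lit 37569382248, nat_lit 38433285646], nat_lit 0, nat_lit 0, nat_lit 0, nat_lit 0, nat_lit 0, nat_lit 0, [], [nat_lit 6, nat_lit 40, nat_lit 80, nat_lit 80, nat_lit 3, nat_lit 317, nat_lit 100, nat_lit 12]⟩,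
 zbF0, [⟨nat_lit 0, nat_lit 76, nat_lit 66, nat_lit 100, nat_lit 164603981⟩]⟩
noncomputable def p024_l72 : Lf2 := ⟨nat_lit 0, nat_lit 10, [nat_lit 0, nat_lit 5, nat_lit 5, nat_lit 20], false, nat_lit 0, nat_lit 0, nat_lit 0, nat_lit 0, ⟨nat_lit 1000, nat_lit 0, nat_lit 0, nat_lit 0, nat_lit 0, nat_lit 0, nat_lit 0, nat_lit 0, nat_lit 0, nat_lit 0, nat_lit 0, nat_lit 0, nat_lit 0, nat_lit 0, nat_lit 0, nat_lit 0, false, false⟩,
 nat_lit 7499, nat_lit 0, nat_lit 0, nat_lit 0, nat_lit 5623, nat_lit 5623, nat_lit 526, nat_lit 0, nat_lit 0, nat_lit 543, nat_lit 0, nat_lit 0, nat_lit 0, nat_lit 0, nat_lit 0, nat_lit 0, nat_lit 0, nat_lit 0, [],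
 ⟨p024_k13, nat_lit 0, nat_lit 0, nat_lit 388, nat_lit 0, nat_lit 637584, [nat_lit 2032000001, nat_lit 4688000000, nat_lit 6250000000], [], [nat_lit 29380069296, nat_lit 31447544886, nat_lit 37591491664, nat_lit 39629763916], nat_lit 1271250, nat_lit 1271250, nat_lit 936251, nat_lit 3113750, nat_lit 0, nat_lit 0, [nat_lit 490000, nat_lit 1100000, nat_lit 1442500], [nat_lit 6, nat_lit 40, nat_lit 80, nat_lit 80, nat_lit 3, nat_lit 317, nat_lit 100, nat_lit 12]⟩, ⟨p024_k13, nat_lit 0, nat_lit 0, nat_lit 383, nat_lit 0, nat_lit 637584, [nat_lit 2032000000, nat_lit 4688000000, nat_lit 6250000000], [], [nat_lit 29108069296, nat_lit 30172406829, nat_lit 37591491664, nat_lit 38322364622], nat_lit 1271250, nat_lit 1271250, nat_lit 936251, nat_lit 3113750, nat_lit 0, nat_lit 0, [nat_lit 490000, nat_lit 1100000, nat_lit 1442500], [nat_lit 6, nat_lit 40, nat_lit 80, nat_lit 80, nat_lit 3, nat_lit 317,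 nat_lit 100, nat_lit 12]⟩,
 zbF0, [⟨nat_lit 0, nat_lit 72, nat_lit 61, nat_lit 100, nat_lit 228877534⟩]⟩
noncomputable def p024_l73 : Lf2 := ⟨nat_lit 0, nat_lit 10, [nat_lit 0, nat_lit 5, nat_lit 5, nat_lit 20], false, nat_lit 0, nat_lit 0, nat_lit 0, nat_lit 0, ⟨nat_lit 1000, nat_lit 0, nat_lit 0, nat_lit 0, nat_lit 0, nat_lit 0, nat_lit 0, nat_lit 0, nat_lit 0, nat_lit 0, nat_lit 0, nat_lit 0, nat_lit 0, nat_lit 0, nat_lit 0, nat_lit 0, false, false⟩,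
 nat_lit 0, nat_lit 8108, nat_lit 0, nat_lit 0, nat_lit 6081, nat_lit 5773, nat_lit 477, nat_lit 0, nat_lit 0, nat_lit 0, nat_lit 0, nat_lit 0, nat_lit 0, nat_lit 0, nat_lit 0, nat_lit 0, nat_lit 0, nat_lit 0, [],
 ⟨p024_k13, nat_lit 0, nat_lit 0, nat_lit 552, nat_lit 0, nat_lit 1057018, [nat_lit 2032000001, nat_lit 4688000000, nat_lit 6250000000], [], [nat_lit 33246904431, nat_lit 34005763558, nat_lit 39122336748, nat_lit 39655605298], nat_lit 1271250, nat_lit 1271250, nat_lit 936251, nat_lit 3113750, nat_lit 0, nat_lit 0, [nat_lit 490000, nat_lit 1100000, nat_lit 1442500], [nat_lit 6, nat_lit 40, nat_lit 80, nat_lit 80, nat_lit 3, nat_lit 317, nat_lit 100, nat_lit 12]⟩, ⟨p024_k13, nat_lit 0, nat_lit 0, nat_lit 176, nat_lit 0, nat_lit 0, [nat_lit 2032000000, nat_lit 4688000000, nat_lit 6250000000], [], [nat_lit 25570774077, nat_lit 27356638728, nat_lit 37665065052, nat_lit 38756740594],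 nat_lit 0, nat_lit 0, nat_lit 0, nat_lit 0, nat_lit 0, nat_lit 0, [], [nat_lit 6, nat_lit 40, nat_lit 80, nat_lit 80, nat_lit 3, nat_lit 317, nat_lit 100, nat_lit 12]⟩,
 zbF0, [⟨nat_lit 0, nat_lit 71, nat_lit 71, nat_lit 100, nat_lit 190103931⟩]⟩
noncomputable def p024_l74 : Lf2 := ⟨nat_lit 0, nat_lit 10, [nat_lit 0, nat_lit 5, nat_lit 5, nat_lit 20], false, nat_lit 0, nat_lit 0, nat_lit 0, nat_lit 0, ⟨nat_lit 1000, nat_lit 0, nat_lit 0, nat_lit 0, nat_lit 0, nat_lit 0, nat_lit 0, nat_lit 0, nat_lit 0, nat_lit 0, nat_lit 0, nat_lit 0, nat_lit 0, nat_lit 0, nat_lit 0, nat_lit 0, false, false⟩,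
 nat_lit 0, nat_lit 5426, nat_lit 0, nat_lit 0, nat_lit 4392, nat_lit 5495, nat_lit 940, nat_lit 0, nat_lit 0, nat_lit 0, nat_lit 0, nat_lit 0, nat_lit 0, nat_lit 0, nat_lit 0, nat_lit 0, nat_lit 0, nat_lit 0, [],
 ⟨p024_k20, nat_lit 0, nat_lit 0, nat_lit 562, nat_lit 0, nat_lit 1093135, [nat_lit 2032000001, nat_lit 4688000000, nat_lit 6250000000], [], [nat_lit 28797958382, nat_lit 29589346167, nat_lit 35307681990, nat_lit 35896029174], nat_lit 1271250, nat_lit 1271250, nat_lit 1167600, nat_lit 3171500, nat_lit 0, nat_lit 0, [nat_lit 490000, nat_lit 1100000, nat_lit 1442500], [nat_lit 6, nat_lit 40, nat_lit 80, nat_lit 80, nat_lit 3, nat_lit 317, nat_lit 100, nat_lit 12]⟩, ⟨p024_k13, nat_lit 0, nat_lit 0, nat_lit 176, nat_lit 0, nat_lit 0, [nat_lit 2032000000, nat_lit 4688000000, nat_lit 6250000000], [], [nat_lit 26225158144, nat_lit 27883776793, nat_lit 37442553960, nat_lit 38411693110],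 nat_lit 0, nat_lit 0, nat_lit 0, nat_lit 0, nat_lit 0, nat_lit 0, [], [nat_lit 6, nat_lit 40, nat_lit 80, nat_lit 80, nat_lit 3, nat_lit 317, nat_lit 100, nat_lit 12]⟩,
 zbF0, []⟩
noncomputable def p024_l75 : Lf2 := ⟨nat_lit 0, nat_lit 10, [nat_lit 0, nat_lit 5, nat_lit 5, nat_lit 20], false, nat_lit 0, nat_lit 0, nat_lit 0, nat_lit 0, ⟨nat_lit 1000, nat_lit 0, nat_lit 0, nat_lit 0, nat_lit 0, nat_lit 0, nat_lit 0, nat_lit 0, nat_lit 0, nat_lit 0, nat_lit 0, nat_lit 0, nat_lit 0, nat_lit 0, nat_lit 0, nat_lit 0, false, false⟩,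
 nat_lit 7499, nat_lit 0, nat_lit 0, nat_lit 0, nat_lit 5623, nat_lit 5623, nat_lit 526, nat_lit 0, nat_lit 0, nat_lit 543, nat_lit 0, nat_lit 0, nat_lit 0, nat_lit 0, nat_lit 0, nat_lit 0, nat_lit 0, nat_lit 0, [],
 ⟨p024_k13, nat_lit 0, nat_lit 0, nat_lit 388, nat_lit 0, nat_lit 637584, [nat_lit 2032000001, nat_lit 4688000000, nat_lit 6250000000], [], [nat_lit 29380069296, nat_lit 31447544886, nat_lit 37591491664, nat_lit 39629763916], nat_lit 1271250, nat_lit 1271250, nat_lit 936251, nat_lit 3113750, nat_lit 0, nat_lit 0, [nat_lit 490000, nat_lit 1100000, nat_lit 1442500], [nat_lit 6, nat_lit 40, nat_lit 80, nat_lit 80, nat_lit 3, nat_lit 317, nat_lit 100, nat_lit 12]⟩, ⟨p024_k13, nat_lit 0, nat_lit 0, nat_lit 383, nat_lit 0, nat_lit 637584, [nat_lit 2032000000, nat_lit 4688000000, nat_lit 6250000000], [], [nat_lit 29108069296, nat_lit 30172406829, nat_lit 37591491664, nat_lit 38322364622],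 nat_lit 1271250, nat_lit 1271250, nat_lit 936251, nat_lit 3113750, nat_lit 0, nat_lit 0, [nat_lit 490000, nat_lit 1100000, nat_lit 1442500], [nat_lit 6, nat_lit 40, nat_lit 80, nat_lit 80, nat_lit 3, nat_lit 317, nat_lit 100, nat_lit 12]⟩,
 zbF0, [⟨nat_lit 0, nat_lit 72, nat_lit 61, nat_lit 100, nat_lit 228877534⟩]⟩
noncomputable def p024_l76 : Lf2 := ⟨nat_lit 0, nat_lit 10, [nat_lit 0, nat_lit 5, nat_lit 5, nat_lit 20], false, nat_lit 0, nat_lit 0, nat_lit 0, nat_lit 0, ⟨nat_lit 1000, nat_lit 0, nat_lit 0, nat_lit 0, nat_lit 0, nat_lit 0, nat_lit 0, nat_lit 0, nat_lit 0, nat_lit 0, nat_lit 0, nat_lit 0, nat_lit 0, nat_lit 0, nat_lit 0, nat_lit 0, false, false⟩,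
 nat_lit 0, nat_lit 0, nat_lit 8102, nat_lit 0, nat_lit 5355, nat_lit 6076, nat_lit 0, nat_lit 0, nat_lit 0, nat_lit 254, nat_lit 0, nat_lit 0, nat_lit 0, nat_lit 0, nat_lit 0, nat_lit 0, nat_lit 0, nat_lit 0, [],
 ⟨p024_k13, nat_lit 0, nat_lit 0, nat_lit 180, nat_lit 0, nat_lit 0, [nat_lit 2032000001, nat_lit 4688000000, nat_lit 6250000000], [], [nat_lit 25968940395, nat_lit 29383110030, nat_lit 37463104840, nat_lit 39293514020], nat_lit 0, nat_lit 0, nat_lit 0, nat_lit 0, nat_lit 0, nat_lit 0, [], [nat_lit 6, nat_lit 40, nat_lit 80, nat_lit 80, nat_lit 3, nat_lit 317, nat_lit 100, nat_lit 12]⟩, ⟨p024_k13, nat_lit 0, nat_lit 0, nat_lit 432, nat_lit 0, nat_lit 760103, [nat_lit 2032000000, nat_lit 4688000000, nat_lit 6250000000], [], [nat_lit 32496835412, nat_lit 33493238980, nat_lit 39063686640, nat_lit 39638695824], nat_lit 1271250, nat_lit 1271250, nat_lit 936251, nat_lit 3113750, nat_lit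 0, nat_lit 0, [nat_lit 490000, nat_lit 1100000, nat_lit 1442500], [nat_lit 6, nat_lit 40, nat_lit 80, nat_lit 80, nat_lit 3, nat_lit 317, nat_lit 100, nat_lit 12]⟩,
 zbF0, [⟨nat_lit 0, nat_lit 72, nat_lit 61, nat_lit 100, nat_lit 241577200⟩]⟩
noncomputable def p024_l77 : Lf2 := ⟨nat_lit 0, nat_lit 10, [nat_lit 0, nat_lit 5, nat_lit 5, nat_lit 20], false, nat_lit 0, nat_lit 0, nat_lit 0, nat_lit 0, ⟨nat_lit 1000, nat_lit 0, nat_lit 0, nat_lit 0, nat_lit 0, nat_lit 0, nat_lit 0, nat_lit 0, nat_lit 0, nat_lit 0, nat_lit 0, nat_lit 0, nat_lit 0, nat_lit 0, nat_lit 0, nat_lit 0, false, false⟩,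
 nat_lit 0, nat_lit 7938, nat_lit 0, nat_lit 0, nat_lit 5953, nat_lit 5773, nat_lit 247, nat_lit 0, nat_lit 0, nat_lit 0, nat_lit 0, nat_lit 0, nat_lit 0, nat_lit 0, nat_lit 0, nat_lit 0, nat_lit 0, nat_lit 0, [],
 ⟨p024_k13, nat_lit 0, nat_lit 0, nat_lit 428, nat_lit 0, nat_lit 740512, [nat_lit 2032000001, nat_lit 4688000000, nat_lit 6250000000], [], [nat_lit 32993004811, nat_lit 34968387143, nat_lit 39504817420, nat_lit 40640575460], nat_lit 1271250, nat_lit 1271250, nat_lit 936251, nat_lit 3113750, nat_lit 0, nat_lit 0, [nat_lit 490000, nat_lit 1100000, nat_lit 1442500], [nat_lit 6, nat_lit 40, nat_lit 80, nat_lit 80, nat_lit 3, nat_lit 317, nat_lit 100, nat_lit 12]⟩, ⟨p024_k13, nat_lit 0, nat_lit 0, nat_lit 176, nat_lit 0, nat_lit 0, [nat_lit 2032000000, nat_lit 4688000000, nat_lit 6250000000], [], [nat_lit 25570774077, nat_lit 27356638728, nat_lit 37665065052, nat_lit 38756740594],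 nat_lit 0, nat_lit 0, nat_lit 0, nat_lit 0, nat_lit 0, nat_lit 0, [], [nat_lit 6, nat_lit 40, nat_lit 80, nat_lit 80, nat_lit 3, nat_lit 317, nat_lit 100, nat_lit 12]⟩,
 zbF0, [⟨nat_lit 0, nat_lit 72, nat_lit 61, nat_lit 100, nat_lit 196986579⟩]⟩
noncomputable def p024_l78 : Lf2 := ⟨nat_lit 0, nat_lit 10, [nat_lit 0, nat_lit 5, nat_lit 5, nat_lit 20], false, nat_lit 0, nat_lit 0, nat_lit 0, nat_lit 0, ⟨nat_lit 1000, nat_lit 0, nat_lit 0, nat_lit 0, nat_lit 0, nat_lit 0, nat_lit 0, nat_lit 0, nat_lit 0, nat_lit 0, nat_lit 0, nat_lit 0, nat_lit 0, nat_lit 0, nat_lit 0, nat_lit 0, false, false⟩,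
 nat_lit 6507, nat_lit 0, nat_lit 3975, nat_lit 0, nat_lit 4880, nat_lit 7861, nat_lit 0, nat_lit 0, nat_lit 0, nat_lit 0, nat_lit 0, nat_lit 0, nat_lit 0, nat_lit 0, nat_lit 0, nat_lit 0, nat_lit 0, nat_lit 0, [],
 ⟨p024_k13, nat_lit 0, nat_lit 0, nat_lit 315, nat_lit 0, nat_lit 407478, [nat_lit 2032000001, nat_lit 4688000000, nat_lit 6250000000], [], [nat_lit 34698763841, nat_lit 36923142721, nat_lit 42719853440, nat_lit 44063576960], nat_lit 1271250, nat_lit 1271250, nat_lit 936251, nat_lit 3113750, nat_lit 0, nat_lit 0, [nat_lit 490000, nat_lit 1100000, nat_lit 1442500], [nat_lit 6, nat_lit 40, nat_lit 80, nat_lit 80, nat_lit 3, nat_lit 317, nat_lit 100, nat_lit 12]⟩, ⟨p024_k13, nat_lit 0, nat_lit 0, nat_lit 312, nat_lit 0, nat_lit 407478, [nat_lit 2032000000, nat_lit 4688000000, nat_lit 6250000000], [], [nat_lit 28866102423, nat_lit 30416385992, nat_lit 43267087916, nat_lit 44843798664],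 nat_lit 1271250, nat_lit 1271250, nat_lit 936251, nat_lit 3113750, nat_lit 0, nat_lit 0, [nat_lit 490000, nat_lit 1100000, nat_lit 1442500], [nat_lit 6, nat_lit 40, nat_lit 80, nat_lit 80, nat_lit 3, nat_lit 317, nat_lit 100, nat_lit 12]⟩,
 zbF0, []⟩
noncomputable def p024_l79 : Lf2 := ⟨nat_lit 0, nat_lit 10, [nat_lit 0, nat_lit 5, nat_lit 5, nat_lit 20], false, nat_lit 0, nat_lit 0, nat_lit 0, nat_lit 0, ⟨nat_lit 1000, nat_lit 0, nat_lit 0, nat_lit 0, nat_lit 0, nat_lit 0, nat_lit 0, nat_lit 0, nat_lit 0, nat_lit 0, nat_lit 0, nat_lit 0, nat_lit 0, nat_lit 0, nat_lit 0, nat_lit 0, false, false⟩,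
 nat_lit 0, nat_lit 7938, nat_lit 0, nat_lit 0, nat_lit 5953, nat_lit 5773, nat_lit 247, nat_lit 0, nat_lit 0, nat_lit 0, nat_lit 0, nat_lit 0, nat_lit 0, nat_lit 0, nat_lit 0, nat_lit 0, nat_lit 0, nat_lit 0, [],
 ⟨p024_k13, nat_lit 0, nat_lit 0, nat_lit 428, nat_lit 0, nat_lit 740512, [nat_lit 2032000001, nat_lit 4688000000, nat_lit 6250000000], [], [nat_lit 32993004811, nat_lit 34968387143, nat_lit 39504817420, nat_lit 40640575460], nat_lit 1271250, nat_lit 1271250, nat_lit 936251, nat_lit 3113750, nat_lit 0, nat_lit 0, [nat_lit 490000, nat_lit 1100000, nat_lit 1442500], [nat_lit 6, nat_lit 40, nat_lit 80, nat_lit 80, nat_lit 3, nat_lit 317, nat_lit 100, nat_lit 12]⟩, ⟨p024_k13, nat_lit 0, nat_lit 0, nat_lit 176, nat_lit 0, nat_lit 0, [nat_lit 2032000000, nat_lit 4688000000, nat_lit 6250000000], [], [nat_lit 25570774077, nat_lit 27356638728, nat_lit 37665065052, nat_lit 38756740594],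 nat_lit 0, nat_lit 0, nat_lit 0, nat_lit 0, nat_lit 0, nat_lit 0, [], [nat_lit 6, nat_lit 40, nat_lit 80, nat_lit 80, nat_lit 3, nat_lit 317, nat_lit 100, nat_lit 12]⟩,
 zbF0, [⟨nat_lit 0, nat_lit 72, nat_lit 61, nat_lit 100, nat_lit 196986579⟩]⟩
noncomputable def p024_l80 : Lf2 := ⟨nat_lit 0, nat_lit 10, [nat_lit 0, nat_lit 5, nat_lit 5, nat_lit 20], false, nat_lit 0, nat_lit 0, nat_lit 0, nat_lit 0, ⟨nat_lit 1000, nat_lit 0, nat_lit 0, nat_lit 0, nat_lit 0, nat_lit 0, nat_lit 0, nat_lit 0, nat_lit 0, nat_lit 0, nat_lit 0, nat_lit 0, nat_lit 0, nat_lit 0, nat_lit 0, nat_lit 0, false, false⟩,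
 nat_lit 6507, nat_lit 0, nat_lit 3975, nat_lit 0, nat_lit 4880, nat_lit 7861, nat_lit 0, nat_lit 0, nat_lit 0, nat_lit 0, nat_lit 0, nat_lit 0, nat_lit 0, nat_lit 0, nat_lit 0, nat_lit 0, nat_lit 0, nat_lit 0, [],
 ⟨p024_k13, nat_lit 0, nat_lit 0, nat_lit 315, nat_lit 0, nat_lit 407478, [nat_lit 2032000001, nat_lit 4688000000, nat_lit 6250000000], [], [nat_lit 34698763841, nat_lit 36923142721, nat_lit 42719853440, nat_lit 44063576960], nat_lit 1271250, nat_lit 1271250, nat_lit 936251, nat_lit 3113750, nat_lit 0, nat_lit 0, [nat_lit 490000, nat_lit 1100000, nat_lit 1442500], [nat_lit 6, nat_lit 40, nat_lit 80, nat_lit 80, nat_lit 3, nat_lit 317, nat_lit 100, nat_lit 12]⟩, ⟨p024_k13, nat_lit 0, nat_lit 0, nat_lit 312, nat_lit 0, nat_lit 407478, [nat_lit 2032000000, nat_lit 4688000000, nat_lit 6250000000], [], [nat_lit 28866102423, nat_lit 30416385992, nat_lit 43267087916, nat_lit 44843798664],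 nat_lit 1271250, nat_lit 1271250, nat_lit 936251, nat_lit 3113750, nat_lit 0, nat_lit 0, [nat_lit 490000, nat_lit 1100000, nat_lit 1442500], [nat_lit 6, nat_lit 40, nat_lit 80, nat_lit 80, nat_lit 3, nat_lit 317, nat_lit 100, nat_lit 12]⟩,
 zbF0, []⟩
noncomputable def p024_l81 : Lf2 := ⟨nat_lit 0, nat_lit 10, [nat_lit 0, nat_lit 5, nat_lit 5, nat_lit 20], false, nat_lit 0, nat_lit 0, nat_lit 0, nat_lit 0, ⟨nat_lit 1000, nat_lit 0, nat_lit 0, nat_lit 0, nat_lit 0, nat_lit 0, nat_lit 0, nat_lit 0, nat_lit 0, nat_lit 0, nat_lit 0, nat_lit 0, nat_lit 0, nat_lit 0, nat_lit 0, nat_lit 0, false, false⟩,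
 nat_lit 0, nat_lit 8059, nat_lit 9555, nat_lit 15456, nat_lit 6044, nat_lit 7166, nat_lit 0, nat_lit 0, nat_lit 0, nat_lit 0, nat_lit 0, nat_lit 0, nat_lit 0, nat_lit 0, nat_lit 0, nat_lit 0, nat_lit 0, nat_lit 0, [],
 ⟨p024_k13, nat_lit 0, nat_lit 0, nat_lit 257, nat_lit 0, nat_lit 240352, [nat_lit 2032000001, nat_lit 4688000000, nat_lit 6250000000], [], [nat_lit 29921763396, nat_lit 32773997932, nat_lit 39295935008, nat_lit 40907882224], nat_lit 1271250, nat_lit 1271250, nat_lit 936251, nat_lit 3113750, nat_lit 0, nat_lit 0, [nat_lit 490000, nat_lit 1100000, nat_lit 1442500], [nat_lit 6, nat_lit 40, nat_lit 80, nat_lit 80, nat_lit 3, nat_lit 317, nat_lit 100, nat_lit 12]⟩, ⟨p024_k13, nat_lit 0, nat_lit 0, nat_lit 255, nat_lit 0, nat_lit 246547, [nat_lit 2032000000, nat_lit 4688000000, nat_lit 6250000000], [], [nat_lit 27803156994, nat_lit 29380853096, nat_lit 41322647496, nat_lit 42817161984],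 nat_lit 1271250, nat_lit 1271250, nat_lit 936251, nat_lit 3113750, nat_lit 0, nat_lit 0, [nat_lit 490000, nat_lit 1100000, nat_lit 1442500], [nat_lit 6, nat_lit 40, nat_lit 80, nat_lit 80, nat_lit 3, nat_lit 317, nat_lit 100, nat_lit 12]⟩,
 zbF0, []⟩
noncomputable def b_N_800_800_0_16 : St := ⟨false, nat_lit 2, nat_lit 2, nat_lit 0, nat_lit 40, nat_lit 320, nat_lit 360, nat_lit 320, nat_lit 340, nat_lit 140, nat_lit 400, nat_lit 0, nat_lit 0, nat_lit 0, nat_lit 0, nat_lit 0, nat_lit 0, nat_lit 80, nat_lit 180, nat_lit 0, nat_lit 0, nat_lit 0, nat_lit 0⟩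
theorem d_N_800_800_0_16 (h : EB TB.env) : Dead b_N_800_800_0_16 := chkB_sound0 h (T :=
(.spl (nat_lit 6) (nat_lit 120)
(.st (nat_lit 0)
(.gv
(.st (nat_lit 1)
(.leaf p024_l65)
(.spl (nat_lit 2) (nat_lit 240)
(.leaf p024_l66)
(.spl (nat_lit 1) (nat_lit 330)
(.leaf p024_l67)
(.ord (.leaf p024_l68)))))
(.leaf p024_l69))
(.gv
(.st (nat_lit 1)
(.spl (nat_lit 0) (nat_lit 340)
(.leaf p024_l70)
(.trZ (nat_lit 0) (nat_lit 81) (nat_lit 72) (nat_lit 100) (nat_lit 168) (.leaf p024_l71)))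
(.leaf p024_l72))
(.st (nat_lit 1)
(.spl (nat_lit 0) (nat_lit 340)
(.leaf p024_l73)
(.trZ (nat_lit 0) (nat_lit 81) (nat_lit 72) (nat_lit 100) (nat_lit 168) (.leaf p024_l74)))
(.leaf p024_l75))))
(.spl (nat_lit 6) (nat_lit 160)
(.st (nat_lit 0)
(.leaf p024_l76)
(.gv
(.st (nat_lit 1)
(.leaf p024_l77)
(.leaf p024_l78))
(.st (nat_lit 1)
(.leaf p024_l79)
(.leaf p024_l80))))
(.leaf p024_l81)))) (by decide +kernel)
noncomputable def p024_l82 : Lf2 := ⟨nat_lit 0, nat_lit 10, [nat_lit 0, nat_lit 5, nat_lit 5, nat_lit 20], true, nat_lit 0, nat_lit 0, nat_lit 0, nat_lit 0, ⟨nat_lit 0, nat_lit 1000, nat_lit 0, nat_lit 4, nat_lit 180, nat_lit 0, nat_lit 0, nat_lit 0, nat_lit 0, nat_lit 0, nat_lit 0, nat_lit 0, nat_lit 55716995, nat_lit 11283005, nat_lit 0, nat_lit 2266723, false, true⟩,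
 nat_lit 0, nat_lit 0, nat_lit 0, nat_lit 0, nat_lit 2971, nat_lit 0, nat_lit 0, nat_lit 0, nat_lit 0, nat_lit 0, nat_lit 0, nat_lit 0, nat_lit 0, nat_lit 0, nat_lit 0, nat_lit 297550, nat_lit 0, nat_lit 0, [(nat_lit 24, [(nat_lit 0, nat_lit 683), (nat_lit 1, nat_lit 317)]), (nat_lit 27, [(nat_lit 0, nat_lit 683), (nat_lit 1, nat_lit 317)])],
 ⟨p024_k24, nat_lit 0, nat_lit 0, nat_lit 180, nat_lit 0, nat_lit 0, [nat_lit 839381601, nat_lit 1467469600], [], [nat_lit 21571357855, nat_lit 25288288091, nat_lit 27362248923, nat_lit 29586061076], nat_lit 0, nat_lit 0, nat_lit 0, nat_lit 0, nat_lit 0, nat_lit 0, [], [nat_lit 86, nat_lit 40, nat_lit 80, nat_lit 80, nat_lit 87, nat_lit 317, nat_lit 100, nat_lit 15]⟩, C1.Rw.none,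
 ⟨nat_lit 0, nat_lit 3163, ⟨.ofNat (nat_lit 216927), .ofNat (nat_lit 638543), .ofNat (nat_lit 258627), .ofNat (nat_lit 682855), .ofNat (nat_lit 252860), .ofNat (nat_lit 599993), .ofNat (nat_lit 300250), .ofNat (nat_lit 649995)⟩, ⟨.ofNat (nat_lit 0), .ofNat (nat_lit 0), .ofNat (nat_lit 0), .ofNat (nat_lit 0), .ofNat (nat_lit 0), .ofNat (nat_lit 0), .ofNat (nat_lit 0), .ofNat (nat_lit 0)⟩⟩, [⟨nat_lit 13, nat_lit 44, nat_lit 94, nat_lit 100, nat_lit 85059205⟩]⟩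
noncomputable def p024_l83 : Lf2 := ⟨nat_lit 0, nat_lit 10, [nat_lit 0, nat_lit 5, nat_lit 5, nat_lit 20], true, nat_lit 0, nat_lit 0, nat_lit 0, nat_lit 0, ⟨nat_lit 0, nat_lit 61, nat_lit 939, nat_lit 4, nat_lit 111, nat_lit 0, nat_lit 0, nat_lit 0, nat_lit 0, nat_lit 215, nat_lit 114817, nat_lit 298, nat_lit 62235165, nat_lit 4764835, nat_lit 0, nat_lit 1282588, false, false⟩,
 nat_lit 0, nat_lit 3240, nat_lit 0, nat_lit 0, nat_lit 2821, nat_lit 0, nat_lit 0, nat_lit 0, nat_lit 0, nat_lit 0, nat_lit 0, nat_lit 0, nat_lit 0, nat_lit 0, nat_lit 58, nat_lit 250000, nat_lit 0, nat_lit 0, [(nat_lit 24, [(nat_lit 0, nat_lit 61), (nat_lit 4, nat_lit 939)])],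
 ⟨p024_k24, nat_lit 0, nat_lit 0, nat_lit 409, nat_lit 0, nat_lit 727752, [nat_lit 1017360400, nat_lit 55890400], [], [nat_lit 20666323274, nat_lit 22703933502, nat_lit 19854822788, nat_lit 21562538654], nat_lit 1271250, nat_lit 1271250, nat_lit 279600, nat_lit 490000, nat_lit 0, nat_lit 0, [nat_lit 230000, nat_lit 1100000], [nat_lit 86, nat_lit 40, nat_lit 80, nat_lit 80, nat_lit 87, nat_lit 226, nat_lit 20, nat_lit 10]⟩, C1.Rw.none,
 ⟨nat_lit 2236, nat_lit 3163, ⟨.ofNat (nat_lit 223799), .ofNat (nat_lit 272645), .ofNat (nat_lit 267982), .ofNat (nat_lit 316827), .ofNat (nat_lit 237524), .ofNat (nat_lit 283220), .ofNat (nat_lit 282946), .ofNat (nat_lit 328641)⟩, ⟨.ofNat (nat_lit 0), .ofNat (nat_lit 0), .ofNat (nat_lit 0), .ofNat (nat_lit 0), .ofNat (nat_lit 0), .ofNat (nat_lit 0), .ofNat (nat_lit 0), .ofNat (nat_lit 0)⟩⟩, [⟨nat_lit 0, nat_lit 100, nat_lit 53, nat_lit 80, nat_lit 422504119⟩]⟩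
noncomputable def p024_l84 : Lf2 := ⟨nat_lit 0, nat_lit 10, [nat_lit 0, nat_lit 5, nat_lit 5, nat_lit 20], false, nat_lit 0, nat_lit 0, nat_lit 0, nat_lit 0, ⟨nat_lit 133, nat_lit 0, nat_lit 867, nat_lit 4, nat_lit 139, nat_lit 0, nat_lit 0, nat_lit 0, nat_lit 0, nat_lit 215, nat_lit 180267, nat_lit 319, nat_lit 59816795, nat_lit 0, nat_lit 0, nat_lit 1703229, false, false⟩,
 nat_lit 0, nat_lit 3463, nat_lit 0, nat_lit 0, nat_lit 3016, nat_lit 4813, nat_lit 0, nat_lit 0, nat_lit 0, nat_lit 625, nat_lit 0, nat_lit 0, nat_lit 0, nat_lit 0, nat_lit 30, nat_lit 247200, nat_lit 0, nat_lit 0, [(nat_lit 24, [(nat_lit 4, nat_lit 664), (nat_lit 5, nat_lit 203)])],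
 ⟨p024_k25, nat_lit 0, nat_lit 0, nat_lit 511, nat_lit 0, nat_lit 1055425, [nat_lit 875030001, nat_lit 354368134, nat_lit 29535666], [], [nat_lit 20424454996, nat_lit 21056862660, nat_lit 21772802239, nat_lit 22397234127], nat_lit 1271250, nat_lit 1271250, nat_lit 490000, nat_lit 1100001, nat_lit 0, nat_lit 0, [nat_lit 230000, nat_lit 780000, nat_lit 1100000], [nat_lit 35, nat_lit 40, nat_lit 80, nat_lit 80, nat_lit 22, nat_lit 249, nat_lit 40, nat_lit 11]⟩, ⟨p024_k26, nat_lit 0, nat_lit 0, nat_lit 397, nat_lit 0, nat_lit 0, [nat_lit 1059744000, nat_lit 1578976000, nat_lit 1869714000], [], [nat_lit 5024404952, nat_lit 4985406326, nat_lit 3785205336, nat_lit 3955574352], nat_lit 0, nat_lit 0, nat_lit 0, nat_lit 0, nat_lit 0, nat_lit 0, [], [nat_lit 62, nat_lit 40, nat_lit 80, nat_lit 80, nat_lit 58, nat_lit 317, nat_lit 100, nat_lit 8]⟩,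
 ⟨nat_lit 2738, nat_lit 3163, ⟨.ofNat (nat_lit 272799), .ofNat (nat_lit 394735), .ofNat (nat_lit 294942), .ofNat (nat_lit 416885), .ofNat (nat_lit 277950), .ofNat (nat_lit 396102), .ofNat (nat_lit 300356), .ofNat (nat_lit 418514)⟩, ⟨.ofNat (nat_lit 0), .ofNat (nat_lit 0), .ofNat (nat_lit 0), .ofNat (nat_lit 0), .ofNat (nat_lit 0), .ofNat (nat_lit 0), .ofNat (nat_lit 0), .ofNat (nat_lit 0)⟩⟩, []⟩
noncomputable def p024_l85 : Lf2 := ⟨nat_lit 0, nat_lit 10, [nat_lit 0, nat_lit 5, nat_lit 5, nat_lit 20], false, nat_lit 0, nat_lit 0, nat_lit 0, nat_lit 0, ⟨nat_lit 131, nat_lit 0, nat_lit 869, nat_lit 4, nat_lit 140, nat_lit 0, nat_lit 0, nat_lit 0, nat_lit 0, nat_lit 215, nat_lit 183750, nat_lit 320, nat_lit 59721054, nat_lit 0, nat_lit 0, nat_lit 1718320, false, false⟩,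
 nat_lit 0, nat_lit 3400, nat_lit 0, nat_lit 0, nat_lit 3068, nat_lit 4741, nat_lit 16, nat_lit 0, nat_lit 0, nat_lit 616, nat_lit 0, nat_lit 0, nat_lit 0, nat_lit 0, nat_lit 22, nat_lit 217250, nat_lit 0, nat_lit 0, [(nat_lit 24, [(nat_lit 4, nat_lit 869)])],
 ⟨p024_k27, nat_lit 0, nat_lit 0, nat_lit 511, nat_lit 0, nat_lit 1049589, [nat_lit 842119601, nat_lit 320967200, nat_lit 49264200], [], [nat_lit 21401889435, nat_lit 21711110428, nat_lit 22699137552, nat_lit 23004048120], nat_lit 1271250, nat_lit 1271250, nat_lit 490000, nat_lit 1100001, nat_lit 0, nat_lit 0, [nat_lit 230000, nat_lit 780000, nat_lit 1100000], [nat_lit 35, nat_lit 40, nat_lit 80, nat_lit 80, nat_lit 22, nat_lit 249, nat_lit 40, nat_lit 11]⟩, ⟨p024_k26, nat_lit 0, nat_lit 0, nat_lit 397, nat_lit 0, nat_lit 0, [nat_lit 1043808000, nat_lit 1555232000, nat_lit 1841598000], [], [nat_lit 4948763264, nat_lit 4910343082, nat_lit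 3728287752, nat_lit 3896102264], nat_lit 0, nat_lit 0, nat_lit 0, nat_lit 0, nat_lit 0, nat_lit 0, [], [nat_lit 62, nat_lit 40, nat_lit 80, nat_lit 80, nat_lit 58, nat_lit 317, nat_lit 100, nat_lit 8]⟩,
 ⟨nat_lit 2500, nat_lit 2739, ⟨.ofNat (nat_lit 277968), .ofNat (nat_lit 396102), .ofNat (nat_lit 300381), .ofNat (nat_lit 418518), .ofNat (nat_lit 280632), .ofNat (nat_lit 396773), .ofNat (nat_lit 303208), .ofNat (nat_lit 419351)⟩, ⟨.ofNat (nat_lit 0), .ofNat (nat_lit 0), .ofNat (nat_lit 0), .ofNat (nat_lit 0), .ofNat (nat_lit 0), .ofNat (nat_lit 0), .ofNat (nat_lit 0), .ofNat (nat_lit 0)⟩⟩, [⟨nat_lit 0, nat_lit 100, nat_lit 49, nat_lit 83, nat_lit 62928201⟩]⟩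
noncomputable def p024_l86 : Lf2 := ⟨nat_lit 0, nat_lit 10, [nat_lit 0, nat_lit 5, nat_lit 5, nat_lit 20], false, nat_lit 0, nat_lit 0, nat_lit 0, nat_lit 0, ⟨nat_lit 119, nat_lit 0, nat_lit 881, nat_lit 4, nat_lit 140, nat_lit 0, nat_lit 0, nat_lit 0, nat_lit 0, nat_lit 215, nat_lit 183750, nat_lit 320, nat_lit 59655017, nat_lit 0, nat_lit 0, nat_lit 1728667, false, false⟩,
 nat_lit 0, nat_lit 3306, nat_lit 0, nat_lit 0, nat_lit 3036, nat_lit 4603, nat_lit 0, nat_lit 0, nat_lit 0, nat_lit 602, nat_lit 0, nat_lit 0, nat_lit 0, nat_lit 0, nat_lit 0, nat_lit 220250, nat_lit 0, nat_lit 0, [(nat_lit 24, [(nat_lit 4, nat_lit 881)])],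
 ⟨p024_k28, nat_lit 0, nat_lit 0, nat_lit 442, nat_lit 0, nat_lit 1066196, [nat_lit 751580401, nat_lit 12432800], [], [nat_lit 21814451969, nat_lit 22148411632, nat_lit 23110573624, nat_lit 23413976160], nat_lit 1271250, nat_lit 1271250, nat_lit 490000, nat_lit 1100001, nat_lit 0, nat_lit 0, [nat_lit 230000, nat_lit 780000], [nat_lit 66, nat_lit 40, nat_lit 80, nat_lit 80, nat_lit 67, nat_lit 249, nat_lit 40, nat_lit 14]⟩, ⟨p024_k26, nat_lit 0, nat_lit 0, nat_lit 397, nat_lit 0, nat_lit 0, [nat_lit 948192000, nat_lit 1412768000, nat_lit 1672902000], [], [nat_lit 4427089688, nat_lit 4547453330, nat_lit 3388969608, nat_lit 3547272416], nat_lit 0, nat_lit 0, nat_lit 0, nat_lit 0, nat_lit 0, nat_lit 0, [], [nat_lit 62, nat_lit 40, nat_lit 80, nat_lit 80, nat_lit 58, nat_lit 317, nat_lit 100, nat_lit 8]⟩,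
 ⟨nat_lit 2236, nat_lit 2500, ⟨.ofNat (nat_lit 280625), .ofNat (nat_lit 396773), .ofNat (nat_lit 303200), .ofNat (nat_lit 419350), .ofNat (nat_lit 283385), .ofNat (nat_lit 397434), .ofNat (nat_lit 306154), .ofNat (nat_lit 420205)⟩, ⟨.ofNat (nat_lit 0), .ofNat (nat_lit 0), .ofNat (nat_lit 0), .ofNat (nat_lit 0), .ofNat (nat_lit 0), .ofNat (nat_lit 0), .ofNat (nat_lit 0), .ofNat (nat_lit 0)⟩⟩, [⟨nat_lit 0, nat_lit 100, nat_lit 47, nat_lit 82, nat_lit 182739643⟩]⟩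
noncomputable def p024_l87 : Lf2 := ⟨nat_lit 0, nat_lit 10, [nat_lit 0, nat_lit 5, nat_lit 5, nat_lit 20], false, nat_lit 0, nat_lit 0, nat_lit 0, nat_lit 0, ⟨nat_lit 203, nat_lit 0, nat_lit 797, nat_lit 4, nat_lit 148, nat_lit 0, nat_lit 0, nat_lit 0, nat_lit 0, nat_lit 215, nat_lit 205350, nat_lit 326, nat_lit 58908315, nat_lit 0, nat_lit 0, nat_lit 1842293, false, false⟩,
 nat_lit 0, nat_lit 3652, nat_lit 0, nat_lit 0, nat_lit 3180, nat_lit 5077, nat_lit 0, nat_lit 0, nat_lit 0, nat_lit 744, nat_lit 0, nat_lit 0, nat_lit 0, nat_lit 0, nat_lit 1, nat_lit 217100, nat_lit 0, nat_lit 0, [(nat_lit 24, [(nat_lit 4, nat_lit 678), (nat_lit 5, nat_lit 119)])],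
 ⟨p024_k25, nat_lit 0, nat_lit 0, nat_lit 564, nat_lit 0, nat_lit 1164671, [nat_lit 773640401, nat_lit 295126534, nat_lit 30254466], [], [nat_lit 21441428614, nat_lit 22544466670, nat_lit 22588516070, nat_lit 23692255190], nat_lit 1271250, nat_lit 1271250, nat_lit 490000, nat_lit 1100001, nat_lit 0, nat_lit 0, [nat_lit 230000, nat_lit 780000, nat_lit 1100000], [nat_lit 35, nat_lit 40, nat_lit 80, nat_lit 80, nat_lit 22, nat_lit 249, nat_lit 40, nat_lit 11]⟩, ⟨p024_k29, nat_lit 0, nat_lit 0, nat_lit 390, nat_lit 0, nat_lit 0, [nat_lit 1617504000, nat_lit 2410016000, nat_lit 2853774000], [], [nat_lit 5702627722, nat_lit 5958531152, nat_lit 4736464112, nat_lit 4951617088], nat_lit 0, nat_lit 0, nat_lit 0, nat_lit 0, nat_lit 0, nat_lit 0, [], [nat_lit 62, nat_lit 40, nat_lit 80, nat_lit 80, nat_lit 58, nat_lit 317, nat_lit 100, nat_lit 8]⟩,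
 ⟨nat_lit 2236, nat_lit 3163, ⟨.ofNat (nat_lit 294736), .ofNat (nat_lit 416851), .ofNat (nat_lit 316827), .ofNat (nat_lit 438942), .ofNat (nat_lit 305930), .ofNat (nat_lit 420169), .ofNat (nat_lit 328641), .ofNat (nat_lit 442880)⟩, ⟨.ofNat (nat_lit 0), .ofNat (nat_lit 0), .ofNat (nat_lit 0), .ofNat (nat_lit 0), .ofNat (nat_lit 0), .ofNat (nat_lit 0), .ofNat (nat_lit 0), .ofNat (nat_lit 0)⟩⟩, [⟨nat_lit 0, nat_lit 100, nat_lit 44, nat_lit 90, nat_lit 320105219⟩]⟩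
noncomputable def p024_l88 : Lf2 := ⟨nat_lit 0, nat_lit 10, [nat_lit 0, nat_lit 5, nat_lit 5, nat_lit 20], false, nat_lit 0, nat_lit 0, nat_lit 0, nat_lit 0, ⟨nat_lit 98, nat_lit 0, nat_lit 902, nat_lit 4, nat_lit 145, nat_lit 0, nat_lit 0, nat_lit 0, nat_lit 0, nat_lit 215, nat_lit 198017, nat_lit 324, nat_lit 59222865, nat_lit 0, nat_lit 0, nat_lit 1795169, false, false⟩,
 nat_lit 0, nat_lit 3004, nat_lit 0, nat_lit 0, nat_lit 2807, nat_lit 2883, nat_lit 0, nat_lit 0, nat_lit 0, nat_lit 331, nat_lit 0, nat_lit 0, nat_lit 0, nat_lit 0, nat_lit 138, nat_lit 437000, nat_lit 0, nat_lit 0, [(nat_lit 27, [(nat_lit 5, nat_lit 775), (nat_lit 6, nat_lit 127)])],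
 ⟨p024_k30, nat_lit 0, nat_lit 0, nat_lit 491, nat_lit 0, nat_lit 1164637, [nat_lit 1171822400, nat_lit 11742400], [], [nat_lit 22061754175, nat_lit 22668918590, nat_lit 23343443082, nat_lit 23892976163], nat_lit 1271250, nat_lit 1271250, nat_lit 462650, nat_lit 1100001, nat_lit 0, nat_lit 0, [nat_lit 230000, nat_lit 780000], [nat_lit 66, nat_lit 40, nat_lit 80, nat_lit 80, nat_lit 67, nat_lit 249, nat_lit 40, nat_lit 14]⟩, ⟨p024_k26, nat_lit 0, nat_lit 0, nat_lit 402, nat_lit 0, nat_lit 0, [nat_lit 780864000, nat_lit 1163456000, nat_lit 1377684000], [], [nat_lit 3972485637, nat_lit 3967418465, nat_lit 3060420692, nat_lit 3008988008], nat_lit 0, nat_lit 0, nat_lit 0, nat_lit 0, nat_lit 0, nat_lit 0, [], [nat_lit 62, nat_lit 40, nat_lit 80, nat_lit 80, nat_lit 58, nat_lit 317, nat_lit 100, nat_lit 8]⟩,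
 ⟨nat_lit 1581, nat_lit 2237, ⟨.ofNat (nat_lit 277529), .ofNat (nat_lit 397434), .ofNat (nat_lit 322986), .ofNat (nat_lit 442898), .ofNat (nat_lit 283825), .ofNat (nat_lit 398733), .ofNat (nat_lit 330363), .ofNat (nat_lit 445278)⟩, ⟨.ofNat (nat_lit 0), .ofNat (nat_lit 0), .ofNat (nat_lit 0), .ofNat (nat_lit 0), .ofNat (nat_lit 0), .ofNat (nat_lit 0), .ofNat (nat_lit 0), .ofNat (nat_lit 0)⟩⟩, [⟨nat_lit 0, nat_lit 100, nat_lit 31, nat_lit 95, nat_lit 224977655⟩]⟩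
noncomputable def p024_l89 : Lf2 := ⟨nat_lit 0, nat_lit 10, [nat_lit 0, nat_lit 5, nat_lit 5, nat_lit 20], false, nat_lit 0, nat_lit 0, nat_lit 0, nat_lit 0, ⟨nat_lit 366, nat_lit 0, nat_lit 634, nat_lit 4, nat_lit 153, nat_lit 0, nat_lit 0, nat_lit 0, nat_lit 0, nat_lit 215, nat_lit 220417, nat_lit 330, nat_lit 58442855, nat_lit 0, nat_lit 0, nat_lit 1910131, false, false⟩,
 nat_lit 0, nat_lit 3182, nat_lit 0, nat_lit 0, nat_lit 3076, nat_lit 4332, nat_lit 0, nat_lit 0, nat_lit 0, nat_lit 570, nat_lit 0, nat_lit 0, nat_lit 0, nat_lit 0, nat_lit 0, nat_lit 253600, nat_lit 0, nat_lit 0, [(nat_lit 27, [(nat_lit 5, nat_lit 634)])],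
 ⟨p024_k31, nat_lit 0, nat_lit 0, nat_lit 497, nat_lit 0, nat_lit 1193905, [nat_lit 719143200, nat_lit 74720800], [], [nat_lit 23453298534, nat_lit 24379221468, nat_lit 24336048884, nat_lit 24908818992], nat_lit 1271250, nat_lit 1271250, nat_lit 631250, nat_lit 1100001, nat_lit 0, nat_lit 0, [nat_lit 230000, nat_lit 780000], [nat_lit 66, nat_lit 40, nat_lit 80, nat_lit 80, nat_lit 67, nat_lit 249, nat_lit 40, nat_lit 14]⟩, ⟨p024_k26, nat_lit 0, nat_lit 0, nat_lit 384, nat_lit 0, nat_lit 0, [nat_lit 2916288000, nat_lit 4345152000, nat_lit 5145228000], [], [nat_lit 11599209066, nat_lit 12000535530, nat_lit 11230319232, nat_lit 11555545008], nat_lit 0, nat_lit 0, nat_lit 0, nat_lit 0, nat_lit 0, nat_lit 0, [], [nat_lit 62, nat_lit 40, nat_lit 80, nat_lit 80, nat_lit 58, nat_lit 317, nat_lit 100, nat_lit 8]⟩,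
 ⟨nat_lit 0, nat_lit 1582, ⟨.ofNat (nat_lit 314816), .ofNat (nat_lit 398733), .ofNat (nat_lit 360133), .ofNat (nat_lit 444052), .ofNat (nat_lit 323036), .ofNat (nat_lit 399999), .ofNat (nat_lit 371722), .ofNat (nat_lit 448688)⟩, ⟨.ofNat (nat_lit 0), .ofNat (nat_lit 0), .ofNat (nat_lit 0), .ofNat (nat_lit 0), .ofNat (nat_lit 0), .ofNat (nat_lit 0), .ofNat (nat_lit 0), .ofNat (nat_lit 0)⟩⟩, [⟨nat_lit 0, nat_lit 100, nat_lit 32, nat_lit 89, nat_lit 608405945⟩]⟩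
noncomputable def p024_l90 : Lf2 := ⟨nat_lit 0, nat_lit 10, [nat_lit 0, nat_lit 5, nat_lit 5, nat_lit 20], false, nat_lit 0, nat_lit 0, nat_lit 0, nat_lit 0, ⟨nat_lit 606, nat_lit 0, nat_lit 394, nat_lit 4, nat_lit 215, nat_lit 0, nat_lit 0, nat_lit 0, nat_lit 0, nat_lit 215, nat_lit 94468, nat_lit 200, nat_lit 52025729, nat_lit 0, nat_lit 0, nat_lit 2656488, false, true⟩,
 nat_lit 0, nat_lit 4338, nat_lit 0, nat_lit 0, nat_lit 3777, nat_lit 7204, nat_lit 0, nat_lit 0, nat_lit 0, nat_lit 851, nat_lit 0, nat_lit 0, nat_lit 0, nat_lit 0, nat_lit 0, nat_lit 247600, nat_lit 0, nat_lit 0, [(nat_lit 24, [(nat_lit 5, nat_lit 244), (nat_lit 6, nat_lit 150)])],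
 ⟨p024_k25, nat_lit 0, nat_lit 0, nat_lit 536, nat_lit 0, nat_lit 1184023, [nat_lit 948875200, nat_lit 1464143467, nat_lit 1657297600], [], [nat_lit 25975459545, nat_lit 26764088583, nat_lit 29589616021, nat_lit 30338510846], nat_lit 1271250, nat_lit 1271250, nat_lit 1100001, nat_lit 2470000, nat_lit 0, nat_lit 0, [nat_lit 230000, nat_lit 780000, nat_lit 1100000], [nat_lit 35, nat_lit 40, nat_lit 80, nat_lit 80, nat_lit 22, nat_lit 222, nat_lit 0, nat_lit 9]⟩, ⟨p024_k26, nat_lit 0, nat_lit 0, nat_lit 300, nat_lit 0, nat_lit 0, [nat_lit 4828608000, nat_lit 7194432000, nat_lit 8519148000], [], [nat_lit 18730108965, nat_lit 19325356957, nat_lit 24532073685, nat_lit 24758587360], nat_lit 0, nat_lit 0, nat_lit 0, nat_lit 0, nat_lit 0, nat_lit 0, [], [nat_lit 62, nat_lit 40, nat_lit 80, nat_lit 80, nat_lit 58, nat_lit 373, nat_lit 150, nat_lit 9]⟩,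
 ⟨nat_lit 2236, nat_lit 3163, ⟨.ofNat (nat_lit 394735), .ofNat (nat_lit 638549), .ofNat (nat_lit 438942), .ofNat (nat_lit 682859), .ofNat (nat_lit 397434), .ofNat (nat_lit 625497), .ofNat (nat_lit 442880), .ofNat (nat_lit 671045)⟩, ⟨.ofNat (nat_lit 0), .ofNat (nat_lit 0), .ofNat (nat_lit 0), .ofNat (nat_lit 0), .ofNat (nat_lit 0), .ofNat (nat_lit 0), .ofNat (nat_lit 0), .ofNat (nat_lit 0)⟩⟩, []⟩
noncomputable def p024_l91 : Lf2 := ⟨nat_lit 0, nat_lit 10, [nat_lit 0, nat_lit 5, nat_lit 5, nat_lit 20], false, nat_lit 0, nat_lit 0, nat_lit 0, nat_lit 0, ⟨nat_lit 1000, nat_lit 0, nat_lit 0, nat_lit 0, nat_lit 0, nat_lit 0, nat_lit 0, nat_lit 0, nat_lit 0, nat_lit 0, nat_lit 0, nat_lit 0, nat_lit 0, nat_lit 0, nat_lit 0, nat_lit 0, false, false⟩,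
 nat_lit 0, nat_lit 4364, nat_lit 0, nat_lit 0, nat_lit 4077, nat_lit 11897, nat_lit 0, nat_lit 0, nat_lit 0, nat_lit 1459, nat_lit 0, nat_lit 0, nat_lit 0, nat_lit 0, nat_lit 0, nat_lit 0, nat_lit 0, nat_lit 0, [],
 ⟨p024_k30, nat_lit 0, nat_lit 0, nat_lit 499, nat_lit 0, nat_lit 1245374, [nat_lit 938000000, nat_lit 3282000000], [], [nat_lit 25840727708, nat_lit 27007806640, nat_lit 29512346694, nat_lit 31217533121], nat_lit 1271250, nat_lit 1271250, nat_lit 1100001, nat_lit 2196000, nat_lit 0, nat_lit 0, [nat_lit 230000, nat_lit 780000], [nat_lit 66, nat_lit 40, nat_lit 80, nat_lit 80, nat_lit 67, nat_lit 211, nat_lit 0, nat_lit 11]⟩, ⟨p024_k26, nat_lit 0, nat_lit 0, nat_lit 291, nat_lit 0, nat_lit 0, [nat_lit 7968000000, nat_lit 11872000000, nat_lit 14058000000], [], [nat_lit 30628065696, nat_lit 31618856345, nat_lit 37594520254, nat_lit 37978077352], nat_lit 0, nat_lit 0, nat_lit 0,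 nat_lit 0, nat_lit 0, nat_lit 0, [], [nat_lit 62, nat_lit 40, nat_lit 80, nat_lit 80, nat_lit 58, nat_lit 345, nat_lit 125, nat_lit 8]⟩,
 zbF0, []⟩
noncomputable def p024_l92 : Lf2 := ⟨nat_lit 0, nat_lit 10, [nat_lit 0, nat_lit 5, nat_lit 5, nat_lit 20], false, nat_lit 0, nat_lit 0, nat_lit 0, nat_lit 0, ⟨nat_lit 0, nat_lit 202, nat_lit 798, nat_lit 4, nat_lit 135, nat_lit 0, nat_lit 0, nat_lit 0, nat_lit 0, nat_lit 215, nat_lit 173400, nat_lit 317, nat_lit 60115343, nat_lit 6884657, nat_lit 0, nat_lit 1655481, false, false⟩,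
 nat_lit 0, nat_lit 3145, nat_lit 0, nat_lit 0, nat_lit 2739, nat_lit 0, nat_lit 0, nat_lit 0, nat_lit 0, nat_lit 0, nat_lit 0, nat_lit 0, nat_lit 0, nat_lit 0, nat_lit 32, nat_lit 250000, nat_lit 0, nat_lit 0, [(nat_lit 24, [(nat_lit 0, nat_lit 202), (nat_lit 4, nat_lit 798)]), (nat_lit 27, [(nat_lit 0, nat_lit 202), (nat_lit 4, nat_lit 798)])],
 ⟨p024_k24, nat_lit 0, nat_lit 0, nat_lit 462, nat_lit 0, nat_lit 835568, [nat_lit 893478401, nat_lit 29770000], [], [nat_lit 21501510162, nat_lit 24442656814, nat_lit 22829579297, nat_lit 24994111766], nat_lit 1271250, nat_lit 1271250, nat_lit 279600, nat_lit 1100001, nat_lit 0, nat_lit 0, [nat_lit 230000, nat_lit 1100000], [nat_lit 86, nat_lit 40, nat_lit 80, nat_lit 80, nat_lit 87, nat_lit 249, nat_lit 40, nat_lit 11]⟩, ⟨p024_k32, nat_lit 0, nat_lit 0, nat_lit 1567, nat_lit 0, nat_lit 2439909, [nat_lit 0, nat_lit 0], [], [nat_lit 0, nat_lit 0,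 nat_lit 0, nat_lit 0], nat_lit 1100001, nat_lit 1442500, nat_lit 279600, nat_lit 1100001, nat_lit 0, nat_lit 0, [nat_lit 1695000, nat_lit 1271250], [nat_lit 121, nat_lit 40, nat_lit 80, nat_lit 80, nat_lit 28, nat_lit 437, nat_lit 100, nat_lit 11]⟩,
 ⟨nat_lit 0, nat_lit 3163, ⟨.ofNat (nat_lit 216927), .ofNat (nat_lit 394735), .ofNat (nat_lit 258627), .ofNat (nat_lit 436481), .ofNat (nat_lit 252860), .ofNat (nat_lit 399999), .ofNat (nat_lit 300250), .ofNat (nat_lit 447434)⟩, ⟨.ofNat (nat_lit 0), .ofNat (nat_lit 0), .ofNat (nat_lit 0), .ofNat (nat_lit 0), .ofNat (nat_lit 0), .ofNat (nat_lit 0), .ofNat (nat_lit 0), .ofNat (nat_lit 0)⟩⟩, []⟩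
noncomputable def p024_l93 : Lf2 := ⟨nat_lit 0, nat_lit 10, [nat_lit 0, nat_lit 5, nat_lit 5, nat_lit 20], false, nat_lit 0, nat_lit 0, nat_lit 0, nat_lit 0, ⟨nat_lit 0, nat_lit 278, nat_lit 722, nat_lit 4, nat_lit 191, nat_lit 0, nat_lit 0, nat_lit 0, nat_lit 0, nat_lit 215, nat_lit 2400, nat_lit 227, nat_lit 54559638, nat_lit 12440362, nat_lit 0, nat_lit 2399466, false, true⟩,
 nat_lit 0, nat_lit 3256, nat_lit 0, nat_lit 0, nat_lit 2835, nat_lit 0, nat_lit 0, nat_lit 0, nat_lit 0, nat_lit 0, nat_lit 0, nat_lit 0, nat_lit 0, nat_lit 0, nat_lit 20, nat_lit 250000, nat_lit 0, nat_lit 0, [(nat_lit 24, [(nat_lit 0, nat_lit 278), (nat_lit 4, nat_lit 722)])],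
 ⟨p024_k24, nat_lit 0, nat_lit 0, nat_lit 358, nat_lit 0, nat_lit 727752, [nat_lit 860239200, nat_lit 35518560], [], [nat_lit 21085355160, nat_lit 22282389340, nat_lit 23268894600, nat_lit 24338986870], nat_lit 1271250, nat_lit 1271250, nat_lit 1100001, nat_lit 1785000, nat_lit 0, nat_lit 0, [nat_lit 230000, nat_lit 1100000], [nat_lit 86, nat_lit 40, nat_lit 80, nat_lit 80, nat_lit 87, nat_lit 203, nat_lit 0, nat_lit 8]⟩, ⟨p024_k32, nat_lit 0, nat_lit 0, nat_lit 1356, nat_lit 0, nat_lit 2125082, [nat_lit 0, nat_lit 0], [], [nat_lit 0, nat_lit 0, nat_lit 0, nat_lit 0], nat_lit 1100001, nat_lit 1442500, nat_lit 1100001, nat_lit 1785000, nat_lit 0, nat_lit 0, [nat_lit 1695000, nat_lit 1271250], [nat_lit 121, nat_lit 40, nat_lit 80, nat_lit 80, nat_lit 28, nat_lit 394, nat_lit 125, nat_lit 9]⟩,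
 ⟨nat_lit 2236, nat_lit 3163, ⟨.ofNat (nat_lit 394735), .ofNat (nat_lit 516642), .ofNat (nat_lit 438942), .ofNat (nat_lit 560952), .ofNat (nat_lit 397434), .ofNat (nat_lit 511466), .ofNat (nat_lit 442880), .ofNat (nat_lit 557014)⟩, ⟨.ofNat (nat_lit 0), .ofNat (nat_lit 0), .ofNat (nat_lit 0), .ofNat (nat_lit 0), .ofNat (nat_lit 0), .ofNat (nat_lit 0), .ofNat (nat_lit 0), .ofNat (nat_lit 0)⟩⟩, []⟩
noncomputable def p024_l94 : Lf2 := ⟨nat_lit 0, nat_lit 10, [nat_lit 0, nat_lit 5, nat_lit 5, nat_lit 20], false, nat_lit 0, nat_lit 0, nat_lit 0, nat_lit 0, ⟨nat_lit 86, nat_lit 835, nat_lit 79, nat_lit 6, nat_lit 239, nat_lit 0, nat_lit 0, nat_lit 0, nat_lit 0, nat_lit 215, nat_lit 94468, nat_lit 200, nat_lit 49363516, nat_lit 17636484, nat_lit 0, nat_lit 2882046, false, true⟩,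
 nat_lit 3425, nat_lit 0, nat_lit 0, nat_lit 0, nat_lit 2982, nat_lit 1141, nat_lit 98, nat_lit 0, nat_lit 0, nat_lit 82, nat_lit 0, nat_lit 0, nat_lit 0, nat_lit 0, nat_lit 0, nat_lit 365600, nat_lit 0, nat_lit 0, [(nat_lit 24, [(nat_lit 1, nat_lit 835), (nat_lit 5, nat_lit 79)])],
 ⟨p024_k25, nat_lit 0, nat_lit 0, nat_lit 345, nat_lit 0, nat_lit 674710, [nat_lit 846323200, nat_lit 1053868801, nat_lit 1054605600], [], [nat_lit 24654272458, nat_lit 25097417145, nat_lit 27137427707, nat_lit 27601133140], nat_lit 1271250, nat_lit 1271250, nat_lit 1271250, nat_lit 1271250, nat_lit 0, nat_lit 0, [nat_lit 230000, nat_lit 780000, nat_lit 1100000], [nat_lit 35, nat_lit 40, nat_lit 80, nat_lit 80, nat_lit 22, nat_lit 203, nat_lit 0, nat_lit 8]⟩, ⟨p024_k26, nat_lit 0, nat_lit 0, nat_lit 1263, nat_lit 0, nat_lit 1970196, [nat_lit 685248000, nat_lit 1020992000, nat_lit 1208988000], [], [nat_lit 3841651312,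 nat_lit 3775333148, nat_lit 3980954216, nat_lit 3892158240], nat_lit 1100001, nat_lit 1442500, nat_lit 1271250, nat_lit 1271250, nat_lit 0, nat_lit 0, [nat_lit 1695000, nat_lit 1271250, nat_lit 1271250], [nat_lit 62, nat_lit 40, nat_lit 80, nat_lit 80, nat_lit 58, nat_lit 381, nat_lit 150, nat_lit 9]⟩,
 ⟨nat_lit 2738, nat_lit 3163, ⟨.ofNat (nat_lit 516642), .ofNat (nat_lit 638549), .ofNat (nat_lit 560952), .ofNat (nat_lit 682859), .ofNat (nat_lit 514225), .ofNat (nat_lit 632348), .ofNat (nat_lit 559060), .ofNat (nat_lit 677182)⟩, ⟨.ofNat (nat_lit 0), .ofNat (nat_lit 0), .ofNat (nat_lit 0), .ofNat (nat_lit 0), .ofNat (nat_lit 0), .ofNat (nat_lit 0), .ofNat (nat_lit 0), .ofNat (nat_lit 0)⟩⟩, [⟨nat_lit 13, nat_lit 57, nat_lit 88, nat_lit 100, nat_lit 202759164⟩]⟩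
noncomputable def p024_l95 : Lf2 := ⟨nat_lit 0, nat_lit 10, [nat_lit 0, nat_lit 5, nat_lit 5, nat_lit 20], false, nat_lit 0, nat_lit 0, nat_lit 0, nat_lit 0, ⟨nat_lit 83, nat_lit 917, nat_lit 0, nat_lit 6, nat_lit 234, nat_lit 0, nat_lit 0, nat_lit 0, nat_lit 0, nat_lit 0, nat_lit 0, nat_lit 0, nat_lit 49926954, nat_lit 17073046, nat_lit 0, nat_lit 2837851, false, true⟩,
 nat_lit 3232, nat_lit 0, nat_lit 0, nat_lit 0, nat_lit 2916, nat_lit 1077, nat_lit 247, nat_lit 0, nat_lit 0, nat_lit 67, nat_lit 0, nat_lit 0, nat_lit 0, nat_lit 0, nat_lit 0, nat_lit 229250, nat_lit 0, nat_lit 0, [(nat_lit 24, [(nat_lit 0, nat_lit 917)])],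
 ⟨p024_k27, nat_lit 0, nat_lit 0, nat_lit 354, nat_lit 0, nat_lit 700689, [nat_lit 777708401, nat_lit 1526128401, nat_lit 1953139200], [], [nat_lit 24803782816, nat_lit 25316908775, nat_lit 27099333136, nat_lit 27561483451], nat_lit 1271250, nat_lit 1271250, nat_lit 1271250, nat_lit 1271250, nat_lit 0, nat_lit 0, [nat_lit 230000, nat_lit 780000, nat_lit 1100000], [nat_lit 35, nat_lit 40, nat_lit 80, nat_lit 80, nat_lit 22, nat_lit 203, nat_lit 0, nat_lit 8]⟩, ⟨p024_k26, nat_lit 0, nat_lit 0, nat_lit 1330, nat_lit 0, nat_lit 2125082, [nat_lit 661344000, nat_lit 985376000, nat_lit 1166814000], [], [nat_lit 3776959032, nat_lit 3688219308, nat_lit 3863853062, nat_lit 3787534091], nat_lit 1100001, nat_lit 1442500, nat_lit 1271250, nat_lit 1271250, nat_lit 0, nat_lit 0, [nat_lit 1695000, nat_lit 1271250, nat_lit 1271250], [nat_lit 62, nat_lit 40, nat_lit 80, nat_lit 80, nat_lit 58, nat_lit 396,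 nat_lit 150, nat_lit 9]⟩,
 ⟨nat_lit 2236, nat_lit 2739, ⟨.ofNat (nat_lit 514225), .ofNat (nat_lit 614629), .ofNat (nat_lit 559060), .ofNat (nat_lit 659464), .ofNat (nat_lit 511466), .ofNat (nat_lit 608392), .ofNat (nat_lit 557014), .ofNat (nat_lit 653941)⟩, ⟨.ofNat (nat_lit 0), .ofNat (nat_lit 0), .ofNat (nat_lit 0), .ofNat (nat_lit 0), .ofNat (nat_lit 0), .ofNat (nat_lit 0), .ofNat (nat_lit 0), .ofNat (nat_lit 0)⟩⟩, [⟨nat_lit 13, nat_lit 49, nat_lit 92, nat_lit 100, nat_lit 261318471⟩]⟩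
noncomputable def p024_l96 : Lf2 := ⟨nat_lit 0, nat_lit 10, [nat_lit 0, nat_lit 5, nat_lit 5, nat_lit 20], false, nat_lit 0, nat_lit 0, nat_lit 0, nat_lit 0, ⟨nat_lit 0, nat_lit 1000, nat_lit 0, nat_lit 4, nat_lit 203, nat_lit 0, nat_lit 0, nat_lit 0, nat_lit 0, nat_lit 0, nat_lit 0, nat_lit 0, nat_lit 53267039, nat_lit 13732961, nat_lit 0, nat_lit 2536073, false, true⟩,
 nat_lit 0, nat_lit 2868, nat_lit 0, nat_lit 0, nat_lit 2679, nat_lit 0, nat_lit 20, nat_lit 0, nat_lit 0, nat_lit 0, nat_lit 0, nat_lit 0, nat_lit 0, nat_lit 0, nat_lit 0, nat_lit 400000, nat_lit 0, nat_lit 0, [(nat_lit 27, [(nat_lit 1, nat_lit 1000)])],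
 ⟨p024_k30, nat_lit 0, nat_lit 0, nat_lit 337, nat_lit 0, nat_lit 775200, [nat_lit 697600000, nat_lit 324400000], [], [nat_lit 22765858208, nat_lit 23922683668, nat_lit 26450675246, nat_lit 27473790138], nat_lit 1271250, nat_lit 1271250, nat_lit 1100001, nat_lit 2196000, nat_lit 0, nat_lit 0, [nat_lit 230000, nat_lit 780000], [nat_lit 66, nat_lit 40, nat_lit 80, nat_lit 80, nat_lit 67, nat_lit 203, nat_lit 0, nat_lit 11]⟩, ⟨p024_k32, nat_lit 0, nat_lit 0, nat_lit 1507, nat_lit 0, nat_lit 2439909, [nat_lit 0, nat_lit 0], [], [nat_lit 0, nat_lit 0, nat_lit 0, nat_lit 0], nat_lit 1100001, nat_lit 1442500, nat_lit 1100001, nat_lit 2196000, nat_lit 0, nat_lit 0, [nat_lit 1695000, nat_lit 1271250], [nat_lit 121, nat_lit 40, nat_lit 80, nat_lit 80, nat_lit 28, nat_lit 438, nat_lit 125, nat_lit 10]⟩,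
 ⟨nat_lit 0, nat_lit 2237, ⟨.ofNat (nat_lit 397434), .ofNat (nat_lit 579878), .ofNat (nat_lit 441142), .ofNat (nat_lit 625429), .ofNat (nat_lit 399999), .ofNat (nat_lit 559993), .ofNat (nat_lit 448157), .ofNat (nat_lit 609995)⟩, ⟨.ofNat (nat_lit 0), .ofNat (nat_lit 0), .ofNat (nat_lit 0), .ofNat (nat_lit 0), .ofNat (nat_lit 0), .ofNat (nat_lit 0), .ofNat (nat_lit 0), .ofNat (nat_lit 0)⟩⟩, [⟨nat_lit 13, nat_lit 31, nat_lit 98, nat_lit 100, nat_lit 307169781⟩, ⟨nat_lit 13, nat_lit 44, nat_lit 90, nat_lit 100, nat_lit 26726937⟩]⟩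
noncomputable def p024_l97 : Lf2 := ⟨nat_lit 0, nat_lit 10, [nat_lit 0, nat_lit 5, nat_lit 5, nat_lit 20], true, nat_lit 0, nat_lit 0, nat_lit 0, nat_lit 0, ⟨nat_lit 0, nat_lit 1000, nat_lit 0, nat_lit 4, nat_lit 180, nat_lit 0, nat_lit 0, nat_lit 0, nat_lit 0, nat_lit 0, nat_lit 0, nat_lit 0, nat_lit 0, nat_lit 0, nat_lit 0, nat_lit 5000000, false, true⟩,
 nat_lit 0, nat_lit 4036, nat_lit 0, nat_lit 0, nat_lit 3515, nat_lit 0, nat_lit 112, nat_lit 0, nat_lit 0, nat_lit 0, nat_lit 0, nat_lit 0, nat_lit 0, nat_lit 0, nat_lit 0, nat_lit 323800, nat_lit 0, nat_lit 0, [(nat_lit 24, [(nat_lit 0, nat_lit 508), (nat_lit 1, nat_lit 492)]), (nat_lit 27, [(nat_lit 0, nat_lit 508), (nat_lit 1, nat_lit 492)])],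
 ⟨p024_k25, nat_lit 0, nat_lit 0, nat_lit 668, nat_lit 0, nat_lit 1359434, [nat_lit 813862400, nat_lit 1185225600, nat_lit 1336009600], [], [nat_lit 25746149788, nat_lit 27278312436, nat_lit 29671798000, nat_lit 31113628360], nat_lit 1271250, nat_lit 1271250, nat_lit 279600, nat_lit 2323000, nat_lit 0, nat_lit 0, [nat_lit 230000, nat_lit 780000, nat_lit 1100000], [nat_lit 35, nat_lit 40, nat_lit 80, nat_lit 80, nat_lit 22, nat_lit 317, nat_lit 100, nat_lit 15]⟩, C1.Rw.none,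
 ⟨nat_lit 0, nat_lit 3163, ⟨.ofNat (nat_lit 216927), .ofNat (nat_lit 638543), .ofNat (nat_lit 258627), .ofNat (nat_lit 682855), .ofNat (nat_lit 252860), .ofNat (nat_lit 599993), .ofNat (nat_lit 300250), .ofNat (nat_lit 649995)⟩, ⟨.ofNat (nat_lit 0), .ofNat (nat_lit 0), .ofNat (nat_lit 0), .ofNat (nat_lit 0), .ofNat (nat_lit 0), .ofNat (nat_lit 0), .ofNat (nat_lit 0), .ofNat (nat_lit 0)⟩⟩, [⟨nat_lit 13, nat_lit 44, nat_lit 94, nat_lit 100, nat_lit 298082849⟩]⟩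
noncomputable def b_N_900_400_0_0 : St := ⟨false, nat_lit 2, nat_lit 2, nat_lit 0, nat_lit 40, nat_lit 360, nat_lit 400, nat_lit 160, nat_lit 200, nat_lit 48, nat_lit 320, nat_lit 0, nat_lit 0, nat_lit 0, nat_lit 0, nat_lit 0, nat_lit 0, nat_lit 0, nat_lit 40, nat_lit 0, nat_lit 0, nat_lit 0, nat_lit 0⟩
theorem d_N_900_400_0_0 (h : EB TB.env) : Dead b_N_900_400_0_0 := chkB_sound0 h (T :=
(.st (nat_lit 0)
(.leaf p024_l82)
(.gv
(.st (nat_lit 1)
(.spl (nat_lit 2) (nat_lit 160)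
(.spl (nat_lit 0) (nat_lit 380)
(.spl (nat_lit 2) (nat_lit 80)
(.leaf p024_l83)
(.spl (nat_lit 1) (nat_lit 180)
(.spl (nat_lit 0) (nat_lit 370)
(.leaf p024_l84)
(.spl (nat_lit 0) (nat_lit 375)
(.leaf p024_l85)
(.leaf p024_l86)))
(.leaf p024_l87)))
(.trZ (nat_lit 0) (nat_lit 100) (nat_lit 44) (nat_lit 81) (nat_lit 76) (.spl (nat_lit 0) (nat_lit 390)
(.leaf p024_l88)
(.trZ (nat_lit 0) (nat_lit 100) (nat_lit 32) (nat_lit 89) (nat_lit 100) (.leaf p024_l89)))))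
(.spl (nat_lit 0) (nat_lit 380)
(.leaf p024_l90)
(.trX (nat_lit 13) (nat_lit 44) (nat_lit 90) (nat_lit 100) (nat_lit 288) (.leaf p024_l91))))
(.spl (nat_lit 2) (nat_lit 160)
(.leaf p024_l92)
(.spl (nat_lit 0) (nat_lit 380)
(.spl (nat_lit 2) (nat_lit 240)
(.leaf p024_l93)
(.spl (nat_lit 0) (nat_lit 370)
(.leaf p024_l94)
(.trX (nat_lit 13) (nat_lit 53) (nat_lit 85) (nat_lit 100) (nat_lit 308) (.leaf p024_l95))))
(.trX (nat_lit 13) (nat_lit 44) (nat_lit 90) (nat_lit 100) (nat_lit 288) (.leaf p024_l96)))))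
(.leaf p024_l97)))) (by decide +kernel)
noncomputable def p024_l98 : Lf2 := ⟨nat_lit 0, nat_lit 10, [nat_lit 0, nat_lit 5, nat_lit 5, nat_lit 20], true, nat_lit 0, nat_lit 0, nat_lit 0, nat_lit 0, ⟨nat_lit 0, nat_lit 1000, nat_lit 0, nat_lit 4, nat_lit 180, nat_lit 0, nat_lit 0, nat_lit 0, nat_lit 0, nat_lit 0, nat_lit 0, nat_lit 0, nat_lit 55716995, nat_lit 11283005, nat_lit 0, nat_lit 2266723, false, true⟩,
 nat_lit 0, nat_lit 0, nat_lit 0, nat_lit 0, nat_lit 2981, nat_lit 0, nat_lit 0, nat_lit 0, nat_lit 0, nat_lit 0, nat_lit 0, nat_lit 0, nat_lit 0, nat_lit 0, nat_lit 0, nat_lit 263200, nat_lit 0, nat_lit 0, [(nat_lit 24, [(nat_lit 0, nat_lit 912), (nat_lit 1, nat_lit 88)]), (nat_lit 27, [(nat_lit 0, nat_lit 912), (nat_lit 1, nat_lit 88)])],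
 ⟨p024_k24, nat_lit 0, nat_lit 0, nat_lit 180, nat_lit 0, nat_lit 0, [nat_lit 797062401, nat_lit 1639494400], [], [nat_lit 21914492849, nat_lit 25324737715, nat_lit 27563026123, nat_lit 29614038636], nat_lit 0, nat_lit 0, nat_lit 0, nat_lit 0, nat_lit 0, nat_lit 0, [], [nat_lit 86, nat_lit 40, nat_lit 80, nat_lit 80, nat_lit 87, nat_lit 317, nat_lit 100, nat_lit 15]⟩, C1.Rw.none,
 ⟨nat_lit 0, nat_lit 3163, ⟨.ofNat (nat_lit 216927), .ofNat (nat_lit 638543), .ofNat (nat_lit 258627), .ofNat (nat_lit 682855), .ofNat (nat_lit 252860), .ofNat (nat_lit 599993), .ofNat (nat_lit 300250), .ofNat (nat_lit 649995)⟩, ⟨.ofNat (nat_lit 0), .ofNat (nat_lit 0), .ofNat (nat_lit 0), .ofNat (nat_lit 0), .ofNat (nat_lit 0), .ofNat (nat_lit 0), .ofNat (nat_lit 0), .ofNat (nat_lit 0)⟩⟩, [⟨nat_lit 13, nat_lit 44, nat_lit 94, nat_lit 100, nat_lit 28506766⟩, ⟨nat_lit 13, nat_lit 60, nat_lit 80, nat_lit 100, nat_lit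 37078715⟩]⟩
noncomputable def p024_l99 : Lf2 := ⟨nat_lit 0, nat_lit 10, [nat_lit 0, nat_lit 5, nat_lit 5, nat_lit 20], true, nat_lit 0, nat_lit 0, nat_lit 0, nat_lit 0, ⟨nat_lit 0, nat_lit 136, nat_lit 864, nat_lit 4, nat_lit 133, nat_lit 0, nat_lit 0, nat_lit 0, nat_lit 0, nat_lit 215, nat_lit 166667, nat_lit 315, nat_lit 60288101, nat_lit 6711899, nat_lit 0, nat_lit 1627362, false, false⟩,
 nat_lit 0, nat_lit 3201, nat_lit 0, nat_lit 0, nat_lit 2787, nat_lit 0, nat_lit 0, nat_lit 0, nat_lit 0, nat_lit 0, nat_lit 0, nat_lit 0, nat_lit 0, nat_lit 0, nat_lit 45, nat_lit 250000, nat_lit 0, nat_lit 0, [(nat_lit 24, [(nat_lit 0, nat_lit 136), (nat_lit 4, nat_lit 864)])],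
 ⟨p024_k24, nat_lit 0, nat_lit 0, nat_lit 423, nat_lit 0, nat_lit 798923, [nat_lit 963590401, nat_lit 50870400], [], [nat_lit 20744858832, nat_lit 21580390987, nat_lit 22047239800, nat_lit 22612344104], nat_lit 1271250, nat_lit 1271250, nat_lit 279600, nat_lit 1100001, nat_lit 0, nat_lit 0, [nat_lit 230000, nat_lit 1100000], [nat_lit 86, nat_lit 40, nat_lit 80, nat_lit 80, nat_lit 87, nat_lit 249, nat_lit 40, nat_lit 11]⟩, C1.Rw.none,
 ⟨nat_lit 2738, nat_lit 3163, ⟨.ofNat (nat_lit 224021), .ofNat (nat_lit 394735), .ofNat (nat_lit 268308), .ofNat (nat_lit 439028), .ofNat (nat_lit 230686), .ofNat (nat_lit 396102), .ofNat (nat_lit 275497), .ofNat (nat_lit 440920)⟩, ⟨.ofNat (nat_lit 0), .ofNat (nat_lit 0), .ofNat (nat_lit 0), .ofNat (nat_lit 0), .ofNat (nat_lit 0), .ofNat (nat_lit 0), .ofNat (nat_lit 0), .ofNat (nat_lit 0)⟩⟩, []⟩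
noncomputable def p024_l100 : Lf2 := ⟨nat_lit 0, nat_lit 10, [nat_lit 0, nat_lit 5, nat_lit 5, nat_lit 20], true, nat_lit 0, nat_lit 0, nat_lit 0, nat_lit 0, ⟨nat_lit 0, nat_lit 0, nat_lit 1000, nat_lit 4, nat_lit 139, nat_lit 0, nat_lit 0, nat_lit 0, nat_lit 0, nat_lit 215, nat_lit 180267, nat_lit 319, nat_lit 59808581, nat_lit 0, nat_lit 0, nat_lit 1704528, false, false⟩,
 nat_lit 0, nat_lit 3095, nat_lit 0, nat_lit 0, nat_lit 2792, nat_lit 0, nat_lit 0, nat_lit 0, nat_lit 0, nat_lit 0, nat_lit 0, nat_lit 0, nat_lit 0, nat_lit 0, nat_lit 69, nat_lit 250000, nat_lit 0, nat_lit 0, [(nat_lit 24, [(nat_lit 4, nat_lit 1000)])],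
 ⟨p024_k27, nat_lit 0, nat_lit 0, nat_lit 446, nat_lit 0, nat_lit 850969, [nat_lit 1002400001, nat_lit 398800001, nat_lit 54799999], [], [nat_lit 21179992936, nat_lit 22187107968, nat_lit 22382504598, nat_lit 23004003422], nat_lit 1271250, nat_lit 1271250, nat_lit 356250, nat_lit 1100001, nat_lit 0, nat_lit 0, [nat_lit 230000, nat_lit 780000, nat_lit 1100000], [nat_lit 35, nat_lit 40, nat_lit 80, nat_lit 80, nat_lit 22, nat_lit 249, nat_lit 40, nat_lit 11]⟩, C1.Rw.none,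
 ⟨nat_lit 2236, nat_lit 2739, ⟨.ofNat (nat_lit 248369), .ofNat (nat_lit 396102), .ofNat (nat_lit 293163), .ofNat (nat_lit 440903), .ofNat (nat_lit 254815), .ofNat (nat_lit 397434), .ofNat (nat_lit 300323), .ofNat (nat_lit 442949)⟩, ⟨.ofNat (nat_lit 0), .ofNat (nat_lit 0), .ofNat (nat_lit 0), .ofNat (nat_lit 0), .ofNat (nat_lit 0), .ofNat (nat_lit 0), .ofNat (nat_lit 0), .ofNat (nat_lit 0)⟩⟩, []⟩
noncomputable def p024_l101 : Lf2 := ⟨nat_lit 0, nat_lit 10, [nat_lit 0, nat_lit 5, nat_lit 5, nat_lit 20], false, nat_lit 0, nat_lit 0, nat_lit 0, nat_lit 0, ⟨nat_lit 118, nat_lit 0, nat_lit 882, nat_lit 4, nat_lit 145, nat_lit 0, nat_lit 0, nat_lit 0, nat_lit 0, nat_lit 215, nat_lit 198017, nat_lit 324, nat_lit 59177757, nat_lit 0, nat_lit 0, nat_lit 1801992, false, false⟩,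
 nat_lit 0, nat_lit 2842, nat_lit 0, nat_lit 0, nat_lit 2655, nat_lit 2744, nat_lit 0, nat_lit 0, nat_lit 0, nat_lit 211, nat_lit 0, nat_lit 0, nat_lit 0, nat_lit 0, nat_lit 99, nat_lit 352800, nat_lit 0, nat_lit 0, [(nat_lit 27, [(nat_lit 5, nat_lit 882)])],
 ⟨p024_k30, nat_lit 0, nat_lit 0, nat_lit 430, nat_lit 0, nat_lit 984152, [nat_lit 1029533600, nat_lit 8138400], [], [nat_lit 21932038740, nat_lit 23194351033, nat_lit 23259309220, nat_lit 24401099340], nat_lit 1271250, nat_lit 1271250, nat_lit 462650, nat_lit 1100001, nat_lit 0, nat_lit 0, [nat_lit 230000, nat_lit 780000], [nat_lit 66, nat_lit 40, nat_lit 80, nat_lit 80, nat_lit 67, nat_lit 249, nat_lit 40, nat_lit 14]⟩, ⟨p024_k26, nat_lit 0, nat_lit 0, nat_lit 402, nat_lit 0, nat_lit 0, [nat_lit 940224000, nat_lit 1400896000, nat_lit 1658844000], [], [nat_lit 5039766849, nat_lit 5070840280, nat_lit 4095518397, nat_lit 4204342541],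 nat_lit 0, nat_lit 0, nat_lit 0, nat_lit 0, nat_lit 0, nat_lit 0, [], [nat_lit 62, nat_lit 40, nat_lit 80, nat_lit 80, nat_lit 58, nat_lit 317, nat_lit 100, nat_lit 8]⟩,
 ⟨nat_lit 0, nat_lit 2237, ⟨.ofNat (nat_lit 273845), .ofNat (nat_lit 397434), .ofNat (nat_lit 317541), .ofNat (nat_lit 441142), .ofNat (nat_lit 291142), .ofNat (nat_lit 399999), .ofNat (nat_lit 339289), .ofNat (nat_lit 448157)⟩, ⟨.ofNat (nat_lit 0), .ofNat (nat_lit 0), .ofNat (nat_lit 0), .ofNat (nat_lit 0), .ofNat (nat_lit 0), .ofNat (nat_lit 0), .ofNat (nat_lit 0), .ofNat (nat_lit 0)⟩⟩, [⟨nat_lit 0, nat_lit 100, nat_lit 31, nat_lit 92, nat_lit 239429477⟩]⟩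
noncomputable def p024_l102 : Lf2 := ⟨nat_lit 0, nat_lit 10, [nat_lit 0, nat_lit 5, nat_lit 5, nat_lit 20], false, nat_lit 0, nat_lit 0, nat_lit 0, nat_lit 0, ⟨nat_lit 474, nat_lit 0, nat_lit 526, nat_lit 4, nat_lit 215, nat_lit 0, nat_lit 0, nat_lit 0, nat_lit 0, nat_lit 215, nat_lit 94468, nat_lit 200, nat_lit 52025729, nat_lit 0, nat_lit 0, nat_lit 2656488, false, true⟩,
 nat_lit 0, nat_lit 3630, nat_lit 0, nat_lit 0, nat_lit 3161, nat_lit 4726, nat_lit 94, nat_lit 0, nat_lit 0, nat_lit 573, nat_lit 0, nat_lit 0, nat_lit 0, nat_lit 0, nat_lit 0, nat_lit 210400, nat_lit 0, nat_lit 0, [(nat_lit 24, [(nat_lit 5, nat_lit 526)])],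
 ⟨p024_k25, nat_lit 0, nat_lit 0, nat_lit 425, nat_lit 0, nat_lit 890243, [nat_lit 827960800, nat_lit 1148473867, nat_lit 1253430400], [], [nat_lit 24004038100, nat_lit 24872061496, nat_lit 27970252411, nat_lit 28740597454], nat_lit 1271250, nat_lit 1271250, nat_lit 1100001, nat_lit 2470000, nat_lit 0, nat_lit 0, [nat_lit 230000, nat_lit 780000, nat_lit 1100000], [nat_lit 35, nat_lit 40, nat_lit 80, nat_lit 80, nat_lit 22, nat_lit 203, nat_lit 0, nat_lit 8]⟩, ⟨p024_k26, nat_lit 0, nat_lit 0, nat_lit 300, nat_lit 0, nat_lit 0, [nat_lit 3776832000, nat_lit 5627328000, nat_lit 6663492000], [], [nat_lit 15656583755, nat_lit 15919857411, nat_lit 18816148355, nat_lit 18885850227], nat_lit 0, nat_lit 0, nat_lit 0, nat_lit 0, nat_lit 0, nat_lit 0, [], [nat_lit 62, nat_lit 40, nat_lit 80, nat_lit 80, nat_lit 58, nat_lit 373, nat_lit 150, nat_lit 9]⟩,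
 ⟨nat_lit 2236, nat_lit 3163, ⟨.ofNat (nat_lit 394735), .ofNat (nat_lit 638549), .ofNat (nat_lit 438942), .ofNat (nat_lit 682859), .ofNat (nat_lit 397434), .ofNat (nat_lit 625497), .ofNat (nat_lit 442880), .ofNat (nat_lit 671045)⟩, ⟨.ofNat (nat_lit 0), .ofNat (nat_lit 0), .ofNat (nat_lit 0), .ofNat (nat_lit 0), .ofNat (nat_lit 0), .ofNat (nat_lit 0), .ofNat (nat_lit 0), .ofNat (nat_lit 0)⟩⟩, []⟩
noncomputable def p024_l103 : Lf2 := ⟨nat_lit 0, nat_lit 10, [nat_lit 0, nat_lit 5, nat_lit 5, nat_lit 20], false, nat_lit 0, nat_lit 0, nat_lit 0, nat_lit 0, ⟨nat_lit 1000, nat_lit 0, nat_lit 0, nat_lit 0, nat_lit 0, nat_lit 0, nat_lit 0, nat_lit 0, nat_lit 0, nat_lit 0, nat_lit 0, nat_lit 0, nat_lit 0, nat_lit 0, nat_lit 0, nat_lit 0, false, false⟩,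
 nat_lit 0, nat_lit 3919, nat_lit 0, nat_lit 0, nat_lit 3661, nat_lit 11897, nat_lit 365, nat_lit 0, nat_lit 0, nat_lit 0, nat_lit 0, nat_lit 0, nat_lit 0, nat_lit 0, nat_lit 0, nat_lit 0, nat_lit 0, nat_lit 0, [],
 ⟨p024_k30, nat_lit 0, nat_lit 0, nat_lit 407, nat_lit 0, nat_lit 984152, [nat_lit 938000000, nat_lit 3282000000], [], [nat_lit 24759346314, nat_lit 25951616702, nat_lit 28492557305, nat_lit 30102582235], nat_lit 1271250, nat_lit 1271250, nat_lit 1100001, nat_lit 2196000, nat_lit 0, nat_lit 0, [nat_lit 230000, nat_lit 780000], [nat_lit 66, nat_lit 40, nat_lit 80, nat_lit 80, nat_lit 67, nat_lit 203, nat_lit 0, nat_lit 11]⟩, ⟨p024_k32, nat_lit 0, nat_lit 0, nat_lit 254, nat_lit 0, nat_lit 0, [nat_lit 7968000000, nat_lit 14058000000], [], [nat_lit 37980805264, nat_lit 38973128220, nat_lit 44948792129, nat_lit 45178059151], nat_lit 0, nat_lit 0, nat_lit 0, nat_lit 0, nat_lit 0, nat_lit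 0, [], [nat_lit 121, nat_lit 40, nat_lit 80, nat_lit 80, nat_lit 28, nat_lit 345, nat_lit 125, nat_lit 8]⟩,
 zbF0, []⟩
noncomputable def p024_l104 : Lf2 := ⟨nat_lit 0, nat_lit 10, [nat_lit 0, nat_lit 5, nat_lit 5, nat_lit 20], false, nat_lit 0, nat_lit 0, nat_lit 0, nat_lit 0, ⟨nat_lit 0, nat_lit 230, nat_lit 770, nat_lit 4, nat_lit 135, nat_lit 0, nat_lit 0, nat_lit 0, nat_lit 0, nat_lit 215, nat_lit 173400, nat_lit 317, nat_lit 60115343, nat_lit 6884657, nat_lit 0, nat_lit 1655481, false, false⟩,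
 nat_lit 0, nat_lit 3312, nat_lit 0, nat_lit 0, nat_lit 2884, nat_lit 0, nat_lit 0, nat_lit 0, nat_lit 0, nat_lit 0, nat_lit 0, nat_lit 0, nat_lit 0, nat_lit 0, nat_lit 27, nat_lit 250000, nat_lit 0, nat_lit 0, [(nat_lit 24, [(nat_lit 0, nat_lit 230), (nat_lit 4, nat_lit 770)]), (nat_lit 27, [(nat_lit 0, nat_lit 230), (nat_lit 4, nat_lit 770)])],
 ⟨p024_k24, nat_lit 0, nat_lit 0, nat_lit 408, nat_lit 0, nat_lit 690931, [nat_lit 874016001, nat_lit 24950000], [], [nat_lit 20848542055, nat_lit 24971176362, nat_lit 21688807628, nat_lit 23969736941], nat_lit 1271250, nat_lit 1271250, nat_lit 279600, nat_lit 1100001, nat_lit 0, nat_lit 0, [nat_lit 230000, nat_lit 1100000], [nat_lit 86, nat_lit 40, nat_lit 80, nat_lit 80, nat_lit 87, nat_lit 249, nat_lit 40, nat_lit 11]⟩, ⟨p024_k32, nat_lit 0, nat_lit 0, nat_lit 1461, nat_lit 0, nat_lit 2182493, [nat_lit 0, nat_lit 0], [], [nat_lit 0, nat_lit 0,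 nat_lit 0, nat_lit 0], nat_lit 1100001, nat_lit 1442500, nat_lit 279600, nat_lit 1100001, nat_lit 0, nat_lit 0, [nat_lit 1695000, nat_lit 1271250], [nat_lit 121, nat_lit 40, nat_lit 80, nat_lit 80, nat_lit 28, nat_lit 411, nat_lit 100, nat_lit 10]⟩,
 ⟨nat_lit 0, nat_lit 3163, ⟨.ofNat (nat_lit 216927), .ofNat (nat_lit 394735), .ofNat (nat_lit 258627), .ofNat (nat_lit 436481), .ofNat (nat_lit 252860), .ofNat (nat_lit 399999), .ofNat (nat_lit 300250), .ofNat (nat_lit 447434)⟩, ⟨.ofNat (nat_lit 0), .ofNat (nat_lit 0), .ofNat (nat_lit 0), .ofNat (nat_lit 0), .ofNat (nat_lit 0), .ofNat (nat_lit 0), .ofNat (nat_lit 0), .ofNat (nat_lit 0)⟩⟩, [⟨nat_lit 0, nat_lit 100, nat_lit 44, nat_lit 86, nat_lit 156997861⟩]⟩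
noncomputable def p024_l105 : Lf2 := ⟨nat_lit 0, nat_lit 10, [nat_lit 0, nat_lit 5, nat_lit 5, nat_lit 20], false, nat_lit 0, nat_lit 0, nat_lit 0, nat_lit 0, ⟨nat_lit 0, nat_lit 254, nat_lit 746, nat_lit 4, nat_lit 191, nat_lit 0, nat_lit 0, nat_lit 0, nat_lit 0, nat_lit 215, nat_lit 2400, nat_lit 227, nat_lit 54551157, nat_lit 12448843, nat_lit 0, nat_lit 2400402, false, true⟩,
 nat_lit 0, nat_lit 3104, nat_lit 0, nat_lit 0, nat_lit 2703, nat_lit 0, nat_lit 0, nat_lit 0, nat_lit 0, nat_lit 0, nat_lit 0, nat_lit 0, nat_lit 0, nat_lit 0, nat_lit 25, nat_lit 250000, nat_lit 0, nat_lit 0, [(nat_lit 24, [(nat_lit 0, nat_lit 254), (nat_lit 4, nat_lit 746)])],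
 ⟨p024_k24, nat_lit 0, nat_lit 0, nat_lit 272, nat_lit 0, nat_lit 513083, [nat_lit 880805600, nat_lit 50225600], [], [nat_lit 20464791140, nat_lit 21085906939, nat_lit 22712971812, nat_lit 23270477741], nat_lit 1271250, nat_lit 1271250, nat_lit 1100001, nat_lit 1785000, nat_lit 0, nat_lit 0, [nat_lit 230000, nat_lit 1100000], [nat_lit 86, nat_lit 40, nat_lit 80, nat_lit 80, nat_lit 87, nat_lit 203, nat_lit 0, nat_lit 8]⟩, ⟨p024_k32, nat_lit 0, nat_lit 0, nat_lit 1132, nat_lit 0, nat_lit 1620713, [nat_lit 0, nat_lit 0], [], [nat_lit 0, nat_lit 0, nat_lit 0, nat_lit 0], nat_lit 1100001, nat_lit 1442500, nat_lit 1100001, nat_lit 1785000, nat_lit 0, nat_lit 0, [nat_lit 1695000, nat_lit 1271250], [nat_lit 121, nat_lit 40, nat_lit 80, nat_lit 80, nat_lit 28, nat_lit 345, nat_lit 125, nat_lit 8]⟩,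
 ⟨nat_lit 2738, nat_lit 3163, ⟨.ofNat (nat_lit 394735), .ofNat (nat_lit 516642), .ofNat (nat_lit 439028), .ofNat (nat_lit 560952), .ofNat (nat_lit 396102), .ofNat (nat_lit 514225), .ofNat (nat_lit 440920), .ofNat (nat_lit 559060)⟩, ⟨.ofNat (nat_lit 0), .ofNat (nat_lit 0), .ofNat (nat_lit 0), .ofNat (nat_lit 0), .ofNat (nat_lit 0), .ofNat (nat_lit 0), .ofNat (nat_lit 0), .ofNat (nat_lit 0)⟩⟩, []⟩
noncomputable def p024_l106 : Lf2 := ⟨nat_lit 0, nat_lit 10, [nat_lit 0, nat_lit 5, nat_lit 5, nat_lit 20], false, nat_lit 0, nat_lit 0, nat_lit 0, nat_lit 0, ⟨nat_lit 0, nat_lit 613, nat_lit 387, nat_lit 6, nat_lit 239, nat_lit 0, nat_lit 0, nat_lit 0, nat_lit 0, nat_lit 215, nat_lit 94468, nat_lit 200, nat_lit 49363516, nat_lit 17636484, nat_lit 0, nat_lit 2882046, false, true⟩,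
 nat_lit 0, nat_lit 3036, nat_lit 0, nat_lit 0, nat_lit 2644, nat_lit 0, nat_lit 0, nat_lit 0, nat_lit 0, nat_lit 0, nat_lit 0, nat_lit 0, nat_lit 0, nat_lit 0, nat_lit 0, nat_lit 308050, nat_lit 0, nat_lit 0, [(nat_lit 24, [(nat_lit 0, nat_lit 613), (nat_lit 5, nat_lit 387)])],
 ⟨p024_k25, nat_lit 0, nat_lit 0, nat_lit 288, nat_lit 0, nat_lit 513083, [nat_lit 749887201, nat_lit 538504000, nat_lit 334174400], [], [nat_lit 23611403623, nat_lit 24114686031, nat_lit 26317107511, nat_lit 26756175269], nat_lit 1271250, nat_lit 1271250, nat_lit 1271250, nat_lit 1271250, nat_lit 0, nat_lit 0, [nat_lit 230000, nat_lit 780000, nat_lit 1100000], [nat_lit 35, nat_lit 40, nat_lit 80, nat_lit 80, nat_lit 22, nat_lit 203, nat_lit 0, nat_lit 8]⟩, ⟨p024_k26, nat_lit 0, nat_lit 0, nat_lit 1104, nat_lit 0, nat_lit 1620713, [nat_lit 0, nat_lit 0, nat_lit 0], [], [nat_lit 0, nat_lit 0, nat_lit 0, nat_lit 0],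 nat_lit 1100001, nat_lit 1442500, nat_lit 1271250, nat_lit 1271250, nat_lit 0, nat_lit 0, [nat_lit 1695000, nat_lit 1271250, nat_lit 1271250], [nat_lit 62, nat_lit 40, nat_lit 80, nat_lit 80, nat_lit 58, nat_lit 373, nat_lit 150, nat_lit 9]⟩,
 ⟨nat_lit 2738, nat_lit 3163, ⟨.ofNat (nat_lit 516642), .ofNat (nat_lit 638549), .ofNat (nat_lit 560952), .ofNat (nat_lit 682859), .ofNat (nat_lit 514225), .ofNat (nat_lit 632348), .ofNat (nat_lit 559060), .ofNat (nat_lit 677182)⟩, ⟨.ofNat (nat_lit 0), .ofNat (nat_lit 0), .ofNat (nat_lit 0), .ofNat (nat_lit 0), .ofNat (nat_lit 0), .ofNat (nat_lit 0), .ofNat (nat_lit 0), .ofNat (nat_lit 0)⟩⟩, [⟨nat_lit 13, nat_lit 57, nat_lit 88, nat_lit 100, nat_lit 305473623⟩]⟩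
noncomputable def p024_l107 : Lf2 := ⟨nat_lit 0, nat_lit 10, [nat_lit 0, nat_lit 5, nat_lit 5, nat_lit 20], false, nat_lit 0, nat_lit 0, nat_lit 0, nat_lit 0, ⟨nat_lit 0, nat_lit 968, nat_lit 32, nat_lit 4, nat_lit 211, nat_lit 0, nat_lit 0, nat_lit 0, nat_lit 0, nat_lit 215, nat_lit 47678, nat_lit 200, nat_lit 52448603, nat_lit 14551397, nat_lit 0, nat_lit 2616608, false, true⟩,
 nat_lit 0, nat_lit 3009, nat_lit 0, nat_lit 0, nat_lit 2715, nat_lit 0, nat_lit 206, nat_lit 0, nat_lit 0, nat_lit 0, nat_lit 0, nat_lit 0, nat_lit 0, nat_lit 0, nat_lit 0, nat_lit 250000, nat_lit 0, nat_lit 0, [(nat_lit 24, [(nat_lit 0, nat_lit 968), (nat_lit 4, nat_lit 32)])],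
 ⟨p024_k27, nat_lit 0, nat_lit 0, nat_lit 299, nat_lit 0, nat_lit 549441, [nat_lit 762022401, nat_lit 1309715200, nat_lit 1615936000], [], [nat_lit 22599719218, nat_lit 23115332253, nat_lit 26579608970, nat_lit 27050795455], nat_lit 1271250, nat_lit 1271250, nat_lit 1100001, nat_lit 2367250, nat_lit 0, nat_lit 0, [nat_lit 230000, nat_lit 780000, nat_lit 1100000], [nat_lit 35, nat_lit 40, nat_lit 80, nat_lit 80, nat_lit 22, nat_lit 203, nat_lit 0, nat_lit 8]⟩, ⟨p024_k26, nat_lit 0, nat_lit 0, nat_lit 1217, nat_lit 0, nat_lit 1805965, [nat_lit 0, nat_lit 0, nat_lit 0], [], [nat_lit 0, nat_lit 0, nat_lit 0, nat_lit 0], nat_lit 1100001, nat_lit 1442500, nat_lit 1100001, nat_lit 2367250, nat_lit 0, nat_lit 0, [nat_lit 1695000, nat_lit 1271250, nat_lit 1271250], [nat_lit 62, nat_lit 40, nat_lit 80, nat_lit 80, nat_lit 58, nat_lit 373, nat_lit 150, nat_lit 9]⟩,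
 ⟨nat_lit 2236, nat_lit 2739, ⟨.ofNat (nat_lit 396102), .ofNat (nat_lit 614629), .ofNat (nat_lit 440903), .ofNat (nat_lit 659464), .ofNat (nat_lit 397434), .ofNat (nat_lit 608392), .ofNat (nat_lit 442949), .ofNat (nat_lit 653941)⟩, ⟨.ofNat (nat_lit 0), .ofNat (nat_lit 0), .ofNat (nat_lit 0), .ofNat (nat_lit 0), .ofNat (nat_lit 0), .ofNat (nat_lit 0), .ofNat (nat_lit 0), .ofNat (nat_lit 0)⟩⟩, [⟨nat_lit 13, nat_lit 49, nat_lit 92, nat_lit 100, nat_lit 207423909⟩]⟩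
noncomputable def p024_l108 : Lf2 := ⟨nat_lit 0, nat_lit 10, [nat_lit 0, nat_lit 5, nat_lit 5, nat_lit 20], false, nat_lit 0, nat_lit 0, nat_lit 0, nat_lit 0, ⟨nat_lit 0, nat_lit 1000, nat_lit 0, nat_lit 4, nat_lit 203, nat_lit 0, nat_lit 0, nat_lit 0, nat_lit 0, nat_lit 0, nat_lit 0, nat_lit 0, nat_lit 53267039, nat_lit 13732961, nat_lit 0, nat_lit 2536073, false, true⟩,
 nat_lit 0, nat_lit 2722, nat_lit 0, nat_lit 0, nat_lit 2543, nat_lit 0, nat_lit 0, nat_lit 0, nat_lit 0, nat_lit 0, nat_lit 0, nat_lit 0, nat_lit 0, nat_lit 0, nat_lit 0, nat_lit 400000, nat_lit 0, nat_lit 0, [(nat_lit 27, [(nat_lit 1, nat_lit 1000)])],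
 ⟨p024_k30, nat_lit 0, nat_lit 0, nat_lit 299, nat_lit 0, nat_lit 638684, [nat_lit 697600000, nat_lit 324400000], [], [nat_lit 22336644258, nat_lit 23537375216, nat_lit 26110654431, nat_lit 27107140350], nat_lit 1271250, nat_lit 1271250, nat_lit 1100001, nat_lit 2196000, nat_lit 0, nat_lit 0, [nat_lit 230000, nat_lit 780000], [nat_lit 66, nat_lit 40, nat_lit 80, nat_lit 80, nat_lit 67, nat_lit 203, nat_lit 0, nat_lit 11]⟩, ⟨p024_k32, nat_lit 0, nat_lit 0, nat_lit 1378, nat_lit 0, nat_lit 2182493, [nat_lit 0, nat_lit 0], [], [nat_lit 0, nat_lit 0, nat_lit 0, nat_lit 0], nat_lit 1100001, nat_lit 1442500, nat_lit 1100001, nat_lit 2196000, nat_lit 0, nat_lit 0, [nat_lit 1695000, nat_lit 1271250], [nat_lit 121, nat_lit 40, nat_lit 80, nat_lit 80, nat_lit 28, nat_lit 406, nat_lit 125, nat_lit 10]⟩,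
 ⟨nat_lit 0, nat_lit 2237, ⟨.ofNat (nat_lit 397434), .ofNat (nat_lit 579878), .ofNat (nat_lit 441142), .ofNat (nat_lit 625429), .ofNat (nat_lit 399999), .ofNat (nat_lit 559993), .ofNat (nat_lit 448157), .ofNat (nat_lit 609995)⟩, ⟨.ofNat (nat_lit 0), .ofNat (nat_lit 0), .ofNat (nat_lit 0), .ofNat (nat_lit 0), .ofNat (nat_lit 0), .ofNat (nat_lit 0), .ofNat (nat_lit 0), .ofNat (nat_lit 0)⟩⟩, [⟨nat_lit 13, nat_lit 31, nat_lit 98, nat_lit 100, nat_lit 284935965⟩, ⟨nat_lit 13, nat_lit 44, nat_lit 90, nat_lit 100, nat_lit 50168053⟩]⟩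
noncomputable def p024_l109 : Lf2 := ⟨nat_lit 0, nat_lit 10, [nat_lit 0, nat_lit 5, nat_lit 5, nat_lit 20], true, nat_lit 0, nat_lit 0, nat_lit 0, nat_lit 0, ⟨nat_lit 0, nat_lit 1000, nat_lit 0, nat_lit 4, nat_lit 180, nat_lit 0, nat_lit 0, nat_lit 0, nat_lit 0, nat_lit 0, nat_lit 0, nat_lit 0, nat_lit 0, nat_lit 0, nat_lit 0, nat_lit 5000000, false, true⟩,
 nat_lit 0, nat_lit 4043, nat_lit 0, nat_lit 0, nat_lit 3521, nat_lit 0, nat_lit 0, nat_lit 0, nat_lit 0, nat_lit 0, nat_lit 0, nat_lit 0, nat_lit 0, nat_lit 0, nat_lit 0, nat_lit 340900, nat_lit 0, nat_lit 0, [(nat_lit 24, [(nat_lit 0, nat_lit 394), (nat_lit 1, nat_lit 606)]), (nat_lit 27, [(nat_lit 0, nat_lit 394), (nat_lit 1, nat_lit 606)])],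
 ⟨p024_k24, nat_lit 0, nat_lit 0, nat_lit 556, nat_lit 0, nat_lit 1075850, [nat_lit 892788801, nat_lit 1254515840], [], [nat_lit 26477875478, nat_lit 28024134347, nat_lit 29782639034, nat_lit 31124826876], nat_lit 1271250, nat_lit 1271250, nat_lit 279600, nat_lit 2323000, nat_lit 0, nat_lit 0, [nat_lit 230000, nat_lit 1100000], [nat_lit 86, nat_lit 40, nat_lit 80, nat_lit 80, nat_lit 87, nat_lit 317, nat_lit 100, nat_lit 15]⟩, C1.Rw.none,
 ⟨nat_lit 0, nat_lit 3163, ⟨.ofNat (nat_lit 216927), .ofNat (nat_lit 638543), .ofNat (nat_lit 258627), .ofNat (nat_lit 682855), .ofNat (nat_lit 252860), .ofNat (nat_lit 599993), .ofNat (nat_lit 300250), .ofNat (nat_lit 649995)⟩, ⟨.ofNat (nat_lit 0), .ofNat (nat_lit 0), .ofNat (nat_lit 0), .ofNat (nat_lit 0), .ofNat (nat_lit 0), .ofNat (nat_lit 0), .ofNat (nat_lit 0), .ofNat (nat_lit 0)⟩⟩, [⟨nat_lit 13, nat_lit 44, nat_lit 94, nat_lit 100, nat_lit 263315024⟩]⟩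
noncomputable def p024_l110 : Lf2 := ⟨nat_lit 0, nat_lit 10, [nat_lit 0, nat_lit 5, nat_lit 5, nat_lit 20], true, nat_lit 0, nat_lit 0, nat_lit 0, nat_lit 0, ⟨nat_lit 0, nat_lit 1000, nat_lit 0, nat_lit 4, nat_lit 180, nat_lit 0, nat_lit 0, nat_lit 0, nat_lit 0, nat_lit 0, nat_lit 0, nat_lit 0, nat_lit 55716995, nat_lit 11283005, nat_lit 0, nat_lit 2266723, false, true⟩,
 nat_lit 0, nat_lit 0, nat_lit 0, nat_lit 0, nat_lit 3100, nat_lit 0, nat_lit 0, nat_lit 0, nat_lit 0, nat_lit 0, nat_lit 0, nat_lit 0, nat_lit 0, nat_lit 0, nat_lit 0, nat_lit 250000, nat_lit 0, nat_lit 0, [(nat_lit 24, [(nat_lit 0, nat_lit 1000)]), (nat_lit 27, [(nat_lit 0, nat_lit 1000)])],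
 ⟨p024_k25, nat_lit 0, nat_lit 0, nat_lit 189, nat_lit 0, nat_lit 0, [nat_lit 780800001, nat_lit 1367200000, nat_lit 1705600000], [], [nat_lit 22502688961, nat_lit 25758488241, nat_lit 27902962001, nat_lit 29946971600], nat_lit 0, nat_lit 0, nat_lit 0, nat_lit 0, nat_lit 0, nat_lit 0, [], [nat_lit 35, nat_lit 40, nat_lit 80, nat_lit 80, nat_lit 22, nat_lit 317, nat_lit 100, nat_lit 15]⟩, C1.Rw.none,
 ⟨nat_lit 0, nat_lit 3163, ⟨.ofNat (nat_lit 216927), .ofNat (nat_lit 638543), .ofNat (nat_lit 258627), .ofNat (nat_lit 682855), .ofNat (nat_lit 252860), .ofNat (nat_lit 599993), .ofNat (nat_lit 300250), .ofNat (nat_lit 649995)⟩, ⟨.ofNat (nat_lit 0), .ofNat (nat_lit 0), .ofNat (nat_lit 0), .ofNat (nat_lit 0), .ofNat (nat_lit 0), .ofNat (nat_lit 0), .ofNat (nat_lit 0), .ofNat (nat_lit 0)⟩⟩, [⟨nat_lit 13, nat_lit 44, nat_lit 94, nat_lit 100, nat_lit 34546953⟩, ⟨nat_lit 13, nat_lit 60, nat_lit 80,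 nat_lit 100, nat_lit 25064341⟩]⟩
noncomputable def p024_l111 : Lf2 := ⟨nat_lit 0, nat_lit 10, [nat_lit 0, nat_lit 5, nat_lit 5, nat_lit 20], true, nat_lit 0, nat_lit 0, nat_lit 0, nat_lit 0, ⟨nat_lit 0, nat_lit 151, nat_lit 849, nat_lit 4, nat_lit 134, nat_lit 0, nat_lit 0, nat_lit 0, nat_lit 0, nat_lit 215, nat_lit 170017, nat_lit 316, nat_lit 60211276, nat_lit 6788724, nat_lit 0, nat_lit 1639911, false, false⟩,
 nat_lit 0, nat_lit 2970, nat_lit 0, nat_lit 0, nat_lit 2586, nat_lit 0, nat_lit 0, nat_lit 0, nat_lit 0, nat_lit 0, nat_lit 0, nat_lit 0, nat_lit 0, nat_lit 0, nat_lit 43, nat_lit 250000, nat_lit 0, nat_lit 0, [(nat_lit 24, [(nat_lit 0, nat_lit 151), (nat_lit 4, nat_lit 849)])],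
 ⟨p024_k24, nat_lit 0, nat_lit 0, nat_lit 347, nat_lit 0, nat_lit 576065, [nat_lit 955236400, nat_lit 59466400], [], [nat_lit 20336043404, nat_lit 21935797932, nat_lit 21673162960, nat_lit 22827958140], nat_lit 1271250, nat_lit 1271250, nat_lit 279600, nat_lit 1100001, nat_lit 0, nat_lit 0, [nat_lit 230000, nat_lit 1100000], [nat_lit 86, nat_lit 40, nat_lit 80, nat_lit 80, nat_lit 87, nat_lit 249, nat_lit 40, nat_lit 11]⟩, C1.Rw.none,
 ⟨nat_lit 2236, nat_lit 3163, ⟨.ofNat (nat_lit 223799), .ofNat (nat_lit 394735), .ofNat (nat_lit 267982), .ofNat (nat_lit 438942), .ofNat (nat_lit 237524), .ofNat (nat_lit 397434), .ofNat (nat_lit 282946), .ofNat (nat_lit 442880)⟩, ⟨.ofNat (nat_lit 0), .ofNat (nat_lit 0), .ofNat (nat_lit 0), .ofNat (nat_lit 0), .ofNat (nat_lit 0), .ofNat (nat_lit 0), .ofNat (nat_lit 0), .ofNat (nat_lit 0)⟩⟩, []⟩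
noncomputable def p024_l112 : Lf2 := ⟨nat_lit 0, nat_lit 10, [nat_lit 0, nat_lit 5, nat_lit 5, nat_lit 20], true, nat_lit 0, nat_lit 0, nat_lit 0, nat_lit 0, ⟨nat_lit 0, nat_lit 0, nat_lit 1000, nat_lit 4, nat_lit 145, nat_lit 0, nat_lit 0, nat_lit 0, nat_lit 0, nat_lit 215, nat_lit 198017, nat_lit 324, nat_lit 59177757, nat_lit 0, nat_lit 0, nat_lit 1801992, false, false⟩,
 nat_lit 0, nat_lit 2612, nat_lit 0, nat_lit 0, nat_lit 2440, nat_lit 0, nat_lit 0, nat_lit 0, nat_lit 0, nat_lit 0, nat_lit 0, nat_lit 0, nat_lit 0, nat_lit 0, nat_lit 149, nat_lit 400000, nat_lit 0, nat_lit 0, [(nat_lit 27, [(nat_lit 5, nat_lit 1000)])],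
 ⟨p024_k30, nat_lit 0, nat_lit 0, nat_lit 333, nat_lit 0, nat_lit 704092, [nat_lit 1188800001, nat_lit 11200000], [], [nat_lit 20643438401, nat_lit 22510627152, nat_lit 21593762892, nat_lit 22837669612], nat_lit 1271250, nat_lit 1271250, nat_lit 462650, nat_lit 1100001, nat_lit 0, nat_lit 0, [nat_lit 230000, nat_lit 780000], [nat_lit 66, nat_lit 40, nat_lit 80, nat_lit 80, nat_lit 67, nat_lit 249, nat_lit 40, nat_lit 14]⟩, C1.Rw.none,
 ⟨nat_lit 0, nat_lit 2237, ⟨.ofNat (nat_lit 273845), .ofNat (nat_lit 397434), .ofNat (nat_lit 317541), .ofNat (nat_lit 441142), .ofNat (nat_lit 291142), .ofNat (nat_lit 399999), .ofNat (nat_lit 339289), .ofNat (nat_lit 448157)⟩, ⟨.ofNat (nat_lit 0), .ofNat (nat_lit 0), .ofNat (nat_lit 0), .ofNat (nat_lit 0), .ofNat (nat_lit 0), .ofNat (nat_lit 0), .ofNat (nat_lit 0), .ofNat (nat_lit 0)⟩⟩, [⟨nat_lit 0, nat_lit 100, nat_lit 31, nat_lit 92, nat_lit 393950400⟩]⟩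
noncomputable def p024_l113 : Lf2 := ⟨nat_lit 0, nat_lit 10, [nat_lit 0, nat_lit 5, nat_lit 5, nat_lit 20], false, nat_lit 0, nat_lit 0, nat_lit 0, nat_lit 0, ⟨nat_lit 443, nat_lit 0, nat_lit 557, nat_lit 4, nat_lit 213, nat_lit 0, nat_lit 0, nat_lit 0, nat_lit 0, nat_lit 215, nat_lit 94460, nat_lit 200, nat_lit 52252667, nat_lit 0, nat_lit 0, nat_lit 2635231, false, true⟩,
 nat_lit 0, nat_lit 3428, nat_lit 0, nat_lit 0, nat_lit 2985, nat_lit 5074, nat_lit 65, nat_lit 0, nat_lit 0, nat_lit 0, nat_lit 0, nat_lit 0, nat_lit 0, nat_lit 0, nat_lit 0, nat_lit 222800, nat_lit 0, nat_lit 0, [(nat_lit 24, [(nat_lit 5, nat_lit 557)]), (nat_lit 27, [(nat_lit 5, nat_lit 557)])],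
 ⟨p024_k25, nat_lit 0, nat_lit 0, nat_lit 387, nat_lit 0, nat_lit 770667, [nat_lit 821475601, nat_lit 1022733734, nat_lit 1087106400], [], [nat_lit 23931844236, nat_lit 25683100344, nat_lit 27932200139, nat_lit 29625229660], nat_lit 1271250, nat_lit 1271250, nat_lit 1100001, nat_lit 2470000, nat_lit 0, nat_lit 0, [nat_lit 230000, nat_lit 780000, nat_lit 1100000], [nat_lit 35, nat_lit 40, nat_lit 80, nat_lit 80, nat_lit 22, nat_lit 203, nat_lit 0, nat_lit 8]⟩, ⟨p024_k26, nat_lit 0, nat_lit 0, nat_lit 300, nat_lit 0, nat_lit 0, [nat_lit 3529824000, nat_lit 5259296000, nat_lit 6227694000], [], [nat_lit 16942040564, nat_lit 17167055616, nat_lit 20891719308, nat_lit 20905108024], nat_lit 0, nat_lit 0, nat_lit 0, nat_lit 0, nat_lit 0, nat_lit 0, [], [nat_lit 62, nat_lit 40, nat_lit 80, nat_lit 80, nat_lit 58, nat_lit 373, nat_lit 150, nat_lit 9]⟩,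
 ⟨nat_lit 0, nat_lit 3163, ⟨.ofNat (nat_lit 394735), .ofNat (nat_lit 638543), .ofNat (nat_lit 436481), .ofNat (nat_lit 682855), .ofNat (nat_lit 399999), .ofNat (nat_lit 599993), .ofNat (nat_lit 447434), .ofNat (nat_lit 649995)⟩, ⟨.ofNat (nat_lit 0), .ofNat (nat_lit 0), .ofNat (nat_lit 0), .ofNat (nat_lit 0), .ofNat (nat_lit 0), .ofNat (nat_lit 0), .ofNat (nat_lit 0), .ofNat (nat_lit 0)⟩⟩, [⟨nat_lit 13, nat_lit 44, nat_lit 94, nat_lit 100, nat_lit 141805484⟩]⟩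
noncomputable def p024_l114 : Lf2 := ⟨nat_lit 0, nat_lit 10, [nat_lit 0, nat_lit 5, nat_lit 5, nat_lit 20], false, nat_lit 0, nat_lit 0, nat_lit 0, nat_lit 0, ⟨nat_lit 0, nat_lit 224, nat_lit 776, nat_lit 4, nat_lit 135, nat_lit 0, nat_lit 0, nat_lit 0, nat_lit 0, nat_lit 215, nat_lit 173400, nat_lit 317, nat_lit 60115343, nat_lit 6884657, nat_lit 0, nat_lit 1655481, false, false⟩,
 nat_lit 0, nat_lit 3129, nat_lit 0, nat_lit 0, nat_lit 2725, nat_lit 0, nat_lit 0, nat_lit 0, nat_lit 0, nat_lit 0, nat_lit 0, nat_lit 0, nat_lit 0, nat_lit 0, nat_lit 28, nat_lit 250000, nat_lit 0, nat_lit 0, [(nat_lit 24, [(nat_lit 0, nat_lit 224), (nat_lit 4, nat_lit 776)]), (nat_lit 27, [(nat_lit 0, nat_lit 224), (nat_lit 4, nat_lit 776)])],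
 ⟨p024_k24, nat_lit 0, nat_lit 0, nat_lit 339, nat_lit 0, nat_lit 513349, [nat_lit 877900801, nat_lit 24840000], [], [nat_lit 20388656560, nat_lit 24391627341, nat_lit 21201717010, nat_lit 23563924511], nat_lit 1271250, nat_lit 1271250, nat_lit 279600, nat_lit 1100001, nat_lit 0, nat_lit 0, [nat_lit 230000, nat_lit 1100000], [nat_lit 86, nat_lit 40, nat_lit 80, nat_lit 80, nat_lit 87, nat_lit 249, nat_lit 40, nat_lit 11]⟩, ⟨p024_k32, nat_lit 0, nat_lit 0, nat_lit 1252, nat_lit 0, nat_lit 1719526, [nat_lit 0, nat_lit 0], [], [nat_lit 0, nat_lit 0, nat_lit 0, nat_lit 0], nat_lit 1100001, nat_lit 1442500, nat_lit 279600, nat_lit 1100001, nat_lit 0, nat_lit 0, [nat_lit 1695000, nat_lit 1271250], [nat_lit 121, nat_lit 40, nat_lit 80, nat_lit 80, nat_lit 28, nat_lit 358, nat_lit 100, nat_lit 9]⟩,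
 ⟨nat_lit 0, nat_lit 3163, ⟨.ofNat (nat_lit 216927), .ofNat (nat_lit 394735), .ofNat (nat_lit 258627), .ofNat (nat_lit 436481), .ofNat (nat_lit 252860), .ofNat (nat_lit 399999), .ofNat (nat_lit 300250), .ofNat (nat_lit 447434)⟩, ⟨.ofNat (nat_lit 0), .ofNat (nat_lit 0), .ofNat (nat_lit 0), .ofNat (nat_lit 0), .ofNat (nat_lit 0), .ofNat (nat_lit 0), .ofNat (nat_lit 0), .ofNat (nat_lit 0)⟩⟩, [⟨nat_lit 0, nat_lit 100, nat_lit 44, nat_lit 86, nat_lit 139385039⟩]⟩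
noncomputable def p024_l115 : Lf2 := ⟨nat_lit 0, nat_lit 10, [nat_lit 0, nat_lit 5, nat_lit 5, nat_lit 20], false, nat_lit 0, nat_lit 0, nat_lit 0, nat_lit 0, ⟨nat_lit 0, nat_lit 585, nat_lit 415, nat_lit 4, nat_lit 215, nat_lit 0, nat_lit 0, nat_lit 0, nat_lit 0, nat_lit 215, nat_lit 94468, nat_lit 200, nat_lit 52025729, nat_lit 14974271, nat_lit 0, nat_lit 2656488, false, true⟩,
 nat_lit 0, nat_lit 2931, nat_lit 0, nat_lit 0, nat_lit 2552, nat_lit 0, nat_lit 0, nat_lit 0, nat_lit 0, nat_lit 0, nat_lit 0, nat_lit 0, nat_lit 0, nat_lit 0, nat_lit 0, nat_lit 250000, nat_lit 0, nat_lit 0, [(nat_lit 24, [(nat_lit 0, nat_lit 585), (nat_lit 4, nat_lit 415)])],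
 ⟨p024_k25, nat_lit 0, nat_lit 0, nat_lit 256, nat_lit 0, nat_lit 383723, [nat_lit 747928001, nat_lit 621694000, nat_lit 560486000], [], [nat_lit 21830176979, nat_lit 22894557123, nat_lit 26330089843, nat_lit 27158303224], nat_lit 1271250, nat_lit 1271250, nat_lit 1100001, nat_lit 2470000, nat_lit 0, nat_lit 0, [nat_lit 230000, nat_lit 780000, nat_lit 1100000], [nat_lit 35, nat_lit 40, nat_lit 80, nat_lit 80, nat_lit 22, nat_lit 203, nat_lit 0, nat_lit 8]⟩, ⟨p024_k26, nat_lit 0, nat_lit 0, nat_lit 984, nat_lit 0, nat_lit 1285326, [nat_lit 0, nat_lit 0, nat_lit 0], [], [nat_lit 0, nat_lit 0, nat_lit 0, nat_lit 0], nat_lit 1100001, nat_lit 1442500, nat_lit 1100001, nat_lit 2470000, nat_lit 0, nat_lit 0, [nat_lit 1695000, nat_lit 1271250, nat_lit 1271250], [nat_lit 62, nat_lit 40, nat_lit 80, nat_lit 80, nat_lit 58, nat_lit 373, nat_lit 150, nat_lit 9]⟩,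
 ⟨nat_lit 2236, nat_lit 3163, ⟨.ofNat (nat_lit 394735), .ofNat (nat_lit 638549), .ofNat (nat_lit 438942), .ofNat (nat_lit 682859), .ofNat (nat_lit 397434), .ofNat (nat_lit 625497), .ofNat (nat_lit 442880), .ofNat (nat_lit 671045)⟩, ⟨.ofNat (nat_lit 0), .ofNat (nat_lit 0), .ofNat (nat_lit 0), .ofNat (nat_lit 0), .ofNat (nat_lit 0), .ofNat (nat_lit 0), .ofNat (nat_lit 0), .ofNat (nat_lit 0)⟩⟩, [⟨nat_lit 13, nat_lit 53, nat_lit 90, nat_lit 100, nat_lit 239321813⟩]⟩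
noncomputable def p024_l116 : Lf2 := ⟨nat_lit 0, nat_lit 10, [nat_lit 0, nat_lit 5, nat_lit 5, nat_lit 20], false, nat_lit 0, nat_lit 0, nat_lit 0, nat_lit 0, ⟨nat_lit 0, nat_lit 1000, nat_lit 0, nat_lit 4, nat_lit 203, nat_lit 0, nat_lit 0, nat_lit 0, nat_lit 0, nat_lit 0, nat_lit 0, nat_lit 0, nat_lit 53267039, nat_lit 13732961, nat_lit 0, nat_lit 2536073, false, true⟩,
 nat_lit 0, nat_lit 2862, nat_lit 0, nat_lit 0, nat_lit 2674, nat_lit 0, nat_lit 0, nat_lit 0, nat_lit 0, nat_lit 0, nat_lit 0, nat_lit 0, nat_lit 0, nat_lit 0, nat_lit 0, nat_lit 288100, nat_lit 0, nat_lit 0, [(nat_lit 27, [(nat_lit 0, nat_lit 746), (nat_lit 1, nat_lit 254)])],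
 ⟨p024_k30, nat_lit 0, nat_lit 0, nat_lit 248, nat_lit 0, nat_lit 473148, [nat_lit 759667201, nat_lit 860326400], [], [nat_lit 22554629369, nat_lit 23819405737, nat_lit 26431010135, nat_lit 27457903825], nat_lit 1271250, nat_lit 1271250, nat_lit 1100001, nat_lit 2196000, nat_lit 0, nat_lit 0, [nat_lit 230000, nat_lit 780000], [nat_lit 66, nat_lit 40, nat_lit 80, nat_lit 80, nat_lit 67, nat_lit 203, nat_lit 0, nat_lit 11]⟩, ⟨p024_k32, nat_lit 0, nat_lit 0, nat_lit 1170, nat_lit 0, nat_lit 1719526, [nat_lit 0, nat_lit 0], [], [nat_lit 0, nat_lit 0, nat_lit 0, nat_lit 0], nat_lit 1100001, nat_lit 1442500, nat_lit 1100001, nat_lit 2196000, nat_lit 0, nat_lit 0, [nat_lit 1695000, nat_lit 1271250], [nat_lit 121, nat_lit 40, nat_lit 80, nat_lit 80, nat_lit 28, nat_lit 354, nat_lit 125, nat_lit 8]⟩,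
 ⟨nat_lit 0, nat_lit 2237, ⟨.ofNat (nat_lit 397434), .ofNat (nat_lit 579878), .ofNat (nat_lit 441142), .ofNat (nat_lit 625429), .ofNat (nat_lit 399999), .ofNat (nat_lit 559993), .ofNat (nat_lit 448157), .ofNat (nat_lit 609995)⟩, ⟨.ofNat (nat_lit 0), .ofNat (nat_lit 0), .ofNat (nat_lit 0), .ofNat (nat_lit 0), .ofNat (nat_lit 0), .ofNat (nat_lit 0), .ofNat (nat_lit 0), .ofNat (nat_lit 0)⟩⟩, [⟨nat_lit 13, nat_lit 31, nat_lit 98, nat_lit 100, nat_lit 370537476⟩]⟩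
noncomputable def p024_l117 : Lf2 := ⟨nat_lit 0, nat_lit 10, [nat_lit 0, nat_lit 5, nat_lit 5, nat_lit 20], true, nat_lit 0, nat_lit 0, nat_lit 0, nat_lit 0, ⟨nat_lit 0, nat_lit 1000, nat_lit 0, nat_lit 4, nat_lit 180, nat_lit 0, nat_lit 0, nat_lit 0, nat_lit 0, nat_lit 0, nat_lit 0, nat_lit 0, nat_lit 0, nat_lit 0, nat_lit 0, nat_lit 5000000, false, true⟩,
 nat_lit 0, nat_lit 3786, nat_lit 0, nat_lit 0, nat_lit 3297, nat_lit 0, nat_lit 0, nat_lit 0, nat_lit 0, nat_lit 0, nat_lit 0, nat_lit 0, nat_lit 0, nat_lit 0, nat_lit 0, nat_lit 354250, nat_lit 0, nat_lit 0, [(nat_lit 24, [(nat_lit 0, nat_lit 305), (nat_lit 1, nat_lit 695)]), (nat_lit 27, [(nat_lit 0, nat_lit 305), (nat_lit 1, nat_lit 695)])],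
 ⟨p024_k24, nat_lit 0, nat_lit 0, nat_lit 431, nat_lit 0, nat_lit 770667, [nat_lit 909236001, nat_lit 1193360000], [], [nat_lit 25487319854, nat_lit 27167447802, nat_lit 29057730066, nat_lit 30498129532], nat_lit 1271250, nat_lit 1271250, nat_lit 279600, nat_lit 2323000, nat_lit 0, nat_lit 0, [nat_lit 230000, nat_lit 1100000], [nat_lit 86, nat_lit 40, nat_lit 80, nat_lit 80, nat_lit 87, nat_lit 317, nat_lit 100, nat_lit 15]⟩, C1.Rw.none,
 ⟨nat_lit 0, nat_lit 3163, ⟨.ofNat (nat_lit 216927), .ofNat (nat_lit 638543), .ofNat (nat_lit 258627), .ofNat (nat_lit 682855), .ofNat (nat_lit 252860), .ofNat (nat_lit 599993), .ofNat (nat_lit 300250), .ofNat (nat_lit 649995)⟩, ⟨.ofNat (nat_lit 0), .ofNat (nat_lit 0), .ofNat (nat_lit 0), .ofNat (nat_lit 0), .ofNat (nat_lit 0), .ofNat (nat_lit 0), .ofNat (nat_lit 0), .ofNat (nat_lit 0)⟩⟩, [⟨nat_lit 13, nat_lit 44, nat_lit 94, nat_lit 100, nat_lit 273660356⟩]⟩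
noncomputable def p024_l118 : Lf2 := ⟨nat_lit 0, nat_lit 10, [nat_lit 0, nat_lit 5, nat_lit 5, nat_lit 20], true, nat_lit 0, nat_lit 0, nat_lit 0, nat_lit 0, ⟨nat_lit 0, nat_lit 554, nat_lit 446, nat_lit 4, nat_lit 180, nat_lit 0, nat_lit 0, nat_lit 0, nat_lit 0, nat_lit 215, nat_lit 94460, nat_lit 200, nat_lit 55716995, nat_lit 11283005, nat_lit 0, nat_lit 2266723, false, true⟩,
 nat_lit 0, nat_lit 0, nat_lit 0, nat_lit 1913, nat_lit 2380, nat_lit 0, nat_lit 0, nat_lit 0, nat_lit 0, nat_lit 0, nat_lit 0, nat_lit 0, nat_lit 0, nat_lit 0, nat_lit 0, nat_lit 250000, nat_lit 0, nat_lit 0, [(nat_lit 24, [(nat_lit 0, nat_lit 554), (nat_lit 4, nat_lit 446)]), (nat_lit 27, [(nat_lit 0, nat_lit 554), (nat_lit 4, nat_lit 446)])],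
 ⟨p024_k24, nat_lit 0, nat_lit 0, nat_lit 180, nat_lit 0, nat_lit 0, [nat_lit 772236801, nat_lit 473748000], [], [nat_lit 20227721363, nat_lit 23134115313, nat_lit 26137576003, nat_lit 27932587280], nat_lit 0, nat_lit 0, nat_lit 0, nat_lit 0, nat_lit 0, nat_lit 0, [], [nat_lit 86, nat_lit 40, nat_lit 80, nat_lit 80, nat_lit 87, nat_lit 317, nat_lit 100, nat_lit 15]⟩, C1.Rw.none,
 ⟨nat_lit 0, nat_lit 3163, ⟨.ofNat (nat_lit 216927), .ofNat (nat_lit 638543), .ofNat (nat_lit 258627), .ofNat (nat_lit 682855), .ofNat (nat_lit 252860), .ofNat (nat_lit 599993), .ofNat (nat_lit 300250), .ofNat (nat_lit 649995)⟩, ⟨.ofNat (nat_lit 0), .ofNat (nat_lit 0), .ofNat (nat_lit 0), .ofNat (nat_lit 0), .ofNat (nat_lit 0), .ofNat (nat_lit 0), .ofNat (nat_lit 0), .ofNat (nat_lit 0)⟩⟩, [⟨nat_lit 13, nat_lit 44, nat_lit 94, nat_lit 100, nat_lit 148687096⟩]⟩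
noncomputable def p024_l119 : Lf2 := ⟨nat_lit 0, nat_lit 10, [nat_lit 0, nat_lit 5, nat_lit 5, nat_lit 20], true, nat_lit 0, nat_lit 0, nat_lit 0, nat_lit 0, ⟨nat_lit 0, nat_lit 1000, nat_lit 0, nat_lit 4, nat_lit 180, nat_lit 0, nat_lit 0, nat_lit 0, nat_lit 0, nat_lit 0, nat_lit 0, nat_lit 0, nat_lit 0, nat_lit 0, nat_lit 0, nat_lit 5000000, false, true⟩,
 nat_lit 0, nat_lit 0, nat_lit 0, nat_lit 0, nat_lit 1358, nat_lit 0, nat_lit 0, nat_lit 0, nat_lit 0, nat_lit 0, nat_lit 0, nat_lit 0, nat_lit 0, nat_lit 0, nat_lit 0, nat_lit 250000, nat_lit 0, nat_lit 0, [(nat_lit 24, [(nat_lit 0, nat_lit 1000)]), (nat_lit 27, [(nat_lit 0, nat_lit 1000)])],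
 ⟨p024_k24, nat_lit 0, nat_lit 0, nat_lit 180, nat_lit 0, nat_lit 0, [nat_lit 780800001, nat_lit 1705600000], [], [nat_lit 24178767099, nat_lit 26291438282, nat_lit 30294342163, nat_lit 31807026499], nat_lit 0, nat_lit 0, nat_lit 0, nat_lit 0, nat_lit 0, nat_lit 0, [], [nat_lit 86, nat_lit 40, nat_lit 80, nat_lit 80, nat_lit 87, nat_lit 317, nat_lit 100, nat_lit 15]⟩, C1.Rw.none,
 ⟨nat_lit 0, nat_lit 3163, ⟨.ofNat (nat_lit 216927), .ofNat (nat_lit 638543), .ofNat (nat_lit 258627), .ofNat (nat_lit 682855), .ofNat (nat_lit 252860), .ofNat (nat_lit 599993), .ofNat (nat_lit 300250), .ofNat (nat_lit 649995)⟩, ⟨.ofNat (nat_lit 0), .ofNat (nat_lit 0), .ofNat (nat_lit 0), .ofNat (nat_lit 0), .ofNat (nat_lit 0), .ofNat (nat_lit 0), .ofNat (nat_lit 0), .ofNat (nat_lit 0)⟩⟩, [⟨nat_lit 13, nat_lit 44, nat_lit 94, nat_lit 100, nat_lit 368236789⟩]⟩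
noncomputable def p024_l120 : Lf2 := ⟨nat_lit 0, nat_lit 10, [nat_lit 0, nat_lit 5, nat_lit 5, nat_lit 20], false, nat_lit 0, nat_lit 0, nat_lit 0, nat_lit 0, ⟨nat_lit 157, nat_lit 18, nat_lit 825, nat_lit 4, nat_lit 182, nat_lit 0, nat_lit 0, nat_lit 0, nat_lit 0, nat_lit 215, nat_lit 94468, nat_lit 200, nat_lit 55559616, nat_lit 11440384, nat_lit 0, nat_lit 2285381, false, true⟩,
 nat_lit 0, nat_lit 2497, nat_lit 0, nat_lit 0, nat_lit 2174, nat_lit 2853, nat_lit 0, nat_lit 0, nat_lit 0, nat_lit 0, nat_lit 0, nat_lit 0, nat_lit 0, nat_lit 0, nat_lit 9, nat_lit 210750, nat_lit 0, nat_lit 0, [(nat_lit 24, [(nat_lit 0, nat_lit 18), (nat_lit 4, nat_lit 825)])],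
 ⟨p024_k25, nat_lit 0, nat_lit 0, nat_lit 247, nat_lit 0, nat_lit 242630, [nat_lit 796283601, nat_lit 293793600, nat_lit 38946200], [], [nat_lit 19436052401, nat_lit 20589109188, nat_lit 25913003087, nat_lit 26948615059], nat_lit 1271250, nat_lit 1271250, nat_lit 279600, nat_lit 2323000, nat_lit 0, nat_lit 0, [nat_lit 230000, nat_lit 780000, nat_lit 1100000], [nat_lit 35, nat_lit 40, nat_lit 80, nat_lit 80, nat_lit 22, nat_lit 317, nat_lit 100, nat_lit 15]⟩, ⟨p024_k26, nat_lit 0, nat_lit 0, nat_lit 439, nat_lit 0, nat_lit 0, [nat_lit 1250976000, nat_lit 1863904000, nat_lit 2207106000], [], [nat_lit 10075569060, nat_lit 9938094212, nat_lit 8547321724, nat_lit 8299747136], nat_lit 0, nat_lit 0, nat_lit 0, nat_lit 0, nat_lit 0, nat_lit 0, [], [nat_lit 62, nat_lit 40, nat_lit 80, nat_lit 80, nat_lit 58, nat_lit 373, nat_lit 150, nat_lit 9]⟩,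
 ⟨nat_lit 2236, nat_lit 3163, ⟨.ofNat (nat_lit 223799), .ofNat (nat_lit 638549), .ofNat (nat_lit 267982), .ofNat (nat_lit 682859), .ofNat (nat_lit 237524), .ofNat (nat_lit 625497), .ofNat (nat_lit 282946), .ofNat (nat_lit 671045)⟩, ⟨.ofNat (nat_lit 0), .ofNat (nat_lit 0), .ofNat (nat_lit 0), .ofNat (nat_lit 0), .ofNat (nat_lit 0), .ofNat (nat_lit 0), .ofNat (nat_lit 0), .ofNat (nat_lit 0)⟩⟩, []⟩
noncomputable def p024_l121 : Lf2 := ⟨nat_lit 0, nat_lit 10, [nat_lit 0, nat_lit 5, nat_lit 5, nat_lit 20], false, nat_lit 0, nat_lit 0, nat_lit 0, nat_lit 0, ⟨nat_lit 140, nat_lit 445, nat_lit 415, nat_lit 4, nat_lit 180, nat_lit 0, nat_lit 0, nat_lit 0, nat_lit 0, nat_lit 215, nat_lit 4626, nat_lit 204, nat_lit 55732308, nat_lit 11267692, nat_lit 0, nat_lit 2264897, false, true⟩,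
 nat_lit 0, nat_lit 2657, nat_lit 0, nat_lit 0, nat_lit 2482, nat_lit 2817, nat_lit 0, nat_lit 0, nat_lit 0, nat_lit 0, nat_lit 0, nat_lit 0, nat_lit 0, nat_lit 0, nat_lit 0, nat_lit 215000, nat_lit 0, nat_lit 0, [(nat_lit 27, [(nat_lit 0, nat_lit 445), (nat_lit 4, nat_lit 415)])],
 ⟨p024_k30, nat_lit 0, nat_lit 0, nat_lit 246, nat_lit 0, nat_lit 406188, [nat_lit 794840001, nat_lit 485120000], [], [nat_lit 21255400735, nat_lit 22650147550, nat_lit 26422661953, nat_lit 27446325688], nat_lit 1271250, nat_lit 1271250, nat_lit 462650, nat_lit 2110950, nat_lit 0, nat_lit 0, [nat_lit 230000, nat_lit 780000], [nat_lit 66, nat_lit 40, nat_lit 80, nat_lit 80, nat_lit 67, nat_lit 289, nat_lit 75, nat_lit 17]⟩, ⟨p024_k26, nat_lit 0, nat_lit 0, nat_lit 402, nat_lit 0, nat_lit 0, [nat_lit 1115520000, nat_lit 1662080000, nat_lit 1968120000], [], [nat_lit 8337226351, nat_lit 8197853700, nat_lit 7399207233,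 nat_lit 7160765876], nat_lit 0, nat_lit 0, nat_lit 0, nat_lit 0, nat_lit 0, nat_lit 0, [], [nat_lit 62, nat_lit 40, nat_lit 80, nat_lit 80, nat_lit 58, nat_lit 345, nat_lit 125, nat_lit 9]⟩,
 ⟨nat_lit 0, nat_lit 2237, ⟨.ofNat (nat_lit 273845), .ofNat (nat_lit 579878), .ofNat (nat_lit 317541), .ofNat (nat_lit 625429), .ofNat (nat_lit 291142), .ofNat (nat_lit 559993), .ofNat (nat_lit 339289), .ofNat (nat_lit 609995)⟩, ⟨.ofNat (nat_lit 0), .ofNat (nat_lit 0), .ofNat (nat_lit 0), .ofNat (nat_lit 0), .ofNat (nat_lit 0), .ofNat (nat_lit 0), .ofNat (nat_lit 0), .ofNat (nat_lit 0)⟩⟩, []⟩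
noncomputable def p024_l122 : Lf2 := ⟨nat_lit 0, nat_lit 10, [nat_lit 0, nat_lit 5, nat_lit 5, nat_lit 20], false, nat_lit 0, nat_lit 0, nat_lit 0, nat_lit 0, ⟨nat_lit 0, nat_lit 506, nat_lit 494, nat_lit 4, nat_lit 182, nat_lit 0, nat_lit 0, nat_lit 0, nat_lit 0, nat_lit 215, nat_lit 94468, nat_lit 200, nat_lit 55559616, nat_lit 11440384, nat_lit 0, nat_lit 2285381, false, true⟩,
 nat_lit 0, nat_lit 2725, nat_lit 0, nat_lit 0, nat_lit 2373, nat_lit 0, nat_lit 0, nat_lit 0, nat_lit 0, nat_lit 0, nat_lit 0, nat_lit 0, nat_lit 0, nat_lit 0, nat_lit 0, nat_lit 250000, nat_lit 0, nat_lit 0, [(nat_lit 24, [(nat_lit 0, nat_lit 506), (nat_lit 4, nat_lit 494)])],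
 ⟨p024_k25, nat_lit 0, nat_lit 0, nat_lit 214, nat_lit 0, nat_lit 166690, [nat_lit 745020801, nat_lit 479778400, nat_lit 343109600], [], [nat_lit 20214511094, nat_lit 21408389442, nat_lit 25812813922, nat_lit 26690907253], nat_lit 1271250, nat_lit 1271250, nat_lit 279600, nat_lit 2323000, nat_lit 0, nat_lit 0, [nat_lit 230000, nat_lit 780000, nat_lit 1100000], [nat_lit 35, nat_lit 40, nat_lit 80, nat_lit 80, nat_lit 22, nat_lit 317, nat_lit 100, nat_lit 15]⟩, ⟨p024_k26, nat_lit 0, nat_lit 0, nat_lit 748, nat_lit 0, nat_lit 584361, [nat_lit 0, nat_lit 0, nat_lit 0], [], [nat_lit 0, nat_lit 0, nat_lit 0, nat_lit 0], nat_lit 1100001, nat_lit 1442500, nat_lit 279600, nat_lit 2323000, nat_lit 0, nat_lit 0, [nat_lit 1695000, nat_lit 1271250, nat_lit 1271250], [nat_lit 62, nat_lit 40, nat_lit 80, nat_lit 80, nat_lit 58, nat_lit 373, nat_lit 150, nat_lit 9]⟩,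
 ⟨nat_lit 2236, nat_lit 3163, ⟨.ofNat (nat_lit 223799), .ofNat (nat_lit 638549), .ofNat (nat_lit 267982), .ofNat (nat_lit 682859), .ofNat (nat_lit 237524), .ofNat (nat_lit 625497), .ofNat (nat_lit 282946), .ofNat (nat_lit 671045)⟩, ⟨.ofNat (nat_lit 0), .ofNat (nat_lit 0), .ofNat (nat_lit 0), .ofNat (nat_lit 0), .ofNat (nat_lit 0), .ofNat (nat_lit 0), .ofNat (nat_lit 0), .ofNat (nat_lit 0)⟩⟩, [⟨nat_lit 13, nat_lit 53, nat_lit 90, nat_lit 100, nat_lit 128971621⟩]⟩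
noncomputable def p024_l123 : Lf2 := ⟨nat_lit 0, nat_lit 10, [nat_lit 0, nat_lit 5, nat_lit 5, nat_lit 20], false, nat_lit 0, nat_lit 0, nat_lit 0, nat_lit 0, ⟨nat_lit 0, nat_lit 800, nat_lit 200, nat_lit 4, nat_lit 180, nat_lit 0, nat_lit 0, nat_lit 0, nat_lit 0, nat_lit 215, nat_lit 4626, nat_lit 204, nat_lit 55732308, nat_lit 11267692, nat_lit 0, nat_lit 2264897, false, true⟩,
 nat_lit 0, nat_lit 2589, nat_lit 0, nat_lit 0, nat_lit 2419, nat_lit 0, nat_lit 0, nat_lit 0, nat_lit 0, nat_lit 0, nat_lit 0, nat_lit 0, nat_lit 0, nat_lit 0, nat_lit 0, nat_lit 250000, nat_lit 0, nat_lit 0, [(nat_lit 27, [(nat_lit 0, nat_lit 800), (nat_lit 4, nat_lit 200)])],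
 ⟨p024_k30, nat_lit 0, nat_lit 0, nat_lit 206, nat_lit 0, nat_lit 281159, [nat_lit 776960001, nat_lit 622960000], [], [nat_lit 20967235571, nat_lit 22444323521, nat_lit 26121503196, nat_lit 27161419030], nat_lit 1271250, nat_lit 1271250, nat_lit 462650, nat_lit 2110950, nat_lit 0, nat_lit 0, [nat_lit 230000, nat_lit 780000], [nat_lit 66, nat_lit 40, nat_lit 80, nat_lit 80, nat_lit 67, nat_lit 289, nat_lit 75, nat_lit 17]⟩, ⟨p024_k32, nat_lit 0, nat_lit 0, nat_lit 937, nat_lit 0, nat_lit 1071968, [nat_lit 0, nat_lit 0], [], [nat_lit 0, nat_lit 0, nat_lit 0, nat_lit 0], nat_lit 1100001, nat_lit 1442500, nat_lit 462650, nat_lit 2110950, nat_lit 0, nat_lit 0, [nat_lit 1695000, nat_lit 1271250], [nat_lit 121, nat_lit 40, nat_lit 80, nat_lit 80, nat_lit 28, nat_lit 345, nat_lit 125, nat_lit 9]⟩,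
 ⟨nat_lit 0, nat_lit 2237, ⟨.ofNat (nat_lit 273845), .ofNat (nat_lit 579878), .ofNat (nat_lit 317541), .ofNat (nat_lit 625429), .ofNat (nat_lit 291142), .ofNat (nat_lit 559993), .ofNat (nat_lit 339289), .ofNat (nat_lit 609995)⟩, ⟨.ofNat (nat_lit 0), .ofNat (nat_lit 0), .ofNat (nat_lit 0), .ofNat (nat_lit 0), .ofNat (nat_lit 0), .ofNat (nat_lit 0), .ofNat (nat_lit 0), .ofNat (nat_lit 0)⟩⟩, [⟨nat_lit 13, nat_lit 31, nat_lit 98, nat_lit 100, nat_lit 258938960⟩]⟩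
noncomputable def p024_l124 : Lf2 := ⟨nat_lit 0, nat_lit 10, [nat_lit 0, nat_lit 5, nat_lit 5, nat_lit 20], true, nat_lit 0, nat_lit 0, nat_lit 0, nat_lit 0, ⟨nat_lit 0, nat_lit 1000, nat_lit 0, nat_lit 4, nat_lit 180, nat_lit 0, nat_lit 0, nat_lit 0, nat_lit 0, nat_lit 0, nat_lit 0, nat_lit 0, nat_lit 0, nat_lit 0, nat_lit 0, nat_lit 5000000, false, true⟩,
 nat_lit 0, nat_lit 3534, nat_lit 0, nat_lit 0, nat_lit 3077, nat_lit 0, nat_lit 0, nat_lit 0, nat_lit 0, nat_lit 0, nat_lit 0, nat_lit 0, nat_lit 0, nat_lit 0, nat_lit 0, nat_lit 355150, nat_lit 0, nat_lit 0, [(nat_lit 24, [(nat_lit 0, nat_lit 299), (nat_lit 1, nat_lit 701)]), (nat_lit 27, [(nat_lit 0, nat_lit 299), (nat_lit 1, nat_lit 701)])],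
 ⟨p024_k24, nat_lit 0, nat_lit 0, nat_lit 325, nat_lit 0, nat_lit 445086, [nat_lit 910344801, nat_lit 1189328000], [], [nat_lit 23832474451, nat_lit 25999417698, nat_lit 28337682042, nat_lit 29882623212], nat_lit 1271250, nat_lit 1271250, nat_lit 279600, nat_lit 2323000, nat_lit 0, nat_lit 0, [nat_lit 230000, nat_lit 1100000], [nat_lit 86, nat_lit 40, nat_lit 80, nat_lit 80, nat_lit 87, nat_lit 317, nat_lit 100, nat_lit 15]⟩, C1.Rw.none,
 ⟨nat_lit 0, nat_lit 3163, ⟨.ofNat (nat_lit 216927), .ofNat (nat_lit 638543), .ofNat (nat_lit 258627), .ofNat (nat_lit 682855), .ofNat (nat_lit 252860), .ofNat (nat_lit 599993), .ofNat (nat_lit 300250), .ofNat (nat_lit 649995)⟩, ⟨.ofNat (nat_lit 0), .ofNat (nat_lit 0), .ofNat (nat_lit 0), .ofNat (nat_lit 0), .ofNat (nat_lit 0), .ofNat (nat_lit 0), .ofNat (nat_lit 0), .ofNat (nat_lit 0)⟩⟩, [⟨nat_lit 13, nat_lit 44, nat_lit 94, nat_lit 100, nat_lit 297973970⟩]⟩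
noncomputable def p024_l125 : Lf2 := ⟨nat_lit 0, nat_lit 10, [nat_lit 0, nat_lit 5, nat_lit 5, nat_lit 20], true, nat_lit 0, nat_lit 0, nat_lit 0, nat_lit 0, ⟨nat_lit 0, nat_lit 554, nat_lit 446, nat_lit 4, nat_lit 180, nat_lit 0, nat_lit 0, nat_lit 0, nat_lit 0, nat_lit 215, nat_lit 94460, nat_lit 200, nat_lit 55716995, nat_lit 11283005, nat_lit 0, nat_lit 2266723, false, true⟩,
 nat_lit 0, nat_lit 0, nat_lit 0, nat_lit 2774, nat_lit 2380, nat_lit 0, nat_lit 0, nat_lit 0, nat_lit 0, nat_lit 0, nat_lit 0, nat_lit 0, nat_lit 0, nat_lit 0, nat_lit 0, nat_lit 250000, nat_lit 0, nat_lit 0, [(nat_lit 24, [(nat_lit 0, nat_lit 554), (nat_lit 4, nat_lit 446)]), (nat_lit 27, [(nat_lit 0, nat_lit 554), (nat_lit 4, nat_lit 446)])],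
 ⟨p024_k24, nat_lit 0, nat_lit 0, nat_lit 180, nat_lit 0, nat_lit 0, [nat_lit 772236801, nat_lit 473748000], [], [nat_lit 20227721363, nat_lit 23134115313, nat_lit 26137576003, nat_lit 27932587280], nat_lit 0, nat_lit 0, nat_lit 0, nat_lit 0, nat_lit 0, nat_lit 0, [], [nat_lit 86, nat_lit 40, nat_lit 80, nat_lit 80, nat_lit 87, nat_lit 317, nat_lit 100, nat_lit 15]⟩, C1.Rw.none,
 ⟨nat_lit 0, nat_lit 3163, ⟨.ofNat (nat_lit 216927), .ofNat (nat_lit 638543), .ofNat (nat_lit 258627), .ofNat (nat_lit 682855), .ofNat (nat_lit 252860), .ofNat (nat_lit 599993), .ofNat (nat_lit 300250), .ofNat (nat_lit 649995)⟩, ⟨.ofNat (nat_lit 0), .ofNat (nat_lit 0), .ofNat (nat_lit 0), .ofNat (nat_lit 0), .ofNat (nat_lit 0), .ofNat (nat_lit 0), .ofNat (nat_lit 0), .ofNat (nat_lit 0)⟩⟩, [⟨nat_lit 13, nat_lit 44, nat_lit 94, nat_lit 100, nat_lit 163528327⟩]⟩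
noncomputable def p024_l126 : Lf2 := ⟨nat_lit 0, nat_lit 10, [nat_lit 0, nat_lit 5, nat_lit 5, nat_lit 20], true, nat_lit 0, nat_lit 0, nat_lit 0, nat_lit 0, ⟨nat_lit 0, nat_lit 1000, nat_lit 0, nat_lit 4, nat_lit 180, nat_lit 0, nat_lit 0, nat_lit 0, nat_lit 0, nat_lit 0, nat_lit 0, nat_lit 0, nat_lit 0, nat_lit 0, nat_lit 0, nat_lit 5000000, false, true⟩,
 nat_lit 0, nat_lit 0, nat_lit 0, nat_lit 13099, nat_lit 0, nat_lit 0, nat_lit 0, nat_lit 0, nat_lit 0, nat_lit 0, nat_lit 0, nat_lit 0, nat_lit 0, nat_lit 0, nat_lit 0, nat_lit 250000, nat_lit 0, nat_lit 0, [(nat_lit 24, [(nat_lit 0, nat_lit 1000)]), (nat_lit 27, [(nat_lit 0, nat_lit 1000)])],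
 ⟨p024_k24, nat_lit 0, nat_lit 0, nat_lit 180, nat_lit 0, nat_lit 0, [nat_lit 780800001, nat_lit 1705600000], [], [nat_lit 26120962403, nat_lit 27597664803, nat_lit 32509892003, nat_lit 33679828003], nat_lit 0, nat_lit 0, nat_lit 0, nat_lit 0, nat_lit 0, nat_lit 0, [], [nat_lit 86, nat_lit 40, nat_lit 80, nat_lit 80, nat_lit 87, nat_lit 317, nat_lit 100, nat_lit 15]⟩, C1.Rw.none,
 ⟨nat_lit 0, nat_lit 3163, ⟨.ofNat (nat_lit 216927), .ofNat (nat_lit 638543), .ofNat (nat_lit 258627), .ofNat (nat_lit 682855), .ofNat (nat_lit 252860), .ofNat (nat_lit 599993), .ofNat (nat_lit 300250), .ofNat (nat_lit 649995)⟩, ⟨.ofNat (nat_lit 0), .ofNat (nat_lit 0), .ofNat (nat_lit 0), .ofNat (nat_lit 0), .ofNat (nat_lit 0), .ofNat (nat_lit 0), .ofNat (nat_lit 0), .ofNat (nat_lit 0)⟩⟩, [⟨nat_lit 13, nat_lit 44, nat_lit 94, nat_lit 100, nat_lit 391909312⟩]⟩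
noncomputable def p024_l127 : Lf2 := ⟨nat_lit 0, nat_lit 10, [nat_lit 0, nat_lit 5, nat_lit 5, nat_lit 20], false, nat_lit 0, nat_lit 0, nat_lit 0, nat_lit 0, ⟨nat_lit 176, nat_lit 180, nat_lit 644, nat_lit 4, nat_lit 180, nat_lit 0, nat_lit 0, nat_lit 0, nat_lit 0, nat_lit 215, nat_lit 94460, nat_lit 200, nat_lit 55716995, nat_lit 11283005, nat_lit 0, nat_lit 2266723, false, true⟩,
 nat_lit 0, nat_lit 2616, nat_lit 0, nat_lit 0, nat_lit 2278, nat_lit 1572, nat_lit 0, nat_lit 0, nat_lit 0, nat_lit 0, nat_lit 0, nat_lit 0, nat_lit 0, nat_lit 0, nat_lit 0, nat_lit 206000, nat_lit 0, nat_lit 0, [(nat_lit 24, [(nat_lit 0, nat_lit 180), (nat_lit 4, nat_lit 644)]), (nat_lit 27, [(nat_lit 0, nat_lit 180), (nat_lit 4, nat_lit 644)])],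
 ⟨p024_k25, nat_lit 0, nat_lit 0, nat_lit 211, nat_lit 0, nat_lit 96268, [nat_lit 796102401, nat_lit 547323200, nat_lit 451774400], [], [nat_lit 20347366381, nat_lit 22762329148, nat_lit 26327567708, nat_lit 28140004135], nat_lit 1271250, nat_lit 1271250, nat_lit 279600, nat_lit 2323000, nat_lit 0, nat_lit 0, [nat_lit 230000, nat_lit 780000, nat_lit 1100000], [nat_lit 35, nat_lit 40, nat_lit 80, nat_lit 80, nat_lit 22, nat_lit 317, nat_lit 100, nat_lit 15]⟩, ⟨p024_k26, nat_lit 0, nat_lit 0, nat_lit 439, nat_lit 0, nat_lit 0, [nat_lit 1402368000, nat_lit 2089472000, nat_lit 2474208000], [], [nat_lit 10286975728, nat_lit 10259050301, nat_lit 9911290352, nat_lit 9838031200], nat_lit 0, nat_lit 0, nat_lit 0, nat_lit 0, nat_lit 0, nat_lit 0, [], [nat_lit 62, nat_lit 40, nat_lit 80, nat_lit 80, nat_lit 58, nat_lit 373, nat_lit 150, nat_lit 9]⟩,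
 ⟨nat_lit 0, nat_lit 3163, ⟨.ofNat (nat_lit 216927), .ofNat (nat_lit 638543), .ofNat (nat_lit 258627), .ofNat (nat_lit 682855), .ofNat (nat_lit 252860), .ofNat (nat_lit 599993), .ofNat (nat_lit 300250), .ofNat (nat_lit 649995)⟩, ⟨.ofNat (nat_lit 0), .ofNat (nat_lit 0), .ofNat (nat_lit 0), .ofNat (nat_lit 0), .ofNat (nat_lit 0), .ofNat (nat_lit 0), .ofNat (nat_lit 0), .ofNat (nat_lit 0)⟩⟩, []⟩
noncomputable def p024_l128 : Lf2 := ⟨nat_lit 1, nat_lit 10, [nat_lit 0, nat_lit 5, nat_lit 5, nat_lit 20], false, nat_lit 0, nat_lit 0, nat_lit 0, nat_lit 0, zbN0,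
 nat_lit 0, nat_lit 0, nat_lit 0, nat_lit 0, nat_lit 0, nat_lit 0, nat_lit 0, nat_lit 0, nat_lit 0, nat_lit 0, nat_lit 0, nat_lit 0, nat_lit 0, nat_lit 0, nat_lit 0, nat_lit 0, nat_lit 0, nat_lit 0, [],
 C1.Rw.none, C1.Rw.none,
 zbF0, []⟩
noncomputable def p024_l129 : Lf2 := ⟨nat_lit 0, nat_lit 10, [nat_lit 0, nat_lit 5, nat_lit 5, nat_lit 20], true, nat_lit 0, nat_lit 0, nat_lit 0, nat_lit 0, ⟨nat_lit 0, nat_lit 879, nat_lit 121, nat_lit 4, nat_lit 180, nat_lit 0, nat_lit 0, nat_lit 0, nat_lit 0, nat_lit 215, nat_lit 4626, nat_lit 204, nat_lit 55732308, nat_lit 11267692, nat_lit 0, nat_lit 2264897, false, true⟩,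
 nat_lit 0, nat_lit 2550, nat_lit 0, nat_lit 0, nat_lit 2382, nat_lit 0, nat_lit 0, nat_lit 0, nat_lit 0, nat_lit 0, nat_lit 0, nat_lit 0, nat_lit 0, nat_lit 0, nat_lit 0, nat_lit 250000, nat_lit 0, nat_lit 0, [(nat_lit 27, [(nat_lit 0, nat_lit 879), (nat_lit 4, nat_lit 121)])],
 ⟨p024_k30, nat_lit 0, nat_lit 0, nat_lit 168, nat_lit 0, nat_lit 87828, [nat_lit 778476801, nat_lit 788796800], [], [nat_lit 20751106847, nat_lit 22327502836, nat_lit 25590297046, nat_lit 26676562113], nat_lit 1271250, nat_lit 1271250, nat_lit 462650, nat_lit 2110950, nat_lit 0, nat_lit 0, [nat_lit 230000, nat_lit 780000], [nat_lit 66, nat_lit 40, nat_lit 80, nat_lit 80, nat_lit 67, nat_lit 289, nat_lit 75, nat_lit 17]⟩, C1.Rw.none,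
 ⟨nat_lit 0, nat_lit 2237, ⟨.ofNat (nat_lit 273845), .ofNat (nat_lit 579878), .ofNat (nat_lit 317541), .ofNat (nat_lit 625429), .ofNat (nat_lit 291142), .ofNat (nat_lit 559993), .ofNat (nat_lit 339289), .ofNat (nat_lit 609995)⟩, ⟨.ofNat (nat_lit 0), .ofNat (nat_lit 0), .ofNat (nat_lit 0), .ofNat (nat_lit 0), .ofNat (nat_lit 0), .ofNat (nat_lit 0), .ofNat (nat_lit 0), .ofNat (nat_lit 0)⟩⟩, [⟨nat_lit 13, nat_lit 31, nat_lit 98, nat_lit 100, nat_lit 220425326⟩]⟩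
noncomputable def p024_l130 : Lf2 := ⟨nat_lit 0, nat_lit 10, [nat_lit 0, nat_lit 5, nat_lit 5, nat_lit 20], true, nat_lit 0, nat_lit 0, nat_lit 0, nat_lit 0, ⟨nat_lit 0, nat_lit 1000, nat_lit 0, nat_lit 4, nat_lit 180, nat_lit 0, nat_lit 0, nat_lit 0, nat_lit 0, nat_lit 0, nat_lit 0, nat_lit 0, nat_lit 0, nat_lit 0, nat_lit 0, nat_lit 5000000, false, true⟩,
 nat_lit 0, nat_lit 3443, nat_lit 0, nat_lit 33664, nat_lit 2998, nat_lit 0, nat_lit 0, nat_lit 0, nat_lit 0, nat_lit 0, nat_lit 0, nat_lit 0, nat_lit 0, nat_lit 0, nat_lit 0, nat_lit 250000, nat_lit 0, nat_lit 0, [(nat_lit 24, [(nat_lit 0, nat_lit 1000)]), (nat_lit 27, [(nat_lit 0, nat_lit 1000)])],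
 ⟨p024_k25, nat_lit 0, nat_lit 0, nat_lit 211, nat_lit 0, nat_lit 96268, [nat_lit 780800001, nat_lit 1367200000, nat_lit 1705600000], [], [nat_lit 22626036589, nat_lit 25390375132, nat_lit 28076151881, nat_lit 29905737665], nat_lit 1271250, nat_lit 1271250, nat_lit 279600, nat_lit 2323000, nat_lit 0, nat_lit 0, [nat_lit 230000, nat_lit 780000, nat_lit 1100000], [nat_lit 35, nat_lit 40, nat_lit 80, nat_lit 80, nat_lit 22, nat_lit 317, nat_lit 100, nat_lit 15]⟩, C1.Rw.none,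
 ⟨nat_lit 0, nat_lit 3163, ⟨.ofNat (nat_lit 216927), .ofNat (nat_lit 638543), .ofNat (nat_lit 258627), .ofNat (nat_lit 682855), .ofNat (nat_lit 252860), .ofNat (nat_lit 599993), .ofNat (nat_lit 300250), .ofNat (nat_lit 649995)⟩, ⟨.ofNat (nat_lit 0), .ofNat (nat_lit 0), .ofNat (nat_lit 0), .ofNat (nat_lit 0), .ofNat (nat_lit 0), .ofNat (nat_lit 0), .ofNat (nat_lit 0), .ofNat (nat_lit 0)⟩⟩, [⟨nat_lit 13, nat_lit 44, nat_lit 94, nat_lit 100, nat_lit 326417803⟩]⟩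
noncomputable def b_N_900_400_0_1 : St := ⟨false, nat_lit 2, nat_lit 2, nat_lit 0, nat_lit 40, nat_lit 360, nat_lit 400, nat_lit 160, nat_lit 200, nat_lit 48, nat_lit 320, nat_lit 0, nat_lit 0, nat_lit 0, nat_lit 0, nat_lit 0, nat_lit 0, nat_lit 40, nat_lit 172, nat_lit 0, nat_lit 0, nat_lit 0, nat_lit 0⟩
theorem d_N_900_400_0_1 (h : EB TB.env) : Dead b_N_900_400_0_1 := chkB_sound0 h (T :=
(.spl (nat_lit 6) (nat_lit 80)
(.st (nat_lit 0)
(.leaf p024_l98)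
(.gv
(.st (nat_lit 1)
(.spl (nat_lit 2) (nat_lit 160)
(.spl (nat_lit 0) (nat_lit 380)
(.spl (nat_lit 0) (nat_lit 370)
(.leaf p024_l99)
(.trZ (nat_lit 0) (nat_lit 100) (nat_lit 54) (nat_lit 74) (nat_lit 60) (.leaf p024_l100)))
(.trZ (nat_lit 0) (nat_lit 100) (nat_lit 44) (nat_lit 81) (nat_lit 76) (.leaf p024_l101)))
(.spl (nat_lit 0) (nat_lit 380)
(.leaf p024_l102)
(.trX (nat_lit 13) (nat_lit 44) (nat_lit 90) (nat_lit 100) (nat_lit 288) (.leaf p024_l103))))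
(.spl (nat_lit 2) (nat_lit 160)
(.leaf p024_l104)
(.spl (nat_lit 0) (nat_lit 380)
(.spl (nat_lit 0) (nat_lit 370)
(.spl (nat_lit 2) (nat_lit 240)
(.leaf p024_l105)
(.leaf p024_l106))
(.trX (nat_lit 13) (nat_lit 53) (nat_lit 85) (nat_lit 100) (nat_lit 308) (.leaf p024_l107)))
(.trX (nat_lit 13) (nat_lit 44) (nat_lit 90) (nat_lit 100) (nat_lit 288) (.leaf p024_l108)))))
(.leaf p024_l109)))
(.spl (nat_lit 6) (nat_lit 120)
(.st (nat_lit 0)
(.leaf p024_l110)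
(.gv
(.st (nat_lit 1)
(.spl (nat_lit 2) (nat_lit 160)
(.spl (nat_lit 0) (nat_lit 380)
(.leaf p024_l111)
(.trZ (nat_lit 0) (nat_lit 100) (nat_lit 44) (nat_lit 81) (nat_lit 76) (.leaf p024_l112)))
(.leaf p024_l113))
(.spl (nat_lit 2) (nat_lit 160)
(.leaf p024_l114)
(.spl (nat_lit 0) (nat_lit 380)
(.leaf p024_l115)
(.trX (nat_lit 13) (nat_lit 44) (nat_lit 90) (nat_lit 100) (nat_lit 288) (.leaf p024_l116)))))
(.leaf p024_l117)))
(.spl (nat_lit 6) (nat_lit 160)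
(.st (nat_lit 0)
(.gv
(.leaf p024_l118)
(.leaf p024_l119))
(.gv
(.st (nat_lit 1)
(.spl (nat_lit 0) (nat_lit 380)
(.leaf p024_l120)
(.trZ (nat_lit 0) (nat_lit 100) (nat_lit 44) (nat_lit 81) (nat_lit 76) (.trX (nat_lit 13) (nat_lit 44) (nat_lit 90) (nat_lit 100) (nat_lit 288) (.leaf p024_l121))))
(.spl (nat_lit 0) (nat_lit 380)
(.leaf p024_l122)
(.trZ (nat_lit 0) (nat_lit 100) (nat_lit 44) (nat_lit 81) (nat_lit 76) (.trX (nat_lit 13) (nat_lit 44) (nat_lit 90) (nat_lit 100) (nat_lit 288) (.leaf p024_l123)))))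
(.leaf p024_l124)))
(.st (nat_lit 0)
(.gv
(.leaf p024_l125)
(.leaf p024_l126))
(.gv
(.st (nat_lit 1)
(.leaf p024_l127)
(.spl (nat_lit 0) (nat_lit 380)
(.leaf p024_l128)
(.trZ (nat_lit 0) (nat_lit 100) (nat_lit 44) (nat_lit 81) (nat_lit 76) (.trX (nat_lit 13) (nat_lit 44) (nat_lit 90) (nat_lit 100) (nat_lit 288) (.leaf p024_l129)))))
(.leaf p024_l130))))))) (by decide +kernel)
noncomputable def p024_l131 : Lf2 := ⟨nat_lit 0, nat_lit 10, [nat_lit 0, nat_lit 5, nat_lit 5, nat_lit 20], true, nat_lit 0, nat_lit 0, nat_lit 0, nat_lit 0, ⟨nat_lit 0, nat_lit 1000, nat_lit 0, nat_lit 5, nat_lit 217, nat_lit 0, nat_lit 0, nat_lit 0, nat_lit 0, nat_lit 0, nat_lit 0, nat_lit 0, nat_lit 51818791, nat_lit 15181209, nat_lit 0, nat_lit 2675584, false, true⟩,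
 nat_lit 0, nat_lit 0, nat_lit 0, nat_lit 0, nat_lit 2677, nat_lit 0, nat_lit 0, nat_lit 0, nat_lit 0, nat_lit 0, nat_lit 0, nat_lit 0, nat_lit 0, nat_lit 0, nat_lit 0, nat_lit 370750, nat_lit 0, nat_lit 0, [(nat_lit 24, [(nat_lit 0, nat_lit 195), (nat_lit 1, nat_lit 805)]), (nat_lit 27, [(nat_lit 0, nat_lit 195), (nat_lit 1, nat_lit 805)])],
 ⟨p024_k24, nat_lit 0, nat_lit 0, nat_lit 166, nat_lit 0, nat_lit 0, [nat_lit 929564001, nat_lit 1119440000], [], [nat_lit 20962028282, nat_lit 23693021554, nat_lit 28429948672, nat_lit 30364007869], nat_lit 0, nat_lit 0, nat_lit 0, nat_lit 0, nat_lit 0, nat_lit 0, [], [nat_lit 86, nat_lit 40, nat_lit 80, nat_lit 80, nat_lit 87, nat_lit 317, nat_lit 100, nat_lit 15]⟩, C1.Rw.none,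
 ⟨nat_lit 0, nat_lit 3163, ⟨.ofNat (nat_lit 309443), .ofNat (nat_lit 731616), .ofNat (nat_lit 351143), .ofNat (nat_lit 775928), .ofNat (nat_lit 342303), .ofNat (nat_lit 689994), .ofNat (nat_lit 389693), .ofNat (nat_lit 739996)⟩, ⟨.ofNat (nat_lit 0), .ofNat (nat_lit 0), .ofNat (nat_lit 0), .ofNat (nat_lit 0), .ofNat (nat_lit 0), .ofNat (nat_lit 0), .ofNat (nat_lit 0), .ofNat (nat_lit 0)⟩⟩, [⟨nat_lit 13, nat_lit 61, nat_lit 68, nat_lit 100, nat_lit 88503691⟩]⟩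
noncomputable def p024_l132 : Lf2 := ⟨nat_lit 0, nat_lit 10, [nat_lit 0, nat_lit 5, nat_lit 5, nat_lit 20], false, nat_lit 0, nat_lit 0, nat_lit 0, nat_lit 0, ⟨nat_lit 716, nat_lit 0, nat_lit 284, nat_lit 5, nat_lit 219, nat_lit 0, nat_lit 0, nat_lit 0, nat_lit 0, nat_lit 215, nat_lit 280612, nat_lit 200, nat_lit 51602206, nat_lit 0, nat_lit 0, nat_lit 2695279, false, true⟩,
 nat_lit 0, nat_lit 4992, nat_lit 0, nat_lit 0, nat_lit 4347, nat_lit 6644, nat_lit 143, nat_lit 0, nat_lit 0, nat_lit 918, nat_lit 0, nat_lit 0, nat_lit 0, nat_lit 0, nat_lit 0, nat_lit 284000, nat_lit 0, nat_lit 0, [(nat_lit 24, [(nat_lit 6, nat_lit 284)])],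
 ⟨p024_k25, nat_lit 0, nat_lit 0, nat_lit 576, nat_lit 0, nat_lit 1208046, [nat_lit 1055235201, nat_lit 1714017067, nat_lit 1966371200], [], [nat_lit 23959656238, nat_lit 24443618165, nat_lit 32415065910, nat_lit 33156756970], nat_lit 1271250, nat_lit 1271250, nat_lit 490000, nat_lit 2615000, nat_lit 0, nat_lit 0, [nat_lit 230000, nat_lit 780000, nat_lit 1100000], [nat_lit 35, nat_lit 40, nat_lit 80, nat_lit 80, nat_lit 22, nat_lit 317, nat_lit 100, nat_lit 15]⟩, ⟨p024_k33, nat_lit 0, nat_lit 0, nat_lit 246, nat_lit 0, nat_lit 0, [nat_lit 4475000000, nat_lit 7046872000, nat_lit 8500352000], [], [nat_lit 18529918064, nat_lit 20004267680, nat_lit 26892647466, nat_lit 27786304512], nat_lit 0, nat_lit 0, nat_lit 0, nat_lit 0, nat_lit 0, nat_lit 0, [], [nat_lit 46, nat_lit 40, nat_lit 80, nat_lit 80, nat_lit 41, nat_lit 373, nat_lit 150, nat_lit 10]⟩,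
 ⟨nat_lit 2738, nat_lit 3163, ⟨.ofNat (nat_lit 317085), .ofNat (nat_lit 731621), .ofNat (nat_lit 361370), .ofNat (nat_lit 775931), .ofNat (nat_lit 322761), .ofNat (nat_lit 724432), .ofNat (nat_lit 367571), .ofNat (nat_lit 769266)⟩, ⟨.ofNat (nat_lit 0), .ofNat (nat_lit 0), .ofNat (nat_lit 0), .ofNat (nat_lit 0), .ofNat (nat_lit 0), .ofNat (nat_lit 0), .ofNat (nat_lit 0), .ofNat (nat_lit 0)⟩⟩, [⟨nat_lit 0, nat_lit 100, nat_lit 54, nat_lit 96, nat_lit 90017405⟩]⟩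
noncomputable def p024_l133 : Lf2 := ⟨nat_lit 0, nat_lit 10, [nat_lit 0, nat_lit 5, nat_lit 5, nat_lit 20], false, nat_lit 0, nat_lit 0, nat_lit 0, nat_lit 0, ⟨nat_lit 1000, nat_lit 0, nat_lit 0, nat_lit 0, nat_lit 0, nat_lit 0, nat_lit 0, nat_lit 0, nat_lit 0, nat_lit 0, nat_lit 0, nat_lit 0, nat_lit 0, nat_lit 0, nat_lit 0, nat_lit 0, false, false⟩,
 nat_lit 0, nat_lit 4532, nat_lit 0, nat_lit 0, nat_lit 4089, nat_lit 9869, nat_lit 489, nat_lit 0, nat_lit 0, nat_lit 1315, nat_lit 0, nat_lit 0, nat_lit 0, nat_lit 0, nat_lit 0, nat_lit 0, nat_lit 0, nat_lit 0, [],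
 ⟨p024_k27, nat_lit 0, nat_lit 0, nat_lit 583, nat_lit 0, nat_lit 1227584, [nat_lit 938000000, nat_lit 3282000000, nat_lit 4688000000], [], [nat_lit 24418750457, nat_lit 24990554404, nat_lit 31664952343, nat_lit 32408925113], nat_lit 1271250, nat_lit 1271250, nat_lit 573850, nat_lit 2539250, nat_lit 0, nat_lit 0, [nat_lit 230000, nat_lit 780000, nat_lit 1100000], [nat_lit 35, nat_lit 40, nat_lit 80, nat_lit 80, nat_lit 22, nat_lit 317, nat_lit 100, nat_lit 14]⟩, ⟨p024_k33, nat_lit 0, nat_lit 0, nat_lit 239, nat_lit 0, nat_lit 0, [nat_lit 6250000000, nat_lit 9842000000, nat_lit 11872000000], [], [nat_lit 25199269669, nat_lit 27915385686, nat_lit 36517995967, nat_lit 37900750515], nat_lit 0, nat_lit 0, nat_lit 0, nat_lit 0, nat_lit 0, nat_lit 0, [], [nat_lit 46, nat_lit 40, nat_lit 80, nat_lit 80, nat_lit 41, nat_lit 373, nat_lit 150, nat_lit 10]⟩,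
 zbF0, [⟨nat_lit 0, nat_lit 100, nat_lit 49, nat_lit 92, nat_lit 262563537⟩]⟩
noncomputable def p024_l134 : Lf2 := ⟨nat_lit 0, nat_lit 10, [nat_lit 0, nat_lit 5, nat_lit 5, nat_lit 20], false, nat_lit 0, nat_lit 0, nat_lit 0, nat_lit 0, ⟨nat_lit 1000, nat_lit 0, nat_lit 0, nat_lit 0, nat_lit 0, nat_lit 0, nat_lit 0, nat_lit 0, nat_lit 0, nat_lit 0, nat_lit 0, nat_lit 0, nat_lit 0, nat_lit 0, nat_lit 0, nat_lit 0, false, false⟩,
 nat_lit 0, nat_lit 4398, nat_lit 0, nat_lit 0, nat_lit 4109, nat_lit 9886, nat_lit 0, nat_lit 0, nat_lit 0, nat_lit 1084, nat_lit 0, nat_lit 0, nat_lit 0, nat_lit 0, nat_lit 0, nat_lit 0, nat_lit 0, nat_lit 0, [],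
 ⟨p024_k30, nat_lit 0, nat_lit 0, nat_lit 545, nat_lit 0, nat_lit 1317195, [nat_lit 938000000, nat_lit 3282000000], [], [nat_lit 26203700423, nat_lit 27368781405, nat_lit 31447667293, nat_lit 33007008398], nat_lit 1271250, nat_lit 1271250, nat_lit 719601, nat_lit 2439450, nat_lit 0, nat_lit 0, [nat_lit 230000, nat_lit 780000], [nat_lit 66, nat_lit 40, nat_lit 80, nat_lit 80, nat_lit 67, nat_lit 317, nat_lit 100, nat_lit 19]⟩, ⟨p024_k33, nat_lit 0, nat_lit 0, nat_lit 229, nat_lit 0, nat_lit 0, [nat_lit 6250000000, nat_lit 9842000000, nat_lit 11872000000], [], [nat_lit 25928958420, nat_lit 28565565631, nat_lit 35788997774, nat_lit 36998138335], nat_lit 0, nat_lit 0, nat_lit 0, nat_lit 0, nat_lit 0, nat_lit 0, [], [nat_lit 46, nat_lit 40, nat_lit 80, nat_lit 80, nat_lit 41, nat_lit 373, nat_lit 150, nat_lit 10]⟩,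
 zbF0, [⟨nat_lit 0, nat_lit 100, nat_lit 31, nat_lit 98, nat_lit 223127111⟩]⟩
noncomputable def p024_l135 : Lf2 := ⟨nat_lit 0, nat_lit 10, [nat_lit 0, nat_lit 5, nat_lit 5, nat_lit 20], false, nat_lit 0, nat_lit 0, nat_lit 0, nat_lit 0, ⟨nat_lit 103, nat_lit 288, nat_lit 609, nat_lit 5, nat_lit 185, nat_lit 0, nat_lit 0, nat_lit 0, nat_lit 0, nat_lit 215, nat_lit 417, nat_lit 210, nat_lit 55160648, nat_lit 11839352, nat_lit 0, nat_lit 2331813, false, false⟩,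
 nat_lit 2780, nat_lit 395, nat_lit 0, nat_lit 0, nat_lit 2764, nat_lit 1191, nat_lit 27, nat_lit 0, nat_lit 0, nat_lit 77, nat_lit 0, nat_lit 0, nat_lit 0, nat_lit 0, nat_lit 10, nat_lit 315600, nat_lit 0, nat_lit 0, [(nat_lit 24, [(nat_lit 0, nat_lit 288), (nat_lit 5, nat_lit 609)])],
 ⟨p024_k25, nat_lit 0, nat_lit 0, nat_lit 386, nat_lit 0, nat_lit 732866, [nat_lit 800254801, nat_lit 380352400, nat_lit 12800600], [], [nat_lit 20077790379, nat_lit 21411848603, nat_lit 23698097083, nat_lit 24769890036], nat_lit 1271250, nat_lit 1271250, nat_lit 490000, nat_lit 1740000, nat_lit 0, nat_lit 0, [nat_lit 230000, nat_lit 780000, nat_lit 1100000], [nat_lit 35, nat_lit 40, nat_lit 80, nat_lit 80, nat_lit 22, nat_lit 272, nat_lit 60, nat_lit 12]⟩, ⟨p024_k33, nat_lit 0, nat_lit 0, nat_lit 1079, nat_lit 0, nat_lit 1600359, [nat_lit 643750000, nat_lit 1013726000, nat_lit 1222816000], [], [nat_lit 6441380992,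 nat_lit 5162394676, nat_lit 3945363388, nat_lit 3901621240], nat_lit 1271250, nat_lit 1271250, nat_lit 490000, nat_lit 1740000, nat_lit 0, nat_lit 0, [nat_lit 1412500, nat_lit 1271250, nat_lit 1271250], [nat_lit 46, nat_lit 40, nat_lit 80, nat_lit 80, nat_lit 41, nat_lit 345, nat_lit 125, nat_lit 9]⟩,
 ⟨nat_lit 2236, nat_lit 3163, ⟨.ofNat (nat_lit 316827), .ofNat (nat_lit 560952), .ofNat (nat_lit 361011), .ofNat (nat_lit 605240), .ofNat (nat_lit 328641), .ofNat (nat_lit 557014), .ofNat (nat_lit 374063), .ofNat (nat_lit 602541)⟩, ⟨.ofNat (nat_lit 0), .ofNat (nat_lit 0), .ofNat (nat_lit 0), .ofNat (nat_lit 0), .ofNat (nat_lit 0), .ofNat (nat_lit 0), .ofNat (nat_lit 0), .ofNat (nat_lit 0)⟩⟩, [⟨nat_lit 0, nat_lit 100, nat_lit 44, nat_lit 99, nat_lit 12258786⟩]⟩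
noncomputable def p024_l136 : Lf2 := ⟨nat_lit 0, nat_lit 10, [nat_lit 0, nat_lit 5, nat_lit 5, nat_lit 20], false, nat_lit 0, nat_lit 0, nat_lit 0, nat_lit 0, ⟨nat_lit 87, nat_lit 913, nat_lit 0, nat_lit 5, nat_lit 196, nat_lit 0, nat_lit 0, nat_lit 0, nat_lit 0, nat_lit 0, nat_lit 0, nat_lit 0, nat_lit 54058472, nat_lit 12941528, nat_lit 0, nat_lit 2453841, false, false⟩,
 nat_lit 2958, nat_lit 0, nat_lit 0, nat_lit 0, nat_lit 2763, nat_lit 1267, nat_lit 67, nat_lit 0, nat_lit 0, nat_lit 0, nat_lit 0, nat_lit 0, nat_lit 0, nat_lit 0, nat_lit 0, nat_lit 365200, nat_lit 0, nat_lit 0, [(nat_lit 27, [(nat_lit 1, nat_lit 913)])],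
 ⟨p024_k30, nat_lit 0, nat_lit 0, nat_lit 343, nat_lit 0, nat_lit 762344, [nat_lit 718514801, nat_lit 581711200], [], [nat_lit 21982174619, nat_lit 23495695169, nat_lit 24800702191, nat_lit 25841428331], nat_lit 1271250, nat_lit 1271250, nat_lit 719601, nat_lit 1758000, nat_lit 0, nat_lit 0, [nat_lit 230000, nat_lit 780000], [nat_lit 66, nat_lit 40, nat_lit 80, nat_lit 80, nat_lit 67, nat_lit 272, nat_lit 60, nat_lit 16]⟩, ⟨p024_k34, nat_lit 0, nat_lit 0, nat_lit 1152, nat_lit 0, nat_lit 1794368, [nat_lit 543750000, nat_lit 1032864000], [], [nat_lit 5038638023, nat_lit 3912152023, nat_lit 3611524436, nat_lit 3589982212], nat_lit 1271250, nat_lit 1271250, nat_lit 719601, nat_lit 1758000, nat_lit 0, nat_lit 0, [nat_lit 1412500, nat_lit 1271250], [nat_lit 107, nat_lit 40, nat_lit 80, nat_lit 80, nat_lit 12, nat_lit 348, nat_lit 125, nat_lit 9]⟩,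
 ⟨nat_lit 0, nat_lit 2237, ⟨.ofNat (nat_lit 370513), .ofNat (nat_lit 557013), .ofNat (nat_lit 414208), .ofNat (nat_lit 602531), .ofNat (nat_lit 385947), .ofNat (nat_lit 549998), .ofNat (nat_lit 434094), .ofNat (nat_lit 599967)⟩, ⟨.ofNat (nat_lit 0), .ofNat (nat_lit 0), .ofNat (nat_lit 0), .ofNat (nat_lit 0), .ofNat (nat_lit 0), .ofNat (nat_lit 0), .ofNat (nat_lit 0), .ofNat (nat_lit 0)⟩⟩, []⟩
noncomputable def p024_l137 : Lf2 := ⟨nat_lit 0, nat_lit 10, [nat_lit 0, nat_lit 5, nat_lit 5, nat_lit 20], false, nat_lit 0, nat_lit 0, nat_lit 0, nat_lit 0, ⟨nat_lit 141, nat_lit 859, nat_lit 0, nat_lit 6, nat_lit 267, nat_lit 0, nat_lit 0, nat_lit 0, nat_lit 0, nat_lit 0, nat_lit 0, nat_lit 0, nat_lit 46400268, nat_lit 20599732, nat_lit 0, nat_lit 3085260, true, true⟩,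
 nat_lit 3565, nat_lit 0, nat_lit 0, nat_lit 0, nat_lit 3105, nat_lit 1527, nat_lit 78, nat_lit 0, nat_lit 0, nat_lit 117, nat_lit 0, nat_lit 0, nat_lit 0, nat_lit 0, nat_lit 0, nat_lit 365200, nat_lit 0, nat_lit 0, [(nat_lit 24, [(nat_lit 1, nat_lit 823), (nat_lit 2, nat_lit 36)])],
 ⟨p024_k25, nat_lit 0, nat_lit 0, nat_lit 356, nat_lit 0, nat_lit 689386, [nat_lit 883010000, nat_lit 1266546534, nat_lit 1371196000], [], [nat_lit 25810953592, nat_lit 26270135322, nat_lit 29383460368, nat_lit 29760134129], nat_lit 1271250, nat_lit 1271250, nat_lit 1271250, nat_lit 1271250, nat_lit 0, nat_lit 0, [nat_lit 230000, nat_lit 780000, nat_lit 1100000], [nat_lit 35, nat_lit 40, nat_lit 80, nat_lit 80, nat_lit 22, nat_lit 203, nat_lit 0, nat_lit 8]⟩, ⟨p024_k33, nat_lit 0, nat_lit 0, nat_lit 967, nat_lit 0, nat_lit 1505411, [nat_lit 881250000, nat_lit 1387722000, nat_lit 1673952000], [], [nat_lit 5918989428,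 nat_lit 5834989260, nat_lit 5985281470, nat_lit 5937455832], nat_lit 1271250, nat_lit 1271250, nat_lit 1271250, nat_lit 1271250, nat_lit 0, nat_lit 0, [nat_lit 1412500, nat_lit 1271250, nat_lit 1271250], [nat_lit 46, nat_lit 40, nat_lit 80, nat_lit 80, nat_lit 41, nat_lit 373, nat_lit 150, nat_lit 9]⟩,
 ⟨nat_lit 2738, nat_lit 3163, ⟨.ofNat (nat_lit 560952), .ofNat (nat_lit 731621), .ofNat (nat_lit 605257), .ofNat (nat_lit 775931), .ofNat (nat_lit 559060), .ofNat (nat_lit 724432), .ofNat (nat_lit 603890), .ofNat (nat_lit 769266)⟩, ⟨.ofNat (nat_lit 0), .ofNat (nat_lit 0), .ofNat (nat_lit 0), .ofNat (nat_lit 0), .ofNat (nat_lit 0), .ofNat (nat_lit 0), .ofNat (nat_lit 0), .ofNat (nat_lit 0)⟩⟩, [⟨nat_lit 13, nat_lit 57, nat_lit 77, nat_lit 100, nat_lit 137819494⟩]⟩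
noncomputable def p024_l138 : Lf2 := ⟨nat_lit 0, nat_lit 10, [nat_lit 0, nat_lit 5, nat_lit 5, nat_lit 20], false, nat_lit 0, nat_lit 0, nat_lit 0, nat_lit 0, ⟨nat_lit 125, nat_lit 875, nat_lit 0, nat_lit 6, nat_lit 261, nat_lit 0, nat_lit 0, nat_lit 0, nat_lit 0, nat_lit 0, nat_lit 0, nat_lit 0, nat_lit 46963375, nat_lit 20036625, nat_lit 0, nat_lit 3050302, true, true⟩,
 nat_lit 3213, nat_lit 0, nat_lit 0, nat_lit 0, nat_lit 2899, nat_lit 1376, nat_lit 216, nat_lit 0, nat_lit 0, nat_lit 105, nat_lit 0, nat_lit 0, nat_lit 0, nat_lit 0, nat_lit 0, nat_lit 218750, nat_lit 0, nat_lit 0, [(nat_lit 24, [(nat_lit 0, nat_lit 875)])],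
 ⟨p024_k27, nat_lit 0, nat_lit 0, nat_lit 361, nat_lit 0, nat_lit 705613, [nat_lit 785050000, nat_lit 1606550001, nat_lit 2078400000], [], [nat_lit 25402417810, nat_lit 25896827903, nat_lit 28736338556, nat_lit 29150410902], nat_lit 1271250, nat_lit 1271250, nat_lit 1271250, nat_lit 1271250, nat_lit 0, nat_lit 0, [nat_lit 230000, nat_lit 780000, nat_lit 1100000], [nat_lit 35, nat_lit 40, nat_lit 80, nat_lit 80, nat_lit 22, nat_lit 203, nat_lit 0, nat_lit 8]⟩, ⟨p024_k33, nat_lit 0, nat_lit 0, nat_lit 1008, nat_lit 0, nat_lit 1600359, [nat_lit 781250000, nat_lit 1230250000, nat_lit 1484000000], [], [nat_lit 5124134172, nat_lit 5047240284, nat_lit 5190906276, nat_lit 5151177863], nat_lit 1271250, nat_lit 1271250, nat_lit 1271250, nat_lit 1271250, nat_lit 0, nat_lit 0, [nat_lit 1412500, nat_lit 1271250, nat_lit 1271250], [nat_lit 46, nat_lit 40, nat_lit 80, nat_lit 80, nat_lit 41, nat_lit 373,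 nat_lit 150, nat_lit 9]⟩,
 ⟨nat_lit 2236, nat_lit 2739, ⟨.ofNat (nat_lit 559060), .ofNat (nat_lit 706713), .ofNat (nat_lit 603890), .ofNat (nat_lit 751548), .ofNat (nat_lit 557014), .ofNat (nat_lit 699553), .ofNat (nat_lit 602558), .ofNat (nat_lit 745101)⟩, ⟨.ofNat (nat_lit 0), .ofNat (nat_lit 0), .ofNat (nat_lit 0), .ofNat (nat_lit 0), .ofNat (nat_lit 0), .ofNat (nat_lit 0), .ofNat (nat_lit 0), .ofNat (nat_lit 0)⟩⟩, [⟨nat_lit 13, nat_lit 49, nat_lit 83, nat_lit 100, nat_lit 207244241⟩]⟩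
noncomputable def p024_l139 : Lf2 := ⟨nat_lit 0, nat_lit 10, [nat_lit 0, nat_lit 5, nat_lit 5, nat_lit 20], false, nat_lit 0, nat_lit 0, nat_lit 0, nat_lit 0, ⟨nat_lit 112, nat_lit 888, nat_lit 0, nat_lit 6, nat_lit 253, nat_lit 0, nat_lit 0, nat_lit 0, nat_lit 0, nat_lit 0, nat_lit 0, nat_lit 0, nat_lit 47809117, nat_lit 19190883, nat_lit 0, nat_lit 2994624, true, true⟩,
 nat_lit 2936, nat_lit 0, nat_lit 0, nat_lit 0, nat_lit 2743, nat_lit 1258, nat_lit 2, nat_lit 0, nat_lit 0, nat_lit 96, nat_lit 0, nat_lit 0, nat_lit 0, nat_lit 0, nat_lit 0, nat_lit 355200, nat_lit 0, nat_lit 0, [(nat_lit 27, [(nat_lit 1, nat_lit 888)])],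
 ⟨p024_k30, nat_lit 0, nat_lit 0, nat_lit 338, nat_lit 0, nat_lit 762344, [nat_lit 724524800, nat_lit 655651200], [], [nat_lit 25312657894, nat_lit 26350228434, nat_lit 28136265380, nat_lit 29149940746], nat_lit 1271250, nat_lit 1271250, nat_lit 1271250, nat_lit 1271250, nat_lit 0, nat_lit 0, [nat_lit 230000, nat_lit 780000], [nat_lit 66, nat_lit 40, nat_lit 80, nat_lit 80, nat_lit 67, nat_lit 203, nat_lit 0, nat_lit 10]⟩, ⟨p024_k33, nat_lit 0, nat_lit 0, nat_lit 1091, nat_lit 0, nat_lit 1794368, [nat_lit 700000000, nat_lit 1102304000, nat_lit 1329664000], [], [nat_lit 4452390864, nat_lit 4405733832, nat_lit 4517520291, nat_lit 4485429859], nat_lit 1271250, nat_lit 1271250, nat_lit 1271250, nat_lit 1271250, nat_lit 0, nat_lit 0, [nat_lit 1412500, nat_lit 1271250, nat_lit 1271250], [nat_lit 46, nat_lit 40, nat_lit 80, nat_lit 80, nat_lit 41, nat_lit 373, nat_lit 150, nat_lit 9]⟩,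
 ⟨nat_lit 0, nat_lit 2237, ⟨.ofNat (nat_lit 557013), .ofNat (nat_lit 676741), .ofNat (nat_lit 602531), .ofNat (nat_lit 722292), .ofNat (nat_lit 549998), .ofNat (nat_lit 654993), .ofNat (nat_lit 599967), .ofNat (nat_lit 704996)⟩, ⟨.ofNat (nat_lit 0), .ofNat (nat_lit 0), .ofNat (nat_lit 0), .ofNat (nat_lit 0), .ofNat (nat_lit 0), .ofNat (nat_lit 0), .ofNat (nat_lit 0), .ofNat (nat_lit 0)⟩⟩, [⟨nat_lit 13, nat_lit 31, nat_lit 92, nat_lit 100, nat_lit 362223350⟩]⟩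
noncomputable def p024_l140 : Lf2 := ⟨nat_lit 0, nat_lit 10, [nat_lit 0, nat_lit 5, nat_lit 5, nat_lit 20], false, nat_lit 0, nat_lit 0, nat_lit 0, nat_lit 0, ⟨nat_lit 503, nat_lit 497, nat_lit 0, nat_lit 5, nat_lit 218, nat_lit 0, nat_lit 0, nat_lit 0, nat_lit 0, nat_lit 0, nat_lit 0, nat_lit 0, nat_lit 0, nat_lit 0, nat_lit 0, nat_lit 5000000, false, true⟩,
 nat_lit 0, nat_lit 4671, nat_lit 0, nat_lit 0, nat_lit 4068, nat_lit 4665, nat_lit 132, nat_lit 0, nat_lit 0, nat_lit 769, nat_lit 0, nat_lit 0, nat_lit 0, nat_lit 0, nat_lit 0, nat_lit 384800, nat_lit 0, nat_lit 0, [(nat_lit 24, [(nat_lit 1, nat_lit 187), (nat_lit 2, nat_lit 310)])],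
 ⟨p024_k25, nat_lit 0, nat_lit 0, nat_lit 607, nat_lit 0, nat_lit 1284239, [nat_lit 1085470000, nat_lit 1690779334, nat_lit 1888264800], [], [nat_lit 26446250656, nat_lit 27330004336, nat_lit 32301361965, nat_lit 33113173016], nat_lit 1271250, nat_lit 1271250, nat_lit 490000, nat_lit 2615000, nat_lit 0, nat_lit 0, [nat_lit 230000, nat_lit 780000, nat_lit 1100000], [nat_lit 35, nat_lit 40, nat_lit 80, nat_lit 80, nat_lit 22, nat_lit 317, nat_lit 100, nat_lit 15]⟩, ⟨p024_k33, nat_lit 0, nat_lit 0, nat_lit 246, nat_lit 0, nat_lit 0, [nat_lit 3143750000, nat_lit 4950526000, nat_lit 5971616000], [], [nat_lit 12523029612, nat_lit 13558529288, nat_lit 18890919841, nat_lit 19518669466], nat_lit 0, nat_lit 0, nat_lit 0, nat_lit 0, nat_lit 0, nat_lit 0, [], [nat_lit 46, nat_lit 40, nat_lit 80, nat_lit 80, nat_lit 41, nat_lit 373, nat_lit 150, nat_lit 10]⟩,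
 ⟨nat_lit 2236, nat_lit 3163, ⟨.ofNat (nat_lit 316827), .ofNat (nat_lit 731621), .ofNat (nat_lit 361011), .ofNat (nat_lit 775931), .ofNat (nat_lit 328641), .ofNat (nat_lit 716658), .ofNat (nat_lit 374063), .ofNat (nat_lit 762206)⟩, ⟨.ofNat (nat_lit 0), .ofNat (nat_lit 0), .ofNat (nat_lit 0), .ofNat (nat_lit 0), .ofNat (nat_lit 0), .ofNat (nat_lit 0), .ofNat (nat_lit 0), .ofNat (nat_lit 0)⟩⟩, []⟩
noncomputable def p024_l141 : Lf2 := ⟨nat_lit 0, nat_lit 10, [nat_lit 0, nat_lit 5, nat_lit 5, nat_lit 20], true, nat_lit 0, nat_lit 0, nat_lit 0, nat_lit 0, ⟨nat_lit 0, nat_lit 1000, nat_lit 0, nat_lit 5, nat_lit 218, nat_lit 0, nat_lit 0, nat_lit 0, nat_lit 0, nat_lit 0, nat_lit 0, nat_lit 0, nat_lit 0, nat_lit 0, nat_lit 0, nat_lit 5000000, false, true⟩,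
 nat_lit 0, nat_lit 3316, nat_lit 0, nat_lit 0, nat_lit 3098, nat_lit 0, nat_lit 68, nat_lit 0, nat_lit 0, nat_lit 0, nat_lit 0, nat_lit 0, nat_lit 0, nat_lit 0, nat_lit 0, nat_lit 400000, nat_lit 0, nat_lit 0, [(nat_lit 27, [(nat_lit 1, nat_lit 1000)])],
 ⟨p024_k30, nat_lit 0, nat_lit 0, nat_lit 545, nat_lit 0, nat_lit 1317195, [nat_lit 697600000, nat_lit 324400000], [], [nat_lit 24203828242, nat_lit 25309229061, nat_lit 29351863307, nat_lit 30160004635], nat_lit 1271250, nat_lit 1271250, nat_lit 719601, nat_lit 2439450, nat_lit 0, nat_lit 0, [nat_lit 230000, nat_lit 780000], [nat_lit 66, nat_lit 40, nat_lit 80, nat_lit 80, nat_lit 67, nat_lit 317, nat_lit 100, nat_lit 19]⟩, C1.Rw.none,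
 ⟨nat_lit 0, nat_lit 2237, ⟨.ofNat (nat_lit 370513), .ofNat (nat_lit 676741), .ofNat (nat_lit 414208), .ofNat (nat_lit 722292), .ofNat (nat_lit 385947), .ofNat (nat_lit 654993), .ofNat (nat_lit 434094), .ofNat (nat_lit 704996)⟩, ⟨.ofNat (nat_lit 0), .ofNat (nat_lit 0), .ofNat (nat_lit 0), .ofNat (nat_lit 0), .ofNat (nat_lit 0), .ofNat (nat_lit 0), .ofNat (nat_lit 0), .ofNat (nat_lit 0)⟩⟩, [⟨nat_lit 13, nat_lit 31, nat_lit 92, nat_lit 100, nat_lit 298574343⟩, ⟨nat_lit 13, nat_lit 44, nat_lit 81, nat_lit 100, nat_lit 175275916⟩]⟩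
noncomputable def p024_l142 : Lf2 := ⟨nat_lit 0, nat_lit 10, [nat_lit 0, nat_lit 5, nat_lit 5, nat_lit 20], false, nat_lit 0, nat_lit 0, nat_lit 0, nat_lit 0, ⟨nat_lit 110, nat_lit 890, nat_lit 0, nat_lit 5, nat_lit 217, nat_lit 0, nat_lit 0, nat_lit 0, nat_lit 0, nat_lit 0, nat_lit 0, nat_lit 0, nat_lit 0, nat_lit 0, nat_lit 0, nat_lit 5000000, false, true⟩,
 nat_lit 2872, nat_lit 660, nat_lit 0, nat_lit 0, nat_lit 3076, nat_lit 1230, nat_lit 111, nat_lit 0, nat_lit 0, nat_lit 97, nat_lit 0, nat_lit 0, nat_lit 0, nat_lit 0, nat_lit 0, nat_lit 356000, nat_lit 0, nat_lit 0, [(nat_lit 24, [(nat_lit 1, nat_lit 890)]), (nat_lit 27, [(nat_lit 1, nat_lit 890)])],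
 ⟨p024_k25, nat_lit 0, nat_lit 0, nat_lit 434, nat_lit 0, nat_lit 821710, [nat_lit 857900000, nat_lit 1248646667, nat_lit 1365096000], [], [nat_lit 23924461656, nat_lit 25924919314, nat_lit 30053706684, nat_lit 31562938752], nat_lit 1271250, nat_lit 1271250, nat_lit 490000, nat_lit 2615000, nat_lit 0, nat_lit 0, [nat_lit 230000, nat_lit 780000, nat_lit 1100000], [nat_lit 35, nat_lit 40, nat_lit 80, nat_lit 80, nat_lit 22, nat_lit 317, nat_lit 100, nat_lit 15]⟩, ⟨p024_k33, nat_lit 0, nat_lit 0, nat_lit 1172, nat_lit 0, nat_lit 1794368, [nat_lit 687500000, nat_lit 1082620000, nat_lit 1305920000], [], [nat_lit 6770192000, nat_lit 5449324520, nat_lit 4775450760, nat_lit 4565742432], nat_lit 1271250, nat_lit 1271250, nat_lit 490000, nat_lit 2615000, nat_lit 0, nat_lit 0, [nat_lit 1412500, nat_lit 1271250, nat_lit 1271250], [nat_lit 46, nat_lit 40, nat_lit 80, nat_lit 80, nat_lit 41, nat_lit 373,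 nat_lit 150, nat_lit 10]⟩,
 ⟨nat_lit 0, nat_lit 3163, ⟨.ofNat (nat_lit 309443), .ofNat (nat_lit 731616), .ofNat (nat_lit 351143), .ofNat (nat_lit 775928), .ofNat (nat_lit 342303), .ofNat (nat_lit 689994), .ofNat (nat_lit 389693), .ofNat (nat_lit 739996)⟩, ⟨.ofNat (nat_lit 0), .ofNat (nat_lit 0), .ofNat (nat_lit 0), .ofNat (nat_lit 0), .ofNat (nat_lit 0), .ofNat (nat_lit 0), .ofNat (nat_lit 0), .ofNat (nat_lit 0)⟩⟩, [⟨nat_lit 13, nat_lit 44, nat_lit 86, nat_lit 100, nat_lit 201905438⟩]⟩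
noncomputable def b_N_900_500_0_0 : St := ⟨false, nat_lit 2, nat_lit 2, nat_lit 0, nat_lit 40, nat_lit 360, nat_lit 400, nat_lit 200, nat_lit 240, nat_lit 80, nat_lit 352, nat_lit 0, nat_lit 0, nat_lit 0, nat_lit 0, nat_lit 0, nat_lit 0, nat_lit 0, nat_lit 40, nat_lit 0, nat_lit 0, nat_lit 0, nat_lit 0⟩
theorem d_N_900_500_0_0 (h : EB TB.env) : Dead b_N_900_500_0_0 := chkB_sound0 h (T :=
(.st (nat_lit 0)
(.leaf p024_l131)
(.gv
(.st (nat_lit 1)
(.spl (nat_lit 0) (nat_lit 380)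
(.spl (nat_lit 0) (nat_lit 370)
(.leaf p024_l132)
(.trZ (nat_lit 0) (nat_lit 100) (nat_lit 53) (nat_lit 85) (nat_lit 92) (.trX (nat_lit 13) (nat_lit 54) (nat_lit 74) (nat_lit 100) (nat_lit 340) (.leaf p024_l133))))
(.trZ (nat_lit 0) (nat_lit 100) (nat_lit 44) (nat_lit 90) (nat_lit 112) (.trX (nat_lit 13) (nat_lit 44) (nat_lit 81) (nat_lit 100) (nat_lit 324) (.leaf p024_l134))))
(.spl (nat_lit 2) (nat_lit 240)
(.spl (nat_lit 0) (nat_lit 380)
(.leaf p024_l135)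
(.trZ (nat_lit 0) (nat_lit 100) (nat_lit 44) (nat_lit 90) (nat_lit 112) (.leaf p024_l136)))
(.spl (nat_lit 0) (nat_lit 380)
(.spl (nat_lit 0) (nat_lit 370)
(.leaf p024_l137)
(.trX (nat_lit 13) (nat_lit 54) (nat_lit 74) (nat_lit 100) (nat_lit 340) (.leaf p024_l138)))
(.trX (nat_lit 13) (nat_lit 44) (nat_lit 81) (nat_lit 100) (nat_lit 324) (.leaf p024_l139)))))
(.st (nat_lit 1)
(.spl (nat_lit 0) (nat_lit 380)
(.leaf p024_l140)
(.trZ (nat_lit 0) (nat_lit 100) (nat_lit 44) (nat_lit 90) (nat_lit 112) (.trX (nat_lit 13) (nat_lit 44) (nat_lit 81) (nat_lit 100) (nat_lit 324) (.leaf p024_l141))))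
(.leaf p024_l142))))) (by decide +kernel)
noncomputable def p024_l143 : Lf2 := ⟨nat_lit 0, nat_lit 10, [nat_lit 0, nat_lit 5, nat_lit 5, nat_lit 20], true, nat_lit 0, nat_lit 0, nat_lit 0, nat_lit 0, ⟨nat_lit 0, nat_lit 1000, nat_lit 0, nat_lit 5, nat_lit 217, nat_lit 0, nat_lit 0, nat_lit 0, nat_lit 0, nat_lit 0, nat_lit 0, nat_lit 0, nat_lit 51818791, nat_lit 15181209, nat_lit 0, nat_lit 2675584, false, true⟩,
 nat_lit 0, nat_lit 0, nat_lit 0, nat_lit 0, nat_lit 2641, nat_lit 0, nat_lit 92, nat_lit 0, nat_lit 0, nat_lit 0, nat_lit 0, nat_lit 0, nat_lit 0, nat_lit 0, nat_lit 0, nat_lit 250000, nat_lit 0, nat_lit 0, [(nat_lit 24, [(nat_lit 0, nat_lit 1000)]), (nat_lit 27, [(nat_lit 0, nat_lit 1000)])],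
 ⟨p024_k25, nat_lit 0, nat_lit 0, nat_lit 169, nat_lit 0, nat_lit 0, [nat_lit 780800001, nat_lit 1367200000, nat_lit 1705600000], [], [nat_lit 20787333061, nat_lit 23569692693, nat_lit 28296041044, nat_lit 30255839244], nat_lit 0, nat_lit 0, nat_lit 0, nat_lit 0, nat_lit 0, nat_lit 0, [], [nat_lit 35, nat_lit 40, nat_lit 80, nat_lit 80, nat_lit 22, nat_lit 317, nat_lit 100, nat_lit 15]⟩, C1.Rw.none,
 ⟨nat_lit 0, nat_lit 3163, ⟨.ofNat (nat_lit 309443), .ofNat (nat_lit 731616), .ofNat (nat_lit 351143), .ofNat (nat_lit 775928), .ofNat (nat_lit 342303), .ofNat (nat_lit 689994), .ofNat (nat_lit 389693), .ofNat (nat_lit 739996)⟩, ⟨.ofNat (nat_lit 0), .ofNat (nat_lit 0), .ofNat (nat_lit 0), .ofNat (nat_lit 0), .ofNat (nat_lit 0), .ofNat (nat_lit 0), .ofNat (nat_lit 0), .ofNat (nat_lit 0)⟩⟩, [⟨nat_lit 13, nat_lit 61, nat_lit 68, nat_lit 100, nat_lit 89981692⟩]⟩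
noncomputable def p024_l144 : Lf2 := ⟨nat_lit 0, nat_lit 10, [nat_lit 0, nat_lit 5, nat_lit 5, nat_lit 20], false, nat_lit 0, nat_lit 0, nat_lit 0, nat_lit 0, ⟨nat_lit 688, nat_lit 0, nat_lit 312, nat_lit 5, nat_lit 218, nat_lit 0, nat_lit 0, nat_lit 0, nat_lit 0, nat_lit 215, nat_lit 280612, nat_lit 200, nat_lit 51618916, nat_lit 0, nat_lit 0, nat_lit 2693770, false, true⟩,
 nat_lit 0, nat_lit 4288, nat_lit 0, nat_lit 0, nat_lit 3734, nat_lit 6595, nat_lit 131, nat_lit 0, nat_lit 0, nat_lit 0, nat_lit 0, nat_lit 0, nat_lit 0, nat_lit 0, nat_lit 0, nat_lit 312000, nat_lit 0, nat_lit 0, [(nat_lit 24, [(nat_lit 6, nat_lit 312)])],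
 ⟨p024_k25, nat_lit 0, nat_lit 0, nat_lit 487, nat_lit 0, nat_lit 976576, [nat_lit 1066793601, nat_lit 1559427200, nat_lit 1698041600], [], [nat_lit 24516401697, nat_lit 25551867344, nat_lit 31288574241, nat_lit 32168394167], nat_lit 1271250, nat_lit 1271250, nat_lit 490000, nat_lit 2615000, nat_lit 0, nat_lit 0, [nat_lit 230000, nat_lit 780000, nat_lit 1100000], [nat_lit 35, nat_lit 40, nat_lit 80, nat_lit 80, nat_lit 22, nat_lit 317, nat_lit 100, nat_lit 15]⟩, ⟨p024_k33, nat_lit 0, nat_lit 0, nat_lit 246, nat_lit 0, nat_lit 0, [nat_lit 4300000000, nat_lit 6771296000, nat_lit 8167936000], [], [nat_lit 21175992352, nat_lit 22847671148, nat_lit 29442822432, nat_lit 30103806525], nat_lit 0, nat_lit 0, nat_lit 0, nat_lit 0, nat_lit 0, nat_lit 0, [], [nat_lit 46, nat_lit 40, nat_lit 80, nat_lit 80, nat_lit 41, nat_lit 373, nat_lit 150, nat_lit 10]⟩,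
 ⟨nat_lit 2236, nat_lit 3163, ⟨.ofNat (nat_lit 316827), .ofNat (nat_lit 731621), .ofNat (nat_lit 361011), .ofNat (nat_lit 775931), .ofNat (nat_lit 328641), .ofNat (nat_lit 716658), .ofNat (nat_lit 374063), .ofNat (nat_lit 762206)⟩, ⟨.ofNat (nat_lit 0), .ofNat (nat_lit 0), .ofNat (nat_lit 0), .ofNat (nat_lit 0), .ofNat (nat_lit 0), .ofNat (nat_lit 0), .ofNat (nat_lit 0), .ofNat (nat_lit 0)⟩⟩, [⟨nat_lit 0, nat_lit 100, nat_lit 44, nat_lit 99, nat_lit 165404223⟩]⟩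
noncomputable def p024_l145 : Lf2 := ⟨nat_lit 0, nat_lit 10, [nat_lit 0, nat_lit 5, nat_lit 5, nat_lit 20], false, nat_lit 0, nat_lit 0, nat_lit 0, nat_lit 0, ⟨nat_lit 1000, nat_lit 0, nat_lit 0, nat_lit 0, nat_lit 0, nat_lit 0, nat_lit 0, nat_lit 0, nat_lit 0, nat_lit 0, nat_lit 0, nat_lit 0, nat_lit 0, nat_lit 0, nat_lit 0, nat_lit 0, false, false⟩,
 nat_lit 0, nat_lit 4146, nat_lit 0, nat_lit 0, nat_lit 3874, nat_lit 9886, nat_lit 116, nat_lit 0, nat_lit 0, nat_lit 0, nat_lit 0, nat_lit 0, nat_lit 0, nat_lit 0, nat_lit 0, nat_lit 0, nat_lit 0, nat_lit 0, [],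
 ⟨p024_k30, nat_lit 0, nat_lit 0, nat_lit 437, nat_lit 0, nat_lit 1042156, [nat_lit 938000000, nat_lit 3282000000], [], [nat_lit 26397873941, nat_lit 27620576338, nat_lit 31472265488, nat_lit 32346312488], nat_lit 1271250, nat_lit 1271250, nat_lit 719601, nat_lit 2439450, nat_lit 0, nat_lit 0, [nat_lit 230000, nat_lit 780000], [nat_lit 66, nat_lit 40, nat_lit 80, nat_lit 80, nat_lit 67, nat_lit 317, nat_lit 100, nat_lit 19]⟩, ⟨p024_k33, nat_lit 0, nat_lit 0, nat_lit 229, nat_lit 0, nat_lit 0, [nat_lit 6250000000, nat_lit 9842000000, nat_lit 11872000000], [], [nat_lit 30264958420, nat_lit 32901565631, nat_lit 40124997774, nat_lit 41334138335], nat_lit 0, nat_lit 0, nat_lit 0, nat_lit 0, nat_lit 0, nat_lit 0, [], [nat_lit 46, nat_lit 40, nat_lit 80, nat_lit 80, nat_lit 41, nat_lit 373, nat_lit 150, nat_lit 10]⟩,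
 zbF0, [⟨nat_lit 0, nat_lit 100, nat_lit 31, nat_lit 98, nat_lit 480341783⟩]⟩
noncomputable def p024_l146 : Lf2 := ⟨nat_lit 0, nat_lit 10, [nat_lit 0, nat_lit 5, nat_lit 5, nat_lit 20], false, nat_lit 0, nat_lit 0, nat_lit 0, nat_lit 0, ⟨nat_lit 110, nat_lit 105, nat_lit 785, nat_lit 5, nat_lit 185, nat_lit 0, nat_lit 0, nat_lit 0, nat_lit 0, nat_lit 215, nat_lit 417, nat_lit 210, nat_lit 55160648, nat_lit 11839352, nat_lit 0, nat_lit 2331813, false, false⟩,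
 nat_lit 2957, nat_lit 0, nat_lit 0, nat_lit 0, nat_lit 2575, nat_lit 1267, nat_lit 0, nat_lit 0, nat_lit 0, nat_lit 83, nat_lit 0, nat_lit 0, nat_lit 0, nat_lit 0, nat_lit 11, nat_lit 222500, nat_lit 0, nat_lit 0, [(nat_lit 24, [(nat_lit 0, nat_lit 105), (nat_lit 4, nat_lit 785)])],
 ⟨p024_k25, nat_lit 0, nat_lit 0, nat_lit 337, nat_lit 0, nat_lit 585294, [nat_lit 797540000, nat_lit 299654001, nat_lit 42519999], [], [nat_lit 19717064099, nat_lit 20897318650, nat_lit 23173273301, nat_lit 24348052000], nat_lit 1271250, nat_lit 1271250, nat_lit 490000, nat_lit 1740000, nat_lit 0, nat_lit 0, [nat_lit 230000, nat_lit 780000, nat_lit 1100000], [nat_lit 35, nat_lit 40, nat_lit 80, nat_lit 80, nat_lit 22, nat_lit 272, nat_lit 60, nat_lit 12]⟩, ⟨p024_k33, nat_lit 0, nat_lit 0, nat_lit 971, nat_lit 0, nat_lit 1346990, [nat_lit 687500000, nat_lit 1082620000, nat_lit 1305920000], [], [nat_lit 6866307492,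 nat_lit 5505706600, nat_lit 4234818620, nat_lit 4188362044], nat_lit 1271250, nat_lit 1271250, nat_lit 490000, nat_lit 1740000, nat_lit 0, nat_lit 0, [nat_lit 1412500, nat_lit 1271250, nat_lit 1271250], [nat_lit 46, nat_lit 40, nat_lit 80, nat_lit 80, nat_lit 41, nat_lit 345, nat_lit 125, nat_lit 9]⟩,
 ⟨nat_lit 2236, nat_lit 3163, ⟨.ofNat (nat_lit 316827), .ofNat (nat_lit 560952), .ofNat (nat_lit 361011), .ofNat (nat_lit 605240), .ofNat (nat_lit 328641), .ofNat (nat_lit 557014), .ofNat (nat_lit 374063), .ofNat (nat_lit 602541)⟩, ⟨.ofNat (nat_lit 0), .ofNat (nat_lit 0), .ofNat (nat_lit 0), .ofNat (nat_lit 0), .ofNat (nat_lit 0), .ofNat (nat_lit 0), .ofNat (nat_lit 0), .ofNat (nat_lit 0)⟩⟩, []⟩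
noncomputable def p024_l147 : Lf2 := ⟨nat_lit 0, nat_lit 10, [nat_lit 0, nat_lit 5, nat_lit 5, nat_lit 20], false, nat_lit 0, nat_lit 0, nat_lit 0, nat_lit 0, ⟨nat_lit 82, nat_lit 857, nat_lit 61, nat_lit 5, nat_lit 196, nat_lit 0, nat_lit 0, nat_lit 0, nat_lit 0, nat_lit 215, nat_lit 267, nat_lit 211, nat_lit 54058472, nat_lit 12941528, nat_lit 0, nat_lit 2453841, false, false⟩,
 nat_lit 2797, nat_lit 0, nat_lit 0, nat_lit 0, nat_lit 2613, nat_lit 1198, nat_lit 0, nat_lit 0, nat_lit 0, nat_lit 0, nat_lit 0, nat_lit 0, nat_lit 0, nat_lit 0, nat_lit 0, nat_lit 403800, nat_lit 0, nat_lit 0, [(nat_lit 27, [(nat_lit 1, nat_lit 857), (nat_lit 6, nat_lit 61)])],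
 ⟨p024_k30, nat_lit 0, nat_lit 0, nat_lit 304, nat_lit 0, nat_lit 631960, [nat_lit 707650400, nat_lit 264290000], [], [nat_lit 21377497315, nat_lit 23065045529, nat_lit 24275240870, nat_lit 25357712496], nat_lit 1271250, nat_lit 1271250, nat_lit 719601, nat_lit 1758000, nat_lit 0, nat_lit 0, [nat_lit 230000, nat_lit 780000], [nat_lit 66, nat_lit 40, nat_lit 80, nat_lit 80, nat_lit 67, nat_lit 272, nat_lit 60, nat_lit 16]⟩, ⟨p024_k34, nat_lit 0, nat_lit 0, nat_lit 1040, nat_lit 0, nat_lit 1573361, [nat_lit 512500000, nat_lit 973504000], [], [nat_lit 4755720874, nat_lit 3681595341, nat_lit 3396934472, nat_lit 3380996664], nat_lit 1271250, nat_lit 1271250, nat_lit 719601, nat_lit 1758000, nat_lit 0, nat_lit 0, [nat_lit 1412500, nat_lit 1271250], [nat_lit 107, nat_lit 40, nat_lit 80, nat_lit 80, nat_lit 12, nat_lit 345, nat_lit 125, nat_lit 9]⟩,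
 ⟨nat_lit 0, nat_lit 2237, ⟨.ofNat (nat_lit 370513), .ofNat (nat_lit 557013), .ofNat (nat_lit 414208), .ofNat (nat_lit 602531), .ofNat (nat_lit 385947), .ofNat (nat_lit 549998), .ofNat (nat_lit 434094), .ofNat (nat_lit 599967)⟩, ⟨.ofNat (nat_lit 0), .ofNat (nat_lit 0), .ofNat (nat_lit 0), .ofNat (nat_lit 0), .ofNat (nat_lit 0), .ofNat (nat_lit 0), .ofNat (nat_lit 0), .ofNat (nat_lit 0)⟩⟩, []⟩
noncomputable def p024_l148 : Lf2 := ⟨nat_lit 0, nat_lit 10, [nat_lit 0, nat_lit 5, nat_lit 5, nat_lit 20], false, nat_lit 0, nat_lit 0, nat_lit 0, nat_lit 0, ⟨nat_lit 117, nat_lit 596, nat_lit 287, nat_lit 6, nat_lit 256, nat_lit 0, nat_lit 0, nat_lit 0, nat_lit 0, nat_lit 215, nat_lit 187540, nat_lit 200, nat_lit 47488205, nat_lit 19511795, nat_lit 0, nat_lit 3016205, true, true⟩,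
 nat_lit 3187, nat_lit 0, nat_lit 0, nat_lit 0, nat_lit 2775, nat_lit 1365, nat_lit 98, nat_lit 0, nat_lit 0, nat_lit 110, nat_lit 0, nat_lit 0, nat_lit 0, nat_lit 0, nat_lit 0, nat_lit 263800, nat_lit 0, nat_lit 0, [(nat_lit 24, [(nat_lit 0, nat_lit 596), (nat_lit 5, nat_lit 287)])],
 ⟨p024_k25, nat_lit 0, nat_lit 0, nat_lit 319, nat_lit 0, nat_lit 568705, [nat_lit 773778801, nat_lit 976668934, nat_lit 1036494400], [], [nat_lit 24611565103, nat_lit 25455477942, nat_lit 27756941332, nat_lit 28600453007], nat_lit 1271250, nat_lit 1271250, nat_lit 1271250, nat_lit 1271250, nat_lit 0, nat_lit 0, [nat_lit 230000, nat_lit 780000, nat_lit 1100000], [nat_lit 35, nat_lit 40, nat_lit 80, nat_lit 80, nat_lit 22, nat_lit 203, nat_lit 0, nat_lit 8]⟩, ⟨p024_k33, nat_lit 0, nat_lit 0, nat_lit 873, nat_lit 0, nat_lit 1308813, [nat_lit 731250000, nat_lit 1151514000, nat_lit 1389024000], [], [nat_lit 4429343412,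 nat_lit 4403828364, nat_lit 4642637938, nat_lit 4644776823], nat_lit 1271250, nat_lit 1271250, nat_lit 1271250, nat_lit 1271250, nat_lit 0, nat_lit 0, [nat_lit 1412500, nat_lit 1271250, nat_lit 1271250], [nat_lit 46, nat_lit 40, nat_lit 80, nat_lit 80, nat_lit 41, nat_lit 373, nat_lit 150, nat_lit 9]⟩,
 ⟨nat_lit 2236, nat_lit 3163, ⟨.ofNat (nat_lit 560952), .ofNat (nat_lit 707240), .ofNat (nat_lit 583107), .ofNat (nat_lit 729395), .ofNat (nat_lit 557014), .ofNat (nat_lit 693851), .ofNat (nat_lit 579788), .ofNat (nat_lit 716626)⟩, ⟨.ofNat (nat_lit 0), .ofNat (nat_lit 0), .ofNat (nat_lit 0), .ofNat (nat_lit 0), .ofNat (nat_lit 0), .ofNat (nat_lit 0), .ofNat (nat_lit 0), .ofNat (nat_lit 0)⟩⟩, [⟨nat_lit 13, nat_lit 53, nat_lit 82, nat_lit 100, nat_lit 107057409⟩, ⟨nat_lit 13, nat_lit 44, nat_lit 90, nat_lit 100, nat_lit 173905592⟩]⟩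
noncomputable def p024_l149 : Lf2 := ⟨nat_lit 0, nat_lit 10, [nat_lit 0, nat_lit 5, nat_lit 5, nat_lit 20], false, nat_lit 0, nat_lit 0, nat_lit 0, nat_lit 0, ⟨nat_lit 103, nat_lit 897, nat_lit 0, nat_lit 6, nat_lit 244, nat_lit 0, nat_lit 0, nat_lit 0, nat_lit 0, nat_lit 0, nat_lit 0, nat_lit 0, nat_lit 48789928, nat_lit 18210072, nat_lit 0, nat_lit 2925165, true, true⟩,
 nat_lit 2794, nat_lit 0, nat_lit 0, nat_lit 0, nat_lit 2610, nat_lit 1197, nat_lit 0, nat_lit 0, nat_lit 0, nat_lit 92, nat_lit 0, nat_lit 0, nat_lit 0, nat_lit 0, nat_lit 0, nat_lit 358800, nat_lit 0, nat_lit 0, [(nat_lit 27, [(nat_lit 1, nat_lit 897)])],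
 ⟨p024_k30, nat_lit 0, nat_lit 0, nat_lit 296, nat_lit 0, nat_lit 621730, [nat_lit 722361200, nat_lit 629032800], [], [nat_lit 24796982700, nat_lit 25873230760, nat_lit 27142376957, nat_lit 28096495826], nat_lit 1271250, nat_lit 1271250, nat_lit 1271250, nat_lit 1271250, nat_lit 0, nat_lit 0, [nat_lit 230000, nat_lit 780000], [nat_lit 66, nat_lit 40, nat_lit 80, nat_lit 80, nat_lit 67, nat_lit 203, nat_lit 0, nat_lit 10]⟩, ⟨p024_k33, nat_lit 0, nat_lit 0, nat_lit 985, nat_lit 0, nat_lit 1547893, [nat_lit 643750000, nat_lit 1013726000, nat_lit 1222816000], [], [nat_lit 3919473268, nat_lit 3897228508, nat_lit 3996459827, nat_lit 3982484364], nat_lit 1271250, nat_lit 1271250, nat_lit 1271250, nat_lit 1271250, nat_lit 0, nat_lit 0, [nat_lit 1412500, nat_lit 1271250, nat_lit 1271250], [nat_lit 46, nat_lit 40, nat_lit 80, nat_lit 80, nat_lit 41, nat_lit 373, nat_lit 150, nat_lit 9]⟩,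
 ⟨nat_lit 0, nat_lit 2237, ⟨.ofNat (nat_lit 557013), .ofNat (nat_lit 653935), .ofNat (nat_lit 579788), .ofNat (nat_lit 676711), .ofNat (nat_lit 549998), .ofNat (nat_lit 634993), .ofNat (nat_lit 574999), .ofNat (nat_lit 659995)⟩, ⟨.ofNat (nat_lit 0), .ofNat (nat_lit 0), .ofNat (nat_lit 0), .ofNat (nat_lit 0), .ofNat (nat_lit 0), .ofNat (nat_lit 0), .ofNat (nat_lit 0), .ofNat (nat_lit 0)⟩⟩, [⟨nat_lit 13, nat_lit 31, nat_lit 93, nat_lit 100, nat_lit 382911083⟩, ⟨nat_lit 13, nat_lit 44, nat_lit 86, nat_lit 100, nat_lit 6617319⟩]⟩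
noncomputable def p024_l150 : Lf2 := ⟨nat_lit 0, nat_lit 10, [nat_lit 0, nat_lit 5, nat_lit 5, nat_lit 20], false, nat_lit 0, nat_lit 0, nat_lit 0, nat_lit 0, ⟨nat_lit 172, nat_lit 828, nat_lit 0, nat_lit 6, nat_lit 270, nat_lit 0, nat_lit 0, nat_lit 0, nat_lit 0, nat_lit 0, nat_lit 0, nat_lit 0, nat_lit 46017555, nat_lit 20982445, nat_lit 0, nat_lit 3108070, true, true⟩,
 nat_lit 3551, nat_lit 0, nat_lit 0, nat_lit 0, nat_lit 3092, nat_lit 1698, nat_lit 15, nat_lit 0, nat_lit 0, nat_lit 207, nat_lit 0, nat_lit 0, nat_lit 0, nat_lit 0, nat_lit 0, nat_lit 368400, nat_lit 0, nat_lit 0, [(nat_lit 24, [(nat_lit 1, nat_lit 766), (nat_lit 2, nat_lit 62)])],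
 ⟨p024_k25, nat_lit 0, nat_lit 0, nat_lit 328, nat_lit 0, nat_lit 585294, [nat_lit 901920000, nat_lit 1299147734, nat_lit 1407752000], [], [nat_lit 26191676388, nat_lit 27067132836, nat_lit 29576599646, nat_lit 30357285537], nat_lit 1271250, nat_lit 1271250, nat_lit 1271250, nat_lit 1271250, nat_lit 0, nat_lit 0, [nat_lit 230000, nat_lit 780000, nat_lit 1100000], [nat_lit 35, nat_lit 40, nat_lit 80, nat_lit 80, nat_lit 22, nat_lit 203, nat_lit 0, nat_lit 8]⟩, ⟨p024_k35, nat_lit 0, nat_lit 0, nat_lit 811, nat_lit 0, nat_lit 1177607, [nat_lit 1075000000, nat_lit 1692824000, nat_lit 2041984000], [], [nat_lit 6177211012, nat_lit 6154068292, nat_lit 6560342527, nat_lit 6567555684], nat_lit 1271250, nat_lit 1271250, nat_lit 1271250, nat_lit 1271250, nat_lit 0, nat_lit 0, [nat_lit 1412500, nat_lit 1271250, nat_lit 1271250], [nat_lit 46, nat_lit 40, nat_lit 80, nat_lit 80, nat_lit 41, nat_lit 373,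 nat_lit 150, nat_lit 9]⟩,
 ⟨nat_lit 2236, nat_lit 3163, ⟨.ofNat (nat_lit 583107), .ofNat (nat_lit 753776), .ofNat (nat_lit 605240), .ofNat (nat_lit 775931), .ofNat (nat_lit 579788), .ofNat (nat_lit 739432), .ofNat (nat_lit 602541), .ofNat (nat_lit 762206)⟩, ⟨.ofNat (nat_lit 0), .ofNat (nat_lit 0), .ofNat (nat_lit 0), .ofNat (nat_lit 0), .ofNat (nat_lit 0), .ofNat (nat_lit 0), .ofNat (nat_lit 0), .ofNat (nat_lit 0)⟩⟩, [⟨nat_lit 13, nat_lit 44, nat_lit 86, nat_lit 100, nat_lit 174800994⟩]⟩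
noncomputable def p024_l151 : Lf2 := ⟨nat_lit 0, nat_lit 10, [nat_lit 0, nat_lit 5, nat_lit 5, nat_lit 20], false, nat_lit 0, nat_lit 0, nat_lit 0, nat_lit 0, ⟨nat_lit 134, nat_lit 866, nat_lit 0, nat_lit 6, nat_lit 258, nat_lit 0, nat_lit 0, nat_lit 0, nat_lit 0, nat_lit 0, nat_lit 0, nat_lit 0, nat_lit 47293551, nat_lit 19706449, nat_lit 0, nat_lit 3029023, true, true⟩,
 nat_lit 2885, nat_lit 0, nat_lit 0, nat_lit 0, nat_lit 2695, nat_lit 1379, nat_lit 0, nat_lit 0, nat_lit 0, nat_lit 128, nat_lit 0, nat_lit 0, nat_lit 0, nat_lit 0, nat_lit 0, nat_lit 338450, nat_lit 0, nat_lit 0, [(nat_lit 27, [(nat_lit 0, nat_lit 53), (nat_lit 1, nat_lit 813)])],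
 ⟨p024_k30, nat_lit 0, nat_lit 0, nat_lit 302, nat_lit 0, nat_lit 631960, [nat_lit 734223201, nat_lit 758793600], [], [nat_lit 25231129531, nat_lit 26291203391, nat_lit 28108575347, nat_lit 29021005430], nat_lit 1271250, nat_lit 1271250, nat_lit 1271250, nat_lit 1271250, nat_lit 0, nat_lit 0, [nat_lit 230000, nat_lit 780000], [nat_lit 66, nat_lit 40, nat_lit 80, nat_lit 80, nat_lit 67, nat_lit 203, nat_lit 0, nat_lit 10]⟩, ⟨p024_k35, nat_lit 0, nat_lit 0, nat_lit 895, nat_lit 0, nat_lit 1375511, [nat_lit 837500000, nat_lit 1318828000, nat_lit 1590848000], [], [nat_lit 4831682492, nat_lit 4811039740, nat_lit 4988902246, nat_lit 5000756344], nat_lit 1271250, nat_lit 1271250, nat_lit 1271250, nat_lit 1271250, nat_lit 0, nat_lit 0, [nat_lit 1412500, nat_lit 1271250, nat_lit 1271250], [nat_lit 46, nat_lit 40, nat_lit 80, nat_lit 80, nat_lit 41, nat_lit 373, nat_lit 150, nat_lit 9]⟩,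
 ⟨nat_lit 0, nat_lit 2237, ⟨.ofNat (nat_lit 579788), .ofNat (nat_lit 699516), .ofNat (nat_lit 602531), .ofNat (nat_lit 722292), .ofNat (nat_lit 574999), .ofNat (nat_lit 679994), .ofNat (nat_lit 599967), .ofNat (nat_lit 704996)⟩, ⟨.ofNat (nat_lit 0), .ofNat (nat_lit 0), .ofNat (nat_lit 0), .ofNat (nat_lit 0), .ofNat (nat_lit 0), .ofNat (nat_lit 0), .ofNat (nat_lit 0), .ofNat (nat_lit 0)⟩⟩, [⟨nat_lit 13, nat_lit 32, nat_lit 90, nat_lit 100, nat_lit 351563312⟩]⟩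
noncomputable def p024_l152 : Lf2 := ⟨nat_lit 0, nat_lit 10, [nat_lit 0, nat_lit 5, nat_lit 5, nat_lit 20], false, nat_lit 0, nat_lit 0, nat_lit 0, nat_lit 0, ⟨nat_lit 351, nat_lit 649, nat_lit 0, nat_lit 5, nat_lit 217, nat_lit 0, nat_lit 0, nat_lit 0, nat_lit 0, nat_lit 0, nat_lit 0, nat_lit 0, nat_lit 0, nat_lit 0, nat_lit 0, nat_lit 5000000, false, true⟩,
 nat_lit 0, nat_lit 4143, nat_lit 0, nat_lit 0, nat_lit 3608, nat_lit 2563, nat_lit 132, nat_lit 0, nat_lit 0, nat_lit 0, nat_lit 0, nat_lit 0, nat_lit 0, nat_lit 0, nat_lit 0, nat_lit 319600, nat_lit 0, nat_lit 0, [(nat_lit 24, [(nat_lit 1, nat_lit 549), (nat_lit 2, nat_lit 100)]), (nat_lit 27, [(nat_lit 1, nat_lit 549), (nat_lit 2, nat_lit 100)])],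
 ⟨p024_k25, nat_lit 0, nat_lit 0, nat_lit 562, nat_lit 0, nat_lit 1140696, [nat_lit 941590000, nat_lit 1652238000, nat_lit 1960333600], [], [nat_lit 27305374520, nat_lit 28927389964, nat_lit 31950135360, nat_lit 33167558378], nat_lit 1271250, nat_lit 1271250, nat_lit 490000, nat_lit 2615000, nat_lit 0, nat_lit 0, [nat_lit 230000, nat_lit 780000, nat_lit 1100000], [nat_lit 35, nat_lit 40, nat_lit 80, nat_lit 80, nat_lit 22, nat_lit 317, nat_lit 100, nat_lit 15]⟩, ⟨p024_k33, nat_lit 0, nat_lit 0, nat_lit 246, nat_lit 0, nat_lit 0, [nat_lit 2193750000, nat_lit 3454542000, nat_lit 4167072000], [], [nat_lit 11403046604, nat_lit 12056058664, nat_lit 14454555749, nat_lit 14716088356], nat_lit 0, nat_lit 0, nat_lit 0, nat_lit 0, nat_lit 0, nat_lit 0, [], [nat_lit 46, nat_lit 40, nat_lit 80, nat_lit 80, nat_lit 41, nat_lit 373, nat_lit 150, nat_lit 10]⟩,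
 ⟨nat_lit 0, nat_lit 3163, ⟨.ofNat (nat_lit 309443), .ofNat (nat_lit 731616), .ofNat (nat_lit 351143), .ofNat (nat_lit 775928), .ofNat (nat_lit 342303), .ofNat (nat_lit 689994), .ofNat (nat_lit 389693), .ofNat (nat_lit 739996)⟩, ⟨.ofNat (nat_lit 0), .ofNat (nat_lit 0), .ofNat (nat_lit 0), .ofNat (nat_lit 0), .ofNat (nat_lit 0), .ofNat (nat_lit 0), .ofNat (nat_lit 0), .ofNat (nat_lit 0)⟩⟩, []⟩
noncomputable def p024_l153 : Lf2 := ⟨nat_lit 0, nat_lit 10, [nat_lit 0, nat_lit 5, nat_lit 5, nat_lit 20], false, nat_lit 0, nat_lit 0, nat_lit 0, nat_lit 0, ⟨nat_lit 46, nat_lit 954, nat_lit 0, nat_lit 5, nat_lit 217, nat_lit 0, nat_lit 0, nat_lit 0, nat_lit 0, nat_lit 0, nat_lit 0, nat_lit 0, nat_lit 0, nat_lit 0, nat_lit 0, nat_lit 5000000, false, true⟩,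
 nat_lit 1203, nat_lit 2204, nat_lit 0, nat_lit 0, nat_lit 2966, nat_lit 515, nat_lit 29, nat_lit 0, nat_lit 0, nat_lit 41, nat_lit 0, nat_lit 0, nat_lit 0, nat_lit 0, nat_lit 0, nat_lit 362550, nat_lit 0, nat_lit 0, [(nat_lit 24, [(nat_lit 0, nat_lit 127), (nat_lit 1, nat_lit 827)]), (nat_lit 27, [(nat_lit 0, nat_lit 127), (nat_lit 1, nat_lit 827)])],
 ⟨p024_k25, nat_lit 0, nat_lit 0, nat_lit 378, nat_lit 0, nat_lit 683656, [nat_lit 843605600, nat_lit 1149401067, nat_lit 1221548000], [], [nat_lit 23620554276, nat_lit 25734654516, nat_lit 29751175909, nat_lit 31237812260], nat_lit 1271250, nat_lit 1271250, nat_lit 490000, nat_lit 2615000, nat_lit 0, nat_lit 0, [nat_lit 230000, nat_lit 780000, nat_lit 1100000], [nat_lit 35, nat_lit 40, nat_lit 80, nat_lit 80, nat_lit 22, nat_lit 317, nat_lit 100, nat_lit 15]⟩, ⟨p024_k33, nat_lit 0, nat_lit 0, nat_lit 1067, nat_lit 0, nat_lit 1573361, [nat_lit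 287500000, nat_lit 452732000, nat_lit 546112000], [], [nat_lit 2832824292, nat_lit 2279778152, nat_lit 1997347472, nat_lit 1908074762], nat_lit 1271250, nat_lit 1271250, nat_lit 490000, nat_lit 2615000, nat_lit 0, nat_lit 0, [nat_lit 1412500, nat_lit 1271250, nat_lit 1271250], [nat_lit 46, nat_lit 40, nat_lit 80, nat_lit 80, nat_lit 41, nat_lit 373, nat_lit 150, nat_lit 10]⟩,
 ⟨nat_lit 0, nat_lit 3163, ⟨.ofNat (nat_lit 309443), .ofNat (nat_lit 731616), .ofNat (nat_lit 351143), .ofNat (nat_lit 775928), .ofNat (nat_lit 342303), .ofNat (nat_lit 689994), .ofNat (nat_lit 389693), .ofNat (nat_lit 739996)⟩, ⟨.ofNat (nat_lit 0), .ofNat (nat_lit 0), .ofNat (nat_lit 0), .ofNat (nat_lit 0), .ofNat (nat_lit 0), .ofNat (nat_lit 0), .ofNat (nat_lit 0), .ofNat (nat_lit 0)⟩⟩, [⟨nat_lit 13, nat_lit 44, nat_lit 86, nat_lit 100, nat_lit 294786530⟩]⟩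
noncomputable def p024_l154 : Lf2 := ⟨nat_lit 0, nat_lit 10, [nat_lit 0, nat_lit 5, nat_lit 5, nat_lit 20], false, nat_lit 0, nat_lit 0, nat_lit 0, nat_lit 0, ⟨nat_lit 1000, nat_lit 0, nat_lit 0, nat_lit 0, nat_lit 0, nat_lit 0, nat_lit 0, nat_lit 0, nat_lit 0, nat_lit 0, nat_lit 0, nat_lit 0, nat_lit 0, nat_lit 0, nat_lit 0, nat_lit 0, false, false⟩,
 nat_lit 0, nat_lit 0, nat_lit 0, nat_lit 0, nat_lit 5775, nat_lit 2821, nat_lit 0, nat_lit 0, nat_lit 0, nat_lit 0, nat_lit 0, nat_lit 0, nat_lit 0, nat_lit 0, nat_lit 0, nat_lit 0, nat_lit 0, nat_lit 0, [],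
 ⟨p024_k25, nat_lit 0, nat_lit 0, nat_lit 169, nat_lit 0, nat_lit 0, [nat_lit 938000000, nat_lit 3282000000, nat_lit 4688000000], [], [nat_lit 26497070500, nat_lit 32687634300, nat_lit 36196776621, nat_lit 39672518901], nat_lit 0, nat_lit 0, nat_lit 0, nat_lit 0, nat_lit 0, nat_lit 0, [], [nat_lit 35, nat_lit 40, nat_lit 80, nat_lit 80, nat_lit 22, nat_lit 317, nat_lit 100, nat_lit 15]⟩, ⟨p024_k33, nat_lit 0, nat_lit 0, nat_lit 246, nat_lit 0, nat_lit 0, [nat_lit 6250000000, nat_lit 9842000000, nat_lit 11872000000], [], [nat_lit 35839096000, nat_lit 37249207216, nat_lit 43450916379, nat_lit 44293141386], nat_lit 0, nat_lit 0, nat_lit 0, nat_lit 0, nat_lit 0, nat_lit 0, [], [nat_lit 46, nat_lit 40, nat_lit 80, nat_lit 80, nat_lit 41, nat_lit 373, nat_lit 150, nat_lit 10]⟩,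
 zbF0, [⟨nat_lit 0, nat_lit 100, nat_lit 44, nat_lit 94, nat_lit 460397006⟩]⟩
noncomputable def p024_l155 : Lf2 := ⟨nat_lit 0, nat_lit 10, [nat_lit 0, nat_lit 5, nat_lit 5, nat_lit 20], true, nat_lit 0, nat_lit 0, nat_lit 0, nat_lit 0, ⟨nat_lit 0, nat_lit 392, nat_lit 608, nat_lit 5, nat_lit 185, nat_lit 0, nat_lit 0, nat_lit 0, nat_lit 0, nat_lit 215, nat_lit 417, nat_lit 210, nat_lit 55148891, nat_lit 11851109, nat_lit 0, nat_lit 2333162, false, false⟩,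
 nat_lit 0, nat_lit 0, nat_lit 0, nat_lit 0, nat_lit 2240, nat_lit 0, nat_lit 0, nat_lit 0, nat_lit 0, nat_lit 0, nat_lit 0, nat_lit 0, nat_lit 0, nat_lit 0, nat_lit 0, nat_lit 250000, nat_lit 0, nat_lit 0, [(nat_lit 24, [(nat_lit 0, nat_lit 392), (nat_lit 4, nat_lit 608)]), (nat_lit 27, [(nat_lit 0, nat_lit 392), (nat_lit 4, nat_lit 608)])],
 ⟨p024_k25, nat_lit 0, nat_lit 0, nat_lit 169, nat_lit 0, nat_lit 0, [nat_lit 769126400, nat_lit 274988801, nat_lit 29427199], [], [nat_lit 18686963198, nat_lit 21772784480, nat_lit 22013699358, nat_lit 24425418880], nat_lit 0, nat_lit 0, nat_lit 0, nat_lit 0, nat_lit 0, nat_lit 0, [], [nat_lit 35, nat_lit 40, nat_lit 80, nat_lit 80, nat_lit 22, nat_lit 272, nat_lit 60, nat_lit 12]⟩, C1.Rw.none,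
 ⟨nat_lit 0, nat_lit 3163, ⟨.ofNat (nat_lit 309443), .ofNat (nat_lit 560951), .ofNat (nat_lit 351143), .ofNat (nat_lit 605128), .ofNat (nat_lit 342303), .ofNat (nat_lit 549998), .ofNat (nat_lit 389693), .ofNat (nat_lit 599865)⟩, ⟨.ofNat (nat_lit 0), .ofNat (nat_lit 0), .ofNat (nat_lit 0), .ofNat (nat_lit 0), .ofNat (nat_lit 0), .ofNat (nat_lit 0), .ofNat (nat_lit 0), .ofNat (nat_lit 0)⟩⟩, []⟩
noncomputable def p024_l156 : Lf2 := ⟨nat_lit 0, nat_lit 10, [nat_lit 0, nat_lit 5, nat_lit 5, nat_lit 20], true, nat_lit 0, nat_lit 0, nat_lit 0, nat_lit 0, ⟨nat_lit 0, nat_lit 1000, nat_lit 0, nat_lit 6, nat_lit 263, nat_lit 0, nat_lit 0, nat_lit 0, nat_lit 0, nat_lit 0, nat_lit 0, nat_lit 0, nat_lit 46812733, nat_lit 20187267, nat_lit 0, nat_lit 3059818, true, true⟩,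
 nat_lit 0, nat_lit 0, nat_lit 0, nat_lit 0, nat_lit 3104, nat_lit 0, nat_lit 0, nat_lit 0, nat_lit 0, nat_lit 0, nat_lit 0, nat_lit 0, nat_lit 0, nat_lit 0, nat_lit 0, nat_lit 250000, nat_lit 0, nat_lit 0, [(nat_lit 24, [(nat_lit 0, nat_lit 1000)]), (nat_lit 27, [(nat_lit 0, nat_lit 1000)])],
 ⟨p024_k25, nat_lit 0, nat_lit 0, nat_lit 166, nat_lit 0, nat_lit 0, [nat_lit 780800001, nat_lit 1367200000, nat_lit 1705600000], [], [nat_lit 24584545248, nat_lit 27026322400, nat_lit 29125601716, nat_lit 31647007936], nat_lit 0, nat_lit 0, nat_lit 0, nat_lit 0, nat_lit 0, nat_lit 0, [], [nat_lit 35, nat_lit 40, nat_lit 80, nat_lit 80, nat_lit 22, nat_lit 203, nat_lit 0, nat_lit 8]⟩, C1.Rw.none,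
 ⟨nat_lit 0, nat_lit 3163, ⟨.ofNat (nat_lit 560951), .ofNat (nat_lit 731616), .ofNat (nat_lit 605128), .ofNat (nat_lit 775928), .ofNat (nat_lit 549998), .ofNat (nat_lit 689994), .ofNat (nat_lit 599865), .ofNat (nat_lit 739996)⟩, ⟨.ofNat (nat_lit 0), .ofNat (nat_lit 0), .ofNat (nat_lit 0), .ofNat (nat_lit 0), .ofNat (nat_lit 0), .ofNat (nat_lit 0), .ofNat (nat_lit 0), .ofNat (nat_lit 0)⟩⟩, [⟨nat_lit 13, nat_lit 61, nat_lit 68, nat_lit 100, nat_lit 284958368⟩]⟩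
noncomputable def p024_l157 : Lf2 := ⟨nat_lit 0, nat_lit 10, [nat_lit 0, nat_lit 5, nat_lit 5, nat_lit 20], true, nat_lit 0, nat_lit 0, nat_lit 0, nat_lit 0, ⟨nat_lit 0, nat_lit 1000, nat_lit 0, nat_lit 5, nat_lit 217, nat_lit 0, nat_lit 0, nat_lit 0, nat_lit 0, nat_lit 0, nat_lit 0, nat_lit 0, nat_lit 0, nat_lit 0, nat_lit 0, nat_lit 5000000, false, true⟩,
 nat_lit 0, nat_lit 0, nat_lit 0, nat_lit 0, nat_lit 1869, nat_lit 0, nat_lit 0, nat_lit 0, nat_lit 0, nat_lit 0, nat_lit 0, nat_lit 0, nat_lit 0, nat_lit 0, nat_lit 0, nat_lit 250000, nat_lit 0, nat_lit 0, [(nat_lit 24, [(nat_lit 0, nat_lit 1000)]), (nat_lit 27, [(nat_lit 0, nat_lit 1000)])],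
 ⟨p024_k25, nat_lit 0, nat_lit 0, nat_lit 169, nat_lit 0, nat_lit 0, [nat_lit 780800001, nat_lit 1367200000, nat_lit 1705600000], [], [nat_lit 22362006541, nat_lit 24771990429, nat_lit 29788616151, nat_lit 31402285535], nat_lit 0, nat_lit 0, nat_lit 0, nat_lit 0, nat_lit 0, nat_lit 0, [], [nat_lit 35, nat_lit 40, nat_lit 80, nat_lit 80, nat_lit 22, nat_lit 317, nat_lit 100, nat_lit 15]⟩, C1.Rw.none,
 ⟨nat_lit 0, nat_lit 3163, ⟨.ofNat (nat_lit 309443), .ofNat (nat_lit 731616), .ofNat (nat_lit 351143), .ofNat (nat_lit 775928), .ofNat (nat_lit 342303), .ofNat (nat_lit 689994), .ofNat (nat_lit 389693), .ofNat (nat_lit 739996)⟩, ⟨.ofNat (nat_lit 0), .ofNat (nat_lit 0), .ofNat (nat_lit 0), .ofNat (nat_lit 0), .ofNat (nat_lit 0), .ofNat (nat_lit 0), .ofNat (nat_lit 0), .ofNat (nat_lit 0)⟩⟩, [⟨nat_lit 13, nat_lit 61, nat_lit 68, nat_lit 100, nat_lit 304074923⟩]⟩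
noncomputable def p024_l158 : Lf2 := ⟨nat_lit 0, nat_lit 10, [nat_lit 0, nat_lit 5, nat_lit 5, nat_lit 20], false, nat_lit 0, nat_lit 0, nat_lit 0, nat_lit 0, ⟨nat_lit 712, nat_lit 0, nat_lit 288, nat_lit 5, nat_lit 217, nat_lit 0, nat_lit 0, nat_lit 0, nat_lit 0, nat_lit 215, nat_lit 280606, nat_lit 200, nat_lit 51818791, nat_lit 0, nat_lit 0, nat_lit 2675584, false, true⟩,
 nat_lit 0, nat_lit 4050, nat_lit 0, nat_lit 0, nat_lit 3527, nat_lit 7022, nat_lit 143, nat_lit 0, nat_lit 0, nat_lit 0, nat_lit 0, nat_lit 0, nat_lit 0, nat_lit 0, nat_lit 0, nat_lit 288000, nat_lit 0, nat_lit 0, [(nat_lit 24, [(nat_lit 6, nat_lit 288)]), (nat_lit 27, [(nat_lit 6, nat_lit 288)])],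
 ⟨p024_k25, nat_lit 0, nat_lit 0, nat_lit 434, nat_lit 0, nat_lit 821757, [nat_lit 1056886401, nat_lit 1691932800, nat_lit 2002457600], [], [nat_lit 25384738817, nat_lit 27284831308, nat_lit 31336793140, nat_lit 32917989268], nat_lit 1271250, nat_lit 1271250, nat_lit 490000, nat_lit 2615000, nat_lit 0, nat_lit 0, [nat_lit 230000, nat_lit 780000, nat_lit 1100000], [nat_lit 35, nat_lit 40, nat_lit 80, nat_lit 80, nat_lit 22, nat_lit 317, nat_lit 100, nat_lit 15]⟩, ⟨p024_k33, nat_lit 0, nat_lit 0, nat_lit 246, nat_lit 0, nat_lit 0, [nat_lit 4450000000, nat_lit 7007504000, nat_lit 8452864000], [], [nat_lit 21769882480, nat_lit 23738175960, nat_lit 30628377536, nat_lit 31311695098], nat_lit 0, nat_lit 0, nat_lit 0, nat_lit 0, nat_lit 0, nat_lit 0, [], [nat_lit 46, nat_lit 40, nat_lit 80, nat_lit 80, nat_lit 41, nat_lit 373, nat_lit 150, nat_lit 10]⟩,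
 ⟨nat_lit 0, nat_lit 3163, ⟨.ofNat (nat_lit 309443), .ofNat (nat_lit 731616), .ofNat (nat_lit 351143), .ofNat (nat_lit 775928), .ofNat (nat_lit 342303), .ofNat (nat_lit 689994), .ofNat (nat_lit 389693), .ofNat (nat_lit 739996)⟩, ⟨.ofNat (nat_lit 0), .ofNat (nat_lit 0), .ofNat (nat_lit 0), .ofNat (nat_lit 0), .ofNat (nat_lit 0), .ofNat (nat_lit 0), .ofNat (nat_lit 0), .ofNat (nat_lit 0)⟩⟩, [⟨nat_lit 0, nat_lit 100, nat_lit 44, nat_lit 94, nat_lit 179518475⟩]⟩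
noncomputable def p024_l159 : Lf2 := ⟨nat_lit 0, nat_lit 10, [nat_lit 0, nat_lit 5, nat_lit 5, nat_lit 20], false, nat_lit 0, nat_lit 0, nat_lit 0, nat_lit 0, ⟨nat_lit 98, nat_lit 243, nat_lit 659, nat_lit 5, nat_lit 185, nat_lit 0, nat_lit 0, nat_lit 0, nat_lit 0, nat_lit 215, nat_lit 417, nat_lit 210, nat_lit 55148891, nat_lit 11851109, nat_lit 0, nat_lit 2333162, false, false⟩,
 nat_lit 2740, nat_lit 240, nat_lit 0, nat_lit 0, nat_lit 2595, nat_lit 1174, nat_lit 0, nat_lit 0, nat_lit 0, nat_lit 78, nat_lit 0, nat_lit 0, nat_lit 0, nat_lit 0, nat_lit 0, nat_lit 225500, nat_lit 0, nat_lit 0, [(nat_lit 24, [(nat_lit 0, nat_lit 243), (nat_lit 4, nat_lit 659)]), (nat_lit 27, [(nat_lit 0, nat_lit 243), (nat_lit 4, nat_lit 659)])],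
 ⟨p024_k25, nat_lit 0, nat_lit 0, nat_lit 327, nat_lit 0, nat_lit 513116, [nat_lit 783552801, nat_lit 371022800, nat_lit 177862400], [], [nat_lit 20629353465, nat_lit 22868900940, nat_lit 23682153887, nat_lit 25793287170], nat_lit 1271250, nat_lit 1271250, nat_lit 490000, nat_lit 1740000, nat_lit 0, nat_lit 0, [nat_lit 230000, nat_lit 780000, nat_lit 1100000], [nat_lit 35, nat_lit 40, nat_lit 80, nat_lit 80, nat_lit 22, nat_lit 272, nat_lit 60, nat_lit 12]⟩, ⟨p024_k33, nat_lit 0, nat_lit 0, nat_lit 909, nat_lit 0, nat_lit 1229163, [nat_lit 612500000, nat_lit 964516000, nat_lit 1163456000], [], [nat_lit 6234719760, nat_lit 4973989336, nat_lit 3598662440, nat_lit 3596691320], nat_lit 1271250, nat_lit 1271250, nat_lit 490000, nat_lit 1740000, nat_lit 0, nat_lit 0, [nat_lit 1412500, nat_lit 1271250, nat_lit 1271250], [nat_lit 46, nat_lit 40, nat_lit 80, nat_lit 80, nat_lit 41, nat_lit 345, nat_lit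 125, nat_lit 9]⟩,
 ⟨nat_lit 0, nat_lit 3163, ⟨.ofNat (nat_lit 309443), .ofNat (nat_lit 560951), .ofNat (nat_lit 351143), .ofNat (nat_lit 605128), .ofNat (nat_lit 342303), .ofNat (nat_lit 549998), .ofNat (nat_lit 389693), .ofNat (nat_lit 599865)⟩, ⟨.ofNat (nat_lit 0), .ofNat (nat_lit 0), .ofNat (nat_lit 0), .ofNat (nat_lit 0), .ofNat (nat_lit 0), .ofNat (nat_lit 0), .ofNat (nat_lit 0), .ofNat (nat_lit 0)⟩⟩, [⟨nat_lit 0, nat_lit 100, nat_lit 44, nat_lit 94, nat_lit 6581458⟩]⟩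
noncomputable def p024_l160 : Lf2 := ⟨nat_lit 0, nat_lit 10, [nat_lit 0, nat_lit 5, nat_lit 5, nat_lit 20], false, nat_lit 0, nat_lit 0, nat_lit 0, nat_lit 0, ⟨nat_lit 117, nat_lit 309, nat_lit 574, nat_lit 6, nat_lit 256, nat_lit 0, nat_lit 0, nat_lit 0, nat_lit 0, nat_lit 215, nat_lit 187540, nat_lit 200, nat_lit 47488205, nat_lit 19511795, nat_lit 0, nat_lit 3016205, true, true⟩,
 nat_lit 2913, nat_lit 0, nat_lit 0, nat_lit 0, nat_lit 2537, nat_lit 1248, nat_lit 0, nat_lit 0, nat_lit 0, nat_lit 80, nat_lit 0, nat_lit 0, nat_lit 0, nat_lit 0, nat_lit 0, nat_lit 220750, nat_lit 0, nat_lit 0, [(nat_lit 24, [(nat_lit 0, nat_lit 309), (nat_lit 4, nat_lit 574)])],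
 ⟨p024_k25, nat_lit 0, nat_lit 0, nat_lit 261, nat_lit 0, nat_lit 386515, [nat_lit 762528401, nat_lit 560098000, nat_lit 467733800], [], [nat_lit 23864271941, nat_lit 24733357688, nat_lit 27089080547, nat_lit 27948954371], nat_lit 1271250, nat_lit 1271250, nat_lit 1271250, nat_lit 1271250, nat_lit 0, nat_lit 0, [nat_lit 230000, nat_lit 780000, nat_lit 1100000], [nat_lit 35, nat_lit 40, nat_lit 80, nat_lit 80, nat_lit 22, nat_lit 203, nat_lit 0, nat_lit 8]⟩, ⟨p024_k33, nat_lit 0, nat_lit 0, nat_lit 698, nat_lit 0, nat_lit 925891, [nat_lit 731250000, nat_lit 1151514000, nat_lit 1389024000], [], [nat_lit 4801234136, nat_lit 4787137742, nat_lit 4970014858, nat_lit 4953972083], nat_lit 1271250, nat_lit 1271250, nat_lit 1271250, nat_lit 1271250, nat_lit 0, nat_lit 0, [nat_lit 1412500, nat_lit 1271250, nat_lit 1271250], [nat_lit 46, nat_lit 40, nat_lit 80, nat_lit 80, nat_lit 41, nat_lit 373, nat_lit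 150, nat_lit 9]⟩,
 ⟨nat_lit 2236, nat_lit 3163, ⟨.ofNat (nat_lit 560952), .ofNat (nat_lit 707240), .ofNat (nat_lit 583107), .ofNat (nat_lit 729395), .ofNat (nat_lit 557014), .ofNat (nat_lit 693851), .ofNat (nat_lit 579788), .ofNat (nat_lit 716626)⟩, ⟨.ofNat (nat_lit 0), .ofNat (nat_lit 0), .ofNat (nat_lit 0), .ofNat (nat_lit 0), .ofNat (nat_lit 0), .ofNat (nat_lit 0), .ofNat (nat_lit 0), .ofNat (nat_lit 0)⟩⟩, [⟨nat_lit 13, nat_lit 53, nat_lit 82, nat_lit 100, nat_lit 223287025⟩, ⟨nat_lit 13, nat_lit 44, nat_lit 90, nat_lit 100, nat_lit 78172739⟩]⟩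
noncomputable def p024_l161 : Lf2 := ⟨nat_lit 0, nat_lit 10, [nat_lit 0, nat_lit 5, nat_lit 5, nat_lit 20], false, nat_lit 0, nat_lit 0, nat_lit 0, nat_lit 0, ⟨nat_lit 200, nat_lit 800, nat_lit 0, nat_lit 6, nat_lit 271, nat_lit 0, nat_lit 0, nat_lit 0, nat_lit 0, nat_lit 0, nat_lit 0, nat_lit 0, nat_lit 45924051, nat_lit 21075949, nat_lit 0, nat_lit 3113527, true, true⟩,
 nat_lit 3529, nat_lit 0, nat_lit 0, nat_lit 0, nat_lit 3073, nat_lit 1687, nat_lit 0, nat_lit 0, nat_lit 0, nat_lit 160, nat_lit 0, nat_lit 0, nat_lit 0, nat_lit 0, nat_lit 0, nat_lit 374600, nat_lit 0, nat_lit 0, [(nat_lit 24, [(nat_lit 1, nat_lit 709), (nat_lit 2, nat_lit 91)])],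
 ⟨p024_k25, nat_lit 0, nat_lit 0, nat_lit 253, nat_lit 0, nat_lit 353595, [nat_lit 922420000, nat_lit 1320484534, nat_lit 1423970400], [], [nat_lit 25559081516, nat_lit 26042931749, nat_lit 29273015372, nat_lit 29669355743], nat_lit 1271250, nat_lit 1271250, nat_lit 1271250, nat_lit 1271250, nat_lit 0, nat_lit 0, [nat_lit 230000, nat_lit 780000, nat_lit 1100000], [nat_lit 35, nat_lit 40, nat_lit 80, nat_lit 80, nat_lit 22, nat_lit 203, nat_lit 0, nat_lit 8]⟩, ⟨p024_k35, nat_lit 0, nat_lit 0, nat_lit 595, nat_lit 0, nat_lit 735029, [nat_lit 1250000000, nat_lit 1968400000, nat_lit 2374400000], [], [nat_lit 8020260524, nat_lit 8034249616, nat_lit 8566793966, nat_lit 8573651691], nat_lit 1271250, nat_lit 1271250, nat_lit 1271250, nat_lit 1271250, nat_lit 0, nat_lit 0, [nat_lit 1412500, nat_lit 1271250, nat_lit 1271250], [nat_lit 46, nat_lit 40, nat_lit 80, nat_lit 80, nat_lit 41, nat_lit 373,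 nat_lit 150, nat_lit 9]⟩,
 ⟨nat_lit 2738, nat_lit 3163, ⟨.ofNat (nat_lit 583107), .ofNat (nat_lit 753776), .ofNat (nat_lit 605257), .ofNat (nat_lit 775931), .ofNat (nat_lit 581477), .ofNat (nat_lit 746849), .ofNat (nat_lit 603890), .ofNat (nat_lit 769266)⟩, ⟨.ofNat (nat_lit 0), .ofNat (nat_lit 0), .ofNat (nat_lit 0), .ofNat (nat_lit 0), .ofNat (nat_lit 0), .ofNat (nat_lit 0), .ofNat (nat_lit 0), .ofNat (nat_lit 0)⟩⟩, [⟨nat_lit 13, nat_lit 57, nat_lit 74, nat_lit 100, nat_lit 133390969⟩]⟩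
noncomputable def p024_l162 : Lf2 := ⟨nat_lit 0, nat_lit 10, [nat_lit 0, nat_lit 5, nat_lit 5, nat_lit 20], false, nat_lit 0, nat_lit 0, nat_lit 0, nat_lit 0, ⟨nat_lit 151, nat_lit 849, nat_lit 0, nat_lit 6, nat_lit 266, nat_lit 0, nat_lit 0, nat_lit 0, nat_lit 0, nat_lit 0, nat_lit 0, nat_lit 0, nat_lit 46478383, nat_lit 20521617, nat_lit 0, nat_lit 3080510, true, true⟩,
 nat_lit 3121, nat_lit 0, nat_lit 0, nat_lit 0, nat_lit 2816, nat_lit 1492, nat_lit 196, nat_lit 0, nat_lit 0, nat_lit 130, nat_lit 0, nat_lit 0, nat_lit 0, nat_lit 0, nat_lit 0, nat_lit 212250, nat_lit 0, nat_lit 0, [(nat_lit 24, [(nat_lit 0, nat_lit 849)])],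
 ⟨p024_k27, nat_lit 0, nat_lit 0, nat_lit 262, nat_lit 0, nat_lit 389607, [nat_lit 789594801, nat_lit 1656334800, nat_lit 2155942400], [], [nat_lit 25412542953, nat_lit 25879965489, nat_lit 28534758425, nat_lit 28925999185], nat_lit 1271250, nat_lit 1271250, nat_lit 1271250, nat_lit 1271250, nat_lit 0, nat_lit 0, [nat_lit 230000, nat_lit 780000, nat_lit 1100000], [nat_lit 35, nat_lit 40, nat_lit 80, nat_lit 80, nat_lit 22, nat_lit 203, nat_lit 0, nat_lit 8]⟩, ⟨p024_k35, nat_lit 0, nat_lit 0, nat_lit 658, nat_lit 0, nat_lit 844004, [nat_lit 943750000, nat_lit 1486142000, nat_lit 1792672000], [], [nat_lit 5702553174, nat_lit 5706466340, nat_lit 5963262023, nat_lit 5952111770], nat_lit 1271250, nat_lit 1271250, nat_lit 1271250, nat_lit 1271250, nat_lit 0, nat_lit 0, [nat_lit 1412500, nat_lit 1271250, nat_lit 1271250], [nat_lit 46, nat_lit 40, nat_lit 80, nat_lit 80, nat_lit 41, nat_lit 373,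 nat_lit 150, nat_lit 9]⟩,
 ⟨nat_lit 2236, nat_lit 2739, ⟨.ofNat (nat_lit 581477), .ofNat (nat_lit 729131), .ofNat (nat_lit 603890), .ofNat (nat_lit 751548), .ofNat (nat_lit 579788), .ofNat (nat_lit 722327), .ofNat (nat_lit 602558), .ofNat (nat_lit 745101)⟩, ⟨.ofNat (nat_lit 0), .ofNat (nat_lit 0), .ofNat (nat_lit 0), .ofNat (nat_lit 0), .ofNat (nat_lit 0), .ofNat (nat_lit 0), .ofNat (nat_lit 0), .ofNat (nat_lit 0)⟩⟩, [⟨nat_lit 13, nat_lit 49, nat_lit 80, nat_lit 100, nat_lit 169760738⟩]⟩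
noncomputable def p024_l163 : Lf2 := ⟨nat_lit 0, nat_lit 10, [nat_lit 0, nat_lit 5, nat_lit 5, nat_lit 20], false, nat_lit 0, nat_lit 0, nat_lit 0, nat_lit 0, ⟨nat_lit 107, nat_lit 893, nat_lit 0, nat_lit 6, nat_lit 253, nat_lit 0, nat_lit 0, nat_lit 0, nat_lit 0, nat_lit 0, nat_lit 0, nat_lit 0, nat_lit 47809117, nat_lit 19190883, nat_lit 0, nat_lit 2994624, true, true⟩,
 nat_lit 2722, nat_lit 0, nat_lit 0, nat_lit 0, nat_lit 2543, nat_lit 1166, nat_lit 0, nat_lit 0, nat_lit 0, nat_lit 67, nat_lit 0, nat_lit 0, nat_lit 0, nat_lit 0, nat_lit 0, nat_lit 345650, nat_lit 0, nat_lit 0, [(nat_lit 27, [(nat_lit 0, nat_lit 77), (nat_lit 1, nat_lit 816)])],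
 ⟨p024_k30, nat_lit 0, nat_lit 0, nat_lit 253, nat_lit 0, nat_lit 472933, [nat_lit 729729201, nat_lit 696180000], [], [nat_lit 24704793017, nat_lit 25778109161, nat_lit 27647969694, nat_lit 28588279063], nat_lit 1271250, nat_lit 1271250, nat_lit 1271250, nat_lit 1271250, nat_lit 0, nat_lit 0, [nat_lit 230000, nat_lit 780000], [nat_lit 66, nat_lit 40, nat_lit 80, nat_lit 80, nat_lit 67, nat_lit 203, nat_lit 0, nat_lit 10]⟩, ⟨p024_k33, nat_lit 0, nat_lit 0, nat_lit 840, nat_lit 0, nat_lit 1229163, [nat_lit 668750000, nat_lit 1053094000, nat_lit 1270304000], [], [nat_lit 4406037032, nat_lit 4367032728, nat_lit 4526051358, nat_lit 4496991176], nat_lit 1271250, nat_lit 1271250, nat_lit 1271250, nat_lit 1271250, nat_lit 0, nat_lit 0, [nat_lit 1412500, nat_lit 1271250, nat_lit 1271250], [nat_lit 46, nat_lit 40, nat_lit 80, nat_lit 80, nat_lit 41, nat_lit 373, nat_lit 150, nat_lit 9]⟩,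
 ⟨nat_lit 0, nat_lit 2237, ⟨.ofNat (nat_lit 557013), .ofNat (nat_lit 676741), .ofNat (nat_lit 602531), .ofNat (nat_lit 722292), .ofNat (nat_lit 549998), .ofNat (nat_lit 654993), .ofNat (nat_lit 599967), .ofNat (nat_lit 704996)⟩, ⟨.ofNat (nat_lit 0), .ofNat (nat_lit 0), .ofNat (nat_lit 0), .ofNat (nat_lit 0), .ofNat (nat_lit 0), .ofNat (nat_lit 0), .ofNat (nat_lit 0), .ofNat (nat_lit 0)⟩⟩, [⟨nat_lit 13, nat_lit 31, nat_lit 92, nat_lit 100, nat_lit 401769365⟩]⟩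
noncomputable def p024_l164 : Lf2 := ⟨nat_lit 0, nat_lit 10, [nat_lit 0, nat_lit 5, nat_lit 5, nat_lit 20], true, nat_lit 0, nat_lit 0, nat_lit 0, nat_lit 0, ⟨nat_lit 0, nat_lit 1000, nat_lit 0, nat_lit 5, nat_lit 217, nat_lit 0, nat_lit 0, nat_lit 0, nat_lit 0, nat_lit 0, nat_lit 0, nat_lit 0, nat_lit 0, nat_lit 0, nat_lit 0, nat_lit 5000000, false, true⟩,
 nat_lit 0, nat_lit 3495, nat_lit 0, nat_lit 0, nat_lit 3043, nat_lit 0, nat_lit 0, nat_lit 0, nat_lit 0, nat_lit 0, nat_lit 0, nat_lit 0, nat_lit 0, nat_lit 0, nat_lit 0, nat_lit 362350, nat_lit 0, nat_lit 0, [(nat_lit 24, [(nat_lit 0, nat_lit 251), (nat_lit 1, nat_lit 749)]), (nat_lit 27, [(nat_lit 0, nat_lit 251), (nat_lit 1, nat_lit 749)])],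
 ⟨p024_k25, nat_lit 0, nat_lit 0, nat_lit 434, nat_lit 0, nat_lit 821757, [nat_lit 831132800, nat_lit 1090169867, nat_lit 1142951200], [], [nat_lit 24782781261, nat_lit 26566644241, nat_lit 30135168552, nat_lit 31469469043], nat_lit 1271250, nat_lit 1271250, nat_lit 490000, nat_lit 2615000, nat_lit 0, nat_lit 0, [nat_lit 230000, nat_lit 780000, nat_lit 1100000], [nat_lit 35, nat_lit 40, nat_lit 80, nat_lit 80, nat_lit 22, nat_lit 317, nat_lit 100, nat_lit 15]⟩, C1.Rw.none,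
 ⟨nat_lit 0, nat_lit 3163, ⟨.ofNat (nat_lit 309443), .ofNat (nat_lit 731616), .ofNat (nat_lit 351143), .ofNat (nat_lit 775928), .ofNat (nat_lit 342303), .ofNat (nat_lit 689994), .ofNat (nat_lit 389693), .ofNat (nat_lit 739996)⟩, ⟨.ofNat (nat_lit 0), .ofNat (nat_lit 0), .ofNat (nat_lit 0), .ofNat (nat_lit 0), .ofNat (nat_lit 0), .ofNat (nat_lit 0), .ofNat (nat_lit 0), .ofNat (nat_lit 0)⟩⟩, [⟨nat_lit 13, nat_lit 44, nat_lit 86, nat_lit 100, nat_lit 341758602⟩]⟩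
noncomputable def p024_l165 : Lf2 := ⟨nat_lit 0, nat_lit 10, [nat_lit 0, nat_lit 5, nat_lit 5, nat_lit 20], false, nat_lit 0, nat_lit 0, nat_lit 0, nat_lit 0, ⟨nat_lit 1000, nat_lit 0, nat_lit 0, nat_lit 0, nat_lit 0, nat_lit 0, nat_lit 0, nat_lit 0, nat_lit 0, nat_lit 0, nat_lit 0, nat_lit 0, nat_lit 0, nat_lit 0, nat_lit 0, nat_lit 0, false, false⟩,
 nat_lit 0, nat_lit 0, nat_lit 0, nat_lit 0, nat_lit 39, nat_lit 9859, nat_lit 0, nat_lit 0, nat_lit 0, nat_lit 0, nat_lit 0, nat_lit 0, nat_lit 0, nat_lit 0, nat_lit 0, nat_lit 0, nat_lit 0, nat_lit 0, [],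
 ⟨p024_k25, nat_lit 0, nat_lit 0, nat_lit 169, nat_lit 0, nat_lit 0, [nat_lit 938000000, nat_lit 3282000000, nat_lit 4688000000], [], [nat_lit 30675296396, nat_lit 32193797188, nat_lit 37596241044, nat_lit 38767533548], nat_lit 0, nat_lit 0, nat_lit 0, nat_lit 0, nat_lit 0, nat_lit 0, [], [nat_lit 35, nat_lit 40, nat_lit 80, nat_lit 80, nat_lit 22, nat_lit 317, nat_lit 100, nat_lit 15]⟩, ⟨p024_k33, nat_lit 0, nat_lit 0, nat_lit 246, nat_lit 0, nat_lit 0, [nat_lit 6250000000, nat_lit 9842000000, nat_lit 11872000000], [], [nat_lit 30574672000, nat_lit 33338539916, nat_lit 43014680736, nat_lit 43974408765], nat_lit 0, nat_lit 0, nat_lit 0, nat_lit 0, nat_lit 0, nat_lit 0, [], [nat_lit 46, nat_lit 40, nat_lit 80, nat_lit 80, nat_lit 41, nat_lit 373, nat_lit 150, nat_lit 10]⟩,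
 zbF0, []⟩
noncomputable def p024_l166 : Lf2 := ⟨nat_lit 0, nat_lit 10, [nat_lit 0, nat_lit 5, nat_lit 5, nat_lit 20], true, nat_lit 0, nat_lit 0, nat_lit 0, nat_lit 0, ⟨nat_lit 0, nat_lit 379, nat_lit 621, nat_lit 5, nat_lit 185, nat_lit 0, nat_lit 0, nat_lit 0, nat_lit 0, nat_lit 215, nat_lit 417, nat_lit 210, nat_lit 55148891, nat_lit 11851109, nat_lit 0, nat_lit 2333162, false, false⟩,
 nat_lit 0, nat_lit 0, nat_lit 0, nat_lit 335, nat_lit 2283, nat_lit 0, nat_lit 0, nat_lit 0, nat_lit 0, nat_lit 0, nat_lit 0, nat_lit 0, nat_lit 0, nat_lit 0, nat_lit 1, nat_lit 250000, nat_lit 0, nat_lit 0, [(nat_lit 24, [(nat_lit 0, nat_lit 379), (nat_lit 4, nat_lit 621)]), (nat_lit 27, [(nat_lit 0, nat_lit 379), (nat_lit 4, nat_lit 621)])],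
 ⟨p024_k24, nat_lit 0, nat_lit 0, nat_lit 166, nat_lit 0, nat_lit 0, [nat_lit 772876801, nat_lit 9399840], [], [nat_lit 18896187402, nat_lit 21905553516, nat_lit 22240007040, nat_lit 24531461136], nat_lit 0, nat_lit 0, nat_lit 0, nat_lit 0, nat_lit 0, nat_lit 0, [], [nat_lit 86, nat_lit 40, nat_lit 80, nat_lit 80, nat_lit 87, nat_lit 272, nat_lit 60, nat_lit 12]⟩, C1.Rw.none,
 ⟨nat_lit 0, nat_lit 3163, ⟨.ofNat (nat_lit 309443), .ofNat (nat_lit 560951), .ofNat (nat_lit 351143), .ofNat (nat_lit 605128), .ofNat (nat_lit 342303), .ofNat (nat_lit 549998), .ofNat (nat_lit 389693), .ofNat (nat_lit 599865)⟩, ⟨.ofNat (nat_lit 0), .ofNat (nat_lit 0), .ofNat (nat_lit 0), .ofNat (nat_lit 0), .ofNat (nat_lit 0), .ofNat (nat_lit 0), .ofNat (nat_lit 0), .ofNat (nat_lit 0)⟩⟩, []⟩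
noncomputable def p024_l167 : Lf2 := ⟨nat_lit 0, nat_lit 10, [nat_lit 0, nat_lit 5, nat_lit 5, nat_lit 20], true, nat_lit 0, nat_lit 0, nat_lit 0, nat_lit 0, ⟨nat_lit 0, nat_lit 972, nat_lit 28, nat_lit 6, nat_lit 254, nat_lit 0, nat_lit 0, nat_lit 0, nat_lit 0, nat_lit 215, nat_lit 183082, nat_lit 200, nat_lit 47769005, nat_lit 19230995, nat_lit 0, nat_lit 2997352, true, true⟩,
 nat_lit 0, nat_lit 0, nat_lit 0, nat_lit 2906, nat_lit 2979, nat_lit 0, nat_lit 0, nat_lit 0, nat_lit 0, nat_lit 0, nat_lit 0, nat_lit 0, nat_lit 0, nat_lit 0, nat_lit 0, nat_lit 247620, nat_lit 0, nat_lit 0, [(nat_lit 24, [(nat_lit 0, nat_lit 972), (nat_lit 3, nat_lit 28)]), (nat_lit 27, [(nat_lit 0, nat_lit 972), (nat_lit 3, nat_lit 28)])],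
 ⟨p024_k25, nat_lit 0, nat_lit 0, nat_lit 155, nat_lit 0, nat_lit 0, [nat_lit 882944001, nat_lit 1323038400, nat_lit 1640371200], [], [nat_lit 24572600677, nat_lit 26925602300, nat_lit 27564443284, nat_lit 29611418144], nat_lit 0, nat_lit 0, nat_lit 0, nat_lit 0, nat_lit 0, nat_lit 0, [], [nat_lit 35, nat_lit 40, nat_lit 80, nat_lit 80, nat_lit 22, nat_lit 203, nat_lit 0, nat_lit 8]⟩, C1.Rw.none,
 ⟨nat_lit 0, nat_lit 3163, ⟨.ofNat (nat_lit 560951), .ofNat (nat_lit 682855), .ofNat (nat_lit 605128), .ofNat (nat_lit 727166), .ofNat (nat_lit 549998), .ofNat (nat_lit 649995), .ofNat (nat_lit 599865), .ofNat (nat_lit 699997)⟩, ⟨.ofNat (nat_lit 0), .ofNat (nat_lit 0), .ofNat (nat_lit 0), .ofNat (nat_lit 0), .ofNat (nat_lit 0), .ofNat (nat_lit 0), .ofNat (nat_lit 0), .ofNat (nat_lit 0)⟩⟩, [⟨nat_lit 13, nat_lit 44, nat_lit 86, nat_lit 100, nat_lit 265756181⟩]⟩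
noncomputable def p024_l168 : Lf2 := ⟨nat_lit 0, nat_lit 10, [nat_lit 0, nat_lit 5, nat_lit 5, nat_lit 20], true, nat_lit 0, nat_lit 0, nat_lit 0, nat_lit 0, ⟨nat_lit 0, nat_lit 1000, nat_lit 0, nat_lit 8, nat_lit 285, nat_lit 0, nat_lit 0, nat_lit 0, nat_lit 0, nat_lit 0, nat_lit 0, nat_lit 0, nat_lit 44452719, nat_lit 22547281, nat_lit 0, nat_lit 3193522, true, true⟩,
 nat_lit 0, nat_lit 0, nat_lit 0, nat_lit 2925, nat_lit 2903, nat_lit 0, nat_lit 0, nat_lit 0, nat_lit 0, nat_lit 0, nat_lit 0, nat_lit 0, nat_lit 0, nat_lit 0, nat_lit 0, nat_lit 250000, nat_lit 0, nat_lit 0, [(nat_lit 24, [(nat_lit 0, nat_lit 1000)]), (nat_lit 27, [(nat_lit 0, nat_lit 1000)])],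
 ⟨p024_k25, nat_lit 0, nat_lit 0, nat_lit 166, nat_lit 0, nat_lit 0, [nat_lit 780800001, nat_lit 1367200000, nat_lit 1705600000], [], [nat_lit 27719281988, nat_lit 29745407008, nat_lit 29155227347, nat_lit 31043642220], nat_lit 0, nat_lit 0, nat_lit 0, nat_lit 0, nat_lit 0, nat_lit 0, [], [nat_lit 35, nat_lit 40, nat_lit 80, nat_lit 80, nat_lit 22, nat_lit 203, nat_lit 0, nat_lit 7]⟩, C1.Rw.none,
 ⟨nat_lit 0, nat_lit 3163, ⟨.ofNat (nat_lit 682855), .ofNat (nat_lit 731616), .ofNat (nat_lit 727166), .ofNat (nat_lit 775928), .ofNat (nat_lit 649995), .ofNat (nat_lit 689994), .ofNat (nat_lit 699997), .ofNat (nat_lit 739996)⟩, ⟨.ofNat (nat_lit 0), .ofNat (nat_lit 0), .ofNat (nat_lit 0), .ofNat (nat_lit 0), .ofNat (nat_lit 0), .ofNat (nat_lit 0), .ofNat (nat_lit 0), .ofNat (nat_lit 0)⟩⟩, [⟨nat_lit 13, nat_lit 44, nat_lit 86, nat_lit 100, nat_lit 77235130⟩, ⟨nat_lit 13, nat_lit 61, nat_lit 68, nat_lit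 100, nat_lit 286827123⟩]⟩
noncomputable def p024_l169 : Lf2 := ⟨nat_lit 0, nat_lit 10, [nat_lit 0, nat_lit 5, nat_lit 5, nat_lit 20], true, nat_lit 0, nat_lit 0, nat_lit 0, nat_lit 0, ⟨nat_lit 0, nat_lit 1000, nat_lit 0, nat_lit 5, nat_lit 217, nat_lit 0, nat_lit 0, nat_lit 0, nat_lit 0, nat_lit 0, nat_lit 0, nat_lit 0, nat_lit 0, nat_lit 0, nat_lit 0, nat_lit 5000000, false, true⟩,
 nat_lit 0, nat_lit 0, nat_lit 0, nat_lit 3287, nat_lit 2903, nat_lit 0, nat_lit 0, nat_lit 0, nat_lit 0, nat_lit 0, nat_lit 0, nat_lit 0, nat_lit 0, nat_lit 0, nat_lit 0, nat_lit 250000, nat_lit 0, nat_lit 0, [(nat_lit 24, [(nat_lit 0, nat_lit 1000)]), (nat_lit 27, [(nat_lit 0, nat_lit 1000)])],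
 ⟨p024_k25, nat_lit 0, nat_lit 0, nat_lit 169, nat_lit 0, nat_lit 0, [nat_lit 780800001, nat_lit 1367200000, nat_lit 1705600000], [], [nat_lit 21554989700, nat_lit 24533526540, nat_lit 29155227347, nat_lit 31043642220], nat_lit 0, nat_lit 0, nat_lit 0, nat_lit 0, nat_lit 0, nat_lit 0, [], [nat_lit 35, nat_lit 40, nat_lit 80, nat_lit 80, nat_lit 22, nat_lit 317, nat_lit 100, nat_lit 15]⟩, C1.Rw.none,
 ⟨nat_lit 0, nat_lit 3163, ⟨.ofNat (nat_lit 309443), .ofNat (nat_lit 731616), .ofNat (nat_lit 351143), .ofNat (nat_lit 775928), .ofNat (nat_lit 342303), .ofNat (nat_lit 689994), .ofNat (nat_lit 389693), .ofNat (nat_lit 739996)⟩, ⟨.ofNat (nat_lit 0), .ofNat (nat_lit 0), .ofNat (nat_lit 0), .ofNat (nat_lit 0), .ofNat (nat_lit 0), .ofNat (nat_lit 0), .ofNat (nat_lit 0), .ofNat (nat_lit 0)⟩⟩, [⟨nat_lit 13, nat_lit 61, nat_lit 68, nat_lit 100, nat_lit 294945263⟩]⟩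
noncomputable def p024_l170 : Lf2 := ⟨nat_lit 0, nat_lit 10, [nat_lit 0, nat_lit 5, nat_lit 5, nat_lit 20], false, nat_lit 0, nat_lit 0, nat_lit 0, nat_lit 0, ⟨nat_lit 1000, nat_lit 0, nat_lit 0, nat_lit 0, nat_lit 0, nat_lit 0, nat_lit 0, nat_lit 0, nat_lit 0, nat_lit 0, nat_lit 0, nat_lit 0, nat_lit 0, nat_lit 0, nat_lit 0, nat_lit 0, false, false⟩,
 nat_lit 0, nat_lit 5097, nat_lit 0, nat_lit 0, nat_lit 4439, nat_lit 9859, nat_lit 345, nat_lit 0, nat_lit 0, nat_lit 0, nat_lit 0, nat_lit 0, nat_lit 0, nat_lit 0, nat_lit 0, nat_lit 0, nat_lit 0, nat_lit 0, [],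
 ⟨p024_k25, nat_lit 0, nat_lit 0, nat_lit 315, nat_lit 0, nat_lit 483720, [nat_lit 938000000, nat_lit 3282000000, nat_lit 4688000000], [], [nat_lit 26833057004, nat_lit 29490570232, nat_lit 33606185778, nat_lit 35660120997], nat_lit 1271250, nat_lit 1271250, nat_lit 490000, nat_lit 2615000, nat_lit 0, nat_lit 0, [nat_lit 230000, nat_lit 780000, nat_lit 1100000], [nat_lit 35, nat_lit 40, nat_lit 80, nat_lit 80, nat_lit 22, nat_lit 317, nat_lit 100, nat_lit 15]⟩, ⟨p024_k33, nat_lit 0, nat_lit 0, nat_lit 246, nat_lit 0, nat_lit 0, [nat_lit 6250000000, nat_lit 9842000000, nat_lit 11872000000], [], [nat_lit 30574672000, nat_lit 33338539916, nat_lit 43014680736, nat_lit 43974408765], nat_lit 0, nat_lit 0, nat_lit 0, nat_lit 0, nat_lit 0, nat_lit 0, [], [nat_lit 46, nat_lit 40, nat_lit 80, nat_lit 80, nat_lit 41, nat_lit 373, nat_lit 150, nat_lit 10]⟩,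
 zbF0, [⟨nat_lit 0, nat_lit 100, nat_lit 44, nat_lit 94, nat_lit 347082544⟩]⟩
noncomputable def p024_l171 : Lf2 := ⟨nat_lit 0, nat_lit 10, [nat_lit 0, nat_lit 5, nat_lit 5, nat_lit 20], false, nat_lit 0, nat_lit 0, nat_lit 0, nat_lit 0, ⟨nat_lit 85, nat_lit 283, nat_lit 632, nat_lit 5, nat_lit 185, nat_lit 0, nat_lit 0, nat_lit 0, nat_lit 0, nat_lit 215, nat_lit 417, nat_lit 210, nat_lit 55148891, nat_lit 11851109, nat_lit 0, nat_lit 2333162, false, false⟩,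
 nat_lit 2871, nat_lit 0, nat_lit 0, nat_lit 0, nat_lit 2500, nat_lit 1230, nat_lit 0, nat_lit 0, nat_lit 0, nat_lit 0, nat_lit 0, nat_lit 0, nat_lit 0, nat_lit 0, nat_lit 0, nat_lit 228750, nat_lit 0, nat_lit 0, [(nat_lit 24, [(nat_lit 0, nat_lit 283), (nat_lit 4, nat_lit 632)]), (nat_lit 27, [(nat_lit 0, nat_lit 283), (nat_lit 4, nat_lit 632)])],
 ⟨p024_k25, nat_lit 0, nat_lit 0, nat_lit 259, nat_lit 0, nat_lit 312744, [nat_lit 782027601, nat_lit 394633201, nat_lit 213849799], [], [nat_lit 20007799602, nat_lit 22575574000, nat_lit 23106821602, nat_lit 25183830808], nat_lit 1271250, nat_lit 1271250, nat_lit 490000, nat_lit 1740000, nat_lit 0, nat_lit 0, [nat_lit 230000, nat_lit 780000, nat_lit 1100000], [nat_lit 35, nat_lit 40, nat_lit 80, nat_lit 80, nat_lit 22, nat_lit 272, nat_lit 60, nat_lit 12]⟩, ⟨p024_k33, nat_lit 0, nat_lit 0, nat_lit 700, nat_lit 0, nat_lit 773239, [nat_lit 531250000,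 nat_lit 836570000, nat_lit 1009120000], [], [nat_lit 5957691700, nat_lit 4636824220, nat_lit 3543007800, nat_lit 3519348280], nat_lit 1271250, nat_lit 1271250, nat_lit 490000, nat_lit 1740000, nat_lit 0, nat_lit 0, [nat_lit 1412500, nat_lit 1271250, nat_lit 1271250], [nat_lit 46, nat_lit 40, nat_lit 80, nat_lit 80, nat_lit 41, nat_lit 345, nat_lit 125, nat_lit 9]⟩,
 ⟨nat_lit 0, nat_lit 3163, ⟨.ofNat (nat_lit 309443), .ofNat (nat_lit 560951), .ofNat (nat_lit 351143), .ofNat (nat_lit 605128), .ofNat (nat_lit 342303), .ofNat (nat_lit 549998), .ofNat (nat_lit 389693), .ofNat (nat_lit 599865)⟩, ⟨.ofNat (nat_lit 0), .ofNat (nat_lit 0), .ofNat (nat_lit 0), .ofNat (nat_lit 0), .ofNat (nat_lit 0), .ofNat (nat_lit 0), .ofNat (nat_lit 0), .ofNat (nat_lit 0)⟩⟩, []⟩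
noncomputable def p024_l172 : Lf2 := ⟨nat_lit 0, nat_lit 10, [nat_lit 0, nat_lit 5, nat_lit 5, nat_lit 20], false, nat_lit 0, nat_lit 0, nat_lit 0, nat_lit 0, ⟨nat_lit 132, nat_lit 845, nat_lit 23, nat_lit 6, nat_lit 266, nat_lit 0, nat_lit 0, nat_lit 0, nat_lit 0, nat_lit 215, nat_lit 280612, nat_lit 200, nat_lit 46497972, nat_lit 20502028, nat_lit 0, nat_lit 3079314, true, true⟩,
 nat_lit 3749, nat_lit 0, nat_lit 0, nat_lit 0, nat_lit 3265, nat_lit 1606, nat_lit 0, nat_lit 0, nat_lit 0, nat_lit 0, nat_lit 0, nat_lit 0, nat_lit 0, nat_lit 0, nat_lit 0, nat_lit 217000, nat_lit 0, nat_lit 0, [(nat_lit 24, [(nat_lit 0, nat_lit 845), (nat_lit 4, nat_lit 23)])],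
 ⟨p024_k25, nat_lit 0, nat_lit 0, nat_lit 206, nat_lit 0, nat_lit 197695, [nat_lit 785427201, nat_lit 1578636401, nat_lit 2034830800], [], [nat_lit 25761001303, nat_lit 26835367991, nat_lit 29929769126, nat_lit 30840207057], nat_lit 1271250, nat_lit 1271250, nat_lit 1271250, nat_lit 1271250, nat_lit 0, nat_lit 0, [nat_lit 230000, nat_lit 780000, nat_lit 1100000], [nat_lit 35, nat_lit 40, nat_lit 80, nat_lit 80, nat_lit 22, nat_lit 203, nat_lit 0, nat_lit 8]⟩, ⟨p024_k33, nat_lit 0, nat_lit 0, nat_lit 493, nat_lit 0, nat_lit 488788, [nat_lit 825000000, nat_lit 1299144000, nat_lit 1567104000], [], [nat_lit 6062414600, nat_lit 6047662896, nat_lit 6395705818, nat_lit 6336253000], nat_lit 1271250, nat_lit 1271250, nat_lit 1271250, nat_lit 1271250, nat_lit 0, nat_lit 0, [nat_lit 1412500, nat_lit 1271250, nat_lit 1271250], [nat_lit 46, nat_lit 40, nat_lit 80, nat_lit 80, nat_lit 41, nat_lit 373,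 nat_lit 150, nat_lit 9]⟩,
 ⟨nat_lit 2236, nat_lit 3163, ⟨.ofNat (nat_lit 560952), .ofNat (nat_lit 731621), .ofNat (nat_lit 605240), .ofNat (nat_lit 775931), .ofNat (nat_lit 557014), .ofNat (nat_lit 716658), .ofNat (nat_lit 602541), .ofNat (nat_lit 762206)⟩, ⟨.ofNat (nat_lit 0), .ofNat (nat_lit 0), .ofNat (nat_lit 0), .ofNat (nat_lit 0), .ofNat (nat_lit 0), .ofNat (nat_lit 0), .ofNat (nat_lit 0), .ofNat (nat_lit 0)⟩⟩, [⟨nat_lit 13, nat_lit 53, nat_lit 80, nat_lit 100, nat_lit 233530543⟩]⟩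
noncomputable def p024_l173 : Lf2 := ⟨nat_lit 0, nat_lit 10, [nat_lit 0, nat_lit 5, nat_lit 5, nat_lit 20], false, nat_lit 0, nat_lit 0, nat_lit 0, nat_lit 0, ⟨nat_lit 99, nat_lit 901, nat_lit 0, nat_lit 6, nat_lit 253, nat_lit 0, nat_lit 0, nat_lit 0, nat_lit 0, nat_lit 0, nat_lit 0, nat_lit 0, nat_lit 47809117, nat_lit 19190883, nat_lit 0, nat_lit 2994624, true, true⟩,
 nat_lit 2933, nat_lit 0, nat_lit 0, nat_lit 0, nat_lit 2740, nat_lit 1256, nat_lit 0, nat_lit 0, nat_lit 0, nat_lit 0, nat_lit 0, nat_lit 0, nat_lit 0, nat_lit 0, nat_lit 0, nat_lit 225250, nat_lit 0, nat_lit 0, [(nat_lit 27, [(nat_lit 0, nat_lit 901)])],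
 ⟨p024_k30, nat_lit 0, nat_lit 0, nat_lit 200, nat_lit 0, nat_lit 287563, [nat_lit 796362800, nat_lit 1264480800], [], [nat_lit 25369972560, nat_lit 26443791440, nat_lit 28224416212, nat_lit 29144916316], nat_lit 1271250, nat_lit 1271250, nat_lit 1271250, nat_lit 1271250, nat_lit 0, nat_lit 0, [nat_lit 230000, nat_lit 780000], [nat_lit 66, nat_lit 40, nat_lit 80, nat_lit 80, nat_lit 67, nat_lit 203, nat_lit 0, nat_lit 10]⟩, ⟨p024_k33, nat_lit 0, nat_lit 0, nat_lit 616, nat_lit 0, nat_lit 773239, [nat_lit 618750000, nat_lit 974358000, nat_lit 1175328000], [], [nat_lit 4451923024, nat_lit 4437135384, nat_lit 4602042316, nat_lit 4557789967], nat_lit 1271250, nat_lit 1271250, nat_lit 1271250, nat_lit 1271250, nat_lit 0, nat_lit 0, [nat_lit 1412500, nat_lit 1271250, nat_lit 1271250], [nat_lit 46, nat_lit 40, nat_lit 80, nat_lit 80, nat_lit 41, nat_lit 373, nat_lit 150, nat_lit 9]⟩,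
 ⟨nat_lit 0, nat_lit 2237, ⟨.ofNat (nat_lit 557013), .ofNat (nat_lit 676741), .ofNat (nat_lit 602531), .ofNat (nat_lit 722292), .ofNat (nat_lit 549998), .ofNat (nat_lit 654993), .ofNat (nat_lit 599967), .ofNat (nat_lit 704996)⟩, ⟨.ofNat (nat_lit 0), .ofNat (nat_lit 0), .ofNat (nat_lit 0), .ofNat (nat_lit 0), .ofNat (nat_lit 0), .ofNat (nat_lit 0), .ofNat (nat_lit 0), .ofNat (nat_lit 0)⟩⟩, [⟨nat_lit 13, nat_lit 31, nat_lit 92, nat_lit 100, nat_lit 419325516⟩]⟩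
noncomputable def p024_l174 : Lf2 := ⟨nat_lit 0, nat_lit 10, [nat_lit 0, nat_lit 5, nat_lit 5, nat_lit 20], true, nat_lit 0, nat_lit 0, nat_lit 0, nat_lit 0, ⟨nat_lit 0, nat_lit 1000, nat_lit 0, nat_lit 5, nat_lit 217, nat_lit 0, nat_lit 0, nat_lit 0, nat_lit 0, nat_lit 0, nat_lit 0, nat_lit 0, nat_lit 0, nat_lit 0, nat_lit 0, nat_lit 5000000, false, true⟩,
 nat_lit 0, nat_lit 3287, nat_lit 0, nat_lit 0, nat_lit 2862, nat_lit 0, nat_lit 32, nat_lit 0, nat_lit 0, nat_lit 0, nat_lit 0, nat_lit 0, nat_lit 0, nat_lit 0, nat_lit 0, nat_lit 324700, nat_lit 0, nat_lit 0, [(nat_lit 24, [(nat_lit 0, nat_lit 502), (nat_lit 1, nat_lit 498)]), (nat_lit 27, [(nat_lit 0, nat_lit 502), (nat_lit 1, nat_lit 498)])],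
 ⟨p024_k25, nat_lit 0, nat_lit 0, nat_lit 315, nat_lit 0, nat_lit 483720, [nat_lit 814265601, nat_lit 1183006401, nat_lit 1331502400], [], [nat_lit 23624463769, nat_lit 25726838473, nat_lit 29517156822, nat_lit 30925664949], nat_lit 1271250, nat_lit 1271250, nat_lit 490000, nat_lit 2615000, nat_lit 0, nat_lit 0, [nat_lit 230000, nat_lit 780000, nat_lit 1100000], [nat_lit 35, nat_lit 40, nat_lit 80, nat_lit 80, nat_lit 22, nat_lit 317, nat_lit 100, nat_lit 15]⟩, C1.Rw.none,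
 ⟨nat_lit 0, nat_lit 3163, ⟨.ofNat (nat_lit 309443), .ofNat (nat_lit 731616), .ofNat (nat_lit 351143), .ofNat (nat_lit 775928), .ofNat (nat_lit 342303), .ofNat (nat_lit 689994), .ofNat (nat_lit 389693), .ofNat (nat_lit 739996)⟩, ⟨.ofNat (nat_lit 0), .ofNat (nat_lit 0), .ofNat (nat_lit 0), .ofNat (nat_lit 0), .ofNat (nat_lit 0), .ofNat (nat_lit 0), .ofNat (nat_lit 0), .ofNat (nat_lit 0)⟩⟩, [⟨nat_lit 13, nat_lit 44, nat_lit 86, nat_lit 100, nat_lit 354026486⟩]⟩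
noncomputable def p024_l175 : Lf2 := ⟨nat_lit 0, nat_lit 10, [nat_lit 0, nat_lit 5, nat_lit 5, nat_lit 20], false, nat_lit 0, nat_lit 0, nat_lit 0, nat_lit 0, ⟨nat_lit 1000, nat_lit 0, nat_lit 0, nat_lit 0, nat_lit 0, nat_lit 0, nat_lit 0, nat_lit 0, nat_lit 0, nat_lit 0, nat_lit 0, nat_lit 0, nat_lit 0, nat_lit 0, nat_lit 0, nat_lit 0, false, false⟩,
 nat_lit 0, nat_lit 0, nat_lit 0, nat_lit 39424, nat_lit 4952, nat_lit 7472, nat_lit 0, nat_lit 0, nat_lit 0, nat_lit 0, nat_lit 0, nat_lit 0, nat_lit 0, nat_lit 0, nat_lit 0, nat_lit 0, nat_lit 0, nat_lit 0, [],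
 ⟨p024_k25, nat_lit 0, nat_lit 0, nat_lit 169, nat_lit 0, nat_lit 0, [nat_lit 938000000, nat_lit 3282000000, nat_lit 4688000000], [], [nat_lit 26790140800, nat_lit 30785555360, nat_lit 34818022778, nat_lit 37201635053], nat_lit 0, nat_lit 0, nat_lit 0, nat_lit 0, nat_lit 0, nat_lit 0, [], [nat_lit 35, nat_lit 40, nat_lit 80, nat_lit 80, nat_lit 22, nat_lit 317, nat_lit 100, nat_lit 15]⟩, ⟨p024_k33, nat_lit 0, nat_lit 0, nat_lit 246, nat_lit 0, nat_lit 0, [nat_lit 6250000000, nat_lit 9842000000, nat_lit 11872000000], [], [nat_lit 32360148000, nat_lit 34237666112, nat_lit 41094954189, nat_lit 42062356839], nat_lit 0, nat_lit 0, nat_lit 0, nat_lit 0, nat_lit 0, nat_lit 0, [], [nat_lit 46, nat_lit 40, nat_lit 80, nat_lit 80, nat_lit 41, nat_lit 373, nat_lit 150, nat_lit 10]⟩,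
 zbF0, [⟨nat_lit 0, nat_lit 100, nat_lit 44, nat_lit 94, nat_lit 491590961⟩]⟩
noncomputable def p024_l176 : Lf2 := ⟨nat_lit 1, nat_lit 10, [nat_lit 0, nat_lit 5, nat_lit 5, nat_lit 20], false, nat_lit 0, nat_lit 0, nat_lit 0, nat_lit 0, zbN0,
 nat_lit 0, nat_lit 0, nat_lit 0, nat_lit 0, nat_lit 0, nat_lit 0, nat_lit 0, nat_lit 0, nat_lit 0, nat_lit 0, nat_lit 0, nat_lit 0, nat_lit 0, nat_lit 0, nat_lit 0, nat_lit 0, nat_lit 0, nat_lit 0, [],
 C1.Rw.none, C1.Rw.none,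
 zbF0, []⟩
noncomputable def p024_l177 : Lf2 := ⟨nat_lit 0, nat_lit 10, [nat_lit 0, nat_lit 5, nat_lit 5, nat_lit 20], true, nat_lit 0, nat_lit 0, nat_lit 0, nat_lit 0, ⟨nat_lit 0, nat_lit 1000, nat_lit 0, nat_lit 5, nat_lit 218, nat_lit 0, nat_lit 0, nat_lit 0, nat_lit 0, nat_lit 0, nat_lit 0, nat_lit 0, nat_lit 51636141, nat_lit 15363859, nat_lit 0, nat_lit 2692213, false, true⟩,
 nat_lit 0, nat_lit 0, nat_lit 0, nat_lit 2670, nat_lit 2409, nat_lit 0, nat_lit 0, nat_lit 0, nat_lit 0, nat_lit 0, nat_lit 0, nat_lit 0, nat_lit 0, nat_lit 0, nat_lit 0, nat_lit 250000, nat_lit 0, nat_lit 0, [(nat_lit 27, [(nat_lit 0, nat_lit 1000)])],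
 ⟨p024_k30, nat_lit 0, nat_lit 0, nat_lit 133, nat_lit 0, nat_lit 0, [nat_lit 780800001, nat_lit 1042800000], [], [nat_lit 21162970159, nat_lit 22557087743, nat_lit 27192111302, nat_lit 28207668823], nat_lit 0, nat_lit 0, nat_lit 0, nat_lit 0, nat_lit 0, nat_lit 0, [], [nat_lit 66, nat_lit 40, nat_lit 80, nat_lit 80, nat_lit 67, nat_lit 317, nat_lit 100, nat_lit 19]⟩, C1.Rw.none,
 ⟨nat_lit 0, nat_lit 2237, ⟨.ofNat (nat_lit 370513), .ofNat (nat_lit 676741), .ofNat (nat_lit 414208), .ofNat (nat_lit 722292), .ofNat (nat_lit 385947), .ofNat (nat_lit 654993), .ofNat (nat_lit 434094), .ofNat (nat_lit 704996)⟩, ⟨.ofNat (nat_lit 0), .ofNat (nat_lit 0), .ofNat (nat_lit 0), .ofNat (nat_lit 0), .ofNat (nat_lit 0), .ofNat (nat_lit 0), .ofNat (nat_lit 0), .ofNat (nat_lit 0)⟩⟩, [⟨nat_lit 13, nat_lit 31, nat_lit 92, nat_lit 100, nat_lit 231972040⟩]⟩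
noncomputable def p024_l178 : Lf2 := ⟨nat_lit 0, nat_lit 10, [nat_lit 0, nat_lit 5, nat_lit 5, nat_lit 20], true, nat_lit 0, nat_lit 0, nat_lit 0, nat_lit 0, ⟨nat_lit 0, nat_lit 1000, nat_lit 0, nat_lit 5, nat_lit 217, nat_lit 0, nat_lit 0, nat_lit 0, nat_lit 0, nat_lit 0, nat_lit 0, nat_lit 0, nat_lit 0, nat_lit 0, nat_lit 0, nat_lit 5000000, false, true⟩,
 nat_lit 0, nat_lit 0, nat_lit 0, nat_lit 2852, nat_lit 3008, nat_lit 0, nat_lit 0, nat_lit 0, nat_lit 0, nat_lit 0, nat_lit 0, nat_lit 0, nat_lit 0, nat_lit 0, nat_lit 0, nat_lit 250000, nat_lit 0, nat_lit 0, [(nat_lit 24, [(nat_lit 0, nat_lit 1000)]), (nat_lit 27, [(nat_lit 0, nat_lit 1000)])],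
 ⟨p024_k25, nat_lit 0, nat_lit 0, nat_lit 169, nat_lit 0, nat_lit 0, [nat_lit 780800001, nat_lit 1367200000, nat_lit 1705600000], [], [nat_lit 21517599200, nat_lit 24548245440, nat_lit 29139751271, nat_lit 31358558272], nat_lit 0, nat_lit 0, nat_lit 0, nat_lit 0, nat_lit 0, nat_lit 0, [], [nat_lit 35, nat_lit 40, nat_lit 80, nat_lit 80, nat_lit 22, nat_lit 317, nat_lit 100, nat_lit 15]⟩, C1.Rw.none,
 ⟨nat_lit 0, nat_lit 3163, ⟨.ofNat (nat_lit 309443), .ofNat (nat_lit 731616), .ofNat (nat_lit 351143), .ofNat (nat_lit 775928), .ofNat (nat_lit 342303), .ofNat (nat_lit 689994), .ofNat (nat_lit 389693), .ofNat (nat_lit 739996)⟩, ⟨.ofNat (nat_lit 0), .ofNat (nat_lit 0), .ofNat (nat_lit 0), .ofNat (nat_lit 0), .ofNat (nat_lit 0), .ofNat (nat_lit 0), .ofNat (nat_lit 0), .ofNat (nat_lit 0)⟩⟩, [⟨nat_lit 13, nat_lit 61, nat_lit 68, nat_lit 100, nat_lit 304014511⟩]⟩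
noncomputable def p024_l179 : Lf2 := ⟨nat_lit 0, nat_lit 10, [nat_lit 0, nat_lit 5, nat_lit 5, nat_lit 20], false, nat_lit 0, nat_lit 0, nat_lit 0, nat_lit 0, ⟨nat_lit 1000, nat_lit 0, nat_lit 0, nat_lit 0, nat_lit 0, nat_lit 0, nat_lit 0, nat_lit 0, nat_lit 0, nat_lit 0, nat_lit 0, nat_lit 0, nat_lit 0, nat_lit 0, nat_lit 0, nat_lit 0, false, false⟩,
 nat_lit 0, nat_lit 5975, nat_lit 0, nat_lit 25660, nat_lit 5203, nat_lit 9859, nat_lit 0, nat_lit 0, nat_lit 0, nat_lit 0, nat_lit 0, nat_lit 0, nat_lit 0, nat_lit 0, nat_lit 0, nat_lit 0, nat_lit 0, nat_lit 0, [],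
 ⟨p024_k25, nat_lit 0, nat_lit 0, nat_lit 198, nat_lit 0, nat_lit 123184, [nat_lit 938000000, nat_lit 3282000000, nat_lit 4688000000], [], [nat_lit 27257412600, nat_lit 30924326476, nat_lit 34781027587, nat_lit 37953839652], nat_lit 1271250, nat_lit 1271250, nat_lit 490000, nat_lit 2615000, nat_lit 0, nat_lit 0, [nat_lit 230000, nat_lit 780000, nat_lit 1100000], [nat_lit 35, nat_lit 40, nat_lit 80, nat_lit 80, nat_lit 22, nat_lit 317, nat_lit 100, nat_lit 15]⟩, ⟨p024_k33, nat_lit 0, nat_lit 0, nat_lit 246, nat_lit 0, nat_lit 0, [nat_lit 6250000000, nat_lit 9842000000, nat_lit 11872000000], [], [nat_lit 30574672000, nat_lit 33338539916, nat_lit 43014680736, nat_lit 43974408765], nat_lit 0, nat_lit 0, nat_lit 0, nat_lit 0, nat_lit 0, nat_lit 0, [], [nat_lit 46, nat_lit 40, nat_lit 80, nat_lit 80, nat_lit 41, nat_lit 373, nat_lit 150, nat_lit 10]⟩,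
 zbF0, [⟨nat_lit 0, nat_lit 100, nat_lit 44, nat_lit 94, nat_lit 329623722⟩]⟩
noncomputable def p024_l180 : Lf2 := ⟨nat_lit 0, nat_lit 10, [nat_lit 0, nat_lit 5, nat_lit 5, nat_lit 20], false, nat_lit 0, nat_lit 0, nat_lit 0, nat_lit 0, ⟨nat_lit 301, nat_lit 0, nat_lit 699, nat_lit 5, nat_lit 217, nat_lit 0, nat_lit 0, nat_lit 0, nat_lit 0, nat_lit 215, nat_lit 280606, nat_lit 200, nat_lit 51818791, nat_lit 0, nat_lit 0, nat_lit 2675584, false, true⟩,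
 nat_lit 5077, nat_lit 0, nat_lit 0, nat_lit 0, nat_lit 2405, nat_lit 2175, nat_lit 0, nat_lit 0, nat_lit 0, nat_lit 0, nat_lit 0, nat_lit 0, nat_lit 0, nat_lit 0, nat_lit 0, nat_lit 174750, nat_lit 0, nat_lit 0, [(nat_lit 24, [(nat_lit 4, nat_lit 699)]), (nat_lit 27, [(nat_lit 4, nat_lit 699)])],
 ⟨p024_k25, nat_lit 0, nat_lit 0, nat_lit 188, nat_lit 0, nat_lit 80646, [nat_lit 814696401, nat_lit 687871200, nat_lit 672664400], [], [nat_lit 20615884061, nat_lit 23017995141, nat_lit 27639964682, nat_lit 29546733821], nat_lit 1271250, nat_lit 1271250, nat_lit 490000, nat_lit 2615000, nat_lit 0, nat_lit 0, [nat_lit 230000, nat_lit 780000, nat_lit 1100000], [nat_lit 35, nat_lit 40, nat_lit 80, nat_lit 80, nat_lit 22, nat_lit 317, nat_lit 100, nat_lit 15]⟩, ⟨p024_k33, nat_lit 0, nat_lit 0, nat_lit 388, nat_lit 0, nat_lit 201568, [nat_lit 1881250000, nat_lit 2962442000, nat_lit 3573472000], [],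 [nat_lit 15432535912, nat_lit 14346980292, nat_lit 15159213568, nat_lit 15225761353], nat_lit 1271250, nat_lit 1271250, nat_lit 490000, nat_lit 2615000, nat_lit 0, nat_lit 0, [nat_lit 1412500, nat_lit 1271250, nat_lit 1271250], [nat_lit 46, nat_lit 40, nat_lit 80, nat_lit 80, nat_lit 41, nat_lit 373, nat_lit 150, nat_lit 10]⟩,
 ⟨nat_lit 0, nat_lit 3163, ⟨.ofNat (nat_lit 309443), .ofNat (nat_lit 731616), .ofNat (nat_lit 351143), .ofNat (nat_lit 775928), .ofNat (nat_lit 342303), .ofNat (nat_lit 689994), .ofNat (nat_lit 389693), .ofNat (nat_lit 739996)⟩, ⟨.ofNat (nat_lit 0), .ofNat (nat_lit 0), .ofNat (nat_lit 0), .ofNat (nat_lit 0), .ofNat (nat_lit 0), .ofNat (nat_lit 0), .ofNat (nat_lit 0), .ofNat (nat_lit 0)⟩⟩, []⟩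
noncomputable def p024_l181 : Lf2 := ⟨nat_lit 0, nat_lit 10, [nat_lit 0, nat_lit 5, nat_lit 5, nat_lit 20], true, nat_lit 0, nat_lit 0, nat_lit 0, nat_lit 0, ⟨nat_lit 0, nat_lit 1000, nat_lit 0, nat_lit 5, nat_lit 217, nat_lit 0, nat_lit 0, nat_lit 0, nat_lit 0, nat_lit 0, nat_lit 0, nat_lit 0, nat_lit 0, nat_lit 0, nat_lit 0, nat_lit 5000000, false, true⟩,
 nat_lit 0, nat_lit 3379, nat_lit 0, nat_lit 1322, nat_lit 2943, nat_lit 0, nat_lit 0, nat_lit 0, nat_lit 0, nat_lit 0, nat_lit 0, nat_lit 0, nat_lit 0, nat_lit 0, nat_lit 0, nat_lit 250000, nat_lit 0, nat_lit 0, [(nat_lit 24, [(nat_lit 0, nat_lit 1000)]), (nat_lit 27, [(nat_lit 0, nat_lit 1000)])],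
 ⟨p024_k25, nat_lit 0, nat_lit 0, nat_lit 198, nat_lit 0, nat_lit 123184, [nat_lit 780800001, nat_lit 1367200000, nat_lit 1705600000], [], [nat_lit 22404287397, nat_lit 25030710045, nat_lit 29464350087, nat_lit 31164912981], nat_lit 1271250, nat_lit 1271250, nat_lit 490000, nat_lit 2615000, nat_lit 0, nat_lit 0, [nat_lit 230000, nat_lit 780000, nat_lit 1100000], [nat_lit 35, nat_lit 40, nat_lit 80, nat_lit 80, nat_lit 22, nat_lit 317, nat_lit 100, nat_lit 15]⟩, C1.Rw.none,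
 ⟨nat_lit 0, nat_lit 3163, ⟨.ofNat (nat_lit 309443), .ofNat (nat_lit 731616), .ofNat (nat_lit 351143), .ofNat (nat_lit 775928), .ofNat (nat_lit 342303), .ofNat (nat_lit 689994), .ofNat (nat_lit 389693), .ofNat (nat_lit 739996)⟩, ⟨.ofNat (nat_lit 0), .ofNat (nat_lit 0), .ofNat (nat_lit 0), .ofNat (nat_lit 0), .ofNat (nat_lit 0), .ofNat (nat_lit 0), .ofNat (nat_lit 0), .ofNat (nat_lit 0)⟩⟩, [⟨nat_lit 13, nat_lit 44, nat_lit 86, nat_lit 100, nat_lit 393196063⟩]⟩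
noncomputable def b_N_900_500_0_1 : St := ⟨false, nat_lit 2, nat_lit 2, nat_lit 0, nat_lit 40, nat_lit 360, nat_lit 400, nat_lit 200, nat_lit 240, nat_lit 80, nat_lit 352, nat_lit 0, nat_lit 0, nat_lit 0, nat_lit 0, nat_lit 0, nat_lit 0, nat_lit 40, nat_lit 176, nat_lit 0, nat_lit 0, nat_lit 0, nat_lit 0⟩
theorem d_N_900_500_0_1 (h : EB TB.env) : Dead b_N_900_500_0_1 := chkB_sound0 h (T :=
(.spl (nat_lit 6) (nat_lit 80)
(.st (nat_lit 0)
(.leaf p024_l143)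
(.gv
(.st (nat_lit 1)
(.spl (nat_lit 0) (nat_lit 380)
(.leaf p024_l144)
(.trZ (nat_lit 0) (nat_lit 100) (nat_lit 44) (nat_lit 90) (nat_lit 112) (.trX (nat_lit 13) (nat_lit 44) (nat_lit 81) (nat_lit 100) (nat_lit 324) (.leaf p024_l145))))
(.spl (nat_lit 2) (nat_lit 240)
(.spl (nat_lit 0) (nat_lit 380)
(.leaf p024_l146)
(.trZ (nat_lit 0) (nat_lit 100) (nat_lit 44) (nat_lit 90) (nat_lit 112) (.leaf p024_l147)))
(.spl (nat_lit 1) (nat_lit 220)
(.trX (nat_lit 13) (nat_lit 60) (nat_lit 74) (nat_lit 100) (nat_lit 336) (.spl (nat_lit 0) (nat_lit 380)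
(.leaf p024_l148)
(.trX (nat_lit 13) (nat_lit 44) (nat_lit 86) (nat_lit 100) (nat_lit 308) (.leaf p024_l149))))
(.spl (nat_lit 0) (nat_lit 380)
(.leaf p024_l150)
(.trX (nat_lit 13) (nat_lit 44) (nat_lit 81) (nat_lit 100) (nat_lit 324) (.leaf p024_l151))))))
(.st (nat_lit 1)
(.leaf p024_l152)
(.leaf p024_l153))))
(.spl (nat_lit 6) (nat_lit 120)
(.st (nat_lit 0)
(.gv
(.st (nat_lit 1)
(.leaf p024_l154)
(.spl (nat_lit 2) (nat_lit 240)
(.leaf p024_l155)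
(.leaf p024_l156)))
(.leaf p024_l157))
(.gv
(.st (nat_lit 1)
(.leaf p024_l158)
(.spl (nat_lit 2) (nat_lit 240)
(.leaf p024_l159)
(.spl (nat_lit 0) (nat_lit 380)
(.spl (nat_lit 1) (nat_lit 220)
(.trX (nat_lit 13) (nat_lit 60) (nat_lit 74) (nat_lit 100) (nat_lit 336) (.leaf p024_l160))
(.spl (nat_lit 0) (nat_lit 370)
(.leaf p024_l161)
(.trX (nat_lit 13) (nat_lit 54) (nat_lit 74) (nat_lit 100) (nat_lit 340) (.leaf p024_l162))))
(.trX (nat_lit 13) (nat_lit 44) (nat_lit 81) (nat_lit 100) (nat_lit 324) (.leaf p024_l163)))))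
(.leaf p024_l164)))
(.spl (nat_lit 6) (nat_lit 160)
(.st (nat_lit 0)
(.gv
(.st (nat_lit 1)
(.leaf p024_l165)
(.spl (nat_lit 2) (nat_lit 240)
(.leaf p024_l166)
(.spl (nat_lit 2) (nat_lit 320)
(.leaf p024_l167)
(.leaf p024_l168))))
(.leaf p024_l169))
(.gv
(.st (nat_lit 1)
(.leaf p024_l170)
(.spl (nat_lit 2) (nat_lit 240)
(.leaf p024_l171)
(.spl (nat_lit 0) (nat_lit 380)
(.leaf p024_l172)
(.trX (nat_lit 13) (nat_lit 44) (nat_lit 81) (nat_lit 100) (nat_lit 324) (.leaf p024_l173)))))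
(.leaf p024_l174)))
(.st (nat_lit 0)
(.gv
(.st (nat_lit 1)
(.leaf p024_l175)
(.spl (nat_lit 0) (nat_lit 380)
(.leaf p024_l176)
(.trZ (nat_lit 0) (nat_lit 100) (nat_lit 44) (nat_lit 90) (nat_lit 112) (.trX (nat_lit 13) (nat_lit 44) (nat_lit 81) (nat_lit 100) (nat_lit 324) (.leaf p024_l177)))))
(.leaf p024_l178))
(.gv
(.st (nat_lit 1)
(.leaf p024_l179)
(.leaf p024_l180))
(.leaf p024_l181))))))) (by decide +kernel)
noncomputable def p024_l182 : Lf2 := ⟨nat_lit 0, nat_lit 10, [nat_lit 0, nat_lit 5, nat_lit 5, nat_lit 20], false, nat_lit 0, nat_lit 0, nat_lit 0, nat_lit 0, ⟨nat_lit 825, nat_lit 175, nat_lit 0, nat_lit 6, nat_lit 251, nat_lit 0, nat_lit 0, nat_lit 0, nat_lit 0, nat_lit 0, nat_lit 0, nat_lit 0, nat_lit 48094281, nat_lit 18905719, nat_lit 0, nat_lit 2974977, false, false⟩,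
 nat_lit 0, nat_lit 0, nat_lit 0, nat_lit 0, nat_lit 0, nat_lit 0, nat_lit 0, nat_lit 0, nat_lit 0, nat_lit 0, nat_lit 0, nat_lit 0, nat_lit 0, nat_lit 0, nat_lit 0, nat_lit 43750, nat_lit 0, nat_lit 0, [(nat_lit 24, [(nat_lit 0, nat_lit 175)]), (nat_lit 27, [(nat_lit 0, nat_lit 175)])],
 ⟨p024_k24, nat_lit 0, nat_lit 0, nat_lit 169, nat_lit 0, nat_lit 0, [nat_lit 910490001, nat_lit 4166080000], [], [nat_lit 32665520403, nat_lit 34079933203, nat_lit 39376878803, nat_lit 40479228403], nat_lit 0, nat_lit 0, nat_lit 0, nat_lit 0, nat_lit 0, nat_lit 0, [], [nat_lit 86, nat_lit 40, nat_lit 80, nat_lit 80, nat_lit 87, nat_lit 317, nat_lit 100, nat_lit 14]⟩, ⟨p024_k36, nat_lit 0, nat_lit 0, nat_lit 222, nat_lit 0, nat_lit 0, [nat_lit 3867600000, nat_lit 9794400000], [], [nat_lit 30682555200, nat_lit 31661509440, nat_lit 36357786300, nat_lit 37137119580], nat_lit 0, nat_lit 0, nat_lit 0, nat_lit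 0, nat_lit 0, nat_lit 0, [], [nat_lit 116, nat_lit 40, nat_lit 80, nat_lit 80, nat_lit 65, nat_lit 401, nat_lit 175, nat_lit 10]⟩,
 ⟨nat_lit 0, nat_lit 3163, ⟨.ofNat (nat_lit 401957), .ofNat (nat_lit 812499), .ofNat (nat_lit 443658), .ofNat (nat_lit 856810), .ofNat (nat_lit 431745), .ofNat (nat_lit 769995), .ofNat (nat_lit 479136), .ofNat (nat_lit 819996)⟩, ⟨.ofNat (nat_lit 0), .ofNat (nat_lit 0), .ofNat (nat_lit 0), .ofNat (nat_lit 0), .ofNat (nat_lit 0), .ofNat (nat_lit 0), .ofNat (nat_lit 0), .ofNat (nat_lit 0)⟩⟩, []⟩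
noncomputable def p024_l183 : Lf2 := ⟨nat_lit 0, nat_lit 10, [nat_lit 0, nat_lit 5, nat_lit 5, nat_lit 20], true, nat_lit 0, nat_lit 0, nat_lit 0, nat_lit 0, ⟨nat_lit 0, nat_lit 1000, nat_lit 0, nat_lit 6, nat_lit 213, nat_lit 0, nat_lit 0, nat_lit 0, nat_lit 0, nat_lit 0, nat_lit 0, nat_lit 0, nat_lit 52221722, nat_lit 14778278, nat_lit 0, nat_lit 2638149, false, false⟩,
 nat_lit 0, nat_lit 0, nat_lit 0, nat_lit 0, nat_lit 2948, nat_lit 0, nat_lit 0, nat_lit 0, nat_lit 0, nat_lit 0, nat_lit 0, nat_lit 0, nat_lit 0, nat_lit 0, nat_lit 0, nat_lit 400000, nat_lit 0, nat_lit 0, [(nat_lit 24, [(nat_lit 1, nat_lit 1000)]), (nat_lit 27, [(nat_lit 1, nat_lit 1000)])],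
 ⟨p024_k24, nat_lit 0, nat_lit 0, nat_lit 161, nat_lit 0, nat_lit 0, [nat_lit 965600001, nat_lit 988400000], [], [nat_lit 20840440418, nat_lit 24026829725, nat_lit 23621365714, nat_lit 26196482816], nat_lit 0, nat_lit 0, nat_lit 0, nat_lit 0, nat_lit 0, nat_lit 0, [], [nat_lit 86, nat_lit 40, nat_lit 80, nat_lit 80, nat_lit 87, nat_lit 272, nat_lit 60, nat_lit 12]⟩, C1.Rw.none,
 ⟨nat_lit 0, nat_lit 3163, ⟨.ofNat (nat_lit 401957), .ofNat (nat_lit 605128), .ofNat (nat_lit 443658), .ofNat (nat_lit 646918), .ofNat (nat_lit 431745), .ofNat (nat_lit 599865), .ofNat (nat_lit 479136), .ofNat (nat_lit 647345)⟩, ⟨.ofNat (nat_lit 0), .ofNat (nat_lit 0), .ofNat (nat_lit 0), .ofNat (nat_lit 0), .ofNat (nat_lit 0), .ofNat (nat_lit 0), .ofNat (nat_lit 0), .ofNat (nat_lit 0)⟩⟩, []⟩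
noncomputable def p024_l184 : Lf2 := ⟨nat_lit 0, nat_lit 10, [nat_lit 0, nat_lit 5, nat_lit 5, nat_lit 20], true, nat_lit 0, nat_lit 0, nat_lit 0, nat_lit 0, ⟨nat_lit 0, nat_lit 1000, nat_lit 0, nat_lit 6, nat_lit 288, nat_lit 0, nat_lit 0, nat_lit 0, nat_lit 0, nat_lit 0, nat_lit 0, nat_lit 0, nat_lit 44132949, nat_lit 22867051, nat_lit 0, nat_lit 3209466, true, true⟩,
 nat_lit 0, nat_lit 0, nat_lit 0, nat_lit 0, nat_lit 2518, nat_lit 0, nat_lit 0, nat_lit 0, nat_lit 0, nat_lit 0, nat_lit 0, nat_lit 0, nat_lit 0, nat_lit 0, nat_lit 0, nat_lit 400000, nat_lit 0, nat_lit 0, [(nat_lit 24, [(nat_lit 1, nat_lit 1000)]), (nat_lit 27, [(nat_lit 1, nat_lit 1000)])],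
 ⟨p024_k25, nat_lit 0, nat_lit 0, nat_lit 172, nat_lit 0, nat_lit 0, [nat_lit 848000000, nat_lit 997333334, nat_lit 954400000], [], [nat_lit 23899955980, nat_lit 25977429572, nat_lit 29018836546, nat_lit 31061952240], nat_lit 0, nat_lit 0, nat_lit 0, nat_lit 0, nat_lit 0, nat_lit 0, [], [nat_lit 35, nat_lit 40, nat_lit 80, nat_lit 80, nat_lit 22, nat_lit 203, nat_lit 0, nat_lit 8]⟩, C1.Rw.none,
 ⟨nat_lit 0, nat_lit 3163, ⟨.ofNat (nat_lit 605128), .ofNat (nat_lit 812499), .ofNat (nat_lit 646918), .ofNat (nat_lit 856810), .ofNat (nat_lit 599865), .ofNat (nat_lit 769995), .ofNat (nat_lit 647345), .ofNat (nat_lit 819996)⟩, ⟨.ofNat (nat_lit 0), .ofNat (nat_lit 0), .ofNat (nat_lit 0), .ofNat (nat_lit 0), .ofNat (nat_lit 0), .ofNat (nat_lit 0), .ofNat (nat_lit 0), .ofNat (nat_lit 0)⟩⟩, [⟨nat_lit 13, nat_lit 65, nat_lit 54, nat_lit 100, nat_lit 187235271⟩]⟩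
noncomputable def p024_l185 : Lf2 := ⟨nat_lit 0, nat_lit 10, [nat_lit 0, nat_lit 5, nat_lit 5, nat_lit 20], true, nat_lit 0, nat_lit 0, nat_lit 0, nat_lit 0, ⟨nat_lit 0, nat_lit 1000, nat_lit 0, nat_lit 6, nat_lit 251, nat_lit 0, nat_lit 0, nat_lit 0, nat_lit 0, nat_lit 0, nat_lit 0, nat_lit 0, nat_lit 0, nat_lit 0, nat_lit 0, nat_lit 5000000, false, false⟩,
 nat_lit 0, nat_lit 0, nat_lit 0, nat_lit 0, nat_lit 2906, nat_lit 0, nat_lit 0, nat_lit 0, nat_lit 0, nat_lit 0, nat_lit 0, nat_lit 0, nat_lit 0, nat_lit 0, nat_lit 0, nat_lit 274750, nat_lit 0, nat_lit 0, [(nat_lit 24, [(nat_lit 0, nat_lit 835), (nat_lit 1, nat_lit 165)]), (nat_lit 27, [(nat_lit 0, nat_lit 835), (nat_lit 1, nat_lit 165)])],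
 ⟨p024_k24, nat_lit 0, nat_lit 0, nat_lit 169, nat_lit 0, nat_lit 0, [nat_lit 811292000, nat_lit 1581652000], [], [nat_lit 21961981816, nat_lit 24623019796, nat_lit 29992260207, nat_lit 32287985680], nat_lit 0, nat_lit 0, nat_lit 0, nat_lit 0, nat_lit 0, nat_lit 0, [], [nat_lit 86, nat_lit 40, nat_lit 80, nat_lit 80, nat_lit 87, nat_lit 317, nat_lit 100, nat_lit 14]⟩, C1.Rw.none,
 ⟨nat_lit 0, nat_lit 3163, ⟨.ofNat (nat_lit 401957), .ofNat (nat_lit 812499), .ofNat (nat_lit 443658), .ofNat (nat_lit 856810), .ofNat (nat_lit 431745), .ofNat (nat_lit 769995), .ofNat (nat_lit 479136), .ofNat (nat_lit 819996)⟩, ⟨.ofNat (nat_lit 0), .ofNat (nat_lit 0), .ofNat (nat_lit 0), .ofNat (nat_lit 0), .ofNat (nat_lit 0), .ofNat (nat_lit 0), .ofNat (nat_lit 0), .ofNat (nat_lit 0)⟩⟩, [⟨nat_lit 13, nat_lit 65, nat_lit 54, nat_lit 100, nat_lit 401396974⟩]⟩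
noncomputable def p024_l186 : Lf2 := ⟨nat_lit 0, nat_lit 10, [nat_lit 0, nat_lit 5, nat_lit 5, nat_lit 20], false, nat_lit 0, nat_lit 0, nat_lit 0, nat_lit 0, ⟨nat_lit 730, nat_lit 0, nat_lit 270, nat_lit 6, nat_lit 253, nat_lit 0, nat_lit 0, nat_lit 0, nat_lit 0, nat_lit 215, nat_lit 442376, nat_lit 200, nat_lit 47873981, nat_lit 0, nat_lit 0, nat_lit 2990194, false, false⟩,
 nat_lit 0, nat_lit 4756, nat_lit 0, nat_lit 0, nat_lit 4142, nat_lit 4838, nat_lit 37, nat_lit 0, nat_lit 0, nat_lit 1056, nat_lit 0, nat_lit 0, nat_lit 0, nat_lit 0, nat_lit 0, nat_lit 270000, nat_lit 0, nat_lit 0, [(nat_lit 24, [(nat_lit 6, nat_lit 270)])],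
 ⟨p024_k25, nat_lit 0, nat_lit 0, nat_lit 674, nat_lit 0, nat_lit 1464890, [nat_lit 1049456000, nat_lit 1791312000, nat_lit 2100536000], [], [nat_lit 28822924240, nat_lit 29517449986, nat_lit 34197230064, nat_lit 34848836363], nat_lit 1271250, nat_lit 1271250, nat_lit 719601, nat_lit 2861300, nat_lit 0, nat_lit 0, [nat_lit 230000, nat_lit 780000, nat_lit 1100000], [nat_lit 35, nat_lit 40, nat_lit 80, nat_lit 80, nat_lit 22, nat_lit 317, nat_lit 100, nat_lit 14]⟩, ⟨p024_k37, nat_lit 0, nat_lit 0, nat_lit 242, nat_lit 0, nat_lit 0, [nat_lit 3422240000, nat_lit 5816640000, nat_lit 8666560000], [], [nat_lit 16441162828, nat_lit 18141038330, nat_lit 25964536057, nat_lit 27171883977], nat_lit 0, nat_lit 0, nat_lit 0, nat_lit 0, nat_lit 0, nat_lit 0, [], [nat_lit 21, nat_lit 40, nat_lit 80, nat_lit 80, nat_lit 14, nat_lit 401, nat_lit 175, nat_lit 10]⟩,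
 ⟨nat_lit 2236, nat_lit 3163, ⟨.ofNat (nat_lit 409856), .ofNat (nat_lit 812503), .ofNat (nat_lit 454039), .ofNat (nat_lit 856813), .ofNat (nat_lit 419758), .ofNat (nat_lit 796416), .ofNat (nat_lit 465180), .ofNat (nat_lit 841964)⟩, ⟨.ofNat (nat_lit 0), .ofNat (nat_lit 0), .ofNat (nat_lit 0), .ofNat (nat_lit 0), .ofNat (nat_lit 0), .ofNat (nat_lit 0), .ofNat (nat_lit 0), .ofNat (nat_lit 0)⟩⟩, [⟨nat_lit 0, nat_lit 92, nat_lit 44, nat_lit 100, nat_lit 91797316⟩]⟩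
noncomputable def p024_l187 : Lf2 := ⟨nat_lit 0, nat_lit 10, [nat_lit 0, nat_lit 5, nat_lit 5, nat_lit 20], false, nat_lit 0, nat_lit 0, nat_lit 0, nat_lit 0, ⟨nat_lit 1000, nat_lit 0, nat_lit 0, nat_lit 0, nat_lit 0, nat_lit 0, nat_lit 0, nat_lit 0, nat_lit 0, nat_lit 0, nat_lit 0, nat_lit 0, nat_lit 0, nat_lit 0, nat_lit 0, nat_lit 0, false, false⟩,
 nat_lit 0, nat_lit 4031, nat_lit 0, nat_lit 0, nat_lit 3766, nat_lit 6972, nat_lit 517, nat_lit 0, nat_lit 0, nat_lit 0, nat_lit 0, nat_lit 0, nat_lit 0, nat_lit 0, nat_lit 0, nat_lit 0, nat_lit 0, nat_lit 0, [],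
 ⟨p024_k30, nat_lit 0, nat_lit 0, nat_lit 597, nat_lit 0, nat_lit 1473193, [nat_lit 938000000, nat_lit 3282000000], [], [nat_lit 27765649000, nat_lit 28764709877, nat_lit 32834307274, nat_lit 33636108744], nat_lit 1271250, nat_lit 1271250, nat_lit 1000851, nat_lit 2724650, nat_lit 0, nat_lit 0, [nat_lit 230000, nat_lit 780000], [nat_lit 66, nat_lit 40, nat_lit 80, nat_lit 80, nat_lit 67, nat_lit 244, nat_lit 0, nat_lit 13]⟩, ⟨p024_k36, nat_lit 0, nat_lit 0, nat_lit 215, nat_lit 0, nat_lit 0, [nat_lit 4688000000, nat_lit 11872000000], [], [nat_lit 31872185552, nat_lit 34430699842, nat_lit 41661843239, nat_lit 43085337428], nat_lit 0, nat_lit 0, nat_lit 0, nat_lit 0, nat_lit 0, nat_lit 0, [], [nat_lit 116, nat_lit 40, nat_lit 80, nat_lit 80, nat_lit 65, nat_lit 401, nat_lit 175, nat_lit 10]⟩,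
 zbF0, [⟨nat_lit 0, nat_lit 95, nat_lit 31, nat_lit 100, nat_lit 315091554⟩]⟩
noncomputable def p024_l188 : Lf2 := ⟨nat_lit 0, nat_lit 10, [nat_lit 0, nat_lit 5, nat_lit 5, nat_lit 20], false, nat_lit 0, nat_lit 0, nat_lit 0, nat_lit 0, ⟨nat_lit 180, nat_lit 450, nat_lit 370, nat_lit 6, nat_lit 213, nat_lit 0, nat_lit 0, nat_lit 0, nat_lit 0, nat_lit 215, nat_lit 23440, nat_lit 200, nat_lit 52221722, nat_lit 14778278, nat_lit 0, nat_lit 2638149, false, false⟩,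
 nat_lit 3545, nat_lit 0, nat_lit 0, nat_lit 0, nat_lit 3087, nat_lit 1876, nat_lit 105, nat_lit 0, nat_lit 0, nat_lit 139, nat_lit 0, nat_lit 0, nat_lit 0, nat_lit 0, nat_lit 0, nat_lit 260500, nat_lit 0, nat_lit 0, [(nat_lit 24, [(nat_lit 0, nat_lit 450), (nat_lit 5, nat_lit 370)]), (nat_lit 27, [(nat_lit 0, nat_lit 450), (nat_lit 5, nat_lit 370)])],
 ⟨p024_k25, nat_lit 0, nat_lit 0, nat_lit 436, nat_lit 0, nat_lit 858738, [nat_lit 789856000, nat_lit 919570667, nat_lit 953944000], [], [nat_lit 22308844479, nat_lit 24425898392, nat_lit 24677708448, nat_lit 26545695671], nat_lit 1271250, nat_lit 1271250, nat_lit 719601, nat_lit 1758000, nat_lit 0, nat_lit 0, [nat_lit 230000, nat_lit 780000, nat_lit 1100000], [nat_lit 35, nat_lit 40, nat_lit 80, nat_lit 80, nat_lit 22, nat_lit 272, nat_lit 60, nat_lit 12]⟩, ⟨p024_k37, nat_lit 0, nat_lit 0, nat_lit 994, nat_lit 0, nat_lit 1477890, [nat_lit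 843840000, nat_lit 1434240000, nat_lit 2136960000], [], [nat_lit 7161692388, nat_lit 6380359140, nat_lit 7116433616, nat_lit 5931372160], nat_lit 1271250, nat_lit 1271250, nat_lit 719601, nat_lit 1758000, nat_lit 0, nat_lit 0, [nat_lit 1100000, nat_lit 1785000, nat_lit 1271250], [nat_lit 21, nat_lit 40, nat_lit 80, nat_lit 80, nat_lit 14, nat_lit 373, nat_lit 150, nat_lit 10]⟩,
 ⟨nat_lit 0, nat_lit 3163, ⟨.ofNat (nat_lit 401957), .ofNat (nat_lit 605128), .ofNat (nat_lit 443658), .ofNat (nat_lit 646918), .ofNat (nat_lit 431745), .ofNat (nat_lit 599865), .ofNat (nat_lit 479136), .ofNat (nat_lit 647345)⟩, ⟨.ofNat (nat_lit 0), .ofNat (nat_lit 0), .ofNat (nat_lit 0), .ofNat (nat_lit 0), .ofNat (nat_lit 0), .ofNat (nat_lit 0), .ofNat (nat_lit 0), .ofNat (nat_lit 0)⟩⟩, [⟨nat_lit 0, nat_lit 96, nat_lit 44, nat_lit 100, nat_lit 80125381⟩]⟩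
noncomputable def p024_l189 : Lf2 := ⟨nat_lit 0, nat_lit 10, [nat_lit 0, nat_lit 5, nat_lit 5, nat_lit 20], false, nat_lit 0, nat_lit 0, nat_lit 0, nat_lit 0, ⟨nat_lit 213, nat_lit 787, nat_lit 0, nat_lit 6, nat_lit 283, nat_lit 0, nat_lit 0, nat_lit 0, nat_lit 0, nat_lit 0, nat_lit 0, nat_lit 0, nat_lit 44690391, nat_lit 22309609, nat_lit 0, nat_lit 3181341, true, true⟩,
 nat_lit 3680, nat_lit 0, nat_lit 0, nat_lit 0, nat_lit 3205, nat_lit 1948, nat_lit 51, nat_lit 0, nat_lit 0, nat_lit 142, nat_lit 0, nat_lit 0, nat_lit 0, nat_lit 0, nat_lit 0, nat_lit 356800, nat_lit 0, nat_lit 0, [(nat_lit 24, [(nat_lit 1, nat_lit 717), (nat_lit 2, nat_lit 70)])],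
 ⟨p024_k25, nat_lit 0, nat_lit 0, nat_lit 379, nat_lit 0, nat_lit 753343, [nat_lit 910570000, nat_lit 1381058000, nat_lit 1536464800], [], [nat_lit 26695369005, nat_lit 27600272945, nat_lit 30634422904, nat_lit 31358131931], nat_lit 1271250, nat_lit 1271250, nat_lit 1271250, nat_lit 1271250, nat_lit 0, nat_lit 0, [nat_lit 230000, nat_lit 780000, nat_lit 1100000], [nat_lit 35, nat_lit 40, nat_lit 80, nat_lit 80, nat_lit 22, nat_lit 203, nat_lit 0, nat_lit 8]⟩, ⟨p024_k37, nat_lit 0, nat_lit 0, nat_lit 851, nat_lit 0, nat_lit 1296506, [nat_lit 998544000, nat_lit 1697184000, nat_lit 2528736000], [], [nat_lit 8431346980, nat_lit 8435716278, nat_lit 8712269944, nat_lit 8706408722], nat_lit 1271250, nat_lit 1271250, nat_lit 1271250, nat_lit 1271250, nat_lit 0, nat_lit 0, [nat_lit 1100000, nat_lit 1785000, nat_lit 1271250], [nat_lit 21, nat_lit 40, nat_lit 80, nat_lit 80, nat_lit 14, nat_lit 401,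 nat_lit 175, nat_lit 10]⟩,
 ⟨nat_lit 2236, nat_lit 3163, ⟨.ofNat (nat_lit 605240), .ofNat (nat_lit 794217), .ofNat (nat_lit 627331), .ofNat (nat_lit 816372), .ofNat (nat_lit 602541), .ofNat (nat_lit 779311), .ofNat (nat_lit 625251), .ofNat (nat_lit 802085)⟩, ⟨.ofNat (nat_lit 0), .ofNat (nat_lit 0), .ofNat (nat_lit 0), .ofNat (nat_lit 0), .ofNat (nat_lit 0), .ofNat (nat_lit 0), .ofNat (nat_lit 0), .ofNat (nat_lit 0)⟩⟩, [⟨nat_lit 13, nat_lit 44, nat_lit 81, nat_lit 100, nat_lit 100367872⟩]⟩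
noncomputable def p024_l190 : Lf2 := ⟨nat_lit 0, nat_lit 10, [nat_lit 0, nat_lit 5, nat_lit 5, nat_lit 20], false, nat_lit 0, nat_lit 0, nat_lit 0, nat_lit 0, ⟨nat_lit 669, nat_lit 331, nat_lit 0, nat_lit 6, nat_lit 295, nat_lit 0, nat_lit 0, nat_lit 0, nat_lit 0, nat_lit 0, nat_lit 0, nat_lit 0, nat_lit 43382991, nat_lit 23617009, nat_lit 0, nat_lit 3244879, true, true⟩,
 nat_lit 8286, nat_lit 0, nat_lit 0, nat_lit 0, nat_lit 4151, nat_lit 4823, nat_lit 0, nat_lit 0, nat_lit 0, nat_lit 982, nat_lit 0, nat_lit 0, nat_lit 0, nat_lit 0, nat_lit 0, nat_lit 331000, nat_lit 0, nat_lit 0, [(nat_lit 24, [(nat_lit 2, nat_lit 331)])],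
 ⟨p024_k25, nat_lit 0, nat_lit 0, nat_lit 395, nat_lit 0, nat_lit 780133, [nat_lit 1113430000, nat_lit 2039161201, nat_lit 2444084800], [], [nat_lit 27468996461, nat_lit 28405304068, nat_lit 33529646835, nat_lit 34875841558], nat_lit 1271250, nat_lit 1271250, nat_lit 1271250, nat_lit 1271250, nat_lit 0, nat_lit 0, [nat_lit 230000, nat_lit 780000, nat_lit 1100000], [nat_lit 35, nat_lit 40, nat_lit 80, nat_lit 80, nat_lit 22, nat_lit 203, nat_lit 0, nat_lit 8]⟩, ⟨p024_k38, nat_lit 0, nat_lit 0, nat_lit 741, nat_lit 0, nat_lit 1208468, [nat_lit 3136272000, nat_lit 5330592000, nat_lit 6584298000], [], [nat_lit 22347190324, nat_lit 22525742364, nat_lit 23984268154, nat_lit 24087141455], nat_lit 1271250, nat_lit 1271250, nat_lit 1271250, nat_lit 1271250, nat_lit 0, nat_lit 0, [nat_lit 1100000, nat_lit 1785000, nat_lit 1271250], [nat_lit 29, nat_lit 40, nat_lit 80, nat_lit 80, nat_lit 17, nat_lit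 401, nat_lit 175, nat_lit 11]⟩,
 ⟨nat_lit 2236, nat_lit 3163, ⟨.ofNat (nat_lit 627331), .ofNat (nat_lit 834658), .ofNat (nat_lit 649422), .ofNat (nat_lit 856813), .ofNat (nat_lit 625251), .ofNat (nat_lit 819190), .ofNat (nat_lit 647962), .ofNat (nat_lit 841964)⟩, ⟨.ofNat (nat_lit 0), .ofNat (nat_lit 0), .ofNat (nat_lit 0), .ofNat (nat_lit 0), .ofNat (nat_lit 0), .ofNat (nat_lit 0), .ofNat (nat_lit 0), .ofNat (nat_lit 0)⟩⟩, []⟩
noncomputable def p024_l191 : Lf2 := ⟨nat_lit 0, nat_lit 10, [nat_lit 0, nat_lit 5, nat_lit 5, nat_lit 20], false, nat_lit 0, nat_lit 0, nat_lit 0, nat_lit 0, ⟨nat_lit 172, nat_lit 828, nat_lit 0, nat_lit 6, nat_lit 280, nat_lit 0, nat_lit 0, nat_lit 0, nat_lit 0, nat_lit 0, nat_lit 0, nat_lit 0, nat_lit 44983207, nat_lit 22016793, nat_lit 0, nat_lit 3165944, true, true⟩,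
 nat_lit 2978, nat_lit 0, nat_lit 0, nat_lit 0, nat_lit 2782, nat_lit 1576, nat_lit 0, nat_lit 0, nat_lit 0, nat_lit 113, nat_lit 0, nat_lit 0, nat_lit 0, nat_lit 0, nat_lit 0, nat_lit 331200, nat_lit 0, nat_lit 0, [(nat_lit 27, [(nat_lit 1, nat_lit 828)])],
 ⟨p024_k30, nat_lit 0, nat_lit 0, nat_lit 358, nat_lit 0, nat_lit 796696, [nat_lit 738948801, nat_lit 833107200], [], [nat_lit 26024703857, nat_lit 27038455557, nat_lit 29856042215, nat_lit 30685270660], nat_lit 1271250, nat_lit 1271250, nat_lit 1271250, nat_lit 1271250, nat_lit 0, nat_lit 0, [nat_lit 230000, nat_lit 780000], [nat_lit 66, nat_lit 40, nat_lit 80, nat_lit 80, nat_lit 67, nat_lit 203, nat_lit 0, nat_lit 10]⟩, ⟨p024_k37, nat_lit 0, nat_lit 0, nat_lit 924, nat_lit 0, nat_lit 1477890, [nat_lit 806336000, nat_lit 1370496000, nat_lit 2041984000], [], [nat_lit 6803747276, nat_lit 6812604064, nat_lit 6982845495, nat_lit 6980361593],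 nat_lit 1271250, nat_lit 1271250, nat_lit 1271250, nat_lit 1271250, nat_lit 0, nat_lit 0, [nat_lit 1100000, nat_lit 1785000, nat_lit 1271250], [nat_lit 21, nat_lit 40, nat_lit 80, nat_lit 80, nat_lit 14, nat_lit 401, nat_lit 175, nat_lit 10]⟩,
 ⟨nat_lit 0, nat_lit 2237, ⟨.ofNat (nat_lit 602531), .ofNat (nat_lit 762201), .ofNat (nat_lit 646249), .ofNat (nat_lit 807752), .ofNat (nat_lit 599967), .ofNat (nat_lit 739994), .ofNat (nat_lit 648136), .ofNat (nat_lit 789996)⟩, ⟨.ofNat (nat_lit 0), .ofNat (nat_lit 0), .ofNat (nat_lit 0), .ofNat (nat_lit 0), .ofNat (nat_lit 0), .ofNat (nat_lit 0), .ofNat (nat_lit 0), .ofNat (nat_lit 0)⟩⟩, [⟨nat_lit 13, nat_lit 33, nat_lit 85, nat_lit 100, nat_lit 218175796⟩]⟩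
noncomputable def p024_l192 : Lf2 := ⟨nat_lit 0, nat_lit 10, [nat_lit 0, nat_lit 5, nat_lit 5, nat_lit 20], false, nat_lit 0, nat_lit 0, nat_lit 0, nat_lit 0, ⟨nat_lit 658, nat_lit 342, nat_lit 0, nat_lit 6, nat_lit 253, nat_lit 0, nat_lit 0, nat_lit 0, nat_lit 0, nat_lit 0, nat_lit 0, nat_lit 0, nat_lit 0, nat_lit 0, nat_lit 0, nat_lit 5000000, false, false⟩,
 nat_lit 0, nat_lit 4945, nat_lit 0, nat_lit 0, nat_lit 4306, nat_lit 4472, nat_lit 125, nat_lit 0, nat_lit 0, nat_lit 980, nat_lit 0, nat_lit 0, nat_lit 0, nat_lit 0, nat_lit 0, nat_lit 342000, nat_lit 0, nat_lit 0, [(nat_lit 24, [(nat_lit 2, nat_lit 342)])],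
 ⟨p024_k25, nat_lit 0, nat_lit 0, nat_lit 674, nat_lit 0, nat_lit 1464890, [nat_lit 1119260001, nat_lit 1997858400, nat_lit 2369513600], [], [nat_lit 29571680644, nat_lit 30290778210, nat_lit 34692363899, nat_lit 35346603384], nat_lit 1271250, nat_lit 1271250, nat_lit 719601, nat_lit 2861300, nat_lit 0, nat_lit 0, [nat_lit 230000, nat_lit 780000, nat_lit 1100000], [nat_lit 35, nat_lit 40, nat_lit 80, nat_lit 80, nat_lit 22, nat_lit 317, nat_lit 100, nat_lit 14]⟩, ⟨p024_k37, nat_lit 0, nat_lit 0, nat_lit 242, nat_lit 0, nat_lit 0, [nat_lit 3084704000, nat_lit 5242944000, nat_lit 7811776000], [], [nat_lit 14547602525, nat_lit 16230133535, nat_lit 23485252067, nat_lit 24582970769], nat_lit 0, nat_lit 0, nat_lit 0, nat_lit 0, nat_lit 0, nat_lit 0, [], [nat_lit 21, nat_lit 40, nat_lit 80, nat_lit 80, nat_lit 14, nat_lit 401, nat_lit 175, nat_lit 10]⟩,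
 ⟨nat_lit 2236, nat_lit 3163, ⟨.ofNat (nat_lit 409856), .ofNat (nat_lit 812503), .ofNat (nat_lit 454039), .ofNat (nat_lit 856813), .ofNat (nat_lit 419758), .ofNat (nat_lit 796416), .ofNat (nat_lit 465180), .ofNat (nat_lit 841964)⟩, ⟨.ofNat (nat_lit 0), .ofNat (nat_lit 0), .ofNat (nat_lit 0), .ofNat (nat_lit 0), .ofNat (nat_lit 0), .ofNat (nat_lit 0), .ofNat (nat_lit 0), .ofNat (nat_lit 0)⟩⟩, []⟩
noncomputable def p024_l193 : Lf2 := ⟨nat_lit 0, nat_lit 10, [nat_lit 0, nat_lit 5, nat_lit 5, nat_lit 20], false, nat_lit 0, nat_lit 0, nat_lit 0, nat_lit 0, ⟨nat_lit 1000, nat_lit 0, nat_lit 0, nat_lit 0, nat_lit 0, nat_lit 0, nat_lit 0, nat_lit 0, nat_lit 0, nat_lit 0, nat_lit 0, nat_lit 0, nat_lit 0, nat_lit 0, nat_lit 0, nat_lit 0, false, false⟩,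
 nat_lit 0, nat_lit 4288, nat_lit 0, nat_lit 0, nat_lit 4006, nat_lit 0, nat_lit 143, nat_lit 0, nat_lit 0, nat_lit 972, nat_lit 0, nat_lit 0, nat_lit 0, nat_lit 0, nat_lit 0, nat_lit 0, nat_lit 0, nat_lit 0, [],
 ⟨p024_k30, nat_lit 0, nat_lit 0, nat_lit 597, nat_lit 0, nat_lit 1473193, [nat_lit 938000000, nat_lit 3282000000], [], [nat_lit 27853956738, nat_lit 28882830151, nat_lit 32974803756, nat_lit 34357232904], nat_lit 1271250, nat_lit 1271250, nat_lit 1000851, nat_lit 2724650, nat_lit 0, nat_lit 0, [nat_lit 230000, nat_lit 780000], [nat_lit 66, nat_lit 40, nat_lit 80, nat_lit 80, nat_lit 67, nat_lit 244, nat_lit 0, nat_lit 13]⟩, ⟨p024_k37, nat_lit 0, nat_lit 0, nat_lit 233, nat_lit 0, nat_lit 0, [nat_lit 4688000000, nat_lit 7968000000, nat_lit 11872000000], [], [nat_lit 31513506000, nat_lit 32779853200, nat_lit 37368023200, nat_lit 38408019200], nat_lit 0, nat_lit 0, nat_lit 0, nat_lit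 0, nat_lit 0, nat_lit 0, [], [nat_lit 21, nat_lit 40, nat_lit 80, nat_lit 80, nat_lit 14, nat_lit 401, nat_lit 175, nat_lit 10]⟩,
 zbF0, [⟨nat_lit 0, nat_lit 95, nat_lit 31, nat_lit 100, nat_lit 588955840⟩]⟩
noncomputable def p024_l194 : Lf2 := ⟨nat_lit 0, nat_lit 10, [nat_lit 0, nat_lit 5, nat_lit 5, nat_lit 20], false, nat_lit 0, nat_lit 0, nat_lit 0, nat_lit 0, ⟨nat_lit 222, nat_lit 778, nat_lit 0, nat_lit 6, nat_lit 251, nat_lit 0, nat_lit 0, nat_lit 0, nat_lit 0, nat_lit 0, nat_lit 0, nat_lit 0, nat_lit 0, nat_lit 0, nat_lit 0, nat_lit 5000000, false, false⟩,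
 nat_lit 3672, nat_lit 0, nat_lit 0, nat_lit 0, nat_lit 3197, nat_lit 1943, nat_lit 111, nat_lit 0, nat_lit 0, nat_lit 99, nat_lit 0, nat_lit 0, nat_lit 0, nat_lit 0, nat_lit 0, nat_lit 328000, nat_lit 0, nat_lit 0, [(nat_lit 24, [(nat_lit 1, nat_lit 750), (nat_lit 2, nat_lit 28)]), (nat_lit 27, [(nat_lit 1, nat_lit 750), (nat_lit 2, nat_lit 28)])],
 ⟨p024_k25, nat_lit 0, nat_lit 0, nat_lit 436, nat_lit 0, nat_lit 858738, [nat_lit 885340000, nat_lit 1463365600, nat_lit 1697982400], [], [nat_lit 25742112676, nat_lit 27624341406, nat_lit 31741640366, nat_lit 33210945719], nat_lit 1271250, nat_lit 1271250, nat_lit 719601, nat_lit 2861300, nat_lit 0, nat_lit 0, [nat_lit 230000, nat_lit 780000, nat_lit 1100000], [nat_lit 35, nat_lit 40, nat_lit 80, nat_lit 80, nat_lit 22, nat_lit 317, nat_lit 100, nat_lit 14]⟩, ⟨p024_k37, nat_lit 0, nat_lit 0, nat_lit 994, nat_lit 0, nat_lit 1477890, [nat_lit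 1040736000, nat_lit 1768896000, nat_lit 2635584000], [], [nat_lit 10355300254, nat_lit 10357496824, nat_lit 12354456068, nat_lit 10603690271], nat_lit 1271250, nat_lit 1271250, nat_lit 719601, nat_lit 2861300, nat_lit 0, nat_lit 0, [nat_lit 1100000, nat_lit 1785000, nat_lit 1271250], [nat_lit 21, nat_lit 40, nat_lit 80, nat_lit 80, nat_lit 14, nat_lit 401, nat_lit 175, nat_lit 10]⟩,
 ⟨nat_lit 0, nat_lit 3163, ⟨.ofNat (nat_lit 401957), .ofNat (nat_lit 812499), .ofNat (nat_lit 443658), .ofNat (nat_lit 856810), .ofNat (nat_lit 431745), .ofNat (nat_lit 769995), .ofNat (nat_lit 479136), .ofNat (nat_lit 819996)⟩, ⟨.ofNat (nat_lit 0), .ofNat (nat_lit 0), .ofNat (nat_lit 0), .ofNat (nat_lit 0), .ofNat (nat_lit 0), .ofNat (nat_lit 0), .ofNat (nat_lit 0), .ofNat (nat_lit 0)⟩⟩, [⟨nat_lit 13, nat_lit 46, nat_lit 76, nat_lit 100, nat_lit 220866991⟩]⟩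
noncomputable def b_N_900_600_0_0 : St := ⟨false, nat_lit 2, nat_lit 2, nat_lit 0, nat_lit 40, nat_lit 360, nat_lit 400, nat_lit 240, nat_lit 280, nat_lit 112, nat_lit 376, nat_lit 0, nat_lit 0, nat_lit 0, nat_lit 0, nat_lit 0, nat_lit 0, nat_lit 0, nat_lit 40, nat_lit 0, nat_lit 0, nat_lit 0, nat_lit 0⟩
theorem d_N_900_600_0_0 (h : EB TB.env) : Dead b_N_900_600_0_0 := chkB_sound0 h (T :=
(.st (nat_lit 0)
(.gv
(.st (nat_lit 1)
(.leaf p024_l182)
(.spl (nat_lit 2) (nat_lit 240)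
(.leaf p024_l183)
(.leaf p024_l184)))
(.leaf p024_l185))
(.gv
(.st (nat_lit 1)
(.spl (nat_lit 0) (nat_lit 380)
(.leaf p024_l186)
(.trZ (nat_lit 0) (nat_lit 100) (nat_lit 44) (nat_lit 99) (nat_lit 148) (.trX (nat_lit 13) (nat_lit 48) (nat_lit 71) (nat_lit 100) (nat_lit 352) (.leaf p024_l187))))
(.spl (nat_lit 2) (nat_lit 240)
(.leaf p024_l188)
(.spl (nat_lit 0) (nat_lit 380)
(.spl (nat_lit 1) (nat_lit 260)
(.trX (nat_lit 13) (nat_lit 63) (nat_lit 61) (nat_lit 100) (nat_lit 364) (.leaf p024_l189))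
(.leaf p024_l190))
(.trX (nat_lit 13) (nat_lit 48) (nat_lit 71) (nat_lit 100) (nat_lit 352) (.leaf p024_l191)))))
(.st (nat_lit 1)
(.spl (nat_lit 0) (nat_lit 380)
(.leaf p024_l192)
(.trZ (nat_lit 0) (nat_lit 100) (nat_lit 44) (nat_lit 99) (nat_lit 148) (.trX (nat_lit 13) (nat_lit 48) (nat_lit 71) (nat_lit 100) (nat_lit 352) (.leaf p024_l193))))
(.leaf p024_l194))))) (by decide +kernel)
noncomputable def p024_l195 : Lf2 := ⟨nat_lit 0, nat_lit 10, [nat_lit 0, nat_lit 5, nat_lit 5, nat_lit 20], false, nat_lit 0, nat_lit 0, nat_lit 0, nat_lit 0, ⟨nat_lit 981, nat_lit 0, nat_lit 19, nat_lit 6, nat_lit 251, nat_lit 0, nat_lit 0, nat_lit 0, nat_lit 0, nat_lit 215, nat_lit 442370, nat_lit 200, nat_lit 48094281, nat_lit 0, nat_lit 0, nat_lit 2974977, false, false⟩,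
 nat_lit 0, nat_lit 0, nat_lit 0, nat_lit 0, nat_lit 0, nat_lit 0, nat_lit 0, nat_lit 0, nat_lit 0, nat_lit 0, nat_lit 0, nat_lit 0, nat_lit 0, nat_lit 0, nat_lit 0, nat_lit 3135, nat_lit 0, nat_lit 0, [(nat_lit 24, [(nat_lit 3, nat_lit 19)]), (nat_lit 27, [(nat_lit 3, nat_lit 19)])],
 ⟨p024_k25, nat_lit 0, nat_lit 0, nat_lit 172, nat_lit 0, nat_lit 0, [nat_lit 1004325200, nat_lit 3215652001, nat_lit 4587072000], [], [nat_lit 33690261202, nat_lit 35102030002, nat_lit 40394573202, nat_lit 41495151202], nat_lit 0, nat_lit 0, nat_lit 0, nat_lit 0, nat_lit 0, nat_lit 0, [], [nat_lit 35, nat_lit 40, nat_lit 80, nat_lit 80, nat_lit 22, nat_lit 317, nat_lit 100, nat_lit 14]⟩, ⟨p024_k37, nat_lit 0, nat_lit 0, nat_lit 242, nat_lit 0, nat_lit 0, [nat_lit 4598928000, nat_lit 7816608000, nat_lit 11646432000], [], [nat_lit 36484347456, nat_lit 37648413044, nat_lit 43232713164, nat_lit 44159411283], nat_lit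 0, nat_lit 0, nat_lit 0, nat_lit 0, nat_lit 0, nat_lit 0, [], [nat_lit 21, nat_lit 40, nat_lit 80, nat_lit 80, nat_lit 14, nat_lit 401, nat_lit 175, nat_lit 10]⟩,
 ⟨nat_lit 0, nat_lit 3163, ⟨.ofNat (nat_lit 401957), .ofNat (nat_lit 812499), .ofNat (nat_lit 443658), .ofNat (nat_lit 856810), .ofNat (nat_lit 431745), .ofNat (nat_lit 769995), .ofNat (nat_lit 479136), .ofNat (nat_lit 819996)⟩, ⟨.ofNat (nat_lit 0), .ofNat (nat_lit 0), .ofNat (nat_lit 0), .ofNat (nat_lit 0), .ofNat (nat_lit 0), .ofNat (nat_lit 0), .ofNat (nat_lit 0), .ofNat (nat_lit 0)⟩⟩, [⟨nat_lit 0, nat_lit 96, nat_lit 44, nat_lit 100, nat_lit 503735569⟩]⟩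
noncomputable def p024_l196 : Lf2 := ⟨nat_lit 0, nat_lit 10, [nat_lit 0, nat_lit 5, nat_lit 5, nat_lit 20], true, nat_lit 0, nat_lit 0, nat_lit 0, nat_lit 0, ⟨nat_lit 0, nat_lit 381, nat_lit 619, nat_lit 6, nat_lit 213, nat_lit 0, nat_lit 0, nat_lit 0, nat_lit 0, nat_lit 215, nat_lit 23440, nat_lit 200, nat_lit 52221722, nat_lit 14778278, nat_lit 0, nat_lit 2638149, false, false⟩,
 nat_lit 0, nat_lit 0, nat_lit 0, nat_lit 0, nat_lit 2277, nat_lit 0, nat_lit 0, nat_lit 0, nat_lit 0, nat_lit 0, nat_lit 0, nat_lit 0, nat_lit 0, nat_lit 0, nat_lit 1, nat_lit 250000, nat_lit 0, nat_lit 0, [(nat_lit 24, [(nat_lit 0, nat_lit 381), (nat_lit 4, nat_lit 619)]), (nat_lit 27, [(nat_lit 0, nat_lit 381), (nat_lit 4, nat_lit 619)])],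
 ⟨p024_k25, nat_lit 0, nat_lit 0, nat_lit 161, nat_lit 0, nat_lit 0, [nat_lit 772915200, nat_lit 267228400, nat_lit 15159600], [], [nat_lit 19067227243, nat_lit 22100390336, nat_lit 21914471488, nat_lit 24516438384], nat_lit 0, nat_lit 0, nat_lit 0, nat_lit 0, nat_lit 0, nat_lit 0, [], [nat_lit 35, nat_lit 40, nat_lit 80, nat_lit 80, nat_lit 22, nat_lit 272, nat_lit 60, nat_lit 12]⟩, C1.Rw.none,
 ⟨nat_lit 0, nat_lit 3163, ⟨.ofNat (nat_lit 401957), .ofNat (nat_lit 605128), .ofNat (nat_lit 443658), .ofNat (nat_lit 646918), .ofNat (nat_lit 431745), .ofNat (nat_lit 599865), .ofNat (nat_lit 479136), .ofNat (nat_lit 647345)⟩, ⟨.ofNat (nat_lit 0), .ofNat (nat_lit 0), .ofNat (nat_lit 0), .ofNat (nat_lit 0), .ofNat (nat_lit 0), .ofNat (nat_lit 0), .ofNat (nat_lit 0), .ofNat (nat_lit 0)⟩⟩, []⟩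
noncomputable def p024_l197 : Lf2 := ⟨nat_lit 0, nat_lit 10, [nat_lit 0, nat_lit 5, nat_lit 5, nat_lit 20], true, nat_lit 0, nat_lit 0, nat_lit 0, nat_lit 0, ⟨nat_lit 0, nat_lit 1000, nat_lit 0, nat_lit 6, nat_lit 272, nat_lit 0, nat_lit 0, nat_lit 0, nat_lit 0, nat_lit 0, nat_lit 0, nat_lit 0, nat_lit 45773053, nat_lit 21226947, nat_lit 0, nat_lit 3122245, true, true⟩,
 nat_lit 0, nat_lit 0, nat_lit 0, nat_lit 0, nat_lit 2607, nat_lit 0, nat_lit 121, nat_lit 0, nat_lit 0, nat_lit 0, nat_lit 0, nat_lit 0, nat_lit 0, nat_lit 0, nat_lit 0, nat_lit 250000, nat_lit 0, nat_lit 0, [(nat_lit 24, [(nat_lit 0, nat_lit 1000)]), (nat_lit 27, [(nat_lit 0, nat_lit 1000)])],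
 ⟨p024_k25, nat_lit 0, nat_lit 0, nat_lit 155, nat_lit 0, nat_lit 0, [nat_lit 780800001, nat_lit 1367200000, nat_lit 1705600000], [], [nat_lit 23772113059, nat_lit 25988360507, nat_lit 26663212903, nat_lit 28570555115], nat_lit 0, nat_lit 0, nat_lit 0, nat_lit 0, nat_lit 0, nat_lit 0, [], [nat_lit 35, nat_lit 40, nat_lit 80, nat_lit 80, nat_lit 22, nat_lit 203, nat_lit 0, nat_lit 8]⟩, C1.Rw.none,
 ⟨nat_lit 0, nat_lit 3163, ⟨.ofNat (nat_lit 605128), .ofNat (nat_lit 727166), .ofNat (nat_lit 646918), .ofNat (nat_lit 771478), .ofNat (nat_lit 599865), .ofNat (nat_lit 699997), .ofNat (nat_lit 647345), .ofNat (nat_lit 749999)⟩, ⟨.ofNat (nat_lit 0), .ofNat (nat_lit 0), .ofNat (nat_lit 0), .ofNat (nat_lit 0), .ofNat (nat_lit 0), .ofNat (nat_lit 0), .ofNat (nat_lit 0), .ofNat (nat_lit 0)⟩⟩, [⟨nat_lit 13, nat_lit 46, nat_lit 76, nat_lit 100, nat_lit 14323647⟩]⟩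
noncomputable def p024_l198 : Lf2 := ⟨nat_lit 0, nat_lit 10, [nat_lit 0, nat_lit 5, nat_lit 5, nat_lit 20], true, nat_lit 0, nat_lit 0, nat_lit 0, nat_lit 0, ⟨nat_lit 0, nat_lit 1000, nat_lit 0, nat_lit 8, nat_lit 310, nat_lit 0, nat_lit 0, nat_lit 0, nat_lit 0, nat_lit 0, nat_lit 0, nat_lit 0, nat_lit 41818431, nat_lit 25181569, nat_lit 0, nat_lit 3309964, true, true⟩,
 nat_lit 0, nat_lit 0, nat_lit 0, nat_lit 0, nat_lit 2714, nat_lit 0, nat_lit 24, nat_lit 0, nat_lit 0, nat_lit 0, nat_lit 0, nat_lit 0, nat_lit 0, nat_lit 0, nat_lit 0, nat_lit 304300, nat_lit 0, nat_lit 0, [(nat_lit 24, [(nat_lit 0, nat_lit 638), (nat_lit 1, nat_lit 362)]), (nat_lit 27, [(nat_lit 0, nat_lit 638), (nat_lit 1, nat_lit 362)])],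
 ⟨p024_k25, nat_lit 0, nat_lit 0, nat_lit 172, nat_lit 0, nat_lit 0, [nat_lit 805126400, nat_lit 1233308267, nat_lit 1433665600], [], [nat_lit 27139829070, nat_lit 28987314102, nat_lit 29449943957, nat_lit 31681288720], nat_lit 0, nat_lit 0, nat_lit 0, nat_lit 0, nat_lit 0, nat_lit 0, [], [nat_lit 35, nat_lit 40, nat_lit 80, nat_lit 80, nat_lit 22, nat_lit 203, nat_lit 0, nat_lit 7]⟩, C1.Rw.none,
 ⟨nat_lit 0, nat_lit 3163, ⟨.ofNat (nat_lit 727166), .ofNat (nat_lit 812499), .ofNat (nat_lit 771478), .ofNat (nat_lit 856810), .ofNat (nat_lit 699997), .ofNat (nat_lit 769995), .ofNat (nat_lit 749999), .ofNat (nat_lit 819996)⟩, ⟨.ofNat (nat_lit 0), .ofNat (nat_lit 0), .ofNat (nat_lit 0), .ofNat (nat_lit 0), .ofNat (nat_lit 0), .ofNat (nat_lit 0), .ofNat (nat_lit 0), .ofNat (nat_lit 0)⟩⟩, [⟨nat_lit 13, nat_lit 65, nat_lit 54, nat_lit 100, nat_lit 284511659⟩]⟩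
noncomputable def p024_l199 : Lf2 := ⟨nat_lit 0, nat_lit 10, [nat_lit 0, nat_lit 5, nat_lit 5, nat_lit 20], true, nat_lit 0, nat_lit 0, nat_lit 0, nat_lit 0, ⟨nat_lit 0, nat_lit 1000, nat_lit 0, nat_lit 6, nat_lit 251, nat_lit 0, nat_lit 0, nat_lit 0, nat_lit 0, nat_lit 0, nat_lit 0, nat_lit 0, nat_lit 0, nat_lit 0, nat_lit 0, nat_lit 5000000, false, false⟩,
 nat_lit 0, nat_lit 0, nat_lit 0, nat_lit 0, nat_lit 2714, nat_lit 0, nat_lit 24, nat_lit 0, nat_lit 0, nat_lit 0, nat_lit 0, nat_lit 0, nat_lit 0, nat_lit 0, nat_lit 0, nat_lit 304300, nat_lit 0, nat_lit 0, [(nat_lit 24, [(nat_lit 0, nat_lit 638), (nat_lit 1, nat_lit 362)]), (nat_lit 27, [(nat_lit 0, nat_lit 638), (nat_lit 1, nat_lit 362)])],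
 ⟨p024_k25, nat_lit 0, nat_lit 0, nat_lit 172, nat_lit 0, nat_lit 0, [nat_lit 805126400, nat_lit 1233308267, nat_lit 1433665600], [], [nat_lit 21539147733, nat_lit 24108001122, nat_lit 29449943957, nat_lit 31681288720], nat_lit 0, nat_lit 0, nat_lit 0, nat_lit 0, nat_lit 0, nat_lit 0, [], [nat_lit 35, nat_lit 40, nat_lit 80, nat_lit 80, nat_lit 22, nat_lit 317, nat_lit 100, nat_lit 14]⟩, C1.Rw.none,
 ⟨nat_lit 0, nat_lit 3163, ⟨.ofNat (nat_lit 401957), .ofNat (nat_lit 812499), .ofNat (nat_lit 443658), .ofNat (nat_lit 856810), .ofNat (nat_lit 431745), .ofNat (nat_lit 769995), .ofNat (nat_lit 479136), .ofNat (nat_lit 819996)⟩, ⟨.ofNat (nat_lit 0), .ofNat (nat_lit 0), .ofNat (nat_lit 0), .ofNat (nat_lit 0), .ofNat (nat_lit 0), .ofNat (nat_lit 0), .ofNat (nat_lit 0), .ofNat (nat_lit 0)⟩⟩, [⟨nat_lit 13, nat_lit 65, nat_lit 54, nat_lit 100, nat_lit 398104729⟩]⟩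
noncomputable def p024_l200 : Lf2 := ⟨nat_lit 0, nat_lit 10, [nat_lit 0, nat_lit 5, nat_lit 5, nat_lit 20], false, nat_lit 0, nat_lit 0, nat_lit 0, nat_lit 0, ⟨nat_lit 767, nat_lit 0, nat_lit 233, nat_lit 6, nat_lit 253, nat_lit 0, nat_lit 0, nat_lit 0, nat_lit 0, nat_lit 215, nat_lit 442376, nat_lit 200, nat_lit 47873981, nat_lit 0, nat_lit 0, nat_lit 2990194, false, false⟩,
 nat_lit 0, nat_lit 4513, nat_lit 0, nat_lit 0, nat_lit 3930, nat_lit 5082, nat_lit 162, nat_lit 0, nat_lit 0, nat_lit 839, nat_lit 0, nat_lit 0, nat_lit 0, nat_lit 0, nat_lit 0, nat_lit 233000, nat_lit 0, nat_lit 0, [(nat_lit 24, [(nat_lit 6, nat_lit 233)])],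
 ⟨p024_k25, nat_lit 0, nat_lit 0, nat_lit 535, nat_lit 0, nat_lit 1139220, [nat_lit 1034182401, nat_lit 1995591467, nat_lit 2455114400], [], [nat_lit 28197223344, nat_lit 29037257744, nat_lit 33614087350, nat_lit 34230113470], nat_lit 1271250, nat_lit 1271250, nat_lit 719601, nat_lit 2861300, nat_lit 0, nat_lit 0, [nat_lit 230000, nat_lit 780000, nat_lit 1100000], [nat_lit 35, nat_lit 40, nat_lit 80, nat_lit 80, nat_lit 22, nat_lit 317, nat_lit 100, nat_lit 14]⟩, ⟨p024_k37, nat_lit 0, nat_lit 0, nat_lit 242, nat_lit 0, nat_lit 0, [nat_lit 3595696000, nat_lit 6111456000, nat_lit 9105824000], [], [nat_lit 19077764793, nat_lit 20863589233, nat_lit 27514389085, nat_lit 28548095003], nat_lit 0, nat_lit 0, nat_lit 0, nat_lit 0, nat_lit 0, nat_lit 0, [], [nat_lit 21, nat_lit 40, nat_lit 80, nat_lit 80, nat_lit 14, nat_lit 401, nat_lit 175, nat_lit 10]⟩,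
 ⟨nat_lit 2236, nat_lit 3163, ⟨.ofNat (nat_lit 409856), .ofNat (nat_lit 812503), .ofNat (nat_lit 454039), .ofNat (nat_lit 856813), .ofNat (nat_lit 419758), .ofNat (nat_lit 796416), .ofNat (nat_lit 465180), .ofNat (nat_lit 841964)⟩, ⟨.ofNat (nat_lit 0), .ofNat (nat_lit 0), .ofNat (nat_lit 0), .ofNat (nat_lit 0), .ofNat (nat_lit 0), .ofNat (nat_lit 0), .ofNat (nat_lit 0), .ofNat (nat_lit 0)⟩⟩, [⟨nat_lit 0, nat_lit 92, nat_lit 44, nat_lit 100, nat_lit 207773294⟩]⟩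
noncomputable def p024_l201 : Lf2 := ⟨nat_lit 0, nat_lit 10, [nat_lit 0, nat_lit 5, nat_lit 5, nat_lit 20], false, nat_lit 0, nat_lit 0, nat_lit 0, nat_lit 0, ⟨nat_lit 1000, nat_lit 0, nat_lit 0, nat_lit 0, nat_lit 0, nat_lit 0, nat_lit 0, nat_lit 0, nat_lit 0, nat_lit 0, nat_lit 0, nat_lit 0, nat_lit 0, nat_lit 0, nat_lit 0, nat_lit 0, false, false⟩,
 nat_lit 0, nat_lit 3761, nat_lit 0, nat_lit 0, nat_lit 3513, nat_lit 2136, nat_lit 627, nat_lit 0, nat_lit 0, nat_lit 0, nat_lit 0, nat_lit 0, nat_lit 0, nat_lit 0, nat_lit 0, nat_lit 0, nat_lit 0, nat_lit 0, [],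
 ⟨p024_k30, nat_lit 0, nat_lit 0, nat_lit 484, nat_lit 0, nat_lit 1181259, [nat_lit 938000000, nat_lit 3282000000], [], [nat_lit 26070920049, nat_lit 27172258395, nat_lit 32031787264, nat_lit 32883488736], nat_lit 1271250, nat_lit 1271250, nat_lit 1000851, nat_lit 2724650, nat_lit 0, nat_lit 0, [nat_lit 230000, nat_lit 780000], [nat_lit 66, nat_lit 40, nat_lit 80, nat_lit 80, nat_lit 67, nat_lit 215, nat_lit 0, nat_lit 11]⟩, ⟨p024_k36, nat_lit 0, nat_lit 0, nat_lit 215, nat_lit 0, nat_lit 0, [nat_lit 4688000000, nat_lit 11872000000], [], [nat_lit 36115318066, nat_lit 37611242677, nat_lit 42442098618, nat_lit 43487246170], nat_lit 0, nat_lit 0, nat_lit 0, nat_lit 0, nat_lit 0, nat_lit 0, [], [nat_lit 116, nat_lit 40, nat_lit 80, nat_lit 80, nat_lit 65, nat_lit 401, nat_lit 175, nat_lit 10]⟩,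
 zbF0, [⟨nat_lit 0, nat_lit 95, nat_lit 31, nat_lit 100, nat_lit 530918072⟩]⟩
noncomputable def p024_l202 : Lf2 := ⟨nat_lit 0, nat_lit 10, [nat_lit 0, nat_lit 5, nat_lit 5, nat_lit 20], false, nat_lit 0, nat_lit 0, nat_lit 0, nat_lit 0, ⟨nat_lit 163, nat_lit 339, nat_lit 498, nat_lit 6, nat_lit 213, nat_lit 0, nat_lit 0, nat_lit 0, nat_lit 0, nat_lit 215, nat_lit 23440, nat_lit 200, nat_lit 52221722, nat_lit 14778278, nat_lit 0, nat_lit 2638149, false, false⟩,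
 nat_lit 3325, nat_lit 0, nat_lit 0, nat_lit 0, nat_lit 2895, nat_lit 1760, nat_lit 0, nat_lit 0, nat_lit 0, nat_lit 171, nat_lit 0, nat_lit 0, nat_lit 0, nat_lit 0, nat_lit 0, nat_lit 283950, nat_lit 0, nat_lit 0, [(nat_lit 24, [(nat_lit 0, nat_lit 339), (nat_lit 5, nat_lit 498)]), (nat_lit 27, [(nat_lit 0, nat_lit 339), (nat_lit 5, nat_lit 498)])],
 ⟨p024_k25, nat_lit 0, nat_lit 0, nat_lit 386, nat_lit 0, nat_lit 727203, [nat_lit 780527600, nat_lit 612928401, nat_lit 457496000], [], [nat_lit 21803993486, nat_lit 23930708354, nat_lit 24279506181, nat_lit 26071360041], nat_lit 1271250, nat_lit 1271250, nat_lit 719601, nat_lit 1758000, nat_lit 0, nat_lit 0, [nat_lit 230000, nat_lit 780000, nat_lit 1100000], [nat_lit 35, nat_lit 40, nat_lit 80, nat_lit 80, nat_lit 22, nat_lit 272, nat_lit 60, nat_lit 12]⟩, ⟨p024_k37, nat_lit 0, nat_lit 0, nat_lit 900, nat_lit 0, nat_lit 1294380, [nat_lit 764144000,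 nat_lit 1298784000, nat_lit 1935136000], [], [nat_lit 6527169828, nat_lit 5410056777, nat_lit 6421167516, nat_lit 5080925404], nat_lit 1271250, nat_lit 1271250, nat_lit 719601, nat_lit 1758000, nat_lit 0, nat_lit 0, [nat_lit 1100000, nat_lit 1785000, nat_lit 1271250], [nat_lit 21, nat_lit 40, nat_lit 80, nat_lit 80, nat_lit 14, nat_lit 373, nat_lit 150, nat_lit 10]⟩,
 ⟨nat_lit 0, nat_lit 3163, ⟨.ofNat (nat_lit 401957), .ofNat (nat_lit 605128), .ofNat (nat_lit 443658), .ofNat (nat_lit 646918), .ofNat (nat_lit 431745), .ofNat (nat_lit 599865), .ofNat (nat_lit 479136), .ofNat (nat_lit 647345)⟩, ⟨.ofNat (nat_lit 0), .ofNat (nat_lit 0), .ofNat (nat_lit 0), .ofNat (nat_lit 0), .ofNat (nat_lit 0), .ofNat (nat_lit 0), .ofNat (nat_lit 0), .ofNat (nat_lit 0)⟩⟩, [⟨nat_lit 0, nat_lit 96, nat_lit 44, nat_lit 100, nat_lit 35262410⟩]⟩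
noncomputable def p024_l203 : Lf2 := ⟨nat_lit 0, nat_lit 10, [nat_lit 0, nat_lit 5, nat_lit 5, nat_lit 20], false, nat_lit 0, nat_lit 0, nat_lit 0, nat_lit 0, ⟨nat_lit 208, nat_lit 792, nat_lit 0, nat_lit 6, nat_lit 283, nat_lit 0, nat_lit 0, nat_lit 0, nat_lit 0, nat_lit 0, nat_lit 0, nat_lit 0, nat_lit 44598451, nat_lit 22401549, nat_lit 0, nat_lit 3186087, true, true⟩,
 nat_lit 3598, nat_lit 0, nat_lit 0, nat_lit 0, nat_lit 3133, nat_lit 1904, nat_lit 19, nat_lit 0, nat_lit 0, nat_lit 162, nat_lit 0, nat_lit 0, nat_lit 0, nat_lit 0, nat_lit 0, nat_lit 363600, nat_lit 0, nat_lit 0, [(nat_lit 24, [(nat_lit 1, nat_lit 714), (nat_lit 2, nat_lit 78)])],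
 ⟨p024_k25, nat_lit 0, nat_lit 0, nat_lit 322, nat_lit 0, nat_lit 563955, [nat_lit 915080000, nat_lit 1357873601, nat_lit 1493432000], [], [nat_lit 26370459917, nat_lit 26810417393, nat_lit 30176603631, nat_lit 30537566867], nat_lit 1271250, nat_lit 1271250, nat_lit 1271250, nat_lit 1271250, nat_lit 0, nat_lit 0, [nat_lit 230000, nat_lit 780000, nat_lit 1100000], [nat_lit 35, nat_lit 40, nat_lit 80, nat_lit 80, nat_lit 22, nat_lit 203, nat_lit 0, nat_lit 8]⟩, ⟨p024_k37, nat_lit 0, nat_lit 0, nat_lit 713, nat_lit 0, nat_lit 1003808, [nat_lit 975104000, nat_lit 1657344000, nat_lit 2469376000], [], [nat_lit 7814489728, nat_lit 7866998048, nat_lit 8327006468, nat_lit 8344167858], nat_lit 1271250, nat_lit 1271250, nat_lit 1271250, nat_lit 1271250, nat_lit 0, nat_lit 0, [nat_lit 1100000, nat_lit 1785000, nat_lit 1271250], [nat_lit 21, nat_lit 40, nat_lit 80, nat_lit 80, nat_lit 14, nat_lit 401,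 nat_lit 175, nat_lit 10]⟩,
 ⟨nat_lit 2738, nat_lit 3163, ⟨.ofNat (nat_lit 605257), .ofNat (nat_lit 794217), .ofNat (nat_lit 627400), .ofNat (nat_lit 816372), .ofNat (nat_lit 603890), .ofNat (nat_lit 786985), .ofNat (nat_lit 626295), .ofNat (nat_lit 809402)⟩, ⟨.ofNat (nat_lit 0), .ofNat (nat_lit 0), .ofNat (nat_lit 0), .ofNat (nat_lit 0), .ofNat (nat_lit 0), .ofNat (nat_lit 0), .ofNat (nat_lit 0), .ofNat (nat_lit 0)⟩⟩, [⟨nat_lit 13, nat_lit 58, nat_lit 68, nat_lit 100, nat_lit 75942873⟩]⟩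
noncomputable def p024_l204 : Lf2 := ⟨nat_lit 0, nat_lit 10, [nat_lit 0, nat_lit 5, nat_lit 5, nat_lit 20], false, nat_lit 0, nat_lit 0, nat_lit 0, nat_lit 0, ⟨nat_lit 650, nat_lit 350, nat_lit 0, nat_lit 6, nat_lit 296, nat_lit 0, nat_lit 0, nat_lit 0, nat_lit 0, nat_lit 0, nat_lit 0, nat_lit 0, nat_lit 43292494, nat_lit 23707506, nat_lit 0, nat_lit 3248966, true, true⟩,
 nat_lit 8010, nat_lit 0, nat_lit 0, nat_lit 0, nat_lit 4069, nat_lit 4662, nat_lit 0, nat_lit 0, nat_lit 0, nat_lit 996, nat_lit 0, nat_lit 0, nat_lit 0, nat_lit 0, nat_lit 0, nat_lit 350000, nat_lit 0, nat_lit 0, [(nat_lit 24, [(nat_lit 2, nat_lit 350)])],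
 ⟨p024_k25, nat_lit 0, nat_lit 0, nat_lit 334, nat_lit 0, nat_lit 597536, [nat_lit 1123500000, nat_lit 1967820001, nat_lit 2315280000], [], [nat_lit 27011583955, nat_lit 27502433623, nat_lit 33296662334, nat_lit 33963228281], nat_lit 1271250, nat_lit 1271250, nat_lit 1271250, nat_lit 1271250, nat_lit 0, nat_lit 0, [nat_lit 230000, nat_lit 780000, nat_lit 1100000], [nat_lit 35, nat_lit 40, nat_lit 80, nat_lit 80, nat_lit 22, nat_lit 203, nat_lit 0, nat_lit 8]⟩, ⟨p024_k38, nat_lit 0, nat_lit 0, nat_lit 621, nat_lit 0, nat_lit 950123, [nat_lit 3047200000, nat_lit 5179200000, nat_lit 6397300000], [], [nat_lit 21610864132, nat_lit 21789322024, nat_lit 23256295616, nat_lit 23346682893], nat_lit 1271250, nat_lit 1271250, nat_lit 1271250, nat_lit 1271250, nat_lit 0, nat_lit 0, [nat_lit 1100000, nat_lit 1785000, nat_lit 1271250], [nat_lit 29, nat_lit 40, nat_lit 80, nat_lit 80, nat_lit 17, nat_lit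 401, nat_lit 175, nat_lit 11]⟩,
 ⟨nat_lit 2738, nat_lit 3163, ⟨.ofNat (nat_lit 627400), .ofNat (nat_lit 834658), .ofNat (nat_lit 649542), .ofNat (nat_lit 856813), .ofNat (nat_lit 626295), .ofNat (nat_lit 827121), .ofNat (nat_lit 648700), .ofNat (nat_lit 849538)⟩, ⟨.ofNat (nat_lit 0), .ofNat (nat_lit 0), .ofNat (nat_lit 0), .ofNat (nat_lit 0), .ofNat (nat_lit 0), .ofNat (nat_lit 0), .ofNat (nat_lit 0), .ofNat (nat_lit 0)⟩⟩, []⟩
noncomputable def p024_l205 : Lf2 := ⟨nat_lit 0, nat_lit 10, [nat_lit 0, nat_lit 5, nat_lit 5, nat_lit 20], false, nat_lit 0, nat_lit 0, nat_lit 0, nat_lit 0, ⟨nat_lit 197, nat_lit 803, nat_lit 0, nat_lit 6, nat_lit 278, nat_lit 0, nat_lit 0, nat_lit 0, nat_lit 0, nat_lit 0, nat_lit 0, nat_lit 0, nat_lit 45145209, nat_lit 21854791, nat_lit 0, nat_lit 3157240, true, true⟩,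
 nat_lit 3336, nat_lit 0, nat_lit 0, nat_lit 0, nat_lit 3010, nat_lit 1766, nat_lit 185, nat_lit 0, nat_lit 0, nat_lit 138, nat_lit 0, nat_lit 0, nat_lit 0, nat_lit 0, nat_lit 0, nat_lit 200750, nat_lit 0, nat_lit 0, [(nat_lit 24, [(nat_lit 0, nat_lit 803)])],
 ⟨p024_k27, nat_lit 0, nat_lit 0, nat_lit 328, nat_lit 0, nat_lit 585510, [nat_lit 797635601, nat_lit 1744415600, nat_lit 2293132800], [], [nat_lit 26193654404, nat_lit 26659581874, nat_lit 29737399939, nat_lit 30119457105], nat_lit 1271250, nat_lit 1271250, nat_lit 1271250, nat_lit 1271250, nat_lit 0, nat_lit 0, [nat_lit 230000, nat_lit 780000, nat_lit 1100000], [nat_lit 35, nat_lit 40, nat_lit 80, nat_lit 80, nat_lit 22, nat_lit 203, nat_lit 0, nat_lit 8]⟩, ⟨p024_k37, nat_lit 0, nat_lit 0, nat_lit 744, nat_lit 0, nat_lit 1084452, [nat_lit 923536000, nat_lit 1569696000, nat_lit 2338784000], [], [nat_lit 7672947008, nat_lit 7687065850,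 nat_lit 7978522755, nat_lit 8002937024], nat_lit 1271250, nat_lit 1271250, nat_lit 1271250, nat_lit 1271250, nat_lit 0, nat_lit 0, [nat_lit 1100000, nat_lit 1785000, nat_lit 1271250], [nat_lit 21, nat_lit 40, nat_lit 80, nat_lit 80, nat_lit 14, nat_lit 401, nat_lit 175, nat_lit 10]⟩,
 ⟨nat_lit 2236, nat_lit 2739, ⟨.ofNat (nat_lit 603890), .ofNat (nat_lit 769266), .ofNat (nat_lit 626287), .ofNat (nat_lit 791684), .ofNat (nat_lit 602558), .ofNat (nat_lit 762206), .ofNat (nat_lit 625312), .ofNat (nat_lit 784980)⟩, ⟨.ofNat (nat_lit 0), .ofNat (nat_lit 0), .ofNat (nat_lit 0), .ofNat (nat_lit 0), .ofNat (nat_lit 0), .ofNat (nat_lit 0), .ofNat (nat_lit 0), .ofNat (nat_lit 0)⟩⟩, [⟨nat_lit 13, nat_lit 50, nat_lit 75, nat_lit 100, nat_lit 106657422⟩]⟩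
noncomputable def p024_l206 : Lf2 := ⟨nat_lit 0, nat_lit 10, [nat_lit 0, nat_lit 5, nat_lit 5, nat_lit 20], false, nat_lit 0, nat_lit 0, nat_lit 0, nat_lit 0, ⟨nat_lit 754, nat_lit 246, nat_lit 0, nat_lit 6, nat_lit 292, nat_lit 0, nat_lit 0, nat_lit 0, nat_lit 0, nat_lit 0, nat_lit 0, nat_lit 0, nat_lit 43709409, nat_lit 23290591, nat_lit 0, nat_lit 3229805, true, true⟩,
 nat_lit 9311, nat_lit 0, nat_lit 0, nat_lit 0, nat_lit 4054, nat_lit 5419, nat_lit 277, nat_lit 0, nat_lit 0, nat_lit 1255, nat_lit 0, nat_lit 0, nat_lit 0, nat_lit 0, nat_lit 0, nat_lit 61500, nat_lit 0, nat_lit 0, [(nat_lit 24, [(nat_lit 0, nat_lit 246)])],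
 ⟨p024_k27, nat_lit 0, nat_lit 0, nat_lit 340, nat_lit 0, nat_lit 615080, [nat_lit 894999201, nat_lit 2810959200, nat_lit 3954329600], [], [nat_lit 26526689464, nat_lit 27063458700, nat_lit 33397846074, nat_lit 34079954447], nat_lit 1271250, nat_lit 1271250, nat_lit 1271250, nat_lit 1271250, nat_lit 0, nat_lit 0, [nat_lit 230000, nat_lit 780000, nat_lit 1100000], [nat_lit 35, nat_lit 40, nat_lit 80, nat_lit 80, nat_lit 22, nat_lit 203, nat_lit 0, nat_lit 8]⟩, ⟨p024_k38, nat_lit 0, nat_lit 0, nat_lit 649, nat_lit 0, nat_lit 1017694, [nat_lit 3534752000, nat_lit 6007872000, nat_lit 7420868000], [], [nat_lit 24850365740, nat_lit 25007964648, nat_lit 26290030070, nat_lit 26386299543], nat_lit 1271250, nat_lit 1271250, nat_lit 1271250, nat_lit 1271250, nat_lit 0, nat_lit 0, [nat_lit 1100000, nat_lit 1785000, nat_lit 1271250], [nat_lit 29, nat_lit 40, nat_lit 80, nat_lit 80, nat_lit 17, nat_lit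 401, nat_lit 175, nat_lit 11]⟩,
 ⟨nat_lit 2236, nat_lit 2739, ⟨.ofNat (nat_lit 626287), .ofNat (nat_lit 815308), .ofNat (nat_lit 648684), .ofNat (nat_lit 837726), .ofNat (nat_lit 625312), .ofNat (nat_lit 807787), .ofNat (nat_lit 648065), .ofNat (nat_lit 830561)⟩, ⟨.ofNat (nat_lit 0), .ofNat (nat_lit 0), .ofNat (nat_lit 0), .ofNat (nat_lit 0), .ofNat (nat_lit 0), .ofNat (nat_lit 0), .ofNat (nat_lit 0), .ofNat (nat_lit 0)⟩⟩, []⟩
noncomputable def p024_l207 : Lf2 := ⟨nat_lit 0, nat_lit 10, [nat_lit 0, nat_lit 5, nat_lit 5, nat_lit 20], false, nat_lit 0, nat_lit 0, nat_lit 0, nat_lit 0, ⟨nat_lit 167, nat_lit 833, nat_lit 0, nat_lit 6, nat_lit 280, nat_lit 0, nat_lit 0, nat_lit 0, nat_lit 0, nat_lit 0, nat_lit 0, nat_lit 0, nat_lit 44983207, nat_lit 22016793, nat_lit 0, nat_lit 3165944, true, true⟩,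
 nat_lit 2921, nat_lit 0, nat_lit 0, nat_lit 0, nat_lit 2729, nat_lit 1546, nat_lit 0, nat_lit 0, nat_lit 0, nat_lit 127, nat_lit 0, nat_lit 0, nat_lit 0, nat_lit 0, nat_lit 0, nat_lit 326300, nat_lit 0, nat_lit 0, [(nat_lit 27, [(nat_lit 0, nat_lit 46), (nat_lit 1, nat_lit 787)])],
 ⟨p024_k30, nat_lit 0, nat_lit 0, nat_lit 316, nat_lit 0, nat_lit 672214, [nat_lit 741574001, nat_lit 851365600], [], [nat_lit 25776738144, nat_lit 26812099764, nat_lit 29681575974, nat_lit 30526835361], nat_lit 1271250, nat_lit 1271250, nat_lit 1271250, nat_lit 1271250, nat_lit 0, nat_lit 0, [nat_lit 230000, nat_lit 780000], [nat_lit 66, nat_lit 40, nat_lit 80, nat_lit 80, nat_lit 67, nat_lit 203, nat_lit 0, nat_lit 10]⟩, ⟨p024_k37, nat_lit 0, nat_lit 0, nat_lit 850, nat_lit 0, nat_lit 1294380, [nat_lit 782896000, nat_lit 1330656000, nat_lit 1982624000], [], [nat_lit 6498339404, nat_lit 6530986504, nat_lit 6695814923,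 nat_lit 6689642322], nat_lit 1271250, nat_lit 1271250, nat_lit 1271250, nat_lit 1271250, nat_lit 0, nat_lit 0, [nat_lit 1100000, nat_lit 1785000, nat_lit 1271250], [nat_lit 21, nat_lit 40, nat_lit 80, nat_lit 80, nat_lit 14, nat_lit 401, nat_lit 175, nat_lit 10]⟩,
 ⟨nat_lit 0, nat_lit 2237, ⟨.ofNat (nat_lit 602531), .ofNat (nat_lit 762201), .ofNat (nat_lit 646249), .ofNat (nat_lit 807752), .ofNat (nat_lit 599967), .ofNat (nat_lit 739994), .ofNat (nat_lit 648136), .ofNat (nat_lit 789996)⟩, ⟨.ofNat (nat_lit 0), .ofNat (nat_lit 0), .ofNat (nat_lit 0), .ofNat (nat_lit 0), .ofNat (nat_lit 0), .ofNat (nat_lit 0), .ofNat (nat_lit 0), .ofNat (nat_lit 0)⟩⟩, [⟨nat_lit 13, nat_lit 33, nat_lit 85, nat_lit 100, nat_lit 238122425⟩]⟩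
noncomputable def p024_l208 : Lf2 := ⟨nat_lit 0, nat_lit 10, [nat_lit 0, nat_lit 5, nat_lit 5, nat_lit 20], false, nat_lit 0, nat_lit 0, nat_lit 0, nat_lit 0, ⟨nat_lit 687, nat_lit 313, nat_lit 0, nat_lit 6, nat_lit 251, nat_lit 0, nat_lit 0, nat_lit 0, nat_lit 0, nat_lit 0, nat_lit 0, nat_lit 0, nat_lit 0, nat_lit 0, nat_lit 0, nat_lit 5000000, false, false⟩,
 nat_lit 0, nat_lit 4711, nat_lit 0, nat_lit 0, nat_lit 4103, nat_lit 4060, nat_lit 126, nat_lit 0, nat_lit 0, nat_lit 729, nat_lit 0, nat_lit 0, nat_lit 0, nat_lit 0, nat_lit 0, nat_lit 313000, nat_lit 0, nat_lit 0, [(nat_lit 24, [(nat_lit 2, nat_lit 313)]), (nat_lit 27, [(nat_lit 2, nat_lit 313)])],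
 ⟨p024_k25, nat_lit 0, nat_lit 0, nat_lit 607, nat_lit 0, nat_lit 1294380, [nat_lit 1103890001, nat_lit 2106747601, nat_lit 2566110400], [], [nat_lit 30494979856, nat_lit 32040279592, nat_lit 34989531790, nat_lit 36075092405], nat_lit 1271250, nat_lit 1271250, nat_lit 719601, nat_lit 2861300, nat_lit 0, nat_lit 0, [nat_lit 230000, nat_lit 780000, nat_lit 1100000], [nat_lit 35, nat_lit 40, nat_lit 80, nat_lit 80, nat_lit 22, nat_lit 317, nat_lit 100, nat_lit 14]⟩, ⟨p024_k37, nat_lit 0, nat_lit 0, nat_lit 242, nat_lit 0, nat_lit 0, [nat_lit 3220656000, nat_lit 5474016000, nat_lit 8156064000], [], [nat_lit 17611188076, nat_lit 19125979939, nat_lit 24324081426, nat_lit 25167549788], nat_lit 0, nat_lit 0, nat_lit 0, nat_lit 0, nat_lit 0, nat_lit 0, [], [nat_lit 21, nat_lit 40, nat_lit 80, nat_lit 80, nat_lit 14, nat_lit 401, nat_lit 175, nat_lit 10]⟩,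
 ⟨nat_lit 0, nat_lit 3163, ⟨.ofNat (nat_lit 401957), .ofNat (nat_lit 812499), .ofNat (nat_lit 443658), .ofNat (nat_lit 856810), .ofNat (nat_lit 431745), .ofNat (nat_lit 769995), .ofNat (nat_lit 479136), .ofNat (nat_lit 819996)⟩, ⟨.ofNat (nat_lit 0), .ofNat (nat_lit 0), .ofNat (nat_lit 0), .ofNat (nat_lit 0), .ofNat (nat_lit 0), .ofNat (nat_lit 0), .ofNat (nat_lit 0), .ofNat (nat_lit 0)⟩⟩, [⟨nat_lit 0, nat_lit 96, nat_lit 44, nat_lit 100, nat_lit 169118191⟩]⟩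
noncomputable def p024_l209 : Lf2 := ⟨nat_lit 0, nat_lit 10, [nat_lit 0, nat_lit 5, nat_lit 5, nat_lit 20], false, nat_lit 0, nat_lit 0, nat_lit 0, nat_lit 0, ⟨nat_lit 216, nat_lit 784, nat_lit 0, nat_lit 6, nat_lit 251, nat_lit 0, nat_lit 0, nat_lit 0, nat_lit 0, nat_lit 0, nat_lit 0, nat_lit 0, nat_lit 0, nat_lit 0, nat_lit 0, nat_lit 5000000, false, false⟩,
 nat_lit 3551, nat_lit 0, nat_lit 0, nat_lit 0, nat_lit 3092, nat_lit 1879, nat_lit 98, nat_lit 0, nat_lit 0, nat_lit 61, nat_lit 0, nat_lit 0, nat_lit 0, nat_lit 0, nat_lit 0, nat_lit 325000, nat_lit 0, nat_lit 0, [(nat_lit 24, [(nat_lit 1, nat_lit 765), (nat_lit 2, nat_lit 19)]), (nat_lit 27, [(nat_lit 1, nat_lit 765), (nat_lit 2, nat_lit 19)])],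
 ⟨p024_k25, nat_lit 0, nat_lit 0, nat_lit 386, nat_lit 0, nat_lit 727203, [nat_lit 879220000, nat_lit 1462888800, nat_lit 1702991200], [], [nat_lit 25537385011, nat_lit 27406927913, nat_lit 31485654619, nat_lit 32881819619], nat_lit 1271250, nat_lit 1271250, nat_lit 719601, nat_lit 2861300, nat_lit 0, nat_lit 0, [nat_lit 230000, nat_lit 780000, nat_lit 1100000], [nat_lit 35, nat_lit 40, nat_lit 80, nat_lit 80, nat_lit 22, nat_lit 317, nat_lit 100, nat_lit 14]⟩, ⟨p024_k37, nat_lit 0, nat_lit 0, nat_lit 900, nat_lit 0, nat_lit 1294380, [nat_lit 1012608000, nat_lit 1721088000, nat_lit 2564352000], [], [nat_lit 10551928685, nat_lit 10568956888, nat_lit 12010372204, nat_lit 10319391216], nat_lit 1271250, nat_lit 1271250, nat_lit 719601, nat_lit 2861300, nat_lit 0, nat_lit 0, [nat_lit 1100000, nat_lit 1785000, nat_lit 1271250], [nat_lit 21, nat_lit 40, nat_lit 80, nat_lit 80, nat_lit 14, nat_lit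 401, nat_lit 175, nat_lit 10]⟩,
 ⟨nat_lit 0, nat_lit 3163, ⟨.ofNat (nat_lit 401957), .ofNat (nat_lit 812499), .ofNat (nat_lit 443658), .ofNat (nat_lit 856810), .ofNat (nat_lit 431745), .ofNat (nat_lit 769995), .ofNat (nat_lit 479136), .ofNat (nat_lit 819996)⟩, ⟨.ofNat (nat_lit 0), .ofNat (nat_lit 0), .ofNat (nat_lit 0), .ofNat (nat_lit 0), .ofNat (nat_lit 0), .ofNat (nat_lit 0), .ofNat (nat_lit 0), .ofNat (nat_lit 0)⟩⟩, [⟨nat_lit 13, nat_lit 46, nat_lit 76, nat_lit 100, nat_lit 209574930⟩]⟩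
noncomputable def b_N_900_600_0_1 : St := ⟨false, nat_lit 2, nat_lit 2, nat_lit 0, nat_lit 40, nat_lit 360, nat_lit 400, nat_lit 240, nat_lit 280, nat_lit 112, nat_lit 376, nat_lit 0, nat_lit 0, nat_lit 0, nat_lit 0, nat_lit 0, nat_lit 0, nat_lit 40, nat_lit 80, nat_lit 0, nat_lit 0, nat_lit 0, nat_lit 0⟩
theorem d_N_900_600_0_1 (h : EB TB.env) : Dead b_N_900_600_0_1 := chkB_sound0 h (T :=
(.st (nat_lit 0)
(.gv
(.st (nat_lit 1)
(.leaf p024_l195)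
(.spl (nat_lit 2) (nat_lit 240)
(.leaf p024_l196)
(.spl (nat_lit 2) (nat_lit 320)
(.leaf p024_l197)
(.leaf p024_l198))))
(.leaf p024_l199))
(.gv
(.st (nat_lit 1)
(.spl (nat_lit 0) (nat_lit 380)
(.leaf p024_l200)
(.trZ (nat_lit 0) (nat_lit 100) (nat_lit 44) (nat_lit 99) (nat_lit 148) (.trX (nat_lit 13) (nat_lit 48) (nat_lit 71) (nat_lit 100) (nat_lit 352) (.leaf p024_l201))))
(.spl (nat_lit 2) (nat_lit 240)
(.leaf p024_l202)
(.spl (nat_lit 0) (nat_lit 380)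
(.spl (nat_lit 0) (nat_lit 370)
(.spl (nat_lit 1) (nat_lit 260)
(.trX (nat_lit 13) (nat_lit 63) (nat_lit 61) (nat_lit 100) (nat_lit 364) (.leaf p024_l203))
(.leaf p024_l204))
(.trX (nat_lit 13) (nat_lit 57) (nat_lit 62) (nat_lit 100) (nat_lit 368) (.spl (nat_lit 1) (nat_lit 260)
(.trX (nat_lit 13) (nat_lit 55) (nat_lit 68) (nat_lit 100) (nat_lit 352) (.leaf p024_l205))
(.leaf p024_l206))))
(.trX (nat_lit 13) (nat_lit 48) (nat_lit 71) (nat_lit 100) (nat_lit 352) (.leaf p024_l207)))))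
(.st (nat_lit 1)
(.leaf p024_l208)
(.leaf p024_l209))))) (by decide +kernel)
noncomputable def p024_l210 : Lf2 := ⟨nat_lit 0, nat_lit 10, [nat_lit 0, nat_lit 5, nat_lit 5, nat_lit 20], false, nat_lit 0, nat_lit 0, nat_lit 0, nat_lit 0, ⟨nat_lit 1000, nat_lit 0, nat_lit 0, nat_lit 0, nat_lit 0, nat_lit 0, nat_lit 0, nat_lit 0, nat_lit 0, nat_lit 0, nat_lit 0, nat_lit 0, nat_lit 0, nat_lit 0, nat_lit 0, nat_lit 0, false, false⟩,
 nat_lit 0, nat_lit 0, nat_lit 0, nat_lit 7536, nat_lit 4829, nat_lit 0, nat_lit 0, nat_lit 0, nat_lit 0, nat_lit 0, nat_lit 0, nat_lit 0, nat_lit 0, nat_lit 0, nat_lit 0, nat_lit 0, nat_lit 0, nat_lit 0, [],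
 ⟨p024_k25, nat_lit 0, nat_lit 0, nat_lit 172, nat_lit 0, nat_lit 0, [nat_lit 938000000, nat_lit 3282000000, nat_lit 4688000000], [], [nat_lit 27004254139, nat_lit 30776085512, nat_lit 36163605704, nat_lit 38367028187], nat_lit 0, nat_lit 0, nat_lit 0, nat_lit 0, nat_lit 0, nat_lit 0, [], [nat_lit 35, nat_lit 40, nat_lit 80, nat_lit 80, nat_lit 22, nat_lit 317, nat_lit 100, nat_lit 14]⟩, ⟨p024_k37, nat_lit 0, nat_lit 0, nat_lit 242, nat_lit 0, nat_lit 0, [nat_lit 4688000000, nat_lit 7968000000, nat_lit 11872000000], [], [nat_lit 37190976000, nat_lit 38377587200, nat_lit 44070044000, nat_lit 45014690400], nat_lit 0, nat_lit 0, nat_lit 0, nat_lit 0, nat_lit 0, nat_lit 0, [], [nat_lit 21, nat_lit 40, nat_lit 80, nat_lit 80, nat_lit 14, nat_lit 401, nat_lit 175, nat_lit 10]⟩,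
 zbF0, [⟨nat_lit 0, nat_lit 96, nat_lit 44, nat_lit 100, nat_lit 430494580⟩]⟩
noncomputable def p024_l211 : Lf2 := ⟨nat_lit 0, nat_lit 10, [nat_lit 0, nat_lit 5, nat_lit 5, nat_lit 20], true, nat_lit 0, nat_lit 0, nat_lit 0, nat_lit 0, ⟨nat_lit 0, nat_lit 798, nat_lit 202, nat_lit 6, nat_lit 213, nat_lit 0, nat_lit 0, nat_lit 0, nat_lit 0, nat_lit 215, nat_lit 23440, nat_lit 200, nat_lit 52221722, nat_lit 14778278, nat_lit 0, nat_lit 2638149, false, false⟩,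
 nat_lit 0, nat_lit 0, nat_lit 0, nat_lit 0, nat_lit 2949, nat_lit 0, nat_lit 0, nat_lit 0, nat_lit 0, nat_lit 0, nat_lit 0, nat_lit 0, nat_lit 0, nat_lit 0, nat_lit 0, nat_lit 250000, nat_lit 0, nat_lit 0, [(nat_lit 24, [(nat_lit 0, nat_lit 798), (nat_lit 4, nat_lit 202)]), (nat_lit 27, [(nat_lit 0, nat_lit 798), (nat_lit 4, nat_lit 202)])],
 ⟨p024_k24, nat_lit 0, nat_lit 0, nat_lit 161, nat_lit 0, nat_lit 0, [nat_lit 776921601, nat_lit 1147676000], [], [nat_lit 20804894491, nat_lit 24029700723, nat_lit 23561079958, nat_lit 26198986608], nat_lit 0, nat_lit 0, nat_lit 0, nat_lit 0, nat_lit 0, nat_lit 0, [], [nat_lit 86, nat_lit 40, nat_lit 80, nat_lit 80, nat_lit 87, nat_lit 272, nat_lit 60, nat_lit 12]⟩, C1.Rw.none,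
 ⟨nat_lit 0, nat_lit 3163, ⟨.ofNat (nat_lit 401957), .ofNat (nat_lit 605128), .ofNat (nat_lit 443658), .ofNat (nat_lit 646918), .ofNat (nat_lit 431745), .ofNat (nat_lit 599865), .ofNat (nat_lit 479136), .ofNat (nat_lit 647345)⟩, ⟨.ofNat (nat_lit 0), .ofNat (nat_lit 0), .ofNat (nat_lit 0), .ofNat (nat_lit 0), .ofNat (nat_lit 0), .ofNat (nat_lit 0), .ofNat (nat_lit 0), .ofNat (nat_lit 0)⟩⟩, []⟩
noncomputable def p024_l212 : Lf2 := ⟨nat_lit 0, nat_lit 10, [nat_lit 0, nat_lit 5, nat_lit 5, nat_lit 20], true, nat_lit 0, nat_lit 0, nat_lit 0, nat_lit 0, ⟨nat_lit 0, nat_lit 1000, nat_lit 0, nat_lit 6, nat_lit 272, nat_lit 0, nat_lit 0, nat_lit 0, nat_lit 0, nat_lit 0, nat_lit 0, nat_lit 0, nat_lit 45773053, nat_lit 21226947, nat_lit 0, nat_lit 3122245, true, true⟩,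
 nat_lit 0, nat_lit 0, nat_lit 0, nat_lit 0, nat_lit 3025, nat_lit 0, nat_lit 0, nat_lit 0, nat_lit 0, nat_lit 0, nat_lit 0, nat_lit 0, nat_lit 0, nat_lit 0, nat_lit 0, nat_lit 250000, nat_lit 0, nat_lit 0, [(nat_lit 24, [(nat_lit 0, nat_lit 1000)]), (nat_lit 27, [(nat_lit 0, nat_lit 1000)])],
 ⟨p024_k24, nat_lit 0, nat_lit 0, nat_lit 157, nat_lit 0, nat_lit 0, [nat_lit 780800001, nat_lit 1705600000], [], [nat_lit 24631430800, nat_lit 27045116500, nat_lit 27680143900, nat_lit 29739738400], nat_lit 0, nat_lit 0, nat_lit 0, nat_lit 0, nat_lit 0, nat_lit 0, [], [nat_lit 86, nat_lit 40, nat_lit 80, nat_lit 80, nat_lit 87, nat_lit 203, nat_lit 0, nat_lit 8]⟩, C1.Rw.none,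
 ⟨nat_lit 0, nat_lit 3163, ⟨.ofNat (nat_lit 605128), .ofNat (nat_lit 727166), .ofNat (nat_lit 646918), .ofNat (nat_lit 771478), .ofNat (nat_lit 599865), .ofNat (nat_lit 699997), .ofNat (nat_lit 647345), .ofNat (nat_lit 749999)⟩, ⟨.ofNat (nat_lit 0), .ofNat (nat_lit 0), .ofNat (nat_lit 0), .ofNat (nat_lit 0), .ofNat (nat_lit 0), .ofNat (nat_lit 0), .ofNat (nat_lit 0), .ofNat (nat_lit 0)⟩⟩, [⟨nat_lit 13, nat_lit 46, nat_lit 76, nat_lit 100, nat_lit 35098572⟩]⟩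
noncomputable def p024_l213 : Lf2 := ⟨nat_lit 0, nat_lit 10, [nat_lit 0, nat_lit 5, nat_lit 5, nat_lit 20], true, nat_lit 0, nat_lit 0, nat_lit 0, nat_lit 0, ⟨nat_lit 0, nat_lit 1000, nat_lit 0, nat_lit 8, nat_lit 304, nat_lit 0, nat_lit 0, nat_lit 0, nat_lit 0, nat_lit 0, nat_lit 0, nat_lit 0, nat_lit 42506754, nat_lit 24493246, nat_lit 0, nat_lit 3282780, true, true⟩,
 nat_lit 0, nat_lit 0, nat_lit 0, nat_lit 0, nat_lit 3054, nat_lit 0, nat_lit 0, nat_lit 0, nat_lit 0, nat_lit 0, nat_lit 0, nat_lit 0, nat_lit 0, nat_lit 0, nat_lit 0, nat_lit 250000, nat_lit 0, nat_lit 0, [(nat_lit 24, [(nat_lit 0, nat_lit 1000)])],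
 ⟨p024_k25, nat_lit 0, nat_lit 0, nat_lit 150, nat_lit 0, nat_lit 0, [nat_lit 763200001, nat_lit 1367200000, nat_lit 1705600000], [], [nat_lit 27670840584, nat_lit 28704615764, nat_lit 28584672266, nat_lit 29573871768], nat_lit 0, nat_lit 0, nat_lit 0, nat_lit 0, nat_lit 0, nat_lit 0, [], [nat_lit 35, nat_lit 40, nat_lit 80, nat_lit 80, nat_lit 22, nat_lit 203, nat_lit 0, nat_lit 7]⟩, C1.Rw.none,
 ⟨nat_lit 2236, nat_lit 3163, ⟨.ofNat (nat_lit 727168), .ofNat (nat_lit 757645), .ofNat (nat_lit 771478), .ofNat (nat_lit 801955), .ofNat (nat_lit 716594), .ofNat (nat_lit 745101), .ofNat (nat_lit 762142), .ofNat (nat_lit 790650)⟩, ⟨.ofNat (nat_lit 0), .ofNat (nat_lit 0), .ofNat (nat_lit 0), .ofNat (nat_lit 0), .ofNat (nat_lit 0), .ofNat (nat_lit 0), .ofNat (nat_lit 0), .ofNat (nat_lit 0)⟩⟩, []⟩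
noncomputable def p024_l214 : Lf2 := ⟨nat_lit 0, nat_lit 10, [nat_lit 0, nat_lit 5, nat_lit 5, nat_lit 20], true, nat_lit 0, nat_lit 0, nat_lit 0, nat_lit 0, ⟨nat_lit 0, nat_lit 1000, nat_lit 0, nat_lit 8, nat_lit 311, nat_lit 0, nat_lit 0, nat_lit 0, nat_lit 0, nat_lit 0, nat_lit 0, nat_lit 0, nat_lit 41763394, nat_lit 25236606, nat_lit 0, nat_lit 3312040, true, true⟩,
 nat_lit 0, nat_lit 0, nat_lit 0, nat_lit 0, nat_lit 2967, nat_lit 0, nat_lit 0, nat_lit 0, nat_lit 0, nat_lit 0, nat_lit 0, nat_lit 0, nat_lit 0, nat_lit 0, nat_lit 0, nat_lit 250000, nat_lit 0, nat_lit 0, [(nat_lit 24, [(nat_lit 0, nat_lit 1000)])],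
 ⟨p024_k25, nat_lit 0, nat_lit 0, nat_lit 161, nat_lit 0, nat_lit 0, [nat_lit 763200001, nat_lit 1367200000, nat_lit 1705600000], [], [nat_lit 28603152893, nat_lit 29581306614, nat_lit 29507555254, nat_lit 30442021306], nat_lit 0, nat_lit 0, nat_lit 0, nat_lit 0, nat_lit 0, nat_lit 0, [], [nat_lit 35, nat_lit 40, nat_lit 80, nat_lit 80, nat_lit 22, nat_lit 203, nat_lit 0, nat_lit 7]⟩, C1.Rw.none,
 ⟨nat_lit 2236, nat_lit 3163, ⟨.ofNat (nat_lit 757645), .ofNat (nat_lit 788122), .ofNat (nat_lit 779800), .ofNat (nat_lit 810277), .ofNat (nat_lit 745101), .ofNat (nat_lit 773609), .ofNat (nat_lit 767876), .ofNat (nat_lit 796384)⟩, ⟨.ofNat (nat_lit 0), .ofNat (nat_lit 0), .ofNat (nat_lit 0), .ofNat (nat_lit 0), .ofNat (nat_lit 0), .ofNat (nat_lit 0), .ofNat (nat_lit 0), .ofNat (nat_lit 0)⟩⟩, [⟨nat_lit 13, nat_lit 63, nat_lit 61, nat_lit 100, nat_lit 67544039⟩]⟩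
noncomputable def p024_l215 : Lf2 := ⟨nat_lit 0, nat_lit 10, [nat_lit 0, nat_lit 5, nat_lit 5, nat_lit 20], true, nat_lit 0, nat_lit 0, nat_lit 0, nat_lit 0, ⟨nat_lit 0, nat_lit 1000, nat_lit 0, nat_lit 8, nat_lit 320, nat_lit 0, nat_lit 0, nat_lit 0, nat_lit 0, nat_lit 0, nat_lit 0, nat_lit 0, nat_lit 40860973, nat_lit 26139027, nat_lit 0, nat_lit 3344040, true, true⟩,
 nat_lit 0, nat_lit 0, nat_lit 0, nat_lit 0, nat_lit 2967, nat_lit 0, nat_lit 0, nat_lit 0, nat_lit 0, nat_lit 0, nat_lit 0, nat_lit 0, nat_lit 0, nat_lit 0, nat_lit 0, nat_lit 250000, nat_lit 0, nat_lit 0, [(nat_lit 24, [(nat_lit 0, nat_lit 1000)])],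
 ⟨p024_k24, nat_lit 0, nat_lit 0, nat_lit 161, nat_lit 0, nat_lit 0, [nat_lit 763200001, nat_lit 1705600000], [], [nat_lit 28603152893, nat_lit 29581306614, nat_lit 29507555254, nat_lit 30442021306], nat_lit 0, nat_lit 0, nat_lit 0, nat_lit 0, nat_lit 0, nat_lit 0, [], [nat_lit 86, nat_lit 40, nat_lit 80, nat_lit 80, nat_lit 87, nat_lit 203, nat_lit 0, nat_lit 7]⟩, C1.Rw.none,
 ⟨nat_lit 2236, nat_lit 3163, ⟨.ofNat (nat_lit 779800), .ofNat (nat_lit 810277), .ofNat (nat_lit 801955), .ofNat (nat_lit 832432), .ofNat (nat_lit 767876), .ofNat (nat_lit 796384), .ofNat (nat_lit 790650), .ofNat (nat_lit 819158)⟩, ⟨.ofNat (nat_lit 0), .ofNat (nat_lit 0), .ofNat (nat_lit 0), .ofNat (nat_lit 0), .ofNat (nat_lit 0), .ofNat (nat_lit 0), .ofNat (nat_lit 0), .ofNat (nat_lit 0)⟩⟩, [⟨nat_lit 13, nat_lit 56, nat_lit 65, nat_lit 100, nat_lit 49427984⟩]⟩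
noncomputable def p024_l216 : Lf2 := ⟨nat_lit 0, nat_lit 10, [nat_lit 0, nat_lit 5, nat_lit 5, nat_lit 20], true, nat_lit 0, nat_lit 0, nat_lit 0, nat_lit 0, ⟨nat_lit 0, nat_lit 1000, nat_lit 0, nat_lit 8, nat_lit 301, nat_lit 0, nat_lit 0, nat_lit 0, nat_lit 0, nat_lit 0, nat_lit 0, nat_lit 0, nat_lit 42732647, nat_lit 24267353, nat_lit 0, nat_lit 3273364, true, true⟩,
 nat_lit 0, nat_lit 0, nat_lit 0, nat_lit 0, nat_lit 2436, nat_lit 0, nat_lit 0, nat_lit 0, nat_lit 0, nat_lit 0, nat_lit 0, nat_lit 0, nat_lit 0, nat_lit 0, nat_lit 0, nat_lit 250000, nat_lit 0, nat_lit 0, [(nat_lit 27, [(nat_lit 0, nat_lit 1000)])],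
 ⟨p024_k30, nat_lit 0, nat_lit 0, nat_lit 139, nat_lit 0, nat_lit 0, [nat_lit 780800001, nat_lit 1042800000], [], [nat_lit 27159873867, nat_lit 28137910483, nat_lit 28497123394, nat_lit 29639879024], nat_lit 0, nat_lit 0, nat_lit 0, nat_lit 0, nat_lit 0, nat_lit 0, [], [nat_lit 66, nat_lit 40, nat_lit 80, nat_lit 80, nat_lit 67, nat_lit 203, nat_lit 0, nat_lit 9]⟩, C1.Rw.none,
 ⟨nat_lit 0, nat_lit 2237, ⟨.ofNat (nat_lit 716590), .ofNat (nat_lit 762201), .ofNat (nat_lit 762141), .ofNat (nat_lit 807752), .ofNat (nat_lit 699995), .ofNat (nat_lit 739994), .ofNat (nat_lit 749998), .ofNat (nat_lit 789996)⟩, ⟨.ofNat (nat_lit 0), .ofNat (nat_lit 0), .ofNat (nat_lit 0), .ofNat (nat_lit 0), .ofNat (nat_lit 0), .ofNat (nat_lit 0), .ofNat (nat_lit 0), .ofNat (nat_lit 0)⟩⟩, [⟨nat_lit 13, nat_lit 48, nat_lit 71, nat_lit 100, nat_lit 424413575⟩]⟩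
noncomputable def p024_l217 : Lf2 := ⟨nat_lit 0, nat_lit 10, [nat_lit 0, nat_lit 5, nat_lit 5, nat_lit 20], true, nat_lit 0, nat_lit 0, nat_lit 0, nat_lit 0, ⟨nat_lit 0, nat_lit 1000, nat_lit 0, nat_lit 9, nat_lit 321, nat_lit 0, nat_lit 0, nat_lit 0, nat_lit 0, nat_lit 0, nat_lit 0, nat_lit 0, nat_lit 40705186, nat_lit 26294814, nat_lit 0, nat_lit 3349177, true, true⟩,
 nat_lit 0, nat_lit 0, nat_lit 0, nat_lit 0, nat_lit 2989, nat_lit 0, nat_lit 0, nat_lit 0, nat_lit 0, nat_lit 0, nat_lit 0, nat_lit 0, nat_lit 0, nat_lit 0, nat_lit 0, nat_lit 250000, nat_lit 0, nat_lit 0, [(nat_lit 24, [(nat_lit 0, nat_lit 1000)]), (nat_lit 27, [(nat_lit 0, nat_lit 1000)])],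
 ⟨p024_k24, nat_lit 0, nat_lit 0, nat_lit 169, nat_lit 0, nat_lit 0, [nat_lit 780800001, nat_lit 1705600000], [], [nat_lit 29505266418, nat_lit 31717731424, nat_lit 30230695848, nat_lit 32550255720], nat_lit 0, nat_lit 0, nat_lit 0, nat_lit 0, nat_lit 0, nat_lit 0, [], [nat_lit 86, nat_lit 40, nat_lit 80, nat_lit 80, nat_lit 87, nat_lit 203, nat_lit 0, nat_lit 7]⟩, C1.Rw.none,
 ⟨nat_lit 0, nat_lit 3163, ⟨.ofNat (nat_lit 788118), .ofNat (nat_lit 812499), .ofNat (nat_lit 832430), .ofNat (nat_lit 856810), .ofNat (nat_lit 749995), .ofNat (nat_lit 769995), .ofNat (nat_lit 799997), .ofNat (nat_lit 819996)⟩, ⟨.ofNat (nat_lit 0), .ofNat (nat_lit 0), .ofNat (nat_lit 0), .ofNat (nat_lit 0), .ofNat (nat_lit 0), .ofNat (nat_lit 0), .ofNat (nat_lit 0), .ofNat (nat_lit 0)⟩⟩, [⟨nat_lit 13, nat_lit 65, nat_lit 54, nat_lit 100, nat_lit 324779295⟩]⟩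
noncomputable def p024_l218 : Lf2 := ⟨nat_lit 0, nat_lit 10, [nat_lit 0, nat_lit 5, nat_lit 5, nat_lit 20], true, nat_lit 0, nat_lit 0, nat_lit 0, nat_lit 0, ⟨nat_lit 0, nat_lit 1000, nat_lit 0, nat_lit 6, nat_lit 251, nat_lit 0, nat_lit 0, nat_lit 0, nat_lit 0, nat_lit 0, nat_lit 0, nat_lit 0, nat_lit 0, nat_lit 0, nat_lit 0, nat_lit 5000000, false, false⟩,
 nat_lit 0, nat_lit 0, nat_lit 0, nat_lit 0, nat_lit 2989, nat_lit 0, nat_lit 0, nat_lit 0, nat_lit 0, nat_lit 0, nat_lit 0, nat_lit 0, nat_lit 0, nat_lit 0, nat_lit 0, nat_lit 250000, nat_lit 0, nat_lit 0, [(nat_lit 24, [(nat_lit 0, nat_lit 1000)]), (nat_lit 27, [(nat_lit 0, nat_lit 1000)])],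
 ⟨p024_k24, nat_lit 0, nat_lit 0, nat_lit 169, nat_lit 0, nat_lit 0, [nat_lit 780800001, nat_lit 1705600000], [], [nat_lit 21968822207, nat_lit 24808133960, nat_lit 30230695848, nat_lit 32550255720], nat_lit 0, nat_lit 0, nat_lit 0, nat_lit 0, nat_lit 0, nat_lit 0, [], [nat_lit 86, nat_lit 40, nat_lit 80, nat_lit 80, nat_lit 87, nat_lit 317, nat_lit 100, nat_lit 14]⟩, C1.Rw.none,
 ⟨nat_lit 0, nat_lit 3163, ⟨.ofNat (nat_lit 401957), .ofNat (nat_lit 812499), .ofNat (nat_lit 443658), .ofNat (nat_lit 856810), .ofNat (nat_lit 431745), .ofNat (nat_lit 769995), .ofNat (nat_lit 479136), .ofNat (nat_lit 819996)⟩, ⟨.ofNat (nat_lit 0), .ofNat (nat_lit 0), .ofNat (nat_lit 0), .ofNat (nat_lit 0), .ofNat (nat_lit 0), .ofNat (nat_lit 0), .ofNat (nat_lit 0), .ofNat (nat_lit 0)⟩⟩, [⟨nat_lit 13, nat_lit 65, nat_lit 54, nat_lit 100, nat_lit 408386694⟩]⟩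
noncomputable def p024_l219 : Lf2 := ⟨nat_lit 0, nat_lit 10, [nat_lit 0, nat_lit 5, nat_lit 5, nat_lit 20], false, nat_lit 0, nat_lit 0, nat_lit 0, nat_lit 0, ⟨nat_lit 792, nat_lit 0, nat_lit 208, nat_lit 6, nat_lit 251, nat_lit 0, nat_lit 0, nat_lit 0, nat_lit 0, nat_lit 215, nat_lit 442370, nat_lit 200, nat_lit 48094281, nat_lit 0, nat_lit 0, nat_lit 2974977, false, false⟩,
 nat_lit 0, nat_lit 4448, nat_lit 0, nat_lit 0, nat_lit 3874, nat_lit 4507, nat_lit 148, nat_lit 0, nat_lit 0, nat_lit 0, nat_lit 0, nat_lit 0, nat_lit 0, nat_lit 0, nat_lit 0, nat_lit 208000, nat_lit 0, nat_lit 0, [(nat_lit 24, [(nat_lit 6, nat_lit 208)]), (nat_lit 27, [(nat_lit 6, nat_lit 208)])],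
 ⟨p024_k25, nat_lit 0, nat_lit 0, nat_lit 478, nat_lit 0, nat_lit 957986, [nat_lit 1023862400, nat_lit 2133618134, nat_lit 2748441600], [], [nat_lit 28698824086, nat_lit 30453215129, nat_lit 34094359940, nat_lit 35363980851], nat_lit 1271250, nat_lit 1271250, nat_lit 719601, nat_lit 2861300, nat_lit 0, nat_lit 0, [nat_lit 230000, nat_lit 780000, nat_lit 1100000], [nat_lit 35, nat_lit 40, nat_lit 80, nat_lit 80, nat_lit 22, nat_lit 317, nat_lit 100, nat_lit 14]⟩, ⟨p024_k37, nat_lit 0, nat_lit 0, nat_lit 242, nat_lit 0, nat_lit 0, [nat_lit 3712896000, nat_lit 6310656000, nat_lit 9402624000], [], [nat_lit 26033873913, nat_lit 27750283773, nat_lit 33478978006, nat_lit 34435000396], nat_lit 0, nat_lit 0, nat_lit 0, nat_lit 0, nat_lit 0, nat_lit 0, [], [nat_lit 21, nat_lit 40, nat_lit 80, nat_lit 80, nat_lit 14, nat_lit 401, nat_lit 175, nat_lit 10]⟩,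
 ⟨nat_lit 0, nat_lit 3163, ⟨.ofNat (nat_lit 401957), .ofNat (nat_lit 812499), .ofNat (nat_lit 443658), .ofNat (nat_lit 856810), .ofNat (nat_lit 431745), .ofNat (nat_lit 769995), .ofNat (nat_lit 479136), .ofNat (nat_lit 819996)⟩, ⟨.ofNat (nat_lit 0), .ofNat (nat_lit 0), .ofNat (nat_lit 0), .ofNat (nat_lit 0), .ofNat (nat_lit 0), .ofNat (nat_lit 0), .ofNat (nat_lit 0), .ofNat (nat_lit 0)⟩⟩, [⟨nat_lit 0, nat_lit 96, nat_lit 44, nat_lit 100, nat_lit 262373056⟩]⟩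
noncomputable def p024_l220 : Lf2 := ⟨nat_lit 0, nat_lit 10, [nat_lit 0, nat_lit 5, nat_lit 5, nat_lit 20], false, nat_lit 0, nat_lit 0, nat_lit 0, nat_lit 0, ⟨nat_lit 173, nat_lit 162, nat_lit 665, nat_lit 6, nat_lit 213, nat_lit 0, nat_lit 0, nat_lit 0, nat_lit 0, nat_lit 215, nat_lit 23440, nat_lit 200, nat_lit 52221722, nat_lit 14778278, nat_lit 0, nat_lit 2638149, false, false⟩,
 nat_lit 3147, nat_lit 0, nat_lit 0, nat_lit 0, nat_lit 2740, nat_lit 1666, nat_lit 0, nat_lit 0, nat_lit 0, nat_lit 128, nat_lit 0, nat_lit 0, nat_lit 0, nat_lit 0, nat_lit 0, nat_lit 206750, nat_lit 0, nat_lit 0, [(nat_lit 24, [(nat_lit 0, nat_lit 162), (nat_lit 4, nat_lit 665)]), (nat_lit 27, [(nat_lit 0, nat_lit 162), (nat_lit 4, nat_lit 665)])],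
 ⟨p024_k25, nat_lit 0, nat_lit 0, nat_lit 333, nat_lit 0, nat_lit 562940, [nat_lit 795227601, nat_lit 503854401, nat_lit 384825200], [], [nat_lit 21497207093, nat_lit 23483184308, nat_lit 23799288324, nat_lit 25675810888], nat_lit 1271250, nat_lit 1271250, nat_lit 719601, nat_lit 1758000, nat_lit 0, nat_lit 0, [nat_lit 230000, nat_lit 780000, nat_lit 1100000], [nat_lit 35, nat_lit 40, nat_lit 80, nat_lit 80, nat_lit 22, nat_lit 272, nat_lit 60, nat_lit 12]⟩, ⟨p024_k37, nat_lit 0, nat_lit 0, nat_lit 786, nat_lit 0, nat_lit 1028529, [nat_lit 811024000, nat_lit 1378464000, nat_lit 2053856000], [], [nat_lit 6789412592, nat_lit 6551786147, nat_lit 6891560772, nat_lit 6240515312], nat_lit 1271250, nat_lit 1271250, nat_lit 719601, nat_lit 1758000, nat_lit 0, nat_lit 0, [nat_lit 1100000, nat_lit 1785000, nat_lit 1271250], [nat_lit 21, nat_lit 40, nat_lit 80, nat_lit 80, nat_lit 14, nat_lit 373,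 nat_lit 150, nat_lit 10]⟩,
 ⟨nat_lit 0, nat_lit 3163, ⟨.ofNat (nat_lit 401957), .ofNat (nat_lit 605128), .ofNat (nat_lit 443658), .ofNat (nat_lit 646918), .ofNat (nat_lit 431745), .ofNat (nat_lit 599865), .ofNat (nat_lit 479136), .ofNat (nat_lit 647345)⟩, ⟨.ofNat (nat_lit 0), .ofNat (nat_lit 0), .ofNat (nat_lit 0), .ofNat (nat_lit 0), .ofNat (nat_lit 0), .ofNat (nat_lit 0), .ofNat (nat_lit 0), .ofNat (nat_lit 0)⟩⟩, [⟨nat_lit 0, nat_lit 96, nat_lit 44, nat_lit 100, nat_lit 19037442⟩]⟩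
noncomputable def p024_l221 : Lf2 := ⟨nat_lit 0, nat_lit 10, [nat_lit 0, nat_lit 5, nat_lit 5, nat_lit 20], false, nat_lit 0, nat_lit 0, nat_lit 0, nat_lit 0, ⟨nat_lit 411, nat_lit 589, nat_lit 0, nat_lit 6, nat_lit 283, nat_lit 0, nat_lit 0, nat_lit 0, nat_lit 0, nat_lit 0, nat_lit 0, nat_lit 0, nat_lit 44598451, nat_lit 22401549, nat_lit 0, nat_lit 3186087, true, true⟩,
 nat_lit 5341, nat_lit 0, nat_lit 0, nat_lit 0, nat_lit 3239, nat_lit 2827, nat_lit 0, nat_lit 0, nat_lit 0, nat_lit 325, nat_lit 0, nat_lit 0, nat_lit 0, nat_lit 0, nat_lit 0, nat_lit 417400, nat_lit 0, nat_lit 0, [(nat_lit 24, [(nat_lit 1, nat_lit 286), (nat_lit 2, nat_lit 303)])],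
 ⟨p024_k25, nat_lit 0, nat_lit 0, nat_lit 264, nat_lit 0, nat_lit 383973, [nat_lit 1072850000, nat_lit 1490880934, nat_lit 1566092800], [], [nat_lit 26422371914, nat_lit 26893095046, nat_lit 30443544007, nat_lit 30831308984], nat_lit 1271250, nat_lit 1271250, nat_lit 1271250, nat_lit 1271250, nat_lit 0, nat_lit 0, [nat_lit 230000, nat_lit 780000, nat_lit 1100000], [nat_lit 35, nat_lit 40, nat_lit 80, nat_lit 80, nat_lit 22, nat_lit 203, nat_lit 0, nat_lit 8]⟩, ⟨p024_k37, nat_lit 0, nat_lit 0, nat_lit 566, nat_lit 0, nat_lit 701544, [nat_lit 1926768000, nat_lit 3274848000, nat_lit 4879392000], [], [nat_lit 16525282128, nat_lit 16623645102, nat_lit 17657865168, nat_lit 17746786390], nat_lit 1271250, nat_lit 1271250, nat_lit 1271250, nat_lit 1271250, nat_lit 0, nat_lit 0, [nat_lit 1100000, nat_lit 1785000, nat_lit 1271250], [nat_lit 21, nat_lit 40, nat_lit 80, nat_lit 80, nat_lit 14, nat_lit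 401, nat_lit 175, nat_lit 10]⟩,
 ⟨nat_lit 2738, nat_lit 3163, ⟨.ofNat (nat_lit 605257), .ofNat (nat_lit 794217), .ofNat (nat_lit 627400), .ofNat (nat_lit 816372), .ofNat (nat_lit 603890), .ofNat (nat_lit 786985), .ofNat (nat_lit 626295), .ofNat (nat_lit 809402)⟩, ⟨.ofNat (nat_lit 0), .ofNat (nat_lit 0), .ofNat (nat_lit 0), .ofNat (nat_lit 0), .ofNat (nat_lit 0), .ofNat (nat_lit 0), .ofNat (nat_lit 0), .ofNat (nat_lit 0)⟩⟩, []⟩
noncomputable def p024_l222 : Lf2 := ⟨nat_lit 0, nat_lit 10, [nat_lit 0, nat_lit 5, nat_lit 5, nat_lit 20], false, nat_lit 0, nat_lit 0, nat_lit 0, nat_lit 0, ⟨nat_lit 194, nat_lit 806, nat_lit 0, nat_lit 6, nat_lit 278, nat_lit 0, nat_lit 0, nat_lit 0, nat_lit 0, nat_lit 0, nat_lit 0, nat_lit 0, nat_lit 45145209, nat_lit 21854791, nat_lit 0, nat_lit 3157240, true, true⟩,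
 nat_lit 3237, nat_lit 0, nat_lit 0, nat_lit 0, nat_lit 2921, nat_lit 1713, nat_lit 181, nat_lit 0, nat_lit 0, nat_lit 148, nat_lit 0, nat_lit 0, nat_lit 0, nat_lit 0, nat_lit 0, nat_lit 201500, nat_lit 0, nat_lit 0, [(nat_lit 24, [(nat_lit 0, nat_lit 806)])],
 ⟨p024_k27, nat_lit 0, nat_lit 0, nat_lit 272, nat_lit 0, nat_lit 415824, [nat_lit 797111201, nat_lit 1738671201, nat_lit 2284185600], [], [nat_lit 25816414240, nat_lit 26290548481, nat_lit 29479635787, nat_lit 29875096639], nat_lit 1271250, nat_lit 1271250, nat_lit 1271250, nat_lit 1271250, nat_lit 0, nat_lit 0, [nat_lit 230000, nat_lit 780000, nat_lit 1100000], [nat_lit 35, nat_lit 40, nat_lit 80, nat_lit 80, nat_lit 22, nat_lit 203, nat_lit 0, nat_lit 8]⟩, ⟨p024_k37, nat_lit 0, nat_lit 0, nat_lit 600, nat_lit 0, nat_lit 791742, [nat_lit 909472000, nat_lit 1545792000, nat_lit 2303168000], [], [nat_lit 7284891232, nat_lit 7323131676,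 nat_lit 7709426207, nat_lit 7737731733], nat_lit 1271250, nat_lit 1271250, nat_lit 1271250, nat_lit 1271250, nat_lit 0, nat_lit 0, [nat_lit 1100000, nat_lit 1785000, nat_lit 1271250], [nat_lit 21, nat_lit 40, nat_lit 80, nat_lit 80, nat_lit 14, nat_lit 401, nat_lit 175, nat_lit 10]⟩,
 ⟨nat_lit 2236, nat_lit 2739, ⟨.ofNat (nat_lit 603890), .ofNat (nat_lit 769266), .ofNat (nat_lit 626287), .ofNat (nat_lit 791684), .ofNat (nat_lit 602558), .ofNat (nat_lit 762206), .ofNat (nat_lit 625312), .ofNat (nat_lit 784980)⟩, ⟨.ofNat (nat_lit 0), .ofNat (nat_lit 0), .ofNat (nat_lit 0), .ofNat (nat_lit 0), .ofNat (nat_lit 0), .ofNat (nat_lit 0), .ofNat (nat_lit 0), .ofNat (nat_lit 0)⟩⟩, [⟨nat_lit 13, nat_lit 50, nat_lit 75, nat_lit 100, nat_lit 129997114⟩]⟩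
noncomputable def p024_l223 : Lf2 := ⟨nat_lit 0, nat_lit 10, [nat_lit 0, nat_lit 5, nat_lit 5, nat_lit 20], false, nat_lit 0, nat_lit 0, nat_lit 0, nat_lit 0, ⟨nat_lit 851, nat_lit 149, nat_lit 0, nat_lit 6, nat_lit 295, nat_lit 0, nat_lit 0, nat_lit 0, nat_lit 0, nat_lit 0, nat_lit 0, nat_lit 0, nat_lit 43382991, nat_lit 23617009, nat_lit 0, nat_lit 3244879, true, true⟩,
 nat_lit 11772, nat_lit 0, nat_lit 0, nat_lit 0, nat_lit 4236, nat_lit 6852, nat_lit 246, nat_lit 0, nat_lit 0, nat_lit 692, nat_lit 0, nat_lit 0, nat_lit 0, nat_lit 0, nat_lit 0, nat_lit 149000, nat_lit 0, nat_lit 0, [(nat_lit 24, [(nat_lit 2, nat_lit 149)])],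
 ⟨p024_k25, nat_lit 0, nat_lit 0, nat_lit 291, nat_lit 0, nat_lit 467888, [nat_lit 1016970001, nat_lit 2722534800, nat_lit 3677899200], [], [nat_lit 27469790160, nat_lit 28515115557, nat_lit 33771155159, nat_lit 35130890620], nat_lit 1271250, nat_lit 1271250, nat_lit 1271250, nat_lit 1271250, nat_lit 0, nat_lit 0, [nat_lit 230000, nat_lit 780000, nat_lit 1100000], [nat_lit 35, nat_lit 40, nat_lit 80, nat_lit 80, nat_lit 22, nat_lit 203, nat_lit 0, nat_lit 8]⟩, ⟨p024_k38, nat_lit 0, nat_lit 0, nat_lit 528, nat_lit 0, nat_lit 759316, [nat_lit 3989488000, nat_lit 6780768000, nat_lit 8375542000], [], [nat_lit 28815128366, nat_lit 29146948100, nat_lit 32131278097, nat_lit 32322854375], nat_lit 1271250, nat_lit 1271250, nat_lit 1271250, nat_lit 1271250, nat_lit 0, nat_lit 0, [nat_lit 1100000, nat_lit 1785000, nat_lit 1271250], [nat_lit 29, nat_lit 40, nat_lit 80, nat_lit 80, nat_lit 17, nat_lit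 401, nat_lit 175, nat_lit 11]⟩,
 ⟨nat_lit 2236, nat_lit 3163, ⟨.ofNat (nat_lit 627331), .ofNat (nat_lit 834658), .ofNat (nat_lit 649422), .ofNat (nat_lit 856813), .ofNat (nat_lit 625251), .ofNat (nat_lit 819190), .ofNat (nat_lit 647962), .ofNat (nat_lit 841964)⟩, ⟨.ofNat (nat_lit 0), .ofNat (nat_lit 0), .ofNat (nat_lit 0), .ofNat (nat_lit 0), .ofNat (nat_lit 0), .ofNat (nat_lit 0), .ofNat (nat_lit 0), .ofNat (nat_lit 0)⟩⟩, []⟩
noncomputable def p024_l224 : Lf2 := ⟨nat_lit 0, nat_lit 10, [nat_lit 0, nat_lit 5, nat_lit 5, nat_lit 20], false, nat_lit 0, nat_lit 0, nat_lit 0, nat_lit 0, ⟨nat_lit 170, nat_lit 830, nat_lit 0, nat_lit 6, nat_lit 280, nat_lit 0, nat_lit 0, nat_lit 0, nat_lit 0, nat_lit 0, nat_lit 0, nat_lit 0, nat_lit 44983207, nat_lit 22016793, nat_lit 0, nat_lit 3165944, true, true⟩,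
 nat_lit 2835, nat_lit 0, nat_lit 0, nat_lit 0, nat_lit 2648, nat_lit 1500, nat_lit 0, nat_lit 0, nat_lit 0, nat_lit 116, nat_lit 0, nat_lit 0, nat_lit 0, nat_lit 0, nat_lit 0, nat_lit 301550, nat_lit 0, nat_lit 0, [(nat_lit 27, [(nat_lit 0, nat_lit 203), (nat_lit 1, nat_lit 627)])],
 ⟨p024_k30, nat_lit 0, nat_lit 0, nat_lit 272, nat_lit 0, nat_lit 518855, [nat_lit 755357601, nat_lit 973027200], [], [nat_lit 25576968296, nat_lit 26605583912, nat_lit 29445752908, nat_lit 30284963337], nat_lit 1271250, nat_lit 1271250, nat_lit 1271250, nat_lit 1271250, nat_lit 0, nat_lit 0, [nat_lit 230000, nat_lit 780000], [nat_lit 66, nat_lit 40, nat_lit 80, nat_lit 80, nat_lit 67, nat_lit 203, nat_lit 0, nat_lit 10]⟩, ⟨p024_k37, nat_lit 0, nat_lit 0, nat_lit 722, nat_lit 0, nat_lit 1028529, [nat_lit 796960000, nat_lit 1354560000, nat_lit 2018240000], [], [nat_lit 6765047360, nat_lit 6787169280, nat_lit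 6989958976, nat_lit 7022363745], nat_lit 1271250, nat_lit 1271250, nat_lit 1271250, nat_lit 1271250, nat_lit 0, nat_lit 0, [nat_lit 1100000, nat_lit 1785000, nat_lit 1271250], [nat_lit 21, nat_lit 40, nat_lit 80, nat_lit 80, nat_lit 14, nat_lit 401, nat_lit 175, nat_lit 10]⟩,
 ⟨nat_lit 0, nat_lit 2237, ⟨.ofNat (nat_lit 602531), .ofNat (nat_lit 762201), .ofNat (nat_lit 646249), .ofNat (nat_lit 807752), .ofNat (nat_lit 599967), .ofNat (nat_lit 739994), .ofNat (nat_lit 648136), .ofNat (nat_lit 789996)⟩, ⟨.ofNat (nat_lit 0), .ofNat (nat_lit 0), .ofNat (nat_lit 0), .ofNat (nat_lit 0), .ofNat (nat_lit 0), .ofNat (nat_lit 0), .ofNat (nat_lit 0), .ofNat (nat_lit 0)⟩⟩, [⟨nat_lit 13, nat_lit 33, nat_lit 85, nat_lit 100, nat_lit 249462787⟩]⟩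
noncomputable def p024_l225 : Lf2 := ⟨nat_lit 0, nat_lit 10, [nat_lit 0, nat_lit 5, nat_lit 5, nat_lit 20], false, nat_lit 0, nat_lit 0, nat_lit 0, nat_lit 0, ⟨nat_lit 672, nat_lit 328, nat_lit 0, nat_lit 6, nat_lit 251, nat_lit 0, nat_lit 0, nat_lit 0, nat_lit 0, nat_lit 0, nat_lit 0, nat_lit 0, nat_lit 0, nat_lit 0, nat_lit 0, nat_lit 5000000, false, false⟩,
 nat_lit 0, nat_lit 4392, nat_lit 0, nat_lit 0, nat_lit 3825, nat_lit 3745, nat_lit 101, nat_lit 0, nat_lit 0, nat_lit 0, nat_lit 0, nat_lit 0, nat_lit 0, nat_lit 0, nat_lit 0, nat_lit 328000, nat_lit 0, nat_lit 0, [(nat_lit 24, [(nat_lit 2, nat_lit 328)]), (nat_lit 27, [(nat_lit 2, nat_lit 328)])],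
 ⟨p024_k25, nat_lit 0, nat_lit 0, nat_lit 478, nat_lit 0, nat_lit 957986, [nat_lit 1111840001, nat_lit 2050425601, nat_lit 2464422400], [], [nat_lit 28543308311, nat_lit 30306943623, nat_lit 33958467844, nat_lit 35191915400], nat_lit 1271250, nat_lit 1271250, nat_lit 719601, nat_lit 2861300, nat_lit 0, nat_lit 0, [nat_lit 230000, nat_lit 780000, nat_lit 1100000], [nat_lit 35, nat_lit 40, nat_lit 80, nat_lit 80, nat_lit 22, nat_lit 317, nat_lit 100, nat_lit 14]⟩, ⟨p024_k37, nat_lit 0, nat_lit 0, nat_lit 242, nat_lit 0, nat_lit 0, [nat_lit 3150336000, nat_lit 5354496000, nat_lit 7977984000], [], [nat_lit 22149410500, nat_lit 23592124663, nat_lit 28431412884, nat_lit 29139774555], nat_lit 0, nat_lit 0, nat_lit 0, nat_lit 0, nat_lit 0, nat_lit 0, [], [nat_lit 21, nat_lit 40, nat_lit 80, nat_lit 80, nat_lit 14, nat_lit 401, nat_lit 175, nat_lit 10]⟩,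
 ⟨nat_lit 0, nat_lit 3163, ⟨.ofNat (nat_lit 401957), .ofNat (nat_lit 812499), .ofNat (nat_lit 443658), .ofNat (nat_lit 856810), .ofNat (nat_lit 431745), .ofNat (nat_lit 769995), .ofNat (nat_lit 479136), .ofNat (nat_lit 819996)⟩, ⟨.ofNat (nat_lit 0), .ofNat (nat_lit 0), .ofNat (nat_lit 0), .ofNat (nat_lit 0), .ofNat (nat_lit 0), .ofNat (nat_lit 0), .ofNat (nat_lit 0), .ofNat (nat_lit 0)⟩⟩, [⟨nat_lit 0, nat_lit 96, nat_lit 44, nat_lit 100, nat_lit 131637309⟩]⟩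
noncomputable def p024_l226 : Lf2 := ⟨nat_lit 0, nat_lit 10, [nat_lit 0, nat_lit 5, nat_lit 5, nat_lit 20], false, nat_lit 0, nat_lit 0, nat_lit 0, nat_lit 0, ⟨nat_lit 216, nat_lit 784, nat_lit 0, nat_lit 6, nat_lit 251, nat_lit 0, nat_lit 0, nat_lit 0, nat_lit 0, nat_lit 0, nat_lit 0, nat_lit 0, nat_lit 0, nat_lit 0, nat_lit 0, nat_lit 5000000, false, false⟩,
 nat_lit 3468, nat_lit 0, nat_lit 0, nat_lit 0, nat_lit 3020, nat_lit 1835, nat_lit 59, nat_lit 0, nat_lit 0, nat_lit 63, nat_lit 0, nat_lit 0, nat_lit 0, nat_lit 0, nat_lit 0, nat_lit 331600, nat_lit 0, nat_lit 0, [(nat_lit 24, [(nat_lit 1, nat_lit 754), (nat_lit 2, nat_lit 30)]), (nat_lit 27, [(nat_lit 1, nat_lit 754), (nat_lit 2, nat_lit 30)])],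
 ⟨p024_k25, nat_lit 0, nat_lit 0, nat_lit 333, nat_lit 0, nat_lit 562940, [nat_lit 886040000, nat_lit 1446717334, nat_lit 1669489600], [], [nat_lit 25194668651, nat_lit 27155622891, nat_lit 31316369107, nat_lit 32649830504], nat_lit 1271250, nat_lit 1271250, nat_lit 719601, nat_lit 2861300, nat_lit 0, nat_lit 0, [nat_lit 230000, nat_lit 780000, nat_lit 1100000], [nat_lit 35, nat_lit 40, nat_lit 80, nat_lit 80, nat_lit 22, nat_lit 317, nat_lit 100, nat_lit 14]⟩, ⟨p024_k37, nat_lit 0, nat_lit 0, nat_lit 786, nat_lit 0, nat_lit 1028529, [nat_lit 1012608000, nat_lit 1721088000, nat_lit 2564352000], [], [nat_lit 10356785318, nat_lit 10428453922, nat_lit 11971378172, nat_lit 10317927200], nat_lit 1271250, nat_lit 1271250, nat_lit 719601, nat_lit 2861300, nat_lit 0, nat_lit 0, [nat_lit 1100000, nat_lit 1785000, nat_lit 1271250], [nat_lit 21, nat_lit 40, nat_lit 80, nat_lit 80, nat_lit 14, nat_lit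 401, nat_lit 175, nat_lit 10]⟩,
 ⟨nat_lit 0, nat_lit 3163, ⟨.ofNat (nat_lit 401957), .ofNat (nat_lit 812499), .ofNat (nat_lit 443658), .ofNat (nat_lit 856810), .ofNat (nat_lit 431745), .ofNat (nat_lit 769995), .ofNat (nat_lit 479136), .ofNat (nat_lit 819996)⟩, ⟨.ofNat (nat_lit 0), .ofNat (nat_lit 0), .ofNat (nat_lit 0), .ofNat (nat_lit 0), .ofNat (nat_lit 0), .ofNat (nat_lit 0), .ofNat (nat_lit 0), .ofNat (nat_lit 0)⟩⟩, [⟨nat_lit 13, nat_lit 46, nat_lit 76, nat_lit 100, nat_lit 223140121⟩]⟩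
noncomputable def b_N_900_600_0_2 : St := ⟨false, nat_lit 2, nat_lit 2, nat_lit 0, nat_lit 40, nat_lit 360, nat_lit 400, nat_lit 240, nat_lit 280, nat_lit 112, nat_lit 376, nat_lit 0, nat_lit 0, nat_lit 0, nat_lit 0, nat_lit 0, nat_lit 0, nat_lit 80, nat_lit 120, nat_lit 0, nat_lit 0, nat_lit 0, nat_lit 0⟩
theorem d_N_900_600_0_2 (h : EB TB.env) : Dead b_N_900_600_0_2 := chkB_sound0 h (T :=
(.st (nat_lit 0)
(.gv
(.st (nat_lit 1)
(.leaf p024_l210)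
(.spl (nat_lit 2) (nat_lit 240)
(.leaf p024_l211)
(.spl (nat_lit 2) (nat_lit 320)
(.leaf p024_l212)
(.spl (nat_lit 2) (nat_lit 360)
(.spl (nat_lit 0) (nat_lit 380)
(.spl (nat_lit 2) (nat_lit 340)
(.leaf p024_l213)
(.spl (nat_lit 1) (nat_lit 260)
(.leaf p024_l214)
(.leaf p024_l215)))
(.trX (nat_lit 13) (nat_lit 48) (nat_lit 71) (nat_lit 100) (nat_lit 352) (.leaf p024_l216)))
(.leaf p024_l217)))))
(.leaf p024_l218))
(.gv
(.st (nat_lit 1)
(.leaf p024_l219)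
(.spl (nat_lit 2) (nat_lit 240)
(.leaf p024_l220)
(.spl (nat_lit 0) (nat_lit 380)
(.spl (nat_lit 1) (nat_lit 260)
(.trX (nat_lit 13) (nat_lit 63) (nat_lit 61) (nat_lit 100) (nat_lit 364) (.spl (nat_lit 0) (nat_lit 370)
(.leaf p024_l221)
(.trX (nat_lit 13) (nat_lit 55) (nat_lit 68) (nat_lit 100) (nat_lit 352) (.leaf p024_l222))))
(.leaf p024_l223))
(.trX (nat_lit 13) (nat_lit 48) (nat_lit 71) (nat_lit 100) (nat_lit 352) (.leaf p024_l224)))))
(.st (nat_lit 1)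
(.leaf p024_l225)
(.leaf p024_l226))))) (by decide +kernel)

end B2
end Pool.Agent.Lib.MP_6947cd_al
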