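import Pool.Agent.Lib.MP_6947cd_al.ZB.Pre

/-!
Problem MP_6947cd_al (Chollet).  Case B, second entry in [2/5, 17/20]: certificates of the tree, part P025 (generated).
-/

set_option autoImplicit false
set_option linter.all false

namespace Pool.Agent.Lib.MP_6947cd_al
namespace B2

open Ent Fr B1 PkA

noncomputable def p025_k0 : C1.Kn := ⟨[nat_lit 20, nat_lit 60, nat_lit 80], [nat_lit 0, nat_lit 0, nat_lit 1613], [(nat_lit 0, nat_lit 0, nat_lit 0), (nat_lit 0, nat_lit 0, nat_lit 0), (nat_lit 1000, nat_lit 614, nat_lit 668)], (nat_lit 63, nat_lit 100, nat_lit 62)⟩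
noncomputable def p025_k1 : C1.Kn := ⟨[nat_lit 80, nat_lit 120, nat_lit 160], [nat_lit 0, nat_lit 0, nat_lit 2132], [(nat_lit 0, nat_lit 0, nat_lit 0), (nat_lit 0, nat_lit 0, nat_lit 0), (nat_lit 858, nat_lit 1000, nat_lit 713)], (nat_lit 100, nat_lit 92, nat_lit 61)⟩
noncomputable def p025_k2 : C1.Kn := ⟨[nat_lit 20, nat_lit 60], [nat_lit 0, nat_lit 1415], [(nat_lit 0, nat_lit 0, nat_lit 0), (nat_lit 1000, nat_lit 558, nat_lit 551)], (nat_lit 49, nat_lit 100, nat_lit 68)⟩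
noncomputable def p025_k3 : C1.Kn := ⟨[nat_lit 80, nat_lit 120, nat_lit 140], [nat_lit 0, nat_lit 528, nat_lit 1572], [(nat_lit 0, nat_lit 0, nat_lit 0), (nat_lit 1000, nat_lit 959, nat_lit 206), (nat_lit 966, nat_lit 1000, nat_lit 679)], (nat_lit 100, nat_lit 99, nat_lit 63)⟩
noncomputable def p025_k4 : C1.Kn := ⟨[nat_lit 80, nat_lit 120, nat_lit 140], [nat_lit 0, nat_lit 796, nat_lit 1801], [(nat_lit 0, nat_lit 0, nat_lit 0), (nat_lit 1000, nat_lit 938, nat_lit 310), (nat_lit 982, nat_lit 1000, nat_lit 736)], (nat_lit 98, nat_lit 100, nat_lit 63)⟩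
noncomputable def p025_k5 : C1.Kn := ⟨[nat_lit 20, nat_lit 60], [nat_lit 0, nat_lit 2136], [(nat_lit 0, nat_lit 0, nat_lit 0), (nat_lit 1000, nat_lit 343, nat_lit 808)], (nat_lit 38, nat_lit 100, nat_lit 73)⟩
noncomputable def p025_k6 : C1.Kn := ⟨[nat_lit 20, nat_lit 80], [nat_lit 0, nat_lit 0], [(nat_lit 0, nat_lit 0, nat_lit 0), (nat_lit 0, nat_lit 0, nat_lit 0)], (nat_lit 63, nat_lit 100, nat_lit 62)⟩
noncomputable def p025_k7 : C1.Kn := ⟨[nat_lit 60, nat_lit 140], [nat_lit 0, nat_lit 0], [(nat_lit 0, nat_lit 0, nat_lit 0), (nat_lit 0, nat_lit 0, nat_lit 0)], (nat_lit 94, nat_lit 100, nat_lit 62)⟩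
noncomputable def p025_k8 : C1.Kn := ⟨[nat_lit 60, nat_lit 100, nat_lit 140], [nat_lit 0, nat_lit 0, nat_lit 2047], [(nat_lit 0, nat_lit 0, nat_lit 0), (nat_lit 0, nat_lit 0, nat_lit 0), (nat_lit 1000, nat_lit 993, nat_lit 781)], (nat_lit 94, nat_lit 100, nat_lit 62)⟩
noncomputable def p025_k9 : C1.Kn := ⟨[nat_lit 20, nat_lit 60, nat_lit 80], [nat_lit 0, nat_lit 698, nat_lit 2008], [(nat_lit 0, nat_lit 0, nat_lit 0), (nat_lit 1000, nat_lit 782, nat_lit 272), (nat_lit 1000, nat_lit 540, nat_lit 733)], (nat_lit 57, nat_lit 100, nat_lit 64)⟩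
noncomputable def p025_k10 : C1.Kn := ⟨[nat_lit 20, nat_lit 40, nat_lit 80], [nat_lit 0, nat_lit 0, nat_lit 1598], [(nat_lit 0, nat_lit 0, nat_lit 0), (nat_lit 0, nat_lit 0, nat_lit 0), (nat_lit 1000, nat_lit 625, nat_lit 623)], (nat_lit 63, nat_lit 100, nat_lit 62)⟩
noncomputable def p025_k11 : C1.Kn := ⟨[nat_lit 60, nat_lit 100, nat_lit 120], [nat_lit 0, nat_lit 609, nat_lit 1609], [(nat_lit 0, nat_lit 0, nat_lit 0), (nat_lit 1000, nat_lit 905, nat_lit 238), (nat_lit 1000, nat_lit 882, nat_lit 668)], (nat_lit 87, nat_lit 100, nat_lit 60)⟩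
noncomputable def p025_k12 : C1.Kn := ⟨[nat_lit 60, nat_lit 120, nat_lit 140], [nat_lit 0, nat_lit 0, nat_lit 2047], [(nat_lit 0, nat_lit 0, nat_lit 0), (nat_lit 0, nat_lit 0, nat_lit 0), (nat_lit 1000, nat_lit 993, nat_lit 781)], (nat_lit 94, nat_lit 100, nat_lit 62)⟩
noncomputable def p025_k13 : C1.Kn := ⟨[nat_lit 60, nat_lit 100, nat_lit 120], [nat_lit 0, nat_lit 302, nat_lit 1376], [(nat_lit 0, nat_lit 0, nat_lit 0), (nat_lit 1000, nat_lit 953, nat_lit 118), (nat_lit 1000, nat_lit 911, nat_lit 628)], (nat_lit 91, nat_lit 100, nat_lit 61)⟩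
noncomputable def p025_k14 : C1.Kn := ⟨[nat_lit 60, nat_lit 100, nat_lit 140], [nat_lit 0, nat_lit 151, nat_lit 2175], [(nat_lit 0, nat_lit 0, nat_lit 0), (nat_lit 1000, nat_lit 977, nat_lit 59), (nat_lit 1000, nat_lit 974, nat_lit 785)], (nat_lit 92, nat_lit 100, nat_lit 61)⟩
noncomputable def p025_k15 : C1.Kn := ⟨[nat_lit 20, nat_lit 60], [nat_lit 0, nat_lit 1056], [(nat_lit 0, nat_lit 0, nat_lit 0), (nat_lit 1000, nat_lit 671, nat_lit 411)], (nat_lit 53, nat_lit 100, nat_lit 66)⟩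
noncomputable def p025_k16 : C1.Kn := ⟨[nat_lit 60, nat_lit 100, nat_lit 120], [nat_lit 0, nat_lit 909, nat_lit 1866], [(nat_lit 0, nat_lit 0, nat_lit 0), (nat_lit 1000, nat_lit 858, nat_lit 354), (nat_lit 1000, nat_lit 849, nat_lit 705)], (nat_lit 84, nat_lit 100, nat_lit 60)⟩
noncomputable def p025_k17 : C1.Kn := ⟨[nat_lit 40, nat_lit 100], [nat_lit 0, nat_lit 0], [(nat_lit 0, nat_lit 0, nat_lit 0), (nat_lit 0, nat_lit 0, nat_lit 0)], (nat_lit 80, nat_lit 100, nat_lit 60)⟩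
noncomputable def p025_k18 : C1.Kn := ⟨[nat_lit 20, nat_lit 60], [nat_lit 0, nat_lit 0], [(nat_lit 0, nat_lit 0, nat_lit 0), (nat_lit 0, nat_lit 0, nat_lit 0)], (nat_lit 68, nat_lit 100, nat_lit 49)⟩
noncomputable def p025_k19 : C1.Kn := ⟨[nat_lit 40, nat_lit 80, nat_lit 100], [nat_lit 0, nat_lit 0, nat_lit 1280], [(nat_lit 0, nat_lit 0, nat_lit 0), (nat_lit 0, nat_lit 0, nat_lit 0), (nat_lit 1000, nat_lit 800, nat_lit 600)], (nat_lit 82, nat_lit 100, nat_lit 44)⟩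
noncomputable def p025_k20 : C1.Kn := ⟨[nat_lit 20, nat_lit 60], [nat_lit 0, nat_lit 698], [(nat_lit 0, nat_lit 0, nat_lit 0), (nat_lit 1000, nat_lit 782, nat_lit 272)], (nat_lit 62, nat_lit 100, nat_lit 52)⟩
noncomputable def p025_k21 : C1.Kn := ⟨[nat_lit 40, nat_lit 100], [nat_lit 0, nat_lit 0], [(nat_lit 0, nat_lit 0, nat_lit 0), (nat_lit 0, nat_lit 0, nat_lit 0)], (nat_lit 82, nat_lit 100, nat_lit 44)⟩
noncomputable def p025_k22 : C1.Kn := ⟨[nat_lit 40, nat_lit 80, nat_lit 100], [nat_lit 0, nat_lit 0, nat_lit 1280], [(nat_lit 0, nat_lit 0, nat_lit 0), (nat_lit 0, nat_lit 0, nat_lit 0), (nat_lit 1000, nat_lit 800, nat_lit 600)], (nat_lit 80, nat_lit 100, nat_lit 60)⟩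
noncomputable def p025_k23 : C1.Kn := ⟨[nat_lit 20, nat_lit 60, nat_lit 80], [nat_lit 0, nat_lit 339, nat_lit 1800], [(nat_lit 0, nat_lit 0, nat_lit 0), (nat_lit 1000, nat_lit 894, nat_lit 132), (nat_lit 1000, nat_lit 578, nat_lit 704)], (nat_lit 60, nat_lit 100, nat_lit 63)⟩
noncomputable def p025_k24 : C1.Kn := ⟨[nat_lit 40, nat_lit 80, nat_lit 100], [nat_lit 0, nat_lit 395, nat_lit 1536], [(nat_lit 0, nat_lit 0, nat_lit 0), (nat_lit 1000, nat_lit 908, nat_lit 154), (nat_lit 1000, nat_lit 760, nat_lit 642)], (nat_lit 76, nat_lit 100, nat_lit 60)⟩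
noncomputable def p025_k25 : C1.Kn := ⟨[nat_lit 20, nat_lit 80], [nat_lit 0, nat_lit 508], [(nat_lit 0, nat_lit 0, nat_lit 0), (nat_lit 1000, nat_lit 894, nat_lit 132)], (nat_lit 60, nat_lit 100, nat_lit 63)⟩
noncomputable def p025_k26 : C1.Kn := ⟨[nat_lit 20, nat_lit 80], [nat_lit 0, nat_lit 1046], [(nat_lit 0, nat_lit 0, nat_lit 0), (nat_lit 1000, nat_lit 782, nat_lit 272)], (nat_lit 57, nat_lit 100, nat_lit 64)⟩
noncomputable def p025_k27 : C1.Kn := ⟨[nat_lit 100, nat_lit 120], [nat_lit 0, nat_lit 0], [(nat_lit 0, nat_lit 0, nat_lit 0), (nat_lit 0, nat_lit 0, nat_lit 0)], (nat_lit 100, nat_lit 98, nat_lit 20)⟩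
noncomputable def p025_k28 : C1.Kn := ⟨[nat_lit 100, nat_lit 120], [nat_lit 0, nat_lit 254], [(nat_lit 0, nat_lit 0, nat_lit 0), (nat_lit 1000, nat_lit 1000, nat_lit 198)], (nat_lit 100, nat_lit 100, nat_lit 20)⟩
noncomputable def p025_k29 : C1.Kn := ⟨[nat_lit 120, nat_lit 140], [nat_lit 0, nat_lit 0], [(nat_lit 0, nat_lit 0, nat_lit 0), (nat_lit 0, nat_lit 0, nat_lit 0)], (nat_lit 100, nat_lit 94, nat_lit 20)⟩
noncomputable def p025_k30 : C1.Kn := ⟨[nat_lit 100, nat_lit 120], [nat_lit 0, nat_lit 448], [(nat_lit 0, nat_lit 0, nat_lit 0), (nat_lit 1000, nat_lit 1000, nat_lit 350)], (nat_lit 98, nat_lit 100, nat_lit 20)⟩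
noncomputable def p025_k31 : C1.Kn := ⟨[nat_lit 120, nat_lit 140], [nat_lit 0, nat_lit 399], [(nat_lit 0, nat_lit 0, nat_lit 0), (nat_lit 942, nat_lit 1000, nat_lit 293)], (nat_lit 100, nat_lit 97, nat_lit 20)⟩
noncomputable def p025_l0 : Lf2 := ⟨nat_lit 0, nat_lit 10, [nat_lit 0, nat_lit 5, nat_lit 5, nat_lit 20], false, nat_lit 0, nat_lit 0, nat_lit 0, nat_lit 0, ⟨nat_lit 1000, nat_lit 0, nat_lit 0, nat_lit 0, nat_lit 0, nat_lit 0, nat_lit 0, nat_lit 0, nat_lit 0, nat_lit 0, nat_lit 0, nat_lit 0, nat_lit 0, nat_lit 0, nat_lit 0, nat_lit 0, false, false⟩,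
 nat_lit 0, nat_lit 0, nat_lit 0, nat_lit 0, nat_lit 1516, nat_lit 0, nat_lit 0, nat_lit 0, nat_lit 0, nat_lit 0, nat_lit 0, nat_lit 0, nat_lit 0, nat_lit 0, nat_lit 0, nat_lit 0, nat_lit 0, nat_lit 0, [],
 ⟨p025_k0, nat_lit 0, nat_lit 0, nat_lit 172, nat_lit 0, nat_lit 0, [nat_lit 938000000, nat_lit 3282000000, nat_lit 4688000000], [], [nat_lit 31225034490, nat_lit 33283133517, nat_lit 38603030208, nat_lit 40006072645], nat_lit 0, nat_lit 0, nat_lit 0, nat_lit 0, nat_lit 0, nat_lit 0, [], [nat_lit 35, nat_lit 40, nat_lit 80, nat_lit 80, nat_lit 22, nat_lit 317, nat_lit 100, nat_lit 14]⟩, ⟨p025_k1, nat_lit 0, nat_lit 0, nat_lit 242, nat_lit 0, nat_lit 0, [nat_lit 4688000000, nat_lit 7968000000, nat_lit 11872000000], [], [nat_lit 37190976000, nat_lit 38377587200, nat_lit 44070044000, nat_lit 45014690400], nat_lit 0, nat_lit 0, nat_lit 0, nat_lit 0, nat_lit 0, nat_lit 0, [], [nat_lit 21,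 nat_lit 40, nat_lit 80, nat_lit 80, nat_lit 14, nat_lit 401, nat_lit 175, nat_lit 10]⟩,
 zbF0, [⟨nat_lit 0, nat_lit 96, nat_lit 44, nat_lit 100, nat_lit 312668324⟩]⟩
noncomputable def p025_l1 : Lf2 := ⟨nat_lit 0, nat_lit 10, [nat_lit 0, nat_lit 5, nat_lit 5, nat_lit 20], true, nat_lit 0, nat_lit 0, nat_lit 0, nat_lit 0, ⟨nat_lit 0, nat_lit 379, nat_lit 621, nat_lit 6, nat_lit 213, nat_lit 0, nat_lit 0, nat_lit 0, nat_lit 0, nat_lit 215, nat_lit 23440, nat_lit 200, nat_lit 52221722, nat_lit 14778278, nat_lit 0, nat_lit 2638149, false, false⟩,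
 nat_lit 0, nat_lit 0, nat_lit 0, nat_lit 402, nat_lit 2240, nat_lit 0, nat_lit 0, nat_lit 0, nat_lit 0, nat_lit 0, nat_lit 0, nat_lit 0, nat_lit 0, nat_lit 0, nat_lit 1, nat_lit 250000, nat_lit 0, nat_lit 0, [(nat_lit 24, [(nat_lit 0, nat_lit 379), (nat_lit 4, nat_lit 621)]), (nat_lit 27, [(nat_lit 0, nat_lit 379), (nat_lit 4, nat_lit 621)])],
 ⟨p025_k0, nat_lit 0, nat_lit 0, nat_lit 161, nat_lit 0, nat_lit 0, [nat_lit 772876801, nat_lit 263635600, nat_lit 9656400], [], [nat_lit 19091072290, nat_lit 21994163424, nat_lit 21942769363, nat_lit 24424170885], nat_lit 0, nat_lit 0, nat_lit 0, nat_lit 0, nat_lit 0, nat_lit 0, [], [nat_lit 35, nat_lit 40, nat_lit 80, nat_lit 80, nat_lit 22, nat_lit 272, nat_lit 60, nat_lit 12]⟩, C1.Rw.none,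
 ⟨nat_lit 0, nat_lit 3163, ⟨.ofNat (nat_lit 401957), .ofNat (nat_lit 605128), .ofNat (nat_lit 443658), .ofNat (nat_lit 646918), .ofNat (nat_lit 431745), .ofNat (nat_lit 599865), .ofNat (nat_lit 479136), .ofNat (nat_lit 647345)⟩, ⟨.ofNat (nat_lit 0), .ofNat (nat_lit 0), .ofNat (nat_lit 0), .ofNat (nat_lit 0), .ofNat (nat_lit 0), .ofNat (nat_lit 0), .ofNat (nat_lit 0), .ofNat (nat_lit 0)⟩⟩, []⟩
noncomputable def p025_l2 : Lf2 := ⟨nat_lit 0, nat_lit 10, [nat_lit 0, nat_lit 5, nat_lit 5, nat_lit 20], false, nat_lit 0, nat_lit 0, nat_lit 0, nat_lit 0, ⟨nat_lit 52, nat_lit 948, nat_lit 0, nat_lit 6, nat_lit 274, nat_lit 0, nat_lit 0, nat_lit 0, nat_lit 0, nat_lit 0, nat_lit 0, nat_lit 0, nat_lit 45588736, nat_lit 21411264, nat_lit 0, nat_lit 3132727, true, true⟩,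
 nat_lit 0, nat_lit 0, nat_lit 886, nat_lit 0, nat_lit 2958, nat_lit 468, nat_lit 0, nat_lit 0, nat_lit 0, nat_lit 35, nat_lit 0, nat_lit 0, nat_lit 0, nat_lit 0, nat_lit 0, nat_lit 237000, nat_lit 0, nat_lit 0, [(nat_lit 24, [(nat_lit 0, nat_lit 948)])],
 ⟨p025_k0, nat_lit 0, nat_lit 0, nat_lit 139, nat_lit 0, nat_lit 0, [nat_lit 772289601, nat_lit 1466769601, nat_lit 1860684800], [], [nat_lit 24035787761, nat_lit 25294017677, nat_lit 27219112337, nat_lit 28290425905], nat_lit 0, nat_lit 0, nat_lit 0, nat_lit 0, nat_lit 0, nat_lit 0, [], [nat_lit 35, nat_lit 40, nat_lit 80, nat_lit 80, nat_lit 22, nat_lit 203, nat_lit 0, nat_lit 8]⟩, ⟨p025_k1, nat_lit 0, nat_lit 0, nat_lit 717, nat_lit 0, nat_lit 1015364, [nat_lit 243776000, nat_lit 414336000, nat_lit 617344000], [], [nat_lit 2036440952, nat_lit 2042635192, nat_lit 2066620452, nat_lit 2075050588], nat_lit 1271250, nat_lit 1271250, nat_lit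 1271250, nat_lit 1271250, nat_lit 0, nat_lit 0, [nat_lit 1100000, nat_lit 1785000, nat_lit 1271250], [nat_lit 21, nat_lit 40, nat_lit 80, nat_lit 80, nat_lit 14, nat_lit 373, nat_lit 150, nat_lit 9]⟩,
 ⟨nat_lit 2236, nat_lit 3163, ⟨.ofNat (nat_lit 605240), .ofNat (nat_lit 727168), .ofNat (nat_lit 649422), .ofNat (nat_lit 771478), .ofNat (nat_lit 602541), .ofNat (nat_lit 716594), .ofNat (nat_lit 647962), .ofNat (nat_lit 762142)⟩, ⟨.ofNat (nat_lit 0), .ofNat (nat_lit 0), .ofNat (nat_lit 0), .ofNat (nat_lit 0), .ofNat (nat_lit 0), .ofNat (nat_lit 0), .ofNat (nat_lit 0), .ofNat (nat_lit 0)⟩⟩, []⟩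
noncomputable def p025_l3 : Lf2 := ⟨nat_lit 0, nat_lit 10, [nat_lit 0, nat_lit 5, nat_lit 5, nat_lit 20], true, nat_lit 0, nat_lit 0, nat_lit 0, nat_lit 0, ⟨nat_lit 0, nat_lit 1000, nat_lit 0, nat_lit 6, nat_lit 271, nat_lit 0, nat_lit 0, nat_lit 0, nat_lit 0, nat_lit 0, nat_lit 0, nat_lit 0, nat_lit 45891781, nat_lit 21108219, nat_lit 0, nat_lit 3115400, true, true⟩,
 nat_lit 0, nat_lit 0, nat_lit 0, nat_lit 0, nat_lit 2382, nat_lit 0, nat_lit 0, nat_lit 0, nat_lit 0, nat_lit 0, nat_lit 0, nat_lit 0, nat_lit 0, nat_lit 0, nat_lit 0, nat_lit 250000, nat_lit 0, nat_lit 0, [(nat_lit 27, [(nat_lit 0, nat_lit 1000)])],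
 ⟨p025_k2, nat_lit 0, nat_lit 0, nat_lit 132, nat_lit 0, nat_lit 0, [nat_lit 780800001, nat_lit 1042800000], [], [nat_lit 24056530122, nat_lit 25209271322, nat_lit 26947873358, nat_lit 27939537426], nat_lit 0, nat_lit 0, nat_lit 0, nat_lit 0, nat_lit 0, nat_lit 0, [], [nat_lit 66, nat_lit 40, nat_lit 80, nat_lit 80, nat_lit 67, nat_lit 203, nat_lit 0, nat_lit 10]⟩, C1.Rw.none,
 ⟨nat_lit 0, nat_lit 2237, ⟨.ofNat (nat_lit 602531), .ofNat (nat_lit 716590), .ofNat (nat_lit 646249), .ofNat (nat_lit 762141), .ofNat (nat_lit 599967), .ofNat (nat_lit 699995), .ofNat (nat_lit 648136), .ofNat (nat_lit 749998)⟩, ⟨.ofNat (nat_lit 0), .ofNat (nat_lit 0), .ofNat (nat_lit 0), .ofNat (nat_lit 0), .ofNat (nat_lit 0), .ofNat (nat_lit 0), .ofNat (nat_lit 0), .ofNat (nat_lit 0)⟩⟩, [⟨nat_lit 13, nat_lit 33, nat_lit 85, nat_lit 100, nat_lit 39236407⟩]⟩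
noncomputable def p025_l4 : Lf2 := ⟨nat_lit 0, nat_lit 10, [nat_lit 0, nat_lit 5, nat_lit 5, nat_lit 20], false, nat_lit 0, nat_lit 0, nat_lit 0, nat_lit 0, ⟨nat_lit 80, nat_lit 920, nat_lit 0, nat_lit 8, nat_lit 306, nat_lit 0, nat_lit 0, nat_lit 0, nat_lit 0, nat_lit 0, nat_lit 0, nat_lit 0, nat_lit 42242668, nat_lit 24757332, nat_lit 0, nat_lit 3293477, true, true⟩,
 nat_lit 0, nat_lit 0, nat_lit 1289, nat_lit 0, nat_lit 3115, nat_lit 682, nat_lit 0, nat_lit 0, nat_lit 0, nat_lit 54, nat_lit 0, nat_lit 0, nat_lit 0, nat_lit 0, nat_lit 0, nat_lit 230000, nat_lit 0, nat_lit 0, [(nat_lit 24, [(nat_lit 0, nat_lit 920)])],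
 ⟨p025_k0, nat_lit 0, nat_lit 0, nat_lit 162, nat_lit 0, nat_lit 0, [nat_lit 777184001, nat_lit 1520384001, nat_lit 1944192000], [], [nat_lit 28128455540, nat_lit 29170598090, nat_lit 30153430239, nat_lit 31096136519], nat_lit 0, nat_lit 0, nat_lit 0, nat_lit 0, nat_lit 0, nat_lit 0, [], [nat_lit 35, nat_lit 40, nat_lit 80, nat_lit 80, nat_lit 22, nat_lit 203, nat_lit 0, nat_lit 7]⟩, ⟨p025_k1, nat_lit 0, nat_lit 0, nat_lit 649, nat_lit 0, nat_lit 870129, [nat_lit 375040000, nat_lit 637440000, nat_lit 949760000], [], [nat_lit 3265620536, nat_lit 3267933380, nat_lit 3346914326, nat_lit 3350696102], nat_lit 1271250, nat_lit 1271250, nat_lit 1271250, nat_lit 1271250, nat_lit 0, nat_lit 0, [nat_lit 1100000, nat_lit 1785000, nat_lit 1271250], [nat_lit 21, nat_lit 40, nat_lit 80, nat_lit 80, nat_lit 14, nat_lit 289, nat_lit 75, nat_lit 7]⟩,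
 ⟨nat_lit 2236, nat_lit 3163, ⟨.ofNat (nat_lit 727168), .ofNat (nat_lit 794217), .ofNat (nat_lit 749323), .ofNat (nat_lit 816372), .ofNat (nat_lit 716594), .ofNat (nat_lit 779311), .ofNat (nat_lit 739368), .ofNat (nat_lit 802085)⟩, ⟨.ofNat (nat_lit 0), .ofNat (nat_lit 0), .ofNat (nat_lit 0), .ofNat (nat_lit 0), .ofNat (nat_lit 0), .ofNat (nat_lit 0), .ofNat (nat_lit 0), .ofNat (nat_lit 0)⟩⟩, [⟨nat_lit 13, nat_lit 54, nat_lit 71, nat_lit 100, nat_lit 337579293⟩]⟩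
noncomputable def p025_l5 : Lf2 := ⟨nat_lit 0, nat_lit 10, [nat_lit 0, nat_lit 5, nat_lit 5, nat_lit 20], true, nat_lit 0, nat_lit 0, nat_lit 0, nat_lit 0, ⟨nat_lit 0, nat_lit 1000, nat_lit 0, nat_lit 8, nat_lit 293, nat_lit 0, nat_lit 0, nat_lit 0, nat_lit 0, nat_lit 0, nat_lit 0, nat_lit 0, nat_lit 43557728, nat_lit 23442272, nat_lit 0, nat_lit 3236875, true, true⟩,
 nat_lit 0, nat_lit 0, nat_lit 0, nat_lit 2979, nat_lit 2465, nat_lit 0, nat_lit 0, nat_lit 0, nat_lit 0, nat_lit 0, nat_lit 0, nat_lit 0, nat_lit 0, nat_lit 0, nat_lit 0, nat_lit 250000, nat_lit 0, nat_lit 0, [(nat_lit 27, [(nat_lit 0, nat_lit 1000)])],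
 ⟨p025_k2, nat_lit 0, nat_lit 0, nat_lit 137, nat_lit 0, nat_lit 0, [nat_lit 780800001, nat_lit 1042800000], [], [nat_lit 27123962413, nat_lit 28170396540, nat_lit 27962873236, nat_lit 29143282990], nat_lit 0, nat_lit 0, nat_lit 0, nat_lit 0, nat_lit 0, nat_lit 0, [], [nat_lit 66, nat_lit 40, nat_lit 80, nat_lit 80, nat_lit 67, nat_lit 203, nat_lit 0, nat_lit 9]⟩, C1.Rw.none,
 ⟨nat_lit 0, nat_lit 2237, ⟨.ofNat (nat_lit 716590), .ofNat (nat_lit 745097), .ofNat (nat_lit 739366), .ofNat (nat_lit 767872), .ofNat (nat_lit 699995), .ofNat (nat_lit 724995), .ofNat (nat_lit 724997), .ofNat (nat_lit 749995)⟩, ⟨.ofNat (nat_lit 0), .ofNat (nat_lit 0), .ofNat (nat_lit 0), .ofNat (nat_lit 0), .ofNat (nat_lit 0), .ofNat (nat_lit 0), .ofNat (nat_lit 0), .ofNat (nat_lit 0)⟩⟩, [⟨nat_lit 13, nat_lit 46, nat_lit 76, nat_lit 100, nat_lit 441387283⟩]⟩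
noncomputable def p025_l6 : Lf2 := ⟨nat_lit 0, nat_lit 10, [nat_lit 0, nat_lit 5, nat_lit 5, nat_lit 20], false, nat_lit 0, nat_lit 0, nat_lit 0, nat_lit 0, ⟨nat_lit 97, nat_lit 903, nat_lit 0, nat_lit 8, nat_lit 312, nat_lit 0, nat_lit 0, nat_lit 0, nat_lit 0, nat_lit 0, nat_lit 0, nat_lit 0, nat_lit 41692147, nat_lit 25307853, nat_lit 0, nat_lit 3314706, true, true⟩,
 nat_lit 0, nat_lit 0, nat_lit 1434, nat_lit 0, nat_lit 3025, nat_lit 834, nat_lit 0, nat_lit 0, nat_lit 0, nat_lit 59, nat_lit 0, nat_lit 0, nat_lit 0, nat_lit 0, nat_lit 0, nat_lit 225750, nat_lit 0, nat_lit 0, [(nat_lit 24, [(nat_lit 0, nat_lit 903)]), (nat_lit 27, [(nat_lit 0, nat_lit 903)])],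
 ⟨p025_k0, nat_lit 0, nat_lit 0, nat_lit 171, nat_lit 0, nat_lit 0, [nat_lit 796048401, nat_lit 1552935601, nat_lit 1994892800], [], [nat_lit 28258729500, nat_lit 30318324000, nat_lit 30626519795, nat_lit 32455859986], nat_lit 0, nat_lit 0, nat_lit 0, nat_lit 0, nat_lit 0, nat_lit 0, [], [nat_lit 35, nat_lit 40, nat_lit 80, nat_lit 80, nat_lit 22, nat_lit 203, nat_lit 0, nat_lit 7]⟩, ⟨p025_k3, nat_lit 0, nat_lit 0, nat_lit 723, nat_lit 0, nat_lit 1195080, [nat_lit 454736000, nat_lit 772896000, nat_lit 954674000], [], [nat_lit 3547866660, nat_lit 3550821582, nat_lit 3737861702, nat_lit 3760061389], nat_lit 1271250, nat_lit 1271250, nat_lit 1271250, nat_lit 1271250, nat_lit 0, nat_lit 0, [nat_lit 1100000, nat_lit 1785000, nat_lit 1271250], [nat_lit 29, nat_lit 40, nat_lit 80, nat_lit 80, nat_lit 17, nat_lit 289, nat_lit 75, nat_lit 8]⟩,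
 ⟨nat_lit 0, nat_lit 3163, ⟨.ofNat (nat_lit 749322), .ofNat (nat_lit 828559), .ofNat (nat_lit 760400), .ofNat (nat_lit 839637), .ofNat (nat_lit 724998), .ofNat (nat_lit 789995), .ofNat (nat_lit 737498), .ofNat (nat_lit 802496)⟩, ⟨.ofNat (nat_lit 0), .ofNat (nat_lit 0), .ofNat (nat_lit 0), .ofNat (nat_lit 0), .ofNat (nat_lit 0), .ofNat (nat_lit 0), .ofNat (nat_lit 0), .ofNat (nat_lit 0)⟩⟩, [⟨nat_lit 13, nat_lit 46, nat_lit 75, nat_lit 100, nat_lit 455104390⟩]⟩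
noncomputable def p025_l7 : Lf2 := ⟨nat_lit 0, nat_lit 10, [nat_lit 0, nat_lit 5, nat_lit 5, nat_lit 20], false, nat_lit 0, nat_lit 0, nat_lit 0, nat_lit 0, ⟨nat_lit 120, nat_lit 880, nat_lit 0, nat_lit 8, nat_lit 321, nat_lit 0, nat_lit 0, nat_lit 0, nat_lit 0, nat_lit 0, nat_lit 0, nat_lit 0, nat_lit 40754774, nat_lit 26245226, nat_lit 0, nat_lit 3347555, true, true⟩,
 nat_lit 0, nat_lit 0, nat_lit 1416, nat_lit 0, nat_lit 3147, nat_lit 862, nat_lit 0, nat_lit 0, nat_lit 0, nat_lit 88, nat_lit 0, nat_lit 0, nat_lit 0, nat_lit 0, nat_lit 0, nat_lit 220000, nat_lit 0, nat_lit 0, [(nat_lit 24, [(nat_lit 0, nat_lit 880)])],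
 ⟨p025_k0, nat_lit 0, nat_lit 0, nat_lit 166, nat_lit 0, nat_lit 0, [nat_lit 784176001, nat_lit 1596976000, nat_lit 2063488000], [], [nat_lit 28356781812, nat_lit 29403313802, nat_lit 30943733455, nat_lit 31863262049], nat_lit 0, nat_lit 0, nat_lit 0, nat_lit 0, nat_lit 0, nat_lit 0, [], [nat_lit 35, nat_lit 40, nat_lit 80, nat_lit 80, nat_lit 22, nat_lit 203, nat_lit 0, nat_lit 7]⟩, ⟨p025_k4, nat_lit 0, nat_lit 0, nat_lit 564, nat_lit 0, nat_lit 824301, [nat_lit 562560000, nat_lit 956160000, nat_lit 1181040000], [], [nat_lit 4429644428, nat_lit 4443853960, nat_lit 4628507673, nat_lit 4643016864], nat_lit 1271250, nat_lit 1271250, nat_lit 1271250, nat_lit 1271250, nat_lit 0, nat_lit 0, [nat_lit 1100000, nat_lit 1785000, nat_lit 1271250], [nat_lit 29, nat_lit 40, nat_lit 80, nat_lit 80, nat_lit 17, nat_lit 289, nat_lit 75, nat_lit 8]⟩,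
 ⟨nat_lit 2236, nat_lit 3163, ⟨.ofNat (nat_lit 760401), .ofNat (nat_lit 845735), .ofNat (nat_lit 771478), .ofNat (nat_lit 856813), .ofNat (nat_lit 750755), .ofNat (nat_lit 830577), .ofNat (nat_lit 762142), .ofNat (nat_lit 841964)⟩, ⟨.ofNat (nat_lit 0), .ofNat (nat_lit 0), .ofNat (nat_lit 0), .ofNat (nat_lit 0), .ofNat (nat_lit 0), .ofNat (nat_lit 0), .ofNat (nat_lit 0), .ofNat (nat_lit 0)⟩⟩, [⟨nat_lit 13, nat_lit 47, nat_lit 74, nat_lit 100, nat_lit 379684171⟩]⟩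
noncomputable def p025_l8 : Lf2 := ⟨nat_lit 0, nat_lit 10, [nat_lit 0, nat_lit 5, nat_lit 5, nat_lit 20], true, nat_lit 0, nat_lit 0, nat_lit 0, nat_lit 0, ⟨nat_lit 0, nat_lit 1000, nat_lit 0, nat_lit 8, nat_lit 309, nat_lit 0, nat_lit 0, nat_lit 0, nat_lit 0, nat_lit 0, nat_lit 0, nat_lit 0, nat_lit 42000701, nat_lit 24999299, nat_lit 0, nat_lit 3302986, true, true⟩,
 nat_lit 0, nat_lit 0, nat_lit 0, nat_lit 0, nat_lit 2436, nat_lit 0, nat_lit 0, nat_lit 0, nat_lit 0, nat_lit 0, nat_lit 0, nat_lit 0, nat_lit 0, nat_lit 0, nat_lit 0, nat_lit 250000, nat_lit 0, nat_lit 0, [(nat_lit 27, [(nat_lit 0, nat_lit 1000)])],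
 ⟨p025_k2, nat_lit 0, nat_lit 0, nat_lit 139, nat_lit 0, nat_lit 0, [nat_lit 780800001, nat_lit 1042800000], [], [nat_lit 27159873867, nat_lit 28137910483, nat_lit 28497123394, nat_lit 29639879024], nat_lit 0, nat_lit 0, nat_lit 0, nat_lit 0, nat_lit 0, nat_lit 0, [], [nat_lit 66, nat_lit 40, nat_lit 80, nat_lit 80, nat_lit 67, nat_lit 203, nat_lit 0, nat_lit 9]⟩, C1.Rw.none,
 ⟨nat_lit 0, nat_lit 2237, ⟨.ofNat (nat_lit 750753), .ofNat (nat_lit 796364), .ofNat (nat_lit 762141), .ofNat (nat_lit 807752), .ofNat (nat_lit 737497), .ofNat (nat_lit 777495), .ofNat (nat_lit 749998), .ofNat (nat_lit 789996)⟩, ⟨.ofNat (nat_lit 0), .ofNat (nat_lit 0), .ofNat (nat_lit 0), .ofNat (nat_lit 0), .ofNat (nat_lit 0), .ofNat (nat_lit 0), .ofNat (nat_lit 0), .ofNat (nat_lit 0)⟩⟩, [⟨nat_lit 13, nat_lit 48, nat_lit 71, nat_lit 100, nat_lit 411513317⟩]⟩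
noncomputable def p025_l9 : Lf2 := ⟨nat_lit 0, nat_lit 10, [nat_lit 0, nat_lit 5, nat_lit 5, nat_lit 20], true, nat_lit 0, nat_lit 0, nat_lit 0, nat_lit 0, ⟨nat_lit 0, nat_lit 1000, nat_lit 0, nat_lit 6, nat_lit 251, nat_lit 0, nat_lit 0, nat_lit 0, nat_lit 0, nat_lit 0, nat_lit 0, nat_lit 0, nat_lit 0, nat_lit 0, nat_lit 0, nat_lit 5000000, false, false⟩,
 nat_lit 0, nat_lit 0, nat_lit 0, nat_lit 3019, nat_lit 2989, nat_lit 0, nat_lit 0, nat_lit 0, nat_lit 0, nat_lit 0, nat_lit 0, nat_lit 0, nat_lit 0, nat_lit 0, nat_lit 0, nat_lit 250000, nat_lit 0, nat_lit 0, [(nat_lit 24, [(nat_lit 0, nat_lit 1000)]), (nat_lit 27, [(nat_lit 0, nat_lit 1000)])],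
 ⟨p025_k0, nat_lit 0, nat_lit 0, nat_lit 172, nat_lit 0, nat_lit 0, [nat_lit 780800001, nat_lit 1367200000, nat_lit 1705600000], [], [nat_lit 21901991675, nat_lit 24808133960, nat_lit 30230695848, nat_lit 32550255720], nat_lit 0, nat_lit 0, nat_lit 0, nat_lit 0, nat_lit 0, nat_lit 0, [], [nat_lit 35, nat_lit 40, nat_lit 80, nat_lit 80, nat_lit 22, nat_lit 317, nat_lit 100, nat_lit 14]⟩, C1.Rw.none,
 ⟨nat_lit 0, nat_lit 3163, ⟨.ofNat (nat_lit 401957), .ofNat (nat_lit 812499), .ofNat (nat_lit 443658), .ofNat (nat_lit 856810), .ofNat (nat_lit 431745), .ofNat (nat_lit 769995), .ofNat (nat_lit 479136), .ofNat (nat_lit 819996)⟩, ⟨.ofNat (nat_lit 0), .ofNat (nat_lit 0), .ofNat (nat_lit 0), .ofNat (nat_lit 0), .ofNat (nat_lit 0), .ofNat (nat_lit 0), .ofNat (nat_lit 0), .ofNat (nat_lit 0)⟩⟩, [⟨nat_lit 13, nat_lit 65, nat_lit 54, nat_lit 100, nat_lit 410298500⟩]⟩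
noncomputable def p025_l10 : Lf2 := ⟨nat_lit 0, nat_lit 10, [nat_lit 0, nat_lit 5, nat_lit 5, nat_lit 20], false, nat_lit 0, nat_lit 0, nat_lit 0, nat_lit 0, ⟨nat_lit 1000, nat_lit 0, nat_lit 0, nat_lit 0, nat_lit 0, nat_lit 0, nat_lit 0, nat_lit 0, nat_lit 0, nat_lit 0, nat_lit 0, nat_lit 0, nat_lit 0, nat_lit 0, nat_lit 0, nat_lit 0, false, false⟩,
 nat_lit 0, nat_lit 5234, nat_lit 0, nat_lit 0, nat_lit 4558, nat_lit 6651, nat_lit 335, nat_lit 0, nat_lit 0, nat_lit 0, nat_lit 0, nat_lit 0, nat_lit 0, nat_lit 0, nat_lit 0, nat_lit 0, nat_lit 0, nat_lit 0, [],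
 ⟨p025_k0, nat_lit 0, nat_lit 0, nat_lit 345, nat_lit 0, nat_lit 603576, [nat_lit 938000000, nat_lit 3282000000, nat_lit 4688000000], [], [nat_lit 28775000491, nat_lit 31087729392, nat_lit 35742807891, nat_lit 37509802800], nat_lit 1271250, nat_lit 1271250, nat_lit 719601, nat_lit 2861300, nat_lit 0, nat_lit 0, [nat_lit 230000, nat_lit 780000, nat_lit 1100000], [nat_lit 35, nat_lit 40, nat_lit 80, nat_lit 80, nat_lit 22, nat_lit 317, nat_lit 100, nat_lit 14]⟩, ⟨p025_k1, nat_lit 0, nat_lit 0, nat_lit 242, nat_lit 0, nat_lit 0, [nat_lit 4688000000, nat_lit 7968000000, nat_lit 11872000000], [], [nat_lit 32142031635, nat_lit 34500325904, nat_lit 43184739522, nat_lit 44430417509], nat_lit 0, nat_lit 0, nat_lit 0, nat_lit 0, nat_lit 0, nat_lit 0, [], [nat_lit 21, nat_lit 40, nat_lit 80, nat_lit 80, nat_lit 14, nat_lit 401, nat_lit 175, nat_lit 10]⟩,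
 zbF0, [⟨nat_lit 0, nat_lit 96, nat_lit 44, nat_lit 100, nat_lit 296406958⟩]⟩
noncomputable def p025_l11 : Lf2 := ⟨nat_lit 0, nat_lit 10, [nat_lit 0, nat_lit 5, nat_lit 5, nat_lit 20], false, nat_lit 0, nat_lit 0, nat_lit 0, nat_lit 0, ⟨nat_lit 164, nat_lit 162, nat_lit 674, nat_lit 6, nat_lit 213, nat_lit 0, nat_lit 0, nat_lit 0, nat_lit 0, nat_lit 215, nat_lit 23440, nat_lit 200, nat_lit 52221722, nat_lit 14778278, nat_lit 0, nat_lit 2638149, false, false⟩,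
 nat_lit 2950, nat_lit 0, nat_lit 0, nat_lit 0, nat_lit 2569, nat_lit 1561, nat_lit 0, nat_lit 0, nat_lit 0, nat_lit 130, nat_lit 0, nat_lit 0, nat_lit 0, nat_lit 0, nat_lit 0, nat_lit 209000, nat_lit 0, nat_lit 0, [(nat_lit 24, [(nat_lit 0, nat_lit 162), (nat_lit 4, nat_lit 674)]), (nat_lit 27, [(nat_lit 0, nat_lit 162), (nat_lit 4, nat_lit 674)])],
 ⟨p025_k0, nat_lit 0, nat_lit 0, nat_lit 266, nat_lit 0, nat_lit 368526, [nat_lit 793640000, nat_lit 470453600, nat_lit 333125600], [], [nat_lit 20933945696, nat_lit 22976074541, nat_lit 23311745580, nat_lit 25247545648], nat_lit 1271250, nat_lit 1271250, nat_lit 719601, nat_lit 1758000, nat_lit 0, nat_lit 0, [nat_lit 230000, nat_lit 780000, nat_lit 1100000], [nat_lit 35, nat_lit 40, nat_lit 80, nat_lit 80, nat_lit 22, nat_lit 272, nat_lit 60, nat_lit 12]⟩, ⟨p025_k1, nat_lit 0, nat_lit 0, nat_lit 613, nat_lit 0, nat_lit 687522, [nat_lit 768832000,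 nat_lit 1306752000, nat_lit 1947008000], [], [nat_lit 6423664628, nat_lit 6136696681, nat_lit 6539978784, nat_lit 5820566124], nat_lit 1271250, nat_lit 1271250, nat_lit 719601, nat_lit 1758000, nat_lit 0, nat_lit 0, [nat_lit 1100000, nat_lit 1785000, nat_lit 1271250], [nat_lit 21, nat_lit 40, nat_lit 80, nat_lit 80, nat_lit 14, nat_lit 373, nat_lit 150, nat_lit 10]⟩,
 ⟨nat_lit 0, nat_lit 3163, ⟨.ofNat (nat_lit 401957), .ofNat (nat_lit 605128), .ofNat (nat_lit 443658), .ofNat (nat_lit 646918), .ofNat (nat_lit 431745), .ofNat (nat_lit 599865), .ofNat (nat_lit 479136), .ofNat (nat_lit 647345)⟩, ⟨.ofNat (nat_lit 0), .ofNat (nat_lit 0), .ofNat (nat_lit 0), .ofNat (nat_lit 0), .ofNat (nat_lit 0), .ofNat (nat_lit 0), .ofNat (nat_lit 0), .ofNat (nat_lit 0)⟩⟩, [⟨nat_lit 0, nat_lit 96, nat_lit 44, nat_lit 100, nat_lit 1755051⟩]⟩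
noncomputable def p025_l12 : Lf2 := ⟨nat_lit 0, nat_lit 10, [nat_lit 0, nat_lit 5, nat_lit 5, nat_lit 20], false, nat_lit 0, nat_lit 0, nat_lit 0, nat_lit 0, ⟨nat_lit 1000, nat_lit 0, nat_lit 0, nat_lit 0, nat_lit 0, nat_lit 0, nat_lit 0, nat_lit 0, nat_lit 0, nat_lit 0, nat_lit 0, nat_lit 0, nat_lit 0, nat_lit 0, nat_lit 0, nat_lit 0, false, false⟩,
 nat_lit 12839, nat_lit 0, nat_lit 0, nat_lit 0, nat_lit 5742, nat_lit 6797, nat_lit 0, nat_lit 0, nat_lit 0, nat_lit 820, nat_lit 0, nat_lit 0, nat_lit 0, nat_lit 0, nat_lit 0, nat_lit 0, nat_lit 0, nat_lit 0, [],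
 ⟨p025_k0, nat_lit 0, nat_lit 0, nat_lit 237, nat_lit 0, nat_lit 266276, [nat_lit 938000000, nat_lit 3282000000, nat_lit 4688000000], [], [nat_lit 30585095600, nat_lit 32009680848, nat_lit 38050114405, nat_lit 39649759883], nat_lit 1271250, nat_lit 1271250, nat_lit 1271250, nat_lit 1271250, nat_lit 0, nat_lit 0, [nat_lit 230000, nat_lit 780000, nat_lit 1100000], [nat_lit 35, nat_lit 40, nat_lit 80, nat_lit 80, nat_lit 22, nat_lit 203, nat_lit 0, nat_lit 8]⟩, ⟨p025_k1, nat_lit 0, nat_lit 0, nat_lit 488, nat_lit 0, nat_lit 496764, [nat_lit 4688000000, nat_lit 7968000000, nat_lit 11872000000], [], [nat_lit 39707672776, nat_lit 40254814548, nat_lit 43299999298, nat_lit 43869062800], nat_lit 1271250, nat_lit 1271250, nat_lit 1271250, nat_lit 1271250, nat_lit 0, nat_lit 0, [nat_lit 1100000, nat_lit 1785000, nat_lit 1271250], [nat_lit 21, nat_lit 40, nat_lit 80, nat_lit 80, nat_lit 14, nat_lit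 401, nat_lit 175, nat_lit 10]⟩,
 zbF0, []⟩
noncomputable def p025_l13 : Lf2 := ⟨nat_lit 0, nat_lit 10, [nat_lit 0, nat_lit 5, nat_lit 5, nat_lit 20], false, nat_lit 0, nat_lit 0, nat_lit 0, nat_lit 0, ⟨nat_lit 225, nat_lit 775, nat_lit 0, nat_lit 6, nat_lit 280, nat_lit 0, nat_lit 0, nat_lit 0, nat_lit 0, nat_lit 0, nat_lit 0, nat_lit 0, nat_lit 44983207, nat_lit 22016793, nat_lit 0, nat_lit 3165944, true, true⟩,
 nat_lit 2926, nat_lit 0, nat_lit 0, nat_lit 0, nat_lit 2734, nat_lit 1549, nat_lit 0, nat_lit 0, nat_lit 0, nat_lit 177, nat_lit 0, nat_lit 0, nat_lit 0, nat_lit 0, nat_lit 0, nat_lit 246100, nat_lit 0, nat_lit 0, [(nat_lit 27, [(nat_lit 0, nat_lit 426), (nat_lit 1, nat_lit 349)])],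
 ⟨p025_k2, nat_lit 0, nat_lit 0, nat_lit 226, nat_lit 0, nat_lit 338854, [nat_lit 787133201, nat_lit 1295898400], [], [nat_lit 25938826981, nat_lit 26956526505, nat_lit 29710307275, nat_lit 30537658166], nat_lit 1271250, nat_lit 1271250, nat_lit 1271250, nat_lit 1271250, nat_lit 0, nat_lit 0, [nat_lit 230000, nat_lit 780000], [nat_lit 66, nat_lit 40, nat_lit 80, nat_lit 80, nat_lit 67, nat_lit 203, nat_lit 0, nat_lit 10]⟩, ⟨p025_k1, nat_lit 0, nat_lit 0, nat_lit 560, nat_lit 0, nat_lit 687522, [nat_lit 1054800000, nat_lit 1792800000, nat_lit 2671200000], [], [nat_lit 9053613152, nat_lit 9168851316, nat_lit 9586679388, nat_lit 9687613935], nat_lit 1271250, nat_lit 1271250, nat_lit 1271250, nat_lit 1271250, nat_lit 0, nat_lit 0, [nat_lit 1100000, nat_lit 1785000, nat_lit 1271250], [nat_lit 21, nat_lit 40, nat_lit 80, nat_lit 80, nat_lit 14, nat_lit 401, nat_lit 175, nat_lit 10]⟩,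
 ⟨nat_lit 0, nat_lit 2237, ⟨.ofNat (nat_lit 602531), .ofNat (nat_lit 762201), .ofNat (nat_lit 646249), .ofNat (nat_lit 807752), .ofNat (nat_lit 599967), .ofNat (nat_lit 739994), .ofNat (nat_lit 648136), .ofNat (nat_lit 789996)⟩, ⟨.ofNat (nat_lit 0), .ofNat (nat_lit 0), .ofNat (nat_lit 0), .ofNat (nat_lit 0), .ofNat (nat_lit 0), .ofNat (nat_lit 0), .ofNat (nat_lit 0), .ofNat (nat_lit 0)⟩⟩, [⟨nat_lit 13, nat_lit 33, nat_lit 85, nat_lit 100, nat_lit 213253034⟩]⟩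
noncomputable def p025_l14 : Lf2 := ⟨nat_lit 0, nat_lit 10, [nat_lit 0, nat_lit 5, nat_lit 5, nat_lit 20], false, nat_lit 0, nat_lit 0, nat_lit 0, nat_lit 0, ⟨nat_lit 878, nat_lit 122, nat_lit 0, nat_lit 6, nat_lit 251, nat_lit 0, nat_lit 0, nat_lit 0, nat_lit 0, nat_lit 0, nat_lit 0, nat_lit 0, nat_lit 0, nat_lit 0, nat_lit 0, nat_lit 5000000, false, false⟩,
 nat_lit 0, nat_lit 4755, nat_lit 0, nat_lit 0, nat_lit 4141, nat_lit 5000, nat_lit 219, nat_lit 0, nat_lit 0, nat_lit 0, nat_lit 0, nat_lit 0, nat_lit 0, nat_lit 0, nat_lit 0, nat_lit 122000, nat_lit 0, nat_lit 0, [(nat_lit 24, [(nat_lit 2, nat_lit 122)]), (nat_lit 27, [(nat_lit 2, nat_lit 122)])],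
 ⟨p025_k0, nat_lit 0, nat_lit 0, nat_lit 345, nat_lit 0, nat_lit 603576, [nat_lit 1002660000, nat_lit 2823914400, nat_lit 3860937600], [], [nat_lit 28801507557, nat_lit 30946136666, nat_lit 34714066360, nat_lit 36191538409], nat_lit 1271250, nat_lit 1271250, nat_lit 719601, nat_lit 2861300, nat_lit 0, nat_lit 0, [nat_lit 230000, nat_lit 780000, nat_lit 1100000], [nat_lit 35, nat_lit 40, nat_lit 80, nat_lit 80, nat_lit 22, nat_lit 317, nat_lit 100, nat_lit 14]⟩, ⟨p025_k1, nat_lit 0, nat_lit 0, nat_lit 242, nat_lit 0, nat_lit 0, [nat_lit 4116064000, nat_lit 6995904000, nat_lit 10423616000], [], [nat_lit 28858048928, nat_lit 30761457562, nat_lit 37113496223, nat_lit 38177726263], nat_lit 0, nat_lit 0, nat_lit 0, nat_lit 0, nat_lit 0, nat_lit 0, [], [nat_lit 21, nat_lit 40, nat_lit 80, nat_lit 80, nat_lit 14, nat_lit 401, nat_lit 175, nat_lit 10]⟩,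
 ⟨nat_lit 0, nat_lit 3163, ⟨.ofNat (nat_lit 401957), .ofNat (nat_lit 812499), .ofNat (nat_lit 443658), .ofNat (nat_lit 856810), .ofNat (nat_lit 431745), .ofNat (nat_lit 769995), .ofNat (nat_lit 479136), .ofNat (nat_lit 819996)⟩, ⟨.ofNat (nat_lit 0), .ofNat (nat_lit 0), .ofNat (nat_lit 0), .ofNat (nat_lit 0), .ofNat (nat_lit 0), .ofNat (nat_lit 0), .ofNat (nat_lit 0), .ofNat (nat_lit 0)⟩⟩, [⟨nat_lit 0, nat_lit 96, nat_lit 44, nat_lit 100, nat_lit 302194379⟩]⟩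
noncomputable def p025_l15 : Lf2 := ⟨nat_lit 0, nat_lit 10, [nat_lit 0, nat_lit 5, nat_lit 5, nat_lit 20], false, nat_lit 0, nat_lit 0, nat_lit 0, nat_lit 0, ⟨nat_lit 181, nat_lit 819, nat_lit 0, nat_lit 6, nat_lit 251, nat_lit 0, nat_lit 0, nat_lit 0, nat_lit 0, nat_lit 0, nat_lit 0, nat_lit 0, nat_lit 0, nat_lit 0, nat_lit 0, nat_lit 5000000, false, false⟩,
 nat_lit 3493, nat_lit 0, nat_lit 0, nat_lit 0, nat_lit 3042, nat_lit 1849, nat_lit 0, nat_lit 0, nat_lit 0, nat_lit 42, nat_lit 0, nat_lit 0, nat_lit 0, nat_lit 0, nat_lit 0, nat_lit 325650, nat_lit 0, nat_lit 0, [(nat_lit 24, [(nat_lit 0, nat_lit 13), (nat_lit 1, nat_lit 806)]), (nat_lit 27, [(nat_lit 0, nat_lit 13), (nat_lit 1, nat_lit 806)])],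
 ⟨p025_k0, nat_lit 0, nat_lit 0, nat_lit 271, nat_lit 0, nat_lit 368526, [nat_lit 863416400, nat_lit 1415666267, nat_lit 1639947200], [], [nat_lit 24606860396, nat_lit 26795155378, nat_lit 31301553296, nat_lit 32726976472], nat_lit 1271250, nat_lit 1271250, nat_lit 719601, nat_lit 2861300, nat_lit 0, nat_lit 0, [nat_lit 230000, nat_lit 780000, nat_lit 1100000], [nat_lit 35, nat_lit 40, nat_lit 80, nat_lit 80, nat_lit 22, nat_lit 317, nat_lit 100, nat_lit 14]⟩, ⟨p025_k1, nat_lit 0, nat_lit 0, nat_lit 613, nat_lit 0, nat_lit 687522, [nat_lit 848528000, nat_lit 1442208000, nat_lit 2148832000], [], [nat_lit 8479234303, nat_lit 8610340448, nat_lit 10307487944, nat_lit 8645038599], nat_lit 1271250, nat_lit 1271250, nat_lit 719601, nat_lit 2861300, nat_lit 0, nat_lit 0, [nat_lit 1100000, nat_lit 1785000, nat_lit 1271250], [nat_lit 21, nat_lit 40, nat_lit 80, nat_lit 80, nat_lit 14, nat_lit 401,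 nat_lit 175, nat_lit 10]⟩,
 ⟨nat_lit 0, nat_lit 3163, ⟨.ofNat (nat_lit 401957), .ofNat (nat_lit 812499), .ofNat (nat_lit 443658), .ofNat (nat_lit 856810), .ofNat (nat_lit 431745), .ofNat (nat_lit 769995), .ofNat (nat_lit 479136), .ofNat (nat_lit 819996)⟩, ⟨.ofNat (nat_lit 0), .ofNat (nat_lit 0), .ofNat (nat_lit 0), .ofNat (nat_lit 0), .ofNat (nat_lit 0), .ofNat (nat_lit 0), .ofNat (nat_lit 0), .ofNat (nat_lit 0)⟩⟩, [⟨nat_lit 13, nat_lit 46, nat_lit 76, nat_lit 100, nat_lit 290472613⟩]⟩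
noncomputable def p025_l16 : Lf2 := ⟨nat_lit 0, nat_lit 10, [nat_lit 0, nat_lit 5, nat_lit 5, nat_lit 20], false, nat_lit 0, nat_lit 0, nat_lit 0, nat_lit 0, ⟨nat_lit 1000, nat_lit 0, nat_lit 0, nat_lit 0, nat_lit 0, nat_lit 0, nat_lit 0, nat_lit 0, nat_lit 0, nat_lit 0, nat_lit 0, nat_lit 0, nat_lit 0, nat_lit 0, nat_lit 0, nat_lit 0, false, false⟩,
 nat_lit 0, nat_lit 0, nat_lit 0, nat_lit 31715, nat_lit 4829, nat_lit 0, nat_lit 0, nat_lit 0, nat_lit 0, nat_lit 0, nat_lit 0, nat_lit 0, nat_lit 0, nat_lit 0, nat_lit 0, nat_lit 0, nat_lit 0, nat_lit 0, [],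
 ⟨p025_k0, nat_lit 0, nat_lit 0, nat_lit 172, nat_lit 0, nat_lit 0, [nat_lit 938000000, nat_lit 3282000000, nat_lit 4688000000], [], [nat_lit 27004254139, nat_lit 30776085512, nat_lit 36163605704, nat_lit 38367028187], nat_lit 0, nat_lit 0, nat_lit 0, nat_lit 0, nat_lit 0, nat_lit 0, [], [nat_lit 35, nat_lit 40, nat_lit 80, nat_lit 80, nat_lit 22, nat_lit 317, nat_lit 100, nat_lit 14]⟩, ⟨p025_k1, nat_lit 0, nat_lit 0, nat_lit 242, nat_lit 0, nat_lit 0, [nat_lit 4688000000, nat_lit 7968000000, nat_lit 11872000000], [], [nat_lit 37190976000, nat_lit 38377587200, nat_lit 44070044000, nat_lit 45014690400], nat_lit 0, nat_lit 0, nat_lit 0, nat_lit 0, nat_lit 0, nat_lit 0, [], [nat_lit 21, nat_lit 40, nat_lit 80, nat_lit 80, nat_lit 14, nat_lit 401, nat_lit 175, nat_lit 10]⟩,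
 zbF0, [⟨nat_lit 0, nat_lit 96, nat_lit 44, nat_lit 100, nat_lit 389359469⟩]⟩
noncomputable def p025_l17 : Lf2 := ⟨nat_lit 0, nat_lit 10, [nat_lit 0, nat_lit 5, nat_lit 5, nat_lit 20], false, nat_lit 0, nat_lit 0, nat_lit 0, nat_lit 0, ⟨nat_lit 1000, nat_lit 0, nat_lit 0, nat_lit 0, nat_lit 0, nat_lit 0, nat_lit 0, nat_lit 0, nat_lit 0, nat_lit 0, nat_lit 0, nat_lit 0, nat_lit 0, nat_lit 0, nat_lit 0, nat_lit 0, false, false⟩,
 nat_lit 0, nat_lit 0, nat_lit 12561, nat_lit 0, nat_lit 4951, nat_lit 6649, nat_lit 0, nat_lit 0, nat_lit 0, nat_lit 0, nat_lit 0, nat_lit 0, nat_lit 0, nat_lit 0, nat_lit 0, nat_lit 0, nat_lit 0, nat_lit 0, [],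
 ⟨p025_k0, nat_lit 0, nat_lit 0, nat_lit 166, nat_lit 0, nat_lit 0, [nat_lit 938000000, nat_lit 3282000000, nat_lit 4688000000], [], [nat_lit 26947064150, nat_lit 28861679312, nat_lit 36161491249, nat_lit 37276450519], nat_lit 0, nat_lit 0, nat_lit 0, nat_lit 0, nat_lit 0, nat_lit 0, [], [nat_lit 35, nat_lit 40, nat_lit 80, nat_lit 80, nat_lit 22, nat_lit 317, nat_lit 100, nat_lit 14]⟩, ⟨p025_k1, nat_lit 0, nat_lit 0, nat_lit 342, nat_lit 0, nat_lit 135193, [nat_lit 4688000000, nat_lit 7968000000, nat_lit 11872000000], [], [nat_lit 46245943482, nat_lit 47586824365, nat_lit 53786741972, nat_lit 52497428419], nat_lit 1271250, nat_lit 1271250, nat_lit 719601, nat_lit 2861300, nat_lit 0, nat_lit 0, [nat_lit 1100000, nat_lit 1785000, nat_lit 1271250], [nat_lit 21, nat_lit 40, nat_lit 80, nat_lit 80, nat_lit 14, nat_lit 401, nat_lit 175, nat_lit 10]⟩,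
 zbF0, [⟨nat_lit 0, nat_lit 92, nat_lit 44, nat_lit 100, nat_lit 406099132⟩]⟩
noncomputable def p025_l18 : Lf2 := ⟨nat_lit 0, nat_lit 10, [nat_lit 0, nat_lit 5, nat_lit 5, nat_lit 20], false, nat_lit 0, nat_lit 0, nat_lit 0, nat_lit 0, ⟨nat_lit 1000, nat_lit 0, nat_lit 0, nat_lit 0, nat_lit 0, nat_lit 0, nat_lit 0, nat_lit 0, nat_lit 0, nat_lit 0, nat_lit 0, nat_lit 0, nat_lit 0, nat_lit 0, nat_lit 0, nat_lit 0, false, false⟩,
 nat_lit 0, nat_lit 0, nat_lit 11311, nat_lit 0, nat_lit 3126, nat_lit 5988, nat_lit 0, nat_lit 0, nat_lit 0, nat_lit 0, nat_lit 0, nat_lit 0, nat_lit 0, nat_lit 0, nat_lit 0, nat_lit 0, nat_lit 0, nat_lit 0, [],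
 ⟨p025_k2, nat_lit 0, nat_lit 0, nat_lit 136, nat_lit 0, nat_lit 0, [nat_lit 938000000, nat_lit 3282000000], [], [nat_lit 25678512017, nat_lit 26431844869, nat_lit 32723481844, nat_lit 33257993569], nat_lit 0, nat_lit 0, nat_lit 0, nat_lit 0, nat_lit 0, nat_lit 0, [], [nat_lit 66, nat_lit 40, nat_lit 80, nat_lit 80, nat_lit 67, nat_lit 203, nat_lit 0, nat_lit 11]⟩, ⟨p025_k1, nat_lit 0, nat_lit 0, nat_lit 403, nat_lit 0, nat_lit 334132, [nat_lit 4688000000, nat_lit 7968000000, nat_lit 11872000000], [], [nat_lit 47001572469, nat_lit 48159893434, nat_lit 51245716833, nat_lit 51864564794], nat_lit 1271250, nat_lit 1271250, nat_lit 1000851, nat_lit 2724650, nat_lit 0, nat_lit 0, [nat_lit 1100000, nat_lit 1785000, nat_lit 1271250], [nat_lit 21, nat_lit 40, nat_lit 80, nat_lit 80, nat_lit 14, nat_lit 401, nat_lit 175, nat_lit 10]⟩,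
 zbF0, [⟨nat_lit 0, nat_lit 92, nat_lit 31, nat_lit 100, nat_lit 625734704⟩]⟩
noncomputable def p025_l19 : Lf2 := ⟨nat_lit 0, nat_lit 10, [nat_lit 0, nat_lit 5, nat_lit 5, nat_lit 20], false, nat_lit 0, nat_lit 0, nat_lit 0, nat_lit 0, ⟨nat_lit 120, nat_lit 880, nat_lit 0, nat_lit 6, nat_lit 258, nat_lit 0, nat_lit 0, nat_lit 0, nat_lit 0, nat_lit 0, nat_lit 0, nat_lit 0, nat_lit 47344157, nat_lit 19655843, nat_lit 0, nat_lit 3025710, true, true⟩,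
 nat_lit 0, nat_lit 0, nat_lit 1467, nat_lit 0, nat_lit 2512, nat_lit 776, nat_lit 0, nat_lit 0, nat_lit 0, nat_lit 90, nat_lit 0, nat_lit 0, nat_lit 0, nat_lit 0, nat_lit 0, nat_lit 220000, nat_lit 0, nat_lit 0, [(nat_lit 27, [(nat_lit 0, nat_lit 880)])],
 ⟨p025_k5, nat_lit 0, nat_lit 0, nat_lit 136, nat_lit 0, nat_lit 0, [nat_lit 799664001, nat_lit 1311504000], [], [nat_lit 23396347575, nat_lit 24049021449, nat_lit 28595427718, nat_lit 29085063041], nat_lit 0, nat_lit 0, nat_lit 0, nat_lit 0, nat_lit 0, nat_lit 0, [], [nat_lit 66, nat_lit 40, nat_lit 80, nat_lit 80, nat_lit 67, nat_lit 203, nat_lit 0, nat_lit 10]⟩, ⟨p025_k1, nat_lit 0, nat_lit 0, nat_lit 519, nat_lit 0, nat_lit 541298, [nat_lit 562560000, nat_lit 956160000, nat_lit 1424640000], [], [nat_lit 5012012297, nat_lit 5077891125, nat_lit 5221521877, nat_lit 5264062973], nat_lit 1271250, nat_lit 1271250, nat_lit 1236400, nat_lit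 2630401, nat_lit 0, nat_lit 0, [nat_lit 1100000, nat_lit 1785000, nat_lit 1271250], [nat_lit 21, nat_lit 40, nat_lit 80, nat_lit 80, nat_lit 14, nat_lit 401, nat_lit 175, nat_lit 10]⟩,
 ⟨nat_lit 0, nat_lit 1582, ⟨.ofNat (nat_lit 511747), .ofNat (nat_lit 732386), .ofNat (nat_lit 557064), .ofNat (nat_lit 779018), .ofNat (nat_lit 517899), .ofNat (nat_lit 719995), .ofNat (nat_lit 566585), .ofNat (nat_lit 769997)⟩, ⟨.ofNat (nat_lit 0), .ofNat (nat_lit 0), .ofNat (nat_lit 0), .ofNat (nat_lit 0), .ofNat (nat_lit 0), .ofNat (nat_lit 0), .ofNat (nat_lit 0), .ofNat (nat_lit 0)⟩⟩, [⟨nat_lit 13, nat_lit 23, nat_lit 91, nat_lit 100, nat_lit 246232069⟩]⟩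
noncomputable def p025_l20 : Lf2 := ⟨nat_lit 0, nat_lit 10, [nat_lit 0, nat_lit 5, nat_lit 5, nat_lit 20], true, nat_lit 0, nat_lit 0, nat_lit 0, nat_lit 0, ⟨nat_lit 0, nat_lit 1000, nat_lit 0, nat_lit 6, nat_lit 251, nat_lit 0, nat_lit 0, nat_lit 0, nat_lit 0, nat_lit 0, nat_lit 0, nat_lit 0, nat_lit 0, nat_lit 0, nat_lit 0, nat_lit 5000000, false, false⟩,
 nat_lit 0, nat_lit 0, nat_lit 0, nat_lit 6032, nat_lit 2662, nat_lit 0, nat_lit 0, nat_lit 0, nat_lit 0, nat_lit 0, nat_lit 0, nat_lit 0, nat_lit 0, nat_lit 0, nat_lit 0, nat_lit 250000, nat_lit 0, nat_lit 0, [(nat_lit 24, [(nat_lit 0, nat_lit 1000)]), (nat_lit 27, [(nat_lit 0, nat_lit 1000)])],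
 ⟨p025_k0, nat_lit 0, nat_lit 0, nat_lit 172, nat_lit 0, nat_lit 0, [nat_lit 780800001, nat_lit 1367200000, nat_lit 1705600000], [], [nat_lit 22265811909, nat_lit 24817573248, nat_lit 30236731696, nat_lit 31969154971], nat_lit 0, nat_lit 0, nat_lit 0, nat_lit 0, nat_lit 0, nat_lit 0, [], [nat_lit 35, nat_lit 40, nat_lit 80, nat_lit 80, nat_lit 22, nat_lit 317, nat_lit 100, nat_lit 14]⟩, C1.Rw.none,
 ⟨nat_lit 0, nat_lit 3163, ⟨.ofNat (nat_lit 401957), .ofNat (nat_lit 812499), .ofNat (nat_lit 443658), .ofNat (nat_lit 856810), .ofNat (nat_lit 431745), .ofNat (nat_lit 769995), .ofNat (nat_lit 479136), .ofNat (nat_lit 819996)⟩, ⟨.ofNat (nat_lit 0), .ofNat (nat_lit 0), .ofNat (nat_lit 0), .ofNat (nat_lit 0), .ofNat (nat_lit 0), .ofNat (nat_lit 0), .ofNat (nat_lit 0), .ofNat (nat_lit 0)⟩⟩, [⟨nat_lit 13, nat_lit 65, nat_lit 54, nat_lit 100, nat_lit 395013207⟩]⟩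
noncomputable def p025_l21 : Lf2 := ⟨nat_lit 0, nat_lit 10, [nat_lit 0, nat_lit 5, nat_lit 5, nat_lit 20], false, nat_lit 0, nat_lit 0, nat_lit 0, nat_lit 0, ⟨nat_lit 1000, nat_lit 0, nat_lit 0, nat_lit 0, nat_lit 0, nat_lit 0, nat_lit 0, nat_lit 0, nat_lit 0, nat_lit 0, nat_lit 0, nat_lit 0, nat_lit 0, nat_lit 0, nat_lit 0, nat_lit 0, false, false⟩,
 nat_lit 0, nat_lit 6201, nat_lit 0, nat_lit 0, nat_lit 5400, nat_lit 0, nat_lit 0, nat_lit 0, nat_lit 0, nat_lit 0, nat_lit 0, nat_lit 0, nat_lit 0, nat_lit 0, nat_lit 0, nat_lit 0, nat_lit 0, nat_lit 0, [],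
 ⟨p025_k0, nat_lit 0, nat_lit 0, nat_lit 229, nat_lit 0, nat_lit 226839, [nat_lit 938000000, nat_lit 3282000000, nat_lit 4688000000], [], [nat_lit 28999460321, nat_lit 32387921921, nat_lit 37082963361, nat_lit 40168726401], nat_lit 1271250, nat_lit 1271250, nat_lit 719601, nat_lit 2861300, nat_lit 0, nat_lit 0, [nat_lit 230000, nat_lit 780000, nat_lit 1100000], [nat_lit 35, nat_lit 40, nat_lit 80, nat_lit 80, nat_lit 22, nat_lit 317, nat_lit 100, nat_lit 14]⟩, ⟨p025_k1, nat_lit 0, nat_lit 0, nat_lit 242, nat_lit 0, nat_lit 0, [nat_lit 4688000000, nat_lit 7968000000, nat_lit 11872000000], [], [nat_lit 37190976000, nat_lit 38377587200, nat_lit 44070044000, nat_lit 45014690400], nat_lit 0, nat_lit 0, nat_lit 0, nat_lit 0, nat_lit 0, nat_lit 0, [], [nat_lit 21, nat_lit 40, nat_lit 80, nat_lit 80, nat_lit 14, nat_lit 401, nat_lit 175, nat_lit 10]⟩,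
 zbF0, [⟨nat_lit 0, nat_lit 96, nat_lit 44, nat_lit 100, nat_lit 137386454⟩]⟩
noncomputable def p025_l22 : Lf2 := ⟨nat_lit 0, nat_lit 10, [nat_lit 0, nat_lit 5, nat_lit 5, nat_lit 20], false, nat_lit 0, nat_lit 0, nat_lit 0, nat_lit 0, ⟨nat_lit 1000, nat_lit 0, nat_lit 0, nat_lit 0, nat_lit 0, nat_lit 0, nat_lit 0, nat_lit 0, nat_lit 0, nat_lit 0, nat_lit 0, nat_lit 0, nat_lit 0, nat_lit 0, nat_lit 0, nat_lit 0, false, false⟩,
 nat_lit 12727, nat_lit 0, nat_lit 0, nat_lit 0, nat_lit 4830, nat_lit 6737, nat_lit 0, nat_lit 0, nat_lit 0, nat_lit 0, nat_lit 0, nat_lit 0, nat_lit 0, nat_lit 0, nat_lit 0, nat_lit 0, nat_lit 0, nat_lit 0, [],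
 ⟨p025_k0, nat_lit 0, nat_lit 0, nat_lit 205, nat_lit 0, nat_lit 141355, [nat_lit 938000000, nat_lit 3282000000, nat_lit 4688000000], [], [nat_lit 27944595600, nat_lit 31307578489, nat_lit 36367937924, nat_lit 38369045168], nat_lit 1271250, nat_lit 1271250, nat_lit 719601, nat_lit 2861300, nat_lit 0, nat_lit 0, [nat_lit 230000, nat_lit 780000, nat_lit 1100000], [nat_lit 35, nat_lit 40, nat_lit 80, nat_lit 80, nat_lit 22, nat_lit 317, nat_lit 100, nat_lit 14]⟩, ⟨p025_k1, nat_lit 0, nat_lit 0, nat_lit 393, nat_lit 0, nat_lit 266528, [nat_lit 4688000000, nat_lit 7968000000, nat_lit 11872000000], [], [nat_lit 46115903981, nat_lit 47558333132, nat_lit 53864730036, nat_lit 52456246320], nat_lit 1271250, nat_lit 1271250, nat_lit 719601, nat_lit 2861300, nat_lit 0, nat_lit 0, [nat_lit 1100000, nat_lit 1785000, nat_lit 1271250], [nat_lit 21, nat_lit 40, nat_lit 80, nat_lit 80, nat_lit 14, nat_lit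 401, nat_lit 175, nat_lit 10]⟩,
 zbF0, [⟨nat_lit 0, nat_lit 96, nat_lit 44, nat_lit 100, nat_lit 415134600⟩]⟩
noncomputable def p025_l23 : Lf2 := ⟨nat_lit 0, nat_lit 10, [nat_lit 0, nat_lit 5, nat_lit 5, nat_lit 20], true, nat_lit 0, nat_lit 0, nat_lit 0, nat_lit 0, ⟨nat_lit 0, nat_lit 1000, nat_lit 0, nat_lit 6, nat_lit 251, nat_lit 0, nat_lit 0, nat_lit 0, nat_lit 0, nat_lit 0, nat_lit 0, nat_lit 0, nat_lit 0, nat_lit 0, nat_lit 0, nat_lit 5000000, false, false⟩,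
 nat_lit 0, nat_lit 3434, nat_lit 0, nat_lit 0, nat_lit 2990, nat_lit 0, nat_lit 0, nat_lit 0, nat_lit 0, nat_lit 0, nat_lit 0, nat_lit 0, nat_lit 0, nat_lit 0, nat_lit 0, nat_lit 250000, nat_lit 0, nat_lit 0, [(nat_lit 24, [(nat_lit 0, nat_lit 1000)]), (nat_lit 27, [(nat_lit 0, nat_lit 1000)])],
 ⟨p025_k0, nat_lit 0, nat_lit 0, nat_lit 229, nat_lit 0, nat_lit 226839, [nat_lit 780800001, nat_lit 1367200000, nat_lit 1705600000], [], [nat_lit 23717355017, nat_lit 26134740298, nat_lit 30988605301, nat_lit 32558378140], nat_lit 1271250, nat_lit 1271250, nat_lit 719601, nat_lit 2861300, nat_lit 0, nat_lit 0, [nat_lit 230000, nat_lit 780000, nat_lit 1100000], [nat_lit 35, nat_lit 40, nat_lit 80, nat_lit 80, nat_lit 22, nat_lit 317, nat_lit 100, nat_lit 14]⟩, C1.Rw.none,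
 ⟨nat_lit 0, nat_lit 3163, ⟨.ofNat (nat_lit 401957), .ofNat (nat_lit 812499), .ofNat (nat_lit 443658), .ofNat (nat_lit 856810), .ofNat (nat_lit 431745), .ofNat (nat_lit 769995), .ofNat (nat_lit 479136), .ofNat (nat_lit 819996)⟩, ⟨.ofNat (nat_lit 0), .ofNat (nat_lit 0), .ofNat (nat_lit 0), .ofNat (nat_lit 0), .ofNat (nat_lit 0), .ofNat (nat_lit 0), .ofNat (nat_lit 0), .ofNat (nat_lit 0)⟩⟩, [⟨nat_lit 13, nat_lit 46, nat_lit 76, nat_lit 100, nat_lit 88885265⟩, ⟨nat_lit 13, nat_lit 65, nat_lit 54, nat_lit 100, nat_lit 310901615⟩]⟩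
noncomputable def b_N_900_600_0_3 : St := ⟨false, nat_lit 2, nat_lit 2, nat_lit 0, nat_lit 40, nat_lit 360, nat_lit 400, nat_lit 240, nat_lit 280, nat_lit 112, nat_lit 376, nat_lit 0, nat_lit 0, nat_lit 0, nat_lit 0, nat_lit 0, nat_lit 0, nat_lit 120, nat_lit 184, nat_lit 0, nat_lit 0, nat_lit 0, nat_lit 0⟩
theorem d_N_900_600_0_3 (h : EB TB.env) : Dead b_N_900_600_0_3 := chkB_sound0 h (T :=
(.spl (nat_lit 6) (nat_lit 160)
(.st (nat_lit 0)
(.gv
(.st (nat_lit 1)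
(.leaf p025_l0)
(.spl (nat_lit 2) (nat_lit 240)
(.leaf p025_l1)
(.spl (nat_lit 2) (nat_lit 320)
(.spl (nat_lit 0) (nat_lit 380)
(.leaf p025_l2)
(.leaf p025_l3))
(.spl (nat_lit 1) (nat_lit 260)
(.trX (nat_lit 13) (nat_lit 63) (nat_lit 61) (nat_lit 100) (nat_lit 364) (.spl (nat_lit 0) (nat_lit 380)
(.leaf p025_l4)
(.trX (nat_lit 13) (nat_lit 46) (nat_lit 76) (nat_lit 100) (nat_lit 340) (.leaf p025_l5))))
(.spl (nat_lit 1) (nat_lit 270)
(.trX (nat_lit 13) (nat_lit 64) (nat_lit 58) (nat_lit 100) (nat_lit 372) (.leaf p025_l6))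
(.spl (nat_lit 0) (nat_lit 380)
(.leaf p025_l7)
(.trX (nat_lit 13) (nat_lit 48) (nat_lit 71) (nat_lit 100) (nat_lit 352) (.leaf p025_l8))))))))
(.leaf p025_l9))
(.gv
(.st (nat_lit 1)
(.leaf p025_l10)
(.spl (nat_lit 2) (nat_lit 240)
(.leaf p025_l11)
(.spl (nat_lit 0) (nat_lit 380)
(.leaf p025_l12)
(.trX (nat_lit 13) (nat_lit 48) (nat_lit 71) (nat_lit 100) (nat_lit 352) (.leaf p025_l13)))))
(.st (nat_lit 1)
(.leaf p025_l14)
(.leaf p025_l15))))
(.st (nat_lit 0)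
(.gv
(.st (nat_lit 1)
(.leaf p025_l16)
(.spl (nat_lit 0) (nat_lit 380)
(.leaf p025_l17)
(.trZ (nat_lit 0) (nat_lit 100) (nat_lit 44) (nat_lit 99) (nat_lit 148) (.trX (nat_lit 13) (nat_lit 48) (nat_lit 71) (nat_lit 100) (nat_lit 352) (.spl (nat_lit 0) (nat_lit 390)
(.leaf p025_l18)
(.trZ (nat_lit 0) (nat_lit 99) (nat_lit 31) (nat_lit 100) (nat_lit 176) (.trX (nat_lit 13) (nat_lit 34) (nat_lit 81) (nat_lit 100) (nat_lit 336) (.leaf p025_l19))))))))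
(.leaf p025_l20))
(.gv
(.st (nat_lit 1)
(.leaf p025_l21)
(.leaf p025_l22))
(.leaf p025_l23))))) (by decide +kernel)
noncomputable def p025_l24 : Lf2 := ⟨nat_lit 0, nat_lit 10, [nat_lit 0, nat_lit 5, nat_lit 5, nat_lit 20], false, nat_lit 0, nat_lit 0, nat_lit 0, nat_lit 0, ⟨nat_lit 628, nat_lit 372, nat_lit 0, nat_lit 7, nat_lit 285, nat_lit 0, nat_lit 0, nat_lit 0, nat_lit 0, nat_lit 0, nat_lit 0, nat_lit 0, nat_lit 44421301, nat_lit 22578699, nat_lit 0, nat_lit 3195111, false, false⟩,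
 nat_lit 0, nat_lit 0, nat_lit 0, nat_lit 0, nat_lit 0, nat_lit 0, nat_lit 0, nat_lit 0, nat_lit 0, nat_lit 0, nat_lit 0, nat_lit 0, nat_lit 0, nat_lit 0, nat_lit 0, nat_lit 93000, nat_lit 0, nat_lit 0, [(nat_lit 24, [(nat_lit 0, nat_lit 372)]), (nat_lit 27, [(nat_lit 0, nat_lit 372)])],
 ⟨p025_k6, nat_lit 0, nat_lit 0, nat_lit 172, nat_lit 0, nat_lit 0, [nat_lit 879521600, nat_lit 3578547200], [], [nat_lit 32272527600, nat_lit 33643376400, nat_lit 38553752800, nat_lit 39636792000], nat_lit 0, nat_lit 0, nat_lit 0, nat_lit 0, nat_lit 0, nat_lit 0, [], [nat_lit 86, nat_lit 40, nat_lit 80, nat_lit 80, nat_lit 87, nat_lit 317, nat_lit 100, nat_lit 14]⟩, ⟨p025_k7, nat_lit 0, nat_lit 0, nat_lit 198, nat_lit 0, nat_lit 0, [nat_lit 2061096000, nat_lit 6180776000], [], [nat_lit 24508881394, nat_lit 25264387500, nat_lit 28456200514, nat_lit 29061947460], nat_lit 0, nat_lit 0, nat_lit 0, nat_lit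 0, nat_lit 0, nat_lit 0, [], [nat_lit 82, nat_lit 40, nat_lit 80, nat_lit 80, nat_lit 63, nat_lit 317, nat_lit 100, nat_lit 9]⟩,
 ⟨nat_lit 0, nat_lit 3163, ⟨.ofNat (nat_lit 507176), .ofNat (nat_lit 881191), .ofNat (nat_lit 548877), .ofNat (nat_lit 925502), .ofNat (nat_lit 531701), .ofNat (nat_lit 839996), .ofNat (nat_lit 579091), .ofNat (nat_lit 889997)⟩, ⟨.ofNat (nat_lit 0), .ofNat (nat_lit 0), .ofNat (nat_lit 0), .ofNat (nat_lit 0), .ofNat (nat_lit 0), .ofNat (nat_lit 0), .ofNat (nat_lit 0), .ofNat (nat_lit 0)⟩⟩, []⟩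
noncomputable def p025_l25 : Lf2 := ⟨nat_lit 0, nat_lit 10, [nat_lit 0, nat_lit 5, nat_lit 5, nat_lit 20], true, nat_lit 0, nat_lit 0, nat_lit 0, nat_lit 0, ⟨nat_lit 0, nat_lit 1000, nat_lit 0, nat_lit 7, nat_lit 242, nat_lit 0, nat_lit 0, nat_lit 0, nat_lit 0, nat_lit 0, nat_lit 0, nat_lit 0, nat_lit 49023188, nat_lit 17976812, nat_lit 0, nat_lit 2907855, false, false⟩,
 nat_lit 0, nat_lit 0, nat_lit 0, nat_lit 0, nat_lit 2803, nat_lit 0, nat_lit 0, nat_lit 0, nat_lit 0, nat_lit 0, nat_lit 0, nat_lit 0, nat_lit 0, nat_lit 0, nat_lit 0, nat_lit 400000, nat_lit 0, nat_lit 0, [(nat_lit 24, [(nat_lit 1, nat_lit 1000)]), (nat_lit 27, [(nat_lit 1, nat_lit 1000)])],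
 ⟨p025_k0, nat_lit 0, nat_lit 0, nat_lit 138, nat_lit 0, nat_lit 0, [nat_lit 848000000, nat_lit 997333334, nat_lit 954400000], [], [nat_lit 20615281218, nat_lit 23734788219, nat_lit 22984577022, nat_lit 25833432976], nat_lit 0, nat_lit 0, nat_lit 0, nat_lit 0, nat_lit 0, nat_lit 0, [], [nat_lit 35, nat_lit 40, nat_lit 80, nat_lit 80, nat_lit 22, nat_lit 272, nat_lit 60, nat_lit 12]⟩, C1.Rw.none,
 ⟨nat_lit 0, nat_lit 3163, ⟨.ofNat (nat_lit 507176), .ofNat (nat_lit 646918), .ofNat (nat_lit 548877), .ofNat (nat_lit 688618), .ofNat (nat_lit 531701), .ofNat (nat_lit 647345), .ofNat (nat_lit 579091), .ofNat (nat_lit 694736)⟩, ⟨.ofNat (nat_lit 0), .ofNat (nat_lit 0), .ofNat (nat_lit 0), .ofNat (nat_lit 0), .ofNat (nat_lit 0), .ofNat (nat_lit 0), .ofNat (nat_lit 0), .ofNat (nat_lit 0)⟩⟩, []⟩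
noncomputable def p025_l26 : Lf2 := ⟨nat_lit 0, nat_lit 10, [nat_lit 0, nat_lit 5, nat_lit 5, nat_lit 20], true, nat_lit 0, nat_lit 0, nat_lit 0, nat_lit 0, ⟨nat_lit 0, nat_lit 1000, nat_lit 0, nat_lit 7, nat_lit 311, nat_lit 0, nat_lit 0, nat_lit 0, nat_lit 0, nat_lit 0, nat_lit 0, nat_lit 0, nat_lit 41786220, nat_lit 25213780, nat_lit 0, nat_lit 3311181, true, true⟩,
 nat_lit 0, nat_lit 0, nat_lit 0, nat_lit 0, nat_lit 2404, nat_lit 0, nat_lit 0, nat_lit 0, nat_lit 0, nat_lit 0, nat_lit 0, nat_lit 0, nat_lit 0, nat_lit 0, nat_lit 0, nat_lit 400000, nat_lit 0, nat_lit 0, [(nat_lit 24, [(nat_lit 1, nat_lit 1000)]), (nat_lit 27, [(nat_lit 1, nat_lit 1000)])],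
 ⟨p025_k0, nat_lit 0, nat_lit 0, nat_lit 176, nat_lit 0, nat_lit 0, [nat_lit 848000000, nat_lit 997333334, nat_lit 954400000], [], [nat_lit 24107757004, nat_lit 26148449180, nat_lit 29822300554, nat_lit 31473723776], nat_lit 0, nat_lit 0, nat_lit 0, nat_lit 0, nat_lit 0, nat_lit 0, [], [nat_lit 35, nat_lit 40, nat_lit 80, nat_lit 80, nat_lit 22, nat_lit 203, nat_lit 0, nat_lit 8]⟩, C1.Rw.none,
 ⟨nat_lit 0, nat_lit 3163, ⟨.ofNat (nat_lit 646918), .ofNat (nat_lit 881191), .ofNat (nat_lit 688618), .ofNat (nat_lit 925502), .ofNat (nat_lit 647345), .ofNat (nat_lit 839996), .ofNat (nat_lit 694736), .ofNat (nat_lit 889997)⟩, ⟨.ofNat (nat_lit 0), .ofNat (nat_lit 0), .ofNat (nat_lit 0), .ofNat (nat_lit 0), .ofNat (nat_lit 0), .ofNat (nat_lit 0), .ofNat (nat_lit 0), .ofNat (nat_lit 0)⟩⟩, [⟨nat_lit 13, nat_lit 75, nat_lit 35, nat_lit 100, nat_lit 119027799⟩]⟩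
noncomputable def p025_l27 : Lf2 := ⟨nat_lit 0, nat_lit 10, [nat_lit 0, nat_lit 5, nat_lit 5, nat_lit 20], true, nat_lit 0, nat_lit 0, nat_lit 0, nat_lit 0, ⟨nat_lit 0, nat_lit 1000, nat_lit 0, nat_lit 7, nat_lit 285, nat_lit 0, nat_lit 0, nat_lit 0, nat_lit 0, nat_lit 0, nat_lit 0, nat_lit 0, nat_lit 0, nat_lit 0, nat_lit 0, nat_lit 5000000, false, false⟩,
 nat_lit 0, nat_lit 0, nat_lit 0, nat_lit 0, nat_lit 2499, nat_lit 0, nat_lit 0, nat_lit 0, nat_lit 0, nat_lit 0, nat_lit 0, nat_lit 0, nat_lit 0, nat_lit 0, nat_lit 0, nat_lit 400000, nat_lit 0, nat_lit 0, [(nat_lit 24, [(nat_lit 1, nat_lit 1000)]), (nat_lit 27, [(nat_lit 1, nat_lit 1000)])],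
 ⟨p025_k0, nat_lit 0, nat_lit 0, nat_lit 176, nat_lit 0, nat_lit 0, [nat_lit 848000000, nat_lit 997333334, nat_lit 954400000], [], [nat_lit 21713621771, nat_lit 24073432798, nat_lit 29716415910, nat_lit 31783741456], nat_lit 0, nat_lit 0, nat_lit 0, nat_lit 0, nat_lit 0, nat_lit 0, [], [nat_lit 35, nat_lit 40, nat_lit 80, nat_lit 80, nat_lit 22, nat_lit 317, nat_lit 100, nat_lit 14]⟩, C1.Rw.none,
 ⟨nat_lit 0, nat_lit 3163, ⟨.ofNat (nat_lit 507176), .ofNat (nat_lit 881191), .ofNat (nat_lit 548877), .ofNat (nat_lit 925502), .ofNat (nat_lit 531701), .ofNat (nat_lit 839996), .ofNat (nat_lit 579091), .ofNat (nat_lit 889997)⟩, ⟨.ofNat (nat_lit 0), .ofNat (nat_lit 0), .ofNat (nat_lit 0), .ofNat (nat_lit 0), .ofNat (nat_lit 0), .ofNat (nat_lit 0), .ofNat (nat_lit 0), .ofNat (nat_lit 0)⟩⟩, [⟨nat_lit 13, nat_lit 75, nat_lit 35, nat_lit 100, nat_lit 362469822⟩]⟩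
noncomputable def p025_l28 : Lf2 := ⟨nat_lit 0, nat_lit 10, [nat_lit 0, nat_lit 5, nat_lit 5, nat_lit 20], false, nat_lit 0, nat_lit 0, nat_lit 0, nat_lit 0, ⟨nat_lit 774, nat_lit 0, nat_lit 226, nat_lit 7, nat_lit 288, nat_lit 0, nat_lit 0, nat_lit 0, nat_lit 0, nat_lit 215, nat_lit 579758, nat_lit 200, nat_lit 44150450, nat_lit 0, nat_lit 0, nat_lit 3208607, false, false⟩,
 nat_lit 0, nat_lit 4903, nat_lit 0, nat_lit 0, nat_lit 4270, nat_lit 4551, nat_lit 138, nat_lit 0, nat_lit 0, nat_lit 966, nat_lit 0, nat_lit 0, nat_lit 0, nat_lit 0, nat_lit 0, nat_lit 226000, nat_lit 0, nat_lit 0, [(nat_lit 24, [(nat_lit 6, nat_lit 226)])],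
 ⟨p025_k0, nat_lit 0, nat_lit 0, nat_lit 733, nat_lit 0, nat_lit 1636425, [nat_lit 1031292801, nat_lit 2034238934, nat_lit 2522196800], [], [nat_lit 31536938269, nat_lit 31848836792, nat_lit 35404215962, nat_lit 35644162059], nat_lit 1271250, nat_lit 1271250, nat_lit 1033601, nat_lit 3070600, nat_lit 0, nat_lit 0, [nat_lit 230000, nat_lit 780000, nat_lit 1100000], [nat_lit 35, nat_lit 40, nat_lit 80, nat_lit 80, nat_lit 22, nat_lit 317, nat_lit 100, nat_lit 14]⟩, ⟨p025_k8, nat_lit 0, nat_lit 0, nat_lit 216, nat_lit 0, nat_lit 0, [nat_lit 2540268000, nat_lit 4837500000, nat_lit 7617708000], [], [nat_lit 16139528067, nat_lit 18539105521, nat_lit 27254351217, nat_lit 28783985550], nat_lit 0, nat_lit 0, nat_lit 0, nat_lit 0, nat_lit 0, nat_lit 0, [], [nat_lit 8, nat_lit 40, nat_lit 80, nat_lit 80, nat_lit 1, nat_lit 317, nat_lit 100, nat_lit 9]⟩,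
 ⟨nat_lit 2738, nat_lit 3163, ⟨.ofNat (nat_lit 515404), .ofNat (nat_lit 881194), .ofNat (nat_lit 559690), .ofNat (nat_lit 925504), .ofNat (nat_lit 518725), .ofNat (nat_lit 873162), .ofNat (nat_lit 563535), .ofNat (nat_lit 917997)⟩, ⟨.ofNat (nat_lit 0), .ofNat (nat_lit 0), .ofNat (nat_lit 0), .ofNat (nat_lit 0), .ofNat (nat_lit 0), .ofNat (nat_lit 0), .ofNat (nat_lit 0), .ofNat (nat_lit 0)⟩⟩, [⟨nat_lit 0, nat_lit 80, nat_lit 53, nat_lit 100, nat_lit 44488360⟩]⟩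
noncomputable def p025_l29 : Lf2 := ⟨nat_lit 0, nat_lit 10, [nat_lit 0, nat_lit 5, nat_lit 5, nat_lit 20], false, nat_lit 0, nat_lit 0, nat_lit 0, nat_lit 0, ⟨nat_lit 1000, nat_lit 0, nat_lit 0, nat_lit 0, nat_lit 0, nat_lit 0, nat_lit 0, nat_lit 0, nat_lit 0, nat_lit 0, nat_lit 0, nat_lit 0, nat_lit 0, nat_lit 0, nat_lit 0, nat_lit 0, false, false⟩,
 nat_lit 0, nat_lit 4305, nat_lit 0, nat_lit 0, nat_lit 3885, nat_lit 440, nat_lit 1078, nat_lit 0, nat_lit 0, nat_lit 149, nat_lit 0, nat_lit 0, nat_lit 0, nat_lit 0, nat_lit 0, nat_lit 0, nat_lit 0, nat_lit 0, [],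
 ⟨p025_k9, nat_lit 0, nat_lit 0, nat_lit 726, nat_lit 0, nat_lit 1625555, [nat_lit 938000000, nat_lit 3282000000, nat_lit 4688000000], [], [nat_lit 28786656557, nat_lit 29234463715, nat_lit 34486919494, nat_lit 34822496067], nat_lit 1271250, nat_lit 1271250, nat_lit 1167600, nat_lit 3067850, nat_lit 0, nat_lit 0, [nat_lit 230000, nat_lit 780000, nat_lit 1100000], [nat_lit 35, nat_lit 40, nat_lit 80, nat_lit 80, nat_lit 22, nat_lit 278, nat_lit 0, nat_lit 12]⟩, ⟨p025_k8, nat_lit 0, nat_lit 0, nat_lit 215, nat_lit 0, nat_lit 0, [nat_lit 3282000000, nat_lit 6250000000, nat_lit 9842000000], [], [nat_lit 32649508650, nat_lit 34033118849, nat_lit 39252171408, nat_lit 40329968136], nat_lit 0, nat_lit 0, nat_lit 0, nat_lit 0, nat_lit 0, nat_lit 0, [], [nat_lit 8, nat_lit 40, nat_lit 80, nat_lit 80, nat_lit 1, nat_lit 317, nat_lit 100, nat_lit 9]⟩,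
 zbF0, [⟨nat_lit 0, nat_lit 82, nat_lit 44, nat_lit 100, nat_lit 419448619⟩]⟩
noncomputable def p025_l30 : Lf2 := ⟨nat_lit 0, nat_lit 10, [nat_lit 0, nat_lit 5, nat_lit 5, nat_lit 20], false, nat_lit 0, nat_lit 0, nat_lit 0, nat_lit 0, ⟨nat_lit 1000, nat_lit 0, nat_lit 0, nat_lit 0, nat_lit 0, nat_lit 0, nat_lit 0, nat_lit 0, nat_lit 0, nat_lit 0, nat_lit 0, nat_lit 0, nat_lit 0, nat_lit 0, nat_lit 0, nat_lit 0, false, false⟩,
 nat_lit 0, nat_lit 4172, nat_lit 0, nat_lit 0, nat_lit 3898, nat_lit 39, nat_lit 585, nat_lit 0, nat_lit 0, nat_lit 79, nat_lit 0, nat_lit 0, nat_lit 0, nat_lit 0, nat_lit 0, nat_lit 0, nat_lit 0, nat_lit 0, [],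
 ⟨p025_k2, nat_lit 0, nat_lit 0, nat_lit 670, nat_lit 0, nat_lit 1678511, [nat_lit 938000000, nat_lit 3282000000], [], [nat_lit 30033055085, nat_lit 30873430028, nat_lit 34999328622, nat_lit 35662753824], nat_lit 1271250, nat_lit 1271250, nat_lit 1271250, nat_lit 1271250, nat_lit 0, nat_lit 0, [nat_lit 230000, nat_lit 780000], [nat_lit 66, nat_lit 40, nat_lit 80, nat_lit 80, nat_lit 67, nat_lit 265, nat_lit 0, nat_lit 14]⟩, ⟨p025_k8, nat_lit 0, nat_lit 0, nat_lit 213, nat_lit 0, nat_lit 0, [nat_lit 3282000000, nat_lit 6250000000, nat_lit 9842000000], [], [nat_lit 34094555344, nat_lit 35365506300, nat_lit 39476742034, nat_lit 40520705983], nat_lit 0, nat_lit 0, nat_lit 0, nat_lit 0, nat_lit 0, nat_lit 0, [], [nat_lit 8, nat_lit 40, nat_lit 80, nat_lit 80, nat_lit 1, nat_lit 317, nat_lit 100, nat_lit 9]⟩,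
 zbF0, [⟨nat_lit 0, nat_lit 88, nat_lit 32, nat_lit 100, nat_lit 514373739⟩]⟩
noncomputable def p025_l31 : Lf2 := ⟨nat_lit 0, nat_lit 10, [nat_lit 0, nat_lit 5, nat_lit 5, nat_lit 20], false, nat_lit 0, nat_lit 0, nat_lit 0, nat_lit 0, ⟨nat_lit 319, nat_lit 681, nat_lit 0, nat_lit 7, nat_lit 242, nat_lit 0, nat_lit 0, nat_lit 0, nat_lit 0, nat_lit 0, nat_lit 0, nat_lit 0, nat_lit 49023188, nat_lit 17976812, nat_lit 0, nat_lit 2907855, false, false⟩,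
 nat_lit 4463, nat_lit 0, nat_lit 0, nat_lit 0, nat_lit 3886, nat_lit 2839, nat_lit 52, nat_lit 0, nat_lit 0, nat_lit 208, nat_lit 0, nat_lit 0, nat_lit 0, nat_lit 0, nat_lit 0, nat_lit 406800, nat_lit 0, nat_lit 0, [(nat_lit 24, [(nat_lit 1, nat_lit 457), (nat_lit 2, nat_lit 224)]), (nat_lit 27, [(nat_lit 1, nat_lit 457), (nat_lit 2, nat_lit 224)])],
 ⟨p025_k0, nat_lit 0, nat_lit 0, nat_lit 444, nat_lit 0, nat_lit 918186, [nat_lit 1015590000, nat_lit 1396832134, nat_lit 1463204000], [], [nat_lit 23144182659, nat_lit 26550782726, nat_lit 24830228888, nat_lit 28545039712], nat_lit 1271250, nat_lit 1271250, nat_lit 1033601, nat_lit 1780500, nat_lit 0, nat_lit 0, [nat_lit 230000, nat_lit 780000, nat_lit 1100000], [nat_lit 35, nat_lit 40, nat_lit 80, nat_lit 80, nat_lit 22, nat_lit 272, nat_lit 60, nat_lit 12]⟩, ⟨p025_k8, nat_lit 0, nat_lit 0, nat_lit 791, nat_lit 0, nat_lit 1289431, [nat_lit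 1046958000, nat_lit 1993750000, nat_lit 3139598000], [], [nat_lit 9753557728, nat_lit 10058575239, nat_lit 9718759508, nat_lit 9967114912], nat_lit 1271250, nat_lit 1271250, nat_lit 1033601, nat_lit 1780500, nat_lit 0, nat_lit 0, [nat_lit 780000, nat_lit 1435000, nat_lit 1271250], [nat_lit 8, nat_lit 40, nat_lit 80, nat_lit 80, nat_lit 1, nat_lit 272, nat_lit 60, nat_lit 8]⟩,
 ⟨nat_lit 0, nat_lit 3163, ⟨.ofNat (nat_lit 507176), .ofNat (nat_lit 646918), .ofNat (nat_lit 548877), .ofNat (nat_lit 688618), .ofNat (nat_lit 531701), .ofNat (nat_lit 647345), .ofNat (nat_lit 579091), .ofNat (nat_lit 694736)⟩, ⟨.ofNat (nat_lit 0), .ofNat (nat_lit 0), .ofNat (nat_lit 0), .ofNat (nat_lit 0), .ofNat (nat_lit 0), .ofNat (nat_lit 0), .ofNat (nat_lit 0), .ofNat (nat_lit 0)⟩⟩, [⟨nat_lit 0, nat_lit 87, nat_lit 44, nat_lit 100, nat_lit 468483167⟩]⟩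
noncomputable def p025_l32 : Lf2 := ⟨nat_lit 0, nat_lit 10, [nat_lit 0, nat_lit 5, nat_lit 5, nat_lit 20], false, nat_lit 0, nat_lit 0, nat_lit 0, nat_lit 0, ⟨nat_lit 476, nat_lit 524, nat_lit 0, nat_lit 7, nat_lit 313, nat_lit 0, nat_lit 0, nat_lit 0, nat_lit 0, nat_lit 0, nat_lit 0, nat_lit 0, nat_lit 41524325, nat_lit 25475675, nat_lit 0, nat_lit 3320892, true, true⟩,
 nat_lit 5585, nat_lit 0, nat_lit 0, nat_lit 0, nat_lit 3572, nat_lit 3554, nat_lit 144, nat_lit 0, nat_lit 0, nat_lit 319, nat_lit 0, nat_lit 0, nat_lit 0, nat_lit 0, nat_lit 0, nat_lit 372800, nat_lit 0, nat_lit 0, [(nat_lit 24, [(nat_lit 1, nat_lit 252), (nat_lit 2, nat_lit 272)])],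
 ⟨p025_k0, nat_lit 0, nat_lit 0, nat_lit 421, nat_lit 0, nat_lit 849983, [nat_lit 1059480001, nat_lit 1684958401, nat_lit 1903190400], [], [nat_lit 27654190202, nat_lit 28580800342, nat_lit 33160351830, nat_lit 34092223285], nat_lit 1271250, nat_lit 1271250, nat_lit 1271250, nat_lit 1271250, nat_lit 0, nat_lit 0, [nat_lit 230000, nat_lit 780000, nat_lit 1100000], [nat_lit 35, nat_lit 40, nat_lit 80, nat_lit 80, nat_lit 22, nat_lit 203, nat_lit 0, nat_lit 8]⟩, ⟨p025_k8, nat_lit 0, nat_lit 0, nat_lit 729, nat_lit 0, nat_lit 1193651, [nat_lit 1562232000, nat_lit 2975000000, nat_lit 4684792000], [], [nat_lit 17824250307, nat_lit 18183992624, nat_lit 19377489862, nat_lit 19655492976], nat_lit 1271250, nat_lit 1271250, nat_lit 1271250, nat_lit 1271250, nat_lit 0, nat_lit 0, [nat_lit 780000, nat_lit 1435000, nat_lit 1271250], [nat_lit 8, nat_lit 40, nat_lit 80, nat_lit 80, nat_lit 1, nat_lit 317,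 nat_lit 100, nat_lit 9]⟩,
 ⟨nat_lit 2236, nat_lit 3163, ⟨.ofNat (nat_lit 649422), .ofNat (nat_lit 881194), .ofNat (nat_lit 693606), .ofNat (nat_lit 925504), .ofNat (nat_lit 647962), .ofNat (nat_lit 864770), .ofNat (nat_lit 693384), .ofNat (nat_lit 910319)⟩, ⟨.ofNat (nat_lit 0), .ofNat (nat_lit 0), .ofNat (nat_lit 0), .ofNat (nat_lit 0), .ofNat (nat_lit 0), .ofNat (nat_lit 0), .ofNat (nat_lit 0), .ofNat (nat_lit 0)⟩⟩, []⟩
noncomputable def p025_l33 : Lf2 := ⟨nat_lit 0, nat_lit 10, [nat_lit 0, nat_lit 5, nat_lit 5, nat_lit 20], false, nat_lit 0, nat_lit 0, nat_lit 0, nat_lit 0, ⟨nat_lit 386, nat_lit 614, nat_lit 0, nat_lit 7, nat_lit 306, nat_lit 0, nat_lit 0, nat_lit 0, nat_lit 0, nat_lit 0, nat_lit 0, nat_lit 0, nat_lit 42257768, nat_lit 24742232, nat_lit 0, nat_lit 3292875, true, true⟩,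
 nat_lit 4606, nat_lit 0, nat_lit 0, nat_lit 0, nat_lit 2862, nat_lit 2931, nat_lit 175, nat_lit 0, nat_lit 0, nat_lit 258, nat_lit 0, nat_lit 0, nat_lit 0, nat_lit 0, nat_lit 0, nat_lit 245600, nat_lit 0, nat_lit 0, [(nat_lit 27, [(nat_lit 1, nat_lit 614)])],
 ⟨p025_k2, nat_lit 0, nat_lit 0, nat_lit 376, nat_lit 0, nat_lit 851849, [nat_lit 790394400, nat_lit 1466033600], [], [nat_lit 26775274935, nat_lit 27771377275, nat_lit 31589339195, nat_lit 32360158165], nat_lit 1271250, nat_lit 1271250, nat_lit 1271250, nat_lit 1271250, nat_lit 0, nat_lit 0, [nat_lit 230000, nat_lit 780000], [nat_lit 66, nat_lit 40, nat_lit 80, nat_lit 80, nat_lit 67, nat_lit 203, nat_lit 0, nat_lit 10]⟩, ⟨p025_k8, nat_lit 0, nat_lit 0, nat_lit 765, nat_lit 0, nat_lit 1289431, [nat_lit 1266852000, nat_lit 2412500000, nat_lit 3799012000], [], [nat_lit 14216050302, nat_lit 14508134408, nat_lit 15350435491, nat_lit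 15567299323], nat_lit 1271250, nat_lit 1271250, nat_lit 1271250, nat_lit 1271250, nat_lit 0, nat_lit 0, [nat_lit 780000, nat_lit 1435000, nat_lit 1271250], [nat_lit 8, nat_lit 40, nat_lit 80, nat_lit 80, nat_lit 1, nat_lit 317, nat_lit 100, nat_lit 9]⟩,
 ⟨nat_lit 0, nat_lit 2237, ⟨.ofNat (nat_lit 646249), .ofNat (nat_lit 847661), .ofNat (nat_lit 689944), .ofNat (nat_lit 893212), .ofNat (nat_lit 648136), .ofNat (nat_lit 824994), .ofNat (nat_lit 696283), .ofNat (nat_lit 874997)⟩, ⟨.ofNat (nat_lit 0), .ofNat (nat_lit 0), .ofNat (nat_lit 0), .ofNat (nat_lit 0), .ofNat (nat_lit 0), .ofNat (nat_lit 0), .ofNat (nat_lit 0), .ofNat (nat_lit 0)⟩⟩, [⟨nat_lit 13, nat_lit 36, nat_lit 77, nat_lit 100, nat_lit 47860178⟩]⟩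
noncomputable def p025_l34 : Lf2 := ⟨nat_lit 0, nat_lit 10, [nat_lit 0, nat_lit 5, nat_lit 5, nat_lit 20], false, nat_lit 0, nat_lit 0, nat_lit 0, nat_lit 0, ⟨nat_lit 711, nat_lit 289, nat_lit 0, nat_lit 7, nat_lit 288, nat_lit 0, nat_lit 0, nat_lit 0, nat_lit 0, nat_lit 0, nat_lit 0, nat_lit 0, nat_lit 0, nat_lit 0, nat_lit 0, nat_lit 5000000, false, false⟩,
 nat_lit 0, nat_lit 5114, nat_lit 0, nat_lit 0, nat_lit 4454, nat_lit 4047, nat_lit 146, nat_lit 0, nat_lit 0, nat_lit 841, nat_lit 0, nat_lit 0, nat_lit 0, nat_lit 0, nat_lit 0, nat_lit 289000, nat_lit 0, nat_lit 0, [(nat_lit 24, [(nat_lit 2, nat_lit 289)])],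
 ⟨p025_k0, nat_lit 0, nat_lit 0, nat_lit 733, nat_lit 0, nat_lit 1636425, [nat_lit 1091170000, nat_lit 2196862800, nat_lit 2728811200], [], [nat_lit 32131583728, nat_lit 32451380224, nat_lit 35950825760, nat_lit 36179871273], nat_lit 1271250, nat_lit 1271250, nat_lit 1033601, nat_lit 3070600, nat_lit 0, nat_lit 0, [nat_lit 230000, nat_lit 780000, nat_lit 1100000], [nat_lit 35, nat_lit 40, nat_lit 80, nat_lit 80, nat_lit 22, nat_lit 317, nat_lit 100, nat_lit 14]⟩, ⟨p025_k8, nat_lit 0, nat_lit 0, nat_lit 216, nat_lit 0, nat_lit 0, [nat_lit 2333502000, nat_lit 4443750000, nat_lit 6997662000], [], [nat_lit 15104846080, nat_lit 17270665264, nat_lit 24908737636, nat_lit 26294903682], nat_lit 0, nat_lit 0, nat_lit 0, nat_lit 0, nat_lit 0, nat_lit 0, [], [nat_lit 8, nat_lit 40, nat_lit 80, nat_lit 80, nat_lit 1, nat_lit 317, nat_lit 100, nat_lit 9]⟩,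
 ⟨nat_lit 2738, nat_lit 3163, ⟨.ofNat (nat_lit 515404), .ofNat (nat_lit 881194), .ofNat (nat_lit 559690), .ofNat (nat_lit 925504), .ofNat (nat_lit 518725), .ofNat (nat_lit 873162), .ofNat (nat_lit 563535), .ofNat (nat_lit 917997)⟩, ⟨.ofNat (nat_lit 0), .ofNat (nat_lit 0), .ofNat (nat_lit 0), .ofNat (nat_lit 0), .ofNat (nat_lit 0), .ofNat (nat_lit 0), .ofNat (nat_lit 0), .ofNat (nat_lit 0)⟩⟩, []⟩
noncomputable def p025_l35 : Lf2 := ⟨nat_lit 0, nat_lit 10, [nat_lit 0, nat_lit 5, nat_lit 5, nat_lit 20], false, nat_lit 0, nat_lit 0, nat_lit 0, nat_lit 0, ⟨nat_lit 1000, nat_lit 0, nat_lit 0, nat_lit 0, nat_lit 0, nat_lit 0, nat_lit 0, nat_lit 0, nat_lit 0, nat_lit 0, nat_lit 0, nat_lit 0, nat_lit 0, nat_lit 0, nat_lit 0, nat_lit 0, false, false⟩,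
 nat_lit 0, nat_lit 4359, nat_lit 0, nat_lit 0, nat_lit 3933, nat_lit 592, nat_lit 907, nat_lit 0, nat_lit 0, nat_lit 182, nat_lit 0, nat_lit 0, nat_lit 0, nat_lit 0, nat_lit 0, nat_lit 0, nat_lit 0, nat_lit 0, [],
 ⟨p025_k9, nat_lit 0, nat_lit 0, nat_lit 726, nat_lit 0, nat_lit 1625555, [nat_lit 938000000, nat_lit 3282000000, nat_lit 4688000000], [], [nat_lit 28834824594, nat_lit 29262991321, nat_lit 34440900124, nat_lit 34968428950], nat_lit 1271250, nat_lit 1271250, nat_lit 1167600, nat_lit 3067850, nat_lit 0, nat_lit 0, [nat_lit 230000, nat_lit 780000, nat_lit 1100000], [nat_lit 35, nat_lit 40, nat_lit 80, nat_lit 80, nat_lit 22, nat_lit 278, nat_lit 0, nat_lit 12]⟩, ⟨p025_k8, nat_lit 0, nat_lit 0, nat_lit 215, nat_lit 0, nat_lit 0, [nat_lit 3282000000, nat_lit 6250000000, nat_lit 9842000000], [], [nat_lit 32298768583, nat_lit 33760255927, nat_lit 39076023655, nat_lit 40170342205],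 nat_lit 0, nat_lit 0, nat_lit 0, nat_lit 0, nat_lit 0, nat_lit 0, [], [nat_lit 8, nat_lit 40, nat_lit 80, nat_lit 80, nat_lit 1, nat_lit 317, nat_lit 100, nat_lit 9]⟩,
 zbF0, [⟨nat_lit 0, nat_lit 82, nat_lit 44, nat_lit 100, nat_lit 393240407⟩]⟩
noncomputable def p025_l36 : Lf2 := ⟨nat_lit 0, nat_lit 10, [nat_lit 0, nat_lit 5, nat_lit 5, nat_lit 20], false, nat_lit 0, nat_lit 0, nat_lit 0, nat_lit 0, ⟨nat_lit 1000, nat_lit 0, nat_lit 0, nat_lit 0, nat_lit 0, nat_lit 0, nat_lit 0, nat_lit 0, nat_lit 0, nat_lit 0, nat_lit 0, nat_lit 0, nat_lit 0, nat_lit 0, nat_lit 0, nat_lit 0, false, false⟩,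
 nat_lit 0, nat_lit 4172, nat_lit 0, nat_lit 0, nat_lit 3898, nat_lit 226, nat_lit 585, nat_lit 0, nat_lit 0, nat_lit 112, nat_lit 0, nat_lit 0, nat_lit 0, nat_lit 0, nat_lit 0, nat_lit 0, nat_lit 0, nat_lit 0, [],
 ⟨p025_k2, nat_lit 0, nat_lit 0, nat_lit 670, nat_lit 0, nat_lit 1678511, [nat_lit 938000000, nat_lit 3282000000], [], [nat_lit 30033055085, nat_lit 30873430028, nat_lit 34999328622, nat_lit 35662753824], nat_lit 1271250, nat_lit 1271250, nat_lit 1271250, nat_lit 1271250, nat_lit 0, nat_lit 0, [nat_lit 230000, nat_lit 780000], [nat_lit 66, nat_lit 40, nat_lit 80, nat_lit 80, nat_lit 67, nat_lit 265, nat_lit 0, nat_lit 14]⟩, ⟨p025_k8, nat_lit 0, nat_lit 0, nat_lit 213, nat_lit 0, nat_lit 0, [nat_lit 3282000000, nat_lit 6250000000, nat_lit 9842000000], [], [nat_lit 33714516207, nat_lit 35034705693, nat_lit 39250510556, nat_lit 40316108722], nat_lit 0, nat_lit 0, nat_lit 0, nat_lit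 0, nat_lit 0, nat_lit 0, [], [nat_lit 8, nat_lit 40, nat_lit 80, nat_lit 80, nat_lit 1, nat_lit 317, nat_lit 100, nat_lit 9]⟩,
 zbF0, [⟨nat_lit 0, nat_lit 92, nat_lit 44, nat_lit 100, nat_lit 347583998⟩]⟩
noncomputable def p025_l37 : Lf2 := ⟨nat_lit 0, nat_lit 10, [nat_lit 0, nat_lit 5, nat_lit 5, nat_lit 20], false, nat_lit 0, nat_lit 0, nat_lit 0, nat_lit 0, ⟨nat_lit 332, nat_lit 668, nat_lit 0, nat_lit 7, nat_lit 285, nat_lit 0, nat_lit 0, nat_lit 0, nat_lit 0, nat_lit 0, nat_lit 0, nat_lit 0, nat_lit 0, nat_lit 0, nat_lit 0, nat_lit 5000000, false, false⟩,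
 nat_lit 3855, nat_lit 0, nat_lit 0, nat_lit 0, nat_lit 3357, nat_lit 2453, nat_lit 48, nat_lit 0, nat_lit 0, nat_lit 191, nat_lit 0, nat_lit 0, nat_lit 0, nat_lit 0, nat_lit 0, nat_lit 311000, nat_lit 0, nat_lit 0, [(nat_lit 24, [(nat_lit 1, nat_lit 595), (nat_lit 2, nat_lit 73)]), (nat_lit 27, [(nat_lit 1, nat_lit 595), (nat_lit 2, nat_lit 73)])],
 ⟨p025_k0, nat_lit 0, nat_lit 0, nat_lit 445, nat_lit 0, nat_lit 918186, [nat_lit 923140000, nat_lit 1648522934, nat_lit 1971626400], [], [nat_lit 27547667147, nat_lit 29288353251, nat_lit 33329223088, nat_lit 34589337002], nat_lit 1271250, nat_lit 1271250, nat_lit 1033601, nat_lit 3070600, nat_lit 0, nat_lit 0, [nat_lit 230000, nat_lit 780000, nat_lit 1100000], [nat_lit 35, nat_lit 40, nat_lit 80, nat_lit 80, nat_lit 22, nat_lit 317, nat_lit 100, nat_lit 14]⟩, ⟨p025_k8, nat_lit 0, nat_lit 0, nat_lit 791, nat_lit 0, nat_lit 1289431, [nat_lit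 1089624000, nat_lit 2075000000, nat_lit 3267544000], [], [nat_lit 12706889109, nat_lit 13014841101, nat_lit 15261471372, nat_lit 13816619830], nat_lit 1271250, nat_lit 1271250, nat_lit 1033601, nat_lit 3070600, nat_lit 0, nat_lit 0, [nat_lit 780000, nat_lit 1435000, nat_lit 1271250], [nat_lit 8, nat_lit 40, nat_lit 80, nat_lit 80, nat_lit 1, nat_lit 317, nat_lit 100, nat_lit 9]⟩,
 ⟨nat_lit 0, nat_lit 3163, ⟨.ofNat (nat_lit 507176), .ofNat (nat_lit 881191), .ofNat (nat_lit 548877), .ofNat (nat_lit 925502), .ofNat (nat_lit 531701), .ofNat (nat_lit 839996), .ofNat (nat_lit 579091), .ofNat (nat_lit 889997)⟩, ⟨.ofNat (nat_lit 0), .ofNat (nat_lit 0), .ofNat (nat_lit 0), .ofNat (nat_lit 0), .ofNat (nat_lit 0), .ofNat (nat_lit 0), .ofNat (nat_lit 0), .ofNat (nat_lit 0)⟩⟩, [⟨nat_lit 13, nat_lit 50, nat_lit 65, nat_lit 100, nat_lit 138708002⟩]⟩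
noncomputable def b_N_900_700_0_0 : St := ⟨false, nat_lit 2, nat_lit 2, nat_lit 0, nat_lit 40, nat_lit 360, nat_lit 400, nat_lit 280, nat_lit 320, nat_lit 152, nat_lit 392, nat_lit 0, nat_lit 0, nat_lit 0, nat_lit 0, nat_lit 0, nat_lit 0, nat_lit 0, nat_lit 40, nat_lit 0, nat_lit 0, nat_lit 0, nat_lit 0⟩
theorem d_N_900_700_0_0 (h : EB TB.env) : Dead b_N_900_700_0_0 := chkB_sound0 h (T :=
(.st (nat_lit 0)
(.gv
(.st (nat_lit 1)
(.leaf p025_l24)
(.spl (nat_lit 2) (nat_lit 240)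
(.leaf p025_l25)
(.leaf p025_l26)))
(.leaf p025_l27))
(.gv
(.st (nat_lit 1)
(.spl (nat_lit 0) (nat_lit 380)
(.spl (nat_lit 0) (nat_lit 370)
(.leaf p025_l28)
(.trZ (nat_lit 0) (nat_lit 93) (nat_lit 53) (nat_lit 100) (nat_lit 168) (.trX (nat_lit 13) (nat_lit 66) (nat_lit 45) (nat_lit 100) (nat_lit 388) (.leaf p025_l29))))
(.trZ (nat_lit 0) (nat_lit 92) (nat_lit 44) (nat_lit 100) (nat_lit 192) (.trX (nat_lit 13) (nat_lit 54) (nat_lit 57) (nat_lit 100) (nat_lit 380) (.leaf p025_l30))))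
(.spl (nat_lit 2) (nat_lit 240)
(.leaf p025_l31)
(.spl (nat_lit 0) (nat_lit 380)
(.leaf p025_l32)
(.trX (nat_lit 13) (nat_lit 54) (nat_lit 57) (nat_lit 100) (nat_lit 380) (.leaf p025_l33)))))
(.st (nat_lit 1)
(.spl (nat_lit 0) (nat_lit 380)
(.spl (nat_lit 0) (nat_lit 370)
(.leaf p025_l34)
(.trZ (nat_lit 0) (nat_lit 93) (nat_lit 53) (nat_lit 100) (nat_lit 168) (.trX (nat_lit 13) (nat_lit 66) (nat_lit 45) (nat_lit 100) (nat_lit 388) (.leaf p025_l35))))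
(.trZ (nat_lit 0) (nat_lit 92) (nat_lit 44) (nat_lit 100) (nat_lit 192) (.trX (nat_lit 13) (nat_lit 54) (nat_lit 57) (nat_lit 100) (nat_lit 380) (.leaf p025_l36))))
(.leaf p025_l37))))) (by decide +kernel)
noncomputable def p025_l38 : Lf2 := ⟨nat_lit 0, nat_lit 10, [nat_lit 0, nat_lit 5, nat_lit 5, nat_lit 20], false, nat_lit 0, nat_lit 0, nat_lit 0, nat_lit 0, ⟨nat_lit 535, nat_lit 465, nat_lit 0, nat_lit 7, nat_lit 285, nat_lit 0, nat_lit 0, nat_lit 0, nat_lit 0, nat_lit 0, nat_lit 0, nat_lit 0, nat_lit 44421301, nat_lit 22578699, nat_lit 0, nat_lit 3195111, false, false⟩,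
 nat_lit 0, nat_lit 0, nat_lit 0, nat_lit 0, nat_lit 0, nat_lit 0, nat_lit 0, nat_lit 0, nat_lit 0, nat_lit 0, nat_lit 0, nat_lit 0, nat_lit 0, nat_lit 0, nat_lit 0, nat_lit 116250, nat_lit 0, nat_lit 0, [(nat_lit 24, [(nat_lit 0, nat_lit 465)]), (nat_lit 27, [(nat_lit 0, nat_lit 465)])],
 ⟨p025_k0, nat_lit 0, nat_lit 0, nat_lit 176, nat_lit 0, nat_lit 0, [nat_lit 864902001, nat_lit 2391618001, nat_lit 3301184000], [], [nat_lit 31491782003, nat_lit 32860056803, nat_lit 37765330003, nat_lit 38846664003], nat_lit 0, nat_lit 0, nat_lit 0, nat_lit 0, nat_lit 0, nat_lit 0, [], [nat_lit 35, nat_lit 40, nat_lit 80, nat_lit 80, nat_lit 22, nat_lit 317, nat_lit 100, nat_lit 14]⟩, ⟨p025_k8, nat_lit 0, nat_lit 0, nat_lit 216, nat_lit 0, nat_lit 0, [nat_lit 1755870000, nat_lit 3343750000, nat_lit 5265470000], [], [nat_lit 17984539670, nat_lit 18671746956, nat_lit 21541621776, nat_lit 22084636290],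 nat_lit 0, nat_lit 0, nat_lit 0, nat_lit 0, nat_lit 0, nat_lit 0, [], [nat_lit 8, nat_lit 40, nat_lit 80, nat_lit 80, nat_lit 1, nat_lit 317, nat_lit 100, nat_lit 9]⟩,
 ⟨nat_lit 0, nat_lit 3163, ⟨.ofNat (nat_lit 507176), .ofNat (nat_lit 881191), .ofNat (nat_lit 548877), .ofNat (nat_lit 925502), .ofNat (nat_lit 531701), .ofNat (nat_lit 839996), .ofNat (nat_lit 579091), .ofNat (nat_lit 889997)⟩, ⟨.ofNat (nat_lit 0), .ofNat (nat_lit 0), .ofNat (nat_lit 0), .ofNat (nat_lit 0), .ofNat (nat_lit 0), .ofNat (nat_lit 0), .ofNat (nat_lit 0), .ofNat (nat_lit 0)⟩⟩, [⟨nat_lit 0, nat_lit 94, nat_lit 62, nat_lit 100, nat_lit 73561662⟩]⟩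
noncomputable def p025_l39 : Lf2 := ⟨nat_lit 0, nat_lit 10, [nat_lit 0, nat_lit 5, nat_lit 5, nat_lit 20], true, nat_lit 0, nat_lit 0, nat_lit 0, nat_lit 0, ⟨nat_lit 0, nat_lit 1000, nat_lit 0, nat_lit 7, nat_lit 242, nat_lit 0, nat_lit 0, nat_lit 0, nat_lit 0, nat_lit 0, nat_lit 0, nat_lit 0, nat_lit 49023188, nat_lit 17976812, nat_lit 0, nat_lit 2907855, false, false⟩,
 nat_lit 0, nat_lit 0, nat_lit 0, nat_lit 0, nat_lit 3102, nat_lit 0, nat_lit 0, nat_lit 0, nat_lit 0, nat_lit 0, nat_lit 0, nat_lit 0, nat_lit 0, nat_lit 0, nat_lit 0, nat_lit 250000, nat_lit 0, nat_lit 0, [(nat_lit 24, [(nat_lit 0, nat_lit 1000)]), (nat_lit 27, [(nat_lit 0, nat_lit 1000)])],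
 ⟨p025_k0, nat_lit 0, nat_lit 0, nat_lit 138, nat_lit 0, nat_lit 0, [nat_lit 780800001, nat_lit 1367200000, nat_lit 1705600000], [], [nat_lit 21312429633, nat_lit 24512241920, nat_lit 23711857840, nat_lit 26582066784], nat_lit 0, nat_lit 0, nat_lit 0, nat_lit 0, nat_lit 0, nat_lit 0, [], [nat_lit 35, nat_lit 40, nat_lit 80, nat_lit 80, nat_lit 22, nat_lit 272, nat_lit 60, nat_lit 12]⟩, C1.Rw.none,
 ⟨nat_lit 0, nat_lit 3163, ⟨.ofNat (nat_lit 507176), .ofNat (nat_lit 646918), .ofNat (nat_lit 548877), .ofNat (nat_lit 688618), .ofNat (nat_lit 531701), .ofNat (nat_lit 647345), .ofNat (nat_lit 579091), .ofNat (nat_lit 694736)⟩, ⟨.ofNat (nat_lit 0), .ofNat (nat_lit 0), .ofNat (nat_lit 0), .ofNat (nat_lit 0), .ofNat (nat_lit 0), .ofNat (nat_lit 0), .ofNat (nat_lit 0), .ofNat (nat_lit 0)⟩⟩, []⟩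
noncomputable def p025_l40 : Lf2 := ⟨nat_lit 0, nat_lit 10, [nat_lit 0, nat_lit 5, nat_lit 5, nat_lit 20], true, nat_lit 0, nat_lit 0, nat_lit 0, nat_lit 0, ⟨nat_lit 0, nat_lit 1000, nat_lit 0, nat_lit 7, nat_lit 291, nat_lit 0, nat_lit 0, nat_lit 0, nat_lit 0, nat_lit 0, nat_lit 0, nat_lit 0, nat_lit 43843042, nat_lit 23156958, nat_lit 0, nat_lit 3223484, true, false⟩,
 nat_lit 0, nat_lit 0, nat_lit 0, nat_lit 0, nat_lit 2755, nat_lit 0, nat_lit 113, nat_lit 0, nat_lit 0, nat_lit 0, nat_lit 0, nat_lit 0, nat_lit 0, nat_lit 0, nat_lit 0, nat_lit 250000, nat_lit 0, nat_lit 0, [(nat_lit 24, [(nat_lit 0, nat_lit 1000)]), (nat_lit 27, [(nat_lit 0, nat_lit 1000)])],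
 ⟨p025_k10, nat_lit 0, nat_lit 0, nat_lit 156, nat_lit 0, nat_lit 0, [nat_lit 780800001, nat_lit 1033600001, nat_lit 1705600000], [], [nat_lit 23707785721, nat_lit 25980762000, nat_lit 26638563181, nat_lit 28981745780], nat_lit 0, nat_lit 0, nat_lit 0, nat_lit 0, nat_lit 0, nat_lit 0, [], [nat_lit 152, nat_lit 40, nat_lit 80, nat_lit 80, nat_lit 33, nat_lit 203, nat_lit 0, nat_lit 8]⟩, C1.Rw.none,
 ⟨nat_lit 0, nat_lit 3163, ⟨.ofNat (nat_lit 646918), .ofNat (nat_lit 771478), .ofNat (nat_lit 688618), .ofNat (nat_lit 815384), .ofNat (nat_lit 647345), .ofNat (nat_lit 749999), .ofNat (nat_lit 694736), .ofNat (nat_lit 799594)⟩, ⟨.ofNat (nat_lit 0), .ofNat (nat_lit 0), .ofNat (nat_lit 0), .ofNat (nat_lit 0), .ofNat (nat_lit 0), .ofNat (nat_lit 0), .ofNat (nat_lit 0), .ofNat (nat_lit 0)⟩⟩, []⟩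
noncomputable def p025_l41 : Lf2 := ⟨nat_lit 0, nat_lit 10, [nat_lit 0, nat_lit 5, nat_lit 5, nat_lit 20], true, nat_lit 0, nat_lit 0, nat_lit 0, nat_lit 0, ⟨nat_lit 0, nat_lit 1000, nat_lit 0, nat_lit 8, nat_lit 325, nat_lit 0, nat_lit 0, nat_lit 0, nat_lit 0, nat_lit 0, nat_lit 0, nat_lit 0, nat_lit 40379269, nat_lit 26620731, nat_lit 0, nat_lit 3359558, true, true⟩,
 nat_lit 0, nat_lit 0, nat_lit 0, nat_lit 0, nat_lit 2681, nat_lit 0, nat_lit 0, nat_lit 0, nat_lit 0, nat_lit 0, nat_lit 0, nat_lit 0, nat_lit 0, nat_lit 0, nat_lit 0, nat_lit 309550, nat_lit 0, nat_lit 0, [(nat_lit 24, [(nat_lit 0, nat_lit 603), (nat_lit 1, nat_lit 397)]), (nat_lit 27, [(nat_lit 0, nat_lit 603), (nat_lit 1, nat_lit 397)])],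
 ⟨p025_k10, nat_lit 0, nat_lit 0, nat_lit 167, nat_lit 0, nat_lit 0, [nat_lit 747769600, nat_lit 1005121867, nat_lit 1422476533], [], [nat_lit 27459522645, nat_lit 29286641745, nat_lit 29091606861, nat_lit 30776355296], nat_lit 0, nat_lit 0, nat_lit 0, nat_lit 0, nat_lit 0, nat_lit 0, [], [nat_lit 152, nat_lit 40, nat_lit 80, nat_lit 80, nat_lit 33, nat_lit 203, nat_lit 0, nat_lit 7]⟩, C1.Rw.none,
 ⟨nat_lit 0, nat_lit 3163, ⟨.ofNat (nat_lit 771478), .ofNat (nat_lit 832430), .ofNat (nat_lit 815384), .ofNat (nat_lit 876741), .ofNat (nat_lit 749999), .ofNat (nat_lit 799997), .ofNat (nat_lit 799594), .ofNat (nat_lit 849999)⟩, ⟨.ofNat (nat_lit 0), .ofNat (nat_lit 0), .ofNat (nat_lit 0), .ofNat (nat_lit 0), .ofNat (nat_lit 0), .ofNat (nat_lit 0), .ofNat (nat_lit 0), .ofNat (nat_lit 0)⟩⟩, [⟨nat_lit 13, nat_lit 50, nat_lit 65, nat_lit 100, nat_lit 14901003⟩]⟩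
noncomputable def p025_l42 : Lf2 := ⟨nat_lit 0, nat_lit 10, [nat_lit 0, nat_lit 5, nat_lit 5, nat_lit 20], true, nat_lit 0, nat_lit 0, nat_lit 0, nat_lit 0, ⟨nat_lit 0, nat_lit 1000, nat_lit 0, nat_lit 9, nat_lit 345, nat_lit 0, nat_lit 0, nat_lit 0, nat_lit 0, nat_lit 0, nat_lit 0, nat_lit 0, nat_lit 38439200, nat_lit 28560800, nat_lit 0, nat_lit 3411191, true, true⟩,
 nat_lit 0, nat_lit 0, nat_lit 0, nat_lit 0, nat_lit 2532, nat_lit 0, nat_lit 0, nat_lit 0, nat_lit 0, nat_lit 0, nat_lit 0, nat_lit 0, nat_lit 0, nat_lit 0, nat_lit 0, nat_lit 351400, nat_lit 0, nat_lit 0, [(nat_lit 24, [(nat_lit 0, nat_lit 324), (nat_lit 1, nat_lit 676)]), (nat_lit 27, [(nat_lit 0, nat_lit 324), (nat_lit 1, nat_lit 676)])],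
 ⟨p025_k0, nat_lit 0, nat_lit 0, nat_lit 176, nat_lit 0, nat_lit 0, [nat_lit 826227200, nat_lit 1117170134, nat_lit 1197788800], [], [nat_lit 28713160556, nat_lit 30391758880, nat_lit 30004040812, nat_lit 31891431809], nat_lit 0, nat_lit 0, nat_lit 0, nat_lit 0, nat_lit 0, nat_lit 0, [], [nat_lit 35, nat_lit 40, nat_lit 80, nat_lit 80, nat_lit 22, nat_lit 203, nat_lit 0, nat_lit 7]⟩, C1.Rw.none,
 ⟨nat_lit 0, nat_lit 3163, ⟨.ofNat (nat_lit 832430), .ofNat (nat_lit 881191), .ofNat (nat_lit 876741), .ofNat (nat_lit 925502), .ofNat (nat_lit 799997), .ofNat (nat_lit 839996), .ofNat (nat_lit 849999), .ofNat (nat_lit 889997)⟩, ⟨.ofNat (nat_lit 0), .ofNat (nat_lit 0), .ofNat (nat_lit 0), .ofNat (nat_lit 0), .ofNat (nat_lit 0), .ofNat (nat_lit 0), .ofNat (nat_lit 0), .ofNat (nat_lit 0)⟩⟩, [⟨nat_lit 13, nat_lit 75, nat_lit 35, nat_lit 100, nat_lit 240370880⟩]⟩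
noncomputable def p025_l43 : Lf2 := ⟨nat_lit 0, nat_lit 10, [nat_lit 0, nat_lit 5, nat_lit 5, nat_lit 20], true, nat_lit 0, nat_lit 0, nat_lit 0, nat_lit 0, ⟨nat_lit 0, nat_lit 1000, nat_lit 0, nat_lit 7, nat_lit 285, nat_lit 0, nat_lit 0, nat_lit 0, nat_lit 0, nat_lit 0, nat_lit 0, nat_lit 0, nat_lit 0, nat_lit 0, nat_lit 0, nat_lit 5000000, false, false⟩,
 nat_lit 0, nat_lit 0, nat_lit 0, nat_lit 0, nat_lit 2698, nat_lit 0, nat_lit 0, nat_lit 0, nat_lit 0, nat_lit 0, nat_lit 0, nat_lit 0, nat_lit 0, nat_lit 0, nat_lit 0, nat_lit 317200, nat_lit 0, nat_lit 0, [(nat_lit 24, [(nat_lit 0, nat_lit 552), (nat_lit 1, nat_lit 448)]), (nat_lit 27, [(nat_lit 0, nat_lit 552), (nat_lit 1, nat_lit 448)])],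
 ⟨p025_k10, nat_lit 0, nat_lit 0, nat_lit 174, nat_lit 0, nat_lit 0, [nat_lit 743526401, nat_lit 1001463467, nat_lit 1386722133], [], [nat_lit 22373059806, nat_lit 24794312014, nat_lit 30303398255, nat_lit 32433146912], nat_lit 0, nat_lit 0, nat_lit 0, nat_lit 0, nat_lit 0, nat_lit 0, [], [nat_lit 152, nat_lit 40, nat_lit 80, nat_lit 80, nat_lit 33, nat_lit 317, nat_lit 100, nat_lit 14]⟩, C1.Rw.none,
 ⟨nat_lit 0, nat_lit 3163, ⟨.ofNat (nat_lit 507176), .ofNat (nat_lit 881191), .ofNat (nat_lit 548877), .ofNat (nat_lit 925502), .ofNat (nat_lit 531701), .ofNat (nat_lit 839996), .ofNat (nat_lit 579091), .ofNat (nat_lit 889997)⟩, ⟨.ofNat (nat_lit 0), .ofNat (nat_lit 0), .ofNat (nat_lit 0), .ofNat (nat_lit 0), .ofNat (nat_lit 0), .ofNat (nat_lit 0), .ofNat (nat_lit 0), .ofNat (nat_lit 0)⟩⟩, [⟨nat_lit 13, nat_lit 75, nat_lit 35, nat_lit 100, nat_lit 360298918⟩]⟩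
noncomputable def p025_l44 : Lf2 := ⟨nat_lit 0, nat_lit 10, [nat_lit 0, nat_lit 5, nat_lit 5, nat_lit 20], false, nat_lit 0, nat_lit 0, nat_lit 0, nat_lit 0, ⟨nat_lit 1000, nat_lit 0, nat_lit 0, nat_lit 0, nat_lit 0, nat_lit 0, nat_lit 0, nat_lit 0, nat_lit 0, nat_lit 0, nat_lit 0, nat_lit 0, nat_lit 0, nat_lit 0, nat_lit 0, nat_lit 0, false, false⟩,
 nat_lit 0, nat_lit 5930, nat_lit 0, nat_lit 0, nat_lit 5164, nat_lit 5300, nat_lit 303, nat_lit 0, nat_lit 0, nat_lit 1042, nat_lit 0, nat_lit 0, nat_lit 0, nat_lit 0, nat_lit 0, nat_lit 0, nat_lit 0, nat_lit 0, [],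
 ⟨p025_k0, nat_lit 0, nat_lit 0, nat_lit 569, nat_lit 0, nat_lit 1242408, [nat_lit 938000000, nat_lit 3282000000, nat_lit 4688000000], [], [nat_lit 32579631183, nat_lit 33446130369, nat_lit 37827251988, nat_lit 38488955788], nat_lit 1271250, nat_lit 1271250, nat_lit 1033601, nat_lit 3002700, nat_lit 0, nat_lit 0, [nat_lit 230000, nat_lit 780000, nat_lit 1100000], [nat_lit 35, nat_lit 40, nat_lit 80, nat_lit 80, nat_lit 22, nat_lit 317, nat_lit 100, nat_lit 14]⟩, ⟨p025_k8, nat_lit 0, nat_lit 0, nat_lit 211, nat_lit 0, nat_lit 0, [nat_lit 3282000000, nat_lit 6250000000, nat_lit 9842000000], [], [nat_lit 22166687010, nat_lit 23525308131, nat_lit 34031608000, nat_lit 35009783600], nat_lit 0, nat_lit 0, nat_lit 0, nat_lit 0, nat_lit 0, nat_lit 0, [], [nat_lit 8, nat_lit 40, nat_lit 80, nat_lit 80, nat_lit 1, nat_lit 317, nat_lit 100, nat_lit 9]⟩,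
 zbF0, [⟨nat_lit 0, nat_lit 87, nat_lit 44, nat_lit 100, nat_lit 177230988⟩]⟩
noncomputable def p025_l45 : Lf2 := ⟨nat_lit 0, nat_lit 10, [nat_lit 0, nat_lit 5, nat_lit 5, nat_lit 20], false, nat_lit 0, nat_lit 0, nat_lit 0, nat_lit 0, ⟨nat_lit 1000, nat_lit 0, nat_lit 0, nat_lit 0, nat_lit 0, nat_lit 0, nat_lit 0, nat_lit 0, nat_lit 0, nat_lit 0, nat_lit 0, nat_lit 0, nat_lit 0, nat_lit 0, nat_lit 0, nat_lit 0, false, false⟩,
 nat_lit 0, nat_lit 6117, nat_lit 0, nat_lit 0, nat_lit 5327, nat_lit 5342, nat_lit 313, nat_lit 0, nat_lit 0, nat_lit 825, nat_lit 0, nat_lit 0, nat_lit 0, nat_lit 0, nat_lit 0, nat_lit 0, nat_lit 0, nat_lit 0, [],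
 ⟨p025_k0, nat_lit 0, nat_lit 0, nat_lit 580, nat_lit 0, nat_lit 1290654, [nat_lit 938000000, nat_lit 3282000000, nat_lit 4688000000], [], [nat_lit 33640411894, nat_lit 34051446374, nat_lit 38550474755, nat_lit 38843982277], nat_lit 1271250, nat_lit 1271250, nat_lit 1236400, nat_lit 3118301, nat_lit 0, nat_lit 0, [nat_lit 230000, nat_lit 780000, nat_lit 1100000], [nat_lit 35, nat_lit 40, nat_lit 80, nat_lit 80, nat_lit 22, nat_lit 241, nat_lit 0, nat_lit 10]⟩, ⟨p025_k11, nat_lit 0, nat_lit 0, nat_lit 196, nat_lit 0, nat_lit 0, [nat_lit 3282000000, nat_lit 6250000000, nat_lit 7968000000], [], [nat_lit 22506613976, nat_lit 23913750170, nat_lit 34359614379, nat_lit 35513522888], nat_lit 0, nat_lit 0, nat_lit 0, nat_lit 0, nat_lit 0, nat_lit 0, [], [nat_lit 18, nat_lit 40, nat_lit 80, nat_lit 80, nat_lit 2, nat_lit 317, nat_lit 100, nat_lit 10]⟩,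
 zbF0, [⟨nat_lit 0, nat_lit 80, nat_lit 53, nat_lit 100, nat_lit 77435167⟩]⟩
noncomputable def p025_l46 : Lf2 := ⟨nat_lit 0, nat_lit 10, [nat_lit 0, nat_lit 5, nat_lit 5, nat_lit 20], false, nat_lit 0, nat_lit 0, nat_lit 0, nat_lit 0, ⟨nat_lit 1000, nat_lit 0, nat_lit 0, nat_lit 0, nat_lit 0, nat_lit 0, nat_lit 0, nat_lit 0, nat_lit 0, nat_lit 0, nat_lit 0, nat_lit 0, nat_lit 0, nat_lit 0, nat_lit 0, nat_lit 0, false, false⟩,
 nat_lit 0, nat_lit 2848, nat_lit 0, nat_lit 0, nat_lit 2570, nat_lit 0, nat_lit 741, nat_lit 0, nat_lit 0, nat_lit 0, nat_lit 0, nat_lit 0, nat_lit 0, nat_lit 0, nat_lit 0, nat_lit 0, nat_lit 0, nat_lit 0, [],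
 ⟨p025_k9, nat_lit 0, nat_lit 0, nat_lit 583, nat_lit 0, nat_lit 1297951, [nat_lit 938000000, nat_lit 3282000000, nat_lit 4688000000], [], [nat_lit 35303885941, nat_lit 35687299212, nat_lit 40459680078, nat_lit 40761473957], nat_lit 1271250, nat_lit 1271250, nat_lit 1271250, nat_lit 1271250, nat_lit 0, nat_lit 0, [nat_lit 230000, nat_lit 780000, nat_lit 1100000], [nat_lit 35, nat_lit 40, nat_lit 80, nat_lit 80, nat_lit 22, nat_lit 242, nat_lit 0, nat_lit 10]⟩, ⟨p025_k11, nat_lit 0, nat_lit 0, nat_lit 195, nat_lit 0, nat_lit 0, [nat_lit 3282000000, nat_lit 6250000000, nat_lit 7968000000], [], [nat_lit 34804380000, nat_lit 35434496800, nat_lit 40277058000, nat_lit 40792043200], nat_lit 0, nat_lit 0, nat_lit 0, nat_lit 0, nat_lit 0, nat_lit 0, [], [nat_lit 18, nat_lit 40, nat_lit 80, nat_lit 80, nat_lit 2, nat_lit 317, nat_lit 100, nat_lit 10]⟩,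
 zbF0, []⟩
noncomputable def p025_l47 : Lf2 := ⟨nat_lit 0, nat_lit 10, [nat_lit 0, nat_lit 5, nat_lit 5, nat_lit 20], false, nat_lit 0, nat_lit 0, nat_lit 0, nat_lit 0, ⟨nat_lit 1000, nat_lit 0, nat_lit 0, nat_lit 0, nat_lit 0, nat_lit 0, nat_lit 0, nat_lit 0, nat_lit 0, nat_lit 0, nat_lit 0, nat_lit 0, nat_lit 0, nat_lit 0, nat_lit 0, nat_lit 0, false, false⟩,
 nat_lit 0, nat_lit 3101, nat_lit 0, nat_lit 0, nat_lit 2897, nat_lit 0, nat_lit 0, nat_lit 0, nat_lit 0, nat_lit 0, nat_lit 0, nat_lit 0, nat_lit 0, nat_lit 0, nat_lit 0, nat_lit 0, nat_lit 0, nat_lit 0, [],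
 ⟨p025_k2, nat_lit 0, nat_lit 0, nat_lit 550, nat_lit 0, nat_lit 1370818, [nat_lit 938000000, nat_lit 3282000000], [], [nat_lit 37749548068, nat_lit 38578101334, nat_lit 42560935279, nat_lit 43177703375], nat_lit 1271250, nat_lit 1271250, nat_lit 1271250, nat_lit 1271250, nat_lit 0, nat_lit 0, [nat_lit 230000, nat_lit 780000], [nat_lit 66, nat_lit 40, nat_lit 80, nat_lit 80, nat_lit 67, nat_lit 235, nat_lit 0, nat_lit 12]⟩, ⟨p025_k8, nat_lit 0, nat_lit 0, nat_lit 213, nat_lit 0, nat_lit 0, [nat_lit 3282000000, nat_lit 6250000000, nat_lit 9842000000], [], [nat_lit 34633266400, nat_lit 35875364000, nat_lit 39910830000, nat_lit 40939671000], nat_lit 0, nat_lit 0, nat_lit 0, nat_lit 0, nat_lit 0, nat_lit 0, [], [nat_lit 8, nat_lit 40, nat_lit 80, nat_lit 80, nat_lit 1, nat_lit 317, nat_lit 100, nat_lit 9]⟩,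
 zbF0, [⟨nat_lit 0, nat_lit 88, nat_lit 32, nat_lit 100, nat_lit 553648253⟩]⟩
noncomputable def p025_l48 : Lf2 := ⟨nat_lit 0, nat_lit 10, [nat_lit 0, nat_lit 5, nat_lit 5, nat_lit 20], false, nat_lit 0, nat_lit 0, nat_lit 0, nat_lit 0, ⟨nat_lit 309, nat_lit 691, nat_lit 0, nat_lit 7, nat_lit 242, nat_lit 0, nat_lit 0, nat_lit 0, nat_lit 0, nat_lit 0, nat_lit 0, nat_lit 0, nat_lit 48999795, nat_lit 18000205, nat_lit 0, nat_lit 2909605, false, false⟩,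
 nat_lit 4187, nat_lit 0, nat_lit 0, nat_lit 0, nat_lit 3646, nat_lit 2664, nat_lit 1, nat_lit 0, nat_lit 0, nat_lit 224, nat_lit 0, nat_lit 0, nat_lit 0, nat_lit 0, nat_lit 0, nat_lit 417400, nat_lit 0, nat_lit 0, [(nat_lit 24, [(nat_lit 1, nat_lit 456), (nat_lit 2, nat_lit 235)])],
 ⟨p025_k0, nat_lit 0, nat_lit 0, nat_lit 360, nat_lit 0, nat_lit 719147, [nat_lit 1021510000, nat_lit 1357814000, nat_lit 1392366400], [], [nat_lit 23305039400, nat_lit 24342610708, nat_lit 25120834270, nat_lit 26150742300], nat_lit 1271250, nat_lit 1271250, nat_lit 1033601, nat_lit 1780500, nat_lit 0, nat_lit 0, [nat_lit 230000, nat_lit 780000, nat_lit 1100000], [nat_lit 35, nat_lit 40, nat_lit 80, nat_lit 80, nat_lit 22, nat_lit 272, nat_lit 60, nat_lit 12]⟩, ⟨p025_k8, nat_lit 0, nat_lit 0, nat_lit 674, nat_lit 0, nat_lit 1029846, [nat_lit 1014138000, nat_lit 1931250000, nat_lit 3041178000], [], [nat_lit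 9349519626, nat_lit 9685306392, nat_lit 9386009420, nat_lit 9723879124], nat_lit 1271250, nat_lit 1271250, nat_lit 1033601, nat_lit 1780500, nat_lit 0, nat_lit 0, [nat_lit 780000, nat_lit 1435000, nat_lit 1271250], [nat_lit 8, nat_lit 40, nat_lit 80, nat_lit 80, nat_lit 1, nat_lit 272, nat_lit 60, nat_lit 8]⟩,
 ⟨nat_lit 2236, nat_lit 3163, ⟨.ofNat (nat_lit 515097), .ofNat (nat_lit 649422), .ofNat (nat_lit 559279), .ofNat (nat_lit 693606), .ofNat (nat_lit 522299), .ofNat (nat_lit 647962), .ofNat (nat_lit 567721), .ofNat (nat_lit 693384)⟩, ⟨.ofNat (nat_lit 0), .ofNat (nat_lit 0), .ofNat (nat_lit 0), .ofNat (nat_lit 0), .ofNat (nat_lit 0), .ofNat (nat_lit 0), .ofNat (nat_lit 0), .ofNat (nat_lit 0)⟩⟩, [⟨nat_lit 0, nat_lit 82, nat_lit 44, nat_lit 100, nat_lit 270670442⟩]⟩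
noncomputable def p025_l49 : Lf2 := ⟨nat_lit 0, nat_lit 10, [nat_lit 0, nat_lit 5, nat_lit 5, nat_lit 20], false, nat_lit 0, nat_lit 0, nat_lit 0, nat_lit 0, ⟨nat_lit 591, nat_lit 409, nat_lit 0, nat_lit 7, nat_lit 313, nat_lit 0, nat_lit 0, nat_lit 0, nat_lit 0, nat_lit 0, nat_lit 0, nat_lit 0, nat_lit 41524325, nat_lit 25475675, nat_lit 0, nat_lit 3320892, true, true⟩,
 nat_lit 5990, nat_lit 0, nat_lit 0, nat_lit 0, nat_lit 3741, nat_lit 3811, nat_lit 5, nat_lit 0, nat_lit 0, nat_lit 398, nat_lit 0, nat_lit 0, nat_lit 0, nat_lit 0, nat_lit 0, nat_lit 409000, nat_lit 0, nat_lit 0, [(nat_lit 24, [(nat_lit 2, nat_lit 409)])],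
 ⟨p025_k0, nat_lit 0, nat_lit 0, nat_lit 374, nat_lit 0, nat_lit 719147, [nat_lit 1154770000, nat_lit 1746286800, nat_lit 1915307200], [], [nat_lit 27669268222, nat_lit 28549959679, nat_lit 33401059025, nat_lit 34618936865], nat_lit 1271250, nat_lit 1271250, nat_lit 1271250, nat_lit 1271250, nat_lit 0, nat_lit 0, [nat_lit 230000, nat_lit 780000, nat_lit 1100000], [nat_lit 35, nat_lit 40, nat_lit 80, nat_lit 80, nat_lit 22, nat_lit 203, nat_lit 0, nat_lit 8]⟩, ⟨p025_k8, nat_lit 0, nat_lit 0, nat_lit 642, nat_lit 0, nat_lit 1029846, [nat_lit 1939662000, nat_lit 3693750000, nat_lit 5816622000], [], [nat_lit 23541788088, nat_lit 23964712416, nat_lit 25510871875, nat_lit 25956344714], nat_lit 1271250, nat_lit 1271250, nat_lit 1271250, nat_lit 1271250, nat_lit 0, nat_lit 0, [nat_lit 780000, nat_lit 1435000, nat_lit 1271250], [nat_lit 8, nat_lit 40, nat_lit 80, nat_lit 80, nat_lit 1, nat_lit 317,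 nat_lit 100, nat_lit 9]⟩,
 ⟨nat_lit 2236, nat_lit 3163, ⟨.ofNat (nat_lit 649422), .ofNat (nat_lit 881194), .ofNat (nat_lit 693606), .ofNat (nat_lit 925504), .ofNat (nat_lit 647962), .ofNat (nat_lit 864770), .ofNat (nat_lit 693384), .ofNat (nat_lit 910319)⟩, ⟨.ofNat (nat_lit 0), .ofNat (nat_lit 0), .ofNat (nat_lit 0), .ofNat (nat_lit 0), .ofNat (nat_lit 0), .ofNat (nat_lit 0), .ofNat (nat_lit 0), .ofNat (nat_lit 0)⟩⟩, []⟩
noncomputable def p025_l50 : Lf2 := ⟨nat_lit 0, nat_lit 10, [nat_lit 0, nat_lit 5, nat_lit 5, nat_lit 20], false, nat_lit 0, nat_lit 0, nat_lit 0, nat_lit 0, ⟨nat_lit 460, nat_lit 540, nat_lit 0, nat_lit 7, nat_lit 293, nat_lit 0, nat_lit 0, nat_lit 0, nat_lit 0, nat_lit 0, nat_lit 0, nat_lit 0, nat_lit 43625861, nat_lit 23374139, nat_lit 0, nat_lit 3233713, true, false⟩,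
 nat_lit 4649, nat_lit 0, nat_lit 0, nat_lit 0, nat_lit 2960, nat_lit 2958, nat_lit 32, nat_lit 0, nat_lit 0, nat_lit 310, nat_lit 0, nat_lit 0, nat_lit 0, nat_lit 0, nat_lit 0, nat_lit 216000, nat_lit 0, nat_lit 0, [(nat_lit 27, [(nat_lit 1, nat_lit 540)])],
 ⟨p025_k2, nat_lit 0, nat_lit 0, nat_lit 343, nat_lit 0, nat_lit 734846, [nat_lit 808184001, nat_lit 1684896000], [], [nat_lit 25834153802, nat_lit 26929570891, nat_lit 31886689930, nat_lit 32669826970], nat_lit 1271250, nat_lit 1271250, nat_lit 1271250, nat_lit 1271250, nat_lit 0, nat_lit 0, [nat_lit 230000, nat_lit 780000], [nat_lit 66, nat_lit 40, nat_lit 80, nat_lit 80, nat_lit 67, nat_lit 203, nat_lit 0, nat_lit 10]⟩, ⟨p025_k8, nat_lit 0, nat_lit 0, nat_lit 721, nat_lit 0, nat_lit 1138413, [nat_lit 1509720000, nat_lit 2875000000, nat_lit 4527320000], [], [nat_lit 18435711651, nat_lit 18757799016, nat_lit 19788608630, nat_lit 20065075982],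 nat_lit 1271250, nat_lit 1271250, nat_lit 1271250, nat_lit 1271250, nat_lit 0, nat_lit 0, [nat_lit 780000, nat_lit 1435000, nat_lit 1271250], [nat_lit 8, nat_lit 40, nat_lit 80, nat_lit 80, nat_lit 1, nat_lit 317, nat_lit 100, nat_lit 9]⟩,
 ⟨nat_lit 0, nat_lit 2237, ⟨.ofNat (nat_lit 575619), .ofNat (nat_lit 847661), .ofNat (nat_lit 619314), .ofNat (nat_lit 893212), .ofNat (nat_lit 585925), .ofNat (nat_lit 824994), .ofNat (nat_lit 634072), .ofNat (nat_lit 874997)⟩, ⟨.ofNat (nat_lit 0), .ofNat (nat_lit 0), .ofNat (nat_lit 0), .ofNat (nat_lit 0), .ofNat (nat_lit 0), .ofNat (nat_lit 0), .ofNat (nat_lit 0), .ofNat (nat_lit 0)⟩⟩, []⟩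
noncomputable def p025_l51 : Lf2 := ⟨nat_lit 0, nat_lit 10, [nat_lit 0, nat_lit 5, nat_lit 5, nat_lit 20], false, nat_lit 0, nat_lit 0, nat_lit 0, nat_lit 0, ⟨nat_lit 735, nat_lit 265, nat_lit 0, nat_lit 7, nat_lit 280, nat_lit 0, nat_lit 0, nat_lit 0, nat_lit 0, nat_lit 0, nat_lit 0, nat_lit 0, nat_lit 0, nat_lit 0, nat_lit 0, nat_lit 5000000, false, false⟩,
 nat_lit 0, nat_lit 4884, nat_lit 0, nat_lit 0, nat_lit 4253, nat_lit 3894, nat_lit 130, nat_lit 0, nat_lit 0, nat_lit 766, nat_lit 0, nat_lit 0, nat_lit 0, nat_lit 0, nat_lit 0, nat_lit 265000, nat_lit 0, nat_lit 0, [(nat_lit 24, [(nat_lit 2, nat_lit 265)])],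
 ⟨p025_k0, nat_lit 0, nat_lit 0, nat_lit 569, nat_lit 0, nat_lit 1242408, [nat_lit 1078450000, nat_lit 2286978001, nat_lit 2891512000], [], [nat_lit 30369223906, nat_lit 31180818896, nat_lit 35157954610, nat_lit 35712755989], nat_lit 1271250, nat_lit 1271250, nat_lit 1033601, nat_lit 3002700, nat_lit 0, nat_lit 0, [nat_lit 230000, nat_lit 780000, nat_lit 1100000], [nat_lit 35, nat_lit 40, nat_lit 80, nat_lit 80, nat_lit 22, nat_lit 317, nat_lit 100, nat_lit 14]⟩, ⟨p025_k8, nat_lit 0, nat_lit 0, nat_lit 211, nat_lit 0, nat_lit 0, [nat_lit 2412270000, nat_lit 4593750000, nat_lit 7233870000], [], [nat_lit 16293037245, nat_lit 17293685732, nat_lit 25011904116, nat_lit 25730749626], nat_lit 0, nat_lit 0, nat_lit 0, nat_lit 0, nat_lit 0, nat_lit 0, [], [nat_lit 8, nat_lit 40, nat_lit 80, nat_lit 80, nat_lit 1, nat_lit 317, nat_lit 100, nat_lit 9]⟩,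
 ⟨nat_lit 2236, nat_lit 3163, ⟨.ofNat (nat_lit 515097), .ofNat (nat_lit 869004), .ofNat (nat_lit 537188), .ofNat (nat_lit 891158), .ofNat (nat_lit 522299), .ofNat (nat_lit 853367), .ofNat (nat_lit 545010), .ofNat (nat_lit 876141)⟩, ⟨.ofNat (nat_lit 0), .ofNat (nat_lit 0), .ofNat (nat_lit 0), .ofNat (nat_lit 0), .ofNat (nat_lit 0), .ofNat (nat_lit 0), .ofNat (nat_lit 0), .ofNat (nat_lit 0)⟩⟩, []⟩
noncomputable def p025_l52 : Lf2 := ⟨nat_lit 0, nat_lit 10, [nat_lit 0, nat_lit 5, nat_lit 5, nat_lit 20], false, nat_lit 0, nat_lit 0, nat_lit 0, nat_lit 0, ⟨nat_lit 762, nat_lit 238, nat_lit 0, nat_lit 7, nat_lit 299, nat_lit 0, nat_lit 0, nat_lit 0, nat_lit 0, nat_lit 0, nat_lit 0, nat_lit 0, nat_lit 0, nat_lit 0, nat_lit 0, nat_lit 5000000, true, false⟩,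
 nat_lit 0, nat_lit 5047, nat_lit 0, nat_lit 0, nat_lit 4395, nat_lit 3933, nat_lit 179, nat_lit 0, nat_lit 0, nat_lit 586, nat_lit 0, nat_lit 0, nat_lit 0, nat_lit 0, nat_lit 0, nat_lit 238000, nat_lit 0, nat_lit 0, [(nat_lit 24, [(nat_lit 2, nat_lit 238)])],
 ⟨p025_k0, nat_lit 0, nat_lit 0, nat_lit 608, nat_lit 0, nat_lit 1360169, [nat_lit 1064140001, nat_lit 2388357601, nat_lit 3074550400], [], [nat_lit 31622496724, nat_lit 32330637967, nat_lit 36130158485, nat_lit 36657224918], nat_lit 1271250, nat_lit 1271250, nat_lit 1236400, nat_lit 3118301, nat_lit 0, nat_lit 0, [nat_lit 230000, nat_lit 780000, nat_lit 1100000], [nat_lit 35, nat_lit 40, nat_lit 80, nat_lit 80, nat_lit 22, nat_lit 249, nat_lit 0, nat_lit 11]⟩, ⟨p025_k11, nat_lit 0, nat_lit 0, nat_lit 196, nat_lit 0, nat_lit 0, [nat_lit 2500884000, nat_lit 4762500000, nat_lit 6071616000], [], [nat_lit 17496805538, nat_lit 18549355594,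 nat_lit 26030194204, nat_lit 26687152683], nat_lit 0, nat_lit 0, nat_lit 0, nat_lit 0, nat_lit 0, nat_lit 0, [], [nat_lit 18, nat_lit 40, nat_lit 80, nat_lit 80, nat_lit 2, nat_lit 317, nat_lit 100, nat_lit 10]⟩,
 ⟨nat_lit 2236, nat_lit 3163, ⟨.ofNat (nat_lit 573823), .ofNat (nat_lit 903349), .ofNat (nat_lit 595914), .ofNat (nat_lit 925504), .ofNat (nat_lit 579282), .ofNat (nat_lit 887545), .ofNat (nat_lit 601993), .ofNat (nat_lit 910319)⟩, ⟨.ofNat (nat_lit 0), .ofNat (nat_lit 0), .ofNat (nat_lit 0), .ofNat (nat_lit 0), .ofNat (nat_lit 0), .ofNat (nat_lit 0), .ofNat (nat_lit 0), .ofNat (nat_lit 0)⟩⟩, []⟩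
noncomputable def p025_l53 : Lf2 := ⟨nat_lit 0, nat_lit 10, [nat_lit 0, nat_lit 5, nat_lit 5, nat_lit 20], false, nat_lit 0, nat_lit 0, nat_lit 0, nat_lit 0, ⟨nat_lit 1000, nat_lit 0, nat_lit 0, nat_lit 0, nat_lit 0, nat_lit 0, nat_lit 0, nat_lit 0, nat_lit 0, nat_lit 0, nat_lit 0, nat_lit 0, nat_lit 0, nat_lit 0, nat_lit 0, nat_lit 0, false, false⟩,
 nat_lit 0, nat_lit 4196, nat_lit 0, nat_lit 0, nat_lit 3920, nat_lit 0, nat_lit 148, nat_lit 0, nat_lit 0, nat_lit 0, nat_lit 0, nat_lit 0, nat_lit 0, nat_lit 0, nat_lit 0, nat_lit 0, nat_lit 0, nat_lit 0, [],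
 ⟨p025_k2, nat_lit 0, nat_lit 0, nat_lit 550, nat_lit 0, nat_lit 1370818, [nat_lit 938000000, nat_lit 3282000000], [], [nat_lit 29944681992, nat_lit 30885224297, nat_lit 35052687440, nat_lit 35731212000], nat_lit 1271250, nat_lit 1271250, nat_lit 1271250, nat_lit 1271250, nat_lit 0, nat_lit 0, [nat_lit 230000, nat_lit 780000], [nat_lit 66, nat_lit 40, nat_lit 80, nat_lit 80, nat_lit 67, nat_lit 235, nat_lit 0, nat_lit 12]⟩, ⟨p025_k12, nat_lit 0, nat_lit 0, nat_lit 223, nat_lit 0, nat_lit 0, [nat_lit 3282000000, nat_lit 7968000000, nat_lit 9842000000], [], [nat_lit 36987321600, nat_lit 38200560000, nat_lit 42156521000, nat_lit 43165148000], nat_lit 0, nat_lit 0, nat_lit 0, nat_lit 0, nat_lit 0, nat_lit 0, [], [nat_lit 99, nat_lit 40, nat_lit 80, nat_lit 80, nat_lit 17, nat_lit 317, nat_lit 100, nat_lit 9]⟩,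
 zbF0, [⟨nat_lit 0, nat_lit 88, nat_lit 32, nat_lit 100, nat_lit 529211867⟩]⟩
noncomputable def p025_l54 : Lf2 := ⟨nat_lit 0, nat_lit 10, [nat_lit 0, nat_lit 5, nat_lit 5, nat_lit 20], false, nat_lit 0, nat_lit 0, nat_lit 0, nat_lit 0, ⟨nat_lit 318, nat_lit 682, nat_lit 0, nat_lit 7, nat_lit 285, nat_lit 0, nat_lit 0, nat_lit 0, nat_lit 0, nat_lit 0, nat_lit 0, nat_lit 0, nat_lit 0, nat_lit 0, nat_lit 0, nat_lit 5000000, false, false⟩,
 nat_lit 3734, nat_lit 0, nat_lit 0, nat_lit 0, nat_lit 3252, nat_lit 2376, nat_lit 76, nat_lit 0, nat_lit 0, nat_lit 176, nat_lit 0, nat_lit 0, nat_lit 0, nat_lit 0, nat_lit 0, nat_lit 311800, nat_lit 0, nat_lit 0, [(nat_lit 24, [(nat_lit 1, nat_lit 617), (nat_lit 2, nat_lit 65)]), (nat_lit 27, [(nat_lit 1, nat_lit 617), (nat_lit 2, nat_lit 65)])],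
 ⟨p025_k0, nat_lit 0, nat_lit 0, nat_lit 408, nat_lit 0, nat_lit 794959, [nat_lit 916920000, nat_lit 1628298667, nat_lit 1943720800], [], [nat_lit 27181898086, nat_lit 28954384885, nat_lit 33044312918, nat_lit 34242253074], nat_lit 1271250, nat_lit 1271250, nat_lit 1033601, nat_lit 3070600, nat_lit 0, nat_lit 0, [nat_lit 230000, nat_lit 780000, nat_lit 1100000], [nat_lit 35, nat_lit 40, nat_lit 80, nat_lit 80, nat_lit 22, nat_lit 317, nat_lit 100, nat_lit 14]⟩, ⟨p025_k8, nat_lit 0, nat_lit 0, nat_lit 733, nat_lit 0, nat_lit 1138413, [nat_lit 1043676000, nat_lit 1987500000, nat_lit 3129756000], [], [nat_lit 12377456032, nat_lit 12613564010, nat_lit 14618412312, nat_lit 13145500504], nat_lit 1271250, nat_lit 1271250, nat_lit 1033601, nat_lit 3070600, nat_lit 0, nat_lit 0, [nat_lit 780000, nat_lit 1435000, nat_lit 1271250], [nat_lit 8, nat_lit 40, nat_lit 80, nat_lit 80, nat_lit 1, nat_lit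 317, nat_lit 100, nat_lit 9]⟩,
 ⟨nat_lit 0, nat_lit 3163, ⟨.ofNat (nat_lit 507176), .ofNat (nat_lit 881191), .ofNat (nat_lit 548877), .ofNat (nat_lit 925502), .ofNat (nat_lit 531701), .ofNat (nat_lit 839996), .ofNat (nat_lit 579091), .ofNat (nat_lit 889997)⟩, ⟨.ofNat (nat_lit 0), .ofNat (nat_lit 0), .ofNat (nat_lit 0), .ofNat (nat_lit 0), .ofNat (nat_lit 0), .ofNat (nat_lit 0), .ofNat (nat_lit 0), .ofNat (nat_lit 0)⟩⟩, [⟨nat_lit 13, nat_lit 50, nat_lit 65, nat_lit 100, nat_lit 145170436⟩]⟩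
noncomputable def b_N_900_700_0_1 : St := ⟨false, nat_lit 2, nat_lit 2, nat_lit 0, nat_lit 40, nat_lit 360, nat_lit 400, nat_lit 280, nat_lit 320, nat_lit 152, nat_lit 392, nat_lit 0, nat_lit 0, nat_lit 0, nat_lit 0, nat_lit 0, nat_lit 0, nat_lit 40, nat_lit 80, nat_lit 0, nat_lit 0, nat_lit 0, nat_lit 0⟩
theorem d_N_900_700_0_1 (h : EB TB.env) : Dead b_N_900_700_0_1 := chkB_sound0 h (T :=
(.st (nat_lit 0)
(.gv
(.st (nat_lit 1)
(.leaf p025_l38)
(.spl (nat_lit 2) (nat_lit 240)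
(.leaf p025_l39)
(.spl (nat_lit 2) (nat_lit 320)
(.leaf p025_l40)
(.spl (nat_lit 2) (nat_lit 360)
(.leaf p025_l41)
(.leaf p025_l42)))))
(.leaf p025_l43))
(.gv
(.st (nat_lit 1)
(.spl (nat_lit 0) (nat_lit 380)
(.spl (nat_lit 1) (nat_lit 300)
(.trX (nat_lit 13) (nat_lit 69) (nat_lit 45) (nat_lit 100) (nat_lit 384) (.leaf p025_l44))
(.trZ (nat_lit 0) (nat_lit 87) (nat_lit 60) (nat_lit 100) (nat_lit 176) (.spl (nat_lit 0) (nat_lit 370)
(.leaf p025_l45)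
(.trZ (nat_lit 0) (nat_lit 87) (nat_lit 53) (nat_lit 100) (nat_lit 192) (.trX (nat_lit 13) (nat_lit 66) (nat_lit 45) (nat_lit 100) (nat_lit 388) (.leaf p025_l46))))))
(.trZ (nat_lit 0) (nat_lit 92) (nat_lit 44) (nat_lit 100) (nat_lit 192) (.trX (nat_lit 13) (nat_lit 54) (nat_lit 57) (nat_lit 100) (nat_lit 380) (.leaf p025_l47))))
(.spl (nat_lit 0) (nat_lit 380)
(.spl (nat_lit 2) (nat_lit 240)
(.leaf p025_l48)
(.leaf p025_l49))
(.trZ (nat_lit 0) (nat_lit 92) (nat_lit 44) (nat_lit 100) (nat_lit 192) (.trX (nat_lit 13) (nat_lit 54) (nat_lit 57) (nat_lit 100) (nat_lit 380) (.leaf p025_l50)))))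
(.st (nat_lit 1)
(.spl (nat_lit 0) (nat_lit 380)
(.spl (nat_lit 1) (nat_lit 300)
(.trX (nat_lit 13) (nat_lit 69) (nat_lit 45) (nat_lit 100) (nat_lit 384) (.leaf p025_l51))
(.trZ (nat_lit 0) (nat_lit 87) (nat_lit 60) (nat_lit 100) (nat_lit 176) (.leaf p025_l52)))
(.trZ (nat_lit 0) (nat_lit 92) (nat_lit 44) (nat_lit 100) (nat_lit 192) (.trX (nat_lit 13) (nat_lit 54) (nat_lit 57) (nat_lit 100) (nat_lit 380) (.leaf p025_l53))))
(.leaf p025_l54))))) (by decide +kernel)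
noncomputable def p025_l55 : Lf2 := ⟨nat_lit 0, nat_lit 10, [nat_lit 0, nat_lit 5, nat_lit 5, nat_lit 20], false, nat_lit 0, nat_lit 0, nat_lit 0, nat_lit 0, ⟨nat_lit 863, nat_lit 0, nat_lit 137, nat_lit 7, nat_lit 285, nat_lit 0, nat_lit 0, nat_lit 0, nat_lit 0, nat_lit 215, nat_lit 579754, nat_lit 200, nat_lit 44421301, nat_lit 0, nat_lit 0, nat_lit 3195111, false, false⟩,
 nat_lit 0, nat_lit 0, nat_lit 0, nat_lit 0, nat_lit 0, nat_lit 0, nat_lit 0, nat_lit 0, nat_lit 0, nat_lit 0, nat_lit 0, nat_lit 0, nat_lit 0, nat_lit 0, nat_lit 0, nat_lit 22605, nat_lit 0, nat_lit 0, [(nat_lit 24, [(nat_lit 3, nat_lit 137)]), (nat_lit 27, [(nat_lit 3, nat_lit 137)])],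
 ⟨p025_k6, nat_lit 0, nat_lit 0, nat_lit 172, nat_lit 0, nat_lit 0, [nat_lit 1416239600, nat_lit 3960256000], [], [nat_lit 34646099200, nat_lit 36016948000, nat_lit 40927324400, nat_lit 42010363600], nat_lit 0, nat_lit 0, nat_lit 0, nat_lit 0, nat_lit 0, nat_lit 0, [], [nat_lit 86, nat_lit 40, nat_lit 80, nat_lit 80, nat_lit 87, nat_lit 317, nat_lit 100, nat_lit 14]⟩, ⟨p025_k7, nat_lit 0, nat_lit 0, nat_lit 198, nat_lit 0, nat_lit 0, [nat_lit 2832366000, nat_lit 8493646000], [], [nat_lit 33680198476, nat_lit 34718417854, nat_lit 39104619496, nat_lit 39937039264], nat_lit 0, nat_lit 0, nat_lit 0, nat_lit 0, nat_lit 0, nat_lit 0, [], [nat_lit 82, nat_lit 40, nat_lit 80, nat_lit 80, nat_lit 63, nat_lit 317, nat_lit 100, nat_lit 9]⟩,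
 ⟨nat_lit 0, nat_lit 3163, ⟨.ofNat (nat_lit 507176), .ofNat (nat_lit 881191), .ofNat (nat_lit 548877), .ofNat (nat_lit 925502), .ofNat (nat_lit 531701), .ofNat (nat_lit 839996), .ofNat (nat_lit 579091), .ofNat (nat_lit 889997)⟩, ⟨.ofNat (nat_lit 0), .ofNat (nat_lit 0), .ofNat (nat_lit 0), .ofNat (nat_lit 0), .ofNat (nat_lit 0), .ofNat (nat_lit 0), .ofNat (nat_lit 0), .ofNat (nat_lit 0)⟩⟩, []⟩
noncomputable def p025_l56 : Lf2 := ⟨nat_lit 0, nat_lit 10, [nat_lit 0, nat_lit 5, nat_lit 5, nat_lit 20], true, nat_lit 0, nat_lit 0, nat_lit 0, nat_lit 0, ⟨nat_lit 0, nat_lit 955, nat_lit 45, nat_lit 7, nat_lit 242, nat_lit 0, nat_lit 0, nat_lit 0, nat_lit 0, nat_lit 215, nat_lit 118222, nat_lit 200, nat_lit 49023188, nat_lit 17976812, nat_lit 0, nat_lit 2907855, false, false⟩,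
 nat_lit 0, nat_lit 0, nat_lit 0, nat_lit 0, nat_lit 3324, nat_lit 0, nat_lit 0, nat_lit 0, nat_lit 0, nat_lit 0, nat_lit 0, nat_lit 0, nat_lit 0, nat_lit 0, nat_lit 0, nat_lit 246175, nat_lit 0, nat_lit 0, [(nat_lit 24, [(nat_lit 0, nat_lit 955), (nat_lit 3, nat_lit 45)]), (nat_lit 27, [(nat_lit 0, nat_lit 955), (nat_lit 3, nat_lit 45)])],
 ⟨p025_k6, nat_lit 0, nat_lit 0, nat_lit 146, nat_lit 0, nat_lit 0, [nat_lit 944960001, nat_lit 1600768000], [], [nat_lit 21978819970, nat_lit 25089481791, nat_lit 24247982258, nat_lit 27137908608], nat_lit 0, nat_lit 0, nat_lit 0, nat_lit 0, nat_lit 0, nat_lit 0, [], [nat_lit 86, nat_lit 40, nat_lit 80, nat_lit 80, nat_lit 87, nat_lit 272, nat_lit 60, nat_lit 12]⟩, C1.Rw.none,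
 ⟨nat_lit 0, nat_lit 3163, ⟨.ofNat (nat_lit 507176), .ofNat (nat_lit 646918), .ofNat (nat_lit 548877), .ofNat (nat_lit 688618), .ofNat (nat_lit 531701), .ofNat (nat_lit 647345), .ofNat (nat_lit 579091), .ofNat (nat_lit 694736)⟩, ⟨.ofNat (nat_lit 0), .ofNat (nat_lit 0), .ofNat (nat_lit 0), .ofNat (nat_lit 0), .ofNat (nat_lit 0), .ofNat (nat_lit 0), .ofNat (nat_lit 0), .ofNat (nat_lit 0)⟩⟩, []⟩
noncomputable def p025_l57 : Lf2 := ⟨nat_lit 0, nat_lit 10, [nat_lit 0, nat_lit 5, nat_lit 5, nat_lit 20], false, nat_lit 0, nat_lit 0, nat_lit 0, nat_lit 0, ⟨nat_lit 12, nat_lit 988, nat_lit 0, nat_lit 7, nat_lit 284, nat_lit 0, nat_lit 0, nat_lit 0, nat_lit 0, nat_lit 0, nat_lit 0, nat_lit 0, nat_lit 44558937, nat_lit 22441063, nat_lit 0, nat_lit 3188113, true, false⟩,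
 nat_lit 0, nat_lit 0, nat_lit 153, nat_lit 0, nat_lit 3050, nat_lit 97, nat_lit 0, nat_lit 0, nat_lit 0, nat_lit 6, nat_lit 0, nat_lit 0, nat_lit 0, nat_lit 0, nat_lit 0, nat_lit 247000, nat_lit 0, nat_lit 0, [(nat_lit 24, [(nat_lit 0, nat_lit 988)]), (nat_lit 27, [(nat_lit 0, nat_lit 988)])],
 ⟨p025_k0, nat_lit 0, nat_lit 0, nat_lit 155, nat_lit 0, nat_lit 0, [nat_lit 782686401, nat_lit 1390177601, nat_lit 1741388800], [], [nat_lit 24688171200, nat_lit 27110746600, nat_lit 27743701400, nat_lit 29810154400], nat_lit 0, nat_lit 0, nat_lit 0, nat_lit 0, nat_lit 0, nat_lit 0, [], [nat_lit 35, nat_lit 40, nat_lit 80, nat_lit 80, nat_lit 22, nat_lit 203, nat_lit 0, nat_lit 8]⟩, ⟨p025_k8, nat_lit 0, nat_lit 0, nat_lit 1005, nat_lit 0, nat_lit 1803507, [nat_lit 39384000, nat_lit 75000000, nat_lit 118104000], [], [nat_lit 464025180, nat_lit 464649643, nat_lit 465768716, nat_lit 466055302], nat_lit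 1271250, nat_lit 1271250, nat_lit 1271250, nat_lit 1271250, nat_lit 0, nat_lit 0, [nat_lit 780000, nat_lit 1435000, nat_lit 1271250], [nat_lit 8, nat_lit 40, nat_lit 80, nat_lit 80, nat_lit 1, nat_lit 328, nat_lit 100, nat_lit 9]⟩,
 ⟨nat_lit 0, nat_lit 3163, ⟨.ofNat (nat_lit 646918), .ofNat (nat_lit 771478), .ofNat (nat_lit 657344), .ofNat (nat_lit 782556), .ofNat (nat_lit 647345), .ofNat (nat_lit 749999), .ofNat (nat_lit 659193), .ofNat (nat_lit 762499)⟩, ⟨.ofNat (nat_lit 0), .ofNat (nat_lit 0), .ofNat (nat_lit 0), .ofNat (nat_lit 0), .ofNat (nat_lit 0), .ofNat (nat_lit 0), .ofNat (nat_lit 0), .ofNat (nat_lit 0)⟩⟩, []⟩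
noncomputable def p025_l58 : Lf2 := ⟨nat_lit 0, nat_lit 10, [nat_lit 0, nat_lit 5, nat_lit 5, nat_lit 20], false, nat_lit 0, nat_lit 0, nat_lit 0, nat_lit 0, ⟨nat_lit 15, nat_lit 985, nat_lit 0, nat_lit 7, nat_lit 288, nat_lit 0, nat_lit 0, nat_lit 0, nat_lit 0, nat_lit 0, nat_lit 0, nat_lit 0, nat_lit 44078163, nat_lit 22921837, nat_lit 0, nat_lit 3212147, true, false⟩,
 nat_lit 0, nat_lit 0, nat_lit 189, nat_lit 0, nat_lit 3057, nat_lit 125, nat_lit 0, nat_lit 0, nat_lit 0, nat_lit 6, nat_lit 0, nat_lit 0, nat_lit 0, nat_lit 0, nat_lit 0, nat_lit 246250, nat_lit 0, nat_lit 0, [(nat_lit 24, [(nat_lit 0, nat_lit 985)]), (nat_lit 27, [(nat_lit 0, nat_lit 985)])],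
 ⟨p025_k0, nat_lit 0, nat_lit 0, nat_lit 155, nat_lit 0, nat_lit 0, [nat_lit 783158001, nat_lit 1395922001, nat_lit 1750336000], [], [nat_lit 24701911184, nat_lit 27126975700, nat_lit 27759350172, nat_lit 29827723552], nat_lit 0, nat_lit 0, nat_lit 0, nat_lit 0, nat_lit 0, nat_lit 0, [], [nat_lit 35, nat_lit 40, nat_lit 80, nat_lit 80, nat_lit 22, nat_lit 203, nat_lit 0, nat_lit 8]⟩, ⟨p025_k13, nat_lit 0, nat_lit 0, nat_lit 906, nat_lit 0, nat_lit 1748986, [nat_lit 49230000, nat_lit 93750000, nat_lit 119520000], [], [nat_lit 507644620, nat_lit 508841660, nat_lit 512237405, nat_lit 512944910], nat_lit 1271250, nat_lit 1271250, nat_lit 1271250, nat_lit 1271250, nat_lit 0, nat_lit 0, [nat_lit 780000, nat_lit 1435000, nat_lit 1271250], [nat_lit 18, nat_lit 40, nat_lit 80, nat_lit 80, nat_lit 2, nat_lit 304, nat_lit 0, nat_lit 9]⟩,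
 ⟨nat_lit 0, nat_lit 3163, ⟨.ofNat (nat_lit 657344), .ofNat (nat_lit 782556), .ofNat (nat_lit 667768), .ofNat (nat_lit 793633), .ofNat (nat_lit 659193), .ofNat (nat_lit 762499), .ofNat (nat_lit 671040), .ofNat (nat_lit 774999)⟩, ⟨.ofNat (nat_lit 0), .ofNat (nat_lit 0), .ofNat (nat_lit 0), .ofNat (nat_lit 0), .ofNat (nat_lit 0), .ofNat (nat_lit 0), .ofNat (nat_lit 0), .ofNat (nat_lit 0)⟩⟩, []⟩
noncomputable def p025_l59 : Lf2 := ⟨nat_lit 0, nat_lit 10, [nat_lit 0, nat_lit 5, nat_lit 5, nat_lit 20], true, nat_lit 0, nat_lit 0, nat_lit 0, nat_lit 0, ⟨nat_lit 0, nat_lit 1000, nat_lit 0, nat_lit 7, nat_lit 297, nat_lit 0, nat_lit 0, nat_lit 0, nat_lit 0, nat_lit 0, nat_lit 0, nat_lit 0, nat_lit 43235723, nat_lit 23764277, nat_lit 0, nat_lit 3251509, true, false⟩,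
 nat_lit 0, nat_lit 0, nat_lit 0, nat_lit 0, nat_lit 2953, nat_lit 0, nat_lit 0, nat_lit 0, nat_lit 0, nat_lit 0, nat_lit 0, nat_lit 0, nat_lit 0, nat_lit 0, nat_lit 0, nat_lit 250000, nat_lit 0, nat_lit 0, [(nat_lit 24, [(nat_lit 0, nat_lit 1000)])],
 ⟨p025_k0, nat_lit 0, nat_lit 0, nat_lit 139, nat_lit 0, nat_lit 0, [nat_lit 763200001, nat_lit 1367200000, nat_lit 1705600000], [], [nat_lit 23783538760, nat_lit 25040808666, nat_lit 26965341976, nat_lit 28194612584], nat_lit 0, nat_lit 0, nat_lit 0, nat_lit 0, nat_lit 0, nat_lit 0, [], [nat_lit 35, nat_lit 40, nat_lit 80, nat_lit 80, nat_lit 22, nat_lit 203, nat_lit 0, nat_lit 8]⟩, C1.Rw.none,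
 ⟨nat_lit 2236, nat_lit 3163, ⟨.ofNat (nat_lit 671514), .ofNat (nat_lit 793619), .ofNat (nat_lit 693606), .ofNat (nat_lit 815720), .ofNat (nat_lit 670673), .ofNat (nat_lit 784902), .ofNat (nat_lit 693384), .ofNat (nat_lit 807623)⟩, ⟨.ofNat (nat_lit 0), .ofNat (nat_lit 0), .ofNat (nat_lit 0), .ofNat (nat_lit 0), .ofNat (nat_lit 0), .ofNat (nat_lit 0), .ofNat (nat_lit 0), .ofNat (nat_lit 0)⟩⟩, []⟩
noncomputable def p025_l60 : Lf2 := ⟨nat_lit 0, nat_lit 10, [nat_lit 0, nat_lit 5, nat_lit 5, nat_lit 20], true, nat_lit 0, nat_lit 0, nat_lit 0, nat_lit 0, ⟨nat_lit 0, nat_lit 1000, nat_lit 0, nat_lit 7, nat_lit 295, nat_lit 0, nat_lit 0, nat_lit 0, nat_lit 0, nat_lit 0, nat_lit 0, nat_lit 0, nat_lit 43427809, nat_lit 23572191, nat_lit 0, nat_lit 3242840, true, false⟩,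
 nat_lit 0, nat_lit 0, nat_lit 0, nat_lit 0, nat_lit 2426, nat_lit 0, nat_lit 0, nat_lit 0, nat_lit 0, nat_lit 0, nat_lit 0, nat_lit 0, nat_lit 0, nat_lit 0, nat_lit 0, nat_lit 250000, nat_lit 0, nat_lit 0, [(nat_lit 27, [(nat_lit 0, nat_lit 1000)])],
 ⟨p025_k2, nat_lit 0, nat_lit 0, nat_lit 132, nat_lit 0, nat_lit 0, [nat_lit 780800001, nat_lit 1042800000], [], [nat_lit 24008511162, nat_lit 25169858762, nat_lit 26912262310, nat_lit 28061284056], nat_lit 0, nat_lit 0, nat_lit 0, nat_lit 0, nat_lit 0, nat_lit 0, [], [nat_lit 66, nat_lit 40, nat_lit 80, nat_lit 80, nat_lit 67, nat_lit 203, nat_lit 0, nat_lit 10]⟩, C1.Rw.none,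
 ⟨nat_lit 0, nat_lit 2237, ⟨.ofNat (nat_lit 668096), .ofNat (nat_lit 784917), .ofNat (nat_lit 689944), .ofNat (nat_lit 807594), .ofNat (nat_lit 672209), .ofNat (nat_lit 774999), .ofNat (nat_lit 696283), .ofNat (nat_lit 799902)⟩, ⟨.ofNat (nat_lit 0), .ofNat (nat_lit 0), .ofNat (nat_lit 0), .ofNat (nat_lit 0), .ofNat (nat_lit 0), .ofNat (nat_lit 0), .ofNat (nat_lit 0), .ofNat (nat_lit 0)⟩⟩, []⟩
noncomputable def p025_l61 : Lf2 := ⟨nat_lit 0, nat_lit 10, [nat_lit 0, nat_lit 5, nat_lit 5, nat_lit 20], false, nat_lit 0, nat_lit 0, nat_lit 0, nat_lit 0, ⟨nat_lit 74, nat_lit 926, nat_lit 0, nat_lit 8, nat_lit 320, nat_lit 0, nat_lit 0, nat_lit 0, nat_lit 0, nat_lit 0, nat_lit 0, nat_lit 0, nat_lit 40889123, nat_lit 26110877, nat_lit 0, nat_lit 3343100, true, true⟩,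
 nat_lit 0, nat_lit 0, nat_lit 947, nat_lit 0, nat_lit 3122, nat_lit 602, nat_lit 0, nat_lit 0, nat_lit 0, nat_lit 39, nat_lit 0, nat_lit 0, nat_lit 0, nat_lit 0, nat_lit 0, nat_lit 231500, nat_lit 0, nat_lit 0, [(nat_lit 24, [(nat_lit 0, nat_lit 926)])],
 ⟨p025_k0, nat_lit 0, nat_lit 0, nat_lit 161, nat_lit 0, nat_lit 0, [nat_lit 776135200, nat_lit 1508895200, nat_lit 1926297600], [], [nat_lit 28090421112, nat_lit 29133523852, nat_lit 29932824564, nat_lit 30886763732], nat_lit 0, nat_lit 0, nat_lit 0, nat_lit 0, nat_lit 0, nat_lit 0, [], [nat_lit 35, nat_lit 40, nat_lit 80, nat_lit 80, nat_lit 22, nat_lit 203, nat_lit 0, nat_lit 7]⟩, ⟨p025_k8, nat_lit 0, nat_lit 0, nat_lit 821, nat_lit 0, nat_lit 1446232, [nat_lit 242868000, nat_lit 462500000, nat_lit 728308000], [], [nat_lit 2759413518, nat_lit 2761578484, nat_lit 2799827263, nat_lit 2810069877], nat_lit 1271250, nat_lit 1271250, nat_lit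 1271250, nat_lit 1271250, nat_lit 0, nat_lit 0, [nat_lit 780000, nat_lit 1435000, nat_lit 1271250], [nat_lit 8, nat_lit 40, nat_lit 80, nat_lit 80, nat_lit 1, nat_lit 286, nat_lit 0, nat_lit 8]⟩,
 ⟨nat_lit 2236, nat_lit 3163, ⟨.ofNat (nat_lit 771478), .ofNat (nat_lit 832432), .ofNat (nat_lit 777017), .ofNat (nat_lit 837970), .ofNat (nat_lit 762142), .ofNat (nat_lit 819158), .ofNat (nat_lit 767836), .ofNat (nat_lit 824851)⟩, ⟨.ofNat (nat_lit 0), .ofNat (nat_lit 0), .ofNat (nat_lit 0), .ofNat (nat_lit 0), .ofNat (nat_lit 0), .ofNat (nat_lit 0), .ofNat (nat_lit 0), .ofNat (nat_lit 0)⟩⟩, [⟨nat_lit 13, nat_lit 48, nat_lit 71, nat_lit 100, nat_lit 273244886⟩]⟩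
noncomputable def p025_l62 : Lf2 := ⟨nat_lit 0, nat_lit 10, [nat_lit 0, nat_lit 5, nat_lit 5, nat_lit 20], false, nat_lit 0, nat_lit 0, nat_lit 0, nat_lit 0, ⟨nat_lit 84, nat_lit 916, nat_lit 0, nat_lit 8, nat_lit 323, nat_lit 0, nat_lit 0, nat_lit 0, nat_lit 0, nat_lit 0, nat_lit 0, nat_lit 0, nat_lit 40554494, nat_lit 26445506, nat_lit 0, nat_lit 3354039, true, true⟩,
 nat_lit 0, nat_lit 0, nat_lit 1004, nat_lit 0, nat_lit 3192, nat_lit 652, nat_lit 0, nat_lit 0, nat_lit 0, nat_lit 51, nat_lit 0, nat_lit 0, nat_lit 0, nat_lit 0, nat_lit 0, nat_lit 229000, nat_lit 0, nat_lit 0, [(nat_lit 24, [(nat_lit 0, nat_lit 916)])],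
 ⟨p025_k0, nat_lit 0, nat_lit 0, nat_lit 155, nat_lit 0, nat_lit 0, [nat_lit 777883201, nat_lit 1528043201, nat_lit 1956121600], [], [nat_lit 28127612832, nat_lit 28653965152, nat_lit 29985189904, nat_lit 30465557980], nat_lit 0, nat_lit 0, nat_lit 0, nat_lit 0, nat_lit 0, nat_lit 0, [], [nat_lit 35, nat_lit 40, nat_lit 80, nat_lit 80, nat_lit 22, nat_lit 203, nat_lit 0, nat_lit 7]⟩, ⟨p025_k14, nat_lit 0, nat_lit 0, nat_lit 749, nat_lit 0, nat_lit 1282469, [nat_lit 275688000, nat_lit 525000000, nat_lit 826728000], [], [nat_lit 3015361138, nat_lit 3021278946, nat_lit 3091775508, nat_lit 3096643550], nat_lit 1271250, nat_lit 1271250, nat_lit 1271250, nat_lit 1271250, nat_lit 0, nat_lit 0, [nat_lit 780000, nat_lit 1435000, nat_lit 1271250], [nat_lit 8, nat_lit 40, nat_lit 80, nat_lit 80, nat_lit 1, nat_lit 269, nat_lit 0, nat_lit 7]⟩,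
 ⟨nat_lit 2738, nat_lit 3163, ⟨.ofNat (nat_lit 777017), .ofNat (nat_lit 837970), .ofNat (nat_lit 782555), .ofNat (nat_lit 843509), .ofNat (nat_lit 772456), .ofNat (nat_lit 831518), .ofNat (nat_lit 778060), .ofNat (nat_lit 837122)⟩, ⟨.ofNat (nat_lit 0), .ofNat (nat_lit 0), .ofNat (nat_lit 0), .ofNat (nat_lit 0), .ofNat (nat_lit 0), .ofNat (nat_lit 0), .ofNat (nat_lit 0), .ofNat (nat_lit 0)⟩⟩, []⟩
noncomputable def p025_l63 : Lf2 := ⟨nat_lit 0, nat_lit 10, [nat_lit 0, nat_lit 5, nat_lit 5, nat_lit 20], false, nat_lit 0, nat_lit 0, nat_lit 0, nat_lit 0, ⟨nat_lit 106, nat_lit 894, nat_lit 0, nat_lit 8, nat_lit 321, nat_lit 0, nat_lit 0, nat_lit 0, nat_lit 0, nat_lit 0, nat_lit 0, nat_lit 0, nat_lit 40774408, nat_lit 26225592, nat_lit 0, nat_lit 3346909, true, true⟩,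
 nat_lit 0, nat_lit 0, nat_lit 1283, nat_lit 0, nat_lit 2656, nat_lit 834, nat_lit 122, nat_lit 0, nat_lit 0, nat_lit 60, nat_lit 0, nat_lit 0, nat_lit 0, nat_lit 0, nat_lit 0, nat_lit 223500, nat_lit 0, nat_lit 0, [(nat_lit 24, [(nat_lit 0, nat_lit 894)])],
 ⟨p025_k9, nat_lit 0, nat_lit 0, nat_lit 161, nat_lit 0, nat_lit 0, [nat_lit 781728801, nat_lit 1570168800, nat_lit 2021734400], [], [nat_lit 27426884241, nat_lit 27906996865, nat_lit 29098479829, nat_lit 29542583936], nat_lit 0, nat_lit 0, nat_lit 0, nat_lit 0, nat_lit 0, nat_lit 0, [], [nat_lit 35, nat_lit 40, nat_lit 80, nat_lit 80, nat_lit 22, nat_lit 203, nat_lit 0, nat_lit 7]⟩, ⟨p025_k14, nat_lit 0, nat_lit 0, nat_lit 808, nat_lit 0, nat_lit 1431681, [nat_lit 347892000, nat_lit 662500000, nat_lit 1043252000], [], [nat_lit 3891620783, nat_lit 3896471770, nat_lit 3962928319, nat_lit 3966696765], nat_lit 1271250, nat_lit 1271250,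 nat_lit 1271250, nat_lit 1271250, nat_lit 0, nat_lit 0, [nat_lit 780000, nat_lit 1435000, nat_lit 1271250], [nat_lit 8, nat_lit 40, nat_lit 80, nat_lit 80, nat_lit 1, nat_lit 284, nat_lit 0, nat_lit 7]⟩,
 ⟨nat_lit 2236, nat_lit 2739, ⟨.ofNat (nat_lit 772456), .ofNat (nat_lit 831518), .ofNat (nat_lit 778061), .ofNat (nat_lit 837122), .ofNat (nat_lit 767836), .ofNat (nat_lit 824851), .ofNat (nat_lit 773529), .ofNat (nat_lit 830545)⟩, ⟨.ofNat (nat_lit 0), .ofNat (nat_lit 0), .ofNat (nat_lit 0), .ofNat (nat_lit 0), .ofNat (nat_lit 0), .ofNat (nat_lit 0), .ofNat (nat_lit 0), .ofNat (nat_lit 0)⟩⟩, [⟨nat_lit 13, nat_lit 48, nat_lit 70, nat_lit 100, nat_lit 321390994⟩]⟩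
noncomputable def p025_l64 : Lf2 := ⟨nat_lit 0, nat_lit 10, [nat_lit 0, nat_lit 5, nat_lit 5, nat_lit 20], false, nat_lit 0, nat_lit 0, nat_lit 0, nat_lit 0, ⟨nat_lit 86, nat_lit 914, nat_lit 0, nat_lit 8, nat_lit 326, nat_lit 0, nat_lit 0, nat_lit 0, nat_lit 0, nat_lit 0, nat_lit 0, nat_lit 0, nat_lit 40224208, nat_lit 26775792, nat_lit 0, nat_lit 3364323, true, true⟩,
 nat_lit 0, nat_lit 0, nat_lit 991, nat_lit 0, nat_lit 3197, nat_lit 658, nat_lit 0, nat_lit 0, nat_lit 0, nat_lit 43, nat_lit 0, nat_lit 0, nat_lit 0, nat_lit 0, nat_lit 0, nat_lit 228500, nat_lit 0, nat_lit 0, [(nat_lit 24, [(nat_lit 0, nat_lit 914)])],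
 ⟨p025_k0, nat_lit 0, nat_lit 0, nat_lit 155, nat_lit 0, nat_lit 0, [nat_lit 778232801, nat_lit 1531872800, nat_lit 1962086400], [], [nat_lit 28137938412, nat_lit 28664633657, nat_lit 29996599314, nat_lit 30477919547], nat_lit 0, nat_lit 0, nat_lit 0, nat_lit 0, nat_lit 0, nat_lit 0, [], [nat_lit 35, nat_lit 40, nat_lit 80, nat_lit 80, nat_lit 22, nat_lit 203, nat_lit 0, nat_lit 7]⟩, ⟨p025_k13, nat_lit 0, nat_lit 0, nat_lit 694, nat_lit 0, nat_lit 1308159, [nat_lit 282252000, nat_lit 537500000, nat_lit 685248000], [], [nat_lit 3054179464, nat_lit 3065046990, nat_lit 3127252754, nat_lit 3151981278], nat_lit 1271250, nat_lit 1271250, nat_lit 1271250, nat_lit 1271250, nat_lit 0, nat_lit 0, [nat_lit 780000, nat_lit 1435000, nat_lit 1271250], [nat_lit 18, nat_lit 40, nat_lit 80, nat_lit 80, nat_lit 2, nat_lit 256, nat_lit 0, nat_lit 7]⟩,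
 ⟨nat_lit 2738, nat_lit 3163, ⟨.ofNat (nat_lit 782555), .ofNat (nat_lit 843509), .ofNat (nat_lit 793629), .ofNat (nat_lit 854586), .ofNat (nat_lit 778060), .ofNat (nat_lit 837122), .ofNat (nat_lit 789265), .ofNat (nat_lit 848331)⟩, ⟨.ofNat (nat_lit 0), .ofNat (nat_lit 0), .ofNat (nat_lit 0), .ofNat (nat_lit 0), .ofNat (nat_lit 0), .ofNat (nat_lit 0), .ofNat (nat_lit 0), .ofNat (nat_lit 0)⟩⟩, []⟩
noncomputable def p025_l65 : Lf2 := ⟨nat_lit 0, nat_lit 10, [nat_lit 0, nat_lit 5, nat_lit 5, nat_lit 20], false, nat_lit 0, nat_lit 0, nat_lit 0, nat_lit 0, ⟨nat_lit 102, nat_lit 898, nat_lit 0, nat_lit 8, nat_lit 324, nat_lit 0, nat_lit 0, nat_lit 0, nat_lit 0, nat_lit 0, nat_lit 0, nat_lit 0, nat_lit 40438164, nat_lit 26561836, nat_lit 0, nat_lit 3357719, true, true⟩,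
 nat_lit 0, nat_lit 0, nat_lit 1224, nat_lit 0, nat_lit 2654, nat_lit 812, nat_lit 120, nat_lit 0, nat_lit 0, nat_lit 33, nat_lit 0, nat_lit 0, nat_lit 0, nat_lit 0, nat_lit 0, nat_lit 224500, nat_lit 0, nat_lit 0, [(nat_lit 24, [(nat_lit 0, nat_lit 898)])],
 ⟨p025_k9, nat_lit 0, nat_lit 0, nat_lit 161, nat_lit 0, nat_lit 0, [nat_lit 781029601, nat_lit 1562509600, nat_lit 2009804800], [], [nat_lit 27428858211, nat_lit 27908837077, nat_lit 29100049753, nat_lit 29540946489], nat_lit 0, nat_lit 0, nat_lit 0, nat_lit 0, nat_lit 0, nat_lit 0, [], [nat_lit 35, nat_lit 40, nat_lit 80, nat_lit 80, nat_lit 22, nat_lit 203, nat_lit 0, nat_lit 7]⟩, ⟨p025_k13, nat_lit 0, nat_lit 0, nat_lit 761, nat_lit 0, nat_lit 1449262, [nat_lit 334764000, nat_lit 637500000, nat_lit 812736000], [], [nat_lit 3767856580, nat_lit 3777303678, nat_lit 3836202157, nat_lit 3843534884], nat_lit 1271250, nat_lit 1271250,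 nat_lit 1271250, nat_lit 1271250, nat_lit 0, nat_lit 0, [nat_lit 780000, nat_lit 1435000, nat_lit 1271250], [nat_lit 18, nat_lit 40, nat_lit 80, nat_lit 80, nat_lit 2, nat_lit 273, nat_lit 0, nat_lit 8]⟩,
 ⟨nat_lit 2236, nat_lit 2739, ⟨.ofNat (nat_lit 778061), .ofNat (nat_lit 837122), .ofNat (nat_lit 789269), .ofNat (nat_lit 848331), .ofNat (nat_lit 773529), .ofNat (nat_lit 830545), .ofNat (nat_lit 784917), .ofNat (nat_lit 841932)⟩, ⟨.ofNat (nat_lit 0), .ofNat (nat_lit 0), .ofNat (nat_lit 0), .ofNat (nat_lit 0), .ofNat (nat_lit 0), .ofNat (nat_lit 0), .ofNat (nat_lit 0), .ofNat (nat_lit 0)⟩⟩, []⟩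
noncomputable def p025_l66 : Lf2 := ⟨nat_lit 0, nat_lit 10, [nat_lit 0, nat_lit 5, nat_lit 5, nat_lit 20], false, nat_lit 0, nat_lit 0, nat_lit 0, nat_lit 0, ⟨nat_lit 164, nat_lit 836, nat_lit 0, nat_lit 8, nat_lit 333, nat_lit 0, nat_lit 0, nat_lit 0, nat_lit 0, nat_lit 0, nat_lit 0, nat_lit 0, nat_lit 39569795, nat_lit 27430205, nat_lit 0, nat_lit 3383207, true, true⟩,
 nat_lit 0, nat_lit 0, nat_lit 1592, nat_lit 0, nat_lit 2741, nat_lit 1102, nat_lit 136, nat_lit 0, nat_lit 0, nat_lit 115, nat_lit 0, nat_lit 0, nat_lit 0, nat_lit 0, nat_lit 0, nat_lit 247400, nat_lit 0, nat_lit 0, [(nat_lit 24, [(nat_lit 0, nat_lit 580), (nat_lit 1, nat_lit 256)])],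
 ⟨p025_k0, nat_lit 0, nat_lit 0, nat_lit 155, nat_lit 0, nat_lit 0, [nat_lit 813576000, nat_lit 1586541334, nat_lit 2002406400], [], [nat_lit 27033452376, nat_lit 27519249715, nat_lit 28762158564, nat_lit 29208017258], nat_lit 0, nat_lit 0, nat_lit 0, nat_lit 0, nat_lit 0, nat_lit 0, [], [nat_lit 35, nat_lit 40, nat_lit 80, nat_lit 80, nat_lit 22, nat_lit 203, nat_lit 0, nat_lit 7]⟩, ⟨p025_k11, nat_lit 0, nat_lit 0, nat_lit 726, nat_lit 0, nat_lit 1365208, [nat_lit 538248000, nat_lit 1025000000, nat_lit 1306752000], [], [nat_lit 5750837334, nat_lit 5795083022, nat_lit 5879654740, nat_lit 5917313834], nat_lit 1271250, nat_lit 1271250, nat_lit 1271250, nat_lit 1271250, nat_lit 0, nat_lit 0, [nat_lit 780000, nat_lit 1435000, nat_lit 1271250], [nat_lit 18, nat_lit 40, nat_lit 80, nat_lit 80, nat_lit 2, nat_lit 267, nat_lit 0, nat_lit 8]⟩,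
 ⟨nat_lit 2738, nat_lit 3163, ⟨.ofNat (nat_lit 793629), .ofNat (nat_lit 854586), .ofNat (nat_lit 815772), .ofNat (nat_lit 876741), .ofNat (nat_lit 789265), .ofNat (nat_lit 848331), .ofNat (nat_lit 811670), .ofNat (nat_lit 870748)⟩, ⟨.ofNat (nat_lit 0), .ofNat (nat_lit 0), .ofNat (nat_lit 0), .ofNat (nat_lit 0), .ofNat (nat_lit 0), .ofNat (nat_lit 0), .ofNat (nat_lit 0), .ofNat (nat_lit 0)⟩⟩, []⟩
noncomputable def p025_l67 : Lf2 := ⟨nat_lit 0, nat_lit 10, [nat_lit 0, nat_lit 5, nat_lit 5, nat_lit 20], false, nat_lit 0, nat_lit 0, nat_lit 0, nat_lit 0, ⟨nat_lit 231, nat_lit 769, nat_lit 0, nat_lit 8, nat_lit 331, nat_lit 0, nat_lit 0, nat_lit 0, nat_lit 0, nat_lit 0, nat_lit 0, nat_lit 0, nat_lit 39721018, nat_lit 27278982, nat_lit 0, nat_lit 3379019, true, true⟩,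
 nat_lit 0, nat_lit 0, nat_lit 2028, nat_lit 0, nat_lit 2608, nat_lit 1404, nat_lit 201, nat_lit 0, nat_lit 0, nat_lit 278, nat_lit 0, nat_lit 0, nat_lit 0, nat_lit 0, nat_lit 0, nat_lit 192250, nat_lit 0, nat_lit 0, [(nat_lit 24, [(nat_lit 0, nat_lit 769)])],
 ⟨p025_k9, nat_lit 0, nat_lit 0, nat_lit 159, nat_lit 0, nat_lit 0, [nat_lit 803578801, nat_lit 1809518800, nat_lit 2394534400], [], [nat_lit 27237261121, nat_lit 27475712337, nat_lit 28899159605, nat_lit 29119044094], nat_lit 0, nat_lit 0, nat_lit 0, nat_lit 0, nat_lit 0, nat_lit 0, [], [nat_lit 35, nat_lit 40, nat_lit 80, nat_lit 80, nat_lit 22, nat_lit 203, nat_lit 0, nat_lit 7]⟩, ⟨p025_k11, nat_lit 0, nat_lit 0, nat_lit 751, nat_lit 0, nat_lit 1427731, [nat_lit 758142000, nat_lit 1443750000, nat_lit 1840608000], [], [nat_lit 7770867450, nat_lit 7824827298, nat_lit 7928233707, nat_lit 7974434130], nat_lit 1271250, nat_lit 1271250,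 nat_lit 1271250, nat_lit 1271250, nat_lit 0, nat_lit 0, [nat_lit 780000, nat_lit 1435000, nat_lit 1271250], [nat_lit 18, nat_lit 40, nat_lit 80, nat_lit 80, nat_lit 2, nat_lit 273, nat_lit 0, nat_lit 8]⟩,
 ⟨nat_lit 2500, nat_lit 2739, ⟨.ofNat (nat_lit 789269), .ofNat (nat_lit 848331), .ofNat (nat_lit 811684), .ofNat (nat_lit 870748), .ofNat (nat_lit 787095), .ofNat (nat_lit 845160), .ofNat (nat_lit 809673), .ofNat (nat_lit 867740)⟩, ⟨.ofNat (nat_lit 0), .ofNat (nat_lit 0), .ofNat (nat_lit 0), .ofNat (nat_lit 0), .ofNat (nat_lit 0), .ofNat (nat_lit 0), .ofNat (nat_lit 0), .ofNat (nat_lit 0)⟩⟩, []⟩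
noncomputable def p025_l68 : Lf2 := ⟨nat_lit 0, nat_lit 10, [nat_lit 0, nat_lit 5, nat_lit 5, nat_lit 20], true, nat_lit 0, nat_lit 0, nat_lit 0, nat_lit 0, ⟨nat_lit 0, nat_lit 1000, nat_lit 0, nat_lit 8, nat_lit 330, nat_lit 0, nat_lit 0, nat_lit 0, nat_lit 0, nat_lit 0, nat_lit 0, nat_lit 0, nat_lit 39822543, nat_lit 27177457, nat_lit 0, nat_lit 3376148, true, true⟩,
 nat_lit 0, nat_lit 0, nat_lit 0, nat_lit 0, nat_lit 2526, nat_lit 0, nat_lit 0, nat_lit 0, nat_lit 0, nat_lit 0, nat_lit 0, nat_lit 0, nat_lit 0, nat_lit 0, nat_lit 0, nat_lit 250000, nat_lit 0, nat_lit 0, [(nat_lit 24, [(nat_lit 0, nat_lit 1000)])],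
 ⟨p025_k15, nat_lit 0, nat_lit 0, nat_lit 135, nat_lit 0, nat_lit 0, [nat_lit 763200001, nat_lit 1367200000], [], [nat_lit 27191541029, nat_lit 27444928110, nat_lit 28936759820, nat_lit 29169326662], nat_lit 0, nat_lit 0, nat_lit 0, nat_lit 0, nat_lit 0, nat_lit 0, [], [nat_lit 66, nat_lit 40, nat_lit 80, nat_lit 80, nat_lit 67, nat_lit 203, nat_lit 0, nat_lit 9]⟩, C1.Rw.none,
 ⟨nat_lit 2236, nat_lit 2500, ⟨.ofNat (nat_lit 787095), .ofNat (nat_lit 845160), .ofNat (nat_lit 809673), .ofNat (nat_lit 867740), .ofNat (nat_lit 784917), .ofNat (nat_lit 841932), .ofNat (nat_lit 807688), .ofNat (nat_lit 864706)⟩, ⟨.ofNat (nat_lit 0), .ofNat (nat_lit 0), .ofNat (nat_lit 0), .ofNat (nat_lit 0), .ofNat (nat_lit 0), .ofNat (nat_lit 0), .ofNat (nat_lit 0), .ofNat (nat_lit 0)⟩⟩, []⟩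
noncomputable def p025_l69 : Lf2 := ⟨nat_lit 0, nat_lit 10, [nat_lit 0, nat_lit 5, nat_lit 5, nat_lit 20], true, nat_lit 0, nat_lit 0, nat_lit 0, nat_lit 0, ⟨nat_lit 0, nat_lit 1000, nat_lit 0, nat_lit 8, nat_lit 323, nat_lit 0, nat_lit 0, nat_lit 0, nat_lit 0, nat_lit 0, nat_lit 0, nat_lit 0, nat_lit 40587806, nat_lit 26412194, nat_lit 0, nat_lit 3352973, true, true⟩,
 nat_lit 0, nat_lit 0, nat_lit 0, nat_lit 0, nat_lit 2375, nat_lit 0, nat_lit 0, nat_lit 0, nat_lit 0, nat_lit 0, nat_lit 0, nat_lit 0, nat_lit 0, nat_lit 0, nat_lit 0, nat_lit 250000, nat_lit 0, nat_lit 0, [(nat_lit 27, [(nat_lit 0, nat_lit 1000)])],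
 ⟨p025_k2, nat_lit 0, nat_lit 0, nat_lit 141, nat_lit 0, nat_lit 0, [nat_lit 780800001, nat_lit 1042800000], [], [nat_lit 27409841251, nat_lit 28331968001, nat_lit 28991793126, nat_lit 29842192001], nat_lit 0, nat_lit 0, nat_lit 0, nat_lit 0, nat_lit 0, nat_lit 0, [], [nat_lit 66, nat_lit 40, nat_lit 80, nat_lit 80, nat_lit 67, nat_lit 203, nat_lit 0, nat_lit 9]⟩, C1.Rw.none,
 ⟨nat_lit 0, nat_lit 2237, ⟨.ofNat (nat_lit 762141), .ofNat (nat_lit 819154), .ofNat (nat_lit 807594), .ofNat (nat_lit 864705), .ofNat (nat_lit 749998), .ofNat (nat_lit 799995), .ofNat (nat_lit 799902), .ofNat (nat_lit 849998)⟩, ⟨.ofNat (nat_lit 0), .ofNat (nat_lit 0), .ofNat (nat_lit 0), .ofNat (nat_lit 0), .ofNat (nat_lit 0), .ofNat (nat_lit 0), .ofNat (nat_lit 0), .ofNat (nat_lit 0)⟩⟩, [⟨nat_lit 13, nat_lit 36, nat_lit 77, nat_lit 100, nat_lit 37715812⟩]⟩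
noncomputable def p025_l70 : Lf2 := ⟨nat_lit 0, nat_lit 10, [nat_lit 0, nat_lit 5, nat_lit 5, nat_lit 20], false, nat_lit 0, nat_lit 0, nat_lit 0, nat_lit 0, ⟨nat_lit 70, nat_lit 930, nat_lit 0, nat_lit 9, nat_lit 334, nat_lit 0, nat_lit 0, nat_lit 0, nat_lit 0, nat_lit 0, nat_lit 0, nat_lit 0, nat_lit 39438293, nat_lit 27561707, nat_lit 0, nat_lit 3386763, true, true⟩,
 nat_lit 0, nat_lit 0, nat_lit 894, nat_lit 0, nat_lit 2712, nat_lit 568, nat_lit 0, nat_lit 0, nat_lit 0, nat_lit 34, nat_lit 0, nat_lit 0, nat_lit 0, nat_lit 0, nat_lit 0, nat_lit 232500, nat_lit 0, nat_lit 0, [(nat_lit 24, [(nat_lit 0, nat_lit 930)]), (nat_lit 27, [(nat_lit 0, nat_lit 930)])],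
 ⟨p025_k0, nat_lit 0, nat_lit 0, nat_lit 173, nat_lit 0, nat_lit 0, [nat_lit 791804001, nat_lit 1501236000, nat_lit 1914368000], [], [nat_lit 29951924449, nat_lit 31761007488, nat_lit 30828385640, nat_lit 32555602416], nat_lit 0, nat_lit 0, nat_lit 0, nat_lit 0, nat_lit 0, nat_lit 0, [], [nat_lit 35, nat_lit 40, nat_lit 80, nat_lit 80, nat_lit 22, nat_lit 203, nat_lit 0, nat_lit 7]⟩, ⟨p025_k8, nat_lit 0, nat_lit 0, nat_lit 978, nat_lit 0, nat_lit 1803507, [nat_lit 229740000, nat_lit 437500000, nat_lit 688940000], [], [nat_lit 2740038284, nat_lit 2740605106, nat_lit 2762260720, nat_lit 2783488875], nat_lit 1271250, nat_lit 1271250, nat_lit 1271250, nat_lit 1271250, nat_lit 0, nat_lit 0, [nat_lit 780000, nat_lit 1435000, nat_lit 1271250], [nat_lit 8, nat_lit 40, nat_lit 80, nat_lit 80, nat_lit 1, nat_lit 329, nat_lit 0, nat_lit 9]⟩,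
 ⟨nat_lit 0, nat_lit 3163, ⟨.ofNat (nat_lit 832430), .ofNat (nat_lit 862905), .ofNat (nat_lit 843507), .ofNat (nat_lit 873983), .ofNat (nat_lit 799997), .ofNat (nat_lit 824996), .ofNat (nat_lit 812497), .ofNat (nat_lit 837496)⟩, ⟨.ofNat (nat_lit 0), .ofNat (nat_lit 0), .ofNat (nat_lit 0), .ofNat (nat_lit 0), .ofNat (nat_lit 0), .ofNat (nat_lit 0), .ofNat (nat_lit 0), .ofNat (nat_lit 0)⟩⟩, [⟨nat_lit 13, nat_lit 48, nat_lit 70, nat_lit 100, nat_lit 246058744⟩, ⟨nat_lit 13, nat_lit 67, nat_lit 50, nat_lit 100, nat_lit 106632040⟩]⟩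
noncomputable def p025_l71 : Lf2 := ⟨nat_lit 0, nat_lit 10, [nat_lit 0, nat_lit 5, nat_lit 5, nat_lit 20], false, nat_lit 0, nat_lit 0, nat_lit 0, nat_lit 0, ⟨nat_lit 78, nat_lit 922, nat_lit 0, nat_lit 9, nat_lit 344, nat_lit 0, nat_lit 0, nat_lit 0, nat_lit 0, nat_lit 0, nat_lit 0, nat_lit 0, nat_lit 38501722, nat_lit 28498278, nat_lit 0, nat_lit 3409796, true, true⟩,
 nat_lit 0, nat_lit 0, nat_lit 919, nat_lit 0, nat_lit 2680, nat_lit 610, nat_lit 0, nat_lit 0, nat_lit 0, nat_lit 22, nat_lit 0, nat_lit 0, nat_lit 0, nat_lit 0, nat_lit 0, nat_lit 230500, nat_lit 0, nat_lit 0, [(nat_lit 24, [(nat_lit 0, nat_lit 922)])],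
 ⟨p025_k0, nat_lit 0, nat_lit 0, nat_lit 168, nat_lit 0, nat_lit 0, [nat_lit 776834401, nat_lit 1516554400, nat_lit 1938227200], [], [nat_lit 30002951521, nat_lit 30903625640, nat_lit 31050624288, nat_lit 31902671457], nat_lit 0, nat_lit 0, nat_lit 0, nat_lit 0, nat_lit 0, nat_lit 0, [], [nat_lit 35, nat_lit 40, nat_lit 80, nat_lit 80, nat_lit 22, nat_lit 203, nat_lit 0, nat_lit 7]⟩, ⟨p025_k13, nat_lit 0, nat_lit 0, nat_lit 759, nat_lit 0, nat_lit 1449262, [nat_lit 255996000, nat_lit 487500000, nat_lit 621504000], [], [nat_lit 3042329659, nat_lit 3048060630, nat_lit 3073705825, nat_lit 3112686525], nat_lit 1271250, nat_lit 1271250, nat_lit 1271250, nat_lit 1271250, nat_lit 0, nat_lit 0, [nat_lit 780000, nat_lit 1435000, nat_lit 1271250], [nat_lit 18, nat_lit 40, nat_lit 80, nat_lit 80, nat_lit 2, nat_lit 276, nat_lit 0, nat_lit 8]⟩,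
 ⟨nat_lit 2236, nat_lit 3163, ⟨.ofNat (nat_lit 843509), .ofNat (nat_lit 880081), .ofNat (nat_lit 854586), .ofNat (nat_lit 891158), .ofNat (nat_lit 830545), .ofNat (nat_lit 864754), .ofNat (nat_lit 841932), .ofNat (nat_lit 876141)⟩, ⟨.ofNat (nat_lit 0), .ofNat (nat_lit 0), .ofNat (nat_lit 0), .ofNat (nat_lit 0), .ofNat (nat_lit 0), .ofNat (nat_lit 0), .ofNat (nat_lit 0), .ofNat (nat_lit 0)⟩⟩, [⟨nat_lit 13, nat_lit 60, nat_lit 57, nat_lit 100, nat_lit 291813766⟩]⟩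
noncomputable def p025_l72 : Lf2 := ⟨nat_lit 0, nat_lit 10, [nat_lit 0, nat_lit 5, nat_lit 5, nat_lit 20], true, nat_lit 0, nat_lit 0, nat_lit 0, nat_lit 0, ⟨nat_lit 0, nat_lit 1000, nat_lit 0, nat_lit 9, nat_lit 333, nat_lit 0, nat_lit 0, nat_lit 0, nat_lit 0, nat_lit 0, nat_lit 0, nat_lit 0, nat_lit 39560097, nat_lit 27439903, nat_lit 0, nat_lit 3383472, true, true⟩,
 nat_lit 0, nat_lit 0, nat_lit 0, nat_lit 0, nat_lit 2417, nat_lit 0, nat_lit 0, nat_lit 0, nat_lit 0, nat_lit 0, nat_lit 0, nat_lit 0, nat_lit 0, nat_lit 0, nat_lit 0, nat_lit 250000, nat_lit 0, nat_lit 0, [(nat_lit 27, [(nat_lit 0, nat_lit 1000)])],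
 ⟨p025_k2, nat_lit 0, nat_lit 0, nat_lit 144, nat_lit 0, nat_lit 0, [nat_lit 780800001, nat_lit 1042800000], [], [nat_lit 28945028100, nat_lit 29969461472, nat_lit 29263071906, nat_lit 30356132916], nat_lit 0, nat_lit 0, nat_lit 0, nat_lit 0, nat_lit 0, nat_lit 0, [], [nat_lit 66, nat_lit 40, nat_lit 80, nat_lit 80, nat_lit 67, nat_lit 203, nat_lit 0, nat_lit 9]⟩, C1.Rw.none,
 ⟨nat_lit 0, nat_lit 2237, ⟨.ofNat (nat_lit 830542), .ofNat (nat_lit 841945), .ofNat (nat_lit 841930), .ofNat (nat_lit 853333), .ofNat (nat_lit 812496), .ofNat (nat_lit 822496), .ofNat (nat_lit 824997), .ofNat (nat_lit 834997)⟩, ⟨.ofNat (nat_lit 0), .ofNat (nat_lit 0), .ofNat (nat_lit 0), .ofNat (nat_lit 0), .ofNat (nat_lit 0), .ofNat (nat_lit 0), .ofNat (nat_lit 0), .ofNat (nat_lit 0)⟩⟩, [⟨nat_lit 13, nat_lit 50, nat_lit 65, nat_lit 100, nat_lit 384275860⟩]⟩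
noncomputable def p025_l73 : Lf2 := ⟨nat_lit 0, nat_lit 10, [nat_lit 0, nat_lit 5, nat_lit 5, nat_lit 20], false, nat_lit 0, nat_lit 0, nat_lit 0, nat_lit 0, ⟨nat_lit 206, nat_lit 794, nat_lit 0, nat_lit 9, nat_lit 352, nat_lit 0, nat_lit 0, nat_lit 0, nat_lit 0, nat_lit 0, nat_lit 0, nat_lit 0, nat_lit 37720566, nat_lit 29279434, nat_lit 0, nat_lit 3425947, true, true⟩,
 nat_lit 0, nat_lit 0, nat_lit 1789, nat_lit 0, nat_lit 2760, nat_lit 1238, nat_lit 114, nat_lit 0, nat_lit 0, nat_lit 214, nat_lit 0, nat_lit 0, nat_lit 0, nat_lit 0, nat_lit 0, nat_lit 239750, nat_lit 0, nat_lit 0, [(nat_lit 24, [(nat_lit 0, nat_lit 519), (nat_lit 1, nat_lit 275)])],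
 ⟨p025_k0, nat_lit 0, nat_lit 0, nat_lit 168, nat_lit 0, nat_lit 0, [nat_lit 822528800, nat_lit 1659935467, nat_lit 2113394400], [], [nat_lit 29204022140, nat_lit 29650964480, nat_lit 30606564748, nat_lit 31028453673], nat_lit 0, nat_lit 0, nat_lit 0, nat_lit 0, nat_lit 0, nat_lit 0, [], [nat_lit 35, nat_lit 40, nat_lit 80, nat_lit 80, nat_lit 22, nat_lit 203, nat_lit 0, nat_lit 7]⟩, ⟨p025_k11, nat_lit 0, nat_lit 0, nat_lit 689, nat_lit 0, nat_lit 1297210, [nat_lit 676092000, nat_lit 1287500000, nat_lit 1641408000], [], [nat_lit 7377631476, nat_lit 7406757223, nat_lit 7523186289, nat_lit 7564469331], nat_lit 1271250, nat_lit 1271250, nat_lit 1271250, nat_lit 1271250, nat_lit 0, nat_lit 0, [nat_lit 780000, nat_lit 1435000, nat_lit 1271250], [nat_lit 18, nat_lit 40, nat_lit 80, nat_lit 80, nat_lit 2, nat_lit 260, nat_lit 0, nat_lit 7]⟩,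
 ⟨nat_lit 2738, nat_lit 3163, ⟨.ofNat (nat_lit 854586), .ofNat (nat_lit 903349), .ofNat (nat_lit 865664), .ofNat (nat_lit 914427), .ofNat (nat_lit 848331), .ofNat (nat_lit 895580), .ofNat (nat_lit 859539), .ofNat (nat_lit 906789)⟩, ⟨.ofNat (nat_lit 0), .ofNat (nat_lit 0), .ofNat (nat_lit 0), .ofNat (nat_lit 0), .ofNat (nat_lit 0), .ofNat (nat_lit 0), .ofNat (nat_lit 0), .ofNat (nat_lit 0)⟩⟩, [⟨nat_lit 13, nat_lit 66, nat_lit 48, nat_lit 100, nat_lit 217277857⟩]⟩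
noncomputable def p025_l74 : Lf2 := ⟨nat_lit 0, nat_lit 10, [nat_lit 0, nat_lit 5, nat_lit 5, nat_lit 20], false, nat_lit 0, nat_lit 0, nat_lit 0, nat_lit 0, ⟨nat_lit 130, nat_lit 870, nat_lit 0, nat_lit 9, nat_lit 347, nat_lit 0, nat_lit 0, nat_lit 0, nat_lit 0, nat_lit 0, nat_lit 0, nat_lit 0, nat_lit 38203694, nat_lit 28796306, nat_lit 0, nat_lit 3416285, true, true⟩,
 nat_lit 0, nat_lit 0, nat_lit 1266, nat_lit 0, nat_lit 2794, nat_lit 876, nat_lit 79, nat_lit 0, nat_lit 0, nat_lit 84, nat_lit 0, nat_lit 0, nat_lit 0, nat_lit 0, nat_lit 0, nat_lit 217500, nat_lit 0, nat_lit 0, [(nat_lit 24, [(nat_lit 0, nat_lit 870)])],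
 ⟨p025_k9, nat_lit 0, nat_lit 0, nat_lit 168, nat_lit 0, nat_lit 0, [nat_lit 785924001, nat_lit 1616124001, nat_lit 2093312000], [], [nat_lit 29796031824, nat_lit 30225501249, nat_lit 30804290868, nat_lit 31236271385], nat_lit 0, nat_lit 0, nat_lit 0, nat_lit 0, nat_lit 0, nat_lit 0, [], [nat_lit 35, nat_lit 40, nat_lit 80, nat_lit 80, nat_lit 22, nat_lit 203, nat_lit 0, nat_lit 7]⟩, ⟨p025_k11, nat_lit 0, nat_lit 0, nat_lit 749, nat_lit 0, nat_lit 1426910, [nat_lit 426660000, nat_lit 812500000, nat_lit 1035840000], [], [nat_lit 4868150862, nat_lit 4880284165, nat_lit 4921254598, nat_lit 4931967585], nat_lit 1271250, nat_lit 1271250, nat_lit 1271250, nat_lit 1271250, nat_lit 0, nat_lit 0, [nat_lit 780000, nat_lit 1435000, nat_lit 1271250], [nat_lit 18, nat_lit 40, nat_lit 80, nat_lit 80, nat_lit 2, nat_lit 274, nat_lit 0, nat_lit 8]⟩,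
 ⟨nat_lit 2236, nat_lit 2739, ⟨.ofNat (nat_lit 848331), .ofNat (nat_lit 883768), .ofNat (nat_lit 859539), .ofNat (nat_lit 894976), .ofNat (nat_lit 841932), .ofNat (nat_lit 876141), .ofNat (nat_lit 853319), .ofNat (nat_lit 887529)⟩, ⟨.ofNat (nat_lit 0), .ofNat (nat_lit 0), .ofNat (nat_lit 0), .ofNat (nat_lit 0), .ofNat (nat_lit 0), .ofNat (nat_lit 0), .ofNat (nat_lit 0), .ofNat (nat_lit 0)⟩⟩, [⟨nat_lit 13, nat_lit 57, nat_lit 58, nat_lit 100, nat_lit 77773252⟩, ⟨nat_lit 13, nat_lit 50, nat_lit 65, nat_lit 100, nat_lit 240087349⟩]⟩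
noncomputable def p025_l75 : Lf2 := ⟨nat_lit 0, nat_lit 10, [nat_lit 0, nat_lit 5, nat_lit 5, nat_lit 20], false, nat_lit 0, nat_lit 0, nat_lit 0, nat_lit 0, ⟨nat_lit 201, nat_lit 799, nat_lit 0, nat_lit 9, nat_lit 355, nat_lit 0, nat_lit 0, nat_lit 0, nat_lit 0, nat_lit 0, nat_lit 0, nat_lit 0, nat_lit 37434552, nat_lit 29565448, nat_lit 0, nat_lit 3431169, true, true⟩,
 nat_lit 0, nat_lit 0, nat_lit 1611, nat_lit 0, nat_lit 2799, nat_lit 1161, nat_lit 5, nat_lit 0, nat_lit 0, nat_lit 169, nat_lit 0, nat_lit 0, nat_lit 0, nat_lit 0, nat_lit 0, nat_lit 325000, nat_lit 0, nat_lit 0, [(nat_lit 24, [(nat_lit 1, nat_lit 790), (nat_lit 2, nat_lit 9)])],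
 ⟨p025_k0, nat_lit 0, nat_lit 0, nat_lit 170, nat_lit 0, nat_lit 0, [nat_lit 871670000, nat_lit 1443320134, nat_lit 1677443200], [], [nat_lit 29499133159, nat_lit 30358607134, nat_lit 30850636172, nat_lit 31684154056], nat_lit 0, nat_lit 0, nat_lit 0, nat_lit 0, nat_lit 0, nat_lit 0, [], [nat_lit 35, nat_lit 40, nat_lit 80, nat_lit 80, nat_lit 22, nat_lit 203, nat_lit 0, nat_lit 7]⟩, ⟨p025_k16, nat_lit 0, nat_lit 0, nat_lit 741, nat_lit 0, nat_lit 1408589, [nat_lit 659682000, nat_lit 1256250000, nat_lit 1601568000], [], [nat_lit 7218336567, nat_lit 7247527584, nat_lit 7356717553, nat_lit 7382770945], nat_lit 1271250, nat_lit 1271250, nat_lit 1271250, nat_lit 1271250, nat_lit 0, nat_lit 0, [nat_lit 780000, nat_lit 1435000, nat_lit 1271250], [nat_lit 18, nat_lit 40, nat_lit 80, nat_lit 80, nat_lit 2, nat_lit 275, nat_lit 0, nat_lit 8]⟩,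
 ⟨nat_lit 2236, nat_lit 3163, ⟨.ofNat (nat_lit 865664), .ofNat (nat_lit 914427), .ofNat (nat_lit 876741), .ofNat (nat_lit 925504), .ofNat (nat_lit 853319), .ofNat (nat_lit 898932), .ofNat (nat_lit 864706), .ofNat (nat_lit 910319)⟩, ⟨.ofNat (nat_lit 0), .ofNat (nat_lit 0), .ofNat (nat_lit 0), .ofNat (nat_lit 0), .ofNat (nat_lit 0), .ofNat (nat_lit 0), .ofNat (nat_lit 0), .ofNat (nat_lit 0)⟩⟩, [⟨nat_lit 13, nat_lit 52, nat_lit 61, nat_lit 100, nat_lit 279174803⟩]⟩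
noncomputable def p025_l76 : Lf2 := ⟨nat_lit 0, nat_lit 10, [nat_lit 0, nat_lit 5, nat_lit 5, nat_lit 20], true, nat_lit 0, nat_lit 0, nat_lit 0, nat_lit 0, ⟨nat_lit 0, nat_lit 1000, nat_lit 0, nat_lit 9, nat_lit 344, nat_lit 0, nat_lit 0, nat_lit 0, nat_lit 0, nat_lit 0, nat_lit 0, nat_lit 0, nat_lit 38560930, nat_lit 28439070, nat_lit 0, nat_lit 3408458, true, true⟩,
 nat_lit 0, nat_lit 0, nat_lit 0, nat_lit 0, nat_lit 2382, nat_lit 0, nat_lit 0, nat_lit 0, nat_lit 0, nat_lit 0, nat_lit 0, nat_lit 0, nat_lit 0, nat_lit 0, nat_lit 0, nat_lit 250000, nat_lit 0, nat_lit 0, [(nat_lit 27, [(nat_lit 0, nat_lit 1000)])],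
 ⟨p025_k2, nat_lit 0, nat_lit 0, nat_lit 148, nat_lit 0, nat_lit 0, [nat_lit 780800001, nat_lit 1042800000], [], [nat_lit 28983998955, nat_lit 29862486912, nat_lit 29775663822, nat_lit 30824638972], nat_lit 0, nat_lit 0, nat_lit 0, nat_lit 0, nat_lit 0, nat_lit 0, [], [nat_lit 66, nat_lit 40, nat_lit 80, nat_lit 80, nat_lit 67, nat_lit 203, nat_lit 0, nat_lit 9]⟩, C1.Rw.none,
 ⟨nat_lit 0, nat_lit 2237, ⟨.ofNat (nat_lit 841930), .ofNat (nat_lit 870437), .ofNat (nat_lit 864705), .ofNat (nat_lit 893212), .ofNat (nat_lit 824997), .ofNat (nat_lit 849996), .ofNat (nat_lit 849998), .ofNat (nat_lit 874997)⟩, ⟨.ofNat (nat_lit 0), .ofNat (nat_lit 0), .ofNat (nat_lit 0), .ofNat (nat_lit 0), .ofNat (nat_lit 0), .ofNat (nat_lit 0), .ofNat (nat_lit 0), .ofNat (nat_lit 0)⟩⟩, [⟨nat_lit 13, nat_lit 54, nat_lit 57, nat_lit 100, nat_lit 354139846⟩]⟩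
noncomputable def p025_l77 : Lf2 := ⟨nat_lit 0, nat_lit 10, [nat_lit 0, nat_lit 5, nat_lit 5, nat_lit 20], true, nat_lit 0, nat_lit 0, nat_lit 0, nat_lit 0, ⟨nat_lit 0, nat_lit 1000, nat_lit 0, nat_lit 7, nat_lit 285, nat_lit 0, nat_lit 0, nat_lit 0, nat_lit 0, nat_lit 0, nat_lit 0, nat_lit 0, nat_lit 0, nat_lit 0, nat_lit 0, nat_lit 5000000, false, false⟩,
 nat_lit 0, nat_lit 0, nat_lit 0, nat_lit 0, nat_lit 2808, nat_lit 0, nat_lit 0, nat_lit 0, nat_lit 0, nat_lit 0, nat_lit 0, nat_lit 0, nat_lit 0, nat_lit 0, nat_lit 0, nat_lit 250000, nat_lit 0, nat_lit 0, [(nat_lit 24, [(nat_lit 0, nat_lit 1000)]), (nat_lit 27, [(nat_lit 0, nat_lit 1000)])],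
 ⟨p025_k6, nat_lit 0, nat_lit 0, nat_lit 172, nat_lit 0, nat_lit 0, [nat_lit 780800001, nat_lit 1705600000], [], [nat_lit 22848391651, nat_lit 25340607389, nat_lit 30944066704, nat_lit 32792114752], nat_lit 0, nat_lit 0, nat_lit 0, nat_lit 0, nat_lit 0, nat_lit 0, [], [nat_lit 86, nat_lit 40, nat_lit 80, nat_lit 80, nat_lit 87, nat_lit 317, nat_lit 100, nat_lit 14]⟩, C1.Rw.none,
 ⟨nat_lit 0, nat_lit 3163, ⟨.ofNat (nat_lit 507176), .ofNat (nat_lit 881191), .ofNat (nat_lit 548877), .ofNat (nat_lit 925502), .ofNat (nat_lit 531701), .ofNat (nat_lit 839996), .ofNat (nat_lit 579091), .ofNat (nat_lit 889997)⟩, ⟨.ofNat (nat_lit 0), .ofNat (nat_lit 0), .ofNat (nat_lit 0), .ofNat (nat_lit 0), .ofNat (nat_lit 0), .ofNat (nat_lit 0), .ofNat (nat_lit 0), .ofNat (nat_lit 0)⟩⟩, [⟨nat_lit 13, nat_lit 75, nat_lit 35, nat_lit 100, nat_lit 365036295⟩]⟩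
noncomputable def p025_l78 : Lf2 := ⟨nat_lit 0, nat_lit 10, [nat_lit 0, nat_lit 5, nat_lit 5, nat_lit 20], false, nat_lit 0, nat_lit 0, nat_lit 0, nat_lit 0, ⟨nat_lit 1000, nat_lit 0, nat_lit 0, nat_lit 0, nat_lit 0, nat_lit 0, nat_lit 0, nat_lit 0, nat_lit 0, nat_lit 0, nat_lit 0, nat_lit 0, nat_lit 0, nat_lit 0, nat_lit 0, nat_lit 0, false, false⟩,
 nat_lit 0, nat_lit 5693, nat_lit 0, nat_lit 0, nat_lit 4958, nat_lit 5155, nat_lit 324, nat_lit 0, nat_lit 0, nat_lit 0, nat_lit 0, nat_lit 0, nat_lit 0, nat_lit 0, nat_lit 0, nat_lit 0, nat_lit 0, nat_lit 0, [],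
 ⟨p025_k0, nat_lit 0, nat_lit 0, nat_lit 472, nat_lit 0, nat_lit 1001397, [nat_lit 938000000, nat_lit 3282000000, nat_lit 4688000000], [], [nat_lit 31404683965, nat_lit 32358801205, nat_lit 37702516992, nat_lit 38414634492], nat_lit 1271250, nat_lit 1271250, nat_lit 1033601, nat_lit 3070600, nat_lit 0, nat_lit 0, [nat_lit 230000, nat_lit 780000, nat_lit 1100000], [nat_lit 35, nat_lit 40, nat_lit 80, nat_lit 80, nat_lit 22, nat_lit 317, nat_lit 100, nat_lit 14]⟩, ⟨p025_k8, nat_lit 0, nat_lit 0, nat_lit 216, nat_lit 0, nat_lit 0, [nat_lit 3282000000, nat_lit 6250000000, nat_lit 9842000000], [], [nat_lit 28963106426, nat_lit 31641150990, nat_lit 40301044081, nat_lit 41862647689], nat_lit 0, nat_lit 0, nat_lit 0, nat_lit 0, nat_lit 0, nat_lit 0, [], [nat_lit 8, nat_lit 40, nat_lit 80, nat_lit 80, nat_lit 1, nat_lit 317, nat_lit 100, nat_lit 9]⟩,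
 zbF0, [⟨nat_lit 0, nat_lit 82, nat_lit 44, nat_lit 100, nat_lit 206706248⟩]⟩
noncomputable def p025_l79 : Lf2 := ⟨nat_lit 0, nat_lit 10, [nat_lit 0, nat_lit 5, nat_lit 5, nat_lit 20], false, nat_lit 0, nat_lit 0, nat_lit 0, nat_lit 0, ⟨nat_lit 840, nat_lit 0, nat_lit 160, nat_lit 7, nat_lit 293, nat_lit 0, nat_lit 0, nat_lit 0, nat_lit 0, nat_lit 215, nat_lit 515174, nat_lit 200, nat_lit 43625861, nat_lit 0, nat_lit 0, nat_lit 3233713, true, false⟩,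
 nat_lit 0, nat_lit 4384, nat_lit 0, nat_lit 0, nat_lit 4096, nat_lit 0, nat_lit 0, nat_lit 0, nat_lit 0, nat_lit 0, nat_lit 0, nat_lit 0, nat_lit 0, nat_lit 0, nat_lit 0, nat_lit 40000, nat_lit 0, nat_lit 0, [(nat_lit 27, [(nat_lit 4, nat_lit 160)])],
 ⟨p025_k2, nat_lit 0, nat_lit 0, nat_lit 438, nat_lit 0, nat_lit 1048183, [nat_lit 909776000, nat_lit 2587856000], [], [nat_lit 27250954570, nat_lit 28319349024, nat_lit 34964444120, nat_lit 36285007616], nat_lit 1271250, nat_lit 1271250, nat_lit 1271250, nat_lit 1271250, nat_lit 0, nat_lit 0, [nat_lit 230000, nat_lit 780000], [nat_lit 66, nat_lit 40, nat_lit 80, nat_lit 80, nat_lit 67, nat_lit 207, nat_lit 0, nat_lit 11]⟩, ⟨p025_k8, nat_lit 0, nat_lit 0, nat_lit 213, nat_lit 0, nat_lit 0, [nat_lit 2756880000, nat_lit 5250000000, nat_lit 8267280000], [], [nat_lit 29091943776, nat_lit 30135305760, nat_lit 33525097200, nat_lit 34389323640],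 nat_lit 0, nat_lit 0, nat_lit 0, nat_lit 0, nat_lit 0, nat_lit 0, [], [nat_lit 8, nat_lit 40, nat_lit 80, nat_lit 80, nat_lit 1, nat_lit 317, nat_lit 100, nat_lit 9]⟩,
 ⟨nat_lit 0, nat_lit 2237, ⟨.ofNat (nat_lit 575619), .ofNat (nat_lit 847661), .ofNat (nat_lit 619314), .ofNat (nat_lit 893212), .ofNat (nat_lit 585925), .ofNat (nat_lit 824994), .ofNat (nat_lit 634072), .ofNat (nat_lit 874997)⟩, ⟨.ofNat (nat_lit 0), .ofNat (nat_lit 0), .ofNat (nat_lit 0), .ofNat (nat_lit 0), .ofNat (nat_lit 0), .ofNat (nat_lit 0), .ofNat (nat_lit 0), .ofNat (nat_lit 0)⟩⟩, []⟩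
noncomputable def p025_l80 : Lf2 := ⟨nat_lit 0, nat_lit 10, [nat_lit 0, nat_lit 5, nat_lit 5, nat_lit 20], false, nat_lit 0, nat_lit 0, nat_lit 0, nat_lit 0, ⟨nat_lit 1000, nat_lit 0, nat_lit 0, nat_lit 0, nat_lit 0, nat_lit 0, nat_lit 0, nat_lit 0, nat_lit 0, nat_lit 0, nat_lit 0, nat_lit 0, nat_lit 0, nat_lit 0, nat_lit 0, nat_lit 0, false, false⟩,
 nat_lit 7314, nat_lit 0, nat_lit 1223, nat_lit 0, nat_lit 6369, nat_lit 5432, nat_lit 0, nat_lit 0, nat_lit 0, nat_lit 784, nat_lit 0, nat_lit 0, nat_lit 0, nat_lit 0, nat_lit 0, nat_lit 0, nat_lit 0, nat_lit 0, [],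
 ⟨p025_k0, nat_lit 0, nat_lit 0, nat_lit 309, nat_lit 0, nat_lit 515539, [nat_lit 938000000, nat_lit 3282000000, nat_lit 4688000000], [], [nat_lit 27723553922, nat_lit 28509622677, nat_lit 41206094984, nat_lit 42007791922], nat_lit 1271250, nat_lit 1271250, nat_lit 1033601, nat_lit 3070600, nat_lit 0, nat_lit 0, [nat_lit 230000, nat_lit 780000, nat_lit 1100000], [nat_lit 35, nat_lit 40, nat_lit 80, nat_lit 80, nat_lit 22, nat_lit 317, nat_lit 100, nat_lit 14]⟩, ⟨p025_k8, nat_lit 0, nat_lit 0, nat_lit 560, nat_lit 0, nat_lit 749695, [nat_lit 3282000000, nat_lit 6250000000, nat_lit 9842000000], [], [nat_lit 38704260442, nat_lit 39806451623, nat_lit 45931511872, nat_lit 44981317712], nat_lit 1271250, nat_lit 1271250, nat_lit 1033601, nat_lit 3070600, nat_lit 0, nat_lit 0, [nat_lit 780000, nat_lit 1435000, nat_lit 1271250], [nat_lit 8, nat_lit 40, nat_lit 80, nat_lit 80, nat_lit 1, nat_lit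 317, nat_lit 100, nat_lit 9]⟩,
 zbF0, [⟨nat_lit 0, nat_lit 80, nat_lit 53, nat_lit 100, nat_lit 67896140⟩]⟩
noncomputable def p025_l81 : Lf2 := ⟨nat_lit 0, nat_lit 10, [nat_lit 0, nat_lit 5, nat_lit 5, nat_lit 20], false, nat_lit 0, nat_lit 0, nat_lit 0, nat_lit 0, ⟨nat_lit 1000, nat_lit 0, nat_lit 0, nat_lit 0, nat_lit 0, nat_lit 0, nat_lit 0, nat_lit 0, nat_lit 0, nat_lit 0, nat_lit 0, nat_lit 0, nat_lit 0, nat_lit 0, nat_lit 0, nat_lit 0, false, false⟩,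
 nat_lit 9906, nat_lit 0, nat_lit 0, nat_lit 0, nat_lit 5064, nat_lit 6303, nat_lit 207, nat_lit 0, nat_lit 0, nat_lit 772, nat_lit 0, nat_lit 0, nat_lit 0, nat_lit 0, nat_lit 0, nat_lit 0, nat_lit 0, nat_lit 0, [],
 ⟨p025_k9, nat_lit 0, nat_lit 0, nat_lit 321, nat_lit 0, nat_lit 533250, [nat_lit 938000000, nat_lit 3282000000, nat_lit 4688000000], [], [nat_lit 26552095985, nat_lit 27220796905, nat_lit 37744600842, nat_lit 38460539159], nat_lit 1271250, nat_lit 1271250, nat_lit 1167600, nat_lit 3067850, nat_lit 0, nat_lit 0, [nat_lit 230000, nat_lit 780000, nat_lit 1100000], [nat_lit 35, nat_lit 40, nat_lit 80, nat_lit 80, nat_lit 22, nat_lit 203, nat_lit 0, nat_lit 8]⟩, ⟨p025_k8, nat_lit 0, nat_lit 0, nat_lit 577, nat_lit 0, nat_lit 808116, [nat_lit 3282000000, nat_lit 6250000000, nat_lit 9842000000], [], [nat_lit 35668818079, nat_lit 36779435997, nat_lit 41047696964, nat_lit 42054461726],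 nat_lit 1271250, nat_lit 1271250, nat_lit 1167600, nat_lit 3067850, nat_lit 0, nat_lit 0, [nat_lit 780000, nat_lit 1435000, nat_lit 1271250], [nat_lit 8, nat_lit 40, nat_lit 80, nat_lit 80, nat_lit 1, nat_lit 317, nat_lit 100, nat_lit 9]⟩,
 zbF0, [⟨nat_lit 0, nat_lit 82, nat_lit 44, nat_lit 100, nat_lit 97346536⟩]⟩
noncomputable def p025_l82 : Lf2 := ⟨nat_lit 0, nat_lit 10, [nat_lit 0, nat_lit 5, nat_lit 5, nat_lit 20], false, nat_lit 0, nat_lit 0, nat_lit 0, nat_lit 0, ⟨nat_lit 1000, nat_lit 0, nat_lit 0, nat_lit 0, nat_lit 0, nat_lit 0, nat_lit 0, nat_lit 0, nat_lit 0, nat_lit 0, nat_lit 0, nat_lit 0, nat_lit 0, nat_lit 0, nat_lit 0, nat_lit 0, false, false⟩,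
 nat_lit 11657, nat_lit 0, nat_lit 0, nat_lit 0, nat_lit 3923, nat_lit 7417, nat_lit 49, nat_lit 0, nat_lit 0, nat_lit 625, nat_lit 0, nat_lit 0, nat_lit 0, nat_lit 0, nat_lit 0, nat_lit 0, nat_lit 0, nat_lit 0, [],
 ⟨p025_k2, nat_lit 0, nat_lit 0, nat_lit 302, nat_lit 0, nat_lit 588548, [nat_lit 938000000, nat_lit 3282000000], [], [nat_lit 27662917204, nat_lit 28921879089, nat_lit 34733056245, nat_lit 35733873558], nat_lit 1271250, nat_lit 1271250, nat_lit 1271250, nat_lit 1271250, nat_lit 0, nat_lit 0, [nat_lit 230000, nat_lit 780000], [nat_lit 66, nat_lit 40, nat_lit 80, nat_lit 80, nat_lit 67, nat_lit 203, nat_lit 0, nat_lit 10]⟩, ⟨p025_k8, nat_lit 0, nat_lit 0, nat_lit 616, nat_lit 0, nat_lit 928584, [nat_lit 3282000000, nat_lit 6250000000, nat_lit 9842000000], [], [nat_lit 36231474143, nat_lit 37162343615, nat_lit 39244041468, nat_lit 39865136990], nat_lit 1271250, nat_lit 1271250,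 nat_lit 1271250, nat_lit 1271250, nat_lit 0, nat_lit 0, [nat_lit 780000, nat_lit 1435000, nat_lit 1271250], [nat_lit 8, nat_lit 40, nat_lit 80, nat_lit 80, nat_lit 1, nat_lit 317, nat_lit 100, nat_lit 9]⟩,
 zbF0, [⟨nat_lit 0, nat_lit 88, nat_lit 32, nat_lit 100, nat_lit 517907957⟩]⟩
noncomputable def p025_l83 : Lf2 := ⟨nat_lit 0, nat_lit 10, [nat_lit 0, nat_lit 5, nat_lit 5, nat_lit 20], false, nat_lit 0, nat_lit 0, nat_lit 0, nat_lit 0, ⟨nat_lit 1000, nat_lit 0, nat_lit 0, nat_lit 0, nat_lit 0, nat_lit 0, nat_lit 0, nat_lit 0, nat_lit 0, nat_lit 0, nat_lit 0, nat_lit 0, nat_lit 0, nat_lit 0, nat_lit 0, nat_lit 0, false, false⟩,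
 nat_lit 0, nat_lit 5693, nat_lit 0, nat_lit 0, nat_lit 4958, nat_lit 5155, nat_lit 324, nat_lit 0, nat_lit 0, nat_lit 0, nat_lit 0, nat_lit 0, nat_lit 0, nat_lit 0, nat_lit 0, nat_lit 0, nat_lit 0, nat_lit 0, [],
 ⟨p025_k0, nat_lit 0, nat_lit 0, nat_lit 472, nat_lit 0, nat_lit 1001397, [nat_lit 938000000, nat_lit 3282000000, nat_lit 4688000000], [], [nat_lit 31404683965, nat_lit 32358801205, nat_lit 37702516992, nat_lit 38414634492], nat_lit 1271250, nat_lit 1271250, nat_lit 1033601, nat_lit 3070600, nat_lit 0, nat_lit 0, [nat_lit 230000, nat_lit 780000, nat_lit 1100000], [nat_lit 35, nat_lit 40, nat_lit 80, nat_lit 80, nat_lit 22, nat_lit 317, nat_lit 100, nat_lit 14]⟩, ⟨p025_k8, nat_lit 0, nat_lit 0, nat_lit 216, nat_lit 0, nat_lit 0, [nat_lit 3282000000, nat_lit 6250000000, nat_lit 9842000000], [], [nat_lit 28963106426, nat_lit 31641150990, nat_lit 40301044081, nat_lit 41862647689],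 nat_lit 0, nat_lit 0, nat_lit 0, nat_lit 0, nat_lit 0, nat_lit 0, [], [nat_lit 8, nat_lit 40, nat_lit 80, nat_lit 80, nat_lit 1, nat_lit 317, nat_lit 100, nat_lit 9]⟩,
 zbF0, [⟨nat_lit 0, nat_lit 82, nat_lit 44, nat_lit 100, nat_lit 206706248⟩]⟩
noncomputable def p025_l84 : Lf2 := ⟨nat_lit 0, nat_lit 10, [nat_lit 0, nat_lit 5, nat_lit 5, nat_lit 20], false, nat_lit 0, nat_lit 0, nat_lit 0, nat_lit 0, ⟨nat_lit 1000, nat_lit 0, nat_lit 0, nat_lit 0, nat_lit 0, nat_lit 0, nat_lit 0, nat_lit 0, nat_lit 0, nat_lit 0, nat_lit 0, nat_lit 0, nat_lit 0, nat_lit 0, nat_lit 0, nat_lit 0, false, false⟩,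
 nat_lit 0, nat_lit 4322, nat_lit 0, nat_lit 0, nat_lit 4038, nat_lit 0, nat_lit 0, nat_lit 0, nat_lit 0, nat_lit 0, nat_lit 0, nat_lit 0, nat_lit 0, nat_lit 0, nat_lit 0, nat_lit 0, nat_lit 0, nat_lit 0, [],
 ⟨p025_k2, nat_lit 0, nat_lit 0, nat_lit 438, nat_lit 0, nat_lit 1048183, [nat_lit 938000000, nat_lit 3282000000], [], [nat_lit 29970812409, nat_lit 31031841072, nat_lit 35579789384, nat_lit 36331414518], nat_lit 1271250, nat_lit 1271250, nat_lit 1271250, nat_lit 1271250, nat_lit 0, nat_lit 0, [nat_lit 230000, nat_lit 780000], [nat_lit 66, nat_lit 40, nat_lit 80, nat_lit 80, nat_lit 67, nat_lit 207, nat_lit 0, nat_lit 11]⟩, ⟨p025_k7, nat_lit 0, nat_lit 0, nat_lit 195, nat_lit 0, nat_lit 0, [nat_lit 3282000000, nat_lit 9842000000], [], [nat_lit 39995582400, nat_lit 41160853600, nat_lit 44979231000, nat_lit 45956032000], nat_lit 0, nat_lit 0, nat_lit 0, nat_lit 0, nat_lit 0, nat_lit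 0, [], [nat_lit 82, nat_lit 40, nat_lit 80, nat_lit 80, nat_lit 63, nat_lit 317, nat_lit 100, nat_lit 9]⟩,
 zbF0, [⟨nat_lit 0, nat_lit 88, nat_lit 32, nat_lit 100, nat_lit 300836642⟩]⟩
noncomputable def p025_l85 : Lf2 := ⟨nat_lit 0, nat_lit 10, [nat_lit 0, nat_lit 5, nat_lit 5, nat_lit 20], false, nat_lit 0, nat_lit 0, nat_lit 0, nat_lit 0, ⟨nat_lit 321, nat_lit 679, nat_lit 0, nat_lit 7, nat_lit 285, nat_lit 0, nat_lit 0, nat_lit 0, nat_lit 0, nat_lit 0, nat_lit 0, nat_lit 0, nat_lit 0, nat_lit 0, nat_lit 0, nat_lit 5000000, false, false⟩,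
 nat_lit 3689, nat_lit 0, nat_lit 0, nat_lit 0, nat_lit 3213, nat_lit 2347, nat_lit 18, nat_lit 0, nat_lit 0, nat_lit 186, nat_lit 0, nat_lit 0, nat_lit 0, nat_lit 0, nat_lit 0, nat_lit 340600, nat_lit 0, nat_lit 0, [(nat_lit 24, [(nat_lit 1, nat_lit 564), (nat_lit 2, nat_lit 115)]), (nat_lit 27, [(nat_lit 1, nat_lit 564), (nat_lit 2, nat_lit 115)])],
 ⟨p025_k0, nat_lit 0, nat_lit 0, nat_lit 355, nat_lit 0, nat_lit 638555, [nat_lit 948190001, nat_lit 1561646001, nat_lit 1802641600], [], [nat_lit 26716816757, nat_lit 28585766173, nat_lit 32854302049, nat_lit 34113769072], nat_lit 1271250, nat_lit 1271250, nat_lit 1033601, nat_lit 3070600, nat_lit 0, nat_lit 0, [nat_lit 230000, nat_lit 780000, nat_lit 1100000], [nat_lit 35, nat_lit 40, nat_lit 80, nat_lit 80, nat_lit 22, nat_lit 317, nat_lit 100, nat_lit 14]⟩, ⟨p025_k8, nat_lit 0, nat_lit 0, nat_lit 627, nat_lit 0, nat_lit 928584, [nat_lit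 1053522000, nat_lit 2006250000, nat_lit 3159282000], [], [nat_lit 11945159367, nat_lit 12270440816, nat_lit 14755355464, nat_lit 13127665809], nat_lit 1271250, nat_lit 1271250, nat_lit 1033601, nat_lit 3070600, nat_lit 0, nat_lit 0, [nat_lit 780000, nat_lit 1435000, nat_lit 1271250], [nat_lit 8, nat_lit 40, nat_lit 80, nat_lit 80, nat_lit 1, nat_lit 317, nat_lit 100, nat_lit 9]⟩,
 ⟨nat_lit 0, nat_lit 3163, ⟨.ofNat (nat_lit 507176), .ofNat (nat_lit 881191), .ofNat (nat_lit 548877), .ofNat (nat_lit 925502), .ofNat (nat_lit 531701), .ofNat (nat_lit 839996), .ofNat (nat_lit 579091), .ofNat (nat_lit 889997)⟩, ⟨.ofNat (nat_lit 0), .ofNat (nat_lit 0), .ofNat (nat_lit 0), .ofNat (nat_lit 0), .ofNat (nat_lit 0), .ofNat (nat_lit 0), .ofNat (nat_lit 0), .ofNat (nat_lit 0)⟩⟩, [⟨nat_lit 13, nat_lit 50, nat_lit 65, nat_lit 100, nat_lit 165155110⟩]⟩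
noncomputable def b_N_900_700_0_2 : St := ⟨false, nat_lit 2, nat_lit 2, nat_lit 0, nat_lit 40, nat_lit 360, nat_lit 400, nat_lit 280, nat_lit 320, nat_lit 152, nat_lit 392, nat_lit 0, nat_lit 0, nat_lit 0, nat_lit 0, nat_lit 0, nat_lit 0, nat_lit 80, nat_lit 120, nat_lit 0, nat_lit 0, nat_lit 0, nat_lit 0⟩
theorem d_N_900_700_0_2 (h : EB TB.env) : Dead b_N_900_700_0_2 := chkB_sound0 h (T :=
(.st (nat_lit 0)
(.gv
(.st (nat_lit 1)
(.leaf p025_l55)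
(.spl (nat_lit 2) (nat_lit 240)
(.leaf p025_l56)
(.spl (nat_lit 2) (nat_lit 320)
(.spl (nat_lit 1) (nat_lit 300)
(.spl (nat_lit 1) (nat_lit 290)
(.leaf p025_l57)
(.leaf p025_l58))
(.spl (nat_lit 0) (nat_lit 380)
(.leaf p025_l59)
(.leaf p025_l60)))
(.spl (nat_lit 2) (nat_lit 360)
(.spl (nat_lit 0) (nat_lit 380)
(.spl (nat_lit 1) (nat_lit 300)
(.spl (nat_lit 1) (nat_lit 290)
(.spl (nat_lit 1) (nat_lit 285)
(.leaf p025_l61)
(.spl (nat_lit 0) (nat_lit 370)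
(.leaf p025_l62)
(.leaf p025_l63)))
(.spl (nat_lit 0) (nat_lit 370)
(.leaf p025_l64)
(.leaf p025_l65)))
(.spl (nat_lit 0) (nat_lit 370)
(.leaf p025_l66)
(.spl (nat_lit 0) (nat_lit 375)
(.leaf p025_l67)
(.leaf p025_l68))))
(.leaf p025_l69))
(.spl (nat_lit 1) (nat_lit 300)
(.trX (nat_lit 13) (nat_lit 69) (nat_lit 45) (nat_lit 100) (nat_lit 384) (.spl (nat_lit 1) (nat_lit 290)
(.trX (nat_lit 13) (nat_lit 67) (nat_lit 50) (nat_lit 100) (nat_lit 380) (.leaf p025_l70))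
(.spl (nat_lit 0) (nat_lit 380)
(.leaf p025_l71)
(.trX (nat_lit 13) (nat_lit 50) (nat_lit 65) (nat_lit 100) (nat_lit 368) (.leaf p025_l72)))))
(.spl (nat_lit 0) (nat_lit 380)
(.spl (nat_lit 1) (nat_lit 310)
(.spl (nat_lit 0) (nat_lit 370)
(.leaf p025_l73)
(.trX (nat_lit 13) (nat_lit 63) (nat_lit 50) (nat_lit 100) (nat_lit 384) (.leaf p025_l74)))
(.leaf p025_l75))
(.trX (nat_lit 13) (nat_lit 54) (nat_lit 57) (nat_lit 100) (nat_lit 380) (.leaf p025_l76))))))))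
(.leaf p025_l77))
(.gv
(.st (nat_lit 1)
(.spl (nat_lit 0) (nat_lit 380)
(.leaf p025_l78)
(.trZ (nat_lit 0) (nat_lit 92) (nat_lit 44) (nat_lit 100) (nat_lit 192) (.trX (nat_lit 13) (nat_lit 54) (nat_lit 57) (nat_lit 100) (nat_lit 380) (.leaf p025_l79))))
(.spl (nat_lit 0) (nat_lit 380)
(.spl (nat_lit 0) (nat_lit 370)
(.leaf p025_l80)
(.trZ (nat_lit 0) (nat_lit 93) (nat_lit 53) (nat_lit 100) (nat_lit 168) (.trX (nat_lit 13) (nat_lit 66) (nat_lit 45) (nat_lit 100) (nat_lit 388) (.leaf p025_l81))))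
(.trZ (nat_lit 0) (nat_lit 92) (nat_lit 44) (nat_lit 100) (nat_lit 192) (.trX (nat_lit 13) (nat_lit 54) (nat_lit 57) (nat_lit 100) (nat_lit 380) (.leaf p025_l82)))))
(.st (nat_lit 1)
(.spl (nat_lit 0) (nat_lit 380)
(.leaf p025_l83)
(.trZ (nat_lit 0) (nat_lit 92) (nat_lit 44) (nat_lit 100) (nat_lit 192) (.trX (nat_lit 13) (nat_lit 54) (nat_lit 57) (nat_lit 100) (nat_lit 380) (.leaf p025_l84))))
(.leaf p025_l85))))) (by decide +kernel)
noncomputable def p025_l86 : Lf2 := ⟨nat_lit 0, nat_lit 10, [nat_lit 0, nat_lit 5, nat_lit 5, nat_lit 20], false, nat_lit 0, nat_lit 0, nat_lit 0, nat_lit 0, ⟨nat_lit 1000, nat_lit 0, nat_lit 0, nat_lit 0, nat_lit 0, nat_lit 0, nat_lit 0, nat_lit 0, nat_lit 0, nat_lit 0, nat_lit 0, nat_lit 0, nat_lit 0, nat_lit 0, nat_lit 0, nat_lit 0, false, false⟩,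
 nat_lit 0, nat_lit 0, nat_lit 0, nat_lit 15253, nat_lit 0, nat_lit 0, nat_lit 0, nat_lit 0, nat_lit 0, nat_lit 0, nat_lit 0, nat_lit 0, nat_lit 0, nat_lit 0, nat_lit 0, nat_lit 0, nat_lit 0, nat_lit 0, [],
 ⟨p025_k0, nat_lit 0, nat_lit 0, nat_lit 176, nat_lit 0, nat_lit 0, [nat_lit 938000000, nat_lit 3282000000, nat_lit 4688000000], [], [nat_lit 34732460000, nat_lit 36100734800, nat_lit 41006008000, nat_lit 42087342000], nat_lit 0, nat_lit 0, nat_lit 0, nat_lit 0, nat_lit 0, nat_lit 0, [], [nat_lit 35, nat_lit 40, nat_lit 80, nat_lit 80, nat_lit 22, nat_lit 317, nat_lit 100, nat_lit 14]⟩, ⟨p025_k8, nat_lit 0, nat_lit 0, nat_lit 216, nat_lit 0, nat_lit 0, [nat_lit 3282000000, nat_lit 6250000000, nat_lit 9842000000], [], [nat_lit 33615962000, nat_lit 34900461600, nat_lit 40264713600, nat_lit 41279694000], nat_lit 0, nat_lit 0, nat_lit 0, nat_lit 0, nat_lit 0, nat_lit 0, [], [nat_lit 8, nat_lit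 40, nat_lit 80, nat_lit 80, nat_lit 1, nat_lit 317, nat_lit 100, nat_lit 9]⟩,
 zbF0, [⟨nat_lit 0, nat_lit 87, nat_lit 44, nat_lit 100, nat_lit 385549704⟩]⟩
noncomputable def p025_l87 : Lf2 := ⟨nat_lit 0, nat_lit 10, [nat_lit 0, nat_lit 5, nat_lit 5, nat_lit 20], false, nat_lit 0, nat_lit 0, nat_lit 0, nat_lit 0, ⟨nat_lit 68, nat_lit 919, nat_lit 13, nat_lit 7, nat_lit 242, nat_lit 0, nat_lit 0, nat_lit 0, nat_lit 0, nat_lit 215, nat_lit 118222, nat_lit 200, nat_lit 49023188, nat_lit 17976812, nat_lit 0, nat_lit 2907855, false, false⟩,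
 nat_lit 0, nat_lit 0, nat_lit 921, nat_lit 0, nat_lit 3057, nat_lit 586, nat_lit 0, nat_lit 0, nat_lit 0, nat_lit 40, nat_lit 0, nat_lit 0, nat_lit 0, nat_lit 0, nat_lit 0, nat_lit 231895, nat_lit 0, nat_lit 0, [(nat_lit 24, [(nat_lit 0, nat_lit 919), (nat_lit 3, nat_lit 13)]), (nat_lit 27, [(nat_lit 0, nat_lit 919), (nat_lit 3, nat_lit 13)])],
 ⟨p025_k0, nat_lit 0, nat_lit 0, nat_lit 138, nat_lit 0, nat_lit 0, [nat_lit 838913601, nat_lit 1476902800, nat_lit 1878118400], [], [nat_lit 21636983551, nat_lit 24566069399, nat_lit 24018739274, nat_lit 26570203868], nat_lit 0, nat_lit 0, nat_lit 0, nat_lit 0, nat_lit 0, nat_lit 0, [], [nat_lit 35, nat_lit 40, nat_lit 80, nat_lit 80, nat_lit 22, nat_lit 272, nat_lit 60, nat_lit 12]⟩, ⟨p025_k8, nat_lit 0, nat_lit 0, nat_lit 827, nat_lit 0, nat_lit 1344727, [nat_lit 223176000, nat_lit 425000000, nat_lit 669256000], [], [nat_lit 2286445746, nat_lit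 2331428558, nat_lit 2260262760, nat_lit 2294418528], nat_lit 1271250, nat_lit 1271250, nat_lit 1033601, nat_lit 1780500, nat_lit 0, nat_lit 0, [nat_lit 780000, nat_lit 1435000, nat_lit 1271250], [nat_lit 8, nat_lit 40, nat_lit 80, nat_lit 80, nat_lit 1, nat_lit 277, nat_lit 60, nat_lit 8]⟩,
 ⟨nat_lit 0, nat_lit 3163, ⟨.ofNat (nat_lit 507176), .ofNat (nat_lit 646918), .ofNat (nat_lit 548877), .ofNat (nat_lit 688618), .ofNat (nat_lit 531701), .ofNat (nat_lit 647345), .ofNat (nat_lit 579091), .ofNat (nat_lit 694736)⟩, ⟨.ofNat (nat_lit 0), .ofNat (nat_lit 0), .ofNat (nat_lit 0), .ofNat (nat_lit 0), .ofNat (nat_lit 0), .ofNat (nat_lit 0), .ofNat (nat_lit 0), .ofNat (nat_lit 0)⟩⟩, [⟨nat_lit 0, nat_lit 87, nat_lit 44, nat_lit 100, nat_lit 127920209⟩]⟩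
noncomputable def p025_l88 : Lf2 := ⟨nat_lit 0, nat_lit 10, [nat_lit 0, nat_lit 5, nat_lit 5, nat_lit 20], false, nat_lit 0, nat_lit 0, nat_lit 0, nat_lit 0, ⟨nat_lit 78, nat_lit 922, nat_lit 0, nat_lit 7, nat_lit 292, nat_lit 0, nat_lit 0, nat_lit 0, nat_lit 0, nat_lit 0, nat_lit 0, nat_lit 0, nat_lit 43701047, nat_lit 23298953, nat_lit 0, nat_lit 3230198, true, false⟩,
 nat_lit 0, nat_lit 0, nat_lit 980, nat_lit 0, nat_lit 3003, nat_lit 623, nat_lit 0, nat_lit 0, nat_lit 0, nat_lit 48, nat_lit 0, nat_lit 0, nat_lit 0, nat_lit 0, nat_lit 0, nat_lit 230500, nat_lit 0, nat_lit 0, [(nat_lit 24, [(nat_lit 0, nat_lit 922)])],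
 ⟨p025_k0, nat_lit 0, nat_lit 0, nat_lit 139, nat_lit 0, nat_lit 0, [nat_lit 776834401, nat_lit 1516554400, nat_lit 1938227200], [], [nat_lit 24141466360, nat_lit 25408336366, nat_lit 27338483176, nat_lit 28416763482], nat_lit 0, nat_lit 0, nat_lit 0, nat_lit 0, nat_lit 0, nat_lit 0, [], [nat_lit 35, nat_lit 40, nat_lit 80, nat_lit 80, nat_lit 22, nat_lit 203, nat_lit 0, nat_lit 8]⟩, ⟨p025_k8, nat_lit 0, nat_lit 0, nat_lit 650, nat_lit 0, nat_lit 1051516, [nat_lit 255996000, nat_lit 487500000, nat_lit 767676000], [], [nat_lit 2686775904, nat_lit 2736781704, nat_lit 2763118072, nat_lit 2816544836], nat_lit 1271250, nat_lit 1271250, nat_lit 1271250, nat_lit 1271250, nat_lit 0, nat_lit 0, [nat_lit 780000, nat_lit 1435000, nat_lit 1271250], [nat_lit 8, nat_lit 40, nat_lit 80, nat_lit 80, nat_lit 1, nat_lit 317, nat_lit 100, nat_lit 9]⟩,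
 ⟨nat_lit 2236, nat_lit 3163, ⟨.ofNat (nat_lit 649422), .ofNat (nat_lit 771478), .ofNat (nat_lit 693606), .ofNat (nat_lit 815720), .ofNat (nat_lit 647962), .ofNat (nat_lit 762142), .ofNat (nat_lit 693384), .ofNat (nat_lit 807623)⟩, ⟨.ofNat (nat_lit 0), .ofNat (nat_lit 0), .ofNat (nat_lit 0), .ofNat (nat_lit 0), .ofNat (nat_lit 0), .ofNat (nat_lit 0), .ofNat (nat_lit 0), .ofNat (nat_lit 0)⟩⟩, []⟩
noncomputable def p025_l89 : Lf2 := ⟨nat_lit 0, nat_lit 10, [nat_lit 0, nat_lit 5, nat_lit 5, nat_lit 20], true, nat_lit 0, nat_lit 0, nat_lit 0, nat_lit 0, ⟨nat_lit 0, nat_lit 1000, nat_lit 0, nat_lit 7, nat_lit 290, nat_lit 0, nat_lit 0, nat_lit 0, nat_lit 0, nat_lit 0, nat_lit 0, nat_lit 0, nat_lit 43915139, nat_lit 23084861, nat_lit 0, nat_lit 3220036, true, false⟩,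
 nat_lit 0, nat_lit 0, nat_lit 0, nat_lit 0, nat_lit 2426, nat_lit 0, nat_lit 0, nat_lit 0, nat_lit 0, nat_lit 0, nat_lit 0, nat_lit 0, nat_lit 0, nat_lit 0, nat_lit 0, nat_lit 250000, nat_lit 0, nat_lit 0, [(nat_lit 27, [(nat_lit 0, nat_lit 1000)])],
 ⟨p025_k2, nat_lit 0, nat_lit 0, nat_lit 132, nat_lit 0, nat_lit 0, [nat_lit 780800001, nat_lit 1042800000], [], [nat_lit 24008511162, nat_lit 25169858762, nat_lit 26912262310, nat_lit 28061284056], nat_lit 0, nat_lit 0, nat_lit 0, nat_lit 0, nat_lit 0, nat_lit 0, [], [nat_lit 66, nat_lit 40, nat_lit 80, nat_lit 80, nat_lit 67, nat_lit 203, nat_lit 0, nat_lit 10]⟩, C1.Rw.none,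
 ⟨nat_lit 0, nat_lit 2237, ⟨.ofNat (nat_lit 646249), .ofNat (nat_lit 762141), .ofNat (nat_lit 689944), .ofNat (nat_lit 807594), .ofNat (nat_lit 648136), .ofNat (nat_lit 749998), .ofNat (nat_lit 696283), .ofNat (nat_lit 799902)⟩, ⟨.ofNat (nat_lit 0), .ofNat (nat_lit 0), .ofNat (nat_lit 0), .ofNat (nat_lit 0), .ofNat (nat_lit 0), .ofNat (nat_lit 0), .ofNat (nat_lit 0), .ofNat (nat_lit 0)⟩⟩, []⟩
noncomputable def p025_l90 : Lf2 := ⟨nat_lit 0, nat_lit 10, [nat_lit 0, nat_lit 5, nat_lit 5, nat_lit 20], false, nat_lit 0, nat_lit 0, nat_lit 0, nat_lit 0, ⟨nat_lit 1000, nat_lit 0, nat_lit 0, nat_lit 0, nat_lit 0, nat_lit 0, nat_lit 0, nat_lit 0, nat_lit 0, nat_lit 0, nat_lit 0, nat_lit 0, nat_lit 0, nat_lit 0, nat_lit 0, nat_lit 0, false, false⟩,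
 nat_lit 0, nat_lit 0, nat_lit 9678, nat_lit 0, nat_lit 4188, nat_lit 6158, nat_lit 0, nat_lit 0, nat_lit 0, nat_lit 674, nat_lit 0, nat_lit 0, nat_lit 0, nat_lit 0, nat_lit 0, nat_lit 0, nat_lit 0, nat_lit 0, [],
 ⟨p025_k0, nat_lit 0, nat_lit 0, nat_lit 167, nat_lit 0, nat_lit 0, [nat_lit 938000000, nat_lit 3282000000, nat_lit 4688000000], [], [nat_lit 33271848848, nat_lit 34461174808, nat_lit 36382062860, nat_lit 37402937572], nat_lit 0, nat_lit 0, nat_lit 0, nat_lit 0, nat_lit 0, nat_lit 0, [], [nat_lit 35, nat_lit 40, nat_lit 80, nat_lit 80, nat_lit 22, nat_lit 203, nat_lit 0, nat_lit 7]⟩, ⟨p025_k8, nat_lit 0, nat_lit 0, nat_lit 566, nat_lit 0, nat_lit 835813, [nat_lit 3282000000, nat_lit 6250000000, nat_lit 9842000000], [], [nat_lit 39708109958, nat_lit 39883673174, nat_lit 41475786512, nat_lit 41647583043], nat_lit 1271250, nat_lit 1271250, nat_lit 1271250, nat_lit 1271250, nat_lit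 0, nat_lit 0, [nat_lit 780000, nat_lit 1435000, nat_lit 1271250], [nat_lit 8, nat_lit 40, nat_lit 80, nat_lit 80, nat_lit 1, nat_lit 226, nat_lit 0, nat_lit 6]⟩,
 zbF0, []⟩
noncomputable def p025_l91 : Lf2 := ⟨nat_lit 0, nat_lit 10, [nat_lit 0, nat_lit 5, nat_lit 5, nat_lit 20], false, nat_lit 0, nat_lit 0, nat_lit 0, nat_lit 0, ⟨nat_lit 1000, nat_lit 0, nat_lit 0, nat_lit 0, nat_lit 0, nat_lit 0, nat_lit 0, nat_lit 0, nat_lit 0, nat_lit 0, nat_lit 0, nat_lit 0, nat_lit 0, nat_lit 0, nat_lit 0, nat_lit 0, false, false⟩,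
 nat_lit 0, nat_lit 0, nat_lit 9352, nat_lit 0, nat_lit 3742, nat_lit 6210, nat_lit 0, nat_lit 0, nat_lit 0, nat_lit 579, nat_lit 0, nat_lit 0, nat_lit 0, nat_lit 0, nat_lit 0, nat_lit 0, nat_lit 0, nat_lit 0, [],
 ⟨p025_k0, nat_lit 0, nat_lit 0, nat_lit 168, nat_lit 0, nat_lit 0, [nat_lit 938000000, nat_lit 3282000000, nat_lit 4688000000], [], [nat_lit 33414927432, nat_lit 34543075572, nat_lit 36577804828, nat_lit 37540839067], nat_lit 0, nat_lit 0, nat_lit 0, nat_lit 0, nat_lit 0, nat_lit 0, [], [nat_lit 35, nat_lit 40, nat_lit 80, nat_lit 80, nat_lit 22, nat_lit 203, nat_lit 0, nat_lit 7]⟩, ⟨p025_k13, nat_lit 0, nat_lit 0, nat_lit 514, nat_lit 0, nat_lit 849042, [nat_lit 3282000000, nat_lit 6250000000, nat_lit 7968000000], [], [nat_lit 37468865960, nat_lit 37675483960, nat_lit 39447285220, nat_lit 39639173635], nat_lit 1271250, nat_lit 1271250, nat_lit 1271250, nat_lit 1271250, nat_lit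 0, nat_lit 0, [nat_lit 780000, nat_lit 1435000, nat_lit 1271250], [nat_lit 18, nat_lit 40, nat_lit 80, nat_lit 80, nat_lit 2, nat_lit 214, nat_lit 0, nat_lit 6]⟩,
 zbF0, []⟩
noncomputable def p025_l92 : Lf2 := ⟨nat_lit 0, nat_lit 10, [nat_lit 0, nat_lit 5, nat_lit 5, nat_lit 20], false, nat_lit 0, nat_lit 0, nat_lit 0, nat_lit 0, ⟨nat_lit 77, nat_lit 923, nat_lit 0, nat_lit 8, nat_lit 320, nat_lit 0, nat_lit 0, nat_lit 0, nat_lit 0, nat_lit 0, nat_lit 0, nat_lit 0, nat_lit 40848990, nat_lit 26151010, nat_lit 0, nat_lit 3344440, true, true⟩,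
 nat_lit 0, nat_lit 0, nat_lit 952, nat_lit 0, nat_lit 2485, nat_lit 605, nat_lit 0, nat_lit 0, nat_lit 0, nat_lit 42, nat_lit 0, nat_lit 0, nat_lit 0, nat_lit 0, nat_lit 0, nat_lit 230750, nat_lit 0, nat_lit 0, [(nat_lit 27, [(nat_lit 0, nat_lit 923)])],
 ⟨p025_k2, nat_lit 0, nat_lit 0, nat_lit 144, nat_lit 0, nat_lit 0, [nat_lit 792904400, nat_lit 1215218400], [], [nat_lit 27795068950, nat_lit 28732097840, nat_lit 29719393684, nat_lit 30567780272], nat_lit 0, nat_lit 0, nat_lit 0, nat_lit 0, nat_lit 0, nat_lit 0, [], [nat_lit 66, nat_lit 40, nat_lit 80, nat_lit 80, nat_lit 67, nat_lit 203, nat_lit 0, nat_lit 9]⟩, ⟨p025_k8, nat_lit 0, nat_lit 0, nat_lit 724, nat_lit 0, nat_lit 1212122, [nat_lit 252714000, nat_lit 481250000, nat_lit 757834000], [], [nat_lit 2914731650, nat_lit 2925795824, nat_lit 2976898808, nat_lit 2988785026], nat_lit 1271250, nat_lit 1271250, nat_lit 1271250, nat_lit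 1271250, nat_lit 0, nat_lit 0, [nat_lit 780000, nat_lit 1435000, nat_lit 1271250], [nat_lit 8, nat_lit 40, nat_lit 80, nat_lit 80, nat_lit 1, nat_lit 265, nat_lit 0, nat_lit 7]⟩,
 ⟨nat_lit 0, nat_lit 2237, ⟨.ofNat (nat_lit 762141), .ofNat (nat_lit 830557), .ofNat (nat_lit 784917), .ofNat (nat_lit 853333), .ofNat (nat_lit 749998), .ofNat (nat_lit 809995), .ofNat (nat_lit 774999), .ofNat (nat_lit 834997)⟩, ⟨.ofNat (nat_lit 0), .ofNat (nat_lit 0), .ofNat (nat_lit 0), .ofNat (nat_lit 0), .ofNat (nat_lit 0), .ofNat (nat_lit 0), .ofNat (nat_lit 0), .ofNat (nat_lit 0)⟩⟩, [⟨nat_lit 13, nat_lit 35, nat_lit 79, nat_lit 100, nat_lit 61043528⟩, ⟨nat_lit 13, nat_lit 50, nat_lit 65, nat_lit 100, nat_lit 291487794⟩]⟩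
noncomputable def p025_l93 : Lf2 := ⟨nat_lit 0, nat_lit 10, [nat_lit 0, nat_lit 5, nat_lit 5, nat_lit 20], false, nat_lit 0, nat_lit 0, nat_lit 0, nat_lit 0, ⟨nat_lit 1000, nat_lit 0, nat_lit 0, nat_lit 0, nat_lit 0, nat_lit 0, nat_lit 0, nat_lit 0, nat_lit 0, nat_lit 0, nat_lit 0, nat_lit 0, nat_lit 0, nat_lit 0, nat_lit 0, nat_lit 0, false, false⟩,
 nat_lit 0, nat_lit 0, nat_lit 9236, nat_lit 0, nat_lit 4049, nat_lit 6393, nat_lit 0, nat_lit 0, nat_lit 0, nat_lit 604, nat_lit 0, nat_lit 0, nat_lit 0, nat_lit 0, nat_lit 0, nat_lit 0, nat_lit 0, nat_lit 0, [],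
 ⟨p025_k0, nat_lit 0, nat_lit 0, nat_lit 170, nat_lit 0, nat_lit 0, [nat_lit 938000000, nat_lit 3282000000, nat_lit 4688000000], [], [nat_lit 33316440604, nat_lit 34486699934, nat_lit 36994462566, nat_lit 37967687981], nat_lit 0, nat_lit 0, nat_lit 0, nat_lit 0, nat_lit 0, nat_lit 0, [], [nat_lit 35, nat_lit 40, nat_lit 80, nat_lit 80, nat_lit 22, nat_lit 203, nat_lit 0, nat_lit 7]⟩, ⟨p025_k11, nat_lit 0, nat_lit 0, nat_lit 543, nat_lit 0, nat_lit 931135, [nat_lit 3282000000, nat_lit 6250000000, nat_lit 7968000000], [], [nat_lit 36064051596, nat_lit 36409256036, nat_lit 38012930447, nat_lit 38381664760], nat_lit 1271250, nat_lit 1271250, nat_lit 1271250, nat_lit 1271250, nat_lit 0, nat_lit 0, [nat_lit 780000, nat_lit 1435000, nat_lit 1271250], [nat_lit 18, nat_lit 40, nat_lit 80, nat_lit 80, nat_lit 2, nat_lit 225, nat_lit 0, nat_lit 6]⟩,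
 zbF0, []⟩
noncomputable def p025_l94 : Lf2 := ⟨nat_lit 0, nat_lit 10, [nat_lit 0, nat_lit 5, nat_lit 5, nat_lit 20], false, nat_lit 0, nat_lit 0, nat_lit 0, nat_lit 0, ⟨nat_lit 217, nat_lit 783, nat_lit 0, nat_lit 8, nat_lit 333, nat_lit 0, nat_lit 0, nat_lit 0, nat_lit 0, nat_lit 0, nat_lit 0, nat_lit 0, nat_lit 39592604, nat_lit 27407396, nat_lit 0, nat_lit 3382582, true, true⟩,
 nat_lit 0, nat_lit 0, nat_lit 2099, nat_lit 0, nat_lit 2688, nat_lit 1453, nat_lit 0, nat_lit 0, nat_lit 0, nat_lit 126, nat_lit 0, nat_lit 0, nat_lit 0, nat_lit 0, nat_lit 0, nat_lit 195750, nat_lit 0, nat_lit 0, [(nat_lit 27, [(nat_lit 0, nat_lit 783)])],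
 ⟨p025_k2, nat_lit 0, nat_lit 0, nat_lit 148, nat_lit 0, nat_lit 0, [nat_lit 814912401, nat_lit 1528706400], [], [nat_lit 28491552081, nat_lit 29456082193, nat_lit 30956894865, nat_lit 31804696225], nat_lit 0, nat_lit 0, nat_lit 0, nat_lit 0, nat_lit 0, nat_lit 0, [], [nat_lit 66, nat_lit 40, nat_lit 80, nat_lit 80, nat_lit 67, nat_lit 203, nat_lit 0, nat_lit 9]⟩, ⟨p025_k11, nat_lit 0, nat_lit 0, nat_lit 649, nat_lit 0, nat_lit 1190289, [nat_lit 712194000, nat_lit 1356250000, nat_lit 1729056000], [], [nat_lit 7891066344, nat_lit 7953296364, nat_lit 8192188049, nat_lit 8255155198], nat_lit 1271250, nat_lit 1271250, nat_lit 1271250, nat_lit 1271250, nat_lit 0, nat_lit 0, [nat_lit 780000, nat_lit 1435000, nat_lit 1271250], [nat_lit 18, nat_lit 40, nat_lit 80, nat_lit 80, nat_lit 2, nat_lit 250, nat_lit 0, nat_lit 7]⟩,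
 ⟨nat_lit 0, nat_lit 2237, ⟨.ofNat (nat_lit 784917), .ofNat (nat_lit 870437), .ofNat (nat_lit 807594), .ofNat (nat_lit 893212), .ofNat (nat_lit 774999), .ofNat (nat_lit 849996), .ofNat (nat_lit 799902), .ofNat (nat_lit 874997)⟩, ⟨.ofNat (nat_lit 0), .ofNat (nat_lit 0), .ofNat (nat_lit 0), .ofNat (nat_lit 0), .ofNat (nat_lit 0), .ofNat (nat_lit 0), .ofNat (nat_lit 0), .ofNat (nat_lit 0)⟩⟩, [⟨nat_lit 13, nat_lit 37, nat_lit 74, nat_lit 100, nat_lit 422062661⟩]⟩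
noncomputable def p025_l95 : Lf2 := ⟨nat_lit 0, nat_lit 10, [nat_lit 0, nat_lit 5, nat_lit 5, nat_lit 20], true, nat_lit 0, nat_lit 0, nat_lit 0, nat_lit 0, ⟨nat_lit 0, nat_lit 1000, nat_lit 0, nat_lit 7, nat_lit 285, nat_lit 0, nat_lit 0, nat_lit 0, nat_lit 0, nat_lit 0, nat_lit 0, nat_lit 0, nat_lit 0, nat_lit 0, nat_lit 0, nat_lit 5000000, false, false⟩,
 nat_lit 0, nat_lit 0, nat_lit 0, nat_lit 0, nat_lit 2636, nat_lit 0, nat_lit 0, nat_lit 0, nat_lit 0, nat_lit 0, nat_lit 0, nat_lit 0, nat_lit 0, nat_lit 0, nat_lit 0, nat_lit 250000, nat_lit 0, nat_lit 0, [(nat_lit 24, [(nat_lit 0, nat_lit 1000)]), (nat_lit 27, [(nat_lit 0, nat_lit 1000)])],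
 ⟨p025_k0, nat_lit 0, nat_lit 0, nat_lit 176, nat_lit 0, nat_lit 0, [nat_lit 780800001, nat_lit 1367200000, nat_lit 1705600000], [], [nat_lit 22883754075, nat_lit 25297923030, nat_lit 30931963384, nat_lit 32594286319], nat_lit 0, nat_lit 0, nat_lit 0, nat_lit 0, nat_lit 0, nat_lit 0, [], [nat_lit 35, nat_lit 40, nat_lit 80, nat_lit 80, nat_lit 22, nat_lit 317, nat_lit 100, nat_lit 14]⟩, C1.Rw.none,
 ⟨nat_lit 0, nat_lit 3163, ⟨.ofNat (nat_lit 507176), .ofNat (nat_lit 881191), .ofNat (nat_lit 548877), .ofNat (nat_lit 925502), .ofNat (nat_lit 531701), .ofNat (nat_lit 839996), .ofNat (nat_lit 579091), .ofNat (nat_lit 889997)⟩, ⟨.ofNat (nat_lit 0), .ofNat (nat_lit 0), .ofNat (nat_lit 0), .ofNat (nat_lit 0), .ofNat (nat_lit 0), .ofNat (nat_lit 0), .ofNat (nat_lit 0), .ofNat (nat_lit 0)⟩⟩, [⟨nat_lit 13, nat_lit 75, nat_lit 35, nat_lit 100, nat_lit 363739110⟩]⟩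
noncomputable def p025_l96 : Lf2 := ⟨nat_lit 0, nat_lit 10, [nat_lit 0, nat_lit 5, nat_lit 5, nat_lit 20], false, nat_lit 0, nat_lit 0, nat_lit 0, nat_lit 0, ⟨nat_lit 1000, nat_lit 0, nat_lit 0, nat_lit 0, nat_lit 0, nat_lit 0, nat_lit 0, nat_lit 0, nat_lit 0, nat_lit 0, nat_lit 0, nat_lit 0, nat_lit 0, nat_lit 0, nat_lit 0, nat_lit 0, false, false⟩,
 nat_lit 0, nat_lit 5380, nat_lit 0, nat_lit 0, nat_lit 4685, nat_lit 0, nat_lit 326, nat_lit 0, nat_lit 0, nat_lit 0, nat_lit 0, nat_lit 0, nat_lit 0, nat_lit 0, nat_lit 0, nat_lit 0, nat_lit 0, nat_lit 0, [],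
 ⟨p025_k0, nat_lit 0, nat_lit 0, nat_lit 404, nat_lit 0, nat_lit 780568, [nat_lit 938000000, nat_lit 3282000000, nat_lit 4688000000], [], [nat_lit 30645988883, nat_lit 32652767900, nat_lit 37373385250, nat_lit 38921554913], nat_lit 1271250, nat_lit 1271250, nat_lit 1033601, nat_lit 3070600, nat_lit 0, nat_lit 0, [nat_lit 230000, nat_lit 780000, nat_lit 1100000], [nat_lit 35, nat_lit 40, nat_lit 80, nat_lit 80, nat_lit 22, nat_lit 317, nat_lit 100, nat_lit 14]⟩, ⟨p025_k8, nat_lit 0, nat_lit 0, nat_lit 216, nat_lit 0, nat_lit 0, [nat_lit 3282000000, nat_lit 6250000000, nat_lit 9842000000], [], [nat_lit 33615962000, nat_lit 34900461600, nat_lit 40264713600, nat_lit 41279694000], nat_lit 0, nat_lit 0, nat_lit 0, nat_lit 0, nat_lit 0, nat_lit 0, [], [nat_lit 8, nat_lit 40, nat_lit 80, nat_lit 80, nat_lit 1, nat_lit 317, nat_lit 100, nat_lit 9]⟩,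
 zbF0, [⟨nat_lit 0, nat_lit 87, nat_lit 44, nat_lit 100, nat_lit 369985665⟩]⟩
noncomputable def p025_l97 : Lf2 := ⟨nat_lit 0, nat_lit 10, [nat_lit 0, nat_lit 5, nat_lit 5, nat_lit 20], false, nat_lit 0, nat_lit 0, nat_lit 0, nat_lit 0, ⟨nat_lit 1000, nat_lit 0, nat_lit 0, nat_lit 0, nat_lit 0, nat_lit 0, nat_lit 0, nat_lit 0, nat_lit 0, nat_lit 0, nat_lit 0, nat_lit 0, nat_lit 0, nat_lit 0, nat_lit 0, nat_lit 0, false, false⟩,
 nat_lit 7133, nat_lit 0, nat_lit 0, nat_lit 0, nat_lit 6212, nat_lit 4539, nat_lit 0, nat_lit 0, nat_lit 0, nat_lit 801, nat_lit 0, nat_lit 0, nat_lit 0, nat_lit 0, nat_lit 0, nat_lit 0, nat_lit 0, nat_lit 0, [],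
 ⟨p025_k0, nat_lit 0, nat_lit 0, nat_lit 268, nat_lit 0, nat_lit 362191, [nat_lit 938000000, nat_lit 3282000000, nat_lit 4688000000], [], [nat_lit 28103281218, nat_lit 29651724446, nat_lit 40739812394, nat_lit 42320175061], nat_lit 1271250, nat_lit 1271250, nat_lit 1033601, nat_lit 3070600, nat_lit 0, nat_lit 0, [nat_lit 230000, nat_lit 780000, nat_lit 1100000], [nat_lit 35, nat_lit 40, nat_lit 80, nat_lit 80, nat_lit 22, nat_lit 317, nat_lit 100, nat_lit 14]⟩, ⟨p025_k8, nat_lit 0, nat_lit 0, nat_lit 451, nat_lit 0, nat_lit 533259, [nat_lit 3282000000, nat_lit 6250000000, nat_lit 9842000000], [], [nat_lit 36848244013, nat_lit 37983921419, nat_lit 45914727044, nat_lit 43818398316], nat_lit 1271250, nat_lit 1271250, nat_lit 1033601, nat_lit 3070600, nat_lit 0, nat_lit 0, [nat_lit 780000, nat_lit 1435000, nat_lit 1271250], [nat_lit 8, nat_lit 40, nat_lit 80, nat_lit 80, nat_lit 1, nat_lit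 317, nat_lit 100, nat_lit 9]⟩,
 zbF0, [⟨nat_lit 0, nat_lit 82, nat_lit 44, nat_lit 100, nat_lit 3679260⟩]⟩
noncomputable def p025_l98 : Lf2 := ⟨nat_lit 0, nat_lit 10, [nat_lit 0, nat_lit 5, nat_lit 5, nat_lit 20], false, nat_lit 0, nat_lit 0, nat_lit 0, nat_lit 0, ⟨nat_lit 1000, nat_lit 0, nat_lit 0, nat_lit 0, nat_lit 0, nat_lit 0, nat_lit 0, nat_lit 0, nat_lit 0, nat_lit 0, nat_lit 0, nat_lit 0, nat_lit 0, nat_lit 0, nat_lit 0, nat_lit 0, false, false⟩,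
 nat_lit 11404, nat_lit 0, nat_lit 0, nat_lit 0, nat_lit 4330, nat_lit 7257, nat_lit 0, nat_lit 0, nat_lit 0, nat_lit 631, nat_lit 0, nat_lit 0, nat_lit 0, nat_lit 0, nat_lit 0, nat_lit 0, nat_lit 0, nat_lit 0, [],
 ⟨p025_k2, nat_lit 0, nat_lit 0, nat_lit 252, nat_lit 0, nat_lit 415124, [nat_lit 938000000, nat_lit 3282000000], [], [nat_lit 29230018668, nat_lit 30632922448, nat_lit 36086626565, nat_lit 37033075970], nat_lit 1271250, nat_lit 1271250, nat_lit 1271250, nat_lit 1271250, nat_lit 0, nat_lit 0, [nat_lit 230000, nat_lit 780000], [nat_lit 66, nat_lit 40, nat_lit 80, nat_lit 80, nat_lit 67, nat_lit 203, nat_lit 0, nat_lit 10]⟩, ⟨p025_k8, nat_lit 0, nat_lit 0, nat_lit 489, nat_lit 0, nat_lit 664714, [nat_lit 3282000000, nat_lit 6250000000, nat_lit 9842000000], [], [nat_lit 34711170061, nat_lit 35952888831, nat_lit 38777948548, nat_lit 39447977799], nat_lit 1271250, nat_lit 1271250,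 nat_lit 1271250, nat_lit 1271250, nat_lit 0, nat_lit 0, [nat_lit 780000, nat_lit 1435000, nat_lit 1271250], [nat_lit 8, nat_lit 40, nat_lit 80, nat_lit 80, nat_lit 1, nat_lit 317, nat_lit 100, nat_lit 9]⟩,
 zbF0, [⟨nat_lit 0, nat_lit 88, nat_lit 32, nat_lit 100, nat_lit 481535787⟩]⟩
noncomputable def p025_l99 : Lf2 := ⟨nat_lit 0, nat_lit 10, [nat_lit 0, nat_lit 5, nat_lit 5, nat_lit 20], false, nat_lit 0, nat_lit 0, nat_lit 0, nat_lit 0, ⟨nat_lit 1000, nat_lit 0, nat_lit 0, nat_lit 0, nat_lit 0, nat_lit 0, nat_lit 0, nat_lit 0, nat_lit 0, nat_lit 0, nat_lit 0, nat_lit 0, nat_lit 0, nat_lit 0, nat_lit 0, nat_lit 0, false, false⟩,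
 nat_lit 0, nat_lit 5380, nat_lit 0, nat_lit 0, nat_lit 4685, nat_lit 0, nat_lit 326, nat_lit 0, nat_lit 0, nat_lit 0, nat_lit 0, nat_lit 0, nat_lit 0, nat_lit 0, nat_lit 0, nat_lit 0, nat_lit 0, nat_lit 0, [],
 ⟨p025_k0, nat_lit 0, nat_lit 0, nat_lit 404, nat_lit 0, nat_lit 780568, [nat_lit 938000000, nat_lit 3282000000, nat_lit 4688000000], [], [nat_lit 30645988883, nat_lit 32652767900, nat_lit 37373385250, nat_lit 38921554913], nat_lit 1271250, nat_lit 1271250, nat_lit 1033601, nat_lit 3070600, nat_lit 0, nat_lit 0, [nat_lit 230000, nat_lit 780000, nat_lit 1100000], [nat_lit 35, nat_lit 40, nat_lit 80, nat_lit 80, nat_lit 22, nat_lit 317, nat_lit 100, nat_lit 14]⟩, ⟨p025_k8, nat_lit 0, nat_lit 0, nat_lit 216, nat_lit 0, nat_lit 0, [nat_lit 3282000000, nat_lit 6250000000, nat_lit 9842000000], [], [nat_lit 33615962000, nat_lit 34900461600, nat_lit 40264713600, nat_lit 41279694000], nat_lit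 0, nat_lit 0, nat_lit 0, nat_lit 0, nat_lit 0, nat_lit 0, [], [nat_lit 8, nat_lit 40, nat_lit 80, nat_lit 80, nat_lit 1, nat_lit 317, nat_lit 100, nat_lit 9]⟩,
 zbF0, [⟨nat_lit 0, nat_lit 87, nat_lit 44, nat_lit 100, nat_lit 369985665⟩]⟩
noncomputable def p025_l100 : Lf2 := ⟨nat_lit 0, nat_lit 10, [nat_lit 0, nat_lit 5, nat_lit 5, nat_lit 20], false, nat_lit 0, nat_lit 0, nat_lit 0, nat_lit 0, ⟨nat_lit 373, nat_lit 627, nat_lit 0, nat_lit 7, nat_lit 285, nat_lit 0, nat_lit 0, nat_lit 0, nat_lit 0, nat_lit 0, nat_lit 0, nat_lit 0, nat_lit 0, nat_lit 0, nat_lit 0, nat_lit 5000000, false, false⟩,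
 nat_lit 4283, nat_lit 0, nat_lit 0, nat_lit 0, nat_lit 3730, nat_lit 2725, nat_lit 0, nat_lit 0, nat_lit 0, nat_lit 203, nat_lit 0, nat_lit 0, nat_lit 0, nat_lit 0, nat_lit 0, nat_lit 168450, nat_lit 0, nat_lit 0, [(nat_lit 24, [(nat_lit 0, nat_lit 549), (nat_lit 1, nat_lit 78)]), (nat_lit 27, [(nat_lit 0, nat_lit 549), (nat_lit 1, nat_lit 78)])],
 ⟨p025_k0, nat_lit 0, nat_lit 0, nat_lit 295, nat_lit 0, nat_lit 451475, [nat_lit 844677200, nat_lit 2052570800, nat_lit 2759441600], [], [nat_lit 27213951312, nat_lit 29439220024, nat_lit 34300675033, nat_lit 35800917920], nat_lit 1271250, nat_lit 1271250, nat_lit 1033601, nat_lit 3070600, nat_lit 0, nat_lit 0, [nat_lit 230000, nat_lit 780000, nat_lit 1100000], [nat_lit 35, nat_lit 40, nat_lit 80, nat_lit 80, nat_lit 22, nat_lit 317, nat_lit 100, nat_lit 14]⟩, ⟨p025_k8, nat_lit 0, nat_lit 0, nat_lit 499, nat_lit 0, nat_lit 664714, [nat_lit 1224186000,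 nat_lit 2331250000, nat_lit 3671066000], [], [nat_lit 13812256415, nat_lit 14221300562, nat_lit 17145589776, nat_lit 15293324104], nat_lit 1271250, nat_lit 1271250, nat_lit 1033601, nat_lit 3070600, nat_lit 0, nat_lit 0, [nat_lit 780000, nat_lit 1435000, nat_lit 1271250], [nat_lit 8, nat_lit 40, nat_lit 80, nat_lit 80, nat_lit 1, nat_lit 317, nat_lit 100, nat_lit 9]⟩,
 ⟨nat_lit 0, nat_lit 3163, ⟨.ofNat (nat_lit 507176), .ofNat (nat_lit 881191), .ofNat (nat_lit 548877), .ofNat (nat_lit 925502), .ofNat (nat_lit 531701), .ofNat (nat_lit 839996), .ofNat (nat_lit 579091), .ofNat (nat_lit 889997)⟩, ⟨.ofNat (nat_lit 0), .ofNat (nat_lit 0), .ofNat (nat_lit 0), .ofNat (nat_lit 0), .ofNat (nat_lit 0), .ofNat (nat_lit 0), .ofNat (nat_lit 0), .ofNat (nat_lit 0)⟩⟩, [⟨nat_lit 13, nat_lit 50, nat_lit 65, nat_lit 100, nat_lit 154311312⟩]⟩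
noncomputable def p025_l101 : Lf2 := ⟨nat_lit 0, nat_lit 10, [nat_lit 0, nat_lit 5, nat_lit 5, nat_lit 20], false, nat_lit 0, nat_lit 0, nat_lit 0, nat_lit 0, ⟨nat_lit 1000, nat_lit 0, nat_lit 0, nat_lit 0, nat_lit 0, nat_lit 0, nat_lit 0, nat_lit 0, nat_lit 0, nat_lit 0, nat_lit 0, nat_lit 0, nat_lit 0, nat_lit 0, nat_lit 0, nat_lit 0, false, false⟩,
 nat_lit 0, nat_lit 0, nat_lit 0, nat_lit 28860, nat_lit 0, nat_lit 0, nat_lit 0, nat_lit 0, nat_lit 0, nat_lit 0, nat_lit 0, nat_lit 0, nat_lit 0, nat_lit 0, nat_lit 0, nat_lit 0, nat_lit 0, nat_lit 0, [],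
 ⟨p025_k0, nat_lit 0, nat_lit 0, nat_lit 176, nat_lit 0, nat_lit 0, [nat_lit 938000000, nat_lit 3282000000, nat_lit 4688000000], [], [nat_lit 34732460000, nat_lit 36100734800, nat_lit 41006008000, nat_lit 42087342000], nat_lit 0, nat_lit 0, nat_lit 0, nat_lit 0, nat_lit 0, nat_lit 0, [], [nat_lit 35, nat_lit 40, nat_lit 80, nat_lit 80, nat_lit 22, nat_lit 317, nat_lit 100, nat_lit 14]⟩, ⟨p025_k8, nat_lit 0, nat_lit 0, nat_lit 216, nat_lit 0, nat_lit 0, [nat_lit 3282000000, nat_lit 6250000000, nat_lit 9842000000], [], [nat_lit 33615962000, nat_lit 34900461600, nat_lit 40264713600, nat_lit 41279694000], nat_lit 0, nat_lit 0, nat_lit 0, nat_lit 0, nat_lit 0, nat_lit 0, [], [nat_lit 8, nat_lit 40, nat_lit 80, nat_lit 80, nat_lit 1, nat_lit 317, nat_lit 100, nat_lit 9]⟩,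
 zbF0, [⟨nat_lit 0, nat_lit 87, nat_lit 44, nat_lit 100, nat_lit 385549704⟩]⟩
noncomputable def p025_l102 : Lf2 := ⟨nat_lit 0, nat_lit 10, [nat_lit 0, nat_lit 5, nat_lit 5, nat_lit 20], false, nat_lit 0, nat_lit 0, nat_lit 0, nat_lit 0, ⟨nat_lit 1000, nat_lit 0, nat_lit 0, nat_lit 0, nat_lit 0, nat_lit 0, nat_lit 0, nat_lit 0, nat_lit 0, nat_lit 0, nat_lit 0, nat_lit 0, nat_lit 0, nat_lit 0, nat_lit 0, nat_lit 0, false, false⟩,
 nat_lit 0, nat_lit 0, nat_lit 11065, nat_lit 0, nat_lit 4859, nat_lit 7041, nat_lit 0, nat_lit 0, nat_lit 0, nat_lit 0, nat_lit 0, nat_lit 0, nat_lit 0, nat_lit 0, nat_lit 0, nat_lit 0, nat_lit 0, nat_lit 0, [],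
 ⟨p025_k0, nat_lit 0, nat_lit 0, nat_lit 170, nat_lit 0, nat_lit 0, [nat_lit 938000000, nat_lit 3282000000, nat_lit 4688000000], [], [nat_lit 27198857185, nat_lit 28989758462, nat_lit 37050656154, nat_lit 38105225657], nat_lit 0, nat_lit 0, nat_lit 0, nat_lit 0, nat_lit 0, nat_lit 0, [], [nat_lit 35, nat_lit 40, nat_lit 80, nat_lit 80, nat_lit 22, nat_lit 317, nat_lit 100, nat_lit 14]⟩, ⟨p025_k8, nat_lit 0, nat_lit 0, nat_lit 367, nat_lit 0, nat_lit 394133, [nat_lit 3282000000, nat_lit 6250000000, nat_lit 9842000000], [], [nat_lit 40824420334, nat_lit 42569055205, nat_lit 47103641016, nat_lit 47958230290], nat_lit 1271250, nat_lit 1271250, nat_lit 1033601, nat_lit 3070600, nat_lit 0, nat_lit 0, [nat_lit 780000, nat_lit 1435000, nat_lit 1271250], [nat_lit 8, nat_lit 40, nat_lit 80, nat_lit 80, nat_lit 1, nat_lit 317, nat_lit 100, nat_lit 9]⟩,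
 zbF0, [⟨nat_lit 0, nat_lit 82, nat_lit 44, nat_lit 100, nat_lit 308883138⟩]⟩
noncomputable def p025_l103 : Lf2 := ⟨nat_lit 0, nat_lit 10, [nat_lit 0, nat_lit 5, nat_lit 5, nat_lit 20], false, nat_lit 0, nat_lit 0, nat_lit 0, nat_lit 0, ⟨nat_lit 1000, nat_lit 0, nat_lit 0, nat_lit 0, nat_lit 0, nat_lit 0, nat_lit 0, nat_lit 0, nat_lit 0, nat_lit 0, nat_lit 0, nat_lit 0, nat_lit 0, nat_lit 0, nat_lit 0, nat_lit 0, false, false⟩,
 nat_lit 0, nat_lit 0, nat_lit 11545, nat_lit 0, nat_lit 4100, nat_lit 7346, nat_lit 0, nat_lit 0, nat_lit 0, nat_lit 589, nat_lit 0, nat_lit 0, nat_lit 0, nat_lit 0, nat_lit 0, nat_lit 0, nat_lit 0, nat_lit 0, [],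
 ⟨p025_k2, nat_lit 0, nat_lit 0, nat_lit 148, nat_lit 0, nat_lit 0, [nat_lit 938000000, nat_lit 3282000000], [], [nat_lit 27877246960, nat_lit 29403666481, nat_lit 35280800650, nat_lit 36299369100], nat_lit 0, nat_lit 0, nat_lit 0, nat_lit 0, nat_lit 0, nat_lit 0, [], [nat_lit 66, nat_lit 40, nat_lit 80, nat_lit 80, nat_lit 67, nat_lit 203, nat_lit 0, nat_lit 10]⟩, ⟨p025_k8, nat_lit 0, nat_lit 0, nat_lit 494, nat_lit 0, nat_lit 676695, [nat_lit 3282000000, nat_lit 6250000000, nat_lit 9842000000], [], [nat_lit 36060229351, nat_lit 37067224578, nat_lit 39209828471, nat_lit 39721008172], nat_lit 1271250, nat_lit 1271250, nat_lit 1271250, nat_lit 1271250, nat_lit 0, nat_lit 0, [nat_lit 780000, nat_lit 1435000, nat_lit 1271250], [nat_lit 8, nat_lit 40, nat_lit 80, nat_lit 80, nat_lit 1, nat_lit 317, nat_lit 100, nat_lit 9]⟩,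
 zbF0, [⟨nat_lit 0, nat_lit 88, nat_lit 32, nat_lit 100, nat_lit 514479484⟩]⟩
noncomputable def p025_l104 : Lf2 := ⟨nat_lit 0, nat_lit 10, [nat_lit 0, nat_lit 5, nat_lit 5, nat_lit 20], true, nat_lit 0, nat_lit 0, nat_lit 0, nat_lit 0, ⟨nat_lit 0, nat_lit 1000, nat_lit 0, nat_lit 7, nat_lit 285, nat_lit 0, nat_lit 0, nat_lit 0, nat_lit 0, nat_lit 0, nat_lit 0, nat_lit 0, nat_lit 0, nat_lit 0, nat_lit 0, nat_lit 5000000, false, false⟩,
 nat_lit 0, nat_lit 0, nat_lit 0, nat_lit 3187, nat_lit 2636, nat_lit 0, nat_lit 0, nat_lit 0, nat_lit 0, nat_lit 0, nat_lit 0, nat_lit 0, nat_lit 0, nat_lit 0, nat_lit 0, nat_lit 250000, nat_lit 0, nat_lit 0, [(nat_lit 24, [(nat_lit 0, nat_lit 1000)]), (nat_lit 27, [(nat_lit 0, nat_lit 1000)])],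
 ⟨p025_k0, nat_lit 0, nat_lit 0, nat_lit 176, nat_lit 0, nat_lit 0, [nat_lit 780800001, nat_lit 1367200000, nat_lit 1705600000], [], [nat_lit 22883754075, nat_lit 25297923030, nat_lit 30931963384, nat_lit 32594286319], nat_lit 0, nat_lit 0, nat_lit 0, nat_lit 0, nat_lit 0, nat_lit 0, [], [nat_lit 35, nat_lit 40, nat_lit 80, nat_lit 80, nat_lit 22, nat_lit 317, nat_lit 100, nat_lit 14]⟩, C1.Rw.none,
 ⟨nat_lit 0, nat_lit 3163, ⟨.ofNat (nat_lit 507176), .ofNat (nat_lit 881191), .ofNat (nat_lit 548877), .ofNat (nat_lit 925502), .ofNat (nat_lit 531701), .ofNat (nat_lit 839996), .ofNat (nat_lit 579091), .ofNat (nat_lit 889997)⟩, ⟨.ofNat (nat_lit 0), .ofNat (nat_lit 0), .ofNat (nat_lit 0), .ofNat (nat_lit 0), .ofNat (nat_lit 0), .ofNat (nat_lit 0), .ofNat (nat_lit 0), .ofNat (nat_lit 0)⟩⟩, [⟨nat_lit 13, nat_lit 75, nat_lit 35, nat_lit 100, nat_lit 359406172⟩]⟩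
noncomputable def p025_l105 : Lf2 := ⟨nat_lit 0, nat_lit 10, [nat_lit 0, nat_lit 5, nat_lit 5, nat_lit 20], false, nat_lit 0, nat_lit 0, nat_lit 0, nat_lit 0, ⟨nat_lit 1000, nat_lit 0, nat_lit 0, nat_lit 0, nat_lit 0, nat_lit 0, nat_lit 0, nat_lit 0, nat_lit 0, nat_lit 0, nat_lit 0, nat_lit 0, nat_lit 0, nat_lit 0, nat_lit 0, nat_lit 0, false, false⟩,
 nat_lit 0, nat_lit 5846, nat_lit 11065, nat_lit 0, nat_lit 5091, nat_lit 7041, nat_lit 0, nat_lit 0, nat_lit 0, nat_lit 0, nat_lit 0, nat_lit 0, nat_lit 0, nat_lit 0, nat_lit 0, nat_lit 0, nat_lit 0, nat_lit 0, [],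
 ⟨p025_k0, nat_lit 0, nat_lit 0, nat_lit 280, nat_lit 0, nat_lit 393595, [nat_lit 938000000, nat_lit 3282000000, nat_lit 4688000000], [], [nat_lit 30814582487, nat_lit 33573108545, nat_lit 38560051675, nat_lit 40244606928], nat_lit 1271250, nat_lit 1271250, nat_lit 1033601, nat_lit 3070600, nat_lit 0, nat_lit 0, [nat_lit 230000, nat_lit 780000, nat_lit 1100000], [nat_lit 35, nat_lit 40, nat_lit 80, nat_lit 80, nat_lit 22, nat_lit 317, nat_lit 100, nat_lit 14]⟩, ⟨p025_k8, nat_lit 0, nat_lit 0, nat_lit 354, nat_lit 0, nat_lit 350969, [nat_lit 3282000000, nat_lit 6250000000, nat_lit 9842000000], [], [nat_lit 40824420334, nat_lit 42569055205, nat_lit 47103641016, nat_lit 47958230290], nat_lit 1271250, nat_lit 1271250, nat_lit 1033601, nat_lit 3070600, nat_lit 0, nat_lit 0, [nat_lit 780000, nat_lit 1435000, nat_lit 1271250], [nat_lit 8, nat_lit 40, nat_lit 80, nat_lit 80, nat_lit 1, nat_lit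 317, nat_lit 100, nat_lit 9]⟩,
 zbF0, [⟨nat_lit 0, nat_lit 87, nat_lit 44, nat_lit 100, nat_lit 402151899⟩]⟩
noncomputable def b_N_900_700_0_3 : St := ⟨false, nat_lit 2, nat_lit 2, nat_lit 0, nat_lit 40, nat_lit 360, nat_lit 400, nat_lit 280, nat_lit 320, nat_lit 152, nat_lit 392, nat_lit 0, nat_lit 0, nat_lit 0, nat_lit 0, nat_lit 0, nat_lit 0, nat_lit 120, nat_lit 200, nat_lit 0, nat_lit 0, nat_lit 0, nat_lit 0⟩
theorem d_N_900_700_0_3 (h : EB TB.env) : Dead b_N_900_700_0_3 := chkB_sound0 h (T :=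
(.spl (nat_lit 6) (nat_lit 160)
(.st (nat_lit 0)
(.gv
(.st (nat_lit 1)
(.leaf p025_l86)
(.spl (nat_lit 2) (nat_lit 240)
(.leaf p025_l87)
(.spl (nat_lit 2) (nat_lit 320)
(.spl (nat_lit 0) (nat_lit 380)
(.leaf p025_l88)
(.leaf p025_l89))
(.spl (nat_lit 1) (nat_lit 300)
(.trX (nat_lit 13) (nat_lit 69) (nat_lit 45) (nat_lit 100) (nat_lit 384) (.spl (nat_lit 0) (nat_lit 380)
(.spl (nat_lit 1) (nat_lit 290)
(.trX (nat_lit 13) (nat_lit 67) (nat_lit 50) (nat_lit 100) (nat_lit 380) (.leaf p025_l90))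
(.leaf p025_l91))
(.trX (nat_lit 13) (nat_lit 50) (nat_lit 65) (nat_lit 100) (nat_lit 368) (.leaf p025_l92))))
(.spl (nat_lit 0) (nat_lit 380)
(.leaf p025_l93)
(.trX (nat_lit 13) (nat_lit 54) (nat_lit 57) (nat_lit 100) (nat_lit 380) (.leaf p025_l94)))))))
(.leaf p025_l95))
(.gv
(.st (nat_lit 1)
(.leaf p025_l96)
(.spl (nat_lit 0) (nat_lit 380)
(.leaf p025_l97)
(.trZ (nat_lit 0) (nat_lit 92) (nat_lit 44) (nat_lit 100) (nat_lit 192) (.trX (nat_lit 13) (nat_lit 54) (nat_lit 57) (nat_lit 100) (nat_lit 380) (.leaf p025_l98)))))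
(.st (nat_lit 1)
(.leaf p025_l99)
(.leaf p025_l100))))
(.st (nat_lit 0)
(.gv
(.st (nat_lit 1)
(.leaf p025_l101)
(.spl (nat_lit 0) (nat_lit 380)
(.leaf p025_l102)
(.trZ (nat_lit 0) (nat_lit 92) (nat_lit 44) (nat_lit 100) (nat_lit 192) (.trX (nat_lit 13) (nat_lit 54) (nat_lit 57) (nat_lit 100) (nat_lit 380) (.leaf p025_l103)))))
(.leaf p025_l104))
(.leaf p025_l105)))) (by decide +kernel)
noncomputable def p025_l106 : Lf2 := ⟨nat_lit 0, nat_lit 10, [nat_lit 0, nat_lit 5, nat_lit 5, nat_lit 20], false, nat_lit 0, nat_lit 0, nat_lit 0, nat_lit 0, ⟨nat_lit 477, nat_lit 523, nat_lit 0, nat_lit 8, nat_lit 315, nat_lit 0, nat_lit 0, nat_lit 0, nat_lit 0, nat_lit 0, nat_lit 0, nat_lit 0, nat_lit 41345891, nat_lit 25654109, nat_lit 0, nat_lit 3327322, true, false⟩,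
 nat_lit 0, nat_lit 0, nat_lit 0, nat_lit 0, nat_lit 0, nat_lit 0, nat_lit 0, nat_lit 0, nat_lit 0, nat_lit 0, nat_lit 0, nat_lit 0, nat_lit 0, nat_lit 0, nat_lit 0, nat_lit 209200, nat_lit 0, nat_lit 0, [(nat_lit 24, [(nat_lit 1, nat_lit 523)]), (nat_lit 27, [(nat_lit 1, nat_lit 523)])],
 ⟨p025_k6, nat_lit 0, nat_lit 0, nat_lit 173, nat_lit 0, nat_lit 0, [nat_lit 952434801, nat_lit 2735327200], [], [nat_lit 31968294803, nat_lit 33283048803, nat_lit 37308474803, nat_lit 38381858803], nat_lit 0, nat_lit 0, nat_lit 0, nat_lit 0, nat_lit 0, nat_lit 0, [], [nat_lit 86, nat_lit 40, nat_lit 80, nat_lit 80, nat_lit 87, nat_lit 203, nat_lit 0, nat_lit 8]⟩, ⟨p025_k17, nat_lit 0, nat_lit 0, nat_lit 180, nat_lit 0, nat_lit 0, [nat_lit 969264000, nat_lit 2981250000], [], [nat_lit 18318322584, nat_lit 18611436699, nat_lit 20856874608, nat_lit 21097781550], nat_lit 0, nat_lit 0, nat_lit 0, nat_lit 0,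 nat_lit 0, nat_lit 0, [], [nat_lit 69, nat_lit 40, nat_lit 80, nat_lit 80, nat_lit 64, nat_lit 203, nat_lit 0, nat_lit 7]⟩,
 ⟨nat_lit 0, nat_lit 3163, ⟨.ofNat (nat_lit 625100), .ofNat (nat_lit 937693), .ofNat (nat_lit 645949), .ofNat (nat_lit 959849), .ofNat (nat_lit 642170), .ofNat (nat_lit 899997), .ofNat (nat_lit 665865), .ofNat (nat_lit 924998)⟩, ⟨.ofNat (nat_lit 0), .ofNat (nat_lit 0), .ofNat (nat_lit 0), .ofNat (nat_lit 0), .ofNat (nat_lit 0), .ofNat (nat_lit 0), .ofNat (nat_lit 0), .ofNat (nat_lit 0)⟩⟩, []⟩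
noncomputable def p025_l107 : Lf2 := ⟨nat_lit 0, nat_lit 10, [nat_lit 0, nat_lit 5, nat_lit 5, nat_lit 20], true, nat_lit 0, nat_lit 0, nat_lit 0, nat_lit 0, ⟨nat_lit 0, nat_lit 1000, nat_lit 0, nat_lit 8, nat_lit 293, nat_lit 0, nat_lit 0, nat_lit 0, nat_lit 0, nat_lit 0, nat_lit 0, nat_lit 0, nat_lit 43634506, nat_lit 23365494, nat_lit 0, nat_lit 3233311, true, false⟩,
 nat_lit 0, nat_lit 0, nat_lit 0, nat_lit 0, nat_lit 2574, nat_lit 0, nat_lit 0, nat_lit 0, nat_lit 0, nat_lit 0, nat_lit 0, nat_lit 0, nat_lit 0, nat_lit 0, nat_lit 0, nat_lit 400000, nat_lit 0, nat_lit 0, [(nat_lit 24, [(nat_lit 1, nat_lit 1000)]), (nat_lit 27, [(nat_lit 1, nat_lit 1000)])],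
 ⟨p025_k0, nat_lit 0, nat_lit 0, nat_lit 155, nat_lit 0, nat_lit 0, [nat_lit 848000000, nat_lit 997333334, nat_lit 954400000], [], [nat_lit 22181407082, nat_lit 24596002774, nat_lit 26272103982, nat_lit 28475351944], nat_lit 0, nat_lit 0, nat_lit 0, nat_lit 0, nat_lit 0, nat_lit 0, [], [nat_lit 35, nat_lit 40, nat_lit 80, nat_lit 80, nat_lit 22, nat_lit 203, nat_lit 0, nat_lit 8]⟩, C1.Rw.none,
 ⟨nat_lit 0, nat_lit 3163, ⟨.ofNat (nat_lit 625100), .ofNat (nat_lit 815384), .ofNat (nat_lit 645949), .ofNat (nat_lit 836507), .ofNat (nat_lit 642170), .ofNat (nat_lit 799594), .ofNat (nat_lit 665865), .ofNat (nat_lit 823562)⟩, ⟨.ofNat (nat_lit 0), .ofNat (nat_lit 0), .ofNat (nat_lit 0), .ofNat (nat_lit 0), .ofNat (nat_lit 0), .ofNat (nat_lit 0), .ofNat (nat_lit 0), .ofNat (nat_lit 0)⟩⟩, []⟩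
noncomputable def p025_l108 : Lf2 := ⟨nat_lit 0, nat_lit 10, [nat_lit 0, nat_lit 5, nat_lit 5, nat_lit 20], true, nat_lit 0, nat_lit 0, nat_lit 0, nat_lit 0, ⟨nat_lit 0, nat_lit 1000, nat_lit 0, nat_lit 8, nat_lit 350, nat_lit 0, nat_lit 0, nat_lit 0, nat_lit 0, nat_lit 0, nat_lit 0, nat_lit 0, nat_lit 37958263, nat_lit 29041737, nat_lit 0, nat_lit 3421326, true, true⟩,
 nat_lit 0, nat_lit 0, nat_lit 0, nat_lit 0, nat_lit 2429, nat_lit 0, nat_lit 0, nat_lit 0, nat_lit 0, nat_lit 0, nat_lit 0, nat_lit 0, nat_lit 0, nat_lit 0, nat_lit 0, nat_lit 378250, nat_lit 0, nat_lit 0, [(nat_lit 24, [(nat_lit 0, nat_lit 145), (nat_lit 1, nat_lit 855)]), (nat_lit 27, [(nat_lit 0, nat_lit 145), (nat_lit 1, nat_lit 855)])],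
 ⟨p025_k0, nat_lit 0, nat_lit 0, nat_lit 178, nat_lit 0, nat_lit 0, [nat_lit 838256000, nat_lit 1050964001, nat_lit 1063324000], [], [nat_lit 27006460698, nat_lit 28784865929, nat_lit 30262438909, nat_lit 31946789605], nat_lit 0, nat_lit 0, nat_lit 0, nat_lit 0, nat_lit 0, nat_lit 0, [], [nat_lit 35, nat_lit 40, nat_lit 80, nat_lit 80, nat_lit 22, nat_lit 203, nat_lit 0, nat_lit 7]⟩, C1.Rw.none,
 ⟨nat_lit 0, nat_lit 3163, ⟨.ofNat (nat_lit 815384), .ofNat (nat_lit 937693), .ofNat (nat_lit 836507), .ofNat (nat_lit 959849), .ofNat (nat_lit 799594), .ofNat (nat_lit 899997), .ofNat (nat_lit 823562), .ofNat (nat_lit 924998)⟩, ⟨.ofNat (nat_lit 0), .ofNat (nat_lit 0), .ofNat (nat_lit 0), .ofNat (nat_lit 0), .ofNat (nat_lit 0), .ofNat (nat_lit 0), .ofNat (nat_lit 0), .ofNat (nat_lit 0)⟩⟩, [⟨nat_lit 13, nat_lit 57, nat_lit 53, nat_lit 100, nat_lit 58861050⟩, ⟨nat_lit 13, nat_lit 84, nat_lit 21, nat_lit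 100, nat_lit 100422278⟩]⟩
noncomputable def p025_l109 : Lf2 := ⟨nat_lit 0, nat_lit 10, [nat_lit 0, nat_lit 5, nat_lit 5, nat_lit 20], true, nat_lit 0, nat_lit 0, nat_lit 0, nat_lit 0, ⟨nat_lit 0, nat_lit 1000, nat_lit 0, nat_lit 8, nat_lit 315, nat_lit 0, nat_lit 0, nat_lit 0, nat_lit 0, nat_lit 0, nat_lit 0, nat_lit 0, nat_lit 0, nat_lit 0, nat_lit 0, nat_lit 5000000, true, false⟩,
 nat_lit 0, nat_lit 0, nat_lit 0, nat_lit 0, nat_lit 2505, nat_lit 0, nat_lit 0, nat_lit 0, nat_lit 0, nat_lit 0, nat_lit 0, nat_lit 0, nat_lit 0, nat_lit 0, nat_lit 0, nat_lit 380050, nat_lit 0, nat_lit 0, [(nat_lit 24, [(nat_lit 0, nat_lit 133), (nat_lit 1, nat_lit 867)]), (nat_lit 27, [(nat_lit 0, nat_lit 133), (nat_lit 1, nat_lit 867)])],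
 ⟨p025_k0, nat_lit 0, nat_lit 0, nat_lit 178, nat_lit 0, nat_lit 0, [nat_lit 839062400, nat_lit 1046525601, nat_lit 1054309600], [], [nat_lit 23061221102, nat_lit 25267200862, nat_lit 30169651641, nat_lit 32194545380], nat_lit 0, nat_lit 0, nat_lit 0, nat_lit 0, nat_lit 0, nat_lit 0, [], [nat_lit 35, nat_lit 40, nat_lit 80, nat_lit 80, nat_lit 22, nat_lit 203, nat_lit 0, nat_lit 8]⟩, C1.Rw.none,
 ⟨nat_lit 0, nat_lit 3163, ⟨.ofNat (nat_lit 625100), .ofNat (nat_lit 937693), .ofNat (nat_lit 645949), .ofNat (nat_lit 959849), .ofNat (nat_lit 642170), .ofNat (nat_lit 899997), .ofNat (nat_lit 665865), .ofNat (nat_lit 924998)⟩, ⟨.ofNat (nat_lit 0), .ofNat (nat_lit 0), .ofNat (nat_lit 0), .ofNat (nat_lit 0), .ofNat (nat_lit 0), .ofNat (nat_lit 0), .ofNat (nat_lit 0), .ofNat (nat_lit 0)⟩⟩, [⟨nat_lit 13, nat_lit 84, nat_lit 21, nat_lit 100, nat_lit 314033645⟩]⟩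
noncomputable def p025_l110 : Lf2 := ⟨nat_lit 0, nat_lit 5, [nat_lit 4, nat_lit 5, nat_lit 5, nat_lit 20], false, nat_lit 0, nat_lit 0, nat_lit 0, nat_lit 0, ⟨nat_lit 783, nat_lit 0, nat_lit 217, nat_lit 8, nat_lit 318, nat_lit 0, nat_lit 0, nat_lit 0, nat_lit 0, nat_lit 215, nat_lit 648450, nat_lit 200, nat_lit 41059772, nat_lit 0, nat_lit 0, nat_lit 3337320, true, false⟩,
 nat_lit 0, nat_lit 4971, nat_lit 0, nat_lit 0, nat_lit 4329, nat_lit 3929, nat_lit 0, nat_lit 0, nat_lit 0, nat_lit 492, nat_lit 0, nat_lit 0, nat_lit 0, nat_lit 0, nat_lit 0, nat_lit 217000, nat_lit 0, nat_lit 0, [(nat_lit 24, [(nat_lit 6, nat_lit 217)])],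
 ⟨p025_k18, nat_lit 0, nat_lit 0, nat_lit 678, nat_lit 0, nat_lit 1725786, [nat_lit 1027577601, nat_lit 2056036800], [], [nat_lit 32301654225, nat_lit 32590125142, nat_lit 35973394036, nat_lit 36337853552], nat_lit 1271250, nat_lit 1271250, nat_lit 1271250, nat_lit 1271250, nat_lit 0, nat_lit 0, [nat_lit 230000, nat_lit 780000], [nat_lit 66, nat_lit 40, nat_lit 80, nat_lit 80, nat_lit 67, nat_lit 266, nat_lit 0, nat_lit 15]⟩, ⟨p025_k19, nat_lit 0, nat_lit 0, nat_lit 176, nat_lit 0, nat_lit 0, [nat_lit 1591056000, nat_lit 3670704000, nat_lit 4893750000], [], [nat_lit 19732824350, nat_lit 20895004757, nat_lit 27884149980, nat_lit 28628160630], nat_lit 0, nat_lit 0, nat_lit 0, nat_lit 0, nat_lit 0, nat_lit 0, [], [nat_lit 6, nat_lit 40, nat_lit 80, nat_lit 80, nat_lit 3, nat_lit 203, nat_lit 0, nat_lit 7]⟩,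
 ⟨nat_lit 2738, nat_lit 3163, ⟨.ofNat (nat_lit 632856), .ofNat (nat_lit 937695), .ofNat (nat_lit 654999), .ofNat (nat_lit 959850), .ofNat (nat_lit 634431), .ofNat (nat_lit 929809), .ofNat (nat_lit 656837), .ofNat (nat_lit 952227)⟩, ⟨.ofNat (nat_lit 0), .ofNat (nat_lit 0), .ofNat (nat_lit 0), .ofNat (nat_lit 0), .ofNat (nat_lit 0), .ofNat (nat_lit 0), .ofNat (nat_lit 0), .ofNat (nat_lit 0)⟩⟩, [⟨nat_lit 0, nat_lit 73, nat_lit 54, nat_lit 100, nat_lit 60651057⟩]⟩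
noncomputable def p025_l111 : Lf2 := ⟨nat_lit 0, nat_lit 5, [nat_lit 4, nat_lit 5, nat_lit 5, nat_lit 20], false, nat_lit 0, nat_lit 0, nat_lit 0, nat_lit 0, ⟨nat_lit 1000, nat_lit 0, nat_lit 0, nat_lit 0, nat_lit 0, nat_lit 0, nat_lit 0, nat_lit 0, nat_lit 0, nat_lit 0, nat_lit 0, nat_lit 0, nat_lit 0, nat_lit 0, nat_lit 0, nat_lit 0, false, false⟩,
 nat_lit 0, nat_lit 4801, nat_lit 0, nat_lit 0, nat_lit 4332, nat_lit 4715, nat_lit 0, nat_lit 0, nat_lit 0, nat_lit 0, nat_lit 0, nat_lit 0, nat_lit 0, nat_lit 0, nat_lit 0, nat_lit 0, nat_lit 0, nat_lit 0, [],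
 ⟨p025_k20, nat_lit 0, nat_lit 0, nat_lit 672, nat_lit 0, nat_lit 1705792, [nat_lit 938000000, nat_lit 3282000000], [], [nat_lit 30006794442, nat_lit 30418437116, nat_lit 36077877808, nat_lit 36721358579], nat_lit 1271250, nat_lit 1271250, nat_lit 1271250, nat_lit 1271250, nat_lit 0, nat_lit 0, [nat_lit 230000, nat_lit 780000], [nat_lit 66, nat_lit 40, nat_lit 80, nat_lit 80, nat_lit 67, nat_lit 265, nat_lit 0, nat_lit 14]⟩, ⟨p025_k21, nat_lit 0, nat_lit 0, nat_lit 177, nat_lit 0, nat_lit 0, [nat_lit 2032000000, nat_lit 6250000000], [], [nat_lit 30994499950, nat_lit 32294464624, nat_lit 39228372358, nat_lit 40056228110], nat_lit 0, nat_lit 0, nat_lit 0, nat_lit 0, nat_lit 0, nat_lit 0, [], [nat_lit 69, nat_lit 40, nat_lit 80, nat_lit 80, nat_lit 64, nat_lit 203, nat_lit 0, nat_lit 7]⟩,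
 zbF0, []⟩
noncomputable def p025_l112 : Lf2 := ⟨nat_lit 0, nat_lit 10, [nat_lit 0, nat_lit 5, nat_lit 5, nat_lit 20], false, nat_lit 0, nat_lit 0, nat_lit 0, nat_lit 0, ⟨nat_lit 780, nat_lit 0, nat_lit 220, nat_lit 8, nat_lit 317, nat_lit 0, nat_lit 0, nat_lit 0, nat_lit 0, nat_lit 215, nat_lit 648450, nat_lit 200, nat_lit 41122382, nat_lit 0, nat_lit 0, nat_lit 3335165, true, false⟩,
 nat_lit 0, nat_lit 4818, nat_lit 0, nat_lit 0, nat_lit 4196, nat_lit 3914, nat_lit 136, nat_lit 0, nat_lit 0, nat_lit 490, nat_lit 0, nat_lit 0, nat_lit 0, nat_lit 0, nat_lit 0, nat_lit 220000, nat_lit 0, nat_lit 0, [(nat_lit 24, [(nat_lit 6, nat_lit 220)])],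
 ⟨p025_k0, nat_lit 0, nat_lit 0, nat_lit 700, nat_lit 0, nat_lit 1594417, [nat_lit 1028816001, nat_lit 2067365334, nat_lit 2579696000], [], [nat_lit 32414645437, nat_lit 33004388559, nat_lit 36110196076, nat_lit 36570407308], nat_lit 1271250, nat_lit 1271250, nat_lit 1271250, nat_lit 1271250, nat_lit 0, nat_lit 0, [nat_lit 230000, nat_lit 780000, nat_lit 1100000], [nat_lit 35, nat_lit 40, nat_lit 80, nat_lit 80, nat_lit 22, nat_lit 273, nat_lit 0, nat_lit 12]⟩, ⟨p025_k22, nat_lit 0, nat_lit 0, nat_lit 176, nat_lit 0, nat_lit 0, [nat_lit 1584960000, nat_lit 3656640000, nat_lit 4875000000], [], [nat_lit 19657627480, nat_lit 20815363876, nat_lit 27777311664, nat_lit 28518475968], nat_lit 0, nat_lit 0, nat_lit 0, nat_lit 0, nat_lit 0, nat_lit 0, [], [nat_lit 6, nat_lit 40, nat_lit 80, nat_lit 80, nat_lit 3, nat_lit 203, nat_lit 0, nat_lit 7]⟩,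
 ⟨nat_lit 2236, nat_lit 3163, ⟨.ofNat (nat_lit 632548), .ofNat (nat_lit 937695), .ofNat (nat_lit 654639), .ofNat (nat_lit 959850), .ofNat (nat_lit 636264), .ofNat (nat_lit 921722), .ofNat (nat_lit 658975), .ofNat (nat_lit 944496)⟩, ⟨.ofNat (nat_lit 0), .ofNat (nat_lit 0), .ofNat (nat_lit 0), .ofNat (nat_lit 0), .ofNat (nat_lit 0), .ofNat (nat_lit 0), .ofNat (nat_lit 0), .ofNat (nat_lit 0)⟩⟩, [⟨nat_lit 0, nat_lit 75, nat_lit 46, nat_lit 100, nat_lit 49289924⟩]⟩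
noncomputable def p025_l113 : Lf2 := ⟨nat_lit 0, nat_lit 10, [nat_lit 0, nat_lit 5, nat_lit 5, nat_lit 20], false, nat_lit 0, nat_lit 0, nat_lit 0, nat_lit 0, ⟨nat_lit 1000, nat_lit 0, nat_lit 0, nat_lit 0, nat_lit 0, nat_lit 0, nat_lit 0, nat_lit 0, nat_lit 0, nat_lit 0, nat_lit 0, nat_lit 0, nat_lit 0, nat_lit 0, nat_lit 0, nat_lit 0, false, false⟩,
 nat_lit 0, nat_lit 4306, nat_lit 0, nat_lit 0, nat_lit 4023, nat_lit 0, nat_lit 350, nat_lit 0, nat_lit 0, nat_lit 626, nat_lit 0, nat_lit 0, nat_lit 0, nat_lit 0, nat_lit 0, nat_lit 0, nat_lit 0, nat_lit 0, [],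
 ⟨p025_k2, nat_lit 0, nat_lit 0, nat_lit 713, nat_lit 0, nat_lit 1799539, [nat_lit 938000000, nat_lit 3282000000], [], [nat_lit 32220388332, nat_lit 32970795293, nat_lit 36189654001, nat_lit 36761354915], nat_lit 1271250, nat_lit 1271250, nat_lit 1271250, nat_lit 1271250, nat_lit 0, nat_lit 0, [nat_lit 230000, nat_lit 780000], [nat_lit 66, nat_lit 40, nat_lit 80, nat_lit 80, nat_lit 67, nat_lit 278, nat_lit 0, nat_lit 15]⟩, ⟨p025_k22, nat_lit 0, nat_lit 0, nat_lit 173, nat_lit 0, nat_lit 0, [nat_lit 2032000000, nat_lit 4688000000, nat_lit 6250000000], [], [nat_lit 34287529400, nat_lit 34902468300, nat_lit 38736332400, nat_lit 39274123600], nat_lit 0, nat_lit 0, nat_lit 0, nat_lit 0, nat_lit 0, nat_lit 0, [], [nat_lit 6, nat_lit 40, nat_lit 80, nat_lit 80, nat_lit 3, nat_lit 203, nat_lit 0, nat_lit 7]⟩,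
 zbF0, [⟨nat_lit 0, nat_lit 82, nat_lit 34, nat_lit 100, nat_lit 425248459⟩]⟩
noncomputable def p025_l114 : Lf2 := ⟨nat_lit 0, nat_lit 10, [nat_lit 0, nat_lit 5, nat_lit 5, nat_lit 20], false, nat_lit 0, nat_lit 0, nat_lit 0, nat_lit 0, ⟨nat_lit 1000, nat_lit 0, nat_lit 0, nat_lit 0, nat_lit 0, nat_lit 0, nat_lit 0, nat_lit 0, nat_lit 0, nat_lit 0, nat_lit 0, nat_lit 0, nat_lit 0, nat_lit 0, nat_lit 0, nat_lit 0, false, false⟩,
 nat_lit 8108, nat_lit 0, nat_lit 0, nat_lit 0, nat_lit 5501, nat_lit 6081, nat_lit 306, nat_lit 0, nat_lit 0, nat_lit 468, nat_lit 0, nat_lit 0, nat_lit 0, nat_lit 0, nat_lit 0, nat_lit 0, nat_lit 0, nat_lit 0, [],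
 ⟨p025_k0, nat_lit 0, nat_lit 0, nat_lit 457, nat_lit 0, nat_lit 954996, [nat_lit 938000000, nat_lit 3282000000, nat_lit 4688000000], [], [nat_lit 29709075490, nat_lit 31803113854, nat_lit 39259580292, nat_lit 42126513076], nat_lit 1271250, nat_lit 1271250, nat_lit 1271250, nat_lit 1271250, nat_lit 0, nat_lit 0, [nat_lit 230000, nat_lit 780000, nat_lit 1100000], [nat_lit 35, nat_lit 40, nat_lit 80, nat_lit 80, nat_lit 22, nat_lit 215, nat_lit 0, nat_lit 9]⟩, ⟨p025_k22, nat_lit 0, nat_lit 0, nat_lit 564, nat_lit 0, nat_lit 1121521, [nat_lit 2032000000, nat_lit 4688000000, nat_lit 6250000000], [], [nat_lit 33850413888, nat_lit 34549295702, nat_lit 39122336748, nat_lit 39655605298], nat_lit 1271250, nat_lit 1271250, nat_lit 1271250, nat_lit 1271250, nat_lit 0, nat_lit 0, [nat_lit 490000, nat_lit 1100000, nat_lit 1442500], [nat_lit 6, nat_lit 40, nat_lit 80, nat_lit 80, nat_lit 3, nat_lit 234,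 nat_lit 0, nat_lit 8]⟩,
 zbF0, []⟩
noncomputable def p025_l115 : Lf2 := ⟨nat_lit 0, nat_lit 5, [nat_lit 4, nat_lit 5, nat_lit 5, nat_lit 20], false, nat_lit 0, nat_lit 0, nat_lit 0, nat_lit 0, ⟨nat_lit 727, nat_lit 273, nat_lit 0, nat_lit 8, nat_lit 318, nat_lit 0, nat_lit 0, nat_lit 0, nat_lit 0, nat_lit 0, nat_lit 0, nat_lit 0, nat_lit 0, nat_lit 0, nat_lit 0, nat_lit 5000000, true, false⟩,
 nat_lit 0, nat_lit 5191, nat_lit 0, nat_lit 0, nat_lit 4521, nat_lit 3652, nat_lit 0, nat_lit 0, nat_lit 0, nat_lit 458, nat_lit 0, nat_lit 0, nat_lit 0, nat_lit 0, nat_lit 0, nat_lit 273000, nat_lit 0, nat_lit 0, [(nat_lit 24, [(nat_lit 2, nat_lit 273)])],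
 ⟨p025_k18, nat_lit 0, nat_lit 0, nat_lit 678, nat_lit 0, nat_lit 1725786, [nat_lit 1082690000, nat_lit 2229858000], [], [nat_lit 32951373678, nat_lit 33243813811, nat_lit 36459176612, nat_lit 36933915248], nat_lit 1271250, nat_lit 1271250, nat_lit 1271250, nat_lit 1271250, nat_lit 0, nat_lit 0, [nat_lit 230000, nat_lit 780000], [nat_lit 66, nat_lit 40, nat_lit 80, nat_lit 80, nat_lit 67, nat_lit 266, nat_lit 0, nat_lit 15]⟩, ⟨p025_k19, nat_lit 0, nat_lit 0, nat_lit 176, nat_lit 0, nat_lit 0, [nat_lit 1477264000, nat_lit 3408176000, nat_lit 4543750000], [], [nat_lit 18312910670, nat_lit 19395610524, nat_lit 25889695356, nat_lit 26585838666], nat_lit 0, nat_lit 0, nat_lit 0, nat_lit 0, nat_lit 0, nat_lit 0, [], [nat_lit 6, nat_lit 40, nat_lit 80, nat_lit 80, nat_lit 3, nat_lit 203, nat_lit 0, nat_lit 7]⟩,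
 ⟨nat_lit 2738, nat_lit 3163, ⟨.ofNat (nat_lit 632856), .ofNat (nat_lit 937695), .ofNat (nat_lit 654999), .ofNat (nat_lit 959850), .ofNat (nat_lit 634431), .ofNat (nat_lit 929809), .ofNat (nat_lit 656837), .ofNat (nat_lit 952227)⟩, ⟨.ofNat (nat_lit 0), .ofNat (nat_lit 0), .ofNat (nat_lit 0), .ofNat (nat_lit 0), .ofNat (nat_lit 0), .ofNat (nat_lit 0), .ofNat (nat_lit 0), .ofNat (nat_lit 0)⟩⟩, []⟩
noncomputable def p025_l116 : Lf2 := ⟨nat_lit 0, nat_lit 5, [nat_lit 4, nat_lit 5, nat_lit 5, nat_lit 20], false, nat_lit 0, nat_lit 0, nat_lit 0, nat_lit 0, ⟨nat_lit 1000, nat_lit 0, nat_lit 0, nat_lit 0, nat_lit 0, nat_lit 0, nat_lit 0, nat_lit 0, nat_lit 0, nat_lit 0, nat_lit 0, nat_lit 0, nat_lit 0, nat_lit 0, nat_lit 0, nat_lit 0, false, false⟩,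
 nat_lit 0, nat_lit 4477, nat_lit 0, nat_lit 0, nat_lit 4040, nat_lit 0, nat_lit 644, nat_lit 0, nat_lit 0, nat_lit 630, nat_lit 0, nat_lit 0, nat_lit 0, nat_lit 0, nat_lit 0, nat_lit 0, nat_lit 0, nat_lit 0, [],
 ⟨p025_k20, nat_lit 0, nat_lit 0, nat_lit 672, nat_lit 0, nat_lit 1705792, [nat_lit 938000000, nat_lit 3282000000], [], [nat_lit 30841141853, nat_lit 31240587745, nat_lit 35517225484, nat_lit 35809537960], nat_lit 1271250, nat_lit 1271250, nat_lit 1271250, nat_lit 1271250, nat_lit 0, nat_lit 0, [nat_lit 230000, nat_lit 780000], [nat_lit 66, nat_lit 40, nat_lit 80, nat_lit 80, nat_lit 67, nat_lit 265, nat_lit 0, nat_lit 14]⟩, ⟨p025_k19, nat_lit 0, nat_lit 0, nat_lit 175, nat_lit 0, nat_lit 0, [nat_lit 2032000000, nat_lit 4688000000, nat_lit 6250000000], [], [nat_lit 33763756400, nat_lit 34390866200, nat_lit 38853832200, nat_lit 39389116800], nat_lit 0, nat_lit 0, nat_lit 0, nat_lit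 0, nat_lit 0, nat_lit 0, [], [nat_lit 6, nat_lit 40, nat_lit 80, nat_lit 80, nat_lit 3, nat_lit 203, nat_lit 0, nat_lit 7]⟩,
 zbF0, [⟨nat_lit 0, nat_lit 75, nat_lit 46, nat_lit 100, nat_lit 391994812⟩]⟩
noncomputable def p025_l117 : Lf2 := ⟨nat_lit 0, nat_lit 10, [nat_lit 0, nat_lit 5, nat_lit 5, nat_lit 20], false, nat_lit 0, nat_lit 0, nat_lit 0, nat_lit 0, ⟨nat_lit 726, nat_lit 274, nat_lit 0, nat_lit 8, nat_lit 317, nat_lit 0, nat_lit 0, nat_lit 0, nat_lit 0, nat_lit 0, nat_lit 0, nat_lit 0, nat_lit 0, nat_lit 0, nat_lit 0, nat_lit 5000000, true, false⟩,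
 nat_lit 0, nat_lit 5046, nat_lit 0, nat_lit 0, nat_lit 4394, nat_lit 3645, nat_lit 144, nat_lit 0, nat_lit 0, nat_lit 402, nat_lit 0, nat_lit 0, nat_lit 0, nat_lit 0, nat_lit 0, nat_lit 274000, nat_lit 0, nat_lit 0, [(nat_lit 24, [(nat_lit 2, nat_lit 274)])],
 ⟨p025_k0, nat_lit 0, nat_lit 0, nat_lit 700, nat_lit 0, nat_lit 1594417, [nat_lit 1083220000, nat_lit 2253184800, nat_lit 2830499200], [], [nat_lit 33139649444, nat_lit 33734474026, nat_lit 36757771424, nat_lit 37189438744], nat_lit 1271250, nat_lit 1271250, nat_lit 1271250, nat_lit 1271250, nat_lit 0, nat_lit 0, [nat_lit 230000, nat_lit 780000, nat_lit 1100000], [nat_lit 35, nat_lit 40, nat_lit 80, nat_lit 80, nat_lit 22, nat_lit 273, nat_lit 0, nat_lit 12]⟩, ⟨p025_k22, nat_lit 0, nat_lit 0, nat_lit 176, nat_lit 0, nat_lit 0, [nat_lit 1475232000, nat_lit 3403488000, nat_lit 4537500000], [], [nat_lit 18511115340, nat_lit 19589023362,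 nat_lit 25854175512, nat_lit 26544185184], nat_lit 0, nat_lit 0, nat_lit 0, nat_lit 0, nat_lit 0, nat_lit 0, [], [nat_lit 6, nat_lit 40, nat_lit 80, nat_lit 80, nat_lit 3, nat_lit 203, nat_lit 0, nat_lit 7]⟩,
 ⟨nat_lit 2236, nat_lit 3163, ⟨.ofNat (nat_lit 632548), .ofNat (nat_lit 937695), .ofNat (nat_lit 654639), .ofNat (nat_lit 959850), .ofNat (nat_lit 636264), .ofNat (nat_lit 921722), .ofNat (nat_lit 658975), .ofNat (nat_lit 944496)⟩, ⟨.ofNat (nat_lit 0), .ofNat (nat_lit 0), .ofNat (nat_lit 0), .ofNat (nat_lit 0), .ofNat (nat_lit 0), .ofNat (nat_lit 0), .ofNat (nat_lit 0), .ofNat (nat_lit 0)⟩⟩, []⟩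
noncomputable def p025_l118 : Lf2 := ⟨nat_lit 0, nat_lit 10, [nat_lit 0, nat_lit 5, nat_lit 5, nat_lit 20], false, nat_lit 0, nat_lit 0, nat_lit 0, nat_lit 0, ⟨nat_lit 1000, nat_lit 0, nat_lit 0, nat_lit 0, nat_lit 0, nat_lit 0, nat_lit 0, nat_lit 0, nat_lit 0, nat_lit 0, nat_lit 0, nat_lit 0, nat_lit 0, nat_lit 0, nat_lit 0, nat_lit 0, false, false⟩,
 nat_lit 0, nat_lit 4244, nat_lit 0, nat_lit 0, nat_lit 3965, nat_lit 0, nat_lit 562, nat_lit 0, nat_lit 0, nat_lit 423, nat_lit 0, nat_lit 0, nat_lit 0, nat_lit 0, nat_lit 0, nat_lit 0, nat_lit 0, nat_lit 0, [],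
 ⟨p025_k2, nat_lit 0, nat_lit 0, nat_lit 713, nat_lit 0, nat_lit 1799539, [nat_lit 938000000, nat_lit 3282000000], [], [nat_lit 31737654487, nat_lit 32483690615, nat_lit 35963264439, nat_lit 36577332446], nat_lit 1271250, nat_lit 1271250, nat_lit 1271250, nat_lit 1271250, nat_lit 0, nat_lit 0, [nat_lit 230000, nat_lit 780000], [nat_lit 66, nat_lit 40, nat_lit 80, nat_lit 80, nat_lit 67, nat_lit 278, nat_lit 0, nat_lit 15]⟩, ⟨p025_k22, nat_lit 0, nat_lit 0, nat_lit 173, nat_lit 0, nat_lit 0, [nat_lit 2032000000, nat_lit 4688000000, nat_lit 6250000000], [], [nat_lit 35099529400, nat_lit 35714468300, nat_lit 39437125200, nat_lit 39960372000], nat_lit 0, nat_lit 0, nat_lit 0, nat_lit 0, nat_lit 0, nat_lit 0, [], [nat_lit 6, nat_lit 40, nat_lit 80, nat_lit 80, nat_lit 3, nat_lit 203, nat_lit 0, nat_lit 7]⟩,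
 zbF0, [⟨nat_lit 0, nat_lit 82, nat_lit 34, nat_lit 100, nat_lit 404919559⟩]⟩
noncomputable def p025_l119 : Lf2 := ⟨nat_lit 0, nat_lit 10, [nat_lit 0, nat_lit 5, nat_lit 5, nat_lit 20], false, nat_lit 0, nat_lit 0, nat_lit 0, nat_lit 0, ⟨nat_lit 533, nat_lit 467, nat_lit 0, nat_lit 8, nat_lit 315, nat_lit 0, nat_lit 0, nat_lit 0, nat_lit 0, nat_lit 0, nat_lit 0, nat_lit 0, nat_lit 0, nat_lit 0, nat_lit 0, nat_lit 5000000, true, false⟩,
 nat_lit 4184, nat_lit 0, nat_lit 0, nat_lit 0, nat_lit 3644, nat_lit 3138, nat_lit 0, nat_lit 0, nat_lit 0, nat_lit 209, nat_lit 0, nat_lit 0, nat_lit 0, nat_lit 0, nat_lit 0, nat_lit 344000, nat_lit 0, nat_lit 0, [(nat_lit 24, [(nat_lit 1, nat_lit 205), (nat_lit 2, nat_lit 262)]), (nat_lit 27, [(nat_lit 1, nat_lit 205), (nat_lit 2, nat_lit 262)])],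
 ⟨p025_k0, nat_lit 0, nat_lit 0, nat_lit 457, nat_lit 0, nat_lit 954996, [nat_lit 1058410001, nat_lit 1829885734, nat_lit 2146461600], [], [nat_lit 29200271334, nat_lit 30840111374, nat_lit 34664096875, nat_lit 35970416944], nat_lit 1271250, nat_lit 1271250, nat_lit 1271250, nat_lit 1271250, nat_lit 0, nat_lit 0, [nat_lit 230000, nat_lit 780000, nat_lit 1100000], [nat_lit 35, nat_lit 40, nat_lit 80, nat_lit 80, nat_lit 22, nat_lit 215, nat_lit 0, nat_lit 9]⟩, ⟨p025_k22, nat_lit 0, nat_lit 0, nat_lit 564, nat_lit 0, nat_lit 1121521, [nat_lit 1083056000, nat_lit 2498704000, nat_lit 3331250000], [], [nat_lit 18926368180, nat_lit 19270171271, nat_lit 21298121072, nat_lit 21561225532], nat_lit 1271250, nat_lit 1271250, nat_lit 1271250, nat_lit 1271250, nat_lit 0, nat_lit 0, [nat_lit 490000, nat_lit 1100000, nat_lit 1442500], [nat_lit 6, nat_lit 40, nat_lit 80, nat_lit 80, nat_lit 3, nat_lit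 234, nat_lit 0, nat_lit 8]⟩,
 ⟨nat_lit 0, nat_lit 3163, ⟨.ofNat (nat_lit 625100), .ofNat (nat_lit 937693), .ofNat (nat_lit 645949), .ofNat (nat_lit 959849), .ofNat (nat_lit 642170), .ofNat (nat_lit 899997), .ofNat (nat_lit 665865), .ofNat (nat_lit 924998)⟩, ⟨.ofNat (nat_lit 0), .ofNat (nat_lit 0), .ofNat (nat_lit 0), .ofNat (nat_lit 0), .ofNat (nat_lit 0), .ofNat (nat_lit 0), .ofNat (nat_lit 0), .ofNat (nat_lit 0)⟩⟩, [⟨nat_lit 13, nat_lit 84, nat_lit 21, nat_lit 100, nat_lit 29116200⟩]⟩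
noncomputable def b_N_900_800_0_0 : St := ⟨false, nat_lit 2, nat_lit 2, nat_lit 0, nat_lit 40, nat_lit 360, nat_lit 400, nat_lit 320, nat_lit 340, nat_lit 200, nat_lit 400, nat_lit 0, nat_lit 0, nat_lit 0, nat_lit 0, nat_lit 0, nat_lit 0, nat_lit 0, nat_lit 40, nat_lit 0, nat_lit 0, nat_lit 0, nat_lit 0⟩
theorem d_N_900_800_0_0 (h : EB TB.env) : Dead b_N_900_800_0_0 := chkB_sound0 h (T :=
(.st (nat_lit 0)
(.gv
(.st (nat_lit 1)
(.leaf p025_l106)
(.spl (nat_lit 2) (nat_lit 320)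
(.leaf p025_l107)
(.leaf p025_l108)))
(.leaf p025_l109))
(.gv
(.st (nat_lit 1)
(.spl (nat_lit 0) (nat_lit 380)
(.spl (nat_lit 6) (nat_lit 20)
(.spl (nat_lit 0) (nat_lit 370)
(.leaf p025_l110)
(.trZ (nat_lit 0) (nat_lit 80) (nat_lit 53) (nat_lit 100) (nat_lit 216) (.trX (nat_lit 13) (nat_lit 74) (nat_lit 33) (nat_lit 100) (nat_lit 396) (.leaf p025_l111))))
(.leaf p025_l112))
(.trZ (nat_lit 0) (nat_lit 82) (nat_lit 44) (nat_lit 100) (nat_lit 236) (.trX (nat_lit 13) (nat_lit 61) (nat_lit 47) (nat_lit 100) (nat_lit 392) (.leaf p025_l113))))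
(.leaf p025_l114))
(.st (nat_lit 1)
(.spl (nat_lit 0) (nat_lit 380)
(.spl (nat_lit 6) (nat_lit 20)
(.spl (nat_lit 0) (nat_lit 370)
(.leaf p025_l115)
(.trZ (nat_lit 0) (nat_lit 80) (nat_lit 53) (nat_lit 100) (nat_lit 216) (.trX (nat_lit 13) (nat_lit 74) (nat_lit 33) (nat_lit 100) (nat_lit 396) (.leaf p025_l116))))
(.leaf p025_l117))
(.trZ (nat_lit 0) (nat_lit 82) (nat_lit 44) (nat_lit 100) (nat_lit 236) (.trX (nat_lit 13) (nat_lit 61) (nat_lit 47) (nat_lit 100) (nat_lit 392) (.leaf p025_l118))))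
(.leaf p025_l119))))) (by decide +kernel)
noncomputable def p025_l120 : Lf2 := ⟨nat_lit 0, nat_lit 10, [nat_lit 0, nat_lit 5, nat_lit 5, nat_lit 20], false, nat_lit 0, nat_lit 0, nat_lit 0, nat_lit 0, ⟨nat_lit 715, nat_lit 0, nat_lit 285, nat_lit 8, nat_lit 315, nat_lit 0, nat_lit 0, nat_lit 0, nat_lit 0, nat_lit 215, nat_lit 648448, nat_lit 200, nat_lit 41345891, nat_lit 0, nat_lit 0, nat_lit 3327322, true, false⟩,
 nat_lit 0, nat_lit 0, nat_lit 0, nat_lit 0, nat_lit 0, nat_lit 0, nat_lit 0, nat_lit 0, nat_lit 0, nat_lit 0, nat_lit 0, nat_lit 0, nat_lit 0, nat_lit 0, nat_lit 0, nat_lit 47025, nat_lit 0, nat_lit 0, [(nat_lit 24, [(nat_lit 3, nat_lit 285)]), (nat_lit 27, [(nat_lit 3, nat_lit 285)])],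
 ⟨p025_k6, nat_lit 0, nat_lit 0, nat_lit 173, nat_lit 0, nat_lit 0, [nat_lit 1932878000, nat_lit 3174080000], [], [nat_lit 37155570000, nat_lit 38530940000, nat_lit 42698624000, nat_lit 43810904000], nat_lit 0, nat_lit 0, nat_lit 0, nat_lit 0, nat_lit 0, nat_lit 0, [], [nat_lit 86, nat_lit 40, nat_lit 80, nat_lit 80, nat_lit 87, nat_lit 203, nat_lit 0, nat_lit 8]⟩, ⟨p025_k17, nat_lit 0, nat_lit 0, nat_lit 180, nat_lit 0, nat_lit 0, [nat_lit 1452880000, nat_lit 4468750000], [], [nat_lit 27458282280, nat_lit 27897646205, nat_lit 31263449360, nat_lit 31624557250], nat_lit 0, nat_lit 0, nat_lit 0, nat_lit 0, nat_lit 0, nat_lit 0, [], [nat_lit 69, nat_lit 40, nat_lit 80, nat_lit 80, nat_lit 64, nat_lit 203, nat_lit 0, nat_lit 7]⟩,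
 ⟨nat_lit 0, nat_lit 3163, ⟨.ofNat (nat_lit 625100), .ofNat (nat_lit 937693), .ofNat (nat_lit 645949), .ofNat (nat_lit 959849), .ofNat (nat_lit 642170), .ofNat (nat_lit 899997), .ofNat (nat_lit 665865), .ofNat (nat_lit 924998)⟩, ⟨.ofNat (nat_lit 0), .ofNat (nat_lit 0), .ofNat (nat_lit 0), .ofNat (nat_lit 0), .ofNat (nat_lit 0), .ofNat (nat_lit 0), .ofNat (nat_lit 0), .ofNat (nat_lit 0)⟩⟩, []⟩
noncomputable def p025_l121 : Lf2 := ⟨nat_lit 0, nat_lit 10, [nat_lit 0, nat_lit 5, nat_lit 5, nat_lit 20], true, nat_lit 0, nat_lit 0, nat_lit 0, nat_lit 0, ⟨nat_lit 0, nat_lit 1000, nat_lit 0, nat_lit 8, nat_lit 293, nat_lit 0, nat_lit 0, nat_lit 0, nat_lit 0, nat_lit 0, nat_lit 0, nat_lit 0, nat_lit 43634506, nat_lit 23365494, nat_lit 0, nat_lit 3233311, true, false⟩,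
 nat_lit 0, nat_lit 0, nat_lit 0, nat_lit 0, nat_lit 2755, nat_lit 0, nat_lit 100, nat_lit 0, nat_lit 0, nat_lit 0, nat_lit 0, nat_lit 0, nat_lit 0, nat_lit 0, nat_lit 0, nat_lit 250000, nat_lit 0, nat_lit 0, [(nat_lit 24, [(nat_lit 0, nat_lit 1000)]), (nat_lit 27, [(nat_lit 0, nat_lit 1000)])],
 ⟨p025_k0, nat_lit 0, nat_lit 0, nat_lit 155, nat_lit 0, nat_lit 0, [nat_lit 780800001, nat_lit 1367200000, nat_lit 1705600000], [], [nat_lit 22747200831, nat_lit 25171631280, nat_lit 26759025681, nat_lit 28981745780], nat_lit 0, nat_lit 0, nat_lit 0, nat_lit 0, nat_lit 0, nat_lit 0, [], [nat_lit 35, nat_lit 40, nat_lit 80, nat_lit 80, nat_lit 22, nat_lit 203, nat_lit 0, nat_lit 8]⟩, C1.Rw.none,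
 ⟨nat_lit 0, nat_lit 3163, ⟨.ofNat (nat_lit 625100), .ofNat (nat_lit 815384), .ofNat (nat_lit 645949), .ofNat (nat_lit 836507), .ofNat (nat_lit 642170), .ofNat (nat_lit 799594), .ofNat (nat_lit 665865), .ofNat (nat_lit 823562)⟩, ⟨.ofNat (nat_lit 0), .ofNat (nat_lit 0), .ofNat (nat_lit 0), .ofNat (nat_lit 0), .ofNat (nat_lit 0), .ofNat (nat_lit 0), .ofNat (nat_lit 0), .ofNat (nat_lit 0)⟩⟩, []⟩
noncomputable def p025_l122 : Lf2 := ⟨nat_lit 0, nat_lit 10, [nat_lit 0, nat_lit 5, nat_lit 5, nat_lit 20], true, nat_lit 0, nat_lit 0, nat_lit 0, nat_lit 0, ⟨nat_lit 0, nat_lit 1000, nat_lit 0, nat_lit 8, nat_lit 339, nat_lit 0, nat_lit 0, nat_lit 0, nat_lit 0, nat_lit 0, nat_lit 0, nat_lit 0, nat_lit 39013786, nat_lit 27986214, nat_lit 0, nat_lit 3397700, true, true⟩,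
 nat_lit 0, nat_lit 0, nat_lit 0, nat_lit 0, nat_lit 2583, nat_lit 0, nat_lit 0, nat_lit 0, nat_lit 0, nat_lit 0, nat_lit 0, nat_lit 0, nat_lit 0, nat_lit 0, nat_lit 0, nat_lit 340450, nat_lit 0, nat_lit 0, [(nat_lit 24, [(nat_lit 0, nat_lit 397), (nat_lit 1, nat_lit 603)]), (nat_lit 27, [(nat_lit 0, nat_lit 397), (nat_lit 1, nat_lit 603)])],
 ⟨p025_k0, nat_lit 0, nat_lit 0, nat_lit 168, nat_lit 0, nat_lit 0, [nat_lit 821321600, nat_lit 1144170400, nat_lit 1252626400], [], [nat_lit 27123403592, nat_lit 28938087796, nat_lit 28747140672, nat_lit 30479032420], nat_lit 0, nat_lit 0, nat_lit 0, nat_lit 0, nat_lit 0, nat_lit 0, [], [nat_lit 35, nat_lit 40, nat_lit 80, nat_lit 80, nat_lit 22, nat_lit 203, nat_lit 0, nat_lit 7]⟩, C1.Rw.none,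
 ⟨nat_lit 0, nat_lit 3163, ⟨.ofNat (nat_lit 815384), .ofNat (nat_lit 876741), .ofNat (nat_lit 836507), .ofNat (nat_lit 898896), .ofNat (nat_lit 799594), .ofNat (nat_lit 849999), .ofNat (nat_lit 823562), .ofNat (nat_lit 874999)⟩, ⟨.ofNat (nat_lit 0), .ofNat (nat_lit 0), .ofNat (nat_lit 0), .ofNat (nat_lit 0), .ofNat (nat_lit 0), .ofNat (nat_lit 0), .ofNat (nat_lit 0), .ofNat (nat_lit 0)⟩⟩, []⟩
noncomputable def p025_l123 : Lf2 := ⟨nat_lit 0, nat_lit 10, [nat_lit 0, nat_lit 5, nat_lit 5, nat_lit 20], false, nat_lit 0, nat_lit 0, nat_lit 0, nat_lit 0, ⟨nat_lit 154, nat_lit 846, nat_lit 0, nat_lit 9, nat_lit 363, nat_lit 0, nat_lit 0, nat_lit 0, nat_lit 0, nat_lit 0, nat_lit 0, nat_lit 0, nat_lit 36722534, nat_lit 30277466, nat_lit 0, nat_lit 3442565, true, true⟩,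
 nat_lit 0, nat_lit 0, nat_lit 1368, nat_lit 0, nat_lit 2705, nat_lit 1025, nat_lit 89, nat_lit 0, nat_lit 0, nat_lit 50, nat_lit 0, nat_lit 0, nat_lit 0, nat_lit 0, nat_lit 0, nat_lit 263700, nat_lit 0, nat_lit 0, [(nat_lit 24, [(nat_lit 0, nat_lit 498), (nat_lit 1, nat_lit 348)])],
 ⟨p025_k0, nat_lit 0, nat_lit 0, nat_lit 167, nat_lit 0, nat_lit 0, [nat_lit 819629600, nat_lit 1533365600, nat_lit 1903472000], [], [nat_lit 29064725170, nat_lit 29286627905, nat_lit 30613696216, nat_lit 30817786050], nat_lit 0, nat_lit 0, nat_lit 0, nat_lit 0, nat_lit 0, nat_lit 0, [], [nat_lit 35, nat_lit 40, nat_lit 80, nat_lit 80, nat_lit 22, nat_lit 203, nat_lit 0, nat_lit 7]⟩, ⟨p025_k22, nat_lit 0, nat_lit 0, nat_lit 802, nat_lit 0, nat_lit 1704001, [nat_lit 312928000, nat_lit 721952000, nat_lit 962500000], [], [nat_lit 6124578584, nat_lit 6145107584, nat_lit 6216997946, nat_lit 6234961797], nat_lit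 1271250, nat_lit 1271250, nat_lit 1271250, nat_lit 1271250, nat_lit 0, nat_lit 0, [nat_lit 490000, nat_lit 1100000, nat_lit 1442500], [nat_lit 6, nat_lit 40, nat_lit 80, nat_lit 80, nat_lit 3, nat_lit 292, nat_lit 0, nat_lit 10]⟩,
 ⟨nat_lit 2958, nat_lit 3163, ⟨.ofNat (nat_lit 876741), .ofNat (nat_lit 931599), .ofNat (nat_lit 887817), .ofNat (nat_lit 942677), .ofNat (nat_lit 873745), .ofNat (nat_lit 927764), .ofNat (nat_lit 884882), .ofNat (nat_lit 938902)⟩, ⟨.ofNat (nat_lit 0), .ofNat (nat_lit 0), .ofNat (nat_lit 0), .ofNat (nat_lit 0), .ofNat (nat_lit 0), .ofNat (nat_lit 0), .ofNat (nat_lit 0), .ofNat (nat_lit 0)⟩⟩, [⟨nat_lit 13, nat_lit 75, nat_lit 35, nat_lit 100, nat_lit 192523093⟩]⟩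
noncomputable def p025_l124 : Lf2 := ⟨nat_lit 0, nat_lit 10, [nat_lit 0, nat_lit 5, nat_lit 5, nat_lit 20], false, nat_lit 0, nat_lit 0, nat_lit 0, nat_lit 0, ⟨nat_lit 144, nat_lit 856, nat_lit 0, nat_lit 9, nat_lit 362, nat_lit 0, nat_lit 0, nat_lit 0, nat_lit 0, nat_lit 0, nat_lit 0, nat_lit 0, nat_lit 36846605, nat_lit 30153395, nat_lit 0, nat_lit 3440744, true, true⟩,
 nat_lit 0, nat_lit 0, nat_lit 1287, nat_lit 0, nat_lit 2745, nat_lit 965, nat_lit 21, nat_lit 0, nat_lit 0, nat_lit 47, nat_lit 0, nat_lit 0, nat_lit 0, nat_lit 0, nat_lit 0, nat_lit 309100, nat_lit 0, nat_lit 0, [(nat_lit 24, [(nat_lit 0, nat_lit 222), (nat_lit 1, nat_lit 634)])],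
 ⟨p025_k23, nat_lit 0, nat_lit 0, nat_lit 169, nat_lit 0, nat_lit 0, [nat_lit 842134400, nat_lit 1408435734, nat_lit 1658804800], [], [nat_lit 29531265655, nat_lit 29744689311, nat_lit 31004974231, nat_lit 31202733882], nat_lit 0, nat_lit 0, nat_lit 0, nat_lit 0, nat_lit 0, nat_lit 0, [], [nat_lit 35, nat_lit 40, nat_lit 80, nat_lit 80, nat_lit 22, nat_lit 203, nat_lit 0, nat_lit 7]⟩, ⟨p025_k22, nat_lit 0, nat_lit 0, nat_lit 824, nat_lit 0, nat_lit 1759338, [nat_lit 292608000, nat_lit 675072000, nat_lit 900000000], [], [nat_lit 5677987664, nat_lit 5697153699, nat_lit 5764398662, nat_lit 5810382072], nat_lit 1271250, nat_lit 1271250, nat_lit 1271250, nat_lit 1271250, nat_lit 0, nat_lit 0, [nat_lit 490000, nat_lit 1100000, nat_lit 1442500], [nat_lit 6, nat_lit 40, nat_lit 80, nat_lit 80, nat_lit 3, nat_lit 297, nat_lit 0, nat_lit 10]⟩,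
 ⟨nat_lit 2738, nat_lit 2959, ⟨.ofNat (nat_lit 873745), .ofNat (nat_lit 927764), .ofNat (nat_lit 884883), .ofNat (nat_lit 938902), .ofNat (nat_lit 870748), .ofNat (nat_lit 923903), .ofNat (nat_lit 881956), .ofNat (nat_lit 935112)⟩, ⟨.ofNat (nat_lit 0), .ofNat (nat_lit 0), .ofNat (nat_lit 0), .ofNat (nat_lit 0), .ofNat (nat_lit 0), .ofNat (nat_lit 0), .ofNat (nat_lit 0), .ofNat (nat_lit 0)⟩⟩, [⟨nat_lit 13, nat_lit 70, nat_lit 40, nat_lit 100, nat_lit 202061496⟩]⟩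
noncomputable def p025_l125 : Lf2 := ⟨nat_lit 0, nat_lit 10, [nat_lit 0, nat_lit 5, nat_lit 5, nat_lit 20], true, nat_lit 0, nat_lit 0, nat_lit 0, nat_lit 0, ⟨nat_lit 0, nat_lit 1000, nat_lit 0, nat_lit 9, nat_lit 359, nat_lit 0, nat_lit 0, nat_lit 0, nat_lit 0, nat_lit 0, nat_lit 0, nat_lit 0, nat_lit 37142231, nat_lit 29857769, nat_lit 0, nat_lit 3436124, true, true⟩,
 nat_lit 0, nat_lit 0, nat_lit 0, nat_lit 0, nat_lit 2770, nat_lit 0, nat_lit 0, nat_lit 0, nat_lit 0, nat_lit 0, nat_lit 0, nat_lit 0, nat_lit 0, nat_lit 0, nat_lit 0, nat_lit 250000, nat_lit 0, nat_lit 0, [(nat_lit 24, [(nat_lit 0, nat_lit 1000)])],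
 ⟨p025_k9, nat_lit 0, nat_lit 0, nat_lit 170, nat_lit 0, nat_lit 0, [nat_lit 763200001, nat_lit 1367200000, nat_lit 1705600000], [], [nat_lit 29759744806, nat_lit 30187929931, nat_lit 31058715714, nat_lit 31592671268], nat_lit 0, nat_lit 0, nat_lit 0, nat_lit 0, nat_lit 0, nat_lit 0, [], [nat_lit 35, nat_lit 40, nat_lit 80, nat_lit 80, nat_lit 22, nat_lit 203, nat_lit 0, nat_lit 7]⟩, C1.Rw.none,
 ⟨nat_lit 2236, nat_lit 2739, ⟨.ofNat (nat_lit 870748), .ofNat (nat_lit 917997), .ofNat (nat_lit 881957), .ofNat (nat_lit 929206), .ofNat (nat_lit 864706), .ofNat (nat_lit 910319), .ofNat (nat_lit 876094), .ofNat (nat_lit 921706)⟩, ⟨.ofNat (nat_lit 0), .ofNat (nat_lit 0), .ofNat (nat_lit 0), .ofNat (nat_lit 0), .ofNat (nat_lit 0), .ofNat (nat_lit 0), .ofNat (nat_lit 0), .ofNat (nat_lit 0)⟩⟩, [⟨nat_lit 13, nat_lit 69, nat_lit 40, nat_lit 100, nat_lit 263154017⟩]⟩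
noncomputable def p025_l126 : Lf2 := ⟨nat_lit 0, nat_lit 10, [nat_lit 0, nat_lit 5, nat_lit 5, nat_lit 20], false, nat_lit 0, nat_lit 0, nat_lit 0, nat_lit 0, ⟨nat_lit 362, nat_lit 638, nat_lit 0, nat_lit 9, nat_lit 367, nat_lit 0, nat_lit 0, nat_lit 0, nat_lit 0, nat_lit 0, nat_lit 0, nat_lit 0, nat_lit 36393533, nat_lit 30606467, nat_lit 0, nat_lit 3447060, true, true⟩,
 nat_lit 0, nat_lit 0, nat_lit 2443, nat_lit 0, nat_lit 2867, nat_lit 1904, nat_lit 0, nat_lit 0, nat_lit 0, nat_lit 440, nat_lit 0, nat_lit 0, nat_lit 0, nat_lit 0, nat_lit 0, nat_lit 364400, nat_lit 0, nat_lit 0, [(nat_lit 24, [(nat_lit 1, nat_lit 456), (nat_lit 2, nat_lit 182)])],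
 ⟨p025_k0, nat_lit 0, nat_lit 0, nat_lit 173, nat_lit 0, nat_lit 0, [nat_lit 993420001, nat_lit 1556818401, nat_lit 1751664000], [], [nat_lit 29854033731, nat_lit 30720785406, nat_lit 31534218651, nat_lit 32330929028], nat_lit 0, nat_lit 0, nat_lit 0, nat_lit 0, nat_lit 0, nat_lit 0, [], [nat_lit 35, nat_lit 40, nat_lit 80, nat_lit 80, nat_lit 22, nat_lit 203, nat_lit 0, nat_lit 7]⟩, ⟨p025_k24, nat_lit 0, nat_lit 0, nat_lit 852, nat_lit 0, nat_lit 1833983, [nat_lit 735584000, nat_lit 1697056000, nat_lit 2262500000], [], [nat_lit 13176383570, nat_lit 13234015912, nat_lit 13441443524, nat_lit 13493851556], nat_lit 1271250, nat_lit 1271250, nat_lit 1271250, nat_lit 1271250, nat_lit 0, nat_lit 0, [nat_lit 490000, nat_lit 1100000, nat_lit 1442500], [nat_lit 6, nat_lit 40, nat_lit 80, nat_lit 80, nat_lit 3, nat_lit 306, nat_lit 0, nat_lit 10]⟩,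
 ⟨nat_lit 2236, nat_lit 3163, ⟨.ofNat (nat_lit 887808), .ofNat (nat_lit 948772), .ofNat (nat_lit 898862), .ofNat (nat_lit 959850), .ofNat (nat_lit 876082), .ofNat (nat_lit 933109), .ofNat (nat_lit 887446), .ofNat (nat_lit 944496)⟩, ⟨.ofNat (nat_lit 0), .ofNat (nat_lit 0), .ofNat (nat_lit 0), .ofNat (nat_lit 0), .ofNat (nat_lit 0), .ofNat (nat_lit 0), .ofNat (nat_lit 0), .ofNat (nat_lit 0)⟩⟩, [⟨nat_lit 13, nat_lit 57, nat_lit 53, nat_lit 100, nat_lit 163172805⟩]⟩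
noncomputable def p025_l127 : Lf2 := ⟨nat_lit 0, nat_lit 10, [nat_lit 0, nat_lit 5, nat_lit 5, nat_lit 20], true, nat_lit 0, nat_lit 0, nat_lit 0, nat_lit 0, ⟨nat_lit 0, nat_lit 1000, nat_lit 0, nat_lit 9, nat_lit 356, nat_lit 0, nat_lit 0, nat_lit 0, nat_lit 0, nat_lit 0, nat_lit 0, nat_lit 0, nat_lit 37360400, nat_lit 29639600, nat_lit 0, nat_lit 3432463, true, true⟩,
 nat_lit 0, nat_lit 0, nat_lit 0, nat_lit 0, nat_lit 2307, nat_lit 0, nat_lit 0, nat_lit 0, nat_lit 0, nat_lit 0, nat_lit 0, nat_lit 0, nat_lit 0, nat_lit 0, nat_lit 0, nat_lit 261400, nat_lit 0, nat_lit 0, [(nat_lit 27, [(nat_lit 0, nat_lit 924), (nat_lit 1, nat_lit 76)])],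
 ⟨p025_k2, nat_lit 0, nat_lit 0, nat_lit 152, nat_lit 0, nat_lit 0, [nat_lit 774476801, nat_lit 988201600], [], [nat_lit 28835168392, nat_lit 29718641707, nat_lit 30150178933, nat_lit 31157179409], nat_lit 0, nat_lit 0, nat_lit 0, nat_lit 0, nat_lit 0, nat_lit 0, [], [nat_lit 66, nat_lit 40, nat_lit 80, nat_lit 80, nat_lit 67, nat_lit 203, nat_lit 0, nat_lit 9]⟩, C1.Rw.none,
 ⟨nat_lit 0, nat_lit 2237, ⟨.ofNat (nat_lit 864705), .ofNat (nat_lit 910316), .ofNat (nat_lit 887481), .ofNat (nat_lit 933091), .ofNat (nat_lit 849998), .ofNat (nat_lit 889996), .ofNat (nat_lit 874999), .ofNat (nat_lit 914997)⟩, ⟨.ofNat (nat_lit 0), .ofNat (nat_lit 0), .ofNat (nat_lit 0), .ofNat (nat_lit 0), .ofNat (nat_lit 0), .ofNat (nat_lit 0), .ofNat (nat_lit 0), .ofNat (nat_lit 0)⟩⟩, [⟨nat_lit 13, nat_lit 61, nat_lit 47, nat_lit 100, nat_lit 323723521⟩]⟩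
noncomputable def p025_l128 : Lf2 := ⟨nat_lit 0, nat_lit 10, [nat_lit 0, nat_lit 5, nat_lit 5, nat_lit 20], true, nat_lit 0, nat_lit 0, nat_lit 0, nat_lit 0, ⟨nat_lit 0, nat_lit 1000, nat_lit 0, nat_lit 8, nat_lit 315, nat_lit 0, nat_lit 0, nat_lit 0, nat_lit 0, nat_lit 0, nat_lit 0, nat_lit 0, nat_lit 0, nat_lit 0, nat_lit 0, nat_lit 5000000, true, false⟩,
 nat_lit 0, nat_lit 0, nat_lit 0, nat_lit 0, nat_lit 2508, nat_lit 0, nat_lit 0, nat_lit 0, nat_lit 0, nat_lit 0, nat_lit 0, nat_lit 0, nat_lit 0, nat_lit 0, nat_lit 0, nat_lit 400000, nat_lit 0, nat_lit 0, [(nat_lit 24, [(nat_lit 1, nat_lit 1000)]), (nat_lit 27, [(nat_lit 1, nat_lit 1000)])],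
 ⟨p025_k0, nat_lit 0, nat_lit 0, nat_lit 178, nat_lit 0, nat_lit 0, [nat_lit 848000000, nat_lit 997333334, nat_lit 954400000], [], [nat_lit 23466780070, nat_lit 25567676590, nat_lit 30181526198, nat_lit 32204490608], nat_lit 0, nat_lit 0, nat_lit 0, nat_lit 0, nat_lit 0, nat_lit 0, [], [nat_lit 35, nat_lit 40, nat_lit 80, nat_lit 80, nat_lit 22, nat_lit 203, nat_lit 0, nat_lit 8]⟩, C1.Rw.none,
 ⟨nat_lit 0, nat_lit 3163, ⟨.ofNat (nat_lit 625100), .ofNat (nat_lit 937693), .ofNat (nat_lit 645949), .ofNat (nat_lit 959849), .ofNat (nat_lit 642170), .ofNat (nat_lit 899997), .ofNat (nat_lit 665865), .ofNat (nat_lit 924998)⟩, ⟨.ofNat (nat_lit 0), .ofNat (nat_lit 0), .ofNat (nat_lit 0), .ofNat (nat_lit 0), .ofNat (nat_lit 0), .ofNat (nat_lit 0), .ofNat (nat_lit 0), .ofNat (nat_lit 0)⟩⟩, [⟨nat_lit 13, nat_lit 84, nat_lit 21, nat_lit 100, nat_lit 302326416⟩]⟩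
noncomputable def p025_l129 : Lf2 := ⟨nat_lit 0, nat_lit 10, [nat_lit 0, nat_lit 5, nat_lit 5, nat_lit 20], false, nat_lit 0, nat_lit 0, nat_lit 0, nat_lit 0, ⟨nat_lit 780, nat_lit 0, nat_lit 220, nat_lit 8, nat_lit 294, nat_lit 0, nat_lit 0, nat_lit 0, nat_lit 0, nat_lit 215, nat_lit 404374, nat_lit 200, nat_lit 43531723, nat_lit 0, nat_lit 0, nat_lit 3238075, true, false⟩,
 nat_lit 0, nat_lit 5650, nat_lit 0, nat_lit 0, nat_lit 4920, nat_lit 3244, nat_lit 0, nat_lit 0, nat_lit 0, nat_lit 0, nat_lit 0, nat_lit 0, nat_lit 0, nat_lit 0, nat_lit 0, nat_lit 220000, nat_lit 0, nat_lit 0, [(nat_lit 24, [(nat_lit 6, nat_lit 220)])],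
 ⟨p025_k6, nat_lit 0, nat_lit 0, nat_lit 657, nat_lit 0, nat_lit 1492092, [nat_lit 1218280000, nat_lit 2579696000], [], [nat_lit 30781478640, nat_lit 31390099680, nat_lit 32443710880, nat_lit 33297655760], nat_lit 1271250, nat_lit 1271250, nat_lit 1271250, nat_lit 1271250, nat_lit 0, nat_lit 0, [nat_lit 230000, nat_lit 1100000], [nat_lit 86, nat_lit 40, nat_lit 80, nat_lit 80, nat_lit 87, nat_lit 252, nat_lit 0, nat_lit 11]⟩, ⟨p025_k17, nat_lit 0, nat_lit 0, nat_lit 134, nat_lit 0, nat_lit 0, [nat_lit 1584960000, nat_lit 4875000000], [], [nat_lit 19866159784, nat_lit 20961733996, nat_lit 24029073376, nat_lit 24970387568], nat_lit 0, nat_lit 0, nat_lit 0, nat_lit 0, nat_lit 0, nat_lit 0, [], [nat_lit 69, nat_lit 40, nat_lit 80, nat_lit 80, nat_lit 64, nat_lit 203, nat_lit 0, nat_lit 7]⟩,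
 ⟨nat_lit 2236, nat_lit 3163, ⟨.ofNat (nat_lit 632548), .ofNat (nat_lit 815720), .ofNat (nat_lit 654639), .ofNat (nat_lit 837812), .ofNat (nat_lit 636264), .ofNat (nat_lit 807623), .ofNat (nat_lit 658975), .ofNat (nat_lit 830334)⟩, ⟨.ofNat (nat_lit 0), .ofNat (nat_lit 0), .ofNat (nat_lit 0), .ofNat (nat_lit 0), .ofNat (nat_lit 0), .ofNat (nat_lit 0), .ofNat (nat_lit 0), .ofNat (nat_lit 0)⟩⟩, [⟨nat_lit 0, nat_lit 75, nat_lit 46, nat_lit 100, nat_lit 267168888⟩]⟩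
noncomputable def p025_l130 : Lf2 := ⟨nat_lit 0, nat_lit 10, [nat_lit 0, nat_lit 5, nat_lit 5, nat_lit 20], false, nat_lit 0, nat_lit 0, nat_lit 0, nat_lit 0, ⟨nat_lit 787, nat_lit 0, nat_lit 213, nat_lit 8, nat_lit 355, nat_lit 0, nat_lit 0, nat_lit 0, nat_lit 0, nat_lit 215, nat_lit 648450, nat_lit 200, nat_lit 37522110, nat_lit 0, nat_lit 0, nat_lit 3429610, true, true⟩,
 nat_lit 0, nat_lit 5257, nat_lit 0, nat_lit 0, nat_lit 4578, nat_lit 4876, nat_lit 0, nat_lit 0, nat_lit 0, nat_lit 0, nat_lit 0, nat_lit 0, nat_lit 0, nat_lit 0, nat_lit 0, nat_lit 213000, nat_lit 0, nat_lit 0, [(nat_lit 24, [(nat_lit 6, nat_lit 213)])],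
 ⟨p025_k6, nat_lit 0, nat_lit 0, nat_lit 613, nat_lit 0, nat_lit 1393812, [nat_lit 1209362000, nat_lit 2646778400], [], [nat_lit 34625182464, nat_lit 34741596919, nat_lit 36508086528, nat_lit 36784899920], nat_lit 1271250, nat_lit 1271250, nat_lit 1271250, nat_lit 1271250, nat_lit 0, nat_lit 0, [nat_lit 230000, nat_lit 1100000], [nat_lit 86, nat_lit 40, nat_lit 80, nat_lit 80, nat_lit 87, nat_lit 249, nat_lit 0, nat_lit 10]⟩, ⟨p025_k17, nat_lit 0, nat_lit 0, nat_lit 180, nat_lit 0, nat_lit 0, [nat_lit 1599184000, nat_lit 4918750000], [], [nat_lit 26878798776, nat_lit 27803773774, nat_lit 30746866296, nat_lit 31470308082], nat_lit 0, nat_lit 0, nat_lit 0, nat_lit 0, nat_lit 0, nat_lit 0, [], [nat_lit 69, nat_lit 40, nat_lit 80, nat_lit 80, nat_lit 64, nat_lit 203, nat_lit 0, nat_lit 6]⟩,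
 ⟨nat_lit 2958, nat_lit 3163, ⟨.ofNat (nat_lit 815784), .ofNat (nat_lit 937695), .ofNat (nat_lit 837936), .ofNat (nat_lit 959850), .ofNat (nat_lit 813720), .ofNat (nat_lit 933766), .ofNat (nat_lit 835995), .ofNat (nat_lit 956043)⟩, ⟨.ofNat (nat_lit 0), .ofNat (nat_lit 0), .ofNat (nat_lit 0), .ofNat (nat_lit 0), .ofNat (nat_lit 0), .ofNat (nat_lit 0), .ofNat (nat_lit 0), .ofNat (nat_lit 0)⟩⟩, [⟨nat_lit 13, nat_lit 77, nat_lit 31, nat_lit 100, nat_lit 45523211⟩]⟩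
noncomputable def p025_l131 : Lf2 := ⟨nat_lit 0, nat_lit 10, [nat_lit 0, nat_lit 5, nat_lit 5, nat_lit 20], false, nat_lit 0, nat_lit 0, nat_lit 0, nat_lit 0, ⟨nat_lit 1000, nat_lit 0, nat_lit 0, nat_lit 0, nat_lit 0, nat_lit 0, nat_lit 0, nat_lit 0, nat_lit 0, nat_lit 0, nat_lit 0, nat_lit 0, nat_lit 0, nat_lit 0, nat_lit 0, nat_lit 0, false, false⟩,
 nat_lit 0, nat_lit 4722, nat_lit 0, nat_lit 0, nat_lit 4186, nat_lit 6192, nat_lit 1396, nat_lit 0, nat_lit 0, nat_lit 0, nat_lit 0, nat_lit 0, nat_lit 0, nat_lit 0, nat_lit 0, nat_lit 0, nat_lit 0, nat_lit 0, [],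
 ⟨p025_k25, nat_lit 0, nat_lit 0, nat_lit 613, nat_lit 0, nat_lit 1392795, [nat_lit 938000000, nat_lit 4688000000], [], [nat_lit 33889962949, nat_lit 34025303458, nat_lit 35784831321, nat_lit 35900104482], nat_lit 1271250, nat_lit 1271250, nat_lit 1271250, nat_lit 1271250, nat_lit 0, nat_lit 0, [nat_lit 230000, nat_lit 1100000], [nat_lit 86, nat_lit 40, nat_lit 80, nat_lit 80, nat_lit 87, nat_lit 250, nat_lit 0, nat_lit 10]⟩, ⟨p025_k17, nat_lit 0, nat_lit 0, nat_lit 180, nat_lit 0, nat_lit 0, [nat_lit 2032000000, nat_lit 6250000000], [], [nat_lit 34155979136, nat_lit 35330936720, nat_lit 39069375488, nat_lit 39979200960], nat_lit 0, nat_lit 0, nat_lit 0, nat_lit 0, nat_lit 0, nat_lit 0, [], [nat_lit 69, nat_lit 40, nat_lit 80, nat_lit 80, nat_lit 64, nat_lit 203, nat_lit 0, nat_lit 6]⟩,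
 zbF0, []⟩
noncomputable def p025_l132 : Lf2 := ⟨nat_lit 0, nat_lit 10, [nat_lit 0, nat_lit 5, nat_lit 5, nat_lit 20], false, nat_lit 0, nat_lit 0, nat_lit 0, nat_lit 0, ⟨nat_lit 1000, nat_lit 0, nat_lit 0, nat_lit 0, nat_lit 0, nat_lit 0, nat_lit 0, nat_lit 0, nat_lit 0, nat_lit 0, nat_lit 0, nat_lit 0, nat_lit 0, nat_lit 0, nat_lit 0, nat_lit 0, false, false⟩,
 nat_lit 0, nat_lit 4327, nat_lit 0, nat_lit 0, nat_lit 3904, nat_lit 393, nat_lit 910, nat_lit 0, nat_lit 0, nat_lit 0, nat_lit 0, nat_lit 0, nat_lit 0, nat_lit 0, nat_lit 0, nat_lit 0, nat_lit 0, nat_lit 0, [],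
 ⟨p025_k26, nat_lit 0, nat_lit 0, nat_lit 626, nat_lit 0, nat_lit 1423517, [nat_lit 938000000, nat_lit 4688000000], [], [nat_lit 31588375552, nat_lit 31935629596, nat_lit 34762251048, nat_lit 35375013445], nat_lit 1271250, nat_lit 1271250, nat_lit 1271250, nat_lit 1271250, nat_lit 0, nat_lit 0, [nat_lit 230000, nat_lit 1100000], [nat_lit 86, nat_lit 40, nat_lit 80, nat_lit 80, nat_lit 87, nat_lit 254, nat_lit 0, nat_lit 10]⟩, ⟨p025_k17, nat_lit 0, nat_lit 0, nat_lit 177, nat_lit 0, nat_lit 0, [nat_lit 2032000000, nat_lit 6250000000], [], [nat_lit 40957224448, nat_lit 41541809422, nat_lit 43206703939, nat_lit 43737398362], nat_lit 0, nat_lit 0, nat_lit 0, nat_lit 0, nat_lit 0, nat_lit 0, [], [nat_lit 69, nat_lit 40, nat_lit 80, nat_lit 80, nat_lit 64, nat_lit 203, nat_lit 0, nat_lit 6]⟩,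
 zbF0, []⟩
noncomputable def p025_l133 : Lf2 := ⟨nat_lit 0, nat_lit 10, [nat_lit 0, nat_lit 5, nat_lit 5, nat_lit 20], false, nat_lit 0, nat_lit 0, nat_lit 0, nat_lit 0, ⟨nat_lit 1000, nat_lit 0, nat_lit 0, nat_lit 0, nat_lit 0, nat_lit 0, nat_lit 0, nat_lit 0, nat_lit 0, nat_lit 0, nat_lit 0, nat_lit 0, nat_lit 0, nat_lit 0, nat_lit 0, nat_lit 0, false, false⟩,
 nat_lit 0, nat_lit 3971, nat_lit 0, nat_lit 0, nat_lit 3710, nat_lit 0, nat_lit 500, nat_lit 0, nat_lit 0, nat_lit 0, nat_lit 0, nat_lit 0, nat_lit 0, nat_lit 0, nat_lit 0, nat_lit 0, nat_lit 0, nat_lit 0, [],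
 ⟨p025_k2, nat_lit 0, nat_lit 0, nat_lit 594, nat_lit 0, nat_lit 1484311, [nat_lit 938000000, nat_lit 3282000000], [], [nat_lit 30583412792, nat_lit 31433114036, nat_lit 35097244330, nat_lit 35740723609], nat_lit 1271250, nat_lit 1271250, nat_lit 1271250, nat_lit 1271250, nat_lit 0, nat_lit 0, [nat_lit 230000, nat_lit 780000], [nat_lit 66, nat_lit 40, nat_lit 80, nat_lit 80, nat_lit 67, nat_lit 248, nat_lit 0, nat_lit 13]⟩, ⟨p025_k17, nat_lit 0, nat_lit 0, nat_lit 175, nat_lit 0, nat_lit 0, [nat_lit 2032000000, nat_lit 6250000000], [], [nat_lit 39291524400, nat_lit 39886870100, nat_lit 43503684400, nat_lit 44013134800], nat_lit 0, nat_lit 0, nat_lit 0, nat_lit 0, nat_lit 0, nat_lit 0, [], [nat_lit 69, nat_lit 40, nat_lit 80, nat_lit 80, nat_lit 64, nat_lit 203, nat_lit 0, nat_lit 7]⟩,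
 zbF0, [⟨nat_lit 0, nat_lit 82, nat_lit 34, nat_lit 100, nat_lit 394116631⟩]⟩
noncomputable def p025_l134 : Lf2 := ⟨nat_lit 0, nat_lit 10, [nat_lit 0, nat_lit 5, nat_lit 5, nat_lit 20], false, nat_lit 0, nat_lit 0, nat_lit 0, nat_lit 0, ⟨nat_lit 799, nat_lit 201, nat_lit 0, nat_lit 8, nat_lit 315, nat_lit 0, nat_lit 0, nat_lit 0, nat_lit 0, nat_lit 0, nat_lit 0, nat_lit 0, nat_lit 41345891, nat_lit 25654109, nat_lit 0, nat_lit 3327322, true, false⟩,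
 nat_lit 6084, nat_lit 0, nat_lit 0, nat_lit 0, nat_lit 5114, nat_lit 4562, nat_lit 0, nat_lit 0, nat_lit 0, nat_lit 0, nat_lit 0, nat_lit 0, nat_lit 0, nat_lit 0, nat_lit 0, nat_lit 201000, nat_lit 0, nat_lit 0, [(nat_lit 24, [(nat_lit 2, nat_lit 201)]), (nat_lit 27, [(nat_lit 2, nat_lit 201)])],
 ⟨p025_k6, nat_lit 0, nat_lit 0, nat_lit 417, nat_lit 0, nat_lit 836520, [nat_lit 1174778000, nat_lit 3325380800], [], [nat_lit 29668117956, nat_lit 31551593788, nat_lit 38085309288, nat_lit 40843578664], nat_lit 1271250, nat_lit 1271250, nat_lit 1271250, nat_lit 1271250, nat_lit 0, nat_lit 0, [nat_lit 230000, nat_lit 1100000], [nat_lit 86, nat_lit 40, nat_lit 80, nat_lit 80, nat_lit 87, nat_lit 205, nat_lit 0, nat_lit 8]⟩, ⟨p025_k17, nat_lit 0, nat_lit 0, nat_lit 514, nat_lit 0, nat_lit 990892, [nat_lit 1623568000, nat_lit 4993750000], [], [nat_lit 33944490480, nat_lit 34445485372, nat_lit 37516024748,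 nat_lit 37870630504], nat_lit 1271250, nat_lit 1271250, nat_lit 1271250, nat_lit 1271250, nat_lit 0, nat_lit 0, [nat_lit 490000, nat_lit 1427500], [nat_lit 69, nat_lit 40, nat_lit 80, nat_lit 80, nat_lit 64, nat_lit 221, nat_lit 0, nat_lit 8]⟩,
 ⟨nat_lit 0, nat_lit 3163, ⟨.ofNat (nat_lit 625100), .ofNat (nat_lit 937693), .ofNat (nat_lit 645949), .ofNat (nat_lit 959849), .ofNat (nat_lit 642170), .ofNat (nat_lit 899997), .ofNat (nat_lit 665865), .ofNat (nat_lit 924998)⟩, ⟨.ofNat (nat_lit 0), .ofNat (nat_lit 0), .ofNat (nat_lit 0), .ofNat (nat_lit 0), .ofNat (nat_lit 0), .ofNat (nat_lit 0), .ofNat (nat_lit 0), .ofNat (nat_lit 0)⟩⟩, []⟩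
noncomputable def p025_l135 : Lf2 := ⟨nat_lit 0, nat_lit 10, [nat_lit 0, nat_lit 5, nat_lit 5, nat_lit 20], false, nat_lit 0, nat_lit 0, nat_lit 0, nat_lit 0, ⟨nat_lit 717, nat_lit 283, nat_lit 0, nat_lit 8, nat_lit 318, nat_lit 0, nat_lit 0, nat_lit 0, nat_lit 0, nat_lit 0, nat_lit 0, nat_lit 0, nat_lit 0, nat_lit 0, nat_lit 0, nat_lit 5000000, true, false⟩,
 nat_lit 0, nat_lit 5398, nat_lit 0, nat_lit 0, nat_lit 4701, nat_lit 4437, nat_lit 0, nat_lit 0, nat_lit 0, nat_lit 0, nat_lit 0, nat_lit 0, nat_lit 0, nat_lit 0, nat_lit 0, nat_lit 283000, nat_lit 0, nat_lit 0, [(nat_lit 24, [(nat_lit 2, nat_lit 283)])],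
 ⟨p025_k6, nat_lit 0, nat_lit 0, nat_lit 595, nat_lit 0, nat_lit 1353932, [nat_lit 1271374000, nat_lit 2769486400], [], [nat_lit 32908723318, nat_lit 33056055288, nat_lit 36832146692, nat_lit 37162434890], nat_lit 1271250, nat_lit 1271250, nat_lit 1271250, nat_lit 1271250, nat_lit 0, nat_lit 0, [nat_lit 230000, nat_lit 1100000], [nat_lit 86, nat_lit 40, nat_lit 80, nat_lit 80, nat_lit 87, nat_lit 245, nat_lit 0, nat_lit 10]⟩, ⟨p025_k17, nat_lit 0, nat_lit 0, nat_lit 180, nat_lit 0, nat_lit 0, [nat_lit 1456944000, nat_lit 4481250000], [], [nat_lit 20865096144, nat_lit 21982067844, nat_lit 28013415780, nat_lit 28665593568], nat_lit 0, nat_lit 0, nat_lit 0, nat_lit 0, nat_lit 0, nat_lit 0, [], [nat_lit 69, nat_lit 40, nat_lit 80, nat_lit 80, nat_lit 64, nat_lit 203, nat_lit 0, nat_lit 7]⟩,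
 ⟨nat_lit 2958, nat_lit 3163, ⟨.ofNat (nat_lit 632913), .ofNat (nat_lit 937695), .ofNat (nat_lit 655065), .ofNat (nat_lit 959850), .ofNat (nat_lit 633646), .ofNat (nat_lit 933766), .ofNat (nat_lit 655920), .ofNat (nat_lit 956043)⟩, ⟨.ofNat (nat_lit 0), .ofNat (nat_lit 0), .ofNat (nat_lit 0), .ofNat (nat_lit 0), .ofNat (nat_lit 0), .ofNat (nat_lit 0), .ofNat (nat_lit 0), .ofNat (nat_lit 0)⟩⟩, []⟩
noncomputable def p025_l136 : Lf2 := ⟨nat_lit 0, nat_lit 10, [nat_lit 0, nat_lit 5, nat_lit 5, nat_lit 20], false, nat_lit 0, nat_lit 0, nat_lit 0, nat_lit 0, ⟨nat_lit 1000, nat_lit 0, nat_lit 0, nat_lit 0, nat_lit 0, nat_lit 0, nat_lit 0, nat_lit 0, nat_lit 0, nat_lit 0, nat_lit 0, nat_lit 0, nat_lit 0, nat_lit 0, nat_lit 0, nat_lit 0, false, false⟩,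
 nat_lit 0, nat_lit 4267, nat_lit 0, nat_lit 0, nat_lit 3782, nat_lit 6895, nat_lit 1772, nat_lit 0, nat_lit 0, nat_lit 0, nat_lit 0, nat_lit 0, nat_lit 0, nat_lit 0, nat_lit 0, nat_lit 0, nat_lit 0, nat_lit 0, [],
 ⟨p025_k25, nat_lit 0, nat_lit 0, nat_lit 595, nat_lit 0, nat_lit 1353099, [nat_lit 938000000, nat_lit 4688000000], [], [nat_lit 29994121481, nat_lit 30178891019, nat_lit 34507168046, nat_lit 34648589692], nat_lit 1271250, nat_lit 1271250, nat_lit 1271250, nat_lit 1271250, nat_lit 0, nat_lit 0, [nat_lit 230000, nat_lit 1100000], [nat_lit 86, nat_lit 40, nat_lit 80, nat_lit 80, nat_lit 87, nat_lit 245, nat_lit 0, nat_lit 10]⟩, ⟨p025_k17, nat_lit 0, nat_lit 0, nat_lit 180, nat_lit 0, nat_lit 0, [nat_lit 2032000000, nat_lit 6250000000], [], [nat_lit 28653739581, nat_lit 30289830143, nat_lit 40564455620, nat_lit 42026919480], nat_lit 0, nat_lit 0, nat_lit 0, nat_lit 0, nat_lit 0,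 nat_lit 0, [], [nat_lit 69, nat_lit 40, nat_lit 80, nat_lit 80, nat_lit 64, nat_lit 203, nat_lit 0, nat_lit 7]⟩,
 zbF0, [⟨nat_lit 13, nat_lit 79, nat_lit 27, nat_lit 100, nat_lit 32461785⟩]⟩
noncomputable def p025_l137 : Lf2 := ⟨nat_lit 0, nat_lit 10, [nat_lit 0, nat_lit 5, nat_lit 5, nat_lit 20], false, nat_lit 0, nat_lit 0, nat_lit 0, nat_lit 0, ⟨nat_lit 719, nat_lit 281, nat_lit 0, nat_lit 8, nat_lit 318, nat_lit 0, nat_lit 0, nat_lit 0, nat_lit 0, nat_lit 0, nat_lit 0, nat_lit 0, nat_lit 0, nat_lit 0, nat_lit 0, nat_lit 5000000, true, false⟩,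
 nat_lit 0, nat_lit 5242, nat_lit 0, nat_lit 0, nat_lit 4565, nat_lit 4453, nat_lit 0, nat_lit 0, nat_lit 0, nat_lit 0, nat_lit 0, nat_lit 0, nat_lit 0, nat_lit 0, nat_lit 0, nat_lit 281000, nat_lit 0, nat_lit 0, [(nat_lit 24, [(nat_lit 2, nat_lit 281)])],
 ⟨p025_k6, nat_lit 0, nat_lit 0, nat_lit 536, nat_lit 0, nat_lit 1184002, [nat_lit 1269018000, nat_lit 2783044800], [], [nat_lit 32694127550, nat_lit 33026937635, nat_lit 36495503840, nat_lit 37070512720], nat_lit 1271250, nat_lit 1271250, nat_lit 1271250, nat_lit 1271250, nat_lit 0, nat_lit 0, [nat_lit 230000, nat_lit 1100000], [nat_lit 86, nat_lit 40, nat_lit 80, nat_lit 80, nat_lit 87, nat_lit 231, nat_lit 0, nat_lit 10]⟩, ⟨p025_k17, nat_lit 0, nat_lit 0, nat_lit 180, nat_lit 0, nat_lit 0, [nat_lit 1461008000, nat_lit 4493750000], [], [nat_lit 20919768020, nat_lit 22040393006, nat_lit 28090640276, nat_lit 28746206418], nat_lit 0, nat_lit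 0, nat_lit 0, nat_lit 0, nat_lit 0, nat_lit 0, [], [nat_lit 69, nat_lit 40, nat_lit 80, nat_lit 80, nat_lit 64, nat_lit 203, nat_lit 0, nat_lit 7]⟩,
 ⟨nat_lit 2738, nat_lit 3163, ⟨.ofNat (nat_lit 632856), .ofNat (nat_lit 937695), .ofNat (nat_lit 654999), .ofNat (nat_lit 959850), .ofNat (nat_lit 634431), .ofNat (nat_lit 929809), .ofNat (nat_lit 656837), .ofNat (nat_lit 952227)⟩, ⟨.ofNat (nat_lit 0), .ofNat (nat_lit 0), .ofNat (nat_lit 0), .ofNat (nat_lit 0), .ofNat (nat_lit 0), .ofNat (nat_lit 0), .ofNat (nat_lit 0), .ofNat (nat_lit 0)⟩⟩, []⟩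
noncomputable def p025_l138 : Lf2 := ⟨nat_lit 0, nat_lit 10, [nat_lit 0, nat_lit 5, nat_lit 5, nat_lit 20], false, nat_lit 0, nat_lit 0, nat_lit 0, nat_lit 0, ⟨nat_lit 1000, nat_lit 0, nat_lit 0, nat_lit 0, nat_lit 0, nat_lit 0, nat_lit 0, nat_lit 0, nat_lit 0, nat_lit 0, nat_lit 0, nat_lit 0, nat_lit 0, nat_lit 0, nat_lit 0, nat_lit 0, false, false⟩,
 nat_lit 0, nat_lit 4527, nat_lit 0, nat_lit 0, nat_lit 4085, nat_lit 2331, nat_lit 985, nat_lit 0, nat_lit 0, nat_lit 0, nat_lit 0, nat_lit 0, nat_lit 0, nat_lit 0, nat_lit 0, nat_lit 0, nat_lit 0, nat_lit 0, [],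
 ⟨p025_k26, nat_lit 0, nat_lit 0, nat_lit 631, nat_lit 0, nat_lit 1423517, [nat_lit 938000000, nat_lit 4688000000], [], [nat_lit 27459520939, nat_lit 27908262581, nat_lit 35318625916, nat_lit 35944379027], nat_lit 1271250, nat_lit 1271250, nat_lit 1271250, nat_lit 1271250, nat_lit 0, nat_lit 0, [nat_lit 230000, nat_lit 1100000], [nat_lit 86, nat_lit 40, nat_lit 80, nat_lit 80, nat_lit 87, nat_lit 255, nat_lit 0, nat_lit 11]⟩, ⟨p025_k17, nat_lit 0, nat_lit 0, nat_lit 177, nat_lit 0, nat_lit 0, [nat_lit 2032000000, nat_lit 6250000000], [], [nat_lit 34899823818, nat_lit 35810778809, nat_lit 41196261887, nat_lit 41842576614], nat_lit 0, nat_lit 0, nat_lit 0, nat_lit 0, nat_lit 0, nat_lit 0, [], [nat_lit 69, nat_lit 40, nat_lit 80, nat_lit 80, nat_lit 64, nat_lit 203, nat_lit 0, nat_lit 7]⟩,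
 zbF0, []⟩
noncomputable def p025_l139 : Lf2 := ⟨nat_lit 0, nat_lit 10, [nat_lit 0, nat_lit 5, nat_lit 5, nat_lit 20], false, nat_lit 0, nat_lit 0, nat_lit 0, nat_lit 0, ⟨nat_lit 1000, nat_lit 0, nat_lit 0, nat_lit 0, nat_lit 0, nat_lit 0, nat_lit 0, nat_lit 0, nat_lit 0, nat_lit 0, nat_lit 0, nat_lit 0, nat_lit 0, nat_lit 0, nat_lit 0, nat_lit 0, false, false⟩,
 nat_lit 0, nat_lit 3971, nat_lit 0, nat_lit 0, nat_lit 3710, nat_lit 0, nat_lit 500, nat_lit 0, nat_lit 0, nat_lit 0, nat_lit 0, nat_lit 0, nat_lit 0, nat_lit 0, nat_lit 0, nat_lit 0, nat_lit 0, nat_lit 0, [],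
 ⟨p025_k2, nat_lit 0, nat_lit 0, nat_lit 594, nat_lit 0, nat_lit 1484311, [nat_lit 938000000, nat_lit 3282000000], [], [nat_lit 30583412792, nat_lit 31433114036, nat_lit 35097244330, nat_lit 35740723609], nat_lit 1271250, nat_lit 1271250, nat_lit 1271250, nat_lit 1271250, nat_lit 0, nat_lit 0, [nat_lit 230000, nat_lit 780000], [nat_lit 66, nat_lit 40, nat_lit 80, nat_lit 80, nat_lit 67, nat_lit 248, nat_lit 0, nat_lit 13]⟩, ⟨p025_k17, nat_lit 0, nat_lit 0, nat_lit 175, nat_lit 0, nat_lit 0, [nat_lit 2032000000, nat_lit 6250000000], [], [nat_lit 39291524400, nat_lit 39886870100, nat_lit 43503684400, nat_lit 44013134800], nat_lit 0, nat_lit 0, nat_lit 0, nat_lit 0, nat_lit 0, nat_lit 0, [], [nat_lit 69, nat_lit 40, nat_lit 80, nat_lit 80, nat_lit 64, nat_lit 203, nat_lit 0, nat_lit 7]⟩,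
 zbF0, [⟨nat_lit 0, nat_lit 82, nat_lit 34, nat_lit 100, nat_lit 394116631⟩]⟩
noncomputable def p025_l140 : Lf2 := ⟨nat_lit 0, nat_lit 10, [nat_lit 0, nat_lit 5, nat_lit 5, nat_lit 20], false, nat_lit 0, nat_lit 0, nat_lit 0, nat_lit 0, ⟨nat_lit 462, nat_lit 538, nat_lit 0, nat_lit 8, nat_lit 315, nat_lit 0, nat_lit 0, nat_lit 0, nat_lit 0, nat_lit 0, nat_lit 0, nat_lit 0, nat_lit 0, nat_lit 0, nat_lit 0, nat_lit 5000000, true, false⟩,
 nat_lit 4331, nat_lit 0, nat_lit 0, nat_lit 0, nat_lit 3772, nat_lit 3248, nat_lit 0, nat_lit 0, nat_lit 0, nat_lit 0, nat_lit 0, nat_lit 0, nat_lit 0, nat_lit 0, nat_lit 0, nat_lit 298000, nat_lit 0, nat_lit 0, [(nat_lit 24, [(nat_lit 1, nat_lit 400), (nat_lit 2, nat_lit 138)]), (nat_lit 27, [(nat_lit 1, nat_lit 400), (nat_lit 2, nat_lit 138)])],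
 ⟨p025_k6, nat_lit 0, nat_lit 0, nat_lit 417, nat_lit 0, nat_lit 836520, [nat_lit 1111604001, nat_lit 2259030400], [], [nat_lit 30011714091, nat_lit 31660775675, nat_lit 35041168227, nat_lit 36394746672], nat_lit 1271250, nat_lit 1271250, nat_lit 1271250, nat_lit 1271250, nat_lit 0, nat_lit 0, [nat_lit 230000, nat_lit 1100000], [nat_lit 86, nat_lit 40, nat_lit 80, nat_lit 80, nat_lit 87, nat_lit 205, nat_lit 0, nat_lit 8]⟩, ⟨p025_k17, nat_lit 0, nat_lit 0, nat_lit 514, nat_lit 0, nat_lit 990892, [nat_lit 938784000, nat_lit 2887500000], [], [nat_lit 17225712000, nat_lit 17586324574, nat_lit 19389751864, nat_lit 19600273336], nat_lit 1271250, nat_lit 1271250, nat_lit 1271250, nat_lit 1271250, nat_lit 0, nat_lit 0, [nat_lit 490000, nat_lit 1427500], [nat_lit 69, nat_lit 40, nat_lit 80, nat_lit 80, nat_lit 64, nat_lit 221, nat_lit 0, nat_lit 8]⟩,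
 ⟨nat_lit 0, nat_lit 3163, ⟨.ofNat (nat_lit 625100), .ofNat (nat_lit 937693), .ofNat (nat_lit 645949), .ofNat (nat_lit 959849), .ofNat (nat_lit 642170), .ofNat (nat_lit 899997), .ofNat (nat_lit 665865), .ofNat (nat_lit 924998)⟩, ⟨.ofNat (nat_lit 0), .ofNat (nat_lit 0), .ofNat (nat_lit 0), .ofNat (nat_lit 0), .ofNat (nat_lit 0), .ofNat (nat_lit 0), .ofNat (nat_lit 0), .ofNat (nat_lit 0)⟩⟩, [⟨nat_lit 13, nat_lit 57, nat_lit 53, nat_lit 100, nat_lit 65952596⟩]⟩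
noncomputable def b_N_900_800_0_1 : St := ⟨false, nat_lit 2, nat_lit 2, nat_lit 0, nat_lit 40, nat_lit 360, nat_lit 400, nat_lit 320, nat_lit 340, nat_lit 200, nat_lit 400, nat_lit 0, nat_lit 0, nat_lit 0, nat_lit 0, nat_lit 0, nat_lit 0, nat_lit 40, nat_lit 80, nat_lit 0, nat_lit 0, nat_lit 0, nat_lit 0⟩
theorem d_N_900_800_0_1 (h : EB TB.env) : Dead b_N_900_800_0_1 := chkB_sound0 h (T :=
(.st (nat_lit 0)
(.gv
(.st (nat_lit 1)
(.leaf p025_l120)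
(.spl (nat_lit 2) (nat_lit 320)
(.leaf p025_l121)
(.spl (nat_lit 2) (nat_lit 360)
(.leaf p025_l122)
(.spl (nat_lit 0) (nat_lit 380)
(.spl (nat_lit 1) (nat_lit 330)
(.trX (nat_lit 13) (nat_lit 79) (nat_lit 29) (nat_lit 100) (nat_lit 396) (.spl (nat_lit 0) (nat_lit 370)
(.spl (nat_lit 0) (nat_lit 365)
(.leaf p025_l123)
(.leaf p025_l124))
(.trX (nat_lit 13) (nat_lit 69) (nat_lit 40) (nat_lit 100) (nat_lit 392) (.leaf p025_l125))))
(.leaf p025_l126))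
(.trX (nat_lit 13) (nat_lit 61) (nat_lit 47) (nat_lit 100) (nat_lit 392) (.leaf p025_l127))))))
(.leaf p025_l128))
(.gv
(.st (nat_lit 1)
(.spl (nat_lit 0) (nat_lit 380)
(.spl (nat_lit 2) (nat_lit 320)
(.leaf p025_l129)
(.spl (nat_lit 0) (nat_lit 370)
(.spl (nat_lit 0) (nat_lit 365)
(.leaf p025_l130)
(.leaf p025_l131))
(.trX (nat_lit 13) (nat_lit 74) (nat_lit 33) (nat_lit 100) (nat_lit 396) (.leaf p025_l132))))
(.trZ (nat_lit 0) (nat_lit 82) (nat_lit 44) (nat_lit 100) (nat_lit 236) (.trX (nat_lit 13) (nat_lit 61) (nat_lit 47) (nat_lit 100) (nat_lit 392) (.leaf p025_l133))))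
(.leaf p025_l134))
(.st (nat_lit 1)
(.spl (nat_lit 0) (nat_lit 380)
(.spl (nat_lit 0) (nat_lit 370)
(.spl (nat_lit 6) (nat_lit 60)
(.spl (nat_lit 0) (nat_lit 365)
(.leaf p025_l135)
(.trZ (nat_lit 0) (nat_lit 80) (nat_lit 57) (nat_lit 100) (nat_lit 208) (.leaf p025_l136)))
(.leaf p025_l137))
(.trZ (nat_lit 0) (nat_lit 80) (nat_lit 53) (nat_lit 100) (nat_lit 216) (.trX (nat_lit 13) (nat_lit 74) (nat_lit 33) (nat_lit 100) (nat_lit 396) (.leaf p025_l138))))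
(.trZ (nat_lit 0) (nat_lit 82) (nat_lit 44) (nat_lit 100) (nat_lit 236) (.trX (nat_lit 13) (nat_lit 61) (nat_lit 47) (nat_lit 100) (nat_lit 392) (.leaf p025_l139))))
(.leaf p025_l140))))) (by decide +kernel)
noncomputable def p025_l141 : Lf2 := ⟨nat_lit 0, nat_lit 10, [nat_lit 0, nat_lit 5, nat_lit 5, nat_lit 20], false, nat_lit 0, nat_lit 0, nat_lit 0, nat_lit 0, ⟨nat_lit 675, nat_lit 0, nat_lit 325, nat_lit 8, nat_lit 315, nat_lit 0, nat_lit 0, nat_lit 0, nat_lit 0, nat_lit 215, nat_lit 648448, nat_lit 200, nat_lit 41345891, nat_lit 0, nat_lit 0, nat_lit 3327322, true, false⟩,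
 nat_lit 0, nat_lit 0, nat_lit 0, nat_lit 0, nat_lit 0, nat_lit 0, nat_lit 0, nat_lit 0, nat_lit 0, nat_lit 0, nat_lit 0, nat_lit 0, nat_lit 0, nat_lit 0, nat_lit 0, nat_lit 53625, nat_lit 0, nat_lit 0, [(nat_lit 24, [(nat_lit 3, nat_lit 325)]), (nat_lit 27, [(nat_lit 3, nat_lit 325)])],
 ⟨p025_k0, nat_lit 0, nat_lit 0, nat_lit 178, nat_lit 0, nat_lit 0, [nat_lit 2072510001, nat_lit 2147100001, nat_lit 2961600000], [], [nat_lit 36051070007, nat_lit 37472142007, nat_lit 41743384007, nat_lit 42884552007], nat_lit 0, nat_lit 0, nat_lit 0, nat_lit 0, nat_lit 0, nat_lit 0, [], [nat_lit 35, nat_lit 40, nat_lit 80, nat_lit 80, nat_lit 22, nat_lit 203, nat_lit 0, nat_lit 8]⟩, ⟨p025_k22, nat_lit 0, nat_lit 0, nat_lit 176, nat_lit 0, nat_lit 0, [nat_lit 1371600000, nat_lit 3164400000, nat_lit 4218750000], [], [nat_lit 24217338150, nat_lit 24646254075, nat_lit 27916066800, nat_lit 28266089400], nat_lit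 0, nat_lit 0, nat_lit 0, nat_lit 0, nat_lit 0, nat_lit 0, [], [nat_lit 6, nat_lit 40, nat_lit 80, nat_lit 80, nat_lit 3, nat_lit 203, nat_lit 0, nat_lit 7]⟩,
 ⟨nat_lit 0, nat_lit 3163, ⟨.ofNat (nat_lit 625100), .ofNat (nat_lit 937693), .ofNat (nat_lit 645949), .ofNat (nat_lit 959849), .ofNat (nat_lit 642170), .ofNat (nat_lit 899997), .ofNat (nat_lit 665865), .ofNat (nat_lit 924998)⟩, ⟨.ofNat (nat_lit 0), .ofNat (nat_lit 0), .ofNat (nat_lit 0), .ofNat (nat_lit 0), .ofNat (nat_lit 0), .ofNat (nat_lit 0), .ofNat (nat_lit 0), .ofNat (nat_lit 0)⟩⟩, []⟩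
noncomputable def p025_l142 : Lf2 := ⟨nat_lit 0, nat_lit 10, [nat_lit 0, nat_lit 5, nat_lit 5, nat_lit 20], false, nat_lit 0, nat_lit 0, nat_lit 0, nat_lit 0, ⟨nat_lit 82, nat_lit 918, nat_lit 0, nat_lit 8, nat_lit 294, nat_lit 0, nat_lit 0, nat_lit 0, nat_lit 0, nat_lit 0, nat_lit 0, nat_lit 0, nat_lit 43531723, nat_lit 23468277, nat_lit 0, nat_lit 3238075, true, false⟩,
 nat_lit 0, nat_lit 0, nat_lit 898, nat_lit 0, nat_lit 3319, nat_lit 673, nat_lit 0, nat_lit 0, nat_lit 0, nat_lit 0, nat_lit 0, nat_lit 0, nat_lit 0, nat_lit 0, nat_lit 0, nat_lit 229500, nat_lit 0, nat_lit 0, [(nat_lit 24, [(nat_lit 0, nat_lit 918)])],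
 ⟨p025_k6, nat_lit 0, nat_lit 0, nat_lit 146, nat_lit 0, nat_lit 0, [nat_lit 777533601, nat_lit 1950156800], [], [nat_lit 23846568992, nat_lit 25195131228, nat_lit 28074941124, nat_lit 29145066354], nat_lit 0, nat_lit 0, nat_lit 0, nat_lit 0, nat_lit 0, nat_lit 0, [], [nat_lit 86, nat_lit 40, nat_lit 80, nat_lit 80, nat_lit 87, nat_lit 203, nat_lit 0, nat_lit 8]⟩, ⟨p025_k17, nat_lit 0, nat_lit 0, nat_lit 712, nat_lit 0, nat_lit 1457446, [nat_lit 166624000, nat_lit 512500000], [], [nat_lit 2961508428, nat_lit 2999960250, nat_lit 3023179640, nat_lit 3050547786], nat_lit 1271250, nat_lit 1271250, nat_lit 1271250, nat_lit 1271250, nat_lit 0, nat_lit 0, [nat_lit 490000, nat_lit 1427500], [nat_lit 69, nat_lit 40, nat_lit 80, nat_lit 80, nat_lit 64, nat_lit 261, nat_lit 0, nat_lit 9]⟩,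
 ⟨nat_lit 2236, nat_lit 3163, ⟨.ofNat (nat_lit 632548), .ofNat (nat_lit 815720), .ofNat (nat_lit 654639), .ofNat (nat_lit 837812), .ofNat (nat_lit 636264), .ofNat (nat_lit 807623), .ofNat (nat_lit 658975), .ofNat (nat_lit 830334)⟩, ⟨.ofNat (nat_lit 0), .ofNat (nat_lit 0), .ofNat (nat_lit 0), .ofNat (nat_lit 0), .ofNat (nat_lit 0), .ofNat (nat_lit 0), .ofNat (nat_lit 0), .ofNat (nat_lit 0)⟩⟩, []⟩
noncomputable def p025_l143 : Lf2 := ⟨nat_lit 0, nat_lit 10, [nat_lit 0, nat_lit 5, nat_lit 5, nat_lit 20], true, nat_lit 0, nat_lit 0, nat_lit 0, nat_lit 0, ⟨nat_lit 0, nat_lit 1000, nat_lit 0, nat_lit 8, nat_lit 303, nat_lit 0, nat_lit 0, nat_lit 0, nat_lit 0, nat_lit 0, nat_lit 0, nat_lit 0, nat_lit 42585884, nat_lit 24414116, nat_lit 0, nat_lit 3279510, true, false⟩,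
 nat_lit 0, nat_lit 0, nat_lit 0, nat_lit 0, nat_lit 2419, nat_lit 0, nat_lit 0, nat_lit 0, nat_lit 0, nat_lit 0, nat_lit 0, nat_lit 0, nat_lit 0, nat_lit 0, nat_lit 0, nat_lit 250000, nat_lit 0, nat_lit 0, [(nat_lit 27, [(nat_lit 0, nat_lit 1000)])],
 ⟨p025_k2, nat_lit 0, nat_lit 0, nat_lit 132, nat_lit 0, nat_lit 0, [nat_lit 780800001, nat_lit 1042800000], [], [nat_lit 23907268779, nat_lit 25075004342, nat_lit 26917927704, nat_lit 28041699764], nat_lit 0, nat_lit 0, nat_lit 0, nat_lit 0, nat_lit 0, nat_lit 0, [], [nat_lit 66, nat_lit 40, nat_lit 80, nat_lit 80, nat_lit 67, nat_lit 203, nat_lit 0, nat_lit 10]⟩, C1.Rw.none,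
 ⟨nat_lit 0, nat_lit 2237, ⟨.ofNat (nat_lit 684059), .ofNat (nat_lit 807594), .ofNat (nat_lit 705906), .ofNat (nat_lit 829507), .ofNat (nat_lit 691099), .ofNat (nat_lit 799902), .ofNat (nat_lit 715172), .ofNat (nat_lit 824041)⟩, ⟨.ofNat (nat_lit 0), .ofNat (nat_lit 0), .ofNat (nat_lit 0), .ofNat (nat_lit 0), .ofNat (nat_lit 0), .ofNat (nat_lit 0), .ofNat (nat_lit 0), .ofNat (nat_lit 0)⟩⟩, []⟩
noncomputable def p025_l144 : Lf2 := ⟨nat_lit 0, nat_lit 10, [nat_lit 0, nat_lit 5, nat_lit 5, nat_lit 20], false, nat_lit 0, nat_lit 0, nat_lit 0, nat_lit 0, ⟨nat_lit 869, nat_lit 131, nat_lit 0, nat_lit 8, nat_lit 351, nat_lit 0, nat_lit 0, nat_lit 0, nat_lit 0, nat_lit 0, nat_lit 0, nat_lit 0, nat_lit 37897810, nat_lit 29102190, nat_lit 0, nat_lit 3422525, true, true⟩,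
 nat_lit 0, nat_lit 0, nat_lit 7372, nat_lit 0, nat_lit 3896, nat_lit 5529, nat_lit 114, nat_lit 0, nat_lit 0, nat_lit 316, nat_lit 0, nat_lit 0, nat_lit 0, nat_lit 0, nat_lit 0, nat_lit 131000, nat_lit 0, nat_lit 0, [(nat_lit 24, [(nat_lit 2, nat_lit 131)])],
 ⟨p025_k0, nat_lit 0, nat_lit 0, nat_lit 169, nat_lit 0, nat_lit 0, [nat_lit 1007430000, nat_lit 2790121201, nat_lit 3799924800], [], [nat_lit 30629206736, nat_lit 31177268584, nat_lit 34285430453, nat_lit 34739974856], nat_lit 0, nat_lit 0, nat_lit 0, nat_lit 0, nat_lit 0, nat_lit 0, [], [nat_lit 35, nat_lit 40, nat_lit 80, nat_lit 80, nat_lit 22, nat_lit 203, nat_lit 0, nat_lit 7]⟩, ⟨p025_k22, nat_lit 0, nat_lit 0, nat_lit 628, nat_lit 0, nat_lit 1283752, [nat_lit 1765808000, nat_lit 4073872000, nat_lit 5431250000], [], [nat_lit 32528970804, nat_lit 32713302381, nat_lit 34091554095, nat_lit 34261567933], nat_lit 1271250, nat_lit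 1271250, nat_lit 1271250, nat_lit 1271250, nat_lit 0, nat_lit 0, [nat_lit 490000, nat_lit 1100000, nat_lit 1442500], [nat_lit 6, nat_lit 40, nat_lit 80, nat_lit 80, nat_lit 3, nat_lit 248, nat_lit 0, nat_lit 8]⟩,
 ⟨nat_lit 2738, nat_lit 3163, ⟨.ofNat (nat_lit 815772), .ofNat (nat_lit 931599), .ofNat (nat_lit 826842), .ofNat (nat_lit 942677), .ofNat (nat_lit 811670), .ofNat (nat_lit 923903), .ofNat (nat_lit 822873), .ofNat (nat_lit 935112)⟩, ⟨.ofNat (nat_lit 0), .ofNat (nat_lit 0), .ofNat (nat_lit 0), .ofNat (nat_lit 0), .ofNat (nat_lit 0), .ofNat (nat_lit 0), .ofNat (nat_lit 0), .ofNat (nat_lit 0)⟩⟩, []⟩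
noncomputable def p025_l145 : Lf2 := ⟨nat_lit 0, nat_lit 10, [nat_lit 0, nat_lit 5, nat_lit 5, nat_lit 20], false, nat_lit 0, nat_lit 0, nat_lit 0, nat_lit 0, ⟨nat_lit 1000, nat_lit 0, nat_lit 0, nat_lit 0, nat_lit 0, nat_lit 0, nat_lit 0, nat_lit 0, nat_lit 0, nat_lit 0, nat_lit 0, nat_lit 0, nat_lit 0, nat_lit 0, nat_lit 0, nat_lit 0, false, false⟩,
 nat_lit 0, nat_lit 0, nat_lit 6183, nat_lit 0, nat_lit 4335, nat_lit 4819, nat_lit 156, nat_lit 0, nat_lit 0, nat_lit 1380, nat_lit 0, nat_lit 0, nat_lit 0, nat_lit 0, nat_lit 0, nat_lit 0, nat_lit 0, nat_lit 0, [],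
 ⟨p025_k0, nat_lit 0, nat_lit 0, nat_lit 170, nat_lit 0, nat_lit 0, [nat_lit 938000000, nat_lit 3282000000, nat_lit 4688000000], [], [nat_lit 31784133840, nat_lit 32360494945, nat_lit 35862696880, nat_lit 36356480480], nat_lit 0, nat_lit 0, nat_lit 0, nat_lit 0, nat_lit 0, nat_lit 0, [], [nat_lit 35, nat_lit 40, nat_lit 80, nat_lit 80, nat_lit 22, nat_lit 203, nat_lit 0, nat_lit 7]⟩, ⟨p025_k24, nat_lit 0, nat_lit 0, nat_lit 627, nat_lit 0, nat_lit 1279972, [nat_lit 2032000000, nat_lit 4688000000, nat_lit 6250000000], [], [nat_lit 33746041636, nat_lit 33992508720, nat_lit 35779699450, nat_lit 35982641764], nat_lit 1271250, nat_lit 1271250, nat_lit 1271250, nat_lit 1271250, nat_lit 0, nat_lit 0, [nat_lit 490000, nat_lit 1100000, nat_lit 1442500], [nat_lit 6, nat_lit 40, nat_lit 80, nat_lit 80, nat_lit 3, nat_lit 250, nat_lit 0, nat_lit 8]⟩,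
 zbF0, []⟩
noncomputable def p025_l146 : Lf2 := ⟨nat_lit 0, nat_lit 10, [nat_lit 0, nat_lit 5, nat_lit 5, nat_lit 20], false, nat_lit 0, nat_lit 0, nat_lit 0, nat_lit 0, ⟨nat_lit 157, nat_lit 843, nat_lit 0, nat_lit 8, nat_lit 338, nat_lit 0, nat_lit 0, nat_lit 0, nat_lit 0, nat_lit 0, nat_lit 0, nat_lit 0, nat_lit 39114476, nat_lit 27885524, nat_lit 0, nat_lit 3395181, true, true⟩,
 nat_lit 0, nat_lit 0, nat_lit 1438, nat_lit 0, nat_lit 2536, nat_lit 1078, nat_lit 178, nat_lit 0, nat_lit 0, nat_lit 41, nat_lit 0, nat_lit 0, nat_lit 0, nat_lit 0, nat_lit 0, nat_lit 210750, nat_lit 0, nat_lit 0, [(nat_lit 24, [(nat_lit 0, nat_lit 843)])],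
 ⟨p025_k9, nat_lit 0, nat_lit 0, nat_lit 161, nat_lit 0, nat_lit 0, [nat_lit 790643601, nat_lit 1667823601, nat_lit 2173836800], [], [nat_lit 27123146041, nat_lit 27595233185, nat_lit 28770498869, nat_lit 29204665593], nat_lit 0, nat_lit 0, nat_lit 0, nat_lit 0, nat_lit 0, nat_lit 0, [], [nat_lit 35, nat_lit 40, nat_lit 80, nat_lit 80, nat_lit 22, nat_lit 203, nat_lit 0, nat_lit 7]⟩, ⟨p025_k22, nat_lit 0, nat_lit 0, nat_lit 667, nat_lit 0, nat_lit 1393558, [nat_lit 319024000, nat_lit 736016000, nat_lit 981250000], [], [nat_lit 5698287840, nat_lit 5731914821, nat_lit 5843880402, nat_lit 5873602622], nat_lit 1271250, nat_lit 1271250, nat_lit 1271250, nat_lit 1271250, nat_lit 0, nat_lit 0, [nat_lit 490000, nat_lit 1100000, nat_lit 1442500], [nat_lit 6, nat_lit 40, nat_lit 80, nat_lit 80, nat_lit 3, nat_lit 253, nat_lit 0, nat_lit 8]⟩,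
 ⟨nat_lit 2236, nat_lit 2739, ⟨.ofNat (nat_lit 811671), .ofNat (nat_lit 870748), .ofNat (nat_lit 822869), .ofNat (nat_lit 881957), .ofNat (nat_lit 807675), .ofNat (nat_lit 864706), .ofNat (nat_lit 819051), .ofNat (nat_lit 876094)⟩, ⟨.ofNat (nat_lit 0), .ofNat (nat_lit 0), .ofNat (nat_lit 0), .ofNat (nat_lit 0), .ofNat (nat_lit 0), .ofNat (nat_lit 0), .ofNat (nat_lit 0), .ofNat (nat_lit 0)⟩⟩, []⟩
noncomputable def p025_l147 : Lf2 := ⟨nat_lit 0, nat_lit 10, [nat_lit 0, nat_lit 5, nat_lit 5, nat_lit 20], false, nat_lit 0, nat_lit 0, nat_lit 0, nat_lit 0, ⟨nat_lit 164, nat_lit 836, nat_lit 0, nat_lit 9, nat_lit 359, nat_lit 0, nat_lit 0, nat_lit 0, nat_lit 0, nat_lit 0, nat_lit 0, nat_lit 0, nat_lit 37079418, nat_lit 29920582, nat_lit 0, nat_lit 3437139, true, true⟩,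
 nat_lit 0, nat_lit 0, nat_lit 1291, nat_lit 0, nat_lit 2792, nat_lit 968, nat_lit 93, nat_lit 0, nat_lit 0, nat_lit 62, nat_lit 0, nat_lit 0, nat_lit 0, nat_lit 0, nat_lit 0, nat_lit 209000, nat_lit 0, nat_lit 0, [(nat_lit 24, [(nat_lit 0, nat_lit 836)])],
 ⟨p025_k9, nat_lit 0, nat_lit 0, nat_lit 169, nat_lit 0, nat_lit 0, [nat_lit 791867200, nat_lit 1681227200, nat_lit 2194713600], [], [nat_lit 29887294228, nat_lit 30101975428, nat_lit 31189603425, nat_lit 31391571604], nat_lit 0, nat_lit 0, nat_lit 0, nat_lit 0, nat_lit 0, nat_lit 0, [], [nat_lit 35, nat_lit 40, nat_lit 80, nat_lit 80, nat_lit 22, nat_lit 203, nat_lit 0, nat_lit 7]⟩, ⟨p025_k22, nat_lit 0, nat_lit 0, nat_lit 648, nat_lit 0, nat_lit 1338043, [nat_lit 333248000, nat_lit 768832000, nat_lit 1025000000], [], [nat_lit 6665995704, nat_lit 6697063460, nat_lit 6792668341, nat_lit 6825019247], nat_lit 1271250, nat_lit 1271250,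 nat_lit 1271250, nat_lit 1271250, nat_lit 0, nat_lit 0, [nat_lit 490000, nat_lit 1100000, nat_lit 1442500], [nat_lit 6, nat_lit 40, nat_lit 80, nat_lit 80, nat_lit 3, nat_lit 253, nat_lit 0, nat_lit 8]⟩,
 ⟨nat_lit 2500, nat_lit 2739, ⟨.ofNat (nat_lit 870748), .ofNat (nat_lit 917997), .ofNat (nat_lit 881957), .ofNat (nat_lit 929206), .ofNat (nat_lit 867740), .ofNat (nat_lit 914192), .ofNat (nat_lit 879031), .ofNat (nat_lit 925482)⟩, ⟨.ofNat (nat_lit 0), .ofNat (nat_lit 0), .ofNat (nat_lit 0), .ofNat (nat_lit 0), .ofNat (nat_lit 0), .ofNat (nat_lit 0), .ofNat (nat_lit 0), .ofNat (nat_lit 0)⟩⟩, [⟨nat_lit 13, nat_lit 65, nat_lit 46, nat_lit 100, nat_lit 225106607⟩]⟩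
noncomputable def p025_l148 : Lf2 := ⟨nat_lit 0, nat_lit 10, [nat_lit 0, nat_lit 5, nat_lit 5, nat_lit 20], false, nat_lit 0, nat_lit 0, nat_lit 0, nat_lit 0, ⟨nat_lit 110, nat_lit 890, nat_lit 0, nat_lit 9, nat_lit 357, nat_lit 0, nat_lit 0, nat_lit 0, nat_lit 0, nat_lit 0, nat_lit 0, nat_lit 0, nat_lit 37310926, nat_lit 29689074, nat_lit 0, nat_lit 3433312, true, true⟩,
 nat_lit 0, nat_lit 0, nat_lit 972, nat_lit 0, nat_lit 2755, nat_lit 729, nat_lit 0, nat_lit 0, nat_lit 0, nat_lit 28, nat_lit 0, nat_lit 0, nat_lit 0, nat_lit 0, nat_lit 0, nat_lit 222500, nat_lit 0, nat_lit 0, [(nat_lit 24, [(nat_lit 0, nat_lit 890)])],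
 ⟨p025_k15, nat_lit 0, nat_lit 0, nat_lit 143, nat_lit 0, nat_lit 0, [nat_lit 782428000, nat_lit 1577828000], [], [nat_lit 29951772032, nat_lit 30175392985, nat_lit 31125343521, nat_lit 31335117940], nat_lit 0, nat_lit 0, nat_lit 0, nat_lit 0, nat_lit 0, nat_lit 0, [], [nat_lit 66, nat_lit 40, nat_lit 80, nat_lit 80, nat_lit 67, nat_lit 203, nat_lit 0, nat_lit 9]⟩, ⟨p025_k22, nat_lit 0, nat_lit 0, nat_lit 668, nat_lit 0, nat_lit 1393558, [nat_lit 223520000, nat_lit 515680000, nat_lit 687500000], [], [nat_lit 4250889742, nat_lit 4272308765, nat_lit 4323406325, nat_lit 4342970012], nat_lit 1271250, nat_lit 1271250, nat_lit 1271250, nat_lit 1271250, nat_lit 0, nat_lit 0, [nat_lit 490000, nat_lit 1100000, nat_lit 1442500], [nat_lit 6, nat_lit 40, nat_lit 80, nat_lit 80, nat_lit 3, nat_lit 257, nat_lit 0, nat_lit 8]⟩,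
 ⟨nat_lit 2236, nat_lit 2500, ⟨.ofNat (nat_lit 867740), .ofNat (nat_lit 908386), .ofNat (nat_lit 879031), .ofNat (nat_lit 919676), .ofNat (nat_lit 864706), .ofNat (nat_lit 904617), .ofNat (nat_lit 876094), .ofNat (nat_lit 916004)⟩, ⟨.ofNat (nat_lit 0), .ofNat (nat_lit 0), .ofNat (nat_lit 0), .ofNat (nat_lit 0), .ofNat (nat_lit 0), .ofNat (nat_lit 0), .ofNat (nat_lit 0), .ofNat (nat_lit 0)⟩⟩, [⟨nat_lit 13, nat_lit 59, nat_lit 52, nat_lit 100, nat_lit 285599680⟩]⟩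
noncomputable def p025_l149 : Lf2 := ⟨nat_lit 0, nat_lit 10, [nat_lit 0, nat_lit 5, nat_lit 5, nat_lit 20], false, nat_lit 0, nat_lit 0, nat_lit 0, nat_lit 0, ⟨nat_lit 1000, nat_lit 0, nat_lit 0, nat_lit 0, nat_lit 0, nat_lit 0, nat_lit 0, nat_lit 0, nat_lit 0, nat_lit 0, nat_lit 0, nat_lit 0, nat_lit 0, nat_lit 0, nat_lit 0, nat_lit 0, false, false⟩,
 nat_lit 0, nat_lit 0, nat_lit 6090, nat_lit 0, nat_lit 3397, nat_lit 4747, nat_lit 415, nat_lit 0, nat_lit 0, nat_lit 1632, nat_lit 0, nat_lit 0, nat_lit 0, nat_lit 0, nat_lit 0, nat_lit 0, nat_lit 0, nat_lit 0, [],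
 ⟨p025_k9, nat_lit 0, nat_lit 0, nat_lit 172, nat_lit 0, nat_lit 0, [nat_lit 938000000, nat_lit 3282000000, nat_lit 4688000000], [], [nat_lit 29762891237, nat_lit 30267516246, nat_lit 33246878817, nat_lit 33780160682], nat_lit 0, nat_lit 0, nat_lit 0, nat_lit 0, nat_lit 0, nat_lit 0, [], [nat_lit 35, nat_lit 40, nat_lit 80, nat_lit 80, nat_lit 22, nat_lit 203, nat_lit 0, nat_lit 7]⟩, ⟨p025_k24, nat_lit 0, nat_lit 0, nat_lit 663, nat_lit 0, nat_lit 1381218, [nat_lit 2032000000, nat_lit 4688000000, nat_lit 6250000000], [], [nat_lit 33116633360, nat_lit 33326399968, nat_lit 35219936879, nat_lit 35453838688], nat_lit 1271250, nat_lit 1271250, nat_lit 1271250, nat_lit 1271250, nat_lit 0, nat_lit 0, [nat_lit 490000, nat_lit 1100000, nat_lit 1442500], [nat_lit 6, nat_lit 40, nat_lit 80, nat_lit 80, nat_lit 3, nat_lit 258, nat_lit 0, nat_lit 9]⟩,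
 zbF0, []⟩
noncomputable def p025_l150 : Lf2 := ⟨nat_lit 0, nat_lit 10, [nat_lit 0, nat_lit 5, nat_lit 5, nat_lit 20], false, nat_lit 0, nat_lit 0, nat_lit 0, nat_lit 0, ⟨nat_lit 119, nat_lit 881, nat_lit 0, nat_lit 8, nat_lit 341, nat_lit 0, nat_lit 0, nat_lit 0, nat_lit 0, nat_lit 0, nat_lit 0, nat_lit 0, nat_lit 38802077, nat_lit 28197923, nat_lit 0, nat_lit 3402846, true, true⟩,
 nat_lit 0, nat_lit 0, nat_lit 1097, nat_lit 0, nat_lit 2263, nat_lit 822, nat_lit 0, nat_lit 0, nat_lit 0, nat_lit 24, nat_lit 0, nat_lit 0, nat_lit 0, nat_lit 0, nat_lit 0, nat_lit 289550, nat_lit 0, nat_lit 0, [(nat_lit 27, [(nat_lit 0, nat_lit 419), (nat_lit 1, nat_lit 462)])],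
 ⟨p025_k2, nat_lit 0, nat_lit 0, nat_lit 149, nat_lit 0, nat_lit 0, [nat_lit 761068401, nat_lit 977364000], [], [nat_lit 27340554131, nat_lit 28247507793, nat_lit 29836403941, nat_lit 30634887556], nat_lit 0, nat_lit 0, nat_lit 0, nat_lit 0, nat_lit 0, nat_lit 0, [], [nat_lit 66, nat_lit 40, nat_lit 80, nat_lit 80, nat_lit 67, nat_lit 203, nat_lit 0, nat_lit 9]⟩, ⟨p025_k22, nat_lit 0, nat_lit 0, nat_lit 765, nat_lit 0, nat_lit 1626899, [nat_lit 241808000, nat_lit 557872000, nat_lit 743750000], [], [nat_lit 4550154396, nat_lit 4569726724, nat_lit 4687354057, nat_lit 4727909042], nat_lit 1271250, nat_lit 1271250, nat_lit 1271250, nat_lit 1271250, nat_lit 0, nat_lit 0, [nat_lit 490000, nat_lit 1100000, nat_lit 1442500], [nat_lit 6, nat_lit 40, nat_lit 80, nat_lit 80, nat_lit 3, nat_lit 281, nat_lit 0, nat_lit 10]⟩,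
 ⟨nat_lit 0, nat_lit 2237, ⟨.ofNat (nat_lit 807594), .ofNat (nat_lit 898913), .ofNat (nat_lit 818584), .ofNat (nat_lit 910301), .ofNat (nat_lit 799902), .ofNat (nat_lit 879996), .ofNat (nat_lit 812004), .ofNat (nat_lit 892497)⟩, ⟨.ofNat (nat_lit 0), .ofNat (nat_lit 0), .ofNat (nat_lit 0), .ofNat (nat_lit 0), .ofNat (nat_lit 0), .ofNat (nat_lit 0), .ofNat (nat_lit 0), .ofNat (nat_lit 0)⟩⟩, [⟨nat_lit 13, nat_lit 40, nat_lit 70, nat_lit 100, nat_lit 296331363⟩]⟩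
noncomputable def p025_l151 : Lf2 := ⟨nat_lit 0, nat_lit 10, [nat_lit 0, nat_lit 5, nat_lit 5, nat_lit 20], false, nat_lit 0, nat_lit 0, nat_lit 0, nat_lit 0, ⟨nat_lit 230, nat_lit 770, nat_lit 0, nat_lit 8, nat_lit 348, nat_lit 0, nat_lit 0, nat_lit 0, nat_lit 0, nat_lit 0, nat_lit 0, nat_lit 0, nat_lit 38152233, nat_lit 28847767, nat_lit 0, nat_lit 3417365, true, true⟩,
 nat_lit 0, nat_lit 0, nat_lit 1659, nat_lit 0, nat_lit 2239, nat_lit 1292, nat_lit 0, nat_lit 0, nat_lit 0, nat_lit 206, nat_lit 0, nat_lit 0, nat_lit 0, nat_lit 0, nat_lit 0, nat_lit 314000, nat_lit 0, nat_lit 0, [(nat_lit 27, [(nat_lit 1, nat_lit 760), (nat_lit 2, nat_lit 10)])],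
 ⟨p025_k2, nat_lit 0, nat_lit 0, nat_lit 152, nat_lit 0, nat_lit 0, [nat_lit 753876001, nat_lit 975996000], [], [nat_lit 27360704691, nat_lit 28264406977, nat_lit 30160032369, nat_lit 30939388533], nat_lit 0, nat_lit 0, nat_lit 0, nat_lit 0, nat_lit 0, nat_lit 0, [], [nat_lit 66, nat_lit 40, nat_lit 80, nat_lit 80, nat_lit 67, nat_lit 203, nat_lit 0, nat_lit 9]⟩, ⟨p025_k24, nat_lit 0, nat_lit 0, nat_lit 753, nat_lit 0, nat_lit 1596593, [nat_lit 467360000, nat_lit 1078240000, nat_lit 1437500000], [], [nat_lit 8328781934, nat_lit 8369374102, nat_lit 8635162327, nat_lit 8668458665], nat_lit 1271250, nat_lit 1271250, nat_lit 1271250, nat_lit 1271250, nat_lit 0, nat_lit 0, [nat_lit 490000, nat_lit 1100000, nat_lit 1442500], [nat_lit 6, nat_lit 40, nat_lit 80, nat_lit 80, nat_lit 3, nat_lit 280, nat_lit 0, nat_lit 9]⟩,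
 ⟨nat_lit 0, nat_lit 2237, ⟨.ofNat (nat_lit 818584), .ofNat (nat_lit 921704), .ofNat (nat_lit 829507), .ofNat (nat_lit 933091), .ofNat (nat_lit 812004), .ofNat (nat_lit 902497), .ofNat (nat_lit 824041), .ofNat (nat_lit 914997)⟩, ⟨.ofNat (nat_lit 0), .ofNat (nat_lit 0), .ofNat (nat_lit 0), .ofNat (nat_lit 0), .ofNat (nat_lit 0), .ofNat (nat_lit 0), .ofNat (nat_lit 0), .ofNat (nat_lit 0)⟩⟩, [⟨nat_lit 13, nat_lit 42, nat_lit 66, nat_lit 100, nat_lit 257844995⟩]⟩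
noncomputable def p025_l152 : Lf2 := ⟨nat_lit 0, nat_lit 10, [nat_lit 0, nat_lit 5, nat_lit 5, nat_lit 20], true, nat_lit 0, nat_lit 0, nat_lit 0, nat_lit 0, ⟨nat_lit 0, nat_lit 1000, nat_lit 0, nat_lit 8, nat_lit 315, nat_lit 0, nat_lit 0, nat_lit 0, nat_lit 0, nat_lit 0, nat_lit 0, nat_lit 0, nat_lit 0, nat_lit 0, nat_lit 0, nat_lit 5000000, true, false⟩,
 nat_lit 0, nat_lit 0, nat_lit 0, nat_lit 0, nat_lit 2793, nat_lit 0, nat_lit 0, nat_lit 0, nat_lit 0, nat_lit 0, nat_lit 0, nat_lit 0, nat_lit 0, nat_lit 0, nat_lit 0, nat_lit 250000, nat_lit 0, nat_lit 0, [(nat_lit 24, [(nat_lit 0, nat_lit 1000)]), (nat_lit 27, [(nat_lit 0, nat_lit 1000)])],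
 ⟨p025_k6, nat_lit 0, nat_lit 0, nat_lit 173, nat_lit 0, nat_lit 0, [nat_lit 780800001, nat_lit 1705600000], [], [nat_lit 24050441021, nat_lit 26368412691, nat_lit 31297564115, nat_lit 33149287268], nat_lit 0, nat_lit 0, nat_lit 0, nat_lit 0, nat_lit 0, nat_lit 0, [], [nat_lit 86, nat_lit 40, nat_lit 80, nat_lit 80, nat_lit 87, nat_lit 203, nat_lit 0, nat_lit 8]⟩, C1.Rw.none,
 ⟨nat_lit 0, nat_lit 3163, ⟨.ofNat (nat_lit 625100), .ofNat (nat_lit 937693), .ofNat (nat_lit 645949), .ofNat (nat_lit 959849), .ofNat (nat_lit 642170), .ofNat (nat_lit 899997), .ofNat (nat_lit 665865), .ofNat (nat_lit 924998)⟩, ⟨.ofNat (nat_lit 0), .ofNat (nat_lit 0), .ofNat (nat_lit 0), .ofNat (nat_lit 0), .ofNat (nat_lit 0), .ofNat (nat_lit 0), .ofNat (nat_lit 0), .ofNat (nat_lit 0)⟩⟩, [⟨nat_lit 13, nat_lit 84, nat_lit 21, nat_lit 100, nat_lit 318168613⟩]⟩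
noncomputable def p025_l153 : Lf2 := ⟨nat_lit 0, nat_lit 10, [nat_lit 0, nat_lit 5, nat_lit 5, nat_lit 20], false, nat_lit 0, nat_lit 0, nat_lit 0, nat_lit 0, ⟨nat_lit 782, nat_lit 0, nat_lit 218, nat_lit 8, nat_lit 315, nat_lit 0, nat_lit 0, nat_lit 0, nat_lit 0, nat_lit 215, nat_lit 648448, nat_lit 200, nat_lit 41345891, nat_lit 0, nat_lit 0, nat_lit 3327322, true, false⟩,
 nat_lit 0, nat_lit 4956, nat_lit 0, nat_lit 0, nat_lit 4316, nat_lit 4845, nat_lit 0, nat_lit 0, nat_lit 0, nat_lit 0, nat_lit 0, nat_lit 0, nat_lit 0, nat_lit 0, nat_lit 0, nat_lit 218000, nat_lit 0, nat_lit 0, [(nat_lit 24, [(nat_lit 6, nat_lit 218)]), (nat_lit 27, [(nat_lit 6, nat_lit 218)])],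
 ⟨p025_k6, nat_lit 0, nat_lit 0, nat_lit 572, nat_lit 0, nat_lit 1267913, [nat_lit 1159400800, nat_lit 2655193600], [], [nat_lit 33431462160, nat_lit 34701589880, nat_lit 37131357744, nat_lit 38198148016], nat_lit 1271250, nat_lit 1271250, nat_lit 1271250, nat_lit 1271250, nat_lit 0, nat_lit 0, [nat_lit 230000, nat_lit 1100000], [nat_lit 86, nat_lit 40, nat_lit 80, nat_lit 80, nat_lit 87, nat_lit 243, nat_lit 0, nat_lit 10]⟩, ⟨p025_k17, nat_lit 0, nat_lit 0, nat_lit 180, nat_lit 0, nat_lit 0, [nat_lit 1589024000, nat_lit 4887500000], [], [nat_lit 22751020338, nat_lit 23970106505, nat_lit 30551529532, nat_lit 31270306668], nat_lit 0, nat_lit 0, nat_lit 0, nat_lit 0, nat_lit 0, nat_lit 0, [], [nat_lit 69, nat_lit 40, nat_lit 80, nat_lit 80, nat_lit 64, nat_lit 203, nat_lit 0, nat_lit 7]⟩,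
 ⟨nat_lit 0, nat_lit 3163, ⟨.ofNat (nat_lit 625100), .ofNat (nat_lit 937693), .ofNat (nat_lit 645949), .ofNat (nat_lit 959849), .ofNat (nat_lit 642170), .ofNat (nat_lit 899997), .ofNat (nat_lit 665865), .ofNat (nat_lit 924998)⟩, ⟨.ofNat (nat_lit 0), .ofNat (nat_lit 0), .ofNat (nat_lit 0), .ofNat (nat_lit 0), .ofNat (nat_lit 0), .ofNat (nat_lit 0), .ofNat (nat_lit 0), .ofNat (nat_lit 0)⟩⟩, [⟨nat_lit 0, nat_lit 79, nat_lit 45, nat_lit 100, nat_lit 75632999⟩]⟩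
noncomputable def p025_l154 : Lf2 := ⟨nat_lit 0, nat_lit 10, [nat_lit 0, nat_lit 5, nat_lit 5, nat_lit 20], false, nat_lit 0, nat_lit 0, nat_lit 0, nat_lit 0, ⟨nat_lit 1000, nat_lit 0, nat_lit 0, nat_lit 0, nat_lit 0, nat_lit 0, nat_lit 0, nat_lit 0, nat_lit 0, nat_lit 0, nat_lit 0, nat_lit 0, nat_lit 0, nat_lit 0, nat_lit 0, nat_lit 0, false, false⟩,
 nat_lit 7283, nat_lit 0, nat_lit 0, nat_lit 0, nat_lit 5512, nat_lit 5462, nat_lit 0, nat_lit 0, nat_lit 0, nat_lit 0, nat_lit 0, nat_lit 0, nat_lit 0, nat_lit 0, nat_lit 0, nat_lit 0, nat_lit 0, nat_lit 0, [],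
 ⟨p025_k6, nat_lit 0, nat_lit 0, nat_lit 370, nat_lit 0, nat_lit 684570, [nat_lit 938000000, nat_lit 4688000000], [], [nat_lit 34961250368, nat_lit 37086131504, nat_lit 40782516928, nat_lit 42163281536], nat_lit 1271250, nat_lit 1271250, nat_lit 1271250, nat_lit 1271250, nat_lit 0, nat_lit 0, [nat_lit 230000, nat_lit 1100000], [nat_lit 86, nat_lit 40, nat_lit 80, nat_lit 80, nat_lit 87, nat_lit 203, nat_lit 0, nat_lit 8]⟩, ⟨p025_k17, nat_lit 0, nat_lit 0, nat_lit 440, nat_lit 0, nat_lit 816466, [nat_lit 2032000000, nat_lit 6250000000], [], [nat_lit 39039267404, nat_lit 39824528948, nat_lit 44770664680, nat_lit 45327083760], nat_lit 1271250, nat_lit 1271250, nat_lit 1271250, nat_lit 1271250, nat_lit 0, nat_lit 0, [nat_lit 490000, nat_lit 1427500], [nat_lit 69, nat_lit 40, nat_lit 80, nat_lit 80, nat_lit 64, nat_lit 203, nat_lit 0, nat_lit 7]⟩,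
 zbF0, [⟨nat_lit 0, nat_lit 79, nat_lit 45, nat_lit 100, nat_lit 341202400⟩]⟩
noncomputable def p025_l155 : Lf2 := ⟨nat_lit 0, nat_lit 10, [nat_lit 0, nat_lit 5, nat_lit 5, nat_lit 20], false, nat_lit 0, nat_lit 0, nat_lit 0, nat_lit 0, ⟨nat_lit 736, nat_lit 264, nat_lit 0, nat_lit 8, nat_lit 315, nat_lit 0, nat_lit 0, nat_lit 0, nat_lit 0, nat_lit 0, nat_lit 0, nat_lit 0, nat_lit 0, nat_lit 0, nat_lit 0, nat_lit 5000000, true, false⟩,
 nat_lit 0, nat_lit 5223, nat_lit 0, nat_lit 0, nat_lit 4549, nat_lit 4560, nat_lit 0, nat_lit 0, nat_lit 0, nat_lit 0, nat_lit 0, nat_lit 0, nat_lit 0, nat_lit 0, nat_lit 0, nat_lit 264000, nat_lit 0, nat_lit 0, [(nat_lit 24, [(nat_lit 2, nat_lit 264)]), (nat_lit 27, [(nat_lit 2, nat_lit 264)])],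
 ⟨p025_k6, nat_lit 0, nat_lit 0, nat_lit 572, nat_lit 0, nat_lit 1267913, [nat_lit 1248992000, nat_lit 2898291200], [], [nat_lit 34035178240, nat_lit 35328063070, nat_lit 37735894916, nat_lit 38970560724], nat_lit 1271250, nat_lit 1271250, nat_lit 1271250, nat_lit 1271250, nat_lit 0, nat_lit 0, [nat_lit 230000, nat_lit 1100000], [nat_lit 86, nat_lit 40, nat_lit 80, nat_lit 80, nat_lit 87, nat_lit 243, nat_lit 0, nat_lit 10]⟩, ⟨p025_k17, nat_lit 0, nat_lit 0, nat_lit 180, nat_lit 0, nat_lit 0, [nat_lit 1495552000, nat_lit 4600000000], [], [nat_lit 21412725024, nat_lit 22560100240, nat_lit 28754380736, nat_lit 29430876864], nat_lit 0, nat_lit 0, nat_lit 0, nat_lit 0, nat_lit 0, nat_lit 0, [], [nat_lit 69, nat_lit 40, nat_lit 80, nat_lit 80, nat_lit 64, nat_lit 203, nat_lit 0, nat_lit 7]⟩,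
 ⟨nat_lit 0, nat_lit 3163, ⟨.ofNat (nat_lit 625100), .ofNat (nat_lit 937693), .ofNat (nat_lit 645949), .ofNat (nat_lit 959849), .ofNat (nat_lit 642170), .ofNat (nat_lit 899997), .ofNat (nat_lit 665865), .ofNat (nat_lit 924998)⟩, ⟨.ofNat (nat_lit 0), .ofNat (nat_lit 0), .ofNat (nat_lit 0), .ofNat (nat_lit 0), .ofNat (nat_lit 0), .ofNat (nat_lit 0), .ofNat (nat_lit 0), .ofNat (nat_lit 0)⟩⟩, [⟨nat_lit 0, nat_lit 79, nat_lit 45, nat_lit 100, nat_lit 12704529⟩]⟩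
noncomputable def p025_l156 : Lf2 := ⟨nat_lit 0, nat_lit 10, [nat_lit 0, nat_lit 5, nat_lit 5, nat_lit 20], false, nat_lit 0, nat_lit 0, nat_lit 0, nat_lit 0, ⟨nat_lit 672, nat_lit 328, nat_lit 0, nat_lit 8, nat_lit 315, nat_lit 0, nat_lit 0, nat_lit 0, nat_lit 0, nat_lit 0, nat_lit 0, nat_lit 0, nat_lit 0, nat_lit 0, nat_lit 0, nat_lit 5000000, true, false⟩,
 nat_lit 4615, nat_lit 0, nat_lit 0, nat_lit 0, nat_lit 4019, nat_lit 3461, nat_lit 0, nat_lit 0, nat_lit 0, nat_lit 0, nat_lit 0, nat_lit 0, nat_lit 0, nat_lit 0, nat_lit 0, nat_lit 328000, nat_lit 0, nat_lit 0, [(nat_lit 24, [(nat_lit 2, nat_lit 328)]), (nat_lit 27, [(nat_lit 2, nat_lit 328)])],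
 ⟨p025_k6, nat_lit 0, nat_lit 0, nat_lit 370, nat_lit 0, nat_lit 684570, [nat_lit 1324384000, nat_lit 2464422400], [], [nat_lit 29434669680, nat_lit 31220205494, nat_lit 35580704820, nat_lit 37213570444], nat_lit 1271250, nat_lit 1271250, nat_lit 1271250, nat_lit 1271250, nat_lit 0, nat_lit 0, [nat_lit 230000, nat_lit 1100000], [nat_lit 86, nat_lit 40, nat_lit 80, nat_lit 80, nat_lit 87, nat_lit 203, nat_lit 0, nat_lit 8]⟩, ⟨p025_k17, nat_lit 0, nat_lit 0, nat_lit 440, nat_lit 0, nat_lit 816466, [nat_lit 1365504000, nat_lit 4200000000], [], [nat_lit 27085640594, nat_lit 27601184926, nat_lit 30646383004, nat_lit 31015407736], nat_lit 1271250, nat_lit 1271250, nat_lit 1271250, nat_lit 1271250, nat_lit 0, nat_lit 0, [nat_lit 490000, nat_lit 1427500], [nat_lit 69, nat_lit 40, nat_lit 80, nat_lit 80, nat_lit 64, nat_lit 203, nat_lit 0, nat_lit 7]⟩,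
 ⟨nat_lit 0, nat_lit 3163, ⟨.ofNat (nat_lit 625100), .ofNat (nat_lit 937693), .ofNat (nat_lit 645949), .ofNat (nat_lit 959849), .ofNat (nat_lit 642170), .ofNat (nat_lit 899997), .ofNat (nat_lit 665865), .ofNat (nat_lit 924998)⟩, ⟨.ofNat (nat_lit 0), .ofNat (nat_lit 0), .ofNat (nat_lit 0), .ofNat (nat_lit 0), .ofNat (nat_lit 0), .ofNat (nat_lit 0), .ofNat (nat_lit 0), .ofNat (nat_lit 0)⟩⟩, []⟩
noncomputable def p025_l157 : Lf2 := ⟨nat_lit 0, nat_lit 10, [nat_lit 0, nat_lit 5, nat_lit 5, nat_lit 20], false, nat_lit 0, nat_lit 0, nat_lit 0, nat_lit 0, ⟨nat_lit 1000, nat_lit 0, nat_lit 0, nat_lit 0, nat_lit 0, nat_lit 0, nat_lit 0, nat_lit 0, nat_lit 0, nat_lit 0, nat_lit 0, nat_lit 0, nat_lit 0, nat_lit 0, nat_lit 0, nat_lit 0, false, false⟩,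
 nat_lit 0, nat_lit 0, nat_lit 0, nat_lit 0, nat_lit 0, nat_lit 5773, nat_lit 0, nat_lit 0, nat_lit 0, nat_lit 0, nat_lit 0, nat_lit 0, nat_lit 0, nat_lit 0, nat_lit 0, nat_lit 0, nat_lit 0, nat_lit 0, [],
 ⟨p025_k0, nat_lit 0, nat_lit 0, nat_lit 178, nat_lit 0, nat_lit 0, [nat_lit 938000000, nat_lit 3282000000, nat_lit 4688000000], [], [nat_lit 38167666000, nat_lit 39440446000, nat_lit 43367540000, nat_lit 44413408000], nat_lit 0, nat_lit 0, nat_lit 0, nat_lit 0, nat_lit 0, nat_lit 0, [], [nat_lit 35, nat_lit 40, nat_lit 80, nat_lit 80, nat_lit 22, nat_lit 203, nat_lit 0, nat_lit 8]⟩, ⟨p025_k22, nat_lit 0, nat_lit 0, nat_lit 176, nat_lit 0, nat_lit 0, [nat_lit 2032000000, nat_lit 4688000000, nat_lit 6250000000], [], [nat_lit 26983654960, nat_lit 28591627912, nat_lit 37665065052, nat_lit 38756740594], nat_lit 0, nat_lit 0, nat_lit 0, nat_lit 0, nat_lit 0, nat_lit 0, [], [nat_lit 6, nat_lit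 40, nat_lit 80, nat_lit 80, nat_lit 3, nat_lit 203, nat_lit 0, nat_lit 7]⟩,
 zbF0, [⟨nat_lit 13, nat_lit 84, nat_lit 21, nat_lit 100, nat_lit 525974164⟩]⟩
noncomputable def p025_l158 : Lf2 := ⟨nat_lit 0, nat_lit 10, [nat_lit 0, nat_lit 5, nat_lit 5, nat_lit 20], false, nat_lit 0, nat_lit 0, nat_lit 0, nat_lit 0, ⟨nat_lit 1000, nat_lit 0, nat_lit 0, nat_lit 0, nat_lit 0, nat_lit 0, nat_lit 0, nat_lit 0, nat_lit 0, nat_lit 0, nat_lit 0, nat_lit 0, nat_lit 0, nat_lit 0, nat_lit 0, nat_lit 0, false, false⟩,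
 nat_lit 0, nat_lit 0, nat_lit 7456, nat_lit 0, nat_lit 4814, nat_lit 5592, nat_lit 0, nat_lit 0, nat_lit 0, nat_lit 0, nat_lit 0, nat_lit 0, nat_lit 0, nat_lit 0, nat_lit 0, nat_lit 0, nat_lit 0, nat_lit 0, [],
 ⟨p025_k6, nat_lit 0, nat_lit 0, nat_lit 169, nat_lit 0, nat_lit 0, [nat_lit 938000000, nat_lit 4688000000], [], [nat_lit 28401885552, nat_lit 30044729568, nat_lit 37489368592, nat_lit 38514402980], nat_lit 0, nat_lit 0, nat_lit 0, nat_lit 0, nat_lit 0, nat_lit 0, [], [nat_lit 86, nat_lit 40, nat_lit 80, nat_lit 80, nat_lit 87, nat_lit 203, nat_lit 0, nat_lit 8]⟩, ⟨p025_k17, nat_lit 0, nat_lit 0, nat_lit 506, nat_lit 0, nat_lit 960992, [nat_lit 2032000000, nat_lit 6250000000], [], [nat_lit 42887839696, nat_lit 43554938520, nat_lit 47397718240, nat_lit 47840473584], nat_lit 1271250, nat_lit 1271250, nat_lit 1271250, nat_lit 1271250, nat_lit 0, nat_lit 0, [nat_lit 490000, nat_lit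 1427500], [nat_lit 69, nat_lit 40, nat_lit 80, nat_lit 80, nat_lit 64, nat_lit 219, nat_lit 0, nat_lit 8]⟩,
 zbF0, [⟨nat_lit 0, nat_lit 75, nat_lit 46, nat_lit 100, nat_lit 216017201⟩]⟩
noncomputable def p025_l159 : Lf2 := ⟨nat_lit 0, nat_lit 10, [nat_lit 0, nat_lit 5, nat_lit 5, nat_lit 20], false, nat_lit 0, nat_lit 0, nat_lit 0, nat_lit 0, ⟨nat_lit 1000, nat_lit 0, nat_lit 0, nat_lit 0, nat_lit 0, nat_lit 0, nat_lit 0, nat_lit 0, nat_lit 0, nat_lit 0, nat_lit 0, nat_lit 0, nat_lit 0, nat_lit 0, nat_lit 0, nat_lit 0, false, false⟩,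
 nat_lit 0, nat_lit 0, nat_lit 8500, nat_lit 0, nat_lit 4058, nat_lit 6375, nat_lit 0, nat_lit 0, nat_lit 0, nat_lit 286, nat_lit 0, nat_lit 0, nat_lit 0, nat_lit 0, nat_lit 0, nat_lit 0, nat_lit 0, nat_lit 0, [],
 ⟨p025_k2, nat_lit 0, nat_lit 0, nat_lit 152, nat_lit 0, nat_lit 0, [nat_lit 938000000, nat_lit 3282000000], [], [nat_lit 29098080032, nat_lit 30502385974, nat_lit 35890718929, nat_lit 36872154444], nat_lit 0, nat_lit 0, nat_lit 0, nat_lit 0, nat_lit 0, nat_lit 0, [], [nat_lit 66, nat_lit 40, nat_lit 80, nat_lit 80, nat_lit 67, nat_lit 203, nat_lit 0, nat_lit 10]⟩, ⟨p025_k22, nat_lit 0, nat_lit 0, nat_lit 583, nat_lit 0, nat_lit 1180092, [nat_lit 2032000000, nat_lit 4688000000, nat_lit 6250000000], [], [nat_lit 36100373801, nat_lit 36682985126, nat_lit 39392454601, nat_lit 39776387150], nat_lit 1271250, nat_lit 1271250, nat_lit 1271250, nat_lit 1271250, nat_lit 0, nat_lit 0, [nat_lit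 490000, nat_lit 1100000, nat_lit 1442500], [nat_lit 6, nat_lit 40, nat_lit 80, nat_lit 80, nat_lit 3, nat_lit 238, nat_lit 0, nat_lit 8]⟩,
 zbF0, [⟨nat_lit 0, nat_lit 82, nat_lit 34, nat_lit 100, nat_lit 275883234⟩]⟩
noncomputable def p025_l160 : Lf2 := ⟨nat_lit 0, nat_lit 10, [nat_lit 0, nat_lit 5, nat_lit 5, nat_lit 20], true, nat_lit 0, nat_lit 0, nat_lit 0, nat_lit 0, ⟨nat_lit 0, nat_lit 1000, nat_lit 0, nat_lit 8, nat_lit 315, nat_lit 0, nat_lit 0, nat_lit 0, nat_lit 0, nat_lit 0, nat_lit 0, nat_lit 0, nat_lit 0, nat_lit 0, nat_lit 0, nat_lit 5000000, true, false⟩,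
 nat_lit 0, nat_lit 0, nat_lit 0, nat_lit 0, nat_lit 2922, nat_lit 0, nat_lit 0, nat_lit 0, nat_lit 0, nat_lit 0, nat_lit 0, nat_lit 0, nat_lit 0, nat_lit 0, nat_lit 0, nat_lit 250000, nat_lit 0, nat_lit 0, [(nat_lit 24, [(nat_lit 0, nat_lit 1000)]), (nat_lit 27, [(nat_lit 0, nat_lit 1000)])],
 ⟨p025_k0, nat_lit 0, nat_lit 0, nat_lit 178, nat_lit 0, nat_lit 0, [nat_lit 780800001, nat_lit 1367200000, nat_lit 1705600000], [], [nat_lit 24469759825, nat_lit 26707355005, nat_lit 31434568577, nat_lit 33576932072], nat_lit 0, nat_lit 0, nat_lit 0, nat_lit 0, nat_lit 0, nat_lit 0, [], [nat_lit 35, nat_lit 40, nat_lit 80, nat_lit 80, nat_lit 22, nat_lit 203, nat_lit 0, nat_lit 8]⟩, C1.Rw.none,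
 ⟨nat_lit 0, nat_lit 3163, ⟨.ofNat (nat_lit 625100), .ofNat (nat_lit 937693), .ofNat (nat_lit 645949), .ofNat (nat_lit 959849), .ofNat (nat_lit 642170), .ofNat (nat_lit 899997), .ofNat (nat_lit 665865), .ofNat (nat_lit 924998)⟩, ⟨.ofNat (nat_lit 0), .ofNat (nat_lit 0), .ofNat (nat_lit 0), .ofNat (nat_lit 0), .ofNat (nat_lit 0), .ofNat (nat_lit 0), .ofNat (nat_lit 0), .ofNat (nat_lit 0)⟩⟩, [⟨nat_lit 13, nat_lit 84, nat_lit 21, nat_lit 100, nat_lit 309755772⟩]⟩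
noncomputable def p025_l161 : Lf2 := ⟨nat_lit 0, nat_lit 10, [nat_lit 0, nat_lit 5, nat_lit 5, nat_lit 20], false, nat_lit 0, nat_lit 0, nat_lit 0, nat_lit 0, ⟨nat_lit 1000, nat_lit 0, nat_lit 0, nat_lit 0, nat_lit 0, nat_lit 0, nat_lit 0, nat_lit 0, nat_lit 0, nat_lit 0, nat_lit 0, nat_lit 0, nat_lit 0, nat_lit 0, nat_lit 0, nat_lit 0, false, false⟩,
 nat_lit 0, nat_lit 6568, nat_lit 0, nat_lit 0, nat_lit 5720, nat_lit 6192, nat_lit 0, nat_lit 0, nat_lit 0, nat_lit 0, nat_lit 0, nat_lit 0, nat_lit 0, nat_lit 0, nat_lit 0, nat_lit 0, nat_lit 0, nat_lit 0, [],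
 ⟨p025_k6, nat_lit 0, nat_lit 0, nat_lit 435, nat_lit 0, nat_lit 890139, [nat_lit 938000000, nat_lit 4688000000], [], [nat_lit 36773569760, nat_lit 38597537440, nat_lit 41665649760, nat_lit 42855967360], nat_lit 1271250, nat_lit 1271250, nat_lit 1271250, nat_lit 1271250, nat_lit 0, nat_lit 0, [nat_lit 230000, nat_lit 1100000], [nat_lit 86, nat_lit 40, nat_lit 80, nat_lit 80, nat_lit 87, nat_lit 209, nat_lit 0, nat_lit 8]⟩, ⟨p025_k17, nat_lit 0, nat_lit 0, nat_lit 180, nat_lit 0, nat_lit 0, [nat_lit 2032000000, nat_lit 6250000000], [], [nat_lit 29096933616, nat_lit 30655325464, nat_lit 39069375488, nat_lit 39979200960], nat_lit 0, nat_lit 0, nat_lit 0, nat_lit 0, nat_lit 0, nat_lit 0, [], [nat_lit 69, nat_lit 40, nat_lit 80, nat_lit 80, nat_lit 64, nat_lit 203, nat_lit 0, nat_lit 7]⟩,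
 zbF0, [⟨nat_lit 0, nat_lit 79, nat_lit 45, nat_lit 100, nat_lit 130063645⟩]⟩
noncomputable def p025_l162 : Lf2 := ⟨nat_lit 0, nat_lit 10, [nat_lit 0, nat_lit 5, nat_lit 5, nat_lit 20], false, nat_lit 0, nat_lit 0, nat_lit 0, nat_lit 0, ⟨nat_lit 1000, nat_lit 0, nat_lit 0, nat_lit 0, nat_lit 0, nat_lit 0, nat_lit 0, nat_lit 0, nat_lit 0, nat_lit 0, nat_lit 0, nat_lit 0, nat_lit 0, nat_lit 0, nat_lit 0, nat_lit 0, false, false⟩,
 nat_lit 6596, nat_lit 0, nat_lit 0, nat_lit 0, nat_lit 5744, nat_lit 4947, nat_lit 0, nat_lit 0, nat_lit 0, nat_lit 0, nat_lit 0, nat_lit 0, nat_lit 0, nat_lit 0, nat_lit 0, nat_lit 0, nat_lit 0, nat_lit 0, [],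
 ⟨p025_k6, nat_lit 0, nat_lit 0, nat_lit 318, nat_lit 0, nat_lit 501632, [nat_lit 938000000, nat_lit 4688000000], [], [nat_lit 31776257968, nat_lit 34355939888, nat_lit 39996913248, nat_lit 42932076544], nat_lit 1271250, nat_lit 1271250, nat_lit 1271250, nat_lit 1271250, nat_lit 0, nat_lit 0, [nat_lit 230000, nat_lit 1100000], [nat_lit 86, nat_lit 40, nat_lit 80, nat_lit 80, nat_lit 87, nat_lit 203, nat_lit 0, nat_lit 8]⟩, ⟨p025_k17, nat_lit 0, nat_lit 0, nat_lit 371, nat_lit 0, nat_lit 601616, [nat_lit 2032000000, nat_lit 6250000000], [], [nat_lit 40708106860, nat_lit 41514572563, nat_lit 46148732580, nat_lit 46693131560], nat_lit 1271250, nat_lit 1271250, nat_lit 1271250, nat_lit 1271250, nat_lit 0, nat_lit 0, [nat_lit 490000, nat_lit 1427500], [nat_lit 69, nat_lit 40, nat_lit 80, nat_lit 80, nat_lit 64, nat_lit 203, nat_lit 0, nat_lit 7]⟩,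
 zbF0, []⟩
noncomputable def p025_l163 : Lf2 := ⟨nat_lit 0, nat_lit 10, [nat_lit 0, nat_lit 5, nat_lit 5, nat_lit 20], false, nat_lit 0, nat_lit 0, nat_lit 0, nat_lit 0, ⟨nat_lit 1000, nat_lit 0, nat_lit 0, nat_lit 0, nat_lit 0, nat_lit 0, nat_lit 0, nat_lit 0, nat_lit 0, nat_lit 0, nat_lit 0, nat_lit 0, nat_lit 0, nat_lit 0, nat_lit 0, nat_lit 0, false, false⟩,
 nat_lit 0, nat_lit 6568, nat_lit 0, nat_lit 0, nat_lit 5720, nat_lit 6192, nat_lit 0, nat_lit 0, nat_lit 0, nat_lit 0, nat_lit 0, nat_lit 0, nat_lit 0, nat_lit 0, nat_lit 0, nat_lit 0, nat_lit 0, nat_lit 0, [],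
 ⟨p025_k6, nat_lit 0, nat_lit 0, nat_lit 435, nat_lit 0, nat_lit 890139, [nat_lit 938000000, nat_lit 4688000000], [], [nat_lit 36773569760, nat_lit 38597537440, nat_lit 41665649760, nat_lit 42855967360], nat_lit 1271250, nat_lit 1271250, nat_lit 1271250, nat_lit 1271250, nat_lit 0, nat_lit 0, [nat_lit 230000, nat_lit 1100000], [nat_lit 86, nat_lit 40, nat_lit 80, nat_lit 80, nat_lit 87, nat_lit 209, nat_lit 0, nat_lit 8]⟩, ⟨p025_k17, nat_lit 0, nat_lit 0, nat_lit 180, nat_lit 0, nat_lit 0, [nat_lit 2032000000, nat_lit 6250000000], [], [nat_lit 29096933616, nat_lit 30655325464, nat_lit 39069375488, nat_lit 39979200960], nat_lit 0, nat_lit 0, nat_lit 0, nat_lit 0, nat_lit 0, nat_lit 0, [], [nat_lit 69, nat_lit 40, nat_lit 80, nat_lit 80, nat_lit 64, nat_lit 203, nat_lit 0, nat_lit 7]⟩,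
 zbF0, [⟨nat_lit 0, nat_lit 79, nat_lit 45, nat_lit 100, nat_lit 130063645⟩]⟩
noncomputable def p025_l164 : Lf2 := ⟨nat_lit 0, nat_lit 10, [nat_lit 0, nat_lit 5, nat_lit 5, nat_lit 20], false, nat_lit 0, nat_lit 0, nat_lit 0, nat_lit 0, ⟨nat_lit 688, nat_lit 312, nat_lit 0, nat_lit 8, nat_lit 315, nat_lit 0, nat_lit 0, nat_lit 0, nat_lit 0, nat_lit 0, nat_lit 0, nat_lit 0, nat_lit 0, nat_lit 0, nat_lit 0, nat_lit 5000000, true, false⟩,
 nat_lit 5262, nat_lit 0, nat_lit 0, nat_lit 0, nat_lit 4582, nat_lit 3946, nat_lit 0, nat_lit 0, nat_lit 0, nat_lit 0, nat_lit 0, nat_lit 0, nat_lit 0, nat_lit 0, nat_lit 0, nat_lit 78000, nat_lit 0, nat_lit 0, [(nat_lit 24, [(nat_lit 0, nat_lit 312)]), (nat_lit 27, [(nat_lit 0, nat_lit 312)])],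
 ⟨p025_k6, nat_lit 0, nat_lit 0, nat_lit 318, nat_lit 0, nat_lit 501632, [nat_lit 888953601, nat_lit 3757491200], [], [nat_lit 31014508404, nat_lit 33303771664, nat_lit 37574078520, nat_lit 39079958232], nat_lit 1271250, nat_lit 1271250, nat_lit 1271250, nat_lit 1271250, nat_lit 0, nat_lit 0, [nat_lit 230000, nat_lit 1100000], [nat_lit 86, nat_lit 40, nat_lit 80, nat_lit 80, nat_lit 87, nat_lit 203, nat_lit 0, nat_lit 8]⟩, ⟨p025_k17, nat_lit 0, nat_lit 0, nat_lit 371, nat_lit 0, nat_lit 601616, [nat_lit 1398016000, nat_lit 4300000000], [], [nat_lit 26230767064, nat_lit 26861390000, nat_lit 30298770296, nat_lit 30685977904], nat_lit 1271250, nat_lit 1271250, nat_lit 1271250, nat_lit 1271250, nat_lit 0, nat_lit 0, [nat_lit 490000, nat_lit 1427500], [nat_lit 69, nat_lit 40, nat_lit 80, nat_lit 80, nat_lit 64, nat_lit 203, nat_lit 0, nat_lit 7]⟩,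
 ⟨nat_lit 0, nat_lit 3163, ⟨.ofNat (nat_lit 625100), .ofNat (nat_lit 937693), .ofNat (nat_lit 645949), .ofNat (nat_lit 959849), .ofNat (nat_lit 642170), .ofNat (nat_lit 899997), .ofNat (nat_lit 665865), .ofNat (nat_lit 924998)⟩, ⟨.ofNat (nat_lit 0), .ofNat (nat_lit 0), .ofNat (nat_lit 0), .ofNat (nat_lit 0), .ofNat (nat_lit 0), .ofNat (nat_lit 0), .ofNat (nat_lit 0), .ofNat (nat_lit 0)⟩⟩, [⟨nat_lit 13, nat_lit 84, nat_lit 21, nat_lit 100, nat_lit 5323941⟩]⟩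
noncomputable def p025_l165 : Lf2 := ⟨nat_lit 0, nat_lit 10, [nat_lit 0, nat_lit 5, nat_lit 5, nat_lit 20], false, nat_lit 0, nat_lit 0, nat_lit 0, nat_lit 0, ⟨nat_lit 1000, nat_lit 0, nat_lit 0, nat_lit 0, nat_lit 0, nat_lit 0, nat_lit 0, nat_lit 0, nat_lit 0, nat_lit 0, nat_lit 0, nat_lit 0, nat_lit 0, nat_lit 0, nat_lit 0, nat_lit 0, false, false⟩,
 nat_lit 0, nat_lit 0, nat_lit 9073, nat_lit 0, nat_lit 1693, nat_lit 6804, nat_lit 0, nat_lit 0, nat_lit 0, nat_lit 0, nat_lit 0, nat_lit 0, nat_lit 0, nat_lit 0, nat_lit 0, nat_lit 0, nat_lit 0, nat_lit 0, [],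
 ⟨p025_k6, nat_lit 0, nat_lit 0, nat_lit 173, nat_lit 0, nat_lit 0, [nat_lit 938000000, nat_lit 4688000000], [], [nat_lit 32591332418, nat_lit 34514195088, nat_lit 39087421712, nat_lit 40464502824], nat_lit 0, nat_lit 0, nat_lit 0, nat_lit 0, nat_lit 0, nat_lit 0, [], [nat_lit 86, nat_lit 40, nat_lit 80, nat_lit 80, nat_lit 87, nat_lit 203, nat_lit 0, nat_lit 8]⟩, ⟨p025_k17, nat_lit 0, nat_lit 0, nat_lit 397, nat_lit 0, nat_lit 655737, [nat_lit 2032000000, nat_lit 6250000000], [], [nat_lit 34996431808, nat_lit 35990144664, nat_lit 41179660560, nat_lit 41767401920], nat_lit 1271250, nat_lit 1271250, nat_lit 1271250, nat_lit 1271250, nat_lit 0, nat_lit 0, [nat_lit 490000, nat_lit 1427500], [nat_lit 69, nat_lit 40, nat_lit 80, nat_lit 80, nat_lit 64, nat_lit 203, nat_lit 0, nat_lit 7]⟩,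
 zbF0, [⟨nat_lit 0, nat_lit 79, nat_lit 45, nat_lit 100, nat_lit 260499239⟩]⟩
noncomputable def p025_l166 : Lf2 := ⟨nat_lit 0, nat_lit 10, [nat_lit 0, nat_lit 5, nat_lit 5, nat_lit 20], false, nat_lit 0, nat_lit 0, nat_lit 0, nat_lit 0, ⟨nat_lit 1000, nat_lit 0, nat_lit 0, nat_lit 0, nat_lit 0, nat_lit 0, nat_lit 0, nat_lit 0, nat_lit 0, nat_lit 0, nat_lit 0, nat_lit 0, nat_lit 0, nat_lit 0, nat_lit 0, nat_lit 0, false, false⟩,
 nat_lit 0, nat_lit 6059, nat_lit 8707, nat_lit 0, nat_lit 5277, nat_lit 6530, nat_lit 0, nat_lit 0, nat_lit 0, nat_lit 0, nat_lit 0, nat_lit 0, nat_lit 0, nat_lit 0, nat_lit 0, nat_lit 0, nat_lit 0, nat_lit 0, [],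
 ⟨p025_k6, nat_lit 0, nat_lit 0, nat_lit 316, nat_lit 0, nat_lit 495718, [nat_lit 938000000, nat_lit 4688000000], [], [nat_lit 32965976894, nat_lit 35428941504, nat_lit 39798708420, nat_lit 41385569692], nat_lit 1271250, nat_lit 1271250, nat_lit 1271250, nat_lit 1271250, nat_lit 0, nat_lit 0, [nat_lit 230000, nat_lit 1100000], [nat_lit 86, nat_lit 40, nat_lit 80, nat_lit 80, nat_lit 87, nat_lit 203, nat_lit 0, nat_lit 8]⟩, ⟨p025_k17, nat_lit 0, nat_lit 0, nat_lit 292, nat_lit 0, nat_lit 349318, [nat_lit 2032000000, nat_lit 6250000000], [], [nat_lit 32279304340, nat_lit 33530563830, nat_lit 40225363640, nat_lit 40964961200], nat_lit 1271250, nat_lit 1271250, nat_lit 1271250, nat_lit 1271250, nat_lit 0, nat_lit 0, [nat_lit 490000, nat_lit 1427500], [nat_lit 69, nat_lit 40, nat_lit 80, nat_lit 80, nat_lit 64, nat_lit 203, nat_lit 0, nat_lit 7]⟩,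
 zbF0, [⟨nat_lit 0, nat_lit 79, nat_lit 45, nat_lit 100, nat_lit 143528250⟩]⟩
noncomputable def p025_l167 : Lf2 := ⟨nat_lit 0, nat_lit 10, [nat_lit 0, nat_lit 5, nat_lit 5, nat_lit 20], false, nat_lit 0, nat_lit 0, nat_lit 0, nat_lit 0, ⟨nat_lit 1000, nat_lit 0, nat_lit 0, nat_lit 0, nat_lit 0, nat_lit 0, nat_lit 0, nat_lit 0, nat_lit 0, nat_lit 0, nat_lit 0, nat_lit 0, nat_lit 0, nat_lit 0, nat_lit 0, nat_lit 0, false, false⟩,
 nat_lit 0, nat_lit 15576, nat_lit 0, nat_lit 100000, nat_lit 5011, nat_lit 0, nat_lit 0, nat_lit 0, nat_lit 0, nat_lit 0, nat_lit 0, nat_lit 0, nat_lit 0, nat_lit 0, nat_lit 0, nat_lit 0, nat_lit 0, nat_lit 0, [],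
 ⟨p025_k6, nat_lit 0, nat_lit 0, nat_lit 193, nat_lit 0, nat_lit 81919, [nat_lit 938000000, nat_lit 4688000000], [], [nat_lit 30791542008, nat_lit 33629556594, nat_lit 38700494900, nat_lit 40505971576], nat_lit 1271250, nat_lit 1271250, nat_lit 1271250, nat_lit 1271250, nat_lit 0, nat_lit 0, [nat_lit 230000, nat_lit 1100000], [nat_lit 86, nat_lit 40, nat_lit 80, nat_lit 80, nat_lit 87, nat_lit 203, nat_lit 0, nat_lit 8]⟩, ⟨p025_k17, nat_lit 0, nat_lit 0, nat_lit 213, nat_lit 0, nat_lit 108318, [nat_lit 2032000000, nat_lit 6250000000], [], [nat_lit 38403192000, nat_lit 39017687000, nat_lit 43725104000, nat_lit 44230150000], nat_lit 1271250, nat_lit 1271250, nat_lit 1271250, nat_lit 1271250, nat_lit 0, nat_lit 0, [nat_lit 490000, nat_lit 1427500], [nat_lit 69, nat_lit 40, nat_lit 80, nat_lit 80, nat_lit 64, nat_lit 203, nat_lit 0, nat_lit 7]⟩,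
 zbF0, [⟨nat_lit 0, nat_lit 79, nat_lit 45, nat_lit 100, nat_lit 235095778⟩]⟩
noncomputable def b_N_900_800_0_2 : St := ⟨false, nat_lit 2, nat_lit 2, nat_lit 0, nat_lit 40, nat_lit 360, nat_lit 400, nat_lit 320, nat_lit 340, nat_lit 200, nat_lit 400, nat_lit 0, nat_lit 0, nat_lit 0, nat_lit 0, nat_lit 0, nat_lit 0, nat_lit 80, nat_lit 208, nat_lit 0, nat_lit 0, nat_lit 0, nat_lit 0⟩
theorem d_N_900_800_0_2 (h : EB TB.env) : Dead b_N_900_800_0_2 := chkB_sound0 h (T :=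
(.spl (nat_lit 6) (nat_lit 120)
(.st (nat_lit 0)
(.gv
(.st (nat_lit 1)
(.leaf p025_l141)
(.spl (nat_lit 2) (nat_lit 320)
(.spl (nat_lit 0) (nat_lit 380)
(.leaf p025_l142)
(.trZ (nat_lit 0) (nat_lit 82) (nat_lit 44) (nat_lit 100) (nat_lit 236) (.leaf p025_l143)))
(.spl (nat_lit 0) (nat_lit 380)
(.spl (nat_lit 0) (nat_lit 370)
(.spl (nat_lit 1) (nat_lit 330)
(.trX (nat_lit 13) (nat_lit 79) (nat_lit 29) (nat_lit 100) (nat_lit 396) (.leaf p025_l144))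
(.leaf p025_l145))
(.trX (nat_lit 13) (nat_lit 74) (nat_lit 33) (nat_lit 100) (nat_lit 396) (.spl (nat_lit 1) (nat_lit 330)
(.trX (nat_lit 13) (nat_lit 69) (nat_lit 40) (nat_lit 100) (nat_lit 392) (.spl (nat_lit 2) (nat_lit 360)
(.leaf p025_l146)
(.spl (nat_lit 0) (nat_lit 375)
(.leaf p025_l147)
(.trX (nat_lit 13) (nat_lit 64) (nat_lit 46) (nat_lit 100) (nat_lit 388) (.leaf p025_l148)))))
(.leaf p025_l149))))
(.trX (nat_lit 13) (nat_lit 61) (nat_lit 47) (nat_lit 100) (nat_lit 392) (.spl (nat_lit 1) (nat_lit 330)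
(.trX (nat_lit 13) (nat_lit 57) (nat_lit 53) (nat_lit 100) (nat_lit 384) (.leaf p025_l150))
(.leaf p025_l151))))))
(.leaf p025_l152))
(.gv
(.st (nat_lit 1)
(.leaf p025_l153)
(.leaf p025_l154))
(.st (nat_lit 1)
(.leaf p025_l155)
(.leaf p025_l156))))
(.spl (nat_lit 6) (nat_lit 160)
(.st (nat_lit 0)
(.gv
(.st (nat_lit 1)
(.leaf p025_l157)
(.spl (nat_lit 0) (nat_lit 380)
(.leaf p025_l158)
(.trZ (nat_lit 0) (nat_lit 82) (nat_lit 44) (nat_lit 100) (nat_lit 236) (.trX (nat_lit 13) (nat_lit 61) (nat_lit 47) (nat_lit 100) (nat_lit 392) (.leaf p025_l159)))))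
(.leaf p025_l160))
(.gv
(.st (nat_lit 1)
(.leaf p025_l161)
(.leaf p025_l162))
(.st (nat_lit 1)
(.leaf p025_l163)
(.leaf p025_l164))))
(.spl (nat_lit 6) (nat_lit 200)
(.st (nat_lit 0)
(.leaf p025_l165)
(.leaf p025_l166))
(.leaf p025_l167))))) (by decide +kernel)
noncomputable def p025_l168 : Lf2 := ⟨nat_lit 0, nat_lit 1, [nat_lit 19, nat_lit 5, nat_lit 5, nat_lit 20], true, nat_lit 0, nat_lit 160, nat_lit 0, nat_lit 352, ⟨nat_lit 0, nat_lit 0, nat_lit 1000, nat_lit 4, nat_lit 122, nat_lit 0, nat_lit 46, nat_lit 978, nat_lit 5400, nat_lit 233, nat_lit 0, nat_lit 215, nat_lit 61263910, nat_lit 0, nat_lit 0, nat_lit 1461343, false, false⟩,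
 nat_lit 0, nat_lit 0, nat_lit 0, nat_lit 8639, nat_lit 5039, nat_lit 0, nat_lit 0, nat_lit 0, nat_lit 0, nat_lit 0, nat_lit 0, nat_lit 0, nat_lit 0, nat_lit 0, nat_lit 34, nat_lit 1000000, nat_lit 0, nat_lit 0, [(nat_lit 0, [(nat_lit 6, nat_lit 1000)]), (nat_lit 3, [(nat_lit 6, nat_lit 1000)])],
 ⟨p025_k27, nat_lit 0, nat_lit 0, nat_lit 183, nat_lit 0, nat_lit 0, [nat_lit 1721142858, nat_lit 8800000], [], [nat_lit 12936500146, nat_lit 15173921154, nat_lit 14784269600, nat_lit 16533604960, nat_lit 11582883438, nat_lit 13485620678, nat_lit 13603819820, nat_lit 15071592892], nat_lit 0, nat_lit 0, nat_lit 0, nat_lit 0, nat_lit 0, nat_lit 0, [], [nat_lit 26, nat_lit 40, nat_lit 20, nat_lit 80, nat_lit 2, nat_lit 401, nat_lit 175, nat_lit 14]⟩, C1.Rw.none,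
 ⟨nat_lit 6324, nat_lit 7072, ⟨.ofNat (nat_lit 5716), .ofNat (nat_lit 547066), .ofNat (nat_lit 48812), .ofNat (nat_lit 590110), .ofNat (nat_lit 45940), .ofNat (nat_lit 539454), .ofNat (nat_lit 88675), .ofNat (nat_lit 582138)⟩, ⟨.negSucc (nat_lit 145122), .ofNat (nat_lit 215827), .negSucc (nat_lit 123573), .ofNat (nat_lit 237375), .negSucc (nat_lit 103636), .ofNat (nat_lit 225422), .negSucc (nat_lit 82267), .ofNat (nat_lit 246790)⟩⟩, [⟨nat_lit 0, nat_lit 100, nat_lit 98, nat_lit 20, nat_lit 20693670⟩]⟩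
noncomputable def p025_l169 : Lf2 := ⟨nat_lit 1, nat_lit 1, [nat_lit 19, nat_lit 5, nat_lit 5, nat_lit 20], false, nat_lit 160, nat_lit 320, nat_lit 0, nat_lit 352, zbN0,
 nat_lit 0, nat_lit 0, nat_lit 0, nat_lit 0, nat_lit 0, nat_lit 0, nat_lit 0, nat_lit 0, nat_lit 0, nat_lit 0, nat_lit 0, nat_lit 0, nat_lit 0, nat_lit 0, nat_lit 0, nat_lit 0, nat_lit 0, nat_lit 0, [],
 C1.Rw.none, C1.Rw.none,
 zbF0, []⟩
noncomputable def p025_l170 : Lf2 := ⟨nat_lit 0, nat_lit 1, [nat_lit 19, nat_lit 5, nat_lit 5, nat_lit 20], true, nat_lit 160, nat_lit 304, nat_lit 0, nat_lit 352, ⟨nat_lit 0, nat_lit 0, nat_lit 1000, nat_lit 4, nat_lit 124, nat_lit 1000, nat_lit 154, nat_lit 1000, nat_lit 4965, nat_lit 231, nat_lit 644, nat_lit 217, nat_lit 51805905, nat_lit 0, nat_lit 0, nat_lit 3680028, false, false⟩,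
 nat_lit 0, nat_lit 0, nat_lit 0, nat_lit 11808, nat_lit 4402, nat_lit 0, nat_lit 0, nat_lit 0, nat_lit 0, nat_lit 0, nat_lit 0, nat_lit 0, nat_lit 0, nat_lit 0, nat_lit 53, nat_lit 1000000, nat_lit 0, nat_lit 0, [(nat_lit 3, [(nat_lit 6, nat_lit 1000)])],
 ⟨p025_k28, nat_lit 0, nat_lit 0, nat_lit 134, nat_lit 0, nat_lit 0, [nat_lit 2101142858, nat_lit 11600000], [], [nat_lit 13406874440, nat_lit 14404422156, nat_lit 15791493236, nat_lit 16498355684, nat_lit 20039693437, nat_lit 20728048400, nat_lit 20542498349, nat_lit 21036334323], nat_lit 0, nat_lit 0, nat_lit 0, nat_lit 0, nat_lit 0, nat_lit 0, [], [nat_lit 26, nat_lit 40, nat_lit 20, nat_lit 80, nat_lit 2, nat_lit 428, nat_lit 200, nat_lit 14]⟩, C1.Rw.none,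
 ⟨nat_lit 6324, nat_lit 6709, ⟨.ofNat (nat_lit 26344), .ofNat (nat_lit 543262), .ofNat (nat_lit 69221), .ofNat (nat_lit 586126), .ofNat (nat_lit 45942), .ofNat (nat_lit 539512), .ofNat (nat_lit 88677), .ofNat (nat_lit 582235)⟩, ⟨.ofNat (nat_lit 220898), .ofNat (nat_lit 531043), .ofNat (nat_lit 242336), .ofNat (nat_lit 552474), .ofNat (nat_lit 225423), .ofNat (nat_lit 521560), .ofNat (nat_lit 246791), .ofNat (nat_lit 542921)⟩⟩, [⟨nat_lit 0, nat_lit 100, nat_lit 98, nat_lit 20, nat_lit 11115554⟩, ⟨nat_lit 4, nat_lit 93, nat_lit 100, nat_lit 53, nat_lit 367901728⟩]⟩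
noncomputable def p025_l171 : Lf2 := ⟨nat_lit 0, nat_lit 1, [nat_lit 19, nat_lit 5, nat_lit 5, nat_lit 20], false, nat_lit 0, nat_lit 320, nat_lit 0, nat_lit 352, ⟨nat_lit 1000, nat_lit 0, nat_lit 0, nat_lit 0, nat_lit 0, nat_lit 0, nat_lit 0, nat_lit 0, nat_lit 0, nat_lit 0, nat_lit 0, nat_lit 0, nat_lit 0, nat_lit 0, nat_lit 0, nat_lit 0, false, false⟩,
 nat_lit 0, nat_lit 0, nat_lit 0, nat_lit 30158, nat_lit 8245, nat_lit 10175, nat_lit 0, nat_lit 0, nat_lit 0, nat_lit 0, nat_lit 0, nat_lit 0, nat_lit 0, nat_lit 0, nat_lit 0, nat_lit 0, nat_lit 0, nat_lit 0, [],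
 ⟨p025_k27, nat_lit 0, nat_lit 0, nat_lit 191, nat_lit 0, nat_lit 0, [nat_lit 6250000000, nat_lit 7968000000], [], [nat_lit 24336718020, nat_lit 26226172120, nat_lit 38269493660, nat_lit 39459069040, nat_lit 26203339000, nat_lit 27024118600, nat_lit 34451298240, nat_lit 34863916320], nat_lit 0, nat_lit 0, nat_lit 0, nat_lit 0, nat_lit 0, nat_lit 0, [], [nat_lit 26, nat_lit 40, nat_lit 20, nat_lit 80, nat_lit 2, nat_lit 373, nat_lit 150, nat_lit 12]⟩, ⟨p025_k29, nat_lit 0, nat_lit 0, nat_lit 237, nat_lit 0, nat_lit 0, [nat_lit 7968000000, nat_lit 9842000000], [], [nat_lit 29222088600, nat_lit 30069315100, nat_lit 43844083400, nat_lit 43852813900, nat_lit 30116021321, nat_lit 29958439660, nat_lit 39430291760, nat_lit 39019677781], nat_lit 0, nat_lit 0, nat_lit 0, nat_lit 0, nat_lit 0, nat_lit 0, [], [nat_lit 77, nat_lit 40, nat_lit 20, nat_lit 80, nat_lit 17, nat_lit 483, nat_lit 250, nat_lit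 14]⟩,
 zbF0, [⟨nat_lit 16, nat_lit 100, nat_lit 90, nat_lit 53, nat_lit 214503781⟩, ⟨nat_lit 7, nat_lit 80, nat_lit 100, nat_lit 53, nat_lit 235188248⟩]⟩
noncomputable def p025_l172 : Lf2 := ⟨nat_lit 0, nat_lit 1, [nat_lit 19, nat_lit 5, nat_lit 5, nat_lit 20], true, nat_lit 0, nat_lit 160, nat_lit 0, nat_lit 352, ⟨nat_lit 0, nat_lit 0, nat_lit 1000, nat_lit 4, nat_lit 122, nat_lit 0, nat_lit 46, nat_lit 978, nat_lit 5400, nat_lit 233, nat_lit 0, nat_lit 215, nat_lit 61263910, nat_lit 0, nat_lit 0, nat_lit 1461343, false, false⟩,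
 nat_lit 0, nat_lit 0, nat_lit 0, nat_lit 8639, nat_lit 5039, nat_lit 0, nat_lit 0, nat_lit 0, nat_lit 0, nat_lit 0, nat_lit 0, nat_lit 0, nat_lit 0, nat_lit 0, nat_lit 34, nat_lit 1000000, nat_lit 0, nat_lit 0, [(nat_lit 0, [(nat_lit 6, nat_lit 1000)]), (nat_lit 3, [(nat_lit 6, nat_lit 1000)])],
 ⟨p025_k27, nat_lit 0, nat_lit 0, nat_lit 183, nat_lit 0, nat_lit 0, [nat_lit 1721142858, nat_lit 8800000], [], [nat_lit 12936500146, nat_lit 15173921154, nat_lit 14784269600, nat_lit 16533604960, nat_lit 11582883438, nat_lit 13485620678, nat_lit 13603819820, nat_lit 15071592892], nat_lit 0, nat_lit 0, nat_lit 0, nat_lit 0, nat_lit 0, nat_lit 0, [], [nat_lit 26, nat_lit 40, nat_lit 20, nat_lit 80, nat_lit 2, nat_lit 401, nat_lit 175, nat_lit 14]⟩, C1.Rw.none,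
 ⟨nat_lit 6324, nat_lit 7072, ⟨.ofNat (nat_lit 5716), .ofNat (nat_lit 547066), .ofNat (nat_lit 48812), .ofNat (nat_lit 590110), .ofNat (nat_lit 45940), .ofNat (nat_lit 539454), .ofNat (nat_lit 88675), .ofNat (nat_lit 582138)⟩, ⟨.negSucc (nat_lit 145122), .ofNat (nat_lit 215827), .negSucc (nat_lit 123573), .ofNat (nat_lit 237375), .negSucc (nat_lit 103636), .ofNat (nat_lit 225422), .negSucc (nat_lit 82267), .ofNat (nat_lit 246790)⟩⟩, [⟨nat_lit 0, nat_lit 100, nat_lit 98, nat_lit 20, nat_lit 20693670⟩]⟩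
noncomputable def p025_l173 : Lf2 := ⟨nat_lit 1, nat_lit 1, [nat_lit 19, nat_lit 5, nat_lit 5, nat_lit 20], false, nat_lit 160, nat_lit 320, nat_lit 0, nat_lit 352, zbN0,
 nat_lit 0, nat_lit 0, nat_lit 0, nat_lit 0, nat_lit 0, nat_lit 0, nat_lit 0, nat_lit 0, nat_lit 0, nat_lit 0, nat_lit 0, nat_lit 0, nat_lit 0, nat_lit 0, nat_lit 0, nat_lit 0, nat_lit 0, nat_lit 0, [],
 C1.Rw.none, C1.Rw.none,
 zbF0, []⟩
noncomputable def p025_l174 : Lf2 := ⟨nat_lit 0, nat_lit 1, [nat_lit 19, nat_lit 5, nat_lit 5, nat_lit 20], true, nat_lit 160, nat_lit 304, nat_lit 0, nat_lit 352, ⟨nat_lit 0, nat_lit 0, nat_lit 1000, nat_lit 4, nat_lit 124, nat_lit 1000, nat_lit 154, nat_lit 1000, nat_lit 4965, nat_lit 231, nat_lit 644, nat_lit 217, nat_lit 51805905, nat_lit 0, nat_lit 0, nat_lit 3680028, false, false⟩,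
 nat_lit 0, nat_lit 0, nat_lit 0, nat_lit 11808, nat_lit 4402, nat_lit 0, nat_lit 0, nat_lit 0, nat_lit 0, nat_lit 0, nat_lit 0, nat_lit 0, nat_lit 0, nat_lit 0, nat_lit 53, nat_lit 1000000, nat_lit 0, nat_lit 0, [(nat_lit 3, [(nat_lit 6, nat_lit 1000)])],
 ⟨p025_k28, nat_lit 0, nat_lit 0, nat_lit 134, nat_lit 0, nat_lit 0, [nat_lit 2101142858, nat_lit 11600000], [], [nat_lit 13406874440, nat_lit 14404422156, nat_lit 15791493236, nat_lit 16498355684, nat_lit 20039693437, nat_lit 20728048400, nat_lit 20542498349, nat_lit 21036334323], nat_lit 0, nat_lit 0, nat_lit 0, nat_lit 0, nat_lit 0, nat_lit 0, [], [nat_lit 26, nat_lit 40, nat_lit 20, nat_lit 80, nat_lit 2, nat_lit 428, nat_lit 200, nat_lit 14]⟩, C1.Rw.none,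
 ⟨nat_lit 6324, nat_lit 6709, ⟨.ofNat (nat_lit 26344), .ofNat (nat_lit 543262), .ofNat (nat_lit 69221), .ofNat (nat_lit 586126), .ofNat (nat_lit 45942), .ofNat (nat_lit 539512), .ofNat (nat_lit 88677), .ofNat (nat_lit 582235)⟩, ⟨.ofNat (nat_lit 220898), .ofNat (nat_lit 531043), .ofNat (nat_lit 242336), .ofNat (nat_lit 552474), .ofNat (nat_lit 225423), .ofNat (nat_lit 521560), .ofNat (nat_lit 246791), .ofNat (nat_lit 542921)⟩⟩, [⟨nat_lit 0, nat_lit 100, nat_lit 98, nat_lit 20, nat_lit 11115554⟩, ⟨nat_lit 4, nat_lit 93, nat_lit 100, nat_lit 53, nat_lit 367901728⟩]⟩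
noncomputable def p025_l175 : Lf2 := ⟨nat_lit 0, nat_lit 1, [nat_lit 19, nat_lit 5, nat_lit 5, nat_lit 20], false, nat_lit 0, nat_lit 320, nat_lit 0, nat_lit 160, ⟨nat_lit 1000, nat_lit 0, nat_lit 0, nat_lit 0, nat_lit 0, nat_lit 0, nat_lit 0, nat_lit 0, nat_lit 0, nat_lit 0, nat_lit 0, nat_lit 0, nat_lit 0, nat_lit 0, nat_lit 0, nat_lit 0, false, false⟩,
 nat_lit 0, nat_lit 0, nat_lit 32704, nat_lit 0, nat_lit 10790, nat_lit 10901, nat_lit 0, nat_lit 0, nat_lit 0, nat_lit 0, nat_lit 0, nat_lit 0, nat_lit 0, nat_lit 0, nat_lit 0, nat_lit 0, nat_lit 0, nat_lit 0, [],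
 ⟨p025_k27, nat_lit 0, nat_lit 0, nat_lit 191, nat_lit 0, nat_lit 0, [nat_lit 6250000000, nat_lit 7968000000], [], [nat_lit 20897394840, nat_lit 23473799400, nat_lit 44375442480, nat_lit 45831219680, nat_lit 22839979080, nat_lit 24056338520, nat_lit 37197277960, nat_lit 37691757440], nat_lit 0, nat_lit 0, nat_lit 0, nat_lit 0, nat_lit 0, nat_lit 0, [], [nat_lit 26, nat_lit 40, nat_lit 20, nat_lit 80, nat_lit 2, nat_lit 373, nat_lit 150, nat_lit 12]⟩, ⟨p025_k29, nat_lit 0, nat_lit 0, nat_lit 288, nat_lit 0, nat_lit 84862, [nat_lit 7968000000, nat_lit 9842000000], [], [nat_lit 34386781380, nat_lit 34517736864, nat_lit 45055868184, nat_lit 44651211084, nat_lit 30663187064, nat_lit 36694276248, nat_lit 34975711100, nat_lit 34549852872], nat_lit 1100001, nat_lit 1442500, nat_lit 1271250, nat_lit 1271250, nat_lit 0, nat_lit 1100001, [nat_lit 1695000, nat_lit 1271250], [nat_lit 77, nat_lit 40,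 nat_lit 20, nat_lit 80, nat_lit 17, nat_lit 428, nat_lit 200, nat_lit 12]⟩,
 zbF0, [⟨nat_lit 4, nat_lit 90, nat_lit 100, nat_lit 53, nat_lit 110033360⟩]⟩
noncomputable def p025_l176 : Lf2 := ⟨nat_lit 0, nat_lit 1, [nat_lit 19, nat_lit 5, nat_lit 5, nat_lit 20], false, nat_lit 0, nat_lit 320, nat_lit 160, nat_lit 352, ⟨nat_lit 1000, nat_lit 0, nat_lit 0, nat_lit 0, nat_lit 0, nat_lit 0, nat_lit 0, nat_lit 0, nat_lit 0, nat_lit 0, nat_lit 0, nat_lit 0, nat_lit 0, nat_lit 0, nat_lit 0, nat_lit 0, false, false⟩,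
 nat_lit 0, nat_lit 0, nat_lit 30794, nat_lit 9654, nat_lit 8189, nat_lit 10264, nat_lit 0, nat_lit 0, nat_lit 0, nat_lit 0, nat_lit 0, nat_lit 0, nat_lit 0, nat_lit 0, nat_lit 0, nat_lit 0, nat_lit 0, nat_lit 0, [],
 ⟨p025_k27, nat_lit 0, nat_lit 0, nat_lit 191, nat_lit 0, nat_lit 0, [nat_lit 6250000000, nat_lit 7968000000], [], [nat_lit 24412396644, nat_lit 26296442264, nat_lit 38216793852, nat_lit 39318856688, nat_lit 26313737400, nat_lit 27134960520, nat_lit 34468392128, nat_lit 34802415572], nat_lit 0, nat_lit 0, nat_lit 0, nat_lit 0, nat_lit 0, nat_lit 0, [], [nat_lit 26, nat_lit 40, nat_lit 20, nat_lit 80, nat_lit 2, nat_lit 373, nat_lit 150, nat_lit 12]⟩, ⟨p025_k29, nat_lit 0, nat_lit 0, nat_lit 161, nat_lit 0, nat_lit 84862, [nat_lit 7968000000, nat_lit 9842000000], [], [nat_lit 22302294016, nat_lit 22931980000, nat_lit 33535104416, nat_lit 33542276896, nat_lit 29960714042, nat_lit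 29900843578, nat_lit 39557928013, nat_lit 39136195655], nat_lit 1100001, nat_lit 1442500, nat_lit 1271250, nat_lit 1271250, nat_lit 1271250, nat_lit 1271250, [nat_lit 1695000, nat_lit 1271250], [nat_lit 77, nat_lit 40, nat_lit 20, nat_lit 80, nat_lit 17, nat_lit 483, nat_lit 250, nat_lit 13]⟩,
 zbF0, [⟨nat_lit 16, nat_lit 100, nat_lit 90, nat_lit 53, nat_lit 216808820⟩, ⟨nat_lit 7, nat_lit 80, nat_lit 100, nat_lit 53, nat_lit 713204827⟩]⟩
noncomputable def p025_l177 : Lf2 := ⟨nat_lit 0, nat_lit 1, [nat_lit 19, nat_lit 5, nat_lit 5, nat_lit 20], true, nat_lit 0, nat_lit 320, nat_lit 0, nat_lit 352, ⟨nat_lit 0, nat_lit 1000, nat_lit 0, nat_lit 4, nat_lit 191, nat_lit 1000, nat_lit 115, nat_lit 0, nat_lit 0, nat_lit 0, nat_lit 0, nat_lit 0, nat_lit 0, nat_lit 0, nat_lit 0, nat_lit 5000000, false, true⟩,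
 nat_lit 0, nat_lit 0, nat_lit 0, nat_lit 9862, nat_lit 5103, nat_lit 0, nat_lit 0, nat_lit 0, nat_lit 0, nat_lit 0, nat_lit 0, nat_lit 0, nat_lit 0, nat_lit 0, nat_lit 0, nat_lit 1000000, nat_lit 0, nat_lit 0, [(nat_lit 0, [(nat_lit 2, nat_lit 1000)]), (nat_lit 3, [(nat_lit 2, nat_lit 1000)])],
 ⟨p025_k27, nat_lit 0, nat_lit 0, nat_lit 191, nat_lit 0, nat_lit 0, [nat_lit 3292500000, nat_lit 3405100000], [], [nat_lit 19361910376, nat_lit 21611483192, nat_lit 30861377156, nat_lit 31753660052, nat_lit 25513355684, nat_lit 26725117556, nat_lit 30847487456, nat_lit 31373472444], nat_lit 0, nat_lit 0, nat_lit 0, nat_lit 0, nat_lit 0, nat_lit 0, [], [nat_lit 26, nat_lit 40, nat_lit 20, nat_lit 80, nat_lit 2, nat_lit 483, nat_lit 250, nat_lit 17]⟩, C1.Rw.none,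
 ⟨nat_lit 6324, nat_lit 7072, ⟨.ofNat (nat_lit 5716), .ofNat (nat_lit 907507), .ofNat (nat_lit 48812), .ofNat (nat_lit 950552), .ofNat (nat_lit 45940), .ofNat (nat_lit 868005), .ofNat (nat_lit 88675), .ofNat (nat_lit 910689)⟩, ⟨.negSucc (nat_lit 145122), .ofNat (nat_lit 576633), .negSucc (nat_lit 123573), .ofNat (nat_lit 598155), .negSucc (nat_lit 103636), .ofNat (nat_lit 554338), .negSucc (nat_lit 82267), .ofNat (nat_lit 575680)⟩⟩, [⟨nat_lit 13, nat_lit 100, nat_lit 20, nat_lit 100, nat_lit 92062584⟩, ⟨nat_lit 4, nat_lit 90, nat_lit 100, nat_lit 53, nat_lit 84951369⟩]⟩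
noncomputable def b_VL_500_400_5_0 : St := ⟨true, nat_lit 0, nat_lit 2, nat_lit 0, nat_lit 40, nat_lit 200, nat_lit 240, nat_lit 160, nat_lit 200, nat_lit 0, nat_lit 400, nat_lit 20, nat_lit 40, nat_lit 0, nat_lit 320, nat_lit 0, nat_lit 352, nat_lit 0, nat_lit 4, nat_lit 0, nat_lit 0, nat_lit 0, nat_lit 0⟩
theorem d_VL_500_400_5_0 (h : EB TB.env) : Dead b_VL_500_400_5_0 := chkB_sound0 h (T :=
(.gv
(.st (nat_lit 1)
(.spl (nat_lit 2) (nat_lit 240)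
(.spl (nat_lit 4) (nat_lit 160)
(.leaf p025_l168)
(.spl (nat_lit 0) (nat_lit 220)
(.leaf p025_l169)
(.trX (nat_lit 16) (nat_lit 100) (nat_lit 86) (nat_lit 60) (nat_lit 304) (.leaf p025_l170))))
(.leaf p025_l171))
(.spl (nat_lit 2) (nat_lit 240)
(.spl (nat_lit 4) (nat_lit 160)
(.leaf p025_l172)
(.spl (nat_lit 0) (nat_lit 220)
(.leaf p025_l173)
(.trX (nat_lit 16) (nat_lit 100) (nat_lit 86) (nat_lit 60) (nat_lit 304) (.leaf p025_l174))))
(.spl (nat_lit 5) (nat_lit 160)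
(.leaf p025_l175)
(.leaf p025_l176))))
(.leaf p025_l177))) (by decide +kernel)
noncomputable def p025_l178 : Lf2 := ⟨nat_lit 1, nat_lit 1, [nat_lit 19, nat_lit 5, nat_lit 5, nat_lit 20], false, nat_lit 0, nat_lit 320, nat_lit 0, nat_lit 352, zbN0,
 nat_lit 0, nat_lit 0, nat_lit 0, nat_lit 0, nat_lit 0, nat_lit 0, nat_lit 0, nat_lit 0, nat_lit 0, nat_lit 0, nat_lit 0, nat_lit 0, nat_lit 0, nat_lit 0, nat_lit 0, nat_lit 0, nat_lit 0, nat_lit 0, [],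
 C1.Rw.none, C1.Rw.none,
 zbF0, []⟩
noncomputable def p025_l179 : Lf2 := ⟨nat_lit 1, nat_lit 1, [nat_lit 19, nat_lit 5, nat_lit 5, nat_lit 20], false, nat_lit 0, nat_lit 304, nat_lit 0, nat_lit 352, zbN0,
 nat_lit 0, nat_lit 0, nat_lit 0, nat_lit 0, nat_lit 0, nat_lit 0, nat_lit 0, nat_lit 0, nat_lit 0, nat_lit 0, nat_lit 0, nat_lit 0, nat_lit 0, nat_lit 0, nat_lit 0, nat_lit 0, nat_lit 0, nat_lit 0, [],
 C1.Rw.none, C1.Rw.none,
 zbF0, []⟩
noncomputable def p025_l180 : Lf2 := ⟨nat_lit 1, nat_lit 1, [nat_lit 19, nat_lit 5, nat_lit 5, nat_lit 20], false, nat_lit 0, nat_lit 296, nat_lit 0, nat_lit 352, zbN0,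
 nat_lit 0, nat_lit 0, nat_lit 0, nat_lit 0, nat_lit 0, nat_lit 0, nat_lit 0, nat_lit 0, nat_lit 0, nat_lit 0, nat_lit 0, nat_lit 0, nat_lit 0, nat_lit 0, nat_lit 0, nat_lit 0, nat_lit 0, nat_lit 0, [],
 C1.Rw.none, C1.Rw.none,
 zbF0, []⟩
noncomputable def p025_l181 : Lf2 := ⟨nat_lit 1, nat_lit 1, [nat_lit 19, nat_lit 5, nat_lit 5, nat_lit 20], false, nat_lit 0, nat_lit 292, nat_lit 0, nat_lit 352, zbN0,
 nat_lit 0, nat_lit 0, nat_lit 0, nat_lit 0, nat_lit 0, nat_lit 0, nat_lit 0, nat_lit 0, nat_lit 0, nat_lit 0, nat_lit 0, nat_lit 0, nat_lit 0, nat_lit 0, nat_lit 0, nat_lit 0, nat_lit 0, nat_lit 0, [],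
 C1.Rw.none, C1.Rw.none,
 zbF0, []⟩
noncomputable def p025_l182 : Lf2 := ⟨nat_lit 1, nat_lit 1, [nat_lit 19, nat_lit 5, nat_lit 5, nat_lit 20], false, nat_lit 0, nat_lit 292, nat_lit 0, nat_lit 336, zbN0,
 nat_lit 0, nat_lit 0, nat_lit 0, nat_lit 0, nat_lit 0, nat_lit 0, nat_lit 0, nat_lit 0, nat_lit 0, nat_lit 0, nat_lit 0, nat_lit 0, nat_lit 0, nat_lit 0, nat_lit 0, nat_lit 0, nat_lit 0, nat_lit 0, [],
 C1.Rw.none, C1.Rw.none,
 zbF0, []⟩
noncomputable def p025_l183 : Lf2 := ⟨nat_lit 0, nat_lit 1, [nat_lit 19, nat_lit 5, nat_lit 5, nat_lit 20], true, nat_lit 0, nat_lit 160, nat_lit 0, nat_lit 328, ⟨nat_lit 0, nat_lit 0, nat_lit 1000, nat_lit 4, nat_lit 99, nat_lit 800, nat_lit 47, nat_lit 1000, nat_lit 7350, nat_lit 236, nat_lit 91267, nat_lit 289, nat_lit 63164270, nat_lit 0, nat_lit 0, nat_lit 1096652, false, false⟩,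
 nat_lit 0, nat_lit 9442, nat_lit 0, nat_lit 0, nat_lit 4876, nat_lit 0, nat_lit 0, nat_lit 0, nat_lit 0, nat_lit 0, nat_lit 0, nat_lit 0, nat_lit 0, nat_lit 0, nat_lit 53, nat_lit 1000000, nat_lit 0, nat_lit 0, [(nat_lit 3, [(nat_lit 6, nat_lit 1000)])],
 ⟨p025_k30, nat_lit 0, nat_lit 0, nat_lit 275, nat_lit 0, nat_lit 40148, [nat_lit 2101142858, nat_lit 11600000], [], [nat_lit 14576158278, nat_lit 14882253108, nat_lit 13420408934, nat_lit 13680254436, nat_lit 13420408934, nat_lit 13680254436, nat_lit 19478364390, nat_lit 18879564772], nat_lit 1271250, nat_lit 1271250, nat_lit 0, nat_lit 1100001, nat_lit 0, nat_lit 1100001, [nat_lit 1412500, nat_lit 1271250], [nat_lit 26, nat_lit 40, nat_lit 20, nat_lit 80, nat_lit 2, nat_lit 373, nat_lit 150, nat_lit 13]⟩, C1.Rw.none,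
 ⟨nat_lit 6324, nat_lit 6423, ⟨.ofNat (nat_lit 73203), .ofNat (nat_lit 406087), .ofNat (nat_lit 83894), .ofNat (nat_lit 416778), .ofNat (nat_lit 77993), .ofNat (nat_lit 407050), .ofNat (nat_lit 88677), .ofNat (nat_lit 417734)⟩, ⟨.negSucc (nat_lit 108540), .ofNat (nat_lit 224342), .negSucc (nat_lit 87158), .ofNat (nat_lit 245724), .negSucc (nat_lit 103633), .ofNat (nat_lit 225423), .negSucc (nat_lit 82265), .ofNat (nat_lit 246791)⟩⟩, []⟩
noncomputable def p025_l184 : Lf2 := ⟨nat_lit 0, nat_lit 1, [nat_lit 19, nat_lit 5, nat_lit 5, nat_lit 20], true, nat_lit 160, nat_lit 240, nat_lit 0, nat_lit 328, ⟨nat_lit 0, nat_lit 0, nat_lit 1000, nat_lit 4, nat_lit 99, nat_lit 1000, nat_lit 127, nat_lit 1000, nat_lit 153600, nat_lit 311, nat_lit 91267, nat_lit 289, nat_lit 55994705, nat_lit 0, nat_lit 0, nat_lit 2959842, false, false⟩,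
 nat_lit 0, nat_lit 9994, nat_lit 0, nat_lit 0, nat_lit 5161, nat_lit 0, nat_lit 0, nat_lit 0, nat_lit 0, nat_lit 0, nat_lit 0, nat_lit 0, nat_lit 0, nat_lit 0, nat_lit 53, nat_lit 1000000, nat_lit 0, nat_lit 0, [(nat_lit 3, [(nat_lit 6, nat_lit 1000)])],
 ⟨p025_k30, nat_lit 0, nat_lit 0, nat_lit 195, nat_lit 0, nat_lit 40148, [nat_lit 2101142858, nat_lit 11600000], [], [nat_lit 11597816686, nat_lit 11939953310, nat_lit 10417510332, nat_lit 10707283970, nat_lit 15648804188, nat_lit 15931377362, nat_lit 15625956999, nat_lit 14963983914], nat_lit 1271250, nat_lit 1271250, nat_lit 0, nat_lit 1100001, nat_lit 1100001, nat_lit 1785000, [nat_lit 1412500, nat_lit 1271250], [nat_lit 26, nat_lit 40, nat_lit 20, nat_lit 80, nat_lit 2, nat_lit 401, nat_lit 175, nat_lit 13]⟩, C1.Rw.none,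
 ⟨nat_lit 6324, nat_lit 6423, ⟨.ofNat (nat_lit 73203), .ofNat (nat_lit 406087), .ofNat (nat_lit 83894), .ofNat (nat_lit 416778), .ofNat (nat_lit 77993), .ofNat (nat_lit 407050), .ofNat (nat_lit 88677), .ofNat (nat_lit 417734)⟩, ⟨.ofNat (nat_lit 224342), .ofNat (nat_lit 390784), .ofNat (nat_lit 245724), .ofNat (nat_lit 412166), .ofNat (nat_lit 225423), .ofNat (nat_lit 389952), .ofNat (nat_lit 246791), .ofNat (nat_lit 411320)⟩⟩, [⟨nat_lit 0, nat_lit 100, nat_lit 98, nat_lit 20, nat_lit 120466628⟩]⟩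
noncomputable def p025_l185 : Lf2 := ⟨nat_lit 0, nat_lit 1, [nat_lit 19, nat_lit 5, nat_lit 5, nat_lit 20], true, nat_lit 240, nat_lit 292, nat_lit 0, nat_lit 328, ⟨nat_lit 0, nat_lit 0, nat_lit 1000, nat_lit 4, nat_lit 99, nat_lit 1000, nat_lit 182, nat_lit 1000, nat_lit 19223, nat_lit 248, nat_lit 91267, nat_lit 289, nat_lit 51095783, nat_lit 0, nat_lit 0, nat_lit 3655615, false, false⟩,
 nat_lit 0, nat_lit 10542, nat_lit 0, nat_lit 2991, nat_lit 5444, nat_lit 0, nat_lit 0, nat_lit 0, nat_lit 0, nat_lit 0, nat_lit 0, nat_lit 0, nat_lit 0, nat_lit 0, nat_lit 53, nat_lit 1000000, nat_lit 0, nat_lit 0, [(nat_lit 3, [(nat_lit 6, nat_lit 1000)])],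
 ⟨p025_k30, nat_lit 0, nat_lit 0, nat_lit 155, nat_lit 0, nat_lit 40148, [nat_lit 2101142858, nat_lit 11600000], [], [nat_lit 15761431020, nat_lit 16121739776, nat_lit 13976700348, nat_lit 14164467412, nat_lit 20678726391, nat_lit 20977134050, nat_lit 17097348152, nat_lit 17360721146], nat_lit 1271250, nat_lit 1271250, nat_lit 0, nat_lit 1100001, nat_lit 1271250, nat_lit 1271250, [nat_lit 1412500, nat_lit 1271250], [nat_lit 26, nat_lit 40, nat_lit 20, nat_lit 80, nat_lit 2, nat_lit 317, nat_lit 100, nat_lit 10]⟩, C1.Rw.none,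
 ⟨nat_lit 6324, nat_lit 6423, ⟨.ofNat (nat_lit 73203), .ofNat (nat_lit 406087), .ofNat (nat_lit 83894), .ofNat (nat_lit 416778), .ofNat (nat_lit 77993), .ofNat (nat_lit 407050), .ofNat (nat_lit 88677), .ofNat (nat_lit 417734)⟩, ⟨.ofNat (nat_lit 390784), .ofNat (nat_lit 498971), .ofNat (nat_lit 412166), .ofNat (nat_lit 520352), .ofNat (nat_lit 389952), .ofNat (nat_lit 496895), .ofNat (nat_lit 411320), .ofNat (nat_lit 518263)⟩⟩, [⟨nat_lit 0, nat_lit 100, nat_lit 98, nat_lit 20, nat_lit 170585486⟩, ⟨nat_lit 4, nat_lit 95, nat_lit 100, nat_lit 54, nat_lit 821611890⟩]⟩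
noncomputable def p025_l186 : Lf2 := ⟨nat_lit 0, nat_lit 1, [nat_lit 19, nat_lit 5, nat_lit 5, nat_lit 20], false, nat_lit 0, nat_lit 292, nat_lit 0, nat_lit 328, ⟨nat_lit 1000, nat_lit 0, nat_lit 0, nat_lit 0, nat_lit 0, nat_lit 0, nat_lit 0, nat_lit 0, nat_lit 0, nat_lit 0, nat_lit 0, nat_lit 0, nat_lit 0, nat_lit 0, nat_lit 0, nat_lit 0, false, false⟩,
 nat_lit 0, nat_lit 23602, nat_lit 0, nat_lit 28117, nat_lit 12190, nat_lit 13093, nat_lit 3597, nat_lit 0, nat_lit 0, nat_lit 0, nat_lit 0, nat_lit 0, nat_lit 0, nat_lit 0, nat_lit 0, nat_lit 0, nat_lit 0, nat_lit 0, [],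
 ⟨p025_k30, nat_lit 0, nat_lit 0, nat_lit 195, nat_lit 0, nat_lit 40148, [nat_lit 6250000000, nat_lit 7968000000], [], [nat_lit 12502560545, nat_lit 12923785800, nat_lit 17643261735, nat_lit 16079717480, nat_lit 33505166637, nat_lit 32074739924, nat_lit 40265396568, nat_lit 38854026482], nat_lit 1271250, nat_lit 1271250, nat_lit 1100001, nat_lit 1442500, nat_lit 0, nat_lit 2062250, [nat_lit 1412500, nat_lit 1271250], [nat_lit 26, nat_lit 40, nat_lit 20, nat_lit 80, nat_lit 2, nat_lit 428, nat_lit 200, nat_lit 14]⟩, ⟨p025_k31, nat_lit 0, nat_lit 0, nat_lit 18, nat_lit 0, nat_lit 0, [nat_lit 7968000000, nat_lit 9842000000], [], [nat_lit 12602013930, nat_lit 13324975876, nat_lit 15224310811, nat_lit 15857422456, nat_lit 19405771206, nat_lit 19602943244, nat_lit 20559102849, nat_lit 20878038411], nat_lit 0, nat_lit 0, nat_lit 0, nat_lit 0, nat_lit 0, nat_lit 0, [], [nat_lit 77, nat_lit 40,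 nat_lit 20, nat_lit 80, nat_lit 17, nat_lit 428, nat_lit 200, nat_lit 12]⟩,
 zbF0, [⟨nat_lit 4, nat_lit 95, nat_lit 100, nat_lit 54, nat_lit 1029865756⟩, ⟨nat_lit 19, nat_lit 100, nat_lit 84, nat_lit 53, nat_lit 498096558⟩]⟩
noncomputable def p025_l187 : Lf2 := ⟨nat_lit 0, nat_lit 1, [nat_lit 19, nat_lit 5, nat_lit 5, nat_lit 20], true, nat_lit 0, nat_lit 292, nat_lit 0, nat_lit 328, ⟨nat_lit 0, nat_lit 0, nat_lit 1000, nat_lit 5, nat_lit 214, nat_lit 1000, nat_lit 102, nat_lit 1000, nat_lit 17067, nat_lit 247, nat_lit 166, nat_lit 218, nat_lit 52045971, nat_lit 0, nat_lit 0, nat_lit 2654606, true, true⟩,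
 nat_lit 0, nat_lit 8712, nat_lit 0, nat_lit 0, nat_lit 4499, nat_lit 0, nat_lit 0, nat_lit 0, nat_lit 0, nat_lit 0, nat_lit 0, nat_lit 0, nat_lit 0, nat_lit 0, nat_lit 53, nat_lit 1000000, nat_lit 0, nat_lit 0, [(nat_lit 3, [(nat_lit 6, nat_lit 1000)])],
 ⟨p025_k30, nat_lit 0, nat_lit 0, nat_lit 175, nat_lit 0, nat_lit 40148, [nat_lit 2101142858, nat_lit 11600000], [], [nat_lit 13771064734, nat_lit 14066408466, nat_lit 15934437328, nat_lit 16201298594, nat_lit 18776323186, nat_lit 18956306792, nat_lit 20099663352, nat_lit 20263000003], nat_lit 1271250, nat_lit 1271250, nat_lit 1271250, nat_lit 1271250, nat_lit 0, nat_lit 2062250, [nat_lit 1412500, nat_lit 1271250], [nat_lit 26, nat_lit 40, nat_lit 20, nat_lit 80, nat_lit 2, nat_lit 428, nat_lit 200, nat_lit 14]⟩, C1.Rw.none,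
 ⟨nat_lit 6324, nat_lit 6423, ⟨.ofNat (nat_lit 489308), .ofNat (nat_lit 572527), .ofNat (nat_lit 499999), .ofNat (nat_lit 583218), .ofNat (nat_lit 489315), .ofNat (nat_lit 571578), .ofNat (nat_lit 499999), .ofNat (nat_lit 582261)⟩, ⟨.negSucc (nat_lit 108540), .ofNat (nat_lit 498971), .negSucc (nat_lit 87158), .ofNat (nat_lit 520352), .negSucc (nat_lit 103633), .ofNat (nat_lit 496895), .negSucc (nat_lit 82265), .ofNat (nat_lit 518263)⟩⟩, [⟨nat_lit 16, nat_lit 100, nat_lit 95, nat_lit 54, nat_lit 32001803⟩]⟩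
noncomputable def p025_l188 : Lf2 := ⟨nat_lit 0, nat_lit 1, [nat_lit 19, nat_lit 5, nat_lit 5, nat_lit 20], false, nat_lit 0, nat_lit 292, nat_lit 0, nat_lit 328, ⟨nat_lit 1000, nat_lit 0, nat_lit 0, nat_lit 0, nat_lit 0, nat_lit 0, nat_lit 0, nat_lit 0, nat_lit 0, nat_lit 0, nat_lit 0, nat_lit 0, nat_lit 0, nat_lit 0, nat_lit 0, nat_lit 0, false, false⟩,
 nat_lit 0, nat_lit 13981, nat_lit 0, nat_lit 5524, nat_lit 7220, nat_lit 10368, nat_lit 1460, nat_lit 0, nat_lit 0, nat_lit 2498, nat_lit 0, nat_lit 0, nat_lit 0, nat_lit 0, nat_lit 0, nat_lit 0, nat_lit 0, nat_lit 0, [],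
 ⟨p025_k30, nat_lit 0, nat_lit 0, nat_lit 202, nat_lit 0, nat_lit 40148, [nat_lit 6250000000, nat_lit 7968000000], [], [nat_lit 25244559270, nat_lit 25468366720, nat_lit 36723865540, nat_lit 36892682240, nat_lit 28317033745, nat_lit 27492074920, nat_lit 32501276432, nat_lit 32542422992], nat_lit 1271250, nat_lit 1271250, nat_lit 1271250, nat_lit 1271250, nat_lit 0, nat_lit 2062250, [nat_lit 1412500, nat_lit 1271250], [nat_lit 26, nat_lit 40, nat_lit 20, nat_lit 80, nat_lit 2, nat_lit 373, nat_lit 150, nat_lit 12]⟩, ⟨p025_k31, nat_lit 0, nat_lit 0, nat_lit 230, nat_lit 0, nat_lit 0, [nat_lit 7968000000, nat_lit 9842000000], [], [nat_lit 26530413786, nat_lit 26741636586, nat_lit 43253524584, nat_lit 43331282816, nat_lit 25057798523, nat_lit 25073329028, nat_lit 37422256437, nat_lit 37351272468], nat_lit 0, nat_lit 0, nat_lit 0, nat_lit 0, nat_lit 0, nat_lit 0, [], [nat_lit 77, nat_lit 40,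 nat_lit 20, nat_lit 80, nat_lit 17, nat_lit 483, nat_lit 250, nat_lit 14]⟩,
 zbF0, [⟨nat_lit 16, nat_lit 100, nat_lit 95, nat_lit 54, nat_lit 192797739⟩, ⟨nat_lit 7, nat_lit 84, nat_lit 100, nat_lit 53, nat_lit 181661810⟩]⟩
noncomputable def p025_l189 : Lf2 := ⟨nat_lit 1, nat_lit 1, [nat_lit 19, nat_lit 5, nat_lit 5, nat_lit 20], false, nat_lit 0, nat_lit 320, nat_lit 0, nat_lit 352, zbN0,
 nat_lit 0, nat_lit 0, nat_lit 0, nat_lit 0, nat_lit 0, nat_lit 0, nat_lit 0, nat_lit 0, nat_lit 0, nat_lit 0, nat_lit 0, nat_lit 0, nat_lit 0, nat_lit 0, nat_lit 0, nat_lit 0, nat_lit 0, nat_lit 0, [],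
 C1.Rw.none, C1.Rw.none,
 zbF0, []⟩
noncomputable def p025_l190 : Lf2 := ⟨nat_lit 1, nat_lit 1, [nat_lit 19, nat_lit 5, nat_lit 5, nat_lit 20], false, nat_lit 0, nat_lit 304, nat_lit 0, nat_lit 352, zbN0,
 nat_lit 0, nat_lit 0, nat_lit 0, nat_lit 0, nat_lit 0, nat_lit 0, nat_lit 0, nat_lit 0, nat_lit 0, nat_lit 0, nat_lit 0, nat_lit 0, nat_lit 0, nat_lit 0, nat_lit 0, nat_lit 0, nat_lit 0, nat_lit 0, [],
 C1.Rw.none, C1.Rw.none,
 zbF0, []⟩
noncomputable def p025_l191 : Lf2 := ⟨nat_lit 1, nat_lit 1, [nat_lit 19, nat_lit 5, nat_lit 5, nat_lit 20], false, nat_lit 0, nat_lit 296, nat_lit 0, nat_lit 352, zbN0,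
 nat_lit 0, nat_lit 0, nat_lit 0, nat_lit 0, nat_lit 0, nat_lit 0, nat_lit 0, nat_lit 0, nat_lit 0, nat_lit 0, nat_lit 0, nat_lit 0, nat_lit 0, nat_lit 0, nat_lit 0, nat_lit 0, nat_lit 0, nat_lit 0, [],
 C1.Rw.none, C1.Rw.none,
 zbF0, []⟩
noncomputable def p025_l192 : Lf2 := ⟨nat_lit 1, nat_lit 1, [nat_lit 19, nat_lit 5, nat_lit 5, nat_lit 20], false, nat_lit 0, nat_lit 292, nat_lit 0, nat_lit 352, zbN0,
 nat_lit 0, nat_lit 0, nat_lit 0, nat_lit 0, nat_lit 0, nat_lit 0, nat_lit 0, nat_lit 0, nat_lit 0, nat_lit 0, nat_lit 0, nat_lit 0, nat_lit 0, nat_lit 0, nat_lit 0, nat_lit 0, nat_lit 0, nat_lit 0, [],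
 C1.Rw.none, C1.Rw.none,
 zbF0, []⟩
noncomputable def p025_l193 : Lf2 := ⟨nat_lit 1, nat_lit 1, [nat_lit 19, nat_lit 5, nat_lit 5, nat_lit 20], false, nat_lit 0, nat_lit 292, nat_lit 0, nat_lit 336, zbN0,
 nat_lit 0, nat_lit 0, nat_lit 0, nat_lit 0, nat_lit 0, nat_lit 0, nat_lit 0, nat_lit 0, nat_lit 0, nat_lit 0, nat_lit 0, nat_lit 0, nat_lit 0, nat_lit 0, nat_lit 0, nat_lit 0, nat_lit 0, nat_lit 0, [],
 C1.Rw.none, C1.Rw.none,
 zbF0, []⟩
noncomputable def p025_l194 : Lf2 := ⟨nat_lit 0, nat_lit 1, [nat_lit 19, nat_lit 5, nat_lit 5, nat_lit 20], true, nat_lit 0, nat_lit 160, nat_lit 0, nat_lit 328, ⟨nat_lit 0, nat_lit 0, nat_lit 1000, nat_lit 4, nat_lit 99, nat_lit 800, nat_lit 47, nat_lit 1000, nat_lit 7350, nat_lit 236, nat_lit 91267, nat_lit 289, nat_lit 63164270, nat_lit 0, nat_lit 0, nat_lit 1096652, false, false⟩,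
 nat_lit 0, nat_lit 9442, nat_lit 0, nat_lit 0, nat_lit 4876, nat_lit 0, nat_lit 0, nat_lit 0, nat_lit 0, nat_lit 0, nat_lit 0, nat_lit 0, nat_lit 0, nat_lit 0, nat_lit 53, nat_lit 1000000, nat_lit 0, nat_lit 0, [(nat_lit 3, [(nat_lit 6, nat_lit 1000)])],
 ⟨p025_k30, nat_lit 0, nat_lit 0, nat_lit 275, nat_lit 0, nat_lit 40148, [nat_lit 2101142858, nat_lit 11600000], [], [nat_lit 14576158278, nat_lit 14882253108, nat_lit 13420408934, nat_lit 13680254436, nat_lit 13420408934, nat_lit 13680254436, nat_lit 19478364390, nat_lit 18879564772], nat_lit 1271250, nat_lit 1271250, nat_lit 0, nat_lit 1100001, nat_lit 0, nat_lit 1100001, [nat_lit 1412500, nat_lit 1271250], [nat_lit 26, nat_lit 40, nat_lit 20, nat_lit 80, nat_lit 2, nat_lit 373, nat_lit 150, nat_lit 13]⟩, C1.Rw.none,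
 ⟨nat_lit 6324, nat_lit 6423, ⟨.ofNat (nat_lit 73203), .ofNat (nat_lit 406087), .ofNat (nat_lit 83894), .ofNat (nat_lit 416778), .ofNat (nat_lit 77993), .ofNat (nat_lit 407050), .ofNat (nat_lit 88677), .ofNat (nat_lit 417734)⟩, ⟨.negSucc (nat_lit 108540), .ofNat (nat_lit 224342), .negSucc (nat_lit 87158), .ofNat (nat_lit 245724), .negSucc (nat_lit 103633), .ofNat (nat_lit 225423), .negSucc (nat_lit 82265), .ofNat (nat_lit 246791)⟩⟩, []⟩
noncomputable def p025_l195 : Lf2 := ⟨nat_lit 0, nat_lit 1, [nat_lit 19, nat_lit 5, nat_lit 5, nat_lit 20], true, nat_lit 0, nat_lit 160, nat_lit 0, nat_lit 328, ⟨nat_lit 0, nat_lit 1000, nat_lit 0, nat_lit 4, nat_lit 198, nat_lit 780, nat_lit 47, nat_lit 0, nat_lit 0, nat_lit 0, nat_lit 0, nat_lit 0, nat_lit 53828980, nat_lit 13171020, nat_lit 0, nat_lit 2478138, false, true⟩,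
 nat_lit 0, nat_lit 14018, nat_lit 0, nat_lit 0, nat_lit 7240, nat_lit 0, nat_lit 0, nat_lit 0, nat_lit 0, nat_lit 0, nat_lit 0, nat_lit 0, nat_lit 0, nat_lit 0, nat_lit 0, nat_lit 1000000, nat_lit 0, nat_lit 0, [(nat_lit 3, [(nat_lit 2, nat_lit 1000)])],
 ⟨p025_k30, nat_lit 0, nat_lit 0, nat_lit 195, nat_lit 0, nat_lit 40148, [nat_lit 3292500000, nat_lit 2888400000], [], [nat_lit 12328693020, nat_lit 12738779680, nat_lit 17003135200, nat_lit 17335051360, nat_lit 9285946740, nat_lit 9628898080, nat_lit 15552910020, nat_lit 14624275040], nat_lit 1271250, nat_lit 1271250, nat_lit 1100001, nat_lit 1785000, nat_lit 0, nat_lit 1100001, [nat_lit 1412500, nat_lit 1271250], [nat_lit 26, nat_lit 40, nat_lit 20, nat_lit 80, nat_lit 2, nat_lit 401, nat_lit 175, nat_lit 13]⟩, C1.Rw.none,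
 ⟨nat_lit 6324, nat_lit 6423, ⟨.ofNat (nat_lit 406087), .ofNat (nat_lit 572527), .ofNat (nat_lit 416778), .ofNat (nat_lit 583218), .ofNat (nat_lit 407050), .ofNat (nat_lit 571578), .ofNat (nat_lit 417734), .ofNat (nat_lit 582261)⟩, ⟨.negSucc (nat_lit 108540), .ofNat (nat_lit 224342), .negSucc (nat_lit 87158), .ofNat (nat_lit 245724), .negSucc (nat_lit 103633), .ofNat (nat_lit 225423), .negSucc (nat_lit 82265), .ofNat (nat_lit 246791)⟩⟩, []⟩
noncomputable def p025_l196 : Lf2 := ⟨nat_lit 0, nat_lit 1, [nat_lit 19, nat_lit 5, nat_lit 5, nat_lit 20], true, nat_lit 160, nat_lit 240, nat_lit 0, nat_lit 328, ⟨nat_lit 0, nat_lit 0, nat_lit 1000, nat_lit 4, nat_lit 82, nat_lit 1000, nat_lit 127, nat_lit 1000, nat_lit 153600, nat_lit 311, nat_lit 64067, nat_lit 277, nat_lit 57151967, nat_lit 0, nat_lit 0, nat_lit 2705312, false, false⟩,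
 nat_lit 0, nat_lit 9994, nat_lit 0, nat_lit 0, nat_lit 5161, nat_lit 0, nat_lit 0, nat_lit 0, nat_lit 0, nat_lit 0, nat_lit 0, nat_lit 0, nat_lit 0, nat_lit 0, nat_lit 53, nat_lit 1000000, nat_lit 0, nat_lit 0, [(nat_lit 3, [(nat_lit 6, nat_lit 1000)])],
 ⟨p025_k30, nat_lit 0, nat_lit 0, nat_lit 195, nat_lit 0, nat_lit 40148, [nat_lit 2101142858, nat_lit 11600000], [], [nat_lit 11597816686, nat_lit 11939953310, nat_lit 9416803399, nat_lit 9727042266, nat_lit 15648804188, nat_lit 15931377362, nat_lit 13133780154, nat_lit 13390697182], nat_lit 1271250, nat_lit 1271250, nat_lit 0, nat_lit 780000, nat_lit 1100001, nat_lit 1785000, [nat_lit 1412500, nat_lit 1271250], [nat_lit 26, nat_lit 40, nat_lit 20, nat_lit 80, nat_lit 2, nat_lit 373, nat_lit 150, nat_lit 12]⟩, C1.Rw.none,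
 ⟨nat_lit 6324, nat_lit 6423, ⟨.ofNat (nat_lit 73203), .ofNat (nat_lit 322866), .ofNat (nat_lit 83894), .ofNat (nat_lit 333557), .ofNat (nat_lit 77993), .ofNat (nat_lit 324786), .ofNat (nat_lit 88677), .ofNat (nat_lit 335470)⟩, ⟨.ofNat (nat_lit 224342), .ofNat (nat_lit 390784), .ofNat (nat_lit 245724), .ofNat (nat_lit 412166), .ofNat (nat_lit 225423), .ofNat (nat_lit 389952), .ofNat (nat_lit 246791), .ofNat (nat_lit 411320)⟩⟩, [⟨nat_lit 0, nat_lit 100, nat_lit 98, nat_lit 20, nat_lit 215454924⟩]⟩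
noncomputable def p025_l197 : Lf2 := ⟨nat_lit 0, nat_lit 1, [nat_lit 19, nat_lit 5, nat_lit 5, nat_lit 20], true, nat_lit 240, nat_lit 292, nat_lit 0, nat_lit 328, ⟨nat_lit 0, nat_lit 0, nat_lit 1000, nat_lit 4, nat_lit 82, nat_lit 1000, nat_lit 182, nat_lit 1000, nat_lit 19223, nat_lit 248, nat_lit 64067, nat_lit 277, nat_lit 52129505, nat_lit 0, nat_lit 0, nat_lit 3421881, false, false⟩,
 nat_lit 0, nat_lit 10542, nat_lit 0, nat_lit 3039, nat_lit 5444, nat_lit 0, nat_lit 0, nat_lit 0, nat_lit 0, nat_lit 0, nat_lit 0, nat_lit 0, nat_lit 0, nat_lit 0, nat_lit 53, nat_lit 1000000, nat_lit 0, nat_lit 0, [(nat_lit 3, [(nat_lit 6, nat_lit 1000)])],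
 ⟨p025_k30, nat_lit 0, nat_lit 0, nat_lit 155, nat_lit 0, nat_lit 40148, [nat_lit 2101142858, nat_lit 11600000], [], [nat_lit 15761431020, nat_lit 16121739776, nat_lit 13439882976, nat_lit 13641406484, nat_lit 20678726391, nat_lit 20977134050, nat_lit 16453540646, nat_lit 16734375073], nat_lit 1271250, nat_lit 1271250, nat_lit 0, nat_lit 780000, nat_lit 1271250, nat_lit 1271250, [nat_lit 1412500, nat_lit 1271250], [nat_lit 26, nat_lit 40, nat_lit 20, nat_lit 80, nat_lit 2, nat_lit 317, nat_lit 100, nat_lit 10]⟩, C1.Rw.none,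
 ⟨nat_lit 6324, nat_lit 6423, ⟨.ofNat (nat_lit 73203), .ofNat (nat_lit 322866), .ofNat (nat_lit 83894), .ofNat (nat_lit 333557), .ofNat (nat_lit 77993), .ofNat (nat_lit 324786), .ofNat (nat_lit 88677), .ofNat (nat_lit 335470)⟩, ⟨.ofNat (nat_lit 390784), .ofNat (nat_lit 498971), .ofNat (nat_lit 412166), .ofNat (nat_lit 520352), .ofNat (nat_lit 389952), .ofNat (nat_lit 496895), .ofNat (nat_lit 411320), .ofNat (nat_lit 518263)⟩⟩, [⟨nat_lit 0, nat_lit 100, nat_lit 98, nat_lit 20, nat_lit 208924989⟩, ⟨nat_lit 4, nat_lit 95, nat_lit 100, nat_lit 54, nat_lit 821611890⟩]⟩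
noncomputable def p025_l198 : Lf2 := ⟨nat_lit 2, nat_lit 1, [nat_lit 19, nat_lit 5, nat_lit 5, nat_lit 20], true, nat_lit 160, nat_lit 240, nat_lit 0, nat_lit 328, zbN0,
 nat_lit 0, nat_lit 0, nat_lit 0, nat_lit 0, nat_lit 0, nat_lit 0, nat_lit 0, nat_lit 0, nat_lit 0, nat_lit 0, nat_lit 0, nat_lit 0, nat_lit 0, nat_lit 0, nat_lit 0, nat_lit 0, nat_lit 0, nat_lit 0, [],
 ⟨p025_k30, nat_lit 0, nat_lit 0, nat_lit 135, nat_lit 0, nat_lit 40148, [], [], [], nat_lit 1271250, nat_lit 1271250, nat_lit 780000, nat_lit 1100001, nat_lit 1100001, nat_lit 1785000, [nat_lit 1412500, nat_lit 1271250], [nat_lit 26, nat_lit 40, nat_lit 20, nat_lit 80, nat_lit 2, nat_lit 401, nat_lit 175, nat_lit 13]⟩, C1.Rw.none,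
 zbF0, []⟩
noncomputable def p025_l199 : Lf2 := ⟨nat_lit 2, nat_lit 1, [nat_lit 19, nat_lit 5, nat_lit 5, nat_lit 20], true, nat_lit 160, nat_lit 240, nat_lit 0, nat_lit 328, zbN0,
 nat_lit 0, nat_lit 0, nat_lit 0, nat_lit 0, nat_lit 0, nat_lit 0, nat_lit 0, nat_lit 0, nat_lit 0, nat_lit 0, nat_lit 0, nat_lit 0, nat_lit 0, nat_lit 0, nat_lit 0, nat_lit 0, nat_lit 0, nat_lit 0, [],
 ⟨p025_k30, nat_lit 0, nat_lit 0, nat_lit 115, nat_lit 0, nat_lit 40148, [], [], [], nat_lit 1271250, nat_lit 1271250, nat_lit 1100001, nat_lit 1271250, nat_lit 1100001, nat_lit 1785000, [nat_lit 1412500, nat_lit 1271250], [nat_lit 26, nat_lit 40, nat_lit 20, nat_lit 80, nat_lit 2, nat_lit 401, nat_lit 175, nat_lit 13]⟩, C1.Rw.none,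
 zbF0, []⟩
noncomputable def p025_l200 : Lf2 := ⟨nat_lit 2, nat_lit 1, [nat_lit 19, nat_lit 5, nat_lit 5, nat_lit 20], true, nat_lit 160, nat_lit 240, nat_lit 0, nat_lit 328, zbN0,
 nat_lit 0, nat_lit 0, nat_lit 0, nat_lit 0, nat_lit 0, nat_lit 0, nat_lit 0, nat_lit 0, nat_lit 0, nat_lit 0, nat_lit 0, nat_lit 0, nat_lit 0, nat_lit 0, nat_lit 0, nat_lit 0, nat_lit 0, nat_lit 0, [],
 ⟨p025_k30, nat_lit 0, nat_lit 0, nat_lit 105, nat_lit 0, nat_lit 40148, [], [], [], nat_lit 1271250, nat_lit 1271250, nat_lit 1271250, nat_lit 1271250, nat_lit 1100001, nat_lit 1785000, [nat_lit 1412500, nat_lit 1271250], [nat_lit 26, nat_lit 40, nat_lit 20, nat_lit 80, nat_lit 2, nat_lit 401, nat_lit 175, nat_lit 12]⟩, C1.Rw.none,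
 zbF0, []⟩
noncomputable def p025_l201 : Lf2 := ⟨nat_lit 2, nat_lit 1, [nat_lit 19, nat_lit 5, nat_lit 5, nat_lit 20], true, nat_lit 160, nat_lit 240, nat_lit 0, nat_lit 328, zbN0,
 nat_lit 0, nat_lit 0, nat_lit 0, nat_lit 0, nat_lit 0, nat_lit 0, nat_lit 0, nat_lit 0, nat_lit 0, nat_lit 0, nat_lit 0, nat_lit 0, nat_lit 0, nat_lit 0, nat_lit 0, nat_lit 0, nat_lit 0, nat_lit 0, [],
 ⟨p025_k30, nat_lit 0, nat_lit 0, nat_lit 95, nat_lit 0, nat_lit 40148, [], [], [], nat_lit 1271250, nat_lit 1271250, nat_lit 1271250, nat_lit 1271250, nat_lit 1100001, nat_lit 1785000, [nat_lit 1412500, nat_lit 1271250], [nat_lit 26, nat_lit 40, nat_lit 20, nat_lit 80, nat_lit 2, nat_lit 428, nat_lit 200, nat_lit 13]⟩, C1.Rw.none,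
 zbF0, []⟩
noncomputable def p025_l202 : Lf2 := ⟨nat_lit 0, nat_lit 1, [nat_lit 19, nat_lit 5, nat_lit 5, nat_lit 20], true, nat_lit 240, nat_lit 292, nat_lit 0, nat_lit 328, ⟨nat_lit 0, nat_lit 1000, nat_lit 0, nat_lit 4, nat_lit 181, nat_lit 1000, nat_lit 182, nat_lit 0, nat_lit 0, nat_lit 0, nat_lit 0, nat_lit 0, nat_lit 45167914, nat_lit 10886571, nat_lit 10945515, nat_lit 4608566, false, false⟩,
 nat_lit 0, nat_lit 691304, nat_lit 0, nat_lit 0, nat_lit 357047, nat_lit 0, nat_lit 60000, nat_lit 0, nat_lit 0, nat_lit 0, nat_lit 0, nat_lit 0, nat_lit 0, nat_lit 0, nat_lit 0, nat_lit 1000000, nat_lit 155944652217, nat_lit 0, [(nat_lit 3, [(nat_lit 2, nat_lit 1000)])],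
 ⟨p025_k30, nat_lit 0, nat_lit 0, nat_lit 95, nat_lit 0, nat_lit 40148, [nat_lit 3292500000, nat_lit 2888400000], [], [nat_lit 0, nat_lit 11033634381, nat_lit 77107442236, nat_lit 84214463037, nat_lit 170149533456, nat_lit 178229502569, nat_lit 198361858180, nat_lit 203241814384], nat_lit 1271250, nat_lit 1271250, nat_lit 780000, nat_lit 1762500, nat_lit 1271250, nat_lit 1271250, [nat_lit 1412500, nat_lit 1271250], [nat_lit 26, nat_lit 40, nat_lit 20, nat_lit 80, nat_lit 2, nat_lit 345, nat_lit 125, nat_lit 11]⟩, C1.Rw.none,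
 ⟨nat_lit 6324, nat_lit 6423, ⟨.ofNat (nat_lit 322866), .ofNat (nat_lit 572527), .ofNat (nat_lit 333557), .ofNat (nat_lit 583218), .ofNat (nat_lit 324786), .ofNat (nat_lit 571578), .ofNat (nat_lit 335470), .ofNat (nat_lit 582261)⟩, ⟨.ofNat (nat_lit 390784), .ofNat (nat_lit 498971), .ofNat (nat_lit 412166), .ofNat (nat_lit 520352), .ofNat (nat_lit 389952), .ofNat (nat_lit 496895), .ofNat (nat_lit 411320), .ofNat (nat_lit 518263)⟩⟩, [⟨nat_lit 16, nat_lit 100, nat_lit 95, nat_lit 54, nat_lit 10526315789⟩, ⟨nat_lit 4, nat_lit 95, nat_lit 100, nat_lit 54, nat_lit 10526315789⟩]⟩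
noncomputable def p025_l203 : Lf2 := ⟨nat_lit 0, nat_lit 1, [nat_lit 19, nat_lit 5, nat_lit 5, nat_lit 20], false, nat_lit 0, nat_lit 292, nat_lit 0, nat_lit 328, ⟨nat_lit 262, nat_lit 0, nat_lit 738, nat_lit 6, nat_lit 264, nat_lit 738, nat_lit 102, nat_lit 738, nat_lit 17067, nat_lit 247, nat_lit 228064, nat_lit 200, nat_lit 46664492, nat_lit 0, nat_lit 0, nat_lit 3069065, true, true⟩,
 nat_lit 7648, nat_lit 6237, nat_lit 0, nat_lit 0, nat_lit 7171, nat_lit 3091, nat_lit 0, nat_lit 0, nat_lit 0, nat_lit 1040, nat_lit 0, nat_lit 0, nat_lit 0, nat_lit 0, nat_lit 0, nat_lit 738000, nat_lit 0, nat_lit 0, [(nat_lit 3, [(nat_lit 6, nat_lit 738)])],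
 ⟨p025_k30, nat_lit 0, nat_lit 0, nat_lit 154, nat_lit 0, nat_lit 20833, [nat_lit 2405863429, nat_lit 1157440800], [], [nat_lit 17281650421, nat_lit 17575011060, nat_lit 25844655057, nat_lit 26141458080, nat_lit 20710078738, nat_lit 20467131033, nat_lit 25610794483, nat_lit 25781126226], nat_lit 1271250, nat_lit 1271250, nat_lit 1271250, nat_lit 1271250, nat_lit 0, nat_lit 2062250, [nat_lit 1412500, nat_lit 1271250], [nat_lit 26, nat_lit 40, nat_lit 20, nat_lit 80, nat_lit 2, nat_lit 373, nat_lit 150, nat_lit 12]⟩, ⟨p025_k31, nat_lit 0, nat_lit 0, nat_lit 189, nat_lit 0, nat_lit 27688, [nat_lit 2087616000, nat_lit 2578604000], [], [nat_lit 6079128980, nat_lit 6153370368, nat_lit 7799492296, nat_lit 7834308336, nat_lit 12374591834, nat_lit 11685477803, nat_lit 7807038941, nat_lit 7827199862], nat_lit 1271250, nat_lit 1271250, nat_lit 1271250, nat_lit 1271250, nat_lit 0, nat_lit 2316500,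 [nat_lit 1695000, nat_lit 1271250], [nat_lit 77, nat_lit 40, nat_lit 20, nat_lit 80, nat_lit 17, nat_lit 456, nat_lit 225, nat_lit 13]⟩,
 ⟨nat_lit 6324, nat_lit 6423, ⟨.ofNat (nat_lit 572527), .ofNat (nat_lit 738966), .ofNat (nat_lit 583218), .ofNat (nat_lit 749657), .ofNat (nat_lit 571578), .ofNat (nat_lit 736104), .ofNat (nat_lit 582261), .ofNat (nat_lit 746787)⟩, ⟨.negSucc (nat_lit 108540), .ofNat (nat_lit 498971), .negSucc (nat_lit 87158), .ofNat (nat_lit 520352), .negSucc (nat_lit 103633), .ofNat (nat_lit 496895), .negSucc (nat_lit 82265), .ofNat (nat_lit 518263)⟩⟩, [⟨nat_lit 4, nat_lit 95, nat_lit 100, nat_lit 54, nat_lit 43970743⟩, ⟨nat_lit 7, nat_lit 84, nat_lit 100, nat_lit 53, nat_lit 92523836⟩]⟩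
noncomputable def p025_l204 : Lf2 := ⟨nat_lit 0, nat_lit 1, [nat_lit 19, nat_lit 5, nat_lit 5, nat_lit 20], false, nat_lit 0, nat_lit 292, nat_lit 0, nat_lit 328, ⟨nat_lit 1000, nat_lit 0, nat_lit 0, nat_lit 0, nat_lit 0, nat_lit 0, nat_lit 0, nat_lit 0, nat_lit 0, nat_lit 0, nat_lit 0, nat_lit 0, nat_lit 0, nat_lit 0, nat_lit 0, nat_lit 0, false, false⟩,
 nat_lit 21713, nat_lit 0, nat_lit 0, nat_lit 0, nat_lit 7221, nat_lit 8777, nat_lit 1690, nat_lit 0, nat_lit 0, nat_lit 2476, nat_lit 0, nat_lit 0, nat_lit 0, nat_lit 0, nat_lit 0, nat_lit 0, nat_lit 0, nat_lit 0, [],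
 ⟨p025_k30, nat_lit 0, nat_lit 0, nat_lit 197, nat_lit 0, nat_lit 20833, [nat_lit 6250000000, nat_lit 7968000000], [], [nat_lit 29797435254, nat_lit 29959448892, nat_lit 36726365647, nat_lit 36895186032, nat_lit 28291954148, nat_lit 28372989431, nat_lit 32489805150, nat_lit 32540832796], nat_lit 1271250, nat_lit 1271250, nat_lit 1271250, nat_lit 1271250, nat_lit 0, nat_lit 2062250, [nat_lit 1412500, nat_lit 1271250], [nat_lit 26, nat_lit 40, nat_lit 20, nat_lit 80, nat_lit 2, nat_lit 373, nat_lit 150, nat_lit 12]⟩, ⟨p025_k31, nat_lit 0, nat_lit 0, nat_lit 240, nat_lit 0, nat_lit 27688, [nat_lit 7968000000, nat_lit 9842000000], [], [nat_lit 33161424140, nat_lit 33268356856, nat_lit 39441755864, nat_lit 39429508108, nat_lit 31765928539, nat_lit 30838690274, nat_lit 35481571342, nat_lit 35455293041], nat_lit 1271250, nat_lit 1271250, nat_lit 1271250, nat_lit 1271250, nat_lit 0, nat_lit 2316500,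 [nat_lit 1695000, nat_lit 1271250], [nat_lit 77, nat_lit 40, nat_lit 20, nat_lit 80, nat_lit 17, nat_lit 373, nat_lit 150, nat_lit 10]⟩,
 zbF0, [⟨nat_lit 4, nat_lit 95, nat_lit 100, nat_lit 54, nat_lit 192797739⟩, ⟨nat_lit 7, nat_lit 84, nat_lit 100, nat_lit 53, nat_lit 239412000⟩]⟩
noncomputable def p025_l205 : Lf2 := ⟨nat_lit 0, nat_lit 1, [nat_lit 19, nat_lit 5, nat_lit 5, nat_lit 20], true, nat_lit 0, nat_lit 160, nat_lit 0, nat_lit 352, ⟨nat_lit 0, nat_lit 1000, nat_lit 0, nat_lit 4, nat_lit 122, nat_lit 1000, nat_lit 46, nat_lit 0, nat_lit 0, nat_lit 0, nat_lit 0, nat_lit 0, nat_lit 0, nat_lit 0, nat_lit 0, nat_lit 5000000, false, false⟩,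
 nat_lit 0, nat_lit 5279, nat_lit 0, nat_lit 17138, nat_lit 2262, nat_lit 0, nat_lit 0, nat_lit 0, nat_lit 0, nat_lit 0, nat_lit 0, nat_lit 0, nat_lit 0, nat_lit 0, nat_lit 0, nat_lit 1000000, nat_lit 0, nat_lit 0, [(nat_lit 0, [(nat_lit 2, nat_lit 1000)]), (nat_lit 3, [(nat_lit 2, nat_lit 1000)])],
 ⟨p025_k27, nat_lit 0, nat_lit 0, nat_lit 293, nat_lit 0, nat_lit 52519, [nat_lit 3292500000, nat_lit 3405100000], [], [nat_lit 37435165496, nat_lit 34928399000, nat_lit 30127135304, nat_lit 31214245992, nat_lit 27967226032, nat_lit 29199376208, nat_lit 32421915032, nat_lit 31977606320], nat_lit 1271250, nat_lit 1271250, nat_lit 0, nat_lit 1695000, nat_lit 0, nat_lit 1100001, [nat_lit 1412500, nat_lit 1271250], [nat_lit 26, nat_lit 40, nat_lit 20, nat_lit 80, nat_lit 2, nat_lit 401, nat_lit 175, nat_lit 14]⟩, C1.Rw.none,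
 ⟨nat_lit 6324, nat_lit 7072, ⟨.ofNat (nat_lit 5716), .ofNat (nat_lit 547066), .ofNat (nat_lit 48812), .ofNat (nat_lit 590110), .ofNat (nat_lit 45940), .ofNat (nat_lit 539454), .ofNat (nat_lit 88675), .ofNat (nat_lit 582138)⟩, ⟨.negSucc (nat_lit 145122), .ofNat (nat_lit 215827), .negSucc (nat_lit 123573), .ofNat (nat_lit 237375), .negSucc (nat_lit 103636), .ofNat (nat_lit 225422), .negSucc (nat_lit 82267), .ofNat (nat_lit 246790)⟩⟩, []⟩
noncomputable def p025_l206 : Lf2 := ⟨nat_lit 0, nat_lit 1, [nat_lit 19, nat_lit 5, nat_lit 5, nat_lit 20], true, nat_lit 160, nat_lit 320, nat_lit 0, nat_lit 352, ⟨nat_lit 0, nat_lit 1000, nat_lit 0, nat_lit 4, nat_lit 122, nat_lit 1000, nat_lit 162, nat_lit 0, nat_lit 0, nat_lit 0, nat_lit 0, nat_lit 0, nat_lit 0, nat_lit 0, nat_lit 0, nat_lit 5000000, false, false⟩,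
 nat_lit 0, nat_lit 9687, nat_lit 0, nat_lit 14739, nat_lit 4151, nat_lit 0, nat_lit 0, nat_lit 0, nat_lit 0, nat_lit 0, nat_lit 0, nat_lit 0, nat_lit 0, nat_lit 0, nat_lit 0, nat_lit 1000000, nat_lit 0, nat_lit 0, [(nat_lit 0, [(nat_lit 2, nat_lit 1000)]), (nat_lit 3, [(nat_lit 2, nat_lit 1000)])],
 ⟨p025_k27, nat_lit 0, nat_lit 0, nat_lit 213, nat_lit 0, nat_lit 52519, [nat_lit 3292500000, nat_lit 3405100000], [], [nat_lit 28520888964, nat_lit 24968363784, nat_lit 36110584632, nat_lit 32144818856, nat_lit 29110796988, nat_lit 30046350600, nat_lit 29197112528, nat_lit 29869036640], nat_lit 1271250, nat_lit 1271250, nat_lit 0, nat_lit 1695000, nat_lit 1271250, nat_lit 1271250, [nat_lit 1412500, nat_lit 1271250], [nat_lit 26, nat_lit 40, nat_lit 20, nat_lit 80, nat_lit 2, nat_lit 428, nat_lit 200, nat_lit 14]⟩, C1.Rw.none,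
 ⟨nat_lit 6324, nat_lit 7072, ⟨.ofNat (nat_lit 5716), .ofNat (nat_lit 547066), .ofNat (nat_lit 48812), .ofNat (nat_lit 590110), .ofNat (nat_lit 45940), .ofNat (nat_lit 539454), .ofNat (nat_lit 88675), .ofNat (nat_lit 582138)⟩, ⟨.ofNat (nat_lit 215827), .ofNat (nat_lit 576633), .ofNat (nat_lit 237375), .ofNat (nat_lit 598155), .ofNat (nat_lit 225422), .ofNat (nat_lit 554338), .ofNat (nat_lit 246790), .ofNat (nat_lit 575680)⟩⟩, []⟩
noncomputable def p025_l207 : Lf2 := ⟨nat_lit 0, nat_lit 1, [nat_lit 19, nat_lit 5, nat_lit 5, nat_lit 20], true, nat_lit 0, nat_lit 320, nat_lit 0, nat_lit 352, ⟨nat_lit 0, nat_lit 1000, nat_lit 0, nat_lit 6, nat_lit 295, nat_lit 1000, nat_lit 115, nat_lit 0, nat_lit 0, nat_lit 0, nat_lit 0, nat_lit 0, nat_lit 0, nat_lit 0, nat_lit 0, nat_lit 5000000, false, true⟩,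
 nat_lit 0, nat_lit 11781, nat_lit 0, nat_lit 0, nat_lit 5048, nat_lit 0, nat_lit 0, nat_lit 0, nat_lit 0, nat_lit 0, nat_lit 0, nat_lit 0, nat_lit 0, nat_lit 0, nat_lit 0, nat_lit 1000000, nat_lit 0, nat_lit 0, [(nat_lit 0, [(nat_lit 2, nat_lit 1000)]), (nat_lit 3, [(nat_lit 2, nat_lit 1000)])],
 ⟨p025_k27, nat_lit 0, nat_lit 0, nat_lit 207, nat_lit 0, nat_lit 52519, [nat_lit 3292500000, nat_lit 3405100000], [], [nat_lit 21136756608, nat_lit 22717444448, nat_lit 30882571296, nat_lit 31703104000, nat_lit 31564157408, nat_lit 26992607840, nat_lit 30881518752, nat_lit 31393682304], nat_lit 1271250, nat_lit 1271250, nat_lit 1271250, nat_lit 1271250, nat_lit 0, nat_lit 2260000, [nat_lit 1412500, nat_lit 1271250], [nat_lit 26, nat_lit 40, nat_lit 20, nat_lit 80, nat_lit 2, nat_lit 373, nat_lit 150, nat_lit 12]⟩, C1.Rw.none,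
 ⟨nat_lit 6324, nat_lit 7072, ⟨.ofNat (nat_lit 547066), .ofNat (nat_lit 907507), .ofNat (nat_lit 590110), .ofNat (nat_lit 950552), .ofNat (nat_lit 539454), .ofNat (nat_lit 868005), .ofNat (nat_lit 582138), .ofNat (nat_lit 910689)⟩, ⟨.negSucc (nat_lit 145122), .ofNat (nat_lit 576633), .negSucc (nat_lit 123573), .ofNat (nat_lit 598155), .negSucc (nat_lit 103636), .ofNat (nat_lit 554338), .negSucc (nat_lit 82267), .ofNat (nat_lit 575680)⟩⟩, [⟨nat_lit 13, nat_lit 100, nat_lit 20, nat_lit 100, nat_lit 55574746⟩, ⟨nat_lit 4, nat_lit 90, nat_lit 100, nat_lit 53, nat_lit 87058008⟩]⟩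
noncomputable def p025_l208 : Lf2 := ⟨nat_lit 0, nat_lit 1, [nat_lit 19, nat_lit 5, nat_lit 5, nat_lit 20], true, nat_lit 0, nat_lit 160, nat_lit 0, nat_lit 352, ⟨nat_lit 0, nat_lit 1000, nat_lit 0, nat_lit 4, nat_lit 122, nat_lit 1000, nat_lit 46, nat_lit 0, nat_lit 0, nat_lit 0, nat_lit 0, nat_lit 0, nat_lit 0, nat_lit 0, nat_lit 0, nat_lit 5000000, false, false⟩,
 nat_lit 0, nat_lit 5279, nat_lit 0, nat_lit 17138, nat_lit 2262, nat_lit 0, nat_lit 0, nat_lit 0, nat_lit 0, nat_lit 0, nat_lit 0, nat_lit 0, nat_lit 0, nat_lit 0, nat_lit 0, nat_lit 1000000, nat_lit 0, nat_lit 0, [(nat_lit 0, [(nat_lit 2, nat_lit 1000)]), (nat_lit 3, [(nat_lit 2, nat_lit 1000)])],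
 ⟨p025_k27, nat_lit 0, nat_lit 0, nat_lit 293, nat_lit 0, nat_lit 52519, [nat_lit 3292500000, nat_lit 3405100000], [], [nat_lit 37435165496, nat_lit 34928399000, nat_lit 30127135304, nat_lit 31214245992, nat_lit 27967226032, nat_lit 29199376208, nat_lit 32421915032, nat_lit 31977606320], nat_lit 1271250, nat_lit 1271250, nat_lit 0, nat_lit 1695000, nat_lit 0, nat_lit 1100001, [nat_lit 1412500, nat_lit 1271250], [nat_lit 26, nat_lit 40, nat_lit 20, nat_lit 80, nat_lit 2, nat_lit 401, nat_lit 175, nat_lit 14]⟩, C1.Rw.none,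
 ⟨nat_lit 6324, nat_lit 7072, ⟨.ofNat (nat_lit 5716), .ofNat (nat_lit 547066), .ofNat (nat_lit 48812), .ofNat (nat_lit 590110), .ofNat (nat_lit 45940), .ofNat (nat_lit 539454), .ofNat (nat_lit 88675), .ofNat (nat_lit 582138)⟩, ⟨.negSucc (nat_lit 145122), .ofNat (nat_lit 215827), .negSucc (nat_lit 123573), .ofNat (nat_lit 237375), .negSucc (nat_lit 103636), .ofNat (nat_lit 225422), .negSucc (nat_lit 82267), .ofNat (nat_lit 246790)⟩⟩, []⟩
noncomputable def p025_l209 : Lf2 := ⟨nat_lit 0, nat_lit 1, [nat_lit 19, nat_lit 5, nat_lit 5, nat_lit 20], true, nat_lit 160, nat_lit 320, nat_lit 0, nat_lit 352, ⟨nat_lit 0, nat_lit 1000, nat_lit 0, nat_lit 4, nat_lit 122, nat_lit 1000, nat_lit 162, nat_lit 0, nat_lit 0, nat_lit 0, nat_lit 0, nat_lit 0, nat_lit 0, nat_lit 0, nat_lit 0, nat_lit 5000000, false, false⟩,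
 nat_lit 0, nat_lit 9687, nat_lit 0, nat_lit 14739, nat_lit 4151, nat_lit 0, nat_lit 0, nat_lit 0, nat_lit 0, nat_lit 0, nat_lit 0, nat_lit 0, nat_lit 0, nat_lit 0, nat_lit 0, nat_lit 1000000, nat_lit 0, nat_lit 0, [(nat_lit 0, [(nat_lit 2, nat_lit 1000)]), (nat_lit 3, [(nat_lit 2, nat_lit 1000)])],
 ⟨p025_k27, nat_lit 0, nat_lit 0, nat_lit 213, nat_lit 0, nat_lit 52519, [nat_lit 3292500000, nat_lit 3405100000], [], [nat_lit 28520888964, nat_lit 24968363784, nat_lit 36110584632, nat_lit 32144818856, nat_lit 29110796988, nat_lit 30046350600, nat_lit 29197112528, nat_lit 29869036640], nat_lit 1271250, nat_lit 1271250, nat_lit 0, nat_lit 1695000, nat_lit 1271250, nat_lit 1271250, [nat_lit 1412500, nat_lit 1271250], [nat_lit 26, nat_lit 40, nat_lit 20, nat_lit 80, nat_lit 2, nat_lit 428, nat_lit 200, nat_lit 14]⟩, C1.Rw.none,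
 ⟨nat_lit 6324, nat_lit 7072, ⟨.ofNat (nat_lit 5716), .ofNat (nat_lit 547066), .ofNat (nat_lit 48812), .ofNat (nat_lit 590110), .ofNat (nat_lit 45940), .ofNat (nat_lit 539454), .ofNat (nat_lit 88675), .ofNat (nat_lit 582138)⟩, ⟨.ofNat (nat_lit 215827), .ofNat (nat_lit 576633), .ofNat (nat_lit 237375), .ofNat (nat_lit 598155), .ofNat (nat_lit 225422), .ofNat (nat_lit 554338), .ofNat (nat_lit 246790), .ofNat (nat_lit 575680)⟩⟩, []⟩
noncomputable def p025_l210 : Lf2 := ⟨nat_lit 0, nat_lit 1, [nat_lit 19, nat_lit 5, nat_lit 5, nat_lit 20], true, nat_lit 0, nat_lit 320, nat_lit 0, nat_lit 352, ⟨nat_lit 0, nat_lit 1000, nat_lit 0, nat_lit 6, nat_lit 295, nat_lit 1000, nat_lit 115, nat_lit 0, nat_lit 0, nat_lit 0, nat_lit 0, nat_lit 0, nat_lit 0, nat_lit 0, nat_lit 0, nat_lit 5000000, false, true⟩,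
 nat_lit 0, nat_lit 11781, nat_lit 0, nat_lit 0, nat_lit 5048, nat_lit 0, nat_lit 0, nat_lit 0, nat_lit 0, nat_lit 0, nat_lit 0, nat_lit 0, nat_lit 0, nat_lit 0, nat_lit 0, nat_lit 1000000, nat_lit 0, nat_lit 0, [(nat_lit 0, [(nat_lit 2, nat_lit 1000)]), (nat_lit 3, [(nat_lit 2, nat_lit 1000)])],
 ⟨p025_k27, nat_lit 0, nat_lit 0, nat_lit 207, nat_lit 0, nat_lit 52519, [nat_lit 3292500000, nat_lit 3405100000], [], [nat_lit 21136756608, nat_lit 22717444448, nat_lit 30882571296, nat_lit 31703104000, nat_lit 31564157408, nat_lit 26992607840, nat_lit 30881518752, nat_lit 31393682304], nat_lit 1271250, nat_lit 1271250, nat_lit 1271250, nat_lit 1271250, nat_lit 0, nat_lit 2260000, [nat_lit 1412500, nat_lit 1271250], [nat_lit 26, nat_lit 40, nat_lit 20, nat_lit 80, nat_lit 2, nat_lit 373, nat_lit 150, nat_lit 12]⟩, C1.Rw.none,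
 ⟨nat_lit 6324, nat_lit 7072, ⟨.ofNat (nat_lit 547066), .ofNat (nat_lit 907507), .ofNat (nat_lit 590110), .ofNat (nat_lit 950552), .ofNat (nat_lit 539454), .ofNat (nat_lit 868005), .ofNat (nat_lit 582138), .ofNat (nat_lit 910689)⟩, ⟨.negSucc (nat_lit 145122), .ofNat (nat_lit 576633), .negSucc (nat_lit 123573), .ofNat (nat_lit 598155), .negSucc (nat_lit 103636), .ofNat (nat_lit 554338), .negSucc (nat_lit 82267), .ofNat (nat_lit 575680)⟩⟩, [⟨nat_lit 13, nat_lit 100, nat_lit 20, nat_lit 100, nat_lit 55574746⟩, ⟨nat_lit 4, nat_lit 90, nat_lit 100, nat_lit 53, nat_lit 87058008⟩]⟩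
noncomputable def b_VL_500_400_5_1 : St := ⟨true, nat_lit 1, nat_lit 2, nat_lit 0, nat_lit 40, nat_lit 200, nat_lit 240, nat_lit 160, nat_lit 200, nat_lit 0, nat_lit 400, nat_lit 20, nat_lit 40, nat_lit 0, nat_lit 320, nat_lit 0, nat_lit 352, nat_lit 0, nat_lit 4, nat_lit 0, nat_lit 0, nat_lit 0, nat_lit 0⟩
theorem d_VL_500_400_5_1 (h : EB TB.env) : Dead b_VL_500_400_5_1 := chkB_sound0 h (T :=
(.gv
(.st (nat_lit 1)
(.spl (nat_lit 0) (nat_lit 220)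
(.leaf p025_l178)
(.trX (nat_lit 16) (nat_lit 100) (nat_lit 86) (nat_lit 60) (nat_lit 304) (.spl (nat_lit 0) (nat_lit 230)
(.leaf p025_l179)
(.trX (nat_lit 16) (nat_lit 100) (nat_lit 89) (nat_lit 61) (nat_lit 296) (.spl (nat_lit 0) (nat_lit 235)
(.leaf p025_l180)
(.trX (nat_lit 16) (nat_lit 100) (nat_lit 91) (nat_lit 61) (nat_lit 292) (.spl (nat_lit 1) (nat_lit 180)
(.trX (nat_lit 13) (nat_lit 99) (nat_lit 27) (nat_lit 100) (nat_lit 396) (.leaf p025_l181))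
(.trX (nat_lit 19) (nat_lit 100) (nat_lit 74) (nat_lit 60) (nat_lit 336) (.spl (nat_lit 1) (nat_lit 190)
(.trX (nat_lit 13) (nat_lit 99) (nat_lit 22) (nat_lit 100) (nat_lit 396) (.leaf p025_l182))
(.trX (nat_lit 19) (nat_lit 100) (nat_lit 77) (nat_lit 60) (nat_lit 328) (.spl (nat_lit 2) (nat_lit 240)
(.spl (nat_lit 2) (nat_lit 160)
(.spl (nat_lit 4) (nat_lit 160)
(.leaf p025_l183)
(.spl (nat_lit 4) (nat_lit 240)
(.leaf p025_l184)
(.leaf p025_l185)))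
(.spl (nat_lit 2) (nat_lit 200)
(.leaf p025_l186)
(.leaf p025_l187)))
(.leaf p025_l188))))))))))))
(.spl (nat_lit 0) (nat_lit 220)
(.leaf p025_l189)
(.trX (nat_lit 16) (nat_lit 100) (nat_lit 86) (nat_lit 60) (nat_lit 304) (.spl (nat_lit 0) (nat_lit 230)
(.leaf p025_l190)
(.trX (nat_lit 16) (nat_lit 100) (nat_lit 89) (nat_lit 61) (nat_lit 296) (.spl (nat_lit 0) (nat_lit 235)
(.leaf p025_l191)
(.trX (nat_lit 16) (nat_lit 100) (nat_lit 91) (nat_lit 61) (nat_lit 292) (.spl (nat_lit 1) (nat_lit 180)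
(.trX (nat_lit 13) (nat_lit 99) (nat_lit 27) (nat_lit 100) (nat_lit 396) (.leaf p025_l192))
(.trX (nat_lit 19) (nat_lit 100) (nat_lit 74) (nat_lit 60) (nat_lit 336) (.spl (nat_lit 1) (nat_lit 190)
(.trX (nat_lit 13) (nat_lit 99) (nat_lit 22) (nat_lit 100) (nat_lit 396) (.leaf p025_l193))
(.trX (nat_lit 19) (nat_lit 100) (nat_lit 77) (nat_lit 60) (nat_lit 328) (.spl (nat_lit 2) (nat_lit 240)
(.spl (nat_lit 4) (nat_lit 160)
(.spl (nat_lit 2) (nat_lit 160)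
(.leaf p025_l194)
(.leaf p025_l195))
(.spl (nat_lit 2) (nat_lit 120)
(.spl (nat_lit 4) (nat_lit 240)
(.leaf p025_l196)
(.leaf p025_l197))
(.spl (nat_lit 4) (nat_lit 240)
(.spl (nat_lit 2) (nat_lit 160)
(.leaf p025_l198)
(.spl (nat_lit 2) (nat_lit 200)
(.spl (nat_lit 2) (nat_lit 180)
(.leaf p025_l199)
(.leaf p025_l200))
(.leaf p025_l201)))
(.leaf p025_l202))))
(.spl (nat_lit 2) (nat_lit 320)
(.leaf p025_l203)
(.leaf p025_l204))))))))))))))
(.st (nat_lit 1)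
(.spl (nat_lit 2) (nat_lit 240)
(.spl (nat_lit 4) (nat_lit 160)
(.leaf p025_l205)
(.leaf p025_l206))
(.leaf p025_l207))
(.spl (nat_lit 2) (nat_lit 240)
(.spl (nat_lit 4) (nat_lit 160)
(.leaf p025_l208)
(.leaf p025_l209))
(.leaf p025_l210))))) (by decide +kernel)

end B2
end Pool.Agent.Lib.MP_6947cd_al
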