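import Pool.Agent.Lib.MP_6947cd_al.ZB.P017
import Pool.Agent.Lib.MP_6947cd_al.ZB.P018
import Pool.Agent.Lib.MP_6947cd_al.ZB.P019
import Pool.Agent.Lib.MP_6947cd_al.ZB.P020
import Pool.Agent.Lib.MP_6947cd_al.ZB.P021
import Pool.Agent.Lib.MP_6947cd_al.ZB.P022
import Pool.Agent.Lib.MP_6947cd_al.ZB.P023
import Pool.Agent.Lib.MP_6947cd_al.ZB.P024
import Pool.Agent.Lib.MP_6947cd_al.ZB.P025

/-!
Problem MP_6947cd_al (Chollet).  Case B, second entry in [2/5, 17/20]: certificates of the tree, part T03 (generated).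
-/

set_option autoImplicit false
set_option linter.all false

namespace Pool.Agent.Lib.MP_6947cd_al
namespace B2

open Ent Fr B1 PkA

noncomputable def t03_k0 : C1.Kn := ⟨[nat_lit 40, nat_lit 60], [nat_lit 0, nat_lit 0], [(nat_lit 0, nat_lit 0, nat_lit 0), (nat_lit 0, nat_lit 0, nat_lit 0)], (nat_lit 89, nat_lit 100, nat_lit 22)⟩
noncomputable def t03_k1 : C1.Kn := ⟨[nat_lit 60, nat_lit 80], [nat_lit 0, nat_lit 304], [(nat_lit 0, nat_lit 0, nat_lit 0), (nat_lit 1000, nat_lit 905, nat_lit 238)], (nat_lit 91, nat_lit 100, nat_lit 21)⟩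
noncomputable def t03_k2 : C1.Kn := ⟨[nat_lit 40, nat_lit 80], [nat_lit 0, nat_lit 0], [(nat_lit 0, nat_lit 0, nat_lit 0), (nat_lit 0, nat_lit 0, nat_lit 0)], (nat_lit 85, nat_lit 100, nat_lit 30)⟩
noncomputable def t03_k3 : C1.Kn := ⟨[nat_lit 60, nat_lit 80], [nat_lit 0, nat_lit 456], [(nat_lit 0, nat_lit 0, nat_lit 0), (nat_lit 1000, nat_lit 859, nat_lit 351)], (nat_lit 87, nat_lit 100, nat_lit 29)⟩
noncomputable def t03_k4 : C1.Kn := ⟨[nat_lit 40, nat_lit 80], [nat_lit 0, nat_lit 79], [(nat_lit 0, nat_lit 0, nat_lit 0), (nat_lit 1000, nat_lit 981, nat_lit 31)], (nat_lit 85, nat_lit 100, nat_lit 30)⟩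
noncomputable def t03_k5 : C1.Kn := ⟨[nat_lit 40, nat_lit 80], [nat_lit 0, nat_lit 112], [(nat_lit 0, nat_lit 0, nat_lit 0), (nat_lit 1000, nat_lit 974, nat_lit 44)], (nat_lit 85, nat_lit 100, nat_lit 30)⟩
noncomputable def t03_k6 : C1.Kn := ⟨[nat_lit 60, nat_lit 80], [nat_lit 0, nat_lit 304], [(nat_lit 0, nat_lit 0, nat_lit 0), (nat_lit 1000, nat_lit 905, nat_lit 238)], (nat_lit 89, nat_lit 100, nat_lit 29)⟩
noncomputable def t03_k7 : C1.Kn := ⟨[nat_lit 40, nat_lit 80], [nat_lit 0, nat_lit 0], [(nat_lit 0, nat_lit 0, nat_lit 0), (nat_lit 0, nat_lit 0, nat_lit 0)], (nat_lit 82, nat_lit 100, nat_lit 40)⟩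
noncomputable def t03_k8 : C1.Kn := ⟨[nat_lit 60, nat_lit 100], [nat_lit 0, nat_lit 909], [(nat_lit 0, nat_lit 0, nat_lit 0), (nat_lit 1000, nat_lit 858, nat_lit 354)], (nat_lit 85, nat_lit 100, nat_lit 40)⟩
noncomputable def t03_k9 : C1.Kn := ⟨[nat_lit 40, nat_lit 80], [nat_lit 0, nat_lit 0], [(nat_lit 0, nat_lit 0, nat_lit 0), (nat_lit 0, nat_lit 0, nat_lit 0)], (nat_lit 84, nat_lit 100, nat_lit 36)⟩
noncomputable def t03_k10 : C1.Kn := ⟨[nat_lit 60, nat_lit 80], [nat_lit 0, nat_lit 456], [(nat_lit 0, nat_lit 0, nat_lit 0), (nat_lit 1000, nat_lit 859, nat_lit 351)], (nat_lit 86, nat_lit 100, nat_lit 35)⟩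
noncomputable def t03_k11 : C1.Kn := ⟨[nat_lit 60, nat_lit 80], [nat_lit 0, nat_lit 533], [(nat_lit 0, nat_lit 0, nat_lit 0), (nat_lit 1000, nat_lit 837, nat_lit 397)], (nat_lit 85, nat_lit 100, nat_lit 35)⟩
noncomputable def t03_k12 : C1.Kn := ⟨[nat_lit 40, nat_lit 80], [nat_lit 0, nat_lit 79], [(nat_lit 0, nat_lit 0, nat_lit 0), (nat_lit 1000, nat_lit 981, nat_lit 31)], (nat_lit 82, nat_lit 100, nat_lit 40)⟩
noncomputable def t03_k13 : C1.Kn := ⟨[nat_lit 40, nat_lit 80], [nat_lit 0, nat_lit 112], [(nat_lit 0, nat_lit 0, nat_lit 0), (nat_lit 1000, nat_lit 974, nat_lit 44)], (nat_lit 82, nat_lit 100, nat_lit 41)⟩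
noncomputable def t03_k14 : C1.Kn := ⟨[nat_lit 40, nat_lit 80], [nat_lit 0, nat_lit 112], [(nat_lit 0, nat_lit 0, nat_lit 0), (nat_lit 1000, nat_lit 974, nat_lit 44)], (nat_lit 81, nat_lit 100, nat_lit 45)⟩
noncomputable def t03_k15 : C1.Kn := ⟨[nat_lit 60, nat_lit 100], [nat_lit 0, nat_lit 909], [(nat_lit 0, nat_lit 0, nat_lit 0), (nat_lit 1000, nat_lit 858, nat_lit 354)], (nat_lit 84, nat_lit 100, nat_lit 44)⟩
noncomputable def t03_k16 : C1.Kn := ⟨[nat_lit 40, nat_lit 80], [nat_lit 0, nat_lit 192], [(nat_lit 0, nat_lit 0, nat_lit 0), (nat_lit 1000, nat_lit 955, nat_lit 75)], (nat_lit 80, nat_lit 100, nat_lit 45)⟩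
noncomputable def t03_k17 : C1.Kn := ⟨[nat_lit 60, nat_lit 100], [nat_lit 0, nat_lit 609], [(nat_lit 0, nat_lit 0, nat_lit 0), (nat_lit 1000, nat_lit 905, nat_lit 238)], (nat_lit 87, nat_lit 100, nat_lit 44)⟩
noncomputable def t03_k18 : C1.Kn := ⟨[nat_lit 40, nat_lit 80], [nat_lit 0, nat_lit 395], [(nat_lit 0, nat_lit 0, nat_lit 0), (nat_lit 1000, nat_lit 908, nat_lit 154)], (nat_lit 79, nat_lit 100, nat_lit 45)⟩
noncomputable def t03_k19 : C1.Kn := ⟨[nat_lit 40, nat_lit 80, nat_lit 100], [nat_lit 0, nat_lit 0, nat_lit 1280], [(nat_lit 0, nat_lit 0, nat_lit 0), (nat_lit 0, nat_lit 0, nat_lit 0), (nat_lit 1000, nat_lit 800, nat_lit 600)], (nat_lit 80, nat_lit 100, nat_lit 60)⟩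
noncomputable def t03_k20 : C1.Kn := ⟨[nat_lit 60, nat_lit 100, nat_lit 120], [nat_lit 0, nat_lit 909, nat_lit 1866], [(nat_lit 0, nat_lit 0, nat_lit 0), (nat_lit 1000, nat_lit 858, nat_lit 354), (nat_lit 1000, nat_lit 849, nat_lit 705)], (nat_lit 84, nat_lit 100, nat_lit 60)⟩
noncomputable def t03_k21 : C1.Kn := ⟨[nat_lit 60, nat_lit 100, nat_lit 120], [nat_lit 0, nat_lit 1063, nat_lit 2005], [(nat_lit 0, nat_lit 0, nat_lit 0), (nat_lit 1000, nat_lit 834, nat_lit 414), (nat_lit 1000, nat_lit 833, nat_lit 732)], (nat_lit 82, nat_lit 100, nat_lit 60)⟩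
noncomputable def t03_k22 : C1.Kn := ⟨[nat_lit 60, nat_lit 100, nat_lit 120], [nat_lit 0, nat_lit 1157, nat_lit 2088], [(nat_lit 0, nat_lit 0, nat_lit 0), (nat_lit 1000, nat_lit 819, nat_lit 452), (nat_lit 1000, nat_lit 818, nat_lit 722)], (nat_lit 81, nat_lit 100, nat_lit 60)⟩
noncomputable def t03_k23 : C1.Kn := ⟨[nat_lit 40, nat_lit 80, nat_lit 100], [nat_lit 0, nat_lit 79, nat_lit 1328], [(nat_lit 0, nat_lit 0, nat_lit 0), (nat_lit 1000, nat_lit 981, nat_lit 31), (nat_lit 1000, nat_lit 792, nat_lit 599)], (nat_lit 79, nat_lit 100, nat_lit 60)⟩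
noncomputable def t03_k24 : C1.Kn := ⟨[nat_lit 40, nat_lit 80, nat_lit 100], [nat_lit 0, nat_lit 112, nat_lit 1353], [(nat_lit 0, nat_lit 0, nat_lit 0), (nat_lit 1000, nat_lit 974, nat_lit 44), (nat_lit 1000, nat_lit 789, nat_lit 608)], (nat_lit 79, nat_lit 100, nat_lit 60)⟩
noncomputable def t03_k25 : C1.Kn := ⟨[nat_lit 40, nat_lit 80, nat_lit 100], [nat_lit 0, nat_lit 192, nat_lit 1404], [(nat_lit 0, nat_lit 0, nat_lit 0), (nat_lit 1000, nat_lit 955, nat_lit 75), (nat_lit 1000, nat_lit 781, nat_lit 625)], (nat_lit 78, nat_lit 100, nat_lit 60)⟩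
noncomputable def t03_k26 : C1.Kn := ⟨[nat_lit 40, nat_lit 80, nat_lit 100], [nat_lit 0, nat_lit 395, nat_lit 1536], [(nat_lit 0, nat_lit 0, nat_lit 0), (nat_lit 1000, nat_lit 908, nat_lit 154), (nat_lit 1000, nat_lit 760, nat_lit 642)], (nat_lit 76, nat_lit 100, nat_lit 60)⟩
noncomputable def t03_k27 : C1.Kn := ⟨[nat_lit 60, nat_lit 100, nat_lit 140], [nat_lit 0, nat_lit 0, nat_lit 2047], [(nat_lit 0, nat_lit 0, nat_lit 0), (nat_lit 0, nat_lit 0, nat_lit 0), (nat_lit 1000, nat_lit 993, nat_lit 781)], (nat_lit 94, nat_lit 100, nat_lit 62)⟩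
noncomputable def t03_k28 : C1.Kn := ⟨[nat_lit 40, nat_lit 80, nat_lit 100], [nat_lit 0, nat_lit 795, nat_lit 1829], [(nat_lit 0, nat_lit 0, nat_lit 0), (nat_lit 1000, nat_lit 814, nat_lit 310), (nat_lit 1000, nat_lit 714, nat_lit 692)], (nat_lit 72, nat_lit 100, nat_lit 61)⟩
noncomputable def t03_k29 : C1.Kn := ⟨[nat_lit 40, nat_lit 100], [nat_lit 0, nat_lit 0], [(nat_lit 0, nat_lit 0, nat_lit 0), (nat_lit 0, nat_lit 0, nat_lit 0)], (nat_lit 80, nat_lit 100, nat_lit 60)⟩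
noncomputable def t03_k30 : C1.Kn := ⟨[nat_lit 60, nat_lit 100, nat_lit 120], [nat_lit 0, nat_lit 609, nat_lit 1609], [(nat_lit 0, nat_lit 0, nat_lit 0), (nat_lit 1000, nat_lit 905, nat_lit 238), (nat_lit 1000, nat_lit 882, nat_lit 668)], (nat_lit 87, nat_lit 100, nat_lit 60)⟩
noncomputable def t03_k31 : C1.Kn := ⟨[nat_lit 40, nat_lit 80, nat_lit 100], [nat_lit 0, nat_lit 158, nat_lit 1378], [(nat_lit 0, nat_lit 0, nat_lit 0), (nat_lit 1000, nat_lit 963, nat_lit 62), (nat_lit 1000, nat_lit 785, nat_lit 610)], (nat_lit 78, nat_lit 100, nat_lit 60)⟩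
noncomputable def t03_k32 : C1.Kn := ⟨[nat_lit 40, nat_lit 80, nat_lit 100], [nat_lit 0, nat_lit 593, nat_lit 1677], [(nat_lit 0, nat_lit 0, nat_lit 0), (nat_lit 1000, nat_lit 861, nat_lit 231), (nat_lit 1000, nat_lit 738, nat_lit 662)], (nat_lit 74, nat_lit 100, nat_lit 60)⟩
noncomputable def t03_k33 : C1.Kn := ⟨[nat_lit 40, nat_lit 80, nat_lit 100], [nat_lit 0, nat_lit 0, nat_lit 1280], [(nat_lit 0, nat_lit 0, nat_lit 0), (nat_lit 0, nat_lit 0, nat_lit 0), (nat_lit 1000, nat_lit 800, nat_lit 600)], (nat_lit 82, nat_lit 100, nat_lit 44)⟩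
theorem t_N_800_400_0 (h : EB TB.env) : RC.Tail ⟨false, 40, 320, 360, 160, 200, 0, 0, [128]⟩ := RC.tail_chk h (b := ⟨nat_lit 20, nat_lit 64, nat_lit 5, nat_lit 5, nat_lit 20, nat_lit 203, nat_lit 0, nat_lit 30, nat_lit 0⟩) (by decide +kernel)
theorem r_N_800_400_0 (h : EB TB.env) : Dead (RC.box ⟨false, 40, 320, 360, 160, 200, 0, 0, [128]⟩ 0 128) := chkB_sound h (refs := [b_N_800_400_0_0, b_N_800_400_0_1, b_N_800_400_0_2]) (refs_cons (d_N_800_400_0_0 h) (refs_cons (d_N_800_400_0_1 h) (refs_cons (d_N_800_400_0_2 h) (refs_nil)))) (T :=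
(.trZ (nat_lit 0) (nat_lit 100) (nat_lit 82) (nat_lit 44) (nat_lit 16) (.trX (nat_lit 13) (nat_lit 80) (nat_lit 60) (nat_lit 100) (nat_lit 360) (.spl (nat_lit 6) (nat_lit 40)
(.ref (nat_lit 0))
(.spl (nat_lit 6) (nat_lit 80)
(.ref (nat_lit 1))
(.ref (nat_lit 2))))))) (by decide +kernel)
theorem done_N_800_400_0 (h : EB TB.env) : RC.Done ⟨false, 40, 320, 360, 160, 200, 0, 0, [128]⟩ := RC.done1 (r_N_800_400_0 h) (t_N_800_400_0 h)
theorem t_N_800_500_0 (h : EB TB.env) : RC.Tail ⟨false, 40, 320, 360, 200, 240, 0, 0, [136]⟩ := RC.tail_chk h (b := ⟨nat_lit 20, nat_lit 68, nat_lit 5, nat_lit 5, nat_lit 20, nat_lit 203, nat_lit 0, nat_lit 29, nat_lit 0⟩) (by decide +kernel)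
theorem r_N_800_500_0 (h : EB TB.env) : Dead (RC.box ⟨false, 40, 320, 360, 200, 240, 0, 0, [136]⟩ 0 136) := chkB_sound h (refs := [b_N_800_500_0_0, b_N_800_500_0_1, b_N_800_500_0_2]) (refs_cons (d_N_800_500_0_0 h) (refs_cons (d_N_800_500_0_1 h) (refs_cons (d_N_800_500_0_2 h) (refs_nil)))) (T :=
(.trZ (nat_lit 0) (nat_lit 100) (nat_lit 80) (nat_lit 60) (nat_lit 40) (.trX (nat_lit 13) (nat_lit 82) (nat_lit 44) (nat_lit 100) (nat_lit 384) (.spl (nat_lit 6) (nat_lit 40)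
(.ref (nat_lit 0))
(.spl (nat_lit 6) (nat_lit 80)
(.ref (nat_lit 1))
(.ref (nat_lit 2))))))) (by decide +kernel)
theorem done_N_800_500_0 (h : EB TB.env) : RC.Done ⟨false, 40, 320, 360, 200, 240, 0, 0, [136]⟩ := RC.done1 (r_N_800_500_0 h) (t_N_800_500_0 h)
theorem t_N_800_600_0 (h : EB TB.env) : RC.Tail ⟨false, 40, 320, 360, 240, 280, 0, 0, [148]⟩ := RC.tail_chk h (b := ⟨nat_lit 20, nat_lit 74, nat_lit 5, nat_lit 5, nat_lit 20, nat_lit 203, nat_lit 0, nat_lit 28, nat_lit 0⟩) (by decide +kernel)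
theorem r_N_800_600_0 (h : EB TB.env) : Dead (RC.box ⟨false, 40, 320, 360, 240, 280, 0, 0, [148]⟩ 0 148) := chkB_sound h (refs := [b_N_800_600_0_0, b_N_800_600_0_1, b_N_800_600_0_2, b_N_800_600_0_3, b_N_800_600_0_4, b_N_800_600_0_5, b_N_800_600_0_6]) (refs_cons (d_N_800_600_0_0 h) (refs_cons (d_N_800_600_0_1 h) (refs_cons (d_N_800_600_0_2 h) (refs_cons (d_N_800_600_0_3 h) (refs_cons (d_N_800_600_0_4 h) (refs_cons (d_N_800_600_0_5 h) (refs_cons (d_N_800_600_0_6 h) (refs_nil)))))))) (T :=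
(.trZ (nat_lit 0) (nat_lit 100) (nat_lit 82) (nat_lit 76) (nat_lit 64) (.trX (nat_lit 13) (nat_lit 87) (nat_lit 25) (nat_lit 100) (nat_lit 396) (.spl (nat_lit 6) (nat_lit 40)
(.st (nat_lit 0)
(.ref (nat_lit 0))
(.ref (nat_lit 1)))
(.spl (nat_lit 6) (nat_lit 80)
(.st (nat_lit 0)
(.ref (nat_lit 2))
(.ref (nat_lit 3)))
(.spl (nat_lit 6) (nat_lit 120)
(.st (nat_lit 0)
(.ref (nat_lit 4))
(.ref (nat_lit 5)))
(.ref (nat_lit 6)))))))) (by decide +kernel)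
theorem done_N_800_600_0 (h : EB TB.env) : RC.Done ⟨false, 40, 320, 360, 240, 280, 0, 0, [148]⟩ := RC.done1 (r_N_800_600_0 h) (t_N_800_600_0 h)
theorem t_N_800_700_0 (h : EB TB.env) : RC.Tail ⟨false, 40, 320, 360, 280, 320, 0, 0, [168]⟩ := RC.tail_chk h (b := ⟨nat_lit 20, nat_lit 84, nat_lit 5, nat_lit 5, nat_lit 20, nat_lit 203, nat_lit 0, nat_lit 27, nat_lit 0⟩) (by decide +kernel)
noncomputable def t03_l0 : Lf2 := ⟨nat_lit 0, nat_lit 1, [nat_lit 19, nat_lit 5, nat_lit 5, nat_lit 20], false, nat_lit 0, nat_lit 0, nat_lit 0, nat_lit 0, ⟨nat_lit 1000, nat_lit 0, nat_lit 0, nat_lit 0, nat_lit 0, nat_lit 0, nat_lit 0, nat_lit 0, nat_lit 0, nat_lit 0, nat_lit 0, nat_lit 0, nat_lit 0, nat_lit 0, nat_lit 0, nat_lit 0, false, false⟩,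
 nat_lit 0, nat_lit 9458, nat_lit 0, nat_lit 0, nat_lit 7093, nat_lit 4993, nat_lit 0, nat_lit 0, nat_lit 0, nat_lit 2272, nat_lit 0, nat_lit 0, nat_lit 0, nat_lit 0, nat_lit 0, nat_lit 0, nat_lit 0, nat_lit 0, [],
 ⟨t03_k0, nat_lit 0, nat_lit 0, nat_lit 615, nat_lit 0, nat_lit 1562382, [nat_lit 2032000001, nat_lit 3282000000], [], [nat_lit 23060160421, nat_lit 23268695272, nat_lit 23019959125, nat_lit 23216477845], nat_lit 1271250, nat_lit 1271250, nat_lit 780000, nat_lit 1100001, nat_lit 0, nat_lit 0, [nat_lit 490000, nat_lit 780000], [nat_lit 112, nat_lit 40, nat_lit 80, nat_lit 80, nat_lit 113, nat_lit 215, nat_lit 0, nat_lit 12]⟩, ⟨t03_k1, nat_lit 0, nat_lit 0, nat_lit 0, nat_lit 0, nat_lit 0, [nat_lit 3282000000, nat_lit 4688000000], [], [nat_lit 17238579778, nat_lit 19374258768, nat_lit 17781195454, nat_lit 19477085848], nat_lit 0, nat_lit 0, nat_lit 0, nat_lit 0, nat_lit 0,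 nat_lit 0, [], [nat_lit 40, nat_lit 40, nat_lit 80, nat_lit 80]⟩,
 zbF0, [⟨nat_lit 0, nat_lit 83, nat_lit 81, nat_lit 100, nat_lit 749032266⟩]⟩
noncomputable def t03_l1 : Lf2 := ⟨nat_lit 0, nat_lit 2, [nat_lit 10, nat_lit 5, nat_lit 5, nat_lit 20], false, nat_lit 0, nat_lit 0, nat_lit 0, nat_lit 0, ⟨nat_lit 1000, nat_lit 0, nat_lit 0, nat_lit 0, nat_lit 0, nat_lit 0, nat_lit 0, nat_lit 0, nat_lit 0, nat_lit 0, nat_lit 0, nat_lit 0, nat_lit 0, nat_lit 0, nat_lit 0, nat_lit 0, false, false⟩,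
 nat_lit 0, nat_lit 0, nat_lit 0, nat_lit 0, nat_lit 0, nat_lit 0, nat_lit 0, nat_lit 0, nat_lit 494, nat_lit 17103, nat_lit 0, nat_lit 0, nat_lit 0, nat_lit 0, nat_lit 0, nat_lit 0, nat_lit 0, nat_lit 0, [],
 ⟨t03_k2, nat_lit 0, nat_lit 0, nat_lit 0, nat_lit 0, nat_lit 1486073, [nat_lit 2032000001, nat_lit 4688000000], [], [nat_lit 12447774600, nat_lit 12520708140, nat_lit 13106028000, nat_lit 13182394800], nat_lit 1271250, nat_lit 1271250, nat_lit 872850, nat_lit 1100001, nat_lit 0, nat_lit 0, [nat_lit 490000, nat_lit 1100000], [nat_lit 24, nat_lit 40, nat_lit 80, nat_lit 80]⟩, ⟨t03_k3, nat_lit 0, nat_lit 0, nat_lit 0, nat_lit 0, nat_lit 0, [nat_lit 3282000000, nat_lit 4688000000], [], [nat_lit 23041225750, nat_lit 23424877600, nat_lit 23737353000, nat_lit 24111908000], nat_lit 0, nat_lit 0, nat_lit 0, nat_lit 0, nat_lit 0, nat_lit 0, [], [nat_lit 40, nat_lit 40, nat_lit 80, nat_lit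 80]⟩,
 zbF0, []⟩
noncomputable def t03_l2 : Lf2 := ⟨nat_lit 0, nat_lit 2, [nat_lit 10, nat_lit 5, nat_lit 5, nat_lit 20], false, nat_lit 0, nat_lit 0, nat_lit 0, nat_lit 0, ⟨nat_lit 1000, nat_lit 0, nat_lit 0, nat_lit 0, nat_lit 0, nat_lit 0, nat_lit 0, nat_lit 0, nat_lit 0, nat_lit 0, nat_lit 0, nat_lit 0, nat_lit 0, nat_lit 0, nat_lit 0, nat_lit 0, false, false⟩,
 nat_lit 0, nat_lit 0, nat_lit 0, nat_lit 0, nat_lit 0, nat_lit 4886, nat_lit 0, nat_lit 0, nat_lit 548, nat_lit 0, nat_lit 0, nat_lit 0, nat_lit 0, nat_lit 0, nat_lit 0, nat_lit 0, nat_lit 0, nat_lit 0, [],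
 ⟨t03_k2, nat_lit 0, nat_lit 0, nat_lit 0, nat_lit 0, nat_lit 1486073, [nat_lit 2032000001, nat_lit 4688000000], [], [nat_lit 8744789401, nat_lit 8807670781, nat_lit 9350652001, nat_lit 9412909403], nat_lit 1271250, nat_lit 1271250, nat_lit 872850, nat_lit 1100001, nat_lit 0, nat_lit 0, [nat_lit 490000, nat_lit 1100000], [nat_lit 24, nat_lit 40, nat_lit 80, nat_lit 80]⟩, ⟨t03_k3, nat_lit 0, nat_lit 0, nat_lit 0, nat_lit 0, nat_lit 0, [nat_lit 3282000000, nat_lit 4688000000], [], [nat_lit 20552370882, nat_lit 21426008863, nat_lit 20902546778, nat_lit 21739888448], nat_lit 0, nat_lit 0, nat_lit 0, nat_lit 0, nat_lit 0, nat_lit 0, [], [nat_lit 40, nat_lit 40, nat_lit 80, nat_lit 80]⟩,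
 zbF0, []⟩
noncomputable def t03_l3 : Lf2 := ⟨nat_lit 0, nat_lit 2, [nat_lit 10, nat_lit 5, nat_lit 5, nat_lit 20], false, nat_lit 0, nat_lit 0, nat_lit 0, nat_lit 0, ⟨nat_lit 1000, nat_lit 0, nat_lit 0, nat_lit 0, nat_lit 0, nat_lit 0, nat_lit 0, nat_lit 0, nat_lit 0, nat_lit 0, nat_lit 0, nat_lit 0, nat_lit 0, nat_lit 0, nat_lit 0, nat_lit 0, false, false⟩,
 nat_lit 0, nat_lit 0, nat_lit 0, nat_lit 0, nat_lit 0, nat_lit 5626, nat_lit 0, nat_lit 0, nat_lit 453, nat_lit 535, nat_lit 0, nat_lit 0, nat_lit 0, nat_lit 0, nat_lit 0, nat_lit 0, nat_lit 0, nat_lit 0, [],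
 ⟨t03_k2, nat_lit 0, nat_lit 0, nat_lit 0, nat_lit 0, nat_lit 1486073, [nat_lit 2032000001, nat_lit 4688000000], [], [nat_lit 15210958600, nat_lit 15260507630, nat_lit 15722856000, nat_lit 15771565800], nat_lit 1271250, nat_lit 1271250, nat_lit 872850, nat_lit 1100001, nat_lit 0, nat_lit 0, [nat_lit 490000, nat_lit 1100000], [nat_lit 24, nat_lit 40, nat_lit 80, nat_lit 80]⟩, ⟨t03_k3, nat_lit 0, nat_lit 0, nat_lit 0, nat_lit 0, nat_lit 0, [nat_lit 3282000000, nat_lit 4688000000], [], [nat_lit 19043455763, nat_lit 20299335202, nat_lit 19343504798, nat_lit 20289350928], nat_lit 0, nat_lit 0, nat_lit 0, nat_lit 0, nat_lit 0, nat_lit 0, [], [nat_lit 40, nat_lit 40, nat_lit 80, nat_lit 80]⟩,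
 zbF0, [⟨nat_lit 0, nat_lit 89, nat_lit 85, nat_lit 100, nat_lit 489805622⟩]⟩
noncomputable def t03_l4 : Lf2 := ⟨nat_lit 0, nat_lit 2, [nat_lit 10, nat_lit 5, nat_lit 5, nat_lit 20], false, nat_lit 0, nat_lit 0, nat_lit 0, nat_lit 0, ⟨nat_lit 1000, nat_lit 0, nat_lit 0, nat_lit 0, nat_lit 0, nat_lit 0, nat_lit 0, nat_lit 0, nat_lit 0, nat_lit 0, nat_lit 0, nat_lit 0, nat_lit 0, nat_lit 0, nat_lit 0, nat_lit 0, false, false⟩,
 nat_lit 0, nat_lit 7943, nat_lit 0, nat_lit 0, nat_lit 6003, nat_lit 4890, nat_lit 8640, nat_lit 0, nat_lit 0, nat_lit 1518, nat_lit 0, nat_lit 0, nat_lit 0, nat_lit 0, nat_lit 0, nat_lit 0, nat_lit 0, nat_lit 0, [],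
 ⟨t03_k4, nat_lit 0, nat_lit 0, nat_lit 659, nat_lit 0, nat_lit 1477133, [nat_lit 2032000001, nat_lit 4688000000], [], [nat_lit 21223186134, nat_lit 21264162092, nat_lit 21282791393, nat_lit 21322330791], nat_lit 1271250, nat_lit 1271250, nat_lit 872850, nat_lit 1100001, nat_lit 0, nat_lit 0, [nat_lit 490000, nat_lit 1100000], [nat_lit 24, nat_lit 40, nat_lit 80, nat_lit 80, nat_lit 33, nat_lit 249, nat_lit 40, nat_lit 11]⟩, ⟨t03_k3, nat_lit 0, nat_lit 0, nat_lit 0, nat_lit 0, nat_lit 0, [nat_lit 3282000000, nat_lit 4688000000], [], [nat_lit 18385185531, nat_lit 19259235576, nat_lit 18735090470, nat_lit 19572821520], nat_lit 0, nat_lit 0, nat_lit 0, nat_lit 0, nat_lit 0, nat_lit 0, [], [nat_lit 40, nat_lit 40, nat_lit 80, nat_lit 80]⟩,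
 zbF0, [⟨nat_lit 0, nat_lit 83, nat_lit 82, nat_lit 100, nat_lit 647485572⟩]⟩
noncomputable def t03_l5 : Lf2 := ⟨nat_lit 0, nat_lit 2, [nat_lit 10, nat_lit 5, nat_lit 5, nat_lit 20], false, nat_lit 0, nat_lit 0, nat_lit 0, nat_lit 0, ⟨nat_lit 1000, nat_lit 0, nat_lit 0, nat_lit 0, nat_lit 0, nat_lit 0, nat_lit 0, nat_lit 0, nat_lit 0, nat_lit 0, nat_lit 0, nat_lit 0, nat_lit 0, nat_lit 0, nat_lit 0, nat_lit 0, false, false⟩,
 nat_lit 0, nat_lit 7925, nat_lit 0, nat_lit 0, nat_lit 6013, nat_lit 6220, nat_lit 5764, nat_lit 0, nat_lit 0, nat_lit 0, nat_lit 0, nat_lit 0, nat_lit 0, nat_lit 0, nat_lit 0, nat_lit 0, nat_lit 0, nat_lit 0, [],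
 ⟨t03_k5, nat_lit 0, nat_lit 0, nat_lit 663, nat_lit 0, nat_lit 1482403, [nat_lit 2032000001, nat_lit 4688000000], [], [nat_lit 21492242683, nat_lit 21580625184, nat_lit 21604956728, nat_lit 21686341713], nat_lit 1271250, nat_lit 1271250, nat_lit 810650, nat_lit 1100001, nat_lit 0, nat_lit 0, [nat_lit 490000, nat_lit 1100000], [nat_lit 24, nat_lit 40, nat_lit 80, nat_lit 80, nat_lit 33, nat_lit 249, nat_lit 40, nat_lit 11]⟩, ⟨t03_k6, nat_lit 0, nat_lit 0, nat_lit 0, nat_lit 0, nat_lit 0, [nat_lit 3282000000, nat_lit 4688000000], [], [nat_lit 18594831334, nat_lit 21163458864, nat_lit 18879534400, nat_lit 21053228800], nat_lit 0, nat_lit 0, nat_lit 0, nat_lit 0, nat_lit 0, nat_lit 0, [], [nat_lit 40, nat_lit 40, nat_lit 80, nat_lit 80]⟩,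
 zbF0, [⟨nat_lit 0, nat_lit 88, nat_lit 83, nat_lit 100, nat_lit 697300270⟩]⟩
noncomputable def t03_l6 : Lf2 := ⟨nat_lit 0, nat_lit 4, [nat_lit 38, nat_lit 5, nat_lit 5, nat_lit 20], false, nat_lit 0, nat_lit 0, nat_lit 0, nat_lit 0, ⟨nat_lit 742, nat_lit 0, nat_lit 258, nat_lit 7, nat_lit 213, nat_lit 0, nat_lit 0, nat_lit 0, nat_lit 0, nat_lit 215, nat_lit 4200, nat_lit 227, nat_lit 52197891, nat_lit 0, nat_lit 0, nat_lit 2640392, false, false⟩,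
 nat_lit 0, nat_lit 0, nat_lit 0, nat_lit 0, nat_lit 0, nat_lit 0, nat_lit 0, nat_lit 0, nat_lit 402, nat_lit 0, nat_lit 0, nat_lit 0, nat_lit 0, nat_lit 0, nat_lit 0, nat_lit 64500, nat_lit 0, nat_lit 0, [(nat_lit 18, [(nat_lit 4, nat_lit 258)])],
 ⟨t03_k7, nat_lit 0, nat_lit 0, nat_lit 0, nat_lit 0, nat_lit 1446598, [nat_lit 1892060800, nat_lit 3426070400], [], [nat_lit 13004889600, nat_lit 13070527470, nat_lit 13625151200, nat_lit 13689396000], nat_lit 1271250, nat_lit 1271250, nat_lit 872850, nat_lit 1100001, nat_lit 0, nat_lit 0, [nat_lit 490000, nat_lit 1100000], [nat_lit 24, nat_lit 40, nat_lit 80, nat_lit 80]⟩, ⟨t03_k8, nat_lit 0, nat_lit 0, nat_lit 0, nat_lit 0, nat_lit 0, [nat_lit 2435244000, nat_lit 4637500000], [], [nat_lit 20890458657, nat_lit 21154635477, nat_lit 21382139058, nat_lit 21640382512], nat_lit 0, nat_lit 0, nat_lit 0, nat_lit 0, nat_lit 0, nat_lit 0, [],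 [nat_lit 49, nat_lit 40, nat_lit 80, nat_lit 80]⟩,
 ⟨nat_lit 4415, nat_lit 4473, ⟨.ofNat (nat_lit 503051), .ofNat (nat_lit 550635), .ofNat (nat_lit 513834), .ofNat (nat_lit 561419), .ofNat (nat_lit 503736), .ofNat (nat_lit 551079), .ofNat (nat_lit 514528), .ofNat (nat_lit 561872)⟩, ⟨.ofNat (nat_lit 0), .ofNat (nat_lit 0), .ofNat (nat_lit 0), .ofNat (nat_lit 0), .ofNat (nat_lit 0), .ofNat (nat_lit 0), .ofNat (nat_lit 0), .ofNat (nat_lit 0)⟩⟩, [⟨nat_lit 13, nat_lit 97, nat_lit 5, nat_lit 100, nat_lit 67803073⟩]⟩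
noncomputable def t03_l7 : Lf2 := ⟨nat_lit 0, nat_lit 3, [nat_lit 45, nat_lit 5, nat_lit 5, nat_lit 20], false, nat_lit 0, nat_lit 0, nat_lit 0, nat_lit 0, ⟨nat_lit 1000, nat_lit 0, nat_lit 0, nat_lit 0, nat_lit 0, nat_lit 0, nat_lit 0, nat_lit 0, nat_lit 0, nat_lit 0, nat_lit 0, nat_lit 0, nat_lit 0, nat_lit 0, nat_lit 0, nat_lit 0, false, false⟩,
 nat_lit 0, nat_lit 0, nat_lit 0, nat_lit 0, nat_lit 0, nat_lit 4660, nat_lit 0, nat_lit 0, nat_lit 548, nat_lit 1546, nat_lit 0, nat_lit 0, nat_lit 0, nat_lit 0, nat_lit 0, nat_lit 0, nat_lit 0, nat_lit 0, [],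
 ⟨t03_k9, nat_lit 0, nat_lit 0, nat_lit 0, nat_lit 0, nat_lit 1437904, [nat_lit 2032000001, nat_lit 4688000000], [], [nat_lit 8744789401, nat_lit 8807670781, nat_lit 9350652001, nat_lit 9412909403], nat_lit 1271250, nat_lit 1271250, nat_lit 872850, nat_lit 1100001, nat_lit 0, nat_lit 0, [nat_lit 490000, nat_lit 1100000], [nat_lit 24, nat_lit 40, nat_lit 80, nat_lit 80]⟩, ⟨t03_k10, nat_lit 0, nat_lit 0, nat_lit 0, nat_lit 0, nat_lit 0, [nat_lit 3282000000, nat_lit 4688000000], [], [nat_lit 18577318271, nat_lit 19428166157, nat_lit 18942803180, nat_lit 19786197760], nat_lit 0, nat_lit 0, nat_lit 0, nat_lit 0, nat_lit 0, nat_lit 0, [], [nat_lit 40, nat_lit 40, nat_lit 80, nat_lit 80]⟩,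
 zbF0, []⟩
noncomputable def t03_l8 : Lf2 := ⟨nat_lit 0, nat_lit 3, [nat_lit 45, nat_lit 5, nat_lit 5, nat_lit 20], false, nat_lit 0, nat_lit 0, nat_lit 0, nat_lit 0, ⟨nat_lit 1000, nat_lit 0, nat_lit 0, nat_lit 0, nat_lit 0, nat_lit 0, nat_lit 0, nat_lit 0, nat_lit 0, nat_lit 0, nat_lit 0, nat_lit 0, nat_lit 0, nat_lit 0, nat_lit 0, nat_lit 0, false, false⟩,
 nat_lit 0, nat_lit 0, nat_lit 0, nat_lit 0, nat_lit 0, nat_lit 5626, nat_lit 0, nat_lit 0, nat_lit 453, nat_lit 535, nat_lit 0, nat_lit 0, nat_lit 0, nat_lit 0, nat_lit 0, nat_lit 0, nat_lit 0, nat_lit 0, [],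
 ⟨t03_k9, nat_lit 0, nat_lit 0, nat_lit 0, nat_lit 0, nat_lit 1437904, [nat_lit 2032000001, nat_lit 4688000000], [], [nat_lit 15210958600, nat_lit 15260507630, nat_lit 15722856000, nat_lit 15771565800], nat_lit 1271250, nat_lit 1271250, nat_lit 872850, nat_lit 1100001, nat_lit 0, nat_lit 0, [nat_lit 490000, nat_lit 1100000], [nat_lit 24, nat_lit 40, nat_lit 80, nat_lit 80]⟩, ⟨t03_k10, nat_lit 0, nat_lit 0, nat_lit 0, nat_lit 0, nat_lit 0, [nat_lit 3282000000, nat_lit 4688000000], [], [nat_lit 19043455763, nat_lit 20299335202, nat_lit 19343504798, nat_lit 20289350928], nat_lit 0, nat_lit 0, nat_lit 0, nat_lit 0, nat_lit 0, nat_lit 0, [], [nat_lit 40, nat_lit 40, nat_lit 80, nat_lit 80]⟩,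
 zbF0, [⟨nat_lit 0, nat_lit 89, nat_lit 85, nat_lit 100, nat_lit 489805622⟩]⟩
noncomputable def t03_l9 : Lf2 := ⟨nat_lit 0, nat_lit 3, [nat_lit 45, nat_lit 5, nat_lit 5, nat_lit 20], false, nat_lit 0, nat_lit 0, nat_lit 0, nat_lit 0, ⟨nat_lit 1000, nat_lit 0, nat_lit 0, nat_lit 0, nat_lit 0, nat_lit 0, nat_lit 0, nat_lit 0, nat_lit 0, nat_lit 0, nat_lit 0, nat_lit 0, nat_lit 0, nat_lit 0, nat_lit 0, nat_lit 0, false, false⟩,
 nat_lit 0, nat_lit 8944, nat_lit 0, nat_lit 0, nat_lit 6708, nat_lit 0, nat_lit 0, nat_lit 0, nat_lit 0, nat_lit 0, nat_lit 0, nat_lit 459, nat_lit 0, nat_lit 0, nat_lit 0, nat_lit 0, nat_lit 0, nat_lit 0, [],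
 ⟨t03_k9, nat_lit 0, nat_lit 0, nat_lit 645, nat_lit 0, nat_lit 1437904, [nat_lit 2032000001, nat_lit 4688000000], [], [nat_lit 34775094839, nat_lit 34839065346, nat_lit 34641486880, nat_lit 34707792637], nat_lit 1271250, nat_lit 1271250, nat_lit 872850, nat_lit 1100001, nat_lit 0, nat_lit 0, [nat_lit 490000, nat_lit 1100000], [nat_lit 24, nat_lit 40, nat_lit 80, nat_lit 80, nat_lit 33, nat_lit 249, nat_lit 40, nat_lit 11]⟩, ⟨t03_k10, nat_lit 0, nat_lit 0, nat_lit 0, nat_lit 0, nat_lit 0, [nat_lit 3282000000, nat_lit 4688000000], [], [nat_lit 11932631100, nat_lit 12346975200, nat_lit 12646433000, nat_lit 13054720000], nat_lit 0, nat_lit 0, nat_lit 0, nat_lit 0, nat_lit 0, nat_lit 0, [], [nat_lit 40, nat_lit 40, nat_lit 80, nat_lit 80]⟩,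
 zbF0, [⟨nat_lit 0, nat_lit 83, nat_lit 82, nat_lit 100, nat_lit 595670242⟩]⟩
noncomputable def t03_l10 : Lf2 := ⟨nat_lit 0, nat_lit 3, [nat_lit 45, nat_lit 5, nat_lit 5, nat_lit 20], false, nat_lit 0, nat_lit 0, nat_lit 0, nat_lit 0, ⟨nat_lit 1000, nat_lit 0, nat_lit 0, nat_lit 0, nat_lit 0, nat_lit 0, nat_lit 0, nat_lit 0, nat_lit 0, nat_lit 0, nat_lit 0, nat_lit 0, nat_lit 0, nat_lit 0, nat_lit 0, nat_lit 0, false, false⟩,
 nat_lit 0, nat_lit 13116, nat_lit 0, nat_lit 0, nat_lit 9836, nat_lit 100000, nat_lit 0, nat_lit 0, nat_lit 0, nat_lit 19106, nat_lit 7700, nat_lit 0, nat_lit 0, nat_lit 0, nat_lit 0, nat_lit 0, nat_lit 0, nat_lit 0, [],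
 ⟨t03_k9, nat_lit 0, nat_lit 0, nat_lit 620, nat_lit 0, nat_lit 1393967, [nat_lit 2032000001, nat_lit 4688000000], [], [nat_lit 16918573832, nat_lit 17019266863, nat_lit 16578095584, nat_lit 16674839236], nat_lit 1271250, nat_lit 1271250, nat_lit 872850, nat_lit 1100001, nat_lit 0, nat_lit 0, [nat_lit 490000, nat_lit 1100000], [nat_lit 24, nat_lit 40, nat_lit 80, nat_lit 80, nat_lit 33, nat_lit 249, nat_lit 40, nat_lit 11]⟩, ⟨t03_k10, nat_lit 0, nat_lit 0, nat_lit 0, nat_lit 0, nat_lit 0, [nat_lit 95682000000, nat_lit 127888000000], [], [nat_lit 113897477850, nat_lit 120017513025, nat_lit 106878952000, nat_lit 111927059000], nat_lit 0, nat_lit 0, nat_lit 0, nat_lit 0, nat_lit 0, nat_lit 0, [], [nat_lit 40, nat_lit 40, nat_lit 80, nat_lit 80]⟩,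
 zbF0, [⟨nat_lit 0, nat_lit 87, nat_lit 84, nat_lit 100, nat_lit 2762018475⟩]⟩
noncomputable def t03_l11 : Lf2 := ⟨nat_lit 0, nat_lit 3, [nat_lit 45, nat_lit 5, nat_lit 5, nat_lit 20], false, nat_lit 0, nat_lit 0, nat_lit 0, nat_lit 0, ⟨nat_lit 1000, nat_lit 0, nat_lit 0, nat_lit 0, nat_lit 0, nat_lit 0, nat_lit 0, nat_lit 0, nat_lit 0, nat_lit 0, nat_lit 0, nat_lit 0, nat_lit 0, nat_lit 0, nat_lit 0, nat_lit 0, false, false⟩,
 nat_lit 0, nat_lit 13100, nat_lit 0, nat_lit 0, nat_lit 9825, nat_lit 100000, nat_lit 0, nat_lit 0, nat_lit 0, nat_lit 16214, nat_lit 7764, nat_lit 0, nat_lit 0, nat_lit 0, nat_lit 0, nat_lit 0, nat_lit 0, nat_lit 0, [],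
 ⟨t03_k9, nat_lit 0, nat_lit 0, nat_lit 644, nat_lit 0, nat_lit 1437904, [nat_lit 2032000001, nat_lit 4688000000], [], [nat_lit 16924401700, nat_lit 17024958489, nat_lit 16633839800, nat_lit 16730525490], nat_lit 1271250, nat_lit 1271250, nat_lit 904401, nat_lit 1100001, nat_lit 0, nat_lit 0, [nat_lit 490000, nat_lit 1100000], [nat_lit 24, nat_lit 40, nat_lit 80, nat_lit 80, nat_lit 33, nat_lit 249, nat_lit 40, nat_lit 11]⟩, ⟨t03_k11, nat_lit 0, nat_lit 0, nat_lit 0, nat_lit 0, nat_lit 0, [nat_lit 96450000000, nat_lit 128912000000], [], [nat_lit 120104659700, nat_lit 126179910801, nat_lit 113938665250, nat_lit 118988732000], nat_lit 0, nat_lit 0, nat_lit 0, nat_lit 0, nat_lit 0, nat_lit 0, [], [nat_lit 40, nat_lit 40, nat_lit 80, nat_lit 80]⟩,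
 zbF0, [⟨nat_lit 0, nat_lit 83, nat_lit 82, nat_lit 100, nat_lit 3036040980⟩]⟩
noncomputable def t03_l12 : Lf2 := ⟨nat_lit 0, nat_lit 3, [nat_lit 45, nat_lit 5, nat_lit 5, nat_lit 20], false, nat_lit 0, nat_lit 0, nat_lit 0, nat_lit 0, ⟨nat_lit 1000, nat_lit 0, nat_lit 0, nat_lit 0, nat_lit 0, nat_lit 0, nat_lit 0, nat_lit 0, nat_lit 0, nat_lit 0, nat_lit 0, nat_lit 0, nat_lit 0, nat_lit 0, nat_lit 0, nat_lit 0, false, false⟩,
 nat_lit 0, nat_lit 0, nat_lit 0, nat_lit 0, nat_lit 0, nat_lit 100000, nat_lit 0, nat_lit 0, nat_lit 0, nat_lit 19339, nat_lit 7642, nat_lit 0, nat_lit 0, nat_lit 0, nat_lit 0, nat_lit 0, nat_lit 0, nat_lit 0, [],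
 ⟨t03_k9, nat_lit 0, nat_lit 0, nat_lit 645, nat_lit 0, nat_lit 1437904, [nat_lit 2032000001, nat_lit 4688000000], [], [nat_lit 76144926001, nat_lit 76185796101, nat_lit 76587004001, nat_lit 76627291001], nat_lit 1271250, nat_lit 1271250, nat_lit 872850, nat_lit 1100001, nat_lit 0, nat_lit 0, [nat_lit 490000, nat_lit 1100000], [nat_lit 24, nat_lit 40, nat_lit 80, nat_lit 80, nat_lit 33, nat_lit 249, nat_lit 40, nat_lit 11]⟩, ⟨t03_k10, nat_lit 0, nat_lit 0, nat_lit 0, nat_lit 0, nat_lit 0, [nat_lit 94986000000, nat_lit 126960000000], [], [nat_lit 112638511100, nat_lit 125914440600, nat_lit 104925433000, nat_lit 117524732000], nat_lit 0, nat_lit 0, nat_lit 0, nat_lit 0, nat_lit 0, nat_lit 0, [], [nat_lit 40, nat_lit 40, nat_lit 80, nat_lit 80]⟩,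
 zbF0, [⟨nat_lit 13, nat_lit 97, nat_lit 5, nat_lit 100, nat_lit 133351956⟩]⟩
noncomputable def t03_l13 : Lf2 := ⟨nat_lit 3, nat_lit 4, [nat_lit 38, nat_lit 5, nat_lit 5, nat_lit 20], false, nat_lit 0, nat_lit 0, nat_lit 0, nat_lit 0, zbN0,
 nat_lit 0, nat_lit 0, nat_lit 0, nat_lit 0, nat_lit 0, nat_lit 0, nat_lit 0, nat_lit 0, nat_lit 0, nat_lit 0, nat_lit 0, nat_lit 0, nat_lit 0, nat_lit 0, nat_lit 0, nat_lit 0, nat_lit 0, nat_lit 0, [],
 C1.Rw.none, ⟨t03_k8, nat_lit 0, nat_lit 0, nat_lit 0, nat_lit 0, nat_lit 0, [], [], [], nat_lit 0, nat_lit 0, nat_lit 0, nat_lit 0, nat_lit 0, nat_lit 0, [], [nat_lit 49, nat_lit 40, nat_lit 80, nat_lit 80]⟩,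
 zbF0, []⟩
noncomputable def t03_l14 : Lf2 := ⟨nat_lit 0, nat_lit 4, [nat_lit 38, nat_lit 5, nat_lit 5, nat_lit 20], false, nat_lit 0, nat_lit 0, nat_lit 0, nat_lit 0, ⟨nat_lit 1000, nat_lit 0, nat_lit 0, nat_lit 0, nat_lit 0, nat_lit 0, nat_lit 0, nat_lit 0, nat_lit 0, nat_lit 0, nat_lit 0, nat_lit 0, nat_lit 0, nat_lit 0, nat_lit 0, nat_lit 0, false, false⟩,
 nat_lit 0, nat_lit 8895, nat_lit 0, nat_lit 0, nat_lit 6723, nat_lit 4912, nat_lit 5946, nat_lit 0, nat_lit 0, nat_lit 1755, nat_lit 0, nat_lit 0, nat_lit 0, nat_lit 0, nat_lit 0, nat_lit 0, nat_lit 0, nat_lit 0, [],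
 ⟨t03_k12, nat_lit 0, nat_lit 0, nat_lit 645, nat_lit 0, nat_lit 1438155, [nat_lit 2032000001, nat_lit 4688000000], [], [nat_lit 22280422216, nat_lit 22313628432, nat_lit 22167749371, nat_lit 22199599208], nat_lit 1271250, nat_lit 1271250, nat_lit 872850, nat_lit 1100001, nat_lit 0, nat_lit 0, [nat_lit 490000, nat_lit 1100000], [nat_lit 24, nat_lit 40, nat_lit 80, nat_lit 80, nat_lit 33, nat_lit 249, nat_lit 40, nat_lit 11]⟩, ⟨t03_k8, nat_lit 0, nat_lit 0, nat_lit 0, nat_lit 0, nat_lit 0, [nat_lit 3282000000, nat_lit 6250000000], [], [nat_lit 18477661884, nat_lit 19290095060, nat_lit 18772654733, nat_lit 19552275232], nat_lit 0, nat_lit 0, nat_lit 0, nat_lit 0, nat_lit 0, nat_lit 0, [], [nat_lit 49, nat_lit 40, nat_lit 80, nat_lit 80]⟩,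
 zbF0, [⟨nat_lit 0, nat_lit 83, nat_lit 82, nat_lit 100, nat_lit 706263323⟩]⟩
noncomputable def t03_l15 : Lf2 := ⟨nat_lit 0, nat_lit 4, [nat_lit 38, nat_lit 5, nat_lit 5, nat_lit 20], false, nat_lit 0, nat_lit 0, nat_lit 0, nat_lit 0, ⟨nat_lit 1000, nat_lit 0, nat_lit 0, nat_lit 0, nat_lit 0, nat_lit 0, nat_lit 0, nat_lit 0, nat_lit 0, nat_lit 0, nat_lit 0, nat_lit 0, nat_lit 0, nat_lit 0, nat_lit 0, nat_lit 0, false, false⟩,
 nat_lit 0, nat_lit 8790, nat_lit 0, nat_lit 0, nat_lit 6669, nat_lit 4993, nat_lit 3340, nat_lit 0, nat_lit 0, nat_lit 1754, nat_lit 0, nat_lit 0, nat_lit 0, nat_lit 0, nat_lit 0, nat_lit 0, nat_lit 0, nat_lit 0, [],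
 ⟨t03_k13, nat_lit 0, nat_lit 0, nat_lit 647, nat_lit 0, nat_lit 1443796, [nat_lit 2032000001, nat_lit 4688000000], [], [nat_lit 22464408975, nat_lit 22541240578, nat_lit 22426571435, nat_lit 22500310659], nat_lit 1271250, nat_lit 1271250, nat_lit 872850, nat_lit 1100001, nat_lit 0, nat_lit 0, [nat_lit 490000, nat_lit 1100000], [nat_lit 24, nat_lit 40, nat_lit 80, nat_lit 80, nat_lit 33, nat_lit 249, nat_lit 40, nat_lit 11]⟩, ⟨t03_k8, nat_lit 0, nat_lit 0, nat_lit 0, nat_lit 0, nat_lit 0, [nat_lit 3282000000, nat_lit 6250000000], [], [nat_lit 18403141932, nat_lit 19404588689, nat_lit 18692072162, nat_lit 19477735626], nat_lit 0, nat_lit 0, nat_lit 0, nat_lit 0, nat_lit 0, nat_lit 0, [], [nat_lit 49, nat_lit 40, nat_lit 80, nat_lit 80]⟩,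
 zbF0, [⟨nat_lit 0, nat_lit 83, nat_lit 81, nat_lit 100, nat_lit 744372417⟩]⟩
noncomputable def t03_l16 : Lf2 := ⟨nat_lit 0, nat_lit 5, [nat_lit 4, nat_lit 5, nat_lit 5, nat_lit 20], false, nat_lit 0, nat_lit 0, nat_lit 0, nat_lit 0, ⟨nat_lit 1000, nat_lit 0, nat_lit 0, nat_lit 0, nat_lit 0, nat_lit 0, nat_lit 0, nat_lit 0, nat_lit 0, nat_lit 0, nat_lit 0, nat_lit 0, nat_lit 0, nat_lit 0, nat_lit 0, nat_lit 0, false, false⟩,
 nat_lit 0, nat_lit 8630, nat_lit 0, nat_lit 0, nat_lit 6548, nat_lit 5524, nat_lit 4190, nat_lit 0, nat_lit 0, nat_lit 1289, nat_lit 0, nat_lit 0, nat_lit 0, nat_lit 0, nat_lit 0, nat_lit 0, nat_lit 0, nat_lit 0, [],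
 ⟨t03_k14, nat_lit 0, nat_lit 0, nat_lit 596, nat_lit 0, nat_lit 1350195, [nat_lit 2032000001, nat_lit 4688000000], [], [nat_lit 22280684356, nat_lit 22360270414, nat_lit 22234851623, nat_lit 22311244745], nat_lit 1271250, nat_lit 1271250, nat_lit 872850, nat_lit 1100001, nat_lit 0, nat_lit 0, [nat_lit 490000, nat_lit 1100000], [nat_lit 24, nat_lit 40, nat_lit 80, nat_lit 80, nat_lit 33, nat_lit 249, nat_lit 40, nat_lit 11]⟩, ⟨t03_k15, nat_lit 0, nat_lit 0, nat_lit 0, nat_lit 0, nat_lit 0, [nat_lit 3282000000, nat_lit 6250000000], [], [nat_lit 19216890998, nat_lit 20156212459, nat_lit 19466077391, nat_lit 20298281943], nat_lit 0, nat_lit 0, nat_lit 0, nat_lit 0, nat_lit 0, nat_lit 0, [], [nat_lit 49, nat_lit 40, nat_lit 80, nat_lit 80]⟩,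
 zbF0, [⟨nat_lit 0, nat_lit 83, nat_lit 81, nat_lit 100, nat_lit 727825421⟩]⟩
noncomputable def t03_l17 : Lf2 := ⟨nat_lit 0, nat_lit 1, [nat_lit 19, nat_lit 5, nat_lit 5, nat_lit 20], false, nat_lit 0, nat_lit 0, nat_lit 0, nat_lit 0, ⟨nat_lit 1000, nat_lit 0, nat_lit 0, nat_lit 0, nat_lit 0, nat_lit 0, nat_lit 0, nat_lit 0, nat_lit 0, nat_lit 0, nat_lit 0, nat_lit 0, nat_lit 0, nat_lit 0, nat_lit 0, nat_lit 0, false, false⟩,
 nat_lit 0, nat_lit 9504, nat_lit 0, nat_lit 0, nat_lit 7127, nat_lit 4993, nat_lit 0, nat_lit 0, nat_lit 0, nat_lit 2390, nat_lit 0, nat_lit 0, nat_lit 0, nat_lit 0, nat_lit 0, nat_lit 0, nat_lit 0, nat_lit 0, [],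
 ⟨t03_k0, nat_lit 0, nat_lit 0, nat_lit 606, nat_lit 0, nat_lit 1562382, [nat_lit 2032000001, nat_lit 3282000000], [], [nat_lit 22794663837, nat_lit 22991609648, nat_lit 26076492960, nat_lit 26718930980], nat_lit 1271250, nat_lit 1271250, nat_lit 1100001, nat_lit 1785000, nat_lit 0, nat_lit 0, [nat_lit 490000, nat_lit 780000], [nat_lit 112, nat_lit 40, nat_lit 80, nat_lit 80, nat_lit 113, nat_lit 223, nat_lit 0, nat_lit 12]⟩, ⟨t03_k1, nat_lit 0, nat_lit 0, nat_lit 0, nat_lit 0, nat_lit 0, [nat_lit 3282000000, nat_lit 4688000000], [], [nat_lit 17669095454, nat_lit 19477085848, nat_lit 21092604322, nat_lit 22925684640], nat_lit 0, nat_lit 0, nat_lit 0, nat_lit 0, nat_lit 0, nat_lit 0, [], [nat_lit 40, nat_lit 40, nat_lit 80, nat_lit 80]⟩,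
 zbF0, []⟩
noncomputable def t03_l18 : Lf2 := ⟨nat_lit 0, nat_lit 2, [nat_lit 10, nat_lit 5, nat_lit 5, nat_lit 20], false, nat_lit 0, nat_lit 0, nat_lit 0, nat_lit 0, ⟨nat_lit 1000, nat_lit 0, nat_lit 0, nat_lit 0, nat_lit 0, nat_lit 0, nat_lit 0, nat_lit 0, nat_lit 0, nat_lit 0, nat_lit 0, nat_lit 0, nat_lit 0, nat_lit 0, nat_lit 0, nat_lit 0, false, false⟩,
 nat_lit 0, nat_lit 11307, nat_lit 0, nat_lit 0, nat_lit 8480, nat_lit 5093, nat_lit 0, nat_lit 0, nat_lit 0, nat_lit 2327, nat_lit 0, nat_lit 0, nat_lit 0, nat_lit 0, nat_lit 0, nat_lit 0, nat_lit 0, nat_lit 0, [],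
 ⟨t03_k2, nat_lit 0, nat_lit 0, nat_lit 614, nat_lit 0, nat_lit 1405623, [nat_lit 2032000001, nat_lit 4688000000], [], [nat_lit 24375156800, nat_lit 24484395812, nat_lit 28074170400, nat_lit 28509744409], nat_lit 1271250, nat_lit 1271250, nat_lit 1100001, nat_lit 1785000, nat_lit 0, nat_lit 0, [nat_lit 490000, nat_lit 1100000], [nat_lit 24, nat_lit 40, nat_lit 80, nat_lit 80, nat_lit 33, nat_lit 224, nat_lit 0, nat_lit 10]⟩, ⟨t03_k6, nat_lit 0, nat_lit 0, nat_lit 0, nat_lit 0, nat_lit 0, [nat_lit 3282000000, nat_lit 4688000000], [], [nat_lit 17611553254, nat_lit 18469408450, nat_lit 21166649826, nat_lit 22119991233], nat_lit 0, nat_lit 0, nat_lit 0, nat_lit 0, nat_lit 0, nat_lit 0, [], [nat_lit 40, nat_lit 40, nat_lit 80, nat_lit 80]⟩,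
 zbF0, []⟩
noncomputable def t03_l19 : Lf2 := ⟨nat_lit 0, nat_lit 2, [nat_lit 10, nat_lit 5, nat_lit 5, nat_lit 20], false, nat_lit 0, nat_lit 0, nat_lit 0, nat_lit 0, ⟨nat_lit 1000, nat_lit 0, nat_lit 0, nat_lit 0, nat_lit 0, nat_lit 0, nat_lit 0, nat_lit 0, nat_lit 0, nat_lit 0, nat_lit 0, nat_lit 0, nat_lit 0, nat_lit 0, nat_lit 0, nat_lit 0, false, false⟩,
 nat_lit 0, nat_lit 7964, nat_lit 0, nat_lit 0, nat_lit 6019, nat_lit 4993, nat_lit 8654, nat_lit 0, nat_lit 0, nat_lit 1514, nat_lit 0, nat_lit 0, nat_lit 0, nat_lit 0, nat_lit 0, nat_lit 0, nat_lit 0, nat_lit 0, [],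
 ⟨t03_k4, nat_lit 0, nat_lit 0, nat_lit 651, nat_lit 0, nat_lit 1477133, [nat_lit 2032000001, nat_lit 4688000000], [], [nat_lit 21169689516, nat_lit 21209283540, nat_lit 24670170257, nat_lit 24784978825], nat_lit 1271250, nat_lit 1271250, nat_lit 1100001, nat_lit 1785000, nat_lit 0, nat_lit 0, [nat_lit 490000, nat_lit 1100000], [nat_lit 24, nat_lit 40, nat_lit 80, nat_lit 80, nat_lit 33, nat_lit 234, nat_lit 0, nat_lit 10]⟩, ⟨t03_k3, nat_lit 0, nat_lit 0, nat_lit 0, nat_lit 0, nat_lit 0, [nat_lit 3282000000, nat_lit 4688000000], [], [nat_lit 18629903039, nat_lit 19477660624, nat_lit 21983293133, nat_lit 22925684640], nat_lit 0, nat_lit 0, nat_lit 0, nat_lit 0, nat_lit 0, nat_lit 0, [], [nat_lit 40, nat_lit 40, nat_lit 80, nat_lit 80]⟩,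
 zbF0, []⟩
noncomputable def t03_l20 : Lf2 := ⟨nat_lit 0, nat_lit 2, [nat_lit 10, nat_lit 5, nat_lit 5, nat_lit 20], false, nat_lit 0, nat_lit 0, nat_lit 0, nat_lit 0, ⟨nat_lit 1000, nat_lit 0, nat_lit 0, nat_lit 0, nat_lit 0, nat_lit 0, nat_lit 0, nat_lit 0, nat_lit 0, nat_lit 0, nat_lit 0, nat_lit 0, nat_lit 0, nat_lit 0, nat_lit 0, nat_lit 0, false, false⟩,
 nat_lit 0, nat_lit 7692, nat_lit 0, nat_lit 0, nat_lit 5836, nat_lit 6220, nat_lit 7278, nat_lit 0, nat_lit 0, nat_lit 0, nat_lit 0, nat_lit 0, nat_lit 0, nat_lit 0, nat_lit 0, nat_lit 0, nat_lit 0, nat_lit 0, [],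
 ⟨t03_k5, nat_lit 0, nat_lit 0, nat_lit 653, nat_lit 0, nat_lit 1482403, [nat_lit 2032000001, nat_lit 4688000000], [], [nat_lit 21151137643, nat_lit 21231447211, nat_lit 24508005196, nat_lit 24733103806], nat_lit 1271250, nat_lit 1271250, nat_lit 1100001, nat_lit 1785000, nat_lit 0, nat_lit 0, [nat_lit 490000, nat_lit 1100000], [nat_lit 24, nat_lit 40, nat_lit 80, nat_lit 80, nat_lit 33, nat_lit 234, nat_lit 0, nat_lit 10]⟩, ⟨t03_k6, nat_lit 0, nat_lit 0, nat_lit 0, nat_lit 0, nat_lit 0, [nat_lit 3282000000, nat_lit 4688000000], [], [nat_lit 18879534400, nat_lit 21053228800, nat_lit 22587581760, nat_lit 24737325600], nat_lit 0, nat_lit 0, nat_lit 0, nat_lit 0, nat_lit 0, nat_lit 0, [], [nat_lit 40, nat_lit 40, nat_lit 80, nat_lit 80]⟩,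
 zbF0, [⟨nat_lit 13, nat_lit 99, nat_lit 2, nat_lit 100, nat_lit 27373584⟩]⟩
noncomputable def t03_l21 : Lf2 := ⟨nat_lit 0, nat_lit 5, [nat_lit 4, nat_lit 5, nat_lit 5, nat_lit 20], false, nat_lit 0, nat_lit 0, nat_lit 0, nat_lit 0, ⟨nat_lit 1000, nat_lit 0, nat_lit 0, nat_lit 0, nat_lit 0, nat_lit 0, nat_lit 0, nat_lit 0, nat_lit 0, nat_lit 0, nat_lit 0, nat_lit 0, nat_lit 0, nat_lit 0, nat_lit 0, nat_lit 0, false, false⟩,
 nat_lit 0, nat_lit 7782, nat_lit 0, nat_lit 0, nat_lit 5950, nat_lit 5433, nat_lit 2990, nat_lit 0, nat_lit 0, nat_lit 0, nat_lit 0, nat_lit 0, nat_lit 0, nat_lit 0, nat_lit 0, nat_lit 0, nat_lit 0, nat_lit 0, [],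
 ⟨t03_k16, nat_lit 0, nat_lit 0, nat_lit 721, nat_lit 0, nat_lit 1597321, [nat_lit 2032000001, nat_lit 4688000000], [], [nat_lit 24405532503, nat_lit 24582357647, nat_lit 25337612159, nat_lit 25484338509], nat_lit 1271250, nat_lit 1271250, nat_lit 810650, nat_lit 1764750, nat_lit 0, nat_lit 0, [nat_lit 490000, nat_lit 1100000], [nat_lit 24, nat_lit 40, nat_lit 80, nat_lit 80, nat_lit 33, nat_lit 272, nat_lit 60, nat_lit 12]⟩, ⟨t03_k17, nat_lit 0, nat_lit 0, nat_lit 0, nat_lit 0, nat_lit 0, [nat_lit 3282000000, nat_lit 6250000000], [], [nat_lit 22021612916, nat_lit 23762838584, nat_lit 25399530166, nat_lit 26904945632], nat_lit 0, nat_lit 0, nat_lit 0, nat_lit 0, nat_lit 0, nat_lit 0, [], [nat_lit 49, nat_lit 40, nat_lit 80, nat_lit 80]⟩,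
 zbF0, [⟨nat_lit 0, nat_lit 82, nat_lit 78, nat_lit 100, nat_lit 480301973⟩]⟩
noncomputable def t03_l22 : Lf2 := ⟨nat_lit 0, nat_lit 5, [nat_lit 4, nat_lit 5, nat_lit 5, nat_lit 20], false, nat_lit 0, nat_lit 0, nat_lit 0, nat_lit 0, ⟨nat_lit 1000, nat_lit 0, nat_lit 0, nat_lit 0, nat_lit 0, nat_lit 0, nat_lit 0, nat_lit 0, nat_lit 0, nat_lit 0, nat_lit 0, nat_lit 0, nat_lit 0, nat_lit 0, nat_lit 0, nat_lit 0, false, false⟩,
 nat_lit 0, nat_lit 7106, nat_lit 0, nat_lit 0, nat_lit 5539, nat_lit 5453, nat_lit 2233, nat_lit 0, nat_lit 0, nat_lit 451, nat_lit 0, nat_lit 0, nat_lit 0, nat_lit 0, nat_lit 0, nat_lit 0, nat_lit 0, nat_lit 0, [],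
 ⟨t03_k18, nat_lit 0, nat_lit 0, nat_lit 729, nat_lit 0, nat_lit 1623169, [nat_lit 2032000001, nat_lit 4688000000], [], [nat_lit 24320729766, nat_lit 24710044928, nat_lit 25586433431, nat_lit 25914900184], nat_lit 1271250, nat_lit 1271250, nat_lit 872850, nat_lit 1769250, nat_lit 0, nat_lit 0, [nat_lit 490000, nat_lit 1100000], [nat_lit 24, nat_lit 40, nat_lit 80, nat_lit 80, nat_lit 33, nat_lit 272, nat_lit 60, nat_lit 12]⟩, ⟨t03_k17, nat_lit 0, nat_lit 0, nat_lit 0, nat_lit 0, nat_lit 0, [nat_lit 3282000000, nat_lit 6250000000], [], [nat_lit 21225795585, nat_lit 22950118688, nat_lit 24521822831, nat_lit 26050122337], nat_lit 0, nat_lit 0, nat_lit 0, nat_lit 0, nat_lit 0, nat_lit 0, [], [nat_lit 49, nat_lit 40, nat_lit 80, nat_lit 80]⟩,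
 zbF0, [⟨nat_lit 0, nat_lit 81, nat_lit 72, nat_lit 100, nat_lit 470030341⟩]⟩
noncomputable def t03_l23 : Lf2 := ⟨nat_lit 0, nat_lit 10, [nat_lit 0, nat_lit 5, nat_lit 5, nat_lit 20], false, nat_lit 0, nat_lit 0, nat_lit 0, nat_lit 0, ⟨nat_lit 1000, nat_lit 0, nat_lit 0, nat_lit 0, nat_lit 0, nat_lit 0, nat_lit 0, nat_lit 0, nat_lit 0, nat_lit 0, nat_lit 0, nat_lit 0, nat_lit 0, nat_lit 0, nat_lit 0, nat_lit 0, false, false⟩,
 nat_lit 0, nat_lit 8529, nat_lit 0, nat_lit 0, nat_lit 6396, nat_lit 5575, nat_lit 502, nat_lit 0, nat_lit 0, nat_lit 1249, nat_lit 0, nat_lit 0, nat_lit 0, nat_lit 0, nat_lit 0, nat_lit 0, nat_lit 0, nat_lit 0, [],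
 ⟨t03_k19, nat_lit 0, nat_lit 0, nat_lit 611, nat_lit 0, nat_lit 1177935, [nat_lit 2032000001, nat_lit 4688000000, nat_lit 6250000000], [], [nat_lit 31619967031, nat_lit 31748972895, nat_lit 31602207010, nat_lit 31724619829], nat_lit 1271250, nat_lit 1271250, nat_lit 872850, nat_lit 1100001, nat_lit 0, nat_lit 0, [nat_lit 490000, nat_lit 1100000, nat_lit 1442500], [nat_lit 6, nat_lit 40, nat_lit 80, nat_lit 80, nat_lit 3, nat_lit 249, nat_lit 40, nat_lit 9]⟩, ⟨t03_k20, nat_lit 0, nat_lit 0, nat_lit 0, nat_lit 0, nat_lit 0, [nat_lit 3282000000, nat_lit 6250000000, nat_lit 7968000000], [], [nat_lit 19343047038, nat_lit 19788234208, nat_lit 19527176675, nat_lit 19945513975], nat_lit 0, nat_lit 0, nat_lit 0, nat_lit 0, nat_lit 0, nat_lit 0, [], [nat_lit 18, nat_lit 40, nat_lit 80, nat_lit 80]⟩,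
 zbF0, [⟨nat_lit 0, nat_lit 86, nat_lit 82, nat_lit 100, nat_lit 689576399⟩]⟩
noncomputable def t03_l24 : Lf2 := ⟨nat_lit 0, nat_lit 10, [nat_lit 0, nat_lit 5, nat_lit 5, nat_lit 20], false, nat_lit 0, nat_lit 0, nat_lit 0, nat_lit 0, ⟨nat_lit 1000, nat_lit 0, nat_lit 0, nat_lit 0, nat_lit 0, nat_lit 0, nat_lit 0, nat_lit 0, nat_lit 0, nat_lit 0, nat_lit 0, nat_lit 0, nat_lit 0, nat_lit 0, nat_lit 0, nat_lit 0, false, false⟩,
 nat_lit 0, nat_lit 11099, nat_lit 0, nat_lit 0, nat_lit 8323, nat_lit 5378, nat_lit 448, nat_lit 0, nat_lit 0, nat_lit 1211, nat_lit 0, nat_lit 0, nat_lit 0, nat_lit 0, nat_lit 0, nat_lit 0, nat_lit 0, nat_lit 0, [],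
 ⟨t03_k19, nat_lit 0, nat_lit 0, nat_lit 620, nat_lit 0, nat_lit 1203484, [nat_lit 2032000001, nat_lit 4688000000, nat_lit 6250000000], [], [nat_lit 24470554044, nat_lit 24598932790, nat_lit 24253821780, nat_lit 24378616140], nat_lit 1271250, nat_lit 1271250, nat_lit 904401, nat_lit 1100001, nat_lit 0, nat_lit 0, [nat_lit 490000, nat_lit 1100000, nat_lit 1442500], [nat_lit 6, nat_lit 40, nat_lit 80, nat_lit 80, nat_lit 3, nat_lit 249, nat_lit 40, nat_lit 9]⟩, ⟨t03_k21, nat_lit 0, nat_lit 0, nat_lit 0, nat_lit 0, nat_lit 0, [nat_lit 3282000000, nat_lit 6250000000, nat_lit 7968000000], [], [nat_lit 19457308765, nat_lit 19712602376, nat_lit 19664924099, nat_lit 19910746483], nat_lit 0, nat_lit 0, nat_lit 0, nat_lit 0, nat_lit 0, nat_lit 0, [], [nat_lit 18, nat_lit 40, nat_lit 80, nat_lit 80]⟩,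
 zbF0, [⟨nat_lit 0, nat_lit 84, nat_lit 82, nat_lit 100, nat_lit 743125331⟩]⟩
noncomputable def t03_l25 : Lf2 := ⟨nat_lit 0, nat_lit 10, [nat_lit 0, nat_lit 5, nat_lit 5, nat_lit 20], false, nat_lit 0, nat_lit 0, nat_lit 0, nat_lit 0, ⟨nat_lit 1000, nat_lit 0, nat_lit 0, nat_lit 0, nat_lit 0, nat_lit 0, nat_lit 0, nat_lit 0, nat_lit 0, nat_lit 0, nat_lit 0, nat_lit 0, nat_lit 0, nat_lit 0, nat_lit 0, nat_lit 0, false, false⟩,
 nat_lit 0, nat_lit 11102, nat_lit 0, nat_lit 0, nat_lit 8326, nat_lit 5274, nat_lit 448, nat_lit 0, nat_lit 0, nat_lit 1180, nat_lit 0, nat_lit 0, nat_lit 0, nat_lit 0, nat_lit 0, nat_lit 0, nat_lit 0, nat_lit 0, [],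
 ⟨t03_k19, nat_lit 0, nat_lit 0, nat_lit 625, nat_lit 0, nat_lit 1220716, [nat_lit 2032000001, nat_lit 4688000000, nat_lit 6250000000], [], [nat_lit 24419237000, nat_lit 24546829002, nat_lit 24238440360, nat_lit 24363436883], nat_lit 1271250, nat_lit 1271250, nat_lit 936251, nat_lit 1100001, nat_lit 0, nat_lit 0, [nat_lit 490000, nat_lit 1100000, nat_lit 1442500], [nat_lit 6, nat_lit 40, nat_lit 80, nat_lit 80, nat_lit 3, nat_lit 249, nat_lit 40, nat_lit 9]⟩, ⟨t03_k22, nat_lit 0, nat_lit 0, nat_lit 0, nat_lit 0, nat_lit 0, [nat_lit 3282000000, nat_lit 6250000000, nat_lit 7968000000], [], [nat_lit 19662442006, nat_lit 19815221474, nat_lit 19782089573, nat_lit 19930346240], nat_lit 0, nat_lit 0, nat_lit 0, nat_lit 0, nat_lit 0, nat_lit 0, [], [nat_lit 18, nat_lit 40, nat_lit 80, nat_lit 80]⟩,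
 zbF0, [⟨nat_lit 0, nat_lit 83, nat_lit 82, nat_lit 100, nat_lit 766794977⟩]⟩
noncomputable def t03_l26 : Lf2 := ⟨nat_lit 0, nat_lit 10, [nat_lit 0, nat_lit 5, nat_lit 5, nat_lit 20], false, nat_lit 0, nat_lit 0, nat_lit 0, nat_lit 0, ⟨nat_lit 1000, nat_lit 0, nat_lit 0, nat_lit 0, nat_lit 0, nat_lit 0, nat_lit 0, nat_lit 0, nat_lit 0, nat_lit 0, nat_lit 0, nat_lit 0, nat_lit 0, nat_lit 0, nat_lit 0, nat_lit 0, false, false⟩,
 nat_lit 0, nat_lit 8704, nat_lit 0, nat_lit 0, nat_lit 6528, nat_lit 5575, nat_lit 475, nat_lit 0, nat_lit 0, nat_lit 1362, nat_lit 0, nat_lit 0, nat_lit 0, nat_lit 0, nat_lit 0, nat_lit 0, nat_lit 0, nat_lit 0, [],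
 ⟨t03_k19, nat_lit 0, nat_lit 0, nat_lit 652, nat_lit 0, nat_lit 1306962, [nat_lit 2032000001, nat_lit 4688000000, nat_lit 6250000000], [], [nat_lit 33350578241, nat_lit 33460903606, nat_lit 34269253120, nat_lit 34372033171], nat_lit 1271250, nat_lit 1271250, nat_lit 1100001, nat_lit 1785000, nat_lit 0, nat_lit 0, [nat_lit 490000, nat_lit 1100000, nat_lit 1442500], [nat_lit 6, nat_lit 40, nat_lit 80, nat_lit 80, nat_lit 3, nat_lit 272, nat_lit 60, nat_lit 10]⟩, ⟨t03_k20, nat_lit 0, nat_lit 0, nat_lit 0, nat_lit 0, nat_lit 0, [nat_lit 3282000000, nat_lit 6250000000, nat_lit 7968000000], [], [nat_lit 19206186050, nat_lit 19624523350, nat_lit 22778876075, nat_lit 23281936038], nat_lit 0, nat_lit 0, nat_lit 0, nat_lit 0, nat_lit 0, nat_lit 0, [], [nat_lit 18, nat_lit 40, nat_lit 80, nat_lit 80]⟩,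
 zbF0, []⟩
noncomputable def t03_l27 : Lf2 := ⟨nat_lit 0, nat_lit 10, [nat_lit 0, nat_lit 5, nat_lit 5, nat_lit 20], false, nat_lit 0, nat_lit 0, nat_lit 0, nat_lit 0, ⟨nat_lit 1000, nat_lit 0, nat_lit 0, nat_lit 0, nat_lit 0, nat_lit 0, nat_lit 0, nat_lit 0, nat_lit 0, nat_lit 0, nat_lit 0, nat_lit 0, nat_lit 0, nat_lit 0, nat_lit 0, nat_lit 0, false, false⟩,
 nat_lit 0, nat_lit 8848, nat_lit 0, nat_lit 0, nat_lit 6635, nat_lit 5445, nat_lit 474, nat_lit 0, nat_lit 0, nat_lit 1197, nat_lit 0, nat_lit 0, nat_lit 0, nat_lit 0, nat_lit 0, nat_lit 0, nat_lit 0, nat_lit 0, [],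
 ⟨t03_k19, nat_lit 0, nat_lit 0, nat_lit 667, nat_lit 0, nat_lit 1344085, [nat_lit 2032000001, nat_lit 4688000000, nat_lit 6250000000], [], [nat_lit 32811877102, nat_lit 32880433798, nat_lit 33717779400, nat_lit 33786722213], nat_lit 1271250, nat_lit 1271250, nat_lit 1100001, nat_lit 1785000, nat_lit 0, nat_lit 0, [nat_lit 490000, nat_lit 1100000, nat_lit 1442500], [nat_lit 6, nat_lit 40, nat_lit 80, nat_lit 80, nat_lit 3, nat_lit 272, nat_lit 60, nat_lit 10]⟩, ⟨t03_k21, nat_lit 0, nat_lit 0, nat_lit 0, nat_lit 0, nat_lit 0, [nat_lit 3282000000, nat_lit 6250000000, nat_lit 7968000000], [], [nat_lit 19645362185, nat_lit 20058002365, nat_lit 23097111073, nat_lit 23593053600], nat_lit 0, nat_lit 0, nat_lit 0, nat_lit 0, nat_lit 0, nat_lit 0, [], [nat_lit 18, nat_lit 40, nat_lit 80, nat_lit 80]⟩,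
 zbF0, []⟩
noncomputable def t03_l28 : Lf2 := ⟨nat_lit 0, nat_lit 10, [nat_lit 0, nat_lit 5, nat_lit 5, nat_lit 20], false, nat_lit 0, nat_lit 0, nat_lit 0, nat_lit 0, ⟨nat_lit 1000, nat_lit 0, nat_lit 0, nat_lit 0, nat_lit 0, nat_lit 0, nat_lit 0, nat_lit 0, nat_lit 0, nat_lit 0, nat_lit 0, nat_lit 0, nat_lit 0, nat_lit 0, nat_lit 0, nat_lit 0, false, false⟩,
 nat_lit 0, nat_lit 8771, nat_lit 0, nat_lit 0, nat_lit 6629, nat_lit 5445, nat_lit 485, nat_lit 0, nat_lit 0, nat_lit 1197, nat_lit 0, nat_lit 0, nat_lit 0, nat_lit 0, nat_lit 0, nat_lit 0, nat_lit 0, nat_lit 0, [],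
 ⟨t03_k23, nat_lit 0, nat_lit 0, nat_lit 664, nat_lit 0, nat_lit 1336826, [nat_lit 2032000001, nat_lit 4688000000, nat_lit 6250000000], [], [nat_lit 32078310756, nat_lit 32112577075, nat_lit 32979481640, nat_lit 33013941193], nat_lit 1271250, nat_lit 1271250, nat_lit 1100001, nat_lit 1785000, nat_lit 0, nat_lit 0, [nat_lit 490000, nat_lit 1100000, nat_lit 1442500], [nat_lit 6, nat_lit 40, nat_lit 80, nat_lit 80, nat_lit 3, nat_lit 272, nat_lit 60, nat_lit 10]⟩, ⟨t03_k21, nat_lit 0, nat_lit 0, nat_lit 0, nat_lit 0, nat_lit 0, [nat_lit 3282000000, nat_lit 6250000000, nat_lit 7968000000], [], [nat_lit 19645362185, nat_lit 20058002365, nat_lit 23097111073, nat_lit 23593053600], nat_lit 0, nat_lit 0, nat_lit 0, nat_lit 0, nat_lit 0, nat_lit 0, [], [nat_lit 18, nat_lit 40, nat_lit 80, nat_lit 80]⟩,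
 zbF0, []⟩
noncomputable def t03_l29 : Lf2 := ⟨nat_lit 0, nat_lit 10, [nat_lit 0, nat_lit 5, nat_lit 5, nat_lit 20], false, nat_lit 0, nat_lit 0, nat_lit 0, nat_lit 0, ⟨nat_lit 1000, nat_lit 0, nat_lit 0, nat_lit 0, nat_lit 0, nat_lit 0, nat_lit 0, nat_lit 0, nat_lit 0, nat_lit 0, nat_lit 0, nat_lit 0, nat_lit 0, nat_lit 0, nat_lit 0, nat_lit 0, false, false⟩,
 nat_lit 0, nat_lit 8609, nat_lit 0, nat_lit 0, nat_lit 6532, nat_lit 5505, nat_lit 1034, nat_lit 0, nat_lit 0, nat_lit 1345, nat_lit 0, nat_lit 0, nat_lit 0, nat_lit 0, nat_lit 0, nat_lit 0, nat_lit 0, nat_lit 0, [],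
 ⟨t03_k24, nat_lit 0, nat_lit 0, nat_lit 660, nat_lit 0, nat_lit 1300392, [nat_lit 2032000001, nat_lit 4688000000, nat_lit 6250000000], [], [nat_lit 30982801887, nat_lit 31059454610, nat_lit 31818141038, nat_lit 31886676876], nat_lit 1271250, nat_lit 1271250, nat_lit 872850, nat_lit 1769250, nat_lit 0, nat_lit 0, [nat_lit 490000, nat_lit 1100000, nat_lit 1442500], [nat_lit 6, nat_lit 40, nat_lit 80, nat_lit 80, nat_lit 3, nat_lit 272, nat_lit 60, nat_lit 10]⟩, ⟨t03_k20, nat_lit 0, nat_lit 0, nat_lit 0, nat_lit 0, nat_lit 0, [nat_lit 3282000000, nat_lit 6250000000, nat_lit 7968000000], [], [nat_lit 19075962306, nat_lit 19509456310, nat_lit 22683187405, nat_lit 23182414903], nat_lit 0, nat_lit 0, nat_lit 0, nat_lit 0, nat_lit 0, nat_lit 0, [], [nat_lit 18, nat_lit 40, nat_lit 80, nat_lit 80]⟩,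
 zbF0, [⟨nat_lit 0, nat_lit 85, nat_lit 81, nat_lit 100, nat_lit 401648455⟩]⟩
noncomputable def t03_l30 : Lf2 := ⟨nat_lit 0, nat_lit 10, [nat_lit 0, nat_lit 5, nat_lit 5, nat_lit 20], false, nat_lit 0, nat_lit 0, nat_lit 0, nat_lit 0, ⟨nat_lit 1000, nat_lit 0, nat_lit 0, nat_lit 0, nat_lit 0, nat_lit 0, nat_lit 0, nat_lit 0, nat_lit 0, nat_lit 0, nat_lit 0, nat_lit 0, nat_lit 0, nat_lit 0, nat_lit 0, nat_lit 0, false, false⟩,
 nat_lit 0, nat_lit 8739, nat_lit 0, nat_lit 0, nat_lit 6631, nat_lit 5371, nat_lit 1244, nat_lit 0, nat_lit 0, nat_lit 1203, nat_lit 0, nat_lit 0, nat_lit 0, nat_lit 0, nat_lit 0, nat_lit 0, nat_lit 0, nat_lit 0, [],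
 ⟨t03_k24, nat_lit 0, nat_lit 0, nat_lit 674, nat_lit 0, nat_lit 1343452, [nat_lit 2032000001, nat_lit 4688000000, nat_lit 6250000000], [], [nat_lit 29959113552, nat_lit 30029720740, nat_lit 30793985751, nat_lit 30862912758], nat_lit 1271250, nat_lit 1271250, nat_lit 936251, nat_lit 1773750, nat_lit 0, nat_lit 0, [nat_lit 490000, nat_lit 1100000, nat_lit 1442500], [nat_lit 6, nat_lit 40, nat_lit 80, nat_lit 80, nat_lit 3, nat_lit 272, nat_lit 60, nat_lit 10]⟩, ⟨t03_k21, nat_lit 0, nat_lit 0, nat_lit 0, nat_lit 0, nat_lit 0, [nat_lit 3282000000, nat_lit 6250000000, nat_lit 7968000000], [], [nat_lit 19525001808, nat_lit 19947169081, nat_lit 22991903016, nat_lit 23483794080], nat_lit 0, nat_lit 0, nat_lit 0, nat_lit 0, nat_lit 0, nat_lit 0, [], [nat_lit 18, nat_lit 40, nat_lit 80, nat_lit 80]⟩,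
 zbF0, [⟨nat_lit 0, nat_lit 83, nat_lit 81, nat_lit 100, nat_lit 388243798⟩]⟩
noncomputable def t03_l31 : Lf2 := ⟨nat_lit 0, nat_lit 10, [nat_lit 0, nat_lit 5, nat_lit 5, nat_lit 20], false, nat_lit 0, nat_lit 0, nat_lit 0, nat_lit 0, ⟨nat_lit 1000, nat_lit 0, nat_lit 0, nat_lit 0, nat_lit 0, nat_lit 0, nat_lit 0, nat_lit 0, nat_lit 0, nat_lit 0, nat_lit 0, nat_lit 0, nat_lit 0, nat_lit 0, nat_lit 0, nat_lit 0, false, false⟩,
 nat_lit 0, nat_lit 9033, nat_lit 0, nat_lit 0, nat_lit 6907, nat_lit 5382, nat_lit 1345, nat_lit 0, nat_lit 0, nat_lit 1195, nat_lit 0, nat_lit 0, nat_lit 0, nat_lit 0, nat_lit 0, nat_lit 0, nat_lit 0, nat_lit 0, [],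
 ⟨t03_k25, nat_lit 0, nat_lit 0, nat_lit 688, nat_lit 0, nat_lit 1363784, [nat_lit 2032000001, nat_lit 4688000000, nat_lit 6250000000], [], [nat_lit 26064690793, nat_lit 26275413811, nat_lit 26841946126, nat_lit 27016989972], nat_lit 1271250, nat_lit 1271250, nat_lit 904401, nat_lit 1771500, nat_lit 0, nat_lit 0, [nat_lit 490000, nat_lit 1100000, nat_lit 1442500], [nat_lit 6, nat_lit 40, nat_lit 80, nat_lit 80, nat_lit 3, nat_lit 272, nat_lit 60, nat_lit 10]⟩, ⟨t03_k20, nat_lit 0, nat_lit 0, nat_lit 0, nat_lit 0, nat_lit 0, [nat_lit 3282000000, nat_lit 6250000000, nat_lit 7968000000], [], [nat_lit 19664579264, nat_lit 20507101343, nat_lit 22749713295, nat_lit 23501509253], nat_lit 0, nat_lit 0, nat_lit 0, nat_lit 0, nat_lit 0, nat_lit 0, [], [nat_lit 18, nat_lit 40, nat_lit 80, nat_lit 80]⟩,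
 zbF0, [⟨nat_lit 0, nat_lit 82, nat_lit 78, nat_lit 100, nat_lit 466364308⟩]⟩
noncomputable def t03_l32 : Lf2 := ⟨nat_lit 0, nat_lit 10, [nat_lit 0, nat_lit 5, nat_lit 5, nat_lit 20], false, nat_lit 0, nat_lit 0, nat_lit 0, nat_lit 0, ⟨nat_lit 1000, nat_lit 0, nat_lit 0, nat_lit 0, nat_lit 0, nat_lit 0, nat_lit 0, nat_lit 0, nat_lit 0, nat_lit 0, nat_lit 0, nat_lit 0, nat_lit 0, nat_lit 0, nat_lit 0, nat_lit 0, false, false⟩,
 nat_lit 0, nat_lit 6975, nat_lit 0, nat_lit 0, nat_lit 5437, nat_lit 5061, nat_lit 1892, nat_lit 0, nat_lit 0, nat_lit 1055, nat_lit 0, nat_lit 0, nat_lit 0, nat_lit 0, nat_lit 0, nat_lit 0, nat_lit 0, nat_lit 0, [],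
 ⟨t03_k26, nat_lit 0, nat_lit 0, nat_lit 718, nat_lit 0, nat_lit 1397554, [nat_lit 2032000001, nat_lit 4688000000, nat_lit 6250000000], [], [nat_lit 24136976691, nat_lit 24539941790, nat_lit 25405501615, nat_lit 25736214663], nat_lit 1271250, nat_lit 1271250, nat_lit 719601, nat_lit 1758000, nat_lit 0, nat_lit 0, [nat_lit 490000, nat_lit 1100000, nat_lit 1442500], [nat_lit 6, nat_lit 40, nat_lit 80, nat_lit 80, nat_lit 3, nat_lit 272, nat_lit 60, nat_lit 10]⟩, ⟨t03_k27, nat_lit 0, nat_lit 0, nat_lit 0, nat_lit 0, nat_lit 0, [nat_lit 3282000000, nat_lit 6250000000, nat_lit 9842000000], [], [nat_lit 22006222623, nat_lit 24813255084, nat_lit 24848952795, nat_lit 27106350848], nat_lit 0, nat_lit 0, nat_lit 0, nat_lit 0, nat_lit 0, nat_lit 0, [], [nat_lit 8, nat_lit 40, nat_lit 80, nat_lit 80]⟩,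
 zbF0, [⟨nat_lit 0, nat_lit 81, nat_lit 72, nat_lit 100, nat_lit 588523472⟩]⟩
noncomputable def t03_l33 : Lf2 := ⟨nat_lit 0, nat_lit 10, [nat_lit 0, nat_lit 5, nat_lit 5, nat_lit 20], false, nat_lit 0, nat_lit 0, nat_lit 0, nat_lit 0, ⟨nat_lit 1000, nat_lit 0, nat_lit 0, nat_lit 0, nat_lit 0, nat_lit 0, nat_lit 0, nat_lit 0, nat_lit 0, nat_lit 0, nat_lit 0, nat_lit 0, nat_lit 0, nat_lit 0, nat_lit 0, nat_lit 0, false, false⟩,
 nat_lit 0, nat_lit 6912, nat_lit 0, nat_lit 0, nat_lit 5595, nat_lit 5325, nat_lit 1023, nat_lit 0, nat_lit 0, nat_lit 1229, nat_lit 0, nat_lit 0, nat_lit 0, nat_lit 0, nat_lit 0, nat_lit 0, nat_lit 0, nat_lit 0, [],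
 ⟨t03_k28, nat_lit 0, nat_lit 0, nat_lit 859, nat_lit 0, nat_lit 1731111, [nat_lit 2032000001, nat_lit 4688000000, nat_lit 6250000000], [], [nat_lit 26382025635, nat_lit 27134599223, nat_lit 27570645010, nat_lit 28199471730], nat_lit 1271250, nat_lit 1271250, nat_lit 810650, nat_lit 1764750, nat_lit 0, nat_lit 0, [nat_lit 490000, nat_lit 1100000, nat_lit 1442500], [nat_lit 6, nat_lit 40, nat_lit 80, nat_lit 80, nat_lit 3, nat_lit 290, nat_lit 60, nat_lit 11]⟩, ⟨t03_k27, nat_lit 0, nat_lit 0, nat_lit 0, nat_lit 0, nat_lit 0, [nat_lit 3282000000, nat_lit 6250000000, nat_lit 9842000000], [], [nat_lit 20765377030, nat_lit 23853492790, nat_lit 24121652700, nat_lit 26886905600], nat_lit 0, nat_lit 0, nat_lit 0, nat_lit 0, nat_lit 0, nat_lit 0, [], [nat_lit 8, nat_lit 40, nat_lit 80, nat_lit 80]⟩,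
 zbF0, [⟨nat_lit 0, nat_lit 80, nat_lit 60, nat_lit 100, nat_lit 600186951⟩]⟩
noncomputable def t03_l34 : Lf2 := ⟨nat_lit 3, nat_lit 10, [nat_lit 0, nat_lit 5, nat_lit 5, nat_lit 20], false, nat_lit 0, nat_lit 0, nat_lit 0, nat_lit 0, zbN0,
 nat_lit 0, nat_lit 0, nat_lit 0, nat_lit 0, nat_lit 0, nat_lit 0, nat_lit 0, nat_lit 0, nat_lit 0, nat_lit 0, nat_lit 0, nat_lit 0, nat_lit 0, nat_lit 0, nat_lit 0, nat_lit 0, nat_lit 0, nat_lit 0, [],
 C1.Rw.none, ⟨t03_k27, nat_lit 0, nat_lit 0, nat_lit 219, nat_lit 0, nat_lit 0, [], [], [], nat_lit 0, nat_lit 0, nat_lit 0, nat_lit 0, nat_lit 0, nat_lit 0, [], [nat_lit 8, nat_lit 40, nat_lit 80, nat_lit 80, nat_lit 1, nat_lit 317, nat_lit 100, nat_lit 9]⟩,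
 zbF0, []⟩
noncomputable def t03_l35 : Lf2 := ⟨nat_lit 0, nat_lit 1, [nat_lit 19, nat_lit 5, nat_lit 5, nat_lit 20], false, nat_lit 0, nat_lit 0, nat_lit 0, nat_lit 0, ⟨nat_lit 1000, nat_lit 0, nat_lit 0, nat_lit 0, nat_lit 0, nat_lit 0, nat_lit 0, nat_lit 0, nat_lit 0, nat_lit 0, nat_lit 0, nat_lit 0, nat_lit 0, nat_lit 0, nat_lit 0, nat_lit 0, false, false⟩,
 nat_lit 0, nat_lit 9049, nat_lit 0, nat_lit 0, nat_lit 6786, nat_lit 4829, nat_lit 0, nat_lit 0, nat_lit 0, nat_lit 2446, nat_lit 0, nat_lit 0, nat_lit 0, nat_lit 0, nat_lit 0, nat_lit 0, nat_lit 0, nat_lit 0, [],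
 ⟨t03_k0, nat_lit 0, nat_lit 0, nat_lit 615, nat_lit 0, nat_lit 1562382, [nat_lit 2032000001, nat_lit 3282000000], [], [nat_lit 25063660841, nat_lit 25267922943, nat_lit 26033583873, nat_lit 26200362478], nat_lit 1271250, nat_lit 1271250, nat_lit 780000, nat_lit 1762500, nat_lit 0, nat_lit 0, [nat_lit 490000, nat_lit 780000], [nat_lit 112, nat_lit 40, nat_lit 80, nat_lit 80, nat_lit 113, nat_lit 225, nat_lit 0, nat_lit 13]⟩, ⟨t03_k1, nat_lit 0, nat_lit 0, nat_lit 0, nat_lit 0, nat_lit 0, [nat_lit 3282000000, nat_lit 4688000000], [], [nat_lit 17251261434, nat_lit 19134892426, nat_lit 21243819866, nat_lit 22748358196], nat_lit 0, nat_lit 0, nat_lit 0, nat_lit 0, nat_lit 0, nat_lit 0, [], [nat_lit 40, nat_lit 40, nat_lit 80, nat_lit 80]⟩,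
 zbF0, [⟨nat_lit 0, nat_lit 83, nat_lit 81, nat_lit 100, nat_lit 440720857⟩]⟩
noncomputable def t03_l36 : Lf2 := ⟨nat_lit 0, nat_lit 2, [nat_lit 10, nat_lit 5, nat_lit 5, nat_lit 20], false, nat_lit 0, nat_lit 0, nat_lit 0, nat_lit 0, ⟨nat_lit 1000, nat_lit 0, nat_lit 0, nat_lit 0, nat_lit 0, nat_lit 0, nat_lit 0, nat_lit 0, nat_lit 0, nat_lit 0, nat_lit 0, nat_lit 0, nat_lit 0, nat_lit 0, nat_lit 0, nat_lit 0, false, false⟩,
 nat_lit 0, nat_lit 11307, nat_lit 0, nat_lit 0, nat_lit 8480, nat_lit 5093, nat_lit 0, nat_lit 0, nat_lit 0, nat_lit 2327, nat_lit 0, nat_lit 0, nat_lit 0, nat_lit 0, nat_lit 0, nat_lit 0, nat_lit 0, nat_lit 0, [],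
 ⟨t03_k2, nat_lit 0, nat_lit 0, nat_lit 614, nat_lit 0, nat_lit 1405623, [nat_lit 2032000001, nat_lit 4688000000], [], [nat_lit 24375156800, nat_lit 24484395812, nat_lit 28074170400, nat_lit 28509744409], nat_lit 1271250, nat_lit 1271250, nat_lit 1100001, nat_lit 1785000, nat_lit 0, nat_lit 0, [nat_lit 490000, nat_lit 1100000], [nat_lit 24, nat_lit 40, nat_lit 80, nat_lit 80, nat_lit 33, nat_lit 224, nat_lit 0, nat_lit 10]⟩, ⟨t03_k6, nat_lit 0, nat_lit 0, nat_lit 0, nat_lit 0, nat_lit 0, [nat_lit 3282000000, nat_lit 4688000000], [], [nat_lit 17611553254, nat_lit 18469408450, nat_lit 21166649826, nat_lit 22119991233], nat_lit 0, nat_lit 0, nat_lit 0, nat_lit 0, nat_lit 0, nat_lit 0, [], [nat_lit 40, nat_lit 40, nat_lit 80, nat_lit 80]⟩,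
 zbF0, []⟩
noncomputable def t03_l37 : Lf2 := ⟨nat_lit 0, nat_lit 2, [nat_lit 10, nat_lit 5, nat_lit 5, nat_lit 20], false, nat_lit 0, nat_lit 0, nat_lit 0, nat_lit 0, ⟨nat_lit 1000, nat_lit 0, nat_lit 0, nat_lit 0, nat_lit 0, nat_lit 0, nat_lit 0, nat_lit 0, nat_lit 0, nat_lit 0, nat_lit 0, nat_lit 0, nat_lit 0, nat_lit 0, nat_lit 0, nat_lit 0, false, false⟩,
 nat_lit 0, nat_lit 8383, nat_lit 0, nat_lit 0, nat_lit 6361, nat_lit 6220, nat_lit 3393, nat_lit 0, nat_lit 0, nat_lit 0, nat_lit 0, nat_lit 0, nat_lit 0, nat_lit 0, nat_lit 0, nat_lit 0, nat_lit 0, nat_lit 0, [],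
 ⟨t03_k5, nat_lit 0, nat_lit 0, nat_lit 653, nat_lit 0, nat_lit 1482403, [nat_lit 2032000001, nat_lit 4688000000], [], [nat_lit 21861249335, nat_lit 21944748699, nat_lit 25302601674, nat_lit 25540663269], nat_lit 1271250, nat_lit 1271250, nat_lit 1100001, nat_lit 1785000, nat_lit 0, nat_lit 0, [nat_lit 490000, nat_lit 1100000], [nat_lit 24, nat_lit 40, nat_lit 80, nat_lit 80, nat_lit 33, nat_lit 234, nat_lit 0, nat_lit 10]⟩, ⟨t03_k6, nat_lit 0, nat_lit 0, nat_lit 0, nat_lit 0, nat_lit 0, [nat_lit 3282000000, nat_lit 4688000000], [], [nat_lit 18879534400, nat_lit 21053228800, nat_lit 22587581760, nat_lit 24737325600], nat_lit 0, nat_lit 0, nat_lit 0, nat_lit 0, nat_lit 0, nat_lit 0, [], [nat_lit 40, nat_lit 40, nat_lit 80, nat_lit 80]⟩,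
 zbF0, [⟨nat_lit 13, nat_lit 99, nat_lit 2, nat_lit 100, nat_lit 14813347⟩]⟩
noncomputable def t03_l38 : Lf2 := ⟨nat_lit 0, nat_lit 5, [nat_lit 4, nat_lit 5, nat_lit 5, nat_lit 20], false, nat_lit 0, nat_lit 0, nat_lit 0, nat_lit 0, ⟨nat_lit 1000, nat_lit 0, nat_lit 0, nat_lit 0, nat_lit 0, nat_lit 0, nat_lit 0, nat_lit 0, nat_lit 0, nat_lit 0, nat_lit 0, nat_lit 0, nat_lit 0, nat_lit 0, nat_lit 0, nat_lit 0, false, false⟩,
 nat_lit 0, nat_lit 8630, nat_lit 0, nat_lit 0, nat_lit 6548, nat_lit 5524, nat_lit 4190, nat_lit 0, nat_lit 0, nat_lit 1289, nat_lit 0, nat_lit 0, nat_lit 0, nat_lit 0, nat_lit 0, nat_lit 0, nat_lit 0, nat_lit 0, [],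
 ⟨t03_k14, nat_lit 0, nat_lit 0, nat_lit 596, nat_lit 0, nat_lit 1350195, [nat_lit 2032000001, nat_lit 4688000000], [], [nat_lit 22280684356, nat_lit 22360270414, nat_lit 22234851623, nat_lit 22311244745], nat_lit 1271250, nat_lit 1271250, nat_lit 872850, nat_lit 1100001, nat_lit 0, nat_lit 0, [nat_lit 490000, nat_lit 1100000], [nat_lit 24, nat_lit 40, nat_lit 80, nat_lit 80, nat_lit 33, nat_lit 249, nat_lit 40, nat_lit 11]⟩, ⟨t03_k15, nat_lit 0, nat_lit 0, nat_lit 0, nat_lit 0, nat_lit 0, [nat_lit 3282000000, nat_lit 6250000000], [], [nat_lit 19216890998, nat_lit 20156212459, nat_lit 19466077391, nat_lit 20298281943], nat_lit 0, nat_lit 0, nat_lit 0, nat_lit 0, nat_lit 0, nat_lit 0, [], [nat_lit 49, nat_lit 40, nat_lit 80, nat_lit 80]⟩,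
 zbF0, [⟨nat_lit 0, nat_lit 83, nat_lit 81, nat_lit 100, nat_lit 727825421⟩]⟩
noncomputable def t03_l39 : Lf2 := ⟨nat_lit 0, nat_lit 5, [nat_lit 4, nat_lit 5, nat_lit 5, nat_lit 20], false, nat_lit 0, nat_lit 0, nat_lit 0, nat_lit 0, ⟨nat_lit 1000, nat_lit 0, nat_lit 0, nat_lit 0, nat_lit 0, nat_lit 0, nat_lit 0, nat_lit 0, nat_lit 0, nat_lit 0, nat_lit 0, nat_lit 0, nat_lit 0, nat_lit 0, nat_lit 0, nat_lit 0, false, false⟩,
 nat_lit 0, nat_lit 7782, nat_lit 0, nat_lit 0, nat_lit 5950, nat_lit 5433, nat_lit 2990, nat_lit 0, nat_lit 0, nat_lit 0, nat_lit 0, nat_lit 0, nat_lit 0, nat_lit 0, nat_lit 0, nat_lit 0, nat_lit 0, nat_lit 0, [],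
 ⟨t03_k16, nat_lit 0, nat_lit 0, nat_lit 721, nat_lit 0, nat_lit 1597321, [nat_lit 2032000001, nat_lit 4688000000], [], [nat_lit 24405532503, nat_lit 24582357647, nat_lit 25337612159, nat_lit 25484338509], nat_lit 1271250, nat_lit 1271250, nat_lit 810650, nat_lit 1764750, nat_lit 0, nat_lit 0, [nat_lit 490000, nat_lit 1100000], [nat_lit 24, nat_lit 40, nat_lit 80, nat_lit 80, nat_lit 33, nat_lit 272, nat_lit 60, nat_lit 12]⟩, ⟨t03_k17, nat_lit 0, nat_lit 0, nat_lit 0, nat_lit 0, nat_lit 0, [nat_lit 3282000000, nat_lit 6250000000], [], [nat_lit 22021612916, nat_lit 23762838584, nat_lit 25399530166, nat_lit 26904945632], nat_lit 0, nat_lit 0, nat_lit 0, nat_lit 0, nat_lit 0, nat_lit 0, [], [nat_lit 49, nat_lit 40, nat_lit 80, nat_lit 80]⟩,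
 zbF0, [⟨nat_lit 0, nat_lit 82, nat_lit 78, nat_lit 100, nat_lit 480301973⟩]⟩
noncomputable def t03_l40 : Lf2 := ⟨nat_lit 0, nat_lit 5, [nat_lit 4, nat_lit 5, nat_lit 5, nat_lit 20], false, nat_lit 0, nat_lit 0, nat_lit 0, nat_lit 0, ⟨nat_lit 1000, nat_lit 0, nat_lit 0, nat_lit 0, nat_lit 0, nat_lit 0, nat_lit 0, nat_lit 0, nat_lit 0, nat_lit 0, nat_lit 0, nat_lit 0, nat_lit 0, nat_lit 0, nat_lit 0, nat_lit 0, false, false⟩,
 nat_lit 0, nat_lit 7106, nat_lit 0, nat_lit 0, nat_lit 5539, nat_lit 5453, nat_lit 2233, nat_lit 0, nat_lit 0, nat_lit 451, nat_lit 0, nat_lit 0, nat_lit 0, nat_lit 0, nat_lit 0, nat_lit 0, nat_lit 0, nat_lit 0, [],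
 ⟨t03_k18, nat_lit 0, nat_lit 0, nat_lit 729, nat_lit 0, nat_lit 1623169, [nat_lit 2032000001, nat_lit 4688000000], [], [nat_lit 24320729766, nat_lit 24710044928, nat_lit 25586433431, nat_lit 25914900184], nat_lit 1271250, nat_lit 1271250, nat_lit 872850, nat_lit 1769250, nat_lit 0, nat_lit 0, [nat_lit 490000, nat_lit 1100000], [nat_lit 24, nat_lit 40, nat_lit 80, nat_lit 80, nat_lit 33, nat_lit 272, nat_lit 60, nat_lit 12]⟩, ⟨t03_k17, nat_lit 0, nat_lit 0, nat_lit 0, nat_lit 0, nat_lit 0, [nat_lit 3282000000, nat_lit 6250000000], [], [nat_lit 21225795585, nat_lit 22950118688, nat_lit 24521822831, nat_lit 26050122337], nat_lit 0, nat_lit 0, nat_lit 0, nat_lit 0, nat_lit 0, nat_lit 0, [], [nat_lit 49, nat_lit 40, nat_lit 80, nat_lit 80]⟩,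
 zbF0, [⟨nat_lit 0, nat_lit 81, nat_lit 72, nat_lit 100, nat_lit 470030341⟩]⟩
noncomputable def t03_l41 : Lf2 := ⟨nat_lit 0, nat_lit 10, [nat_lit 0, nat_lit 5, nat_lit 5, nat_lit 20], false, nat_lit 0, nat_lit 0, nat_lit 0, nat_lit 0, ⟨nat_lit 1000, nat_lit 0, nat_lit 0, nat_lit 0, nat_lit 0, nat_lit 0, nat_lit 0, nat_lit 0, nat_lit 0, nat_lit 0, nat_lit 0, nat_lit 0, nat_lit 0, nat_lit 0, nat_lit 0, nat_lit 0, false, false⟩,
 nat_lit 0, nat_lit 8529, nat_lit 0, nat_lit 0, nat_lit 6396, nat_lit 5575, nat_lit 502, nat_lit 0, nat_lit 0, nat_lit 1249, nat_lit 0, nat_lit 0, nat_lit 0, nat_lit 0, nat_lit 0, nat_lit 0, nat_lit 0, nat_lit 0, [],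
 ⟨t03_k19, nat_lit 0, nat_lit 0, nat_lit 611, nat_lit 0, nat_lit 1177935, [nat_lit 2032000001, nat_lit 4688000000, nat_lit 6250000000], [], [nat_lit 31619967031, nat_lit 31748972895, nat_lit 31602207010, nat_lit 31724619829], nat_lit 1271250, nat_lit 1271250, nat_lit 872850, nat_lit 1100001, nat_lit 0, nat_lit 0, [nat_lit 490000, nat_lit 1100000, nat_lit 1442500], [nat_lit 6, nat_lit 40, nat_lit 80, nat_lit 80, nat_lit 3, nat_lit 249, nat_lit 40, nat_lit 9]⟩, ⟨t03_k20, nat_lit 0, nat_lit 0, nat_lit 0, nat_lit 0, nat_lit 0, [nat_lit 3282000000, nat_lit 6250000000, nat_lit 7968000000], [], [nat_lit 19343047038, nat_lit 19788234208, nat_lit 19527176675, nat_lit 19945513975], nat_lit 0, nat_lit 0, nat_lit 0, nat_lit 0, nat_lit 0, nat_lit 0, [], [nat_lit 18, nat_lit 40, nat_lit 80, nat_lit 80]⟩,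
 zbF0, [⟨nat_lit 0, nat_lit 86, nat_lit 82, nat_lit 100, nat_lit 689576399⟩]⟩
noncomputable def t03_l42 : Lf2 := ⟨nat_lit 0, nat_lit 10, [nat_lit 0, nat_lit 5, nat_lit 5, nat_lit 20], false, nat_lit 0, nat_lit 0, nat_lit 0, nat_lit 0, ⟨nat_lit 1000, nat_lit 0, nat_lit 0, nat_lit 0, nat_lit 0, nat_lit 0, nat_lit 0, nat_lit 0, nat_lit 0, nat_lit 0, nat_lit 0, nat_lit 0, nat_lit 0, nat_lit 0, nat_lit 0, nat_lit 0, false, false⟩,
 nat_lit 0, nat_lit 11099, nat_lit 0, nat_lit 0, nat_lit 8323, nat_lit 5378, nat_lit 448, nat_lit 0, nat_lit 0, nat_lit 1211, nat_lit 0, nat_lit 0, nat_lit 0, nat_lit 0, nat_lit 0, nat_lit 0, nat_lit 0, nat_lit 0, [],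
 ⟨t03_k19, nat_lit 0, nat_lit 0, nat_lit 620, nat_lit 0, nat_lit 1203484, [nat_lit 2032000001, nat_lit 4688000000, nat_lit 6250000000], [], [nat_lit 24470554044, nat_lit 24598932790, nat_lit 24253821780, nat_lit 24378616140], nat_lit 1271250, nat_lit 1271250, nat_lit 904401, nat_lit 1100001, nat_lit 0, nat_lit 0, [nat_lit 490000, nat_lit 1100000, nat_lit 1442500], [nat_lit 6, nat_lit 40, nat_lit 80, nat_lit 80, nat_lit 3, nat_lit 249, nat_lit 40, nat_lit 9]⟩, ⟨t03_k21, nat_lit 0, nat_lit 0, nat_lit 0, nat_lit 0, nat_lit 0, [nat_lit 3282000000, nat_lit 6250000000, nat_lit 7968000000], [], [nat_lit 19457308765, nat_lit 19712602376, nat_lit 19664924099, nat_lit 19910746483], nat_lit 0, nat_lit 0, nat_lit 0, nat_lit 0, nat_lit 0, nat_lit 0, [], [nat_lit 18, nat_lit 40, nat_lit 80, nat_lit 80]⟩,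
 zbF0, [⟨nat_lit 0, nat_lit 84, nat_lit 82, nat_lit 100, nat_lit 743125331⟩]⟩
noncomputable def t03_l43 : Lf2 := ⟨nat_lit 0, nat_lit 10, [nat_lit 0, nat_lit 5, nat_lit 5, nat_lit 20], false, nat_lit 0, nat_lit 0, nat_lit 0, nat_lit 0, ⟨nat_lit 1000, nat_lit 0, nat_lit 0, nat_lit 0, nat_lit 0, nat_lit 0, nat_lit 0, nat_lit 0, nat_lit 0, nat_lit 0, nat_lit 0, nat_lit 0, nat_lit 0, nat_lit 0, nat_lit 0, nat_lit 0, false, false⟩,
 nat_lit 0, nat_lit 11102, nat_lit 0, nat_lit 0, nat_lit 8326, nat_lit 5274, nat_lit 448, nat_lit 0, nat_lit 0, nat_lit 1180, nat_lit 0, nat_lit 0, nat_lit 0, nat_lit 0, nat_lit 0, nat_lit 0, nat_lit 0, nat_lit 0, [],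
 ⟨t03_k19, nat_lit 0, nat_lit 0, nat_lit 625, nat_lit 0, nat_lit 1220716, [nat_lit 2032000001, nat_lit 4688000000, nat_lit 6250000000], [], [nat_lit 24419237000, nat_lit 24546829002, nat_lit 24238440360, nat_lit 24363436883], nat_lit 1271250, nat_lit 1271250, nat_lit 936251, nat_lit 1100001, nat_lit 0, nat_lit 0, [nat_lit 490000, nat_lit 1100000, nat_lit 1442500], [nat_lit 6, nat_lit 40, nat_lit 80, nat_lit 80, nat_lit 3, nat_lit 249, nat_lit 40, nat_lit 9]⟩, ⟨t03_k22, nat_lit 0, nat_lit 0, nat_lit 0, nat_lit 0, nat_lit 0, [nat_lit 3282000000, nat_lit 6250000000, nat_lit 7968000000], [], [nat_lit 19662442006, nat_lit 19815221474, nat_lit 19782089573, nat_lit 19930346240], nat_lit 0, nat_lit 0, nat_lit 0, nat_lit 0, nat_lit 0, nat_lit 0, [], [nat_lit 18, nat_lit 40, nat_lit 80, nat_lit 80]⟩,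
 zbF0, [⟨nat_lit 0, nat_lit 83, nat_lit 82, nat_lit 100, nat_lit 766794977⟩]⟩
noncomputable def t03_l44 : Lf2 := ⟨nat_lit 0, nat_lit 10, [nat_lit 0, nat_lit 5, nat_lit 5, nat_lit 20], false, nat_lit 0, nat_lit 0, nat_lit 0, nat_lit 0, ⟨nat_lit 1000, nat_lit 0, nat_lit 0, nat_lit 0, nat_lit 0, nat_lit 0, nat_lit 0, nat_lit 0, nat_lit 0, nat_lit 0, nat_lit 0, nat_lit 0, nat_lit 0, nat_lit 0, nat_lit 0, nat_lit 0, false, false⟩,
 nat_lit 0, nat_lit 8704, nat_lit 0, nat_lit 0, nat_lit 6528, nat_lit 5575, nat_lit 475, nat_lit 0, nat_lit 0, nat_lit 1362, nat_lit 0, nat_lit 0, nat_lit 0, nat_lit 0, nat_lit 0, nat_lit 0, nat_lit 0, nat_lit 0, [],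
 ⟨t03_k19, nat_lit 0, nat_lit 0, nat_lit 652, nat_lit 0, nat_lit 1306962, [nat_lit 2032000001, nat_lit 4688000000, nat_lit 6250000000], [], [nat_lit 33350578241, nat_lit 33460903606, nat_lit 34269253120, nat_lit 34372033171], nat_lit 1271250, nat_lit 1271250, nat_lit 1100001, nat_lit 1785000, nat_lit 0, nat_lit 0, [nat_lit 490000, nat_lit 1100000, nat_lit 1442500], [nat_lit 6, nat_lit 40, nat_lit 80, nat_lit 80, nat_lit 3, nat_lit 272, nat_lit 60, nat_lit 10]⟩, ⟨t03_k20, nat_lit 0, nat_lit 0, nat_lit 0, nat_lit 0, nat_lit 0, [nat_lit 3282000000, nat_lit 6250000000, nat_lit 7968000000], [], [nat_lit 19206186050, nat_lit 19624523350, nat_lit 22778876075, nat_lit 23281936038], nat_lit 0, nat_lit 0, nat_lit 0, nat_lit 0, nat_lit 0, nat_lit 0, [], [nat_lit 18, nat_lit 40, nat_lit 80, nat_lit 80]⟩,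
 zbF0, []⟩
noncomputable def t03_l45 : Lf2 := ⟨nat_lit 0, nat_lit 10, [nat_lit 0, nat_lit 5, nat_lit 5, nat_lit 20], false, nat_lit 0, nat_lit 0, nat_lit 0, nat_lit 0, ⟨nat_lit 1000, nat_lit 0, nat_lit 0, nat_lit 0, nat_lit 0, nat_lit 0, nat_lit 0, nat_lit 0, nat_lit 0, nat_lit 0, nat_lit 0, nat_lit 0, nat_lit 0, nat_lit 0, nat_lit 0, nat_lit 0, false, false⟩,
 nat_lit 0, nat_lit 8848, nat_lit 0, nat_lit 0, nat_lit 6635, nat_lit 5445, nat_lit 474, nat_lit 0, nat_lit 0, nat_lit 1197, nat_lit 0, nat_lit 0, nat_lit 0, nat_lit 0, nat_lit 0, nat_lit 0, nat_lit 0, nat_lit 0, [],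
 ⟨t03_k19, nat_lit 0, nat_lit 0, nat_lit 667, nat_lit 0, nat_lit 1344085, [nat_lit 2032000001, nat_lit 4688000000, nat_lit 6250000000], [], [nat_lit 32811877102, nat_lit 32880433798, nat_lit 33717779400, nat_lit 33786722213], nat_lit 1271250, nat_lit 1271250, nat_lit 1100001, nat_lit 1785000, nat_lit 0, nat_lit 0, [nat_lit 490000, nat_lit 1100000, nat_lit 1442500], [nat_lit 6, nat_lit 40, nat_lit 80, nat_lit 80, nat_lit 3, nat_lit 272, nat_lit 60, nat_lit 10]⟩, ⟨t03_k21, nat_lit 0, nat_lit 0, nat_lit 0, nat_lit 0, nat_lit 0, [nat_lit 3282000000, nat_lit 6250000000, nat_lit 7968000000], [], [nat_lit 19645362185, nat_lit 20058002365, nat_lit 23097111073, nat_lit 23593053600], nat_lit 0, nat_lit 0, nat_lit 0, nat_lit 0, nat_lit 0, nat_lit 0, [], [nat_lit 18, nat_lit 40, nat_lit 80, nat_lit 80]⟩,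
 zbF0, []⟩
noncomputable def t03_l46 : Lf2 := ⟨nat_lit 0, nat_lit 10, [nat_lit 0, nat_lit 5, nat_lit 5, nat_lit 20], false, nat_lit 0, nat_lit 0, nat_lit 0, nat_lit 0, ⟨nat_lit 1000, nat_lit 0, nat_lit 0, nat_lit 0, nat_lit 0, nat_lit 0, nat_lit 0, nat_lit 0, nat_lit 0, nat_lit 0, nat_lit 0, nat_lit 0, nat_lit 0, nat_lit 0, nat_lit 0, nat_lit 0, false, false⟩,
 nat_lit 0, nat_lit 8771, nat_lit 0, nat_lit 0, nat_lit 6629, nat_lit 5445, nat_lit 485, nat_lit 0, nat_lit 0, nat_lit 1197, nat_lit 0, nat_lit 0, nat_lit 0, nat_lit 0, nat_lit 0, nat_lit 0, nat_lit 0, nat_lit 0, [],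
 ⟨t03_k23, nat_lit 0, nat_lit 0, nat_lit 664, nat_lit 0, nat_lit 1336826, [nat_lit 2032000001, nat_lit 4688000000, nat_lit 6250000000], [], [nat_lit 32078310756, nat_lit 32112577075, nat_lit 32979481640, nat_lit 33013941193], nat_lit 1271250, nat_lit 1271250, nat_lit 1100001, nat_lit 1785000, nat_lit 0, nat_lit 0, [nat_lit 490000, nat_lit 1100000, nat_lit 1442500], [nat_lit 6, nat_lit 40, nat_lit 80, nat_lit 80, nat_lit 3, nat_lit 272, nat_lit 60, nat_lit 10]⟩, ⟨t03_k21, nat_lit 0, nat_lit 0, nat_lit 0, nat_lit 0, nat_lit 0, [nat_lit 3282000000, nat_lit 6250000000, nat_lit 7968000000], [], [nat_lit 19645362185, nat_lit 20058002365, nat_lit 23097111073, nat_lit 23593053600], nat_lit 0, nat_lit 0, nat_lit 0, nat_lit 0, nat_lit 0, nat_lit 0, [], [nat_lit 18, nat_lit 40, nat_lit 80, nat_lit 80]⟩,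
 zbF0, []⟩
noncomputable def t03_l47 : Lf2 := ⟨nat_lit 0, nat_lit 10, [nat_lit 0, nat_lit 5, nat_lit 5, nat_lit 20], false, nat_lit 0, nat_lit 0, nat_lit 0, nat_lit 0, ⟨nat_lit 1000, nat_lit 0, nat_lit 0, nat_lit 0, nat_lit 0, nat_lit 0, nat_lit 0, nat_lit 0, nat_lit 0, nat_lit 0, nat_lit 0, nat_lit 0, nat_lit 0, nat_lit 0, nat_lit 0, nat_lit 0, false, false⟩,
 nat_lit 0, nat_lit 8609, nat_lit 0, nat_lit 0, nat_lit 6532, nat_lit 5505, nat_lit 1034, nat_lit 0, nat_lit 0, nat_lit 1345, nat_lit 0, nat_lit 0, nat_lit 0, nat_lit 0, nat_lit 0, nat_lit 0, nat_lit 0, nat_lit 0, [],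
 ⟨t03_k24, nat_lit 0, nat_lit 0, nat_lit 660, nat_lit 0, nat_lit 1300392, [nat_lit 2032000001, nat_lit 4688000000, nat_lit 6250000000], [], [nat_lit 30982801887, nat_lit 31059454610, nat_lit 31818141038, nat_lit 31886676876], nat_lit 1271250, nat_lit 1271250, nat_lit 872850, nat_lit 1769250, nat_lit 0, nat_lit 0, [nat_lit 490000, nat_lit 1100000, nat_lit 1442500], [nat_lit 6, nat_lit 40, nat_lit 80, nat_lit 80, nat_lit 3, nat_lit 272, nat_lit 60, nat_lit 10]⟩, ⟨t03_k20, nat_lit 0, nat_lit 0, nat_lit 0, nat_lit 0, nat_lit 0, [nat_lit 3282000000, nat_lit 6250000000, nat_lit 7968000000], [], [nat_lit 19075962306, nat_lit 19509456310, nat_lit 22683187405, nat_lit 23182414903], nat_lit 0, nat_lit 0, nat_lit 0, nat_lit 0, nat_lit 0, nat_lit 0, [], [nat_lit 18, nat_lit 40, nat_lit 80, nat_lit 80]⟩,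
 zbF0, [⟨nat_lit 0, nat_lit 85, nat_lit 81, nat_lit 100, nat_lit 401648455⟩]⟩
noncomputable def t03_l48 : Lf2 := ⟨nat_lit 0, nat_lit 10, [nat_lit 0, nat_lit 5, nat_lit 5, nat_lit 20], false, nat_lit 0, nat_lit 0, nat_lit 0, nat_lit 0, ⟨nat_lit 1000, nat_lit 0, nat_lit 0, nat_lit 0, nat_lit 0, nat_lit 0, nat_lit 0, nat_lit 0, nat_lit 0, nat_lit 0, nat_lit 0, nat_lit 0, nat_lit 0, nat_lit 0, nat_lit 0, nat_lit 0, false, false⟩,
 nat_lit 0, nat_lit 8739, nat_lit 0, nat_lit 0, nat_lit 6631, nat_lit 5371, nat_lit 1244, nat_lit 0, nat_lit 0, nat_lit 1203, nat_lit 0, nat_lit 0, nat_lit 0, nat_lit 0, nat_lit 0, nat_lit 0, nat_lit 0, nat_lit 0, [],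
 ⟨t03_k24, nat_lit 0, nat_lit 0, nat_lit 674, nat_lit 0, nat_lit 1343452, [nat_lit 2032000001, nat_lit 4688000000, nat_lit 6250000000], [], [nat_lit 29959113552, nat_lit 30029720740, nat_lit 30793985751, nat_lit 30862912758], nat_lit 1271250, nat_lit 1271250, nat_lit 936251, nat_lit 1773750, nat_lit 0, nat_lit 0, [nat_lit 490000, nat_lit 1100000, nat_lit 1442500], [nat_lit 6, nat_lit 40, nat_lit 80, nat_lit 80, nat_lit 3, nat_lit 272, nat_lit 60, nat_lit 10]⟩, ⟨t03_k21, nat_lit 0, nat_lit 0, nat_lit 0, nat_lit 0, nat_lit 0, [nat_lit 3282000000, nat_lit 6250000000, nat_lit 7968000000], [], [nat_lit 19525001808, nat_lit 19947169081, nat_lit 22991903016, nat_lit 23483794080], nat_lit 0, nat_lit 0, nat_lit 0, nat_lit 0, nat_lit 0, nat_lit 0, [], [nat_lit 18, nat_lit 40, nat_lit 80, nat_lit 80]⟩,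
 zbF0, [⟨nat_lit 0, nat_lit 83, nat_lit 81, nat_lit 100, nat_lit 388243798⟩]⟩
noncomputable def t03_l49 : Lf2 := ⟨nat_lit 0, nat_lit 10, [nat_lit 0, nat_lit 5, nat_lit 5, nat_lit 20], false, nat_lit 0, nat_lit 0, nat_lit 0, nat_lit 0, ⟨nat_lit 1000, nat_lit 0, nat_lit 0, nat_lit 0, nat_lit 0, nat_lit 0, nat_lit 0, nat_lit 0, nat_lit 0, nat_lit 0, nat_lit 0, nat_lit 0, nat_lit 0, nat_lit 0, nat_lit 0, nat_lit 0, false, false⟩,
 nat_lit 0, nat_lit 9033, nat_lit 0, nat_lit 0, nat_lit 6907, nat_lit 5382, nat_lit 1345, nat_lit 0, nat_lit 0, nat_lit 1195, nat_lit 0, nat_lit 0, nat_lit 0, nat_lit 0, nat_lit 0, nat_lit 0, nat_lit 0, nat_lit 0, [],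
 ⟨t03_k25, nat_lit 0, nat_lit 0, nat_lit 688, nat_lit 0, nat_lit 1363784, [nat_lit 2032000001, nat_lit 4688000000, nat_lit 6250000000], [], [nat_lit 26064690793, nat_lit 26275413811, nat_lit 26841946126, nat_lit 27016989972], nat_lit 1271250, nat_lit 1271250, nat_lit 904401, nat_lit 1771500, nat_lit 0, nat_lit 0, [nat_lit 490000, nat_lit 1100000, nat_lit 1442500], [nat_lit 6, nat_lit 40, nat_lit 80, nat_lit 80, nat_lit 3, nat_lit 272, nat_lit 60, nat_lit 10]⟩, ⟨t03_k20, nat_lit 0, nat_lit 0, nat_lit 0, nat_lit 0, nat_lit 0, [nat_lit 3282000000, nat_lit 6250000000, nat_lit 7968000000], [], [nat_lit 19664579264, nat_lit 20507101343, nat_lit 22749713295, nat_lit 23501509253], nat_lit 0, nat_lit 0, nat_lit 0, nat_lit 0, nat_lit 0, nat_lit 0, [], [nat_lit 18, nat_lit 40, nat_lit 80, nat_lit 80]⟩,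
 zbF0, [⟨nat_lit 0, nat_lit 82, nat_lit 78, nat_lit 100, nat_lit 466364308⟩]⟩
noncomputable def t03_l50 : Lf2 := ⟨nat_lit 0, nat_lit 10, [nat_lit 0, nat_lit 5, nat_lit 5, nat_lit 20], false, nat_lit 0, nat_lit 0, nat_lit 0, nat_lit 0, ⟨nat_lit 1000, nat_lit 0, nat_lit 0, nat_lit 0, nat_lit 0, nat_lit 0, nat_lit 0, nat_lit 0, nat_lit 0, nat_lit 0, nat_lit 0, nat_lit 0, nat_lit 0, nat_lit 0, nat_lit 0, nat_lit 0, false, false⟩,
 nat_lit 0, nat_lit 6975, nat_lit 0, nat_lit 0, nat_lit 5437, nat_lit 5061, nat_lit 1892, nat_lit 0, nat_lit 0, nat_lit 1055, nat_lit 0, nat_lit 0, nat_lit 0, nat_lit 0, nat_lit 0, nat_lit 0, nat_lit 0, nat_lit 0, [],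
 ⟨t03_k26, nat_lit 0, nat_lit 0, nat_lit 718, nat_lit 0, nat_lit 1397554, [nat_lit 2032000001, nat_lit 4688000000, nat_lit 6250000000], [], [nat_lit 24136976691, nat_lit 24539941790, nat_lit 25405501615, nat_lit 25736214663], nat_lit 1271250, nat_lit 1271250, nat_lit 719601, nat_lit 1758000, nat_lit 0, nat_lit 0, [nat_lit 490000, nat_lit 1100000, nat_lit 1442500], [nat_lit 6, nat_lit 40, nat_lit 80, nat_lit 80, nat_lit 3, nat_lit 272, nat_lit 60, nat_lit 10]⟩, ⟨t03_k27, nat_lit 0, nat_lit 0, nat_lit 0, nat_lit 0, nat_lit 0, [nat_lit 3282000000, nat_lit 6250000000, nat_lit 9842000000], [], [nat_lit 22006222623, nat_lit 24813255084, nat_lit 24848952795, nat_lit 27106350848], nat_lit 0, nat_lit 0, nat_lit 0, nat_lit 0, nat_lit 0, nat_lit 0, [], [nat_lit 8, nat_lit 40, nat_lit 80, nat_lit 80]⟩,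
 zbF0, [⟨nat_lit 0, nat_lit 81, nat_lit 72, nat_lit 100, nat_lit 588523472⟩]⟩
noncomputable def t03_l51 : Lf2 := ⟨nat_lit 0, nat_lit 10, [nat_lit 0, nat_lit 5, nat_lit 5, nat_lit 20], false, nat_lit 0, nat_lit 0, nat_lit 0, nat_lit 0, ⟨nat_lit 1000, nat_lit 0, nat_lit 0, nat_lit 0, nat_lit 0, nat_lit 0, nat_lit 0, nat_lit 0, nat_lit 0, nat_lit 0, nat_lit 0, nat_lit 0, nat_lit 0, nat_lit 0, nat_lit 0, nat_lit 0, false, false⟩,
 nat_lit 0, nat_lit 6912, nat_lit 0, nat_lit 0, nat_lit 5595, nat_lit 5325, nat_lit 1023, nat_lit 0, nat_lit 0, nat_lit 1229, nat_lit 0, nat_lit 0, nat_lit 0, nat_lit 0, nat_lit 0, nat_lit 0, nat_lit 0, nat_lit 0, [],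
 ⟨t03_k28, nat_lit 0, nat_lit 0, nat_lit 859, nat_lit 0, nat_lit 1731111, [nat_lit 2032000001, nat_lit 4688000000, nat_lit 6250000000], [], [nat_lit 26382025635, nat_lit 27134599223, nat_lit 27570645010, nat_lit 28199471730], nat_lit 1271250, nat_lit 1271250, nat_lit 810650, nat_lit 1764750, nat_lit 0, nat_lit 0, [nat_lit 490000, nat_lit 1100000, nat_lit 1442500], [nat_lit 6, nat_lit 40, nat_lit 80, nat_lit 80, nat_lit 3, nat_lit 290, nat_lit 60, nat_lit 11]⟩, ⟨t03_k27, nat_lit 0, nat_lit 0, nat_lit 0, nat_lit 0, nat_lit 0, [nat_lit 3282000000, nat_lit 6250000000, nat_lit 9842000000], [], [nat_lit 20765377030, nat_lit 23853492790, nat_lit 24121652700, nat_lit 26886905600], nat_lit 0, nat_lit 0, nat_lit 0, nat_lit 0, nat_lit 0, nat_lit 0, [], [nat_lit 8, nat_lit 40, nat_lit 80, nat_lit 80]⟩,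
 zbF0, [⟨nat_lit 0, nat_lit 80, nat_lit 60, nat_lit 100, nat_lit 600186951⟩]⟩
noncomputable def t03_l52 : Lf2 := ⟨nat_lit 3, nat_lit 10, [nat_lit 0, nat_lit 5, nat_lit 5, nat_lit 20], false, nat_lit 0, nat_lit 0, nat_lit 0, nat_lit 0, zbN0,
 nat_lit 0, nat_lit 0, nat_lit 0, nat_lit 0, nat_lit 0, nat_lit 0, nat_lit 0, nat_lit 0, nat_lit 0, nat_lit 0, nat_lit 0, nat_lit 0, nat_lit 0, nat_lit 0, nat_lit 0, nat_lit 0, nat_lit 0, nat_lit 0, [],
 C1.Rw.none, ⟨t03_k27, nat_lit 0, nat_lit 0, nat_lit 219, nat_lit 0, nat_lit 0, [], [], [], nat_lit 0, nat_lit 0, nat_lit 0, nat_lit 0, nat_lit 0, nat_lit 0, [], [nat_lit 8, nat_lit 40, nat_lit 80, nat_lit 80, nat_lit 1, nat_lit 317, nat_lit 100, nat_lit 9]⟩,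
 zbF0, []⟩
noncomputable def t03_l53 : Lf2 := ⟨nat_lit 0, nat_lit 10, [nat_lit 0, nat_lit 5, nat_lit 5, nat_lit 20], false, nat_lit 0, nat_lit 0, nat_lit 0, nat_lit 0, ⟨nat_lit 448, nat_lit 552, nat_lit 0, nat_lit 7, nat_lit 276, nat_lit 0, nat_lit 0, nat_lit 0, nat_lit 0, nat_lit 0, nat_lit 0, nat_lit 0, nat_lit 0, nat_lit 0, nat_lit 0, nat_lit 5000000, false, false⟩,
 nat_lit 5668, nat_lit 0, nat_lit 0, nat_lit 0, nat_lit 4251, nat_lit 3606, nat_lit 105, nat_lit 0, nat_lit 0, nat_lit 195, nat_lit 0, nat_lit 0, nat_lit 0, nat_lit 0, nat_lit 0, nat_lit 552000, nat_lit 0, nat_lit 0, [(nat_lit 18, [(nat_lit 2, nat_lit 552)]), (nat_lit 21, [(nat_lit 2, nat_lit 552)])],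
 ⟨t03_k19, nat_lit 0, nat_lit 0, nat_lit 520, nat_lit 0, nat_lit 921484, [nat_lit 1849766401, nat_lit 2677248001, nat_lit 2555353600], [], [nat_lit 28140139811, nat_lit 29708179381, nat_lit 35243385508, nat_lit 35470056583], nat_lit 1271250, nat_lit 1271250, nat_lit 631250, nat_lit 3031250, nat_lit 0, nat_lit 0, [nat_lit 490000, nat_lit 1100000, nat_lit 1442500], [nat_lit 6, nat_lit 40, nat_lit 80, nat_lit 80, nat_lit 3, nat_lit 317, nat_lit 100, nat_lit 12]⟩, ⟨t03_k27, nat_lit 0, nat_lit 0, nat_lit 741, nat_lit 0, nat_lit 1101918, [nat_lit 1470336000, nat_lit 2800000000, nat_lit 4409216000], [], [nat_lit 16456414845, nat_lit 16919709525, nat_lit 19303823856, nat_lit 19619427880], nat_lit 1271250, nat_lit 1271250, nat_lit 631250, nat_lit 3031250, nat_lit 0, nat_lit 0, [nat_lit 780000, nat_lit 1435000, nat_lit 1271250], [nat_lit 8, nat_lit 40, nat_lit 80, nat_lit 80, nat_lit 1, nat_lit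 317, nat_lit 100, nat_lit 9]⟩,
 ⟨nat_lit 3162, nat_lit 4473, ⟨.ofNat (nat_lit 415764), .ofNat (nat_lit 926092), .ofNat (nat_lit 458716), .ofNat (nat_lit 969090), .ofNat (nat_lit 435680), .ofNat (nat_lit 893321), .ofNat (nat_lit 479808), .ofNat (nat_lit 937496)⟩, ⟨.ofNat (nat_lit 0), .ofNat (nat_lit 0), .ofNat (nat_lit 0), .ofNat (nat_lit 0), .ofNat (nat_lit 0), .ofNat (nat_lit 0), .ofNat (nat_lit 0), .ofNat (nat_lit 0)⟩⟩, []⟩
noncomputable def t03_l54 : Lf2 := ⟨nat_lit 0, nat_lit 10, [nat_lit 0, nat_lit 5, nat_lit 5, nat_lit 20], false, nat_lit 0, nat_lit 0, nat_lit 0, nat_lit 0, ⟨nat_lit 1000, nat_lit 0, nat_lit 0, nat_lit 0, nat_lit 0, nat_lit 0, nat_lit 0, nat_lit 0, nat_lit 0, nat_lit 0, nat_lit 0, nat_lit 0, nat_lit 0, nat_lit 0, nat_lit 0, nat_lit 0, false, false⟩,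
 nat_lit 0, nat_lit 0, nat_lit 0, nat_lit 0, nat_lit 3800, nat_lit 0, nat_lit 0, nat_lit 0, nat_lit 0, nat_lit 0, nat_lit 0, nat_lit 0, nat_lit 0, nat_lit 0, nat_lit 0, nat_lit 0, nat_lit 0, nat_lit 0, [],
 ⟨t03_k19, nat_lit 0, nat_lit 0, nat_lit 180, nat_lit 0, nat_lit 0, [nat_lit 2032000001, nat_lit 4688000000, nat_lit 6250000000], [], [nat_lit 27595430601, nat_lit 30396934801, nat_lit 37868052001, nat_lit 39404810401], nat_lit 0, nat_lit 0, nat_lit 0, nat_lit 0, nat_lit 0, nat_lit 0, [], [nat_lit 6, nat_lit 40, nat_lit 80, nat_lit 80, nat_lit 3, nat_lit 317, nat_lit 100, nat_lit 12]⟩, ⟨t03_k27, nat_lit 0, nat_lit 0, nat_lit 219, nat_lit 0, nat_lit 0, [nat_lit 3282000000, nat_lit 6250000000, nat_lit 9842000000], [], [nat_lit 42752165000, nat_lit 43924675000, nat_lit 50013620000, nat_lit 50926544000], nat_lit 0, nat_lit 0, nat_lit 0, nat_lit 0, nat_lit 0, nat_lit 0, [], [nat_lit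 8, nat_lit 40, nat_lit 80, nat_lit 80, nat_lit 1, nat_lit 317, nat_lit 100, nat_lit 9]⟩,
 zbF0, [⟨nat_lit 0, nat_lit 90, nat_lit 74, nat_lit 100, nat_lit 249022528⟩]⟩
noncomputable def t03_l55 : Lf2 := ⟨nat_lit 0, nat_lit 10, [nat_lit 0, nat_lit 5, nat_lit 5, nat_lit 20], true, nat_lit 0, nat_lit 0, nat_lit 0, nat_lit 0, ⟨nat_lit 0, nat_lit 1000, nat_lit 0, nat_lit 7, nat_lit 224, nat_lit 0, nat_lit 0, nat_lit 0, nat_lit 0, nat_lit 0, nat_lit 0, nat_lit 0, nat_lit 50985618, nat_lit 16014382, nat_lit 0, nat_lit 2749741, false, false⟩,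
 nat_lit 0, nat_lit 0, nat_lit 0, nat_lit 0, nat_lit 3617, nat_lit 0, nat_lit 0, nat_lit 0, nat_lit 0, nat_lit 0, nat_lit 0, nat_lit 0, nat_lit 0, nat_lit 0, nat_lit 0, nat_lit 250000, nat_lit 0, nat_lit 0, [(nat_lit 18, [(nat_lit 0, nat_lit 1000)]), (nat_lit 21, [(nat_lit 0, nat_lit 1000)])],
 ⟨t03_k29, nat_lit 0, nat_lit 0, nat_lit 135, nat_lit 0, nat_lit 0, [nat_lit 1558400000, nat_lit 2562000000], [], [nat_lit 19485166012, nat_lit 22913675067, nat_lit 22901400920, nat_lit 25630790296], nat_lit 0, nat_lit 0, nat_lit 0, nat_lit 0, nat_lit 0, nat_lit 0, [], [nat_lit 69, nat_lit 40, nat_lit 80, nat_lit 80, nat_lit 64, nat_lit 272, nat_lit 60, nat_lit 10]⟩, C1.Rw.none,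
 ⟨nat_lit 3162, nat_lit 4473, ⟨.ofNat (nat_lit 415764), .ofNat (nat_lit 653959), .ofNat (nat_lit 458716), .ofNat (nat_lit 696911), .ofNat (nat_lit 435680), .ofNat (nat_lit 649288), .ofNat (nat_lit 479808), .ofNat (nat_lit 693416)⟩, ⟨.ofNat (nat_lit 0), .ofNat (nat_lit 0), .ofNat (nat_lit 0), .ofNat (nat_lit 0), .ofNat (nat_lit 0), .ofNat (nat_lit 0), .ofNat (nat_lit 0), .ofNat (nat_lit 0)⟩⟩, []⟩
noncomputable def t03_l56 : Lf2 := ⟨nat_lit 0, nat_lit 10, [nat_lit 0, nat_lit 5, nat_lit 5, nat_lit 20], false, nat_lit 0, nat_lit 0, nat_lit 0, nat_lit 0, ⟨nat_lit 554, nat_lit 446, nat_lit 0, nat_lit 7, nat_lit 276, nat_lit 0, nat_lit 0, nat_lit 0, nat_lit 0, nat_lit 0, nat_lit 0, nat_lit 0, nat_lit 0, nat_lit 0, nat_lit 0, nat_lit 5000000, false, false⟩,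
 nat_lit 0, nat_lit 0, nat_lit 0, nat_lit 0, nat_lit 1515, nat_lit 0, nat_lit 0, nat_lit 0, nat_lit 0, nat_lit 0, nat_lit 0, nat_lit 0, nat_lit 0, nat_lit 0, nat_lit 0, nat_lit 111500, nat_lit 0, nat_lit 0, [(nat_lit 18, [(nat_lit 0, nat_lit 446)]), (nat_lit 21, [(nat_lit 0, nat_lit 446)])],
 ⟨t03_k19, nat_lit 0, nat_lit 0, nat_lit 180, nat_lit 0, nat_lit 0, [nat_lit 1820774401, nat_lit 3564080000, nat_lit 4605152000], [], [nat_lit 28175188231, nat_lit 30120985066, nat_lit 36986099701, nat_lit 38222408021], nat_lit 0, nat_lit 0, nat_lit 0, nat_lit 0, nat_lit 0, nat_lit 0, [], [nat_lit 6, nat_lit 40, nat_lit 80, nat_lit 80, nat_lit 3, nat_lit 317, nat_lit 100, nat_lit 12]⟩, ⟨t03_k27, nat_lit 0, nat_lit 0, nat_lit 219, nat_lit 0, nat_lit 0, [nat_lit 1818228000, nat_lit 3462500000, nat_lit 5452468000], [], [nat_lit 23684699410, nat_lit 24334269950, nat_lit 27707545480, nat_lit 28213305376],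 nat_lit 0, nat_lit 0, nat_lit 0, nat_lit 0, nat_lit 0, nat_lit 0, [], [nat_lit 8, nat_lit 40, nat_lit 80, nat_lit 80, nat_lit 1, nat_lit 317, nat_lit 100, nat_lit 9]⟩,
 ⟨nat_lit 3162, nat_lit 4473, ⟨.ofNat (nat_lit 415764), .ofNat (nat_lit 926092), .ofNat (nat_lit 458716), .ofNat (nat_lit 969090), .ofNat (nat_lit 435680), .ofNat (nat_lit 893321), .ofNat (nat_lit 479808), .ofNat (nat_lit 937496)⟩, ⟨.ofNat (nat_lit 0), .ofNat (nat_lit 0), .ofNat (nat_lit 0), .ofNat (nat_lit 0), .ofNat (nat_lit 0), .ofNat (nat_lit 0), .ofNat (nat_lit 0), .ofNat (nat_lit 0)⟩⟩, []⟩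
noncomputable def t03_l57 : Lf2 := ⟨nat_lit 0, nat_lit 10, [nat_lit 0, nat_lit 5, nat_lit 5, nat_lit 20], true, nat_lit 0, nat_lit 0, nat_lit 0, nat_lit 0, ⟨nat_lit 0, nat_lit 1000, nat_lit 0, nat_lit 7, nat_lit 271, nat_lit 0, nat_lit 0, nat_lit 0, nat_lit 0, nat_lit 0, nat_lit 0, nat_lit 0, nat_lit 0, nat_lit 0, nat_lit 0, nat_lit 5000000, false, false⟩,
 nat_lit 0, nat_lit 0, nat_lit 0, nat_lit 0, nat_lit 3630, nat_lit 0, nat_lit 0, nat_lit 0, nat_lit 0, nat_lit 0, nat_lit 0, nat_lit 0, nat_lit 0, nat_lit 0, nat_lit 0, nat_lit 250000, nat_lit 0, nat_lit 0, [(nat_lit 18, [(nat_lit 0, nat_lit 1000)]), (nat_lit 21, [(nat_lit 0, nat_lit 1000)])],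
 ⟨t03_k19, nat_lit 0, nat_lit 0, nat_lit 180, nat_lit 0, nat_lit 0, [nat_lit 1558400000, nat_lit 2168000000, nat_lit 2562000000], [], [nat_lit 21178669860, nat_lit 23916510930, nat_lit 31508321040, nat_lit 33582419960], nat_lit 0, nat_lit 0, nat_lit 0, nat_lit 0, nat_lit 0, nat_lit 0, [], [nat_lit 6, nat_lit 40, nat_lit 80, nat_lit 80, nat_lit 3, nat_lit 317, nat_lit 100, nat_lit 12]⟩, C1.Rw.none,
 ⟨nat_lit 3162, nat_lit 4473, ⟨.ofNat (nat_lit 415764), .ofNat (nat_lit 926092), .ofNat (nat_lit 437240), .ofNat (nat_lit 947591), .ofNat (nat_lit 435680), .ofNat (nat_lit 893321), .ofNat (nat_lit 457744), .ofNat (nat_lit 915409)⟩, ⟨.ofNat (nat_lit 0), .ofNat (nat_lit 0), .ofNat (nat_lit 0), .ofNat (nat_lit 0), .ofNat (nat_lit 0), .ofNat (nat_lit 0), .ofNat (nat_lit 0), .ofNat (nat_lit 0)⟩⟩, [⟨nat_lit 13, nat_lit 92, nat_lit 14, nat_lit 100, nat_lit 296550123⟩]⟩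
noncomputable def t03_l58 : Lf2 := ⟨nat_lit 0, nat_lit 10, [nat_lit 0, nat_lit 5, nat_lit 5, nat_lit 20], false, nat_lit 0, nat_lit 0, nat_lit 0, nat_lit 0, ⟨nat_lit 122, nat_lit 878, nat_lit 0, nat_lit 7, nat_lit 287, nat_lit 0, nat_lit 0, nat_lit 0, nat_lit 0, nat_lit 0, nat_lit 0, nat_lit 0, nat_lit 0, nat_lit 0, nat_lit 0, nat_lit 5000000, false, false⟩,
 nat_lit 0, nat_lit 0, nat_lit 1120, nat_lit 0, nat_lit 3697, nat_lit 775, nat_lit 0, nat_lit 0, nat_lit 0, nat_lit 89, nat_lit 0, nat_lit 0, nat_lit 0, nat_lit 0, nat_lit 0, nat_lit 219500, nat_lit 0, nat_lit 0, [(nat_lit 18, [(nat_lit 0, nat_lit 878)]), (nat_lit 21, [(nat_lit 0, nat_lit 878)])],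
 ⟨t03_k19, nat_lit 0, nat_lit 0, nat_lit 180, nat_lit 0, nat_lit 0, [nat_lit 1616179200, nat_lit 2475440001, nat_lit 3011936000], [], [nat_lit 22142196385, nat_lit 24834496051, nat_lit 32255861977, nat_lit 33851306029], nat_lit 0, nat_lit 0, nat_lit 0, nat_lit 0, nat_lit 0, nat_lit 0, [], [nat_lit 6, nat_lit 40, nat_lit 80, nat_lit 80, nat_lit 3, nat_lit 317, nat_lit 100, nat_lit 12]⟩, ⟨t03_k30, nat_lit 0, nat_lit 0, nat_lit 966, nat_lit 0, nat_lit 1773079, [nat_lit 400404000, nat_lit 762500000, nat_lit 972096000], [], [nat_lit 4564564959, nat_lit 4604918427, nat_lit 4786096214, nat_lit 4799436647], nat_lit 1271250, nat_lit 1271250, nat_lit 780000, nat_lit 3072500, nat_lit 0, nat_lit 0, [nat_lit 780000, nat_lit 1435000, nat_lit 1271250], [nat_lit 18, nat_lit 40, nat_lit 80, nat_lit 80, nat_lit 2, nat_lit 332, nat_lit 100, nat_lit 11]⟩,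
 ⟨nat_lit 3162, nat_lit 4473, ⟨.ofNat (nat_lit 471268), .ofNat (nat_lit 947591), .ofNat (nat_lit 492744), .ofNat (nat_lit 969090), .ofNat (nat_lit 488260), .ofNat (nat_lit 915409), .ofNat (nat_lit 510324), .ofNat (nat_lit 937496)⟩, ⟨.ofNat (nat_lit 0), .ofNat (nat_lit 0), .ofNat (nat_lit 0), .ofNat (nat_lit 0), .ofNat (nat_lit 0), .ofNat (nat_lit 0), .ofNat (nat_lit 0), .ofNat (nat_lit 0)⟩⟩, []⟩
theorem r_N_800_700_0 (h : EB TB.env) : Dead (RC.box ⟨false, 40, 320, 360, 280, 320, 0, 0, [168]⟩ 0 168) := chkB_sound h (refs := [b_N_800_700_0_0, b_N_800_700_0_1, b_N_800_700_0_2, b_N_800_700_0_3, b_N_800_700_0_4, b_N_800_700_0_5, b_N_800_700_0_6, b_N_800_700_0_7, b_N_800_700_0_8, b_N_800_700_0_9, b_N_800_700_0_10, b_N_800_700_0_11, b_N_800_700_0_12, b_N_800_700_0_13, b_N_800_700_0_14, b_N_800_700_0_15, b_N_800_700_0_16, b_N_800_700_0_17, b_N_800_700_0_18, b_N_800_700_0_19, b_N_800_700_0_20,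 b_N_800_700_0_21, b_N_800_700_0_22, b_N_800_700_0_23, b_N_800_700_0_24, b_N_800_700_0_25, b_N_800_700_0_26, b_N_800_700_0_27, b_N_800_700_0_28, b_N_800_700_0_29, b_N_800_700_0_30, b_N_800_700_0_31, b_N_800_700_0_32, b_N_800_700_0_33, b_N_800_700_0_34, b_N_800_700_0_35, b_N_800_700_0_36, b_N_800_700_0_37, b_N_800_700_0_38, b_N_800_700_0_39, b_N_800_700_0_40, b_N_800_700_0_41]) (refs_cons (d_N_800_700_0_0 h) (refs_cons (d_N_800_700_0_1 h) (refs_cons (d_N_800_700_0_2 h) (refs_cons (d_N_800_700_0_3 h) (refs_cons (d_N_800_700_0_4 h) (refs_cons (d_N_800_700_0_5 h) (refs_cons (d_N_800_700_0_6 h) (refs_cons (d_N_800_700_0_7 h) (refs_cons (d_N_800_700_0_8 h) (refs_cons (d_N_800_700_0_9 h) (refs_cons (d_N_800_700_0_10 h) (refs_cons (d_N_800_700_0_11 h) (refs_cons (d_N_800_700_0_12 h) (refs_cons (d_N_800_700_0_13 h) (refs_cons (d_N_800_700_0_14 h) (refs_cons (d_N_800_700_0_15 h) (refs_cons (d_N_800_700_0_16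 h) (refs_cons (d_N_800_700_0_17 h) (refs_cons (d_N_800_700_0_18 h) (refs_cons (d_N_800_700_0_19 h) (refs_cons (d_N_800_700_0_20 h) (refs_cons (d_N_800_700_0_21 h) (refs_cons (d_N_800_700_0_22 h) (refs_cons (d_N_800_700_0_23 h) (refs_cons (d_N_800_700_0_24 h) (refs_cons (d_N_800_700_0_25 h) (refs_cons (d_N_800_700_0_26 h) (refs_cons (d_N_800_700_0_27 h) (refs_cons (d_N_800_700_0_28 h) (refs_cons (d_N_800_700_0_29 h) (refs_cons (d_N_800_700_0_30 h) (refs_cons (d_N_800_700_0_31 h) (refs_cons (d_N_800_700_0_32 h) (refs_cons (d_N_800_700_0_33 h) (refs_cons (d_N_800_700_0_34 h) (refs_cons (d_N_800_700_0_35 h) (refs_cons (d_N_800_700_0_36 h) (refs_cons (d_N_800_700_0_37 h) (refs_cons (d_N_800_700_0_38 h) (refs_cons (d_N_800_700_0_39 h) (refs_cons (d_N_800_700_0_40 h) (refs_cons (d_N_800_700_0_41 h) (refs_nil))))))))))))))))))))))))))))))))))))))))))) (T :=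
(.trZ (nat_lit 0) (nat_lit 100) (nat_lit 87) (nat_lit 95) (nat_lit 100) (.spl (nat_lit 6) (nat_lit 40)
(.st (nat_lit 0)
(.ref (nat_lit 0))
(.gv
(.st (nat_lit 1)
(.spl (nat_lit 8) (nat_lit 800)
(.spl (nat_lit 2) (nat_lit 240)
(.spl (nat_lit 0) (nat_lit 340)
(.spl (nat_lit 6) (nat_lit 20)
(.spl (nat_lit 1) (nat_lit 300)
(.ref (nat_lit 1))
(.trZ (nat_lit 0) (nat_lit 94) (nat_lit 87) (nat_lit 100) (nat_lit 120) (.spl (nat_lit 0) (nat_lit 330)
(.spl (nat_lit 0) (nat_lit 325)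
(.spl (nat_lit 2) (nat_lit 160)
(.spl (nat_lit 6) (nat_lit 8)
(.spl (nat_lit 6) (nat_lit 4)
(.leaf t03_l0)
(.spl (nat_lit 0) (nat_lit 323)
(.spl (nat_lit 1) (nat_lit 310)
(.ref (nat_lit 2))
(.trZ (nat_lit 0) (nat_lit 89) (nat_lit 85) (nat_lit 100) (nat_lit 132) (.spl (nat_lit 0) (nat_lit 322)
(.spl (nat_lit 7) (nat_lit 600)
(.leaf t03_l1)
(.spl (nat_lit 7) (nat_lit 900)
(.leaf t03_l2)
(.spl (nat_lit 7) (nat_lit 1060)
(.leaf t03_l3)
(.ref (nat_lit 3)))))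
(.leaf t03_l4))))
(.trZ (nat_lit 0) (nat_lit 93) (nat_lit 85) (nat_lit 100) (nat_lit 124) (.leaf t03_l5))))
(.spl (nat_lit 1) (nat_lit 310)
(.ref (nat_lit 4))
(.trZ (nat_lit 0) (nat_lit 89) (nat_lit 85) (nat_lit 100) (nat_lit 132) (.spl (nat_lit 6) (nat_lit 16)
(.spl (nat_lit 0) (nat_lit 323)
(.spl (nat_lit 0) (nat_lit 322)
(.spl (nat_lit 8) (nat_lit 400)
(.spl (nat_lit 7) (nat_lit 600)
(.leaf t03_l6)
(.spl (nat_lit 6) (nat_lit 12)
(.spl (nat_lit 7) (nat_lit 900)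
(.leaf t03_l7)
(.spl (nat_lit 7) (nat_lit 1060)
(.leaf t03_l8)
(.spl (nat_lit 8) (nat_lit 200)
(.spl (nat_lit 8) (nat_lit 100)
(.leaf t03_l9)
(.spl (nat_lit 8) (nat_lit 160)
(.spl (nat_lit 8) (nat_lit 140)
(.ref (nat_lit 5))
(.spl (nat_lit 1) (nat_lit 315)
(.ref (nat_lit 6))
(.ref (nat_lit 7))))
(.spl (nat_lit 1) (nat_lit 315)
(.leaf t03_l10)
(.trZ (nat_lit 0) (nat_lit 86) (nat_lit 84) (nat_lit 100) (nat_lit 136) (.leaf t03_l11)))))
(.leaf t03_l12))))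
(.ref (nat_lit 8))))
(.leaf t03_l13))
(.leaf t03_l14))
(.leaf t03_l15))
(.spl (nat_lit 0) (nat_lit 323)
(.spl (nat_lit 1) (nat_lit 315)
(.ref (nat_lit 9))
(.ref (nat_lit 10)))
(.leaf t03_l16))))))
(.spl (nat_lit 6) (nat_lit 8)
(.spl (nat_lit 6) (nat_lit 4)
(.leaf t03_l17)
(.spl (nat_lit 0) (nat_lit 323)
(.spl (nat_lit 1) (nat_lit 310)
(.leaf t03_l18)
(.spl (nat_lit 0) (nat_lit 322)
(.spl (nat_lit 0) (nat_lit 321)
(.ref (nat_lit 11))
(.ref (nat_lit 12)))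
(.leaf t03_l19)))
(.leaf t03_l20)))
(.ref (nat_lit 13))))
(.trZ (nat_lit 0) (nat_lit 93) (nat_lit 84) (nat_lit 100) (nat_lit 124) (.leaf t03_l21)))
(.trZ (nat_lit 0) (nat_lit 92) (nat_lit 81) (nat_lit 100) (nat_lit 132) (.leaf t03_l22)))))
(.spl (nat_lit 0) (nat_lit 330)
(.spl (nat_lit 1) (nat_lit 300)
(.ref (nat_lit 14))
(.trZ (nat_lit 0) (nat_lit 94) (nat_lit 87) (nat_lit 100) (nat_lit 120) (.spl (nat_lit 1) (nat_lit 310)
(.ref (nat_lit 15))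
(.trZ (nat_lit 0) (nat_lit 89) (nat_lit 85) (nat_lit 100) (nat_lit 132) (.spl (nat_lit 0) (nat_lit 325)
(.spl (nat_lit 0) (nat_lit 323)
(.spl (nat_lit 2) (nat_lit 160)
(.spl (nat_lit 6) (nat_lit 32)
(.spl (nat_lit 1) (nat_lit 315)
(.ref (nat_lit 16))
(.trZ (nat_lit 0) (nat_lit 86) (nat_lit 84) (nat_lit 100) (nat_lit 136) (.spl (nat_lit 6) (nat_lit 24)
(.ref (nat_lit 17))
(.ref (nat_lit 18)))))
(.spl (nat_lit 1) (nat_lit 315)
(.leaf t03_l23)
(.trZ (nat_lit 0) (nat_lit 86) (nat_lit 84) (nat_lit 100) (nat_lit 136) (.spl (nat_lit 1) (nat_lit 318)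
(.leaf t03_l24)
(.trZ (nat_lit 0) (nat_lit 84) (nat_lit 84) (nat_lit 100) (nat_lit 140) (.leaf t03_l25))))))
(.spl (nat_lit 1) (nat_lit 315)
(.leaf t03_l26)
(.spl (nat_lit 0) (nat_lit 322)
(.leaf t03_l27)
(.leaf t03_l28))))
(.spl (nat_lit 1) (nat_lit 315)
(.leaf t03_l29)
(.trZ (nat_lit 0) (nat_lit 86) (nat_lit 82) (nat_lit 100) (nat_lit 140) (.leaf t03_l30))))
(.trZ (nat_lit 0) (nat_lit 88) (nat_lit 82) (nat_lit 100) (nat_lit 136) (.leaf t03_l31)))))))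
(.trZ (nat_lit 0) (nat_lit 100) (nat_lit 83) (nat_lit 98) (nat_lit 112) (.leaf t03_l32))))
(.trZ (nat_lit 0) (nat_lit 99) (nat_lit 77) (nat_lit 100) (nat_lit 124) (.leaf t03_l33)))
(.ref (nat_lit 19)))
(.leaf t03_l34))
(.ref (nat_lit 20)))
(.st (nat_lit 1)
(.spl (nat_lit 8) (nat_lit 800)
(.spl (nat_lit 2) (nat_lit 240)
(.spl (nat_lit 0) (nat_lit 340)
(.spl (nat_lit 6) (nat_lit 20)
(.spl (nat_lit 1) (nat_lit 300)
(.ref (nat_lit 21))
(.trZ (nat_lit 0) (nat_lit 94) (nat_lit 87) (nat_lit 100) (nat_lit 120) (.spl (nat_lit 0) (nat_lit 330)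
(.spl (nat_lit 0) (nat_lit 325)
(.spl (nat_lit 6) (nat_lit 8)
(.spl (nat_lit 6) (nat_lit 4)
(.leaf t03_l35)
(.spl (nat_lit 2) (nat_lit 160)
(.ref (nat_lit 22))
(.spl (nat_lit 0) (nat_lit 323)
(.spl (nat_lit 1) (nat_lit 310)
(.leaf t03_l36)
(.ref (nat_lit 23)))
(.leaf t03_l37))))
(.spl (nat_lit 1) (nat_lit 310)
(.ref (nat_lit 24))
(.trZ (nat_lit 0) (nat_lit 89) (nat_lit 85) (nat_lit 100) (nat_lit 132) (.spl (nat_lit 2) (nat_lit 160)
(.spl (nat_lit 6) (nat_lit 16)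
(.ref (nat_lit 25))
(.spl (nat_lit 0) (nat_lit 323)
(.spl (nat_lit 1) (nat_lit 315)
(.ref (nat_lit 26))
(.ref (nat_lit 27)))
(.leaf t03_l38)))
(.ref (nat_lit 28))))))
(.trZ (nat_lit 0) (nat_lit 93) (nat_lit 84) (nat_lit 100) (nat_lit 124) (.leaf t03_l39)))
(.trZ (nat_lit 0) (nat_lit 92) (nat_lit 81) (nat_lit 100) (nat_lit 132) (.leaf t03_l40)))))
(.spl (nat_lit 0) (nat_lit 330)
(.spl (nat_lit 1) (nat_lit 300)
(.ref (nat_lit 29))
(.trZ (nat_lit 0) (nat_lit 94) (nat_lit 87) (nat_lit 100) (nat_lit 120) (.spl (nat_lit 1) (nat_lit 310)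
(.ref (nat_lit 30))
(.trZ (nat_lit 0) (nat_lit 89) (nat_lit 85) (nat_lit 100) (nat_lit 132) (.spl (nat_lit 0) (nat_lit 325)
(.spl (nat_lit 0) (nat_lit 323)
(.spl (nat_lit 2) (nat_lit 160)
(.spl (nat_lit 6) (nat_lit 32)
(.spl (nat_lit 1) (nat_lit 315)
(.ref (nat_lit 31))
(.trZ (nat_lit 0) (nat_lit 86) (nat_lit 84) (nat_lit 100) (nat_lit 136) (.spl (nat_lit 6) (nat_lit 24)
(.ref (nat_lit 32))
(.ref (nat_lit 33)))))
(.spl (nat_lit 1) (nat_lit 315)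
(.leaf t03_l41)
(.trZ (nat_lit 0) (nat_lit 86) (nat_lit 84) (nat_lit 100) (nat_lit 136) (.spl (nat_lit 1) (nat_lit 318)
(.leaf t03_l42)
(.trZ (nat_lit 0) (nat_lit 84) (nat_lit 84) (nat_lit 100) (nat_lit 140) (.leaf t03_l43))))))
(.spl (nat_lit 1) (nat_lit 315)
(.leaf t03_l44)
(.spl (nat_lit 0) (nat_lit 322)
(.leaf t03_l45)
(.leaf t03_l46))))
(.spl (nat_lit 1) (nat_lit 315)
(.leaf t03_l47)
(.trZ (nat_lit 0) (nat_lit 86) (nat_lit 82) (nat_lit 100) (nat_lit 140) (.leaf t03_l48))))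
(.trZ (nat_lit 0) (nat_lit 88) (nat_lit 82) (nat_lit 100) (nat_lit 136) (.leaf t03_l49)))))))
(.trZ (nat_lit 0) (nat_lit 100) (nat_lit 83) (nat_lit 98) (nat_lit 112) (.leaf t03_l50))))
(.trZ (nat_lit 0) (nat_lit 99) (nat_lit 77) (nat_lit 100) (nat_lit 124) (.leaf t03_l51)))
(.ref (nat_lit 34)))
(.leaf t03_l52))
(.leaf t03_l53))))
(.spl (nat_lit 6) (nat_lit 80)
(.st (nat_lit 0)
(.gv
(.st (nat_lit 1)
(.leaf t03_l54)
(.spl (nat_lit 2) (nat_lit 240)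
(.leaf t03_l55)
(.spl (nat_lit 2) (nat_lit 320)
(.ref (nat_lit 35))
(.spl (nat_lit 2) (nat_lit 360)
(.ref (nat_lit 36))
(.ref (nat_lit 37))))))
(.st (nat_lit 1)
(.leaf t03_l56)
(.spl (nat_lit 1) (nat_lit 300)
(.leaf t03_l57)
(.trZ (nat_lit 0) (nat_lit 94) (nat_lit 87) (nat_lit 100) (nat_lit 120) (.leaf t03_l58)))))
(.gv
(.ref (nat_lit 38))
(.ref (nat_lit 39))))
(.spl (nat_lit 6) (nat_lit 120)
(.ref (nat_lit 40))
(.ref (nat_lit 41))))))) (by decide +kernel)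
theorem done_N_800_700_0 (h : EB TB.env) : RC.Done ⟨false, 40, 320, 360, 280, 320, 0, 0, [168]⟩ := RC.done1 (r_N_800_700_0 h) (t_N_800_700_0 h)
theorem t_N_800_800_0 (h : EB TB.env) : RC.Tail ⟨false, 40, 320, 360, 320, 340, 0, 0, [180]⟩ := RC.tail_chk h (b := ⟨nat_lit 20, nat_lit 90, nat_lit 5, nat_lit 5, nat_lit 20, nat_lit 203, nat_lit 0, nat_lit 26, nat_lit 0⟩) (by decide +kernel)
noncomputable def t03_l59 : Lf2 := ⟨nat_lit 0, nat_lit 1, [nat_lit 19, nat_lit 5, nat_lit 5, nat_lit 20], false, nat_lit 0, nat_lit 0, nat_lit 0, nat_lit 0, ⟨nat_lit 1000, nat_lit 0, nat_lit 0, nat_lit 0, nat_lit 0, nat_lit 0, nat_lit 0, nat_lit 0, nat_lit 0, nat_lit 0, nat_lit 0, nat_lit 0, nat_lit 0, nat_lit 0, nat_lit 0, nat_lit 0, false, false⟩,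
 nat_lit 0, nat_lit 9049, nat_lit 0, nat_lit 0, nat_lit 6786, nat_lit 3947, nat_lit 0, nat_lit 0, nat_lit 0, nat_lit 0, nat_lit 0, nat_lit 0, nat_lit 0, nat_lit 0, nat_lit 0, nat_lit 0, nat_lit 0, nat_lit 0, [],
 ⟨t03_k0, nat_lit 0, nat_lit 0, nat_lit 621, nat_lit 0, nat_lit 1589459, [nat_lit 2032000001, nat_lit 3282000000], [], [nat_lit 25058951945, nat_lit 25257414166, nat_lit 26033583873, nat_lit 26200362478], nat_lit 1271250, nat_lit 1271250, nat_lit 936251, nat_lit 1773750, nat_lit 0, nat_lit 0, [nat_lit 490000, nat_lit 780000], [nat_lit 112, nat_lit 40, nat_lit 80, nat_lit 80, nat_lit 113, nat_lit 226, nat_lit 0, nat_lit 13]⟩, ⟨t03_k0, nat_lit 0, nat_lit 0, nat_lit 75, nat_lit 0, nat_lit 0, [nat_lit 2032000000, nat_lit 3282000000], [], [nat_lit 18615502354, nat_lit 18889911776, nat_lit 21997800028, nat_lit 22238310545], nat_lit 0, nat_lit 0, nat_lit 0, nat_lit 0, nat_lit 0,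 nat_lit 0, [], [nat_lit 112, nat_lit 40, nat_lit 80, nat_lit 80, nat_lit 113, nat_lit 203, nat_lit 0, nat_lit 11]⟩,
 zbF0, [⟨nat_lit 0, nat_lit 81, nat_lit 80, nat_lit 100, nat_lit 406355274⟩]⟩
noncomputable def t03_l60 : Lf2 := ⟨nat_lit 0, nat_lit 2, [nat_lit 10, nat_lit 5, nat_lit 5, nat_lit 20], false, nat_lit 0, nat_lit 0, nat_lit 0, nat_lit 0, ⟨nat_lit 1000, nat_lit 0, nat_lit 0, nat_lit 0, nat_lit 0, nat_lit 0, nat_lit 0, nat_lit 0, nat_lit 0, nat_lit 0, nat_lit 0, nat_lit 0, nat_lit 0, nat_lit 0, nat_lit 0, nat_lit 0, false, false⟩,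
 nat_lit 0, nat_lit 7709, nat_lit 0, nat_lit 0, nat_lit 5826, nat_lit 4025, nat_lit 10786, nat_lit 0, nat_lit 0, nat_lit 0, nat_lit 0, nat_lit 0, nat_lit 0, nat_lit 0, nat_lit 0, nat_lit 0, nat_lit 0, nat_lit 0, [],
 ⟨t03_k4, nat_lit 0, nat_lit 0, nat_lit 661, nat_lit 0, nat_lit 1494964, [nat_lit 2032000001, nat_lit 4688000000], [], [nat_lit 20945435482, nat_lit 20982280986, nat_lit 24380444177, nat_lit 24492870025], nat_lit 1271250, nat_lit 1271250, nat_lit 968401, nat_lit 1776000, nat_lit 0, nat_lit 0, [nat_lit 490000, nat_lit 1100000], [nat_lit 24, nat_lit 40, nat_lit 80, nat_lit 80, nat_lit 33, nat_lit 272, nat_lit 60, nat_lit 12]⟩, ⟨t03_k2, nat_lit 0, nat_lit 0, nat_lit 90, nat_lit 0, nat_lit 0, [nat_lit 2032000000, nat_lit 4688000000], [], [nat_lit 20862465160, nat_lit 21035566128, nat_lit 24031386500, nat_lit 24185584401], nat_lit 0, nat_lit 0, nat_lit 0, nat_lit 0, nat_lit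 0, nat_lit 0, [], [nat_lit 24, nat_lit 40, nat_lit 80, nat_lit 80, nat_lit 33, nat_lit 272, nat_lit 60, nat_lit 12]⟩,
 zbF0, [⟨nat_lit 0, nat_lit 82, nat_lit 81, nat_lit 100, nat_lit 197494997⟩]⟩
noncomputable def t03_l61 : Lf2 := ⟨nat_lit 0, nat_lit 2, [nat_lit 10, nat_lit 5, nat_lit 5, nat_lit 20], false, nat_lit 0, nat_lit 0, nat_lit 0, nat_lit 0, ⟨nat_lit 1000, nat_lit 0, nat_lit 0, nat_lit 0, nat_lit 0, nat_lit 0, nat_lit 0, nat_lit 0, nat_lit 0, nat_lit 0, nat_lit 0, nat_lit 0, nat_lit 0, nat_lit 0, nat_lit 0, nat_lit 0, false, false⟩,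
 nat_lit 0, nat_lit 7357, nat_lit 0, nat_lit 0, nat_lit 5582, nat_lit 4025, nat_lit 7333, nat_lit 0, nat_lit 0, nat_lit 0, nat_lit 0, nat_lit 0, nat_lit 0, nat_lit 0, nat_lit 0, nat_lit 0, nat_lit 0, nat_lit 0, [],
 ⟨t03_k5, nat_lit 0, nat_lit 0, nat_lit 664, nat_lit 0, nat_lit 1500091, [nat_lit 2032000001, nat_lit 4688000000], [], [nat_lit 22657024265, nat_lit 22737609481, nat_lit 24265973377, nat_lit 24344970062], nat_lit 1271250, nat_lit 1271250, nat_lit 968401, nat_lit 1776000, nat_lit 0, nat_lit 0, [nat_lit 490000, nat_lit 1100000], [nat_lit 24, nat_lit 40, nat_lit 80, nat_lit 80, nat_lit 33, nat_lit 272, nat_lit 60, nat_lit 12]⟩, ⟨t03_k2, nat_lit 0, nat_lit 0, nat_lit 90, nat_lit 0, nat_lit 0, [nat_lit 2032000000, nat_lit 4688000000], [], [nat_lit 20862465160, nat_lit 21035566128, nat_lit 24031386500, nat_lit 24185584401], nat_lit 0, nat_lit 0, nat_lit 0, nat_lit 0, nat_lit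 0, nat_lit 0, [], [nat_lit 24, nat_lit 40, nat_lit 80, nat_lit 80, nat_lit 33, nat_lit 272, nat_lit 60, nat_lit 12]⟩,
 zbF0, [⟨nat_lit 0, nat_lit 82, nat_lit 80, nat_lit 100, nat_lit 349822363⟩]⟩
noncomputable def t03_l62 : Lf2 := ⟨nat_lit 0, nat_lit 2, [nat_lit 10, nat_lit 5, nat_lit 5, nat_lit 20], false, nat_lit 0, nat_lit 0, nat_lit 0, nat_lit 0, ⟨nat_lit 1000, nat_lit 0, nat_lit 0, nat_lit 0, nat_lit 0, nat_lit 0, nat_lit 0, nat_lit 0, nat_lit 0, nat_lit 0, nat_lit 0, nat_lit 0, nat_lit 0, nat_lit 0, nat_lit 0, nat_lit 0, false, false⟩,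
 nat_lit 0, nat_lit 7816, nat_lit 0, nat_lit 0, nat_lit 5907, nat_lit 4028, nat_lit 9943, nat_lit 0, nat_lit 0, nat_lit 0, nat_lit 0, nat_lit 0, nat_lit 0, nat_lit 0, nat_lit 0, nat_lit 0, nat_lit 0, nat_lit 0, [],
 ⟨t03_k4, nat_lit 0, nat_lit 0, nat_lit 668, nat_lit 0, nat_lit 1516815, [nat_lit 2032000001, nat_lit 4688000000], [], [nat_lit 21251568644, nat_lit 21362117138, nat_lit 24502039060, nat_lit 24842316610], nat_lit 1271250, nat_lit 1271250, nat_lit 1000851, nat_lit 1778250, nat_lit 0, nat_lit 0, [nat_lit 490000, nat_lit 1100000], [nat_lit 24, nat_lit 40, nat_lit 80, nat_lit 80, nat_lit 33, nat_lit 272, nat_lit 60, nat_lit 12]⟩, ⟨t03_k4, nat_lit 0, nat_lit 0, nat_lit 90, nat_lit 0, nat_lit 0, [nat_lit 2032000000, nat_lit 4688000000], [], [nat_lit 21087011008, nat_lit 21173102422, nat_lit 24186162632, nat_lit 24263291829], nat_lit 0, nat_lit 0, nat_lit 0, nat_lit 0, nat_lit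 0, nat_lit 0, [], [nat_lit 24, nat_lit 40, nat_lit 80, nat_lit 80, nat_lit 33, nat_lit 272, nat_lit 60, nat_lit 12]⟩,
 zbF0, [⟨nat_lit 0, nat_lit 81, nat_lit 80, nat_lit 100, nat_lit 182094532⟩]⟩
noncomputable def t03_l63 : Lf2 := ⟨nat_lit 0, nat_lit 4, [nat_lit 38, nat_lit 5, nat_lit 5, nat_lit 20], false, nat_lit 0, nat_lit 0, nat_lit 0, nat_lit 0, ⟨nat_lit 1000, nat_lit 0, nat_lit 0, nat_lit 0, nat_lit 0, nat_lit 0, nat_lit 0, nat_lit 0, nat_lit 0, nat_lit 0, nat_lit 0, nat_lit 0, nat_lit 0, nat_lit 0, nat_lit 0, nat_lit 0, false, false⟩,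
 nat_lit 0, nat_lit 8911, nat_lit 0, nat_lit 0, nat_lit 6735, nat_lit 4025, nat_lit 5905, nat_lit 0, nat_lit 0, nat_lit 0, nat_lit 0, nat_lit 0, nat_lit 0, nat_lit 0, nat_lit 0, nat_lit 0, nat_lit 0, nat_lit 0, [],
 ⟨t03_k12, nat_lit 0, nat_lit 0, nat_lit 648, nat_lit 0, nat_lit 1455974, [nat_lit 2032000001, nat_lit 4688000000], [], [nat_lit 22226160317, nat_lit 22258806936, nat_lit 25745008979, nat_lit 25868657069], nat_lit 1271250, nat_lit 1271250, nat_lit 968401, nat_lit 1776000, nat_lit 0, nat_lit 0, [nat_lit 490000, nat_lit 1100000], [nat_lit 24, nat_lit 40, nat_lit 80, nat_lit 80, nat_lit 33, nat_lit 272, nat_lit 60, nat_lit 12]⟩, ⟨t03_k7, nat_lit 0, nat_lit 0, nat_lit 90, nat_lit 0, nat_lit 0, [nat_lit 2032000000, nat_lit 4688000000], [], [nat_lit 20862465160, nat_lit 21035566128, nat_lit 24031386500, nat_lit 24185584401], nat_lit 0, nat_lit 0, nat_lit 0, nat_lit 0, nat_lit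 0, nat_lit 0, [], [nat_lit 24, nat_lit 40, nat_lit 80, nat_lit 80, nat_lit 33, nat_lit 272, nat_lit 60, nat_lit 12]⟩,
 zbF0, [⟨nat_lit 0, nat_lit 82, nat_lit 81, nat_lit 100, nat_lit 189827561⟩]⟩
noncomputable def t03_l64 : Lf2 := ⟨nat_lit 0, nat_lit 4, [nat_lit 38, nat_lit 5, nat_lit 5, nat_lit 20], false, nat_lit 0, nat_lit 0, nat_lit 0, nat_lit 0, ⟨nat_lit 1000, nat_lit 0, nat_lit 0, nat_lit 0, nat_lit 0, nat_lit 0, nat_lit 0, nat_lit 0, nat_lit 0, nat_lit 0, nat_lit 0, nat_lit 0, nat_lit 0, nat_lit 0, nat_lit 0, nat_lit 0, false, false⟩,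
 nat_lit 0, nat_lit 8807, nat_lit 0, nat_lit 0, nat_lit 6682, nat_lit 4025, nat_lit 3187, nat_lit 0, nat_lit 0, nat_lit 0, nat_lit 0, nat_lit 0, nat_lit 0, nat_lit 0, nat_lit 0, nat_lit 0, nat_lit 0, nat_lit 0, [],
 ⟨t03_k13, nat_lit 0, nat_lit 0, nat_lit 650, nat_lit 0, nat_lit 1461405, [nat_lit 2032000001, nat_lit 4688000000], [], [nat_lit 22633080700, nat_lit 22708650390, nat_lit 25788440663, nat_lit 26034428197], nat_lit 1271250, nat_lit 1271250, nat_lit 968401, nat_lit 1776000, nat_lit 0, nat_lit 0, [nat_lit 490000, nat_lit 1100000], [nat_lit 24, nat_lit 40, nat_lit 80, nat_lit 80, nat_lit 33, nat_lit 272, nat_lit 60, nat_lit 12]⟩, ⟨t03_k7, nat_lit 0, nat_lit 0, nat_lit 90, nat_lit 0, nat_lit 0, [nat_lit 2032000000, nat_lit 4688000000], [], [nat_lit 20862465160, nat_lit 21035566128, nat_lit 24031386500, nat_lit 24185584401], nat_lit 0, nat_lit 0, nat_lit 0, nat_lit 0, nat_lit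 0, nat_lit 0, [], [nat_lit 24, nat_lit 40, nat_lit 80, nat_lit 80, nat_lit 33, nat_lit 272, nat_lit 60, nat_lit 12]⟩,
 zbF0, [⟨nat_lit 0, nat_lit 82, nat_lit 80, nat_lit 100, nat_lit 212799436⟩]⟩
noncomputable def t03_l65 : Lf2 := ⟨nat_lit 0, nat_lit 4, [nat_lit 38, nat_lit 5, nat_lit 5, nat_lit 20], false, nat_lit 0, nat_lit 0, nat_lit 0, nat_lit 0, ⟨nat_lit 1000, nat_lit 0, nat_lit 0, nat_lit 0, nat_lit 0, nat_lit 0, nat_lit 0, nat_lit 0, nat_lit 0, nat_lit 0, nat_lit 0, nat_lit 0, nat_lit 0, nat_lit 0, nat_lit 0, nat_lit 0, false, false⟩,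
 nat_lit 0, nat_lit 8891, nat_lit 0, nat_lit 0, nat_lit 6720, nat_lit 4028, nat_lit 5843, nat_lit 0, nat_lit 0, nat_lit 0, nat_lit 0, nat_lit 0, nat_lit 0, nat_lit 0, nat_lit 0, nat_lit 0, nat_lit 0, nat_lit 0, [],
 ⟨t03_k12, nat_lit 0, nat_lit 0, nat_lit 655, nat_lit 0, nat_lit 1477908, [nat_lit 2032000001, nat_lit 4688000000], [], [nat_lit 22413276833, nat_lit 22510554181, nat_lit 25722491408, nat_lit 26092880120], nat_lit 1271250, nat_lit 1271250, nat_lit 1000851, nat_lit 1778250, nat_lit 0, nat_lit 0, [nat_lit 490000, nat_lit 1100000], [nat_lit 24, nat_lit 40, nat_lit 80, nat_lit 80, nat_lit 33, nat_lit 272, nat_lit 60, nat_lit 12]⟩, ⟨t03_k12, nat_lit 0, nat_lit 0, nat_lit 90, nat_lit 0, nat_lit 0, [nat_lit 2032000000, nat_lit 4688000000], [], [nat_lit 21087011008, nat_lit 21173102422, nat_lit 24186162632, nat_lit 24263291829], nat_lit 0, nat_lit 0, nat_lit 0, nat_lit 0, nat_lit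 0, nat_lit 0, [], [nat_lit 24, nat_lit 40, nat_lit 80, nat_lit 80, nat_lit 33, nat_lit 272, nat_lit 60, nat_lit 12]⟩,
 zbF0, [⟨nat_lit 0, nat_lit 81, nat_lit 80, nat_lit 100, nat_lit 173940372⟩]⟩
noncomputable def t03_l66 : Lf2 := ⟨nat_lit 0, nat_lit 5, [nat_lit 4, nat_lit 5, nat_lit 5, nat_lit 20], false, nat_lit 0, nat_lit 0, nat_lit 0, nat_lit 0, ⟨nat_lit 1000, nat_lit 0, nat_lit 0, nat_lit 0, nat_lit 0, nat_lit 0, nat_lit 0, nat_lit 0, nat_lit 0, nat_lit 0, nat_lit 0, nat_lit 0, nat_lit 0, nat_lit 0, nat_lit 0, nat_lit 0, false, false⟩,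
 nat_lit 0, nat_lit 8976, nat_lit 0, nat_lit 0, nat_lit 6811, nat_lit 4016, nat_lit 3539, nat_lit 0, nat_lit 0, nat_lit 0, nat_lit 0, nat_lit 0, nat_lit 0, nat_lit 0, nat_lit 0, nat_lit 0, nat_lit 0, nat_lit 0, [],
 ⟨t03_k14, nat_lit 0, nat_lit 0, nat_lit 724, nat_lit 0, nat_lit 1626023, [nat_lit 2032000001, nat_lit 4688000000], [], [nat_lit 22577044470, nat_lit 22639354152, nat_lit 25983684369, nat_lit 26232857094], nat_lit 1271250, nat_lit 1271250, nat_lit 1000851, nat_lit 1778250, nat_lit 0, nat_lit 0, [nat_lit 490000, nat_lit 1100000], [nat_lit 24, nat_lit 40, nat_lit 80, nat_lit 80, nat_lit 33, nat_lit 272, nat_lit 60, nat_lit 12]⟩, ⟨t03_k14, nat_lit 0, nat_lit 0, nat_lit 91, nat_lit 0, nat_lit 0, [nat_lit 2032000000, nat_lit 4688000000], [], [nat_lit 21182119262, nat_lit 21354017940, nat_lit 24260857916, nat_lit 24414874340], nat_lit 0, nat_lit 0, nat_lit 0, nat_lit 0, nat_lit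 0, nat_lit 0, [], [nat_lit 24, nat_lit 40, nat_lit 80, nat_lit 80, nat_lit 33, nat_lit 272, nat_lit 60, nat_lit 12]⟩,
 zbF0, [⟨nat_lit 0, nat_lit 80, nat_lit 80, nat_lit 100, nat_lit 175980550⟩]⟩
noncomputable def t03_l67 : Lf2 := ⟨nat_lit 0, nat_lit 10, [nat_lit 0, nat_lit 5, nat_lit 5, nat_lit 20], false, nat_lit 0, nat_lit 0, nat_lit 0, nat_lit 0, ⟨nat_lit 1000, nat_lit 0, nat_lit 0, nat_lit 0, nat_lit 0, nat_lit 0, nat_lit 0, nat_lit 0, nat_lit 0, nat_lit 0, nat_lit 0, nat_lit 0, nat_lit 0, nat_lit 0, nat_lit 0, nat_lit 0, false, false⟩,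
 nat_lit 0, nat_lit 8740, nat_lit 0, nat_lit 0, nat_lit 6631, nat_lit 4022, nat_lit 1737, nat_lit 0, nat_lit 0, nat_lit 733, nat_lit 0, nat_lit 0, nat_lit 0, nat_lit 0, nat_lit 0, nat_lit 0, nat_lit 0, nat_lit 0, [],
 ⟨t03_k24, nat_lit 0, nat_lit 0, nat_lit 685, nat_lit 0, nat_lit 1372144, [nat_lit 2032000001, nat_lit 4688000000, nat_lit 6250000000], [], [nat_lit 28723984471, nat_lit 28758874759, nat_lit 29586135751, nat_lit 29620599255], nat_lit 1271250, nat_lit 1271250, nat_lit 1000851, nat_lit 1778250, nat_lit 0, nat_lit 0, [nat_lit 490000, nat_lit 1100000, nat_lit 1442500], [nat_lit 6, nat_lit 40, nat_lit 80, nat_lit 80, nat_lit 3, nat_lit 272, nat_lit 60, nat_lit 10]⟩, ⟨t03_k24, nat_lit 0, nat_lit 0, nat_lit 116, nat_lit 0, nat_lit 0, [nat_lit 2032000000, nat_lit 4688000000, nat_lit 6250000000], [], [nat_lit 20921809394, nat_lit 21007081219, nat_lit 24005524873, nat_lit 24082593576],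 nat_lit 0, nat_lit 0, nat_lit 0, nat_lit 0, nat_lit 0, nat_lit 0, [], [nat_lit 6, nat_lit 40, nat_lit 80, nat_lit 80, nat_lit 3, nat_lit 272, nat_lit 60, nat_lit 10]⟩,
 zbF0, [⟨nat_lit 0, nat_lit 81, nat_lit 81, nat_lit 100, nat_lit 398527663⟩]⟩
noncomputable def t03_l68 : Lf2 := ⟨nat_lit 0, nat_lit 10, [nat_lit 0, nat_lit 5, nat_lit 5, nat_lit 20], false, nat_lit 0, nat_lit 0, nat_lit 0, nat_lit 0, ⟨nat_lit 1000, nat_lit 0, nat_lit 0, nat_lit 0, nat_lit 0, nat_lit 0, nat_lit 0, nat_lit 0, nat_lit 0, nat_lit 0, nat_lit 0, nat_lit 0, nat_lit 0, nat_lit 0, nat_lit 0, nat_lit 0, false, false⟩,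
 nat_lit 0, nat_lit 9608, nat_lit 0, nat_lit 0, nat_lit 7318, nat_lit 4016, nat_lit 2027, nat_lit 0, nat_lit 0, nat_lit 728, nat_lit 0, nat_lit 0, nat_lit 0, nat_lit 0, nat_lit 0, nat_lit 0, nat_lit 0, nat_lit 0, [],
 ⟨t03_k31, nat_lit 0, nat_lit 0, nat_lit 689, nat_lit 0, nat_lit 1380535, [nat_lit 2032000001, nat_lit 4688000000, nat_lit 6250000000], [], [nat_lit 23291340453, nat_lit 23326048073, nat_lit 26881883171, nat_lit 27012728803], nat_lit 1271250, nat_lit 1271250, nat_lit 1033601, nat_lit 1780500, nat_lit 0, nat_lit 0, [nat_lit 490000, nat_lit 1100000, nat_lit 1442500], [nat_lit 6, nat_lit 40, nat_lit 80, nat_lit 80, nat_lit 3, nat_lit 272, nat_lit 60, nat_lit 10]⟩, ⟨t03_k24, nat_lit 0, nat_lit 0, nat_lit 116, nat_lit 0, nat_lit 0, [nat_lit 2032000000, nat_lit 4688000000, nat_lit 6250000000], [], [nat_lit 20991798314, nat_lit 21151568676, nat_lit 24006057916, nat_lit 24160074340],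 nat_lit 0, nat_lit 0, nat_lit 0, nat_lit 0, nat_lit 0, nat_lit 0, [], [nat_lit 6, nat_lit 40, nat_lit 80, nat_lit 80, nat_lit 3, nat_lit 272, nat_lit 60, nat_lit 10]⟩,
 zbF0, [⟨nat_lit 0, nat_lit 80, nat_lit 80, nat_lit 100, nat_lit 144410924⟩]⟩
noncomputable def t03_l69 : Lf2 := ⟨nat_lit 0, nat_lit 10, [nat_lit 0, nat_lit 5, nat_lit 5, nat_lit 20], false, nat_lit 0, nat_lit 0, nat_lit 0, nat_lit 0, ⟨nat_lit 1000, nat_lit 0, nat_lit 0, nat_lit 0, nat_lit 0, nat_lit 0, nat_lit 0, nat_lit 0, nat_lit 0, nat_lit 0, nat_lit 0, nat_lit 0, nat_lit 0, nat_lit 0, nat_lit 0, nat_lit 0, false, false⟩,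
 nat_lit 0, nat_lit 8393, nat_lit 0, nat_lit 0, nat_lit 6417, nat_lit 3978, nat_lit 2262, nat_lit 0, nat_lit 0, nat_lit 644, nat_lit 0, nat_lit 0, nat_lit 0, nat_lit 0, nat_lit 0, nat_lit 0, nat_lit 0, nat_lit 0, [],
 ⟨t03_k25, nat_lit 0, nat_lit 0, nat_lit 854, nat_lit 0, nat_lit 1742899, [nat_lit 2032000001, nat_lit 4688000000, nat_lit 6250000000], [], [nat_lit 25685283662, nat_lit 25821431235, nat_lit 26120122570, nat_lit 26235705378], nat_lit 1271250, nat_lit 1271250, nat_lit 1000851, nat_lit 1778250, nat_lit 0, nat_lit 0, [nat_lit 490000, nat_lit 1100000, nat_lit 1442500], [nat_lit 6, nat_lit 40, nat_lit 80, nat_lit 80, nat_lit 3, nat_lit 285, nat_lit 60, nat_lit 11]⟩, ⟨t03_k19, nat_lit 0, nat_lit 0, nat_lit 120, nat_lit 0, nat_lit 0, [nat_lit 2032000000, nat_lit 4688000000, nat_lit 6250000000], [], [nat_lit 21234499826, nat_lit 22031520816, nat_lit 24084045088, nat_lit 24790940500],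 nat_lit 0, nat_lit 0, nat_lit 0, nat_lit 0, nat_lit 0, nat_lit 0, [], [nat_lit 6, nat_lit 40, nat_lit 80, nat_lit 80, nat_lit 3, nat_lit 272, nat_lit 60, nat_lit 10]⟩,
 zbF0, [⟨nat_lit 0, nat_lit 77, nat_lit 77, nat_lit 100, nat_lit 499852156⟩]⟩
noncomputable def t03_l70 : Lf2 := ⟨nat_lit 0, nat_lit 10, [nat_lit 0, nat_lit 5, nat_lit 5, nat_lit 20], false, nat_lit 0, nat_lit 0, nat_lit 0, nat_lit 0, ⟨nat_lit 1000, nat_lit 0, nat_lit 0, nat_lit 0, nat_lit 0, nat_lit 0, nat_lit 0, nat_lit 0, nat_lit 0, nat_lit 0, nat_lit 0, nat_lit 0, nat_lit 0, nat_lit 0, nat_lit 0, nat_lit 0, false, false⟩,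
 nat_lit 0, nat_lit 6950, nat_lit 0, nat_lit 0, nat_lit 5314, nat_lit 6124, nat_lit 2348, nat_lit 0, nat_lit 0, nat_lit 0, nat_lit 0, nat_lit 0, nat_lit 0, nat_lit 32159040759625, nat_lit 0, nat_lit 0, nat_lit 0, nat_lit 0, [],
 ⟨t03_k25, nat_lit 0, nat_lit 0, nat_lit 830, nat_lit 0, nat_lit 1742899, [nat_lit 2032000001, nat_lit 4688000000, nat_lit 6250000000], [], [nat_lit 33951931014, nat_lit 34063321871, nat_lit 36703601154, nat_lit 36780586119], nat_lit 1271250, nat_lit 1271250, nat_lit 1271250, nat_lit 1271250, nat_lit 0, nat_lit 0, [nat_lit 490000, nat_lit 1100000, nat_lit 1442500], [nat_lit 6, nat_lit 40, nat_lit 80, nat_lit 80, nat_lit 3, nat_lit 299, nat_lit 0, nat_lit 11]⟩, ⟨t03_k19, nat_lit 0, nat_lit 0, nat_lit 174, nat_lit 0, nat_lit 0, [nat_lit 2032000000, nat_lit 4688000000, nat_lit 6250000000], [], [nat_lit 27955581744, nat_lit 28722726536, nat_lit 38407385744, nat_lit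 39093025360], nat_lit 0, nat_lit 0, nat_lit 0, nat_lit 0, nat_lit 0, nat_lit 0, [], [nat_lit 6, nat_lit 40, nat_lit 80, nat_lit 80, nat_lit 3, nat_lit 203, nat_lit 0, nat_lit 7]⟩,
 zbF0, []⟩
noncomputable def t03_l71 : Lf2 := ⟨nat_lit 0, nat_lit 10, [nat_lit 0, nat_lit 5, nat_lit 5, nat_lit 20], false, nat_lit 0, nat_lit 0, nat_lit 0, nat_lit 0, ⟨nat_lit 1000, nat_lit 0, nat_lit 0, nat_lit 0, nat_lit 0, nat_lit 0, nat_lit 0, nat_lit 0, nat_lit 0, nat_lit 0, nat_lit 0, nat_lit 0, nat_lit 0, nat_lit 0, nat_lit 0, nat_lit 0, false, false⟩,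
 nat_lit 0, nat_lit 6507, nat_lit 0, nat_lit 0, nat_lit 5072, nat_lit 6356, nat_lit 1514, nat_lit 0, nat_lit 0, nat_lit 669, nat_lit 0, nat_lit 0, nat_lit 0, nat_lit 31472006965047, nat_lit 0, nat_lit 0, nat_lit 0, nat_lit 0, [],
 ⟨t03_k26, nat_lit 0, nat_lit 0, nat_lit 865, nat_lit 0, nat_lit 1777342, [nat_lit 2032000001, nat_lit 4688000000, nat_lit 6250000000], [], [nat_lit 31856893916, nat_lit 32013419493, nat_lit 36304818842, nat_lit 36402633302], nat_lit 1271250, nat_lit 1271250, nat_lit 1066650, nat_lit 3146750, nat_lit 0, nat_lit 0, [nat_lit 490000, nat_lit 1100000, nat_lit 1442500], [nat_lit 6, nat_lit 40, nat_lit 80, nat_lit 80, nat_lit 3, nat_lit 317, nat_lit 100, nat_lit 12]⟩, ⟨t03_k19, nat_lit 0, nat_lit 0, nat_lit 175, nat_lit 0, nat_lit 0, [nat_lit 2032000000, nat_lit 4688000000, nat_lit 6250000000], [], [nat_lit 22404797052, nat_lit 23792945858, nat_lit 39056465136,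 nat_lit 40105503192], nat_lit 0, nat_lit 0, nat_lit 0, nat_lit 0, nat_lit 0, nat_lit 0, [], [nat_lit 6, nat_lit 40, nat_lit 80, nat_lit 80, nat_lit 3, nat_lit 317, nat_lit 100, nat_lit 12]⟩,
 zbF0, []⟩
noncomputable def t03_l72 : Lf2 := ⟨nat_lit 0, nat_lit 10, [nat_lit 0, nat_lit 5, nat_lit 5, nat_lit 20], false, nat_lit 0, nat_lit 0, nat_lit 0, nat_lit 0, ⟨nat_lit 1000, nat_lit 0, nat_lit 0, nat_lit 0, nat_lit 0, nat_lit 0, nat_lit 0, nat_lit 0, nat_lit 0, nat_lit 0, nat_lit 0, nat_lit 0, nat_lit 0, nat_lit 0, nat_lit 0, nat_lit 0, false, false⟩,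
 nat_lit 0, nat_lit 6333, nat_lit 0, nat_lit 0, nat_lit 5031, nat_lit 6146, nat_lit 1465, nat_lit 0, nat_lit 0, nat_lit 658, nat_lit 0, nat_lit 0, nat_lit 0, nat_lit 30190210817540, nat_lit 0, nat_lit 0, nat_lit 0, nat_lit 0, [],
 ⟨t03_k32, nat_lit 0, nat_lit 0, nat_lit 877, nat_lit 0, nat_lit 1810071, [nat_lit 2032000001, nat_lit 4688000000, nat_lit 6250000000], [], [nat_lit 31692580040, nat_lit 31851968235, nat_lit 36482072060, nat_lit 36593448831], nat_lit 1271250, nat_lit 1271250, nat_lit 1100001, nat_lit 3155000, nat_lit 0, nat_lit 0, [nat_lit 490000, nat_lit 1100000, nat_lit 1442500], [nat_lit 6, nat_lit 40, nat_lit 80, nat_lit 80, nat_lit 3, nat_lit 317, nat_lit 100, nat_lit 12]⟩, ⟨t03_k19, nat_lit 0, nat_lit 0, nat_lit 176, nat_lit 0, nat_lit 0, [nat_lit 2032000000, nat_lit 4688000000, nat_lit 6250000000], [], [nat_lit 22677597464, nat_lit 24479658504, nat_lit 38468936376,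 nat_lit 39842817504], nat_lit 0, nat_lit 0, nat_lit 0, nat_lit 0, nat_lit 0, nat_lit 0, [], [nat_lit 6, nat_lit 40, nat_lit 80, nat_lit 80, nat_lit 3, nat_lit 317, nat_lit 100, nat_lit 12]⟩,
 zbF0, []⟩
noncomputable def t03_l73 : Lf2 := ⟨nat_lit 0, nat_lit 10, [nat_lit 0, nat_lit 5, nat_lit 5, nat_lit 20], false, nat_lit 0, nat_lit 0, nat_lit 0, nat_lit 0, ⟨nat_lit 1000, nat_lit 0, nat_lit 0, nat_lit 0, nat_lit 0, nat_lit 0, nat_lit 0, nat_lit 0, nat_lit 0, nat_lit 0, nat_lit 0, nat_lit 0, nat_lit 0, nat_lit 0, nat_lit 0, nat_lit 0, false, false⟩,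
 nat_lit 0, nat_lit 6123, nat_lit 0, nat_lit 0, nat_lit 4956, nat_lit 5020, nat_lit 1174, nat_lit 0, nat_lit 0, nat_lit 650, nat_lit 0, nat_lit 0, nat_lit 0, nat_lit 0, nat_lit 0, nat_lit 0, nat_lit 0, nat_lit 0, [],
 ⟨t03_k28, nat_lit 0, nat_lit 0, nat_lit 918, nat_lit 0, nat_lit 1893903, [nat_lit 2032000001, nat_lit 4688000000, nat_lit 6250000000], [], [nat_lit 32344709859, nat_lit 32971475896, nat_lit 37164874281, nat_lit 37609188417], nat_lit 1271250, nat_lit 1271250, nat_lit 1167600, nat_lit 3171500, nat_lit 0, nat_lit 0, [nat_lit 490000, nat_lit 1100000, nat_lit 1442500], [nat_lit 6, nat_lit 40, nat_lit 80, nat_lit 80, nat_lit 3, nat_lit 325, nat_lit 100, nat_lit 12]⟩, ⟨t03_k19, nat_lit 0, nat_lit 0, nat_lit 176, nat_lit 0, nat_lit 0, [nat_lit 2032000000, nat_lit 4688000000, nat_lit 6250000000], [], [nat_lit 24101615824, nat_lit 25675803033, nat_lit 35611842720, nat_lit 36562216640],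 nat_lit 0, nat_lit 0, nat_lit 0, nat_lit 0, nat_lit 0, nat_lit 0, [], [nat_lit 6, nat_lit 40, nat_lit 80, nat_lit 80, nat_lit 3, nat_lit 317, nat_lit 100, nat_lit 12]⟩,
 zbF0, [⟨nat_lit 0, nat_lit 72, nat_lit 61, nat_lit 100, nat_lit 167959362⟩]⟩
noncomputable def t03_l74 : Lf2 := ⟨nat_lit 0, nat_lit 10, [nat_lit 0, nat_lit 5, nat_lit 5, nat_lit 20], false, nat_lit 0, nat_lit 0, nat_lit 0, nat_lit 0, ⟨nat_lit 1000, nat_lit 0, nat_lit 0, nat_lit 0, nat_lit 0, nat_lit 0, nat_lit 0, nat_lit 0, nat_lit 0, nat_lit 0, nat_lit 0, nat_lit 0, nat_lit 0, nat_lit 0, nat_lit 0, nat_lit 0, false, false⟩,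
 nat_lit 8302, nat_lit 0, nat_lit 0, nat_lit 0, nat_lit 6226, nat_lit 6226, nat_lit 499, nat_lit 0, nat_lit 0, nat_lit 506, nat_lit 0, nat_lit 0, nat_lit 0, nat_lit 0, nat_lit 0, nat_lit 0, nat_lit 0, nat_lit 0, [],
 ⟨t03_k19, nat_lit 0, nat_lit 0, nat_lit 527, nat_lit 0, nat_lit 977012, [nat_lit 2032000001, nat_lit 4688000000, nat_lit 6250000000], [], [nat_lit 32367235303, nat_lit 34178094674, nat_lit 38692756856, nat_lit 41459441992], nat_lit 1271250, nat_lit 1271250, nat_lit 936251, nat_lit 3113750, nat_lit 0, nat_lit 0, [nat_lit 490000, nat_lit 1100000, nat_lit 1442500], [nat_lit 6, nat_lit 40, nat_lit 80, nat_lit 80, nat_lit 3, nat_lit 317, nat_lit 100, nat_lit 12]⟩, ⟨t03_k19, nat_lit 0, nat_lit 0, nat_lit 522, nat_lit 0, nat_lit 977012, [nat_lit 2032000000, nat_lit 4688000000, nat_lit 6250000000], [], [nat_lit 32339235302, nat_lit 33215912563, nat_lit 38692756856, nat_lit 40076099424],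 nat_lit 1271250, nat_lit 1271250, nat_lit 936251, nat_lit 3113750, nat_lit 0, nat_lit 0, [nat_lit 490000, nat_lit 1100000, nat_lit 1442500], [nat_lit 6, nat_lit 40, nat_lit 80, nat_lit 80, nat_lit 3, nat_lit 317, nat_lit 100, nat_lit 12]⟩,
 zbF0, [⟨nat_lit 0, nat_lit 72, nat_lit 61, nat_lit 100, nat_lit 324987465⟩]⟩
noncomputable def t03_l75 : Lf2 := ⟨nat_lit 0, nat_lit 5, [nat_lit 4, nat_lit 5, nat_lit 5, nat_lit 20], false, nat_lit 0, nat_lit 0, nat_lit 0, nat_lit 0, ⟨nat_lit 1000, nat_lit 0, nat_lit 0, nat_lit 0, nat_lit 0, nat_lit 0, nat_lit 0, nat_lit 0, nat_lit 0, nat_lit 0, nat_lit 0, nat_lit 0, nat_lit 0, nat_lit 0, nat_lit 0, nat_lit 0, false, false⟩,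
 nat_lit 0, nat_lit 9017, nat_lit 0, nat_lit 0, nat_lit 6842, nat_lit 4006, nat_lit 2846, nat_lit 0, nat_lit 0, nat_lit 710, nat_lit 0, nat_lit 0, nat_lit 0, nat_lit 0, nat_lit 0, nat_lit 0, nat_lit 0, nat_lit 0, [],
 ⟨t03_k14, nat_lit 0, nat_lit 0, nat_lit 725, nat_lit 0, nat_lit 1626023, [nat_lit 2032000001, nat_lit 4688000000], [], [nat_lit 23829986064, nat_lit 23892773373, nat_lit 26030603399, nat_lit 26280541557], nat_lit 1271250, nat_lit 1271250, nat_lit 968401, nat_lit 1776000, nat_lit 0, nat_lit 0, [nat_lit 490000, nat_lit 1100000], [nat_lit 24, nat_lit 40, nat_lit 80, nat_lit 80, nat_lit 33, nat_lit 272, nat_lit 60, nat_lit 12]⟩, ⟨t03_k33, nat_lit 0, nat_lit 0, nat_lit 116, nat_lit 0, nat_lit 0, [nat_lit 2032000000, nat_lit 4688000000, nat_lit 6250000000], [], [nat_lit 20901120940, nat_lit 21310155324, nat_lit 24028107480, nat_lit 24412644440], nat_lit 0, nat_lit 0, nat_lit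 0, nat_lit 0, nat_lit 0, nat_lit 0, [], [nat_lit 6, nat_lit 40, nat_lit 80, nat_lit 80, nat_lit 3, nat_lit 272, nat_lit 60, nat_lit 10]⟩,
 zbF0, [⟨nat_lit 0, nat_lit 80, nat_lit 80, nat_lit 100, nat_lit 295757805⟩]⟩
noncomputable def t03_l76 : Lf2 := ⟨nat_lit 0, nat_lit 10, [nat_lit 0, nat_lit 5, nat_lit 5, nat_lit 20], false, nat_lit 0, nat_lit 0, nat_lit 0, nat_lit 0, ⟨nat_lit 1000, nat_lit 0, nat_lit 0, nat_lit 0, nat_lit 0, nat_lit 0, nat_lit 0, nat_lit 0, nat_lit 0, nat_lit 0, nat_lit 0, nat_lit 0, nat_lit 0, nat_lit 0, nat_lit 0, nat_lit 0, false, false⟩,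
 nat_lit 0, nat_lit 8744, nat_lit 0, nat_lit 0, nat_lit 6634, nat_lit 4012, nat_lit 1759, nat_lit 0, nat_lit 0, nat_lit 712, nat_lit 0, nat_lit 0, nat_lit 0, nat_lit 25079133172986, nat_lit 0, nat_lit 0, nat_lit 0, nat_lit 0, [],
 ⟨t03_k24, nat_lit 0, nat_lit 0, nat_lit 688, nat_lit 0, nat_lit 1372144, [nat_lit 2032000001, nat_lit 4688000000, nat_lit 6250000000], [], [nat_lit 28665863875, nat_lit 28700967122, nat_lit 29516791652, nat_lit 29551261082], nat_lit 1271250, nat_lit 1271250, nat_lit 968401, nat_lit 1776000, nat_lit 0, nat_lit 0, [nat_lit 490000, nat_lit 1100000, nat_lit 1442500], [nat_lit 6, nat_lit 40, nat_lit 80, nat_lit 80, nat_lit 3, nat_lit 272, nat_lit 60, nat_lit 10]⟩, ⟨t03_k19, nat_lit 0, nat_lit 0, nat_lit 116, nat_lit 0, nat_lit 0, [nat_lit 2032000000, nat_lit 4688000000, nat_lit 6250000000], [], [nat_lit 20888748279, nat_lit 21218138306, nat_lit 24029142960, nat_lit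 24337014496], nat_lit 0, nat_lit 0, nat_lit 0, nat_lit 0, nat_lit 0, nat_lit 0, [], [nat_lit 6, nat_lit 40, nat_lit 80, nat_lit 80, nat_lit 3, nat_lit 272, nat_lit 60, nat_lit 10]⟩,
 zbF0, [⟨nat_lit 0, nat_lit 81, nat_lit 81, nat_lit 100, nat_lit 411406636⟩]⟩
noncomputable def t03_l77 : Lf2 := ⟨nat_lit 0, nat_lit 10, [nat_lit 0, nat_lit 5, nat_lit 5, nat_lit 20], false, nat_lit 0, nat_lit 0, nat_lit 0, nat_lit 0, ⟨nat_lit 1000, nat_lit 0, nat_lit 0, nat_lit 0, nat_lit 0, nat_lit 0, nat_lit 0, nat_lit 0, nat_lit 0, nat_lit 0, nat_lit 0, nat_lit 0, nat_lit 0, nat_lit 0, nat_lit 0, nat_lit 0, false, false⟩,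
 nat_lit 0, nat_lit 9594, nat_lit 0, nat_lit 0, nat_lit 7308, nat_lit 4007, nat_lit 2043, nat_lit 0, nat_lit 0, nat_lit 707, nat_lit 0, nat_lit 0, nat_lit 0, nat_lit 0, nat_lit 0, nat_lit 0, nat_lit 0, nat_lit 0, [],
 ⟨t03_k31, nat_lit 0, nat_lit 0, nat_lit 692, nat_lit 0, nat_lit 1380535, [nat_lit 2032000001, nat_lit 4688000000, nat_lit 6250000000], [], [nat_lit 23312390536, nat_lit 23347295283, nat_lit 26866624543, nat_lit 26997346718], nat_lit 1271250, nat_lit 1271250, nat_lit 1000851, nat_lit 1778250, nat_lit 0, nat_lit 0, [nat_lit 490000, nat_lit 1100000, nat_lit 1442500], [nat_lit 6, nat_lit 40, nat_lit 80, nat_lit 80, nat_lit 3, nat_lit 272, nat_lit 60, nat_lit 10]⟩, ⟨t03_k19, nat_lit 0, nat_lit 0, nat_lit 116, nat_lit 0, nat_lit 0, [nat_lit 2032000000, nat_lit 4688000000, nat_lit 6250000000], [], [nat_lit 20961029774, nat_lit 21361099850, nat_lit 24028280060, nat_lit 24412867430],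 nat_lit 0, nat_lit 0, nat_lit 0, nat_lit 0, nat_lit 0, nat_lit 0, [], [nat_lit 6, nat_lit 40, nat_lit 80, nat_lit 80, nat_lit 3, nat_lit 272, nat_lit 60, nat_lit 10]⟩,
 zbF0, [⟨nat_lit 0, nat_lit 80, nat_lit 80, nat_lit 100, nat_lit 171659301⟩]⟩
noncomputable def t03_l78 : Lf2 := ⟨nat_lit 0, nat_lit 10, [nat_lit 0, nat_lit 5, nat_lit 5, nat_lit 20], false, nat_lit 0, nat_lit 0, nat_lit 0, nat_lit 0, ⟨nat_lit 1000, nat_lit 0, nat_lit 0, nat_lit 0, nat_lit 0, nat_lit 0, nat_lit 0, nat_lit 0, nat_lit 0, nat_lit 0, nat_lit 0, nat_lit 0, nat_lit 0, nat_lit 0, nat_lit 0, nat_lit 0, false, false⟩,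
 nat_lit 0, nat_lit 8393, nat_lit 0, nat_lit 0, nat_lit 6417, nat_lit 3978, nat_lit 2262, nat_lit 0, nat_lit 0, nat_lit 644, nat_lit 0, nat_lit 0, nat_lit 0, nat_lit 21058499627551, nat_lit 0, nat_lit 0, nat_lit 0, nat_lit 0, [],
 ⟨t03_k25, nat_lit 0, nat_lit 0, nat_lit 854, nat_lit 0, nat_lit 1742899, [nat_lit 2032000001, nat_lit 4688000000, nat_lit 6250000000], [], [nat_lit 25685283662, nat_lit 25821431235, nat_lit 26120122570, nat_lit 26235705378], nat_lit 1271250, nat_lit 1271250, nat_lit 1000851, nat_lit 1778250, nat_lit 0, nat_lit 0, [nat_lit 490000, nat_lit 1100000, nat_lit 1442500], [nat_lit 6, nat_lit 40, nat_lit 80, nat_lit 80, nat_lit 3, nat_lit 285, nat_lit 60, nat_lit 11]⟩, ⟨t03_k19, nat_lit 0, nat_lit 0, nat_lit 120, nat_lit 0, nat_lit 0, [nat_lit 2032000000, nat_lit 4688000000, nat_lit 6250000000], [], [nat_lit 21234499826, nat_lit 22031520816, nat_lit 24084045088,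 nat_lit 24790940500], nat_lit 0, nat_lit 0, nat_lit 0, nat_lit 0, nat_lit 0, nat_lit 0, [], [nat_lit 6, nat_lit 40, nat_lit 80, nat_lit 80, nat_lit 3, nat_lit 272, nat_lit 60, nat_lit 10]⟩,
 zbF0, [⟨nat_lit 0, nat_lit 77, nat_lit 77, nat_lit 100, nat_lit 499852156⟩]⟩
noncomputable def t03_l79 : Lf2 := ⟨nat_lit 0, nat_lit 10, [nat_lit 0, nat_lit 5, nat_lit 5, nat_lit 20], false, nat_lit 0, nat_lit 0, nat_lit 0, nat_lit 0, ⟨nat_lit 1000, nat_lit 0, nat_lit 0, nat_lit 0, nat_lit 0, nat_lit 0, nat_lit 0, nat_lit 0, nat_lit 0, nat_lit 0, nat_lit 0, nat_lit 0, nat_lit 0, nat_lit 0, nat_lit 0, nat_lit 0, false, false⟩,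
 nat_lit 0, nat_lit 6950, nat_lit 0, nat_lit 0, nat_lit 5314, nat_lit 6124, nat_lit 2348, nat_lit 0, nat_lit 0, nat_lit 0, nat_lit 0, nat_lit 0, nat_lit 0, nat_lit 0, nat_lit 0, nat_lit 0, nat_lit 0, nat_lit 0, [],
 ⟨t03_k25, nat_lit 0, nat_lit 0, nat_lit 830, nat_lit 0, nat_lit 1742899, [nat_lit 2032000001, nat_lit 4688000000, nat_lit 6250000000], [], [nat_lit 33951931014, nat_lit 34063321871, nat_lit 36703601154, nat_lit 36780586119], nat_lit 1271250, nat_lit 1271250, nat_lit 1271250, nat_lit 1271250, nat_lit 0, nat_lit 0, [nat_lit 490000, nat_lit 1100000, nat_lit 1442500], [nat_lit 6, nat_lit 40, nat_lit 80, nat_lit 80, nat_lit 3, nat_lit 299, nat_lit 0, nat_lit 11]⟩, ⟨t03_k19, nat_lit 0, nat_lit 0, nat_lit 174, nat_lit 0, nat_lit 0, [nat_lit 2032000000, nat_lit 4688000000, nat_lit 6250000000], [], [nat_lit 27955581744, nat_lit 28722726536, nat_lit 38407385744, nat_lit 39093025360],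 nat_lit 0, nat_lit 0, nat_lit 0, nat_lit 0, nat_lit 0, nat_lit 0, [], [nat_lit 6, nat_lit 40, nat_lit 80, nat_lit 80, nat_lit 3, nat_lit 203, nat_lit 0, nat_lit 7]⟩,
 zbF0, []⟩
noncomputable def t03_l80 : Lf2 := ⟨nat_lit 0, nat_lit 10, [nat_lit 0, nat_lit 5, nat_lit 5, nat_lit 20], false, nat_lit 0, nat_lit 0, nat_lit 0, nat_lit 0, ⟨nat_lit 1000, nat_lit 0, nat_lit 0, nat_lit 0, nat_lit 0, nat_lit 0, nat_lit 0, nat_lit 0, nat_lit 0, nat_lit 0, nat_lit 0, nat_lit 0, nat_lit 0, nat_lit 0, nat_lit 0, nat_lit 0, false, false⟩,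
 nat_lit 0, nat_lit 6507, nat_lit 0, nat_lit 0, nat_lit 5072, nat_lit 6356, nat_lit 1514, nat_lit 0, nat_lit 0, nat_lit 669, nat_lit 0, nat_lit 0, nat_lit 0, nat_lit 18664711923253, nat_lit 0, nat_lit 0, nat_lit 0, nat_lit 0, [],
 ⟨t03_k26, nat_lit 0, nat_lit 0, nat_lit 865, nat_lit 0, nat_lit 1777342, [nat_lit 2032000001, nat_lit 4688000000, nat_lit 6250000000], [], [nat_lit 31856893916, nat_lit 32013419493, nat_lit 36304818842, nat_lit 36402633302], nat_lit 1271250, nat_lit 1271250, nat_lit 1066650, nat_lit 3146750, nat_lit 0, nat_lit 0, [nat_lit 490000, nat_lit 1100000, nat_lit 1442500], [nat_lit 6, nat_lit 40, nat_lit 80, nat_lit 80, nat_lit 3, nat_lit 317, nat_lit 100, nat_lit 12]⟩, ⟨t03_k19, nat_lit 0, nat_lit 0, nat_lit 175, nat_lit 0, nat_lit 0, [nat_lit 2032000000, nat_lit 4688000000, nat_lit 6250000000], [], [nat_lit 22404797052, nat_lit 23792945858, nat_lit 39056465136,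 nat_lit 40105503192], nat_lit 0, nat_lit 0, nat_lit 0, nat_lit 0, nat_lit 0, nat_lit 0, [], [nat_lit 6, nat_lit 40, nat_lit 80, nat_lit 80, nat_lit 3, nat_lit 317, nat_lit 100, nat_lit 12]⟩,
 zbF0, []⟩
noncomputable def t03_l81 : Lf2 := ⟨nat_lit 0, nat_lit 10, [nat_lit 0, nat_lit 5, nat_lit 5, nat_lit 20], false, nat_lit 0, nat_lit 0, nat_lit 0, nat_lit 0, ⟨nat_lit 1000, nat_lit 0, nat_lit 0, nat_lit 0, nat_lit 0, nat_lit 0, nat_lit 0, nat_lit 0, nat_lit 0, nat_lit 0, nat_lit 0, nat_lit 0, nat_lit 0, nat_lit 0, nat_lit 0, nat_lit 0, false, false⟩,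
 nat_lit 0, nat_lit 6333, nat_lit 0, nat_lit 0, nat_lit 5031, nat_lit 6146, nat_lit 1465, nat_lit 0, nat_lit 0, nat_lit 658, nat_lit 0, nat_lit 0, nat_lit 0, nat_lit 30190210817540, nat_lit 0, nat_lit 0, nat_lit 0, nat_lit 0, [],
 ⟨t03_k32, nat_lit 0, nat_lit 0, nat_lit 877, nat_lit 0, nat_lit 1810071, [nat_lit 2032000001, nat_lit 4688000000, nat_lit 6250000000], [], [nat_lit 31692580040, nat_lit 31851968235, nat_lit 36482072060, nat_lit 36593448831], nat_lit 1271250, nat_lit 1271250, nat_lit 1100001, nat_lit 3155000, nat_lit 0, nat_lit 0, [nat_lit 490000, nat_lit 1100000, nat_lit 1442500], [nat_lit 6, nat_lit 40, nat_lit 80, nat_lit 80, nat_lit 3, nat_lit 317, nat_lit 100, nat_lit 12]⟩, ⟨t03_k19, nat_lit 0, nat_lit 0, nat_lit 176, nat_lit 0, nat_lit 0, [nat_lit 2032000000, nat_lit 4688000000, nat_lit 6250000000], [], [nat_lit 22677597464, nat_lit 24479658504, nat_lit 38468936376,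 nat_lit 39842817504], nat_lit 0, nat_lit 0, nat_lit 0, nat_lit 0, nat_lit 0, nat_lit 0, [], [nat_lit 6, nat_lit 40, nat_lit 80, nat_lit 80, nat_lit 3, nat_lit 317, nat_lit 100, nat_lit 12]⟩,
 zbF0, []⟩
noncomputable def t03_l82 : Lf2 := ⟨nat_lit 0, nat_lit 10, [nat_lit 0, nat_lit 5, nat_lit 5, nat_lit 20], false, nat_lit 0, nat_lit 0, nat_lit 0, nat_lit 0, ⟨nat_lit 1000, nat_lit 0, nat_lit 0, nat_lit 0, nat_lit 0, nat_lit 0, nat_lit 0, nat_lit 0, nat_lit 0, nat_lit 0, nat_lit 0, nat_lit 0, nat_lit 0, nat_lit 0, nat_lit 0, nat_lit 0, false, false⟩,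
 nat_lit 0, nat_lit 6123, nat_lit 0, nat_lit 0, nat_lit 4956, nat_lit 5020, nat_lit 1174, nat_lit 0, nat_lit 0, nat_lit 859, nat_lit 0, nat_lit 0, nat_lit 0, nat_lit 0, nat_lit 0, nat_lit 0, nat_lit 0, nat_lit 0, [],
 ⟨t03_k28, nat_lit 0, nat_lit 0, nat_lit 918, nat_lit 0, nat_lit 1893903, [nat_lit 2032000001, nat_lit 4688000000, nat_lit 6250000000], [], [nat_lit 32344709859, nat_lit 32971475896, nat_lit 37164874281, nat_lit 37609188417], nat_lit 1271250, nat_lit 1271250, nat_lit 1167600, nat_lit 3171500, nat_lit 0, nat_lit 0, [nat_lit 490000, nat_lit 1100000, nat_lit 1442500], [nat_lit 6, nat_lit 40, nat_lit 80, nat_lit 80, nat_lit 3, nat_lit 325, nat_lit 100, nat_lit 12]⟩, ⟨t03_k19, nat_lit 0, nat_lit 0, nat_lit 176, nat_lit 0, nat_lit 0, [nat_lit 2032000000, nat_lit 4688000000, nat_lit 6250000000], [], [nat_lit 23983575968, nat_lit 25674457912, nat_lit 35611842720, nat_lit 36562216640],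 nat_lit 0, nat_lit 0, nat_lit 0, nat_lit 0, nat_lit 0, nat_lit 0, [], [nat_lit 6, nat_lit 40, nat_lit 80, nat_lit 80, nat_lit 3, nat_lit 317, nat_lit 100, nat_lit 12]⟩,
 zbF0, [⟨nat_lit 0, nat_lit 72, nat_lit 61, nat_lit 100, nat_lit 167959362⟩]⟩
noncomputable def t03_l83 : Lf2 := ⟨nat_lit 0, nat_lit 10, [nat_lit 0, nat_lit 5, nat_lit 5, nat_lit 20], false, nat_lit 0, nat_lit 0, nat_lit 0, nat_lit 0, ⟨nat_lit 976, nat_lit 24, nat_lit 0, nat_lit 8, nat_lit 302, nat_lit 0, nat_lit 0, nat_lit 0, nat_lit 0, nat_lit 0, nat_lit 0, nat_lit 0, nat_lit 0, nat_lit 0, nat_lit 0, nat_lit 5000000, true, false⟩,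
 nat_lit 8107, nat_lit 0, nat_lit 0, nat_lit 0, nat_lit 6079, nat_lit 6079, nat_lit 645, nat_lit 0, nat_lit 0, nat_lit 498, nat_lit 0, nat_lit 0, nat_lit 0, nat_lit 0, nat_lit 0, nat_lit 24000, nat_lit 0, nat_lit 0, [(nat_lit 18, [(nat_lit 2, nat_lit 24)]), (nat_lit 21, [(nat_lit 2, nat_lit 24)])],
 ⟨t03_k19, nat_lit 0, nat_lit 0, nat_lit 527, nat_lit 0, nat_lit 977012, [nat_lit 2024076800, nat_lit 4600576000, nat_lit 6089363200], [], [nat_lit 32490695130, nat_lit 34259590399, nat_lit 38606056532, nat_lit 41013401068], nat_lit 1271250, nat_lit 1271250, nat_lit 936251, nat_lit 3113750, nat_lit 0, nat_lit 0, [nat_lit 490000, nat_lit 1100000, nat_lit 1442500], [nat_lit 6, nat_lit 40, nat_lit 80, nat_lit 80, nat_lit 3, nat_lit 317, nat_lit 100, nat_lit 12]⟩, ⟨t03_k19, nat_lit 0, nat_lit 0, nat_lit 522, nat_lit 0, nat_lit 977012, [nat_lit 1983232000, nat_lit 4575488000, nat_lit 6100000000],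 [], [nat_lit 31534835737, nat_lit 32408245147, nat_lit 37770912452, nat_lit 39121341480], nat_lit 1271250, nat_lit 1271250, nat_lit 936251, nat_lit 3113750, nat_lit 0, nat_lit 0, [nat_lit 490000, nat_lit 1100000, nat_lit 1442500], [nat_lit 6, nat_lit 40, nat_lit 80, nat_lit 80, nat_lit 3, nat_lit 317, nat_lit 100, nat_lit 12]⟩,
 ⟨nat_lit 3162, nat_lit 4473, ⟨.ofNat (nat_lit 526772), .ofNat (nat_lit 969090), .ofNat (nat_lit 548248), .ofNat (nat_lit 990589), .ofNat (nat_lit 540839), .ofNat (nat_lit 937496), .ofNat (nat_lit 562904), .ofNat (nat_lit 959584)⟩, ⟨.ofNat (nat_lit 0), .ofNat (nat_lit 0), .ofNat (nat_lit 0), .ofNat (nat_lit 0), .ofNat (nat_lit 0), .ofNat (nat_lit 0), .ofNat (nat_lit 0), .ofNat (nat_lit 0)⟩⟩, [⟨nat_lit 0, nat_lit 72, nat_lit 61, nat_lit 100, nat_lit 331352626⟩]⟩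
theorem r_N_800_800_0 (h : EB TB.env) : Dead (RC.box ⟨false, 40, 320, 360, 320, 340, 0, 0, [180]⟩ 0 180) := chkB_sound h (refs := [b_N_800_800_0_0, b_N_800_800_0_1, b_N_800_800_0_2, b_N_800_800_0_3, b_N_800_800_0_4, b_N_800_800_0_5, b_N_800_800_0_6, b_N_800_800_0_7, b_N_800_800_0_8, b_N_800_800_0_9, b_N_800_800_0_10, b_N_800_800_0_11, b_N_800_800_0_12, b_N_800_800_0_13, b_N_800_800_0_14, b_N_800_800_0_15, b_N_800_800_0_16]) (refs_cons (d_N_800_800_0_0 h) (refs_cons (d_N_800_800_0_1 h) (refs_cons (d_N_800_800_0_2 h) (refs_cons (d_N_800_800_0_3 h) (refs_cons (d_N_800_800_0_4 h) (refs_cons (d_N_800_800_0_5 h) (refs_cons (d_N_800_800_0_6 h) (refs_cons (d_N_800_800_0_7 h) (refs_cons (d_N_800_800_0_8 h) (refs_cons (d_N_800_800_0_9 h) (refs_cons (d_N_800_800_0_10 h) (refs_cons (d_N_800_800_0_11 h) (refs_cons (d_N_800_800_0_12 h) (refs_cons (d_N_800_800_0_13 h) (refs_cons (d_N_800_800_0_14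 h) (refs_cons (d_N_800_800_0_15 h) (refs_cons (d_N_800_800_0_16 h) (refs_nil)))))))))))))))))) (T :=
(.trZ (nat_lit 0) (nat_lit 83) (nat_lit 83) (nat_lit 100) (nat_lit 140) (.spl (nat_lit 6) (nat_lit 40)
(.st (nat_lit 0)
(.ref (nat_lit 0))
(.gv
(.st (nat_lit 1)
(.spl (nat_lit 0) (nat_lit 340)
(.spl (nat_lit 0) (nat_lit 330)
(.ord (.spl (nat_lit 0) (nat_lit 325)
(.ord (.spl (nat_lit 2) (nat_lit 240)
(.spl (nat_lit 1) (nat_lit 323)
(.spl (nat_lit 6) (nat_lit 20)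
(.spl (nat_lit 6) (nat_lit 8)
(.spl (nat_lit 6) (nat_lit 4)
(.leaf t03_l59)
(.spl (nat_lit 1) (nat_lit 322)
(.spl (nat_lit 0) (nat_lit 323)
(.spl (nat_lit 0) (nat_lit 322)
(.spl (nat_lit 0) (nat_lit 321)
(.ref (nat_lit 1))
(.ref (nat_lit 2)))
(.trZ (nat_lit 0) (nat_lit 83) (nat_lit 82) (nat_lit 100) (nat_lit 144) (.leaf t03_l60)))
(.trZ (nat_lit 0) (nat_lit 83) (nat_lit 82) (nat_lit 100) (nat_lit 144) (.leaf t03_l61)))
(.ord (.trZ (nat_lit 0) (nat_lit 82) (nat_lit 82) (nat_lit 100) (nat_lit 148) (.leaf t03_l62)))))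
(.spl (nat_lit 6) (nat_lit 16)
(.spl (nat_lit 1) (nat_lit 322)
(.spl (nat_lit 0) (nat_lit 323)
(.spl (nat_lit 0) (nat_lit 322)
(.spl (nat_lit 2) (nat_lit 200)
(.ref (nat_lit 3))
(.ref (nat_lit 4)))
(.trZ (nat_lit 0) (nat_lit 83) (nat_lit 82) (nat_lit 100) (nat_lit 144) (.leaf t03_l63)))
(.trZ (nat_lit 0) (nat_lit 83) (nat_lit 82) (nat_lit 100) (nat_lit 144) (.leaf t03_l64)))
(.ord (.trZ (nat_lit 0) (nat_lit 82) (nat_lit 82) (nat_lit 100) (nat_lit 148) (.leaf t03_l65))))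
(.ref (nat_lit 5))))
(.spl (nat_lit 6) (nat_lit 32)
(.ref (nat_lit 6))
(.ref (nat_lit 7))))
(.ord (.trZ (nat_lit 0) (nat_lit 81) (nat_lit 81) (nat_lit 100) (nat_lit 148) (.spl (nat_lit 6) (nat_lit 20)
(.leaf t03_l66)
(.spl (nat_lit 0) (nat_lit 324)
(.ord (.leaf t03_l67))
(.trZ (nat_lit 0) (nat_lit 81) (nat_lit 81) (nat_lit 100) (nat_lit 152) (.leaf t03_l68)))))))
(.ref (nat_lit 8))))
(.trZ (nat_lit 0) (nat_lit 83) (nat_lit 81) (nat_lit 100) (nat_lit 148) (.spl (nat_lit 2) (nat_lit 240)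
(.leaf t03_l69)
(.leaf t03_l70)))))
(.trZ (nat_lit 0) (nat_lit 82) (nat_lit 78) (nat_lit 100) (nat_lit 156) (.spl (nat_lit 0) (nat_lit 335)
(.ord (.leaf t03_l71))
(.trZ (nat_lit 0) (nat_lit 81) (nat_lit 75) (nat_lit 100) (nat_lit 160) (.leaf t03_l72)))))
(.trZ (nat_lit 0) (nat_lit 81) (nat_lit 72) (nat_lit 100) (nat_lit 168) (.leaf t03_l73)))
(.leaf t03_l74))
(.st (nat_lit 1)
(.spl (nat_lit 0) (nat_lit 340)
(.spl (nat_lit 0) (nat_lit 330)
(.ord (.spl (nat_lit 0) (nat_lit 325)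
(.ord (.spl (nat_lit 2) (nat_lit 240)
(.spl (nat_lit 6) (nat_lit 20)
(.spl (nat_lit 0) (nat_lit 323)
(.ord (.spl (nat_lit 6) (nat_lit 8)
(.ref (nat_lit 9))
(.spl (nat_lit 6) (nat_lit 16)
(.ref (nat_lit 10))
(.ref (nat_lit 11)))))
(.trZ (nat_lit 0) (nat_lit 83) (nat_lit 82) (nat_lit 100) (nat_lit 144) (.leaf t03_l75)))
(.spl (nat_lit 0) (nat_lit 323)
(.ref (nat_lit 12))
(.trZ (nat_lit 0) (nat_lit 83) (nat_lit 82) (nat_lit 100) (nat_lit 144) (.spl (nat_lit 0) (nat_lit 324)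
(.ord (.leaf t03_l76))
(.trZ (nat_lit 0) (nat_lit 83) (nat_lit 81) (nat_lit 100) (nat_lit 148) (.leaf t03_l77))))))
(.ref (nat_lit 13))))
(.trZ (nat_lit 0) (nat_lit 83) (nat_lit 81) (nat_lit 100) (nat_lit 148) (.spl (nat_lit 2) (nat_lit 240)
(.leaf t03_l78)
(.leaf t03_l79)))))
(.trZ (nat_lit 0) (nat_lit 82) (nat_lit 78) (nat_lit 100) (nat_lit 156) (.spl (nat_lit 0) (nat_lit 335)
(.ord (.leaf t03_l80))
(.trZ (nat_lit 0) (nat_lit 81) (nat_lit 75) (nat_lit 100) (nat_lit 160) (.leaf t03_l81)))))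
(.trZ (nat_lit 0) (nat_lit 81) (nat_lit 72) (nat_lit 100) (nat_lit 168) (.leaf t03_l82)))
(.leaf t03_l83))))
(.spl (nat_lit 6) (nat_lit 80)
(.st (nat_lit 0)
(.ref (nat_lit 14))
(.ref (nat_lit 15)))
(.ref (nat_lit 16)))))) (by decide +kernel)
theorem done_N_800_800_0 (h : EB TB.env) : RC.Done ⟨false, 40, 320, 360, 320, 340, 0, 0, [180]⟩ := RC.done1 (r_N_800_800_0 h) (t_N_800_800_0 h)
theorem t_N_900_400_0 (h : EB TB.env) : RC.Tail ⟨false, 40, 360, 400, 160, 200, 0, 0, [172]⟩ := RC.tail_chk h (b := ⟨nat_lit 20, nat_lit 86, nat_lit 5, nat_lit 5, nat_lit 20, nat_lit 203, nat_lit 0, nat_lit 29, nat_lit 0⟩) (by decide +kernel)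
theorem r_N_900_400_0 (h : EB TB.env) : Dead (RC.box ⟨false, 40, 360, 400, 160, 200, 0, 0, [172]⟩ 0 172) := chkB_sound h (refs := [b_N_900_400_0_0, b_N_900_400_0_1]) (refs_cons (d_N_900_400_0_0 h) (refs_cons (d_N_900_400_0_1 h) (refs_nil))) (T :=
(.trZ (nat_lit 0) (nat_lit 100) (nat_lit 61) (nat_lit 68) (nat_lit 48) (.trX (nat_lit 13) (nat_lit 60) (nat_lit 80) (nat_lit 100) (nat_lit 320) (.spl (nat_lit 6) (nat_lit 40)
(.ref (nat_lit 0))
(.ref (nat_lit 1)))))) (by decide +kernel)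
theorem done_N_900_400_0 (h : EB TB.env) : RC.Done ⟨false, 40, 360, 400, 160, 200, 0, 0, [172]⟩ := RC.done1 (r_N_900_400_0 h) (t_N_900_400_0 h)
theorem t_N_900_500_0 (h : EB TB.env) : RC.Tail ⟨false, 40, 360, 400, 200, 240, 0, 0, [176]⟩ := RC.tail_chk h (b := ⟨nat_lit 20, nat_lit 88, nat_lit 5, nat_lit 5, nat_lit 20, nat_lit 203, nat_lit 0, nat_lit 28, nat_lit 0⟩) (by decide +kernel)
theorem r_N_900_500_0 (h : EB TB.env) : Dead (RC.box ⟨false, 40, 360, 400, 200, 240, 0, 0, [176]⟩ 0 176) := chkB_sound h (refs := [b_N_900_500_0_0, b_N_900_500_0_1]) (refs_cons (d_N_900_500_0_0 h) (refs_cons (d_N_900_500_0_1 h) (refs_nil))) (T :=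
(.trZ (nat_lit 0) (nat_lit 100) (nat_lit 60) (nat_lit 80) (nat_lit 80) (.trX (nat_lit 13) (nat_lit 61) (nat_lit 68) (nat_lit 100) (nat_lit 352) (.spl (nat_lit 6) (nat_lit 40)
(.ref (nat_lit 0))
(.ref (nat_lit 1)))))) (by decide +kernel)
theorem done_N_900_500_0 (h : EB TB.env) : RC.Done ⟨false, 40, 360, 400, 200, 240, 0, 0, [176]⟩ := RC.done1 (r_N_900_500_0 h) (t_N_900_500_0 h)
theorem t_N_900_600_0 (h : EB TB.env) : RC.Tail ⟨false, 40, 360, 400, 240, 280, 0, 0, [184]⟩ := RC.tail_chk h (b := ⟨nat_lit 20, nat_lit 92, nat_lit 5, nat_lit 5, nat_lit 20, nat_lit 203, nat_lit 0, nat_lit 27, nat_lit 0⟩) (by decide +kernel)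
theorem r_N_900_600_0 (h : EB TB.env) : Dead (RC.box ⟨false, 40, 360, 400, 240, 280, 0, 0, [184]⟩ 0 184) := chkB_sound h (refs := [b_N_900_600_0_0, b_N_900_600_0_1, b_N_900_600_0_2, b_N_900_600_0_3]) (refs_cons (d_N_900_600_0_0 h) (refs_cons (d_N_900_600_0_1 h) (refs_cons (d_N_900_600_0_2 h) (refs_cons (d_N_900_600_0_3 h) (refs_nil))))) (T :=
(.trZ (nat_lit 0) (nat_lit 100) (nat_lit 61) (nat_lit 92) (nat_lit 112) (.trX (nat_lit 13) (nat_lit 65) (nat_lit 54) (nat_lit 100) (nat_lit 376) (.spl (nat_lit 6) (nat_lit 40)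
(.ref (nat_lit 0))
(.spl (nat_lit 6) (nat_lit 80)
(.ref (nat_lit 1))
(.spl (nat_lit 6) (nat_lit 120)
(.ref (nat_lit 2))
(.ref (nat_lit 3)))))))) (by decide +kernel)
theorem done_N_900_600_0 (h : EB TB.env) : RC.Done ⟨false, 40, 360, 400, 240, 280, 0, 0, [184]⟩ := RC.done1 (r_N_900_600_0 h) (t_N_900_600_0 h)
theorem t_N_900_700_0 (h : EB TB.env) : RC.Tail ⟨false, 40, 360, 400, 280, 320, 0, 0, [200]⟩ := RC.tail_chk h (b := ⟨nat_lit 20, nat_lit 100, nat_lit 5, nat_lit 5, nat_lit 20, nat_lit 203, nat_lit 0, nat_lit 26, nat_lit 0⟩) (by decide +kernel)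
theorem r_N_900_700_0 (h : EB TB.env) : Dead (RC.box ⟨false, 40, 360, 400, 280, 320, 0, 0, [200]⟩ 0 200) := chkB_sound h (refs := [b_N_900_700_0_0, b_N_900_700_0_1, b_N_900_700_0_2, b_N_900_700_0_3]) (refs_cons (d_N_900_700_0_0 h) (refs_cons (d_N_900_700_0_1 h) (refs_cons (d_N_900_700_0_2 h) (refs_cons (d_N_900_700_0_3 h) (refs_nil))))) (T :=
(.trZ (nat_lit 0) (nat_lit 94) (nat_lit 62) (nat_lit 100) (nat_lit 152) (.trX (nat_lit 13) (nat_lit 75) (nat_lit 35) (nat_lit 100) (nat_lit 392) (.spl (nat_lit 6) (nat_lit 40)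
(.ref (nat_lit 0))
(.spl (nat_lit 6) (nat_lit 80)
(.ref (nat_lit 1))
(.spl (nat_lit 6) (nat_lit 120)
(.ref (nat_lit 2))
(.ref (nat_lit 3)))))))) (by decide +kernel)
theorem done_N_900_700_0 (h : EB TB.env) : RC.Done ⟨false, 40, 360, 400, 280, 320, 0, 0, [200]⟩ := RC.done1 (r_N_900_700_0 h) (t_N_900_700_0 h)
theorem t_N_900_800_0 (h : EB TB.env) : RC.Tail ⟨false, 40, 360, 400, 320, 340, 0, 0, [208]⟩ := RC.tail_chk h (b := ⟨nat_lit 20, nat_lit 104, nat_lit 5, nat_lit 5, nat_lit 20, nat_lit 203, nat_lit 0, nat_lit 25, nat_lit 0⟩) (by decide +kernel)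
theorem r_N_900_800_0 (h : EB TB.env) : Dead (RC.box ⟨false, 40, 360, 400, 320, 340, 0, 0, [208]⟩ 0 208) := chkB_sound h (refs := [b_N_900_800_0_0, b_N_900_800_0_1, b_N_900_800_0_2]) (refs_cons (d_N_900_800_0_0 h) (refs_cons (d_N_900_800_0_1 h) (refs_cons (d_N_900_800_0_2 h) (refs_nil)))) (T :=
(.trZ (nat_lit 0) (nat_lit 80) (nat_lit 60) (nat_lit 100) (nat_lit 200) (.spl (nat_lit 6) (nat_lit 40)
(.ref (nat_lit 0))
(.spl (nat_lit 6) (nat_lit 80)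
(.ref (nat_lit 1))
(.ref (nat_lit 2)))))) (by decide +kernel)
theorem done_N_900_800_0 (h : EB TB.env) : RC.Done ⟨false, 40, 360, 400, 320, 340, 0, 0, [208]⟩ := RC.done1 (r_N_900_800_0 h) (t_N_900_800_0 h)
theorem t_VL_500_400_5 (h : EB TB.env) : RC.Tail ⟨true, 40, 200, 240, 160, 200, 20, 40, [4]⟩ := RC.tail_chk h (b := ⟨nat_lit 20, nat_lit 2, nat_lit 5, nat_lit 5, nat_lit 20, nat_lit 215, nat_lit 10, nat_lit 35, nat_lit 0⟩) (by decide +kernel)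
theorem r_VL_500_400_5 (h : EB TB.env) : Dead (RC.box ⟨true, 40, 200, 240, 160, 200, 20, 40, [4]⟩ 0 4) := chkB_sound h (refs := [b_VL_500_400_5_0, b_VL_500_400_5_1]) (refs_cons (d_VL_500_400_5_0 h) (refs_cons (d_VL_500_400_5_1 h) (refs_nil))) (T :=
(.trX (nat_lit 16) (nat_lit 100) (nat_lit 80) (nat_lit 60) (nat_lit 320) (.trX (nat_lit 19) (nat_lit 100) (nat_lit 68) (nat_lit 61) (nat_lit 352) (.st (nat_lit 0)
(.ref (nat_lit 0))
(.ref (nat_lit 1)))))) (by decide +kernel)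
theorem done_VL_500_400_5 (h : EB TB.env) : RC.Done ⟨true, 40, 200, 240, 160, 200, 20, 40, [4]⟩ := RC.done1 (r_VL_500_400_5 h) (t_VL_500_400_5 h)

end B2
end Pool.Agent.Lib.MP_6947cd_al
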