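import Pool.Agent.Lib.MP_6947cd_al.ZB.Pre

/-!
Problem MP_6947cd_al (Chollet).  Case B, second entry in [2/5, 17/20]: certificates of the tree, part P027 (generated).
-/

set_option autoImplicit false
set_option linter.all false

namespace Pool.Agent.Lib.MP_6947cd_al
namespace B2

open Ent Fr B1 PkA

noncomputable def p027_k0 : C1.Kn := ⟨[nat_lit 100, nat_lit 120], [nat_lit 0, nat_lit 383], [(nat_lit 0, nat_lit 0, nat_lit 0), (nat_lit 1000, nat_lit 1000, nat_lit 299)], (nat_lit 100, nat_lit 100, nat_lit 28)⟩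
noncomputable def p027_k1 : C1.Kn := ⟨[nat_lit 100, nat_lit 120], [nat_lit 0, nat_lit 448], [(nat_lit 0, nat_lit 0, nat_lit 0), (nat_lit 1000, nat_lit 1000, nat_lit 350)], (nat_lit 99, nat_lit 100, nat_lit 28)⟩
noncomputable def p027_k2 : C1.Kn := ⟨[nat_lit 100, nat_lit 120, nat_lit 140], [nat_lit 0, nat_lit 383, nat_lit 902], [(nat_lit 0, nat_lit 0, nat_lit 0), (nat_lit 1000, nat_lit 1000, nat_lit 299), (nat_lit 979, nat_lit 1000, nat_lit 397)], (nat_lit 100, nat_lit 98, nat_lit 40)⟩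
noncomputable def p027_k3 : C1.Kn := ⟨[nat_lit 100, nat_lit 120, nat_lit 140], [nat_lit 0, nat_lit 448, nat_lit 962], [(nat_lit 0, nat_lit 0, nat_lit 0), (nat_lit 1000, nat_lit 1000, nat_lit 350), (nat_lit 990, nat_lit 1000, nat_lit 398)], (nat_lit 100, nat_lit 99, nat_lit 40)⟩
noncomputable def p027_k4 : C1.Kn := ⟨[nat_lit 100, nat_lit 120, nat_lit 140], [nat_lit 0, nat_lit 383, nat_lit 902], [(nat_lit 0, nat_lit 0, nat_lit 0), (nat_lit 1000, nat_lit 1000, nat_lit 299), (nat_lit 979, nat_lit 1000, nat_lit 397)], (nat_lit 100, nat_lit 97, nat_lit 44)⟩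
noncomputable def p027_k5 : C1.Kn := ⟨[nat_lit 100, nat_lit 140], [nat_lit 0, nat_lit 508], [(nat_lit 0, nat_lit 0, nat_lit 0), (nat_lit 1000, nat_lit 1000, nat_lit 198)], (nat_lit 100, nat_lit 94, nat_lit 44)⟩
noncomputable def p027_k6 : C1.Kn := ⟨[nat_lit 100, nat_lit 120, nat_lit 140], [nat_lit 0, nat_lit 254, nat_lit 778], [(nat_lit 0, nat_lit 0, nat_lit 0), (nat_lit 1000, nat_lit 1000, nat_lit 198), (nat_lit 960, nat_lit 1000, nat_lit 392)], (nat_lit 100, nat_lit 94, nat_lit 44)⟩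
noncomputable def p027_k7 : C1.Kn := ⟨[nat_lit 100, nat_lit 140], [nat_lit 0, nat_lit 766], [(nat_lit 0, nat_lit 0, nat_lit 0), (nat_lit 1000, nat_lit 1000, nat_lit 299)], (nat_lit 100, nat_lit 97, nat_lit 44)⟩
noncomputable def p027_k8 : C1.Kn := ⟨[nat_lit 100, nat_lit 140], [nat_lit 0, nat_lit 896], [(nat_lit 0, nat_lit 0, nat_lit 0), (nat_lit 1000, nat_lit 1000, nat_lit 350)], (nat_lit 100, nat_lit 98, nat_lit 44)⟩
noncomputable def p027_k9 : C1.Kn := ⟨[nat_lit 100, nat_lit 120, nat_lit 160], [nat_lit 0, nat_lit 0, nat_lit 1063], [(nat_lit 0, nat_lit 0, nat_lit 0), (nat_lit 0, nat_lit 0, nat_lit 0), (nat_lit 924, nat_lit 1000, nat_lit 383)], (nat_lit 100, nat_lit 90, nat_lit 44)⟩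
noncomputable def p027_k10 : C1.Kn := ⟨[nat_lit 100, nat_lit 120], [nat_lit 0, nat_lit 383], [(nat_lit 0, nat_lit 0, nat_lit 0), (nat_lit 1000, nat_lit 1000, nat_lit 299)], (nat_lit 100, nat_lit 99, nat_lit 35)⟩
noncomputable def p027_k11 : C1.Kn := ⟨[nat_lit 100, nat_lit 120], [nat_lit 0, nat_lit 448], [(nat_lit 0, nat_lit 0, nat_lit 0), (nat_lit 1000, nat_lit 1000, nat_lit 350)], (nat_lit 100, nat_lit 100, nat_lit 35)⟩
noncomputable def p027_k12 : C1.Kn := ⟨[nat_lit 100, nat_lit 120], [nat_lit 0, nat_lit 486], [(nat_lit 0, nat_lit 0, nat_lit 0), (nat_lit 1000, nat_lit 999, nat_lit 375)], (nat_lit 99, nat_lit 100, nat_lit 35)⟩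
noncomputable def p027_k13 : C1.Kn := ⟨[nat_lit 90, nat_lit 110, nat_lit 120], [nat_lit 0, nat_lit 129, nat_lit 392], [(nat_lit 0, nat_lit 0, nat_lit 0), (nat_lit 1000, nat_lit 990, nat_lit 101), (nat_lit 993, nat_lit 1000, nat_lit 341)], (nat_lit 100, nat_lit 100, nat_lit 28)⟩
noncomputable def p027_k14 : C1.Kn := ⟨[nat_lit 100, nat_lit 120], [nat_lit 0, nat_lit 254], [(nat_lit 0, nat_lit 0, nat_lit 0), (nat_lit 1000, nat_lit 1000, nat_lit 198)], (nat_lit 100, nat_lit 99, nat_lit 28)⟩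
noncomputable def p027_k15 : C1.Kn := ⟨[nat_lit 100, nat_lit 160], [nat_lit 0, nat_lit 0], [(nat_lit 0, nat_lit 0, nat_lit 0), (nat_lit 0, nat_lit 0, nat_lit 0)], (nat_lit 100, nat_lit 90, nat_lit 44)⟩
noncomputable def p027_k16 : C1.Kn := ⟨[nat_lit 100, nat_lit 140], [nat_lit 0, nat_lit 0], [(nat_lit 0, nat_lit 0, nat_lit 0), (nat_lit 0, nat_lit 0, nat_lit 0)], (nat_lit 100, nat_lit 96, nat_lit 28)⟩
noncomputable def p027_k17 : C1.Kn := ⟨[nat_lit 100, nat_lit 140, nat_lit 160], [nat_lit 0, nat_lit 0, nat_lit 1280], [(nat_lit 0, nat_lit 0, nat_lit 0), (nat_lit 0, nat_lit 0, nat_lit 0), (nat_lit 800, nat_lit 1000, nat_lit 600)], (nat_lit 100, nat_lit 90, nat_lit 44)⟩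
noncomputable def p027_k18 : C1.Kn := ⟨[nat_lit 100, nat_lit 120], [nat_lit 0, nat_lit 320], [(nat_lit 0, nat_lit 0, nat_lit 0), (nat_lit 1000, nat_lit 1000, nat_lit 250)], (nat_lit 100, nat_lit 100, nat_lit 28)⟩
noncomputable def p027_k19 : C1.Kn := ⟨[nat_lit 100, nat_lit 120], [nat_lit 0, nat_lit 486], [(nat_lit 0, nat_lit 0, nat_lit 0), (nat_lit 1000, nat_lit 999, nat_lit 375)], (nat_lit 99, nat_lit 100, nat_lit 28)⟩
noncomputable def p027_k20 : C1.Kn := ⟨[nat_lit 100, nat_lit 120], [nat_lit 0, nat_lit 422], [(nat_lit 0, nat_lit 0, nat_lit 0), (nat_lit 1000, nat_lit 1000, nat_lit 329)], (nat_lit 99, nat_lit 100, nat_lit 28)⟩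
noncomputable def p027_k21 : C1.Kn := ⟨[nat_lit 100, nat_lit 120], [nat_lit 0, nat_lit 448], [(nat_lit 0, nat_lit 0, nat_lit 0), (nat_lit 1000, nat_lit 1000, nat_lit 350)], (nat_lit 98, nat_lit 100, nat_lit 20)⟩
noncomputable def p027_k22 : C1.Kn := ⟨[nat_lit 100, nat_lit 120], [nat_lit 0, nat_lit 486], [(nat_lit 0, nat_lit 0, nat_lit 0), (nat_lit 1000, nat_lit 999, nat_lit 375)], (nat_lit 98, nat_lit 100, nat_lit 20)⟩
noncomputable def p027_k23 : C1.Kn := ⟨[nat_lit 100, nat_lit 120], [nat_lit 0, nat_lit 460], [(nat_lit 0, nat_lit 0, nat_lit 0), (nat_lit 1000, nat_lit 999, nat_lit 357)], (nat_lit 98, nat_lit 100, nat_lit 20)⟩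
noncomputable def p027_k24 : C1.Kn := ⟨[nat_lit 100, nat_lit 120], [nat_lit 0, nat_lit 473], [(nat_lit 0, nat_lit 0, nat_lit 0), (nat_lit 1000, nat_lit 999, nat_lit 367)], (nat_lit 98, nat_lit 100, nat_lit 20)⟩
noncomputable def p027_k25 : C1.Kn := ⟨[nat_lit 90, nat_lit 110], [nat_lit 0, nat_lit 217], [(nat_lit 0, nat_lit 0, nat_lit 0), (nat_lit 1000, nat_lit 983, nat_lit 169)], (nat_lit 98, nat_lit 100, nat_lit 20)⟩
noncomputable def p027_k26 : C1.Kn := ⟨[nat_lit 90, nat_lit 110], [nat_lit 0, nat_lit 230], [(nat_lit 0, nat_lit 0, nat_lit 0), (nat_lit 1000, nat_lit 982, nat_lit 179)], (nat_lit 98, nat_lit 100, nat_lit 20)⟩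
noncomputable def p027_k27 : C1.Kn := ⟨[nat_lit 100, nat_lit 120], [nat_lit 0, nat_lit 499], [(nat_lit 0, nat_lit 0, nat_lit 0), (nat_lit 1000, nat_lit 1000, nat_lit 388)], (nat_lit 98, nat_lit 100, nat_lit 20)⟩
noncomputable def p027_k28 : C1.Kn := ⟨[nat_lit 100, nat_lit 120], [nat_lit 0, nat_lit 254], [(nat_lit 0, nat_lit 0, nat_lit 0), (nat_lit 1000, nat_lit 1000, nat_lit 198)], (nat_lit 100, nat_lit 100, nat_lit 20)⟩
noncomputable def p027_k29 : C1.Kn := ⟨[nat_lit 100, nat_lit 120], [nat_lit 0, nat_lit 128], [(nat_lit 0, nat_lit 0, nat_lit 0), (nat_lit 1000, nat_lit 1000, nat_lit 100)], (nat_lit 100, nat_lit 99, nat_lit 20)⟩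
noncomputable def p027_k30 : C1.Kn := ⟨[nat_lit 100, nat_lit 120], [nat_lit 0, nat_lit 0], [(nat_lit 0, nat_lit 0, nat_lit 0), (nat_lit 0, nat_lit 0, nat_lit 0)], (nat_lit 100, nat_lit 98, nat_lit 20)⟩
noncomputable def p027_k31 : C1.Kn := ⟨[nat_lit 100, nat_lit 120], [nat_lit 0, nat_lit 320], [(nat_lit 0, nat_lit 0, nat_lit 0), (nat_lit 1000, nat_lit 1000, nat_lit 250)], (nat_lit 99, nat_lit 100, nat_lit 20)⟩
noncomputable def p027_k32 : C1.Kn := ⟨[nat_lit 100, nat_lit 120], [nat_lit 0, nat_lit 192], [(nat_lit 0, nat_lit 0, nat_lit 0), (nat_lit 1000, nat_lit 1000, nat_lit 150)], (nat_lit 100, nat_lit 99, nat_lit 20)⟩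
noncomputable def p027_k33 : C1.Kn := ⟨[nat_lit 100, nat_lit 120], [nat_lit 0, nat_lit 281], [(nat_lit 0, nat_lit 0, nat_lit 0), (nat_lit 1000, nat_lit 1000, nat_lit 219)], (nat_lit 100, nat_lit 100, nat_lit 20)⟩
noncomputable def p027_k34 : C1.Kn := ⟨[nat_lit 100, nat_lit 120], [nat_lit 0, nat_lit 293], [(nat_lit 0, nat_lit 0, nat_lit 0), (nat_lit 1000, nat_lit 1000, nat_lit 229)], (nat_lit 100, nat_lit 100, nat_lit 20)⟩
noncomputable def p027_k35 : C1.Kn := ⟨[nat_lit 100, nat_lit 120], [nat_lit 0, nat_lit 230], [(nat_lit 0, nat_lit 0, nat_lit 0), (nat_lit 1000, nat_lit 1000, nat_lit 180)], (nat_lit 100, nat_lit 100, nat_lit 20)⟩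
noncomputable def p027_k36 : C1.Kn := ⟨[nat_lit 100, nat_lit 120], [nat_lit 0, nat_lit 383], [(nat_lit 0, nat_lit 0, nat_lit 0), (nat_lit 1000, nat_lit 1000, nat_lit 299)], (nat_lit 99, nat_lit 100, nat_lit 20)⟩
noncomputable def p027_l0 : Lf2 := ⟨nat_lit 0, nat_lit 2, [nat_lit 10, nat_lit 5, nat_lit 5, nat_lit 20], false, nat_lit 240, nat_lit 280, nat_lit 0, nat_lit 160, ⟨nat_lit 1000, nat_lit 0, nat_lit 0, nat_lit 0, nat_lit 0, nat_lit 0, nat_lit 0, nat_lit 0, nat_lit 0, nat_lit 0, nat_lit 0, nat_lit 0, nat_lit 0, nat_lit 0, nat_lit 0, nat_lit 0, false, false⟩,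
 nat_lit 0, nat_lit 21328, nat_lit 0, nat_lit 2748, nat_lit 10741, nat_lit 9752, nat_lit 2133, nat_lit 0, nat_lit 0, nat_lit 4118, nat_lit 0, nat_lit 0, nat_lit 0, nat_lit 16120611521201, nat_lit 0, nat_lit 0, nat_lit 0, nat_lit 0, [],
 ⟨p027_k0, nat_lit 0, nat_lit 0, nat_lit 180, nat_lit 0, nat_lit 187172, [nat_lit 6250000000, nat_lit 7968000000], [], [nat_lit 19009502100, nat_lit 19735151565, nat_lit 15900699005, nat_lit 16425839733, nat_lit 23136659955, nat_lit 24040582270, nat_lit 19360597876, nat_lit 19968856389], nat_lit 1271250, nat_lit 1271250, nat_lit 43600, nat_lit 230001, nat_lit 1271250, nat_lit 1271250, [nat_lit 1412500, nat_lit 1271250], [nat_lit 26, nat_lit 40, nat_lit 20, nat_lit 80, nat_lit 2, nat_lit 289, nat_lit 75, nat_lit 9]⟩, ⟨p027_k0, nat_lit 0, nat_lit 0, nat_lit 170, nat_lit 0, nat_lit 0, [nat_lit 6250000000, nat_lit 7968000000], [], [nat_lit 20442119647, nat_lit 21765804122, nat_lit 17135464192,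 nat_lit 18016691136, nat_lit 15015702549, nat_lit 15749402285, nat_lit 12311266008, nat_lit 13032948032], nat_lit 0, nat_lit 0, nat_lit 0, nat_lit 0, nat_lit 0, nat_lit 0, [], [nat_lit 26, nat_lit 40, nat_lit 20, nat_lit 80, nat_lit 2, nat_lit 345, nat_lit 125, nat_lit 12]⟩,
 zbF0, [⟨nat_lit 0, nat_lit 100, nat_lit 100, nat_lit 35, nat_lit 1829251864⟩, ⟨nat_lit 4, nat_lit 94, nat_lit 100, nat_lit 54, nat_lit 1389435459⟩]⟩
noncomputable def p027_l1 : Lf2 := ⟨nat_lit 0, nat_lit 2, [nat_lit 10, nat_lit 5, nat_lit 5, nat_lit 20], false, nat_lit 240, nat_lit 280, nat_lit 160, nat_lit 240, ⟨nat_lit 1000, nat_lit 0, nat_lit 0, nat_lit 0, nat_lit 0, nat_lit 0, nat_lit 0, nat_lit 0, nat_lit 0, nat_lit 0, nat_lit 0, nat_lit 0, nat_lit 0, nat_lit 0, nat_lit 0, nat_lit 0, false, false⟩,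
 nat_lit 0, nat_lit 21625, nat_lit 0, nat_lit 0, nat_lit 10891, nat_lit 10360, nat_lit 3464, nat_lit 0, nat_lit 0, nat_lit 0, nat_lit 0, nat_lit 0, nat_lit 0, nat_lit 0, nat_lit 0, nat_lit 0, nat_lit 0, nat_lit 0, [],
 ⟨p027_k0, nat_lit 0, nat_lit 0, nat_lit 161, nat_lit 0, nat_lit 138079, [nat_lit 6250000000, nat_lit 7968000000], [], [nat_lit 17413396976, nat_lit 17721225454, nat_lit 14286118937, nat_lit 14589346767, nat_lit 23266746210, nat_lit 23723213660, nat_lit 18416214923, nat_lit 18874912118], nat_lit 1271250, nat_lit 1271250, nat_lit 43600, nat_lit 230001, nat_lit 1271250, nat_lit 1271250, [nat_lit 1412500, nat_lit 1271250], [nat_lit 26, nat_lit 40, nat_lit 20, nat_lit 80, nat_lit 2, nat_lit 289, nat_lit 75, nat_lit 9]⟩, ⟨p027_k0, nat_lit 0, nat_lit 0, nat_lit 48, nat_lit 0, nat_lit 0, [nat_lit 6250000000, nat_lit 7968000000], [], [nat_lit 11324480649, nat_lit 11836498149, nat_lit 7802323040, nat_lit 8309026640,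 nat_lit 17052641681, nat_lit 17458834184, nat_lit 13510207320, nat_lit 13912810460], nat_lit 0, nat_lit 0, nat_lit 0, nat_lit 0, nat_lit 0, nat_lit 0, [], [nat_lit 26, nat_lit 40, nat_lit 20, nat_lit 80, nat_lit 2, nat_lit 373, nat_lit 150, nat_lit 12]⟩,
 zbF0, [⟨nat_lit 4, nat_lit 94, nat_lit 100, nat_lit 53, nat_lit 752936576⟩, ⟨nat_lit 11, nat_lit 100, nat_lit 95, nat_lit 30, nat_lit 1940802609⟩, ⟨nat_lit 23, nat_lit 97, nat_lit 100, nat_lit 48, nat_lit 7044653⟩]⟩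
noncomputable def p027_l2 : Lf2 := ⟨nat_lit 0, nat_lit 2, [nat_lit 10, nat_lit 5, nat_lit 5, nat_lit 20], false, nat_lit 240, nat_lit 280, nat_lit 160, nat_lit 240, ⟨nat_lit 1000, nat_lit 0, nat_lit 0, nat_lit 0, nat_lit 0, nat_lit 0, nat_lit 0, nat_lit 0, nat_lit 0, nat_lit 0, nat_lit 0, nat_lit 0, nat_lit 0, nat_lit 0, nat_lit 0, nat_lit 0, false, false⟩,
 nat_lit 0, nat_lit 20857, nat_lit 0, nat_lit 0, nat_lit 10772, nat_lit 10246, nat_lit 2911, nat_lit 0, nat_lit 0, nat_lit 0, nat_lit 0, nat_lit 0, nat_lit 0, nat_lit 0, nat_lit 0, nat_lit 0, nat_lit 0, nat_lit 0, [],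
 ⟨p027_k1, nat_lit 0, nat_lit 0, nat_lit 178, nat_lit 0, nat_lit 181888, [nat_lit 6250000000, nat_lit 7968000000], [], [nat_lit 17896009655, nat_lit 18202018717, nat_lit 14803459718, nat_lit 15104899632, nat_lit 23615978785, nat_lit 24069329364, nat_lit 18825373310, nat_lit 19280912304], nat_lit 1271250, nat_lit 1271250, nat_lit 43600, nat_lit 230001, nat_lit 1271250, nat_lit 1271250, [nat_lit 1412500, nat_lit 1271250], [nat_lit 26, nat_lit 40, nat_lit 20, nat_lit 80, nat_lit 2, nat_lit 289, nat_lit 75, nat_lit 9]⟩, ⟨p027_k0, nat_lit 0, nat_lit 0, nat_lit 50, nat_lit 0, nat_lit 0, [nat_lit 6250000000, nat_lit 7968000000], [], [nat_lit 11425542013, nat_lit 12442116853, nat_lit 7947654344, nat_lit 8953672064, nat_lit 17118305909, nat_lit 17925266477, nat_lit 13620067752, nat_lit 14419887760], nat_lit 0, nat_lit 0, nat_lit 0, nat_lit 0, nat_lit 0, nat_lit 0, [], [nat_lit 26, nat_lit 40, nat_lit 20, nat_lit 80, nat_lit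 2, nat_lit 373, nat_lit 150, nat_lit 12]⟩,
 zbF0, [⟨nat_lit 0, nat_lit 100, nat_lit 100, nat_lit 40, nat_lit 686761663⟩, ⟨nat_lit 16, nat_lit 100, nat_lit 95, nat_lit 54, nat_lit 748511432⟩, ⟨nat_lit 23, nat_lit 97, nat_lit 100, nat_lit 48, nat_lit 1174083291⟩]⟩
noncomputable def p027_l3 : Lf2 := ⟨nat_lit 0, nat_lit 2, [nat_lit 10, nat_lit 5, nat_lit 5, nat_lit 20], false, nat_lit 240, nat_lit 280, nat_lit 240, nat_lit 288, ⟨nat_lit 1000, nat_lit 0, nat_lit 0, nat_lit 0, nat_lit 0, nat_lit 0, nat_lit 0, nat_lit 0, nat_lit 0, nat_lit 0, nat_lit 0, nat_lit 0, nat_lit 0, nat_lit 0, nat_lit 0, nat_lit 0, false, false⟩,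
 nat_lit 0, nat_lit 21920, nat_lit 0, nat_lit 0, nat_lit 11040, nat_lit 10928, nat_lit 3475, nat_lit 0, nat_lit 0, nat_lit 0, nat_lit 0, nat_lit 0, nat_lit 0, nat_lit 0, nat_lit 0, nat_lit 0, nat_lit 0, nat_lit 0, [],
 ⟨p027_k0, nat_lit 0, nat_lit 0, nat_lit 169, nat_lit 0, nat_lit 187172, [nat_lit 6250000000, nat_lit 7968000000], [], [nat_lit 16163723440, nat_lit 16783724976, nat_lit 14015789280, nat_lit 14626722240, nat_lit 21833312977, nat_lit 22757795568, nat_lit 18474288120, nat_lit 19399591280], nat_lit 1271250, nat_lit 1271250, nat_lit 88400, nat_lit 230001, nat_lit 1271250, nat_lit 1271250, [nat_lit 1412500, nat_lit 1271250], [nat_lit 26, nat_lit 40, nat_lit 20, nat_lit 80, nat_lit 2, nat_lit 289, nat_lit 75, nat_lit 9]⟩, ⟨p027_k0, nat_lit 0, nat_lit 0, nat_lit 75, nat_lit 0, nat_lit 0, [nat_lit 6250000000, nat_lit 7968000000], [], [nat_lit 15647204253, nat_lit 16740899392, nat_lit 12962832536, nat_lit 13794875680,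 nat_lit 22972975858, nat_lit 23856523007, nat_lit 19639039775, nat_lit 20523930279], nat_lit 0, nat_lit 0, nat_lit 0, nat_lit 0, nat_lit 0, nat_lit 0, [], [nat_lit 26, nat_lit 40, nat_lit 20, nat_lit 80, nat_lit 2, nat_lit 289, nat_lit 75, nat_lit 9]⟩,
 zbF0, [⟨nat_lit 23, nat_lit 98, nat_lit 100, nat_lit 52, nat_lit 351513241⟩, ⟨nat_lit 11, nat_lit 100, nat_lit 100, nat_lit 53, nat_lit 1506214603⟩]⟩
noncomputable def p027_l4 : Lf2 := ⟨nat_lit 0, nat_lit 4, [nat_lit 38, nat_lit 5, nat_lit 5, nat_lit 20], false, nat_lit 240, nat_lit 260, nat_lit 0, nat_lit 160, ⟨nat_lit 228, nat_lit 0, nat_lit 772, nat_lit 5, nat_lit 60, nat_lit 772, nat_lit 169, nat_lit 772, nat_lit 180507, nat_lit 319, nat_lit 33750, nat_lit 260, nat_lit 54652075, nat_lit 0, nat_lit 0, nat_lit 2941534, false, false⟩,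
 nat_lit 0, nat_lit 12779, nat_lit 0, nat_lit 0, nat_lit 6436, nat_lit 2199, nat_lit 630, nat_lit 0, nat_lit 0, nat_lit 881, nat_lit 0, nat_lit 0, nat_lit 0, nat_lit 15456700132099, nat_lit 8, nat_lit 772000, nat_lit 0, nat_lit 0, [(nat_lit 3, [(nat_lit 6, nat_lit 772)])],
 ⟨p027_k2, nat_lit 0, nat_lit 0, nat_lit 177, nat_lit 0, nat_lit 91142, [nat_lit 2388762286, nat_lit 1035675200, nat_lit 355200], [], [nat_lit 16163048607, nat_lit 16648340768, nat_lit 15144707268, nat_lit 15623243484, nat_lit 17500663211, nat_lit 17983290893, nat_lit 16471576683, nat_lit 16924816368], nat_lit 1271250, nat_lit 1271250, nat_lit 43600, nat_lit 111251, nat_lit 1271250, nat_lit 1271250, [nat_lit 1412500, nat_lit 1271250, nat_lit 1271250], [nat_lit 25, nat_lit 40, nat_lit 20, nat_lit 80, nat_lit 17, nat_lit 373, nat_lit 150, nat_lit 10]⟩, ⟨p027_k2, nat_lit 0, nat_lit 0, nat_lit 285, nat_lit 0, nat_lit 0, [nat_lit 1425000000, nat_lit 1816704000,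 nat_lit 2243976000], [], [nat_lit 4744193835, nat_lit 4923599425, nat_lit 4378445860, nat_lit 4556036521, nat_lit 3464535437, nat_lit 3630740638, nat_lit 3161206575, nat_lit 3327014916], nat_lit 0, nat_lit 0, nat_lit 0, nat_lit 0, nat_lit 0, nat_lit 0, [], [nat_lit 25, nat_lit 40, nat_lit 20, nat_lit 80, nat_lit 17, nat_lit 345, nat_lit 125, nat_lit 11]⟩,
 ⟨nat_lit 6324, nat_lit 6520, ⟨.ofNat (nat_lit 127994), .ofNat (nat_lit 153250), .ofNat (nat_lit 138693), .ofNat (nat_lit 163949), .ofNat (nat_lit 137182), .ofNat (nat_lit 161861), .ofNat (nat_lit 147866), .ofNat (nat_lit 172545)⟩, ⟨.ofNat (nat_lit 391604), .ofNat (nat_lit 433698), .ofNat (nat_lit 413002), .ofNat (nat_lit 455096), .ofNat (nat_lit 389952), .ofNat (nat_lit 431084), .ofNat (nat_lit 411320), .ofNat (nat_lit 452452)⟩⟩, [⟨nat_lit 0, nat_lit 100, nat_lit 100, nat_lit 35, nat_lit 860011537⟩, ⟨nat_lit 4, nat_lit 94, nat_lit 100, nat_lit 54, nat_lit 616886879⟩]⟩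
noncomputable def p027_l5 : Lf2 := ⟨nat_lit 0, nat_lit 4, [nat_lit 38, nat_lit 5, nat_lit 5, nat_lit 20], false, nat_lit 260, nat_lit 280, nat_lit 0, nat_lit 160, ⟨nat_lit 1000, nat_lit 0, nat_lit 0, nat_lit 0, nat_lit 0, nat_lit 0, nat_lit 0, nat_lit 0, nat_lit 0, nat_lit 0, nat_lit 0, nat_lit 0, nat_lit 0, nat_lit 0, nat_lit 0, nat_lit 0, false, false⟩,
 nat_lit 0, nat_lit 20671, nat_lit 0, nat_lit 24327, nat_lit 10410, nat_lit 9739, nat_lit 3181, nat_lit 0, nat_lit 0, nat_lit 3925, nat_lit 0, nat_lit 0, nat_lit 0, nat_lit 29394553369996, nat_lit 0, nat_lit 0, nat_lit 0, nat_lit 0, [],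
 ⟨p027_k2, nat_lit 0, nat_lit 0, nat_lit 164, nat_lit 0, nat_lit 40228, [nat_lit 6250000000, nat_lit 7968000001, nat_lit 9842000000], [], [nat_lit 20110410075, nat_lit 20387475993, nat_lit 18366466948, nat_lit 18643531829, nat_lit 22845899492, nat_lit 23289768495, nat_lit 20641058960, nat_lit 21087550310], nat_lit 1271250, nat_lit 1271250, nat_lit 43600, nat_lit 111251, nat_lit 1271250, nat_lit 1271250, [nat_lit 1412500, nat_lit 1271250, nat_lit 1271250], [nat_lit 25, nat_lit 40, nat_lit 20, nat_lit 80, nat_lit 17, nat_lit 373, nat_lit 150, nat_lit 10]⟩, ⟨p027_k2, nat_lit 0, nat_lit 0, nat_lit 283, nat_lit 0, nat_lit 0, [nat_lit 6250000000, nat_lit 7968000000, nat_lit 9842000000], [], [nat_lit 20680604548, nat_lit 21072022592, nat_lit 19059366564, nat_lit 19451070537, nat_lit 15037473007, nat_lit 15404036271, nat_lit 13692556143, nat_lit 14058246554], nat_lit 0, nat_lit 0, nat_lit 0, nat_lit 0, nat_lit 0, nat_lit 0,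 [], [nat_lit 25, nat_lit 40, nat_lit 20, nat_lit 80, nat_lit 17, nat_lit 345, nat_lit 125, nat_lit 11]⟩,
 zbF0, [⟨nat_lit 0, nat_lit 100, nat_lit 100, nat_lit 35, nat_lit 2229100262⟩, ⟨nat_lit 16, nat_lit 100, nat_lit 94, nat_lit 53, nat_lit 2720537468⟩]⟩
noncomputable def p027_l6 : Lf2 := ⟨nat_lit 0, nat_lit 4, [nat_lit 38, nat_lit 5, nat_lit 5, nat_lit 20], false, nat_lit 260, nat_lit 280, nat_lit 0, nat_lit 160, ⟨nat_lit 1000, nat_lit 0, nat_lit 0, nat_lit 0, nat_lit 0, nat_lit 0, nat_lit 0, nat_lit 0, nat_lit 0, nat_lit 0, nat_lit 0, nat_lit 0, nat_lit 0, nat_lit 0, nat_lit 0, nat_lit 0, false, false⟩,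
 nat_lit 0, nat_lit 20020, nat_lit 0, nat_lit 21028, nat_lit 10339, nat_lit 9641, nat_lit 2952, nat_lit 0, nat_lit 0, nat_lit 3862, nat_lit 0, nat_lit 0, nat_lit 0, nat_lit 23290962078953, nat_lit 0, nat_lit 0, nat_lit 0, nat_lit 0, [],
 ⟨p027_k3, nat_lit 0, nat_lit 0, nat_lit 186, nat_lit 0, nat_lit 88529, [nat_lit 6250000000, nat_lit 7968000001, nat_lit 9842000000], [], [nat_lit 20483298934, nat_lit 20820595478, nat_lit 18751404410, nat_lit 19028335657, nat_lit 23225788023, nat_lit 23667797379, nat_lit 21039423599, nat_lit 21484034514], nat_lit 1271250, nat_lit 1271250, nat_lit 43600, nat_lit 111251, nat_lit 1271250, nat_lit 1271250, [nat_lit 1412500, nat_lit 1271250, nat_lit 1271250], [nat_lit 25, nat_lit 40, nat_lit 20, nat_lit 80, nat_lit 17, nat_lit 373, nat_lit 150, nat_lit 10]⟩, ⟨p027_k2, nat_lit 0, nat_lit 0, nat_lit 285, nat_lit 0, nat_lit 0, [nat_lit 6250000000, nat_lit 7968000000, nat_lit 9842000000], [],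 [nat_lit 20812455869, nat_lit 21590628843, nat_lit 19208975191, nat_lit 19987703146, nat_lit 15201588766, nat_lit 15930394179, nat_lit 13871774917, nat_lit 14598839916], nat_lit 0, nat_lit 0, nat_lit 0, nat_lit 0, nat_lit 0, nat_lit 0, [], [nat_lit 25, nat_lit 40, nat_lit 20, nat_lit 80, nat_lit 17, nat_lit 345, nat_lit 125, nat_lit 11]⟩,
 zbF0, [⟨nat_lit 0, nat_lit 100, nat_lit 100, nat_lit 36, nat_lit 2225092259⟩, ⟨nat_lit 4, nat_lit 95, nat_lit 100, nat_lit 54, nat_lit 2440695416⟩]⟩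
noncomputable def p027_l7 : Lf2 := ⟨nat_lit 0, nat_lit 4, [nat_lit 38, nat_lit 5, nat_lit 5, nat_lit 20], false, nat_lit 240, nat_lit 280, nat_lit 160, nat_lit 252, ⟨nat_lit 1000, nat_lit 0, nat_lit 0, nat_lit 0, nat_lit 0, nat_lit 0, nat_lit 0, nat_lit 0, nat_lit 0, nat_lit 0, nat_lit 0, nat_lit 0, nat_lit 0, nat_lit 0, nat_lit 0, nat_lit 0, false, false⟩,
 nat_lit 0, nat_lit 22140, nat_lit 0, nat_lit 0, nat_lit 11150, nat_lit 10293, nat_lit 3487, nat_lit 0, nat_lit 0, nat_lit 0, nat_lit 0, nat_lit 0, nat_lit 0, nat_lit 1249794586389, nat_lit 0, nat_lit 0, nat_lit 0, nat_lit 0, [],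
 ⟨p027_k2, nat_lit 0, nat_lit 0, nat_lit 187, nat_lit 0, nat_lit 91142, [nat_lit 6250000000, nat_lit 7968000001, nat_lit 9842000000], [], [nat_lit 17340851561, nat_lit 18400453200, nat_lit 15469355900, nat_lit 16092168800, nat_lit 23493355980, nat_lit 24419858441, nat_lit 21123062400, nat_lit 22055242900], nat_lit 1271250, nat_lit 1271250, nat_lit 43600, nat_lit 111251, nat_lit 1271250, nat_lit 1271250, [nat_lit 1412500, nat_lit 1271250, nat_lit 1271250], [nat_lit 25, nat_lit 40, nat_lit 20, nat_lit 80, nat_lit 17, nat_lit 373, nat_lit 150, nat_lit 10]⟩, ⟨p027_k2, nat_lit 0, nat_lit 0, nat_lit 83, nat_lit 0, nat_lit 0, [nat_lit 6250000000, nat_lit 7968000000, nat_lit 9842000000], [], [nat_lit 11383876363, nat_lit 12403526883, nat_lit 9644434228, nat_lit 10663947792, nat_lit 18653754173, nat_lit 19651961619, nat_lit 16707047654, nat_lit 17479879785], nat_lit 0, nat_lit 0, nat_lit 0, nat_lit 0, nat_lit 0, nat_lit 0,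 [], [nat_lit 25, nat_lit 40, nat_lit 20, nat_lit 80, nat_lit 17, nat_lit 373, nat_lit 150, nat_lit 11]⟩,
 zbF0, [⟨nat_lit 0, nat_lit 100, nat_lit 100, nat_lit 40, nat_lit 1114184033⟩, ⟨nat_lit 4, nat_lit 94, nat_lit 100, nat_lit 54, nat_lit 711558106⟩, ⟨nat_lit 23, nat_lit 96, nat_lit 100, nat_lit 37, nat_lit 1628280582⟩]⟩
noncomputable def p027_l8 : Lf2 := ⟨nat_lit 0, nat_lit 4, [nat_lit 38, nat_lit 5, nat_lit 5, nat_lit 20], false, nat_lit 240, nat_lit 280, nat_lit 0, nat_lit 160, ⟨nat_lit 1000, nat_lit 0, nat_lit 0, nat_lit 0, nat_lit 0, nat_lit 0, nat_lit 0, nat_lit 0, nat_lit 0, nat_lit 0, nat_lit 0, nat_lit 0, nat_lit 0, nat_lit 0, nat_lit 0, nat_lit 0, false, false⟩,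
 nat_lit 0, nat_lit 22140, nat_lit 0, nat_lit 8814, nat_lit 11150, nat_lit 10118, nat_lit 3487, nat_lit 0, nat_lit 0, nat_lit 4008, nat_lit 0, nat_lit 0, nat_lit 0, nat_lit 38650420872302, nat_lit 0, nat_lit 0, nat_lit 0, nat_lit 0, [],
 ⟨p027_k2, nat_lit 0, nat_lit 0, nat_lit 168, nat_lit 0, nat_lit 91142, [nat_lit 6250000000, nat_lit 7968000001, nat_lit 9842000000], [], [nat_lit 15469355900, nat_lit 16092168800, nat_lit 13816217050, nat_lit 14430455400, nat_lit 21123062400, nat_lit 22055242900, nat_lit 18517160950, nat_lit 19448302800], nat_lit 1271250, nat_lit 1271250, nat_lit 111251, nat_lit 230001, nat_lit 1271250, nat_lit 1271250, [nat_lit 1412500, nat_lit 1271250, nat_lit 1271250], [nat_lit 25, nat_lit 40, nat_lit 20, nat_lit 80, nat_lit 17, nat_lit 373, nat_lit 150, nat_lit 10]⟩, ⟨p027_k2, nat_lit 0, nat_lit 0, nat_lit 221, nat_lit 0, nat_lit 0, [nat_lit 6250000000, nat_lit 7968000000, nat_lit 9842000000],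 [], [nat_lit 18673047518, nat_lit 19474554608, nat_lit 16914344816, nat_lit 17708117080, nat_lit 12999454966, nat_lit 13747526568, nat_lit 11578260972, nat_lit 12315776888], nat_lit 0, nat_lit 0, nat_lit 0, nat_lit 0, nat_lit 0, nat_lit 0, [], [nat_lit 25, nat_lit 40, nat_lit 20, nat_lit 80, nat_lit 17, nat_lit 345, nat_lit 125, nat_lit 10]⟩,
 zbF0, [⟨nat_lit 4, nat_lit 94, nat_lit 100, nat_lit 54, nat_lit 1814452964⟩]⟩
noncomputable def p027_l9 : Lf2 := ⟨nat_lit 0, nat_lit 4, [nat_lit 38, nat_lit 5, nat_lit 5, nat_lit 20], false, nat_lit 240, nat_lit 280, nat_lit 160, nat_lit 288, ⟨nat_lit 1000, nat_lit 0, nat_lit 0, nat_lit 0, nat_lit 0, nat_lit 0, nat_lit 0, nat_lit 0, nat_lit 0, nat_lit 0, nat_lit 0, nat_lit 0, nat_lit 0, nat_lit 0, nat_lit 0, nat_lit 0, false, false⟩,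
 nat_lit 0, nat_lit 22140, nat_lit 0, nat_lit 0, nat_lit 11150, nat_lit 9240, nat_lit 3487, nat_lit 0, nat_lit 0, nat_lit 0, nat_lit 0, nat_lit 0, nat_lit 0, nat_lit 0, nat_lit 0, nat_lit 0, nat_lit 0, nat_lit 0, [],
 ⟨p027_k2, nat_lit 0, nat_lit 0, nat_lit 168, nat_lit 0, nat_lit 91142, [nat_lit 6250000000, nat_lit 7968000001, nat_lit 9842000000], [], [nat_lit 15469355900, nat_lit 16092168800, nat_lit 13816217050, nat_lit 14430455400, nat_lit 21123062400, nat_lit 22055242900, nat_lit 18517160950, nat_lit 19448302800], nat_lit 1271250, nat_lit 1271250, nat_lit 111251, nat_lit 230001, nat_lit 1271250, nat_lit 1271250, [nat_lit 1412500, nat_lit 1271250, nat_lit 1271250], [nat_lit 25, nat_lit 40, nat_lit 20, nat_lit 80, nat_lit 17, nat_lit 373, nat_lit 150, nat_lit 10]⟩, ⟨p027_k2, nat_lit 0, nat_lit 0, nat_lit 92, nat_lit 0, nat_lit 0, [nat_lit 6250000000, nat_lit 7968000000, nat_lit 9842000000], [], [nat_lit 10771359040,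 nat_lit 11721850560, nat_lit 9230139360, nat_lit 10170948160, nat_lit 21136643377, nat_lit 21761446337, nat_lit 19492601368, nat_lit 20112541600], nat_lit 0, nat_lit 0, nat_lit 0, nat_lit 0, nat_lit 0, nat_lit 0, [], [nat_lit 25, nat_lit 40, nat_lit 20, nat_lit 80, nat_lit 17, nat_lit 373, nat_lit 150, nat_lit 11]⟩,
 zbF0, [⟨nat_lit 4, nat_lit 94, nat_lit 100, nat_lit 54, nat_lit 639888628⟩, ⟨nat_lit 11, nat_lit 100, nat_lit 96, nat_lit 42, nat_lit 1510154146⟩]⟩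
noncomputable def p027_l10 : Lf2 := ⟨nat_lit 0, nat_lit 5, [nat_lit 4, nat_lit 5, nat_lit 5, nat_lit 20], true, nat_lit 240, nat_lit 260, nat_lit 0, nat_lit 288, ⟨nat_lit 0, nat_lit 0, nat_lit 1000, nat_lit 5, nat_lit 68, nat_lit 1000, nat_lit 169, nat_lit 1000, nat_lit 180507, nat_lit 319, nat_lit 43350, nat_lit 266, nat_lit 54186585, nat_lit 0, nat_lit 0, nat_lit 3067426, false, false⟩,
 nat_lit 0, nat_lit 10082, nat_lit 0, nat_lit 0, nat_lit 5077, nat_lit 0, nat_lit 0, nat_lit 0, nat_lit 0, nat_lit 0, nat_lit 0, nat_lit 0, nat_lit 0, nat_lit 21573536300951, nat_lit 108, nat_lit 927400, nat_lit 0, nat_lit 0, [(nat_lit 3, [(nat_lit 5, nat_lit 121), (nat_lit 6, nat_lit 879)])],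
 ⟨p027_k4, nat_lit 0, nat_lit 0, nat_lit 151, nat_lit 0, nat_lit 13873, [nat_lit 3265182972, nat_lit 1394858800, nat_lit 11326400], [], [nat_lit 15390460380, nat_lit 15835230151, nat_lit 13940879274, nat_lit 14286938512, nat_lit 16578160908, nat_lit 16995573022, nat_lit 15016478709, nat_lit 15431548979], nat_lit 1271250, nat_lit 1271250, nat_lit 43600, nat_lit 230001, nat_lit 1271250, nat_lit 1271250, [nat_lit 1412500, nat_lit 1271250, nat_lit 1271250], [nat_lit 25, nat_lit 40, nat_lit 20, nat_lit 80, nat_lit 17, nat_lit 373, nat_lit 150, nat_lit 10]⟩, C1.Rw.none,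
 ⟨nat_lit 6324, nat_lit 6520, ⟨.ofNat (nat_lit 127994), .ofNat (nat_lit 195344), .ofNat (nat_lit 138693), .ofNat (nat_lit 206043), .ofNat (nat_lit 137182), .ofNat (nat_lit 202993), .ofNat (nat_lit 147866), .ofNat (nat_lit 213677)⟩, ⟨.ofNat (nat_lit 391604), .ofNat (nat_lit 433698), .ofNat (nat_lit 413002), .ofNat (nat_lit 455096), .ofNat (nat_lit 389952), .ofNat (nat_lit 431084), .ofNat (nat_lit 411320), .ofNat (nat_lit 452452)⟩⟩, [⟨nat_lit 0, nat_lit 100, nat_lit 100, nat_lit 40, nat_lit 350670907⟩, ⟨nat_lit 16, nat_lit 100, nat_lit 94, nat_lit 54, nat_lit 429739396⟩]⟩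
noncomputable def p027_l11 : Lf2 := ⟨nat_lit 0, nat_lit 5, [nat_lit 4, nat_lit 5, nat_lit 5, nat_lit 20], true, nat_lit 260, nat_lit 280, nat_lit 0, nat_lit 268, ⟨nat_lit 0, nat_lit 0, nat_lit 1000, nat_lit 5, nat_lit 68, nat_lit 1000, nat_lit 186, nat_lit 1000, nat_lit 41329, nat_lit 264, nat_lit 43350, nat_lit 266, nat_lit 52557193, nat_lit 0, nat_lit 0, nat_lit 3265194, false, false⟩,
 nat_lit 0, nat_lit 10018, nat_lit 0, nat_lit 477046, nat_lit 5045, nat_lit 0, nat_lit 0, nat_lit 0, nat_lit 0, nat_lit 0, nat_lit 0, nat_lit 0, nat_lit 0, nat_lit 400000000000000, nat_lit 109, nat_lit 937000, nat_lit 0, nat_lit 0, [(nat_lit 3, [(nat_lit 5, nat_lit 105), (nat_lit 6, nat_lit 895)])],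
 ⟨p027_k4, nat_lit 0, nat_lit 0, nat_lit 154, nat_lit 0, nat_lit 13873, [nat_lit 3276714858, nat_lit 1410494000, nat_lit 15032000], [], [nat_lit 16556002526, nat_lit 16972594270, nat_lit 15006911973, nat_lit 15421444433, nat_lit 18151839954, nat_lit 18758535653, nat_lit 16322561568, nat_lit 16809881808], nat_lit 1271250, nat_lit 1271250, nat_lit 43600, nat_lit 230001, nat_lit 1271250, nat_lit 1271250, [nat_lit 1412500, nat_lit 1271250, nat_lit 1271250], [nat_lit 25, nat_lit 40, nat_lit 20, nat_lit 80, nat_lit 17, nat_lit 373, nat_lit 150, nat_lit 10]⟩, C1.Rw.none,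
 ⟨nat_lit 6324, nat_lit 6520, ⟨.ofNat (nat_lit 127994), .ofNat (nat_lit 195344), .ofNat (nat_lit 138693), .ofNat (nat_lit 206043), .ofNat (nat_lit 137182), .ofNat (nat_lit 202993), .ofNat (nat_lit 147866), .ofNat (nat_lit 213677)⟩, ⟨.ofNat (nat_lit 433698), .ofNat (nat_lit 475792), .ofNat (nat_lit 455096), .ofNat (nat_lit 497189), .ofNat (nat_lit 431084), .ofNat (nat_lit 472216), .ofNat (nat_lit 452452), .ofNat (nat_lit 493584)⟩⟩, [⟨nat_lit 0, nat_lit 100, nat_lit 100, nat_lit 40, nat_lit 351071436⟩, ⟨nat_lit 16, nat_lit 100, nat_lit 94, nat_lit 54, nat_lit 10638297872⟩, ⟨nat_lit 16, nat_lit 100, nat_lit 89, nat_lit 61, nat_lit 11235955056⟩, ⟨nat_lit 4, nat_lit 94, nat_lit 100, nat_lit 54, nat_lit 10638297872⟩]⟩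
noncomputable def b_VL_500_500_5_13 : St := ⟨true, nat_lit 1, nat_lit 0, nat_lit 1, nat_lit 40, nat_lit 220, nat_lit 240, nat_lit 230, nat_lit 240, nat_lit 4, nat_lit 40, nat_lit 20, nat_lit 40, nat_lit 240, nat_lit 280, nat_lit 0, nat_lit 288, nat_lit 0, nat_lit 20, nat_lit 0, nat_lit 0, nat_lit 0, nat_lit 0⟩
theorem d_VL_500_500_5_13 (h : EB TB.env) : Dead b_VL_500_500_5_13 := chkB_sound0 h (T :=
(.ord (.trZ (nat_lit 0) (nat_lit 100) (nat_lit 100) (nat_lit 30) (nat_lit 8) (.spl (nat_lit 6) (nat_lit 8)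
(.spl (nat_lit 5) (nat_lit 160)
(.leaf p027_l0)
(.spl (nat_lit 5) (nat_lit 240)
(.spl (nat_lit 0) (nat_lit 235)
(.ord (.leaf p027_l1))
(.leaf p027_l2))
(.trZ (nat_lit 11) (nat_lit 100) (nat_lit 100) (nat_lit 40) (nat_lit 16) (.leaf p027_l3))))
(.spl (nat_lit 6) (nat_lit 16)
(.spl (nat_lit 2) (nat_lit 20)
(.trX (nat_lit 23) (nat_lit 100) (nat_lit 99) (nat_lit 44) (nat_lit 252) (.spl (nat_lit 5) (nat_lit 160)
(.spl (nat_lit 4) (nat_lit 260)
(.leaf p027_l4)
(.spl (nat_lit 0) (nat_lit 235)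
(.ord (.leaf p027_l5))
(.leaf p027_l6)))
(.leaf p027_l7)))
(.spl (nat_lit 5) (nat_lit 160)
(.leaf p027_l8)
(.leaf p027_l9)))
(.spl (nat_lit 4) (nat_lit 260)
(.leaf p027_l10)
(.trX (nat_lit 23) (nat_lit 100) (nat_lit 99) (nat_lit 63) (nat_lit 268) (.leaf p027_l11)))))))) (by decide +kernel)
noncomputable def p027_l12 : Lf2 := ⟨nat_lit 0, nat_lit 5, [nat_lit 4, nat_lit 5, nat_lit 5, nat_lit 20], true, nat_lit 280, nat_lit 304, nat_lit 0, nat_lit 248, ⟨nat_lit 0, nat_lit 0, nat_lit 1000, nat_lit 5, nat_lit 53, nat_lit 1000, nat_lit 205, nat_lit 1000, nat_lit 4965, nat_lit 231, nat_lit 26667, nat_lit 255, nat_lit 51429681, nat_lit 0, nat_lit 0, nat_lit 3238803, false, false⟩,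
 nat_lit 0, nat_lit 9902, nat_lit 0, nat_lit 457617, nat_lit 4735, nat_lit 0, nat_lit 0, nat_lit 0, nat_lit 0, nat_lit 0, nat_lit 0, nat_lit 0, nat_lit 0, nat_lit 0, nat_lit 115, nat_lit 1000000, nat_lit 0, nat_lit 0, [(nat_lit 3, [(nat_lit 6, nat_lit 1000)])],
 ⟨p027_k5, nat_lit 0, nat_lit 0, nat_lit 203, nat_lit 0, nat_lit 106778, [nat_lit 3341142858, nat_lit 23600000], [], [nat_lit 18336629976, nat_lit 19095369036, nat_lit 16817660986, nat_lit 17566369786, nat_lit 20090684324, nat_lit 21164363728, nat_lit 18138826570, nat_lit 18830991833], nat_lit 1271250, nat_lit 1271250, nat_lit 0, nat_lit 230001, nat_lit 1271250, nat_lit 1271250, [nat_lit 1412500, nat_lit 1271250], [nat_lit 51, nat_lit 40, nat_lit 20, nat_lit 80, nat_lit 1, nat_lit 289, nat_lit 75, nat_lit 8]⟩, C1.Rw.none,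
 ⟨nat_lit 6324, nat_lit 6709, ⟨.ofNat (nat_lit 69221), .ofNat (nat_lit 155377), .ofNat (nat_lit 90659), .ofNat (nat_lit 176815), .ofNat (nat_lit 88677), .ofNat (nat_lit 170942), .ofNat (nat_lit 110045), .ofNat (nat_lit 192309)⟩, ⟨.ofNat (nat_lit 479364), .ofNat (nat_lit 531043), .ofNat (nat_lit 500798), .ofNat (nat_lit 552474), .ofNat (nat_lit 472216), .ofNat (nat_lit 521560), .ofNat (nat_lit 493579), .ofNat (nat_lit 542921)⟩⟩, [⟨nat_lit 0, nat_lit 100, nat_lit 98, nat_lit 30, nat_lit 296672819⟩, ⟨nat_lit 16, nat_lit 100, nat_lit 93, nat_lit 53, nat_lit 10752688172⟩, ⟨nat_lit 16, nat_lit 100, nat_lit 86, nat_lit 60, nat_lit 11627906977⟩, ⟨nat_lit 4, nat_lit 93, nat_lit 100, nat_lit 53, nat_lit 10752688172⟩]⟩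
noncomputable def p027_l13 : Lf2 := ⟨nat_lit 0, nat_lit 5, [nat_lit 4, nat_lit 5, nat_lit 5, nat_lit 20], false, nat_lit 280, nat_lit 304, nat_lit 0, nat_lit 160, ⟨nat_lit 1000, nat_lit 0, nat_lit 0, nat_lit 0, nat_lit 0, nat_lit 0, nat_lit 0, nat_lit 0, nat_lit 0, nat_lit 0, nat_lit 0, nat_lit 0, nat_lit 0, nat_lit 0, nat_lit 0, nat_lit 0, false, false⟩,
 nat_lit 0, nat_lit 20538, nat_lit 0, nat_lit 45144, nat_lit 9822, nat_lit 9584, nat_lit 4495, nat_lit 0, nat_lit 0, nat_lit 6204, nat_lit 0, nat_lit 0, nat_lit 0, nat_lit 20677110595690, nat_lit 0, nat_lit 0, nat_lit 0, nat_lit 0, [],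
 ⟨p027_k6, nat_lit 0, nat_lit 0, nat_lit 231, nat_lit 0, nat_lit 155527, [nat_lit 6250000000, nat_lit 7968000001, nat_lit 9842000000], [], [nat_lit 22222885390, nat_lit 23877860734, nat_lit 18934825804, nat_lit 19911839164, nat_lit 25651981558, nat_lit 27170503393, nat_lit 20904962361, nat_lit 22118644957], nat_lit 1271250, nat_lit 1271250, nat_lit 21650, nat_lit 230001, nat_lit 1271250, nat_lit 1271250, [nat_lit 1412500, nat_lit 1271250, nat_lit 1271250], [nat_lit 25, nat_lit 40, nat_lit 20, nat_lit 80, nat_lit 17, nat_lit 289, nat_lit 75, nat_lit 8]⟩, ⟨p027_k6, nat_lit 0, nat_lit 0, nat_lit 289, nat_lit 0, nat_lit 0, [nat_lit 6250000000, nat_lit 7968000000, nat_lit 9842000000], [], [nat_lit 20298966015, nat_lit 21074245048, nat_lit 16533062376, nat_lit 17330685064, nat_lit 15010515773, nat_lit 15737386997, nat_lit 11933313328, nat_lit 12647727336], nat_lit 0, nat_lit 0, nat_lit 0, nat_lit 0, nat_lit 0, nat_lit 0,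 [], [nat_lit 25, nat_lit 40, nat_lit 20, nat_lit 80, nat_lit 17, nat_lit 345, nat_lit 125, nat_lit 11]⟩,
 zbF0, [⟨nat_lit 0, nat_lit 100, nat_lit 100, nat_lit 27, nat_lit 1823777882⟩, ⟨nat_lit 16, nat_lit 100, nat_lit 93, nat_lit 53, nat_lit 4639848489⟩]⟩
noncomputable def p027_l14 : Lf2 := ⟨nat_lit 0, nat_lit 5, [nat_lit 4, nat_lit 5, nat_lit 5, nat_lit 20], false, nat_lit 280, nat_lit 296, nat_lit 0, nat_lit 160, ⟨nat_lit 1000, nat_lit 0, nat_lit 0, nat_lit 0, nat_lit 0, nat_lit 0, nat_lit 0, nat_lit 0, nat_lit 0, nat_lit 0, nat_lit 0, nat_lit 0, nat_lit 0, nat_lit 0, nat_lit 0, nat_lit 0, false, false⟩,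
 nat_lit 0, nat_lit 19174, nat_lit 0, nat_lit 24932, nat_lit 9656, nat_lit 9551, nat_lit 2962, nat_lit 0, nat_lit 0, nat_lit 4110, nat_lit 0, nat_lit 0, nat_lit 0, nat_lit 35659269894072, nat_lit 0, nat_lit 0, nat_lit 0, nat_lit 0, [],
 ⟨p027_k4, nat_lit 0, nat_lit 0, nat_lit 239, nat_lit 0, nat_lit 196342, [nat_lit 6250000000, nat_lit 7968000001, nat_lit 9842000000], [], [nat_lit 22472557337, nat_lit 23034433994, nat_lit 19690472632, nat_lit 20175254272, nat_lit 24417450451, nat_lit 25202712910, nat_lit 20955953369, nat_lit 21406909607], nat_lit 1271250, nat_lit 1271250, nat_lit 43600, nat_lit 230001, nat_lit 1271250, nat_lit 1271250, [nat_lit 1412500, nat_lit 1271250, nat_lit 1271250], [nat_lit 25, nat_lit 40, nat_lit 20, nat_lit 80, nat_lit 17, nat_lit 289, nat_lit 75, nat_lit 8]⟩, ⟨p027_k4, nat_lit 0, nat_lit 0, nat_lit 285, nat_lit 0, nat_lit 0, [nat_lit 6250000000, nat_lit 7968000000, nat_lit 9842000000], [],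 [nat_lit 20568118761, nat_lit 21446955730, nat_lit 17369032021, nat_lit 18238882968, nat_lit 15352307320, nat_lit 16077144363, nat_lit 12713817954, nat_lit 13426804316], nat_lit 0, nat_lit 0, nat_lit 0, nat_lit 0, nat_lit 0, nat_lit 0, [], [nat_lit 25, nat_lit 40, nat_lit 20, nat_lit 80, nat_lit 17, nat_lit 345, nat_lit 125, nat_lit 11]⟩,
 zbF0, [⟨nat_lit 0, nat_lit 100, nat_lit 100, nat_lit 35, nat_lit 1742275085⟩, ⟨nat_lit 4, nat_lit 94, nat_lit 100, nat_lit 54, nat_lit 3201960558⟩]⟩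
noncomputable def p027_l15 : Lf2 := ⟨nat_lit 0, nat_lit 5, [nat_lit 4, nat_lit 5, nat_lit 5, nat_lit 20], false, nat_lit 280, nat_lit 304, nat_lit 160, nat_lit 248, ⟨nat_lit 1000, nat_lit 0, nat_lit 0, nat_lit 0, nat_lit 0, nat_lit 0, nat_lit 0, nat_lit 0, nat_lit 0, nat_lit 0, nat_lit 0, nat_lit 0, nat_lit 0, nat_lit 0, nat_lit 0, nat_lit 0, false, false⟩,
 nat_lit 0, nat_lit 20570, nat_lit 0, nat_lit 11273, nat_lit 9837, nat_lit 13198, nat_lit 5023, nat_lit 0, nat_lit 0, nat_lit 0, nat_lit 0, nat_lit 0, nat_lit 0, nat_lit 28312674650979, nat_lit 0, nat_lit 0, nat_lit 0, nat_lit 0, [],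
 ⟨p027_k5, nat_lit 0, nat_lit 0, nat_lit 233, nat_lit 0, nat_lit 208593, [nat_lit 6250000000, nat_lit 9842000000], [], [nat_lit 22910806227, nat_lit 23893663559, nat_lit 18910350034, nat_lit 19888036594, nat_lit 25669304532, nat_lit 27189133809, nat_lit 20987224261, nat_lit 22128859573], nat_lit 1271250, nat_lit 1271250, nat_lit 21650, nat_lit 230001, nat_lit 1271250, nat_lit 1271250, [nat_lit 1412500, nat_lit 1271250], [nat_lit 51, nat_lit 40, nat_lit 20, nat_lit 80, nat_lit 1, nat_lit 289, nat_lit 75, nat_lit 8]⟩, ⟨p027_k5, nat_lit 0, nat_lit 0, nat_lit 63, nat_lit 0, nat_lit 0, [nat_lit 6250000000, nat_lit 9842000000], [], [nat_lit 9103125868, nat_lit 12229485053, nat_lit 2986972112, nat_lit 5381704832, nat_lit 19390699196, nat_lit 21787290179, nat_lit 12532214835, nat_lit 14938700343], nat_lit 0, nat_lit 0, nat_lit 0, nat_lit 0, nat_lit 0, nat_lit 0, [], [nat_lit 51, nat_lit 40, nat_lit 20, nat_lit 80, nat_lit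 1, nat_lit 373, nat_lit 150, nat_lit 11]⟩,
 zbF0, [⟨nat_lit 0, nat_lit 100, nat_lit 100, nat_lit 40, nat_lit 674380321⟩, ⟨nat_lit 4, nat_lit 93, nat_lit 100, nat_lit 53, nat_lit 2434151900⟩, ⟨nat_lit 11, nat_lit 100, nat_lit 90, nat_lit 46, nat_lit 1811675602⟩]⟩
noncomputable def b_VL_500_500_5_14 : St := ⟨true, nat_lit 1, nat_lit 0, nat_lit 1, nat_lit 40, nat_lit 220, nat_lit 240, nat_lit 200, nat_lit 240, nat_lit 0, nat_lit 40, nat_lit 20, nat_lit 40, nat_lit 280, nat_lit 304, nat_lit 0, nat_lit 288, nat_lit 0, nat_lit 20, nat_lit 0, nat_lit 0, nat_lit 0, nat_lit 0⟩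
theorem d_VL_500_500_5_14 (h : EB TB.env) : Dead b_VL_500_500_5_14 := chkB_sound0 h (T :=
(.trX (nat_lit 23) (nat_lit 94) (nat_lit 100) (nat_lit 62) (nat_lit 248) (.spl (nat_lit 1) (nat_lit 220)
(.leaf p027_l12)
(.trZ (nat_lit 0) (nat_lit 100) (nat_lit 100) (nat_lit 20) (nat_lit 4) (.spl (nat_lit 5) (nat_lit 160)
(.spl (nat_lit 1) (nat_lit 230)
(.leaf p027_l13)
(.ord (.trZ (nat_lit 0) (nat_lit 100) (nat_lit 100) (nat_lit 30) (nat_lit 8) (.trX (nat_lit 16) (nat_lit 100) (nat_lit 89) (nat_lit 61) (nat_lit 296) (.leaf p027_l14)))))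
(.leaf p027_l15)))))) (by decide +kernel)
noncomputable def p027_l16 : Lf2 := ⟨nat_lit 0, nat_lit 5, [nat_lit 4, nat_lit 5, nat_lit 5, nat_lit 20], true, nat_lit 240, nat_lit 304, nat_lit 0, nat_lit 320, ⟨nat_lit 0, nat_lit 0, nat_lit 1000, nat_lit 5, nat_lit 87, nat_lit 1000, nat_lit 189, nat_lit 1000, nat_lit 5002, nat_lit 231, nat_lit 70417, nat_lit 280, nat_lit 51185128, nat_lit 0, nat_lit 0, nat_lit 3567445, false, false⟩,
 nat_lit 0, nat_lit 12836, nat_lit 0, nat_lit 0, nat_lit 6138, nat_lit 0, nat_lit 357, nat_lit 0, nat_lit 0, nat_lit 0, nat_lit 0, nat_lit 0, nat_lit 0, nat_lit 28480412962909, nat_lit 115, nat_lit 1000000, nat_lit 0, nat_lit 0, [(nat_lit 3, [(nat_lit 6, nat_lit 1000)])],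
 ⟨p027_k5, nat_lit 0, nat_lit 0, nat_lit 157, nat_lit 0, nat_lit 100096, [nat_lit 3341142858, nat_lit 23600000], [], [nat_lit 12028106520, nat_lit 12491739282, nat_lit 11299726336, nat_lit 11745037162, nat_lit 18405734172, nat_lit 19007834720, nat_lit 16988184741, nat_lit 17577593548], nat_lit 1271250, nat_lit 1271250, nat_lit 230001, nat_lit 490000, nat_lit 1271250, nat_lit 1271250, [nat_lit 1412500, nat_lit 1271250], [nat_lit 51, nat_lit 40, nat_lit 20, nat_lit 80, nat_lit 1, nat_lit 401, nat_lit 175, nat_lit 11]⟩, C1.Rw.none,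
 ⟨nat_lit 6519, nat_lit 6709, ⟨.ofNat (nat_lit 155377), .ofNat (nat_lit 241532), .ofNat (nat_lit 187534), .ofNat (nat_lit 273690), .ofNat (nat_lit 163247), .ofNat (nat_lit 247435), .ofNat (nat_lit 195344), .ofNat (nat_lit 279532)⟩, ⟨.ofNat (nat_lit 393209), .ofNat (nat_lit 531053), .ofNat (nat_lit 414647), .ofNat (nat_lit 552490), .ofNat (nat_lit 391604), .ofNat (nat_lit 526300), .ofNat (nat_lit 413002), .ofNat (nat_lit 547697)⟩⟩, [⟨nat_lit 4, nat_lit 92, nat_lit 100, nat_lit 53, nat_lit 913276603⟩]⟩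
noncomputable def p027_l17 : Lf2 := ⟨nat_lit 0, nat_lit 2, [nat_lit 10, nat_lit 5, nat_lit 5, nat_lit 20], true, nat_lit 240, nat_lit 260, nat_lit 0, nat_lit 320, ⟨nat_lit 0, nat_lit 0, nat_lit 1000, nat_lit 5, nat_lit 92, nat_lit 1000, nat_lit 169, nat_lit 1000, nat_lit 180507, nat_lit 319, nat_lit 79350, nat_lit 284, nat_lit 52738541, nat_lit 0, nat_lit 0, nat_lit 3414931, false, false⟩,
 nat_lit 0, nat_lit 11059, nat_lit 0, nat_lit 0, nat_lit 5569, nat_lit 0, nat_lit 0, nat_lit 0, nat_lit 0, nat_lit 0, nat_lit 0, nat_lit 0, nat_lit 0, nat_lit 29186099454007, nat_lit 53, nat_lit 1000000, nat_lit 0, nat_lit 0, [(nat_lit 3, [(nat_lit 6, nat_lit 1000)])],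
 ⟨p027_k0, nat_lit 0, nat_lit 0, nat_lit 149, nat_lit 0, nat_lit 187172, [nat_lit 2101142858, nat_lit 11600000], [], [nat_lit 13524071999, nat_lit 13970606880, nat_lit 12915488939, nat_lit 13344880852, nat_lit 14686974767, nat_lit 15106776887, nat_lit 14032447208, nat_lit 14436374160], nat_lit 1271250, nat_lit 1271250, nat_lit 230001, nat_lit 490000, nat_lit 1271250, nat_lit 1271250, [nat_lit 1412500, nat_lit 1271250], [nat_lit 26, nat_lit 40, nat_lit 20, nat_lit 80, nat_lit 2, nat_lit 317, nat_lit 100, nat_lit 10]⟩, C1.Rw.none,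
 ⟨nat_lit 6324, nat_lit 6520, ⟨.ofNat (nat_lit 163247), .ofNat (nat_lit 247435), .ofNat (nat_lit 206043), .ofNat (nat_lit 290231), .ofNat (nat_lit 170942), .ofNat (nat_lit 253206), .ofNat (nat_lit 213677), .ofNat (nat_lit 295942)⟩, ⟨.ofNat (nat_lit 391604), .ofNat (nat_lit 433698), .ofNat (nat_lit 413002), .ofNat (nat_lit 455096), .ofNat (nat_lit 389952), .ofNat (nat_lit 431084), .ofNat (nat_lit 411320), .ofNat (nat_lit 452452)⟩⟩, [⟨nat_lit 4, nat_lit 94, nat_lit 100, nat_lit 54, nat_lit 418543377⟩]⟩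
noncomputable def p027_l18 : Lf2 := ⟨nat_lit 0, nat_lit 5, [nat_lit 4, nat_lit 5, nat_lit 5, nat_lit 20], true, nat_lit 240, nat_lit 260, nat_lit 0, nat_lit 320, ⟨nat_lit 0, nat_lit 0, nat_lit 1000, nat_lit 5, nat_lit 92, nat_lit 1000, nat_lit 169, nat_lit 1000, nat_lit 180507, nat_lit 319, nat_lit 79350, nat_lit 284, nat_lit 52738541, nat_lit 0, nat_lit 0, nat_lit 3414931, false, false⟩,
 nat_lit 0, nat_lit 11807, nat_lit 0, nat_lit 0, nat_lit 5946, nat_lit 0, nat_lit 0, nat_lit 0, nat_lit 0, nat_lit 0, nat_lit 0, nat_lit 0, nat_lit 0, nat_lit 28658217169578, nat_lit 60, nat_lit 400000, nat_lit 0, nat_lit 0, [(nat_lit 3, [(nat_lit 5, nat_lit 1000)])],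
 ⟨p027_k7, nat_lit 0, nat_lit 0, nat_lit 142, nat_lit 0, nat_lit 95399, [nat_lit 2770400000, nat_lit 2000000], [], [nat_lit 13084326152, nat_lit 13680979760, nat_lit 12260077044, nat_lit 12836196416, nat_lit 14639549750, nat_lit 15198147510, nat_lit 13755837011, nat_lit 14295686616], nat_lit 1271250, nat_lit 1271250, nat_lit 230001, nat_lit 490000, nat_lit 1271250, nat_lit 1271250, [nat_lit 1412500, nat_lit 1271250], [nat_lit 51, nat_lit 40, nat_lit 20, nat_lit 80, nat_lit 1, nat_lit 373, nat_lit 150, nat_lit 10]⟩, C1.Rw.none,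
 ⟨nat_lit 6324, nat_lit 6520, ⟨.ofNat (nat_lit 163247), .ofNat (nat_lit 247435), .ofNat (nat_lit 206043), .ofNat (nat_lit 290231), .ofNat (nat_lit 170942), .ofNat (nat_lit 253206), .ofNat (nat_lit 213677), .ofNat (nat_lit 295942)⟩, ⟨.ofNat (nat_lit 391604), .ofNat (nat_lit 433698), .ofNat (nat_lit 413002), .ofNat (nat_lit 455096), .ofNat (nat_lit 389952), .ofNat (nat_lit 431084), .ofNat (nat_lit 411320), .ofNat (nat_lit 452452)⟩⟩, [⟨nat_lit 4, nat_lit 94, nat_lit 100, nat_lit 54, nat_lit 594933657⟩]⟩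
noncomputable def p027_l19 : Lf2 := ⟨nat_lit 0, nat_lit 5, [nat_lit 4, nat_lit 5, nat_lit 5, nat_lit 20], true, nat_lit 260, nat_lit 280, nat_lit 0, nat_lit 320, ⟨nat_lit 0, nat_lit 0, nat_lit 1000, nat_lit 5, nat_lit 90, nat_lit 1000, nat_lit 186, nat_lit 1000, nat_lit 41332, nat_lit 264, nat_lit 77067, nat_lit 283, nat_lit 51246960, nat_lit 0, nat_lit 0, nat_lit 3583063, false, false⟩,
 nat_lit 0, nat_lit 11195, nat_lit 0, nat_lit 0, nat_lit 5638, nat_lit 0, nat_lit 4, nat_lit 0, nat_lit 0, nat_lit 0, nat_lit 0, nat_lit 0, nat_lit 0, nat_lit 25746388743864, nat_lit 115, nat_lit 1000000, nat_lit 0, nat_lit 0, [(nat_lit 3, [(nat_lit 6, nat_lit 1000)])],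
 ⟨p027_k7, nat_lit 0, nat_lit 0, nat_lit 163, nat_lit 0, nat_lit 144843, [nat_lit 3341142858, nat_lit 23600000], [], [nat_lit 14568861567, nat_lit 14779745588, nat_lit 13897173950, nat_lit 14099977777, nat_lit 16368842414, nat_lit 16688127615, nat_lit 15196210385, nat_lit 15508216703], nat_lit 1271250, nat_lit 1271250, nat_lit 230001, nat_lit 490000, nat_lit 1271250, nat_lit 1271250, [nat_lit 1412500, nat_lit 1271250], [nat_lit 51, nat_lit 40, nat_lit 20, nat_lit 80, nat_lit 1, nat_lit 373, nat_lit 150, nat_lit 10]⟩, C1.Rw.none,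
 ⟨nat_lit 6422, nat_lit 6520, ⟨.ofNat (nat_lit 163247), .ofNat (nat_lit 247435), .ofNat (nat_lit 200693), .ofNat (nat_lit 284881), .ofNat (nat_lit 167115), .ofNat (nat_lit 250336), .ofNat (nat_lit 204533), .ofNat (nat_lit 287754)⟩, ⟨.ofNat (nat_lit 433698), .ofNat (nat_lit 475792), .ofNat (nat_lit 455096), .ofNat (nat_lit 497190), .ofNat (nat_lit 432394), .ofNat (nat_lit 474005), .ofNat (nat_lit 453776), .ofNat (nat_lit 495386)⟩⟩, [⟨nat_lit 4, nat_lit 94, nat_lit 100, nat_lit 53, nat_lit 864808346⟩]⟩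
noncomputable def p027_l20 : Lf2 := ⟨nat_lit 0, nat_lit 5, [nat_lit 4, nat_lit 5, nat_lit 5, nat_lit 20], true, nat_lit 260, nat_lit 280, nat_lit 0, nat_lit 320, ⟨nat_lit 0, nat_lit 0, nat_lit 1000, nat_lit 5, nat_lit 93, nat_lit 1000, nat_lit 185, nat_lit 1000, nat_lit 41667, nat_lit 265, nat_lit 81667, nat_lit 285, nat_lit 51156286, nat_lit 0, nat_lit 0, nat_lit 3610103, false, false⟩,
 nat_lit 0, nat_lit 10784, nat_lit 0, nat_lit 0, nat_lit 5569, nat_lit 0, nat_lit 0, nat_lit 0, nat_lit 0, nat_lit 0, nat_lit 0, nat_lit 0, nat_lit 0, nat_lit 25277092617517, nat_lit 115, nat_lit 1000000, nat_lit 0, nat_lit 0, [(nat_lit 3, [(nat_lit 6, nat_lit 1000)])],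
 ⟨p027_k8, nat_lit 0, nat_lit 0, nat_lit 181, nat_lit 0, nat_lit 190672, [nat_lit 3341142858, nat_lit 23600000], [], [nat_lit 14896875827, nat_lit 15106776887, nat_lit 14234410684, nat_lit 14436374160, nat_lit 16659403433, nat_lit 16976857408, nat_lit 15503490289, nat_lit 15813717010], nat_lit 1271250, nat_lit 1271250, nat_lit 230001, nat_lit 490000, nat_lit 1271250, nat_lit 1271250, [nat_lit 1412500, nat_lit 1271250], [nat_lit 51, nat_lit 40, nat_lit 20, nat_lit 80, nat_lit 1, nat_lit 373, nat_lit 150, nat_lit 10]⟩, C1.Rw.none,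
 ⟨nat_lit 6324, nat_lit 6423, ⟨.ofNat (nat_lit 167115), .ofNat (nat_lit 250336), .ofNat (nat_lit 209879), .ofNat (nat_lit 293099), .ofNat (nat_lit 170942), .ofNat (nat_lit 253206), .ofNat (nat_lit 213677), .ofNat (nat_lit 295942)⟩, ⟨.ofNat (nat_lit 432394), .ofNat (nat_lit 474005), .ofNat (nat_lit 453776), .ofNat (nat_lit 495387), .ofNat (nat_lit 431084), .ofNat (nat_lit 472216), .ofNat (nat_lit 452452), .ofNat (nat_lit 493584)⟩⟩, [⟨nat_lit 4, nat_lit 95, nat_lit 100, nat_lit 54, nat_lit 883791267⟩]⟩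
noncomputable def p027_l21 : Lf2 := ⟨nat_lit 0, nat_lit 5, [nat_lit 4, nat_lit 5, nat_lit 5, nat_lit 20], true, nat_lit 280, nat_lit 296, nat_lit 0, nat_lit 300, ⟨nat_lit 0, nat_lit 0, nat_lit 1000, nat_lit 5, nat_lit 92, nat_lit 1000, nat_lit 201, nat_lit 1000, nat_lit 13437, nat_lit 242, nat_lit 79350, nat_lit 284, nat_lit 49735144, nat_lit 0, nat_lit 0, nat_lit 3756941, false, false⟩,
 nat_lit 0, nat_lit 10339, nat_lit 0, nat_lit 0, nat_lit 5207, nat_lit 0, nat_lit 0, nat_lit 0, nat_lit 0, nat_lit 0, nat_lit 0, nat_lit 0, nat_lit 0, nat_lit 24694946250027, nat_lit 115, nat_lit 1000000, nat_lit 0, nat_lit 0, [(nat_lit 3, [(nat_lit 6, nat_lit 1000)])],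
 ⟨p027_k7, nat_lit 0, nat_lit 0, nat_lit 190, nat_lit 0, nat_lit 196342, [nat_lit 3341142858, nat_lit 23600000], [], [nat_lit 16432436170, nat_lit 16817382250, nat_lit 15824148499, nat_lit 16195102972, nat_lit 17677228277, nat_lit 18256149476, nat_lit 16689753945, nat_lit 17170999966], nat_lit 1271250, nat_lit 1271250, nat_lit 230001, nat_lit 490000, nat_lit 1271250, nat_lit 1271250, [nat_lit 1412500, nat_lit 1271250], [nat_lit 51, nat_lit 40, nat_lit 20, nat_lit 80, nat_lit 1, nat_lit 317, nat_lit 100, nat_lit 9]⟩, C1.Rw.none,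
 ⟨nat_lit 6324, nat_lit 6520, ⟨.ofNat (nat_lit 163247), .ofNat (nat_lit 247435), .ofNat (nat_lit 206043), .ofNat (nat_lit 290231), .ofNat (nat_lit 170942), .ofNat (nat_lit 253206), .ofNat (nat_lit 213677), .ofNat (nat_lit 295942)⟩, ⟨.ofNat (nat_lit 475792), .ofNat (nat_lit 509466), .ofNat (nat_lit 497189), .ofNat (nat_lit 530862), .ofNat (nat_lit 472216), .ofNat (nat_lit 505121), .ofNat (nat_lit 493584), .ofNat (nat_lit 526487)⟩⟩, [⟨nat_lit 4, nat_lit 94, nat_lit 100, nat_lit 54, nat_lit 855812361⟩]⟩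
noncomputable def b_VL_500_500_5_15 : St := ⟨true, nat_lit 1, nat_lit 0, nat_lit 1, nat_lit 40, nat_lit 220, nat_lit 240, nat_lit 200, nat_lit 240, nat_lit 40, nat_lit 80, nat_lit 20, nat_lit 40, nat_lit 240, nat_lit 304, nat_lit 0, nat_lit 320, nat_lit 0, nat_lit 20, nat_lit 0, nat_lit 0, nat_lit 0, nat_lit 0⟩
theorem d_VL_500_500_5_15 (h : EB TB.env) : Dead b_VL_500_500_5_15 := chkB_sound0 h (T :=
(.spl (nat_lit 0) (nat_lit 230)
(.ord (.leaf p027_l16))
(.trX (nat_lit 16) (nat_lit 100) (nat_lit 89) (nat_lit 61) (nat_lit 296) (.spl (nat_lit 4) (nat_lit 280)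
(.spl (nat_lit 4) (nat_lit 260)
(.spl (nat_lit 6) (nat_lit 8)
(.leaf p027_l17)
(.leaf p027_l18))
(.spl (nat_lit 0) (nat_lit 235)
(.ord (.leaf p027_l19))
(.leaf p027_l20)))
(.trX (nat_lit 23) (nat_lit 100) (nat_lit 95) (nat_lit 87) (nat_lit 300) (.leaf p027_l21)))))) (by decide +kernel)
noncomputable def p027_l22 : Lf2 := ⟨nat_lit 0, nat_lit 5, [nat_lit 4, nat_lit 5, nat_lit 5, nat_lit 20], true, nat_lit 240, nat_lit 304, nat_lit 0, nat_lit 320, ⟨nat_lit 0, nat_lit 0, nat_lit 1000, nat_lit 5, nat_lit 116, nat_lit 1000, nat_lit 188, nat_lit 1000, nat_lit 4965, nat_lit 231, nat_lit 126150, nat_lit 302, nat_lit 49403160, nat_lit 0, nat_lit 0, nat_lit 3948388, false, false⟩,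
 nat_lit 0, nat_lit 13021, nat_lit 0, nat_lit 0, nat_lit 6227, nat_lit 0, nat_lit 156, nat_lit 0, nat_lit 0, nat_lit 0, nat_lit 0, nat_lit 0, nat_lit 0, nat_lit 31023343391417, nat_lit 115, nat_lit 1000000, nat_lit 0, nat_lit 0, [(nat_lit 3, [(nat_lit 6, nat_lit 1000)])],
 ⟨p027_k6, nat_lit 0, nat_lit 0, nat_lit 176, nat_lit 0, nat_lit 208593, [nat_lit 3341142858, nat_lit 1499600000, nat_lit 23600000], [], [nat_lit 11114160446, nat_lit 12009762004, nat_lit 11027777994, nat_lit 11899630136, nat_lit 17009147944, nat_lit 18195709341, nat_lit 16739581678, nat_lit 17903388257], nat_lit 1271250, nat_lit 1271250, nat_lit 490000, nat_lit 631250, nat_lit 1271250, nat_lit 1271250, [nat_lit 1412500, nat_lit 1271250, nat_lit 1271250], [nat_lit 25, nat_lit 40, nat_lit 20, nat_lit 80, nat_lit 17, nat_lit 401, nat_lit 175, nat_lit 11]⟩, C1.Rw.none,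
 ⟨nat_lit 6324, nat_lit 6709, ⟨.ofNat (nat_lit 241532), .ofNat (nat_lit 284610), .ofNat (nat_lit 284409), .ofNat (nat_lit 327487), .ofNat (nat_lit 253206), .ofNat (nat_lit 294338), .ofNat (nat_lit 295942), .ofNat (nat_lit 337074)⟩, ⟨.ofNat (nat_lit 393209), .ofNat (nat_lit 531043), .ofNat (nat_lit 414647), .ofNat (nat_lit 552474), .ofNat (nat_lit 389952), .ofNat (nat_lit 521560), .ofNat (nat_lit 411320), .ofNat (nat_lit 542921)⟩⟩, [⟨nat_lit 4, nat_lit 93, nat_lit 100, nat_lit 53, nat_lit 876647944⟩]⟩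
noncomputable def p027_l23 : Lf2 := ⟨nat_lit 0, nat_lit 5, [nat_lit 4, nat_lit 5, nat_lit 5, nat_lit 20], false, nat_lit 240, nat_lit 304, nat_lit 0, nat_lit 320, ⟨nat_lit 1000, nat_lit 0, nat_lit 0, nat_lit 0, nat_lit 0, nat_lit 0, nat_lit 0, nat_lit 0, nat_lit 0, nat_lit 0, nat_lit 0, nat_lit 0, nat_lit 0, nat_lit 0, nat_lit 0, nat_lit 0, false, false⟩,
 nat_lit 0, nat_lit 24112, nat_lit 0, nat_lit 0, nat_lit 11531, nat_lit 12771, nat_lit 3317, nat_lit 0, nat_lit 0, nat_lit 4588, nat_lit 0, nat_lit 0, nat_lit 0, nat_lit 12629833902306, nat_lit 0, nat_lit 0, nat_lit 0, nat_lit 0, [],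
 ⟨p027_k6, nat_lit 0, nat_lit 0, nat_lit 281, nat_lit 0, nat_lit 409043, [nat_lit 6250000000, nat_lit 7968000001, nat_lit 9842000000], [], [nat_lit 11204480437, nat_lit 12206093363, nat_lit 10881243763, nat_lit 11889827939, nat_lit 17383400292, nat_lit 18995261211, nat_lit 16933694324, nat_lit 18499129019], nat_lit 1271250, nat_lit 1271250, nat_lit 631250, nat_lit 780000, nat_lit 1271250, nat_lit 1271250, [nat_lit 1412500, nat_lit 1271250, nat_lit 1271250], [nat_lit 25, nat_lit 40, nat_lit 20, nat_lit 80, nat_lit 17, nat_lit 401, nat_lit 175, nat_lit 11]⟩, ⟨p027_k9, nat_lit 0, nat_lit 0, nat_lit 202, nat_lit 0, nat_lit 0, [nat_lit 6250000000, nat_lit 7968000000, nat_lit 11872000000], [], [nat_lit 15220816168, nat_lit 18358356168, nat_lit 14638345188, nat_lit 17683950180, nat_lit 19722516520, nat_lit 21727192800, nat_lit 19133552128, nat_lit 21062530996], nat_lit 0, nat_lit 0, nat_lit 0, nat_lit 0, nat_lit 0, nat_lit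 0, [], [nat_lit 53, nat_lit 40, nat_lit 20, nat_lit 80, nat_lit 14, nat_lit 401, nat_lit 175, nat_lit 11]⟩,
 zbF0, [⟨nat_lit 16, nat_lit 100, nat_lit 93, nat_lit 53, nat_lit 1454062319⟩, ⟨nat_lit 19, nat_lit 100, nat_lit 90, nat_lit 53, nat_lit 449293432⟩]⟩
noncomputable def b_VL_500_500_5_16 : St := ⟨true, nat_lit 1, nat_lit 0, nat_lit 1, nat_lit 40, nat_lit 220, nat_lit 240, nat_lit 200, nat_lit 240, nat_lit 80, nat_lit 120, nat_lit 20, nat_lit 40, nat_lit 240, nat_lit 304, nat_lit 0, nat_lit 320, nat_lit 0, nat_lit 20, nat_lit 0, nat_lit 0, nat_lit 0, nat_lit 0⟩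
theorem d_VL_500_500_5_16 (h : EB TB.env) : Dead b_VL_500_500_5_16 := chkB_sound0 h (T :=
(.spl (nat_lit 2) (nat_lit 100)
(.leaf p027_l22)
(.leaf p027_l23))) (by decide +kernel)
noncomputable def p027_l24 : Lf2 := ⟨nat_lit 0, nat_lit 5, [nat_lit 4, nat_lit 5, nat_lit 5, nat_lit 20], false, nat_lit 160, nat_lit 304, nat_lit 0, nat_lit 160, ⟨nat_lit 1000, nat_lit 0, nat_lit 0, nat_lit 0, nat_lit 0, nat_lit 0, nat_lit 0, nat_lit 0, nat_lit 0, nat_lit 0, nat_lit 0, nat_lit 0, nat_lit 0, nat_lit 0, nat_lit 0, nat_lit 0, false, false⟩,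
 nat_lit 0, nat_lit 14740, nat_lit 0, nat_lit 5652, nat_lit 7049, nat_lit 19589, nat_lit 34, nat_lit 0, nat_lit 0, nat_lit 6252, nat_lit 0, nat_lit 0, nat_lit 0, nat_lit 27341815889049, nat_lit 0, nat_lit 0, nat_lit 0, nat_lit 6273231408, [],
 ⟨p027_k6, nat_lit 0, nat_lit 0, nat_lit 245, nat_lit 0, nat_lit 409043, [nat_lit 6250000000, nat_lit 7968000001, nat_lit 9842000000], [], [nat_lit 40776436122, nat_lit 36991560160, nat_lit 33517138751, nat_lit 30195607657, nat_lit 30105735613, nat_lit 30639078037, nat_lit 31365830292, nat_lit 31745157182], nat_lit 1271250, nat_lit 1271250, nat_lit 780000, nat_lit 1762500, nat_lit 1271250, nat_lit 1271250, [nat_lit 1412500, nat_lit 1271250, nat_lit 1271250], [nat_lit 25, nat_lit 40, nat_lit 20, nat_lit 80, nat_lit 17, nat_lit 428, nat_lit 200, nat_lit 12]⟩, ⟨p027_k9, nat_lit 0, nat_lit 0, nat_lit 191, nat_lit 0, nat_lit 0, [nat_lit 6250000000, nat_lit 7968000000, nat_lit 11872000000],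 [], [nat_lit 16223463300, nat_lit 20237381676, nat_lit 25301402392, nat_lit 31949975264, nat_lit 0, nat_lit 4998951804, nat_lit 7375788228, nat_lit 12719400524], nat_lit 0, nat_lit 0, nat_lit 0, nat_lit 0, nat_lit 0, nat_lit 0, [], [nat_lit 53, nat_lit 40, nat_lit 20, nat_lit 80, nat_lit 14, nat_lit 401, nat_lit 175, nat_lit 11]⟩,
 zbF0, []⟩
noncomputable def p027_l25 : Lf2 := ⟨nat_lit 0, nat_lit 5, [nat_lit 4, nat_lit 5, nat_lit 5, nat_lit 20], false, nat_lit 160, nat_lit 304, nat_lit 160, nat_lit 320, ⟨nat_lit 1000, nat_lit 0, nat_lit 0, nat_lit 0, nat_lit 0, nat_lit 0, nat_lit 0, nat_lit 0, nat_lit 0, nat_lit 0, nat_lit 0, nat_lit 0, nat_lit 0, nat_lit 0, nat_lit 0, nat_lit 0, false, false⟩,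
 nat_lit 0, nat_lit 10548, nat_lit 0, nat_lit 14656, nat_lit 5044, nat_lit 24832, nat_lit 3631, nat_lit 0, nat_lit 0, nat_lit 0, nat_lit 0, nat_lit 0, nat_lit 0, nat_lit 0, nat_lit 0, nat_lit 0, nat_lit 0, nat_lit 18197361280, [],
 ⟨p027_k6, nat_lit 0, nat_lit 0, nat_lit 245, nat_lit 0, nat_lit 409043, [nat_lit 6250000000, nat_lit 7968000001, nat_lit 9842000000], [], [nat_lit 36644576232, nat_lit 33936260960, nat_lit 32570278751, nat_lit 30193515687, nat_lit 27516229265, nat_lit 28098398119, nat_lit 29661135905, nat_lit 30159560381], nat_lit 1271250, nat_lit 1271250, nat_lit 780000, nat_lit 1762500, nat_lit 1271250, nat_lit 1271250, [nat_lit 1412500, nat_lit 1271250, nat_lit 1271250], [nat_lit 25, nat_lit 40, nat_lit 20, nat_lit 80, nat_lit 17, nat_lit 428, nat_lit 200, nat_lit 12]⟩, ⟨p027_k9, nat_lit 0, nat_lit 0, nat_lit 31, nat_lit 0, nat_lit 0, [nat_lit 6250000000, nat_lit 7968000000, nat_lit 11872000000], [],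 [nat_lit 0, nat_lit 9606829536, nat_lit 15352673504, nat_lit 22131315488, nat_lit 37689515776, nat_lit 42447203840, nat_lit 42233630208, nat_lit 45324490432], nat_lit 0, nat_lit 0, nat_lit 0, nat_lit 0, nat_lit 0, nat_lit 0, [], [nat_lit 53, nat_lit 40, nat_lit 20, nat_lit 80, nat_lit 14, nat_lit 428, nat_lit 200, nat_lit 11]⟩,
 zbF0, [⟨nat_lit 7, nat_lit 90, nat_lit 100, nat_lit 53, nat_lit 2359957686⟩]⟩
noncomputable def b_VL_500_500_5_17 : St := ⟨true, nat_lit 1, nat_lit 0, nat_lit 1, nat_lit 40, nat_lit 220, nat_lit 240, nat_lit 200, nat_lit 240, nat_lit 120, nat_lit 240, nat_lit 20, nat_lit 40, nat_lit 160, nat_lit 304, nat_lit 0, nat_lit 320, nat_lit 0, nat_lit 20, nat_lit 0, nat_lit 0, nat_lit 0, nat_lit 0⟩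
theorem d_VL_500_500_5_17 (h : EB TB.env) : Dead b_VL_500_500_5_17 := chkB_sound0 h (T :=
(.spl (nat_lit 5) (nat_lit 160)
(.leaf p027_l24)
(.leaf p027_l25))) (by decide +kernel)
noncomputable def p027_l26 : Lf2 := ⟨nat_lit 0, nat_lit 5, [nat_lit 4, nat_lit 5, nat_lit 5, nat_lit 20], true, nat_lit 0, nat_lit 40, nat_lit 0, nat_lit 320, ⟨nat_lit 0, nat_lit 0, nat_lit 1000, nat_lit 5, nat_lit 57, nat_lit 0, nat_lit 0, nat_lit 0, nat_lit 3750, nat_lit 200, nat_lit 30817, nat_lit 258, nat_lit 65667342, nat_lit 0, nat_lit 0, nat_lit 488007, false, false⟩,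
 nat_lit 0, nat_lit 5160, nat_lit 0, nat_lit 0, nat_lit 2467, nat_lit 0, nat_lit 0, nat_lit 0, nat_lit 146, nat_lit 0, nat_lit 0, nat_lit 0, nat_lit 0, nat_lit 15454893946132, nat_lit 115, nat_lit 1000000, nat_lit 0, nat_lit 0, [(nat_lit 3, [(nat_lit 6, nat_lit 1000)])],
 ⟨p027_k5, nat_lit 0, nat_lit 0, nat_lit 0, nat_lit 0, nat_lit 208593, [nat_lit 3341142858, nat_lit 23600000], [], [nat_lit 9532306090, nat_lit 10567179256, nat_lit 8874213374, nat_lit 9812048972, nat_lit 9295642384, nat_lit 10225570476, nat_lit 8727853176, nat_lit 9644596280], nat_lit 1271250, nat_lit 1271250, nat_lit 0, nat_lit 230001, nat_lit 0, nat_lit 230001, [nat_lit 1412500, nat_lit 1271250], [nat_lit 51, nat_lit 40, nat_lit 20, nat_lit 80]⟩, C1.Rw.none,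
 ⟨nat_lit 6324, nat_lit 6709, ⟨.ofNat (nat_lit 69221), .ofNat (nat_lit 155377), .ofNat (nat_lit 112098), .ofNat (nat_lit 198253), .ofNat (nat_lit 88677), .ofNat (nat_lit 170942), .ofNat (nat_lit 131413), .ofNat (nat_lit 213677)⟩, ⟨.negSucc (nat_lit 123724), .negSucc (nat_lit 37568), .negSucc (nat_lit 102285), .negSucc (nat_lit 16130), .negSucc (nat_lit 103634), .negSucc (nat_lit 21368), .negSucc (nat_lit 82265), .negSucc (nat_lit 0)⟩⟩, [⟨nat_lit 0, nat_lit 100, nat_lit 100, nat_lit 40, nat_lit 175071992⟩]⟩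
noncomputable def p027_l27 : Lf2 := ⟨nat_lit 0, nat_lit 5, [nat_lit 4, nat_lit 5, nat_lit 5, nat_lit 20], true, nat_lit 0, nat_lit 40, nat_lit 0, nat_lit 320, ⟨nat_lit 0, nat_lit 0, nat_lit 1000, nat_lit 5, nat_lit 53, nat_lit 0, nat_lit 0, nat_lit 0, nat_lit 3750, nat_lit 200, nat_lit 26667, nat_lit 255, nat_lit 65839054, nat_lit 0, nat_lit 0, nat_lit 437167, false, false⟩,
 nat_lit 0, nat_lit 12308, nat_lit 0, nat_lit 0, nat_lit 5886, nat_lit 0, nat_lit 1240, nat_lit 0, nat_lit 0, nat_lit 0, nat_lit 0, nat_lit 0, nat_lit 0, nat_lit 0, nat_lit 115, nat_lit 1000000, nat_lit 0, nat_lit 0, [(nat_lit 3, [(nat_lit 6, nat_lit 1000)])],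
 ⟨p027_k6, nat_lit 0, nat_lit 0, nat_lit 0, nat_lit 0, nat_lit 100096, [nat_lit 3341142858, nat_lit 1499600000, nat_lit 23600000], [], [nat_lit 12939079008, nat_lit 13608874018, nat_lit 10547731080, nat_lit 11210154022, nat_lit 11393218660, nat_lit 12047725228, nat_lit 9197903396, nat_lit 9843485712], nat_lit 1271250, nat_lit 1271250, nat_lit 0, nat_lit 230001, nat_lit 0, nat_lit 230001, [nat_lit 1412500, nat_lit 1271250, nat_lit 1271250], [nat_lit 25, nat_lit 40, nat_lit 20, nat_lit 80]⟩, C1.Rw.none,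
 ⟨nat_lit 6519, nat_lit 6709, ⟨.ofNat (nat_lit 69221), .ofNat (nat_lit 155377), .ofNat (nat_lit 101379), .ofNat (nat_lit 187534), .ofNat (nat_lit 79059), .ofNat (nat_lit 163247), .ofNat (nat_lit 111156), .ofNat (nat_lit 195344)⟩, ⟨.negSucc (nat_lit 123723), .negSucc (nat_lit 37568), .negSucc (nat_lit 102285), .negSucc (nat_lit 16130), .negSucc (nat_lit 113523), .negSucc (nat_lit 29335), .negSucc (nat_lit 92125), .negSucc (nat_lit 7937)⟩⟩, [⟨nat_lit 0, nat_lit 100, nat_lit 100, nat_lit 30, nat_lit 404470868⟩]⟩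
noncomputable def p027_l28 : Lf2 := ⟨nat_lit 0, nat_lit 5, [nat_lit 4, nat_lit 5, nat_lit 5, nat_lit 20], true, nat_lit 0, nat_lit 40, nat_lit 0, nat_lit 320, ⟨nat_lit 0, nat_lit 0, nat_lit 1000, nat_lit 5, nat_lit 54, nat_lit 0, nat_lit 0, nat_lit 0, nat_lit 3750, nat_lit 200, nat_lit 28017, nat_lit 256, nat_lit 65780238, nat_lit 0, nat_lit 0, nat_lit 454786, false, false⟩,
 nat_lit 0, nat_lit 14483, nat_lit 0, nat_lit 0, nat_lit 7294, nat_lit 0, nat_lit 1402, nat_lit 0, nat_lit 0, nat_lit 0, nat_lit 0, nat_lit 0, nat_lit 0, nat_lit 0, nat_lit 115, nat_lit 1000000, nat_lit 0, nat_lit 0, [(nat_lit 3, [(nat_lit 6, nat_lit 1000)])],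
 ⟨p027_k7, nat_lit 0, nat_lit 0, nat_lit 0, nat_lit 0, nat_lit 100506, [nat_lit 3341142858, nat_lit 23600000], [], [nat_lit 14268432548, nat_lit 15027675322, nat_lit 14496447474, nat_lit 12652655566, nat_lit 14549927082, nat_lit 12705741298, nat_lit 14883336661, nat_lit 13065697390], nat_lit 1271250, nat_lit 1271250, nat_lit 0, nat_lit 230001, nat_lit 0, nat_lit 230001, [nat_lit 1412500, nat_lit 1271250], [nat_lit 51, nat_lit 40, nat_lit 20, nat_lit 80]⟩, C1.Rw.none,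
 ⟨nat_lit 6324, nat_lit 6520, ⟨.ofNat (nat_lit 79059), .ofNat (nat_lit 163247), .ofNat (nat_lit 100457), .ofNat (nat_lit 184645), .ofNat (nat_lit 88677), .ofNat (nat_lit 170942), .ofNat (nat_lit 110045), .ofNat (nat_lit 192309)⟩, ⟨.negSucc (nat_lit 113523), .negSucc (nat_lit 29335), .negSucc (nat_lit 92125), .negSucc (nat_lit 7937), .negSucc (nat_lit 103633), .negSucc (nat_lit 21368), .negSucc (nat_lit 82265), .negSucc (nat_lit 0)⟩⟩, [⟨nat_lit 0, nat_lit 100, nat_lit 98, nat_lit 30, nat_lit 65052556⟩]⟩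
noncomputable def p027_l29 : Lf2 := ⟨nat_lit 0, nat_lit 3, [nat_lit 45, nat_lit 5, nat_lit 5, nat_lit 20], true, nat_lit 0, nat_lit 40, nat_lit 0, nat_lit 304, ⟨nat_lit 0, nat_lit 0, nat_lit 1000, nat_lit 5, nat_lit 62, nat_lit 0, nat_lit 0, nat_lit 0, nat_lit 3750, nat_lit 200, nat_lit 35267, nat_lit 261, nat_lit 65442883, nat_lit 0, nat_lit 0, nat_lit 551940, false, false⟩,
 nat_lit 0, nat_lit 11699, nat_lit 0, nat_lit 0, nat_lit 5892, nat_lit 0, nat_lit 634, nat_lit 0, nat_lit 0, nat_lit 0, nat_lit 0, nat_lit 0, nat_lit 0, nat_lit 0, nat_lit 53, nat_lit 1000000, nat_lit 0, nat_lit 0, [(nat_lit 3, [(nat_lit 6, nat_lit 1000)])],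
 ⟨p027_k10, nat_lit 0, nat_lit 0, nat_lit 0, nat_lit 0, nat_lit 116106, [nat_lit 2101142858, nat_lit 11600000], [], [nat_lit 13297128386, nat_lit 13632122328, nat_lit 11203181848, nat_lit 11534563110, nat_lit 11757313852, nat_lit 12084562247, nat_lit 9834390528, nat_lit 10157345954], nat_lit 1271250, nat_lit 1271250, nat_lit 21650, nat_lit 230001, nat_lit 0, nat_lit 230001, [nat_lit 1412500, nat_lit 1271250], [nat_lit 26, nat_lit 40, nat_lit 20, nat_lit 80]⟩, C1.Rw.none,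
 ⟨nat_lit 6422, nat_lit 6520, ⟨.ofNat (nat_lit 108876), .ofNat (nat_lit 184645), .ofNat (nat_lit 119575), .ofNat (nat_lit 195344), .ofNat (nat_lit 113598), .ofNat (nat_lit 188497), .ofNat (nat_lit 124289), .ofNat (nat_lit 199188)⟩, ⟨.negSucc (nat_lit 113523), .negSucc (nat_lit 29335), .negSucc (nat_lit 92125), .negSucc (nat_lit 7937), .negSucc (nat_lit 108540), .negSucc (nat_lit 25319), .negSucc (nat_lit 87158), .negSucc (nat_lit 3938)⟩⟩, [⟨nat_lit 0, nat_lit 100, nat_lit 100, nat_lit 32, nat_lit 398802690⟩]⟩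
noncomputable def p027_l30 : Lf2 := ⟨nat_lit 0, nat_lit 3, [nat_lit 45, nat_lit 5, nat_lit 5, nat_lit 20], true, nat_lit 0, nat_lit 20, nat_lit 0, nat_lit 304, ⟨nat_lit 0, nat_lit 0, nat_lit 1000, nat_lit 5, nat_lit 62, nat_lit 0, nat_lit 0, nat_lit 0, nat_lit 3750, nat_lit 200, nat_lit 36817, nat_lit 262, nat_lit 65411394, nat_lit 0, nat_lit 0, nat_lit 560702, false, false⟩,
 nat_lit 0, nat_lit 11239, nat_lit 0, nat_lit 0, nat_lit 5804, nat_lit 0, nat_lit 493, nat_lit 0, nat_lit 0, nat_lit 0, nat_lit 0, nat_lit 0, nat_lit 0, nat_lit 0, nat_lit 53, nat_lit 1000000, nat_lit 0, nat_lit 0, [(nat_lit 3, [(nat_lit 6, nat_lit 1000)])],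
 ⟨p027_k11, nat_lit 0, nat_lit 0, nat_lit 0, nat_lit 0, nat_lit 115741, [nat_lit 2101142858, nat_lit 11600000], [], [nat_lit 13692553486, nat_lit 14025036040, nat_lit 11634331394, nat_lit 11963222388, nat_lit 12935566175, nat_lit 13264211747, nat_lit 10961332058, nat_lit 11286050636], nat_lit 1271250, nat_lit 1271250, nat_lit 21650, nat_lit 230001, nat_lit 0, nat_lit 111251, [nat_lit 1412500, nat_lit 1271250], [nat_lit 26, nat_lit 40, nat_lit 20, nat_lit 80]⟩, C1.Rw.none,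
 ⟨nat_lit 6324, nat_lit 6423, ⟨.ofNat (nat_lit 113598), .ofNat (nat_lit 188497), .ofNat (nat_lit 118944), .ofNat (nat_lit 193842), .ofNat (nat_lit 118272), .ofNat (nat_lit 192309), .ofNat (nat_lit 123614), .ofNat (nat_lit 197651)⟩, ⟨.negSucc (nat_lit 108540), .negSucc (nat_lit 66930), .negSucc (nat_lit 87158), .negSucc (nat_lit 45548), .negSucc (nat_lit 103633), .negSucc (nat_lit 62500), .negSucc (nat_lit 82265), .negSucc (nat_lit 41133)⟩⟩, [⟨nat_lit 0, nat_lit 100, nat_lit 99, nat_lit 32, nat_lit 395687843⟩]⟩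
noncomputable def p027_l31 : Lf2 := ⟨nat_lit 0, nat_lit 3, [nat_lit 45, nat_lit 5, nat_lit 5, nat_lit 20], true, nat_lit 0, nat_lit 20, nat_lit 0, nat_lit 300, ⟨nat_lit 0, nat_lit 0, nat_lit 1000, nat_lit 5, nat_lit 66, nat_lit 0, nat_lit 0, nat_lit 0, nat_lit 3750, nat_lit 200, nat_lit 40017, nat_lit 264, nat_lit 65235019, nat_lit 0, nat_lit 0, nat_lit 608922, false, false⟩,
 nat_lit 0, nat_lit 11486, nat_lit 0, nat_lit 0, nat_lit 5932, nat_lit 0, nat_lit 533, nat_lit 0, nat_lit 0, nat_lit 0, nat_lit 0, nat_lit 0, nat_lit 0, nat_lit 0, nat_lit 53, nat_lit 1000000, nat_lit 0, nat_lit 0, [(nat_lit 3, [(nat_lit 6, nat_lit 1000)])],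
 ⟨p027_k11, nat_lit 0, nat_lit 0, nat_lit 0, nat_lit 0, nat_lit 127729, [nat_lit 2101142858, nat_lit 11600000], [], [nat_lit 13294337490, nat_lit 13495974482, nat_lit 11489213890, nat_lit 11688721812, nat_lit 12524770006, nat_lit 12724044433, nat_lit 10793510202, nat_lit 10990479327], nat_lit 1271250, nat_lit 1271250, nat_lit 43600, nat_lit 230001, nat_lit 0, nat_lit 111251, [nat_lit 1412500, nat_lit 1271250], [nat_lit 26, nat_lit 40, nat_lit 20, nat_lit 80]⟩, C1.Rw.none,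
 ⟨nat_lit 6363, nat_lit 6423, ⟨.ofNat (nat_lit 127266), .ofNat (nat_lit 193842), .ofNat (nat_lit 132611), .ofNat (nat_lit 199188), .ofNat (nat_lit 130016), .ofNat (nat_lit 196132), .ofNat (nat_lit 135359), .ofNat (nat_lit 201476)⟩, ⟨.negSucc (nat_lit 108540), .negSucc (nat_lit 66930), .negSucc (nat_lit 87158), .negSucc (nat_lit 45548), .negSucc (nat_lit 105587), .negSucc (nat_lit 64264), .negSucc (nat_lit 84214), .negSucc (nat_lit 42891)⟩⟩, [⟨nat_lit 0, nat_lit 100, nat_lit 99, nat_lit 34, nat_lit 394388860⟩]⟩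
noncomputable def p027_l32 : Lf2 := ⟨nat_lit 0, nat_lit 3, [nat_lit 45, nat_lit 5, nat_lit 5, nat_lit 20], true, nat_lit 0, nat_lit 20, nat_lit 0, nat_lit 300, ⟨nat_lit 0, nat_lit 0, nat_lit 1000, nat_lit 5, nat_lit 67, nat_lit 0, nat_lit 0, nat_lit 0, nat_lit 3750, nat_lit 200, nat_lit 41667, nat_lit 265, nat_lit 65190997, nat_lit 0, nat_lit 0, nat_lit 620740, false, false⟩,
 nat_lit 0, nat_lit 13011, nat_lit 0, nat_lit 0, nat_lit 6820, nat_lit 0, nat_lit 648, nat_lit 0, nat_lit 0, nat_lit 0, nat_lit 0, nat_lit 0, nat_lit 0, nat_lit 0, nat_lit 53, nat_lit 1000000, nat_lit 0, nat_lit 0, [(nat_lit 3, [(nat_lit 6, nat_lit 1000)])],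
 ⟨p027_k12, nat_lit 0, nat_lit 0, nat_lit 0, nat_lit 0, nat_lit 135471, [nat_lit 2101142858, nat_lit 11600000], [], [nat_lit 13712495052, nat_lit 13895498762, nat_lit 13745152982, nat_lit 13400358334, nat_lit 13494641108, nat_lit 13148268994, nat_lit 13848416671, nat_lit 13506067334], nat_lit 1271250, nat_lit 1271250, nat_lit 43600, nat_lit 230001, nat_lit 0, nat_lit 111251, [nat_lit 1412500, nat_lit 1271250], [nat_lit 26, nat_lit 40, nat_lit 20, nat_lit 80]⟩, C1.Rw.none,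
 ⟨nat_lit 6324, nat_lit 6364, ⟨.ofNat (nat_lit 130016), .ofNat (nat_lit 196132), .ofNat (nat_lit 135359), .ofNat (nat_lit 201476), .ofNat (nat_lit 131840), .ofNat (nat_lit 197651), .ofNat (nat_lit 137182), .ofNat (nat_lit 202993)⟩, ⟨.negSucc (nat_lit 105587), .negSucc (nat_lit 64264), .negSucc (nat_lit 84214), .negSucc (nat_lit 42891), .negSucc (nat_lit 103633), .negSucc (nat_lit 62500), .negSucc (nat_lit 82265), .negSucc (nat_lit 41133)⟩⟩, [⟨nat_lit 0, nat_lit 100, nat_lit 99, nat_lit 35, nat_lit 54116044⟩]⟩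
noncomputable def p027_l33 : Lf2 := ⟨nat_lit 0, nat_lit 3, [nat_lit 45, nat_lit 5, nat_lit 5, nat_lit 20], true, nat_lit 20, nat_lit 40, nat_lit 0, nat_lit 304, ⟨nat_lit 0, nat_lit 0, nat_lit 1000, nat_lit 5, nat_lit 63, nat_lit 0, nat_lit 0, nat_lit 0, nat_lit 1667, nat_lit 205, nat_lit 38400, nat_lit 263, nat_lit 65357801, nat_lit 0, nat_lit 0, nat_lit 575506, false, false⟩,
 nat_lit 0, nat_lit 11774, nat_lit 0, nat_lit 0, nat_lit 6081, nat_lit 0, nat_lit 532, nat_lit 0, nat_lit 0, nat_lit 0, nat_lit 0, nat_lit 0, nat_lit 0, nat_lit 0, nat_lit 53, nat_lit 1000000, nat_lit 0, nat_lit 0, [(nat_lit 3, [(nat_lit 6, nat_lit 1000)])],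
 ⟨p027_k11, nat_lit 0, nat_lit 0, nat_lit 0, nat_lit 0, nat_lit 137799, [nat_lit 2101142858, nat_lit 11600000], [], [nat_lit 12692486438, nat_lit 13028924512, nat_lit 10598155073, nat_lit 10930584846, nat_lit 11882640194, nat_lit 12215128623, nat_lit 9876022100, nat_lit 10204151968], nat_lit 1271250, nat_lit 1271250, nat_lit 21650, nat_lit 230001, nat_lit 111251, nat_lit 230001, [nat_lit 1412500, nat_lit 1271250], [nat_lit 26, nat_lit 40, nat_lit 20, nat_lit 80]⟩, C1.Rw.none,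
 ⟨nat_lit 6324, nat_lit 6423, ⟨.ofNat (nat_lit 113598), .ofNat (nat_lit 188497), .ofNat (nat_lit 124289), .ofNat (nat_lit 199188), .ofNat (nat_lit 118272), .ofNat (nat_lit 192309), .ofNat (nat_lit 128956), .ofNat (nat_lit 202993)⟩, ⟨.negSucc (nat_lit 66930), .negSucc (nat_lit 25319), .negSucc (nat_lit 45548), .negSucc (nat_lit 3938), .negSucc (nat_lit 62500), .negSucc (nat_lit 21368), .negSucc (nat_lit 41133), .negSucc (nat_lit 0)⟩⟩, [⟨nat_lit 0, nat_lit 100, nat_lit 99, nat_lit 35, nat_lit 401583142⟩]⟩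
noncomputable def p027_l34 : Lf2 := ⟨nat_lit 1, nat_lit 5, [nat_lit 4, nat_lit 5, nat_lit 5, nat_lit 20], false, nat_lit 0, nat_lit 40, nat_lit 0, nat_lit 304, zbN0,
 nat_lit 0, nat_lit 0, nat_lit 0, nat_lit 0, nat_lit 0, nat_lit 0, nat_lit 0, nat_lit 0, nat_lit 0, nat_lit 0, nat_lit 0, nat_lit 0, nat_lit 0, nat_lit 0, nat_lit 0, nat_lit 0, nat_lit 0, nat_lit 0, [],
 C1.Rw.none, C1.Rw.none,
 zbF0, []⟩
noncomputable def p027_l35 : Lf2 := ⟨nat_lit 0, nat_lit 2, [nat_lit 10, nat_lit 5, nat_lit 5, nat_lit 20], true, nat_lit 0, nat_lit 40, nat_lit 0, nat_lit 296, ⟨nat_lit 0, nat_lit 0, nat_lit 1000, nat_lit 5, nat_lit 68, nat_lit 0, nat_lit 0, nat_lit 0, nat_lit 3750, nat_lit 200, nat_lit 43350, nat_lit 266, nat_lit 65091665, nat_lit 0, nat_lit 0, nat_lit 647109, false, false⟩,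
 nat_lit 0, nat_lit 11626, nat_lit 0, nat_lit 0, nat_lit 5855, nat_lit 0, nat_lit 1806, nat_lit 0, nat_lit 0, nat_lit 0, nat_lit 0, nat_lit 0, nat_lit 0, nat_lit 33006951792057, nat_lit 53, nat_lit 1000000, nat_lit 0, nat_lit 0, [(nat_lit 3, [(nat_lit 6, nat_lit 1000)])],
 ⟨p027_k13, nat_lit 0, nat_lit 0, nat_lit 0, nat_lit 0, nat_lit 187172, [nat_lit 1891028572, nat_lit 716000001, nat_lit 11600000], [], [nat_lit 13162372026, nat_lit 12839163111, nat_lit 13417631486, nat_lit 11904430156, nat_lit 13411348528, nat_lit 11902636812, nat_lit 13738270846, nat_lit 12247341936], nat_lit 1271250, nat_lit 1271250, nat_lit 43600, nat_lit 230001, nat_lit 0, nat_lit 230001, [nat_lit 1271250, nat_lit 1271250, nat_lit 1271250], [nat_lit 181, nat_lit 40, nat_lit 20, nat_lit 40]⟩, C1.Rw.none,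
 ⟨nat_lit 6324, nat_lit 6520, ⟨.ofNat (nat_lit 127994), .ofNat (nat_lit 195344), .ofNat (nat_lit 138693), .ofNat (nat_lit 206043), .ofNat (nat_lit 137182), .ofNat (nat_lit 202993), .ofNat (nat_lit 147866), .ofNat (nat_lit 213677)⟩, ⟨.negSucc (nat_lit 113523), .negSucc (nat_lit 29335), .negSucc (nat_lit 92125), .negSucc (nat_lit 7937), .negSucc (nat_lit 103633), .negSucc (nat_lit 21368), .negSucc (nat_lit 82265), .negSucc (nat_lit 0)⟩⟩, [⟨nat_lit 0, nat_lit 100, nat_lit 100, nat_lit 40, nat_lit 54761494⟩]⟩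
noncomputable def p027_l36 : Lf2 := ⟨nat_lit 0, nat_lit 5, [nat_lit 4, nat_lit 5, nat_lit 5, nat_lit 20], true, nat_lit 0, nat_lit 40, nat_lit 0, nat_lit 296, ⟨nat_lit 0, nat_lit 0, nat_lit 1000, nat_lit 5, nat_lit 68, nat_lit 0, nat_lit 0, nat_lit 0, nat_lit 3750, nat_lit 200, nat_lit 43350, nat_lit 266, nat_lit 65091665, nat_lit 0, nat_lit 0, nat_lit 647109, false, false⟩,
 nat_lit 0, nat_lit 10578, nat_lit 0, nat_lit 0, nat_lit 5327, nat_lit 0, nat_lit 544, nat_lit 0, nat_lit 0, nat_lit 0, nat_lit 0, nat_lit 0, nat_lit 0, nat_lit 0, nat_lit 115, nat_lit 1000000, nat_lit 0, nat_lit 0, [(nat_lit 3, [(nat_lit 6, nat_lit 1000)])],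
 ⟨p027_k4, nat_lit 0, nat_lit 0, nat_lit 0, nat_lit 0, nat_lit 95399, [nat_lit 3341142858, nat_lit 1499600000, nat_lit 23600000], [], [nat_lit 13439872643, nat_lit 14065243136, nat_lit 12051630905, nat_lit 12490893928, nat_lit 12227728548, nat_lit 12747419534, nat_lit 11023945661, nat_lit 11450830922], nat_lit 1271250, nat_lit 1271250, nat_lit 43600, nat_lit 230001, nat_lit 0, nat_lit 230001, [nat_lit 1412500, nat_lit 1271250, nat_lit 1271250], [nat_lit 25, nat_lit 40, nat_lit 20, nat_lit 80]⟩, C1.Rw.none,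
 ⟨nat_lit 6324, nat_lit 6520, ⟨.ofNat (nat_lit 127994), .ofNat (nat_lit 195344), .ofNat (nat_lit 138693), .ofNat (nat_lit 206043), .ofNat (nat_lit 137182), .ofNat (nat_lit 202993), .ofNat (nat_lit 147866), .ofNat (nat_lit 213677)⟩, ⟨.negSucc (nat_lit 113523), .negSucc (nat_lit 29335), .negSucc (nat_lit 92125), .negSucc (nat_lit 7937), .negSucc (nat_lit 103633), .negSucc (nat_lit 21368), .negSucc (nat_lit 82265), .negSucc (nat_lit 0)⟩⟩, [⟨nat_lit 0, nat_lit 100, nat_lit 100, nat_lit 40, nat_lit 354702051⟩]⟩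
noncomputable def p027_l37 : Lf2 := ⟨nat_lit 0, nat_lit 5, [nat_lit 4, nat_lit 5, nat_lit 5, nat_lit 20], true, nat_lit 0, nat_lit 40, nat_lit 0, nat_lit 296, ⟨nat_lit 0, nat_lit 0, nat_lit 1000, nat_lit 5, nat_lit 68, nat_lit 0, nat_lit 0, nat_lit 0, nat_lit 3750, nat_lit 200, nat_lit 43350, nat_lit 266, nat_lit 65091665, nat_lit 0, nat_lit 0, nat_lit 647109, false, false⟩,
 nat_lit 0, nat_lit 302182, nat_lit 0, nat_lit 0, nat_lit 152193, nat_lit 0, nat_lit 60000, nat_lit 6119, nat_lit 0, nat_lit 0, nat_lit 0, nat_lit 0, nat_lit 0, nat_lit 400000000000000, nat_lit 0, nat_lit 1000000, nat_lit 0, nat_lit 0, [(nat_lit 3, [(nat_lit 6, nat_lit 1000)])],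
 ⟨p027_k7, nat_lit 0, nat_lit 0, nat_lit 0, nat_lit 0, nat_lit 196342, [nat_lit 123421142858, nat_lit 168135600000], [], [nat_lit 198931474012, nat_lit 174035728468, nat_lit 189695987124, nat_lit 151224336198, nat_lit 186971597492, nat_lit 148603316052, nat_lit 179492280851, nat_lit 141566317926], nat_lit 1271250, nat_lit 1271250, nat_lit 43600, nat_lit 230001, nat_lit 0, nat_lit 230001, [nat_lit 1412500, nat_lit 1271250], [nat_lit 51, nat_lit 40, nat_lit 20, nat_lit 80]⟩, C1.Rw.none,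
 ⟨nat_lit 6324, nat_lit 6520, ⟨.ofNat (nat_lit 127994), .ofNat (nat_lit 195344), .ofNat (nat_lit 138693), .ofNat (nat_lit 206043), .ofNat (nat_lit 137182), .ofNat (nat_lit 202993), .ofNat (nat_lit 147866), .ofNat (nat_lit 213677)⟩, ⟨.negSucc (nat_lit 113523), .negSucc (nat_lit 29335), .negSucc (nat_lit 92125), .negSucc (nat_lit 7937), .negSucc (nat_lit 103633), .negSucc (nat_lit 21368), .negSucc (nat_lit 82265), .negSucc (nat_lit 0)⟩⟩, [⟨nat_lit 0, nat_lit 100, nat_lit 100, nat_lit 40, nat_lit 1208153180⟩]⟩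
noncomputable def p027_l38 : Lf2 := ⟨nat_lit 0, nat_lit 5, [nat_lit 4, nat_lit 5, nat_lit 5, nat_lit 20], true, nat_lit 0, nat_lit 40, nat_lit 0, nat_lit 320, ⟨nat_lit 0, nat_lit 0, nat_lit 1000, nat_lit 5, nat_lit 57, nat_lit 0, nat_lit 0, nat_lit 0, nat_lit 3750, nat_lit 200, nat_lit 30817, nat_lit 258, nat_lit 65667342, nat_lit 0, nat_lit 0, nat_lit 488007, false, false⟩,
 nat_lit 0, nat_lit 307053, nat_lit 0, nat_lit 0, nat_lit 146851, nat_lit 0, nat_lit 60000, nat_lit 6563, nat_lit 0, nat_lit 0, nat_lit 0, nat_lit 0, nat_lit 0, nat_lit 400000000000000, nat_lit 0, nat_lit 1000000, nat_lit 0, nat_lit 0, [(nat_lit 3, [(nat_lit 6, nat_lit 1000)])],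
 ⟨p027_k5, nat_lit 0, nat_lit 0, nat_lit 368, nat_lit 0, nat_lit 208593, [nat_lit 132301142858, nat_lit 180567600000], [], [nat_lit 274095704824, nat_lit 214551841350, nat_lit 260533556906, nat_lit 186290977942, nat_lit 261618198392, nat_lit 187359759520, nat_lit 250193760481, nat_lit 177004250038], nat_lit 1271250, nat_lit 1271250, nat_lit 0, nat_lit 230001, nat_lit 0, nat_lit 230001, [nat_lit 1412500, nat_lit 1271250], [nat_lit 51, nat_lit 40, nat_lit 20, nat_lit 80, nat_lit 1, nat_lit 317, nat_lit 100, nat_lit 10]⟩, C1.Rw.none,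
 ⟨nat_lit 6324, nat_lit 6709, ⟨.ofNat (nat_lit 69221), .ofNat (nat_lit 155377), .ofNat (nat_lit 112098), .ofNat (nat_lit 198253), .ofNat (nat_lit 88677), .ofNat (nat_lit 170942), .ofNat (nat_lit 131413), .ofNat (nat_lit 213677)⟩, ⟨.negSucc (nat_lit 123724), .negSucc (nat_lit 37568), .negSucc (nat_lit 102285), .negSucc (nat_lit 16130), .negSucc (nat_lit 103634), .negSucc (nat_lit 21368), .negSucc (nat_lit 82265), .negSucc (nat_lit 0)⟩⟩, [⟨nat_lit 0, nat_lit 100, nat_lit 100, nat_lit 40, nat_lit 1396858179⟩]⟩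
noncomputable def p027_l39 : Lf2 := ⟨nat_lit 0, nat_lit 2, [nat_lit 10, nat_lit 5, nat_lit 5, nat_lit 20], true, nat_lit 0, nat_lit 40, nat_lit 0, nat_lit 320, ⟨nat_lit 0, nat_lit 0, nat_lit 1000, nat_lit 5, nat_lit 91, nat_lit 0, nat_lit 0, nat_lit 0, nat_lit 3750, nat_lit 200, nat_lit 77067, nat_lit 283, nat_lit 63725889, nat_lit 0, nat_lit 0, nat_lit 975823, false, false⟩,
 nat_lit 0, nat_lit 12006, nat_lit 0, nat_lit 0, nat_lit 5741, nat_lit 0, nat_lit 1922, nat_lit 0, nat_lit 0, nat_lit 0, nat_lit 0, nat_lit 0, nat_lit 0, nat_lit 28586244153411, nat_lit 53, nat_lit 1000000, nat_lit 0, nat_lit 0, [(nat_lit 3, [(nat_lit 6, nat_lit 1000)])],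
 ⟨p027_k14, nat_lit 0, nat_lit 0, nat_lit 275, nat_lit 0, nat_lit 198571, [nat_lit 2101142858, nat_lit 11600000], [], [nat_lit 10724431850, nat_lit 12032864604, nat_lit 10061597842, nat_lit 11324420204, nat_lit 9425643296, nat_lit 10700928688, nat_lit 9944237542, nat_lit 10077951604], nat_lit 1271250, nat_lit 1271250, nat_lit 230001, nat_lit 490000, nat_lit 0, nat_lit 230001, [nat_lit 1412500, nat_lit 1271250], [nat_lit 26, nat_lit 40, nat_lit 20, nat_lit 80, nat_lit 2, nat_lit 317, nat_lit 100, nat_lit 11]⟩, C1.Rw.none,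
 ⟨nat_lit 6324, nat_lit 6709, ⟨.ofNat (nat_lit 155377), .ofNat (nat_lit 241532), .ofNat (nat_lit 198253), .ofNat (nat_lit 284409), .ofNat (nat_lit 170942), .ofNat (nat_lit 253206), .ofNat (nat_lit 213677), .ofNat (nat_lit 295942)⟩, ⟨.negSucc (nat_lit 123724), .negSucc (nat_lit 37568), .negSucc (nat_lit 102285), .negSucc (nat_lit 16130), .negSucc (nat_lit 103634), .negSucc (nat_lit 21368), .negSucc (nat_lit 82265), .negSucc (nat_lit 0)⟩⟩, []⟩
noncomputable def p027_l40 : Lf2 := ⟨nat_lit 0, nat_lit 5, [nat_lit 4, nat_lit 5, nat_lit 5, nat_lit 20], true, nat_lit 0, nat_lit 40, nat_lit 0, nat_lit 320, ⟨nat_lit 0, nat_lit 0, nat_lit 1000, nat_lit 5, nat_lit 91, nat_lit 0, nat_lit 0, nat_lit 0, nat_lit 3750, nat_lit 200, nat_lit 77067, nat_lit 283, nat_lit 63725889, nat_lit 0, nat_lit 0, nat_lit 975823, false, false⟩,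
 nat_lit 0, nat_lit 10970, nat_lit 0, nat_lit 0, nat_lit 5246, nat_lit 0, nat_lit 531, nat_lit 0, nat_lit 0, nat_lit 0, nat_lit 0, nat_lit 0, nat_lit 0, nat_lit 0, nat_lit 115, nat_lit 1000000, nat_lit 0, nat_lit 0, [(nat_lit 3, [(nat_lit 6, nat_lit 1000)])],
 ⟨p027_k5, nat_lit 0, nat_lit 0, nat_lit 285, nat_lit 0, nat_lit 101352, [nat_lit 3341142858, nat_lit 23600000], [], [nat_lit 11807521764, nat_lit 12581100440, nat_lit 11208784972, nat_lit 12002487044, nat_lit 10751562698, nat_lit 11504551976, nat_lit 10761885472, nat_lit 10924615444], nat_lit 1271250, nat_lit 1271250, nat_lit 230001, nat_lit 490000, nat_lit 0, nat_lit 230001, [nat_lit 1412500, nat_lit 1271250], [nat_lit 51, nat_lit 40, nat_lit 20, nat_lit 80, nat_lit 1, nat_lit 317, nat_lit 100, nat_lit 10]⟩, C1.Rw.none,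
 ⟨nat_lit 6324, nat_lit 6709, ⟨.ofNat (nat_lit 155377), .ofNat (nat_lit 241532), .ofNat (nat_lit 198253), .ofNat (nat_lit 284409), .ofNat (nat_lit 170942), .ofNat (nat_lit 253206), .ofNat (nat_lit 213677), .ofNat (nat_lit 295942)⟩, ⟨.negSucc (nat_lit 123724), .negSucc (nat_lit 37568), .negSucc (nat_lit 102285), .negSucc (nat_lit 16130), .negSucc (nat_lit 103634), .negSucc (nat_lit 21368), .negSucc (nat_lit 82265), .negSucc (nat_lit 0)⟩⟩, []⟩
noncomputable def p027_l41 : Lf2 := ⟨nat_lit 0, nat_lit 5, [nat_lit 4, nat_lit 5, nat_lit 5, nat_lit 20], true, nat_lit 40, nat_lit 80, nat_lit 0, nat_lit 320, ⟨nat_lit 0, nat_lit 0, nat_lit 1000, nat_lit 5, nat_lit 70, nat_lit 0, nat_lit 12, nat_lit 0, nat_lit 600, nat_lit 221, nat_lit 46817, nat_lit 268, nat_lit 65000799, nat_lit 0, nat_lit 0, nat_lit 670882, false, false⟩,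
 nat_lit 0, nat_lit 11852, nat_lit 0, nat_lit 0, nat_lit 5668, nat_lit 0, nat_lit 669, nat_lit 0, nat_lit 0, nat_lit 0, nat_lit 0, nat_lit 0, nat_lit 0, nat_lit 26105154747715, nat_lit 115, nat_lit 1000000, nat_lit 0, nat_lit 0, [(nat_lit 3, [(nat_lit 6, nat_lit 1000)])],
 ⟨p027_k6, nat_lit 0, nat_lit 0, nat_lit 295, nat_lit 0, nat_lit 100096, [nat_lit 3341142858, nat_lit 1499600000, nat_lit 23600000], [], [nat_lit 11640323858, nat_lit 12274702140, nat_lit 10064819964, nat_lit 9592188248, nat_lit 10169456364, nat_lit 10796937152, nat_lit 11005059164, nat_lit 9529174312], nat_lit 1271250, nat_lit 1271250, nat_lit 0, nat_lit 490000, nat_lit 230001, nat_lit 490000, [nat_lit 1412500, nat_lit 1271250, nat_lit 1271250], [nat_lit 25, nat_lit 40, nat_lit 20, nat_lit 80, nat_lit 17, nat_lit 317, nat_lit 100, nat_lit 10]⟩, C1.Rw.none,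
 ⟨nat_lit 6519, nat_lit 6709, ⟨.ofNat (nat_lit 69221), .ofNat (nat_lit 241532), .ofNat (nat_lit 101379), .ofNat (nat_lit 273690), .ofNat (nat_lit 79059), .ofNat (nat_lit 247435), .ofNat (nat_lit 111156), .ofNat (nat_lit 279532)⟩, ⟨.negSucc (nat_lit 37568), .ofNat (nat_lit 48587), .negSucc (nat_lit 16130), .ofNat (nat_lit 70025), .negSucc (nat_lit 29335), .ofNat (nat_lit 54852), .negSucc (nat_lit 7937), .ofNat (nat_lit 76250)⟩⟩, [⟨nat_lit 0, nat_lit 100, nat_lit 100, nat_lit 30, nat_lit 201625800⟩]⟩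
noncomputable def p027_l42 : Lf2 := ⟨nat_lit 0, nat_lit 5, [nat_lit 4, nat_lit 5, nat_lit 5, nat_lit 20], true, nat_lit 40, nat_lit 80, nat_lit 0, nat_lit 320, ⟨nat_lit 0, nat_lit 0, nat_lit 1000, nat_lit 5, nat_lit 50, nat_lit 0, nat_lit 14, nat_lit 0, nat_lit 1067, nat_lit 223, nat_lit 24067, nat_lit 253, nat_lit 65951990, nat_lit 0, nat_lit 0, nat_lit 402687, false, false⟩,
 nat_lit 0, nat_lit 11943, nat_lit 0, nat_lit 0, nat_lit 6015, nat_lit 0, nat_lit 982, nat_lit 0, nat_lit 0, nat_lit 0, nat_lit 0, nat_lit 0, nat_lit 0, nat_lit 20547278637306, nat_lit 115, nat_lit 1000000, nat_lit 0, nat_lit 0, [(nat_lit 3, [(nat_lit 6, nat_lit 1000)])],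
 ⟨p027_k4, nat_lit 0, nat_lit 0, nat_lit 341, nat_lit 0, nat_lit 196342, [nat_lit 3341142858, nat_lit 1499600000, nat_lit 23600000], [], [nat_lit 12635681498, nat_lit 13633371970, nat_lit 10457775019, nat_lit 11117728496, nat_lit 10302922621, nat_lit 10949086236, nat_lit 8967490956, nat_lit 9610966236], nat_lit 1271250, nat_lit 1271250, nat_lit 0, nat_lit 111251, nat_lit 230001, nat_lit 490000, [nat_lit 1412500, nat_lit 1271250, nat_lit 1271250], [nat_lit 25, nat_lit 40, nat_lit 20, nat_lit 80, nat_lit 17, nat_lit 317, nat_lit 100, nat_lit 10]⟩, C1.Rw.none,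
 ⟨nat_lit 6324, nat_lit 6520, ⟨.ofNat (nat_lit 79059), .ofNat (nat_lit 121153), .ofNat (nat_lit 121855), .ofNat (nat_lit 163949), .ofNat (nat_lit 88677), .ofNat (nat_lit 129809), .ofNat (nat_lit 131413), .ofNat (nat_lit 172545)⟩, ⟨.negSucc (nat_lit 29335), .ofNat (nat_lit 54852), .negSucc (nat_lit 7937), .ofNat (nat_lit 76250), .negSucc (nat_lit 21368), .ofNat (nat_lit 60895), .negSucc (nat_lit 0), .ofNat (nat_lit 82263)⟩⟩, [⟨nat_lit 0, nat_lit 100, nat_lit 100, nat_lit 40, nat_lit 730266850⟩]⟩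
noncomputable def p027_l43 : Lf2 := ⟨nat_lit 0, nat_lit 5, [nat_lit 4, nat_lit 5, nat_lit 5, nat_lit 20], true, nat_lit 40, nat_lit 80, nat_lit 0, nat_lit 320, ⟨nat_lit 0, nat_lit 0, nat_lit 1000, nat_lit 5, nat_lit 67, nat_lit 0, nat_lit 14, nat_lit 0, nat_lit 1067, nat_lit 223, nat_lit 41667, nat_lit 265, nat_lit 65167906, nat_lit 0, nat_lit 0, nat_lit 626907, false, false⟩,
 nat_lit 0, nat_lit 11943, nat_lit 0, nat_lit 0, nat_lit 6015, nat_lit 0, nat_lit 731, nat_lit 0, nat_lit 0, nat_lit 0, nat_lit 0, nat_lit 0, nat_lit 0, nat_lit 31987311995636, nat_lit 115, nat_lit 1000000, nat_lit 0, nat_lit 0, [(nat_lit 3, [(nat_lit 6, nat_lit 1000)])],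
 ⟨p027_k7, nat_lit 0, nat_lit 0, nat_lit 305, nat_lit 0, nat_lit 196342, [nat_lit 3341142858, nat_lit 23600000], [], [nat_lit 10461160043, nat_lit 11117728496, nat_lit 9647939256, nat_lit 10300585096, nat_lit 8967490956, nat_lit 9610966236, nat_lit 8235626231, nat_lit 8871193956], nat_lit 1271250, nat_lit 1271250, nat_lit 111251, nat_lit 230001, nat_lit 230001, nat_lit 490000, [nat_lit 1412500, nat_lit 1271250], [nat_lit 51, nat_lit 40, nat_lit 20, nat_lit 80, nat_lit 1, nat_lit 317, nat_lit 100, nat_lit 10]⟩, C1.Rw.none,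
 ⟨nat_lit 6324, nat_lit 6520, ⟨.ofNat (nat_lit 121153), .ofNat (nat_lit 163247), .ofNat (nat_lit 163949), .ofNat (nat_lit 206043), .ofNat (nat_lit 129809), .ofNat (nat_lit 170942), .ofNat (nat_lit 172545), .ofNat (nat_lit 213677)⟩, ⟨.negSucc (nat_lit 29335), .ofNat (nat_lit 54852), .negSucc (nat_lit 7937), .ofNat (nat_lit 76250), .negSucc (nat_lit 21368), .ofNat (nat_lit 60895), .negSucc (nat_lit 0), .ofNat (nat_lit 82263)⟩⟩, []⟩
noncomputable def p027_l44 : Lf2 := ⟨nat_lit 0, nat_lit 5, [nat_lit 4, nat_lit 5, nat_lit 5, nat_lit 20], true, nat_lit 40, nat_lit 80, nat_lit 0, nat_lit 320, ⟨nat_lit 0, nat_lit 0, nat_lit 1000, nat_lit 5, nat_lit 92, nat_lit 0, nat_lit 14, nat_lit 0, nat_lit 1067, nat_lit 223, nat_lit 79350, nat_lit 284, nat_lit 63631260, nat_lit 0, nat_lit 0, nat_lit 996680, false, false⟩,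
 nat_lit 0, nat_lit 12809, nat_lit 0, nat_lit 0, nat_lit 6451, nat_lit 0, nat_lit 857, nat_lit 0, nat_lit 0, nat_lit 0, nat_lit 0, nat_lit 0, nat_lit 0, nat_lit 33129010477322, nat_lit 115, nat_lit 1000000, nat_lit 0, nat_lit 0, [(nat_lit 3, [(nat_lit 6, nat_lit 1000)])],
 ⟨p027_k7, nat_lit 0, nat_lit 0, nat_lit 285, nat_lit 0, nat_lit 196342, [nat_lit 3341142858, nat_lit 23600000], [], [nat_lit 8987022552, nat_lit 9663542008, nat_lit 8212267415, nat_lit 8863544884, nat_lit 7420437467, nat_lit 8079076132, nat_lit 8018138563, nat_lit 7375250284], nat_lit 1271250, nat_lit 1271250, nat_lit 230001, nat_lit 490000, nat_lit 230001, nat_lit 490000, [nat_lit 1412500, nat_lit 1271250], [nat_lit 51, nat_lit 40, nat_lit 20, nat_lit 80, nat_lit 1, nat_lit 317, nat_lit 100, nat_lit 9]⟩, C1.Rw.none,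
 ⟨nat_lit 6324, nat_lit 6520, ⟨.ofNat (nat_lit 163247), .ofNat (nat_lit 247435), .ofNat (nat_lit 206043), .ofNat (nat_lit 290231), .ofNat (nat_lit 170942), .ofNat (nat_lit 253206), .ofNat (nat_lit 213677), .ofNat (nat_lit 295942)⟩, ⟨.negSucc (nat_lit 29335), .ofNat (nat_lit 54852), .negSucc (nat_lit 7937), .ofNat (nat_lit 76250), .negSucc (nat_lit 21368), .ofNat (nat_lit 60895), .negSucc (nat_lit 0), .ofNat (nat_lit 82263)⟩⟩, []⟩
noncomputable def p027_l45 : Lf2 := ⟨nat_lit 0, nat_lit 5, [nat_lit 4, nat_lit 5, nat_lit 5, nat_lit 20], false, nat_lit 0, nat_lit 80, nat_lit 0, nat_lit 320, ⟨nat_lit 0, nat_lit 0, nat_lit 1000, nat_lit 5, nat_lit 124, nat_lit 0, nat_lit 13, nat_lit 0, nat_lit 600, nat_lit 209, nat_lit 144150, nat_lit 308, nat_lit 61095455, nat_lit 0, nat_lit 0, nat_lit 1490917, false, false⟩,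
 nat_lit 0, nat_lit 13254, nat_lit 0, nat_lit 0, nat_lit 6338, nat_lit 0, nat_lit 1226, nat_lit 0, nat_lit 0, nat_lit 0, nat_lit 0, nat_lit 0, nat_lit 0, nat_lit 32270175814622, nat_lit 115, nat_lit 1000000, nat_lit 0, nat_lit 0, [(nat_lit 3, [(nat_lit 6, nat_lit 1000)])],
 ⟨p027_k5, nat_lit 0, nat_lit 0, nat_lit 297, nat_lit 0, nat_lit 208593, [nat_lit 3341142858, nat_lit 23600000], [], [nat_lit 9179521984, nat_lit 10506630500, nat_lit 10667984192, nat_lit 10611399284, nat_lit 9886551784, nat_lit 7607016900, nat_lit 11846179216, nat_lit 8594417612], nat_lit 1271250, nat_lit 1271250, nat_lit 490000, nat_lit 780000, nat_lit 0, nat_lit 490000, [nat_lit 1412500, nat_lit 1271250], [nat_lit 51, nat_lit 40, nat_lit 20, nat_lit 80, nat_lit 1, nat_lit 345, nat_lit 125, nat_lit 10]⟩, ⟨p027_k15, nat_lit 0, nat_lit 0, nat_lit 381, nat_lit 0, nat_lit 237491, [nat_lit 0, nat_lit 0], [], [nat_lit 0, nat_lit 0, nat_lit 0, nat_lit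 0, nat_lit 0, nat_lit 0, nat_lit 0, nat_lit 0], nat_lit 1271250, nat_lit 1271250, nat_lit 490000, nat_lit 780000, nat_lit 0, nat_lit 2260000, [nat_lit 1412500, nat_lit 1271250], [nat_lit 107, nat_lit 40, nat_lit 20, nat_lit 80, nat_lit 12, nat_lit 401, nat_lit 175, nat_lit 11]⟩,
 ⟨nat_lit 6324, nat_lit 6709, ⟨.ofNat (nat_lit 241532), .ofNat (nat_lit 327688), .ofNat (nat_lit 284409), .ofNat (nat_lit 370564), .ofNat (nat_lit 253206), .ofNat (nat_lit 335470), .ofNat (nat_lit 295942), .ofNat (nat_lit 378206)⟩, ⟨.negSucc (nat_lit 123724), .ofNat (nat_lit 48587), .negSucc (nat_lit 102285), .ofNat (nat_lit 70025), .negSucc (nat_lit 103634), .ofNat (nat_lit 60895), .negSucc (nat_lit 82265), .ofNat (nat_lit 82263)⟩⟩, []⟩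
noncomputable def b_VL_500_500_5_18 : St := ⟨true, nat_lit 1, nat_lit 1, nat_lit 1, nat_lit 40, nat_lit 220, nat_lit 240, nat_lit 200, nat_lit 240, nat_lit 0, nat_lit 120, nat_lit 20, nat_lit 40, nat_lit 0, nat_lit 80, nat_lit 0, nat_lit 320, nat_lit 0, nat_lit 20, nat_lit 0, nat_lit 0, nat_lit 0, nat_lit 0⟩
theorem d_VL_500_500_5_18 (h : EB TB.env) : Dead b_VL_500_500_5_18 := chkB_sound0 h (T :=
(.spl (nat_lit 2) (nat_lit 80)
(.spl (nat_lit 4) (nat_lit 40)
(.spl (nat_lit 2) (nat_lit 40)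
(.spl (nat_lit 7) (nat_lit 600)
(.spl (nat_lit 7) (nat_lit 300)
(.leaf p027_l26)
(.spl (nat_lit 0) (nat_lit 230)
(.ord (.leaf p027_l27))
(.spl (nat_lit 1) (nat_lit 220)
(.leaf p027_l28)
(.trZ (nat_lit 0) (nat_lit 100) (nat_lit 99) (nat_lit 25) (nat_lit 4) (.trX (nat_lit 19) (nat_lit 100) (nat_lit 86) (nat_lit 60) (nat_lit 304) (.spl (nat_lit 1) (nat_lit 230)
(.spl (nat_lit 6) (nat_lit 12)
(.spl (nat_lit 0) (nat_lit 235)
(.leaf p027_l29)
(.spl (nat_lit 4) (nat_lit 20)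
(.spl (nat_lit 1) (nat_lit 225)
(.leaf p027_l30)
(.trZ (nat_lit 0) (nat_lit 100) (nat_lit 99) (nat_lit 30) (nat_lit 8) (.trX (nat_lit 19) (nat_lit 100) (nat_lit 88) (nat_lit 60) (nat_lit 300) (.spl (nat_lit 0) (nat_lit 238)
(.leaf p027_l31)
(.leaf p027_l32)))))
(.leaf p027_l33)))
(.leaf p027_l34))
(.trZ (nat_lit 0) (nat_lit 100) (nat_lit 100) (nat_lit 30) (nat_lit 8) (.trX (nat_lit 19) (nat_lit 100) (nat_lit 89) (nat_lit 61) (nat_lit 296) (.spl (nat_lit 7) (nat_lit 460)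
(.spl (nat_lit 6) (nat_lit 8)
(.leaf p027_l35)
(.leaf p027_l36))
(.leaf p027_l37))))))))))
(.leaf p027_l38))
(.spl (nat_lit 6) (nat_lit 8)
(.leaf p027_l39)
(.leaf p027_l40)))
(.spl (nat_lit 0) (nat_lit 230)
(.ord (.leaf p027_l41))
(.spl (nat_lit 2) (nat_lit 40)
(.spl (nat_lit 2) (nat_lit 20)
(.leaf p027_l42)
(.leaf p027_l43))
(.leaf p027_l44))))
(.leaf p027_l45))) (by decide +kernel)
noncomputable def p027_l46 : Lf2 := ⟨nat_lit 0, nat_lit 5, [nat_lit 4, nat_lit 5, nat_lit 5, nat_lit 20], true, nat_lit 80, nat_lit 120, nat_lit 0, nat_lit 320, ⟨nat_lit 0, nat_lit 0, nat_lit 1000, nat_lit 5, nat_lit 74, nat_lit 1000, nat_lit 43, nat_lit 1000, nat_lit 17067, nat_lit 247, nat_lit 50417, nat_lit 270, nat_lit 63494485, nat_lit 0, nat_lit 0, nat_lit 1240426, false, false⟩,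
 nat_lit 0, nat_lit 13307, nat_lit 0, nat_lit 0, nat_lit 6364, nat_lit 0, nat_lit 1225, nat_lit 0, nat_lit 0, nat_lit 0, nat_lit 0, nat_lit 0, nat_lit 0, nat_lit 29482226207788, nat_lit 115, nat_lit 1000000, nat_lit 0, nat_lit 0, [(nat_lit 3, [(nat_lit 6, nat_lit 1000)])],
 ⟨p027_k5, nat_lit 0, nat_lit 0, nat_lit 297, nat_lit 0, nat_lit 208593, [nat_lit 3341142858, nat_lit 23600000], [], [nat_lit 9179669452, nat_lit 10517439792, nat_lit 9843147020, nat_lit 7553690068, nat_lit 10682487964, nat_lit 10938966332, nat_lit 11854465664, nat_lit 8588645420], nat_lit 1271250, nat_lit 1271250, nat_lit 0, nat_lit 490000, nat_lit 490000, nat_lit 780000, [nat_lit 1412500, nat_lit 1271250], [nat_lit 51, nat_lit 40, nat_lit 20, nat_lit 80, nat_lit 1, nat_lit 345, nat_lit 125, nat_lit 10]⟩, C1.Rw.none,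
 ⟨nat_lit 6324, nat_lit 6709, ⟨.ofNat (nat_lit 69221), .ofNat (nat_lit 241532), .ofNat (nat_lit 112098), .ofNat (nat_lit 284409), .ofNat (nat_lit 88677), .ofNat (nat_lit 253206), .ofNat (nat_lit 131413), .ofNat (nat_lit 295942)⟩, ⟨.ofNat (nat_lit 48587), .ofNat (nat_lit 134742), .ofNat (nat_lit 70025), .ofNat (nat_lit 156180), .ofNat (nat_lit 60895), .ofNat (nat_lit 143159), .ofNat (nat_lit 82263), .ofNat (nat_lit 164527)⟩⟩, [⟨nat_lit 0, nat_lit 100, nat_lit 100, nat_lit 40, nat_lit 232782269⟩]⟩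
noncomputable def p027_l47 : Lf2 := ⟨nat_lit 0, nat_lit 5, [nat_lit 4, nat_lit 5, nat_lit 5, nat_lit 20], true, nat_lit 120, nat_lit 160, nat_lit 0, nat_lit 320, ⟨nat_lit 0, nat_lit 0, nat_lit 1000, nat_lit 5, nat_lit 70, nat_lit 1000, nat_lit 77, nat_lit 1000, nat_lit 56067, nat_lit 273, nat_lit 45067, nat_lit 267, nat_lit 61854889, nat_lit 0, nat_lit 0, nat_lit 1705218, false, false⟩,
 nat_lit 0, nat_lit 15128, nat_lit 0, nat_lit 0, nat_lit 7235, nat_lit 0, nat_lit 1536, nat_lit 0, nat_lit 0, nat_lit 0, nat_lit 0, nat_lit 0, nat_lit 0, nat_lit 0, nat_lit 115, nat_lit 1000000, nat_lit 0, nat_lit 0, [(nat_lit 3, [(nat_lit 6, nat_lit 1000)])],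
 ⟨p027_k5, nat_lit 0, nat_lit 0, nat_lit 228, nat_lit 0, nat_lit 106778, [nat_lit 3341142858, nat_lit 23600000], [], [nat_lit 9452794486, nat_lit 11268399720, nat_lit 10516920611, nat_lit 6804128426, nat_lit 12341920366, nat_lit 11593067860, nat_lit 13632986736, nat_lit 9975231196], nat_lit 1271250, nat_lit 1271250, nat_lit 0, nat_lit 490000, nat_lit 780000, nat_lit 1100001, [nat_lit 1412500, nat_lit 1271250], [nat_lit 51, nat_lit 40, nat_lit 20, nat_lit 80, nat_lit 1, nat_lit 345, nat_lit 125, nat_lit 10]⟩, C1.Rw.none,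
 ⟨nat_lit 6324, nat_lit 6709, ⟨.ofNat (nat_lit 69221), .ofNat (nat_lit 241532), .ofNat (nat_lit 90659), .ofNat (nat_lit 262970), .ofNat (nat_lit 88677), .ofNat (nat_lit 253206), .ofNat (nat_lit 110045), .ofNat (nat_lit 274574)⟩, ⟨.ofNat (nat_lit 134742), .ofNat (nat_lit 220898), .ofNat (nat_lit 156180), .ofNat (nat_lit 242336), .ofNat (nat_lit 143159), .ofNat (nat_lit 225423), .ofNat (nat_lit 164527), .ofNat (nat_lit 246791)⟩⟩, [⟨nat_lit 0, nat_lit 100, nat_lit 98, nat_lit 30, nat_lit 34536386⟩]⟩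
noncomputable def p027_l48 : Lf2 := ⟨nat_lit 0, nat_lit 2, [nat_lit 10, nat_lit 5, nat_lit 5, nat_lit 20], true, nat_lit 120, nat_lit 160, nat_lit 0, nat_lit 304, ⟨nat_lit 0, nat_lit 0, nat_lit 1000, nat_lit 5, nat_lit 76, nat_lit 1000, nat_lit 76, nat_lit 1000, nat_lit 54150, nat_lit 272, nat_lit 54150, nat_lit 272, nat_lit 61473940, nat_lit 0, nat_lit 0, nat_lit 1802068, false, false⟩,
 nat_lit 0, nat_lit 13378, nat_lit 0, nat_lit 0, nat_lit 6397, nat_lit 0, nat_lit 0, nat_lit 0, nat_lit 0, nat_lit 0, nat_lit 0, nat_lit 0, nat_lit 0, nat_lit 32228020866806, nat_lit 53, nat_lit 1000000, nat_lit 0, nat_lit 0, [(nat_lit 3, [(nat_lit 6, nat_lit 1000)])],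
 ⟨p027_k14, nat_lit 0, nat_lit 0, nat_lit 225, nat_lit 0, nat_lit 95287, [nat_lit 2101142858, nat_lit 11600000], [], [nat_lit 8529118900, nat_lit 9485562335, nat_lit 5335074111, nat_lit 6112388847, nat_lit 9205201439, nat_lit 9970083627, nat_lit 6111563500, nat_lit 6841357115], nat_lit 1271250, nat_lit 1271250, nat_lit 21650, nat_lit 490000, nat_lit 780000, nat_lit 1100001, [nat_lit 1412500, nat_lit 1271250], [nat_lit 26, nat_lit 40, nat_lit 20, nat_lit 80, nat_lit 2, nat_lit 345, nat_lit 125, nat_lit 12]⟩, C1.Rw.none,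
 ⟨nat_lit 6519, nat_lit 6709, ⟨.ofNat (nat_lit 99275), .ofNat (nat_lit 262970), .ofNat (nat_lit 109994), .ofNat (nat_lit 273690), .ofNat (nat_lit 108876), .ofNat (nat_lit 268833), .ofNat (nat_lit 119575), .ofNat (nat_lit 279532)⟩, ⟨.ofNat (nat_lit 134742), .ofNat (nat_lit 220898), .ofNat (nat_lit 156180), .ofNat (nat_lit 242336), .ofNat (nat_lit 139040), .ofNat (nat_lit 223228), .ofNat (nat_lit 160438), .ofNat (nat_lit 244626)⟩⟩, [⟨nat_lit 0, nat_lit 100, nat_lit 100, nat_lit 30, nat_lit 318821721⟩]⟩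
noncomputable def p027_l49 : Lf2 := ⟨nat_lit 0, nat_lit 2, [nat_lit 10, nat_lit 5, nat_lit 5, nat_lit 20], true, nat_lit 120, nat_lit 160, nat_lit 0, nat_lit 304, ⟨nat_lit 0, nat_lit 0, nat_lit 1000, nat_lit 5, nat_lit 80, nat_lit 1000, nat_lit 77, nat_lit 1000, nat_lit 56067, nat_lit 273, nat_lit 60000, nat_lit 275, nat_lit 61185025, nat_lit 0, nat_lit 0, nat_lit 1872846, false, false⟩,
 nat_lit 0, nat_lit 13093, nat_lit 0, nat_lit 0, nat_lit 6594, nat_lit 0, nat_lit 216, nat_lit 0, nat_lit 0, nat_lit 0, nat_lit 0, nat_lit 0, nat_lit 0, nat_lit 35084774091935, nat_lit 53, nat_lit 1000000, nat_lit 0, nat_lit 0, [(nat_lit 3, [(nat_lit 6, nat_lit 1000)])],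
 ⟨p027_k0, nat_lit 0, nat_lit 0, nat_lit 223, nat_lit 0, nat_lit 138079, [nat_lit 2101142858, nat_lit 11600000], [], [nat_lit 9676985062, nat_lit 10037685236, nat_lit 9809342987, nat_lit 8963380594, nat_lit 11363376063, nat_lit 10506154744, nat_lit 12787819616, nat_lit 11954397362], nat_lit 1271250, nat_lit 1271250, nat_lit 21650, nat_lit 490000, nat_lit 780000, nat_lit 1100001, [nat_lit 1412500, nat_lit 1271250], [nat_lit 26, nat_lit 40, nat_lit 20, nat_lit 80, nat_lit 2, nat_lit 345, nat_lit 125, nat_lit 12]⟩, C1.Rw.none,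
 ⟨nat_lit 6422, nat_lit 6520, ⟨.ofNat (nat_lit 108876), .ofNat (nat_lit 268833), .ofNat (nat_lit 124924), .ofNat (nat_lit 284881), .ofNat (nat_lit 113598), .ofNat (nat_lit 271718), .ofNat (nat_lit 129634), .ofNat (nat_lit 287754)⟩, ⟨.ofNat (nat_lit 139040), .ofNat (nat_lit 223228), .ofNat (nat_lit 160438), .ofNat (nat_lit 244626), .ofNat (nat_lit 141121), .ofNat (nat_lit 224342), .ofNat (nat_lit 162503), .ofNat (nat_lit 245724)⟩⟩, [⟨nat_lit 0, nat_lit 100, nat_lit 100, nat_lit 35, nat_lit 17820935⟩]⟩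
noncomputable def p027_l50 : Lf2 := ⟨nat_lit 0, nat_lit 2, [nat_lit 10, nat_lit 5, nat_lit 5, nat_lit 20], true, nat_lit 120, nat_lit 160, nat_lit 0, nat_lit 304, ⟨nat_lit 0, nat_lit 0, nat_lit 1000, nat_lit 5, nat_lit 82, nat_lit 1000, nat_lit 78, nat_lit 1000, nat_lit 56067, nat_lit 273, nat_lit 64067, nat_lit 277, nat_lit 60967803, nat_lit 0, nat_lit 0, nat_lit 1925037, false, false⟩,
 nat_lit 0, nat_lit 12531, nat_lit 0, nat_lit 0, nat_lit 6472, nat_lit 0, nat_lit 149, nat_lit 0, nat_lit 0, nat_lit 0, nat_lit 0, nat_lit 0, nat_lit 0, nat_lit 30933324043419, nat_lit 53, nat_lit 1000000, nat_lit 0, nat_lit 0, [(nat_lit 3, [(nat_lit 6, nat_lit 1000)])],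
 ⟨p027_k1, nat_lit 0, nat_lit 0, nat_lit 224, nat_lit 0, nat_lit 181888, [nat_lit 2101142858, nat_lit 11600000], [], [nat_lit 10181053412, nat_lit 10510790644, nat_lit 9197684186, nat_lit 8367373508, nat_lit 10700935625, nat_lit 10960917243, nat_lit 12157044364, nat_lit 11339041812], nat_lit 1271250, nat_lit 1271250, nat_lit 21650, nat_lit 490000, nat_lit 780000, nat_lit 1100001, [nat_lit 1412500, nat_lit 1271250], [nat_lit 26, nat_lit 40, nat_lit 20, nat_lit 80, nat_lit 2, nat_lit 345, nat_lit 125, nat_lit 12]⟩, C1.Rw.none,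
 ⟨nat_lit 6324, nat_lit 6423, ⟨.ofNat (nat_lit 113598), .ofNat (nat_lit 271718), .ofNat (nat_lit 134980), .ofNat (nat_lit 293099), .ofNat (nat_lit 118272), .ofNat (nat_lit 274574), .ofNat (nat_lit 139640), .ofNat (nat_lit 295942)⟩, ⟨.ofNat (nat_lit 141121), .ofNat (nat_lit 224342), .ofNat (nat_lit 162503), .ofNat (nat_lit 245724), .ofNat (nat_lit 143159), .ofNat (nat_lit 225423), .ofNat (nat_lit 164527), .ofNat (nat_lit 246791)⟩⟩, [⟨nat_lit 0, nat_lit 100, nat_lit 100, nat_lit 40, nat_lit 87129089⟩]⟩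
noncomputable def p027_l51 : Lf2 := ⟨nat_lit 0, nat_lit 5, [nat_lit 4, nat_lit 5, nat_lit 5, nat_lit 20], true, nat_lit 120, nat_lit 160, nat_lit 0, nat_lit 304, ⟨nat_lit 0, nat_lit 0, nat_lit 1000, nat_lit 5, nat_lit 80, nat_lit 1000, nat_lit 77, nat_lit 1000, nat_lit 56067, nat_lit 273, nat_lit 60000, nat_lit 275, nat_lit 61189267, nat_lit 0, nat_lit 0, nat_lit 1871719, false, false⟩,
 nat_lit 0, nat_lit 13536, nat_lit 0, nat_lit 0, nat_lit 6473, nat_lit 0, nat_lit 1119, nat_lit 0, nat_lit 0, nat_lit 0, nat_lit 0, nat_lit 0, nat_lit 0, nat_lit 31934173886298, nat_lit 115, nat_lit 1000000, nat_lit 0, nat_lit 0, [(nat_lit 3, [(nat_lit 6, nat_lit 1000)])],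
 ⟨p027_k5, nat_lit 0, nat_lit 0, nat_lit 225, nat_lit 0, nat_lit 101352, [nat_lit 3341142858, nat_lit 23600000], [], [nat_lit 10493783152, nat_lit 10511924449, nat_lit 11687080577, nat_lit 8365324694, nat_lit 13223812944, nat_lit 10959338074, nat_lit 14609770152, nat_lit 11337254380], nat_lit 1271250, nat_lit 1271250, nat_lit 21650, nat_lit 490000, nat_lit 780000, nat_lit 1100001, [nat_lit 1412500, nat_lit 1271250], [nat_lit 51, nat_lit 40, nat_lit 20, nat_lit 80, nat_lit 1, nat_lit 345, nat_lit 125, nat_lit 10]⟩, C1.Rw.none,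
 ⟨nat_lit 6324, nat_lit 6709, ⟨.ofNat (nat_lit 99275), .ofNat (nat_lit 262970), .ofNat (nat_lit 120713), .ofNat (nat_lit 284409), .ofNat (nat_lit 118272), .ofNat (nat_lit 274574), .ofNat (nat_lit 139640), .ofNat (nat_lit 295942)⟩, ⟨.ofNat (nat_lit 134742), .ofNat (nat_lit 220898), .ofNat (nat_lit 156180), .ofNat (nat_lit 242336), .ofNat (nat_lit 143159), .ofNat (nat_lit 225423), .ofNat (nat_lit 164527), .ofNat (nat_lit 246791)⟩⟩, [⟨nat_lit 0, nat_lit 100, nat_lit 100, nat_lit 40, nat_lit 85527766⟩]⟩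
noncomputable def p027_l52 : Lf2 := ⟨nat_lit 0, nat_lit 5, [nat_lit 4, nat_lit 5, nat_lit 5, nat_lit 20], false, nat_lit 80, nat_lit 160, nat_lit 0, nat_lit 320, ⟨nat_lit 0, nat_lit 0, nat_lit 1000, nat_lit 5, nat_lit 120, nat_lit 1000, nat_lit 60, nat_lit 1000, nat_lit 33750, nat_lit 260, nat_lit 135000, nat_lit 305, nat_lit 59160195, nat_lit 0, nat_lit 0, nat_lit 2244937, false, false⟩,
 nat_lit 1000000, nat_lit 1000000, nat_lit 0, nat_lit 637949, nat_lit 956521, nat_lit 0, nat_lit 60000, nat_lit 0, nat_lit 0, nat_lit 60000, nat_lit 0, nat_lit 0, nat_lit 0, nat_lit 0, nat_lit 115, nat_lit 1000000, nat_lit 2181159475788, nat_lit 0, [(nat_lit 3, [(nat_lit 6, nat_lit 1000)])],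
 ⟨p027_k6, nat_lit 0, nat_lit 0, nat_lit 208, nat_lit 0, nat_lit 106778, [nat_lit 3341142858, nat_lit 1499600000, nat_lit 23600000], [], [nat_lit 2151193639810, nat_lit 1653058546472, nat_lit 1162307795254, nat_lit 671557044036, nat_lit 187974461192, nat_lit 186901382826, nat_lit 0, nat_lit 58032488974], nat_lit 1271250, nat_lit 1271250, nat_lit 490000, nat_lit 780000, nat_lit 490000, nat_lit 1100001, [nat_lit 1412500, nat_lit 1271250, nat_lit 1271250], [nat_lit 25, nat_lit 40, nat_lit 20, nat_lit 80, nat_lit 17, nat_lit 373, nat_lit 150, nat_lit 11]⟩, ⟨p027_k9, nat_lit 0, nat_lit 0, nat_lit 344, nat_lit 0, nat_lit 121571, [nat_lit 0, nat_lit 0, nat_lit 0], [], [nat_lit 0, nat_lit 0, nat_lit 0, nat_lit 0, nat_lit 0, nat_lit 0, nat_lit 0, nat_lit 0], nat_lit 1271250, nat_lit 1271250, nat_lit 490000, nat_lit 780000, nat_lit 0, nat_lit 2260000, [nat_lit 1412500, nat_lit 1271250, nat_lit 1271250], [nat_lit 53, nat_lit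 40, nat_lit 20, nat_lit 80, nat_lit 14, nat_lit 401, nat_lit 175, nat_lit 11]⟩,
 ⟨nat_lit 6324, nat_lit 6709, ⟨.ofNat (nat_lit 241532), .ofNat (nat_lit 327688), .ofNat (nat_lit 262970), .ofNat (nat_lit 349126), .ofNat (nat_lit 253206), .ofNat (nat_lit 335470), .ofNat (nat_lit 274574), .ofNat (nat_lit 356838)⟩, ⟨.ofNat (nat_lit 48587), .ofNat (nat_lit 220898), .ofNat (nat_lit 70025), .ofNat (nat_lit 242336), .ofNat (nat_lit 60895), .ofNat (nat_lit 225423), .ofNat (nat_lit 82263), .ofNat (nat_lit 246791)⟩⟩, []⟩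
noncomputable def p027_l53 : Lf2 := ⟨nat_lit 2, nat_lit 5, [nat_lit 4, nat_lit 5, nat_lit 5, nat_lit 20], false, nat_lit 80, nat_lit 120, nat_lit 0, nat_lit 304, zbN0,
 nat_lit 0, nat_lit 0, nat_lit 0, nat_lit 0, nat_lit 0, nat_lit 0, nat_lit 0, nat_lit 0, nat_lit 0, nat_lit 0, nat_lit 0, nat_lit 0, nat_lit 0, nat_lit 0, nat_lit 0, nat_lit 0, nat_lit 0, nat_lit 0, [],
 ⟨p027_k6, nat_lit 0, nat_lit 0, nat_lit 207, nat_lit 0, nat_lit 100096, [], [], [], nat_lit 1271250, nat_lit 1271250, nat_lit 490000, nat_lit 780000, nat_lit 490000, nat_lit 780000, [nat_lit 1412500, nat_lit 1271250, nat_lit 1271250], [nat_lit 25, nat_lit 40, nat_lit 20, nat_lit 80, nat_lit 17, nat_lit 345, nat_lit 125, nat_lit 10]⟩, C1.Rw.none,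
 zbF0, []⟩
noncomputable def p027_l54 : Lf2 := ⟨nat_lit 0, nat_lit 5, [nat_lit 4, nat_lit 5, nat_lit 5, nat_lit 20], false, nat_lit 80, nat_lit 120, nat_lit 0, nat_lit 304, ⟨nat_lit 1000, nat_lit 0, nat_lit 0, nat_lit 0, nat_lit 0, nat_lit 0, nat_lit 0, nat_lit 0, nat_lit 0, nat_lit 0, nat_lit 0, nat_lit 0, nat_lit 0, nat_lit 0, nat_lit 0, nat_lit 0, false, false⟩,
 nat_lit 13595, nat_lit 58339, nat_lit 0, nat_lit 0, nat_lit 36229, nat_lit 6501, nat_lit 3500, nat_lit 0, nat_lit 0, nat_lit 11620, nat_lit 0, nat_lit 0, nat_lit 0, nat_lit 0, nat_lit 0, nat_lit 0, nat_lit 20638660391, nat_lit 0, [],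
 ⟨p027_k4, nat_lit 0, nat_lit 0, nat_lit 210, nat_lit 0, nat_lit 196342, [nat_lit 6250000000, nat_lit 7968000001, nat_lit 9842000000], [], [nat_lit 6781983442, nat_lit 8919729023, nat_lit 2182663942, nat_lit 4586987807, nat_lit 4216764768, nat_lit 7669776211, nat_lit 0, nat_lit 3569613615], nat_lit 1271250, nat_lit 1271250, nat_lit 490000, nat_lit 780000, nat_lit 490000, nat_lit 780000, [nat_lit 1412500, nat_lit 1271250, nat_lit 1271250], [nat_lit 25, nat_lit 40, nat_lit 20, nat_lit 80, nat_lit 17, nat_lit 345, nat_lit 125, nat_lit 10]⟩, ⟨p027_k6, nat_lit 0, nat_lit 0, nat_lit 301, nat_lit 0, nat_lit 208593, [nat_lit 6250000000, nat_lit 7968000000, nat_lit 9842000000], [], [nat_lit 45897129778, nat_lit 42406495840, nat_lit 38969170102, nat_lit 35531844364, nat_lit 34252417565, nat_lit 31368324327, nat_lit 37221567853, nat_lit 34373651380], nat_lit 1271250, nat_lit 1271250, nat_lit 490000, nat_lit 780000, nat_lit 0,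 nat_lit 2147000, [nat_lit 1412500, nat_lit 1271250, nat_lit 1271250], [nat_lit 25, nat_lit 40, nat_lit 20, nat_lit 80, nat_lit 17, nat_lit 401, nat_lit 175, nat_lit 12]⟩,
 zbF0, []⟩
noncomputable def p027_l55 : Lf2 := ⟨nat_lit 0, nat_lit 5, [nat_lit 4, nat_lit 5, nat_lit 5, nat_lit 20], false, nat_lit 120, nat_lit 160, nat_lit 0, nat_lit 304, ⟨nat_lit 1000, nat_lit 0, nat_lit 0, nat_lit 0, nat_lit 0, nat_lit 0, nat_lit 0, nat_lit 0, nat_lit 0, nat_lit 0, nat_lit 0, nat_lit 0, nat_lit 0, nat_lit 0, nat_lit 0, nat_lit 0, false, false⟩,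
 nat_lit 30104, nat_lit 0, nat_lit 0, nat_lit 0, nat_lit 14397, nat_lit 6077, nat_lit 0, nat_lit 0, nat_lit 0, nat_lit 3590, nat_lit 0, nat_lit 0, nat_lit 0, nat_lit 0, nat_lit 0, nat_lit 0, nat_lit 2408672537, nat_lit 0, [],
 ⟨p027_k5, nat_lit 0, nat_lit 0, nat_lit 196, nat_lit 0, nat_lit 208593, [nat_lit 6250000000, nat_lit 9842000000], [], [nat_lit 564195790, nat_lit 3246781797, nat_lit 0, nat_lit 2478906893, nat_lit 981781179, nat_lit 3430088409, nat_lit 1897761991, nat_lit 2667902953], nat_lit 1271250, nat_lit 1271250, nat_lit 490000, nat_lit 780000, nat_lit 780000, nat_lit 1100001, [nat_lit 1412500, nat_lit 1271250], [nat_lit 51, nat_lit 40, nat_lit 20, nat_lit 80, nat_lit 1, nat_lit 373, nat_lit 150, nat_lit 11]⟩, ⟨p027_k5, nat_lit 0, nat_lit 0, nat_lit 297, nat_lit 0, nat_lit 208593, [nat_lit 6250000000, nat_lit 9842000000], [], [nat_lit 45023359906, nat_lit 41760387680, nat_lit 38547246854, nat_lit 35334106028,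 nat_lit 33639952729, nat_lit 30722188348, nat_lit 36050409726, nat_lit 33170905924], nat_lit 1271250, nat_lit 1271250, nat_lit 490000, nat_lit 780000, nat_lit 0, nat_lit 2147000, [nat_lit 1412500, nat_lit 1271250], [nat_lit 51, nat_lit 40, nat_lit 20, nat_lit 80, nat_lit 1, nat_lit 401, nat_lit 175, nat_lit 12]⟩,
 zbF0, []⟩
noncomputable def b_VL_500_500_5_19 : St := ⟨true, nat_lit 1, nat_lit 1, nat_lit 1, nat_lit 40, nat_lit 220, nat_lit 240, nat_lit 200, nat_lit 240, nat_lit 0, nat_lit 120, nat_lit 20, nat_lit 40, nat_lit 80, nat_lit 160, nat_lit 0, nat_lit 320, nat_lit 0, nat_lit 20, nat_lit 0, nat_lit 0, nat_lit 0, nat_lit 0⟩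
theorem d_VL_500_500_5_19 (h : EB TB.env) : Dead b_VL_500_500_5_19 := chkB_sound0 h (T :=
(.spl (nat_lit 2) (nat_lit 80)
(.spl (nat_lit 4) (nat_lit 120)
(.leaf p027_l46)
(.spl (nat_lit 1) (nat_lit 220)
(.leaf p027_l47)
(.trZ (nat_lit 0) (nat_lit 100) (nat_lit 100) (nat_lit 20) (nat_lit 4) (.trX (nat_lit 19) (nat_lit 100) (nat_lit 86) (nat_lit 60) (nat_lit 304) (.spl (nat_lit 6) (nat_lit 8)
(.spl (nat_lit 0) (nat_lit 230)
(.ord (.leaf p027_l48))
(.spl (nat_lit 0) (nat_lit 235)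
(.ord (.leaf p027_l49))
(.leaf p027_l50)))
(.leaf p027_l51))))))
(.spl (nat_lit 1) (nat_lit 220)
(.leaf p027_l52)
(.trX (nat_lit 19) (nat_lit 100) (nat_lit 86) (nat_lit 60) (nat_lit 304) (.spl (nat_lit 4) (nat_lit 120)
(.spl (nat_lit 0) (nat_lit 230)
(.ord (.leaf p027_l53))
(.leaf p027_l54))
(.leaf p027_l55)))))) (by decide +kernel)
noncomputable def p027_l56 : Lf2 := ⟨nat_lit 0, nat_lit 2, [nat_lit 10, nat_lit 5, nat_lit 5, nat_lit 20], false, nat_lit 0, nat_lit 80, nat_lit 0, nat_lit 320, ⟨nat_lit 612, nat_lit 0, nat_lit 388, nat_lit 5, nat_lit 155, nat_lit 0, nat_lit 12, nat_lit 0, nat_lit 817, nat_lit 208, nat_lit 228150, nat_lit 332, nat_lit 58221346, nat_lit 0, nat_lit 0, nat_lit 1941648, false, false⟩,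
 nat_lit 9266, nat_lit 11048, nat_lit 0, nat_lit 0, nat_lit 9715, nat_lit 3971, nat_lit 0, nat_lit 0, nat_lit 0, nat_lit 0, nat_lit 0, nat_lit 0, nat_lit 0, nat_lit 0, nat_lit 0, nat_lit 388000, nat_lit 0, nat_lit 0, [(nat_lit 3, [(nat_lit 6, nat_lit 388)])],
 ⟨p027_k14, nat_lit 0, nat_lit 0, nat_lit 227, nat_lit 0, nat_lit 95287, [nat_lit 4228963429, nat_lit 4387380800], [], [nat_lit 8789386319, nat_lit 9849201900, nat_lit 9982121569, nat_lit 11005687625, nat_lit 2736292929, nat_lit 3746615239, nat_lit 4012436419, nat_lit 4947265844], nat_lit 1271250, nat_lit 1271250, nat_lit 780000, nat_lit 1100001, nat_lit 0, nat_lit 490000, [nat_lit 1412500, nat_lit 1271250], [nat_lit 26, nat_lit 40, nat_lit 20, nat_lit 80, nat_lit 2, nat_lit 345, nat_lit 125, nat_lit 12]⟩, ⟨p027_k16, nat_lit 0, nat_lit 0, nat_lit 238, nat_lit 0, nat_lit 108144, [nat_lit 3825000000, nat_lit 6023304000], [], [nat_lit 25941175984, nat_lit 22791748087,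 nat_lit 21741938788, nat_lit 20608439534, nat_lit 24379157120, nat_lit 21572418581, nat_lit 26503097400, nat_lit 23733908637], nat_lit 1271250, nat_lit 1271250, nat_lit 780000, nat_lit 1100001, nat_lit 0, nat_lit 2260000, [nat_lit 1412500, nat_lit 1271250], [nat_lit 51, nat_lit 40, nat_lit 20, nat_lit 80, nat_lit 1, nat_lit 428, nat_lit 200, nat_lit 13]⟩,
 ⟨nat_lit 6519, nat_lit 6709, ⟨.ofNat (nat_lit 327688), .ofNat (nat_lit 413843), .ofNat (nat_lit 359845), .ofNat (nat_lit 446001), .ofNat (nat_lit 331623), .ofNat (nat_lit 415811), .ofNat (nat_lit 363720), .ofNat (nat_lit 447908)⟩, ⟨.negSucc (nat_lit 123723), .ofNat (nat_lit 48587), .negSucc (nat_lit 102285), .ofNat (nat_lit 70025), .negSucc (nat_lit 113523), .ofNat (nat_lit 54852), .negSucc (nat_lit 92125), .ofNat (nat_lit 76250)⟩⟩, [⟨nat_lit 7, nat_lit 89, nat_lit 100, nat_lit 53, nat_lit 168310762⟩]⟩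
noncomputable def p027_l57 : Lf2 := ⟨nat_lit 0, nat_lit 2, [nat_lit 10, nat_lit 5, nat_lit 5, nat_lit 20], false, nat_lit 0, nat_lit 80, nat_lit 0, nat_lit 320, ⟨nat_lit 737, nat_lit 0, nat_lit 263, nat_lit 5, nat_lit 157, nat_lit 0, nat_lit 13, nat_lit 0, nat_lit 417, nat_lit 210, nat_lit 187267, nat_lit 321, nat_lit 58030091, nat_lit 0, nat_lit 0, nat_lit 1968473, false, false⟩,
 nat_lit 11872, nat_lit 13055, nat_lit 0, nat_lit 0, nat_lit 12554, nat_lit 5088, nat_lit 2464, nat_lit 0, nat_lit 0, nat_lit 0, nat_lit 0, nat_lit 0, nat_lit 0, nat_lit 0, nat_lit 0, nat_lit 263000, nat_lit 0, nat_lit 0, [(nat_lit 3, [(nat_lit 6, nat_lit 263)])],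
 ⟨p027_k0, nat_lit 0, nat_lit 0, nat_lit 225, nat_lit 0, nat_lit 138079, [nat_lit 4880070572, nat_lit 5540930800], [], [nat_lit 10627700964, nat_lit 11180824806, nat_lit 11516920550, nat_lit 12269006127, nat_lit 6710727578, nat_lit 5100495045, nat_lit 11319161044, nat_lit 9732448430], nat_lit 1271250, nat_lit 1271250, nat_lit 780000, nat_lit 1100001, nat_lit 0, nat_lit 490000, [nat_lit 1412500, nat_lit 1271250], [nat_lit 26, nat_lit 40, nat_lit 20, nat_lit 80, nat_lit 2, nat_lit 345, nat_lit 125, nat_lit 12]⟩, ⟨p027_k16, nat_lit 0, nat_lit 0, nat_lit 242, nat_lit 0, nat_lit 166254, [nat_lit 4606250000, nat_lit 7253554000], [], [nat_lit 31705806764, nat_lit 26997923612, nat_lit 26325368876, nat_lit 24299067986, nat_lit 29392045972, nat_lit 25197670855, nat_lit 32053077016, nat_lit 27913589608], nat_lit 1271250, nat_lit 1271250, nat_lit 780000, nat_lit 1100001, nat_lit 0, nat_lit 2260000, [nat_lit 1412500, nat_lit 1271250],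 [nat_lit 51, nat_lit 40, nat_lit 20, nat_lit 80, nat_lit 1, nat_lit 428, nat_lit 200, nat_lit 13]⟩,
 ⟨nat_lit 6422, nat_lit 6520, ⟨.ofNat (nat_lit 331623), .ofNat (nat_lit 415811), .ofNat (nat_lit 369069), .ofNat (nat_lit 453257), .ofNat (nat_lit 333557), .ofNat (nat_lit 416778), .ofNat (nat_lit 370975), .ofNat (nat_lit 454196)⟩, ⟨.negSucc (nat_lit 113523), .ofNat (nat_lit 54852), .negSucc (nat_lit 92125), .ofNat (nat_lit 76250), .negSucc (nat_lit 108540), .ofNat (nat_lit 57901), .negSucc (nat_lit 87158), .ofNat (nat_lit 79282)⟩⟩, [⟨nat_lit 7, nat_lit 90, nat_lit 100, nat_lit 53, nat_lit 189696592⟩]⟩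
noncomputable def p027_l58 : Lf2 := ⟨nat_lit 0, nat_lit 2, [nat_lit 10, nat_lit 5, nat_lit 5, nat_lit 20], false, nat_lit 0, nat_lit 80, nat_lit 0, nat_lit 320, ⟨nat_lit 567, nat_lit 0, nat_lit 433, nat_lit 5, nat_lit 159, nat_lit 0, nat_lit 14, nat_lit 0, nat_lit 267, nat_lit 211, nat_lit 138017, nat_lit 306, nat_lit 57867616, nat_lit 0, nat_lit 0, nat_lit 1990985, false, false⟩,
 nat_lit 13846, nat_lit 6941, nat_lit 0, nat_lit 0, nat_lit 10735, nat_lit 5933, nat_lit 1760, nat_lit 0, nat_lit 0, nat_lit 0, nat_lit 0, nat_lit 0, nat_lit 0, nat_lit 0, nat_lit 0, nat_lit 433000, nat_lit 0, nat_lit 0, [(nat_lit 3, [(nat_lit 6, nat_lit 433)])],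
 ⟨p027_k1, nat_lit 0, nat_lit 0, nat_lit 226, nat_lit 0, nat_lit 181888, [nat_lit 3994564858, nat_lit 3972102800], [], [nat_lit 10965871215, nat_lit 11467032600, nat_lit 11861048993, nat_lit 12532733860, nat_lit 6836594744, nat_lit 5459675336, nat_lit 10982870581, nat_lit 9626063196], nat_lit 1271250, nat_lit 1271250, nat_lit 780000, nat_lit 1100001, nat_lit 0, nat_lit 490000, [nat_lit 1412500, nat_lit 1271250], [nat_lit 26, nat_lit 40, nat_lit 20, nat_lit 80, nat_lit 2, nat_lit 345, nat_lit 125, nat_lit 12]⟩, ⟨p027_k16, nat_lit 0, nat_lit 0, nat_lit 286, nat_lit 0, nat_lit 225364, [nat_lit 3543750000, nat_lit 5580414000], [], [nat_lit 27468449524, nat_lit 21194444416, nat_lit 21194444416, nat_lit 18932984088, nat_lit 22833284252, nat_lit 17770126444, nat_lit 25561979856, nat_lit 20045452724], nat_lit 1271250, nat_lit 1271250, nat_lit 780000, nat_lit 1100001, nat_lit 0, nat_lit 2260000, [nat_lit 1412500, nat_lit 1271250],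 [nat_lit 51, nat_lit 40, nat_lit 20, nat_lit 80, nat_lit 1, nat_lit 428, nat_lit 200, nat_lit 13]⟩,
 ⟨nat_lit 6324, nat_lit 6423, ⟨.ofNat (nat_lit 333557), .ofNat (nat_lit 416778), .ofNat (nat_lit 376320), .ofNat (nat_lit 459541), .ofNat (nat_lit 335470), .ofNat (nat_lit 417734), .ofNat (nat_lit 378206), .ofNat (nat_lit 460470)⟩, ⟨.negSucc (nat_lit 108540), .ofNat (nat_lit 57901), .negSucc (nat_lit 87158), .ofNat (nat_lit 79282), .negSucc (nat_lit 103633), .ofNat (nat_lit 60895), .negSucc (nat_lit 82265), .ofNat (nat_lit 82263)⟩⟩, [⟨nat_lit 7, nat_lit 90, nat_lit 100, nat_lit 53, nat_lit 69511749⟩]⟩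
noncomputable def p027_l59 : Lf2 := ⟨nat_lit 0, nat_lit 5, [nat_lit 4, nat_lit 5, nat_lit 5, nat_lit 20], false, nat_lit 0, nat_lit 80, nat_lit 0, nat_lit 320, ⟨nat_lit 410, nat_lit 0, nat_lit 590, nat_lit 5, nat_lit 158, nat_lit 0, nat_lit 13, nat_lit 0, nat_lit 600, nat_lit 209, nat_lit 138017, nat_lit 306, nat_lit 57953783, nat_lit 0, nat_lit 0, nat_lit 1979077, false, false⟩,
 nat_lit 14217, nat_lit 9208, nat_lit 0, nat_lit 0, nat_lit 11203, nat_lit 6092, nat_lit 2929, nat_lit 0, nat_lit 0, nat_lit 249, nat_lit 0, nat_lit 0, nat_lit 0, nat_lit 0, nat_lit 0, nat_lit 590000, nat_lit 0, nat_lit 0, [(nat_lit 3, [(nat_lit 6, nat_lit 590)])],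
 ⟨p027_k5, nat_lit 0, nat_lit 0, nat_lit 227, nat_lit 0, nat_lit 101352, [nat_lit 3176774286, nat_lit 2149344000], [], [nat_lit 10573500394, nat_lit 12310978116, nat_lit 11893604342, nat_lit 12661821008, nat_lit 8609530822, nat_lit 4531706288, nat_lit 12817797368, nat_lit 7153963876], nat_lit 1271250, nat_lit 1271250, nat_lit 780000, nat_lit 1100001, nat_lit 0, nat_lit 490000, [nat_lit 1412500, nat_lit 1271250], [nat_lit 51, nat_lit 40, nat_lit 20, nat_lit 80, nat_lit 1, nat_lit 345, nat_lit 125, nat_lit 10]⟩, ⟨p027_k17, nat_lit 0, nat_lit 0, nat_lit 273, nat_lit 0, nat_lit 115393, [nat_lit 2562500000, nat_lit 4035220000, nat_lit 4867520000], [], [nat_lit 22608238200, nat_lit 16166094408, nat_lit 16166094408, nat_lit 12568865680, nat_lit 16708060872, nat_lit 11301989872, nat_lit 19289472976, nat_lit 13625107008], nat_lit 1271250, nat_lit 1271250, nat_lit 780000, nat_lit 1100001, nat_lit 0, nat_lit 2260000, [nat_lit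 1412500, nat_lit 1271250, nat_lit 1271250], [nat_lit 46, nat_lit 40, nat_lit 20, nat_lit 80, nat_lit 41, nat_lit 428, nat_lit 200, nat_lit 11]⟩,
 ⟨nat_lit 6324, nat_lit 6709, ⟨.ofNat (nat_lit 327688), .ofNat (nat_lit 413843), .ofNat (nat_lit 370564), .ofNat (nat_lit 456720), .ofNat (nat_lit 335470), .ofNat (nat_lit 417734), .ofNat (nat_lit 378206), .ofNat (nat_lit 460470)⟩, ⟨.negSucc (nat_lit 123724), .ofNat (nat_lit 48587), .negSucc (nat_lit 102285), .ofNat (nat_lit 70025), .negSucc (nat_lit 103634), .ofNat (nat_lit 60895), .negSucc (nat_lit 82265), .ofNat (nat_lit 82263)⟩⟩, []⟩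
noncomputable def p027_l60 : Lf2 := ⟨nat_lit 0, nat_lit 5, [nat_lit 4, nat_lit 5, nat_lit 5, nat_lit 20], false, nat_lit 80, nat_lit 160, nat_lit 0, nat_lit 320, ⟨nat_lit 1000, nat_lit 0, nat_lit 0, nat_lit 0, nat_lit 0, nat_lit 0, nat_lit 0, nat_lit 0, nat_lit 0, nat_lit 0, nat_lit 0, nat_lit 0, nat_lit 0, nat_lit 0, nat_lit 0, nat_lit 0, false, false⟩,
 nat_lit 40751, nat_lit 22462, nat_lit 0, nat_lit 0, nat_lit 30232, nat_lit 17464, nat_lit 0, nat_lit 0, nat_lit 0, nat_lit 0, nat_lit 0, nat_lit 0, nat_lit 0, nat_lit 0, nat_lit 0, nat_lit 0, nat_lit 18775672912, nat_lit 0, [],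
 ⟨p027_k5, nat_lit 0, nat_lit 0, nat_lit 196, nat_lit 0, nat_lit 208593, [nat_lit 6250000000, nat_lit 9842000000], [], [nat_lit 531664528, nat_lit 7014829840, nat_lit 2733770128, nat_lit 8743029776, nat_lit 0, nat_lit 5685904368, nat_lit 1895746608, nat_lit 7119019120], nat_lit 1271250, nat_lit 1271250, nat_lit 780000, nat_lit 1100001, nat_lit 490000, nat_lit 1100001, [nat_lit 1412500, nat_lit 1271250], [nat_lit 51, nat_lit 40, nat_lit 20, nat_lit 80, nat_lit 1, nat_lit 373, nat_lit 150, nat_lit 11]⟩, ⟨p027_k15, nat_lit 0, nat_lit 0, nat_lit 362, nat_lit 0, nat_lit 237491, [nat_lit 6250000000, nat_lit 11872000000], [], [nat_lit 59112353760, nat_lit 40645228704, nat_lit 40644592896, nat_lit 39049840032, nat_lit 41036551584, nat_lit 28773228704, nat_lit 48212262272, nat_lit 31974165216], nat_lit 1271250, nat_lit 1271250, nat_lit 780000, nat_lit 1100001, nat_lit 0, nat_lit 2260000, [nat_lit 1412500, nat_lit 1271250],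 [nat_lit 107, nat_lit 40, nat_lit 20, nat_lit 80, nat_lit 12, nat_lit 428, nat_lit 200, nat_lit 11]⟩,
 zbF0, []⟩
noncomputable def p027_l61 : Lf2 := ⟨nat_lit 0, nat_lit 5, [nat_lit 4, nat_lit 5, nat_lit 5, nat_lit 20], false, nat_lit 0, nat_lit 160, nat_lit 0, nat_lit 160, ⟨nat_lit 1000, nat_lit 0, nat_lit 0, nat_lit 0, nat_lit 0, nat_lit 0, nat_lit 0, nat_lit 0, nat_lit 0, nat_lit 0, nat_lit 0, nat_lit 0, nat_lit 0, nat_lit 0, nat_lit 0, nat_lit 0, false, false⟩,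
 nat_lit 62839, nat_lit 11011, nat_lit 0, nat_lit 25699, nat_lit 35319, nat_lit 26931, nat_lit 0, nat_lit 0, nat_lit 0, nat_lit 855, nat_lit 0, nat_lit 0, nat_lit 0, nat_lit 0, nat_lit 0, nat_lit 0, nat_lit 2408920727, nat_lit 0, [],
 ⟨p027_k6, nat_lit 0, nat_lit 0, nat_lit 207, nat_lit 0, nat_lit 100096, [nat_lit 6250000000, nat_lit 7968000001, nat_lit 9842000000], [], [nat_lit 32987084661, nat_lit 23790405570, nat_lit 33299307547, nat_lit 36005325025, nat_lit 8674734909, nat_lit 0, nat_lit 39753636939, nat_lit 31317905703], nat_lit 1271250, nat_lit 1271250, nat_lit 1100001, nat_lit 1785000, nat_lit 0, nat_lit 1100001, [nat_lit 1412500, nat_lit 1271250, nat_lit 1271250], [nat_lit 25, nat_lit 40, nat_lit 20, nat_lit 80, nat_lit 17, nat_lit 401, nat_lit 175, nat_lit 12]⟩, ⟨p027_k9, nat_lit 0, nat_lit 0, nat_lit 234, nat_lit 0, nat_lit 113963, [nat_lit 6250000000, nat_lit 7968000000, nat_lit 11872000000], [], [nat_lit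 45059660884, nat_lit 31182938110, nat_lit 34204441252, nat_lit 35876963468, nat_lit 26500756000, nat_lit 6657106477, nat_lit 50484894316, nat_lit 31187971024], nat_lit 1271250, nat_lit 1271250, nat_lit 1100001, nat_lit 1785000, nat_lit 0, nat_lit 1100001, [nat_lit 1412500, nat_lit 1271250, nat_lit 1271250], [nat_lit 53, nat_lit 40, nat_lit 20, nat_lit 80, nat_lit 14, nat_lit 401, nat_lit 175, nat_lit 10]⟩,
 zbF0, []⟩
noncomputable def p027_l62 : Lf2 := ⟨nat_lit 0, nat_lit 5, [nat_lit 4, nat_lit 5, nat_lit 5, nat_lit 20], false, nat_lit 0, nat_lit 160, nat_lit 0, nat_lit 160, ⟨nat_lit 1000, nat_lit 0, nat_lit 0, nat_lit 0, nat_lit 0, nat_lit 0, nat_lit 0, nat_lit 0, nat_lit 0, nat_lit 0, nat_lit 0, nat_lit 0, nat_lit 0, nat_lit 0, nat_lit 0, nat_lit 0, false, false⟩,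
 nat_lit 37814, nat_lit 16519, nat_lit 0, nat_lit 0, nat_lit 27364, nat_lit 16206, nat_lit 0, nat_lit 0, nat_lit 0, nat_lit 570, nat_lit 0, nat_lit 0, nat_lit 0, nat_lit 0, nat_lit 0, nat_lit 0, nat_lit 531793616, nat_lit 0, [],
 ⟨p027_k4, nat_lit 0, nat_lit 0, nat_lit 229, nat_lit 0, nat_lit 196342, [nat_lit 6250000000, nat_lit 7968000001, nat_lit 9842000000], [], [nat_lit 24417536324, nat_lit 22569480320, nat_lit 29282473304, nat_lit 31460581072, nat_lit 6720899404, nat_lit 0, nat_lit 31602120272, nat_lit 25066393056], nat_lit 1271250, nat_lit 1271250, nat_lit 1100001, nat_lit 1785000, nat_lit 0, nat_lit 1100001, [nat_lit 1412500, nat_lit 1271250, nat_lit 1271250], [nat_lit 25, nat_lit 40, nat_lit 20, nat_lit 80, nat_lit 17, nat_lit 401, nat_lit 175, nat_lit 12]⟩, ⟨p027_k9, nat_lit 0, nat_lit 0, nat_lit 356, nat_lit 0, nat_lit 237491, [nat_lit 6250000000, nat_lit 7968000000, nat_lit 11872000000], [], [nat_lit 40057906984,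 nat_lit 31424114730, nat_lit 34164844552, nat_lit 34917796266, nat_lit 30190156000, nat_lit 16815967858, nat_lit 45714028216, nat_lit 30231204760], nat_lit 1271250, nat_lit 1271250, nat_lit 1100001, nat_lit 1785000, nat_lit 0, nat_lit 1100001, [nat_lit 1412500, nat_lit 1271250, nat_lit 1271250], [nat_lit 53, nat_lit 40, nat_lit 20, nat_lit 80, nat_lit 14, nat_lit 401, nat_lit 175, nat_lit 10]⟩,
 zbF0, []⟩
noncomputable def p027_l63 : Lf2 := ⟨nat_lit 0, nat_lit 5, [nat_lit 4, nat_lit 5, nat_lit 5, nat_lit 20], false, nat_lit 0, nat_lit 160, nat_lit 160, nat_lit 320, ⟨nat_lit 1000, nat_lit 0, nat_lit 0, nat_lit 0, nat_lit 0, nat_lit 0, nat_lit 0, nat_lit 0, nat_lit 0, nat_lit 0, nat_lit 0, nat_lit 0, nat_lit 0, nat_lit 0, nat_lit 0, nat_lit 0, false, false⟩,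
 nat_lit 20766, nat_lit 531, nat_lit 0, nat_lit 8311, nat_lit 10185, nat_lit 8899, nat_lit 0, nat_lit 0, nat_lit 0, nat_lit 2294, nat_lit 0, nat_lit 0, nat_lit 0, nat_lit 0, nat_lit 0, nat_lit 0, nat_lit 0, nat_lit 0, [],
 ⟨p027_k6, nat_lit 0, nat_lit 0, nat_lit 235, nat_lit 0, nat_lit 208593, [nat_lit 6250000000, nat_lit 7968000001, nat_lit 9842000000], [], [nat_lit 31945805410, nat_lit 26641681480, nat_lit 28993445680, nat_lit 29071952880, nat_lit 27258283930, nat_lit 22255187860, nat_lit 38170418380, nat_lit 33305166100], nat_lit 1271250, nat_lit 1271250, nat_lit 1100001, nat_lit 1785000, nat_lit 0, nat_lit 1100001, [nat_lit 1412500, nat_lit 1271250, nat_lit 1271250], [nat_lit 25, nat_lit 40, nat_lit 20, nat_lit 80, nat_lit 17, nat_lit 401, nat_lit 175, nat_lit 12]⟩, ⟨p027_k9, nat_lit 0, nat_lit 0, nat_lit 196, nat_lit 0, nat_lit 237491, [nat_lit 6250000000, nat_lit 7968000000, nat_lit 11872000000], [], [nat_lit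 39810664160, nat_lit 30400185236, nat_lit 31426338392, nat_lit 22294932108, nat_lit 23730051130, nat_lit 24757373062, nat_lit 24977158062, nat_lit 25729643320], nat_lit 1271250, nat_lit 1271250, nat_lit 1100001, nat_lit 1785000, nat_lit 1271250, nat_lit 1271250, [nat_lit 1412500, nat_lit 1271250, nat_lit 1271250], [nat_lit 53, nat_lit 40, nat_lit 20, nat_lit 80, nat_lit 14, nat_lit 428, nat_lit 200, nat_lit 11]⟩,
 zbF0, []⟩
noncomputable def b_VL_500_500_5_20 : St := ⟨true, nat_lit 1, nat_lit 1, nat_lit 1, nat_lit 40, nat_lit 220, nat_lit 240, nat_lit 200, nat_lit 240, nat_lit 120, nat_lit 240, nat_lit 20, nat_lit 40, nat_lit 0, nat_lit 160, nat_lit 0, nat_lit 320, nat_lit 0, nat_lit 20, nat_lit 0, nat_lit 0, nat_lit 0, nat_lit 0⟩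
theorem d_VL_500_500_5_20 (h : EB TB.env) : Dead b_VL_500_500_5_20 := chkB_sound0 h (T :=
(.spl (nat_lit 2) (nat_lit 160)
(.spl (nat_lit 4) (nat_lit 80)
(.spl (nat_lit 6) (nat_lit 8)
(.spl (nat_lit 0) (nat_lit 230)
(.ord (.leaf p027_l56))
(.spl (nat_lit 0) (nat_lit 235)
(.ord (.leaf p027_l57))
(.leaf p027_l58)))
(.leaf p027_l59))
(.leaf p027_l60))
(.spl (nat_lit 5) (nat_lit 160)
(.spl (nat_lit 0) (nat_lit 230)
(.ord (.leaf p027_l61))
(.leaf p027_l62))
(.leaf p027_l63)))) (by decide +kernel)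
noncomputable def p027_l64 : Lf2 := ⟨nat_lit 0, nat_lit 2, [nat_lit 10, nat_lit 5, nat_lit 5, nat_lit 20], true, nat_lit 160, nat_lit 180, nat_lit 0, nat_lit 320, ⟨nat_lit 0, nat_lit 0, nat_lit 1000, nat_lit 5, nat_lit 43, nat_lit 1000, nat_lit 101, nat_lit 1000, nat_lit 96267, nat_lit 291, nat_lit 17067, nat_lit 247, nat_lit 61591344, nat_lit 0, nat_lit 0, nat_lit 1678668, false, false⟩,
 nat_lit 0, nat_lit 12783, nat_lit 0, nat_lit 0, nat_lit 6113, nat_lit 0, nat_lit 0, nat_lit 0, nat_lit 0, nat_lit 0, nat_lit 0, nat_lit 0, nat_lit 0, nat_lit 0, nat_lit 53, nat_lit 1000000, nat_lit 0, nat_lit 0, [(nat_lit 3, [(nat_lit 6, nat_lit 1000)])],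
 ⟨p027_k14, nat_lit 0, nat_lit 0, nat_lit 203, nat_lit 0, nat_lit 45204, [nat_lit 2101142858, nat_lit 11600000], [], [nat_lit 9781814206, nat_lit 10155065998, nat_lit 8163506882, nat_lit 8536268344, nat_lit 10916995885, nat_lit 11273226715, nat_lit 9301529926, nat_lit 9657382062], nat_lit 1271250, nat_lit 1271250, nat_lit 0, nat_lit 111251, nat_lit 1100001, nat_lit 1271250, [nat_lit 1412500, nat_lit 1271250], [nat_lit 26, nat_lit 40, nat_lit 20, nat_lit 80, nat_lit 2, nat_lit 345, nat_lit 125, nat_lit 11]⟩, C1.Rw.none,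
 ⟨nat_lit 6614, nat_lit 6709, ⟨.ofNat (nat_lit 69221), .ofNat (nat_lit 112299), .ofNat (nat_lit 96019), .ofNat (nat_lit 139097), .ofNat (nat_lit 74168), .ofNat (nat_lit 116751), .ofNat (nat_lit 100940), .ofNat (nat_lit 143523)⟩, ⟨.ofNat (nat_lit 220898), .ofNat (nat_lit 263975), .ofNat (nat_lit 242336), .ofNat (nat_lit 285414), .ofNat (nat_lit 222080), .ofNat (nat_lit 264663), .ofNat (nat_lit 243497), .ofNat (nat_lit 286080)⟩⟩, [⟨nat_lit 0, nat_lit 100, nat_lit 100, nat_lit 25, nat_lit 507337679⟩]⟩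
noncomputable def p027_l65 : Lf2 := ⟨nat_lit 0, nat_lit 2, [nat_lit 10, nat_lit 5, nat_lit 5, nat_lit 20], true, nat_lit 160, nat_lit 180, nat_lit 0, nat_lit 320, ⟨nat_lit 0, nat_lit 0, nat_lit 1000, nat_lit 5, nat_lit 46, nat_lit 1000, nat_lit 102, nat_lit 1000, nat_lit 96267, nat_lit 291, nat_lit 19267, nat_lit 249, nat_lit 61418439, nat_lit 0, nat_lit 0, nat_lit 1729937, false, false⟩,
 nat_lit 0, nat_lit 12265, nat_lit 0, nat_lit 0, nat_lit 6020, nat_lit 0, nat_lit 0, nat_lit 0, nat_lit 0, nat_lit 0, nat_lit 0, nat_lit 0, nat_lit 0, nat_lit 0, nat_lit 53, nat_lit 1000000, nat_lit 0, nat_lit 0, [(nat_lit 3, [(nat_lit 6, nat_lit 1000)])],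
 ⟨p027_k18, nat_lit 0, nat_lit 0, nat_lit 204, nat_lit 0, nat_lit 92482, [nat_lit 2101142858, nat_lit 11600000], [], [nat_lit 10229160958, nat_lit 10599373138, nat_lit 8638845298, nat_lit 9008558778, nat_lit 11339933243, nat_lit 11693332548, nat_lit 9752474806, nat_lit 10105485803], nat_lit 1271250, nat_lit 1271250, nat_lit 0, nat_lit 111251, nat_lit 1100001, nat_lit 1271250, [nat_lit 1412500, nat_lit 1271250], [nat_lit 26, nat_lit 40, nat_lit 20, nat_lit 80, nat_lit 2, nat_lit 345, nat_lit 125, nat_lit 11]⟩, C1.Rw.none,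
 ⟨nat_lit 6519, nat_lit 6615, ⟨.ofNat (nat_lit 74168), .ofNat (nat_lit 116751), .ofNat (nat_lit 106294), .ofNat (nat_lit 148877), .ofNat (nat_lit 79059), .ofNat (nat_lit 121153), .ofNat (nat_lit 111156), .ofNat (nat_lit 153250)⟩, ⟨.ofNat (nat_lit 222080), .ofNat (nat_lit 264663), .ofNat (nat_lit 243497), .ofNat (nat_lit 286080), .ofNat (nat_lit 223228), .ofNat (nat_lit 265322), .ofNat (nat_lit 244626), .ofNat (nat_lit 286720)⟩⟩, [⟨nat_lit 0, nat_lit 100, nat_lit 100, nat_lit 30, nat_lit 499970545⟩]⟩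
noncomputable def p027_l66 : Lf2 := ⟨nat_lit 0, nat_lit 2, [nat_lit 10, nat_lit 5, nat_lit 5, nat_lit 20], true, nat_lit 180, nat_lit 200, nat_lit 0, nat_lit 308, ⟨nat_lit 0, nat_lit 0, nat_lit 1000, nat_lit 5, nat_lit 45, nat_lit 1000, nat_lit 119, nat_lit 1000, nat_lit 132017, nat_lit 304, nat_lit 18150, nat_lit 248, nat_lit 60104133, nat_lit 0, nat_lit 0, nat_lit 1982701, false, false⟩,
 nat_lit 0, nat_lit 12051, nat_lit 0, nat_lit 0, nat_lit 5763, nat_lit 0, nat_lit 1458, nat_lit 0, nat_lit 0, nat_lit 0, nat_lit 0, nat_lit 0, nat_lit 0, nat_lit 0, nat_lit 53, nat_lit 1000000, nat_lit 0, nat_lit 0, [(nat_lit 3, [(nat_lit 6, nat_lit 1000)])],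
 ⟨p027_k14, nat_lit 0, nat_lit 0, nat_lit 197, nat_lit 0, nat_lit 95287, [nat_lit 2101142858, nat_lit 11600000], [], [nat_lit 11178698235, nat_lit 11869847344, nat_lit 9670098301, nat_lit 10360417660, nat_lit 12285290864, nat_lit 12943964298, nat_lit 10779176519, nat_lit 11437234114], nat_lit 1271250, nat_lit 1271250, nat_lit 0, nat_lit 111251, nat_lit 1271250, nat_lit 1271250, [nat_lit 1412500, nat_lit 1271250], [nat_lit 26, nat_lit 40, nat_lit 20, nat_lit 80, nat_lit 2, nat_lit 345, nat_lit 125, nat_lit 11]⟩, C1.Rw.none,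
 ⟨nat_lit 6519, nat_lit 6709, ⟨.ofNat (nat_lit 69221), .ofNat (nat_lit 112299), .ofNat (nat_lit 101379), .ofNat (nat_lit 144456), .ofNat (nat_lit 79059), .ofNat (nat_lit 121153), .ofNat (nat_lit 111156), .ofNat (nat_lit 153250)⟩, ⟨.ofNat (nat_lit 263975), .ofNat (nat_lit 307053), .ofNat (nat_lit 285414), .ofNat (nat_lit 328491), .ofNat (nat_lit 265322), .ofNat (nat_lit 307416), .ofNat (nat_lit 286720), .ofNat (nat_lit 328814)⟩⟩, [⟨nat_lit 0, nat_lit 100, nat_lit 100, nat_lit 30, nat_lit 478845488⟩]⟩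
noncomputable def p027_l67 : Lf2 := ⟨nat_lit 1, nat_lit 5, [nat_lit 4, nat_lit 5, nat_lit 5, nat_lit 20], false, nat_lit 160, nat_lit 200, nat_lit 0, nat_lit 320, zbN0,
 nat_lit 0, nat_lit 0, nat_lit 0, nat_lit 0, nat_lit 0, nat_lit 0, nat_lit 0, nat_lit 0, nat_lit 0, nat_lit 0, nat_lit 0, nat_lit 0, nat_lit 0, nat_lit 0, nat_lit 0, nat_lit 0, nat_lit 0, nat_lit 0, [],
 C1.Rw.none, C1.Rw.none,
 zbF0, []⟩
noncomputable def p027_l68 : Lf2 := ⟨nat_lit 0, nat_lit 2, [nat_lit 10, nat_lit 5, nat_lit 5, nat_lit 20], true, nat_lit 160, nat_lit 200, nat_lit 0, nat_lit 320, ⟨nat_lit 0, nat_lit 0, nat_lit 1000, nat_lit 5, nat_lit 46, nat_lit 1000, nat_lit 111, nat_lit 1000, nat_lit 114817, nat_lit 298, nat_lit 20417, nat_lit 250, nat_lit 60688632, nat_lit 0, nat_lit 0, nat_lit 1880696, false, false⟩,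
 nat_lit 0, nat_lit 13844, nat_lit 0, nat_lit 0, nat_lit 6972, nat_lit 0, nat_lit 0, nat_lit 0, nat_lit 0, nat_lit 0, nat_lit 0, nat_lit 0, nat_lit 0, nat_lit 0, nat_lit 53, nat_lit 1000000, nat_lit 0, nat_lit 0, [(nat_lit 3, [(nat_lit 6, nat_lit 1000)])],
 ⟨p027_k0, nat_lit 0, nat_lit 0, nat_lit 202, nat_lit 0, nat_lit 95812, [nat_lit 2101142858, nat_lit 11600000], [], [nat_lit 10839303088, nat_lit 11522458672, nat_lit 10783557132, nat_lit 9347746688, nat_lit 14632560614, nat_lit 14338184280, nat_lit 14629059340, nat_lit 12853304884], nat_lit 1271250, nat_lit 1271250, nat_lit 0, nat_lit 111251, nat_lit 1100001, nat_lit 1442500, [nat_lit 1412500, nat_lit 1271250], [nat_lit 26, nat_lit 40, nat_lit 20, nat_lit 80, nat_lit 2, nat_lit 345, nat_lit 125, nat_lit 11]⟩, C1.Rw.none,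
 ⟨nat_lit 6324, nat_lit 6520, ⟨.ofNat (nat_lit 79059), .ofNat (nat_lit 121153), .ofNat (nat_lit 100457), .ofNat (nat_lit 142551), .ofNat (nat_lit 88677), .ofNat (nat_lit 129809), .ofNat (nat_lit 110045), .ofNat (nat_lit 151177)⟩, ⟨.ofNat (nat_lit 223228), .ofNat (nat_lit 307416), .ofNat (nat_lit 244626), .ofNat (nat_lit 328814), .ofNat (nat_lit 225423), .ofNat (nat_lit 307688), .ofNat (nat_lit 246791), .ofNat (nat_lit 329055)⟩⟩, [⟨nat_lit 0, nat_lit 100, nat_lit 98, nat_lit 30, nat_lit 106380999⟩]⟩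
noncomputable def p027_l69 : Lf2 := ⟨nat_lit 0, nat_lit 2, [nat_lit 10, nat_lit 5, nat_lit 5, nat_lit 20], true, nat_lit 160, nat_lit 180, nat_lit 0, nat_lit 304, ⟨nat_lit 0, nat_lit 0, nat_lit 1000, nat_lit 5, nat_lit 54, nat_lit 1000, nat_lit 102, nat_lit 1000, nat_lit 98817, nat_lit 292, nat_lit 28017, nat_lit 256, nat_lit 60923256, nat_lit 0, nat_lit 0, nat_lit 1875040, false, false⟩,
 nat_lit 0, nat_lit 14075, nat_lit 0, nat_lit 0, nat_lit 7088, nat_lit 0, nat_lit 0, nat_lit 0, nat_lit 0, nat_lit 0, nat_lit 0, nat_lit 0, nat_lit 0, nat_lit 34498746621125, nat_lit 53, nat_lit 1000000, nat_lit 0, nat_lit 0, [(nat_lit 3, [(nat_lit 6, nat_lit 1000)])],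
 ⟨p027_k0, nat_lit 0, nat_lit 0, nat_lit 203, nat_lit 0, nat_lit 138079, [nat_lit 2101142858, nat_lit 11600000], [], [nat_lit 10638893249, nat_lit 10545193470, nat_lit 10607048980, nat_lit 9691116356, nat_lit 12560976318, nat_lit 11991429329, nat_lit 12550377620, nat_lit 11641086452], nat_lit 1271250, nat_lit 1271250, nat_lit 21650, nat_lit 111251, nat_lit 1100001, nat_lit 1271250, [nat_lit 1412500, nat_lit 1271250], [nat_lit 26, nat_lit 40, nat_lit 20, nat_lit 80, nat_lit 2, nat_lit 345, nat_lit 125, nat_lit 11]⟩, C1.Rw.none,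
 ⟨nat_lit 6422, nat_lit 6520, ⟨.ofNat (nat_lit 108876), .ofNat (nat_lit 142551), .ofNat (nat_lit 124924), .ofNat (nat_lit 158599), .ofNat (nat_lit 113598), .ofNat (nat_lit 146886), .ofNat (nat_lit 129634), .ofNat (nat_lit 162923)⟩, ⟨.ofNat (nat_lit 223228), .ofNat (nat_lit 265322), .ofNat (nat_lit 244626), .ofNat (nat_lit 286720), .ofNat (nat_lit 224342), .ofNat (nat_lit 265953), .ofNat (nat_lit 245724), .ofNat (nat_lit 287334)⟩⟩, [⟨nat_lit 0, nat_lit 100, nat_lit 100, nat_lit 35, nat_lit 215888422⟩]⟩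
noncomputable def p027_l70 : Lf2 := ⟨nat_lit 0, nat_lit 2, [nat_lit 10, nat_lit 5, nat_lit 5, nat_lit 20], true, nat_lit 160, nat_lit 180, nat_lit 0, nat_lit 304, ⟨nat_lit 0, nat_lit 0, nat_lit 1000, nat_lit 5, nat_lit 56, nat_lit 1000, nat_lit 102, nat_lit 1000, nat_lit 98817, nat_lit 292, nat_lit 29400, nat_lit 257, nat_lit 60785703, nat_lit 0, nat_lit 0, nat_lit 1912600, false, false⟩,
 nat_lit 0, nat_lit 15055, nat_lit 0, nat_lit 0, nat_lit 7775, nat_lit 0, nat_lit 0, nat_lit 0, nat_lit 0, nat_lit 0, nat_lit 0, nat_lit 0, nat_lit 0, nat_lit 27227659782487, nat_lit 53, nat_lit 1000000, nat_lit 0, nat_lit 0, [(nat_lit 3, [(nat_lit 6, nat_lit 1000)])],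
 ⟨p027_k1, nat_lit 0, nat_lit 0, nat_lit 202, nat_lit 0, nat_lit 162834, [nat_lit 2101142858, nat_lit 11600000], [], [nat_lit 10646692018, nat_lit 10971528912, nat_lit 8556985841, nat_lit 8770827176, nat_lit 12165068802, nat_lit 12474634484, nat_lit 10629562766, nat_lit 10287348294], nat_lit 1271250, nat_lit 1271250, nat_lit 21650, nat_lit 111251, nat_lit 1100001, nat_lit 1271250, [nat_lit 1412500, nat_lit 1271250], [nat_lit 26, nat_lit 40, nat_lit 20, nat_lit 80, nat_lit 2, nat_lit 345, nat_lit 125, nat_lit 11]⟩, C1.Rw.none,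
 ⟨nat_lit 6363, nat_lit 6423, ⟨.ofNat (nat_lit 113598), .ofNat (nat_lit 146886), .ofNat (nat_lit 132842), .ofNat (nat_lit 166130), .ofNat (nat_lit 116408), .ofNat (nat_lit 149466), .ofNat (nat_lit 135644), .ofNat (nat_lit 168702)⟩, ⟨.ofNat (nat_lit 224342), .ofNat (nat_lit 265953), .ofNat (nat_lit 245724), .ofNat (nat_lit 287334), .ofNat (nat_lit 224995), .ofNat (nat_lit 266318), .ofNat (nat_lit 246368), .ofNat (nat_lit 287691)⟩⟩, [⟨nat_lit 0, nat_lit 100, nat_lit 100, nat_lit 38, nat_lit 789191330⟩]⟩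
noncomputable def p027_l71 : Lf2 := ⟨nat_lit 0, nat_lit 2, [nat_lit 10, nat_lit 5, nat_lit 5, nat_lit 20], true, nat_lit 160, nat_lit 180, nat_lit 0, nat_lit 304, ⟨nat_lit 0, nat_lit 0, nat_lit 1000, nat_lit 5, nat_lit 59, nat_lit 1000, nat_lit 103, nat_lit 1000, nat_lit 98817, nat_lit 292, nat_lit 33750, nat_lit 260, nat_lit 60602903, nat_lit 0, nat_lit 0, nat_lit 1962737, false, false⟩,
 nat_lit 0, nat_lit 14025, nat_lit 0, nat_lit 0, nat_lit 7352, nat_lit 0, nat_lit 0, nat_lit 0, nat_lit 0, nat_lit 0, nat_lit 0, nat_lit 0, nat_lit 0, nat_lit 25235720157810, nat_lit 53, nat_lit 1000000, nat_lit 0, nat_lit 0, [(nat_lit 3, [(nat_lit 6, nat_lit 1000)])],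
 ⟨p027_k19, nat_lit 0, nat_lit 0, nat_lit 200, nat_lit 0, nat_lit 178839, [nat_lit 2101142858, nat_lit 11600000], [], [nat_lit 10379968054, nat_lit 10589233703, nat_lit 8902712753, nat_lit 9049790208, nat_lit 11842498511, nat_lit 12042047069, nat_lit 10686483457, nat_lit 10498602648], nat_lit 1271250, nat_lit 1271250, nat_lit 43600, nat_lit 111251, nat_lit 1100001, nat_lit 1271250, [nat_lit 1412500, nat_lit 1271250], [nat_lit 26, nat_lit 40, nat_lit 20, nat_lit 80, nat_lit 2, nat_lit 345, nat_lit 125, nat_lit 11]⟩, C1.Rw.none,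
 ⟨nat_lit 6324, nat_lit 6364, ⟨.ofNat (nat_lit 124673), .ofNat (nat_lit 149466), .ofNat (nat_lit 146046), .ofNat (nat_lit 170839), .ofNat (nat_lit 126498), .ofNat (nat_lit 151177), .ofNat (nat_lit 147866), .ofNat (nat_lit 172545)⟩, ⟨.ofNat (nat_lit 224995), .ofNat (nat_lit 266318), .ofNat (nat_lit 246368), .ofNat (nat_lit 287691), .ofNat (nat_lit 225423), .ofNat (nat_lit 266555), .ofNat (nat_lit 246791), .ofNat (nat_lit 287923)⟩⟩, [⟨nat_lit 0, nat_lit 100, nat_lit 100, nat_lit 40, nat_lit 749393434⟩]⟩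
noncomputable def p027_l72 : Lf2 := ⟨nat_lit 0, nat_lit 2, [nat_lit 10, nat_lit 5, nat_lit 5, nat_lit 20], true, nat_lit 180, nat_lit 200, nat_lit 0, nat_lit 304, ⟨nat_lit 0, nat_lit 0, nat_lit 1000, nat_lit 5, nat_lit 56, nat_lit 1000, nat_lit 119, nat_lit 1000, nat_lit 132017, nat_lit 304, nat_lit 29400, nat_lit 257, nat_lit 59452336, nat_lit 0, nat_lit 0, nat_lit 2172462, false, false⟩,
 nat_lit 0, nat_lit 11778, nat_lit 0, nat_lit 0, nat_lit 5931, nat_lit 0, nat_lit 0, nat_lit 0, nat_lit 0, nat_lit 0, nat_lit 0, nat_lit 0, nat_lit 0, nat_lit 30083758021335, nat_lit 53, nat_lit 1000000, nat_lit 0, nat_lit 0, [(nat_lit 3, [(nat_lit 6, nat_lit 1000)])],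
 ⟨p027_k0, nat_lit 0, nat_lit 0, nat_lit 197, nat_lit 0, nat_lit 187172, [nat_lit 2101142858, nat_lit 11600000], [], [nat_lit 14055857111, nat_lit 12630033275, nat_lit 14105492064, nat_lit 12583763532, nat_lit 12929806753, nat_lit 13444818986, nat_lit 11917516423, nat_lit 12430896670], nat_lit 1271250, nat_lit 1271250, nat_lit 21650, nat_lit 111251, nat_lit 1271250, nat_lit 1271250, [nat_lit 1412500, nat_lit 1271250], [nat_lit 26, nat_lit 40, nat_lit 20, nat_lit 80, nat_lit 2, nat_lit 345, nat_lit 125, nat_lit 11]⟩, C1.Rw.none,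
 ⟨nat_lit 6324, nat_lit 6520, ⟨.ofNat (nat_lit 108876), .ofNat (nat_lit 142551), .ofNat (nat_lit 130274), .ofNat (nat_lit 163949), .ofNat (nat_lit 118272), .ofNat (nat_lit 151177), .ofNat (nat_lit 139640), .ofNat (nat_lit 172545)⟩, ⟨.ofNat (nat_lit 265322), .ofNat (nat_lit 307416), .ofNat (nat_lit 286720), .ofNat (nat_lit 328814), .ofNat (nat_lit 266555), .ofNat (nat_lit 307688), .ofNat (nat_lit 287923), .ofNat (nat_lit 329055)⟩⟩, [⟨nat_lit 0, nat_lit 100, nat_lit 100, nat_lit 32, nat_lit 249994558⟩]⟩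
noncomputable def p027_l73 : Lf2 := ⟨nat_lit 0, nat_lit 5, [nat_lit 4, nat_lit 5, nat_lit 5, nat_lit 20], true, nat_lit 160, nat_lit 200, nat_lit 0, nat_lit 320, ⟨nat_lit 0, nat_lit 0, nat_lit 1000, nat_lit 5, nat_lit 50, nat_lit 1000, nat_lit 111, nat_lit 1000, nat_lit 114817, nat_lit 298, nat_lit 24067, nat_lit 253, nat_lit 60466225, nat_lit 0, nat_lit 0, nat_lit 1947743, false, false⟩,
 nat_lit 0, nat_lit 16518, nat_lit 0, nat_lit 0, nat_lit 8319, nat_lit 0, nat_lit 0, nat_lit 0, nat_lit 0, nat_lit 0, nat_lit 0, nat_lit 0, nat_lit 0, nat_lit 22308356501787, nat_lit 113, nat_lit 978400, nat_lit 0, nat_lit 0, [(nat_lit 3, [(nat_lit 5, nat_lit 36), (nat_lit 6, nat_lit 964)])],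
 ⟨p027_k7, nat_lit 0, nat_lit 0, nat_lit 202, nat_lit 0, nat_lit 95399, [nat_lit 3320196115, nat_lit 22262400], [], [nat_lit 11872607823, nat_lit 12549925484, nat_lit 9563210379, nat_lit 10241977536, nat_lit 13951936612, nat_lit 14973954810, nat_lit 13095812228, nat_lit 12052826220], nat_lit 1271250, nat_lit 1271250, nat_lit 0, nat_lit 111251, nat_lit 1100001, nat_lit 1442500, [nat_lit 1412500, nat_lit 1271250], [nat_lit 51, nat_lit 40, nat_lit 20, nat_lit 80, nat_lit 1, nat_lit 345, nat_lit 125, nat_lit 10]⟩, C1.Rw.none,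
 ⟨nat_lit 6324, nat_lit 6520, ⟨.ofNat (nat_lit 79059), .ofNat (nat_lit 121153), .ofNat (nat_lit 121855), .ofNat (nat_lit 163949), .ofNat (nat_lit 88677), .ofNat (nat_lit 129809), .ofNat (nat_lit 131413), .ofNat (nat_lit 172545)⟩, ⟨.ofNat (nat_lit 223228), .ofNat (nat_lit 307416), .ofNat (nat_lit 244626), .ofNat (nat_lit 328814), .ofNat (nat_lit 225423), .ofNat (nat_lit 307688), .ofNat (nat_lit 246791), .ofNat (nat_lit 329055)⟩⟩, [⟨nat_lit 0, nat_lit 100, nat_lit 100, nat_lit 40, nat_lit 831717781⟩]⟩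
noncomputable def p027_l74 : Lf2 := ⟨nat_lit 0, nat_lit 5, [nat_lit 4, nat_lit 5, nat_lit 5, nat_lit 20], true, nat_lit 160, nat_lit 200, nat_lit 0, nat_lit 320, ⟨nat_lit 0, nat_lit 0, nat_lit 1000, nat_lit 5, nat_lit 62, nat_lit 1000, nat_lit 110, nat_lit 1000, nat_lit 114817, nat_lit 298, nat_lit 35267, nat_lit 261, nat_lit 59878006, nat_lit 0, nat_lit 0, nat_lit 2117777, false, false⟩,
 nat_lit 0, nat_lit 13072, nat_lit 0, nat_lit 0, nat_lit 6251, nat_lit 0, nat_lit 0, nat_lit 0, nat_lit 0, nat_lit 0, nat_lit 0, nat_lit 0, nat_lit 0, nat_lit 30445500477790, nat_lit 115, nat_lit 1000000, nat_lit 0, nat_lit 0, [(nat_lit 3, [(nat_lit 6, nat_lit 1000)])],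
 ⟨p027_k5, nat_lit 0, nat_lit 0, nat_lit 197, nat_lit 0, nat_lit 100096, [nat_lit 3341142858, nat_lit 23600000], [], [nat_lit 8006773106, nat_lit 8761341654, nat_lit 7084705202, nat_lit 7831767022, nat_lit 10305644255, nat_lit 10991347782, nat_lit 9367392562, nat_lit 10046455596], nat_lit 1271250, nat_lit 1271250, nat_lit 111251, nat_lit 230001, nat_lit 1100001, nat_lit 1442500, [nat_lit 1412500, nat_lit 1271250], [nat_lit 51, nat_lit 40, nat_lit 20, nat_lit 80, nat_lit 1, nat_lit 345, nat_lit 125, nat_lit 10]⟩, C1.Rw.none,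
 ⟨nat_lit 6519, nat_lit 6709, ⟨.ofNat (nat_lit 112299), .ofNat (nat_lit 155377), .ofNat (nat_lit 144456), .ofNat (nat_lit 187534), .ofNat (nat_lit 121153), .ofNat (nat_lit 163247), .ofNat (nat_lit 153250), .ofNat (nat_lit 195344)⟩, ⟨.ofNat (nat_lit 220898), .ofNat (nat_lit 307053), .ofNat (nat_lit 242336), .ofNat (nat_lit 328491), .ofNat (nat_lit 223228), .ofNat (nat_lit 307416), .ofNat (nat_lit 244626), .ofNat (nat_lit 328814)⟩⟩, []⟩
noncomputable def p027_l75 : Lf2 := ⟨nat_lit 0, nat_lit 5, [nat_lit 4, nat_lit 5, nat_lit 5, nat_lit 20], true, nat_lit 160, nat_lit 200, nat_lit 0, nat_lit 320, ⟨nat_lit 0, nat_lit 0, nat_lit 1000, nat_lit 5, nat_lit 65, nat_lit 1000, nat_lit 111, nat_lit 1000, nat_lit 114817, nat_lit 298, nat_lit 40017, nat_lit 264, nat_lit 59633656, nat_lit 0, nat_lit 0, nat_lit 2180832, false, false⟩,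
 nat_lit 0, nat_lit 17194, nat_lit 0, nat_lit 0, nat_lit 8659, nat_lit 0, nat_lit 0, nat_lit 0, nat_lit 0, nat_lit 0, nat_lit 0, nat_lit 0, nat_lit 0, nat_lit 39746831473802, nat_lit 115, nat_lit 1000000, nat_lit 0, nat_lit 0, [(nat_lit 3, [(nat_lit 6, nat_lit 1000)])],
 ⟨p027_k7, nat_lit 0, nat_lit 0, nat_lit 196, nat_lit 0, nat_lit 144843, [nat_lit 3341142858, nat_lit 23600000], [], [nat_lit 9327375919, nat_lit 9674206008, nat_lit 8361248627, nat_lit 8164823656, nat_lit 12661075994, nat_lit 11558361003, nat_lit 12869725154, nat_lit 11775071692], nat_lit 1271250, nat_lit 1271250, nat_lit 111251, nat_lit 230001, nat_lit 1100001, nat_lit 1442500, [nat_lit 1412500, nat_lit 1271250], [nat_lit 51, nat_lit 40, nat_lit 20, nat_lit 80, nat_lit 1, nat_lit 345, nat_lit 125, nat_lit 10]⟩, C1.Rw.none,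
 ⟨nat_lit 6422, nat_lit 6520, ⟨.ofNat (nat_lit 121153), .ofNat (nat_lit 163247), .ofNat (nat_lit 158599), .ofNat (nat_lit 200693), .ofNat (nat_lit 125505), .ofNat (nat_lit 167115), .ofNat (nat_lit 162923), .ofNat (nat_lit 204533)⟩, ⟨.ofNat (nat_lit 223228), .ofNat (nat_lit 307416), .ofNat (nat_lit 244626), .ofNat (nat_lit 328814), .ofNat (nat_lit 224342), .ofNat (nat_lit 307563), .ofNat (nat_lit 245724), .ofNat (nat_lit 328945)⟩⟩, []⟩
noncomputable def p027_l76 : Lf2 := ⟨nat_lit 0, nat_lit 5, [nat_lit 4, nat_lit 5, nat_lit 5, nat_lit 20], true, nat_lit 160, nat_lit 200, nat_lit 0, nat_lit 320, ⟨nat_lit 0, nat_lit 0, nat_lit 1000, nat_lit 5, nat_lit 68, nat_lit 1000, nat_lit 111, nat_lit 1000, nat_lit 114817, nat_lit 298, nat_lit 43350, nat_lit 266, nat_lit 59448396, nat_lit 0, nat_lit 0, nat_lit 2227898, false, false⟩,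
 nat_lit 0, nat_lit 14685, nat_lit 0, nat_lit 0, nat_lit 7584, nat_lit 0, nat_lit 113, nat_lit 0, nat_lit 0, nat_lit 0, nat_lit 0, nat_lit 0, nat_lit 0, nat_lit 36307095430499, nat_lit 115, nat_lit 1000000, nat_lit 0, nat_lit 0, [(nat_lit 3, [(nat_lit 6, nat_lit 1000)])],
 ⟨p027_k8, nat_lit 0, nat_lit 0, nat_lit 197, nat_lit 0, nat_lit 190672, [nat_lit 3341142858, nat_lit 23600000], [], [nat_lit 9907085320, nat_lit 10230371296, nat_lit 9065244484, nat_lit 8945953664, nat_lit 12949311028, nat_lit 11983496212, nat_lit 13198087892, nat_lit 12239333780], nat_lit 1271250, nat_lit 1271250, nat_lit 111251, nat_lit 230001, nat_lit 1100001, nat_lit 1442500, [nat_lit 1412500, nat_lit 1271250], [nat_lit 51, nat_lit 40, nat_lit 20, nat_lit 80, nat_lit 1, nat_lit 345, nat_lit 125, nat_lit 10]⟩, C1.Rw.none,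
 ⟨nat_lit 6324, nat_lit 6423, ⟨.ofNat (nat_lit 125505), .ofNat (nat_lit 167115), .ofNat (nat_lit 168268), .ofNat (nat_lit 209879), .ofNat (nat_lit 129809), .ofNat (nat_lit 170942), .ofNat (nat_lit 172545), .ofNat (nat_lit 213677)⟩, ⟨.ofNat (nat_lit 224342), .ofNat (nat_lit 307563), .ofNat (nat_lit 245724), .ofNat (nat_lit 328945), .ofNat (nat_lit 225423), .ofNat (nat_lit 307688), .ofNat (nat_lit 246791), .ofNat (nat_lit 329055)⟩⟩, []⟩
noncomputable def p027_l77 : Lf2 := ⟨nat_lit 0, nat_lit 5, [nat_lit 4, nat_lit 5, nat_lit 5, nat_lit 20], true, nat_lit 160, nat_lit 200, nat_lit 0, nat_lit 320, ⟨nat_lit 0, nat_lit 0, nat_lit 1000, nat_lit 5, nat_lit 91, nat_lit 1000, nat_lit 110, nat_lit 1000, nat_lit 114817, nat_lit 298, nat_lit 77067, nat_lit 283, nat_lit 57955914, nat_lit 0, nat_lit 0, nat_lit 2584528, false, false⟩,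
 nat_lit 0, nat_lit 19839, nat_lit 0, nat_lit 0, nat_lit 9488, nat_lit 0, nat_lit 0, nat_lit 0, nat_lit 0, nat_lit 0, nat_lit 0, nat_lit 0, nat_lit 0, nat_lit 29588472126198, nat_lit 115, nat_lit 1000000, nat_lit 0, nat_lit 0, [(nat_lit 3, [(nat_lit 6, nat_lit 1000)])],
 ⟨p027_k5, nat_lit 0, nat_lit 0, nat_lit 196, nat_lit 0, nat_lit 208593, [nat_lit 3341142858, nat_lit 23600000], [], [nat_lit 9502145620, nat_lit 7927642048, nat_lit 10744938132, nat_lit 6000065440, nat_lit 14276056500, nat_lit 10037212016, nat_lit 15656965828, nat_lit 10928213044], nat_lit 1271250, nat_lit 1271250, nat_lit 230001, nat_lit 490000, nat_lit 1100001, nat_lit 1442500, [nat_lit 1412500, nat_lit 1271250], [nat_lit 51, nat_lit 40, nat_lit 20, nat_lit 80, nat_lit 1, nat_lit 373, nat_lit 150, nat_lit 11]⟩, C1.Rw.none,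
 ⟨nat_lit 6324, nat_lit 6709, ⟨.ofNat (nat_lit 155377), .ofNat (nat_lit 241532), .ofNat (nat_lit 198253), .ofNat (nat_lit 284409), .ofNat (nat_lit 170942), .ofNat (nat_lit 253206), .ofNat (nat_lit 213677), .ofNat (nat_lit 295942)⟩, ⟨.ofNat (nat_lit 220898), .ofNat (nat_lit 307053), .ofNat (nat_lit 242336), .ofNat (nat_lit 328491), .ofNat (nat_lit 225423), .ofNat (nat_lit 307688), .ofNat (nat_lit 246791), .ofNat (nat_lit 329055)⟩⟩, []⟩
noncomputable def p027_l78 : Lf2 := ⟨nat_lit 0, nat_lit 5, [nat_lit 4, nat_lit 5, nat_lit 5, nat_lit 20], false, nat_lit 160, nat_lit 200, nat_lit 0, nat_lit 320, ⟨nat_lit 0, nat_lit 0, nat_lit 1000, nat_lit 5, nat_lit 124, nat_lit 1000, nat_lit 110, nat_lit 1000, nat_lit 114817, nat_lit 298, nat_lit 144150, nat_lit 308, nat_lit 55359623, nat_lit 0, nat_lit 0, nat_lit 3093134, false, false⟩,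
 nat_lit 0, nat_lit 34157, nat_lit 0, nat_lit 0, nat_lit 16335, nat_lit 0, nat_lit 0, nat_lit 0, nat_lit 0, nat_lit 0, nat_lit 0, nat_lit 0, nat_lit 0, nat_lit 48661457068001, nat_lit 115, nat_lit 1000000, nat_lit 1510899320, nat_lit 0, [(nat_lit 3, [(nat_lit 6, nat_lit 1000)])],
 ⟨p027_k5, nat_lit 0, nat_lit 0, nat_lit 176, nat_lit 0, nat_lit 208593, [nat_lit 3341142858, nat_lit 23600000], [], [nat_lit 3478887256, nat_lit 1179029240, nat_lit 7189597506, nat_lit 0, nat_lit 10947016451, nat_lit 5903381160, nat_lit 14888621926, nat_lit 6862877056], nat_lit 1271250, nat_lit 1271250, nat_lit 490000, nat_lit 780000, nat_lit 1100001, nat_lit 1442500, [nat_lit 1412500, nat_lit 1271250], [nat_lit 51, nat_lit 40, nat_lit 20, nat_lit 80, nat_lit 1, nat_lit 373, nat_lit 150, nat_lit 11]⟩, ⟨p027_k15, nat_lit 0, nat_lit 0, nat_lit 381, nat_lit 0, nat_lit 237491, [nat_lit 0, nat_lit 0], [], [nat_lit 0, nat_lit 0, nat_lit 0, nat_lit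 0, nat_lit 0, nat_lit 0, nat_lit 0, nat_lit 0], nat_lit 1271250, nat_lit 1271250, nat_lit 490000, nat_lit 780000, nat_lit 0, nat_lit 2260000, [nat_lit 1412500, nat_lit 1271250], [nat_lit 107, nat_lit 40, nat_lit 20, nat_lit 80, nat_lit 12, nat_lit 401, nat_lit 175, nat_lit 11]⟩,
 ⟨nat_lit 6324, nat_lit 6709, ⟨.ofNat (nat_lit 241532), .ofNat (nat_lit 327688), .ofNat (nat_lit 284409), .ofNat (nat_lit 370564), .ofNat (nat_lit 253206), .ofNat (nat_lit 335470), .ofNat (nat_lit 295942), .ofNat (nat_lit 378206)⟩, ⟨.ofNat (nat_lit 220898), .ofNat (nat_lit 307053), .ofNat (nat_lit 242336), .ofNat (nat_lit 328491), .ofNat (nat_lit 225423), .ofNat (nat_lit 307688), .ofNat (nat_lit 246791), .ofNat (nat_lit 329055)⟩⟩, []⟩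
noncomputable def b_VL_500_500_5_21 : St := ⟨true, nat_lit 1, nat_lit 1, nat_lit 1, nat_lit 40, nat_lit 220, nat_lit 240, nat_lit 200, nat_lit 240, nat_lit 0, nat_lit 120, nat_lit 20, nat_lit 40, nat_lit 160, nat_lit 200, nat_lit 0, nat_lit 320, nat_lit 0, nat_lit 20, nat_lit 0, nat_lit 0, nat_lit 0, nat_lit 0⟩
theorem d_VL_500_500_5_21 (h : EB TB.env) : Dead b_VL_500_500_5_21 := chkB_sound0 h (T :=
(.spl (nat_lit 2) (nat_lit 80)
(.spl (nat_lit 2) (nat_lit 40)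
(.spl (nat_lit 2) (nat_lit 20)
(.spl (nat_lit 0) (nat_lit 230)
(.ord (.spl (nat_lit 6) (nat_lit 8)
(.spl (nat_lit 4) (nat_lit 180)
(.spl (nat_lit 0) (nat_lit 225)
(.ord (.leaf p027_l64))
(.leaf p027_l65))
(.trX (nat_lit 23) (nat_lit 100) (nat_lit 86) (nat_lit 44) (nat_lit 308) (.leaf p027_l66)))
(.leaf p027_l67)))
(.spl (nat_lit 6) (nat_lit 8)
(.spl (nat_lit 1) (nat_lit 220)
(.leaf p027_l68)
(.trZ (nat_lit 0) (nat_lit 100) (nat_lit 99) (nat_lit 25) (nat_lit 4) (.trX (nat_lit 19) (nat_lit 100) (nat_lit 86) (nat_lit 60) (nat_lit 304) (.spl (nat_lit 4) (nat_lit 180)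
(.spl (nat_lit 0) (nat_lit 235)
(.ord (.leaf p027_l69))
(.spl (nat_lit 0) (nat_lit 238)
(.ord (.leaf p027_l70))
(.trZ (nat_lit 0) (nat_lit 100) (nat_lit 99) (nat_lit 29) (nat_lit 8) (.leaf p027_l71))))
(.leaf p027_l72)))))
(.leaf p027_l73)))
(.spl (nat_lit 0) (nat_lit 230)
(.ord (.leaf p027_l74))
(.spl (nat_lit 0) (nat_lit 235)
(.ord (.leaf p027_l75))
(.leaf p027_l76))))
(.leaf p027_l77))
(.leaf p027_l78))) (by decide +kernel)
noncomputable def p027_l79 : Lf2 := ⟨nat_lit 0, nat_lit 2, [nat_lit 10, nat_lit 5, nat_lit 5, nat_lit 20], true, nat_lit 200, nat_lit 240, nat_lit 0, nat_lit 256, ⟨nat_lit 0, nat_lit 0, nat_lit 1000, nat_lit 5, nat_lit 43, nat_lit 1000, nat_lit 144, nat_lit 1000, nat_lit 194400, nat_lit 323, nat_lit 18150, nat_lit 248, nat_lit 57903854, nat_lit 0, nat_lit 0, nat_lit 2346661, false, false⟩,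
 nat_lit 0, nat_lit 11226, nat_lit 0, nat_lit 0, nat_lit 5653, nat_lit 0, nat_lit 0, nat_lit 0, nat_lit 0, nat_lit 0, nat_lit 0, nat_lit 0, nat_lit 0, nat_lit 0, nat_lit 53, nat_lit 1000000, nat_lit 0, nat_lit 0, [(nat_lit 3, [(nat_lit 6, nat_lit 1000)])],
 ⟨p027_k0, nat_lit 0, nat_lit 0, nat_lit 185, nat_lit 0, nat_lit 138079, [nat_lit 2101142858, nat_lit 11600000], [], [nat_lit 13593467682, nat_lit 13845986911, nat_lit 13115795500, nat_lit 13367907956, nat_lit 15525597726, nat_lit 15894258919, nat_lit 14769209924, nat_lit 15136497199], nat_lit 1271250, nat_lit 1271250, nat_lit 0, nat_lit 43600, nat_lit 1271250, nat_lit 1271250, [nat_lit 1412500, nat_lit 1271250], [nat_lit 26, nat_lit 40, nat_lit 20, nat_lit 80, nat_lit 2, nat_lit 345, nat_lit 125, nat_lit 11]⟩, C1.Rw.none,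
 ⟨nat_lit 6422, nat_lit 6520, ⟨.ofNat (nat_lit 79059), .ofNat (nat_lit 95896), .ofNat (nat_lit 116505), .ofNat (nat_lit 133343), .ofNat (nat_lit 83894), .ofNat (nat_lit 100538), .ofNat (nat_lit 121312), .ofNat (nat_lit 137956)⟩, ⟨.ofNat (nat_lit 307416), .ofNat (nat_lit 391604), .ofNat (nat_lit 328814), .ofNat (nat_lit 413002), .ofNat (nat_lit 307563), .ofNat (nat_lit 390784), .ofNat (nat_lit 328945), .ofNat (nat_lit 412166)⟩⟩, [⟨nat_lit 0, nat_lit 100, nat_lit 99, nat_lit 25, nat_lit 2950561182⟩]⟩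
noncomputable def p027_l80 : Lf2 := ⟨nat_lit 0, nat_lit 2, [nat_lit 10, nat_lit 5, nat_lit 5, nat_lit 20], true, nat_lit 200, nat_lit 240, nat_lit 0, nat_lit 288, ⟨nat_lit 0, nat_lit 0, nat_lit 1000, nat_lit 5, nat_lit 51, nat_lit 1000, nat_lit 144, nat_lit 1000, nat_lit 194400, nat_lit 323, nat_lit 24067, nat_lit 253, nat_lit 57518299, nat_lit 0, nat_lit 0, nat_lit 2464247, false, false⟩,
 nat_lit 0, nat_lit 11140, nat_lit 0, nat_lit 0, nat_lit 5610, nat_lit 0, nat_lit 0, nat_lit 0, nat_lit 0, nat_lit 0, nat_lit 0, nat_lit 0, nat_lit 0, nat_lit 23535238560885, nat_lit 53, nat_lit 1000000, nat_lit 0, nat_lit 0, [(nat_lit 3, [(nat_lit 6, nat_lit 1000)])],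
 ⟨p027_k0, nat_lit 0, nat_lit 0, nat_lit 180, nat_lit 0, nat_lit 118871, [nat_lit 2101142858, nat_lit 11600000], [], [nat_lit 13183707864, nat_lit 13334493707, nat_lit 12473805731, nat_lit 12624225649, nat_lit 14833024676, nat_lit 14969276404, nat_lit 14121807176, nat_lit 14257783875], nat_lit 1271250, nat_lit 1271250, nat_lit 43600, nat_lit 111251, nat_lit 1271250, nat_lit 1271250, [nat_lit 1412500, nat_lit 1271250], [nat_lit 26, nat_lit 40, nat_lit 20, nat_lit 80, nat_lit 2, nat_lit 345, nat_lit 125, nat_lit 11]⟩, C1.Rw.none,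
 ⟨nat_lit 6461, nat_lit 6520, ⟨.ofNat (nat_lit 95896), .ofNat (nat_lit 121153), .ofNat (nat_lit 131203), .ofNat (nat_lit 156460), .ofNat (nat_lit 98688), .ofNat (nat_lit 123770), .ofNat (nat_lit 133978), .ofNat (nat_lit 159060)⟩, ⟨.ofNat (nat_lit 307416), .ofNat (nat_lit 391604), .ofNat (nat_lit 328814), .ofNat (nat_lit 413002), .ofNat (nat_lit 307507), .ofNat (nat_lit 391113), .ofNat (nat_lit 328895), .ofNat (nat_lit 412501)⟩⟩, [⟨nat_lit 0, nat_lit 100, nat_lit 100, nat_lit 33, nat_lit 400168867⟩]⟩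
noncomputable def p027_l81 : Lf2 := ⟨nat_lit 0, nat_lit 2, [nat_lit 10, nat_lit 5, nat_lit 5, nat_lit 20], true, nat_lit 200, nat_lit 240, nat_lit 0, nat_lit 288, ⟨nat_lit 0, nat_lit 0, nat_lit 1000, nat_lit 5, nat_lit 52, nat_lit 1000, nat_lit 144, nat_lit 1000, nat_lit 194400, nat_lit 323, nat_lit 25350, nat_lit 254, nat_lit 57454827, nat_lit 0, nat_lit 0, nat_lit 2483829, false, false⟩,
 nat_lit 0, nat_lit 10916, nat_lit 0, nat_lit 0, nat_lit 5581, nat_lit 0, nat_lit 0, nat_lit 0, nat_lit 0, nat_lit 0, nat_lit 0, nat_lit 0, nat_lit 0, nat_lit 23189923959660, nat_lit 53, nat_lit 1000000, nat_lit 0, nat_lit 0, [(nat_lit 3, [(nat_lit 6, nat_lit 1000)])],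
 ⟨p027_k20, nat_lit 0, nat_lit 0, nat_lit 179, nat_lit 0, nat_lit 135717, [nat_lit 2101142858, nat_lit 11600000], [], [nat_lit 13379970248, nat_lit 13480277596, nat_lit 12674157610, nat_lit 12774221084, nat_lit 15012048228, nat_lit 15102705358, nat_lit 14304996808, nat_lit 14395470425], nat_lit 1271250, nat_lit 1271250, nat_lit 43600, nat_lit 111251, nat_lit 1271250, nat_lit 1271250, [nat_lit 1412500, nat_lit 1271250], [nat_lit 26, nat_lit 40, nat_lit 20, nat_lit 80, nat_lit 2, nat_lit 345, nat_lit 125, nat_lit 11]⟩, C1.Rw.none,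
 ⟨nat_lit 6422, nat_lit 6462, ⟨.ofNat (nat_lit 98688), .ofNat (nat_lit 123770), .ofNat (nat_lit 136117), .ofNat (nat_lit 161199), .ofNat (nat_lit 100538), .ofNat (nat_lit 125505), .ofNat (nat_lit 137956), .ofNat (nat_lit 162923)⟩, ⟨.ofNat (nat_lit 307507), .ofNat (nat_lit 391113), .ofNat (nat_lit 328895), .ofNat (nat_lit 412501), .ofNat (nat_lit 307563), .ofNat (nat_lit 390784), .ofNat (nat_lit 328945), .ofNat (nat_lit 412166)⟩⟩, [⟨nat_lit 0, nat_lit 100, nat_lit 100, nat_lit 35, nat_lit 398243012⟩]⟩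
noncomputable def b_VL_500_500_5_22 : St := ⟨true, nat_lit 1, nat_lit 1, nat_lit 1, nat_lit 40, nat_lit 230, nat_lit 235, nat_lit 200, nat_lit 240, nat_lit 0, nat_lit 20, nat_lit 20, nat_lit 40, nat_lit 200, nat_lit 240, nat_lit 0, nat_lit 288, nat_lit 0, nat_lit 8, nat_lit 0, nat_lit 0, nat_lit 0, nat_lit 0⟩
theorem d_VL_500_500_5_22 (h : EB TB.env) : Dead b_VL_500_500_5_22 := chkB_sound0 h (T :=
(.ord (.spl (nat_lit 2) (nat_lit 8)
(.trX (nat_lit 23) (nat_lit 100) (nat_lit 96) (nat_lit 28) (nat_lit 256) (.leaf p027_l79))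
(.spl (nat_lit 0) (nat_lit 233)
(.ord (.leaf p027_l80))
(.leaf p027_l81))))) (by decide +kernel)
noncomputable def p027_l82 : Lf2 := ⟨nat_lit 0, nat_lit 1, [nat_lit 19, nat_lit 5, nat_lit 5, nat_lit 20], true, nat_lit 220, nat_lit 240, nat_lit 0, nat_lit 272, ⟨nat_lit 0, nat_lit 0, nat_lit 1000, nat_lit 5, nat_lit 60, nat_lit 1000, nat_lit 152, nat_lit 1000, nat_lit 216600, nat_lit 329, nat_lit 33750, nat_lit 260, nat_lit 56287361, nat_lit 0, nat_lit 0, nat_lit 2712755, false, false⟩,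
 nat_lit 0, nat_lit 10725, nat_lit 0, nat_lit 0, nat_lit 5539, nat_lit 0, nat_lit 0, nat_lit 0, nat_lit 0, nat_lit 0, nat_lit 0, nat_lit 0, nat_lit 0, nat_lit 0, nat_lit 53, nat_lit 1000000, nat_lit 0, nat_lit 0, [(nat_lit 3, [(nat_lit 6, nat_lit 1000)])],
 ⟨p027_k21, nat_lit 0, nat_lit 0, nat_lit 169, nat_lit 0, nat_lit 146240, [nat_lit 2101142858, nat_lit 11600000], [], [nat_lit 14355110226, nat_lit 14497905726, nat_lit 13654906758, nat_lit 13797381627, nat_lit 15164393899, nat_lit 15299994307, nat_lit 14463590687, nat_lit 14598915478], nat_lit 1271250, nat_lit 1271250, nat_lit 43600, nat_lit 111251, nat_lit 1271250, nat_lit 1271250, [nat_lit 1412500, nat_lit 1271250], [nat_lit 26, nat_lit 40, nat_lit 20, nat_lit 80, nat_lit 2, nat_lit 345, nat_lit 125, nat_lit 11]⟩, C1.Rw.none,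
 ⟨nat_lit 6363, nat_lit 6423, ⟨.ofNat (nat_lit 132611), .ofNat (nat_lit 157577), .ofNat (nat_lit 137956), .ofNat (nat_lit 162923), .ofNat (nat_lit 135359), .ofNat (nat_lit 160153), .ofNat (nat_lit 140702), .ofNat (nat_lit 165496)⟩, ⟨.ofNat (nat_lit 349174), .ofNat (nat_lit 390784), .ofNat (nat_lit 370555), .ofNat (nat_lit 412166), .ofNat (nat_lit 348963), .ofNat (nat_lit 390286), .ofNat (nat_lit 370337), .ofNat (nat_lit 411659)⟩⟩, [⟨nat_lit 0, nat_lit 100, nat_lit 100, nat_lit 36, nat_lit 399839501⟩]⟩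
noncomputable def p027_l83 : Lf2 := ⟨nat_lit 0, nat_lit 1, [nat_lit 19, nat_lit 5, nat_lit 5, nat_lit 20], true, nat_lit 220, nat_lit 240, nat_lit 0, nat_lit 272, ⟨nat_lit 0, nat_lit 0, nat_lit 1000, nat_lit 5, nat_lit 61, nat_lit 1000, nat_lit 152, nat_lit 1000, nat_lit 216600, nat_lit 329, nat_lit 33750, nat_lit 260, nat_lit 56249104, nat_lit 0, nat_lit 0, nat_lit 2724790, false, false⟩,
 nat_lit 0, nat_lit 10513, nat_lit 0, nat_lit 0, nat_lit 5511, nat_lit 0, nat_lit 0, nat_lit 0, nat_lit 0, nat_lit 0, nat_lit 0, nat_lit 0, nat_lit 0, nat_lit 0, nat_lit 53, nat_lit 1000000, nat_lit 0, nat_lit 0, [(nat_lit 3, [(nat_lit 6, nat_lit 1000)])],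
 ⟨p027_k22, nat_lit 0, nat_lit 0, nat_lit 168, nat_lit 0, nat_lit 153131, [nat_lit 2101142858, nat_lit 11600000], [], [nat_lit 14540032986, nat_lit 14635039827, nat_lit 13843803663, nat_lit 13938596709, nat_lit 15340863142, nat_lit 15431092175, nat_lit 14644071895, nat_lit 14734117028], nat_lit 1271250, nat_lit 1271250, nat_lit 43600, nat_lit 111251, nat_lit 1271250, nat_lit 1271250, [nat_lit 1412500, nat_lit 1271250], [nat_lit 26, nat_lit 40, nat_lit 20, nat_lit 80, nat_lit 2, nat_lit 345, nat_lit 125, nat_lit 11]⟩, C1.Rw.none,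
 ⟨nat_lit 6324, nat_lit 6364, ⟨.ofNat (nat_lit 135359), .ofNat (nat_lit 160153), .ofNat (nat_lit 140702), .ofNat (nat_lit 165496), .ofNat (nat_lit 137182), .ofNat (nat_lit 161861), .ofNat (nat_lit 142524), .ofNat (nat_lit 167203)⟩, ⟨.ofNat (nat_lit 348963), .ofNat (nat_lit 390286), .ofNat (nat_lit 370337), .ofNat (nat_lit 411659), .ofNat (nat_lit 348820), .ofNat (nat_lit 389952), .ofNat (nat_lit 370188), .ofNat (nat_lit 411320)⟩⟩, [⟨nat_lit 0, nat_lit 100, nat_lit 100, nat_lit 37, nat_lit 397496274⟩]⟩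
noncomputable def b_VL_500_500_5_23 : St := ⟨true, nat_lit 1, nat_lit 1, nat_lit 1, nat_lit 40, nat_lit 235, nat_lit 240, nat_lit 230, nat_lit 235, nat_lit 8, nat_lit 20, nat_lit 20, nat_lit 40, nat_lit 220, nat_lit 240, nat_lit 0, nat_lit 272, nat_lit 0, nat_lit 4, nat_lit 0, nat_lit 0, nat_lit 0, nat_lit 0⟩
theorem d_VL_500_500_5_23 (h : EB TB.env) : Dead b_VL_500_500_5_23 := chkB_sound0 h (T :=
(.spl (nat_lit 0) (nat_lit 238)
(.leaf p027_l82)
(.leaf p027_l83))) (by decide +kernel)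
noncomputable def p027_l84 : Lf2 := ⟨nat_lit 0, nat_lit 1, [nat_lit 19, nat_lit 5, nat_lit 5, nat_lit 20], true, nat_lit 220, nat_lit 240, nat_lit 0, nat_lit 272, ⟨nat_lit 0, nat_lit 0, nat_lit 1000, nat_lit 5, nat_lit 62, nat_lit 1000, nat_lit 152, nat_lit 1000, nat_lit 216600, nat_lit 329, nat_lit 36817, nat_lit 262, nat_lit 56136837, nat_lit 0, nat_lit 0, nat_lit 2753457, false, false⟩,
 nat_lit 0, nat_lit 10917, nat_lit 0, nat_lit 0, nat_lit 5638, nat_lit 0, nat_lit 0, nat_lit 0, nat_lit 0, nat_lit 0, nat_lit 0, nat_lit 0, nat_lit 0, nat_lit 27111486110551, nat_lit 53, nat_lit 1000000, nat_lit 0, nat_lit 0, [(nat_lit 3, [(nat_lit 6, nat_lit 1000)])],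
 ⟨p027_k21, nat_lit 0, nat_lit 0, nat_lit 167, nat_lit 0, nat_lit 141473, [nat_lit 2101142858, nat_lit 11600000], [], [nat_lit 13966688819, nat_lit 14014587892, nat_lit 13489762965, nat_lit 13537590834, nat_lit 14780330629, nat_lit 14825802958, nat_lit 14303021498, nat_lit 14348432761], nat_lit 1271250, nat_lit 1271250, nat_lit 65850, nat_lit 111251, nat_lit 1271250, nat_lit 1271250, [nat_lit 1412500, nat_lit 1271250], [nat_lit 26, nat_lit 40, nat_lit 20, nat_lit 80, nat_lit 2, nat_lit 345, nat_lit 125, nat_lit 11]⟩, C1.Rw.none,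
 ⟨nat_lit 6403, nat_lit 6423, ⟨.ofNat (nat_lit 146279), .ofNat (nat_lit 162923), .ofNat (nat_lit 147348), .ofNat (nat_lit 163992), .ofNat (nat_lit 147176), .ofNat (nat_lit 163782), .ofNat (nat_lit 148245), .ofNat (nat_lit 164851)⟩, ⟨.ofNat (nat_lit 349174), .ofNat (nat_lit 390784), .ofNat (nat_lit 370555), .ofNat (nat_lit 412166), .ofNat (nat_lit 349104), .ofNat (nat_lit 390619), .ofNat (nat_lit 370483), .ofNat (nat_lit 411997)⟩⟩, [⟨nat_lit 0, nat_lit 100, nat_lit 100, nat_lit 36, nat_lit 407999641⟩]⟩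
noncomputable def p027_l85 : Lf2 := ⟨nat_lit 0, nat_lit 1, [nat_lit 19, nat_lit 5, nat_lit 5, nat_lit 20], false, nat_lit 220, nat_lit 240, nat_lit 0, nat_lit 160, ⟨nat_lit 1000, nat_lit 0, nat_lit 0, nat_lit 0, nat_lit 0, nat_lit 0, nat_lit 0, nat_lit 0, nat_lit 0, nat_lit 0, nat_lit 0, nat_lit 0, nat_lit 0, nat_lit 0, nat_lit 0, nat_lit 0, false, false⟩,
 nat_lit 19189, nat_lit 2062, nat_lit 0, nat_lit 0, nat_lit 11030, nat_lit 9910, nat_lit 2862, nat_lit 0, nat_lit 0, nat_lit 3336, nat_lit 0, nat_lit 0, nat_lit 0, nat_lit 0, nat_lit 0, nat_lit 0, nat_lit 0, nat_lit 0, [],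
 ⟨p027_k23, nat_lit 0, nat_lit 0, nat_lit 167, nat_lit 0, nat_lit 145368, [nat_lit 6250000000, nat_lit 7968000000], [], [nat_lit 16007489925, nat_lit 16073699933, nat_lit 15493305122, nat_lit 15559480823, nat_lit 17154717878, nat_lit 17228660455, nat_lit 16551222623, nat_lit 16613162213], nat_lit 1271250, nat_lit 1271250, nat_lit 65850, nat_lit 88400, nat_lit 1271250, nat_lit 1271250, [nat_lit 1412500, nat_lit 1271250], [nat_lit 26, nat_lit 40, nat_lit 20, nat_lit 80, nat_lit 2, nat_lit 345, nat_lit 125, nat_lit 11]⟩, ⟨p027_k21, nat_lit 0, nat_lit 0, nat_lit 277, nat_lit 0, nat_lit 146186, [nat_lit 6250000000, nat_lit 7968000000], [], [nat_lit 20454288281, nat_lit 20533405600, nat_lit 19903647608, nat_lit 19982784970, nat_lit 15513697612, nat_lit 15256807421, nat_lit 15475354011, nat_lit 15218848923], nat_lit 1271250, nat_lit 1271250, nat_lit 65850, nat_lit 88400, nat_lit 0, nat_lit 1100001, [nat_lit 1412500, nat_lit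 1271250], [nat_lit 26, nat_lit 40, nat_lit 20, nat_lit 80, nat_lit 2, nat_lit 345, nat_lit 125, nat_lit 12]⟩,
 zbF0, [⟨nat_lit 0, nat_lit 100, nat_lit 100, nat_lit 36, nat_lit 1978152757⟩]⟩
noncomputable def p027_l86 : Lf2 := ⟨nat_lit 0, nat_lit 1, [nat_lit 19, nat_lit 5, nat_lit 5, nat_lit 20], false, nat_lit 220, nat_lit 240, nat_lit 160, nat_lit 200, ⟨nat_lit 1000, nat_lit 0, nat_lit 0, nat_lit 0, nat_lit 0, nat_lit 0, nat_lit 0, nat_lit 0, nat_lit 0, nat_lit 0, nat_lit 0, nat_lit 0, nat_lit 0, nat_lit 0, nat_lit 0, nat_lit 0, false, false⟩,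
 nat_lit 28601, nat_lit 0, nat_lit 0, nat_lit 0, nat_lit 11115, nat_lit 14771, nat_lit 2924, nat_lit 0, nat_lit 0, nat_lit 3044, nat_lit 0, nat_lit 0, nat_lit 0, nat_lit 0, nat_lit 0, nat_lit 0, nat_lit 0, nat_lit 0, [],
 ⟨p027_k23, nat_lit 0, nat_lit 0, nat_lit 167, nat_lit 0, nat_lit 145368, [nat_lit 6250000000, nat_lit 7968000000], [], [nat_lit 15874680385, nat_lit 15941179048, nat_lit 15356149637, nat_lit 15422614014, nat_lit 17154923092, nat_lit 17265385484, nat_lit 16417959120, nat_lit 16480158783], nat_lit 1271250, nat_lit 1271250, nat_lit 65850, nat_lit 88400, nat_lit 1271250, nat_lit 1271250, [nat_lit 1412500, nat_lit 1271250], [nat_lit 26, nat_lit 40, nat_lit 20, nat_lit 80, nat_lit 2, nat_lit 345, nat_lit 125, nat_lit 11]⟩, ⟨p027_k21, nat_lit 0, nat_lit 0, nat_lit 197, nat_lit 0, nat_lit 146186, [nat_lit 6250000000, nat_lit 7968000000], [], [nat_lit 9508429032, nat_lit 9679154370, nat_lit 8479692463, nat_lit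 8594100797, nat_lit 14207409018, nat_lit 14194616700, nat_lit 14128068219, nat_lit 13751296198], nat_lit 1271250, nat_lit 1271250, nat_lit 65850, nat_lit 88400, nat_lit 1100001, nat_lit 1442500, [nat_lit 1412500, nat_lit 1271250], [nat_lit 26, nat_lit 40, nat_lit 20, nat_lit 80, nat_lit 2, nat_lit 345, nat_lit 125, nat_lit 11]⟩,
 zbF0, [⟨nat_lit 0, nat_lit 100, nat_lit 100, nat_lit 36, nat_lit 1904427558⟩]⟩
noncomputable def p027_l87 : Lf2 := ⟨nat_lit 0, nat_lit 1, [nat_lit 19, nat_lit 5, nat_lit 5, nat_lit 20], false, nat_lit 220, nat_lit 240, nat_lit 200, nat_lit 260, ⟨nat_lit 825, nat_lit 0, nat_lit 175, nat_lit 5, nat_lit 61, nat_lit 175, nat_lit 152, nat_lit 175, nat_lit 216600, nat_lit 329, nat_lit 35267, nat_lit 261, nat_lit 56215375, nat_lit 0, nat_lit 0, nat_lit 2732596, false, false⟩,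
 nat_lit 17123, nat_lit 2465, nat_lit 0, nat_lit 0, nat_lit 10167, nat_lit 8843, nat_lit 2263, nat_lit 0, nat_lit 0, nat_lit 2461, nat_lit 0, nat_lit 0, nat_lit 0, nat_lit 0, nat_lit 0, nat_lit 175000, nat_lit 0, nat_lit 0, [(nat_lit 3, [(nat_lit 6, nat_lit 175)])],
 ⟨p027_k23, nat_lit 0, nat_lit 0, nat_lit 167, nat_lit 0, nat_lit 145368, [nat_lit 5338450000, nat_lit 6353030000], [], [nat_lit 15587918227, nat_lit 15663016010, nat_lit 15071062914, nat_lit 15126447068, nat_lit 16787248039, nat_lit 16857701294, nat_lit 16222543876, nat_lit 16293034467], nat_lit 1271250, nat_lit 1271250, nat_lit 65850, nat_lit 88400, nat_lit 1271250, nat_lit 1271250, [nat_lit 1412500, nat_lit 1271250], [nat_lit 26, nat_lit 40, nat_lit 20, nat_lit 80, nat_lit 2, nat_lit 345, nat_lit 125, nat_lit 11]⟩, ⟨p027_k21, nat_lit 0, nat_lit 0, nat_lit 177, nat_lit 0, nat_lit 146186, [nat_lit 5156250000, nat_lit 6573600000], [], [nat_lit 12697678007,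 nat_lit 12747693587, nat_lit 12285589107, nat_lit 12335585464, nat_lit 16371937349, nat_lit 16453771009, nat_lit 15747587581, nat_lit 15829559450], nat_lit 1271250, nat_lit 1271250, nat_lit 65850, nat_lit 88400, nat_lit 1271250, nat_lit 1271250, [nat_lit 1412500, nat_lit 1271250], [nat_lit 26, nat_lit 40, nat_lit 20, nat_lit 80, nat_lit 2, nat_lit 373, nat_lit 150, nat_lit 12]⟩,
 ⟨nat_lit 6383, nat_lit 6404, ⟨.ofNat (nat_lit 147176), .ofNat (nat_lit 155479), .ofNat (nat_lit 148245), .ofNat (nat_lit 156548), .ofNat (nat_lit 148073), .ofNat (nat_lit 156356), .ofNat (nat_lit 149141), .ofNat (nat_lit 157425)⟩, ⟨.ofNat (nat_lit 349104), .ofNat (nat_lit 390619), .ofNat (nat_lit 370483), .ofNat (nat_lit 411997), .ofNat (nat_lit 349034), .ofNat (nat_lit 390453), .ofNat (nat_lit 370410), .ofNat (nat_lit 411829)⟩⟩, [⟨nat_lit 0, nat_lit 100, nat_lit 100, nat_lit 36, nat_lit 884366695⟩, ⟨nat_lit 23, nat_lit 100, nat_lit 99, nat_lit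 37, nat_lit 1277841151⟩]⟩
noncomputable def p027_l88 : Lf2 := ⟨nat_lit 0, nat_lit 1, [nat_lit 19, nat_lit 5, nat_lit 5, nat_lit 20], false, nat_lit 220, nat_lit 240, nat_lit 0, nat_lit 160, ⟨nat_lit 1000, nat_lit 0, nat_lit 0, nat_lit 0, nat_lit 0, nat_lit 0, nat_lit 0, nat_lit 0, nat_lit 0, nat_lit 0, nat_lit 0, nat_lit 0, nat_lit 0, nat_lit 0, nat_lit 0, nat_lit 0, false, false⟩,
 nat_lit 21273, nat_lit 0, nat_lit 0, nat_lit 0, nat_lit 11041, nat_lit 9868, nat_lit 2862, nat_lit 0, nat_lit 0, nat_lit 3273, nat_lit 0, nat_lit 0, nat_lit 0, nat_lit 0, nat_lit 0, nat_lit 0, nat_lit 0, nat_lit 0, [],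
 ⟨p027_k23, nat_lit 0, nat_lit 0, nat_lit 167, nat_lit 0, nat_lit 150026, [nat_lit 6250000000, nat_lit 7968000000], [], [nat_lit 15990302808, nat_lit 16056550172, nat_lit 15475555589, nat_lit 15541768648, nat_lit 17149792253, nat_lit 17233413106, nat_lit 16533976758, nat_lit 16606490384], nat_lit 1271250, nat_lit 1271250, nat_lit 65850, nat_lit 88400, nat_lit 1271250, nat_lit 1271250, [nat_lit 1412500, nat_lit 1271250], [nat_lit 26, nat_lit 40, nat_lit 20, nat_lit 80, nat_lit 2, nat_lit 345, nat_lit 125, nat_lit 11]⟩, ⟨p027_k23, nat_lit 0, nat_lit 0, nat_lit 277, nat_lit 0, nat_lit 150026, [nat_lit 6250000000, nat_lit 7968000000], [], [nat_lit 20524396409, nat_lit 20607040699, nat_lit 19976311091, nat_lit 20055248122, nat_lit 15326192644, nat_lit 15070391191, nat_lit 15288777300, nat_lit 15033359317], nat_lit 1271250, nat_lit 1271250, nat_lit 65850, nat_lit 88400, nat_lit 0, nat_lit 1100001, [nat_lit 1412500, nat_lit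 1271250], [nat_lit 26, nat_lit 40, nat_lit 20, nat_lit 80, nat_lit 2, nat_lit 345, nat_lit 125, nat_lit 12]⟩,
 zbF0, [⟨nat_lit 0, nat_lit 100, nat_lit 100, nat_lit 36, nat_lit 2280957249⟩]⟩
noncomputable def p027_l89 : Lf2 := ⟨nat_lit 0, nat_lit 1, [nat_lit 19, nat_lit 5, nat_lit 5, nat_lit 20], false, nat_lit 220, nat_lit 240, nat_lit 160, nat_lit 200, ⟨nat_lit 1000, nat_lit 0, nat_lit 0, nat_lit 0, nat_lit 0, nat_lit 0, nat_lit 0, nat_lit 0, nat_lit 0, nat_lit 0, nat_lit 0, nat_lit 0, nat_lit 0, nat_lit 0, nat_lit 0, nat_lit 0, false, false⟩,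
 nat_lit 27800, nat_lit 0, nat_lit 0, nat_lit 0, nat_lit 11115, nat_lit 14429, nat_lit 2924, nat_lit 0, nat_lit 0, nat_lit 3124, nat_lit 0, nat_lit 0, nat_lit 0, nat_lit 0, nat_lit 0, nat_lit 0, nat_lit 0, nat_lit 0, [],
 ⟨p027_k23, nat_lit 0, nat_lit 0, nat_lit 167, nat_lit 0, nat_lit 150026, [nat_lit 6250000000, nat_lit 7968000000], [], [nat_lit 15874680385, nat_lit 15941179048, nat_lit 15356149637, nat_lit 15422614014, nat_lit 17154923092, nat_lit 17265385484, nat_lit 16417959120, nat_lit 16480158783], nat_lit 1271250, nat_lit 1271250, nat_lit 65850, nat_lit 88400, nat_lit 1271250, nat_lit 1271250, [nat_lit 1412500, nat_lit 1271250], [nat_lit 26, nat_lit 40, nat_lit 20, nat_lit 80, nat_lit 2, nat_lit 345, nat_lit 125, nat_lit 11]⟩, ⟨p027_k23, nat_lit 0, nat_lit 0, nat_lit 197, nat_lit 0, nat_lit 150026, [nat_lit 6250000000, nat_lit 7968000000], [], [nat_lit 9677933759, nat_lit 9845617028, nat_lit 8619789716, nat_lit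 8786320272, nat_lit 14273892929, nat_lit 14271423284, nat_lit 14199022283, nat_lit 13830973844], nat_lit 1271250, nat_lit 1271250, nat_lit 65850, nat_lit 88400, nat_lit 1100001, nat_lit 1442500, [nat_lit 1412500, nat_lit 1271250], [nat_lit 26, nat_lit 40, nat_lit 20, nat_lit 80, nat_lit 2, nat_lit 345, nat_lit 125, nat_lit 11]⟩,
 zbF0, [⟨nat_lit 0, nat_lit 100, nat_lit 100, nat_lit 37, nat_lit 1897154633⟩]⟩
noncomputable def p027_l90 : Lf2 := ⟨nat_lit 0, nat_lit 1, [nat_lit 19, nat_lit 5, nat_lit 5, nat_lit 20], false, nat_lit 220, nat_lit 240, nat_lit 200, nat_lit 260, ⟨nat_lit 854, nat_lit 0, nat_lit 146, nat_lit 5, nat_lit 61, nat_lit 146, nat_lit 152, nat_lit 146, nat_lit 216600, nat_lit 329, nat_lit 35267, nat_lit 261, nat_lit 56191242, nat_lit 0, nat_lit 0, nat_lit 2739204, false, false⟩,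
 nat_lit 19961, nat_lit 0, nat_lit 0, nat_lit 0, nat_lit 10360, nat_lit 9169, nat_lit 2360, nat_lit 0, nat_lit 0, nat_lit 2478, nat_lit 0, nat_lit 0, nat_lit 0, nat_lit 0, nat_lit 0, nat_lit 146000, nat_lit 0, nat_lit 0, [(nat_lit 3, [(nat_lit 6, nat_lit 146)])],
 ⟨p027_k23, nat_lit 0, nat_lit 0, nat_lit 167, nat_lit 0, nat_lit 150026, [nat_lit 5489506858, nat_lit 6620653600], [], [nat_lit 15618278112, nat_lit 15694208284, nat_lit 15060437153, nat_lit 15117327035, nat_lit 16833768077, nat_lit 16939180818, nat_lit 16252710634, nat_lit 16323958376], nat_lit 1271250, nat_lit 1271250, nat_lit 65850, nat_lit 88400, nat_lit 1271250, nat_lit 1271250, [nat_lit 1412500, nat_lit 1271250], [nat_lit 26, nat_lit 40, nat_lit 20, nat_lit 80, nat_lit 2, nat_lit 345, nat_lit 125, nat_lit 11]⟩, ⟨p027_k23, nat_lit 0, nat_lit 0, nat_lit 177, nat_lit 0, nat_lit 150026, [nat_lit 5337500000, nat_lit 6804672000], [], [nat_lit 13177685112,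 nat_lit 13229504662, nat_lit 12750315217, nat_lit 12802891535, nat_lit 17041673515, nat_lit 17126474276, nat_lit 16394391363, nat_lit 16479335470], nat_lit 1271250, nat_lit 1271250, nat_lit 65850, nat_lit 88400, nat_lit 1271250, nat_lit 1271250, [nat_lit 1412500, nat_lit 1271250], [nat_lit 26, nat_lit 40, nat_lit 20, nat_lit 80, nat_lit 2, nat_lit 373, nat_lit 150, nat_lit 12]⟩,
 ⟨nat_lit 6383, nat_lit 6404, ⟨.ofNat (nat_lit 148245), .ofNat (nat_lit 156548), .ofNat (nat_lit 149314), .ofNat (nat_lit 157617), .ofNat (nat_lit 149141), .ofNat (nat_lit 157425), .ofNat (nat_lit 150210), .ofNat (nat_lit 158494)⟩, ⟨.ofNat (nat_lit 349104), .ofNat (nat_lit 390619), .ofNat (nat_lit 370483), .ofNat (nat_lit 411997), .ofNat (nat_lit 349034), .ofNat (nat_lit 390453), .ofNat (nat_lit 370410), .ofNat (nat_lit 411829)⟩⟩, [⟨nat_lit 0, nat_lit 100, nat_lit 100, nat_lit 37, nat_lit 926358526⟩, ⟨nat_lit 23, nat_lit 100, nat_lit 99, nat_lit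 37, nat_lit 1334692321⟩]⟩
noncomputable def p027_l91 : Lf2 := ⟨nat_lit 0, nat_lit 1, [nat_lit 19, nat_lit 5, nat_lit 5, nat_lit 20], true, nat_lit 220, nat_lit 240, nat_lit 0, nat_lit 272, ⟨nat_lit 0, nat_lit 0, nat_lit 1000, nat_lit 5, nat_lit 64, nat_lit 1000, nat_lit 152, nat_lit 1000, nat_lit 216600, nat_lit 329, nat_lit 38400, nat_lit 263, nat_lit 56013743, nat_lit 0, nat_lit 0, nat_lit 2787138, false, false⟩,
 nat_lit 0, nat_lit 10973, nat_lit 0, nat_lit 0, nat_lit 5695, nat_lit 0, nat_lit 0, nat_lit 0, nat_lit 0, nat_lit 0, nat_lit 0, nat_lit 0, nat_lit 0, nat_lit 0, nat_lit 53, nat_lit 1000000, nat_lit 0, nat_lit 0, [(nat_lit 3, [(nat_lit 6, nat_lit 1000)])],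
 ⟨p027_k23, nat_lit 0, nat_lit 0, nat_lit 165, nat_lit 0, nat_lit 150026, [nat_lit 2101142858, nat_lit 11600000], [], [nat_lit 13684114508, nat_lit 13732171562, nat_lit 13442701640, nat_lit 13490723105, nat_lit 14497752922, nat_lit 14543369120, nat_lit 14256158289, nat_lit 14301744005], nat_lit 1271250, nat_lit 1271250, nat_lit 88400, nat_lit 111251, nat_lit 1271250, nat_lit 1271250, [nat_lit 1412500, nat_lit 1271250], [nat_lit 26, nat_lit 40, nat_lit 20, nat_lit 80, nat_lit 2, nat_lit 345, nat_lit 125, nat_lit 11]⟩, C1.Rw.none,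
 ⟨nat_lit 6383, nat_lit 6404, ⟨.ofNat (nat_lit 155479), .ofNat (nat_lit 163782), .ofNat (nat_lit 157617), .ofNat (nat_lit 165920), .ofNat (nat_lit 156356), .ofNat (nat_lit 164640), .ofNat (nat_lit 158494), .ofNat (nat_lit 166778)⟩, ⟨.ofNat (nat_lit 349104), .ofNat (nat_lit 390619), .ofNat (nat_lit 370483), .ofNat (nat_lit 411997), .ofNat (nat_lit 349034), .ofNat (nat_lit 390453), .ofNat (nat_lit 370410), .ofNat (nat_lit 411829)⟩⟩, []⟩
noncomputable def p027_l92 : Lf2 := ⟨nat_lit 0, nat_lit 1, [nat_lit 19, nat_lit 5, nat_lit 5, nat_lit 20], false, nat_lit 220, nat_lit 240, nat_lit 0, nat_lit 160, ⟨nat_lit 1000, nat_lit 0, nat_lit 0, nat_lit 0, nat_lit 0, nat_lit 0, nat_lit 0, nat_lit 0, nat_lit 0, nat_lit 0, nat_lit 0, nat_lit 0, nat_lit 0, nat_lit 0, nat_lit 0, nat_lit 0, false, false⟩,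
 nat_lit 19359, nat_lit 1762, nat_lit 0, nat_lit 0, nat_lit 11017, nat_lit 9998, nat_lit 2774, nat_lit 0, nat_lit 0, nat_lit 3212, nat_lit 0, nat_lit 0, nat_lit 0, nat_lit 0, nat_lit 0, nat_lit 0, nat_lit 0, nat_lit 0, [],
 ⟨p027_k24, nat_lit 0, nat_lit 0, nat_lit 166, nat_lit 0, nat_lit 149217, [nat_lit 6250000000, nat_lit 7968000000], [], [nat_lit 16093967834, nat_lit 16160133695, nat_lit 15580413394, nat_lit 15646544944, nat_lit 17248127193, nat_lit 17332850627, nat_lit 16633503914, nat_lit 16706216606], nat_lit 1271250, nat_lit 1271250, nat_lit 65850, nat_lit 88400, nat_lit 1271250, nat_lit 1271250, [nat_lit 1412500, nat_lit 1271250], [nat_lit 26, nat_lit 40, nat_lit 20, nat_lit 80, nat_lit 2, nat_lit 345, nat_lit 125, nat_lit 11]⟩, ⟨p027_k21, nat_lit 0, nat_lit 0, nat_lit 278, nat_lit 0, nat_lit 150898, [nat_lit 6250000000, nat_lit 7968000000], [], [nat_lit 20573981162, nat_lit 20660149232, nat_lit 20018027903,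 nat_lit 20097585003, nat_lit 15370600214, nat_lit 15111428859, nat_lit 15331115156, nat_lit 15072332323], nat_lit 1271250, nat_lit 1271250, nat_lit 65850, nat_lit 88400, nat_lit 0, nat_lit 1100001, [nat_lit 1412500, nat_lit 1271250], [nat_lit 26, nat_lit 40, nat_lit 20, nat_lit 80, nat_lit 2, nat_lit 345, nat_lit 125, nat_lit 12]⟩,
 zbF0, [⟨nat_lit 0, nat_lit 100, nat_lit 100, nat_lit 36, nat_lit 2288905907⟩]⟩
noncomputable def p027_l93 : Lf2 := ⟨nat_lit 0, nat_lit 1, [nat_lit 19, nat_lit 5, nat_lit 5, nat_lit 20], false, nat_lit 220, nat_lit 240, nat_lit 160, nat_lit 200, ⟨nat_lit 1000, nat_lit 0, nat_lit 0, nat_lit 0, nat_lit 0, nat_lit 0, nat_lit 0, nat_lit 0, nat_lit 0, nat_lit 0, nat_lit 0, nat_lit 0, nat_lit 0, nat_lit 0, nat_lit 0, nat_lit 0, false, false⟩,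
 nat_lit 28607, nat_lit 0, nat_lit 0, nat_lit 0, nat_lit 11090, nat_lit 14774, nat_lit 2834, nat_lit 0, nat_lit 0, nat_lit 3043, nat_lit 0, nat_lit 0, nat_lit 0, nat_lit 0, nat_lit 0, nat_lit 0, nat_lit 0, nat_lit 0, [],
 ⟨p027_k24, nat_lit 0, nat_lit 0, nat_lit 166, nat_lit 0, nat_lit 149217, [nat_lit 6250000000, nat_lit 7968000000], [], [nat_lit 15980155779, nat_lit 16046569544, nat_lit 15462868958, nat_lit 15529248429, nat_lit 17254584005, nat_lit 17364879190, nat_lit 16519277439, nat_lit 16581400610], nat_lit 1271250, nat_lit 1271250, nat_lit 65850, nat_lit 88400, nat_lit 1271250, nat_lit 1271250, [nat_lit 1412500, nat_lit 1271250], [nat_lit 26, nat_lit 40, nat_lit 20, nat_lit 80, nat_lit 2, nat_lit 345, nat_lit 125, nat_lit 11]⟩, ⟨p027_k21, nat_lit 0, nat_lit 0, nat_lit 198, nat_lit 0, nat_lit 150898, [nat_lit 6250000000, nat_lit 7968000000], [], [nat_lit 9508413054, nat_lit 9679165077, nat_lit 8478840507, nat_lit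 8593265368, nat_lit 14203592553, nat_lit 14195260110, nat_lit 14124217320, nat_lit 13747368776], nat_lit 1271250, nat_lit 1271250, nat_lit 65850, nat_lit 88400, nat_lit 1100001, nat_lit 1442500, [nat_lit 1412500, nat_lit 1271250], [nat_lit 26, nat_lit 40, nat_lit 20, nat_lit 80, nat_lit 2, nat_lit 345, nat_lit 125, nat_lit 11]⟩,
 zbF0, [⟨nat_lit 0, nat_lit 100, nat_lit 100, nat_lit 37, nat_lit 1900241011⟩]⟩
noncomputable def p027_l94 : Lf2 := ⟨nat_lit 0, nat_lit 1, [nat_lit 19, nat_lit 5, nat_lit 5, nat_lit 20], false, nat_lit 220, nat_lit 240, nat_lit 200, nat_lit 260, ⟨nat_lit 835, nat_lit 0, nat_lit 165, nat_lit 5, nat_lit 61, nat_lit 165, nat_lit 152, nat_lit 165, nat_lit 216600, nat_lit 329, nat_lit 35267, nat_lit 261, nat_lit 56199893, nat_lit 0, nat_lit 0, nat_lit 2737414, false, false⟩,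
 nat_lit 17304, nat_lit 2243, nat_lit 0, nat_lit 0, nat_lit 10196, nat_lit 8937, nat_lit 2226, nat_lit 0, nat_lit 0, nat_lit 2491, nat_lit 0, nat_lit 0, nat_lit 0, nat_lit 0, nat_lit 0, nat_lit 165000, nat_lit 0, nat_lit 0, [(nat_lit 3, [(nat_lit 6, nat_lit 165)])],
 ⟨p027_k24, nat_lit 0, nat_lit 0, nat_lit 166, nat_lit 0, nat_lit 149217, [nat_lit 5390538572, nat_lit 6445314000], [], [nat_lit 15703482058, nat_lit 15778704916, nat_lit 15190099510, nat_lit 15246806177, nat_lit 16899869371, nat_lit 16972638979, nat_lit 16333460191, nat_lit 16404064551], nat_lit 1271250, nat_lit 1271250, nat_lit 65850, nat_lit 88400, nat_lit 1271250, nat_lit 1271250, [nat_lit 1412500, nat_lit 1271250], [nat_lit 26, nat_lit 40, nat_lit 20, nat_lit 80, nat_lit 2, nat_lit 345, nat_lit 125, nat_lit 11]⟩, ⟨p027_k21, nat_lit 0, nat_lit 0, nat_lit 178, nat_lit 0, nat_lit 150898, [nat_lit 5218750000, nat_lit 6653280000], [], [nat_lit 12870966744,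 nat_lit 12922227168, nat_lit 12454557714, nat_lit 12506642908, nat_lit 16562173079, nat_lit 16644919891, nat_lit 15931237786, nat_lit 16014124237], nat_lit 1271250, nat_lit 1271250, nat_lit 65850, nat_lit 88400, nat_lit 1271250, nat_lit 1271250, [nat_lit 1412500, nat_lit 1271250], [nat_lit 26, nat_lit 40, nat_lit 20, nat_lit 80, nat_lit 2, nat_lit 373, nat_lit 150, nat_lit 12]⟩,
 ⟨nat_lit 6363, nat_lit 6384, ⟨.ofNat (nat_lit 148073), .ofNat (nat_lit 156356), .ofNat (nat_lit 149141), .ofNat (nat_lit 157425), .ofNat (nat_lit 148967), .ofNat (nat_lit 157231), .ofNat (nat_lit 150036), .ofNat (nat_lit 158300)⟩, ⟨.ofNat (nat_lit 349034), .ofNat (nat_lit 390453), .ofNat (nat_lit 370410), .ofNat (nat_lit 411829), .ofNat (nat_lit 348963), .ofNat (nat_lit 390286), .ofNat (nat_lit 370337), .ofNat (nat_lit 411659)⟩⟩, [⟨nat_lit 0, nat_lit 100, nat_lit 100, nat_lit 37, nat_lit 884774888⟩, ⟨nat_lit 23, nat_lit 100, nat_lit 99, nat_lit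 37, nat_lit 1284409997⟩]⟩
noncomputable def p027_l95 : Lf2 := ⟨nat_lit 0, nat_lit 1, [nat_lit 19, nat_lit 5, nat_lit 5, nat_lit 20], false, nat_lit 220, nat_lit 240, nat_lit 0, nat_lit 80, ⟨nat_lit 782, nat_lit 0, nat_lit 218, nat_lit 5, nat_lit 62, nat_lit 218, nat_lit 152, nat_lit 218, nat_lit 216600, nat_lit 329, nat_lit 35267, nat_lit 261, nat_lit 56175696, nat_lit 0, nat_lit 0, nat_lit 2744021, false, false⟩,
 nat_lit 18996, nat_lit 0, nat_lit 0, nat_lit 0, nat_lit 9909, nat_lit 9860, nat_lit 2161, nat_lit 0, nat_lit 0, nat_lit 676, nat_lit 0, nat_lit 0, nat_lit 0, nat_lit 0, nat_lit 0, nat_lit 218000, nat_lit 0, nat_lit 0, [(nat_lit 3, [(nat_lit 6, nat_lit 218)])],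
 ⟨p027_k24, nat_lit 0, nat_lit 0, nat_lit 167, nat_lit 0, nat_lit 153823, [nat_lit 5114469143, nat_lit 5956208800], [], [nat_lit 15550354832, nat_lit 15612757986, nat_lit 15093450792, nat_lit 15155819369, nat_lit 16744322137, nat_lit 16846718463, nat_lit 16096181034, nat_lit 16154690723], nat_lit 1271250, nat_lit 1271250, nat_lit 65850, nat_lit 88400, nat_lit 1271250, nat_lit 1271250, [nat_lit 1412500, nat_lit 1271250], [nat_lit 26, nat_lit 40, nat_lit 20, nat_lit 80, nat_lit 2, nat_lit 345, nat_lit 125, nat_lit 11]⟩, ⟨p027_k23, nat_lit 0, nat_lit 0, nat_lit 277, nat_lit 0, nat_lit 154685, [nat_lit 4887500000, nat_lit 6230976000], [], [nat_lit 19171238822, nat_lit 19265432792, nat_lit 18469613793, nat_lit 18563954003, nat_lit 17665404399, nat_lit 17420801857, nat_lit 17651926500, nat_lit 17407674777], nat_lit 1271250, nat_lit 1271250, nat_lit 65850, nat_lit 88400, nat_lit 0, nat_lit 490000, [nat_lit 1412500, nat_lit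 1271250], [nat_lit 26, nat_lit 40, nat_lit 20, nat_lit 80, nat_lit 2, nat_lit 317, nat_lit 100, nat_lit 11]⟩,
 ⟨nat_lit 6363, nat_lit 6384, ⟨.ofNat (nat_lit 149141), .ofNat (nat_lit 157425), .ofNat (nat_lit 150210), .ofNat (nat_lit 158494), .ofNat (nat_lit 150036), .ofNat (nat_lit 158300), .ofNat (nat_lit 151104), .ofNat (nat_lit 159369)⟩, ⟨.ofNat (nat_lit 349034), .ofNat (nat_lit 390453), .ofNat (nat_lit 370410), .ofNat (nat_lit 411829), .ofNat (nat_lit 348963), .ofNat (nat_lit 390286), .ofNat (nat_lit 370337), .ofNat (nat_lit 411659)⟩⟩, [⟨nat_lit 0, nat_lit 100, nat_lit 100, nat_lit 37, nat_lit 1551103561⟩]⟩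
noncomputable def p027_l96 : Lf2 := ⟨nat_lit 0, nat_lit 1, [nat_lit 19, nat_lit 5, nat_lit 5, nat_lit 20], false, nat_lit 220, nat_lit 240, nat_lit 80, nat_lit 160, ⟨nat_lit 1000, nat_lit 0, nat_lit 0, nat_lit 0, nat_lit 0, nat_lit 0, nat_lit 0, nat_lit 0, nat_lit 0, nat_lit 0, nat_lit 0, nat_lit 0, nat_lit 0, nat_lit 0, nat_lit 0, nat_lit 0, false, false⟩,
 nat_lit 26600, nat_lit 0, nat_lit 0, nat_lit 0, nat_lit 11106, nat_lit 13806, nat_lit 2838, nat_lit 0, nat_lit 0, nat_lit 3379, nat_lit 0, nat_lit 0, nat_lit 0, nat_lit 0, nat_lit 0, nat_lit 0, nat_lit 0, nat_lit 0, [],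
 ⟨p027_k24, nat_lit 0, nat_lit 0, nat_lit 167, nat_lit 0, nat_lit 153823, [nat_lit 6250000000, nat_lit 7968000000], [], [nat_lit 15955210672, nat_lit 16021678772, nat_lit 15437105793, nat_lit 15503539604, nat_lit 17261496951, nat_lit 17371899149, nat_lit 16494241499, nat_lit 16586997349], nat_lit 1271250, nat_lit 1271250, nat_lit 65850, nat_lit 88400, nat_lit 1271250, nat_lit 1271250, [nat_lit 1412500, nat_lit 1271250], [nat_lit 26, nat_lit 40, nat_lit 20, nat_lit 80, nat_lit 2, nat_lit 345, nat_lit 125, nat_lit 11]⟩, ⟨p027_k23, nat_lit 0, nat_lit 0, nat_lit 237, nat_lit 0, nat_lit 154685, [nat_lit 6250000000, nat_lit 7968000000], [], [nat_lit 10186420869, nat_lit 10364600427, nat_lit 9111270752, nat_lit 9276658471, nat_lit 9675710247, nat_lit 9837851968, nat_lit 8732159464, nat_lit 8826543711], nat_lit 1271250, nat_lit 1271250, nat_lit 65850, nat_lit 88400, nat_lit 490000, nat_lit 1100001, [nat_lit 1412500, nat_lit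 1271250], [nat_lit 26, nat_lit 40, nat_lit 20, nat_lit 80, nat_lit 2, nat_lit 345, nat_lit 125, nat_lit 12]⟩,
 zbF0, [⟨nat_lit 0, nat_lit 100, nat_lit 100, nat_lit 37, nat_lit 3062330396⟩]⟩
noncomputable def p027_l97 : Lf2 := ⟨nat_lit 0, nat_lit 1, [nat_lit 19, nat_lit 5, nat_lit 5, nat_lit 20], false, nat_lit 220, nat_lit 240, nat_lit 160, nat_lit 200, ⟨nat_lit 1000, nat_lit 0, nat_lit 0, nat_lit 0, nat_lit 0, nat_lit 0, nat_lit 0, nat_lit 0, nat_lit 0, nat_lit 0, nat_lit 0, nat_lit 0, nat_lit 0, nat_lit 0, nat_lit 0, nat_lit 0, false, false⟩,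
 nat_lit 27801, nat_lit 0, nat_lit 0, nat_lit 0, nat_lit 11090, nat_lit 14430, nat_lit 2834, nat_lit 0, nat_lit 0, nat_lit 1858, nat_lit 0, nat_lit 0, nat_lit 0, nat_lit 0, nat_lit 0, nat_lit 0, nat_lit 0, nat_lit 0, [],
 ⟨p027_k24, nat_lit 0, nat_lit 0, nat_lit 167, nat_lit 0, nat_lit 153823, [nat_lit 6250000000, nat_lit 7968000000], [], [nat_lit 15980155779, nat_lit 16046569544, nat_lit 15462868958, nat_lit 15529248429, nat_lit 17254584005, nat_lit 17364879190, nat_lit 16519277439, nat_lit 16581400610], nat_lit 1271250, nat_lit 1271250, nat_lit 65850, nat_lit 88400, nat_lit 1271250, nat_lit 1271250, [nat_lit 1412500, nat_lit 1271250], [nat_lit 26, nat_lit 40, nat_lit 20, nat_lit 80, nat_lit 2, nat_lit 345, nat_lit 125, nat_lit 11]⟩, ⟨p027_k23, nat_lit 0, nat_lit 0, nat_lit 197, nat_lit 0, nat_lit 154685, [nat_lit 6250000000, nat_lit 7968000000], [], [nat_lit 11270622706, nat_lit 11383115580, nat_lit 10438919573,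 nat_lit 10551449420, nat_lit 14272595228, nat_lit 14272882417, nat_lit 14197713142, nat_lit 13829639196], nat_lit 1271250, nat_lit 1271250, nat_lit 65850, nat_lit 88400, nat_lit 1100001, nat_lit 1442500, [nat_lit 1412500, nat_lit 1271250], [nat_lit 26, nat_lit 40, nat_lit 20, nat_lit 80, nat_lit 2, nat_lit 345, nat_lit 125, nat_lit 11]⟩,
 zbF0, [⟨nat_lit 0, nat_lit 100, nat_lit 100, nat_lit 37, nat_lit 1892937696⟩]⟩
noncomputable def p027_l98 : Lf2 := ⟨nat_lit 0, nat_lit 1, [nat_lit 19, nat_lit 5, nat_lit 5, nat_lit 20], false, nat_lit 220, nat_lit 240, nat_lit 200, nat_lit 260, ⟨nat_lit 869, nat_lit 0, nat_lit 131, nat_lit 5, nat_lit 62, nat_lit 131, nat_lit 152, nat_lit 131, nat_lit 216600, nat_lit 329, nat_lit 35267, nat_lit 261, nat_lit 56175696, nat_lit 0, nat_lit 0, nat_lit 2744021, false, false⟩,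
 nat_lit 17834, nat_lit 2148, nat_lit 0, nat_lit 0, nat_lit 10423, nat_lit 9256, nat_lit 2335, nat_lit 0, nat_lit 0, nat_lit 2515, nat_lit 0, nat_lit 0, nat_lit 0, nat_lit 0, nat_lit 0, nat_lit 131000, nat_lit 0, nat_lit 0, [(nat_lit 3, [(nat_lit 6, nat_lit 131)])],
 ⟨p027_k24, nat_lit 0, nat_lit 0, nat_lit 167, nat_lit 0, nat_lit 153823, [nat_lit 5567639715, nat_lit 6759079600], [], [nat_lit 15742051212, nat_lit 15818253096, nat_lit 15179535521, nat_lit 15236444685, nat_lit 16966400545, nat_lit 17072234648, nat_lit 16371713702, nat_lit 16443208597], nat_lit 1271250, nat_lit 1271250, nat_lit 65850, nat_lit 88400, nat_lit 1271250, nat_lit 1271250, [nat_lit 1412500, nat_lit 1271250], [nat_lit 26, nat_lit 40, nat_lit 20, nat_lit 80, nat_lit 2, nat_lit 345, nat_lit 125, nat_lit 11]⟩, ⟨p027_k23, nat_lit 0, nat_lit 0, nat_lit 177, nat_lit 0, nat_lit 154685, [nat_lit 5431250000, nat_lit 6924192000], [], [nat_lit 13528434082,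 nat_lit 13580939804, nat_lit 13097347005, nat_lit 13150364212, nat_lit 17294448888, nat_lit 17380296826, nat_lit 16641311994, nat_lit 16727304430], nat_lit 1271250, nat_lit 1271250, nat_lit 65850, nat_lit 88400, nat_lit 1271250, nat_lit 1271250, [nat_lit 1412500, nat_lit 1271250], [nat_lit 26, nat_lit 40, nat_lit 20, nat_lit 80, nat_lit 2, nat_lit 373, nat_lit 150, nat_lit 12]⟩,
 ⟨nat_lit 6363, nat_lit 6384, ⟨.ofNat (nat_lit 149141), .ofNat (nat_lit 157425), .ofNat (nat_lit 150210), .ofNat (nat_lit 158494), .ofNat (nat_lit 150036), .ofNat (nat_lit 158300), .ofNat (nat_lit 151104), .ofNat (nat_lit 159369)⟩, ⟨.ofNat (nat_lit 349034), .ofNat (nat_lit 390453), .ofNat (nat_lit 370410), .ofNat (nat_lit 411829), .ofNat (nat_lit 348963), .ofNat (nat_lit 390286), .ofNat (nat_lit 370337), .ofNat (nat_lit 411659)⟩⟩, [⟨nat_lit 0, nat_lit 100, nat_lit 100, nat_lit 37, nat_lit 1018217628⟩, ⟨nat_lit 23, nat_lit 100, nat_lit 99, nat_lit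 37, nat_lit 1321095814⟩]⟩
noncomputable def p027_l99 : Lf2 := ⟨nat_lit 0, nat_lit 1, [nat_lit 19, nat_lit 5, nat_lit 5, nat_lit 20], true, nat_lit 220, nat_lit 240, nat_lit 0, nat_lit 260, ⟨nat_lit 0, nat_lit 0, nat_lit 1000, nat_lit 5, nat_lit 62, nat_lit 1000, nat_lit 152, nat_lit 1000, nat_lit 216600, nat_lit 329, nat_lit 36817, nat_lit 262, nat_lit 56151421, nat_lit 0, nat_lit 0, nat_lit 2750627, false, false⟩,
 nat_lit 0, nat_lit 9353, nat_lit 0, nat_lit 0, nat_lit 4878, nat_lit 0, nat_lit 125, nat_lit 0, nat_lit 0, nat_lit 0, nat_lit 0, nat_lit 0, nat_lit 0, nat_lit 21965593256405, nat_lit 21, nat_lit 1000000, nat_lit 0, nat_lit 0, [(nat_lit 3, [(nat_lit 6, nat_lit 1000)])],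
 ⟨p027_k25, nat_lit 0, nat_lit 0, nat_lit 0, nat_lit 0, nat_lit 158428, [nat_lit 1315028572, nat_lit 12000000], [], [nat_lit 13601067478, nat_lit 13646292742, nat_lit 13401347384, nat_lit 13446537163, nat_lit 14570632503, nat_lit 14639380093, nat_lit 14273626724, nat_lit 14320655429], nat_lit 1271250, nat_lit 1271250, nat_lit 65850, nat_lit 88400, nat_lit 1271250, nat_lit 1271250, [nat_lit 1271250, nat_lit 1271250], [nat_lit 155, nat_lit 40, nat_lit 20, nat_lit 40]⟩, C1.Rw.none,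
 ⟨nat_lit 6363, nat_lit 6384, ⟨.ofNat (nat_lit 150210), .ofNat (nat_lit 158494), .ofNat (nat_lit 151279), .ofNat (nat_lit 159563), .ofNat (nat_lit 151104), .ofNat (nat_lit 159369), .ofNat (nat_lit 152173), .ofNat (nat_lit 160437)⟩, ⟨.ofNat (nat_lit 349034), .ofNat (nat_lit 390453), .ofNat (nat_lit 370410), .ofNat (nat_lit 411829), .ofNat (nat_lit 348963), .ofNat (nat_lit 390286), .ofNat (nat_lit 370337), .ofNat (nat_lit 411659)⟩⟩, [⟨nat_lit 0, nat_lit 100, nat_lit 100, nat_lit 38, nat_lit 510614682⟩]⟩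
noncomputable def p027_l100 : Lf2 := ⟨nat_lit 0, nat_lit 1, [nat_lit 19, nat_lit 5, nat_lit 5, nat_lit 20], true, nat_lit 220, nat_lit 240, nat_lit 0, nat_lit 260, ⟨nat_lit 0, nat_lit 0, nat_lit 1000, nat_lit 5, nat_lit 62, nat_lit 1000, nat_lit 152, nat_lit 1000, nat_lit 216600, nat_lit 329, nat_lit 36817, nat_lit 262, nat_lit 56151421, nat_lit 0, nat_lit 0, nat_lit 2750627, false, false⟩,
 nat_lit 0, nat_lit 596959, nat_lit 0, nat_lit 0, nat_lit 311399, nat_lit 0, nat_lit 60000, nat_lit 14341, nat_lit 0, nat_lit 0, nat_lit 0, nat_lit 0, nat_lit 0, nat_lit 400000000000000, nat_lit 0, nat_lit 1000000, nat_lit 0, nat_lit 0, [(nat_lit 3, [(nat_lit 6, nat_lit 1000)])],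
 ⟨p027_k24, nat_lit 0, nat_lit 0, nat_lit 167, nat_lit 0, nat_lit 158428, [nat_lit 287861142858, nat_lit 342923600000], [], [nat_lit 115412390710, nat_lit 116786670480, nat_lit 97182627396, nat_lit 98058858207, nat_lit 134286570345, nat_lit 135536654137, nat_lit 115623547578, nat_lit 116875789379], nat_lit 1271250, nat_lit 1271250, nat_lit 65850, nat_lit 88400, nat_lit 1271250, nat_lit 1271250, [nat_lit 1412500, nat_lit 1271250], [nat_lit 26, nat_lit 40, nat_lit 20, nat_lit 80, nat_lit 2, nat_lit 345, nat_lit 125, nat_lit 11]⟩, C1.Rw.none,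
 ⟨nat_lit 6363, nat_lit 6384, ⟨.ofNat (nat_lit 150210), .ofNat (nat_lit 158494), .ofNat (nat_lit 151279), .ofNat (nat_lit 159563), .ofNat (nat_lit 151104), .ofNat (nat_lit 159369), .ofNat (nat_lit 152173), .ofNat (nat_lit 160437)⟩, ⟨.ofNat (nat_lit 349034), .ofNat (nat_lit 390453), .ofNat (nat_lit 370410), .ofNat (nat_lit 411829), .ofNat (nat_lit 348963), .ofNat (nat_lit 390286), .ofNat (nat_lit 370337), .ofNat (nat_lit 411659)⟩⟩, [⟨nat_lit 0, nat_lit 100, nat_lit 100, nat_lit 37, nat_lit 10000000000⟩, ⟨nat_lit 0, nat_lit 100, nat_lit 100, nat_lit 38, nat_lit 10000000000⟩, ⟨nat_lit 0, nat_lit 100, nat_lit 100, nat_lit 37, nat_lit 10000000000⟩, ⟨nat_lit 13, nat_lit 100, nat_lit 1, nat_lit 100, nat_lit 141514909⟩]⟩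
noncomputable def p027_l101 : Lf2 := ⟨nat_lit 0, nat_lit 1, [nat_lit 19, nat_lit 5, nat_lit 5, nat_lit 20], true, nat_lit 220, nat_lit 240, nat_lit 0, nat_lit 272, ⟨nat_lit 0, nat_lit 0, nat_lit 1000, nat_lit 5, nat_lit 65, nat_lit 1000, nat_lit 152, nat_lit 1000, nat_lit 216600, nat_lit 329, nat_lit 40017, nat_lit 264, nat_lit 55998169, nat_lit 0, nat_lit 0, nat_lit 2791831, false, false⟩,
 nat_lit 0, nat_lit 10891, nat_lit 0, nat_lit 0, nat_lit 5680, nat_lit 0, nat_lit 0, nat_lit 0, nat_lit 0, nat_lit 0, nat_lit 0, nat_lit 0, nat_lit 0, nat_lit 0, nat_lit 53, nat_lit 1000000, nat_lit 0, nat_lit 0, [(nat_lit 3, [(nat_lit 6, nat_lit 1000)])],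
 ⟨p027_k24, nat_lit 0, nat_lit 0, nat_lit 165, nat_lit 0, nat_lit 153823, [nat_lit 2101142858, nat_lit 11600000], [], [nat_lit 13756324528, nat_lit 13804330639, nat_lit 13515642999, nat_lit 13563613519, nat_lit 14566840313, nat_lit 14612410616, nat_lit 14325980852, nat_lit 14371520661], nat_lit 1271250, nat_lit 1271250, nat_lit 88400, nat_lit 111251, nat_lit 1271250, nat_lit 1271250, [nat_lit 1412500, nat_lit 1271250], [nat_lit 26, nat_lit 40, nat_lit 20, nat_lit 80, nat_lit 2, nat_lit 345, nat_lit 125, nat_lit 11]⟩, C1.Rw.none,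
 ⟨nat_lit 6363, nat_lit 6384, ⟨.ofNat (nat_lit 156356), .ofNat (nat_lit 164640), .ofNat (nat_lit 158494), .ofNat (nat_lit 166778), .ofNat (nat_lit 157231), .ofNat (nat_lit 165496), .ofNat (nat_lit 159369), .ofNat (nat_lit 167633)⟩, ⟨.ofNat (nat_lit 349034), .ofNat (nat_lit 390453), .ofNat (nat_lit 370410), .ofNat (nat_lit 411829), .ofNat (nat_lit 348963), .ofNat (nat_lit 390286), .ofNat (nat_lit 370337), .ofNat (nat_lit 411659)⟩⟩, []⟩
noncomputable def p027_l102 : Lf2 := ⟨nat_lit 0, nat_lit 1, [nat_lit 19, nat_lit 5, nat_lit 5, nat_lit 20], false, nat_lit 220, nat_lit 240, nat_lit 0, nat_lit 160, ⟨nat_lit 1000, nat_lit 0, nat_lit 0, nat_lit 0, nat_lit 0, nat_lit 0, nat_lit 0, nat_lit 0, nat_lit 0, nat_lit 0, nat_lit 0, nat_lit 0, nat_lit 0, nat_lit 0, nat_lit 0, nat_lit 0, false, false⟩,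
 nat_lit 21260, nat_lit 0, nat_lit 0, nat_lit 0, nat_lit 11090, nat_lit 9927, nat_lit 2834, nat_lit 0, nat_lit 0, nat_lit 3321, nat_lit 0, nat_lit 0, nat_lit 0, nat_lit 0, nat_lit 0, nat_lit 0, nat_lit 0, nat_lit 0, [],
 ⟨p027_k24, nat_lit 0, nat_lit 0, nat_lit 165, nat_lit 0, nat_lit 158428, [nat_lit 6250000000, nat_lit 7968000000], [], [nat_lit 15462868958, nat_lit 15529248429, nat_lit 14945582136, nat_lit 15011927314, nat_lit 16519277439, nat_lit 16581400610, nat_lit 16002272318, nat_lit 16064369973], nat_lit 1271250, nat_lit 1271250, nat_lit 88400, nat_lit 111251, nat_lit 1271250, nat_lit 1271250, [nat_lit 1412500, nat_lit 1271250], [nat_lit 26, nat_lit 40, nat_lit 20, nat_lit 80, nat_lit 2, nat_lit 345, nat_lit 125, nat_lit 11]⟩, ⟨p027_k24, nat_lit 0, nat_lit 0, nat_lit 275, nat_lit 0, nat_lit 158428, [nat_lit 6250000000, nat_lit 7968000000], [], [nat_lit 19812191208, nat_lit 19891890979, nat_lit 19260564522,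 nat_lit 19339803111, nat_lit 14933599472, nat_lit 14676654365, nat_lit 14908962997, nat_lit 14652403653], nat_lit 1271250, nat_lit 1271250, nat_lit 88400, nat_lit 111251, nat_lit 0, nat_lit 1100001, [nat_lit 1412500, nat_lit 1271250], [nat_lit 26, nat_lit 40, nat_lit 20, nat_lit 80, nat_lit 2, nat_lit 345, nat_lit 125, nat_lit 12]⟩,
 zbF0, []⟩
noncomputable def p027_l103 : Lf2 := ⟨nat_lit 0, nat_lit 1, [nat_lit 19, nat_lit 5, nat_lit 5, nat_lit 20], false, nat_lit 220, nat_lit 240, nat_lit 160, nat_lit 240, ⟨nat_lit 529, nat_lit 0, nat_lit 471, nat_lit 5, nat_lit 65, nat_lit 471, nat_lit 152, nat_lit 471, nat_lit 216600, nat_lit 329, nat_lit 40017, nat_lit 264, nat_lit 55960900, nat_lit 0, nat_lit 0, nat_lit 2801724, false, false⟩,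
 nat_lit 16372, nat_lit 0, nat_lit 0, nat_lit 0, nat_lit 8540, nat_lit 8540, nat_lit 1382, nat_lit 0, nat_lit 0, nat_lit 0, nat_lit 0, nat_lit 0, nat_lit 0, nat_lit 0, nat_lit 0, nat_lit 471000, nat_lit 0, nat_lit 0, [(nat_lit 3, [(nat_lit 6, nat_lit 471)])],
 ⟨p027_k24, nat_lit 0, nat_lit 0, nat_lit 165, nat_lit 0, nat_lit 158428, [nat_lit 3796628286, nat_lit 3621423600], [], [nat_lit 14662129805, nat_lit 14719849005, nat_lit 14275220709, nat_lit 14332905004, nat_lit 15602636923, nat_lit 15656957910, nat_lit 15215792880, nat_lit 15270086005], nat_lit 1271250, nat_lit 1271250, nat_lit 88400, nat_lit 111251, nat_lit 1271250, nat_lit 1271250, [nat_lit 1412500, nat_lit 1271250], [nat_lit 26, nat_lit 40, nat_lit 20, nat_lit 80, nat_lit 2, nat_lit 345, nat_lit 125, nat_lit 11]⟩, ⟨p027_k24, nat_lit 0, nat_lit 0, nat_lit 195, nat_lit 0, nat_lit 158428, [nat_lit 3306250000, nat_lit 4215072000], [], [nat_lit 6324108955, nat_lit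 6388631100, nat_lit 5828855854, nat_lit 5893402308, nat_lit 9872664269, nat_lit 9745228142, nat_lit 9846654764, nat_lit 9632343464], nat_lit 1271250, nat_lit 1271250, nat_lit 88400, nat_lit 111251, nat_lit 1100001, nat_lit 1785000, [nat_lit 1412500, nat_lit 1271250], [nat_lit 26, nat_lit 40, nat_lit 20, nat_lit 80, nat_lit 2, nat_lit 345, nat_lit 125, nat_lit 11]⟩,
 ⟨nat_lit 6363, nat_lit 6384, ⟨.ofNat (nat_lit 158494), .ofNat (nat_lit 166778), .ofNat (nat_lit 159563), .ofNat (nat_lit 167846), .ofNat (nat_lit 159369), .ofNat (nat_lit 167633), .ofNat (nat_lit 160437), .ofNat (nat_lit 168702)⟩, ⟨.ofNat (nat_lit 349034), .ofNat (nat_lit 390453), .ofNat (nat_lit 370410), .ofNat (nat_lit 411829), .ofNat (nat_lit 348963), .ofNat (nat_lit 390286), .ofNat (nat_lit 370337), .ofNat (nat_lit 411659)⟩⟩, []⟩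
noncomputable def p027_l104 : Lf2 := ⟨nat_lit 0, nat_lit 1, [nat_lit 19, nat_lit 5, nat_lit 5, nat_lit 20], false, nat_lit 220, nat_lit 240, nat_lit 240, nat_lit 272, ⟨nat_lit 1000, nat_lit 0, nat_lit 0, nat_lit 0, nat_lit 0, nat_lit 0, nat_lit 0, nat_lit 0, nat_lit 0, nat_lit 0, nat_lit 0, nat_lit 0, nat_lit 0, nat_lit 0, nat_lit 0, nat_lit 0, false, false⟩,
 nat_lit 22091, nat_lit 0, nat_lit 0, nat_lit 0, nat_lit 11523, nat_lit 11090, nat_lit 3010, nat_lit 0, nat_lit 0, nat_lit 2834, nat_lit 0, nat_lit 0, nat_lit 0, nat_lit 0, nat_lit 0, nat_lit 0, nat_lit 0, nat_lit 0, [],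
 ⟨p027_k24, nat_lit 0, nat_lit 0, nat_lit 165, nat_lit 0, nat_lit 158428, [nat_lit 6250000000, nat_lit 7968000000], [], [nat_lit 14765653330, nat_lit 14833503349, nat_lit 14226227859, nat_lit 14294043689, nat_lit 16625531363, nat_lit 16738890733, nat_lit 15809397106, nat_lit 15922924634], nat_lit 1271250, nat_lit 1271250, nat_lit 88400, nat_lit 111251, nat_lit 1271250, nat_lit 1271250, [nat_lit 1412500, nat_lit 1271250], [nat_lit 26, nat_lit 40, nat_lit 20, nat_lit 80, nat_lit 2, nat_lit 345, nat_lit 125, nat_lit 11]⟩, ⟨p027_k24, nat_lit 0, nat_lit 0, nat_lit 155, nat_lit 0, nat_lit 158428, [nat_lit 6250000000, nat_lit 7968000000], [], [nat_lit 16519277439, nat_lit 16581400610, nat_lit 16002272318, nat_lit 16064369973, nat_lit 21309016399, nat_lit 21405277271, nat_lit 20524794710, nat_lit 20621238188], nat_lit 1271250, nat_lit 1271250, nat_lit 88400, nat_lit 111251, nat_lit 1271250, nat_lit 1271250, [nat_lit 1412500,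 nat_lit 1271250], [nat_lit 26, nat_lit 40, nat_lit 20, nat_lit 80, nat_lit 2, nat_lit 289, nat_lit 75, nat_lit 9]⟩,
 zbF0, [⟨nat_lit 7, nat_lit 95, nat_lit 100, nat_lit 54, nat_lit 496994243⟩, ⟨nat_lit 11, nat_lit 97, nat_lit 100, nat_lit 42, nat_lit 1708800096⟩]⟩
noncomputable def p027_l105 : Lf2 := ⟨nat_lit 0, nat_lit 1, [nat_lit 19, nat_lit 5, nat_lit 5, nat_lit 20], true, nat_lit 220, nat_lit 240, nat_lit 0, nat_lit 272, ⟨nat_lit 0, nat_lit 0, nat_lit 1000, nat_lit 5, nat_lit 64, nat_lit 1000, nat_lit 152, nat_lit 1000, nat_lit 216600, nat_lit 329, nat_lit 38400, nat_lit 263, nat_lit 56033303, nat_lit 0, nat_lit 0, nat_lit 2783284, false, false⟩,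
 nat_lit 0, nat_lit 9151, nat_lit 0, nat_lit 0, nat_lit 4797, nat_lit 0, nat_lit 83, nat_lit 0, nat_lit 0, nat_lit 0, nat_lit 0, nat_lit 0, nat_lit 0, nat_lit 23591277455781, nat_lit 21, nat_lit 1000000, nat_lit 0, nat_lit 0, [(nat_lit 3, [(nat_lit 6, nat_lit 1000)])],
 ⟨p027_k26, nat_lit 0, nat_lit 0, nat_lit 0, nat_lit 0, nat_lit 175985, [nat_lit 1315028572, nat_lit 12000000], [], [nat_lit 13796999651, nat_lit 13886902519, nat_lit 13405772166, nat_lit 13495532998, nat_lit 14655795249, nat_lit 14741227774, nat_lit 14263327902, nat_lit 14349188980], nat_lit 1271250, nat_lit 1271250, nat_lit 65850, nat_lit 111251, nat_lit 1271250, nat_lit 1271250, [nat_lit 1271250, nat_lit 1271250], [nat_lit 155, nat_lit 40, nat_lit 20, nat_lit 40]⟩, C1.Rw.none,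
 ⟨nat_lit 6324, nat_lit 6364, ⟨.ofNat (nat_lit 148967), .ofNat (nat_lit 165496), .ofNat (nat_lit 154310), .ofNat (nat_lit 170839), .ofNat (nat_lit 150750), .ofNat (nat_lit 167203), .ofNat (nat_lit 156092), .ofNat (nat_lit 172545)⟩, ⟨.ofNat (nat_lit 348963), .ofNat (nat_lit 390286), .ofNat (nat_lit 370337), .ofNat (nat_lit 411659), .ofNat (nat_lit 348820), .ofNat (nat_lit 389952), .ofNat (nat_lit 370188), .ofNat (nat_lit 411320)⟩⟩, [⟨nat_lit 0, nat_lit 100, nat_lit 100, nat_lit 40, nat_lit 353776437⟩]⟩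
noncomputable def p027_l106 : Lf2 := ⟨nat_lit 0, nat_lit 1, [nat_lit 19, nat_lit 5, nat_lit 5, nat_lit 20], true, nat_lit 220, nat_lit 240, nat_lit 0, nat_lit 272, ⟨nat_lit 0, nat_lit 0, nat_lit 1000, nat_lit 5, nat_lit 64, nat_lit 1000, nat_lit 152, nat_lit 1000, nat_lit 216600, nat_lit 329, nat_lit 38400, nat_lit 263, nat_lit 56033303, nat_lit 0, nat_lit 0, nat_lit 2783284, false, false⟩,
 nat_lit 0, nat_lit 1000000, nat_lit 0, nat_lit 44004, nat_lit 524229, nat_lit 0, nat_lit 60000, nat_lit 20000, nat_lit 0, nat_lit 0, nat_lit 0, nat_lit 0, nat_lit 0, nat_lit 400000000000000, nat_lit 0, nat_lit 1000000, nat_lit 0, nat_lit 0, [(nat_lit 3, [(nat_lit 6, nat_lit 1000)])],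
 ⟨p027_k22, nat_lit 0, nat_lit 0, nat_lit 168, nat_lit 0, nat_lit 175985, [nat_lit 401041142858, nat_lit 478739600000], [], [nat_lit 144123518995, nat_lit 148707905420, nat_lit 80989575542, nat_lit 85587639284, nat_lit 175280161463, nat_lit 179447222120, nat_lit 112387299055, nat_lit 116568985040], nat_lit 1271250, nat_lit 1271250, nat_lit 65850, nat_lit 111251, nat_lit 1271250, nat_lit 1271250, [nat_lit 1412500, nat_lit 1271250], [nat_lit 26, nat_lit 40, nat_lit 20, nat_lit 80, nat_lit 2, nat_lit 345, nat_lit 125, nat_lit 11]⟩, C1.Rw.none,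
 ⟨nat_lit 6324, nat_lit 6364, ⟨.ofNat (nat_lit 148967), .ofNat (nat_lit 165496), .ofNat (nat_lit 154310), .ofNat (nat_lit 170839), .ofNat (nat_lit 150750), .ofNat (nat_lit 167203), .ofNat (nat_lit 156092), .ofNat (nat_lit 172545)⟩, ⟨.ofNat (nat_lit 348963), .ofNat (nat_lit 390286), .ofNat (nat_lit 370337), .ofNat (nat_lit 411659), .ofNat (nat_lit 348820), .ofNat (nat_lit 389952), .ofNat (nat_lit 370188), .ofNat (nat_lit 411320)⟩⟩, [⟨nat_lit 0, nat_lit 100, nat_lit 100, nat_lit 38, nat_lit 10000000000⟩, ⟨nat_lit 0, nat_lit 100, nat_lit 100, nat_lit 40, nat_lit 10000000000⟩, ⟨nat_lit 0, nat_lit 100, nat_lit 100, nat_lit 36, nat_lit 10000000000⟩]⟩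
noncomputable def b_VL_500_500_5_24 : St := ⟨true, nat_lit 1, nat_lit 1, nat_lit 1, nat_lit 40, nat_lit 235, nat_lit 240, nat_lit 235, nat_lit 240, nat_lit 8, nat_lit 20, nat_lit 20, nat_lit 40, nat_lit 220, nat_lit 240, nat_lit 0, nat_lit 272, nat_lit 0, nat_lit 4, nat_lit 0, nat_lit 0, nat_lit 0, nat_lit 0⟩
theorem d_VL_500_500_5_24 (h : EB TB.env) : Dead b_VL_500_500_5_24 := chkB_sound0 h (T :=
(.trZ (nat_lit 0) (nat_lit 100) (nat_lit 100) (nat_lit 35) (nat_lit 12) (.spl (nat_lit 0) (nat_lit 238)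
(.ord (.spl (nat_lit 0) (nat_lit 237)
(.ord (.spl (nat_lit 0) (nat_lit 236)
(.ord (.leaf p027_l84))
(.spl (nat_lit 2) (nat_lit 16)
(.trX (nat_lit 23) (nat_lit 100) (nat_lit 96) (nat_lit 39) (nat_lit 260) (.spl (nat_lit 1) (nat_lit 236)
(.spl (nat_lit 5) (nat_lit 160)
(.leaf p027_l85)
(.spl (nat_lit 5) (nat_lit 200)
(.leaf p027_l86)
(.leaf p027_l87)))
(.spl (nat_lit 5) (nat_lit 160)
(.leaf p027_l88)
(.spl (nat_lit 5) (nat_lit 200)
(.leaf p027_l89)
(.leaf p027_l90)))))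
(.leaf p027_l91))))
(.spl (nat_lit 2) (nat_lit 16)
(.trX (nat_lit 23) (nat_lit 100) (nat_lit 96) (nat_lit 39) (nat_lit 260) (.spl (nat_lit 1) (nat_lit 237)
(.spl (nat_lit 1) (nat_lit 236)
(.spl (nat_lit 5) (nat_lit 160)
(.leaf p027_l92)
(.spl (nat_lit 5) (nat_lit 200)
(.leaf p027_l93)
(.leaf p027_l94)))
(.spl (nat_lit 5) (nat_lit 160)
(.spl (nat_lit 5) (nat_lit 80)
(.leaf p027_l95)
(.leaf p027_l96))
(.spl (nat_lit 5) (nat_lit 200)
(.leaf p027_l97)
(.leaf p027_l98))))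
(.spl (nat_lit 7) (nat_lit 600)
(.leaf p027_l99)
(.leaf p027_l100))))
(.spl (nat_lit 1) (nat_lit 237)
(.leaf p027_l101)
(.spl (nat_lit 5) (nat_lit 160)
(.leaf p027_l102)
(.spl (nat_lit 5) (nat_lit 240)
(.leaf p027_l103)
(.leaf p027_l104)))))))
(.spl (nat_lit 7) (nat_lit 600)
(.leaf p027_l105)
(.leaf p027_l106))))) (by decide +kernel)
noncomputable def p027_l107 : Lf2 := ⟨nat_lit 0, nat_lit 2, [nat_lit 10, nat_lit 5, nat_lit 5, nat_lit 20], true, nat_lit 200, nat_lit 240, nat_lit 0, nat_lit 288, ⟨nat_lit 0, nat_lit 0, nat_lit 1000, nat_lit 5, nat_lit 51, nat_lit 1000, nat_lit 144, nat_lit 1000, nat_lit 194400, nat_lit 323, nat_lit 24067, nat_lit 253, nat_lit 57555374, nat_lit 0, nat_lit 0, nat_lit 2455088, false, false⟩,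
 nat_lit 0, nat_lit 11142, nat_lit 0, nat_lit 0, nat_lit 5754, nat_lit 0, nat_lit 0, nat_lit 0, nat_lit 0, nat_lit 0, nat_lit 0, nat_lit 0, nat_lit 0, nat_lit 0, nat_lit 53, nat_lit 1000000, nat_lit 0, nat_lit 0, [(nat_lit 3, [(nat_lit 6, nat_lit 1000)])],
 ⟨p027_k1, nat_lit 0, nat_lit 0, nat_lit 180, nat_lit 0, nat_lit 111181, [nat_lit 2101142858, nat_lit 11600000], [], [nat_lit 13698702222, nat_lit 13851345298, nat_lit 12477642470, nat_lit 12629674719, nat_lit 15959133542, nat_lit 16182341027, nat_lit 14114879822, nat_lit 14252178700], nat_lit 1271250, nat_lit 1271250, nat_lit 0, nat_lit 111251, nat_lit 1271250, nat_lit 1271250, [nat_lit 1412500, nat_lit 1271250], [nat_lit 26, nat_lit 40, nat_lit 20, nat_lit 80, nat_lit 2, nat_lit 345, nat_lit 125, nat_lit 11]⟩, C1.Rw.none,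
 ⟨nat_lit 6363, nat_lit 6423, ⟨.ofNat (nat_lit 83894), .ofNat (nat_lit 125505), .ofNat (nat_lit 124520), .ofNat (nat_lit 166130), .ofNat (nat_lit 86770), .ofNat (nat_lit 128093), .ofNat (nat_lit 127379), .ofNat (nat_lit 168702)⟩, ⟨.ofNat (nat_lit 307563), .ofNat (nat_lit 390784), .ofNat (nat_lit 328945), .ofNat (nat_lit 412166), .ofNat (nat_lit 307641), .ofNat (nat_lit 390286), .ofNat (nat_lit 329014), .ofNat (nat_lit 411659)⟩⟩, [⟨nat_lit 0, nat_lit 100, nat_lit 100, nat_lit 38, nat_lit 585489558⟩]⟩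
noncomputable def p027_l108 : Lf2 := ⟨nat_lit 0, nat_lit 2, [nat_lit 10, nat_lit 5, nat_lit 5, nat_lit 20], true, nat_lit 200, nat_lit 240, nat_lit 0, nat_lit 288, ⟨nat_lit 0, nat_lit 0, nat_lit 1000, nat_lit 5, nat_lit 52, nat_lit 1000, nat_lit 144, nat_lit 1000, nat_lit 194400, nat_lit 323, nat_lit 25350, nat_lit 254, nat_lit 57492015, nat_lit 0, nat_lit 0, nat_lit 2474756, false, false⟩,
 nat_lit 0, nat_lit 10919, nat_lit 0, nat_lit 0, nat_lit 5724, nat_lit 0, nat_lit 0, nat_lit 0, nat_lit 0, nat_lit 0, nat_lit 0, nat_lit 0, nat_lit 0, nat_lit 0, nat_lit 53, nat_lit 1000000, nat_lit 0, nat_lit 0, [(nat_lit 3, [(nat_lit 6, nat_lit 1000)])],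
 ⟨p027_k19, nat_lit 0, nat_lit 0, nat_lit 180, nat_lit 0, nat_lit 127992, [nat_lit 2101142858, nat_lit 11600000], [], [nat_lit 13894757125, nat_lit 13996295108, nat_lit 12680768634, nat_lit 12781899532, nat_lit 16162474079, nat_lit 16310880896, nat_lit 14300560576, nat_lit 14391909524], nat_lit 1271250, nat_lit 1271250, nat_lit 0, nat_lit 111251, nat_lit 1271250, nat_lit 1271250, [nat_lit 1412500, nat_lit 1271250], [nat_lit 26, nat_lit 40, nat_lit 20, nat_lit 80, nat_lit 2, nat_lit 345, nat_lit 125, nat_lit 11]⟩, C1.Rw.none,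
 ⟨nat_lit 6324, nat_lit 6364, ⟨.ofNat (nat_lit 86770), .ofNat (nat_lit 128093), .ofNat (nat_lit 129516), .ofNat (nat_lit 170839), .ofNat (nat_lit 88677), .ofNat (nat_lit 129809), .ofNat (nat_lit 131413), .ofNat (nat_lit 172545)⟩, ⟨.ofNat (nat_lit 307641), .ofNat (nat_lit 390286), .ofNat (nat_lit 329014), .ofNat (nat_lit 411659), .ofNat (nat_lit 307688), .ofNat (nat_lit 389952), .ofNat (nat_lit 329055), .ofNat (nat_lit 411320)⟩⟩, [⟨nat_lit 0, nat_lit 100, nat_lit 100, nat_lit 40, nat_lit 582318530⟩]⟩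
noncomputable def b_VL_500_500_5_25 : St := ⟨true, nat_lit 1, nat_lit 1, nat_lit 1, nat_lit 40, nat_lit 235, nat_lit 240, nat_lit 200, nat_lit 240, nat_lit 0, nat_lit 20, nat_lit 20, nat_lit 40, nat_lit 200, nat_lit 240, nat_lit 0, nat_lit 288, nat_lit 4, nat_lit 8, nat_lit 0, nat_lit 0, nat_lit 0, nat_lit 0⟩
theorem d_VL_500_500_5_25 (h : EB TB.env) : Dead b_VL_500_500_5_25 := chkB_sound0 h (T :=
(.spl (nat_lit 0) (nat_lit 238)
(.ord (.leaf p027_l107))
(.leaf p027_l108))) (by decide +kernel)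
noncomputable def p027_l109 : Lf2 := ⟨nat_lit 0, nat_lit 2, [nat_lit 10, nat_lit 5, nat_lit 5, nat_lit 20], true, nat_lit 200, nat_lit 240, nat_lit 0, nat_lit 320, ⟨nat_lit 0, nat_lit 0, nat_lit 1000, nat_lit 5, nat_lit 65, nat_lit 1000, nat_lit 144, nat_lit 1000, nat_lit 194400, nat_lit 323, nat_lit 40017, nat_lit 264, nat_lit 56730469, nat_lit 0, nat_lit 0, nat_lit 2684603, false, false⟩,
 nat_lit 0, nat_lit 11162, nat_lit 0, nat_lit 0, nat_lit 5621, nat_lit 0, nat_lit 0, nat_lit 0, nat_lit 0, nat_lit 0, nat_lit 0, nat_lit 0, nat_lit 0, nat_lit 28994004542060, nat_lit 53, nat_lit 1000000, nat_lit 0, nat_lit 0, [(nat_lit 3, [(nat_lit 6, nat_lit 1000)])],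
 ⟨p027_k0, nat_lit 0, nat_lit 0, nat_lit 175, nat_lit 0, nat_lit 138079, [nat_lit 2101142858, nat_lit 11600000], [], [nat_lit 11566979727, nat_lit 11891986268, nat_lit 10751590656, nat_lit 11073471463, nat_lit 13698389279, nat_lit 13991765707, nat_lit 12868267610, nat_lit 13158916614], nat_lit 1271250, nat_lit 1271250, nat_lit 111251, nat_lit 230001, nat_lit 1271250, nat_lit 1271250, [nat_lit 1412500, nat_lit 1271250], [nat_lit 26, nat_lit 40, nat_lit 20, nat_lit 80, nat_lit 2, nat_lit 373, nat_lit 150, nat_lit 12]⟩, C1.Rw.none,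
 ⟨nat_lit 6422, nat_lit 6520, ⟨.ofNat (nat_lit 121153), .ofNat (nat_lit 163247), .ofNat (nat_lit 158599), .ofNat (nat_lit 200693), .ofNat (nat_lit 125505), .ofNat (nat_lit 167115), .ofNat (nat_lit 162923), .ofNat (nat_lit 204533)⟩, ⟨.ofNat (nat_lit 307416), .ofNat (nat_lit 391604), .ofNat (nat_lit 328814), .ofNat (nat_lit 413002), .ofNat (nat_lit 307563), .ofNat (nat_lit 390784), .ofNat (nat_lit 328945), .ofNat (nat_lit 412166)⟩⟩, []⟩
noncomputable def p027_l110 : Lf2 := ⟨nat_lit 0, nat_lit 2, [nat_lit 10, nat_lit 5, nat_lit 5, nat_lit 20], true, nat_lit 200, nat_lit 240, nat_lit 0, nat_lit 320, ⟨nat_lit 0, nat_lit 0, nat_lit 1000, nat_lit 5, nat_lit 67, nat_lit 1000, nat_lit 144, nat_lit 1000, nat_lit 194400, nat_lit 323, nat_lit 41667, nat_lit 265, nat_lit 56625189, nat_lit 0, nat_lit 0, nat_lit 2713327, false, false⟩,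
 nat_lit 0, nat_lit 11142, nat_lit 0, nat_lit 0, nat_lit 5754, nat_lit 0, nat_lit 0, nat_lit 0, nat_lit 0, nat_lit 0, nat_lit 0, nat_lit 0, nat_lit 0, nat_lit 0, nat_lit 53, nat_lit 1000000, nat_lit 0, nat_lit 0, [(nat_lit 3, [(nat_lit 6, nat_lit 1000)])],
 ⟨p027_k1, nat_lit 0, nat_lit 0, nat_lit 174, nat_lit 0, nat_lit 162834, [nat_lit 2101142858, nat_lit 11600000], [], [nat_lit 12477642470, nat_lit 12629674719, nat_lit 11794682637, nat_lit 11944804811, nat_lit 14114879822, nat_lit 14252178700, nat_lit 13414474767, nat_lit 13550102951], nat_lit 1271250, nat_lit 1271250, nat_lit 111251, nat_lit 230001, nat_lit 1271250, nat_lit 1271250, [nat_lit 1412500, nat_lit 1271250], [nat_lit 26, nat_lit 40, nat_lit 20, nat_lit 80, nat_lit 2, nat_lit 373, nat_lit 150, nat_lit 12]⟩, C1.Rw.none,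
 ⟨nat_lit 6363, nat_lit 6423, ⟨.ofNat (nat_lit 125505), .ofNat (nat_lit 167115), .ofNat (nat_lit 166130), .ofNat (nat_lit 207740), .ofNat (nat_lit 128093), .ofNat (nat_lit 169416), .ofNat (nat_lit 168702), .ofNat (nat_lit 210025)⟩, ⟨.ofNat (nat_lit 307563), .ofNat (nat_lit 390784), .ofNat (nat_lit 328945), .ofNat (nat_lit 412166), .ofNat (nat_lit 307641), .ofNat (nat_lit 390286), .ofNat (nat_lit 329014), .ofNat (nat_lit 411659)⟩⟩, []⟩
noncomputable def p027_l111 : Lf2 := ⟨nat_lit 0, nat_lit 1, [nat_lit 19, nat_lit 5, nat_lit 5, nat_lit 20], true, nat_lit 200, nat_lit 240, nat_lit 0, nat_lit 320, ⟨nat_lit 0, nat_lit 0, nat_lit 1000, nat_lit 5, nat_lit 68, nat_lit 1000, nat_lit 144, nat_lit 1000, nat_lit 194400, nat_lit 323, nat_lit 43350, nat_lit 266, nat_lit 56578768, nat_lit 0, nat_lit 0, nat_lit 2725928, false, false⟩,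
 nat_lit 0, nat_lit 10948, nat_lit 0, nat_lit 0, nat_lit 5739, nat_lit 0, nat_lit 0, nat_lit 0, nat_lit 0, nat_lit 0, nat_lit 0, nat_lit 0, nat_lit 0, nat_lit 28859112053753, nat_lit 53, nat_lit 1000000, nat_lit 0, nat_lit 0, [(nat_lit 3, [(nat_lit 6, nat_lit 1000)])],
 ⟨p027_k22, nat_lit 0, nat_lit 0, nat_lit 173, nat_lit 0, nat_lit 166794, [nat_lit 2101142858, nat_lit 11600000], [], [nat_lit 12655221677, nat_lit 12705843110, nat_lit 11972992738, nat_lit 12022978479, nat_lit 14276369638, nat_lit 14322090021, nat_lit 13576956758, nat_lit 13622121079], nat_lit 1271250, nat_lit 1271250, nat_lit 111251, nat_lit 230001, nat_lit 1271250, nat_lit 1271250, [nat_lit 1412500, nat_lit 1271250], [nat_lit 26, nat_lit 40, nat_lit 20, nat_lit 80, nat_lit 2, nat_lit 373, nat_lit 150, nat_lit 12]⟩, C1.Rw.none,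
 ⟨nat_lit 6344, nat_lit 6364, ⟨.ofNat (nat_lit 128093), .ofNat (nat_lit 169416), .ofNat (nat_lit 169771), .ofNat (nat_lit 211093), .ofNat (nat_lit 128952), .ofNat (nat_lit 170180), .ofNat (nat_lit 170625), .ofNat (nat_lit 211852)⟩, ⟨.ofNat (nat_lit 307641), .ofNat (nat_lit 390286), .ofNat (nat_lit 329014), .ofNat (nat_lit 411659), .ofNat (nat_lit 307665), .ofNat (nat_lit 390119), .ofNat (nat_lit 329035), .ofNat (nat_lit 411490)⟩⟩, []⟩
noncomputable def p027_l112 : Lf2 := ⟨nat_lit 0, nat_lit 1, [nat_lit 19, nat_lit 5, nat_lit 5, nat_lit 20], true, nat_lit 200, nat_lit 220, nat_lit 0, nat_lit 320, ⟨nat_lit 0, nat_lit 0, nat_lit 1000, nat_lit 5, nat_lit 69, nat_lit 1000, nat_lit 136, nat_lit 1000, nat_lit 173400, nat_lit 317, nat_lit 43350, nat_lit 266, nat_lit 57293249, nat_lit 0, nat_lit 0, nat_lit 2615553, false, false⟩,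
 nat_lit 0, nat_lit 11366, nat_lit 0, nat_lit 0, nat_lit 5987, nat_lit 0, nat_lit 0, nat_lit 0, nat_lit 0, nat_lit 0, nat_lit 0, nat_lit 0, nat_lit 0, nat_lit 29634643028135, nat_lit 53, nat_lit 1000000, nat_lit 0, nat_lit 0, [(nat_lit 3, [(nat_lit 6, nat_lit 1000)])],
 ⟨p027_k27, nat_lit 0, nat_lit 0, nat_lit 173, nat_lit 0, nat_lit 175012, [nat_lit 2101142858, nat_lit 11600000], [], [nat_lit 12284392344, nat_lit 12335939374, nat_lit 11557847151, nat_lit 11608741948, nat_lit 13103642276, nat_lit 13152655497, nat_lit 12368365251, nat_lit 12416767418], nat_lit 1271250, nat_lit 1271250, nat_lit 111251, nat_lit 230001, nat_lit 1271250, nat_lit 1271250, [nat_lit 1412500, nat_lit 1271250], [nat_lit 26, nat_lit 40, nat_lit 20, nat_lit 80, nat_lit 2, nat_lit 345, nat_lit 125, nat_lit 11]⟩, C1.Rw.none,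
 ⟨nat_lit 6324, nat_lit 6345, ⟨.ofNat (nat_lit 128952), .ofNat (nat_lit 170180), .ofNat (nat_lit 171693), .ofNat (nat_lit 212920), .ofNat (nat_lit 129809), .ofNat (nat_lit 170942), .ofNat (nat_lit 172545), .ofNat (nat_lit 213677)⟩, ⟨.ofNat (nat_lit 307665), .ofNat (nat_lit 348892), .ofNat (nat_lit 329035), .ofNat (nat_lit 370262), .ofNat (nat_lit 307688), .ofNat (nat_lit 348820), .ofNat (nat_lit 329055), .ofNat (nat_lit 370188)⟩⟩, []⟩
noncomputable def p027_l113 : Lf2 := ⟨nat_lit 0, nat_lit 1, [nat_lit 19, nat_lit 5, nat_lit 5, nat_lit 20], true, nat_lit 220, nat_lit 240, nat_lit 0, nat_lit 292, ⟨nat_lit 0, nat_lit 0, nat_lit 1000, nat_lit 5, nat_lit 61, nat_lit 1000, nat_lit 152, nat_lit 1000, nat_lit 216600, nat_lit 329, nat_lit 35267, nat_lit 261, nat_lit 56226395, nat_lit 0, nat_lit 0, nat_lit 2731319, false, false⟩,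
 nat_lit 0, nat_lit 10529, nat_lit 0, nat_lit 0, nat_lit 5546, nat_lit 0, nat_lit 0, nat_lit 0, nat_lit 0, nat_lit 0, nat_lit 0, nat_lit 0, nat_lit 0, nat_lit 0, nat_lit 53, nat_lit 1000000, nat_lit 0, nat_lit 0, [(nat_lit 3, [(nat_lit 6, nat_lit 1000)])],
 ⟨p027_k27, nat_lit 0, nat_lit 0, nat_lit 157, nat_lit 0, nat_lit 89588, [nat_lit 2101142858, nat_lit 11600000], [], [nat_lit 13248364224, nat_lit 13309810996, nat_lit 12760844182, nat_lit 12821942295, nat_lit 14280033312, nat_lit 14338350434, nat_lit 13788327231, nat_lit 13846319345], nat_lit 1271250, nat_lit 1271250, nat_lit 111251, nat_lit 181601, nat_lit 1271250, nat_lit 1271250, [nat_lit 1412500, nat_lit 1271250], [nat_lit 26, nat_lit 40, nat_lit 20, nat_lit 80, nat_lit 2, nat_lit 373, nat_lit 150, nat_lit 12]⟩, C1.Rw.none,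
 ⟨nat_lit 6324, nat_lit 6345, ⟨.ofNat (nat_lit 128952), .ofNat (nat_lit 153689), .ofNat (nat_lit 150323), .ofNat (nat_lit 175059), .ofNat (nat_lit 129809), .ofNat (nat_lit 154489), .ofNat (nat_lit 151177), .ofNat (nat_lit 175857)⟩, ⟨.ofNat (nat_lit 348892), .ofNat (nat_lit 390119), .ofNat (nat_lit 370262), .ofNat (nat_lit 411490), .ofNat (nat_lit 348820), .ofNat (nat_lit 389952), .ofNat (nat_lit 370188), .ofNat (nat_lit 411320)⟩⟩, []⟩
noncomputable def p027_l114 : Lf2 := ⟨nat_lit 0, nat_lit 1, [nat_lit 19, nat_lit 5, nat_lit 5, nat_lit 20], true, nat_lit 220, nat_lit 240, nat_lit 0, nat_lit 280, ⟨nat_lit 0, nat_lit 0, nat_lit 1000, nat_lit 5, nat_lit 64, nat_lit 1000, nat_lit 152, nat_lit 1000, nat_lit 216600, nat_lit 329, nat_lit 38400, nat_lit 263, nat_lit 56048616, nat_lit 0, nat_lit 0, nat_lit 2779465, false, false⟩,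
 nat_lit 0, nat_lit 10529, nat_lit 0, nat_lit 0, nat_lit 5546, nat_lit 0, nat_lit 0, nat_lit 0, nat_lit 0, nat_lit 0, nat_lit 0, nat_lit 0, nat_lit 0, nat_lit 0, nat_lit 53, nat_lit 1000000, nat_lit 0, nat_lit 0, [(nat_lit 3, [(nat_lit 6, nat_lit 1000)])],
 ⟨p027_k27, nat_lit 0, nat_lit 0, nat_lit 160, nat_lit 0, nat_lit 130489, [nat_lit 2101142858, nat_lit 11600000], [], [nat_lit 13248364224, nat_lit 13309810996, nat_lit 13085857543, nat_lit 13147188096, nat_lit 14280033312, nat_lit 14338350434, nat_lit 14116131285, nat_lit 14174340071], nat_lit 1271250, nat_lit 1271250, nat_lit 111251, nat_lit 134400, nat_lit 1271250, nat_lit 1271250, [nat_lit 1412500, nat_lit 1271250], [nat_lit 26, nat_lit 40, nat_lit 20, nat_lit 80, nat_lit 2, nat_lit 373, nat_lit 150, nat_lit 12]⟩, C1.Rw.none,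
 ⟨nat_lit 6324, nat_lit 6345, ⟨.ofNat (nat_lit 150323), .ofNat (nat_lit 158568), .ofNat (nat_lit 161008), .ofNat (nat_lit 169253), .ofNat (nat_lit 151177), .ofNat (nat_lit 159404), .ofNat (nat_lit 161861), .ofNat (nat_lit 170088)⟩, ⟨.ofNat (nat_lit 348892), .ofNat (nat_lit 390119), .ofNat (nat_lit 370262), .ofNat (nat_lit 411490), .ofNat (nat_lit 348820), .ofNat (nat_lit 389952), .ofNat (nat_lit 370188), .ofNat (nat_lit 411320)⟩⟩, []⟩
noncomputable def p027_l115 : Lf2 := ⟨nat_lit 0, nat_lit 1, [nat_lit 19, nat_lit 5, nat_lit 5, nat_lit 20], true, nat_lit 220, nat_lit 240, nat_lit 0, nat_lit 280, ⟨nat_lit 0, nat_lit 0, nat_lit 1000, nat_lit 5, nat_lit 67, nat_lit 1000, nat_lit 152, nat_lit 1000, nat_lit 216600, nat_lit 329, nat_lit 41667, nat_lit 265, nat_lit 55861565, nat_lit 0, nat_lit 0, nat_lit 2828900, false, false⟩,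
 nat_lit 0, nat_lit 10865, nat_lit 0, nat_lit 0, nat_lit 5723, nat_lit 0, nat_lit 0, nat_lit 0, nat_lit 0, nat_lit 0, nat_lit 0, nat_lit 0, nat_lit 0, nat_lit 0, nat_lit 53, nat_lit 1000000, nat_lit 0, nat_lit 0, [(nat_lit 3, [(nat_lit 6, nat_lit 1000)])],
 ⟨p027_k27, nat_lit 0, nat_lit 0, nat_lit 162, nat_lit 0, nat_lit 152285, [nat_lit 2101142858, nat_lit 11600000], [], [nat_lit 13540439100, nat_lit 13588555665, nat_lit 13402721682, nat_lit 13450719267, nat_lit 14347844719, nat_lit 14393516132, nat_lit 14208419187, nat_lit 14253979567], nat_lit 1271250, nat_lit 1271250, nat_lit 111251, nat_lit 134400, nat_lit 1271250, nat_lit 1271250, [nat_lit 1412500, nat_lit 1271250], [nat_lit 26, nat_lit 40, nat_lit 20, nat_lit 80, nat_lit 2, nat_lit 373, nat_lit 150, nat_lit 12]⟩, C1.Rw.none,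
 ⟨nat_lit 6324, nat_lit 6345, ⟨.ofNat (nat_lit 161008), .ofNat (nat_lit 169253), .ofNat (nat_lit 166350), .ofNat (nat_lit 174596), .ofNat (nat_lit 161861), .ofNat (nat_lit 170088), .ofNat (nat_lit 167203), .ofNat (nat_lit 175430)⟩, ⟨.ofNat (nat_lit 348892), .ofNat (nat_lit 390119), .ofNat (nat_lit 370262), .ofNat (nat_lit 411490), .ofNat (nat_lit 348820), .ofNat (nat_lit 389952), .ofNat (nat_lit 370188), .ofNat (nat_lit 411320)⟩⟩, []⟩
noncomputable def p027_l116 : Lf2 := ⟨nat_lit 0, nat_lit 1, [nat_lit 19, nat_lit 5, nat_lit 5, nat_lit 20], true, nat_lit 220, nat_lit 240, nat_lit 0, nat_lit 280, ⟨nat_lit 0, nat_lit 0, nat_lit 1000, nat_lit 5, nat_lit 69, nat_lit 1000, nat_lit 152, nat_lit 1000, nat_lit 216600, nat_lit 329, nat_lit 45067, nat_lit 267, nat_lit 55760120, nat_lit 0, nat_lit 0, nat_lit 2855215, false, false⟩,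
 nat_lit 0, nat_lit 10865, nat_lit 0, nat_lit 0, nat_lit 5723, nat_lit 0, nat_lit 0, nat_lit 0, nat_lit 0, nat_lit 0, nat_lit 0, nat_lit 0, nat_lit 0, nat_lit 0, nat_lit 53, nat_lit 1000000, nat_lit 0, nat_lit 0, [(nat_lit 3, [(nat_lit 6, nat_lit 1000)])],
 ⟨p027_k27, nat_lit 0, nat_lit 0, nat_lit 163, nat_lit 0, nat_lit 165899, [nat_lit 2101142858, nat_lit 11600000], [], [nat_lit 13540439100, nat_lit 13588555665, nat_lit 13402721682, nat_lit 13450719267, nat_lit 14347844719, nat_lit 14393516132, nat_lit 14208419187, nat_lit 14253979567], nat_lit 1271250, nat_lit 1271250, nat_lit 111251, nat_lit 134400, nat_lit 1271250, nat_lit 1271250, [nat_lit 1412500, nat_lit 1271250], [nat_lit 26, nat_lit 40, nat_lit 20, nat_lit 80, nat_lit 2, nat_lit 373, nat_lit 150, nat_lit 12]⟩, C1.Rw.none,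
 ⟨nat_lit 6324, nat_lit 6345, ⟨.ofNat (nat_lit 166350), .ofNat (nat_lit 174596), .ofNat (nat_lit 169556), .ofNat (nat_lit 177801), .ofNat (nat_lit 167203), .ofNat (nat_lit 175430), .ofNat (nat_lit 170408), .ofNat (nat_lit 178635)⟩, ⟨.ofNat (nat_lit 348892), .ofNat (nat_lit 390119), .ofNat (nat_lit 370262), .ofNat (nat_lit 411490), .ofNat (nat_lit 348820), .ofNat (nat_lit 389952), .ofNat (nat_lit 370188), .ofNat (nat_lit 411320)⟩⟩, []⟩
noncomputable def p027_l117 : Lf2 := ⟨nat_lit 0, nat_lit 1, [nat_lit 19, nat_lit 5, nat_lit 5, nat_lit 20], true, nat_lit 220, nat_lit 240, nat_lit 0, nat_lit 280, ⟨nat_lit 0, nat_lit 0, nat_lit 1000, nat_lit 5, nat_lit 70, nat_lit 1000, nat_lit 152, nat_lit 1000, nat_lit 216600, nat_lit 329, nat_lit 45067, nat_lit 267, nat_lit 55708964, nat_lit 0, nat_lit 0, nat_lit 2868358, false, false⟩,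
 nat_lit 0, nat_lit 10865, nat_lit 0, nat_lit 0, nat_lit 5723, nat_lit 0, nat_lit 0, nat_lit 0, nat_lit 0, nat_lit 0, nat_lit 0, nat_lit 0, nat_lit 0, nat_lit 0, nat_lit 53, nat_lit 1000000, nat_lit 0, nat_lit 0, [(nat_lit 3, [(nat_lit 6, nat_lit 1000)])],
 ⟨p027_k27, nat_lit 0, nat_lit 0, nat_lit 163, nat_lit 0, nat_lit 170455, [nat_lit 2101142858, nat_lit 11600000], [], [nat_lit 13540439100, nat_lit 13588555665, nat_lit 13402721682, nat_lit 13450719267, nat_lit 14347844719, nat_lit 14393516132, nat_lit 14208419187, nat_lit 14253979567], nat_lit 1271250, nat_lit 1271250, nat_lit 111251, nat_lit 134400, nat_lit 1271250, nat_lit 1271250, [nat_lit 1412500, nat_lit 1271250], [nat_lit 26, nat_lit 40, nat_lit 20, nat_lit 80, nat_lit 2, nat_lit 373, nat_lit 150, nat_lit 12]⟩, C1.Rw.none,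
 ⟨nat_lit 6324, nat_lit 6345, ⟨.ofNat (nat_lit 169556), .ofNat (nat_lit 177801), .ofNat (nat_lit 170625), .ofNat (nat_lit 178870), .ofNat (nat_lit 170408), .ofNat (nat_lit 178635), .ofNat (nat_lit 171477), .ofNat (nat_lit 179703)⟩, ⟨.ofNat (nat_lit 348892), .ofNat (nat_lit 390119), .ofNat (nat_lit 370262), .ofNat (nat_lit 411490), .ofNat (nat_lit 348820), .ofNat (nat_lit 389952), .ofNat (nat_lit 370188), .ofNat (nat_lit 411320)⟩⟩, []⟩
noncomputable def p027_l118 : Lf2 := ⟨nat_lit 0, nat_lit 1, [nat_lit 19, nat_lit 5, nat_lit 5, nat_lit 20], false, nat_lit 220, nat_lit 240, nat_lit 0, nat_lit 160, ⟨nat_lit 1000, nat_lit 0, nat_lit 0, nat_lit 0, nat_lit 0, nat_lit 0, nat_lit 0, nat_lit 0, nat_lit 0, nat_lit 0, nat_lit 0, nat_lit 0, nat_lit 0, nat_lit 0, nat_lit 0, nat_lit 0, false, false⟩,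
 nat_lit 21220, nat_lit 0, nat_lit 0, nat_lit 0, nat_lit 11178, nat_lit 10060, nat_lit 2696, nat_lit 0, nat_lit 0, nat_lit 3151, nat_lit 0, nat_lit 0, nat_lit 0, nat_lit 31953698335901, nat_lit 0, nat_lit 0, nat_lit 0, nat_lit 0, [],
 ⟨p027_k27, nat_lit 0, nat_lit 0, nat_lit 163, nat_lit 0, nat_lit 175012, [nat_lit 6250000000, nat_lit 7968000000], [], [nat_lit 14932673551, nat_lit 14999317614, nat_lit 14602006454, nat_lit 14668464769, nat_lit 15984816790, nat_lit 16047183776, nat_lit 15651651151, nat_lit 15713846335], nat_lit 1271250, nat_lit 1271250, nat_lit 111251, nat_lit 134400, nat_lit 1271250, nat_lit 1271250, [nat_lit 1412500, nat_lit 1271250], [nat_lit 26, nat_lit 40, nat_lit 20, nat_lit 80, nat_lit 2, nat_lit 373, nat_lit 150, nat_lit 12]⟩, ⟨p027_k27, nat_lit 0, nat_lit 0, nat_lit 273, nat_lit 0, nat_lit 175012, [nat_lit 6250000000, nat_lit 7968000000], [], [nat_lit 19319313006, nat_lit 19399828160, nat_lit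 18968580762, nat_lit 19055106144, nat_lit 14162532596, nat_lit 13902535920, nat_lit 14157659872, nat_lit 13898048896], nat_lit 1271250, nat_lit 1271250, nat_lit 111251, nat_lit 134400, nat_lit 0, nat_lit 1100001, [nat_lit 1412500, nat_lit 1271250], [nat_lit 26, nat_lit 40, nat_lit 20, nat_lit 80, nat_lit 2, nat_lit 345, nat_lit 125, nat_lit 12]⟩,
 zbF0, []⟩
noncomputable def p027_l119 : Lf2 := ⟨nat_lit 0, nat_lit 1, [nat_lit 19, nat_lit 5, nat_lit 5, nat_lit 20], false, nat_lit 220, nat_lit 240, nat_lit 160, nat_lit 240, ⟨nat_lit 534, nat_lit 0, nat_lit 466, nat_lit 5, nat_lit 70, nat_lit 466, nat_lit 152, nat_lit 466, nat_lit 216600, nat_lit 329, nat_lit 46817, nat_lit 268, nat_lit 55683276, nat_lit 0, nat_lit 0, nat_lit 2874926, false, false⟩,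
 nat_lit 16399, nat_lit 0, nat_lit 0, nat_lit 0, nat_lit 8639, nat_lit 8639, nat_lit 1333, nat_lit 0, nat_lit 0, nat_lit 0, nat_lit 0, nat_lit 0, nat_lit 0, nat_lit 0, nat_lit 0, nat_lit 466000, nat_lit 0, nat_lit 0, [(nat_lit 3, [(nat_lit 6, nat_lit 466)])],
 ⟨p027_k27, nat_lit 0, nat_lit 0, nat_lit 163, nat_lit 0, nat_lit 175012, [nat_lit 3822672572, nat_lit 3667565600], [], [nat_lit 14278879061, nat_lit 14336899601, nat_lit 14038019340, nat_lit 14095885209, nat_lit 15217110509, nat_lit 15275539356, nat_lit 14974120147, nat_lit 15028572752], nat_lit 1271250, nat_lit 1271250, nat_lit 111251, nat_lit 134400, nat_lit 1271250, nat_lit 1271250, [nat_lit 1412500, nat_lit 1271250], [nat_lit 26, nat_lit 40, nat_lit 20, nat_lit 80, nat_lit 2, nat_lit 373, nat_lit 150, nat_lit 12]⟩, ⟨p027_k27, nat_lit 0, nat_lit 0, nat_lit 193, nat_lit 0, nat_lit 175012, [nat_lit 3337500000, nat_lit 4254912000], [], [nat_lit 5999826693, nat_lit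 6065084032, nat_lit 5676981902, nat_lit 5742109928, nat_lit 9488085089, nat_lit 9377768796, nat_lit 9479192705, nat_lit 9262709213], nat_lit 1271250, nat_lit 1271250, nat_lit 111251, nat_lit 134400, nat_lit 1100001, nat_lit 1785000, [nat_lit 1412500, nat_lit 1271250], [nat_lit 26, nat_lit 40, nat_lit 20, nat_lit 80, nat_lit 2, nat_lit 373, nat_lit 150, nat_lit 12]⟩,
 ⟨nat_lit 6324, nat_lit 6345, ⟨.ofNat (nat_lit 170625), .ofNat (nat_lit 178870), .ofNat (nat_lit 171693), .ofNat (nat_lit 179939), .ofNat (nat_lit 171477), .ofNat (nat_lit 179703), .ofNat (nat_lit 172545), .ofNat (nat_lit 180772)⟩, ⟨.ofNat (nat_lit 348892), .ofNat (nat_lit 390119), .ofNat (nat_lit 370262), .ofNat (nat_lit 411490), .ofNat (nat_lit 348820), .ofNat (nat_lit 389952), .ofNat (nat_lit 370188), .ofNat (nat_lit 411320)⟩⟩, []⟩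
noncomputable def p027_l120 : Lf2 := ⟨nat_lit 0, nat_lit 1, [nat_lit 19, nat_lit 5, nat_lit 5, nat_lit 20], false, nat_lit 220, nat_lit 240, nat_lit 240, nat_lit 280, ⟨nat_lit 1000, nat_lit 0, nat_lit 0, nat_lit 0, nat_lit 0, nat_lit 0, nat_lit 0, nat_lit 0, nat_lit 0, nat_lit 0, nat_lit 0, nat_lit 0, nat_lit 0, nat_lit 0, nat_lit 0, nat_lit 0, false, false⟩,
 nat_lit 21220, nat_lit 0, nat_lit 0, nat_lit 0, nat_lit 11178, nat_lit 11178, nat_lit 2696, nat_lit 0, nat_lit 0, nat_lit 2696, nat_lit 0, nat_lit 0, nat_lit 0, nat_lit 0, nat_lit 0, nat_lit 0, nat_lit 0, nat_lit 0, [],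
 ⟨p027_k27, nat_lit 0, nat_lit 0, nat_lit 163, nat_lit 0, nat_lit 175012, [nat_lit 6250000000, nat_lit 7968000000], [], [nat_lit 14932673551, nat_lit 14999317614, nat_lit 14602006454, nat_lit 14668464769, nat_lit 15984816790, nat_lit 16047183776, nat_lit 15651651151, nat_lit 15713846335], nat_lit 1271250, nat_lit 1271250, nat_lit 111251, nat_lit 134400, nat_lit 1271250, nat_lit 1271250, [nat_lit 1412500, nat_lit 1271250], [nat_lit 26, nat_lit 40, nat_lit 20, nat_lit 80, nat_lit 2, nat_lit 373, nat_lit 150, nat_lit 12]⟩, ⟨p027_k27, nat_lit 0, nat_lit 0, nat_lit 159, nat_lit 0, nat_lit 175012, [nat_lit 6250000000, nat_lit 7968000000], [], [nat_lit 15984816790, nat_lit 16047183776, nat_lit 15651651151, nat_lit 15713846335, nat_lit 21981597662, nat_lit 22074964028, nat_lit 21458765988, nat_lit 21552111642], nat_lit 1271250, nat_lit 1271250, nat_lit 111251, nat_lit 134400, nat_lit 1271250, nat_lit 1271250, [nat_lit 1412500,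 nat_lit 1271250], [nat_lit 26, nat_lit 40, nat_lit 20, nat_lit 80, nat_lit 2, nat_lit 289, nat_lit 75, nat_lit 9]⟩,
 zbF0, [⟨nat_lit 7, nat_lit 96, nat_lit 100, nat_lit 54, nat_lit 910183744⟩, ⟨nat_lit 11, nat_lit 97, nat_lit 100, nat_lit 46, nat_lit 1079341299⟩]⟩
noncomputable def p027_l121 : Lf2 := ⟨nat_lit 0, nat_lit 1, [nat_lit 19, nat_lit 5, nat_lit 5, nat_lit 20], true, nat_lit 220, nat_lit 240, nat_lit 0, nat_lit 292, ⟨nat_lit 0, nat_lit 0, nat_lit 1000, nat_lit 5, nat_lit 71, nat_lit 1000, nat_lit 152, nat_lit 1000, nat_lit 216600, nat_lit 329, nat_lit 46817, nat_lit 268, nat_lit 55630086, nat_lit 0, nat_lit 0, nat_lit 2888459, false, false⟩,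
 nat_lit 0, nat_lit 10956, nat_lit 0, nat_lit 0, nat_lit 5771, nat_lit 0, nat_lit 0, nat_lit 0, nat_lit 0, nat_lit 0, nat_lit 0, nat_lit 0, nat_lit 0, nat_lit 0, nat_lit 53, nat_lit 1000000, nat_lit 0, nat_lit 0, [(nat_lit 3, [(nat_lit 6, nat_lit 1000)])],
 ⟨p027_k27, nat_lit 0, nat_lit 0, nat_lit 161, nat_lit 0, nat_lit 175012, [nat_lit 2101142858, nat_lit 11600000], [], [nat_lit 13321606261, nat_lit 13369766288, nat_lit 13042775793, nat_lit 13090696685, nat_lit 14129450324, nat_lit 14175157077, nat_lit 13847189719, nat_lit 13892673335], nat_lit 1271250, nat_lit 1271250, nat_lit 134400, nat_lit 181601, nat_lit 1271250, nat_lit 1271250, [nat_lit 1412500, nat_lit 1271250], [nat_lit 26, nat_lit 40, nat_lit 20, nat_lit 80, nat_lit 2, nat_lit 373, nat_lit 150, nat_lit 12]⟩, C1.Rw.none,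
 ⟨nat_lit 6324, nat_lit 6345, ⟨.ofNat (nat_lit 158568), .ofNat (nat_lit 175059), .ofNat (nat_lit 179939), .ofNat (nat_lit 196429), .ofNat (nat_lit 159404), .ofNat (nat_lit 175857), .ofNat (nat_lit 180772), .ofNat (nat_lit 197224)⟩, ⟨.ofNat (nat_lit 348892), .ofNat (nat_lit 390119), .ofNat (nat_lit 370262), .ofNat (nat_lit 411490), .ofNat (nat_lit 348820), .ofNat (nat_lit 389952), .ofNat (nat_lit 370188), .ofNat (nat_lit 411320)⟩⟩, []⟩
noncomputable def p027_l122 : Lf2 := ⟨nat_lit 0, nat_lit 1, [nat_lit 19, nat_lit 5, nat_lit 5, nat_lit 20], true, nat_lit 220, nat_lit 240, nat_lit 0, nat_lit 304, ⟨nat_lit 0, nat_lit 0, nat_lit 1000, nat_lit 5, nat_lit 73, nat_lit 1000, nat_lit 152, nat_lit 1000, nat_lit 216600, nat_lit 329, nat_lit 50417, nat_lit 270, nat_lit 55488983, nat_lit 0, nat_lit 0, nat_lit 2923938, false, false⟩,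
 nat_lit 0, nat_lit 11142, nat_lit 0, nat_lit 0, nat_lit 5869, nat_lit 0, nat_lit 0, nat_lit 0, nat_lit 0, nat_lit 0, nat_lit 0, nat_lit 0, nat_lit 0, nat_lit 29203197680788, nat_lit 53, nat_lit 1000000, nat_lit 0, nat_lit 0, [(nat_lit 3, [(nat_lit 6, nat_lit 1000)])],
 ⟨p027_k27, nat_lit 0, nat_lit 0, nat_lit 157, nat_lit 0, nat_lit 175012, [nat_lit 2101142858, nat_lit 11600000], [], [nat_lit 12870232396, nat_lit 12918482540, nat_lit 12584469180, nat_lit 12632477790, nat_lit 13679000475, nat_lit 13724780754, nat_lit 13389778722, nat_lit 13435333680], nat_lit 1271250, nat_lit 1271250, nat_lit 181601, nat_lit 230001, nat_lit 1271250, nat_lit 1271250, [nat_lit 1412500, nat_lit 1271250], [nat_lit 26, nat_lit 40, nat_lit 20, nat_lit 80, nat_lit 2, nat_lit 373, nat_lit 150, nat_lit 12]⟩, C1.Rw.none,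
 ⟨nat_lit 6324, nat_lit 6345, ⟨.ofNat (nat_lit 153689), .ofNat (nat_lit 170180), .ofNat (nat_lit 196429), .ofNat (nat_lit 212920), .ofNat (nat_lit 154489), .ofNat (nat_lit 170942), .ofNat (nat_lit 197224), .ofNat (nat_lit 213677)⟩, ⟨.ofNat (nat_lit 348892), .ofNat (nat_lit 390119), .ofNat (nat_lit 370262), .ofNat (nat_lit 411490), .ofNat (nat_lit 348820), .ofNat (nat_lit 389952), .ofNat (nat_lit 370188), .ofNat (nat_lit 411320)⟩⟩, []⟩
noncomputable def p027_l123 : Lf2 := ⟨nat_lit 0, nat_lit 2, [nat_lit 10, nat_lit 5, nat_lit 5, nat_lit 20], true, nat_lit 200, nat_lit 240, nat_lit 0, nat_lit 320, ⟨nat_lit 0, nat_lit 0, nat_lit 1000, nat_lit 5, nat_lit 68, nat_lit 1000, nat_lit 144, nat_lit 1000, nat_lit 194400, nat_lit 323, nat_lit 43350, nat_lit 266, nat_lit 56557552, nat_lit 0, nat_lit 0, nat_lit 2731549, false, false⟩,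
 nat_lit 0, nat_lit 10581, nat_lit 0, nat_lit 0, nat_lit 5546, nat_lit 0, nat_lit 0, nat_lit 0, nat_lit 0, nat_lit 0, nat_lit 0, nat_lit 0, nat_lit 0, nat_lit 27577069848268, nat_lit 53, nat_lit 1000000, nat_lit 0, nat_lit 0, [(nat_lit 3, [(nat_lit 6, nat_lit 1000)])],
 ⟨p027_k19, nat_lit 0, nat_lit 0, nat_lit 170, nat_lit 0, nat_lit 127992, [nat_lit 2101142858, nat_lit 11600000], [], [nat_lit 12152118715, nat_lit 12281271558, nat_lit 11347182558, nat_lit 11475094370, nat_lit 14221716189, nat_lit 14338350434, nat_lit 13402747737, nat_lit 13518298618], nat_lit 1271250, nat_lit 1271250, nat_lit 111251, nat_lit 230001, nat_lit 1271250, nat_lit 1271250, [nat_lit 1412500, nat_lit 1271250], [nat_lit 26, nat_lit 40, nat_lit 20, nat_lit 80, nat_lit 2, nat_lit 373, nat_lit 150, nat_lit 12]⟩, C1.Rw.none,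
 ⟨nat_lit 6324, nat_lit 6364, ⟨.ofNat (nat_lit 128093), .ofNat (nat_lit 169416), .ofNat (nat_lit 170839), .ofNat (nat_lit 212162), .ofNat (nat_lit 129809), .ofNat (nat_lit 170942), .ofNat (nat_lit 172545), .ofNat (nat_lit 213677)⟩, ⟨.ofNat (nat_lit 307641), .ofNat (nat_lit 390286), .ofNat (nat_lit 329014), .ofNat (nat_lit 411659), .ofNat (nat_lit 307688), .ofNat (nat_lit 389952), .ofNat (nat_lit 329055), .ofNat (nat_lit 411320)⟩⟩, []⟩
noncomputable def b_VL_500_500_5_26 : St := ⟨true, nat_lit 1, nat_lit 1, nat_lit 1, nat_lit 40, nat_lit 230, nat_lit 240, nat_lit 200, nat_lit 240, nat_lit 20, nat_lit 40, nat_lit 20, nat_lit 40, nat_lit 200, nat_lit 240, nat_lit 0, nat_lit 320, nat_lit 0, nat_lit 8, nat_lit 0, nat_lit 0, nat_lit 0, nat_lit 0⟩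
theorem d_VL_500_500_5_26 (h : EB TB.env) : Dead b_VL_500_500_5_26 := chkB_sound0 h (T :=
(.spl (nat_lit 0) (nat_lit 235)
(.ord (.leaf p027_l109))
(.spl (nat_lit 0) (nat_lit 238)
(.ord (.leaf p027_l110))
(.spl (nat_lit 6) (nat_lit 4)
(.spl (nat_lit 0) (nat_lit 239)
(.ord (.leaf p027_l111))
(.spl (nat_lit 4) (nat_lit 220)
(.leaf p027_l112)
(.trX (nat_lit 23) (nat_lit 100) (nat_lit 86) (nat_lit 60) (nat_lit 304) (.spl (nat_lit 2) (nat_lit 32)
(.trX (nat_lit 23) (nat_lit 100) (nat_lit 89) (nat_lit 55) (nat_lit 292) (.spl (nat_lit 1) (nat_lit 220)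
(.leaf p027_l113)
(.spl (nat_lit 2) (nat_lit 24)
(.trX (nat_lit 23) (nat_lit 100) (nat_lit 93) (nat_lit 48) (nat_lit 280) (.spl (nat_lit 1) (nat_lit 230)
(.leaf p027_l114)
(.spl (nat_lit 1) (nat_lit 235)
(.leaf p027_l115)
(.spl (nat_lit 1) (nat_lit 238)
(.leaf p027_l116)
(.spl (nat_lit 1) (nat_lit 239)
(.leaf p027_l117)
(.spl (nat_lit 5) (nat_lit 160)
(.leaf p027_l118)
(.spl (nat_lit 5) (nat_lit 240)
(.leaf p027_l119)
(.leaf p027_l120))))))))
(.leaf p027_l121))))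
(.leaf p027_l122)))))
(.leaf p027_l123))))) (by decide +kernel)
noncomputable def p027_l124 : Lf2 := ⟨nat_lit 0, nat_lit 5, [nat_lit 4, nat_lit 5, nat_lit 5, nat_lit 20], true, nat_lit 200, nat_lit 240, nat_lit 0, nat_lit 288, ⟨nat_lit 0, nat_lit 0, nat_lit 1000, nat_lit 5, nat_lit 50, nat_lit 1000, nat_lit 144, nat_lit 1000, nat_lit 194400, nat_lit 323, nat_lit 24067, nat_lit 253, nat_lit 57558300, nat_lit 0, nat_lit 0, nat_lit 2453693, false, false⟩,
 nat_lit 0, nat_lit 11365, nat_lit 0, nat_lit 0, nat_lit 5723, nat_lit 0, nat_lit 95, nat_lit 0, nat_lit 0, nat_lit 0, nat_lit 0, nat_lit 0, nat_lit 0, nat_lit 19306006431256, nat_lit 115, nat_lit 1000000, nat_lit 0, nat_lit 0, [(nat_lit 3, [(nat_lit 6, nat_lit 1000)])],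
 ⟨p027_k4, nat_lit 0, nat_lit 0, nat_lit 182, nat_lit 0, nat_lit 95399, [nat_lit 3341142858, nat_lit 1499600000, nat_lit 23600000], [], [nat_lit 13781351949, nat_lit 14295468916, nat_lit 12277978031, nat_lit 12790121690, nat_lit 15568237666, nat_lit 16310205392, nat_lit 13936801994, nat_lit 14393516132], nat_lit 1271250, nat_lit 1271250, nat_lit 0, nat_lit 111251, nat_lit 1271250, nat_lit 1271250, [nat_lit 1412500, nat_lit 1271250, nat_lit 1271250], [nat_lit 25, nat_lit 40, nat_lit 20, nat_lit 80, nat_lit 17, nat_lit 345, nat_lit 125, nat_lit 10]⟩, C1.Rw.none,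
 ⟨nat_lit 6324, nat_lit 6520, ⟨.ofNat (nat_lit 79059), .ofNat (nat_lit 121153), .ofNat (nat_lit 121855), .ofNat (nat_lit 163949), .ofNat (nat_lit 88677), .ofNat (nat_lit 129809), .ofNat (nat_lit 131413), .ofNat (nat_lit 172545)⟩, ⟨.ofNat (nat_lit 307416), .ofNat (nat_lit 391604), .ofNat (nat_lit 328814), .ofNat (nat_lit 413002), .ofNat (nat_lit 307688), .ofNat (nat_lit 389952), .ofNat (nat_lit 329055), .ofNat (nat_lit 411320)⟩⟩, [⟨nat_lit 0, nat_lit 100, nat_lit 100, nat_lit 40, nat_lit 581105136⟩]⟩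
noncomputable def p027_l125 : Lf2 := ⟨nat_lit 0, nat_lit 5, [nat_lit 4, nat_lit 5, nat_lit 5, nat_lit 20], true, nat_lit 200, nat_lit 240, nat_lit 0, nat_lit 320, ⟨nat_lit 0, nat_lit 0, nat_lit 1000, nat_lit 5, nat_lit 67, nat_lit 1000, nat_lit 144, nat_lit 1000, nat_lit 194400, nat_lit 323, nat_lit 41667, nat_lit 265, nat_lit 56625621, nat_lit 0, nat_lit 0, nat_lit 2712830, false, false⟩,
 nat_lit 0, nat_lit 11365, nat_lit 0, nat_lit 0, nat_lit 5723, nat_lit 0, nat_lit 111, nat_lit 0, nat_lit 0, nat_lit 0, nat_lit 0, nat_lit 0, nat_lit 0, nat_lit 28359452365074, nat_lit 115, nat_lit 1000000, nat_lit 0, nat_lit 0, [(nat_lit 3, [(nat_lit 6, nat_lit 1000)])],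
 ⟨p027_k7, nat_lit 0, nat_lit 0, nat_lit 172, nat_lit 0, nat_lit 95399, [nat_lit 3341142858, nat_lit 23600000], [], [nat_lit 12277978031, nat_lit 12792196690, nat_lit 11779795802, nat_lit 12102914044, nat_lit 13936801994, nat_lit 14393516132, nat_lit 13244670877, nat_lit 13695833304], nat_lit 1271250, nat_lit 1271250, nat_lit 111251, nat_lit 230001, nat_lit 1271250, nat_lit 1271250, [nat_lit 1412500, nat_lit 1271250], [nat_lit 51, nat_lit 40, nat_lit 20, nat_lit 80, nat_lit 1, nat_lit 373, nat_lit 150, nat_lit 11]⟩, C1.Rw.none,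
 ⟨nat_lit 6324, nat_lit 6520, ⟨.ofNat (nat_lit 121153), .ofNat (nat_lit 163247), .ofNat (nat_lit 163949), .ofNat (nat_lit 206043), .ofNat (nat_lit 129809), .ofNat (nat_lit 170942), .ofNat (nat_lit 172545), .ofNat (nat_lit 213677)⟩, ⟨.ofNat (nat_lit 307416), .ofNat (nat_lit 391604), .ofNat (nat_lit 328814), .ofNat (nat_lit 413002), .ofNat (nat_lit 307688), .ofNat (nat_lit 389952), .ofNat (nat_lit 329055), .ofNat (nat_lit 411320)⟩⟩, []⟩
noncomputable def b_VL_500_500_5_27 : St := ⟨true, nat_lit 1, nat_lit 1, nat_lit 1, nat_lit 40, nat_lit 230, nat_lit 240, nat_lit 200, nat_lit 240, nat_lit 0, nat_lit 40, nat_lit 20, nat_lit 40, nat_lit 200, nat_lit 240, nat_lit 0, nat_lit 320, nat_lit 8, nat_lit 20, nat_lit 0, nat_lit 0, nat_lit 0, nat_lit 0⟩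
theorem d_VL_500_500_5_27 (h : EB TB.env) : Dead b_VL_500_500_5_27 := chkB_sound0 h (T :=
(.spl (nat_lit 2) (nat_lit 20)
(.trX (nat_lit 23) (nat_lit 100) (nat_lit 90) (nat_lit 44) (nat_lit 288) (.leaf p027_l124))
(.leaf p027_l125))) (by decide +kernel)
noncomputable def p027_l126 : Lf2 := ⟨nat_lit 0, nat_lit 2, [nat_lit 10, nat_lit 5, nat_lit 5, nat_lit 20], true, nat_lit 240, nat_lit 260, nat_lit 0, nat_lit 288, ⟨nat_lit 0, nat_lit 0, nat_lit 1000, nat_lit 5, nat_lit 53, nat_lit 1000, nat_lit 169, nat_lit 1000, nat_lit 156852, nat_lit 312, nat_lit 26667, nat_lit 255, nat_lit 55003825, nat_lit 0, nat_lit 0, nat_lit 2833527, false, false⟩,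
 nat_lit 0, nat_lit 10610, nat_lit 0, nat_lit 0, nat_lit 5074, nat_lit 0, nat_lit 1052, nat_lit 0, nat_lit 0, nat_lit 0, nat_lit 0, nat_lit 0, nat_lit 0, nat_lit 0, nat_lit 53, nat_lit 1000000, nat_lit 0, nat_lit 0, [(nat_lit 3, [(nat_lit 6, nat_lit 1000)])],
 ⟨p027_k14, nat_lit 0, nat_lit 0, nat_lit 167, nat_lit 0, nat_lit 101647, [nat_lit 2101142858, nat_lit 11600000], [], [nat_lit 15609498940, nat_lit 16486305820, nat_lit 13990486408, nat_lit 14853807660, nat_lit 16770633320, nat_lit 17665172352, nat_lit 15127497496, nat_lit 15941119682], nat_lit 1271250, nat_lit 1271250, nat_lit 0, nat_lit 230001, nat_lit 1271250, nat_lit 1271250, [nat_lit 1412500, nat_lit 1271250], [nat_lit 26, nat_lit 40, nat_lit 20, nat_lit 80, nat_lit 2, nat_lit 289, nat_lit 75, nat_lit 9]⟩, C1.Rw.none,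
 ⟨nat_lit 6324, nat_lit 6709, ⟨.ofNat (nat_lit 69221), .ofNat (nat_lit 155377), .ofNat (nat_lit 90659), .ofNat (nat_lit 176815), .ofNat (nat_lit 88677), .ofNat (nat_lit 170942), .ofNat (nat_lit 110045), .ofNat (nat_lit 192309)⟩, ⟨.ofNat (nat_lit 393209), .ofNat (nat_lit 436286), .ofNat (nat_lit 414647), .ofNat (nat_lit 457725), .ofNat (nat_lit 389952), .ofNat (nat_lit 431084), .ofNat (nat_lit 411320), .ofNat (nat_lit 452452)⟩⟩, [⟨nat_lit 0, nat_lit 100, nat_lit 98, nat_lit 30, nat_lit 321557893⟩, ⟨nat_lit 4, nat_lit 93, nat_lit 100, nat_lit 53, nat_lit 241126613⟩]⟩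
noncomputable def p027_l127 : Lf2 := ⟨nat_lit 0, nat_lit 1, [nat_lit 19, nat_lit 5, nat_lit 5, nat_lit 20], true, nat_lit 260, nat_lit 280, nat_lit 0, nat_lit 80, ⟨nat_lit 0, nat_lit 0, nat_lit 1000, nat_lit 5, nat_lit 35, nat_lit 1000, nat_lit 186, nat_lit 1000, nat_lit 35833, nat_lit 261, nat_lit 12150, nat_lit 242, nat_lit 54100643, nat_lit 0, nat_lit 0, nat_lit 2781346, false, false⟩,
 nat_lit 0, nat_lit 11161, nat_lit 0, nat_lit 4184, nat_lit 5337, nat_lit 0, nat_lit 2272, nat_lit 0, nat_lit 0, nat_lit 0, nat_lit 0, nat_lit 0, nat_lit 0, nat_lit 0, nat_lit 53, nat_lit 1000000, nat_lit 0, nat_lit 0, [(nat_lit 3, [(nat_lit 6, nat_lit 1000)])],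
 ⟨p027_k28, nat_lit 0, nat_lit 0, nat_lit 154, nat_lit 0, nat_lit 58723, [nat_lit 2101142858, nat_lit 11600000], [], [nat_lit 16558666104, nat_lit 17895494076, nat_lit 16203384089, nat_lit 17539930822, nat_lit 18500575348, nat_lit 19741527304, nat_lit 18142953095, nat_lit 19385421016], nat_lit 1271250, nat_lit 1271250, nat_lit 0, nat_lit 21650, nat_lit 1271250, nat_lit 1271250, [nat_lit 1412500, nat_lit 1271250], [nat_lit 26, nat_lit 40, nat_lit 20, nat_lit 80, nat_lit 2, nat_lit 289, nat_lit 75, nat_lit 9]⟩, C1.Rw.none,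
 ⟨nat_lit 6324, nat_lit 6709, ⟨.ofNat (nat_lit 69221), .ofNat (nat_lit 77837), .ofNat (nat_lit 79940), .ofNat (nat_lit 88556), .ofNat (nat_lit 88677), .ofNat (nat_lit 96904), .ofNat (nat_lit 99361), .ofNat (nat_lit 107588)⟩, ⟨.ofNat (nat_lit 436286), .ofNat (nat_lit 479364), .ofNat (nat_lit 457725), .ofNat (nat_lit 500798), .ofNat (nat_lit 431084), .ofNat (nat_lit 472216), .ofNat (nat_lit 452452), .ofNat (nat_lit 493579)⟩⟩, [⟨nat_lit 0, nat_lit 100, nat_lit 99, nat_lit 17, nat_lit 555989874⟩, ⟨nat_lit 4, nat_lit 93, nat_lit 100, nat_lit 53, nat_lit 832639871⟩]⟩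
noncomputable def p027_l128 : Lf2 := ⟨nat_lit 0, nat_lit 1, [nat_lit 19, nat_lit 5, nat_lit 5, nat_lit 20], false, nat_lit 260, nat_lit 280, nat_lit 0, nat_lit 80, ⟨nat_lit 1000, nat_lit 0, nat_lit 0, nat_lit 0, nat_lit 0, nat_lit 0, nat_lit 0, nat_lit 0, nat_lit 0, nat_lit 0, nat_lit 0, nat_lit 0, nat_lit 0, nat_lit 0, nat_lit 0, nat_lit 0, false, false⟩,
 nat_lit 21582, nat_lit 271, nat_lit 0, nat_lit 82975, nat_lit 10451, nat_lit 9781, nat_lit 4962, nat_lit 0, nat_lit 0, nat_lit 17584, nat_lit 0, nat_lit 0, nat_lit 0, nat_lit 0, nat_lit 0, nat_lit 0, nat_lit 0, nat_lit 0, [],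
 ⟨p027_k28, nat_lit 0, nat_lit 0, nat_lit 158, nat_lit 0, nat_lit 99937, [nat_lit 6250000000, nat_lit 7968000000], [], [nat_lit 20431968792, nat_lit 22374069348, nat_lit 19693635618, nat_lit 21638041882, nat_lit 23471403804, nat_lit 25244150392, nat_lit 22731645061, nat_lit 24507904119], nat_lit 1271250, nat_lit 1271250, nat_lit 0, nat_lit 21650, nat_lit 1271250, nat_lit 1271250, [nat_lit 1412500, nat_lit 1271250], [nat_lit 26, nat_lit 40, nat_lit 20, nat_lit 80, nat_lit 2, nat_lit 289, nat_lit 75, nat_lit 9]⟩, ⟨p027_k29, nat_lit 0, nat_lit 0, nat_lit 293, nat_lit 0, nat_lit 106251, [nat_lit 6250000000, nat_lit 7968000000], [], [nat_lit 19730613396, nat_lit 20972898444, nat_lit 19281145776, nat_lit 20041250971, nat_lit 16740301907, nat_lit 15056149190, nat_lit 16623715326, nat_lit 14657623089], nat_lit 1271250, nat_lit 1271250, nat_lit 0, nat_lit 21650, nat_lit 0, nat_lit 490000, [nat_lit 1412500, nat_lit 1271250],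 [nat_lit 26, nat_lit 40, nat_lit 20, nat_lit 80, nat_lit 2, nat_lit 317, nat_lit 100, nat_lit 11]⟩,
 zbF0, [⟨nat_lit 0, nat_lit 100, nat_lit 99, nat_lit 22, nat_lit 10101010101⟩, ⟨nat_lit 0, nat_lit 100, nat_lit 100, nat_lit 15, nat_lit 6740666652⟩, ⟨nat_lit 16, nat_lit 100, nat_lit 93, nat_lit 53, nat_lit 1884695820⟩]⟩
noncomputable def p027_l129 : Lf2 := ⟨nat_lit 0, nat_lit 1, [nat_lit 19, nat_lit 5, nat_lit 5, nat_lit 20], false, nat_lit 260, nat_lit 280, nat_lit 80, nat_lit 120, ⟨nat_lit 138, nat_lit 0, nat_lit 862, nat_lit 5, nat_lit 38, nat_lit 862, nat_lit 186, nat_lit 862, nat_lit 35833, nat_lit 261, nat_lit 13067, nat_lit 243, nat_lit 54012152, nat_lit 0, nat_lit 0, nat_lit 2812772, false, false⟩,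
 nat_lit 10959, nat_lit 1679, nat_lit 0, nat_lit 7553, nat_lit 6044, nat_lit 4696, nat_lit 144, nat_lit 0, nat_lit 0, nat_lit 0, nat_lit 0, nat_lit 0, nat_lit 0, nat_lit 0, nat_lit 0, nat_lit 862000, nat_lit 0, nat_lit 0, [(nat_lit 3, [(nat_lit 6, nat_lit 862)])],
 ⟨p027_k28, nat_lit 0, nat_lit 0, nat_lit 158, nat_lit 0, nat_lit 99937, [nat_lit 1759965143, nat_lit 13119200], [], [nat_lit 17094142248, nat_lit 18514647912, nat_lit 16684354171, nat_lit 18106486262, nat_lit 19187782176, nat_lit 20502253648, nat_lit 18777330338, nat_lit 20093593788], nat_lit 1271250, nat_lit 1271250, nat_lit 0, nat_lit 21650, nat_lit 1271250, nat_lit 1271250, [nat_lit 1412500, nat_lit 1271250], [nat_lit 26, nat_lit 40, nat_lit 20, nat_lit 80, nat_lit 2, nat_lit 289, nat_lit 75, nat_lit 9]⟩, ⟨p027_k30, nat_lit 0, nat_lit 0, nat_lit 258, nat_lit 0, nat_lit 113294, [nat_lit 862500000, nat_lit 1099584000], [], [nat_lit 3110052200, nat_lit 2282763044,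 nat_lit 3059069087, nat_lit 1901823856, nat_lit 4070762632, nat_lit 1968101380, nat_lit 4026367068, nat_lit 1722366709], nat_lit 1271250, nat_lit 1271250, nat_lit 0, nat_lit 21650, nat_lit 490000, nat_lit 780000, [nat_lit 1412500, nat_lit 1271250], [nat_lit 26, nat_lit 40, nat_lit 20, nat_lit 80, nat_lit 2, nat_lit 317, nat_lit 100, nat_lit 11]⟩,
 ⟨nat_lit 6324, nat_lit 6709, ⟨.ofNat (nat_lit 69221), .ofNat (nat_lit 77837), .ofNat (nat_lit 90659), .ofNat (nat_lit 99275), .ofNat (nat_lit 88677), .ofNat (nat_lit 96904), .ofNat (nat_lit 110045), .ofNat (nat_lit 118272)⟩, ⟨.ofNat (nat_lit 436286), .ofNat (nat_lit 479364), .ofNat (nat_lit 457725), .ofNat (nat_lit 500798), .ofNat (nat_lit 431084), .ofNat (nat_lit 472216), .ofNat (nat_lit 452452), .ofNat (nat_lit 493579)⟩⟩, [⟨nat_lit 0, nat_lit 100, nat_lit 99, nat_lit 20, nat_lit 1217134957⟩, ⟨nat_lit 16, nat_lit 100, nat_lit 93, nat_lit 53, nat_lit 978051406⟩]⟩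
noncomputable def p027_l130 : Lf2 := ⟨nat_lit 0, nat_lit 1, [nat_lit 19, nat_lit 5, nat_lit 5, nat_lit 20], false, nat_lit 260, nat_lit 280, nat_lit 120, nat_lit 140, ⟨nat_lit 116, nat_lit 0, nat_lit 884, nat_lit 5, nat_lit 38, nat_lit 884, nat_lit 186, nat_lit 884, nat_lit 35833, nat_lit 261, nat_lit 13067, nat_lit 243, nat_lit 54012152, nat_lit 0, nat_lit 0, nat_lit 2812772, false, false⟩,
 nat_lit 11324, nat_lit 1072, nat_lit 0, nat_lit 7374, nat_lit 5928, nat_lit 4853, nat_lit 17, nat_lit 0, nat_lit 0, nat_lit 0, nat_lit 0, nat_lit 0, nat_lit 0, nat_lit 0, nat_lit 8, nat_lit 884000, nat_lit 0, nat_lit 0, [(nat_lit 3, [(nat_lit 6, nat_lit 884)])],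
 ⟨p027_k28, nat_lit 0, nat_lit 0, nat_lit 158, nat_lit 0, nat_lit 99937, [nat_lit 1805370286, nat_lit 2094400], [], [nat_lit 17006284776, nat_lit 18413061144, nat_lit 16611265913, nat_lit 18013529500, nat_lit 19075029712, nat_lit 20377438576, nat_lit 18673245812, nat_lit 19977401367], nat_lit 1271250, nat_lit 1271250, nat_lit 0, nat_lit 21650, nat_lit 1271250, nat_lit 1271250, [nat_lit 1412500, nat_lit 1271250], [nat_lit 26, nat_lit 40, nat_lit 20, nat_lit 80, nat_lit 2, nat_lit 289, nat_lit 75, nat_lit 9]⟩, ⟨p027_k30, nat_lit 0, nat_lit 0, nat_lit 238, nat_lit 0, nat_lit 113294, [nat_lit 725000000, nat_lit 924288000], [], [nat_lit 3089482160, nat_lit 1828509270, nat_lit 3041297584, nat_lit 1447328984, nat_lit 3794085874, nat_lit 1650690288, nat_lit 3749305192, nat_lit 1385125477], nat_lit 1271250, nat_lit 1271250, nat_lit 0, nat_lit 21650, nat_lit 780000, nat_lit 936251, [nat_lit 1412500, nat_lit 1271250], [nat_lit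 26, nat_lit 40, nat_lit 20, nat_lit 80, nat_lit 2, nat_lit 317, nat_lit 100, nat_lit 11]⟩,
 ⟨nat_lit 6324, nat_lit 6709, ⟨.ofNat (nat_lit 69221), .ofNat (nat_lit 77837), .ofNat (nat_lit 90659), .ofNat (nat_lit 99275), .ofNat (nat_lit 88677), .ofNat (nat_lit 96904), .ofNat (nat_lit 110045), .ofNat (nat_lit 118272)⟩, ⟨.ofNat (nat_lit 436286), .ofNat (nat_lit 479364), .ofNat (nat_lit 457725), .ofNat (nat_lit 500798), .ofNat (nat_lit 431084), .ofNat (nat_lit 472216), .ofNat (nat_lit 452452), .ofNat (nat_lit 493579)⟩⟩, [⟨nat_lit 0, nat_lit 100, nat_lit 99, nat_lit 20, nat_lit 1188138902⟩, ⟨nat_lit 16, nat_lit 100, nat_lit 93, nat_lit 53, nat_lit 954182620⟩]⟩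
noncomputable def p027_l131 : Lf2 := ⟨nat_lit 0, nat_lit 1, [nat_lit 19, nat_lit 5, nat_lit 5, nat_lit 20], true, nat_lit 260, nat_lit 280, nat_lit 140, nat_lit 160, ⟨nat_lit 0, nat_lit 0, nat_lit 1000, nat_lit 5, nat_lit 35, nat_lit 1000, nat_lit 186, nat_lit 1000, nat_lit 35833, nat_lit 261, nat_lit 12150, nat_lit 242, nat_lit 54100643, nat_lit 0, nat_lit 0, nat_lit 2781346, false, false⟩,
 nat_lit 0, nat_lit 11161, nat_lit 0, nat_lit 4184, nat_lit 5337, nat_lit 0, nat_lit 2272, nat_lit 0, nat_lit 0, nat_lit 0, nat_lit 0, nat_lit 0, nat_lit 0, nat_lit 0, nat_lit 53, nat_lit 1000000, nat_lit 0, nat_lit 0, [(nat_lit 3, [(nat_lit 6, nat_lit 1000)])],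
 ⟨p027_k28, nat_lit 0, nat_lit 0, nat_lit 154, nat_lit 0, nat_lit 58723, [nat_lit 2101142858, nat_lit 11600000], [], [nat_lit 16558666104, nat_lit 17895494076, nat_lit 16203384089, nat_lit 17539930822, nat_lit 18500575348, nat_lit 19741527304, nat_lit 18142953095, nat_lit 19385421016], nat_lit 1271250, nat_lit 1271250, nat_lit 0, nat_lit 21650, nat_lit 1271250, nat_lit 1271250, [nat_lit 1412500, nat_lit 1271250], [nat_lit 26, nat_lit 40, nat_lit 20, nat_lit 80, nat_lit 2, nat_lit 289, nat_lit 75, nat_lit 9]⟩, C1.Rw.none,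
 ⟨nat_lit 6324, nat_lit 6709, ⟨.ofNat (nat_lit 69221), .ofNat (nat_lit 77837), .ofNat (nat_lit 79940), .ofNat (nat_lit 88556), .ofNat (nat_lit 88677), .ofNat (nat_lit 96904), .ofNat (nat_lit 99361), .ofNat (nat_lit 107588)⟩, ⟨.ofNat (nat_lit 436286), .ofNat (nat_lit 479364), .ofNat (nat_lit 457725), .ofNat (nat_lit 500798), .ofNat (nat_lit 431084), .ofNat (nat_lit 472216), .ofNat (nat_lit 452452), .ofNat (nat_lit 493579)⟩⟩, [⟨nat_lit 0, nat_lit 100, nat_lit 99, nat_lit 17, nat_lit 555989874⟩, ⟨nat_lit 4, nat_lit 93, nat_lit 100, nat_lit 53, nat_lit 832639871⟩]⟩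
noncomputable def p027_l132 : Lf2 := ⟨nat_lit 0, nat_lit 1, [nat_lit 19, nat_lit 5, nat_lit 5, nat_lit 20], false, nat_lit 260, nat_lit 280, nat_lit 140, nat_lit 160, ⟨nat_lit 1000, nat_lit 0, nat_lit 0, nat_lit 0, nat_lit 0, nat_lit 0, nat_lit 0, nat_lit 0, nat_lit 0, nat_lit 0, nat_lit 0, nat_lit 0, nat_lit 0, nat_lit 0, nat_lit 0, nat_lit 0, false, false⟩,
 nat_lit 27300, nat_lit 0, nat_lit 0, nat_lit 51786, nat_lit 10451, nat_lit 12373, nat_lit 16937, nat_lit 0, nat_lit 0, nat_lit 0, nat_lit 0, nat_lit 0, nat_lit 0, nat_lit 0, nat_lit 0, nat_lit 0, nat_lit 0, nat_lit 0, [],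
 ⟨p027_k28, nat_lit 0, nat_lit 0, nat_lit 153, nat_lit 0, nat_lit 46030, [nat_lit 6250000000, nat_lit 7968000000], [], [nat_lit 20431968792, nat_lit 21403019070, nat_lit 19693635618, nat_lit 20665365739, nat_lit 23471403804, nat_lit 24357777098, nat_lit 22731645061, nat_lit 23619774590], nat_lit 1271250, nat_lit 1271250, nat_lit 0, nat_lit 21650, nat_lit 1271250, nat_lit 1271250, [nat_lit 1412500, nat_lit 1271250], [nat_lit 26, nat_lit 40, nat_lit 20, nat_lit 80, nat_lit 2, nat_lit 272, nat_lit 60, nat_lit 9]⟩, ⟨p027_k29, nat_lit 0, nat_lit 0, nat_lit 218, nat_lit 0, nat_lit 48938, [nat_lit 6250000000, nat_lit 7968000000], [], [nat_lit 8522835363, nat_lit 10046549016, nat_lit 7745426284, nat_lit 9123601180, nat_lit 8642895044, nat_lit 9996156402, nat_lit 7935656656, nat_lit 9091393148], nat_lit 1271250, nat_lit 1271250, nat_lit 0, nat_lit 21650, nat_lit 936251, nat_lit 1100001, [nat_lit 1412500, nat_lit 1271250], [nat_lit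 26, nat_lit 40, nat_lit 20, nat_lit 80, nat_lit 2, nat_lit 317, nat_lit 100, nat_lit 11]⟩,
 zbF0, [⟨nat_lit 0, nat_lit 100, nat_lit 99, nat_lit 20, nat_lit 10101010101⟩, ⟨nat_lit 4, nat_lit 92, nat_lit 100, nat_lit 53, nat_lit 1884695820⟩]⟩
noncomputable def p027_l133 : Lf2 := ⟨nat_lit 0, nat_lit 1, [nat_lit 19, nat_lit 5, nat_lit 5, nat_lit 20], true, nat_lit 260, nat_lit 280, nat_lit 160, nat_lit 180, ⟨nat_lit 0, nat_lit 0, nat_lit 1000, nat_lit 5, nat_lit 35, nat_lit 1000, nat_lit 186, nat_lit 1000, nat_lit 35833, nat_lit 261, nat_lit 12150, nat_lit 242, nat_lit 54100643, nat_lit 0, nat_lit 0, nat_lit 2781346, false, false⟩,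
 nat_lit 0, nat_lit 11161, nat_lit 0, nat_lit 4184, nat_lit 5337, nat_lit 0, nat_lit 2272, nat_lit 0, nat_lit 0, nat_lit 0, nat_lit 0, nat_lit 0, nat_lit 0, nat_lit 0, nat_lit 53, nat_lit 1000000, nat_lit 0, nat_lit 0, [(nat_lit 3, [(nat_lit 6, nat_lit 1000)])],
 ⟨p027_k28, nat_lit 0, nat_lit 0, nat_lit 154, nat_lit 0, nat_lit 58723, [nat_lit 2101142858, nat_lit 11600000], [], [nat_lit 16558666104, nat_lit 17895494076, nat_lit 16203384089, nat_lit 17539930822, nat_lit 18500575348, nat_lit 19741527304, nat_lit 18142953095, nat_lit 19385421016], nat_lit 1271250, nat_lit 1271250, nat_lit 0, nat_lit 21650, nat_lit 1271250, nat_lit 1271250, [nat_lit 1412500, nat_lit 1271250], [nat_lit 26, nat_lit 40, nat_lit 20, nat_lit 80, nat_lit 2, nat_lit 289, nat_lit 75, nat_lit 9]⟩, C1.Rw.none,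
 ⟨nat_lit 6324, nat_lit 6709, ⟨.ofNat (nat_lit 69221), .ofNat (nat_lit 77837), .ofNat (nat_lit 79940), .ofNat (nat_lit 88556), .ofNat (nat_lit 88677), .ofNat (nat_lit 96904), .ofNat (nat_lit 99361), .ofNat (nat_lit 107588)⟩, ⟨.ofNat (nat_lit 436286), .ofNat (nat_lit 479364), .ofNat (nat_lit 457725), .ofNat (nat_lit 500798), .ofNat (nat_lit 431084), .ofNat (nat_lit 472216), .ofNat (nat_lit 452452), .ofNat (nat_lit 493579)⟩⟩, [⟨nat_lit 0, nat_lit 100, nat_lit 99, nat_lit 17, nat_lit 555989874⟩, ⟨nat_lit 4, nat_lit 93, nat_lit 100, nat_lit 53, nat_lit 832639871⟩]⟩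
noncomputable def p027_l134 : Lf2 := ⟨nat_lit 0, nat_lit 1, [nat_lit 19, nat_lit 5, nat_lit 5, nat_lit 20], true, nat_lit 260, nat_lit 280, nat_lit 160, nat_lit 180, ⟨nat_lit 0, nat_lit 0, nat_lit 1000, nat_lit 5, nat_lit 37, nat_lit 1000, nat_lit 187, nat_lit 1000, nat_lit 35844, nat_lit 261, nat_lit 13067, nat_lit 243, nat_lit 53946351, nat_lit 0, nat_lit 0, nat_lit 2813054, false, false⟩,
 nat_lit 0, nat_lit 11150, nat_lit 0, nat_lit 113245, nat_lit 5332, nat_lit 0, nat_lit 0, nat_lit 0, nat_lit 0, nat_lit 0, nat_lit 0, nat_lit 0, nat_lit 0, nat_lit 0, nat_lit 53, nat_lit 1000000, nat_lit 0, nat_lit 0, [(nat_lit 3, [(nat_lit 6, nat_lit 1000)])],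
 ⟨p027_k28, nat_lit 0, nat_lit 0, nat_lit 151, nat_lit 0, nat_lit 21567, [nat_lit 2101142858, nat_lit 11600000], [], [nat_lit 16554879144, nat_lit 16888938192, nat_lit 16210157126, nat_lit 16532724040, nat_lit 18495715328, nat_lit 18805823332, nat_lit 18138466693, nat_lit 18448953200], nat_lit 1271250, nat_lit 1271250, nat_lit 0, nat_lit 21650, nat_lit 1271250, nat_lit 1271250, [nat_lit 1412500, nat_lit 1271250], [nat_lit 26, nat_lit 40, nat_lit 20, nat_lit 80, nat_lit 2, nat_lit 272, nat_lit 60, nat_lit 9]⟩, C1.Rw.none,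
 ⟨nat_lit 6614, nat_lit 6709, ⟨.ofNat (nat_lit 79940), .ofNat (nat_lit 88556), .ofNat (nat_lit 90659), .ofNat (nat_lit 99275), .ofNat (nat_lit 84877), .ofNat (nat_lit 93394), .ofNat (nat_lit 95585), .ofNat (nat_lit 104102)⟩, ⟨.ofNat (nat_lit 436286), .ofNat (nat_lit 479364), .ofNat (nat_lit 457725), .ofNat (nat_lit 500802), .ofNat (nat_lit 434995), .ofNat (nat_lit 477577), .ofNat (nat_lit 456412), .ofNat (nat_lit 498994)⟩⟩, [⟨nat_lit 0, nat_lit 100, nat_lit 100, nat_lit 19, nat_lit 10000000000⟩, ⟨nat_lit 0, nat_lit 100, nat_lit 100, nat_lit 22, nat_lit 10000000000⟩, ⟨nat_lit 4, nat_lit 91, nat_lit 100, nat_lit 53, nat_lit 826188106⟩]⟩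
noncomputable def p027_l135 : Lf2 := ⟨nat_lit 0, nat_lit 1, [nat_lit 19, nat_lit 5, nat_lit 5, nat_lit 20], true, nat_lit 260, nat_lit 280, nat_lit 160, nat_lit 180, ⟨nat_lit 0, nat_lit 0, nat_lit 1000, nat_lit 5, nat_lit 39, nat_lit 1000, nat_lit 186, nat_lit 1000, nat_lit 41105, nat_lit 263, nat_lit 14017, nat_lit 244, nat_lit 53928641, nat_lit 0, nat_lit 0, nat_lit 2834367, false, false⟩,
 nat_lit 0, nat_lit 10750, nat_lit 0, nat_lit 41919, nat_lit 5277, nat_lit 0, nat_lit 0, nat_lit 0, nat_lit 0, nat_lit 0, nat_lit 0, nat_lit 0, nat_lit 0, nat_lit 0, nat_lit 53, nat_lit 1000000, nat_lit 0, nat_lit 0, [(nat_lit 3, [(nat_lit 6, nat_lit 1000)])],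
 ⟨p027_k31, nat_lit 0, nat_lit 0, nat_lit 150, nat_lit 0, nat_lit 44686, [nat_lit 2101142858, nat_lit 11600000], [], [nat_lit 16845654237, nat_lit 17178085890, nat_lit 16493610724, nat_lit 16826314653, nat_lit 18750933277, nat_lit 19059611446, nat_lit 18398167575, nat_lit 18707218880], nat_lit 1271250, nat_lit 1271250, nat_lit 0, nat_lit 21650, nat_lit 1271250, nat_lit 1271250, [nat_lit 1412500, nat_lit 1271250], [nat_lit 26, nat_lit 40, nat_lit 20, nat_lit 80, nat_lit 2, nat_lit 272, nat_lit 60, nat_lit 9]⟩, C1.Rw.none,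
 ⟨nat_lit 6519, nat_lit 6615, ⟨.ofNat (nat_lit 84877), .ofNat (nat_lit 93394), .ofNat (nat_lit 95585), .ofNat (nat_lit 104102), .ofNat (nat_lit 89758), .ofNat (nat_lit 98177), .ofNat (nat_lit 100457), .ofNat (nat_lit 108876)⟩, ⟨.ofNat (nat_lit 434995), .ofNat (nat_lit 477578), .ofNat (nat_lit 456412), .ofNat (nat_lit 498994), .ofNat (nat_lit 433698), .ofNat (nat_lit 475792), .ofNat (nat_lit 455096), .ofNat (nat_lit 497189)⟩⟩, [⟨nat_lit 0, nat_lit 100, nat_lit 99, nat_lit 21, nat_lit 10101010101⟩, ⟨nat_lit 4, nat_lit 92, nat_lit 100, nat_lit 53, nat_lit 819831584⟩]⟩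
noncomputable def p027_l136 : Lf2 := ⟨nat_lit 0, nat_lit 2, [nat_lit 10, nat_lit 5, nat_lit 5, nat_lit 20], true, nat_lit 260, nat_lit 280, nat_lit 0, nat_lit 180, ⟨nat_lit 0, nat_lit 0, nat_lit 1000, nat_lit 5, nat_lit 38, nat_lit 1000, nat_lit 186, nat_lit 1000, nat_lit 35833, nat_lit 261, nat_lit 13067, nat_lit 243, nat_lit 54012152, nat_lit 0, nat_lit 0, nat_lit 2812772, false, false⟩,
 nat_lit 0, nat_lit 11161, nat_lit 0, nat_lit 405741, nat_lit 5337, nat_lit 0, nat_lit 0, nat_lit 0, nat_lit 0, nat_lit 0, nat_lit 0, nat_lit 0, nat_lit 0, nat_lit 0, nat_lit 53, nat_lit 1000000, nat_lit 0, nat_lit 0, [(nat_lit 3, [(nat_lit 6, nat_lit 1000)])],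
 ⟨p027_k14, nat_lit 0, nat_lit 0, nat_lit 153, nat_lit 0, nat_lit 45001, [nat_lit 2101142858, nat_lit 11600000], [], [nat_lit 16558666104, nat_lit 17895494076, nat_lit 16203384089, nat_lit 17539930822, nat_lit 18500575348, nat_lit 19741527304, nat_lit 18142953095, nat_lit 19385421016], nat_lit 1271250, nat_lit 1271250, nat_lit 0, nat_lit 21650, nat_lit 1271250, nat_lit 1271250, [nat_lit 1412500, nat_lit 1271250], [nat_lit 26, nat_lit 40, nat_lit 20, nat_lit 80, nat_lit 2, nat_lit 289, nat_lit 75, nat_lit 9]⟩, C1.Rw.none,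
 ⟨nat_lit 6324, nat_lit 6709, ⟨.ofNat (nat_lit 69221), .ofNat (nat_lit 77837), .ofNat (nat_lit 90659), .ofNat (nat_lit 99275), .ofNat (nat_lit 88677), .ofNat (nat_lit 96904), .ofNat (nat_lit 110045), .ofNat (nat_lit 118272)⟩, ⟨.ofNat (nat_lit 436286), .ofNat (nat_lit 479364), .ofNat (nat_lit 457725), .ofNat (nat_lit 500798), .ofNat (nat_lit 431084), .ofNat (nat_lit 472216), .ofNat (nat_lit 452452), .ofNat (nat_lit 493579)⟩⟩, [⟨nat_lit 0, nat_lit 100, nat_lit 99, nat_lit 20, nat_lit 10101010101⟩, ⟨nat_lit 0, nat_lit 100, nat_lit 98, nat_lit 30, nat_lit 10204081633⟩, ⟨nat_lit 0, nat_lit 100, nat_lit 99, nat_lit 10, nat_lit 10101010101⟩, ⟨nat_lit 16, nat_lit 100, nat_lit 93, nat_lit 53, nat_lit 10752688172⟩, ⟨nat_lit 4, nat_lit 93, nat_lit 100, nat_lit 53, nat_lit 10752688172⟩]⟩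
noncomputable def p027_l137 : Lf2 := ⟨nat_lit 0, nat_lit 1, [nat_lit 19, nat_lit 5, nat_lit 5, nat_lit 20], true, nat_lit 260, nat_lit 280, nat_lit 0, nat_lit 196, ⟨nat_lit 0, nat_lit 0, nat_lit 1000, nat_lit 5, nat_lit 39, nat_lit 1000, nat_lit 186, nat_lit 1000, nat_lit 35833, nat_lit 261, nat_lit 14017, nat_lit 244, nat_lit 53960275, nat_lit 0, nat_lit 0, nat_lit 2830867, false, false⟩,
 nat_lit 0, nat_lit 11158, nat_lit 0, nat_lit 1954, nat_lit 5336, nat_lit 0, nat_lit 0, nat_lit 0, nat_lit 0, nat_lit 0, nat_lit 0, nat_lit 0, nat_lit 0, nat_lit 0, nat_lit 53, nat_lit 1000000, nat_lit 0, nat_lit 0, [(nat_lit 3, [(nat_lit 6, nat_lit 1000)])],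
 ⟨p027_k28, nat_lit 0, nat_lit 0, nat_lit 152, nat_lit 0, nat_lit 58723, [nat_lit 2101142858, nat_lit 11600000], [], [nat_lit 16204738697, nat_lit 17539129471, nat_lit 15980335921, nat_lit 17183640613, nat_lit 18142055815, nat_lit 19384419357, nat_lit 17784508285, nat_lit 19028387402], nat_lit 1271250, nat_lit 1271250, nat_lit 21650, nat_lit 43600, nat_lit 1271250, nat_lit 1271250, [nat_lit 1412500, nat_lit 1271250], [nat_lit 26, nat_lit 40, nat_lit 20, nat_lit 80, nat_lit 2, nat_lit 289, nat_lit 75, nat_lit 9]⟩, C1.Rw.none,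
 ⟨nat_lit 6324, nat_lit 6709, ⟨.ofNat (nat_lit 77837), .ofNat (nat_lit 86452), .ofNat (nat_lit 88556), .ofNat (nat_lit 97171), .ofNat (nat_lit 96904), .ofNat (nat_lit 105130), .ofNat (nat_lit 107588), .ofNat (nat_lit 115814)⟩, ⟨.ofNat (nat_lit 436286), .ofNat (nat_lit 479364), .ofNat (nat_lit 457725), .ofNat (nat_lit 500798), .ofNat (nat_lit 431084), .ofNat (nat_lit 472216), .ofNat (nat_lit 452452), .ofNat (nat_lit 493579)⟩⟩, [⟨nat_lit 4, nat_lit 93, nat_lit 100, nat_lit 53, nat_lit 831407549⟩]⟩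
noncomputable def p027_l138 : Lf2 := ⟨nat_lit 0, nat_lit 1, [nat_lit 19, nat_lit 5, nat_lit 5, nat_lit 20], false, nat_lit 260, nat_lit 280, nat_lit 0, nat_lit 80, ⟨nat_lit 1000, nat_lit 0, nat_lit 0, nat_lit 0, nat_lit 0, nat_lit 0, nat_lit 0, nat_lit 0, nat_lit 0, nat_lit 0, nat_lit 0, nat_lit 0, nat_lit 0, nat_lit 0, nat_lit 0, nat_lit 0, false, false⟩,
 nat_lit 21582, nat_lit 0, nat_lit 0, nat_lit 38060, nat_lit 9272, nat_lit 9781, nat_lit 0, nat_lit 0, nat_lit 0, nat_lit 12678, nat_lit 0, nat_lit 0, nat_lit 0, nat_lit 0, nat_lit 0, nat_lit 0, nat_lit 0, nat_lit 0, [],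
 ⟨p027_k28, nat_lit 0, nat_lit 0, nat_lit 148, nat_lit 0, nat_lit 9713, [nat_lit 6250000000, nat_lit 7968000000], [], [nat_lit 19570626046, nat_lit 19711347611, nat_lit 19056332656, nat_lit 19197112876, nat_lit 21710165017, nat_lit 21839517924, nat_lit 21193948376, nat_lit 21323385832], nat_lit 1271250, nat_lit 1271250, nat_lit 21650, nat_lit 43600, nat_lit 1271250, nat_lit 1271250, [nat_lit 1412500, nat_lit 1271250], [nat_lit 26, nat_lit 40, nat_lit 20, nat_lit 80, nat_lit 2, nat_lit 272, nat_lit 60, nat_lit 9]⟩, ⟨p027_k29, nat_lit 0, nat_lit 0, nat_lit 283, nat_lit 0, nat_lit 10454, [nat_lit 6250000000, nat_lit 7968000000], [], [nat_lit 19256613183, nat_lit 20041254720, nat_lit 18713277705, nat_lit 19498112272, nat_lit 16623715326, nat_lit 14043088490, nat_lit 16520065944, nat_lit 13902245849], nat_lit 1271250, nat_lit 1271250, nat_lit 21650, nat_lit 43600, nat_lit 0, nat_lit 490000, [nat_lit 1412500, nat_lit 1271250],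 [nat_lit 26, nat_lit 40, nat_lit 20, nat_lit 80, nat_lit 2, nat_lit 317, nat_lit 100, nat_lit 11]⟩,
 zbF0, [⟨nat_lit 0, nat_lit 100, nat_lit 100, nat_lit 21, nat_lit 2214674710⟩, ⟨nat_lit 4, nat_lit 91, nat_lit 100, nat_lit 53, nat_lit 1455061542⟩]⟩
noncomputable def p027_l139 : Lf2 := ⟨nat_lit 1, nat_lit 1, [nat_lit 19, nat_lit 5, nat_lit 5, nat_lit 20], false, nat_lit 260, nat_lit 280, nat_lit 80, nat_lit 196, zbN0,
 nat_lit 0, nat_lit 0, nat_lit 0, nat_lit 0, nat_lit 0, nat_lit 0, nat_lit 0, nat_lit 0, nat_lit 0, nat_lit 0, nat_lit 0, nat_lit 0, nat_lit 0, nat_lit 0, nat_lit 0, nat_lit 0, nat_lit 0, nat_lit 0, [],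
 C1.Rw.none, C1.Rw.none,
 zbF0, []⟩
noncomputable def p027_l140 : Lf2 := ⟨nat_lit 0, nat_lit 1, [nat_lit 19, nat_lit 5, nat_lit 5, nat_lit 20], false, nat_lit 260, nat_lit 280, nat_lit 80, nat_lit 196, ⟨nat_lit 1000, nat_lit 0, nat_lit 0, nat_lit 0, nat_lit 0, nat_lit 0, nat_lit 0, nat_lit 0, nat_lit 0, nat_lit 0, nat_lit 0, nat_lit 0, nat_lit 0, nat_lit 0, nat_lit 0, nat_lit 0, false, false⟩,
 nat_lit 24780, nat_lit 0, nat_lit 0, nat_lit 821, nat_lit 9282, nat_lit 11540, nat_lit 0, nat_lit 0, nat_lit 0, nat_lit 0, nat_lit 0, nat_lit 0, nat_lit 0, nat_lit 0, nat_lit 0, nat_lit 0, nat_lit 0, nat_lit 0, [],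
 ⟨p027_k28, nat_lit 0, nat_lit 0, nat_lit 148, nat_lit 0, nat_lit 9713, [nat_lit 6250000000, nat_lit 7968000000], [], [nat_lit 19566555669, nat_lit 19707361621, nat_lit 19051656647, nat_lit 19192521393, nat_lit 21707655547, nat_lit 21848148344, nat_lit 21190832206, nat_lit 21320343549], nat_lit 1271250, nat_lit 1271250, nat_lit 21650, nat_lit 43600, nat_lit 1271250, nat_lit 1271250, [nat_lit 1412500, nat_lit 1271250], [nat_lit 26, nat_lit 40, nat_lit 20, nat_lit 80, nat_lit 2, nat_lit 272, nat_lit 60, nat_lit 9]⟩, ⟨p027_k32, nat_lit 0, nat_lit 0, nat_lit 241, nat_lit 0, nat_lit 10072, [nat_lit 6250000000, nat_lit 7968000000], [], [nat_lit 8502958359, nat_lit 9130339497, nat_lit 7810533287, nat_lit 8438066072, nat_lit 12179389855, nat_lit 12716673353, nat_lit 11526161178, nat_lit 12024425944], nat_lit 1271250, nat_lit 1271250, nat_lit 21650, nat_lit 43600, nat_lit 490000, nat_lit 1396250, [nat_lit 1412500, nat_lit 1271250],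 [nat_lit 26, nat_lit 40, nat_lit 20, nat_lit 80, nat_lit 2, nat_lit 345, nat_lit 125, nat_lit 12]⟩,
 zbF0, [⟨nat_lit 0, nat_lit 100, nat_lit 100, nat_lit 21, nat_lit 1029446654⟩, ⟨nat_lit 4, nat_lit 91, nat_lit 100, nat_lit 53, nat_lit 800053093⟩, ⟨nat_lit 23, nat_lit 94, nat_lit 100, nat_lit 24, nat_lit 1459926889⟩]⟩
noncomputable def p027_l141 : Lf2 := ⟨nat_lit 0, nat_lit 1, [nat_lit 19, nat_lit 5, nat_lit 5, nat_lit 20], true, nat_lit 260, nat_lit 280, nat_lit 0, nat_lit 196, ⟨nat_lit 0, nat_lit 0, nat_lit 1000, nat_lit 5, nat_lit 40, nat_lit 1000, nat_lit 187, nat_lit 1000, nat_lit 38957, nat_lit 262, nat_lit 15000, nat_lit 245, nat_lit 53801166, nat_lit 0, nat_lit 0, nat_lit 2863568, false, false⟩,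
 nat_lit 0, nat_lit 9824, nat_lit 0, nat_lit 0, nat_lit 4748, nat_lit 0, nat_lit 0, nat_lit 0, nat_lit 0, nat_lit 0, nat_lit 0, nat_lit 0, nat_lit 0, nat_lit 0, nat_lit 53, nat_lit 1000000, nat_lit 0, nat_lit 0, [(nat_lit 3, [(nat_lit 6, nat_lit 1000)])],
 ⟨p027_k33, nat_lit 0, nat_lit 0, nat_lit 147, nat_lit 0, nat_lit 13468, [nat_lit 2101142858, nat_lit 11600000], [], [nat_lit 16305752209, nat_lit 16357024584, nat_lit 16065442598, nat_lit 16116712904, nat_lit 17732592363, nat_lit 17791603296, nat_lit 17490857700, nat_lit 17538863279], nat_lit 1271250, nat_lit 1271250, nat_lit 21650, nat_lit 43600, nat_lit 1271250, nat_lit 1271250, [nat_lit 1412500, nat_lit 1271250], [nat_lit 26, nat_lit 40, nat_lit 20, nat_lit 80, nat_lit 2, nat_lit 272, nat_lit 60, nat_lit 9]⟩, C1.Rw.none,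
 ⟨nat_lit 6652, nat_lit 6671, ⟨.ofNat (nat_lit 90498), .ofNat (nat_lit 99073), .ofNat (nat_lit 101212), .ofNat (nat_lit 109788), .ofNat (nat_lit 91465), .ofNat (nat_lit 100021), .ofNat (nat_lit 102178), .ofNat (nat_lit 110734)⟩, ⟨.ofNat (nat_lit 435770), .ofNat (nat_lit 478649), .ofNat (nat_lit 457200), .ofNat (nat_lit 500079), .ofNat (nat_lit 435512), .ofNat (nat_lit 478292), .ofNat (nat_lit 456937), .ofNat (nat_lit 499717)⟩⟩, [⟨nat_lit 0, nat_lit 100, nat_lit 100, nat_lit 21, nat_lit 404610747⟩, ⟨nat_lit 4, nat_lit 91, nat_lit 100, nat_lit 53, nat_lit 590800695⟩]⟩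
noncomputable def p027_l142 : Lf2 := ⟨nat_lit 0, nat_lit 1, [nat_lit 19, nat_lit 5, nat_lit 5, nat_lit 20], true, nat_lit 260, nat_lit 280, nat_lit 0, nat_lit 196, ⟨nat_lit 0, nat_lit 0, nat_lit 1000, nat_lit 5, nat_lit 41, nat_lit 1000, nat_lit 187, nat_lit 1000, nat_lit 38009, nat_lit 262, nat_lit 16017, nat_lit 246, nat_lit 53795415, nat_lit 0, nat_lit 0, nat_lit 2869866, false, false⟩,
 nat_lit 0, nat_lit 9753, nat_lit 0, nat_lit 0, nat_lit 4738, nat_lit 0, nat_lit 0, nat_lit 0, nat_lit 0, nat_lit 0, nat_lit 0, nat_lit 0, nat_lit 0, nat_lit 0, nat_lit 53, nat_lit 1000000, nat_lit 0, nat_lit 0, [(nat_lit 3, [(nat_lit 6, nat_lit 1000)])],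
 ⟨p027_k34, nat_lit 0, nat_lit 0, nat_lit 148, nat_lit 0, nat_lit 21176, [nat_lit 2101142858, nat_lit 11600000], [], [nat_lit 16360968380, nat_lit 16463428743, nat_lit 16121262124, nat_lit 16223718210, nat_lit 17782991377, nat_lit 17900468450, nat_lit 17541868619, nat_lit 17637805890], nat_lit 1271250, nat_lit 1271250, nat_lit 21650, nat_lit 43600, nat_lit 1271250, nat_lit 1271250, [nat_lit 1412500, nat_lit 1271250], [nat_lit 26, nat_lit 40, nat_lit 20, nat_lit 80, nat_lit 2, nat_lit 272, nat_lit 60, nat_lit 9]⟩, C1.Rw.none,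
 ⟨nat_lit 6614, nat_lit 6653, ⟨.ofNat (nat_lit 91465), .ofNat (nat_lit 100021), .ofNat (nat_lit 102178), .ofNat (nat_lit 110734), .ofNat (nat_lit 93394), .ofNat (nat_lit 101910), .ofNat (nat_lit 104102), .ofNat (nat_lit 112619)⟩, ⟨.ofNat (nat_lit 435512), .ofNat (nat_lit 478292), .ofNat (nat_lit 456937), .ofNat (nat_lit 499717), .ofNat (nat_lit 434995), .ofNat (nat_lit 477578), .ofNat (nat_lit 456412), .ofNat (nat_lit 498994)⟩⟩, [⟨nat_lit 0, nat_lit 100, nat_lit 100, nat_lit 22, nat_lit 404233894⟩, ⟨nat_lit 4, nat_lit 91, nat_lit 100, nat_lit 53, nat_lit 589790284⟩]⟩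
noncomputable def p027_l143 : Lf2 := ⟨nat_lit 0, nat_lit 1, [nat_lit 19, nat_lit 5, nat_lit 5, nat_lit 20], true, nat_lit 260, nat_lit 280, nat_lit 0, nat_lit 196, ⟨nat_lit 0, nat_lit 0, nat_lit 1000, nat_lit 5, nat_lit 41, nat_lit 1000, nat_lit 186, nat_lit 1000, nat_lit 41105, nat_lit 263, nat_lit 16017, nat_lit 246, nat_lit 53828750, nat_lit 0, nat_lit 0, nat_lit 2868596, false, false⟩,
 nat_lit 0, nat_lit 10750, nat_lit 0, nat_lit 5541, nat_lit 5277, nat_lit 0, nat_lit 0, nat_lit 0, nat_lit 0, nat_lit 0, nat_lit 0, nat_lit 0, nat_lit 0, nat_lit 0, nat_lit 53, nat_lit 1000000, nat_lit 0, nat_lit 0, [(nat_lit 3, [(nat_lit 6, nat_lit 1000)])],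
 ⟨p027_k31, nat_lit 0, nat_lit 0, nat_lit 147, nat_lit 0, nat_lit 23453, [nat_lit 2101142858, nat_lit 11600000], [], [nat_lit 16493610724, nat_lit 16826314653, nat_lit 16272109399, nat_lit 16480940028, nat_lit 18398167575, nat_lit 18707218880, nat_lit 18045401873, nat_lit 18354826313], nat_lit 1271250, nat_lit 1271250, nat_lit 21650, nat_lit 43600, nat_lit 1271250, nat_lit 1271250, [nat_lit 1412500, nat_lit 1271250], [nat_lit 26, nat_lit 40, nat_lit 20, nat_lit 80, nat_lit 2, nat_lit 272, nat_lit 60, nat_lit 9]⟩, C1.Rw.none,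
 ⟨nat_lit 6519, nat_lit 6615, ⟨.ofNat (nat_lit 93394), .ofNat (nat_lit 101910), .ofNat (nat_lit 98748), .ofNat (nat_lit 107264), .ofNat (nat_lit 98177), .ofNat (nat_lit 106595), .ofNat (nat_lit 103526), .ofNat (nat_lit 111945)⟩, ⟨.ofNat (nat_lit 434995), .ofNat (nat_lit 477578), .ofNat (nat_lit 456412), .ofNat (nat_lit 498994), .ofNat (nat_lit 433698), .ofNat (nat_lit 475792), .ofNat (nat_lit 455096), .ofNat (nat_lit 497189)⟩⟩, [⟨nat_lit 0, nat_lit 100, nat_lit 99, nat_lit 20, nat_lit 384286661⟩, ⟨nat_lit 4, nat_lit 92, nat_lit 100, nat_lit 53, nat_lit 819831585⟩]⟩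
noncomputable def p027_l144 : Lf2 := ⟨nat_lit 0, nat_lit 1, [nat_lit 19, nat_lit 5, nat_lit 5, nat_lit 20], true, nat_lit 260, nat_lit 280, nat_lit 0, nat_lit 196, ⟨nat_lit 0, nat_lit 0, nat_lit 1000, nat_lit 5, nat_lit 43, nat_lit 1000, nat_lit 186, nat_lit 1000, nat_lit 41105, nat_lit 263, nat_lit 17067, nat_lit 247, nat_lit 53753171, nat_lit 0, nat_lit 0, nat_lit 2893973, false, false⟩,
 nat_lit 0, nat_lit 10750, nat_lit 0, nat_lit 2044, nat_lit 5277, nat_lit 0, nat_lit 0, nat_lit 0, nat_lit 0, nat_lit 0, nat_lit 0, nat_lit 0, nat_lit 0, nat_lit 0, nat_lit 53, nat_lit 1000000, nat_lit 0, nat_lit 0, [(nat_lit 3, [(nat_lit 6, nat_lit 1000)])],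
 ⟨p027_k31, nat_lit 0, nat_lit 0, nat_lit 148, nat_lit 0, nat_lit 36052, [nat_lit 2101142858, nat_lit 11600000], [], [nat_lit 16493610724, nat_lit 16826314653, nat_lit 16272109399, nat_lit 16480940028, nat_lit 18398167575, nat_lit 18707218880, nat_lit 18045401873, nat_lit 18354826313], nat_lit 1271250, nat_lit 1271250, nat_lit 21650, nat_lit 43600, nat_lit 1271250, nat_lit 1271250, [nat_lit 1412500, nat_lit 1271250], [nat_lit 26, nat_lit 40, nat_lit 20, nat_lit 80, nat_lit 2, nat_lit 272, nat_lit 60, nat_lit 9]⟩, C1.Rw.none,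
 ⟨nat_lit 6519, nat_lit 6615, ⟨.ofNat (nat_lit 98748), .ofNat (nat_lit 107264), .ofNat (nat_lit 101960), .ofNat (nat_lit 110477), .ofNat (nat_lit 103526), .ofNat (nat_lit 111945), .ofNat (nat_lit 106736), .ofNat (nat_lit 115155)⟩, ⟨.ofNat (nat_lit 434995), .ofNat (nat_lit 477578), .ofNat (nat_lit 456412), .ofNat (nat_lit 498994), .ofNat (nat_lit 433698), .ofNat (nat_lit 475792), .ofNat (nat_lit 455096), .ofNat (nat_lit 497189)⟩⟩, [⟨nat_lit 0, nat_lit 100, nat_lit 99, nat_lit 22, nat_lit 385580910⟩, ⟨nat_lit 4, nat_lit 92, nat_lit 100, nat_lit 53, nat_lit 819831585⟩]⟩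
noncomputable def p027_l145 : Lf2 := ⟨nat_lit 0, nat_lit 1, [nat_lit 19, nat_lit 5, nat_lit 5, nat_lit 20], false, nat_lit 260, nat_lit 280, nat_lit 0, nat_lit 80, ⟨nat_lit 953, nat_lit 0, nat_lit 47, nat_lit 5, nat_lit 44, nat_lit 47, nat_lit 186, nat_lit 47, nat_lit 41105, nat_lit 263, nat_lit 18150, nat_lit 248, nat_lit 53705206, nat_lit 0, nat_lit 0, nat_lit 2909860, false, false⟩,
 nat_lit 19699, nat_lit 939, nat_lit 0, nat_lit 26939, nat_lit 10131, nat_lit 9322, nat_lit 3648, nat_lit 0, nat_lit 0, nat_lit 6725, nat_lit 0, nat_lit 0, nat_lit 0, nat_lit 0, nat_lit 0, nat_lit 47000, nat_lit 0, nat_lit 0, [(nat_lit 3, [(nat_lit 6, nat_lit 47)])],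
 ⟨p027_k31, nat_lit 0, nat_lit 0, nat_lit 148, nat_lit 0, nat_lit 44686, [nat_lit 6005183715, nat_lit 7534265200], [], [nat_lit 19955160220, nat_lit 20427929259, nat_lit 19441107512, nat_lit 19714661134, nat_lit 22880229825, nat_lit 23315944318, nat_lit 22165229519, nat_lit 22601790898], nat_lit 1271250, nat_lit 1271250, nat_lit 21650, nat_lit 43600, nat_lit 1271250, nat_lit 1271250, [nat_lit 1412500, nat_lit 1271250], [nat_lit 26, nat_lit 40, nat_lit 20, nat_lit 80, nat_lit 2, nat_lit 272, nat_lit 60, nat_lit 9]⟩, ⟨p027_k35, nat_lit 0, nat_lit 0, nat_lit 282, nat_lit 0, nat_lit 46587, [nat_lit 5956250000, nat_lit 7593504000], [], [nat_lit 18948618069, nat_lit 19098766136, nat_lit 18430923774, nat_lit 18580713898, nat_lit 13842449354, nat_lit 13381981085, nat_lit 13746736152, nat_lit 13247741797], nat_lit 1271250, nat_lit 1271250, nat_lit 21650, nat_lit 43600, nat_lit 0, nat_lit 490000, [nat_lit 1412500, nat_lit 1271250],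 [nat_lit 26, nat_lit 40, nat_lit 20, nat_lit 80, nat_lit 2, nat_lit 317, nat_lit 100, nat_lit 11]⟩,
 ⟨nat_lit 6519, nat_lit 6615, ⟨.ofNat (nat_lit 101960), .ofNat (nat_lit 110477), .ofNat (nat_lit 104102), .ofNat (nat_lit 112619), .ofNat (nat_lit 106736), .ofNat (nat_lit 115155), .ofNat (nat_lit 108876), .ofNat (nat_lit 117294)⟩, ⟨.ofNat (nat_lit 434995), .ofNat (nat_lit 477578), .ofNat (nat_lit 456412), .ofNat (nat_lit 498994), .ofNat (nat_lit 433698), .ofNat (nat_lit 475792), .ofNat (nat_lit 455096), .ofNat (nat_lit 497189)⟩⟩, [⟨nat_lit 0, nat_lit 100, nat_lit 99, nat_lit 25, nat_lit 2404717198⟩, ⟨nat_lit 4, nat_lit 92, nat_lit 100, nat_lit 53, nat_lit 1788874565⟩]⟩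
noncomputable def p027_l146 : Lf2 := ⟨nat_lit 0, nat_lit 1, [nat_lit 19, nat_lit 5, nat_lit 5, nat_lit 20], false, nat_lit 260, nat_lit 280, nat_lit 80, nat_lit 196, ⟨nat_lit 1000, nat_lit 0, nat_lit 0, nat_lit 0, nat_lit 0, nat_lit 0, nat_lit 0, nat_lit 0, nat_lit 0, nat_lit 0, nat_lit 0, nat_lit 0, nat_lit 0, nat_lit 0, nat_lit 0, nat_lit 0, false, false⟩,
 nat_lit 24697, nat_lit 0, nat_lit 0, nat_lit 0, nat_lit 10457, nat_lit 11687, nat_lit 3900, nat_lit 0, nat_lit 0, nat_lit 0, nat_lit 0, nat_lit 0, nat_lit 0, nat_lit 0, nat_lit 0, nat_lit 0, nat_lit 0, nat_lit 0, [],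
 ⟨p027_k31, nat_lit 0, nat_lit 0, nat_lit 148, nat_lit 0, nat_lit 44686, [nat_lit 6250000000, nat_lit 7968000000], [], [nat_lit 20183301515, nat_lit 20669817674, nat_lit 19476792564, nat_lit 19931716856, nat_lit 23181250075, nat_lit 23625471408, nat_lit 22441921693, nat_lit 22887021729], nat_lit 1271250, nat_lit 1271250, nat_lit 21650, nat_lit 43600, nat_lit 1271250, nat_lit 1271250, [nat_lit 1412500, nat_lit 1271250], [nat_lit 26, nat_lit 40, nat_lit 20, nat_lit 80, nat_lit 2, nat_lit 272, nat_lit 60, nat_lit 9]⟩, ⟨p027_k35, nat_lit 0, nat_lit 0, nat_lit 242, nat_lit 0, nat_lit 46587, [nat_lit 6250000000, nat_lit 7968000000], [], [nat_lit 8764752402, nat_lit 9077388104, nat_lit 8062942981, nat_lit 8316218772, nat_lit 12489053960, nat_lit 12748831670, nat_lit 11705217610, nat_lit 11906211201], nat_lit 1271250, nat_lit 1271250, nat_lit 21650, nat_lit 43600, nat_lit 490000, nat_lit 1396250, [nat_lit 1412500, nat_lit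 1271250], [nat_lit 26, nat_lit 40, nat_lit 20, nat_lit 80, nat_lit 2, nat_lit 345, nat_lit 125, nat_lit 12]⟩,
 zbF0, [⟨nat_lit 0, nat_lit 100, nat_lit 100, nat_lit 23, nat_lit 1480701423⟩, ⟨nat_lit 4, nat_lit 92, nat_lit 100, nat_lit 53, nat_lit 1193497410⟩, ⟨nat_lit 23, nat_lit 94, nat_lit 100, nat_lit 24, nat_lit 1460622695⟩]⟩
noncomputable def p027_l147 : Lf2 := ⟨nat_lit 0, nat_lit 1, [nat_lit 19, nat_lit 5, nat_lit 5, nat_lit 20], true, nat_lit 260, nat_lit 280, nat_lit 0, nat_lit 196, ⟨nat_lit 0, nat_lit 0, nat_lit 1000, nat_lit 5, nat_lit 45, nat_lit 1000, nat_lit 186, nat_lit 1000, nat_lit 41329, nat_lit 264, nat_lit 19267, nat_lit 249, nat_lit 53750705, nat_lit 0, nat_lit 0, nat_lit 2915251, false, false⟩,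
 nat_lit 0, nat_lit 10484, nat_lit 0, nat_lit 1950, nat_lit 5280, nat_lit 0, nat_lit 0, nat_lit 0, nat_lit 0, nat_lit 0, nat_lit 0, nat_lit 0, nat_lit 0, nat_lit 0, nat_lit 53, nat_lit 1000000, nat_lit 0, nat_lit 0, [(nat_lit 3, [(nat_lit 6, nat_lit 1000)])],
 ⟨p027_k36, nat_lit 0, nat_lit 0, nat_lit 150, nat_lit 0, nat_lit 94248, [nat_lit 2101142858, nat_lit 11600000], [], [nat_lit 16828540620, nat_lit 17494253793, nat_lit 16476802598, nat_lit 17142931144, nat_lit 18710067288, nat_lit 19328326464, nat_lit 18357451136, nat_lit 18976457169], nat_lit 1271250, nat_lit 1271250, nat_lit 21650, nat_lit 43600, nat_lit 1271250, nat_lit 1271250, [nat_lit 1412500, nat_lit 1271250], [nat_lit 26, nat_lit 40, nat_lit 20, nat_lit 80, nat_lit 2, nat_lit 289, nat_lit 75, nat_lit 9]⟩, C1.Rw.none,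
 ⟨nat_lit 6324, nat_lit 6520, ⟨.ofNat (nat_lit 98177), .ofNat (nat_lit 106595), .ofNat (nat_lit 108876), .ofNat (nat_lit 117294), .ofNat (nat_lit 107588), .ofNat (nat_lit 115814), .ofNat (nat_lit 118272), .ofNat (nat_lit 126498)⟩, ⟨.ofNat (nat_lit 433698), .ofNat (nat_lit 475792), .ofNat (nat_lit 455096), .ofNat (nat_lit 497189), .ofNat (nat_lit 431084), .ofNat (nat_lit 472216), .ofNat (nat_lit 452452), .ofNat (nat_lit 493584)⟩⟩, [⟨nat_lit 0, nat_lit 100, nat_lit 99, nat_lit 25, nat_lit 550299468⟩, ⟨nat_lit 4, nat_lit 94, nat_lit 100, nat_lit 54, nat_lit 798870664⟩]⟩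
noncomputable def p027_l148 : Lf2 := ⟨nat_lit 0, nat_lit 2, [nat_lit 10, nat_lit 5, nat_lit 5, nat_lit 20], true, nat_lit 260, nat_lit 280, nat_lit 0, nat_lit 196, ⟨nat_lit 0, nat_lit 0, nat_lit 1000, nat_lit 5, nat_lit 41, nat_lit 1000, nat_lit 186, nat_lit 1000, nat_lit 35833, nat_lit 261, nat_lit 16017, nat_lit 246, nat_lit 53867999, nat_lit 0, nat_lit 0, nat_lit 2862496, false, false⟩,
 nat_lit 0, nat_lit 10790, nat_lit 0, nat_lit 48461, nat_lit 5160, nat_lit 0, nat_lit 0, nat_lit 0, nat_lit 0, nat_lit 0, nat_lit 0, nat_lit 0, nat_lit 0, nat_lit 0, nat_lit 53, nat_lit 1000000, nat_lit 0, nat_lit 0, [(nat_lit 3, [(nat_lit 6, nat_lit 1000)])],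
 ⟨p027_k14, nat_lit 0, nat_lit 0, nat_lit 151, nat_lit 0, nat_lit 45001, [nat_lit 2101142858, nat_lit 11600000], [], [nat_lit 16443149616, nat_lit 17398091625, nat_lit 16227758657, nat_lit 17056840885, nat_lit 17984134464, nat_lit 19208127408, nat_lit 17639738289, nat_lit 18865178097], nat_lit 1271250, nat_lit 1271250, nat_lit 21650, nat_lit 43600, nat_lit 1271250, nat_lit 1271250, [nat_lit 1412500, nat_lit 1271250], [nat_lit 26, nat_lit 40, nat_lit 20, nat_lit 80, nat_lit 2, nat_lit 289, nat_lit 75, nat_lit 9]⟩, C1.Rw.none,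
 ⟨nat_lit 6324, nat_lit 6709, ⟨.ofNat (nat_lit 77837), .ofNat (nat_lit 86452), .ofNat (nat_lit 99275), .ofNat (nat_lit 107890), .ofNat (nat_lit 96904), .ofNat (nat_lit 105130), .ofNat (nat_lit 118272), .ofNat (nat_lit 126498)⟩, ⟨.ofNat (nat_lit 436286), .ofNat (nat_lit 479364), .ofNat (nat_lit 457725), .ofNat (nat_lit 500798), .ofNat (nat_lit 431084), .ofNat (nat_lit 472216), .ofNat (nat_lit 452452), .ofNat (nat_lit 493579)⟩⟩, [⟨nat_lit 0, nat_lit 100, nat_lit 98, nat_lit 30, nat_lit 535046952⟩, ⟨nat_lit 4, nat_lit 93, nat_lit 100, nat_lit 53, nat_lit 3963694307⟩]⟩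
noncomputable def p027_l149 : Lf2 := ⟨nat_lit 0, nat_lit 2, [nat_lit 10, nat_lit 5, nat_lit 5, nat_lit 20], true, nat_lit 260, nat_lit 280, nat_lit 0, nat_lit 232, ⟨nat_lit 0, nat_lit 0, nat_lit 1000, nat_lit 5, nat_lit 48, nat_lit 1000, nat_lit 186, nat_lit 1000, nat_lit 35833, nat_lit 261, nat_lit 21600, nat_lit 251, nat_lit 53562875, nat_lit 0, nat_lit 0, nat_lit 2962583, false, false⟩,
 nat_lit 0, nat_lit 11042, nat_lit 0, nat_lit 290, nat_lit 5280, nat_lit 0, nat_lit 0, nat_lit 0, nat_lit 0, nat_lit 0, nat_lit 0, nat_lit 0, nat_lit 0, nat_lit 0, nat_lit 53, nat_lit 1000000, nat_lit 0, nat_lit 0, [(nat_lit 3, [(nat_lit 6, nat_lit 1000)])],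
 ⟨p027_k14, nat_lit 0, nat_lit 0, nat_lit 153, nat_lit 0, nat_lit 101647, [nat_lit 2101142858, nat_lit 11600000], [], [nat_lit 16059061337, nat_lit 17142931144, nat_lit 15394455196, nat_lit 16228503396, nat_lit 17738445105, nat_lit 18976457169, nat_lit 16678356080, nat_lit 17920849280], nat_lit 1271250, nat_lit 1271250, nat_lit 43600, nat_lit 111251, nat_lit 1271250, nat_lit 1271250, [nat_lit 1412500, nat_lit 1271250], [nat_lit 26, nat_lit 40, nat_lit 20, nat_lit 80, nat_lit 2, nat_lit 289, nat_lit 75, nat_lit 9]⟩, C1.Rw.none,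
 ⟨nat_lit 6324, nat_lit 6709, ⟨.ofNat (nat_lit 86452), .ofNat (nat_lit 112299), .ofNat (nat_lit 107890), .ofNat (nat_lit 133737), .ofNat (nat_lit 105130), .ofNat (nat_lit 129809), .ofNat (nat_lit 126498), .ofNat (nat_lit 151177)⟩, ⟨.ofNat (nat_lit 436286), .ofNat (nat_lit 479364), .ofNat (nat_lit 457725), .ofNat (nat_lit 500798), .ofNat (nat_lit 431084), .ofNat (nat_lit 472216), .ofNat (nat_lit 452452), .ofNat (nat_lit 493579)⟩⟩, [⟨nat_lit 4, nat_lit 93, nat_lit 100, nat_lit 53, nat_lit 710162681⟩]⟩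
noncomputable def p027_l150 : Lf2 := ⟨nat_lit 0, nat_lit 2, [nat_lit 10, nat_lit 5, nat_lit 5, nat_lit 20], true, nat_lit 260, nat_lit 280, nat_lit 0, nat_lit 268, ⟨nat_lit 0, nat_lit 0, nat_lit 1000, nat_lit 5, nat_lit 61, nat_lit 1000, nat_lit 186, nat_lit 1000, nat_lit 35833, nat_lit 261, nat_lit 35267, nat_lit 261, nat_lit 52892427, nat_lit 0, nat_lit 0, nat_lit 3163252, false, false⟩,
 nat_lit 0, nat_lit 11680, nat_lit 0, nat_lit 1192, nat_lit 5586, nat_lit 0, nat_lit 0, nat_lit 0, nat_lit 0, nat_lit 0, nat_lit 0, nat_lit 0, nat_lit 0, nat_lit 0, nat_lit 53, nat_lit 1000000, nat_lit 0, nat_lit 0, [(nat_lit 3, [(nat_lit 6, nat_lit 1000)])],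
 ⟨p027_k14, nat_lit 0, nat_lit 0, nat_lit 147, nat_lit 0, nat_lit 101647, [nat_lit 2101142858, nat_lit 11600000], [], [nat_lit 14917272217, nat_lit 16243115290, nat_lit 14237626136, nat_lit 15109675680, nat_lit 16861462196, nat_lit 18136373036, nat_lit 15712764964, nat_lit 16984385552], nat_lit 1271250, nat_lit 1271250, nat_lit 111251, nat_lit 230001, nat_lit 1271250, nat_lit 1271250, [nat_lit 1412500, nat_lit 1271250], [nat_lit 26, nat_lit 40, nat_lit 20, nat_lit 80, nat_lit 2, nat_lit 289, nat_lit 75, nat_lit 9]⟩, C1.Rw.none,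
 ⟨nat_lit 6324, nat_lit 6709, ⟨.ofNat (nat_lit 112299), .ofNat (nat_lit 155377), .ofNat (nat_lit 133737), .ofNat (nat_lit 176815), .ofNat (nat_lit 129809), .ofNat (nat_lit 170942), .ofNat (nat_lit 151177), .ofNat (nat_lit 192309)⟩, ⟨.ofNat (nat_lit 436286), .ofNat (nat_lit 479364), .ofNat (nat_lit 457725), .ofNat (nat_lit 500798), .ofNat (nat_lit 431084), .ofNat (nat_lit 472216), .ofNat (nat_lit 452452), .ofNat (nat_lit 493579)⟩⟩, [⟨nat_lit 4, nat_lit 93, nat_lit 100, nat_lit 53, nat_lit 834077188⟩]⟩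
noncomputable def p027_l151 : Lf2 := ⟨nat_lit 1, nat_lit 5, [nat_lit 4, nat_lit 5, nat_lit 5, nat_lit 20], false, nat_lit 240, nat_lit 280, nat_lit 0, nat_lit 288, zbN0,
 nat_lit 0, nat_lit 0, nat_lit 0, nat_lit 0, nat_lit 0, nat_lit 0, nat_lit 0, nat_lit 0, nat_lit 0, nat_lit 0, nat_lit 0, nat_lit 0, nat_lit 0, nat_lit 0, nat_lit 0, nat_lit 0, nat_lit 0, nat_lit 0, [],
 C1.Rw.none, C1.Rw.none,
 zbF0, []⟩
noncomputable def b_VL_500_500_5_28 : St := ⟨true, nat_lit 1, nat_lit 1, nat_lit 1, nat_lit 40, nat_lit 220, nat_lit 240, nat_lit 200, nat_lit 220, nat_lit 0, nat_lit 40, nat_lit 20, nat_lit 40, nat_lit 240, nat_lit 280, nat_lit 0, nat_lit 288, nat_lit 0, nat_lit 20, nat_lit 0, nat_lit 0, nat_lit 0, nat_lit 0⟩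
theorem d_VL_500_500_5_28 (h : EB TB.env) : Dead b_VL_500_500_5_28 := chkB_sound0 h (T :=
(.spl (nat_lit 6) (nat_lit 8)
(.spl (nat_lit 4) (nat_lit 260)
(.leaf p027_l126)
(.trX (nat_lit 23) (nat_lit 100) (nat_lit 99) (nat_lit 63) (nat_lit 268) (.spl (nat_lit 2) (nat_lit 20)
(.trX (nat_lit 23) (nat_lit 96) (nat_lit 100) (nat_lit 44) (nat_lit 232) (.spl (nat_lit 2) (nat_lit 8)
(.trX (nat_lit 23) (nat_lit 95) (nat_lit 100) (nat_lit 28) (nat_lit 196) (.spl (nat_lit 2) (nat_lit 4)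
(.trX (nat_lit 23) (nat_lit 96) (nat_lit 100) (nat_lit 20) (nat_lit 180) (.spl (nat_lit 6) (nat_lit 4)
(.spl (nat_lit 5) (nat_lit 80)
(.spl (nat_lit 1) (nat_lit 210)
(.leaf p027_l127)
(.leaf p027_l128))
(.spl (nat_lit 5) (nat_lit 120)
(.leaf p027_l129)
(.spl (nat_lit 5) (nat_lit 160)
(.spl (nat_lit 5) (nat_lit 140)
(.leaf p027_l130)
(.spl (nat_lit 1) (nat_lit 210)
(.leaf p027_l131)
(.spl (nat_lit 0) (nat_lit 230)
(.leaf p027_l132)
(.emL (nat_lit 0) (nat_lit 100) (nat_lit 99) (nat_lit 20)))))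
(.spl (nat_lit 1) (nat_lit 210)
(.leaf p027_l133)
(.spl (nat_lit 0) (nat_lit 230)
(.spl (nat_lit 0) (nat_lit 225)
(.leaf p027_l134)
(.leaf p027_l135))
(.emL (nat_lit 0) (nat_lit 100) (nat_lit 99) (nat_lit 20)))))))
(.leaf p027_l136)))
(.spl (nat_lit 6) (nat_lit 4)
(.spl (nat_lit 1) (nat_lit 210)
(.leaf p027_l137)
(.spl (nat_lit 0) (nat_lit 230)
(.spl (nat_lit 0) (nat_lit 225)
(.spl (nat_lit 0) (nat_lit 223)
(.spl (nat_lit 0) (nat_lit 222)
(.spl (nat_lit 5) (nat_lit 80)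
(.leaf p027_l138)
(.spl (nat_lit 1) (nat_lit 215)
(.leaf p027_l139)
(.leaf p027_l140)))
(.leaf p027_l141))
(.leaf p027_l142))
(.spl (nat_lit 1) (nat_lit 215)
(.leaf p027_l143)
(.spl (nat_lit 1) (nat_lit 218)
(.leaf p027_l144)
(.spl (nat_lit 5) (nat_lit 80)
(.leaf p027_l145)
(.leaf p027_l146)))))
(.leaf p027_l147)))
(.leaf p027_l148))))
(.leaf p027_l149)))
(.leaf p027_l150))))
(.leaf p027_l151))) (by decide +kernel)

end B2
end Pool.Agent.Lib.MP_6947cd_al
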