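import Pool.Agent.Lib.MP_6947cd_al.ZB.Pre

/-!
Problem MP_6947cd_al (Chollet).  Case B, second entry in [2/5, 17/20]: certificates of the tree, part P028 (generated).
-/

set_option autoImplicit false
set_option linter.all false

namespace Pool.Agent.Lib.MP_6947cd_al
namespace B2

open Ent Fr B1 PkA

noncomputable def p028_k0 : C1.Kn := ⟨[nat_lit 60, nat_lit 90, nat_lit 100, nat_lit 120], [nat_lit 0, nat_lit 0, nat_lit 0, nat_lit 254], [(nat_lit 0, nat_lit 0, nat_lit 0), (nat_lit 0, nat_lit 0, nat_lit 0), (nat_lit 0, nat_lit 0, nat_lit 0), (nat_lit 1000, nat_lit 1000, nat_lit 198)], (nat_lit 100, nat_lit 99, nat_lit 28)⟩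
noncomputable def p028_k1 : C1.Kn := ⟨[nat_lit 60, nat_lit 90, nat_lit 100, nat_lit 120], [nat_lit 0, nat_lit 0, nat_lit 31, nat_lit 289], [(nat_lit 0, nat_lit 0, nat_lit 0), (nat_lit 0, nat_lit 0, nat_lit 0), (nat_lit 1000, nat_lit 995, nat_lit 48), (nat_lit 1000, nat_lit 995, nat_lit 202)], (nat_lit 100, nat_lit 100, nat_lit 28)⟩
noncomputable def p028_k2 : C1.Kn := ⟨[nat_lit 60, nat_lit 90, nat_lit 100, nat_lit 120], [nat_lit 0, nat_lit 0, nat_lit 64, nat_lit 318], [(nat_lit 0, nat_lit 0, nat_lit 0), (nat_lit 0, nat_lit 0, nat_lit 0), (nat_lit 1000, nat_lit 990, nat_lit 101), (nat_lit 1000, nat_lit 990, nat_lit 198)], (nat_lit 100, nat_lit 100, nat_lit 28)⟩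
noncomputable def p028_k3 : C1.Kn := ⟨[nat_lit 100, nat_lit 120], [nat_lit 0, nat_lit 254], [(nat_lit 0, nat_lit 0, nat_lit 0), (nat_lit 1000, nat_lit 1000, nat_lit 198)], (nat_lit 100, nat_lit 99, nat_lit 28)⟩
noncomputable def p028_k4 : C1.Kn := ⟨[nat_lit 100, nat_lit 140], [nat_lit 0, nat_lit 508], [(nat_lit 0, nat_lit 0, nat_lit 0), (nat_lit 1000, nat_lit 1000, nat_lit 198)], (nat_lit 100, nat_lit 97, nat_lit 34)⟩
noncomputable def p028_k5 : C1.Kn := ⟨[nat_lit 100, nat_lit 120], [nat_lit 0, nat_lit 383], [(nat_lit 0, nat_lit 0, nat_lit 0), (nat_lit 1000, nat_lit 1000, nat_lit 299)], (nat_lit 100, nat_lit 99, nat_lit 35)⟩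
noncomputable def p028_k6 : C1.Kn := ⟨[nat_lit 100, nat_lit 120, nat_lit 140], [nat_lit 0, nat_lit 254, nat_lit 778], [(nat_lit 0, nat_lit 0, nat_lit 0), (nat_lit 1000, nat_lit 1000, nat_lit 198), (nat_lit 960, nat_lit 1000, nat_lit 392)], (nat_lit 100, nat_lit 97, nat_lit 34)⟩
noncomputable def p028_k7 : C1.Kn := ⟨[nat_lit 100, nat_lit 120], [nat_lit 0, nat_lit 383], [(nat_lit 0, nat_lit 0, nat_lit 0), (nat_lit 1000, nat_lit 1000, nat_lit 299)], (nat_lit 100, nat_lit 100, nat_lit 28)⟩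
noncomputable def p028_k8 : C1.Kn := ⟨[nat_lit 60, nat_lit 90, nat_lit 100, nat_lit 120], [nat_lit 0, nat_lit 0, nat_lit 83, nat_lit 342], [(nat_lit 0, nat_lit 0, nat_lit 0), (nat_lit 0, nat_lit 0, nat_lit 0), (nat_lit 1000, nat_lit 987, nat_lit 129), (nat_lit 1000, nat_lit 987, nat_lit 203)], (nat_lit 99, nat_lit 100, nat_lit 28)⟩
noncomputable def p028_k9 : C1.Kn := ⟨[nat_lit 50, nat_lit 90, nat_lit 110], [nat_lit 0, nat_lit 0, nat_lit 192], [(nat_lit 0, nat_lit 0, nat_lit 0), (nat_lit 0, nat_lit 0, nat_lit 0), (nat_lit 1000, nat_lit 985, nat_lit 150)], (nat_lit 98, nat_lit 100, nat_lit 20)⟩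
noncomputable def p028_k10 : C1.Kn := ⟨[nat_lit 50, nat_lit 90, nat_lit 110], [nat_lit 0, nat_lit 0, nat_lit 230], [(nat_lit 0, nat_lit 0, nat_lit 0), (nat_lit 0, nat_lit 0, nat_lit 0), (nat_lit 1000, nat_lit 982, nat_lit 179)], (nat_lit 98, nat_lit 100, nat_lit 20)⟩
noncomputable def p028_k11 : C1.Kn := ⟨[nat_lit 50, nat_lit 90, nat_lit 110, nat_lit 120], [nat_lit 0, nat_lit 0, nat_lit 192, nat_lit 450], [(nat_lit 0, nat_lit 0, nat_lit 0), (nat_lit 0, nat_lit 0, nat_lit 0), (nat_lit 1000, nat_lit 985, nat_lit 150), (nat_lit 996, nat_lit 1000, nat_lit 372)], (nat_lit 99, nat_lit 100, nat_lit 28)⟩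
noncomputable def p028_k12 : C1.Kn := ⟨[nat_lit 100, nat_lit 140], [nat_lit 0, nat_lit 766], [(nat_lit 0, nat_lit 0, nat_lit 0), (nat_lit 1000, nat_lit 1000, nat_lit 299)], (nat_lit 100, nat_lit 98, nat_lit 40)⟩
noncomputable def p028_k13 : C1.Kn := ⟨[nat_lit 100, nat_lit 120], [nat_lit 0, nat_lit 448], [(nat_lit 0, nat_lit 0, nat_lit 0), (nat_lit 1000, nat_lit 1000, nat_lit 350)], (nat_lit 100, nat_lit 100, nat_lit 35)⟩
noncomputable def p028_k14 : C1.Kn := ⟨[nat_lit 100, nat_lit 120, nat_lit 140], [nat_lit 0, nat_lit 448, nat_lit 962], [(nat_lit 0, nat_lit 0, nat_lit 0), (nat_lit 1000, nat_lit 1000, nat_lit 350), (nat_lit 990, nat_lit 1000, nat_lit 398)], (nat_lit 100, nat_lit 99, nat_lit 40)⟩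
noncomputable def p028_k15 : C1.Kn := ⟨[nat_lit 100, nat_lit 120], [nat_lit 0, nat_lit 422], [(nat_lit 0, nat_lit 0, nat_lit 0), (nat_lit 1000, nat_lit 1000, nat_lit 329)], (nat_lit 100, nat_lit 100, nat_lit 35)⟩
noncomputable def p028_k16 : C1.Kn := ⟨[nat_lit 100, nat_lit 120], [nat_lit 0, nat_lit 486], [(nat_lit 0, nat_lit 0, nat_lit 0), (nat_lit 1000, nat_lit 999, nat_lit 375)], (nat_lit 99, nat_lit 100, nat_lit 35)⟩
noncomputable def p028_k17 : C1.Kn := ⟨[nat_lit 100, nat_lit 120, nat_lit 140], [nat_lit 0, nat_lit 383, nat_lit 902], [(nat_lit 0, nat_lit 0, nat_lit 0), (nat_lit 1000, nat_lit 1000, nat_lit 299), (nat_lit 979, nat_lit 1000, nat_lit 397)], (nat_lit 100, nat_lit 98, nat_lit 40)⟩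
noncomputable def p028_k18 : C1.Kn := ⟨[nat_lit 100, nat_lit 120, nat_lit 140], [nat_lit 0, nat_lit 486, nat_lit 1002], [(nat_lit 0, nat_lit 0, nat_lit 0), (nat_lit 1000, nat_lit 999, nat_lit 375), (nat_lit 995, nat_lit 1000, nat_lit 401)], (nat_lit 100, nat_lit 100, nat_lit 40)⟩
noncomputable def p028_k19 : C1.Kn := ⟨[nat_lit 100, nat_lit 120, nat_lit 140], [nat_lit 0, nat_lit 499, nat_lit 1016], [(nat_lit 0, nat_lit 0, nat_lit 0), (nat_lit 1000, nat_lit 1000, nat_lit 388), (nat_lit 997, nat_lit 1000, nat_lit 403)], (nat_lit 100, nat_lit 100, nat_lit 40)⟩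
noncomputable def p028_k20 : C1.Kn := ⟨[nat_lit 100, nat_lit 140], [nat_lit 0, nat_lit 995], [(nat_lit 0, nat_lit 0, nat_lit 0), (nat_lit 1000, nat_lit 1000, nat_lit 388)], (nat_lit 100, nat_lit 100, nat_lit 40)⟩
noncomputable def p028_k21 : C1.Kn := ⟨[nat_lit 100, nat_lit 140], [nat_lit 0, nat_lit 970], [(nat_lit 0, nat_lit 0, nat_lit 0), (nat_lit 1000, nat_lit 1000, nat_lit 378)], (nat_lit 100, nat_lit 100, nat_lit 40)⟩
noncomputable def p028_k22 : C1.Kn := ⟨[nat_lit 100, nat_lit 120, nat_lit 140], [nat_lit 0, nat_lit 383, nat_lit 902], [(nat_lit 0, nat_lit 0, nat_lit 0), (nat_lit 1000, nat_lit 1000, nat_lit 299), (nat_lit 979, nat_lit 1000, nat_lit 397)], (nat_lit 100, nat_lit 97, nat_lit 44)⟩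
noncomputable def p028_k23 : C1.Kn := ⟨[nat_lit 100, nat_lit 120], [nat_lit 0, nat_lit 320], [(nat_lit 0, nat_lit 0, nat_lit 0), (nat_lit 1000, nat_lit 1000, nat_lit 250)], (nat_lit 100, nat_lit 100, nat_lit 28)⟩
noncomputable def p028_k24 : C1.Kn := ⟨[nat_lit 50, nat_lit 90, nat_lit 110, nat_lit 120], [nat_lit 0, nat_lit 0, nat_lit 61, nat_lit 338], [(nat_lit 0, nat_lit 0, nat_lit 0), (nat_lit 0, nat_lit 0, nat_lit 0), (nat_lit 1000, nat_lit 995, nat_lit 48), (nat_lit 990, nat_lit 1000, nat_lit 314)], (nat_lit 100, nat_lit 100, nat_lit 28)⟩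
noncomputable def p028_k25 : C1.Kn := ⟨[nat_lit 50, nat_lit 90, nat_lit 110], [nat_lit 0, nat_lit 0, nat_lit 129], [(nat_lit 0, nat_lit 0, nat_lit 0), (nat_lit 0, nat_lit 0, nat_lit 0), (nat_lit 1000, nat_lit 990, nat_lit 101)], (nat_lit 99, nat_lit 100, nat_lit 20)⟩
noncomputable def p028_k26 : C1.Kn := ⟨[nat_lit 100, nat_lit 120], [nat_lit 0, nat_lit 383], [(nat_lit 0, nat_lit 0, nat_lit 0), (nat_lit 1000, nat_lit 1000, nat_lit 299)], (nat_lit 99, nat_lit 100, nat_lit 20)⟩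
noncomputable def p028_k27 : C1.Kn := ⟨[nat_lit 50, nat_lit 90, nat_lit 110], [nat_lit 0, nat_lit 0, nat_lit 166], [(nat_lit 0, nat_lit 0, nat_lit 0), (nat_lit 0, nat_lit 0, nat_lit 0), (nat_lit 1000, nat_lit 987, nat_lit 129)], (nat_lit 99, nat_lit 100, nat_lit 20)⟩
noncomputable def p028_k28 : C1.Kn := ⟨[nat_lit 100, nat_lit 120], [nat_lit 0, nat_lit 409], [(nat_lit 0, nat_lit 0, nat_lit 0), (nat_lit 1000, nat_lit 1000, nat_lit 319)], (nat_lit 99, nat_lit 100, nat_lit 20)⟩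
noncomputable def p028_k29 : C1.Kn := ⟨[nat_lit 100, nat_lit 120], [nat_lit 0, nat_lit 422], [(nat_lit 0, nat_lit 0, nat_lit 0), (nat_lit 1000, nat_lit 1000, nat_lit 329)], (nat_lit 99, nat_lit 100, nat_lit 20)⟩
noncomputable def p028_k30 : C1.Kn := ⟨[nat_lit 50, nat_lit 90, nat_lit 110, nat_lit 120], [nat_lit 0, nat_lit 0, nat_lit 129, nat_lit 392], [(nat_lit 0, nat_lit 0, nat_lit 0), (nat_lit 0, nat_lit 0, nat_lit 0), (nat_lit 1000, nat_lit 990, nat_lit 101), (nat_lit 993, nat_lit 1000, nat_lit 341)], (nat_lit 100, nat_lit 100, nat_lit 28)⟩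
noncomputable def p028_k31 : C1.Kn := ⟨[nat_lit 100, nat_lit 120], [nat_lit 0, nat_lit 448], [(nat_lit 0, nat_lit 0, nat_lit 0), (nat_lit 1000, nat_lit 1000, nat_lit 350)], (nat_lit 98, nat_lit 100, nat_lit 20)⟩
noncomputable def p028_k32 : C1.Kn := ⟨[nat_lit 50, nat_lit 90, nat_lit 110], [nat_lit 0, nat_lit 0, nat_lit 230], [(nat_lit 0, nat_lit 0, nat_lit 0), (nat_lit 0, nat_lit 0, nat_lit 0), (nat_lit 1000, nat_lit 982, nat_lit 179)], (nat_lit 99, nat_lit 100, nat_lit 28)⟩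
noncomputable def p028_k33 : C1.Kn := ⟨[nat_lit 100, nat_lit 140], [nat_lit 0, nat_lit 508], [(nat_lit 0, nat_lit 0, nat_lit 0), (nat_lit 1000, nat_lit 1000, nat_lit 198)], (nat_lit 100, nat_lit 94, nat_lit 44)⟩
noncomputable def p028_k34 : C1.Kn := ⟨[nat_lit 100, nat_lit 140], [nat_lit 0, nat_lit 766], [(nat_lit 0, nat_lit 0, nat_lit 0), (nat_lit 1000, nat_lit 1000, nat_lit 299)], (nat_lit 100, nat_lit 97, nat_lit 44)⟩
noncomputable def p028_k35 : C1.Kn := ⟨[nat_lit 100, nat_lit 140], [nat_lit 0, nat_lit 896], [(nat_lit 0, nat_lit 0, nat_lit 0), (nat_lit 1000, nat_lit 1000, nat_lit 350)], (nat_lit 100, nat_lit 98, nat_lit 44)⟩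
noncomputable def p028_k36 : C1.Kn := ⟨[nat_lit 100, nat_lit 160], [nat_lit 0, nat_lit 0], [(nat_lit 0, nat_lit 0, nat_lit 0), (nat_lit 0, nat_lit 0, nat_lit 0)], (nat_lit 100, nat_lit 90, nat_lit 44)⟩
noncomputable def p028_k37 : C1.Kn := ⟨[nat_lit 100, nat_lit 120, nat_lit 140], [nat_lit 0, nat_lit 254, nat_lit 778], [(nat_lit 0, nat_lit 0, nat_lit 0), (nat_lit 1000, nat_lit 1000, nat_lit 198), (nat_lit 960, nat_lit 1000, nat_lit 392)], (nat_lit 100, nat_lit 94, nat_lit 44)⟩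
noncomputable def p028_k38 : C1.Kn := ⟨[nat_lit 100, nat_lit 120, nat_lit 160], [nat_lit 0, nat_lit 0, nat_lit 1063], [(nat_lit 0, nat_lit 0, nat_lit 0), (nat_lit 0, nat_lit 0, nat_lit 0), (nat_lit 924, nat_lit 1000, nat_lit 383)], (nat_lit 100, nat_lit 90, nat_lit 44)⟩
noncomputable def p028_k39 : C1.Kn := ⟨[nat_lit 50, nat_lit 90, nat_lit 110, nat_lit 140], [nat_lit 0, nat_lit 0, nat_lit 0, nat_lit 774], [(nat_lit 0, nat_lit 0, nat_lit 0), (nat_lit 0, nat_lit 0, nat_lit 0), (nat_lit 0, nat_lit 0, nat_lit 0), (nat_lit 962, nat_lit 1000, nat_lit 387)], (nat_lit 100, nat_lit 94, nat_lit 44)⟩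
noncomputable def p028_k40 : C1.Kn := ⟨[nat_lit 100, nat_lit 140, nat_lit 160], [nat_lit 0, nat_lit 0, nat_lit 1280], [(nat_lit 0, nat_lit 0, nat_lit 0), (nat_lit 0, nat_lit 0, nat_lit 0), (nat_lit 800, nat_lit 1000, nat_lit 600)], (nat_lit 100, nat_lit 90, nat_lit 44)⟩
noncomputable def p028_k41 : C1.Kn := ⟨[nat_lit 100, nat_lit 120], [nat_lit 0, nat_lit 293], [(nat_lit 0, nat_lit 0, nat_lit 0), (nat_lit 1000, nat_lit 1000, nat_lit 229)], (nat_lit 100, nat_lit 99, nat_lit 28)⟩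
noncomputable def p028_k42 : C1.Kn := ⟨[nat_lit 100, nat_lit 140], [nat_lit 0, nat_lit 896], [(nat_lit 0, nat_lit 0, nat_lit 0), (nat_lit 1000, nat_lit 1000, nat_lit 350)], (nat_lit 100, nat_lit 99, nat_lit 40)⟩
noncomputable def p028_k43 : C1.Kn := ⟨[nat_lit 100, nat_lit 140], [nat_lit 0, nat_lit 0], [(nat_lit 0, nat_lit 0, nat_lit 0), (nat_lit 0, nat_lit 0, nat_lit 0)], (nat_lit 100, nat_lit 96, nat_lit 28)⟩
noncomputable def p028_k44 : C1.Kn := ⟨[nat_lit 80, nat_lit 120, nat_lit 140], [nat_lit 0, nat_lit 0, nat_lit 1164], [(nat_lit 0, nat_lit 0, nat_lit 0), (nat_lit 0, nat_lit 0, nat_lit 0), (nat_lit 941, nat_lit 1000, nat_lit 576)], (nat_lit 100, nat_lit 95, nat_lit 55)⟩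
noncomputable def p028_k45 : C1.Kn := ⟨[nat_lit 80, nat_lit 140], [nat_lit 0, nat_lit 792], [(nat_lit 0, nat_lit 0, nat_lit 0), (nat_lit 1000, nat_lit 959, nat_lit 206)], (nat_lit 99, nat_lit 100, nat_lit 56)⟩
noncomputable def p028_k46 : C1.Kn := ⟨[nat_lit 120, nat_lit 160, nat_lit 180], [nat_lit 0, nat_lit 0, nat_lit 1613], [(nat_lit 0, nat_lit 0, nat_lit 0), (nat_lit 0, nat_lit 0, nat_lit 0), (nat_lit 620, nat_lit 1000, nat_lit 670)], (nat_lit 100, nat_lit 73, nat_lit 55)⟩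
noncomputable def p028_k47 : C1.Kn := ⟨[nat_lit 80, nat_lit 140], [nat_lit 0, nat_lit 0], [(nat_lit 0, nat_lit 0, nat_lit 0), (nat_lit 0, nat_lit 0, nat_lit 0)], (nat_lit 100, nat_lit 95, nat_lit 55)⟩
noncomputable def p028_k48 : C1.Kn := ⟨[nat_lit 80, nat_lit 120], [nat_lit 0, nat_lit 0], [(nat_lit 0, nat_lit 0, nat_lit 0), (nat_lit 0, nat_lit 0, nat_lit 0)], (nat_lit 100, nat_lit 100, nat_lit 40)⟩
noncomputable def p028_k49 : C1.Kn := ⟨[nat_lit 120, nat_lit 160], [nat_lit 0, nat_lit 0], [(nat_lit 0, nat_lit 0, nat_lit 0), (nat_lit 0, nat_lit 0, nat_lit 0)], (nat_lit 100, nat_lit 84, nat_lit 40)⟩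
noncomputable def p028_k50 : C1.Kn := ⟨[nat_lit 120, nat_lit 160], [nat_lit 0, nat_lit 533], [(nat_lit 0, nat_lit 0, nat_lit 0), (nat_lit 960, nat_lit 1000, nat_lit 200)], (nat_lit 100, nat_lit 88, nat_lit 39)⟩
noncomputable def p028_k51 : C1.Kn := ⟨[nat_lit 80, nat_lit 120], [nat_lit 0, nat_lit 528], [(nat_lit 0, nat_lit 0, nat_lit 0), (nat_lit 1000, nat_lit 959, nat_lit 206)], (nat_lit 96, nat_lit 100, nat_lit 44)⟩
noncomputable def p028_k52 : C1.Kn := ⟨[nat_lit 120, nat_lit 160, nat_lit 180], [nat_lit 0, nat_lit 0, nat_lit 1613], [(nat_lit 0, nat_lit 0, nat_lit 0), (nat_lit 0, nat_lit 0, nat_lit 0), (nat_lit 620, nat_lit 1000, nat_lit 670)], (nat_lit 100, nat_lit 81, nat_lit 44)⟩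
noncomputable def p028_k53 : C1.Kn := ⟨[nat_lit 120, nat_lit 160], [nat_lit 0, nat_lit 533], [(nat_lit 0, nat_lit 0, nat_lit 0), (nat_lit 960, nat_lit 1000, nat_lit 200)], (nat_lit 100, nat_lit 86, nat_lit 44)⟩
noncomputable def p028_k54 : C1.Kn := ⟨[nat_lit 80, nat_lit 120], [nat_lit 0, nat_lit 796], [(nat_lit 0, nat_lit 0, nat_lit 0), (nat_lit 1000, nat_lit 938, nat_lit 310)], (nat_lit 94, nat_lit 100, nat_lit 44)⟩
noncomputable def p028_k55 : C1.Kn := ⟨[nat_lit 80, nat_lit 100, nat_lit 140], [nat_lit 0, nat_lit 265, nat_lit 1269], [(nat_lit 0, nat_lit 0, nat_lit 0), (nat_lit 1000, nat_lit 959, nat_lit 206), (nat_lit 1000, nat_lit 958, nat_lit 392)], (nat_lit 99, nat_lit 100, nat_lit 56)⟩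
noncomputable def p028_k56 : C1.Kn := ⟨[nat_lit 120, nat_lit 140, nat_lit 180], [nat_lit 0, nat_lit 0, nat_lit 1219], [(nat_lit 0, nat_lit 0, nat_lit 0), (nat_lit 0, nat_lit 0, nat_lit 0), (nat_lit 840, nat_lit 1000, nat_lit 400)], (nat_lit 100, nat_lit 73, nat_lit 55)⟩
noncomputable def p028_k57 : C1.Kn := ⟨[nat_lit 80, nat_lit 100, nat_lit 140], [nat_lit 0, nat_lit 0, nat_lit 1022], [(nat_lit 0, nat_lit 0, nat_lit 0), (nat_lit 0, nat_lit 0, nat_lit 0), (nat_lit 1000, nat_lit 1000, nat_lit 399)], (nat_lit 100, nat_lit 95, nat_lit 55)⟩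
noncomputable def p028_k58 : C1.Kn := ⟨[nat_lit 80, nat_lit 140], [nat_lit 0, nat_lit 1192], [(nat_lit 0, nat_lit 0, nat_lit 0), (nat_lit 1000, nat_lit 938, nat_lit 310)], (nat_lit 96, nat_lit 100, nat_lit 56)⟩
noncomputable def p028_k59 : C1.Kn := ⟨[nat_lit 80, nat_lit 100, nat_lit 120], [nat_lit 0, nat_lit 0, nat_lit 511], [(nat_lit 0, nat_lit 0, nat_lit 0), (nat_lit 0, nat_lit 0, nat_lit 0), (nat_lit 1000, nat_lit 997, nat_lit 383)], (nat_lit 98, nat_lit 100, nat_lit 28)⟩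
noncomputable def p028_k60 : C1.Kn := ⟨[nat_lit 80, nat_lit 100, nat_lit 120], [nat_lit 0, nat_lit 65, nat_lit 576], [(nat_lit 0, nat_lit 0, nat_lit 0), (nat_lit 1000, nat_lit 990, nat_lit 51), (nat_lit 1000, nat_lit 990, nat_lit 399)], (nat_lit 98, nat_lit 100, nat_lit 28)⟩
noncomputable def p028_k61 : C1.Kn := ⟨[nat_lit 80, nat_lit 120], [nat_lit 0, nat_lit 264], [(nat_lit 0, nat_lit 0, nat_lit 0), (nat_lit 1000, nat_lit 979, nat_lit 103)], (nat_lit 98, nat_lit 100, nat_lit 40)⟩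
noncomputable def p028_k62 : C1.Kn := ⟨[nat_lit 80, nat_lit 100, nat_lit 120], [nat_lit 0, nat_lit 132, nat_lit 640], [(nat_lit 0, nat_lit 0, nat_lit 0), (nat_lit 1000, nat_lit 979, nat_lit 103), (nat_lit 1000, nat_lit 979, nat_lit 397)], (nat_lit 98, nat_lit 100, nat_lit 40)⟩
noncomputable def p028_k63 : C1.Kn := ⟨[nat_lit 80, nat_lit 100, nat_lit 120], [nat_lit 0, nat_lit 265, nat_lit 768], [(nat_lit 0, nat_lit 0, nat_lit 0), (nat_lit 1000, nat_lit 959, nat_lit 206), (nat_lit 1000, nat_lit 958, nat_lit 392)], (nat_lit 96, nat_lit 100, nat_lit 44)⟩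
noncomputable def p028_k64 : C1.Kn := ⟨[nat_lit 80, nat_lit 100, nat_lit 140], [nat_lit 0, nat_lit 399, nat_lit 1395], [(nat_lit 0, nat_lit 0, nat_lit 0), (nat_lit 1000, nat_lit 938, nat_lit 310), (nat_lit 1000, nat_lit 938, nat_lit 389)], (nat_lit 96, nat_lit 100, nat_lit 56)⟩
noncomputable def p028_k65 : C1.Kn := ⟨[nat_lit 80, nat_lit 100, nat_lit 120], [nat_lit 0, nat_lit 466, nat_lit 966], [(nat_lit 0, nat_lit 0, nat_lit 0), (nat_lit 1000, nat_lit 927, nat_lit 359), (nat_lit 1000, nat_lit 927, nat_lit 391)], (nat_lit 94, nat_lit 100, nat_lit 55)⟩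
noncomputable def p028_l0 : Lf2 := ⟨nat_lit 0, nat_lit 2, [nat_lit 10, nat_lit 5, nat_lit 5, nat_lit 20], true, nat_lit 240, nat_lit 280, nat_lit 0, nat_lit 252, ⟨nat_lit 0, nat_lit 0, nat_lit 1000, nat_lit 5, nat_lit 51, nat_lit 1000, nat_lit 178, nat_lit 1000, nat_lit 35833, nat_lit 261, nat_lit 24067, nat_lit 253, nat_lit 54236497, nat_lit 0, nat_lit 0, nat_lit 2917379, false, false⟩,
 nat_lit 0, nat_lit 8088, nat_lit 0, nat_lit 30, nat_lit 3868, nat_lit 0, nat_lit 1027, nat_lit 0, nat_lit 0, nat_lit 0, nat_lit 0, nat_lit 0, nat_lit 0, nat_lit 7890438711524, nat_lit 36, nat_lit 519850, nat_lit 0, nat_lit 0, [(nat_lit 3, [(nat_lit 4, nat_lit 293), (nat_lit 5, nat_lit 434), (nat_lit 6, nat_lit 273)])],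
 ⟨p028_k0, nat_lit 0, nat_lit 0, nat_lit 0, nat_lit 0, nat_lit 124355, [nat_lit 1675235760, nat_lit 1174941321, nat_lit 899880001, nat_lit 148335199], [], [nat_lit 14616639871, nat_lit 15532645149, nat_lit 13872445165, nat_lit 14787697629, nat_lit 16996162606, nat_lit 17913984239, nat_lit 16242738765, nat_lit 17137727265], nat_lit 1271250, nat_lit 1271250, nat_lit 21650, nat_lit 111251, nat_lit 1271250, nat_lit 1271250, [nat_lit 780000, nat_lit 1271250, nat_lit 1271250, nat_lit 1271250], [nat_lit 184, nat_lit 40, nat_lit 20, nat_lit 80]⟩, C1.Rw.none,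
 ⟨nat_lit 6324, nat_lit 6709, ⟨.ofNat (nat_lit 99275), .ofNat (nat_lit 133737), .ofNat (nat_lit 104635), .ofNat (nat_lit 139097), .ofNat (nat_lit 118272), .ofNat (nat_lit 151177), .ofNat (nat_lit 123614), .ofNat (nat_lit 156519)⟩, ⟨.ofNat (nat_lit 393209), .ofNat (nat_lit 479364), .ofNat (nat_lit 414647), .ofNat (nat_lit 500798), .ofNat (nat_lit 389952), .ofNat (nat_lit 472216), .ofNat (nat_lit 411320), .ofNat (nat_lit 493579)⟩⟩, [⟨nat_lit 0, nat_lit 100, nat_lit 100, nat_lit 26, nat_lit 343668426⟩, ⟨nat_lit 4, nat_lit 93, nat_lit 100, nat_lit 53, nat_lit 475146311⟩]⟩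
noncomputable def p028_l1 : Lf2 := ⟨nat_lit 0, nat_lit 2, [nat_lit 10, nat_lit 5, nat_lit 5, nat_lit 20], true, nat_lit 240, nat_lit 280, nat_lit 0, nat_lit 252, ⟨nat_lit 0, nat_lit 0, nat_lit 1000, nat_lit 5, nat_lit 53, nat_lit 1000, nat_lit 178, nat_lit 1000, nat_lit 41105, nat_lit 263, nat_lit 25350, nat_lit 254, nat_lit 54146966, nat_lit 0, nat_lit 0, nat_lit 2939635, false, false⟩,
 nat_lit 0, nat_lit 7823, nat_lit 0, nat_lit 0, nat_lit 3840, nat_lit 0, nat_lit 1214, nat_lit 0, nat_lit 0, nat_lit 0, nat_lit 0, nat_lit 0, nat_lit 0, nat_lit 19384316232965, nat_lit 30, nat_lit 367150, nat_lit 0, nat_lit 0, [(nat_lit 3, [(nat_lit 4, nat_lit 219), (nat_lit 5, nat_lit 781)])],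
 ⟨p028_k1, nat_lit 0, nat_lit 0, nat_lit 0, nat_lit 0, nat_lit 92482, [nat_lit 1546854241, nat_lit 1075757281, nat_lit 790765200, nat_lit 109313200], [], [nat_lit 14679781507, nat_lit 14908236554, nat_lit 13941993090, nat_lit 14170307911, nat_lit 17119733418, nat_lit 17342998766, nat_lit 16373065770, nat_lit 16596292270], nat_lit 1271250, nat_lit 1271250, nat_lit 21650, nat_lit 111251, nat_lit 1271250, nat_lit 1271250, [nat_lit 780000, nat_lit 1271250, nat_lit 1271250, nat_lit 1271250], [nat_lit 184, nat_lit 40, nat_lit 20, nat_lit 80]⟩, C1.Rw.none,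
 ⟨nat_lit 6519, nat_lit 6615, ⟨.ofNat (nat_lit 109456), .ofNat (nat_lit 143523), .ofNat (nat_lit 114811), .ofNat (nat_lit 148877), .ofNat (nat_lit 114225), .ofNat (nat_lit 147900), .ofNat (nat_lit 119575), .ofNat (nat_lit 153250)⟩, ⟨.ofNat (nat_lit 392412), .ofNat (nat_lit 477578), .ofNat (nat_lit 413829), .ofNat (nat_lit 498994), .ofNat (nat_lit 391604), .ofNat (nat_lit 475792), .ofNat (nat_lit 413002), .ofNat (nat_lit 497189)⟩⟩, [⟨nat_lit 0, nat_lit 100, nat_lit 100, nat_lit 30, nat_lit 340531106⟩, ⟨nat_lit 16, nat_lit 100, nat_lit 92, nat_lit 53, nat_lit 496591765⟩]⟩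
noncomputable def p028_l2 : Lf2 := ⟨nat_lit 0, nat_lit 2, [nat_lit 10, nat_lit 5, nat_lit 5, nat_lit 20], true, nat_lit 240, nat_lit 280, nat_lit 0, nat_lit 252, ⟨nat_lit 0, nat_lit 0, nat_lit 1000, nat_lit 5, nat_lit 55, nat_lit 1000, nat_lit 177, nat_lit 1000, nat_lit 41329, nat_lit 264, nat_lit 28017, nat_lit 256, nat_lit 54088052, nat_lit 0, nat_lit 0, nat_lit 2970947, false, false⟩,
 nat_lit 0, nat_lit 7446, nat_lit 0, nat_lit 0, nat_lit 3750, nat_lit 0, nat_lit 1112, nat_lit 0, nat_lit 0, nat_lit 0, nat_lit 0, nat_lit 0, nat_lit 0, nat_lit 0, nat_lit 30, nat_lit 368650, nat_lit 0, nat_lit 0, [(nat_lit 3, [(nat_lit 4, nat_lit 209), (nat_lit 5, nat_lit 791)])],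
 ⟨p028_k2, nat_lit 0, nat_lit 0, nat_lit 0, nat_lit 0, nat_lit 139555, [nat_lit 1535684641, nat_lit 1076466081, nat_lit 790657201, nat_lit 108285199], [], [nat_lit 14930144049, nat_lit 15383542399, nat_lit 14213858449, nat_lit 14666943199, nat_lit 17257378800, nat_lit 17795788500, nat_lit 16532470076, nat_lit 16975576201], nat_lit 1271250, nat_lit 1271250, nat_lit 21650, nat_lit 111251, nat_lit 1271250, nat_lit 1271250, [nat_lit 780000, nat_lit 1271250, nat_lit 1271250, nat_lit 1271250], [nat_lit 184, nat_lit 40, nat_lit 20, nat_lit 80]⟩, C1.Rw.none,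
 ⟨nat_lit 6324, nat_lit 6520, ⟨.ofNat (nat_lit 114225), .ofNat (nat_lit 147900), .ofNat (nat_lit 119575), .ofNat (nat_lit 153250), .ofNat (nat_lit 123614), .ofNat (nat_lit 156519), .ofNat (nat_lit 128956), .ofNat (nat_lit 161861)⟩, ⟨.ofNat (nat_lit 391604), .ofNat (nat_lit 475792), .ofNat (nat_lit 413002), .ofNat (nat_lit 497189), .ofNat (nat_lit 389952), .ofNat (nat_lit 472216), .ofNat (nat_lit 411320), .ofNat (nat_lit 493584)⟩⟩, [⟨nat_lit 0, nat_lit 100, nat_lit 99, nat_lit 31, nat_lit 338754938⟩, ⟨nat_lit 4, nat_lit 94, nat_lit 100, nat_lit 54, nat_lit 462535503⟩]⟩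
noncomputable def p028_l3 : Lf2 := ⟨nat_lit 0, nat_lit 2, [nat_lit 10, nat_lit 5, nat_lit 5, nat_lit 20], true, nat_lit 240, nat_lit 280, nat_lit 0, nat_lit 252, ⟨nat_lit 0, nat_lit 0, nat_lit 1000, nat_lit 5, nat_lit 52, nat_lit 1000, nat_lit 178, nat_lit 1000, nat_lit 35833, nat_lit 261, nat_lit 25350, nat_lit 254, nat_lit 54183276, nat_lit 0, nat_lit 0, nat_lit 2933484, false, false⟩,
 nat_lit 0, nat_lit 797953, nat_lit 0, nat_lit 0, nat_lit 381629, nat_lit 0, nat_lit 60000, nat_lit 20000, nat_lit 0, nat_lit 0, nat_lit 0, nat_lit 0, nat_lit 0, nat_lit 0, nat_lit 0, nat_lit 1000000, nat_lit 0, nat_lit 0, [(nat_lit 3, [(nat_lit 6, nat_lit 1000)])],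
 ⟨p028_k3, nat_lit 0, nat_lit 0, nat_lit 170, nat_lit 0, nat_lit 148055, [nat_lit 401041142858, nat_lit 478739600000], [], [nat_lit 337244317772, nat_lit 356236494464, nat_lit 259592508248, nat_lit 278651630070, nat_lit 410203580255, nat_lit 428056015662, nat_lit 332221157933, nat_lit 345911635578], nat_lit 1271250, nat_lit 1271250, nat_lit 21650, nat_lit 111251, nat_lit 1271250, nat_lit 1271250, [nat_lit 1412500, nat_lit 1271250], [nat_lit 26, nat_lit 40, nat_lit 20, nat_lit 80, nat_lit 2, nat_lit 289, nat_lit 75, nat_lit 9]⟩, C1.Rw.none,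
 ⟨nat_lit 6324, nat_lit 6709, ⟨.ofNat (nat_lit 99275), .ofNat (nat_lit 133737), .ofNat (nat_lit 109994), .ofNat (nat_lit 144456), .ofNat (nat_lit 118272), .ofNat (nat_lit 151177), .ofNat (nat_lit 128956), .ofNat (nat_lit 161861)⟩, ⟨.ofNat (nat_lit 393209), .ofNat (nat_lit 479364), .ofNat (nat_lit 414647), .ofNat (nat_lit 500798), .ofNat (nat_lit 389952), .ofNat (nat_lit 472216), .ofNat (nat_lit 411320), .ofNat (nat_lit 493579)⟩⟩, [⟨nat_lit 0, nat_lit 100, nat_lit 100, nat_lit 27, nat_lit 10000000000⟩, ⟨nat_lit 0, nat_lit 100, nat_lit 99, nat_lit 35, nat_lit 10101010101⟩, ⟨nat_lit 0, nat_lit 100, nat_lit 100, nat_lit 20, nat_lit 5772170248⟩, ⟨nat_lit 16, nat_lit 100, nat_lit 93, nat_lit 53, nat_lit 10752688172⟩, ⟨nat_lit 16, nat_lit 100, nat_lit 86, nat_lit 60, nat_lit 11627906977⟩, ⟨nat_lit 4, nat_lit 93, nat_lit 100, nat_lit 53, nat_lit 10752688172⟩]⟩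
noncomputable def p028_l4 : Lf2 := ⟨nat_lit 0, nat_lit 3, [nat_lit 45, nat_lit 5, nat_lit 5, nat_lit 20], true, nat_lit 240, nat_lit 260, nat_lit 0, nat_lit 252, ⟨nat_lit 0, nat_lit 0, nat_lit 1000, nat_lit 5, nat_lit 52, nat_lit 1000, nat_lit 169, nat_lit 1000, nat_lit 156852, nat_lit 312, nat_lit 25350, nat_lit 254, nat_lit 55019923, nat_lit 0, nat_lit 0, nat_lit 2828731, false, false⟩,
 nat_lit 0, nat_lit 11427, nat_lit 0, nat_lit 1286, nat_lit 5465, nat_lit 0, nat_lit 0, nat_lit 0, nat_lit 0, nat_lit 0, nat_lit 0, nat_lit 0, nat_lit 0, nat_lit 0, nat_lit 112, nat_lit 974800, nat_lit 0, nat_lit 0, [(nat_lit 3, [(nat_lit 5, nat_lit 42), (nat_lit 6, nat_lit 958)])],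
 ⟨p028_k4, nat_lit 0, nat_lit 0, nat_lit 161, nat_lit 0, nat_lit 44600, [nat_lit 3303371658, nat_lit 3372800], [], [nat_lit 15029490132, nat_lit 15941814345, nat_lit 13954843016, nat_lit 14852478596, nat_lit 16289818046, nat_lit 17642503802, nat_lit 15150419819, nat_lit 16182159725], nat_lit 1271250, nat_lit 1271250, nat_lit 21650, nat_lit 111251, nat_lit 1271250, nat_lit 1271250, [nat_lit 1412500, nat_lit 1271250], [nat_lit 51, nat_lit 40, nat_lit 20, nat_lit 80, nat_lit 1, nat_lit 373, nat_lit 150, nat_lit 10]⟩, C1.Rw.none,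
 ⟨nat_lit 6324, nat_lit 6709, ⟨.ofNat (nat_lit 99275), .ofNat (nat_lit 133737), .ofNat (nat_lit 109994), .ofNat (nat_lit 144456), .ofNat (nat_lit 118272), .ofNat (nat_lit 151177), .ofNat (nat_lit 128956), .ofNat (nat_lit 161861)⟩, ⟨.ofNat (nat_lit 393209), .ofNat (nat_lit 436286), .ofNat (nat_lit 414647), .ofNat (nat_lit 457725), .ofNat (nat_lit 389952), .ofNat (nat_lit 431084), .ofNat (nat_lit 411320), .ofNat (nat_lit 452452)⟩⟩, [⟨nat_lit 0, nat_lit 100, nat_lit 100, nat_lit 27, nat_lit 467974676⟩, ⟨nat_lit 4, nat_lit 93, nat_lit 100, nat_lit 53, nat_lit 434487809⟩]⟩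
noncomputable def p028_l5 : Lf2 := ⟨nat_lit 1, nat_lit 3, [nat_lit 45, nat_lit 5, nat_lit 5, nat_lit 20], false, nat_lit 260, nat_lit 280, nat_lit 0, nat_lit 232, zbN0,
 nat_lit 0, nat_lit 0, nat_lit 0, nat_lit 0, nat_lit 0, nat_lit 0, nat_lit 0, nat_lit 0, nat_lit 0, nat_lit 0, nat_lit 0, nat_lit 0, nat_lit 0, nat_lit 0, nat_lit 0, nat_lit 0, nat_lit 0, nat_lit 0, [],
 C1.Rw.none, C1.Rw.none,
 zbF0, []⟩
noncomputable def p028_l6 : Lf2 := ⟨nat_lit 0, nat_lit 3, [nat_lit 45, nat_lit 5, nat_lit 5, nat_lit 20], true, nat_lit 260, nat_lit 280, nat_lit 0, nat_lit 232, ⟨nat_lit 0, nat_lit 0, nat_lit 1000, nat_lit 5, nat_lit 54, nat_lit 1000, nat_lit 186, nat_lit 1000, nat_lit 41329, nat_lit 264, nat_lit 28017, nat_lit 256, nat_lit 53307597, nat_lit 0, nat_lit 0, nat_lit 3053472, false, false⟩,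
 nat_lit 0, nat_lit 11920, nat_lit 0, nat_lit 27864, nat_lit 6003, nat_lit 0, nat_lit 0, nat_lit 0, nat_lit 0, nat_lit 0, nat_lit 0, nat_lit 0, nat_lit 0, nat_lit 0, nat_lit 31, nat_lit 400000, nat_lit 0, nat_lit 0, [(nat_lit 3, [(nat_lit 5, nat_lit 1000)])],
 ⟨p028_k5, nat_lit 0, nat_lit 0, nat_lit 146, nat_lit 0, nat_lit 42019, [nat_lit 2190400000, nat_lit 6400000], [], [nat_lit 17364998667, nat_lit 18073630855, nat_lit 15761854915, nat_lit 16453185295, nat_lit 19396533809, nat_lit 20052525777, nat_lit 17770533068, nat_lit 18430076978], nat_lit 1271250, nat_lit 1271250, nat_lit 21650, nat_lit 111251, nat_lit 1271250, nat_lit 1271250, [nat_lit 1412500, nat_lit 1271250], [nat_lit 26, nat_lit 40, nat_lit 20, nat_lit 80, nat_lit 2, nat_lit 289, nat_lit 75, nat_lit 9]⟩, C1.Rw.none,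
 ⟨nat_lit 6324, nat_lit 6520, ⟨.ofNat (nat_lit 108876), .ofNat (nat_lit 142551), .ofNat (nat_lit 119575), .ofNat (nat_lit 153250), .ofNat (nat_lit 118272), .ofNat (nat_lit 151177), .ofNat (nat_lit 128956), .ofNat (nat_lit 161861)⟩, ⟨.ofNat (nat_lit 433698), .ofNat (nat_lit 475792), .ofNat (nat_lit 455096), .ofNat (nat_lit 497189), .ofNat (nat_lit 431084), .ofNat (nat_lit 472216), .ofNat (nat_lit 452452), .ofNat (nat_lit 493584)⟩⟩, [⟨nat_lit 0, nat_lit 100, nat_lit 99, nat_lit 30, nat_lit 615988100⟩, ⟨nat_lit 4, nat_lit 94, nat_lit 100, nat_lit 54, nat_lit 2588549823⟩]⟩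
noncomputable def p028_l7 : Lf2 := ⟨nat_lit 0, nat_lit 3, [nat_lit 45, nat_lit 5, nat_lit 5, nat_lit 20], true, nat_lit 240, nat_lit 260, nat_lit 0, nat_lit 288, ⟨nat_lit 0, nat_lit 0, nat_lit 1000, nat_lit 5, nat_lit 68, nat_lit 1000, nat_lit 169, nat_lit 1000, nat_lit 156852, nat_lit 312, nat_lit 43350, nat_lit 266, nat_lit 54199807, nat_lit 0, nat_lit 0, nat_lit 3058459, false, false⟩,
 nat_lit 0, nat_lit 11185, nat_lit 0, nat_lit 0, nat_lit 5349, nat_lit 0, nat_lit 0, nat_lit 0, nat_lit 0, nat_lit 0, nat_lit 0, nat_lit 0, nat_lit 0, nat_lit 0, nat_lit 115, nat_lit 1000000, nat_lit 0, nat_lit 0, [(nat_lit 3, [(nat_lit 6, nat_lit 1000)])],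
 ⟨p028_k6, nat_lit 0, nat_lit 0, nat_lit 185, nat_lit 0, nat_lit 150545, [nat_lit 3341142858, nat_lit 1499600000, nat_lit 23600000], [], [nat_lit 14103852536, nat_lit 14994387524, nat_lit 13483292358, nat_lit 14363140560, nat_lit 15286855113, nat_lit 16124591535, nat_lit 14649539246, nat_lit 15477595907], nat_lit 1271250, nat_lit 1271250, nat_lit 111251, nat_lit 230001, nat_lit 1271250, nat_lit 1271250, [nat_lit 1412500, nat_lit 1271250, nat_lit 1271250], [nat_lit 25, nat_lit 40, nat_lit 20, nat_lit 80, nat_lit 17, nat_lit 373, nat_lit 150, nat_lit 10]⟩, C1.Rw.none,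
 ⟨nat_lit 6324, nat_lit 6709, ⟨.ofNat (nat_lit 133737), .ofNat (nat_lit 176815), .ofNat (nat_lit 144456), .ofNat (nat_lit 187534), .ofNat (nat_lit 151177), .ofNat (nat_lit 192309), .ofNat (nat_lit 161861), .ofNat (nat_lit 202993)⟩, ⟨.ofNat (nat_lit 393209), .ofNat (nat_lit 436286), .ofNat (nat_lit 414647), .ofNat (nat_lit 457725), .ofNat (nat_lit 389952), .ofNat (nat_lit 431084), .ofNat (nat_lit 411320), .ofNat (nat_lit 452452)⟩⟩, [⟨nat_lit 4, nat_lit 93, nat_lit 100, nat_lit 53, nat_lit 429049025⟩]⟩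
noncomputable def p028_l8 : Lf2 := ⟨nat_lit 0, nat_lit 3, [nat_lit 45, nat_lit 5, nat_lit 5, nat_lit 20], false, nat_lit 260, nat_lit 280, nat_lit 0, nat_lit 160, ⟨nat_lit 202, nat_lit 0, nat_lit 798, nat_lit 5, nat_lit 66, nat_lit 798, nat_lit 187, nat_lit 798, nat_lit 35841, nat_lit 261, nat_lit 40017, nat_lit 264, nat_lit 52574750, nat_lit 0, nat_lit 0, nat_lit 3241243, false, false⟩,
 nat_lit 13677, nat_lit 0, nat_lit 0, nat_lit 3278, nat_lit 6541, nat_lit 2265, nat_lit 1196, nat_lit 0, nat_lit 0, nat_lit 1418, nat_lit 0, nat_lit 0, nat_lit 0, nat_lit 17157575843873, nat_lit 21, nat_lit 798000, nat_lit 0, nat_lit 0, [(nat_lit 3, [(nat_lit 6, nat_lit 798)])],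
 ⟨p028_k4, nat_lit 0, nat_lit 0, nat_lit 164, nat_lit 0, nat_lit 96890, [nat_lit 2513332001, nat_lit 25356800], [], [nat_lit 15532402971, nat_lit 15983788380, nat_lit 14682185772, nat_lit 15127497547, nat_lit 17432920826, nat_lit 18120962596, nat_lit 16034288634, nat_lit 16720789373], nat_lit 1271250, nat_lit 1271250, nat_lit 111251, nat_lit 230001, nat_lit 1271250, nat_lit 1271250, [nat_lit 1412500, nat_lit 1271250], [nat_lit 51, nat_lit 40, nat_lit 20, nat_lit 80, nat_lit 1, nat_lit 373, nat_lit 150, nat_lit 10]⟩, ⟨p028_k4, nat_lit 0, nat_lit 0, nat_lit 301, nat_lit 0, nat_lit 96890, [nat_lit 1262500000, nat_lit 1988084000], [], [nat_lit 3732098184, nat_lit 3922187514, nat_lit 3205085958, nat_lit 3394897789, nat_lit 3564530400, nat_lit 2979150210, nat_lit 3569730910, nat_lit 2988692725], nat_lit 1271250, nat_lit 1271250, nat_lit 111251, nat_lit 230001, nat_lit 0, nat_lit 1100001, [nat_lit 1412500, nat_lit 1271250],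 [nat_lit 51, nat_lit 40, nat_lit 20, nat_lit 80, nat_lit 1, nat_lit 345, nat_lit 125, nat_lit 10]⟩,
 ⟨nat_lit 6519, nat_lit 6709, ⟨.ofNat (nat_lit 133737), .ofNat (nat_lit 176815), .ofNat (nat_lit 144456), .ofNat (nat_lit 187534), .ofNat (nat_lit 142551), .ofNat (nat_lit 184645), .ofNat (nat_lit 153250), .ofNat (nat_lit 195344)⟩, ⟨.ofNat (nat_lit 436286), .ofNat (nat_lit 479364), .ofNat (nat_lit 457725), .ofNat (nat_lit 500801), .ofNat (nat_lit 433698), .ofNat (nat_lit 475791), .ofNat (nat_lit 455096), .ofNat (nat_lit 497188)⟩⟩, [⟨nat_lit 4, nat_lit 92, nat_lit 100, nat_lit 53, nat_lit 1043735767⟩]⟩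
noncomputable def p028_l9 : Lf2 := ⟨nat_lit 0, nat_lit 3, [nat_lit 45, nat_lit 5, nat_lit 5, nat_lit 20], false, nat_lit 260, nat_lit 280, nat_lit 160, nat_lit 268, ⟨nat_lit 142, nat_lit 0, nat_lit 858, nat_lit 5, nat_lit 66, nat_lit 858, nat_lit 187, nat_lit 858, nat_lit 35841, nat_lit 261, nat_lit 40017, nat_lit 264, nat_lit 52574750, nat_lit 0, nat_lit 0, nat_lit 3241243, false, false⟩,
 nat_lit 13024, nat_lit 0, nat_lit 0, nat_lit 0, nat_lit 6228, nat_lit 2945, nat_lit 845, nat_lit 0, nat_lit 0, nat_lit 958, nat_lit 0, nat_lit 0, nat_lit 0, nat_lit 6309992636782, nat_lit 49, nat_lit 858000, nat_lit 0, nat_lit 0, [(nat_lit 3, [(nat_lit 6, nat_lit 858)])],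
 ⟨p028_k4, nat_lit 0, nat_lit 0, nat_lit 164, nat_lit 0, nat_lit 96890, [nat_lit 2760800572, nat_lit 27052800], [], [nat_lit 15395439042, nat_lit 15841155120, nat_lit 14601126304, nat_lit 15038223550, nat_lit 17245626008, nat_lit 17917088168, nat_lit 15928909672, nat_lit 16598796684], nat_lit 1271250, nat_lit 1271250, nat_lit 111251, nat_lit 230001, nat_lit 1271250, nat_lit 1271250, [nat_lit 1412500, nat_lit 1271250], [nat_lit 51, nat_lit 40, nat_lit 20, nat_lit 80, nat_lit 1, nat_lit 373, nat_lit 150, nat_lit 10]⟩, ⟨p028_k4, nat_lit 0, nat_lit 0, nat_lit 197, nat_lit 0, nat_lit 96890, [nat_lit 887500000, nat_lit 1397564000], [], [nat_lit 796969520, nat_lit 748151943, nat_lit 746425150, nat_lit 164183590, nat_lit 4175764971, nat_lit 3452772995, nat_lit 4183531307, nat_lit 3456983314], nat_lit 1271250, nat_lit 1271250, nat_lit 111251, nat_lit 230001, nat_lit 1100001, nat_lit 2024750, [nat_lit 1412500, nat_lit 1271250],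 [nat_lit 51, nat_lit 40, nat_lit 20, nat_lit 80, nat_lit 1, nat_lit 373, nat_lit 150, nat_lit 11]⟩,
 ⟨nat_lit 6519, nat_lit 6709, ⟨.ofNat (nat_lit 133737), .ofNat (nat_lit 176815), .ofNat (nat_lit 144456), .ofNat (nat_lit 187534), .ofNat (nat_lit 142551), .ofNat (nat_lit 184645), .ofNat (nat_lit 153250), .ofNat (nat_lit 195344)⟩, ⟨.ofNat (nat_lit 436286), .ofNat (nat_lit 479364), .ofNat (nat_lit 457725), .ofNat (nat_lit 500801), .ofNat (nat_lit 433698), .ofNat (nat_lit 475791), .ofNat (nat_lit 455096), .ofNat (nat_lit 497188)⟩⟩, [⟨nat_lit 4, nat_lit 92, nat_lit 100, nat_lit 53, nat_lit 669961649⟩, ⟨nat_lit 11, nat_lit 100, nat_lit 94, nat_lit 42, nat_lit 393869482⟩]⟩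
noncomputable def p028_l10 : Lf2 := ⟨nat_lit 0, nat_lit 2, [nat_lit 10, nat_lit 5, nat_lit 5, nat_lit 20], true, nat_lit 260, nat_lit 280, nat_lit 0, nat_lit 268, ⟨nat_lit 0, nat_lit 0, nat_lit 1000, nat_lit 5, nat_lit 69, nat_lit 1000, nat_lit 186, nat_lit 1000, nat_lit 41329, nat_lit 264, nat_lit 45067, nat_lit 267, nat_lit 52517502, nat_lit 0, nat_lit 0, nat_lit 3275748, false, false⟩,
 nat_lit 0, nat_lit 10719, nat_lit 0, nat_lit 0, nat_lit 5398, nat_lit 0, nat_lit 0, nat_lit 0, nat_lit 0, nat_lit 0, nat_lit 0, nat_lit 0, nat_lit 0, nat_lit 0, nat_lit 53, nat_lit 1000000, nat_lit 0, nat_lit 0, [(nat_lit 3, [(nat_lit 6, nat_lit 1000)])],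
 ⟨p028_k7, nat_lit 0, nat_lit 0, nat_lit 145, nat_lit 0, nat_lit 139555, [nat_lit 2101142858, nat_lit 11600000], [], [nat_lit 15630621257, nat_lit 16148407470, nat_lit 14979690087, nat_lit 15395004398, nat_lit 17376462688, nat_lit 18003959748, nat_lit 16275301694, nat_lit 16901133136], nat_lit 1271250, nat_lit 1271250, nat_lit 111251, nat_lit 230001, nat_lit 1271250, nat_lit 1271250, [nat_lit 1412500, nat_lit 1271250], [nat_lit 26, nat_lit 40, nat_lit 20, nat_lit 80, nat_lit 2, nat_lit 289, nat_lit 75, nat_lit 9]⟩, C1.Rw.none,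
 ⟨nat_lit 6324, nat_lit 6520, ⟨.ofNat (nat_lit 142551), .ofNat (nat_lit 184645), .ofNat (nat_lit 153250), .ofNat (nat_lit 195344), .ofNat (nat_lit 151177), .ofNat (nat_lit 192309), .ofNat (nat_lit 161861), .ofNat (nat_lit 202993)⟩, ⟨.ofNat (nat_lit 433698), .ofNat (nat_lit 475792), .ofNat (nat_lit 455096), .ofNat (nat_lit 497189), .ofNat (nat_lit 431084), .ofNat (nat_lit 472216), .ofNat (nat_lit 452452), .ofNat (nat_lit 493584)⟩⟩, [⟨nat_lit 4, nat_lit 94, nat_lit 100, nat_lit 54, nat_lit 736933618⟩]⟩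
noncomputable def p028_l11 : Lf2 := ⟨nat_lit 0, nat_lit 3, [nat_lit 45, nat_lit 5, nat_lit 5, nat_lit 20], true, nat_lit 260, nat_lit 280, nat_lit 0, nat_lit 268, ⟨nat_lit 0, nat_lit 0, nat_lit 1000, nat_lit 5, nat_lit 69, nat_lit 1000, nat_lit 186, nat_lit 1000, nat_lit 41329, nat_lit 264, nat_lit 45067, nat_lit 267, nat_lit 52517502, nat_lit 0, nat_lit 0, nat_lit 3275748, false, false⟩,
 nat_lit 0, nat_lit 11469, nat_lit 0, nat_lit 2080, nat_lit 5776, nat_lit 0, nat_lit 0, nat_lit 0, nat_lit 0, nat_lit 0, nat_lit 0, nat_lit 0, nat_lit 0, nat_lit 0, nat_lit 31, nat_lit 400000, nat_lit 0, nat_lit 0, [(nat_lit 3, [(nat_lit 5, nat_lit 1000)])],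
 ⟨p028_k5, nat_lit 0, nat_lit 0, nat_lit 138, nat_lit 0, nat_lit 42019, [nat_lit 2190400000, nat_lit 6400000], [], [nat_lit 15660073512, nat_lit 16338830640, nat_lit 14778206000, nat_lit 15329653560, nat_lit 17622675256, nat_lit 18270194976, nat_lit 16422628328, nat_lit 17068523632], nat_lit 1271250, nat_lit 1271250, nat_lit 111251, nat_lit 230001, nat_lit 1271250, nat_lit 1271250, [nat_lit 1412500, nat_lit 1271250], [nat_lit 26, nat_lit 40, nat_lit 20, nat_lit 80, nat_lit 2, nat_lit 289, nat_lit 75, nat_lit 9]⟩, C1.Rw.none,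
 ⟨nat_lit 6324, nat_lit 6520, ⟨.ofNat (nat_lit 142551), .ofNat (nat_lit 184645), .ofNat (nat_lit 153250), .ofNat (nat_lit 195344), .ofNat (nat_lit 151177), .ofNat (nat_lit 192309), .ofNat (nat_lit 161861), .ofNat (nat_lit 202993)⟩, ⟨.ofNat (nat_lit 433698), .ofNat (nat_lit 475792), .ofNat (nat_lit 455096), .ofNat (nat_lit 497189), .ofNat (nat_lit 431084), .ofNat (nat_lit 472216), .ofNat (nat_lit 452452), .ofNat (nat_lit 493584)⟩⟩, [⟨nat_lit 4, nat_lit 94, nat_lit 100, nat_lit 54, nat_lit 836949027⟩]⟩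
noncomputable def p028_l12 : Lf2 := ⟨nat_lit 1, nat_lit 5, [nat_lit 4, nat_lit 5, nat_lit 5, nat_lit 20], false, nat_lit 240, nat_lit 280, nat_lit 0, nat_lit 288, zbN0,
 nat_lit 0, nat_lit 0, nat_lit 0, nat_lit 0, nat_lit 0, nat_lit 0, nat_lit 0, nat_lit 0, nat_lit 0, nat_lit 0, nat_lit 0, nat_lit 0, nat_lit 0, nat_lit 0, nat_lit 0, nat_lit 0, nat_lit 0, nat_lit 0, [],
 C1.Rw.none, C1.Rw.none,
 zbF0, []⟩
noncomputable def b_VL_500_500_5_29 : St := ⟨true, nat_lit 1, nat_lit 1, nat_lit 1, nat_lit 40, nat_lit 220, nat_lit 240, nat_lit 220, nat_lit 230, nat_lit 4, nat_lit 40, nat_lit 20, nat_lit 40, nat_lit 240, nat_lit 280, nat_lit 0, nat_lit 288, nat_lit 0, nat_lit 20, nat_lit 0, nat_lit 0, nat_lit 0, nat_lit 0⟩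
theorem d_VL_500_500_5_29 (h : EB TB.env) : Dead b_VL_500_500_5_29 := chkB_sound0 h (T :=
(.spl (nat_lit 6) (nat_lit 12)
(.spl (nat_lit 2) (nat_lit 20)
(.trX (nat_lit 23) (nat_lit 100) (nat_lit 99) (nat_lit 44) (nat_lit 252) (.spl (nat_lit 6) (nat_lit 8)
(.spl (nat_lit 7) (nat_lit 600)
(.spl (nat_lit 1) (nat_lit 225)
(.leaf p028_l0)
(.ord (.spl (nat_lit 0) (nat_lit 230)
(.leaf p028_l1)
(.leaf p028_l2))))
(.leaf p028_l3))
(.spl (nat_lit 4) (nat_lit 260)
(.leaf p028_l4)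
(.trX (nat_lit 23) (nat_lit 96) (nat_lit 100) (nat_lit 44) (nat_lit 232) (.spl (nat_lit 0) (nat_lit 230)
(.leaf p028_l5)
(.leaf p028_l6))))))
(.spl (nat_lit 4) (nat_lit 260)
(.leaf p028_l7)
(.trX (nat_lit 23) (nat_lit 100) (nat_lit 99) (nat_lit 63) (nat_lit 268) (.spl (nat_lit 0) (nat_lit 230)
(.spl (nat_lit 5) (nat_lit 160)
(.leaf p028_l8)
(.leaf p028_l9))
(.spl (nat_lit 6) (nat_lit 8)
(.leaf p028_l10)
(.leaf p028_l11))))))
(.leaf p028_l12))) (by decide +kernel)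
noncomputable def p028_l13 : Lf2 := ⟨nat_lit 0, nat_lit 2, [nat_lit 10, nat_lit 5, nat_lit 5, nat_lit 20], true, nat_lit 240, nat_lit 280, nat_lit 0, nat_lit 252, ⟨nat_lit 0, nat_lit 0, nat_lit 1000, nat_lit 5, nat_lit 57, nat_lit 1000, nat_lit 178, nat_lit 1000, nat_lit 41332, nat_lit 264, nat_lit 30817, nat_lit 258, nat_lit 53941063, nat_lit 0, nat_lit 0, nat_lit 3007512, false, false⟩,
 nat_lit 0, nat_lit 7477, nat_lit 0, nat_lit 0, nat_lit 3765, nat_lit 0, nat_lit 1163, nat_lit 0, nat_lit 0, nat_lit 0, nat_lit 0, nat_lit 0, nat_lit 0, nat_lit 14043863425260, nat_lit 30, nat_lit 370450, nat_lit 0, nat_lit 0, [(nat_lit 3, [(nat_lit 4, nat_lit 197), (nat_lit 5, nat_lit 803)])],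
 ⟨p028_k2, nat_lit 0, nat_lit 0, nat_lit 0, nat_lit 0, nat_lit 118871, [nat_lit 1522281121, nat_lit 1077316641, nat_lit 790527601, nat_lit 107051599], [], [nat_lit 14692990552, nat_lit 14829162442, nat_lit 14153251592, nat_lit 14289569291, nat_lit 17061691321, nat_lit 17194813478, nat_lit 16515293884, nat_lit 16648393065], nat_lit 1271250, nat_lit 1271250, nat_lit 43600, nat_lit 111251, nat_lit 1271250, nat_lit 1271250, [nat_lit 780000, nat_lit 1271250, nat_lit 1271250, nat_lit 1271250], [nat_lit 184, nat_lit 40, nat_lit 20, nat_lit 80]⟩, C1.Rw.none,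
 ⟨nat_lit 6461, nat_lit 6520, ⟨.ofNat (nat_lit 127994), .ofNat (nat_lit 153250), .ofNat (nat_lit 131203), .ofNat (nat_lit 156460), .ofNat (nat_lit 130770), .ofNat (nat_lit 155852), .ofNat (nat_lit 133978), .ofNat (nat_lit 159060)⟩, ⟨.ofNat (nat_lit 391604), .ofNat (nat_lit 475792), .ofNat (nat_lit 413002), .ofNat (nat_lit 497190), .ofNat (nat_lit 391113), .ofNat (nat_lit 474720), .ofNat (nat_lit 412501), .ofNat (nat_lit 496108)⟩⟩, [⟨nat_lit 0, nat_lit 100, nat_lit 100, nat_lit 33, nat_lit 335949543⟩, ⟨nat_lit 4, nat_lit 93, nat_lit 100, nat_lit 53, nat_lit 483779018⟩]⟩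
noncomputable def p028_l14 : Lf2 := ⟨nat_lit 0, nat_lit 2, [nat_lit 10, nat_lit 5, nat_lit 5, nat_lit 20], true, nat_lit 240, nat_lit 280, nat_lit 0, nat_lit 252, ⟨nat_lit 0, nat_lit 0, nat_lit 1000, nat_lit 5, nat_lit 59, nat_lit 1000, nat_lit 177, nat_lit 1000, nat_lit 43437, nat_lit 265, nat_lit 32267, nat_lit 259, nat_lit 53897828, nat_lit 0, nat_lit 0, nat_lit 3024225, false, false⟩,
 nat_lit 0, nat_lit 7242, nat_lit 0, nat_lit 0, nat_lit 3703, nat_lit 0, nat_lit 1101, nat_lit 0, nat_lit 0, nat_lit 0, nat_lit 0, nat_lit 0, nat_lit 0, nat_lit 18164441632914, nat_lit 30, nat_lit 375250, nat_lit 0, nat_lit 0, [(nat_lit 3, [(nat_lit 4, nat_lit 165), (nat_lit 5, nat_lit 835)])],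
 ⟨p028_k8, nat_lit 0, nat_lit 0, nat_lit 0, nat_lit 0, nat_lit 135717, [nat_lit 1486538400, nat_lit 1079584801, nat_lit 790182001, nat_lit 103761999], [], [nat_lit 14829674559, nat_lit 14919971105, nat_lit 14301216030, nat_lit 14391584583, nat_lit 17157838627, nat_lit 17246128635, nat_lit 16622683152, nat_lit 16710954814], nat_lit 1271250, nat_lit 1271250, nat_lit 43600, nat_lit 111251, nat_lit 1271250, nat_lit 1271250, [nat_lit 780000, nat_lit 1271250, nat_lit 1271250, nat_lit 1271250], [nat_lit 184, nat_lit 40, nat_lit 20, nat_lit 80]⟩, C1.Rw.none,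
 ⟨nat_lit 6422, nat_lit 6462, ⟨.ofNat (nat_lit 130770), .ofNat (nat_lit 155852), .ofNat (nat_lit 136117), .ofNat (nat_lit 161199), .ofNat (nat_lit 132611), .ofNat (nat_lit 157577), .ofNat (nat_lit 137956), .ofNat (nat_lit 162923)⟩, ⟨.ofNat (nat_lit 391113), .ofNat (nat_lit 474720), .ofNat (nat_lit 412501), .ofNat (nat_lit 496108), .ofNat (nat_lit 390784), .ofNat (nat_lit 474005), .ofNat (nat_lit 412166), .ofNat (nat_lit 495387)⟩⟩, [⟨nat_lit 0, nat_lit 100, nat_lit 100, nat_lit 35, nat_lit 331430393⟩, ⟨nat_lit 4, nat_lit 94, nat_lit 100, nat_lit 53, nat_lit 476810830⟩]⟩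
noncomputable def p028_l15 : Lf2 := ⟨nat_lit 0, nat_lit 1, [nat_lit 19, nat_lit 5, nat_lit 5, nat_lit 20], true, nat_lit 240, nat_lit 280, nat_lit 0, nat_lit 252, ⟨nat_lit 0, nat_lit 0, nat_lit 1000, nat_lit 5, nat_lit 60, nat_lit 1000, nat_lit 177, nat_lit 1000, nat_lit 41667, nat_lit 265, nat_lit 33750, nat_lit 260, nat_lit 53842771, nat_lit 0, nat_lit 0, nat_lit 3044050, false, false⟩,
 nat_lit 0, nat_lit 7224, nat_lit 0, nat_lit 0, nat_lit 3731, nat_lit 0, nat_lit 1374, nat_lit 0, nat_lit 0, nat_lit 0, nat_lit 0, nat_lit 0, nat_lit 0, nat_lit 17710682976736, nat_lit 10, nat_lit 338200, nat_lit 0, nat_lit 0, [(nat_lit 3, [(nat_lit 4, nat_lit 412), (nat_lit 5, nat_lit 588)])],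
 ⟨p028_k9, nat_lit 0, nat_lit 0, nat_lit 0, nat_lit 0, nat_lit 160213, [nat_lit 1354772801, nat_lit 788452800, nat_lit 21001600], [], [nat_lit 14719485318, nat_lit 14862076217, nat_lit 14186269372, nat_lit 14328752582, nat_lit 17127265463, nat_lit 17265707748, nat_lit 16586285945, nat_lit 16724680152], nat_lit 1271250, nat_lit 1271250, nat_lit 43600, nat_lit 111251, nat_lit 1271250, nat_lit 1271250, [nat_lit 631250, nat_lit 1271250, nat_lit 1271250], [nat_lit 90, nat_lit 40, nat_lit 20, nat_lit 40]⟩, C1.Rw.none,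
 ⟨nat_lit 6363, nat_lit 6423, ⟨.ofNat (nat_lit 132611), .ofNat (nat_lit 157577), .ofNat (nat_lit 141164), .ofNat (nat_lit 166130), .ofNat (nat_lit 135359), .ofNat (nat_lit 160153), .ofNat (nat_lit 143908), .ofNat (nat_lit 168702)⟩, ⟨.ofNat (nat_lit 390784), .ofNat (nat_lit 474005), .ofNat (nat_lit 412166), .ofNat (nat_lit 495387), .ofNat (nat_lit 390286), .ofNat (nat_lit 472932), .ofNat (nat_lit 411659), .ofNat (nat_lit 494305)⟩⟩, [⟨nat_lit 0, nat_lit 100, nat_lit 100, nat_lit 38, nat_lit 333154805⟩, ⟨nat_lit 16, nat_lit 100, nat_lit 95, nat_lit 54, nat_lit 489039299⟩]⟩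
noncomputable def p028_l16 : Lf2 := ⟨nat_lit 0, nat_lit 1, [nat_lit 19, nat_lit 5, nat_lit 5, nat_lit 20], true, nat_lit 240, nat_lit 280, nat_lit 0, nat_lit 252, ⟨nat_lit 0, nat_lit 0, nat_lit 1000, nat_lit 5, nat_lit 62, nat_lit 1000, nat_lit 177, nat_lit 1000, nat_lit 43602, nat_lit 266, nat_lit 35267, nat_lit 261, nat_lit 53798460, nat_lit 0, nat_lit 0, nat_lit 3060588, false, false⟩,
 nat_lit 0, nat_lit 6731, nat_lit 0, nat_lit 0, nat_lit 3528, nat_lit 0, nat_lit 1074, nat_lit 0, nat_lit 0, nat_lit 0, nat_lit 0, nat_lit 0, nat_lit 0, nat_lit 16918605742938, nat_lit 10, nat_lit 370450, nat_lit 0, nat_lit 0, [(nat_lit 3, [(nat_lit 4, nat_lit 197), (nat_lit 5, nat_lit 803)])],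
 ⟨p028_k10, nat_lit 0, nat_lit 0, nat_lit 0, nat_lit 0, nat_lit 175985, [nat_lit 1186126801, nat_lit 804706800, nat_lit 8789600], [], [nat_lit 14997402693, nat_lit 15091605361, nat_lit 14500746144, nat_lit 14594532033, nat_lit 17343921806, nat_lit 17434571153, nat_lit 16839891861, nat_lit 16930499728], nat_lit 1271250, nat_lit 1271250, nat_lit 43600, nat_lit 111251, nat_lit 1271250, nat_lit 1271250, [nat_lit 631250, nat_lit 1271250, nat_lit 1271250], [nat_lit 90, nat_lit 40, nat_lit 20, nat_lit 40]⟩, C1.Rw.none,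
 ⟨nat_lit 6324, nat_lit 6364, ⟨.ofNat (nat_lit 135359), .ofNat (nat_lit 160153), .ofNat (nat_lit 146046), .ofNat (nat_lit 170839), .ofNat (nat_lit 137182), .ofNat (nat_lit 161861), .ofNat (nat_lit 147866), .ofNat (nat_lit 172545)⟩, ⟨.ofNat (nat_lit 390286), .ofNat (nat_lit 472932), .ofNat (nat_lit 411659), .ofNat (nat_lit 494305), .ofNat (nat_lit 389952), .ofNat (nat_lit 472216), .ofNat (nat_lit 411320), .ofNat (nat_lit 493584)⟩⟩, [⟨nat_lit 0, nat_lit 100, nat_lit 100, nat_lit 40, nat_lit 315390019⟩, ⟨nat_lit 4, nat_lit 95, nat_lit 100, nat_lit 54, nat_lit 478366311⟩]⟩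
noncomputable def p028_l17 : Lf2 := ⟨nat_lit 0, nat_lit 2, [nat_lit 10, nat_lit 5, nat_lit 5, nat_lit 20], true, nat_lit 240, nat_lit 280, nat_lit 0, nat_lit 252, ⟨nat_lit 0, nat_lit 0, nat_lit 1000, nat_lit 5, nat_lit 61, nat_lit 1000, nat_lit 177, nat_lit 1000, nat_lit 41667, nat_lit 265, nat_lit 35267, nat_lit 261, nat_lit 53811453, nat_lit 0, nat_lit 0, nat_lit 3054502, false, false⟩,
 nat_lit 0, nat_lit 7187, nat_lit 0, nat_lit 0, nat_lit 3711, nat_lit 0, nat_lit 1173, nat_lit 0, nat_lit 0, nat_lit 0, nat_lit 0, nat_lit 0, nat_lit 0, nat_lit 17415257906663, nat_lit 28, nat_lit 324250, nat_lit 0, nat_lit 0, [(nat_lit 3, [(nat_lit 4, nat_lit 505), (nat_lit 5, nat_lit 495)])],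
 ⟨p028_k11, nat_lit 0, nat_lit 0, nat_lit 0, nat_lit 0, nat_lit 130174, [nat_lit 1607722001, nat_lit 1105422000, nat_lit 422284001, nat_lit 454000], [], [nat_lit 14854995527, nat_lit 15092212497, nat_lit 14341641311, nat_lit 14563654522, nat_lit 17126582281, nat_lit 17356914124, nat_lit 16589249245, nat_lit 16819498636], nat_lit 1271250, nat_lit 1271250, nat_lit 43600, nat_lit 111251, nat_lit 1271250, nat_lit 1271250, [nat_lit 631250, nat_lit 1271250, nat_lit 1271250, nat_lit 1271250], [nat_lit 139, nat_lit 40, nat_lit 20, nat_lit 40]⟩, C1.Rw.none,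
 ⟨nat_lit 6324, nat_lit 6423, ⟨.ofNat (nat_lit 132611), .ofNat (nat_lit 157577), .ofNat (nat_lit 143302), .ofNat (nat_lit 168268), .ofNat (nat_lit 137182), .ofNat (nat_lit 161861), .ofNat (nat_lit 147866), .ofNat (nat_lit 172545)⟩, ⟨.ofNat (nat_lit 390784), .ofNat (nat_lit 474005), .ofNat (nat_lit 412166), .ofNat (nat_lit 495387), .ofNat (nat_lit 389952), .ofNat (nat_lit 472216), .ofNat (nat_lit 411320), .ofNat (nat_lit 493584)⟩⟩, [⟨nat_lit 0, nat_lit 100, nat_lit 100, nat_lit 40, nat_lit 328326666⟩, ⟨nat_lit 4, nat_lit 95, nat_lit 100, nat_lit 54, nat_lit 461025373⟩]⟩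
noncomputable def p028_l18 : Lf2 := ⟨nat_lit 0, nat_lit 2, [nat_lit 10, nat_lit 5, nat_lit 5, nat_lit 20], true, nat_lit 240, nat_lit 280, nat_lit 0, nat_lit 288, ⟨nat_lit 0, nat_lit 0, nat_lit 1000, nat_lit 5, nat_lit 73, nat_lit 1000, nat_lit 177, nat_lit 1000, nat_lit 41329, nat_lit 264, nat_lit 50417, nat_lit 270, nat_lit 53090461, nat_lit 0, nat_lit 0, nat_lit 3242926, false, false⟩,
 nat_lit 0, nat_lit 7592, nat_lit 0, nat_lit 0, nat_lit 3823, nat_lit 0, nat_lit 1356, nat_lit 0, nat_lit 0, nat_lit 0, nat_lit 0, nat_lit 0, nat_lit 0, nat_lit 10303361995440, nat_lit 30, nat_lit 375400, nat_lit 0, nat_lit 0, [(nat_lit 3, [(nat_lit 4, nat_lit 164), (nat_lit 5, nat_lit 836)])],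
 ⟨p028_k2, nat_lit 0, nat_lit 0, nat_lit 0, nat_lit 0, nat_lit 187172, [nat_lit 1485421440, nat_lit 1079655681, nat_lit 790171201, nat_lit 103659199], [], [nat_lit 13982510275, nat_lit 14439287681, nat_lit 13635858242, nat_lit 14087414893, nat_lit 16449863993, nat_lit 16895684805, nat_lit 15960578675, nat_lit 16402841331], nat_lit 1271250, nat_lit 1271250, nat_lit 111251, nat_lit 230001, nat_lit 1271250, nat_lit 1271250, [nat_lit 780000, nat_lit 1271250, nat_lit 1271250, nat_lit 1271250], [nat_lit 184, nat_lit 40, nat_lit 20, nat_lit 80]⟩, C1.Rw.none,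
 ⟨nat_lit 6324, nat_lit 6520, ⟨.ofNat (nat_lit 153250), .ofNat (nat_lit 195344), .ofNat (nat_lit 163949), .ofNat (nat_lit 206043), .ofNat (nat_lit 161861), .ofNat (nat_lit 202993), .ofNat (nat_lit 172545), .ofNat (nat_lit 213677)⟩, ⟨.ofNat (nat_lit 391604), .ofNat (nat_lit 475792), .ofNat (nat_lit 413002), .ofNat (nat_lit 497189), .ofNat (nat_lit 389952), .ofNat (nat_lit 472216), .ofNat (nat_lit 411320), .ofNat (nat_lit 493584)⟩⟩, [⟨nat_lit 4, nat_lit 94, nat_lit 100, nat_lit 54, nat_lit 506332380⟩]⟩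
noncomputable def p028_l19 : Lf2 := ⟨nat_lit 0, nat_lit 2, [nat_lit 10, nat_lit 5, nat_lit 5, nat_lit 20], true, nat_lit 240, nat_lit 280, nat_lit 0, nat_lit 288, ⟨nat_lit 0, nat_lit 0, nat_lit 1000, nat_lit 5, nat_lit 68, nat_lit 1000, nat_lit 177, nat_lit 1000, nat_lit 41329, nat_lit 264, nat_lit 43350, nat_lit 266, nat_lit 53376573, nat_lit 0, nat_lit 0, nat_lit 3168807, false, false⟩,
 nat_lit 0, nat_lit 754547, nat_lit 0, nat_lit 0, nat_lit 380027, nat_lit 0, nat_lit 60000, nat_lit 19957, nat_lit 0, nat_lit 0, nat_lit 0, nat_lit 0, nat_lit 0, nat_lit 400000000000000, nat_lit 0, nat_lit 1000000, nat_lit 0, nat_lit 0, [(nat_lit 3, [(nat_lit 6, nat_lit 1000)])],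
 ⟨p028_k7, nat_lit 0, nat_lit 0, nat_lit 180, nat_lit 0, nat_lit 187172, [nat_lit 400181142858, nat_lit 477707600000], [], [nat_lit 303468545786, nat_lit 312934248932, nat_lit 177791429718, nat_lit 187108531534, nat_lit 373350889844, nat_lit 380123347089, nat_lit 246115764846, nat_lit 252810113050], nat_lit 1271250, nat_lit 1271250, nat_lit 43600, nat_lit 230001, nat_lit 1271250, nat_lit 1271250, [nat_lit 1412500, nat_lit 1271250], [nat_lit 26, nat_lit 40, nat_lit 20, nat_lit 80, nat_lit 2, nat_lit 289, nat_lit 75, nat_lit 9]⟩, C1.Rw.none,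
 ⟨nat_lit 6324, nat_lit 6520, ⟨.ofNat (nat_lit 127994), .ofNat (nat_lit 195344), .ofNat (nat_lit 138693), .ofNat (nat_lit 206043), .ofNat (nat_lit 137182), .ofNat (nat_lit 202993), .ofNat (nat_lit 147866), .ofNat (nat_lit 213677)⟩, ⟨.ofNat (nat_lit 391604), .ofNat (nat_lit 475792), .ofNat (nat_lit 413002), .ofNat (nat_lit 497189), .ofNat (nat_lit 389952), .ofNat (nat_lit 472216), .ofNat (nat_lit 411320), .ofNat (nat_lit 493584)⟩⟩, [⟨nat_lit 0, nat_lit 100, nat_lit 100, nat_lit 35, nat_lit 9768902985⟩, ⟨nat_lit 0, nat_lit 100, nat_lit 100, nat_lit 40, nat_lit 10000000000⟩, ⟨nat_lit 16, nat_lit 100, nat_lit 94, nat_lit 54, nat_lit 10638297872⟩, ⟨nat_lit 16, nat_lit 100, nat_lit 89, nat_lit 61, nat_lit 11235955056⟩, ⟨nat_lit 4, nat_lit 94, nat_lit 100, nat_lit 54, nat_lit 10638297872⟩]⟩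
noncomputable def b_VL_500_500_5_30 : St := ⟨true, nat_lit 1, nat_lit 1, nat_lit 1, nat_lit 40, nat_lit 230, nat_lit 240, nat_lit 230, nat_lit 240, nat_lit 8, nat_lit 40, nat_lit 20, nat_lit 40, nat_lit 240, nat_lit 280, nat_lit 0, nat_lit 288, nat_lit 0, nat_lit 8, nat_lit 0, nat_lit 0, nat_lit 0, nat_lit 0⟩
theorem d_VL_500_500_5_30 (h : EB TB.env) : Dead b_VL_500_500_5_30 := chkB_sound0 h (T :=
(.spl (nat_lit 7) (nat_lit 600)
(.spl (nat_lit 2) (nat_lit 20)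
(.trX (nat_lit 23) (nat_lit 100) (nat_lit 99) (nat_lit 44) (nat_lit 252) (.spl (nat_lit 0) (nat_lit 235)
(.ord (.spl (nat_lit 0) (nat_lit 233)
(.ord (.leaf p028_l13))
(.leaf p028_l14)))
(.spl (nat_lit 6) (nat_lit 4)
(.spl (nat_lit 0) (nat_lit 238)
(.ord (.leaf p028_l15))
(.leaf p028_l16))
(.leaf p028_l17))))
(.leaf p028_l18))
(.leaf p028_l19))) (by decide +kernel)
noncomputable def p028_l20 : Lf2 := ⟨nat_lit 0, nat_lit 4, [nat_lit 38, nat_lit 5, nat_lit 5, nat_lit 20], true, nat_lit 240, nat_lit 260, nat_lit 0, nat_lit 252, ⟨nat_lit 0, nat_lit 0, nat_lit 1000, nat_lit 5, nat_lit 58, nat_lit 1000, nat_lit 169, nat_lit 1000, nat_lit 180507, nat_lit 319, nat_lit 32267, nat_lit 259, nat_lit 54736265, nat_lit 0, nat_lit 0, nat_lit 2914593, false, false⟩,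
 nat_lit 0, nat_lit 10519, nat_lit 0, nat_lit 0, nat_lit 5297, nat_lit 0, nat_lit 0, nat_lit 0, nat_lit 0, nat_lit 0, nat_lit 0, nat_lit 0, nat_lit 0, nat_lit 6723442184428, nat_lit 106, nat_lit 908800, nat_lit 0, nat_lit 0, [(nat_lit 3, [(nat_lit 5, nat_lit 152), (nat_lit 6, nat_lit 848)])],
 ⟨p028_k12, nat_lit 0, nat_lit 0, nat_lit 154, nat_lit 0, nat_lit 40228, [nat_lit 3241589943, nat_lit 2396800], [], [nat_lit 15458430878, nat_lit 15680731571, nat_lit 14795149328, nat_lit 15016987319, nat_lit 16614251336, nat_lit 16823348644, nat_lit 15946317647, nat_lit 16155056870], nat_lit 1271250, nat_lit 1271250, nat_lit 43600, nat_lit 111251, nat_lit 1271250, nat_lit 1271250, [nat_lit 1412500, nat_lit 1271250], [nat_lit 51, nat_lit 40, nat_lit 20, nat_lit 80, nat_lit 1, nat_lit 373, nat_lit 150, nat_lit 10]⟩, C1.Rw.none,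
 ⟨nat_lit 6422, nat_lit 6520, ⟨.ofNat (nat_lit 127994), .ofNat (nat_lit 153250), .ofNat (nat_lit 133343), .ofNat (nat_lit 158599), .ofNat (nat_lit 132611), .ofNat (nat_lit 157577), .ofNat (nat_lit 137956), .ofNat (nat_lit 162923)⟩, ⟨.ofNat (nat_lit 391604), .ofNat (nat_lit 433698), .ofNat (nat_lit 413002), .ofNat (nat_lit 455096), .ofNat (nat_lit 390784), .ofNat (nat_lit 432394), .ofNat (nat_lit 412166), .ofNat (nat_lit 453776)⟩⟩, [⟨nat_lit 0, nat_lit 100, nat_lit 100, nat_lit 35, nat_lit 386534707⟩, ⟨nat_lit 4, nat_lit 94, nat_lit 100, nat_lit 53, nat_lit 421048688⟩]⟩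
noncomputable def p028_l21 : Lf2 := ⟨nat_lit 0, nat_lit 3, [nat_lit 45, nat_lit 5, nat_lit 5, nat_lit 20], false, nat_lit 240, nat_lit 260, nat_lit 0, nat_lit 160, ⟨nat_lit 1000, nat_lit 0, nat_lit 0, nat_lit 0, nat_lit 0, nat_lit 0, nat_lit 0, nat_lit 0, nat_lit 0, nat_lit 0, nat_lit 0, nat_lit 0, nat_lit 0, nat_lit 0, nat_lit 0, nat_lit 0, false, false⟩,
 nat_lit 21289, nat_lit 2341, nat_lit 0, nat_lit 0, nat_lit 12204, nat_lit 10722, nat_lit 1384, nat_lit 0, nat_lit 0, nat_lit 2364, nat_lit 0, nat_lit 0, nat_lit 0, nat_lit 4192904116732, nat_lit 0, nat_lit 0, nat_lit 0, nat_lit 0, [],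
 ⟨p028_k13, nat_lit 0, nat_lit 0, nat_lit 155, nat_lit 0, nat_lit 88048, [nat_lit 6250000000, nat_lit 7968000000], [], [nat_lit 19414269601, nat_lit 19806162160, nat_lit 17352803338, nat_lit 17745471040, nat_lit 21637652004, nat_lit 22176366180, nat_lit 19571921345, nat_lit 19932374964], nat_lit 1271250, nat_lit 1271250, nat_lit 43600, nat_lit 111251, nat_lit 1271250, nat_lit 1271250, [nat_lit 1412500, nat_lit 1271250], [nat_lit 26, nat_lit 40, nat_lit 20, nat_lit 80, nat_lit 2, nat_lit 289, nat_lit 75, nat_lit 9]⟩, ⟨p028_k5, nat_lit 0, nat_lit 0, nat_lit 277, nat_lit 0, nat_lit 90626, [nat_lit 6250000000, nat_lit 7968000000], [], [nat_lit 22236866306, nat_lit 23313662748, nat_lit 20183361822, nat_lit 21045700788, nat_lit 15648020285, nat_lit 15781011233, nat_lit 15495188916, nat_lit 14278274292], nat_lit 1271250, nat_lit 1271250, nat_lit 43600, nat_lit 111251, nat_lit 0, nat_lit 1100001, [nat_lit 1412500, nat_lit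 1271250], [nat_lit 26, nat_lit 40, nat_lit 20, nat_lit 80, nat_lit 2, nat_lit 345, nat_lit 125, nat_lit 12]⟩,
 zbF0, [⟨nat_lit 0, nat_lit 100, nat_lit 100, nat_lit 36, nat_lit 2551713687⟩, ⟨nat_lit 4, nat_lit 95, nat_lit 100, nat_lit 54, nat_lit 1329823953⟩]⟩
noncomputable def p028_l22 : Lf2 := ⟨nat_lit 0, nat_lit 3, [nat_lit 45, nat_lit 5, nat_lit 5, nat_lit 20], true, nat_lit 240, nat_lit 260, nat_lit 160, nat_lit 252, ⟨nat_lit 0, nat_lit 0, nat_lit 1000, nat_lit 5, nat_lit 60, nat_lit 1000, nat_lit 169, nat_lit 1000, nat_lit 194447, nat_lit 323, nat_lit 33750, nat_lit 260, nat_lit 54682485, nat_lit 0, nat_lit 0, nat_lit 2936170, false, false⟩,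
 nat_lit 0, nat_lit 11465, nat_lit 0, nat_lit 0, nat_lit 5921, nat_lit 0, nat_lit 0, nat_lit 0, nat_lit 0, nat_lit 0, nat_lit 0, nat_lit 0, nat_lit 0, nat_lit 0, nat_lit 31, nat_lit 400000, nat_lit 0, nat_lit 0, [(nat_lit 3, [(nat_lit 5, nat_lit 1000)])],
 ⟨p028_k13, nat_lit 0, nat_lit 0, nat_lit 153, nat_lit 0, nat_lit 63946, [nat_lit 2190400000, nat_lit 6400000], [], [nat_lit 15661836210, nat_lit 15893677363, nat_lit 14902534969, nat_lit 15133922032, nat_lit 17256631670, nat_lit 17608909171, nat_lit 16104613738, nat_lit 16411876565], nat_lit 1271250, nat_lit 1271250, nat_lit 43600, nat_lit 111251, nat_lit 1271250, nat_lit 1271250, [nat_lit 1412500, nat_lit 1271250], [nat_lit 26, nat_lit 40, nat_lit 20, nat_lit 80, nat_lit 2, nat_lit 289, nat_lit 75, nat_lit 9]⟩, C1.Rw.none,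
 ⟨nat_lit 6324, nat_lit 6423, ⟨.ofNat (nat_lit 132611), .ofNat (nat_lit 157577), .ofNat (nat_lit 137956), .ofNat (nat_lit 162923), .ofNat (nat_lit 137182), .ofNat (nat_lit 161861), .ofNat (nat_lit 142524), .ofNat (nat_lit 167203)⟩, ⟨.ofNat (nat_lit 390784), .ofNat (nat_lit 432394), .ofNat (nat_lit 412166), .ofNat (nat_lit 453776), .ofNat (nat_lit 389952), .ofNat (nat_lit 431084), .ofNat (nat_lit 411320), .ofNat (nat_lit 452452)⟩⟩, [⟨nat_lit 0, nat_lit 100, nat_lit 100, nat_lit 35, nat_lit 589551255⟩, ⟨nat_lit 4, nat_lit 95, nat_lit 100, nat_lit 54, nat_lit 439774484⟩]⟩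
noncomputable def p028_l23 : Lf2 := ⟨nat_lit 0, nat_lit 3, [nat_lit 45, nat_lit 5, nat_lit 5, nat_lit 20], false, nat_lit 240, nat_lit 260, nat_lit 160, nat_lit 252, ⟨nat_lit 1000, nat_lit 0, nat_lit 0, nat_lit 0, nat_lit 0, nat_lit 0, nat_lit 0, nat_lit 0, nat_lit 0, nat_lit 0, nat_lit 0, nat_lit 0, nat_lit 0, nat_lit 0, nat_lit 0, nat_lit 0, false, false⟩,
 nat_lit 21009, nat_lit 0, nat_lit 0, nat_lit 0, nat_lit 10850, nat_lit 10293, nat_lit 2310, nat_lit 0, nat_lit 0, nat_lit 0, nat_lit 0, nat_lit 0, nat_lit 0, nat_lit 0, nat_lit 0, nat_lit 0, nat_lit 0, nat_lit 0, [],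
 ⟨p028_k13, nat_lit 0, nat_lit 0, nat_lit 153, nat_lit 0, nat_lit 88048, [nat_lit 6250000000, nat_lit 7968000000], [], [nat_lit 18042316116, nat_lit 18407955600, nat_lit 16930067225, nat_lit 17197483800, nat_lit 20090097647, nat_lit 20426599270, nat_lit 18875810644, nat_lit 19212858850], nat_lit 1271250, nat_lit 1271250, nat_lit 65850, nat_lit 111251, nat_lit 1271250, nat_lit 1271250, [nat_lit 1412500, nat_lit 1271250], [nat_lit 26, nat_lit 40, nat_lit 20, nat_lit 80, nat_lit 2, nat_lit 289, nat_lit 75, nat_lit 9]⟩, ⟨p028_k13, nat_lit 0, nat_lit 0, nat_lit 193, nat_lit 0, nat_lit 88048, [nat_lit 6250000000, nat_lit 7968000000], [], [nat_lit 11313864752, nat_lit 11823667186, nat_lit 10154191010, nat_lit 10663947792, nat_lit 18427903990, nat_lit 18927780345, nat_lit 17093463719, nat_lit 17479879785], nat_lit 1271250, nat_lit 1271250, nat_lit 65850, nat_lit 111251, nat_lit 1100001, nat_lit 1887750, [nat_lit 1412500,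 nat_lit 1271250], [nat_lit 26, nat_lit 40, nat_lit 20, nat_lit 80, nat_lit 2, nat_lit 373, nat_lit 150, nat_lit 12]⟩,
 zbF0, [⟨nat_lit 0, nat_lit 100, nat_lit 100, nat_lit 40, nat_lit 1024464731⟩, ⟨nat_lit 4, nat_lit 95, nat_lit 100, nat_lit 54, nat_lit 265263846⟩, ⟨nat_lit 23, nat_lit 98, nat_lit 100, nat_lit 40, nat_lit 1475421589⟩]⟩
noncomputable def p028_l24 : Lf2 := ⟨nat_lit 0, nat_lit 4, [nat_lit 38, nat_lit 5, nat_lit 5, nat_lit 20], true, nat_lit 240, nat_lit 260, nat_lit 0, nat_lit 252, ⟨nat_lit 0, nat_lit 0, nat_lit 1000, nat_lit 5, nat_lit 61, nat_lit 1000, nat_lit 169, nat_lit 1000, nat_lit 194447, nat_lit 323, nat_lit 35267, nat_lit 261, nat_lit 54624284, nat_lit 0, nat_lit 0, nat_lit 2952389, false, false⟩,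
 nat_lit 0, nat_lit 9599, nat_lit 0, nat_lit 0, nat_lit 4957, nat_lit 0, nat_lit 13, nat_lit 0, nat_lit 0, nat_lit 0, nat_lit 0, nat_lit 0, nat_lit 0, nat_lit 20131513115144, nat_lit 115, nat_lit 1000000, nat_lit 0, nat_lit 0, [(nat_lit 3, [(nat_lit 6, nat_lit 1000)])],
 ⟨p028_k14, nat_lit 0, nat_lit 0, nat_lit 158, nat_lit 0, nat_lit 48076, [nat_lit 3341142858, nat_lit 1499600000, nat_lit 23600000], [], [nat_lit 15409496060, nat_lit 15630091877, nat_lit 14675997023, nat_lit 14871934454, nat_lit 16647477455, nat_lit 16908245475, nat_lit 15888560079, nat_lit 16149318822], nat_lit 1271250, nat_lit 1271250, nat_lit 43600, nat_lit 111251, nat_lit 1271250, nat_lit 1271250, [nat_lit 1412500, nat_lit 1271250, nat_lit 1271250], [nat_lit 25, nat_lit 40, nat_lit 20, nat_lit 80, nat_lit 17, nat_lit 373, nat_lit 150, nat_lit 10]⟩, C1.Rw.none,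
 ⟨nat_lit 6324, nat_lit 6423, ⟨.ofNat (nat_lit 132611), .ofNat (nat_lit 157577), .ofNat (nat_lit 143302), .ofNat (nat_lit 168268), .ofNat (nat_lit 137182), .ofNat (nat_lit 161861), .ofNat (nat_lit 147866), .ofNat (nat_lit 172545)⟩, ⟨.ofNat (nat_lit 390784), .ofNat (nat_lit 432394), .ofNat (nat_lit 412166), .ofNat (nat_lit 453776), .ofNat (nat_lit 389952), .ofNat (nat_lit 431084), .ofNat (nat_lit 411320), .ofNat (nat_lit 452452)⟩⟩, [⟨nat_lit 0, nat_lit 100, nat_lit 100, nat_lit 40, nat_lit 424002886⟩, ⟨nat_lit 4, nat_lit 95, nat_lit 100, nat_lit 54, nat_lit 480871578⟩]⟩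
noncomputable def p028_l25 : Lf2 := ⟨nat_lit 0, nat_lit 3, [nat_lit 45, nat_lit 5, nat_lit 5, nat_lit 20], true, nat_lit 260, nat_lit 280, nat_lit 0, nat_lit 220, ⟨nat_lit 0, nat_lit 0, nat_lit 1000, nat_lit 5, nat_lit 56, nat_lit 1000, nat_lit 186, nat_lit 1000, nat_lit 41332, nat_lit 264, nat_lit 29400, nat_lit 257, nat_lit 53187303, nat_lit 0, nat_lit 0, nat_lit 3081219, false, false⟩,
 nat_lit 0, nat_lit 10959, nat_lit 0, nat_lit 2389, nat_lit 5519, nat_lit 0, nat_lit 0, nat_lit 0, nat_lit 0, nat_lit 0, nat_lit 0, nat_lit 0, nat_lit 0, nat_lit 11418782543030, nat_lit 31, nat_lit 400000, nat_lit 0, nat_lit 0, [(nat_lit 3, [(nat_lit 5, nat_lit 1000)])],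
 ⟨p028_k5, nat_lit 0, nat_lit 0, nat_lit 142, nat_lit 0, nat_lit 21790, [nat_lit 2190400000, nat_lit 6400000], [], [nat_lit 16676926706, nat_lit 16840513068, nat_lit 16102992942, nat_lit 16266598995, nat_lit 18566562083, nat_lit 18756019854, nat_lit 17825705204, nat_lit 18015639080], nat_lit 1271250, nat_lit 1271250, nat_lit 43600, nat_lit 88400, nat_lit 1271250, nat_lit 1271250, [nat_lit 1412500, nat_lit 1271250], [nat_lit 26, nat_lit 40, nat_lit 20, nat_lit 80, nat_lit 2, nat_lit 289, nat_lit 75, nat_lit 9]⟩, C1.Rw.none,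
 ⟨nat_lit 6461, nat_lit 6520, ⟨.ofNat (nat_lit 127994), .ofNat (nat_lit 144831), .ofNat (nat_lit 131203), .ofNat (nat_lit 148041), .ofNat (nat_lit 130770), .ofNat (nat_lit 147491), .ofNat (nat_lit 133978), .ofNat (nat_lit 150699)⟩, ⟨.ofNat (nat_lit 433698), .ofNat (nat_lit 475792), .ofNat (nat_lit 455096), .ofNat (nat_lit 497190), .ofNat (nat_lit 432916), .ofNat (nat_lit 474720), .ofNat (nat_lit 454304), .ofNat (nat_lit 496108)⟩⟩, [⟨nat_lit 0, nat_lit 100, nat_lit 100, nat_lit 33, nat_lit 466846971⟩, ⟨nat_lit 4, nat_lit 93, nat_lit 100, nat_lit 53, nat_lit 834018173⟩]⟩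
noncomputable def p028_l26 : Lf2 := ⟨nat_lit 0, nat_lit 3, [nat_lit 45, nat_lit 5, nat_lit 5, nat_lit 20], false, nat_lit 260, nat_lit 280, nat_lit 0, nat_lit 220, ⟨nat_lit 140, nat_lit 0, nat_lit 860, nat_lit 5, nat_lit 57, nat_lit 860, nat_lit 186, nat_lit 860, nat_lit 43437, nat_lit 265, nat_lit 30817, nat_lit 258, nat_lit 53151089, nat_lit 0, nat_lit 0, nat_lit 3097489, false, false⟩,
 nat_lit 3601, nat_lit 8972, nat_lit 0, nat_lit 3237, nat_lit 6428, nat_lit 1813, nat_lit 0, nat_lit 0, nat_lit 0, nat_lit 96, nat_lit 0, nat_lit 0, nat_lit 0, nat_lit 18076953998337, nat_lit 0, nat_lit 344000, nat_lit 0, nat_lit 0, [(nat_lit 3, [(nat_lit 5, nat_lit 860)])],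
 ⟨p028_k15, nat_lit 0, nat_lit 0, nat_lit 142, nat_lit 0, nat_lit 39828, [nat_lit 2225544001, nat_lit 481184000], [], [nat_lit 17502913489, nat_lit 17610102640, nat_lit 16835657927, nat_lit 16925242439, nat_lit 19565626631, nat_lit 19701455296, nat_lit 18689859688, nat_lit 18826076731], nat_lit 1271250, nat_lit 1271250, nat_lit 43600, nat_lit 88400, nat_lit 1271250, nat_lit 1271250, [nat_lit 1412500, nat_lit 1271250], [nat_lit 26, nat_lit 40, nat_lit 20, nat_lit 80, nat_lit 2, nat_lit 289, nat_lit 75, nat_lit 9]⟩, ⟨p028_k5, nat_lit 0, nat_lit 0, nat_lit 274, nat_lit 0, nat_lit 40527, [nat_lit 875000000, nat_lit 1115520000], [], [nat_lit 3537823181, nat_lit 3645421485, nat_lit 3279155395, nat_lit 3365205218, nat_lit 2581125263, nat_lit 2642060662, nat_lit 2484095472, nat_lit 2436442773], nat_lit 1271250, nat_lit 1271250, nat_lit 43600, nat_lit 88400, nat_lit 0, nat_lit 1553750, [nat_lit 1412500, nat_lit 1271250],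 [nat_lit 26, nat_lit 40, nat_lit 20, nat_lit 80, nat_lit 2, nat_lit 345, nat_lit 125, nat_lit 12]⟩,
 ⟨nat_lit 6422, nat_lit 6462, ⟨.ofNat (nat_lit 130770), .ofNat (nat_lit 147491), .ofNat (nat_lit 136117), .ofNat (nat_lit 152838), .ofNat (nat_lit 132611), .ofNat (nat_lit 149255), .ofNat (nat_lit 137956), .ofNat (nat_lit 154601)⟩, ⟨.ofNat (nat_lit 432916), .ofNat (nat_lit 474720), .ofNat (nat_lit 454304), .ofNat (nat_lit 496108), .ofNat (nat_lit 432394), .ofNat (nat_lit 474005), .ofNat (nat_lit 453776), .ofNat (nat_lit 495387)⟩⟩, [⟨nat_lit 0, nat_lit 100, nat_lit 100, nat_lit 35, nat_lit 764412513⟩, ⟨nat_lit 4, nat_lit 94, nat_lit 100, nat_lit 53, nat_lit 991430341⟩]⟩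
noncomputable def p028_l27 : Lf2 := ⟨nat_lit 0, nat_lit 3, [nat_lit 45, nat_lit 5, nat_lit 5, nat_lit 20], false, nat_lit 260, nat_lit 280, nat_lit 0, nat_lit 220, ⟨nat_lit 140, nat_lit 0, nat_lit 860, nat_lit 5, nat_lit 58, nat_lit 860, nat_lit 185, nat_lit 860, nat_lit 41667, nat_lit 265, nat_lit 32267, nat_lit 259, nat_lit 53130516, nat_lit 0, nat_lit 0, nat_lit 3111179, false, false⟩,
 nat_lit 3473, nat_lit 8975, nat_lit 0, nat_lit 3260, nat_lit 6428, nat_lit 1748, nat_lit 0, nat_lit 0, nat_lit 0, nat_lit 204, nat_lit 0, nat_lit 0, nat_lit 0, nat_lit 0, nat_lit 0, nat_lit 344000, nat_lit 0, nat_lit 0, [(nat_lit 3, [(nat_lit 5, nat_lit 860)])],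
 ⟨p028_k13, nat_lit 0, nat_lit 0, nat_lit 143, nat_lit 0, nat_lit 63946, [nat_lit 2225544001, nat_lit 481184000], [], [nat_lit 17610102640, nat_lit 17977475255, nat_lit 16925242439, nat_lit 17185172261, nat_lit 19701455296, nat_lit 20041026957, nat_lit 18826076731, nat_lit 19166619338], nat_lit 1271250, nat_lit 1271250, nat_lit 43600, nat_lit 88400, nat_lit 1271250, nat_lit 1271250, [nat_lit 1412500, nat_lit 1271250], [nat_lit 26, nat_lit 40, nat_lit 20, nat_lit 80, nat_lit 2, nat_lit 289, nat_lit 75, nat_lit 9]⟩, ⟨p028_k5, nat_lit 0, nat_lit 0, nat_lit 275, nat_lit 0, nat_lit 65819, [nat_lit 875000000, nat_lit 1115520000], [], [nat_lit 3432104301, nat_lit 3544851002, nat_lit 3129703401, nat_lit 3213573891, nat_lit 2578527320, nat_lit 2542104031, nat_lit 2563350664, nat_lit 2344328386], nat_lit 1271250, nat_lit 1271250, nat_lit 43600, nat_lit 88400, nat_lit 0, nat_lit 1553750, [nat_lit 1412500, nat_lit 1271250],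 [nat_lit 26, nat_lit 40, nat_lit 20, nat_lit 80, nat_lit 2, nat_lit 345, nat_lit 125, nat_lit 12]⟩,
 ⟨nat_lit 6324, nat_lit 6423, ⟨.ofNat (nat_lit 132611), .ofNat (nat_lit 149255), .ofNat (nat_lit 137956), .ofNat (nat_lit 154601), .ofNat (nat_lit 137182), .ofNat (nat_lit 153635), .ofNat (nat_lit 142524), .ofNat (nat_lit 158977)⟩, ⟨.ofNat (nat_lit 432394), .ofNat (nat_lit 474005), .ofNat (nat_lit 453776), .ofNat (nat_lit 495387), .ofNat (nat_lit 431084), .ofNat (nat_lit 472216), .ofNat (nat_lit 452452), .ofNat (nat_lit 493584)⟩⟩, [⟨nat_lit 0, nat_lit 100, nat_lit 100, nat_lit 35, nat_lit 760257101⟩, ⟨nat_lit 4, nat_lit 95, nat_lit 100, nat_lit 54, nat_lit 973716316⟩]⟩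
noncomputable def p028_l28 : Lf2 := ⟨nat_lit 0, nat_lit 3, [nat_lit 45, nat_lit 5, nat_lit 5, nat_lit 20], false, nat_lit 260, nat_lit 280, nat_lit 0, nat_lit 80, ⟨nat_lit 1000, nat_lit 0, nat_lit 0, nat_lit 0, nat_lit 0, nat_lit 0, nat_lit 0, nat_lit 0, nat_lit 0, nat_lit 0, nat_lit 0, nat_lit 0, nat_lit 0, nat_lit 0, nat_lit 0, nat_lit 0, false, false⟩,
 nat_lit 20153, nat_lit 0, nat_lit 0, nat_lit 10127, nat_lit 10408, nat_lit 10408, nat_lit 2683, nat_lit 0, nat_lit 0, nat_lit 2582, nat_lit 0, nat_lit 0, nat_lit 0, nat_lit 21998962360825, nat_lit 0, nat_lit 0, nat_lit 0, nat_lit 0, [],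
 ⟨p028_k13, nat_lit 0, nat_lit 0, nat_lit 143, nat_lit 0, nat_lit 88048, [nat_lit 6250000000, nat_lit 7968000000], [], [nat_lit 19710689935, nat_lit 20137926946, nat_lit 19130886393, nat_lit 19459281789, nat_lit 22554042361, nat_lit 22998732900, nat_lit 21820118495, nat_lit 22265682954], nat_lit 1271250, nat_lit 1271250, nat_lit 65850, nat_lit 88400, nat_lit 1271250, nat_lit 1271250, [nat_lit 1412500, nat_lit 1271250], [nat_lit 26, nat_lit 40, nat_lit 20, nat_lit 80, nat_lit 2, nat_lit 289, nat_lit 75, nat_lit 9]⟩, ⟨p028_k13, nat_lit 0, nat_lit 0, nat_lit 273, nat_lit 0, nat_lit 88048, [nat_lit 6250000000, nat_lit 7968000000], [], [nat_lit 21204822993, nat_lit 21825009338, nat_lit 20624117911, nat_lit 21031681421, nat_lit 14660648488, nat_lit 15048272641, nat_lit 14157641805, nat_lit 14545076865], nat_lit 1271250, nat_lit 1271250, nat_lit 65850, nat_lit 88400, nat_lit 0, nat_lit 490000, [nat_lit 1412500, nat_lit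 1271250], [nat_lit 26, nat_lit 40, nat_lit 20, nat_lit 80, nat_lit 2, nat_lit 317, nat_lit 100, nat_lit 11]⟩,
 zbF0, [⟨nat_lit 0, nat_lit 100, nat_lit 100, nat_lit 37, nat_lit 2278161910⟩, ⟨nat_lit 4, nat_lit 95, nat_lit 100, nat_lit 54, nat_lit 1767350803⟩]⟩
noncomputable def p028_l29 : Lf2 := ⟨nat_lit 0, nat_lit 3, [nat_lit 45, nat_lit 5, nat_lit 5, nat_lit 20], false, nat_lit 260, nat_lit 280, nat_lit 80, nat_lit 220, ⟨nat_lit 1000, nat_lit 0, nat_lit 0, nat_lit 0, nat_lit 0, nat_lit 0, nat_lit 0, nat_lit 0, nat_lit 0, nat_lit 0, nat_lit 0, nat_lit 0, nat_lit 0, nat_lit 0, nat_lit 0, nat_lit 0, false, false⟩,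
 nat_lit 21367, nat_lit 0, nat_lit 0, nat_lit 0, nat_lit 10370, nat_lit 11035, nat_lit 2653, nat_lit 0, nat_lit 0, nat_lit 0, nat_lit 0, nat_lit 0, nat_lit 0, nat_lit 17137102601001, nat_lit 0, nat_lit 0, nat_lit 0, nat_lit 0, [],
 ⟨p028_k13, nat_lit 0, nat_lit 0, nat_lit 143, nat_lit 0, nat_lit 88048, [nat_lit 6250000000, nat_lit 7968000000], [], [nat_lit 19764966195, nat_lit 20113129735, nat_lit 19186691250, nat_lit 19515188132, nat_lit 22522627663, nat_lit 22966319188, nat_lit 21791532166, nat_lit 22236093904], nat_lit 1271250, nat_lit 1271250, nat_lit 65850, nat_lit 88400, nat_lit 1271250, nat_lit 1271250, [nat_lit 1412500, nat_lit 1271250], [nat_lit 26, nat_lit 40, nat_lit 20, nat_lit 80, nat_lit 2, nat_lit 289, nat_lit 75, nat_lit 9]⟩, ⟨p028_k13, nat_lit 0, nat_lit 0, nat_lit 233, nat_lit 0, nat_lit 88048, [nat_lit 6250000000, nat_lit 7968000000], [], [nat_lit 10021636213, nat_lit 10629872036, nat_lit 9362315493,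 nat_lit 9970687209, nat_lit 15140306217, nat_lit 15724401007, nat_lit 14389152331, nat_lit 14940140961], nat_lit 1271250, nat_lit 1271250, nat_lit 65850, nat_lit 88400, nat_lit 490000, nat_lit 1583750, [nat_lit 1412500, nat_lit 1271250], [nat_lit 26, nat_lit 40, nat_lit 20, nat_lit 80, nat_lit 2, nat_lit 345, nat_lit 125, nat_lit 12]⟩,
 zbF0, [⟨nat_lit 0, nat_lit 100, nat_lit 100, nat_lit 37, nat_lit 1553331513⟩, ⟨nat_lit 4, nat_lit 95, nat_lit 100, nat_lit 54, nat_lit 1235476618⟩, ⟨nat_lit 23, nat_lit 94, nat_lit 100, nat_lit 37, nat_lit 1029692031⟩]⟩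
noncomputable def p028_l30 : Lf2 := ⟨nat_lit 0, nat_lit 3, [nat_lit 45, nat_lit 5, nat_lit 5, nat_lit 20], true, nat_lit 260, nat_lit 280, nat_lit 0, nat_lit 232, ⟨nat_lit 0, nat_lit 0, nat_lit 1000, nat_lit 5, nat_lit 62, nat_lit 1000, nat_lit 186, nat_lit 1000, nat_lit 41329, nat_lit 264, nat_lit 36817, nat_lit 262, nat_lit 52885559, nat_lit 0, nat_lit 0, nat_lit 3175544, false, false⟩,
 nat_lit 0, nat_lit 11679, nat_lit 0, nat_lit 1951, nat_lit 5881, nat_lit 0, nat_lit 0, nat_lit 0, nat_lit 0, nat_lit 0, nat_lit 0, nat_lit 0, nat_lit 0, nat_lit 0, nat_lit 31, nat_lit 400000, nat_lit 0, nat_lit 0, [(nat_lit 3, [(nat_lit 5, nat_lit 1000)])],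
 ⟨p028_k5, nat_lit 0, nat_lit 0, nat_lit 141, nat_lit 0, nat_lit 65819, [nat_lit 2190400000, nat_lit 6400000], [], [nat_lit 16201379783, nat_lit 16787760970, nat_lit 15948843735, nat_lit 16391725965, nat_lit 18088475357, nat_lit 18740692756, nat_lit 17691067636, nat_lit 18344149206], nat_lit 1271250, nat_lit 1271250, nat_lit 88400, nat_lit 111251, nat_lit 1271250, nat_lit 1271250, [nat_lit 1412500, nat_lit 1271250], [nat_lit 26, nat_lit 40, nat_lit 20, nat_lit 80, nat_lit 2, nat_lit 289, nat_lit 75, nat_lit 9]⟩, C1.Rw.none,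
 ⟨nat_lit 6324, nat_lit 6520, ⟨.ofNat (nat_lit 144831), .ofNat (nat_lit 153250), .ofNat (nat_lit 150181), .ofNat (nat_lit 158599), .ofNat (nat_lit 153635), .ofNat (nat_lit 161861), .ofNat (nat_lit 158977), .ofNat (nat_lit 167203)⟩, ⟨.ofNat (nat_lit 433698), .ofNat (nat_lit 475792), .ofNat (nat_lit 455096), .ofNat (nat_lit 497189), .ofNat (nat_lit 431084), .ofNat (nat_lit 472216), .ofNat (nat_lit 452452), .ofNat (nat_lit 493584)⟩⟩, [⟨nat_lit 4, nat_lit 94, nat_lit 100, nat_lit 54, nat_lit 844051375⟩]⟩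
noncomputable def p028_l31 : Lf2 := ⟨nat_lit 0, nat_lit 3, [nat_lit 45, nat_lit 5, nat_lit 5, nat_lit 20], false, nat_lit 260, nat_lit 280, nat_lit 0, nat_lit 232, ⟨nat_lit 681, nat_lit 0, nat_lit 319, nat_lit 5, nat_lit 65, nat_lit 319, nat_lit 185, nat_lit 319, nat_lit 41667, nat_lit 265, nat_lit 40017, nat_lit 264, nat_lit 52778075, nat_lit 0, nat_lit 0, nat_lit 3210318, false, false⟩,
 nat_lit 17117, nat_lit 0, nat_lit 0, nat_lit 1088, nat_lit 8840, nat_lit 8840, nat_lit 1249, nat_lit 0, nat_lit 0, nat_lit 1350, nat_lit 0, nat_lit 0, nat_lit 0, nat_lit 0, nat_lit 0, nat_lit 127600, nat_lit 0, nat_lit 0, [(nat_lit 3, [(nat_lit 5, nat_lit 319)])],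
 ⟨p028_k13, nat_lit 0, nat_lit 0, nat_lit 140, nat_lit 0, nat_lit 78383, [nat_lit 4757207600, nat_lit 5190913600], [], [nat_lit 18963384231, nat_lit 19263615024, nat_lit 18559085270, nat_lit 18784027560, nat_lit 20749456988, nat_lit 21044745329, nat_lit 20261939310, nat_lit 20539982080], nat_lit 1271250, nat_lit 1271250, nat_lit 88400, nat_lit 111251, nat_lit 1271250, nat_lit 1271250, [nat_lit 1412500, nat_lit 1271250], [nat_lit 26, nat_lit 40, nat_lit 20, nat_lit 80, nat_lit 2, nat_lit 289, nat_lit 75, nat_lit 9]⟩, ⟨p028_k13, nat_lit 0, nat_lit 0, nat_lit 270, nat_lit 0, nat_lit 78383, [nat_lit 4256250000, nat_lit 5426208000], [], [nat_lit 16074150554, nat_lit 16414979115, nat_lit 15228755323, nat_lit 15570650605, nat_lit 11475586878, nat_lit 11241003014, nat_lit 11457570840, nat_lit 10790063501], nat_lit 1271250, nat_lit 1271250, nat_lit 88400, nat_lit 111251, nat_lit 0, nat_lit 1638500, [nat_lit 1412500, nat_lit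 1271250], [nat_lit 26, nat_lit 40, nat_lit 20, nat_lit 80, nat_lit 2, nat_lit 345, nat_lit 125, nat_lit 12]⟩,
 ⟨nat_lit 6324, nat_lit 6423, ⟨.ofNat (nat_lit 154601), .ofNat (nat_lit 162923), .ofNat (nat_lit 157808), .ofNat (nat_lit 166130), .ofNat (nat_lit 158977), .ofNat (nat_lit 167203), .ofNat (nat_lit 162182), .ofNat (nat_lit 170408)⟩, ⟨.ofNat (nat_lit 432394), .ofNat (nat_lit 474005), .ofNat (nat_lit 453776), .ofNat (nat_lit 495387), .ofNat (nat_lit 431084), .ofNat (nat_lit 472216), .ofNat (nat_lit 452452), .ofNat (nat_lit 493584)⟩⟩, [⟨nat_lit 4, nat_lit 95, nat_lit 100, nat_lit 54, nat_lit 1108130325⟩]⟩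
noncomputable def p028_l32 : Lf2 := ⟨nat_lit 0, nat_lit 3, [nat_lit 45, nat_lit 5, nat_lit 5, nat_lit 20], false, nat_lit 260, nat_lit 280, nat_lit 0, nat_lit 232, ⟨nat_lit 673, nat_lit 0, nat_lit 327, nat_lit 5, nat_lit 67, nat_lit 327, nat_lit 185, nat_lit 327, nat_lit 43602, nat_lit 266, nat_lit 41667, nat_lit 265, nat_lit 52710262, nat_lit 0, nat_lit 0, nat_lit 3231695, false, false⟩,
 nat_lit 16649, nat_lit 0, nat_lit 0, nat_lit 471, nat_lit 8727, nat_lit 8655, nat_lit 1169, nat_lit 0, nat_lit 0, nat_lit 1264, nat_lit 0, nat_lit 0, nat_lit 0, nat_lit 9966763958536, nat_lit 0, nat_lit 130800, nat_lit 0, nat_lit 0, [(nat_lit 3, [(nat_lit 5, nat_lit 327)])],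
 ⟨p028_k16, nat_lit 0, nat_lit 0, nat_lit 139, nat_lit 0, nat_lit 86561, [nat_lit 4719770801, nat_lit 5121268800], [], [nat_lit 19119955159, nat_lit 19209471681, nat_lit 18721412273, nat_lit 18810920109, nat_lit 20847434379, nat_lit 20957881105, nat_lit 20366862100, nat_lit 20477404744], nat_lit 1271250, nat_lit 1271250, nat_lit 88400, nat_lit 111251, nat_lit 1271250, nat_lit 1271250, [nat_lit 1412500, nat_lit 1271250], [nat_lit 26, nat_lit 40, nat_lit 20, nat_lit 80, nat_lit 2, nat_lit 289, nat_lit 75, nat_lit 9]⟩, ⟨p028_k16, nat_lit 0, nat_lit 0, nat_lit 269, nat_lit 0, nat_lit 86561, [nat_lit 4206250000, nat_lit 5362464000], [], [nat_lit 16110159420, nat_lit 16333149978, nat_lit 15283697366, nat_lit 15507384036, nat_lit 11099525730, nat_lit 11211700423, nat_lit 10776586080, nat_lit 10722249845], nat_lit 1271250, nat_lit 1271250, nat_lit 88400, nat_lit 111251, nat_lit 0, nat_lit 1638500, [nat_lit 1412500, nat_lit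 1271250], [nat_lit 26, nat_lit 40, nat_lit 20, nat_lit 80, nat_lit 2, nat_lit 345, nat_lit 125, nat_lit 12]⟩,
 ⟨nat_lit 6324, nat_lit 6364, ⟨.ofNat (nat_lit 160437), .ofNat (nat_lit 168702), .ofNat (nat_lit 162575), .ofNat (nat_lit 170839), .ofNat (nat_lit 162182), .ofNat (nat_lit 170408), .ofNat (nat_lit 164319), .ofNat (nat_lit 172545)⟩, ⟨.ofNat (nat_lit 431609), .ofNat (nat_lit 472932), .ofNat (nat_lit 452982), .ofNat (nat_lit 494305), .ofNat (nat_lit 431084), .ofNat (nat_lit 472216), .ofNat (nat_lit 452452), .ofNat (nat_lit 493584)⟩⟩, [⟨nat_lit 4, nat_lit 95, nat_lit 100, nat_lit 54, nat_lit 1088041142⟩]⟩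
noncomputable def p028_l33 : Lf2 := ⟨nat_lit 0, nat_lit 4, [nat_lit 38, nat_lit 5, nat_lit 5, nat_lit 20], true, nat_lit 260, nat_lit 280, nat_lit 0, nat_lit 232, ⟨nat_lit 0, nat_lit 0, nat_lit 1000, nat_lit 5, nat_lit 59, nat_lit 1000, nat_lit 186, nat_lit 1000, nat_lit 41329, nat_lit 264, nat_lit 32267, nat_lit 259, nat_lit 53060071, nat_lit 0, nat_lit 0, nat_lit 3126071, false, false⟩,
 nat_lit 0, nat_lit 9924, nat_lit 0, nat_lit 312139, nat_lit 4998, nat_lit 0, nat_lit 0, nat_lit 0, nat_lit 0, nat_lit 0, nat_lit 0, nat_lit 0, nat_lit 0, nat_lit 0, nat_lit 110, nat_lit 951400, nat_lit 0, nat_lit 0, [(nat_lit 3, [(nat_lit 5, nat_lit 81), (nat_lit 6, nat_lit 919)])],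
 ⟨p028_k17, nat_lit 0, nat_lit 0, nat_lit 158, nat_lit 0, nat_lit 24617, [nat_lit 3284012686, nat_lit 1421946800, nat_lit 6590400], [], [nat_lit 16522698202, nat_lit 16938085028, nat_lit 15753048732, nat_lit 16169050382, nat_lit 18110717718, nat_lit 18714951349, nat_lit 17115920288, nat_lit 17722229348], nat_lit 1271250, nat_lit 1271250, nat_lit 43600, nat_lit 111251, nat_lit 1271250, nat_lit 1271250, [nat_lit 1412500, nat_lit 1271250, nat_lit 1271250], [nat_lit 25, nat_lit 40, nat_lit 20, nat_lit 80, nat_lit 17, nat_lit 373, nat_lit 150, nat_lit 10]⟩, C1.Rw.none,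
 ⟨nat_lit 6324, nat_lit 6520, ⟨.ofNat (nat_lit 127994), .ofNat (nat_lit 153250), .ofNat (nat_lit 133343), .ofNat (nat_lit 158599), .ofNat (nat_lit 137182), .ofNat (nat_lit 161861), .ofNat (nat_lit 142524), .ofNat (nat_lit 167203)⟩, ⟨.ofNat (nat_lit 433698), .ofNat (nat_lit 475792), .ofNat (nat_lit 455096), .ofNat (nat_lit 497189), .ofNat (nat_lit 431084), .ofNat (nat_lit 472216), .ofNat (nat_lit 452452), .ofNat (nat_lit 493584)⟩⟩, [⟨nat_lit 0, nat_lit 100, nat_lit 100, nat_lit 37, nat_lit 426339208⟩, ⟨nat_lit 16, nat_lit 100, nat_lit 94, nat_lit 54, nat_lit 10638297872⟩, ⟨nat_lit 4, nat_lit 94, nat_lit 100, nat_lit 54, nat_lit 10638297872⟩]⟩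
noncomputable def p028_l34 : Lf2 := ⟨nat_lit 0, nat_lit 4, [nat_lit 38, nat_lit 5, nat_lit 5, nat_lit 20], true, nat_lit 260, nat_lit 280, nat_lit 0, nat_lit 232, ⟨nat_lit 0, nat_lit 0, nat_lit 1000, nat_lit 5, nat_lit 63, nat_lit 1000, nat_lit 185, nat_lit 1000, nat_lit 41667, nat_lit 265, nat_lit 36817, nat_lit 262, nat_lit 52873224, nat_lit 0, nat_lit 0, nat_lit 3182043, false, false⟩,
 nat_lit 0, nat_lit 9806, nat_lit 0, nat_lit 2884, nat_lit 5064, nat_lit 0, nat_lit 0, nat_lit 0, nat_lit 0, nat_lit 0, nat_lit 0, nat_lit 0, nat_lit 0, nat_lit 14320303759883, nat_lit 113, nat_lit 979600, nat_lit 0, nat_lit 0, [(nat_lit 3, [(nat_lit 5, nat_lit 34), (nat_lit 6, nat_lit 966)])],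
 ⟨p028_k14, nat_lit 0, nat_lit 0, nat_lit 153, nat_lit 0, nat_lit 28434, [nat_lit 3319137600, nat_lit 1469375201, nat_lit 19225600], [], [nat_lit 16395046094, nat_lit 16520598366, nat_lit 15874203712, nat_lit 16001715946, nat_lit 18136143667, nat_lit 18318662375, nat_lit 17463812324, nat_lit 17646753848], nat_lit 1271250, nat_lit 1271250, nat_lit 65850, nat_lit 111251, nat_lit 1271250, nat_lit 1271250, [nat_lit 1412500, nat_lit 1271250, nat_lit 1271250], [nat_lit 25, nat_lit 40, nat_lit 20, nat_lit 80, nat_lit 17, nat_lit 373, nat_lit 150, nat_lit 10]⟩, C1.Rw.none,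
 ⟨nat_lit 6363, nat_lit 6423, ⟨.ofNat (nat_lit 146279), .ofNat (nat_lit 162923), .ofNat (nat_lit 149486), .ofNat (nat_lit 166130), .ofNat (nat_lit 148967), .ofNat (nat_lit 165496), .ofNat (nat_lit 152173), .ofNat (nat_lit 168702)⟩, ⟨.ofNat (nat_lit 432394), .ofNat (nat_lit 474005), .ofNat (nat_lit 453776), .ofNat (nat_lit 495387), .ofNat (nat_lit 431609), .ofNat (nat_lit 472932), .ofNat (nat_lit 452982), .ofNat (nat_lit 494305)⟩⟩, [⟨nat_lit 0, nat_lit 100, nat_lit 100, nat_lit 38, nat_lit 433349638⟩, ⟨nat_lit 4, nat_lit 95, nat_lit 100, nat_lit 54, nat_lit 770344493⟩]⟩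
noncomputable def p028_l35 : Lf2 := ⟨nat_lit 0, nat_lit 4, [nat_lit 38, nat_lit 5, nat_lit 5, nat_lit 20], true, nat_lit 260, nat_lit 280, nat_lit 0, nat_lit 232, ⟨nat_lit 0, nat_lit 0, nat_lit 1000, nat_lit 5, nat_lit 64, nat_lit 1000, nat_lit 185, nat_lit 1000, nat_lit 43602, nat_lit 266, nat_lit 38400, nat_lit 263, nat_lit 52849122, nat_lit 0, nat_lit 0, nat_lit 3192764, false, false⟩,
 nat_lit 0, nat_lit 9655, nat_lit 0, nat_lit 2830, nat_lit 5061, nat_lit 0, nat_lit 0, nat_lit 0, nat_lit 0, nat_lit 0, nat_lit 0, nat_lit 0, nat_lit 0, nat_lit 24519340808756, nat_lit 112, nat_lit 971200, nat_lit 0, nat_lit 0, [(nat_lit 3, [(nat_lit 5, nat_lit 48), (nat_lit 6, nat_lit 952)])],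
 ⟨p028_k18, nat_lit 0, nat_lit 0, nat_lit 157, nat_lit 0, nat_lit 37632, [nat_lit 3306547200, nat_lit 1452694400, nat_lit 12483200], [], [nat_lit 16541804911, nat_lit 16583524628, nat_lit 16021440213, nat_lit 16063437523, nat_lit 18316134946, nat_lit 18376958741, nat_lit 17644672652, nat_lit 17705637269], nat_lit 1271250, nat_lit 1271250, nat_lit 65850, nat_lit 111251, nat_lit 1271250, nat_lit 1271250, [nat_lit 1412500, nat_lit 1271250, nat_lit 1271250], [nat_lit 25, nat_lit 40, nat_lit 20, nat_lit 80, nat_lit 17, nat_lit 373, nat_lit 150, nat_lit 10]⟩, C1.Rw.none,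
 ⟨nat_lit 6344, nat_lit 6364, ⟨.ofNat (nat_lit 148967), .ofNat (nat_lit 165496), .ofNat (nat_lit 153242), .ofNat (nat_lit 169771), .ofNat (nat_lit 149860), .ofNat (nat_lit 166350), .ofNat (nat_lit 154134), .ofNat (nat_lit 170625)⟩, ⟨.ofNat (nat_lit 431609), .ofNat (nat_lit 472932), .ofNat (nat_lit 452982), .ofNat (nat_lit 494305), .ofNat (nat_lit 431347), .ofNat (nat_lit 472574), .ofNat (nat_lit 452717), .ofNat (nat_lit 493944)⟩⟩, [⟨nat_lit 0, nat_lit 100, nat_lit 100, nat_lit 39, nat_lit 434531567⟩, ⟨nat_lit 4, nat_lit 95, nat_lit 100, nat_lit 54, nat_lit 768329010⟩]⟩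
noncomputable def p028_l36 : Lf2 := ⟨nat_lit 0, nat_lit 4, [nat_lit 38, nat_lit 5, nat_lit 5, nat_lit 20], true, nat_lit 260, nat_lit 280, nat_lit 0, nat_lit 232, ⟨nat_lit 0, nat_lit 0, nat_lit 1000, nat_lit 5, nat_lit 64, nat_lit 1000, nat_lit 185, nat_lit 1000, nat_lit 47581, nat_lit 267, nat_lit 38400, nat_lit 263, nat_lit 52854265, nat_lit 0, nat_lit 0, nat_lit 3193347, false, false⟩,
 nat_lit 0, nat_lit 9608, nat_lit 0, nat_lit 3073, nat_lit 5061, nat_lit 0, nat_lit 0, nat_lit 0, nat_lit 0, nat_lit 0, nat_lit 0, nat_lit 0, nat_lit 0, nat_lit 0, nat_lit 112, nat_lit 971200, nat_lit 0, nat_lit 0, [(nat_lit 3, [(nat_lit 5, nat_lit 48), (nat_lit 6, nat_lit 952)])],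
 ⟨p028_k19, nat_lit 0, nat_lit 0, nat_lit 158, nat_lit 0, nat_lit 37448, [nat_lit 3306547200, nat_lit 1452694400, nat_lit 12483200], [], [nat_lit 16583524628, nat_lit 16648698251, nat_lit 16063437523, nat_lit 16116030972, nat_lit 18376958741, nat_lit 18437782537, nat_lit 17705637269, nat_lit 17766601886], nat_lit 1271250, nat_lit 1271250, nat_lit 65850, nat_lit 111251, nat_lit 1271250, nat_lit 1271250, [nat_lit 1412500, nat_lit 1271250, nat_lit 1271250], [nat_lit 25, nat_lit 40, nat_lit 20, nat_lit 80, nat_lit 17, nat_lit 373, nat_lit 150, nat_lit 10]⟩, C1.Rw.none,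
 ⟨nat_lit 6324, nat_lit 6345, ⟨.ofNat (nat_lit 149860), .ofNat (nat_lit 166350), .ofNat (nat_lit 153065), .ofNat (nat_lit 169556), .ofNat (nat_lit 150750), .ofNat (nat_lit 167203), .ofNat (nat_lit 153956), .ofNat (nat_lit 170408)⟩, ⟨.ofNat (nat_lit 431347), .ofNat (nat_lit 472574), .ofNat (nat_lit 452717), .ofNat (nat_lit 493944), .ofNat (nat_lit 431084), .ofNat (nat_lit 472216), .ofNat (nat_lit 452452), .ofNat (nat_lit 493584)⟩⟩, [⟨nat_lit 0, nat_lit 100, nat_lit 100, nat_lit 39, nat_lit 434531567⟩, ⟨nat_lit 4, nat_lit 96, nat_lit 100, nat_lit 54, nat_lit 767565547⟩]⟩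
noncomputable def p028_l37 : Lf2 := ⟨nat_lit 0, nat_lit 4, [nat_lit 38, nat_lit 5, nat_lit 5, nat_lit 20], false, nat_lit 260, nat_lit 280, nat_lit 0, nat_lit 80, ⟨nat_lit 1000, nat_lit 0, nat_lit 0, nat_lit 0, nat_lit 0, nat_lit 0, nat_lit 0, nat_lit 0, nat_lit 0, nat_lit 0, nat_lit 0, nat_lit 0, nat_lit 0, nat_lit 0, nat_lit 0, nat_lit 0, false, false⟩,
 nat_lit 18534, nat_lit 1188, nat_lit 0, nat_lit 24148, nat_lit 10389, nat_lit 9715, nat_lit 2875, nat_lit 0, nat_lit 0, nat_lit 3653, nat_lit 0, nat_lit 0, nat_lit 0, nat_lit 26648508622256, nat_lit 0, nat_lit 0, nat_lit 0, nat_lit 0, [],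
 ⟨p028_k20, nat_lit 0, nat_lit 0, nat_lit 158, nat_lit 0, nat_lit 46991, [nat_lit 6250000000, nat_lit 9842000000], [], [nat_lit 20056923415, nat_lit 20125528340, nat_lit 18896865208, nat_lit 18952270682, nat_lit 22893687838, nat_lit 22982526044, nat_lit 21430063781, nat_lit 21519250814], nat_lit 1271250, nat_lit 1271250, nat_lit 65850, nat_lit 111251, nat_lit 1271250, nat_lit 1271250, [nat_lit 1412500, nat_lit 1271250], [nat_lit 51, nat_lit 40, nat_lit 20, nat_lit 80, nat_lit 1, nat_lit 373, nat_lit 150, nat_lit 10]⟩, ⟨p028_k21, nat_lit 0, nat_lit 0, nat_lit 296, nat_lit 0, nat_lit 47258, [nat_lit 6250000000, nat_lit 9842000000], [], [nat_lit 20617112180, nat_lit 20789549857, nat_lit 19532840606, nat_lit 19710488240, nat_lit 14735429174, nat_lit 14904142121, nat_lit 13806150585, nat_lit 13974622120], nat_lit 1271250, nat_lit 1271250, nat_lit 65850, nat_lit 111251, nat_lit 0, nat_lit 490000, [nat_lit 1412500, nat_lit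 1271250], [nat_lit 51, nat_lit 40, nat_lit 20, nat_lit 80, nat_lit 1, nat_lit 317, nat_lit 100, nat_lit 10]⟩,
 zbF0, [⟨nat_lit 0, nat_lit 100, nat_lit 100, nat_lit 40, nat_lit 2214834112⟩, ⟨nat_lit 4, nat_lit 96, nat_lit 100, nat_lit 54, nat_lit 2673179889⟩]⟩
noncomputable def p028_l38 : Lf2 := ⟨nat_lit 0, nat_lit 4, [nat_lit 38, nat_lit 5, nat_lit 5, nat_lit 20], false, nat_lit 260, nat_lit 280, nat_lit 80, nat_lit 160, ⟨nat_lit 1000, nat_lit 0, nat_lit 0, nat_lit 0, nat_lit 0, nat_lit 0, nat_lit 0, nat_lit 0, nat_lit 0, nat_lit 0, nat_lit 0, nat_lit 0, nat_lit 0, nat_lit 0, nat_lit 0, nat_lit 0, false, false⟩,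
 nat_lit 19711, nat_lit 0, nat_lit 26016, nat_lit 0, nat_lit 10383, nat_lit 23971, nat_lit 2873, nat_lit 0, nat_lit 0, nat_lit 3070, nat_lit 0, nat_lit 0, nat_lit 0, nat_lit 39379912871663, nat_lit 0, nat_lit 0, nat_lit 0, nat_lit 0, [],
 ⟨p028_k20, nat_lit 0, nat_lit 0, nat_lit 158, nat_lit 0, nat_lit 46991, [nat_lit 6250000000, nat_lit 9842000000], [], [nat_lit 20063764535, nat_lit 20121612991, nat_lit 18905917058, nat_lit 18961257873, nat_lit 22888601431, nat_lit 22977408090, nat_lit 21425869607, nat_lit 21515024858], nat_lit 1271250, nat_lit 1271250, nat_lit 65850, nat_lit 111251, nat_lit 1271250, nat_lit 1271250, [nat_lit 1412500, nat_lit 1271250], [nat_lit 51, nat_lit 40, nat_lit 20, nat_lit 80, nat_lit 1, nat_lit 373, nat_lit 150, nat_lit 10]⟩, ⟨p028_k21, nat_lit 0, nat_lit 0, nat_lit 228, nat_lit 0, nat_lit 47258, [nat_lit 6250000000, nat_lit 9842000000], [], [nat_lit 12820377940, nat_lit 13378146773, nat_lit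 9484694447, nat_lit 9802531196, nat_lit 10217107112, nat_lit 10722224685, nat_lit 6639449772, nat_lit 7146186344], nat_lit 1271250, nat_lit 1271250, nat_lit 65850, nat_lit 111251, nat_lit 490000, nat_lit 1100001, [nat_lit 1412500, nat_lit 1271250], [nat_lit 51, nat_lit 40, nat_lit 20, nat_lit 80, nat_lit 1, nat_lit 345, nat_lit 125, nat_lit 10]⟩,
 zbF0, [⟨nat_lit 0, nat_lit 100, nat_lit 100, nat_lit 39, nat_lit 1362051971⟩, ⟨nat_lit 0, nat_lit 100, nat_lit 100, nat_lit 40, nat_lit 2405870546⟩, ⟨nat_lit 4, nat_lit 96, nat_lit 100, nat_lit 54, nat_lit 2802854531⟩]⟩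
noncomputable def p028_l39 : Lf2 := ⟨nat_lit 0, nat_lit 4, [nat_lit 38, nat_lit 5, nat_lit 5, nat_lit 20], false, nat_lit 260, nat_lit 280, nat_lit 160, nat_lit 232, ⟨nat_lit 1000, nat_lit 0, nat_lit 0, nat_lit 0, nat_lit 0, nat_lit 0, nat_lit 0, nat_lit 0, nat_lit 0, nat_lit 0, nat_lit 0, nat_lit 0, nat_lit 0, nat_lit 0, nat_lit 0, nat_lit 0, false, false⟩,
 nat_lit 20775, nat_lit 0, nat_lit 0, nat_lit 0, nat_lit 10383, nat_lit 10890, nat_lit 2873, nat_lit 0, nat_lit 0, nat_lit 0, nat_lit 0, nat_lit 0, nat_lit 0, nat_lit 13079185962173, nat_lit 0, nat_lit 0, nat_lit 0, nat_lit 0, [],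
 ⟨p028_k20, nat_lit 0, nat_lit 0, nat_lit 158, nat_lit 0, nat_lit 46991, [nat_lit 6250000000, nat_lit 9842000000], [], [nat_lit 20063764535, nat_lit 20121612991, nat_lit 18905917058, nat_lit 18961257873, nat_lit 22888601431, nat_lit 22977408090, nat_lit 21425869607, nat_lit 21515024858], nat_lit 1271250, nat_lit 1271250, nat_lit 65850, nat_lit 111251, nat_lit 1271250, nat_lit 1271250, [nat_lit 1412500, nat_lit 1271250], [nat_lit 51, nat_lit 40, nat_lit 20, nat_lit 80, nat_lit 1, nat_lit 373, nat_lit 150, nat_lit 10]⟩, ⟨p028_k21, nat_lit 0, nat_lit 0, nat_lit 188, nat_lit 0, nat_lit 47258, [nat_lit 6250000000, nat_lit 9842000000], [], [nat_lit 11085218681, nat_lit 11296957488, nat_lit 9852439017, nat_lit 10064168160, nat_lit 16543187840, nat_lit 16766552208, nat_lit 15014681547, nat_lit 15225643101], nat_lit 1271250, nat_lit 1271250, nat_lit 65850, nat_lit 111251, nat_lit 1100001, nat_lit 1716500, [nat_lit 1412500,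 nat_lit 1271250], [nat_lit 51, nat_lit 40, nat_lit 20, nat_lit 80, nat_lit 1, nat_lit 345, nat_lit 125, nat_lit 10]⟩,
 zbF0, [⟨nat_lit 0, nat_lit 100, nat_lit 100, nat_lit 40, nat_lit 1056121603⟩, ⟨nat_lit 16, nat_lit 100, nat_lit 96, nat_lit 54, nat_lit 1178953641⟩, ⟨nat_lit 23, nat_lit 94, nat_lit 100, nat_lit 39, nat_lit 1531787880⟩]⟩
noncomputable def p028_l40 : Lf2 := ⟨nat_lit 0, nat_lit 4, [nat_lit 38, nat_lit 5, nat_lit 5, nat_lit 20], true, nat_lit 240, nat_lit 260, nat_lit 0, nat_lit 288, ⟨nat_lit 0, nat_lit 0, nat_lit 1000, nat_lit 5, nat_lit 73, nat_lit 1000, nat_lit 169, nat_lit 1000, nat_lit 180507, nat_lit 319, nat_lit 50417, nat_lit 270, nat_lit 53894827, nat_lit 0, nat_lit 0, nat_lit 3142399, false, false⟩,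
 nat_lit 0, nat_lit 10257, nat_lit 0, nat_lit 0, nat_lit 5165, nat_lit 0, nat_lit 83, nat_lit 0, nat_lit 0, nat_lit 0, nat_lit 0, nat_lit 0, nat_lit 0, nat_lit 31903103861866, nat_lit 115, nat_lit 1000000, nat_lit 0, nat_lit 0, [(nat_lit 3, [(nat_lit 6, nat_lit 1000)])],
 ⟨p028_k17, nat_lit 0, nat_lit 0, nat_lit 157, nat_lit 0, nat_lit 91142, [nat_lit 3341142858, nat_lit 1499600000, nat_lit 23600000], [], [nat_lit 14159781200, nat_lit 14608648598, nat_lit 13467719933, nat_lit 13867462258, nat_lit 15501582932, nat_lit 16031934438, nat_lit 14747295733, nat_lit 15273044633], nat_lit 1271250, nat_lit 1271250, nat_lit 111251, nat_lit 230001, nat_lit 1271250, nat_lit 1271250, [nat_lit 1412500, nat_lit 1271250, nat_lit 1271250], [nat_lit 25, nat_lit 40, nat_lit 20, nat_lit 80, nat_lit 17, nat_lit 373, nat_lit 150, nat_lit 10]⟩, C1.Rw.none,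
 ⟨nat_lit 6324, nat_lit 6520, ⟨.ofNat (nat_lit 153250), .ofNat (nat_lit 195344), .ofNat (nat_lit 163949), .ofNat (nat_lit 206043), .ofNat (nat_lit 161861), .ofNat (nat_lit 202993), .ofNat (nat_lit 172545), .ofNat (nat_lit 213677)⟩, ⟨.ofNat (nat_lit 391604), .ofNat (nat_lit 433698), .ofNat (nat_lit 413002), .ofNat (nat_lit 455096), .ofNat (nat_lit 389952), .ofNat (nat_lit 431084), .ofNat (nat_lit 411320), .ofNat (nat_lit 452452)⟩⟩, [⟨nat_lit 4, nat_lit 94, nat_lit 100, nat_lit 54, nat_lit 551494509⟩]⟩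
noncomputable def p028_l41 : Lf2 := ⟨nat_lit 0, nat_lit 3, [nat_lit 45, nat_lit 5, nat_lit 5, nat_lit 20], false, nat_lit 260, nat_lit 280, nat_lit 0, nat_lit 160, ⟨nat_lit 1000, nat_lit 0, nat_lit 0, nat_lit 0, nat_lit 0, nat_lit 0, nat_lit 0, nat_lit 0, nat_lit 0, nat_lit 0, nat_lit 0, nat_lit 0, nat_lit 0, nat_lit 0, nat_lit 0, nat_lit 0, false, false⟩,
 nat_lit 25547, nat_lit 0, nat_lit 0, nat_lit 0, nat_lit 12866, nat_lit 10690, nat_lit 839, nat_lit 0, nat_lit 0, nat_lit 3047, nat_lit 0, nat_lit 0, nat_lit 0, nat_lit 5038240834529, nat_lit 0, nat_lit 0, nat_lit 0, nat_lit 0, [],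
 ⟨p028_k5, nat_lit 0, nat_lit 0, nat_lit 141, nat_lit 0, nat_lit 90626, [nat_lit 6250000000, nat_lit 7968000000], [], [nat_lit 19839951713, nat_lit 20583745781, nat_lit 17451238048, nat_lit 18188817535, nat_lit 22240789296, nat_lit 23263866316, nat_lit 19757987688, nat_lit 20429196139], nat_lit 1271250, nat_lit 1271250, nat_lit 111251, nat_lit 230001, nat_lit 1271250, nat_lit 1271250, [nat_lit 1412500, nat_lit 1271250], [nat_lit 26, nat_lit 40, nat_lit 20, nat_lit 80, nat_lit 2, nat_lit 289, nat_lit 75, nat_lit 9]⟩, ⟨p028_k5, nat_lit 0, nat_lit 0, nat_lit 271, nat_lit 0, nat_lit 90626, [nat_lit 6250000000, nat_lit 7968000000], [], [nat_lit 19390126565, nat_lit 20218949515, nat_lit 17513312155, nat_lit 18334110275, nat_lit 15543880820, nat_lit 13513274715, nat_lit 15611068010, nat_lit 12868773000], nat_lit 1271250, nat_lit 1271250, nat_lit 111251, nat_lit 230001, nat_lit 0, nat_lit 1100001, [nat_lit 1412500, nat_lit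 1271250], [nat_lit 26, nat_lit 40, nat_lit 20, nat_lit 80, nat_lit 2, nat_lit 345, nat_lit 125, nat_lit 12]⟩,
 zbF0, [⟨nat_lit 4, nat_lit 94, nat_lit 100, nat_lit 54, nat_lit 1684314708⟩]⟩
noncomputable def p028_l42 : Lf2 := ⟨nat_lit 0, nat_lit 3, [nat_lit 45, nat_lit 5, nat_lit 5, nat_lit 20], false, nat_lit 260, nat_lit 280, nat_lit 160, nat_lit 268, ⟨nat_lit 1000, nat_lit 0, nat_lit 0, nat_lit 0, nat_lit 0, nat_lit 0, nat_lit 0, nat_lit 0, nat_lit 0, nat_lit 0, nat_lit 0, nat_lit 0, nat_lit 0, nat_lit 0, nat_lit 0, nat_lit 0, false, false⟩,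
 nat_lit 20913, nat_lit 0, nat_lit 0, nat_lit 0, nat_lit 10532, nat_lit 9801, nat_lit 3214, nat_lit 0, nat_lit 0, nat_lit 0, nat_lit 0, nat_lit 0, nat_lit 0, nat_lit 8634677405033, nat_lit 0, nat_lit 0, nat_lit 0, nat_lit 0, [],
 ⟨p028_k5, nat_lit 0, nat_lit 0, nat_lit 141, nat_lit 0, nat_lit 90626, [nat_lit 6250000000, nat_lit 7968000000], [], [nat_lit 18179478127, nat_lit 18736868492, nat_lit 16609097614, nat_lit 17159151188, nat_lit 20720524392, nat_lit 21619969432, nat_lit 18280745104, nat_lit 19174632624], nat_lit 1271250, nat_lit 1271250, nat_lit 111251, nat_lit 230001, nat_lit 1271250, nat_lit 1271250, [nat_lit 1412500, nat_lit 1271250], [nat_lit 26, nat_lit 40, nat_lit 20, nat_lit 80, nat_lit 2, nat_lit 289, nat_lit 75, nat_lit 9]⟩, ⟨p028_k5, nat_lit 0, nat_lit 0, nat_lit 191, nat_lit 0, nat_lit 90626, [nat_lit 6250000000, nat_lit 7968000000], [], [nat_lit 10170974596, nat_lit 11158238544, nat_lit 8514956364,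 nat_lit 9492129184, nat_lit 18759254603, nat_lit 19462854611, nat_lit 17025317961, nat_lit 17722834786], nat_lit 1271250, nat_lit 1271250, nat_lit 111251, nat_lit 230001, nat_lit 1100001, nat_lit 2024750, [nat_lit 1412500, nat_lit 1271250], [nat_lit 26, nat_lit 40, nat_lit 20, nat_lit 80, nat_lit 2, nat_lit 373, nat_lit 150, nat_lit 12]⟩,
 zbF0, [⟨nat_lit 4, nat_lit 94, nat_lit 100, nat_lit 54, nat_lit 1329420189⟩, ⟨nat_lit 11, nat_lit 100, nat_lit 94, nat_lit 42, nat_lit 1510429211⟩]⟩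
noncomputable def p028_l43 : Lf2 := ⟨nat_lit 0, nat_lit 4, [nat_lit 38, nat_lit 5, nat_lit 5, nat_lit 20], true, nat_lit 260, nat_lit 280, nat_lit 0, nat_lit 268, ⟨nat_lit 0, nat_lit 0, nat_lit 1000, nat_lit 5, nat_lit 73, nat_lit 1000, nat_lit 186, nat_lit 1000, nat_lit 41329, nat_lit 264, nat_lit 50417, nat_lit 270, nat_lit 52277105, nat_lit 0, nat_lit 0, nat_lit 3338451, false, false⟩,
 nat_lit 0, nat_lit 10276, nat_lit 0, nat_lit 2028, nat_lit 5175, nat_lit 0, nat_lit 0, nat_lit 0, nat_lit 0, nat_lit 0, nat_lit 0, nat_lit 0, nat_lit 0, nat_lit 8759503914750, nat_lit 114, nat_lit 988600, nat_lit 0, nat_lit 0, [(nat_lit 3, [(nat_lit 5, nat_lit 19), (nat_lit 6, nat_lit 981)])],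
 ⟨p028_k17, nat_lit 0, nat_lit 0, nat_lit 150, nat_lit 0, nat_lit 49495, [nat_lit 3331198743, nat_lit 1485533201, nat_lit 24449600], [], [nat_lit 15615159594, nat_lit 16036346843, nat_lit 14816498438, nat_lit 15275364868, nat_lit 17231210300, nat_lit 17846895050, nat_lit 16190262393, nat_lit 16802381600], nat_lit 1271250, nat_lit 1271250, nat_lit 111251, nat_lit 230001, nat_lit 1271250, nat_lit 1271250, [nat_lit 1412500, nat_lit 1271250, nat_lit 1271250], [nat_lit 25, nat_lit 40, nat_lit 20, nat_lit 80, nat_lit 17, nat_lit 373, nat_lit 150, nat_lit 10]⟩, C1.Rw.none,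
 ⟨nat_lit 6324, nat_lit 6520, ⟨.ofNat (nat_lit 153250), .ofNat (nat_lit 195344), .ofNat (nat_lit 163949), .ofNat (nat_lit 206043), .ofNat (nat_lit 161861), .ofNat (nat_lit 202993), .ofNat (nat_lit 172545), .ofNat (nat_lit 213677)⟩, ⟨.ofNat (nat_lit 433698), .ofNat (nat_lit 475792), .ofNat (nat_lit 455096), .ofNat (nat_lit 497189), .ofNat (nat_lit 431084), .ofNat (nat_lit 472216), .ofNat (nat_lit 452452), .ofNat (nat_lit 493584)⟩⟩, [⟨nat_lit 4, nat_lit 94, nat_lit 100, nat_lit 54, nat_lit 778225191⟩]⟩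
noncomputable def b_VL_500_500_5_31 : St := ⟨true, nat_lit 1, nat_lit 1, nat_lit 1, nat_lit 40, nat_lit 230, nat_lit 240, nat_lit 230, nat_lit 240, nat_lit 8, nat_lit 40, nat_lit 20, nat_lit 40, nat_lit 240, nat_lit 280, nat_lit 0, nat_lit 288, nat_lit 8, nat_lit 16, nat_lit 0, nat_lit 0, nat_lit 0, nat_lit 0⟩
theorem d_VL_500_500_5_31 (h : EB TB.env) : Dead b_VL_500_500_5_31 := chkB_sound0 h (T :=
(.spl (nat_lit 2) (nat_lit 20)
(.trX (nat_lit 23) (nat_lit 100) (nat_lit 99) (nat_lit 44) (nat_lit 252) (.spl (nat_lit 4) (nat_lit 260)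
(.spl (nat_lit 0) (nat_lit 235)
(.ord (.leaf p028_l20))
(.spl (nat_lit 6) (nat_lit 12)
(.spl (nat_lit 5) (nat_lit 160)
(.leaf p028_l21)
(.spl (nat_lit 1) (nat_lit 235)
(.leaf p028_l22)
(.trZ (nat_lit 0) (nat_lit 100) (nat_lit 100) (nat_lit 35) (nat_lit 12) (.leaf p028_l23))))
(.leaf p028_l24)))
(.trX (nat_lit 23) (nat_lit 96) (nat_lit 100) (nat_lit 44) (nat_lit 232) (.spl (nat_lit 6) (nat_lit 12)
(.spl (nat_lit 2) (nat_lit 16)
(.trX (nat_lit 23) (nat_lit 96) (nat_lit 100) (nat_lit 39) (nat_lit 220) (.spl (nat_lit 0) (nat_lit 235)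
(.ord (.spl (nat_lit 0) (nat_lit 233)
(.ord (.leaf p028_l25))
(.leaf p028_l26)))
(.spl (nat_lit 1) (nat_lit 235)
(.leaf p028_l27)
(.trZ (nat_lit 0) (nat_lit 100) (nat_lit 100) (nat_lit 35) (nat_lit 12) (.spl (nat_lit 5) (nat_lit 80)
(.leaf p028_l28)
(.leaf p028_l29))))))
(.spl (nat_lit 1) (nat_lit 235)
(.leaf p028_l30)
(.ord (.spl (nat_lit 1) (nat_lit 238)
(.leaf p028_l31)
(.ord (.leaf p028_l32))))))
(.spl (nat_lit 1) (nat_lit 235)
(.leaf p028_l33)
(.ord (.trZ (nat_lit 0) (nat_lit 100) (nat_lit 100) (nat_lit 35) (nat_lit 12) (.spl (nat_lit 0) (nat_lit 238)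
(.ord (.leaf p028_l34))
(.spl (nat_lit 0) (nat_lit 239)
(.ord (.leaf p028_l35))
(.spl (nat_lit 1) (nat_lit 238)
(.leaf p028_l36)
(.spl (nat_lit 5) (nat_lit 80)
(.leaf p028_l37)
(.spl (nat_lit 5) (nat_lit 160)
(.leaf p028_l38)
(.leaf p028_l39)))))))))))))
(.spl (nat_lit 4) (nat_lit 260)
(.leaf p028_l40)
(.trX (nat_lit 23) (nat_lit 100) (nat_lit 99) (nat_lit 63) (nat_lit 268) (.spl (nat_lit 6) (nat_lit 12)
(.spl (nat_lit 5) (nat_lit 160)
(.leaf p028_l41)
(.leaf p028_l42))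
(.leaf p028_l43)))))) (by decide +kernel)
noncomputable def p028_l44 : Lf2 := ⟨nat_lit 0, nat_lit 5, [nat_lit 4, nat_lit 5, nat_lit 5, nat_lit 20], true, nat_lit 240, nat_lit 260, nat_lit 0, nat_lit 288, ⟨nat_lit 0, nat_lit 0, nat_lit 1000, nat_lit 5, nat_lit 68, nat_lit 1000, nat_lit 169, nat_lit 1000, nat_lit 180507, nat_lit 319, nat_lit 43350, nat_lit 266, nat_lit 54186585, nat_lit 0, nat_lit 0, nat_lit 3067426, false, false⟩,
 nat_lit 0, nat_lit 10082, nat_lit 0, nat_lit 0, nat_lit 5077, nat_lit 0, nat_lit 0, nat_lit 0, nat_lit 0, nat_lit 0, nat_lit 0, nat_lit 0, nat_lit 0, nat_lit 21573536300951, nat_lit 108, nat_lit 927400, nat_lit 0, nat_lit 0, [(nat_lit 3, [(nat_lit 5, nat_lit 121), (nat_lit 6, nat_lit 879)])],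
 ⟨p028_k22, nat_lit 0, nat_lit 0, nat_lit 151, nat_lit 0, nat_lit 13873, [nat_lit 3265182972, nat_lit 1394858800, nat_lit 11326400], [], [nat_lit 15390460380, nat_lit 15835230151, nat_lit 13940879274, nat_lit 14286938512, nat_lit 16578160908, nat_lit 16995573022, nat_lit 15016478709, nat_lit 15431548979], nat_lit 1271250, nat_lit 1271250, nat_lit 43600, nat_lit 230001, nat_lit 1271250, nat_lit 1271250, [nat_lit 1412500, nat_lit 1271250, nat_lit 1271250], [nat_lit 25, nat_lit 40, nat_lit 20, nat_lit 80, nat_lit 17, nat_lit 373, nat_lit 150, nat_lit 10]⟩, C1.Rw.none,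
 ⟨nat_lit 6324, nat_lit 6520, ⟨.ofNat (nat_lit 127994), .ofNat (nat_lit 195344), .ofNat (nat_lit 138693), .ofNat (nat_lit 206043), .ofNat (nat_lit 137182), .ofNat (nat_lit 202993), .ofNat (nat_lit 147866), .ofNat (nat_lit 213677)⟩, ⟨.ofNat (nat_lit 391604), .ofNat (nat_lit 433698), .ofNat (nat_lit 413002), .ofNat (nat_lit 455096), .ofNat (nat_lit 389952), .ofNat (nat_lit 431084), .ofNat (nat_lit 411320), .ofNat (nat_lit 452452)⟩⟩, [⟨nat_lit 0, nat_lit 100, nat_lit 100, nat_lit 40, nat_lit 350670907⟩, ⟨nat_lit 16, nat_lit 100, nat_lit 94, nat_lit 54, nat_lit 429739396⟩]⟩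
noncomputable def p028_l45 : Lf2 := ⟨nat_lit 0, nat_lit 5, [nat_lit 4, nat_lit 5, nat_lit 5, nat_lit 20], true, nat_lit 260, nat_lit 280, nat_lit 0, nat_lit 268, ⟨nat_lit 0, nat_lit 0, nat_lit 1000, nat_lit 5, nat_lit 68, nat_lit 1000, nat_lit 186, nat_lit 1000, nat_lit 41329, nat_lit 264, nat_lit 43350, nat_lit 266, nat_lit 52557193, nat_lit 0, nat_lit 0, nat_lit 3265194, false, false⟩,
 nat_lit 0, nat_lit 10018, nat_lit 0, nat_lit 477046, nat_lit 5045, nat_lit 0, nat_lit 0, nat_lit 0, nat_lit 0, nat_lit 0, nat_lit 0, nat_lit 0, nat_lit 0, nat_lit 400000000000000, nat_lit 109, nat_lit 937000, nat_lit 0, nat_lit 0, [(nat_lit 3, [(nat_lit 5, nat_lit 105), (nat_lit 6, nat_lit 895)])],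
 ⟨p028_k22, nat_lit 0, nat_lit 0, nat_lit 154, nat_lit 0, nat_lit 13873, [nat_lit 3276714858, nat_lit 1410494000, nat_lit 15032000], [], [nat_lit 16556002526, nat_lit 16972594270, nat_lit 15006911973, nat_lit 15421444433, nat_lit 18151839954, nat_lit 18758535653, nat_lit 16322561568, nat_lit 16809881808], nat_lit 1271250, nat_lit 1271250, nat_lit 43600, nat_lit 230001, nat_lit 1271250, nat_lit 1271250, [nat_lit 1412500, nat_lit 1271250, nat_lit 1271250], [nat_lit 25, nat_lit 40, nat_lit 20, nat_lit 80, nat_lit 17, nat_lit 373, nat_lit 150, nat_lit 10]⟩, C1.Rw.none,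
 ⟨nat_lit 6324, nat_lit 6520, ⟨.ofNat (nat_lit 127994), .ofNat (nat_lit 195344), .ofNat (nat_lit 138693), .ofNat (nat_lit 206043), .ofNat (nat_lit 137182), .ofNat (nat_lit 202993), .ofNat (nat_lit 147866), .ofNat (nat_lit 213677)⟩, ⟨.ofNat (nat_lit 433698), .ofNat (nat_lit 475792), .ofNat (nat_lit 455096), .ofNat (nat_lit 497189), .ofNat (nat_lit 431084), .ofNat (nat_lit 472216), .ofNat (nat_lit 452452), .ofNat (nat_lit 493584)⟩⟩, [⟨nat_lit 0, nat_lit 100, nat_lit 100, nat_lit 40, nat_lit 351071436⟩, ⟨nat_lit 16, nat_lit 100, nat_lit 94, nat_lit 54, nat_lit 10638297872⟩, ⟨nat_lit 16, nat_lit 100, nat_lit 89, nat_lit 61, nat_lit 11235955056⟩, ⟨nat_lit 4, nat_lit 94, nat_lit 100, nat_lit 54, nat_lit 10638297872⟩]⟩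
noncomputable def b_VL_500_500_5_32 : St := ⟨true, nat_lit 1, nat_lit 1, nat_lit 1, nat_lit 40, nat_lit 230, nat_lit 240, nat_lit 230, nat_lit 240, nat_lit 8, nat_lit 40, nat_lit 20, nat_lit 40, nat_lit 240, nat_lit 280, nat_lit 0, nat_lit 288, nat_lit 16, nat_lit 20, nat_lit 0, nat_lit 0, nat_lit 0, nat_lit 0⟩
theorem d_VL_500_500_5_32 (h : EB TB.env) : Dead b_VL_500_500_5_32 := chkB_sound0 h (T :=
(.spl (nat_lit 4) (nat_lit 260)
(.leaf p028_l44)
(.trX (nat_lit 23) (nat_lit 100) (nat_lit 99) (nat_lit 63) (nat_lit 268) (.leaf p028_l45)))) (by decide +kernel)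
noncomputable def p028_l46 : Lf2 := ⟨nat_lit 0, nat_lit 2, [nat_lit 10, nat_lit 5, nat_lit 5, nat_lit 20], true, nat_lit 280, nat_lit 304, nat_lit 0, nat_lit 248, ⟨nat_lit 0, nat_lit 0, nat_lit 1000, nat_lit 5, nat_lit 57, nat_lit 1000, nat_lit 206, nat_lit 1000, nat_lit 5012, nat_lit 231, nat_lit 30817, nat_lit 258, nat_lit 51089382, nat_lit 0, nat_lit 0, nat_lit 3316404, false, false⟩,
 nat_lit 0, nat_lit 8248, nat_lit 0, nat_lit 461261, nat_lit 3944, nat_lit 0, nat_lit 667, nat_lit 0, nat_lit 0, nat_lit 0, nat_lit 0, nat_lit 0, nat_lit 0, nat_lit 400000000000000, nat_lit 53, nat_lit 1000000, nat_lit 0, nat_lit 0, [(nat_lit 3, [(nat_lit 6, nat_lit 1000)])],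
 ⟨p028_k0, nat_lit 0, nat_lit 0, nat_lit 0, nat_lit 0, nat_lit 45204, [nat_lit 1482000001, nat_lit 1492200001, nat_lit 1205600001, nat_lit 226399999], [], [nat_lit 16942810633, nat_lit 17167992800, nat_lit 15659708305, nat_lit 15883070389, nat_lit 18863685323, nat_lit 19115230165, nat_lit 17203473438, nat_lit 17410233839], nat_lit 1271250, nat_lit 1271250, nat_lit 21650, nat_lit 230001, nat_lit 1271250, nat_lit 1271250, [nat_lit 780000, nat_lit 1271250, nat_lit 1271250, nat_lit 1271250], [nat_lit 184, nat_lit 40, nat_lit 20, nat_lit 80]⟩, C1.Rw.none,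
 ⟨nat_lit 6614, nat_lit 6709, ⟨.ofNat (nat_lit 99275), .ofNat (nat_lit 176815), .ofNat (nat_lit 104635), .ofNat (nat_lit 182174), .ofNat (nat_lit 104102), .ofNat (nat_lit 180751), .ofNat (nat_lit 109456), .ofNat (nat_lit 186106)⟩, ⟨.ofNat (nat_lit 479364), .ofNat (nat_lit 531056), .ofNat (nat_lit 500802), .ofNat (nat_lit 552494), .ofNat (nat_lit 477577), .ofNat (nat_lit 528676), .ofNat (nat_lit 498994), .ofNat (nat_lit 550093)⟩⟩, [⟨nat_lit 0, nat_lit 100, nat_lit 100, nat_lit 25, nat_lit 287833577⟩, ⟨nat_lit 16, nat_lit 100, nat_lit 91, nat_lit 53, nat_lit 10989010989⟩, ⟨nat_lit 16, nat_lit 100, nat_lit 86, nat_lit 60, nat_lit 11627906977⟩, ⟨nat_lit 4, nat_lit 91, nat_lit 100, nat_lit 53, nat_lit 10989010989⟩]⟩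
noncomputable def p028_l47 : Lf2 := ⟨nat_lit 0, nat_lit 2, [nat_lit 10, nat_lit 5, nat_lit 5, nat_lit 20], false, nat_lit 280, nat_lit 300, nat_lit 0, nat_lit 160, ⟨nat_lit 1000, nat_lit 0, nat_lit 0, nat_lit 0, nat_lit 0, nat_lit 0, nat_lit 0, nat_lit 0, nat_lit 0, nat_lit 0, nat_lit 0, nat_lit 0, nat_lit 0, nat_lit 0, nat_lit 0, nat_lit 0, false, false⟩,
 nat_lit 19722, nat_lit 0, nat_lit 1007, nat_lit 56733, nat_lit 9681, nat_lit 9913, nat_lit 3525, nat_lit 0, nat_lit 0, nat_lit 7166, nat_lit 0, nat_lit 0, nat_lit 0, nat_lit 19797078816257, nat_lit 0, nat_lit 0, nat_lit 0, nat_lit 0, [],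
 ⟨p028_k23, nat_lit 0, nat_lit 0, nat_lit 0, nat_lit 0, nat_lit 92482, [nat_lit 6250000000, nat_lit 7968000000], [], [nat_lit 22644128429, nat_lit 22889875608, nat_lit 19407569362, nat_lit 19650240682, nat_lit 25298871489, nat_lit 25683331787, nat_lit 21013171402, nat_lit 21234654290], nat_lit 1271250, nat_lit 1271250, nat_lit 21650, nat_lit 230001, nat_lit 1271250, nat_lit 1271250, [nat_lit 1412500, nat_lit 1271250], [nat_lit 26, nat_lit 40, nat_lit 20, nat_lit 80]⟩, ⟨p028_k3, nat_lit 0, nat_lit 0, nat_lit 285, nat_lit 0, nat_lit 95287, [nat_lit 6250000000, nat_lit 7968000000], [], [nat_lit 21015522439, nat_lit 21601539718, nat_lit 17763417254, nat_lit 18340484991, nat_lit 19490947068, nat_lit 16913563103, nat_lit 19365982054, nat_lit 16823010077], nat_lit 1271250, nat_lit 1271250, nat_lit 21650, nat_lit 230001, nat_lit 0, nat_lit 1100001, [nat_lit 1412500, nat_lit 1271250], [nat_lit 26, nat_lit 40, nat_lit 20,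 nat_lit 80, nat_lit 2, nat_lit 345, nat_lit 125, nat_lit 12]⟩,
 zbF0, [⟨nat_lit 0, nat_lit 100, nat_lit 100, nat_lit 30, nat_lit 1292825935⟩, ⟨nat_lit 4, nat_lit 92, nat_lit 100, nat_lit 53, nat_lit 5321938521⟩]⟩
noncomputable def p028_l48 : Lf2 := ⟨nat_lit 0, nat_lit 2, [nat_lit 10, nat_lit 5, nat_lit 5, nat_lit 20], false, nat_lit 280, nat_lit 300, nat_lit 160, nat_lit 208, ⟨nat_lit 1000, nat_lit 0, nat_lit 0, nat_lit 0, nat_lit 0, nat_lit 0, nat_lit 0, nat_lit 0, nat_lit 0, nat_lit 0, nat_lit 0, nat_lit 0, nat_lit 0, nat_lit 0, nat_lit 0, nat_lit 0, false, false⟩,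
 nat_lit 92993, nat_lit 0, nat_lit 0, nat_lit 93557, nat_lit 7810, nat_lit 44474, nat_lit 18426, nat_lit 0, nat_lit 0, nat_lit 0, nat_lit 0, nat_lit 0, nat_lit 0, nat_lit 5935960257106, nat_lit 0, nat_lit 0, nat_lit 0, nat_lit 0, [],
 ⟨p028_k24, nat_lit 0, nat_lit 0, nat_lit 0, nat_lit 0, nat_lit 92482, [nat_lit 2637500000, nat_lit 5449500000, nat_lit 7089500001, nat_lit 7968000000], [], [nat_lit 20475409434, nat_lit 20788675956, nat_lit 18772597111, nat_lit 19075245340, nat_lit 23013424940, nat_lit 23356796430, nat_lit 20852820038, nat_lit 21192733990], nat_lit 1271250, nat_lit 1271250, nat_lit 21650, nat_lit 111251, nat_lit 1271250, nat_lit 1271250, [nat_lit 631250, nat_lit 1271250, nat_lit 1271250, nat_lit 1271250], [nat_lit 139, nat_lit 40, nat_lit 20, nat_lit 40]⟩, ⟨p028_k3, nat_lit 0, nat_lit 0, nat_lit 205, nat_lit 0, nat_lit 95287, [nat_lit 6250000000, nat_lit 7968000000], [], [nat_lit 25465648368, nat_lit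 13902390579, nat_lit 7008226784, nat_lit 449348826, nat_lit 23372573578, nat_lit 27098642272, nat_lit 10097603801, nat_lit 13853909736], nat_lit 1271250, nat_lit 1271250, nat_lit 21650, nat_lit 111251, nat_lit 1100001, nat_lit 1511000, [nat_lit 1412500, nat_lit 1271250], [nat_lit 26, nat_lit 40, nat_lit 20, nat_lit 80, nat_lit 2, nat_lit 345, nat_lit 125, nat_lit 11]⟩,
 zbF0, [⟨nat_lit 0, nat_lit 100, nat_lit 100, nat_lit 30, nat_lit 898845664⟩, ⟨nat_lit 16, nat_lit 100, nat_lit 92, nat_lit 53, nat_lit 2572041466⟩, ⟨nat_lit 4, nat_lit 92, nat_lit 100, nat_lit 53, nat_lit 10869565217⟩, ⟨nat_lit 11, nat_lit 100, nat_lit 91, nat_lit 34, nat_lit 5080482714⟩]⟩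
noncomputable def p028_l49 : Lf2 := ⟨nat_lit 0, nat_lit 2, [nat_lit 10, nat_lit 5, nat_lit 5, nat_lit 20], true, nat_lit 280, nat_lit 300, nat_lit 160, nat_lit 248, ⟨nat_lit 0, nat_lit 0, nat_lit 1000, nat_lit 5, nat_lit 67, nat_lit 1000, nat_lit 203, nat_lit 1000, nat_lit 12288, nat_lit 237, nat_lit 41667, nat_lit 265, nat_lit 50865948, nat_lit 0, nat_lit 0, nat_lit 3429867, false, false⟩,
 nat_lit 0, nat_lit 7965, nat_lit 0, nat_lit 14031, nat_lit 3910, nat_lit 0, nat_lit 3904, nat_lit 0, nat_lit 0, nat_lit 0, nat_lit 0, nat_lit 0, nat_lit 0, nat_lit 43816244018781, nat_lit 27, nat_lit 281500, nat_lit 0, nat_lit 0, [(nat_lit 3, [(nat_lit 4, nat_lit 790), (nat_lit 5, nat_lit 210)])],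
 ⟨p028_k24, nat_lit 0, nat_lit 0, nat_lit 0, nat_lit 0, nat_lit 92482, [nat_lit 1821276001, nat_lit 1065876000, nat_lit 416472000, nat_lit 13732000], [], [nat_lit 16018661960, nat_lit 16233992400, nat_lit 15624803331, nat_lit 15842493661, nat_lit 17658870745, nat_lit 17915060890, nat_lit 16934476458, nat_lit 17189986965], nat_lit 1271250, nat_lit 1271250, nat_lit 111251, nat_lit 230001, nat_lit 1271250, nat_lit 1271250, [nat_lit 631250, nat_lit 1271250, nat_lit 1271250, nat_lit 1271250], [nat_lit 139, nat_lit 40, nat_lit 20, nat_lit 40]⟩, C1.Rw.none,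
 ⟨nat_lit 6519, nat_lit 6615, ⟨.ofNat (nat_lit 138168), .ofNat (nat_lit 180751), .ofNat (nat_lit 148877), .ofNat (nat_lit 191460), .ofNat (nat_lit 142551), .ofNat (nat_lit 184645), .ofNat (nat_lit 153250), .ofNat (nat_lit 195344)⟩, ⟨.ofNat (nat_lit 477578), .ofNat (nat_lit 520160), .ofNat (nat_lit 498994), .ofNat (nat_lit 541577), .ofNat (nat_lit 475792), .ofNat (nat_lit 517885), .ofNat (nat_lit 497189), .ofNat (nat_lit 539283)⟩⟩, [⟨nat_lit 4, nat_lit 92, nat_lit 100, nat_lit 53, nat_lit 1517511797⟩]⟩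
noncomputable def b_VL_500_500_5_33 : St := ⟨true, nat_lit 1, nat_lit 1, nat_lit 1, nat_lit 40, nat_lit 220, nat_lit 230, nat_lit 220, nat_lit 240, nat_lit 4, nat_lit 40, nat_lit 20, nat_lit 40, nat_lit 280, nat_lit 304, nat_lit 0, nat_lit 248, nat_lit 0, nat_lit 8, nat_lit 0, nat_lit 600, nat_lit 0, nat_lit 0⟩
theorem d_VL_500_500_5_33 (h : EB TB.env) : Dead b_VL_500_500_5_33 := chkB_sound0 h (T :=
(.ord (.spl (nat_lit 0) (nat_lit 225)
(.ord (.leaf p028_l46))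
(.trX (nat_lit 16) (nat_lit 100) (nat_lit 88) (nat_lit 60) (nat_lit 300) (.spl (nat_lit 5) (nat_lit 160)
(.leaf p028_l47)
(.spl (nat_lit 2) (nat_lit 20)
(.trX (nat_lit 23) (nat_lit 92) (nat_lit 100) (nat_lit 44) (nat_lit 208) (.leaf p028_l48))
(.leaf p028_l49))))))) (by decide +kernel)
noncomputable def p028_l50 : Lf2 := ⟨nat_lit 0, nat_lit 1, [nat_lit 19, nat_lit 5, nat_lit 5, nat_lit 20], true, nat_lit 280, nat_lit 296, nat_lit 0, nat_lit 176, ⟨nat_lit 0, nat_lit 0, nat_lit 1000, nat_lit 5, nat_lit 49, nat_lit 1000, nat_lit 201, nat_lit 1000, nat_lit 13444, nat_lit 242, nat_lit 21600, nat_lit 251, nat_lit 51990846, nat_lit 0, nat_lit 0, nat_lit 3141255, false, false⟩,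
 nat_lit 0, nat_lit 7471, nat_lit 0, nat_lit 217175, nat_lit 3762, nat_lit 0, nat_lit 1797, nat_lit 0, nat_lit 0, nat_lit 0, nat_lit 0, nat_lit 0, nat_lit 0, nat_lit 0, nat_lit 9, nat_lit 286600, nat_lit 0, nat_lit 0, [(nat_lit 3, [(nat_lit 4, nat_lit 756), (nat_lit 5, nat_lit 244)])],
 ⟨p028_k25, nat_lit 0, nat_lit 0, nat_lit 0, nat_lit 0, nat_lit 116930, [nat_lit 1614606401, nat_lit 744446400, nat_lit 18540800], [], [nat_lit 17098163023, nat_lit 17260528525, nat_lit 16860303238, nat_lit 17021861839, nat_lit 18419663682, nat_lit 18572991680, nat_lit 18180032063, nat_lit 18333506054], nat_lit 1271250, nat_lit 1271250, nat_lit 21650, nat_lit 43600, nat_lit 1271250, nat_lit 1271250, [nat_lit 631250, nat_lit 1271250, nat_lit 1271250], [nat_lit 90, nat_lit 40, nat_lit 20, nat_lit 40]⟩, C1.Rw.none,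
 ⟨nat_lit 6461, nat_lit 6520, ⟨.ofNat (nat_lit 108876), .ofNat (nat_lit 117294), .ofNat (nat_lit 122784), .ofNat (nat_lit 131203), .ofNat (nat_lit 111715), .ofNat (nat_lit 120076), .ofNat (nat_lit 125617), .ofNat (nat_lit 133978)⟩, ⟨.ofNat (nat_lit 475792), .ofNat (nat_lit 509467), .ofNat (nat_lit 497190), .ofNat (nat_lit 530865), .ofNat (nat_lit 474720), .ofNat (nat_lit 508162), .ofNat (nat_lit 496108), .ofNat (nat_lit 529550)⟩⟩, [⟨nat_lit 0, nat_lit 100, nat_lit 100, nat_lit 29, nat_lit 10000000000⟩, ⟨nat_lit 0, nat_lit 100, nat_lit 100, nat_lit 33, nat_lit 10000000000⟩, ⟨nat_lit 0, nat_lit 100, nat_lit 99, nat_lit 25, nat_lit 10101010101⟩, ⟨nat_lit 16, nat_lit 100, nat_lit 93, nat_lit 53, nat_lit 4725916167⟩, ⟨nat_lit 4, nat_lit 93, nat_lit 100, nat_lit 53, nat_lit 10752688172⟩]⟩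
noncomputable def p028_l51 : Lf2 := ⟨nat_lit 0, nat_lit 1, [nat_lit 19, nat_lit 5, nat_lit 5, nat_lit 20], true, nat_lit 280, nat_lit 296, nat_lit 0, nat_lit 200, ⟨nat_lit 0, nat_lit 0, nat_lit 1000, nat_lit 5, nat_lit 52, nat_lit 1000, nat_lit 201, nat_lit 1000, nat_lit 13444, nat_lit 242, nat_lit 25350, nat_lit 254, nat_lit 51837613, nat_lit 0, nat_lit 0, nat_lit 3189940, false, false⟩,
 nat_lit 0, nat_lit 7432, nat_lit 0, nat_lit 461176, nat_lit 3743, nat_lit 0, nat_lit 1761, nat_lit 0, nat_lit 0, nat_lit 0, nat_lit 0, nat_lit 0, nat_lit 0, nat_lit 0, nat_lit 9, nat_lit 288250, nat_lit 0, nat_lit 0, [(nat_lit 3, [(nat_lit 4, nat_lit 745), (nat_lit 5, nat_lit 255)])],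
 ⟨p028_k25, nat_lit 0, nat_lit 0, nat_lit 0, nat_lit 0, nat_lit 80059, [nat_lit 1605978001, nat_lit 745278000, nat_lit 17916000], [], [nat_lit 16878415415, nat_lit 17005945599, nat_lit 16578997210, nat_lit 16709239397, nat_lit 18160683282, nat_lit 18313889739, nat_lit 17684247114, nat_lit 17837743256], nat_lit 1271250, nat_lit 1271250, nat_lit 43600, nat_lit 88400, nat_lit 1271250, nat_lit 1271250, [nat_lit 631250, nat_lit 1271250, nat_lit 1271250], [nat_lit 90, nat_lit 40, nat_lit 20, nat_lit 40]⟩, C1.Rw.none,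
 ⟨nat_lit 6461, nat_lit 6520, ⟨.ofNat (nat_lit 117294), .ofNat (nat_lit 134132), .ofNat (nat_lit 122644), .ofNat (nat_lit 139482), .ofNat (nat_lit 120076), .ofNat (nat_lit 136797), .ofNat (nat_lit 125423), .ofNat (nat_lit 142144)⟩, ⟨.ofNat (nat_lit 475792), .ofNat (nat_lit 509467), .ofNat (nat_lit 497190), .ofNat (nat_lit 530865), .ofNat (nat_lit 474720), .ofNat (nat_lit 508162), .ofNat (nat_lit 496108), .ofNat (nat_lit 529550)⟩⟩, [⟨nat_lit 0, nat_lit 100, nat_lit 99, nat_lit 29, nat_lit 293638090⟩, ⟨nat_lit 16, nat_lit 100, nat_lit 93, nat_lit 53, nat_lit 10752688172⟩, ⟨nat_lit 16, nat_lit 100, nat_lit 89, nat_lit 61, nat_lit 11235955056⟩, ⟨nat_lit 4, nat_lit 93, nat_lit 100, nat_lit 53, nat_lit 10752688172⟩]⟩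
noncomputable def p028_l52 : Lf2 := ⟨nat_lit 0, nat_lit 1, [nat_lit 19, nat_lit 5, nat_lit 5, nat_lit 20], true, nat_lit 280, nat_lit 296, nat_lit 0, nat_lit 200, ⟨nat_lit 0, nat_lit 0, nat_lit 1000, nat_lit 5, nat_lit 54, nat_lit 1000, nat_lit 201, nat_lit 1000, nat_lit 13444, nat_lit 242, nat_lit 28017, nat_lit 256, nat_lit 51736550, nat_lit 0, nat_lit 0, nat_lit 3221272, false, false⟩,
 nat_lit 0, nat_lit 7481, nat_lit 0, nat_lit 3412, nat_lit 3767, nat_lit 0, nat_lit 1776, nat_lit 0, nat_lit 0, nat_lit 0, nat_lit 0, nat_lit 0, nat_lit 0, nat_lit 0, nat_lit 9, nat_lit 298300, nat_lit 0, nat_lit 0, [(nat_lit 3, [(nat_lit 4, nat_lit 678), (nat_lit 5, nat_lit 322)])],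
 ⟨p028_k25, nat_lit 0, nat_lit 0, nat_lit 0, nat_lit 0, nat_lit 102765, [nat_lit 1553423201, nat_lit 750343200, nat_lit 14110400], [], [nat_lit 16864263472, nat_lit 17026127401, nat_lit 16499889467, nat_lit 16638134943, nat_lit 18185123847, nat_lit 18338668242, nat_lit 17705116644, nat_lit 17858953628], nat_lit 1271250, nat_lit 1271250, nat_lit 43600, nat_lit 88400, nat_lit 1271250, nat_lit 1271250, [nat_lit 631250, nat_lit 1271250, nat_lit 1271250], [nat_lit 90, nat_lit 40, nat_lit 20, nat_lit 40]⟩, C1.Rw.none,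
 ⟨nat_lit 6461, nat_lit 6520, ⟨.ofNat (nat_lit 122644), .ofNat (nat_lit 139482), .ofNat (nat_lit 127994), .ofNat (nat_lit 144831), .ofNat (nat_lit 125423), .ofNat (nat_lit 142144), .ofNat (nat_lit 130770), .ofNat (nat_lit 147491)⟩, ⟨.ofNat (nat_lit 475792), .ofNat (nat_lit 509467), .ofNat (nat_lit 497190), .ofNat (nat_lit 530865), .ofNat (nat_lit 474720), .ofNat (nat_lit 508162), .ofNat (nat_lit 496108), .ofNat (nat_lit 529550)⟩⟩, [⟨nat_lit 0, nat_lit 100, nat_lit 100, nat_lit 31, nat_lit 336575210⟩, ⟨nat_lit 4, nat_lit 93, nat_lit 100, nat_lit 53, nat_lit 728422530⟩]⟩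
noncomputable def p028_l53 : Lf2 := ⟨nat_lit 0, nat_lit 1, [nat_lit 19, nat_lit 5, nat_lit 5, nat_lit 20], false, nat_lit 280, nat_lit 296, nat_lit 0, nat_lit 200, ⟨nat_lit 488, nat_lit 0, nat_lit 512, nat_lit 5, nat_lit 56, nat_lit 512, nat_lit 201, nat_lit 512, nat_lit 13444, nat_lit 242, nat_lit 29400, nat_lit 257, nat_lit 51654398, nat_lit 0, nat_lit 0, nat_lit 3246316, false, false⟩,
 nat_lit 11418, nat_lit 0, nat_lit 0, nat_lit 18537, nat_lit 5750, nat_lit 5750, nat_lit 5188, nat_lit 0, nat_lit 0, nat_lit 810, nat_lit 0, nat_lit 0, nat_lit 0, nat_lit 16130215743445, nat_lit 0, nat_lit 124425, nat_lit 0, nat_lit 0, [(nat_lit 3, [(nat_lit 3, nat_lit 65), (nat_lit 4, nat_lit 447)])],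
 ⟨p028_k25, nat_lit 0, nat_lit 0, nat_lit 0, nat_lit 0, nat_lit 116930, [nat_lit 3174102001, nat_lit 2947292000, nat_lit 3376240800], [], [nat_lit 18553660650, nat_lit 18717849211, nat_lit 17957068051, nat_lit 18110549446, nat_lit 20204525541, nat_lit 20385992018, nat_lit 19429461581, nat_lit 19611460607], nat_lit 1271250, nat_lit 1271250, nat_lit 43600, nat_lit 88400, nat_lit 1271250, nat_lit 1271250, [nat_lit 631250, nat_lit 1271250, nat_lit 1271250], [nat_lit 90, nat_lit 40, nat_lit 20, nat_lit 40]⟩, ⟨p028_k26, nat_lit 0, nat_lit 0, nat_lit 279, nat_lit 0, nat_lit 116930, [nat_lit 3050000000, nat_lit 3888384000], [], [nat_lit 11500935936, nat_lit 11674924119, nat_lit 10684316538, nat_lit 10852824998, nat_lit 8804752132, nat_lit 8363444519, nat_lit 8751134681, nat_lit 8311129444], nat_lit 1271250, nat_lit 1271250, nat_lit 43600, nat_lit 88400, nat_lit 0, nat_lit 1412500, [nat_lit 1412500, nat_lit 1271250], [nat_lit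 26, nat_lit 40, nat_lit 20, nat_lit 80, nat_lit 2, nat_lit 345, nat_lit 125, nat_lit 12]⟩,
 ⟨nat_lit 6461, nat_lit 6520, ⟨.ofNat (nat_lit 127994), .ofNat (nat_lit 144831), .ofNat (nat_lit 131203), .ofNat (nat_lit 148041), .ofNat (nat_lit 130770), .ofNat (nat_lit 147491), .ofNat (nat_lit 133978), .ofNat (nat_lit 150699)⟩, ⟨.ofNat (nat_lit 475792), .ofNat (nat_lit 509467), .ofNat (nat_lit 497190), .ofNat (nat_lit 530865), .ofNat (nat_lit 474720), .ofNat (nat_lit 508162), .ofNat (nat_lit 496108), .ofNat (nat_lit 529550)⟩⟩, [⟨nat_lit 0, nat_lit 100, nat_lit 100, nat_lit 32, nat_lit 880212044⟩, ⟨nat_lit 4, nat_lit 93, nat_lit 100, nat_lit 53, nat_lit 2023182113⟩]⟩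
noncomputable def p028_l54 : Lf2 := ⟨nat_lit 0, nat_lit 1, [nat_lit 19, nat_lit 5, nat_lit 5, nat_lit 20], true, nat_lit 280, nat_lit 296, nat_lit 0, nat_lit 208, ⟨nat_lit 0, nat_lit 0, nat_lit 1000, nat_lit 5, nat_lit 59, nat_lit 1000, nat_lit 201, nat_lit 1000, nat_lit 13444, nat_lit 242, nat_lit 32267, nat_lit 259, nat_lit 51512888, nat_lit 0, nat_lit 0, nat_lit 3288609, false, false⟩,
 nat_lit 0, nat_lit 7623, nat_lit 0, nat_lit 2995, nat_lit 3839, nat_lit 0, nat_lit 1793, nat_lit 0, nat_lit 0, nat_lit 0, nat_lit 0, nat_lit 0, nat_lit 0, nat_lit 27159983164538, nat_lit 9, nat_lit 284950, nat_lit 0, nat_lit 0, [(nat_lit 3, [(nat_lit 4, nat_lit 767), (nat_lit 5, nat_lit 233)])],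
 ⟨p028_k25, nat_lit 0, nat_lit 0, nat_lit 0, nat_lit 0, nat_lit 116930, [nat_lit 1623234801, nat_lit 743614800, nat_lit 19165600], [], [nat_lit 16470700037, nat_lit 16599424904, nat_lit 16314763076, nat_lit 16445979291, nat_lit 17767725235, nat_lit 17922584744, nat_lit 17522365081, nat_lit 17677375241], nat_lit 1271250, nat_lit 1271250, nat_lit 88400, nat_lit 111251, nat_lit 1271250, nat_lit 1271250, [nat_lit 631250, nat_lit 1271250, nat_lit 1271250], [nat_lit 90, nat_lit 40, nat_lit 20, nat_lit 40]⟩, C1.Rw.none,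
 ⟨nat_lit 6461, nat_lit 6520, ⟨.ofNat (nat_lit 134132), .ofNat (nat_lit 142551), .ofNat (nat_lit 148041), .ofNat (nat_lit 156460), .ofNat (nat_lit 136797), .ofNat (nat_lit 145158), .ofNat (nat_lit 150699), .ofNat (nat_lit 159060)⟩, ⟨.ofNat (nat_lit 475792), .ofNat (nat_lit 509467), .ofNat (nat_lit 497190), .ofNat (nat_lit 530865), .ofNat (nat_lit 474720), .ofNat (nat_lit 508162), .ofNat (nat_lit 496108), .ofNat (nat_lit 529550)⟩⟩, [⟨nat_lit 4, nat_lit 93, nat_lit 100, nat_lit 53, nat_lit 733306640⟩]⟩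
noncomputable def p028_l55 : Lf2 := ⟨nat_lit 0, nat_lit 1, [nat_lit 19, nat_lit 5, nat_lit 5, nat_lit 20], true, nat_lit 280, nat_lit 292, nat_lit 0, nat_lit 208, ⟨nat_lit 0, nat_lit 0, nat_lit 1000, nat_lit 5, nat_lit 54, nat_lit 1000, nat_lit 199, nat_lit 1000, nat_lit 21299, nat_lit 248, nat_lit 26667, nat_lit 255, nat_lit 51955825, nat_lit 0, nat_lit 0, nat_lit 3197203, false, false⟩,
 nat_lit 0, nat_lit 7249, nat_lit 0, nat_lit 3424, nat_lit 3706, nat_lit 0, nat_lit 1325, nat_lit 0, nat_lit 0, nat_lit 0, nat_lit 0, nat_lit 0, nat_lit 0, nat_lit 0, nat_lit 9, nat_lit 313000, nat_lit 0, nat_lit 0, [(nat_lit 3, [(nat_lit 4, nat_lit 580), (nat_lit 5, nat_lit 420)])],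
 ⟨p028_k27, nat_lit 0, nat_lit 0, nat_lit 0, nat_lit 0, nat_lit 110469, [nat_lit 1476552001, nat_lit 757752000, nat_lit 8544000], [], [nat_lit 17209203044, nat_lit 17316246096, nat_lit 16494231404, nat_lit 16586077770, nat_lit 18185407326, nat_lit 18288592224, nat_lit 17299126798, nat_lit 17387731900], nat_lit 1271250, nat_lit 1271250, nat_lit 21650, nat_lit 111251, nat_lit 1271250, nat_lit 1271250, [nat_lit 631250, nat_lit 1271250, nat_lit 1271250], [nat_lit 90, nat_lit 40, nat_lit 20, nat_lit 40]⟩, C1.Rw.none,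
 ⟨nat_lit 6422, nat_lit 6462, ⟨.ofNat (nat_lit 111715), .ofNat (nat_lit 145158), .ofNat (nat_lit 122409), .ofNat (nat_lit 155852), .ofNat (nat_lit 113598), .ofNat (nat_lit 146886), .ofNat (nat_lit 124289), .ofNat (nat_lit 157577)⟩, ⟨.ofNat (nat_lit 474720), .ofNat (nat_lit 499802), .ofNat (nat_lit 496108), .ofNat (nat_lit 521189), .ofNat (nat_lit 474005), .ofNat (nat_lit 498971), .ofNat (nat_lit 495387), .ofNat (nat_lit 520353)⟩⟩, [⟨nat_lit 0, nat_lit 100, nat_lit 100, nat_lit 32, nat_lit 330020032⟩, ⟨nat_lit 4, nat_lit 94, nat_lit 100, nat_lit 53, nat_lit 715682365⟩]⟩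
noncomputable def p028_l56 : Lf2 := ⟨nat_lit 0, nat_lit 1, [nat_lit 19, nat_lit 5, nat_lit 5, nat_lit 20], true, nat_lit 280, nat_lit 292, nat_lit 0, nat_lit 208, ⟨nat_lit 0, nat_lit 0, nat_lit 1000, nat_lit 5, nat_lit 58, nat_lit 1000, nat_lit 199, nat_lit 1000, nat_lit 21299, nat_lit 248, nat_lit 32267, nat_lit 259, nat_lit 51749533, nat_lit 0, nat_lit 0, nat_lit 3259285, false, false⟩,
 nat_lit 0, nat_lit 7078, nat_lit 0, nat_lit 1463, nat_lit 3619, nat_lit 0, nat_lit 1286, nat_lit 0, nat_lit 0, nat_lit 0, nat_lit 0, nat_lit 0, nat_lit 0, nat_lit 0, nat_lit 9, nat_lit 327100, nat_lit 0, nat_lit 0, [(nat_lit 3, [(nat_lit 4, nat_lit 486), (nat_lit 5, nat_lit 514)])],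
 ⟨p028_k27, nat_lit 0, nat_lit 0, nat_lit 0, nat_lit 0, nat_lit 119643, [nat_lit 1402818401, nat_lit 764858400, nat_lit 3204800], [], [nat_lit 17065830734, nat_lit 17157217723, nat_lit 16545870377, nat_lit 16636658505, nat_lit 17864762109, nat_lit 17966802200, nat_lit 17341413526, nat_lit 17429368674], nat_lit 1271250, nat_lit 1271250, nat_lit 43600, nat_lit 111251, nat_lit 1271250, nat_lit 1271250, [nat_lit 631250, nat_lit 1271250, nat_lit 1271250], [nat_lit 90, nat_lit 40, nat_lit 20, nat_lit 40]⟩, C1.Rw.none,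
 ⟨nat_lit 6422, nat_lit 6462, ⟨.ofNat (nat_lit 130770), .ofNat (nat_lit 155852), .ofNat (nat_lit 132909), .ofNat (nat_lit 157990), .ofNat (nat_lit 132611), .ofNat (nat_lit 157577), .ofNat (nat_lit 134749), .ofNat (nat_lit 159715)⟩, ⟨.ofNat (nat_lit 474720), .ofNat (nat_lit 499802), .ofNat (nat_lit 496108), .ofNat (nat_lit 521189), .ofNat (nat_lit 474005), .ofNat (nat_lit 498971), .ofNat (nat_lit 495387), .ofNat (nat_lit 520353)⟩⟩, [⟨nat_lit 0, nat_lit 100, nat_lit 100, nat_lit 33, nat_lit 325939312⟩, ⟨nat_lit 4, nat_lit 94, nat_lit 100, nat_lit 53, nat_lit 575812652⟩]⟩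
noncomputable def p028_l57 : Lf2 := ⟨nat_lit 0, nat_lit 1, [nat_lit 19, nat_lit 5, nat_lit 5, nat_lit 20], false, nat_lit 280, nat_lit 292, nat_lit 0, nat_lit 208, ⟨nat_lit 476, nat_lit 0, nat_lit 524, nat_lit 5, nat_lit 59, nat_lit 524, nat_lit 199, nat_lit 524, nat_lit 21299, nat_lit 248, nat_lit 32267, nat_lit 259, nat_lit 51717678, nat_lit 0, nat_lit 0, nat_lit 3268675, false, false⟩,
 nat_lit 11142, nat_lit 0, nat_lit 0, nat_lit 12319, nat_lit 5697, nat_lit 5668, nat_lit 3934, nat_lit 0, nat_lit 0, nat_lit 681, nat_lit 0, nat_lit 0, nat_lit 0, nat_lit 0, nat_lit 0, nat_lit 127700, nat_lit 0, nat_lit 0, [(nat_lit 3, [(nat_lit 3, nat_lit 60), (nat_lit 4, nat_lit 464)])],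
 ⟨p028_k27, nat_lit 0, nat_lit 0, nat_lit 0, nat_lit 0, nat_lit 124229, [nat_lit 3085474001, nat_lit 2888730001, nat_lit 3289075600], [], [nat_lit 18676328036, nat_lit 18801418751, nat_lit 17782156379, nat_lit 17884143116, nat_lit 19916613183, nat_lit 20039169407, nat_lit 18787000963, nat_lit 18890480309], nat_lit 1271250, nat_lit 1271250, nat_lit 43600, nat_lit 111251, nat_lit 1271250, nat_lit 1271250, [nat_lit 631250, nat_lit 1271250, nat_lit 1271250], [nat_lit 90, nat_lit 40, nat_lit 20, nat_lit 40]⟩, ⟨p028_k28, nat_lit 0, nat_lit 0, nat_lit 279, nat_lit 0, nat_lit 124937, [nat_lit 2975000000, nat_lit 3792768000], [], [nat_lit 11430706008, nat_lit 11485726106, nat_lit 10223099208, nat_lit 10278368971, nat_lit 8457675411, nat_lit 8313099331, nat_lit 8394498051, nat_lit 8250560098], nat_lit 1271250, nat_lit 1271250, nat_lit 43600, nat_lit 111251, nat_lit 0, nat_lit 1469000, [nat_lit 1412500, nat_lit 1271250], [nat_lit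 26, nat_lit 40, nat_lit 20, nat_lit 80, nat_lit 2, nat_lit 345, nat_lit 125, nat_lit 12]⟩,
 ⟨nat_lit 6422, nat_lit 6462, ⟨.ofNat (nat_lit 132909), .ofNat (nat_lit 157990), .ofNat (nat_lit 133978), .ofNat (nat_lit 159060), .ofNat (nat_lit 134749), .ofNat (nat_lit 159715), .ofNat (nat_lit 135818), .ofNat (nat_lit 160785)⟩, ⟨.ofNat (nat_lit 474720), .ofNat (nat_lit 499802), .ofNat (nat_lit 496108), .ofNat (nat_lit 521189), .ofNat (nat_lit 474005), .ofNat (nat_lit 498971), .ofNat (nat_lit 495387), .ofNat (nat_lit 520353)⟩⟩, [⟨nat_lit 0, nat_lit 100, nat_lit 100, nat_lit 33, nat_lit 853514645⟩, ⟨nat_lit 4, nat_lit 94, nat_lit 100, nat_lit 53, nat_lit 1562892303⟩]⟩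
noncomputable def p028_l58 : Lf2 := ⟨nat_lit 0, nat_lit 1, [nat_lit 19, nat_lit 5, nat_lit 5, nat_lit 20], false, nat_lit 280, nat_lit 292, nat_lit 0, nat_lit 208, ⟨nat_lit 874, nat_lit 0, nat_lit 126, nat_lit 5, nat_lit 59, nat_lit 126, nat_lit 199, nat_lit 126, nat_lit 21299, nat_lit 248, nat_lit 33750, nat_lit 260, nat_lit 51685666, nat_lit 0, nat_lit 0, nat_lit 3278060, false, false⟩,
 nat_lit 20173, nat_lit 0, nat_lit 0, nat_lit 15825, nat_lit 7327, nat_lit 10315, nat_lit 6028, nat_lit 0, nat_lit 0, nat_lit 1241, nat_lit 0, nat_lit 0, nat_lit 0, nat_lit 24276767182845, nat_lit 0, nat_lit 24570, nat_lit 0, nat_lit 0, [(nat_lit 3, [(nat_lit 3, nat_lit 126)])],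
 ⟨p028_k27, nat_lit 0, nat_lit 0, nat_lit 0, nat_lit 0, nat_lit 133520, [nat_lit 4476155000, nat_lit 4832314200, nat_lit 6177978200], [], [nat_lit 20088654171, nat_lit 20209825146, nat_lit 18899708131, nat_lit 19013208165, nat_lit 21526411445, nat_lit 21664750998, nat_lit 20071459471, nat_lit 20187116123], nat_lit 1271250, nat_lit 1271250, nat_lit 43600, nat_lit 111251, nat_lit 1271250, nat_lit 1271250, [nat_lit 631250, nat_lit 1271250, nat_lit 1271250], [nat_lit 90, nat_lit 40, nat_lit 20, nat_lit 40]⟩, ⟨p028_k29, nat_lit 0, nat_lit 0, nat_lit 279, nat_lit 0, nat_lit 133520, [nat_lit 5462500000, nat_lit 6964032000], [], [nat_lit 21006695374, nat_lit 21207513715, nat_lit 18810456844, nat_lit 19012182417, nat_lit 15384391684, nat_lit 15345823559, nat_lit 15272674175, nat_lit 14748778625], nat_lit 1271250, nat_lit 1271250, nat_lit 43600, nat_lit 111251, nat_lit 0, nat_lit 1469000, [nat_lit 1412500, nat_lit 1271250],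 [nat_lit 26, nat_lit 40, nat_lit 20, nat_lit 80, nat_lit 2, nat_lit 345, nat_lit 125, nat_lit 12]⟩,
 ⟨nat_lit 6422, nat_lit 6462, ⟨.ofNat (nat_lit 133978), .ofNat (nat_lit 159060), .ofNat (nat_lit 136117), .ofNat (nat_lit 161199), .ofNat (nat_lit 135818), .ofNat (nat_lit 160785), .ofNat (nat_lit 137956), .ofNat (nat_lit 162923)⟩, ⟨.ofNat (nat_lit 474720), .ofNat (nat_lit 499802), .ofNat (nat_lit 496108), .ofNat (nat_lit 521189), .ofNat (nat_lit 474005), .ofNat (nat_lit 498971), .ofNat (nat_lit 495387), .ofNat (nat_lit 520353)⟩⟩, [⟨nat_lit 0, nat_lit 100, nat_lit 100, nat_lit 34, nat_lit 1284109335⟩, ⟨nat_lit 4, nat_lit 94, nat_lit 100, nat_lit 53, nat_lit 2477007471⟩]⟩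
noncomputable def p028_l59 : Lf2 := ⟨nat_lit 0, nat_lit 2, [nat_lit 10, nat_lit 5, nat_lit 5, nat_lit 20], true, nat_lit 280, nat_lit 296, nat_lit 0, nat_lit 208, ⟨nat_lit 0, nat_lit 0, nat_lit 1000, nat_lit 5, nat_lit 54, nat_lit 1000, nat_lit 201, nat_lit 1000, nat_lit 13441, nat_lit 242, nat_lit 28017, nat_lit 256, nat_lit 51735628, nat_lit 0, nat_lit 0, nat_lit 3224895, false, false⟩,
 nat_lit 0, nat_lit 8193, nat_lit 0, nat_lit 463906, nat_lit 4126, nat_lit 0, nat_lit 544, nat_lit 0, nat_lit 0, nat_lit 0, nat_lit 0, nat_lit 0, nat_lit 0, nat_lit 400000000000000, nat_lit 26, nat_lit 249615, nat_lit 0, nat_lit 0, [(nat_lit 3, [(nat_lit 3, nat_lit 7), (nat_lit 4, nat_lit 993)])],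
 ⟨p028_k30, nat_lit 0, nat_lit 0, nat_lit 0, nat_lit 0, nat_lit 84784, [nat_lit 2084598001, nat_lit 1031910400, nat_lit 406545601, nat_lit 17536000], [], [nat_lit 17501980424, nat_lit 17710379633, nat_lit 16688684780, nat_lit 16896977198, nat_lit 18817425934, nat_lit 19081478201, nat_lit 17750578068, nat_lit 18015750438], nat_lit 1271250, nat_lit 1271250, nat_lit 21650, nat_lit 111251, nat_lit 1271250, nat_lit 1271250, [nat_lit 631250, nat_lit 1271250, nat_lit 1271250, nat_lit 1271250], [nat_lit 139, nat_lit 40, nat_lit 20, nat_lit 40]⟩, C1.Rw.none,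
 ⟨nat_lit 6422, nat_lit 6520, ⟨.ofNat (nat_lit 108876), .ofNat (nat_lit 142551), .ofNat (nat_lit 124924), .ofNat (nat_lit 158599), .ofNat (nat_lit 113598), .ofNat (nat_lit 146886), .ofNat (nat_lit 129634), .ofNat (nat_lit 162923)⟩, ⟨.ofNat (nat_lit 475792), .ofNat (nat_lit 509466), .ofNat (nat_lit 497190), .ofNat (nat_lit 530864), .ofNat (nat_lit 474005), .ofNat (nat_lit 507293), .ofNat (nat_lit 495386), .ofNat (nat_lit 528674)⟩⟩, [⟨nat_lit 0, nat_lit 100, nat_lit 100, nat_lit 35, nat_lit 360098686⟩, ⟨nat_lit 16, nat_lit 100, nat_lit 94, nat_lit 53, nat_lit 10638297872⟩, ⟨nat_lit 16, nat_lit 100, nat_lit 89, nat_lit 61, nat_lit 11235955056⟩, ⟨nat_lit 4, nat_lit 94, nat_lit 100, nat_lit 53, nat_lit 10638297872⟩]⟩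
noncomputable def p028_l60 : Lf2 := ⟨nat_lit 0, nat_lit 1, [nat_lit 19, nat_lit 5, nat_lit 5, nat_lit 20], true, nat_lit 280, nat_lit 292, nat_lit 0, nat_lit 208, ⟨nat_lit 0, nat_lit 0, nat_lit 1000, nat_lit 5, nat_lit 55, nat_lit 1000, nat_lit 199, nat_lit 1000, nat_lit 19226, nat_lit 248, nat_lit 28017, nat_lit 256, nat_lit 51952204, nat_lit 0, nat_lit 0, nat_lit 3206306, false, false⟩,
 nat_lit 0, nat_lit 7152, nat_lit 0, nat_lit 3314, nat_lit 3693, nat_lit 0, nat_lit 1130, nat_lit 0, nat_lit 0, nat_lit 0, nat_lit 0, nat_lit 0, nat_lit 0, nat_lit 0, nat_lit 9, nat_lit 313900, nat_lit 0, nat_lit 0, [(nat_lit 3, [(nat_lit 4, nat_lit 574), (nat_lit 5, nat_lit 426)])],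
 ⟨p028_k9, nat_lit 0, nat_lit 0, nat_lit 0, nat_lit 0, nat_lit 123682, [nat_lit 1471845601, nat_lit 758205600, nat_lit 8203200], [], [nat_lit 17305095804, nat_lit 17465327945, nat_lit 16594048250, nat_lit 16730957055, nat_lit 18274661659, nat_lit 18429250964, nat_lit 17393345211, nat_lit 17526107186], nat_lit 1271250, nat_lit 1271250, nat_lit 21650, nat_lit 111251, nat_lit 1271250, nat_lit 1271250, [nat_lit 631250, nat_lit 1271250, nat_lit 1271250], [nat_lit 90, nat_lit 40, nat_lit 20, nat_lit 40]⟩, C1.Rw.none,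
 ⟨nat_lit 6363, nat_lit 6423, ⟨.ofNat (nat_lit 113598), .ofNat (nat_lit 146886), .ofNat (nat_lit 124289), .ofNat (nat_lit 157577), .ofNat (nat_lit 116408), .ofNat (nat_lit 149466), .ofNat (nat_lit 127094), .ofNat (nat_lit 160153)⟩, ⟨.ofNat (nat_lit 474005), .ofNat (nat_lit 498971), .ofNat (nat_lit 495387), .ofNat (nat_lit 520353), .ofNat (nat_lit 472932), .ofNat (nat_lit 497726), .ofNat (nat_lit 494305), .ofNat (nat_lit 519099)⟩⟩, [⟨nat_lit 0, nat_lit 100, nat_lit 99, nat_lit 31, nat_lit 332207807⟩, ⟨nat_lit 16, nat_lit 100, nat_lit 95, nat_lit 54, nat_lit 700013238⟩]⟩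
noncomputable def p028_l61 : Lf2 := ⟨nat_lit 0, nat_lit 1, [nat_lit 19, nat_lit 5, nat_lit 5, nat_lit 20], true, nat_lit 280, nat_lit 292, nat_lit 0, nat_lit 188, ⟨nat_lit 0, nat_lit 0, nat_lit 1000, nat_lit 5, nat_lit 57, nat_lit 1000, nat_lit 199, nat_lit 1000, nat_lit 19226, nat_lit 248, nat_lit 30817, nat_lit 258, nat_lit 51845524, nat_lit 0, nat_lit 0, nat_lit 3238424, false, false⟩,
 nat_lit 0, nat_lit 7124, nat_lit 0, nat_lit 147, nat_lit 3679, nat_lit 0, nat_lit 1140, nat_lit 0, nat_lit 0, nat_lit 0, nat_lit 0, nat_lit 0, nat_lit 0, nat_lit 0, nat_lit 9, nat_lit 304000, nat_lit 0, nat_lit 0, [(nat_lit 3, [(nat_lit 4, nat_lit 640), (nat_lit 5, nat_lit 360)])],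
 ⟨p028_k9, nat_lit 0, nat_lit 0, nat_lit 0, nat_lit 0, nat_lit 160213, [nat_lit 1523616001, nat_lit 753216000, nat_lit 11952000], [], [nat_lit 17126532469, nat_lit 17264342490, nat_lit 16949794784, nat_lit 17087159035, nat_lit 18026639559, nat_lit 18181163381, nat_lit 17793619604, nat_lit 17948280451], nat_lit 1271250, nat_lit 1271250, nat_lit 43600, nat_lit 65850, nat_lit 1271250, nat_lit 1271250, [nat_lit 631250, nat_lit 1271250, nat_lit 1271250], [nat_lit 90, nat_lit 40, nat_lit 20, nat_lit 40]⟩, C1.Rw.none,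
 ⟨nat_lit 6363, nat_lit 6423, ⟨.ofNat (nat_lit 132611), .ofNat (nat_lit 140933), .ofNat (nat_lit 141164), .ofNat (nat_lit 149486), .ofNat (nat_lit 135359), .ofNat (nat_lit 143624), .ofNat (nat_lit 143908), .ofNat (nat_lit 152173)⟩, ⟨.ofNat (nat_lit 474005), .ofNat (nat_lit 498971), .ofNat (nat_lit 495387), .ofNat (nat_lit 520353), .ofNat (nat_lit 472932), .ofNat (nat_lit 497726), .ofNat (nat_lit 494305), .ofNat (nat_lit 519099)⟩⟩, [⟨nat_lit 0, nat_lit 100, nat_lit 100, nat_lit 35, nat_lit 1645415561⟩, ⟨nat_lit 16, nat_lit 100, nat_lit 91, nat_lit 61, nat_lit 533506402⟩]⟩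
noncomputable def p028_l62 : Lf2 := ⟨nat_lit 0, nat_lit 1, [nat_lit 19, nat_lit 5, nat_lit 5, nat_lit 20], true, nat_lit 280, nat_lit 292, nat_lit 0, nat_lit 200, ⟨nat_lit 0, nat_lit 0, nat_lit 1000, nat_lit 5, nat_lit 59, nat_lit 1000, nat_lit 199, nat_lit 1000, nat_lit 19226, nat_lit 248, nat_lit 32267, nat_lit 259, nat_lit 51734052, nat_lit 0, nat_lit 0, nat_lit 3271357, false, false⟩,
 nat_lit 0, nat_lit 7079, nat_lit 0, nat_lit 148, nat_lit 3656, nat_lit 0, nat_lit 1131, nat_lit 0, nat_lit 0, nat_lit 0, nat_lit 0, nat_lit 0, nat_lit 0, nat_lit 0, nat_lit 9, nat_lit 307900, nat_lit 0, nat_lit 0, [(nat_lit 3, [(nat_lit 4, nat_lit 614), (nat_lit 5, nat_lit 386)])],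
 ⟨p028_k9, nat_lit 0, nat_lit 0, nat_lit 0, nat_lit 0, nat_lit 137217, [nat_lit 1503221601, nat_lit 755181600, nat_lit 10475200], [], [nat_lit 16960029427, nat_lit 17097542024, nat_lit 16816222684, nat_lit 16945500189, nat_lit 17772390678, nat_lit 17926716086, nat_lit 17581712422, nat_lit 17714065024], nat_lit 1271250, nat_lit 1271250, nat_lit 65850, nat_lit 88400, nat_lit 1271250, nat_lit 1271250, [nat_lit 631250, nat_lit 1271250, nat_lit 1271250], [nat_lit 90, nat_lit 40, nat_lit 20, nat_lit 40]⟩, C1.Rw.none,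
 ⟨nat_lit 6363, nat_lit 6423, ⟨.ofNat (nat_lit 140933), .ofNat (nat_lit 149255), .ofNat (nat_lit 144140), .ofNat (nat_lit 152462), .ofNat (nat_lit 143624), .ofNat (nat_lit 151888), .ofNat (nat_lit 146830), .ofNat (nat_lit 155094)⟩, ⟨.ofNat (nat_lit 474005), .ofNat (nat_lit 498971), .ofNat (nat_lit 495387), .ofNat (nat_lit 520353), .ofNat (nat_lit 472932), .ofNat (nat_lit 497726), .ofNat (nat_lit 494305), .ofNat (nat_lit 519099)⟩⟩, [⟨nat_lit 16, nat_lit 100, nat_lit 91, nat_lit 61, nat_lit 511816282⟩]⟩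
noncomputable def p028_l63 : Lf2 := ⟨nat_lit 0, nat_lit 1, [nat_lit 19, nat_lit 5, nat_lit 5, nat_lit 20], false, nat_lit 280, nat_lit 292, nat_lit 0, nat_lit 200, ⟨nat_lit 1000, nat_lit 0, nat_lit 0, nat_lit 0, nat_lit 0, nat_lit 0, nat_lit 0, nat_lit 0, nat_lit 0, nat_lit 0, nat_lit 0, nat_lit 0, nat_lit 0, nat_lit 0, nat_lit 0, nat_lit 0, false, false⟩,
 nat_lit 15384, nat_lit 0, nat_lit 7630, nat_lit 13809, nat_lit 7945, nat_lit 11767, nat_lit 5774, nat_lit 0, nat_lit 0, nat_lit 1667, nat_lit 0, nat_lit 0, nat_lit 0, nat_lit 0, nat_lit 0, nat_lit 0, nat_lit 0, nat_lit 0, [],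
 ⟨p028_k9, nat_lit 0, nat_lit 0, nat_lit 0, nat_lit 0, nat_lit 146240, [nat_lit 2637500000, nat_lit 5449500000, nat_lit 7089500000], [], [nat_lit 20194574557, nat_lit 20422863641, nat_lit 19761073994, nat_lit 19947851071, nat_lit 21731123868, nat_lit 21948001270, nat_lit 21181171937, nat_lit 21398441250], nat_lit 1271250, nat_lit 1271250, nat_lit 65850, nat_lit 88400, nat_lit 1271250, nat_lit 1271250, [nat_lit 631250, nat_lit 1271250, nat_lit 1271250], [nat_lit 90, nat_lit 40, nat_lit 20, nat_lit 40]⟩, ⟨p028_k29, nat_lit 0, nat_lit 0, nat_lit 278, nat_lit 0, nat_lit 147901, [nat_lit 6250000000, nat_lit 7968000000], [], [nat_lit 22857439203, nat_lit 23087085505, nat_lit 22022434417, nat_lit 22252425509, nat_lit 17098106029, nat_lit 16496922939, nat_lit 17052356583, nat_lit 16452061901], nat_lit 1271250, nat_lit 1271250, nat_lit 65850, nat_lit 88400, nat_lit 0, nat_lit 1412500, [nat_lit 1412500, nat_lit 1271250],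 [nat_lit 26, nat_lit 40, nat_lit 20, nat_lit 80, nat_lit 2, nat_lit 345, nat_lit 125, nat_lit 12]⟩,
 zbF0, [⟨nat_lit 0, nat_lit 100, nat_lit 100, nat_lit 35, nat_lit 376223963⟩, ⟨nat_lit 4, nat_lit 95, nat_lit 100, nat_lit 54, nat_lit 2518086001⟩]⟩
noncomputable def p028_l64 : Lf2 := ⟨nat_lit 0, nat_lit 1, [nat_lit 19, nat_lit 5, nat_lit 5, nat_lit 20], false, nat_lit 280, nat_lit 292, nat_lit 0, nat_lit 80, ⟨nat_lit 435, nat_lit 0, nat_lit 565, nat_lit 5, nat_lit 61, nat_lit 565, nat_lit 199, nat_lit 565, nat_lit 19226, nat_lit 248, nat_lit 35267, nat_lit 261, nat_lit 51626315, nat_lit 0, nat_lit 0, nat_lit 3302609, false, false⟩,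
 nat_lit 10756, nat_lit 0, nat_lit 0, nat_lit 5924, nat_lit 5555, nat_lit 5555, nat_lit 3185, nat_lit 0, nat_lit 0, nat_lit 322, nat_lit 0, nat_lit 0, nat_lit 0, nat_lit 20172547308512, nat_lit 0, nat_lit 138005, nat_lit 0, nat_lit 0, [(nat_lit 3, [(nat_lit 3, nat_lit 59), (nat_lit 4, nat_lit 506)])],
 ⟨p028_k9, nat_lit 0, nat_lit 0, nat_lit 0, nat_lit 0, nat_lit 160213, [nat_lit 3032178500, nat_lit 2688437300, nat_lit 2991595700], [], [nat_lit 18350334043, nat_lit 18498164520, nat_lit 18063744235, nat_lit 18214078421, nat_lit 19525161563, nat_lit 19707182527, nat_lit 19152768804, nat_lit 19335038879], nat_lit 1271250, nat_lit 1271250, nat_lit 65850, nat_lit 88400, nat_lit 1271250, nat_lit 1271250, [nat_lit 631250, nat_lit 1271250, nat_lit 1271250], [nat_lit 90, nat_lit 40, nat_lit 20, nat_lit 40]⟩, ⟨p028_k31, nat_lit 0, nat_lit 0, nat_lit 278, nat_lit 0, nat_lit 160213, [nat_lit 2718750000, nat_lit 3466080000],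 [], [nat_lit 10731061410, nat_lit 10889661014, nat_lit 10335455443, nat_lit 10494302749, nat_lit 9861452724, nat_lit 9448034736, nat_lit 9853159477, nat_lit 9440334430], nat_lit 1271250, nat_lit 1271250, nat_lit 65850, nat_lit 88400, nat_lit 0, nat_lit 490000, [nat_lit 1412500, nat_lit 1271250], [nat_lit 26, nat_lit 40, nat_lit 20, nat_lit 80, nat_lit 2, nat_lit 317, nat_lit 100, nat_lit 11]⟩,
 ⟨nat_lit 6363, nat_lit 6423, ⟨.ofNat (nat_lit 146279), .ofNat (nat_lit 154601), .ofNat (nat_lit 149486), .ofNat (nat_lit 157808), .ofNat (nat_lit 148967), .ofNat (nat_lit 157231), .ofNat (nat_lit 152173), .ofNat (nat_lit 160437)⟩, ⟨.ofNat (nat_lit 474005), .ofNat (nat_lit 498971), .ofNat (nat_lit 495387), .ofNat (nat_lit 520353), .ofNat (nat_lit 472932), .ofNat (nat_lit 497726), .ofNat (nat_lit 494305), .ofNat (nat_lit 519099)⟩⟩, [⟨nat_lit 0, nat_lit 100, nat_lit 100, nat_lit 37, nat_lit 793850952⟩, ⟨nat_lit 16, nat_lit 100,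 nat_lit 95, nat_lit 54, nat_lit 1106044792⟩]⟩
noncomputable def p028_l65 : Lf2 := ⟨nat_lit 0, nat_lit 1, [nat_lit 19, nat_lit 5, nat_lit 5, nat_lit 20], false, nat_lit 280, nat_lit 292, nat_lit 80, nat_lit 160, ⟨nat_lit 1000, nat_lit 0, nat_lit 0, nat_lit 0, nat_lit 0, nat_lit 0, nat_lit 0, nat_lit 0, nat_lit 0, nat_lit 0, nat_lit 0, nat_lit 0, nat_lit 0, nat_lit 0, nat_lit 0, nat_lit 0, false, false⟩,
 nat_lit 35511, nat_lit 0, nat_lit 0, nat_lit 0, nat_lit 7945, nat_lit 18340, nat_lit 5774, nat_lit 0, nat_lit 0, nat_lit 1379, nat_lit 0, nat_lit 0, nat_lit 0, nat_lit 40417424981410, nat_lit 0, nat_lit 0, nat_lit 0, nat_lit 0, [],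
 ⟨p028_k9, nat_lit 0, nat_lit 0, nat_lit 0, nat_lit 0, nat_lit 160213, [nat_lit 2637500000, nat_lit 5449500000, nat_lit 7089500000], [], [nat_lit 20194574557, nat_lit 20422863641, nat_lit 19761073994, nat_lit 19947851071, nat_lit 21731123868, nat_lit 21948001270, nat_lit 21181171937, nat_lit 21398441250], nat_lit 1271250, nat_lit 1271250, nat_lit 65850, nat_lit 88400, nat_lit 1271250, nat_lit 1271250, [nat_lit 631250, nat_lit 1271250, nat_lit 1271250], [nat_lit 90, nat_lit 40, nat_lit 20, nat_lit 40]⟩, ⟨p028_k31, nat_lit 0, nat_lit 0, nat_lit 238, nat_lit 0, nat_lit 160213, [nat_lit 6250000000, nat_lit 7968000000], [], [nat_lit 10889386578, nat_lit 11558680539, nat_lit 9428996754, nat_lit 10099734008, nat_lit 9489420895, nat_lit 10096835033, nat_lit 8131616188, nat_lit 8738659387], nat_lit 1271250, nat_lit 1271250, nat_lit 65850, nat_lit 88400, nat_lit 490000, nat_lit 1100001, [nat_lit 1412500, nat_lit 1271250],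 [nat_lit 26, nat_lit 40, nat_lit 20, nat_lit 80, nat_lit 2, nat_lit 345, nat_lit 125, nat_lit 12]⟩,
 zbF0, [⟨nat_lit 0, nat_lit 100, nat_lit 100, nat_lit 35, nat_lit 3067315155⟩, ⟨nat_lit 4, nat_lit 95, nat_lit 100, nat_lit 54, nat_lit 2576554312⟩]⟩
noncomputable def p028_l66 : Lf2 := ⟨nat_lit 0, nat_lit 1, [nat_lit 19, nat_lit 5, nat_lit 5, nat_lit 20], false, nat_lit 280, nat_lit 292, nat_lit 160, nat_lit 200, ⟨nat_lit 1000, nat_lit 0, nat_lit 0, nat_lit 0, nat_lit 0, nat_lit 0, nat_lit 0, nat_lit 0, nat_lit 0, nat_lit 0, nat_lit 0, nat_lit 0, nat_lit 0, nat_lit 0, nat_lit 0, nat_lit 0, false, false⟩,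
 nat_lit 30019, nat_lit 0, nat_lit 0, nat_lit 0, nat_lit 7911, nat_lit 15504, nat_lit 5742, nat_lit 0, nat_lit 0, nat_lit 1466, nat_lit 0, nat_lit 0, nat_lit 0, nat_lit 27668035579091, nat_lit 0, nat_lit 0, nat_lit 0, nat_lit 0, [],
 ⟨p028_k9, nat_lit 0, nat_lit 0, nat_lit 0, nat_lit 0, nat_lit 160213, [nat_lit 2637500000, nat_lit 5449500000, nat_lit 7089500000], [], [nat_lit 20223736469, nat_lit 20396643437, nat_lit 19792284892, nat_lit 19962359718, nat_lit 21699741977, nat_lit 21916123514, nat_lit 21152315993, nat_lit 21369087408], nat_lit 1271250, nat_lit 1271250, nat_lit 65850, nat_lit 88400, nat_lit 1271250, nat_lit 1271250, [nat_lit 631250, nat_lit 1271250, nat_lit 1271250], [nat_lit 90, nat_lit 40, nat_lit 20, nat_lit 40]⟩, ⟨p028_k31, nat_lit 0, nat_lit 0, nat_lit 198, nat_lit 0, nat_lit 160213, [nat_lit 6250000000, nat_lit 7968000000], [], [nat_lit 11035934050, nat_lit 11391145012, nat_lit 10138664693, nat_lit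 10494003458, nat_lit 14193291889, nat_lit 14668885763, nat_lit 13187449481, nat_lit 13541980316], nat_lit 1271250, nat_lit 1271250, nat_lit 65850, nat_lit 88400, nat_lit 1100001, nat_lit 1442500, [nat_lit 1412500, nat_lit 1271250], [nat_lit 26, nat_lit 40, nat_lit 20, nat_lit 80, nat_lit 2, nat_lit 345, nat_lit 125, nat_lit 11]⟩,
 zbF0, [⟨nat_lit 0, nat_lit 100, nat_lit 100, nat_lit 37, nat_lit 1048883626⟩, ⟨nat_lit 0, nat_lit 100, nat_lit 100, nat_lit 38, nat_lit 161331461⟩, ⟨nat_lit 4, nat_lit 95, nat_lit 100, nat_lit 54, nat_lit 2089876578⟩, ⟨nat_lit 23, nat_lit 90, nat_lit 100, nat_lit 37, nat_lit 1730791582⟩]⟩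
noncomputable def p028_l67 : Lf2 := ⟨nat_lit 0, nat_lit 1, [nat_lit 19, nat_lit 5, nat_lit 5, nat_lit 20], true, nat_lit 280, nat_lit 292, nat_lit 0, nat_lit 208, ⟨nat_lit 0, nat_lit 0, nat_lit 1000, nat_lit 5, nat_lit 64, nat_lit 1000, nat_lit 199, nat_lit 1000, nat_lit 19226, nat_lit 248, nat_lit 38400, nat_lit 263, nat_lit 51511221, nat_lit 0, nat_lit 0, nat_lit 3335398, false, false⟩,
 nat_lit 0, nat_lit 7189, nat_lit 0, nat_lit 17, nat_lit 3713, nat_lit 0, nat_lit 1129, nat_lit 0, nat_lit 0, nat_lit 0, nat_lit 0, nat_lit 0, nat_lit 0, nat_lit 22663639145958, nat_lit 9, nat_lit 303100, nat_lit 0, nat_lit 0, [(nat_lit 3, [(nat_lit 4, nat_lit 646), (nat_lit 5, nat_lit 354)])],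
 ⟨p028_k9, nat_lit 0, nat_lit 0, nat_lit 0, nat_lit 0, nat_lit 160213, [nat_lit 1528322401, nat_lit 752762400, nat_lit 12292800], [], [nat_lit 16767870308, nat_lit 16895070649, nat_lit 16618042140, nat_lit 16747860548, nat_lit 17589455594, nat_lit 17744751362, nat_lit 17379963994, nat_lit 17512950091], nat_lit 1271250, nat_lit 1271250, nat_lit 88400, nat_lit 111251, nat_lit 1271250, nat_lit 1271250, [nat_lit 631250, nat_lit 1271250, nat_lit 1271250], [nat_lit 90, nat_lit 40, nat_lit 20, nat_lit 40]⟩, C1.Rw.none,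
 ⟨nat_lit 6363, nat_lit 6423, ⟨.ofNat (nat_lit 149255), .ofNat (nat_lit 157577), .ofNat (nat_lit 157808), .ofNat (nat_lit 166130), .ofNat (nat_lit 151888), .ofNat (nat_lit 160153), .ofNat (nat_lit 160437), .ofNat (nat_lit 168702)⟩, ⟨.ofNat (nat_lit 474005), .ofNat (nat_lit 498971), .ofNat (nat_lit 495387), .ofNat (nat_lit 520353), .ofNat (nat_lit 472932), .ofNat (nat_lit 497726), .ofNat (nat_lit 494305), .ofNat (nat_lit 519099)⟩⟩, [⟨nat_lit 16, nat_lit 100, nat_lit 91, nat_lit 61, nat_lit 540205123⟩]⟩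
noncomputable def p028_l68 : Lf2 := ⟨nat_lit 0, nat_lit 2, [nat_lit 10, nat_lit 5, nat_lit 5, nat_lit 20], true, nat_lit 280, nat_lit 292, nat_lit 0, nat_lit 208, ⟨nat_lit 0, nat_lit 0, nat_lit 1000, nat_lit 5, nat_lit 56, nat_lit 1000, nat_lit 199, nat_lit 1000, nat_lit 19226, nat_lit 248, nat_lit 29400, nat_lit 257, nat_lit 51869027, nat_lit 0, nat_lit 0, nat_lit 3231400, false, false⟩,
 nat_lit 0, nat_lit 7115, nat_lit 0, nat_lit 464041, nat_lit 3674, nat_lit 0, nat_lit 1103, nat_lit 0, nat_lit 0, nat_lit 0, nat_lit 0, nat_lit 0, nat_lit 0, nat_lit 400000000000000, nat_lit 28, nat_lit 314950, nat_lit 0, nat_lit 0, [(nat_lit 3, [(nat_lit 4, nat_lit 567), (nat_lit 5, nat_lit 433)])],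
 ⟨p028_k11, nat_lit 0, nat_lit 0, nat_lit 0, nat_lit 0, nat_lit 111181, [nat_lit 1656354801, nat_lit 1100734800, nat_lit 425805601, nat_lit 8563600], [], [nat_lit 17321095530, nat_lit 17448267097, nat_lit 16616648577, nat_lit 16744160128, nat_lit 18254301604, nat_lit 18408616077, nat_lit 17401415528, nat_lit 17533964586], nat_lit 1271250, nat_lit 1271250, nat_lit 21650, nat_lit 111251, nat_lit 1271250, nat_lit 1271250, [nat_lit 631250, nat_lit 1271250, nat_lit 1271250, nat_lit 1271250], [nat_lit 139, nat_lit 40, nat_lit 20, nat_lit 40]⟩, C1.Rw.none,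
 ⟨nat_lit 6363, nat_lit 6423, ⟨.ofNat (nat_lit 113598), .ofNat (nat_lit 146886), .ofNat (nat_lit 132842), .ofNat (nat_lit 166130), .ofNat (nat_lit 116408), .ofNat (nat_lit 149466), .ofNat (nat_lit 135644), .ofNat (nat_lit 168702)⟩, ⟨.ofNat (nat_lit 474005), .ofNat (nat_lit 498971), .ofNat (nat_lit 495387), .ofNat (nat_lit 520353), .ofNat (nat_lit 472932), .ofNat (nat_lit 497726), .ofNat (nat_lit 494305), .ofNat (nat_lit 519099)⟩⟩, [⟨nat_lit 0, nat_lit 100, nat_lit 100, nat_lit 38, nat_lit 325814174⟩, ⟨nat_lit 16, nat_lit 100, nat_lit 95, nat_lit 54, nat_lit 10526315789⟩, ⟨nat_lit 16, nat_lit 100, nat_lit 91, nat_lit 61, nat_lit 10989010989⟩, ⟨nat_lit 4, nat_lit 95, nat_lit 100, nat_lit 54, nat_lit 10526315789⟩]⟩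
noncomputable def p028_l69 : Lf2 := ⟨nat_lit 0, nat_lit 2, [nat_lit 10, nat_lit 5, nat_lit 5, nat_lit 20], true, nat_lit 280, nat_lit 288, nat_lit 0, nat_lit 200, ⟨nat_lit 0, nat_lit 0, nat_lit 1000, nat_lit 5, nat_lit 58, nat_lit 1000, nat_lit 197, nat_lit 1000, nat_lit 26269, nat_lit 254, nat_lit 30817, nat_lit 258, nat_lit 52010886, nat_lit 0, nat_lit 0, nat_lit 3229211, false, false⟩,
 nat_lit 0, nat_lit 7152, nat_lit 0, nat_lit 0, nat_lit 3749, nat_lit 0, nat_lit 996, nat_lit 0, nat_lit 0, nat_lit 0, nat_lit 0, nat_lit 0, nat_lit 0, nat_lit 15721674327035, nat_lit 9, nat_lit 297100, nat_lit 0, nat_lit 0, [(nat_lit 3, [(nat_lit 4, nat_lit 686), (nat_lit 5, nat_lit 314)])],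
 ⟨p028_k32, nat_lit 0, nat_lit 0, nat_lit 0, nat_lit 0, nat_lit 178839, [nat_lit 1559698401, nat_lit 749738400, nat_lit 14564800], [], [nat_lit 17281253602, nat_lit 17389446491, nat_lit 16876763385, nat_lit 16969047188, nat_lit 17928411434, nat_lit 18033604859, nat_lit 17452649031, nat_lit 17558025401], nat_lit 1271250, nat_lit 1271250, nat_lit 43600, nat_lit 88400, nat_lit 1271250, nat_lit 1271250, [nat_lit 631250, nat_lit 1271250, nat_lit 1271250], [nat_lit 90, nat_lit 40, nat_lit 20, nat_lit 40]⟩, C1.Rw.none,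
 ⟨nat_lit 6324, nat_lit 6364, ⟨.ofNat (nat_lit 124673), .ofNat (nat_lit 141202), .ofNat (nat_lit 146046), .ofNat (nat_lit 162575), .ofNat (nat_lit 126498), .ofNat (nat_lit 142951), .ofNat (nat_lit 147866), .ofNat (nat_lit 164319)⟩, ⟨.ofNat (nat_lit 472932), .ofNat (nat_lit 489461), .ofNat (nat_lit 494305), .ofNat (nat_lit 510834), .ofNat (nat_lit 472216), .ofNat (nat_lit 488669), .ofNat (nat_lit 493584), .ofNat (nat_lit 510037)⟩⟩, [⟨nat_lit 0, nat_lit 100, nat_lit 100, nat_lit 40, nat_lit 403091470⟩, ⟨nat_lit 16, nat_lit 100, nat_lit 92, nat_lit 61, nat_lit 551209007⟩]⟩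
noncomputable def p028_l70 : Lf2 := ⟨nat_lit 0, nat_lit 2, [nat_lit 10, nat_lit 5, nat_lit 5, nat_lit 20], true, nat_lit 280, nat_lit 288, nat_lit 0, nat_lit 208, ⟨nat_lit 0, nat_lit 0, nat_lit 1000, nat_lit 5, nat_lit 63, nat_lit 1000, nat_lit 197, nat_lit 1000, nat_lit 26269, nat_lit 254, nat_lit 36817, nat_lit 262, nat_lit 51760122, nat_lit 0, nat_lit 0, nat_lit 3301720, false, false⟩,
 nat_lit 0, nat_lit 7136, nat_lit 0, nat_lit 0, nat_lit 3740, nat_lit 0, nat_lit 1005, nat_lit 0, nat_lit 0, nat_lit 0, nat_lit 0, nat_lit 0, nat_lit 0, nat_lit 21987397568132, nat_lit 9, nat_lit 297400, nat_lit 0, nat_lit 0, [(nat_lit 3, [(nat_lit 4, nat_lit 684), (nat_lit 5, nat_lit 316)])],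
 ⟨p028_k32, nat_lit 0, nat_lit 0, nat_lit 0, nat_lit 0, nat_lit 178839, [nat_lit 1558129601, nat_lit 749889600, nat_lit 14451200], [], [nat_lit 16886936470, nat_lit 16973742418, nat_lit 16738590869, nat_lit 16825336161, nat_lit 17445275678, nat_lit 17550561530, nat_lit 17233018910, nat_lit 17323037040], nat_lit 1271250, nat_lit 1271250, nat_lit 88400, nat_lit 111251, nat_lit 1271250, nat_lit 1271250, [nat_lit 631250, nat_lit 1271250, nat_lit 1271250], [nat_lit 90, nat_lit 40, nat_lit 20, nat_lit 40]⟩, C1.Rw.none,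
 ⟨nat_lit 6324, nat_lit 6364, ⟨.ofNat (nat_lit 141202), .ofNat (nat_lit 149466), .ofNat (nat_lit 162575), .ofNat (nat_lit 170839), .ofNat (nat_lit 142951), .ofNat (nat_lit 151177), .ofNat (nat_lit 164319), .ofNat (nat_lit 172545)⟩, ⟨.ofNat (nat_lit 472932), .ofNat (nat_lit 489461), .ofNat (nat_lit 494305), .ofNat (nat_lit 510834), .ofNat (nat_lit 472216), .ofNat (nat_lit 488669), .ofNat (nat_lit 493584), .ofNat (nat_lit 510037)⟩⟩, [⟨nat_lit 16, nat_lit 100, nat_lit 92, nat_lit 61, nat_lit 550311169⟩]⟩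
noncomputable def p028_l71 : Lf2 := ⟨nat_lit 0, nat_lit 2, [nat_lit 10, nat_lit 5, nat_lit 5, nat_lit 20], true, nat_lit 280, nat_lit 296, nat_lit 0, nat_lit 248, ⟨nat_lit 0, nat_lit 0, nat_lit 1000, nat_lit 5, nat_lit 69, nat_lit 1000, nat_lit 201, nat_lit 1000, nat_lit 13441, nat_lit 242, nat_lit 45067, nat_lit 267, nat_lit 50973089, nat_lit 0, nat_lit 0, nat_lit 3443924, false, false⟩,
 nat_lit 0, nat_lit 7791, nat_lit 0, nat_lit 2690, nat_lit 3923, nat_lit 0, nat_lit 1677, nat_lit 0, nat_lit 0, nat_lit 0, nat_lit 0, nat_lit 0, nat_lit 0, nat_lit 26793594087017, nat_lit 26, nat_lit 263800, nat_lit 0, nat_lit 0, [(nat_lit 3, [(nat_lit 4, nat_lit 908), (nat_lit 5, nat_lit 92)])],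
 ⟨p028_k30, nat_lit 0, nat_lit 0, nat_lit 0, nat_lit 0, nat_lit 138079, [nat_lit 1903835201, nat_lit 1038955200, nat_lit 401174401, nat_lit 5166400], [], [nat_lit 16307037795, nat_lit 16519830785, nat_lit 15905921299, nat_lit 16123848398, nat_lit 17589159126, nat_lit 17849506105, nat_lit 16916019890, nat_lit 17123861535], nat_lit 1271250, nat_lit 1271250, nat_lit 111251, nat_lit 230001, nat_lit 1271250, nat_lit 1271250, [nat_lit 631250, nat_lit 1271250, nat_lit 1271250, nat_lit 1271250], [nat_lit 139, nat_lit 40, nat_lit 20, nat_lit 40]⟩, C1.Rw.none,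
 ⟨nat_lit 6422, nat_lit 6520, ⟨.ofNat (nat_lit 142551), .ofNat (nat_lit 184645), .ofNat (nat_lit 158599), .ofNat (nat_lit 200693), .ofNat (nat_lit 146886), .ofNat (nat_lit 188497), .ofNat (nat_lit 162923), .ofNat (nat_lit 204533)⟩, ⟨.ofNat (nat_lit 475792), .ofNat (nat_lit 509466), .ofNat (nat_lit 497190), .ofNat (nat_lit 530864), .ofNat (nat_lit 474005), .ofNat (nat_lit 507293), .ofNat (nat_lit 495386), .ofNat (nat_lit 528674)⟩⟩, [⟨nat_lit 4, nat_lit 94, nat_lit 100, nat_lit 53, nat_lit 740502185⟩]⟩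
noncomputable def p028_l72 : Lf2 := ⟨nat_lit 0, nat_lit 2, [nat_lit 10, nat_lit 5, nat_lit 5, nat_lit 20], true, nat_lit 280, nat_lit 292, nat_lit 0, nat_lit 248, ⟨nat_lit 0, nat_lit 0, nat_lit 1000, nat_lit 5, nat_lit 72, nat_lit 1000, nat_lit 198, nat_lit 1000, nat_lit 19223, nat_lit 248, nat_lit 48600, nat_lit 269, nat_lit 51072393, nat_lit 0, nat_lit 0, nat_lit 3457752, false, false⟩,
 nat_lit 0, nat_lit 7400, nat_lit 0, nat_lit 457, nat_lit 3821, nat_lit 0, nat_lit 1152, nat_lit 0, nat_lit 0, nat_lit 0, nat_lit 0, nat_lit 0, nat_lit 0, nat_lit 22918369897296, nat_lit 27, nat_lit 290350, nat_lit 0, nat_lit 0, [(nat_lit 3, [(nat_lit 4, nat_lit 731), (nat_lit 5, nat_lit 269)])],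
 ⟨p028_k11, nat_lit 0, nat_lit 0, nat_lit 0, nat_lit 0, nat_lit 181888, [nat_lit 1774996401, nat_lit 1070336400, nat_lit 413120800, nat_lit 6014800], [], [nat_lit 16535775454, nat_lit 16750636585, nat_lit 16155109820, nat_lit 16371179193, nat_lit 17437546156, nat_lit 17699250878, nat_lit 16895557847, nat_lit 17103889352], nat_lit 1271250, nat_lit 1271250, nat_lit 111251, nat_lit 230001, nat_lit 1271250, nat_lit 1271250, [nat_lit 631250, nat_lit 1271250, nat_lit 1271250, nat_lit 1271250], [nat_lit 139, nat_lit 40, nat_lit 20, nat_lit 40]⟩, C1.Rw.none,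
 ⟨nat_lit 6324, nat_lit 6423, ⟨.ofNat (nat_lit 146886), .ofNat (nat_lit 188497), .ofNat (nat_lit 168268), .ofNat (nat_lit 209879), .ofNat (nat_lit 151177), .ofNat (nat_lit 192309), .ofNat (nat_lit 172545), .ofNat (nat_lit 213677)⟩, ⟨.ofNat (nat_lit 474005), .ofNat (nat_lit 498971), .ofNat (nat_lit 495387), .ofNat (nat_lit 520352), .ofNat (nat_lit 472216), .ofNat (nat_lit 496895), .ofNat (nat_lit 493584), .ofNat (nat_lit 518263)⟩⟩, [⟨nat_lit 16, nat_lit 100, nat_lit 91, nat_lit 61, nat_lit 611860333⟩]⟩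
noncomputable def b_VL_500_500_5_34 : St := ⟨true, nat_lit 1, nat_lit 1, nat_lit 1, nat_lit 40, nat_lit 230, nat_lit 240, nat_lit 220, nat_lit 240, nat_lit 4, nat_lit 40, nat_lit 20, nat_lit 40, nat_lit 280, nat_lit 304, nat_lit 0, nat_lit 248, nat_lit 0, nat_lit 8, nat_lit 0, nat_lit 600, nat_lit 0, nat_lit 0⟩
theorem d_VL_500_500_5_34 (h : EB TB.env) : Dead b_VL_500_500_5_34 := chkB_sound0 h (T :=
(.trX (nat_lit 16) (nat_lit 100) (nat_lit 89) (nat_lit 61) (nat_lit 296) (.spl (nat_lit 2) (nat_lit 20)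
(.trX (nat_lit 23) (nat_lit 92) (nat_lit 100) (nat_lit 44) (nat_lit 208) (.spl (nat_lit 0) (nat_lit 235)
(.ord (.spl (nat_lit 6) (nat_lit 4)
(.spl (nat_lit 0) (nat_lit 233)
(.ord (.spl (nat_lit 2) (nat_lit 16)
(.trX (nat_lit 23) (nat_lit 92) (nat_lit 100) (nat_lit 39) (nat_lit 200) (.spl (nat_lit 2) (nat_lit 8)
(.trX (nat_lit 23) (nat_lit 92) (nat_lit 100) (nat_lit 28) (nat_lit 176) (.leaf p028_l50))
(.spl (nat_lit 1) (nat_lit 225)
(.leaf p028_l51)
(.spl (nat_lit 1) (nat_lit 230)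
(.leaf p028_l52)
(.leaf p028_l53)))))
(.leaf p028_l54)))
(.trX (nat_lit 16) (nat_lit 100) (nat_lit 90) (nat_lit 61) (nat_lit 292) (.spl (nat_lit 1) (nat_lit 230)
(.leaf p028_l55)
(.trZ (nat_lit 0) (nat_lit 100) (nat_lit 100) (nat_lit 31) (nat_lit 8) (.spl (nat_lit 1) (nat_lit 233)
(.spl (nat_lit 1) (nat_lit 232)
(.leaf p028_l56)
(.leaf p028_l57))
(.leaf p028_l58))))))
(.leaf p028_l59)))
(.trX (nat_lit 16) (nat_lit 100) (nat_lit 91) (nat_lit 61) (nat_lit 292) (.spl (nat_lit 0) (nat_lit 238)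
(.ord (.spl (nat_lit 6) (nat_lit 4)
(.spl (nat_lit 1) (nat_lit 230)
(.leaf p028_l60)
(.trZ (nat_lit 0) (nat_lit 100) (nat_lit 100) (nat_lit 32) (nat_lit 8) (.spl (nat_lit 2) (nat_lit 16)
(.trX (nat_lit 23) (nat_lit 92) (nat_lit 100) (nat_lit 39) (nat_lit 200) (.spl (nat_lit 2) (nat_lit 12)
(.trX (nat_lit 23) (nat_lit 92) (nat_lit 100) (nat_lit 34) (nat_lit 188) (.leaf p028_l61))
(.spl (nat_lit 1) (nat_lit 235)
(.spl (nat_lit 1) (nat_lit 233)
(.leaf p028_l62)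
(.leaf p028_l63))
(.spl (nat_lit 5) (nat_lit 80)
(.leaf p028_l64)
(.spl (nat_lit 5) (nat_lit 160)
(.leaf p028_l65)
(.leaf p028_l66))))))
(.leaf p028_l67))))
(.leaf p028_l68)))
(.trZ (nat_lit 0) (nat_lit 100) (nat_lit 99) (nat_lit 29) (nat_lit 8) (.trX (nat_lit 16) (nat_lit 100) (nat_lit 92) (nat_lit 61) (nat_lit 288) (.spl (nat_lit 2) (nat_lit 16)
(.trX (nat_lit 23) (nat_lit 92) (nat_lit 100) (nat_lit 39) (nat_lit 200) (.leaf p028_l69))
(.leaf p028_l70))))))))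
(.spl (nat_lit 0) (nat_lit 235)
(.ord (.leaf p028_l71))
(.trX (nat_lit 16) (nat_lit 100) (nat_lit 91) (nat_lit 61) (nat_lit 292) (.leaf p028_l72)))))) (by decide +kernel)
noncomputable def p028_l73 : Lf2 := ⟨nat_lit 0, nat_lit 5, [nat_lit 4, nat_lit 5, nat_lit 5, nat_lit 20], true, nat_lit 240, nat_lit 304, nat_lit 0, nat_lit 320, ⟨nat_lit 0, nat_lit 0, nat_lit 1000, nat_lit 5, nat_lit 87, nat_lit 1000, nat_lit 189, nat_lit 1000, nat_lit 5002, nat_lit 231, nat_lit 70417, nat_lit 280, nat_lit 51185128, nat_lit 0, nat_lit 0, nat_lit 3567445, false, false⟩,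
 nat_lit 0, nat_lit 12836, nat_lit 0, nat_lit 0, nat_lit 6138, nat_lit 0, nat_lit 357, nat_lit 0, nat_lit 0, nat_lit 0, nat_lit 0, nat_lit 0, nat_lit 0, nat_lit 28480412962909, nat_lit 115, nat_lit 1000000, nat_lit 0, nat_lit 0, [(nat_lit 3, [(nat_lit 6, nat_lit 1000)])],
 ⟨p028_k33, nat_lit 0, nat_lit 0, nat_lit 157, nat_lit 0, nat_lit 100096, [nat_lit 3341142858, nat_lit 23600000], [], [nat_lit 12028106520, nat_lit 12491739282, nat_lit 11299726336, nat_lit 11745037162, nat_lit 18405734172, nat_lit 19007834720, nat_lit 16988184741, nat_lit 17577593548], nat_lit 1271250, nat_lit 1271250, nat_lit 230001, nat_lit 490000, nat_lit 1271250, nat_lit 1271250, [nat_lit 1412500, nat_lit 1271250], [nat_lit 51, nat_lit 40, nat_lit 20, nat_lit 80, nat_lit 1, nat_lit 401, nat_lit 175, nat_lit 11]⟩, C1.Rw.none,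
 ⟨nat_lit 6519, nat_lit 6709, ⟨.ofNat (nat_lit 155377), .ofNat (nat_lit 241532), .ofNat (nat_lit 187534), .ofNat (nat_lit 273690), .ofNat (nat_lit 163247), .ofNat (nat_lit 247435), .ofNat (nat_lit 195344), .ofNat (nat_lit 279532)⟩, ⟨.ofNat (nat_lit 393209), .ofNat (nat_lit 531053), .ofNat (nat_lit 414647), .ofNat (nat_lit 552490), .ofNat (nat_lit 391604), .ofNat (nat_lit 526300), .ofNat (nat_lit 413002), .ofNat (nat_lit 547697)⟩⟩, [⟨nat_lit 4, nat_lit 92, nat_lit 100, nat_lit 53, nat_lit 913276603⟩]⟩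
noncomputable def p028_l74 : Lf2 := ⟨nat_lit 0, nat_lit 2, [nat_lit 10, nat_lit 5, nat_lit 5, nat_lit 20], true, nat_lit 240, nat_lit 260, nat_lit 0, nat_lit 320, ⟨nat_lit 0, nat_lit 0, nat_lit 1000, nat_lit 5, nat_lit 92, nat_lit 1000, nat_lit 169, nat_lit 1000, nat_lit 180507, nat_lit 319, nat_lit 79350, nat_lit 284, nat_lit 52738541, nat_lit 0, nat_lit 0, nat_lit 3414931, false, false⟩,
 nat_lit 0, nat_lit 11059, nat_lit 0, nat_lit 0, nat_lit 5569, nat_lit 0, nat_lit 0, nat_lit 0, nat_lit 0, nat_lit 0, nat_lit 0, nat_lit 0, nat_lit 0, nat_lit 29186099454007, nat_lit 53, nat_lit 1000000, nat_lit 0, nat_lit 0, [(nat_lit 3, [(nat_lit 6, nat_lit 1000)])],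
 ⟨p028_k7, nat_lit 0, nat_lit 0, nat_lit 149, nat_lit 0, nat_lit 187172, [nat_lit 2101142858, nat_lit 11600000], [], [nat_lit 13524071999, nat_lit 13970606880, nat_lit 12915488939, nat_lit 13344880852, nat_lit 14686974767, nat_lit 15106776887, nat_lit 14032447208, nat_lit 14436374160], nat_lit 1271250, nat_lit 1271250, nat_lit 230001, nat_lit 490000, nat_lit 1271250, nat_lit 1271250, [nat_lit 1412500, nat_lit 1271250], [nat_lit 26, nat_lit 40, nat_lit 20, nat_lit 80, nat_lit 2, nat_lit 317, nat_lit 100, nat_lit 10]⟩, C1.Rw.none,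
 ⟨nat_lit 6324, nat_lit 6520, ⟨.ofNat (nat_lit 163247), .ofNat (nat_lit 247435), .ofNat (nat_lit 206043), .ofNat (nat_lit 290231), .ofNat (nat_lit 170942), .ofNat (nat_lit 253206), .ofNat (nat_lit 213677), .ofNat (nat_lit 295942)⟩, ⟨.ofNat (nat_lit 391604), .ofNat (nat_lit 433698), .ofNat (nat_lit 413002), .ofNat (nat_lit 455096), .ofNat (nat_lit 389952), .ofNat (nat_lit 431084), .ofNat (nat_lit 411320), .ofNat (nat_lit 452452)⟩⟩, [⟨nat_lit 4, nat_lit 94, nat_lit 100, nat_lit 54, nat_lit 418543377⟩]⟩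
noncomputable def p028_l75 : Lf2 := ⟨nat_lit 0, nat_lit 5, [nat_lit 4, nat_lit 5, nat_lit 5, nat_lit 20], true, nat_lit 240, nat_lit 260, nat_lit 0, nat_lit 320, ⟨nat_lit 0, nat_lit 0, nat_lit 1000, nat_lit 5, nat_lit 92, nat_lit 1000, nat_lit 169, nat_lit 1000, nat_lit 180507, nat_lit 319, nat_lit 79350, nat_lit 284, nat_lit 52738541, nat_lit 0, nat_lit 0, nat_lit 3414931, false, false⟩,
 nat_lit 0, nat_lit 11807, nat_lit 0, nat_lit 0, nat_lit 5946, nat_lit 0, nat_lit 0, nat_lit 0, nat_lit 0, nat_lit 0, nat_lit 0, nat_lit 0, nat_lit 0, nat_lit 28658217169578, nat_lit 60, nat_lit 400000, nat_lit 0, nat_lit 0, [(nat_lit 3, [(nat_lit 5, nat_lit 1000)])],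
 ⟨p028_k34, nat_lit 0, nat_lit 0, nat_lit 142, nat_lit 0, nat_lit 95399, [nat_lit 2770400000, nat_lit 2000000], [], [nat_lit 13084326152, nat_lit 13680979760, nat_lit 12260077044, nat_lit 12836196416, nat_lit 14639549750, nat_lit 15198147510, nat_lit 13755837011, nat_lit 14295686616], nat_lit 1271250, nat_lit 1271250, nat_lit 230001, nat_lit 490000, nat_lit 1271250, nat_lit 1271250, [nat_lit 1412500, nat_lit 1271250], [nat_lit 51, nat_lit 40, nat_lit 20, nat_lit 80, nat_lit 1, nat_lit 373, nat_lit 150, nat_lit 10]⟩, C1.Rw.none,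
 ⟨nat_lit 6324, nat_lit 6520, ⟨.ofNat (nat_lit 163247), .ofNat (nat_lit 247435), .ofNat (nat_lit 206043), .ofNat (nat_lit 290231), .ofNat (nat_lit 170942), .ofNat (nat_lit 253206), .ofNat (nat_lit 213677), .ofNat (nat_lit 295942)⟩, ⟨.ofNat (nat_lit 391604), .ofNat (nat_lit 433698), .ofNat (nat_lit 413002), .ofNat (nat_lit 455096), .ofNat (nat_lit 389952), .ofNat (nat_lit 431084), .ofNat (nat_lit 411320), .ofNat (nat_lit 452452)⟩⟩, [⟨nat_lit 4, nat_lit 94, nat_lit 100, nat_lit 54, nat_lit 594933657⟩]⟩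
noncomputable def p028_l76 : Lf2 := ⟨nat_lit 0, nat_lit 5, [nat_lit 4, nat_lit 5, nat_lit 5, nat_lit 20], true, nat_lit 260, nat_lit 280, nat_lit 0, nat_lit 320, ⟨nat_lit 0, nat_lit 0, nat_lit 1000, nat_lit 5, nat_lit 90, nat_lit 1000, nat_lit 186, nat_lit 1000, nat_lit 41332, nat_lit 264, nat_lit 77067, nat_lit 283, nat_lit 51246960, nat_lit 0, nat_lit 0, nat_lit 3583063, false, false⟩,
 nat_lit 0, nat_lit 11195, nat_lit 0, nat_lit 0, nat_lit 5638, nat_lit 0, nat_lit 4, nat_lit 0, nat_lit 0, nat_lit 0, nat_lit 0, nat_lit 0, nat_lit 0, nat_lit 25746388743864, nat_lit 115, nat_lit 1000000, nat_lit 0, nat_lit 0, [(nat_lit 3, [(nat_lit 6, nat_lit 1000)])],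
 ⟨p028_k34, nat_lit 0, nat_lit 0, nat_lit 163, nat_lit 0, nat_lit 144843, [nat_lit 3341142858, nat_lit 23600000], [], [nat_lit 14568861567, nat_lit 14779745588, nat_lit 13897173950, nat_lit 14099977777, nat_lit 16368842414, nat_lit 16688127615, nat_lit 15196210385, nat_lit 15508216703], nat_lit 1271250, nat_lit 1271250, nat_lit 230001, nat_lit 490000, nat_lit 1271250, nat_lit 1271250, [nat_lit 1412500, nat_lit 1271250], [nat_lit 51, nat_lit 40, nat_lit 20, nat_lit 80, nat_lit 1, nat_lit 373, nat_lit 150, nat_lit 10]⟩, C1.Rw.none,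
 ⟨nat_lit 6422, nat_lit 6520, ⟨.ofNat (nat_lit 163247), .ofNat (nat_lit 247435), .ofNat (nat_lit 200693), .ofNat (nat_lit 284881), .ofNat (nat_lit 167115), .ofNat (nat_lit 250336), .ofNat (nat_lit 204533), .ofNat (nat_lit 287754)⟩, ⟨.ofNat (nat_lit 433698), .ofNat (nat_lit 475792), .ofNat (nat_lit 455096), .ofNat (nat_lit 497190), .ofNat (nat_lit 432394), .ofNat (nat_lit 474005), .ofNat (nat_lit 453776), .ofNat (nat_lit 495386)⟩⟩, [⟨nat_lit 4, nat_lit 94, nat_lit 100, nat_lit 53, nat_lit 864808346⟩]⟩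
noncomputable def p028_l77 : Lf2 := ⟨nat_lit 0, nat_lit 5, [nat_lit 4, nat_lit 5, nat_lit 5, nat_lit 20], true, nat_lit 260, nat_lit 280, nat_lit 0, nat_lit 320, ⟨nat_lit 0, nat_lit 0, nat_lit 1000, nat_lit 5, nat_lit 93, nat_lit 1000, nat_lit 185, nat_lit 1000, nat_lit 41667, nat_lit 265, nat_lit 81667, nat_lit 285, nat_lit 51156286, nat_lit 0, nat_lit 0, nat_lit 3610103, false, false⟩,
 nat_lit 0, nat_lit 10784, nat_lit 0, nat_lit 0, nat_lit 5569, nat_lit 0, nat_lit 0, nat_lit 0, nat_lit 0, nat_lit 0, nat_lit 0, nat_lit 0, nat_lit 0, nat_lit 25277092617517, nat_lit 115, nat_lit 1000000, nat_lit 0, nat_lit 0, [(nat_lit 3, [(nat_lit 6, nat_lit 1000)])],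
 ⟨p028_k35, nat_lit 0, nat_lit 0, nat_lit 181, nat_lit 0, nat_lit 190672, [nat_lit 3341142858, nat_lit 23600000], [], [nat_lit 14896875827, nat_lit 15106776887, nat_lit 14234410684, nat_lit 14436374160, nat_lit 16659403433, nat_lit 16976857408, nat_lit 15503490289, nat_lit 15813717010], nat_lit 1271250, nat_lit 1271250, nat_lit 230001, nat_lit 490000, nat_lit 1271250, nat_lit 1271250, [nat_lit 1412500, nat_lit 1271250], [nat_lit 51, nat_lit 40, nat_lit 20, nat_lit 80, nat_lit 1, nat_lit 373, nat_lit 150, nat_lit 10]⟩, C1.Rw.none,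
 ⟨nat_lit 6324, nat_lit 6423, ⟨.ofNat (nat_lit 167115), .ofNat (nat_lit 250336), .ofNat (nat_lit 209879), .ofNat (nat_lit 293099), .ofNat (nat_lit 170942), .ofNat (nat_lit 253206), .ofNat (nat_lit 213677), .ofNat (nat_lit 295942)⟩, ⟨.ofNat (nat_lit 432394), .ofNat (nat_lit 474005), .ofNat (nat_lit 453776), .ofNat (nat_lit 495387), .ofNat (nat_lit 431084), .ofNat (nat_lit 472216), .ofNat (nat_lit 452452), .ofNat (nat_lit 493584)⟩⟩, [⟨nat_lit 4, nat_lit 95, nat_lit 100, nat_lit 54, nat_lit 883791267⟩]⟩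
noncomputable def p028_l78 : Lf2 := ⟨nat_lit 0, nat_lit 5, [nat_lit 4, nat_lit 5, nat_lit 5, nat_lit 20], true, nat_lit 280, nat_lit 296, nat_lit 0, nat_lit 300, ⟨nat_lit 0, nat_lit 0, nat_lit 1000, nat_lit 5, nat_lit 92, nat_lit 1000, nat_lit 201, nat_lit 1000, nat_lit 13437, nat_lit 242, nat_lit 79350, nat_lit 284, nat_lit 49735144, nat_lit 0, nat_lit 0, nat_lit 3756941, false, false⟩,
 nat_lit 0, nat_lit 10339, nat_lit 0, nat_lit 0, nat_lit 5207, nat_lit 0, nat_lit 0, nat_lit 0, nat_lit 0, nat_lit 0, nat_lit 0, nat_lit 0, nat_lit 0, nat_lit 24694946250027, nat_lit 115, nat_lit 1000000, nat_lit 0, nat_lit 0, [(nat_lit 3, [(nat_lit 6, nat_lit 1000)])],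
 ⟨p028_k34, nat_lit 0, nat_lit 0, nat_lit 190, nat_lit 0, nat_lit 196342, [nat_lit 3341142858, nat_lit 23600000], [], [nat_lit 16432436170, nat_lit 16817382250, nat_lit 15824148499, nat_lit 16195102972, nat_lit 17677228277, nat_lit 18256149476, nat_lit 16689753945, nat_lit 17170999966], nat_lit 1271250, nat_lit 1271250, nat_lit 230001, nat_lit 490000, nat_lit 1271250, nat_lit 1271250, [nat_lit 1412500, nat_lit 1271250], [nat_lit 51, nat_lit 40, nat_lit 20, nat_lit 80, nat_lit 1, nat_lit 317, nat_lit 100, nat_lit 9]⟩, C1.Rw.none,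
 ⟨nat_lit 6324, nat_lit 6520, ⟨.ofNat (nat_lit 163247), .ofNat (nat_lit 247435), .ofNat (nat_lit 206043), .ofNat (nat_lit 290231), .ofNat (nat_lit 170942), .ofNat (nat_lit 253206), .ofNat (nat_lit 213677), .ofNat (nat_lit 295942)⟩, ⟨.ofNat (nat_lit 475792), .ofNat (nat_lit 509466), .ofNat (nat_lit 497189), .ofNat (nat_lit 530862), .ofNat (nat_lit 472216), .ofNat (nat_lit 505121), .ofNat (nat_lit 493584), .ofNat (nat_lit 526487)⟩⟩, [⟨nat_lit 4, nat_lit 94, nat_lit 100, nat_lit 54, nat_lit 855812361⟩]⟩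
noncomputable def b_VL_500_500_5_35 : St := ⟨true, nat_lit 1, nat_lit 1, nat_lit 1, nat_lit 40, nat_lit 220, nat_lit 240, nat_lit 200, nat_lit 240, nat_lit 40, nat_lit 80, nat_lit 20, nat_lit 40, nat_lit 240, nat_lit 304, nat_lit 0, nat_lit 320, nat_lit 0, nat_lit 20, nat_lit 0, nat_lit 0, nat_lit 0, nat_lit 0⟩
theorem d_VL_500_500_5_35 (h : EB TB.env) : Dead b_VL_500_500_5_35 := chkB_sound0 h (T :=
(.spl (nat_lit 0) (nat_lit 230)
(.ord (.leaf p028_l73))
(.trX (nat_lit 16) (nat_lit 100) (nat_lit 89) (nat_lit 61) (nat_lit 296) (.spl (nat_lit 4) (nat_lit 280)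
(.spl (nat_lit 4) (nat_lit 260)
(.spl (nat_lit 6) (nat_lit 8)
(.leaf p028_l74)
(.leaf p028_l75))
(.spl (nat_lit 0) (nat_lit 235)
(.ord (.leaf p028_l76))
(.leaf p028_l77)))
(.trX (nat_lit 23) (nat_lit 100) (nat_lit 95) (nat_lit 87) (nat_lit 300) (.leaf p028_l78)))))) (by decide +kernel)
noncomputable def p028_l79 : Lf2 := ⟨nat_lit 0, nat_lit 5, [nat_lit 4, nat_lit 5, nat_lit 5, nat_lit 20], false, nat_lit 160, nat_lit 200, nat_lit 0, nat_lit 320, ⟨nat_lit 1000, nat_lit 0, nat_lit 0, nat_lit 0, nat_lit 0, nat_lit 0, nat_lit 0, nat_lit 0, nat_lit 0, nat_lit 0, nat_lit 0, nat_lit 0, nat_lit 0, nat_lit 0, nat_lit 0, nat_lit 0, false, false⟩,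
 nat_lit 56202, nat_lit 59952, nat_lit 0, nat_lit 0, nat_lit 55551, nat_lit 24086, nat_lit 0, nat_lit 0, nat_lit 0, nat_lit 0, nat_lit 0, nat_lit 0, nat_lit 0, nat_lit 58743204248054, nat_lit 0, nat_lit 0, nat_lit 34124226096, nat_lit 0, [],
 ⟨p028_k33, nat_lit 0, nat_lit 0, nat_lit 0, nat_lit 0, nat_lit 208593, [nat_lit 6250000000, nat_lit 9842000000], [], [nat_lit 6074481478, nat_lit 0, nat_lit 23491828774, nat_lit 1605830340, nat_lit 28967823530, nat_lit 11988735406, nat_lit 47147941607, nat_lit 20235981902], nat_lit 1271250, nat_lit 1271250, nat_lit 780000, nat_lit 1100001, nat_lit 1100001, nat_lit 1442500, [nat_lit 1412500, nat_lit 1271250], [nat_lit 51, nat_lit 40, nat_lit 20, nat_lit 80]⟩, ⟨p028_k36, nat_lit 0, nat_lit 0, nat_lit 362, nat_lit 0, nat_lit 237491, [nat_lit 6250000000, nat_lit 11872000000], [], [nat_lit 69203222240, nat_lit 43732855304, nat_lit 43732855304, nat_lit 35029544368, nat_lit 41761369216,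 nat_lit 25667749096, nat_lit 51172614128, nat_lit 28777354984], nat_lit 1271250, nat_lit 1271250, nat_lit 780000, nat_lit 1100001, nat_lit 0, nat_lit 2260000, [nat_lit 1412500, nat_lit 1271250], [nat_lit 107, nat_lit 40, nat_lit 20, nat_lit 80, nat_lit 12, nat_lit 428, nat_lit 200, nat_lit 11]⟩,
 zbF0, []⟩
noncomputable def p028_l80 : Lf2 := ⟨nat_lit 0, nat_lit 5, [nat_lit 4, nat_lit 5, nat_lit 5, nat_lit 20], false, nat_lit 200, nat_lit 240, nat_lit 0, nat_lit 320, ⟨nat_lit 330, nat_lit 0, nat_lit 670, nat_lit 5, nat_lit 158, nat_lit 670, nat_lit 144, nat_lit 670, nat_lit 194400, nat_lit 323, nat_lit 138017, nat_lit 306, nat_lit 49947516, nat_lit 0, nat_lit 0, nat_lit 3977045, false, false⟩,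
 nat_lit 13459, nat_lit 3603, nat_lit 0, nat_lit 0, nat_lit 8159, nat_lit 5768, nat_lit 0, nat_lit 0, nat_lit 0, nat_lit 0, nat_lit 0, nat_lit 0, nat_lit 0, nat_lit 0, nat_lit 0, nat_lit 670000, nat_lit 0, nat_lit 0, [(nat_lit 3, [(nat_lit 6, nat_lit 670)])],
 ⟨p028_k33, nat_lit 0, nat_lit 0, nat_lit 0, nat_lit 0, nat_lit 208593, [nat_lit 2760065715, nat_lit 1106272000], [], [nat_lit 7465503521, nat_lit 8894434769, nat_lit 8339452516, nat_lit 9661277589, nat_lit 9832616705, nat_lit 11107509108, nat_lit 10520150915, nat_lit 11922922196], nat_lit 1271250, nat_lit 1271250, nat_lit 780000, nat_lit 1100001, nat_lit 1271250, nat_lit 1271250, [nat_lit 1412500, nat_lit 1271250], [nat_lit 51, nat_lit 40, nat_lit 20, nat_lit 80]⟩, ⟨p028_k36, nat_lit 0, nat_lit 0, nat_lit 362, nat_lit 0, nat_lit 237491, [nat_lit 2062500000, nat_lit 3917760000], [], [nat_lit 19514513080, nat_lit 13414991512, nat_lit 13414991512, nat_lit 12883484504,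 nat_lit 13542596168, nat_lit 9492876928, nat_lit 15912228144, nat_lit 10549118672], nat_lit 1271250, nat_lit 1271250, nat_lit 780000, nat_lit 1100001, nat_lit 0, nat_lit 2260000, [nat_lit 1412500, nat_lit 1271250], [nat_lit 107, nat_lit 40, nat_lit 20, nat_lit 80, nat_lit 12, nat_lit 428, nat_lit 200, nat_lit 11]⟩,
 ⟨nat_lit 6324, nat_lit 6709, ⟨.ofNat (nat_lit 327688), .ofNat (nat_lit 413843), .ofNat (nat_lit 370564), .ofNat (nat_lit 456720), .ofNat (nat_lit 335470), .ofNat (nat_lit 417734), .ofNat (nat_lit 378206), .ofNat (nat_lit 460470)⟩, ⟨.ofNat (nat_lit 307053), .ofNat (nat_lit 393209), .ofNat (nat_lit 328491), .ofNat (nat_lit 414647), .ofNat (nat_lit 307688), .ofNat (nat_lit 389952), .ofNat (nat_lit 329055), .ofNat (nat_lit 411320)⟩⟩, []⟩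
noncomputable def p028_l81 : Lf2 := ⟨nat_lit 0, nat_lit 5, [nat_lit 4, nat_lit 5, nat_lit 5, nat_lit 20], false, nat_lit 160, nat_lit 240, nat_lit 0, nat_lit 160, ⟨nat_lit 1000, nat_lit 0, nat_lit 0, nat_lit 0, nat_lit 0, nat_lit 0, nat_lit 0, nat_lit 0, nat_lit 0, nat_lit 0, nat_lit 0, nat_lit 0, nat_lit 0, nat_lit 0, nat_lit 0, nat_lit 0, false, false⟩,
 nat_lit 19526, nat_lit 0, nat_lit 0, nat_lit 9430, nat_lit 5817, nat_lit 8368, nat_lit 3032, nat_lit 0, nat_lit 0, nat_lit 1717, nat_lit 0, nat_lit 0, nat_lit 0, nat_lit 0, nat_lit 0, nat_lit 0, nat_lit 0, nat_lit 0, [],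
 ⟨p028_k37, nat_lit 0, nat_lit 0, nat_lit 0, nat_lit 0, nat_lit 208593, [nat_lit 6250000000, nat_lit 7968000001, nat_lit 9842000000], [], [nat_lit 32038520334, nat_lit 28962851388, nat_lit 23747103113, nat_lit 24436125897, nat_lit 23747103113, nat_lit 24436125897, nat_lit 29253557126, nat_lit 26355652293], nat_lit 1271250, nat_lit 1271250, nat_lit 1100001, nat_lit 1785000, nat_lit 1100001, nat_lit 1785000, [nat_lit 1412500, nat_lit 1271250, nat_lit 1271250], [nat_lit 25, nat_lit 40, nat_lit 20, nat_lit 80]⟩, ⟨p028_k38, nat_lit 0, nat_lit 0, nat_lit 356, nat_lit 0, nat_lit 237491, [nat_lit 6250000000, nat_lit 7968000000, nat_lit 11872000000], [], [nat_lit 36402545952, nat_lit 31747140209, nat_lit 34135906656, nat_lit 32949002865, nat_lit 32886428000, nat_lit 26600583473, nat_lit 42227403648, nat_lit 34232817280], nat_lit 1271250, nat_lit 1271250, nat_lit 1100001, nat_lit 1785000, nat_lit 0, nat_lit 1100001, [nat_lit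 1412500, nat_lit 1271250, nat_lit 1271250], [nat_lit 53, nat_lit 40, nat_lit 20, nat_lit 80, nat_lit 14, nat_lit 401, nat_lit 175, nat_lit 10]⟩,
 zbF0, []⟩
noncomputable def p028_l82 : Lf2 := ⟨nat_lit 0, nat_lit 5, [nat_lit 4, nat_lit 5, nat_lit 5, nat_lit 20], false, nat_lit 160, nat_lit 240, nat_lit 160, nat_lit 320, ⟨nat_lit 1000, nat_lit 0, nat_lit 0, nat_lit 0, nat_lit 0, nat_lit 0, nat_lit 0, nat_lit 0, nat_lit 0, nat_lit 0, nat_lit 0, nat_lit 0, nat_lit 0, nat_lit 0, nat_lit 0, nat_lit 0, false, false⟩,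
 nat_lit 15817, nat_lit 0, nat_lit 0, nat_lit 5590, nat_lit 3545, nat_lit 6778, nat_lit 0, nat_lit 0, nat_lit 0, nat_lit 2142, nat_lit 0, nat_lit 0, nat_lit 0, nat_lit 0, nat_lit 0, nat_lit 0, nat_lit 0, nat_lit 0, [],
 ⟨p028_k39, nat_lit 0, nat_lit 0, nat_lit 0, nat_lit 0, nat_lit 106778, [nat_lit 2637500000, nat_lit 5449500000, nat_lit 7089500001, nat_lit 9842000000], [], [nat_lit 30859089830, nat_lit 28970278380, nat_lit 27581195690, nat_lit 25814771820, nat_lit 27581195690, nat_lit 25814771820, nat_lit 33068240550, nat_lit 31351191440], nat_lit 1271250, nat_lit 1271250, nat_lit 1100001, nat_lit 1785000, nat_lit 1100001, nat_lit 1785000, [nat_lit 631250, nat_lit 1271250, nat_lit 1271250, nat_lit 1271250], [nat_lit 91, nat_lit 40, nat_lit 20, nat_lit 40]⟩, ⟨p028_k38, nat_lit 0, nat_lit 0, nat_lit 139, nat_lit 0, nat_lit 121571, [nat_lit 6250000000, nat_lit 7968000000, nat_lit 11872000000], [], [nat_lit 36578599520,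 nat_lit 32994813356, nat_lit 30440480624, nat_lit 26962973500, nat_lit 27722770198, nat_lit 28097279238, nat_lit 29095382800, nat_lit 29511581920], nat_lit 1271250, nat_lit 1271250, nat_lit 1100001, nat_lit 1785000, nat_lit 1271250, nat_lit 1271250, [nat_lit 1412500, nat_lit 1271250, nat_lit 1271250], [nat_lit 53, nat_lit 40, nat_lit 20, nat_lit 80, nat_lit 14, nat_lit 428, nat_lit 200, nat_lit 11]⟩,
 zbF0, []⟩
noncomputable def p028_l83 : Lf2 := ⟨nat_lit 0, nat_lit 5, [nat_lit 4, nat_lit 5, nat_lit 5, nat_lit 20], false, nat_lit 160, nat_lit 240, nat_lit 160, nat_lit 304, ⟨nat_lit 1000, nat_lit 0, nat_lit 0, nat_lit 0, nat_lit 0, nat_lit 0, nat_lit 0, nat_lit 0, nat_lit 0, nat_lit 0, nat_lit 0, nat_lit 0, nat_lit 0, nat_lit 0, nat_lit 0, nat_lit 0, false, false⟩,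
 nat_lit 13843, nat_lit 0, nat_lit 0, nat_lit 0, nat_lit 3545, nat_lit 6620, nat_lit 0, nat_lit 0, nat_lit 0, nat_lit 2086, nat_lit 0, nat_lit 0, nat_lit 0, nat_lit 8783269603898, nat_lit 0, nat_lit 0, nat_lit 0, nat_lit 0, [],
 ⟨p028_k39, nat_lit 0, nat_lit 0, nat_lit 0, nat_lit 0, nat_lit 208593, [nat_lit 2637500000, nat_lit 5449500000, nat_lit 7089500001, nat_lit 9842000000], [], [nat_lit 30859089830, nat_lit 28970278380, nat_lit 27581195690, nat_lit 25814771820, nat_lit 27581195690, nat_lit 25814771820, nat_lit 33068240550, nat_lit 31351191440], nat_lit 1271250, nat_lit 1271250, nat_lit 1100001, nat_lit 1785000, nat_lit 1100001, nat_lit 1785000, [nat_lit 631250, nat_lit 1271250, nat_lit 1271250, nat_lit 1271250], [nat_lit 91, nat_lit 40, nat_lit 20, nat_lit 40]⟩, ⟨p028_k37, nat_lit 0, nat_lit 0, nat_lit 141, nat_lit 0, nat_lit 208593, [nat_lit 6250000000, nat_lit 7968000000, nat_lit 9842000000], [], [nat_lit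 32837587240, nat_lit 29337341680, nat_lit 26970597000, nat_lit 23669074500, nat_lit 25940483437, nat_lit 26505032860, nat_lit 27492704444, nat_lit 27941357804], nat_lit 1271250, nat_lit 1271250, nat_lit 1100001, nat_lit 1785000, nat_lit 1271250, nat_lit 1271250, [nat_lit 1412500, nat_lit 1271250, nat_lit 1271250], [nat_lit 25, nat_lit 40, nat_lit 20, nat_lit 80, nat_lit 17, nat_lit 428, nat_lit 200, nat_lit 12]⟩,
 zbF0, []⟩
noncomputable def p028_l84 : Lf2 := ⟨nat_lit 0, nat_lit 5, [nat_lit 4, nat_lit 5, nat_lit 5, nat_lit 20], false, nat_lit 160, nat_lit 240, nat_lit 0, nat_lit 320, ⟨nat_lit 0, nat_lit 0, nat_lit 1000, nat_lit 5, nat_lit 192, nat_lit 1000, nat_lit 127, nat_lit 1000, nat_lit 150417, nat_lit 310, nat_lit 5598, nat_lit 203, nat_lit 48290368, nat_lit 0, nat_lit 0, nat_lit 4126607, false, false⟩,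
 nat_lit 0, nat_lit 282748, nat_lit 0, nat_lit 0, nat_lit 135227, nat_lit 0, nat_lit 60000, nat_lit 15732, nat_lit 0, nat_lit 0, nat_lit 0, nat_lit 0, nat_lit 0, nat_lit 389447547767358, nat_lit 0, nat_lit 1000000, nat_lit 0, nat_lit 0, [(nat_lit 3, [(nat_lit 6, nat_lit 1000)])],
 ⟨p028_k33, nat_lit 0, nat_lit 0, nat_lit 156, nat_lit 0, nat_lit 208593, [nat_lit 315681142858, nat_lit 437299600000], [], [nat_lit 614353981464, nat_lit 541745466538, nat_lit 401453848464, nat_lit 404741646358, nat_lit 412766182488, nat_lit 416864568590, nat_lit 401823844852, nat_lit 403088838226], nat_lit 1271250, nat_lit 1271250, nat_lit 780000, nat_lit 1762500, nat_lit 1100001, nat_lit 1785000, [nat_lit 1412500, nat_lit 1271250], [nat_lit 51, nat_lit 40, nat_lit 20, nat_lit 80, nat_lit 1, nat_lit 428, nat_lit 200, nat_lit 12]⟩, ⟨p028_k40, nat_lit 0, nat_lit 0, nat_lit 380, nat_lit 0, nat_lit 237491, [nat_lit 0, nat_lit 0, nat_lit 0],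 [], [nat_lit 0, nat_lit 0, nat_lit 0, nat_lit 0, nat_lit 0, nat_lit 0, nat_lit 0, nat_lit 0], nat_lit 1271250, nat_lit 1271250, nat_lit 780000, nat_lit 1762500, nat_lit 0, nat_lit 2260000, [nat_lit 1412500, nat_lit 1271250, nat_lit 1271250], [nat_lit 46, nat_lit 40, nat_lit 20, nat_lit 80, nat_lit 41, nat_lit 428, nat_lit 200, nat_lit 11]⟩,
 ⟨nat_lit 6324, nat_lit 6709, ⟨.ofNat (nat_lit 327688), .ofNat (nat_lit 586126), .ofNat (nat_lit 370564), .ofNat (nat_lit 628989), .ofNat (nat_lit 335470), .ofNat (nat_lit 582235), .ofNat (nat_lit 378206), .ofNat (nat_lit 624956)⟩, ⟨.ofNat (nat_lit 220898), .ofNat (nat_lit 393209), .ofNat (nat_lit 242336), .ofNat (nat_lit 414647), .ofNat (nat_lit 225423), .ofNat (nat_lit 389952), .ofNat (nat_lit 246791), .ofNat (nat_lit 411320)⟩⟩, []⟩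
noncomputable def p028_l85 : Lf2 := ⟨nat_lit 0, nat_lit 5, [nat_lit 4, nat_lit 5, nat_lit 5, nat_lit 20], false, nat_lit 240, nat_lit 304, nat_lit 0, nat_lit 320, ⟨nat_lit 76, nat_lit 924, nat_lit 0, nat_lit 5, nat_lit 189, nat_lit 924, nat_lit 189, nat_lit 0, nat_lit 0, nat_lit 0, nat_lit 0, nat_lit 0, nat_lit 44063890, nat_lit 11510719, nat_lit 11425391, nat_lit 4735389, false, false⟩,
 nat_lit 653, nat_lit 15604, nat_lit 0, nat_lit 0, nat_lit 7775, nat_lit 279, nat_lit 0, nat_lit 0, nat_lit 0, nat_lit 166, nat_lit 0, nat_lit 0, nat_lit 0, nat_lit 25227314040710, nat_lit 0, nat_lit 924000, nat_lit 0, nat_lit 0, [(nat_lit 3, [(nat_lit 2, nat_lit 924)])],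
 ⟨p028_k37, nat_lit 0, nat_lit 0, nat_lit 107, nat_lit 0, nat_lit 100096, [nat_lit 3517270000, nat_lit 3448900801, nat_lit 2500265600], [], [nat_lit 11134098750, nat_lit 11755464925, nat_lit 15193178650, nat_lit 15655152025, nat_lit 16777793281, nat_lit 17408168771, nat_lit 20554591310, nat_lit 21024179466], nat_lit 1271250, nat_lit 1271250, nat_lit 780000, nat_lit 1762500, nat_lit 1271250, nat_lit 1271250, [nat_lit 1412500, nat_lit 1271250, nat_lit 1271250], [nat_lit 25, nat_lit 40, nat_lit 20, nat_lit 80, nat_lit 17, nat_lit 428, nat_lit 200, nat_lit 12]⟩, ⟨p028_k38, nat_lit 0, nat_lit 0, nat_lit 242, nat_lit 0, nat_lit 113963, [nat_lit 475000000, nat_lit 605568000, nat_lit 902272000], [], [nat_lit 2895152272, nat_lit 2932444772, nat_lit 3063996852, nat_lit 3124486710, nat_lit 3193001928, nat_lit 3237608517, nat_lit 3620846096, nat_lit 3431345948], nat_lit 1271250, nat_lit 1271250, nat_lit 780000, nat_lit 1762500,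 nat_lit 0, nat_lit 2260000, [nat_lit 1412500, nat_lit 1271250, nat_lit 1271250], [nat_lit 53, nat_lit 40, nat_lit 20, nat_lit 80, nat_lit 14, nat_lit 428, nat_lit 200, nat_lit 11]⟩,
 ⟨nat_lit 6519, nat_lit 6709, ⟨.ofNat (nat_lit 327688), .ofNat (nat_lit 586147), .ofNat (nat_lit 359845), .ofNat (nat_lit 618302), .ofNat (nat_lit 331623), .ofNat (nat_lit 584180), .ofNat (nat_lit 363720), .ofNat (nat_lit 616274)⟩, ⟨.ofNat (nat_lit 393209), .ofNat (nat_lit 531053), .ofNat (nat_lit 414647), .ofNat (nat_lit 552490), .ofNat (nat_lit 391604), .ofNat (nat_lit 526300), .ofNat (nat_lit 413002), .ofNat (nat_lit 547697)⟩⟩, [⟨nat_lit 4, nat_lit 92, nat_lit 100, nat_lit 53, nat_lit 677032206⟩, ⟨nat_lit 19, nat_lit 100, nat_lit 89, nat_lit 53, nat_lit 35782374⟩]⟩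
noncomputable def p028_l86 : Lf2 := ⟨nat_lit 0, nat_lit 5, [nat_lit 4, nat_lit 5, nat_lit 5, nat_lit 20], false, nat_lit 240, nat_lit 296, nat_lit 0, nat_lit 320, ⟨nat_lit 122, nat_lit 878, nat_lit 0, nat_lit 5, nat_lit 192, nat_lit 878, nat_lit 184, nat_lit 0, nat_lit 0, nat_lit 0, nat_lit 0, nat_lit 0, nat_lit 44216076, nat_lit 11776002, nat_lit 11007922, nat_lit 4717084, false, false⟩,
 nat_lit 1567, nat_lit 13932, nat_lit 0, nat_lit 0, nat_lit 7805, nat_lit 671, nat_lit 2559, nat_lit 0, nat_lit 0, nat_lit 282, nat_lit 0, nat_lit 0, nat_lit 0, nat_lit 15678357203587, nat_lit 0, nat_lit 351200, nat_lit 0, nat_lit 0, [(nat_lit 3, [(nat_lit 1, nat_lit 878)])],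
 ⟨p028_k22, nat_lit 0, nat_lit 0, nat_lit 145, nat_lit 0, nat_lit 196342, [nat_lit 3698532000, nat_lit 4025428801, nat_lit 4192948000], [], [nat_lit 12317865736, nat_lit 12726998436, nat_lit 15797086955, nat_lit 16258826680, nat_lit 16546887812, nat_lit 17195171878, nat_lit 20355342897, nat_lit 20843280377], nat_lit 1271250, nat_lit 1271250, nat_lit 780000, nat_lit 1762500, nat_lit 1271250, nat_lit 1271250, [nat_lit 1412500, nat_lit 1271250, nat_lit 1271250], [nat_lit 25, nat_lit 40, nat_lit 20, nat_lit 80, nat_lit 17, nat_lit 428, nat_lit 200, nat_lit 12]⟩, ⟨p028_k38, nat_lit 0, nat_lit 0, nat_lit 370, nat_lit 0, nat_lit 237491, [nat_lit 762500000, nat_lit 972096000, nat_lit 1448384000], [], [nat_lit 4987498104, nat_lit 4279963008, nat_lit 4428505572, nat_lit 4564838620, nat_lit 4846696440, nat_lit 4594806212, nat_lit 6091257480, nat_lit 5483589144], nat_lit 1271250, nat_lit 1271250, nat_lit 780000, nat_lit 1762500,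 nat_lit 0, nat_lit 2260000, [nat_lit 1412500, nat_lit 1271250, nat_lit 1271250], [nat_lit 53, nat_lit 40, nat_lit 20, nat_lit 80, nat_lit 14, nat_lit 428, nat_lit 200, nat_lit 11]⟩,
 ⟨nat_lit 6324, nat_lit 6520, ⟨.ofNat (nat_lit 331623), .ofNat (nat_lit 584181), .ofNat (nat_lit 374419), .ofNat (nat_lit 626973), .ofNat (nat_lit 335470), .ofNat (nat_lit 582257), .ofNat (nat_lit 378206), .ofNat (nat_lit 624989)⟩, ⟨.ofNat (nat_lit 391604), .ofNat (nat_lit 509466), .ofNat (nat_lit 413002), .ofNat (nat_lit 530862), .ofNat (nat_lit 389952), .ofNat (nat_lit 505121), .ofNat (nat_lit 411320), .ofNat (nat_lit 526487)⟩⟩, [⟨nat_lit 4, nat_lit 94, nat_lit 100, nat_lit 54, nat_lit 688548811⟩, ⟨nat_lit 7, nat_lit 90, nat_lit 100, nat_lit 53, nat_lit 51935155⟩]⟩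
noncomputable def b_VL_500_500_5_36 : St := ⟨true, nat_lit 1, nat_lit 1, nat_lit 1, nat_lit 40, nat_lit 220, nat_lit 240, nat_lit 200, nat_lit 240, nat_lit 120, nat_lit 240, nat_lit 20, nat_lit 40, nat_lit 160, nat_lit 304, nat_lit 0, nat_lit 320, nat_lit 0, nat_lit 20, nat_lit 0, nat_lit 0, nat_lit 0, nat_lit 0⟩
theorem d_VL_500_500_5_36 (h : EB TB.env) : Dead b_VL_500_500_5_36 := chkB_sound0 h (T :=
(.spl (nat_lit 4) (nat_lit 240)
(.spl (nat_lit 7) (nat_lit 600)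
(.spl (nat_lit 2) (nat_lit 160)
(.spl (nat_lit 4) (nat_lit 200)
(.leaf p028_l79)
(.leaf p028_l80))
(.spl (nat_lit 5) (nat_lit 160)
(.leaf p028_l81)
(.spl (nat_lit 1) (nat_lit 220)
(.leaf p028_l82)
(.trX (nat_lit 19) (nat_lit 100) (nat_lit 86) (nat_lit 60) (nat_lit 304) (.leaf p028_l83)))))
(.leaf p028_l84))
(.spl (nat_lit 0) (nat_lit 230)
(.ord (.leaf p028_l85))
(.trX (nat_lit 16) (nat_lit 100) (nat_lit 89) (nat_lit 61) (nat_lit 296) (.leaf p028_l86))))) (by decide +kernel)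
noncomputable def p028_l87 : Lf2 := ⟨nat_lit 1, nat_lit 5, [nat_lit 4, nat_lit 5, nat_lit 5, nat_lit 20], false, nat_lit 0, nat_lit 320, nat_lit 0, nat_lit 320, zbN0,
 nat_lit 0, nat_lit 0, nat_lit 0, nat_lit 0, nat_lit 0, nat_lit 0, nat_lit 0, nat_lit 0, nat_lit 0, nat_lit 0, nat_lit 0, nat_lit 0, nat_lit 0, nat_lit 0, nat_lit 0, nat_lit 0, nat_lit 0, nat_lit 0, [],
 C1.Rw.none, C1.Rw.none,
 zbF0, []⟩
noncomputable def p028_l88 : Lf2 := ⟨nat_lit 0, nat_lit 2, [nat_lit 10, nat_lit 5, nat_lit 5, nat_lit 20], true, nat_lit 0, nat_lit 160, nat_lit 0, nat_lit 320, ⟨nat_lit 0, nat_lit 1000, nat_lit 0, nat_lit 5, nat_lit 136, nat_lit 1000, nat_lit 46, nat_lit 0, nat_lit 0, nat_lit 0, nat_lit 0, nat_lit 0, nat_lit 0, nat_lit 0, nat_lit 0, nat_lit 5000000, false, false⟩,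
 nat_lit 0, nat_lit 3623, nat_lit 0, nat_lit 5298, nat_lit 1732, nat_lit 0, nat_lit 708, nat_lit 0, nat_lit 0, nat_lit 0, nat_lit 0, nat_lit 0, nat_lit 0, nat_lit 19201328754140, nat_lit 0, nat_lit 1000000, nat_lit 0, nat_lit 0, [(nat_lit 3, [(nat_lit 2, nat_lit 1000)])],
 ⟨p028_k3, nat_lit 0, nat_lit 0, nat_lit 283, nat_lit 0, nat_lit 50362, [nat_lit 3292500000, nat_lit 2888400000], [], [nat_lit 33933202128, nat_lit 33789245909, nat_lit 30768719528, nat_lit 30848335926, nat_lit 28714213320, nat_lit 28803251876, nat_lit 32052256952, nat_lit 32123038093], nat_lit 1271250, nat_lit 1271250, nat_lit 0, nat_lit 1695000, nat_lit 0, nat_lit 1100001, [nat_lit 1412500, nat_lit 1271250], [nat_lit 26, nat_lit 40, nat_lit 20, nat_lit 80, nat_lit 2, nat_lit 401, nat_lit 175, nat_lit 14]⟩, C1.Rw.none,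
 ⟨nat_lit 6652, nat_lit 6709, ⟨.ofNat (nat_lit 69221), .ofNat (nat_lit 586153), .ofNat (nat_lit 93875), .ofNat (nat_lit 610807), .ofNat (nat_lit 72196), .ofNat (nat_lit 585558), .ofNat (nat_lit 96835), .ofNat (nat_lit 610197)⟩, ⟨.negSucc (nat_lit 123723), .ofNat (nat_lit 220898), .negSucc (nat_lit 102285), .ofNat (nat_lit 242336), .negSucc (nat_lit 120630), .ofNat (nat_lit 221611), .negSucc (nat_lit 99205), .ofNat (nat_lit 243036)⟩⟩, []⟩
noncomputable def p028_l89 : Lf2 := ⟨nat_lit 0, nat_lit 2, [nat_lit 10, nat_lit 5, nat_lit 5, nat_lit 20], true, nat_lit 0, nat_lit 160, nat_lit 0, nat_lit 320, ⟨nat_lit 0, nat_lit 1000, nat_lit 0, nat_lit 5, nat_lit 137, nat_lit 1000, nat_lit 47, nat_lit 0, nat_lit 0, nat_lit 0, nat_lit 0, nat_lit 0, nat_lit 0, nat_lit 0, nat_lit 0, nat_lit 5000000, false, false⟩,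
 nat_lit 0, nat_lit 3599, nat_lit 0, nat_lit 4138, nat_lit 1748, nat_lit 0, nat_lit 611, nat_lit 0, nat_lit 0, nat_lit 0, nat_lit 0, nat_lit 0, nat_lit 0, nat_lit 17946685448540, nat_lit 0, nat_lit 1000000, nat_lit 0, nat_lit 0, [(nat_lit 3, [(nat_lit 2, nat_lit 1000)])],
 ⟨p028_k41, nat_lit 0, nat_lit 0, nat_lit 285, nat_lit 0, nat_lit 86033, [nat_lit 3292500000, nat_lit 2888400000], [], [nat_lit 33855797724, nat_lit 33758940344, nat_lit 30815398784, nat_lit 30868514961, nat_lit 28769365978, nat_lit 28828792893, nat_lit 32076304446, nat_lit 32123468441], nat_lit 1271250, nat_lit 1271250, nat_lit 0, nat_lit 1695000, nat_lit 0, nat_lit 1100001, [nat_lit 1412500, nat_lit 1271250], [nat_lit 26, nat_lit 40, nat_lit 20, nat_lit 80, nat_lit 2, nat_lit 401, nat_lit 175, nat_lit 14]⟩, C1.Rw.none,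
 ⟨nat_lit 6614, nat_lit 6653, ⟨.ofNat (nat_lit 72196), .ofNat (nat_lit 585559), .ofNat (nat_lit 98978), .ofNat (nat_lit 612340), .ofNat (nat_lit 74168), .ofNat (nat_lit 585164), .ofNat (nat_lit 100940), .ofNat (nat_lit 611935)⟩, ⟨.negSucc (nat_lit 120630), .ofNat (nat_lit 221611), .negSucc (nat_lit 99205), .ofNat (nat_lit 243036), .negSucc (nat_lit 118584), .ofNat (nat_lit 222080), .negSucc (nat_lit 97167), .ofNat (nat_lit 243497)⟩⟩, []⟩
noncomputable def p028_l90 : Lf2 := ⟨nat_lit 0, nat_lit 2, [nat_lit 10, nat_lit 5, nat_lit 5, nat_lit 20], true, nat_lit 0, nat_lit 160, nat_lit 0, nat_lit 320, ⟨nat_lit 0, nat_lit 1000, nat_lit 0, nat_lit 5, nat_lit 139, nat_lit 1000, nat_lit 47, nat_lit 0, nat_lit 0, nat_lit 0, nat_lit 0, nat_lit 0, nat_lit 0, nat_lit 0, nat_lit 0, nat_lit 5000000, false, false⟩,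
 nat_lit 0, nat_lit 3569, nat_lit 0, nat_lit 1244, nat_lit 1751, nat_lit 0, nat_lit 553, nat_lit 0, nat_lit 0, nat_lit 0, nat_lit 0, nat_lit 0, nat_lit 0, nat_lit 13737382677082, nat_lit 0, nat_lit 1000000, nat_lit 0, nat_lit 0, [(nat_lit 3, [(nat_lit 2, nat_lit 1000)])],
 ⟨p028_k23, nat_lit 0, nat_lit 0, nat_lit 291, nat_lit 0, nat_lit 180610, [nat_lit 3292500000, nat_lit 2888400000], [], [nat_lit 33771252578, nat_lit 33528693552, nat_lit 30868319332, nat_lit 31001127860, nat_lit 28828424866, nat_lit 28977023972, nat_lit 32120693592, nat_lit 32238710864], nat_lit 1271250, nat_lit 1271250, nat_lit 0, nat_lit 1695000, nat_lit 0, nat_lit 1100001, [nat_lit 1412500, nat_lit 1271250], [nat_lit 26, nat_lit 40, nat_lit 20, nat_lit 80, nat_lit 2, nat_lit 401, nat_lit 175, nat_lit 14]⟩, C1.Rw.none,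
 ⟨nat_lit 6519, nat_lit 6615, ⟨.ofNat (nat_lit 74168), .ofNat (nat_lit 585163), .ofNat (nat_lit 106294), .ofNat (nat_lit 617288), .ofNat (nat_lit 79059), .ofNat (nat_lit 584185), .ofNat (nat_lit 111156), .ofNat (nat_lit 616282)⟩, ⟨.negSucc (nat_lit 118584), .ofNat (nat_lit 222080), .negSucc (nat_lit 97167), .ofNat (nat_lit 243497), .negSucc (nat_lit 113523), .ofNat (nat_lit 223228), .negSucc (nat_lit 92125), .ofNat (nat_lit 244626)⟩⟩, []⟩
noncomputable def p028_l91 : Lf2 := ⟨nat_lit 1, nat_lit 5, [nat_lit 4, nat_lit 5, nat_lit 5, nat_lit 20], false, nat_lit 0, nat_lit 160, nat_lit 0, nat_lit 320, zbN0,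
 nat_lit 0, nat_lit 0, nat_lit 0, nat_lit 0, nat_lit 0, nat_lit 0, nat_lit 0, nat_lit 0, nat_lit 0, nat_lit 0, nat_lit 0, nat_lit 0, nat_lit 0, nat_lit 0, nat_lit 0, nat_lit 0, nat_lit 0, nat_lit 0, [],
 C1.Rw.none, C1.Rw.none,
 zbF0, []⟩
noncomputable def p028_l92 : Lf2 := ⟨nat_lit 0, nat_lit 2, [nat_lit 10, nat_lit 5, nat_lit 5, nat_lit 20], true, nat_lit 0, nat_lit 160, nat_lit 0, nat_lit 320, ⟨nat_lit 0, nat_lit 1000, nat_lit 0, nat_lit 5, nat_lit 75, nat_lit 1000, nat_lit 47, nat_lit 0, nat_lit 0, nat_lit 0, nat_lit 0, nat_lit 0, nat_lit 0, nat_lit 0, nat_lit 0, nat_lit 5000000, false, false⟩,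
 nat_lit 0, nat_lit 22566, nat_lit 0, nat_lit 0, nat_lit 11365, nat_lit 0, nat_lit 4531, nat_lit 0, nat_lit 0, nat_lit 0, nat_lit 0, nat_lit 0, nat_lit 0, nat_lit 29859106135085, nat_lit 0, nat_lit 1000000, nat_lit 0, nat_lit 0, [(nat_lit 3, [(nat_lit 2, nat_lit 1000)])],
 ⟨p028_k7, nat_lit 0, nat_lit 0, nat_lit 290, nat_lit 0, nat_lit 187172, [nat_lit 3292500000, nat_lit 2888400000], [], [nat_lit 25004841290, nat_lit 26499653320, nat_lit 17350021275, nat_lit 14518511080, nat_lit 25266591475, nat_lit 22514227140, nat_lit 27858894615, nat_lit 25181266520], nat_lit 1271250, nat_lit 1271250, nat_lit 0, nat_lit 490000, nat_lit 0, nat_lit 1100001, [nat_lit 1412500, nat_lit 1271250], [nat_lit 26, nat_lit 40, nat_lit 20, nat_lit 80, nat_lit 2, nat_lit 345, nat_lit 125, nat_lit 12]⟩, C1.Rw.none,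
 ⟨nat_lit 6324, nat_lit 6520, ⟨.ofNat (nat_lit 79059), .ofNat (nat_lit 247435), .ofNat (nat_lit 121855), .ofNat (nat_lit 290231), .ofNat (nat_lit 88677), .ofNat (nat_lit 253206), .ofNat (nat_lit 131413), .ofNat (nat_lit 295942)⟩, ⟨.negSucc (nat_lit 113523), .ofNat (nat_lit 223228), .negSucc (nat_lit 92125), .ofNat (nat_lit 244626), .negSucc (nat_lit 103633), .ofNat (nat_lit 225423), .negSucc (nat_lit 82265), .ofNat (nat_lit 246791)⟩⟩, []⟩
noncomputable def p028_l93 : Lf2 := ⟨nat_lit 0, nat_lit 2, [nat_lit 10, nat_lit 5, nat_lit 5, nat_lit 20], true, nat_lit 0, nat_lit 160, nat_lit 0, nat_lit 320, ⟨nat_lit 0, nat_lit 1000, nat_lit 0, nat_lit 5, nat_lit 125, nat_lit 1000, nat_lit 47, nat_lit 0, nat_lit 0, nat_lit 0, nat_lit 0, nat_lit 0, nat_lit 0, nat_lit 0, nat_lit 0, nat_lit 5000000, false, false⟩,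
 nat_lit 0, nat_lit 4310, nat_lit 0, nat_lit 0, nat_lit 2170, nat_lit 0, nat_lit 600, nat_lit 0, nat_lit 0, nat_lit 0, nat_lit 0, nat_lit 0, nat_lit 0, nat_lit 23316349472102, nat_lit 0, nat_lit 1000000, nat_lit 0, nat_lit 0, [(nat_lit 3, [(nat_lit 2, nat_lit 1000)])],
 ⟨p028_k7, nat_lit 0, nat_lit 0, nat_lit 289, nat_lit 0, nat_lit 370570, [nat_lit 3292500000, nat_lit 2888400000], [], [nat_lit 30474322530, nat_lit 29891744800, nat_lit 28170702610, nat_lit 27597021880, nat_lit 27824510590, nat_lit 28116294480, nat_lit 28307285530, nat_lit 28587857520], nat_lit 1271250, nat_lit 1271250, nat_lit 490000, nat_lit 780000, nat_lit 0, nat_lit 1100001, [nat_lit 1412500, nat_lit 1271250], [nat_lit 26, nat_lit 40, nat_lit 20, nat_lit 80, nat_lit 2, nat_lit 373, nat_lit 150, nat_lit 13]⟩, C1.Rw.none,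
 ⟨nat_lit 6324, nat_lit 6520, ⟨.ofNat (nat_lit 247435), .ofNat (nat_lit 331623), .ofNat (nat_lit 290231), .ofNat (nat_lit 374419), .ofNat (nat_lit 253206), .ofNat (nat_lit 335470), .ofNat (nat_lit 295942), .ofNat (nat_lit 378206)⟩, ⟨.negSucc (nat_lit 113523), .ofNat (nat_lit 223228), .negSucc (nat_lit 92125), .ofNat (nat_lit 244626), .negSucc (nat_lit 103633), .ofNat (nat_lit 225423), .negSucc (nat_lit 82265), .ofNat (nat_lit 246791)⟩⟩, []⟩
noncomputable def p028_l94 : Lf2 := ⟨nat_lit 0, nat_lit 2, [nat_lit 10, nat_lit 5, nat_lit 5, nat_lit 20], true, nat_lit 0, nat_lit 160, nat_lit 0, nat_lit 320, ⟨nat_lit 0, nat_lit 1000, nat_lit 0, nat_lit 5, nat_lit 192, nat_lit 1000, nat_lit 47, nat_lit 0, nat_lit 0, nat_lit 0, nat_lit 0, nat_lit 0, nat_lit 0, nat_lit 0, nat_lit 0, nat_lit 5000000, false, false⟩,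
 nat_lit 0, nat_lit 4307, nat_lit 0, nat_lit 0, nat_lit 2169, nat_lit 0, nat_lit 458, nat_lit 0, nat_lit 0, nat_lit 0, nat_lit 0, nat_lit 0, nat_lit 0, nat_lit 16515350237239, nat_lit 0, nat_lit 1000000, nat_lit 0, nat_lit 0, [(nat_lit 3, [(nat_lit 2, nat_lit 1000)])],
 ⟨p028_k7, nat_lit 0, nat_lit 0, nat_lit 272, nat_lit 0, nat_lit 370570, [nat_lit 3292500000, nat_lit 2888400000], [], [nat_lit 28169971877, nat_lit 27600036218, nat_lit 30082956590, nat_lit 30353613054, nat_lit 28480246171, nat_lit 28760802014, nat_lit 31715497376, nat_lit 31197842090], nat_lit 1271250, nat_lit 1271250, nat_lit 780000, nat_lit 1762500, nat_lit 0, nat_lit 1100001, [nat_lit 1412500, nat_lit 1271250], [nat_lit 26, nat_lit 40, nat_lit 20, nat_lit 80, nat_lit 2, nat_lit 401, nat_lit 175, nat_lit 13]⟩, C1.Rw.none,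
 ⟨nat_lit 6324, nat_lit 6520, ⟨.ofNat (nat_lit 331623), .ofNat (nat_lit 584181), .ofNat (nat_lit 374419), .ofNat (nat_lit 626973), .ofNat (nat_lit 335470), .ofNat (nat_lit 582257), .ofNat (nat_lit 378206), .ofNat (nat_lit 624989)⟩, ⟨.negSucc (nat_lit 113523), .ofNat (nat_lit 223228), .negSucc (nat_lit 92125), .ofNat (nat_lit 244626), .negSucc (nat_lit 103633), .ofNat (nat_lit 225423), .negSucc (nat_lit 82265), .ofNat (nat_lit 246791)⟩⟩, []⟩
noncomputable def p028_l95 : Lf2 := ⟨nat_lit 0, nat_lit 5, [nat_lit 4, nat_lit 5, nat_lit 5, nat_lit 20], true, nat_lit 0, nat_lit 160, nat_lit 0, nat_lit 320, ⟨nat_lit 0, nat_lit 1000, nat_lit 0, nat_lit 5, nat_lit 141, nat_lit 1000, nat_lit 47, nat_lit 0, nat_lit 0, nat_lit 0, nat_lit 0, nat_lit 0, nat_lit 0, nat_lit 0, nat_lit 0, nat_lit 5000000, false, false⟩,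
 nat_lit 0, nat_lit 3666, nat_lit 0, nat_lit 4582, nat_lit 1846, nat_lit 0, nat_lit 893, nat_lit 0, nat_lit 0, nat_lit 0, nat_lit 0, nat_lit 0, nat_lit 0, nat_lit 18614927288112, nat_lit 0, nat_lit 400000, nat_lit 0, nat_lit 0, [(nat_lit 3, [(nat_lit 1, nat_lit 1000)])],
 ⟨p028_k34, nat_lit 0, nat_lit 0, nat_lit 323, nat_lit 0, nat_lit 83683, [nat_lit 3344000000, nat_lit 3475733334], [], [nat_lit 34008420992, nat_lit 33752701996, nat_lit 31097485480, nat_lit 31221974412, nat_lit 29209375732, nat_lit 29348547846, nat_lit 32112718722, nat_lit 32224177448], nat_lit 1271250, nat_lit 1271250, nat_lit 0, nat_lit 1695000, nat_lit 0, nat_lit 1100001, [nat_lit 1412500, nat_lit 1271250], [nat_lit 51, nat_lit 40, nat_lit 20, nat_lit 80, nat_lit 1, nat_lit 401, nat_lit 175, nat_lit 12]⟩, C1.Rw.none,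
 ⟨nat_lit 6422, nat_lit 6520, ⟨.ofNat (nat_lit 79059), .ofNat (nat_lit 584185), .ofNat (nat_lit 116505), .ofNat (nat_lit 621631), .ofNat (nat_lit 83894), .ofNat (nat_lit 583218), .ofNat (nat_lit 121312), .ofNat (nat_lit 620635)⟩, ⟨.negSucc (nat_lit 113523), .ofNat (nat_lit 223228), .negSucc (nat_lit 92125), .ofNat (nat_lit 244626), .negSucc (nat_lit 108540), .ofNat (nat_lit 224342), .negSucc (nat_lit 87158), .ofNat (nat_lit 245724)⟩⟩, []⟩
noncomputable def p028_l96 : Lf2 := ⟨nat_lit 0, nat_lit 4, [nat_lit 38, nat_lit 5, nat_lit 5, nat_lit 20], true, nat_lit 0, nat_lit 160, nat_lit 0, nat_lit 320, ⟨nat_lit 0, nat_lit 1000, nat_lit 0, nat_lit 5, nat_lit 142, nat_lit 1000, nat_lit 47, nat_lit 0, nat_lit 0, nat_lit 0, nat_lit 0, nat_lit 0, nat_lit 0, nat_lit 0, nat_lit 0, nat_lit 5000000, false, false⟩,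
 nat_lit 0, nat_lit 3603, nat_lit 0, nat_lit 1421, nat_lit 1860, nat_lit 0, nat_lit 761, nat_lit 0, nat_lit 0, nat_lit 0, nat_lit 0, nat_lit 0, nat_lit 0, nat_lit 14334527788755, nat_lit 0, nat_lit 400000, nat_lit 0, nat_lit 0, [(nat_lit 3, [(nat_lit 1, nat_lit 1000)])],
 ⟨p028_k42, nat_lit 0, nat_lit 0, nat_lit 341, nat_lit 0, nat_lit 132597, [nat_lit 3344000000, nat_lit 3475733334], [], [nat_lit 33806280360, nat_lit 33651685344, nat_lit 31199303814, nat_lit 31274026086, nat_lit 29325764254, nat_lit 29409330599, nat_lit 32188264404, nat_lit 32256040064], nat_lit 1271250, nat_lit 1271250, nat_lit 0, nat_lit 1695000, nat_lit 0, nat_lit 1100001, [nat_lit 1412500, nat_lit 1271250], [nat_lit 51, nat_lit 40, nat_lit 20, nat_lit 80, nat_lit 1, nat_lit 401, nat_lit 175, nat_lit 12]⟩, C1.Rw.none,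
 ⟨nat_lit 6363, nat_lit 6423, ⟨.ofNat (nat_lit 83894), .ofNat (nat_lit 583219), .ofNat (nat_lit 124520), .ofNat (nat_lit 623844), .ofNat (nat_lit 86770), .ofNat (nat_lit 582644), .ofNat (nat_lit 127379), .ofNat (nat_lit 623252)⟩, ⟨.negSucc (nat_lit 108540), .ofNat (nat_lit 224342), .negSucc (nat_lit 87158), .ofNat (nat_lit 245724), .negSucc (nat_lit 105587), .ofNat (nat_lit 224995), .negSucc (nat_lit 84214), .ofNat (nat_lit 246368)⟩⟩, []⟩
noncomputable def p028_l97 : Lf2 := ⟨nat_lit 0, nat_lit 4, [nat_lit 38, nat_lit 5, nat_lit 5, nat_lit 20], true, nat_lit 0, nat_lit 160, nat_lit 0, nat_lit 320, ⟨nat_lit 0, nat_lit 1000, nat_lit 0, nat_lit 5, nat_lit 143, nat_lit 1000, nat_lit 47, nat_lit 0, nat_lit 0, nat_lit 0, nat_lit 0, nat_lit 0, nat_lit 0, nat_lit 0, nat_lit 0, nat_lit 5000000, false, false⟩,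
 nat_lit 0, nat_lit 3611, nat_lit 0, nat_lit 0, nat_lit 1892, nat_lit 0, nat_lit 702, nat_lit 0, nat_lit 0, nat_lit 0, nat_lit 0, nat_lit 0, nat_lit 0, nat_lit 12761869052653, nat_lit 0, nat_lit 400000, nat_lit 0, nat_lit 0, [(nat_lit 3, [(nat_lit 1, nat_lit 1000)])],
 ⟨p028_k21, nat_lit 0, nat_lit 0, nat_lit 353, nat_lit 0, nat_lit 167786, [nat_lit 3344000000, nat_lit 3475733334], [], [nat_lit 33771490477, nat_lit 33666654000, nat_lit 31209550449, nat_lit 31259409354, nat_lit 29344674775, nat_lit 29400481786, nat_lit 32161456995, nat_lit 32207338304], nat_lit 1271250, nat_lit 1271250, nat_lit 0, nat_lit 1695000, nat_lit 0, nat_lit 1100001, [nat_lit 1412500, nat_lit 1271250], [nat_lit 51, nat_lit 40, nat_lit 20, nat_lit 80, nat_lit 1, nat_lit 401, nat_lit 175, nat_lit 12]⟩, C1.Rw.none,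
 ⟨nat_lit 6324, nat_lit 6364, ⟨.ofNat (nat_lit 86770), .ofNat (nat_lit 582644), .ofNat (nat_lit 129516), .ofNat (nat_lit 625390), .ofNat (nat_lit 88677), .ofNat (nat_lit 582263), .ofNat (nat_lit 131413), .ofNat (nat_lit 624998)⟩, ⟨.negSucc (nat_lit 105587), .ofNat (nat_lit 224995), .negSucc (nat_lit 84214), .ofNat (nat_lit 246368), .negSucc (nat_lit 103633), .ofNat (nat_lit 225423), .negSucc (nat_lit 82265), .ofNat (nat_lit 246791)⟩⟩, []⟩
noncomputable def p028_l98 : Lf2 := ⟨nat_lit 0, nat_lit 5, [nat_lit 4, nat_lit 5, nat_lit 5, nat_lit 20], true, nat_lit 0, nat_lit 160, nat_lit 0, nat_lit 320, ⟨nat_lit 0, nat_lit 1000, nat_lit 0, nat_lit 5, nat_lit 142, nat_lit 1000, nat_lit 47, nat_lit 0, nat_lit 0, nat_lit 0, nat_lit 0, nat_lit 0, nat_lit 0, nat_lit 0, nat_lit 0, nat_lit 5000000, false, false⟩,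
 nat_lit 0, nat_lit 3702, nat_lit 0, nat_lit 4906, nat_lit 1912, nat_lit 0, nat_lit 760, nat_lit 0, nat_lit 0, nat_lit 0, nat_lit 0, nat_lit 0, nat_lit 0, nat_lit 19438435479698, nat_lit 0, nat_lit 400000, nat_lit 0, nat_lit 0, [(nat_lit 3, [(nat_lit 1, nat_lit 1000)])],
 ⟨p028_k35, nat_lit 0, nat_lit 0, nat_lit 307, nat_lit 0, nat_lit 36602, [nat_lit 3344000000, nat_lit 3475733334], [], [nat_lit 34005285712, nat_lit 33740424000, nat_lit 31092571950, nat_lit 31217288054, nat_lit 29218612698, nat_lit 29358280406, nat_lit 32034791378, nat_lit 32145634486], nat_lit 1271250, nat_lit 1271250, nat_lit 0, nat_lit 1695000, nat_lit 0, nat_lit 1100001, [nat_lit 1412500, nat_lit 1271250], [nat_lit 51, nat_lit 40, nat_lit 20, nat_lit 80, nat_lit 1, nat_lit 401, nat_lit 175, nat_lit 12]⟩, C1.Rw.none,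
 ⟨nat_lit 6324, nat_lit 6423, ⟨.ofNat (nat_lit 83894), .ofNat (nat_lit 583218), .ofNat (nat_lit 126658), .ofNat (nat_lit 625981), .ofNat (nat_lit 88677), .ofNat (nat_lit 582261), .ofNat (nat_lit 131413), .ofNat (nat_lit 624997)⟩, ⟨.negSucc (nat_lit 108540), .ofNat (nat_lit 224342), .negSucc (nat_lit 87158), .ofNat (nat_lit 245724), .negSucc (nat_lit 103633), .ofNat (nat_lit 225423), .negSucc (nat_lit 82265), .ofNat (nat_lit 246791)⟩⟩, []⟩
noncomputable def p028_l99 : Lf2 := ⟨nat_lit 0, nat_lit 5, [nat_lit 4, nat_lit 5, nat_lit 5, nat_lit 20], true, nat_lit 160, nat_lit 240, nat_lit 0, nat_lit 320, ⟨nat_lit 0, nat_lit 1000, nat_lit 0, nat_lit 5, nat_lit 91, nat_lit 1000, nat_lit 127, nat_lit 0, nat_lit 0, nat_lit 0, nat_lit 0, nat_lit 0, nat_lit 0, nat_lit 0, nat_lit 0, nat_lit 5000000, false, false⟩,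
 nat_lit 0, nat_lit 5673, nat_lit 0, nat_lit 0, nat_lit 2712, nat_lit 0, nat_lit 974, nat_lit 0, nat_lit 0, nat_lit 0, nat_lit 0, nat_lit 0, nat_lit 0, nat_lit 21683475893856, nat_lit 0, nat_lit 1000000, nat_lit 0, nat_lit 0, [(nat_lit 3, [(nat_lit 2, nat_lit 1000)])],
 ⟨p028_k37, nat_lit 0, nat_lit 0, nat_lit 361, nat_lit 0, nat_lit 409043, [nat_lit 3292500000, nat_lit 3077200001, nat_lit 1896400000], [], [nat_lit 26691845834, nat_lit 27281657658, nat_lit 26652377498, nat_lit 27191125722, nat_lit 28652445754, nat_lit 29168308314, nat_lit 30358615280, nat_lit 29045036384], nat_lit 1271250, nat_lit 1271250, nat_lit 0, nat_lit 780000, nat_lit 1100001, nat_lit 1785000, [nat_lit 1412500, nat_lit 1271250, nat_lit 1271250], [nat_lit 25, nat_lit 40, nat_lit 20, nat_lit 80, nat_lit 17, nat_lit 373, nat_lit 150, nat_lit 11]⟩, C1.Rw.none,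
 ⟨nat_lit 6324, nat_lit 6709, ⟨.ofNat (nat_lit 69221), .ofNat (nat_lit 327688), .ofNat (nat_lit 112098), .ofNat (nat_lit 370564), .ofNat (nat_lit 88677), .ofNat (nat_lit 335470), .ofNat (nat_lit 131413), .ofNat (nat_lit 378206)⟩, ⟨.ofNat (nat_lit 220898), .ofNat (nat_lit 393209), .ofNat (nat_lit 242336), .ofNat (nat_lit 414647), .ofNat (nat_lit 225423), .ofNat (nat_lit 389952), .ofNat (nat_lit 246791), .ofNat (nat_lit 411320)⟩⟩, []⟩
noncomputable def p028_l100 : Lf2 := ⟨nat_lit 0, nat_lit 5, [nat_lit 4, nat_lit 5, nat_lit 5, nat_lit 20], true, nat_lit 240, nat_lit 304, nat_lit 0, nat_lit 320, ⟨nat_lit 0, nat_lit 1000, nat_lit 0, nat_lit 5, nat_lit 91, nat_lit 1000, nat_lit 188, nat_lit 0, nat_lit 0, nat_lit 0, nat_lit 0, nat_lit 0, nat_lit 0, nat_lit 0, nat_lit 0, nat_lit 5000000, false, false⟩,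
 nat_lit 0, nat_lit 16218, nat_lit 0, nat_lit 0, nat_lit 7756, nat_lit 0, nat_lit 2096, nat_lit 0, nat_lit 0, nat_lit 0, nat_lit 0, nat_lit 0, nat_lit 0, nat_lit 0, nat_lit 0, nat_lit 1000000, nat_lit 0, nat_lit 0, [(nat_lit 3, [(nat_lit 2, nat_lit 1000)])],
 ⟨p028_k37, nat_lit 0, nat_lit 0, nat_lit 366, nat_lit 0, nat_lit 409043, [nat_lit 3292500000, nat_lit 3077200001, nat_lit 1896400000], [], [nat_lit 16917708736, nat_lit 17684307152, nat_lit 13128462616, nat_lit 13796965920, nat_lit 23805119831, nat_lit 25140860109, nat_lit 16777004644, nat_lit 18036214359], nat_lit 1271250, nat_lit 1271250, nat_lit 0, nat_lit 780000, nat_lit 1271250, nat_lit 1271250, [nat_lit 1412500, nat_lit 1271250, nat_lit 1271250], [nat_lit 25, nat_lit 40, nat_lit 20, nat_lit 80, nat_lit 17, nat_lit 401, nat_lit 175, nat_lit 11]⟩, C1.Rw.none,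
 ⟨nat_lit 6324, nat_lit 6709, ⟨.ofNat (nat_lit 69221), .ofNat (nat_lit 327688), .ofNat (nat_lit 112098), .ofNat (nat_lit 370564), .ofNat (nat_lit 88677), .ofNat (nat_lit 335470), .ofNat (nat_lit 131413), .ofNat (nat_lit 378206)⟩, ⟨.ofNat (nat_lit 393209), .ofNat (nat_lit 531043), .ofNat (nat_lit 414647), .ofNat (nat_lit 552474), .ofNat (nat_lit 389952), .ofNat (nat_lit 521560), .ofNat (nat_lit 411320), .ofNat (nat_lit 542921)⟩⟩, [⟨nat_lit 0, nat_lit 100, nat_lit 100, nat_lit 40, nat_lit 156909906⟩, ⟨nat_lit 4, nat_lit 93, nat_lit 100, nat_lit 53, nat_lit 1243224125⟩]⟩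
noncomputable def p028_l101 : Lf2 := ⟨nat_lit 0, nat_lit 5, [nat_lit 4, nat_lit 5, nat_lit 5, nat_lit 20], true, nat_lit 160, nat_lit 304, nat_lit 0, nat_lit 320, ⟨nat_lit 0, nat_lit 1000, nat_lit 0, nat_lit 5, nat_lit 192, nat_lit 1000, nat_lit 154, nat_lit 0, nat_lit 0, nat_lit 0, nat_lit 0, nat_lit 0, nat_lit 0, nat_lit 0, nat_lit 0, nat_lit 5000000, false, false⟩,
 nat_lit 0, nat_lit 6531, nat_lit 0, nat_lit 0, nat_lit 3123, nat_lit 0, nat_lit 860, nat_lit 0, nat_lit 0, nat_lit 0, nat_lit 0, nat_lit 0, nat_lit 0, nat_lit 19964161915884, nat_lit 0, nat_lit 1000000, nat_lit 0, nat_lit 0, [(nat_lit 3, [(nat_lit 2, nat_lit 1000)])],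
 ⟨p028_k37, nat_lit 0, nat_lit 0, nat_lit 245, nat_lit 0, nat_lit 409043, [nat_lit 3292500000, nat_lit 3077200001, nat_lit 1896400000], [], [nat_lit 29728321694, nat_lit 28051464320, nat_lit 28749771751, nat_lit 27278195413, nat_lit 25479784933, nat_lit 26025337051, nat_lit 27668993459, nat_lit 28117968543], nat_lit 1271250, nat_lit 1271250, nat_lit 780000, nat_lit 1762500, nat_lit 1271250, nat_lit 1271250, [nat_lit 1412500, nat_lit 1271250, nat_lit 1271250], [nat_lit 25, nat_lit 40, nat_lit 20, nat_lit 80, nat_lit 17, nat_lit 428, nat_lit 200, nat_lit 12]⟩, C1.Rw.none,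
 ⟨nat_lit 6324, nat_lit 6709, ⟨.ofNat (nat_lit 327688), .ofNat (nat_lit 586126), .ofNat (nat_lit 370564), .ofNat (nat_lit 628989), .ofNat (nat_lit 335470), .ofNat (nat_lit 582235), .ofNat (nat_lit 378206), .ofNat (nat_lit 624956)⟩, ⟨.ofNat (nat_lit 220898), .ofNat (nat_lit 531043), .ofNat (nat_lit 242336), .ofNat (nat_lit 552474), .ofNat (nat_lit 225423), .ofNat (nat_lit 521560), .ofNat (nat_lit 246791), .ofNat (nat_lit 542921)⟩⟩, [⟨nat_lit 4, nat_lit 93, nat_lit 100, nat_lit 53, nat_lit 171130113⟩]⟩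
noncomputable def p028_l102 : Lf2 := ⟨nat_lit 1, nat_lit 5, [nat_lit 4, nat_lit 5, nat_lit 5, nat_lit 20], false, nat_lit 0, nat_lit 320, nat_lit 0, nat_lit 320, zbN0,
 nat_lit 0, nat_lit 0, nat_lit 0, nat_lit 0, nat_lit 0, nat_lit 0, nat_lit 0, nat_lit 0, nat_lit 0, nat_lit 0, nat_lit 0, nat_lit 0, nat_lit 0, nat_lit 0, nat_lit 0, nat_lit 0, nat_lit 0, nat_lit 0, [],
 C1.Rw.none, C1.Rw.none,
 zbF0, []⟩
noncomputable def p028_l103 : Lf2 := ⟨nat_lit 0, nat_lit 5, [nat_lit 4, nat_lit 5, nat_lit 5, nat_lit 20], false, nat_lit 0, nat_lit 304, nat_lit 0, nat_lit 320, ⟨nat_lit 1000, nat_lit 0, nat_lit 0, nat_lit 0, nat_lit 0, nat_lit 0, nat_lit 0, nat_lit 0, nat_lit 0, nat_lit 0, nat_lit 0, nat_lit 0, nat_lit 0, nat_lit 0, nat_lit 0, nat_lit 0, false, false⟩,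
 nat_lit 0, nat_lit 16691, nat_lit 0, nat_lit 0, nat_lit 7982, nat_lit 8899, nat_lit 3004, nat_lit 0, nat_lit 0, nat_lit 2294, nat_lit 0, nat_lit 0, nat_lit 0, nat_lit 8761250363552, nat_lit 0, nat_lit 0, nat_lit 0, nat_lit 0, [],
 ⟨p028_k37, nat_lit 0, nat_lit 0, nat_lit 392, nat_lit 0, nat_lit 409043, [nat_lit 6250000000, nat_lit 7968000001, nat_lit 9842000000], [], [nat_lit 28996740454, nat_lit 29412755434, nat_lit 38114073064, nat_lit 38800571744, nat_lit 30636077502, nat_lit 27680322705, nat_lit 33523919135, nat_lit 33868247260], nat_lit 1271250, nat_lit 1271250, nat_lit 1271250, nat_lit 1271250, nat_lit 0, nat_lit 2147000, [nat_lit 1412500, nat_lit 1271250, nat_lit 1271250], [nat_lit 25, nat_lit 40, nat_lit 20, nat_lit 80, nat_lit 17, nat_lit 483, nat_lit 250, nat_lit 14]⟩, ⟨p028_k38, nat_lit 0, nat_lit 0, nat_lit 255, nat_lit 0, nat_lit 0, [nat_lit 6250000000, nat_lit 7968000000, nat_lit 11872000000], [],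 [nat_lit 25724946322, nat_lit 27337565514, nat_lit 39696518488, nat_lit 41096549008, nat_lit 24977158062, nat_lit 25729643320, nat_lit 35017855076, nat_lit 35590599264], nat_lit 0, nat_lit 0, nat_lit 0, nat_lit 0, nat_lit 0, nat_lit 0, [], [nat_lit 53, nat_lit 40, nat_lit 20, nat_lit 80, nat_lit 14, nat_lit 483, nat_lit 250, nat_lit 12]⟩,
 zbF0, [⟨nat_lit 4, nat_lit 93, nat_lit 100, nat_lit 53, nat_lit 189557761⟩, ⟨nat_lit 19, nat_lit 100, nat_lit 90, nat_lit 53, nat_lit 187645307⟩]⟩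
noncomputable def p028_l104 : Lf2 := ⟨nat_lit 1, nat_lit 5, [nat_lit 4, nat_lit 5, nat_lit 5, nat_lit 20], false, nat_lit 0, nat_lit 320, nat_lit 0, nat_lit 320, zbN0,
 nat_lit 0, nat_lit 0, nat_lit 0, nat_lit 0, nat_lit 0, nat_lit 0, nat_lit 0, nat_lit 0, nat_lit 0, nat_lit 0, nat_lit 0, nat_lit 0, nat_lit 0, nat_lit 0, nat_lit 0, nat_lit 0, nat_lit 0, nat_lit 0, [],
 C1.Rw.none, C1.Rw.none,
 zbF0, []⟩
noncomputable def p028_l105 : Lf2 := ⟨nat_lit 0, nat_lit 2, [nat_lit 10, nat_lit 5, nat_lit 5, nat_lit 20], false, nat_lit 0, nat_lit 160, nat_lit 0, nat_lit 320, ⟨nat_lit 0, nat_lit 1000, nat_lit 0, nat_lit 5, nat_lit 137, nat_lit 1000, nat_lit 46, nat_lit 0, nat_lit 0, nat_lit 0, nat_lit 0, nat_lit 0, nat_lit 0, nat_lit 0, nat_lit 0, nat_lit 5000000, false, false⟩,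
 nat_lit 0, nat_lit 3660, nat_lit 0, nat_lit 5168, nat_lit 1750, nat_lit 0, nat_lit 705, nat_lit 0, nat_lit 0, nat_lit 0, nat_lit 0, nat_lit 0, nat_lit 0, nat_lit 19251625506228, nat_lit 0, nat_lit 1000000, nat_lit 0, nat_lit 0, [(nat_lit 3, [(nat_lit 2, nat_lit 1000)])],
 ⟨p028_k3, nat_lit 0, nat_lit 0, nat_lit 283, nat_lit 0, nat_lit 45204, [nat_lit 3292500000, nat_lit 2888400000], [], [nat_lit 34009569000, nat_lit 33767148500, nat_lit 30731137250, nat_lit 30863939750, nat_lit 28675514250, nat_lit 28824102750, nat_lit 31999258250, nat_lit 32117173750], nat_lit 1271250, nat_lit 1271250, nat_lit 0, nat_lit 1695000, nat_lit 0, nat_lit 1100001, [nat_lit 1412500, nat_lit 1271250], [nat_lit 26, nat_lit 40, nat_lit 20, nat_lit 80, nat_lit 2, nat_lit 401, nat_lit 175, nat_lit 14]⟩, ⟨p028_k43, nat_lit 0, nat_lit 0, nat_lit 310, nat_lit 0, nat_lit 51303, [nat_lit 0, nat_lit 0], [], [nat_lit 0, nat_lit 0, nat_lit 0, nat_lit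 0, nat_lit 0, nat_lit 0, nat_lit 0, nat_lit 0], nat_lit 1271250, nat_lit 1271250, nat_lit 0, nat_lit 1695000, nat_lit 0, nat_lit 2260000, [nat_lit 1412500, nat_lit 1271250], [nat_lit 51, nat_lit 40, nat_lit 20, nat_lit 80, nat_lit 1, nat_lit 428, nat_lit 200, nat_lit 13]⟩,
 ⟨nat_lit 6614, nat_lit 6709, ⟨.ofNat (nat_lit 69221), .ofNat (nat_lit 586153), .ofNat (nat_lit 96019), .ofNat (nat_lit 612950), .ofNat (nat_lit 74168), .ofNat (nat_lit 585163), .ofNat (nat_lit 100940), .ofNat (nat_lit 611934)⟩, ⟨.negSucc (nat_lit 123723), .ofNat (nat_lit 220898), .negSucc (nat_lit 102285), .ofNat (nat_lit 242336), .negSucc (nat_lit 118584), .ofNat (nat_lit 222080), .negSucc (nat_lit 97167), .ofNat (nat_lit 243497)⟩⟩, []⟩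
noncomputable def p028_l106 : Lf2 := ⟨nat_lit 0, nat_lit 2, [nat_lit 10, nat_lit 5, nat_lit 5, nat_lit 20], true, nat_lit 0, nat_lit 160, nat_lit 0, nat_lit 320, ⟨nat_lit 0, nat_lit 1000, nat_lit 0, nat_lit 5, nat_lit 139, nat_lit 1000, nat_lit 47, nat_lit 0, nat_lit 0, nat_lit 0, nat_lit 0, nat_lit 0, nat_lit 0, nat_lit 0, nat_lit 0, nat_lit 5000000, false, false⟩,
 nat_lit 0, nat_lit 3569, nat_lit 0, nat_lit 1244, nat_lit 1751, nat_lit 0, nat_lit 553, nat_lit 0, nat_lit 0, nat_lit 0, nat_lit 0, nat_lit 0, nat_lit 0, nat_lit 13737382677082, nat_lit 0, nat_lit 1000000, nat_lit 0, nat_lit 0, [(nat_lit 3, [(nat_lit 2, nat_lit 1000)])],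
 ⟨p028_k23, nat_lit 0, nat_lit 0, nat_lit 291, nat_lit 0, nat_lit 180610, [nat_lit 3292500000, nat_lit 2888400000], [], [nat_lit 33771252578, nat_lit 33528693552, nat_lit 30868319332, nat_lit 31001127860, nat_lit 28828424866, nat_lit 28977023972, nat_lit 32120693592, nat_lit 32238710864], nat_lit 1271250, nat_lit 1271250, nat_lit 0, nat_lit 1695000, nat_lit 0, nat_lit 1100001, [nat_lit 1412500, nat_lit 1271250], [nat_lit 26, nat_lit 40, nat_lit 20, nat_lit 80, nat_lit 2, nat_lit 401, nat_lit 175, nat_lit 14]⟩, C1.Rw.none,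
 ⟨nat_lit 6519, nat_lit 6615, ⟨.ofNat (nat_lit 74168), .ofNat (nat_lit 585163), .ofNat (nat_lit 106294), .ofNat (nat_lit 617288), .ofNat (nat_lit 79059), .ofNat (nat_lit 584185), .ofNat (nat_lit 111156), .ofNat (nat_lit 616282)⟩, ⟨.negSucc (nat_lit 118584), .ofNat (nat_lit 222080), .negSucc (nat_lit 97167), .ofNat (nat_lit 243497), .negSucc (nat_lit 113523), .ofNat (nat_lit 223228), .negSucc (nat_lit 92125), .ofNat (nat_lit 244626)⟩⟩, []⟩
noncomputable def p028_l107 : Lf2 := ⟨nat_lit 1, nat_lit 5, [nat_lit 4, nat_lit 5, nat_lit 5, nat_lit 20], false, nat_lit 0, nat_lit 160, nat_lit 0, nat_lit 320, zbN0,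
 nat_lit 0, nat_lit 0, nat_lit 0, nat_lit 0, nat_lit 0, nat_lit 0, nat_lit 0, nat_lit 0, nat_lit 0, nat_lit 0, nat_lit 0, nat_lit 0, nat_lit 0, nat_lit 0, nat_lit 0, nat_lit 0, nat_lit 0, nat_lit 0, [],
 C1.Rw.none, C1.Rw.none,
 zbF0, []⟩
noncomputable def p028_l108 : Lf2 := ⟨nat_lit 0, nat_lit 5, [nat_lit 4, nat_lit 5, nat_lit 5, nat_lit 20], false, nat_lit 0, nat_lit 160, nat_lit 0, nat_lit 320, ⟨nat_lit 0, nat_lit 1000, nat_lit 0, nat_lit 5, nat_lit 141, nat_lit 1000, nat_lit 47, nat_lit 0, nat_lit 0, nat_lit 0, nat_lit 0, nat_lit 0, nat_lit 0, nat_lit 0, nat_lit 0, nat_lit 5000000, false, false⟩,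
 nat_lit 0, nat_lit 3638, nat_lit 0, nat_lit 3842, nat_lit 1832, nat_lit 0, nat_lit 892, nat_lit 0, nat_lit 0, nat_lit 0, nat_lit 0, nat_lit 0, nat_lit 0, nat_lit 17355292827821, nat_lit 0, nat_lit 400000, nat_lit 0, nat_lit 0, [(nat_lit 3, [(nat_lit 1, nat_lit 1000)])],
 ⟨p028_k34, nat_lit 0, nat_lit 0, nat_lit 345, nat_lit 0, nat_lit 144843, [nat_lit 3344000000, nat_lit 3475733334], [], [nat_lit 33952903264, nat_lit 33699123632, nat_lit 31129416766, nat_lit 31253857510, nat_lit 29241476950, nat_lit 29380543938, nat_lit 32157195030, nat_lit 32267986418], nat_lit 1271250, nat_lit 1271250, nat_lit 0, nat_lit 1695000, nat_lit 0, nat_lit 1100001, [nat_lit 1412500, nat_lit 1271250], [nat_lit 51, nat_lit 40, nat_lit 20, nat_lit 80, nat_lit 1, nat_lit 401, nat_lit 175, nat_lit 12]⟩, ⟨p028_k36, nat_lit 0, nat_lit 0, nat_lit 493, nat_lit 0, nat_lit 175200, [nat_lit 0, nat_lit 0], [], [nat_lit 0, nat_lit 0, nat_lit 0, nat_lit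 0, nat_lit 0, nat_lit 0, nat_lit 0, nat_lit 0], nat_lit 1271250, nat_lit 1271250, nat_lit 0, nat_lit 1695000, nat_lit 0, nat_lit 2260000, [nat_lit 1412500, nat_lit 1271250], [nat_lit 107, nat_lit 40, nat_lit 20, nat_lit 80, nat_lit 12, nat_lit 428, nat_lit 200, nat_lit 12]⟩,
 ⟨nat_lit 6422, nat_lit 6520, ⟨.ofNat (nat_lit 79059), .ofNat (nat_lit 584185), .ofNat (nat_lit 116505), .ofNat (nat_lit 621631), .ofNat (nat_lit 83894), .ofNat (nat_lit 583218), .ofNat (nat_lit 121312), .ofNat (nat_lit 620635)⟩, ⟨.negSucc (nat_lit 113523), .ofNat (nat_lit 223228), .negSucc (nat_lit 92125), .ofNat (nat_lit 244626), .negSucc (nat_lit 108540), .ofNat (nat_lit 224342), .negSucc (nat_lit 87158), .ofNat (nat_lit 245724)⟩⟩, []⟩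
noncomputable def p028_l109 : Lf2 := ⟨nat_lit 0, nat_lit 5, [nat_lit 4, nat_lit 5, nat_lit 5, nat_lit 20], false, nat_lit 0, nat_lit 160, nat_lit 0, nat_lit 320, ⟨nat_lit 0, nat_lit 1000, nat_lit 0, nat_lit 5, nat_lit 142, nat_lit 1000, nat_lit 47, nat_lit 0, nat_lit 0, nat_lit 0, nat_lit 0, nat_lit 0, nat_lit 0, nat_lit 0, nat_lit 0, nat_lit 5000000, false, false⟩,
 nat_lit 0, nat_lit 3658, nat_lit 0, nat_lit 2819, nat_lit 1889, nat_lit 0, nat_lit 759, nat_lit 0, nat_lit 0, nat_lit 0, nat_lit 0, nat_lit 0, nat_lit 0, nat_lit 16547234067041, nat_lit 0, nat_lit 400000, nat_lit 0, nat_lit 0, [(nat_lit 3, [(nat_lit 1, nat_lit 1000)])],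
 ⟨p028_k35, nat_lit 0, nat_lit 0, nat_lit 361, nat_lit 0, nat_lit 190672, [nat_lit 3344000000, nat_lit 3475733334], [], [nat_lit 33917264114, nat_lit 33655588500, nat_lit 31143818736, nat_lit 31268455674, nat_lit 29270045117, nat_lit 29409540118, nat_lit 32106712140, nat_lit 32217540378], nat_lit 1271250, nat_lit 1271250, nat_lit 0, nat_lit 1695000, nat_lit 0, nat_lit 1100001, [nat_lit 1412500, nat_lit 1271250], [nat_lit 51, nat_lit 40, nat_lit 20, nat_lit 80, nat_lit 1, nat_lit 401, nat_lit 175, nat_lit 12]⟩, ⟨p028_k36, nat_lit 0, nat_lit 0, nat_lit 513, nat_lit 0, nat_lit 237491, [nat_lit 0, nat_lit 0], [], [nat_lit 0, nat_lit 0, nat_lit 0, nat_lit 0, nat_lit 0, nat_lit 0, nat_lit 0, nat_lit 0], nat_lit 1271250, nat_lit 1271250, nat_lit 0, nat_lit 1695000, nat_lit 0, nat_lit 2260000, [nat_lit 1412500, nat_lit 1271250], [nat_lit 107, nat_lit 40, nat_lit 20, nat_lit 80, nat_lit 12, nat_lit 428, nat_lit 200, nat_lit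 12]⟩,
 ⟨nat_lit 6324, nat_lit 6423, ⟨.ofNat (nat_lit 83894), .ofNat (nat_lit 583218), .ofNat (nat_lit 126658), .ofNat (nat_lit 625981), .ofNat (nat_lit 88677), .ofNat (nat_lit 582261), .ofNat (nat_lit 131413), .ofNat (nat_lit 624997)⟩, ⟨.negSucc (nat_lit 108540), .ofNat (nat_lit 224342), .negSucc (nat_lit 87158), .ofNat (nat_lit 245724), .negSucc (nat_lit 103633), .ofNat (nat_lit 225423), .negSucc (nat_lit 82265), .ofNat (nat_lit 246791)⟩⟩, []⟩
noncomputable def p028_l110 : Lf2 := ⟨nat_lit 0, nat_lit 5, [nat_lit 4, nat_lit 5, nat_lit 5, nat_lit 20], false, nat_lit 160, nat_lit 304, nat_lit 0, nat_lit 320, ⟨nat_lit 0, nat_lit 1000, nat_lit 0, nat_lit 5, nat_lit 87, nat_lit 1000, nat_lit 154, nat_lit 0, nat_lit 0, nat_lit 0, nat_lit 0, nat_lit 0, nat_lit 0, nat_lit 0, nat_lit 0, nat_lit 5000000, false, false⟩,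
 nat_lit 0, nat_lit 6759, nat_lit 0, nat_lit 4026, nat_lit 3232, nat_lit 0, nat_lit 695, nat_lit 0, nat_lit 0, nat_lit 0, nat_lit 0, nat_lit 0, nat_lit 0, nat_lit 28177021130987, nat_lit 0, nat_lit 1000000, nat_lit 0, nat_lit 0, [(nat_lit 3, [(nat_lit 2, nat_lit 1000)])],
 ⟨p028_k37, nat_lit 0, nat_lit 0, nat_lit 213, nat_lit 0, nat_lit 100096, [nat_lit 3292500000, nat_lit 3077200001, nat_lit 1896400000], [], [nat_lit 26409145952, nat_lit 25818585255, nat_lit 25174170935, nat_lit 25471891039, nat_lit 30690479252, nat_lit 30180969539, nat_lit 34511811616, nat_lit 33746091994], nat_lit 1271250, nat_lit 1271250, nat_lit 0, nat_lit 780000, nat_lit 1100001, nat_lit 2333000, [nat_lit 1412500, nat_lit 1271250, nat_lit 1271250], [nat_lit 25, nat_lit 40, nat_lit 20, nat_lit 80, nat_lit 17, nat_lit 401, nat_lit 175, nat_lit 12]⟩, ⟨p028_k38, nat_lit 0, nat_lit 0, nat_lit 419, nat_lit 0, nat_lit 113963, [nat_lit 0, nat_lit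 0, nat_lit 0], [], [nat_lit 0, nat_lit 0, nat_lit 0, nat_lit 0, nat_lit 0, nat_lit 0, nat_lit 0, nat_lit 0], nat_lit 1271250, nat_lit 1271250, nat_lit 0, nat_lit 780000, nat_lit 0, nat_lit 2260000, [nat_lit 1412500, nat_lit 1271250, nat_lit 1271250], [nat_lit 53, nat_lit 40, nat_lit 20, nat_lit 80, nat_lit 14, nat_lit 401, nat_lit 175, nat_lit 11]⟩,
 ⟨nat_lit 6519, nat_lit 6709, ⟨.ofNat (nat_lit 69221), .ofNat (nat_lit 327688), .ofNat (nat_lit 101379), .ofNat (nat_lit 359845), .ofNat (nat_lit 79059), .ofNat (nat_lit 331623), .ofNat (nat_lit 111156), .ofNat (nat_lit 363720)⟩, ⟨.ofNat (nat_lit 220898), .ofNat (nat_lit 531053), .ofNat (nat_lit 242336), .ofNat (nat_lit 552490), .ofNat (nat_lit 223228), .ofNat (nat_lit 526300), .ofNat (nat_lit 244626), .ofNat (nat_lit 547697)⟩⟩, [⟨nat_lit 16, nat_lit 100, nat_lit 92, nat_lit 53, nat_lit 651612584⟩]⟩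
noncomputable def p028_l111 : Lf2 := ⟨nat_lit 0, nat_lit 5, [nat_lit 4, nat_lit 5, nat_lit 5, nat_lit 20], false, nat_lit 160, nat_lit 296, nat_lit 0, nat_lit 320, ⟨nat_lit 0, nat_lit 1000, nat_lit 0, nat_lit 5, nat_lit 92, nat_lit 1000, nat_lit 151, nat_lit 0, nat_lit 0, nat_lit 0, nat_lit 0, nat_lit 0, nat_lit 0, nat_lit 0, nat_lit 0, nat_lit 5000000, false, false⟩,
 nat_lit 0, nat_lit 7521, nat_lit 0, nat_lit 2397, nat_lit 3787, nat_lit 0, nat_lit 547, nat_lit 0, nat_lit 0, nat_lit 0, nat_lit 0, nat_lit 0, nat_lit 0, nat_lit 27182317233292, nat_lit 0, nat_lit 1000000, nat_lit 0, nat_lit 0, [(nat_lit 3, [(nat_lit 2, nat_lit 1000)])],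
 ⟨p028_k22, nat_lit 0, nat_lit 0, nat_lit 250, nat_lit 0, nat_lit 196342, [nat_lit 3292500000, nat_lit 3077200001, nat_lit 1896400000], [], [nat_lit 25392853039, nat_lit 24801066184, nat_lit 23701419659, nat_lit 24008101348, nat_lit 29248420184, nat_lit 28911732884, nat_lit 33197550130, nat_lit 32297850575], nat_lit 1271250, nat_lit 1271250, nat_lit 0, nat_lit 780000, nat_lit 1100001, nat_lit 2264500, [nat_lit 1412500, nat_lit 1271250, nat_lit 1271250], [nat_lit 25, nat_lit 40, nat_lit 20, nat_lit 80, nat_lit 17, nat_lit 401, nat_lit 175, nat_lit 12]⟩, ⟨p028_k38, nat_lit 0, nat_lit 0, nat_lit 518, nat_lit 0, nat_lit 237491, [nat_lit 0, nat_lit 0, nat_lit 0], [], [nat_lit 0, nat_lit 0, nat_lit 0, nat_lit 0, nat_lit 0, nat_lit 0, nat_lit 0, nat_lit 0], nat_lit 1271250, nat_lit 1271250, nat_lit 0, nat_lit 780000, nat_lit 0, nat_lit 2260000, [nat_lit 1412500, nat_lit 1271250, nat_lit 1271250], [nat_lit 53, nat_lit 40,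 nat_lit 20, nat_lit 80, nat_lit 14, nat_lit 401, nat_lit 175, nat_lit 11]⟩,
 ⟨nat_lit 6324, nat_lit 6520, ⟨.ofNat (nat_lit 79059), .ofNat (nat_lit 331623), .ofNat (nat_lit 121855), .ofNat (nat_lit 374419), .ofNat (nat_lit 88677), .ofNat (nat_lit 335470), .ofNat (nat_lit 131413), .ofNat (nat_lit 378206)⟩, ⟨.ofNat (nat_lit 223228), .ofNat (nat_lit 509466), .ofNat (nat_lit 244626), .ofNat (nat_lit 530862), .ofNat (nat_lit 225423), .ofNat (nat_lit 505121), .ofNat (nat_lit 246791), .ofNat (nat_lit 526487)⟩⟩, [⟨nat_lit 4, nat_lit 94, nat_lit 100, nat_lit 54, nat_lit 656780252⟩]⟩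
noncomputable def p028_l112 : Lf2 := ⟨nat_lit 0, nat_lit 5, [nat_lit 4, nat_lit 5, nat_lit 5, nat_lit 20], true, nat_lit 160, nat_lit 304, nat_lit 0, nat_lit 320, ⟨nat_lit 0, nat_lit 1000, nat_lit 0, nat_lit 5, nat_lit 192, nat_lit 1000, nat_lit 154, nat_lit 0, nat_lit 0, nat_lit 0, nat_lit 0, nat_lit 0, nat_lit 0, nat_lit 0, nat_lit 0, nat_lit 5000000, false, false⟩,
 nat_lit 0, nat_lit 6531, nat_lit 0, nat_lit 0, nat_lit 3123, nat_lit 0, nat_lit 860, nat_lit 0, nat_lit 0, nat_lit 0, nat_lit 0, nat_lit 0, nat_lit 0, nat_lit 19964161915884, nat_lit 0, nat_lit 1000000, nat_lit 0, nat_lit 0, [(nat_lit 3, [(nat_lit 2, nat_lit 1000)])],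
 ⟨p028_k37, nat_lit 0, nat_lit 0, nat_lit 245, nat_lit 0, nat_lit 409043, [nat_lit 3292500000, nat_lit 3077200001, nat_lit 1896400000], [], [nat_lit 29728321694, nat_lit 28051464320, nat_lit 28749771751, nat_lit 27278195413, nat_lit 25479784933, nat_lit 26025337051, nat_lit 27668993459, nat_lit 28117968543], nat_lit 1271250, nat_lit 1271250, nat_lit 780000, nat_lit 1762500, nat_lit 1271250, nat_lit 1271250, [nat_lit 1412500, nat_lit 1271250, nat_lit 1271250], [nat_lit 25, nat_lit 40, nat_lit 20, nat_lit 80, nat_lit 17, nat_lit 428, nat_lit 200, nat_lit 12]⟩, C1.Rw.none,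
 ⟨nat_lit 6324, nat_lit 6709, ⟨.ofNat (nat_lit 327688), .ofNat (nat_lit 586126), .ofNat (nat_lit 370564), .ofNat (nat_lit 628989), .ofNat (nat_lit 335470), .ofNat (nat_lit 582235), .ofNat (nat_lit 378206), .ofNat (nat_lit 624956)⟩, ⟨.ofNat (nat_lit 220898), .ofNat (nat_lit 531043), .ofNat (nat_lit 242336), .ofNat (nat_lit 552474), .ofNat (nat_lit 225423), .ofNat (nat_lit 521560), .ofNat (nat_lit 246791), .ofNat (nat_lit 542921)⟩⟩, [⟨nat_lit 4, nat_lit 93, nat_lit 100, nat_lit 53, nat_lit 171130113⟩]⟩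
noncomputable def p028_l113 : Lf2 := ⟨nat_lit 0, nat_lit 5, [nat_lit 4, nat_lit 5, nat_lit 5, nat_lit 20], false, nat_lit 0, nat_lit 320, nat_lit 0, nat_lit 320, ⟨nat_lit 967, nat_lit 33, nat_lit 0, nat_lit 6, nat_lit 312, nat_lit 33, nat_lit 115, nat_lit 0, nat_lit 0, nat_lit 0, nat_lit 0, nat_lit 0, nat_lit 0, nat_lit 0, nat_lit 0, nat_lit 5000000, true, true⟩,
 nat_lit 20613, nat_lit 0, nat_lit 0, nat_lit 11846, nat_lit 8834, nat_lit 8834, nat_lit 1853, nat_lit 0, nat_lit 0, nat_lit 1859, nat_lit 0, nat_lit 0, nat_lit 0, nat_lit 0, nat_lit 0, nat_lit 33000, nat_lit 0, nat_lit 0, [(nat_lit 0, [(nat_lit 2, nat_lit 33)]), (nat_lit 3, [(nat_lit 2, nat_lit 33)])],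
 ⟨p028_k38, nat_lit 0, nat_lit 0, nat_lit 378, nat_lit 0, nat_lit 237491, [nat_lit 6152402500, nat_lit 7829994000, nat_lit 11510702800], [], [nat_lit 30161849325, nat_lit 31003510817, nat_lit 40298209441, nat_lit 40933802528, nat_lit 34575821464, nat_lit 27982811260, nat_lit 34942941016, nat_lit 35518375424], nat_lit 1271250, nat_lit 1271250, nat_lit 1271250, nat_lit 1271250, nat_lit 0, nat_lit 2260000, [nat_lit 1412500, nat_lit 1271250, nat_lit 1271250], [nat_lit 53, nat_lit 40, nat_lit 20, nat_lit 80, nat_lit 14, nat_lit 483, nat_lit 250, nat_lit 12]⟩, ⟨p028_k38, nat_lit 0, nat_lit 0, nat_lit 378, nat_lit 0, nat_lit 237491, [nat_lit 6043750000, nat_lit 7705056000, nat_lit 11480224000], [], [nat_lit 28945944219, nat_lit 29982335015, nat_lit 39430668439, nat_lit 40312897496, nat_lit 33415046068, nat_lit 26742222220, nat_lit 34125810064, nat_lit 34670189624], nat_lit 1271250, nat_lit 1271250, nat_lit 1271250, nat_lit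 1271250, nat_lit 0, nat_lit 2260000, [nat_lit 1412500, nat_lit 1271250, nat_lit 1271250], [nat_lit 53, nat_lit 40, nat_lit 20, nat_lit 80, nat_lit 14, nat_lit 483, nat_lit 250, nat_lit 12]⟩,
 ⟨nat_lit 6324, nat_lit 7072, ⟨.ofNat (nat_lit 590110), .ofNat (nat_lit 950552), .ofNat (nat_lit 633154), .ofNat (nat_lit 993595), .ofNat (nat_lit 582138), .ofNat (nat_lit 910689), .ofNat (nat_lit 624821), .ofNat (nat_lit 953372)⟩, ⟨.negSucc (nat_lit 145122), .ofNat (nat_lit 576633), .negSucc (nat_lit 123573), .ofNat (nat_lit 598155), .negSucc (nat_lit 103636), .ofNat (nat_lit 554338), .negSucc (nat_lit 82267), .ofNat (nat_lit 575680)⟩⟩, [⟨nat_lit 16, nat_lit 100, nat_lit 90, nat_lit 53, nat_lit 181887521⟩, ⟨nat_lit 7, nat_lit 90, nat_lit 100, nat_lit 53, nat_lit 171926558⟩]⟩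
noncomputable def b_VL_500_500_5_37 : St := ⟨true, nat_lit 1, nat_lit 2, nat_lit 2, nat_lit 40, nat_lit 200, nat_lit 240, nat_lit 200, nat_lit 240, nat_lit 0, nat_lit 400, nat_lit 20, nat_lit 40, nat_lit 0, nat_lit 320, nat_lit 0, nat_lit 320, nat_lit 0, nat_lit 20, nat_lit 0, nat_lit 0, nat_lit 0, nat_lit 0⟩
theorem d_VL_500_500_5_37 (h : EB TB.env) : Dead b_VL_500_500_5_37 := chkB_sound0 h (T :=
(.st (nat_lit 1)
(.spl (nat_lit 2) (nat_lit 240)
(.spl (nat_lit 0) (nat_lit 220)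
(.ord (.leaf p028_l87))
(.trX (nat_lit 16) (nat_lit 100) (nat_lit 86) (nat_lit 60) (nat_lit 304) (.spl (nat_lit 4) (nat_lit 160)
(.spl (nat_lit 0) (nat_lit 230)
(.ord (.spl (nat_lit 6) (nat_lit 8)
(.spl (nat_lit 0) (nat_lit 225)
(.ord (.spl (nat_lit 0) (nat_lit 223)
(.ord (.leaf p028_l88))
(.leaf p028_l89)))
(.leaf p028_l90))
(.leaf p028_l91)))
(.spl (nat_lit 6) (nat_lit 8)
(.spl (nat_lit 2) (nat_lit 120)
(.spl (nat_lit 2) (nat_lit 80)
(.leaf p028_l92)
(.leaf p028_l93))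
(.leaf p028_l94))
(.spl (nat_lit 0) (nat_lit 235)
(.ord (.leaf p028_l95))
(.spl (nat_lit 6) (nat_lit 16)
(.spl (nat_lit 0) (nat_lit 238)
(.ord (.leaf p028_l96))
(.leaf p028_l97))
(.leaf p028_l98)))))
(.spl (nat_lit 2) (nat_lit 120)
(.spl (nat_lit 4) (nat_lit 240)
(.leaf p028_l99)
(.leaf p028_l100))
(.leaf p028_l101)))))
(.spl (nat_lit 0) (nat_lit 220)
(.ord (.leaf p028_l102))
(.trX (nat_lit 16) (nat_lit 100) (nat_lit 86) (nat_lit 60) (nat_lit 304) (.leaf p028_l103))))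
(.spl (nat_lit 2) (nat_lit 240)
(.spl (nat_lit 0) (nat_lit 220)
(.ord (.leaf p028_l104))
(.trX (nat_lit 16) (nat_lit 100) (nat_lit 86) (nat_lit 60) (nat_lit 304) (.spl (nat_lit 4) (nat_lit 160)
(.spl (nat_lit 0) (nat_lit 230)
(.ord (.spl (nat_lit 6) (nat_lit 8)
(.spl (nat_lit 0) (nat_lit 225)
(.ord (.leaf p028_l105))
(.leaf p028_l106))
(.leaf p028_l107)))
(.spl (nat_lit 0) (nat_lit 235)
(.ord (.leaf p028_l108))
(.leaf p028_l109)))
(.spl (nat_lit 2) (nat_lit 120)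
(.spl (nat_lit 0) (nat_lit 230)
(.ord (.leaf p028_l110))
(.trX (nat_lit 16) (nat_lit 100) (nat_lit 89) (nat_lit 61) (nat_lit 296) (.leaf p028_l111)))
(.leaf p028_l112)))))
(.leaf p028_l113)))) (by decide +kernel)
noncomputable def p028_l114 : Lf2 := ⟨nat_lit 0, nat_lit 8, [nat_lit 50, nat_lit 5, nat_lit 5, nat_lit 20], true, nat_lit 0, nat_lit 288, nat_lit 0, nat_lit 352, ⟨nat_lit 0, nat_lit 0, nat_lit 1000, nat_lit 4, nat_lit 95, nat_lit 1000, nat_lit 99, nat_lit 1000, nat_lit 25350, nat_lit 254, nat_lit 84017, nat_lit 286, nat_lit 63424046, nat_lit 0, nat_lit 0, nat_lit 1041631, false, false⟩,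
 nat_lit 0, nat_lit 0, nat_lit 0, nat_lit 4826, nat_lit 4082, nat_lit 0, nat_lit 0, nat_lit 0, nat_lit 0, nat_lit 0, nat_lit 0, nat_lit 0, nat_lit 0, nat_lit 0, nat_lit 99, nat_lit 628600, nat_lit 0, nat_lit 0, [(nat_lit 6, [(nat_lit 5, nat_lit 619), (nat_lit 6, nat_lit 381)])],
 ⟨p028_k44, nat_lit 0, nat_lit 0, nat_lit 305, nat_lit 0, nat_lit 0, [nat_lit 3045948401, nat_lit 1093987200, nat_lit 15096000], [], [nat_lit 15673063642, nat_lit 16794075204, nat_lit 15070747330, nat_lit 15917317382, nat_lit 19175033716, nat_lit 20333502974, nat_lit 18324319487, nat_lit 19152519638], nat_lit 0, nat_lit 0, nat_lit 0, nat_lit 0, nat_lit 0, nat_lit 0, [], [nat_lit 29, nat_lit 40, nat_lit 20, nat_lit 80, nat_lit 17, nat_lit 428, nat_lit 200, nat_lit 13]⟩, C1.Rw.none,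
 ⟨nat_lit 5916, nat_lit 6325, ⟨.ofNat (nat_lit 45942), .ofNat (nat_lit 374999), .ofNat (nat_lit 88677), .ofNat (nat_lit 417734), .ofNat (nat_lit 64652), .ofNat (nat_lit 378786), .ofNat (nat_lit 107331), .ofNat (nat_lit 421465)⟩, ⟨.negSucc (nat_lit 103633), .ofNat (nat_lit 488669), .negSucc (nat_lit 82265), .ofNat (nat_lit 510037), .negSucc (nat_lit 84722), .ofNat (nat_lit 480719), .negSucc (nat_lit 63383), .ofNat (nat_lit 502058)⟩⟩, [⟨nat_lit 0, nat_lit 100, nat_lit 95, nat_lit 30, nat_lit 131054219⟩, ⟨nat_lit 4, nat_lit 99, nat_lit 100, nat_lit 54, nat_lit 10872789⟩]⟩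
noncomputable def p028_l115 : Lf2 := ⟨nat_lit 0, nat_lit 8, [nat_lit 50, nat_lit 5, nat_lit 5, nat_lit 20], true, nat_lit 0, nat_lit 268, nat_lit 0, nat_lit 352, ⟨nat_lit 0, nat_lit 0, nat_lit 1000, nat_lit 4, nat_lit 99, nat_lit 1000, nat_lit 90, nat_lit 1000, nat_lit 56067, nat_lit 273, nat_lit 93750, nat_lit 290, nat_lit 63104703, nat_lit 0, nat_lit 0, nat_lit 1109069, false, false⟩,
 nat_lit 0, nat_lit 0, nat_lit 0, nat_lit 4414, nat_lit 4415, nat_lit 0, nat_lit 0, nat_lit 0, nat_lit 0, nat_lit 0, nat_lit 0, nat_lit 0, nat_lit 0, nat_lit 0, nat_lit 116, nat_lit 566800, nat_lit 0, nat_lit 0, [(nat_lit 9, [(nat_lit 5, nat_lit 722), (nat_lit 6, nat_lit 278)])],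
 ⟨p028_k45, nat_lit 0, nat_lit 0, nat_lit 302, nat_lit 0, nat_lit 0, [nat_lit 3523957600, nat_lit 6548800], [], [nat_lit 16705705430, nat_lit 18256656920, nat_lit 15422269170, nat_lit 16551521800, nat_lit 19607001558, nat_lit 20634428400, nat_lit 18809830072, nat_lit 19565352810], nat_lit 0, nat_lit 0, nat_lit 0, nat_lit 0, nat_lit 0, nat_lit 0, [], [nat_lit 70, nat_lit 40, nat_lit 20, nat_lit 80, nat_lit 13, nat_lit 428, nat_lit 200, nat_lit 13]⟩, C1.Rw.none,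
 ⟨nat_lit 5477, nat_lit 5917, ⟨.ofNat (nat_lit 64652), .ofNat (nat_lit 378786), .ofNat (nat_lit 107331), .ofNat (nat_lit 421465), .ofNat (nat_lit 82619), .ofNat (nat_lit 382351), .ofNat (nat_lit 125333), .ofNat (nat_lit 425065)⟩, ⟨.negSucc (nat_lit 84722), .ofNat (nat_lit 441452), .negSucc (nat_lit 63383), .ofNat (nat_lit 462791), .negSucc (nat_lit 66879), .ofNat (nat_lit 435171), .negSucc (nat_lit 45522), .ofNat (nat_lit 456528)⟩⟩, [⟨nat_lit 0, nat_lit 100, nat_lit 94, nat_lit 26, nat_lit 128035207⟩]⟩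
noncomputable def p028_l116 : Lf2 := ⟨nat_lit 0, nat_lit 8, [nat_lit 50, nat_lit 5, nat_lit 5, nat_lit 20], false, nat_lit 0, nat_lit 160, nat_lit 0, nat_lit 352, ⟨nat_lit 815, nat_lit 0, nat_lit 185, nat_lit 4, nat_lit 253, nat_lit 185, nat_lit 48, nat_lit 185, nat_lit 10417, nat_lit 240, nat_lit 534094, nat_lit 200, nat_lit 47889463, nat_lit 0, nat_lit 0, nat_lit 2989134, false, true⟩,
 nat_lit 0, nat_lit 0, nat_lit 0, nat_lit 14416, nat_lit 6799, nat_lit 9823, nat_lit 875, nat_lit 0, nat_lit 0, nat_lit 948, nat_lit 0, nat_lit 0, nat_lit 0, nat_lit 0, nat_lit 0, nat_lit 185000, nat_lit 0, nat_lit 0, [(nat_lit 6, [(nat_lit 6, nat_lit 185)]), (nat_lit 9, [(nat_lit 6, nat_lit 185)])],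
 ⟨p028_k44, nat_lit 0, nat_lit 0, nat_lit 224, nat_lit 0, nat_lit 0, [nat_lit 4104510001, nat_lit 6164891334, nat_lit 7261102000], [], [nat_lit 20430154881, nat_lit 23047358300, nat_lit 35719589549, nat_lit 37327032406, nat_lit 17389287597, nat_lit 19476860025, nat_lit 29874885258, nat_lit 31166595356], nat_lit 0, nat_lit 0, nat_lit 0, nat_lit 0, nat_lit 0, nat_lit 0, [], [nat_lit 29, nat_lit 40, nat_lit 20, nat_lit 80, nat_lit 17, nat_lit 456, nat_lit 225, nat_lit 13]⟩, ⟨p028_k46, nat_lit 0, nat_lit 0, nat_lit 332, nat_lit 0, nat_lit 0, [nat_lit 6493920000, nat_lit 9675680000, nat_lit 11457270000], [], [nat_lit 26239265396, nat_lit 27047965560, nat_lit 41067252405, nat_lit 40760829807, nat_lit 26561035503, nat_lit 26579811606, nat_lit 33932300529, nat_lit 33428349011], nat_lit 0, nat_lit 0, nat_lit 0, nat_lit 0, nat_lit 0, nat_lit 0, [], [nat_lit 62, nat_lit 40, nat_lit 20, nat_lit 80, nat_lit 58, nat_lit 483,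 nat_lit 250, nat_lit 11]⟩,
 ⟨nat_lit 5477, nat_lit 6325, ⟨.ofNat (nat_lit 374999), .ofNat (nat_lit 859998), .ofNat (nat_lit 417734), .ofNat (nat_lit 902672), .ofNat (nat_lit 382351), .ofNat (nat_lit 824097), .ofNat (nat_lit 425065), .ofNat (nat_lit 866749)⟩, ⟨.negSucc (nat_lit 103633), .ofNat (nat_lit 225423), .negSucc (nat_lit 82265), .ofNat (nat_lit 246791), .negSucc (nat_lit 66879), .ofNat (nat_lit 232852), .negSucc (nat_lit 45522), .ofNat (nat_lit 254209)⟩⟩, [⟨nat_lit 19, nat_lit 100, nat_lit 80, nat_lit 53, nat_lit 105802157⟩]⟩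
noncomputable def p028_l117 : Lf2 := ⟨nat_lit 0, nat_lit 8, [nat_lit 50, nat_lit 5, nat_lit 5, nat_lit 20], false, nat_lit 160, nat_lit 288, nat_lit 0, nat_lit 352, ⟨nat_lit 425, nat_lit 575, nat_lit 0, nat_lit 4, nat_lit 253, nat_lit 575, nat_lit 146, nat_lit 0, nat_lit 0, nat_lit 0, nat_lit 0, nat_lit 0, nat_lit 41798454, nat_lit 17749631, nat_lit 7451915, nat_lit 4772139, false, true⟩,
 nat_lit 0, nat_lit 0, nat_lit 0, nat_lit 6305, nat_lit 5017, nat_lit 5120, nat_lit 0, nat_lit 0, nat_lit 0, nat_lit 494, nat_lit 0, nat_lit 0, nat_lit 0, nat_lit 0, nat_lit 0, nat_lit 230000, nat_lit 0, nat_lit 0, [(nat_lit 6, [(nat_lit 1, nat_lit 575)]), (nat_lit 9, [(nat_lit 1, nat_lit 575)])],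
 ⟨p028_k44, nat_lit 0, nat_lit 0, nat_lit 94, nat_lit 0, nat_lit 0, [nat_lit 3624250000, nat_lit 5278150000, nat_lit 6005140000], [], [nat_lit 11889861816, nat_lit 14769574232, nat_lit 26468226203, nat_lit 27937725706, nat_lit 18666817757, nat_lit 20785892608, nat_lit 29783231564, nat_lit 30985746136], nat_lit 0, nat_lit 0, nat_lit 0, nat_lit 0, nat_lit 0, nat_lit 0, [], [nat_lit 29, nat_lit 40, nat_lit 20, nat_lit 80, nat_lit 17, nat_lit 483, nat_lit 250, nat_lit 13]⟩, ⟨p028_k46, nat_lit 0, nat_lit 0, nat_lit 332, nat_lit 0, nat_lit 0, [nat_lit 3386400000, nat_lit 5045600000, nat_lit 5974650000], [], [nat_lit 13683621090, nat_lit 14105351050, nat_lit 21412466852, nat_lit 21252931016, nat_lit 13852997506, nat_lit 13861673544, nat_lit 17694956506, nat_lit 17428856039], nat_lit 0, nat_lit 0, nat_lit 0, nat_lit 0, nat_lit 0, nat_lit 0, [], [nat_lit 62, nat_lit 40, nat_lit 20, nat_lit 80, nat_lit 58, nat_lit 483, nat_lit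 250, nat_lit 11]⟩,
 ⟨nat_lit 5477, nat_lit 6325, ⟨.ofNat (nat_lit 374999), .ofNat (nat_lit 859998), .ofNat (nat_lit 417734), .ofNat (nat_lit 902672), .ofNat (nat_lit 382351), .ofNat (nat_lit 824097), .ofNat (nat_lit 425065), .ofNat (nat_lit 866749)⟩, ⟨.ofNat (nat_lit 225423), .ofNat (nat_lit 488669), .ofNat (nat_lit 246791), .ofNat (nat_lit 510037), .ofNat (nat_lit 232852), .ofNat (nat_lit 472638), .ofNat (nat_lit 254209), .ofNat (nat_lit 493995)⟩⟩, [⟨nat_lit 16, nat_lit 98, nat_lit 100, nat_lit 54, nat_lit 363388524⟩, ⟨nat_lit 19, nat_lit 100, nat_lit 68, nat_lit 61, nat_lit 45610473⟩]⟩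
noncomputable def p028_l118 : Lf2 := ⟨nat_lit 0, nat_lit 8, [nat_lit 50, nat_lit 5, nat_lit 5, nat_lit 20], true, nat_lit 0, nat_lit 288, nat_lit 0, nat_lit 352, ⟨nat_lit 0, nat_lit 0, nat_lit 1000, nat_lit 4, nat_lit 95, nat_lit 1000, nat_lit 99, nat_lit 1000, nat_lit 25350, nat_lit 254, nat_lit 84017, nat_lit 286, nat_lit 63424046, nat_lit 0, nat_lit 0, nat_lit 1041631, false, false⟩,
 nat_lit 0, nat_lit 0, nat_lit 0, nat_lit 4826, nat_lit 4082, nat_lit 0, nat_lit 0, nat_lit 0, nat_lit 0, nat_lit 0, nat_lit 0, nat_lit 0, nat_lit 0, nat_lit 0, nat_lit 99, nat_lit 628600, nat_lit 0, nat_lit 0, [(nat_lit 6, [(nat_lit 5, nat_lit 619), (nat_lit 6, nat_lit 381)])],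
 ⟨p028_k44, nat_lit 0, nat_lit 0, nat_lit 305, nat_lit 0, nat_lit 0, [nat_lit 3045948401, nat_lit 1093987200, nat_lit 15096000], [], [nat_lit 15673063642, nat_lit 16794075204, nat_lit 15070747330, nat_lit 15917317382, nat_lit 19175033716, nat_lit 20333502974, nat_lit 18324319487, nat_lit 19152519638], nat_lit 0, nat_lit 0, nat_lit 0, nat_lit 0, nat_lit 0, nat_lit 0, [], [nat_lit 29, nat_lit 40, nat_lit 20, nat_lit 80, nat_lit 17, nat_lit 428, nat_lit 200, nat_lit 13]⟩, C1.Rw.none,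
 ⟨nat_lit 5916, nat_lit 6325, ⟨.ofNat (nat_lit 45942), .ofNat (nat_lit 374999), .ofNat (nat_lit 88677), .ofNat (nat_lit 417734), .ofNat (nat_lit 64652), .ofNat (nat_lit 378786), .ofNat (nat_lit 107331), .ofNat (nat_lit 421465)⟩, ⟨.negSucc (nat_lit 103633), .ofNat (nat_lit 488669), .negSucc (nat_lit 82265), .ofNat (nat_lit 510037), .negSucc (nat_lit 84722), .ofNat (nat_lit 480719), .negSucc (nat_lit 63383), .ofNat (nat_lit 502058)⟩⟩, [⟨nat_lit 0, nat_lit 100, nat_lit 95, nat_lit 30, nat_lit 131054219⟩, ⟨nat_lit 4, nat_lit 99, nat_lit 100, nat_lit 54, nat_lit 10872789⟩]⟩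
noncomputable def p028_l119 : Lf2 := ⟨nat_lit 0, nat_lit 8, [nat_lit 50, nat_lit 5, nat_lit 5, nat_lit 20], true, nat_lit 0, nat_lit 268, nat_lit 0, nat_lit 352, ⟨nat_lit 0, nat_lit 0, nat_lit 1000, nat_lit 4, nat_lit 99, nat_lit 1000, nat_lit 90, nat_lit 1000, nat_lit 56067, nat_lit 273, nat_lit 93750, nat_lit 290, nat_lit 63104703, nat_lit 0, nat_lit 0, nat_lit 1109069, false, false⟩,
 nat_lit 0, nat_lit 0, nat_lit 0, nat_lit 4414, nat_lit 4415, nat_lit 0, nat_lit 0, nat_lit 0, nat_lit 0, nat_lit 0, nat_lit 0, nat_lit 0, nat_lit 0, nat_lit 0, nat_lit 116, nat_lit 566800, nat_lit 0, nat_lit 0, [(nat_lit 9, [(nat_lit 5, nat_lit 722), (nat_lit 6, nat_lit 278)])],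
 ⟨p028_k45, nat_lit 0, nat_lit 0, nat_lit 302, nat_lit 0, nat_lit 0, [nat_lit 3523957600, nat_lit 6548800], [], [nat_lit 16705705430, nat_lit 18256656920, nat_lit 15422269170, nat_lit 16551521800, nat_lit 19607001558, nat_lit 20634428400, nat_lit 18809830072, nat_lit 19565352810], nat_lit 0, nat_lit 0, nat_lit 0, nat_lit 0, nat_lit 0, nat_lit 0, [], [nat_lit 70, nat_lit 40, nat_lit 20, nat_lit 80, nat_lit 13, nat_lit 428, nat_lit 200, nat_lit 13]⟩, C1.Rw.none,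
 ⟨nat_lit 5477, nat_lit 5917, ⟨.ofNat (nat_lit 64652), .ofNat (nat_lit 378786), .ofNat (nat_lit 107331), .ofNat (nat_lit 421465), .ofNat (nat_lit 82619), .ofNat (nat_lit 382351), .ofNat (nat_lit 125333), .ofNat (nat_lit 425065)⟩, ⟨.negSucc (nat_lit 84722), .ofNat (nat_lit 441452), .negSucc (nat_lit 63383), .ofNat (nat_lit 462791), .negSucc (nat_lit 66879), .ofNat (nat_lit 435171), .negSucc (nat_lit 45522), .ofNat (nat_lit 456528)⟩⟩, [⟨nat_lit 0, nat_lit 100, nat_lit 94, nat_lit 26, nat_lit 128035207⟩]⟩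
noncomputable def p028_l120 : Lf2 := ⟨nat_lit 0, nat_lit 8, [nat_lit 50, nat_lit 5, nat_lit 5, nat_lit 20], true, nat_lit 0, nat_lit 160, nat_lit 0, nat_lit 352, ⟨nat_lit 0, nat_lit 0, nat_lit 1000, nat_lit 4, nat_lit 191, nat_lit 0, nat_lit 48, nat_lit 748, nat_lit 10417, nat_lit 240, nat_lit 3720, nat_lit 219, nat_lit 54512951, nat_lit 0, nat_lit 0, nat_lit 2404609, false, true⟩,
 nat_lit 0, nat_lit 0, nat_lit 0, nat_lit 4265, nat_lit 4917, nat_lit 0, nat_lit 0, nat_lit 0, nat_lit 0, nat_lit 0, nat_lit 0, nat_lit 0, nat_lit 0, nat_lit 0, nat_lit 89, nat_lit 548200, nat_lit 0, nat_lit 0, [(nat_lit 6, [(nat_lit 5, nat_lit 753), (nat_lit 6, nat_lit 247)]), (nat_lit 9, [(nat_lit 5, nat_lit 753), (nat_lit 6, nat_lit 247)])],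
 ⟨p028_k47, nat_lit 0, nat_lit 0, nat_lit 152, nat_lit 0, nat_lit 0, [nat_lit 3118755200, nat_lit 27752000], [], [nat_lit 13851899812, nat_lit 16385878400, nat_lit 16908741616, nat_lit 19077193828, nat_lit 12383353568, nat_lit 14197712292, nat_lit 14686674184, nat_lit 16542356768], nat_lit 0, nat_lit 0, nat_lit 0, nat_lit 0, nat_lit 0, nat_lit 0, [], [nat_lit 70, nat_lit 40, nat_lit 20, nat_lit 80, nat_lit 13, nat_lit 401, nat_lit 175, nat_lit 12]⟩, C1.Rw.none,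
 ⟨nat_lit 5477, nat_lit 6325, ⟨.ofNat (nat_lit 374999), .ofNat (nat_lit 539501), .ofNat (nat_lit 417734), .ofNat (nat_lit 582178), .ofNat (nat_lit 382351), .ofNat (nat_lit 532191), .ofNat (nat_lit 425065), .ofNat (nat_lit 574846)⟩, ⟨.negSucc (nat_lit 103633), .ofNat (nat_lit 225423), .negSucc (nat_lit 82265), .ofNat (nat_lit 246791), .negSucc (nat_lit 66879), .ofNat (nat_lit 232852), .negSucc (nat_lit 45522), .ofNat (nat_lit 254209)⟩⟩, []⟩
noncomputable def p028_l121 : Lf2 := ⟨nat_lit 0, nat_lit 8, [nat_lit 50, nat_lit 5, nat_lit 5, nat_lit 20], true, nat_lit 0, nat_lit 160, nat_lit 0, nat_lit 352, ⟨nat_lit 0, nat_lit 955, nat_lit 45, nat_lit 6, nat_lit 256, nat_lit 0, nat_lit 48, nat_lit 0, nat_lit 8817, nat_lit 238, nat_lit 222188, nat_lit 200, nat_lit 47557005, nat_lit 19442995, nat_lit 0, nat_lit 3011625, false, true⟩,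
 nat_lit 0, nat_lit 0, nat_lit 0, nat_lit 7148, nat_lit 6447, nat_lit 0, nat_lit 0, nat_lit 0, nat_lit 0, nat_lit 0, nat_lit 0, nat_lit 0, nat_lit 0, nat_lit 0, nat_lit 0, nat_lit 1000000, nat_lit 0, nat_lit 0, [(nat_lit 6, [(nat_lit 2, nat_lit 955), (nat_lit 6, nat_lit 45)])],
 ⟨p028_k47, nat_lit 0, nat_lit 0, nat_lit 171, nat_lit 0, nat_lit 0, [nat_lit 4179502001, nat_lit 1038289000], [], [nat_lit 20698797745, nat_lit 21718875897, nat_lit 25598510616, nat_lit 26526840414, nat_lit 17492398369, nat_lit 18342206011, nat_lit 21176385085, nat_lit 21838260163], nat_lit 0, nat_lit 0, nat_lit 0, nat_lit 0, nat_lit 0, nat_lit 0, [], [nat_lit 70, nat_lit 40, nat_lit 20, nat_lit 80, nat_lit 13, nat_lit 428, nat_lit 200, nat_lit 12]⟩, C1.Rw.none,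
 ⟨nat_lit 5916, nat_lit 6325, ⟨.ofNat (nat_lit 539519), .ofNat (nat_lit 703998), .ofNat (nat_lit 582240), .ofNat (nat_lit 746719), .ofNat (nat_lit 535845), .ofNat (nat_lit 692863), .ofNat (nat_lit 578509), .ofNat (nat_lit 735527)⟩, ⟨.negSucc (nat_lit 103633), .ofNat (nat_lit 225423), .negSucc (nat_lit 82265), .ofNat (nat_lit 246791), .negSucc (nat_lit 84722), .ofNat (nat_lit 229411), .negSucc (nat_lit 63383), .ofNat (nat_lit 250751)⟩⟩, []⟩
noncomputable def p028_l122 : Lf2 := ⟨nat_lit 0, nat_lit 8, [nat_lit 50, nat_lit 5, nat_lit 5, nat_lit 20], true, nat_lit 0, nat_lit 160, nat_lit 0, nat_lit 352, ⟨nat_lit 0, nat_lit 1000, nat_lit 0, nat_lit 6, nat_lit 253, nat_lit 218, nat_lit 48, nat_lit 0, nat_lit 0, nat_lit 0, nat_lit 0, nat_lit 0, nat_lit 47873041, nat_lit 19126959, nat_lit 0, nat_lit 2990259, false, true⟩,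
 nat_lit 0, nat_lit 0, nat_lit 0, nat_lit 6258, nat_lit 5853, nat_lit 0, nat_lit 0, nat_lit 0, nat_lit 0, nat_lit 0, nat_lit 0, nat_lit 0, nat_lit 0, nat_lit 0, nat_lit 0, nat_lit 865000, nat_lit 0, nat_lit 0, [(nat_lit 9, [(nat_lit 1, nat_lit 225), (nat_lit 2, nat_lit 775)])],
 ⟨p028_k45, nat_lit 0, nat_lit 0, nat_lit 175, nat_lit 0, nat_lit 0, [nat_lit 3795900001, nat_lit 849240000], [], [nat_lit 21752361505, nat_lit 22730256153, nat_lit 26067440824, nat_lit 26961982932, nat_lit 18949933991, nat_lit 19769040149, nat_lit 22313516639, nat_lit 22959568342], nat_lit 0, nat_lit 0, nat_lit 0, nat_lit 0, nat_lit 0, nat_lit 0, [], [nat_lit 70, nat_lit 40, nat_lit 20, nat_lit 80, nat_lit 13, nat_lit 428, nat_lit 200, nat_lit 12]⟩, C1.Rw.none,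
 ⟨nat_lit 5477, nat_lit 5917, ⟨.ofNat (nat_lit 535851), .ofNat (nat_lit 692881), .ofNat (nat_lit 578514), .ofNat (nat_lit 735543), .ofNat (nat_lit 532215), .ofNat (nat_lit 682044), .ofNat (nat_lit 574913), .ofNat (nat_lit 724742)⟩, ⟨.negSucc (nat_lit 84722), .ofNat (nat_lit 229411), .negSucc (nat_lit 63383), .ofNat (nat_lit 250751), .negSucc (nat_lit 66879), .ofNat (nat_lit 232852), .negSucc (nat_lit 45522), .ofNat (nat_lit 254209)⟩⟩, []⟩
noncomputable def p028_l123 : Lf2 := ⟨nat_lit 0, nat_lit 4, [nat_lit 38, nat_lit 5, nat_lit 5, nat_lit 20], false, nat_lit 0, nat_lit 160, nat_lit 0, nat_lit 336, ⟨nat_lit 122, nat_lit 878, nat_lit 0, nat_lit 8, nat_lit 313, nat_lit 688, nat_lit 48, nat_lit 0, nat_lit 0, nat_lit 0, nat_lit 0, nat_lit 0, nat_lit 41598107, nat_lit 25401893, nat_lit 0, nat_lit 3318189, false, true⟩,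
 nat_lit 0, nat_lit 0, nat_lit 3081, nat_lit 0, nat_lit 4886, nat_lit 1026, nat_lit 0, nat_lit 0, nat_lit 0, nat_lit 0, nat_lit 0, nat_lit 0, nat_lit 0, nat_lit 0, nat_lit 0, nat_lit 878000, nat_lit 0, nat_lit 0, [(nat_lit 6, [(nat_lit 2, nat_lit 878)])],
 ⟨p028_k48, nat_lit 0, nat_lit 0, nat_lit 178, nat_lit 0, nat_lit 0, [nat_lit 3493568801, nat_lit 3074579733], [], [nat_lit 26038533550, nat_lit 26843207670, nat_lit 30671765614, nat_lit 31285525969, nat_lit 23955669310, nat_lit 24640039918, nat_lit 27891028010, nat_lit 28420081148], nat_lit 0, nat_lit 0, nat_lit 0, nat_lit 0, nat_lit 0, nat_lit 0, [], [nat_lit 39, nat_lit 40, nat_lit 20, nat_lit 80, nat_lit 7, nat_lit 249, nat_lit 40, nat_lit 7]⟩, ⟨p028_k49, nat_lit 0, nat_lit 0, nat_lit 432, nat_lit 0, nat_lit 369428, [nat_lit 972096000, nat_lit 1448384000], [], [nat_lit 5998045768, nat_lit 5984685184, nat_lit 6363557140, nat_lit 6336675604, nat_lit 5356311290,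 nat_lit 5323559390, nat_lit 5571556132, nat_lit 5533808424], nat_lit 1100001, nat_lit 1271250, nat_lit 1271250, nat_lit 1271250, nat_lit 0, nat_lit 2373000, [nat_lit 1695000, nat_lit 1271250], [nat_lit 143, nat_lit 40, nat_lit 20, nat_lit 80, nat_lit 14, nat_lit 373, nat_lit 150, nat_lit 9]⟩,
 ⟨nat_lit 5916, nat_lit 6325, ⟨.ofNat (nat_lit 703998), .ofNat (nat_lit 852030), .ofNat (nat_lit 725359), .ofNat (nat_lit 873391), .ofNat (nat_lit 692863), .ofNat (nat_lit 834180), .ofNat (nat_lit 714196), .ofNat (nat_lit 855512)⟩, ⟨.negSucc (nat_lit 103633), .ofNat (nat_lit 225423), .negSucc (nat_lit 82265), .ofNat (nat_lit 246791), .negSucc (nat_lit 84722), .ofNat (nat_lit 229411), .negSucc (nat_lit 63383), .ofNat (nat_lit 250751)⟩⟩, [⟨nat_lit 13, nat_lit 98, nat_lit 40, nat_lit 100, nat_lit 94585379⟩, ⟨nat_lit 10, nat_lit 100, nat_lit 47, nat_lit 81, nat_lit 29302853⟩]⟩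
noncomputable def p028_l124 : Lf2 := ⟨nat_lit 0, nat_lit 4, [nat_lit 38, nat_lit 5, nat_lit 5, nat_lit 20], false, nat_lit 0, nat_lit 160, nat_lit 0, nat_lit 336, ⟨nat_lit 1000, nat_lit 0, nat_lit 0, nat_lit 0, nat_lit 0, nat_lit 0, nat_lit 0, nat_lit 0, nat_lit 0, nat_lit 0, nat_lit 0, nat_lit 0, nat_lit 0, nat_lit 0, nat_lit 0, nat_lit 0, false, false⟩,
 nat_lit 0, nat_lit 0, nat_lit 24036, nat_lit 0, nat_lit 8705, nat_lit 9140, nat_lit 0, nat_lit 0, nat_lit 0, nat_lit 3512, nat_lit 0, nat_lit 0, nat_lit 0, nat_lit 0, nat_lit 0, nat_lit 0, nat_lit 0, nat_lit 0, [],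
 ⟨p028_k48, nat_lit 0, nat_lit 0, nat_lit 180, nat_lit 0, nat_lit 0, [nat_lit 4688000000, nat_lit 7968000000], [], [nat_lit 31004741380, nat_lit 32215064810, nat_lit 39974972333, nat_lit 41098987192, nat_lit 24115686980, nat_lit 25128191080, nat_lit 31015613181, nat_lit 31703993377], nat_lit 0, nat_lit 0, nat_lit 0, nat_lit 0, nat_lit 0, nat_lit 0, [], [nat_lit 39, nat_lit 40, nat_lit 20, nat_lit 80, nat_lit 7, nat_lit 249, nat_lit 40, nat_lit 7]⟩, ⟨p028_k50, nat_lit 0, nat_lit 0, nat_lit 491, nat_lit 0, nat_lit 455851, [nat_lit 7968000000, nat_lit 11872000000], [], [nat_lit 37145118080, nat_lit 37106715600, nat_lit 40933217889, nat_lit 40898534152, nat_lit 33840029664, nat_lit 32288564464, nat_lit 36160791604, nat_lit 36080167111], nat_lit 1271250, nat_lit 1271250, nat_lit 1271250, nat_lit 1271250, nat_lit 0, nat_lit 2373000, [nat_lit 1695000, nat_lit 1271250], [nat_lit 143, nat_lit 40, nat_lit 20, nat_lit 80,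 nat_lit 14, nat_lit 373, nat_lit 150, nat_lit 9]⟩,
 zbF0, [⟨nat_lit 22, nat_lit 61, nat_lit 100, nat_lit 80, nat_lit 241170607⟩]⟩
noncomputable def p028_l125 : Lf2 := ⟨nat_lit 1, nat_lit 8, [nat_lit 50, nat_lit 5, nat_lit 5, nat_lit 20], false, nat_lit 0, nat_lit 160, nat_lit 0, nat_lit 336, zbN0,
 nat_lit 0, nat_lit 0, nat_lit 0, nat_lit 0, nat_lit 0, nat_lit 0, nat_lit 0, nat_lit 0, nat_lit 0, nat_lit 0, nat_lit 0, nat_lit 0, nat_lit 0, nat_lit 0, nat_lit 0, nat_lit 0, nat_lit 0, nat_lit 0, [],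
 C1.Rw.none, C1.Rw.none,
 zbF0, []⟩
noncomputable def p028_l126 : Lf2 := ⟨nat_lit 0, nat_lit 5, [nat_lit 4, nat_lit 5, nat_lit 5, nat_lit 20], false, nat_lit 0, nat_lit 160, nat_lit 0, nat_lit 336, ⟨nat_lit 112, nat_lit 888, nat_lit 0, nat_lit 8, nat_lit 305, nat_lit 813, nat_lit 48, nat_lit 0, nat_lit 0, nat_lit 0, nat_lit 0, nat_lit 0, nat_lit 42348896, nat_lit 24651104, nat_lit 0, nat_lit 3289214, false, true⟩,
 nat_lit 0, nat_lit 0, nat_lit 3996, nat_lit 0, nat_lit 4297, nat_lit 1331, nat_lit 1166, nat_lit 0, nat_lit 0, nat_lit 90, nat_lit 0, nat_lit 0, nat_lit 0, nat_lit 0, nat_lit 0, nat_lit 355200, nat_lit 0, nat_lit 0, [(nat_lit 9, [(nat_lit 1, nat_lit 888)])],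
 ⟨p028_k51, nat_lit 0, nat_lit 0, nat_lit 175, nat_lit 0, nat_lit 0, [nat_lit 2960662401, nat_lit 3560822400], [], [nat_lit 25353046473, nat_lit 25739356843, nat_lit 29035146741, nat_lit 29356016990, nat_lit 23747673669, nat_lit 24078571377, nat_lit 26894196650, nat_lit 27172885823], nat_lit 0, nat_lit 0, nat_lit 0, nat_lit 0, nat_lit 0, nat_lit 0, [], [nat_lit 39, nat_lit 40, nat_lit 20, nat_lit 80, nat_lit 7, nat_lit 249, nat_lit 40, nat_lit 7]⟩, ⟨p028_k52, nat_lit 0, nat_lit 0, nat_lit 644, nat_lit 0, nat_lit 662615, [nat_lit 892416000, nat_lit 1329664000, nat_lit 1574496000], [], [nat_lit 5453156872, nat_lit 5405452220, nat_lit 5721010903, nat_lit 5666928997, nat_lit 4194894078, nat_lit 4142280943, nat_lit 4476910221, nat_lit 4421327183], nat_lit 1100001, nat_lit 1271250, nat_lit 1271250, nat_lit 1271250, nat_lit 0, nat_lit 2373000, [nat_lit 1695000, nat_lit 1271250, nat_lit 1271250], [nat_lit 62, nat_lit 40,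 nat_lit 20, nat_lit 80, nat_lit 58, nat_lit 456, nat_lit 225, nat_lit 10]⟩,
 ⟨nat_lit 5700, nat_lit 5917, ⟨.ofNat (nat_lit 692910), .ofNat (nat_lit 818556), .ofNat (nat_lit 714247), .ofNat (nat_lit 839893), .ofNat (nat_lit 687461), .ofNat (nat_lit 810204), .ofNat (nat_lit 708801), .ofNat (nat_lit 831543)⟩, ⟨.negSucc (nat_lit 84722), .ofNat (nat_lit 229411), .negSucc (nat_lit 63383), .ofNat (nat_lit 250751), .negSucc (nat_lit 75673), .ofNat (nat_lit 231202), .negSucc (nat_lit 54331), .ofNat (nat_lit 252544)⟩⟩, [⟨nat_lit 13, nat_lit 96, nat_lit 47, nat_lit 100, nat_lit 114014917⟩, ⟨nat_lit 10, nat_lit 100, nat_lit 47, nat_lit 81, nat_lit 7051352⟩]⟩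
noncomputable def p028_l127 : Lf2 := ⟨nat_lit 0, nat_lit 5, [nat_lit 4, nat_lit 5, nat_lit 5, nat_lit 20], false, nat_lit 0, nat_lit 160, nat_lit 0, nat_lit 336, ⟨nat_lit 283, nat_lit 717, nat_lit 0, nat_lit 8, nat_lit 317, nat_lit 717, nat_lit 48, nat_lit 0, nat_lit 0, nat_lit 0, nat_lit 0, nat_lit 0, nat_lit 41171291, nat_lit 25828709, nat_lit 0, nat_lit 3333469, true, true⟩,
 nat_lit 0, nat_lit 0, nat_lit 6554, nat_lit 0, nat_lit 4746, nat_lit 2492, nat_lit 1739, nat_lit 0, nat_lit 0, nat_lit 888, nat_lit 0, nat_lit 0, nat_lit 0, nat_lit 0, nat_lit 0, nat_lit 286800, nat_lit 0, nat_lit 0, [(nat_lit 9, [(nat_lit 1, nat_lit 717)])],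
 ⟨p028_k51, nat_lit 0, nat_lit 0, nat_lit 179, nat_lit 0, nat_lit 0, [nat_lit 3293291600, nat_lit 4394481600], [], [nat_lit 25207669696, nat_lit 25606197356, nat_lit 30762431957, nat_lit 31215991953, nat_lit 23146592424, nat_lit 23509019106, nat_lit 27387239245, nat_lit 27696336180], nat_lit 0, nat_lit 0, nat_lit 0, nat_lit 0, nat_lit 0, nat_lit 0, [], [nat_lit 39, nat_lit 40, nat_lit 20, nat_lit 80, nat_lit 7, nat_lit 249, nat_lit 40, nat_lit 7]⟩, ⟨p028_k53, nat_lit 0, nat_lit 0, nat_lit 572, nat_lit 0, nat_lit 686785, [nat_lit 2254944000, nat_lit 3359776000], [], [nat_lit 10950701156, nat_lit 10914457712, nat_lit 11709808448, nat_lit 11654521547, nat_lit 9715428296, nat_lit 9533648671, nat_lit 10063820413, nat_lit 9986652766], nat_lit 1271250, nat_lit 1271250, nat_lit 1271250, nat_lit 1271250, nat_lit 0, nat_lit 2373000, [nat_lit 1695000, nat_lit 1271250], [nat_lit 143, nat_lit 40, nat_lit 20, nat_lit 80, nat_lit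 14, nat_lit 373, nat_lit 150, nat_lit 9]⟩,
 ⟨nat_lit 5700, nat_lit 5917, ⟨.ofNat (nat_lit 714247), .ofNat (nat_lit 855599), .ofNat (nat_lit 735585), .ofNat (nat_lit 876936), .ofNat (nat_lit 708801), .ofNat (nat_lit 846886), .ofNat (nat_lit 730141), .ofNat (nat_lit 868227)⟩, ⟨.negSucc (nat_lit 84722), .ofNat (nat_lit 229411), .negSucc (nat_lit 63383), .ofNat (nat_lit 250751), .negSucc (nat_lit 75673), .ofNat (nat_lit 231202), .negSucc (nat_lit 54331), .ofNat (nat_lit 252544)⟩⟩, [⟨nat_lit 13, nat_lit 95, nat_lit 37, nat_lit 100, nat_lit 50290863⟩, ⟨nat_lit 10, nat_lit 100, nat_lit 47, nat_lit 81, nat_lit 75556350⟩]⟩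
noncomputable def p028_l128 : Lf2 := ⟨nat_lit 0, nat_lit 5, [nat_lit 4, nat_lit 5, nat_lit 5, nat_lit 20], false, nat_lit 0, nat_lit 160, nat_lit 0, nat_lit 336, ⟨nat_lit 62, nat_lit 938, nat_lit 0, nat_lit 8, nat_lit 301, nat_lit 908, nat_lit 49, nat_lit 0, nat_lit 0, nat_lit 0, nat_lit 0, nat_lit 0, nat_lit 42784989, nat_lit 24215011, nat_lit 0, nat_lit 3271147, false, true⟩,
 nat_lit 0, nat_lit 0, nat_lit 2232, nat_lit 269, nat_lit 4164, nat_lit 743, nat_lit 803, nat_lit 0, nat_lit 0, nat_lit 51, nat_lit 0, nat_lit 0, nat_lit 0, nat_lit 0, nat_lit 0, nat_lit 375200, nat_lit 0, nat_lit 0, [(nat_lit 9, [(nat_lit 1, nat_lit 938)])],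
 ⟨p028_k54, nat_lit 0, nat_lit 0, nat_lit 174, nat_lit 0, nat_lit 0, [nat_lit 2863402401, nat_lit 3317062400], [], [nat_lit 25429633405, nat_lit 25812324845, nat_lit 28753048426, nat_lit 29134345712, nat_lit 23904904013, nat_lit 24233252909, nat_lit 26935989210, nat_lit 27250493042], nat_lit 0, nat_lit 0, nat_lit 0, nat_lit 0, nat_lit 0, nat_lit 0, [], [nat_lit 39, nat_lit 40, nat_lit 20, nat_lit 80, nat_lit 7, nat_lit 249, nat_lit 40, nat_lit 7]⟩, ⟨p028_k52, nat_lit 0, nat_lit 0, nat_lit 790, nat_lit 0, nat_lit 977832, [nat_lit 494016000, nat_lit 736064000, nat_lit 871596000], [], [nat_lit 3020984828, nat_lit 2985522556, nat_lit 3145620664, nat_lit 3113224165, nat_lit 2310572647, nat_lit 2282028125, nat_lit 2455319305, nat_lit 2427661046], nat_lit 1100001, nat_lit 1271250, nat_lit 1271250, nat_lit 1271250, nat_lit 0, nat_lit 2373000, [nat_lit 1695000, nat_lit 1271250, nat_lit 1271250], [nat_lit 62, nat_lit 40,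 nat_lit 20, nat_lit 80, nat_lit 58, nat_lit 456, nat_lit 225, nat_lit 10]⟩,
 ⟨nat_lit 5477, nat_lit 5701, ⟨.ofNat (nat_lit 687464), .ofNat (nat_lit 802536), .ofNat (nat_lit 708804), .ofNat (nat_lit 823875), .ofNat (nat_lit 682076), .ofNat (nat_lit 794468), .ofNat (nat_lit 703431), .ofNat (nat_lit 815823)⟩, ⟨.negSucc (nat_lit 75673), .ofNat (nat_lit 231202), .negSucc (nat_lit 54331), .ofNat (nat_lit 252544), .negSucc (nat_lit 66879), .ofNat (nat_lit 232852), .negSucc (nat_lit 45522), .ofNat (nat_lit 254209)⟩⟩, [⟨nat_lit 13, nat_lit 94, nat_lit 44, nat_lit 100, nat_lit 144709333⟩, ⟨nat_lit 10, nat_lit 100, nat_lit 47, nat_lit 81, nat_lit 3947854⟩]⟩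
noncomputable def p028_l129 : Lf2 := ⟨nat_lit 0, nat_lit 5, [nat_lit 4, nat_lit 5, nat_lit 5, nat_lit 20], false, nat_lit 0, nat_lit 160, nat_lit 0, nat_lit 336, ⟨nat_lit 125, nat_lit 875, nat_lit 0, nat_lit 8, nat_lit 312, nat_lit 875, nat_lit 49, nat_lit 0, nat_lit 0, nat_lit 0, nat_lit 0, nat_lit 0, nat_lit 41606266, nat_lit 25393734, nat_lit 0, nat_lit 3317888, true, true⟩,
 nat_lit 0, nat_lit 0, nat_lit 2911, nat_lit 0, nat_lit 4291, nat_lit 1107, nat_lit 761, nat_lit 0, nat_lit 0, nat_lit 349, nat_lit 0, nat_lit 0, nat_lit 0, nat_lit 0, nat_lit 0, nat_lit 350000, nat_lit 0, nat_lit 0, [(nat_lit 9, [(nat_lit 1, nat_lit 875)])],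
 ⟨p028_k54, nat_lit 0, nat_lit 0, nat_lit 178, nat_lit 0, nat_lit 0, [nat_lit 2985950000, nat_lit 3624200000], [], [nat_lit 25863665026, nat_lit 26249812136, nat_lit 29712474534, nat_lit 30160467560, nat_lit 24209017428, nat_lit 24539800152, nat_lit 27496340229, nat_lit 27772325411], nat_lit 0, nat_lit 0, nat_lit 0, nat_lit 0, nat_lit 0, nat_lit 0, [], [nat_lit 39, nat_lit 40, nat_lit 20, nat_lit 80, nat_lit 7, nat_lit 249, nat_lit 40, nat_lit 7]⟩, ⟨p028_k53, nat_lit 0, nat_lit 0, nat_lit 691, nat_lit 0, nat_lit 933303, [nat_lit 996000000, nat_lit 1484000000], [], [nat_lit 5066322589, nat_lit 5040171871, nat_lit 5282883443, nat_lit 5259171696, nat_lit 4355232962, nat_lit 4319624718, nat_lit 4477898660, nat_lit 4445407100], nat_lit 1271250, nat_lit 1271250, nat_lit 1271250, nat_lit 1271250, nat_lit 0, nat_lit 2373000, [nat_lit 1695000, nat_lit 1271250], [nat_lit 143, nat_lit 40, nat_lit 20, nat_lit 80, nat_lit 14,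 nat_lit 373, nat_lit 150, nat_lit 9]⟩,
 ⟨nat_lit 5477, nat_lit 5701, ⟨.ofNat (nat_lit 708804), .ofNat (nat_lit 839218), .ofNat (nat_lit 730143), .ofNat (nat_lit 860558), .ofNat (nat_lit 703431), .ofNat (nat_lit 830809), .ofNat (nat_lit 724785), .ofNat (nat_lit 852164)⟩, ⟨.negSucc (nat_lit 75673), .ofNat (nat_lit 231202), .negSucc (nat_lit 54331), .ofNat (nat_lit 252544), .negSucc (nat_lit 66879), .ofNat (nat_lit 232852), .negSucc (nat_lit 45522), .ofNat (nat_lit 254209)⟩⟩, [⟨nat_lit 13, nat_lit 93, nat_lit 42, nat_lit 100, nat_lit 83473551⟩, ⟨nat_lit 10, nat_lit 100, nat_lit 47, nat_lit 81, nat_lit 30396826⟩]⟩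
noncomputable def p028_l130 : Lf2 := ⟨nat_lit 0, nat_lit 8, [nat_lit 50, nat_lit 5, nat_lit 5, nat_lit 20], false, nat_lit 0, nat_lit 160, nat_lit 0, nat_lit 336, ⟨nat_lit 1000, nat_lit 0, nat_lit 0, nat_lit 0, nat_lit 0, nat_lit 0, nat_lit 0, nat_lit 0, nat_lit 0, nat_lit 0, nat_lit 0, nat_lit 0, nat_lit 0, nat_lit 0, nat_lit 0, nat_lit 0, false, false⟩,
 nat_lit 0, nat_lit 0, nat_lit 27847, nat_lit 0, nat_lit 6930, nat_lit 9282, nat_lit 1902, nat_lit 0, nat_lit 0, nat_lit 1387, nat_lit 0, nat_lit 0, nat_lit 0, nat_lit 0, nat_lit 0, nat_lit 0, nat_lit 0, nat_lit 0, [],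
 ⟨p028_k55, nat_lit 0, nat_lit 0, nat_lit 211, nat_lit 0, nat_lit 0, [nat_lit 4688000000, nat_lit 6250000000, nat_lit 9842000000], [], [nat_lit 28006548690, nat_lit 28961585090, nat_lit 36131055145, nat_lit 37175007104, nat_lit 22755764030, nat_lit 23444450730, nat_lit 28637496465, nat_lit 29568419409], nat_lit 0, nat_lit 0, nat_lit 0, nat_lit 0, nat_lit 0, nat_lit 0, [], [nat_lit 11, nat_lit 40, nat_lit 20, nat_lit 80, nat_lit 1, nat_lit 345, nat_lit 125, nat_lit 9]⟩, ⟨p028_k56, nat_lit 0, nat_lit 0, nat_lit 457, nat_lit 0, nat_lit 276146, [nat_lit 7968000000, nat_lit 9842000000, nat_lit 14058000000], [], [nat_lit 43052302739, nat_lit 42893074571, nat_lit 47408817675, nat_lit 46928998447, nat_lit 37225672517, nat_lit 36650441519, nat_lit 39548405301, nat_lit 38781499735], nat_lit 1100001, nat_lit 1442500, nat_lit 1271250, nat_lit 1271250, nat_lit 0, nat_lit 2373000, [nat_lit 1695000, nat_lit 1271250, nat_lit 1271250],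 [nat_lit 92, nat_lit 40, nat_lit 20, nat_lit 80, nat_lit 32, nat_lit 483, nat_lit 250, nat_lit 11]⟩,
 zbF0, [⟨nat_lit 22, nat_lit 63, nat_lit 100, nat_lit 80, nat_lit 135219291⟩]⟩
noncomputable def p028_l131 : Lf2 := ⟨nat_lit 0, nat_lit 8, [nat_lit 50, nat_lit 5, nat_lit 5, nat_lit 20], true, nat_lit 160, nat_lit 288, nat_lit 0, nat_lit 352, ⟨nat_lit 0, nat_lit 1000, nat_lit 0, nat_lit 4, nat_lit 191, nat_lit 1000, nat_lit 146, nat_lit 0, nat_lit 0, nat_lit 0, nat_lit 0, nat_lit 0, nat_lit 46988106, nat_lit 12088260, nat_lit 7923634, nat_lit 4343477, false, true⟩,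
 nat_lit 0, nat_lit 0, nat_lit 0, nat_lit 4541, nat_lit 6433, nat_lit 0, nat_lit 0, nat_lit 0, nat_lit 0, nat_lit 0, nat_lit 0, nat_lit 0, nat_lit 0, nat_lit 0, nat_lit 0, nat_lit 250000, nat_lit 0, nat_lit 0, [(nat_lit 6, [(nat_lit 0, nat_lit 1000)]), (nat_lit 9, [(nat_lit 0, nat_lit 1000)])],
 ⟨p028_k47, nat_lit 0, nat_lit 0, nat_lit 17, nat_lit 0, nat_lit 0, [nat_lit 3128000000, nat_lit 3710400000], [], [nat_lit 8990727784, nat_lit 12299272968, nat_lit 13063786192, nat_lit 16037864788, nat_lit 16955353665, nat_lit 19780447901, nat_lit 20117689025, nat_lit 22465526289], nat_lit 0, nat_lit 0, nat_lit 0, nat_lit 0, nat_lit 0, nat_lit 0, [], [nat_lit 70, nat_lit 40, nat_lit 20, nat_lit 80, nat_lit 13, nat_lit 456, nat_lit 225, nat_lit 13]⟩, C1.Rw.none,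
 ⟨nat_lit 5477, nat_lit 6325, ⟨.ofNat (nat_lit 374999), .ofNat (nat_lit 539501), .ofNat (nat_lit 417734), .ofNat (nat_lit 582178), .ofNat (nat_lit 382351), .ofNat (nat_lit 532191), .ofNat (nat_lit 425065), .ofNat (nat_lit 574846)⟩, ⟨.ofNat (nat_lit 225423), .ofNat (nat_lit 488669), .ofNat (nat_lit 246791), .ofNat (nat_lit 510037), .ofNat (nat_lit 232852), .ofNat (nat_lit 472638), .ofNat (nat_lit 254209), .ofNat (nat_lit 493995)⟩⟩, [⟨nat_lit 16, nat_lit 100, nat_lit 92, nat_lit 61, nat_lit 346119830⟩]⟩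
noncomputable def p028_l132 : Lf2 := ⟨nat_lit 0, nat_lit 8, [nat_lit 50, nat_lit 5, nat_lit 5, nat_lit 20], true, nat_lit 160, nat_lit 288, nat_lit 0, nat_lit 352, ⟨nat_lit 0, nat_lit 1000, nat_lit 0, nat_lit 6, nat_lit 284, nat_lit 1000, nat_lit 146, nat_lit 0, nat_lit 0, nat_lit 0, nat_lit 0, nat_lit 0, nat_lit 39197531, nat_lit 20649493, nat_lit 7152976, nat_lit 4900248, false, true⟩,
 nat_lit 0, nat_lit 0, nat_lit 0, nat_lit 3379, nat_lit 4125, nat_lit 0, nat_lit 0, nat_lit 0, nat_lit 0, nat_lit 0, nat_lit 0, nat_lit 0, nat_lit 0, nat_lit 0, nat_lit 0, nat_lit 399400, nat_lit 0, nat_lit 0, [(nat_lit 6, [(nat_lit 0, nat_lit 4), (nat_lit 1, nat_lit 996)]), (nat_lit 9, [(nat_lit 0, nat_lit 4), (nat_lit 1, nat_lit 996)])],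
 ⟨p028_k44, nat_lit 0, nat_lit 0, nat_lit 94, nat_lit 0, nat_lit 0, [nat_lit 2839160000, nat_lit 3290811200, nat_lit 3171364800], [], [nat_lit 16078562000, nat_lit 18293657500, nat_lit 25927680501, nat_lit 27288096100, nat_lit 21369316301, nat_lit 23040705300, nat_lit 29012638080, nat_lit 30051572040], nat_lit 0, nat_lit 0, nat_lit 0, nat_lit 0, nat_lit 0, nat_lit 0, [], [nat_lit 29, nat_lit 40, nat_lit 20, nat_lit 80, nat_lit 17, nat_lit 483, nat_lit 250, nat_lit 13]⟩, C1.Rw.none,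
 ⟨nat_lit 5477, nat_lit 6325, ⟨.ofNat (nat_lit 539501), .ofNat (nat_lit 859998), .ofNat (nat_lit 582178), .ofNat (nat_lit 902672), .ofNat (nat_lit 532191), .ofNat (nat_lit 824097), .ofNat (nat_lit 574846), .ofNat (nat_lit 866749)⟩, ⟨.ofNat (nat_lit 225423), .ofNat (nat_lit 488669), .ofNat (nat_lit 246791), .ofNat (nat_lit 510037), .ofNat (nat_lit 232852), .ofNat (nat_lit 472638), .ofNat (nat_lit 254209), .ofNat (nat_lit 493995)⟩⟩, [⟨nat_lit 13, nat_lit 96, nat_lit 40, nat_lit 100, nat_lit 39177132⟩, ⟨nat_lit 13, nat_lit 98, nat_lit 20, nat_lit 100, nat_lit 96413481⟩, ⟨nat_lit 4, nat_lit 100, nat_lit 98, nat_lit 54, nat_lit 115561942⟩]⟩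
noncomputable def p028_l133 : Lf2 := ⟨nat_lit 0, nat_lit 8, [nat_lit 50, nat_lit 5, nat_lit 5, nat_lit 20], true, nat_lit 0, nat_lit 288, nat_lit 0, nat_lit 352, ⟨nat_lit 0, nat_lit 1000, nat_lit 0, nat_lit 4, nat_lit 190, nat_lit 1000, nat_lit 98, nat_lit 0, nat_lit 0, nat_lit 0, nat_lit 0, nat_lit 0, nat_lit 0, nat_lit 0, nat_lit 0, nat_lit 5000000, false, true⟩,
 nat_lit 0, nat_lit 0, nat_lit 0, nat_lit 4848, nat_lit 5024, nat_lit 0, nat_lit 0, nat_lit 0, nat_lit 0, nat_lit 0, nat_lit 0, nat_lit 0, nat_lit 0, nat_lit 0, nat_lit 0, nat_lit 640600, nat_lit 0, nat_lit 0, [(nat_lit 6, [(nat_lit 1, nat_lit 599), (nat_lit 2, nat_lit 401)]), (nat_lit 9, [(nat_lit 1, nat_lit 599), (nat_lit 2, nat_lit 401)])],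
 ⟨p028_k44, nat_lit 0, nat_lit 0, nat_lit 312, nat_lit 0, nat_lit 0, [nat_lit 3034329600, nat_lit 2971124800, nat_lit 2299190400], [], [nat_lit 25338782048, nat_lit 27176826816, nat_lit 31804306464, nat_lit 32872834669, nat_lit 27025001377, nat_lit 28184029786, nat_lit 30106687193, nat_lit 30993079655], nat_lit 0, nat_lit 0, nat_lit 0, nat_lit 0, nat_lit 0, nat_lit 0, [], [nat_lit 29, nat_lit 40, nat_lit 20, nat_lit 80, nat_lit 17, nat_lit 483, nat_lit 250, nat_lit 14]⟩, C1.Rw.none,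
 ⟨nat_lit 5477, nat_lit 6325, ⟨.ofNat (nat_lit 45942), .ofNat (nat_lit 859998), .ofNat (nat_lit 88677), .ofNat (nat_lit 902672), .ofNat (nat_lit 82619), .ofNat (nat_lit 824097), .ofNat (nat_lit 125333), .ofNat (nat_lit 866749)⟩, ⟨.negSucc (nat_lit 103633), .ofNat (nat_lit 488669), .negSucc (nat_lit 82265), .ofNat (nat_lit 510037), .negSucc (nat_lit 66879), .ofNat (nat_lit 472638), .negSucc (nat_lit 45522), .ofNat (nat_lit 493995)⟩⟩, [⟨nat_lit 13, nat_lit 96, nat_lit 40, nat_lit 100, nat_lit 76851071⟩, ⟨nat_lit 4, nat_lit 100, nat_lit 98, nat_lit 54, nat_lit 38676913⟩]⟩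
noncomputable def b_VL_600_400_5_0 : St := ⟨true, nat_lit 0, nat_lit 2, nat_lit 0, nat_lit 40, nat_lit 240, nat_lit 280, nat_lit 160, nat_lit 200, nat_lit 0, nat_lit 396, nat_lit 20, nat_lit 40, nat_lit 0, nat_lit 288, nat_lit 0, nat_lit 352, nat_lit 0, nat_lit 32, nat_lit 0, nat_lit 0, nat_lit 0, nat_lit 0⟩
theorem d_VL_600_400_5_0 (h : EB TB.env) : Dead b_VL_600_400_5_0 := chkB_sound0 h (T :=
(.gv
(.st (nat_lit 1)
(.spl (nat_lit 2) (nat_lit 160)
(.spl (nat_lit 0) (nat_lit 260)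
(.leaf p028_l114)
(.trX (nat_lit 16) (nat_lit 100) (nat_lit 99) (nat_lit 63) (nat_lit 268) (.leaf p028_l115)))
(.spl (nat_lit 4) (nat_lit 160)
(.leaf p028_l116)
(.leaf p028_l117)))
(.spl (nat_lit 2) (nat_lit 160)
(.spl (nat_lit 0) (nat_lit 260)
(.leaf p028_l118)
(.trX (nat_lit 16) (nat_lit 100) (nat_lit 99) (nat_lit 63) (nat_lit 268) (.leaf p028_l119)))
(.spl (nat_lit 4) (nat_lit 160)
(.spl (nat_lit 2) (nat_lit 240)
(.leaf p028_l120)
(.spl (nat_lit 2) (nat_lit 320)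
(.spl (nat_lit 0) (nat_lit 260)
(.leaf p028_l121)
(.leaf p028_l122))
(.trX (nat_lit 22) (nat_lit 82) (nat_lit 76) (nat_lit 100) (nat_lit 336) (.spl (nat_lit 0) (nat_lit 260)
(.spl (nat_lit 6) (nat_lit 16)
(.spl (nat_lit 1) (nat_lit 180)
(.trX (nat_lit 13) (nat_lit 98) (nat_lit 30) (nat_lit 100) (nat_lit 392) (.leaf p028_l123))
(.leaf p028_l124))
(.leaf p028_l125))
(.trX (nat_lit 13) (nat_lit 95) (nat_lit 30) (nat_lit 100) (nat_lit 392) (.spl (nat_lit 6) (nat_lit 20)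
(.spl (nat_lit 0) (nat_lit 270)
(.spl (nat_lit 1) (nat_lit 180)
(.trX (nat_lit 13) (nat_lit 96) (nat_lit 40) (nat_lit 100) (nat_lit 384) (.leaf p028_l126))
(.leaf p028_l127))
(.trX (nat_lit 13) (nat_lit 94) (nat_lit 35) (nat_lit 100) (nat_lit 388) (.spl (nat_lit 1) (nat_lit 180)
(.trX (nat_lit 13) (nat_lit 94) (nat_lit 44) (nat_lit 100) (nat_lit 380) (.leaf p028_l128))
(.leaf p028_l129))))
(.leaf p028_l130)))))))
(.spl (nat_lit 2) (nat_lit 240)
(.leaf p028_l131)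
(.leaf p028_l132)))))
(.leaf p028_l133))) (by decide +kernel)
noncomputable def p028_l134 : Lf2 := ⟨nat_lit 0, nat_lit 8, [nat_lit 50, nat_lit 5, nat_lit 5, nat_lit 20], true, nat_lit 0, nat_lit 80, nat_lit 0, nat_lit 352, ⟨nat_lit 0, nat_lit 0, nat_lit 1000, nat_lit 4, nat_lit 63, nat_lit 0, nat_lit 15, nat_lit 0, nat_lit 17, nat_lit 214, nat_lit 36817, nat_lit 262, nat_lit 65387256, nat_lit 0, nat_lit 0, nat_lit 567386, false, false⟩,
 nat_lit 0, nat_lit 9786, nat_lit 0, nat_lit 0, nat_lit 5180, nat_lit 0, nat_lit 0, nat_lit 0, nat_lit 0, nat_lit 0, nat_lit 0, nat_lit 0, nat_lit 0, nat_lit 0, nat_lit 147, nat_lit 1000000, nat_lit 0, nat_lit 0, [(nat_lit 6, [(nat_lit 6, nat_lit 1000)])],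
 ⟨p028_k57, nat_lit 0, nat_lit 0, nat_lit 351, nat_lit 0, nat_lit 148757, [nat_lit 3329066667, nat_lit 3042400001, nat_lit 177599999], [], [nat_lit 18202384109, nat_lit 17731531440, nat_lit 14231160189, nat_lit 13090369959, nat_lit 14231160189, nat_lit 13090369959, nat_lit 16092657309, nat_lit 13583682869], nat_lit 1271250, nat_lit 1271250, nat_lit 0, nat_lit 490000, nat_lit 0, nat_lit 490000, [nat_lit 1100000, nat_lit 1442500, nat_lit 1271250], [nat_lit 11, nat_lit 40, nat_lit 20, nat_lit 80, nat_lit 1, nat_lit 345, nat_lit 125, nat_lit 10]⟩, C1.Rw.none,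
 ⟨nat_lit 5916, nat_lit 6325, ⟨.ofNat (nat_lit 45942), .ofNat (nat_lit 210470), .ofNat (nat_lit 88677), .ofNat (nat_lit 253206), .ofNat (nat_lit 64652), .ofNat (nat_lit 221719), .ofNat (nat_lit 107331), .ofNat (nat_lit 264398)⟩, ⟨.negSucc (nat_lit 103633), .ofNat (nat_lit 60895), .negSucc (nat_lit 82265), .ofNat (nat_lit 82263), .negSucc (nat_lit 84722), .ofNat (nat_lit 72344), .negSucc (nat_lit 63383), .ofNat (nat_lit 93684)⟩⟩, [⟨nat_lit 0, nat_lit 100, nat_lit 97, nat_lit 15, nat_lit 107073352⟩]⟩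
noncomputable def p028_l135 : Lf2 := ⟨nat_lit 0, nat_lit 8, [nat_lit 50, nat_lit 5, nat_lit 5, nat_lit 20], true, nat_lit 0, nat_lit 80, nat_lit 0, nat_lit 352, ⟨nat_lit 0, nat_lit 0, nat_lit 1000, nat_lit 4, nat_lit 67, nat_lit 0, nat_lit 17, nat_lit 718, nat_lit 67, nat_lit 217, nat_lit 41667, nat_lit 265, nat_lit 65157650, nat_lit 0, nat_lit 0, nat_lit 629638, false, false⟩,
 nat_lit 0, nat_lit 6364, nat_lit 0, nat_lit 0, nat_lit 3704, nat_lit 0, nat_lit 3, nat_lit 0, nat_lit 0, nat_lit 0, nat_lit 0, nat_lit 0, nat_lit 0, nat_lit 0, nat_lit 192, nat_lit 1000000, nat_lit 0, nat_lit 0, [(nat_lit 9, [(nat_lit 6, nat_lit 1000)])],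
 ⟨p028_k55, nat_lit 0, nat_lit 0, nat_lit 369, nat_lit 0, nat_lit 194746, [nat_lit 4169600001, nat_lit 3411333334, nat_lit 231866666], [], [nat_lit 15027546291, nat_lit 15648064539, nat_lit 13988307827, nat_lit 14572573915, nat_lit 13988307827, nat_lit 14572573915, nat_lit 15664109679, nat_lit 14767078663], nat_lit 1271250, nat_lit 1271250, nat_lit 0, nat_lit 490000, nat_lit 0, nat_lit 490000, [nat_lit 1100000, nat_lit 1442500, nat_lit 1271250], [nat_lit 11, nat_lit 40, nat_lit 20, nat_lit 80, nat_lit 1, nat_lit 345, nat_lit 125, nat_lit 10]⟩, C1.Rw.none,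
 ⟨nat_lit 5700, nat_lit 5917, ⟨.ofNat (nat_lit 64652), .ofNat (nat_lit 221719), .ofNat (nat_lit 107331), .ofNat (nat_lit 264398), .ofNat (nat_lit 73719), .ofNat (nat_lit 227157), .ofNat (nat_lit 116403), .ofNat (nat_lit 269841)⟩, ⟨.negSucc (nat_lit 84722), .ofNat (nat_lit 72344), .negSucc (nat_lit 63383), .ofNat (nat_lit 93684), .negSucc (nat_lit 75673), .ofNat (nat_lit 77764), .negSucc (nat_lit 54331), .ofNat (nat_lit 99106)⟩⟩, [⟨nat_lit 0, nat_lit 100, nat_lit 94, nat_lit 35, nat_lit 16122181⟩]⟩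
noncomputable def p028_l136 : Lf2 := ⟨nat_lit 0, nat_lit 8, [nat_lit 50, nat_lit 5, nat_lit 5, nat_lit 20], true, nat_lit 0, nat_lit 80, nat_lit 0, nat_lit 352, ⟨nat_lit 0, nat_lit 0, nat_lit 1000, nat_lit 4, nat_lit 70, nat_lit 0, nat_lit 18, nat_lit 566, nat_lit 417, nat_lit 220, nat_lit 46817, nat_lit 268, nat_lit 65001484, nat_lit 0, nat_lit 0, nat_lit 670704, false, false⟩,
 nat_lit 0, nat_lit 6503, nat_lit 0, nat_lit 0, nat_lit 3960, nat_lit 0, nat_lit 774, nat_lit 0, nat_lit 0, nat_lit 0, nat_lit 0, nat_lit 0, nat_lit 0, nat_lit 0, nat_lit 87, nat_lit 400000, nat_lit 0, nat_lit 0, [(nat_lit 9, [(nat_lit 5, nat_lit 1000)])],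
 ⟨p028_k58, nat_lit 0, nat_lit 0, nat_lit 432, nat_lit 0, nat_lit 246049, [nat_lit 2918400000, nat_lit 9200000], [], [nat_lit 16558191640, nat_lit 17198092160, nat_lit 15311217880, nat_lit 15913320000, nat_lit 15311217880, nat_lit 15913320000, nat_lit 14686330000, nat_lit 14895777120], nat_lit 1271250, nat_lit 1271250, nat_lit 0, nat_lit 490000, nat_lit 0, nat_lit 490000, [nat_lit 1100000, nat_lit 2127500], [nat_lit 70, nat_lit 40, nat_lit 20, nat_lit 80, nat_lit 13, nat_lit 345, nat_lit 125, nat_lit 10]⟩, C1.Rw.none,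
 ⟨nat_lit 5477, nat_lit 5701, ⟨.ofNat (nat_lit 73719), .ofNat (nat_lit 227157), .ofNat (nat_lit 116403), .ofNat (nat_lit 269841), .ofNat (nat_lit 82619), .ofNat (nat_lit 232485), .ofNat (nat_lit 125333), .ofNat (nat_lit 275199)⟩, ⟨.negSucc (nat_lit 75673), .ofNat (nat_lit 77764), .negSucc (nat_lit 54331), .ofNat (nat_lit 99106), .negSucc (nat_lit 66879), .ofNat (nat_lit 82986), .negSucc (nat_lit 45522), .ofNat (nat_lit 104343)⟩⟩, [⟨nat_lit 0, nat_lit 100, nat_lit 92, nat_lit 40, nat_lit 152690902⟩]⟩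
noncomputable def p028_l137 : Lf2 := ⟨nat_lit 0, nat_lit 8, [nat_lit 50, nat_lit 5, nat_lit 5, nat_lit 20], true, nat_lit 80, nat_lit 160, nat_lit 0, nat_lit 352, ⟨nat_lit 0, nat_lit 0, nat_lit 1000, nat_lit 4, nat_lit 63, nat_lit 1000, nat_lit 63, nat_lit 1000, nat_lit 36817, nat_lit 262, nat_lit 36817, nat_lit 262, nat_lit 63101760, nat_lit 0, nat_lit 0, nat_lit 1377068, false, false⟩,
 nat_lit 0, nat_lit 8890, nat_lit 0, nat_lit 0, nat_lit 4706, nat_lit 0, nat_lit 273, nat_lit 0, nat_lit 0, nat_lit 0, nat_lit 0, nat_lit 0, nat_lit 0, nat_lit 0, nat_lit 147, nat_lit 1000000, nat_lit 0, nat_lit 0, [(nat_lit 6, [(nat_lit 6, nat_lit 1000)])],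
 ⟨p028_k57, nat_lit 0, nat_lit 0, nat_lit 281, nat_lit 0, nat_lit 148757, [nat_lit 3329066667, nat_lit 3042400001, nat_lit 177599999], [], [nat_lit 10738360193, nat_lit 12120963981, nat_lit 8516579205, nat_lit 9728523040, nat_lit 11544586065, nat_lit 12847302477, nat_lit 11803416044, nat_lit 10999087860], nat_lit 1271250, nat_lit 1271250, nat_lit 0, nat_lit 490000, nat_lit 490000, nat_lit 1100001, [nat_lit 1100000, nat_lit 1442500, nat_lit 1271250], [nat_lit 11, nat_lit 40, nat_lit 20, nat_lit 80, nat_lit 1, nat_lit 345, nat_lit 125, nat_lit 10]⟩, C1.Rw.none,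
 ⟨nat_lit 5916, nat_lit 6325, ⟨.ofNat (nat_lit 45942), .ofNat (nat_lit 210470), .ofNat (nat_lit 88677), .ofNat (nat_lit 253206), .ofNat (nat_lit 64652), .ofNat (nat_lit 221719), .ofNat (nat_lit 107331), .ofNat (nat_lit 264398)⟩, ⟨.ofNat (nat_lit 60895), .ofNat (nat_lit 225423), .ofNat (nat_lit 82263), .ofNat (nat_lit 246791), .ofNat (nat_lit 72344), .ofNat (nat_lit 229411), .ofNat (nat_lit 93684), .ofNat (nat_lit 250751)⟩⟩, [⟨nat_lit 0, nat_lit 100, nat_lit 95, nat_lit 30, nat_lit 172642927⟩]⟩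
noncomputable def p028_l138 : Lf2 := ⟨nat_lit 0, nat_lit 8, [nat_lit 50, nat_lit 5, nat_lit 5, nat_lit 20], true, nat_lit 80, nat_lit 160, nat_lit 0, nat_lit 352, ⟨nat_lit 0, nat_lit 0, nat_lit 1000, nat_lit 4, nat_lit 69, nat_lit 1000, nat_lit 66, nat_lit 1000, nat_lit 41667, nat_lit 265, nat_lit 45067, nat_lit 267, nat_lit 62578980, nat_lit 0, nat_lit 0, nat_lit 1518466, false, false⟩,
 nat_lit 0, nat_lit 9828, nat_lit 0, nat_lit 0, nat_lit 5720, nat_lit 0, nat_lit 621, nat_lit 0, nat_lit 0, nat_lit 0, nat_lit 0, nat_lit 0, nat_lit 0, nat_lit 0, nat_lit 192, nat_lit 1000000, nat_lit 0, nat_lit 0, [(nat_lit 9, [(nat_lit 6, nat_lit 1000)])],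
 ⟨p028_k45, nat_lit 0, nat_lit 0, nat_lit 321, nat_lit 0, nat_lit 259354, [nat_lit 5107600001, nat_lit 178600000], [], [nat_lit 14989988921, nat_lit 15013330880, nat_lit 12334700682, nat_lit 11706703843, nat_lit 15560327562, nat_lit 15525480640, nat_lit 17949316122, nat_lit 15290076682], nat_lit 1271250, nat_lit 1271250, nat_lit 0, nat_lit 490000, nat_lit 490000, nat_lit 1100001, [nat_lit 1100000, nat_lit 2127500], [nat_lit 70, nat_lit 40, nat_lit 20, nat_lit 80, nat_lit 13, nat_lit 373, nat_lit 150, nat_lit 11]⟩, C1.Rw.none,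
 ⟨nat_lit 5477, nat_lit 5917, ⟨.ofNat (nat_lit 64652), .ofNat (nat_lit 221719), .ofNat (nat_lit 107331), .ofNat (nat_lit 264398), .ofNat (nat_lit 82619), .ofNat (nat_lit 232485), .ofNat (nat_lit 125333), .ofNat (nat_lit 275199)⟩, ⟨.ofNat (nat_lit 72344), .ofNat (nat_lit 229411), .ofNat (nat_lit 93684), .ofNat (nat_lit 250751), .ofNat (nat_lit 82986), .ofNat (nat_lit 232852), .ofNat (nat_lit 104343), .ofNat (nat_lit 254209)⟩⟩, []⟩
noncomputable def p028_l139 : Lf2 := ⟨nat_lit 0, nat_lit 8, [nat_lit 50, nat_lit 5, nat_lit 5, nat_lit 20], true, nat_lit 0, nat_lit 80, nat_lit 0, nat_lit 352, ⟨nat_lit 0, nat_lit 0, nat_lit 1000, nat_lit 4, nat_lit 127, nat_lit 0, nat_lit 15, nat_lit 520, nat_lit 17, nat_lit 214, nat_lit 150417, nat_lit 310, nat_lit 60852288, nat_lit 0, nat_lit 0, nat_lit 1532916, false, false⟩,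
 nat_lit 0, nat_lit 15005, nat_lit 0, nat_lit 0, nat_lit 7943, nat_lit 0, nat_lit 0, nat_lit 0, nat_lit 0, nat_lit 0, nat_lit 0, nat_lit 0, nat_lit 0, nat_lit 0, nat_lit 147, nat_lit 1000000, nat_lit 0, nat_lit 0, [(nat_lit 6, [(nat_lit 6, nat_lit 1000)])],
 ⟨p028_k57, nat_lit 0, nat_lit 0, nat_lit 322, nat_lit 0, nat_lit 256551, [nat_lit 3329066667, nat_lit 3042400001, nat_lit 177599999], [], [nat_lit 18362461945, nat_lit 14287242251, nat_lit 16057226205, nat_lit 14471391742, nat_lit 11764550433, nat_lit 8237124157, nat_lit 18302443449, nat_lit 14559654191], nat_lit 1271250, nat_lit 1271250, nat_lit 490000, nat_lit 1100001, nat_lit 0, nat_lit 490000, [nat_lit 1100000, nat_lit 1442500, nat_lit 1271250], [nat_lit 11, nat_lit 40, nat_lit 20, nat_lit 80, nat_lit 1, nat_lit 345, nat_lit 125, nat_lit 10]⟩, C1.Rw.none,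
 ⟨nat_lit 5916, nat_lit 6325, ⟨.ofNat (nat_lit 210470), .ofNat (nat_lit 374999), .ofNat (nat_lit 253206), .ofNat (nat_lit 417734), .ofNat (nat_lit 221719), .ofNat (nat_lit 378786), .ofNat (nat_lit 264398), .ofNat (nat_lit 421465)⟩, ⟨.negSucc (nat_lit 103633), .ofNat (nat_lit 60895), .negSucc (nat_lit 82265), .ofNat (nat_lit 82263), .negSucc (nat_lit 84722), .ofNat (nat_lit 72344), .negSucc (nat_lit 63383), .ofNat (nat_lit 93684)⟩⟩, []⟩
noncomputable def p028_l140 : Lf2 := ⟨nat_lit 0, nat_lit 8, [nat_lit 50, nat_lit 5, nat_lit 5, nat_lit 20], true, nat_lit 0, nat_lit 80, nat_lit 0, nat_lit 352, ⟨nat_lit 0, nat_lit 0, nat_lit 1000, nat_lit 4, nat_lit 130, nat_lit 0, nat_lit 18, nat_lit 0, nat_lit 150, nat_lit 218, nat_lit 160067, nat_lit 313, nat_lit 60592670, nat_lit 0, nat_lit 0, nat_lit 1576885, false, false⟩,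
 nat_lit 0, nat_lit 9268, nat_lit 0, nat_lit 0, nat_lit 5394, nat_lit 0, nat_lit 1034, nat_lit 0, nat_lit 0, nat_lit 0, nat_lit 0, nat_lit 0, nat_lit 0, nat_lit 0, nat_lit 192, nat_lit 1000000, nat_lit 0, nat_lit 0, [(nat_lit 9, [(nat_lit 6, nat_lit 1000)])],
 ⟨p028_k55, nat_lit 0, nat_lit 0, nat_lit 439, nat_lit 0, nat_lit 438372, [nat_lit 4169600001, nat_lit 3411333334, nat_lit 231866666], [], [nat_lit 17422791503, nat_lit 14680776976, nat_lit 13559792605, nat_lit 15285834128, nat_lit 10490647029, nat_lit 10237975736, nat_lit 15784422245, nat_lit 13242737081], nat_lit 1271250, nat_lit 1271250, nat_lit 490000, nat_lit 1100001, nat_lit 0, nat_lit 490000, [nat_lit 1100000, nat_lit 1442500, nat_lit 1271250], [nat_lit 11, nat_lit 40, nat_lit 20, nat_lit 80, nat_lit 1, nat_lit 373, nat_lit 150, nat_lit 11]⟩, C1.Rw.none,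
 ⟨nat_lit 5477, nat_lit 5917, ⟨.ofNat (nat_lit 221719), .ofNat (nat_lit 378786), .ofNat (nat_lit 264398), .ofNat (nat_lit 421465), .ofNat (nat_lit 232485), .ofNat (nat_lit 382351), .ofNat (nat_lit 275199), .ofNat (nat_lit 425065)⟩, ⟨.negSucc (nat_lit 84722), .ofNat (nat_lit 72344), .negSucc (nat_lit 63383), .ofNat (nat_lit 93684), .negSucc (nat_lit 66879), .ofNat (nat_lit 82986), .negSucc (nat_lit 45522), .ofNat (nat_lit 104343)⟩⟩, []⟩
noncomputable def p028_l141 : Lf2 := ⟨nat_lit 2, nat_lit 2, [nat_lit 10, nat_lit 5, nat_lit 5, nat_lit 20], true, nat_lit 80, nat_lit 160, nat_lit 0, nat_lit 352, zbN0,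
 nat_lit 0, nat_lit 0, nat_lit 0, nat_lit 0, nat_lit 0, nat_lit 0, nat_lit 0, nat_lit 0, nat_lit 0, nat_lit 0, nat_lit 0, nat_lit 0, nat_lit 0, nat_lit 0, nat_lit 0, nat_lit 0, nat_lit 0, nat_lit 0, [],
 ⟨p028_k59, nat_lit 0, nat_lit 0, nat_lit 196, nat_lit 0, nat_lit 85401, [], [], [], nat_lit 1271250, nat_lit 1271250, nat_lit 490000, nat_lit 1100001, nat_lit 490000, nat_lit 1100001, [nat_lit 1100000, nat_lit 1442500, nat_lit 1271250], [nat_lit 9, nat_lit 40, nat_lit 20, nat_lit 80, nat_lit 2, nat_lit 317, nat_lit 100, nat_lit 10]⟩, C1.Rw.none,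
 zbF0, []⟩
noncomputable def p028_l142 : Lf2 := ⟨nat_lit 0, nat_lit 2, [nat_lit 10, nat_lit 5, nat_lit 5, nat_lit 20], true, nat_lit 80, nat_lit 160, nat_lit 0, nat_lit 352, ⟨nat_lit 0, nat_lit 0, nat_lit 1000, nat_lit 4, nat_lit 127, nat_lit 1000, nat_lit 63, nat_lit 1000, nat_lit 36817, nat_lit 262, nat_lit 150417, nat_lit 310, nat_lit 58417483, nat_lit 0, nat_lit 0, nat_lit 2393005, false, false⟩,
 nat_lit 0, nat_lit 17718, nat_lit 0, nat_lit 0, nat_lit 9610, nat_lit 0, nat_lit 0, nat_lit 0, nat_lit 0, nat_lit 0, nat_lit 0, nat_lit 0, nat_lit 0, nat_lit 0, nat_lit 80, nat_lit 1000000, nat_lit 0, nat_lit 0, [(nat_lit 6, [(nat_lit 6, nat_lit 1000)])],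
 ⟨p028_k60, nat_lit 0, nat_lit 0, nat_lit 197, nat_lit 0, nat_lit 132138, [nat_lit 2257066667, nat_lit 1408000000, nat_lit 211200000], [], [nat_lit 4198543125, nat_lit 5028581370, nat_lit 5098776765, nat_lit 5835050810, nat_lit 5098776765, nat_lit 5835050810, nat_lit 5983367485, nat_lit 6631768130], nat_lit 1271250, nat_lit 1271250, nat_lit 490000, nat_lit 1100001, nat_lit 490000, nat_lit 1100001, [nat_lit 1100000, nat_lit 1442500, nat_lit 1271250], [nat_lit 9, nat_lit 40, nat_lit 20, nat_lit 80, nat_lit 2, nat_lit 317, nat_lit 100, nat_lit 10]⟩, C1.Rw.none,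
 ⟨nat_lit 6123, nat_lit 6225, ⟨.ofNat (nat_lit 213332), .ofNat (nat_lit 375967), .ofNat (nat_lit 256045), .ofNat (nat_lit 418681), .ofNat (nat_lit 216160), .ofNat (nat_lit 376922), .ofNat (nat_lit 258856), .ofNat (nat_lit 419618)⟩, ⟨.ofNat (nat_lit 63835), .ofNat (nat_lit 226471), .ofNat (nat_lit 85192), .ofNat (nat_lit 247827), .ofNat (nat_lit 66723), .ofNat (nat_lit 227485), .ofNat (nat_lit 88071), .ofNat (nat_lit 248833)⟩⟩, []⟩
noncomputable def p028_l143 : Lf2 := ⟨nat_lit 1, nat_lit 4, [nat_lit 38, nat_lit 5, nat_lit 5, nat_lit 20], false, nat_lit 80, nat_lit 160, nat_lit 0, nat_lit 352, zbN0,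
 nat_lit 0, nat_lit 0, nat_lit 0, nat_lit 0, nat_lit 0, nat_lit 0, nat_lit 0, nat_lit 0, nat_lit 0, nat_lit 0, nat_lit 0, nat_lit 0, nat_lit 0, nat_lit 0, nat_lit 0, nat_lit 0, nat_lit 0, nat_lit 0, [],
 C1.Rw.none, C1.Rw.none,
 zbF0, []⟩
noncomputable def p028_l144 : Lf2 := ⟨nat_lit 0, nat_lit 4, [nat_lit 38, nat_lit 5, nat_lit 5, nat_lit 20], true, nat_lit 80, nat_lit 160, nat_lit 0, nat_lit 352, ⟨nat_lit 0, nat_lit 0, nat_lit 1000, nat_lit 4, nat_lit 112, nat_lit 1000, nat_lit 64, nat_lit 1000, nat_lit 38400, nat_lit 263, nat_lit 117600, nat_lit 299, nat_lit 59594051, nat_lit 0, nat_lit 0, nat_lit 2182854, false, false⟩,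
 nat_lit 0, nat_lit 16925, nat_lit 0, nat_lit 0, nat_lit 9402, nat_lit 0, nat_lit 3357, nat_lit 0, nat_lit 0, nat_lit 0, nat_lit 0, nat_lit 0, nat_lit 0, nat_lit 0, nat_lit 80, nat_lit 1000000, nat_lit 0, nat_lit 0, [(nat_lit 6, [(nat_lit 6, nat_lit 1000)])],
 ⟨p028_k61, nat_lit 0, nat_lit 0, nat_lit 202, nat_lit 0, nat_lit 231936, [nat_lit 2814000001, nat_lit 141466667], [], [nat_lit 9166112826, nat_lit 6754227168, nat_lit 4697178166, nat_lit 6251417724, nat_lit 5957080042, nat_lit 7406463380, nat_lit 5638762610, nat_lit 7011904404], nat_lit 1271250, nat_lit 1271250, nat_lit 490000, nat_lit 780000, nat_lit 490000, nat_lit 1100001, [nat_lit 1100000, nat_lit 1785000], [nat_lit 39, nat_lit 40, nat_lit 20, nat_lit 80, nat_lit 7, nat_lit 289, nat_lit 75, nat_lit 9]⟩, C1.Rw.none,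
 ⟨nat_lit 5916, nat_lit 6124, ⟨.ofNat (nat_lit 216160), .ofNat (nat_lit 296541), .ofNat (nat_lit 258856), .ofNat (nat_lit 339237), .ofNat (nat_lit 221719), .ofNat (nat_lit 300253), .ofNat (nat_lit 264398), .ofNat (nat_lit 342931)⟩, ⟨.ofNat (nat_lit 66723), .ofNat (nat_lit 227485), .ofNat (nat_lit 88071), .ofNat (nat_lit 248833), .ofNat (nat_lit 72344), .ofNat (nat_lit 229411), .ofNat (nat_lit 93684), .ofNat (nat_lit 250751)⟩⟩, []⟩
noncomputable def p028_l145 : Lf2 := ⟨nat_lit 0, nat_lit 4, [nat_lit 38, nat_lit 5, nat_lit 5, nat_lit 20], true, nat_lit 80, nat_lit 160, nat_lit 0, nat_lit 352, ⟨nat_lit 0, nat_lit 0, nat_lit 1000, nat_lit 4, nat_lit 144, nat_lit 1000, nat_lit 64, nat_lit 1000, nat_lit 38400, nat_lit 263, nat_lit 194400, nat_lit 323, nat_lit 56828898, nat_lit 0, nat_lit 0, nat_lit 2660775, false, false⟩,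
 nat_lit 0, nat_lit 22443, nat_lit 0, nat_lit 0, nat_lit 12468, nat_lit 0, nat_lit 5059, nat_lit 0, nat_lit 0, nat_lit 0, nat_lit 0, nat_lit 0, nat_lit 0, nat_lit 0, nat_lit 80, nat_lit 1000000, nat_lit 0, nat_lit 0, [(nat_lit 6, [(nat_lit 6, nat_lit 1000)])],
 ⟨p028_k62, nat_lit 0, nat_lit 0, nat_lit 182, nat_lit 0, nat_lit 231936, [nat_lit 2257066667, nat_lit 1408000000, nat_lit 211200000], [], [nat_lit 8328343739, nat_lit 5129940167, nat_lit 4158322228, nat_lit 5949162920, nat_lit 3404583740, nat_lit 5098113336, nat_lit 4550381044, nat_lit 6120661496], nat_lit 1271250, nat_lit 1271250, nat_lit 780000, nat_lit 1100001, nat_lit 490000, nat_lit 1100001, [nat_lit 1100000, nat_lit 1442500, nat_lit 1271250], [nat_lit 9, nat_lit 40, nat_lit 20, nat_lit 80, nat_lit 2, nat_lit 317, nat_lit 100, nat_lit 10]⟩, C1.Rw.none,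
 ⟨nat_lit 5916, nat_lit 6124, ⟨.ofNat (nat_lit 296541), .ofNat (nat_lit 376922), .ofNat (nat_lit 339237), .ofNat (nat_lit 419618), .ofNat (nat_lit 300253), .ofNat (nat_lit 378786), .ofNat (nat_lit 342931), .ofNat (nat_lit 421465)⟩, ⟨.ofNat (nat_lit 66723), .ofNat (nat_lit 227485), .ofNat (nat_lit 88071), .ofNat (nat_lit 248833), .ofNat (nat_lit 72344), .ofNat (nat_lit 229411), .ofNat (nat_lit 93684), .ofNat (nat_lit 250751)⟩⟩, []⟩
noncomputable def p028_l146 : Lf2 := ⟨nat_lit 1, nat_lit 8, [nat_lit 50, nat_lit 5, nat_lit 5, nat_lit 20], false, nat_lit 80, nat_lit 160, nat_lit 0, nat_lit 352, zbN0,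
 nat_lit 0, nat_lit 0, nat_lit 0, nat_lit 0, nat_lit 0, nat_lit 0, nat_lit 0, nat_lit 0, nat_lit 0, nat_lit 0, nat_lit 0, nat_lit 0, nat_lit 0, nat_lit 0, nat_lit 0, nat_lit 0, nat_lit 0, nat_lit 0, [],
 C1.Rw.none, C1.Rw.none,
 zbF0, []⟩
noncomputable def p028_l147 : Lf2 := ⟨nat_lit 0, nat_lit 5, [nat_lit 4, nat_lit 5, nat_lit 5, nat_lit 20], true, nat_lit 80, nat_lit 160, nat_lit 0, nat_lit 352, ⟨nat_lit 0, nat_lit 0, nat_lit 1000, nat_lit 4, nat_lit 114, nat_lit 1000, nat_lit 65, nat_lit 1000, nat_lit 40017, nat_lit 264, nat_lit 120417, nat_lit 300, nat_lit 59355058, nat_lit 0, nat_lit 0, nat_lit 2235205, false, false⟩,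
 nat_lit 0, nat_lit 9230, nat_lit 0, nat_lit 0, nat_lit 5372, nat_lit 0, nat_lit 1231, nat_lit 0, nat_lit 0, nat_lit 0, nat_lit 0, nat_lit 0, nat_lit 0, nat_lit 0, nat_lit 117, nat_lit 1000000, nat_lit 0, nat_lit 0, [(nat_lit 9, [(nat_lit 6, nat_lit 1000)])],
 ⟨p028_k51, nat_lit 0, nat_lit 0, nat_lit 204, nat_lit 0, nat_lit 321104, [nat_lit 3178400000, nat_lit 158133334], [], [nat_lit 10779316334, nat_lit 9401242546, nat_lit 8629862928, nat_lit 9378997072, nat_lit 9623122032, nat_lit 10323601016, nat_lit 9931227800, nat_lit 10594462180], nat_lit 1271250, nat_lit 1271250, nat_lit 490000, nat_lit 780000, nat_lit 490000, nat_lit 1100001, [nat_lit 1100000, nat_lit 1785000], [nat_lit 39, nat_lit 40, nat_lit 20, nat_lit 80, nat_lit 7, nat_lit 289, nat_lit 75, nat_lit 9]⟩, C1.Rw.none,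
 ⟨nat_lit 5700, nat_lit 5917, ⟨.ofNat (nat_lit 221719), .ofNat (nat_lit 300253), .ofNat (nat_lit 264398), .ofNat (nat_lit 342931), .ofNat (nat_lit 227157), .ofNat (nat_lit 303876), .ofNat (nat_lit 269841), .ofNat (nat_lit 346560)⟩, ⟨.ofNat (nat_lit 72344), .ofNat (nat_lit 229411), .ofNat (nat_lit 93684), .ofNat (nat_lit 250751), .ofNat (nat_lit 77764), .ofNat (nat_lit 231202), .ofNat (nat_lit 99106), .ofNat (nat_lit 252544)⟩⟩, []⟩
noncomputable def p028_l148 : Lf2 := ⟨nat_lit 0, nat_lit 5, [nat_lit 4, nat_lit 5, nat_lit 5, nat_lit 20], true, nat_lit 80, nat_lit 160, nat_lit 0, nat_lit 352, ⟨nat_lit 0, nat_lit 0, nat_lit 1000, nat_lit 4, nat_lit 145, nat_lit 1000, nat_lit 65, nat_lit 1000, nat_lit 40017, nat_lit 264, nat_lit 198017, nat_lit 324, nat_lit 56641335, nat_lit 0, nat_lit 0, nat_lit 2699306, false, false⟩,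
 nat_lit 0, nat_lit 11733, nat_lit 0, nat_lit 0, nat_lit 6829, nat_lit 0, nat_lit 2299, nat_lit 0, nat_lit 0, nat_lit 0, nat_lit 0, nat_lit 0, nat_lit 0, nat_lit 0, nat_lit 117, nat_lit 1000000, nat_lit 0, nat_lit 0, [(nat_lit 9, [(nat_lit 6, nat_lit 1000)])],
 ⟨p028_k63, nat_lit 0, nat_lit 0, nat_lit 184, nat_lit 0, nat_lit 321104, [nat_lit 2969600000, nat_lit 1600000000, nat_lit 226400000], [], [nat_lit 11022093375, nat_lit 9270256834, nat_lit 8629436010, nat_lit 9792266911, nat_lit 8617965858, nat_lit 9722236871, nat_lit 9687768838, nat_lit 10718459019], nat_lit 1271250, nat_lit 1271250, nat_lit 780000, nat_lit 1100001, nat_lit 490000, nat_lit 1100001, [nat_lit 1100000, nat_lit 1442500, nat_lit 1271250], [nat_lit 9, nat_lit 40, nat_lit 20, nat_lit 80, nat_lit 2, nat_lit 317, nat_lit 100, nat_lit 10]⟩, C1.Rw.none,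
 ⟨nat_lit 5700, nat_lit 5917, ⟨.ofNat (nat_lit 300253), .ofNat (nat_lit 378786), .ofNat (nat_lit 342931), .ofNat (nat_lit 421465), .ofNat (nat_lit 303876), .ofNat (nat_lit 380596), .ofNat (nat_lit 346560), .ofNat (nat_lit 423279)⟩, ⟨.ofNat (nat_lit 72344), .ofNat (nat_lit 229411), .ofNat (nat_lit 93684), .ofNat (nat_lit 250751), .ofNat (nat_lit 77764), .ofNat (nat_lit 231202), .ofNat (nat_lit 99106), .ofNat (nat_lit 252544)⟩⟩, []⟩
noncomputable def p028_l149 : Lf2 := ⟨nat_lit 1, nat_lit 8, [nat_lit 50, nat_lit 5, nat_lit 5, nat_lit 20], false, nat_lit 80, nat_lit 160, nat_lit 0, nat_lit 352, zbN0,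
 nat_lit 0, nat_lit 0, nat_lit 0, nat_lit 0, nat_lit 0, nat_lit 0, nat_lit 0, nat_lit 0, nat_lit 0, nat_lit 0, nat_lit 0, nat_lit 0, nat_lit 0, nat_lit 0, nat_lit 0, nat_lit 0, nat_lit 0, nat_lit 0, [],
 C1.Rw.none, C1.Rw.none,
 zbF0, []⟩
noncomputable def p028_l150 : Lf2 := ⟨nat_lit 0, nat_lit 8, [nat_lit 50, nat_lit 5, nat_lit 5, nat_lit 20], true, nat_lit 80, nat_lit 160, nat_lit 0, nat_lit 352, ⟨nat_lit 0, nat_lit 0, nat_lit 1000, nat_lit 4, nat_lit 130, nat_lit 1000, nat_lit 66, nat_lit 1000, nat_lit 41667, nat_lit 265, nat_lit 160067, nat_lit 313, nat_lit 57876999, nat_lit 0, nat_lit 0, nat_lit 2506351, false, false⟩,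
 nat_lit 0, nat_lit 2702, nat_lit 0, nat_lit 0, nat_lit 1645, nat_lit 0, nat_lit 0, nat_lit 0, nat_lit 0, nat_lit 0, nat_lit 0, nat_lit 0, nat_lit 0, nat_lit 0, nat_lit 123, nat_lit 605200, nat_lit 0, nat_lit 0, [(nat_lit 9, [(nat_lit 5, nat_lit 658), (nat_lit 6, nat_lit 342)])],
 ⟨p028_k64, nat_lit 0, nat_lit 0, nat_lit 297, nat_lit 0, nat_lit 360124, [nat_lit 3347750400, nat_lit 2226978667, nat_lit 59797333], [], [nat_lit 20628890132, nat_lit 20414720180, nat_lit 21282030812, nat_lit 21463095860, nat_lit 21282030812, nat_lit 21463095860, nat_lit 22683852112, nat_lit 22850437090], nat_lit 1271250, nat_lit 1271250, nat_lit 490000, nat_lit 1100001, nat_lit 490000, nat_lit 1100001, [nat_lit 1100000, nat_lit 1442500, nat_lit 1271250], [nat_lit 11, nat_lit 40, nat_lit 20, nat_lit 80, nat_lit 1, nat_lit 373, nat_lit 150, nat_lit 11]⟩, C1.Rw.none,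
 ⟨nat_lit 5590, nat_lit 5701, ⟨.ofNat (nat_lit 227157), .ofNat (nat_lit 380596), .ofNat (nat_lit 269841), .ofNat (nat_lit 423279), .ofNat (nat_lit 229835), .ofNat (nat_lit 381480), .ofNat (nat_lit 272530), .ofNat (nat_lit 424176)⟩, ⟨.ofNat (nat_lit 77764), .ofNat (nat_lit 231202), .ofNat (nat_lit 99106), .ofNat (nat_lit 252544), .ofNat (nat_lit 80399), .ofNat (nat_lit 232045), .ofNat (nat_lit 101747), .ofNat (nat_lit 253393)⟩⟩, []⟩
noncomputable def p028_l151 : Lf2 := ⟨nat_lit 0, nat_lit 8, [nat_lit 50, nat_lit 5, nat_lit 5, nat_lit 20], true, nat_lit 80, nat_lit 160, nat_lit 0, nat_lit 352, ⟨nat_lit 0, nat_lit 0, nat_lit 1000, nat_lit 4, nat_lit 131, nat_lit 1000, nat_lit 67, nat_lit 1000, nat_lit 41667, nat_lit 265, nat_lit 160067, nat_lit 313, nat_lit 57772751, nat_lit 0, nat_lit 0, nat_lit 2527795, false, false⟩,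
 nat_lit 0, nat_lit 2906, nat_lit 0, nat_lit 0, nat_lit 1809, nat_lit 0, nat_lit 0, nat_lit 0, nat_lit 0, nat_lit 0, nat_lit 0, nat_lit 0, nat_lit 0, nat_lit 0, nat_lit 87, nat_lit 717400, nat_lit 0, nat_lit 0, [(nat_lit 9, [(nat_lit 5, nat_lit 471), (nat_lit 6, nat_lit 529)])],
 ⟨p028_k65, nat_lit 0, nat_lit 0, nat_lit 246, nat_lit 0, nat_lit 399843, [nat_lit 2691564801, nat_lit 1251325600, nat_lit 155249600], [], [nat_lit 20005901924, nat_lit 19770380073, nat_lit 20584553301, nat_lit 20769440450, nat_lit 20584553301, nat_lit 20769440450, nat_lit 21941632267, nat_lit 22111339722], nat_lit 1271250, nat_lit 1271250, nat_lit 490000, nat_lit 1100001, nat_lit 490000, nat_lit 1100001, [nat_lit 1100000, nat_lit 1442500, nat_lit 1271250], [nat_lit 9, nat_lit 40, nat_lit 20, nat_lit 80, nat_lit 2, nat_lit 317, nat_lit 100, nat_lit 10]⟩, C1.Rw.none,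
 ⟨nat_lit 5477, nat_lit 5591, ⟨.ofNat (nat_lit 229835), .ofNat (nat_lit 381480), .ofNat (nat_lit 272530), .ofNat (nat_lit 424176), .ofNat (nat_lit 232485), .ofNat (nat_lit 382351), .ofNat (nat_lit 275199), .ofNat (nat_lit 425065)⟩, ⟨.ofNat (nat_lit 80399), .ofNat (nat_lit 232045), .ofNat (nat_lit 101747), .ofNat (nat_lit 253393), .ofNat (nat_lit 82986), .ofNat (nat_lit 232852), .ofNat (nat_lit 104343), .ofNat (nat_lit 254209)⟩⟩, []⟩
noncomputable def b_VL_600_400_5_1 : St := ⟨true, nat_lit 1, nat_lit 0, nat_lit 1, nat_lit 40, nat_lit 240, nat_lit 280, nat_lit 160, nat_lit 200, nat_lit 0, nat_lit 160, nat_lit 20, nat_lit 40, nat_lit 0, nat_lit 160, nat_lit 0, nat_lit 352, nat_lit 0, nat_lit 32, nat_lit 0, nat_lit 0, nat_lit 0, nat_lit 0⟩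
theorem d_VL_600_400_5_1 (h : EB TB.env) : Dead b_VL_600_400_5_1 := chkB_sound0 h (T :=
(.spl (nat_lit 2) (nat_lit 80)
(.spl (nat_lit 4) (nat_lit 80)
(.spl (nat_lit 0) (nat_lit 260)
(.leaf p028_l134)
(.spl (nat_lit 0) (nat_lit 270)
(.leaf p028_l135)
(.leaf p028_l136)))
(.spl (nat_lit 0) (nat_lit 260)
(.leaf p028_l137)
(.leaf p028_l138)))
(.spl (nat_lit 4) (nat_lit 80)
(.spl (nat_lit 0) (nat_lit 260)
(.leaf p028_l139)
(.leaf p028_l140))
(.spl (nat_lit 0) (nat_lit 260)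
(.spl (nat_lit 6) (nat_lit 16)
(.spl (nat_lit 0) (nat_lit 250)
(.spl (nat_lit 6) (nat_lit 8)
(.spl (nat_lit 0) (nat_lit 245)
(.leaf p028_l141)
(.leaf p028_l142))
(.leaf p028_l143))
(.spl (nat_lit 2) (nat_lit 120)
(.leaf p028_l144)
(.leaf p028_l145)))
(.leaf p028_l146))
(.spl (nat_lit 0) (nat_lit 270)
(.spl (nat_lit 6) (nat_lit 20)
(.spl (nat_lit 2) (nat_lit 120)
(.leaf p028_l147)
(.leaf p028_l148))
(.leaf p028_l149))
(.spl (nat_lit 0) (nat_lit 275)
(.leaf p028_l150)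
(.leaf p028_l151))))))) (by decide +kernel)

end B2
end Pool.Agent.Lib.MP_6947cd_al
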